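import Pool.Agent.Lib.MP_5854e1_co.DtD

/-!
# Windows and cells of the rings
-/

set_option autoImplicit false
set_option maxRecDepth 100000
set_option deprecated.oldSectionVars true

namespace Pool.Agent.Lib.MP_5854e1_co.Cz

open Pool.Agent.Lib.MP_5854e1_co

noncomputable section

noncomputable def tv2885 : DT := (.nd (nat_lit 0) (.nd (nat_lit 1) (.nd (nat_lit 2) (.nd (nat_lit 3) (.nd (nat_lit 4) (.nd (nat_lit 5) (.nd (nat_lit 6) 
(.lf (nat_lit 219648) (.g (nat_lit 1331) (.e (nat_lit 90176) (nat_lit 15) (.e (nat_lit 188450) (nat_lit 23) (.e (nat_lit 204852) (nat_lit 26) (.e (nat_lit 336240) (nat_lit 15) .nil)))) .nil)) 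
(.lf (nat_lit 219712) (.g (nat_lit 1311) (.e (nat_lit 90176) (nat_lit 15) (.e (nat_lit 188452) (nat_lit 23) (.e (nat_lit 204848) (nat_lit 25) (.e (nat_lit 335616) (nat_lit 17) .nil)))) .nil))) (.nd (nat_lit 6) 
(.lf (nat_lit 219680) (.g (nat_lit 2876) (.e (nat_lit 90176) (nat_lit 15) (.e (nat_lit 188450) (nat_lit 23) (.e (nat_lit 204880) (nat_lit 32) (.e (nat_lit 385051) (nat_lit 21) (.e (nat_lit 7936) (nat_lit 373) .nil))))) .nil)) 
(.lf (nat_lit 219744) (.g (nat_lit 1740) (.e (nat_lit 90177) (nat_lit 15) (.e (nat_lit 188446) (nat_lit 21) (.e (nat_lit 164177) (nat_lit 154) (.e (nat_lit 57389) (nat_lit 5) (.e (nat_lit 114695) (nat_lit 11) .nil))))) .nil)))) (.nd (nat_lit 5) (.nd (nat_lit 6) 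
(.lf (nat_lit 219664) (.g (nat_lit 406) (.e (nat_lit 90176) (nat_lit 15) (.e (nat_lit 188450) (nat_lit 23) (.e (nat_lit 204862) (nat_lit 27) .nil))) .nil)) 
(.lf (nat_lit 219728) (.g (nat_lit 200) (.e (nat_lit 90176) (nat_lit 15) (.e (nat_lit 188456) (nat_lit 25) (.e (nat_lit 245767) (nat_lit 0) .nil))) .nil))) (.nd (nat_lit 6) 
(.lf (nat_lit 219696) (.g (nat_lit 606) (.e (nat_lit 90176) (nat_lit 15) (.e (nat_lit 188452) (nat_lit 23) (.e (nat_lit 204816) (nat_lit 17) .nil))) .nil)) 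
(.lf (nat_lit 219760) (.g (nat_lit 1435) (.e (nat_lit 90177) (nat_lit 15) (.e (nat_lit 188450) (nat_lit 23) (.e (nat_lit 204845) (nat_lit 24) (.e (nat_lit 319528) (nat_lit 16) .nil)))) .nil))))) (.nd (nat_lit 4) (.nd (nat_lit 5) (.nd (nat_lit 6) 
(.lf (nat_lit 219656) (.g (nat_lit 1511) (.e (nat_lit 90176) (nat_lit 15) (.e (nat_lit 188450) (nat_lit 23) (.e (nat_lit 204855) (nat_lit 26) (.e (nat_lit 335989) (nat_lit 1) .nil)))) .nil)) 
(.lf (nat_lit 219720) (.g (nat_lit 1557) (.e (nat_lit 90176) (nat_lit 15) (.e (nat_lit 188452) (nat_lit 23) (.e (nat_lit 204884) (nat_lit 33) (.e (nat_lit 401460) (nat_lit 14) .nil)))) .nil))) (.nd (nat_lit 6) 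
(.lf (nat_lit 219688) (.g (nat_lit 1239) (.e (nat_lit 90176) (nat_lit 15) (.e (nat_lit 188451) (nat_lit 23) (.e (nat_lit 204846) (nat_lit 24) (.e (nat_lit 319528) (nat_lit 16) .nil)))) .nil)) 
(.lf (nat_lit 219752) (.g (nat_lit 1965) (.e (nat_lit 90177) (nat_lit 15) (.e (nat_lit 188446) (nat_lit 21) (.e (nat_lit 164178) (nat_lit 154) (.e (nat_lit 57390) (nat_lit 5) (.e (nat_lit 114696) (nat_lit 11) (.e (nat_lit 426429) (nat_lit 17) .nil)))))) (.g (nat_lit 4) .nil .nil))))) (.nd (nat_lit 5) (.nd (nat_lit 6) 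
(.lf (nat_lit 219672) (.g (nat_lit 1799) (.e (nat_lit 90176) (nat_lit 15) (.e (nat_lit 188450) (nat_lit 23) (.e (nat_lit 204863) (nat_lit 27) (.e (nat_lit 344099) (nat_lit 18) .nil)))) .nil)) 
(.lf (nat_lit 219736) (.g (nat_lit 500) (.e (nat_lit 90177) (nat_lit 15) (.e (nat_lit 188434) (nat_lit 20) (.e (nat_lit 3272) (nat_lit 199) .nil))) .nil))) (.nd (nat_lit 6) 
(.lf (nat_lit 219704) (.g (nat_lit 1695) (.e (nat_lit 90176) (nat_lit 15) (.e (nat_lit 188452) (nat_lit 23) (.e (nat_lit 204845) (nat_lit 24) (.e (nat_lit 319528) (nat_lit 16) .nil)))) .nil)) 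
(.lf (nat_lit 219768) (.g (nat_lit 1107) (.e (nat_lit 90177) (nat_lit 15) (.e (nat_lit 188452) (nat_lit 23) (.e (nat_lit 204826) (nat_lit 17) .nil))) .nil)))))) (.nd (nat_lit 3) (.nd (nat_lit 4) (.nd (nat_lit 5) (.nd (nat_lit 6) 
(.lf (nat_lit 219652) (.g (nat_lit 1308) (.e (nat_lit 90176) (nat_lit 15) (.e (nat_lit 188450) (nat_lit 23) (.e (nat_lit 204852) (nat_lit 26) (.e (nat_lit 336261) (nat_lit 15) .nil)))) .nil)) 
(.lf (nat_lit 219716) (.g (nat_lit 498) (.e (nat_lit 90176) (nat_lit 15) (.e (nat_lit 188452) (nat_lit 23) (.e (nat_lit 204863) (nat_lit 27) .nil))) .nil))) (.nd (nat_lit 6) 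
(.lf (nat_lit 219684) (.g (nat_lit 771) (.e (nat_lit 90176) (nat_lit 15) (.e (nat_lit 188450) (nat_lit 23) (.e (nat_lit 204885) (nat_lit 33) (.e (nat_lit 401414) (nat_lit 0) .nil)))) .nil)) 
(.lf (nat_lit 219748) (.g (nat_lit 783) (.e (nat_lit 90177) (nat_lit 15) (.e (nat_lit 188446) (nat_lit 21) (.e (nat_lit 164178) (nat_lit 154) .nil))) .nil)))) (.nd (nat_lit 5) (.nd (nat_lit 6) 
(.lf (nat_lit 219668) (.g (nat_lit 2827) (.e (nat_lit 90176) (nat_lit 15) (.e (nat_lit 188450) (nat_lit 23) (.e (nat_lit 204863) (nat_lit 27) (.e (nat_lit 344096) (nat_lit 18) (.e (nat_lit 4780) (nat_lit 281) (.e (nat_lit 1039) (nat_lit 81) (.e (nat_lit 1238) (nat_lit 91) .nil))))))) (.g (nat_lit 4) .nil .nil))) 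
(.lf (nat_lit 219732) (.g (nat_lit 535) (.e (nat_lit 90176) (nat_lit 15) (.e (nat_lit 188461) (nat_lit 26) (.e (nat_lit 261888) (nat_lit 4) .nil))) .nil))) (.nd (nat_lit 6) 
(.lf (nat_lit 219700) (.g (nat_lit 1149) (.e (nat_lit 90176) (nat_lit 15) (.e (nat_lit 188452) (nat_lit 23) (.e (nat_lit 204821) (nat_lit 17) (.e (nat_lit 6148) (nat_lit 332) .nil)))) .nil)) 
(.lf (nat_lit 219764) (.g (nat_lit 113) (.e (nat_lit 90177) (nat_lit 15) (.e (nat_lit 188452) (nat_lit 23) (.e (nat_lit 204816) (nat_lit 17) .nil))) .nil))))) (.nd (nat_lit 4) (.nd (nat_lit 5) (.nd (nat_lit 6) 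
(.lf (nat_lit 219660) (.g (nat_lit 831) (.e (nat_lit 90176) (nat_lit 15) (.e (nat_lit 188450) (nat_lit 23) (.e (nat_lit 204856) (nat_lit 26) (.e (nat_lit 336031) (nat_lit 4) .nil)))) .nil)) 
(.lf (nat_lit 219724) (.g (nat_lit 620) (.e (nat_lit 90176) (nat_lit 15) (.e (nat_lit 188453) (nat_lit 24) (.e (nat_lit 229520) (nat_lit 126) .nil))) .nil))) (.nd (nat_lit 6) 
(.lf (nat_lit 219692) (.g (nat_lit 1157) (.e (nat_lit 90176) (nat_lit 15) (.e (nat_lit 188451) (nat_lit 23) (.e (nat_lit 204846) (nat_lit 24) (.e (nat_lit 319536) (nat_lit 17) .nil)))) .nil)) 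
(.lf (nat_lit 219756) (.g (nat_lit 1623) (.e (nat_lit 90177) (nat_lit 15) (.e (nat_lit 188449) (nat_lit 22) (.e (nat_lit 196630) (nat_lit 9) (.e (nat_lit 1398) (nat_lit 106) .nil)))) .nil)))) (.nd (nat_lit 5) (.nd (nat_lit 6) 
(.lf (nat_lit 219676) (.g (nat_lit 1516) (.e (nat_lit 90176) (nat_lit 15) (.e (nat_lit 188450) (nat_lit 23) (.e (nat_lit 204863) (nat_lit 27) (.e (nat_lit 344163) (nat_lit 37) .nil)))) .nil)) 
(.lf (nat_lit 219740) (.g (nat_lit 730) (.e (nat_lit 90177) (nat_lit 15) (.e (nat_lit 188446) (nat_lit 21) (.e (nat_lit 164177) (nat_lit 154) .nil))) .nil))) (.nd (nat_lit 6) 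
(.lf (nat_lit 219708) (.g (nat_lit 3287) (.e (nat_lit 90176) (nat_lit 15) (.e (nat_lit 188452) (nat_lit 23) (.e (nat_lit 204846) (nat_lit 24) (.e (nat_lit 319511) (nat_lit 10) (.e (nat_lit 5293) (nat_lit 298) .nil))))) .nil)) 
(.lf (nat_lit 219772) (.g (nat_lit 3320) (.e (nat_lit 90177) (nat_lit 15) (.e (nat_lit 188452) (nat_lit 23) (.e (nat_lit 204846) (nat_lit 24) (.e (nat_lit 319504) (nat_lit 10) (.e (nat_lit 7936) (nat_lit 298) (.e (nat_lit 1231) (nat_lit 91) .nil)))))) (.g (nat_lit 4) .nil .nil)))))))) (.nd (nat_lit 2) (.nd (nat_lit 3) (.nd (nat_lit 4) (.nd (nat_lit 5) (.nd (nat_lit 6) 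
(.lf (nat_lit 219650) (.g (nat_lit 1205) (.e (nat_lit 90176) (nat_lit 15) (.e (nat_lit 188450) (nat_lit 23) (.e (nat_lit 204852) (nat_lit 26) (.e (nat_lit 336258) (nat_lit 15) .nil)))) .nil)) 
(.lf (nat_lit 219714) (.g (nat_lit 1505) (.e (nat_lit 90176) (nat_lit 15) (.e (nat_lit 188452) (nat_lit 23) (.e (nat_lit 204849) (nat_lit 25) (.e (nat_lit 327705) (nat_lit 10) .nil)))) .nil))) (.nd (nat_lit 6) 
(.lf (nat_lit 219682) (.g (nat_lit 342) (.e (nat_lit 90176) (nat_lit 15) (.e (nat_lit 188450) (nat_lit 23) (.e (nat_lit 204885) (nat_lit 33) .nil))) .nil)) 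
(.lf (nat_lit 219746) (.g (nat_lit 1694) (.e (nat_lit 90177) (nat_lit 15) (.e (nat_lit 188446) (nat_lit 21) (.e (nat_lit 164177) (nat_lit 154) (.e (nat_lit 57389) (nat_lit 5) (.e (nat_lit 122624) (nat_lit 11) .nil))))) .nil)))) (.nd (nat_lit 5) (.nd (nat_lit 6) 
(.lf (nat_lit 219666) (.g (nat_lit 2047) (.e (nat_lit 90176) (nat_lit 15) (.e (nat_lit 188450) (nat_lit 23) (.e (nat_lit 204863) (nat_lit 27) (.e (nat_lit 344087) (nat_lit 18) (.e (nat_lit 7936) (nat_lit 283) .nil))))) .nil)) 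
(.lf (nat_lit 219730) (.g (nat_lit 379) (.e (nat_lit 90176) (nat_lit 15) (.e (nat_lit 188459) (nat_lit 26) (.e (nat_lit 261888) (nat_lit 8) .nil))) .nil))) (.nd (nat_lit 6) 
(.lf (nat_lit 219698) (.g (nat_lit 983) (.e (nat_lit 90176) (nat_lit 15) (.e (nat_lit 188452) (nat_lit 23) (.e (nat_lit 204818) (nat_lit 17) .nil))) .nil)) 
(.lf (nat_lit 219762) (.g (nat_lit 2650) (.e (nat_lit 90177) (nat_lit 15) (.e (nat_lit 188450) (nat_lit 23) (.e (nat_lit 204846) (nat_lit 24) (.e (nat_lit 319534) (nat_lit 16) (.e (nat_lit 286733) (nat_lit 2) .nil))))) .nil))))) (.nd (nat_lit 4) (.nd (nat_lit 5) (.nd (nat_lit 6) 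
(.lf (nat_lit 219658) (.g (nat_lit 1544) (.e (nat_lit 90176) (nat_lit 15) (.e (nat_lit 188450) (nat_lit 23) (.e (nat_lit 204855) (nat_lit 26) (.e (nat_lit 336338) (nat_lit 21) .nil)))) .nil)) 
(.lf (nat_lit 219722) (.g (nat_lit 622) (.e (nat_lit 90176) (nat_lit 15) (.e (nat_lit 188453) (nat_lit 24) (.e (nat_lit 229515) (nat_lit 122) .nil))) .nil))) (.nd (nat_lit 6) 
(.lf (nat_lit 219690) (.g (nat_lit 1907) (.e (nat_lit 90176) (nat_lit 15) (.e (nat_lit 188451) (nat_lit 23) (.e (nat_lit 204846) (nat_lit 24) (.e (nat_lit 319532) (nat_lit 16) (.e (nat_lit 286733) (nat_lit 2) .nil))))) .nil)) 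
(.lf (nat_lit 219754) (.g (nat_lit 443) (.e (nat_lit 90177) (nat_lit 15) (.e (nat_lit 188447) (nat_lit 22) (.e (nat_lit 196661) (nat_lit 12) .nil))) .nil)))) (.nd (nat_lit 5) (.nd (nat_lit 6) 
(.lf (nat_lit 219674) (.g (nat_lit 1771) (.e (nat_lit 90176) (nat_lit 15) (.e (nat_lit 188450) (nat_lit 23) (.e (nat_lit 204863) (nat_lit 27) (.e (nat_lit 344151) (nat_lit 34) .nil)))) .nil)) 
(.lf (nat_lit 219738) (.g (nat_lit 1515) (.e (nat_lit 90177) (nat_lit 15) (.e (nat_lit 188434) (nat_lit 20) (.e (nat_lit 3272) (nat_lit 199) (.e (nat_lit 548914) (nat_lit 19) (.e (nat_lit 188160) (nat_lit 32) .nil))))) .nil))) (.nd (nat_lit 6) 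
(.lf (nat_lit 219706) (.g (nat_lit 1849) (.e (nat_lit 90176) (nat_lit 15) (.e (nat_lit 188452) (nat_lit 23) (.e (nat_lit 204846) (nat_lit 24) (.e (nat_lit 319504) (nat_lit 10) .nil)))) .nil)) 
(.lf (nat_lit 219770) (.g (nat_lit 4445) (.e (nat_lit 90177) (nat_lit 15) (.e (nat_lit 188452) (nat_lit 23) (.e (nat_lit 204845) (nat_lit 24) (.e (nat_lit 319531) (nat_lit 16) (.e (nat_lit 286733) (nat_lit 2) .nil))))) (.g (nat_lit 0) .nil .nil))))))) (.nd (nat_lit 3) (.nd (nat_lit 4) (.nd (nat_lit 5) (.nd (nat_lit 6) 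
(.lf (nat_lit 219654) (.g (nat_lit 3042) (.e (nat_lit 90176) (nat_lit 15) (.e (nat_lit 188450) (nat_lit 23) (.e (nat_lit 204852) (nat_lit 26) (.e (nat_lit 336342) (nat_lit 21) (.e (nat_lit 237312) (nat_lit 172) (.e (nat_lit 57373) (nat_lit 2) .nil)))))) (.g (nat_lit 4) .nil .nil))) 
(.lf (nat_lit 219718) (.g (nat_lit 1854) (.e (nat_lit 90176) (nat_lit 15) (.e (nat_lit 188452) (nat_lit 23) (.e (nat_lit 204863) (nat_lit 27) (.e (nat_lit 344096) (nat_lit 18) (.e (nat_lit 7936) (nat_lit 283) .nil))))) .nil))) (.nd (nat_lit 6) 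
(.lf (nat_lit 219686) (.g (nat_lit 2832) (.e (nat_lit 90176) (nat_lit 15) (.e (nat_lit 188451) (nat_lit 23) (.e (nat_lit 204846) (nat_lit 24) (.e (nat_lit 319504) (nat_lit 10) (.e (nat_lit 5351) (nat_lit 298) .nil))))) .nil)) 
(.lf (nat_lit 219750) (.g (nat_lit 1785) (.e (nat_lit 90177) (nat_lit 15) (.e (nat_lit 188446) (nat_lit 21) (.e (nat_lit 164178) (nat_lit 154) (.e (nat_lit 57390) (nat_lit 5) (.e (nat_lit 114695) (nat_lit 11) .nil))))) .nil)))) (.nd (nat_lit 5) (.nd (nat_lit 6) 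
(.lf (nat_lit 219670) (.g (nat_lit 2818) (.e (nat_lit 90176) (nat_lit 15) (.e (nat_lit 188450) (nat_lit 23) (.e (nat_lit 204863) (nat_lit 27) (.e (nat_lit 344097) (nat_lit 18) (.e (nat_lit 7936) (nat_lit 283) .nil))))) .nil)) 
(.lf (nat_lit 219734) (.g (nat_lit 1864) (.e (nat_lit 90177) (nat_lit 15) (.e (nat_lit 188424) (nat_lit 20) (.e (nat_lit 3238) (nat_lit 197) (.e (nat_lit 532523) (nat_lit 7) (.e (nat_lit 319528) (nat_lit 16) .nil))))) .nil))) (.nd (nat_lit 6) 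
(.lf (nat_lit 219702) (.g (nat_lit 793) (.e (nat_lit 90176) (nat_lit 15) (.e (nat_lit 188452) (nat_lit 23) (.e (nat_lit 212736) (nat_lit 17) .nil))) .nil)) 
(.lf (nat_lit 219766) (.g (nat_lit 1107) (.e (nat_lit 90177) (nat_lit 15) (.e (nat_lit 188452) (nat_lit 23) (.e (nat_lit 204823) (nat_lit 17) .nil))) .nil))))) (.nd (nat_lit 4) (.nd (nat_lit 5) (.nd (nat_lit 6) 
(.lf (nat_lit 219662) (.g (nat_lit 661) (.e (nat_lit 90176) (nat_lit 15) (.e (nat_lit 188450) (nat_lit 23) (.e (nat_lit 204860) (nat_lit 26) .nil))) .nil)) 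
(.lf (nat_lit 219726) (.g (nat_lit 608) (.e (nat_lit 90176) (nat_lit 15) (.e (nat_lit 188453) (nat_lit 24) (.e (nat_lit 237312) (nat_lit 137) .nil))) .nil))) (.nd (nat_lit 6) 
(.lf (nat_lit 219694) (.g (nat_lit 1059) (.e (nat_lit 90176) (nat_lit 15) (.e (nat_lit 188452) (nat_lit 23) (.e (nat_lit 204814) (nat_lit 17) .nil))) .nil)) 
(.lf (nat_lit 219758) (.g (nat_lit 1307) (.e (nat_lit 90177) (nat_lit 15) (.e (nat_lit 188449) (nat_lit 22) (.e (nat_lit 196677) (nat_lit 16) .nil))) .nil)))) (.nd (nat_lit 5) (.nd (nat_lit 6) 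
(.lf (nat_lit 219678) (.g (nat_lit 659) (.e (nat_lit 90176) (nat_lit 15) (.e (nat_lit 188450) (nat_lit 23) (.e (nat_lit 204871) (nat_lit 30) .nil))) .nil)) 
(.lf (nat_lit 219742) (.g (nat_lit 1782) (.e (nat_lit 90177) (nat_lit 15) (.e (nat_lit 188446) (nat_lit 21) (.e (nat_lit 164177) (nat_lit 154) (.e (nat_lit 57388) (nat_lit 5) (.e (nat_lit 114696) (nat_lit 11) (.e (nat_lit 426429) (nat_lit 17) .nil)))))) (.g (nat_lit 4) .nil .nil)))) (.nd (nat_lit 6) 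
(.lf (nat_lit 219710) (.g (nat_lit 2865) (.e (nat_lit 90176) (nat_lit 15) (.e (nat_lit 188452) (nat_lit 23) (.e (nat_lit 204846) (nat_lit 24) (.e (nat_lit 319529) (nat_lit 16) (.e (nat_lit 286733) (nat_lit 2) .nil))))) .nil)) 
(.lf (nat_lit 219774) (.g (nat_lit 3012) (.e (nat_lit 90177) (nat_lit 15) (.e (nat_lit 188452) (nat_lit 23) (.e (nat_lit 204846) (nat_lit 24) (.e (nat_lit 319536) (nat_lit 17) .nil)))) .nil)))))))) (.nd (nat_lit 1) (.nd (nat_lit 2) (.nd (nat_lit 3) (.nd (nat_lit 4) (.nd (nat_lit 5) (.nd (nat_lit 6) 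
(.lf (nat_lit 219649) (.g (nat_lit 1691) (.e (nat_lit 90176) (nat_lit 15) (.e (nat_lit 188450) (nat_lit 23) (.e (nat_lit 204852) (nat_lit 26) (.e (nat_lit 336249) (nat_lit 15) .nil)))) .nil)) 
(.lf (nat_lit 219713) (.g (nat_lit 625) (.e (nat_lit 90176) (nat_lit 15) (.e (nat_lit 188452) (nat_lit 23) (.e (nat_lit 204849) (nat_lit 25) .nil))) .nil))) (.nd (nat_lit 6) 
(.lf (nat_lit 219681) (.g (nat_lit 2879) (.e (nat_lit 90176) (nat_lit 15) (.e (nat_lit 188450) (nat_lit 23) (.e (nat_lit 204880) (nat_lit 32) (.e (nat_lit 385053) (nat_lit 21) (.e (nat_lit 7936) (nat_lit 373) .nil))))) .nil)) 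
(.lf (nat_lit 219745) (.g (nat_lit 2014) (.e (nat_lit 90177) (nat_lit 15) (.e (nat_lit 188446) (nat_lit 21) (.e (nat_lit 164177) (nat_lit 154) (.e (nat_lit 57389) (nat_lit 5) (.e (nat_lit 114696) (nat_lit 11) .nil))))) .nil)))) (.nd (nat_lit 5) (.nd (nat_lit 6) 
(.lf (nat_lit 219665) (.g (nat_lit 400) (.e (nat_lit 90176) (nat_lit 15) (.e (nat_lit 188450) (nat_lit 23) (.e (nat_lit 204863) (nat_lit 27) .nil))) .nil)) 
(.lf (nat_lit 219729) (.g (nat_lit 379) (.e (nat_lit 90176) (nat_lit 15) (.e (nat_lit 188459) (nat_lit 26) (.e (nat_lit 261888) (nat_lit 4) .nil))) .nil))) (.nd (nat_lit 6) 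
(.lf (nat_lit 219697) (.g (nat_lit 1639) (.e (nat_lit 90176) (nat_lit 15) (.e (nat_lit 188452) (nat_lit 23) (.e (nat_lit 204816) (nat_lit 17) (.e (nat_lit 1914) (nat_lit 130) .nil)))) .nil)) 
(.lf (nat_lit 219761) (.g (nat_lit 1479) (.e (nat_lit 90177) (nat_lit 15) (.e (nat_lit 188450) (nat_lit 23) (.e (nat_lit 204845) (nat_lit 24) (.e (nat_lit 327424) (nat_lit 16) .nil)))) .nil))))) (.nd (nat_lit 4) (.nd (nat_lit 5) (.nd (nat_lit 6) 
(.lf (nat_lit 219657) (.g (nat_lit 1497) (.e (nat_lit 90176) (nat_lit 15) (.e (nat_lit 188450) (nat_lit 23) (.e (nat_lit 204855) (nat_lit 26) (.e (nat_lit 335991) (nat_lit 1) .nil)))) .nil)) 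
(.lf (nat_lit 219721) (.g (nat_lit 334) (.e (nat_lit 90176) (nat_lit 15) (.e (nat_lit 188452) (nat_lit 23) (.e (nat_lit 204885) (nat_lit 33) .nil))) .nil))) (.nd (nat_lit 6) 
(.lf (nat_lit 219689) (.g (nat_lit 1323) (.e (nat_lit 90176) (nat_lit 15) (.e (nat_lit 188451) (nat_lit 23) (.e (nat_lit 204846) (nat_lit 24) (.e (nat_lit 319531) (nat_lit 16) .nil)))) .nil)) 
(.lf (nat_lit 219753) (.g (nat_lit 1779) (.e (nat_lit 90177) (nat_lit 15) (.e (nat_lit 188446) (nat_lit 21) (.e (nat_lit 164178) (nat_lit 154) (.e (nat_lit 57390) (nat_lit 5) (.e (nat_lit 122624) (nat_lit 11) (.e (nat_lit 426427) (nat_lit 17) .nil)))))) (.g (nat_lit 4) .nil .nil))))) (.nd (nat_lit 5) (.nd (nat_lit 6) 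
(.lf (nat_lit 219673) (.g (nat_lit 1843) (.e (nat_lit 90176) (nat_lit 15) (.e (nat_lit 188450) (nat_lit 23) (.e (nat_lit 204863) (nat_lit 27) (.e (nat_lit 344102) (nat_lit 18) (.e (nat_lit 4803) (nat_lit 281) .nil))))) .nil)) 
(.lf (nat_lit 219737) (.g (nat_lit 1889) (.e (nat_lit 90177) (nat_lit 15) (.e (nat_lit 188434) (nat_lit 20) (.e (nat_lit 3272) (nat_lit 199) (.e (nat_lit 548913) (nat_lit 18) (.e (nat_lit 172037) (nat_lit 0) .nil))))) .nil))) (.nd (nat_lit 6) 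
(.lf (nat_lit 219705) (.g (nat_lit 3505) (.e (nat_lit 90176) (nat_lit 15) (.e (nat_lit 188452) (nat_lit 23) (.e (nat_lit 204846) (nat_lit 24) (.e (nat_lit 319498) (nat_lit 10) .nil)))) .nil)) 
(.lf (nat_lit 219769) (.g (nat_lit 1107) (.e (nat_lit 90177) (nat_lit 15) (.e (nat_lit 188452) (nat_lit 23) (.e (nat_lit 204827) (nat_lit 17) .nil))) .nil)))))) (.nd (nat_lit 3) (.nd (nat_lit 4) (.nd (nat_lit 5) (.nd (nat_lit 6) 
(.lf (nat_lit 219653) (.g (nat_lit 1691) (.e (nat_lit 90176) (nat_lit 15) (.e (nat_lit 188450) (nat_lit 23) (.e (nat_lit 204852) (nat_lit 26) (.e (nat_lit 336303) (nat_lit 15) .nil)))) .nil)) 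
(.lf (nat_lit 219717) (.g (nat_lit 1178) (.e (nat_lit 90176) (nat_lit 15) (.e (nat_lit 188452) (nat_lit 23) (.e (nat_lit 204863) (nat_lit 27) (.e (nat_lit 344096) (nat_lit 18) .nil)))) .nil))) (.nd (nat_lit 6) 
(.lf (nat_lit 219685) (.g (nat_lit 1719) (.e (nat_lit 90176) (nat_lit 15) (.e (nat_lit 188450) (nat_lit 23) (.e (nat_lit 204885) (nat_lit 33) (.e (nat_lit 401414) (nat_lit 0) (.e (nat_lit 2425) (nat_lit 157) .nil))))) .nil)) 
(.lf (nat_lit 219749) (.g (nat_lit 1245) (.e (nat_lit 90177) (nat_lit 15) (.e (nat_lit 188446) (nat_lit 21) (.e (nat_lit 164178) (nat_lit 154) (.e (nat_lit 57390) (nat_lit 5) .nil)))) .nil)))) (.nd (nat_lit 5) (.nd (nat_lit 6) 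
(.lf (nat_lit 219669) (.g (nat_lit 2664) (.e (nat_lit 90176) (nat_lit 15) (.e (nat_lit 188450) (nat_lit 23) (.e (nat_lit 204863) (nat_lit 27) (.e (nat_lit 344096) (nat_lit 18) (.e (nat_lit 4780) (nat_lit 281) (.e (nat_lit 1041) (nat_lit 81) (.e (nat_lit 1238) (nat_lit 91) .nil))))))) (.g (nat_lit 4) .nil .nil))) 
(.lf (nat_lit 219733) (.g (nat_lit 535) (.e (nat_lit 90176) (nat_lit 15) (.e (nat_lit 188461) (nat_lit 26) (.e (nat_lit 261888) (nat_lit 5) .nil))) .nil))) (.nd (nat_lit 6) 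
(.lf (nat_lit 219701) (.g (nat_lit 1040) (.e (nat_lit 90176) (nat_lit 15) (.e (nat_lit 188452) (nat_lit 23) (.e (nat_lit 204824) (nat_lit 17) .nil))) .nil)) 
(.lf (nat_lit 219765) (.g (nat_lit 537) (.e (nat_lit 90177) (nat_lit 15) (.e (nat_lit 188452) (nat_lit 23) (.e (nat_lit 204821) (nat_lit 17) .nil))) .nil))))) (.nd (nat_lit 4) (.nd (nat_lit 5) (.nd (nat_lit 6) 
(.lf (nat_lit 219661) (.g (nat_lit 649) (.e (nat_lit 90176) (nat_lit 15) (.e (nat_lit 188450) (nat_lit 23) (.e (nat_lit 204858) (nat_lit 26) .nil))) .nil)) 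
(.lf (nat_lit 219725) (.g (nat_lit 608) (.e (nat_lit 90176) (nat_lit 15) (.e (nat_lit 188453) (nat_lit 24) (.e (nat_lit 237312) (nat_lit 126) .nil))) .nil))) (.nd (nat_lit 6) 
(.lf (nat_lit 219693) (.g (nat_lit 793) (.e (nat_lit 90176) (nat_lit 15) (.e (nat_lit 188452) (nat_lit 23) (.e (nat_lit 212736) (nat_lit 1) .nil))) .nil)) 
(.lf (nat_lit 219757) (.g (nat_lit 985) (.e (nat_lit 90177) (nat_lit 15) (.e (nat_lit 188449) (nat_lit 22) (.e (nat_lit 196661) (nat_lit 12) (.e (nat_lit 57711) (nat_lit 176) .nil)))) .nil)))) (.nd (nat_lit 5) (.nd (nat_lit 6) 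
(.lf (nat_lit 219677) (.g (nat_lit 2398) (.e (nat_lit 90176) (nat_lit 15) (.e (nat_lit 188450) (nat_lit 23) (.e (nat_lit 204863) (nat_lit 27) (.e (nat_lit 344164) (nat_lit 37) (.e (nat_lit 647171) (nat_lit 0) (.e (nat_lit 7936) (nat_lit 2) .nil)))))) (.g (nat_lit 4) .nil .nil))) 
(.lf (nat_lit 219741) (.g (nat_lit 1667) (.e (nat_lit 90177) (nat_lit 15) (.e (nat_lit 188446) (nat_lit 21) (.e (nat_lit 164177) (nat_lit 154) (.e (nat_lit 57388) (nat_lit 5) (.e (nat_lit 114696) (nat_lit 11) .nil))))) .nil))) (.nd (nat_lit 6) 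
(.lf (nat_lit 219709) (.g (nat_lit 2556) (.e (nat_lit 90176) (nat_lit 15) (.e (nat_lit 188452) (nat_lit 23) (.e (nat_lit 204846) (nat_lit 24) (.e (nat_lit 319528) (nat_lit 16) .nil)))) .nil)) 
(.lf (nat_lit 219773) (.g (nat_lit 1549) (.e (nat_lit 90177) (nat_lit 15) (.e (nat_lit 188452) (nat_lit 23) (.e (nat_lit 204846) (nat_lit 24) (.e (nat_lit 319535) (nat_lit 17) .nil)))) .nil))))))) (.nd (nat_lit 2) (.nd (nat_lit 3) (.nd (nat_lit 4) (.nd (nat_lit 5) (.nd (nat_lit 6) 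
(.lf (nat_lit 219651) (.g (nat_lit 1441) (.e (nat_lit 90176) (nat_lit 15) (.e (nat_lit 188450) (nat_lit 23) (.e (nat_lit 204852) (nat_lit 26) (.e (nat_lit 336258) (nat_lit 15) (.e (nat_lit 3588) (nat_lit 224) .nil))))) .nil)) 
(.lf (nat_lit 219715) (.g (nat_lit 1745) (.e (nat_lit 90176) (nat_lit 15) (.e (nat_lit 188452) (nat_lit 23) (.e (nat_lit 204849) (nat_lit 25) (.e (nat_lit 335616) (nat_lit 17) .nil)))) .nil))) (.nd (nat_lit 6) 
(.lf (nat_lit 219683) (.g (nat_lit 2222) (.e (nat_lit 90176) (nat_lit 15) (.e (nat_lit 188450) (nat_lit 23) (.e (nat_lit 204885) (nat_lit 33) (.e (nat_lit 401408) (nat_lit 0) (.e (nat_lit 7545) (nat_lit 402) (.e (nat_lit 1238) (nat_lit 91) .nil)))))) (.g (nat_lit 6) .nil .nil))) 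
(.lf (nat_lit 219747) (.g (nat_lit 1088) (.e (nat_lit 90177) (nat_lit 15) (.e (nat_lit 188446) (nat_lit 21) (.e (nat_lit 164177) (nat_lit 154) (.e (nat_lit 57390) (nat_lit 5) .nil)))) .nil)))) (.nd (nat_lit 5) (.nd (nat_lit 6) 
(.lf (nat_lit 219667) (.g (nat_lit 1799) (.e (nat_lit 90176) (nat_lit 15) (.e (nat_lit 188450) (nat_lit 23) (.e (nat_lit 204863) (nat_lit 27) (.e (nat_lit 344096) (nat_lit 18) (.e (nat_lit 4764) (nat_lit 281) .nil))))) .nil)) 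
(.lf (nat_lit 219731) (.g (nat_lit 424) (.e (nat_lit 90176) (nat_lit 15) (.e (nat_lit 188459) (nat_lit 26) (.e (nat_lit 253987) (nat_lit 10) .nil))) .nil))) (.nd (nat_lit 6) 
(.lf (nat_lit 219699) (.g (nat_lit 497) (.e (nat_lit 90176) (nat_lit 15) (.e (nat_lit 188452) (nat_lit 23) (.e (nat_lit 204821) (nat_lit 17) .nil))) .nil)) 
(.lf (nat_lit 219763) (.g (nat_lit 580) (.e (nat_lit 90177) (nat_lit 15) (.e (nat_lit 188450) (nat_lit 23) (.e (nat_lit 212736) (nat_lit 24) .nil))) .nil))))) (.nd (nat_lit 4) (.nd (nat_lit 5) (.nd (nat_lit 6) 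
(.lf (nat_lit 219659) (.g (nat_lit 662) (.e (nat_lit 90176) (nat_lit 15) (.e (nat_lit 188450) (nat_lit 23) (.e (nat_lit 204856) (nat_lit 26) .nil))) .nil)) 
(.lf (nat_lit 219723) (.g (nat_lit 620) (.e (nat_lit 90176) (nat_lit 15) (.e (nat_lit 188453) (nat_lit 24) (.e (nat_lit 229518) (nat_lit 123) .nil))) .nil))) (.nd (nat_lit 6) 
(.lf (nat_lit 219691) (.g (nat_lit 1354) (.e (nat_lit 90176) (nat_lit 15) (.e (nat_lit 188451) (nat_lit 23) (.e (nat_lit 204846) (nat_lit 24) (.e (nat_lit 319535) (nat_lit 17) .nil)))) .nil)) 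
(.lf (nat_lit 219755) (.g (nat_lit 1374) (.e (nat_lit 90177) (nat_lit 15) (.e (nat_lit 188449) (nat_lit 22) (.e (nat_lit 196628) (nat_lit 9) (.e (nat_lit 7936) (nat_lit 106) .nil)))) .nil)))) (.nd (nat_lit 5) (.nd (nat_lit 6) 
(.lf (nat_lit 219675) (.g (nat_lit 1315) (.e (nat_lit 90176) (nat_lit 15) (.e (nat_lit 188450) (nat_lit 23) (.e (nat_lit 204863) (nat_lit 27) (.e (nat_lit 344152) (nat_lit 34) .nil)))) .nil)) 
(.lf (nat_lit 219739) (.g (nat_lit 1239) (.e (nat_lit 90177) (nat_lit 15) (.e (nat_lit 188434) (nat_lit 20) (.e (nat_lit 3579) (nat_lit 223) (.e (nat_lit 745492) (nat_lit 5) .nil)))) .nil))) (.nd (nat_lit 6) 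
(.lf (nat_lit 219707) (.g (nat_lit 1883) (.e (nat_lit 90176) (nat_lit 15) (.e (nat_lit 188452) (nat_lit 23) (.e (nat_lit 204846) (nat_lit 24) (.e (nat_lit 319505) (nat_lit 10) .nil)))) .nil)) 
(.lf (nat_lit 219771) (.g (nat_lit 2598) (.e (nat_lit 90177) (nat_lit 15) (.e (nat_lit 188452) (nat_lit 23) (.e (nat_lit 204845) (nat_lit 24) (.e (nat_lit 319534) (nat_lit 16) (.e (nat_lit 286733) (nat_lit 2) .nil))))) .nil)))))) (.nd (nat_lit 3) (.nd (nat_lit 4) (.nd (nat_lit 5) (.nd (nat_lit 6) 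
(.lf (nat_lit 219655) (.g (nat_lit 1557) (.e (nat_lit 90176) (nat_lit 15) (.e (nat_lit 188450) (nat_lit 23) (.e (nat_lit 204855) (nat_lit 26) (.e (nat_lit 335901) (nat_lit 0) .nil)))) .nil)) 
(.lf (nat_lit 219719) (.g (nat_lit 2547) (.e (nat_lit 90176) (nat_lit 15) (.e (nat_lit 188452) (nat_lit 23) (.e (nat_lit 204880) (nat_lit 32) (.e (nat_lit 385043) (nat_lit 21) .nil)))) .nil))) (.nd (nat_lit 6) 
(.lf (nat_lit 219687) (.g (nat_lit 2652) (.e (nat_lit 90176) (nat_lit 15) (.e (nat_lit 188451) (nat_lit 23) (.e (nat_lit 204846) (nat_lit 24) (.e (nat_lit 319504) (nat_lit 10) (.e (nat_lit 7936) (nat_lit 298) .nil))))) .nil)) 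
(.lf (nat_lit 219751) (.g (nat_lit 1828) (.e (nat_lit 90177) (nat_lit 15) (.e (nat_lit 188446) (nat_lit 21) (.e (nat_lit 164178) (nat_lit 154) (.e (nat_lit 57390) (nat_lit 5) (.e (nat_lit 114696) (nat_lit 11) .nil))))) .nil)))) (.nd (nat_lit 5) (.nd (nat_lit 6) 
(.lf (nat_lit 219671) (.g (nat_lit 1858) (.e (nat_lit 90176) (nat_lit 15) (.e (nat_lit 188450) (nat_lit 23) (.e (nat_lit 204863) (nat_lit 27) (.e (nat_lit 344098) (nat_lit 18) .nil)))) .nil)) 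
(.lf (nat_lit 219735) (.g (nat_lit 512) (.e (nat_lit 90177) (nat_lit 15) (.e (nat_lit 188434) (nat_lit 20) (.e (nat_lit 3271) (nat_lit 199) .nil))) .nil))) (.nd (nat_lit 6) 
(.lf (nat_lit 219703) (.g (nat_lit 506) (.e (nat_lit 90176) (nat_lit 15) (.e (nat_lit 188452) (nat_lit 23) (.e (nat_lit 204845) (nat_lit 24) .nil))) .nil)) 
(.lf (nat_lit 219767) (.g (nat_lit 1389) (.e (nat_lit 90177) (nat_lit 15) (.e (nat_lit 188452) (nat_lit 23) (.e (nat_lit 204825) (nat_lit 17) (.e (nat_lit 7936) (nat_lit 332) .nil)))) .nil))))) (.nd (nat_lit 4) (.nd (nat_lit 5) (.nd (nat_lit 6) 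
(.lf (nat_lit 219663) (.g (nat_lit 2349) (.e (nat_lit 90176) (nat_lit 15) (.e (nat_lit 188450) (nat_lit 23) (.e (nat_lit 204861) (nat_lit 26) (.e (nat_lit 335986) (nat_lit 1) (.e (nat_lit 57783) (nat_lit 239) .nil))))) .nil)) 
(.lf (nat_lit 219727) (.g (nat_lit 1075) (.e (nat_lit 90176) (nat_lit 15) (.e (nat_lit 188455) (nat_lit 24) (.e (nat_lit 229518) (nat_lit 123) (.e (nat_lit 8299) (nat_lit 54) .nil)))) .nil))) (.nd (nat_lit 6) 
(.lf (nat_lit 219695) (.g (nat_lit 1375) (.e (nat_lit 90176) (nat_lit 15) (.e (nat_lit 188452) (nat_lit 23) (.e (nat_lit 204815) (nat_lit 17) (.e (nat_lit 6192) (nat_lit 332) .nil)))) .nil)) 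
(.lf (nat_lit 219759) (.g (nat_lit 584) (.e (nat_lit 90177) (nat_lit 15) (.e (nat_lit 188450) (nat_lit 23) (.e (nat_lit 204821) (nat_lit 17) .nil))) .nil)))) (.nd (nat_lit 5) (.nd (nat_lit 6) 
(.lf (nat_lit 219679) (.g (nat_lit 3071) (.e (nat_lit 90176) (nat_lit 15) (.e (nat_lit 188450) (nat_lit 23) (.e (nat_lit 204880) (nat_lit 32) (.e (nat_lit 385045) (nat_lit 21) (.e (nat_lit 7936) (nat_lit 373) .nil))))) .nil)) 
(.lf (nat_lit 219743) (.g (nat_lit 1538) (.e (nat_lit 90177) (nat_lit 15) (.e (nat_lit 188446) (nat_lit 21) (.e (nat_lit 164177) (nat_lit 154) (.e (nat_lit 57388) (nat_lit 5) (.e (nat_lit 122624) (nat_lit 11) (.e (nat_lit 426427) (nat_lit 17) .nil)))))) (.g (nat_lit 4) .nil .nil)))) (.nd (nat_lit 6) 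
(.lf (nat_lit 219711) (.g (nat_lit 3139) (.e (nat_lit 90176) (nat_lit 15) (.e (nat_lit 188452) (nat_lit 23) (.e (nat_lit 204846) (nat_lit 24) (.e (nat_lit 319536) (nat_lit 17) .nil)))) .nil)) 
(.lf (nat_lit 219775) (.g (nat_lit 1189) (.e (nat_lit 90177) (nat_lit 15) (.e (nat_lit 188452) (nat_lit 23) (.e (nat_lit 204861) (nat_lit 26) .nil))) .nil)))))))))

noncomputable def tv2886 : DT := (.nd (nat_lit 0) (.nd (nat_lit 1) (.nd (nat_lit 2) (.nd (nat_lit 3) (.nd (nat_lit 4) (.nd (nat_lit 5) 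
(.lf (nat_lit 219776) (.g (nat_lit 448) (.e (nat_lit 90177) (nat_lit 15) (.e (nat_lit 188452) (nat_lit 23) (.e (nat_lit 204863) (nat_lit 27) .nil))) .nil)) 
(.lf (nat_lit 219808) (.g (nat_lit 256) (.e (nat_lit 90178) (nat_lit 15) (.e (nat_lit 188421) (nat_lit 11) (.e (nat_lit 336387) (nat_lit 27) .nil))) .nil))) (.nd (nat_lit 5) 
(.lf (nat_lit 219792) (.g (nat_lit 2159) (.e (nat_lit 90178) (nat_lit 15) (.e (nat_lit 188418) (nat_lit 0) (.e (nat_lit 1855) (nat_lit 124) (.e (nat_lit 557103) (nat_lit 14) (.e (nat_lit 180278) (nat_lit 32) .nil))))) .nil)) 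
(.lf (nat_lit 219824) (.g (nat_lit 706) (.e (nat_lit 90178) (nat_lit 15) (.e (nat_lit 188440) (nat_lit 20) (.e (nat_lit 3272) (nat_lit 199) (.e (nat_lit 548913) (nat_lit 18) .nil)))) .nil)))) (.nd (nat_lit 4) (.nd (nat_lit 5) 
(.lf (nat_lit 219784) (.g (nat_lit 416) (.e (nat_lit 90177) (nat_lit 15) (.e (nat_lit 188461) (nat_lit 26) (.e (nat_lit 261888) (nat_lit 4) .nil))) .nil)) 
(.lf (nat_lit 219816) (.g (nat_lit 2946) (.e (nat_lit 90178) (nat_lit 15) (.e (nat_lit 188421) (nat_lit 11) (.e (nat_lit 336387) (nat_lit 27) (.e (nat_lit 426100) (nat_lit 1) (.e (nat_lit 164399) (nat_lit 256) (.e (nat_lit 57375) (nat_lit 2) .nil)))))) (.g (nat_lit 0) .nil .nil)))) (.nd (nat_lit 5) 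
(.lf (nat_lit 219800) (.g (nat_lit 3106) (.e (nat_lit 90178) (nat_lit 15) (.e (nat_lit 188418) (nat_lit 0) (.e (nat_lit 1856) (nat_lit 124) (.e (nat_lit 557105) (nat_lit 14) (.e (nat_lit 180277) (nat_lit 32) (.e (nat_lit 1235) (nat_lit 91) .nil)))))) (.g (nat_lit 0) .nil .nil))) 
(.lf (nat_lit 219832) (.g (nat_lit 2650) (.e (nat_lit 90178) (nat_lit 15) (.e (nat_lit 188440) (nat_lit 20) (.e (nat_lit 3307) (nat_lit 202) (.e (nat_lit 573456) (nat_lit 9) (.e (nat_lit 1312) (nat_lit 98) (.e (nat_lit 147494) (nat_lit 11) (.e (nat_lit 24602) (nat_lit 2) .nil))))))) (.g (nat_lit 4) .nil .nil)))))) (.nd (nat_lit 3) (.nd (nat_lit 4) (.nd (nat_lit 5) 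
(.lf (nat_lit 219780) (.g (nat_lit 2478) (.e (nat_lit 90177) (nat_lit 15) (.e (nat_lit 188458) (nat_lit 25) (.e (nat_lit 245784) (nat_lit 9) (.e (nat_lit 1399) (nat_lit 106) (.e (nat_lit 319529) (nat_lit 16) (.e (nat_lit 286733) (nat_lit 2) .nil)))))) (.g (nat_lit 0) .nil .nil))) 
(.lf (nat_lit 219812) (.g (nat_lit 2103) (.e (nat_lit 90178) (nat_lit 15) (.e (nat_lit 188421) (nat_lit 11) (.e (nat_lit 336387) (nat_lit 27) (.e (nat_lit 426098) (nat_lit 1) (.e (nat_lit 164402) (nat_lit 256) (.e (nat_lit 57373) (nat_lit 2) .nil)))))) (.g (nat_lit 4) .nil .nil)))) (.nd (nat_lit 5) 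
(.lf (nat_lit 219796) (.g (nat_lit 1888) (.e (nat_lit 90178) (nat_lit 15) (.e (nat_lit 188418) (nat_lit 0) (.e (nat_lit 1856) (nat_lit 124) (.e (nat_lit 557103) (nat_lit 14) (.e (nat_lit 188160) (nat_lit 32) (.e (nat_lit 1232) (nat_lit 91) .nil)))))) (.g (nat_lit 4) .nil .nil))) 
(.lf (nat_lit 219828) (.g (nat_lit 1026) (.e (nat_lit 90178) (nat_lit 15) (.e (nat_lit 188440) (nat_lit 20) (.e (nat_lit 3307) (nat_lit 202) (.e (nat_lit 573447) (nat_lit 0) .nil)))) .nil)))) (.nd (nat_lit 4) (.nd (nat_lit 5) 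
(.lf (nat_lit 219788) (.g (nat_lit 3067) (.e (nat_lit 90178) (nat_lit 15) (.e (nat_lit 188418) (nat_lit 0) (.e (nat_lit 1800) (nat_lit 119) (.e (nat_lit 516129) (nat_lit 3) (.e (nat_lit 221194) (nat_lit 11) (.e (nat_lit 336012) (nat_lit 2) .nil)))))) (.g (nat_lit 0) .nil .nil))) 
(.lf (nat_lit 219820) (.g (nat_lit 2226) (.e (nat_lit 90178) (nat_lit 15) (.e (nat_lit 188440) (nat_lit 20) (.e (nat_lit 2448) (nat_lit 157) (.e (nat_lit 6416) (nat_lit 341) (.e (nat_lit 163885) (nat_lit 5) (.e (nat_lit 221219) (nat_lit 24) (.e (nat_lit 220928) (nat_lit 0) (.e (nat_lit 1238) (nat_lit 91) .nil)))))))) (.g (nat_lit 5) .nil .nil)))) (.nd (nat_lit 5) 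
(.lf (nat_lit 219804) (.g (nat_lit 1774) (.e (nat_lit 90178) (nat_lit 15) (.e (nat_lit 188421) (nat_lit 11) (.e (nat_lit 335996) (nat_lit 1) (.e (nat_lit 57692) (nat_lit 156) (.e (nat_lit 171776) (nat_lit 12) .nil))))) .nil)) 
(.lf (nat_lit 219836) (.g (nat_lit 2896) (.e (nat_lit 90178) (nat_lit 15) (.e (nat_lit 188440) (nat_lit 20) (.e (nat_lit 3307) (nat_lit 202) (.e (nat_lit 573474) (nat_lit 12) (.e (nat_lit 57348) (nat_lit 0) .nil))))) .nil)))))) (.nd (nat_lit 2) (.nd (nat_lit 3) (.nd (nat_lit 4) (.nd (nat_lit 5) 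
(.lf (nat_lit 219778) (.g (nat_lit 896) (.e (nat_lit 90177) (nat_lit 15) (.e (nat_lit 188455) (nat_lit 24) (.e (nat_lit 229518) (nat_lit 123) .nil))) .nil)) 
(.lf (nat_lit 219810) (.g (nat_lit 3089) (.e (nat_lit 90178) (nat_lit 15) (.e (nat_lit 188421) (nat_lit 11) (.e (nat_lit 336387) (nat_lit 27) (.e (nat_lit 426098) (nat_lit 1) (.e (nat_lit 164399) (nat_lit 256) (.e (nat_lit 57372) (nat_lit 2) .nil)))))) (.g (nat_lit 0) .nil .nil)))) (.nd (nat_lit 5) 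
(.lf (nat_lit 219794) (.g (nat_lit 1698) (.e (nat_lit 90178) (nat_lit 15) (.e (nat_lit 188418) (nat_lit 0) (.e (nat_lit 1856) (nat_lit 124) (.e (nat_lit 557100) (nat_lit 13) (.e (nat_lit 172037) (nat_lit 0) .nil))))) .nil)) 
(.lf (nat_lit 219826) (.g (nat_lit 1378) (.e (nat_lit 90178) (nat_lit 15) (.e (nat_lit 188440) (nat_lit 20) (.e (nat_lit 3272) (nat_lit 199) (.e (nat_lit 548914) (nat_lit 19) (.e (nat_lit 188160) (nat_lit 32) .nil))))) .nil)))) (.nd (nat_lit 4) (.nd (nat_lit 5) 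
(.lf (nat_lit 219786) (.g (nat_lit 356) (.e (nat_lit 90178) (nat_lit 15) (.e (nat_lit 188418) (nat_lit 0) (.e (nat_lit 1782) (nat_lit 119) .nil))) .nil)) 
(.lf (nat_lit 219818) (.g (nat_lit 3366) (.e (nat_lit 90178) (nat_lit 15) (.e (nat_lit 188421) (nat_lit 11) (.e (nat_lit 336387) (nat_lit 27) (.e (nat_lit 426107) (nat_lit 1) (.e (nat_lit 164403) (nat_lit 256) (.e (nat_lit 57371) (nat_lit 2) .nil)))))) (.g (nat_lit 0) .nil .nil)))) (.nd (nat_lit 5) 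
(.lf (nat_lit 219802) (.g (nat_lit 2227) (.e (nat_lit 90178) (nat_lit 15) (.e (nat_lit 188418) (nat_lit 0) (.e (nat_lit 1856) (nat_lit 124) (.e (nat_lit 557105) (nat_lit 14) (.e (nat_lit 188160) (nat_lit 32) (.e (nat_lit 1234) (nat_lit 91) .nil)))))) (.g (nat_lit 4) .nil .nil))) 
(.lf (nat_lit 219834) (.g (nat_lit 2628) (.e (nat_lit 90178) (nat_lit 15) (.e (nat_lit 188440) (nat_lit 20) (.e (nat_lit 3307) (nat_lit 202) (.e (nat_lit 573473) (nat_lit 12) (.e (nat_lit 57348) (nat_lit 0) (.e (nat_lit 7125) (nat_lit 382) (.e (nat_lit 1296) (nat_lit 96) (.e (nat_lit 131094) (nat_lit 2) .nil)))))))) (.g (nat_lit 4) .nil .nil)))))) 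
(.nd (nat_lit 3) (.nd (nat_lit 4) (.nd (nat_lit 5) 
(.lf (nat_lit 219782) (.g (nat_lit 2489) (.e (nat_lit 90177) (nat_lit 15) (.e (nat_lit 188458) (nat_lit 25) (.e (nat_lit 245784) (nat_lit 9) (.e (nat_lit 1399) (nat_lit 106) (.e (nat_lit 319534) (nat_lit 16) (.e (nat_lit 286733) (nat_lit 2) .nil)))))) (.g (nat_lit 0) .nil .nil))) 
(.lf (nat_lit 219814) (.g (nat_lit 2122) (.e (nat_lit 90178) (nat_lit 15) (.e (nat_lit 188421) (nat_lit 11) (.e (nat_lit 336387) (nat_lit 27) (.e (nat_lit 426100) (nat_lit 1) (.e (nat_lit 164396) (nat_lit 256) (.e (nat_lit 57371) (nat_lit 2) .nil)))))) (.g (nat_lit 4) .nil .nil)))) (.nd (nat_lit 5) 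
(.lf (nat_lit 219798) (.g (nat_lit 2534) (.e (nat_lit 90178) (nat_lit 15) (.e (nat_lit 188418) (nat_lit 0) (.e (nat_lit 1856) (nat_lit 124) (.e (nat_lit 557104) (nat_lit 14) (.e (nat_lit 180278) (nat_lit 32) (.e (nat_lit 1235) (nat_lit 91) .nil)))))) (.g (nat_lit 5) .nil .nil))) 
(.lf (nat_lit 219830) (.g (nat_lit 1061) (.e (nat_lit 90178) (nat_lit 15) (.e (nat_lit 188440) (nat_lit 20) (.e (nat_lit 3307) (nat_lit 202) (.e (nat_lit 573456) (nat_lit 9) .nil)))) .nil)))) (.nd (nat_lit 4) (.nd (nat_lit 5) 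
(.lf (nat_lit 219790) (.g (nat_lit 2780) (.e (nat_lit 90178) (nat_lit 15) (.e (nat_lit 188418) (nat_lit 0) (.e (nat_lit 1800) (nat_lit 119) (.e (nat_lit 516131) (nat_lit 3) (.e (nat_lit 221194) (nat_lit 11) (.e (nat_lit 336012) (nat_lit 2) .nil)))))) (.g (nat_lit 0) .nil .nil))) 
(.lf (nat_lit 219822) (.g (nat_lit 402) (.e (nat_lit 90178) (nat_lit 15) (.e (nat_lit 188440) (nat_lit 20) (.e (nat_lit 3271) (nat_lit 199) .nil))) .nil))) (.nd (nat_lit 5) 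
(.lf (nat_lit 219806) (.g (nat_lit 2287) (.e (nat_lit 90178) (nat_lit 15) (.e (nat_lit 188421) (nat_lit 11) (.e (nat_lit 336288) (nat_lit 15) (.e (nat_lit 7096) (nat_lit 380) (.e (nat_lit 164356) (nat_lit 246) (.e (nat_lit 100) (nat_lit 2) .nil)))))) (.g (nat_lit 4) .nil .nil))) 
(.lf (nat_lit 219838) (.g (nat_lit 3662) (.e (nat_lit 90178) (nat_lit 15) (.e (nat_lit 188440) (nat_lit 20) (.e (nat_lit 3307) (nat_lit 202) (.e (nat_lit 573474) (nat_lit 12) (.e (nat_lit 57572) (nat_lit 54) (.e (nat_lit 770072) (nat_lit 8) (.e (nat_lit 65566) (nat_lit 2) .nil))))))) (.g (nat_lit 5) .nil .nil)))))))) 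
(.nd (nat_lit 1) (.nd (nat_lit 2) (.nd (nat_lit 3) (.nd (nat_lit 4) (.nd (nat_lit 5) 
(.lf (nat_lit 219777) (.g (nat_lit 837) (.e (nat_lit 90177) (nat_lit 15) (.e (nat_lit 188452) (nat_lit 23) (.e (nat_lit 204885) (nat_lit 33) (.e (nat_lit 409344) (nat_lit 14) .nil)))) .nil)) 
(.lf (nat_lit 219809) (.g (nat_lit 3456) (.e (nat_lit 90178) (nat_lit 15) (.e (nat_lit 188421) (nat_lit 11) (.e (nat_lit 336387) (nat_lit 27) (.e (nat_lit 426098) (nat_lit 1) (.e (nat_lit 164398) (nat_lit 256) (.e (nat_lit 57375) (nat_lit 2) .nil)))))) (.g (nat_lit 0) .nil .nil)))) (.nd (nat_lit 5) 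
(.lf (nat_lit 219793) (.g (nat_lit 1740) (.e (nat_lit 90178) (nat_lit 15) (.e (nat_lit 188418) (nat_lit 0) (.e (nat_lit 1855) (nat_lit 124) (.e (nat_lit 557105) (nat_lit 14) (.e (nat_lit 180278) (nat_lit 32) .nil))))) .nil)) 
(.lf (nat_lit 219825) (.g (nat_lit 2879) (.e (nat_lit 90178) (nat_lit 15) (.e (nat_lit 188440) (nat_lit 20) (.e (nat_lit 3272) (nat_lit 199) (.e (nat_lit 548914) (nat_lit 19) (.e (nat_lit 180277) (nat_lit 32) (.e (nat_lit 1235) (nat_lit 91) .nil)))))) (.g (nat_lit 0) .nil .nil))))) (.nd (nat_lit 4) (.nd (nat_lit 5) 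
(.lf (nat_lit 219785) (.g (nat_lit 416) (.e (nat_lit 90177) (nat_lit 15) (.e (nat_lit 188461) (nat_lit 26) (.e (nat_lit 261888) (nat_lit 5) .nil))) .nil)) 
(.lf (nat_lit 219817) (.g (nat_lit 2050) (.e (nat_lit 90178) (nat_lit 15) (.e (nat_lit 188421) (nat_lit 11) (.e (nat_lit 336387) (nat_lit 27) (.e (nat_lit 426100) (nat_lit 1) (.e (nat_lit 164402) (nat_lit 256) .nil))))) .nil))) (.nd (nat_lit 5) 
(.lf (nat_lit 219801) (.g (nat_lit 1546) (.e (nat_lit 90178) (nat_lit 15) (.e (nat_lit 188418) (nat_lit 0) (.e (nat_lit 1856) (nat_lit 124) (.e (nat_lit 557105) (nat_lit 14) (.e (nat_lit 188160) (nat_lit 32) .nil))))) .nil)) 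
(.lf (nat_lit 219833) (.g (nat_lit 992) (.e (nat_lit 90178) (nat_lit 15) (.e (nat_lit 188440) (nat_lit 20) (.e (nat_lit 3307) (nat_lit 202) (.e (nat_lit 573473) (nat_lit 12) .nil)))) .nil))))) (.nd (nat_lit 3) (.nd (nat_lit 4) (.nd (nat_lit 5) 
(.lf (nat_lit 219781) (.g (nat_lit 2729) (.e (nat_lit 90177) (nat_lit 15) (.e (nat_lit 188458) (nat_lit 25) (.e (nat_lit 245784) (nat_lit 9) (.e (nat_lit 1399) (nat_lit 106) (.e (nat_lit 319532) (nat_lit 16) (.e (nat_lit 286733) (nat_lit 2) .nil)))))) (.g (nat_lit 0) .nil .nil))) 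
(.lf (nat_lit 219813) (.g (nat_lit 3855) (.e (nat_lit 90178) (nat_lit 15) (.e (nat_lit 188421) (nat_lit 11) (.e (nat_lit 336387) (nat_lit 27) (.e (nat_lit 426098) (nat_lit 1) (.e (nat_lit 164403) (nat_lit 256) (.e (nat_lit 57373) (nat_lit 2) .nil)))))) (.g (nat_lit 0) .nil .nil)))) (.nd (nat_lit 5) 
(.lf (nat_lit 219797) (.g (nat_lit 1604) (.e (nat_lit 90178) (nat_lit 15) (.e (nat_lit 188418) (nat_lit 0) (.e (nat_lit 1856) (nat_lit 124) (.e (nat_lit 557103) (nat_lit 14) (.e (nat_lit 188160) (nat_lit 32) (.e (nat_lit 1242) (nat_lit 91) .nil)))))) (.g (nat_lit 4) .nil .nil))) 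
(.lf (nat_lit 219829) (.g (nat_lit 1464) (.e (nat_lit 90178) (nat_lit 15) (.e (nat_lit 188440) (nat_lit 20) (.e (nat_lit 3307) (nat_lit 202) (.e (nat_lit 573449) (nat_lit 9) (.e (nat_lit 1312) (nat_lit 98) .nil))))) .nil)))) (.nd (nat_lit 4) (.nd (nat_lit 5) 
(.lf (nat_lit 219789) (.g (nat_lit 2481) (.e (nat_lit 90178) (nat_lit 15) (.e (nat_lit 188418) (nat_lit 0) (.e (nat_lit 1800) (nat_lit 119) (.e (nat_lit 516131) (nat_lit 3) (.e (nat_lit 221193) (nat_lit 11) (.e (nat_lit 336012) (nat_lit 2) .nil)))))) (.g (nat_lit 0) .nil .nil))) 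
(.lf (nat_lit 219821) (.g (nat_lit 988) (.e (nat_lit 90178) (nat_lit 15) (.e (nat_lit 188440) (nat_lit 20) (.e (nat_lit 3238) (nat_lit 197) (.e (nat_lit 532523) (nat_lit 7) .nil)))) .nil))) (.nd (nat_lit 5) 
(.lf (nat_lit 219805) (.g (nat_lit 1240) (.e (nat_lit 90178) (nat_lit 15) (.e (nat_lit 188421) (nat_lit 11) (.e (nat_lit 336288) (nat_lit 15) (.e (nat_lit 7095) (nat_lit 380) .nil)))) .nil)) 
(.lf (nat_lit 219837) (.g (nat_lit 2084) (.e (nat_lit 90178) (nat_lit 15) (.e (nat_lit 188440) (nat_lit 20) (.e (nat_lit 3307) (nat_lit 202) (.e (nat_lit 573474) (nat_lit 12) (.e (nat_lit 57572) (nat_lit 54) .nil))))) .nil)))))) (.nd (nat_lit 2) (.nd (nat_lit 3) (.nd (nat_lit 4) (.nd (nat_lit 5) 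
(.lf (nat_lit 219779) (.g (nat_lit 2136) (.e (nat_lit 90177) (nat_lit 15) (.e (nat_lit 188458) (nat_lit 25) (.e (nat_lit 245784) (nat_lit 9) (.e (nat_lit 1399) (nat_lit 106) (.e (nat_lit 319528) (nat_lit 16) (.e (nat_lit 286733) (nat_lit 2) .nil)))))) (.g (nat_lit 0) .nil .nil))) 
(.lf (nat_lit 219811) (.g (nat_lit 3014) (.e (nat_lit 90178) (nat_lit 15) (.e (nat_lit 188421) (nat_lit 11) (.e (nat_lit 336387) (nat_lit 27) (.e (nat_lit 426098) (nat_lit 1) (.e (nat_lit 164399) (nat_lit 256) (.e (nat_lit 57375) (nat_lit 2) .nil)))))) (.g (nat_lit 0) .nil .nil)))) (.nd (nat_lit 5) 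
(.lf (nat_lit 219795) (.g (nat_lit 1591) (.e (nat_lit 90178) (nat_lit 15) (.e (nat_lit 188418) (nat_lit 0) (.e (nat_lit 1856) (nat_lit 124) (.e (nat_lit 557103) (nat_lit 14) (.e (nat_lit 188160) (nat_lit 32) .nil))))) .nil)) 
(.lf (nat_lit 219827) (.g (nat_lit 159) (.e (nat_lit 90178) (nat_lit 15) (.e (nat_lit 188440) (nat_lit 20) (.e (nat_lit 3307) (nat_lit 202) .nil))) .nil)))) (.nd (nat_lit 4) (.nd (nat_lit 5) 
(.lf (nat_lit 219787) (.g (nat_lit 1085) (.e (nat_lit 90178) (nat_lit 15) (.e (nat_lit 188418) (nat_lit 0) (.e (nat_lit 1800) (nat_lit 119) (.e (nat_lit 516100) (nat_lit 0) .nil)))) .nil)) 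
(.lf (nat_lit 219819) (.g (nat_lit 2014) (.e (nat_lit 90178) (nat_lit 15) (.e (nat_lit 188421) (nat_lit 11) (.e (nat_lit 336387) (nat_lit 27) (.e (nat_lit 426108) (nat_lit 1) (.e (nat_lit 164403) (nat_lit 256) (.e (nat_lit 57370) (nat_lit 2) .nil)))))) (.g (nat_lit 4) .nil .nil)))) (.nd (nat_lit 5) 
(.lf (nat_lit 219803) (.g (nat_lit 1377) (.e (nat_lit 90178) (nat_lit 15) (.e (nat_lit 188421) (nat_lit 11) (.e (nat_lit 335986) (nat_lit 1) (.e (nat_lit 57692) (nat_lit 156) (.e (nat_lit 171776) (nat_lit 12) .nil))))) .nil)) 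
(.lf (nat_lit 219835) (.g (nat_lit 2589) (.e (nat_lit 90178) (nat_lit 15) (.e (nat_lit 188440) (nat_lit 20) (.e (nat_lit 3307) (nat_lit 202) (.e (nat_lit 573473) (nat_lit 12) (.e (nat_lit 57353) (nat_lit 0) (.e (nat_lit 7125) (nat_lit 382) (.e (nat_lit 1296) (nat_lit 96) (.e (nat_lit 131094) (nat_lit 2) .nil)))))))) (.g (nat_lit 4) .nil .nil)))))) 
(.nd (nat_lit 3) (.nd (nat_lit 4) (.nd (nat_lit 5) 
(.lf (nat_lit 219783) (.g (nat_lit 416) (.e (nat_lit 90177) (nat_lit 15) (.e (nat_lit 188461) (nat_lit 26) (.e (nat_lit 261888) (nat_lit 0) .nil))) .nil)) 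
(.lf (nat_lit 219815) (.g (nat_lit 3388) (.e (nat_lit 90178) (nat_lit 15) (.e (nat_lit 188421) (nat_lit 11) (.e (nat_lit 336387) (nat_lit 27) (.e (nat_lit 426100) (nat_lit 1) (.e (nat_lit 164398) (nat_lit 256) (.e (nat_lit 57375) (nat_lit 2) .nil)))))) (.g (nat_lit 0) .nil .nil)))) (.nd (nat_lit 5) 
(.lf (nat_lit 219799) (.g (nat_lit 3418) (.e (nat_lit 90178) (nat_lit 15) (.e (nat_lit 188418) (nat_lit 0) (.e (nat_lit 1856) (nat_lit 124) (.e (nat_lit 557105) (nat_lit 14) (.e (nat_lit 180277) (nat_lit 32) (.e (nat_lit 1234) (nat_lit 91) .nil)))))) (.g (nat_lit 0) .nil .nil))) 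
(.lf (nat_lit 219831) (.g (nat_lit 1686) (.e (nat_lit 90178) (nat_lit 15) (.e (nat_lit 188440) (nat_lit 20) (.e (nat_lit 3307) (nat_lit 202) (.e (nat_lit 573456) (nat_lit 9) (.e (nat_lit 1312) (nat_lit 98) .nil))))) .nil)))) (.nd (nat_lit 4) (.nd (nat_lit 5) 
(.lf (nat_lit 219791) (.g (nat_lit 809) (.e (nat_lit 90178) (nat_lit 15) (.e (nat_lit 188418) (nat_lit 0) (.e (nat_lit 1855) (nat_lit 124) (.e (nat_lit 557103) (nat_lit 14) .nil)))) .nil)) 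
(.lf (nat_lit 219823) (.g (nat_lit 2615) (.e (nat_lit 90178) (nat_lit 15) (.e (nat_lit 188440) (nat_lit 20) (.e (nat_lit 3271) (nat_lit 199) (.e (nat_lit 548914) (nat_lit 19) (.e (nat_lit 180278) (nat_lit 32) (.e (nat_lit 1235) (nat_lit 91) .nil)))))) (.g (nat_lit 0) .nil .nil)))) (.nd (nat_lit 5) 
(.lf (nat_lit 219807) (.g (nat_lit 3104) (.e (nat_lit 90178) (nat_lit 15) (.e (nat_lit 188421) (nat_lit 11) (.e (nat_lit 336288) (nat_lit 15) (.e (nat_lit 7096) (nat_lit 380) (.e (nat_lit 164358) (nat_lit 246) (.e (nat_lit 100) (nat_lit 2) .nil)))))) (.g (nat_lit 6) .nil .nil))) 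
(.lf (nat_lit 219839) (.g (nat_lit 4009) (.e (nat_lit 90178) (nat_lit 15) (.e (nat_lit 188440) (nat_lit 20) (.e (nat_lit 3307) (nat_lit 202) (.e (nat_lit 573475) (nat_lit 12) (.e (nat_lit 57347) (nat_lit 0) (.e (nat_lit 7125) (nat_lit 382) (.e (nat_lit 1296) (nat_lit 96) (.e (nat_lit 131094) (nat_lit 2) .nil)))))))) (.g (nat_lit 5) .nil .nil)))))))))

noncomputable def tv2887 : DT := (.nd (nat_lit 0) (.nd (nat_lit 1) (.nd (nat_lit 2) (.nd (nat_lit 3) (.nd (nat_lit 4) (.nd (nat_lit 5) 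
(.lf (nat_lit 219840) (.g (nat_lit 2511) (.e (nat_lit 90178) (nat_lit 15) (.e (nat_lit 188440) (nat_lit 20) (.e (nat_lit 3307) (nat_lit 202) (.e (nat_lit 573475) (nat_lit 12) (.e (nat_lit 57348) (nat_lit 0) (.e (nat_lit 7124) (nat_lit 382) (.e (nat_lit 1296) (nat_lit 96) (.e (nat_lit 131091) (nat_lit 2) .nil)))))))) (.g (nat_lit 4) .nil .nil))) 
(.lf (nat_lit 219872) (.g (nat_lit 568) (.e (nat_lit 90178) (nat_lit 15) (.e (nat_lit 188449) (nat_lit 22) (.e (nat_lit 196628) (nat_lit 9) .nil))) .nil))) (.nd (nat_lit 5) 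
(.lf (nat_lit 219856) (.g (nat_lit 3398) (.e (nat_lit 90178) (nat_lit 15) (.e (nat_lit 188440) (nat_lit 20) (.e (nat_lit 3307) (nat_lit 202) (.e (nat_lit 573477) (nat_lit 12) (.e (nat_lit 57353) (nat_lit 0) (.e (nat_lit 7125) (nat_lit 382) (.e (nat_lit 1296) (nat_lit 96) (.e (nat_lit 131091) (nat_lit 2) .nil)))))))) (.g (nat_lit 4) .nil .nil))) 
(.lf (nat_lit 219888) (.g (nat_lit 2898) (.e (nat_lit 90178) (nat_lit 15) (.e (nat_lit 188451) (nat_lit 23) (.e (nat_lit 204846) (nat_lit 24) (.e (nat_lit 319504) (nat_lit 10) (.e (nat_lit 7936) (nat_lit 298) (.e (nat_lit 1239) (nat_lit 91) .nil)))))) (.g (nat_lit 4) .nil .nil))))) (.nd (nat_lit 4) (.nd (nat_lit 5) 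
(.lf (nat_lit 219848) (.g (nat_lit 1859) (.e (nat_lit 90178) (nat_lit 15) (.e (nat_lit 188440) (nat_lit 20) (.e (nat_lit 3307) (nat_lit 202) (.e (nat_lit 573475) (nat_lit 12) (.e (nat_lit 65280) (nat_lit 57) .nil))))) .nil)) 
(.lf (nat_lit 219880) (.g (nat_lit 2177) (.e (nat_lit 90178) (nat_lit 15) (.e (nat_lit 188450) (nat_lit 23) (.e (nat_lit 204846) (nat_lit 24) (.e (nat_lit 319533) (nat_lit 16) (.e (nat_lit 286732) (nat_lit 2) .nil))))) .nil))) (.nd (nat_lit 5) 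
(.lf (nat_lit 219864) (.g (nat_lit 1005) (.e (nat_lit 90178) (nat_lit 15) (.e (nat_lit 188441) (nat_lit 20) (.e (nat_lit 3272) (nat_lit 199) (.e (nat_lit 548913) (nat_lit 18) .nil)))) .nil)) 
(.lf (nat_lit 219896) (.g (nat_lit 545) (.e (nat_lit 90178) (nat_lit 15) (.e (nat_lit 188451) (nat_lit 23) (.e (nat_lit 204848) (nat_lit 25) (.e (nat_lit 327715) (nat_lit 16) .nil)))) .nil))))) (.nd (nat_lit 3) (.nd (nat_lit 4) (.nd (nat_lit 5) 
(.lf (nat_lit 219844) (.g (nat_lit 2593) (.e (nat_lit 90178) (nat_lit 15) (.e (nat_lit 188440) (nat_lit 20) (.e (nat_lit 3307) (nat_lit 202) (.e (nat_lit 573475) (nat_lit 12) (.e (nat_lit 57351) (nat_lit 0) (.e (nat_lit 7124) (nat_lit 382) (.e (nat_lit 1296) (nat_lit 96) (.e (nat_lit 131091) (nat_lit 2) .nil)))))))) (.g (nat_lit 4) .nil .nil))) 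
(.lf (nat_lit 219876) (.g (nat_lit 791) (.e (nat_lit 90178) (nat_lit 15) (.e (nat_lit 188449) (nat_lit 22) (.e (nat_lit 196697) (nat_lit 19) .nil))) .nil))) (.nd (nat_lit 5) 
(.lf (nat_lit 219860) (.g (nat_lit 2707) (.e (nat_lit 90178) (nat_lit 15) (.e (nat_lit 188440) (nat_lit 20) (.e (nat_lit 3307) (nat_lit 202) (.e (nat_lit 573477) (nat_lit 12) (.e (nat_lit 65280) (nat_lit 57) .nil))))) .nil)) 
(.lf (nat_lit 219892) (.g (nat_lit 1515) (.e (nat_lit 90178) (nat_lit 15) (.e (nat_lit 188451) (nat_lit 23) (.e (nat_lit 204846) (nat_lit 24) (.e (nat_lit 319528) (nat_lit 16) (.e (nat_lit 286732) (nat_lit 2) .nil))))) .nil)))) (.nd (nat_lit 4) (.nd (nat_lit 5) 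
(.lf (nat_lit 219852) (.g (nat_lit 2751) (.e (nat_lit 90178) (nat_lit 15) (.e (nat_lit 188440) (nat_lit 20) (.e (nat_lit 3307) (nat_lit 202) (.e (nat_lit 573477) (nat_lit 12) (.e (nat_lit 57352) (nat_lit 0) .nil))))) .nil)) 
(.lf (nat_lit 219884) (.g (nat_lit 1074) (.e (nat_lit 90178) (nat_lit 15) (.e (nat_lit 188450) (nat_lit 23) (.e (nat_lit 204848) (nat_lit 25) (.e (nat_lit 327717) (nat_lit 17) .nil)))) .nil))) (.nd (nat_lit 5) 
(.lf (nat_lit 219868) (.g (nat_lit 3201) (.e (nat_lit 90178) (nat_lit 15) (.e (nat_lit 188441) (nat_lit 20) (.e (nat_lit 3272) (nat_lit 199) (.e (nat_lit 548914) (nat_lit 19) (.e (nat_lit 180278) (nat_lit 32) (.e (nat_lit 1234) (nat_lit 91) .nil)))))) (.g (nat_lit 6) .nil .nil))) 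
(.lf (nat_lit 219900) (.g (nat_lit 2603) (.e (nat_lit 90178) (nat_lit 15) (.e (nat_lit 188452) (nat_lit 23) (.e (nat_lit 204845) (nat_lit 24) (.e (nat_lit 319534) (nat_lit 16) (.e (nat_lit 286733) (nat_lit 2) .nil))))) .nil)))))) (.nd (nat_lit 2) (.nd (nat_lit 3) (.nd (nat_lit 4) (.nd (nat_lit 5) 
(.lf (nat_lit 219842) (.g (nat_lit 2711) (.e (nat_lit 90178) (nat_lit 15) (.e (nat_lit 188440) (nat_lit 20) (.e (nat_lit 3307) (nat_lit 202) (.e (nat_lit 573475) (nat_lit 12) (.e (nat_lit 57348) (nat_lit 0) (.e (nat_lit 7125) (nat_lit 382) (.e (nat_lit 1296) (nat_lit 96) (.e (nat_lit 131091) (nat_lit 2) .nil)))))))) (.g (nat_lit 4) .nil .nil))) 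
(.lf (nat_lit 219874) (.g (nat_lit 2174) (.e (nat_lit 90178) (nat_lit 15) (.e (nat_lit 188449) (nat_lit 22) (.e (nat_lit 196670) (nat_lit 14) (.e (nat_lit 73729) (nat_lit 0) .nil)))) .nil))) (.nd (nat_lit 5) 
(.lf (nat_lit 219858) (.g (nat_lit 2515) (.e (nat_lit 90178) (nat_lit 15) (.e (nat_lit 188440) (nat_lit 20) (.e (nat_lit 3307) (nat_lit 202) (.e (nat_lit 573477) (nat_lit 12) (.e (nat_lit 57574) (nat_lit 55) .nil))))) .nil)) 
(.lf (nat_lit 219890) (.g (nat_lit 2386) (.e (nat_lit 90178) (nat_lit 15) (.e (nat_lit 188451) (nat_lit 23) (.e (nat_lit 204846) (nat_lit 24) (.e (nat_lit 319505) (nat_lit 10) (.e (nat_lit 5351) (nat_lit 298) .nil))))) .nil)))) (.nd (nat_lit 4) (.nd (nat_lit 5) 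
(.lf (nat_lit 219850) (.g (nat_lit 2927) (.e (nat_lit 90178) (nat_lit 15) (.e (nat_lit 188440) (nat_lit 20) (.e (nat_lit 3307) (nat_lit 202) (.e (nat_lit 573477) (nat_lit 12) (.e (nat_lit 57351) (nat_lit 0) .nil))))) .nil)) 
(.lf (nat_lit 219882) (.g (nat_lit 3272) (.e (nat_lit 90178) (nat_lit 15) (.e (nat_lit 188450) (nat_lit 23) (.e (nat_lit 204846) (nat_lit 24) (.e (nat_lit 319535) (nat_lit 17) (.e (nat_lit 294927) (nat_lit 2) .nil))))) .nil))) (.nd (nat_lit 5) 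
(.lf (nat_lit 219866) (.g (nat_lit 2558) (.e (nat_lit 90178) (nat_lit 15) (.e (nat_lit 188441) (nat_lit 20) (.e (nat_lit 3272) (nat_lit 199) (.e (nat_lit 548913) (nat_lit 18) (.e (nat_lit 172039) (nat_lit 0) (.e (nat_lit 7554) (nat_lit 402) (.e (nat_lit 1235) (nat_lit 91) .nil))))))) (.g (nat_lit 4) .nil .nil))) 
(.lf (nat_lit 219898) (.g (nat_lit 563) (.e (nat_lit 90178) (nat_lit 15) (.e (nat_lit 188452) (nat_lit 23) (.e (nat_lit 204816) (nat_lit 17) .nil))) .nil))))) (.nd (nat_lit 3) (.nd (nat_lit 4) (.nd (nat_lit 5) 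
(.lf (nat_lit 219846) (.g (nat_lit 2677) (.e (nat_lit 90178) (nat_lit 15) (.e (nat_lit 188440) (nat_lit 20) (.e (nat_lit 3307) (nat_lit 202) (.e (nat_lit 573475) (nat_lit 12) (.e (nat_lit 57351) (nat_lit 0) (.e (nat_lit 7125) (nat_lit 382) (.e (nat_lit 1296) (nat_lit 96) (.e (nat_lit 131091) (nat_lit 2) .nil)))))))) (.g (nat_lit 4) .nil .nil))) 
(.lf (nat_lit 219878) (.g (nat_lit 1679) (.e (nat_lit 90178) (nat_lit 15) (.e (nat_lit 188450) (nat_lit 23) (.e (nat_lit 204846) (nat_lit 24) (.e (nat_lit 319505) (nat_lit 10) .nil)))) .nil))) (.nd (nat_lit 5) 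
(.lf (nat_lit 219862) (.g (nat_lit 1925) (.e (nat_lit 90178) (nat_lit 15) (.e (nat_lit 188441) (nat_lit 20) (.e (nat_lit 3238) (nat_lit 197) (.e (nat_lit 532490) (nat_lit 0) (.e (nat_lit 7936) (nat_lit 332) .nil))))) .nil)) 
(.lf (nat_lit 219894) (.g (nat_lit 1251) (.e (nat_lit 90178) (nat_lit 15) (.e (nat_lit 188451) (nat_lit 23) (.e (nat_lit 204846) (nat_lit 24) (.e (nat_lit 319534) (nat_lit 16) (.e (nat_lit 294656) (nat_lit 2) .nil))))) .nil)))) (.nd (nat_lit 4) (.nd (nat_lit 5) 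
(.lf (nat_lit 219854) (.g (nat_lit 3195) (.e (nat_lit 90178) (nat_lit 15) (.e (nat_lit 188440) (nat_lit 20) (.e (nat_lit 3307) (nat_lit 202) (.e (nat_lit 573477) (nat_lit 12) (.e (nat_lit 57353) (nat_lit 0) (.e (nat_lit 7124) (nat_lit 382) (.e (nat_lit 1296) (nat_lit 96) (.e (nat_lit 131091) (nat_lit 2) .nil)))))))) (.g (nat_lit 4) .nil .nil))) 
(.lf (nat_lit 219886) (.g (nat_lit 3134) (.e (nat_lit 90178) (nat_lit 15) (.e (nat_lit 188451) (nat_lit 23) (.e (nat_lit 204846) (nat_lit 24) (.e (nat_lit 319504) (nat_lit 10) (.e (nat_lit 5351) (nat_lit 298) (.e (nat_lit 1234) (nat_lit 91) .nil)))))) (.g (nat_lit 4) .nil .nil)))) (.nd (nat_lit 5) 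
(.lf (nat_lit 219870) (.g (nat_lit 783) (.e (nat_lit 90178) (nat_lit 15) (.e (nat_lit 188446) (nat_lit 21) (.e (nat_lit 164178) (nat_lit 154) .nil))) .nil)) 
(.lf (nat_lit 219902) (.g (nat_lit 2333) (.e (nat_lit 90178) (nat_lit 15) (.e (nat_lit 188452) (nat_lit 23) (.e (nat_lit 204846) (nat_lit 24) (.e (nat_lit 319504) (nat_lit 10) (.e (nat_lit 7936) (nat_lit 298) .nil))))) .nil))))))) (.nd (nat_lit 1) (.nd (nat_lit 2) (.nd (nat_lit 3) (.nd (nat_lit 4) (.nd (nat_lit 5) 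
(.lf (nat_lit 219841) (.g (nat_lit 2760) (.e (nat_lit 90178) (nat_lit 15) (.e (nat_lit 188440) (nat_lit 20) (.e (nat_lit 3307) (nat_lit 202) (.e (nat_lit 573475) (nat_lit 12) (.e (nat_lit 57348) (nat_lit 0) (.e (nat_lit 7124) (nat_lit 382) (.e (nat_lit 1296) (nat_lit 96) (.e (nat_lit 131094) (nat_lit 2) .nil)))))))) (.g (nat_lit 4) .nil .nil))) 
(.lf (nat_lit 219873) (.g (nat_lit 1040) (.e (nat_lit 90178) (nat_lit 15) (.e (nat_lit 188449) (nat_lit 22) (.e (nat_lit 196670) (nat_lit 14) .nil))) .nil))) (.nd (nat_lit 5) 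
(.lf (nat_lit 219857) (.g (nat_lit 3658) (.e (nat_lit 90178) (nat_lit 15) (.e (nat_lit 188440) (nat_lit 20) (.e (nat_lit 3307) (nat_lit 202) (.e (nat_lit 573477) (nat_lit 12) (.e (nat_lit 57353) (nat_lit 0) (.e (nat_lit 7125) (nat_lit 382) (.e (nat_lit 1296) (nat_lit 96) (.e (nat_lit 131094) (nat_lit 2) .nil)))))))) (.g (nat_lit 4) .nil .nil))) 
(.lf (nat_lit 219889) (.g (nat_lit 1328) (.e (nat_lit 90178) (nat_lit 15) (.e (nat_lit 188451) (nat_lit 23) (.e (nat_lit 204846) (nat_lit 24) (.e (nat_lit 319505) (nat_lit 10) .nil)))) .nil)))) (.nd (nat_lit 4) (.nd (nat_lit 5) 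
(.lf (nat_lit 219849) (.g (nat_lit 1433) (.e (nat_lit 90178) (nat_lit 15) (.e (nat_lit 188440) (nat_lit 20) (.e (nat_lit 3307) (nat_lit 202) (.e (nat_lit 573477) (nat_lit 12) .nil)))) .nil)) 
(.lf (nat_lit 219881) (.g (nat_lit 1775) (.e (nat_lit 90178) (nat_lit 15) (.e (nat_lit 188450) (nat_lit 23) (.e (nat_lit 204846) (nat_lit 24) (.e (nat_lit 319534) (nat_lit 16) (.e (nat_lit 286732) (nat_lit 2) .nil))))) .nil))) (.nd (nat_lit 5) 
(.lf (nat_lit 219865) (.g (nat_lit 2579) (.e (nat_lit 90178) (nat_lit 15) (.e (nat_lit 188441) (nat_lit 20) (.e (nat_lit 3272) (nat_lit 199) (.e (nat_lit 548913) (nat_lit 18) (.e (nat_lit 172039) (nat_lit 0) (.e (nat_lit 7554) (nat_lit 402) (.e (nat_lit 1234) (nat_lit 91) .nil))))))) (.g (nat_lit 4) .nil .nil))) 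
(.lf (nat_lit 219897) (.g (nat_lit 995) (.e (nat_lit 90178) (nat_lit 15) (.e (nat_lit 188452) (nat_lit 23) (.e (nat_lit 212736) (nat_lit 1) .nil))) .nil))))) (.nd (nat_lit 3) (.nd (nat_lit 4) (.nd (nat_lit 5) 
(.lf (nat_lit 219845) (.g (nat_lit 2835) (.e (nat_lit 90178) (nat_lit 15) (.e (nat_lit 188440) (nat_lit 20) (.e (nat_lit 3307) (nat_lit 202) (.e (nat_lit 573475) (nat_lit 12) (.e (nat_lit 57351) (nat_lit 0) (.e (nat_lit 7124) (nat_lit 382) (.e (nat_lit 1296) (nat_lit 96) (.e (nat_lit 131094) (nat_lit 2) .nil)))))))) (.g (nat_lit 4) .nil .nil))) 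
(.lf (nat_lit 219877) (.g (nat_lit 1840) (.e (nat_lit 90178) (nat_lit 15) (.e (nat_lit 188450) (nat_lit 23) (.e (nat_lit 204845) (nat_lit 24) (.e (nat_lit 319528) (nat_lit 16) (.e (nat_lit 286733) (nat_lit 2) .nil))))) .nil))) (.nd (nat_lit 5) 
(.lf (nat_lit 219861) (.g (nat_lit 1110) (.e (nat_lit 90178) (nat_lit 15) (.e (nat_lit 188440) (nat_lit 20) (.e (nat_lit 3307) (nat_lit 202) (.e (nat_lit 573478) (nat_lit 12) .nil)))) .nil)) 
(.lf (nat_lit 219893) (.g (nat_lit 3529) (.e (nat_lit 90178) (nat_lit 15) (.e (nat_lit 188451) (nat_lit 23) (.e (nat_lit 204846) (nat_lit 24) (.e (nat_lit 319531) (nat_lit 16) (.e (nat_lit 286733) (nat_lit 2) .nil))))) (.g (nat_lit 0) .nil .nil))))) (.nd (nat_lit 4) (.nd (nat_lit 5) 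
(.lf (nat_lit 219853) (.g (nat_lit 2662) (.e (nat_lit 90178) (nat_lit 15) (.e (nat_lit 188440) (nat_lit 20) (.e (nat_lit 3307) (nat_lit 202) (.e (nat_lit 573477) (nat_lit 12) (.e (nat_lit 57353) (nat_lit 0) .nil))))) .nil)) 
(.lf (nat_lit 219885) (.g (nat_lit 1185) (.e (nat_lit 90178) (nat_lit 15) (.e (nat_lit 188451) (nat_lit 23) (.e (nat_lit 204846) (nat_lit 24) (.e (nat_lit 319504) (nat_lit 10) .nil)))) .nil))) (.nd (nat_lit 5) 
(.lf (nat_lit 219869) (.g (nat_lit 1728) (.e (nat_lit 90178) (nat_lit 15) (.e (nat_lit 188445) (nat_lit 21) (.e (nat_lit 164179) (nat_lit 154) (.e (nat_lit 57388) (nat_lit 5) .nil)))) .nil)) 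
(.lf (nat_lit 219901) (.g (nat_lit 1982) (.e (nat_lit 90178) (nat_lit 15) (.e (nat_lit 188452) (nat_lit 23) (.e (nat_lit 204846) (nat_lit 24) (.e (nat_lit 319504) (nat_lit 10) .nil)))) .nil)))))) (.nd (nat_lit 2) (.nd (nat_lit 3) (.nd (nat_lit 4) (.nd (nat_lit 5) 
(.lf (nat_lit 219843) (.g (nat_lit 2945) (.e (nat_lit 90178) (nat_lit 15) (.e (nat_lit 188440) (nat_lit 20) (.e (nat_lit 3307) (nat_lit 202) (.e (nat_lit 573475) (nat_lit 12) (.e (nat_lit 57348) (nat_lit 0) (.e (nat_lit 7125) (nat_lit 382) (.e (nat_lit 1296) (nat_lit 96) (.e (nat_lit 131094) (nat_lit 2) .nil)))))))) (.g (nat_lit 4) .nil .nil))) 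
(.lf (nat_lit 219875) (.g (nat_lit 1443) (.e (nat_lit 90178) (nat_lit 15) (.e (nat_lit 188449) (nat_lit 22) (.e (nat_lit 196677) (nat_lit 16) (.e (nat_lit 123080) (nat_lit 177) .nil)))) .nil))) (.nd (nat_lit 5) 
(.lf (nat_lit 219859) (.g (nat_lit 2766) (.e (nat_lit 90178) (nat_lit 15) (.e (nat_lit 188440) (nat_lit 20) (.e (nat_lit 3307) (nat_lit 202) (.e (nat_lit 573477) (nat_lit 12) (.e (nat_lit 57575) (nat_lit 55) .nil))))) .nil)) 
(.lf (nat_lit 219891) (.g (nat_lit 2820) (.e (nat_lit 90178) (nat_lit 15) (.e (nat_lit 188451) (nat_lit 23) (.e (nat_lit 204846) (nat_lit 24) (.e (nat_lit 319511) (nat_lit 10) (.e (nat_lit 5293) (nat_lit 298) (.e (nat_lit 1232) (nat_lit 91) .nil)))))) (.g (nat_lit 0) .nil .nil))))) (.nd (nat_lit 4) (.nd (nat_lit 5) 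
(.lf (nat_lit 219851) (.g (nat_lit 3545) (.e (nat_lit 90178) (nat_lit 15) (.e (nat_lit 188440) (nat_lit 20) (.e (nat_lit 3307) (nat_lit 202) (.e (nat_lit 573477) (nat_lit 12) (.e (nat_lit 57351) (nat_lit 0) (.e (nat_lit 7265) (nat_lit 384) (.e (nat_lit 57406) (nat_lit 12) (.e (nat_lit 336016) (nat_lit 2) .nil)))))))) (.g (nat_lit 4) .nil .nil))) 
(.lf (nat_lit 219883) (.g (nat_lit 2900) (.e (nat_lit 90178) (nat_lit 15) (.e (nat_lit 188450) (nat_lit 23) (.e (nat_lit 204846) (nat_lit 24) (.e (nat_lit 319536) (nat_lit 17) (.e (nat_lit 294928) (nat_lit 2) .nil))))) .nil))) (.nd (nat_lit 5) 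
(.lf (nat_lit 219867) (.g (nat_lit 2960) (.e (nat_lit 90178) (nat_lit 15) (.e (nat_lit 188441) (nat_lit 20) (.e (nat_lit 3272) (nat_lit 199) (.e (nat_lit 548914) (nat_lit 19) (.e (nat_lit 180277) (nat_lit 32) (.e (nat_lit 1234) (nat_lit 91) .nil)))))) (.g (nat_lit 6) .nil .nil))) 
(.lf (nat_lit 219899) (.g (nat_lit 2173) (.e (nat_lit 90178) (nat_lit 15) (.e (nat_lit 188452) (nat_lit 23) (.e (nat_lit 204845) (nat_lit 24) (.e (nat_lit 319528) (nat_lit 16) (.e (nat_lit 286733) (nat_lit 2) .nil))))) .nil))))) (.nd (nat_lit 3) (.nd (nat_lit 4) (.nd (nat_lit 5) 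
(.lf (nat_lit 219847) (.g (nat_lit 2930) (.e (nat_lit 90178) (nat_lit 15) (.e (nat_lit 188440) (nat_lit 20) (.e (nat_lit 3307) (nat_lit 202) (.e (nat_lit 573475) (nat_lit 12) (.e (nat_lit 57351) (nat_lit 0) (.e (nat_lit 7125) (nat_lit 382) (.e (nat_lit 1296) (nat_lit 96) (.e (nat_lit 131094) (nat_lit 2) .nil)))))))) (.g (nat_lit 4) .nil .nil))) 
(.lf (nat_lit 219879) (.g (nat_lit 2014) (.e (nat_lit 90178) (nat_lit 15) (.e (nat_lit 188450) (nat_lit 23) (.e (nat_lit 204846) (nat_lit 24) (.e (nat_lit 319528) (nat_lit 16) .nil)))) .nil))) (.nd (nat_lit 5) 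
(.lf (nat_lit 219863) (.g (nat_lit 375) (.e (nat_lit 90178) (nat_lit 15) (.e (nat_lit 188441) (nat_lit 20) (.e (nat_lit 3272) (nat_lit 199) .nil))) .nil)) 
(.lf (nat_lit 219895) (.g (nat_lit 1077) (.e (nat_lit 90178) (nat_lit 15) (.e (nat_lit 188451) (nat_lit 23) (.e (nat_lit 204846) (nat_lit 24) (.e (nat_lit 319536) (nat_lit 17) .nil)))) .nil)))) (.nd (nat_lit 4) (.nd (nat_lit 5) 
(.lf (nat_lit 219855) (.g (nat_lit 3442) (.e (nat_lit 90178) (nat_lit 15) (.e (nat_lit 188440) (nat_lit 20) (.e (nat_lit 3307) (nat_lit 202) (.e (nat_lit 573477) (nat_lit 12) (.e (nat_lit 57353) (nat_lit 0) (.e (nat_lit 7124) (nat_lit 382) (.e (nat_lit 1296) (nat_lit 96) (.e (nat_lit 131094) (nat_lit 2) .nil)))))))) (.g (nat_lit 4) .nil .nil))) 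
(.lf (nat_lit 219887) (.g (nat_lit 2328) (.e (nat_lit 90178) (nat_lit 15) (.e (nat_lit 188451) (nat_lit 23) (.e (nat_lit 204846) (nat_lit 24) (.e (nat_lit 319504) (nat_lit 10) (.e (nat_lit 7936) (nat_lit 298) .nil))))) .nil))) (.nd (nat_lit 5) 
(.lf (nat_lit 219871) (.g (nat_lit 849) (.e (nat_lit 90178) (nat_lit 15) (.e (nat_lit 188447) (nat_lit 22) (.e (nat_lit 196628) (nat_lit 9) (.e (nat_lit 7936) (nat_lit 106) .nil)))) .nil)) 
(.lf (nat_lit 219903) (.g (nat_lit 2347) (.e (nat_lit 90178) (nat_lit 15) (.e (nat_lit 188452) (nat_lit 23) (.e (nat_lit 204846) (nat_lit 24) (.e (nat_lit 319528) (nat_lit 16) .nil)))) .nil))))))))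

noncomputable def tv2888 : DT := (.nd (nat_lit 0) (.nd (nat_lit 1) (.nd (nat_lit 2) (.nd (nat_lit 3) (.nd (nat_lit 4) (.nd (nat_lit 5) (.nd (nat_lit 6) 
(.lf (nat_lit 219904) (.g (nat_lit 4256) (.e (nat_lit 90178) (nat_lit 15) (.e (nat_lit 188452) (nat_lit 23) (.e (nat_lit 204846) (nat_lit 24) (.e (nat_lit 319531) (nat_lit 16) (.e (nat_lit 286733) (nat_lit 2) .nil))))) (.g (nat_lit 0) .nil .nil))) 
(.lf (nat_lit 219968) (.g (nat_lit 1519) (.e (nat_lit 90185) (nat_lit 17) (.e (nat_lit 237587) (nat_lit 2) (.e (nat_lit 196624) (nat_lit 9) (.e (nat_lit 489) (nat_lit 38) .nil)))) .nil))) (.nd (nat_lit 6) 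
(.lf (nat_lit 219936) (.g (nat_lit 1843) (.e (nat_lit 90185) (nat_lit 17) (.e (nat_lit 237582) (nat_lit 1) (.e (nat_lit 164332) (nat_lit 230) (.e (nat_lit 163885) (nat_lit 5) (.e (nat_lit 221184) (nat_lit 0) (.e (nat_lit 2184) (nat_lit 144) (.e (nat_lit 720955) (nat_lit 25) (.e (nat_lit 114716) (nat_lit 22) .nil)))))))) (.g (nat_lit 4) .nil .nil))) 
(.lf (nat_lit 220000) (.g (nat_lit 1367) (.e (nat_lit 90185) (nat_lit 17) (.e (nat_lit 237590) (nat_lit 2) (.e (nat_lit 196624) (nat_lit 9) (.e (nat_lit 381) (nat_lit 32) .nil)))) .nil)))) (.nd (nat_lit 5) (.nd (nat_lit 6) 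
(.lf (nat_lit 219920) (.g (nat_lit 1315) (.e (nat_lit 90181) (nat_lit 16) (.e (nat_lit 237312) (nat_lit 192) (.e (nat_lit 73753) (nat_lit 8) (.e (nat_lit 557070) (nat_lit 9) (.e (nat_lit 7936) (nat_lit 26) (.e (nat_lit 376862) (nat_lit 22) .nil)))))) (.g (nat_lit 4) .nil .nil))) 
(.lf (nat_lit 219984) (.g (nat_lit 4485) (.e (nat_lit 90185) (nat_lit 17) (.e (nat_lit 237587) (nat_lit 2) (.e (nat_lit 196654) (nat_lit 11) (.e (nat_lit 16416) (nat_lit 3) (.e (nat_lit 204829) (nat_lit 18) (.e (nat_lit 57692) (nat_lit 156) (.e (nat_lit 171776) (nat_lit 63) .nil))))))) (.g (nat_lit 6) .nil .nil)))) (.nd (nat_lit 6) 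
(.lf (nat_lit 219952) (.g (nat_lit 724) (.e (nat_lit 90185) (nat_lit 17) (.e (nat_lit 237585) (nat_lit 1) (.e (nat_lit 164330) (nat_lit 230) (.e (nat_lit 171776) (nat_lit 63) .nil)))) .nil)) 
(.lf (nat_lit 220016) (.g (nat_lit 2753) (.e (nat_lit 90185) (nat_lit 17) (.e (nat_lit 237590) (nat_lit 2) (.e (nat_lit 196654) (nat_lit 11) (.e (nat_lit 16416) (nat_lit 3) (.e (nat_lit 204822) (nat_lit 17) (.e (nat_lit 993) (nat_lit 81) (.e (nat_lit 7695) (nat_lit 412) (.e (nat_lit 57375) (nat_lit 2) .nil)))))))) (.g (nat_lit 4) .nil .nil)))))) (.nd (nat_lit 4) (.nd (nat_lit 5) (.nd (nat_lit 6) 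
(.lf (nat_lit 219912) (.g (nat_lit 427) (.e (nat_lit 90178) (nat_lit 15) (.e (nat_lit 188452) (nat_lit 23) (.e (nat_lit 204885) (nat_lit 33) .nil))) .nil)) 
(.lf (nat_lit 219976) (.g (nat_lit 2833) (.e (nat_lit 90185) (nat_lit 17) (.e (nat_lit 237587) (nat_lit 2) (.e (nat_lit 196654) (nat_lit 11) (.e (nat_lit 16416) (nat_lit 3) (.e (nat_lit 204816) (nat_lit 17) .nil))))) .nil))) (.nd (nat_lit 6) 
(.lf (nat_lit 219944) (.g (nat_lit 3480) (.e (nat_lit 90185) (nat_lit 17) (.e (nat_lit 237584) (nat_lit 1) (.e (nat_lit 164327) (nat_lit 230) (.e (nat_lit 163868) (nat_lit 2) (.e (nat_lit 196691) (nat_lit 18) (.e (nat_lit 1349) (nat_lit 102) (.e (nat_lit 286748) (nat_lit 9) (.e (nat_lit 336001) (nat_lit 2) .nil)))))))) (.g (nat_lit 4) .nil .nil))) 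
(.lf (nat_lit 220008) (.g (nat_lit 2476) (.e (nat_lit 90185) (nat_lit 17) (.e (nat_lit 237590) (nat_lit 2) (.e (nat_lit 196654) (nat_lit 11) (.e (nat_lit 16416) (nat_lit 3) (.e (nat_lit 204815) (nat_lit 17) .nil))))) .nil)))) (.nd (nat_lit 5) (.nd (nat_lit 6) 
(.lf (nat_lit 219928) (.g (nat_lit 3466) (.e (nat_lit 90185) (nat_lit 17) (.e (nat_lit 237582) (nat_lit 1) (.e (nat_lit 164327) (nat_lit 230) (.e (nat_lit 163868) (nat_lit 2) (.e (nat_lit 196691) (nat_lit 18) (.e (nat_lit 1349) (nat_lit 102) (.e (nat_lit 286748) (nat_lit 9) (.e (nat_lit 336008) (nat_lit 2) .nil)))))))) (.g (nat_lit 4) .nil .nil))) 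
(.lf (nat_lit 219992) (.g (nat_lit 2708) (.e (nat_lit 90185) (nat_lit 17) (.e (nat_lit 237587) (nat_lit 2) (.e (nat_lit 196656) (nat_lit 11) (.e (nat_lit 16388) (nat_lit 0) (.e (nat_lit 3211) (nat_lit 195) .nil))))) .nil))) (.nd (nat_lit 6) 
(.lf (nat_lit 219960) (.g (nat_lit 1867) (.e (nat_lit 90185) (nat_lit 17) (.e (nat_lit 237585) (nat_lit 1) (.e (nat_lit 164332) (nat_lit 230) (.e (nat_lit 163885) (nat_lit 5) (.e (nat_lit 221187) (nat_lit 0) (.e (nat_lit 2185) (nat_lit 144) (.e (nat_lit 720955) (nat_lit 25) (.e (nat_lit 114716) (nat_lit 22) .nil)))))))) (.g (nat_lit 4) .nil .nil))) 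
(.lf (nat_lit 220024) (.g (nat_lit 1503) (.e (nat_lit 90185) (nat_lit 17) (.e (nat_lit 237590) (nat_lit 2) (.e (nat_lit 196656) (nat_lit 11) (.e (nat_lit 16388) (nat_lit 0) .nil)))) .nil)))))) (.nd (nat_lit 3) (.nd (nat_lit 4) (.nd (nat_lit 5) (.nd (nat_lit 6) 
(.lf (nat_lit 219908) (.g (nat_lit 2349) (.e (nat_lit 90178) (nat_lit 15) (.e (nat_lit 188452) (nat_lit 23) (.e (nat_lit 204848) (nat_lit 25) (.e (nat_lit 327717) (nat_lit 17) (.e (nat_lit 294927) (nat_lit 2) .nil))))) .nil)) 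
(.lf (nat_lit 219972) (.g (nat_lit 2340) (.e (nat_lit 90185) (nat_lit 17) (.e (nat_lit 237587) (nat_lit 2) (.e (nat_lit 196654) (nat_lit 11) (.e (nat_lit 16412) (nat_lit 2) (.e (nat_lit 196697) (nat_lit 19) .nil))))) .nil))) (.nd (nat_lit 6) 
(.lf (nat_lit 219940) (.g (nat_lit 719) (.e (nat_lit 90185) (nat_lit 17) (.e (nat_lit 237582) (nat_lit 1) (.e (nat_lit 164348) (nat_lit 240) (.e (nat_lit 7936) (nat_lit 81) .nil)))) .nil)) 
(.lf (nat_lit 220004) (.g (nat_lit 846) (.e (nat_lit 90185) (nat_lit 17) (.e (nat_lit 237590) (nat_lit 2) (.e (nat_lit 196653) (nat_lit 11) (.e (nat_lit 24320) (nat_lit 18) .nil)))) .nil)))) (.nd (nat_lit 5) (.nd (nat_lit 6) 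
(.lf (nat_lit 219924) (.g (nat_lit 598) (.e (nat_lit 90184) (nat_lit 17) (.e (nat_lit 237623) (nat_lit 13) (.e (nat_lit 491264) (nat_lit 7) (.e (nat_lit 409648) (nat_lit 18) (.e (nat_lit 311040) (nat_lit 17) .nil))))) (.g (nat_lit 4) .nil .nil))) 
(.lf (nat_lit 219988) (.g (nat_lit 3447) (.e (nat_lit 90185) (nat_lit 17) (.e (nat_lit 237587) (nat_lit 2) (.e (nat_lit 196654) (nat_lit 11) (.e (nat_lit 16416) (nat_lit 3) (.e (nat_lit 204831) (nat_lit 18) (.e (nat_lit 65280) (nat_lit 166) (.e (nat_lit 57373) (nat_lit 2) .nil))))))) (.g (nat_lit 4) .nil .nil)))) (.nd (nat_lit 6) 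
(.lf (nat_lit 219956) (.g (nat_lit 2585) (.e (nat_lit 90185) (nat_lit 17) (.e (nat_lit 237585) (nat_lit 1) (.e (nat_lit 164332) (nat_lit 230) (.e (nat_lit 163869) (nat_lit 2) (.e (nat_lit 204544) (nat_lit 19) .nil))))) .nil)) 
(.lf (nat_lit 220020) (.g (nat_lit 3582) (.e (nat_lit 90185) (nat_lit 17) (.e (nat_lit 237590) (nat_lit 2) (.e (nat_lit 196654) (nat_lit 11) (.e (nat_lit 16416) (nat_lit 3) (.e (nat_lit 204829) (nat_lit 18) (.e (nat_lit 65280) (nat_lit 166) (.e (nat_lit 57375) (nat_lit 2) .nil))))))) (.g (nat_lit 5) .nil .nil)))))) (.nd (nat_lit 4) (.nd (nat_lit 5) (.nd (nat_lit 6) 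
(.lf (nat_lit 219916) (.g (nat_lit 631) (.e (nat_lit 90178) (nat_lit 15) (.e (nat_lit 188461) (nat_lit 26) (.e (nat_lit 261888) (nat_lit 5) .nil))) .nil)) 
(.lf (nat_lit 219980) (.g (nat_lit 2763) (.e (nat_lit 90185) (nat_lit 17) (.e (nat_lit 237587) (nat_lit 2) (.e (nat_lit 196654) (nat_lit 11) (.e (nat_lit 16416) (nat_lit 3) (.e (nat_lit 204822) (nat_lit 17) .nil))))) .nil))) (.nd (nat_lit 6) 
(.lf (nat_lit 219948) (.g (nat_lit 2620) (.e (nat_lit 90185) (nat_lit 17) (.e (nat_lit 237584) (nat_lit 1) (.e (nat_lit 164327) (nat_lit 230) (.e (nat_lit 163871) (nat_lit 2) (.e (nat_lit 196691) (nat_lit 18) (.e (nat_lit 1349) (nat_lit 102) (.e (nat_lit 286748) (nat_lit 9) (.e (nat_lit 336001) (nat_lit 2) .nil)))))))) (.g (nat_lit 4) .nil .nil))) 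
(.lf (nat_lit 220012) (.g (nat_lit 2807) (.e (nat_lit 90185) (nat_lit 17) (.e (nat_lit 237590) (nat_lit 2) (.e (nat_lit 196654) (nat_lit 11) (.e (nat_lit 16416) (nat_lit 3) (.e (nat_lit 204816) (nat_lit 17) (.e (nat_lit 974) (nat_lit 81) (.e (nat_lit 7695) (nat_lit 412) (.e (nat_lit 57375) (nat_lit 2) .nil)))))))) (.g (nat_lit 4) .nil .nil))))) (.nd (nat_lit 5) (.nd (nat_lit 6) 
(.lf (nat_lit 219932) (.g (nat_lit 3240) (.e (nat_lit 90185) (nat_lit 17) (.e (nat_lit 237582) (nat_lit 1) (.e (nat_lit 164332) (nat_lit 230) (.e (nat_lit 163869) (nat_lit 2) (.e (nat_lit 196698) (nat_lit 19) (.e (nat_lit 57901) (nat_lit 277) (.e (nat_lit 131091) (nat_lit 2) .nil))))))) (.g (nat_lit 4) .nil .nil))) 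
(.lf (nat_lit 219996) (.g (nat_lit 2713) (.e (nat_lit 90185) (nat_lit 17) (.e (nat_lit 237587) (nat_lit 2) (.e (nat_lit 196656) (nat_lit 11) (.e (nat_lit 16392) (nat_lit 0) (.e (nat_lit 2400) (nat_lit 157) .nil))))) .nil))) (.nd (nat_lit 6) 
(.lf (nat_lit 219964) (.g (nat_lit 4104) (.e (nat_lit 90185) (nat_lit 17) (.e (nat_lit 237585) (nat_lit 1) (.e (nat_lit 164332) (nat_lit 230) (.e (nat_lit 163885) (nat_lit 5) (.e (nat_lit 221207) (nat_lit 21) (.e (nat_lit 164325) (nat_lit 230) (.e (nat_lit 171776) (nat_lit 66) (.e (nat_lit 114716) (nat_lit 22) .nil)))))))) (.g (nat_lit 6) .nil .nil))) 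
(.lf (nat_lit 220028) (.g (nat_lit 1295) (.e (nat_lit 90185) (nat_lit 17) (.e (nat_lit 237590) (nat_lit 2) (.e (nat_lit 196656) (nat_lit 11) (.e (nat_lit 16392) (nat_lit 0) .nil)))) .nil))))))) (.nd (nat_lit 2) (.nd (nat_lit 3) (.nd (nat_lit 4) (.nd (nat_lit 5) (.nd (nat_lit 6) 
(.lf (nat_lit 219906) (.g (nat_lit 3308) (.e (nat_lit 90178) (nat_lit 15) (.e (nat_lit 188452) (nat_lit 23) (.e (nat_lit 204846) (nat_lit 24) (.e (nat_lit 319536) (nat_lit 17) .nil)))) .nil)) 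
(.lf (nat_lit 219970) (.g (nat_lit 3123) (.e (nat_lit 90185) (nat_lit 17) (.e (nat_lit 237587) (nat_lit 2) (.e (nat_lit 196654) (nat_lit 11) (.e (nat_lit 16412) (nat_lit 2) (.e (nat_lit 196661) (nat_lit 12) (.e (nat_lit 57353) (nat_lit 0) (.e (nat_lit 7695) (nat_lit 412) (.e (nat_lit 57373) (nat_lit 2) .nil)))))))) (.g (nat_lit 4) .nil .nil)))) (.nd (nat_lit 6) 
(.lf (nat_lit 219938) (.g (nat_lit 1835) (.e (nat_lit 90185) (nat_lit 17) (.e (nat_lit 237582) (nat_lit 1) (.e (nat_lit 164332) (nat_lit 230) (.e (nat_lit 163885) (nat_lit 5) (.e (nat_lit 221187) (nat_lit 0) (.e (nat_lit 2185) (nat_lit 144) (.e (nat_lit 720955) (nat_lit 25) (.e (nat_lit 114716) (nat_lit 22) .nil)))))))) (.g (nat_lit 4) .nil .nil))) 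
(.lf (nat_lit 220002) (.g (nat_lit 1935) (.e (nat_lit 90185) (nat_lit 17) (.e (nat_lit 237590) (nat_lit 2) (.e (nat_lit 196624) (nat_lit 9) (.e (nat_lit 442) (nat_lit 33) (.e (nat_lit 442112) (nat_lit 21) .nil))))) .nil)))) (.nd (nat_lit 5) (.nd (nat_lit 6) 
(.lf (nat_lit 219922) (.g (nat_lit 157) (.e (nat_lit 90184) (nat_lit 17) (.e (nat_lit 237623) (nat_lit 13) (.e (nat_lit 491264) (nat_lit 7) .nil))) .nil)) 
(.lf (nat_lit 219986) (.g (nat_lit 3956) (.e (nat_lit 90185) (nat_lit 17) (.e (nat_lit 237587) (nat_lit 2) (.e (nat_lit 196654) (nat_lit 11) (.e (nat_lit 16416) (nat_lit 3) (.e (nat_lit 204830) (nat_lit 18) (.e (nat_lit 57692) (nat_lit 156) (.e (nat_lit 171776) (nat_lit 63) .nil))))))) (.g (nat_lit 6) .nil .nil)))) (.nd (nat_lit 6) 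
(.lf (nat_lit 219954) (.g (nat_lit 2591) (.e (nat_lit 90185) (nat_lit 17) (.e (nat_lit 237585) (nat_lit 1) (.e (nat_lit 164332) (nat_lit 230) (.e (nat_lit 163869) (nat_lit 2) (.e (nat_lit 196697) (nat_lit 19) (.e (nat_lit 57901) (nat_lit 277) (.e (nat_lit 131091) (nat_lit 2) .nil))))))) (.g (nat_lit 4) .nil .nil))) 
(.lf (nat_lit 220018) (.g (nat_lit 4220) (.e (nat_lit 90185) (nat_lit 17) (.e (nat_lit 237590) (nat_lit 2) (.e (nat_lit 196654) (nat_lit 11) (.e (nat_lit 16416) (nat_lit 3) (.e (nat_lit 204829) (nat_lit 18) (.e (nat_lit 57688) (nat_lit 156) (.e (nat_lit 171776) (nat_lit 63) .nil))))))) (.g (nat_lit 5) .nil .nil)))))) (.nd (nat_lit 4) (.nd (nat_lit 5) (.nd (nat_lit 6) 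
(.lf (nat_lit 219914) (.g (nat_lit 217) (.e (nat_lit 90178) (nat_lit 15) (.e (nat_lit 188456) (nat_lit 25) (.e (nat_lit 245762) (nat_lit 0) .nil))) .nil)) 
(.lf (nat_lit 219978) (.g (nat_lit 2828) (.e (nat_lit 90185) (nat_lit 17) (.e (nat_lit 237587) (nat_lit 2) (.e (nat_lit 196654) (nat_lit 11) (.e (nat_lit 16416) (nat_lit 3) (.e (nat_lit 204818) (nat_lit 17) .nil))))) .nil))) (.nd (nat_lit 6) 
(.lf (nat_lit 219946) (.g (nat_lit 2812) (.e (nat_lit 90185) (nat_lit 17) (.e (nat_lit 237584) (nat_lit 1) (.e (nat_lit 164327) (nat_lit 230) (.e (nat_lit 163868) (nat_lit 2) (.e (nat_lit 196691) (nat_lit 18) (.e (nat_lit 1349) (nat_lit 102) (.e (nat_lit 286748) (nat_lit 9) (.e (nat_lit 336006) (nat_lit 2) .nil)))))))) (.g (nat_lit 4) .nil .nil))) 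
(.lf (nat_lit 220010) (.g (nat_lit 2969) (.e (nat_lit 90185) (nat_lit 17) (.e (nat_lit 237590) (nat_lit 2) (.e (nat_lit 196654) (nat_lit 11) (.e (nat_lit 16416) (nat_lit 3) (.e (nat_lit 204815) (nat_lit 17) (.e (nat_lit 996) (nat_lit 81) (.e (nat_lit 7695) (nat_lit 412) (.e (nat_lit 57375) (nat_lit 2) .nil)))))))) (.g (nat_lit 4) .nil .nil))))) (.nd (nat_lit 5) (.nd (nat_lit 6) 
(.lf (nat_lit 219930) (.g (nat_lit 3643) (.e (nat_lit 90185) (nat_lit 17) (.e (nat_lit 237582) (nat_lit 1) (.e (nat_lit 164332) (nat_lit 230) (.e (nat_lit 163869) (nat_lit 2) (.e (nat_lit 196691) (nat_lit 18) (.e (nat_lit 1349) (nat_lit 102) (.e (nat_lit 286748) (nat_lit 9) (.e (nat_lit 336006) (nat_lit 2) .nil)))))))) (.g (nat_lit 4) .nil .nil))) 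
(.lf (nat_lit 219994) (.g (nat_lit 2701) (.e (nat_lit 90185) (nat_lit 17) (.e (nat_lit 237587) (nat_lit 2) (.e (nat_lit 196656) (nat_lit 11) (.e (nat_lit 16392) (nat_lit 0) (.e (nat_lit 2397) (nat_lit 157) .nil))))) .nil))) (.nd (nat_lit 6) 
(.lf (nat_lit 219962) (.g (nat_lit 1716) (.e (nat_lit 90185) (nat_lit 17) (.e (nat_lit 237585) (nat_lit 1) (.e (nat_lit 164332) (nat_lit 230) (.e (nat_lit 163885) (nat_lit 5) (.e (nat_lit 221189) (nat_lit 0) (.e (nat_lit 2187) (nat_lit 144) (.e (nat_lit 720956) (nat_lit 25) (.e (nat_lit 114716) (nat_lit 22) .nil)))))))) (.g (nat_lit 4) .nil .nil))) 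
(.lf (nat_lit 220026) (.g (nat_lit 2872) (.e (nat_lit 90185) (nat_lit 17) (.e (nat_lit 237590) (nat_lit 2) (.e (nat_lit 196656) (nat_lit 11) (.e (nat_lit 16388) (nat_lit 0) (.e (nat_lit 3208) (nat_lit 195) (.e (nat_lit 516106) (nat_lit 0) (.e (nat_lit 7936) (nat_lit 220) (.e (nat_lit 720941) (nat_lit 22) .nil)))))))) (.g (nat_lit 4) .nil .nil))))))) 
(.nd (nat_lit 3) (.nd (nat_lit 4) (.nd (nat_lit 5) (.nd (nat_lit 6) 
(.lf (nat_lit 219910) (.g (nat_lit 696) (.e (nat_lit 90178) (nat_lit 15) (.e (nat_lit 188452) (nat_lit 23) (.e (nat_lit 204849) (nat_lit 25) .nil))) .nil)) 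
(.lf (nat_lit 219974) (.g (nat_lit 3157) (.e (nat_lit 90185) (nat_lit 17) (.e (nat_lit 237587) (nat_lit 2) (.e (nat_lit 196654) (nat_lit 11) (.e (nat_lit 16416) (nat_lit 3) (.e (nat_lit 204815) (nat_lit 17) (.e (nat_lit 996) (nat_lit 81) (.e (nat_lit 7695) (nat_lit 412) (.e (nat_lit 57373) (nat_lit 2) .nil)))))))) (.g (nat_lit 4) .nil .nil)))) (.nd (nat_lit 6) 
(.lf (nat_lit 219942) (.g (nat_lit 3349) (.e (nat_lit 90185) (nat_lit 17) (.e (nat_lit 237584) (nat_lit 1) (.e (nat_lit 164325) (nat_lit 230) (.e (nat_lit 163873) (nat_lit 3) (.e (nat_lit 204829) (nat_lit 18) (.e (nat_lit 57931) (nat_lit 282) (.e (nat_lit 164084) (nat_lit 73) (.e (nat_lit 336012) (nat_lit 2) .nil)))))))) (.g (nat_lit 4) .nil .nil))) 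
(.lf (nat_lit 220006) (.g (nat_lit 2859) (.e (nat_lit 90185) (nat_lit 17) (.e (nat_lit 237590) (nat_lit 2) (.e (nat_lit 196654) (nat_lit 11) (.e (nat_lit 16412) (nat_lit 2) (.e (nat_lit 196661) (nat_lit 12) (.e (nat_lit 57353) (nat_lit 0) (.e (nat_lit 7695) (nat_lit 412) (.e (nat_lit 57373) (nat_lit 2) .nil)))))))) (.g (nat_lit 4) .nil .nil))))) (.nd (nat_lit 5) (.nd (nat_lit 6) 
(.lf (nat_lit 219926) (.g (nat_lit 3275) (.e (nat_lit 90185) (nat_lit 17) (.e (nat_lit 237582) (nat_lit 1) (.e (nat_lit 164327) (nat_lit 230) (.e (nat_lit 163868) (nat_lit 2) (.e (nat_lit 196691) (nat_lit 18) (.e (nat_lit 1349) (nat_lit 102) (.e (nat_lit 286748) (nat_lit 9) (.e (nat_lit 336005) (nat_lit 2) .nil)))))))) (.g (nat_lit 4) .nil .nil))) 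
(.lf (nat_lit 219990) (.g (nat_lit 1804) (.e (nat_lit 90185) (nat_lit 17) (.e (nat_lit 237587) (nat_lit 2) (.e (nat_lit 196655) (nat_lit 11) (.e (nat_lit 16388) (nat_lit 0) (.e (nat_lit 3211) (nat_lit 195) .nil))))) .nil))) (.nd (nat_lit 6) 
(.lf (nat_lit 219958) (.g (nat_lit 1871) (.e (nat_lit 90185) (nat_lit 17) (.e (nat_lit 237585) (nat_lit 1) (.e (nat_lit 164332) (nat_lit 230) (.e (nat_lit 163885) (nat_lit 5) (.e (nat_lit 221184) (nat_lit 0) (.e (nat_lit 2184) (nat_lit 144) (.e (nat_lit 720955) (nat_lit 25) (.e (nat_lit 114716) (nat_lit 22) .nil)))))))) (.g (nat_lit 4) .nil .nil))) 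
(.lf (nat_lit 220022) (.g (nat_lit 3136) (.e (nat_lit 90185) (nat_lit 17) (.e (nat_lit 237590) (nat_lit 2) (.e (nat_lit 196654) (nat_lit 11) (.e (nat_lit 16416) (nat_lit 3) (.e (nat_lit 204831) (nat_lit 18) (.e (nat_lit 65280) (nat_lit 166) (.e (nat_lit 57373) (nat_lit 2) .nil))))))) (.g (nat_lit 4) .nil .nil)))))) (.nd (nat_lit 4) (.nd (nat_lit 5) (.nd (nat_lit 6) 
(.lf (nat_lit 219918) (.g (nat_lit 973) (.e (nat_lit 90178) (nat_lit 15) (.e (nat_lit 188461) (nat_lit 26) (.e (nat_lit 253987) (nat_lit 10) (.e (nat_lit 8276) (nat_lit 47) .nil)))) .nil)) 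
(.lf (nat_lit 219982) (.g (nat_lit 2848) (.e (nat_lit 90185) (nat_lit 17) (.e (nat_lit 237587) (nat_lit 2) (.e (nat_lit 196654) (nat_lit 11) (.e (nat_lit 16416) (nat_lit 3) (.e (nat_lit 204825) (nat_lit 17) .nil))))) .nil))) (.nd (nat_lit 6) 
(.lf (nat_lit 219950) (.g (nat_lit 4193) (.e (nat_lit 90185) (nat_lit 17) (.e (nat_lit 237584) (nat_lit 1) (.e (nat_lit 164327) (nat_lit 230) (.e (nat_lit 163873) (nat_lit 3) (.e (nat_lit 204829) (nat_lit 18) (.e (nat_lit 57927) (nat_lit 282) (.e (nat_lit 164084) (nat_lit 73) (.e (nat_lit 336012) (nat_lit 2) .nil)))))))) (.g (nat_lit 6) .nil .nil))) 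
(.lf (nat_lit 220014) (.g (nat_lit 2867) (.e (nat_lit 90185) (nat_lit 17) (.e (nat_lit 237590) (nat_lit 2) (.e (nat_lit 196654) (nat_lit 11) (.e (nat_lit 16416) (nat_lit 3) (.e (nat_lit 204819) (nat_lit 17) (.e (nat_lit 968) (nat_lit 81) (.e (nat_lit 7694) (nat_lit 412) (.e (nat_lit 57375) (nat_lit 2) .nil)))))))) (.g (nat_lit 4) .nil .nil))))) (.nd (nat_lit 5) (.nd (nat_lit 6) 
(.lf (nat_lit 219934) (.g (nat_lit 2637) (.e (nat_lit 90185) (nat_lit 17) (.e (nat_lit 237582) (nat_lit 1) (.e (nat_lit 164332) (nat_lit 230) (.e (nat_lit 163869) (nat_lit 2) (.e (nat_lit 196699) (nat_lit 20) .nil))))) .nil)) 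
(.lf (nat_lit 219998) (.g (nat_lit 2738) (.e (nat_lit 90185) (nat_lit 17) (.e (nat_lit 237587) (nat_lit 2) (.e (nat_lit 196656) (nat_lit 11) (.e (nat_lit 16412) (nat_lit 2) (.e (nat_lit 204544) (nat_lit 19) .nil))))) .nil))) (.nd (nat_lit 6) 
(.lf (nat_lit 219966) (.g (nat_lit 1521) (.e (nat_lit 90185) (nat_lit 17) (.e (nat_lit 237587) (nat_lit 2) (.e (nat_lit 196624) (nat_lit 9) (.e (nat_lit 386) (nat_lit 32) .nil)))) .nil)) 
(.lf (nat_lit 220030) (.g (nat_lit 2374) (.e (nat_lit 90185) (nat_lit 17) (.e (nat_lit 237590) (nat_lit 2) (.e (nat_lit 196656) (nat_lit 11) (.e (nat_lit 16392) (nat_lit 0) (.e (nat_lit 2397) (nat_lit 157) (.e (nat_lit 3999) (nat_lit 241) (.e (nat_lit 57390) (nat_lit 5) (.e (nat_lit 114716) (nat_lit 22) .nil)))))))) (.g (nat_lit 4) .nil .nil))))))))) 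
(.nd (nat_lit 1) (.nd (nat_lit 2) (.nd (nat_lit 3) (.nd (nat_lit 4) (.nd (nat_lit 5) 
(.nd (nat_lit 6) 
(.lf (nat_lit 219905) (.g (nat_lit 3638) (.e (nat_lit 90178) (nat_lit 15) (.e (nat_lit 188452) (nat_lit 23) (.e (nat_lit 204846) (nat_lit 24) (.e (nat_lit 319532) (nat_lit 16) (.e (nat_lit 286732) (nat_lit 2) .nil))))) .nil)) 
(.lf (nat_lit 219969) (.g (nat_lit 2310) (.e (nat_lit 90185) (nat_lit 17) (.e (nat_lit 237587) (nat_lit 2) (.e (nat_lit 196654) (nat_lit 11) (.e (nat_lit 16412) (nat_lit 2) (.e (nat_lit 196661) (nat_lit 12) .nil))))) .nil))) (.nd (nat_lit 6) 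
(.lf (nat_lit 219937) (.g (nat_lit 1855) (.e (nat_lit 90185) (nat_lit 17) (.e (nat_lit 237582) (nat_lit 1) (.e (nat_lit 164332) (nat_lit 230) (.e (nat_lit 163885) (nat_lit 5) (.e (nat_lit 221185) (nat_lit 0) (.e (nat_lit 2184) (nat_lit 144) (.e (nat_lit 720955) (nat_lit 25) (.e (nat_lit 114716) (nat_lit 22) .nil)))))))) (.g (nat_lit 4) .nil .nil))) 
(.lf (nat_lit 220001) (.g (nat_lit 1509) (.e (nat_lit 90185) (nat_lit 17) (.e (nat_lit 237590) (nat_lit 2) (.e (nat_lit 196624) (nat_lit 9) (.e (nat_lit 386) (nat_lit 32) (.e (nat_lit 426435) (nat_lit 18) .nil))))) .nil)))) (.nd (nat_lit 5) (.nd (nat_lit 6) 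
(.lf (nat_lit 219921) (.g (nat_lit 3389) (.e (nat_lit 90184) (nat_lit 17) (.e (nat_lit 237605) (nat_lit 9) (.e (nat_lit 426131) (nat_lit 3) (.e (nat_lit 204846) (nat_lit 24) (.e (nat_lit 319533) (nat_lit 16) (.e (nat_lit 286732) (nat_lit 2) .nil)))))) (.g (nat_lit 6) .nil .nil))) 
(.lf (nat_lit 219985) (.g (nat_lit 3822) (.e (nat_lit 90185) (nat_lit 17) (.e (nat_lit 237587) (nat_lit 2) (.e (nat_lit 196654) (nat_lit 11) (.e (nat_lit 16416) (nat_lit 3) (.e (nat_lit 204829) (nat_lit 18) (.e (nat_lit 65280) (nat_lit 166) (.e (nat_lit 57375) (nat_lit 2) .nil))))))) (.g (nat_lit 5) .nil .nil)))) (.nd (nat_lit 6) 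
(.lf (nat_lit 219953) (.g (nat_lit 3620) (.e (nat_lit 90185) (nat_lit 17) (.e (nat_lit 237585) (nat_lit 1) (.e (nat_lit 164332) (nat_lit 230) (.e (nat_lit 163869) (nat_lit 2) (.e (nat_lit 196691) (nat_lit 18) (.e (nat_lit 1349) (nat_lit 102) (.e (nat_lit 286748) (nat_lit 9) (.e (nat_lit 336006) (nat_lit 2) .nil)))))))) (.g (nat_lit 4) .nil .nil))) 
(.lf (nat_lit 220017) (.g (nat_lit 2705) (.e (nat_lit 90185) (nat_lit 17) (.e (nat_lit 237590) (nat_lit 2) (.e (nat_lit 196654) (nat_lit 11) (.e (nat_lit 16416) (nat_lit 3) (.e (nat_lit 204825) (nat_lit 17) .nil))))) .nil))))) (.nd (nat_lit 4) (.nd (nat_lit 5) (.nd (nat_lit 6) 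
(.lf (nat_lit 219913) (.g (nat_lit 853) (.e (nat_lit 90178) (nat_lit 15) (.e (nat_lit 188455) (nat_lit 24) (.e (nat_lit 229521) (nat_lit 127) .nil))) .nil)) 
(.lf (nat_lit 219977) (.g (nat_lit 3047) (.e (nat_lit 90185) (nat_lit 17) (.e (nat_lit 237587) (nat_lit 2) (.e (nat_lit 196654) (nat_lit 11) (.e (nat_lit 16416) (nat_lit 3) (.e (nat_lit 204816) (nat_lit 17) (.e (nat_lit 974) (nat_lit 81) (.e (nat_lit 7695) (nat_lit 412) (.e (nat_lit 57375) (nat_lit 2) .nil)))))))) (.g (nat_lit 4) .nil .nil)))) (.nd (nat_lit 6) 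
(.lf (nat_lit 219945) (.g (nat_lit 3216) (.e (nat_lit 90185) (nat_lit 17) (.e (nat_lit 237584) (nat_lit 1) (.e (nat_lit 164327) (nat_lit 230) (.e (nat_lit 163868) (nat_lit 2) (.e (nat_lit 196691) (nat_lit 18) (.e (nat_lit 1349) (nat_lit 102) (.e (nat_lit 286748) (nat_lit 9) (.e (nat_lit 336005) (nat_lit 2) .nil)))))))) (.g (nat_lit 4) .nil .nil))) 
(.lf (nat_lit 220009) (.g (nat_lit 2884) (.e (nat_lit 90185) (nat_lit 17) (.e (nat_lit 237590) (nat_lit 2) (.e (nat_lit 196654) (nat_lit 11) (.e (nat_lit 16416) (nat_lit 3) (.e (nat_lit 204815) (nat_lit 17) (.e (nat_lit 996) (nat_lit 81) (.e (nat_lit 7695) (nat_lit 412) (.e (nat_lit 57373) (nat_lit 2) .nil)))))))) (.g (nat_lit 4) .nil .nil))))) (.nd (nat_lit 5) (.nd (nat_lit 6) 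
(.lf (nat_lit 219929) (.g (nat_lit 2606) (.e (nat_lit 90185) (nat_lit 17) (.e (nat_lit 237582) (nat_lit 1) (.e (nat_lit 164327) (nat_lit 230) (.e (nat_lit 163871) (nat_lit 2) (.e (nat_lit 196691) (nat_lit 18) (.e (nat_lit 1349) (nat_lit 102) (.e (nat_lit 286748) (nat_lit 9) (.e (nat_lit 336008) (nat_lit 2) .nil)))))))) (.g (nat_lit 4) .nil .nil))) 
(.lf (nat_lit 219993) (.g (nat_lit 1633) (.e (nat_lit 90185) (nat_lit 17) (.e (nat_lit 237587) (nat_lit 2) (.e (nat_lit 196656) (nat_lit 11) (.e (nat_lit 16392) (nat_lit 0) .nil)))) .nil))) (.nd (nat_lit 6) 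
(.lf (nat_lit 219961) (.g (nat_lit 2122) (.e (nat_lit 90185) (nat_lit 17) (.e (nat_lit 237585) (nat_lit 1) (.e (nat_lit 164332) (nat_lit 230) (.e (nat_lit 163885) (nat_lit 5) (.e (nat_lit 221189) (nat_lit 0) (.e (nat_lit 2184) (nat_lit 144) (.e (nat_lit 720956) (nat_lit 25) (.e (nat_lit 114716) (nat_lit 22) .nil)))))))) (.g (nat_lit 4) .nil .nil))) 
(.lf (nat_lit 220025) (.g (nat_lit 2940) (.e (nat_lit 90185) (nat_lit 17) (.e (nat_lit 237590) (nat_lit 2) (.e (nat_lit 196656) (nat_lit 11) (.e (nat_lit 16388) (nat_lit 0) (.e (nat_lit 3192) (nat_lit 193) (.e (nat_lit 499910) (nat_lit 8) (.e (nat_lit 171776) (nat_lit 48) (.e (nat_lit 720941) (nat_lit 22) .nil)))))))) (.g (nat_lit 4) .nil .nil))))))) 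
(.nd (nat_lit 3) (.nd (nat_lit 4) (.nd (nat_lit 5) (.nd (nat_lit 6) 
(.lf (nat_lit 219909) (.g (nat_lit 1466) (.e (nat_lit 90178) (nat_lit 15) (.e (nat_lit 188452) (nat_lit 23) (.e (nat_lit 204848) (nat_lit 25) (.e (nat_lit 335616) (nat_lit 17) .nil)))) .nil)) 
(.lf (nat_lit 219973) (.g (nat_lit 2619) (.e (nat_lit 90185) (nat_lit 17) (.e (nat_lit 237587) (nat_lit 2) (.e (nat_lit 196654) (nat_lit 11) (.e (nat_lit 16416) (nat_lit 3) (.e (nat_lit 204815) (nat_lit 17) .nil))))) .nil))) (.nd (nat_lit 6) 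
(.lf (nat_lit 219941) (.g (nat_lit 518) (.e (nat_lit 90185) (nat_lit 17) (.e (nat_lit 237584) (nat_lit 1) (.e (nat_lit 164322) (nat_lit 230) (.e (nat_lit 171776) (nat_lit 64) .nil)))) .nil)) 
(.lf (nat_lit 220005) (.g (nat_lit 2162) (.e (nat_lit 90185) (nat_lit 17) (.e (nat_lit 237590) (nat_lit 2) (.e (nat_lit 196654) (nat_lit 11) (.e (nat_lit 16412) (nat_lit 2) (.e (nat_lit 196661) (nat_lit 12) .nil))))) .nil)))) (.nd (nat_lit 5) (.nd (nat_lit 6) 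
(.lf (nat_lit 219925) (.g (nat_lit 3482) (.e (nat_lit 90185) (nat_lit 17) (.e (nat_lit 237582) (nat_lit 1) (.e (nat_lit 164327) (nat_lit 230) (.e (nat_lit 163868) (nat_lit 2) (.e (nat_lit 196691) (nat_lit 18) (.e (nat_lit 1349) (nat_lit 102) (.e (nat_lit 286748) (nat_lit 9) (.e (nat_lit 336001) (nat_lit 2) .nil)))))))) (.g (nat_lit 4) .nil .nil))) 
(.lf (nat_lit 219989) (.g (nat_lit 3185) (.e (nat_lit 90185) (nat_lit 17) (.e (nat_lit 237587) (nat_lit 2) (.e (nat_lit 196654) (nat_lit 11) (.e (nat_lit 16416) (nat_lit 3) (.e (nat_lit 204831) (nat_lit 18) (.e (nat_lit 65280) (nat_lit 166) (.e (nat_lit 57375) (nat_lit 2) .nil))))))) (.g (nat_lit 4) .nil .nil)))) (.nd (nat_lit 6) 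
(.lf (nat_lit 219957) (.g (nat_lit 2753) (.e (nat_lit 90185) (nat_lit 17) (.e (nat_lit 237585) (nat_lit 1) (.e (nat_lit 164332) (nat_lit 230) (.e (nat_lit 163869) (nat_lit 2) (.e (nat_lit 196699) (nat_lit 20) (.e (nat_lit 123216) (nat_lit 277) (.e (nat_lit 131091) (nat_lit 2) .nil))))))) (.g (nat_lit 4) .nil .nil))) 
(.lf (nat_lit 220021) (.g (nat_lit 3823) (.e (nat_lit 90185) (nat_lit 17) (.e (nat_lit 237590) (nat_lit 2) (.e (nat_lit 196654) (nat_lit 11) (.e (nat_lit 16416) (nat_lit 3) (.e (nat_lit 204830) (nat_lit 18) (.e (nat_lit 57692) (nat_lit 156) (.e (nat_lit 171776) (nat_lit 63) .nil))))))) (.g (nat_lit 6) .nil .nil)))))) (.nd (nat_lit 4) (.nd (nat_lit 5) (.nd (nat_lit 6) 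
(.lf (nat_lit 219917) (.g (nat_lit 736) (.e (nat_lit 90178) (nat_lit 15) (.e (nat_lit 188461) (nat_lit 26) (.e (nat_lit 253987) (nat_lit 10) .nil))) .nil)) 
(.lf (nat_lit 219981) (.g (nat_lit 3019) (.e (nat_lit 90185) (nat_lit 17) (.e (nat_lit 237587) (nat_lit 2) (.e (nat_lit 196654) (nat_lit 11) (.e (nat_lit 16416) (nat_lit 3) (.e (nat_lit 204822) (nat_lit 17) (.e (nat_lit 993) (nat_lit 81) (.e (nat_lit 7695) (nat_lit 412) (.e (nat_lit 57375) (nat_lit 2) .nil)))))))) (.g (nat_lit 4) .nil .nil)))) (.nd (nat_lit 6) 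
(.lf (nat_lit 219949) (.g (nat_lit 2578) (.e (nat_lit 90185) (nat_lit 17) (.e (nat_lit 237584) (nat_lit 1) (.e (nat_lit 164327) (nat_lit 230) (.e (nat_lit 163871) (nat_lit 2) (.e (nat_lit 196691) (nat_lit 18) (.e (nat_lit 1349) (nat_lit 102) (.e (nat_lit 286748) (nat_lit 9) (.e (nat_lit 336008) (nat_lit 2) .nil)))))))) (.g (nat_lit 4) .nil .nil))) 
(.lf (nat_lit 220013) (.g (nat_lit 2686) (.e (nat_lit 90185) (nat_lit 17) (.e (nat_lit 237590) (nat_lit 2) (.e (nat_lit 196654) (nat_lit 11) (.e (nat_lit 16416) (nat_lit 3) (.e (nat_lit 204818) (nat_lit 17) .nil))))) .nil)))) (.nd (nat_lit 5) (.nd (nat_lit 6) 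
(.lf (nat_lit 219933) (.g (nat_lit 2547) (.e (nat_lit 90185) (nat_lit 17) (.e (nat_lit 237582) (nat_lit 1) (.e (nat_lit 164332) (nat_lit 230) (.e (nat_lit 163869) (nat_lit 2) (.e (nat_lit 204544) (nat_lit 19) .nil))))) .nil)) 
(.lf (nat_lit 219997) (.g (nat_lit 2420) (.e (nat_lit 90185) (nat_lit 17) (.e (nat_lit 237587) (nat_lit 2) (.e (nat_lit 196656) (nat_lit 11) (.e (nat_lit 16392) (nat_lit 0) (.e (nat_lit 7936) (nat_lit 195) .nil))))) .nil))) (.nd (nat_lit 6) 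
(.lf (nat_lit 219965) (.g (nat_lit 1521) (.e (nat_lit 90185) (nat_lit 17) (.e (nat_lit 237587) (nat_lit 2) (.e (nat_lit 196624) (nat_lit 9) (.e (nat_lit 381) (nat_lit 32) .nil)))) .nil)) 
(.lf (nat_lit 220029) (.g (nat_lit 2358) (.e (nat_lit 90185) (nat_lit 17) (.e (nat_lit 237590) (nat_lit 2) (.e (nat_lit 196656) (nat_lit 11) (.e (nat_lit 16392) (nat_lit 0) (.e (nat_lit 2397) (nat_lit 157) .nil))))) .nil))))))) (.nd (nat_lit 2) (.nd (nat_lit 3) (.nd (nat_lit 4) (.nd (nat_lit 5) (.nd (nat_lit 6) 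
(.lf (nat_lit 219907) (.g (nat_lit 4040) (.e (nat_lit 90178) (nat_lit 15) (.e (nat_lit 188452) (nat_lit 23) (.e (nat_lit 204846) (nat_lit 24) (.e (nat_lit 319536) (nat_lit 17) (.e (nat_lit 294928) (nat_lit 2) .nil))))) .nil)) 
(.lf (nat_lit 219971) (.g (nat_lit 2481) (.e (nat_lit 90185) (nat_lit 17) (.e (nat_lit 237587) (nat_lit 2) (.e (nat_lit 196654) (nat_lit 11) (.e (nat_lit 16412) (nat_lit 2) (.e (nat_lit 196686) (nat_lit 18) .nil))))) .nil))) (.nd (nat_lit 6) 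
(.lf (nat_lit 219939) (.g (nat_lit 2059) (.e (nat_lit 90185) (nat_lit 17) (.e (nat_lit 237582) (nat_lit 1) (.e (nat_lit 164332) (nat_lit 230) (.e (nat_lit 163885) (nat_lit 5) (.e (nat_lit 221189) (nat_lit 0) (.e (nat_lit 2184) (nat_lit 144) (.e (nat_lit 720956) (nat_lit 25) (.e (nat_lit 114716) (nat_lit 22) .nil)))))))) (.g (nat_lit 4) .nil .nil))) 
(.lf (nat_lit 220003) (.g (nat_lit 1367) (.e (nat_lit 90185) (nat_lit 17) (.e (nat_lit 237590) (nat_lit 2) (.e (nat_lit 196624) (nat_lit 9) (.e (nat_lit 473) (nat_lit 36) .nil)))) .nil)))) (.nd (nat_lit 5) (.nd (nat_lit 6) 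
(.lf (nat_lit 219923) (.g (nat_lit 551) (.e (nat_lit 90184) (nat_lit 17) (.e (nat_lit 237623) (nat_lit 13) (.e (nat_lit 491264) (nat_lit 7) (.e (nat_lit 409645) (nat_lit 18) (.e (nat_lit 311040) (nat_lit 17) .nil))))) .nil)) 
(.lf (nat_lit 219987) (.g (nat_lit 4137) (.e (nat_lit 90185) (nat_lit 17) (.e (nat_lit 237587) (nat_lit 2) (.e (nat_lit 196654) (nat_lit 11) (.e (nat_lit 16416) (nat_lit 3) (.e (nat_lit 204831) (nat_lit 18) (.e (nat_lit 57692) (nat_lit 156) (.e (nat_lit 171776) (nat_lit 63) .nil))))))) (.g (nat_lit 5) .nil .nil)))) (.nd (nat_lit 6) 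
(.lf (nat_lit 219955) (.g (nat_lit 3194) (.e (nat_lit 90185) (nat_lit 17) (.e (nat_lit 237585) (nat_lit 1) (.e (nat_lit 164332) (nat_lit 230) (.e (nat_lit 163869) (nat_lit 2) (.e (nat_lit 196698) (nat_lit 19) (.e (nat_lit 57901) (nat_lit 277) (.e (nat_lit 131091) (nat_lit 2) .nil))))))) (.g (nat_lit 4) .nil .nil))) 
(.lf (nat_lit 220019) (.g (nat_lit 4351) (.e (nat_lit 90185) (nat_lit 17) (.e (nat_lit 237590) (nat_lit 2) (.e (nat_lit 196654) (nat_lit 11) (.e (nat_lit 16416) (nat_lit 3) (.e (nat_lit 204829) (nat_lit 18) (.e (nat_lit 57692) (nat_lit 156) (.e (nat_lit 171776) (nat_lit 63) .nil))))))) (.g (nat_lit 6) .nil .nil)))))) (.nd (nat_lit 4) (.nd (nat_lit 5) (.nd (nat_lit 6) 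
(.lf (nat_lit 219915) (.g (nat_lit 631) (.e (nat_lit 90178) (nat_lit 15) (.e (nat_lit 188461) (nat_lit 26) (.e (nat_lit 261888) (nat_lit 4) .nil))) .nil)) 
(.lf (nat_lit 219979) (.g (nat_lit 3107) (.e (nat_lit 90185) (nat_lit 17) (.e (nat_lit 237587) (nat_lit 2) (.e (nat_lit 196654) (nat_lit 11) (.e (nat_lit 16416) (nat_lit 3) (.e (nat_lit 204819) (nat_lit 17) (.e (nat_lit 968) (nat_lit 81) (.e (nat_lit 7694) (nat_lit 412) (.e (nat_lit 57375) (nat_lit 2) .nil)))))))) (.g (nat_lit 4) .nil .nil)))) (.nd (nat_lit 6) 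
(.lf (nat_lit 219947) (.g (nat_lit 3438) (.e (nat_lit 90185) (nat_lit 17) (.e (nat_lit 237584) (nat_lit 1) (.e (nat_lit 164327) (nat_lit 230) (.e (nat_lit 163868) (nat_lit 2) (.e (nat_lit 196691) (nat_lit 18) (.e (nat_lit 1349) (nat_lit 102) (.e (nat_lit 286748) (nat_lit 9) (.e (nat_lit 336008) (nat_lit 2) .nil)))))))) (.g (nat_lit 4) .nil .nil))) 
(.lf (nat_lit 220011) (.g (nat_lit 2690) (.e (nat_lit 90185) (nat_lit 17) (.e (nat_lit 237590) (nat_lit 2) (.e (nat_lit 196654) (nat_lit 11) (.e (nat_lit 16416) (nat_lit 3) (.e (nat_lit 204816) (nat_lit 17) .nil))))) .nil)))) (.nd (nat_lit 5) (.nd (nat_lit 6) 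
(.lf (nat_lit 219931) (.g (nat_lit 2638) (.e (nat_lit 90185) (nat_lit 17) (.e (nat_lit 237582) (nat_lit 1) (.e (nat_lit 164332) (nat_lit 230) (.e (nat_lit 163869) (nat_lit 2) (.e (nat_lit 196697) (nat_lit 19) (.e (nat_lit 57901) (nat_lit 277) (.e (nat_lit 131091) (nat_lit 2) .nil))))))) (.g (nat_lit 4) .nil .nil))) 
(.lf (nat_lit 219995) (.g (nat_lit 2845) (.e (nat_lit 90185) (nat_lit 17) (.e (nat_lit 237587) (nat_lit 2) (.e (nat_lit 196656) (nat_lit 11) (.e (nat_lit 16392) (nat_lit 0) (.e (nat_lit 2397) (nat_lit 157) (.e (nat_lit 3999) (nat_lit 241) (.e (nat_lit 57390) (nat_lit 5) (.e (nat_lit 114716) (nat_lit 22) .nil)))))))) (.g (nat_lit 4) .nil .nil)))) (.nd (nat_lit 6) 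
(.lf (nat_lit 219963) (.g (nat_lit 2130) (.e (nat_lit 90185) (nat_lit 17) (.e (nat_lit 237585) (nat_lit 1) (.e (nat_lit 164332) (nat_lit 230) (.e (nat_lit 163885) (nat_lit 5) (.e (nat_lit 221206) (nat_lit 21) (.e (nat_lit 164325) (nat_lit 230) (.e (nat_lit 171776) (nat_lit 66) (.e (nat_lit 114714) (nat_lit 22) .nil)))))))) (.g (nat_lit 4) .nil .nil))) 
(.lf (nat_lit 220027) (.g (nat_lit 2291) (.e (nat_lit 90185) (nat_lit 17) (.e (nat_lit 237590) (nat_lit 2) (.e (nat_lit 196656) (nat_lit 11) (.e (nat_lit 16388) (nat_lit 0) (.e (nat_lit 3215) (nat_lit 195) .nil))))) .nil)))))) (.nd (nat_lit 3) (.nd (nat_lit 4) (.nd (nat_lit 5) (.nd (nat_lit 6) 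
(.lf (nat_lit 219911) (.g (nat_lit 1834) (.e (nat_lit 90178) (nat_lit 15) (.e (nat_lit 188452) (nat_lit 23) (.e (nat_lit 204884) (nat_lit 33) (.e (nat_lit 401460) (nat_lit 14) .nil)))) .nil)) 
(.lf (nat_lit 219975) (.g (nat_lit 3209) (.e (nat_lit 90185) (nat_lit 17) (.e (nat_lit 237587) (nat_lit 2) (.e (nat_lit 196654) (nat_lit 11) (.e (nat_lit 16416) (nat_lit 3) (.e (nat_lit 204815) (nat_lit 17) (.e (nat_lit 996) (nat_lit 81) (.e (nat_lit 7695) (nat_lit 412) (.e (nat_lit 57375) (nat_lit 2) .nil)))))))) (.g (nat_lit 4) .nil .nil)))) (.nd (nat_lit 6) 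
(.lf (nat_lit 219943) (.g (nat_lit 1482) (.e (nat_lit 90185) (nat_lit 17) (.e (nat_lit 237584) (nat_lit 1) (.e (nat_lit 164325) (nat_lit 230) (.e (nat_lit 163884) (nat_lit 5) (.e (nat_lit 221185) (nat_lit 0) .nil))))) .nil)) 
(.lf (nat_lit 220007) (.g (nat_lit 2078) (.e (nat_lit 90185) (nat_lit 17) (.e (nat_lit 237590) (nat_lit 2) (.e (nat_lit 196654) (nat_lit 11) (.e (nat_lit 16412) (nat_lit 2) (.e (nat_lit 204544) (nat_lit 19) (.e (nat_lit 57610) (nat_lit 109) (.e (nat_lit 720939) (nat_lit 22) .nil))))))) (.g (nat_lit 4) .nil .nil))))) (.nd (nat_lit 5) (.nd (nat_lit 6) 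
(.lf (nat_lit 219927) (.g (nat_lit 2872) (.e (nat_lit 90185) (nat_lit 17) (.e (nat_lit 237582) (nat_lit 1) (.e (nat_lit 164327) (nat_lit 230) (.e (nat_lit 163868) (nat_lit 2) (.e (nat_lit 196691) (nat_lit 18) (.e (nat_lit 1349) (nat_lit 102) (.e (nat_lit 286748) (nat_lit 9) (.e (nat_lit 336006) (nat_lit 2) .nil)))))))) (.g (nat_lit 4) .nil .nil))) 
(.lf (nat_lit 219991) (.g (nat_lit 1758) (.e (nat_lit 90185) (nat_lit 17) (.e (nat_lit 237587) (nat_lit 2) (.e (nat_lit 196656) (nat_lit 11) (.e (nat_lit 16388) (nat_lit 0) .nil)))) .nil))) (.nd (nat_lit 6) 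
(.lf (nat_lit 219959) (.g (nat_lit 1887) (.e (nat_lit 90185) (nat_lit 17) (.e (nat_lit 237585) (nat_lit 1) (.e (nat_lit 164332) (nat_lit 230) (.e (nat_lit 163885) (nat_lit 5) (.e (nat_lit 221185) (nat_lit 0) (.e (nat_lit 2184) (nat_lit 144) (.e (nat_lit 720955) (nat_lit 25) (.e (nat_lit 114716) (nat_lit 22) .nil)))))))) (.g (nat_lit 4) .nil .nil))) 
(.lf (nat_lit 220023) (.g (nat_lit 765) (.e (nat_lit 90185) (nat_lit 17) (.e (nat_lit 237590) (nat_lit 2) (.e (nat_lit 196654) (nat_lit 11) (.e (nat_lit 24320) (nat_lit 17) .nil)))) .nil))))) (.nd (nat_lit 4) (.nd (nat_lit 5) (.nd (nat_lit 6) 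
(.lf (nat_lit 219919) (.g (nat_lit 1988) (.e (nat_lit 98048) (nat_lit 15) (.e (nat_lit 188449) (nat_lit 22) (.e (nat_lit 196630) (nat_lit 9) (.e (nat_lit 1401) (nat_lit 106) (.e (nat_lit 319531) (nat_lit 16) .nil))))) .nil)) 
(.lf (nat_lit 219983) (.g (nat_lit 4354) (.e (nat_lit 90185) (nat_lit 17) (.e (nat_lit 237587) (nat_lit 2) (.e (nat_lit 196654) (nat_lit 11) (.e (nat_lit 16416) (nat_lit 3) (.e (nat_lit 204829) (nat_lit 18) (.e (nat_lit 57688) (nat_lit 156) (.e (nat_lit 171776) (nat_lit 63) .nil))))))) (.g (nat_lit 5) .nil .nil)))) (.nd (nat_lit 6) 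
(.lf (nat_lit 219951) (.g (nat_lit 605) (.e (nat_lit 90185) (nat_lit 17) (.e (nat_lit 237585) (nat_lit 1) (.e (nat_lit 164329) (nat_lit 230) (.e (nat_lit 171776) (nat_lit 64) .nil)))) .nil)) 
(.lf (nat_lit 220015) (.g (nat_lit 2607) (.e (nat_lit 90185) (nat_lit 17) (.e (nat_lit 237590) (nat_lit 2) (.e (nat_lit 196654) (nat_lit 11) (.e (nat_lit 16416) (nat_lit 3) (.e (nat_lit 204822) (nat_lit 17) .nil))))) .nil)))) (.nd (nat_lit 5) (.nd (nat_lit 6) 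
(.lf (nat_lit 219935) (.g (nat_lit 2798) (.e (nat_lit 90185) (nat_lit 17) (.e (nat_lit 237582) (nat_lit 1) (.e (nat_lit 164332) (nat_lit 230) (.e (nat_lit 163869) (nat_lit 2) (.e (nat_lit 196699) (nat_lit 20) (.e (nat_lit 123216) (nat_lit 277) (.e (nat_lit 131091) (nat_lit 2) .nil))))))) (.g (nat_lit 4) .nil .nil))) 
(.lf (nat_lit 219999) (.g (nat_lit 1711) (.e (nat_lit 90185) (nat_lit 17) (.e (nat_lit 237587) (nat_lit 2) (.e (nat_lit 196656) (nat_lit 11) (.e (nat_lit 16477) (nat_lit 15) .nil)))) .nil))) (.nd (nat_lit 6) 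
(.lf (nat_lit 219967) (.g (nat_lit 1985) (.e (nat_lit 90185) (nat_lit 17) (.e (nat_lit 237587) (nat_lit 2) (.e (nat_lit 196624) (nat_lit 9) (.e (nat_lit 442) (nat_lit 33) (.e (nat_lit 442112) (nat_lit 21) .nil))))) .nil)) 
(.lf (nat_lit 220031) (.g (nat_lit 2370) (.e (nat_lit 90185) (nat_lit 17) (.e (nat_lit 237590) (nat_lit 2) (.e (nat_lit 196656) (nat_lit 11) (.e (nat_lit 16392) (nat_lit 0) (.e (nat_lit 2400) (nat_lit 157) .nil))))) .nil)))))))))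

noncomputable def tv2889 : DT := (.nd (nat_lit 0) (.nd (nat_lit 1) (.nd (nat_lit 2) (.nd (nat_lit 3) (.nd (nat_lit 4) (.nd (nat_lit 5) 
(.lf (nat_lit 220032) (.g (nat_lit 2079) (.e (nat_lit 90185) (nat_lit 17) (.e (nat_lit 237590) (nat_lit 2) (.e (nat_lit 196656) (nat_lit 11) (.e (nat_lit 16392) (nat_lit 0) (.e (nat_lit 7936) (nat_lit 195) .nil))))) .nil)) 
(.lf (nat_lit 220064) (.g (nat_lit 3193) (.e (nat_lit 90185) (nat_lit 17) (.e (nat_lit 237592) (nat_lit 3) (.e (nat_lit 204831) (nat_lit 18) (.e (nat_lit 57692) (nat_lit 156) (.e (nat_lit 163874) (nat_lit 3) (.e (nat_lit 204834) (nat_lit 19) (.e (nat_lit 106517) (nat_lit 9) (.e (nat_lit 1238) (nat_lit 91) .nil)))))))) (.g (nat_lit 5) .nil .nil)))) (.nd (nat_lit 5) 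
(.lf (nat_lit 220048) (.g (nat_lit 3180) (.e (nat_lit 90185) (nat_lit 17) (.e (nat_lit 237592) (nat_lit 3) (.e (nat_lit 204829) (nat_lit 18) (.e (nat_lit 57688) (nat_lit 156) (.e (nat_lit 163867) (nat_lit 2) (.e (nat_lit 196617) (nat_lit 9) (.e (nat_lit 1281) (nat_lit 94) (.e (nat_lit 114716) (nat_lit 22) .nil)))))))) (.g (nat_lit 5) .nil .nil))) 
(.lf (nat_lit 220080) (.g (nat_lit 1814) (.e (nat_lit 90185) (nat_lit 17) (.e (nat_lit 237594) (nat_lit 3) (.e (nat_lit 204829) (nat_lit 18) (.e (nat_lit 57692) (nat_lit 156) (.e (nat_lit 163869) (nat_lit 2) .nil))))) .nil)))) (.nd (nat_lit 4) (.nd (nat_lit 5) 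
(.lf (nat_lit 220040) (.g (nat_lit 3234) (.e (nat_lit 90185) (nat_lit 17) (.e (nat_lit 237592) (nat_lit 3) (.e (nat_lit 204809) (nat_lit 9) (.e (nat_lit 426139) (nat_lit 3) (.e (nat_lit 204829) (nat_lit 18) (.e (nat_lit 65280) (nat_lit 166) (.e (nat_lit 57375) (nat_lit 2) .nil))))))) (.g (nat_lit 5) .nil .nil))) 
(.lf (nat_lit 220072) (.g (nat_lit 1929) (.e (nat_lit 90185) (nat_lit 17) (.e (nat_lit 237594) (nat_lit 3) (.e (nat_lit 204813) (nat_lit 9) (.e (nat_lit 426139) (nat_lit 3) (.e (nat_lit 204830) (nat_lit 18) .nil))))) .nil))) (.nd (nat_lit 5) 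
(.lf (nat_lit 220056) (.g (nat_lit 3512) (.e (nat_lit 90185) (nat_lit 17) (.e (nat_lit 237592) (nat_lit 3) (.e (nat_lit 204829) (nat_lit 18) (.e (nat_lit 57692) (nat_lit 156) (.e (nat_lit 163874) (nat_lit 3) (.e (nat_lit 204837) (nat_lit 20) (.e (nat_lit 114716) (nat_lit 22) .nil))))))) (.g (nat_lit 6) .nil .nil))) 
(.lf (nat_lit 220088) (.g (nat_lit 4337) (.e (nat_lit 90185) (nat_lit 17) (.e (nat_lit 237594) (nat_lit 3) (.e (nat_lit 204830) (nat_lit 18) (.e (nat_lit 57691) (nat_lit 156) (.e (nat_lit 163875) (nat_lit 3) (.e (nat_lit 204838) (nat_lit 20) (.e (nat_lit 114716) (nat_lit 22) .nil))))))) (.g (nat_lit 7) .nil .nil)))))) (.nd (nat_lit 3) (.nd (nat_lit 4) (.nd (nat_lit 5) 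
(.lf (nat_lit 220036) (.g (nat_lit 1504) (.e (nat_lit 90185) (nat_lit 17) (.e (nat_lit 237590) (nat_lit 2) (.e (nat_lit 196656) (nat_lit 11) (.e (nat_lit 16416) (nat_lit 3) .nil)))) .nil)) 
(.lf (nat_lit 220068) (.g (nat_lit 4257) (.e (nat_lit 90185) (nat_lit 17) (.e (nat_lit 237594) (nat_lit 3) (.e (nat_lit 204809) (nat_lit 9) (.e (nat_lit 426139) (nat_lit 3) (.e (nat_lit 204829) (nat_lit 18) (.e (nat_lit 57692) (nat_lit 156) (.e (nat_lit 171776) (nat_lit 63) .nil))))))) (.g (nat_lit 6) .nil .nil)))) (.nd (nat_lit 5) 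
(.lf (nat_lit 220052) (.g (nat_lit 1873) (.e (nat_lit 90185) (nat_lit 17) (.e (nat_lit 237592) (nat_lit 3) (.e (nat_lit 204829) (nat_lit 18) (.e (nat_lit 57688) (nat_lit 156) (.e (nat_lit 163875) (nat_lit 3) .nil))))) .nil)) 
(.lf (nat_lit 220084) (.g (nat_lit 3138) (.e (nat_lit 90185) (nat_lit 17) (.e (nat_lit 237594) (nat_lit 3) (.e (nat_lit 204829) (nat_lit 18) (.e (nat_lit 57692) (nat_lit 156) (.e (nat_lit 163875) (nat_lit 3) (.e (nat_lit 204836) (nat_lit 20) (.e (nat_lit 114716) (nat_lit 22) .nil))))))) (.g (nat_lit 5) .nil .nil))))) (.nd (nat_lit 4) (.nd (nat_lit 5) 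
(.lf (nat_lit 220044) (.g (nat_lit 2150) (.e (nat_lit 90185) (nat_lit 17) (.e (nat_lit 237592) (nat_lit 3) (.e (nat_lit 204813) (nat_lit 9) (.e (nat_lit 426139) (nat_lit 3) (.e (nat_lit 204830) (nat_lit 18) (.e (nat_lit 57692) (nat_lit 156) (.e (nat_lit 171776) (nat_lit 63) .nil))))))) (.g (nat_lit 4) .nil .nil))) 
(.lf (nat_lit 220076) (.g (nat_lit 3043) (.e (nat_lit 90185) (nat_lit 17) (.e (nat_lit 237594) (nat_lit 3) (.e (nat_lit 204829) (nat_lit 18) (.e (nat_lit 57688) (nat_lit 156) (.e (nat_lit 163867) (nat_lit 2) (.e (nat_lit 196635) (nat_lit 9) (.e (nat_lit 1281) (nat_lit 94) (.e (nat_lit 114716) (nat_lit 22) .nil)))))))) (.g (nat_lit 5) .nil .nil)))) (.nd (nat_lit 5) 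
(.lf (nat_lit 220060) (.g (nat_lit 3253) (.e (nat_lit 90185) (nat_lit 17) (.e (nat_lit 237592) (nat_lit 3) (.e (nat_lit 204830) (nat_lit 18) (.e (nat_lit 57691) (nat_lit 156) (.e (nat_lit 163874) (nat_lit 3) (.e (nat_lit 204837) (nat_lit 20) (.e (nat_lit 114716) (nat_lit 22) .nil))))))) (.g (nat_lit 6) .nil .nil))) 
(.lf (nat_lit 220092) (.g (nat_lit 3209) (.e (nat_lit 90185) (nat_lit 17) (.e (nat_lit 237594) (nat_lit 3) (.e (nat_lit 204831) (nat_lit 18) (.e (nat_lit 57692) (nat_lit 156) (.e (nat_lit 163874) (nat_lit 3) (.e (nat_lit 204838) (nat_lit 20) (.e (nat_lit 114716) (nat_lit 22) .nil))))))) (.g (nat_lit 5) .nil .nil))))))) (.nd (nat_lit 2) (.nd (nat_lit 3) (.nd (nat_lit 4) (.nd (nat_lit 5) 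
(.lf (nat_lit 220034) (.g (nat_lit 2573) (.e (nat_lit 90185) (nat_lit 17) (.e (nat_lit 237590) (nat_lit 2) (.e (nat_lit 196656) (nat_lit 11) (.e (nat_lit 16412) (nat_lit 2) (.e (nat_lit 196677) (nat_lit 16) .nil))))) .nil)) 
(.lf (nat_lit 220066) (.g (nat_lit 2396) (.e (nat_lit 90185) (nat_lit 17) (.e (nat_lit 237594) (nat_lit 3) (.e (nat_lit 204809) (nat_lit 9) (.e (nat_lit 426139) (nat_lit 3) (.e (nat_lit 204815) (nat_lit 17) (.e (nat_lit 996) (nat_lit 81) (.e (nat_lit 7695) (nat_lit 412) (.e (nat_lit 57375) (nat_lit 2) .nil)))))))) (.g (nat_lit 4) .nil .nil)))) (.nd (nat_lit 5) 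
(.lf (nat_lit 220050) (.g (nat_lit 3268) (.e (nat_lit 90185) (nat_lit 17) (.e (nat_lit 237592) (nat_lit 3) (.e (nat_lit 204829) (nat_lit 18) (.e (nat_lit 57688) (nat_lit 156) (.e (nat_lit 163874) (nat_lit 3) (.e (nat_lit 204836) (nat_lit 20) (.e (nat_lit 114716) (nat_lit 22) .nil))))))) (.g (nat_lit 5) .nil .nil))) 
(.lf (nat_lit 220082) (.g (nat_lit 2296) (.e (nat_lit 90185) (nat_lit 17) (.e (nat_lit 237594) (nat_lit 3) (.e (nat_lit 204829) (nat_lit 18) (.e (nat_lit 57692) (nat_lit 156) (.e (nat_lit 163869) (nat_lit 2) (.e (nat_lit 196634) (nat_lit 9) (.e (nat_lit 1281) (nat_lit 94) (.e (nat_lit 114716) (nat_lit 22) .nil)))))))) (.g (nat_lit 4) .nil .nil))))) (.nd (nat_lit 4) (.nd (nat_lit 5) 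
(.lf (nat_lit 220042) (.g (nat_lit 3093) (.e (nat_lit 90185) (nat_lit 17) (.e (nat_lit 237592) (nat_lit 3) (.e (nat_lit 204809) (nat_lit 9) (.e (nat_lit 426139) (nat_lit 3) (.e (nat_lit 204830) (nat_lit 18) (.e (nat_lit 65280) (nat_lit 166) (.e (nat_lit 57375) (nat_lit 2) .nil))))))) (.g (nat_lit 5) .nil .nil))) 
(.lf (nat_lit 220074) (.g (nat_lit 1916) (.e (nat_lit 90185) (nat_lit 17) (.e (nat_lit 237594) (nat_lit 3) (.e (nat_lit 204829) (nat_lit 18) (.e (nat_lit 57688) (nat_lit 156) (.e (nat_lit 163867) (nat_lit 2) .nil))))) .nil))) (.nd (nat_lit 5) 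
(.lf (nat_lit 220058) (.g (nat_lit 3431) (.e (nat_lit 90185) (nat_lit 17) (.e (nat_lit 237592) (nat_lit 3) (.e (nat_lit 204829) (nat_lit 18) (.e (nat_lit 57692) (nat_lit 156) (.e (nat_lit 163875) (nat_lit 3) (.e (nat_lit 204837) (nat_lit 20) (.e (nat_lit 114716) (nat_lit 22) .nil))))))) (.g (nat_lit 6) .nil .nil))) 
(.lf (nat_lit 220090) (.g (nat_lit 2869) (.e (nat_lit 90185) (nat_lit 17) (.e (nat_lit 237594) (nat_lit 3) (.e (nat_lit 204830) (nat_lit 18) (.e (nat_lit 57692) (nat_lit 156) (.e (nat_lit 163869) (nat_lit 2) (.e (nat_lit 196624) (nat_lit 9) (.e (nat_lit 1277) (nat_lit 94) (.e (nat_lit 114716) (nat_lit 22) .nil)))))))) (.g (nat_lit 5) .nil .nil)))))) 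
(.nd (nat_lit 3) (.nd (nat_lit 4) (.nd (nat_lit 5) 
(.lf (nat_lit 220038) (.g (nat_lit 1130) (.e (nat_lit 90185) (nat_lit 17) (.e (nat_lit 237590) (nat_lit 2) (.e (nat_lit 196656) (nat_lit 11) (.e (nat_lit 24320) (nat_lit 17) .nil)))) .nil)) 
(.lf (nat_lit 220070) (.g (nat_lit 3881) (.e (nat_lit 90185) (nat_lit 17) (.e (nat_lit 237594) (nat_lit 3) (.e (nat_lit 204809) (nat_lit 9) (.e (nat_lit 426139) (nat_lit 3) (.e (nat_lit 204830) (nat_lit 18) (.e (nat_lit 57692) (nat_lit 156) (.e (nat_lit 171776) (nat_lit 63) .nil))))))) (.g (nat_lit 6) .nil .nil)))) (.nd (nat_lit 5) 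
(.lf (nat_lit 220054) (.g (nat_lit 3629) (.e (nat_lit 90185) (nat_lit 17) (.e (nat_lit 237592) (nat_lit 3) (.e (nat_lit 204829) (nat_lit 18) (.e (nat_lit 57691) (nat_lit 156) (.e (nat_lit 163875) (nat_lit 3) (.e (nat_lit 204837) (nat_lit 20) (.e (nat_lit 114716) (nat_lit 22) .nil))))))) (.g (nat_lit 6) .nil .nil))) 
(.lf (nat_lit 220086) (.g (nat_lit 2722) (.e (nat_lit 90185) (nat_lit 17) (.e (nat_lit 237594) (nat_lit 3) (.e (nat_lit 204830) (nat_lit 18) (.e (nat_lit 57691) (nat_lit 156) (.e (nat_lit 163874) (nat_lit 3) (.e (nat_lit 204836) (nat_lit 20) (.e (nat_lit 114716) (nat_lit 22) .nil))))))) (.g (nat_lit 5) .nil .nil))))) (.nd (nat_lit 4) (.nd (nat_lit 5) 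
(.lf (nat_lit 220046) (.g (nat_lit 1752) (.e (nat_lit 90185) (nat_lit 17) (.e (nat_lit 237592) (nat_lit 3) (.e (nat_lit 204829) (nat_lit 18) (.e (nat_lit 57688) (nat_lit 156) (.e (nat_lit 163867) (nat_lit 2) .nil))))) .nil)) 
(.lf (nat_lit 220078) (.g (nat_lit 3268) (.e (nat_lit 90185) (nat_lit 17) (.e (nat_lit 237594) (nat_lit 3) (.e (nat_lit 204829) (nat_lit 18) (.e (nat_lit 57688) (nat_lit 156) (.e (nat_lit 163875) (nat_lit 3) (.e (nat_lit 204837) (nat_lit 20) (.e (nat_lit 114716) (nat_lit 22) .nil))))))) (.g (nat_lit 5) .nil .nil)))) (.nd (nat_lit 5) 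
(.lf (nat_lit 220062) (.g (nat_lit 1956) (.e (nat_lit 90185) (nat_lit 17) (.e (nat_lit 237592) (nat_lit 3) (.e (nat_lit 204831) (nat_lit 18) (.e (nat_lit 57688) (nat_lit 156) (.e (nat_lit 163867) (nat_lit 2) .nil))))) .nil)) 
(.lf (nat_lit 220094) (.g (nat_lit 2399) (.e (nat_lit 90185) (nat_lit 17) (.e (nat_lit 237600) (nat_lit 9) (.e (nat_lit 426125) (nat_lit 2) (.e (nat_lit 196661) (nat_lit 12) (.e (nat_lit 57712) (nat_lit 176) .nil))))) .nil))))))) (.nd (nat_lit 1) (.nd (nat_lit 2) (.nd (nat_lit 3) (.nd (nat_lit 4) (.nd (nat_lit 5) 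
(.lf (nat_lit 220033) (.g (nat_lit 1489) (.e (nat_lit 90185) (nat_lit 17) (.e (nat_lit 237590) (nat_lit 2) (.e (nat_lit 196656) (nat_lit 11) (.e (nat_lit 16412) (nat_lit 2) .nil)))) .nil)) 
(.lf (nat_lit 220065) (.g (nat_lit 1878) (.e (nat_lit 90185) (nat_lit 17) (.e (nat_lit 237592) (nat_lit 3) (.e (nat_lit 204831) (nat_lit 18) (.e (nat_lit 57692) (nat_lit 156) (.e (nat_lit 163875) (nat_lit 3) .nil))))) .nil))) (.nd (nat_lit 5) 
(.lf (nat_lit 220049) (.g (nat_lit 2983) (.e (nat_lit 90185) (nat_lit 17) (.e (nat_lit 237592) (nat_lit 3) (.e (nat_lit 204829) (nat_lit 18) (.e (nat_lit 57688) (nat_lit 156) (.e (nat_lit 163873) (nat_lit 3) (.e (nat_lit 204834) (nat_lit 19) (.e (nat_lit 106517) (nat_lit 9) (.e (nat_lit 1238) (nat_lit 91) .nil)))))))) (.g (nat_lit 5) .nil .nil))) 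
(.lf (nat_lit 220081) (.g (nat_lit 3151) (.e (nat_lit 90185) (nat_lit 17) (.e (nat_lit 237594) (nat_lit 3) (.e (nat_lit 204829) (nat_lit 18) (.e (nat_lit 57692) (nat_lit 156) (.e (nat_lit 163869) (nat_lit 2) (.e (nat_lit 196624) (nat_lit 9) (.e (nat_lit 1277) (nat_lit 94) (.e (nat_lit 114716) (nat_lit 22) .nil)))))))) (.g (nat_lit 5) .nil .nil))))) (.nd (nat_lit 4) (.nd (nat_lit 5) 
(.lf (nat_lit 220041) (.g (nat_lit 3203) (.e (nat_lit 90185) (nat_lit 17) (.e (nat_lit 237592) (nat_lit 3) (.e (nat_lit 204809) (nat_lit 9) (.e (nat_lit 426139) (nat_lit 3) (.e (nat_lit 204830) (nat_lit 18) (.e (nat_lit 57692) (nat_lit 156) (.e (nat_lit 171776) (nat_lit 63) .nil))))))) (.g (nat_lit 5) .nil .nil))) 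
(.lf (nat_lit 220073) (.g (nat_lit 2877) (.e (nat_lit 90185) (nat_lit 17) (.e (nat_lit 237594) (nat_lit 3) (.e (nat_lit 204829) (nat_lit 18) (.e (nat_lit 57686) (nat_lit 156) (.e (nat_lit 163875) (nat_lit 3) (.e (nat_lit 204836) (nat_lit 20) (.e (nat_lit 114716) (nat_lit 22) .nil))))))) (.g (nat_lit 5) .nil .nil)))) (.nd (nat_lit 5) 
(.lf (nat_lit 220057) (.g (nat_lit 2858) (.e (nat_lit 90185) (nat_lit 17) (.e (nat_lit 237592) (nat_lit 3) (.e (nat_lit 204829) (nat_lit 18) (.e (nat_lit 57692) (nat_lit 156) (.e (nat_lit 163875) (nat_lit 3) (.e (nat_lit 204836) (nat_lit 20) (.e (nat_lit 114716) (nat_lit 22) .nil))))))) (.g (nat_lit 5) .nil .nil))) 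
(.lf (nat_lit 220089) (.g (nat_lit 1581) (.e (nat_lit 90185) (nat_lit 17) (.e (nat_lit 237594) (nat_lit 3) (.e (nat_lit 204830) (nat_lit 18) (.e (nat_lit 57692) (nat_lit 156) (.e (nat_lit 163869) (nat_lit 2) .nil))))) .nil))))) (.nd (nat_lit 3) (.nd (nat_lit 4) (.nd (nat_lit 5) 
(.lf (nat_lit 220037) (.g (nat_lit 2721) (.e (nat_lit 90185) (nat_lit 17) (.e (nat_lit 237590) (nat_lit 2) (.e (nat_lit 196656) (nat_lit 11) (.e (nat_lit 16416) (nat_lit 3) (.e (nat_lit 204830) (nat_lit 18) .nil))))) .nil)) 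
(.lf (nat_lit 220069) (.g (nat_lit 3889) (.e (nat_lit 90185) (nat_lit 17) (.e (nat_lit 237594) (nat_lit 3) (.e (nat_lit 204809) (nat_lit 9) (.e (nat_lit 426139) (nat_lit 3) (.e (nat_lit 204829) (nat_lit 18) (.e (nat_lit 65280) (nat_lit 166) (.e (nat_lit 57375) (nat_lit 2) .nil))))))) (.g (nat_lit 5) .nil .nil)))) (.nd (nat_lit 5) 
(.lf (nat_lit 220053) (.g (nat_lit 3777) (.e (nat_lit 90185) (nat_lit 17) (.e (nat_lit 237592) (nat_lit 3) (.e (nat_lit 204829) (nat_lit 18) (.e (nat_lit 57688) (nat_lit 156) (.e (nat_lit 163875) (nat_lit 3) (.e (nat_lit 204838) (nat_lit 20) (.e (nat_lit 114716) (nat_lit 22) .nil))))))) (.g (nat_lit 6) .nil .nil))) 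
(.lf (nat_lit 220085) (.g (nat_lit 3693) (.e (nat_lit 90185) (nat_lit 17) (.e (nat_lit 237594) (nat_lit 3) (.e (nat_lit 204829) (nat_lit 18) (.e (nat_lit 57692) (nat_lit 156) (.e (nat_lit 163875) (nat_lit 3) (.e (nat_lit 204837) (nat_lit 20) (.e (nat_lit 114716) (nat_lit 22) .nil))))))) (.g (nat_lit 6) .nil .nil))))) (.nd (nat_lit 4) (.nd (nat_lit 5) 
(.lf (nat_lit 220045) (.g (nat_lit 3418) (.e (nat_lit 90185) (nat_lit 17) (.e (nat_lit 237592) (nat_lit 3) (.e (nat_lit 204829) (nat_lit 18) (.e (nat_lit 57686) (nat_lit 156) (.e (nat_lit 163875) (nat_lit 3) (.e (nat_lit 204837) (nat_lit 20) (.e (nat_lit 114716) (nat_lit 22) .nil))))))) (.g (nat_lit 6) .nil .nil))) 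
(.lf (nat_lit 220077) (.g (nat_lit 3323) (.e (nat_lit 90185) (nat_lit 17) (.e (nat_lit 237594) (nat_lit 3) (.e (nat_lit 204829) (nat_lit 18) (.e (nat_lit 57688) (nat_lit 156) (.e (nat_lit 163873) (nat_lit 3) (.e (nat_lit 204837) (nat_lit 20) (.e (nat_lit 114716) (nat_lit 22) .nil))))))) (.g (nat_lit 5) .nil .nil)))) (.nd (nat_lit 5) 
(.lf (nat_lit 220061) (.g (nat_lit 1276) (.e (nat_lit 90185) (nat_lit 17) (.e (nat_lit 237592) (nat_lit 3) (.e (nat_lit 204830) (nat_lit 18) (.e (nat_lit 57692) (nat_lit 156) (.e (nat_lit 163869) (nat_lit 2) .nil))))) .nil)) 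
(.lf (nat_lit 220093) (.g (nat_lit 1217) (.e (nat_lit 90185) (nat_lit 17) (.e (nat_lit 237594) (nat_lit 3) (.e (nat_lit 204838) (nat_lit 20) (.e (nat_lit 114719) (nat_lit 23) .nil)))) .nil)))))) (.nd (nat_lit 2) (.nd (nat_lit 3) (.nd (nat_lit 4) (.nd (nat_lit 5) 
(.lf (nat_lit 220035) (.g (nat_lit 2433) (.e (nat_lit 90185) (nat_lit 17) (.e (nat_lit 237590) (nat_lit 2) (.e (nat_lit 196656) (nat_lit 11) (.e (nat_lit 16412) (nat_lit 2) (.e (nat_lit 204544) (nat_lit 19) .nil))))) .nil)) 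
(.lf (nat_lit 220067) (.g (nat_lit 2010) (.e (nat_lit 90185) (nat_lit 17) (.e (nat_lit 237594) (nat_lit 3) (.e (nat_lit 204809) (nat_lit 9) (.e (nat_lit 426139) (nat_lit 3) (.e (nat_lit 204822) (nat_lit 17) .nil))))) .nil))) (.nd (nat_lit 5) 
(.lf (nat_lit 220051) (.g (nat_lit 3827) (.e (nat_lit 90185) (nat_lit 17) (.e (nat_lit 237592) (nat_lit 3) (.e (nat_lit 204829) (nat_lit 18) (.e (nat_lit 57688) (nat_lit 156) (.e (nat_lit 163874) (nat_lit 3) (.e (nat_lit 204837) (nat_lit 20) (.e (nat_lit 114716) (nat_lit 22) .nil))))))) (.g (nat_lit 6) .nil .nil))) 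
(.lf (nat_lit 220083) (.g (nat_lit 3774) (.e (nat_lit 90185) (nat_lit 17) (.e (nat_lit 237594) (nat_lit 3) (.e (nat_lit 204829) (nat_lit 18) (.e (nat_lit 57692) (nat_lit 156) (.e (nat_lit 163874) (nat_lit 3) (.e (nat_lit 204837) (nat_lit 20) (.e (nat_lit 114716) (nat_lit 22) .nil))))))) (.g (nat_lit 6) .nil .nil))))) (.nd (nat_lit 4) (.nd (nat_lit 5) 
(.lf (nat_lit 220043) (.g (nat_lit 2428) (.e (nat_lit 90185) (nat_lit 17) (.e (nat_lit 237592) (nat_lit 3) (.e (nat_lit 204813) (nat_lit 9) (.e (nat_lit 426011) (nat_lit 0) (.e (nat_lit 3211) (nat_lit 195) (.e (nat_lit 516106) (nat_lit 0) (.e (nat_lit 7936) (nat_lit 220) (.e (nat_lit 720941) (nat_lit 22) .nil)))))))) (.g (nat_lit 4) .nil .nil))) 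
(.lf (nat_lit 220075) (.g (nat_lit 3043) (.e (nat_lit 90185) (nat_lit 17) (.e (nat_lit 237594) (nat_lit 3) (.e (nat_lit 204829) (nat_lit 18) (.e (nat_lit 57688) (nat_lit 156) (.e (nat_lit 163867) (nat_lit 2) (.e (nat_lit 196617) (nat_lit 9) (.e (nat_lit 1281) (nat_lit 94) (.e (nat_lit 114716) (nat_lit 22) .nil)))))))) (.g (nat_lit 5) .nil .nil)))) (.nd (nat_lit 5) 
(.lf (nat_lit 220059) (.g (nat_lit 2503) (.e (nat_lit 90185) (nat_lit 17) (.e (nat_lit 237592) (nat_lit 3) (.e (nat_lit 204830) (nat_lit 18) (.e (nat_lit 57691) (nat_lit 156) (.e (nat_lit 163874) (nat_lit 3) (.e (nat_lit 204836) (nat_lit 20) (.e (nat_lit 114716) (nat_lit 22) .nil))))))) (.g (nat_lit 5) .nil .nil))) 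
(.lf (nat_lit 220091) (.g (nat_lit 2093) (.e (nat_lit 90185) (nat_lit 17) (.e (nat_lit 237594) (nat_lit 3) (.e (nat_lit 204831) (nat_lit 18) (.e (nat_lit 57691) (nat_lit 156) (.e (nat_lit 163875) (nat_lit 3) .nil))))) .nil))))) (.nd (nat_lit 3) (.nd (nat_lit 4) (.nd (nat_lit 5) 
(.lf (nat_lit 220039) (.g (nat_lit 3574) (.e (nat_lit 90185) (nat_lit 17) (.e (nat_lit 237592) (nat_lit 3) (.e (nat_lit 204809) (nat_lit 9) (.e (nat_lit 426139) (nat_lit 3) (.e (nat_lit 204829) (nat_lit 18) (.e (nat_lit 57692) (nat_lit 156) (.e (nat_lit 171776) (nat_lit 63) .nil))))))) (.g (nat_lit 5) .nil .nil))) 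
(.lf (nat_lit 220071) (.g (nat_lit 3743) (.e (nat_lit 90185) (nat_lit 17) (.e (nat_lit 237594) (nat_lit 3) (.e (nat_lit 204809) (nat_lit 9) (.e (nat_lit 426139) (nat_lit 3) (.e (nat_lit 204830) (nat_lit 18) (.e (nat_lit 65280) (nat_lit 166) (.e (nat_lit 57375) (nat_lit 2) .nil))))))) (.g (nat_lit 5) .nil .nil)))) (.nd (nat_lit 5) 
(.lf (nat_lit 220055) (.g (nat_lit 1574) (.e (nat_lit 90185) (nat_lit 17) (.e (nat_lit 237592) (nat_lit 3) (.e (nat_lit 204829) (nat_lit 18) (.e (nat_lit 57692) (nat_lit 156) (.e (nat_lit 163869) (nat_lit 2) .nil))))) .nil)) 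
(.lf (nat_lit 220087) (.g (nat_lit 3454) (.e (nat_lit 90185) (nat_lit 17) (.e (nat_lit 237594) (nat_lit 3) (.e (nat_lit 204830) (nat_lit 18) (.e (nat_lit 57691) (nat_lit 156) (.e (nat_lit 163874) (nat_lit 3) (.e (nat_lit 204837) (nat_lit 20) (.e (nat_lit 114716) (nat_lit 22) .nil))))))) (.g (nat_lit 6) .nil .nil))))) (.nd (nat_lit 4) (.nd (nat_lit 5) 
(.lf (nat_lit 220047) (.g (nat_lit 2943) (.e (nat_lit 90185) (nat_lit 17) (.e (nat_lit 237592) (nat_lit 3) (.e (nat_lit 204829) (nat_lit 18) (.e (nat_lit 57688) (nat_lit 156) (.e (nat_lit 163867) (nat_lit 2) (.e (nat_lit 196617) (nat_lit 9) (.e (nat_lit 1280) (nat_lit 94) (.e (nat_lit 114716) (nat_lit 22) .nil)))))))) (.g (nat_lit 5) .nil .nil))) 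
(.lf (nat_lit 220079) (.g (nat_lit 3762) (.e (nat_lit 90185) (nat_lit 17) (.e (nat_lit 237594) (nat_lit 3) (.e (nat_lit 204829) (nat_lit 18) (.e (nat_lit 57691) (nat_lit 156) (.e (nat_lit 163875) (nat_lit 3) (.e (nat_lit 204837) (nat_lit 20) (.e (nat_lit 114716) (nat_lit 22) .nil))))))) (.g (nat_lit 6) .nil .nil)))) (.nd (nat_lit 5) 
(.lf (nat_lit 220063) (.g (nat_lit 3101) (.e (nat_lit 90185) (nat_lit 17) (.e (nat_lit 237592) (nat_lit 3) (.e (nat_lit 204831) (nat_lit 18) (.e (nat_lit 57688) (nat_lit 156) (.e (nat_lit 163873) (nat_lit 3) (.e (nat_lit 204838) (nat_lit 20) (.e (nat_lit 114716) (nat_lit 22) .nil))))))) (.g (nat_lit 5) .nil .nil))) 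
(.lf (nat_lit 220095) (.g (nat_lit 1445) (.e (nat_lit 90185) (nat_lit 17) (.e (nat_lit 237600) (nat_lit 9) (.e (nat_lit 426125) (nat_lit 2) (.e (nat_lit 196686) (nat_lit 18) .nil)))) .nil))))))))

noncomputable def tv2890 : DT := (.nd (nat_lit 0) (.nd (nat_lit 1) (.nd (nat_lit 2) (.nd (nat_lit 3) (.nd (nat_lit 4) (.nd (nat_lit 5) 
(.lf (nat_lit 220096) (.g (nat_lit 2504) (.e (nat_lit 90185) (nat_lit 17) (.e (nat_lit 237600) (nat_lit 9) (.e (nat_lit 426436) (nat_lit 18) (.e (nat_lit 98342) (nat_lit 20) (.e (nat_lit 221194) (nat_lit 11) (.e (nat_lit 336002) (nat_lit 2) .nil)))))) (.g (nat_lit 4) .nil .nil))) 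
(.lf (nat_lit 220128) (.g (nat_lit 1288) (.e (nat_lit 90185) (nat_lit 17) (.e (nat_lit 237601) (nat_lit 9) (.e (nat_lit 426437) (nat_lit 18) (.e (nat_lit 98342) (nat_lit 20) (.e (nat_lit 221193) (nat_lit 11) (.e (nat_lit 336009) (nat_lit 2) .nil)))))) (.g (nat_lit 4) .nil .nil)))) (.nd (nat_lit 5) 
(.lf (nat_lit 220112) (.g (nat_lit 1965) (.e (nat_lit 90185) (nat_lit 17) (.e (nat_lit 237601) (nat_lit 9) (.e (nat_lit 426436) (nat_lit 18) (.e (nat_lit 98339) (nat_lit 19) (.e (nat_lit 213031) (nat_lit 11) (.e (nat_lit 24604) (nat_lit 2) .nil)))))) (.g (nat_lit 4) .nil .nil))) 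
(.lf (nat_lit 220144) (.g (nat_lit 1935) (.e (nat_lit 90185) (nat_lit 17) (.e (nat_lit 237601) (nat_lit 9) (.e (nat_lit 426566) (nat_lit 34) (.e (nat_lit 393234) (nat_lit 17) (.e (nat_lit 2524) (nat_lit 157) .nil))))) .nil)))) (.nd (nat_lit 4) (.nd (nat_lit 5) 
(.lf (nat_lit 220104) (.g (nat_lit 3625) (.e (nat_lit 90185) (nat_lit 17) (.e (nat_lit 237601) (nat_lit 9) (.e (nat_lit 426402) (nat_lit 15) (.e (nat_lit 1848) (nat_lit 124) (.e (nat_lit 557097) (nat_lit 13) (.e (nat_lit 172126) (nat_lit 14) (.e (nat_lit 491537) (nat_lit 2) .nil))))))) (.g (nat_lit 7) .nil .nil))) 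
(.lf (nat_lit 220136) (.g (nat_lit 1813) (.e (nat_lit 90185) (nat_lit 17) (.e (nat_lit 237601) (nat_lit 9) (.e (nat_lit 426438) (nat_lit 18) (.e (nat_lit 98342) (nat_lit 20) (.e (nat_lit 221193) (nat_lit 11) (.e (nat_lit 336010) (nat_lit 2) .nil)))))) (.g (nat_lit 5) .nil .nil)))) (.nd (nat_lit 5) 
(.lf (nat_lit 220120) (.g (nat_lit 3224) (.e (nat_lit 90185) (nat_lit 17) (.e (nat_lit 237601) (nat_lit 9) (.e (nat_lit 426436) (nat_lit 18) (.e (nat_lit 98342) (nat_lit 20) (.e (nat_lit 221193) (nat_lit 11) (.e (nat_lit 336011) (nat_lit 2) .nil)))))) (.g (nat_lit 6) .nil .nil))) 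
(.lf (nat_lit 220152) (.g (nat_lit 1994) (.e (nat_lit 90185) (nat_lit 17) (.e (nat_lit 237601) (nat_lit 9) (.e (nat_lit 426568) (nat_lit 34) (.e (nat_lit 393238) (nat_lit 17) (.e (nat_lit 2514) (nat_lit 157) (.e (nat_lit 5949) (nat_lit 322) (.e (nat_lit 57373) (nat_lit 2) .nil))))))) (.g (nat_lit 4) .nil .nil)))))) (.nd (nat_lit 3) (.nd (nat_lit 4) (.nd (nat_lit 5) 
(.lf (nat_lit 220100) (.g (nat_lit 2239) (.e (nat_lit 90185) (nat_lit 17) (.e (nat_lit 237601) (nat_lit 9) (.e (nat_lit 426131) (nat_lit 3) (.e (nat_lit 204846) (nat_lit 24) (.e (nat_lit 319511) (nat_lit 10) (.e (nat_lit 5293) (nat_lit 298) (.e (nat_lit 1232) (nat_lit 91) .nil))))))) (.g (nat_lit 4) .nil .nil))) 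
(.lf (nat_lit 220132) (.g (nat_lit 1596) (.e (nat_lit 90185) (nat_lit 17) (.e (nat_lit 237601) (nat_lit 9) (.e (nat_lit 426438) (nat_lit 18) (.e (nat_lit 98341) (nat_lit 20) (.e (nat_lit 221193) (nat_lit 11) (.e (nat_lit 336009) (nat_lit 2) .nil)))))) (.g (nat_lit 4) .nil .nil)))) (.nd (nat_lit 5) 
(.lf (nat_lit 220116) (.g (nat_lit 1433) (.e (nat_lit 90185) (nat_lit 17) (.e (nat_lit 237601) (nat_lit 9) (.e (nat_lit 426436) (nat_lit 18) (.e (nat_lit 98341) (nat_lit 20) (.e (nat_lit 229120) (nat_lit 11) (.e (nat_lit 336003) (nat_lit 2) .nil)))))) (.g (nat_lit 4) .nil .nil))) 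
(.lf (nat_lit 220148) (.g (nat_lit 3616) (.e (nat_lit 90185) (nat_lit 17) (.e (nat_lit 237601) (nat_lit 9) (.e (nat_lit 426566) (nat_lit 34) (.e (nat_lit 393251) (nat_lit 18) (.e (nat_lit 164398) (nat_lit 256) (.e (nat_lit 57372) (nat_lit 2) .nil)))))) (.g (nat_lit 0) .nil .nil))))) (.nd (nat_lit 4) (.nd (nat_lit 5) 
(.lf (nat_lit 220108) (.g (nat_lit 1490) (.e (nat_lit 90185) (nat_lit 17) (.e (nat_lit 237601) (nat_lit 9) (.e (nat_lit 426428) (nat_lit 17) (.e (nat_lit 90165) (nat_lit 12) (.e (nat_lit 164049) (nat_lit 55) (.e (nat_lit 778464) (nat_lit 11) (.e (nat_lit 24603) (nat_lit 2) .nil))))))) (.g (nat_lit 4) .nil .nil))) 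
(.lf (nat_lit 220140) (.g (nat_lit 1105) (.e (nat_lit 90185) (nat_lit 17) (.e (nat_lit 237601) (nat_lit 9) (.e (nat_lit 426566) (nat_lit 34) (.e (nat_lit 393231) (nat_lit 17) (.e (nat_lit 2524) (nat_lit 157) .nil))))) .nil))) (.nd (nat_lit 5) 
(.lf (nat_lit 220124) (.g (nat_lit 1538) (.e (nat_lit 90185) (nat_lit 17) (.e (nat_lit 237601) (nat_lit 9) (.e (nat_lit 426436) (nat_lit 18) (.e (nat_lit 98342) (nat_lit 20) (.e (nat_lit 229120) (nat_lit 11) (.e (nat_lit 336003) (nat_lit 2) .nil)))))) (.g (nat_lit 4) .nil .nil))) 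
(.lf (nat_lit 220156) (.g (nat_lit 2546) (.e (nat_lit 90185) (nat_lit 17) (.e (nat_lit 237603) (nat_lit 9) (.e (nat_lit 426436) (nat_lit 18) (.e (nat_lit 98341) (nat_lit 20) (.e (nat_lit 221193) (nat_lit 11) (.e (nat_lit 336002) (nat_lit 2) .nil)))))) (.g (nat_lit 5) .nil .nil))))))) (.nd (nat_lit 2) (.nd (nat_lit 3) (.nd (nat_lit 4) (.nd (nat_lit 5) 
(.lf (nat_lit 220098) (.g (nat_lit 3093) (.e (nat_lit 90185) (nat_lit 17) (.e (nat_lit 237601) (nat_lit 9) (.e (nat_lit 426131) (nat_lit 3) (.e (nat_lit 204846) (nat_lit 24) (.e (nat_lit 319504) (nat_lit 10) (.e (nat_lit 7936) (nat_lit 298) (.e (nat_lit 1226) (nat_lit 91) .nil))))))) (.g (nat_lit 5) .nil .nil))) 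
(.lf (nat_lit 220130) (.g (nat_lit 1821) (.e (nat_lit 90185) (nat_lit 17) (.e (nat_lit 237601) (nat_lit 9) (.e (nat_lit 426438) (nat_lit 18) (.e (nat_lit 98337) (nat_lit 19) (.e (nat_lit 213032) (nat_lit 11) (.e (nat_lit 24603) (nat_lit 2) .nil)))))) (.g (nat_lit 6) .nil .nil)))) (.nd (nat_lit 5) 
(.lf (nat_lit 220114) (.g (nat_lit 3446) (.e (nat_lit 90185) (nat_lit 17) (.e (nat_lit 237601) (nat_lit 9) (.e (nat_lit 426436) (nat_lit 18) (.e (nat_lit 98341) (nat_lit 20) (.e (nat_lit 221194) (nat_lit 11) (.e (nat_lit 336003) (nat_lit 2) .nil)))))) (.g (nat_lit 0) .nil .nil))) 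
(.lf (nat_lit 220146) (.g (nat_lit 1682) (.e (nat_lit 90185) (nat_lit 17) (.e (nat_lit 237601) (nat_lit 9) (.e (nat_lit 426566) (nat_lit 34) (.e (nat_lit 393250) (nat_lit 18) (.e (nat_lit 164399) (nat_lit 256) (.e (nat_lit 57372) (nat_lit 2) .nil)))))) (.g (nat_lit 5) .nil .nil))))) (.nd (nat_lit 4) (.nd (nat_lit 5) 
(.lf (nat_lit 220106) (.g (nat_lit 2341) (.e (nat_lit 90185) (nat_lit 17) (.e (nat_lit 237601) (nat_lit 9) (.e (nat_lit 426402) (nat_lit 15) (.e (nat_lit 1848) (nat_lit 124) (.e (nat_lit 557104) (nat_lit 14) (.e (nat_lit 180277) (nat_lit 32) (.e (nat_lit 1235) (nat_lit 91) .nil))))))) (.g (nat_lit 5) .nil .nil))) 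
(.lf (nat_lit 220138) (.g (nat_lit 2296) (.e (nat_lit 90185) (nat_lit 17) (.e (nat_lit 237601) (nat_lit 9) (.e (nat_lit 426537) (nat_lit 28) (.e (nat_lit 344174) (nat_lit 42) (.e (nat_lit 761905) (nat_lit 16) (.e (nat_lit 179968) (nat_lit 17) .nil)))))) (.g (nat_lit 5) .nil .nil)))) (.nd (nat_lit 5) 
(.lf (nat_lit 220122) (.g (nat_lit 3392) (.e (nat_lit 90185) (nat_lit 17) (.e (nat_lit 237601) (nat_lit 9) (.e (nat_lit 426436) (nat_lit 18) (.e (nat_lit 98342) (nat_lit 20) (.e (nat_lit 221194) (nat_lit 11) (.e (nat_lit 336009) (nat_lit 2) .nil)))))) (.g (nat_lit 6) .nil .nil))) 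
(.lf (nat_lit 220154) (.g (nat_lit 2332) (.e (nat_lit 90185) (nat_lit 17) (.e (nat_lit 237602) (nat_lit 9) (.e (nat_lit 426436) (nat_lit 18) (.e (nat_lit 98342) (nat_lit 20) (.e (nat_lit 221194) (nat_lit 11) (.e (nat_lit 336002) (nat_lit 2) .nil)))))) (.g (nat_lit 4) .nil .nil)))))) (.nd (nat_lit 3) (.nd (nat_lit 4) (.nd (nat_lit 5) 
(.lf (nat_lit 220102) (.g (nat_lit 1677) (.e (nat_lit 90185) (nat_lit 17) (.e (nat_lit 237601) (nat_lit 9) (.e (nat_lit 426131) (nat_lit 3) (.e (nat_lit 204846) (nat_lit 24) (.e (nat_lit 319534) (nat_lit 16) (.e (nat_lit 294656) (nat_lit 2) .nil)))))) (.g (nat_lit 4) .nil .nil))) 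
(.lf (nat_lit 220134) (.g (nat_lit 2562) (.e (nat_lit 90185) (nat_lit 17) (.e (nat_lit 237601) (nat_lit 9) (.e (nat_lit 426438) (nat_lit 18) (.e (nat_lit 98341) (nat_lit 20) (.e (nat_lit 221194) (nat_lit 11) (.e (nat_lit 336009) (nat_lit 2) .nil)))))) (.g (nat_lit 5) .nil .nil)))) (.nd (nat_lit 5) 
(.lf (nat_lit 220118) (.g (nat_lit 1527) (.e (nat_lit 90185) (nat_lit 17) (.e (nat_lit 237601) (nat_lit 9) (.e (nat_lit 426436) (nat_lit 18) (.e (nat_lit 98342) (nat_lit 20) (.e (nat_lit 221193) (nat_lit 11) .nil))))) .nil)) 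
(.lf (nat_lit 220150) (.g (nat_lit 2350) (.e (nat_lit 90185) (nat_lit 17) (.e (nat_lit 237601) (nat_lit 9) (.e (nat_lit 426568) (nat_lit 34) (.e (nat_lit 393234) (nat_lit 17) (.e (nat_lit 2524) (nat_lit 157) (.e (nat_lit 5949) (nat_lit 322) (.e (nat_lit 57373) (nat_lit 2) .nil))))))) (.g (nat_lit 4) .nil .nil))))) (.nd (nat_lit 4) (.nd (nat_lit 5) 
(.lf (nat_lit 220110) (.g (nat_lit 1781) (.e (nat_lit 90185) (nat_lit 17) (.e (nat_lit 237601) (nat_lit 9) (.e (nat_lit 426436) (nat_lit 18) (.e (nat_lit 98339) (nat_lit 19) (.e (nat_lit 213010) (nat_lit 9) .nil))))) .nil)) 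
(.lf (nat_lit 220142) (.g (nat_lit 1999) (.e (nat_lit 90185) (nat_lit 17) (.e (nat_lit 237601) (nat_lit 9) (.e (nat_lit 426566) (nat_lit 34) (.e (nat_lit 393232) (nat_lit 17) (.e (nat_lit 2530) (nat_lit 157) (.e (nat_lit 5949) (nat_lit 322) (.e (nat_lit 57373) (nat_lit 2) .nil))))))) (.g (nat_lit 4) .nil .nil)))) (.nd (nat_lit 5) 
(.lf (nat_lit 220126) (.g (nat_lit 837) (.e (nat_lit 90185) (nat_lit 17) (.e (nat_lit 237601) (nat_lit 9) (.e (nat_lit 426436) (nat_lit 18) (.e (nat_lit 98348) (nat_lit 23) .nil)))) .nil)) 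
(.lf (nat_lit 220158) (.g (nat_lit 2172) (.e (nat_lit 90185) (nat_lit 17) (.e (nat_lit 237603) (nat_lit 9) (.e (nat_lit 426436) (nat_lit 18) (.e (nat_lit 98341) (nat_lit 20) (.e (nat_lit 221193) (nat_lit 11) (.e (nat_lit 336010) (nat_lit 2) .nil)))))) (.g (nat_lit 4) .nil .nil)))))))) (.nd (nat_lit 1) (.nd (nat_lit 2) (.nd (nat_lit 3) (.nd (nat_lit 4) (.nd (nat_lit 5) 
(.lf (nat_lit 220097) (.g (nat_lit 1407) (.e (nat_lit 90185) (nat_lit 17) (.e (nat_lit 237600) (nat_lit 9) (.e (nat_lit 426568) (nat_lit 34) (.e (nat_lit 393253) (nat_lit 18) (.e (nat_lit 164403) (nat_lit 256) .nil))))) .nil)) 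
(.lf (nat_lit 220129) (.g (nat_lit 1112) (.e (nat_lit 90185) (nat_lit 17) (.e (nat_lit 237601) (nat_lit 9) (.e (nat_lit 426437) (nat_lit 18) (.e (nat_lit 98342) (nat_lit 20) (.e (nat_lit 221193) (nat_lit 11) (.e (nat_lit 336010) (nat_lit 2) .nil)))))) (.g (nat_lit 4) .nil .nil)))) (.nd (nat_lit 5) 
(.lf (nat_lit 220113) (.g (nat_lit 2485) (.e (nat_lit 90185) (nat_lit 17) (.e (nat_lit 237601) (nat_lit 9) (.e (nat_lit 426436) (nat_lit 18) (.e (nat_lit 98341) (nat_lit 20) (.e (nat_lit 221194) (nat_lit 11) (.e (nat_lit 336001) (nat_lit 2) .nil)))))) (.g (nat_lit 4) .nil .nil))) 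
(.lf (nat_lit 220145) (.g (nat_lit 959) (.e (nat_lit 90185) (nat_lit 17) (.e (nat_lit 237601) (nat_lit 9) (.e (nat_lit 426566) (nat_lit 34) (.e (nat_lit 393235) (nat_lit 17) .nil)))) .nil)))) (.nd (nat_lit 4) (.nd (nat_lit 5) 
(.lf (nat_lit 220105) (.g (nat_lit 2302) (.e (nat_lit 90185) (nat_lit 17) (.e (nat_lit 237601) (nat_lit 9) (.e (nat_lit 426402) (nat_lit 15) (.e (nat_lit 1848) (nat_lit 124) (.e (nat_lit 557103) (nat_lit 14) (.e (nat_lit 180278) (nat_lit 32) (.e (nat_lit 1235) (nat_lit 91) .nil))))))) (.g (nat_lit 5) .nil .nil))) 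
(.lf (nat_lit 220137) (.g (nat_lit 2825) (.e (nat_lit 90185) (nat_lit 17) (.e (nat_lit 237601) (nat_lit 9) (.e (nat_lit 426438) (nat_lit 18) (.e (nat_lit 98342) (nat_lit 20) (.e (nat_lit 221194) (nat_lit 11) (.e (nat_lit 336003) (nat_lit 2) .nil)))))) (.g (nat_lit 0) .nil .nil)))) (.nd (nat_lit 5) 
(.lf (nat_lit 220121) (.g (nat_lit 3484) (.e (nat_lit 90185) (nat_lit 17) (.e (nat_lit 237601) (nat_lit 9) (.e (nat_lit 426436) (nat_lit 18) (.e (nat_lit 98342) (nat_lit 20) (.e (nat_lit 221194) (nat_lit 11) (.e (nat_lit 336003) (nat_lit 2) .nil)))))) (.g (nat_lit 0) .nil .nil))) 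
(.lf (nat_lit 220153) (.g (nat_lit 2339) (.e (nat_lit 90185) (nat_lit 17) (.e (nat_lit 237602) (nat_lit 9) (.e (nat_lit 426436) (nat_lit 18) (.e (nat_lit 98341) (nat_lit 20) (.e (nat_lit 221194) (nat_lit 11) (.e (nat_lit 336002) (nat_lit 2) .nil)))))) (.g (nat_lit 4) .nil .nil)))))) (.nd (nat_lit 3) (.nd (nat_lit 4) (.nd (nat_lit 5) 
(.lf (nat_lit 220101) (.g (nat_lit 2683) (.e (nat_lit 90185) (nat_lit 17) (.e (nat_lit 237601) (nat_lit 9) (.e (nat_lit 426131) (nat_lit 3) (.e (nat_lit 204846) (nat_lit 24) (.e (nat_lit 319533) (nat_lit 16) (.e (nat_lit 294656) (nat_lit 2) .nil)))))) (.g (nat_lit 5) .nil .nil))) 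
(.lf (nat_lit 220133) (.g (nat_lit 1480) (.e (nat_lit 90185) (nat_lit 17) (.e (nat_lit 237601) (nat_lit 9) (.e (nat_lit 426438) (nat_lit 18) (.e (nat_lit 98341) (nat_lit 20) (.e (nat_lit 221193) (nat_lit 11) (.e (nat_lit 336010) (nat_lit 2) .nil)))))) (.g (nat_lit 4) .nil .nil)))) (.nd (nat_lit 5) 
(.lf (nat_lit 220117) (.g (nat_lit 1823) (.e (nat_lit 90185) (nat_lit 17) (.e (nat_lit 237601) (nat_lit 9) (.e (nat_lit 426436) (nat_lit 18) (.e (nat_lit 98342) (nat_lit 20) (.e (nat_lit 221192) (nat_lit 11) .nil))))) .nil)) 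
(.lf (nat_lit 220149) (.g (nat_lit 2914) (.e (nat_lit 90185) (nat_lit 17) (.e (nat_lit 237601) (nat_lit 9) (.e (nat_lit 426566) (nat_lit 34) (.e (nat_lit 393254) (nat_lit 18) (.e (nat_lit 164403) (nat_lit 256) (.e (nat_lit 57373) (nat_lit 2) .nil)))))) (.g (nat_lit 0) .nil .nil))))) (.nd (nat_lit 4) (.nd (nat_lit 5) 
(.lf (nat_lit 220109) (.g (nat_lit 750) (.e (nat_lit 90185) (nat_lit 17) (.e (nat_lit 237601) (nat_lit 9) (.e (nat_lit 426436) (nat_lit 18) (.e (nat_lit 98320) (nat_lit 17) .nil)))) .nil)) 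
(.lf (nat_lit 220141) (.g (nat_lit 976) (.e (nat_lit 90185) (nat_lit 17) (.e (nat_lit 237601) (nat_lit 9) (.e (nat_lit 426566) (nat_lit 34) (.e (nat_lit 393232) (nat_lit 17) .nil)))) .nil))) (.nd (nat_lit 5) 
(.lf (nat_lit 220125) (.g (nat_lit 935) (.e (nat_lit 90185) (nat_lit 17) (.e (nat_lit 237601) (nat_lit 9) (.e (nat_lit 426436) (nat_lit 18) (.e (nat_lit 98347) (nat_lit 23) .nil)))) .nil)) 
(.lf (nat_lit 220157) (.g (nat_lit 2294) (.e (nat_lit 90185) (nat_lit 17) (.e (nat_lit 237603) (nat_lit 9) (.e (nat_lit 426436) (nat_lit 18) (.e (nat_lit 98341) (nat_lit 20) (.e (nat_lit 221193) (nat_lit 11) (.e (nat_lit 336009) (nat_lit 2) .nil)))))) (.g (nat_lit 4) .nil .nil))))))) (.nd (nat_lit 2) (.nd (nat_lit 3) (.nd (nat_lit 4) (.nd (nat_lit 5) 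
(.lf (nat_lit 220099) (.g (nat_lit 2901) (.e (nat_lit 90185) (nat_lit 17) (.e (nat_lit 237601) (nat_lit 9) (.e (nat_lit 426131) (nat_lit 3) (.e (nat_lit 204846) (nat_lit 24) (.e (nat_lit 319504) (nat_lit 10) (.e (nat_lit 7936) (nat_lit 298) (.e (nat_lit 1239) (nat_lit 91) .nil))))))) (.g (nat_lit 4) .nil .nil))) 
(.lf (nat_lit 220131) (.g (nat_lit 1571) (.e (nat_lit 90185) (nat_lit 17) (.e (nat_lit 237601) (nat_lit 9) (.e (nat_lit 426438) (nat_lit 18) (.e (nat_lit 98341) (nat_lit 20) (.e (nat_lit 221193) (nat_lit 11) (.e (nat_lit 336002) (nat_lit 2) .nil)))))) (.g (nat_lit 4) .nil .nil)))) (.nd (nat_lit 5) 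
(.lf (nat_lit 220115) (.g (nat_lit 3115) (.e (nat_lit 90185) (nat_lit 17) (.e (nat_lit 237601) (nat_lit 9) (.e (nat_lit 426436) (nat_lit 18) (.e (nat_lit 98341) (nat_lit 20) (.e (nat_lit 221194) (nat_lit 11) (.e (nat_lit 336009) (nat_lit 2) .nil)))))) (.g (nat_lit 5) .nil .nil))) 
(.lf (nat_lit 220147) (.g (nat_lit 2064) (.e (nat_lit 90185) (nat_lit 17) (.e (nat_lit 237601) (nat_lit 9) (.e (nat_lit 426566) (nat_lit 34) (.e (nat_lit 393251) (nat_lit 18) (.e (nat_lit 164396) (nat_lit 256) (.e (nat_lit 57375) (nat_lit 2) .nil)))))) (.g (nat_lit 4) .nil .nil))))) (.nd (nat_lit 4) (.nd (nat_lit 5) 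
(.lf (nat_lit 220107) (.g (nat_lit 3438) (.e (nat_lit 90185) (nat_lit 17) (.e (nat_lit 237601) (nat_lit 9) (.e (nat_lit 426402) (nat_lit 15) (.e (nat_lit 1849) (nat_lit 124) (.e (nat_lit 557097) (nat_lit 13) (.e (nat_lit 172126) (nat_lit 14) (.e (nat_lit 491537) (nat_lit 2) .nil))))))) (.g (nat_lit 7) .nil .nil))) 
(.lf (nat_lit 220139) (.g (nat_lit 1918) (.e (nat_lit 90185) (nat_lit 17) (.e (nat_lit 237601) (nat_lit 9) (.e (nat_lit 426537) (nat_lit 28) (.e (nat_lit 344174) (nat_lit 42) (.e (nat_lit 761906) (nat_lit 16) (.e (nat_lit 179968) (nat_lit 17) .nil)))))) (.g (nat_lit 5) .nil .nil)))) (.nd (nat_lit 5) 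
(.lf (nat_lit 220123) (.g (nat_lit 4885) (.e (nat_lit 90185) (nat_lit 17) (.e (nat_lit 237601) (nat_lit 9) (.e (nat_lit 426436) (nat_lit 18) (.e (nat_lit 98342) (nat_lit 20) (.e (nat_lit 221194) (nat_lit 11) (.e (nat_lit 336011) (nat_lit 2) .nil)))))) (.g (nat_lit 0) .nil .nil))) 
(.lf (nat_lit 220155) (.g (nat_lit 2507) (.e (nat_lit 90185) (nat_lit 17) (.e (nat_lit 237603) (nat_lit 9) (.e (nat_lit 426436) (nat_lit 18) (.e (nat_lit 98339) (nat_lit 19) (.e (nat_lit 213030) (nat_lit 11) (.e (nat_lit 24602) (nat_lit 2) .nil)))))) (.g (nat_lit 4) .nil .nil)))))) (.nd (nat_lit 3) (.nd (nat_lit 4) (.nd (nat_lit 5) 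
(.lf (nat_lit 220103) (.g (nat_lit 4273) (.e (nat_lit 90185) (nat_lit 17) (.e (nat_lit 237601) (nat_lit 9) (.e (nat_lit 426131) (nat_lit 3) (.e (nat_lit 204846) (nat_lit 24) (.e (nat_lit 319535) (nat_lit 17) (.e (nat_lit 294928) (nat_lit 2) .nil)))))) (.g (nat_lit 0) .nil .nil))) 
(.lf (nat_lit 220135) (.g (nat_lit 2005) (.e (nat_lit 90185) (nat_lit 17) (.e (nat_lit 237601) (nat_lit 9) (.e (nat_lit 426438) (nat_lit 18) (.e (nat_lit 98342) (nat_lit 20) (.e (nat_lit 221193) (nat_lit 11) (.e (nat_lit 336009) (nat_lit 2) .nil)))))) (.g (nat_lit 5) .nil .nil)))) (.nd (nat_lit 5) 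
(.lf (nat_lit 220119) (.g (nat_lit 2759) (.e (nat_lit 90185) (nat_lit 17) (.e (nat_lit 237601) (nat_lit 9) (.e (nat_lit 426436) (nat_lit 18) (.e (nat_lit 98342) (nat_lit 20) (.e (nat_lit 221193) (nat_lit 11) (.e (nat_lit 336009) (nat_lit 2) .nil)))))) (.g (nat_lit 0) .nil .nil))) 
(.lf (nat_lit 220151) (.g (nat_lit 2074) (.e (nat_lit 90185) (nat_lit 17) (.e (nat_lit 237601) (nat_lit 9) (.e (nat_lit 426568) (nat_lit 34) (.e (nat_lit 393234) (nat_lit 17) (.e (nat_lit 3432) (nat_lit 213) .nil))))) .nil)))) (.nd (nat_lit 4) (.nd (nat_lit 5) 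
(.lf (nat_lit 220111) (.g (nat_lit 2068) (.e (nat_lit 90185) (nat_lit 17) (.e (nat_lit 237601) (nat_lit 9) (.e (nat_lit 426436) (nat_lit 18) (.e (nat_lit 98339) (nat_lit 19) (.e (nat_lit 213019) (nat_lit 9) (.e (nat_lit 250) (nat_lit 21) (.e (nat_lit 336012) (nat_lit 2) .nil))))))) (.g (nat_lit 4) .nil .nil))) 
(.lf (nat_lit 220143) (.g (nat_lit 630) (.e (nat_lit 90185) (nat_lit 17) (.e (nat_lit 237601) (nat_lit 9) (.e (nat_lit 426566) (nat_lit 34) (.e (nat_lit 393233) (nat_lit 17) .nil)))) .nil))) (.nd (nat_lit 5) 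
(.lf (nat_lit 220127) (.g (nat_lit 1525) (.e (nat_lit 90185) (nat_lit 17) (.e (nat_lit 237601) (nat_lit 9) (.e (nat_lit 426437) (nat_lit 18) (.e (nat_lit 98341) (nat_lit 20) (.e (nat_lit 221193) (nat_lit 11) (.e (nat_lit 336012) (nat_lit 2) .nil)))))) (.g (nat_lit 4) .nil .nil))) 
(.lf (nat_lit 220159) (.g (nat_lit 2814) (.e (nat_lit 90185) (nat_lit 17) (.e (nat_lit 237603) (nat_lit 9) (.e (nat_lit 426436) (nat_lit 18) (.e (nat_lit 98341) (nat_lit 20) (.e (nat_lit 221194) (nat_lit 11) (.e (nat_lit 336009) (nat_lit 2) .nil)))))) (.g (nat_lit 4) .nil .nil)))))))))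

noncomputable def tv2891 : DT := (.nd (nat_lit 0) (.nd (nat_lit 1) (.nd (nat_lit 2) (.nd (nat_lit 3) (.nd (nat_lit 4) (.nd (nat_lit 5) 
(.lf (nat_lit 220160) (.g (nat_lit 2691) (.e (nat_lit 90185) (nat_lit 17) (.e (nat_lit 237603) (nat_lit 9) (.e (nat_lit 426436) (nat_lit 18) (.e (nat_lit 98341) (nat_lit 20) (.e (nat_lit 221194) (nat_lit 11) (.e (nat_lit 336010) (nat_lit 2) .nil)))))) (.g (nat_lit 5) .nil .nil))) 
(.lf (nat_lit 220192) (.g (nat_lit 2217) (.e (nat_lit 90185) (nat_lit 17) (.e (nat_lit 237605) (nat_lit 9) (.e (nat_lit 426131) (nat_lit 3) (.e (nat_lit 204830) (nat_lit 18) (.e (nat_lit 57767) (nat_lit 221) (.e (nat_lit 1294) (nat_lit 96) (.e (nat_lit 131094) (nat_lit 2) .nil))))))) (.g (nat_lit 4) .nil .nil)))) (.nd (nat_lit 5) 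
(.lf (nat_lit 220176) (.g (nat_lit 2680) (.e (nat_lit 90185) (nat_lit 17) (.e (nat_lit 237604) (nat_lit 9) (.e (nat_lit 426436) (nat_lit 18) (.e (nat_lit 98342) (nat_lit 20) (.e (nat_lit 221193) (nat_lit 11) (.e (nat_lit 336002) (nat_lit 2) .nil)))))) (.g (nat_lit 5) .nil .nil))) 
(.lf (nat_lit 220208) (.g (nat_lit 4029) (.e (nat_lit 90185) (nat_lit 17) (.e (nat_lit 237605) (nat_lit 9) (.e (nat_lit 426131) (nat_lit 3) (.e (nat_lit 204846) (nat_lit 24) (.e (nat_lit 319534) (nat_lit 16) (.e (nat_lit 286733) (nat_lit 2) .nil)))))) (.g (nat_lit 6) .nil .nil))))) (.nd (nat_lit 4) (.nd (nat_lit 5) 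
(.lf (nat_lit 220168) (.g (nat_lit 2893) (.e (nat_lit 90185) (nat_lit 17) (.e (nat_lit 237604) (nat_lit 9) (.e (nat_lit 426131) (nat_lit 3) (.e (nat_lit 204846) (nat_lit 24) (.e (nat_lit 319533) (nat_lit 16) (.e (nat_lit 294656) (nat_lit 2) .nil)))))) (.g (nat_lit 5) .nil .nil))) 
(.lf (nat_lit 220200) (.g (nat_lit 3792) (.e (nat_lit 90185) (nat_lit 17) (.e (nat_lit 237605) (nat_lit 9) (.e (nat_lit 426131) (nat_lit 3) (.e (nat_lit 204846) (nat_lit 24) (.e (nat_lit 319504) (nat_lit 10) (.e (nat_lit 7936) (nat_lit 298) (.e (nat_lit 1239) (nat_lit 91) .nil))))))) (.g (nat_lit 5) .nil .nil)))) (.nd (nat_lit 5) 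
(.lf (nat_lit 220184) (.g (nat_lit 2732) (.e (nat_lit 90185) (nat_lit 17) (.e (nat_lit 237605) (nat_lit 9) (.e (nat_lit 426130) (nat_lit 3) (.e (nat_lit 204846) (nat_lit 24) (.e (nat_lit 319504) (nat_lit 10) (.e (nat_lit 7936) (nat_lit 298) (.e (nat_lit 1226) (nat_lit 91) .nil))))))) (.g (nat_lit 5) .nil .nil))) 
(.lf (nat_lit 220216) (.g (nat_lit 2011) (.e (nat_lit 90185) (nat_lit 17) (.e (nat_lit 237605) (nat_lit 9) (.e (nat_lit 426131) (nat_lit 3) (.e (nat_lit 204880) (nat_lit 32) (.e (nat_lit 385049) (nat_lit 21) (.e (nat_lit 7936) (nat_lit 373) (.e (nat_lit 57375) (nat_lit 2) .nil))))))) (.g (nat_lit 4) .nil .nil)))))) (.nd (nat_lit 3) (.nd (nat_lit 4) (.nd (nat_lit 5) 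
(.lf (nat_lit 220164) (.g (nat_lit 2938) (.e (nat_lit 90185) (nat_lit 17) (.e (nat_lit 237603) (nat_lit 9) (.e (nat_lit 426436) (nat_lit 18) (.e (nat_lit 98342) (nat_lit 20) (.e (nat_lit 221194) (nat_lit 11) (.e (nat_lit 336012) (nat_lit 2) .nil)))))) (.g (nat_lit 4) .nil .nil))) 
(.lf (nat_lit 220196) (.g (nat_lit 2107) (.e (nat_lit 90185) (nat_lit 17) (.e (nat_lit 237605) (nat_lit 9) (.e (nat_lit 426131) (nat_lit 3) (.e (nat_lit 204846) (nat_lit 24) (.e (nat_lit 319504) (nat_lit 10) .nil))))) .nil))) (.nd (nat_lit 5) 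
(.lf (nat_lit 220180) (.g (nat_lit 2527) (.e (nat_lit 90185) (nat_lit 17) (.e (nat_lit 237604) (nat_lit 9) (.e (nat_lit 426436) (nat_lit 18) (.e (nat_lit 98342) (nat_lit 20) (.e (nat_lit 221194) (nat_lit 11) (.e (nat_lit 336010) (nat_lit 2) .nil)))))) (.g (nat_lit 5) .nil .nil))) 
(.lf (nat_lit 220212) (.g (nat_lit 2089) (.e (nat_lit 90185) (nat_lit 17) (.e (nat_lit 237605) (nat_lit 9) (.e (nat_lit 426131) (nat_lit 3) (.e (nat_lit 204848) (nat_lit 25) (.e (nat_lit 327717) (nat_lit 17) (.e (nat_lit 294926) (nat_lit 2) .nil)))))) (.g (nat_lit 4) .nil .nil))))) (.nd (nat_lit 4) (.nd (nat_lit 5) 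
(.lf (nat_lit 220172) (.g (nat_lit 2011) (.e (nat_lit 90185) (nat_lit 17) (.e (nat_lit 237604) (nat_lit 9) (.e (nat_lit 426436) (nat_lit 18) (.e (nat_lit 98341) (nat_lit 20) (.e (nat_lit 221193) (nat_lit 11) (.e (nat_lit 336010) (nat_lit 2) .nil)))))) (.g (nat_lit 4) .nil .nil))) 
(.lf (nat_lit 220204) (.g (nat_lit 2399) (.e (nat_lit 90185) (nat_lit 17) (.e (nat_lit 237605) (nat_lit 9) (.e (nat_lit 426131) (nat_lit 3) (.e (nat_lit 204846) (nat_lit 24) (.e (nat_lit 319528) (nat_lit 16) (.e (nat_lit 286732) (nat_lit 2) .nil)))))) (.g (nat_lit 4) .nil .nil)))) (.nd (nat_lit 5) 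
(.lf (nat_lit 220188) (.g (nat_lit 706) (.e (nat_lit 90185) (nat_lit 17) (.e (nat_lit 237605) (nat_lit 9) (.e (nat_lit 426131) (nat_lit 3) (.e (nat_lit 212736) (nat_lit 1) .nil)))) .nil)) 
(.lf (nat_lit 220220) (.g (nat_lit 2419) (.e (nat_lit 90185) (nat_lit 17) (.e (nat_lit 237605) (nat_lit 9) (.e (nat_lit 426131) (nat_lit 3) (.e (nat_lit 204880) (nat_lit 32) (.e (nat_lit 385087) (nat_lit 46) (.e (nat_lit 753697) (nat_lit 13) (.e (nat_lit 1234) (nat_lit 91) .nil))))))) (.g (nat_lit 4) .nil .nil))))))) (.nd (nat_lit 2) (.nd (nat_lit 3) (.nd (nat_lit 4) (.nd (nat_lit 5) 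
(.lf (nat_lit 220162) (.g (nat_lit 1835) (.e (nat_lit 90185) (nat_lit 17) (.e (nat_lit 237603) (nat_lit 9) (.e (nat_lit 426436) (nat_lit 18) (.e (nat_lit 98342) (nat_lit 20) (.e (nat_lit 221193) (nat_lit 11) (.e (nat_lit 336010) (nat_lit 2) .nil)))))) (.g (nat_lit 4) .nil .nil))) 
(.lf (nat_lit 220194) (.g (nat_lit 1992) (.e (nat_lit 90185) (nat_lit 17) (.e (nat_lit 237605) (nat_lit 9) (.e (nat_lit 426131) (nat_lit 3) (.e (nat_lit 204845) (nat_lit 24) (.e (nat_lit 327424) (nat_lit 16) (.e (nat_lit 286733) (nat_lit 2) .nil)))))) (.g (nat_lit 4) .nil .nil)))) (.nd (nat_lit 5) 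
(.lf (nat_lit 220178) (.g (nat_lit 2025) (.e (nat_lit 90185) (nat_lit 17) (.e (nat_lit 237604) (nat_lit 9) (.e (nat_lit 426436) (nat_lit 18) (.e (nat_lit 98342) (nat_lit 20) (.e (nat_lit 221193) (nat_lit 11) (.e (nat_lit 336010) (nat_lit 2) .nil)))))) (.g (nat_lit 4) .nil .nil))) 
(.lf (nat_lit 220210) (.g (nat_lit 2304) (.e (nat_lit 90185) (nat_lit 17) (.e (nat_lit 237605) (nat_lit 9) (.e (nat_lit 426131) (nat_lit 3) (.e (nat_lit 204846) (nat_lit 24) (.e (nat_lit 327424) (nat_lit 16) (.e (nat_lit 286733) (nat_lit 2) .nil)))))) (.g (nat_lit 4) .nil .nil))))) (.nd (nat_lit 4) (.nd (nat_lit 5) 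
(.lf (nat_lit 220170) (.g (nat_lit 2576) (.e (nat_lit 90185) (nat_lit 17) (.e (nat_lit 237604) (nat_lit 9) (.e (nat_lit 426436) (nat_lit 18) (.e (nat_lit 98341) (nat_lit 20) (.e (nat_lit 221193) (nat_lit 11) (.e (nat_lit 336002) (nat_lit 2) .nil)))))) (.g (nat_lit 5) .nil .nil))) 
(.lf (nat_lit 220202) (.g (nat_lit 1730) (.e (nat_lit 90185) (nat_lit 17) (.e (nat_lit 237605) (nat_lit 9) (.e (nat_lit 426131) (nat_lit 3) (.e (nat_lit 204846) (nat_lit 24) (.e (nat_lit 319505) (nat_lit 10) .nil))))) .nil))) (.nd (nat_lit 5) 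
(.lf (nat_lit 220186) (.g (nat_lit 2122) (.e (nat_lit 90185) (nat_lit 17) (.e (nat_lit 237605) (nat_lit 9) (.e (nat_lit 426130) (nat_lit 3) (.e (nat_lit 204846) (nat_lit 24) (.e (nat_lit 319533) (nat_lit 16) (.e (nat_lit 294656) (nat_lit 2) .nil)))))) (.g (nat_lit 5) .nil .nil))) 
(.lf (nat_lit 220218) (.g (nat_lit 2271) (.e (nat_lit 90185) (nat_lit 17) (.e (nat_lit 237605) (nat_lit 9) (.e (nat_lit 426131) (nat_lit 3) (.e (nat_lit 204880) (nat_lit 32) (.e (nat_lit 385087) (nat_lit 46) (.e (nat_lit 753693) (nat_lit 13) (.e (nat_lit 1238) (nat_lit 91) .nil))))))) (.g (nat_lit 4) .nil .nil)))))) (.nd (nat_lit 3) (.nd (nat_lit 4) (.nd (nat_lit 5) 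
(.lf (nat_lit 220166) (.g (nat_lit 1583) (.e (nat_lit 90185) (nat_lit 17) (.e (nat_lit 237603) (nat_lit 9) (.e (nat_lit 426537) (nat_lit 28) (.e (nat_lit 344174) (nat_lit 42) (.e (nat_lit 761906) (nat_lit 16) (.e (nat_lit 179968) (nat_lit 17) .nil)))))) (.g (nat_lit 4) .nil .nil))) 
(.lf (nat_lit 220198) (.g (nat_lit 3590) (.e (nat_lit 90185) (nat_lit 17) (.e (nat_lit 237605) (nat_lit 9) (.e (nat_lit 426131) (nat_lit 3) (.e (nat_lit 204846) (nat_lit 24) (.e (nat_lit 319504) (nat_lit 10) (.e (nat_lit 7936) (nat_lit 298) (.e (nat_lit 1229) (nat_lit 91) .nil))))))) (.g (nat_lit 5) .nil .nil)))) (.nd (nat_lit 5) 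
(.lf (nat_lit 220182) (.g (nat_lit 2344) (.e (nat_lit 90185) (nat_lit 17) (.e (nat_lit 237604) (nat_lit 9) (.e (nat_lit 426537) (nat_lit 28) (.e (nat_lit 344174) (nat_lit 42) (.e (nat_lit 761905) (nat_lit 16) (.e (nat_lit 179968) (nat_lit 17) .nil)))))) (.g (nat_lit 5) .nil .nil))) 
(.lf (nat_lit 220214) (.g (nat_lit 1779) (.e (nat_lit 90185) (nat_lit 17) (.e (nat_lit 237605) (nat_lit 9) (.e (nat_lit 426131) (nat_lit 3) (.e (nat_lit 204849) (nat_lit 25) (.e (nat_lit 335616) (nat_lit 17) (.e (nat_lit 294927) (nat_lit 2) .nil)))))) (.g (nat_lit 4) .nil .nil))))) (.nd (nat_lit 4) (.nd (nat_lit 5) 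
(.lf (nat_lit 220174) (.g (nat_lit 2530) (.e (nat_lit 90185) (nat_lit 17) (.e (nat_lit 237604) (nat_lit 9) (.e (nat_lit 426436) (nat_lit 18) (.e (nat_lit 98341) (nat_lit 20) (.e (nat_lit 221194) (nat_lit 11) (.e (nat_lit 336010) (nat_lit 2) .nil)))))) (.g (nat_lit 5) .nil .nil))) 
(.lf (nat_lit 220206) (.g (nat_lit 3344) (.e (nat_lit 90185) (nat_lit 17) (.e (nat_lit 237605) (nat_lit 9) (.e (nat_lit 426131) (nat_lit 3) (.e (nat_lit 204846) (nat_lit 24) (.e (nat_lit 319533) (nat_lit 16) (.e (nat_lit 294656) (nat_lit 2) .nil)))))) (.g (nat_lit 5) .nil .nil)))) (.nd (nat_lit 5) 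
(.lf (nat_lit 220190) (.g (nat_lit 2174) (.e (nat_lit 90185) (nat_lit 17) (.e (nat_lit 237605) (nat_lit 9) (.e (nat_lit 426131) (nat_lit 3) (.e (nat_lit 204829) (nat_lit 18) (.e (nat_lit 57767) (nat_lit 221) .nil))))) .nil)) 
(.lf (nat_lit 220222) (.g (nat_lit 1534) (.e (nat_lit 90185) (nat_lit 17) (.e (nat_lit 237605) (nat_lit 9) (.e (nat_lit 426131) (nat_lit 3) (.e (nat_lit 204882) (nat_lit 32) (.e (nat_lit 385047) (nat_lit 21) (.e (nat_lit 7936) (nat_lit 373) (.e (nat_lit 57375) (nat_lit 2) .nil))))))) (.g (nat_lit 4) .nil .nil)))))))) 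
(.nd (nat_lit 1) (.nd (nat_lit 2) (.nd (nat_lit 3) (.nd (nat_lit 4) (.nd (nat_lit 5) 
(.lf (nat_lit 220161) (.g (nat_lit 2299) (.e (nat_lit 90185) (nat_lit 17) (.e (nat_lit 237603) (nat_lit 9) (.e (nat_lit 426436) (nat_lit 18) (.e (nat_lit 98342) (nat_lit 20) (.e (nat_lit 221193) (nat_lit 11) (.e (nat_lit 336002) (nat_lit 2) .nil)))))) (.g (nat_lit 4) .nil .nil))) 
(.lf (nat_lit 220193) (.g (nat_lit 3517) (.e (nat_lit 90185) (nat_lit 17) (.e (nat_lit 237605) (nat_lit 9) (.e (nat_lit 426131) (nat_lit 3) (.e (nat_lit 204845) (nat_lit 24) (.e (nat_lit 319529) (nat_lit 16) (.e (nat_lit 286733) (nat_lit 2) .nil)))))) (.g (nat_lit 6) .nil .nil)))) (.nd (nat_lit 5) 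
(.lf (nat_lit 220177) (.g (nat_lit 2300) (.e (nat_lit 90185) (nat_lit 17) (.e (nat_lit 237604) (nat_lit 9) (.e (nat_lit 426436) (nat_lit 18) (.e (nat_lit 98342) (nat_lit 20) (.e (nat_lit 221193) (nat_lit 11) (.e (nat_lit 336009) (nat_lit 2) .nil)))))) (.g (nat_lit 5) .nil .nil))) 
(.lf (nat_lit 220209) (.g (nat_lit 2451) (.e (nat_lit 90185) (nat_lit 17) (.e (nat_lit 237605) (nat_lit 9) (.e (nat_lit 426131) (nat_lit 3) (.e (nat_lit 204846) (nat_lit 24) (.e (nat_lit 319534) (nat_lit 16) (.e (nat_lit 294656) (nat_lit 2) .nil)))))) (.g (nat_lit 5) .nil .nil))))) (.nd (nat_lit 4) (.nd (nat_lit 5) 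
(.lf (nat_lit 220169) (.g (nat_lit 1914) (.e (nat_lit 90185) (nat_lit 17) (.e (nat_lit 237604) (nat_lit 9) (.e (nat_lit 426131) (nat_lit 3) (.e (nat_lit 204846) (nat_lit 24) (.e (nat_lit 319534) (nat_lit 16) (.e (nat_lit 294656) (nat_lit 2) .nil)))))) (.g (nat_lit 5) .nil .nil))) 
(.lf (nat_lit 220201) (.g (nat_lit 3136) (.e (nat_lit 90185) (nat_lit 17) (.e (nat_lit 237605) (nat_lit 9) (.e (nat_lit 426131) (nat_lit 3) (.e (nat_lit 204846) (nat_lit 24) (.e (nat_lit 319504) (nat_lit 10) (.e (nat_lit 7936) (nat_lit 298) (.e (nat_lit 1241) (nat_lit 91) .nil))))))) (.g (nat_lit 4) .nil .nil)))) (.nd (nat_lit 5) 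
(.lf (nat_lit 220185) (.g (nat_lit 2454) (.e (nat_lit 90185) (nat_lit 17) (.e (nat_lit 237605) (nat_lit 9) (.e (nat_lit 426130) (nat_lit 3) (.e (nat_lit 204846) (nat_lit 24) (.e (nat_lit 319504) (nat_lit 10) (.e (nat_lit 7936) (nat_lit 298) (.e (nat_lit 1239) (nat_lit 91) .nil))))))) (.g (nat_lit 4) .nil .nil))) 
(.lf (nat_lit 220217) (.g (nat_lit 1927) (.e (nat_lit 90185) (nat_lit 17) (.e (nat_lit 237605) (nat_lit 9) (.e (nat_lit 426131) (nat_lit 3) (.e (nat_lit 204880) (nat_lit 32) (.e (nat_lit 385087) (nat_lit 46) .nil))))) .nil))))) (.nd (nat_lit 3) (.nd (nat_lit 4) (.nd (nat_lit 5) 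
(.lf (nat_lit 220165) (.g (nat_lit 1975) (.e (nat_lit 90185) (nat_lit 17) (.e (nat_lit 237603) (nat_lit 9) (.e (nat_lit 426537) (nat_lit 28) (.e (nat_lit 344174) (nat_lit 42) (.e (nat_lit 761905) (nat_lit 16) (.e (nat_lit 179968) (nat_lit 17) .nil)))))) (.g (nat_lit 4) .nil .nil))) 
(.lf (nat_lit 220197) (.g (nat_lit 4091) (.e (nat_lit 90185) (nat_lit 17) (.e (nat_lit 237605) (nat_lit 9) (.e (nat_lit 426131) (nat_lit 3) (.e (nat_lit 204846) (nat_lit 24) (.e (nat_lit 319504) (nat_lit 10) (.e (nat_lit 7936) (nat_lit 298) (.e (nat_lit 1226) (nat_lit 91) .nil))))))) (.g (nat_lit 5) .nil .nil)))) (.nd (nat_lit 5) 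
(.lf (nat_lit 220181) (.g (nat_lit 1842) (.e (nat_lit 90185) (nat_lit 17) (.e (nat_lit 237604) (nat_lit 9) (.e (nat_lit 426436) (nat_lit 18) (.e (nat_lit 98342) (nat_lit 20) (.e (nat_lit 229120) (nat_lit 11) (.e (nat_lit 336012) (nat_lit 2) .nil)))))) (.g (nat_lit 4) .nil .nil))) 
(.lf (nat_lit 220213) (.g (nat_lit 2363) (.e (nat_lit 90185) (nat_lit 17) (.e (nat_lit 237605) (nat_lit 9) (.e (nat_lit 426131) (nat_lit 3) (.e (nat_lit 204849) (nat_lit 25) (.e (nat_lit 327717) (nat_lit 17) (.e (nat_lit 294926) (nat_lit 2) .nil)))))) (.g (nat_lit 4) .nil .nil))))) (.nd (nat_lit 4) (.nd (nat_lit 5) 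
(.lf (nat_lit 220173) (.g (nat_lit 2747) (.e (nat_lit 90185) (nat_lit 17) (.e (nat_lit 237604) (nat_lit 9) (.e (nat_lit 426436) (nat_lit 18) (.e (nat_lit 98341) (nat_lit 20) (.e (nat_lit 221194) (nat_lit 11) (.e (nat_lit 336009) (nat_lit 2) .nil)))))) (.g (nat_lit 5) .nil .nil))) 
(.lf (nat_lit 220205) (.g (nat_lit 3086) (.e (nat_lit 90185) (nat_lit 17) (.e (nat_lit 237605) (nat_lit 9) (.e (nat_lit 426131) (nat_lit 3) (.e (nat_lit 204846) (nat_lit 24) (.e (nat_lit 319528) (nat_lit 16) (.e (nat_lit 286733) (nat_lit 2) .nil)))))) (.g (nat_lit 5) .nil .nil)))) (.nd (nat_lit 5) 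
(.lf (nat_lit 220189) (.g (nat_lit 1207) (.e (nat_lit 90185) (nat_lit 17) (.e (nat_lit 237605) (nat_lit 9) (.e (nat_lit 426131) (nat_lit 3) (.e (nat_lit 204816) (nat_lit 17) (.e (nat_lit 6084) (nat_lit 332) .nil))))) .nil)) 
(.lf (nat_lit 220221) (.g (nat_lit 1664) (.e (nat_lit 90185) (nat_lit 17) (.e (nat_lit 237605) (nat_lit 9) (.e (nat_lit 426131) (nat_lit 3) (.e (nat_lit 204880) (nat_lit 32) (.e (nat_lit 392960) (nat_lit 46) .nil))))) .nil)))))) (.nd (nat_lit 2) (.nd (nat_lit 3) (.nd (nat_lit 4) (.nd (nat_lit 5) 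
(.lf (nat_lit 220163) (.g (nat_lit 2974) (.e (nat_lit 90185) (nat_lit 17) (.e (nat_lit 237603) (nat_lit 9) (.e (nat_lit 426436) (nat_lit 18) (.e (nat_lit 98342) (nat_lit 20) (.e (nat_lit 221194) (nat_lit 11) (.e (nat_lit 336002) (nat_lit 2) .nil)))))) (.g (nat_lit 5) .nil .nil))) 
(.lf (nat_lit 220195) (.g (nat_lit 2665) (.e (nat_lit 90185) (nat_lit 17) (.e (nat_lit 237605) (nat_lit 9) (.e (nat_lit 426131) (nat_lit 3) (.e (nat_lit 204845) (nat_lit 24) (.e (nat_lit 319535) (nat_lit 17) (.e (nat_lit 294927) (nat_lit 2) .nil)))))) (.g (nat_lit 5) .nil .nil)))) (.nd (nat_lit 5) 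
(.lf (nat_lit 220179) (.g (nat_lit 2893) (.e (nat_lit 90185) (nat_lit 17) (.e (nat_lit 237604) (nat_lit 9) (.e (nat_lit 426436) (nat_lit 18) (.e (nat_lit 98342) (nat_lit 20) (.e (nat_lit 221194) (nat_lit 11) (.e (nat_lit 336009) (nat_lit 2) .nil)))))) (.g (nat_lit 5) .nil .nil))) 
(.lf (nat_lit 220211) (.g (nat_lit 4390) (.e (nat_lit 90185) (nat_lit 17) (.e (nat_lit 237605) (nat_lit 9) (.e (nat_lit 426131) (nat_lit 3) (.e (nat_lit 204846) (nat_lit 24) (.e (nat_lit 319535) (nat_lit 17) (.e (nat_lit 294928) (nat_lit 2) .nil)))))) (.g (nat_lit 0) .nil .nil))))) (.nd (nat_lit 4) (.nd (nat_lit 5) 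
(.lf (nat_lit 220171) (.g (nat_lit 2227) (.e (nat_lit 90185) (nat_lit 17) (.e (nat_lit 237604) (nat_lit 9) (.e (nat_lit 426436) (nat_lit 18) (.e (nat_lit 98341) (nat_lit 20) (.e (nat_lit 221193) (nat_lit 11) (.e (nat_lit 336009) (nat_lit 2) .nil)))))) (.g (nat_lit 5) .nil .nil))) 
(.lf (nat_lit 220203) (.g (nat_lit 2496) (.e (nat_lit 90185) (nat_lit 17) (.e (nat_lit 237605) (nat_lit 9) (.e (nat_lit 426131) (nat_lit 3) (.e (nat_lit 204846) (nat_lit 24) (.e (nat_lit 319511) (nat_lit 10) (.e (nat_lit 5293) (nat_lit 298) (.e (nat_lit 1225) (nat_lit 91) .nil))))))) (.g (nat_lit 4) .nil .nil)))) (.nd (nat_lit 5) 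
(.lf (nat_lit 220187) (.g (nat_lit 1265) (.e (nat_lit 90185) (nat_lit 17) (.e (nat_lit 237605) (nat_lit 9) (.e (nat_lit 426130) (nat_lit 3) (.e (nat_lit 204846) (nat_lit 24) (.e (nat_lit 319534) (nat_lit 16) (.e (nat_lit 294656) (nat_lit 2) .nil)))))) (.g (nat_lit 4) .nil .nil))) 
(.lf (nat_lit 220219) (.g (nat_lit 2158) (.e (nat_lit 90185) (nat_lit 17) (.e (nat_lit 237605) (nat_lit 9) (.e (nat_lit 426131) (nat_lit 3) (.e (nat_lit 204880) (nat_lit 32) (.e (nat_lit 385087) (nat_lit 46) (.e (nat_lit 753696) (nat_lit 13) (.e (nat_lit 1226) (nat_lit 91) .nil))))))) (.g (nat_lit 4) .nil .nil)))))) (.nd (nat_lit 3) (.nd (nat_lit 4) (.nd (nat_lit 5) 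
(.lf (nat_lit 220167) (.g (nat_lit 1433) (.e (nat_lit 90185) (nat_lit 17) (.e (nat_lit 237603) (nat_lit 9) (.e (nat_lit 426568) (nat_lit 34) (.e (nat_lit 393252) (nat_lit 18) (.e (nat_lit 164403) (nat_lit 256) .nil))))) .nil)) 
(.lf (nat_lit 220199) (.g (nat_lit 3119) (.e (nat_lit 90185) (nat_lit 17) (.e (nat_lit 237605) (nat_lit 9) (.e (nat_lit 426131) (nat_lit 3) (.e (nat_lit 204846) (nat_lit 24) (.e (nat_lit 319504) (nat_lit 10) (.e (nat_lit 7936) (nat_lit 298) (.e (nat_lit 1236) (nat_lit 91) .nil))))))) (.g (nat_lit 4) .nil .nil)))) (.nd (nat_lit 5) 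
(.lf (nat_lit 220183) (.g (nat_lit 1966) (.e (nat_lit 90185) (nat_lit 17) (.e (nat_lit 237604) (nat_lit 9) (.e (nat_lit 426537) (nat_lit 28) (.e (nat_lit 344174) (nat_lit 42) (.e (nat_lit 761906) (nat_lit 16) (.e (nat_lit 179968) (nat_lit 17) .nil)))))) (.g (nat_lit 5) .nil .nil))) 
(.lf (nat_lit 220215) (.g (nat_lit 2867) (.e (nat_lit 90185) (nat_lit 17) (.e (nat_lit 237605) (nat_lit 9) (.e (nat_lit 426131) (nat_lit 3) (.e (nat_lit 204854) (nat_lit 26) (.e (nat_lit 336000) (nat_lit 1) (.e (nat_lit 57926) (nat_lit 282) (.e (nat_lit 171776) (nat_lit 63) .nil))))))) (.g (nat_lit 6) .nil .nil))))) (.nd (nat_lit 4) (.nd (nat_lit 5) 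
(.lf (nat_lit 220175) (.g (nat_lit 1800) (.e (nat_lit 90185) (nat_lit 17) (.e (nat_lit 237604) (nat_lit 9) (.e (nat_lit 426436) (nat_lit 18) (.e (nat_lit 98341) (nat_lit 20) (.e (nat_lit 229120) (nat_lit 11) (.e (nat_lit 336012) (nat_lit 2) .nil)))))) (.g (nat_lit 4) .nil .nil))) 
(.lf (nat_lit 220207) (.g (nat_lit 3913) (.e (nat_lit 90185) (nat_lit 17) (.e (nat_lit 237605) (nat_lit 9) (.e (nat_lit 426131) (nat_lit 3) (.e (nat_lit 204846) (nat_lit 24) (.e (nat_lit 319534) (nat_lit 16) (.e (nat_lit 286732) (nat_lit 2) .nil)))))) (.g (nat_lit 0) .nil .nil)))) (.nd (nat_lit 5) 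
(.lf (nat_lit 220191) (.g (nat_lit 1838) (.e (nat_lit 90185) (nat_lit 17) (.e (nat_lit 237605) (nat_lit 9) (.e (nat_lit 426131) (nat_lit 3) (.e (nat_lit 204830) (nat_lit 18) (.e (nat_lit 57766) (nat_lit 221) (.e (nat_lit 1294) (nat_lit 96) (.e (nat_lit 131094) (nat_lit 2) .nil))))))) (.g (nat_lit 4) .nil .nil))) 
(.lf (nat_lit 220223) (.g (nat_lit 1760) (.e (nat_lit 90185) (nat_lit 17) (.e (nat_lit 237605) (nat_lit 9) (.e (nat_lit 426354) (nat_lit 15) (.e (nat_lit 1860) (nat_lit 124) (.e (nat_lit 557099) (nat_lit 13) .nil))))) .nil))))))))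

noncomputable def tv2892 : DT := (.nd (nat_lit 0) (.nd (nat_lit 1) (.nd (nat_lit 2) (.nd (nat_lit 3) (.nd (nat_lit 4) (.nd (nat_lit 5) 
(.lf (nat_lit 220224) (.g (nat_lit 2039) (.e (nat_lit 90185) (nat_lit 17) (.e (nat_lit 237605) (nat_lit 9) (.e (nat_lit 426354) (nat_lit 15) (.e (nat_lit 1860) (nat_lit 124) (.e (nat_lit 557104) (nat_lit 14) (.e (nat_lit 180278) (nat_lit 32) (.e (nat_lit 1235) (nat_lit 91) .nil))))))) (.g (nat_lit 4) .nil .nil))) 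
(.lf (nat_lit 220256) (.g (nat_lit 1923) (.e (nat_lit 90185) (nat_lit 17) (.e (nat_lit 237605) (nat_lit 9) (.e (nat_lit 426436) (nat_lit 18) (.e (nat_lit 98341) (nat_lit 20) (.e (nat_lit 229120) (nat_lit 11) (.e (nat_lit 336004) (nat_lit 2) .nil)))))) (.g (nat_lit 4) .nil .nil)))) (.nd (nat_lit 5) 
(.lf (nat_lit 220240) (.g (nat_lit 1134) (.e (nat_lit 90185) (nat_lit 17) (.e (nat_lit 237605) (nat_lit 9) (.e (nat_lit 426436) (nat_lit 18) (.e (nat_lit 98325) (nat_lit 17) .nil)))) .nil)) 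
(.lf (nat_lit 220272) (.g (nat_lit 1997) (.e (nat_lit 90185) (nat_lit 17) (.e (nat_lit 237605) (nat_lit 9) (.e (nat_lit 426437) (nat_lit 18) (.e (nat_lit 98341) (nat_lit 20) (.e (nat_lit 221194) (nat_lit 11) (.e (nat_lit 336010) (nat_lit 2) .nil)))))) (.g (nat_lit 5) .nil .nil))))) (.nd (nat_lit 4) (.nd (nat_lit 5) 
(.lf (nat_lit 220232) (.g (nat_lit 2549) (.e (nat_lit 90185) (nat_lit 17) (.e (nat_lit 237605) (nat_lit 9) (.e (nat_lit 426434) (nat_lit 18) (.e (nat_lit 98341) (nat_lit 20) (.e (nat_lit 221194) (nat_lit 11) (.e (nat_lit 336009) (nat_lit 2) .nil)))))) (.g (nat_lit 5) .nil .nil))) 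
(.lf (nat_lit 220264) (.g (nat_lit 3497) (.e (nat_lit 90185) (nat_lit 17) (.e (nat_lit 237605) (nat_lit 9) (.e (nat_lit 426436) (nat_lit 18) (.e (nat_lit 98342) (nat_lit 20) (.e (nat_lit 221194) (nat_lit 11) (.e (nat_lit 336009) (nat_lit 2) .nil)))))) (.g (nat_lit 6) .nil .nil)))) (.nd (nat_lit 5) 
(.lf (nat_lit 220248) (.g (nat_lit 2784) (.e (nat_lit 90185) (nat_lit 17) (.e (nat_lit 237605) (nat_lit 9) (.e (nat_lit 426436) (nat_lit 18) (.e (nat_lit 98341) (nat_lit 20) (.e (nat_lit 221193) (nat_lit 11) (.e (nat_lit 336004) (nat_lit 2) .nil)))))) (.g (nat_lit 6) .nil .nil))) 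
(.lf (nat_lit 220280) (.g (nat_lit 2415) (.e (nat_lit 90185) (nat_lit 17) (.e (nat_lit 237605) (nat_lit 9) (.e (nat_lit 426438) (nat_lit 18) (.e (nat_lit 98339) (nat_lit 19) (.e (nat_lit 213030) (nat_lit 11) (.e (nat_lit 24604) (nat_lit 2) .nil)))))) (.g (nat_lit 6) .nil .nil)))))) (.nd (nat_lit 3) (.nd (nat_lit 4) (.nd (nat_lit 5) 
(.lf (nat_lit 220228) (.g (nat_lit 1657) (.e (nat_lit 90185) (nat_lit 17) (.e (nat_lit 237605) (nat_lit 9) (.e (nat_lit 426428) (nat_lit 17) (.e (nat_lit 90165) (nat_lit 12) (.e (nat_lit 164049) (nat_lit 55) (.e (nat_lit 778464) (nat_lit 11) (.e (nat_lit 24603) (nat_lit 2) .nil))))))) (.g (nat_lit 4) .nil .nil))) 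
(.lf (nat_lit 220260) (.g (nat_lit 2839) (.e (nat_lit 90185) (nat_lit 17) (.e (nat_lit 237605) (nat_lit 9) (.e (nat_lit 426436) (nat_lit 18) (.e (nat_lit 98342) (nat_lit 20) (.e (nat_lit 221193) (nat_lit 11) (.e (nat_lit 336004) (nat_lit 2) .nil)))))) (.g (nat_lit 6) .nil .nil)))) (.nd (nat_lit 5) 
(.lf (nat_lit 220244) (.g (nat_lit 2228) (.e (nat_lit 90185) (nat_lit 17) (.e (nat_lit 237605) (nat_lit 9) (.e (nat_lit 426436) (nat_lit 18) (.e (nat_lit 98339) (nat_lit 19) (.e (nat_lit 213019) (nat_lit 9) (.e (nat_lit 250) (nat_lit 21) (.e (nat_lit 336012) (nat_lit 2) .nil))))))) (.g (nat_lit 4) .nil .nil))) 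
(.lf (nat_lit 220276) (.g (nat_lit 2232) (.e (nat_lit 90185) (nat_lit 17) (.e (nat_lit 237605) (nat_lit 9) (.e (nat_lit 426437) (nat_lit 18) (.e (nat_lit 98342) (nat_lit 20) (.e (nat_lit 221194) (nat_lit 11) (.e (nat_lit 336002) (nat_lit 2) .nil)))))) (.g (nat_lit 5) .nil .nil))))) (.nd (nat_lit 4) (.nd (nat_lit 5) 
(.lf (nat_lit 220236) (.g (nat_lit 2635) (.e (nat_lit 90185) (nat_lit 17) (.e (nat_lit 237605) (nat_lit 9) (.e (nat_lit 426434) (nat_lit 18) (.e (nat_lit 98342) (nat_lit 20) (.e (nat_lit 221194) (nat_lit 11) (.e (nat_lit 336009) (nat_lit 2) .nil)))))) (.g (nat_lit 5) .nil .nil))) 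
(.lf (nat_lit 220268) (.g (nat_lit 1009) (.e (nat_lit 90185) (nat_lit 17) (.e (nat_lit 237605) (nat_lit 9) (.e (nat_lit 426436) (nat_lit 18) (.e (nat_lit 98348) (nat_lit 23) (.e (nat_lit 262165) (nat_lit 11) .nil))))) .nil))) (.nd (nat_lit 5) 
(.lf (nat_lit 220252) (.g (nat_lit 3636) (.e (nat_lit 90185) (nat_lit 17) (.e (nat_lit 237605) (nat_lit 9) (.e (nat_lit 426436) (nat_lit 18) (.e (nat_lit 98341) (nat_lit 20) (.e (nat_lit 221194) (nat_lit 11) (.e (nat_lit 336003) (nat_lit 2) .nil)))))) (.g (nat_lit 0) .nil .nil))) 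
(.lf (nat_lit 220284) (.g (nat_lit 1577) (.e (nat_lit 90185) (nat_lit 17) (.e (nat_lit 237605) (nat_lit 9) (.e (nat_lit 426438) (nat_lit 18) (.e (nat_lit 98341) (nat_lit 20) (.e (nat_lit 221193) (nat_lit 11) (.e (nat_lit 336010) (nat_lit 2) .nil)))))) (.g (nat_lit 4) .nil .nil))))))) (.nd (nat_lit 2) (.nd (nat_lit 3) (.nd (nat_lit 4) (.nd (nat_lit 5) 
(.lf (nat_lit 220226) (.g (nat_lit 2602) (.e (nat_lit 90185) (nat_lit 17) (.e (nat_lit 237605) (nat_lit 9) (.e (nat_lit 426402) (nat_lit 15) (.e (nat_lit 1859) (nat_lit 124) (.e (nat_lit 557103) (nat_lit 14) (.e (nat_lit 180278) (nat_lit 32) (.e (nat_lit 1235) (nat_lit 91) .nil))))))) (.g (nat_lit 6) .nil .nil))) 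
(.lf (nat_lit 220258) (.g (nat_lit 3303) (.e (nat_lit 90185) (nat_lit 17) (.e (nat_lit 237605) (nat_lit 9) (.e (nat_lit 426436) (nat_lit 18) (.e (nat_lit 98342) (nat_lit 20) (.e (nat_lit 221190) (nat_lit 11) (.e (nat_lit 336012) (nat_lit 2) .nil)))))) (.g (nat_lit 0) .nil .nil)))) (.nd (nat_lit 5) 
(.lf (nat_lit 220242) (.g (nat_lit 2308) (.e (nat_lit 90185) (nat_lit 17) (.e (nat_lit 237605) (nat_lit 9) (.e (nat_lit 426436) (nat_lit 18) (.e (nat_lit 98339) (nat_lit 19) (.e (nat_lit 213009) (nat_lit 9) (.e (nat_lit 290) (nat_lit 21) (.e (nat_lit 336002) (nat_lit 2) .nil))))))) (.g (nat_lit 4) .nil .nil))) 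
(.lf (nat_lit 220274) (.g (nat_lit 1611) (.e (nat_lit 90185) (nat_lit 17) (.e (nat_lit 237605) (nat_lit 9) (.e (nat_lit 426437) (nat_lit 18) (.e (nat_lit 98342) (nat_lit 20) (.e (nat_lit 221193) (nat_lit 11) (.e (nat_lit 336009) (nat_lit 2) .nil)))))) (.g (nat_lit 5) .nil .nil))))) (.nd (nat_lit 4) (.nd (nat_lit 5) 
(.lf (nat_lit 220234) (.g (nat_lit 2034) (.e (nat_lit 90185) (nat_lit 17) (.e (nat_lit 237605) (nat_lit 9) (.e (nat_lit 426434) (nat_lit 18) (.e (nat_lit 98342) (nat_lit 20) (.e (nat_lit 221193) (nat_lit 11) (.e (nat_lit 336009) (nat_lit 2) .nil)))))) (.g (nat_lit 5) .nil .nil))) 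
(.lf (nat_lit 220266) (.g (nat_lit 4027) (.e (nat_lit 90185) (nat_lit 17) (.e (nat_lit 237605) (nat_lit 9) (.e (nat_lit 426436) (nat_lit 18) (.e (nat_lit 98342) (nat_lit 20) (.e (nat_lit 221194) (nat_lit 11) (.e (nat_lit 336012) (nat_lit 2) .nil)))))) (.g (nat_lit 0) .nil .nil)))) (.nd (nat_lit 5) 
(.lf (nat_lit 220250) (.g (nat_lit 3157) (.e (nat_lit 90185) (nat_lit 17) (.e (nat_lit 237605) (nat_lit 9) (.e (nat_lit 426436) (nat_lit 18) (.e (nat_lit 98341) (nat_lit 20) (.e (nat_lit 221193) (nat_lit 11) (.e (nat_lit 336011) (nat_lit 2) .nil)))))) (.g (nat_lit 6) .nil .nil))) 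
(.lf (nat_lit 220282) (.g (nat_lit 1660) (.e (nat_lit 90185) (nat_lit 17) (.e (nat_lit 237605) (nat_lit 9) (.e (nat_lit 426438) (nat_lit 18) (.e (nat_lit 98341) (nat_lit 20) (.e (nat_lit 221193) (nat_lit 11) (.e (nat_lit 336004) (nat_lit 2) .nil)))))) (.g (nat_lit 4) .nil .nil)))))) (.nd (nat_lit 3) (.nd (nat_lit 4) (.nd (nat_lit 5) 
(.lf (nat_lit 220230) (.g (nat_lit 1563) (.e (nat_lit 90185) (nat_lit 17) (.e (nat_lit 237605) (nat_lit 9) (.e (nat_lit 426434) (nat_lit 18) (.e (nat_lit 98341) (nat_lit 20) (.e (nat_lit 221193) (nat_lit 11) (.e (nat_lit 336010) (nat_lit 2) .nil)))))) (.g (nat_lit 5) .nil .nil))) 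
(.lf (nat_lit 220262) (.g (nat_lit 2778) (.e (nat_lit 90185) (nat_lit 17) (.e (nat_lit 237605) (nat_lit 9) (.e (nat_lit 426436) (nat_lit 18) (.e (nat_lit 98342) (nat_lit 20) (.e (nat_lit 221194) (nat_lit 11) (.e (nat_lit 336001) (nat_lit 2) .nil)))))) (.g (nat_lit 4) .nil .nil)))) (.nd (nat_lit 5) 
(.lf (nat_lit 220246) (.g (nat_lit 2331) (.e (nat_lit 90185) (nat_lit 17) (.e (nat_lit 237605) (nat_lit 9) (.e (nat_lit 426436) (nat_lit 18) (.e (nat_lit 98341) (nat_lit 20) (.e (nat_lit 221190) (nat_lit 11) (.e (nat_lit 336012) (nat_lit 2) .nil)))))) (.g (nat_lit 5) .nil .nil))) 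
(.lf (nat_lit 220278) (.g (nat_lit 1011) (.e (nat_lit 90185) (nat_lit 17) (.e (nat_lit 237605) (nat_lit 9) (.e (nat_lit 426438) (nat_lit 18) (.e (nat_lit 98338) (nat_lit 19) (.e (nat_lit 213032) (nat_lit 11) .nil))))) .nil)))) (.nd (nat_lit 4) (.nd (nat_lit 5) 
(.lf (nat_lit 220238) (.g (nat_lit 1069) (.e (nat_lit 90185) (nat_lit 17) (.e (nat_lit 237605) (nat_lit 9) (.e (nat_lit 426436) (nat_lit 18) (.e (nat_lit 98318) (nat_lit 17) .nil)))) .nil)) 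
(.lf (nat_lit 220270) (.g (nat_lit 1331) (.e (nat_lit 90185) (nat_lit 17) (.e (nat_lit 237605) (nat_lit 9) (.e (nat_lit 426437) (nat_lit 18) (.e (nat_lit 98341) (nat_lit 20) (.e (nat_lit 221193) (nat_lit 11) (.e (nat_lit 336010) (nat_lit 2) .nil)))))) (.g (nat_lit 4) .nil .nil)))) (.nd (nat_lit 5) 
(.lf (nat_lit 220254) (.g (nat_lit 4626) (.e (nat_lit 90185) (nat_lit 17) (.e (nat_lit 237605) (nat_lit 9) (.e (nat_lit 426436) (nat_lit 18) (.e (nat_lit 98341) (nat_lit 20) (.e (nat_lit 221194) (nat_lit 11) (.e (nat_lit 336011) (nat_lit 2) .nil)))))) (.g (nat_lit 6) .nil .nil))) 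
(.lf (nat_lit 220286) (.g (nat_lit 2649) (.e (nat_lit 90185) (nat_lit 17) (.e (nat_lit 237605) (nat_lit 9) (.e (nat_lit 426438) (nat_lit 18) (.e (nat_lit 98341) (nat_lit 20) (.e (nat_lit 221194) (nat_lit 11) (.e (nat_lit 336009) (nat_lit 2) .nil)))))) (.g (nat_lit 5) .nil .nil)))))))) (.nd (nat_lit 1) (.nd (nat_lit 2) (.nd (nat_lit 3) (.nd (nat_lit 4) (.nd (nat_lit 5) 
(.lf (nat_lit 220225) (.g (nat_lit 2438) (.e (nat_lit 90185) (nat_lit 17) (.e (nat_lit 237605) (nat_lit 9) (.e (nat_lit 426402) (nat_lit 15) (.e (nat_lit 1848) (nat_lit 124) (.e (nat_lit 557104) (nat_lit 14) (.e (nat_lit 180277) (nat_lit 32) (.e (nat_lit 1234) (nat_lit 91) .nil))))))) (.g (nat_lit 5) .nil .nil))) 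
(.lf (nat_lit 220257) (.g (nat_lit 1490) (.e (nat_lit 90185) (nat_lit 17) (.e (nat_lit 237605) (nat_lit 9) (.e (nat_lit 426436) (nat_lit 18) (.e (nat_lit 98342) (nat_lit 20) (.e (nat_lit 221190) (nat_lit 11) .nil))))) .nil))) (.nd (nat_lit 5) 
(.lf (nat_lit 220241) (.g (nat_lit 2251) (.e (nat_lit 90185) (nat_lit 17) (.e (nat_lit 237605) (nat_lit 9) (.e (nat_lit 426436) (nat_lit 18) (.e (nat_lit 98337) (nat_lit 19) (.e (nat_lit 213032) (nat_lit 11) (.e (nat_lit 24603) (nat_lit 2) .nil)))))) (.g (nat_lit 6) .nil .nil))) 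
(.lf (nat_lit 220273) (.g (nat_lit 1559) (.e (nat_lit 90185) (nat_lit 17) (.e (nat_lit 237605) (nat_lit 9) (.e (nat_lit 426437) (nat_lit 18) (.e (nat_lit 98342) (nat_lit 20) (.e (nat_lit 221193) (nat_lit 11) (.e (nat_lit 336002) (nat_lit 2) .nil)))))) (.g (nat_lit 4) .nil .nil))))) (.nd (nat_lit 4) (.nd (nat_lit 5) 
(.lf (nat_lit 220233) (.g (nat_lit 3216) (.e (nat_lit 90185) (nat_lit 17) (.e (nat_lit 237605) (nat_lit 9) (.e (nat_lit 426434) (nat_lit 18) (.e (nat_lit 98341) (nat_lit 20) (.e (nat_lit 221194) (nat_lit 11) (.e (nat_lit 336012) (nat_lit 2) .nil)))))) (.g (nat_lit 0) .nil .nil))) 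
(.lf (nat_lit 220265) (.g (nat_lit 4950) (.e (nat_lit 90185) (nat_lit 17) (.e (nat_lit 237605) (nat_lit 9) (.e (nat_lit 426436) (nat_lit 18) (.e (nat_lit 98342) (nat_lit 20) (.e (nat_lit 221194) (nat_lit 11) (.e (nat_lit 336011) (nat_lit 2) .nil)))))) (.g (nat_lit 0) .nil .nil)))) (.nd (nat_lit 5) 
(.lf (nat_lit 220249) (.g (nat_lit 2779) (.e (nat_lit 90185) (nat_lit 17) (.e (nat_lit 237605) (nat_lit 9) (.e (nat_lit 426436) (nat_lit 18) (.e (nat_lit 98341) (nat_lit 20) (.e (nat_lit 221193) (nat_lit 11) (.e (nat_lit 336009) (nat_lit 2) .nil)))))) (.g (nat_lit 6) .nil .nil))) 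
(.lf (nat_lit 220281) (.g (nat_lit 1703) (.e (nat_lit 90185) (nat_lit 17) (.e (nat_lit 237605) (nat_lit 9) (.e (nat_lit 426438) (nat_lit 18) (.e (nat_lit 98341) (nat_lit 20) (.e (nat_lit 221193) (nat_lit 11) (.e (nat_lit 336002) (nat_lit 2) .nil)))))) (.g (nat_lit 4) .nil .nil)))))) (.nd (nat_lit 3) (.nd (nat_lit 4) (.nd (nat_lit 5) 
(.lf (nat_lit 220229) (.g (nat_lit 3335) (.e (nat_lit 90185) (nat_lit 17) (.e (nat_lit 237605) (nat_lit 9) (.e (nat_lit 426428) (nat_lit 17) (.e (nat_lit 90165) (nat_lit 12) (.e (nat_lit 164049) (nat_lit 55) (.e (nat_lit 778466) (nat_lit 11) (.e (nat_lit 24604) (nat_lit 2) .nil))))))) (.g (nat_lit 7) .nil .nil))) 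
(.lf (nat_lit 220261) (.g (nat_lit 3289) (.e (nat_lit 90185) (nat_lit 17) (.e (nat_lit 237605) (nat_lit 9) (.e (nat_lit 426436) (nat_lit 18) (.e (nat_lit 98342) (nat_lit 20) (.e (nat_lit 221193) (nat_lit 11) (.e (nat_lit 336011) (nat_lit 2) .nil)))))) (.g (nat_lit 6) .nil .nil)))) (.nd (nat_lit 5) 
(.lf (nat_lit 220245) (.g (nat_lit 2107) (.e (nat_lit 90185) (nat_lit 17) (.e (nat_lit 237605) (nat_lit 9) (.e (nat_lit 426436) (nat_lit 18) (.e (nat_lit 98339) (nat_lit 19) (.e (nat_lit 213031) (nat_lit 11) (.e (nat_lit 24604) (nat_lit 2) .nil)))))) (.g (nat_lit 4) .nil .nil))) 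
(.lf (nat_lit 220277) (.g (nat_lit 1953) (.e (nat_lit 90185) (nat_lit 17) (.e (nat_lit 237605) (nat_lit 9) (.e (nat_lit 426438) (nat_lit 18) (.e (nat_lit 98337) (nat_lit 19) (.e (nat_lit 213032) (nat_lit 11) (.e (nat_lit 24603) (nat_lit 2) .nil)))))) (.g (nat_lit 6) .nil .nil))))) (.nd (nat_lit 4) (.nd (nat_lit 5) 
(.lf (nat_lit 220237) (.g (nat_lit 197) (.e (nat_lit 90185) (nat_lit 17) (.e (nat_lit 237605) (nat_lit 9) (.e (nat_lit 426436) (nat_lit 18) .nil))) .nil)) 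
(.lf (nat_lit 220269) (.g (nat_lit 1425) (.e (nat_lit 90185) (nat_lit 17) (.e (nat_lit 237605) (nat_lit 9) (.e (nat_lit 426437) (nat_lit 18) (.e (nat_lit 98341) (nat_lit 20) (.e (nat_lit 221193) (nat_lit 11) (.e (nat_lit 336009) (nat_lit 2) .nil)))))) (.g (nat_lit 4) .nil .nil)))) (.nd (nat_lit 5) 
(.lf (nat_lit 220253) (.g (nat_lit 3244) (.e (nat_lit 90185) (nat_lit 17) (.e (nat_lit 237605) (nat_lit 9) (.e (nat_lit 426436) (nat_lit 18) (.e (nat_lit 98341) (nat_lit 20) (.e (nat_lit 221194) (nat_lit 11) (.e (nat_lit 336009) (nat_lit 2) .nil)))))) (.g (nat_lit 5) .nil .nil))) 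
(.lf (nat_lit 220285) (.g (nat_lit 2036) (.e (nat_lit 90185) (nat_lit 17) (.e (nat_lit 237605) (nat_lit 9) (.e (nat_lit 426438) (nat_lit 18) (.e (nat_lit 98341) (nat_lit 20) (.e (nat_lit 221193) (nat_lit 11) (.e (nat_lit 336011) (nat_lit 2) .nil)))))) (.g (nat_lit 4) .nil .nil))))))) (.nd (nat_lit 2) (.nd (nat_lit 3) (.nd (nat_lit 4) (.nd (nat_lit 5) 
(.lf (nat_lit 220227) (.g (nat_lit 1295) (.e (nat_lit 90185) (nat_lit 17) (.e (nat_lit 237605) (nat_lit 9) (.e (nat_lit 426428) (nat_lit 17) (.e (nat_lit 90134) (nat_lit 9) (.e (nat_lit 7936) (nat_lit 170) .nil))))) .nil)) 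
(.lf (nat_lit 220259) (.g (nat_lit 2945) (.e (nat_lit 90185) (nat_lit 17) (.e (nat_lit 237605) (nat_lit 9) (.e (nat_lit 426436) (nat_lit 18) (.e (nat_lit 98342) (nat_lit 20) (.e (nat_lit 221193) (nat_lit 11) (.e (nat_lit 336002) (nat_lit 2) .nil)))))) (.g (nat_lit 6) .nil .nil)))) (.nd (nat_lit 5) 
(.lf (nat_lit 220243) (.g (nat_lit 2448) (.e (nat_lit 90185) (nat_lit 17) (.e (nat_lit 237605) (nat_lit 9) (.e (nat_lit 426436) (nat_lit 18) (.e (nat_lit 98339) (nat_lit 19) (.e (nat_lit 213010) (nat_lit 9) (.e (nat_lit 250) (nat_lit 21) (.e (nat_lit 336012) (nat_lit 2) .nil))))))) (.g (nat_lit 4) .nil .nil))) 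
(.lf (nat_lit 220275) (.g (nat_lit 1444) (.e (nat_lit 90185) (nat_lit 17) (.e (nat_lit 237605) (nat_lit 9) (.e (nat_lit 426437) (nat_lit 18) (.e (nat_lit 98342) (nat_lit 20) (.e (nat_lit 221193) (nat_lit 11) (.e (nat_lit 336010) (nat_lit 2) .nil)))))) (.g (nat_lit 5) .nil .nil))))) (.nd (nat_lit 4) (.nd (nat_lit 5) 
(.lf (nat_lit 220235) (.g (nat_lit 1911) (.e (nat_lit 90185) (nat_lit 17) (.e (nat_lit 237605) (nat_lit 9) (.e (nat_lit 426434) (nat_lit 18) (.e (nat_lit 98342) (nat_lit 20) (.e (nat_lit 221193) (nat_lit 11) (.e (nat_lit 336010) (nat_lit 2) .nil)))))) (.g (nat_lit 5) .nil .nil))) 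
(.lf (nat_lit 220267) (.g (nat_lit 1719) (.e (nat_lit 90185) (nat_lit 17) (.e (nat_lit 237605) (nat_lit 9) (.e (nat_lit 426436) (nat_lit 18) (.e (nat_lit 98342) (nat_lit 20) (.e (nat_lit 229120) (nat_lit 11) (.e (nat_lit 336003) (nat_lit 2) .nil)))))) (.g (nat_lit 4) .nil .nil)))) (.nd (nat_lit 5) 
(.lf (nat_lit 220251) (.g (nat_lit 2620) (.e (nat_lit 90185) (nat_lit 17) (.e (nat_lit 237605) (nat_lit 9) (.e (nat_lit 426436) (nat_lit 18) (.e (nat_lit 98341) (nat_lit 20) (.e (nat_lit 221194) (nat_lit 11) (.e (nat_lit 336001) (nat_lit 2) .nil)))))) (.g (nat_lit 4) .nil .nil))) 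
(.lf (nat_lit 220283) (.g (nat_lit 1684) (.e (nat_lit 90185) (nat_lit 17) (.e (nat_lit 237605) (nat_lit 9) (.e (nat_lit 426438) (nat_lit 18) (.e (nat_lit 98341) (nat_lit 20) (.e (nat_lit 221193) (nat_lit 11) (.e (nat_lit 336009) (nat_lit 2) .nil)))))) (.g (nat_lit 4) .nil .nil)))))) (.nd (nat_lit 3) (.nd (nat_lit 4) (.nd (nat_lit 5) 
(.lf (nat_lit 220231) (.g (nat_lit 2771) (.e (nat_lit 90185) (nat_lit 17) (.e (nat_lit 237605) (nat_lit 9) (.e (nat_lit 426434) (nat_lit 18) (.e (nat_lit 98341) (nat_lit 20) (.e (nat_lit 221194) (nat_lit 11) (.e (nat_lit 336004) (nat_lit 2) .nil)))))) (.g (nat_lit 0) .nil .nil))) 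
(.lf (nat_lit 220263) (.g (nat_lit 3650) (.e (nat_lit 90185) (nat_lit 17) (.e (nat_lit 237605) (nat_lit 9) (.e (nat_lit 426436) (nat_lit 18) (.e (nat_lit 98342) (nat_lit 20) (.e (nat_lit 221194) (nat_lit 11) (.e (nat_lit 336003) (nat_lit 2) .nil)))))) (.g (nat_lit 0) .nil .nil)))) (.nd (nat_lit 5) 
(.lf (nat_lit 220247) (.g (nat_lit 2826) (.e (nat_lit 90185) (nat_lit 17) (.e (nat_lit 237605) (nat_lit 9) (.e (nat_lit 426436) (nat_lit 18) (.e (nat_lit 98341) (nat_lit 20) (.e (nat_lit 221193) (nat_lit 11) (.e (nat_lit 336002) (nat_lit 2) .nil)))))) (.g (nat_lit 6) .nil .nil))) 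
(.lf (nat_lit 220279) (.g (nat_lit 1608) (.e (nat_lit 90185) (nat_lit 17) (.e (nat_lit 237605) (nat_lit 9) (.e (nat_lit 426438) (nat_lit 18) (.e (nat_lit 98339) (nat_lit 19) (.e (nat_lit 213030) (nat_lit 11) (.e (nat_lit 24603) (nat_lit 2) .nil)))))) (.g (nat_lit 5) .nil .nil))))) (.nd (nat_lit 4) (.nd (nat_lit 5) 
(.lf (nat_lit 220239) (.g (nat_lit 1154) (.e (nat_lit 90185) (nat_lit 17) (.e (nat_lit 237605) (nat_lit 9) (.e (nat_lit 426436) (nat_lit 18) (.e (nat_lit 98319) (nat_lit 17) (.e (nat_lit 3609) (nat_lit 226) .nil))))) .nil)) 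
(.lf (nat_lit 220271) (.g (nat_lit 2370) (.e (nat_lit 90185) (nat_lit 17) (.e (nat_lit 237605) (nat_lit 9) (.e (nat_lit 426437) (nat_lit 18) (.e (nat_lit 98341) (nat_lit 20) (.e (nat_lit 221194) (nat_lit 11) (.e (nat_lit 336002) (nat_lit 2) .nil)))))) (.g (nat_lit 5) .nil .nil)))) (.nd (nat_lit 5) 
(.lf (nat_lit 220255) (.g (nat_lit 1624) (.e (nat_lit 90185) (nat_lit 17) (.e (nat_lit 237605) (nat_lit 9) (.e (nat_lit 426436) (nat_lit 18) (.e (nat_lit 98341) (nat_lit 20) (.e (nat_lit 229120) (nat_lit 11) (.e (nat_lit 336003) (nat_lit 2) .nil)))))) (.g (nat_lit 4) .nil .nil))) 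
(.lf (nat_lit 220287) (.g (nat_lit 4001) (.e (nat_lit 90185) (nat_lit 17) (.e (nat_lit 237605) (nat_lit 9) (.e (nat_lit 426438) (nat_lit 18) (.e (nat_lit 98341) (nat_lit 20) (.e (nat_lit 221194) (nat_lit 11) (.e (nat_lit 336011) (nat_lit 2) .nil)))))) (.g (nat_lit 6) .nil .nil)))))))))

noncomputable def tv2893 : DT := (.nd (nat_lit 0) (.nd (nat_lit 1) (.nd (nat_lit 2) (.nd (nat_lit 3) (.nd (nat_lit 4) (.nd (nat_lit 5) 
(.lf (nat_lit 220288) (.g (nat_lit 2092) (.e (nat_lit 90185) (nat_lit 17) (.e (nat_lit 237605) (nat_lit 9) (.e (nat_lit 426438) (nat_lit 18) (.e (nat_lit 98342) (nat_lit 20) (.e (nat_lit 221193) (nat_lit 11) (.e (nat_lit 336009) (nat_lit 2) .nil)))))) (.g (nat_lit 5) .nil .nil))) 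
(.lf (nat_lit 220320) (.g (nat_lit 1659) (.e (nat_lit 90185) (nat_lit 17) (.e (nat_lit 237616) (nat_lit 12) (.e (nat_lit 475177) (nat_lit 24) (.e (nat_lit 516097) (nat_lit 0) (.e (nat_lit 3783) (nat_lit 230) .nil))))) .nil))) (.nd (nat_lit 5) 
(.lf (nat_lit 220304) (.g (nat_lit 1089) (.e (nat_lit 90185) (nat_lit 17) (.e (nat_lit 237605) (nat_lit 9) (.e (nat_lit 426566) (nat_lit 34) (.e (nat_lit 393233) (nat_lit 17) (.e (nat_lit 3432) (nat_lit 213) .nil))))) .nil)) 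
(.lf (nat_lit 220336) (.g (nat_lit 1197) (.e (nat_lit 90185) (nat_lit 17) (.e (nat_lit 237616) (nat_lit 12) (.e (nat_lit 475179) (nat_lit 24) (.e (nat_lit 516105) (nat_lit 0) .nil)))) .nil)))) (.nd (nat_lit 4) (.nd (nat_lit 5) 
(.lf (nat_lit 220296) (.g (nat_lit 2036) (.e (nat_lit 90185) (nat_lit 17) (.e (nat_lit 237605) (nat_lit 9) (.e (nat_lit 426537) (nat_lit 28) (.e (nat_lit 344174) (nat_lit 42) (.e (nat_lit 761905) (nat_lit 16) (.e (nat_lit 179968) (nat_lit 17) .nil)))))) (.g (nat_lit 5) .nil .nil))) 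
(.lf (nat_lit 220328) (.g (nat_lit 1321) (.e (nat_lit 90185) (nat_lit 17) (.e (nat_lit 237616) (nat_lit 12) (.e (nat_lit 475177) (nat_lit 24) (.e (nat_lit 516129) (nat_lit 3) (.e (nat_lit 229120) (nat_lit 11) .nil))))) .nil))) (.nd (nat_lit 5) 
(.lf (nat_lit 220312) (.g (nat_lit 2925) (.e (nat_lit 90185) (nat_lit 17) (.e (nat_lit 237605) (nat_lit 9) (.e (nat_lit 426566) (nat_lit 34) (.e (nat_lit 393252) (nat_lit 18) (.e (nat_lit 164399) (nat_lit 256) (.e (nat_lit 57375) (nat_lit 2) .nil)))))) (.g (nat_lit 0) .nil .nil))) 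
(.lf (nat_lit 220344) (.g (nat_lit 2240) (.e (nat_lit 90185) (nat_lit 17) (.e (nat_lit 237616) (nat_lit 12) (.e (nat_lit 475179) (nat_lit 24) (.e (nat_lit 516131) (nat_lit 3) (.e (nat_lit 221194) (nat_lit 11) (.e (nat_lit 336009) (nat_lit 2) .nil)))))) (.g (nat_lit 5) .nil .nil)))))) (.nd (nat_lit 3) (.nd (nat_lit 4) (.nd (nat_lit 5) 
(.lf (nat_lit 220292) (.g (nat_lit 283) (.e (nat_lit 90185) (nat_lit 17) (.e (nat_lit 237605) (nat_lit 9) (.e (nat_lit 426472) (nat_lit 25) .nil))) .nil)) 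
(.lf (nat_lit 220324) (.g (nat_lit 2123) (.e (nat_lit 90185) (nat_lit 17) (.e (nat_lit 237616) (nat_lit 12) (.e (nat_lit 475177) (nat_lit 24) (.e (nat_lit 516129) (nat_lit 3) (.e (nat_lit 221193) (nat_lit 11) (.e (nat_lit 336010) (nat_lit 2) .nil)))))) (.g (nat_lit 5) .nil .nil)))) (.nd (nat_lit 5) 
(.lf (nat_lit 220308) (.g (nat_lit 1863) (.e (nat_lit 90185) (nat_lit 17) (.e (nat_lit 237605) (nat_lit 9) (.e (nat_lit 426566) (nat_lit 34) (.e (nat_lit 393250) (nat_lit 18) (.e (nat_lit 164399) (nat_lit 256) (.e (nat_lit 57372) (nat_lit 2) .nil)))))) (.g (nat_lit 5) .nil .nil))) 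
(.lf (nat_lit 220340) (.g (nat_lit 3269) (.e (nat_lit 90185) (nat_lit 17) (.e (nat_lit 237616) (nat_lit 12) (.e (nat_lit 475179) (nat_lit 24) (.e (nat_lit 516129) (nat_lit 3) (.e (nat_lit 221194) (nat_lit 11) (.e (nat_lit 336012) (nat_lit 2) .nil)))))) (.g (nat_lit 0) .nil .nil))))) (.nd (nat_lit 4) (.nd (nat_lit 5) 
(.lf (nat_lit 220300) (.g (nat_lit 1348) (.e (nat_lit 90185) (nat_lit 17) (.e (nat_lit 237605) (nat_lit 9) (.e (nat_lit 426564) (nat_lit 34) (.e (nat_lit 393251) (nat_lit 18) (.e (nat_lit 164399) (nat_lit 256) .nil))))) .nil)) 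
(.lf (nat_lit 220332) (.g (nat_lit 2494) (.e (nat_lit 90185) (nat_lit 17) (.e (nat_lit 237616) (nat_lit 12) (.e (nat_lit 475177) (nat_lit 24) (.e (nat_lit 516131) (nat_lit 3) (.e (nat_lit 221193) (nat_lit 11) (.e (nat_lit 336011) (nat_lit 2) .nil)))))) (.g (nat_lit 6) .nil .nil)))) (.nd (nat_lit 5) 
(.lf (nat_lit 220316) (.g (nat_lit 1760) (.e (nat_lit 90185) (nat_lit 17) (.e (nat_lit 237615) (nat_lit 12) (.e (nat_lit 475179) (nat_lit 24) (.e (nat_lit 516129) (nat_lit 3) (.e (nat_lit 221194) (nat_lit 11) .nil))))) .nil)) 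
(.lf (nat_lit 220348) (.g (nat_lit 1579) (.e (nat_lit 90185) (nat_lit 17) (.e (nat_lit 237616) (nat_lit 12) (.e (nat_lit 475183) (nat_lit 29) (.e (nat_lit 557104) (nat_lit 14) (.e (nat_lit 180277) (nat_lit 32) .nil))))) .nil)))))) (.nd (nat_lit 2) (.nd (nat_lit 3) (.nd (nat_lit 4) (.nd (nat_lit 5) 
(.lf (nat_lit 220290) (.g (nat_lit 2422) (.e (nat_lit 90185) (nat_lit 17) (.e (nat_lit 237605) (nat_lit 9) (.e (nat_lit 426438) (nat_lit 18) (.e (nat_lit 98342) (nat_lit 20) (.e (nat_lit 221193) (nat_lit 11) (.e (nat_lit 336011) (nat_lit 2) .nil)))))) (.g (nat_lit 5) .nil .nil))) 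
(.lf (nat_lit 220322) (.g (nat_lit 2213) (.e (nat_lit 90185) (nat_lit 17) (.e (nat_lit 237616) (nat_lit 12) (.e (nat_lit 475177) (nat_lit 24) (.e (nat_lit 516129) (nat_lit 3) (.e (nat_lit 221193) (nat_lit 11) (.e (nat_lit 336002) (nat_lit 2) .nil)))))) (.g (nat_lit 5) .nil .nil)))) (.nd (nat_lit 5) 
(.lf (nat_lit 220306) (.g (nat_lit 1002) (.e (nat_lit 90185) (nat_lit 17) (.e (nat_lit 237605) (nat_lit 9) (.e (nat_lit 426566) (nat_lit 34) (.e (nat_lit 393235) (nat_lit 17) .nil)))) .nil)) 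
(.lf (nat_lit 220338) (.g (nat_lit 1760) (.e (nat_lit 90185) (nat_lit 17) (.e (nat_lit 237616) (nat_lit 12) (.e (nat_lit 475179) (nat_lit 24) (.e (nat_lit 516129) (nat_lit 3) (.e (nat_lit 221192) (nat_lit 11) (.e (nat_lit 336014) (nat_lit 2) .nil)))))) (.g (nat_lit 4) .nil .nil))))) (.nd (nat_lit 4) (.nd (nat_lit 5) 
(.lf (nat_lit 220298) (.g (nat_lit 2005) (.e (nat_lit 90185) (nat_lit 17) (.e (nat_lit 237605) (nat_lit 9) (.e (nat_lit 426564) (nat_lit 34) (.e (nat_lit 393234) (nat_lit 17) (.e (nat_lit 2485) (nat_lit 157) (.e (nat_lit 5949) (nat_lit 322) (.e (nat_lit 57373) (nat_lit 2) .nil))))))) (.g (nat_lit 4) .nil .nil))) 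
(.lf (nat_lit 220330) (.g (nat_lit 2619) (.e (nat_lit 90185) (nat_lit 17) (.e (nat_lit 237616) (nat_lit 12) (.e (nat_lit 475177) (nat_lit 24) (.e (nat_lit 516131) (nat_lit 3) (.e (nat_lit 221190) (nat_lit 11) (.e (nat_lit 336012) (nat_lit 2) .nil)))))) (.g (nat_lit 0) .nil .nil)))) (.nd (nat_lit 5) 
(.lf (nat_lit 220314) (.g (nat_lit 2467) (.e (nat_lit 90185) (nat_lit 17) (.e (nat_lit 237605) (nat_lit 9) (.e (nat_lit 426568) (nat_lit 34) (.e (nat_lit 393234) (nat_lit 17) (.e (nat_lit 2524) (nat_lit 157) (.e (nat_lit 5949) (nat_lit 322) (.e (nat_lit 57373) (nat_lit 2) .nil))))))) (.g (nat_lit 4) .nil .nil))) 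
(.lf (nat_lit 220346) (.g (nat_lit 1588) (.e (nat_lit 90185) (nat_lit 17) (.e (nat_lit 237616) (nat_lit 12) (.e (nat_lit 475179) (nat_lit 24) (.e (nat_lit 516131) (nat_lit 3) (.e (nat_lit 229120) (nat_lit 11) (.e (nat_lit 336001) (nat_lit 2) .nil)))))) (.g (nat_lit 4) .nil .nil)))))) (.nd (nat_lit 3) (.nd (nat_lit 4) (.nd (nat_lit 5) 
(.lf (nat_lit 220294) (.g (nat_lit 1113) (.e (nat_lit 90185) (nat_lit 17) (.e (nat_lit 237605) (nat_lit 9) (.e (nat_lit 426482) (nat_lit 27) (.e (nat_lit 335997) (nat_lit 1) .nil)))) .nil)) 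
(.lf (nat_lit 220326) (.g (nat_lit 2561) (.e (nat_lit 90185) (nat_lit 17) (.e (nat_lit 237616) (nat_lit 12) (.e (nat_lit 475177) (nat_lit 24) (.e (nat_lit 516129) (nat_lit 3) (.e (nat_lit 221194) (nat_lit 11) (.e (nat_lit 336009) (nat_lit 2) .nil)))))) (.g (nat_lit 5) .nil .nil)))) (.nd (nat_lit 5) 
(.lf (nat_lit 220310) (.g (nat_lit 2260) (.e (nat_lit 90185) (nat_lit 17) (.e (nat_lit 237605) (nat_lit 9) (.e (nat_lit 426566) (nat_lit 34) (.e (nat_lit 393251) (nat_lit 18) (.e (nat_lit 164397) (nat_lit 256) (.e (nat_lit 57375) (nat_lit 2) .nil)))))) (.g (nat_lit 4) .nil .nil))) 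
(.lf (nat_lit 220342) (.g (nat_lit 2594) (.e (nat_lit 90185) (nat_lit 17) (.e (nat_lit 237616) (nat_lit 12) (.e (nat_lit 475179) (nat_lit 24) (.e (nat_lit 516131) (nat_lit 3) (.e (nat_lit 221190) (nat_lit 11) (.e (nat_lit 336012) (nat_lit 2) .nil)))))) (.g (nat_lit 0) .nil .nil))))) (.nd (nat_lit 4) (.nd (nat_lit 5) 
(.lf (nat_lit 220302) (.g (nat_lit 2264) (.e (nat_lit 90185) (nat_lit 17) (.e (nat_lit 237605) (nat_lit 9) (.e (nat_lit 426566) (nat_lit 34) (.e (nat_lit 393232) (nat_lit 17) (.e (nat_lit 2486) (nat_lit 157) (.e (nat_lit 5949) (nat_lit 322) (.e (nat_lit 57373) (nat_lit 2) .nil))))))) (.g (nat_lit 4) .nil .nil))) 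
(.lf (nat_lit 220334) (.g (nat_lit 1115) (.e (nat_lit 90185) (nat_lit 17) (.e (nat_lit 237616) (nat_lit 12) (.e (nat_lit 475179) (nat_lit 24) (.e (nat_lit 516102) (nat_lit 0) .nil)))) .nil))) (.nd (nat_lit 5) 
(.lf (nat_lit 220318) (.g (nat_lit 1662) (.e (nat_lit 90185) (nat_lit 17) (.e (nat_lit 237616) (nat_lit 12) (.e (nat_lit 475177) (nat_lit 24) (.e (nat_lit 516097) (nat_lit 0) (.e (nat_lit 3654) (nat_lit 227) .nil))))) .nil)) 
(.lf (nat_lit 220350) (.g (nat_lit 3861) (.e (nat_lit 90185) (nat_lit 17) (.e (nat_lit 237616) (nat_lit 12) (.e (nat_lit 475185) (nat_lit 29) (.e (nat_lit 557096) (nat_lit 13) (.e (nat_lit 172126) (nat_lit 14) (.e (nat_lit 491537) (nat_lit 2) .nil)))))) (.g (nat_lit 0) .nil .nil)))))))) (.nd (nat_lit 1) (.nd (nat_lit 2) (.nd (nat_lit 3) (.nd (nat_lit 4) (.nd (nat_lit 5) 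
(.lf (nat_lit 220289) (.g (nat_lit 1909) (.e (nat_lit 90185) (nat_lit 17) (.e (nat_lit 237605) (nat_lit 9) (.e (nat_lit 426438) (nat_lit 18) (.e (nat_lit 98342) (nat_lit 20) (.e (nat_lit 221193) (nat_lit 11) (.e (nat_lit 336010) (nat_lit 2) .nil)))))) (.g (nat_lit 5) .nil .nil))) 
(.lf (nat_lit 220321) (.g (nat_lit 1708) (.e (nat_lit 90185) (nat_lit 17) (.e (nat_lit 237616) (nat_lit 12) (.e (nat_lit 475177) (nat_lit 24) (.e (nat_lit 516129) (nat_lit 3) (.e (nat_lit 221190) (nat_lit 11) (.e (nat_lit 336004) (nat_lit 2) .nil)))))) (.g (nat_lit 4) .nil .nil)))) (.nd (nat_lit 5) 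
(.lf (nat_lit 220305) (.g (nat_lit 1999) (.e (nat_lit 90185) (nat_lit 17) (.e (nat_lit 237605) (nat_lit 9) (.e (nat_lit 426566) (nat_lit 34) (.e (nat_lit 393234) (nat_lit 17) (.e (nat_lit 2524) (nat_lit 157) .nil))))) .nil)) 
(.lf (nat_lit 220337) (.g (nat_lit 2582) (.e (nat_lit 90185) (nat_lit 17) (.e (nat_lit 237616) (nat_lit 12) (.e (nat_lit 475179) (nat_lit 24) (.e (nat_lit 516106) (nat_lit 0) (.e (nat_lit 3721) (nat_lit 227) (.e (nat_lit 778464) (nat_lit 11) (.e (nat_lit 24604) (nat_lit 2) .nil))))))) (.g (nat_lit 4) .nil .nil))))) (.nd (nat_lit 4) (.nd (nat_lit 5) 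
(.lf (nat_lit 220297) (.g (nat_lit 1644) (.e (nat_lit 90185) (nat_lit 17) (.e (nat_lit 237605) (nat_lit 9) (.e (nat_lit 426537) (nat_lit 28) (.e (nat_lit 344174) (nat_lit 42) (.e (nat_lit 761906) (nat_lit 16) (.e (nat_lit 179968) (nat_lit 17) .nil)))))) (.g (nat_lit 4) .nil .nil))) 
(.lf (nat_lit 220329) (.g (nat_lit 1784) (.e (nat_lit 90185) (nat_lit 17) (.e (nat_lit 237616) (nat_lit 12) (.e (nat_lit 475177) (nat_lit 24) (.e (nat_lit 516129) (nat_lit 3) (.e (nat_lit 229120) (nat_lit 11) (.e (nat_lit 336012) (nat_lit 2) .nil)))))) (.g (nat_lit 4) .nil .nil)))) (.nd (nat_lit 5) 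
(.lf (nat_lit 220313) (.g (nat_lit 3318) (.e (nat_lit 90185) (nat_lit 17) (.e (nat_lit 237605) (nat_lit 9) (.e (nat_lit 426566) (nat_lit 34) (.e (nat_lit 393252) (nat_lit 18) (.e (nat_lit 164403) (nat_lit 256) (.e (nat_lit 57371) (nat_lit 2) .nil)))))) (.g (nat_lit 0) .nil .nil))) 
(.lf (nat_lit 220345) (.g (nat_lit 2965) (.e (nat_lit 90185) (nat_lit 17) (.e (nat_lit 237616) (nat_lit 12) (.e (nat_lit 475179) (nat_lit 24) (.e (nat_lit 516131) (nat_lit 3) (.e (nat_lit 221194) (nat_lit 11) (.e (nat_lit 336012) (nat_lit 2) .nil)))))) (.g (nat_lit 0) .nil .nil)))))) (.nd (nat_lit 3) (.nd (nat_lit 4) (.nd (nat_lit 5) 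
(.lf (nat_lit 220293) (.g (nat_lit 553) (.e (nat_lit 90185) (nat_lit 17) (.e (nat_lit 237605) (nat_lit 9) (.e (nat_lit 426479) (nat_lit 27) (.e (nat_lit 336421) (nat_lit 28) .nil)))) .nil)) 
(.lf (nat_lit 220325) (.g (nat_lit 1982) (.e (nat_lit 90185) (nat_lit 17) (.e (nat_lit 237616) (nat_lit 12) (.e (nat_lit 475177) (nat_lit 24) (.e (nat_lit 516129) (nat_lit 3) (.e (nat_lit 221194) (nat_lit 11) (.e (nat_lit 336001) (nat_lit 2) .nil)))))) (.g (nat_lit 4) .nil .nil)))) (.nd (nat_lit 5) 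
(.lf (nat_lit 220309) (.g (nat_lit 2069) (.e (nat_lit 90185) (nat_lit 17) (.e (nat_lit 237605) (nat_lit 9) (.e (nat_lit 426566) (nat_lit 34) (.e (nat_lit 393251) (nat_lit 18) (.e (nat_lit 164396) (nat_lit 256) (.e (nat_lit 57375) (nat_lit 2) .nil)))))) (.g (nat_lit 4) .nil .nil))) 
(.lf (nat_lit 220341) (.g (nat_lit 1576) (.e (nat_lit 90185) (nat_lit 17) (.e (nat_lit 237616) (nat_lit 12) (.e (nat_lit 475179) (nat_lit 24) (.e (nat_lit 516129) (nat_lit 3) (.e (nat_lit 229120) (nat_lit 11) (.e (nat_lit 336001) (nat_lit 2) .nil)))))) (.g (nat_lit 4) .nil .nil))))) (.nd (nat_lit 4) (.nd (nat_lit 5) 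
(.lf (nat_lit 220301) (.g (nat_lit 1389) (.e (nat_lit 90185) (nat_lit 17) (.e (nat_lit 237605) (nat_lit 9) (.e (nat_lit 426564) (nat_lit 34) (.e (nat_lit 393252) (nat_lit 18) (.e (nat_lit 164399) (nat_lit 256) .nil))))) .nil)) 
(.lf (nat_lit 220333) (.g (nat_lit 2940) (.e (nat_lit 90185) (nat_lit 17) (.e (nat_lit 237616) (nat_lit 12) (.e (nat_lit 475177) (nat_lit 24) (.e (nat_lit 516131) (nat_lit 3) (.e (nat_lit 221194) (nat_lit 11) (.e (nat_lit 336012) (nat_lit 2) .nil)))))) (.g (nat_lit 0) .nil .nil)))) (.nd (nat_lit 5) 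
(.lf (nat_lit 220317) (.g (nat_lit 1662) (.e (nat_lit 90185) (nat_lit 17) (.e (nat_lit 237616) (nat_lit 12) (.e (nat_lit 475177) (nat_lit 24) (.e (nat_lit 516097) (nat_lit 0) (.e (nat_lit 3609) (nat_lit 226) .nil))))) .nil)) 
(.lf (nat_lit 220349) (.g (nat_lit 2589) (.e (nat_lit 90185) (nat_lit 17) (.e (nat_lit 237616) (nat_lit 12) (.e (nat_lit 475183) (nat_lit 29) (.e (nat_lit 557104) (nat_lit 14) (.e (nat_lit 180278) (nat_lit 32) (.e (nat_lit 1234) (nat_lit 91) .nil)))))) (.g (nat_lit 5) .nil .nil))))))) (.nd (nat_lit 2) (.nd (nat_lit 3) (.nd (nat_lit 4) (.nd (nat_lit 5) 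
(.lf (nat_lit 220291) (.g (nat_lit 2771) (.e (nat_lit 90185) (nat_lit 17) (.e (nat_lit 237605) (nat_lit 9) (.e (nat_lit 426438) (nat_lit 18) (.e (nat_lit 98342) (nat_lit 20) (.e (nat_lit 221194) (nat_lit 11) (.e (nat_lit 336009) (nat_lit 2) .nil)))))) (.g (nat_lit 6) .nil .nil))) 
(.lf (nat_lit 220323) (.g (nat_lit 2258) (.e (nat_lit 90185) (nat_lit 17) (.e (nat_lit 237616) (nat_lit 12) (.e (nat_lit 475177) (nat_lit 24) (.e (nat_lit 516129) (nat_lit 3) (.e (nat_lit 221193) (nat_lit 11) (.e (nat_lit 336009) (nat_lit 2) .nil)))))) (.g (nat_lit 5) .nil .nil)))) (.nd (nat_lit 5) 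
(.lf (nat_lit 220307) (.g (nat_lit 1752) (.e (nat_lit 90185) (nat_lit 17) (.e (nat_lit 237605) (nat_lit 9) (.e (nat_lit 426566) (nat_lit 34) (.e (nat_lit 393250) (nat_lit 18) (.e (nat_lit 164399) (nat_lit 256) (.e (nat_lit 57370) (nat_lit 2) .nil)))))) (.g (nat_lit 5) .nil .nil))) 
(.lf (nat_lit 220339) (.g (nat_lit 2037) (.e (nat_lit 90185) (nat_lit 17) (.e (nat_lit 237616) (nat_lit 12) (.e (nat_lit 475179) (nat_lit 24) (.e (nat_lit 516129) (nat_lit 3) (.e (nat_lit 221194) (nat_lit 11) (.e (nat_lit 336001) (nat_lit 2) .nil)))))) (.g (nat_lit 4) .nil .nil))))) (.nd (nat_lit 4) (.nd (nat_lit 5) 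
(.lf (nat_lit 220299) (.g (nat_lit 1798) (.e (nat_lit 90185) (nat_lit 17) (.e (nat_lit 237605) (nat_lit 9) (.e (nat_lit 426564) (nat_lit 34) (.e (nat_lit 393234) (nat_lit 17) (.e (nat_lit 2504) (nat_lit 157) (.e (nat_lit 5949) (nat_lit 322) (.e (nat_lit 57373) (nat_lit 2) .nil))))))) (.g (nat_lit 4) .nil .nil))) 
(.lf (nat_lit 220331) (.g (nat_lit 2057) (.e (nat_lit 90185) (nat_lit 17) (.e (nat_lit 237616) (nat_lit 12) (.e (nat_lit 475177) (nat_lit 24) (.e (nat_lit 516131) (nat_lit 3) (.e (nat_lit 221193) (nat_lit 11) (.e (nat_lit 336009) (nat_lit 2) .nil)))))) (.g (nat_lit 0) .nil .nil)))) (.nd (nat_lit 5) 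
(.lf (nat_lit 220315) (.g (nat_lit 2174) (.e (nat_lit 90185) (nat_lit 17) (.e (nat_lit 237605) (nat_lit 9) (.e (nat_lit 426568) (nat_lit 34) (.e (nat_lit 393238) (nat_lit 17) (.e (nat_lit 2514) (nat_lit 157) (.e (nat_lit 5949) (nat_lit 322) (.e (nat_lit 57373) (nat_lit 2) .nil))))))) (.g (nat_lit 4) .nil .nil))) 
(.lf (nat_lit 220347) (.g (nat_lit 1349) (.e (nat_lit 90185) (nat_lit 17) (.e (nat_lit 237616) (nat_lit 12) (.e (nat_lit 475179) (nat_lit 24) (.e (nat_lit 516131) (nat_lit 3) (.e (nat_lit 229120) (nat_lit 11) (.e (nat_lit 336003) (nat_lit 2) .nil)))))) (.g (nat_lit 4) .nil .nil)))))) (.nd (nat_lit 3) (.nd (nat_lit 4) (.nd (nat_lit 5) 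
(.lf (nat_lit 220295) (.g (nat_lit 1284) (.e (nat_lit 90185) (nat_lit 17) (.e (nat_lit 237605) (nat_lit 9) (.e (nat_lit 426535) (nat_lit 28) (.e (nat_lit 344174) (nat_lit 42) (.e (nat_lit 761905) (nat_lit 16) (.e (nat_lit 179968) (nat_lit 17) .nil)))))) (.g (nat_lit 4) .nil .nil))) 
(.lf (nat_lit 220327) (.g (nat_lit 3240) (.e (nat_lit 90185) (nat_lit 17) (.e (nat_lit 237616) (nat_lit 12) (.e (nat_lit 475177) (nat_lit 24) (.e (nat_lit 516129) (nat_lit 3) (.e (nat_lit 221194) (nat_lit 11) (.e (nat_lit 336012) (nat_lit 2) .nil)))))) (.g (nat_lit 0) .nil .nil)))) (.nd (nat_lit 5) 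
(.lf (nat_lit 220311) (.g (nat_lit 3738) (.e (nat_lit 90185) (nat_lit 17) (.e (nat_lit 237605) (nat_lit 9) (.e (nat_lit 426566) (nat_lit 34) (.e (nat_lit 393251) (nat_lit 18) (.e (nat_lit 164398) (nat_lit 256) (.e (nat_lit 57372) (nat_lit 2) .nil)))))) (.g (nat_lit 0) .nil .nil))) 
(.lf (nat_lit 220343) (.g (nat_lit 1616) (.e (nat_lit 90185) (nat_lit 17) (.e (nat_lit 237616) (nat_lit 12) (.e (nat_lit 475179) (nat_lit 24) (.e (nat_lit 516131) (nat_lit 3) (.e (nat_lit 221191) (nat_lit 11) (.e (nat_lit 336014) (nat_lit 2) .nil)))))) (.g (nat_lit 4) .nil .nil))))) (.nd (nat_lit 4) (.nd (nat_lit 5) 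
(.lf (nat_lit 220303) (.g (nat_lit 2117) (.e (nat_lit 90185) (nat_lit 17) (.e (nat_lit 237605) (nat_lit 9) (.e (nat_lit 426566) (nat_lit 34) (.e (nat_lit 393232) (nat_lit 17) (.e (nat_lit 2530) (nat_lit 157) (.e (nat_lit 5949) (nat_lit 322) (.e (nat_lit 57373) (nat_lit 2) .nil))))))) (.g (nat_lit 4) .nil .nil))) 
(.lf (nat_lit 220335) (.g (nat_lit 1466) (.e (nat_lit 90185) (nat_lit 17) (.e (nat_lit 237616) (nat_lit 12) (.e (nat_lit 475179) (nat_lit 24) (.e (nat_lit 516102) (nat_lit 0) (.e (nat_lit 3717) (nat_lit 227) .nil))))) .nil))) (.nd (nat_lit 5) 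
(.lf (nat_lit 220319) (.g (nat_lit 2066) (.e (nat_lit 90185) (nat_lit 17) (.e (nat_lit 237616) (nat_lit 12) (.e (nat_lit 475177) (nat_lit 24) (.e (nat_lit 516097) (nat_lit 0) (.e (nat_lit 3774) (nat_lit 229) (.e (nat_lit 794633) (nat_lit 11) (.e (nat_lit 336012) (nat_lit 2) .nil))))))) (.g (nat_lit 4) .nil .nil))) 
(.lf (nat_lit 220351) (.g (nat_lit 4236) (.e (nat_lit 90185) (nat_lit 17) (.e (nat_lit 237616) (nat_lit 12) (.e (nat_lit 475185) (nat_lit 29) (.e (nat_lit 557098) (nat_lit 13) (.e (nat_lit 172126) (nat_lit 14) (.e (nat_lit 491537) (nat_lit 2) .nil)))))) (.g (nat_lit 6) .nil .nil)))))))))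

noncomputable def tv2894 : DT := (.nd (nat_lit 0) (.nd (nat_lit 1) (.nd (nat_lit 2) (.nd (nat_lit 3) (.nd (nat_lit 4) (.nd (nat_lit 5) 
(.lf (nat_lit 220352) (.g (nat_lit 3444) (.e (nat_lit 90185) (nat_lit 17) (.e (nat_lit 237616) (nat_lit 12) (.e (nat_lit 475185) (nat_lit 29) (.e (nat_lit 557101) (nat_lit 13) (.e (nat_lit 172124) (nat_lit 14) (.e (nat_lit 491537) (nat_lit 2) .nil)))))) (.g (nat_lit 0) .nil .nil))) 
(.lf (nat_lit 220384) (.g (nat_lit 3343) (.e (nat_lit 90185) (nat_lit 17) (.e (nat_lit 237619) (nat_lit 12) (.e (nat_lit 475177) (nat_lit 24) (.e (nat_lit 516129) (nat_lit 3) (.e (nat_lit 221194) (nat_lit 11) (.e (nat_lit 336012) (nat_lit 2) .nil)))))) (.g (nat_lit 0) .nil .nil)))) (.nd (nat_lit 5) 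
(.lf (nat_lit 220368) (.g (nat_lit 1772) (.e (nat_lit 90185) (nat_lit 17) (.e (nat_lit 237619) (nat_lit 12) (.e (nat_lit 475177) (nat_lit 24) (.e (nat_lit 516097) (nat_lit 0) (.e (nat_lit 3609) (nat_lit 226) .nil))))) .nil)) 
(.lf (nat_lit 220400) (.g (nat_lit 2975) (.e (nat_lit 90185) (nat_lit 17) (.e (nat_lit 237619) (nat_lit 12) (.e (nat_lit 475179) (nat_lit 24) (.e (nat_lit 516129) (nat_lit 3) (.e (nat_lit 221193) (nat_lit 11) (.e (nat_lit 336012) (nat_lit 2) .nil)))))) (.g (nat_lit 0) .nil .nil))))) (.nd (nat_lit 4) (.nd (nat_lit 5) 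
(.lf (nat_lit 220360) (.g (nat_lit 1899) (.e (nat_lit 90185) (nat_lit 17) (.e (nat_lit 237618) (nat_lit 12) (.e (nat_lit 475179) (nat_lit 24) (.e (nat_lit 516129) (nat_lit 3) (.e (nat_lit 221194) (nat_lit 11) .nil))))) .nil)) 
(.lf (nat_lit 220392) (.g (nat_lit 3044) (.e (nat_lit 90185) (nat_lit 17) (.e (nat_lit 237619) (nat_lit 12) (.e (nat_lit 475177) (nat_lit 24) (.e (nat_lit 516131) (nat_lit 3) (.e (nat_lit 221194) (nat_lit 11) (.e (nat_lit 336012) (nat_lit 2) .nil)))))) (.g (nat_lit 0) .nil .nil)))) (.nd (nat_lit 5) 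
(.lf (nat_lit 220376) (.g (nat_lit 2404) (.e (nat_lit 90185) (nat_lit 17) (.e (nat_lit 237619) (nat_lit 12) (.e (nat_lit 475177) (nat_lit 24) (.e (nat_lit 516129) (nat_lit 3) (.e (nat_lit 221193) (nat_lit 11) (.e (nat_lit 336004) (nat_lit 2) .nil)))))) (.g (nat_lit 5) .nil .nil))) 
(.lf (nat_lit 220408) (.g (nat_lit 1467) (.e (nat_lit 90185) (nat_lit 17) (.e (nat_lit 237619) (nat_lit 12) (.e (nat_lit 475179) (nat_lit 24) (.e (nat_lit 516131) (nat_lit 3) (.e (nat_lit 229120) (nat_lit 11) (.e (nat_lit 336003) (nat_lit 2) .nil)))))) (.g (nat_lit 4) .nil .nil)))))) (.nd (nat_lit 3) (.nd (nat_lit 4) (.nd (nat_lit 5) 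
(.lf (nat_lit 220356) (.g (nat_lit 1596) (.e (nat_lit 90185) (nat_lit 17) (.e (nat_lit 237618) (nat_lit 12) (.e (nat_lit 475176) (nat_lit 24) (.e (nat_lit 516131) (nat_lit 3) (.e (nat_lit 221193) (nat_lit 11) (.e (nat_lit 336010) (nat_lit 2) .nil)))))) (.g (nat_lit 4) .nil .nil))) 
(.lf (nat_lit 220388) (.g (nat_lit 2273) (.e (nat_lit 90185) (nat_lit 17) (.e (nat_lit 237619) (nat_lit 12) (.e (nat_lit 475177) (nat_lit 24) (.e (nat_lit 516131) (nat_lit 3) (.e (nat_lit 221193) (nat_lit 11) (.e (nat_lit 336004) (nat_lit 2) .nil)))))) (.g (nat_lit 6) .nil .nil)))) (.nd (nat_lit 5) 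
(.lf (nat_lit 220372) (.g (nat_lit 2207) (.e (nat_lit 90185) (nat_lit 17) (.e (nat_lit 237619) (nat_lit 12) (.e (nat_lit 475177) (nat_lit 24) (.e (nat_lit 516097) (nat_lit 0) (.e (nat_lit 3774) (nat_lit 229) (.e (nat_lit 794633) (nat_lit 11) (.e (nat_lit 336012) (nat_lit 2) .nil))))))) (.g (nat_lit 4) .nil .nil))) 
(.lf (nat_lit 220404) (.g (nat_lit 2726) (.e (nat_lit 90185) (nat_lit 17) (.e (nat_lit 237619) (nat_lit 12) (.e (nat_lit 475179) (nat_lit 24) (.e (nat_lit 516131) (nat_lit 3) (.e (nat_lit 221190) (nat_lit 11) (.e (nat_lit 336012) (nat_lit 2) .nil)))))) (.g (nat_lit 0) .nil .nil))))) (.nd (nat_lit 4) (.nd (nat_lit 5) 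
(.lf (nat_lit 220364) (.g (nat_lit 2683) (.e (nat_lit 90185) (nat_lit 17) (.e (nat_lit 237618) (nat_lit 12) (.e (nat_lit 475185) (nat_lit 29) (.e (nat_lit 557103) (nat_lit 14) (.e (nat_lit 180278) (nat_lit 32) (.e (nat_lit 1235) (nat_lit 91) .nil)))))) (.g (nat_lit 4) .nil .nil))) 
(.lf (nat_lit 220396) (.g (nat_lit 1301) (.e (nat_lit 90185) (nat_lit 17) (.e (nat_lit 237619) (nat_lit 12) (.e (nat_lit 475179) (nat_lit 24) (.e (nat_lit 516105) (nat_lit 0) .nil)))) .nil))) (.nd (nat_lit 5) 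
(.lf (nat_lit 220380) (.g (nat_lit 2799) (.e (nat_lit 90185) (nat_lit 17) (.e (nat_lit 237619) (nat_lit 12) (.e (nat_lit 475177) (nat_lit 24) (.e (nat_lit 516129) (nat_lit 3) (.e (nat_lit 221193) (nat_lit 11) (.e (nat_lit 336012) (nat_lit 2) .nil)))))) (.g (nat_lit 6) .nil .nil))) 
(.lf (nat_lit 220412) (.g (nat_lit 2070) (.e (nat_lit 90185) (nat_lit 17) (.e (nat_lit 237619) (nat_lit 12) (.e (nat_lit 475183) (nat_lit 29) (.e (nat_lit 557104) (nat_lit 14) (.e (nat_lit 180277) (nat_lit 32) (.e (nat_lit 1235) (nat_lit 91) .nil)))))) (.g (nat_lit 4) .nil .nil))))))) (.nd (nat_lit 2) (.nd (nat_lit 3) (.nd (nat_lit 4) (.nd (nat_lit 5) 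
(.lf (nat_lit 220354) (.g (nat_lit 2304) (.e (nat_lit 90185) (nat_lit 17) (.e (nat_lit 237616) (nat_lit 12) (.e (nat_lit 475185) (nat_lit 29) (.e (nat_lit 557104) (nat_lit 14) (.e (nat_lit 180278) (nat_lit 32) (.e (nat_lit 1234) (nat_lit 91) .nil)))))) (.g (nat_lit 4) .nil .nil))) 
(.lf (nat_lit 220386) (.g (nat_lit 1880) (.e (nat_lit 90185) (nat_lit 17) (.e (nat_lit 237619) (nat_lit 12) (.e (nat_lit 475177) (nat_lit 24) (.e (nat_lit 516129) (nat_lit 3) (.e (nat_lit 229120) (nat_lit 11) (.e (nat_lit 336012) (nat_lit 2) .nil)))))) (.g (nat_lit 4) .nil .nil)))) (.nd (nat_lit 5) 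
(.lf (nat_lit 220370) (.g (nat_lit 2152) (.e (nat_lit 90185) (nat_lit 17) (.e (nat_lit 237619) (nat_lit 12) (.e (nat_lit 475177) (nat_lit 24) (.e (nat_lit 516097) (nat_lit 0) (.e (nat_lit 3757) (nat_lit 229) (.e (nat_lit 794633) (nat_lit 11) (.e (nat_lit 336012) (nat_lit 2) .nil))))))) (.g (nat_lit 4) .nil .nil))) 
(.lf (nat_lit 220402) (.g (nat_lit 2721) (.e (nat_lit 90185) (nat_lit 17) (.e (nat_lit 237619) (nat_lit 12) (.e (nat_lit 475179) (nat_lit 24) (.e (nat_lit 516129) (nat_lit 3) (.e (nat_lit 221194) (nat_lit 11) (.e (nat_lit 336009) (nat_lit 2) .nil)))))) (.g (nat_lit 6) .nil .nil))))) (.nd (nat_lit 4) (.nd (nat_lit 5) 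
(.lf (nat_lit 220362) (.g (nat_lit 2415) (.e (nat_lit 90185) (nat_lit 17) (.e (nat_lit 237618) (nat_lit 12) (.e (nat_lit 475184) (nat_lit 29) (.e (nat_lit 557103) (nat_lit 14) (.e (nat_lit 180277) (nat_lit 32) (.e (nat_lit 1235) (nat_lit 91) .nil)))))) (.g (nat_lit 4) .nil .nil))) 
(.lf (nat_lit 220394) (.g (nat_lit 1228) (.e (nat_lit 90185) (nat_lit 17) (.e (nat_lit 237619) (nat_lit 12) (.e (nat_lit 475179) (nat_lit 24) (.e (nat_lit 516102) (nat_lit 0) .nil)))) .nil))) (.nd (nat_lit 5) 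
(.lf (nat_lit 220378) (.g (nat_lit 2231) (.e (nat_lit 90185) (nat_lit 17) (.e (nat_lit 237619) (nat_lit 12) (.e (nat_lit 475177) (nat_lit 24) (.e (nat_lit 516129) (nat_lit 3) (.e (nat_lit 221193) (nat_lit 11) (.e (nat_lit 336010) (nat_lit 2) .nil)))))) (.g (nat_lit 5) .nil .nil))) 
(.lf (nat_lit 220410) (.g (nat_lit 2471) (.e (nat_lit 90185) (nat_lit 17) (.e (nat_lit 237619) (nat_lit 12) (.e (nat_lit 475183) (nat_lit 29) (.e (nat_lit 557103) (nat_lit 14) (.e (nat_lit 180278) (nat_lit 32) (.e (nat_lit 1235) (nat_lit 91) .nil)))))) (.g (nat_lit 4) .nil .nil)))))) (.nd (nat_lit 3) (.nd (nat_lit 4) (.nd (nat_lit 5) 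
(.lf (nat_lit 220358) (.g (nat_lit 1794) (.e (nat_lit 90185) (nat_lit 17) (.e (nat_lit 237618) (nat_lit 12) (.e (nat_lit 475178) (nat_lit 24) (.e (nat_lit 516127) (nat_lit 2) (.e (nat_lit 213030) (nat_lit 11) (.e (nat_lit 24605) (nat_lit 2) .nil)))))) (.g (nat_lit 4) .nil .nil))) 
(.lf (nat_lit 220390) (.g (nat_lit 2581) (.e (nat_lit 90185) (nat_lit 17) (.e (nat_lit 237619) (nat_lit 12) (.e (nat_lit 475177) (nat_lit 24) (.e (nat_lit 516131) (nat_lit 3) (.e (nat_lit 221194) (nat_lit 11) (.e (nat_lit 336004) (nat_lit 2) .nil)))))) (.g (nat_lit 0) .nil .nil)))) (.nd (nat_lit 5) 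
(.lf (nat_lit 220374) (.g (nat_lit 1777) (.e (nat_lit 90185) (nat_lit 17) (.e (nat_lit 237619) (nat_lit 12) (.e (nat_lit 475177) (nat_lit 24) (.e (nat_lit 516129) (nat_lit 3) (.e (nat_lit 221190) (nat_lit 11) (.e (nat_lit 336004) (nat_lit 2) .nil)))))) (.g (nat_lit 4) .nil .nil))) 
(.lf (nat_lit 220406) (.g (nat_lit 2346) (.e (nat_lit 90185) (nat_lit 17) (.e (nat_lit 237619) (nat_lit 12) (.e (nat_lit 475179) (nat_lit 24) (.e (nat_lit 516131) (nat_lit 3) (.e (nat_lit 221194) (nat_lit 11) (.e (nat_lit 336009) (nat_lit 2) .nil)))))) (.g (nat_lit 5) .nil .nil))))) (.nd (nat_lit 4) (.nd (nat_lit 5) 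
(.lf (nat_lit 220366) (.g (nat_lit 769) (.e (nat_lit 90185) (nat_lit 17) (.e (nat_lit 237619) (nat_lit 12) (.e (nat_lit 475176) (nat_lit 24) (.e (nat_lit 516131) (nat_lit 3) (.e (nat_lit 221193) (nat_lit 11) .nil))))) .nil)) 
(.lf (nat_lit 220398) (.g (nat_lit 2721) (.e (nat_lit 90185) (nat_lit 17) (.e (nat_lit 237619) (nat_lit 12) (.e (nat_lit 475179) (nat_lit 24) (.e (nat_lit 516106) (nat_lit 0) (.e (nat_lit 3721) (nat_lit 227) (.e (nat_lit 778464) (nat_lit 11) (.e (nat_lit 24604) (nat_lit 2) .nil))))))) (.g (nat_lit 4) .nil .nil)))) (.nd (nat_lit 5) 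
(.lf (nat_lit 220382) (.g (nat_lit 2887) (.e (nat_lit 90185) (nat_lit 17) (.e (nat_lit 237619) (nat_lit 12) (.e (nat_lit 475177) (nat_lit 24) (.e (nat_lit 516129) (nat_lit 3) (.e (nat_lit 221194) (nat_lit 11) (.e (nat_lit 336004) (nat_lit 2) .nil)))))) (.g (nat_lit 0) .nil .nil))) 
(.lf (nat_lit 220414) (.g (nat_lit 2910) (.e (nat_lit 90185) (nat_lit 17) (.e (nat_lit 237619) (nat_lit 12) (.e (nat_lit 475183) (nat_lit 29) (.e (nat_lit 557104) (nat_lit 14) (.e (nat_lit 180278) (nat_lit 32) (.e (nat_lit 1235) (nat_lit 91) .nil)))))) (.g (nat_lit 5) .nil .nil)))))))) (.nd (nat_lit 1) (.nd (nat_lit 2) (.nd (nat_lit 3) (.nd (nat_lit 4) (.nd (nat_lit 5) 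
(.lf (nat_lit 220353) (.g (nat_lit 3358) (.e (nat_lit 90185) (nat_lit 17) (.e (nat_lit 237616) (nat_lit 12) (.e (nat_lit 475185) (nat_lit 29) (.e (nat_lit 557101) (nat_lit 13) (.e (nat_lit 172126) (nat_lit 14) (.e (nat_lit 491537) (nat_lit 2) .nil)))))) (.g (nat_lit 0) .nil .nil))) 
(.lf (nat_lit 220385) (.g (nat_lit 1428) (.e (nat_lit 90185) (nat_lit 17) (.e (nat_lit 237619) (nat_lit 12) (.e (nat_lit 475177) (nat_lit 24) (.e (nat_lit 516129) (nat_lit 3) (.e (nat_lit 229120) (nat_lit 11) .nil))))) .nil))) (.nd (nat_lit 5) 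
(.lf (nat_lit 220369) (.g (nat_lit 1772) (.e (nat_lit 90185) (nat_lit 17) (.e (nat_lit 237619) (nat_lit 12) (.e (nat_lit 475177) (nat_lit 24) (.e (nat_lit 516097) (nat_lit 0) (.e (nat_lit 3654) (nat_lit 227) .nil))))) .nil)) 
(.lf (nat_lit 220401) (.g (nat_lit 2176) (.e (nat_lit 90185) (nat_lit 17) (.e (nat_lit 237619) (nat_lit 12) (.e (nat_lit 475179) (nat_lit 24) (.e (nat_lit 516129) (nat_lit 3) (.e (nat_lit 221194) (nat_lit 11) (.e (nat_lit 336001) (nat_lit 2) .nil)))))) (.g (nat_lit 4) .nil .nil))))) (.nd (nat_lit 4) (.nd (nat_lit 5) 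
(.lf (nat_lit 220361) (.g (nat_lit 1840) (.e (nat_lit 90185) (nat_lit 17) (.e (nat_lit 237618) (nat_lit 12) (.e (nat_lit 475183) (nat_lit 29) (.e (nat_lit 557103) (nat_lit 14) (.e (nat_lit 180278) (nat_lit 32) .nil))))) .nil)) 
(.lf (nat_lit 220393) (.g (nat_lit 1335) (.e (nat_lit 90185) (nat_lit 17) (.e (nat_lit 237619) (nat_lit 12) (.e (nat_lit 475179) (nat_lit 24) (.e (nat_lit 516097) (nat_lit 0) .nil)))) .nil))) (.nd (nat_lit 5) 
(.lf (nat_lit 220377) (.g (nat_lit 2372) (.e (nat_lit 90185) (nat_lit 17) (.e (nat_lit 237619) (nat_lit 12) (.e (nat_lit 475177) (nat_lit 24) (.e (nat_lit 516129) (nat_lit 3) (.e (nat_lit 221193) (nat_lit 11) (.e (nat_lit 336009) (nat_lit 2) .nil)))))) (.g (nat_lit 5) .nil .nil))) 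
(.lf (nat_lit 220409) (.g (nat_lit 718) (.e (nat_lit 90185) (nat_lit 17) (.e (nat_lit 237619) (nat_lit 12) (.e (nat_lit 475179) (nat_lit 24) (.e (nat_lit 524032) (nat_lit 3) .nil)))) .nil))))) (.nd (nat_lit 3) (.nd (nat_lit 4) (.nd (nat_lit 5) 
(.lf (nat_lit 220357) (.g (nat_lit 1767) (.e (nat_lit 90185) (nat_lit 17) (.e (nat_lit 237618) (nat_lit 12) (.e (nat_lit 475177) (nat_lit 24) (.e (nat_lit 516129) (nat_lit 3) (.e (nat_lit 221194) (nat_lit 11) (.e (nat_lit 336010) (nat_lit 2) .nil)))))) (.g (nat_lit 4) .nil .nil))) 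
(.lf (nat_lit 220389) (.g (nat_lit 2740) (.e (nat_lit 90185) (nat_lit 17) (.e (nat_lit 237619) (nat_lit 12) (.e (nat_lit 475177) (nat_lit 24) (.e (nat_lit 516131) (nat_lit 3) (.e (nat_lit 221194) (nat_lit 11) (.e (nat_lit 336003) (nat_lit 2) .nil)))))) (.g (nat_lit 0) .nil .nil)))) (.nd (nat_lit 5) 
(.lf (nat_lit 220373) (.g (nat_lit 1772) (.e (nat_lit 90185) (nat_lit 17) (.e (nat_lit 237619) (nat_lit 12) (.e (nat_lit 475177) (nat_lit 24) (.e (nat_lit 516097) (nat_lit 0) (.e (nat_lit 3779) (nat_lit 229) .nil))))) .nil)) 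
(.lf (nat_lit 220405) (.g (nat_lit 2359) (.e (nat_lit 90185) (nat_lit 17) (.e (nat_lit 237619) (nat_lit 12) (.e (nat_lit 475179) (nat_lit 24) (.e (nat_lit 516131) (nat_lit 3) (.e (nat_lit 221193) (nat_lit 11) (.e (nat_lit 336002) (nat_lit 2) .nil)))))) (.g (nat_lit 6) .nil .nil))))) (.nd (nat_lit 4) (.nd (nat_lit 5) 
(.lf (nat_lit 220365) (.g (nat_lit 1087) (.e (nat_lit 90185) (nat_lit 17) (.e (nat_lit 237619) (nat_lit 12) (.e (nat_lit 475176) (nat_lit 24) (.e (nat_lit 516129) (nat_lit 3) (.e (nat_lit 221194) (nat_lit 11) .nil))))) .nil)) 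
(.lf (nat_lit 220397) (.g (nat_lit 2412) (.e (nat_lit 90185) (nat_lit 17) (.e (nat_lit 237619) (nat_lit 12) (.e (nat_lit 475179) (nat_lit 24) (.e (nat_lit 516106) (nat_lit 0) (.e (nat_lit 3721) (nat_lit 227) .nil))))) .nil))) (.nd (nat_lit 5) 
(.lf (nat_lit 220381) (.g (nat_lit 2123) (.e (nat_lit 90185) (nat_lit 17) (.e (nat_lit 237619) (nat_lit 12) (.e (nat_lit 475177) (nat_lit 24) (.e (nat_lit 516129) (nat_lit 3) (.e (nat_lit 221194) (nat_lit 11) (.e (nat_lit 336001) (nat_lit 2) .nil)))))) (.g (nat_lit 4) .nil .nil))) 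
(.lf (nat_lit 220413) (.g (nat_lit 3242) (.e (nat_lit 90185) (nat_lit 17) (.e (nat_lit 237619) (nat_lit 12) (.e (nat_lit 475183) (nat_lit 29) (.e (nat_lit 557104) (nat_lit 14) (.e (nat_lit 180278) (nat_lit 32) (.e (nat_lit 1234) (nat_lit 91) .nil)))))) (.g (nat_lit 6) .nil .nil))))))) (.nd (nat_lit 2) (.nd (nat_lit 3) (.nd (nat_lit 4) (.nd (nat_lit 5) 
(.lf (nat_lit 220355) (.g (nat_lit 2504) (.e (nat_lit 90185) (nat_lit 17) (.e (nat_lit 237617) (nat_lit 12) (.e (nat_lit 475185) (nat_lit 29) (.e (nat_lit 557103) (nat_lit 14) (.e (nat_lit 180278) (nat_lit 32) (.e (nat_lit 1234) (nat_lit 91) .nil)))))) (.g (nat_lit 4) .nil .nil))) 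
(.lf (nat_lit 220387) (.g (nat_lit 2742) (.e (nat_lit 90185) (nat_lit 17) (.e (nat_lit 237619) (nat_lit 12) (.e (nat_lit 475177) (nat_lit 24) (.e (nat_lit 516131) (nat_lit 3) (.e (nat_lit 221190) (nat_lit 11) (.e (nat_lit 336012) (nat_lit 2) .nil)))))) (.g (nat_lit 0) .nil .nil)))) (.nd (nat_lit 5) 
(.lf (nat_lit 220371) (.g (nat_lit 1772) (.e (nat_lit 90185) (nat_lit 17) (.e (nat_lit 237619) (nat_lit 12) (.e (nat_lit 475177) (nat_lit 24) (.e (nat_lit 516097) (nat_lit 0) (.e (nat_lit 3764) (nat_lit 229) .nil))))) .nil)) 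
(.lf (nat_lit 220403) (.g (nat_lit 3383) (.e (nat_lit 90185) (nat_lit 17) (.e (nat_lit 237619) (nat_lit 12) (.e (nat_lit 475179) (nat_lit 24) (.e (nat_lit 516129) (nat_lit 3) (.e (nat_lit 221194) (nat_lit 11) (.e (nat_lit 336012) (nat_lit 2) .nil)))))) (.g (nat_lit 0) .nil .nil))))) (.nd (nat_lit 4) (.nd (nat_lit 5) 
(.lf (nat_lit 220363) (.g (nat_lit 2742) (.e (nat_lit 90185) (nat_lit 17) (.e (nat_lit 237618) (nat_lit 12) (.e (nat_lit 475185) (nat_lit 29) (.e (nat_lit 557103) (nat_lit 14) (.e (nat_lit 180278) (nat_lit 32) (.e (nat_lit 1234) (nat_lit 91) .nil)))))) (.g (nat_lit 4) .nil .nil))) 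
(.lf (nat_lit 220395) (.g (nat_lit 1578) (.e (nat_lit 90185) (nat_lit 17) (.e (nat_lit 237619) (nat_lit 12) (.e (nat_lit 475179) (nat_lit 24) (.e (nat_lit 516102) (nat_lit 0) (.e (nat_lit 3717) (nat_lit 227) .nil))))) .nil))) (.nd (nat_lit 5) 
(.lf (nat_lit 220379) (.g (nat_lit 2552) (.e (nat_lit 90185) (nat_lit 17) (.e (nat_lit 237619) (nat_lit 12) (.e (nat_lit 475177) (nat_lit 24) (.e (nat_lit 516129) (nat_lit 3) (.e (nat_lit 221193) (nat_lit 11) (.e (nat_lit 336011) (nat_lit 2) .nil)))))) (.g (nat_lit 5) .nil .nil))) 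
(.lf (nat_lit 220411) (.g (nat_lit 2182) (.e (nat_lit 90185) (nat_lit 17) (.e (nat_lit 237619) (nat_lit 12) (.e (nat_lit 475183) (nat_lit 29) (.e (nat_lit 557104) (nat_lit 14) (.e (nat_lit 180277) (nat_lit 32) (.e (nat_lit 1234) (nat_lit 91) .nil)))))) (.g (nat_lit 4) .nil .nil)))))) (.nd (nat_lit 3) (.nd (nat_lit 4) (.nd (nat_lit 5) 
(.lf (nat_lit 220359) (.g (nat_lit 1872) (.e (nat_lit 90185) (nat_lit 17) (.e (nat_lit 237618) (nat_lit 12) (.e (nat_lit 475178) (nat_lit 24) (.e (nat_lit 516129) (nat_lit 3) (.e (nat_lit 221194) (nat_lit 11) (.e (nat_lit 336010) (nat_lit 2) .nil)))))) (.g (nat_lit 4) .nil .nil))) 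
(.lf (nat_lit 220391) (.g (nat_lit 2415) (.e (nat_lit 90185) (nat_lit 17) (.e (nat_lit 237619) (nat_lit 12) (.e (nat_lit 475177) (nat_lit 24) (.e (nat_lit 516131) (nat_lit 3) (.e (nat_lit 221194) (nat_lit 11) (.e (nat_lit 336009) (nat_lit 2) .nil)))))) (.g (nat_lit 6) .nil .nil)))) (.nd (nat_lit 5) 
(.lf (nat_lit 220375) (.g (nat_lit 2355) (.e (nat_lit 90185) (nat_lit 17) (.e (nat_lit 237619) (nat_lit 12) (.e (nat_lit 475177) (nat_lit 24) (.e (nat_lit 516129) (nat_lit 3) (.e (nat_lit 221193) (nat_lit 11) (.e (nat_lit 336002) (nat_lit 2) .nil)))))) (.g (nat_lit 5) .nil .nil))) 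
(.lf (nat_lit 220407) (.g (nat_lit 3070) (.e (nat_lit 90185) (nat_lit 17) (.e (nat_lit 237619) (nat_lit 12) (.e (nat_lit 475179) (nat_lit 24) (.e (nat_lit 516131) (nat_lit 3) (.e (nat_lit 221194) (nat_lit 11) (.e (nat_lit 336012) (nat_lit 2) .nil)))))) (.g (nat_lit 0) .nil .nil))))) (.nd (nat_lit 4) (.nd (nat_lit 5) 
(.lf (nat_lit 220367) (.g (nat_lit 155) (.e (nat_lit 90185) (nat_lit 17) (.e (nat_lit 237619) (nat_lit 12) (.e (nat_lit 475177) (nat_lit 24) .nil))) .nil)) 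
(.lf (nat_lit 220399) (.g (nat_lit 1784) (.e (nat_lit 90185) (nat_lit 17) (.e (nat_lit 237619) (nat_lit 12) (.e (nat_lit 475179) (nat_lit 24) (.e (nat_lit 516129) (nat_lit 3) (.e (nat_lit 221192) (nat_lit 11) (.e (nat_lit 336014) (nat_lit 2) .nil)))))) (.g (nat_lit 4) .nil .nil)))) (.nd (nat_lit 5) 
(.lf (nat_lit 220383) (.g (nat_lit 2673) (.e (nat_lit 90185) (nat_lit 17) (.e (nat_lit 237619) (nat_lit 12) (.e (nat_lit 475177) (nat_lit 24) (.e (nat_lit 516129) (nat_lit 3) (.e (nat_lit 221194) (nat_lit 11) (.e (nat_lit 336009) (nat_lit 2) .nil)))))) (.g (nat_lit 6) .nil .nil))) 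
(.lf (nat_lit 220415) (.g (nat_lit 2867) (.e (nat_lit 90185) (nat_lit 17) (.e (nat_lit 237619) (nat_lit 12) (.e (nat_lit 475185) (nat_lit 29) (.e (nat_lit 557097) (nat_lit 13) (.e (nat_lit 172126) (nat_lit 14) (.e (nat_lit 491537) (nat_lit 2) .nil)))))) (.g (nat_lit 4) .nil .nil)))))))))

noncomputable def tv2895 : DT := (.nd (nat_lit 0) (.nd (nat_lit 1) (.nd (nat_lit 2) (.nd (nat_lit 3) (.nd (nat_lit 4) (.nd (nat_lit 5) 
(.lf (nat_lit 220416) (.g (nat_lit 4710) (.e (nat_lit 90185) (nat_lit 17) (.e (nat_lit 237619) (nat_lit 12) (.e (nat_lit 475185) (nat_lit 29) (.e (nat_lit 557098) (nat_lit 13) (.e (nat_lit 172124) (nat_lit 14) (.e (nat_lit 491537) (nat_lit 2) .nil)))))) (.g (nat_lit 6) .nil .nil))) 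
(.lf (nat_lit 220448) (.g (nat_lit 2247) (.e (nat_lit 90185) (nat_lit 17) (.e (nat_lit 237621) (nat_lit 13) (.e (nat_lit 483363) (nat_lit 18) (.e (nat_lit 57692) (nat_lit 156) (.e (nat_lit 163913) (nat_lit 12) (.e (nat_lit 426429) (nat_lit 17) .nil)))))) (.g (nat_lit 4) .nil .nil)))) (.nd (nat_lit 5) 
(.lf (nat_lit 220432) (.g (nat_lit 1106) (.e (nat_lit 90185) (nat_lit 17) (.e (nat_lit 237621) (nat_lit 13) (.e (nat_lit 491264) (nat_lit 7) (.e (nat_lit 409648) (nat_lit 18) (.e (nat_lit 311040) (nat_lit 17) .nil))))) (.g (nat_lit 4) .nil .nil))) 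
(.lf (nat_lit 220464) (.g (nat_lit 1225) (.e (nat_lit 90185) (nat_lit 17) (.e (nat_lit 237624) (nat_lit 13) (.e (nat_lit 491264) (nat_lit 7) (.e (nat_lit 409645) (nat_lit 18) (.e (nat_lit 311040) (nat_lit 17) .nil))))) (.g (nat_lit 4) .nil .nil))))) (.nd (nat_lit 4) (.nd (nat_lit 5) 
(.lf (nat_lit 220424) (.g (nat_lit 2447) (.e (nat_lit 90185) (nat_lit 17) (.e (nat_lit 237620) (nat_lit 13) (.e (nat_lit 483341) (nat_lit 9) (.e (nat_lit 426108) (nat_lit 1) (.e (nat_lit 164403) (nat_lit 256) (.e (nat_lit 57371) (nat_lit 2) .nil)))))) (.g (nat_lit 4) .nil .nil))) 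
(.lf (nat_lit 220456) (.g (nat_lit 1325) (.e (nat_lit 90185) (nat_lit 17) (.e (nat_lit 237623) (nat_lit 13) (.e (nat_lit 491264) (nat_lit 7) (.e (nat_lit 409648) (nat_lit 18) (.e (nat_lit 311040) (nat_lit 17) .nil))))) (.g (nat_lit 4) .nil .nil)))) (.nd (nat_lit 5) 
(.lf (nat_lit 220440) (.g (nat_lit 3319) (.e (nat_lit 90185) (nat_lit 17) (.e (nat_lit 237621) (nat_lit 13) (.e (nat_lit 483337) (nat_lit 9) (.e (nat_lit 426100) (nat_lit 1) (.e (nat_lit 164403) (nat_lit 256) (.e (nat_lit 57371) (nat_lit 2) .nil)))))) (.g (nat_lit 5) .nil .nil))) 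
(.lf (nat_lit 220472) (.g (nat_lit 3337) (.e (nat_lit 90185) (nat_lit 17) (.e (nat_lit 237624) (nat_lit 13) (.e (nat_lit 483337) (nat_lit 9) (.e (nat_lit 426100) (nat_lit 1) (.e (nat_lit 164398) (nat_lit 256) (.e (nat_lit 57375) (nat_lit 2) .nil)))))) (.g (nat_lit 0) .nil .nil)))))) (.nd (nat_lit 3) (.nd (nat_lit 4) (.nd (nat_lit 5) 
(.lf (nat_lit 220420) (.g (nat_lit 1411) (.e (nat_lit 90185) (nat_lit 17) (.e (nat_lit 237620) (nat_lit 13) (.e (nat_lit 483341) (nat_lit 9) (.e (nat_lit 426099) (nat_lit 1) (.e (nat_lit 164399) (nat_lit 256) .nil))))) .nil)) 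
(.lf (nat_lit 220452) (.g (nat_lit 2900) (.e (nat_lit 90185) (nat_lit 17) (.e (nat_lit 237621) (nat_lit 13) (.e (nat_lit 483365) (nat_lit 18) (.e (nat_lit 57692) (nat_lit 156) (.e (nat_lit 163907) (nat_lit 12) (.e (nat_lit 426428) (nat_lit 17) .nil)))))) (.g (nat_lit 5) .nil .nil)))) (.nd (nat_lit 5) 
(.lf (nat_lit 220436) (.g (nat_lit 2287) (.e (nat_lit 90185) (nat_lit 17) (.e (nat_lit 237621) (nat_lit 13) (.e (nat_lit 483337) (nat_lit 9) (.e (nat_lit 426099) (nat_lit 1) (.e (nat_lit 164399) (nat_lit 256) (.e (nat_lit 57373) (nat_lit 2) .nil)))))) (.g (nat_lit 5) .nil .nil))) 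
(.lf (nat_lit 220468) (.g (nat_lit 2826) (.e (nat_lit 90185) (nat_lit 17) (.e (nat_lit 237624) (nat_lit 13) (.e (nat_lit 483337) (nat_lit 9) (.e (nat_lit 426098) (nat_lit 1) (.e (nat_lit 164399) (nat_lit 256) (.e (nat_lit 57375) (nat_lit 2) .nil)))))) (.g (nat_lit 0) .nil .nil))))) (.nd (nat_lit 4) (.nd (nat_lit 5) 
(.lf (nat_lit 220428) (.g (nat_lit 1262) (.e (nat_lit 90185) (nat_lit 17) (.e (nat_lit 237621) (nat_lit 13) (.e (nat_lit 483333) (nat_lit 0) (.e (nat_lit 6988) (nat_lit 377) (.e (nat_lit 2810) (nat_lit 180) (.e (nat_lit 311040) (nat_lit 17) .nil)))))) (.g (nat_lit 4) .nil .nil))) 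
(.lf (nat_lit 220460) (.g (nat_lit 1434) (.e (nat_lit 90185) (nat_lit 17) (.e (nat_lit 237624) (nat_lit 13) (.e (nat_lit 483333) (nat_lit 0) (.e (nat_lit 6988) (nat_lit 377) (.e (nat_lit 2404) (nat_lit 157) (.e (nat_lit 5629) (nat_lit 312) (.e (nat_lit 100) (nat_lit 2) .nil))))))) (.g (nat_lit 4) .nil .nil)))) (.nd (nat_lit 5) 
(.lf (nat_lit 220444) (.g (nat_lit 2567) (.e (nat_lit 90185) (nat_lit 17) (.e (nat_lit 237621) (nat_lit 13) (.e (nat_lit 483341) (nat_lit 9) (.e (nat_lit 426106) (nat_lit 1) (.e (nat_lit 164403) (nat_lit 256) (.e (nat_lit 57370) (nat_lit 2) .nil)))))) (.g (nat_lit 6) .nil .nil))) 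
(.lf (nat_lit 220476) (.g (nat_lit 878) (.e (nat_lit 90185) (nat_lit 17) (.e (nat_lit 237624) (nat_lit 13) (.e (nat_lit 483337) (nat_lit 9) (.e (nat_lit 426105) (nat_lit 1) .nil)))) .nil)))))) (.nd (nat_lit 2) (.nd (nat_lit 3) (.nd (nat_lit 4) (.nd (nat_lit 5) 
(.lf (nat_lit 220418) (.g (nat_lit 3325) (.e (nat_lit 90185) (nat_lit 17) (.e (nat_lit 237619) (nat_lit 12) (.e (nat_lit 475185) (nat_lit 29) (.e (nat_lit 557104) (nat_lit 14) (.e (nat_lit 180278) (nat_lit 32) (.e (nat_lit 1234) (nat_lit 91) .nil)))))) (.g (nat_lit 5) .nil .nil))) 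
(.lf (nat_lit 220450) (.g (nat_lit 2504) (.e (nat_lit 90185) (nat_lit 17) (.e (nat_lit 237621) (nat_lit 13) (.e (nat_lit 483365) (nat_lit 18) (.e (nat_lit 57688) (nat_lit 156) (.e (nat_lit 163905) (nat_lit 12) (.e (nat_lit 426428) (nat_lit 17) .nil)))))) (.g (nat_lit 4) .nil .nil)))) (.nd (nat_lit 5) 
(.lf (nat_lit 220434) (.g (nat_lit 2881) (.e (nat_lit 90185) (nat_lit 17) (.e (nat_lit 237621) (nat_lit 13) (.e (nat_lit 483337) (nat_lit 9) (.e (nat_lit 426098) (nat_lit 1) (.e (nat_lit 164399) (nat_lit 256) (.e (nat_lit 57375) (nat_lit 2) .nil)))))) (.g (nat_lit 0) .nil .nil))) 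
(.lf (nat_lit 220466) (.g (nat_lit 1219) (.e (nat_lit 90185) (nat_lit 17) (.e (nat_lit 237624) (nat_lit 13) (.e (nat_lit 491264) (nat_lit 7) (.e (nat_lit 409648) (nat_lit 18) (.e (nat_lit 311040) (nat_lit 17) .nil))))) (.g (nat_lit 4) .nil .nil))))) (.nd (nat_lit 4) (.nd (nat_lit 5) 
(.lf (nat_lit 220426) (.g (nat_lit 1475) (.e (nat_lit 90185) (nat_lit 17) (.e (nat_lit 237621) (nat_lit 13) (.e (nat_lit 483333) (nat_lit 0) (.e (nat_lit 6988) (nat_lit 377) (.e (nat_lit 2404) (nat_lit 157) (.e (nat_lit 5629) (nat_lit 312) (.e (nat_lit 100) (nat_lit 2) .nil))))))) (.g (nat_lit 4) .nil .nil))) 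
(.lf (nat_lit 220458) (.g (nat_lit 1225) (.e (nat_lit 90185) (nat_lit 17) (.e (nat_lit 237623) (nat_lit 13) (.e (nat_lit 483341) (nat_lit 9) (.e (nat_lit 426099) (nat_lit 1) .nil)))) .nil))) (.nd (nat_lit 5) 
(.lf (nat_lit 220442) (.g (nat_lit 2870) (.e (nat_lit 90185) (nat_lit 17) (.e (nat_lit 237621) (nat_lit 13) (.e (nat_lit 483341) (nat_lit 9) (.e (nat_lit 426100) (nat_lit 1) (.e (nat_lit 164398) (nat_lit 256) (.e (nat_lit 57373) (nat_lit 2) .nil)))))) (.g (nat_lit 5) .nil .nil))) 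
(.lf (nat_lit 220474) (.g (nat_lit 3160) (.e (nat_lit 90185) (nat_lit 17) (.e (nat_lit 237624) (nat_lit 13) (.e (nat_lit 483337) (nat_lit 9) (.e (nat_lit 426100) (nat_lit 1) (.e (nat_lit 164403) (nat_lit 256) (.e (nat_lit 57370) (nat_lit 2) .nil)))))) (.g (nat_lit 5) .nil .nil)))))) (.nd (nat_lit 3) (.nd (nat_lit 4) (.nd (nat_lit 5) 
(.lf (nat_lit 220422) (.g (nat_lit 2884) (.e (nat_lit 90185) (nat_lit 17) (.e (nat_lit 237620) (nat_lit 13) (.e (nat_lit 483341) (nat_lit 9) (.e (nat_lit 426107) (nat_lit 1) (.e (nat_lit 164403) (nat_lit 256) (.e (nat_lit 57370) (nat_lit 2) .nil)))))) (.g (nat_lit 5) .nil .nil))) 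
(.lf (nat_lit 220454) (.g (nat_lit 1319) (.e (nat_lit 90185) (nat_lit 17) (.e (nat_lit 237623) (nat_lit 13) (.e (nat_lit 491264) (nat_lit 7) (.e (nat_lit 409645) (nat_lit 18) (.e (nat_lit 311040) (nat_lit 17) .nil))))) (.g (nat_lit 4) .nil .nil)))) (.nd (nat_lit 5) 
(.lf (nat_lit 220438) (.g (nat_lit 2945) (.e (nat_lit 90185) (nat_lit 17) (.e (nat_lit 237621) (nat_lit 13) (.e (nat_lit 483337) (nat_lit 9) (.e (nat_lit 426100) (nat_lit 1) (.e (nat_lit 164399) (nat_lit 256) (.e (nat_lit 57375) (nat_lit 2) .nil)))))) (.g (nat_lit 0) .nil .nil))) 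
(.lf (nat_lit 220470) (.g (nat_lit 2243) (.e (nat_lit 90185) (nat_lit 17) (.e (nat_lit 237624) (nat_lit 13) (.e (nat_lit 483337) (nat_lit 9) (.e (nat_lit 426099) (nat_lit 1) (.e (nat_lit 164399) (nat_lit 256) (.e (nat_lit 57373) (nat_lit 2) .nil)))))) (.g (nat_lit 5) .nil .nil))))) (.nd (nat_lit 4) (.nd (nat_lit 5) 
(.lf (nat_lit 220430) (.g (nat_lit 1107) (.e (nat_lit 90185) (nat_lit 17) (.e (nat_lit 237621) (nat_lit 13) (.e (nat_lit 491264) (nat_lit 7) (.e (nat_lit 409645) (nat_lit 18) (.e (nat_lit 311040) (nat_lit 17) .nil))))) (.g (nat_lit 4) .nil .nil))) 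
(.lf (nat_lit 220462) (.g (nat_lit 2531) (.e (nat_lit 90185) (nat_lit 17) (.e (nat_lit 237624) (nat_lit 13) (.e (nat_lit 483333) (nat_lit 0) (.e (nat_lit 7096) (nat_lit 380) (.e (nat_lit 164358) (nat_lit 246) (.e (nat_lit 100) (nat_lit 2) .nil)))))) (.g (nat_lit 6) .nil .nil)))) (.nd (nat_lit 5) 
(.lf (nat_lit 220446) (.g (nat_lit 987) (.e (nat_lit 90185) (nat_lit 17) (.e (nat_lit 237621) (nat_lit 13) (.e (nat_lit 483341) (nat_lit 9) (.e (nat_lit 433920) (nat_lit 1) .nil)))) .nil)) 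
(.lf (nat_lit 220478) (.g (nat_lit 2591) (.e (nat_lit 90185) (nat_lit 17) (.e (nat_lit 237624) (nat_lit 13) (.e (nat_lit 483341) (nat_lit 9) (.e (nat_lit 426100) (nat_lit 1) (.e (nat_lit 164398) (nat_lit 256) (.e (nat_lit 57370) (nat_lit 2) .nil)))))) (.g (nat_lit 5) .nil .nil)))))))) (.nd (nat_lit 1) (.nd (nat_lit 2) (.nd (nat_lit 3) (.nd (nat_lit 4) (.nd (nat_lit 5) 
(.lf (nat_lit 220417) (.g (nat_lit 1479) (.e (nat_lit 90185) (nat_lit 17) (.e (nat_lit 237619) (nat_lit 12) (.e (nat_lit 475185) (nat_lit 29) (.e (nat_lit 557103) (nat_lit 14) (.e (nat_lit 188160) (nat_lit 32) .nil))))) .nil)) 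
(.lf (nat_lit 220449) (.g (nat_lit 1311) (.e (nat_lit 90185) (nat_lit 17) (.e (nat_lit 237621) (nat_lit 13) (.e (nat_lit 483363) (nat_lit 18) (.e (nat_lit 57692) (nat_lit 156) (.e (nat_lit 171776) (nat_lit 12) .nil))))) .nil))) (.nd (nat_lit 5) 
(.lf (nat_lit 220433) (.g (nat_lit 1097) (.e (nat_lit 90185) (nat_lit 17) (.e (nat_lit 237621) (nat_lit 13) (.e (nat_lit 491264) (nat_lit 7) (.e (nat_lit 409649) (nat_lit 18) (.e (nat_lit 311040) (nat_lit 17) .nil))))) (.g (nat_lit 4) .nil .nil))) 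
(.lf (nat_lit 220465) (.g (nat_lit 1185) (.e (nat_lit 90185) (nat_lit 17) (.e (nat_lit 237624) (nat_lit 13) (.e (nat_lit 491264) (nat_lit 7) (.e (nat_lit 409646) (nat_lit 18) (.e (nat_lit 311040) (nat_lit 17) .nil))))) (.g (nat_lit 4) .nil .nil))))) (.nd (nat_lit 4) (.nd (nat_lit 5) 
(.lf (nat_lit 220425) (.g (nat_lit 2784) (.e (nat_lit 90185) (nat_lit 17) (.e (nat_lit 237620) (nat_lit 13) (.e (nat_lit 483341) (nat_lit 9) (.e (nat_lit 426108) (nat_lit 1) (.e (nat_lit 164403) (nat_lit 256) (.e (nat_lit 57373) (nat_lit 2) .nil)))))) (.g (nat_lit 5) .nil .nil))) 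
(.lf (nat_lit 220457) (.g (nat_lit 2387) (.e (nat_lit 90185) (nat_lit 17) (.e (nat_lit 237623) (nat_lit 13) (.e (nat_lit 483341) (nat_lit 9) (.e (nat_lit 426098) (nat_lit 1) (.e (nat_lit 164403) (nat_lit 256) .nil))))) .nil))) (.nd (nat_lit 5) 
(.lf (nat_lit 220441) (.g (nat_lit 2608) (.e (nat_lit 90185) (nat_lit 17) (.e (nat_lit 237621) (nat_lit 13) (.e (nat_lit 483341) (nat_lit 9) (.e (nat_lit 426100) (nat_lit 1) (.e (nat_lit 164398) (nat_lit 256) (.e (nat_lit 57370) (nat_lit 2) .nil)))))) (.g (nat_lit 5) .nil .nil))) 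
(.lf (nat_lit 220473) (.g (nat_lit 2890) (.e (nat_lit 90185) (nat_lit 17) (.e (nat_lit 237624) (nat_lit 13) (.e (nat_lit 483337) (nat_lit 9) (.e (nat_lit 426100) (nat_lit 1) (.e (nat_lit 164399) (nat_lit 256) (.e (nat_lit 57375) (nat_lit 2) .nil)))))) (.g (nat_lit 0) .nil .nil)))))) (.nd (nat_lit 3) (.nd (nat_lit 4) (.nd (nat_lit 5) 
(.lf (nat_lit 220421) (.g (nat_lit 2372) (.e (nat_lit 90185) (nat_lit 17) (.e (nat_lit 237620) (nat_lit 13) (.e (nat_lit 483341) (nat_lit 9) (.e (nat_lit 426100) (nat_lit 1) (.e (nat_lit 164399) (nat_lit 256) (.e (nat_lit 57370) (nat_lit 2) .nil)))))) (.g (nat_lit 5) .nil .nil))) 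
(.lf (nat_lit 220453) (.g (nat_lit 1915) (.e (nat_lit 90185) (nat_lit 17) (.e (nat_lit 237622) (nat_lit 13) (.e (nat_lit 483341) (nat_lit 9) (.e (nat_lit 426108) (nat_lit 1) (.e (nat_lit 164403) (nat_lit 256) .nil))))) .nil))) (.nd (nat_lit 5) 
(.lf (nat_lit 220437) (.g (nat_lit 2194) (.e (nat_lit 90185) (nat_lit 17) (.e (nat_lit 237621) (nat_lit 13) (.e (nat_lit 483337) (nat_lit 9) (.e (nat_lit 426100) (nat_lit 1) (.e (nat_lit 164396) (nat_lit 256) (.e (nat_lit 57375) (nat_lit 2) .nil)))))) (.g (nat_lit 4) .nil .nil))) 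
(.lf (nat_lit 220469) (.g (nat_lit 2595) (.e (nat_lit 90185) (nat_lit 17) (.e (nat_lit 237624) (nat_lit 13) (.e (nat_lit 483337) (nat_lit 9) (.e (nat_lit 426098) (nat_lit 1) (.e (nat_lit 164403) (nat_lit 256) (.e (nat_lit 57370) (nat_lit 2) .nil)))))) (.g (nat_lit 5) .nil .nil))))) (.nd (nat_lit 4) (.nd (nat_lit 5) 
(.lf (nat_lit 220429) (.g (nat_lit 2555) (.e (nat_lit 90185) (nat_lit 17) (.e (nat_lit 237621) (nat_lit 13) (.e (nat_lit 483333) (nat_lit 0) (.e (nat_lit 7096) (nat_lit 380) (.e (nat_lit 164358) (nat_lit 246) (.e (nat_lit 100) (nat_lit 2) .nil)))))) (.g (nat_lit 6) .nil .nil))) 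
(.lf (nat_lit 220461) (.g (nat_lit 1434) (.e (nat_lit 90185) (nat_lit 17) (.e (nat_lit 237624) (nat_lit 13) (.e (nat_lit 483333) (nat_lit 0) (.e (nat_lit 6988) (nat_lit 377) (.e (nat_lit 2506) (nat_lit 157) (.e (nat_lit 5629) (nat_lit 312) (.e (nat_lit 100) (nat_lit 2) .nil))))))) (.g (nat_lit 4) .nil .nil)))) (.nd (nat_lit 5) 
(.lf (nat_lit 220445) (.g (nat_lit 2661) (.e (nat_lit 90185) (nat_lit 17) (.e (nat_lit 237621) (nat_lit 13) (.e (nat_lit 483341) (nat_lit 9) (.e (nat_lit 426106) (nat_lit 1) (.e (nat_lit 164403) (nat_lit 256) (.e (nat_lit 57371) (nat_lit 2) .nil)))))) (.g (nat_lit 6) .nil .nil))) 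
(.lf (nat_lit 220477) (.g (nat_lit 2684) (.e (nat_lit 90185) (nat_lit 17) (.e (nat_lit 237624) (nat_lit 13) (.e (nat_lit 483341) (nat_lit 9) (.e (nat_lit 426098) (nat_lit 1) (.e (nat_lit 164399) (nat_lit 256) (.e (nat_lit 57375) (nat_lit 2) .nil)))))) (.g (nat_lit 0) .nil .nil))))))) (.nd (nat_lit 2) (.nd (nat_lit 3) (.nd (nat_lit 4) (.nd (nat_lit 5) 
(.lf (nat_lit 220419) (.g (nat_lit 2773) (.e (nat_lit 90185) (nat_lit 17) (.e (nat_lit 237620) (nat_lit 13) (.e (nat_lit 483341) (nat_lit 9) (.e (nat_lit 426098) (nat_lit 1) (.e (nat_lit 164403) (nat_lit 256) (.e (nat_lit 57373) (nat_lit 2) .nil)))))) (.g (nat_lit 4) .nil .nil))) 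
(.lf (nat_lit 220451) (.g (nat_lit 2748) (.e (nat_lit 90185) (nat_lit 17) (.e (nat_lit 237621) (nat_lit 13) (.e (nat_lit 483365) (nat_lit 18) (.e (nat_lit 57692) (nat_lit 156) (.e (nat_lit 163905) (nat_lit 12) (.e (nat_lit 426428) (nat_lit 17) .nil)))))) (.g (nat_lit 5) .nil .nil)))) (.nd (nat_lit 5) 
(.lf (nat_lit 220435) (.g (nat_lit 2633) (.e (nat_lit 90185) (nat_lit 17) (.e (nat_lit 237621) (nat_lit 13) (.e (nat_lit 483337) (nat_lit 9) (.e (nat_lit 426098) (nat_lit 1) (.e (nat_lit 164403) (nat_lit 256) (.e (nat_lit 57370) (nat_lit 2) .nil)))))) (.g (nat_lit 5) .nil .nil))) 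
(.lf (nat_lit 220467) (.g (nat_lit 1183) (.e (nat_lit 90185) (nat_lit 17) (.e (nat_lit 237624) (nat_lit 13) (.e (nat_lit 491264) (nat_lit 7) (.e (nat_lit 409649) (nat_lit 18) (.e (nat_lit 311040) (nat_lit 17) .nil))))) (.g (nat_lit 4) .nil .nil))))) (.nd (nat_lit 4) (.nd (nat_lit 5) 
(.lf (nat_lit 220427) (.g (nat_lit 1475) (.e (nat_lit 90185) (nat_lit 17) (.e (nat_lit 237621) (nat_lit 13) (.e (nat_lit 483333) (nat_lit 0) (.e (nat_lit 6988) (nat_lit 377) (.e (nat_lit 2506) (nat_lit 157) (.e (nat_lit 5629) (nat_lit 312) (.e (nat_lit 100) (nat_lit 2) .nil))))))) (.g (nat_lit 4) .nil .nil))) 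
(.lf (nat_lit 220459) (.g (nat_lit 2160) (.e (nat_lit 90185) (nat_lit 17) (.e (nat_lit 237623) (nat_lit 13) (.e (nat_lit 483365) (nat_lit 18) (.e (nat_lit 57692) (nat_lit 156) (.e (nat_lit 163906) (nat_lit 12) (.e (nat_lit 426430) (nat_lit 17) .nil)))))) (.g (nat_lit 4) .nil .nil)))) (.nd (nat_lit 5) 
(.lf (nat_lit 220443) (.g (nat_lit 3390) (.e (nat_lit 90185) (nat_lit 17) (.e (nat_lit 237621) (nat_lit 13) (.e (nat_lit 483341) (nat_lit 9) (.e (nat_lit 426100) (nat_lit 1) (.e (nat_lit 164403) (nat_lit 256) (.e (nat_lit 57373) (nat_lit 2) .nil)))))) (.g (nat_lit 6) .nil .nil))) 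
(.lf (nat_lit 220475) (.g (nat_lit 3270) (.e (nat_lit 90185) (nat_lit 17) (.e (nat_lit 237624) (nat_lit 13) (.e (nat_lit 483337) (nat_lit 9) (.e (nat_lit 426100) (nat_lit 1) (.e (nat_lit 164403) (nat_lit 256) (.e (nat_lit 57371) (nat_lit 2) .nil)))))) (.g (nat_lit 5) .nil .nil)))))) (.nd (nat_lit 3) (.nd (nat_lit 4) (.nd (nat_lit 5) 
(.lf (nat_lit 220423) (.g (nat_lit 2584) (.e (nat_lit 90185) (nat_lit 17) (.e (nat_lit 237620) (nat_lit 13) (.e (nat_lit 483341) (nat_lit 9) (.e (nat_lit 426107) (nat_lit 1) (.e (nat_lit 164403) (nat_lit 256) (.e (nat_lit 57371) (nat_lit 2) .nil)))))) (.g (nat_lit 4) .nil .nil))) 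
(.lf (nat_lit 220455) (.g (nat_lit 1237) (.e (nat_lit 90185) (nat_lit 17) (.e (nat_lit 237623) (nat_lit 13) (.e (nat_lit 491264) (nat_lit 7) (.e (nat_lit 409646) (nat_lit 18) (.e (nat_lit 311040) (nat_lit 17) .nil))))) (.g (nat_lit 4) .nil .nil)))) (.nd (nat_lit 5) 
(.lf (nat_lit 220439) (.g (nat_lit 3206) (.e (nat_lit 90185) (nat_lit 17) (.e (nat_lit 237621) (nat_lit 13) (.e (nat_lit 483337) (nat_lit 9) (.e (nat_lit 426100) (nat_lit 1) (.e (nat_lit 164403) (nat_lit 256) (.e (nat_lit 57370) (nat_lit 2) .nil)))))) (.g (nat_lit 5) .nil .nil))) 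
(.lf (nat_lit 220471) (.g (nat_lit 2091) (.e (nat_lit 90185) (nat_lit 17) (.e (nat_lit 237624) (nat_lit 13) (.e (nat_lit 483337) (nat_lit 9) (.e (nat_lit 426100) (nat_lit 1) (.e (nat_lit 164396) (nat_lit 256) (.e (nat_lit 57375) (nat_lit 2) .nil)))))) (.g (nat_lit 4) .nil .nil))))) (.nd (nat_lit 4) (.nd (nat_lit 5) 
(.lf (nat_lit 220431) (.g (nat_lit 1105) (.e (nat_lit 90185) (nat_lit 17) (.e (nat_lit 237621) (nat_lit 13) (.e (nat_lit 491264) (nat_lit 7) (.e (nat_lit 409646) (nat_lit 18) (.e (nat_lit 311040) (nat_lit 17) .nil))))) (.g (nat_lit 4) .nil .nil))) 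
(.lf (nat_lit 220463) (.g (nat_lit 2496) (.e (nat_lit 90185) (nat_lit 17) (.e (nat_lit 237624) (nat_lit 13) (.e (nat_lit 483333) (nat_lit 0) (.e (nat_lit 7098) (nat_lit 380) (.e (nat_lit 164356) (nat_lit 246) (.e (nat_lit 100) (nat_lit 2) .nil)))))) (.g (nat_lit 6) .nil .nil)))) (.nd (nat_lit 5) 
(.lf (nat_lit 220447) (.g (nat_lit 1407) (.e (nat_lit 90185) (nat_lit 17) (.e (nat_lit 237621) (nat_lit 13) (.e (nat_lit 491264) (nat_lit 10) (.e (nat_lit 434279) (nat_lit 39) (.e (nat_lit 663555) (nat_lit 0) (.e (nat_lit 1226) (nat_lit 91) .nil)))))) (.g (nat_lit 4) .nil .nil))) 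
(.lf (nat_lit 220479) (.g (nat_lit 2878) (.e (nat_lit 90185) (nat_lit 17) (.e (nat_lit 237624) (nat_lit 13) (.e (nat_lit 483341) (nat_lit 9) (.e (nat_lit 426100) (nat_lit 1) (.e (nat_lit 164398) (nat_lit 256) (.e (nat_lit 57373) (nat_lit 2) .nil)))))) (.g (nat_lit 5) .nil .nil)))))))))

noncomputable def tv2896 : DT := (.nd (nat_lit 0) (.nd (nat_lit 1) (.nd (nat_lit 2) (.nd (nat_lit 3) (.nd (nat_lit 4) (.nd (nat_lit 5) 
(.lf (nat_lit 220480) (.g (nat_lit 3411) (.e (nat_lit 90185) (nat_lit 17) (.e (nat_lit 237624) (nat_lit 13) (.e (nat_lit 483341) (nat_lit 9) (.e (nat_lit 426100) (nat_lit 1) (.e (nat_lit 164403) (nat_lit 256) (.e (nat_lit 57373) (nat_lit 2) .nil)))))) (.g (nat_lit 6) .nil .nil))) 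
(.lf (nat_lit 220512) (.g (nat_lit 2202) (.e (nat_lit 98048) (nat_lit 18) (.e (nat_lit 1348) (nat_lit 102) (.e (nat_lit 286759) (nat_lit 12) (.e (nat_lit 385074) (nat_lit 31) (.e (nat_lit 573456) (nat_lit 9) .nil))))) .nil))) (.nd (nat_lit 5) 
(.lf (nat_lit 220496) (.g (nat_lit 1838) (.e (nat_lit 90196) (nat_lit 18) (.e (nat_lit 2798) (nat_lit 180) (.e (nat_lit 303127) (nat_lit 9) (.e (nat_lit 426566) (nat_lit 34) (.e (nat_lit 401152) (nat_lit 3) .nil))))) .nil)) 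
(.lf (nat_lit 220528) (.g (nat_lit 1448) (.e (nat_lit 90202) (nat_lit 21) (.e (nat_lit 164110) (nat_lit 116) (.e (nat_lit 778466) (nat_lit 11) (.e (nat_lit 24615) (nat_lit 6) (.e (nat_lit 155392) (nat_lit 6) .nil))))) .nil)))) (.nd (nat_lit 4) (.nd (nat_lit 5) 
(.lf (nat_lit 220488) (.g (nat_lit 2652) (.e (nat_lit 90187) (nat_lit 18) (.e (nat_lit 2777) (nat_lit 178) (.e (nat_lit 286743) (nat_lit 9) (.e (nat_lit 336456) (nat_lit 34) (.e (nat_lit 483350) (nat_lit 17) .nil))))) .nil)) 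
(.lf (nat_lit 220520) (.g (nat_lit 3458) (.e (nat_lit 98048) (nat_lit 18) (.e (nat_lit 1349) (nat_lit 102) (.e (nat_lit 286759) (nat_lit 12) (.e (nat_lit 385074) (nat_lit 31) (.e (nat_lit 573454) (nat_lit 9) .nil))))) .nil))) (.nd (nat_lit 5) 
(.lf (nat_lit 220504) (.g (nat_lit 1092) (.e (nat_lit 98048) (nat_lit 18) (.e (nat_lit 1348) (nat_lit 102) (.e (nat_lit 286748) (nat_lit 9) (.e (nat_lit 336023) (nat_lit 3) .nil)))) .nil)) 
(.lf (nat_lit 220536) (.g (nat_lit 1543) (.e (nat_lit 90203) (nat_lit 21) (.e (nat_lit 164287) (nat_lit 224) (.e (nat_lit 164354) (nat_lit 246) (.e (nat_lit 226) (nat_lit 21) (.e (nat_lit 336443) (nat_lit 32) (.e (nat_lit 474880) (nat_lit 2) .nil)))))) (.g (nat_lit 5) .nil .nil)))))) (.nd (nat_lit 3) (.nd (nat_lit 4) (.nd (nat_lit 5) 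
(.lf (nat_lit 220484) (.g (nat_lit 2339) (.e (nat_lit 90185) (nat_lit 17) (.e (nat_lit 237625) (nat_lit 14) (.e (nat_lit 491536) (nat_lit 2) (.e (nat_lit 90172) (nat_lit 14) (.e (nat_lit 180278) (nat_lit 32) (.e (nat_lit 1234) (nat_lit 91) .nil)))))) (.g (nat_lit 4) .nil .nil))) 
(.lf (nat_lit 220516) (.g (nat_lit 968) (.e (nat_lit 98048) (nat_lit 18) (.e (nat_lit 1349) (nat_lit 102) (.e (nat_lit 286756) (nat_lit 10) (.e (nat_lit 344115) (nat_lit 20) .nil)))) .nil))) (.nd (nat_lit 5) 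
(.lf (nat_lit 220500) (.g (nat_lit 932) (.e (nat_lit 98048) (nat_lit 18) (.e (nat_lit 1347) (nat_lit 102) (.e (nat_lit 286748) (nat_lit 9) (.e (nat_lit 336295) (nat_lit 15) .nil)))) .nil)) 
(.lf (nat_lit 220532) (.g (nat_lit 1525) (.e (nat_lit 90203) (nat_lit 21) (.e (nat_lit 164286) (nat_lit 224) (.e (nat_lit 164354) (nat_lit 246) (.e (nat_lit 226) (nat_lit 21) (.e (nat_lit 336443) (nat_lit 32) (.e (nat_lit 474880) (nat_lit 2) .nil)))))) (.g (nat_lit 5) .nil .nil))))) (.nd (nat_lit 4) (.nd (nat_lit 5) 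
(.lf (nat_lit 220492) (.g (nat_lit 1205) (.e (nat_lit 90187) (nat_lit 18) (.e (nat_lit 2788) (nat_lit 179) (.e (nat_lit 294959) (nat_lit 13) (.e (nat_lit 393221) (nat_lit 0) (.e (nat_lit 6112) (nat_lit 332) (.e (nat_lit 1376) (nat_lit 104) (.e (nat_lit 311040) (nat_lit 17) .nil))))))) (.g (nat_lit 6) .nil .nil))) 
(.lf (nat_lit 220524) (.g (nat_lit 1083) (.e (nat_lit 98048) (nat_lit 18) (.e (nat_lit 1353) (nat_lit 102) (.e (nat_lit 286753) (nat_lit 10) (.e (nat_lit 344115) (nat_lit 20) (.e (nat_lit 507923) (nat_lit 6) .nil))))) .nil))) (.nd (nat_lit 5) 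
(.lf (nat_lit 220508) (.g (nat_lit 1395) (.e (nat_lit 98048) (nat_lit 18) (.e (nat_lit 1348) (nat_lit 102) (.e (nat_lit 286759) (nat_lit 12) (.e (nat_lit 385045) (nat_lit 21) .nil)))) .nil)) 
(.lf (nat_lit 220540) (.g (nat_lit 1824) (.e (nat_lit 90203) (nat_lit 21) (.e (nat_lit 164287) (nat_lit 224) (.e (nat_lit 164358) (nat_lit 246) (.e (nat_lit 226) (nat_lit 21) (.e (nat_lit 336430) (nat_lit 29) (.e (nat_lit 450304) (nat_lit 2) .nil)))))) (.g (nat_lit 5) .nil .nil))))))) (.nd (nat_lit 2) (.nd (nat_lit 3) (.nd (nat_lit 4) (.nd (nat_lit 5) 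
(.lf (nat_lit 220482) (.g (nat_lit 2623) (.e (nat_lit 90185) (nat_lit 17) (.e (nat_lit 237624) (nat_lit 13) (.e (nat_lit 483341) (nat_lit 9) (.e (nat_lit 426106) (nat_lit 1) (.e (nat_lit 164403) (nat_lit 256) (.e (nat_lit 57371) (nat_lit 2) .nil)))))) (.g (nat_lit 6) .nil .nil))) 
(.lf (nat_lit 220514) (.g (nat_lit 2665) (.e (nat_lit 98048) (nat_lit 18) (.e (nat_lit 1348) (nat_lit 102) (.e (nat_lit 286759) (nat_lit 12) (.e (nat_lit 385074) (nat_lit 31) (.e (nat_lit 581376) (nat_lit 13) .nil))))) .nil))) (.nd (nat_lit 5) 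
(.lf (nat_lit 220498) (.g (nat_lit 1872) (.e (nat_lit 90196) (nat_lit 18) (.e (nat_lit 2798) (nat_lit 180) (.e (nat_lit 303147) (nat_lit 15) (.e (nat_lit 1788) (nat_lit 119) .nil)))) .nil)) 
(.lf (nat_lit 220530) (.g (nat_lit 1418) (.e (nat_lit 90203) (nat_lit 21) (.e (nat_lit 164286) (nat_lit 224) (.e (nat_lit 164354) (nat_lit 246) (.e (nat_lit 226) (nat_lit 21) (.e (nat_lit 336428) (nat_lit 29) (.e (nat_lit 450304) (nat_lit 2) .nil)))))) (.g (nat_lit 5) .nil .nil))))) (.nd (nat_lit 4) (.nd (nat_lit 5) 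
(.lf (nat_lit 220490) (.g (nat_lit 785) (.e (nat_lit 90187) (nat_lit 18) (.e (nat_lit 2777) (nat_lit 178) (.e (nat_lit 286761) (nat_lit 13) .nil))) .nil)) 
(.lf (nat_lit 220522) (.g (nat_lit 2427) (.e (nat_lit 98048) (nat_lit 18) (.e (nat_lit 1349) (nat_lit 102) (.e (nat_lit 286759) (nat_lit 12) (.e (nat_lit 385074) (nat_lit 31) (.e (nat_lit 573482) (nat_lit 13) .nil))))) .nil))) (.nd (nat_lit 5) 
(.lf (nat_lit 220506) (.g (nat_lit 1528) (.e (nat_lit 98048) (nat_lit 18) (.e (nat_lit 1348) (nat_lit 102) (.e (nat_lit 286756) (nat_lit 10) (.e (nat_lit 344126) (nat_lit 25) (.e (nat_lit 548874) (nat_lit 5) .nil))))) .nil)) 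
(.lf (nat_lit 220538) (.g (nat_lit 2129) (.e (nat_lit 90203) (nat_lit 21) (.e (nat_lit 164287) (nat_lit 224) (.e (nat_lit 164354) (nat_lit 246) (.e (nat_lit 351) (nat_lit 28) (.e (nat_lit 393271) (nat_lit 23) (.e (nat_lit 426432) (nat_lit 17) .nil)))))) (.g (nat_lit 0) .nil .nil)))))) (.nd (nat_lit 3) (.nd (nat_lit 4) (.nd (nat_lit 5) 
(.lf (nat_lit 220486) (.g (nat_lit 1558) (.e (nat_lit 90186) (nat_lit 17) (.e (nat_lit 237624) (nat_lit 13) (.e (nat_lit 483341) (nat_lit 9) (.e (nat_lit 426108) (nat_lit 1) (.e (nat_lit 164403) (nat_lit 256) .nil))))) .nil)) 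
(.lf (nat_lit 220518) (.g (nat_lit 1390) (.e (nat_lit 98048) (nat_lit 18) (.e (nat_lit 1349) (nat_lit 102) (.e (nat_lit 286759) (nat_lit 12) (.e (nat_lit 385047) (nat_lit 21) .nil)))) .nil))) (.nd (nat_lit 5) 
(.lf (nat_lit 220502) (.g (nat_lit 1092) (.e (nat_lit 98048) (nat_lit 18) (.e (nat_lit 1348) (nat_lit 102) (.e (nat_lit 286748) (nat_lit 9) (.e (nat_lit 335938) (nat_lit 0) .nil)))) .nil)) 
(.lf (nat_lit 220534) (.g (nat_lit 1433) (.e (nat_lit 90203) (nat_lit 21) (.e (nat_lit 164287) (nat_lit 224) (.e (nat_lit 164354) (nat_lit 246) (.e (nat_lit 226) (nat_lit 21) (.e (nat_lit 336428) (nat_lit 29) (.e (nat_lit 450304) (nat_lit 2) .nil)))))) (.g (nat_lit 5) .nil .nil))))) (.nd (nat_lit 4) (.nd (nat_lit 5) 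
(.lf (nat_lit 220494) (.g (nat_lit 1556) (.e (nat_lit 90196) (nat_lit 18) (.e (nat_lit 2797) (nat_lit 180) (.e (nat_lit 303127) (nat_lit 9) (.e (nat_lit 426566) (nat_lit 34) .nil)))) .nil)) 
(.lf (nat_lit 220526) (.g (nat_lit 1225) (.e (nat_lit 98048) (nat_lit 18) (.e (nat_lit 1360) (nat_lit 102) (.e (nat_lit 286751) (nat_lit 10) (.e (nat_lit 344115) (nat_lit 20) (.e (nat_lit 507923) (nat_lit 6) .nil))))) .nil))) (.nd (nat_lit 5) 
(.lf (nat_lit 220510) (.g (nat_lit 1779) (.e (nat_lit 98048) (nat_lit 18) (.e (nat_lit 1348) (nat_lit 102) (.e (nat_lit 286759) (nat_lit 12) (.e (nat_lit 385047) (nat_lit 21) (.e (nat_lit 4197) (nat_lit 251) .nil))))) .nil)) 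
(.lf (nat_lit 220542) (.g (nat_lit 1113) (.e (nat_lit 90203) (nat_lit 21) (.e (nat_lit 164287) (nat_lit 224) (.e (nat_lit 164358) (nat_lit 246) (.e (nat_lit 351) (nat_lit 28) (.e (nat_lit 393270) (nat_lit 23) (.e (nat_lit 433920) (nat_lit 17) .nil)))))) (.g (nat_lit 5) .nil .nil)))))))) (.nd (nat_lit 1) (.nd (nat_lit 2) (.nd (nat_lit 3) (.nd (nat_lit 4) (.nd (nat_lit 5) 
(.lf (nat_lit 220481) (.g (nat_lit 2532) (.e (nat_lit 90185) (nat_lit 17) (.e (nat_lit 237624) (nat_lit 13) (.e (nat_lit 483341) (nat_lit 9) (.e (nat_lit 426106) (nat_lit 1) (.e (nat_lit 164403) (nat_lit 256) (.e (nat_lit 57370) (nat_lit 2) .nil)))))) (.g (nat_lit 6) .nil .nil))) 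
(.lf (nat_lit 220513) (.g (nat_lit 2307) (.e (nat_lit 98048) (nat_lit 18) (.e (nat_lit 1348) (nat_lit 102) (.e (nat_lit 286759) (nat_lit 12) (.e (nat_lit 385074) (nat_lit 31) (.e (nat_lit 573457) (nat_lit 9) .nil))))) .nil))) (.nd (nat_lit 5) 
(.lf (nat_lit 220497) (.g (nat_lit 1923) (.e (nat_lit 90196) (nat_lit 18) (.e (nat_lit 2798) (nat_lit 180) (.e (nat_lit 303133) (nat_lit 9) (.e (nat_lit 426412) (nat_lit 15) (.e (nat_lit 1781) (nat_lit 119) .nil))))) .nil)) 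
(.lf (nat_lit 220529) (.g (nat_lit 168) (.e (nat_lit 90202) (nat_lit 21) (.e (nat_lit 164112) (nat_lit 118) (.e (nat_lit 802560) (nat_lit 18) .nil))) .nil)))) (.nd (nat_lit 4) (.nd (nat_lit 5) 
(.lf (nat_lit 220489) (.g (nat_lit 961) (.e (nat_lit 90187) (nat_lit 18) (.e (nat_lit 2777) (nat_lit 178) (.e (nat_lit 286759) (nat_lit 12) .nil))) .nil)) 
(.lf (nat_lit 220521) (.g (nat_lit 2150) (.e (nat_lit 98048) (nat_lit 18) (.e (nat_lit 1349) (nat_lit 102) (.e (nat_lit 286759) (nat_lit 12) (.e (nat_lit 385074) (nat_lit 31) (.e (nat_lit 573457) (nat_lit 9) .nil))))) .nil))) (.nd (nat_lit 5) 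
(.lf (nat_lit 220505) (.g (nat_lit 1210) (.e (nat_lit 98048) (nat_lit 18) (.e (nat_lit 1348) (nat_lit 102) (.e (nat_lit 286749) (nat_lit 9) (.e (nat_lit 336028) (nat_lit 3) .nil)))) .nil)) 
(.lf (nat_lit 220537) (.g (nat_lit 990) (.e (nat_lit 90203) (nat_lit 21) (.e (nat_lit 164287) (nat_lit 224) (.e (nat_lit 164354) (nat_lit 246) (.e (nat_lit 351) (nat_lit 28) (.e (nat_lit 393270) (nat_lit 23) (.e (nat_lit 433920) (nat_lit 17) .nil)))))) (.g (nat_lit 5) .nil .nil)))))) (.nd (nat_lit 3) (.nd (nat_lit 4) (.nd (nat_lit 5) 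
(.lf (nat_lit 220485) (.g (nat_lit 158) (.e (nat_lit 90186) (nat_lit 17) (.e (nat_lit 237623) (nat_lit 13) (.e (nat_lit 491264) (nat_lit 10) .nil))) .nil)) 
(.lf (nat_lit 220517) (.g (nat_lit 1409) (.e (nat_lit 98048) (nat_lit 18) (.e (nat_lit 1349) (nat_lit 102) (.e (nat_lit 286759) (nat_lit 12) (.e (nat_lit 385045) (nat_lit 21) .nil)))) .nil))) (.nd (nat_lit 5) 
(.lf (nat_lit 220501) (.g (nat_lit 267) (.e (nat_lit 98048) (nat_lit 18) (.e (nat_lit 1348) (nat_lit 102) (.e (nat_lit 286748) (nat_lit 9) .nil))) .nil)) 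
(.lf (nat_lit 220533) (.g (nat_lit 969) (.e (nat_lit 90203) (nat_lit 21) (.e (nat_lit 164286) (nat_lit 224) (.e (nat_lit 164354) (nat_lit 246) (.e (nat_lit 351) (nat_lit 28) (.e (nat_lit 393270) (nat_lit 23) (.e (nat_lit 433920) (nat_lit 17) .nil)))))) (.g (nat_lit 5) .nil .nil))))) (.nd (nat_lit 4) (.nd (nat_lit 5) 
(.lf (nat_lit 220493) (.g (nat_lit 1931) (.e (nat_lit 90196) (nat_lit 18) (.e (nat_lit 2797) (nat_lit 180) (.e (nat_lit 303126) (nat_lit 9) (.e (nat_lit 426568) (nat_lit 34) (.e (nat_lit 401152) (nat_lit 3) .nil))))) .nil)) 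
(.lf (nat_lit 220525) (.g (nat_lit 688) (.e (nat_lit 98048) (nat_lit 18) (.e (nat_lit 1360) (nat_lit 102) (.e (nat_lit 286749) (nat_lit 9) .nil))) .nil))) (.nd (nat_lit 5) 
(.lf (nat_lit 220509) (.g (nat_lit 1411) (.e (nat_lit 98048) (nat_lit 18) (.e (nat_lit 1348) (nat_lit 102) (.e (nat_lit 286759) (nat_lit 12) (.e (nat_lit 385047) (nat_lit 21) .nil)))) .nil)) 
(.lf (nat_lit 220541) (.g (nat_lit 1668) (.e (nat_lit 90203) (nat_lit 21) (.e (nat_lit 164287) (nat_lit 224) (.e (nat_lit 164358) (nat_lit 246) (.e (nat_lit 226) (nat_lit 21) (.e (nat_lit 336443) (nat_lit 32) (.e (nat_lit 474880) (nat_lit 2) .nil)))))) (.g (nat_lit 5) .nil .nil))))))) (.nd (nat_lit 2) (.nd (nat_lit 3) (.nd (nat_lit 4) (.nd (nat_lit 5) 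
(.lf (nat_lit 220483) (.g (nat_lit 1369) (.e (nat_lit 90185) (nat_lit 17) (.e (nat_lit 237624) (nat_lit 13) (.e (nat_lit 483363) (nat_lit 18) (.e (nat_lit 57692) (nat_lit 156) (.e (nat_lit 171776) (nat_lit 12) .nil))))) .nil)) 
(.lf (nat_lit 220515) (.g (nat_lit 1274) (.e (nat_lit 98048) (nat_lit 18) (.e (nat_lit 1349) (nat_lit 102) (.e (nat_lit 286748) (nat_lit 9) (.e (nat_lit 336295) (nat_lit 15) (.e (nat_lit 7936) (nat_lit 202) .nil))))) .nil))) (.nd (nat_lit 5) 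
(.lf (nat_lit 220499) (.g (nat_lit 1872) (.e (nat_lit 90196) (nat_lit 18) (.e (nat_lit 2798) (nat_lit 180) (.e (nat_lit 303147) (nat_lit 15) (.e (nat_lit 1802) (nat_lit 119) .nil)))) .nil)) 
(.lf (nat_lit 220531) (.g (nat_lit 1679) (.e (nat_lit 90203) (nat_lit 21) (.e (nat_lit 164286) (nat_lit 224) (.e (nat_lit 164354) (nat_lit 246) (.e (nat_lit 226) (nat_lit 21) (.e (nat_lit 336430) (nat_lit 29) (.e (nat_lit 450304) (nat_lit 2) .nil)))))) (.g (nat_lit 5) .nil .nil))))) (.nd (nat_lit 4) (.nd (nat_lit 5) 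
(.lf (nat_lit 220491) (.g (nat_lit 2208) (.e (nat_lit 90187) (nat_lit 18) (.e (nat_lit 2777) (nat_lit 178) (.e (nat_lit 286761) (nat_lit 13) (.e (nat_lit 393225) (nat_lit 9) (.e (nat_lit 335995) (nat_lit 1) .nil))))) .nil)) 
(.lf (nat_lit 220523) (.g (nat_lit 2539) (.e (nat_lit 98048) (nat_lit 18) (.e (nat_lit 1349) (nat_lit 102) (.e (nat_lit 286759) (nat_lit 12) (.e (nat_lit 385074) (nat_lit 31) (.e (nat_lit 581376) (nat_lit 13) .nil))))) .nil))) (.nd (nat_lit 5) 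
(.lf (nat_lit 220507) (.g (nat_lit 332) (.e (nat_lit 98048) (nat_lit 18) (.e (nat_lit 1348) (nat_lit 102) (.e (nat_lit 286759) (nat_lit 12) .nil))) .nil)) 
(.lf (nat_lit 220539) (.g (nat_lit 1574) (.e (nat_lit 90203) (nat_lit 21) (.e (nat_lit 164287) (nat_lit 224) (.e (nat_lit 164358) (nat_lit 246) (.e (nat_lit 226) (nat_lit 21) (.e (nat_lit 336428) (nat_lit 29) (.e (nat_lit 450304) (nat_lit 2) .nil)))))) (.g (nat_lit 5) .nil .nil)))))) (.nd (nat_lit 3) (.nd (nat_lit 4) (.nd (nat_lit 5) 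
(.lf (nat_lit 220487) (.g (nat_lit 4643) (.e (nat_lit 90187) (nat_lit 18) (.e (nat_lit 1370) (nat_lit 103) (.e (nat_lit 294955) (nat_lit 12) (.e (nat_lit 385073) (nat_lit 31) (.e (nat_lit 573493) (nat_lit 15) (.e (nat_lit 81953) (nat_lit 22) .nil)))))) (.g (nat_lit 6) .nil .nil))) 
(.lf (nat_lit 220519) (.g (nat_lit 955) (.e (nat_lit 98048) (nat_lit 18) (.e (nat_lit 1349) (nat_lit 102) (.e (nat_lit 286759) (nat_lit 12) (.e (nat_lit 385074) (nat_lit 31) .nil)))) .nil))) (.nd (nat_lit 5) 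
(.lf (nat_lit 220503) (.g (nat_lit 1914) (.e (nat_lit 98048) (nat_lit 18) (.e (nat_lit 1348) (nat_lit 102) (.e (nat_lit 286748) (nat_lit 9) (.e (nat_lit 336013) (nat_lit 2) (.e (nat_lit 90165) (nat_lit 12) .nil))))) .nil)) 
(.lf (nat_lit 220535) (.g (nat_lit 1696) (.e (nat_lit 90203) (nat_lit 21) (.e (nat_lit 164287) (nat_lit 224) (.e (nat_lit 164354) (nat_lit 246) (.e (nat_lit 226) (nat_lit 21) (.e (nat_lit 336430) (nat_lit 29) (.e (nat_lit 450304) (nat_lit 2) .nil)))))) (.g (nat_lit 5) .nil .nil))))) (.nd (nat_lit 4) (.nd (nat_lit 5) 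
(.lf (nat_lit 220495) (.g (nat_lit 1524) (.e (nat_lit 90196) (nat_lit 18) (.e (nat_lit 2797) (nat_lit 180) (.e (nat_lit 311040) (nat_lit 17) (.e (nat_lit 90170) (nat_lit 13) (.e (nat_lit 172065) (nat_lit 3) .nil))))) .nil)) 
(.lf (nat_lit 220527) (.g (nat_lit 1958) (.e (nat_lit 98048) (nat_lit 18) (.e (nat_lit 1360) (nat_lit 102) (.e (nat_lit 286753) (nat_lit 10) (.e (nat_lit 344129) (nat_lit 26) (.e (nat_lit 557087) (nat_lit 11) .nil))))) .nil))) (.nd (nat_lit 5) 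
(.lf (nat_lit 220511) (.g (nat_lit 1731) (.e (nat_lit 98048) (nat_lit 18) (.e (nat_lit 1348) (nat_lit 102) (.e (nat_lit 286759) (nat_lit 12) (.e (nat_lit 385047) (nat_lit 21) (.e (nat_lit 4281) (nat_lit 253) .nil))))) .nil)) 
(.lf (nat_lit 220543) (.g (nat_lit 1453) (.e (nat_lit 90203) (nat_lit 21) (.e (nat_lit 164288) (nat_lit 224) (.e (nat_lit 164354) (nat_lit 246) (.e (nat_lit 226) (nat_lit 21) (.e (nat_lit 336428) (nat_lit 29) (.e (nat_lit 450304) (nat_lit 2) .nil)))))) (.g (nat_lit 5) .nil .nil)))))))))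

noncomputable def tv2897 : DT := (.nd (nat_lit 0) (.nd (nat_lit 1) (.nd (nat_lit 2) (.nd (nat_lit 3) (.nd (nat_lit 4) (.nd (nat_lit 5) (.nd (nat_lit 6) 
(.lf (nat_lit 220544) (.g (nat_lit 1711) (.e (nat_lit 90203) (nat_lit 21) (.e (nat_lit 164288) (nat_lit 224) (.e (nat_lit 164354) (nat_lit 246) (.e (nat_lit 226) (nat_lit 21) (.e (nat_lit 336430) (nat_lit 29) (.e (nat_lit 450304) (nat_lit 2) .nil)))))) (.g (nat_lit 5) .nil .nil))) 
(.lf (nat_lit 220608) (.g (nat_lit 1922) (.e (nat_lit 106240) (nat_lit 3) (.e (nat_lit 114714) (nat_lit 22) (.e (nat_lit 90172) (nat_lit 14) (.e (nat_lit 180243) (nat_lit 5) (.e (nat_lit 540416) (nat_lit 26) .nil))))) .nil))) (.nd (nat_lit 6) 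
(.lf (nat_lit 220576) (.g (nat_lit 3151) (.e (nat_lit 98307) (nat_lit 0) (.e (nat_lit 2173) (nat_lit 143) (.e (nat_lit 712728) (nat_lit 18) (.e (nat_lit 204863) (nat_lit 27) (.e (nat_lit 344133) (nat_lit 26) (.e (nat_lit 557098) (nat_lit 13) (.e (nat_lit 179968) (nat_lit 18) .nil))))))) (.g (nat_lit 6) .nil .nil))) 
(.lf (nat_lit 220640) (.g (nat_lit 2089) (.e (nat_lit 106240) (nat_lit 3) (.e (nat_lit 114718) (nat_lit 23) (.e (nat_lit 98365) (nat_lit 26) (.e (nat_lit 426124) (nat_lit 2) (.e (nat_lit 196619) (nat_lit 9) .nil))))) .nil)))) (.nd (nat_lit 5) (.nd (nat_lit 6) 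
(.lf (nat_lit 220560) (.g (nat_lit 1635) (.e (nat_lit 90203) (nat_lit 21) (.e (nat_lit 164291) (nat_lit 224) (.e (nat_lit 164353) (nat_lit 246) (.e (nat_lit 226) (nat_lit 21) (.e (nat_lit 336443) (nat_lit 32) (.e (nat_lit 474880) (nat_lit 2) .nil)))))) (.g (nat_lit 5) .nil .nil))) 
(.lf (nat_lit 220624) (.g (nat_lit 1498) (.e (nat_lit 106240) (nat_lit 3) (.e (nat_lit 114714) (nat_lit 22) (.e (nat_lit 90185) (nat_lit 17) (.e (nat_lit 237594) (nat_lit 3) (.e (nat_lit 212736) (nat_lit 9) .nil))))) .nil))) (.nd (nat_lit 6) 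
(.lf (nat_lit 220592) (.g (nat_lit 404) (.e (nat_lit 106240) (nat_lit 1) (.e (nat_lit 57927) (nat_lit 282) (.e (nat_lit 163886) (nat_lit 5) .nil))) .nil)) 
(.lf (nat_lit 220656) (.g (nat_lit 2556) (.e (nat_lit 106240) (nat_lit 3) (.e (nat_lit 114719) (nat_lit 23) (.e (nat_lit 98365) (nat_lit 26) (.e (nat_lit 426116) (nat_lit 2) (.e (nat_lit 196624) (nat_lit 9) .nil))))) .nil))))) (.nd (nat_lit 4) (.nd (nat_lit 5) (.nd (nat_lit 6) 
(.lf (nat_lit 220552) (.g (nat_lit 2140) (.e (nat_lit 90203) (nat_lit 21) (.e (nat_lit 164289) (nat_lit 224) (.e (nat_lit 164354) (nat_lit 246) (.e (nat_lit 351) (nat_lit 28) (.e (nat_lit 393271) (nat_lit 23) (.e (nat_lit 426432) (nat_lit 17) .nil)))))) (.g (nat_lit 0) .nil .nil))) 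
(.lf (nat_lit 220616) (.g (nat_lit 1178) (.e (nat_lit 106240) (nat_lit 3) (.e (nat_lit 114714) (nat_lit 22) (.e (nat_lit 90174) (nat_lit 14) (.e (nat_lit 180243) (nat_lit 5) .nil)))) .nil))) (.nd (nat_lit 6) 
(.lf (nat_lit 220584) (.g (nat_lit 275) (.e (nat_lit 98309) (nat_lit 0) (.e (nat_lit 6216) (nat_lit 333) (.e (nat_lit 57889) (nat_lit 270) .nil))) .nil)) 
(.lf (nat_lit 220648) (.g (nat_lit 1903) (.e (nat_lit 106240) (nat_lit 3) (.e (nat_lit 114718) (nat_lit 23) (.e (nat_lit 98366) (nat_lit 27) (.e (nat_lit 434244) (nat_lit 28) (.e (nat_lit 573468) (nat_lit 10) .nil))))) .nil)))) (.nd (nat_lit 5) (.nd (nat_lit 6) 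
(.lf (nat_lit 220568) (.g (nat_lit 1719) (.e (nat_lit 90203) (nat_lit 21) (.e (nat_lit 164294) (nat_lit 224) (.e (nat_lit 164356) (nat_lit 246) (.e (nat_lit 226) (nat_lit 21) (.e (nat_lit 336428) (nat_lit 29) (.e (nat_lit 450304) (nat_lit 2) .nil)))))) (.g (nat_lit 5) .nil .nil))) 
(.lf (nat_lit 220632) (.g (nat_lit 1595) (.e (nat_lit 106240) (nat_lit 3) (.e (nat_lit 114716) (nat_lit 22) (.e (nat_lit 90185) (nat_lit 17) (.e (nat_lit 237589) (nat_lit 2) (.e (nat_lit 196628) (nat_lit 9) .nil))))) .nil))) (.nd (nat_lit 6) 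
(.lf (nat_lit 220600) (.g (nat_lit 1618) (.e (nat_lit 106240) (nat_lit 3) (.e (nat_lit 114714) (nat_lit 22) (.e (nat_lit 90170) (nat_lit 13) (.e (nat_lit 172065) (nat_lit 3) .nil)))) .nil)) 
(.lf (nat_lit 220664) (.g (nat_lit 1490) (.e (nat_lit 106240) (nat_lit 3) (.e (nat_lit 114719) (nat_lit 23) (.e (nat_lit 98367) (nat_lit 27) (.e (nat_lit 434219) (nat_lit 19) .nil)))) .nil)))))) (.nd (nat_lit 3) (.nd (nat_lit 4) (.nd (nat_lit 5) (.nd (nat_lit 6) 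
(.lf (nat_lit 220548) (.g (nat_lit 1449) (.e (nat_lit 90203) (nat_lit 21) (.e (nat_lit 164289) (nat_lit 224) (.e (nat_lit 164354) (nat_lit 246) (.e (nat_lit 226) (nat_lit 21) (.e (nat_lit 336428) (nat_lit 29) (.e (nat_lit 450304) (nat_lit 2) .nil)))))) (.g (nat_lit 5) .nil .nil))) 
(.lf (nat_lit 220612) (.g (nat_lit 2369) (.e (nat_lit 106240) (nat_lit 3) (.e (nat_lit 114714) (nat_lit 22) (.e (nat_lit 90172) (nat_lit 14) (.e (nat_lit 180250) (nat_lit 10) (.e (nat_lit 573468) (nat_lit 10) .nil))))) .nil))) (.nd (nat_lit 6) 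
(.lf (nat_lit 220580) (.g (nat_lit 726) (.e (nat_lit 98309) (nat_lit 0) (.e (nat_lit 6112) (nat_lit 332) (.e (nat_lit 2507) (nat_lit 157) (.e (nat_lit 5259) (nat_lit 298) (.e (nat_lit 494) (nat_lit 39) .nil))))) .nil)) 
(.lf (nat_lit 220644) (.g (nat_lit 2525) (.e (nat_lit 106240) (nat_lit 3) (.e (nat_lit 114718) (nat_lit 23) (.e (nat_lit 98365) (nat_lit 26) (.e (nat_lit 426133) (nat_lit 3) (.e (nat_lit 212736) (nat_lit 9) .nil))))) .nil)))) (.nd (nat_lit 5) (.nd (nat_lit 6) 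
(.lf (nat_lit 220564) (.g (nat_lit 1789) (.e (nat_lit 90203) (nat_lit 21) (.e (nat_lit 164294) (nat_lit 224) (.e (nat_lit 164353) (nat_lit 246) (.e (nat_lit 226) (nat_lit 21) (.e (nat_lit 336430) (nat_lit 29) (.e (nat_lit 450304) (nat_lit 2) .nil)))))) (.g (nat_lit 5) .nil .nil))) 
(.lf (nat_lit 220628) (.g (nat_lit 1098) (.e (nat_lit 106240) (nat_lit 3) (.e (nat_lit 114715) (nat_lit 22) (.e (nat_lit 90170) (nat_lit 13) (.e (nat_lit 172067) (nat_lit 3) .nil)))) .nil))) (.nd (nat_lit 6) 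
(.lf (nat_lit 220596) (.g (nat_lit 603) (.e (nat_lit 106240) (nat_lit 3) (.e (nat_lit 114698) (nat_lit 11) (.e (nat_lit 433920) (nat_lit 34) .nil))) .nil)) 
(.lf (nat_lit 220660) (.g (nat_lit 1830) (.e (nat_lit 106240) (nat_lit 3) (.e (nat_lit 114719) (nat_lit 23) (.e (nat_lit 98366) (nat_lit 27) (.e (nat_lit 434219) (nat_lit 19) (.e (nat_lit 499965) (nat_lit 14) .nil))))) .nil))))) (.nd (nat_lit 4) (.nd (nat_lit 5) (.nd (nat_lit 6) 
(.lf (nat_lit 220556) (.g (nat_lit 1983) (.e (nat_lit 90203) (nat_lit 21) (.e (nat_lit 164289) (nat_lit 224) (.e (nat_lit 164358) (nat_lit 246) (.e (nat_lit 351) (nat_lit 28) (.e (nat_lit 393270) (nat_lit 23) (.e (nat_lit 426432) (nat_lit 17) .nil)))))) (.g (nat_lit 0) .nil .nil))) 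
(.lf (nat_lit 220620) (.g (nat_lit 1500) (.e (nat_lit 106240) (nat_lit 3) (.e (nat_lit 114714) (nat_lit 22) (.e (nat_lit 90185) (nat_lit 17) (.e (nat_lit 237589) (nat_lit 2) .nil)))) .nil))) (.nd (nat_lit 6) 
(.lf (nat_lit 220588) (.g (nat_lit 1426) (.e (nat_lit 106240) (nat_lit 1) (.e (nat_lit 57849) (nat_lit 252) (.e (nat_lit 57411) (nat_lit 12) (.e (nat_lit 336019) (nat_lit 3) .nil)))) .nil)) 
(.lf (nat_lit 220652) (.g (nat_lit 1886) (.e (nat_lit 106240) (nat_lit 3) (.e (nat_lit 114718) (nat_lit 23) (.e (nat_lit 98384) (nat_lit 32) (.e (nat_lit 475169) (nat_lit 22) (.e (nat_lit 499791) (nat_lit 3) .nil))))) .nil)))) (.nd (nat_lit 5) (.nd (nat_lit 6) 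
(.lf (nat_lit 220572) (.g (nat_lit 1907) (.e (nat_lit 90203) (nat_lit 21) (.e (nat_lit 164294) (nat_lit 224) (.e (nat_lit 164356) (nat_lit 246) (.e (nat_lit 351) (nat_lit 28) (.e (nat_lit 393271) (nat_lit 23) (.e (nat_lit 433920) (nat_lit 17) .nil)))))) (.g (nat_lit 5) .nil .nil))) 
(.lf (nat_lit 220636) (.g (nat_lit 1320) (.e (nat_lit 106240) (nat_lit 3) (.e (nat_lit 114718) (nat_lit 23) (.e (nat_lit 98365) (nat_lit 26) (.e (nat_lit 426115) (nat_lit 2) .nil)))) .nil))) (.nd (nat_lit 6) 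
(.lf (nat_lit 220604) (.g (nat_lit 430) (.e (nat_lit 106240) (nat_lit 3) (.e (nat_lit 114714) (nat_lit 22) (.e (nat_lit 90172) (nat_lit 14) .nil))) .nil)) 
(.lf (nat_lit 220668) (.g (nat_lit 1619) (.e (nat_lit 106240) (nat_lit 5) (.e (nat_lit 147495) (nat_lit 11) (.e (nat_lit 24604) (nat_lit 2) (.e (nat_lit 90172) (nat_lit 14) .nil)))) .nil))))))) (.nd (nat_lit 2) (.nd (nat_lit 3) (.nd (nat_lit 4) (.nd (nat_lit 5) (.nd (nat_lit 6) 
(.lf (nat_lit 220546) (.g (nat_lit 991) (.e (nat_lit 90203) (nat_lit 21) (.e (nat_lit 164288) (nat_lit 224) (.e (nat_lit 164354) (nat_lit 246) (.e (nat_lit 351) (nat_lit 28) (.e (nat_lit 393270) (nat_lit 23) (.e (nat_lit 433920) (nat_lit 17) .nil)))))) (.g (nat_lit 5) .nil .nil))) 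
(.lf (nat_lit 220610) (.g (nat_lit 1554) (.e (nat_lit 106240) (nat_lit 3) (.e (nat_lit 114714) (nat_lit 22) (.e (nat_lit 90172) (nat_lit 14) (.e (nat_lit 180247) (nat_lit 7) (.e (nat_lit 548910) (nat_lit 17) .nil))))) .nil))) (.nd (nat_lit 6) 
(.lf (nat_lit 220578) (.g (nat_lit 732) (.e (nat_lit 98309) (nat_lit 0) (.e (nat_lit 6112) (nat_lit 332) (.e (nat_lit 2406) (nat_lit 157) (.e (nat_lit 5259) (nat_lit 298) (.e (nat_lit 494) (nat_lit 39) (.e (nat_lit 491264) (nat_lit 3) (.e (nat_lit 229120) (nat_lit 3) .nil))))))) (.g (nat_lit 4) .nil .nil))) 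
(.lf (nat_lit 220642) (.g (nat_lit 2179) (.e (nat_lit 106240) (nat_lit 3) (.e (nat_lit 114718) (nat_lit 23) (.e (nat_lit 98365) (nat_lit 26) (.e (nat_lit 426124) (nat_lit 2) (.e (nat_lit 196624) (nat_lit 9) .nil))))) .nil)))) (.nd (nat_lit 5) (.nd (nat_lit 6) 
(.lf (nat_lit 220562) (.g (nat_lit 2272) (.e (nat_lit 90203) (nat_lit 21) (.e (nat_lit 164291) (nat_lit 224) (.e (nat_lit 164353) (nat_lit 246) (.e (nat_lit 351) (nat_lit 28) (.e (nat_lit 393271) (nat_lit 23) (.e (nat_lit 426432) (nat_lit 17) .nil)))))) (.g (nat_lit 0) .nil .nil))) 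
(.lf (nat_lit 220626) (.g (nat_lit 1350) (.e (nat_lit 106240) (nat_lit 3) (.e (nat_lit 114715) (nat_lit 22) (.e (nat_lit 90170) (nat_lit 13) (.e (nat_lit 172065) (nat_lit 3) .nil)))) .nil))) (.nd (nat_lit 6) 
(.lf (nat_lit 220594) (.g (nat_lit 527) (.e (nat_lit 106240) (nat_lit 3) (.e (nat_lit 114697) (nat_lit 11) (.e (nat_lit 433920) (nat_lit 34) (.e (nat_lit 393272) (nat_lit 23) (.e (nat_lit 426434) (nat_lit 18) .nil))))) .nil)) 
(.lf (nat_lit 220658) (.g (nat_lit 2290) (.e (nat_lit 106240) (nat_lit 3) (.e (nat_lit 114719) (nat_lit 23) (.e (nat_lit 98365) (nat_lit 26) (.e (nat_lit 426133) (nat_lit 3) (.e (nat_lit 212736) (nat_lit 9) .nil))))) .nil))))) (.nd (nat_lit 4) (.nd (nat_lit 5) (.nd (nat_lit 6) 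
(.lf (nat_lit 220554) (.g (nat_lit 1889) (.e (nat_lit 90203) (nat_lit 21) (.e (nat_lit 164289) (nat_lit 224) (.e (nat_lit 164358) (nat_lit 246) (.e (nat_lit 226) (nat_lit 21) (.e (nat_lit 336430) (nat_lit 29) (.e (nat_lit 450304) (nat_lit 2) .nil)))))) (.g (nat_lit 5) .nil .nil))) 
(.lf (nat_lit 220618) (.g (nat_lit 2657) (.e (nat_lit 106240) (nat_lit 3) (.e (nat_lit 114714) (nat_lit 22) (.e (nat_lit 90174) (nat_lit 14) (.e (nat_lit 180250) (nat_lit 10) (.e (nat_lit 573468) (nat_lit 10) .nil))))) .nil))) (.nd (nat_lit 6) 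
(.lf (nat_lit 220586) (.g (nat_lit 527) (.e (nat_lit 106240) (nat_lit 1) (.e (nat_lit 57846) (nat_lit 252) (.e (nat_lit 57430) (nat_lit 16) .nil))) .nil)) 
(.lf (nat_lit 220650) (.g (nat_lit 2477) (.e (nat_lit 106240) (nat_lit 3) (.e (nat_lit 114718) (nat_lit 23) (.e (nat_lit 98367) (nat_lit 27) (.e (nat_lit 434219) (nat_lit 19) (.e (nat_lit 500048) (nat_lit 16) .nil))))) .nil)))) (.nd (nat_lit 5) (.nd (nat_lit 6) 
(.lf (nat_lit 220570) (.g (nat_lit 1799) (.e (nat_lit 90203) (nat_lit 21) (.e (nat_lit 164294) (nat_lit 224) (.e (nat_lit 164356) (nat_lit 246) (.e (nat_lit 226) (nat_lit 21) (.e (nat_lit 336443) (nat_lit 32) (.e (nat_lit 474880) (nat_lit 2) .nil)))))) (.g (nat_lit 5) .nil .nil))) 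
(.lf (nat_lit 220634) (.g (nat_lit 1002) (.e (nat_lit 106240) (nat_lit 3) (.e (nat_lit 114716) (nat_lit 22) (.e (nat_lit 90185) (nat_lit 17) (.e (nat_lit 237592) (nat_lit 3) .nil)))) .nil))) (.nd (nat_lit 6) 
(.lf (nat_lit 220602) (.g (nat_lit 2275) (.e (nat_lit 106240) (nat_lit 3) (.e (nat_lit 114714) (nat_lit 22) (.e (nat_lit 90170) (nat_lit 13) (.e (nat_lit 172067) (nat_lit 3) (.e (nat_lit 204816) (nat_lit 17) .nil))))) .nil)) 
(.lf (nat_lit 220666) (.g (nat_lit 1678) (.e (nat_lit 106240) (nat_lit 5) (.e (nat_lit 147495) (nat_lit 11) (.e (nat_lit 24604) (nat_lit 2) (.e (nat_lit 90168) (nat_lit 13) .nil)))) .nil)))))) (.nd (nat_lit 3) (.nd (nat_lit 4) (.nd (nat_lit 5) (.nd (nat_lit 6) 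
(.lf (nat_lit 220550) (.g (nat_lit 1561) (.e (nat_lit 90203) (nat_lit 21) (.e (nat_lit 164289) (nat_lit 224) (.e (nat_lit 164354) (nat_lit 246) (.e (nat_lit 226) (nat_lit 21) (.e (nat_lit 336443) (nat_lit 32) (.e (nat_lit 474880) (nat_lit 2) .nil)))))) (.g (nat_lit 5) .nil .nil))) 
(.lf (nat_lit 220614) (.g (nat_lit 2089) (.e (nat_lit 106240) (nat_lit 3) (.e (nat_lit 114714) (nat_lit 22) (.e (nat_lit 90173) (nat_lit 14) (.e (nat_lit 180252) (nat_lit 10) (.e (nat_lit 573468) (nat_lit 10) .nil))))) .nil))) (.nd (nat_lit 6) 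
(.lf (nat_lit 220582) (.g (nat_lit 2103) (.e (nat_lit 98309) (nat_lit 0) (.e (nat_lit 6207) (nat_lit 333) (.e (nat_lit 57881) (nat_lit 270) (.e (nat_lit 371) (nat_lit 32) (.e (nat_lit 426542) (nat_lit 29) .nil))))) .nil)) 
(.lf (nat_lit 220646) (.g (nat_lit 440) (.e (nat_lit 106240) (nat_lit 3) (.e (nat_lit 114718) (nat_lit 23) (.e (nat_lit 98366) (nat_lit 27) .nil))) .nil)))) (.nd (nat_lit 5) (.nd (nat_lit 6) 
(.lf (nat_lit 220566) (.g (nat_lit 1136) (.e (nat_lit 90203) (nat_lit 21) (.e (nat_lit 164294) (nat_lit 224) (.e (nat_lit 164353) (nat_lit 246) (.e (nat_lit 351) (nat_lit 28) (.e (nat_lit 393270) (nat_lit 23) (.e (nat_lit 433920) (nat_lit 17) .nil)))))) (.g (nat_lit 5) .nil .nil))) 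
(.lf (nat_lit 220630) (.g (nat_lit 479) (.e (nat_lit 106240) (nat_lit 3) (.e (nat_lit 114716) (nat_lit 22) (.e (nat_lit 90173) (nat_lit 14) .nil))) .nil))) (.nd (nat_lit 6) 
(.lf (nat_lit 220598) (.g (nat_lit 1798) (.e (nat_lit 106240) (nat_lit 3) (.e (nat_lit 114714) (nat_lit 22) (.e (nat_lit 90167) (nat_lit 13) (.e (nat_lit 172067) (nat_lit 3) (.e (nat_lit 212736) (nat_lit 9) .nil))))) .nil)) 
(.lf (nat_lit 220662) (.g (nat_lit 2022) (.e (nat_lit 106240) (nat_lit 3) (.e (nat_lit 114719) (nat_lit 23) (.e (nat_lit 98366) (nat_lit 27) (.e (nat_lit 434244) (nat_lit 28) (.e (nat_lit 573468) (nat_lit 10) .nil))))) .nil))))) (.nd (nat_lit 4) (.nd (nat_lit 5) (.nd (nat_lit 6) 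
(.lf (nat_lit 220558) (.g (nat_lit 1520) (.e (nat_lit 90203) (nat_lit 21) (.e (nat_lit 164291) (nat_lit 224) (.e (nat_lit 164353) (nat_lit 246) (.e (nat_lit 226) (nat_lit 21) (.e (nat_lit 336428) (nat_lit 29) (.e (nat_lit 450304) (nat_lit 2) .nil)))))) (.g (nat_lit 5) .nil .nil))) 
(.lf (nat_lit 220622) (.g (nat_lit 2206) (.e (nat_lit 106240) (nat_lit 3) (.e (nat_lit 114714) (nat_lit 22) (.e (nat_lit 90185) (nat_lit 17) (.e (nat_lit 237591) (nat_lit 3) .nil)))) .nil))) (.nd (nat_lit 6) 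
(.lf (nat_lit 220590) (.g (nat_lit 1433) (.e (nat_lit 106240) (nat_lit 1) (.e (nat_lit 57852) (nat_lit 252) (.e (nat_lit 57431) (nat_lit 16) (.e (nat_lit 368676) (nat_lit 21) (.e (nat_lit 516174) (nat_lit 14) .nil))))) .nil)) 
(.lf (nat_lit 220654) (.g (nat_lit 1238) (.e (nat_lit 106240) (nat_lit 3) (.e (nat_lit 114719) (nat_lit 23) (.e (nat_lit 98365) (nat_lit 26) (.e (nat_lit 426115) (nat_lit 2) .nil)))) .nil)))) (.nd (nat_lit 5) (.nd (nat_lit 6) 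
(.lf (nat_lit 220574) (.g (nat_lit 1313) (.e (nat_lit 98048) (nat_lit 21) (.e (nat_lit 164356) (nat_lit 246) (.e (nat_lit 100) (nat_lit 2) (.e (nat_lit 90172) (nat_lit 14) (.e (nat_lit 180244) (nat_lit 5) .nil))))) .nil)) 
(.lf (nat_lit 220638) (.g (nat_lit 2583) (.e (nat_lit 106240) (nat_lit 3) (.e (nat_lit 114718) (nat_lit 23) (.e (nat_lit 98365) (nat_lit 26) (.e (nat_lit 426116) (nat_lit 2) (.e (nat_lit 196624) (nat_lit 9) .nil))))) .nil))) (.nd (nat_lit 6) 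
(.lf (nat_lit 220606) (.g (nat_lit 1405) (.e (nat_lit 106240) (nat_lit 3) (.e (nat_lit 114714) (nat_lit 22) (.e (nat_lit 90172) (nat_lit 14) (.e (nat_lit 180236) (nat_lit 1) .nil)))) .nil)) 
(.lf (nat_lit 220670) (.g (nat_lit 1622) (.e (nat_lit 106240) (nat_lit 5) (.e (nat_lit 147496) (nat_lit 11) (.e (nat_lit 24603) (nat_lit 2) (.e (nat_lit 90172) (nat_lit 14) (.e (nat_lit 180278) (nat_lit 32) .nil))))) .nil)))))))) (.nd (nat_lit 1) (.nd (nat_lit 2) (.nd (nat_lit 3) (.nd (nat_lit 4) (.nd (nat_lit 5) (.nd (nat_lit 6) 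
(.lf (nat_lit 220545) (.g (nat_lit 1559) (.e (nat_lit 90203) (nat_lit 21) (.e (nat_lit 164288) (nat_lit 224) (.e (nat_lit 164354) (nat_lit 246) (.e (nat_lit 226) (nat_lit 21) (.e (nat_lit 336443) (nat_lit 32) (.e (nat_lit 474880) (nat_lit 2) .nil)))))) (.g (nat_lit 5) .nil .nil))) 
(.lf (nat_lit 220609) (.g (nat_lit 1203) (.e (nat_lit 106240) (nat_lit 3) (.e (nat_lit 114714) (nat_lit 22) (.e (nat_lit 90172) (nat_lit 14) (.e (nat_lit 180244) (nat_lit 5) .nil)))) .nil))) (.nd (nat_lit 6) 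
(.lf (nat_lit 220577) (.g (nat_lit 404) (.e (nat_lit 98308) (nat_lit 0) (.e (nat_lit 6112) (nat_lit 332) (.e (nat_lit 2406) (nat_lit 157) .nil))) .nil)) 
(.lf (nat_lit 220641) (.g (nat_lit 2228) (.e (nat_lit 106240) (nat_lit 3) (.e (nat_lit 114718) (nat_lit 23) (.e (nat_lit 98365) (nat_lit 26) (.e (nat_lit 426124) (nat_lit 2) (.e (nat_lit 196622) (nat_lit 9) .nil))))) .nil)))) (.nd (nat_lit 5) (.nd (nat_lit 6) 
(.lf (nat_lit 220561) (.g (nat_lit 1120) (.e (nat_lit 90203) (nat_lit 21) (.e (nat_lit 164291) (nat_lit 224) (.e (nat_lit 164353) (nat_lit 246) (.e (nat_lit 351) (nat_lit 28) (.e (nat_lit 393270) (nat_lit 23) (.e (nat_lit 433920) (nat_lit 17) .nil)))))) (.g (nat_lit 5) .nil .nil))) 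
(.lf (nat_lit 220625) (.g (nat_lit 1631) (.e (nat_lit 106240) (nat_lit 3) (.e (nat_lit 114715) (nat_lit 22) (.e (nat_lit 90170) (nat_lit 13) (.e (nat_lit 172062) (nat_lit 2) .nil)))) .nil))) (.nd (nat_lit 6) 
(.lf (nat_lit 220593) (.g (nat_lit 389) (.e (nat_lit 106240) (nat_lit 3) (.e (nat_lit 114697) (nat_lit 11) (.e (nat_lit 433920) (nat_lit 34) .nil))) .nil)) 
(.lf (nat_lit 220657) (.g (nat_lit 2030) (.e (nat_lit 106240) (nat_lit 3) (.e (nat_lit 114719) (nat_lit 23) (.e (nat_lit 98365) (nat_lit 26) (.e (nat_lit 426124) (nat_lit 2) (.e (nat_lit 196624) (nat_lit 9) .nil))))) .nil))))) (.nd (nat_lit 4) (.nd (nat_lit 5) (.nd (nat_lit 6) 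
(.lf (nat_lit 220553) (.g (nat_lit 1660) (.e (nat_lit 90203) (nat_lit 21) (.e (nat_lit 164289) (nat_lit 224) (.e (nat_lit 164358) (nat_lit 246) (.e (nat_lit 226) (nat_lit 21) (.e (nat_lit 336428) (nat_lit 29) (.e (nat_lit 450304) (nat_lit 2) .nil)))))) (.g (nat_lit 5) .nil .nil))) 
(.lf (nat_lit 220617) (.g (nat_lit 1245) (.e (nat_lit 106240) (nat_lit 3) (.e (nat_lit 114714) (nat_lit 22) (.e (nat_lit 90174) (nat_lit 14) (.e (nat_lit 180250) (nat_lit 10) .nil)))) .nil))) (.nd (nat_lit 6) 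
(.lf (nat_lit 220585) (.g (nat_lit 678) (.e (nat_lit 106240) (nat_lit 1) (.e (nat_lit 57830) (nat_lit 250) (.e (nat_lit 1296) (nat_lit 96) (.e (nat_lit 131094) (nat_lit 2) .nil)))) .nil)) 
(.lf (nat_lit 220649) (.g (nat_lit 2314) (.e (nat_lit 106240) (nat_lit 3) (.e (nat_lit 114718) (nat_lit 23) (.e (nat_lit 98367) (nat_lit 27) (.e (nat_lit 434219) (nat_lit 19) (.e (nat_lit 499965) (nat_lit 14) .nil))))) .nil)))) (.nd (nat_lit 5) (.nd (nat_lit 6) 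
(.lf (nat_lit 220569) (.g (nat_lit 1960) (.e (nat_lit 90203) (nat_lit 21) (.e (nat_lit 164294) (nat_lit 224) (.e (nat_lit 164356) (nat_lit 246) (.e (nat_lit 226) (nat_lit 21) (.e (nat_lit 336430) (nat_lit 29) (.e (nat_lit 450304) (nat_lit 2) .nil)))))) (.g (nat_lit 5) .nil .nil))) 
(.lf (nat_lit 220633) (.g (nat_lit 955) (.e (nat_lit 106240) (nat_lit 3) (.e (nat_lit 114716) (nat_lit 22) (.e (nat_lit 90185) (nat_lit 17) (.e (nat_lit 237590) (nat_lit 2) .nil)))) .nil))) (.nd (nat_lit 6) 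
(.lf (nat_lit 220601) (.g (nat_lit 2719) (.e (nat_lit 106240) (nat_lit 3) (.e (nat_lit 114714) (nat_lit 22) (.e (nat_lit 90170) (nat_lit 13) (.e (nat_lit 172067) (nat_lit 3) (.e (nat_lit 212736) (nat_lit 9) .nil))))) .nil)) 
(.lf (nat_lit 220665) (.g (nat_lit 619) (.e (nat_lit 106240) (nat_lit 5) (.e (nat_lit 147495) (nat_lit 11) (.e (nat_lit 24604) (nat_lit 2) .nil))) .nil)))))) (.nd (nat_lit 3) (.nd (nat_lit 4) (.nd (nat_lit 5) (.nd (nat_lit 6) 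
(.lf (nat_lit 220549) (.g (nat_lit 1714) (.e (nat_lit 90203) (nat_lit 21) (.e (nat_lit 164289) (nat_lit 224) (.e (nat_lit 164354) (nat_lit 246) (.e (nat_lit 226) (nat_lit 21) (.e (nat_lit 336430) (nat_lit 29) (.e (nat_lit 450304) (nat_lit 2) .nil)))))) (.g (nat_lit 5) .nil .nil))) 
(.lf (nat_lit 220613) (.g (nat_lit 563) (.e (nat_lit 106240) (nat_lit 3) (.e (nat_lit 114714) (nat_lit 22) (.e (nat_lit 90173) (nat_lit 14) .nil))) .nil))) (.nd (nat_lit 6) 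
(.lf (nat_lit 220581) (.g (nat_lit 1411) (.e (nat_lit 98309) (nat_lit 0) (.e (nat_lit 6112) (nat_lit 332) (.e (nat_lit 2507) (nat_lit 157) (.e (nat_lit 5259) (nat_lit 298) (.e (nat_lit 496) (nat_lit 39) (.e (nat_lit 491264) (nat_lit 3) (.e (nat_lit 229120) (nat_lit 3) .nil))))))) (.g (nat_lit 5) .nil .nil))) 
(.lf (nat_lit 220645) (.g (nat_lit 1540) (.e (nat_lit 106240) (nat_lit 3) (.e (nat_lit 114718) (nat_lit 23) (.e (nat_lit 98365) (nat_lit 26) (.e (nat_lit 426137) (nat_lit 3) (.e (nat_lit 212736) (nat_lit 9) .nil))))) .nil)))) (.nd (nat_lit 5) (.nd (nat_lit 6) 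
(.lf (nat_lit 220565) (.g (nat_lit 1646) (.e (nat_lit 90203) (nat_lit 21) (.e (nat_lit 164294) (nat_lit 224) (.e (nat_lit 164353) (nat_lit 246) (.e (nat_lit 226) (nat_lit 21) (.e (nat_lit 336443) (nat_lit 32) (.e (nat_lit 474880) (nat_lit 2) .nil)))))) (.g (nat_lit 5) .nil .nil))) 
(.lf (nat_lit 220629) (.g (nat_lit 1816) (.e (nat_lit 106240) (nat_lit 3) (.e (nat_lit 114715) (nat_lit 22) (.e (nat_lit 90170) (nat_lit 13) (.e (nat_lit 172067) (nat_lit 3) (.e (nat_lit 204816) (nat_lit 17) .nil))))) .nil))) (.nd (nat_lit 6) 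
(.lf (nat_lit 220597) (.g (nat_lit 550) (.e (nat_lit 106240) (nat_lit 3) (.e (nat_lit 114714) (nat_lit 22) (.e (nat_lit 90167) (nat_lit 13) .nil))) .nil)) 
(.lf (nat_lit 220661) (.g (nat_lit 2011) (.e (nat_lit 106240) (nat_lit 3) (.e (nat_lit 114719) (nat_lit 23) (.e (nat_lit 98366) (nat_lit 27) (.e (nat_lit 434219) (nat_lit 19) (.e (nat_lit 500048) (nat_lit 16) .nil))))) .nil))))) (.nd (nat_lit 4) (.nd (nat_lit 5) (.nd (nat_lit 6) 
(.lf (nat_lit 220557) (.g (nat_lit 1182) (.e (nat_lit 90203) (nat_lit 21) (.e (nat_lit 164289) (nat_lit 224) (.e (nat_lit 164358) (nat_lit 246) (.e (nat_lit 351) (nat_lit 28) (.e (nat_lit 393270) (nat_lit 23) (.e (nat_lit 433920) (nat_lit 17) .nil)))))) (.g (nat_lit 5) .nil .nil))) 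
(.lf (nat_lit 220621) (.g (nat_lit 1795) (.e (nat_lit 106240) (nat_lit 3) (.e (nat_lit 114714) (nat_lit 22) (.e (nat_lit 90185) (nat_lit 17) (.e (nat_lit 237589) (nat_lit 2) (.e (nat_lit 196628) (nat_lit 9) .nil))))) .nil))) (.nd (nat_lit 6) 
(.lf (nat_lit 220589) (.g (nat_lit 2126) (.e (nat_lit 106240) (nat_lit 1) (.e (nat_lit 57849) (nat_lit 252) (.e (nat_lit 57411) (nat_lit 12) (.e (nat_lit 336019) (nat_lit 3) (.e (nat_lit 98380) (nat_lit 31) .nil))))) .nil)) 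
(.lf (nat_lit 220653) (.g (nat_lit 1785) (.e (nat_lit 106240) (nat_lit 3) (.e (nat_lit 114719) (nat_lit 23) (.e (nat_lit 98354) (nat_lit 26) (.e (nat_lit 426140) (nat_lit 3) (.e (nat_lit 212736) (nat_lit 9) .nil))))) .nil)))) (.nd (nat_lit 5) (.nd (nat_lit 6) 
(.lf (nat_lit 220573) (.g (nat_lit 1542) (.e (nat_lit 90203) (nat_lit 21) (.e (nat_lit 164358) (nat_lit 246) (.e (nat_lit 100) (nat_lit 2) (.e (nat_lit 90170) (nat_lit 13) (.e (nat_lit 172065) (nat_lit 3) .nil))))) .nil)) 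
(.lf (nat_lit 220637) (.g (nat_lit 1443) (.e (nat_lit 106240) (nat_lit 3) (.e (nat_lit 114718) (nat_lit 23) (.e (nat_lit 98365) (nat_lit 26) (.e (nat_lit 426116) (nat_lit 2) .nil)))) .nil))) (.nd (nat_lit 6) 
(.lf (nat_lit 220605) (.g (nat_lit 1343) (.e (nat_lit 106240) (nat_lit 3) (.e (nat_lit 114714) (nat_lit 22) (.e (nat_lit 90172) (nat_lit 14) (.e (nat_lit 180235) (nat_lit 1) .nil)))) .nil)) 
(.lf (nat_lit 220669) (.g (nat_lit 2710) (.e (nat_lit 106240) (nat_lit 5) (.e (nat_lit 147495) (nat_lit 11) (.e (nat_lit 24604) (nat_lit 2) (.e (nat_lit 90174) (nat_lit 14) (.e (nat_lit 180277) (nat_lit 32) .nil))))) .nil))))))) (.nd (nat_lit 2) (.nd (nat_lit 3) (.nd (nat_lit 4) (.nd (nat_lit 5) (.nd (nat_lit 6) 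
(.lf (nat_lit 220547) (.g (nat_lit 2148) (.e (nat_lit 90203) (nat_lit 21) (.e (nat_lit 164288) (nat_lit 224) (.e (nat_lit 164354) (nat_lit 246) (.e (nat_lit 351) (nat_lit 28) (.e (nat_lit 393271) (nat_lit 23) (.e (nat_lit 426432) (nat_lit 17) .nil)))))) (.g (nat_lit 0) .nil .nil))) 
(.lf (nat_lit 220611) (.g (nat_lit 1300) (.e (nat_lit 106240) (nat_lit 3) (.e (nat_lit 114714) (nat_lit 22) (.e (nat_lit 90172) (nat_lit 14) (.e (nat_lit 180250) (nat_lit 10) .nil)))) .nil))) (.nd (nat_lit 6) 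
(.lf (nat_lit 220579) (.g (nat_lit 1394) (.e (nat_lit 98309) (nat_lit 0) (.e (nat_lit 6112) (nat_lit 332) (.e (nat_lit 2406) (nat_lit 157) (.e (nat_lit 5259) (nat_lit 298) (.e (nat_lit 496) (nat_lit 39) (.e (nat_lit 491264) (nat_lit 3) (.e (nat_lit 229120) (nat_lit 3) .nil))))))) (.g (nat_lit 5) .nil .nil))) 
(.lf (nat_lit 220643) (.g (nat_lit 2908) (.e (nat_lit 106240) (nat_lit 3) (.e (nat_lit 114718) (nat_lit 23) (.e (nat_lit 98365) (nat_lit 26) (.e (nat_lit 426133) (nat_lit 3) (.e (nat_lit 204810) (nat_lit 9) .nil))))) .nil)))) (.nd (nat_lit 5) (.nd (nat_lit 6) 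
(.lf (nat_lit 220563) (.g (nat_lit 1526) (.e (nat_lit 90203) (nat_lit 21) (.e (nat_lit 164294) (nat_lit 224) (.e (nat_lit 164353) (nat_lit 246) (.e (nat_lit 226) (nat_lit 21) (.e (nat_lit 336428) (nat_lit 29) (.e (nat_lit 450304) (nat_lit 2) .nil)))))) (.g (nat_lit 5) .nil .nil))) 
(.lf (nat_lit 220627) (.g (nat_lit 2130) (.e (nat_lit 106240) (nat_lit 3) (.e (nat_lit 114715) (nat_lit 22) (.e (nat_lit 90170) (nat_lit 13) (.e (nat_lit 172065) (nat_lit 3) (.e (nat_lit 204819) (nat_lit 17) .nil))))) .nil))) (.nd (nat_lit 6) 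
(.lf (nat_lit 220595) (.g (nat_lit 813) (.e (nat_lit 106240) (nat_lit 3) (.e (nat_lit 114697) (nat_lit 11) (.e (nat_lit 433920) (nat_lit 34) (.e (nat_lit 393273) (nat_lit 23) (.e (nat_lit 426434) (nat_lit 18) .nil))))) .nil)) 
(.lf (nat_lit 220659) (.g (nat_lit 1382) (.e (nat_lit 106240) (nat_lit 3) (.e (nat_lit 114719) (nat_lit 23) (.e (nat_lit 98365) (nat_lit 26) (.e (nat_lit 426137) (nat_lit 3) (.e (nat_lit 212736) (nat_lit 9) .nil))))) .nil))))) (.nd (nat_lit 4) (.nd (nat_lit 5) (.nd (nat_lit 6) 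
(.lf (nat_lit 220555) (.g (nat_lit 1746) (.e (nat_lit 90203) (nat_lit 21) (.e (nat_lit 164289) (nat_lit 224) (.e (nat_lit 164358) (nat_lit 246) (.e (nat_lit 226) (nat_lit 21) (.e (nat_lit 336443) (nat_lit 32) (.e (nat_lit 474880) (nat_lit 2) .nil)))))) (.g (nat_lit 5) .nil .nil))) 
(.lf (nat_lit 220619) (.g (nat_lit 1224) (.e (nat_lit 106240) (nat_lit 3) (.e (nat_lit 114714) (nat_lit 22) (.e (nat_lit 90185) (nat_lit 17) (.e (nat_lit 237587) (nat_lit 2) .nil)))) .nil))) (.nd (nat_lit 6) 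
(.lf (nat_lit 220587) (.g (nat_lit 605) (.e (nat_lit 106240) (nat_lit 1) (.e (nat_lit 57848) (nat_lit 252) (.e (nat_lit 57432) (nat_lit 16) (.e (nat_lit 368676) (nat_lit 21) .nil)))) .nil)) 
(.lf (nat_lit 220651) (.g (nat_lit 1669) (.e (nat_lit 106240) (nat_lit 3) (.e (nat_lit 114718) (nat_lit 23) (.e (nat_lit 98367) (nat_lit 27) (.e (nat_lit 434227) (nat_lit 20) .nil)))) .nil)))) (.nd (nat_lit 5) (.nd (nat_lit 6) 
(.lf (nat_lit 220571) (.g (nat_lit 1272) (.e (nat_lit 90203) (nat_lit 21) (.e (nat_lit 164294) (nat_lit 224) (.e (nat_lit 164356) (nat_lit 246) (.e (nat_lit 351) (nat_lit 28) (.e (nat_lit 393270) (nat_lit 23) (.e (nat_lit 433920) (nat_lit 17) .nil)))))) (.g (nat_lit 5) .nil .nil))) 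
(.lf (nat_lit 220635) (.g (nat_lit 1719) (.e (nat_lit 106240) (nat_lit 3) (.e (nat_lit 114718) (nat_lit 23) (.e (nat_lit 98354) (nat_lit 26) (.e (nat_lit 426140) (nat_lit 3) (.e (nat_lit 212736) (nat_lit 9) .nil))))) .nil))) (.nd (nat_lit 6) 
(.lf (nat_lit 220603) (.g (nat_lit 3009) (.e (nat_lit 106240) (nat_lit 3) (.e (nat_lit 114714) (nat_lit 22) (.e (nat_lit 90170) (nat_lit 13) (.e (nat_lit 172067) (nat_lit 3) (.e (nat_lit 204819) (nat_lit 17) .nil))))) .nil)) 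
(.lf (nat_lit 220667) (.g (nat_lit 2433) (.e (nat_lit 106240) (nat_lit 5) (.e (nat_lit 147495) (nat_lit 11) (.e (nat_lit 24604) (nat_lit 2) (.e (nat_lit 90170) (nat_lit 13) (.e (nat_lit 172126) (nat_lit 14) .nil))))) .nil)))))) (.nd (nat_lit 3) (.nd (nat_lit 4) (.nd (nat_lit 5) (.nd (nat_lit 6) 
(.lf (nat_lit 220551) (.g (nat_lit 997) (.e (nat_lit 90203) (nat_lit 21) (.e (nat_lit 164289) (nat_lit 224) (.e (nat_lit 164354) (nat_lit 246) (.e (nat_lit 351) (nat_lit 28) (.e (nat_lit 393270) (nat_lit 23) (.e (nat_lit 433920) (nat_lit 17) .nil)))))) (.g (nat_lit 5) .nil .nil))) 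
(.lf (nat_lit 220615) (.g (nat_lit 1451) (.e (nat_lit 106240) (nat_lit 3) (.e (nat_lit 114714) (nat_lit 22) (.e (nat_lit 90174) (nat_lit 14) (.e (nat_lit 180235) (nat_lit 1) .nil)))) .nil))) (.nd (nat_lit 6) 
(.lf (nat_lit 220583) (.g (nat_lit 210) (.e (nat_lit 98309) (nat_lit 0) (.e (nat_lit 6209) (nat_lit 333) (.e (nat_lit 65280) (nat_lit 272) .nil))) .nil)) 
(.lf (nat_lit 220647) (.g (nat_lit 1905) (.e (nat_lit 106240) (nat_lit 3) (.e (nat_lit 114718) (nat_lit 23) (.e (nat_lit 98366) (nat_lit 27) (.e (nat_lit 434219) (nat_lit 19) (.e (nat_lit 500048) (nat_lit 16) .nil))))) .nil)))) (.nd (nat_lit 5) (.nd (nat_lit 6) 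
(.lf (nat_lit 220567) (.g (nat_lit 1775) (.e (nat_lit 90203) (nat_lit 21) (.e (nat_lit 164294) (nat_lit 224) (.e (nat_lit 164353) (nat_lit 246) (.e (nat_lit 351) (nat_lit 28) (.e (nat_lit 393271) (nat_lit 23) (.e (nat_lit 433920) (nat_lit 17) .nil)))))) (.g (nat_lit 5) .nil .nil))) 
(.lf (nat_lit 220631) (.g (nat_lit 1393) (.e (nat_lit 106240) (nat_lit 3) (.e (nat_lit 114716) (nat_lit 22) (.e (nat_lit 90185) (nat_lit 17) (.e (nat_lit 237587) (nat_lit 2) (.e (nat_lit 196622) (nat_lit 9) .nil))))) .nil))) (.nd (nat_lit 6) 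
(.lf (nat_lit 220599) (.g (nat_lit 1982) (.e (nat_lit 106240) (nat_lit 3) (.e (nat_lit 114714) (nat_lit 22) (.e (nat_lit 90170) (nat_lit 13) (.e (nat_lit 172062) (nat_lit 2) .nil)))) .nil)) 
(.lf (nat_lit 220663) (.g (nat_lit 557) (.e (nat_lit 106240) (nat_lit 3) (.e (nat_lit 114719) (nat_lit 23) (.e (nat_lit 98367) (nat_lit 27) .nil))) .nil))))) (.nd (nat_lit 4) (.nd (nat_lit 5) (.nd (nat_lit 6) 
(.lf (nat_lit 220559) (.g (nat_lit 1785) (.e (nat_lit 90203) (nat_lit 21) (.e (nat_lit 164291) (nat_lit 224) (.e (nat_lit 164353) (nat_lit 246) (.e (nat_lit 226) (nat_lit 21) (.e (nat_lit 336430) (nat_lit 29) (.e (nat_lit 450304) (nat_lit 2) .nil)))))) (.g (nat_lit 5) .nil .nil))) 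
(.lf (nat_lit 220623) (.g (nat_lit 1201) (.e (nat_lit 106240) (nat_lit 3) (.e (nat_lit 114714) (nat_lit 22) (.e (nat_lit 90185) (nat_lit 17) (.e (nat_lit 237592) (nat_lit 3) .nil)))) .nil))) (.nd (nat_lit 6) 
(.lf (nat_lit 220591) (.g (nat_lit 1375) (.e (nat_lit 106240) (nat_lit 1) (.e (nat_lit 57854) (nat_lit 252) (.e (nat_lit 57430) (nat_lit 16) (.e (nat_lit 368676) (nat_lit 21) (.e (nat_lit 516174) (nat_lit 14) .nil))))) .nil)) 
(.lf (nat_lit 220655) (.g (nat_lit 1379) (.e (nat_lit 106240) (nat_lit 3) (.e (nat_lit 114719) (nat_lit 23) (.e (nat_lit 98365) (nat_lit 26) (.e (nat_lit 426116) (nat_lit 2) .nil)))) .nil)))) (.nd (nat_lit 5) (.nd (nat_lit 6) 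
(.lf (nat_lit 220575) (.g (nat_lit 917) (.e (nat_lit 90204) (nat_lit 22) (.e (nat_lit 229504) (nat_lit 109) (.e (nat_lit 720941) (nat_lit 22) (.e (nat_lit 90172) (nat_lit 14) (.e (nat_lit 188160) (nat_lit 3) .nil))))) .nil)) 
(.lf (nat_lit 220639) (.g (nat_lit 1154) (.e (nat_lit 106240) (nat_lit 3) (.e (nat_lit 114718) (nat_lit 23) (.e (nat_lit 98365) (nat_lit 26) (.e (nat_lit 426124) (nat_lit 2) .nil)))) .nil))) (.nd (nat_lit 6) 
(.lf (nat_lit 220607) (.g (nat_lit 1355) (.e (nat_lit 106240) (nat_lit 3) (.e (nat_lit 114714) (nat_lit 22) (.e (nat_lit 90172) (nat_lit 14) (.e (nat_lit 180240) (nat_lit 2) .nil)))) .nil)) 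
(.lf (nat_lit 220671) (.g (nat_lit 2598) (.e (nat_lit 106240) (nat_lit 5) (.e (nat_lit 147496) (nat_lit 11) (.e (nat_lit 24604) (nat_lit 2) (.e (nat_lit 90172) (nat_lit 14) (.e (nat_lit 180278) (nat_lit 32) .nil))))) .nil)))))))))

noncomputable def tv2898 : DT := (.nd (nat_lit 0) (.nd (nat_lit 1) (.nd (nat_lit 2) (.nd (nat_lit 3) (.nd (nat_lit 4) (.nd (nat_lit 5) 
(.lf (nat_lit 220672) (.g (nat_lit 2138) (.e (nat_lit 106240) (nat_lit 7) (.e (nat_lit 319504) (nat_lit 10) (.e (nat_lit 618) (nat_lit 48) (.e (nat_lit 557103) (nat_lit 14) (.e (nat_lit 180250) (nat_lit 10) .nil))))) .nil)) 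
(.lf (nat_lit 220704) (.g (nat_lit 1304) (.e (nat_lit 98312) (nat_lit 9) (.e (nat_lit 335996) (nat_lit 1) (.e (nat_lit 57929) (nat_lit 282) (.e (nat_lit 163905) (nat_lit 12) .nil)))) .nil))) (.nd (nat_lit 5) 
(.lf (nat_lit 220688) (.g (nat_lit 1592) (.e (nat_lit 98312) (nat_lit 9) (.e (nat_lit 335988) (nat_lit 1) (.e (nat_lit 57926) (nat_lit 282) (.e (nat_lit 163906) (nat_lit 12) .nil)))) .nil)) 
(.lf (nat_lit 220720) (.g (nat_lit 639) (.e (nat_lit 98312) (nat_lit 9) (.e (nat_lit 336011) (nat_lit 2) (.e (nat_lit 90133) (nat_lit 9) .nil))) .nil)))) (.nd (nat_lit 4) (.nd (nat_lit 5) 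
(.lf (nat_lit 220680) (.g (nat_lit 289) (.e (nat_lit 106240) (nat_lit 8) (.e (nat_lit 327705) (nat_lit 10) (.e (nat_lit 5384) (nat_lit 300) .nil))) .nil)) 
(.lf (nat_lit 220712) (.g (nat_lit 458) (.e (nat_lit 98312) (nat_lit 9) (.e (nat_lit 336004) (nat_lit 2) (.e (nat_lit 90158) (nat_lit 11) .nil))) .nil))) (.nd (nat_lit 5) 
(.lf (nat_lit 220696) (.g (nat_lit 1830) (.e (nat_lit 98312) (nat_lit 9) (.e (nat_lit 335988) (nat_lit 1) (.e (nat_lit 57927) (nat_lit 282) (.e (nat_lit 163907) (nat_lit 12) (.e (nat_lit 426555) (nat_lit 32) .nil))))) .nil)) 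
(.lf (nat_lit 220728) (.g (nat_lit 2942) (.e (nat_lit 98312) (nat_lit 9) (.e (nat_lit 336012) (nat_lit 2) (.e (nat_lit 90160) (nat_lit 11) (.e (nat_lit 24602) (nat_lit 2) (.e (nat_lit 90158) (nat_lit 11) (.e (nat_lit 24608) (nat_lit 3) .nil)))))) (.g (nat_lit 6) .nil .nil)))))) (.nd (nat_lit 3) (.nd (nat_lit 4) (.nd (nat_lit 5) 
(.lf (nat_lit 220676) (.g (nat_lit 1507) (.e (nat_lit 106240) (nat_lit 7) (.e (nat_lit 319534) (nat_lit 16) (.e (nat_lit 286728) (nat_lit 0) (.e (nat_lit 2334) (nat_lit 151) .nil)))) .nil)) 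
(.lf (nat_lit 220708) (.g (nat_lit 2673) (.e (nat_lit 98312) (nat_lit 9) (.e (nat_lit 336002) (nat_lit 2) (.e (nat_lit 90158) (nat_lit 11) (.e (nat_lit 24608) (nat_lit 3) (.e (nat_lit 98313) (nat_lit 9) (.e (nat_lit 336027) (nat_lit 3) .nil)))))) (.g (nat_lit 0) .nil .nil)))) (.nd (nat_lit 5) 
(.lf (nat_lit 220692) (.g (nat_lit 1482) (.e (nat_lit 98312) (nat_lit 9) (.e (nat_lit 335988) (nat_lit 1) (.e (nat_lit 57927) (nat_lit 282) (.e (nat_lit 163904) (nat_lit 12) (.e (nat_lit 426555) (nat_lit 32) .nil))))) .nil)) 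
(.lf (nat_lit 220724) (.g (nat_lit 670) (.e (nat_lit 98312) (nat_lit 9) (.e (nat_lit 336012) (nat_lit 2) (.e (nat_lit 90158) (nat_lit 11) .nil))) .nil)))) (.nd (nat_lit 4) (.nd (nat_lit 5) 
(.lf (nat_lit 220684) (.g (nat_lit 2048) (.e (nat_lit 98312) (nat_lit 9) (.e (nat_lit 335986) (nat_lit 1) (.e (nat_lit 57931) (nat_lit 282) (.e (nat_lit 163905) (nat_lit 12) (.e (nat_lit 426542) (nat_lit 29) .nil))))) .nil)) 
(.lf (nat_lit 220716) (.g (nat_lit 1769) (.e (nat_lit 98312) (nat_lit 9) (.e (nat_lit 336004) (nat_lit 2) (.e (nat_lit 90160) (nat_lit 11) (.e (nat_lit 24606) (nat_lit 3) .nil)))) .nil))) (.nd (nat_lit 5) 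
(.lf (nat_lit 220700) (.g (nat_lit 2089) (.e (nat_lit 98312) (nat_lit 9) (.e (nat_lit 335988) (nat_lit 1) (.e (nat_lit 57931) (nat_lit 282) (.e (nat_lit 163904) (nat_lit 12) .nil)))) .nil)) 
(.lf (nat_lit 220732) (.g (nat_lit 3462) (.e (nat_lit 98312) (nat_lit 9) (.e (nat_lit 336012) (nat_lit 2) (.e (nat_lit 90160) (nat_lit 11) (.e (nat_lit 24607) (nat_lit 3) (.e (nat_lit 98317) (nat_lit 9) (.e (nat_lit 336027) (nat_lit 3) .nil)))))) (.g (nat_lit 0) .nil .nil))))))) (.nd (nat_lit 2) (.nd (nat_lit 3) (.nd (nat_lit 4) (.nd (nat_lit 5) 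
(.lf (nat_lit 220674) (.g (nat_lit 777) (.e (nat_lit 106240) (nat_lit 7) (.e (nat_lit 319531) (nat_lit 16) (.e (nat_lit 286767) (nat_lit 27) .nil))) .nil)) 
(.lf (nat_lit 220706) (.g (nat_lit 501) (.e (nat_lit 98312) (nat_lit 9) (.e (nat_lit 336002) (nat_lit 2) (.e (nat_lit 90157) (nat_lit 11) (.e (nat_lit 24602) (nat_lit 2) .nil)))) .nil))) (.nd (nat_lit 5) 
(.lf (nat_lit 220690) (.g (nat_lit 2062) (.e (nat_lit 98312) (nat_lit 9) (.e (nat_lit 335988) (nat_lit 1) (.e (nat_lit 57926) (nat_lit 282) (.e (nat_lit 163907) (nat_lit 12) (.e (nat_lit 426555) (nat_lit 32) .nil))))) .nil)) 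
(.lf (nat_lit 220722) (.g (nat_lit 627) (.e (nat_lit 98312) (nat_lit 9) (.e (nat_lit 336012) (nat_lit 2) (.e (nat_lit 90123) (nat_lit 9) .nil))) .nil)))) (.nd (nat_lit 4) (.nd (nat_lit 5) 
(.lf (nat_lit 220682) (.g (nat_lit 1415) (.e (nat_lit 98312) (nat_lit 9) (.e (nat_lit 335986) (nat_lit 1) (.e (nat_lit 57926) (nat_lit 282) (.e (nat_lit 163905) (nat_lit 12) .nil)))) .nil)) 
(.lf (nat_lit 220714) (.g (nat_lit 3543) (.e (nat_lit 98312) (nat_lit 9) (.e (nat_lit 336004) (nat_lit 2) (.e (nat_lit 90158) (nat_lit 11) (.e (nat_lit 24608) (nat_lit 3) (.e (nat_lit 98313) (nat_lit 9) (.e (nat_lit 336027) (nat_lit 3) .nil)))))) (.g (nat_lit 0) .nil .nil)))) (.nd (nat_lit 5) 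
(.lf (nat_lit 220698) (.g (nat_lit 2769) (.e (nat_lit 98312) (nat_lit 9) (.e (nat_lit 335988) (nat_lit 1) (.e (nat_lit 57931) (nat_lit 282) (.e (nat_lit 163902) (nat_lit 12) (.e (nat_lit 426538) (nat_lit 29) .nil))))) .nil)) 
(.lf (nat_lit 220730) (.g (nat_lit 2540) (.e (nat_lit 98312) (nat_lit 9) (.e (nat_lit 336012) (nat_lit 2) (.e (nat_lit 90160) (nat_lit 11) (.e (nat_lit 24605) (nat_lit 2) .nil)))) .nil))))) (.nd (nat_lit 3) (.nd (nat_lit 4) (.nd (nat_lit 5) 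
(.lf (nat_lit 220678) (.g (nat_lit 641) (.e (nat_lit 106240) (nat_lit 7) (.e (nat_lit 319534) (nat_lit 16) (.e (nat_lit 286767) (nat_lit 27) .nil))) .nil)) 
(.lf (nat_lit 220710) (.g (nat_lit 874) (.e (nat_lit 98312) (nat_lit 9) (.e (nat_lit 336003) (nat_lit 2) (.e (nat_lit 90158) (nat_lit 11) (.e (nat_lit 24609) (nat_lit 3) .nil)))) .nil))) (.nd (nat_lit 5) 
(.lf (nat_lit 220694) (.g (nat_lit 1751) (.e (nat_lit 98312) (nat_lit 9) (.e (nat_lit 335988) (nat_lit 1) (.e (nat_lit 57927) (nat_lit 282) (.e (nat_lit 163906) (nat_lit 12) (.e (nat_lit 426555) (nat_lit 32) .nil))))) .nil)) 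
(.lf (nat_lit 220726) (.g (nat_lit 1841) (.e (nat_lit 98312) (nat_lit 9) (.e (nat_lit 336012) (nat_lit 2) (.e (nat_lit 90158) (nat_lit 11) (.e (nat_lit 24606) (nat_lit 3) .nil)))) .nil)))) (.nd (nat_lit 4) (.nd (nat_lit 5) 
(.lf (nat_lit 220686) (.g (nat_lit 2124) (.e (nat_lit 98312) (nat_lit 9) (.e (nat_lit 335988) (nat_lit 1) (.e (nat_lit 57926) (nat_lit 282) (.e (nat_lit 163903) (nat_lit 12) (.e (nat_lit 426555) (nat_lit 32) .nil))))) .nil)) 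
(.lf (nat_lit 220718) (.g (nat_lit 726) (.e (nat_lit 98312) (nat_lit 9) (.e (nat_lit 336009) (nat_lit 2) (.e (nat_lit 90158) (nat_lit 11) (.e (nat_lit 24608) (nat_lit 3) .nil)))) .nil))) (.nd (nat_lit 5) 
(.lf (nat_lit 220702) (.g (nat_lit 2273) (.e (nat_lit 98312) (nat_lit 9) (.e (nat_lit 335995) (nat_lit 1) (.e (nat_lit 57931) (nat_lit 282) (.e (nat_lit 163902) (nat_lit 12) (.e (nat_lit 426538) (nat_lit 29) .nil))))) .nil)) 
(.lf (nat_lit 220734) (.g (nat_lit 2512) (.e (nat_lit 98312) (nat_lit 9) (.e (nat_lit 336021) (nat_lit 3) (.e (nat_lit 98313) (nat_lit 9) (.e (nat_lit 336011) (nat_lit 2) (.e (nat_lit 90158) (nat_lit 11) .nil))))) .nil))))))) (.nd (nat_lit 1) (.nd (nat_lit 2) (.nd (nat_lit 3) (.nd (nat_lit 4) (.nd (nat_lit 5) 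
(.lf (nat_lit 220673) (.g (nat_lit 1908) (.e (nat_lit 106240) (nat_lit 7) (.e (nat_lit 319504) (nat_lit 10) (.e (nat_lit 618) (nat_lit 48) (.e (nat_lit 557105) (nat_lit 14) (.e (nat_lit 180252) (nat_lit 10) .nil))))) .nil)) 
(.lf (nat_lit 220705) (.g (nat_lit 660) (.e (nat_lit 98312) (nat_lit 9) (.e (nat_lit 335996) (nat_lit 1) (.e (nat_lit 57930) (nat_lit 282) .nil))) .nil))) (.nd (nat_lit 5) 
(.lf (nat_lit 220689) (.g (nat_lit 1870) (.e (nat_lit 98312) (nat_lit 9) (.e (nat_lit 335988) (nat_lit 1) (.e (nat_lit 57926) (nat_lit 282) (.e (nat_lit 163906) (nat_lit 12) (.e (nat_lit 426543) (nat_lit 29) .nil))))) .nil)) 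
(.lf (nat_lit 220721) (.g (nat_lit 1641) (.e (nat_lit 98312) (nat_lit 9) (.e (nat_lit 336011) (nat_lit 2) (.e (nat_lit 90160) (nat_lit 11) (.e (nat_lit 24607) (nat_lit 3) .nil)))) .nil)))) (.nd (nat_lit 4) (.nd (nat_lit 5) 
(.lf (nat_lit 220681) (.g (nat_lit 1577) (.e (nat_lit 98312) (nat_lit 9) (.e (nat_lit 335986) (nat_lit 1) (.e (nat_lit 57926) (nat_lit 282) (.e (nat_lit 163903) (nat_lit 12) .nil)))) .nil)) 
(.lf (nat_lit 220713) (.g (nat_lit 1955) (.e (nat_lit 98312) (nat_lit 9) (.e (nat_lit 336004) (nat_lit 2) (.e (nat_lit 90158) (nat_lit 11) (.e (nat_lit 24606) (nat_lit 3) .nil)))) .nil))) (.nd (nat_lit 5) 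
(.lf (nat_lit 220697) (.g (nat_lit 2081) (.e (nat_lit 98312) (nat_lit 9) (.e (nat_lit 335988) (nat_lit 1) (.e (nat_lit 57931) (nat_lit 282) (.e (nat_lit 163902) (nat_lit 12) .nil)))) .nil)) 
(.lf (nat_lit 220729) (.g (nat_lit 3534) (.e (nat_lit 98312) (nat_lit 9) (.e (nat_lit 336012) (nat_lit 2) (.e (nat_lit 90160) (nat_lit 11) (.e (nat_lit 24604) (nat_lit 2) (.e (nat_lit 90158) (nat_lit 11) (.e (nat_lit 24608) (nat_lit 3) .nil)))))) (.g (nat_lit 5) .nil .nil)))))) (.nd (nat_lit 3) (.nd (nat_lit 4) (.nd (nat_lit 5) 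
(.lf (nat_lit 220677) (.g (nat_lit 504) (.e (nat_lit 106240) (nat_lit 7) (.e (nat_lit 319534) (nat_lit 16) (.e (nat_lit 286738) (nat_lit 6) .nil))) .nil)) 
(.lf (nat_lit 220709) (.g (nat_lit 1763) (.e (nat_lit 98312) (nat_lit 9) (.e (nat_lit 336003) (nat_lit 2) (.e (nat_lit 90158) (nat_lit 11) (.e (nat_lit 24607) (nat_lit 3) (.e (nat_lit 98313) (nat_lit 9) .nil))))) .nil))) (.nd (nat_lit 5) 
(.lf (nat_lit 220693) (.g (nat_lit 1528) (.e (nat_lit 98312) (nat_lit 9) (.e (nat_lit 335988) (nat_lit 1) (.e (nat_lit 57927) (nat_lit 282) (.e (nat_lit 163905) (nat_lit 12) (.e (nat_lit 426555) (nat_lit 32) .nil))))) .nil)) 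
(.lf (nat_lit 220725) (.g (nat_lit 3394) (.e (nat_lit 98312) (nat_lit 9) (.e (nat_lit 336012) (nat_lit 2) (.e (nat_lit 90158) (nat_lit 11) (.e (nat_lit 24604) (nat_lit 2) (.e (nat_lit 90158) (nat_lit 11) (.e (nat_lit 24608) (nat_lit 3) .nil)))))) (.g (nat_lit 6) .nil .nil))))) (.nd (nat_lit 4) (.nd (nat_lit 5) 
(.lf (nat_lit 220685) (.g (nat_lit 2353) (.e (nat_lit 98312) (nat_lit 9) (.e (nat_lit 335988) (nat_lit 1) (.e (nat_lit 57926) (nat_lit 282) (.e (nat_lit 163902) (nat_lit 12) (.e (nat_lit 426555) (nat_lit 32) .nil))))) .nil)) 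
(.lf (nat_lit 220717) (.g (nat_lit 2536) (.e (nat_lit 98312) (nat_lit 9) (.e (nat_lit 336004) (nat_lit 2) (.e (nat_lit 90160) (nat_lit 11) (.e (nat_lit 24607) (nat_lit 3) (.e (nat_lit 98313) (nat_lit 9) (.e (nat_lit 336027) (nat_lit 3) .nil)))))) (.g (nat_lit 4) .nil .nil)))) (.nd (nat_lit 5) 
(.lf (nat_lit 220701) (.g (nat_lit 2004) (.e (nat_lit 98312) (nat_lit 9) (.e (nat_lit 335988) (nat_lit 1) (.e (nat_lit 57931) (nat_lit 282) (.e (nat_lit 163905) (nat_lit 12) .nil)))) .nil)) 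
(.lf (nat_lit 220733) (.g (nat_lit 514) (.e (nat_lit 98312) (nat_lit 9) (.e (nat_lit 336021) (nat_lit 3) (.e (nat_lit 98313) (nat_lit 9) .nil))) .nil)))))) (.nd (nat_lit 2) (.nd (nat_lit 3) (.nd (nat_lit 4) (.nd (nat_lit 5) 
(.lf (nat_lit 220675) (.g (nat_lit 582) (.e (nat_lit 106240) (nat_lit 7) (.e (nat_lit 319533) (nat_lit 16) (.e (nat_lit 286768) (nat_lit 27) .nil))) .nil)) 
(.lf (nat_lit 220707) (.g (nat_lit 2787) (.e (nat_lit 98312) (nat_lit 9) (.e (nat_lit 336002) (nat_lit 2) (.e (nat_lit 90158) (nat_lit 11) (.e (nat_lit 24607) (nat_lit 3) (.e (nat_lit 98313) (nat_lit 9) (.e (nat_lit 336027) (nat_lit 3) .nil)))))) (.g (nat_lit 0) .nil .nil)))) (.nd (nat_lit 5) 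
(.lf (nat_lit 220691) (.g (nat_lit 1746) (.e (nat_lit 98312) (nat_lit 9) (.e (nat_lit 335988) (nat_lit 1) (.e (nat_lit 57927) (nat_lit 282) (.e (nat_lit 163903) (nat_lit 12) (.e (nat_lit 426555) (nat_lit 32) .nil))))) .nil)) 
(.lf (nat_lit 220723) (.g (nat_lit 1554) (.e (nat_lit 98312) (nat_lit 9) (.e (nat_lit 336012) (nat_lit 2) (.e (nat_lit 90134) (nat_lit 9) (.e (nat_lit 290) (nat_lit 21) .nil)))) .nil)))) (.nd (nat_lit 4) (.nd (nat_lit 5) 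
(.lf (nat_lit 220683) (.g (nat_lit 1594) (.e (nat_lit 98312) (nat_lit 9) (.e (nat_lit 335986) (nat_lit 1) (.e (nat_lit 57927) (nat_lit 282) (.e (nat_lit 163906) (nat_lit 12) (.e (nat_lit 426543) (nat_lit 29) .nil))))) .nil)) 
(.lf (nat_lit 220715) (.g (nat_lit 610) (.e (nat_lit 98312) (nat_lit 9) (.e (nat_lit 336004) (nat_lit 2) (.e (nat_lit 90159) (nat_lit 11) .nil))) .nil))) (.nd (nat_lit 5) 
(.lf (nat_lit 220699) (.g (nat_lit 2856) (.e (nat_lit 98312) (nat_lit 9) (.e (nat_lit 335988) (nat_lit 1) (.e (nat_lit 57931) (nat_lit 282) (.e (nat_lit 163902) (nat_lit 12) (.e (nat_lit 426555) (nat_lit 32) .nil))))) .nil)) 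
(.lf (nat_lit 220731) (.g (nat_lit 2221) (.e (nat_lit 98312) (nat_lit 9) (.e (nat_lit 336012) (nat_lit 2) (.e (nat_lit 90160) (nat_lit 11) (.e (nat_lit 24606) (nat_lit 3) .nil)))) .nil))))) (.nd (nat_lit 3) (.nd (nat_lit 4) (.nd (nat_lit 5) 
(.lf (nat_lit 220679) (.g (nat_lit 727) (.e (nat_lit 106240) (nat_lit 7) (.e (nat_lit 319534) (nat_lit 16) (.e (nat_lit 286768) (nat_lit 27) .nil))) .nil)) 
(.lf (nat_lit 220711) (.g (nat_lit 1215) (.e (nat_lit 98312) (nat_lit 9) (.e (nat_lit 336004) (nat_lit 2) (.e (nat_lit 90157) (nat_lit 11) (.e (nat_lit 24602) (nat_lit 2) (.e (nat_lit 90158) (nat_lit 11) .nil))))) .nil))) (.nd (nat_lit 5) 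
(.lf (nat_lit 220695) (.g (nat_lit 1249) (.e (nat_lit 98312) (nat_lit 9) (.e (nat_lit 335988) (nat_lit 1) (.e (nat_lit 57927) (nat_lit 282) (.e (nat_lit 163907) (nat_lit 12) .nil)))) .nil)) 
(.lf (nat_lit 220727) (.g (nat_lit 2501) (.e (nat_lit 98312) (nat_lit 9) (.e (nat_lit 336012) (nat_lit 2) (.e (nat_lit 90160) (nat_lit 11) (.e (nat_lit 24588) (nat_lit 0) .nil)))) .nil)))) (.nd (nat_lit 4) (.nd (nat_lit 5) 
(.lf (nat_lit 220687) (.g (nat_lit 2029) (.e (nat_lit 98312) (nat_lit 9) (.e (nat_lit 335988) (nat_lit 1) (.e (nat_lit 57926) (nat_lit 282) (.e (nat_lit 163905) (nat_lit 12) (.e (nat_lit 426555) (nat_lit 32) .nil))))) .nil)) 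
(.lf (nat_lit 220719) (.g (nat_lit 781) (.e (nat_lit 98312) (nat_lit 9) (.e (nat_lit 336010) (nat_lit 2) (.e (nat_lit 90158) (nat_lit 11) (.e (nat_lit 24607) (nat_lit 3) .nil)))) .nil))) (.nd (nat_lit 5) 
(.lf (nat_lit 220703) (.g (nat_lit 2069) (.e (nat_lit 98312) (nat_lit 9) (.e (nat_lit 335995) (nat_lit 1) (.e (nat_lit 57931) (nat_lit 282) (.e (nat_lit 163905) (nat_lit 12) (.e (nat_lit 426542) (nat_lit 29) .nil))))) .nil)) 
(.lf (nat_lit 220735) (.g (nat_lit 3324) (.e (nat_lit 98312) (nat_lit 9) (.e (nat_lit 336021) (nat_lit 3) (.e (nat_lit 98313) (nat_lit 9) (.e (nat_lit 336021) (nat_lit 3) (.e (nat_lit 98313) (nat_lit 9) (.e (nat_lit 336027) (nat_lit 3) .nil)))))) (.g (nat_lit 6) .nil .nil)))))))))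

noncomputable def tv2899 : DT := (.nd (nat_lit 0) (.nd (nat_lit 1) (.nd (nat_lit 2) (.nd (nat_lit 3) (.nd (nat_lit 4) (.nd (nat_lit 5) 
(.lf (nat_lit 220736) (.g (nat_lit 3569) (.e (nat_lit 98312) (nat_lit 9) (.e (nat_lit 336021) (nat_lit 3) (.e (nat_lit 98313) (nat_lit 9) (.e (nat_lit 336021) (nat_lit 3) (.e (nat_lit 98317) (nat_lit 9) (.e (nat_lit 336027) (nat_lit 3) .nil)))))) (.g (nat_lit 0) .nil .nil))) 
(.lf (nat_lit 220768) (.g (nat_lit 3441) (.e (nat_lit 98312) (nat_lit 9) (.e (nat_lit 336027) (nat_lit 3) (.e (nat_lit 98317) (nat_lit 9) (.e (nat_lit 336021) (nat_lit 3) (.e (nat_lit 98313) (nat_lit 9) (.e (nat_lit 336027) (nat_lit 3) .nil)))))) (.g (nat_lit 0) .nil .nil)))) (.nd (nat_lit 5) 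
(.lf (nat_lit 220752) (.g (nat_lit 2681) (.e (nat_lit 98312) (nat_lit 9) (.e (nat_lit 336021) (nat_lit 3) (.e (nat_lit 98317) (nat_lit 9) (.e (nat_lit 336026) (nat_lit 3) (.e (nat_lit 98313) (nat_lit 9) (.e (nat_lit 336027) (nat_lit 3) .nil)))))) (.g (nat_lit 5) .nil .nil))) 
(.lf (nat_lit 220784) (.g (nat_lit 3276) (.e (nat_lit 98312) (nat_lit 9) (.e (nat_lit 336087) (nat_lit 9) (.e (nat_lit 336019) (nat_lit 3) (.e (nat_lit 98356) (nat_lit 26) (.e (nat_lit 426448) (nat_lit 20) (.e (nat_lit 114718) (nat_lit 23) .nil)))))) (.g (nat_lit 6) .nil .nil))))) (.nd (nat_lit 4) (.nd (nat_lit 5) 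
(.lf (nat_lit 220744) (.g (nat_lit 1847) (.e (nat_lit 98312) (nat_lit 9) (.e (nat_lit 336021) (nat_lit 3) (.e (nat_lit 98317) (nat_lit 9) (.e (nat_lit 335917) (nat_lit 0) .nil)))) .nil)) 
(.lf (nat_lit 220776) (.g (nat_lit 1594) (.e (nat_lit 98312) (nat_lit 9) (.e (nat_lit 336073) (nat_lit 9) (.e (nat_lit 336028) (nat_lit 3) (.e (nat_lit 98359) (nat_lit 26) (.e (nat_lit 433920) (nat_lit 20) (.e (nat_lit 114719) (nat_lit 23) .nil)))))) (.g (nat_lit 4) .nil .nil)))) (.nd (nat_lit 5) 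
(.lf (nat_lit 220760) (.g (nat_lit 3272) (.e (nat_lit 98312) (nat_lit 9) (.e (nat_lit 336027) (nat_lit 3) (.e (nat_lit 98313) (nat_lit 9) (.e (nat_lit 336021) (nat_lit 3) (.e (nat_lit 98317) (nat_lit 9) (.e (nat_lit 336027) (nat_lit 3) .nil)))))) (.g (nat_lit 0) .nil .nil))) 
(.lf (nat_lit 220792) (.g (nat_lit 3077) (.e (nat_lit 98312) (nat_lit 9) (.e (nat_lit 336087) (nat_lit 9) (.e (nat_lit 336019) (nat_lit 3) (.e (nat_lit 98358) (nat_lit 26) (.e (nat_lit 426448) (nat_lit 20) (.e (nat_lit 114718) (nat_lit 23) .nil)))))) (.g (nat_lit 0) .nil .nil)))))) (.nd (nat_lit 3) (.nd (nat_lit 4) (.nd (nat_lit 5) 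
(.lf (nat_lit 220740) (.g (nat_lit 2504) (.e (nat_lit 98312) (nat_lit 9) (.e (nat_lit 336021) (nat_lit 3) (.e (nat_lit 98315) (nat_lit 9) (.e (nat_lit 336017) (nat_lit 3) (.e (nat_lit 98313) (nat_lit 9) (.e (nat_lit 336027) (nat_lit 3) .nil)))))) (.g (nat_lit 0) .nil .nil))) 
(.lf (nat_lit 220772) (.g (nat_lit 2733) (.e (nat_lit 98312) (nat_lit 9) (.e (nat_lit 336027) (nat_lit 3) (.e (nat_lit 98317) (nat_lit 9) (.e (nat_lit 336026) (nat_lit 3) (.e (nat_lit 98317) (nat_lit 9) (.e (nat_lit 336027) (nat_lit 3) .nil)))))) (.g (nat_lit 6) .nil .nil)))) (.nd (nat_lit 5) 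
(.lf (nat_lit 220756) (.g (nat_lit 2064) (.e (nat_lit 98312) (nat_lit 9) (.e (nat_lit 336027) (nat_lit 3) (.e (nat_lit 98312) (nat_lit 9) (.e (nat_lit 336002) (nat_lit 2) (.e (nat_lit 90158) (nat_lit 11) (.e (nat_lit 24608) (nat_lit 3) .nil)))))) (.g (nat_lit 5) .nil .nil))) 
(.lf (nat_lit 220788) (.g (nat_lit 1941) (.e (nat_lit 98312) (nat_lit 9) (.e (nat_lit 336087) (nat_lit 9) (.e (nat_lit 336019) (nat_lit 3) (.e (nat_lit 98357) (nat_lit 26) (.e (nat_lit 426446) (nat_lit 20) (.e (nat_lit 114719) (nat_lit 23) .nil)))))) (.g (nat_lit 6) .nil .nil))))) (.nd (nat_lit 4) (.nd (nat_lit 5) 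
(.lf (nat_lit 220748) (.g (nat_lit 2502) (.e (nat_lit 98312) (nat_lit 9) (.e (nat_lit 336021) (nat_lit 3) (.e (nat_lit 98317) (nat_lit 9) (.e (nat_lit 336020) (nat_lit 3) (.e (nat_lit 98313) (nat_lit 9) (.e (nat_lit 336027) (nat_lit 3) .nil)))))) (.g (nat_lit 4) .nil .nil))) 
(.lf (nat_lit 220780) (.g (nat_lit 3473) (.e (nat_lit 98312) (nat_lit 9) (.e (nat_lit 336078) (nat_lit 9) (.e (nat_lit 336454) (nat_lit 34) (.e (nat_lit 483365) (nat_lit 18) (.e (nat_lit 57849) (nat_lit 252) (.e (nat_lit 57379) (nat_lit 3) .nil)))))) (.g (nat_lit 0) .nil .nil)))) (.nd (nat_lit 5) 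
(.lf (nat_lit 220764) (.g (nat_lit 1622) (.e (nat_lit 98312) (nat_lit 9) (.e (nat_lit 336027) (nat_lit 3) (.e (nat_lit 98317) (nat_lit 9) (.e (nat_lit 336003) (nat_lit 2) .nil)))) .nil)) 
(.lf (nat_lit 220796) (.g (nat_lit 2574) (.e (nat_lit 98312) (nat_lit 9) (.e (nat_lit 336088) (nat_lit 9) (.e (nat_lit 336019) (nat_lit 3) (.e (nat_lit 98355) (nat_lit 26) (.e (nat_lit 426446) (nat_lit 20) (.e (nat_lit 114719) (nat_lit 23) .nil)))))) (.g (nat_lit 6) .nil .nil))))))) (.nd (nat_lit 2) (.nd (nat_lit 3) (.nd (nat_lit 4) (.nd (nat_lit 5) 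
(.lf (nat_lit 220738) (.g (nat_lit 3327) (.e (nat_lit 98312) (nat_lit 9) (.e (nat_lit 336021) (nat_lit 3) (.e (nat_lit 98313) (nat_lit 9) (.e (nat_lit 336027) (nat_lit 3) (.e (nat_lit 98313) (nat_lit 9) (.e (nat_lit 336027) (nat_lit 3) .nil)))))) (.g (nat_lit 6) .nil .nil))) 
(.lf (nat_lit 220770) (.g (nat_lit 3102) (.e (nat_lit 98312) (nat_lit 9) (.e (nat_lit 336027) (nat_lit 3) (.e (nat_lit 98317) (nat_lit 9) (.e (nat_lit 336025) (nat_lit 3) (.e (nat_lit 98313) (nat_lit 9) (.e (nat_lit 336027) (nat_lit 3) .nil)))))) (.g (nat_lit 0) .nil .nil)))) (.nd (nat_lit 5) 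
(.lf (nat_lit 220754) (.g (nat_lit 3432) (.e (nat_lit 98312) (nat_lit 9) (.e (nat_lit 336021) (nat_lit 3) (.e (nat_lit 98317) (nat_lit 9) (.e (nat_lit 336027) (nat_lit 3) (.e (nat_lit 98313) (nat_lit 9) (.e (nat_lit 336027) (nat_lit 3) .nil)))))) (.g (nat_lit 0) .nil .nil))) 
(.lf (nat_lit 220786) (.g (nat_lit 1675) (.e (nat_lit 98312) (nat_lit 9) (.e (nat_lit 336087) (nat_lit 9) (.e (nat_lit 336019) (nat_lit 3) (.e (nat_lit 98356) (nat_lit 26) (.e (nat_lit 433920) (nat_lit 20) .nil))))) .nil)))) (.nd (nat_lit 4) (.nd (nat_lit 5) 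
(.lf (nat_lit 220746) (.g (nat_lit 1982) (.e (nat_lit 98312) (nat_lit 9) (.e (nat_lit 336021) (nat_lit 3) (.e (nat_lit 98317) (nat_lit 9) (.e (nat_lit 336009) (nat_lit 2) (.e (nat_lit 90158) (nat_lit 11) .nil))))) .nil)) 
(.lf (nat_lit 220778) (.g (nat_lit 3328) (.e (nat_lit 98312) (nat_lit 9) (.e (nat_lit 336078) (nat_lit 9) (.e (nat_lit 336454) (nat_lit 34) (.e (nat_lit 483363) (nat_lit 18) (.e (nat_lit 57854) (nat_lit 252) (.e (nat_lit 57378) (nat_lit 3) .nil)))))) (.g (nat_lit 6) .nil .nil)))) (.nd (nat_lit 5) 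
(.lf (nat_lit 220762) (.g (nat_lit 1605) (.e (nat_lit 98312) (nat_lit 9) (.e (nat_lit 336027) (nat_lit 3) (.e (nat_lit 98314) (nat_lit 9) (.e (nat_lit 336017) (nat_lit 3) (.e (nat_lit 98313) (nat_lit 9) (.e (nat_lit 336027) (nat_lit 3) .nil)))))) (.g (nat_lit 4) .nil .nil))) 
(.lf (nat_lit 220794) (.g (nat_lit 1683) (.e (nat_lit 98312) (nat_lit 9) (.e (nat_lit 336088) (nat_lit 9) (.e (nat_lit 336019) (nat_lit 3) (.e (nat_lit 98354) (nat_lit 26) .nil)))) .nil))))) (.nd (nat_lit 3) (.nd (nat_lit 4) (.nd (nat_lit 5) 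
(.lf (nat_lit 220742) (.g (nat_lit 378) (.e (nat_lit 98312) (nat_lit 9) (.e (nat_lit 336021) (nat_lit 3) (.e (nat_lit 98317) (nat_lit 9) .nil))) .nil)) 
(.lf (nat_lit 220774) (.g (nat_lit 1252) (.e (nat_lit 98312) (nat_lit 9) (.e (nat_lit 336027) (nat_lit 3) (.e (nat_lit 106240) (nat_lit 9) (.e (nat_lit 336021) (nat_lit 3) (.e (nat_lit 98313) (nat_lit 9) .nil))))) .nil))) (.nd (nat_lit 5) 
(.lf (nat_lit 220758) (.g (nat_lit 2361) (.e (nat_lit 98312) (nat_lit 9) (.e (nat_lit 336027) (nat_lit 3) (.e (nat_lit 98312) (nat_lit 9) (.e (nat_lit 336027) (nat_lit 3) (.e (nat_lit 98312) (nat_lit 9) (.e (nat_lit 336027) (nat_lit 3) .nil)))))) (.g (nat_lit 5) .nil .nil))) 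
(.lf (nat_lit 220790) (.g (nat_lit 2555) (.e (nat_lit 98312) (nat_lit 9) (.e (nat_lit 336087) (nat_lit 9) (.e (nat_lit 336019) (nat_lit 3) (.e (nat_lit 98357) (nat_lit 26) (.e (nat_lit 426448) (nat_lit 20) (.e (nat_lit 114719) (nat_lit 23) .nil)))))) (.g (nat_lit 6) .nil .nil))))) (.nd (nat_lit 4) (.nd (nat_lit 5) 
(.lf (nat_lit 220750) (.g (nat_lit 3850) (.e (nat_lit 98312) (nat_lit 9) (.e (nat_lit 336021) (nat_lit 3) (.e (nat_lit 98317) (nat_lit 9) (.e (nat_lit 336021) (nat_lit 3) (.e (nat_lit 98317) (nat_lit 9) (.e (nat_lit 336027) (nat_lit 3) .nil)))))) (.g (nat_lit 0) .nil .nil))) 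
(.lf (nat_lit 220782) (.g (nat_lit 3413) (.e (nat_lit 98312) (nat_lit 9) (.e (nat_lit 336078) (nat_lit 9) (.e (nat_lit 336454) (nat_lit 34) (.e (nat_lit 483365) (nat_lit 18) (.e (nat_lit 57854) (nat_lit 252) (.e (nat_lit 57378) (nat_lit 3) .nil)))))) (.g (nat_lit 0) .nil .nil)))) (.nd (nat_lit 5) 
(.lf (nat_lit 220766) (.g (nat_lit 2659) (.e (nat_lit 98312) (nat_lit 9) (.e (nat_lit 336027) (nat_lit 3) (.e (nat_lit 98317) (nat_lit 9) (.e (nat_lit 336010) (nat_lit 2) (.e (nat_lit 90158) (nat_lit 11) (.e (nat_lit 24608) (nat_lit 3) .nil)))))) (.g (nat_lit 6) .nil .nil))) 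
(.lf (nat_lit 220798) (.g (nat_lit 2908) (.e (nat_lit 98312) (nat_lit 9) (.e (nat_lit 336088) (nat_lit 9) (.e (nat_lit 336019) (nat_lit 3) (.e (nat_lit 98356) (nat_lit 26) (.e (nat_lit 426446) (nat_lit 20) (.e (nat_lit 114719) (nat_lit 23) .nil)))))) (.g (nat_lit 6) .nil .nil)))))))) (.nd (nat_lit 1) (.nd (nat_lit 2) (.nd (nat_lit 3) (.nd (nat_lit 4) (.nd (nat_lit 5) 
(.lf (nat_lit 220737) (.g (nat_lit 1822) (.e (nat_lit 98312) (nat_lit 9) (.e (nat_lit 336021) (nat_lit 3) (.e (nat_lit 98313) (nat_lit 9) (.e (nat_lit 336025) (nat_lit 3) .nil)))) .nil)) 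
(.lf (nat_lit 220769) (.g (nat_lit 3544) (.e (nat_lit 98312) (nat_lit 9) (.e (nat_lit 336027) (nat_lit 3) (.e (nat_lit 98317) (nat_lit 9) (.e (nat_lit 336021) (nat_lit 3) (.e (nat_lit 98317) (nat_lit 9) (.e (nat_lit 336027) (nat_lit 3) .nil)))))) (.g (nat_lit 0) .nil .nil)))) (.nd (nat_lit 5) 
(.lf (nat_lit 220753) (.g (nat_lit 3170) (.e (nat_lit 98312) (nat_lit 9) (.e (nat_lit 336021) (nat_lit 3) (.e (nat_lit 98317) (nat_lit 9) (.e (nat_lit 336026) (nat_lit 3) (.e (nat_lit 98317) (nat_lit 9) (.e (nat_lit 336027) (nat_lit 3) .nil)))))) (.g (nat_lit 6) .nil .nil))) 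
(.lf (nat_lit 220785) (.g (nat_lit 3210) (.e (nat_lit 98312) (nat_lit 9) (.e (nat_lit 336087) (nat_lit 9) (.e (nat_lit 336019) (nat_lit 3) (.e (nat_lit 98356) (nat_lit 26) (.e (nat_lit 426448) (nat_lit 20) (.e (nat_lit 114719) (nat_lit 23) .nil)))))) (.g (nat_lit 6) .nil .nil))))) (.nd (nat_lit 4) (.nd (nat_lit 5) 
(.lf (nat_lit 220745) (.g (nat_lit 3189) (.e (nat_lit 98312) (nat_lit 9) (.e (nat_lit 336021) (nat_lit 3) (.e (nat_lit 98317) (nat_lit 9) (.e (nat_lit 336002) (nat_lit 2) (.e (nat_lit 90158) (nat_lit 11) (.e (nat_lit 24608) (nat_lit 3) .nil)))))) (.g (nat_lit 6) .nil .nil))) 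
(.lf (nat_lit 220777) (.g (nat_lit 3455) (.e (nat_lit 98312) (nat_lit 9) (.e (nat_lit 336078) (nat_lit 9) (.e (nat_lit 336454) (nat_lit 34) (.e (nat_lit 483363) (nat_lit 18) (.e (nat_lit 57849) (nat_lit 252) (.e (nat_lit 57379) (nat_lit 3) .nil)))))) (.g (nat_lit 0) .nil .nil)))) (.nd (nat_lit 5) 
(.lf (nat_lit 220761) (.g (nat_lit 3016) (.e (nat_lit 98312) (nat_lit 9) (.e (nat_lit 336027) (nat_lit 3) (.e (nat_lit 98313) (nat_lit 9) (.e (nat_lit 336027) (nat_lit 3) (.e (nat_lit 98317) (nat_lit 9) (.e (nat_lit 336027) (nat_lit 3) .nil)))))) (.g (nat_lit 0) .nil .nil))) 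
(.lf (nat_lit 220793) (.g (nat_lit 2930) (.e (nat_lit 98312) (nat_lit 9) (.e (nat_lit 336087) (nat_lit 9) (.e (nat_lit 336019) (nat_lit 3) (.e (nat_lit 98358) (nat_lit 26) (.e (nat_lit 426448) (nat_lit 20) (.e (nat_lit 114719) (nat_lit 23) .nil)))))) (.g (nat_lit 6) .nil .nil)))))) (.nd (nat_lit 3) (.nd (nat_lit 4) (.nd (nat_lit 5) 
(.lf (nat_lit 220741) (.g (nat_lit 851) (.e (nat_lit 98312) (nat_lit 9) (.e (nat_lit 336021) (nat_lit 3) (.e (nat_lit 98316) (nat_lit 9) .nil))) .nil)) 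
(.lf (nat_lit 220773) (.g (nat_lit 3017) (.e (nat_lit 98312) (nat_lit 9) (.e (nat_lit 336027) (nat_lit 3) (.e (nat_lit 98317) (nat_lit 9) (.e (nat_lit 336027) (nat_lit 3) (.e (nat_lit 98317) (nat_lit 9) (.e (nat_lit 336027) (nat_lit 3) .nil)))))) (.g (nat_lit 6) .nil .nil)))) (.nd (nat_lit 5) 
(.lf (nat_lit 220757) (.g (nat_lit 1131) (.e (nat_lit 98312) (nat_lit 9) (.e (nat_lit 336027) (nat_lit 3) (.e (nat_lit 98312) (nat_lit 9) (.e (nat_lit 336020) (nat_lit 3) .nil)))) .nil)) 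
(.lf (nat_lit 220789) (.g (nat_lit 2617) (.e (nat_lit 98312) (nat_lit 9) (.e (nat_lit 336087) (nat_lit 9) (.e (nat_lit 336019) (nat_lit 3) (.e (nat_lit 98357) (nat_lit 26) (.e (nat_lit 426448) (nat_lit 20) (.e (nat_lit 114718) (nat_lit 23) .nil)))))) (.g (nat_lit 6) .nil .nil))))) (.nd (nat_lit 4) (.nd (nat_lit 5) 
(.lf (nat_lit 220749) (.g (nat_lit 3711) (.e (nat_lit 98312) (nat_lit 9) (.e (nat_lit 336021) (nat_lit 3) (.e (nat_lit 98317) (nat_lit 9) (.e (nat_lit 336021) (nat_lit 3) (.e (nat_lit 98313) (nat_lit 9) (.e (nat_lit 336027) (nat_lit 3) .nil)))))) (.g (nat_lit 0) .nil .nil))) 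
(.lf (nat_lit 220781) (.g (nat_lit 2834) (.e (nat_lit 98312) (nat_lit 9) (.e (nat_lit 336078) (nat_lit 9) (.e (nat_lit 336454) (nat_lit 34) (.e (nat_lit 483365) (nat_lit 18) (.e (nat_lit 57852) (nat_lit 252) (.e (nat_lit 57378) (nat_lit 3) .nil)))))) (.g (nat_lit 6) .nil .nil)))) (.nd (nat_lit 5) 
(.lf (nat_lit 220765) (.g (nat_lit 1603) (.e (nat_lit 98312) (nat_lit 9) (.e (nat_lit 336027) (nat_lit 3) (.e (nat_lit 98317) (nat_lit 9) (.e (nat_lit 336009) (nat_lit 2) .nil)))) .nil)) 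
(.lf (nat_lit 220797) (.g (nat_lit 2596) (.e (nat_lit 98312) (nat_lit 9) (.e (nat_lit 336088) (nat_lit 9) (.e (nat_lit 336019) (nat_lit 3) (.e (nat_lit 98355) (nat_lit 26) (.e (nat_lit 426448) (nat_lit 20) (.e (nat_lit 114719) (nat_lit 23) .nil)))))) (.g (nat_lit 5) .nil .nil))))))) (.nd (nat_lit 2) (.nd (nat_lit 3) (.nd (nat_lit 4) (.nd (nat_lit 5) 
(.lf (nat_lit 220739) (.g (nat_lit 3395) (.e (nat_lit 98312) (nat_lit 9) (.e (nat_lit 336021) (nat_lit 3) (.e (nat_lit 98313) (nat_lit 9) (.e (nat_lit 336027) (nat_lit 3) (.e (nat_lit 98317) (nat_lit 9) (.e (nat_lit 336027) (nat_lit 3) .nil)))))) (.g (nat_lit 0) .nil .nil))) 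
(.lf (nat_lit 220771) (.g (nat_lit 2253) (.e (nat_lit 98312) (nat_lit 9) (.e (nat_lit 336027) (nat_lit 3) (.e (nat_lit 98317) (nat_lit 9) (.e (nat_lit 336026) (nat_lit 3) (.e (nat_lit 98313) (nat_lit 9) (.e (nat_lit 336027) (nat_lit 3) .nil)))))) (.g (nat_lit 5) .nil .nil)))) (.nd (nat_lit 5) 
(.lf (nat_lit 220755) (.g (nat_lit 1847) (.e (nat_lit 98312) (nat_lit 9) (.e (nat_lit 336021) (nat_lit 3) (.e (nat_lit 98317) (nat_lit 9) (.e (nat_lit 343808) (nat_lit 3) .nil)))) .nil)) 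
(.lf (nat_lit 220787) (.g (nat_lit 1737) (.e (nat_lit 98312) (nat_lit 9) (.e (nat_lit 336087) (nat_lit 9) (.e (nat_lit 336019) (nat_lit 3) (.e (nat_lit 98356) (nat_lit 26) (.e (nat_lit 433920) (nat_lit 20) (.e (nat_lit 114718) (nat_lit 23) .nil)))))) (.g (nat_lit 4) .nil .nil))))) (.nd (nat_lit 4) (.nd (nat_lit 5) 
(.lf (nat_lit 220747) (.g (nat_lit 3072) (.e (nat_lit 98312) (nat_lit 9) (.e (nat_lit 336021) (nat_lit 3) (.e (nat_lit 98317) (nat_lit 9) (.e (nat_lit 336010) (nat_lit 2) (.e (nat_lit 90158) (nat_lit 11) (.e (nat_lit 24608) (nat_lit 3) .nil)))))) (.g (nat_lit 6) .nil .nil))) 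
(.lf (nat_lit 220779) (.g (nat_lit 3091) (.e (nat_lit 98312) (nat_lit 9) (.e (nat_lit 336078) (nat_lit 9) (.e (nat_lit 336454) (nat_lit 34) (.e (nat_lit 483364) (nat_lit 18) (.e (nat_lit 57854) (nat_lit 252) (.e (nat_lit 57378) (nat_lit 3) .nil)))))) (.g (nat_lit 0) .nil .nil)))) (.nd (nat_lit 5) 
(.lf (nat_lit 220763) (.g (nat_lit 2579) (.e (nat_lit 98312) (nat_lit 9) (.e (nat_lit 336027) (nat_lit 3) (.e (nat_lit 98316) (nat_lit 9) (.e (nat_lit 336021) (nat_lit 3) (.e (nat_lit 98313) (nat_lit 9) (.e (nat_lit 336027) (nat_lit 3) .nil)))))) (.g (nat_lit 6) .nil .nil))) 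
(.lf (nat_lit 220795) (.g (nat_lit 1986) (.e (nat_lit 98312) (nat_lit 9) (.e (nat_lit 336088) (nat_lit 9) (.e (nat_lit 336019) (nat_lit 3) (.e (nat_lit 98354) (nat_lit 26) (.e (nat_lit 426448) (nat_lit 20) .nil))))) .nil))))) (.nd (nat_lit 3) (.nd (nat_lit 4) (.nd (nat_lit 5) 
(.lf (nat_lit 220743) (.g (nat_lit 1847) (.e (nat_lit 98312) (nat_lit 9) (.e (nat_lit 336021) (nat_lit 3) (.e (nat_lit 98317) (nat_lit 9) (.e (nat_lit 335886) (nat_lit 0) .nil)))) .nil)) 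
(.lf (nat_lit 220775) (.g (nat_lit 1662) (.e (nat_lit 98312) (nat_lit 9) (.e (nat_lit 336073) (nat_lit 9) (.e (nat_lit 336028) (nat_lit 3) (.e (nat_lit 98359) (nat_lit 26) (.e (nat_lit 433920) (nat_lit 20) (.e (nat_lit 114718) (nat_lit 23) .nil)))))) (.g (nat_lit 4) .nil .nil)))) (.nd (nat_lit 5) 
(.lf (nat_lit 220759) (.g (nat_lit 2200) (.e (nat_lit 98312) (nat_lit 9) (.e (nat_lit 336027) (nat_lit 3) (.e (nat_lit 98313) (nat_lit 9) (.e (nat_lit 336011) (nat_lit 2) (.e (nat_lit 90158) (nat_lit 11) .nil))))) .nil)) 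
(.lf (nat_lit 220791) (.g (nat_lit 2635) (.e (nat_lit 98312) (nat_lit 9) (.e (nat_lit 336087) (nat_lit 9) (.e (nat_lit 336019) (nat_lit 3) (.e (nat_lit 98358) (nat_lit 26) (.e (nat_lit 426446) (nat_lit 20) (.e (nat_lit 114719) (nat_lit 23) .nil)))))) (.g (nat_lit 6) .nil .nil))))) (.nd (nat_lit 4) (.nd (nat_lit 5) 
(.lf (nat_lit 220751) (.g (nat_lit 3619) (.e (nat_lit 98312) (nat_lit 9) (.e (nat_lit 336021) (nat_lit 3) (.e (nat_lit 98317) (nat_lit 9) (.e (nat_lit 336025) (nat_lit 3) (.e (nat_lit 98313) (nat_lit 9) (.e (nat_lit 336027) (nat_lit 3) .nil)))))) (.g (nat_lit 0) .nil .nil))) 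
(.lf (nat_lit 220783) (.g (nat_lit 2514) (.e (nat_lit 98312) (nat_lit 9) (.e (nat_lit 336087) (nat_lit 9) (.e (nat_lit 336019) (nat_lit 3) (.e (nat_lit 98356) (nat_lit 26) (.e (nat_lit 426446) (nat_lit 20) (.e (nat_lit 114719) (nat_lit 23) .nil)))))) (.g (nat_lit 6) .nil .nil)))) (.nd (nat_lit 5) 
(.lf (nat_lit 220767) (.g (nat_lit 3380) (.e (nat_lit 98312) (nat_lit 9) (.e (nat_lit 336027) (nat_lit 3) (.e (nat_lit 98317) (nat_lit 9) (.e (nat_lit 336012) (nat_lit 2) (.e (nat_lit 90158) (nat_lit 11) (.e (nat_lit 24608) (nat_lit 3) .nil)))))) (.g (nat_lit 6) .nil .nil))) 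
(.lf (nat_lit 220799) (.g (nat_lit 3684) (.e (nat_lit 98312) (nat_lit 9) (.e (nat_lit 336088) (nat_lit 9) (.e (nat_lit 336019) (nat_lit 3) (.e (nat_lit 98356) (nat_lit 26) (.e (nat_lit 426448) (nat_lit 20) (.e (nat_lit 114718) (nat_lit 23) .nil)))))) (.g (nat_lit 6) .nil .nil)))))))))

noncomputable def tv2900 : DT := (.nd (nat_lit 0) (.nd (nat_lit 1) (.nd (nat_lit 2) (.nd (nat_lit 3) (.nd (nat_lit 4) (.nd (nat_lit 5) (.nd (nat_lit 6) 
(.lf (nat_lit 220800) (.g (nat_lit 3615) (.e (nat_lit 98312) (nat_lit 9) (.e (nat_lit 336088) (nat_lit 9) (.e (nat_lit 336019) (nat_lit 3) (.e (nat_lit 98356) (nat_lit 26) (.e (nat_lit 426448) (nat_lit 20) (.e (nat_lit 114719) (nat_lit 23) .nil)))))) (.g (nat_lit 6) .nil .nil))) 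
(.lf (nat_lit 220864) (.g (nat_lit 395) (.e (nat_lit 98312) (nat_lit 9) (.e (nat_lit 336215) (nat_lit 13) (.e (nat_lit 401152) (nat_lit 10) .nil))) .nil))) (.nd (nat_lit 6) 
(.lf (nat_lit 220832) (.g (nat_lit 2415) (.e (nat_lit 98312) (nat_lit 9) (.e (nat_lit 336174) (nat_lit 10) (.e (nat_lit 344119) (nat_lit 21) (.e (nat_lit 516147) (nat_lit 9) (.e (nat_lit 426448) (nat_lit 20) (.e (nat_lit 114718) (nat_lit 23) .nil)))))) (.g (nat_lit 0) .nil .nil))) 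
(.lf (nat_lit 220896) (.g (nat_lit 2385) (.e (nat_lit 98313) (nat_lit 9) (.e (nat_lit 335996) (nat_lit 1) (.e (nat_lit 57852) (nat_lit 252) (.e (nat_lit 57350) (nat_lit 0) .nil)))) .nil)))) (.nd (nat_lit 5) (.nd (nat_lit 6) 
(.lf (nat_lit 220816) (.g (nat_lit 2799) (.e (nat_lit 98312) (nat_lit 9) (.e (nat_lit 336158) (nat_lit 9) (.e (nat_lit 336021) (nat_lit 3) (.e (nat_lit 98357) (nat_lit 26) (.e (nat_lit 426448) (nat_lit 20) (.e (nat_lit 114718) (nat_lit 23) .nil)))))) (.g (nat_lit 6) .nil .nil))) 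
(.lf (nat_lit 220880) (.g (nat_lit 1790) (.e (nat_lit 98313) (nat_lit 9) (.e (nat_lit 335988) (nat_lit 1) (.e (nat_lit 57931) (nat_lit 282) (.e (nat_lit 163901) (nat_lit 12) .nil)))) .nil))) (.nd (nat_lit 6) 
(.lf (nat_lit 220848) (.g (nat_lit 1752) (.e (nat_lit 98312) (nat_lit 9) (.e (nat_lit 336213) (nat_lit 13) (.e (nat_lit 393229) (nat_lit 9) (.e (nat_lit 335995) (nat_lit 1) .nil)))) .nil)) 
(.lf (nat_lit 220912) (.g (nat_lit 2413) (.e (nat_lit 98313) (nat_lit 9) (.e (nat_lit 336004) (nat_lit 2) (.e (nat_lit 90158) (nat_lit 11) (.e (nat_lit 24604) (nat_lit 2) (.e (nat_lit 90124) (nat_lit 9) .nil))))) .nil))))) (.nd (nat_lit 4) (.nd (nat_lit 5) (.nd (nat_lit 6) 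
(.lf (nat_lit 220808) (.g (nat_lit 3391) (.e (nat_lit 98312) (nat_lit 9) (.e (nat_lit 336088) (nat_lit 9) (.e (nat_lit 336019) (nat_lit 3) (.e (nat_lit 98358) (nat_lit 26) (.e (nat_lit 426448) (nat_lit 20) (.e (nat_lit 114719) (nat_lit 23) .nil)))))) (.g (nat_lit 6) .nil .nil))) 
(.lf (nat_lit 220872) (.g (nat_lit 1524) (.e (nat_lit 98313) (nat_lit 9) (.e (nat_lit 335987) (nat_lit 1) (.e (nat_lit 57926) (nat_lit 282) (.e (nat_lit 163905) (nat_lit 12) (.e (nat_lit 426542) (nat_lit 29) .nil))))) .nil))) (.nd (nat_lit 6) 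
(.lf (nat_lit 220840) (.g (nat_lit 1555) (.e (nat_lit 98312) (nat_lit 9) (.e (nat_lit 336186) (nat_lit 11) (.e (nat_lit 368676) (nat_lit 21) (.e (nat_lit 516146) (nat_lit 9) (.e (nat_lit 433920) (nat_lit 20) .nil))))) .nil)) 
(.lf (nat_lit 220904) (.g (nat_lit 1730) (.e (nat_lit 98313) (nat_lit 9) (.e (nat_lit 336004) (nat_lit 2) (.e (nat_lit 90157) (nat_lit 11) (.e (nat_lit 24607) (nat_lit 3) (.e (nat_lit 98313) (nat_lit 9) .nil))))) .nil)))) (.nd (nat_lit 5) (.nd (nat_lit 6) 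
(.lf (nat_lit 220824) (.g (nat_lit 2443) (.e (nat_lit 98312) (nat_lit 9) (.e (nat_lit 336163) (nat_lit 10) (.e (nat_lit 344117) (nat_lit 21) (.e (nat_lit 516145) (nat_lit 9) (.e (nat_lit 433920) (nat_lit 20) .nil))))) .nil)) 
(.lf (nat_lit 220888) (.g (nat_lit 752) (.e (nat_lit 98313) (nat_lit 9) (.e (nat_lit 335995) (nat_lit 1) (.e (nat_lit 57857) (nat_lit 254) .nil))) .nil))) (.nd (nat_lit 6) 
(.lf (nat_lit 220856) (.g (nat_lit 3417) (.e (nat_lit 98312) (nat_lit 9) (.e (nat_lit 336215) (nat_lit 13) (.e (nat_lit 393229) (nat_lit 9) (.e (nat_lit 335995) (nat_lit 1) (.e (nat_lit 57849) (nat_lit 252) (.e (nat_lit 57379) (nat_lit 3) .nil)))))) (.g (nat_lit 0) .nil .nil))) 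
(.lf (nat_lit 220920) (.g (nat_lit 2536) (.e (nat_lit 98313) (nat_lit 9) (.e (nat_lit 336004) (nat_lit 2) (.e (nat_lit 90158) (nat_lit 11) (.e (nat_lit 24604) (nat_lit 2) (.e (nat_lit 90158) (nat_lit 11) (.e (nat_lit 24609) (nat_lit 3) .nil)))))) (.g (nat_lit 5) .nil .nil))))))) (.nd (nat_lit 3) (.nd (nat_lit 4) (.nd (nat_lit 5) (.nd (nat_lit 6) 
(.lf (nat_lit 220804) (.g (nat_lit 3058) (.e (nat_lit 98312) (nat_lit 9) (.e (nat_lit 336088) (nat_lit 9) (.e (nat_lit 336019) (nat_lit 3) (.e (nat_lit 98357) (nat_lit 26) (.e (nat_lit 426448) (nat_lit 20) (.e (nat_lit 114718) (nat_lit 23) .nil)))))) (.g (nat_lit 6) .nil .nil))) 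
(.lf (nat_lit 220868) (.g (nat_lit 746) (.e (nat_lit 98312) (nat_lit 9) (.e (nat_lit 336223) (nat_lit 13) (.e (nat_lit 401152) (nat_lit 9) .nil))) .nil))) (.nd (nat_lit 6) 
(.lf (nat_lit 220836) (.g (nat_lit 1525) (.e (nat_lit 98312) (nat_lit 9) (.e (nat_lit 336184) (nat_lit 11) (.e (nat_lit 368676) (nat_lit 21) (.e (nat_lit 516146) (nat_lit 9) (.e (nat_lit 426446) (nat_lit 20) (.e (nat_lit 114718) (nat_lit 23) .nil)))))) (.g (nat_lit 4) .nil .nil))) 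
(.lf (nat_lit 220900) (.g (nat_lit 1877) (.e (nat_lit 98313) (nat_lit 9) (.e (nat_lit 335996) (nat_lit 1) (.e (nat_lit 57931) (nat_lit 282) (.e (nat_lit 163902) (nat_lit 12) (.e (nat_lit 426556) (nat_lit 32) .nil))))) .nil)))) (.nd (nat_lit 5) (.nd (nat_lit 6) 
(.lf (nat_lit 220820) (.g (nat_lit 3726) (.e (nat_lit 98312) (nat_lit 9) (.e (nat_lit 336163) (nat_lit 10) (.e (nat_lit 344117) (nat_lit 21) (.e (nat_lit 516145) (nat_lit 9) (.e (nat_lit 426446) (nat_lit 20) (.e (nat_lit 114719) (nat_lit 23) .nil)))))) (.g (nat_lit 5) .nil .nil))) 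
(.lf (nat_lit 220884) (.g (nat_lit 770) (.e (nat_lit 98313) (nat_lit 9) (.e (nat_lit 335995) (nat_lit 1) (.e (nat_lit 57842) (nat_lit 251) .nil))) .nil))) (.nd (nat_lit 6) 
(.lf (nat_lit 220852) (.g (nat_lit 986) (.e (nat_lit 98312) (nat_lit 9) (.e (nat_lit 336215) (nat_lit 13) (.e (nat_lit 393229) (nat_lit 9) (.e (nat_lit 335988) (nat_lit 1) .nil)))) .nil)) 
(.lf (nat_lit 220916) (.g (nat_lit 2583) (.e (nat_lit 98313) (nat_lit 9) (.e (nat_lit 336004) (nat_lit 2) (.e (nat_lit 90158) (nat_lit 11) (.e (nat_lit 24604) (nat_lit 2) (.e (nat_lit 90137) (nat_lit 9) .nil))))) .nil))))) (.nd (nat_lit 4) (.nd (nat_lit 5) (.nd (nat_lit 6) 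
(.lf (nat_lit 220812) (.g (nat_lit 2484) (.e (nat_lit 98312) (nat_lit 9) (.e (nat_lit 336100) (nat_lit 9) (.e (nat_lit 336013) (nat_lit 2) (.e (nat_lit 90170) (nat_lit 13) (.e (nat_lit 179968) (nat_lit 20) (.e (nat_lit 114719) (nat_lit 23) .nil)))))) (.g (nat_lit 4) .nil .nil))) 
(.lf (nat_lit 220876) (.g (nat_lit 2318) (.e (nat_lit 98313) (nat_lit 9) (.e (nat_lit 335988) (nat_lit 1) (.e (nat_lit 57927) (nat_lit 282) (.e (nat_lit 163902) (nat_lit 12) (.e (nat_lit 426555) (nat_lit 32) .nil))))) .nil))) (.nd (nat_lit 6) 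
(.lf (nat_lit 220844) (.g (nat_lit 1630) (.e (nat_lit 98312) (nat_lit 9) (.e (nat_lit 336213) (nat_lit 13) (.e (nat_lit 393225) (nat_lit 9) (.e (nat_lit 335986) (nat_lit 1) .nil)))) .nil)) 
(.lf (nat_lit 220908) (.g (nat_lit 1183) (.e (nat_lit 98313) (nat_lit 9) (.e (nat_lit 336004) (nat_lit 2) (.e (nat_lit 90158) (nat_lit 11) (.e (nat_lit 24603) (nat_lit 2) .nil)))) .nil)))) (.nd (nat_lit 5) (.nd (nat_lit 6) 
(.lf (nat_lit 220828) (.g (nat_lit 3403) (.e (nat_lit 98312) (nat_lit 9) (.e (nat_lit 336163) (nat_lit 10) (.e (nat_lit 344117) (nat_lit 21) (.e (nat_lit 516147) (nat_lit 9) (.e (nat_lit 426448) (nat_lit 20) (.e (nat_lit 114719) (nat_lit 23) .nil)))))) (.g (nat_lit 6) .nil .nil))) 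
(.lf (nat_lit 220892) (.g (nat_lit 1005) (.e (nat_lit 98313) (nat_lit 9) (.e (nat_lit 335995) (nat_lit 1) (.e (nat_lit 57872) (nat_lit 264) (.e (nat_lit 1190) (nat_lit 88) (.e (nat_lit 65655) (nat_lit 35) .nil))))) .nil))) (.nd (nat_lit 6) 
(.lf (nat_lit 220860) (.g (nat_lit 1269) (.e (nat_lit 98312) (nat_lit 9) (.e (nat_lit 336215) (nat_lit 13) (.e (nat_lit 393229) (nat_lit 9) (.e (nat_lit 343808) (nat_lit 1) .nil)))) .nil)) 
(.lf (nat_lit 220924) (.g (nat_lit 2241) (.e (nat_lit 98313) (nat_lit 9) (.e (nat_lit 336004) (nat_lit 2) (.e (nat_lit 90158) (nat_lit 11) (.e (nat_lit 24607) (nat_lit 3) (.e (nat_lit 98315) (nat_lit 9) (.e (nat_lit 343808) (nat_lit 3) .nil)))))) (.g (nat_lit 4) .nil .nil)))))))) (.nd (nat_lit 2) (.nd (nat_lit 3) (.nd (nat_lit 4) (.nd (nat_lit 5) (.nd (nat_lit 6) 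
(.lf (nat_lit 220802) (.g (nat_lit 2137) (.e (nat_lit 98312) (nat_lit 9) (.e (nat_lit 336088) (nat_lit 9) (.e (nat_lit 336019) (nat_lit 3) (.e (nat_lit 98356) (nat_lit 26) (.e (nat_lit 433920) (nat_lit 20) (.e (nat_lit 114718) (nat_lit 23) .nil)))))) (.g (nat_lit 4) .nil .nil))) 
(.lf (nat_lit 220866) (.g (nat_lit 859) (.e (nat_lit 98312) (nat_lit 9) (.e (nat_lit 336222) (nat_lit 13) (.e (nat_lit 393229) (nat_lit 9) (.e (nat_lit 335995) (nat_lit 1) .nil)))) .nil))) (.nd (nat_lit 6) 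
(.lf (nat_lit 220834) (.g (nat_lit 1220) (.e (nat_lit 98312) (nat_lit 9) (.e (nat_lit 336184) (nat_lit 11) (.e (nat_lit 368676) (nat_lit 21) (.e (nat_lit 516143) (nat_lit 9) .nil)))) .nil)) 
(.lf (nat_lit 220898) (.g (nat_lit 1220) (.e (nat_lit 98313) (nat_lit 9) (.e (nat_lit 335996) (nat_lit 1) (.e (nat_lit 57854) (nat_lit 252) (.e (nat_lit 57364) (nat_lit 1) (.e (nat_lit 65280) (nat_lit 209) .nil))))) .nil)))) (.nd (nat_lit 5) (.nd (nat_lit 6) 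
(.lf (nat_lit 220818) (.g (nat_lit 870) (.e (nat_lit 98312) (nat_lit 9) (.e (nat_lit 336163) (nat_lit 10) (.e (nat_lit 344107) (nat_lit 19) (.e (nat_lit 499825) (nat_lit 5) .nil)))) .nil)) 
(.lf (nat_lit 220882) (.g (nat_lit 2572) (.e (nat_lit 98313) (nat_lit 9) (.e (nat_lit 335988) (nat_lit 1) (.e (nat_lit 57931) (nat_lit 282) (.e (nat_lit 163902) (nat_lit 12) (.e (nat_lit 426556) (nat_lit 32) .nil))))) .nil))) (.nd (nat_lit 6) 
(.lf (nat_lit 220850) (.g (nat_lit 416) (.e (nat_lit 98312) (nat_lit 9) (.e (nat_lit 336215) (nat_lit 13) (.e (nat_lit 393229) (nat_lit 9) .nil))) .nil)) 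
(.lf (nat_lit 220914) (.g (nat_lit 2583) (.e (nat_lit 98313) (nat_lit 9) (.e (nat_lit 336004) (nat_lit 2) (.e (nat_lit 90158) (nat_lit 11) (.e (nat_lit 24604) (nat_lit 2) (.e (nat_lit 90126) (nat_lit 9) .nil))))) .nil))))) (.nd (nat_lit 4) (.nd (nat_lit 5) (.nd (nat_lit 6) 
(.lf (nat_lit 220810) (.g (nat_lit 1275) (.e (nat_lit 98312) (nat_lit 9) (.e (nat_lit 336088) (nat_lit 9) (.e (nat_lit 336019) (nat_lit 3) (.e (nat_lit 98386) (nat_lit 32) .nil)))) .nil)) 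
(.lf (nat_lit 220874) (.g (nat_lit 1795) (.e (nat_lit 98313) (nat_lit 9) (.e (nat_lit 335987) (nat_lit 1) (.e (nat_lit 57926) (nat_lit 282) (.e (nat_lit 163907) (nat_lit 12) (.e (nat_lit 426555) (nat_lit 32) .nil))))) .nil))) (.nd (nat_lit 6) 
(.lf (nat_lit 220842) (.g (nat_lit 1564) (.e (nat_lit 98312) (nat_lit 9) (.e (nat_lit 336186) (nat_lit 11) (.e (nat_lit 368676) (nat_lit 21) (.e (nat_lit 516150) (nat_lit 9) (.e (nat_lit 426446) (nat_lit 20) (.e (nat_lit 114719) (nat_lit 23) .nil)))))) (.g (nat_lit 4) .nil .nil))) 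
(.lf (nat_lit 220906) (.g (nat_lit 425) (.e (nat_lit 98313) (nat_lit 9) (.e (nat_lit 336004) (nat_lit 2) (.e (nat_lit 90158) (nat_lit 11) .nil))) .nil)))) (.nd (nat_lit 5) (.nd (nat_lit 6) 
(.lf (nat_lit 220826) (.g (nat_lit 2841) (.e (nat_lit 98312) (nat_lit 9) (.e (nat_lit 336163) (nat_lit 10) (.e (nat_lit 344117) (nat_lit 21) (.e (nat_lit 516147) (nat_lit 9) (.e (nat_lit 426446) (nat_lit 20) (.e (nat_lit 114719) (nat_lit 23) .nil)))))) (.g (nat_lit 0) .nil .nil))) 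
(.lf (nat_lit 220890) (.g (nat_lit 589) (.e (nat_lit 98313) (nat_lit 9) (.e (nat_lit 335995) (nat_lit 1) (.e (nat_lit 57870) (nat_lit 264) .nil))) .nil))) (.nd (nat_lit 6) 
(.lf (nat_lit 220858) (.g (nat_lit 3376) (.e (nat_lit 98312) (nat_lit 9) (.e (nat_lit 336215) (nat_lit 13) (.e (nat_lit 393229) (nat_lit 9) (.e (nat_lit 335996) (nat_lit 1) (.e (nat_lit 57852) (nat_lit 252) (.e (nat_lit 57378) (nat_lit 3) .nil)))))) (.g (nat_lit 6) .nil .nil))) 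
(.lf (nat_lit 220922) (.g (nat_lit 1658) (.e (nat_lit 98313) (nat_lit 9) (.e (nat_lit 336004) (nat_lit 2) (.e (nat_lit 90158) (nat_lit 11) (.e (nat_lit 24606) (nat_lit 3) .nil)))) .nil)))))) (.nd (nat_lit 3) (.nd (nat_lit 4) (.nd (nat_lit 5) (.nd (nat_lit 6) 
(.lf (nat_lit 220806) (.g (nat_lit 3095) (.e (nat_lit 98312) (nat_lit 9) (.e (nat_lit 336088) (nat_lit 9) (.e (nat_lit 336019) (nat_lit 3) (.e (nat_lit 98358) (nat_lit 26) (.e (nat_lit 426446) (nat_lit 20) (.e (nat_lit 114719) (nat_lit 23) .nil)))))) (.g (nat_lit 6) .nil .nil))) 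
(.lf (nat_lit 220870) (.g (nat_lit 1744) (.e (nat_lit 98313) (nat_lit 9) (.e (nat_lit 335986) (nat_lit 1) (.e (nat_lit 57930) (nat_lit 282) (.e (nat_lit 163905) (nat_lit 12) (.e (nat_lit 426555) (nat_lit 32) .nil))))) .nil))) (.nd (nat_lit 6) 
(.lf (nat_lit 220838) (.g (nat_lit 1374) (.e (nat_lit 98312) (nat_lit 9) (.e (nat_lit 336185) (nat_lit 11) (.e (nat_lit 368676) (nat_lit 21) (.e (nat_lit 516146) (nat_lit 9) (.e (nat_lit 426446) (nat_lit 20) .nil))))) .nil)) 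
(.lf (nat_lit 220902) (.g (nat_lit 1879) (.e (nat_lit 98313) (nat_lit 9) (.e (nat_lit 336002) (nat_lit 2) (.e (nat_lit 90158) (nat_lit 11) (.e (nat_lit 24607) (nat_lit 3) (.e (nat_lit 98315) (nat_lit 9) (.e (nat_lit 336017) (nat_lit 3) .nil)))))) (.g (nat_lit 4) .nil .nil))))) (.nd (nat_lit 5) (.nd (nat_lit 6) 
(.lf (nat_lit 220822) (.g (nat_lit 5336) (.e (nat_lit 98312) (nat_lit 9) (.e (nat_lit 336163) (nat_lit 10) (.e (nat_lit 344117) (nat_lit 21) (.e (nat_lit 516145) (nat_lit 9) (.e (nat_lit 426448) (nat_lit 20) (.e (nat_lit 114719) (nat_lit 23) .nil)))))) (.g (nat_lit 0) .nil .nil))) 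
(.lf (nat_lit 220886) (.g (nat_lit 661) (.e (nat_lit 98313) (nat_lit 9) (.e (nat_lit 335995) (nat_lit 1) (.e (nat_lit 57849) (nat_lit 252) .nil))) .nil))) (.nd (nat_lit 6) 
(.lf (nat_lit 220854) (.g (nat_lit 2885) (.e (nat_lit 98312) (nat_lit 9) (.e (nat_lit 336215) (nat_lit 13) (.e (nat_lit 393229) (nat_lit 9) (.e (nat_lit 335988) (nat_lit 1) (.e (nat_lit 57852) (nat_lit 252) (.e (nat_lit 57378) (nat_lit 3) .nil)))))) (.g (nat_lit 6) .nil .nil))) 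
(.lf (nat_lit 220918) (.g (nat_lit 2583) (.e (nat_lit 98313) (nat_lit 9) (.e (nat_lit 336004) (nat_lit 2) (.e (nat_lit 90158) (nat_lit 11) (.e (nat_lit 24604) (nat_lit 2) (.e (nat_lit 90146) (nat_lit 9) .nil))))) .nil))))) (.nd (nat_lit 4) (.nd (nat_lit 5) (.nd (nat_lit 6) 
(.lf (nat_lit 220814) (.g (nat_lit 1569) (.e (nat_lit 98312) (nat_lit 9) (.e (nat_lit 336158) (nat_lit 9) (.e (nat_lit 336004) (nat_lit 2) (.e (nat_lit 90185) (nat_lit 17) (.e (nat_lit 245504) (nat_lit 20) .nil))))) .nil)) 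
(.lf (nat_lit 220878) (.g (nat_lit 2426) (.e (nat_lit 98313) (nat_lit 9) (.e (nat_lit 335988) (nat_lit 1) (.e (nat_lit 57930) (nat_lit 282) (.e (nat_lit 163902) (nat_lit 12) (.e (nat_lit 426555) (nat_lit 32) .nil))))) .nil))) (.nd (nat_lit 6) 
(.lf (nat_lit 220846) (.g (nat_lit 847) (.e (nat_lit 98312) (nat_lit 9) (.e (nat_lit 336213) (nat_lit 13) (.e (nat_lit 393229) (nat_lit 9) .nil))) .nil)) 
(.lf (nat_lit 220910) (.g (nat_lit 2514) (.e (nat_lit 98313) (nat_lit 9) (.e (nat_lit 336004) (nat_lit 2) (.e (nat_lit 90158) (nat_lit 11) (.e (nat_lit 24604) (nat_lit 2) (.e (nat_lit 90121) (nat_lit 9) .nil))))) .nil)))) (.nd (nat_lit 5) (.nd (nat_lit 6) 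
(.lf (nat_lit 220830) (.g (nat_lit 2174) (.e (nat_lit 98312) (nat_lit 9) (.e (nat_lit 336165) (nat_lit 10) (.e (nat_lit 344117) (nat_lit 21) (.e (nat_lit 516151) (nat_lit 9) (.e (nat_lit 433920) (nat_lit 20) (.e (nat_lit 114719) (nat_lit 23) .nil)))))) (.g (nat_lit 4) .nil .nil))) 
(.lf (nat_lit 220894) (.g (nat_lit 1611) (.e (nat_lit 98313) (nat_lit 9) (.e (nat_lit 335995) (nat_lit 1) (.e (nat_lit 57931) (nat_lit 282) (.e (nat_lit 163900) (nat_lit 12) .nil)))) .nil))) (.nd (nat_lit 6) 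
(.lf (nat_lit 220862) (.g (nat_lit 1167) (.e (nat_lit 98312) (nat_lit 9) (.e (nat_lit 336215) (nat_lit 13) (.e (nat_lit 401152) (nat_lit 9) (.e (nat_lit 336336) (nat_lit 20) (.e (nat_lit 229120) (nat_lit 3) .nil))))) (.g (nat_lit 4) .nil .nil))) 
(.lf (nat_lit 220926) (.g (nat_lit 2145) (.e (nat_lit 98313) (nat_lit 9) (.e (nat_lit 336004) (nat_lit 2) (.e (nat_lit 90158) (nat_lit 11) (.e (nat_lit 24607) (nat_lit 3) (.e (nat_lit 106240) (nat_lit 9) .nil))))) .nil)))))))) (.nd (nat_lit 1) (.nd (nat_lit 2) (.nd (nat_lit 3) (.nd (nat_lit 4) (.nd (nat_lit 5) (.nd (nat_lit 6) 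
(.lf (nat_lit 220801) (.g (nat_lit 2076) (.e (nat_lit 98312) (nat_lit 9) (.e (nat_lit 336088) (nat_lit 9) (.e (nat_lit 336019) (nat_lit 3) (.e (nat_lit 98356) (nat_lit 26) (.e (nat_lit 433920) (nat_lit 20) .nil))))) .nil)) 
(.lf (nat_lit 220865) (.g (nat_lit 1097) (.e (nat_lit 98312) (nat_lit 9) (.e (nat_lit 336215) (nat_lit 13) (.e (nat_lit 401152) (nat_lit 15) (.e (nat_lit 385109) (nat_lit 51) (.e (nat_lit 802560) (nat_lit 3) .nil))))) (.g (nat_lit 4) .nil .nil)))) (.nd (nat_lit 6) 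
(.lf (nat_lit 220833) (.g (nat_lit 2359) (.e (nat_lit 98312) (nat_lit 9) (.e (nat_lit 336174) (nat_lit 10) (.e (nat_lit 344119) (nat_lit 21) (.e (nat_lit 516147) (nat_lit 9) (.e (nat_lit 426448) (nat_lit 20) (.e (nat_lit 114719) (nat_lit 23) .nil)))))) (.g (nat_lit 6) .nil .nil))) 
(.lf (nat_lit 220897) (.g (nat_lit 2137) (.e (nat_lit 98313) (nat_lit 9) (.e (nat_lit 335996) (nat_lit 1) (.e (nat_lit 57852) (nat_lit 252) (.e (nat_lit 65280) (nat_lit 62) .nil)))) .nil)))) (.nd (nat_lit 5) (.nd (nat_lit 6) 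
(.lf (nat_lit 220817) (.g (nat_lit 993) (.e (nat_lit 98312) (nat_lit 9) (.e (nat_lit 336158) (nat_lit 9) (.e (nat_lit 336021) (nat_lit 3) (.e (nat_lit 98385) (nat_lit 32) .nil)))) .nil)) 
(.lf (nat_lit 220881) (.g (nat_lit 1570) (.e (nat_lit 98313) (nat_lit 9) (.e (nat_lit 335988) (nat_lit 1) (.e (nat_lit 57931) (nat_lit 282) (.e (nat_lit 163902) (nat_lit 12) .nil)))) .nil))) (.nd (nat_lit 6) 
(.lf (nat_lit 220849) (.g (nat_lit 2754) (.e (nat_lit 98312) (nat_lit 9) (.e (nat_lit 336215) (nat_lit 13) (.e (nat_lit 393227) (nat_lit 9) (.e (nat_lit 335998) (nat_lit 1) (.e (nat_lit 57849) (nat_lit 252) (.e (nat_lit 57379) (nat_lit 3) .nil)))))) (.g (nat_lit 0) .nil .nil))) 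
(.lf (nat_lit 220913) (.g (nat_lit 2402) (.e (nat_lit 98313) (nat_lit 9) (.e (nat_lit 336004) (nat_lit 2) (.e (nat_lit 90158) (nat_lit 11) (.e (nat_lit 24604) (nat_lit 2) (.e (nat_lit 90125) (nat_lit 9) .nil))))) .nil))))) (.nd (nat_lit 4) (.nd (nat_lit 5) (.nd (nat_lit 6) 
(.lf (nat_lit 220809) (.g (nat_lit 1274) (.e (nat_lit 98312) (nat_lit 9) (.e (nat_lit 336088) (nat_lit 9) (.e (nat_lit 336019) (nat_lit 3) (.e (nat_lit 98384) (nat_lit 32) .nil)))) .nil)) 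
(.lf (nat_lit 220873) (.g (nat_lit 1756) (.e (nat_lit 98313) (nat_lit 9) (.e (nat_lit 335987) (nat_lit 1) (.e (nat_lit 57926) (nat_lit 282) (.e (nat_lit 163905) (nat_lit 12) (.e (nat_lit 426555) (nat_lit 32) .nil))))) .nil))) (.nd (nat_lit 6) 
(.lf (nat_lit 220841) (.g (nat_lit 1559) (.e (nat_lit 98312) (nat_lit 9) (.e (nat_lit 336186) (nat_lit 11) (.e (nat_lit 368676) (nat_lit 21) (.e (nat_lit 516148) (nat_lit 9) (.e (nat_lit 426446) (nat_lit 20) (.e (nat_lit 114719) (nat_lit 23) .nil)))))) (.g (nat_lit 4) .nil .nil))) 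
(.lf (nat_lit 220905) (.g (nat_lit 1592) (.e (nat_lit 98313) (nat_lit 9) (.e (nat_lit 336004) (nat_lit 2) (.e (nat_lit 90157) (nat_lit 11) (.e (nat_lit 24607) (nat_lit 3) (.e (nat_lit 98317) (nat_lit 9) .nil))))) .nil)))) (.nd (nat_lit 5) (.nd (nat_lit 6) 
(.lf (nat_lit 220825) (.g (nat_lit 2776) (.e (nat_lit 98312) (nat_lit 9) (.e (nat_lit 336163) (nat_lit 10) (.e (nat_lit 344117) (nat_lit 21) (.e (nat_lit 516147) (nat_lit 9) (.e (nat_lit 426446) (nat_lit 20) (.e (nat_lit 114718) (nat_lit 23) .nil)))))) (.g (nat_lit 6) .nil .nil))) 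
(.lf (nat_lit 220889) (.g (nat_lit 1007) (.e (nat_lit 98313) (nat_lit 9) (.e (nat_lit 335995) (nat_lit 1) (.e (nat_lit 57857) (nat_lit 254) (.e (nat_lit 163878) (nat_lit 4) .nil)))) .nil))) (.nd (nat_lit 6) 
(.lf (nat_lit 220857) (.g (nat_lit 1904) (.e (nat_lit 98312) (nat_lit 9) (.e (nat_lit 336215) (nat_lit 13) (.e (nat_lit 393229) (nat_lit 9) (.e (nat_lit 335996) (nat_lit 1) (.e (nat_lit 57830) (nat_lit 250) (.e (nat_lit 1016) (nat_lit 81) (.e (nat_lit 1256) (nat_lit 92) .nil))))))) (.g (nat_lit 4) .nil .nil))) 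
(.lf (nat_lit 220921) (.g (nat_lit 1182) (.e (nat_lit 98313) (nat_lit 9) (.e (nat_lit 336004) (nat_lit 2) (.e (nat_lit 90158) (nat_lit 11) (.e (nat_lit 24605) (nat_lit 2) .nil)))) .nil)))))) (.nd (nat_lit 3) (.nd (nat_lit 4) (.nd (nat_lit 5) (.nd (nat_lit 6) 
(.lf (nat_lit 220805) (.g (nat_lit 2993) (.e (nat_lit 98312) (nat_lit 9) (.e (nat_lit 336088) (nat_lit 9) (.e (nat_lit 336019) (nat_lit 3) (.e (nat_lit 98357) (nat_lit 26) (.e (nat_lit 426448) (nat_lit 20) (.e (nat_lit 114719) (nat_lit 23) .nil)))))) (.g (nat_lit 6) .nil .nil))) 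
(.lf (nat_lit 220869) (.g (nat_lit 2069) (.e (nat_lit 98313) (nat_lit 9) (.e (nat_lit 335986) (nat_lit 1) (.e (nat_lit 57930) (nat_lit 282) (.e (nat_lit 163902) (nat_lit 12) (.e (nat_lit 426555) (nat_lit 32) .nil))))) .nil))) (.nd (nat_lit 6) 
(.lf (nat_lit 220837) (.g (nat_lit 1533) (.e (nat_lit 98312) (nat_lit 9) (.e (nat_lit 336184) (nat_lit 11) (.e (nat_lit 368676) (nat_lit 21) (.e (nat_lit 516146) (nat_lit 9) (.e (nat_lit 426449) (nat_lit 20) .nil))))) .nil)) 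
(.lf (nat_lit 220901) (.g (nat_lit 685) (.e (nat_lit 98313) (nat_lit 9) (.e (nat_lit 336002) (nat_lit 2) (.e (nat_lit 90158) (nat_lit 11) (.e (nat_lit 24607) (nat_lit 3) .nil)))) .nil)))) (.nd (nat_lit 5) (.nd (nat_lit 6) 
(.lf (nat_lit 220821) (.g (nat_lit 5202) (.e (nat_lit 98312) (nat_lit 9) (.e (nat_lit 336163) (nat_lit 10) (.e (nat_lit 344117) (nat_lit 21) (.e (nat_lit 516145) (nat_lit 9) (.e (nat_lit 426448) (nat_lit 20) (.e (nat_lit 114718) (nat_lit 23) .nil)))))) (.g (nat_lit 0) .nil .nil))) 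
(.lf (nat_lit 220885) (.g (nat_lit 2346) (.e (nat_lit 98313) (nat_lit 9) (.e (nat_lit 335995) (nat_lit 1) (.e (nat_lit 57847) (nat_lit 252) (.e (nat_lit 57365) (nat_lit 1) (.e (nat_lit 65280) (nat_lit 209) (.e (nat_lit 1217) (nat_lit 90) (.e (nat_lit 81955) (nat_lit 23) .nil))))))) (.g (nat_lit 4) .nil .nil)))) (.nd (nat_lit 6) 
(.lf (nat_lit 220853) (.g (nat_lit 1900) (.e (nat_lit 98312) (nat_lit 9) (.e (nat_lit 336215) (nat_lit 13) (.e (nat_lit 393229) (nat_lit 9) (.e (nat_lit 335988) (nat_lit 1) (.e (nat_lit 57830) (nat_lit 250) (.e (nat_lit 999) (nat_lit 81) (.e (nat_lit 1256) (nat_lit 92) .nil))))))) (.g (nat_lit 4) .nil .nil))) 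
(.lf (nat_lit 220917) (.g (nat_lit 2563) (.e (nat_lit 98313) (nat_lit 9) (.e (nat_lit 336004) (nat_lit 2) (.e (nat_lit 90158) (nat_lit 11) (.e (nat_lit 24604) (nat_lit 2) (.e (nat_lit 90144) (nat_lit 9) .nil))))) .nil))))) (.nd (nat_lit 4) (.nd (nat_lit 5) (.nd (nat_lit 6) 
(.lf (nat_lit 220813) (.g (nat_lit 1361) (.e (nat_lit 98312) (nat_lit 9) (.e (nat_lit 336158) (nat_lit 9) (.e (nat_lit 336004) (nat_lit 2) (.e (nat_lit 90167) (nat_lit 13) (.e (nat_lit 179968) (nat_lit 20) .nil))))) .nil)) 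
(.lf (nat_lit 220877) (.g (nat_lit 903) (.e (nat_lit 98313) (nat_lit 9) (.e (nat_lit 335988) (nat_lit 1) (.e (nat_lit 57927) (nat_lit 282) (.e (nat_lit 163905) (nat_lit 12) .nil)))) .nil))) (.nd (nat_lit 6) 
(.lf (nat_lit 220845) (.g (nat_lit 1588) (.e (nat_lit 98312) (nat_lit 9) (.e (nat_lit 336213) (nat_lit 13) (.e (nat_lit 393225) (nat_lit 9) (.e (nat_lit 335988) (nat_lit 1) .nil)))) .nil)) 
(.lf (nat_lit 220909) (.g (nat_lit 1186) (.e (nat_lit 98313) (nat_lit 9) (.e (nat_lit 336004) (nat_lit 2) (.e (nat_lit 90158) (nat_lit 11) (.e (nat_lit 24604) (nat_lit 2) .nil)))) .nil)))) (.nd (nat_lit 5) (.nd (nat_lit 6) 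
(.lf (nat_lit 220829) (.g (nat_lit 2153) (.e (nat_lit 98312) (nat_lit 9) (.e (nat_lit 336165) (nat_lit 10) (.e (nat_lit 344117) (nat_lit 21) (.e (nat_lit 516151) (nat_lit 9) (.e (nat_lit 433920) (nat_lit 20) .nil))))) .nil)) 
(.lf (nat_lit 220893) (.g (nat_lit 1336) (.e (nat_lit 98313) (nat_lit 9) (.e (nat_lit 335995) (nat_lit 1) (.e (nat_lit 57930) (nat_lit 282) (.e (nat_lit 163904) (nat_lit 12) (.e (nat_lit 426555) (nat_lit 32) .nil))))) .nil))) (.nd (nat_lit 6) 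
(.lf (nat_lit 220861) (.g (nat_lit 1180) (.e (nat_lit 98312) (nat_lit 9) (.e (nat_lit 336215) (nat_lit 13) (.e (nat_lit 401152) (nat_lit 9) (.e (nat_lit 336334) (nat_lit 20) (.e (nat_lit 229120) (nat_lit 3) .nil))))) (.g (nat_lit 4) .nil .nil))) 
(.lf (nat_lit 220925) (.g (nat_lit 2534) (.e (nat_lit 98313) (nat_lit 9) (.e (nat_lit 336004) (nat_lit 2) (.e (nat_lit 90158) (nat_lit 11) (.e (nat_lit 24607) (nat_lit 3) (.e (nat_lit 98317) (nat_lit 9) (.e (nat_lit 336026) (nat_lit 3) .nil)))))) (.g (nat_lit 5) .nil .nil)))))))) (.nd (nat_lit 2) (.nd (nat_lit 3) (.nd (nat_lit 4) (.nd (nat_lit 5) (.nd (nat_lit 6) 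
(.lf (nat_lit 220803) (.g (nat_lit 2368) (.e (nat_lit 98312) (nat_lit 9) (.e (nat_lit 336088) (nat_lit 9) (.e (nat_lit 336019) (nat_lit 3) (.e (nat_lit 98357) (nat_lit 26) (.e (nat_lit 426446) (nat_lit 20) (.e (nat_lit 114719) (nat_lit 23) .nil)))))) (.g (nat_lit 6) .nil .nil))) 
(.lf (nat_lit 220867) (.g (nat_lit 1201) (.e (nat_lit 98312) (nat_lit 9) (.e (nat_lit 336223) (nat_lit 13) (.e (nat_lit 393224) (nat_lit 9) .nil))) .nil))) (.nd (nat_lit 6) 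
(.lf (nat_lit 220835) (.g (nat_lit 1288) (.e (nat_lit 98312) (nat_lit 9) (.e (nat_lit 336184) (nat_lit 11) (.e (nat_lit 368676) (nat_lit 21) (.e (nat_lit 516144) (nat_lit 9) (.e (nat_lit 426446) (nat_lit 20) (.e (nat_lit 114719) (nat_lit 23) .nil)))))) (.g (nat_lit 4) .nil .nil))) 
(.lf (nat_lit 220899) (.g (nat_lit 1713) (.e (nat_lit 98313) (nat_lit 9) (.e (nat_lit 335996) (nat_lit 1) (.e (nat_lit 57931) (nat_lit 282) (.e (nat_lit 163900) (nat_lit 12) .nil)))) .nil)))) (.nd (nat_lit 5) (.nd (nat_lit 6) 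
(.lf (nat_lit 220819) (.g (nat_lit 3608) (.e (nat_lit 98312) (nat_lit 9) (.e (nat_lit 336163) (nat_lit 10) (.e (nat_lit 344117) (nat_lit 21) (.e (nat_lit 516145) (nat_lit 9) (.e (nat_lit 426446) (nat_lit 20) (.e (nat_lit 114718) (nat_lit 23) .nil)))))) (.g (nat_lit 5) .nil .nil))) 
(.lf (nat_lit 220883) (.g (nat_lit 1607) (.e (nat_lit 98313) (nat_lit 9) (.e (nat_lit 335994) (nat_lit 1) (.e (nat_lit 57931) (nat_lit 282) (.e (nat_lit 163905) (nat_lit 12) (.e (nat_lit 426555) (nat_lit 32) .nil))))) .nil))) (.nd (nat_lit 6) 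
(.lf (nat_lit 220851) (.g (nat_lit 3242) (.e (nat_lit 98312) (nat_lit 9) (.e (nat_lit 336215) (nat_lit 13) (.e (nat_lit 393229) (nat_lit 9) (.e (nat_lit 335986) (nat_lit 1) (.e (nat_lit 57849) (nat_lit 252) (.e (nat_lit 57379) (nat_lit 3) .nil)))))) (.g (nat_lit 0) .nil .nil))) 
(.lf (nat_lit 220915) (.g (nat_lit 2560) (.e (nat_lit 98313) (nat_lit 9) (.e (nat_lit 336004) (nat_lit 2) (.e (nat_lit 90158) (nat_lit 11) (.e (nat_lit 24604) (nat_lit 2) (.e (nat_lit 90135) (nat_lit 9) .nil))))) .nil))))) (.nd (nat_lit 4) (.nd (nat_lit 5) (.nd (nat_lit 6) 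
(.lf (nat_lit 220811) (.g (nat_lit 2564) (.e (nat_lit 98312) (nat_lit 9) (.e (nat_lit 336100) (nat_lit 9) (.e (nat_lit 336013) (nat_lit 2) (.e (nat_lit 90170) (nat_lit 13) (.e (nat_lit 179968) (nat_lit 20) (.e (nat_lit 114718) (nat_lit 23) .nil)))))) (.g (nat_lit 4) .nil .nil))) 
(.lf (nat_lit 220875) (.g (nat_lit 1728) (.e (nat_lit 98313) (nat_lit 9) (.e (nat_lit 335987) (nat_lit 1) (.e (nat_lit 57926) (nat_lit 282) (.e (nat_lit 163944) (nat_lit 19) (.e (nat_lit 483393) (nat_lit 23) .nil))))) .nil))) (.nd (nat_lit 6) 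
(.lf (nat_lit 220843) (.g (nat_lit 700) (.e (nat_lit 98312) (nat_lit 9) (.e (nat_lit 336204) (nat_lit 12) (.e (nat_lit 385074) (nat_lit 31) .nil))) .nil)) 
(.lf (nat_lit 220907) (.g (nat_lit 1664) (.e (nat_lit 98313) (nat_lit 9) (.e (nat_lit 336004) (nat_lit 2) (.e (nat_lit 90158) (nat_lit 11) (.e (nat_lit 24588) (nat_lit 0) .nil)))) .nil)))) (.nd (nat_lit 5) (.nd (nat_lit 6) 
(.lf (nat_lit 220827) (.g (nat_lit 3490) (.e (nat_lit 98312) (nat_lit 9) (.e (nat_lit 336163) (nat_lit 10) (.e (nat_lit 344117) (nat_lit 21) (.e (nat_lit 516147) (nat_lit 9) (.e (nat_lit 426448) (nat_lit 20) (.e (nat_lit 114718) (nat_lit 23) .nil)))))) (.g (nat_lit 0) .nil .nil))) 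
(.lf (nat_lit 220891) (.g (nat_lit 1209) (.e (nat_lit 98313) (nat_lit 9) (.e (nat_lit 335995) (nat_lit 1) (.e (nat_lit 57870) (nat_lit 264) (.e (nat_lit 1189) (nat_lit 88) .nil)))) .nil))) (.nd (nat_lit 6) 
(.lf (nat_lit 220859) (.g (nat_lit 3749) (.e (nat_lit 98312) (nat_lit 9) (.e (nat_lit 336215) (nat_lit 13) (.e (nat_lit 393229) (nat_lit 9) (.e (nat_lit 335996) (nat_lit 1) (.e (nat_lit 57854) (nat_lit 252) (.e (nat_lit 57378) (nat_lit 3) .nil)))))) (.g (nat_lit 6) .nil .nil))) 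
(.lf (nat_lit 220923) (.g (nat_lit 1247) (.e (nat_lit 98313) (nat_lit 9) (.e (nat_lit 336004) (nat_lit 2) (.e (nat_lit 90158) (nat_lit 11) (.e (nat_lit 24607) (nat_lit 3) .nil)))) .nil)))))) (.nd (nat_lit 3) (.nd (nat_lit 4) (.nd (nat_lit 5) (.nd (nat_lit 6) 
(.lf (nat_lit 220807) (.g (nat_lit 3541) (.e (nat_lit 98312) (nat_lit 9) (.e (nat_lit 336088) (nat_lit 9) (.e (nat_lit 336019) (nat_lit 3) (.e (nat_lit 98358) (nat_lit 26) (.e (nat_lit 426448) (nat_lit 20) (.e (nat_lit 114718) (nat_lit 23) .nil)))))) (.g (nat_lit 0) .nil .nil))) 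
(.lf (nat_lit 220871) (.g (nat_lit 1772) (.e (nat_lit 98313) (nat_lit 9) (.e (nat_lit 335987) (nat_lit 1) (.e (nat_lit 57926) (nat_lit 282) (.e (nat_lit 163903) (nat_lit 12) (.e (nat_lit 426555) (nat_lit 32) .nil))))) .nil))) (.nd (nat_lit 6) 
(.lf (nat_lit 220839) (.g (nat_lit 1611) (.e (nat_lit 98312) (nat_lit 9) (.e (nat_lit 336186) (nat_lit 11) (.e (nat_lit 368676) (nat_lit 21) (.e (nat_lit 516144) (nat_lit 9) (.e (nat_lit 426446) (nat_lit 20) (.e (nat_lit 114719) (nat_lit 23) .nil)))))) (.g (nat_lit 5) .nil .nil))) 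
(.lf (nat_lit 220903) (.g (nat_lit 1254) (.e (nat_lit 98313) (nat_lit 9) (.e (nat_lit 336004) (nat_lit 2) (.e (nat_lit 90157) (nat_lit 11) (.e (nat_lit 24602) (nat_lit 2) (.e (nat_lit 90158) (nat_lit 11) .nil))))) .nil)))) (.nd (nat_lit 5) (.nd (nat_lit 6) 
(.lf (nat_lit 220823) (.g (nat_lit 2949) (.e (nat_lit 98312) (nat_lit 9) (.e (nat_lit 336163) (nat_lit 10) (.e (nat_lit 344117) (nat_lit 21) (.e (nat_lit 516145) (nat_lit 9) (.e (nat_lit 426449) (nat_lit 20) (.e (nat_lit 114719) (nat_lit 23) .nil)))))) (.g (nat_lit 4) .nil .nil))) 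
(.lf (nat_lit 220887) (.g (nat_lit 1722) (.e (nat_lit 98313) (nat_lit 9) (.e (nat_lit 335995) (nat_lit 1) (.e (nat_lit 57849) (nat_lit 252) (.e (nat_lit 57367) (nat_lit 1) .nil)))) .nil))) (.nd (nat_lit 6) 
(.lf (nat_lit 220855) (.g (nat_lit 3256) (.e (nat_lit 98312) (nat_lit 9) (.e (nat_lit 336215) (nat_lit 13) (.e (nat_lit 393229) (nat_lit 9) (.e (nat_lit 335988) (nat_lit 1) (.e (nat_lit 57854) (nat_lit 252) (.e (nat_lit 57378) (nat_lit 3) .nil)))))) (.g (nat_lit 6) .nil .nil))) 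
(.lf (nat_lit 220919) (.g (nat_lit 2507) (.e (nat_lit 98313) (nat_lit 9) (.e (nat_lit 336004) (nat_lit 2) (.e (nat_lit 90158) (nat_lit 11) (.e (nat_lit 24604) (nat_lit 2) (.e (nat_lit 90156) (nat_lit 11) .nil))))) .nil))))) (.nd (nat_lit 4) (.nd (nat_lit 5) (.nd (nat_lit 6) 
(.lf (nat_lit 220815) (.g (nat_lit 2104) (.e (nat_lit 98312) (nat_lit 9) (.e (nat_lit 336158) (nat_lit 9) (.e (nat_lit 336021) (nat_lit 3) (.e (nat_lit 98357) (nat_lit 26) (.e (nat_lit 426446) (nat_lit 20) (.e (nat_lit 114719) (nat_lit 23) .nil)))))) (.g (nat_lit 6) .nil .nil))) 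
(.lf (nat_lit 220879) (.g (nat_lit 2100) (.e (nat_lit 98313) (nat_lit 9) (.e (nat_lit 335988) (nat_lit 1) (.e (nat_lit 57930) (nat_lit 282) (.e (nat_lit 163905) (nat_lit 12) (.e (nat_lit 426555) (nat_lit 32) .nil))))) .nil))) (.nd (nat_lit 6) 
(.lf (nat_lit 220847) (.g (nat_lit 1454) (.e (nat_lit 98312) (nat_lit 9) (.e (nat_lit 336213) (nat_lit 13) (.e (nat_lit 393229) (nat_lit 9) (.e (nat_lit 335994) (nat_lit 1) .nil)))) .nil)) 
(.lf (nat_lit 220911) (.g (nat_lit 2372) (.e (nat_lit 98313) (nat_lit 9) (.e (nat_lit 336004) (nat_lit 2) (.e (nat_lit 90158) (nat_lit 11) (.e (nat_lit 24604) (nat_lit 2) (.e (nat_lit 90122) (nat_lit 9) .nil))))) .nil)))) (.nd (nat_lit 5) (.nd (nat_lit 6) 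
(.lf (nat_lit 220831) (.g (nat_lit 1786) (.e (nat_lit 98312) (nat_lit 9) (.e (nat_lit 336174) (nat_lit 10) (.e (nat_lit 344119) (nat_lit 21) (.e (nat_lit 516147) (nat_lit 9) (.e (nat_lit 426446) (nat_lit 20) (.e (nat_lit 114719) (nat_lit 23) .nil)))))) (.g (nat_lit 0) .nil .nil))) 
(.lf (nat_lit 220895) (.g (nat_lit 1914) (.e (nat_lit 98313) (nat_lit 9) (.e (nat_lit 335995) (nat_lit 1) (.e (nat_lit 57931) (nat_lit 282) (.e (nat_lit 163902) (nat_lit 12) (.e (nat_lit 426556) (nat_lit 32) .nil))))) .nil))) (.nd (nat_lit 6) 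
(.lf (nat_lit 220863) (.g (nat_lit 989) (.e (nat_lit 98312) (nat_lit 9) (.e (nat_lit 336215) (nat_lit 13) (.e (nat_lit 401152) (nat_lit 9) (.e (nat_lit 336337) (nat_lit 20) (.e (nat_lit 229120) (nat_lit 3) .nil))))) (.g (nat_lit 4) .nil .nil))) 
(.lf (nat_lit 220927) (.g (nat_lit 1187) (.e (nat_lit 98313) (nat_lit 9) (.e (nat_lit 336004) (nat_lit 2) (.e (nat_lit 90158) (nat_lit 11) (.e (nat_lit 24608) (nat_lit 3) .nil)))) .nil)))))))))

noncomputable def tv2901 : DT := (.nd (nat_lit 0) (.nd (nat_lit 1) (.nd (nat_lit 2) (.nd (nat_lit 3) (.nd (nat_lit 4) (.nd (nat_lit 5) (.nd (nat_lit 6) 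
(.lf (nat_lit 220928) (.g (nat_lit 2808) (.e (nat_lit 98313) (nat_lit 9) (.e (nat_lit 336004) (nat_lit 2) (.e (nat_lit 90158) (nat_lit 11) (.e (nat_lit 24608) (nat_lit 3) (.e (nat_lit 98305) (nat_lit 0) .nil))))) .nil)) 
(.lf (nat_lit 220992) (.g (nat_lit 1302) (.e (nat_lit 98313) (nat_lit 9) (.e (nat_lit 336012) (nat_lit 2) (.e (nat_lit 90158) (nat_lit 11) (.e (nat_lit 24602) (nat_lit 2) .nil)))) .nil))) (.nd (nat_lit 6) 
(.lf (nat_lit 220960) (.g (nat_lit 1216) (.e (nat_lit 98313) (nat_lit 9) (.e (nat_lit 336011) (nat_lit 2) (.e (nat_lit 90158) (nat_lit 11) (.e (nat_lit 24608) (nat_lit 3) .nil)))) .nil)) 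
(.lf (nat_lit 221024) (.g (nat_lit 401) (.e (nat_lit 98313) (nat_lit 9) (.e (nat_lit 336012) (nat_lit 2) (.e (nat_lit 90160) (nat_lit 11) .nil))) .nil)))) (.nd (nat_lit 5) (.nd (nat_lit 6) 
(.lf (nat_lit 220944) (.g (nat_lit 1735) (.e (nat_lit 98313) (nat_lit 9) (.e (nat_lit 336004) (nat_lit 2) (.e (nat_lit 90160) (nat_lit 11) (.e (nat_lit 24607) (nat_lit 3) (.e (nat_lit 106240) (nat_lit 9) .nil))))) .nil)) 
(.lf (nat_lit 221008) (.g (nat_lit 2455) (.e (nat_lit 98313) (nat_lit 9) (.e (nat_lit 336012) (nat_lit 2) (.e (nat_lit 90158) (nat_lit 11) (.e (nat_lit 24607) (nat_lit 3) (.e (nat_lit 98317) (nat_lit 9) (.e (nat_lit 336020) (nat_lit 3) .nil)))))) (.g (nat_lit 4) .nil .nil)))) (.nd (nat_lit 6) 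
(.lf (nat_lit 220976) (.g (nat_lit 4648) (.e (nat_lit 98313) (nat_lit 9) (.e (nat_lit 336012) (nat_lit 2) (.e (nat_lit 90128) (nat_lit 9) (.e (nat_lit 232) (nat_lit 21) (.e (nat_lit 336013) (nat_lit 2) (.e (nat_lit 90134) (nat_lit 9) (.e (nat_lit 290) (nat_lit 21) (.e (nat_lit 336021) (nat_lit 3) .nil)))))))) (.g (nat_lit 6) .nil .nil))) 
(.lf (nat_lit 221040) (.g (nat_lit 2303) (.e (nat_lit 98313) (nat_lit 9) (.e (nat_lit 336012) (nat_lit 2) (.e (nat_lit 90160) (nat_lit 11) (.e (nat_lit 24605) (nat_lit 2) .nil)))) .nil))))) (.nd (nat_lit 4) (.nd (nat_lit 5) (.nd (nat_lit 6) 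
(.lf (nat_lit 220936) (.g (nat_lit 2596) (.e (nat_lit 98313) (nat_lit 9) (.e (nat_lit 336004) (nat_lit 2) (.e (nat_lit 90160) (nat_lit 11) (.e (nat_lit 24588) (nat_lit 0) (.e (nat_lit 1799) (nat_lit 119) .nil))))) .nil)) 
(.lf (nat_lit 221000) (.g (nat_lit 2550) (.e (nat_lit 98313) (nat_lit 9) (.e (nat_lit 336012) (nat_lit 2) (.e (nat_lit 90158) (nat_lit 11) (.e (nat_lit 24604) (nat_lit 2) (.e (nat_lit 90135) (nat_lit 9) .nil))))) .nil))) (.nd (nat_lit 6) 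
(.lf (nat_lit 220968) (.g (nat_lit 2958) (.e (nat_lit 98313) (nat_lit 9) (.e (nat_lit 336011) (nat_lit 2) (.e (nat_lit 90160) (nat_lit 11) (.e (nat_lit 24607) (nat_lit 3) (.e (nat_lit 98317) (nat_lit 9) (.e (nat_lit 336027) (nat_lit 3) .nil)))))) (.g (nat_lit 4) .nil .nil))) 
(.lf (nat_lit 221032) (.g (nat_lit 1251) (.e (nat_lit 98313) (nat_lit 9) (.e (nat_lit 336012) (nat_lit 2) (.e (nat_lit 90160) (nat_lit 11) (.e (nat_lit 24602) (nat_lit 2) .nil)))) .nil)))) (.nd (nat_lit 5) (.nd (nat_lit 6) 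
(.lf (nat_lit 220952) (.g (nat_lit 1025) (.e (nat_lit 98313) (nat_lit 9) (.e (nat_lit 336011) (nat_lit 2) (.e (nat_lit 90157) (nat_lit 11) (.e (nat_lit 24603) (nat_lit 2) .nil)))) .nil)) 
(.lf (nat_lit 221016) (.g (nat_lit 2143) (.e (nat_lit 98313) (nat_lit 9) (.e (nat_lit 336012) (nat_lit 2) (.e (nat_lit 90158) (nat_lit 11) (.e (nat_lit 24608) (nat_lit 3) (.e (nat_lit 98317) (nat_lit 9) (.e (nat_lit 336020) (nat_lit 3) .nil)))))) (.g (nat_lit 4) .nil .nil)))) (.nd (nat_lit 6) 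
(.lf (nat_lit 220984) (.g (nat_lit 457) (.e (nat_lit 98313) (nat_lit 9) (.e (nat_lit 336012) (nat_lit 2) (.e (nat_lit 90157) (nat_lit 11) .nil))) .nil)) 
(.lf (nat_lit 221048) (.g (nat_lit 2820) (.e (nat_lit 98313) (nat_lit 9) (.e (nat_lit 336012) (nat_lit 2) (.e (nat_lit 90160) (nat_lit 11) (.e (nat_lit 24608) (nat_lit 3) (.e (nat_lit 98316) (nat_lit 9) (.e (nat_lit 336021) (nat_lit 3) .nil)))))) (.g (nat_lit 4) .nil .nil))))))) (.nd (nat_lit 3) (.nd (nat_lit 4) (.nd (nat_lit 5) (.nd (nat_lit 6) 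
(.lf (nat_lit 220932) (.g (nat_lit 1862) (.e (nat_lit 98313) (nat_lit 9) (.e (nat_lit 336004) (nat_lit 2) (.e (nat_lit 90158) (nat_lit 11) (.e (nat_lit 24608) (nat_lit 3) (.e (nat_lit 98316) (nat_lit 9) .nil))))) .nil)) 
(.lf (nat_lit 220996) (.g (nat_lit 2382) (.e (nat_lit 98313) (nat_lit 9) (.e (nat_lit 336012) (nat_lit 2) (.e (nat_lit 90158) (nat_lit 11) (.e (nat_lit 24604) (nat_lit 2) (.e (nat_lit 90122) (nat_lit 9) .nil))))) .nil))) (.nd (nat_lit 6) 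
(.lf (nat_lit 220964) (.g (nat_lit 1212) (.e (nat_lit 98313) (nat_lit 9) (.e (nat_lit 336011) (nat_lit 2) (.e (nat_lit 90159) (nat_lit 11) (.e (nat_lit 24607) (nat_lit 3) .nil)))) .nil)) 
(.lf (nat_lit 221028) (.g (nat_lit 2938) (.e (nat_lit 98313) (nat_lit 9) (.e (nat_lit 336012) (nat_lit 2) (.e (nat_lit 90160) (nat_lit 11) (.e (nat_lit 24588) (nat_lit 0) (.e (nat_lit 1788) (nat_lit 119) .nil))))) .nil)))) (.nd (nat_lit 5) (.nd (nat_lit 6) 
(.lf (nat_lit 220948) (.g (nat_lit 1245) (.e (nat_lit 98313) (nat_lit 9) (.e (nat_lit 336011) (nat_lit 2) (.e (nat_lit 90134) (nat_lit 9) (.e (nat_lit 290) (nat_lit 21) .nil)))) .nil)) 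
(.lf (nat_lit 221012) (.g (nat_lit 3628) (.e (nat_lit 98313) (nat_lit 9) (.e (nat_lit 336012) (nat_lit 2) (.e (nat_lit 90158) (nat_lit 11) (.e (nat_lit 24608) (nat_lit 3) (.e (nat_lit 98313) (nat_lit 9) (.e (nat_lit 336021) (nat_lit 3) .nil)))))) (.g (nat_lit 0) .nil .nil)))) (.nd (nat_lit 6) 
(.lf (nat_lit 220980) (.g (nat_lit 886) (.e (nat_lit 98313) (nat_lit 9) (.e (nat_lit 336012) (nat_lit 2) (.e (nat_lit 90133) (nat_lit 9) .nil))) .nil)) 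
(.lf (nat_lit 221044) (.g (nat_lit 2639) (.e (nat_lit 98313) (nat_lit 9) (.e (nat_lit 336012) (nat_lit 2) (.e (nat_lit 90160) (nat_lit 11) (.e (nat_lit 24607) (nat_lit 3) (.e (nat_lit 98317) (nat_lit 9) (.e (nat_lit 336026) (nat_lit 3) .nil)))))) (.g (nat_lit 5) .nil .nil)))))) (.nd (nat_lit 4) (.nd (nat_lit 5) (.nd (nat_lit 6) 
(.lf (nat_lit 220940) (.g (nat_lit 2248) (.e (nat_lit 98313) (nat_lit 9) (.e (nat_lit 336004) (nat_lit 2) (.e (nat_lit 90160) (nat_lit 11) (.e (nat_lit 24604) (nat_lit 2) (.e (nat_lit 90160) (nat_lit 11) .nil))))) .nil)) 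
(.lf (nat_lit 221004) (.g (nat_lit 3542) (.e (nat_lit 98313) (nat_lit 9) (.e (nat_lit 336012) (nat_lit 2) (.e (nat_lit 90158) (nat_lit 11) (.e (nat_lit 24604) (nat_lit 2) (.e (nat_lit 90160) (nat_lit 11) (.e (nat_lit 24607) (nat_lit 3) .nil)))))) (.g (nat_lit 0) .nil .nil)))) (.nd (nat_lit 6) 
(.lf (nat_lit 220972) (.g (nat_lit 883) (.e (nat_lit 98313) (nat_lit 9) (.e (nat_lit 336012) (nat_lit 2) (.e (nat_lit 90124) (nat_lit 9) .nil))) .nil)) 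
(.lf (nat_lit 221036) (.g (nat_lit 2136) (.e (nat_lit 98313) (nat_lit 9) (.e (nat_lit 336012) (nat_lit 2) (.e (nat_lit 90160) (nat_lit 11) (.e (nat_lit 24604) (nat_lit 2) (.e (nat_lit 90158) (nat_lit 11) .nil))))) .nil)))) (.nd (nat_lit 5) (.nd (nat_lit 6) 
(.lf (nat_lit 220956) (.g (nat_lit 1247) (.e (nat_lit 98313) (nat_lit 9) (.e (nat_lit 336011) (nat_lit 2) (.e (nat_lit 90158) (nat_lit 11) (.e (nat_lit 24607) (nat_lit 3) .nil)))) .nil)) 
(.lf (nat_lit 221020) (.g (nat_lit 364) (.e (nat_lit 98313) (nat_lit 9) (.e (nat_lit 336012) (nat_lit 2) (.e (nat_lit 90159) (nat_lit 11) .nil))) .nil))) (.nd (nat_lit 6) 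
(.lf (nat_lit 220988) (.g (nat_lit 2071) (.e (nat_lit 98313) (nat_lit 9) (.e (nat_lit 336012) (nat_lit 2) (.e (nat_lit 90157) (nat_lit 11) (.e (nat_lit 24607) (nat_lit 3) (.e (nat_lit 98317) (nat_lit 9) (.e (nat_lit 336020) (nat_lit 3) .nil)))))) (.g (nat_lit 4) .nil .nil))) 
(.lf (nat_lit 221052) (.g (nat_lit 3462) (.e (nat_lit 98313) (nat_lit 9) (.e (nat_lit 336021) (nat_lit 3) (.e (nat_lit 98313) (nat_lit 9) (.e (nat_lit 336004) (nat_lit 2) (.e (nat_lit 90158) (nat_lit 11) (.e (nat_lit 24607) (nat_lit 3) .nil)))))) (.g (nat_lit 6) .nil .nil)))))))) (.nd (nat_lit 2) (.nd (nat_lit 3) (.nd (nat_lit 4) (.nd (nat_lit 5) (.nd (nat_lit 6) 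
(.lf (nat_lit 220930) (.g (nat_lit 3485) (.e (nat_lit 98313) (nat_lit 9) (.e (nat_lit 336004) (nat_lit 2) (.e (nat_lit 90158) (nat_lit 11) (.e (nat_lit 24608) (nat_lit 3) (.e (nat_lit 98313) (nat_lit 9) (.e (nat_lit 336027) (nat_lit 3) .nil)))))) (.g (nat_lit 0) .nil .nil))) 
(.lf (nat_lit 220994) (.g (nat_lit 1190) (.e (nat_lit 98313) (nat_lit 9) (.e (nat_lit 336012) (nat_lit 2) (.e (nat_lit 90158) (nat_lit 11) (.e (nat_lit 24604) (nat_lit 2) .nil)))) .nil))) (.nd (nat_lit 6) 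
(.lf (nat_lit 220962) (.g (nat_lit 1240) (.e (nat_lit 98313) (nat_lit 9) (.e (nat_lit 336011) (nat_lit 2) (.e (nat_lit 90158) (nat_lit 11) (.e (nat_lit 24609) (nat_lit 3) .nil)))) .nil)) 
(.lf (nat_lit 221026) (.g (nat_lit 3140) (.e (nat_lit 98313) (nat_lit 9) (.e (nat_lit 336012) (nat_lit 2) (.e (nat_lit 90160) (nat_lit 11) (.e (nat_lit 24580) (nat_lit 0) (.e (nat_lit 1764) (nat_lit 117) .nil))))) .nil)))) (.nd (nat_lit 5) (.nd (nat_lit 6) 
(.lf (nat_lit 220946) (.g (nat_lit 2255) (.e (nat_lit 98313) (nat_lit 9) (.e (nat_lit 336004) (nat_lit 2) (.e (nat_lit 90160) (nat_lit 11) (.e (nat_lit 24608) (nat_lit 3) (.e (nat_lit 98313) (nat_lit 9) .nil))))) .nil)) 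
(.lf (nat_lit 221010) (.g (nat_lit 2831) (.e (nat_lit 98313) (nat_lit 9) (.e (nat_lit 336012) (nat_lit 2) (.e (nat_lit 90158) (nat_lit 11) (.e (nat_lit 24608) (nat_lit 3) (.e (nat_lit 98305) (nat_lit 0) .nil))))) .nil))) (.nd (nat_lit 6) 
(.lf (nat_lit 220978) (.g (nat_lit 1789) (.e (nat_lit 98313) (nat_lit 9) (.e (nat_lit 336012) (nat_lit 2) (.e (nat_lit 90128) (nat_lit 9) (.e (nat_lit 297) (nat_lit 22) (.e (nat_lit 344110) (nat_lit 19) .nil))))) .nil)) 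
(.lf (nat_lit 221042) (.g (nat_lit 2158) (.e (nat_lit 98313) (nat_lit 9) (.e (nat_lit 336012) (nat_lit 2) (.e (nat_lit 90160) (nat_lit 11) (.e (nat_lit 24607) (nat_lit 3) (.e (nat_lit 98315) (nat_lit 9) (.e (nat_lit 343808) (nat_lit 3) .nil)))))) (.g (nat_lit 4) .nil .nil)))))) (.nd (nat_lit 4) (.nd (nat_lit 5) (.nd (nat_lit 6) 
(.lf (nat_lit 220938) (.g (nat_lit 1478) (.e (nat_lit 98313) (nat_lit 9) (.e (nat_lit 336004) (nat_lit 2) (.e (nat_lit 90160) (nat_lit 11) (.e (nat_lit 24603) (nat_lit 2) .nil)))) .nil)) 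
(.lf (nat_lit 221002) (.g (nat_lit 2539) (.e (nat_lit 98313) (nat_lit 9) (.e (nat_lit 336012) (nat_lit 2) (.e (nat_lit 90158) (nat_lit 11) (.e (nat_lit 24604) (nat_lit 2) (.e (nat_lit 90156) (nat_lit 11) .nil))))) .nil))) (.nd (nat_lit 6) 
(.lf (nat_lit 220970) (.g (nat_lit 886) (.e (nat_lit 98313) (nat_lit 9) (.e (nat_lit 336012) (nat_lit 2) (.e (nat_lit 90122) (nat_lit 9) .nil))) .nil)) 
(.lf (nat_lit 221034) (.g (nat_lit 1528) (.e (nat_lit 98313) (nat_lit 9) (.e (nat_lit 336012) (nat_lit 2) (.e (nat_lit 90160) (nat_lit 11) (.e (nat_lit 24604) (nat_lit 2) .nil)))) .nil)))) (.nd (nat_lit 5) (.nd (nat_lit 6) 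
(.lf (nat_lit 220954) (.g (nat_lit 1793) (.e (nat_lit 98313) (nat_lit 9) (.e (nat_lit 336011) (nat_lit 2) (.e (nat_lit 90157) (nat_lit 11) (.e (nat_lit 24607) (nat_lit 3) (.e (nat_lit 106240) (nat_lit 9) .nil))))) .nil)) 
(.lf (nat_lit 221018) (.g (nat_lit 1245) (.e (nat_lit 98313) (nat_lit 9) (.e (nat_lit 336012) (nat_lit 2) (.e (nat_lit 90158) (nat_lit 11) (.e (nat_lit 24609) (nat_lit 3) .nil)))) .nil))) (.nd (nat_lit 6) 
(.lf (nat_lit 220986) (.g (nat_lit 1025) (.e (nat_lit 98313) (nat_lit 9) (.e (nat_lit 336012) (nat_lit 2) (.e (nat_lit 90157) (nat_lit 11) (.e (nat_lit 24607) (nat_lit 3) .nil)))) .nil)) 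
(.lf (nat_lit 221050) (.g (nat_lit 2442) (.e (nat_lit 98313) (nat_lit 9) (.e (nat_lit 336012) (nat_lit 2) (.e (nat_lit 90160) (nat_lit 11) (.e (nat_lit 24609) (nat_lit 3) .nil)))) .nil)))))) (.nd (nat_lit 3) (.nd (nat_lit 4) (.nd (nat_lit 5) (.nd (nat_lit 6) 
(.lf (nat_lit 220934) (.g (nat_lit 1192) (.e (nat_lit 98313) (nat_lit 9) (.e (nat_lit 336004) (nat_lit 2) (.e (nat_lit 90158) (nat_lit 11) (.e (nat_lit 24609) (nat_lit 3) .nil)))) .nil)) 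
(.lf (nat_lit 220998) (.g (nat_lit 2381) (.e (nat_lit 98313) (nat_lit 9) (.e (nat_lit 336012) (nat_lit 2) (.e (nat_lit 90158) (nat_lit 11) (.e (nat_lit 24604) (nat_lit 2) (.e (nat_lit 90125) (nat_lit 9) .nil))))) .nil))) (.nd (nat_lit 6) 
(.lf (nat_lit 220966) (.g (nat_lit 1635) (.e (nat_lit 98313) (nat_lit 9) (.e (nat_lit 336011) (nat_lit 2) (.e (nat_lit 90160) (nat_lit 11) (.e (nat_lit 24607) (nat_lit 3) .nil)))) .nil)) 
(.lf (nat_lit 221030) (.g (nat_lit 2282) (.e (nat_lit 98313) (nat_lit 9) (.e (nat_lit 336012) (nat_lit 2) (.e (nat_lit 90160) (nat_lit 11) (.e (nat_lit 24595) (nat_lit 0) .nil)))) .nil)))) (.nd (nat_lit 5) (.nd (nat_lit 6) 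
(.lf (nat_lit 220950) (.g (nat_lit 640) (.e (nat_lit 98313) (nat_lit 9) (.e (nat_lit 336011) (nat_lit 2) (.e (nat_lit 90156) (nat_lit 11) .nil))) .nil)) 
(.lf (nat_lit 221014) (.g (nat_lit 2122) (.e (nat_lit 98313) (nat_lit 9) (.e (nat_lit 336012) (nat_lit 2) (.e (nat_lit 90158) (nat_lit 11) (.e (nat_lit 24608) (nat_lit 3) (.e (nat_lit 98315) (nat_lit 9) (.e (nat_lit 343808) (nat_lit 3) .nil)))))) (.g (nat_lit 4) .nil .nil)))) (.nd (nat_lit 6) 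
(.lf (nat_lit 220982) (.g (nat_lit 1379) (.e (nat_lit 98313) (nat_lit 9) (.e (nat_lit 336012) (nat_lit 2) (.e (nat_lit 90134) (nat_lit 9) (.e (nat_lit 290) (nat_lit 21) .nil)))) .nil)) 
(.lf (nat_lit 221046) (.g (nat_lit 1547) (.e (nat_lit 98313) (nat_lit 9) (.e (nat_lit 336012) (nat_lit 2) (.e (nat_lit 90160) (nat_lit 11) (.e (nat_lit 24608) (nat_lit 3) .nil)))) .nil))))) (.nd (nat_lit 4) (.nd (nat_lit 5) (.nd (nat_lit 6) 
(.lf (nat_lit 220942) (.g (nat_lit 2242) (.e (nat_lit 98313) (nat_lit 9) (.e (nat_lit 336004) (nat_lit 2) (.e (nat_lit 90160) (nat_lit 11) (.e (nat_lit 24607) (nat_lit 3) (.e (nat_lit 98315) (nat_lit 9) .nil))))) .nil)) 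
(.lf (nat_lit 221006) (.g (nat_lit 1307) (.e (nat_lit 98313) (nat_lit 9) (.e (nat_lit 336012) (nat_lit 2) (.e (nat_lit 90158) (nat_lit 11) (.e (nat_lit 24607) (nat_lit 3) .nil)))) .nil))) (.nd (nat_lit 6) 
(.lf (nat_lit 220974) (.g (nat_lit 879) (.e (nat_lit 98313) (nat_lit 9) (.e (nat_lit 336012) (nat_lit 2) (.e (nat_lit 90127) (nat_lit 9) .nil))) .nil)) 
(.lf (nat_lit 221038) (.g (nat_lit 2695) (.e (nat_lit 98313) (nat_lit 9) (.e (nat_lit 336012) (nat_lit 2) (.e (nat_lit 90160) (nat_lit 11) (.e (nat_lit 24604) (nat_lit 2) (.e (nat_lit 90159) (nat_lit 11) .nil))))) .nil)))) (.nd (nat_lit 5) (.nd (nat_lit 6) 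
(.lf (nat_lit 220958) (.g (nat_lit 2589) (.e (nat_lit 98313) (nat_lit 9) (.e (nat_lit 336011) (nat_lit 2) (.e (nat_lit 90158) (nat_lit 11) (.e (nat_lit 24607) (nat_lit 3) (.e (nat_lit 98315) (nat_lit 9) .nil))))) .nil)) 
(.lf (nat_lit 221022) (.g (nat_lit 1743) (.e (nat_lit 98313) (nat_lit 9) (.e (nat_lit 336012) (nat_lit 2) (.e (nat_lit 90159) (nat_lit 11) (.e (nat_lit 24607) (nat_lit 3) (.e (nat_lit 98315) (nat_lit 9) (.e (nat_lit 343808) (nat_lit 3) .nil)))))) (.g (nat_lit 4) .nil .nil)))) (.nd (nat_lit 6) 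
(.lf (nat_lit 220990) (.g (nat_lit 1995) (.e (nat_lit 98313) (nat_lit 9) (.e (nat_lit 336012) (nat_lit 2) (.e (nat_lit 90157) (nat_lit 11) (.e (nat_lit 24608) (nat_lit 3) (.e (nat_lit 98317) (nat_lit 9) .nil))))) .nil)) 
(.lf (nat_lit 221054) (.g (nat_lit 1283) (.e (nat_lit 98313) (nat_lit 9) (.e (nat_lit 336021) (nat_lit 3) (.e (nat_lit 98313) (nat_lit 9) (.e (nat_lit 336011) (nat_lit 2) .nil)))) .nil)))))))) (.nd (nat_lit 1) (.nd (nat_lit 2) (.nd (nat_lit 3) (.nd (nat_lit 4) (.nd (nat_lit 5) (.nd (nat_lit 6) 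
(.lf (nat_lit 220929) (.g (nat_lit 2861) (.e (nat_lit 98313) (nat_lit 9) (.e (nat_lit 336004) (nat_lit 2) (.e (nat_lit 90158) (nat_lit 11) (.e (nat_lit 24608) (nat_lit 3) (.e (nat_lit 98307) (nat_lit 0) (.e (nat_lit 7936) (nat_lit 343) (.e (nat_lit 1250) (nat_lit 92) .nil))))))) (.g (nat_lit 4) .nil .nil))) 
(.lf (nat_lit 220993) (.g (nat_lit 1196) (.e (nat_lit 98313) (nat_lit 9) (.e (nat_lit 336012) (nat_lit 2) (.e (nat_lit 90158) (nat_lit 11) (.e (nat_lit 24603) (nat_lit 2) .nil)))) .nil))) (.nd (nat_lit 6) 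
(.lf (nat_lit 220961) (.g (nat_lit 2231) (.e (nat_lit 98313) (nat_lit 9) (.e (nat_lit 336011) (nat_lit 2) (.e (nat_lit 90158) (nat_lit 11) (.e (nat_lit 24608) (nat_lit 3) (.e (nat_lit 98316) (nat_lit 9) .nil))))) .nil)) 
(.lf (nat_lit 221025) (.g (nat_lit 2442) (.e (nat_lit 98313) (nat_lit 9) (.e (nat_lit 336012) (nat_lit 2) (.e (nat_lit 90160) (nat_lit 11) (.e (nat_lit 24576) (nat_lit 0) .nil)))) .nil)))) (.nd (nat_lit 5) (.nd (nat_lit 6) 
(.lf (nat_lit 220945) (.g (nat_lit 1523) (.e (nat_lit 98313) (nat_lit 9) (.e (nat_lit 336004) (nat_lit 2) (.e (nat_lit 90160) (nat_lit 11) (.e (nat_lit 24608) (nat_lit 3) .nil)))) .nil)) 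
(.lf (nat_lit 221009) (.g (nat_lit 1228) (.e (nat_lit 98313) (nat_lit 9) (.e (nat_lit 336012) (nat_lit 2) (.e (nat_lit 90158) (nat_lit 11) (.e (nat_lit 24608) (nat_lit 3) .nil)))) .nil))) (.nd (nat_lit 6) 
(.lf (nat_lit 220977) (.g (nat_lit 1499) (.e (nat_lit 98313) (nat_lit 9) (.e (nat_lit 336012) (nat_lit 2) (.e (nat_lit 90128) (nat_lit 9) (.e (nat_lit 293) (nat_lit 21) .nil)))) .nil)) 
(.lf (nat_lit 221041) (.g (nat_lit 1177) (.e (nat_lit 98313) (nat_lit 9) (.e (nat_lit 336012) (nat_lit 2) (.e (nat_lit 90160) (nat_lit 11) (.e (nat_lit 24607) (nat_lit 3) .nil)))) .nil))))) (.nd (nat_lit 4) (.nd (nat_lit 5) (.nd (nat_lit 6) 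
(.lf (nat_lit 220937) (.g (nat_lit 1877) (.e (nat_lit 98313) (nat_lit 9) (.e (nat_lit 336004) (nat_lit 2) (.e (nat_lit 90160) (nat_lit 11) (.e (nat_lit 24602) (nat_lit 2) (.e (nat_lit 90158) (nat_lit 11) .nil))))) .nil)) 
(.lf (nat_lit 221001) (.g (nat_lit 2578) (.e (nat_lit 98313) (nat_lit 9) (.e (nat_lit 336012) (nat_lit 2) (.e (nat_lit 90158) (nat_lit 11) (.e (nat_lit 24604) (nat_lit 2) (.e (nat_lit 90137) (nat_lit 9) .nil))))) .nil))) (.nd (nat_lit 6) 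
(.lf (nat_lit 220969) (.g (nat_lit 1955) (.e (nat_lit 98313) (nat_lit 9) (.e (nat_lit 336011) (nat_lit 2) (.e (nat_lit 90160) (nat_lit 11) (.e (nat_lit 24608) (nat_lit 3) .nil)))) .nil)) 
(.lf (nat_lit 221033) (.g (nat_lit 1547) (.e (nat_lit 98313) (nat_lit 9) (.e (nat_lit 336012) (nat_lit 2) (.e (nat_lit 90160) (nat_lit 11) (.e (nat_lit 24603) (nat_lit 2) .nil)))) .nil)))) (.nd (nat_lit 5) (.nd (nat_lit 6) 
(.lf (nat_lit 220953) (.g (nat_lit 2350) (.e (nat_lit 98313) (nat_lit 9) (.e (nat_lit 336011) (nat_lit 2) (.e (nat_lit 90157) (nat_lit 11) (.e (nat_lit 24607) (nat_lit 3) (.e (nat_lit 98315) (nat_lit 9) (.e (nat_lit 336017) (nat_lit 3) .nil)))))) (.g (nat_lit 4) .nil .nil))) 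
(.lf (nat_lit 221017) (.g (nat_lit 1870) (.e (nat_lit 98313) (nat_lit 9) (.e (nat_lit 336012) (nat_lit 2) (.e (nat_lit 90158) (nat_lit 11) (.e (nat_lit 24608) (nat_lit 3) (.e (nat_lit 106240) (nat_lit 9) .nil))))) .nil))) (.nd (nat_lit 6) 
(.lf (nat_lit 220985) (.g (nat_lit 1384) (.e (nat_lit 98313) (nat_lit 9) (.e (nat_lit 336012) (nat_lit 2) (.e (nat_lit 90157) (nat_lit 11) (.e (nat_lit 24603) (nat_lit 2) (.e (nat_lit 90158) (nat_lit 11) .nil))))) .nil)) 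
(.lf (nat_lit 221049) (.g (nat_lit 3262) (.e (nat_lit 98313) (nat_lit 9) (.e (nat_lit 336012) (nat_lit 2) (.e (nat_lit 90160) (nat_lit 11) (.e (nat_lit 24608) (nat_lit 3) (.e (nat_lit 98317) (nat_lit 9) (.e (nat_lit 336025) (nat_lit 3) .nil)))))) (.g (nat_lit 5) .nil .nil))))))) (.nd (nat_lit 3) (.nd (nat_lit 4) (.nd (nat_lit 5) (.nd (nat_lit 6) 
(.lf (nat_lit 220933) (.g (nat_lit 2170) (.e (nat_lit 98313) (nat_lit 9) (.e (nat_lit 336004) (nat_lit 2) (.e (nat_lit 90158) (nat_lit 11) (.e (nat_lit 24608) (nat_lit 3) (.e (nat_lit 98317) (nat_lit 9) (.e (nat_lit 336020) (nat_lit 3) .nil)))))) (.g (nat_lit 4) .nil .nil))) 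
(.lf (nat_lit 220997) (.g (nat_lit 2322) (.e (nat_lit 98313) (nat_lit 9) (.e (nat_lit 336012) (nat_lit 2) (.e (nat_lit 90158) (nat_lit 11) (.e (nat_lit 24604) (nat_lit 2) (.e (nat_lit 90124) (nat_lit 9) .nil))))) .nil))) (.nd (nat_lit 6) 
(.lf (nat_lit 220965) (.g (nat_lit 1795) (.e (nat_lit 98313) (nat_lit 9) (.e (nat_lit 336011) (nat_lit 2) (.e (nat_lit 90160) (nat_lit 11) (.e (nat_lit 24604) (nat_lit 2) .nil)))) .nil)) 
(.lf (nat_lit 221029) (.g (nat_lit 2442) (.e (nat_lit 98313) (nat_lit 9) (.e (nat_lit 336012) (nat_lit 2) (.e (nat_lit 90160) (nat_lit 11) (.e (nat_lit 24593) (nat_lit 0) .nil)))) .nil)))) (.nd (nat_lit 5) (.nd (nat_lit 6) 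
(.lf (nat_lit 220949) (.g (nat_lit 2829) (.e (nat_lit 98313) (nat_lit 9) (.e (nat_lit 336011) (nat_lit 2) (.e (nat_lit 90134) (nat_lit 9) (.e (nat_lit 290) (nat_lit 21) (.e (nat_lit 336021) (nat_lit 3) (.e (nat_lit 98315) (nat_lit 9) (.e (nat_lit 336017) (nat_lit 3) .nil))))))) (.g (nat_lit 5) .nil .nil))) 
(.lf (nat_lit 221013) (.g (nat_lit 3581) (.e (nat_lit 98313) (nat_lit 9) (.e (nat_lit 336012) (nat_lit 2) (.e (nat_lit 90158) (nat_lit 11) (.e (nat_lit 24608) (nat_lit 3) (.e (nat_lit 98313) (nat_lit 9) (.e (nat_lit 336027) (nat_lit 3) .nil)))))) (.g (nat_lit 0) .nil .nil)))) (.nd (nat_lit 6) 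
(.lf (nat_lit 220981) (.g (nat_lit 1502) (.e (nat_lit 98313) (nat_lit 9) (.e (nat_lit 336012) (nat_lit 2) (.e (nat_lit 90133) (nat_lit 9) (.e (nat_lit 296) (nat_lit 22) (.e (nat_lit 344119) (nat_lit 21) .nil))))) .nil)) 
(.lf (nat_lit 221045) (.g (nat_lit 1553) (.e (nat_lit 98313) (nat_lit 9) (.e (nat_lit 336012) (nat_lit 2) (.e (nat_lit 90160) (nat_lit 11) (.e (nat_lit 24607) (nat_lit 3) (.e (nat_lit 106240) (nat_lit 9) .nil))))) .nil))))) (.nd (nat_lit 4) (.nd (nat_lit 5) (.nd (nat_lit 6) 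
(.lf (nat_lit 220941) (.g (nat_lit 2141) (.e (nat_lit 98313) (nat_lit 9) (.e (nat_lit 336004) (nat_lit 2) (.e (nat_lit 90160) (nat_lit 11) (.e (nat_lit 24607) (nat_lit 3) (.e (nat_lit 98313) (nat_lit 9) .nil))))) .nil)) 
(.lf (nat_lit 221005) (.g (nat_lit 1236) (.e (nat_lit 98313) (nat_lit 9) (.e (nat_lit 336012) (nat_lit 2) (.e (nat_lit 90158) (nat_lit 11) (.e (nat_lit 24605) (nat_lit 2) .nil)))) .nil))) (.nd (nat_lit 6) 
(.lf (nat_lit 220973) (.g (nat_lit 886) (.e (nat_lit 98313) (nat_lit 9) (.e (nat_lit 336012) (nat_lit 2) (.e (nat_lit 90125) (nat_lit 9) .nil))) .nil)) 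
(.lf (nat_lit 221037) (.g (nat_lit 2848) (.e (nat_lit 98313) (nat_lit 9) (.e (nat_lit 336012) (nat_lit 2) (.e (nat_lit 90160) (nat_lit 11) (.e (nat_lit 24604) (nat_lit 2) (.e (nat_lit 90158) (nat_lit 11) (.e (nat_lit 24609) (nat_lit 3) .nil)))))) (.g (nat_lit 4) .nil .nil))))) (.nd (nat_lit 5) (.nd (nat_lit 6) 
(.lf (nat_lit 220957) (.g (nat_lit 2925) (.e (nat_lit 98313) (nat_lit 9) (.e (nat_lit 336011) (nat_lit 2) (.e (nat_lit 90158) (nat_lit 11) (.e (nat_lit 24607) (nat_lit 3) (.e (nat_lit 98313) (nat_lit 9) (.e (nat_lit 336021) (nat_lit 3) .nil)))))) (.g (nat_lit 4) .nil .nil))) 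
(.lf (nat_lit 221021) (.g (nat_lit 1643) (.e (nat_lit 98313) (nat_lit 9) (.e (nat_lit 336012) (nat_lit 2) (.e (nat_lit 90159) (nat_lit 11) (.e (nat_lit 24580) (nat_lit 0) (.e (nat_lit 1764) (nat_lit 117) .nil))))) .nil))) (.nd (nat_lit 6) 
(.lf (nat_lit 220989) (.g (nat_lit 1783) (.e (nat_lit 98313) (nat_lit 9) (.e (nat_lit 336012) (nat_lit 2) (.e (nat_lit 90157) (nat_lit 11) (.e (nat_lit 24607) (nat_lit 3) (.e (nat_lit 106240) (nat_lit 9) .nil))))) .nil)) 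
(.lf (nat_lit 221053) (.g (nat_lit 2525) (.e (nat_lit 98313) (nat_lit 9) (.e (nat_lit 336021) (nat_lit 3) (.e (nat_lit 98313) (nat_lit 9) (.e (nat_lit 336004) (nat_lit 2) (.e (nat_lit 90158) (nat_lit 11) (.e (nat_lit 24609) (nat_lit 3) .nil)))))) (.g (nat_lit 5) .nil .nil)))))))) (.nd (nat_lit 2) (.nd (nat_lit 3) (.nd (nat_lit 4) (.nd (nat_lit 5) (.nd (nat_lit 6) 
(.lf (nat_lit 220931) (.g (nat_lit 2053) (.e (nat_lit 98313) (nat_lit 9) (.e (nat_lit 336004) (nat_lit 2) (.e (nat_lit 90158) (nat_lit 11) (.e (nat_lit 24608) (nat_lit 3) (.e (nat_lit 98315) (nat_lit 9) (.e (nat_lit 343808) (nat_lit 3) .nil)))))) (.g (nat_lit 4) .nil .nil))) 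
(.lf (nat_lit 220995) (.g (nat_lit 2522) (.e (nat_lit 98313) (nat_lit 9) (.e (nat_lit 336012) (nat_lit 2) (.e (nat_lit 90158) (nat_lit 11) (.e (nat_lit 24604) (nat_lit 2) (.e (nat_lit 90121) (nat_lit 9) .nil))))) .nil))) (.nd (nat_lit 6) 
(.lf (nat_lit 220963) (.g (nat_lit 641) (.e (nat_lit 98313) (nat_lit 9) (.e (nat_lit 336011) (nat_lit 2) (.e (nat_lit 90159) (nat_lit 11) .nil))) .nil)) 
(.lf (nat_lit 221027) (.g (nat_lit 2309) (.e (nat_lit 98313) (nat_lit 9) (.e (nat_lit 336012) (nat_lit 2) (.e (nat_lit 90160) (nat_lit 11) (.e (nat_lit 24588) (nat_lit 0) .nil)))) .nil)))) (.nd (nat_lit 5) (.nd (nat_lit 6) 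
(.lf (nat_lit 220947) (.g (nat_lit 1985) (.e (nat_lit 98313) (nat_lit 9) (.e (nat_lit 336004) (nat_lit 2) (.e (nat_lit 90160) (nat_lit 11) (.e (nat_lit 24608) (nat_lit 3) (.e (nat_lit 98317) (nat_lit 9) .nil))))) .nil)) 
(.lf (nat_lit 221011) (.g (nat_lit 2998) (.e (nat_lit 98313) (nat_lit 9) (.e (nat_lit 336012) (nat_lit 2) (.e (nat_lit 90158) (nat_lit 11) (.e (nat_lit 24608) (nat_lit 3) (.e (nat_lit 98307) (nat_lit 0) (.e (nat_lit 7936) (nat_lit 343) (.e (nat_lit 1250) (nat_lit 92) .nil))))))) (.g (nat_lit 4) .nil .nil)))) (.nd (nat_lit 6) 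
(.lf (nat_lit 220979) (.g (nat_lit 886) (.e (nat_lit 98313) (nat_lit 9) (.e (nat_lit 336012) (nat_lit 2) (.e (nat_lit 90129) (nat_lit 9) .nil))) .nil)) 
(.lf (nat_lit 221043) (.g (nat_lit 2279) (.e (nat_lit 98313) (nat_lit 9) (.e (nat_lit 336012) (nat_lit 2) (.e (nat_lit 90160) (nat_lit 11) (.e (nat_lit 24607) (nat_lit 3) (.e (nat_lit 98317) (nat_lit 9) (.e (nat_lit 336020) (nat_lit 3) .nil)))))) (.g (nat_lit 4) .nil .nil)))))) (.nd (nat_lit 4) (.nd (nat_lit 5) (.nd (nat_lit 6) 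
(.lf (nat_lit 220939) (.g (nat_lit 2161) (.e (nat_lit 98313) (nat_lit 9) (.e (nat_lit 336004) (nat_lit 2) (.e (nat_lit 90160) (nat_lit 11) (.e (nat_lit 24604) (nat_lit 2) (.e (nat_lit 90157) (nat_lit 11) .nil))))) .nil)) 
(.lf (nat_lit 221003) (.g (nat_lit 2627) (.e (nat_lit 98313) (nat_lit 9) (.e (nat_lit 336012) (nat_lit 2) (.e (nat_lit 90158) (nat_lit 11) (.e (nat_lit 24604) (nat_lit 2) (.e (nat_lit 90158) (nat_lit 11) (.e (nat_lit 24609) (nat_lit 3) .nil)))))) (.g (nat_lit 5) .nil .nil)))) (.nd (nat_lit 6) 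
(.lf (nat_lit 220971) (.g (nat_lit 745) (.e (nat_lit 98313) (nat_lit 9) (.e (nat_lit 336012) (nat_lit 2) (.e (nat_lit 90123) (nat_lit 9) .nil))) .nil)) 
(.lf (nat_lit 221035) (.g (nat_lit 3042) (.e (nat_lit 98313) (nat_lit 9) (.e (nat_lit 336012) (nat_lit 2) (.e (nat_lit 90160) (nat_lit 11) (.e (nat_lit 24604) (nat_lit 2) (.e (nat_lit 90133) (nat_lit 9) (.e (nat_lit 253) (nat_lit 21) (.e (nat_lit 336021) (nat_lit 3) .nil))))))) (.g (nat_lit 4) .nil .nil))))) (.nd (nat_lit 5) (.nd (nat_lit 6) 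
(.lf (nat_lit 220955) (.g (nat_lit 2367) (.e (nat_lit 98313) (nat_lit 9) (.e (nat_lit 336011) (nat_lit 2) (.e (nat_lit 90158) (nat_lit 11) (.e (nat_lit 24604) (nat_lit 2) (.e (nat_lit 90133) (nat_lit 9) .nil))))) .nil)) 
(.lf (nat_lit 221019) (.g (nat_lit 1627) (.e (nat_lit 98313) (nat_lit 9) (.e (nat_lit 336012) (nat_lit 2) (.e (nat_lit 90158) (nat_lit 11) (.e (nat_lit 24609) (nat_lit 3) (.e (nat_lit 98315) (nat_lit 9) .nil))))) .nil))) (.nd (nat_lit 6) 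
(.lf (nat_lit 220987) (.g (nat_lit 2077) (.e (nat_lit 98313) (nat_lit 9) (.e (nat_lit 336012) (nat_lit 2) (.e (nat_lit 90157) (nat_lit 11) (.e (nat_lit 24607) (nat_lit 3) (.e (nat_lit 98315) (nat_lit 9) (.e (nat_lit 343808) (nat_lit 3) .nil)))))) (.g (nat_lit 4) .nil .nil))) 
(.lf (nat_lit 221051) (.g (nat_lit 421) (.e (nat_lit 98313) (nat_lit 9) (.e (nat_lit 336021) (nat_lit 3) (.e (nat_lit 98313) (nat_lit 9) .nil))) .nil)))))) (.nd (nat_lit 3) (.nd (nat_lit 4) (.nd (nat_lit 5) (.nd (nat_lit 6) 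
(.lf (nat_lit 220935) (.g (nat_lit 1572) (.e (nat_lit 98313) (nat_lit 9) (.e (nat_lit 336004) (nat_lit 2) (.e (nat_lit 90158) (nat_lit 11) (.e (nat_lit 24609) (nat_lit 3) (.e (nat_lit 98315) (nat_lit 9) .nil))))) .nil)) 
(.lf (nat_lit 220999) (.g (nat_lit 2577) (.e (nat_lit 98313) (nat_lit 9) (.e (nat_lit 336012) (nat_lit 2) (.e (nat_lit 90158) (nat_lit 11) (.e (nat_lit 24604) (nat_lit 2) (.e (nat_lit 90126) (nat_lit 9) .nil))))) .nil))) (.nd (nat_lit 6) 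
(.lf (nat_lit 220967) (.g (nat_lit 2462) (.e (nat_lit 98313) (nat_lit 9) (.e (nat_lit 336011) (nat_lit 2) (.e (nat_lit 90160) (nat_lit 11) (.e (nat_lit 24607) (nat_lit 3) (.e (nat_lit 98315) (nat_lit 9) .nil))))) .nil)) 
(.lf (nat_lit 221031) (.g (nat_lit 2308) (.e (nat_lit 98313) (nat_lit 9) (.e (nat_lit 336012) (nat_lit 2) (.e (nat_lit 90160) (nat_lit 11) (.e (nat_lit 24601) (nat_lit 2) .nil)))) .nil)))) (.nd (nat_lit 5) (.nd (nat_lit 6) 
(.lf (nat_lit 220951) (.g (nat_lit 444) (.e (nat_lit 98313) (nat_lit 9) (.e (nat_lit 336011) (nat_lit 2) (.e (nat_lit 90157) (nat_lit 11) .nil))) .nil)) 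
(.lf (nat_lit 221015) (.g (nat_lit 1898) (.e (nat_lit 98313) (nat_lit 9) (.e (nat_lit 336012) (nat_lit 2) (.e (nat_lit 90158) (nat_lit 11) (.e (nat_lit 24608) (nat_lit 3) (.e (nat_lit 98316) (nat_lit 9) .nil))))) .nil))) (.nd (nat_lit 6) 
(.lf (nat_lit 220983) (.g (nat_lit 886) (.e (nat_lit 98313) (nat_lit 9) (.e (nat_lit 336012) (nat_lit 2) (.e (nat_lit 90156) (nat_lit 11) .nil))) .nil)) 
(.lf (nat_lit 221047) (.g (nat_lit 2577) (.e (nat_lit 98313) (nat_lit 9) (.e (nat_lit 336012) (nat_lit 2) (.e (nat_lit 90160) (nat_lit 11) (.e (nat_lit 24608) (nat_lit 3) (.e (nat_lit 98314) (nat_lit 9) .nil))))) .nil))))) (.nd (nat_lit 4) (.nd (nat_lit 5) (.nd (nat_lit 6) 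
(.lf (nat_lit 220943) (.g (nat_lit 2134) (.e (nat_lit 98313) (nat_lit 9) (.e (nat_lit 336004) (nat_lit 2) (.e (nat_lit 90160) (nat_lit 11) (.e (nat_lit 24607) (nat_lit 3) (.e (nat_lit 98317) (nat_lit 9) .nil))))) .nil)) 
(.lf (nat_lit 221007) (.g (nat_lit 2511) (.e (nat_lit 98313) (nat_lit 9) (.e (nat_lit 336012) (nat_lit 2) (.e (nat_lit 90158) (nat_lit 11) (.e (nat_lit 24607) (nat_lit 3) (.e (nat_lit 98315) (nat_lit 9) (.e (nat_lit 343808) (nat_lit 3) .nil)))))) (.g (nat_lit 4) .nil .nil)))) (.nd (nat_lit 6) 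
(.lf (nat_lit 220975) (.g (nat_lit 2051) (.e (nat_lit 98313) (nat_lit 9) (.e (nat_lit 336012) (nat_lit 2) (.e (nat_lit 90128) (nat_lit 9) (.e (nat_lit 232) (nat_lit 21) (.e (nat_lit 336013) (nat_lit 2) .nil))))) .nil)) 
(.lf (nat_lit 221039) (.g (nat_lit 2542) (.e (nat_lit 98313) (nat_lit 9) (.e (nat_lit 336012) (nat_lit 2) (.e (nat_lit 90160) (nat_lit 11) (.e (nat_lit 24604) (nat_lit 2) (.e (nat_lit 90160) (nat_lit 11) (.e (nat_lit 24606) (nat_lit 3) .nil)))))) (.g (nat_lit 4) .nil .nil))))) (.nd (nat_lit 5) (.nd (nat_lit 6) 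
(.lf (nat_lit 220959) (.g (nat_lit 2644) (.e (nat_lit 98313) (nat_lit 9) (.e (nat_lit 336011) (nat_lit 2) (.e (nat_lit 90158) (nat_lit 11) (.e (nat_lit 24607) (nat_lit 3) (.e (nat_lit 98317) (nat_lit 9) (.e (nat_lit 336025) (nat_lit 3) .nil)))))) (.g (nat_lit 4) .nil .nil))) 
(.lf (nat_lit 221023) (.g (nat_lit 1164) (.e (nat_lit 98313) (nat_lit 9) (.e (nat_lit 336012) (nat_lit 2) (.e (nat_lit 90159) (nat_lit 11) (.e (nat_lit 24607) (nat_lit 3) (.e (nat_lit 106240) (nat_lit 9) .nil))))) .nil))) (.nd (nat_lit 6) 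
(.lf (nat_lit 220991) (.g (nat_lit 397) (.e (nat_lit 98313) (nat_lit 9) (.e (nat_lit 336012) (nat_lit 2) (.e (nat_lit 90158) (nat_lit 11) .nil))) .nil)) 
(.lf (nat_lit 221055) (.g (nat_lit 2666) (.e (nat_lit 98313) (nat_lit 9) (.e (nat_lit 336021) (nat_lit 3) (.e (nat_lit 98313) (nat_lit 9) (.e (nat_lit 336011) (nat_lit 2) (.e (nat_lit 90160) (nat_lit 11) (.e (nat_lit 24607) (nat_lit 3) .nil)))))) (.g (nat_lit 4) .nil .nil))))))))))

noncomputable def tv2902 : DT := (.nd (nat_lit 0) (.nd (nat_lit 1) (.nd (nat_lit 2) (.nd (nat_lit 3) (.nd (nat_lit 4) (.nd (nat_lit 5) 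
(.lf (nat_lit 221056) (.g (nat_lit 2188) (.e (nat_lit 98313) (nat_lit 9) (.e (nat_lit 336021) (nat_lit 3) (.e (nat_lit 98313) (nat_lit 9) (.e (nat_lit 336012) (nat_lit 2) (.e (nat_lit 90122) (nat_lit 9) .nil))))) .nil)) 
(.lf (nat_lit 221088) (.g (nat_lit 2581) (.e (nat_lit 98313) (nat_lit 9) (.e (nat_lit 336021) (nat_lit 3) (.e (nat_lit 98317) (nat_lit 9) (.e (nat_lit 336004) (nat_lit 2) (.e (nat_lit 90158) (nat_lit 11) (.e (nat_lit 24609) (nat_lit 3) .nil)))))) (.g (nat_lit 5) .nil .nil)))) (.nd (nat_lit 5) 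
(.lf (nat_lit 221072) (.g (nat_lit 1759) (.e (nat_lit 98313) (nat_lit 9) (.e (nat_lit 336021) (nat_lit 3) (.e (nat_lit 98313) (nat_lit 9) (.e (nat_lit 336027) (nat_lit 3) (.e (nat_lit 98316) (nat_lit 9) .nil))))) .nil)) 
(.lf (nat_lit 221104) (.g (nat_lit 3724) (.e (nat_lit 98313) (nat_lit 9) (.e (nat_lit 336021) (nat_lit 3) (.e (nat_lit 98317) (nat_lit 9) (.e (nat_lit 336021) (nat_lit 3) (.e (nat_lit 98317) (nat_lit 9) (.e (nat_lit 336025) (nat_lit 3) .nil)))))) (.g (nat_lit 0) .nil .nil))))) (.nd (nat_lit 4) (.nd (nat_lit 5) 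
(.lf (nat_lit 221064) (.g (nat_lit 3138) (.e (nat_lit 98313) (nat_lit 9) (.e (nat_lit 336021) (nat_lit 3) (.e (nat_lit 98313) (nat_lit 9) (.e (nat_lit 336021) (nat_lit 3) (.e (nat_lit 98313) (nat_lit 9) (.e (nat_lit 336021) (nat_lit 3) .nil)))))) (.g (nat_lit 6) .nil .nil))) 
(.lf (nat_lit 221096) (.g (nat_lit 2077) (.e (nat_lit 98313) (nat_lit 9) (.e (nat_lit 336021) (nat_lit 3) (.e (nat_lit 98317) (nat_lit 9) (.e (nat_lit 336012) (nat_lit 2) (.e (nat_lit 90124) (nat_lit 9) .nil))))) .nil))) (.nd (nat_lit 5) 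
(.lf (nat_lit 221080) (.g (nat_lit 1737) (.e (nat_lit 98313) (nat_lit 9) (.e (nat_lit 336021) (nat_lit 3) (.e (nat_lit 98317) (nat_lit 9) (.e (nat_lit 335892) (nat_lit 0) .nil)))) .nil)) 
(.lf (nat_lit 221112) (.g (nat_lit 3021) (.e (nat_lit 98313) (nat_lit 9) (.e (nat_lit 336021) (nat_lit 3) (.e (nat_lit 98317) (nat_lit 9) (.e (nat_lit 336027) (nat_lit 3) (.e (nat_lit 98314) (nat_lit 9) (.e (nat_lit 336017) (nat_lit 3) .nil)))))) (.g (nat_lit 0) .nil .nil)))))) (.nd (nat_lit 3) (.nd (nat_lit 4) (.nd (nat_lit 5) 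
(.lf (nat_lit 221060) (.g (nat_lit 2763) (.e (nat_lit 98313) (nat_lit 9) (.e (nat_lit 336021) (nat_lit 3) (.e (nat_lit 98313) (nat_lit 9) (.e (nat_lit 336012) (nat_lit 2) (.e (nat_lit 90133) (nat_lit 9) (.e (nat_lit 253) (nat_lit 21) (.e (nat_lit 336021) (nat_lit 3) .nil))))))) (.g (nat_lit 4) .nil .nil))) 
(.lf (nat_lit 221092) (.g (nat_lit 1287) (.e (nat_lit 98313) (nat_lit 9) (.e (nat_lit 336021) (nat_lit 3) (.e (nat_lit 98317) (nat_lit 9) (.e (nat_lit 336011) (nat_lit 2) .nil)))) .nil))) (.nd (nat_lit 5) 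
(.lf (nat_lit 221076) (.g (nat_lit 1667) (.e (nat_lit 98313) (nat_lit 9) (.e (nat_lit 336021) (nat_lit 3) (.e (nat_lit 98313) (nat_lit 9) (.e (nat_lit 336027) (nat_lit 3) (.e (nat_lit 106240) (nat_lit 9) .nil))))) .nil)) 
(.lf (nat_lit 221108) (.g (nat_lit 2034) (.e (nat_lit 98313) (nat_lit 9) (.e (nat_lit 336021) (nat_lit 3) (.e (nat_lit 98317) (nat_lit 9) (.e (nat_lit 336026) (nat_lit 3) (.e (nat_lit 98317) (nat_lit 9) (.e (nat_lit 336026) (nat_lit 3) .nil)))))) (.g (nat_lit 5) .nil .nil))))) (.nd (nat_lit 4) (.nd (nat_lit 5) 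
(.lf (nat_lit 221068) (.g (nat_lit 1702) (.e (nat_lit 98313) (nat_lit 9) (.e (nat_lit 336021) (nat_lit 3) (.e (nat_lit 98313) (nat_lit 9) (.e (nat_lit 336027) (nat_lit 3) (.e (nat_lit 98313) (nat_lit 9) (.e (nat_lit 336025) (nat_lit 3) .nil)))))) (.g (nat_lit 4) .nil .nil))) 
(.lf (nat_lit 221100) (.g (nat_lit 2768) (.e (nat_lit 98313) (nat_lit 9) (.e (nat_lit 336021) (nat_lit 3) (.e (nat_lit 98317) (nat_lit 9) (.e (nat_lit 336012) (nat_lit 2) (.e (nat_lit 90158) (nat_lit 11) (.e (nat_lit 24609) (nat_lit 3) .nil)))))) (.g (nat_lit 5) .nil .nil)))) (.nd (nat_lit 5) 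
(.lf (nat_lit 221084) (.g (nat_lit 1698) (.e (nat_lit 98313) (nat_lit 9) (.e (nat_lit 336021) (nat_lit 3) (.e (nat_lit 98317) (nat_lit 9) (.e (nat_lit 336001) (nat_lit 2) .nil)))) .nil)) 
(.lf (nat_lit 221116) (.g (nat_lit 3295) (.e (nat_lit 98313) (nat_lit 9) (.e (nat_lit 336021) (nat_lit 3) (.e (nat_lit 98317) (nat_lit 9) (.e (nat_lit 336027) (nat_lit 3) (.e (nat_lit 98317) (nat_lit 9) (.e (nat_lit 336025) (nat_lit 3) .nil)))))) (.g (nat_lit 0) .nil .nil))))))) (.nd (nat_lit 2) (.nd (nat_lit 3) (.nd (nat_lit 4) (.nd (nat_lit 5) 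
(.lf (nat_lit 221058) (.g (nat_lit 2181) (.e (nat_lit 98313) (nat_lit 9) (.e (nat_lit 336021) (nat_lit 3) (.e (nat_lit 98313) (nat_lit 9) (.e (nat_lit 336012) (nat_lit 2) (.e (nat_lit 90124) (nat_lit 9) .nil))))) .nil)) 
(.lf (nat_lit 221090) (.g (nat_lit 3092) (.e (nat_lit 98313) (nat_lit 9) (.e (nat_lit 336021) (nat_lit 3) (.e (nat_lit 98317) (nat_lit 9) (.e (nat_lit 336009) (nat_lit 2) (.e (nat_lit 90160) (nat_lit 11) (.e (nat_lit 24607) (nat_lit 3) .nil)))))) (.g (nat_lit 5) .nil .nil)))) (.nd (nat_lit 5) 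
(.lf (nat_lit 221074) (.g (nat_lit 3278) (.e (nat_lit 98313) (nat_lit 9) (.e (nat_lit 336021) (nat_lit 3) (.e (nat_lit 98313) (nat_lit 9) (.e (nat_lit 336027) (nat_lit 3) (.e (nat_lit 98317) (nat_lit 9) (.e (nat_lit 336025) (nat_lit 3) .nil)))))) (.g (nat_lit 0) .nil .nil))) 
(.lf (nat_lit 221106) (.g (nat_lit 1199) (.e (nat_lit 98313) (nat_lit 9) (.e (nat_lit 336021) (nat_lit 3) (.e (nat_lit 98317) (nat_lit 9) (.e (nat_lit 336026) (nat_lit 3) .nil)))) .nil)))) (.nd (nat_lit 4) (.nd (nat_lit 5) 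
(.lf (nat_lit 221066) (.g (nat_lit 2633) (.e (nat_lit 98313) (nat_lit 9) (.e (nat_lit 336021) (nat_lit 3) (.e (nat_lit 98313) (nat_lit 9) (.e (nat_lit 336021) (nat_lit 3) (.e (nat_lit 98317) (nat_lit 9) (.e (nat_lit 336026) (nat_lit 3) .nil)))))) (.g (nat_lit 5) .nil .nil))) 
(.lf (nat_lit 221098) (.g (nat_lit 2077) (.e (nat_lit 98313) (nat_lit 9) (.e (nat_lit 336021) (nat_lit 3) (.e (nat_lit 98317) (nat_lit 9) (.e (nat_lit 336012) (nat_lit 2) (.e (nat_lit 90137) (nat_lit 9) .nil))))) .nil))) (.nd (nat_lit 5) 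
(.lf (nat_lit 221082) (.g (nat_lit 1534) (.e (nat_lit 98313) (nat_lit 9) (.e (nat_lit 336021) (nat_lit 3) (.e (nat_lit 98317) (nat_lit 9) (.e (nat_lit 335914) (nat_lit 0) .nil)))) .nil)) 
(.lf (nat_lit 221114) (.g (nat_lit 2164) (.e (nat_lit 98313) (nat_lit 9) (.e (nat_lit 336021) (nat_lit 3) (.e (nat_lit 98317) (nat_lit 9) (.e (nat_lit 336027) (nat_lit 3) (.e (nat_lit 98316) (nat_lit 9) (.e (nat_lit 336027) (nat_lit 3) .nil)))))) (.g (nat_lit 4) .nil .nil)))))) (.nd (nat_lit 3) (.nd (nat_lit 4) (.nd (nat_lit 5) 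
(.lf (nat_lit 221062) (.g (nat_lit 2663) (.e (nat_lit 98313) (nat_lit 9) (.e (nat_lit 336021) (nat_lit 3) (.e (nat_lit 98313) (nat_lit 9) (.e (nat_lit 336012) (nat_lit 2) (.e (nat_lit 90158) (nat_lit 11) (.e (nat_lit 24609) (nat_lit 3) .nil)))))) (.g (nat_lit 5) .nil .nil))) 
(.lf (nat_lit 221094) (.g (nat_lit 1882) (.e (nat_lit 98313) (nat_lit 9) (.e (nat_lit 336021) (nat_lit 3) (.e (nat_lit 98317) (nat_lit 9) (.e (nat_lit 336011) (nat_lit 2) (.e (nat_lit 90158) (nat_lit 11) .nil))))) .nil))) (.nd (nat_lit 5) 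
(.lf (nat_lit 221078) (.g (nat_lit 871) (.e (nat_lit 98313) (nat_lit 9) (.e (nat_lit 336021) (nat_lit 3) (.e (nat_lit 98316) (nat_lit 9) .nil))) .nil)) 
(.lf (nat_lit 221110) (.g (nat_lit 1802) (.e (nat_lit 98313) (nat_lit 9) (.e (nat_lit 336021) (nat_lit 3) (.e (nat_lit 98317) (nat_lit 9) (.e (nat_lit 336027) (nat_lit 3) (.e (nat_lit 98313) (nat_lit 9) (.e (nat_lit 336025) (nat_lit 3) .nil)))))) (.g (nat_lit 4) .nil .nil))))) (.nd (nat_lit 4) (.nd (nat_lit 5) 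
(.lf (nat_lit 221070) (.g (nat_lit 2728) (.e (nat_lit 98313) (nat_lit 9) (.e (nat_lit 336021) (nat_lit 3) (.e (nat_lit 98313) (nat_lit 9) (.e (nat_lit 336027) (nat_lit 3) (.e (nat_lit 98315) (nat_lit 9) (.e (nat_lit 336017) (nat_lit 3) .nil)))))) (.g (nat_lit 6) .nil .nil))) 
(.lf (nat_lit 221102) (.g (nat_lit 3487) (.e (nat_lit 98313) (nat_lit 9) (.e (nat_lit 336021) (nat_lit 3) (.e (nat_lit 98317) (nat_lit 9) (.e (nat_lit 336012) (nat_lit 2) (.e (nat_lit 90160) (nat_lit 11) (.e (nat_lit 24607) (nat_lit 3) .nil)))))) (.g (nat_lit 0) .nil .nil)))) (.nd (nat_lit 5) 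
(.lf (nat_lit 221086) (.g (nat_lit 1733) (.e (nat_lit 98313) (nat_lit 9) (.e (nat_lit 336021) (nat_lit 3) (.e (nat_lit 98317) (nat_lit 9) (.e (nat_lit 336003) (nat_lit 2) .nil)))) .nil)) 
(.lf (nat_lit 221118) (.g (nat_lit 871) (.e (nat_lit 98313) (nat_lit 9) (.e (nat_lit 336021) (nat_lit 3) (.e (nat_lit 98341) (nat_lit 20) .nil))) .nil))))))) (.nd (nat_lit 1) (.nd (nat_lit 2) (.nd (nat_lit 3) (.nd (nat_lit 4) (.nd (nat_lit 5) 
(.lf (nat_lit 221057) (.g (nat_lit 2034) (.e (nat_lit 98313) (nat_lit 9) (.e (nat_lit 336021) (nat_lit 3) (.e (nat_lit 98313) (nat_lit 9) (.e (nat_lit 336012) (nat_lit 2) (.e (nat_lit 90123) (nat_lit 9) .nil))))) .nil)) 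
(.lf (nat_lit 221089) (.g (nat_lit 1823) (.e (nat_lit 98313) (nat_lit 9) (.e (nat_lit 336021) (nat_lit 3) (.e (nat_lit 98317) (nat_lit 9) (.e (nat_lit 336004) (nat_lit 2) (.e (nat_lit 90160) (nat_lit 11) (.e (nat_lit 24606) (nat_lit 3) .nil)))))) (.g (nat_lit 4) .nil .nil)))) (.nd (nat_lit 5) 
(.lf (nat_lit 221073) (.g (nat_lit 2144) (.e (nat_lit 98313) (nat_lit 9) (.e (nat_lit 336021) (nat_lit 3) (.e (nat_lit 98313) (nat_lit 9) (.e (nat_lit 336027) (nat_lit 3) (.e (nat_lit 98316) (nat_lit 9) (.e (nat_lit 336027) (nat_lit 3) .nil)))))) (.g (nat_lit 4) .nil .nil))) 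
(.lf (nat_lit 221105) (.g (nat_lit 2725) (.e (nat_lit 98313) (nat_lit 9) (.e (nat_lit 336021) (nat_lit 3) (.e (nat_lit 98317) (nat_lit 9) (.e (nat_lit 336021) (nat_lit 3) (.e (nat_lit 98317) (nat_lit 9) (.e (nat_lit 336026) (nat_lit 3) .nil)))))) (.g (nat_lit 5) .nil .nil))))) (.nd (nat_lit 4) (.nd (nat_lit 5) 
(.lf (nat_lit 221065) (.g (nat_lit 3184) (.e (nat_lit 98313) (nat_lit 9) (.e (nat_lit 336021) (nat_lit 3) (.e (nat_lit 98313) (nat_lit 9) (.e (nat_lit 336021) (nat_lit 3) (.e (nat_lit 98313) (nat_lit 9) (.e (nat_lit 336027) (nat_lit 3) .nil)))))) (.g (nat_lit 6) .nil .nil))) 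
(.lf (nat_lit 221097) (.g (nat_lit 2077) (.e (nat_lit 98313) (nat_lit 9) (.e (nat_lit 336021) (nat_lit 3) (.e (nat_lit 98317) (nat_lit 9) (.e (nat_lit 336012) (nat_lit 2) (.e (nat_lit 90127) (nat_lit 9) .nil))))) .nil))) (.nd (nat_lit 5) 
(.lf (nat_lit 221081) (.g (nat_lit 1737) (.e (nat_lit 98313) (nat_lit 9) (.e (nat_lit 336021) (nat_lit 3) (.e (nat_lit 98317) (nat_lit 9) (.e (nat_lit 335897) (nat_lit 0) .nil)))) .nil)) 
(.lf (nat_lit 221113) (.g (nat_lit 1993) (.e (nat_lit 98313) (nat_lit 9) (.e (nat_lit 336021) (nat_lit 3) (.e (nat_lit 98317) (nat_lit 9) (.e (nat_lit 336027) (nat_lit 3) (.e (nat_lit 98315) (nat_lit 9) (.e (nat_lit 343808) (nat_lit 3) .nil)))))) (.g (nat_lit 4) .nil .nil)))))) (.nd (nat_lit 3) (.nd (nat_lit 4) (.nd (nat_lit 5) 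
(.lf (nat_lit 221061) (.g (nat_lit 3693) (.e (nat_lit 98313) (nat_lit 9) (.e (nat_lit 336021) (nat_lit 3) (.e (nat_lit 98313) (nat_lit 9) (.e (nat_lit 336012) (nat_lit 2) (.e (nat_lit 90158) (nat_lit 11) (.e (nat_lit 24607) (nat_lit 3) .nil)))))) (.g (nat_lit 6) .nil .nil))) 
(.lf (nat_lit 221093) (.g (nat_lit 3398) (.e (nat_lit 98313) (nat_lit 9) (.e (nat_lit 336021) (nat_lit 3) (.e (nat_lit 98317) (nat_lit 9) (.e (nat_lit 336011) (nat_lit 2) (.e (nat_lit 90157) (nat_lit 11) (.e (nat_lit 24607) (nat_lit 3) .nil)))))) (.g (nat_lit 6) .nil .nil)))) (.nd (nat_lit 5) 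
(.lf (nat_lit 221077) (.g (nat_lit 872) (.e (nat_lit 98313) (nat_lit 9) (.e (nat_lit 336021) (nat_lit 3) (.e (nat_lit 98314) (nat_lit 9) .nil))) .nil)) 
(.lf (nat_lit 221109) (.g (nat_lit 1159) (.e (nat_lit 98313) (nat_lit 9) (.e (nat_lit 336021) (nat_lit 3) (.e (nat_lit 98317) (nat_lit 9) (.e (nat_lit 336027) (nat_lit 3) .nil)))) .nil)))) (.nd (nat_lit 4) (.nd (nat_lit 5) 
(.lf (nat_lit 221069) (.g (nat_lit 3254) (.e (nat_lit 98313) (nat_lit 9) (.e (nat_lit 336021) (nat_lit 3) (.e (nat_lit 98313) (nat_lit 9) (.e (nat_lit 336027) (nat_lit 3) (.e (nat_lit 98313) (nat_lit 9) (.e (nat_lit 336027) (nat_lit 3) .nil)))))) (.g (nat_lit 6) .nil .nil))) 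
(.lf (nat_lit 221101) (.g (nat_lit 3263) (.e (nat_lit 98313) (nat_lit 9) (.e (nat_lit 336021) (nat_lit 3) (.e (nat_lit 98317) (nat_lit 9) (.e (nat_lit 336012) (nat_lit 2) (.e (nat_lit 90159) (nat_lit 11) (.e (nat_lit 24607) (nat_lit 3) .nil)))))) (.g (nat_lit 0) .nil .nil)))) (.nd (nat_lit 5) 
(.lf (nat_lit 221085) (.g (nat_lit 1881) (.e (nat_lit 98313) (nat_lit 9) (.e (nat_lit 336021) (nat_lit 3) (.e (nat_lit 98317) (nat_lit 9) (.e (nat_lit 336002) (nat_lit 2) (.e (nat_lit 90157) (nat_lit 11) .nil))))) .nil)) 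
(.lf (nat_lit 221117) (.g (nat_lit 2328) (.e (nat_lit 98313) (nat_lit 9) (.e (nat_lit 336021) (nat_lit 3) (.e (nat_lit 98317) (nat_lit 9) (.e (nat_lit 336027) (nat_lit 3) (.e (nat_lit 98317) (nat_lit 9) (.e (nat_lit 336026) (nat_lit 3) .nil)))))) (.g (nat_lit 5) .nil .nil))))))) (.nd (nat_lit 2) (.nd (nat_lit 3) (.nd (nat_lit 4) (.nd (nat_lit 5) 
(.lf (nat_lit 221059) (.g (nat_lit 2188) (.e (nat_lit 98313) (nat_lit 9) (.e (nat_lit 336021) (nat_lit 3) (.e (nat_lit 98313) (nat_lit 9) (.e (nat_lit 336012) (nat_lit 2) (.e (nat_lit 90125) (nat_lit 9) .nil))))) .nil)) 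
(.lf (nat_lit 221091) (.g (nat_lit 1175) (.e (nat_lit 98313) (nat_lit 9) (.e (nat_lit 336021) (nat_lit 3) (.e (nat_lit 98317) (nat_lit 9) (.e (nat_lit 336010) (nat_lit 2) .nil)))) .nil))) (.nd (nat_lit 5) 
(.lf (nat_lit 221075) (.g (nat_lit 2401) (.e (nat_lit 98313) (nat_lit 9) (.e (nat_lit 336021) (nat_lit 3) (.e (nat_lit 98313) (nat_lit 9) (.e (nat_lit 336027) (nat_lit 3) (.e (nat_lit 98317) (nat_lit 9) (.e (nat_lit 336026) (nat_lit 3) .nil)))))) (.g (nat_lit 5) .nil .nil))) 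
(.lf (nat_lit 221107) (.g (nat_lit 2969) (.e (nat_lit 98313) (nat_lit 9) (.e (nat_lit 336021) (nat_lit 3) (.e (nat_lit 98317) (nat_lit 9) (.e (nat_lit 336026) (nat_lit 3) (.e (nat_lit 98317) (nat_lit 9) (.e (nat_lit 336025) (nat_lit 3) .nil)))))) (.g (nat_lit 0) .nil .nil))))) (.nd (nat_lit 4) (.nd (nat_lit 5) 
(.lf (nat_lit 221067) (.g (nat_lit 1660) (.e (nat_lit 98313) (nat_lit 9) (.e (nat_lit 336021) (nat_lit 3) (.e (nat_lit 98313) (nat_lit 9) (.e (nat_lit 336025) (nat_lit 3) .nil)))) .nil)) 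
(.lf (nat_lit 221099) (.g (nat_lit 2077) (.e (nat_lit 98313) (nat_lit 9) (.e (nat_lit 336021) (nat_lit 3) (.e (nat_lit 98317) (nat_lit 9) (.e (nat_lit 336012) (nat_lit 2) (.e (nat_lit 90140) (nat_lit 9) .nil))))) .nil))) (.nd (nat_lit 5) 
(.lf (nat_lit 221083) (.g (nat_lit 1737) (.e (nat_lit 98313) (nat_lit 9) (.e (nat_lit 336021) (nat_lit 3) (.e (nat_lit 98317) (nat_lit 9) (.e (nat_lit 335926) (nat_lit 0) .nil)))) .nil)) 
(.lf (nat_lit 221115) (.g (nat_lit 2108) (.e (nat_lit 98313) (nat_lit 9) (.e (nat_lit 336021) (nat_lit 3) (.e (nat_lit 98317) (nat_lit 9) (.e (nat_lit 336027) (nat_lit 3) (.e (nat_lit 98317) (nat_lit 9) (.e (nat_lit 336020) (nat_lit 3) .nil)))))) (.g (nat_lit 4) .nil .nil)))))) (.nd (nat_lit 3) (.nd (nat_lit 4) (.nd (nat_lit 5) 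
(.lf (nat_lit 221063) (.g (nat_lit 3168) (.e (nat_lit 98313) (nat_lit 9) (.e (nat_lit 336021) (nat_lit 3) (.e (nat_lit 98313) (nat_lit 9) (.e (nat_lit 336012) (nat_lit 2) (.e (nat_lit 90160) (nat_lit 11) (.e (nat_lit 24608) (nat_lit 3) .nil)))))) (.g (nat_lit 5) .nil .nil))) 
(.lf (nat_lit 221095) (.g (nat_lit 1146) (.e (nat_lit 98313) (nat_lit 9) (.e (nat_lit 336021) (nat_lit 3) (.e (nat_lit 98317) (nat_lit 9) (.e (nat_lit 336012) (nat_lit 2) .nil)))) .nil))) (.nd (nat_lit 5) 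
(.lf (nat_lit 221079) (.g (nat_lit 382) (.e (nat_lit 98313) (nat_lit 9) (.e (nat_lit 336021) (nat_lit 3) (.e (nat_lit 98317) (nat_lit 9) .nil))) .nil)) 
(.lf (nat_lit 221111) (.g (nat_lit 3354) (.e (nat_lit 98313) (nat_lit 9) (.e (nat_lit 336021) (nat_lit 3) (.e (nat_lit 98317) (nat_lit 9) (.e (nat_lit 336027) (nat_lit 3) (.e (nat_lit 98313) (nat_lit 9) (.e (nat_lit 336027) (nat_lit 3) .nil)))))) (.g (nat_lit 0) .nil .nil))))) (.nd (nat_lit 4) (.nd (nat_lit 5) 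
(.lf (nat_lit 221071) (.g (nat_lit 2088) (.e (nat_lit 98313) (nat_lit 9) (.e (nat_lit 336021) (nat_lit 3) (.e (nat_lit 98313) (nat_lit 9) (.e (nat_lit 336027) (nat_lit 3) (.e (nat_lit 98315) (nat_lit 9) (.e (nat_lit 343808) (nat_lit 3) .nil)))))) (.g (nat_lit 4) .nil .nil))) 
(.lf (nat_lit 221103) (.g (nat_lit 1807) (.e (nat_lit 98313) (nat_lit 9) (.e (nat_lit 336021) (nat_lit 3) (.e (nat_lit 98317) (nat_lit 9) (.e (nat_lit 336021) (nat_lit 3) (.e (nat_lit 98315) (nat_lit 9) (.e (nat_lit 343808) (nat_lit 3) .nil)))))) (.g (nat_lit 4) .nil .nil)))) (.nd (nat_lit 5) 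
(.lf (nat_lit 221087) (.g (nat_lit 2378) (.e (nat_lit 98313) (nat_lit 9) (.e (nat_lit 336021) (nat_lit 3) (.e (nat_lit 98317) (nat_lit 9) (.e (nat_lit 336004) (nat_lit 2) (.e (nat_lit 90157) (nat_lit 11) (.e (nat_lit 24607) (nat_lit 3) .nil)))))) (.g (nat_lit 4) .nil .nil))) 
(.lf (nat_lit 221119) (.g (nat_lit 871) (.e (nat_lit 98313) (nat_lit 9) (.e (nat_lit 336021) (nat_lit 3) (.e (nat_lit 98342) (nat_lit 20) .nil))) .nil))))))))

noncomputable def tv2903 : DT := (.nd (nat_lit 0) (.nd (nat_lit 1) (.nd (nat_lit 2) (.nd (nat_lit 3) (.nd (nat_lit 4) (.nd (nat_lit 5) 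
(.lf (nat_lit 221120) (.g (nat_lit 1619) (.e (nat_lit 98313) (nat_lit 9) (.e (nat_lit 336025) (nat_lit 3) (.e (nat_lit 98313) (nat_lit 9) (.e (nat_lit 336027) (nat_lit 3) (.e (nat_lit 98317) (nat_lit 9) (.e (nat_lit 336027) (nat_lit 3) .nil)))))) (.g (nat_lit 4) .nil .nil))) 
(.lf (nat_lit 221152) (.g (nat_lit 3278) (.e (nat_lit 98313) (nat_lit 9) (.e (nat_lit 336027) (nat_lit 3) (.e (nat_lit 98313) (nat_lit 9) (.e (nat_lit 336027) (nat_lit 3) (.e (nat_lit 98317) (nat_lit 9) (.e (nat_lit 336025) (nat_lit 3) .nil)))))) (.g (nat_lit 0) .nil .nil)))) (.nd (nat_lit 5) 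
(.lf (nat_lit 221136) (.g (nat_lit 3142) (.e (nat_lit 98313) (nat_lit 9) (.e (nat_lit 336027) (nat_lit 3) (.e (nat_lit 98313) (nat_lit 9) (.e (nat_lit 336011) (nat_lit 2) (.e (nat_lit 90158) (nat_lit 11) (.e (nat_lit 24607) (nat_lit 3) .nil)))))) (.g (nat_lit 5) .nil .nil))) 
(.lf (nat_lit 221168) (.g (nat_lit 2529) (.e (nat_lit 98313) (nat_lit 9) (.e (nat_lit 336027) (nat_lit 3) (.e (nat_lit 98317) (nat_lit 9) (.e (nat_lit 336004) (nat_lit 2) (.e (nat_lit 90158) (nat_lit 11) (.e (nat_lit 24609) (nat_lit 3) .nil)))))) (.g (nat_lit 5) .nil .nil))))) (.nd (nat_lit 4) (.nd (nat_lit 5) 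
(.lf (nat_lit 221128) (.g (nat_lit 2476) (.e (nat_lit 98313) (nat_lit 9) (.e (nat_lit 336027) (nat_lit 3) (.e (nat_lit 98312) (nat_lit 9) (.e (nat_lit 336012) (nat_lit 2) (.e (nat_lit 90158) (nat_lit 11) (.e (nat_lit 24609) (nat_lit 3) .nil)))))) (.g (nat_lit 5) .nil .nil))) 
(.lf (nat_lit 221160) (.g (nat_lit 2170) (.e (nat_lit 98313) (nat_lit 9) (.e (nat_lit 336027) (nat_lit 3) (.e (nat_lit 98316) (nat_lit 9) (.e (nat_lit 336011) (nat_lit 2) (.e (nat_lit 90133) (nat_lit 9) (.e (nat_lit 253) (nat_lit 21) (.e (nat_lit 336021) (nat_lit 3) .nil))))))) (.g (nat_lit 4) .nil .nil)))) (.nd (nat_lit 5) 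
(.lf (nat_lit 221144) (.g (nat_lit 2689) (.e (nat_lit 98313) (nat_lit 9) (.e (nat_lit 336027) (nat_lit 3) (.e (nat_lit 98313) (nat_lit 9) (.e (nat_lit 336012) (nat_lit 2) (.e (nat_lit 90158) (nat_lit 11) (.e (nat_lit 24609) (nat_lit 3) .nil)))))) (.g (nat_lit 5) .nil .nil))) 
(.lf (nat_lit 221176) (.g (nat_lit 3314) (.e (nat_lit 98313) (nat_lit 9) (.e (nat_lit 336027) (nat_lit 3) (.e (nat_lit 98317) (nat_lit 9) (.e (nat_lit 336012) (nat_lit 2) (.e (nat_lit 90160) (nat_lit 11) (.e (nat_lit 24607) (nat_lit 3) .nil)))))) (.g (nat_lit 0) .nil .nil)))))) (.nd (nat_lit 3) (.nd (nat_lit 4) (.nd (nat_lit 5) 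
(.lf (nat_lit 221124) (.g (nat_lit 2671) (.e (nat_lit 98313) (nat_lit 9) (.e (nat_lit 336027) (nat_lit 3) (.e (nat_lit 98312) (nat_lit 9) (.e (nat_lit 336004) (nat_lit 2) (.e (nat_lit 90158) (nat_lit 11) (.e (nat_lit 24609) (nat_lit 3) .nil)))))) (.g (nat_lit 5) .nil .nil))) 
(.lf (nat_lit 221156) (.g (nat_lit 459) (.e (nat_lit 98313) (nat_lit 9) (.e (nat_lit 336027) (nat_lit 3) (.e (nat_lit 98315) (nat_lit 9) .nil))) .nil))) (.nd (nat_lit 5) 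
(.lf (nat_lit 221140) (.g (nat_lit 2265) (.e (nat_lit 98313) (nat_lit 9) (.e (nat_lit 336027) (nat_lit 3) (.e (nat_lit 98313) (nat_lit 9) (.e (nat_lit 336012) (nat_lit 2) (.e (nat_lit 90124) (nat_lit 9) .nil))))) .nil)) 
(.lf (nat_lit 221172) (.g (nat_lit 893) (.e (nat_lit 98313) (nat_lit 9) (.e (nat_lit 336027) (nat_lit 3) (.e (nat_lit 98317) (nat_lit 9) (.e (nat_lit 336012) (nat_lit 2) .nil)))) .nil)))) (.nd (nat_lit 4) (.nd (nat_lit 5) 
(.lf (nat_lit 221132) (.g (nat_lit 418) (.e (nat_lit 98313) (nat_lit 9) (.e (nat_lit 336027) (nat_lit 3) (.e (nat_lit 98313) (nat_lit 9) .nil))) .nil)) 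
(.lf (nat_lit 221164) (.g (nat_lit 407) (.e (nat_lit 98313) (nat_lit 9) (.e (nat_lit 336027) (nat_lit 3) (.e (nat_lit 98317) (nat_lit 9) .nil))) .nil))) (.nd (nat_lit 5) 
(.lf (nat_lit 221148) (.g (nat_lit 2098) (.e (nat_lit 98313) (nat_lit 9) (.e (nat_lit 336027) (nat_lit 3) (.e (nat_lit 98313) (nat_lit 9) (.e (nat_lit 336027) (nat_lit 3) (.e (nat_lit 98315) (nat_lit 9) (.e (nat_lit 343808) (nat_lit 3) .nil)))))) (.g (nat_lit 4) .nil .nil))) 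
(.lf (nat_lit 221180) (.g (nat_lit 958) (.e (nat_lit 98313) (nat_lit 9) (.e (nat_lit 336027) (nat_lit 3) (.e (nat_lit 98317) (nat_lit 9) (.e (nat_lit 336026) (nat_lit 3) .nil)))) .nil)))))) (.nd (nat_lit 2) (.nd (nat_lit 3) (.nd (nat_lit 4) (.nd (nat_lit 5) 
(.lf (nat_lit 221122) (.g (nat_lit 1716) (.e (nat_lit 98313) (nat_lit 9) (.e (nat_lit 336027) (nat_lit 3) (.e (nat_lit 98312) (nat_lit 9) (.e (nat_lit 336004) (nat_lit 2) (.e (nat_lit 90157) (nat_lit 11) (.e (nat_lit 24607) (nat_lit 3) .nil)))))) (.g (nat_lit 4) .nil .nil))) 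
(.lf (nat_lit 221154) (.g (nat_lit 870) (.e (nat_lit 98313) (nat_lit 9) (.e (nat_lit 336027) (nat_lit 3) (.e (nat_lit 98314) (nat_lit 9) .nil))) .nil))) (.nd (nat_lit 5) 
(.lf (nat_lit 221138) (.g (nat_lit 2267) (.e (nat_lit 98313) (nat_lit 9) (.e (nat_lit 336027) (nat_lit 3) (.e (nat_lit 98313) (nat_lit 9) (.e (nat_lit 336012) (nat_lit 2) (.e (nat_lit 90122) (nat_lit 9) .nil))))) .nil)) 
(.lf (nat_lit 221170) (.g (nat_lit 901) (.e (nat_lit 98313) (nat_lit 9) (.e (nat_lit 336027) (nat_lit 3) (.e (nat_lit 98317) (nat_lit 9) (.e (nat_lit 336011) (nat_lit 2) .nil)))) .nil)))) (.nd (nat_lit 4) (.nd (nat_lit 5) 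
(.lf (nat_lit 221130) (.g (nat_lit 1843) (.e (nat_lit 98313) (nat_lit 9) (.e (nat_lit 336027) (nat_lit 3) (.e (nat_lit 98312) (nat_lit 9) (.e (nat_lit 336021) (nat_lit 3) (.e (nat_lit 98315) (nat_lit 9) (.e (nat_lit 343808) (nat_lit 3) .nil)))))) (.g (nat_lit 4) .nil .nil))) 
(.lf (nat_lit 221162) (.g (nat_lit 2092) (.e (nat_lit 98313) (nat_lit 9) (.e (nat_lit 336027) (nat_lit 3) (.e (nat_lit 98316) (nat_lit 9) (.e (nat_lit 336021) (nat_lit 3) (.e (nat_lit 98317) (nat_lit 9) (.e (nat_lit 336026) (nat_lit 3) .nil)))))) (.g (nat_lit 4) .nil .nil)))) (.nd (nat_lit 5) 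
(.lf (nat_lit 221146) (.g (nat_lit 1421) (.e (nat_lit 98313) (nat_lit 9) (.e (nat_lit 336027) (nat_lit 3) (.e (nat_lit 98313) (nat_lit 9) (.e (nat_lit 336027) (nat_lit 3) (.e (nat_lit 98312) (nat_lit 9) .nil))))) .nil)) 
(.lf (nat_lit 221178) (.g (nat_lit 3563) (.e (nat_lit 98313) (nat_lit 9) (.e (nat_lit 336027) (nat_lit 3) (.e (nat_lit 98317) (nat_lit 9) (.e (nat_lit 336021) (nat_lit 3) (.e (nat_lit 98317) (nat_lit 9) (.e (nat_lit 336025) (nat_lit 3) .nil)))))) (.g (nat_lit 0) .nil .nil)))))) (.nd (nat_lit 3) (.nd (nat_lit 4) (.nd (nat_lit 5) 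
(.lf (nat_lit 221126) (.g (nat_lit 3009) (.e (nat_lit 98313) (nat_lit 9) (.e (nat_lit 336027) (nat_lit 3) (.e (nat_lit 98312) (nat_lit 9) (.e (nat_lit 336012) (nat_lit 2) (.e (nat_lit 90157) (nat_lit 11) (.e (nat_lit 24607) (nat_lit 3) .nil)))))) (.g (nat_lit 0) .nil .nil))) 
(.lf (nat_lit 221158) (.g (nat_lit 2930) (.e (nat_lit 98313) (nat_lit 9) (.e (nat_lit 336027) (nat_lit 3) (.e (nat_lit 98316) (nat_lit 9) (.e (nat_lit 336004) (nat_lit 2) (.e (nat_lit 90158) (nat_lit 11) (.e (nat_lit 24607) (nat_lit 3) .nil)))))) (.g (nat_lit 5) .nil .nil)))) (.nd (nat_lit 5) 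
(.lf (nat_lit 221142) (.g (nat_lit 2322) (.e (nat_lit 98313) (nat_lit 9) (.e (nat_lit 336027) (nat_lit 3) (.e (nat_lit 98313) (nat_lit 9) (.e (nat_lit 336012) (nat_lit 2) (.e (nat_lit 90133) (nat_lit 9) (.e (nat_lit 253) (nat_lit 21) (.e (nat_lit 336021) (nat_lit 3) .nil))))))) (.g (nat_lit 4) .nil .nil))) 
(.lf (nat_lit 221174) (.g (nat_lit 2714) (.e (nat_lit 98313) (nat_lit 9) (.e (nat_lit 336027) (nat_lit 3) (.e (nat_lit 98317) (nat_lit 9) (.e (nat_lit 336012) (nat_lit 2) (.e (nat_lit 90158) (nat_lit 11) (.e (nat_lit 24609) (nat_lit 3) .nil)))))) (.g (nat_lit 5) .nil .nil))))) (.nd (nat_lit 4) (.nd (nat_lit 5) 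
(.lf (nat_lit 221134) (.g (nat_lit 3431) (.e (nat_lit 98313) (nat_lit 9) (.e (nat_lit 336027) (nat_lit 3) (.e (nat_lit 98313) (nat_lit 9) (.e (nat_lit 336004) (nat_lit 2) (.e (nat_lit 90158) (nat_lit 11) (.e (nat_lit 24607) (nat_lit 3) .nil)))))) (.g (nat_lit 6) .nil .nil))) 
(.lf (nat_lit 221166) (.g (nat_lit 2020) (.e (nat_lit 98313) (nat_lit 9) (.e (nat_lit 336027) (nat_lit 3) (.e (nat_lit 98317) (nat_lit 9) (.e (nat_lit 336002) (nat_lit 2) (.e (nat_lit 90158) (nat_lit 11) (.e (nat_lit 24609) (nat_lit 3) .nil)))))) (.g (nat_lit 4) .nil .nil)))) (.nd (nat_lit 5) 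
(.lf (nat_lit 221150) (.g (nat_lit 2112) (.e (nat_lit 98313) (nat_lit 9) (.e (nat_lit 336027) (nat_lit 3) (.e (nat_lit 98313) (nat_lit 9) (.e (nat_lit 336027) (nat_lit 3) (.e (nat_lit 98316) (nat_lit 9) (.e (nat_lit 336027) (nat_lit 3) .nil)))))) (.g (nat_lit 4) .nil .nil))) 
(.lf (nat_lit 221182) (.g (nat_lit 3134) (.e (nat_lit 98313) (nat_lit 9) (.e (nat_lit 336027) (nat_lit 3) (.e (nat_lit 98317) (nat_lit 9) (.e (nat_lit 336027) (nat_lit 3) (.e (nat_lit 98313) (nat_lit 9) (.e (nat_lit 336021) (nat_lit 3) .nil)))))) (.g (nat_lit 0) .nil .nil)))))))) (.nd (nat_lit 1) (.nd (nat_lit 2) (.nd (nat_lit 3) (.nd (nat_lit 4) (.nd (nat_lit 5) 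
(.lf (nat_lit 221121) (.g (nat_lit 314) (.e (nat_lit 98313) (nat_lit 9) (.e (nat_lit 336027) (nat_lit 3) (.e (nat_lit 98312) (nat_lit 9) .nil))) .nil)) 
(.lf (nat_lit 221153) (.g (nat_lit 2404) (.e (nat_lit 98313) (nat_lit 9) (.e (nat_lit 336027) (nat_lit 3) (.e (nat_lit 98313) (nat_lit 9) (.e (nat_lit 336027) (nat_lit 3) (.e (nat_lit 98317) (nat_lit 9) (.e (nat_lit 336026) (nat_lit 3) .nil)))))) (.g (nat_lit 5) .nil .nil)))) (.nd (nat_lit 5) 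
(.lf (nat_lit 221137) (.g (nat_lit 2458) (.e (nat_lit 98313) (nat_lit 9) (.e (nat_lit 336027) (nat_lit 3) (.e (nat_lit 98313) (nat_lit 9) (.e (nat_lit 336011) (nat_lit 2) (.e (nat_lit 90158) (nat_lit 11) (.e (nat_lit 24608) (nat_lit 3) .nil)))))) (.g (nat_lit 4) .nil .nil))) 
(.lf (nat_lit 221169) (.g (nat_lit 1645) (.e (nat_lit 98313) (nat_lit 9) (.e (nat_lit 336027) (nat_lit 3) (.e (nat_lit 98317) (nat_lit 9) (.e (nat_lit 336004) (nat_lit 2) (.e (nat_lit 90160) (nat_lit 11) (.e (nat_lit 24606) (nat_lit 3) .nil)))))) (.g (nat_lit 4) .nil .nil))))) (.nd (nat_lit 4) (.nd (nat_lit 5) 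
(.lf (nat_lit 221129) (.g (nat_lit 3375) (.e (nat_lit 98313) (nat_lit 9) (.e (nat_lit 336027) (nat_lit 3) (.e (nat_lit 98312) (nat_lit 9) (.e (nat_lit 336012) (nat_lit 2) (.e (nat_lit 90160) (nat_lit 11) (.e (nat_lit 24607) (nat_lit 3) .nil)))))) (.g (nat_lit 0) .nil .nil))) 
(.lf (nat_lit 221161) (.g (nat_lit 3104) (.e (nat_lit 98313) (nat_lit 9) (.e (nat_lit 336027) (nat_lit 3) (.e (nat_lit 98316) (nat_lit 9) (.e (nat_lit 336021) (nat_lit 3) (.e (nat_lit 98317) (nat_lit 9) (.e (nat_lit 336025) (nat_lit 3) .nil)))))) (.g (nat_lit 5) .nil .nil)))) (.nd (nat_lit 5) 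
(.lf (nat_lit 221145) (.g (nat_lit 3138) (.e (nat_lit 98313) (nat_lit 9) (.e (nat_lit 336027) (nat_lit 3) (.e (nat_lit 98313) (nat_lit 9) (.e (nat_lit 336012) (nat_lit 2) (.e (nat_lit 90160) (nat_lit 11) (.e (nat_lit 24608) (nat_lit 3) .nil)))))) (.g (nat_lit 5) .nil .nil))) 
(.lf (nat_lit 221177) (.g (nat_lit 1729) (.e (nat_lit 98313) (nat_lit 9) (.e (nat_lit 336027) (nat_lit 3) (.e (nat_lit 98317) (nat_lit 9) (.e (nat_lit 336021) (nat_lit 3) (.e (nat_lit 98315) (nat_lit 9) (.e (nat_lit 343808) (nat_lit 3) .nil)))))) (.g (nat_lit 4) .nil .nil)))))) (.nd (nat_lit 3) (.nd (nat_lit 4) (.nd (nat_lit 5) 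
(.lf (nat_lit 221125) (.g (nat_lit 1661) (.e (nat_lit 98313) (nat_lit 9) (.e (nat_lit 336027) (nat_lit 3) (.e (nat_lit 98312) (nat_lit 9) (.e (nat_lit 336012) (nat_lit 2) (.e (nat_lit 90128) (nat_lit 9) .nil))))) .nil)) 
(.lf (nat_lit 221157) (.g (nat_lit 569) (.e (nat_lit 98313) (nat_lit 9) (.e (nat_lit 336027) (nat_lit 3) (.e (nat_lit 98316) (nat_lit 9) .nil))) .nil))) (.nd (nat_lit 5) 
(.lf (nat_lit 221141) (.g (nat_lit 2267) (.e (nat_lit 98313) (nat_lit 9) (.e (nat_lit 336027) (nat_lit 3) (.e (nat_lit 98313) (nat_lit 9) (.e (nat_lit 336012) (nat_lit 2) (.e (nat_lit 90125) (nat_lit 9) .nil))))) .nil)) 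
(.lf (nat_lit 221173) (.g (nat_lit 3125) (.e (nat_lit 98313) (nat_lit 9) (.e (nat_lit 336027) (nat_lit 3) (.e (nat_lit 98317) (nat_lit 9) (.e (nat_lit 336012) (nat_lit 2) (.e (nat_lit 90157) (nat_lit 11) (.e (nat_lit 24607) (nat_lit 3) .nil)))))) (.g (nat_lit 6) .nil .nil))))) (.nd (nat_lit 4) (.nd (nat_lit 5) 
(.lf (nat_lit 221133) (.g (nat_lit 2509) (.e (nat_lit 98313) (nat_lit 9) (.e (nat_lit 336027) (nat_lit 3) (.e (nat_lit 98313) (nat_lit 9) (.e (nat_lit 336002) (nat_lit 2) (.e (nat_lit 90158) (nat_lit 11) (.e (nat_lit 24607) (nat_lit 3) .nil)))))) (.g (nat_lit 5) .nil .nil))) 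
(.lf (nat_lit 221165) (.g (nat_lit 1697) (.e (nat_lit 98313) (nat_lit 9) (.e (nat_lit 336027) (nat_lit 3) (.e (nat_lit 98317) (nat_lit 9) (.e (nat_lit 336002) (nat_lit 2) (.e (nat_lit 90157) (nat_lit 11) .nil))))) .nil))) (.nd (nat_lit 5) 
(.lf (nat_lit 221149) (.g (nat_lit 1806) (.e (nat_lit 98313) (nat_lit 9) (.e (nat_lit 336027) (nat_lit 3) (.e (nat_lit 98313) (nat_lit 9) (.e (nat_lit 336027) (nat_lit 3) (.e (nat_lit 98316) (nat_lit 9) .nil))))) .nil)) 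
(.lf (nat_lit 221181) (.g (nat_lit 1969) (.e (nat_lit 98313) (nat_lit 9) (.e (nat_lit 336027) (nat_lit 3) (.e (nat_lit 98317) (nat_lit 9) (.e (nat_lit 336026) (nat_lit 3) (.e (nat_lit 98317) (nat_lit 9) (.e (nat_lit 336026) (nat_lit 3) .nil)))))) (.g (nat_lit 5) .nil .nil))))))) (.nd (nat_lit 2) (.nd (nat_lit 3) (.nd (nat_lit 4) (.nd (nat_lit 5) 
(.lf (nat_lit 221123) (.g (nat_lit 3507) (.e (nat_lit 98313) (nat_lit 9) (.e (nat_lit 336027) (nat_lit 3) (.e (nat_lit 98312) (nat_lit 9) (.e (nat_lit 336004) (nat_lit 2) (.e (nat_lit 90158) (nat_lit 11) (.e (nat_lit 24607) (nat_lit 3) .nil)))))) (.g (nat_lit 0) .nil .nil))) 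
(.lf (nat_lit 221155) (.g (nat_lit 1065) (.e (nat_lit 98313) (nat_lit 9) (.e (nat_lit 336027) (nat_lit 3) (.e (nat_lit 98314) (nat_lit 9) (.e (nat_lit 343808) (nat_lit 3) .nil)))) .nil))) (.nd (nat_lit 5) 
(.lf (nat_lit 221139) (.g (nat_lit 2132) (.e (nat_lit 98313) (nat_lit 9) (.e (nat_lit 336027) (nat_lit 3) (.e (nat_lit 98313) (nat_lit 9) (.e (nat_lit 336012) (nat_lit 2) (.e (nat_lit 90123) (nat_lit 9) .nil))))) .nil)) 
(.lf (nat_lit 221171) (.g (nat_lit 3057) (.e (nat_lit 98313) (nat_lit 9) (.e (nat_lit 336027) (nat_lit 3) (.e (nat_lit 98317) (nat_lit 9) (.e (nat_lit 336011) (nat_lit 2) (.e (nat_lit 90157) (nat_lit 11) (.e (nat_lit 24607) (nat_lit 3) .nil)))))) (.g (nat_lit 6) .nil .nil))))) (.nd (nat_lit 4) (.nd (nat_lit 5) 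
(.lf (nat_lit 221131) (.g (nat_lit 1704) (.e (nat_lit 98313) (nat_lit 9) (.e (nat_lit 336027) (nat_lit 3) (.e (nat_lit 98312) (nat_lit 9) (.e (nat_lit 336027) (nat_lit 3) (.e (nat_lit 98315) (nat_lit 9) (.e (nat_lit 343808) (nat_lit 3) .nil)))))) (.g (nat_lit 4) .nil .nil))) 
(.lf (nat_lit 221163) (.g (nat_lit 2727) (.e (nat_lit 98313) (nat_lit 9) (.e (nat_lit 336027) (nat_lit 3) (.e (nat_lit 98316) (nat_lit 9) (.e (nat_lit 336021) (nat_lit 3) (.e (nat_lit 98317) (nat_lit 9) (.e (nat_lit 336027) (nat_lit 3) .nil)))))) (.g (nat_lit 5) .nil .nil)))) (.nd (nat_lit 5) 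
(.lf (nat_lit 221147) (.g (nat_lit 3348) (.e (nat_lit 98313) (nat_lit 9) (.e (nat_lit 336027) (nat_lit 3) (.e (nat_lit 98313) (nat_lit 9) (.e (nat_lit 336027) (nat_lit 3) (.e (nat_lit 98313) (nat_lit 9) (.e (nat_lit 336027) (nat_lit 3) .nil)))))) (.g (nat_lit 6) .nil .nil))) 
(.lf (nat_lit 221179) (.g (nat_lit 2681) (.e (nat_lit 98313) (nat_lit 9) (.e (nat_lit 336027) (nat_lit 3) (.e (nat_lit 98317) (nat_lit 9) (.e (nat_lit 336021) (nat_lit 3) (.e (nat_lit 98317) (nat_lit 9) (.e (nat_lit 336026) (nat_lit 3) .nil)))))) (.g (nat_lit 5) .nil .nil)))))) (.nd (nat_lit 3) (.nd (nat_lit 4) (.nd (nat_lit 5) 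
(.lf (nat_lit 221127) (.g (nat_lit 3617) (.e (nat_lit 98313) (nat_lit 9) (.e (nat_lit 336027) (nat_lit 3) (.e (nat_lit 98312) (nat_lit 9) (.e (nat_lit 336012) (nat_lit 2) (.e (nat_lit 90158) (nat_lit 11) (.e (nat_lit 24607) (nat_lit 3) .nil)))))) (.g (nat_lit 6) .nil .nil))) 
(.lf (nat_lit 221159) (.g (nat_lit 2786) (.e (nat_lit 98313) (nat_lit 9) (.e (nat_lit 336027) (nat_lit 3) (.e (nat_lit 98316) (nat_lit 9) (.e (nat_lit 336004) (nat_lit 2) (.e (nat_lit 90158) (nat_lit 11) (.e (nat_lit 24608) (nat_lit 3) .nil)))))) (.g (nat_lit 5) .nil .nil)))) (.nd (nat_lit 5) 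
(.lf (nat_lit 221143) (.g (nat_lit 3661) (.e (nat_lit 98313) (nat_lit 9) (.e (nat_lit 336027) (nat_lit 3) (.e (nat_lit 98313) (nat_lit 9) (.e (nat_lit 336012) (nat_lit 2) (.e (nat_lit 90158) (nat_lit 11) (.e (nat_lit 24607) (nat_lit 3) .nil)))))) (.g (nat_lit 6) .nil .nil))) 
(.lf (nat_lit 221175) (.g (nat_lit 3064) (.e (nat_lit 98313) (nat_lit 9) (.e (nat_lit 336027) (nat_lit 3) (.e (nat_lit 98317) (nat_lit 9) (.e (nat_lit 336012) (nat_lit 2) (.e (nat_lit 90159) (nat_lit 11) (.e (nat_lit 24607) (nat_lit 3) .nil)))))) (.g (nat_lit 0) .nil .nil))))) (.nd (nat_lit 4) (.nd (nat_lit 5) 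
(.lf (nat_lit 221135) (.g (nat_lit 2154) (.e (nat_lit 98313) (nat_lit 9) (.e (nat_lit 336027) (nat_lit 3) (.e (nat_lit 98313) (nat_lit 9) (.e (nat_lit 336011) (nat_lit 2) (.e (nat_lit 90133) (nat_lit 9) .nil))))) .nil)) 
(.lf (nat_lit 221167) (.g (nat_lit 2178) (.e (nat_lit 98313) (nat_lit 9) (.e (nat_lit 336027) (nat_lit 3) (.e (nat_lit 98317) (nat_lit 9) (.e (nat_lit 336004) (nat_lit 2) (.e (nat_lit 90157) (nat_lit 11) (.e (nat_lit 24607) (nat_lit 3) .nil)))))) (.g (nat_lit 4) .nil .nil)))) (.nd (nat_lit 5) 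
(.lf (nat_lit 221151) (.g (nat_lit 2123) (.e (nat_lit 98313) (nat_lit 9) (.e (nat_lit 336027) (nat_lit 3) (.e (nat_lit 98313) (nat_lit 9) (.e (nat_lit 336027) (nat_lit 3) (.e (nat_lit 98317) (nat_lit 9) (.e (nat_lit 336020) (nat_lit 3) .nil)))))) (.g (nat_lit 4) .nil .nil))) 
(.lf (nat_lit 221183) (.g (nat_lit 1911) (.e (nat_lit 98313) (nat_lit 9) (.e (nat_lit 336027) (nat_lit 3) (.e (nat_lit 98317) (nat_lit 9) (.e (nat_lit 336027) (nat_lit 3) (.e (nat_lit 98315) (nat_lit 9) (.e (nat_lit 343808) (nat_lit 3) .nil)))))) (.g (nat_lit 4) .nil .nil)))))))))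

noncomputable def tv2904 : DT := (.nd (nat_lit 0) (.nd (nat_lit 1) (.nd (nat_lit 2) (.nd (nat_lit 3) (.nd (nat_lit 4) (.nd (nat_lit 5) 
(.lf (nat_lit 221184) (.g (nat_lit 1698) (.e (nat_lit 98313) (nat_lit 9) (.e (nat_lit 336027) (nat_lit 3) (.e (nat_lit 98317) (nat_lit 9) (.e (nat_lit 336027) (nat_lit 3) (.e (nat_lit 98316) (nat_lit 9) .nil))))) .nil)) 
(.lf (nat_lit 221216) (.g (nat_lit 4769) (.e (nat_lit 98313) (nat_lit 9) (.e (nat_lit 336027) (nat_lit 3) (.e (nat_lit 98341) (nat_lit 20) (.e (nat_lit 221215) (nat_lit 23) (.e (nat_lit 204828) (nat_lit 18) (.e (nat_lit 57849) (nat_lit 252) (.e (nat_lit 57379) (nat_lit 3) .nil))))))) (.g (nat_lit 7) .nil .nil)))) (.nd (nat_lit 5) 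
(.lf (nat_lit 221200) (.g (nat_lit 2514) (.e (nat_lit 98313) (nat_lit 9) (.e (nat_lit 336027) (nat_lit 3) (.e (nat_lit 98341) (nat_lit 20) (.e (nat_lit 221210) (nat_lit 22) (.e (nat_lit 196658) (nat_lit 12) (.e (nat_lit 57354) (nat_lit 0) (.e (nat_lit 5195) (nat_lit 294) (.e (nat_lit 57379) (nat_lit 3) .nil)))))))) (.g (nat_lit 4) .nil .nil))) 
(.lf (nat_lit 221232) (.g (nat_lit 4307) (.e (nat_lit 98313) (nat_lit 9) (.e (nat_lit 336027) (nat_lit 3) (.e (nat_lit 98342) (nat_lit 20) (.e (nat_lit 221214) (nat_lit 23) (.e (nat_lit 204829) (nat_lit 18) (.e (nat_lit 57849) (nat_lit 252) (.e (nat_lit 57377) (nat_lit 3) .nil))))))) (.g (nat_lit 7) .nil .nil))))) (.nd (nat_lit 4) (.nd (nat_lit 5) 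
(.lf (nat_lit 221192) (.g (nat_lit 1462) (.e (nat_lit 98313) (nat_lit 9) (.e (nat_lit 336027) (nat_lit 3) (.e (nat_lit 98323) (nat_lit 17) (.e (nat_lit 3558) (nat_lit 221) .nil)))) .nil)) 
(.lf (nat_lit 221224) (.g (nat_lit 1808) (.e (nat_lit 98313) (nat_lit 9) (.e (nat_lit 336027) (nat_lit 3) (.e (nat_lit 98342) (nat_lit 20) (.e (nat_lit 221212) (nat_lit 22) (.e (nat_lit 196632) (nat_lit 9) .nil))))) .nil))) (.nd (nat_lit 5) 
(.lf (nat_lit 221208) (.g (nat_lit 2237) (.e (nat_lit 98313) (nat_lit 9) (.e (nat_lit 336027) (nat_lit 3) (.e (nat_lit 98341) (nat_lit 20) (.e (nat_lit 221214) (nat_lit 23) (.e (nat_lit 204821) (nat_lit 17) (.e (nat_lit 1023) (nat_lit 81) (.e (nat_lit 5195) (nat_lit 294) (.e (nat_lit 57377) (nat_lit 3) .nil)))))))) (.g (nat_lit 4) .nil .nil))) 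
(.lf (nat_lit 221240) (.g (nat_lit 3829) (.e (nat_lit 98313) (nat_lit 9) (.e (nat_lit 336027) (nat_lit 3) (.e (nat_lit 98342) (nat_lit 20) (.e (nat_lit 221215) (nat_lit 23) (.e (nat_lit 204830) (nat_lit 18) (.e (nat_lit 57854) (nat_lit 252) (.e (nat_lit 57378) (nat_lit 3) .nil))))))) (.g (nat_lit 7) .nil .nil)))))) (.nd (nat_lit 3) (.nd (nat_lit 4) (.nd (nat_lit 5) 
(.lf (nat_lit 221188) (.g (nat_lit 3128) (.e (nat_lit 98313) (nat_lit 9) (.e (nat_lit 336027) (nat_lit 3) (.e (nat_lit 98317) (nat_lit 9) (.e (nat_lit 336027) (nat_lit 3) (.e (nat_lit 98317) (nat_lit 9) (.e (nat_lit 336025) (nat_lit 3) .nil)))))) (.g (nat_lit 0) .nil .nil))) 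
(.lf (nat_lit 221220) (.g (nat_lit 4087) (.e (nat_lit 98313) (nat_lit 9) (.e (nat_lit 336027) (nat_lit 3) (.e (nat_lit 98341) (nat_lit 20) (.e (nat_lit 221215) (nat_lit 23) (.e (nat_lit 204830) (nat_lit 18) (.e (nat_lit 57854) (nat_lit 252) (.e (nat_lit 57378) (nat_lit 3) .nil))))))) (.g (nat_lit 7) .nil .nil)))) (.nd (nat_lit 5) 
(.lf (nat_lit 221204) (.g (nat_lit 1298) (.e (nat_lit 98313) (nat_lit 9) (.e (nat_lit 336027) (nat_lit 3) (.e (nat_lit 98341) (nat_lit 20) (.e (nat_lit 221211) (nat_lit 22) .nil)))) .nil)) 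
(.lf (nat_lit 221236) (.g (nat_lit 4348) (.e (nat_lit 98313) (nat_lit 9) (.e (nat_lit 336027) (nat_lit 3) (.e (nat_lit 98342) (nat_lit 20) (.e (nat_lit 221215) (nat_lit 23) (.e (nat_lit 204828) (nat_lit 18) (.e (nat_lit 57849) (nat_lit 252) (.e (nat_lit 57377) (nat_lit 3) .nil))))))) (.g (nat_lit 7) .nil .nil))))) (.nd (nat_lit 4) (.nd (nat_lit 5) 
(.lf (nat_lit 221196) (.g (nat_lit 980) (.e (nat_lit 98313) (nat_lit 9) (.e (nat_lit 336027) (nat_lit 3) (.e (nat_lit 98339) (nat_lit 19) .nil))) .nil)) 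
(.lf (nat_lit 221228) (.g (nat_lit 2230) (.e (nat_lit 98313) (nat_lit 9) (.e (nat_lit 336027) (nat_lit 3) (.e (nat_lit 98342) (nat_lit 20) (.e (nat_lit 221214) (nat_lit 23) (.e (nat_lit 204821) (nat_lit 17) (.e (nat_lit 1023) (nat_lit 81) (.e (nat_lit 5195) (nat_lit 294) (.e (nat_lit 57377) (nat_lit 3) .nil)))))))) (.g (nat_lit 4) .nil .nil)))) (.nd (nat_lit 5) 
(.lf (nat_lit 221212) (.g (nat_lit 3859) (.e (nat_lit 98313) (nat_lit 9) (.e (nat_lit 336027) (nat_lit 3) (.e (nat_lit 98341) (nat_lit 20) (.e (nat_lit 221214) (nat_lit 23) (.e (nat_lit 204830) (nat_lit 18) (.e (nat_lit 57854) (nat_lit 252) (.e (nat_lit 57377) (nat_lit 3) .nil))))))) (.g (nat_lit 7) .nil .nil))) 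
(.lf (nat_lit 221244) (.g (nat_lit 3251) (.e (nat_lit 98313) (nat_lit 9) (.e (nat_lit 336074) (nat_lit 9) (.e (nat_lit 336454) (nat_lit 34) (.e (nat_lit 483365) (nat_lit 18) (.e (nat_lit 57854) (nat_lit 252) (.e (nat_lit 57378) (nat_lit 3) .nil)))))) (.g (nat_lit 5) .nil .nil))))))) (.nd (nat_lit 2) (.nd (nat_lit 3) (.nd (nat_lit 4) (.nd (nat_lit 5) 
(.lf (nat_lit 221186) (.g (nat_lit 1960) (.e (nat_lit 98313) (nat_lit 9) (.e (nat_lit 336027) (nat_lit 3) (.e (nat_lit 98317) (nat_lit 9) (.e (nat_lit 336027) (nat_lit 3) (.e (nat_lit 98316) (nat_lit 9) (.e (nat_lit 336027) (nat_lit 3) .nil)))))) (.g (nat_lit 4) .nil .nil))) 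
(.lf (nat_lit 221218) (.g (nat_lit 4069) (.e (nat_lit 98313) (nat_lit 9) (.e (nat_lit 336027) (nat_lit 3) (.e (nat_lit 98341) (nat_lit 20) (.e (nat_lit 221215) (nat_lit 23) (.e (nat_lit 204829) (nat_lit 18) (.e (nat_lit 57849) (nat_lit 252) (.e (nat_lit 57377) (nat_lit 3) .nil))))))) (.g (nat_lit 7) .nil .nil)))) (.nd (nat_lit 5) 
(.lf (nat_lit 221202) (.g (nat_lit 2142) (.e (nat_lit 98313) (nat_lit 9) (.e (nat_lit 336027) (nat_lit 3) (.e (nat_lit 98341) (nat_lit 20) (.e (nat_lit 221210) (nat_lit 22) (.e (nat_lit 196661) (nat_lit 12) (.e (nat_lit 57357) (nat_lit 0) (.e (nat_lit 5195) (nat_lit 294) (.e (nat_lit 57377) (nat_lit 3) .nil)))))))) (.g (nat_lit 4) .nil .nil))) 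
(.lf (nat_lit 221234) (.g (nat_lit 4180) (.e (nat_lit 98313) (nat_lit 9) (.e (nat_lit 336027) (nat_lit 3) (.e (nat_lit 98342) (nat_lit 20) (.e (nat_lit 221214) (nat_lit 23) (.e (nat_lit 204830) (nat_lit 18) (.e (nat_lit 57854) (nat_lit 252) (.e (nat_lit 57378) (nat_lit 3) .nil))))))) (.g (nat_lit 7) .nil .nil))))) (.nd (nat_lit 4) (.nd (nat_lit 5) 
(.lf (nat_lit 221194) (.g (nat_lit 4079) (.e (nat_lit 98313) (nat_lit 9) (.e (nat_lit 336027) (nat_lit 3) (.e (nat_lit 98337) (nat_lit 19) (.e (nat_lit 213035) (nat_lit 12) (.e (nat_lit 163964) (nat_lit 25) (.e (nat_lit 532499) (nat_lit 1) (.e (nat_lit 57847) (nat_lit 252) (.e (nat_lit 57377) (nat_lit 3) .nil)))))))) (.g (nat_lit 8) .nil .nil))) 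
(.lf (nat_lit 221226) (.g (nat_lit 3352) (.e (nat_lit 98313) (nat_lit 9) (.e (nat_lit 336027) (nat_lit 3) (.e (nat_lit 98342) (nat_lit 20) (.e (nat_lit 221213) (nat_lit 23) (.e (nat_lit 204830) (nat_lit 18) (.e (nat_lit 57852) (nat_lit 252) (.e (nat_lit 57377) (nat_lit 3) .nil))))))) (.g (nat_lit 6) .nil .nil)))) (.nd (nat_lit 5) 
(.lf (nat_lit 221210) (.g (nat_lit 4335) (.e (nat_lit 98313) (nat_lit 9) (.e (nat_lit 336027) (nat_lit 3) (.e (nat_lit 98341) (nat_lit 20) (.e (nat_lit 221214) (nat_lit 23) (.e (nat_lit 204829) (nat_lit 18) (.e (nat_lit 57847) (nat_lit 252) (.e (nat_lit 57379) (nat_lit 3) .nil))))))) (.g (nat_lit 7) .nil .nil))) 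
(.lf (nat_lit 221242) (.g (nat_lit 870) (.e (nat_lit 98313) (nat_lit 9) (.e (nat_lit 336027) (nat_lit 3) (.e (nat_lit 98348) (nat_lit 23) .nil))) .nil))))) (.nd (nat_lit 3) (.nd (nat_lit 4) (.nd (nat_lit 5) 
(.lf (nat_lit 221190) (.g (nat_lit 1295) (.e (nat_lit 98313) (nat_lit 9) (.e (nat_lit 336027) (nat_lit 3) (.e (nat_lit 98317) (nat_lit 9) (.e (nat_lit 343808) (nat_lit 3) .nil)))) .nil)) 
(.lf (nat_lit 221222) (.g (nat_lit 1971) (.e (nat_lit 98313) (nat_lit 9) (.e (nat_lit 336027) (nat_lit 3) (.e (nat_lit 98342) (nat_lit 20) (.e (nat_lit 221210) (nat_lit 22) (.e (nat_lit 196661) (nat_lit 12) .nil))))) .nil))) (.nd (nat_lit 5) 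
(.lf (nat_lit 221206) (.g (nat_lit 2477) (.e (nat_lit 98313) (nat_lit 9) (.e (nat_lit 336027) (nat_lit 3) (.e (nat_lit 98341) (nat_lit 20) (.e (nat_lit 221212) (nat_lit 22) (.e (nat_lit 196632) (nat_lit 9) (.e (nat_lit 1170) (nat_lit 87) (.e (nat_lit 57847) (nat_lit 252) (.e (nat_lit 57377) (nat_lit 3) .nil)))))))) (.g (nat_lit 4) .nil .nil))) 
(.lf (nat_lit 221238) (.g (nat_lit 3601) (.e (nat_lit 98313) (nat_lit 9) (.e (nat_lit 336027) (nat_lit 3) (.e (nat_lit 98342) (nat_lit 20) (.e (nat_lit 221215) (nat_lit 23) (.e (nat_lit 204830) (nat_lit 18) (.e (nat_lit 57852) (nat_lit 252) (.e (nat_lit 57377) (nat_lit 3) .nil))))))) (.g (nat_lit 6) .nil .nil))))) (.nd (nat_lit 4) (.nd (nat_lit 5) 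
(.lf (nat_lit 221198) (.g (nat_lit 1773) (.e (nat_lit 98313) (nat_lit 9) (.e (nat_lit 336027) (nat_lit 3) (.e (nat_lit 98340) (nat_lit 20) (.e (nat_lit 221214) (nat_lit 23) (.e (nat_lit 204830) (nat_lit 18) (.e (nat_lit 57854) (nat_lit 252) (.e (nat_lit 57377) (nat_lit 3) .nil))))))) (.g (nat_lit 4) .nil .nil))) 
(.lf (nat_lit 221230) (.g (nat_lit 4201) (.e (nat_lit 98313) (nat_lit 9) (.e (nat_lit 336027) (nat_lit 3) (.e (nat_lit 98342) (nat_lit 20) (.e (nat_lit 221214) (nat_lit 23) (.e (nat_lit 204829) (nat_lit 18) (.e (nat_lit 57847) (nat_lit 252) (.e (nat_lit 57377) (nat_lit 3) .nil))))))) (.g (nat_lit 7) .nil .nil)))) (.nd (nat_lit 5) 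
(.lf (nat_lit 221214) (.g (nat_lit 2198) (.e (nat_lit 98313) (nat_lit 9) (.e (nat_lit 336027) (nat_lit 3) (.e (nat_lit 98341) (nat_lit 20) (.e (nat_lit 221215) (nat_lit 23) (.e (nat_lit 204821) (nat_lit 17) (.e (nat_lit 1023) (nat_lit 81) (.e (nat_lit 5195) (nat_lit 294) (.e (nat_lit 57377) (nat_lit 3) .nil)))))))) (.g (nat_lit 4) .nil .nil))) 
(.lf (nat_lit 221246) (.g (nat_lit 1814) (.e (nat_lit 98313) (nat_lit 9) (.e (nat_lit 336075) (nat_lit 9) (.e (nat_lit 336454) (nat_lit 34) (.e (nat_lit 483363) (nat_lit 18) (.e (nat_lit 57854) (nat_lit 252) .nil))))) .nil))))))) (.nd (nat_lit 1) (.nd (nat_lit 2) (.nd (nat_lit 3) (.nd (nat_lit 4) (.nd (nat_lit 5) 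
(.lf (nat_lit 221185) (.g (nat_lit 2990) (.e (nat_lit 98313) (nat_lit 9) (.e (nat_lit 336027) (nat_lit 3) (.e (nat_lit 98317) (nat_lit 9) (.e (nat_lit 336027) (nat_lit 3) (.e (nat_lit 98316) (nat_lit 9) (.e (nat_lit 336021) (nat_lit 3) .nil)))))) (.g (nat_lit 0) .nil .nil))) 
(.lf (nat_lit 221217) (.g (nat_lit 3876) (.e (nat_lit 98313) (nat_lit 9) (.e (nat_lit 336027) (nat_lit 3) (.e (nat_lit 98341) (nat_lit 20) (.e (nat_lit 221215) (nat_lit 23) (.e (nat_lit 204829) (nat_lit 18) (.e (nat_lit 57847) (nat_lit 252) (.e (nat_lit 57377) (nat_lit 3) .nil))))))) (.g (nat_lit 7) .nil .nil)))) (.nd (nat_lit 5) 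
(.lf (nat_lit 221201) (.g (nat_lit 2149) (.e (nat_lit 98313) (nat_lit 9) (.e (nat_lit 336027) (nat_lit 3) (.e (nat_lit 98341) (nat_lit 20) (.e (nat_lit 221210) (nat_lit 22) (.e (nat_lit 196659) (nat_lit 12) .nil))))) .nil)) 
(.lf (nat_lit 221233) (.g (nat_lit 3706) (.e (nat_lit 98313) (nat_lit 9) (.e (nat_lit 336027) (nat_lit 3) (.e (nat_lit 98342) (nat_lit 20) (.e (nat_lit 221214) (nat_lit 23) (.e (nat_lit 204830) (nat_lit 18) (.e (nat_lit 57854) (nat_lit 252) (.e (nat_lit 57377) (nat_lit 3) .nil))))))) (.g (nat_lit 7) .nil .nil))))) (.nd (nat_lit 4) (.nd (nat_lit 5) 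
(.lf (nat_lit 221193) (.g (nat_lit 946) (.e (nat_lit 98313) (nat_lit 9) (.e (nat_lit 336027) (nat_lit 3) (.e (nat_lit 98325) (nat_lit 17) (.e (nat_lit 3721) (nat_lit 227) .nil)))) .nil)) 
(.lf (nat_lit 221225) (.g (nat_lit 1928) (.e (nat_lit 98313) (nat_lit 9) (.e (nat_lit 336027) (nat_lit 3) (.e (nat_lit 98342) (nat_lit 20) (.e (nat_lit 221212) (nat_lit 22) (.e (nat_lit 196658) (nat_lit 12) .nil))))) .nil))) (.nd (nat_lit 5) 
(.lf (nat_lit 221209) (.g (nat_lit 4274) (.e (nat_lit 98313) (nat_lit 9) (.e (nat_lit 336027) (nat_lit 3) (.e (nat_lit 98341) (nat_lit 20) (.e (nat_lit 221214) (nat_lit 23) (.e (nat_lit 204829) (nat_lit 18) (.e (nat_lit 57847) (nat_lit 252) (.e (nat_lit 57377) (nat_lit 3) .nil))))))) (.g (nat_lit 7) .nil .nil))) 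
(.lf (nat_lit 221241) (.g (nat_lit 980) (.e (nat_lit 98313) (nat_lit 9) (.e (nat_lit 336027) (nat_lit 3) (.e (nat_lit 98347) (nat_lit 23) .nil))) .nil))))) (.nd (nat_lit 3) (.nd (nat_lit 4) (.nd (nat_lit 5) 
(.lf (nat_lit 221189) (.g (nat_lit 2278) (.e (nat_lit 98313) (nat_lit 9) (.e (nat_lit 336027) (nat_lit 3) (.e (nat_lit 98317) (nat_lit 9) (.e (nat_lit 336027) (nat_lit 3) (.e (nat_lit 98317) (nat_lit 9) (.e (nat_lit 336026) (nat_lit 3) .nil)))))) (.g (nat_lit 5) .nil .nil))) 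
(.lf (nat_lit 221221) (.g (nat_lit 2605) (.e (nat_lit 98313) (nat_lit 9) (.e (nat_lit 336027) (nat_lit 3) (.e (nat_lit 98341) (nat_lit 20) (.e (nat_lit 221215) (nat_lit 23) (.e (nat_lit 204831) (nat_lit 18) (.e (nat_lit 57849) (nat_lit 252) (.e (nat_lit 57379) (nat_lit 3) .nil))))))) (.g (nat_lit 4) .nil .nil)))) (.nd (nat_lit 5) 
(.lf (nat_lit 221205) (.g (nat_lit 1390) (.e (nat_lit 98313) (nat_lit 9) (.e (nat_lit 336027) (nat_lit 3) (.e (nat_lit 98341) (nat_lit 20) (.e (nat_lit 221212) (nat_lit 22) .nil)))) .nil)) 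
(.lf (nat_lit 221237) (.g (nat_lit 4801) (.e (nat_lit 98313) (nat_lit 9) (.e (nat_lit 336027) (nat_lit 3) (.e (nat_lit 98342) (nat_lit 20) (.e (nat_lit 221215) (nat_lit 23) (.e (nat_lit 204828) (nat_lit 18) (.e (nat_lit 57849) (nat_lit 252) (.e (nat_lit 57379) (nat_lit 3) .nil))))))) (.g (nat_lit 0) .nil .nil))))) (.nd (nat_lit 4) (.nd (nat_lit 5) 
(.lf (nat_lit 221197) (.g (nat_lit 553) (.e (nat_lit 98313) (nat_lit 9) (.e (nat_lit 336027) (nat_lit 3) (.e (nat_lit 98340) (nat_lit 20) .nil))) .nil)) 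
(.lf (nat_lit 221229) (.g (nat_lit 2344) (.e (nat_lit 98313) (nat_lit 9) (.e (nat_lit 336027) (nat_lit 3) (.e (nat_lit 98342) (nat_lit 20) (.e (nat_lit 221214) (nat_lit 23) (.e (nat_lit 204821) (nat_lit 17) (.e (nat_lit 1023) (nat_lit 81) (.e (nat_lit 5195) (nat_lit 294) (.e (nat_lit 57379) (nat_lit 3) .nil)))))))) (.g (nat_lit 4) .nil .nil)))) (.nd (nat_lit 5) 
(.lf (nat_lit 221213) (.g (nat_lit 4337) (.e (nat_lit 98313) (nat_lit 9) (.e (nat_lit 336027) (nat_lit 3) (.e (nat_lit 98341) (nat_lit 20) (.e (nat_lit 221214) (nat_lit 23) (.e (nat_lit 204830) (nat_lit 18) (.e (nat_lit 57854) (nat_lit 252) (.e (nat_lit 57378) (nat_lit 3) .nil))))))) (.g (nat_lit 7) .nil .nil))) 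
(.lf (nat_lit 221245) (.g (nat_lit 1953) (.e (nat_lit 98313) (nat_lit 9) (.e (nat_lit 336075) (nat_lit 9) (.e (nat_lit 336454) (nat_lit 34) (.e (nat_lit 483363) (nat_lit 18) (.e (nat_lit 57847) (nat_lit 252) .nil))))) .nil)))))) (.nd (nat_lit 2) (.nd (nat_lit 3) (.nd (nat_lit 4) (.nd (nat_lit 5) 
(.lf (nat_lit 221187) (.g (nat_lit 1928) (.e (nat_lit 98313) (nat_lit 9) (.e (nat_lit 336027) (nat_lit 3) (.e (nat_lit 98317) (nat_lit 9) (.e (nat_lit 336027) (nat_lit 3) (.e (nat_lit 98317) (nat_lit 9) (.e (nat_lit 336020) (nat_lit 3) .nil)))))) (.g (nat_lit 4) .nil .nil))) 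
(.lf (nat_lit 221219) (.g (nat_lit 3612) (.e (nat_lit 98313) (nat_lit 9) (.e (nat_lit 336027) (nat_lit 3) (.e (nat_lit 98341) (nat_lit 20) (.e (nat_lit 221215) (nat_lit 23) (.e (nat_lit 204830) (nat_lit 18) (.e (nat_lit 57854) (nat_lit 252) (.e (nat_lit 57377) (nat_lit 3) .nil))))))) (.g (nat_lit 7) .nil .nil)))) (.nd (nat_lit 5) 
(.lf (nat_lit 221203) (.g (nat_lit 2361) (.e (nat_lit 98313) (nat_lit 9) (.e (nat_lit 336027) (nat_lit 3) (.e (nat_lit 98341) (nat_lit 20) (.e (nat_lit 221210) (nat_lit 22) (.e (nat_lit 196661) (nat_lit 12) (.e (nat_lit 57357) (nat_lit 0) (.e (nat_lit 5195) (nat_lit 294) (.e (nat_lit 57379) (nat_lit 3) .nil)))))))) (.g (nat_lit 4) .nil .nil))) 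
(.lf (nat_lit 221235) (.g (nat_lit 2393) (.e (nat_lit 98313) (nat_lit 9) (.e (nat_lit 336027) (nat_lit 3) (.e (nat_lit 98342) (nat_lit 20) (.e (nat_lit 221215) (nat_lit 23) (.e (nat_lit 204821) (nat_lit 17) (.e (nat_lit 1023) (nat_lit 81) (.e (nat_lit 5195) (nat_lit 294) (.e (nat_lit 57377) (nat_lit 3) .nil)))))))) (.g (nat_lit 4) .nil .nil))))) (.nd (nat_lit 4) (.nd (nat_lit 5) 
(.lf (nat_lit 221195) (.g (nat_lit 964) (.e (nat_lit 98313) (nat_lit 9) (.e (nat_lit 336027) (nat_lit 3) (.e (nat_lit 98338) (nat_lit 19) .nil))) .nil)) 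
(.lf (nat_lit 221227) (.g (nat_lit 3393) (.e (nat_lit 98313) (nat_lit 9) (.e (nat_lit 336027) (nat_lit 3) (.e (nat_lit 98342) (nat_lit 20) (.e (nat_lit 221213) (nat_lit 23) (.e (nat_lit 204830) (nat_lit 18) (.e (nat_lit 57852) (nat_lit 252) (.e (nat_lit 57378) (nat_lit 3) .nil))))))) (.g (nat_lit 6) .nil .nil)))) (.nd (nat_lit 5) 
(.lf (nat_lit 221211) (.g (nat_lit 4380) (.e (nat_lit 98313) (nat_lit 9) (.e (nat_lit 336027) (nat_lit 3) (.e (nat_lit 98341) (nat_lit 20) (.e (nat_lit 221214) (nat_lit 23) (.e (nat_lit 204829) (nat_lit 18) (.e (nat_lit 57849) (nat_lit 252) (.e (nat_lit 57377) (nat_lit 3) .nil))))))) (.g (nat_lit 7) .nil .nil))) 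
(.lf (nat_lit 221243) (.g (nat_lit 1703) (.e (nat_lit 98313) (nat_lit 9) (.e (nat_lit 336059) (nat_lit 7) (.e (nat_lit 319490) (nat_lit 0) (.e (nat_lit 577) (nat_lit 43) .nil)))) .nil))))) (.nd (nat_lit 3) (.nd (nat_lit 4) (.nd (nat_lit 5) 
(.lf (nat_lit 221191) (.g (nat_lit 644) (.e (nat_lit 98313) (nat_lit 9) (.e (nat_lit 336027) (nat_lit 3) (.e (nat_lit 98321) (nat_lit 17) .nil))) .nil)) 
(.lf (nat_lit 221223) (.g (nat_lit 1920) (.e (nat_lit 98313) (nat_lit 9) (.e (nat_lit 336027) (nat_lit 3) (.e (nat_lit 98342) (nat_lit 20) (.e (nat_lit 221212) (nat_lit 22) (.e (nat_lit 196626) (nat_lit 9) .nil))))) .nil))) (.nd (nat_lit 5) 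
(.lf (nat_lit 221207) (.g (nat_lit 2403) (.e (nat_lit 98313) (nat_lit 9) (.e (nat_lit 336027) (nat_lit 3) (.e (nat_lit 98341) (nat_lit 20) (.e (nat_lit 221212) (nat_lit 22) (.e (nat_lit 196659) (nat_lit 12) (.e (nat_lit 57354) (nat_lit 0) (.e (nat_lit 5195) (nat_lit 294) (.e (nat_lit 57377) (nat_lit 3) .nil)))))))) (.g (nat_lit 4) .nil .nil))) 
(.lf (nat_lit 221239) (.g (nat_lit 3913) (.e (nat_lit 98313) (nat_lit 9) (.e (nat_lit 336027) (nat_lit 3) (.e (nat_lit 98342) (nat_lit 20) (.e (nat_lit 221215) (nat_lit 23) (.e (nat_lit 204830) (nat_lit 18) (.e (nat_lit 57852) (nat_lit 252) (.e (nat_lit 57378) (nat_lit 3) .nil))))))) (.g (nat_lit 6) .nil .nil))))) (.nd (nat_lit 4) (.nd (nat_lit 5) 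
(.lf (nat_lit 221199) (.g (nat_lit 2326) (.e (nat_lit 98313) (nat_lit 9) (.e (nat_lit 336027) (nat_lit 3) (.e (nat_lit 98341) (nat_lit 20) (.e (nat_lit 221210) (nat_lit 22) (.e (nat_lit 196658) (nat_lit 12) (.e (nat_lit 57354) (nat_lit 0) (.e (nat_lit 5195) (nat_lit 294) (.e (nat_lit 57377) (nat_lit 3) .nil)))))))) (.g (nat_lit 4) .nil .nil))) 
(.lf (nat_lit 221231) (.g (nat_lit 4244) (.e (nat_lit 98313) (nat_lit 9) (.e (nat_lit 336027) (nat_lit 3) (.e (nat_lit 98342) (nat_lit 20) (.e (nat_lit 221214) (nat_lit 23) (.e (nat_lit 204829) (nat_lit 18) (.e (nat_lit 57847) (nat_lit 252) (.e (nat_lit 57379) (nat_lit 3) .nil))))))) (.g (nat_lit 7) .nil .nil)))) (.nd (nat_lit 5) 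
(.lf (nat_lit 221215) (.g (nat_lit 2330) (.e (nat_lit 98313) (nat_lit 9) (.e (nat_lit 336027) (nat_lit 3) (.e (nat_lit 98341) (nat_lit 20) (.e (nat_lit 221215) (nat_lit 23) (.e (nat_lit 204821) (nat_lit 17) (.e (nat_lit 1023) (nat_lit 81) (.e (nat_lit 5195) (nat_lit 294) (.e (nat_lit 57379) (nat_lit 3) .nil)))))))) (.g (nat_lit 4) .nil .nil))) 
(.lf (nat_lit 221247) (.g (nat_lit 1649) (.e (nat_lit 98313) (nat_lit 9) (.e (nat_lit 336075) (nat_lit 9) (.e (nat_lit 336454) (nat_lit 34) (.e (nat_lit 483364) (nat_lit 18) (.e (nat_lit 57854) (nat_lit 252) .nil))))) .nil))))))))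

noncomputable def tv2905 : DT := (.nd (nat_lit 0) (.nd (nat_lit 1) (.nd (nat_lit 2) (.nd (nat_lit 3) (.nd (nat_lit 4) (.nd (nat_lit 5) 
(.lf (nat_lit 221248) (.g (nat_lit 3391) (.e (nat_lit 98313) (nat_lit 9) (.e (nat_lit 336075) (nat_lit 9) (.e (nat_lit 336454) (nat_lit 34) (.e (nat_lit 483365) (nat_lit 18) (.e (nat_lit 57847) (nat_lit 252) (.e (nat_lit 57378) (nat_lit 3) .nil)))))) (.g (nat_lit 4) .nil .nil))) 
(.lf (nat_lit 221280) (.g (nat_lit 2392) (.e (nat_lit 98313) (nat_lit 9) (.e (nat_lit 336078) (nat_lit 9) (.e (nat_lit 336454) (nat_lit 34) (.e (nat_lit 483363) (nat_lit 18) (.e (nat_lit 57854) (nat_lit 252) (.e (nat_lit 57377) (nat_lit 3) .nil)))))) (.g (nat_lit 4) .nil .nil)))) (.nd (nat_lit 5) 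
(.lf (nat_lit 221264) (.g (nat_lit 1199) (.e (nat_lit 98313) (nat_lit 9) (.e (nat_lit 336076) (nat_lit 9) (.e (nat_lit 336456) (nat_lit 34) (.e (nat_lit 491264) (nat_lit 3) .nil)))) .nil)) 
(.lf (nat_lit 221296) (.g (nat_lit 3380) (.e (nat_lit 98313) (nat_lit 9) (.e (nat_lit 336087) (nat_lit 9) (.e (nat_lit 336019) (nat_lit 3) (.e (nat_lit 98356) (nat_lit 26) (.e (nat_lit 426448) (nat_lit 20) (.e (nat_lit 114719) (nat_lit 23) .nil)))))) (.g (nat_lit 0) .nil .nil))))) (.nd (nat_lit 4) (.nd (nat_lit 5) 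
(.lf (nat_lit 221256) (.g (nat_lit 2086) (.e (nat_lit 98313) (nat_lit 9) (.e (nat_lit 336076) (nat_lit 9) (.e (nat_lit 336452) (nat_lit 34) (.e (nat_lit 483363) (nat_lit 18) (.e (nat_lit 57847) (nat_lit 252) (.e (nat_lit 57377) (nat_lit 3) .nil)))))) (.g (nat_lit 4) .nil .nil))) 
(.lf (nat_lit 221288) (.g (nat_lit 2106) (.e (nat_lit 98313) (nat_lit 9) (.e (nat_lit 336086) (nat_lit 9) (.e (nat_lit 336414) (nat_lit 27) (.e (nat_lit 426503) (nat_lit 27) (.e (nat_lit 335986) (nat_lit 1) .nil))))) .nil))) (.nd (nat_lit 5) 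
(.lf (nat_lit 221272) (.g (nat_lit 2961) (.e (nat_lit 98313) (nat_lit 9) (.e (nat_lit 336076) (nat_lit 9) (.e (nat_lit 336456) (nat_lit 34) (.e (nat_lit 483365) (nat_lit 18) (.e (nat_lit 57854) (nat_lit 252) (.e (nat_lit 57377) (nat_lit 3) .nil)))))) (.g (nat_lit 5) .nil .nil))) 
(.lf (nat_lit 221304) (.g (nat_lit 2132) (.e (nat_lit 98313) (nat_lit 9) (.e (nat_lit 336087) (nat_lit 9) (.e (nat_lit 336019) (nat_lit 3) (.e (nat_lit 98384) (nat_lit 32) (.e (nat_lit 475212) (nat_lit 42) (.e (nat_lit 720945) (nat_lit 23) .nil)))))) (.g (nat_lit 5) .nil .nil)))))) (.nd (nat_lit 3) (.nd (nat_lit 4) (.nd (nat_lit 5) 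
(.lf (nat_lit 221252) (.g (nat_lit 2754) (.e (nat_lit 98313) (nat_lit 9) (.e (nat_lit 336075) (nat_lit 9) (.e (nat_lit 336454) (nat_lit 34) (.e (nat_lit 483365) (nat_lit 18) (.e (nat_lit 57852) (nat_lit 252) (.e (nat_lit 57378) (nat_lit 3) .nil)))))) (.g (nat_lit 4) .nil .nil))) 
(.lf (nat_lit 221284) (.g (nat_lit 3130) (.e (nat_lit 98313) (nat_lit 9) (.e (nat_lit 336078) (nat_lit 9) (.e (nat_lit 336454) (nat_lit 34) (.e (nat_lit 483365) (nat_lit 18) (.e (nat_lit 57849) (nat_lit 252) (.e (nat_lit 57377) (nat_lit 3) .nil)))))) (.g (nat_lit 6) .nil .nil)))) (.nd (nat_lit 5) 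
(.lf (nat_lit 221268) (.g (nat_lit 2923) (.e (nat_lit 98313) (nat_lit 9) (.e (nat_lit 336076) (nat_lit 9) (.e (nat_lit 336456) (nat_lit 34) (.e (nat_lit 483365) (nat_lit 18) (.e (nat_lit 57846) (nat_lit 252) (.e (nat_lit 57377) (nat_lit 3) .nil)))))) (.g (nat_lit 5) .nil .nil))) 
(.lf (nat_lit 221300) (.g (nat_lit 3008) (.e (nat_lit 98313) (nat_lit 9) (.e (nat_lit 336087) (nat_lit 9) (.e (nat_lit 336019) (nat_lit 3) (.e (nat_lit 98358) (nat_lit 26) (.e (nat_lit 426448) (nat_lit 20) (.e (nat_lit 114719) (nat_lit 23) .nil)))))) (.g (nat_lit 0) .nil .nil))))) (.nd (nat_lit 4) (.nd (nat_lit 5) 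
(.lf (nat_lit 221260) (.g (nat_lit 3452) (.e (nat_lit 98313) (nat_lit 9) (.e (nat_lit 336076) (nat_lit 9) (.e (nat_lit 336454) (nat_lit 34) (.e (nat_lit 483365) (nat_lit 18) (.e (nat_lit 57849) (nat_lit 252) (.e (nat_lit 57377) (nat_lit 3) .nil)))))) (.g (nat_lit 6) .nil .nil))) 
(.lf (nat_lit 221292) (.g (nat_lit 2970) (.e (nat_lit 98313) (nat_lit 9) (.e (nat_lit 336086) (nat_lit 9) (.e (nat_lit 336454) (nat_lit 34) (.e (nat_lit 483365) (nat_lit 18) (.e (nat_lit 57846) (nat_lit 252) (.e (nat_lit 57377) (nat_lit 3) .nil)))))) (.g (nat_lit 4) .nil .nil)))) (.nd (nat_lit 5) 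
(.lf (nat_lit 221276) (.g (nat_lit 3386) (.e (nat_lit 98313) (nat_lit 9) (.e (nat_lit 336077) (nat_lit 9) (.e (nat_lit 336454) (nat_lit 34) (.e (nat_lit 483365) (nat_lit 18) (.e (nat_lit 57847) (nat_lit 252) (.e (nat_lit 57377) (nat_lit 3) .nil)))))) (.g (nat_lit 6) .nil .nil))) 
(.lf (nat_lit 221308) (.g (nat_lit 1687) (.e (nat_lit 98313) (nat_lit 9) (.e (nat_lit 336087) (nat_lit 9) (.e (nat_lit 336019) (nat_lit 3) (.e (nat_lit 98385) (nat_lit 32) (.e (nat_lit 475212) (nat_lit 42) (.e (nat_lit 720945) (nat_lit 23) .nil)))))) (.g (nat_lit 5) .nil .nil))))))) (.nd (nat_lit 2) (.nd (nat_lit 3) (.nd (nat_lit 4) (.nd (nat_lit 5) 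
(.lf (nat_lit 221250) (.g (nat_lit 2575) (.e (nat_lit 98313) (nat_lit 9) (.e (nat_lit 336075) (nat_lit 9) (.e (nat_lit 336454) (nat_lit 34) (.e (nat_lit 483365) (nat_lit 18) (.e (nat_lit 57851) (nat_lit 252) .nil))))) .nil)) 
(.lf (nat_lit 221282) (.g (nat_lit 3135) (.e (nat_lit 98313) (nat_lit 9) (.e (nat_lit 336078) (nat_lit 9) (.e (nat_lit 336454) (nat_lit 34) (.e (nat_lit 483364) (nat_lit 18) (.e (nat_lit 57854) (nat_lit 252) (.e (nat_lit 57378) (nat_lit 3) .nil)))))) (.g (nat_lit 6) .nil .nil)))) (.nd (nat_lit 5) 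
(.lf (nat_lit 221266) (.g (nat_lit 2892) (.e (nat_lit 98313) (nat_lit 9) (.e (nat_lit 336076) (nat_lit 9) (.e (nat_lit 336456) (nat_lit 34) (.e (nat_lit 483363) (nat_lit 18) (.e (nat_lit 57847) (nat_lit 252) (.e (nat_lit 57379) (nat_lit 3) .nil)))))) (.g (nat_lit 5) .nil .nil))) 
(.lf (nat_lit 221298) (.g (nat_lit 1690) (.e (nat_lit 98313) (nat_lit 9) (.e (nat_lit 336087) (nat_lit 9) (.e (nat_lit 336019) (nat_lit 3) (.e (nat_lit 98356) (nat_lit 26) (.e (nat_lit 433920) (nat_lit 20) .nil))))) .nil)))) (.nd (nat_lit 4) (.nd (nat_lit 5) 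
(.lf (nat_lit 221258) (.g (nat_lit 2850) (.e (nat_lit 98313) (nat_lit 9) (.e (nat_lit 336076) (nat_lit 9) (.e (nat_lit 336454) (nat_lit 34) (.e (nat_lit 483363) (nat_lit 18) (.e (nat_lit 57849) (nat_lit 252) (.e (nat_lit 57377) (nat_lit 3) .nil)))))) (.g (nat_lit 5) .nil .nil))) 
(.lf (nat_lit 221290) (.g (nat_lit 2690) (.e (nat_lit 98313) (nat_lit 9) (.e (nat_lit 336086) (nat_lit 9) (.e (nat_lit 336454) (nat_lit 34) (.e (nat_lit 483363) (nat_lit 18) (.e (nat_lit 57854) (nat_lit 252) (.e (nat_lit 57377) (nat_lit 3) .nil)))))) (.g (nat_lit 4) .nil .nil)))) (.nd (nat_lit 5) 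
(.lf (nat_lit 221274) (.g (nat_lit 2707) (.e (nat_lit 98313) (nat_lit 9) (.e (nat_lit 336077) (nat_lit 9) (.e (nat_lit 336454) (nat_lit 34) (.e (nat_lit 483364) (nat_lit 18) (.e (nat_lit 57854) (nat_lit 252) (.e (nat_lit 57378) (nat_lit 3) .nil)))))) (.g (nat_lit 6) .nil .nil))) 
(.lf (nat_lit 221306) (.g (nat_lit 2042) (.e (nat_lit 98313) (nat_lit 9) (.e (nat_lit 336087) (nat_lit 9) (.e (nat_lit 336019) (nat_lit 3) (.e (nat_lit 98384) (nat_lit 32) (.e (nat_lit 475214) (nat_lit 42) (.e (nat_lit 720945) (nat_lit 23) .nil)))))) (.g (nat_lit 4) .nil .nil)))))) (.nd (nat_lit 3) (.nd (nat_lit 4) (.nd (nat_lit 5) 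
(.lf (nat_lit 221254) (.g (nat_lit 930) (.e (nat_lit 98313) (nat_lit 9) (.e (nat_lit 336075) (nat_lit 9) (.e (nat_lit 336454) (nat_lit 34) (.e (nat_lit 483366) (nat_lit 18) .nil)))) .nil)) 
(.lf (nat_lit 221286) (.g (nat_lit 1965) (.e (nat_lit 98313) (nat_lit 9) (.e (nat_lit 336085) (nat_lit 9) (.e (nat_lit 336454) (nat_lit 34) (.e (nat_lit 483365) (nat_lit 18) (.e (nat_lit 57847) (nat_lit 252) .nil))))) .nil))) (.nd (nat_lit 5) 
(.lf (nat_lit 221270) (.g (nat_lit 2109) (.e (nat_lit 98313) (nat_lit 9) (.e (nat_lit 336076) (nat_lit 9) (.e (nat_lit 336456) (nat_lit 34) (.e (nat_lit 483365) (nat_lit 18) (.e (nat_lit 57848) (nat_lit 252) .nil))))) .nil)) 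
(.lf (nat_lit 221302) (.g (nat_lit 2698) (.e (nat_lit 98313) (nat_lit 9) (.e (nat_lit 336087) (nat_lit 9) (.e (nat_lit 336019) (nat_lit 3) (.e (nat_lit 98384) (nat_lit 32) (.e (nat_lit 475199) (nat_lit 40) (.e (nat_lit 704688) (nat_lit 9) (.e (nat_lit 1250) (nat_lit 92) .nil))))))) (.g (nat_lit 5) .nil .nil))))) (.nd (nat_lit 4) (.nd (nat_lit 5) 
(.lf (nat_lit 221262) (.g (nat_lit 3008) (.e (nat_lit 98313) (nat_lit 9) (.e (nat_lit 336076) (nat_lit 9) (.e (nat_lit 336454) (nat_lit 34) (.e (nat_lit 483366) (nat_lit 18) (.e (nat_lit 57849) (nat_lit 252) (.e (nat_lit 57377) (nat_lit 3) .nil)))))) (.g (nat_lit 6) .nil .nil))) 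
(.lf (nat_lit 221294) (.g (nat_lit 1258) (.e (nat_lit 98313) (nat_lit 9) (.e (nat_lit 336087) (nat_lit 9) (.e (nat_lit 336019) (nat_lit 3) (.e (nat_lit 98354) (nat_lit 26) .nil)))) .nil))) (.nd (nat_lit 5) 
(.lf (nat_lit 221278) (.g (nat_lit 3510) (.e (nat_lit 98313) (nat_lit 9) (.e (nat_lit 336077) (nat_lit 9) (.e (nat_lit 336454) (nat_lit 34) (.e (nat_lit 483365) (nat_lit 18) (.e (nat_lit 57853) (nat_lit 252) (.e (nat_lit 57377) (nat_lit 3) .nil)))))) (.g (nat_lit 6) .nil .nil))) 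
(.lf (nat_lit 221310) (.g (nat_lit 2044) (.e (nat_lit 98313) (nat_lit 9) (.e (nat_lit 336087) (nat_lit 9) (.e (nat_lit 336019) (nat_lit 3) (.e (nat_lit 98386) (nat_lit 32) (.e (nat_lit 475212) (nat_lit 42) (.e (nat_lit 720945) (nat_lit 23) .nil)))))) (.g (nat_lit 5) .nil .nil)))))))) (.nd (nat_lit 1) (.nd (nat_lit 2) (.nd (nat_lit 3) (.nd (nat_lit 4) (.nd (nat_lit 5) 
(.lf (nat_lit 221249) (.g (nat_lit 2380) (.e (nat_lit 98313) (nat_lit 9) (.e (nat_lit 336075) (nat_lit 9) (.e (nat_lit 336454) (nat_lit 34) (.e (nat_lit 483365) (nat_lit 18) (.e (nat_lit 57848) (nat_lit 252) .nil))))) .nil)) 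
(.lf (nat_lit 221281) (.g (nat_lit 2708) (.e (nat_lit 98313) (nat_lit 9) (.e (nat_lit 336078) (nat_lit 9) (.e (nat_lit 336454) (nat_lit 34) (.e (nat_lit 483363) (nat_lit 18) (.e (nat_lit 57854) (nat_lit 252) (.e (nat_lit 57378) (nat_lit 3) .nil)))))) (.g (nat_lit 4) .nil .nil)))) (.nd (nat_lit 5) 
(.lf (nat_lit 221265) (.g (nat_lit 2823) (.e (nat_lit 98313) (nat_lit 9) (.e (nat_lit 336076) (nat_lit 9) (.e (nat_lit 336456) (nat_lit 34) (.e (nat_lit 483363) (nat_lit 18) (.e (nat_lit 57847) (nat_lit 252) (.e (nat_lit 57377) (nat_lit 3) .nil)))))) (.g (nat_lit 5) .nil .nil))) 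
(.lf (nat_lit 221297) (.g (nat_lit 2090) (.e (nat_lit 98313) (nat_lit 9) (.e (nat_lit 336087) (nat_lit 9) (.e (nat_lit 336019) (nat_lit 3) (.e (nat_lit 98356) (nat_lit 26) (.e (nat_lit 426448) (nat_lit 20) (.e (nat_lit 122624) (nat_lit 23) .nil)))))) (.g (nat_lit 5) .nil .nil))))) (.nd (nat_lit 4) (.nd (nat_lit 5) 
(.lf (nat_lit 221257) (.g (nat_lit 1694) (.e (nat_lit 98313) (nat_lit 9) (.e (nat_lit 336076) (nat_lit 9) (.e (nat_lit 336452) (nat_lit 34) (.e (nat_lit 483364) (nat_lit 18) (.e (nat_lit 57854) (nat_lit 252) .nil))))) .nil)) 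
(.lf (nat_lit 221289) (.g (nat_lit 2844) (.e (nat_lit 98313) (nat_lit 9) (.e (nat_lit 336086) (nat_lit 9) (.e (nat_lit 336454) (nat_lit 34) (.e (nat_lit 483363) (nat_lit 18) (.e (nat_lit 57853) (nat_lit 252) (.e (nat_lit 57377) (nat_lit 3) .nil)))))) (.g (nat_lit 4) .nil .nil)))) (.nd (nat_lit 5) 
(.lf (nat_lit 221273) (.g (nat_lit 2455) (.e (nat_lit 98313) (nat_lit 9) (.e (nat_lit 336077) (nat_lit 9) (.e (nat_lit 336454) (nat_lit 34) (.e (nat_lit 483363) (nat_lit 18) (.e (nat_lit 57854) (nat_lit 252) (.e (nat_lit 57377) (nat_lit 3) .nil)))))) (.g (nat_lit 4) .nil .nil))) 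
(.lf (nat_lit 221305) (.g (nat_lit 2675) (.e (nat_lit 98313) (nat_lit 9) (.e (nat_lit 336087) (nat_lit 9) (.e (nat_lit 336019) (nat_lit 3) (.e (nat_lit 98384) (nat_lit 32) (.e (nat_lit 475214) (nat_lit 42) (.e (nat_lit 720944) (nat_lit 23) .nil)))))) (.g (nat_lit 0) .nil .nil)))))) (.nd (nat_lit 3) (.nd (nat_lit 4) (.nd (nat_lit 5) 
(.lf (nat_lit 221253) (.g (nat_lit 4284) (.e (nat_lit 98313) (nat_lit 9) (.e (nat_lit 336075) (nat_lit 9) (.e (nat_lit 336454) (nat_lit 34) (.e (nat_lit 483365) (nat_lit 18) (.e (nat_lit 57854) (nat_lit 252) (.e (nat_lit 57378) (nat_lit 3) .nil)))))) (.g (nat_lit 5) .nil .nil))) 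
(.lf (nat_lit 221285) (.g (nat_lit 2086) (.e (nat_lit 98313) (nat_lit 9) (.e (nat_lit 336085) (nat_lit 9) (.e (nat_lit 336454) (nat_lit 34) (.e (nat_lit 483363) (nat_lit 18) (.e (nat_lit 57854) (nat_lit 252) .nil))))) .nil))) (.nd (nat_lit 5) 
(.lf (nat_lit 221269) (.g (nat_lit 2869) (.e (nat_lit 98313) (nat_lit 9) (.e (nat_lit 336076) (nat_lit 9) (.e (nat_lit 336456) (nat_lit 34) (.e (nat_lit 483365) (nat_lit 18) (.e (nat_lit 57847) (nat_lit 252) (.e (nat_lit 57377) (nat_lit 3) .nil)))))) (.g (nat_lit 5) .nil .nil))) 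
(.lf (nat_lit 221301) (.g (nat_lit 2790) (.e (nat_lit 98313) (nat_lit 9) (.e (nat_lit 336087) (nat_lit 9) (.e (nat_lit 336019) (nat_lit 3) (.e (nat_lit 98384) (nat_lit 32) (.e (nat_lit 475199) (nat_lit 40) (.e (nat_lit 704607) (nat_lit 9) (.e (nat_lit 1250) (nat_lit 92) .nil))))))) (.g (nat_lit 5) .nil .nil))))) (.nd (nat_lit 4) (.nd (nat_lit 5) 
(.lf (nat_lit 221261) (.g (nat_lit 3023) (.e (nat_lit 98313) (nat_lit 9) (.e (nat_lit 336076) (nat_lit 9) (.e (nat_lit 336454) (nat_lit 34) (.e (nat_lit 483366) (nat_lit 18) (.e (nat_lit 57846) (nat_lit 252) (.e (nat_lit 57377) (nat_lit 3) .nil)))))) (.g (nat_lit 6) .nil .nil))) 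
(.lf (nat_lit 221293) (.g (nat_lit 2336) (.e (nat_lit 98313) (nat_lit 9) (.e (nat_lit 336086) (nat_lit 9) (.e (nat_lit 336454) (nat_lit 34) (.e (nat_lit 483366) (nat_lit 18) .nil)))) .nil))) (.nd (nat_lit 5) 
(.lf (nat_lit 221277) (.g (nat_lit 3457) (.e (nat_lit 98313) (nat_lit 9) (.e (nat_lit 336077) (nat_lit 9) (.e (nat_lit 336454) (nat_lit 34) (.e (nat_lit 483365) (nat_lit 18) (.e (nat_lit 57849) (nat_lit 252) (.e (nat_lit 57377) (nat_lit 3) .nil)))))) (.g (nat_lit 6) .nil .nil))) 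
(.lf (nat_lit 221309) (.g (nat_lit 1421) (.e (nat_lit 98313) (nat_lit 9) (.e (nat_lit 336087) (nat_lit 9) (.e (nat_lit 336019) (nat_lit 3) (.e (nat_lit 98386) (nat_lit 32) (.e (nat_lit 475205) (nat_lit 40) .nil))))) .nil)))))) (.nd (nat_lit 2) (.nd (nat_lit 3) (.nd (nat_lit 4) (.nd (nat_lit 5) 
(.lf (nat_lit 221251) (.g (nat_lit 2715) (.e (nat_lit 98313) (nat_lit 9) (.e (nat_lit 336075) (nat_lit 9) (.e (nat_lit 336454) (nat_lit 34) (.e (nat_lit 483365) (nat_lit 18) (.e (nat_lit 57852) (nat_lit 252) (.e (nat_lit 57377) (nat_lit 3) .nil)))))) (.g (nat_lit 4) .nil .nil))) 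
(.lf (nat_lit 221283) (.g (nat_lit 2471) (.e (nat_lit 98313) (nat_lit 9) (.e (nat_lit 336078) (nat_lit 9) (.e (nat_lit 336454) (nat_lit 34) (.e (nat_lit 483365) (nat_lit 18) (.e (nat_lit 57846) (nat_lit 252) (.e (nat_lit 57377) (nat_lit 3) .nil)))))) (.g (nat_lit 4) .nil .nil)))) (.nd (nat_lit 5) 
(.lf (nat_lit 221267) (.g (nat_lit 2334) (.e (nat_lit 98313) (nat_lit 9) (.e (nat_lit 336076) (nat_lit 9) (.e (nat_lit 336456) (nat_lit 34) (.e (nat_lit 483363) (nat_lit 18) (.e (nat_lit 57849) (nat_lit 252) (.e (nat_lit 57377) (nat_lit 3) .nil)))))) (.g (nat_lit 4) .nil .nil))) 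
(.lf (nat_lit 221299) (.g (nat_lit 1854) (.e (nat_lit 98313) (nat_lit 9) (.e (nat_lit 336087) (nat_lit 9) (.e (nat_lit 336019) (nat_lit 3) (.e (nat_lit 98356) (nat_lit 26) (.e (nat_lit 433920) (nat_lit 20) (.e (nat_lit 114718) (nat_lit 23) .nil)))))) (.g (nat_lit 4) .nil .nil))))) (.nd (nat_lit 4) (.nd (nat_lit 5) 
(.lf (nat_lit 221259) (.g (nat_lit 3517) (.e (nat_lit 98313) (nat_lit 9) (.e (nat_lit 336076) (nat_lit 9) (.e (nat_lit 336454) (nat_lit 34) (.e (nat_lit 483365) (nat_lit 18) (.e (nat_lit 57846) (nat_lit 252) (.e (nat_lit 57377) (nat_lit 3) .nil)))))) (.g (nat_lit 0) .nil .nil))) 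
(.lf (nat_lit 221291) (.g (nat_lit 3069) (.e (nat_lit 98313) (nat_lit 9) (.e (nat_lit 336086) (nat_lit 9) (.e (nat_lit 336454) (nat_lit 34) (.e (nat_lit 483363) (nat_lit 18) (.e (nat_lit 57854) (nat_lit 252) (.e (nat_lit 57378) (nat_lit 3) .nil)))))) (.g (nat_lit 4) .nil .nil)))) (.nd (nat_lit 5) 
(.lf (nat_lit 221275) (.g (nat_lit 3401) (.e (nat_lit 98313) (nat_lit 9) (.e (nat_lit 336077) (nat_lit 9) (.e (nat_lit 336454) (nat_lit 34) (.e (nat_lit 483365) (nat_lit 18) (.e (nat_lit 57846) (nat_lit 252) (.e (nat_lit 57377) (nat_lit 3) .nil)))))) (.g (nat_lit 5) .nil .nil))) 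
(.lf (nat_lit 221307) (.g (nat_lit 1656) (.e (nat_lit 98313) (nat_lit 9) (.e (nat_lit 336087) (nat_lit 9) (.e (nat_lit 336019) (nat_lit 3) (.e (nat_lit 98384) (nat_lit 32) (.e (nat_lit 475214) (nat_lit 42) (.e (nat_lit 728832) (nat_lit 23) .nil)))))) (.g (nat_lit 4) .nil .nil)))))) (.nd (nat_lit 3) (.nd (nat_lit 4) (.nd (nat_lit 5) 
(.lf (nat_lit 221255) (.g (nat_lit 945) (.e (nat_lit 98313) (nat_lit 9) (.e (nat_lit 336076) (nat_lit 9) (.e (nat_lit 336367) (nat_lit 27) (.e (nat_lit 426533) (nat_lit 28) .nil)))) .nil)) 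
(.lf (nat_lit 221287) (.g (nat_lit 2690) (.e (nat_lit 98313) (nat_lit 9) (.e (nat_lit 336086) (nat_lit 9) (.e (nat_lit 336369) (nat_lit 27) (.e (nat_lit 426499) (nat_lit 27) (.e (nat_lit 335986) (nat_lit 1) .nil))))) .nil))) (.nd (nat_lit 5) 
(.lf (nat_lit 221271) (.g (nat_lit 2906) (.e (nat_lit 98313) (nat_lit 9) (.e (nat_lit 336076) (nat_lit 9) (.e (nat_lit 336456) (nat_lit 34) (.e (nat_lit 483365) (nat_lit 18) (.e (nat_lit 57853) (nat_lit 252) (.e (nat_lit 57377) (nat_lit 3) .nil)))))) (.g (nat_lit 5) .nil .nil))) 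
(.lf (nat_lit 221303) (.g (nat_lit 2467) (.e (nat_lit 98313) (nat_lit 9) (.e (nat_lit 336087) (nat_lit 9) (.e (nat_lit 336019) (nat_lit 3) (.e (nat_lit 98384) (nat_lit 32) (.e (nat_lit 475212) (nat_lit 42) (.e (nat_lit 720943) (nat_lit 23) .nil)))))) (.g (nat_lit 6) .nil .nil))))) (.nd (nat_lit 4) (.nd (nat_lit 5) 
(.lf (nat_lit 221263) (.g (nat_lit 586) (.e (nat_lit 98313) (nat_lit 9) (.e (nat_lit 336076) (nat_lit 9) (.e (nat_lit 336455) (nat_lit 34) .nil))) .nil)) 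
(.lf (nat_lit 221295) (.g (nat_lit 2199) (.e (nat_lit 98313) (nat_lit 9) (.e (nat_lit 336087) (nat_lit 9) (.e (nat_lit 336019) (nat_lit 3) (.e (nat_lit 98356) (nat_lit 26) (.e (nat_lit 426446) (nat_lit 20) (.e (nat_lit 114718) (nat_lit 23) .nil)))))) (.g (nat_lit 5) .nil .nil)))) (.nd (nat_lit 5) 
(.lf (nat_lit 221279) (.g (nat_lit 2947) (.e (nat_lit 98313) (nat_lit 9) (.e (nat_lit 336078) (nat_lit 9) (.e (nat_lit 336454) (nat_lit 34) (.e (nat_lit 483363) (nat_lit 18) (.e (nat_lit 57853) (nat_lit 252) (.e (nat_lit 57377) (nat_lit 3) .nil)))))) (.g (nat_lit 4) .nil .nil))) 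
(.lf (nat_lit 221311) (.g (nat_lit 1749) (.e (nat_lit 98313) (nat_lit 9) (.e (nat_lit 336087) (nat_lit 9) (.e (nat_lit 336019) (nat_lit 3) (.e (nat_lit 98386) (nat_lit 32) (.e (nat_lit 475213) (nat_lit 42) (.e (nat_lit 720943) (nat_lit 23) .nil)))))) (.g (nat_lit 4) .nil .nil)))))))))

noncomputable def tv2906 : DT := (.nd (nat_lit 0) (.nd (nat_lit 1) (.nd (nat_lit 2) (.nd (nat_lit 3) (.nd (nat_lit 4) (.nd (nat_lit 5) 
(.lf (nat_lit 221312) (.g (nat_lit 2795) (.e (nat_lit 98313) (nat_lit 9) (.e (nat_lit 336087) (nat_lit 9) (.e (nat_lit 336019) (nat_lit 3) (.e (nat_lit 98386) (nat_lit 32) (.e (nat_lit 475214) (nat_lit 42) (.e (nat_lit 720943) (nat_lit 23) .nil)))))) (.g (nat_lit 0) .nil .nil))) 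
(.lf (nat_lit 221344) (.g (nat_lit 3278) (.e (nat_lit 98313) (nat_lit 9) (.e (nat_lit 336088) (nat_lit 9) (.e (nat_lit 336019) (nat_lit 3) (.e (nat_lit 98384) (nat_lit 32) (.e (nat_lit 475214) (nat_lit 42) (.e (nat_lit 720944) (nat_lit 23) .nil)))))) (.g (nat_lit 0) .nil .nil)))) (.nd (nat_lit 5) 
(.lf (nat_lit 221328) (.g (nat_lit 2025) (.e (nat_lit 98313) (nat_lit 9) (.e (nat_lit 336088) (nat_lit 9) (.e (nat_lit 336019) (nat_lit 3) (.e (nat_lit 98358) (nat_lit 26) (.e (nat_lit 426402) (nat_lit 15) (.e (nat_lit 2191) (nat_lit 144) (.e (nat_lit 720943) (nat_lit 23) .nil))))))) (.g (nat_lit 4) .nil .nil))) 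
(.lf (nat_lit 221360) (.g (nat_lit 485) (.e (nat_lit 98313) (nat_lit 9) (.e (nat_lit 336088) (nat_lit 9) (.e (nat_lit 336452) (nat_lit 34) .nil))) .nil)))) (.nd (nat_lit 4) (.nd (nat_lit 5) 
(.lf (nat_lit 221320) (.g (nat_lit 2743) (.e (nat_lit 98313) (nat_lit 9) (.e (nat_lit 336088) (nat_lit 9) (.e (nat_lit 336019) (nat_lit 3) (.e (nat_lit 98356) (nat_lit 26) (.e (nat_lit 426446) (nat_lit 20) (.e (nat_lit 114718) (nat_lit 23) .nil)))))) (.g (nat_lit 5) .nil .nil))) 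
(.lf (nat_lit 221352) (.g (nat_lit 3343) (.e (nat_lit 98313) (nat_lit 9) (.e (nat_lit 336088) (nat_lit 9) (.e (nat_lit 336019) (nat_lit 3) (.e (nat_lit 98386) (nat_lit 32) (.e (nat_lit 475214) (nat_lit 42) (.e (nat_lit 720943) (nat_lit 23) .nil)))))) (.g (nat_lit 0) .nil .nil)))) (.nd (nat_lit 5) 
(.lf (nat_lit 221336) (.g (nat_lit 1852) (.e (nat_lit 98313) (nat_lit 9) (.e (nat_lit 336088) (nat_lit 9) (.e (nat_lit 336019) (nat_lit 3) (.e (nat_lit 98377) (nat_lit 30) (.e (nat_lit 458772) (nat_lit 18) .nil))))) .nil)) 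
(.lf (nat_lit 221368) (.g (nat_lit 2073) (.e (nat_lit 98313) (nat_lit 9) (.e (nat_lit 336088) (nat_lit 9) (.e (nat_lit 336456) (nat_lit 34) (.e (nat_lit 483365) (nat_lit 18) (.e (nat_lit 57848) (nat_lit 252) .nil))))) .nil))))) (.nd (nat_lit 3) (.nd (nat_lit 4) (.nd (nat_lit 5) 
(.lf (nat_lit 221316) (.g (nat_lit 2389) (.e (nat_lit 98313) (nat_lit 9) (.e (nat_lit 336088) (nat_lit 9) (.e (nat_lit 336019) (nat_lit 3) (.e (nat_lit 98354) (nat_lit 26) (.e (nat_lit 426448) (nat_lit 20) (.e (nat_lit 114719) (nat_lit 23) .nil)))))) (.g (nat_lit 4) .nil .nil))) 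
(.lf (nat_lit 221348) (.g (nat_lit 2519) (.e (nat_lit 98313) (nat_lit 9) (.e (nat_lit 336088) (nat_lit 9) (.e (nat_lit 336019) (nat_lit 3) (.e (nat_lit 98385) (nat_lit 32) (.e (nat_lit 475212) (nat_lit 42) (.e (nat_lit 720943) (nat_lit 23) .nil)))))) (.g (nat_lit 6) .nil .nil)))) (.nd (nat_lit 5) 
(.lf (nat_lit 221332) (.g (nat_lit 3558) (.e (nat_lit 98313) (nat_lit 9) (.e (nat_lit 336088) (nat_lit 9) (.e (nat_lit 336019) (nat_lit 3) (.e (nat_lit 98358) (nat_lit 26) (.e (nat_lit 426448) (nat_lit 20) (.e (nat_lit 114719) (nat_lit 23) .nil)))))) (.g (nat_lit 0) .nil .nil))) 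
(.lf (nat_lit 221364) (.g (nat_lit 3137) (.e (nat_lit 98313) (nat_lit 9) (.e (nat_lit 336088) (nat_lit 9) (.e (nat_lit 336454) (nat_lit 34) (.e (nat_lit 483366) (nat_lit 18) (.e (nat_lit 57846) (nat_lit 252) (.e (nat_lit 57377) (nat_lit 3) .nil)))))) (.g (nat_lit 0) .nil .nil))))) (.nd (nat_lit 4) (.nd (nat_lit 5) 
(.lf (nat_lit 221324) (.g (nat_lit 1986) (.e (nat_lit 98313) (nat_lit 9) (.e (nat_lit 336088) (nat_lit 9) (.e (nat_lit 336019) (nat_lit 3) (.e (nat_lit 98356) (nat_lit 26) (.e (nat_lit 426449) (nat_lit 20) .nil))))) .nil)) 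
(.lf (nat_lit 221356) (.g (nat_lit 1839) (.e (nat_lit 98313) (nat_lit 9) (.e (nat_lit 336088) (nat_lit 9) (.e (nat_lit 336324) (nat_lit 18) (.e (nat_lit 204838) (nat_lit 20) (.e (nat_lit 114712) (nat_lit 21) (.e (nat_lit 57692) (nat_lit 156) (.e (nat_lit 171776) (nat_lit 64) .nil))))))) (.g (nat_lit 4) .nil .nil)))) (.nd (nat_lit 5) 
(.lf (nat_lit 221340) (.g (nat_lit 2325) (.e (nat_lit 98313) (nat_lit 9) (.e (nat_lit 336088) (nat_lit 9) (.e (nat_lit 336019) (nat_lit 3) (.e (nat_lit 98384) (nat_lit 32) (.e (nat_lit 475205) (nat_lit 40) .nil))))) .nil)) 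
(.lf (nat_lit 221372) (.g (nat_lit 2148) (.e (nat_lit 98313) (nat_lit 9) (.e (nat_lit 336155) (nat_lit 9) (.e (nat_lit 336021) (nat_lit 3) (.e (nat_lit 98357) (nat_lit 26) (.e (nat_lit 426448) (nat_lit 20) (.e (nat_lit 114719) (nat_lit 23) .nil)))))) (.g (nat_lit 4) .nil .nil))))))) (.nd (nat_lit 2) (.nd (nat_lit 3) (.nd (nat_lit 4) (.nd (nat_lit 5) 
(.lf (nat_lit 221314) (.g (nat_lit 1788) (.e (nat_lit 98313) (nat_lit 9) (.e (nat_lit 336088) (nat_lit 9) (.e (nat_lit 336019) (nat_lit 3) (.e (nat_lit 98354) (nat_lit 26) .nil)))) .nil)) 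
(.lf (nat_lit 221346) (.g (nat_lit 2155) (.e (nat_lit 98313) (nat_lit 9) (.e (nat_lit 336088) (nat_lit 9) (.e (nat_lit 336019) (nat_lit 3) (.e (nat_lit 98384) (nat_lit 32) (.e (nat_lit 475214) (nat_lit 42) (.e (nat_lit 728832) (nat_lit 23) .nil)))))) (.g (nat_lit 4) .nil .nil)))) (.nd (nat_lit 5) 
(.lf (nat_lit 221330) (.g (nat_lit 3233) (.e (nat_lit 98313) (nat_lit 9) (.e (nat_lit 336088) (nat_lit 9) (.e (nat_lit 336019) (nat_lit 3) (.e (nat_lit 98358) (nat_lit 26) (.e (nat_lit 426446) (nat_lit 20) (.e (nat_lit 114719) (nat_lit 23) .nil)))))) (.g (nat_lit 6) .nil .nil))) 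
(.lf (nat_lit 221362) (.g (nat_lit 3628) (.e (nat_lit 98313) (nat_lit 9) (.e (nat_lit 336088) (nat_lit 9) (.e (nat_lit 336454) (nat_lit 34) (.e (nat_lit 483365) (nat_lit 18) (.e (nat_lit 57846) (nat_lit 252) (.e (nat_lit 57377) (nat_lit 3) .nil)))))) (.g (nat_lit 0) .nil .nil))))) (.nd (nat_lit 4) (.nd (nat_lit 5) 
(.lf (nat_lit 221322) (.g (nat_lit 3928) (.e (nat_lit 98313) (nat_lit 9) (.e (nat_lit 336088) (nat_lit 9) (.e (nat_lit 336019) (nat_lit 3) (.e (nat_lit 98356) (nat_lit 26) (.e (nat_lit 426448) (nat_lit 20) (.e (nat_lit 114719) (nat_lit 23) .nil)))))) (.g (nat_lit 0) .nil .nil))) 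
(.lf (nat_lit 221354) (.g (nat_lit 2170) (.e (nat_lit 98313) (nat_lit 9) (.e (nat_lit 336088) (nat_lit 9) (.e (nat_lit 336019) (nat_lit 3) (.e (nat_lit 98386) (nat_lit 32) (.e (nat_lit 475214) (nat_lit 42) (.e (nat_lit 720945) (nat_lit 23) .nil)))))) (.g (nat_lit 4) .nil .nil)))) (.nd (nat_lit 5) 
(.lf (nat_lit 221338) (.g (nat_lit 3270) (.e (nat_lit 98313) (nat_lit 9) (.e (nat_lit 336088) (nat_lit 9) (.e (nat_lit 336019) (nat_lit 3) (.e (nat_lit 98384) (nat_lit 32) (.e (nat_lit 475199) (nat_lit 40) (.e (nat_lit 704607) (nat_lit 9) (.e (nat_lit 1250) (nat_lit 92) .nil))))))) (.g (nat_lit 5) .nil .nil))) 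
(.lf (nat_lit 221370) (.g (nat_lit 2531) (.e (nat_lit 98313) (nat_lit 9) (.e (nat_lit 336088) (nat_lit 9) (.e (nat_lit 336456) (nat_lit 34) (.e (nat_lit 483365) (nat_lit 18) (.e (nat_lit 57852) (nat_lit 252) (.e (nat_lit 57377) (nat_lit 3) .nil)))))) (.g (nat_lit 4) .nil .nil)))))) (.nd (nat_lit 3) (.nd (nat_lit 4) (.nd (nat_lit 5) 
(.lf (nat_lit 221318) (.g (nat_lit 2816) (.e (nat_lit 98313) (nat_lit 9) (.e (nat_lit 336088) (nat_lit 9) (.e (nat_lit 336019) (nat_lit 3) (.e (nat_lit 98355) (nat_lit 26) (.e (nat_lit 426448) (nat_lit 20) (.e (nat_lit 114718) (nat_lit 23) .nil)))))) (.g (nat_lit 5) .nil .nil))) 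
(.lf (nat_lit 221350) (.g (nat_lit 2385) (.e (nat_lit 98313) (nat_lit 9) (.e (nat_lit 336088) (nat_lit 9) (.e (nat_lit 336019) (nat_lit 3) (.e (nat_lit 98386) (nat_lit 32) (.e (nat_lit 475212) (nat_lit 42) (.e (nat_lit 720945) (nat_lit 23) .nil)))))) (.g (nat_lit 4) .nil .nil)))) (.nd (nat_lit 5) 
(.lf (nat_lit 221334) (.g (nat_lit 1688) (.e (nat_lit 98313) (nat_lit 9) (.e (nat_lit 336088) (nat_lit 9) (.e (nat_lit 336019) (nat_lit 3) (.e (nat_lit 98363) (nat_lit 26) .nil)))) .nil)) 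
(.lf (nat_lit 221366) (.g (nat_lit 3021) (.e (nat_lit 98313) (nat_lit 9) (.e (nat_lit 336088) (nat_lit 9) (.e (nat_lit 336454) (nat_lit 34) (.e (nat_lit 483366) (nat_lit 18) (.e (nat_lit 57853) (nat_lit 252) (.e (nat_lit 57377) (nat_lit 3) .nil)))))) (.g (nat_lit 6) .nil .nil))))) (.nd (nat_lit 4) (.nd (nat_lit 5) 
(.lf (nat_lit 221326) (.g (nat_lit 2189) (.e (nat_lit 98313) (nat_lit 9) (.e (nat_lit 336088) (nat_lit 9) (.e (nat_lit 336019) (nat_lit 3) (.e (nat_lit 98356) (nat_lit 26) (.e (nat_lit 433920) (nat_lit 20) (.e (nat_lit 114719) (nat_lit 23) .nil)))))) (.g (nat_lit 4) .nil .nil))) 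
(.lf (nat_lit 221358) (.g (nat_lit 2063) (.e (nat_lit 98313) (nat_lit 9) (.e (nat_lit 336088) (nat_lit 9) (.e (nat_lit 336370) (nat_lit 27) (.e (nat_lit 426499) (nat_lit 27) (.e (nat_lit 335986) (nat_lit 1) (.e (nat_lit 57849) (nat_lit 252) (.e (nat_lit 57377) (nat_lit 3) .nil))))))) (.g (nat_lit 4) .nil .nil)))) (.nd (nat_lit 5) 
(.lf (nat_lit 221342) (.g (nat_lit 2466) (.e (nat_lit 98313) (nat_lit 9) (.e (nat_lit 336088) (nat_lit 9) (.e (nat_lit 336019) (nat_lit 3) (.e (nat_lit 98384) (nat_lit 32) (.e (nat_lit 475212) (nat_lit 42) (.e (nat_lit 720945) (nat_lit 23) .nil)))))) (.g (nat_lit 5) .nil .nil))) 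
(.lf (nat_lit 221374) (.g (nat_lit 1319) (.e (nat_lit 98313) (nat_lit 9) (.e (nat_lit 336158) (nat_lit 9) (.e (nat_lit 336004) (nat_lit 2) (.e (nat_lit 90167) (nat_lit 13) (.e (nat_lit 179968) (nat_lit 20) .nil))))) .nil))))))) (.nd (nat_lit 1) (.nd (nat_lit 2) (.nd (nat_lit 3) (.nd (nat_lit 4) (.nd (nat_lit 5) 
(.lf (nat_lit 221313) (.g (nat_lit 2738) (.e (nat_lit 98313) (nat_lit 9) (.e (nat_lit 336087) (nat_lit 9) (.e (nat_lit 336019) (nat_lit 3) (.e (nat_lit 98386) (nat_lit 32) (.e (nat_lit 475214) (nat_lit 42) (.e (nat_lit 720944) (nat_lit 23) .nil)))))) (.g (nat_lit 6) .nil .nil))) 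
(.lf (nat_lit 221345) (.g (nat_lit 2385) (.e (nat_lit 98313) (nat_lit 9) (.e (nat_lit 336088) (nat_lit 9) (.e (nat_lit 336019) (nat_lit 3) (.e (nat_lit 98384) (nat_lit 32) (.e (nat_lit 475214) (nat_lit 42) (.e (nat_lit 720945) (nat_lit 23) .nil)))))) (.g (nat_lit 4) .nil .nil)))) (.nd (nat_lit 5) 
(.lf (nat_lit 221329) (.g (nat_lit 2851) (.e (nat_lit 98313) (nat_lit 9) (.e (nat_lit 336088) (nat_lit 9) (.e (nat_lit 336019) (nat_lit 3) (.e (nat_lit 98358) (nat_lit 26) (.e (nat_lit 426446) (nat_lit 20) (.e (nat_lit 114718) (nat_lit 23) .nil)))))) (.g (nat_lit 5) .nil .nil))) 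
(.lf (nat_lit 221361) (.g (nat_lit 2923) (.e (nat_lit 98313) (nat_lit 9) (.e (nat_lit 336088) (nat_lit 9) (.e (nat_lit 336454) (nat_lit 34) (.e (nat_lit 483363) (nat_lit 18) (.e (nat_lit 57849) (nat_lit 252) (.e (nat_lit 57377) (nat_lit 3) .nil)))))) (.g (nat_lit 5) .nil .nil))))) (.nd (nat_lit 4) (.nd (nat_lit 5) 
(.lf (nat_lit 221321) (.g (nat_lit 3114) (.e (nat_lit 98313) (nat_lit 9) (.e (nat_lit 336088) (nat_lit 9) (.e (nat_lit 336019) (nat_lit 3) (.e (nat_lit 98356) (nat_lit 26) (.e (nat_lit 426446) (nat_lit 20) (.e (nat_lit 114719) (nat_lit 23) .nil)))))) (.g (nat_lit 6) .nil .nil))) 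
(.lf (nat_lit 221353) (.g (nat_lit 3336) (.e (nat_lit 98313) (nat_lit 9) (.e (nat_lit 336088) (nat_lit 9) (.e (nat_lit 336019) (nat_lit 3) (.e (nat_lit 98386) (nat_lit 32) (.e (nat_lit 475214) (nat_lit 42) (.e (nat_lit 720944) (nat_lit 23) .nil)))))) (.g (nat_lit 0) .nil .nil)))) (.nd (nat_lit 5) 
(.lf (nat_lit 221337) (.g (nat_lit 1788) (.e (nat_lit 98313) (nat_lit 9) (.e (nat_lit 336088) (nat_lit 9) (.e (nat_lit 336019) (nat_lit 3) (.e (nat_lit 98383) (nat_lit 32) .nil)))) .nil)) 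
(.lf (nat_lit 221369) (.g (nat_lit 3085) (.e (nat_lit 98313) (nat_lit 9) (.e (nat_lit 336088) (nat_lit 9) (.e (nat_lit 336456) (nat_lit 34) (.e (nat_lit 483365) (nat_lit 18) (.e (nat_lit 57849) (nat_lit 252) (.e (nat_lit 57377) (nat_lit 3) .nil)))))) (.g (nat_lit 5) .nil .nil)))))) (.nd (nat_lit 3) (.nd (nat_lit 4) (.nd (nat_lit 5) 
(.lf (nat_lit 221317) (.g (nat_lit 2447) (.e (nat_lit 98313) (nat_lit 9) (.e (nat_lit 336088) (nat_lit 9) (.e (nat_lit 336019) (nat_lit 3) (.e (nat_lit 98355) (nat_lit 26) (.e (nat_lit 426446) (nat_lit 20) (.e (nat_lit 114718) (nat_lit 23) .nil)))))) (.g (nat_lit 5) .nil .nil))) 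
(.lf (nat_lit 221349) (.g (nat_lit 2801) (.e (nat_lit 98313) (nat_lit 9) (.e (nat_lit 336088) (nat_lit 9) (.e (nat_lit 336019) (nat_lit 3) (.e (nat_lit 98386) (nat_lit 32) (.e (nat_lit 475212) (nat_lit 42) (.e (nat_lit 720943) (nat_lit 23) .nil)))))) (.g (nat_lit 6) .nil .nil)))) (.nd (nat_lit 5) 
(.lf (nat_lit 221333) (.g (nat_lit 2193) (.e (nat_lit 98313) (nat_lit 9) (.e (nat_lit 336088) (nat_lit 9) (.e (nat_lit 336019) (nat_lit 3) (.e (nat_lit 98358) (nat_lit 26) (.e (nat_lit 433920) (nat_lit 20) .nil))))) .nil)) 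
(.lf (nat_lit 221365) (.g (nat_lit 3135) (.e (nat_lit 98313) (nat_lit 9) (.e (nat_lit 336088) (nat_lit 9) (.e (nat_lit 336454) (nat_lit 34) (.e (nat_lit 483366) (nat_lit 18) (.e (nat_lit 57849) (nat_lit 252) (.e (nat_lit 57377) (nat_lit 3) .nil)))))) (.g (nat_lit 6) .nil .nil))))) (.nd (nat_lit 4) (.nd (nat_lit 5) 
(.lf (nat_lit 221325) (.g (nat_lit 2396) (.e (nat_lit 98313) (nat_lit 9) (.e (nat_lit 336088) (nat_lit 9) (.e (nat_lit 336019) (nat_lit 3) (.e (nat_lit 98356) (nat_lit 26) (.e (nat_lit 433920) (nat_lit 20) (.e (nat_lit 114718) (nat_lit 23) .nil)))))) (.g (nat_lit 4) .nil .nil))) 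
(.lf (nat_lit 221357) (.g (nat_lit 472) (.e (nat_lit 98313) (nat_lit 9) (.e (nat_lit 336088) (nat_lit 9) (.e (nat_lit 336367) (nat_lit 27) .nil))) .nil))) (.nd (nat_lit 5) 
(.lf (nat_lit 221341) (.g (nat_lit 3011) (.e (nat_lit 98313) (nat_lit 9) (.e (nat_lit 336088) (nat_lit 9) (.e (nat_lit 336019) (nat_lit 3) (.e (nat_lit 98384) (nat_lit 32) (.e (nat_lit 475212) (nat_lit 42) (.e (nat_lit 720943) (nat_lit 23) .nil)))))) (.g (nat_lit 6) .nil .nil))) 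
(.lf (nat_lit 221373) (.g (nat_lit 1979) (.e (nat_lit 98313) (nat_lit 9) (.e (nat_lit 336155) (nat_lit 9) (.e (nat_lit 336021) (nat_lit 3) (.e (nat_lit 98385) (nat_lit 32) (.e (nat_lit 475214) (nat_lit 42) (.e (nat_lit 720943) (nat_lit 23) .nil)))))) (.g (nat_lit 4) .nil .nil))))))) (.nd (nat_lit 2) (.nd (nat_lit 3) (.nd (nat_lit 4) (.nd (nat_lit 5) 
(.lf (nat_lit 221315) (.g (nat_lit 2358) (.e (nat_lit 98313) (nat_lit 9) (.e (nat_lit 336088) (nat_lit 9) (.e (nat_lit 336019) (nat_lit 3) (.e (nat_lit 98354) (nat_lit 26) (.e (nat_lit 426448) (nat_lit 20) (.e (nat_lit 114718) (nat_lit 23) .nil)))))) (.g (nat_lit 4) .nil .nil))) 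
(.lf (nat_lit 221347) (.g (nat_lit 2090) (.e (nat_lit 98313) (nat_lit 9) (.e (nat_lit 336088) (nat_lit 9) (.e (nat_lit 336019) (nat_lit 3) (.e (nat_lit 98384) (nat_lit 32) (.e (nat_lit 483072) (nat_lit 42) .nil))))) .nil))) (.nd (nat_lit 5) 
(.lf (nat_lit 221331) (.g (nat_lit 3611) (.e (nat_lit 98313) (nat_lit 9) (.e (nat_lit 336088) (nat_lit 9) (.e (nat_lit 336019) (nat_lit 3) (.e (nat_lit 98358) (nat_lit 26) (.e (nat_lit 426448) (nat_lit 20) (.e (nat_lit 114718) (nat_lit 23) .nil)))))) (.g (nat_lit 0) .nil .nil))) 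
(.lf (nat_lit 221363) (.g (nat_lit 3546) (.e (nat_lit 98313) (nat_lit 9) (.e (nat_lit 336088) (nat_lit 9) (.e (nat_lit 336454) (nat_lit 34) (.e (nat_lit 483365) (nat_lit 18) (.e (nat_lit 57849) (nat_lit 252) (.e (nat_lit 57377) (nat_lit 3) .nil)))))) (.g (nat_lit 6) .nil .nil))))) (.nd (nat_lit 4) (.nd (nat_lit 5) 
(.lf (nat_lit 221323) (.g (nat_lit 2593) (.e (nat_lit 98313) (nat_lit 9) (.e (nat_lit 336088) (nat_lit 9) (.e (nat_lit 336019) (nat_lit 3) (.e (nat_lit 98356) (nat_lit 26) (.e (nat_lit 426448) (nat_lit 20) (.e (nat_lit 122624) (nat_lit 23) .nil)))))) (.g (nat_lit 5) .nil .nil))) 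
(.lf (nat_lit 221355) (.g (nat_lit 2103) (.e (nat_lit 98313) (nat_lit 9) (.e (nat_lit 336088) (nat_lit 9) (.e (nat_lit 336324) (nat_lit 18) (.e (nat_lit 204838) (nat_lit 20) (.e (nat_lit 114710) (nat_lit 21) (.e (nat_lit 57692) (nat_lit 156) (.e (nat_lit 171776) (nat_lit 64) .nil))))))) (.g (nat_lit 4) .nil .nil)))) (.nd (nat_lit 5) 
(.lf (nat_lit 221339) (.g (nat_lit 3178) (.e (nat_lit 98313) (nat_lit 9) (.e (nat_lit 336088) (nat_lit 9) (.e (nat_lit 336019) (nat_lit 3) (.e (nat_lit 98384) (nat_lit 32) (.e (nat_lit 475199) (nat_lit 40) (.e (nat_lit 704688) (nat_lit 9) (.e (nat_lit 1250) (nat_lit 92) .nil))))))) (.g (nat_lit 5) .nil .nil))) 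
(.lf (nat_lit 221371) (.g (nat_lit 2514) (.e (nat_lit 98313) (nat_lit 9) (.e (nat_lit 336088) (nat_lit 9) (.e (nat_lit 336456) (nat_lit 34) (.e (nat_lit 483365) (nat_lit 18) (.e (nat_lit 57852) (nat_lit 252) (.e (nat_lit 57378) (nat_lit 3) .nil)))))) (.g (nat_lit 4) .nil .nil)))))) (.nd (nat_lit 3) (.nd (nat_lit 4) (.nd (nat_lit 5) 
(.lf (nat_lit 221319) (.g (nat_lit 2013) (.e (nat_lit 98313) (nat_lit 9) (.e (nat_lit 336088) (nat_lit 9) (.e (nat_lit 336019) (nat_lit 3) (.e (nat_lit 98356) (nat_lit 26) (.e (nat_lit 426361) (nat_lit 15) .nil))))) .nil)) 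
(.lf (nat_lit 221351) (.g (nat_lit 2296) (.e (nat_lit 98313) (nat_lit 9) (.e (nat_lit 336088) (nat_lit 9) (.e (nat_lit 336019) (nat_lit 3) (.e (nat_lit 98386) (nat_lit 32) (.e (nat_lit 475213) (nat_lit 42) (.e (nat_lit 720943) (nat_lit 23) .nil)))))) (.g (nat_lit 4) .nil .nil)))) (.nd (nat_lit 5) 
(.lf (nat_lit 221335) (.g (nat_lit 1496) (.e (nat_lit 98313) (nat_lit 9) (.e (nat_lit 336088) (nat_lit 9) (.e (nat_lit 336019) (nat_lit 3) (.e (nat_lit 98377) (nat_lit 30) .nil)))) .nil)) 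
(.lf (nat_lit 221367) (.g (nat_lit 2584) (.e (nat_lit 98313) (nat_lit 9) (.e (nat_lit 336088) (nat_lit 9) (.e (nat_lit 336456) (nat_lit 34) (.e (nat_lit 483364) (nat_lit 18) (.e (nat_lit 57853) (nat_lit 252) (.e (nat_lit 57377) (nat_lit 3) .nil)))))) (.g (nat_lit 4) .nil .nil))))) (.nd (nat_lit 4) (.nd (nat_lit 5) 
(.lf (nat_lit 221327) (.g (nat_lit 2314) (.e (nat_lit 98313) (nat_lit 9) (.e (nat_lit 336088) (nat_lit 9) (.e (nat_lit 336019) (nat_lit 3) (.e (nat_lit 98358) (nat_lit 26) (.e (nat_lit 426354) (nat_lit 15) (.e (nat_lit 2198) (nat_lit 144) (.e (nat_lit 720945) (nat_lit 23) .nil))))))) (.g (nat_lit 4) .nil .nil))) 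
(.lf (nat_lit 221359) (.g (nat_lit 874) (.e (nat_lit 98313) (nat_lit 9) (.e (nat_lit 336088) (nat_lit 9) (.e (nat_lit 336370) (nat_lit 27) (.e (nat_lit 426501) (nat_lit 27) .nil)))) .nil))) (.nd (nat_lit 5) 
(.lf (nat_lit 221343) (.g (nat_lit 2148) (.e (nat_lit 98313) (nat_lit 9) (.e (nat_lit 336088) (nat_lit 9) (.e (nat_lit 336019) (nat_lit 3) (.e (nat_lit 98384) (nat_lit 32) (.e (nat_lit 475213) (nat_lit 42) .nil))))) .nil)) 
(.lf (nat_lit 221375) (.g (nat_lit 3124) (.e (nat_lit 98313) (nat_lit 9) (.e (nat_lit 336158) (nat_lit 9) (.e (nat_lit 336004) (nat_lit 2) (.e (nat_lit 90172) (nat_lit 14) (.e (nat_lit 180225) (nat_lit 0) (.e (nat_lit 5537) (nat_lit 306) (.e (nat_lit 1077) (nat_lit 81) (.e (nat_lit 1250) (nat_lit 92) .nil)))))))) (.g (nat_lit 5) .nil .nil)))))))))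

noncomputable def tv2907 : DT := (.nd (nat_lit 0) (.nd (nat_lit 1) (.nd (nat_lit 2) (.nd (nat_lit 3) (.nd (nat_lit 4) (.nd (nat_lit 5) 
(.lf (nat_lit 221376) (.g (nat_lit 1544) (.e (nat_lit 98313) (nat_lit 9) (.e (nat_lit 336158) (nat_lit 9) (.e (nat_lit 336004) (nat_lit 2) (.e (nat_lit 90185) (nat_lit 17) (.e (nat_lit 245504) (nat_lit 20) .nil))))) .nil)) 
(.lf (nat_lit 221408) (.g (nat_lit 2585) (.e (nat_lit 98313) (nat_lit 9) (.e (nat_lit 336184) (nat_lit 11) (.e (nat_lit 368676) (nat_lit 21) (.e (nat_lit 516179) (nat_lit 15) (.e (nat_lit 475214) (nat_lit 42) (.e (nat_lit 720944) (nat_lit 23) .nil)))))) (.g (nat_lit 0) .nil .nil)))) (.nd (nat_lit 5) 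
(.lf (nat_lit 221392) (.g (nat_lit 4626) (.e (nat_lit 98313) (nat_lit 9) (.e (nat_lit 336165) (nat_lit 10) (.e (nat_lit 344117) (nat_lit 21) (.e (nat_lit 516145) (nat_lit 9) (.e (nat_lit 426448) (nat_lit 20) (.e (nat_lit 114719) (nat_lit 23) .nil)))))) (.g (nat_lit 0) .nil .nil))) 
(.lf (nat_lit 221424) (.g (nat_lit 1416) (.e (nat_lit 98313) (nat_lit 9) (.e (nat_lit 336186) (nat_lit 11) (.e (nat_lit 368676) (nat_lit 21) (.e (nat_lit 516169) (nat_lit 13) (.e (nat_lit 458772) (nat_lit 18) .nil))))) .nil)))) (.nd (nat_lit 4) (.nd (nat_lit 5) 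
(.lf (nat_lit 221384) (.g (nat_lit 2693) (.e (nat_lit 98313) (nat_lit 9) (.e (nat_lit 336158) (nat_lit 9) (.e (nat_lit 336021) (nat_lit 3) (.e (nat_lit 98385) (nat_lit 32) (.e (nat_lit 475214) (nat_lit 42) (.e (nat_lit 720943) (nat_lit 23) .nil)))))) (.g (nat_lit 0) .nil .nil))) 
(.lf (nat_lit 221416) (.g (nat_lit 2422) (.e (nat_lit 98313) (nat_lit 9) (.e (nat_lit 336186) (nat_lit 11) (.e (nat_lit 368676) (nat_lit 21) (.e (nat_lit 516145) (nat_lit 9) (.e (nat_lit 426446) (nat_lit 20) (.e (nat_lit 114719) (nat_lit 23) .nil)))))) (.g (nat_lit 5) .nil .nil)))) (.nd (nat_lit 5) 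
(.lf (nat_lit 221400) (.g (nat_lit 1660) (.e (nat_lit 98313) (nat_lit 9) (.e (nat_lit 336184) (nat_lit 11) (.e (nat_lit 368676) (nat_lit 21) (.e (nat_lit 516146) (nat_lit 9) (.e (nat_lit 433920) (nat_lit 20) (.e (nat_lit 114718) (nat_lit 23) .nil)))))) (.g (nat_lit 4) .nil .nil))) 
(.lf (nat_lit 221432) (.g (nat_lit 2816) (.e (nat_lit 98313) (nat_lit 9) (.e (nat_lit 336186) (nat_lit 11) (.e (nat_lit 368676) (nat_lit 21) (.e (nat_lit 516179) (nat_lit 15) (.e (nat_lit 475214) (nat_lit 42) (.e (nat_lit 720943) (nat_lit 23) .nil)))))) (.g (nat_lit 0) .nil .nil)))))) (.nd (nat_lit 3) (.nd (nat_lit 4) (.nd (nat_lit 5) 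
(.lf (nat_lit 221380) (.g (nat_lit 3077) (.e (nat_lit 98313) (nat_lit 9) (.e (nat_lit 336158) (nat_lit 9) (.e (nat_lit 336021) (nat_lit 3) (.e (nat_lit 98357) (nat_lit 26) (.e (nat_lit 426448) (nat_lit 20) (.e (nat_lit 114719) (nat_lit 23) .nil)))))) (.g (nat_lit 0) .nil .nil))) 
(.lf (nat_lit 221412) (.g (nat_lit 1260) (.e (nat_lit 98313) (nat_lit 9) (.e (nat_lit 336184) (nat_lit 11) (.e (nat_lit 368676) (nat_lit 21) (.e (nat_lit 516182) (nat_lit 15) (.e (nat_lit 475212) (nat_lit 42) (.e (nat_lit 720945) (nat_lit 23) .nil)))))) (.g (nat_lit 4) .nil .nil)))) (.nd (nat_lit 5) 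
(.lf (nat_lit 221396) (.g (nat_lit 3961) (.e (nat_lit 98313) (nat_lit 9) (.e (nat_lit 336184) (nat_lit 11) (.e (nat_lit 368676) (nat_lit 21) (.e (nat_lit 516145) (nat_lit 9) (.e (nat_lit 426448) (nat_lit 20) (.e (nat_lit 114718) (nat_lit 23) .nil)))))) (.g (nat_lit 6) .nil .nil))) 
(.lf (nat_lit 221428) (.g (nat_lit 1328) (.e (nat_lit 98313) (nat_lit 9) (.e (nat_lit 336186) (nat_lit 11) (.e (nat_lit 368676) (nat_lit 21) (.e (nat_lit 516179) (nat_lit 15) (.e (nat_lit 475201) (nat_lit 40) .nil))))) .nil)))) (.nd (nat_lit 4) (.nd (nat_lit 5) 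
(.lf (nat_lit 221388) (.g (nat_lit 2293) (.e (nat_lit 98313) (nat_lit 9) (.e (nat_lit 336163) (nat_lit 10) (.e (nat_lit 344117) (nat_lit 21) (.e (nat_lit 516147) (nat_lit 9) (.e (nat_lit 426448) (nat_lit 20) (.e (nat_lit 114718) (nat_lit 23) .nil)))))) (.g (nat_lit 4) .nil .nil))) 
(.lf (nat_lit 221420) (.g (nat_lit 1919) (.e (nat_lit 98313) (nat_lit 9) (.e (nat_lit 336186) (nat_lit 11) (.e (nat_lit 368676) (nat_lit 21) (.e (nat_lit 516146) (nat_lit 9) (.e (nat_lit 426448) (nat_lit 20) (.e (nat_lit 122624) (nat_lit 23) .nil)))))) (.g (nat_lit 4) .nil .nil)))) (.nd (nat_lit 5) 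
(.lf (nat_lit 221404) (.g (nat_lit 2228) (.e (nat_lit 98313) (nat_lit 9) (.e (nat_lit 336184) (nat_lit 11) (.e (nat_lit 368676) (nat_lit 21) (.e (nat_lit 516179) (nat_lit 15) (.e (nat_lit 475199) (nat_lit 40) (.e (nat_lit 704688) (nat_lit 9) (.e (nat_lit 1250) (nat_lit 92) .nil))))))) (.g (nat_lit 5) .nil .nil))) 
(.lf (nat_lit 221436) (.g (nat_lit 1488) (.e (nat_lit 98313) (nat_lit 9) (.e (nat_lit 336186) (nat_lit 11) (.e (nat_lit 368676) (nat_lit 21) (.e (nat_lit 516180) (nat_lit 15) (.e (nat_lit 475212) (nat_lit 42) (.e (nat_lit 720945) (nat_lit 23) .nil)))))) (.g (nat_lit 4) .nil .nil))))))) (.nd (nat_lit 2) (.nd (nat_lit 3) (.nd (nat_lit 4) (.nd (nat_lit 5) 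
(.lf (nat_lit 221378) (.g (nat_lit 2616) (.e (nat_lit 98313) (nat_lit 9) (.e (nat_lit 336158) (nat_lit 9) (.e (nat_lit 336021) (nat_lit 3) (.e (nat_lit 98356) (nat_lit 26) (.e (nat_lit 426448) (nat_lit 20) .nil))))) .nil)) 
(.lf (nat_lit 221410) (.g (nat_lit 1876) (.e (nat_lit 98313) (nat_lit 9) (.e (nat_lit 336184) (nat_lit 11) (.e (nat_lit 368676) (nat_lit 21) (.e (nat_lit 516180) (nat_lit 15) (.e (nat_lit 475212) (nat_lit 42) (.e (nat_lit 720943) (nat_lit 23) .nil)))))) (.g (nat_lit 6) .nil .nil)))) (.nd (nat_lit 5) 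
(.lf (nat_lit 221394) (.g (nat_lit 2601) (.e (nat_lit 98313) (nat_lit 9) (.e (nat_lit 336165) (nat_lit 10) (.e (nat_lit 344117) (nat_lit 21) (.e (nat_lit 516151) (nat_lit 9) (.e (nat_lit 433920) (nat_lit 20) (.e (nat_lit 114719) (nat_lit 23) .nil)))))) (.g (nat_lit 4) .nil .nil))) 
(.lf (nat_lit 221426) (.g (nat_lit 2456) (.e (nat_lit 98313) (nat_lit 9) (.e (nat_lit 336186) (nat_lit 11) (.e (nat_lit 368676) (nat_lit 21) (.e (nat_lit 516179) (nat_lit 15) (.e (nat_lit 475199) (nat_lit 40) (.e (nat_lit 704688) (nat_lit 9) (.e (nat_lit 1250) (nat_lit 92) .nil))))))) (.g (nat_lit 5) .nil .nil))))) (.nd (nat_lit 4) (.nd (nat_lit 5) 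
(.lf (nat_lit 221386) (.g (nat_lit 4214) (.e (nat_lit 98313) (nat_lit 9) (.e (nat_lit 336163) (nat_lit 10) (.e (nat_lit 344117) (nat_lit 21) (.e (nat_lit 516145) (nat_lit 9) (.e (nat_lit 426448) (nat_lit 20) (.e (nat_lit 114719) (nat_lit 23) .nil)))))) (.g (nat_lit 5) .nil .nil))) 
(.lf (nat_lit 221418) (.g (nat_lit 4260) (.e (nat_lit 98313) (nat_lit 9) (.e (nat_lit 336186) (nat_lit 11) (.e (nat_lit 368676) (nat_lit 21) (.e (nat_lit 516145) (nat_lit 9) (.e (nat_lit 426448) (nat_lit 20) (.e (nat_lit 114719) (nat_lit 23) .nil)))))) (.g (nat_lit 6) .nil .nil)))) (.nd (nat_lit 5) 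
(.lf (nat_lit 221402) (.g (nat_lit 1616) (.e (nat_lit 98313) (nat_lit 9) (.e (nat_lit 336184) (nat_lit 11) (.e (nat_lit 368676) (nat_lit 21) (.e (nat_lit 516150) (nat_lit 9) (.e (nat_lit 426446) (nat_lit 20) (.e (nat_lit 114718) (nat_lit 23) .nil)))))) (.g (nat_lit 4) .nil .nil))) 
(.lf (nat_lit 221434) (.g (nat_lit 1679) (.e (nat_lit 98313) (nat_lit 9) (.e (nat_lit 336186) (nat_lit 11) (.e (nat_lit 368676) (nat_lit 21) (.e (nat_lit 516179) (nat_lit 15) (.e (nat_lit 475214) (nat_lit 42) (.e (nat_lit 728832) (nat_lit 23) .nil)))))) (.g (nat_lit 4) .nil .nil)))))) (.nd (nat_lit 3) (.nd (nat_lit 4) (.nd (nat_lit 5) 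
(.lf (nat_lit 221382) (.g (nat_lit 2437) (.e (nat_lit 98313) (nat_lit 9) (.e (nat_lit 336158) (nat_lit 9) (.e (nat_lit 336021) (nat_lit 3) (.e (nat_lit 98385) (nat_lit 32) (.e (nat_lit 475212) (nat_lit 42) (.e (nat_lit 720943) (nat_lit 23) .nil)))))) (.g (nat_lit 6) .nil .nil))) 
(.lf (nat_lit 221414) (.g (nat_lit 935) (.e (nat_lit 98313) (nat_lit 9) (.e (nat_lit 336186) (nat_lit 11) (.e (nat_lit 368667) (nat_lit 19) (.e (nat_lit 499919) (nat_lit 9) (.e (nat_lit 179968) (nat_lit 20) .nil))))) .nil))) (.nd (nat_lit 5) 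
(.lf (nat_lit 221398) (.g (nat_lit 1786) (.e (nat_lit 98313) (nat_lit 9) (.e (nat_lit 336184) (nat_lit 11) (.e (nat_lit 368676) (nat_lit 21) (.e (nat_lit 516146) (nat_lit 9) (.e (nat_lit 426448) (nat_lit 20) (.e (nat_lit 122624) (nat_lit 23) .nil)))))) (.g (nat_lit 4) .nil .nil))) 
(.lf (nat_lit 221430) (.g (nat_lit 2415) (.e (nat_lit 98313) (nat_lit 9) (.e (nat_lit 336186) (nat_lit 11) (.e (nat_lit 368676) (nat_lit 21) (.e (nat_lit 516179) (nat_lit 15) (.e (nat_lit 475212) (nat_lit 42) (.e (nat_lit 720943) (nat_lit 23) .nil)))))) (.g (nat_lit 6) .nil .nil))))) (.nd (nat_lit 4) (.nd (nat_lit 5) 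
(.lf (nat_lit 221390) (.g (nat_lit 2063) (.e (nat_lit 98313) (nat_lit 9) (.e (nat_lit 336163) (nat_lit 10) (.e (nat_lit 344117) (nat_lit 21) (.e (nat_lit 516151) (nat_lit 9) (.e (nat_lit 433920) (nat_lit 20) .nil))))) .nil)) 
(.lf (nat_lit 221422) (.g (nat_lit 1743) (.e (nat_lit 98313) (nat_lit 9) (.e (nat_lit 336186) (nat_lit 11) (.e (nat_lit 368676) (nat_lit 21) (.e (nat_lit 516146) (nat_lit 9) (.e (nat_lit 433920) (nat_lit 20) (.e (nat_lit 114718) (nat_lit 23) .nil)))))) (.g (nat_lit 4) .nil .nil)))) (.nd (nat_lit 5) 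
(.lf (nat_lit 221406) (.g (nat_lit 2297) (.e (nat_lit 98313) (nat_lit 9) (.e (nat_lit 336184) (nat_lit 11) (.e (nat_lit 368676) (nat_lit 21) (.e (nat_lit 516179) (nat_lit 15) (.e (nat_lit 475212) (nat_lit 42) (.e (nat_lit 720943) (nat_lit 23) .nil)))))) (.g (nat_lit 6) .nil .nil))) 
(.lf (nat_lit 221438) (.g (nat_lit 1608) (.e (nat_lit 98313) (nat_lit 9) (.e (nat_lit 336186) (nat_lit 11) (.e (nat_lit 368676) (nat_lit 21) (.e (nat_lit 516182) (nat_lit 15) (.e (nat_lit 475212) (nat_lit 42) (.e (nat_lit 720943) (nat_lit 23) .nil)))))) (.g (nat_lit 5) .nil .nil)))))))) (.nd (nat_lit 1) (.nd (nat_lit 2) (.nd (nat_lit 3) (.nd (nat_lit 4) (.nd (nat_lit 5) 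
(.lf (nat_lit 221377) (.g (nat_lit 2516) (.e (nat_lit 98313) (nat_lit 9) (.e (nat_lit 336158) (nat_lit 9) (.e (nat_lit 336012) (nat_lit 2) (.e (nat_lit 90172) (nat_lit 14) (.e (nat_lit 180225) (nat_lit 0) (.e (nat_lit 5537) (nat_lit 306) (.e (nat_lit 1077) (nat_lit 81) (.e (nat_lit 1250) (nat_lit 92) .nil)))))))) (.g (nat_lit 4) .nil .nil))) 
(.lf (nat_lit 221409) (.g (nat_lit 1547) (.e (nat_lit 98313) (nat_lit 9) (.e (nat_lit 336184) (nat_lit 11) (.e (nat_lit 368676) (nat_lit 21) (.e (nat_lit 516179) (nat_lit 15) (.e (nat_lit 475214) (nat_lit 42) (.e (nat_lit 728832) (nat_lit 23) .nil)))))) (.g (nat_lit 4) .nil .nil)))) (.nd (nat_lit 5) 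
(.lf (nat_lit 221393) (.g (nat_lit 2566) (.e (nat_lit 98313) (nat_lit 9) (.e (nat_lit 336165) (nat_lit 10) (.e (nat_lit 344117) (nat_lit 21) (.e (nat_lit 516151) (nat_lit 9) (.e (nat_lit 433920) (nat_lit 20) (.e (nat_lit 114718) (nat_lit 23) .nil)))))) (.g (nat_lit 4) .nil .nil))) 
(.lf (nat_lit 221425) (.g (nat_lit 2490) (.e (nat_lit 98313) (nat_lit 9) (.e (nat_lit 336186) (nat_lit 11) (.e (nat_lit 368676) (nat_lit 21) (.e (nat_lit 516179) (nat_lit 15) (.e (nat_lit 475199) (nat_lit 40) (.e (nat_lit 704614) (nat_lit 9) (.e (nat_lit 1250) (nat_lit 92) .nil))))))) (.g (nat_lit 5) .nil .nil))))) (.nd (nat_lit 4) (.nd (nat_lit 5) 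
(.lf (nat_lit 221385) (.g (nat_lit 2867) (.e (nat_lit 98313) (nat_lit 9) (.e (nat_lit 336163) (nat_lit 10) (.e (nat_lit 344117) (nat_lit 21) (.e (nat_lit 516145) (nat_lit 9) (.e (nat_lit 426446) (nat_lit 20) .nil))))) .nil)) 
(.lf (nat_lit 221417) (.g (nat_lit 4001) (.e (nat_lit 98313) (nat_lit 9) (.e (nat_lit 336186) (nat_lit 11) (.e (nat_lit 368676) (nat_lit 21) (.e (nat_lit 516145) (nat_lit 9) (.e (nat_lit 426448) (nat_lit 20) (.e (nat_lit 114718) (nat_lit 23) .nil)))))) (.g (nat_lit 6) .nil .nil)))) (.nd (nat_lit 5) 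
(.lf (nat_lit 221401) (.g (nat_lit 2825) (.e (nat_lit 98313) (nat_lit 9) (.e (nat_lit 336184) (nat_lit 11) (.e (nat_lit 368676) (nat_lit 21) (.e (nat_lit 516149) (nat_lit 9) (.e (nat_lit 426448) (nat_lit 20) (.e (nat_lit 114719) (nat_lit 23) .nil)))))) (.g (nat_lit 0) .nil .nil))) 
(.lf (nat_lit 221433) (.g (nat_lit 2713) (.e (nat_lit 98313) (nat_lit 9) (.e (nat_lit 336186) (nat_lit 11) (.e (nat_lit 368676) (nat_lit 21) (.e (nat_lit 516179) (nat_lit 15) (.e (nat_lit 475214) (nat_lit 42) (.e (nat_lit 720944) (nat_lit 23) .nil)))))) (.g (nat_lit 0) .nil .nil)))))) (.nd (nat_lit 3) (.nd (nat_lit 4) (.nd (nat_lit 5) 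
(.lf (nat_lit 221381) (.g (nat_lit 1652) (.e (nat_lit 98313) (nat_lit 9) (.e (nat_lit 336158) (nat_lit 9) (.e (nat_lit 336021) (nat_lit 3) (.e (nat_lit 98363) (nat_lit 26) .nil)))) .nil)) 
(.lf (nat_lit 221413) (.g (nat_lit 1821) (.e (nat_lit 98313) (nat_lit 9) (.e (nat_lit 336184) (nat_lit 11) (.e (nat_lit 368676) (nat_lit 21) (.e (nat_lit 516182) (nat_lit 15) (.e (nat_lit 475214) (nat_lit 42) (.e (nat_lit 720944) (nat_lit 23) .nil)))))) (.g (nat_lit 6) .nil .nil)))) (.nd (nat_lit 5) 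
(.lf (nat_lit 221397) (.g (nat_lit 4223) (.e (nat_lit 98313) (nat_lit 9) (.e (nat_lit 336184) (nat_lit 11) (.e (nat_lit 368676) (nat_lit 21) (.e (nat_lit 516145) (nat_lit 9) (.e (nat_lit 426448) (nat_lit 20) (.e (nat_lit 114719) (nat_lit 23) .nil)))))) (.g (nat_lit 6) .nil .nil))) 
(.lf (nat_lit 221429) (.g (nat_lit 1627) (.e (nat_lit 98313) (nat_lit 9) (.e (nat_lit 336186) (nat_lit 11) (.e (nat_lit 368676) (nat_lit 21) (.e (nat_lit 516179) (nat_lit 15) (.e (nat_lit 475205) (nat_lit 40) .nil))))) .nil)))) (.nd (nat_lit 4) (.nd (nat_lit 5) 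
(.lf (nat_lit 221389) (.g (nat_lit 2283) (.e (nat_lit 98313) (nat_lit 9) (.e (nat_lit 336163) (nat_lit 10) (.e (nat_lit 344117) (nat_lit 21) (.e (nat_lit 516147) (nat_lit 9) (.e (nat_lit 426448) (nat_lit 20) (.e (nat_lit 114719) (nat_lit 23) .nil)))))) (.g (nat_lit 4) .nil .nil))) 
(.lf (nat_lit 221421) (.g (nat_lit 1572) (.e (nat_lit 98313) (nat_lit 9) (.e (nat_lit 336186) (nat_lit 11) (.e (nat_lit 368676) (nat_lit 21) (.e (nat_lit 516146) (nat_lit 9) (.e (nat_lit 433920) (nat_lit 20) .nil))))) .nil))) (.nd (nat_lit 5) 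
(.lf (nat_lit 221405) (.g (nat_lit 2381) (.e (nat_lit 98313) (nat_lit 9) (.e (nat_lit 336184) (nat_lit 11) (.e (nat_lit 368676) (nat_lit 21) (.e (nat_lit 516179) (nat_lit 15) (.e (nat_lit 475199) (nat_lit 40) (.e (nat_lit 704700) (nat_lit 9) (.e (nat_lit 1250) (nat_lit 92) .nil))))))) (.g (nat_lit 5) .nil .nil))) 
(.lf (nat_lit 221437) (.g (nat_lit 2212) (.e (nat_lit 98313) (nat_lit 9) (.e (nat_lit 336186) (nat_lit 11) (.e (nat_lit 368676) (nat_lit 21) (.e (nat_lit 516180) (nat_lit 15) (.e (nat_lit 475214) (nat_lit 42) (.e (nat_lit 720943) (nat_lit 23) .nil)))))) (.g (nat_lit 0) .nil .nil))))))) (.nd (nat_lit 2) (.nd (nat_lit 3) (.nd (nat_lit 4) (.nd (nat_lit 5) 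
(.lf (nat_lit 221379) (.g (nat_lit 3068) (.e (nat_lit 98313) (nat_lit 9) (.e (nat_lit 336158) (nat_lit 9) (.e (nat_lit 336021) (nat_lit 3) (.e (nat_lit 98357) (nat_lit 26) (.e (nat_lit 426448) (nat_lit 20) (.e (nat_lit 114718) (nat_lit 23) .nil)))))) (.g (nat_lit 0) .nil .nil))) 
(.lf (nat_lit 221411) (.g (nat_lit 1283) (.e (nat_lit 98313) (nat_lit 9) (.e (nat_lit 336184) (nat_lit 11) (.e (nat_lit 368676) (nat_lit 21) (.e (nat_lit 516180) (nat_lit 15) (.e (nat_lit 475212) (nat_lit 42) (.e (nat_lit 720945) (nat_lit 23) .nil)))))) (.g (nat_lit 4) .nil .nil)))) (.nd (nat_lit 5) 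
(.lf (nat_lit 221395) (.g (nat_lit 1826) (.e (nat_lit 98313) (nat_lit 9) (.e (nat_lit 336165) (nat_lit 10) (.e (nat_lit 344117) (nat_lit 21) (.e (nat_lit 516180) (nat_lit 15) (.e (nat_lit 475212) (nat_lit 42) (.e (nat_lit 720943) (nat_lit 23) .nil)))))) (.g (nat_lit 4) .nil .nil))) 
(.lf (nat_lit 221427) (.g (nat_lit 2609) (.e (nat_lit 98313) (nat_lit 9) (.e (nat_lit 336186) (nat_lit 11) (.e (nat_lit 368676) (nat_lit 21) (.e (nat_lit 516179) (nat_lit 15) (.e (nat_lit 475199) (nat_lit 40) (.e (nat_lit 704700) (nat_lit 9) (.e (nat_lit 1250) (nat_lit 92) .nil))))))) (.g (nat_lit 5) .nil .nil))))) (.nd (nat_lit 4) (.nd (nat_lit 5) 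
(.lf (nat_lit 221387) (.g (nat_lit 1659) (.e (nat_lit 98313) (nat_lit 9) (.e (nat_lit 336163) (nat_lit 10) (.e (nat_lit 344117) (nat_lit 21) (.e (nat_lit 516147) (nat_lit 9) (.e (nat_lit 426446) (nat_lit 20) .nil))))) .nil)) 
(.lf (nat_lit 221419) (.g (nat_lit 2138) (.e (nat_lit 98313) (nat_lit 9) (.e (nat_lit 336186) (nat_lit 11) (.e (nat_lit 368676) (nat_lit 21) (.e (nat_lit 516146) (nat_lit 9) (.e (nat_lit 426446) (nat_lit 20) (.e (nat_lit 114718) (nat_lit 23) .nil)))))) (.g (nat_lit 5) .nil .nil)))) (.nd (nat_lit 5) 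
(.lf (nat_lit 221403) (.g (nat_lit 2262) (.e (nat_lit 98313) (nat_lit 9) (.e (nat_lit 336184) (nat_lit 11) (.e (nat_lit 368676) (nat_lit 21) (.e (nat_lit 516179) (nat_lit 15) (.e (nat_lit 475199) (nat_lit 40) (.e (nat_lit 704614) (nat_lit 9) (.e (nat_lit 1250) (nat_lit 92) .nil))))))) (.g (nat_lit 5) .nil .nil))) 
(.lf (nat_lit 221435) (.g (nat_lit 1956) (.e (nat_lit 98313) (nat_lit 9) (.e (nat_lit 336186) (nat_lit 11) (.e (nat_lit 368676) (nat_lit 21) (.e (nat_lit 516180) (nat_lit 15) (.e (nat_lit 475212) (nat_lit 42) (.e (nat_lit 720943) (nat_lit 23) .nil)))))) (.g (nat_lit 6) .nil .nil)))))) (.nd (nat_lit 3) (.nd (nat_lit 4) (.nd (nat_lit 5) 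
(.lf (nat_lit 221383) (.g (nat_lit 1679) (.e (nat_lit 98313) (nat_lit 9) (.e (nat_lit 336158) (nat_lit 9) (.e (nat_lit 336021) (nat_lit 3) (.e (nat_lit 98385) (nat_lit 32) (.e (nat_lit 475212) (nat_lit 42) (.e (nat_lit 720945) (nat_lit 23) .nil)))))) (.g (nat_lit 4) .nil .nil))) 
(.lf (nat_lit 221415) (.g (nat_lit 2771) (.e (nat_lit 98313) (nat_lit 9) (.e (nat_lit 336186) (nat_lit 11) (.e (nat_lit 368676) (nat_lit 21) (.e (nat_lit 516144) (nat_lit 9) (.e (nat_lit 426448) (nat_lit 20) (.e (nat_lit 114719) (nat_lit 23) .nil)))))) (.g (nat_lit 6) .nil .nil)))) (.nd (nat_lit 5) 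
(.lf (nat_lit 221399) (.g (nat_lit 1476) (.e (nat_lit 98313) (nat_lit 9) (.e (nat_lit 336184) (nat_lit 11) (.e (nat_lit 368676) (nat_lit 21) (.e (nat_lit 516146) (nat_lit 9) (.e (nat_lit 433920) (nat_lit 20) .nil))))) .nil)) 
(.lf (nat_lit 221431) (.g (nat_lit 1957) (.e (nat_lit 98313) (nat_lit 9) (.e (nat_lit 336186) (nat_lit 11) (.e (nat_lit 368676) (nat_lit 21) (.e (nat_lit 516179) (nat_lit 15) (.e (nat_lit 475212) (nat_lit 42) (.e (nat_lit 720945) (nat_lit 23) .nil)))))) (.g (nat_lit 5) .nil .nil))))) (.nd (nat_lit 4) (.nd (nat_lit 5) 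
(.lf (nat_lit 221391) (.g (nat_lit 4453) (.e (nat_lit 98313) (nat_lit 9) (.e (nat_lit 336165) (nat_lit 10) (.e (nat_lit 344117) (nat_lit 21) (.e (nat_lit 516145) (nat_lit 9) (.e (nat_lit 426448) (nat_lit 20) (.e (nat_lit 114718) (nat_lit 23) .nil)))))) (.g (nat_lit 6) .nil .nil))) 
(.lf (nat_lit 221423) (.g (nat_lit 1660) (.e (nat_lit 98313) (nat_lit 9) (.e (nat_lit 336186) (nat_lit 11) (.e (nat_lit 368676) (nat_lit 21) (.e (nat_lit 516150) (nat_lit 9) (.e (nat_lit 426446) (nat_lit 20) (.e (nat_lit 114718) (nat_lit 23) .nil)))))) (.g (nat_lit 4) .nil .nil)))) (.nd (nat_lit 5) 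
(.lf (nat_lit 221407) (.g (nat_lit 1714) (.e (nat_lit 98313) (nat_lit 9) (.e (nat_lit 336184) (nat_lit 11) (.e (nat_lit 368676) (nat_lit 21) (.e (nat_lit 516179) (nat_lit 15) (.e (nat_lit 475212) (nat_lit 42) (.e (nat_lit 720945) (nat_lit 23) .nil)))))) (.g (nat_lit 5) .nil .nil))) 
(.lf (nat_lit 221439) (.g (nat_lit 1468) (.e (nat_lit 98313) (nat_lit 9) (.e (nat_lit 336186) (nat_lit 11) (.e (nat_lit 368676) (nat_lit 21) (.e (nat_lit 516182) (nat_lit 15) (.e (nat_lit 475212) (nat_lit 42) (.e (nat_lit 720945) (nat_lit 23) .nil)))))) (.g (nat_lit 4) .nil .nil)))))))))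

noncomputable def tv2908 : DT := (.nd (nat_lit 0) (.nd (nat_lit 1) (.nd (nat_lit 2) (.nd (nat_lit 3) (.nd (nat_lit 4) (.nd (nat_lit 5) 
(.lf (nat_lit 221440) (.g (nat_lit 1953) (.e (nat_lit 98313) (nat_lit 9) (.e (nat_lit 336186) (nat_lit 11) (.e (nat_lit 368676) (nat_lit 21) (.e (nat_lit 516182) (nat_lit 15) (.e (nat_lit 475214) (nat_lit 42) (.e (nat_lit 720944) (nat_lit 23) .nil)))))) (.g (nat_lit 6) .nil .nil))) 
(.lf (nat_lit 221472) (.g (nat_lit 3427) (.e (nat_lit 98313) (nat_lit 9) (.e (nat_lit 336213) (nat_lit 13) (.e (nat_lit 393229) (nat_lit 9) (.e (nat_lit 335995) (nat_lit 1) (.e (nat_lit 57849) (nat_lit 252) (.e (nat_lit 57377) (nat_lit 3) .nil)))))) (.g (nat_lit 6) .nil .nil)))) (.nd (nat_lit 5) 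
(.lf (nat_lit 221456) (.g (nat_lit 3032) (.e (nat_lit 98313) (nat_lit 9) (.e (nat_lit 336212) (nat_lit 13) (.e (nat_lit 393225) (nat_lit 9) (.e (nat_lit 335988) (nat_lit 1) (.e (nat_lit 57854) (nat_lit 252) (.e (nat_lit 57378) (nat_lit 3) .nil)))))) (.g (nat_lit 6) .nil .nil))) 
(.lf (nat_lit 221488) (.g (nat_lit 2779) (.e (nat_lit 98313) (nat_lit 9) (.e (nat_lit 336222) (nat_lit 13) (.e (nat_lit 393224) (nat_lit 9) (.e (nat_lit 335995) (nat_lit 1) (.e (nat_lit 57847) (nat_lit 252) (.e (nat_lit 57377) (nat_lit 3) .nil)))))) (.g (nat_lit 5) .nil .nil))))) (.nd (nat_lit 4) (.nd (nat_lit 5) 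
(.lf (nat_lit 221448) (.g (nat_lit 2094) (.e (nat_lit 98313) (nat_lit 9) (.e (nat_lit 336204) (nat_lit 12) (.e (nat_lit 385074) (nat_lit 31) (.e (nat_lit 573482) (nat_lit 13) (.e (nat_lit 65645) (nat_lit 23) .nil))))) .nil)) 
(.lf (nat_lit 221480) (.g (nat_lit 2269) (.e (nat_lit 98313) (nat_lit 9) (.e (nat_lit 336215) (nat_lit 13) (.e (nat_lit 393229) (nat_lit 9) (.e (nat_lit 335986) (nat_lit 1) (.e (nat_lit 57854) (nat_lit 252) .nil))))) .nil))) (.nd (nat_lit 5) 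
(.lf (nat_lit 221464) (.g (nat_lit 1876) (.e (nat_lit 98313) (nat_lit 9) (.e (nat_lit 336213) (nat_lit 13) (.e (nat_lit 393229) (nat_lit 9) (.e (nat_lit 335917) (nat_lit 0) .nil)))) .nil)) 
(.lf (nat_lit 221496) (.g (nat_lit 3427) (.e (nat_lit 98313) (nat_lit 9) (.e (nat_lit 336222) (nat_lit 13) (.e (nat_lit 393229) (nat_lit 9) (.e (nat_lit 335995) (nat_lit 1) (.e (nat_lit 57849) (nat_lit 252) (.e (nat_lit 57377) (nat_lit 3) .nil)))))) (.g (nat_lit 6) .nil .nil)))))) (.nd (nat_lit 3) (.nd (nat_lit 4) (.nd (nat_lit 5) 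
(.lf (nat_lit 221444) (.g (nat_lit 1686) (.e (nat_lit 98313) (nat_lit 9) (.e (nat_lit 336204) (nat_lit 12) (.e (nat_lit 385066) (nat_lit 26) (.e (nat_lit 532515) (nat_lit 3) .nil)))) .nil)) 
(.lf (nat_lit 221476) (.g (nat_lit 1180) (.e (nat_lit 98313) (nat_lit 9) (.e (nat_lit 336214) (nat_lit 13) (.e (nat_lit 393229) (nat_lit 9) (.e (nat_lit 335993) (nat_lit 1) .nil)))) .nil))) (.nd (nat_lit 5) 
(.lf (nat_lit 221460) (.g (nat_lit 2576) (.e (nat_lit 98313) (nat_lit 9) (.e (nat_lit 336213) (nat_lit 13) (.e (nat_lit 393225) (nat_lit 9) (.e (nat_lit 335995) (nat_lit 1) (.e (nat_lit 57846) (nat_lit 252) .nil))))) .nil)) 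
(.lf (nat_lit 221492) (.g (nat_lit 2285) (.e (nat_lit 98313) (nat_lit 9) (.e (nat_lit 336222) (nat_lit 13) (.e (nat_lit 393228) (nat_lit 9) (.e (nat_lit 335988) (nat_lit 1) (.e (nat_lit 57854) (nat_lit 252) (.e (nat_lit 57377) (nat_lit 3) .nil)))))) (.g (nat_lit 4) .nil .nil))))) (.nd (nat_lit 4) (.nd (nat_lit 5) 
(.lf (nat_lit 221452) (.g (nat_lit 1427) (.e (nat_lit 98313) (nat_lit 9) (.e (nat_lit 336204) (nat_lit 12) (.e (nat_lit 385074) (nat_lit 31) (.e (nat_lit 573482) (nat_lit 13) (.e (nat_lit 73472) (nat_lit 23) .nil))))) .nil)) 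
(.lf (nat_lit 221484) (.g (nat_lit 1461) (.e (nat_lit 98313) (nat_lit 9) (.e (nat_lit 336215) (nat_lit 13) (.e (nat_lit 401152) (nat_lit 9) (.e (nat_lit 336336) (nat_lit 20) (.e (nat_lit 229120) (nat_lit 3) .nil))))) (.g (nat_lit 4) .nil .nil)))) (.nd (nat_lit 5) 
(.lf (nat_lit 221468) (.g (nat_lit 2289) (.e (nat_lit 98313) (nat_lit 9) (.e (nat_lit 336213) (nat_lit 13) (.e (nat_lit 393229) (nat_lit 9) (.e (nat_lit 335993) (nat_lit 1) (.e (nat_lit 57854) (nat_lit 252) (.e (nat_lit 57377) (nat_lit 3) .nil)))))) (.g (nat_lit 5) .nil .nil))) 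
(.lf (nat_lit 221500) (.g (nat_lit 1636) (.e (nat_lit 98313) (nat_lit 9) (.e (nat_lit 336223) (nat_lit 13) (.e (nat_lit 393219) (nat_lit 0) .nil))) .nil)))))) (.nd (nat_lit 2) (.nd (nat_lit 3) (.nd (nat_lit 4) (.nd (nat_lit 5) 
(.lf (nat_lit 221442) (.g (nat_lit 3157) (.e (nat_lit 98313) (nat_lit 9) (.e (nat_lit 336194) (nat_lit 12) (.e (nat_lit 385066) (nat_lit 26) (.e (nat_lit 532515) (nat_lit 3) (.e (nat_lit 114712) (nat_lit 21) (.e (nat_lit 57692) (nat_lit 156) (.e (nat_lit 171776) (nat_lit 64) .nil))))))) (.g (nat_lit 5) .nil .nil))) 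
(.lf (nat_lit 221474) (.g (nat_lit 2197) (.e (nat_lit 98313) (nat_lit 9) (.e (nat_lit 336214) (nat_lit 13) (.e (nat_lit 393229) (nat_lit 9) (.e (nat_lit 335986) (nat_lit 1) (.e (nat_lit 57854) (nat_lit 252) (.e (nat_lit 57377) (nat_lit 3) .nil)))))) (.g (nat_lit 4) .nil .nil)))) (.nd (nat_lit 5) 
(.lf (nat_lit 221458) (.g (nat_lit 2009) (.e (nat_lit 98313) (nat_lit 9) (.e (nat_lit 336213) (nat_lit 13) (.e (nat_lit 393225) (nat_lit 9) (.e (nat_lit 335985) (nat_lit 1) .nil)))) .nil)) 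
(.lf (nat_lit 221490) (.g (nat_lit 1972) (.e (nat_lit 98313) (nat_lit 9) (.e (nat_lit 336222) (nat_lit 13) (.e (nat_lit 393224) (nat_lit 9) (.e (nat_lit 335996) (nat_lit 1) (.e (nat_lit 57851) (nat_lit 252) (.e (nat_lit 57377) (nat_lit 3) .nil)))))) (.g (nat_lit 4) .nil .nil))))) (.nd (nat_lit 4) (.nd (nat_lit 5) 
(.lf (nat_lit 221450) (.g (nat_lit 2173) (.e (nat_lit 98313) (nat_lit 9) (.e (nat_lit 336204) (nat_lit 12) (.e (nat_lit 385074) (nat_lit 31) (.e (nat_lit 573482) (nat_lit 13) (.e (nat_lit 65645) (nat_lit 23) (.e (nat_lit 253963) (nat_lit 9) (.e (nat_lit 1245) (nat_lit 92) .nil))))))) (.g (nat_lit 4) .nil .nil))) 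
(.lf (nat_lit 221482) (.g (nat_lit 3608) (.e (nat_lit 98313) (nat_lit 9) (.e (nat_lit 336215) (nat_lit 13) (.e (nat_lit 393229) (nat_lit 9) (.e (nat_lit 335995) (nat_lit 1) (.e (nat_lit 57849) (nat_lit 252) (.e (nat_lit 57377) (nat_lit 3) .nil)))))) (.g (nat_lit 6) .nil .nil)))) (.nd (nat_lit 5) 
(.lf (nat_lit 221466) (.g (nat_lit 3463) (.e (nat_lit 98313) (nat_lit 9) (.e (nat_lit 336213) (nat_lit 13) (.e (nat_lit 393229) (nat_lit 9) (.e (nat_lit 335987) (nat_lit 1) (.e (nat_lit 57854) (nat_lit 252) (.e (nat_lit 57378) (nat_lit 3) .nil)))))) (.g (nat_lit 6) .nil .nil))) 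
(.lf (nat_lit 221498) (.g (nat_lit 1384) (.e (nat_lit 98313) (nat_lit 9) (.e (nat_lit 336222) (nat_lit 13) (.e (nat_lit 401152) (nat_lit 9) (.e (nat_lit 336334) (nat_lit 20) (.e (nat_lit 229120) (nat_lit 3) .nil))))) (.g (nat_lit 4) .nil .nil)))))) (.nd (nat_lit 3) (.nd (nat_lit 4) (.nd (nat_lit 5) 
(.lf (nat_lit 221446) (.g (nat_lit 4111) (.e (nat_lit 98313) (nat_lit 9) (.e (nat_lit 336204) (nat_lit 12) (.e (nat_lit 385074) (nat_lit 31) (.e (nat_lit 573454) (nat_lit 9) .nil)))) .nil)) 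
(.lf (nat_lit 221478) (.g (nat_lit 2898) (.e (nat_lit 98313) (nat_lit 9) (.e (nat_lit 336215) (nat_lit 13) (.e (nat_lit 393229) (nat_lit 9) (.e (nat_lit 335986) (nat_lit 1) (.e (nat_lit 57849) (nat_lit 252) (.e (nat_lit 57377) (nat_lit 3) .nil)))))) (.g (nat_lit 5) .nil .nil)))) (.nd (nat_lit 5) 
(.lf (nat_lit 221462) (.g (nat_lit 3351) (.e (nat_lit 98313) (nat_lit 9) (.e (nat_lit 336213) (nat_lit 13) (.e (nat_lit 393225) (nat_lit 9) (.e (nat_lit 335996) (nat_lit 1) (.e (nat_lit 57853) (nat_lit 252) (.e (nat_lit 57377) (nat_lit 3) .nil)))))) (.g (nat_lit 6) .nil .nil))) 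
(.lf (nat_lit 221494) (.g (nat_lit 1080) (.e (nat_lit 98313) (nat_lit 9) (.e (nat_lit 336222) (nat_lit 13) (.e (nat_lit 393229) (nat_lit 9) (.e (nat_lit 335994) (nat_lit 1) .nil)))) .nil)))) (.nd (nat_lit 4) (.nd (nat_lit 5) 
(.lf (nat_lit 221454) (.g (nat_lit 1846) (.e (nat_lit 98313) (nat_lit 9) (.e (nat_lit 336204) (nat_lit 12) (.e (nat_lit 385074) (nat_lit 31) (.e (nat_lit 573489) (nat_lit 14) (.e (nat_lit 73731) (nat_lit 0) .nil))))) .nil)) 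
(.lf (nat_lit 221486) (.g (nat_lit 2945) (.e (nat_lit 98313) (nat_lit 9) (.e (nat_lit 336220) (nat_lit 13) (.e (nat_lit 393225) (nat_lit 9) (.e (nat_lit 335986) (nat_lit 1) (.e (nat_lit 57847) (nat_lit 252) (.e (nat_lit 57379) (nat_lit 3) .nil)))))) (.g (nat_lit 6) .nil .nil)))) (.nd (nat_lit 5) 
(.lf (nat_lit 221470) (.g (nat_lit 2922) (.e (nat_lit 98313) (nat_lit 9) (.e (nat_lit 336213) (nat_lit 13) (.e (nat_lit 393229) (nat_lit 9) (.e (nat_lit 335994) (nat_lit 1) (.e (nat_lit 57849) (nat_lit 252) (.e (nat_lit 57377) (nat_lit 3) .nil)))))) (.g (nat_lit 6) .nil .nil))) 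
(.lf (nat_lit 221502) (.g (nat_lit 3418) (.e (nat_lit 98313) (nat_lit 9) (.e (nat_lit 336223) (nat_lit 13) (.e (nat_lit 393224) (nat_lit 9) (.e (nat_lit 335986) (nat_lit 1) (.e (nat_lit 57849) (nat_lit 252) (.e (nat_lit 57377) (nat_lit 3) .nil)))))) (.g (nat_lit 6) .nil .nil)))))))) (.nd (nat_lit 1) (.nd (nat_lit 2) (.nd (nat_lit 3) (.nd (nat_lit 4) (.nd (nat_lit 5) 
(.lf (nat_lit 221441) (.g (nat_lit 2904) (.e (nat_lit 98313) (nat_lit 9) (.e (nat_lit 336194) (nat_lit 12) (.e (nat_lit 385066) (nat_lit 26) (.e (nat_lit 532513) (nat_lit 3) (.e (nat_lit 114710) (nat_lit 21) (.e (nat_lit 57692) (nat_lit 156) (.e (nat_lit 171776) (nat_lit 64) .nil))))))) (.g (nat_lit 4) .nil .nil))) 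
(.lf (nat_lit 221473) (.g (nat_lit 3396) (.e (nat_lit 98313) (nat_lit 9) (.e (nat_lit 336213) (nat_lit 13) (.e (nat_lit 393229) (nat_lit 9) (.e (nat_lit 335996) (nat_lit 1) (.e (nat_lit 57853) (nat_lit 252) (.e (nat_lit 57377) (nat_lit 3) .nil)))))) (.g (nat_lit 6) .nil .nil)))) (.nd (nat_lit 5) 
(.lf (nat_lit 221457) (.g (nat_lit 3382) (.e (nat_lit 98313) (nat_lit 9) (.e (nat_lit 336212) (nat_lit 13) (.e (nat_lit 393225) (nat_lit 9) (.e (nat_lit 335996) (nat_lit 1) (.e (nat_lit 57854) (nat_lit 252) (.e (nat_lit 57378) (nat_lit 3) .nil)))))) (.g (nat_lit 6) .nil .nil))) 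
(.lf (nat_lit 221489) (.g (nat_lit 1839) (.e (nat_lit 98313) (nat_lit 9) (.e (nat_lit 336222) (nat_lit 13) (.e (nat_lit 393224) (nat_lit 9) (.e (nat_lit 335995) (nat_lit 1) (.e (nat_lit 57847) (nat_lit 252) (.e (nat_lit 57379) (nat_lit 3) .nil)))))) (.g (nat_lit 4) .nil .nil))))) (.nd (nat_lit 4) (.nd (nat_lit 5) 
(.lf (nat_lit 221449) (.g (nat_lit 2134) (.e (nat_lit 98313) (nat_lit 9) (.e (nat_lit 336204) (nat_lit 12) (.e (nat_lit 385074) (nat_lit 31) (.e (nat_lit 573482) (nat_lit 13) (.e (nat_lit 65645) (nat_lit 23) (.e (nat_lit 253960) (nat_lit 9) (.e (nat_lit 1256) (nat_lit 92) .nil))))))) (.g (nat_lit 4) .nil .nil))) 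
(.lf (nat_lit 221481) (.g (nat_lit 2504) (.e (nat_lit 98313) (nat_lit 9) (.e (nat_lit 336215) (nat_lit 13) (.e (nat_lit 393229) (nat_lit 9) (.e (nat_lit 335986) (nat_lit 1) (.e (nat_lit 57854) (nat_lit 252) (.e (nat_lit 57378) (nat_lit 3) .nil)))))) (.g (nat_lit 4) .nil .nil)))) (.nd (nat_lit 5) 
(.lf (nat_lit 221465) (.g (nat_lit 2492) (.e (nat_lit 98313) (nat_lit 9) (.e (nat_lit 336213) (nat_lit 13) (.e (nat_lit 393229) (nat_lit 9) (.e (nat_lit 335986) (nat_lit 1) (.e (nat_lit 57849) (nat_lit 252) (.e (nat_lit 57377) (nat_lit 3) .nil)))))) (.g (nat_lit 5) .nil .nil))) 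
(.lf (nat_lit 221497) (.g (nat_lit 3308) (.e (nat_lit 98313) (nat_lit 9) (.e (nat_lit 336222) (nat_lit 13) (.e (nat_lit 393229) (nat_lit 9) (.e (nat_lit 335995) (nat_lit 1) (.e (nat_lit 57853) (nat_lit 252) (.e (nat_lit 57377) (nat_lit 3) .nil)))))) (.g (nat_lit 4) .nil .nil)))))) (.nd (nat_lit 3) (.nd (nat_lit 4) (.nd (nat_lit 5) 
(.lf (nat_lit 221445) (.g (nat_lit 399) (.e (nat_lit 98313) (nat_lit 9) (.e (nat_lit 336204) (nat_lit 12) (.e (nat_lit 385074) (nat_lit 31) .nil))) .nil)) 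
(.lf (nat_lit 221477) (.g (nat_lit 3554) (.e (nat_lit 98313) (nat_lit 9) (.e (nat_lit 336214) (nat_lit 13) (.e (nat_lit 393229) (nat_lit 9) (.e (nat_lit 335996) (nat_lit 1) (.e (nat_lit 57854) (nat_lit 252) (.e (nat_lit 57378) (nat_lit 3) .nil)))))) (.g (nat_lit 6) .nil .nil)))) (.nd (nat_lit 5) 
(.lf (nat_lit 221461) (.g (nat_lit 2899) (.e (nat_lit 98313) (nat_lit 9) (.e (nat_lit 336213) (nat_lit 13) (.e (nat_lit 393225) (nat_lit 9) (.e (nat_lit 335995) (nat_lit 1) (.e (nat_lit 57853) (nat_lit 252) (.e (nat_lit 57377) (nat_lit 3) .nil)))))) (.g (nat_lit 4) .nil .nil))) 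
(.lf (nat_lit 221493) (.g (nat_lit 2426) (.e (nat_lit 98313) (nat_lit 9) (.e (nat_lit 336222) (nat_lit 13) (.e (nat_lit 393229) (nat_lit 9) (.e (nat_lit 335987) (nat_lit 1) (.e (nat_lit 57854) (nat_lit 252) (.e (nat_lit 57377) (nat_lit 3) .nil)))))) (.g (nat_lit 5) .nil .nil))))) (.nd (nat_lit 4) (.nd (nat_lit 5) 
(.lf (nat_lit 221453) (.g (nat_lit 1108) (.e (nat_lit 98313) (nat_lit 9) (.e (nat_lit 336204) (nat_lit 12) (.e (nat_lit 385074) (nat_lit 31) (.e (nat_lit 573489) (nat_lit 14) .nil)))) .nil)) 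
(.lf (nat_lit 221485) (.g (nat_lit 1315) (.e (nat_lit 98313) (nat_lit 9) (.e (nat_lit 336215) (nat_lit 13) (.e (nat_lit 401152) (nat_lit 9) (.e (nat_lit 336337) (nat_lit 20) (.e (nat_lit 229120) (nat_lit 3) .nil))))) (.g (nat_lit 4) .nil .nil)))) (.nd (nat_lit 5) 
(.lf (nat_lit 221469) (.g (nat_lit 2957) (.e (nat_lit 98313) (nat_lit 9) (.e (nat_lit 336213) (nat_lit 13) (.e (nat_lit 393229) (nat_lit 9) (.e (nat_lit 335994) (nat_lit 1) (.e (nat_lit 57846) (nat_lit 252) (.e (nat_lit 57377) (nat_lit 3) .nil)))))) (.g (nat_lit 0) .nil .nil))) 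
(.lf (nat_lit 221501) (.g (nat_lit 1638) (.e (nat_lit 98313) (nat_lit 9) (.e (nat_lit 336223) (nat_lit 13) (.e (nat_lit 393221) (nat_lit 0) .nil))) .nil)))))) (.nd (nat_lit 2) (.nd (nat_lit 3) (.nd (nat_lit 4) (.nd (nat_lit 5) 
(.lf (nat_lit 221443) (.g (nat_lit 1738) (.e (nat_lit 98313) (nat_lit 9) (.e (nat_lit 336204) (nat_lit 12) (.e (nat_lit 385066) (nat_lit 26) (.e (nat_lit 532513) (nat_lit 3) .nil)))) .nil)) 
(.lf (nat_lit 221475) (.g (nat_lit 3135) (.e (nat_lit 98313) (nat_lit 9) (.e (nat_lit 336214) (nat_lit 13) (.e (nat_lit 393229) (nat_lit 9) (.e (nat_lit 335988) (nat_lit 1) (.e (nat_lit 57854) (nat_lit 252) (.e (nat_lit 57378) (nat_lit 3) .nil)))))) (.g (nat_lit 6) .nil .nil)))) (.nd (nat_lit 5) 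
(.lf (nat_lit 221459) (.g (nat_lit 2177) (.e (nat_lit 98313) (nat_lit 9) (.e (nat_lit 336213) (nat_lit 13) (.e (nat_lit 393225) (nat_lit 9) (.e (nat_lit 335986) (nat_lit 1) (.e (nat_lit 57849) (nat_lit 252) .nil))))) .nil)) 
(.lf (nat_lit 221491) (.g (nat_lit 2574) (.e (nat_lit 98313) (nat_lit 9) (.e (nat_lit 336222) (nat_lit 13) (.e (nat_lit 393225) (nat_lit 9) (.e (nat_lit 335995) (nat_lit 1) (.e (nat_lit 57849) (nat_lit 252) (.e (nat_lit 57377) (nat_lit 3) .nil)))))) (.g (nat_lit 4) .nil .nil))))) (.nd (nat_lit 4) (.nd (nat_lit 5) 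
(.lf (nat_lit 221451) (.g (nat_lit 2378) (.e (nat_lit 98313) (nat_lit 9) (.e (nat_lit 336204) (nat_lit 12) (.e (nat_lit 385074) (nat_lit 31) (.e (nat_lit 573482) (nat_lit 13) (.e (nat_lit 65645) (nat_lit 23) (.e (nat_lit 253980) (nat_lit 9) (.e (nat_lit 1250) (nat_lit 92) .nil))))))) (.g (nat_lit 4) .nil .nil))) 
(.lf (nat_lit 221483) (.g (nat_lit 1245) (.e (nat_lit 98313) (nat_lit 9) (.e (nat_lit 336215) (nat_lit 13) (.e (nat_lit 401152) (nat_lit 9) (.e (nat_lit 336335) (nat_lit 20) (.e (nat_lit 229120) (nat_lit 3) .nil))))) (.g (nat_lit 4) .nil .nil)))) (.nd (nat_lit 5) 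
(.lf (nat_lit 221467) (.g (nat_lit 2275) (.e (nat_lit 98313) (nat_lit 9) (.e (nat_lit 336213) (nat_lit 13) (.e (nat_lit 393229) (nat_lit 9) (.e (nat_lit 335993) (nat_lit 1) (.e (nat_lit 57847) (nat_lit 252) (.e (nat_lit 57377) (nat_lit 3) .nil)))))) (.g (nat_lit 5) .nil .nil))) 
(.lf (nat_lit 221499) (.g (nat_lit 1309) (.e (nat_lit 98313) (nat_lit 9) (.e (nat_lit 336222) (nat_lit 13) (.e (nat_lit 401152) (nat_lit 15) (.e (nat_lit 385109) (nat_lit 51) (.e (nat_lit 802560) (nat_lit 3) .nil))))) (.g (nat_lit 4) .nil .nil)))))) (.nd (nat_lit 3) (.nd (nat_lit 4) (.nd (nat_lit 5) 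
(.lf (nat_lit 221447) (.g (nat_lit 4142) (.e (nat_lit 98313) (nat_lit 9) (.e (nat_lit 336204) (nat_lit 12) (.e (nat_lit 385074) (nat_lit 31) (.e (nat_lit 573477) (nat_lit 12) .nil)))) .nil)) 
(.lf (nat_lit 221479) (.g (nat_lit 2911) (.e (nat_lit 98313) (nat_lit 9) (.e (nat_lit 336215) (nat_lit 13) (.e (nat_lit 393229) (nat_lit 9) (.e (nat_lit 335986) (nat_lit 1) (.e (nat_lit 57853) (nat_lit 252) (.e (nat_lit 57377) (nat_lit 3) .nil)))))) (.g (nat_lit 4) .nil .nil)))) (.nd (nat_lit 5) 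
(.lf (nat_lit 221463) (.g (nat_lit 1876) (.e (nat_lit 98313) (nat_lit 9) (.e (nat_lit 336213) (nat_lit 13) (.e (nat_lit 393229) (nat_lit 9) (.e (nat_lit 335886) (nat_lit 0) .nil)))) .nil)) 
(.lf (nat_lit 221495) (.g (nat_lit 3050) (.e (nat_lit 98313) (nat_lit 9) (.e (nat_lit 336222) (nat_lit 13) (.e (nat_lit 393229) (nat_lit 9) (.e (nat_lit 335995) (nat_lit 1) (.e (nat_lit 57846) (nat_lit 252) (.e (nat_lit 57377) (nat_lit 3) .nil)))))) (.g (nat_lit 5) .nil .nil))))) (.nd (nat_lit 4) (.nd (nat_lit 5) 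
(.lf (nat_lit 221455) (.g (nat_lit 2005) (.e (nat_lit 98313) (nat_lit 9) (.e (nat_lit 336204) (nat_lit 12) (.e (nat_lit 385074) (nat_lit 31) (.e (nat_lit 573489) (nat_lit 14) (.e (nat_lit 73761) (nat_lit 15) .nil))))) .nil)) 
(.lf (nat_lit 221487) (.g (nat_lit 2694) (.e (nat_lit 98313) (nat_lit 9) (.e (nat_lit 336222) (nat_lit 13) (.e (nat_lit 393224) (nat_lit 9) (.e (nat_lit 335986) (nat_lit 1) (.e (nat_lit 57847) (nat_lit 252) (.e (nat_lit 57377) (nat_lit 3) .nil)))))) (.g (nat_lit 5) .nil .nil)))) (.nd (nat_lit 5) 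
(.lf (nat_lit 221471) (.g (nat_lit 3342) (.e (nat_lit 98313) (nat_lit 9) (.e (nat_lit 336213) (nat_lit 13) (.e (nat_lit 393229) (nat_lit 9) (.e (nat_lit 335995) (nat_lit 1) (.e (nat_lit 57846) (nat_lit 252) (.e (nat_lit 57377) (nat_lit 3) .nil)))))) (.g (nat_lit 0) .nil .nil))) 
(.lf (nat_lit 221503) (.g (nat_lit 3626) (.e (nat_lit 98313) (nat_lit 9) (.e (nat_lit 336223) (nat_lit 13) (.e (nat_lit 393224) (nat_lit 9) (.e (nat_lit 335996) (nat_lit 1) (.e (nat_lit 57852) (nat_lit 252) (.e (nat_lit 57378) (nat_lit 3) .nil)))))) (.g (nat_lit 5) .nil .nil)))))))))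

noncomputable def tv2909 : DT := (.nd (nat_lit 0) (.nd (nat_lit 1) (.nd (nat_lit 2) (.nd (nat_lit 3) (.nd (nat_lit 4) (.nd (nat_lit 5) 
(.lf (nat_lit 221504) (.g (nat_lit 2904) (.e (nat_lit 98313) (nat_lit 9) (.e (nat_lit 336223) (nat_lit 13) (.e (nat_lit 393224) (nat_lit 9) (.e (nat_lit 335996) (nat_lit 1) (.e (nat_lit 57854) (nat_lit 252) (.e (nat_lit 57377) (nat_lit 3) .nil)))))) (.g (nat_lit 5) .nil .nil))) 
(.lf (nat_lit 221536) (.g (nat_lit 1319) (.e (nat_lit 98313) (nat_lit 9) (.e (nat_lit 336223) (nat_lit 13) (.e (nat_lit 393234) (nat_lit 17) (.e (nat_lit 3542) (nat_lit 218) .nil)))) .nil))) (.nd (nat_lit 5) 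
(.lf (nat_lit 221520) (.g (nat_lit 3505) (.e (nat_lit 98313) (nat_lit 9) (.e (nat_lit 336223) (nat_lit 13) (.e (nat_lit 393229) (nat_lit 9) (.e (nat_lit 335995) (nat_lit 1) (.e (nat_lit 57849) (nat_lit 252) (.e (nat_lit 57377) (nat_lit 3) .nil)))))) (.g (nat_lit 6) .nil .nil))) 
(.lf (nat_lit 221552) (.g (nat_lit 488) (.e (nat_lit 98314) (nat_lit 9) (.e (nat_lit 336152) (nat_lit 9) (.e (nat_lit 336017) (nat_lit 3) (.e (nat_lit 98384) (nat_lit 32) .nil)))) .nil)))) (.nd (nat_lit 4) (.nd (nat_lit 5) 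
(.lf (nat_lit 221512) (.g (nat_lit 2560) (.e (nat_lit 98313) (nat_lit 9) (.e (nat_lit 336223) (nat_lit 13) (.e (nat_lit 393229) (nat_lit 9) (.e (nat_lit 335986) (nat_lit 1) (.e (nat_lit 57849) (nat_lit 252) (.e (nat_lit 57377) (nat_lit 3) .nil)))))) (.g (nat_lit 5) .nil .nil))) 
(.lf (nat_lit 221544) (.g (nat_lit 1330) (.e (nat_lit 98313) (nat_lit 9) (.e (nat_lit 336223) (nat_lit 13) (.e (nat_lit 393234) (nat_lit 17) (.e (nat_lit 3568) (nat_lit 222) .nil)))) .nil))) (.nd (nat_lit 5) 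
(.lf (nat_lit 221528) (.g (nat_lit 1293) (.e (nat_lit 98313) (nat_lit 9) (.e (nat_lit 336223) (nat_lit 13) (.e (nat_lit 393234) (nat_lit 17) (.e (nat_lit 3473) (nat_lit 218) .nil)))) .nil)) 
(.lf (nat_lit 221560) (.g (nat_lit 1706) (.e (nat_lit 98315) (nat_lit 9) (.e (nat_lit 335998) (nat_lit 1) (.e (nat_lit 57926) (nat_lit 282) (.e (nat_lit 163907) (nat_lit 12) .nil)))) .nil))))) (.nd (nat_lit 3) (.nd (nat_lit 4) (.nd (nat_lit 5) 
(.lf (nat_lit 221508) (.g (nat_lit 2016) (.e (nat_lit 98313) (nat_lit 9) (.e (nat_lit 336223) (nat_lit 13) (.e (nat_lit 393228) (nat_lit 9) (.e (nat_lit 335986) (nat_lit 1) (.e (nat_lit 57849) (nat_lit 252) (.e (nat_lit 57377) (nat_lit 3) .nil)))))) (.g (nat_lit 4) .nil .nil))) 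
(.lf (nat_lit 221540) (.g (nat_lit 1319) (.e (nat_lit 98313) (nat_lit 9) (.e (nat_lit 336223) (nat_lit 13) (.e (nat_lit 393234) (nat_lit 17) (.e (nat_lit 3561) (nat_lit 221) .nil)))) .nil))) (.nd (nat_lit 5) 
(.lf (nat_lit 221524) (.g (nat_lit 1574) (.e (nat_lit 98313) (nat_lit 9) (.e (nat_lit 336223) (nat_lit 13) (.e (nat_lit 401152) (nat_lit 9) (.e (nat_lit 336334) (nat_lit 20) (.e (nat_lit 229120) (nat_lit 3) .nil))))) (.g (nat_lit 4) .nil .nil))) 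
(.lf (nat_lit 221556) (.g (nat_lit 2786) (.e (nat_lit 98315) (nat_lit 9) (.e (nat_lit 335959) (nat_lit 0) (.e (nat_lit 1796) (nat_lit 119) (.e (nat_lit 516195) (nat_lit 26) (.e (nat_lit 336012) (nat_lit 2) (.e (nat_lit 90157) (nat_lit 11) (.e (nat_lit 24607) (nat_lit 3) .nil))))))) (.g (nat_lit 7) .nil .nil))))) (.nd (nat_lit 4) (.nd (nat_lit 5) 
(.lf (nat_lit 221516) (.g (nat_lit 2285) (.e (nat_lit 98313) (nat_lit 9) (.e (nat_lit 336223) (nat_lit 13) (.e (nat_lit 393229) (nat_lit 9) (.e (nat_lit 335993) (nat_lit 1) (.e (nat_lit 57854) (nat_lit 252) (.e (nat_lit 57377) (nat_lit 3) .nil)))))) (.g (nat_lit 5) .nil .nil))) 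
(.lf (nat_lit 221548) (.g (nat_lit 2449) (.e (nat_lit 98313) (nat_lit 9) (.e (nat_lit 343808) (nat_lit 18) (.e (nat_lit 204862) (nat_lit 27) (.e (nat_lit 344117) (nat_lit 21) (.e (nat_lit 516130) (nat_lit 3) (.e (nat_lit 229120) (nat_lit 3) .nil)))))) (.g (nat_lit 5) .nil .nil)))) (.nd (nat_lit 5) 
(.lf (nat_lit 221532) (.g (nat_lit 1280) (.e (nat_lit 98313) (nat_lit 9) (.e (nat_lit 336223) (nat_lit 13) (.e (nat_lit 393234) (nat_lit 17) (.e (nat_lit 3481) (nat_lit 218) .nil)))) .nil)) 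
(.lf (nat_lit 221564) (.g (nat_lit 2033) (.e (nat_lit 98315) (nat_lit 9) (.e (nat_lit 335998) (nat_lit 1) (.e (nat_lit 57927) (nat_lit 282) (.e (nat_lit 163907) (nat_lit 12) (.e (nat_lit 426555) (nat_lit 32) .nil))))) .nil)))))) (.nd (nat_lit 2) (.nd (nat_lit 3) (.nd (nat_lit 4) (.nd (nat_lit 5) 
(.lf (nat_lit 221506) (.g (nat_lit 3180) (.e (nat_lit 98313) (nat_lit 9) (.e (nat_lit 336223) (nat_lit 13) (.e (nat_lit 393225) (nat_lit 9) (.e (nat_lit 335996) (nat_lit 1) (.e (nat_lit 57853) (nat_lit 252) (.e (nat_lit 57377) (nat_lit 3) .nil)))))) (.g (nat_lit 6) .nil .nil))) 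
(.lf (nat_lit 221538) (.g (nat_lit 1319) (.e (nat_lit 98313) (nat_lit 9) (.e (nat_lit 336223) (nat_lit 13) (.e (nat_lit 393234) (nat_lit 17) (.e (nat_lit 3546) (nat_lit 219) .nil)))) .nil))) (.nd (nat_lit 5) 
(.lf (nat_lit 221522) (.g (nat_lit 3553) (.e (nat_lit 98313) (nat_lit 9) (.e (nat_lit 336223) (nat_lit 13) (.e (nat_lit 393229) (nat_lit 9) (.e (nat_lit 335996) (nat_lit 1) (.e (nat_lit 57853) (nat_lit 252) (.e (nat_lit 57377) (nat_lit 3) .nil)))))) (.g (nat_lit 6) .nil .nil))) 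
(.lf (nat_lit 221554) (.g (nat_lit 1936) (.e (nat_lit 98314) (nat_lit 9) (.e (nat_lit 336209) (nat_lit 13) (.e (nat_lit 393225) (nat_lit 9) (.e (nat_lit 335995) (nat_lit 1) (.e (nat_lit 57844) (nat_lit 252) .nil))))) .nil)))) (.nd (nat_lit 4) (.nd (nat_lit 5) 
(.lf (nat_lit 221514) (.g (nat_lit 3516) (.e (nat_lit 98313) (nat_lit 9) (.e (nat_lit 336223) (nat_lit 13) (.e (nat_lit 393229) (nat_lit 9) (.e (nat_lit 335987) (nat_lit 1) (.e (nat_lit 57854) (nat_lit 252) (.e (nat_lit 57378) (nat_lit 3) .nil)))))) (.g (nat_lit 6) .nil .nil))) 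
(.lf (nat_lit 221546) (.g (nat_lit 2442) (.e (nat_lit 98313) (nat_lit 9) (.e (nat_lit 343808) (nat_lit 17) (.e (nat_lit 196670) (nat_lit 14) (.e (nat_lit 73746) (nat_lit 3) (.e (nat_lit 516129) (nat_lit 3) (.e (nat_lit 229120) (nat_lit 3) .nil)))))) (.g (nat_lit 5) .nil .nil)))) (.nd (nat_lit 5) 
(.lf (nat_lit 221530) (.g (nat_lit 1280) (.e (nat_lit 98313) (nat_lit 9) (.e (nat_lit 336223) (nat_lit 13) (.e (nat_lit 393234) (nat_lit 17) (.e (nat_lit 3474) (nat_lit 218) .nil)))) .nil)) 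
(.lf (nat_lit 221562) (.g (nat_lit 1395) (.e (nat_lit 98315) (nat_lit 9) (.e (nat_lit 335998) (nat_lit 1) (.e (nat_lit 57927) (nat_lit 282) (.e (nat_lit 163903) (nat_lit 12) .nil)))) .nil))))) (.nd (nat_lit 3) (.nd (nat_lit 4) (.nd (nat_lit 5) 
(.lf (nat_lit 221510) (.g (nat_lit 1539) (.e (nat_lit 98313) (nat_lit 9) (.e (nat_lit 336223) (nat_lit 13) (.e (nat_lit 393229) (nat_lit 9) (.e (nat_lit 335886) (nat_lit 0) .nil)))) .nil)) 
(.lf (nat_lit 221542) (.g (nat_lit 1319) (.e (nat_lit 98313) (nat_lit 9) (.e (nat_lit 336223) (nat_lit 13) (.e (nat_lit 393234) (nat_lit 17) (.e (nat_lit 3565) (nat_lit 222) .nil)))) .nil))) (.nd (nat_lit 5) 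
(.lf (nat_lit 221526) (.g (nat_lit 1491) (.e (nat_lit 98313) (nat_lit 9) (.e (nat_lit 336223) (nat_lit 13) (.e (nat_lit 401152) (nat_lit 9) (.e (nat_lit 336336) (nat_lit 20) (.e (nat_lit 229120) (nat_lit 3) .nil))))) (.g (nat_lit 4) .nil .nil))) 
(.lf (nat_lit 221558) (.g (nat_lit 3045) (.e (nat_lit 98315) (nat_lit 9) (.e (nat_lit 335959) (nat_lit 0) (.e (nat_lit 1796) (nat_lit 119) (.e (nat_lit 516195) (nat_lit 26) (.e (nat_lit 336021) (nat_lit 3) (.e (nat_lit 98317) (nat_lit 9) (.e (nat_lit 336027) (nat_lit 3) .nil))))))) (.g (nat_lit 7) .nil .nil))))) (.nd (nat_lit 4) (.nd (nat_lit 5) 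
(.lf (nat_lit 221518) (.g (nat_lit 2999) (.e (nat_lit 98313) (nat_lit 9) (.e (nat_lit 336223) (nat_lit 13) (.e (nat_lit 393229) (nat_lit 9) (.e (nat_lit 335994) (nat_lit 1) (.e (nat_lit 57849) (nat_lit 252) (.e (nat_lit 57377) (nat_lit 3) .nil)))))) (.g (nat_lit 6) .nil .nil))) 
(.lf (nat_lit 221550) (.g (nat_lit 2806) (.e (nat_lit 98313) (nat_lit 9) (.e (nat_lit 343808) (nat_lit 18) (.e (nat_lit 204863) (nat_lit 27) (.e (nat_lit 344117) (nat_lit 21) (.e (nat_lit 516130) (nat_lit 3) (.e (nat_lit 229120) (nat_lit 3) .nil)))))) (.g (nat_lit 5) .nil .nil)))) (.nd (nat_lit 5) 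
(.lf (nat_lit 221534) (.g (nat_lit 1320) (.e (nat_lit 98313) (nat_lit 9) (.e (nat_lit 336223) (nat_lit 13) (.e (nat_lit 393234) (nat_lit 17) (.e (nat_lit 3520) (nat_lit 218) .nil)))) .nil)) 
(.lf (nat_lit 221566) (.g (nat_lit 1536) (.e (nat_lit 98315) (nat_lit 9) (.e (nat_lit 336017) (nat_lit 3) (.e (nat_lit 98313) (nat_lit 9) (.e (nat_lit 336027) (nat_lit 3) (.e (nat_lit 98316) (nat_lit 9) .nil))))) .nil))))))) (.nd (nat_lit 1) (.nd (nat_lit 2) (.nd (nat_lit 3) (.nd (nat_lit 4) (.nd (nat_lit 5) 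
(.lf (nat_lit 221505) (.g (nat_lit 2794) (.e (nat_lit 98313) (nat_lit 9) (.e (nat_lit 336223) (nat_lit 13) (.e (nat_lit 393225) (nat_lit 9) (.e (nat_lit 335995) (nat_lit 1) (.e (nat_lit 57853) (nat_lit 252) (.e (nat_lit 57377) (nat_lit 3) .nil)))))) (.g (nat_lit 4) .nil .nil))) 
(.lf (nat_lit 221537) (.g (nat_lit 2101) (.e (nat_lit 98313) (nat_lit 9) (.e (nat_lit 336223) (nat_lit 13) (.e (nat_lit 393234) (nat_lit 17) (.e (nat_lit 3544) (nat_lit 219) (.e (nat_lit 712732) (nat_lit 20) (.e (nat_lit 229120) (nat_lit 3) .nil)))))) (.g (nat_lit 4) .nil .nil)))) (.nd (nat_lit 5) 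
(.lf (nat_lit 221521) (.g (nat_lit 3444) (.e (nat_lit 98313) (nat_lit 9) (.e (nat_lit 336223) (nat_lit 13) (.e (nat_lit 393229) (nat_lit 9) (.e (nat_lit 335995) (nat_lit 1) (.e (nat_lit 57853) (nat_lit 252) (.e (nat_lit 57377) (nat_lit 3) .nil)))))) (.g (nat_lit 5) .nil .nil))) 
(.lf (nat_lit 221553) (.g (nat_lit 1725) (.e (nat_lit 98314) (nat_lit 9) (.e (nat_lit 336209) (nat_lit 13) (.e (nat_lit 393225) (nat_lit 9) (.e (nat_lit 335986) (nat_lit 1) (.e (nat_lit 57849) (nat_lit 252) .nil))))) .nil)))) (.nd (nat_lit 4) (.nd (nat_lit 5) 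
(.lf (nat_lit 221513) (.g (nat_lit 3297) (.e (nat_lit 98313) (nat_lit 9) (.e (nat_lit 336223) (nat_lit 13) (.e (nat_lit 393229) (nat_lit 9) (.e (nat_lit 335987) (nat_lit 1) (.e (nat_lit 57854) (nat_lit 252) (.e (nat_lit 57377) (nat_lit 3) .nil)))))) (.g (nat_lit 6) .nil .nil))) 
(.lf (nat_lit 221545) (.g (nat_lit 1455) (.e (nat_lit 98313) (nat_lit 9) (.e (nat_lit 336223) (nat_lit 13) (.e (nat_lit 393258) (nat_lit 20) .nil))) .nil))) (.nd (nat_lit 5) 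
(.lf (nat_lit 221529) (.g (nat_lit 1424) (.e (nat_lit 98313) (nat_lit 9) (.e (nat_lit 336223) (nat_lit 13) (.e (nat_lit 393234) (nat_lit 17) (.e (nat_lit 3473) (nat_lit 218) (.e (nat_lit 704852) (nat_lit 17) .nil))))) .nil)) 
(.lf (nat_lit 221561) (.g (nat_lit 700) (.e (nat_lit 98315) (nat_lit 9) (.e (nat_lit 335998) (nat_lit 1) (.e (nat_lit 57927) (nat_lit 282) .nil))) .nil))))) (.nd (nat_lit 3) (.nd (nat_lit 4) (.nd (nat_lit 5) 
(.lf (nat_lit 221509) (.g (nat_lit 2355) (.e (nat_lit 98313) (nat_lit 9) (.e (nat_lit 336223) (nat_lit 13) (.e (nat_lit 393228) (nat_lit 9) (.e (nat_lit 335996) (nat_lit 1) (.e (nat_lit 57852) (nat_lit 252) (.e (nat_lit 57377) (nat_lit 3) .nil)))))) (.g (nat_lit 4) .nil .nil))) 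
(.lf (nat_lit 221541) (.g (nat_lit 1319) (.e (nat_lit 98313) (nat_lit 9) (.e (nat_lit 336223) (nat_lit 13) (.e (nat_lit 393234) (nat_lit 17) (.e (nat_lit 3564) (nat_lit 221) .nil)))) .nil))) (.nd (nat_lit 5) 
(.lf (nat_lit 221525) (.g (nat_lit 1253) (.e (nat_lit 98313) (nat_lit 9) (.e (nat_lit 336223) (nat_lit 13) (.e (nat_lit 401152) (nat_lit 9) (.e (nat_lit 336335) (nat_lit 20) (.e (nat_lit 229120) (nat_lit 3) .nil))))) (.g (nat_lit 4) .nil .nil))) 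
(.lf (nat_lit 221557) (.g (nat_lit 2948) (.e (nat_lit 98315) (nat_lit 9) (.e (nat_lit 335959) (nat_lit 0) (.e (nat_lit 1796) (nat_lit 119) (.e (nat_lit 516195) (nat_lit 26) (.e (nat_lit 336021) (nat_lit 3) (.e (nat_lit 98317) (nat_lit 9) (.e (nat_lit 336021) (nat_lit 3) .nil))))))) (.g (nat_lit 7) .nil .nil))))) (.nd (nat_lit 4) (.nd (nat_lit 5) 
(.lf (nat_lit 221517) (.g (nat_lit 3021) (.e (nat_lit 98313) (nat_lit 9) (.e (nat_lit 336223) (nat_lit 13) (.e (nat_lit 393229) (nat_lit 9) (.e (nat_lit 335994) (nat_lit 1) (.e (nat_lit 57846) (nat_lit 252) (.e (nat_lit 57377) (nat_lit 3) .nil)))))) (.g (nat_lit 0) .nil .nil))) 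
(.lf (nat_lit 221549) (.g (nat_lit 3069) (.e (nat_lit 98313) (nat_lit 9) (.e (nat_lit 343808) (nat_lit 18) (.e (nat_lit 204863) (nat_lit 27) (.e (nat_lit 344117) (nat_lit 21) (.e (nat_lit 516129) (nat_lit 3) (.e (nat_lit 229120) (nat_lit 3) .nil)))))) (.g (nat_lit 5) .nil .nil)))) (.nd (nat_lit 5) 
(.lf (nat_lit 221533) (.g (nat_lit 1319) (.e (nat_lit 98313) (nat_lit 9) (.e (nat_lit 336223) (nat_lit 13) (.e (nat_lit 393234) (nat_lit 17) (.e (nat_lit 3485) (nat_lit 218) .nil)))) .nil)) 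
(.lf (nat_lit 221565) (.g (nat_lit 2792) (.e (nat_lit 98315) (nat_lit 9) (.e (nat_lit 336017) (nat_lit 3) (.e (nat_lit 98313) (nat_lit 9) (.e (nat_lit 336004) (nat_lit 2) (.e (nat_lit 90158) (nat_lit 11) (.e (nat_lit 24608) (nat_lit 3) .nil)))))) (.g (nat_lit 0) .nil .nil))))))) (.nd (nat_lit 2) (.nd (nat_lit 3) (.nd (nat_lit 4) (.nd (nat_lit 5) 
(.lf (nat_lit 221507) (.g (nat_lit 1209) (.e (nat_lit 98313) (nat_lit 9) (.e (nat_lit 336223) (nat_lit 13) (.e (nat_lit 393226) (nat_lit 9) .nil))) .nil)) 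
(.lf (nat_lit 221539) (.g (nat_lit 1322) (.e (nat_lit 98313) (nat_lit 9) (.e (nat_lit 336223) (nat_lit 13) (.e (nat_lit 393234) (nat_lit 17) (.e (nat_lit 3559) (nat_lit 221) .nil)))) .nil))) (.nd (nat_lit 5) 
(.lf (nat_lit 221523) (.g (nat_lit 423) (.e (nat_lit 98313) (nat_lit 9) (.e (nat_lit 336223) (nat_lit 13) (.e (nat_lit 401152) (nat_lit 9) .nil))) .nil)) 
(.lf (nat_lit 221555) (.g (nat_lit 2931) (.e (nat_lit 98315) (nat_lit 9) (.e (nat_lit 335959) (nat_lit 0) (.e (nat_lit 1796) (nat_lit 119) (.e (nat_lit 516195) (nat_lit 26) (.e (nat_lit 336004) (nat_lit 2) (.e (nat_lit 90158) (nat_lit 11) (.e (nat_lit 24608) (nat_lit 3) .nil))))))) (.g (nat_lit 7) .nil .nil))))) (.nd (nat_lit 4) (.nd (nat_lit 5) 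
(.lf (nat_lit 221515) (.g (nat_lit 2270) (.e (nat_lit 98313) (nat_lit 9) (.e (nat_lit 336223) (nat_lit 13) (.e (nat_lit 393229) (nat_lit 9) (.e (nat_lit 335993) (nat_lit 1) (.e (nat_lit 57847) (nat_lit 252) (.e (nat_lit 57377) (nat_lit 3) .nil)))))) (.g (nat_lit 5) .nil .nil))) 
(.lf (nat_lit 221547) (.g (nat_lit 2665) (.e (nat_lit 98313) (nat_lit 9) (.e (nat_lit 343808) (nat_lit 18) (.e (nat_lit 204862) (nat_lit 27) (.e (nat_lit 344117) (nat_lit 21) (.e (nat_lit 516129) (nat_lit 3) (.e (nat_lit 229120) (nat_lit 3) .nil)))))) (.g (nat_lit 5) .nil .nil)))) (.nd (nat_lit 5) 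
(.lf (nat_lit 221531) (.g (nat_lit 1290) (.e (nat_lit 98313) (nat_lit 9) (.e (nat_lit 336223) (nat_lit 13) (.e (nat_lit 393234) (nat_lit 17) (.e (nat_lit 3479) (nat_lit 218) .nil)))) .nil)) 
(.lf (nat_lit 221563) (.g (nat_lit 1387) (.e (nat_lit 98315) (nat_lit 9) (.e (nat_lit 335998) (nat_lit 1) (.e (nat_lit 57927) (nat_lit 282) (.e (nat_lit 163905) (nat_lit 12) .nil)))) .nil))))) (.nd (nat_lit 3) (.nd (nat_lit 4) (.nd (nat_lit 5) 
(.lf (nat_lit 221511) (.g (nat_lit 1539) (.e (nat_lit 98313) (nat_lit 9) (.e (nat_lit 336223) (nat_lit 13) (.e (nat_lit 393229) (nat_lit 9) (.e (nat_lit 335917) (nat_lit 0) .nil)))) .nil)) 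
(.lf (nat_lit 221543) (.g (nat_lit 1319) (.e (nat_lit 98313) (nat_lit 9) (.e (nat_lit 336223) (nat_lit 13) (.e (nat_lit 393234) (nat_lit 17) (.e (nat_lit 3566) (nat_lit 222) .nil)))) .nil))) (.nd (nat_lit 5) 
(.lf (nat_lit 221527) (.g (nat_lit 1361) (.e (nat_lit 98313) (nat_lit 9) (.e (nat_lit 336223) (nat_lit 13) (.e (nat_lit 401152) (nat_lit 9) (.e (nat_lit 336337) (nat_lit 20) (.e (nat_lit 229120) (nat_lit 3) .nil))))) (.g (nat_lit 4) .nil .nil))) 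
(.lf (nat_lit 221559) (.g (nat_lit 1669) (.e (nat_lit 98315) (nat_lit 9) (.e (nat_lit 335998) (nat_lit 1) (.e (nat_lit 57926) (nat_lit 282) (.e (nat_lit 163903) (nat_lit 12) .nil)))) .nil)))) (.nd (nat_lit 4) (.nd (nat_lit 5) 
(.lf (nat_lit 221519) (.g (nat_lit 3459) (.e (nat_lit 98313) (nat_lit 9) (.e (nat_lit 336223) (nat_lit 13) (.e (nat_lit 393229) (nat_lit 9) (.e (nat_lit 335995) (nat_lit 1) (.e (nat_lit 57846) (nat_lit 252) (.e (nat_lit 57377) (nat_lit 3) .nil)))))) (.g (nat_lit 0) .nil .nil))) 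
(.lf (nat_lit 221551) (.g (nat_lit 3080) (.e (nat_lit 98314) (nat_lit 9) (.e (nat_lit 336017) (nat_lit 3) (.e (nat_lit 98313) (nat_lit 9) (.e (nat_lit 336012) (nat_lit 2) (.e (nat_lit 90158) (nat_lit 11) (.e (nat_lit 24608) (nat_lit 3) .nil)))))) (.g (nat_lit 6) .nil .nil)))) (.nd (nat_lit 5) 
(.lf (nat_lit 221535) (.g (nat_lit 1319) (.e (nat_lit 98313) (nat_lit 9) (.e (nat_lit 336223) (nat_lit 13) (.e (nat_lit 393234) (nat_lit 17) (.e (nat_lit 3541) (nat_lit 218) .nil)))) .nil)) 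
(.lf (nat_lit 221567) (.g (nat_lit 2235) (.e (nat_lit 98315) (nat_lit 9) (.e (nat_lit 336116) (nat_lit 9) (.e (nat_lit 336453) (nat_lit 34) (.e (nat_lit 483365) (nat_lit 18) (.e (nat_lit 57846) (nat_lit 252) (.e (nat_lit 57377) (nat_lit 3) .nil)))))) (.g (nat_lit 6) .nil .nil)))))))))

noncomputable def tv2910 : DT := (.nd (nat_lit 0) (.nd (nat_lit 1) (.nd (nat_lit 2) (.nd (nat_lit 3) (.nd (nat_lit 4) (.nd (nat_lit 5) 
(.lf (nat_lit 221568) (.g (nat_lit 2505) (.e (nat_lit 98315) (nat_lit 9) (.e (nat_lit 336116) (nat_lit 9) (.e (nat_lit 336453) (nat_lit 34) (.e (nat_lit 483365) (nat_lit 18) (.e (nat_lit 57849) (nat_lit 252) (.e (nat_lit 57377) (nat_lit 3) .nil)))))) (.g (nat_lit 6) .nil .nil))) 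
(.lf (nat_lit 221600) (.g (nat_lit 2178) (.e (nat_lit 98315) (nat_lit 9) (.e (nat_lit 336121) (nat_lit 9) (.e (nat_lit 336453) (nat_lit 34) (.e (nat_lit 483366) (nat_lit 18) (.e (nat_lit 57854) (nat_lit 252) (.e (nat_lit 57378) (nat_lit 3) .nil)))))) (.g (nat_lit 6) .nil .nil)))) (.nd (nat_lit 5) 
(.lf (nat_lit 221584) (.g (nat_lit 1985) (.e (nat_lit 98315) (nat_lit 9) (.e (nat_lit 336119) (nat_lit 9) (.e (nat_lit 336453) (nat_lit 34) (.e (nat_lit 483365) (nat_lit 18) (.e (nat_lit 57848) (nat_lit 252) (.e (nat_lit 57377) (nat_lit 3) .nil)))))) (.g (nat_lit 0) .nil .nil))) 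
(.lf (nat_lit 221616) (.g (nat_lit 1920) (.e (nat_lit 98315) (nat_lit 9) (.e (nat_lit 336152) (nat_lit 9) (.e (nat_lit 336017) (nat_lit 3) (.e (nat_lit 98355) (nat_lit 26) (.e (nat_lit 426446) (nat_lit 20) (.e (nat_lit 114718) (nat_lit 23) .nil)))))) (.g (nat_lit 6) .nil .nil))))) (.nd (nat_lit 4) (.nd (nat_lit 5) 
(.lf (nat_lit 221576) (.g (nat_lit 2107) (.e (nat_lit 98315) (nat_lit 9) (.e (nat_lit 336118) (nat_lit 9) (.e (nat_lit 336453) (nat_lit 34) (.e (nat_lit 483366) (nat_lit 18) (.e (nat_lit 57849) (nat_lit 252) (.e (nat_lit 57377) (nat_lit 3) .nil)))))) (.g (nat_lit 6) .nil .nil))) 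
(.lf (nat_lit 221608) (.g (nat_lit 1857) (.e (nat_lit 98315) (nat_lit 9) (.e (nat_lit 336151) (nat_lit 9) (.e (nat_lit 336017) (nat_lit 3) (.e (nat_lit 98384) (nat_lit 32) (.e (nat_lit 475212) (nat_lit 42) (.e (nat_lit 720945) (nat_lit 23) .nil)))))) (.g (nat_lit 6) .nil .nil)))) (.nd (nat_lit 5) 
(.lf (nat_lit 221592) (.g (nat_lit 2197) (.e (nat_lit 98315) (nat_lit 9) (.e (nat_lit 336121) (nat_lit 9) (.e (nat_lit 336453) (nat_lit 34) (.e (nat_lit 483363) (nat_lit 18) (.e (nat_lit 57847) (nat_lit 252) (.e (nat_lit 57377) (nat_lit 3) .nil)))))) (.g (nat_lit 0) .nil .nil))) 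
(.lf (nat_lit 221624) (.g (nat_lit 2109) (.e (nat_lit 98315) (nat_lit 9) (.e (nat_lit 336152) (nat_lit 9) (.e (nat_lit 336017) (nat_lit 3) (.e (nat_lit 98384) (nat_lit 32) (.e (nat_lit 475214) (nat_lit 42) (.e (nat_lit 720945) (nat_lit 23) .nil)))))) (.g (nat_lit 5) .nil .nil)))))) (.nd (nat_lit 3) (.nd (nat_lit 4) (.nd (nat_lit 5) 
(.lf (nat_lit 221572) (.g (nat_lit 2205) (.e (nat_lit 98315) (nat_lit 9) (.e (nat_lit 336118) (nat_lit 9) (.e (nat_lit 336453) (nat_lit 34) (.e (nat_lit 483365) (nat_lit 18) (.e (nat_lit 57853) (nat_lit 252) (.e (nat_lit 57377) (nat_lit 3) .nil)))))) (.g (nat_lit 0) .nil .nil))) 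
(.lf (nat_lit 221604) (.g (nat_lit 2949) (.e (nat_lit 98315) (nat_lit 9) (.e (nat_lit 336151) (nat_lit 9) (.e (nat_lit 336017) (nat_lit 3) (.e (nat_lit 98356) (nat_lit 26) (.e (nat_lit 426448) (nat_lit 20) (.e (nat_lit 114719) (nat_lit 23) .nil)))))) (.g (nat_lit 0) .nil .nil)))) (.nd (nat_lit 5) 
(.lf (nat_lit 221588) (.g (nat_lit 2181) (.e (nat_lit 98315) (nat_lit 9) (.e (nat_lit 336119) (nat_lit 9) (.e (nat_lit 336453) (nat_lit 34) (.e (nat_lit 483365) (nat_lit 18) (.e (nat_lit 57852) (nat_lit 252) (.e (nat_lit 57377) (nat_lit 3) .nil)))))) (.g (nat_lit 0) .nil .nil))) 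
(.lf (nat_lit 221620) (.g (nat_lit 2419) (.e (nat_lit 98315) (nat_lit 9) (.e (nat_lit 336152) (nat_lit 9) (.e (nat_lit 336017) (nat_lit 3) (.e (nat_lit 98356) (nat_lit 26) (.e (nat_lit 426449) (nat_lit 20) (.e (nat_lit 114719) (nat_lit 23) .nil)))))) (.g (nat_lit 6) .nil .nil))))) (.nd (nat_lit 4) (.nd (nat_lit 5) 
(.lf (nat_lit 221580) (.g (nat_lit 2308) (.e (nat_lit 98315) (nat_lit 9) (.e (nat_lit 336119) (nat_lit 9) (.e (nat_lit 336453) (nat_lit 34) (.e (nat_lit 483363) (nat_lit 18) (.e (nat_lit 57849) (nat_lit 252) (.e (nat_lit 57377) (nat_lit 3) .nil)))))) (.g (nat_lit 6) .nil .nil))) 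
(.lf (nat_lit 221612) (.g (nat_lit 2348) (.e (nat_lit 98315) (nat_lit 9) (.e (nat_lit 336151) (nat_lit 9) (.e (nat_lit 336451) (nat_lit 34) (.e (nat_lit 483363) (nat_lit 18) (.e (nat_lit 57847) (nat_lit 252) (.e (nat_lit 57377) (nat_lit 3) .nil)))))) (.g (nat_lit 6) .nil .nil)))) (.nd (nat_lit 5) 
(.lf (nat_lit 221596) (.g (nat_lit 2057) (.e (nat_lit 98315) (nat_lit 9) (.e (nat_lit 336121) (nat_lit 9) (.e (nat_lit 336453) (nat_lit 34) (.e (nat_lit 483365) (nat_lit 18) (.e (nat_lit 57852) (nat_lit 252) (.e (nat_lit 57377) (nat_lit 3) .nil)))))) (.g (nat_lit 0) .nil .nil))) 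
(.lf (nat_lit 221628) (.g (nat_lit 2307) (.e (nat_lit 98315) (nat_lit 9) (.e (nat_lit 336152) (nat_lit 9) (.e (nat_lit 336453) (nat_lit 34) (.e (nat_lit 483363) (nat_lit 18) (.e (nat_lit 57849) (nat_lit 252) (.e (nat_lit 57377) (nat_lit 3) .nil)))))) (.g (nat_lit 6) .nil .nil))))))) (.nd (nat_lit 2) (.nd (nat_lit 3) (.nd (nat_lit 4) (.nd (nat_lit 5) 
(.lf (nat_lit 221570) (.g (nat_lit 2708) (.e (nat_lit 98315) (nat_lit 9) (.e (nat_lit 336118) (nat_lit 9) (.e (nat_lit 336453) (nat_lit 34) (.e (nat_lit 483365) (nat_lit 18) (.e (nat_lit 57849) (nat_lit 252) (.e (nat_lit 57379) (nat_lit 3) .nil)))))) (.g (nat_lit 6) .nil .nil))) 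
(.lf (nat_lit 221602) (.g (nat_lit 1847) (.e (nat_lit 98315) (nat_lit 9) (.e (nat_lit 336151) (nat_lit 9) (.e (nat_lit 336017) (nat_lit 3) (.e (nat_lit 98355) (nat_lit 26) (.e (nat_lit 426446) (nat_lit 20) (.e (nat_lit 114719) (nat_lit 23) .nil)))))) (.g (nat_lit 0) .nil .nil)))) (.nd (nat_lit 5) 
(.lf (nat_lit 221586) (.g (nat_lit 2787) (.e (nat_lit 98315) (nat_lit 9) (.e (nat_lit 336119) (nat_lit 9) (.e (nat_lit 336453) (nat_lit 34) (.e (nat_lit 483365) (nat_lit 18) (.e (nat_lit 57849) (nat_lit 252) (.e (nat_lit 57379) (nat_lit 3) .nil)))))) (.g (nat_lit 6) .nil .nil))) 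
(.lf (nat_lit 221618) (.g (nat_lit 2348) (.e (nat_lit 98315) (nat_lit 9) (.e (nat_lit 336152) (nat_lit 9) (.e (nat_lit 336017) (nat_lit 3) (.e (nat_lit 98356) (nat_lit 26) (.e (nat_lit 426446) (nat_lit 20) (.e (nat_lit 114718) (nat_lit 23) .nil)))))) (.g (nat_lit 0) .nil .nil))))) (.nd (nat_lit 4) (.nd (nat_lit 5) 
(.lf (nat_lit 221578) (.g (nat_lit 1828) (.e (nat_lit 98315) (nat_lit 9) (.e (nat_lit 336118) (nat_lit 9) (.e (nat_lit 336453) (nat_lit 34) (.e (nat_lit 483366) (nat_lit 18) (.e (nat_lit 57854) (nat_lit 252) (.e (nat_lit 57377) (nat_lit 3) .nil)))))) (.g (nat_lit 6) .nil .nil))) 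
(.lf (nat_lit 221610) (.g (nat_lit 2044) (.e (nat_lit 98315) (nat_lit 9) (.e (nat_lit 336151) (nat_lit 9) (.e (nat_lit 336017) (nat_lit 3) (.e (nat_lit 98384) (nat_lit 32) (.e (nat_lit 475214) (nat_lit 42) (.e (nat_lit 720945) (nat_lit 23) .nil)))))) (.g (nat_lit 5) .nil .nil)))) (.nd (nat_lit 5) 
(.lf (nat_lit 221594) (.g (nat_lit 2391) (.e (nat_lit 98315) (nat_lit 9) (.e (nat_lit 336121) (nat_lit 9) (.e (nat_lit 336453) (nat_lit 34) (.e (nat_lit 483363) (nat_lit 18) (.e (nat_lit 57849) (nat_lit 252) (.e (nat_lit 57377) (nat_lit 3) .nil)))))) (.g (nat_lit 6) .nil .nil))) 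
(.lf (nat_lit 221626) (.g (nat_lit 2092) (.e (nat_lit 98315) (nat_lit 9) (.e (nat_lit 336152) (nat_lit 9) (.e (nat_lit 336453) (nat_lit 34) (.e (nat_lit 483363) (nat_lit 18) (.e (nat_lit 57847) (nat_lit 252) (.e (nat_lit 57377) (nat_lit 3) .nil)))))) (.g (nat_lit 6) .nil .nil)))))) (.nd (nat_lit 3) (.nd (nat_lit 4) (.nd (nat_lit 5) 
(.lf (nat_lit 221574) (.g (nat_lit 1966) (.e (nat_lit 98315) (nat_lit 9) (.e (nat_lit 336118) (nat_lit 9) (.e (nat_lit 336453) (nat_lit 34) (.e (nat_lit 483366) (nat_lit 18) (.e (nat_lit 57846) (nat_lit 252) (.e (nat_lit 57377) (nat_lit 3) .nil)))))) (.g (nat_lit 6) .nil .nil))) 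
(.lf (nat_lit 221606) (.g (nat_lit 1627) (.e (nat_lit 98315) (nat_lit 9) (.e (nat_lit 336151) (nat_lit 9) (.e (nat_lit 336017) (nat_lit 3) (.e (nat_lit 98357) (nat_lit 26) (.e (nat_lit 426446) (nat_lit 20) (.e (nat_lit 114718) (nat_lit 23) .nil)))))) (.g (nat_lit 0) .nil .nil)))) (.nd (nat_lit 5) 
(.lf (nat_lit 221590) (.g (nat_lit 1875) (.e (nat_lit 98315) (nat_lit 9) (.e (nat_lit 336119) (nat_lit 9) (.e (nat_lit 336453) (nat_lit 34) (.e (nat_lit 483366) (nat_lit 18) (.e (nat_lit 57846) (nat_lit 252) (.e (nat_lit 57377) (nat_lit 3) .nil)))))) (.g (nat_lit 6) .nil .nil))) 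
(.lf (nat_lit 221622) (.g (nat_lit 1925) (.e (nat_lit 98315) (nat_lit 9) (.e (nat_lit 336152) (nat_lit 9) (.e (nat_lit 336017) (nat_lit 3) (.e (nat_lit 98384) (nat_lit 32) (.e (nat_lit 475212) (nat_lit 42) (.e (nat_lit 720945) (nat_lit 23) .nil)))))) (.g (nat_lit 6) .nil .nil))))) (.nd (nat_lit 4) (.nd (nat_lit 5) 
(.lf (nat_lit 221582) (.g (nat_lit 2343) (.e (nat_lit 98315) (nat_lit 9) (.e (nat_lit 336119) (nat_lit 9) (.e (nat_lit 336453) (nat_lit 34) (.e (nat_lit 483365) (nat_lit 18) (.e (nat_lit 57847) (nat_lit 252) (.e (nat_lit 57377) (nat_lit 3) .nil)))))) (.g (nat_lit 0) .nil .nil))) 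
(.lf (nat_lit 221614) (.g (nat_lit 136) (.e (nat_lit 98315) (nat_lit 9) (.e (nat_lit 336151) (nat_lit 9) (.e (nat_lit 336453) (nat_lit 34) .nil))) .nil))) (.nd (nat_lit 5) 
(.lf (nat_lit 221598) (.g (nat_lit 1738) (.e (nat_lit 98315) (nat_lit 9) (.e (nat_lit 336121) (nat_lit 9) (.e (nat_lit 336453) (nat_lit 34) (.e (nat_lit 483366) (nat_lit 18) (.e (nat_lit 57847) (nat_lit 252) (.e (nat_lit 57379) (nat_lit 3) .nil)))))) (.g (nat_lit 6) .nil .nil))) 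
(.lf (nat_lit 221630) (.g (nat_lit 2120) (.e (nat_lit 98315) (nat_lit 9) (.e (nat_lit 336152) (nat_lit 9) (.e (nat_lit 336453) (nat_lit 34) (.e (nat_lit 483364) (nat_lit 18) (.e (nat_lit 57854) (nat_lit 252) (.e (nat_lit 57378) (nat_lit 3) .nil)))))) (.g (nat_lit 6) .nil .nil)))))))) (.nd (nat_lit 1) (.nd (nat_lit 2) (.nd (nat_lit 3) (.nd (nat_lit 4) (.nd (nat_lit 5) 
(.lf (nat_lit 221569) (.g (nat_lit 2339) (.e (nat_lit 98315) (nat_lit 9) (.e (nat_lit 336118) (nat_lit 9) (.e (nat_lit 336453) (nat_lit 34) (.e (nat_lit 483363) (nat_lit 18) (.e (nat_lit 57849) (nat_lit 252) (.e (nat_lit 57377) (nat_lit 3) .nil)))))) (.g (nat_lit 6) .nil .nil))) 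
(.lf (nat_lit 221601) (.g (nat_lit 1865) (.e (nat_lit 98315) (nat_lit 9) (.e (nat_lit 336151) (nat_lit 9) (.e (nat_lit 336017) (nat_lit 3) (.e (nat_lit 98355) (nat_lit 26) (.e (nat_lit 426446) (nat_lit 20) (.e (nat_lit 114718) (nat_lit 23) .nil)))))) (.g (nat_lit 6) .nil .nil)))) (.nd (nat_lit 5) 
(.lf (nat_lit 221585) (.g (nat_lit 2793) (.e (nat_lit 98315) (nat_lit 9) (.e (nat_lit 336119) (nat_lit 9) (.e (nat_lit 336453) (nat_lit 34) (.e (nat_lit 483365) (nat_lit 18) (.e (nat_lit 57849) (nat_lit 252) (.e (nat_lit 57377) (nat_lit 3) .nil)))))) (.g (nat_lit 0) .nil .nil))) 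
(.lf (nat_lit 221617) (.g (nat_lit 1907) (.e (nat_lit 98315) (nat_lit 9) (.e (nat_lit 336152) (nat_lit 9) (.e (nat_lit 336017) (nat_lit 3) (.e (nat_lit 98355) (nat_lit 26) (.e (nat_lit 426446) (nat_lit 20) (.e (nat_lit 114719) (nat_lit 23) .nil)))))) (.g (nat_lit 6) .nil .nil))))) (.nd (nat_lit 4) (.nd (nat_lit 5) 
(.lf (nat_lit 221577) (.g (nat_lit 1989) (.e (nat_lit 98315) (nat_lit 9) (.e (nat_lit 336118) (nat_lit 9) (.e (nat_lit 336453) (nat_lit 34) (.e (nat_lit 483366) (nat_lit 18) (.e (nat_lit 57853) (nat_lit 252) (.e (nat_lit 57377) (nat_lit 3) .nil)))))) (.g (nat_lit 6) .nil .nil))) 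
(.lf (nat_lit 221609) (.g (nat_lit 2205) (.e (nat_lit 98315) (nat_lit 9) (.e (nat_lit 336151) (nat_lit 9) (.e (nat_lit 336017) (nat_lit 3) (.e (nat_lit 98384) (nat_lit 32) (.e (nat_lit 475214) (nat_lit 42) (.e (nat_lit 720944) (nat_lit 23) .nil)))))) (.g (nat_lit 6) .nil .nil)))) (.nd (nat_lit 5) 
(.lf (nat_lit 221593) (.g (nat_lit 2107) (.e (nat_lit 98315) (nat_lit 9) (.e (nat_lit 336121) (nat_lit 9) (.e (nat_lit 336453) (nat_lit 34) (.e (nat_lit 483363) (nat_lit 18) (.e (nat_lit 57847) (nat_lit 252) (.e (nat_lit 57379) (nat_lit 3) .nil)))))) (.g (nat_lit 0) .nil .nil))) 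
(.lf (nat_lit 221625) (.g (nat_lit 1538) (.e (nat_lit 98315) (nat_lit 9) (.e (nat_lit 336152) (nat_lit 9) (.e (nat_lit 336017) (nat_lit 3) (.e (nat_lit 98385) (nat_lit 32) (.e (nat_lit 475212) (nat_lit 42) (.e (nat_lit 720945) (nat_lit 23) .nil)))))) (.g (nat_lit 0) .nil .nil)))))) (.nd (nat_lit 3) (.nd (nat_lit 4) (.nd (nat_lit 5) 
(.lf (nat_lit 221573) (.g (nat_lit 2412) (.e (nat_lit 98315) (nat_lit 9) (.e (nat_lit 336118) (nat_lit 9) (.e (nat_lit 336453) (nat_lit 34) (.e (nat_lit 483365) (nat_lit 18) (.e (nat_lit 57854) (nat_lit 252) (.e (nat_lit 57378) (nat_lit 3) .nil)))))) (.g (nat_lit 6) .nil .nil))) 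
(.lf (nat_lit 221605) (.g (nat_lit 1845) (.e (nat_lit 98315) (nat_lit 9) (.e (nat_lit 336151) (nat_lit 9) (.e (nat_lit 336017) (nat_lit 3) (.e (nat_lit 98356) (nat_lit 26) (.e (nat_lit 426448) (nat_lit 20) (.e (nat_lit 122624) (nat_lit 23) .nil)))))) (.g (nat_lit 5) .nil .nil)))) (.nd (nat_lit 5) 
(.lf (nat_lit 221589) (.g (nat_lit 2376) (.e (nat_lit 98315) (nat_lit 9) (.e (nat_lit 336119) (nat_lit 9) (.e (nat_lit 336453) (nat_lit 34) (.e (nat_lit 483365) (nat_lit 18) (.e (nat_lit 57853) (nat_lit 252) (.e (nat_lit 57377) (nat_lit 3) .nil)))))) (.g (nat_lit 0) .nil .nil))) 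
(.lf (nat_lit 221621) (.g (nat_lit 1677) (.e (nat_lit 98315) (nat_lit 9) (.e (nat_lit 336152) (nat_lit 9) (.e (nat_lit 336017) (nat_lit 3) (.e (nat_lit 98357) (nat_lit 26) (.e (nat_lit 426446) (nat_lit 20) (.e (nat_lit 114718) (nat_lit 23) .nil)))))) (.g (nat_lit 0) .nil .nil))))) (.nd (nat_lit 4) (.nd (nat_lit 5) 
(.lf (nat_lit 221581) (.g (nat_lit 2029) (.e (nat_lit 98315) (nat_lit 9) (.e (nat_lit 336119) (nat_lit 9) (.e (nat_lit 336453) (nat_lit 34) (.e (nat_lit 483364) (nat_lit 18) (.e (nat_lit 57854) (nat_lit 252) (.e (nat_lit 57378) (nat_lit 3) .nil)))))) (.g (nat_lit 6) .nil .nil))) 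
(.lf (nat_lit 221613) (.g (nat_lit 2053) (.e (nat_lit 98315) (nat_lit 9) (.e (nat_lit 336151) (nat_lit 9) (.e (nat_lit 336451) (nat_lit 34) (.e (nat_lit 483363) (nat_lit 18) (.e (nat_lit 57847) (nat_lit 252) (.e (nat_lit 57379) (nat_lit 3) .nil)))))) (.g (nat_lit 6) .nil .nil)))) (.nd (nat_lit 5) 
(.lf (nat_lit 221597) (.g (nat_lit 1825) (.e (nat_lit 98315) (nat_lit 9) (.e (nat_lit 336121) (nat_lit 9) (.e (nat_lit 336453) (nat_lit 34) (.e (nat_lit 483366) (nat_lit 18) (.e (nat_lit 57847) (nat_lit 252) (.e (nat_lit 57377) (nat_lit 3) .nil)))))) (.g (nat_lit 6) .nil .nil))) 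
(.lf (nat_lit 221629) (.g (nat_lit 1824) (.e (nat_lit 98315) (nat_lit 9) (.e (nat_lit 336152) (nat_lit 9) (.e (nat_lit 336453) (nat_lit 34) (.e (nat_lit 483364) (nat_lit 18) (.e (nat_lit 57854) (nat_lit 252) (.e (nat_lit 57377) (nat_lit 3) .nil)))))) (.g (nat_lit 6) .nil .nil))))))) (.nd (nat_lit 2) (.nd (nat_lit 3) (.nd (nat_lit 4) (.nd (nat_lit 5) 
(.lf (nat_lit 221571) (.g (nat_lit 2015) (.e (nat_lit 98315) (nat_lit 9) (.e (nat_lit 336118) (nat_lit 9) (.e (nat_lit 336453) (nat_lit 34) (.e (nat_lit 483365) (nat_lit 18) (.e (nat_lit 57852) (nat_lit 252) (.e (nat_lit 57377) (nat_lit 3) .nil)))))) (.g (nat_lit 0) .nil .nil))) 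
(.lf (nat_lit 221603) (.g (nat_lit 2280) (.e (nat_lit 98315) (nat_lit 9) (.e (nat_lit 336151) (nat_lit 9) (.e (nat_lit 336017) (nat_lit 3) (.e (nat_lit 98356) (nat_lit 26) (.e (nat_lit 426446) (nat_lit 20) (.e (nat_lit 114718) (nat_lit 23) .nil)))))) (.g (nat_lit 0) .nil .nil)))) (.nd (nat_lit 5) 
(.lf (nat_lit 221587) (.g (nat_lit 2009) (.e (nat_lit 98315) (nat_lit 9) (.e (nat_lit 336119) (nat_lit 9) (.e (nat_lit 336453) (nat_lit 34) (.e (nat_lit 483365) (nat_lit 18) (.e (nat_lit 57851) (nat_lit 252) (.e (nat_lit 57377) (nat_lit 3) .nil)))))) (.g (nat_lit 0) .nil .nil))) 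
(.lf (nat_lit 221619) (.g (nat_lit 1872) (.e (nat_lit 98315) (nat_lit 9) (.e (nat_lit 336152) (nat_lit 9) (.e (nat_lit 336017) (nat_lit 3) (.e (nat_lit 98356) (nat_lit 26) (.e (nat_lit 426448) (nat_lit 20) (.e (nat_lit 122624) (nat_lit 23) .nil)))))) (.g (nat_lit 5) .nil .nil))))) (.nd (nat_lit 4) (.nd (nat_lit 5) 
(.lf (nat_lit 221579) (.g (nat_lit 2050) (.e (nat_lit 98315) (nat_lit 9) (.e (nat_lit 336118) (nat_lit 9) (.e (nat_lit 336453) (nat_lit 34) (.e (nat_lit 483366) (nat_lit 18) (.e (nat_lit 57854) (nat_lit 252) (.e (nat_lit 57378) (nat_lit 3) .nil)))))) (.g (nat_lit 6) .nil .nil))) 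
(.lf (nat_lit 221611) (.g (nat_lit 1496) (.e (nat_lit 98315) (nat_lit 9) (.e (nat_lit 336151) (nat_lit 9) (.e (nat_lit 336017) (nat_lit 3) (.e (nat_lit 98385) (nat_lit 32) (.e (nat_lit 475212) (nat_lit 42) (.e (nat_lit 720945) (nat_lit 23) .nil)))))) (.g (nat_lit 0) .nil .nil)))) (.nd (nat_lit 5) 
(.lf (nat_lit 221595) (.g (nat_lit 1882) (.e (nat_lit 98315) (nat_lit 9) (.e (nat_lit 336121) (nat_lit 9) (.e (nat_lit 336453) (nat_lit 34) (.e (nat_lit 483365) (nat_lit 18) (.e (nat_lit 57851) (nat_lit 252) (.e (nat_lit 57377) (nat_lit 3) .nil)))))) (.g (nat_lit 0) .nil .nil))) 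
(.lf (nat_lit 221627) (.g (nat_lit 2004) (.e (nat_lit 98315) (nat_lit 9) (.e (nat_lit 336152) (nat_lit 9) (.e (nat_lit 336453) (nat_lit 34) (.e (nat_lit 483363) (nat_lit 18) (.e (nat_lit 57847) (nat_lit 252) (.e (nat_lit 57379) (nat_lit 3) .nil)))))) (.g (nat_lit 6) .nil .nil)))))) (.nd (nat_lit 3) (.nd (nat_lit 4) (.nd (nat_lit 5) 
(.lf (nat_lit 221575) (.g (nat_lit 1758) (.e (nat_lit 98315) (nat_lit 9) (.e (nat_lit 336118) (nat_lit 9) (.e (nat_lit 336453) (nat_lit 34) (.e (nat_lit 483366) (nat_lit 18) (.e (nat_lit 57847) (nat_lit 252) (.e (nat_lit 57377) (nat_lit 3) .nil)))))) (.g (nat_lit 6) .nil .nil))) 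
(.lf (nat_lit 221607) (.g (nat_lit 2212) (.e (nat_lit 98315) (nat_lit 9) (.e (nat_lit 336151) (nat_lit 9) (.e (nat_lit 336017) (nat_lit 3) (.e (nat_lit 98357) (nat_lit 26) (.e (nat_lit 426448) (nat_lit 20) (.e (nat_lit 114719) (nat_lit 23) .nil)))))) (.g (nat_lit 0) .nil .nil)))) (.nd (nat_lit 5) 
(.lf (nat_lit 221591) (.g (nat_lit 2074) (.e (nat_lit 98315) (nat_lit 9) (.e (nat_lit 336119) (nat_lit 9) (.e (nat_lit 336453) (nat_lit 34) (.e (nat_lit 483366) (nat_lit 18) (.e (nat_lit 57849) (nat_lit 252) (.e (nat_lit 57377) (nat_lit 3) .nil)))))) (.g (nat_lit 6) .nil .nil))) 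
(.lf (nat_lit 221623) (.g (nat_lit 2275) (.e (nat_lit 98315) (nat_lit 9) (.e (nat_lit 336152) (nat_lit 9) (.e (nat_lit 336017) (nat_lit 3) (.e (nat_lit 98384) (nat_lit 32) (.e (nat_lit 475214) (nat_lit 42) (.e (nat_lit 720944) (nat_lit 23) .nil)))))) (.g (nat_lit 6) .nil .nil))))) (.nd (nat_lit 4) (.nd (nat_lit 5) 
(.lf (nat_lit 221583) (.g (nat_lit 2175) (.e (nat_lit 98315) (nat_lit 9) (.e (nat_lit 336119) (nat_lit 9) (.e (nat_lit 336453) (nat_lit 34) (.e (nat_lit 483365) (nat_lit 18) (.e (nat_lit 57847) (nat_lit 252) (.e (nat_lit 57379) (nat_lit 3) .nil)))))) (.g (nat_lit 0) .nil .nil))) 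
(.lf (nat_lit 221615) (.g (nat_lit 2468) (.e (nat_lit 98315) (nat_lit 9) (.e (nat_lit 336151) (nat_lit 9) (.e (nat_lit 336453) (nat_lit 34) (.e (nat_lit 483365) (nat_lit 18) (.e (nat_lit 57849) (nat_lit 252) (.e (nat_lit 57377) (nat_lit 3) .nil)))))) (.g (nat_lit 6) .nil .nil)))) (.nd (nat_lit 5) 
(.lf (nat_lit 221599) (.g (nat_lit 1904) (.e (nat_lit 98315) (nat_lit 9) (.e (nat_lit 336121) (nat_lit 9) (.e (nat_lit 336453) (nat_lit 34) (.e (nat_lit 483366) (nat_lit 18) (.e (nat_lit 57854) (nat_lit 252) (.e (nat_lit 57377) (nat_lit 3) .nil)))))) (.g (nat_lit 6) .nil .nil))) 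
(.lf (nat_lit 221631) (.g (nat_lit 2191) (.e (nat_lit 98315) (nat_lit 9) (.e (nat_lit 336152) (nat_lit 9) (.e (nat_lit 336453) (nat_lit 34) (.e (nat_lit 483365) (nat_lit 18) (.e (nat_lit 57847) (nat_lit 252) (.e (nat_lit 57377) (nat_lit 3) .nil)))))) (.g (nat_lit 0) .nil .nil)))))))))

noncomputable def tv2911 : DT := (.nd (nat_lit 0) (.nd (nat_lit 1) (.nd (nat_lit 2) (.nd (nat_lit 3) (.nd (nat_lit 4) (.nd (nat_lit 5) 
(.lf (nat_lit 221632) (.g (nat_lit 2083) (.e (nat_lit 98315) (nat_lit 9) (.e (nat_lit 336152) (nat_lit 9) (.e (nat_lit 336453) (nat_lit 34) (.e (nat_lit 483365) (nat_lit 18) (.e (nat_lit 57847) (nat_lit 252) (.e (nat_lit 57379) (nat_lit 3) .nil)))))) (.g (nat_lit 0) .nil .nil))) 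
(.lf (nat_lit 221664) (.g (nat_lit 1984) (.e (nat_lit 98316) (nat_lit 9) (.e (nat_lit 335986) (nat_lit 1) (.e (nat_lit 57927) (nat_lit 282) (.e (nat_lit 163903) (nat_lit 12) (.e (nat_lit 426555) (nat_lit 32) .nil))))) .nil))) (.nd (nat_lit 5) 
(.lf (nat_lit 221648) (.g (nat_lit 2499) (.e (nat_lit 98315) (nat_lit 9) (.e (nat_lit 336153) (nat_lit 9) (.e (nat_lit 336453) (nat_lit 34) (.e (nat_lit 483365) (nat_lit 18) (.e (nat_lit 57854) (nat_lit 252) (.e (nat_lit 57378) (nat_lit 3) .nil)))))) (.g (nat_lit 6) .nil .nil))) 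
(.lf (nat_lit 221680) (.g (nat_lit 1513) (.e (nat_lit 98316) (nat_lit 9) (.e (nat_lit 335988) (nat_lit 1) (.e (nat_lit 57927) (nat_lit 282) (.e (nat_lit 163904) (nat_lit 12) (.e (nat_lit 426555) (nat_lit 32) .nil))))) .nil)))) (.nd (nat_lit 4) (.nd (nat_lit 5) 
(.lf (nat_lit 221640) (.g (nat_lit 2137) (.e (nat_lit 98315) (nat_lit 9) (.e (nat_lit 336153) (nat_lit 9) (.e (nat_lit 336390) (nat_lit 27) (.e (nat_lit 426500) (nat_lit 27) (.e (nat_lit 335995) (nat_lit 1) (.e (nat_lit 57847) (nat_lit 252) (.e (nat_lit 57379) (nat_lit 3) .nil))))))) (.g (nat_lit 6) .nil .nil))) 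
(.lf (nat_lit 221672) (.g (nat_lit 2578) (.e (nat_lit 98316) (nat_lit 9) (.e (nat_lit 335988) (nat_lit 1) (.e (nat_lit 57926) (nat_lit 282) (.e (nat_lit 163903) (nat_lit 12) (.e (nat_lit 426538) (nat_lit 29) .nil))))) .nil))) (.nd (nat_lit 5) 
(.lf (nat_lit 221656) (.g (nat_lit 1920) (.e (nat_lit 98315) (nat_lit 9) (.e (nat_lit 336154) (nat_lit 9) (.e (nat_lit 336453) (nat_lit 34) (.e (nat_lit 483366) (nat_lit 18) (.e (nat_lit 57853) (nat_lit 252) (.e (nat_lit 57377) (nat_lit 3) .nil)))))) (.g (nat_lit 6) .nil .nil))) 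
(.lf (nat_lit 221688) (.g (nat_lit 1878) (.e (nat_lit 98316) (nat_lit 9) (.e (nat_lit 335988) (nat_lit 1) (.e (nat_lit 57931) (nat_lit 282) (.e (nat_lit 163905) (nat_lit 12) .nil)))) .nil))))) (.nd (nat_lit 3) (.nd (nat_lit 4) (.nd (nat_lit 5) 
(.lf (nat_lit 221636) (.g (nat_lit 2459) (.e (nat_lit 98315) (nat_lit 9) (.e (nat_lit 336152) (nat_lit 9) (.e (nat_lit 336453) (nat_lit 34) (.e (nat_lit 483365) (nat_lit 18) (.e (nat_lit 57854) (nat_lit 252) (.e (nat_lit 57378) (nat_lit 3) .nil)))))) (.g (nat_lit 0) .nil .nil))) 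
(.lf (nat_lit 221668) (.g (nat_lit 701) (.e (nat_lit 98316) (nat_lit 9) (.e (nat_lit 335986) (nat_lit 1) (.e (nat_lit 57931) (nat_lit 282) .nil))) .nil))) (.nd (nat_lit 5) 
(.lf (nat_lit 221652) (.g (nat_lit 2091) (.e (nat_lit 98315) (nat_lit 9) (.e (nat_lit 336154) (nat_lit 9) (.e (nat_lit 336453) (nat_lit 34) (.e (nat_lit 483365) (nat_lit 18) (.e (nat_lit 57847) (nat_lit 252) (.e (nat_lit 57379) (nat_lit 3) .nil)))))) (.g (nat_lit 0) .nil .nil))) 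
(.lf (nat_lit 221684) (.g (nat_lit 1813) (.e (nat_lit 98316) (nat_lit 9) (.e (nat_lit 335988) (nat_lit 1) (.e (nat_lit 57927) (nat_lit 282) (.e (nat_lit 163907) (nat_lit 12) (.e (nat_lit 426555) (nat_lit 32) .nil))))) .nil)))) (.nd (nat_lit 4) (.nd (nat_lit 5) 
(.lf (nat_lit 221644) (.g (nat_lit 2115) (.e (nat_lit 98315) (nat_lit 9) (.e (nat_lit 336153) (nat_lit 9) (.e (nat_lit 336453) (nat_lit 34) (.e (nat_lit 483365) (nat_lit 18) (.e (nat_lit 57847) (nat_lit 252) (.e (nat_lit 57379) (nat_lit 3) .nil)))))) (.g (nat_lit 6) .nil .nil))) 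
(.lf (nat_lit 221676) (.g (nat_lit 1607) (.e (nat_lit 98316) (nat_lit 9) (.e (nat_lit 335988) (nat_lit 1) (.e (nat_lit 57926) (nat_lit 282) (.e (nat_lit 163906) (nat_lit 12) .nil)))) .nil))) (.nd (nat_lit 5) 
(.lf (nat_lit 221660) (.g (nat_lit 2773) (.e (nat_lit 98315) (nat_lit 9) (.e (nat_lit 336209) (nat_lit 13) (.e (nat_lit 393225) (nat_lit 9) (.e (nat_lit 335995) (nat_lit 1) (.e (nat_lit 57847) (nat_lit 252) (.e (nat_lit 57379) (nat_lit 3) .nil)))))) (.g (nat_lit 0) .nil .nil))) 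
(.lf (nat_lit 221692) (.g (nat_lit 2605) (.e (nat_lit 98316) (nat_lit 9) (.e (nat_lit 335995) (nat_lit 1) (.e (nat_lit 57931) (nat_lit 282) (.e (nat_lit 163902) (nat_lit 12) (.e (nat_lit 426556) (nat_lit 32) .nil))))) .nil)))))) (.nd (nat_lit 2) (.nd (nat_lit 3) (.nd (nat_lit 4) (.nd (nat_lit 5) 
(.lf (nat_lit 221634) (.g (nat_lit 2716) (.e (nat_lit 98315) (nat_lit 9) (.e (nat_lit 336152) (nat_lit 9) (.e (nat_lit 336453) (nat_lit 34) (.e (nat_lit 483365) (nat_lit 18) (.e (nat_lit 57849) (nat_lit 252) (.e (nat_lit 57379) (nat_lit 3) .nil)))))) (.g (nat_lit 6) .nil .nil))) 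
(.lf (nat_lit 221666) (.g (nat_lit 1824) (.e (nat_lit 98316) (nat_lit 9) (.e (nat_lit 335986) (nat_lit 1) (.e (nat_lit 57927) (nat_lit 282) (.e (nat_lit 163905) (nat_lit 12) (.e (nat_lit 426555) (nat_lit 32) .nil))))) .nil))) (.nd (nat_lit 5) 
(.lf (nat_lit 221650) (.g (nat_lit 2097) (.e (nat_lit 98315) (nat_lit 9) (.e (nat_lit 336154) (nat_lit 9) (.e (nat_lit 336453) (nat_lit 34) (.e (nat_lit 483364) (nat_lit 18) (.e (nat_lit 57854) (nat_lit 252) (.e (nat_lit 57378) (nat_lit 3) .nil)))))) (.g (nat_lit 6) .nil .nil))) 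
(.lf (nat_lit 221682) (.g (nat_lit 1604) (.e (nat_lit 98316) (nat_lit 9) (.e (nat_lit 335988) (nat_lit 1) (.e (nat_lit 57927) (nat_lit 282) (.e (nat_lit 163905) (nat_lit 12) (.e (nat_lit 426555) (nat_lit 32) .nil))))) .nil)))) (.nd (nat_lit 4) (.nd (nat_lit 5) 
(.lf (nat_lit 221642) (.g (nat_lit 2352) (.e (nat_lit 98315) (nat_lit 9) (.e (nat_lit 336153) (nat_lit 9) (.e (nat_lit 336453) (nat_lit 34) (.e (nat_lit 483365) (nat_lit 18) (.e (nat_lit 57846) (nat_lit 252) (.e (nat_lit 57377) (nat_lit 3) .nil)))))) (.g (nat_lit 6) .nil .nil))) 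
(.lf (nat_lit 221674) (.g (nat_lit 1555) (.e (nat_lit 98316) (nat_lit 9) (.e (nat_lit 335988) (nat_lit 1) (.e (nat_lit 57926) (nat_lit 282) (.e (nat_lit 163905) (nat_lit 12) .nil)))) .nil))) (.nd (nat_lit 5) 
(.lf (nat_lit 221658) (.g (nat_lit 2071) (.e (nat_lit 98315) (nat_lit 9) (.e (nat_lit 336154) (nat_lit 9) (.e (nat_lit 336453) (nat_lit 34) (.e (nat_lit 483366) (nat_lit 18) (.e (nat_lit 57854) (nat_lit 252) (.e (nat_lit 57378) (nat_lit 3) .nil)))))) (.g (nat_lit 6) .nil .nil))) 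
(.lf (nat_lit 221690) (.g (nat_lit 1457) (.e (nat_lit 98316) (nat_lit 9) (.e (nat_lit 335995) (nat_lit 1) (.e (nat_lit 57872) (nat_lit 264) (.e (nat_lit 1190) (nat_lit 88) .nil)))) .nil))))) (.nd (nat_lit 3) (.nd (nat_lit 4) (.nd (nat_lit 5) 
(.lf (nat_lit 221638) (.g (nat_lit 2106) (.e (nat_lit 98315) (nat_lit 9) (.e (nat_lit 336152) (nat_lit 9) (.e (nat_lit 336453) (nat_lit 34) (.e (nat_lit 483366) (nat_lit 18) (.e (nat_lit 57854) (nat_lit 252) (.e (nat_lit 57378) (nat_lit 3) .nil)))))) (.g (nat_lit 0) .nil .nil))) 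
(.lf (nat_lit 221670) (.g (nat_lit 919) (.e (nat_lit 98316) (nat_lit 9) (.e (nat_lit 335987) (nat_lit 1) (.e (nat_lit 57927) (nat_lit 282) (.e (nat_lit 163906) (nat_lit 12) .nil)))) .nil))) (.nd (nat_lit 5) 
(.lf (nat_lit 221654) (.g (nat_lit 1892) (.e (nat_lit 98315) (nat_lit 9) (.e (nat_lit 336154) (nat_lit 9) (.e (nat_lit 336453) (nat_lit 34) (.e (nat_lit 483366) (nat_lit 18) (.e (nat_lit 57846) (nat_lit 252) (.e (nat_lit 57377) (nat_lit 3) .nil)))))) (.g (nat_lit 6) .nil .nil))) 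
(.lf (nat_lit 221686) (.g (nat_lit 2730) (.e (nat_lit 98316) (nat_lit 9) (.e (nat_lit 335988) (nat_lit 1) (.e (nat_lit 57931) (nat_lit 282) (.e (nat_lit 163902) (nat_lit 12) (.e (nat_lit 426555) (nat_lit 32) .nil))))) .nil)))) (.nd (nat_lit 4) (.nd (nat_lit 5) 
(.lf (nat_lit 221646) (.g (nat_lit 2718) (.e (nat_lit 98315) (nat_lit 9) (.e (nat_lit 336153) (nat_lit 9) (.e (nat_lit 336453) (nat_lit 34) (.e (nat_lit 483365) (nat_lit 18) (.e (nat_lit 57849) (nat_lit 252) (.e (nat_lit 57379) (nat_lit 3) .nil)))))) (.g (nat_lit 6) .nil .nil))) 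
(.lf (nat_lit 221678) (.g (nat_lit 2078) (.e (nat_lit 98316) (nat_lit 9) (.e (nat_lit 335988) (nat_lit 1) (.e (nat_lit 57926) (nat_lit 282) (.e (nat_lit 163907) (nat_lit 12) (.e (nat_lit 426555) (nat_lit 32) .nil))))) .nil))) (.nd (nat_lit 5) 
(.lf (nat_lit 221662) (.g (nat_lit 1303) (.e (nat_lit 98316) (nat_lit 9) (.e (nat_lit 335886) (nat_lit 0) (.e (nat_lit 1788) (nat_lit 119) (.e (nat_lit 516195) (nat_lit 26) (.e (nat_lit 336004) (nat_lit 2) .nil))))) .nil)) 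
(.lf (nat_lit 221694) (.g (nat_lit 1604) (.e (nat_lit 98316) (nat_lit 9) (.e (nat_lit 335995) (nat_lit 1) (.e (nat_lit 57931) (nat_lit 282) (.e (nat_lit 163905) (nat_lit 12) .nil)))) .nil))))))) (.nd (nat_lit 1) (.nd (nat_lit 2) (.nd (nat_lit 3) (.nd (nat_lit 4) (.nd (nat_lit 5) 
(.lf (nat_lit 221633) (.g (nat_lit 2088) (.e (nat_lit 98315) (nat_lit 9) (.e (nat_lit 336152) (nat_lit 9) (.e (nat_lit 336453) (nat_lit 34) (.e (nat_lit 483365) (nat_lit 18) (.e (nat_lit 57848) (nat_lit 252) (.e (nat_lit 57379) (nat_lit 3) .nil)))))) (.g (nat_lit 0) .nil .nil))) 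
(.lf (nat_lit 221665) (.g (nat_lit 1429) (.e (nat_lit 98316) (nat_lit 9) (.e (nat_lit 335986) (nat_lit 1) (.e (nat_lit 57927) (nat_lit 282) (.e (nat_lit 163904) (nat_lit 12) .nil)))) .nil))) (.nd (nat_lit 5) 
(.lf (nat_lit 221649) (.g (nat_lit 2057) (.e (nat_lit 98315) (nat_lit 9) (.e (nat_lit 336154) (nat_lit 9) (.e (nat_lit 336453) (nat_lit 34) (.e (nat_lit 483363) (nat_lit 18) (.e (nat_lit 57847) (nat_lit 252) (.e (nat_lit 57377) (nat_lit 3) .nil)))))) (.g (nat_lit 6) .nil .nil))) 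
(.lf (nat_lit 221681) (.g (nat_lit 1596) (.e (nat_lit 98316) (nat_lit 9) (.e (nat_lit 335988) (nat_lit 1) (.e (nat_lit 57927) (nat_lit 282) (.e (nat_lit 163905) (nat_lit 12) (.e (nat_lit 426542) (nat_lit 29) .nil))))) .nil)))) (.nd (nat_lit 4) (.nd (nat_lit 5) 
(.lf (nat_lit 221641) (.g (nat_lit 2126) (.e (nat_lit 98315) (nat_lit 9) (.e (nat_lit 336153) (nat_lit 9) (.e (nat_lit 336390) (nat_lit 27) (.e (nat_lit 426500) (nat_lit 27) (.e (nat_lit 335996) (nat_lit 1) (.e (nat_lit 57854) (nat_lit 252) (.e (nat_lit 57377) (nat_lit 3) .nil))))))) (.g (nat_lit 6) .nil .nil))) 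
(.lf (nat_lit 221673) (.g (nat_lit 2144) (.e (nat_lit 98316) (nat_lit 9) (.e (nat_lit 335988) (nat_lit 1) (.e (nat_lit 57926) (nat_lit 282) (.e (nat_lit 163903) (nat_lit 12) (.e (nat_lit 426555) (nat_lit 32) .nil))))) .nil))) (.nd (nat_lit 5) 
(.lf (nat_lit 221657) (.g (nat_lit 1767) (.e (nat_lit 98315) (nat_lit 9) (.e (nat_lit 336154) (nat_lit 9) (.e (nat_lit 336453) (nat_lit 34) (.e (nat_lit 483366) (nat_lit 18) (.e (nat_lit 57854) (nat_lit 252) (.e (nat_lit 57377) (nat_lit 3) .nil)))))) (.g (nat_lit 6) .nil .nil))) 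
(.lf (nat_lit 221689) (.g (nat_lit 831) (.e (nat_lit 98316) (nat_lit 9) (.e (nat_lit 335995) (nat_lit 1) (.e (nat_lit 57872) (nat_lit 264) .nil))) .nil))))) (.nd (nat_lit 3) (.nd (nat_lit 4) (.nd (nat_lit 5) 
(.lf (nat_lit 221637) (.g (nat_lit 1668) (.e (nat_lit 98315) (nat_lit 9) (.e (nat_lit 336152) (nat_lit 9) (.e (nat_lit 336453) (nat_lit 34) (.e (nat_lit 483366) (nat_lit 18) (.e (nat_lit 57847) (nat_lit 252) (.e (nat_lit 57379) (nat_lit 3) .nil)))))) (.g (nat_lit 0) .nil .nil))) 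
(.lf (nat_lit 221669) (.g (nat_lit 1391) (.e (nat_lit 98316) (nat_lit 9) (.e (nat_lit 335987) (nat_lit 1) (.e (nat_lit 57927) (nat_lit 282) (.e (nat_lit 163903) (nat_lit 12) (.e (nat_lit 426555) (nat_lit 32) .nil))))) .nil))) (.nd (nat_lit 5) 
(.lf (nat_lit 221653) (.g (nat_lit 1991) (.e (nat_lit 98315) (nat_lit 9) (.e (nat_lit 336154) (nat_lit 9) (.e (nat_lit 336453) (nat_lit 34) (.e (nat_lit 483365) (nat_lit 18) (.e (nat_lit 57852) (nat_lit 252) (.e (nat_lit 57377) (nat_lit 3) .nil)))))) (.g (nat_lit 0) .nil .nil))) 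
(.lf (nat_lit 221685) (.g (nat_lit 1955) (.e (nat_lit 98316) (nat_lit 9) (.e (nat_lit 335988) (nat_lit 1) (.e (nat_lit 57931) (nat_lit 282) (.e (nat_lit 163902) (nat_lit 12) .nil)))) .nil)))) (.nd (nat_lit 4) (.nd (nat_lit 5) 
(.lf (nat_lit 221645) (.g (nat_lit 2597) (.e (nat_lit 98315) (nat_lit 9) (.e (nat_lit 336153) (nat_lit 9) (.e (nat_lit 336453) (nat_lit 34) (.e (nat_lit 483365) (nat_lit 18) (.e (nat_lit 57849) (nat_lit 252) (.e (nat_lit 57377) (nat_lit 3) .nil)))))) (.g (nat_lit 6) .nil .nil))) 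
(.lf (nat_lit 221677) (.g (nat_lit 1877) (.e (nat_lit 98316) (nat_lit 9) (.e (nat_lit 335988) (nat_lit 1) (.e (nat_lit 57926) (nat_lit 282) (.e (nat_lit 163906) (nat_lit 12) (.e (nat_lit 426555) (nat_lit 32) .nil))))) .nil))) (.nd (nat_lit 5) 
(.lf (nat_lit 221661) (.g (nat_lit 2875) (.e (nat_lit 98315) (nat_lit 9) (.e (nat_lit 336209) (nat_lit 13) (.e (nat_lit 393225) (nat_lit 9) (.e (nat_lit 335995) (nat_lit 1) (.e (nat_lit 57848) (nat_lit 252) (.e (nat_lit 57379) (nat_lit 3) .nil)))))) (.g (nat_lit 0) .nil .nil))) 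
(.lf (nat_lit 221693) (.g (nat_lit 1706) (.e (nat_lit 98316) (nat_lit 9) (.e (nat_lit 335995) (nat_lit 1) (.e (nat_lit 57931) (nat_lit 282) (.e (nat_lit 163904) (nat_lit 12) .nil)))) .nil)))))) (.nd (nat_lit 2) (.nd (nat_lit 3) (.nd (nat_lit 4) (.nd (nat_lit 5) 
(.lf (nat_lit 221635) (.g (nat_lit 2003) (.e (nat_lit 98315) (nat_lit 9) (.e (nat_lit 336152) (nat_lit 9) (.e (nat_lit 336453) (nat_lit 34) (.e (nat_lit 483365) (nat_lit 18) (.e (nat_lit 57852) (nat_lit 252) (.e (nat_lit 57377) (nat_lit 3) .nil)))))) (.g (nat_lit 0) .nil .nil))) 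
(.lf (nat_lit 221667) (.g (nat_lit 2070) (.e (nat_lit 98316) (nat_lit 9) (.e (nat_lit 335986) (nat_lit 1) (.e (nat_lit 57927) (nat_lit 282) (.e (nat_lit 163907) (nat_lit 12) (.e (nat_lit 426555) (nat_lit 32) .nil))))) .nil))) (.nd (nat_lit 5) 
(.lf (nat_lit 221651) (.g (nat_lit 2173) (.e (nat_lit 98315) (nat_lit 9) (.e (nat_lit 336154) (nat_lit 9) (.e (nat_lit 336453) (nat_lit 34) (.e (nat_lit 483365) (nat_lit 18) (.e (nat_lit 57847) (nat_lit 252) (.e (nat_lit 57377) (nat_lit 3) .nil)))))) (.g (nat_lit 0) .nil .nil))) 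
(.lf (nat_lit 221683) (.g (nat_lit 1416) (.e (nat_lit 98316) (nat_lit 9) (.e (nat_lit 335988) (nat_lit 1) (.e (nat_lit 57927) (nat_lit 282) (.e (nat_lit 163906) (nat_lit 12) .nil)))) .nil)))) (.nd (nat_lit 4) (.nd (nat_lit 5) 
(.lf (nat_lit 221643) (.g (nat_lit 2214) (.e (nat_lit 98315) (nat_lit 9) (.e (nat_lit 336153) (nat_lit 9) (.e (nat_lit 336453) (nat_lit 34) (.e (nat_lit 483365) (nat_lit 18) (.e (nat_lit 57847) (nat_lit 252) (.e (nat_lit 57377) (nat_lit 3) .nil)))))) (.g (nat_lit 6) .nil .nil))) 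
(.lf (nat_lit 221675) (.g (nat_lit 2055) (.e (nat_lit 98316) (nat_lit 9) (.e (nat_lit 335988) (nat_lit 1) (.e (nat_lit 57926) (nat_lit 282) (.e (nat_lit 163905) (nat_lit 12) (.e (nat_lit 426555) (nat_lit 32) .nil))))) .nil))) (.nd (nat_lit 5) 
(.lf (nat_lit 221659) (.g (nat_lit 2345) (.e (nat_lit 98315) (nat_lit 9) (.e (nat_lit 336209) (nat_lit 13) (.e (nat_lit 393225) (nat_lit 9) (.e (nat_lit 335986) (nat_lit 1) (.e (nat_lit 57847) (nat_lit 252) (.e (nat_lit 57379) (nat_lit 3) .nil)))))) (.g (nat_lit 0) .nil .nil))) 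
(.lf (nat_lit 221691) (.g (nat_lit 2198) (.e (nat_lit 98316) (nat_lit 9) (.e (nat_lit 335995) (nat_lit 1) (.e (nat_lit 57931) (nat_lit 282) (.e (nat_lit 163902) (nat_lit 12) (.e (nat_lit 426555) (nat_lit 32) .nil))))) .nil))))) (.nd (nat_lit 3) (.nd (nat_lit 4) (.nd (nat_lit 5) 
(.lf (nat_lit 221639) (.g (nat_lit 1797) (.e (nat_lit 98315) (nat_lit 9) (.e (nat_lit 336153) (nat_lit 9) (.e (nat_lit 336390) (nat_lit 27) (.e (nat_lit 426500) (nat_lit 27) (.e (nat_lit 335986) (nat_lit 1) (.e (nat_lit 57847) (nat_lit 252) (.e (nat_lit 57379) (nat_lit 3) .nil))))))) (.g (nat_lit 6) .nil .nil))) 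
(.lf (nat_lit 221671) (.g (nat_lit 1600) (.e (nat_lit 98316) (nat_lit 9) (.e (nat_lit 335988) (nat_lit 1) (.e (nat_lit 57926) (nat_lit 282) (.e (nat_lit 163901) (nat_lit 12) .nil)))) .nil))) (.nd (nat_lit 5) 
(.lf (nat_lit 221655) (.g (nat_lit 1689) (.e (nat_lit 98315) (nat_lit 9) (.e (nat_lit 336154) (nat_lit 9) (.e (nat_lit 336453) (nat_lit 34) (.e (nat_lit 483366) (nat_lit 18) (.e (nat_lit 57847) (nat_lit 252) (.e (nat_lit 57377) (nat_lit 3) .nil)))))) (.g (nat_lit 6) .nil .nil))) 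
(.lf (nat_lit 221687) (.g (nat_lit 1963) (.e (nat_lit 98316) (nat_lit 9) (.e (nat_lit 335988) (nat_lit 1) (.e (nat_lit 57931) (nat_lit 282) (.e (nat_lit 163904) (nat_lit 12) .nil)))) .nil)))) (.nd (nat_lit 4) (.nd (nat_lit 5) 
(.lf (nat_lit 221647) (.g (nat_lit 2227) (.e (nat_lit 98315) (nat_lit 9) (.e (nat_lit 336153) (nat_lit 9) (.e (nat_lit 336453) (nat_lit 34) (.e (nat_lit 483365) (nat_lit 18) (.e (nat_lit 57853) (nat_lit 252) (.e (nat_lit 57377) (nat_lit 3) .nil)))))) (.g (nat_lit 6) .nil .nil))) 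
(.lf (nat_lit 221679) (.g (nat_lit 1802) (.e (nat_lit 98316) (nat_lit 9) (.e (nat_lit 335988) (nat_lit 1) (.e (nat_lit 57927) (nat_lit 282) (.e (nat_lit 163903) (nat_lit 12) (.e (nat_lit 426555) (nat_lit 32) .nil))))) .nil))) (.nd (nat_lit 5) 
(.lf (nat_lit 221663) (.g (nat_lit 2160) (.e (nat_lit 98316) (nat_lit 9) (.e (nat_lit 335986) (nat_lit 1) (.e (nat_lit 57927) (nat_lit 282) (.e (nat_lit 163903) (nat_lit 12) (.e (nat_lit 426538) (nat_lit 29) .nil))))) .nil)) 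
(.lf (nat_lit 221695) (.g (nat_lit 2158) (.e (nat_lit 98316) (nat_lit 9) (.e (nat_lit 335995) (nat_lit 1) (.e (nat_lit 57931) (nat_lit 282) (.e (nat_lit 163905) (nat_lit 12) (.e (nat_lit 426542) (nat_lit 29) .nil))))) .nil))))))))

noncomputable def tv2912 : DT := (.nd (nat_lit 0) (.nd (nat_lit 1) (.nd (nat_lit 2) (.nd (nat_lit 3) (.nd (nat_lit 4) (.nd (nat_lit 5) (.nd (nat_lit 6) 
(.lf (nat_lit 221696) (.g (nat_lit 2117) (.e (nat_lit 98316) (nat_lit 9) (.e (nat_lit 335995) (nat_lit 1) (.e (nat_lit 57931) (nat_lit 282) (.e (nat_lit 163905) (nat_lit 12) (.e (nat_lit 426555) (nat_lit 32) .nil))))) .nil)) 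
(.lf (nat_lit 221760) (.g (nat_lit 1613) (.e (nat_lit 98316) (nat_lit 9) (.e (nat_lit 336086) (nat_lit 9) (.e (nat_lit 336454) (nat_lit 34) (.e (nat_lit 483364) (nat_lit 18) (.e (nat_lit 57852) (nat_lit 252) .nil))))) .nil))) (.nd (nat_lit 6) 
(.lf (nat_lit 221728) (.g (nat_lit 2649) (.e (nat_lit 98316) (nat_lit 9) (.e (nat_lit 336021) (nat_lit 3) (.e (nat_lit 98317) (nat_lit 9) (.e (nat_lit 336027) (nat_lit 3) (.e (nat_lit 98317) (nat_lit 9) (.e (nat_lit 336027) (nat_lit 3) .nil)))))) (.g (nat_lit 5) .nil .nil))) 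
(.lf (nat_lit 221792) (.g (nat_lit 1860) (.e (nat_lit 98316) (nat_lit 9) (.e (nat_lit 336213) (nat_lit 13) (.e (nat_lit 393229) (nat_lit 9) (.e (nat_lit 335986) (nat_lit 1) .nil)))) .nil)))) (.nd (nat_lit 5) (.nd (nat_lit 6) 
(.lf (nat_lit 221712) (.g (nat_lit 2072) (.e (nat_lit 98316) (nat_lit 9) (.e (nat_lit 336009) (nat_lit 2) (.e (nat_lit 90160) (nat_lit 11) (.e (nat_lit 24607) (nat_lit 3) (.e (nat_lit 98317) (nat_lit 9) .nil))))) .nil)) 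
(.lf (nat_lit 221776) (.g (nat_lit 1808) (.e (nat_lit 98316) (nat_lit 9) (.e (nat_lit 336088) (nat_lit 9) (.e (nat_lit 336019) (nat_lit 3) (.e (nat_lit 98386) (nat_lit 32) (.e (nat_lit 475212) (nat_lit 42) .nil))))) .nil))) (.nd (nat_lit 6) 
(.lf (nat_lit 221744) (.g (nat_lit 1069) (.e (nat_lit 98316) (nat_lit 9) (.e (nat_lit 336076) (nat_lit 9) (.e (nat_lit 336454) (nat_lit 34) (.e (nat_lit 483365) (nat_lit 18) .nil)))) .nil)) 
(.lf (nat_lit 221808) (.g (nat_lit 1886) (.e (nat_lit 98316) (nat_lit 9) (.e (nat_lit 336215) (nat_lit 13) (.e (nat_lit 393229) (nat_lit 9) (.e (nat_lit 335996) (nat_lit 1) (.e (nat_lit 57854) (nat_lit 252) .nil))))) .nil))))) (.nd (nat_lit 4) (.nd (nat_lit 5) (.nd (nat_lit 6) 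
(.lf (nat_lit 221704) (.g (nat_lit 564) (.e (nat_lit 98316) (nat_lit 9) (.e (nat_lit 336004) (nat_lit 2) (.e (nat_lit 90158) (nat_lit 11) .nil))) .nil)) 
(.lf (nat_lit 221768) (.g (nat_lit 1903) (.e (nat_lit 98316) (nat_lit 9) (.e (nat_lit 336088) (nat_lit 9) (.e (nat_lit 336019) (nat_lit 3) (.e (nat_lit 98356) (nat_lit 26) (.e (nat_lit 426448) (nat_lit 20) .nil))))) .nil))) (.nd (nat_lit 6) 
(.lf (nat_lit 221736) (.g (nat_lit 1642) (.e (nat_lit 98316) (nat_lit 9) (.e (nat_lit 336027) (nat_lit 3) (.e (nat_lit 98313) (nat_lit 9) (.e (nat_lit 336027) (nat_lit 3) (.e (nat_lit 98312) (nat_lit 9) .nil))))) .nil)) 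
(.lf (nat_lit 221800) (.g (nat_lit 2790) (.e (nat_lit 98316) (nat_lit 9) (.e (nat_lit 336214) (nat_lit 13) (.e (nat_lit 393229) (nat_lit 9) (.e (nat_lit 335988) (nat_lit 1) (.e (nat_lit 57854) (nat_lit 252) (.e (nat_lit 57378) (nat_lit 3) .nil)))))) (.g (nat_lit 6) .nil .nil))))) (.nd (nat_lit 5) (.nd (nat_lit 6) 
(.lf (nat_lit 221720) (.g (nat_lit 3245) (.e (nat_lit 98316) (nat_lit 9) (.e (nat_lit 336021) (nat_lit 3) (.e (nat_lit 98313) (nat_lit 9) (.e (nat_lit 336012) (nat_lit 2) (.e (nat_lit 90158) (nat_lit 11) (.e (nat_lit 24608) (nat_lit 3) .nil)))))) (.g (nat_lit 0) .nil .nil))) 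
(.lf (nat_lit 221784) (.g (nat_lit 2825) (.e (nat_lit 98316) (nat_lit 9) (.e (nat_lit 336186) (nat_lit 11) (.e (nat_lit 368676) (nat_lit 21) (.e (nat_lit 516149) (nat_lit 9) (.e (nat_lit 426448) (nat_lit 20) (.e (nat_lit 114719) (nat_lit 23) .nil)))))) (.g (nat_lit 6) .nil .nil)))) (.nd (nat_lit 6) 
(.lf (nat_lit 221752) (.g (nat_lit 3273) (.e (nat_lit 98316) (nat_lit 9) (.e (nat_lit 336077) (nat_lit 9) (.e (nat_lit 336454) (nat_lit 34) (.e (nat_lit 483365) (nat_lit 18) (.e (nat_lit 57847) (nat_lit 252) (.e (nat_lit 57379) (nat_lit 3) .nil)))))) (.g (nat_lit 0) .nil .nil))) 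
(.lf (nat_lit 221816) (.g (nat_lit 1764) (.e (nat_lit 98316) (nat_lit 9) (.e (nat_lit 336222) (nat_lit 13) (.e (nat_lit 393229) (nat_lit 9) (.e (nat_lit 335986) (nat_lit 1) (.e (nat_lit 57854) (nat_lit 252) (.e (nat_lit 57378) (nat_lit 3) .nil)))))) (.g (nat_lit 4) .nil .nil))))))) (.nd (nat_lit 3) (.nd (nat_lit 4) (.nd (nat_lit 5) (.nd (nat_lit 6) 
(.lf (nat_lit 221700) (.g (nat_lit 1909) (.e (nat_lit 98316) (nat_lit 9) (.e (nat_lit 335996) (nat_lit 1) (.e (nat_lit 57931) (nat_lit 282) (.e (nat_lit 163902) (nat_lit 12) (.e (nat_lit 426555) (nat_lit 32) .nil))))) .nil)) 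
(.lf (nat_lit 221764) (.g (nat_lit 1674) (.e (nat_lit 98316) (nat_lit 9) (.e (nat_lit 336087) (nat_lit 9) (.e (nat_lit 336019) (nat_lit 3) (.e (nat_lit 98356) (nat_lit 26) (.e (nat_lit 433920) (nat_lit 20) .nil))))) .nil))) (.nd (nat_lit 6) 
(.lf (nat_lit 221732) (.g (nat_lit 760) (.e (nat_lit 98316) (nat_lit 9) (.e (nat_lit 336027) (nat_lit 3) (.e (nat_lit 98312) (nat_lit 9) .nil))) .nil)) 
(.lf (nat_lit 221796) (.g (nat_lit 1900) (.e (nat_lit 98316) (nat_lit 9) (.e (nat_lit 336213) (nat_lit 13) (.e (nat_lit 393229) (nat_lit 9) (.e (nat_lit 335996) (nat_lit 1) .nil)))) .nil)))) (.nd (nat_lit 5) (.nd (nat_lit 6) 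
(.lf (nat_lit 221716) (.g (nat_lit 2596) (.e (nat_lit 98316) (nat_lit 9) (.e (nat_lit 336012) (nat_lit 2) (.e (nat_lit 90160) (nat_lit 11) (.e (nat_lit 24604) (nat_lit 2) (.e (nat_lit 90158) (nat_lit 11) .nil))))) .nil)) 
(.lf (nat_lit 221780) (.g (nat_lit 3216) (.e (nat_lit 98316) (nat_lit 9) (.e (nat_lit 336186) (nat_lit 11) (.e (nat_lit 368676) (nat_lit 21) (.e (nat_lit 516146) (nat_lit 9) (.e (nat_lit 426448) (nat_lit 20) (.e (nat_lit 114719) (nat_lit 23) .nil)))))) (.g (nat_lit 0) .nil .nil)))) (.nd (nat_lit 6) 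
(.lf (nat_lit 221748) (.g (nat_lit 488) (.e (nat_lit 98316) (nat_lit 9) (.e (nat_lit 336076) (nat_lit 9) (.e (nat_lit 336456) (nat_lit 34) .nil))) .nil)) 
(.lf (nat_lit 221812) (.g (nat_lit 2989) (.e (nat_lit 98316) (nat_lit 9) (.e (nat_lit 336220) (nat_lit 13) (.e (nat_lit 393225) (nat_lit 9) (.e (nat_lit 335995) (nat_lit 1) (.e (nat_lit 57847) (nat_lit 252) (.e (nat_lit 57379) (nat_lit 3) .nil)))))) (.g (nat_lit 6) .nil .nil)))))) (.nd (nat_lit 4) (.nd (nat_lit 5) (.nd (nat_lit 6) 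
(.lf (nat_lit 221708) (.g (nat_lit 1744) (.e (nat_lit 98316) (nat_lit 9) (.e (nat_lit 336004) (nat_lit 2) (.e (nat_lit 90160) (nat_lit 11) (.e (nat_lit 24608) (nat_lit 3) .nil)))) .nil)) 
(.lf (nat_lit 221772) (.g (nat_lit 3179) (.e (nat_lit 98316) (nat_lit 9) (.e (nat_lit 336088) (nat_lit 9) (.e (nat_lit 336019) (nat_lit 3) (.e (nat_lit 98358) (nat_lit 26) (.e (nat_lit 426448) (nat_lit 20) (.e (nat_lit 114719) (nat_lit 23) .nil)))))) (.g (nat_lit 6) .nil .nil)))) (.nd (nat_lit 6) 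
(.lf (nat_lit 221740) (.g (nat_lit 1597) (.e (nat_lit 98316) (nat_lit 9) (.e (nat_lit 336027) (nat_lit 3) (.e (nat_lit 98317) (nat_lit 9) (.e (nat_lit 336025) (nat_lit 3) .nil)))) .nil)) 
(.lf (nat_lit 221804) (.g (nat_lit 655) (.e (nat_lit 98316) (nat_lit 9) (.e (nat_lit 336214) (nat_lit 13) (.e (nat_lit 401152) (nat_lit 15) (.e (nat_lit 385109) (nat_lit 51) (.e (nat_lit 802560) (nat_lit 3) .nil))))) (.g (nat_lit 4) .nil .nil))))) (.nd (nat_lit 5) (.nd (nat_lit 6) 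
(.lf (nat_lit 221724) (.g (nat_lit 1992) (.e (nat_lit 98316) (nat_lit 9) (.e (nat_lit 336021) (nat_lit 3) (.e (nat_lit 98317) (nat_lit 9) (.e (nat_lit 336003) (nat_lit 2) .nil)))) .nil)) 
(.lf (nat_lit 221788) (.g (nat_lit 2357) (.e (nat_lit 98316) (nat_lit 9) (.e (nat_lit 336213) (nat_lit 13) (.e (nat_lit 393225) (nat_lit 9) (.e (nat_lit 335995) (nat_lit 1) (.e (nat_lit 57847) (nat_lit 252) .nil))))) .nil))) (.nd (nat_lit 6) 
(.lf (nat_lit 221756) (.g (nat_lit 3058) (.e (nat_lit 98316) (nat_lit 9) (.e (nat_lit 336078) (nat_lit 9) (.e (nat_lit 336454) (nat_lit 34) (.e (nat_lit 483365) (nat_lit 18) (.e (nat_lit 57854) (nat_lit 252) (.e (nat_lit 57378) (nat_lit 3) .nil)))))) (.g (nat_lit 6) .nil .nil))) 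
(.lf (nat_lit 221820) (.g (nat_lit 741) (.e (nat_lit 98317) (nat_lit 9) (.e (nat_lit 335894) (nat_lit 0) (.e (nat_lit 6508) (nat_lit 345) .nil))) .nil))))))) (.nd (nat_lit 2) (.nd (nat_lit 3) (.nd (nat_lit 4) (.nd (nat_lit 5) (.nd (nat_lit 6) 
(.lf (nat_lit 221698) (.g (nat_lit 660) (.e (nat_lit 98316) (nat_lit 9) (.e (nat_lit 335996) (nat_lit 1) (.e (nat_lit 57930) (nat_lit 282) .nil))) .nil)) 
(.lf (nat_lit 221762) (.g (nat_lit 1840) (.e (nat_lit 98316) (nat_lit 9) (.e (nat_lit 336086) (nat_lit 9) (.e (nat_lit 336454) (nat_lit 34) (.e (nat_lit 483365) (nat_lit 18) (.e (nat_lit 57852) (nat_lit 252) .nil))))) .nil))) (.nd (nat_lit 6) 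
(.lf (nat_lit 221730) (.g (nat_lit 2820) (.e (nat_lit 98316) (nat_lit 9) (.e (nat_lit 336025) (nat_lit 3) (.e (nat_lit 98313) (nat_lit 9) (.e (nat_lit 336021) (nat_lit 3) (.e (nat_lit 98313) (nat_lit 9) (.e (nat_lit 336027) (nat_lit 3) .nil)))))) (.g (nat_lit 6) .nil .nil))) 
(.lf (nat_lit 221794) (.g (nat_lit 1354) (.e (nat_lit 98316) (nat_lit 9) (.e (nat_lit 336213) (nat_lit 13) (.e (nat_lit 393229) (nat_lit 9) (.e (nat_lit 335994) (nat_lit 1) .nil)))) .nil)))) (.nd (nat_lit 5) (.nd (nat_lit 6) 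
(.lf (nat_lit 221714) (.g (nat_lit 1825) (.e (nat_lit 98316) (nat_lit 9) (.e (nat_lit 336012) (nat_lit 2) (.e (nat_lit 90158) (nat_lit 11) (.e (nat_lit 24607) (nat_lit 3) .nil)))) .nil)) 
(.lf (nat_lit 221778) (.g (nat_lit 1061) (.e (nat_lit 98316) (nat_lit 9) (.e (nat_lit 336184) (nat_lit 11) (.e (nat_lit 368676) (nat_lit 21) (.e (nat_lit 516148) (nat_lit 9) (.e (nat_lit 426448) (nat_lit 20) .nil))))) .nil))) (.nd (nat_lit 6) 
(.lf (nat_lit 221746) (.g (nat_lit 1999) (.e (nat_lit 98316) (nat_lit 9) (.e (nat_lit 336076) (nat_lit 9) (.e (nat_lit 336454) (nat_lit 34) (.e (nat_lit 483365) (nat_lit 18) (.e (nat_lit 57852) (nat_lit 252) .nil))))) .nil)) 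
(.lf (nat_lit 221810) (.g (nat_lit 423) (.e (nat_lit 98316) (nat_lit 9) (.e (nat_lit 336215) (nat_lit 13) (.e (nat_lit 401152) (nat_lit 9) .nil))) .nil))))) (.nd (nat_lit 4) (.nd (nat_lit 5) (.nd (nat_lit 6) 
(.lf (nat_lit 221706) (.g (nat_lit 1944) (.e (nat_lit 98316) (nat_lit 9) (.e (nat_lit 336004) (nat_lit 2) (.e (nat_lit 90158) (nat_lit 11) (.e (nat_lit 24609) (nat_lit 3) .nil)))) .nil)) 
(.lf (nat_lit 221770) (.g (nat_lit 2162) (.e (nat_lit 98316) (nat_lit 9) (.e (nat_lit 336088) (nat_lit 9) (.e (nat_lit 336019) (nat_lit 3) (.e (nat_lit 98358) (nat_lit 26) (.e (nat_lit 426354) (nat_lit 15) .nil))))) .nil))) (.nd (nat_lit 6) 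
(.lf (nat_lit 221738) (.g (nat_lit 1486) (.e (nat_lit 98316) (nat_lit 9) (.e (nat_lit 336027) (nat_lit 3) (.e (nat_lit 98317) (nat_lit 9) (.e (nat_lit 336002) (nat_lit 2) .nil)))) .nil)) 
(.lf (nat_lit 221802) (.g (nat_lit 3222) (.e (nat_lit 98316) (nat_lit 9) (.e (nat_lit 336214) (nat_lit 13) (.e (nat_lit 393229) (nat_lit 9) (.e (nat_lit 335996) (nat_lit 1) (.e (nat_lit 57854) (nat_lit 252) (.e (nat_lit 57378) (nat_lit 3) .nil)))))) (.g (nat_lit 0) .nil .nil))))) (.nd (nat_lit 5) (.nd (nat_lit 6) 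
(.lf (nat_lit 221722) (.g (nat_lit 450) (.e (nat_lit 98316) (nat_lit 9) (.e (nat_lit 336021) (nat_lit 3) (.e (nat_lit 98317) (nat_lit 9) .nil))) .nil)) 
(.lf (nat_lit 221786) (.g (nat_lit 1998) (.e (nat_lit 98316) (nat_lit 9) (.e (nat_lit 336186) (nat_lit 11) (.e (nat_lit 368676) (nat_lit 21) (.e (nat_lit 516179) (nat_lit 15) (.e (nat_lit 475214) (nat_lit 42) (.e (nat_lit 720944) (nat_lit 23) .nil)))))) (.g (nat_lit 5) .nil .nil)))) (.nd (nat_lit 6) 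
(.lf (nat_lit 221754) (.g (nat_lit 3109) (.e (nat_lit 98316) (nat_lit 9) (.e (nat_lit 336077) (nat_lit 9) (.e (nat_lit 336454) (nat_lit 34) (.e (nat_lit 483365) (nat_lit 18) (.e (nat_lit 57852) (nat_lit 252) (.e (nat_lit 57378) (nat_lit 3) .nil)))))) (.g (nat_lit 6) .nil .nil))) 
(.lf (nat_lit 221818) (.g (nat_lit 609) (.e (nat_lit 98316) (nat_lit 9) (.e (nat_lit 336223) (nat_lit 13) (.e (nat_lit 393225) (nat_lit 9) .nil))) .nil)))))) (.nd (nat_lit 3) (.nd (nat_lit 4) (.nd (nat_lit 5) (.nd (nat_lit 6) 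
(.lf (nat_lit 221702) (.g (nat_lit 1382) (.e (nat_lit 98316) (nat_lit 9) (.e (nat_lit 335996) (nat_lit 1) (.e (nat_lit 57931) (nat_lit 282) (.e (nat_lit 163905) (nat_lit 12) .nil)))) .nil)) 
(.lf (nat_lit 221766) (.g (nat_lit 1333) (.e (nat_lit 98316) (nat_lit 9) (.e (nat_lit 336087) (nat_lit 9) (.e (nat_lit 336019) (nat_lit 3) (.e (nat_lit 98386) (nat_lit 32) (.e (nat_lit 475212) (nat_lit 42) .nil))))) .nil))) (.nd (nat_lit 6) 
(.lf (nat_lit 221734) (.g (nat_lit 1225) (.e (nat_lit 98316) (nat_lit 9) (.e (nat_lit 336027) (nat_lit 3) (.e (nat_lit 98312) (nat_lit 9) (.e (nat_lit 336027) (nat_lit 3) .nil)))) .nil)) 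
(.lf (nat_lit 221798) (.g (nat_lit 2546) (.e (nat_lit 98316) (nat_lit 9) (.e (nat_lit 336214) (nat_lit 13) (.e (nat_lit 393229) (nat_lit 9) (.e (nat_lit 335986) (nat_lit 1) (.e (nat_lit 57847) (nat_lit 252) (.e (nat_lit 57379) (nat_lit 3) .nil)))))) (.g (nat_lit 0) .nil .nil))))) (.nd (nat_lit 5) (.nd (nat_lit 6) 
(.lf (nat_lit 221718) (.g (nat_lit 2351) (.e (nat_lit 98316) (nat_lit 9) (.e (nat_lit 336012) (nat_lit 2) (.e (nat_lit 90160) (nat_lit 11) (.e (nat_lit 24606) (nat_lit 3) .nil)))) .nil)) 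
(.lf (nat_lit 221782) (.g (nat_lit 2642) (.e (nat_lit 98316) (nat_lit 9) (.e (nat_lit 336186) (nat_lit 11) (.e (nat_lit 368676) (nat_lit 21) (.e (nat_lit 516148) (nat_lit 9) (.e (nat_lit 426448) (nat_lit 20) (.e (nat_lit 114718) (nat_lit 23) .nil)))))) (.g (nat_lit 0) .nil .nil)))) (.nd (nat_lit 6) 
(.lf (nat_lit 221750) (.g (nat_lit 2233) (.e (nat_lit 98316) (nat_lit 9) (.e (nat_lit 336077) (nat_lit 9) (.e (nat_lit 336454) (nat_lit 34) (.e (nat_lit 483364) (nat_lit 18) (.e (nat_lit 57852) (nat_lit 252) (.e (nat_lit 57378) (nat_lit 3) .nil)))))) (.g (nat_lit 6) .nil .nil))) 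
(.lf (nat_lit 221814) (.g (nat_lit 1650) (.e (nat_lit 98316) (nat_lit 9) (.e (nat_lit 336222) (nat_lit 13) (.e (nat_lit 393224) (nat_lit 9) (.e (nat_lit 335988) (nat_lit 1) (.e (nat_lit 57854) (nat_lit 252) .nil))))) .nil))))) (.nd (nat_lit 4) (.nd (nat_lit 5) (.nd (nat_lit 6) 
(.lf (nat_lit 221710) (.g (nat_lit 1933) (.e (nat_lit 98316) (nat_lit 9) (.e (nat_lit 336009) (nat_lit 2) (.e (nat_lit 90158) (nat_lit 11) (.e (nat_lit 24607) (nat_lit 3) (.e (nat_lit 98317) (nat_lit 9) .nil))))) .nil)) 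
(.lf (nat_lit 221774) (.g (nat_lit 1668) (.e (nat_lit 98316) (nat_lit 9) (.e (nat_lit 336088) (nat_lit 9) (.e (nat_lit 336019) (nat_lit 3) (.e (nat_lit 98384) (nat_lit 32) (.e (nat_lit 475212) (nat_lit 42) .nil))))) .nil))) (.nd (nat_lit 6) 
(.lf (nat_lit 221742) (.g (nat_lit 1221) (.e (nat_lit 98316) (nat_lit 9) (.e (nat_lit 336076) (nat_lit 9) (.e (nat_lit 336454) (nat_lit 34) (.e (nat_lit 491264) (nat_lit 3) .nil)))) .nil)) 
(.lf (nat_lit 221806) (.g (nat_lit 2231) (.e (nat_lit 98316) (nat_lit 9) (.e (nat_lit 336215) (nat_lit 13) (.e (nat_lit 393229) (nat_lit 9) (.e (nat_lit 335986) (nat_lit 1) (.e (nat_lit 57854) (nat_lit 252) .nil))))) .nil)))) (.nd (nat_lit 5) (.nd (nat_lit 6) 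
(.lf (nat_lit 221726) (.g (nat_lit 1992) (.e (nat_lit 98316) (nat_lit 9) (.e (nat_lit 336021) (nat_lit 3) (.e (nat_lit 98317) (nat_lit 9) (.e (nat_lit 336009) (nat_lit 2) .nil)))) .nil)) 
(.lf (nat_lit 221790) (.g (nat_lit 1412) (.e (nat_lit 98316) (nat_lit 9) (.e (nat_lit 336213) (nat_lit 13) (.e (nat_lit 393225) (nat_lit 9) (.e (nat_lit 335996) (nat_lit 1) .nil)))) .nil))) (.nd (nat_lit 6) 
(.lf (nat_lit 221758) (.g (nat_lit 1917) (.e (nat_lit 98316) (nat_lit 9) (.e (nat_lit 336086) (nat_lit 9) (.e (nat_lit 336454) (nat_lit 34) (.e (nat_lit 483363) (nat_lit 18) (.e (nat_lit 57847) (nat_lit 252) .nil))))) .nil)) 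
(.lf (nat_lit 221822) (.g (nat_lit 741) (.e (nat_lit 98317) (nat_lit 9) (.e (nat_lit 335894) (nat_lit 0) (.e (nat_lit 6514) (nat_lit 346) .nil))) .nil)))))))) (.nd (nat_lit 1) (.nd (nat_lit 2) (.nd (nat_lit 3) (.nd (nat_lit 4) (.nd (nat_lit 5) (.nd (nat_lit 6) 
(.lf (nat_lit 221697) (.g (nat_lit 2368) (.e (nat_lit 98316) (nat_lit 9) (.e (nat_lit 335995) (nat_lit 1) (.e (nat_lit 57931) (nat_lit 282) (.e (nat_lit 163941) (nat_lit 19) (.e (nat_lit 483393) (nat_lit 23) .nil))))) .nil)) 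
(.lf (nat_lit 221761) (.g (nat_lit 1132) (.e (nat_lit 98316) (nat_lit 9) (.e (nat_lit 336086) (nat_lit 9) (.e (nat_lit 336454) (nat_lit 34) (.e (nat_lit 483365) (nat_lit 18) .nil)))) .nil))) (.nd (nat_lit 6) 
(.lf (nat_lit 221729) (.g (nat_lit 535) (.e (nat_lit 98316) (nat_lit 9) (.e (nat_lit 336021) (nat_lit 3) (.e (nat_lit 106240) (nat_lit 10) .nil))) .nil)) 
(.lf (nat_lit 221793) (.g (nat_lit 1894) (.e (nat_lit 98316) (nat_lit 9) (.e (nat_lit 336213) (nat_lit 13) (.e (nat_lit 393229) (nat_lit 9) (.e (nat_lit 335988) (nat_lit 1) .nil)))) .nil)))) (.nd (nat_lit 5) (.nd (nat_lit 6) 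
(.lf (nat_lit 221713) (.g (nat_lit 669) (.e (nat_lit 98316) (nat_lit 9) (.e (nat_lit 336012) (nat_lit 2) (.e (nat_lit 90158) (nat_lit 11) .nil))) .nil)) 
(.lf (nat_lit 221777) (.g (nat_lit 2037) (.e (nat_lit 98316) (nat_lit 9) (.e (nat_lit 336165) (nat_lit 10) (.e (nat_lit 344117) (nat_lit 21) (.e (nat_lit 516145) (nat_lit 9) (.e (nat_lit 426448) (nat_lit 20) .nil))))) .nil))) (.nd (nat_lit 6) 
(.lf (nat_lit 221745) (.g (nat_lit 2162) (.e (nat_lit 98316) (nat_lit 9) (.e (nat_lit 336076) (nat_lit 9) (.e (nat_lit 336454) (nat_lit 34) (.e (nat_lit 483365) (nat_lit 18) (.e (nat_lit 57847) (nat_lit 252) (.e (nat_lit 57379) (nat_lit 3) .nil)))))) (.g (nat_lit 4) .nil .nil))) 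
(.lf (nat_lit 221809) (.g (nat_lit 3535) (.e (nat_lit 98316) (nat_lit 9) (.e (nat_lit 336215) (nat_lit 13) (.e (nat_lit 393229) (nat_lit 9) (.e (nat_lit 335996) (nat_lit 1) (.e (nat_lit 57854) (nat_lit 252) (.e (nat_lit 57378) (nat_lit 3) .nil)))))) (.g (nat_lit 6) .nil .nil)))))) (.nd (nat_lit 4) (.nd (nat_lit 5) (.nd (nat_lit 6) 
(.lf (nat_lit 221705) (.g (nat_lit 1939) (.e (nat_lit 98316) (nat_lit 9) (.e (nat_lit 336004) (nat_lit 2) (.e (nat_lit 90158) (nat_lit 11) (.e (nat_lit 24605) (nat_lit 2) .nil)))) .nil)) 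
(.lf (nat_lit 221769) (.g (nat_lit 2138) (.e (nat_lit 98316) (nat_lit 9) (.e (nat_lit 336088) (nat_lit 9) (.e (nat_lit 336019) (nat_lit 3) (.e (nat_lit 98356) (nat_lit 26) (.e (nat_lit 433920) (nat_lit 20) .nil))))) .nil))) (.nd (nat_lit 6) 
(.lf (nat_lit 221737) (.g (nat_lit 822) (.e (nat_lit 98316) (nat_lit 9) (.e (nat_lit 336027) (nat_lit 3) (.e (nat_lit 98316) (nat_lit 9) .nil))) .nil)) 
(.lf (nat_lit 221801) (.g (nat_lit 2912) (.e (nat_lit 98316) (nat_lit 9) (.e (nat_lit 336214) (nat_lit 13) (.e (nat_lit 393229) (nat_lit 9) (.e (nat_lit 335995) (nat_lit 1) (.e (nat_lit 57847) (nat_lit 252) (.e (nat_lit 57379) (nat_lit 3) .nil)))))) (.g (nat_lit 0) .nil .nil))))) (.nd (nat_lit 5) (.nd (nat_lit 6) 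
(.lf (nat_lit 221721) (.g (nat_lit 1598) (.e (nat_lit 98316) (nat_lit 9) (.e (nat_lit 336021) (nat_lit 3) (.e (nat_lit 98313) (nat_lit 9) (.e (nat_lit 336025) (nat_lit 3) .nil)))) .nil)) 
(.lf (nat_lit 221785) (.g (nat_lit 2771) (.e (nat_lit 98316) (nat_lit 9) (.e (nat_lit 336186) (nat_lit 11) (.e (nat_lit 368676) (nat_lit 21) (.e (nat_lit 516150) (nat_lit 9) (.e (nat_lit 426448) (nat_lit 20) (.e (nat_lit 114718) (nat_lit 23) .nil)))))) (.g (nat_lit 0) .nil .nil)))) (.nd (nat_lit 6) 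
(.lf (nat_lit 221753) (.g (nat_lit 3858) (.e (nat_lit 98316) (nat_lit 9) (.e (nat_lit 336077) (nat_lit 9) (.e (nat_lit 336454) (nat_lit 34) (.e (nat_lit 483365) (nat_lit 18) (.e (nat_lit 57849) (nat_lit 252) (.e (nat_lit 57379) (nat_lit 3) .nil)))))) (.g (nat_lit 6) .nil .nil))) 
(.lf (nat_lit 221817) (.g (nat_lit 270) (.e (nat_lit 98316) (nat_lit 9) (.e (nat_lit 336222) (nat_lit 13) (.e (nat_lit 401152) (nat_lit 15) .nil))) .nil)))))) (.nd (nat_lit 3) (.nd (nat_lit 4) (.nd (nat_lit 5) (.nd (nat_lit 6) 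
(.lf (nat_lit 221701) (.g (nat_lit 1329) (.e (nat_lit 98316) (nat_lit 9) (.e (nat_lit 335996) (nat_lit 1) (.e (nat_lit 57931) (nat_lit 282) (.e (nat_lit 163904) (nat_lit 12) .nil)))) .nil)) 
(.lf (nat_lit 221765) (.g (nat_lit 2763) (.e (nat_lit 98316) (nat_lit 9) (.e (nat_lit 336087) (nat_lit 9) (.e (nat_lit 336019) (nat_lit 3) (.e (nat_lit 98358) (nat_lit 26) (.e (nat_lit 426448) (nat_lit 20) (.e (nat_lit 114718) (nat_lit 23) .nil)))))) (.g (nat_lit 0) .nil .nil)))) (.nd (nat_lit 6) 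
(.lf (nat_lit 221733) (.g (nat_lit 1230) (.e (nat_lit 98316) (nat_lit 9) (.e (nat_lit 336027) (nat_lit 3) (.e (nat_lit 98312) (nat_lit 9) (.e (nat_lit 336004) (nat_lit 2) .nil)))) .nil)) 
(.lf (nat_lit 221797) (.g (nat_lit 2711) (.e (nat_lit 98316) (nat_lit 9) (.e (nat_lit 336213) (nat_lit 13) (.e (nat_lit 393229) (nat_lit 9) (.e (nat_lit 335996) (nat_lit 1) (.e (nat_lit 57854) (nat_lit 252) .nil))))) .nil)))) (.nd (nat_lit 5) (.nd (nat_lit 6) 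
(.lf (nat_lit 221717) (.g (nat_lit 2771) (.e (nat_lit 98316) (nat_lit 9) (.e (nat_lit 336012) (nat_lit 2) (.e (nat_lit 90160) (nat_lit 11) (.e (nat_lit 24604) (nat_lit 2) (.e (nat_lit 90160) (nat_lit 11) .nil))))) .nil)) 
(.lf (nat_lit 221781) (.g (nat_lit 2389) (.e (nat_lit 98316) (nat_lit 9) (.e (nat_lit 336186) (nat_lit 11) (.e (nat_lit 368676) (nat_lit 21) (.e (nat_lit 516147) (nat_lit 9) (.e (nat_lit 426448) (nat_lit 20) (.e (nat_lit 114718) (nat_lit 23) .nil)))))) (.g (nat_lit 0) .nil .nil)))) (.nd (nat_lit 6) 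
(.lf (nat_lit 221749) (.g (nat_lit 2732) (.e (nat_lit 98316) (nat_lit 9) (.e (nat_lit 336077) (nat_lit 9) (.e (nat_lit 336454) (nat_lit 34) (.e (nat_lit 483363) (nat_lit 18) (.e (nat_lit 57847) (nat_lit 252) (.e (nat_lit 57379) (nat_lit 3) .nil)))))) (.g (nat_lit 6) .nil .nil))) 
(.lf (nat_lit 221813) (.g (nat_lit 1474) (.e (nat_lit 98316) (nat_lit 9) (.e (nat_lit 336220) (nat_lit 13) (.e (nat_lit 393225) (nat_lit 9) (.e (nat_lit 335996) (nat_lit 1) (.e (nat_lit 57851) (nat_lit 252) .nil))))) .nil))))) (.nd (nat_lit 4) (.nd (nat_lit 5) (.nd (nat_lit 6) 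
(.lf (nat_lit 221709) (.g (nat_lit 1951) (.e (nat_lit 98316) (nat_lit 9) (.e (nat_lit 336009) (nat_lit 2) (.e (nat_lit 90158) (nat_lit 11) (.e (nat_lit 24607) (nat_lit 3) (.e (nat_lit 98313) (nat_lit 9) .nil))))) .nil)) 
(.lf (nat_lit 221773) (.g (nat_lit 1200) (.e (nat_lit 98316) (nat_lit 9) (.e (nat_lit 336088) (nat_lit 9) (.e (nat_lit 336019) (nat_lit 3) (.e (nat_lit 98384) (nat_lit 32) .nil)))) .nil))) (.nd (nat_lit 6) 
(.lf (nat_lit 221741) (.g (nat_lit 478) (.e (nat_lit 98316) (nat_lit 9) (.e (nat_lit 336076) (nat_lit 9) (.e (nat_lit 336454) (nat_lit 34) .nil))) .nil)) 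
(.lf (nat_lit 221805) (.g (nat_lit 678) (.e (nat_lit 98316) (nat_lit 9) (.e (nat_lit 336215) (nat_lit 13) (.e (nat_lit 393227) (nat_lit 9) .nil))) .nil)))) (.nd (nat_lit 5) (.nd (nat_lit 6) 
(.lf (nat_lit 221725) (.g (nat_lit 3011) (.e (nat_lit 98316) (nat_lit 9) (.e (nat_lit 336021) (nat_lit 3) (.e (nat_lit 98317) (nat_lit 9) (.e (nat_lit 336004) (nat_lit 2) (.e (nat_lit 90158) (nat_lit 11) (.e (nat_lit 24608) (nat_lit 3) .nil)))))) (.g (nat_lit 5) .nil .nil))) 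
(.lf (nat_lit 221789) (.g (nat_lit 2510) (.e (nat_lit 98316) (nat_lit 9) (.e (nat_lit 336213) (nat_lit 13) (.e (nat_lit 393225) (nat_lit 9) (.e (nat_lit 335995) (nat_lit 1) (.e (nat_lit 57847) (nat_lit 252) (.e (nat_lit 57379) (nat_lit 3) .nil)))))) (.g (nat_lit 4) .nil .nil)))) (.nd (nat_lit 6) 
(.lf (nat_lit 221757) (.g (nat_lit 1277) (.e (nat_lit 98316) (nat_lit 9) (.e (nat_lit 336086) (nat_lit 9) (.e (nat_lit 336454) (nat_lit 34) (.e (nat_lit 491264) (nat_lit 3) .nil)))) .nil)) 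
(.lf (nat_lit 221821) (.g (nat_lit 741) (.e (nat_lit 98317) (nat_lit 9) (.e (nat_lit 335894) (nat_lit 0) (.e (nat_lit 6513) (nat_lit 346) .nil))) .nil))))))) (.nd (nat_lit 2) (.nd (nat_lit 3) (.nd (nat_lit 4) (.nd (nat_lit 5) (.nd (nat_lit 6) 
(.lf (nat_lit 221699) (.g (nat_lit 1941) (.e (nat_lit 98316) (nat_lit 9) (.e (nat_lit 335996) (nat_lit 1) (.e (nat_lit 57931) (nat_lit 282) (.e (nat_lit 163902) (nat_lit 12) (.e (nat_lit 426538) (nat_lit 29) .nil))))) .nil)) 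
(.lf (nat_lit 221763) (.g (nat_lit 1421) (.e (nat_lit 98316) (nat_lit 9) (.e (nat_lit 336087) (nat_lit 9) (.e (nat_lit 336019) (nat_lit 3) (.e (nat_lit 98356) (nat_lit 26) (.e (nat_lit 426448) (nat_lit 20) .nil))))) .nil))) (.nd (nat_lit 6) 
(.lf (nat_lit 221731) (.g (nat_lit 2799) (.e (nat_lit 98316) (nat_lit 9) (.e (nat_lit 336025) (nat_lit 3) (.e (nat_lit 98313) (nat_lit 9) (.e (nat_lit 336027) (nat_lit 3) (.e (nat_lit 98313) (nat_lit 9) (.e (nat_lit 336027) (nat_lit 3) .nil)))))) (.g (nat_lit 6) .nil .nil))) 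
(.lf (nat_lit 221795) (.g (nat_lit 1654) (.e (nat_lit 98316) (nat_lit 9) (.e (nat_lit 336213) (nat_lit 13) (.e (nat_lit 393229) (nat_lit 9) (.e (nat_lit 335995) (nat_lit 1) .nil)))) .nil)))) (.nd (nat_lit 5) (.nd (nat_lit 6) 
(.lf (nat_lit 221715) (.g (nat_lit 1953) (.e (nat_lit 98316) (nat_lit 9) (.e (nat_lit 336012) (nat_lit 2) (.e (nat_lit 90160) (nat_lit 11) (.e (nat_lit 24603) (nat_lit 2) .nil)))) .nil)) 
(.lf (nat_lit 221779) (.g (nat_lit 3216) (.e (nat_lit 98316) (nat_lit 9) (.e (nat_lit 336186) (nat_lit 11) (.e (nat_lit 368676) (nat_lit 21) (.e (nat_lit 516146) (nat_lit 9) (.e (nat_lit 426448) (nat_lit 20) (.e (nat_lit 114718) (nat_lit 23) .nil)))))) (.g (nat_lit 0) .nil .nil)))) (.nd (nat_lit 6) 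
(.lf (nat_lit 221747) (.g (nat_lit 2452) (.e (nat_lit 98316) (nat_lit 9) (.e (nat_lit 336076) (nat_lit 9) (.e (nat_lit 336454) (nat_lit 34) (.e (nat_lit 483365) (nat_lit 18) (.e (nat_lit 57854) (nat_lit 252) (.e (nat_lit 57378) (nat_lit 3) .nil)))))) (.g (nat_lit 4) .nil .nil))) 
(.lf (nat_lit 221811) (.g (nat_lit 813) (.e (nat_lit 98316) (nat_lit 9) (.e (nat_lit 336215) (nat_lit 13) (.e (nat_lit 401152) (nat_lit 9) (.e (nat_lit 336334) (nat_lit 20) (.e (nat_lit 229120) (nat_lit 3) .nil))))) .nil))))) (.nd (nat_lit 4) (.nd (nat_lit 5) (.nd (nat_lit 6) 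
(.lf (nat_lit 221707) (.g (nat_lit 1733) (.e (nat_lit 98316) (nat_lit 9) (.e (nat_lit 336004) (nat_lit 2) (.e (nat_lit 90160) (nat_lit 11) (.e (nat_lit 24604) (nat_lit 2) .nil)))) .nil)) 
(.lf (nat_lit 221771) (.g (nat_lit 3318) (.e (nat_lit 98316) (nat_lit 9) (.e (nat_lit 336088) (nat_lit 9) (.e (nat_lit 336019) (nat_lit 3) (.e (nat_lit 98358) (nat_lit 26) (.e (nat_lit 426448) (nat_lit 20) (.e (nat_lit 114718) (nat_lit 23) .nil)))))) (.g (nat_lit 0) .nil .nil)))) (.nd (nat_lit 6) 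
(.lf (nat_lit 221739) (.g (nat_lit 2150) (.e (nat_lit 98316) (nat_lit 9) (.e (nat_lit 336027) (nat_lit 3) (.e (nat_lit 98317) (nat_lit 9) (.e (nat_lit 336021) (nat_lit 3) (.e (nat_lit 98313) (nat_lit 9) .nil))))) .nil)) 
(.lf (nat_lit 221803) (.g (nat_lit 527) (.e (nat_lit 98316) (nat_lit 9) (.e (nat_lit 336214) (nat_lit 13) (.e (nat_lit 401152) (nat_lit 9) (.e (nat_lit 336334) (nat_lit 20) (.e (nat_lit 229120) (nat_lit 3) .nil))))) .nil)))) (.nd (nat_lit 5) (.nd (nat_lit 6) 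
(.lf (nat_lit 221723) (.g (nat_lit 1995) (.e (nat_lit 98316) (nat_lit 9) (.e (nat_lit 336021) (nat_lit 3) (.e (nat_lit 98317) (nat_lit 9) (.e (nat_lit 335917) (nat_lit 0) .nil)))) .nil)) 
(.lf (nat_lit 221787) (.g (nat_lit 1105) (.e (nat_lit 98316) (nat_lit 9) (.e (nat_lit 336186) (nat_lit 11) (.e (nat_lit 368676) (nat_lit 21) (.e (nat_lit 516180) (nat_lit 15) (.e (nat_lit 475212) (nat_lit 42) (.e (nat_lit 720945) (nat_lit 23) .nil)))))) (.g (nat_lit 4) .nil .nil)))) (.nd (nat_lit 6) 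
(.lf (nat_lit 221755) (.g (nat_lit 3565) (.e (nat_lit 98316) (nat_lit 9) (.e (nat_lit 336077) (nat_lit 9) (.e (nat_lit 336454) (nat_lit 34) (.e (nat_lit 483365) (nat_lit 18) (.e (nat_lit 57854) (nat_lit 252) (.e (nat_lit 57378) (nat_lit 3) .nil)))))) (.g (nat_lit 0) .nil .nil))) 
(.lf (nat_lit 221819) (.g (nat_lit 967) (.e (nat_lit 98316) (nat_lit 9) (.e (nat_lit 336223) (nat_lit 13) (.e (nat_lit 393229) (nat_lit 9) .nil))) .nil)))))) (.nd (nat_lit 3) (.nd (nat_lit 4) (.nd (nat_lit 5) (.nd (nat_lit 6) 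
(.lf (nat_lit 221703) (.g (nat_lit 1859) (.e (nat_lit 98316) (nat_lit 9) (.e (nat_lit 335996) (nat_lit 1) (.e (nat_lit 57931) (nat_lit 282) (.e (nat_lit 163905) (nat_lit 12) (.e (nat_lit 426555) (nat_lit 32) .nil))))) .nil)) 
(.lf (nat_lit 221767) (.g (nat_lit 1648) (.e (nat_lit 98316) (nat_lit 9) (.e (nat_lit 336088) (nat_lit 9) (.e (nat_lit 336019) (nat_lit 3) (.e (nat_lit 98354) (nat_lit 26) .nil)))) .nil))) (.nd (nat_lit 6) 
(.lf (nat_lit 221735) (.g (nat_lit 1801) (.e (nat_lit 98316) (nat_lit 9) (.e (nat_lit 336027) (nat_lit 3) (.e (nat_lit 98313) (nat_lit 9) (.e (nat_lit 336012) (nat_lit 2) (.e (nat_lit 90160) (nat_lit 11) .nil))))) .nil)) 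
(.lf (nat_lit 221799) (.g (nat_lit 2565) (.e (nat_lit 98316) (nat_lit 9) (.e (nat_lit 336214) (nat_lit 13) (.e (nat_lit 393229) (nat_lit 9) (.e (nat_lit 335988) (nat_lit 1) (.e (nat_lit 57852) (nat_lit 252) (.e (nat_lit 57378) (nat_lit 3) .nil)))))) (.g (nat_lit 6) .nil .nil))))) (.nd (nat_lit 5) (.nd (nat_lit 6) 
(.lf (nat_lit 221719) (.g (nat_lit 1832) (.e (nat_lit 98316) (nat_lit 9) (.e (nat_lit 336021) (nat_lit 3) (.e (nat_lit 98313) (nat_lit 9) (.e (nat_lit 336002) (nat_lit 2) (.e (nat_lit 90158) (nat_lit 11) .nil))))) .nil)) 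
(.lf (nat_lit 221783) (.g (nat_lit 2910) (.e (nat_lit 98316) (nat_lit 9) (.e (nat_lit 336186) (nat_lit 11) (.e (nat_lit 368676) (nat_lit 21) (.e (nat_lit 516149) (nat_lit 9) (.e (nat_lit 426448) (nat_lit 20) (.e (nat_lit 114718) (nat_lit 23) .nil)))))) (.g (nat_lit 6) .nil .nil)))) (.nd (nat_lit 6) 
(.lf (nat_lit 221751) (.g (nat_lit 2404) (.e (nat_lit 98316) (nat_lit 9) (.e (nat_lit 336077) (nat_lit 9) (.e (nat_lit 336454) (nat_lit 34) (.e (nat_lit 483364) (nat_lit 18) (.e (nat_lit 57854) (nat_lit 252) (.e (nat_lit 57378) (nat_lit 3) .nil)))))) (.g (nat_lit 6) .nil .nil))) 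
(.lf (nat_lit 221815) (.g (nat_lit 1971) (.e (nat_lit 98316) (nat_lit 9) (.e (nat_lit 336222) (nat_lit 13) (.e (nat_lit 393225) (nat_lit 9) (.e (nat_lit 335995) (nat_lit 1) (.e (nat_lit 57847) (nat_lit 252) .nil))))) .nil))))) (.nd (nat_lit 4) (.nd (nat_lit 5) (.nd (nat_lit 6) 
(.lf (nat_lit 221711) (.g (nat_lit 1672) (.e (nat_lit 98316) (nat_lit 9) (.e (nat_lit 336009) (nat_lit 2) (.e (nat_lit 90160) (nat_lit 11) (.e (nat_lit 24602) (nat_lit 2) (.e (nat_lit 90158) (nat_lit 11) .nil))))) .nil)) 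
(.lf (nat_lit 221775) (.g (nat_lit 2064) (.e (nat_lit 98316) (nat_lit 9) (.e (nat_lit 336088) (nat_lit 9) (.e (nat_lit 336019) (nat_lit 3) (.e (nat_lit 98384) (nat_lit 32) (.e (nat_lit 475214) (nat_lit 42) (.e (nat_lit 720944) (nat_lit 23) .nil)))))) (.g (nat_lit 4) .nil .nil)))) (.nd (nat_lit 6) 
(.lf (nat_lit 221743) (.g (nat_lit 2218) (.e (nat_lit 98316) (nat_lit 9) (.e (nat_lit 336076) (nat_lit 9) (.e (nat_lit 336454) (nat_lit 34) (.e (nat_lit 483363) (nat_lit 18) (.e (nat_lit 57847) (nat_lit 252) (.e (nat_lit 57379) (nat_lit 3) .nil)))))) (.g (nat_lit 4) .nil .nil))) 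
(.lf (nat_lit 221807) (.g (nat_lit 2288) (.e (nat_lit 98316) (nat_lit 9) (.e (nat_lit 336215) (nat_lit 13) (.e (nat_lit 393229) (nat_lit 9) (.e (nat_lit 335987) (nat_lit 1) (.e (nat_lit 57854) (nat_lit 252) .nil))))) .nil)))) (.nd (nat_lit 5) (.nd (nat_lit 6) 
(.lf (nat_lit 221727) (.g (nat_lit 1995) (.e (nat_lit 98316) (nat_lit 9) (.e (nat_lit 336021) (nat_lit 3) (.e (nat_lit 98317) (nat_lit 9) (.e (nat_lit 336020) (nat_lit 3) .nil)))) .nil)) 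
(.lf (nat_lit 221791) (.g (nat_lit 757) (.e (nat_lit 98316) (nat_lit 9) (.e (nat_lit 336213) (nat_lit 13) (.e (nat_lit 393229) (nat_lit 9) .nil))) .nil))) (.nd (nat_lit 6) 
(.lf (nat_lit 221759) (.g (nat_lit 2266) (.e (nat_lit 98316) (nat_lit 9) (.e (nat_lit 336086) (nat_lit 9) (.e (nat_lit 336454) (nat_lit 34) (.e (nat_lit 483363) (nat_lit 18) (.e (nat_lit 57854) (nat_lit 252) .nil))))) .nil)) 
(.lf (nat_lit 221823) (.g (nat_lit 838) (.e (nat_lit 98317) (nat_lit 9) (.e (nat_lit 335986) (nat_lit 1) (.e (nat_lit 57847) (nat_lit 252) .nil))) .nil)))))))))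

noncomputable def tv2913 : DT := (.nd (nat_lit 0) (.nd (nat_lit 1) (.nd (nat_lit 2) (.nd (nat_lit 3) (.nd (nat_lit 4) (.nd (nat_lit 5) (.nd (nat_lit 6) 
(.lf (nat_lit 221824) (.g (nat_lit 741) (.e (nat_lit 98317) (nat_lit 9) (.e (nat_lit 335986) (nat_lit 1) (.e (nat_lit 57849) (nat_lit 252) .nil))) .nil)) 
(.lf (nat_lit 221888) (.g (nat_lit 2765) (.e (nat_lit 98317) (nat_lit 9) (.e (nat_lit 336010) (nat_lit 2) (.e (nat_lit 90158) (nat_lit 11) (.e (nat_lit 24605) (nat_lit 2) (.e (nat_lit 90158) (nat_lit 11) (.e (nat_lit 24608) (nat_lit 3) .nil)))))) (.g (nat_lit 6) .nil .nil)))) (.nd (nat_lit 6) 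
(.lf (nat_lit 221856) (.g (nat_lit 2027) (.e (nat_lit 98317) (nat_lit 9) (.e (nat_lit 335996) (nat_lit 1) (.e (nat_lit 57929) (nat_lit 282) (.e (nat_lit 163905) (nat_lit 12) (.e (nat_lit 426542) (nat_lit 29) .nil))))) .nil)) 
(.lf (nat_lit 221920) (.g (nat_lit 1759) (.e (nat_lit 98317) (nat_lit 9) (.e (nat_lit 336012) (nat_lit 2) (.e (nat_lit 90159) (nat_lit 11) (.e (nat_lit 24580) (nat_lit 0) (.e (nat_lit 1764) (nat_lit 117) .nil))))) .nil)))) (.nd (nat_lit 5) (.nd (nat_lit 6) 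
(.lf (nat_lit 221840) (.g (nat_lit 2090) (.e (nat_lit 98317) (nat_lit 9) (.e (nat_lit 335988) (nat_lit 1) (.e (nat_lit 57931) (nat_lit 282) (.e (nat_lit 163901) (nat_lit 12) .nil)))) .nil)) 
(.lf (nat_lit 221904) (.g (nat_lit 1576) (.e (nat_lit 98317) (nat_lit 9) (.e (nat_lit 336011) (nat_lit 2) (.e (nat_lit 90160) (nat_lit 11) (.e (nat_lit 24604) (nat_lit 2) .nil)))) .nil))) (.nd (nat_lit 6) 
(.lf (nat_lit 221872) (.g (nat_lit 1837) (.e (nat_lit 98317) (nat_lit 9) (.e (nat_lit 336004) (nat_lit 2) (.e (nat_lit 90158) (nat_lit 11) (.e (nat_lit 24606) (nat_lit 3) .nil)))) .nil)) 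
(.lf (nat_lit 221936) (.g (nat_lit 3344) (.e (nat_lit 98317) (nat_lit 9) (.e (nat_lit 336021) (nat_lit 3) (.e (nat_lit 98313) (nat_lit 9) (.e (nat_lit 336027) (nat_lit 3) (.e (nat_lit 98313) (nat_lit 9) (.e (nat_lit 336027) (nat_lit 3) .nil)))))) (.g (nat_lit 6) .nil .nil)))))) (.nd (nat_lit 4) (.nd (nat_lit 5) (.nd (nat_lit 6) 
(.lf (nat_lit 221832) (.g (nat_lit 1705) (.e (nat_lit 98317) (nat_lit 9) (.e (nat_lit 335986) (nat_lit 1) (.e (nat_lit 57927) (nat_lit 282) (.e (nat_lit 163903) (nat_lit 12) (.e (nat_lit 426556) (nat_lit 32) .nil))))) .nil)) 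
(.lf (nat_lit 221896) (.g (nat_lit 1649) (.e (nat_lit 98317) (nat_lit 9) (.e (nat_lit 336011) (nat_lit 2) (.e (nat_lit 90158) (nat_lit 11) (.e (nat_lit 24604) (nat_lit 2) (.e (nat_lit 90157) (nat_lit 11) .nil))))) .nil))) (.nd (nat_lit 6) 
(.lf (nat_lit 221864) (.g (nat_lit 2340) (.e (nat_lit 98317) (nat_lit 9) (.e (nat_lit 336003) (nat_lit 2) (.e (nat_lit 90160) (nat_lit 11) (.e (nat_lit 24607) (nat_lit 3) (.e (nat_lit 98313) (nat_lit 9) .nil))))) .nil)) 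
(.lf (nat_lit 221928) (.g (nat_lit 3560) (.e (nat_lit 98317) (nat_lit 9) (.e (nat_lit 336012) (nat_lit 2) (.e (nat_lit 90160) (nat_lit 11) (.e (nat_lit 24604) (nat_lit 2) (.e (nat_lit 90160) (nat_lit 11) (.e (nat_lit 24607) (nat_lit 3) .nil)))))) (.g (nat_lit 6) .nil .nil))))) (.nd (nat_lit 5) (.nd (nat_lit 6) 
(.lf (nat_lit 221848) (.g (nat_lit 1150) (.e (nat_lit 98317) (nat_lit 9) (.e (nat_lit 335995) (nat_lit 1) (.e (nat_lit 57929) (nat_lit 282) (.e (nat_lit 163905) (nat_lit 12) .nil)))) .nil)) 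
(.lf (nat_lit 221912) (.g (nat_lit 1237) (.e (nat_lit 98317) (nat_lit 9) (.e (nat_lit 336012) (nat_lit 2) (.e (nat_lit 90158) (nat_lit 11) (.e (nat_lit 24604) (nat_lit 2) .nil)))) .nil))) (.nd (nat_lit 6) 
(.lf (nat_lit 221880) (.g (nat_lit 2298) (.e (nat_lit 98317) (nat_lit 9) (.e (nat_lit 336009) (nat_lit 2) (.e (nat_lit 90158) (nat_lit 11) (.e (nat_lit 24607) (nat_lit 3) (.e (nat_lit 98317) (nat_lit 9) (.e (nat_lit 336026) (nat_lit 3) .nil)))))) (.g (nat_lit 4) .nil .nil))) 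
(.lf (nat_lit 221944) (.g (nat_lit 1806) (.e (nat_lit 98317) (nat_lit 9) (.e (nat_lit 336021) (nat_lit 3) (.e (nat_lit 98317) (nat_lit 9) (.e (nat_lit 336002) (nat_lit 2) (.e (nat_lit 90157) (nat_lit 11) .nil))))) .nil)))))) (.nd (nat_lit 3) (.nd (nat_lit 4) (.nd (nat_lit 5) (.nd (nat_lit 6) 
(.lf (nat_lit 221828) (.g (nat_lit 1998) (.e (nat_lit 98317) (nat_lit 9) (.e (nat_lit 335986) (nat_lit 1) (.e (nat_lit 57926) (nat_lit 282) (.e (nat_lit 163905) (nat_lit 12) (.e (nat_lit 426542) (nat_lit 29) .nil))))) .nil)) 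
(.lf (nat_lit 221892) (.g (nat_lit 1575) (.e (nat_lit 98317) (nat_lit 9) (.e (nat_lit 336010) (nat_lit 2) (.e (nat_lit 90158) (nat_lit 11) (.e (nat_lit 24608) (nat_lit 3) (.e (nat_lit 98316) (nat_lit 9) .nil))))) .nil))) (.nd (nat_lit 6) 
(.lf (nat_lit 221860) (.g (nat_lit 2171) (.e (nat_lit 98317) (nat_lit 9) (.e (nat_lit 336002) (nat_lit 2) (.e (nat_lit 90158) (nat_lit 11) (.e (nat_lit 24609) (nat_lit 3) (.e (nat_lit 98317) (nat_lit 9) (.e (nat_lit 336026) (nat_lit 3) .nil)))))) (.g (nat_lit 5) .nil .nil))) 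
(.lf (nat_lit 221924) (.g (nat_lit 3042) (.e (nat_lit 98317) (nat_lit 9) (.e (nat_lit 336012) (nat_lit 2) (.e (nat_lit 90160) (nat_lit 11) (.e (nat_lit 24588) (nat_lit 0) (.e (nat_lit 1799) (nat_lit 119) (.e (nat_lit 516195) (nat_lit 26) (.e (nat_lit 336027) (nat_lit 3) .nil))))))) (.g (nat_lit 4) .nil .nil))))) (.nd (nat_lit 5) (.nd (nat_lit 6) 
(.lf (nat_lit 221844) (.g (nat_lit 1793) (.e (nat_lit 98317) (nat_lit 9) (.e (nat_lit 335988) (nat_lit 1) (.e (nat_lit 57931) (nat_lit 282) (.e (nat_lit 163905) (nat_lit 12) .nil)))) .nil)) 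
(.lf (nat_lit 221908) (.g (nat_lit 702) (.e (nat_lit 98317) (nat_lit 9) (.e (nat_lit 336012) (nat_lit 2) (.e (nat_lit 90127) (nat_lit 9) .nil))) .nil))) (.nd (nat_lit 6) 
(.lf (nat_lit 221876) (.g (nat_lit 1328) (.e (nat_lit 98317) (nat_lit 9) (.e (nat_lit 336004) (nat_lit 2) (.e (nat_lit 90160) (nat_lit 11) (.e (nat_lit 24601) (nat_lit 2) .nil)))) .nil)) 
(.lf (nat_lit 221940) (.g (nat_lit 1561) (.e (nat_lit 98317) (nat_lit 9) (.e (nat_lit 336021) (nat_lit 3) (.e (nat_lit 98317) (nat_lit 9) (.e (nat_lit 335914) (nat_lit 0) .nil)))) .nil))))) (.nd (nat_lit 4) (.nd (nat_lit 5) (.nd (nat_lit 6) 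
(.lf (nat_lit 221836) (.g (nat_lit 2008) (.e (nat_lit 98317) (nat_lit 9) (.e (nat_lit 335986) (nat_lit 1) (.e (nat_lit 57931) (nat_lit 282) (.e (nat_lit 163905) (nat_lit 12) (.e (nat_lit 426555) (nat_lit 32) .nil))))) .nil)) 
(.lf (nat_lit 221900) (.g (nat_lit 2756) (.e (nat_lit 98317) (nat_lit 9) (.e (nat_lit 336011) (nat_lit 2) (.e (nat_lit 90158) (nat_lit 11) (.e (nat_lit 24607) (nat_lit 3) (.e (nat_lit 98317) (nat_lit 9) (.e (nat_lit 336021) (nat_lit 3) .nil)))))) (.g (nat_lit 4) .nil .nil)))) (.nd (nat_lit 6) 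
(.lf (nat_lit 221868) (.g (nat_lit 1881) (.e (nat_lit 98317) (nat_lit 9) (.e (nat_lit 336004) (nat_lit 2) (.e (nat_lit 90158) (nat_lit 11) (.e (nat_lit 24588) (nat_lit 0) .nil)))) .nil)) 
(.lf (nat_lit 221932) (.g (nat_lit 465) (.e (nat_lit 98317) (nat_lit 9) (.e (nat_lit 336021) (nat_lit 3) (.e (nat_lit 98313) (nat_lit 9) .nil))) .nil)))) (.nd (nat_lit 5) (.nd (nat_lit 6) 
(.lf (nat_lit 221852) (.g (nat_lit 895) (.e (nat_lit 98317) (nat_lit 9) (.e (nat_lit 335996) (nat_lit 1) (.e (nat_lit 57854) (nat_lit 252) .nil))) .nil)) 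
(.lf (nat_lit 221916) (.g (nat_lit 3028) (.e (nat_lit 98317) (nat_lit 9) (.e (nat_lit 336012) (nat_lit 2) (.e (nat_lit 90158) (nat_lit 11) (.e (nat_lit 24605) (nat_lit 2) (.e (nat_lit 90158) (nat_lit 11) (.e (nat_lit 24609) (nat_lit 3) .nil)))))) (.g (nat_lit 6) .nil .nil)))) (.nd (nat_lit 6) 
(.lf (nat_lit 221884) (.g (nat_lit 2317) (.e (nat_lit 98317) (nat_lit 9) (.e (nat_lit 336009) (nat_lit 2) (.e (nat_lit 90160) (nat_lit 11) (.e (nat_lit 24608) (nat_lit 3) (.e (nat_lit 98317) (nat_lit 9) .nil))))) .nil)) 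
(.lf (nat_lit 221948) (.g (nat_lit 3247) (.e (nat_lit 98317) (nat_lit 9) (.e (nat_lit 336021) (nat_lit 3) (.e (nat_lit 98317) (nat_lit 9) (.e (nat_lit 336009) (nat_lit 2) (.e (nat_lit 90160) (nat_lit 11) (.e (nat_lit 24607) (nat_lit 3) .nil)))))) (.g (nat_lit 5) .nil .nil)))))))) (.nd (nat_lit 2) (.nd (nat_lit 3) (.nd (nat_lit 4) (.nd (nat_lit 5) (.nd (nat_lit 6) 
(.lf (nat_lit 221826) (.g (nat_lit 2368) (.e (nat_lit 98317) (nat_lit 9) (.e (nat_lit 335986) (nat_lit 1) (.e (nat_lit 57926) (nat_lit 282) (.e (nat_lit 163903) (nat_lit 12) (.e (nat_lit 426555) (nat_lit 32) .nil))))) .nil)) 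
(.lf (nat_lit 221890) (.g (nat_lit 3045) (.e (nat_lit 98317) (nat_lit 9) (.e (nat_lit 336010) (nat_lit 2) (.e (nat_lit 90158) (nat_lit 11) (.e (nat_lit 24607) (nat_lit 3) (.e (nat_lit 98317) (nat_lit 9) (.e (nat_lit 336027) (nat_lit 3) .nil)))))) (.g (nat_lit 0) .nil .nil)))) (.nd (nat_lit 6) 
(.lf (nat_lit 221858) (.g (nat_lit 1388) (.e (nat_lit 98317) (nat_lit 9) (.e (nat_lit 335996) (nat_lit 1) (.e (nat_lit 57930) (nat_lit 282) (.e (nat_lit 163904) (nat_lit 12) (.e (nat_lit 426555) (nat_lit 32) .nil))))) .nil)) 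
(.lf (nat_lit 221922) (.g (nat_lit 2091) (.e (nat_lit 98317) (nat_lit 9) (.e (nat_lit 336012) (nat_lit 2) (.e (nat_lit 90160) (nat_lit 11) (.e (nat_lit 24576) (nat_lit 0) .nil)))) .nil)))) (.nd (nat_lit 5) (.nd (nat_lit 6) 
(.lf (nat_lit 221842) (.g (nat_lit 2872) (.e (nat_lit 98317) (nat_lit 9) (.e (nat_lit 335988) (nat_lit 1) (.e (nat_lit 57931) (nat_lit 282) (.e (nat_lit 163902) (nat_lit 12) (.e (nat_lit 426556) (nat_lit 32) .nil))))) .nil)) 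
(.lf (nat_lit 221906) (.g (nat_lit 2184) (.e (nat_lit 98317) (nat_lit 9) (.e (nat_lit 336011) (nat_lit 2) (.e (nat_lit 90160) (nat_lit 11) (.e (nat_lit 24607) (nat_lit 3) (.e (nat_lit 98317) (nat_lit 9) .nil))))) .nil))) (.nd (nat_lit 6) 
(.lf (nat_lit 221874) (.g (nat_lit 1199) (.e (nat_lit 98317) (nat_lit 9) (.e (nat_lit 336004) (nat_lit 2) (.e (nat_lit 90158) (nat_lit 11) (.e (nat_lit 24609) (nat_lit 3) .nil)))) .nil)) 
(.lf (nat_lit 221938) (.g (nat_lit 385) (.e (nat_lit 98317) (nat_lit 9) (.e (nat_lit 336021) (nat_lit 3) (.e (nat_lit 98317) (nat_lit 9) .nil))) .nil))))) (.nd (nat_lit 4) (.nd (nat_lit 5) (.nd (nat_lit 6) 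
(.lf (nat_lit 221834) (.g (nat_lit 1881) (.e (nat_lit 98317) (nat_lit 9) (.e (nat_lit 335986) (nat_lit 1) (.e (nat_lit 57931) (nat_lit 282) (.e (nat_lit 163904) (nat_lit 12) (.e (nat_lit 426555) (nat_lit 32) .nil))))) .nil)) 
(.lf (nat_lit 221898) (.g (nat_lit 2579) (.e (nat_lit 98317) (nat_lit 9) (.e (nat_lit 336011) (nat_lit 2) (.e (nat_lit 90158) (nat_lit 11) (.e (nat_lit 24607) (nat_lit 3) (.e (nat_lit 98313) (nat_lit 9) (.e (nat_lit 336021) (nat_lit 3) .nil)))))) (.g (nat_lit 4) .nil .nil)))) (.nd (nat_lit 6) 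
(.lf (nat_lit 221866) (.g (nat_lit 1249) (.e (nat_lit 98317) (nat_lit 9) (.e (nat_lit 336003) (nat_lit 2) (.e (nat_lit 90160) (nat_lit 11) (.e (nat_lit 24608) (nat_lit 3) .nil)))) .nil)) 
(.lf (nat_lit 221930) (.g (nat_lit 2399) (.e (nat_lit 98317) (nat_lit 9) (.e (nat_lit 336012) (nat_lit 2) (.e (nat_lit 90160) (nat_lit 11) (.e (nat_lit 24605) (nat_lit 2) (.e (nat_lit 90158) (nat_lit 11) .nil))))) .nil)))) (.nd (nat_lit 5) (.nd (nat_lit 6) 
(.lf (nat_lit 221850) (.g (nat_lit 1831) (.e (nat_lit 98317) (nat_lit 9) (.e (nat_lit 335995) (nat_lit 1) (.e (nat_lit 57931) (nat_lit 282) (.e (nat_lit 163902) (nat_lit 12) (.e (nat_lit 426556) (nat_lit 32) .nil))))) .nil)) 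
(.lf (nat_lit 221914) (.g (nat_lit 3780) (.e (nat_lit 98317) (nat_lit 9) (.e (nat_lit 336012) (nat_lit 2) (.e (nat_lit 90158) (nat_lit 11) (.e (nat_lit 24604) (nat_lit 2) (.e (nat_lit 90158) (nat_lit 11) (.e (nat_lit 24608) (nat_lit 3) .nil)))))) (.g (nat_lit 0) .nil .nil)))) (.nd (nat_lit 6) 
(.lf (nat_lit 221882) (.g (nat_lit 2877) (.e (nat_lit 98317) (nat_lit 9) (.e (nat_lit 336009) (nat_lit 2) (.e (nat_lit 90160) (nat_lit 11) (.e (nat_lit 24607) (nat_lit 3) (.e (nat_lit 98313) (nat_lit 9) (.e (nat_lit 336027) (nat_lit 3) .nil)))))) (.g (nat_lit 4) .nil .nil))) 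
(.lf (nat_lit 221946) (.g (nat_lit 2567) (.e (nat_lit 98317) (nat_lit 9) (.e (nat_lit 336021) (nat_lit 3) (.e (nat_lit 98317) (nat_lit 9) (.e (nat_lit 336004) (nat_lit 2) (.e (nat_lit 90157) (nat_lit 11) (.e (nat_lit 24607) (nat_lit 3) .nil)))))) (.g (nat_lit 4) .nil .nil))))))) (.nd (nat_lit 3) (.nd (nat_lit 4) (.nd (nat_lit 5) (.nd (nat_lit 6) 
(.lf (nat_lit 221830) (.g (nat_lit 1604) (.e (nat_lit 98317) (nat_lit 9) (.e (nat_lit 335986) (nat_lit 1) (.e (nat_lit 57926) (nat_lit 282) (.e (nat_lit 163906) (nat_lit 12) .nil)))) .nil)) 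
(.lf (nat_lit 221894) (.g (nat_lit 1703) (.e (nat_lit 98317) (nat_lit 9) (.e (nat_lit 336011) (nat_lit 2) (.e (nat_lit 90157) (nat_lit 11) (.e (nat_lit 24608) (nat_lit 3) (.e (nat_lit 98313) (nat_lit 9) .nil))))) .nil))) (.nd (nat_lit 6) 
(.lf (nat_lit 221862) (.g (nat_lit 2279) (.e (nat_lit 98317) (nat_lit 9) (.e (nat_lit 336003) (nat_lit 2) (.e (nat_lit 90158) (nat_lit 11) (.e (nat_lit 24608) (nat_lit 3) (.e (nat_lit 98317) (nat_lit 9) (.e (nat_lit 336027) (nat_lit 3) .nil)))))) (.g (nat_lit 4) .nil .nil))) 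
(.lf (nat_lit 221926) (.g (nat_lit 2039) (.e (nat_lit 98317) (nat_lit 9) (.e (nat_lit 336012) (nat_lit 2) (.e (nat_lit 90160) (nat_lit 11) (.e (nat_lit 24601) (nat_lit 2) (.e (nat_lit 90157) (nat_lit 11) .nil))))) .nil)))) (.nd (nat_lit 5) (.nd (nat_lit 6) 
(.lf (nat_lit 221846) (.g (nat_lit 659) (.e (nat_lit 98317) (nat_lit 9) (.e (nat_lit 335995) (nat_lit 1) (.e (nat_lit 57849) (nat_lit 252) .nil))) .nil)) 
(.lf (nat_lit 221910) (.g (nat_lit 1425) (.e (nat_lit 98317) (nat_lit 9) (.e (nat_lit 336012) (nat_lit 2) (.e (nat_lit 90158) (nat_lit 11) (.e (nat_lit 24601) (nat_lit 2) .nil)))) .nil))) (.nd (nat_lit 6) 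
(.lf (nat_lit 221878) (.g (nat_lit 3363) (.e (nat_lit 98317) (nat_lit 9) (.e (nat_lit 336004) (nat_lit 2) (.e (nat_lit 90160) (nat_lit 11) (.e (nat_lit 24604) (nat_lit 2) (.e (nat_lit 90160) (nat_lit 11) (.e (nat_lit 24607) (nat_lit 3) .nil)))))) (.g (nat_lit 6) .nil .nil))) 
(.lf (nat_lit 221942) (.g (nat_lit 1755) (.e (nat_lit 98317) (nat_lit 9) (.e (nat_lit 336021) (nat_lit 3) (.e (nat_lit 98317) (nat_lit 9) (.e (nat_lit 335934) (nat_lit 0) .nil)))) .nil))))) (.nd (nat_lit 4) (.nd (nat_lit 5) (.nd (nat_lit 6) 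
(.lf (nat_lit 221838) (.g (nat_lit 1152) (.e (nat_lit 98317) (nat_lit 9) (.e (nat_lit 335988) (nat_lit 1) (.e (nat_lit 57927) (nat_lit 282) (.e (nat_lit 163902) (nat_lit 12) .nil)))) .nil)) 
(.lf (nat_lit 221902) (.g (nat_lit 1494) (.e (nat_lit 98317) (nat_lit 9) (.e (nat_lit 336011) (nat_lit 2) (.e (nat_lit 90158) (nat_lit 11) (.e (nat_lit 24608) (nat_lit 3) (.e (nat_lit 98312) (nat_lit 9) .nil))))) .nil))) (.nd (nat_lit 6) 
(.lf (nat_lit 221870) (.g (nat_lit 1148) (.e (nat_lit 98317) (nat_lit 9) (.e (nat_lit 336004) (nat_lit 2) (.e (nat_lit 90158) (nat_lit 11) (.e (nat_lit 24604) (nat_lit 2) .nil)))) .nil)) 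
(.lf (nat_lit 221934) (.g (nat_lit 1971) (.e (nat_lit 98317) (nat_lit 9) (.e (nat_lit 336021) (nat_lit 3) (.e (nat_lit 98313) (nat_lit 9) (.e (nat_lit 336025) (nat_lit 3) (.e (nat_lit 98313) (nat_lit 9) .nil))))) .nil)))) (.nd (nat_lit 5) (.nd (nat_lit 6) 
(.lf (nat_lit 221854) (.g (nat_lit 2303) (.e (nat_lit 98317) (nat_lit 9) (.e (nat_lit 335996) (nat_lit 1) (.e (nat_lit 57929) (nat_lit 282) (.e (nat_lit 163902) (nat_lit 12) (.e (nat_lit 426555) (nat_lit 32) .nil))))) .nil)) 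
(.lf (nat_lit 221918) (.g (nat_lit 1201) (.e (nat_lit 98317) (nat_lit 9) (.e (nat_lit 336012) (nat_lit 2) (.e (nat_lit 90158) (nat_lit 11) (.e (nat_lit 24609) (nat_lit 3) .nil)))) .nil))) (.nd (nat_lit 6) 
(.lf (nat_lit 221886) (.g (nat_lit 2794) (.e (nat_lit 98317) (nat_lit 9) (.e (nat_lit 336010) (nat_lit 2) (.e (nat_lit 90158) (nat_lit 11) (.e (nat_lit 24604) (nat_lit 2) (.e (nat_lit 90158) (nat_lit 11) (.e (nat_lit 24609) (nat_lit 3) .nil)))))) (.g (nat_lit 0) .nil .nil))) 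
(.lf (nat_lit 221950) (.g (nat_lit 2854) (.e (nat_lit 98317) (nat_lit 9) (.e (nat_lit 336021) (nat_lit 3) (.e (nat_lit 98317) (nat_lit 9) (.e (nat_lit 336010) (nat_lit 2) (.e (nat_lit 90158) (nat_lit 11) (.e (nat_lit 24609) (nat_lit 3) .nil)))))) (.g (nat_lit 6) .nil .nil))))))))) (.nd (nat_lit 1) (.nd (nat_lit 2) (.nd (nat_lit 3) (.nd (nat_lit 4) (.nd (nat_lit 5) (.nd (nat_lit 6) 
(.lf (nat_lit 221825) (.g (nat_lit 2389) (.e (nat_lit 98317) (nat_lit 9) (.e (nat_lit 335986) (nat_lit 1) (.e (nat_lit 57926) (nat_lit 282) (.e (nat_lit 163902) (nat_lit 12) (.e (nat_lit 426555) (nat_lit 32) .nil))))) .nil)) 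
(.lf (nat_lit 221889) (.g (nat_lit 3084) (.e (nat_lit 98317) (nat_lit 9) (.e (nat_lit 336010) (nat_lit 2) (.e (nat_lit 90158) (nat_lit 11) (.e (nat_lit 24607) (nat_lit 3) (.e (nat_lit 98313) (nat_lit 9) (.e (nat_lit 336027) (nat_lit 3) .nil)))))) (.g (nat_lit 0) .nil .nil)))) (.nd (nat_lit 6) 
(.lf (nat_lit 221857) (.g (nat_lit 1992) (.e (nat_lit 98317) (nat_lit 9) (.e (nat_lit 335996) (nat_lit 1) (.e (nat_lit 57929) (nat_lit 282) (.e (nat_lit 163905) (nat_lit 12) (.e (nat_lit 426555) (nat_lit 32) .nil))))) .nil)) 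
(.lf (nat_lit 221921) (.g (nat_lit 2953) (.e (nat_lit 98317) (nat_lit 9) (.e (nat_lit 336012) (nat_lit 2) (.e (nat_lit 90159) (nat_lit 11) (.e (nat_lit 24602) (nat_lit 2) (.e (nat_lit 90158) (nat_lit 11) (.e (nat_lit 24607) (nat_lit 3) .nil)))))) (.g (nat_lit 0) .nil .nil))))) (.nd (nat_lit 5) (.nd (nat_lit 6) 
(.lf (nat_lit 221841) (.g (nat_lit 2645) (.e (nat_lit 98317) (nat_lit 9) (.e (nat_lit 335988) (nat_lit 1) (.e (nat_lit 57931) (nat_lit 282) (.e (nat_lit 163902) (nat_lit 12) (.e (nat_lit 426555) (nat_lit 32) .nil))))) .nil)) 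
(.lf (nat_lit 221905) (.g (nat_lit 2359) (.e (nat_lit 98317) (nat_lit 9) (.e (nat_lit 336011) (nat_lit 2) (.e (nat_lit 90160) (nat_lit 11) (.e (nat_lit 24607) (nat_lit 3) (.e (nat_lit 98313) (nat_lit 9) .nil))))) .nil))) (.nd (nat_lit 6) 
(.lf (nat_lit 221873) (.g (nat_lit 1831) (.e (nat_lit 98317) (nat_lit 9) (.e (nat_lit 336004) (nat_lit 2) (.e (nat_lit 90158) (nat_lit 11) (.e (nat_lit 24608) (nat_lit 3) (.e (nat_lit 98316) (nat_lit 9) .nil))))) .nil)) 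
(.lf (nat_lit 221937) (.g (nat_lit 1266) (.e (nat_lit 98317) (nat_lit 9) (.e (nat_lit 336021) (nat_lit 3) (.e (nat_lit 98314) (nat_lit 9) (.e (nat_lit 336017) (nat_lit 3) (.e (nat_lit 98313) (nat_lit 9) .nil))))) .nil))))) (.nd (nat_lit 4) (.nd (nat_lit 5) (.nd (nat_lit 6) 
(.lf (nat_lit 221833) (.g (nat_lit 2215) (.e (nat_lit 98317) (nat_lit 9) (.e (nat_lit 335986) (nat_lit 1) (.e (nat_lit 57931) (nat_lit 282) (.e (nat_lit 163902) (nat_lit 12) (.e (nat_lit 426555) (nat_lit 32) .nil))))) .nil)) 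
(.lf (nat_lit 221897) (.g (nat_lit 1716) (.e (nat_lit 98317) (nat_lit 9) (.e (nat_lit 336011) (nat_lit 2) (.e (nat_lit 90158) (nat_lit 11) (.e (nat_lit 24604) (nat_lit 2) (.e (nat_lit 90158) (nat_lit 11) .nil))))) .nil))) (.nd (nat_lit 6) 
(.lf (nat_lit 221865) (.g (nat_lit 2310) (.e (nat_lit 98317) (nat_lit 9) (.e (nat_lit 336003) (nat_lit 2) (.e (nat_lit 90160) (nat_lit 11) (.e (nat_lit 24607) (nat_lit 3) (.e (nat_lit 98317) (nat_lit 9) .nil))))) .nil)) 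
(.lf (nat_lit 221929) (.g (nat_lit 2033) (.e (nat_lit 98317) (nat_lit 9) (.e (nat_lit 336012) (nat_lit 2) (.e (nat_lit 90160) (nat_lit 11) (.e (nat_lit 24605) (nat_lit 2) .nil)))) .nil)))) (.nd (nat_lit 5) (.nd (nat_lit 6) 
(.lf (nat_lit 221849) (.g (nat_lit 647) (.e (nat_lit 98317) (nat_lit 9) (.e (nat_lit 335995) (nat_lit 1) (.e (nat_lit 57930) (nat_lit 282) .nil))) .nil)) 
(.lf (nat_lit 221913) (.g (nat_lit 3717) (.e (nat_lit 98317) (nat_lit 9) (.e (nat_lit 336012) (nat_lit 2) (.e (nat_lit 90158) (nat_lit 11) (.e (nat_lit 24604) (nat_lit 2) (.e (nat_lit 90157) (nat_lit 11) (.e (nat_lit 24607) (nat_lit 3) .nil)))))) (.g (nat_lit 0) .nil .nil)))) (.nd (nat_lit 6) 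
(.lf (nat_lit 221881) (.g (nat_lit 2517) (.e (nat_lit 98317) (nat_lit 9) (.e (nat_lit 336009) (nat_lit 2) (.e (nat_lit 90160) (nat_lit 11) (.e (nat_lit 24604) (nat_lit 2) (.e (nat_lit 90160) (nat_lit 11) .nil))))) .nil)) 
(.lf (nat_lit 221945) (.g (nat_lit 2908) (.e (nat_lit 98317) (nat_lit 9) (.e (nat_lit 336021) (nat_lit 3) (.e (nat_lit 98317) (nat_lit 9) (.e (nat_lit 336003) (nat_lit 2) (.e (nat_lit 90158) (nat_lit 11) (.e (nat_lit 24608) (nat_lit 3) .nil)))))) (.g (nat_lit 5) .nil .nil))))))) (.nd (nat_lit 3) (.nd (nat_lit 4) (.nd (nat_lit 5) (.nd (nat_lit 6) 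
(.lf (nat_lit 221829) (.g (nat_lit 1993) (.e (nat_lit 98317) (nat_lit 9) (.e (nat_lit 335986) (nat_lit 1) (.e (nat_lit 57926) (nat_lit 282) (.e (nat_lit 163905) (nat_lit 12) (.e (nat_lit 426555) (nat_lit 32) .nil))))) .nil)) 
(.lf (nat_lit 221893) (.g (nat_lit 3660) (.e (nat_lit 98317) (nat_lit 9) (.e (nat_lit 336011) (nat_lit 2) (.e (nat_lit 90134) (nat_lit 9) (.e (nat_lit 290) (nat_lit 21) (.e (nat_lit 336021) (nat_lit 3) (.e (nat_lit 98317) (nat_lit 9) (.e (nat_lit 336026) (nat_lit 3) .nil))))))) (.g (nat_lit 6) .nil .nil)))) (.nd (nat_lit 6) 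
(.lf (nat_lit 221861) (.g (nat_lit 2126) (.e (nat_lit 98317) (nat_lit 9) (.e (nat_lit 336003) (nat_lit 2) (.e (nat_lit 90158) (nat_lit 11) (.e (nat_lit 24607) (nat_lit 3) (.e (nat_lit 98317) (nat_lit 9) (.e (nat_lit 336026) (nat_lit 3) .nil)))))) (.g (nat_lit 4) .nil .nil))) 
(.lf (nat_lit 221925) (.g (nat_lit 1754) (.e (nat_lit 98317) (nat_lit 9) (.e (nat_lit 336012) (nat_lit 2) (.e (nat_lit 90160) (nat_lit 11) (.e (nat_lit 24601) (nat_lit 2) .nil)))) .nil)))) (.nd (nat_lit 5) (.nd (nat_lit 6) 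
(.lf (nat_lit 221845) (.g (nat_lit 1375) (.e (nat_lit 98317) (nat_lit 9) (.e (nat_lit 335994) (nat_lit 1) (.e (nat_lit 57931) (nat_lit 282) (.e (nat_lit 163904) (nat_lit 12) (.e (nat_lit 426555) (nat_lit 32) .nil))))) .nil)) 
(.lf (nat_lit 221909) (.g (nat_lit 1697) (.e (nat_lit 98317) (nat_lit 9) (.e (nat_lit 336012) (nat_lit 2) (.e (nat_lit 90128) (nat_lit 9) (.e (nat_lit 293) (nat_lit 21) (.e (nat_lit 336017) (nat_lit 3) .nil))))) .nil))) (.nd (nat_lit 6) 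
(.lf (nat_lit 221877) (.g (nat_lit 1578) (.e (nat_lit 98317) (nat_lit 9) (.e (nat_lit 336004) (nat_lit 2) (.e (nat_lit 90160) (nat_lit 11) (.e (nat_lit 24601) (nat_lit 2) (.e (nat_lit 90157) (nat_lit 11) .nil))))) .nil)) 
(.lf (nat_lit 221941) (.g (nat_lit 1755) (.e (nat_lit 98317) (nat_lit 9) (.e (nat_lit 336021) (nat_lit 3) (.e (nat_lit 98317) (nat_lit 9) (.e (nat_lit 335933) (nat_lit 0) .nil)))) .nil))))) (.nd (nat_lit 4) (.nd (nat_lit 5) (.nd (nat_lit 6) 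
(.lf (nat_lit 221837) (.g (nat_lit 2171) (.e (nat_lit 98317) (nat_lit 9) (.e (nat_lit 335988) (nat_lit 1) (.e (nat_lit 57926) (nat_lit 282) (.e (nat_lit 163902) (nat_lit 12) (.e (nat_lit 426555) (nat_lit 32) .nil))))) .nil)) 
(.lf (nat_lit 221901) (.g (nat_lit 2230) (.e (nat_lit 98317) (nat_lit 9) (.e (nat_lit 336011) (nat_lit 2) (.e (nat_lit 90158) (nat_lit 11) (.e (nat_lit 24607) (nat_lit 3) (.e (nat_lit 98317) (nat_lit 9) (.e (nat_lit 336027) (nat_lit 3) .nil)))))) (.g (nat_lit 4) .nil .nil)))) (.nd (nat_lit 6) 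
(.lf (nat_lit 221869) (.g (nat_lit 1886) (.e (nat_lit 98317) (nat_lit 9) (.e (nat_lit 336004) (nat_lit 2) (.e (nat_lit 90158) (nat_lit 11) (.e (nat_lit 24601) (nat_lit 2) .nil)))) .nil)) 
(.lf (nat_lit 221933) (.g (nat_lit 1735) (.e (nat_lit 98317) (nat_lit 9) (.e (nat_lit 336021) (nat_lit 3) (.e (nat_lit 98313) (nat_lit 9) (.e (nat_lit 336003) (nat_lit 2) .nil)))) .nil)))) (.nd (nat_lit 5) (.nd (nat_lit 6) 
(.lf (nat_lit 221853) (.g (nat_lit 2907) (.e (nat_lit 98317) (nat_lit 9) (.e (nat_lit 335996) (nat_lit 1) (.e (nat_lit 57854) (nat_lit 252) (.e (nat_lit 57389) (nat_lit 5) (.e (nat_lit 114711) (nat_lit 21) .nil))))) .nil)) 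
(.lf (nat_lit 221917) (.g (nat_lit 2030) (.e (nat_lit 98317) (nat_lit 9) (.e (nat_lit 336012) (nat_lit 2) (.e (nat_lit 90158) (nat_lit 11) (.e (nat_lit 24608) (nat_lit 3) (.e (nat_lit 98316) (nat_lit 9) .nil))))) .nil))) (.nd (nat_lit 6) 
(.lf (nat_lit 221885) (.g (nat_lit 3143) (.e (nat_lit 98317) (nat_lit 9) (.e (nat_lit 336010) (nat_lit 2) (.e (nat_lit 90158) (nat_lit 11) (.e (nat_lit 24604) (nat_lit 2) (.e (nat_lit 90158) (nat_lit 11) (.e (nat_lit 24608) (nat_lit 3) .nil)))))) (.g (nat_lit 0) .nil .nil))) 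
(.lf (nat_lit 221949) (.g (nat_lit 1197) (.e (nat_lit 98317) (nat_lit 9) (.e (nat_lit 336021) (nat_lit 3) (.e (nat_lit 98317) (nat_lit 9) (.e (nat_lit 336010) (nat_lit 2) .nil)))) .nil))))))) (.nd (nat_lit 2) (.nd (nat_lit 3) (.nd (nat_lit 4) (.nd (nat_lit 5) (.nd (nat_lit 6) 
(.lf (nat_lit 221827) (.g (nat_lit 1603) (.e (nat_lit 98317) (nat_lit 9) (.e (nat_lit 335986) (nat_lit 1) (.e (nat_lit 57926) (nat_lit 282) (.e (nat_lit 163904) (nat_lit 12) .nil)))) .nil)) 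
(.lf (nat_lit 221891) (.g (nat_lit 2966) (.e (nat_lit 98317) (nat_lit 9) (.e (nat_lit 336010) (nat_lit 2) (.e (nat_lit 90158) (nat_lit 11) (.e (nat_lit 24608) (nat_lit 3) (.e (nat_lit 98313) (nat_lit 9) (.e (nat_lit 336027) (nat_lit 3) .nil)))))) (.g (nat_lit 0) .nil .nil)))) (.nd (nat_lit 6) 
(.lf (nat_lit 221859) (.g (nat_lit 1791) (.e (nat_lit 98317) (nat_lit 9) (.e (nat_lit 335996) (nat_lit 1) (.e (nat_lit 57931) (nat_lit 282) (.e (nat_lit 163902) (nat_lit 12) (.e (nat_lit 426556) (nat_lit 32) .nil))))) .nil)) 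
(.lf (nat_lit 221923) (.g (nat_lit 1958) (.e (nat_lit 98317) (nat_lit 9) (.e (nat_lit 336012) (nat_lit 2) (.e (nat_lit 90160) (nat_lit 11) (.e (nat_lit 24588) (nat_lit 0) .nil)))) .nil)))) (.nd (nat_lit 5) (.nd (nat_lit 6) 
(.lf (nat_lit 221843) (.g (nat_lit 1879) (.e (nat_lit 98317) (nat_lit 9) (.e (nat_lit 335988) (nat_lit 1) (.e (nat_lit 57931) (nat_lit 282) (.e (nat_lit 163904) (nat_lit 12) .nil)))) .nil)) 
(.lf (nat_lit 221907) (.g (nat_lit 702) (.e (nat_lit 98317) (nat_lit 9) (.e (nat_lit 336012) (nat_lit 2) (.e (nat_lit 90125) (nat_lit 9) .nil))) .nil))) (.nd (nat_lit 6) 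
(.lf (nat_lit 221875) (.g (nat_lit 1757) (.e (nat_lit 98317) (nat_lit 9) (.e (nat_lit 336004) (nat_lit 2) (.e (nat_lit 90159) (nat_lit 11) (.e (nat_lit 24607) (nat_lit 3) (.e (nat_lit 98317) (nat_lit 9) .nil))))) .nil)) 
(.lf (nat_lit 221939) (.g (nat_lit 1755) (.e (nat_lit 98317) (nat_lit 9) (.e (nat_lit 336021) (nat_lit 3) (.e (nat_lit 98317) (nat_lit 9) (.e (nat_lit 335892) (nat_lit 0) .nil)))) .nil))))) (.nd (nat_lit 4) (.nd (nat_lit 5) (.nd (nat_lit 6) 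
(.lf (nat_lit 221835) (.g (nat_lit 2055) (.e (nat_lit 98317) (nat_lit 9) (.e (nat_lit 335986) (nat_lit 1) (.e (nat_lit 57931) (nat_lit 282) (.e (nat_lit 163905) (nat_lit 12) (.e (nat_lit 426542) (nat_lit 29) .nil))))) .nil)) 
(.lf (nat_lit 221899) (.g (nat_lit 2241) (.e (nat_lit 98317) (nat_lit 9) (.e (nat_lit 336011) (nat_lit 2) (.e (nat_lit 90158) (nat_lit 11) (.e (nat_lit 24607) (nat_lit 3) (.e (nat_lit 98313) (nat_lit 9) (.e (nat_lit 336027) (nat_lit 3) .nil)))))) (.g (nat_lit 4) .nil .nil)))) (.nd (nat_lit 6) 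
(.lf (nat_lit 221867) (.g (nat_lit 400) (.e (nat_lit 98317) (nat_lit 9) (.e (nat_lit 336004) (nat_lit 2) (.e (nat_lit 90158) (nat_lit 11) .nil))) .nil)) 
(.lf (nat_lit 221931) (.g (nat_lit 2588) (.e (nat_lit 98317) (nat_lit 9) (.e (nat_lit 336012) (nat_lit 2) (.e (nat_lit 90160) (nat_lit 11) (.e (nat_lit 24609) (nat_lit 3) (.e (nat_lit 98317) (nat_lit 9) .nil))))) .nil)))) (.nd (nat_lit 5) (.nd (nat_lit 6) 
(.lf (nat_lit 221851) (.g (nat_lit 752) (.e (nat_lit 98317) (nat_lit 9) (.e (nat_lit 335996) (nat_lit 1) (.e (nat_lit 57851) (nat_lit 252) .nil))) .nil)) 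
(.lf (nat_lit 221915) (.g (nat_lit 3427) (.e (nat_lit 98317) (nat_lit 9) (.e (nat_lit 336012) (nat_lit 2) (.e (nat_lit 90158) (nat_lit 11) (.e (nat_lit 24605) (nat_lit 2) (.e (nat_lit 90158) (nat_lit 11) (.e (nat_lit 24608) (nat_lit 3) .nil)))))) (.g (nat_lit 0) .nil .nil)))) (.nd (nat_lit 6) 
(.lf (nat_lit 221883) (.g (nat_lit 2600) (.e (nat_lit 98317) (nat_lit 9) (.e (nat_lit 336009) (nat_lit 2) (.e (nat_lit 90160) (nat_lit 11) (.e (nat_lit 24608) (nat_lit 3) (.e (nat_lit 98313) (nat_lit 9) .nil))))) .nil)) 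
(.lf (nat_lit 221947) (.g (nat_lit 1538) (.e (nat_lit 98317) (nat_lit 9) (.e (nat_lit 336021) (nat_lit 3) (.e (nat_lit 98317) (nat_lit 9) (.e (nat_lit 336009) (nat_lit 2) .nil)))) .nil)))))) (.nd (nat_lit 3) (.nd (nat_lit 4) (.nd (nat_lit 5) (.nd (nat_lit 6) 
(.lf (nat_lit 221831) (.g (nat_lit 2149) (.e (nat_lit 98317) (nat_lit 9) (.e (nat_lit 335986) (nat_lit 1) (.e (nat_lit 57926) (nat_lit 282) (.e (nat_lit 163907) (nat_lit 12) (.e (nat_lit 426555) (nat_lit 32) .nil))))) .nil)) 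
(.lf (nat_lit 221895) (.g (nat_lit 1988) (.e (nat_lit 98317) (nat_lit 9) (.e (nat_lit 336011) (nat_lit 2) (.e (nat_lit 90158) (nat_lit 11) (.e (nat_lit 24604) (nat_lit 2) (.e (nat_lit 90134) (nat_lit 9) .nil))))) .nil))) (.nd (nat_lit 6) 
(.lf (nat_lit 221863) (.g (nat_lit 1196) (.e (nat_lit 98317) (nat_lit 9) (.e (nat_lit 336003) (nat_lit 2) (.e (nat_lit 90160) (nat_lit 11) (.e (nat_lit 24604) (nat_lit 2) .nil)))) .nil)) 
(.lf (nat_lit 221927) (.g (nat_lit 3695) (.e (nat_lit 98317) (nat_lit 9) (.e (nat_lit 336012) (nat_lit 2) (.e (nat_lit 90160) (nat_lit 11) (.e (nat_lit 24604) (nat_lit 2) (.e (nat_lit 90157) (nat_lit 11) (.e (nat_lit 24607) (nat_lit 3) .nil)))))) (.g (nat_lit 0) .nil .nil))))) (.nd (nat_lit 5) (.nd (nat_lit 6) 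
(.lf (nat_lit 221847) (.g (nat_lit 1390) (.e (nat_lit 98317) (nat_lit 9) (.e (nat_lit 335995) (nat_lit 1) (.e (nat_lit 57872) (nat_lit 264) (.e (nat_lit 1190) (nat_lit 88) .nil)))) .nil)) 
(.lf (nat_lit 221911) (.g (nat_lit 3476) (.e (nat_lit 98317) (nat_lit 9) (.e (nat_lit 336012) (nat_lit 2) (.e (nat_lit 90158) (nat_lit 11) (.e (nat_lit 24602) (nat_lit 2) (.e (nat_lit 90158) (nat_lit 11) (.e (nat_lit 24607) (nat_lit 3) .nil)))))) (.g (nat_lit 0) .nil .nil)))) (.nd (nat_lit 6) 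
(.lf (nat_lit 221879) (.g (nat_lit 2058) (.e (nat_lit 98317) (nat_lit 9) (.e (nat_lit 336004) (nat_lit 2) (.e (nat_lit 90160) (nat_lit 11) (.e (nat_lit 24605) (nat_lit 2) (.e (nat_lit 90158) (nat_lit 11) .nil))))) .nil)) 
(.lf (nat_lit 221943) (.g (nat_lit 1726) (.e (nat_lit 98317) (nat_lit 9) (.e (nat_lit 336021) (nat_lit 3) (.e (nat_lit 98317) (nat_lit 9) (.e (nat_lit 336001) (nat_lit 2) .nil)))) .nil))))) (.nd (nat_lit 4) (.nd (nat_lit 5) (.nd (nat_lit 6) 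
(.lf (nat_lit 221839) (.g (nat_lit 1805) (.e (nat_lit 98317) (nat_lit 9) (.e (nat_lit 335988) (nat_lit 1) (.e (nat_lit 57927) (nat_lit 282) (.e (nat_lit 163903) (nat_lit 12) (.e (nat_lit 426556) (nat_lit 32) .nil))))) .nil)) 
(.lf (nat_lit 221903) (.g (nat_lit 1406) (.e (nat_lit 98317) (nat_lit 9) (.e (nat_lit 336011) (nat_lit 2) (.e (nat_lit 90160) (nat_lit 11) (.e (nat_lit 24602) (nat_lit 2) .nil)))) .nil))) (.nd (nat_lit 6) 
(.lf (nat_lit 221871) (.g (nat_lit 3615) (.e (nat_lit 98317) (nat_lit 9) (.e (nat_lit 336004) (nat_lit 2) (.e (nat_lit 90158) (nat_lit 11) (.e (nat_lit 24604) (nat_lit 2) (.e (nat_lit 90157) (nat_lit 11) (.e (nat_lit 24607) (nat_lit 3) .nil)))))) (.g (nat_lit 0) .nil .nil))) 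
(.lf (nat_lit 221935) (.g (nat_lit 1038) (.e (nat_lit 98317) (nat_lit 9) (.e (nat_lit 336021) (nat_lit 3) (.e (nat_lit 98313) (nat_lit 9) (.e (nat_lit 336027) (nat_lit 3) .nil)))) .nil)))) (.nd (nat_lit 5) (.nd (nat_lit 6) 
(.lf (nat_lit 221855) (.g (nat_lit 1416) (.e (nat_lit 98317) (nat_lit 9) (.e (nat_lit 335996) (nat_lit 1) (.e (nat_lit 57929) (nat_lit 282) (.e (nat_lit 163904) (nat_lit 12) .nil)))) .nil)) 
(.lf (nat_lit 221919) (.g (nat_lit 3514) (.e (nat_lit 98317) (nat_lit 9) (.e (nat_lit 336012) (nat_lit 2) (.e (nat_lit 90158) (nat_lit 11) (.e (nat_lit 24609) (nat_lit 3) (.e (nat_lit 98317) (nat_lit 9) (.e (nat_lit 336021) (nat_lit 3) .nil)))))) (.g (nat_lit 0) .nil .nil)))) (.nd (nat_lit 6) 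
(.lf (nat_lit 221887) (.g (nat_lit 2918) (.e (nat_lit 98317) (nat_lit 9) (.e (nat_lit 336010) (nat_lit 2) (.e (nat_lit 90158) (nat_lit 11) (.e (nat_lit 24605) (nat_lit 2) (.e (nat_lit 90158) (nat_lit 11) (.e (nat_lit 24607) (nat_lit 3) .nil)))))) (.g (nat_lit 6) .nil .nil))) 
(.lf (nat_lit 221951) (.g (nat_lit 1137) (.e (nat_lit 98317) (nat_lit 9) (.e (nat_lit 336021) (nat_lit 3) (.e (nat_lit 98317) (nat_lit 9) (.e (nat_lit 336012) (nat_lit 2) .nil)))) .nil)))))))))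

noncomputable def tv2914 : DT := (.nd (nat_lit 0) (.nd (nat_lit 1) (.nd (nat_lit 2) (.nd (nat_lit 3) (.nd (nat_lit 4) (.nd (nat_lit 5) 
(.lf (nat_lit 221952) (.g (nat_lit 2099) (.e (nat_lit 98317) (nat_lit 9) (.e (nat_lit 336021) (nat_lit 3) (.e (nat_lit 98317) (nat_lit 9) (.e (nat_lit 336012) (nat_lit 2) (.e (nat_lit 90133) (nat_lit 9) .nil))))) .nil)) 
(.lf (nat_lit 221984) (.g (nat_lit 1674) (.e (nat_lit 98317) (nat_lit 9) (.e (nat_lit 336027) (nat_lit 3) (.e (nat_lit 98313) (nat_lit 9) (.e (nat_lit 336027) (nat_lit 3) (.e (nat_lit 98316) (nat_lit 9) .nil))))) .nil))) (.nd (nat_lit 5) 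
(.lf (nat_lit 221968) (.g (nat_lit 1920) (.e (nat_lit 98317) (nat_lit 9) (.e (nat_lit 336026) (nat_lit 3) (.e (nat_lit 98317) (nat_lit 9) (.e (nat_lit 336004) (nat_lit 2) (.e (nat_lit 90157) (nat_lit 11) (.e (nat_lit 24607) (nat_lit 3) .nil)))))) (.g (nat_lit 4) .nil .nil))) 
(.lf (nat_lit 222000) (.g (nat_lit 649) (.e (nat_lit 98317) (nat_lit 9) (.e (nat_lit 336027) (nat_lit 3) (.e (nat_lit 98321) (nat_lit 17) .nil))) .nil)))) (.nd (nat_lit 4) (.nd (nat_lit 5) 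
(.lf (nat_lit 221960) (.g (nat_lit 984) (.e (nat_lit 98317) (nat_lit 9) (.e (nat_lit 336025) (nat_lit 3) (.e (nat_lit 98313) (nat_lit 9) (.e (nat_lit 336025) (nat_lit 3) .nil)))) .nil)) 
(.lf (nat_lit 221992) (.g (nat_lit 2850) (.e (nat_lit 98317) (nat_lit 9) (.e (nat_lit 336027) (nat_lit 3) (.e (nat_lit 98317) (nat_lit 9) (.e (nat_lit 336009) (nat_lit 2) (.e (nat_lit 90160) (nat_lit 11) (.e (nat_lit 24607) (nat_lit 3) .nil)))))) (.g (nat_lit 5) .nil .nil)))) (.nd (nat_lit 5) 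
(.lf (nat_lit 221976) (.g (nat_lit 2685) (.e (nat_lit 98317) (nat_lit 9) (.e (nat_lit 336026) (nat_lit 3) (.e (nat_lit 98317) (nat_lit 9) (.e (nat_lit 336027) (nat_lit 3) (.e (nat_lit 98313) (nat_lit 9) (.e (nat_lit 336027) (nat_lit 3) .nil)))))) (.g (nat_lit 0) .nil .nil))) 
(.lf (nat_lit 222008) (.g (nat_lit 1203) (.e (nat_lit 98317) (nat_lit 9) (.e (nat_lit 336027) (nat_lit 3) (.e (nat_lit 98342) (nat_lit 20) (.e (nat_lit 221215) (nat_lit 23) .nil)))) .nil))))) (.nd (nat_lit 3) (.nd (nat_lit 4) (.nd (nat_lit 5) 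
(.lf (nat_lit 221956) (.g (nat_lit 1755) (.e (nat_lit 98317) (nat_lit 9) (.e (nat_lit 336021) (nat_lit 3) (.e (nat_lit 98317) (nat_lit 9) (.e (nat_lit 343808) (nat_lit 3) .nil)))) .nil)) 
(.lf (nat_lit 221988) (.g (nat_lit 1606) (.e (nat_lit 98317) (nat_lit 9) (.e (nat_lit 336027) (nat_lit 3) (.e (nat_lit 98317) (nat_lit 9) (.e (nat_lit 336002) (nat_lit 2) (.e (nat_lit 90157) (nat_lit 11) .nil))))) .nil))) (.nd (nat_lit 5) 
(.lf (nat_lit 221972) (.g (nat_lit 2842) (.e (nat_lit 98317) (nat_lit 9) (.e (nat_lit 336026) (nat_lit 3) (.e (nat_lit 98317) (nat_lit 9) (.e (nat_lit 336011) (nat_lit 2) (.e (nat_lit 90157) (nat_lit 11) (.e (nat_lit 24607) (nat_lit 3) .nil)))))) (.g (nat_lit 6) .nil .nil))) 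
(.lf (nat_lit 222004) (.g (nat_lit 2482) (.e (nat_lit 98317) (nat_lit 9) (.e (nat_lit 336027) (nat_lit 3) (.e (nat_lit 98342) (nat_lit 20) (.e (nat_lit 221210) (nat_lit 22) (.e (nat_lit 196660) (nat_lit 12) (.e (nat_lit 57354) (nat_lit 0) (.e (nat_lit 5195) (nat_lit 294) (.e (nat_lit 57379) (nat_lit 3) .nil)))))))) (.g (nat_lit 4) .nil .nil))))) (.nd (nat_lit 4) (.nd (nat_lit 5) 
(.lf (nat_lit 221964) (.g (nat_lit 2740) (.e (nat_lit 98317) (nat_lit 9) (.e (nat_lit 336026) (nat_lit 3) (.e (nat_lit 98313) (nat_lit 9) (.e (nat_lit 336012) (nat_lit 2) (.e (nat_lit 90158) (nat_lit 11) (.e (nat_lit 24607) (nat_lit 3) .nil)))))) (.g (nat_lit 5) .nil .nil))) 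
(.lf (nat_lit 221996) (.g (nat_lit 3553) (.e (nat_lit 98317) (nat_lit 9) (.e (nat_lit 336027) (nat_lit 3) (.e (nat_lit 98317) (nat_lit 9) (.e (nat_lit 336012) (nat_lit 2) (.e (nat_lit 90158) (nat_lit 11) (.e (nat_lit 24608) (nat_lit 3) .nil)))))) (.g (nat_lit 0) .nil .nil)))) (.nd (nat_lit 5) 
(.lf (nat_lit 221980) (.g (nat_lit 3530) (.e (nat_lit 98317) (nat_lit 9) (.e (nat_lit 336027) (nat_lit 3) (.e (nat_lit 98312) (nat_lit 9) (.e (nat_lit 336004) (nat_lit 2) (.e (nat_lit 90158) (nat_lit 11) (.e (nat_lit 24608) (nat_lit 3) .nil)))))) (.g (nat_lit 0) .nil .nil))) 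
(.lf (nat_lit 222012) (.g (nat_lit 3221) (.e (nat_lit 98317) (nat_lit 9) (.e (nat_lit 336076) (nat_lit 9) (.e (nat_lit 336019) (nat_lit 3) (.e (nat_lit 98355) (nat_lit 26) (.e (nat_lit 426446) (nat_lit 20) (.e (nat_lit 114718) (nat_lit 23) .nil)))))) (.g (nat_lit 6) .nil .nil))))))) (.nd (nat_lit 2) (.nd (nat_lit 3) (.nd (nat_lit 4) (.nd (nat_lit 5) 
(.lf (nat_lit 221954) (.g (nat_lit 1681) (.e (nat_lit 98317) (nat_lit 9) (.e (nat_lit 336021) (nat_lit 3) (.e (nat_lit 98317) (nat_lit 9) (.e (nat_lit 336027) (nat_lit 3) (.e (nat_lit 98312) (nat_lit 9) .nil))))) .nil)) 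
(.lf (nat_lit 221986) (.g (nat_lit 2776) (.e (nat_lit 98317) (nat_lit 9) (.e (nat_lit 336027) (nat_lit 3) (.e (nat_lit 98316) (nat_lit 9) (.e (nat_lit 336004) (nat_lit 2) (.e (nat_lit 90158) (nat_lit 11) (.e (nat_lit 24608) (nat_lit 3) .nil)))))) (.g (nat_lit 5) .nil .nil)))) (.nd (nat_lit 5) 
(.lf (nat_lit 221970) (.g (nat_lit 2571) (.e (nat_lit 98317) (nat_lit 9) (.e (nat_lit 336026) (nat_lit 3) (.e (nat_lit 98317) (nat_lit 9) (.e (nat_lit 336010) (nat_lit 2) (.e (nat_lit 90158) (nat_lit 11) (.e (nat_lit 24608) (nat_lit 3) .nil)))))) (.g (nat_lit 0) .nil .nil))) 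
(.lf (nat_lit 222002) (.g (nat_lit 3136) (.e (nat_lit 98317) (nat_lit 9) (.e (nat_lit 336027) (nat_lit 3) (.e (nat_lit 98341) (nat_lit 20) (.e (nat_lit 221214) (nat_lit 23) (.e (nat_lit 204830) (nat_lit 18) (.e (nat_lit 57852) (nat_lit 252) (.e (nat_lit 57378) (nat_lit 3) .nil))))))) (.g (nat_lit 5) .nil .nil))))) (.nd (nat_lit 4) (.nd (nat_lit 5) 
(.lf (nat_lit 221962) (.g (nat_lit 1478) (.e (nat_lit 98317) (nat_lit 9) (.e (nat_lit 336025) (nat_lit 3) (.e (nat_lit 98317) (nat_lit 9) (.e (nat_lit 336004) (nat_lit 2) (.e (nat_lit 90160) (nat_lit 11) .nil))))) .nil)) 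
(.lf (nat_lit 221994) (.g (nat_lit 2527) (.e (nat_lit 98317) (nat_lit 9) (.e (nat_lit 336027) (nat_lit 3) (.e (nat_lit 98317) (nat_lit 9) (.e (nat_lit 336010) (nat_lit 2) (.e (nat_lit 90158) (nat_lit 11) (.e (nat_lit 24609) (nat_lit 3) .nil)))))) (.g (nat_lit 6) .nil .nil)))) (.nd (nat_lit 5) 
(.lf (nat_lit 221978) (.g (nat_lit 2740) (.e (nat_lit 98317) (nat_lit 9) (.e (nat_lit 336027) (nat_lit 3) (.e (nat_lit 98312) (nat_lit 9) (.e (nat_lit 336002) (nat_lit 2) (.e (nat_lit 90158) (nat_lit 11) (.e (nat_lit 24608) (nat_lit 3) .nil)))))) (.g (nat_lit 0) .nil .nil))) 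
(.lf (nat_lit 222010) (.g (nat_lit 1795) (.e (nat_lit 98317) (nat_lit 9) (.e (nat_lit 336073) (nat_lit 9) (.e (nat_lit 336028) (nat_lit 3) (.e (nat_lit 98359) (nat_lit 26) (.e (nat_lit 433920) (nat_lit 20) (.e (nat_lit 114718) (nat_lit 23) .nil)))))) (.g (nat_lit 4) .nil .nil)))))) (.nd (nat_lit 3) (.nd (nat_lit 4) (.nd (nat_lit 5) 
(.lf (nat_lit 221958) (.g (nat_lit 3385) (.e (nat_lit 98317) (nat_lit 9) (.e (nat_lit 336025) (nat_lit 3) (.e (nat_lit 98313) (nat_lit 9) (.e (nat_lit 336004) (nat_lit 2) (.e (nat_lit 90158) (nat_lit 11) (.e (nat_lit 24608) (nat_lit 3) .nil)))))) (.g (nat_lit 0) .nil .nil))) 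
(.lf (nat_lit 221990) (.g (nat_lit 3418) (.e (nat_lit 98317) (nat_lit 9) (.e (nat_lit 336027) (nat_lit 3) (.e (nat_lit 98317) (nat_lit 9) (.e (nat_lit 336004) (nat_lit 2) (.e (nat_lit 90158) (nat_lit 11) (.e (nat_lit 24608) (nat_lit 3) .nil)))))) (.g (nat_lit 0) .nil .nil)))) (.nd (nat_lit 5) 
(.lf (nat_lit 221974) (.g (nat_lit 2898) (.e (nat_lit 98317) (nat_lit 9) (.e (nat_lit 336026) (nat_lit 3) (.e (nat_lit 98317) (nat_lit 9) (.e (nat_lit 336012) (nat_lit 2) (.e (nat_lit 90158) (nat_lit 11) (.e (nat_lit 24609) (nat_lit 3) .nil)))))) (.g (nat_lit 0) .nil .nil))) 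
(.lf (nat_lit 222006) (.g (nat_lit 2044) (.e (nat_lit 98317) (nat_lit 9) (.e (nat_lit 336027) (nat_lit 3) (.e (nat_lit 98342) (nat_lit 20) (.e (nat_lit 221212) (nat_lit 22) (.e (nat_lit 196659) (nat_lit 12) .nil))))) .nil)))) (.nd (nat_lit 4) (.nd (nat_lit 5) 
(.lf (nat_lit 221966) (.g (nat_lit 2737) (.e (nat_lit 98317) (nat_lit 9) (.e (nat_lit 336026) (nat_lit 3) (.e (nat_lit 98317) (nat_lit 9) (.e (nat_lit 336002) (nat_lit 2) (.e (nat_lit 90158) (nat_lit 11) (.e (nat_lit 24608) (nat_lit 3) .nil)))))) (.g (nat_lit 0) .nil .nil))) 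
(.lf (nat_lit 221998) (.g (nat_lit 1691) (.e (nat_lit 98317) (nat_lit 9) (.e (nat_lit 336027) (nat_lit 3) (.e (nat_lit 98317) (nat_lit 9) (.e (nat_lit 336027) (nat_lit 3) (.e (nat_lit 98316) (nat_lit 9) .nil))))) .nil))) (.nd (nat_lit 5) 
(.lf (nat_lit 221982) (.g (nat_lit 3335) (.e (nat_lit 98317) (nat_lit 9) (.e (nat_lit 336027) (nat_lit 3) (.e (nat_lit 98313) (nat_lit 9) (.e (nat_lit 336004) (nat_lit 2) (.e (nat_lit 90158) (nat_lit 11) (.e (nat_lit 24608) (nat_lit 3) .nil)))))) (.g (nat_lit 0) .nil .nil))) 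
(.lf (nat_lit 222014) (.g (nat_lit 3516) (.e (nat_lit 98317) (nat_lit 9) (.e (nat_lit 336076) (nat_lit 9) (.e (nat_lit 336019) (nat_lit 3) (.e (nat_lit 98356) (nat_lit 26) (.e (nat_lit 426446) (nat_lit 20) (.e (nat_lit 114718) (nat_lit 23) .nil)))))) (.g (nat_lit 6) .nil .nil)))))))) (.nd (nat_lit 1) (.nd (nat_lit 2) (.nd (nat_lit 3) (.nd (nat_lit 4) (.nd (nat_lit 5) 
(.lf (nat_lit 221953) (.g (nat_lit 2723) (.e (nat_lit 98317) (nat_lit 9) (.e (nat_lit 336021) (nat_lit 3) (.e (nat_lit 98317) (nat_lit 9) (.e (nat_lit 336021) (nat_lit 3) (.e (nat_lit 98317) (nat_lit 9) (.e (nat_lit 336025) (nat_lit 3) .nil)))))) (.g (nat_lit 4) .nil .nil))) 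
(.lf (nat_lit 221985) (.g (nat_lit 2985) (.e (nat_lit 98317) (nat_lit 9) (.e (nat_lit 336027) (nat_lit 3) (.e (nat_lit 98316) (nat_lit 9) (.e (nat_lit 336004) (nat_lit 2) (.e (nat_lit 90158) (nat_lit 11) (.e (nat_lit 24607) (nat_lit 3) .nil)))))) (.g (nat_lit 5) .nil .nil)))) (.nd (nat_lit 5) 
(.lf (nat_lit 221969) (.g (nat_lit 3075) (.e (nat_lit 98317) (nat_lit 9) (.e (nat_lit 336026) (nat_lit 3) (.e (nat_lit 98317) (nat_lit 9) (.e (nat_lit 336004) (nat_lit 2) (.e (nat_lit 90158) (nat_lit 11) (.e (nat_lit 24608) (nat_lit 3) .nil)))))) (.g (nat_lit 0) .nil .nil))) 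
(.lf (nat_lit 222001) (.g (nat_lit 2950) (.e (nat_lit 98317) (nat_lit 9) (.e (nat_lit 336027) (nat_lit 3) (.e (nat_lit 98341) (nat_lit 20) (.e (nat_lit 221214) (nat_lit 23) (.e (nat_lit 204829) (nat_lit 18) (.e (nat_lit 57849) (nat_lit 252) (.e (nat_lit 57379) (nat_lit 3) .nil))))))) (.g (nat_lit 5) .nil .nil))))) (.nd (nat_lit 4) (.nd (nat_lit 5) 
(.lf (nat_lit 221961) (.g (nat_lit 1867) (.e (nat_lit 98317) (nat_lit 9) (.e (nat_lit 336025) (nat_lit 3) (.e (nat_lit 98317) (nat_lit 9) (.e (nat_lit 336004) (nat_lit 2) (.e (nat_lit 90158) (nat_lit 11) .nil))))) .nil)) 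
(.lf (nat_lit 221993) (.g (nat_lit 2912) (.e (nat_lit 98317) (nat_lit 9) (.e (nat_lit 336027) (nat_lit 3) (.e (nat_lit 98317) (nat_lit 9) (.e (nat_lit 336010) (nat_lit 2) (.e (nat_lit 90158) (nat_lit 11) (.e (nat_lit 24608) (nat_lit 3) .nil)))))) (.g (nat_lit 0) .nil .nil)))) (.nd (nat_lit 5) 
(.lf (nat_lit 221977) (.g (nat_lit 1417) (.e (nat_lit 98317) (nat_lit 9) (.e (nat_lit 336026) (nat_lit 3) (.e (nat_lit 98317) (nat_lit 9) (.e (nat_lit 336027) (nat_lit 3) (.e (nat_lit 98316) (nat_lit 9) .nil))))) .nil)) 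
(.lf (nat_lit 222009) (.g (nat_lit 1869) (.e (nat_lit 98317) (nat_lit 9) (.e (nat_lit 336027) (nat_lit 3) (.e (nat_lit 98342) (nat_lit 20) (.e (nat_lit 221215) (nat_lit 23) (.e (nat_lit 204829) (nat_lit 18) .nil))))) .nil))))) (.nd (nat_lit 3) (.nd (nat_lit 4) (.nd (nat_lit 5) 
(.lf (nat_lit 221957) (.g (nat_lit 2084) (.e (nat_lit 98317) (nat_lit 9) (.e (nat_lit 336021) (nat_lit 3) (.e (nat_lit 98342) (nat_lit 20) (.e (nat_lit 221215) (nat_lit 23) (.e (nat_lit 204828) (nat_lit 18) .nil))))) .nil)) 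
(.lf (nat_lit 221989) (.g (nat_lit 2231) (.e (nat_lit 98317) (nat_lit 9) (.e (nat_lit 336027) (nat_lit 3) (.e (nat_lit 98317) (nat_lit 9) (.e (nat_lit 336004) (nat_lit 2) (.e (nat_lit 90157) (nat_lit 11) (.e (nat_lit 24607) (nat_lit 3) .nil)))))) (.g (nat_lit 4) .nil .nil)))) (.nd (nat_lit 5) 
(.lf (nat_lit 221973) (.g (nat_lit 3214) (.e (nat_lit 98317) (nat_lit 9) (.e (nat_lit 336026) (nat_lit 3) (.e (nat_lit 98317) (nat_lit 9) (.e (nat_lit 336012) (nat_lit 2) (.e (nat_lit 90158) (nat_lit 11) (.e (nat_lit 24608) (nat_lit 3) .nil)))))) (.g (nat_lit 0) .nil .nil))) 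
(.lf (nat_lit 222005) (.g (nat_lit 1803) (.e (nat_lit 98317) (nat_lit 9) (.e (nat_lit 336027) (nat_lit 3) (.e (nat_lit 98342) (nat_lit 20) (.e (nat_lit 221212) (nat_lit 22) (.e (nat_lit 196624) (nat_lit 9) .nil))))) .nil)))) (.nd (nat_lit 4) (.nd (nat_lit 5) 
(.lf (nat_lit 221965) (.g (nat_lit 2181) (.e (nat_lit 98317) (nat_lit 9) (.e (nat_lit 336026) (nat_lit 3) (.e (nat_lit 98313) (nat_lit 9) (.e (nat_lit 336012) (nat_lit 2) (.e (nat_lit 90158) (nat_lit 11) (.e (nat_lit 24609) (nat_lit 3) .nil)))))) (.g (nat_lit 5) .nil .nil))) 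
(.lf (nat_lit 221997) (.g (nat_lit 3368) (.e (nat_lit 98317) (nat_lit 9) (.e (nat_lit 336027) (nat_lit 3) (.e (nat_lit 98317) (nat_lit 9) (.e (nat_lit 336012) (nat_lit 2) (.e (nat_lit 90160) (nat_lit 11) (.e (nat_lit 24607) (nat_lit 3) .nil)))))) (.g (nat_lit 0) .nil .nil)))) (.nd (nat_lit 5) 
(.lf (nat_lit 221981) (.g (nat_lit 3633) (.e (nat_lit 98317) (nat_lit 9) (.e (nat_lit 336027) (nat_lit 3) (.e (nat_lit 98312) (nat_lit 9) (.e (nat_lit 336012) (nat_lit 2) (.e (nat_lit 90158) (nat_lit 11) (.e (nat_lit 24607) (nat_lit 3) .nil)))))) (.g (nat_lit 6) .nil .nil))) 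
(.lf (nat_lit 222013) (.g (nat_lit 3085) (.e (nat_lit 98317) (nat_lit 9) (.e (nat_lit 336076) (nat_lit 9) (.e (nat_lit 336019) (nat_lit 3) (.e (nat_lit 98355) (nat_lit 26) (.e (nat_lit 426448) (nat_lit 20) (.e (nat_lit 114718) (nat_lit 23) .nil)))))) (.g (nat_lit 5) .nil .nil))))))) (.nd (nat_lit 2) (.nd (nat_lit 3) (.nd (nat_lit 4) (.nd (nat_lit 5) 
(.lf (nat_lit 221955) (.g (nat_lit 1968) (.e (nat_lit 98317) (nat_lit 9) (.e (nat_lit 336021) (nat_lit 3) (.e (nat_lit 98317) (nat_lit 9) (.e (nat_lit 336027) (nat_lit 3) (.e (nat_lit 98316) (nat_lit 9) .nil))))) .nil)) 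
(.lf (nat_lit 221987) (.g (nat_lit 401) (.e (nat_lit 98317) (nat_lit 9) (.e (nat_lit 336027) (nat_lit 3) (.e (nat_lit 98317) (nat_lit 9) .nil))) .nil))) (.nd (nat_lit 5) 
(.lf (nat_lit 221971) (.g (nat_lit 2215) (.e (nat_lit 98317) (nat_lit 9) (.e (nat_lit 336026) (nat_lit 3) (.e (nat_lit 98317) (nat_lit 9) (.e (nat_lit 336010) (nat_lit 2) (.e (nat_lit 90158) (nat_lit 11) (.e (nat_lit 24609) (nat_lit 3) .nil)))))) (.g (nat_lit 6) .nil .nil))) 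
(.lf (nat_lit 222003) (.g (nat_lit 570) (.e (nat_lit 98317) (nat_lit 9) (.e (nat_lit 336027) (nat_lit 3) (.e (nat_lit 98342) (nat_lit 20) .nil))) .nil)))) (.nd (nat_lit 4) (.nd (nat_lit 5) 
(.lf (nat_lit 221963) (.g (nat_lit 2142) (.e (nat_lit 98317) (nat_lit 9) (.e (nat_lit 336026) (nat_lit 3) (.e (nat_lit 98313) (nat_lit 9) (.e (nat_lit 336004) (nat_lit 2) (.e (nat_lit 90158) (nat_lit 11) (.e (nat_lit 24609) (nat_lit 3) .nil)))))) (.g (nat_lit 5) .nil .nil))) 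
(.lf (nat_lit 221995) (.g (nat_lit 1405) (.e (nat_lit 98317) (nat_lit 9) (.e (nat_lit 336027) (nat_lit 3) (.e (nat_lit 98317) (nat_lit 9) (.e (nat_lit 336011) (nat_lit 2) (.e (nat_lit 90158) (nat_lit 11) .nil))))) .nil))) (.nd (nat_lit 5) 
(.lf (nat_lit 221979) (.g (nat_lit 1828) (.e (nat_lit 98317) (nat_lit 9) (.e (nat_lit 336027) (nat_lit 3) (.e (nat_lit 98312) (nat_lit 9) (.e (nat_lit 336004) (nat_lit 2) (.e (nat_lit 90157) (nat_lit 11) (.e (nat_lit 24607) (nat_lit 3) .nil)))))) (.g (nat_lit 4) .nil .nil))) 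
(.lf (nat_lit 222011) (.g (nat_lit 2003) (.e (nat_lit 98317) (nat_lit 9) (.e (nat_lit 336076) (nat_lit 9) (.e (nat_lit 336019) (nat_lit 3) (.e (nat_lit 98354) (nat_lit 26) (.e (nat_lit 433920) (nat_lit 20) .nil))))) .nil))))) (.nd (nat_lit 3) (.nd (nat_lit 4) (.nd (nat_lit 5) 
(.lf (nat_lit 221959) (.g (nat_lit 3550) (.e (nat_lit 98317) (nat_lit 9) (.e (nat_lit 336025) (nat_lit 3) (.e (nat_lit 98313) (nat_lit 9) (.e (nat_lit 336012) (nat_lit 2) (.e (nat_lit 90158) (nat_lit 11) (.e (nat_lit 24608) (nat_lit 3) .nil)))))) (.g (nat_lit 0) .nil .nil))) 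
(.lf (nat_lit 221991) (.g (nat_lit 1215) (.e (nat_lit 98317) (nat_lit 9) (.e (nat_lit 336027) (nat_lit 3) (.e (nat_lit 98317) (nat_lit 9) (.e (nat_lit 336009) (nat_lit 2) .nil)))) .nil))) (.nd (nat_lit 5) 
(.lf (nat_lit 221975) (.g (nat_lit 2956) (.e (nat_lit 98317) (nat_lit 9) (.e (nat_lit 336026) (nat_lit 3) (.e (nat_lit 98317) (nat_lit 9) (.e (nat_lit 336021) (nat_lit 3) (.e (nat_lit 98313) (nat_lit 9) (.e (nat_lit 336027) (nat_lit 3) .nil)))))) (.g (nat_lit 0) .nil .nil))) 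
(.lf (nat_lit 222007) (.g (nat_lit 2443) (.e (nat_lit 98317) (nat_lit 9) (.e (nat_lit 336027) (nat_lit 3) (.e (nat_lit 98342) (nat_lit 20) (.e (nat_lit 221214) (nat_lit 23) (.e (nat_lit 204828) (nat_lit 18) (.e (nat_lit 57849) (nat_lit 252) (.e (nat_lit 57379) (nat_lit 3) .nil))))))) (.g (nat_lit 4) .nil .nil))))) (.nd (nat_lit 4) (.nd (nat_lit 5) 
(.lf (nat_lit 221967) (.g (nat_lit 918) (.e (nat_lit 98317) (nat_lit 9) (.e (nat_lit 336026) (nat_lit 3) (.e (nat_lit 98317) (nat_lit 9) (.e (nat_lit 336003) (nat_lit 2) .nil)))) .nil)) 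
(.lf (nat_lit 221999) (.g (nat_lit 2973) (.e (nat_lit 98317) (nat_lit 9) (.e (nat_lit 336027) (nat_lit 3) (.e (nat_lit 98317) (nat_lit 9) (.e (nat_lit 336027) (nat_lit 3) (.e (nat_lit 98317) (nat_lit 9) (.e (nat_lit 336027) (nat_lit 3) .nil)))))) (.g (nat_lit 0) .nil .nil)))) (.nd (nat_lit 5) 
(.lf (nat_lit 221983) (.g (nat_lit 3439) (.e (nat_lit 98317) (nat_lit 9) (.e (nat_lit 336027) (nat_lit 3) (.e (nat_lit 98313) (nat_lit 9) (.e (nat_lit 336012) (nat_lit 2) (.e (nat_lit 90158) (nat_lit 11) (.e (nat_lit 24608) (nat_lit 3) .nil)))))) (.g (nat_lit 0) .nil .nil))) 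
(.lf (nat_lit 222015) (.g (nat_lit 3668) (.e (nat_lit 98317) (nat_lit 9) (.e (nat_lit 336076) (nat_lit 9) (.e (nat_lit 336019) (nat_lit 3) (.e (nat_lit 98356) (nat_lit 26) (.e (nat_lit 426446) (nat_lit 20) (.e (nat_lit 114719) (nat_lit 23) .nil)))))) (.g (nat_lit 0) .nil .nil)))))))))

noncomputable def tv2915 : DT := (.nd (nat_lit 0) (.nd (nat_lit 1) (.nd (nat_lit 2) (.nd (nat_lit 3) (.nd (nat_lit 4) (.nd (nat_lit 5) 
(.lf (nat_lit 222016) (.g (nat_lit 4272) (.e (nat_lit 98317) (nat_lit 9) (.e (nat_lit 336076) (nat_lit 9) (.e (nat_lit 336019) (nat_lit 3) (.e (nat_lit 98356) (nat_lit 26) (.e (nat_lit 426448) (nat_lit 20) (.e (nat_lit 114718) (nat_lit 23) .nil)))))) (.g (nat_lit 0) .nil .nil))) 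
(.lf (nat_lit 222048) (.g (nat_lit 2909) (.e (nat_lit 98317) (nat_lit 9) (.e (nat_lit 336078) (nat_lit 9) (.e (nat_lit 336372) (nat_lit 27) (.e (nat_lit 426525) (nat_lit 27) (.e (nat_lit 335995) (nat_lit 1) (.e (nat_lit 57848) (nat_lit 252) (.e (nat_lit 57377) (nat_lit 3) .nil))))))) (.g (nat_lit 6) .nil .nil)))) (.nd (nat_lit 5) 
(.lf (nat_lit 222032) (.g (nat_lit 3663) (.e (nat_lit 98317) (nat_lit 9) (.e (nat_lit 336076) (nat_lit 9) (.e (nat_lit 336456) (nat_lit 34) (.e (nat_lit 483363) (nat_lit 18) (.e (nat_lit 57854) (nat_lit 252) (.e (nat_lit 57378) (nat_lit 3) .nil)))))) (.g (nat_lit 6) .nil .nil))) 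
(.lf (nat_lit 222064) (.g (nat_lit 2080) (.e (nat_lit 98317) (nat_lit 9) (.e (nat_lit 336085) (nat_lit 9) (.e (nat_lit 336019) (nat_lit 3) (.e (nat_lit 98356) (nat_lit 26) (.e (nat_lit 426449) (nat_lit 20) (.e (nat_lit 114718) (nat_lit 23) .nil)))))) (.g (nat_lit 4) .nil .nil))))) (.nd (nat_lit 4) (.nd (nat_lit 5) 
(.lf (nat_lit 222024) (.g (nat_lit 2469) (.e (nat_lit 98317) (nat_lit 9) (.e (nat_lit 336076) (nat_lit 9) (.e (nat_lit 336019) (nat_lit 3) (.e (nat_lit 98358) (nat_lit 26) (.e (nat_lit 426449) (nat_lit 20) (.e (nat_lit 114718) (nat_lit 23) .nil)))))) (.g (nat_lit 4) .nil .nil))) 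
(.lf (nat_lit 222056) (.g (nat_lit 1745) (.e (nat_lit 98317) (nat_lit 9) (.e (nat_lit 336078) (nat_lit 9) (.e (nat_lit 336454) (nat_lit 34) (.e (nat_lit 483344) (nat_lit 17) .nil)))) .nil))) (.nd (nat_lit 5) 
(.lf (nat_lit 222040) (.g (nat_lit 2262) (.e (nat_lit 98317) (nat_lit 9) (.e (nat_lit 336078) (nat_lit 9) (.e (nat_lit 336019) (nat_lit 3) (.e (nat_lit 98358) (nat_lit 26) (.e (nat_lit 426446) (nat_lit 20) (.e (nat_lit 114718) (nat_lit 23) .nil)))))) (.g (nat_lit 4) .nil .nil))) 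
(.lf (nat_lit 222072) (.g (nat_lit 1753) (.e (nat_lit 98317) (nat_lit 9) (.e (nat_lit 336085) (nat_lit 9) (.e (nat_lit 336456) (nat_lit 34) (.e (nat_lit 483363) (nat_lit 18) (.e (nat_lit 57847) (nat_lit 252) .nil))))) .nil))))) (.nd (nat_lit 3) (.nd (nat_lit 4) (.nd (nat_lit 5) 
(.lf (nat_lit 222020) (.g (nat_lit 3230) (.e (nat_lit 98317) (nat_lit 9) (.e (nat_lit 336076) (nat_lit 9) (.e (nat_lit 336019) (nat_lit 3) (.e (nat_lit 98357) (nat_lit 26) (.e (nat_lit 426446) (nat_lit 20) (.e (nat_lit 114719) (nat_lit 23) .nil)))))) (.g (nat_lit 0) .nil .nil))) 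
(.lf (nat_lit 222052) (.g (nat_lit 2059) (.e (nat_lit 98317) (nat_lit 9) (.e (nat_lit 336078) (nat_lit 9) (.e (nat_lit 336416) (nat_lit 27) (.e (nat_lit 426500) (nat_lit 27) (.e (nat_lit 335995) (nat_lit 1) (.e (nat_lit 57848) (nat_lit 252) (.e (nat_lit 57377) (nat_lit 3) .nil))))))) (.g (nat_lit 5) .nil .nil)))) (.nd (nat_lit 5) 
(.lf (nat_lit 222036) (.g (nat_lit 2075) (.e (nat_lit 98317) (nat_lit 9) (.e (nat_lit 336078) (nat_lit 9) (.e (nat_lit 336019) (nat_lit 3) (.e (nat_lit 98356) (nat_lit 26) (.e (nat_lit 426446) (nat_lit 20) .nil))))) .nil)) 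
(.lf (nat_lit 222068) (.g (nat_lit 1860) (.e (nat_lit 98317) (nat_lit 9) (.e (nat_lit 336085) (nat_lit 9) (.e (nat_lit 336019) (nat_lit 3) (.e (nat_lit 98358) (nat_lit 26) (.e (nat_lit 433920) (nat_lit 20) .nil))))) .nil)))) (.nd (nat_lit 4) (.nd (nat_lit 5) 
(.lf (nat_lit 222028) (.g (nat_lit 4347) (.e (nat_lit 98317) (nat_lit 9) (.e (nat_lit 336076) (nat_lit 9) (.e (nat_lit 336324) (nat_lit 18) (.e (nat_lit 204831) (nat_lit 18) (.e (nat_lit 65280) (nat_lit 211) .nil))))) .nil)) 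
(.lf (nat_lit 222060) (.g (nat_lit 2960) (.e (nat_lit 98317) (nat_lit 9) (.e (nat_lit 336078) (nat_lit 9) (.e (nat_lit 336454) (nat_lit 34) (.e (nat_lit 483366) (nat_lit 18) (.e (nat_lit 57848) (nat_lit 252) (.e (nat_lit 57377) (nat_lit 3) .nil)))))) (.g (nat_lit 6) .nil .nil)))) (.nd (nat_lit 5) 
(.lf (nat_lit 222044) (.g (nat_lit 1330) (.e (nat_lit 98317) (nat_lit 9) (.e (nat_lit 336078) (nat_lit 9) (.e (nat_lit 336019) (nat_lit 3) (.e (nat_lit 98384) (nat_lit 32) .nil)))) .nil)) 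
(.lf (nat_lit 222076) (.g (nat_lit 2801) (.e (nat_lit 98317) (nat_lit 9) (.e (nat_lit 336086) (nat_lit 9) (.e (nat_lit 336019) (nat_lit 3) (.e (nat_lit 98356) (nat_lit 26) (.e (nat_lit 426446) (nat_lit 20) (.e (nat_lit 114718) (nat_lit 23) .nil)))))) (.g (nat_lit 5) .nil .nil))))))) (.nd (nat_lit 2) (.nd (nat_lit 3) (.nd (nat_lit 4) (.nd (nat_lit 5) 
(.lf (nat_lit 222018) (.g (nat_lit 2682) (.e (nat_lit 98317) (nat_lit 9) (.e (nat_lit 336076) (nat_lit 9) (.e (nat_lit 336019) (nat_lit 3) (.e (nat_lit 98356) (nat_lit 26) (.e (nat_lit 426449) (nat_lit 20) (.e (nat_lit 114718) (nat_lit 23) .nil)))))) (.g (nat_lit 4) .nil .nil))) 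
(.lf (nat_lit 222050) (.g (nat_lit 2395) (.e (nat_lit 98317) (nat_lit 9) (.e (nat_lit 336078) (nat_lit 9) (.e (nat_lit 336379) (nat_lit 27) (.e (nat_lit 426525) (nat_lit 27) (.e (nat_lit 335995) (nat_lit 1) (.e (nat_lit 57848) (nat_lit 252) (.e (nat_lit 57377) (nat_lit 3) .nil))))))) (.g (nat_lit 5) .nil .nil)))) (.nd (nat_lit 5) 
(.lf (nat_lit 222034) (.g (nat_lit 2053) (.e (nat_lit 98317) (nat_lit 9) (.e (nat_lit 336078) (nat_lit 9) (.e (nat_lit 336019) (nat_lit 3) (.e (nat_lit 98355) (nat_lit 26) (.e (nat_lit 426446) (nat_lit 20) (.e (nat_lit 114718) (nat_lit 23) .nil)))))) (.g (nat_lit 4) .nil .nil))) 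
(.lf (nat_lit 222066) (.g (nat_lit 2249) (.e (nat_lit 98317) (nat_lit 9) (.e (nat_lit 336085) (nat_lit 9) (.e (nat_lit 336019) (nat_lit 3) (.e (nat_lit 98356) (nat_lit 26) (.e (nat_lit 433920) (nat_lit 20) (.e (nat_lit 114719) (nat_lit 23) .nil)))))) (.g (nat_lit 4) .nil .nil))))) (.nd (nat_lit 4) (.nd (nat_lit 5) 
(.lf (nat_lit 222026) (.g (nat_lit 2345) (.e (nat_lit 98317) (nat_lit 9) (.e (nat_lit 336076) (nat_lit 9) (.e (nat_lit 336019) (nat_lit 3) (.e (nat_lit 98358) (nat_lit 26) (.e (nat_lit 433920) (nat_lit 20) .nil))))) .nil)) 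
(.lf (nat_lit 222058) (.g (nat_lit 2628) (.e (nat_lit 98317) (nat_lit 9) (.e (nat_lit 336078) (nat_lit 9) (.e (nat_lit 336454) (nat_lit 34) (.e (nat_lit 483363) (nat_lit 18) (.e (nat_lit 57846) (nat_lit 252) .nil))))) .nil))) (.nd (nat_lit 5) 
(.lf (nat_lit 222042) (.g (nat_lit 2714) (.e (nat_lit 98317) (nat_lit 9) (.e (nat_lit 336078) (nat_lit 9) (.e (nat_lit 336019) (nat_lit 3) (.e (nat_lit 98358) (nat_lit 26) (.e (nat_lit 426448) (nat_lit 20) (.e (nat_lit 114718) (nat_lit 23) .nil)))))) (.g (nat_lit 5) .nil .nil))) 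
(.lf (nat_lit 222074) (.g (nat_lit 826) (.e (nat_lit 98317) (nat_lit 9) (.e (nat_lit 336086) (nat_lit 9) (.e (nat_lit 335880) (nat_lit 0) (.e (nat_lit 1712) (nat_lit 117) .nil)))) .nil))))) (.nd (nat_lit 3) (.nd (nat_lit 4) (.nd (nat_lit 5) 
(.lf (nat_lit 222022) (.g (nat_lit 3596) (.e (nat_lit 98317) (nat_lit 9) (.e (nat_lit 336076) (nat_lit 9) (.e (nat_lit 336019) (nat_lit 3) (.e (nat_lit 98358) (nat_lit 26) (.e (nat_lit 426446) (nat_lit 20) (.e (nat_lit 114718) (nat_lit 23) .nil)))))) (.g (nat_lit 6) .nil .nil))) 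
(.lf (nat_lit 222054) (.g (nat_lit 1760) (.e (nat_lit 98317) (nat_lit 9) (.e (nat_lit 336078) (nat_lit 9) (.e (nat_lit 336452) (nat_lit 34) (.e (nat_lit 483366) (nat_lit 18) (.e (nat_lit 57848) (nat_lit 252) (.e (nat_lit 57377) (nat_lit 3) .nil)))))) (.g (nat_lit 4) .nil .nil)))) (.nd (nat_lit 5) 
(.lf (nat_lit 222038) (.g (nat_lit 2929) (.e (nat_lit 98317) (nat_lit 9) (.e (nat_lit 336078) (nat_lit 9) (.e (nat_lit 336019) (nat_lit 3) (.e (nat_lit 98356) (nat_lit 26) (.e (nat_lit 426448) (nat_lit 20) (.e (nat_lit 114719) (nat_lit 23) .nil)))))) (.g (nat_lit 5) .nil .nil))) 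
(.lf (nat_lit 222070) (.g (nat_lit 2291) (.e (nat_lit 98317) (nat_lit 9) (.e (nat_lit 336085) (nat_lit 9) (.e (nat_lit 336454) (nat_lit 34) (.e (nat_lit 483365) (nat_lit 18) (.e (nat_lit 57852) (nat_lit 252) (.e (nat_lit 57378) (nat_lit 3) .nil)))))) (.g (nat_lit 4) .nil .nil))))) (.nd (nat_lit 4) (.nd (nat_lit 5) 
(.lf (nat_lit 222030) (.g (nat_lit 2085) (.e (nat_lit 98317) (nat_lit 9) (.e (nat_lit 336076) (nat_lit 9) (.e (nat_lit 336456) (nat_lit 34) (.e (nat_lit 483346) (nat_lit 17) (.e (nat_lit 1095) (nat_lit 81) .nil))))) .nil)) 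
(.lf (nat_lit 222062) (.g (nat_lit 3178) (.e (nat_lit 98317) (nat_lit 9) (.e (nat_lit 336078) (nat_lit 9) (.e (nat_lit 336456) (nat_lit 34) (.e (nat_lit 483365) (nat_lit 18) (.e (nat_lit 57848) (nat_lit 252) (.e (nat_lit 57377) (nat_lit 3) .nil)))))) (.g (nat_lit 6) .nil .nil)))) (.nd (nat_lit 5) 
(.lf (nat_lit 222046) (.g (nat_lit 1632) (.e (nat_lit 98317) (nat_lit 9) (.e (nat_lit 336078) (nat_lit 9) (.e (nat_lit 336368) (nat_lit 27) (.e (nat_lit 426497) (nat_lit 27) (.e (nat_lit 335995) (nat_lit 1) (.e (nat_lit 57848) (nat_lit 252) (.e (nat_lit 57377) (nat_lit 3) .nil))))))) (.g (nat_lit 4) .nil .nil))) 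
(.lf (nat_lit 222078) (.g (nat_lit 2946) (.e (nat_lit 98317) (nat_lit 9) (.e (nat_lit 336086) (nat_lit 9) (.e (nat_lit 336019) (nat_lit 3) (.e (nat_lit 98356) (nat_lit 26) (.e (nat_lit 426449) (nat_lit 20) (.e (nat_lit 114719) (nat_lit 23) .nil)))))) (.g (nat_lit 5) .nil .nil)))))))) (.nd (nat_lit 1) (.nd (nat_lit 2) (.nd (nat_lit 3) (.nd (nat_lit 4) (.nd (nat_lit 5) 
(.lf (nat_lit 222017) (.g (nat_lit 4356) (.e (nat_lit 98317) (nat_lit 9) (.e (nat_lit 336076) (nat_lit 9) (.e (nat_lit 336019) (nat_lit 3) (.e (nat_lit 98356) (nat_lit 26) (.e (nat_lit 426448) (nat_lit 20) (.e (nat_lit 114719) (nat_lit 23) .nil)))))) (.g (nat_lit 0) .nil .nil))) 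
(.lf (nat_lit 222049) (.g (nat_lit 692) (.e (nat_lit 98317) (nat_lit 9) (.e (nat_lit 336078) (nat_lit 9) (.e (nat_lit 336374) (nat_lit 27) .nil))) .nil))) (.nd (nat_lit 5) 
(.lf (nat_lit 222033) (.g (nat_lit 692) (.e (nat_lit 98317) (nat_lit 9) (.e (nat_lit 336078) (nat_lit 9) (.e (nat_lit 335966) (nat_lit 0) .nil))) .nil)) 
(.lf (nat_lit 222065) (.g (nat_lit 2282) (.e (nat_lit 98317) (nat_lit 9) (.e (nat_lit 336085) (nat_lit 9) (.e (nat_lit 336019) (nat_lit 3) (.e (nat_lit 98356) (nat_lit 26) (.e (nat_lit 433920) (nat_lit 20) (.e (nat_lit 114718) (nat_lit 23) .nil)))))) (.g (nat_lit 4) .nil .nil))))) (.nd (nat_lit 4) (.nd (nat_lit 5) 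
(.lf (nat_lit 222025) (.g (nat_lit 3588) (.e (nat_lit 98317) (nat_lit 9) (.e (nat_lit 336076) (nat_lit 9) (.e (nat_lit 336019) (nat_lit 3) (.e (nat_lit 98358) (nat_lit 26) (.e (nat_lit 426449) (nat_lit 20) (.e (nat_lit 114719) (nat_lit 23) .nil)))))) (.g (nat_lit 6) .nil .nil))) 
(.lf (nat_lit 222057) (.g (nat_lit 1342) (.e (nat_lit 98317) (nat_lit 9) (.e (nat_lit 336078) (nat_lit 9) (.e (nat_lit 336454) (nat_lit 34) (.e (nat_lit 483351) (nat_lit 17) .nil)))) .nil))) (.nd (nat_lit 5) 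
(.lf (nat_lit 222041) (.g (nat_lit 2428) (.e (nat_lit 98317) (nat_lit 9) (.e (nat_lit 336078) (nat_lit 9) (.e (nat_lit 336019) (nat_lit 3) (.e (nat_lit 98358) (nat_lit 26) (.e (nat_lit 426446) (nat_lit 20) (.e (nat_lit 114719) (nat_lit 23) .nil)))))) (.g (nat_lit 4) .nil .nil))) 
(.lf (nat_lit 222073) (.g (nat_lit 1828) (.e (nat_lit 98317) (nat_lit 9) (.e (nat_lit 336085) (nat_lit 9) (.e (nat_lit 336456) (nat_lit 34) (.e (nat_lit 483363) (nat_lit 18) (.e (nat_lit 57849) (nat_lit 252) .nil))))) .nil))))) (.nd (nat_lit 3) (.nd (nat_lit 4) (.nd (nat_lit 5) 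
(.lf (nat_lit 222021) (.g (nat_lit 3729) (.e (nat_lit 98317) (nat_lit 9) (.e (nat_lit 336076) (nat_lit 9) (.e (nat_lit 336019) (nat_lit 3) (.e (nat_lit 98357) (nat_lit 26) (.e (nat_lit 426448) (nat_lit 20) (.e (nat_lit 114718) (nat_lit 23) .nil)))))) (.g (nat_lit 0) .nil .nil))) 
(.lf (nat_lit 222053) (.g (nat_lit 3130) (.e (nat_lit 98317) (nat_lit 9) (.e (nat_lit 336078) (nat_lit 9) (.e (nat_lit 336452) (nat_lit 34) (.e (nat_lit 483365) (nat_lit 18) (.e (nat_lit 57848) (nat_lit 252) (.e (nat_lit 57377) (nat_lit 3) .nil)))))) (.g (nat_lit 6) .nil .nil)))) (.nd (nat_lit 5) 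
(.lf (nat_lit 222037) (.g (nat_lit 2148) (.e (nat_lit 98317) (nat_lit 9) (.e (nat_lit 336078) (nat_lit 9) (.e (nat_lit 336019) (nat_lit 3) (.e (nat_lit 98356) (nat_lit 26) (.e (nat_lit 426446) (nat_lit 20) (.e (nat_lit 114719) (nat_lit 23) .nil)))))) (.g (nat_lit 4) .nil .nil))) 
(.lf (nat_lit 222069) (.g (nat_lit 981) (.e (nat_lit 98317) (nat_lit 9) (.e (nat_lit 336085) (nat_lit 9) (.e (nat_lit 336454) (nat_lit 34) (.e (nat_lit 491264) (nat_lit 3) .nil)))) .nil)))) (.nd (nat_lit 4) (.nd (nat_lit 5) 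
(.lf (nat_lit 222029) (.g (nat_lit 2110) (.e (nat_lit 98317) (nat_lit 9) (.e (nat_lit 336076) (nat_lit 9) (.e (nat_lit 336366) (nat_lit 27) (.e (nat_lit 426499) (nat_lit 27) (.e (nat_lit 335986) (nat_lit 1) .nil))))) .nil)) 
(.lf (nat_lit 222061) (.g (nat_lit 1092) (.e (nat_lit 98317) (nat_lit 9) (.e (nat_lit 336078) (nat_lit 9) (.e (nat_lit 336455) (nat_lit 34) (.e (nat_lit 483366) (nat_lit 18) .nil)))) .nil))) (.nd (nat_lit 5) 
(.lf (nat_lit 222045) (.g (nat_lit 1610) (.e (nat_lit 98317) (nat_lit 9) (.e (nat_lit 336078) (nat_lit 9) (.e (nat_lit 336019) (nat_lit 3) (.e (nat_lit 98385) (nat_lit 32) (.e (nat_lit 475214) (nat_lit 42) .nil))))) .nil)) 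
(.lf (nat_lit 222077) (.g (nat_lit 2882) (.e (nat_lit 98317) (nat_lit 9) (.e (nat_lit 336086) (nat_lit 9) (.e (nat_lit 336019) (nat_lit 3) (.e (nat_lit 98356) (nat_lit 26) (.e (nat_lit 426446) (nat_lit 20) (.e (nat_lit 114719) (nat_lit 23) .nil)))))) (.g (nat_lit 5) .nil .nil))))))) (.nd (nat_lit 2) (.nd (nat_lit 3) (.nd (nat_lit 4) (.nd (nat_lit 5) 
(.lf (nat_lit 222019) (.g (nat_lit 2929) (.e (nat_lit 98317) (nat_lit 9) (.e (nat_lit 336076) (nat_lit 9) (.e (nat_lit 336019) (nat_lit 3) (.e (nat_lit 98356) (nat_lit 26) (.e (nat_lit 433920) (nat_lit 20) (.e (nat_lit 114718) (nat_lit 23) .nil)))))) (.g (nat_lit 4) .nil .nil))) 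
(.lf (nat_lit 222051) (.g (nat_lit 2333) (.e (nat_lit 98317) (nat_lit 9) (.e (nat_lit 336078) (nat_lit 9) (.e (nat_lit 336384) (nat_lit 27) (.e (nat_lit 426500) (nat_lit 27) (.e (nat_lit 335995) (nat_lit 1) (.e (nat_lit 57848) (nat_lit 252) (.e (nat_lit 57377) (nat_lit 3) .nil))))))) (.g (nat_lit 6) .nil .nil)))) (.nd (nat_lit 5) 
(.lf (nat_lit 222035) (.g (nat_lit 2181) (.e (nat_lit 98317) (nat_lit 9) (.e (nat_lit 336078) (nat_lit 9) (.e (nat_lit 336019) (nat_lit 3) (.e (nat_lit 98355) (nat_lit 26) (.e (nat_lit 426446) (nat_lit 20) (.e (nat_lit 114719) (nat_lit 23) .nil)))))) (.g (nat_lit 4) .nil .nil))) 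
(.lf (nat_lit 222067) (.g (nat_lit 2071) (.e (nat_lit 98317) (nat_lit 9) (.e (nat_lit 336085) (nat_lit 9) (.e (nat_lit 336019) (nat_lit 3) (.e (nat_lit 98358) (nat_lit 26) (.e (nat_lit 426449) (nat_lit 20) (.e (nat_lit 114718) (nat_lit 23) .nil)))))) (.g (nat_lit 4) .nil .nil))))) (.nd (nat_lit 4) (.nd (nat_lit 5) 
(.lf (nat_lit 222027) (.g (nat_lit 1661) (.e (nat_lit 98317) (nat_lit 9) (.e (nat_lit 336076) (nat_lit 9) (.e (nat_lit 336019) (nat_lit 3) (.e (nat_lit 98363) (nat_lit 26) .nil)))) .nil)) 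
(.lf (nat_lit 222059) (.g (nat_lit 3302) (.e (nat_lit 98317) (nat_lit 9) (.e (nat_lit 336078) (nat_lit 9) (.e (nat_lit 336454) (nat_lit 34) (.e (nat_lit 483363) (nat_lit 18) (.e (nat_lit 57848) (nat_lit 252) (.e (nat_lit 57377) (nat_lit 3) .nil)))))) (.g (nat_lit 6) .nil .nil)))) (.nd (nat_lit 5) 
(.lf (nat_lit 222043) (.g (nat_lit 2246) (.e (nat_lit 98317) (nat_lit 9) (.e (nat_lit 336078) (nat_lit 9) (.e (nat_lit 336019) (nat_lit 3) (.e (nat_lit 98358) (nat_lit 26) (.e (nat_lit 426449) (nat_lit 20) (.e (nat_lit 114719) (nat_lit 23) .nil)))))) (.g (nat_lit 4) .nil .nil))) 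
(.lf (nat_lit 222075) (.g (nat_lit 2637) (.e (nat_lit 98317) (nat_lit 9) (.e (nat_lit 336086) (nat_lit 9) (.e (nat_lit 336019) (nat_lit 3) (.e (nat_lit 98355) (nat_lit 26) (.e (nat_lit 426448) (nat_lit 20) (.e (nat_lit 114718) (nat_lit 23) .nil)))))) (.g (nat_lit 4) .nil .nil)))))) (.nd (nat_lit 3) (.nd (nat_lit 4) (.nd (nat_lit 5) 
(.lf (nat_lit 222023) (.g (nat_lit 4024) (.e (nat_lit 98317) (nat_lit 9) (.e (nat_lit 336076) (nat_lit 9) (.e (nat_lit 336019) (nat_lit 3) (.e (nat_lit 98358) (nat_lit 26) (.e (nat_lit 426448) (nat_lit 20) (.e (nat_lit 114718) (nat_lit 23) .nil)))))) (.g (nat_lit 0) .nil .nil))) 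
(.lf (nat_lit 222055) (.g (nat_lit 283) (.e (nat_lit 98317) (nat_lit 9) (.e (nat_lit 336078) (nat_lit 9) (.e (nat_lit 336454) (nat_lit 34) .nil))) .nil))) (.nd (nat_lit 5) 
(.lf (nat_lit 222039) (.g (nat_lit 2215) (.e (nat_lit 98317) (nat_lit 9) (.e (nat_lit 336078) (nat_lit 9) (.e (nat_lit 336019) (nat_lit 3) (.e (nat_lit 98356) (nat_lit 26) (.e (nat_lit 426449) (nat_lit 20) .nil))))) .nil)) 
(.lf (nat_lit 222071) (.g (nat_lit 1812) (.e (nat_lit 98317) (nat_lit 9) (.e (nat_lit 336085) (nat_lit 9) (.e (nat_lit 336454) (nat_lit 34) (.e (nat_lit 483366) (nat_lit 18) .nil)))) .nil)))) (.nd (nat_lit 4) (.nd (nat_lit 5) 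
(.lf (nat_lit 222031) (.g (nat_lit 1485) (.e (nat_lit 98317) (nat_lit 9) (.e (nat_lit 336076) (nat_lit 9) (.e (nat_lit 336456) (nat_lit 34) (.e (nat_lit 483359) (nat_lit 17) (.e (nat_lit 1037) (nat_lit 81) .nil))))) .nil)) 
(.lf (nat_lit 222063) (.g (nat_lit 2809) (.e (nat_lit 98317) (nat_lit 9) (.e (nat_lit 336085) (nat_lit 9) (.e (nat_lit 336019) (nat_lit 3) (.e (nat_lit 98355) (nat_lit 26) (.e (nat_lit 426448) (nat_lit 20) (.e (nat_lit 114718) (nat_lit 23) .nil)))))) (.g (nat_lit 5) .nil .nil)))) (.nd (nat_lit 5) 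
(.lf (nat_lit 222047) (.g (nat_lit 1559) (.e (nat_lit 98317) (nat_lit 9) (.e (nat_lit 336078) (nat_lit 9) (.e (nat_lit 336369) (nat_lit 27) (.e (nat_lit 426501) (nat_lit 27) .nil)))) .nil)) 
(.lf (nat_lit 222079) (.g (nat_lit 2143) (.e (nat_lit 98317) (nat_lit 9) (.e (nat_lit 336086) (nat_lit 9) (.e (nat_lit 336019) (nat_lit 3) (.e (nat_lit 98356) (nat_lit 26) (.e (nat_lit 433920) (nat_lit 20) (.e (nat_lit 114718) (nat_lit 23) .nil)))))) (.g (nat_lit 4) .nil .nil)))))))))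

noncomputable def tv2916 : DT := (.nd (nat_lit 0) (.nd (nat_lit 1) (.nd (nat_lit 2) (.nd (nat_lit 3) (.nd (nat_lit 4) (.nd (nat_lit 5) 
(.lf (nat_lit 222080) (.g (nat_lit 2223) (.e (nat_lit 98317) (nat_lit 9) (.e (nat_lit 336086) (nat_lit 9) (.e (nat_lit 336019) (nat_lit 3) (.e (nat_lit 98356) (nat_lit 26) (.e (nat_lit 433920) (nat_lit 20) (.e (nat_lit 114719) (nat_lit 23) .nil)))))) (.g (nat_lit 4) .nil .nil))) 
(.lf (nat_lit 222112) (.g (nat_lit 2016) (.e (nat_lit 98317) (nat_lit 9) (.e (nat_lit 336087) (nat_lit 9) (.e (nat_lit 336019) (nat_lit 3) (.e (nat_lit 98356) (nat_lit 26) (.e (nat_lit 426467) (nat_lit 24) (.e (nat_lit 155667) (nat_lit 9) (.e (nat_lit 1252) (nat_lit 92) .nil))))))) (.g (nat_lit 4) .nil .nil)))) (.nd (nat_lit 5) 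
(.lf (nat_lit 222096) (.g (nat_lit 2769) (.e (nat_lit 98317) (nat_lit 9) (.e (nat_lit 336086) (nat_lit 9) (.e (nat_lit 336454) (nat_lit 34) (.e (nat_lit 483366) (nat_lit 18) (.e (nat_lit 57846) (nat_lit 252) .nil))))) .nil)) 
(.lf (nat_lit 222128) (.g (nat_lit 2196) (.e (nat_lit 98317) (nat_lit 9) (.e (nat_lit 336087) (nat_lit 9) (.e (nat_lit 336019) (nat_lit 3) (.e (nat_lit 98384) (nat_lit 32) (.e (nat_lit 483072) (nat_lit 42) (.e (nat_lit 720945) (nat_lit 23) .nil)))))) (.g (nat_lit 4) .nil .nil))))) (.nd (nat_lit 4) (.nd (nat_lit 5) 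
(.lf (nat_lit 222088) (.g (nat_lit 3182) (.e (nat_lit 98317) (nat_lit 9) (.e (nat_lit 336086) (nat_lit 9) (.e (nat_lit 336395) (nat_lit 27) (.e (nat_lit 426499) (nat_lit 27) (.e (nat_lit 335986) (nat_lit 1) (.e (nat_lit 57849) (nat_lit 252) (.e (nat_lit 57379) (nat_lit 3) .nil))))))) (.g (nat_lit 5) .nil .nil))) 
(.lf (nat_lit 222120) (.g (nat_lit 2181) (.e (nat_lit 98317) (nat_lit 9) (.e (nat_lit 336087) (nat_lit 9) (.e (nat_lit 336019) (nat_lit 3) (.e (nat_lit 98384) (nat_lit 32) (.e (nat_lit 475201) (nat_lit 40) (.e (nat_lit 704656) (nat_lit 9) (.e (nat_lit 1255) (nat_lit 92) .nil))))))) (.g (nat_lit 4) .nil .nil)))) (.nd (nat_lit 5) 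
(.lf (nat_lit 222104) (.g (nat_lit 2761) (.e (nat_lit 98317) (nat_lit 9) (.e (nat_lit 336086) (nat_lit 9) (.e (nat_lit 336456) (nat_lit 34) (.e (nat_lit 483365) (nat_lit 18) (.e (nat_lit 57851) (nat_lit 252) (.e (nat_lit 57377) (nat_lit 3) .nil)))))) (.g (nat_lit 4) .nil .nil))) 
(.lf (nat_lit 222136) (.g (nat_lit 1069) (.e (nat_lit 98317) (nat_lit 9) (.e (nat_lit 336088) (nat_lit 9) (.e (nat_lit 336016) (nat_lit 2) (.e (nat_lit 90133) (nat_lit 9) .nil)))) .nil))))) (.nd (nat_lit 3) (.nd (nat_lit 4) (.nd (nat_lit 5) 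
(.lf (nat_lit 222084) (.g (nat_lit 2268) (.e (nat_lit 98317) (nat_lit 9) (.e (nat_lit 336086) (nat_lit 9) (.e (nat_lit 336019) (nat_lit 3) (.e (nat_lit 98358) (nat_lit 26) (.e (nat_lit 433920) (nat_lit 20) .nil))))) .nil)) 
(.lf (nat_lit 222116) (.g (nat_lit 2303) (.e (nat_lit 98317) (nat_lit 9) (.e (nat_lit 336087) (nat_lit 9) (.e (nat_lit 336019) (nat_lit 3) (.e (nat_lit 98384) (nat_lit 32) (.e (nat_lit 475198) (nat_lit 40) (.e (nat_lit 704680) (nat_lit 9) (.e (nat_lit 1253) (nat_lit 92) .nil))))))) (.g (nat_lit 5) .nil .nil)))) (.nd (nat_lit 5) 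
(.lf (nat_lit 222100) (.g (nat_lit 3039) (.e (nat_lit 98317) (nat_lit 9) (.e (nat_lit 336086) (nat_lit 9) (.e (nat_lit 336456) (nat_lit 34) (.e (nat_lit 483363) (nat_lit 18) (.e (nat_lit 57853) (nat_lit 252) (.e (nat_lit 57377) (nat_lit 3) .nil)))))) (.g (nat_lit 4) .nil .nil))) 
(.lf (nat_lit 222132) (.g (nat_lit 2415) (.e (nat_lit 98317) (nat_lit 9) (.e (nat_lit 336087) (nat_lit 9) (.e (nat_lit 336454) (nat_lit 34) (.e (nat_lit 483363) (nat_lit 18) (.e (nat_lit 57849) (nat_lit 252) (.e (nat_lit 57379) (nat_lit 3) .nil)))))) (.g (nat_lit 4) .nil .nil))))) (.nd (nat_lit 4) (.nd (nat_lit 5) 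
(.lf (nat_lit 222092) (.g (nat_lit 3367) (.e (nat_lit 98317) (nat_lit 9) (.e (nat_lit 336086) (nat_lit 9) (.e (nat_lit 336454) (nat_lit 34) (.e (nat_lit 483364) (nat_lit 18) (.e (nat_lit 57854) (nat_lit 252) (.e (nat_lit 57378) (nat_lit 3) .nil)))))) (.g (nat_lit 0) .nil .nil))) 
(.lf (nat_lit 222124) (.g (nat_lit 2966) (.e (nat_lit 98317) (nat_lit 9) (.e (nat_lit 336087) (nat_lit 9) (.e (nat_lit 336019) (nat_lit 3) (.e (nat_lit 98384) (nat_lit 32) (.e (nat_lit 475201) (nat_lit 40) (.e (nat_lit 704686) (nat_lit 9) (.e (nat_lit 1253) (nat_lit 92) .nil))))))) (.g (nat_lit 5) .nil .nil)))) (.nd (nat_lit 5) 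
(.lf (nat_lit 222108) (.g (nat_lit 1532) (.e (nat_lit 98317) (nat_lit 9) (.e (nat_lit 336087) (nat_lit 9) (.e (nat_lit 336019) (nat_lit 3) (.e (nat_lit 98356) (nat_lit 26) (.e (nat_lit 426440) (nat_lit 19) .nil))))) .nil)) 
(.lf (nat_lit 222140) (.g (nat_lit 1952) (.e (nat_lit 98317) (nat_lit 9) (.e (nat_lit 336088) (nat_lit 9) (.e (nat_lit 336019) (nat_lit 3) (.e (nat_lit 98356) (nat_lit 26) (.e (nat_lit 426361) (nat_lit 15) (.e (nat_lit 2195) (nat_lit 144) (.e (nat_lit 720945) (nat_lit 23) .nil))))))) (.g (nat_lit 4) .nil .nil))))))) (.nd (nat_lit 2) (.nd (nat_lit 3) (.nd (nat_lit 4) (.nd (nat_lit 5) 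
(.lf (nat_lit 222082) (.g (nat_lit 3162) (.e (nat_lit 98317) (nat_lit 9) (.e (nat_lit 336086) (nat_lit 9) (.e (nat_lit 336019) (nat_lit 3) (.e (nat_lit 98358) (nat_lit 26) (.e (nat_lit 426446) (nat_lit 20) (.e (nat_lit 114719) (nat_lit 23) .nil)))))) (.g (nat_lit 5) .nil .nil))) 
(.lf (nat_lit 222114) (.g (nat_lit 2015) (.e (nat_lit 98317) (nat_lit 9) (.e (nat_lit 336087) (nat_lit 9) (.e (nat_lit 336019) (nat_lit 3) (.e (nat_lit 98358) (nat_lit 26) (.e (nat_lit 433920) (nat_lit 20) (.e (nat_lit 114718) (nat_lit 23) .nil)))))) (.g (nat_lit 4) .nil .nil)))) (.nd (nat_lit 5) 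
(.lf (nat_lit 222098) (.g (nat_lit 2734) (.e (nat_lit 98317) (nat_lit 9) (.e (nat_lit 336086) (nat_lit 9) (.e (nat_lit 336454) (nat_lit 34) (.e (nat_lit 483366) (nat_lit 18) (.e (nat_lit 57851) (nat_lit 252) .nil))))) .nil)) 
(.lf (nat_lit 222130) (.g (nat_lit 2709) (.e (nat_lit 98317) (nat_lit 9) (.e (nat_lit 336087) (nat_lit 9) (.e (nat_lit 336019) (nat_lit 3) (.e (nat_lit 98386) (nat_lit 32) (.e (nat_lit 475214) (nat_lit 42) (.e (nat_lit 720945) (nat_lit 23) .nil)))))) (.g (nat_lit 5) .nil .nil))))) (.nd (nat_lit 4) (.nd (nat_lit 5) 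
(.lf (nat_lit 222090) (.g (nat_lit 3010) (.e (nat_lit 98317) (nat_lit 9) (.e (nat_lit 336086) (nat_lit 9) (.e (nat_lit 336414) (nat_lit 27) (.e (nat_lit 426503) (nat_lit 27) (.e (nat_lit 335986) (nat_lit 1) (.e (nat_lit 57847) (nat_lit 252) (.e (nat_lit 57378) (nat_lit 3) .nil))))))) (.g (nat_lit 5) .nil .nil))) 
(.lf (nat_lit 222122) (.g (nat_lit 2369) (.e (nat_lit 98317) (nat_lit 9) (.e (nat_lit 336087) (nat_lit 9) (.e (nat_lit 336019) (nat_lit 3) (.e (nat_lit 98384) (nat_lit 32) (.e (nat_lit 475201) (nat_lit 40) (.e (nat_lit 704662) (nat_lit 9) (.e (nat_lit 1247) (nat_lit 92) .nil))))))) (.g (nat_lit 4) .nil .nil)))) (.nd (nat_lit 5) 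
(.lf (nat_lit 222106) (.g (nat_lit 1728) (.e (nat_lit 98317) (nat_lit 9) (.e (nat_lit 336087) (nat_lit 9) (.e (nat_lit 336019) (nat_lit 3) (.e (nat_lit 98356) (nat_lit 26) (.e (nat_lit 426361) (nat_lit 15) (.e (nat_lit 2195) (nat_lit 144) (.e (nat_lit 720945) (nat_lit 23) .nil))))))) (.g (nat_lit 4) .nil .nil))) 
(.lf (nat_lit 222138) (.g (nat_lit 1046) (.e (nat_lit 98317) (nat_lit 9) (.e (nat_lit 336088) (nat_lit 9) (.e (nat_lit 336019) (nat_lit 3) (.e (nat_lit 98356) (nat_lit 26) .nil)))) .nil))))) (.nd (nat_lit 3) (.nd (nat_lit 4) (.nd (nat_lit 5) 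
(.lf (nat_lit 222086) (.g (nat_lit 2801) (.e (nat_lit 98317) (nat_lit 9) (.e (nat_lit 336086) (nat_lit 9) (.e (nat_lit 336369) (nat_lit 27) (.e (nat_lit 426499) (nat_lit 27) (.e (nat_lit 335996) (nat_lit 1) .nil))))) .nil)) 
(.lf (nat_lit 222118) (.g (nat_lit 1584) (.e (nat_lit 98317) (nat_lit 9) (.e (nat_lit 336087) (nat_lit 9) (.e (nat_lit 336019) (nat_lit 3) (.e (nat_lit 98384) (nat_lit 32) (.e (nat_lit 475201) (nat_lit 40) .nil))))) .nil))) (.nd (nat_lit 5) 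
(.lf (nat_lit 222102) (.g (nat_lit 2325) (.e (nat_lit 98317) (nat_lit 9) (.e (nat_lit 336086) (nat_lit 9) (.e (nat_lit 336456) (nat_lit 34) (.e (nat_lit 483364) (nat_lit 18) (.e (nat_lit 57853) (nat_lit 252) .nil))))) .nil)) 
(.lf (nat_lit 222134) (.g (nat_lit 3225) (.e (nat_lit 98317) (nat_lit 9) (.e (nat_lit 336087) (nat_lit 9) (.e (nat_lit 336454) (nat_lit 34) (.e (nat_lit 483365) (nat_lit 18) (.e (nat_lit 57847) (nat_lit 252) (.e (nat_lit 57379) (nat_lit 3) .nil)))))) (.g (nat_lit 4) .nil .nil))))) (.nd (nat_lit 4) (.nd (nat_lit 5) 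
(.lf (nat_lit 222094) (.g (nat_lit 3917) (.e (nat_lit 98317) (nat_lit 9) (.e (nat_lit 336086) (nat_lit 9) (.e (nat_lit 336454) (nat_lit 34) (.e (nat_lit 483365) (nat_lit 18) (.e (nat_lit 57849) (nat_lit 252) (.e (nat_lit 57379) (nat_lit 3) .nil)))))) (.g (nat_lit 0) .nil .nil))) 
(.lf (nat_lit 222126) (.g (nat_lit 2914) (.e (nat_lit 98317) (nat_lit 9) (.e (nat_lit 336087) (nat_lit 9) (.e (nat_lit 336019) (nat_lit 3) (.e (nat_lit 98384) (nat_lit 32) (.e (nat_lit 475214) (nat_lit 42) (.e (nat_lit 720945) (nat_lit 23) .nil)))))) (.g (nat_lit 6) .nil .nil)))) (.nd (nat_lit 5) 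
(.lf (nat_lit 222110) (.g (nat_lit 2325) (.e (nat_lit 98317) (nat_lit 9) (.e (nat_lit 336087) (nat_lit 9) (.e (nat_lit 336019) (nat_lit 3) (.e (nat_lit 98356) (nat_lit 26) (.e (nat_lit 426448) (nat_lit 20) (.e (nat_lit 122624) (nat_lit 23) .nil)))))) (.g (nat_lit 5) .nil .nil))) 
(.lf (nat_lit 222142) (.g (nat_lit 2481) (.e (nat_lit 98317) (nat_lit 9) (.e (nat_lit 336088) (nat_lit 9) (.e (nat_lit 336019) (nat_lit 3) (.e (nat_lit 98356) (nat_lit 26) (.e (nat_lit 426361) (nat_lit 15) (.e (nat_lit 2206) (nat_lit 144) (.e (nat_lit 720943) (nat_lit 23) .nil))))))) (.g (nat_lit 4) .nil .nil)))))))) 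
(.nd (nat_lit 1) (.nd (nat_lit 2) (.nd (nat_lit 3) (.nd (nat_lit 4) (.nd (nat_lit 5) 
(.lf (nat_lit 222081) (.g (nat_lit 3059) (.e (nat_lit 98317) (nat_lit 9) (.e (nat_lit 336086) (nat_lit 9) (.e (nat_lit 336019) (nat_lit 3) (.e (nat_lit 98358) (nat_lit 26) (.e (nat_lit 426446) (nat_lit 20) (.e (nat_lit 114718) (nat_lit 23) .nil)))))) (.g (nat_lit 5) .nil .nil))) 
(.lf (nat_lit 222113) (.g (nat_lit 2822) (.e (nat_lit 98317) (nat_lit 9) (.e (nat_lit 336087) (nat_lit 9) (.e (nat_lit 336019) (nat_lit 3) (.e (nat_lit 98358) (nat_lit 26) (.e (nat_lit 426354) (nat_lit 15) (.e (nat_lit 2198) (nat_lit 144) (.e (nat_lit 720945) (nat_lit 23) .nil))))))) (.g (nat_lit 5) .nil .nil)))) (.nd (nat_lit 5) 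
(.lf (nat_lit 222097) (.g (nat_lit 2791) (.e (nat_lit 98317) (nat_lit 9) (.e (nat_lit 336086) (nat_lit 9) (.e (nat_lit 336454) (nat_lit 34) (.e (nat_lit 483366) (nat_lit 18) (.e (nat_lit 57849) (nat_lit 252) .nil))))) .nil)) 
(.lf (nat_lit 222129) (.g (nat_lit 2327) (.e (nat_lit 98317) (nat_lit 9) (.e (nat_lit 336087) (nat_lit 9) (.e (nat_lit 336019) (nat_lit 3) (.e (nat_lit 98384) (nat_lit 32) (.e (nat_lit 475215) (nat_lit 43) (.e (nat_lit 729114) (nat_lit 23) .nil)))))) (.g (nat_lit 4) .nil .nil))))) (.nd (nat_lit 4) (.nd (nat_lit 5) 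
(.lf (nat_lit 222089) (.g (nat_lit 4607) (.e (nat_lit 98317) (nat_lit 9) (.e (nat_lit 336086) (nat_lit 9) (.e (nat_lit 336414) (nat_lit 27) (.e (nat_lit 426503) (nat_lit 27) (.e (nat_lit 335986) (nat_lit 1) (.e (nat_lit 57847) (nat_lit 252) (.e (nat_lit 57377) (nat_lit 3) .nil))))))) (.g (nat_lit 6) .nil .nil))) 
(.lf (nat_lit 222121) (.g (nat_lit 2274) (.e (nat_lit 98317) (nat_lit 9) (.e (nat_lit 336087) (nat_lit 9) (.e (nat_lit 336019) (nat_lit 3) (.e (nat_lit 98384) (nat_lit 32) (.e (nat_lit 475201) (nat_lit 40) (.e (nat_lit 704659) (nat_lit 9) (.e (nat_lit 1255) (nat_lit 92) .nil))))))) (.g (nat_lit 4) .nil .nil)))) (.nd (nat_lit 5) 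
(.lf (nat_lit 222105) (.g (nat_lit 747) (.e (nat_lit 98317) (nat_lit 9) (.e (nat_lit 336087) (nat_lit 9) (.e (nat_lit 336019) (nat_lit 3) (.e (nat_lit 98356) (nat_lit 26) .nil)))) .nil)) 
(.lf (nat_lit 222137) (.g (nat_lit 2186) (.e (nat_lit 98317) (nat_lit 9) (.e (nat_lit 336088) (nat_lit 9) (.e (nat_lit 336019) (nat_lit 3) (.e (nat_lit 98354) (nat_lit 26) (.e (nat_lit 433920) (nat_lit 20) (.e (nat_lit 114719) (nat_lit 23) .nil)))))) (.g (nat_lit 4) .nil .nil)))))) (.nd (nat_lit 3) (.nd (nat_lit 4) (.nd (nat_lit 5) 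
(.lf (nat_lit 222085) (.g (nat_lit 1415) (.e (nat_lit 98317) (nat_lit 9) (.e (nat_lit 336086) (nat_lit 9) (.e (nat_lit 336369) (nat_lit 27) (.e (nat_lit 426497) (nat_lit 27) .nil)))) .nil)) 
(.lf (nat_lit 222117) (.g (nat_lit 1746) (.e (nat_lit 98317) (nat_lit 9) (.e (nat_lit 336087) (nat_lit 9) (.e (nat_lit 336019) (nat_lit 3) (.e (nat_lit 98384) (nat_lit 32) (.e (nat_lit 475199) (nat_lit 40) (.e (nat_lit 704689) (nat_lit 9) (.e (nat_lit 1252) (nat_lit 92) .nil))))))) (.g (nat_lit 4) .nil .nil)))) (.nd (nat_lit 5) 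
(.lf (nat_lit 222101) (.g (nat_lit 2909) (.e (nat_lit 98317) (nat_lit 9) (.e (nat_lit 336086) (nat_lit 9) (.e (nat_lit 336456) (nat_lit 34) (.e (nat_lit 483363) (nat_lit 18) (.e (nat_lit 57854) (nat_lit 252) (.e (nat_lit 57378) (nat_lit 3) .nil)))))) (.g (nat_lit 4) .nil .nil))) 
(.lf (nat_lit 222133) (.g (nat_lit 3043) (.e (nat_lit 98317) (nat_lit 9) (.e (nat_lit 336087) (nat_lit 9) (.e (nat_lit 336454) (nat_lit 34) (.e (nat_lit 483365) (nat_lit 18) (.e (nat_lit 57847) (nat_lit 252) (.e (nat_lit 57378) (nat_lit 3) .nil)))))) (.g (nat_lit 4) .nil .nil))))) (.nd (nat_lit 4) (.nd (nat_lit 5) 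
(.lf (nat_lit 222093) (.g (nat_lit 3659) (.e (nat_lit 98317) (nat_lit 9) (.e (nat_lit 336086) (nat_lit 9) (.e (nat_lit 336454) (nat_lit 34) (.e (nat_lit 483365) (nat_lit 18) (.e (nat_lit 57847) (nat_lit 252) (.e (nat_lit 57379) (nat_lit 3) .nil)))))) (.g (nat_lit 0) .nil .nil))) 
(.lf (nat_lit 222125) (.g (nat_lit 2279) (.e (nat_lit 98317) (nat_lit 9) (.e (nat_lit 336087) (nat_lit 9) (.e (nat_lit 336019) (nat_lit 3) (.e (nat_lit 98384) (nat_lit 32) (.e (nat_lit 475214) (nat_lit 42) (.e (nat_lit 720942) (nat_lit 23) .nil)))))) (.g (nat_lit 4) .nil .nil)))) (.nd (nat_lit 5) 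
(.lf (nat_lit 222109) (.g (nat_lit 2002) (.e (nat_lit 98317) (nat_lit 9) (.e (nat_lit 336087) (nat_lit 9) (.e (nat_lit 336019) (nat_lit 3) (.e (nat_lit 98356) (nat_lit 26) (.e (nat_lit 426440) (nat_lit 19) (.e (nat_lit 106526) (nat_lit 9) (.e (nat_lit 1247) (nat_lit 92) .nil))))))) (.g (nat_lit 4) .nil .nil))) 
(.lf (nat_lit 222141) (.g (nat_lit 1927) (.e (nat_lit 98317) (nat_lit 9) (.e (nat_lit 336088) (nat_lit 9) (.e (nat_lit 336019) (nat_lit 3) (.e (nat_lit 98356) (nat_lit 26) (.e (nat_lit 426361) (nat_lit 15) (.e (nat_lit 2198) (nat_lit 144) (.e (nat_lit 720945) (nat_lit 23) .nil))))))) (.g (nat_lit 4) .nil .nil))))))) (.nd (nat_lit 2) (.nd (nat_lit 3) (.nd (nat_lit 4) (.nd (nat_lit 5) 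
(.lf (nat_lit 222083) (.g (nat_lit 2980) (.e (nat_lit 98317) (nat_lit 9) (.e (nat_lit 336086) (nat_lit 9) (.e (nat_lit 336019) (nat_lit 3) (.e (nat_lit 98358) (nat_lit 26) (.e (nat_lit 426449) (nat_lit 20) (.e (nat_lit 114719) (nat_lit 23) .nil)))))) (.g (nat_lit 5) .nil .nil))) 
(.lf (nat_lit 222115) (.g (nat_lit 2163) (.e (nat_lit 98317) (nat_lit 9) (.e (nat_lit 336087) (nat_lit 9) (.e (nat_lit 336019) (nat_lit 3) (.e (nat_lit 98358) (nat_lit 26) (.e (nat_lit 433920) (nat_lit 20) (.e (nat_lit 114719) (nat_lit 23) .nil)))))) (.g (nat_lit 4) .nil .nil)))) (.nd (nat_lit 5) 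
(.lf (nat_lit 222099) (.g (nat_lit 1658) (.e (nat_lit 98317) (nat_lit 9) (.e (nat_lit 336086) (nat_lit 9) (.e (nat_lit 336456) (nat_lit 34) (.e (nat_lit 491264) (nat_lit 3) .nil)))) .nil)) 
(.lf (nat_lit 222131) (.g (nat_lit 1585) (.e (nat_lit 98317) (nat_lit 9) (.e (nat_lit 336087) (nat_lit 9) (.e (nat_lit 336019) (nat_lit 3) (.e (nat_lit 98386) (nat_lit 32) (.e (nat_lit 483072) (nat_lit 42) (.e (nat_lit 720945) (nat_lit 23) .nil)))))) (.g (nat_lit 4) .nil .nil))))) (.nd (nat_lit 4) (.nd (nat_lit 5) 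
(.lf (nat_lit 222091) (.g (nat_lit 3656) (.e (nat_lit 98317) (nat_lit 9) (.e (nat_lit 336086) (nat_lit 9) (.e (nat_lit 336454) (nat_lit 34) (.e (nat_lit 483363) (nat_lit 18) (.e (nat_lit 57847) (nat_lit 252) (.e (nat_lit 57379) (nat_lit 3) .nil)))))) (.g (nat_lit 0) .nil .nil))) 
(.lf (nat_lit 222123) (.g (nat_lit 2158) (.e (nat_lit 98317) (nat_lit 9) (.e (nat_lit 336087) (nat_lit 9) (.e (nat_lit 336019) (nat_lit 3) (.e (nat_lit 98384) (nat_lit 32) (.e (nat_lit 475201) (nat_lit 40) (.e (nat_lit 704664) (nat_lit 9) (.e (nat_lit 1255) (nat_lit 92) .nil))))))) (.g (nat_lit 4) .nil .nil)))) (.nd (nat_lit 5) 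
(.lf (nat_lit 222107) (.g (nat_lit 1701) (.e (nat_lit 98317) (nat_lit 9) (.e (nat_lit 336087) (nat_lit 9) (.e (nat_lit 336019) (nat_lit 3) (.e (nat_lit 98356) (nat_lit 26) (.e (nat_lit 426361) (nat_lit 15) (.e (nat_lit 2198) (nat_lit 144) (.e (nat_lit 720945) (nat_lit 23) .nil))))))) (.g (nat_lit 4) .nil .nil))) 
(.lf (nat_lit 222139) (.g (nat_lit 1902) (.e (nat_lit 98317) (nat_lit 9) (.e (nat_lit 336088) (nat_lit 9) (.e (nat_lit 336019) (nat_lit 3) (.e (nat_lit 98356) (nat_lit 26) (.e (nat_lit 426361) (nat_lit 15) .nil))))) .nil))))) (.nd (nat_lit 3) (.nd (nat_lit 4) (.nd (nat_lit 5) 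
(.lf (nat_lit 222087) (.g (nat_lit 1399) (.e (nat_lit 98317) (nat_lit 9) (.e (nat_lit 336086) (nat_lit 9) (.e (nat_lit 336369) (nat_lit 27) (.e (nat_lit 426501) (nat_lit 27) .nil)))) .nil)) 
(.lf (nat_lit 222119) (.g (nat_lit 2630) (.e (nat_lit 98317) (nat_lit 9) (.e (nat_lit 336087) (nat_lit 9) (.e (nat_lit 336019) (nat_lit 3) (.e (nat_lit 98384) (nat_lit 32) (.e (nat_lit 475201) (nat_lit 40) (.e (nat_lit 704620) (nat_lit 9) (.e (nat_lit 1247) (nat_lit 92) .nil))))))) (.g (nat_lit 5) .nil .nil)))) (.nd (nat_lit 5) 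
(.lf (nat_lit 222103) (.g (nat_lit 2863) (.e (nat_lit 98317) (nat_lit 9) (.e (nat_lit 336086) (nat_lit 9) (.e (nat_lit 336456) (nat_lit 34) (.e (nat_lit 483365) (nat_lit 18) (.e (nat_lit 57847) (nat_lit 252) (.e (nat_lit 57378) (nat_lit 3) .nil)))))) (.g (nat_lit 4) .nil .nil))) 
(.lf (nat_lit 222135) (.g (nat_lit 3177) (.e (nat_lit 98317) (nat_lit 9) (.e (nat_lit 336087) (nat_lit 9) (.e (nat_lit 336454) (nat_lit 34) (.e (nat_lit 483365) (nat_lit 18) (.e (nat_lit 57854) (nat_lit 252) (.e (nat_lit 57378) (nat_lit 3) .nil)))))) (.g (nat_lit 4) .nil .nil))))) (.nd (nat_lit 4) (.nd (nat_lit 5) 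
(.lf (nat_lit 222095) (.g (nat_lit 3866) (.e (nat_lit 98317) (nat_lit 9) (.e (nat_lit 336086) (nat_lit 9) (.e (nat_lit 336454) (nat_lit 34) (.e (nat_lit 483365) (nat_lit 18) (.e (nat_lit 57854) (nat_lit 252) (.e (nat_lit 57378) (nat_lit 3) .nil)))))) (.g (nat_lit 0) .nil .nil))) 
(.lf (nat_lit 222127) (.g (nat_lit 2037) (.e (nat_lit 98317) (nat_lit 9) (.e (nat_lit 336087) (nat_lit 9) (.e (nat_lit 336019) (nat_lit 3) (.e (nat_lit 98384) (nat_lit 32) (.e (nat_lit 475214) (nat_lit 42) (.e (nat_lit 728832) (nat_lit 23) .nil)))))) (.g (nat_lit 5) .nil .nil)))) (.nd (nat_lit 5) 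
(.lf (nat_lit 222111) (.g (nat_lit 2465) (.e (nat_lit 98317) (nat_lit 9) (.e (nat_lit 336087) (nat_lit 9) (.e (nat_lit 336019) (nat_lit 3) (.e (nat_lit 98356) (nat_lit 26) (.e (nat_lit 426449) (nat_lit 20) (.e (nat_lit 114718) (nat_lit 23) .nil)))))) (.g (nat_lit 5) .nil .nil))) 
(.lf (nat_lit 222143) (.g (nat_lit 1839) (.e (nat_lit 98317) (nat_lit 9) (.e (nat_lit 336088) (nat_lit 9) (.e (nat_lit 336019) (nat_lit 3) (.e (nat_lit 98356) (nat_lit 26) (.e (nat_lit 426440) (nat_lit 19) .nil))))) .nil))))))))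

noncomputable def tv2917 : DT := (.nd (nat_lit 0) (.nd (nat_lit 1) (.nd (nat_lit 2) (.nd (nat_lit 3) (.nd (nat_lit 4) (.nd (nat_lit 5) 
(.lf (nat_lit 222144) (.g (nat_lit 2018) (.e (nat_lit 98317) (nat_lit 9) (.e (nat_lit 336088) (nat_lit 9) (.e (nat_lit 336019) (nat_lit 3) (.e (nat_lit 98356) (nat_lit 26) (.e (nat_lit 426440) (nat_lit 19) (.e (nat_lit 106526) (nat_lit 9) (.e (nat_lit 1247) (nat_lit 92) .nil))))))) (.g (nat_lit 4) .nil .nil))) 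
(.lf (nat_lit 222176) (.g (nat_lit 2475) (.e (nat_lit 98317) (nat_lit 9) (.e (nat_lit 336088) (nat_lit 9) (.e (nat_lit 336019) (nat_lit 3) (.e (nat_lit 98385) (nat_lit 32) (.e (nat_lit 475212) (nat_lit 42) (.e (nat_lit 720945) (nat_lit 23) .nil)))))) (.g (nat_lit 0) .nil .nil)))) (.nd (nat_lit 5) 
(.lf (nat_lit 222160) (.g (nat_lit 3577) (.e (nat_lit 98317) (nat_lit 9) (.e (nat_lit 336088) (nat_lit 9) (.e (nat_lit 336019) (nat_lit 3) (.e (nat_lit 98384) (nat_lit 32) (.e (nat_lit 475199) (nat_lit 40) (.e (nat_lit 704689) (nat_lit 9) (.e (nat_lit 1253) (nat_lit 92) .nil))))))) (.g (nat_lit 7) .nil .nil))) 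
(.lf (nat_lit 222192) (.g (nat_lit 2666) (.e (nat_lit 98317) (nat_lit 9) (.e (nat_lit 336088) (nat_lit 9) (.e (nat_lit 336370) (nat_lit 27) (.e (nat_lit 426497) (nat_lit 27) (.e (nat_lit 335986) (nat_lit 1) (.e (nat_lit 57849) (nat_lit 252) (.e (nat_lit 57379) (nat_lit 3) .nil))))))) (.g (nat_lit 5) .nil .nil))))) (.nd (nat_lit 4) (.nd (nat_lit 5) 
(.lf (nat_lit 222152) (.g (nat_lit 2647) (.e (nat_lit 98317) (nat_lit 9) (.e (nat_lit 336088) (nat_lit 9) (.e (nat_lit 336019) (nat_lit 3) (.e (nat_lit 98358) (nat_lit 26) (.e (nat_lit 426449) (nat_lit 20) (.e (nat_lit 114718) (nat_lit 23) .nil)))))) (.g (nat_lit 5) .nil .nil))) 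
(.lf (nat_lit 222184) (.g (nat_lit 3288) (.e (nat_lit 98317) (nat_lit 9) (.e (nat_lit 336088) (nat_lit 9) (.e (nat_lit 336366) (nat_lit 27) (.e (nat_lit 426499) (nat_lit 27) (.e (nat_lit 335986) (nat_lit 1) (.e (nat_lit 57847) (nat_lit 252) (.e (nat_lit 57378) (nat_lit 3) .nil))))))) (.g (nat_lit 5) .nil .nil)))) (.nd (nat_lit 5) 
(.lf (nat_lit 222168) (.g (nat_lit 2259) (.e (nat_lit 98317) (nat_lit 9) (.e (nat_lit 336088) (nat_lit 9) (.e (nat_lit 336019) (nat_lit 3) (.e (nat_lit 98384) (nat_lit 32) (.e (nat_lit 475201) (nat_lit 40) (.e (nat_lit 704664) (nat_lit 9) (.e (nat_lit 1255) (nat_lit 92) .nil))))))) (.g (nat_lit 4) .nil .nil))) 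
(.lf (nat_lit 222200) (.g (nat_lit 3645) (.e (nat_lit 98317) (nat_lit 9) (.e (nat_lit 336088) (nat_lit 9) (.e (nat_lit 336414) (nat_lit 27) (.e (nat_lit 426503) (nat_lit 27) (.e (nat_lit 335986) (nat_lit 1) (.e (nat_lit 57847) (nat_lit 252) (.e (nat_lit 57377) (nat_lit 3) .nil))))))) (.g (nat_lit 5) .nil .nil)))))) (.nd (nat_lit 3) (.nd (nat_lit 4) (.nd (nat_lit 5) 
(.lf (nat_lit 222148) (.g (nat_lit 1009) (.e (nat_lit 98317) (nat_lit 9) (.e (nat_lit 336088) (nat_lit 9) (.e (nat_lit 336019) (nat_lit 3) (.e (nat_lit 98358) (nat_lit 26) .nil)))) .nil)) 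
(.lf (nat_lit 222180) (.g (nat_lit 2098) (.e (nat_lit 98317) (nat_lit 9) (.e (nat_lit 336088) (nat_lit 9) (.e (nat_lit 336324) (nat_lit 18) (.e (nat_lit 204838) (nat_lit 20) (.e (nat_lit 114711) (nat_lit 21) .nil))))) .nil))) (.nd (nat_lit 5) 
(.lf (nat_lit 222164) (.g (nat_lit 2282) (.e (nat_lit 98317) (nat_lit 9) (.e (nat_lit 336088) (nat_lit 9) (.e (nat_lit 336019) (nat_lit 3) (.e (nat_lit 98384) (nat_lit 32) (.e (nat_lit 475201) (nat_lit 40) (.e (nat_lit 704656) (nat_lit 9) (.e (nat_lit 1255) (nat_lit 92) .nil))))))) (.g (nat_lit 4) .nil .nil))) 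
(.lf (nat_lit 222196) (.g (nat_lit 2167) (.e (nat_lit 98317) (nat_lit 9) (.e (nat_lit 336088) (nat_lit 9) (.e (nat_lit 336372) (nat_lit 27) (.e (nat_lit 426482) (nat_lit 27) (.e (nat_lit 335997) (nat_lit 1) (.e (nat_lit 57849) (nat_lit 252) (.e (nat_lit 57379) (nat_lit 3) .nil))))))) (.g (nat_lit 4) .nil .nil))))) (.nd (nat_lit 4) (.nd (nat_lit 5) 
(.lf (nat_lit 222156) (.g (nat_lit 1233) (.e (nat_lit 98317) (nat_lit 9) (.e (nat_lit 336088) (nat_lit 9) (.e (nat_lit 336019) (nat_lit 3) (.e (nat_lit 98377) (nat_lit 30) .nil)))) .nil)) 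
(.lf (nat_lit 222188) (.g (nat_lit 3127) (.e (nat_lit 98317) (nat_lit 9) (.e (nat_lit 336088) (nat_lit 9) (.e (nat_lit 336369) (nat_lit 27) (.e (nat_lit 426499) (nat_lit 27) (.e (nat_lit 335986) (nat_lit 1) (.e (nat_lit 57849) (nat_lit 252) (.e (nat_lit 57379) (nat_lit 3) .nil))))))) (.g (nat_lit 4) .nil .nil)))) (.nd (nat_lit 5) 
(.lf (nat_lit 222172) (.g (nat_lit 3142) (.e (nat_lit 98317) (nat_lit 9) (.e (nat_lit 336088) (nat_lit 9) (.e (nat_lit 336019) (nat_lit 3) (.e (nat_lit 98384) (nat_lit 32) (.e (nat_lit 475214) (nat_lit 42) (.e (nat_lit 720945) (nat_lit 23) .nil)))))) (.g (nat_lit 6) .nil .nil))) 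
(.lf (nat_lit 222204) (.g (nat_lit 2563) (.e (nat_lit 98317) (nat_lit 9) (.e (nat_lit 336088) (nat_lit 9) (.e (nat_lit 336454) (nat_lit 34) (.e (nat_lit 483364) (nat_lit 18) (.e (nat_lit 57853) (nat_lit 252) (.e (nat_lit 57377) (nat_lit 3) .nil)))))) (.g (nat_lit 4) .nil .nil))))))) (.nd (nat_lit 2) (.nd (nat_lit 3) (.nd (nat_lit 4) (.nd (nat_lit 5) 
(.lf (nat_lit 222146) (.g (nat_lit 2698) (.e (nat_lit 98317) (nat_lit 9) (.e (nat_lit 336088) (nat_lit 9) (.e (nat_lit 336019) (nat_lit 3) (.e (nat_lit 98356) (nat_lit 26) (.e (nat_lit 426449) (nat_lit 20) (.e (nat_lit 114718) (nat_lit 23) .nil)))))) (.g (nat_lit 5) .nil .nil))) 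
(.lf (nat_lit 222178) (.g (nat_lit 1808) (.e (nat_lit 98317) (nat_lit 9) (.e (nat_lit 336088) (nat_lit 9) (.e (nat_lit 336019) (nat_lit 3) (.e (nat_lit 98386) (nat_lit 32) (.e (nat_lit 483072) (nat_lit 42) (.e (nat_lit 720945) (nat_lit 23) .nil)))))) (.g (nat_lit 4) .nil .nil)))) (.nd (nat_lit 5) 
(.lf (nat_lit 222162) (.g (nat_lit 2657) (.e (nat_lit 98317) (nat_lit 9) (.e (nat_lit 336088) (nat_lit 9) (.e (nat_lit 336019) (nat_lit 3) (.e (nat_lit 98384) (nat_lit 32) (.e (nat_lit 475201) (nat_lit 40) (.e (nat_lit 704620) (nat_lit 9) (.e (nat_lit 1247) (nat_lit 92) .nil))))))) (.g (nat_lit 5) .nil .nil))) 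
(.lf (nat_lit 222194) (.g (nat_lit 3138) (.e (nat_lit 98317) (nat_lit 9) (.e (nat_lit 336088) (nat_lit 9) (.e (nat_lit 336370) (nat_lit 27) (.e (nat_lit 426499) (nat_lit 27) (.e (nat_lit 335986) (nat_lit 1) (.e (nat_lit 57847) (nat_lit 252) (.e (nat_lit 57378) (nat_lit 3) .nil))))))) (.g (nat_lit 5) .nil .nil))))) (.nd (nat_lit 4) (.nd (nat_lit 5) 
(.lf (nat_lit 222154) (.g (nat_lit 2437) (.e (nat_lit 98317) (nat_lit 9) (.e (nat_lit 336088) (nat_lit 9) (.e (nat_lit 336019) (nat_lit 3) (.e (nat_lit 98358) (nat_lit 26) (.e (nat_lit 433920) (nat_lit 20) (.e (nat_lit 114719) (nat_lit 23) .nil)))))) (.g (nat_lit 4) .nil .nil))) 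
(.lf (nat_lit 222186) (.g (nat_lit 478) (.e (nat_lit 98317) (nat_lit 9) (.e (nat_lit 336088) (nat_lit 9) (.e (nat_lit 336367) (nat_lit 27) .nil))) .nil))) (.nd (nat_lit 5) 
(.lf (nat_lit 222170) (.g (nat_lit 2218) (.e (nat_lit 98317) (nat_lit 9) (.e (nat_lit 336088) (nat_lit 9) (.e (nat_lit 336019) (nat_lit 3) (.e (nat_lit 98384) (nat_lit 32) (.e (nat_lit 475214) (nat_lit 42) (.e (nat_lit 720942) (nat_lit 23) .nil)))))) (.g (nat_lit 4) .nil .nil))) 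
(.lf (nat_lit 222202) (.g (nat_lit 1857) (.e (nat_lit 98317) (nat_lit 9) (.e (nat_lit 336088) (nat_lit 9) (.e (nat_lit 336452) (nat_lit 34) (.e (nat_lit 483364) (nat_lit 18) (.e (nat_lit 57852) (nat_lit 252) .nil))))) .nil))))) (.nd (nat_lit 3) (.nd (nat_lit 4) (.nd (nat_lit 5) 
(.lf (nat_lit 222150) (.g (nat_lit 3052) (.e (nat_lit 98317) (nat_lit 9) (.e (nat_lit 336088) (nat_lit 9) (.e (nat_lit 336019) (nat_lit 3) (.e (nat_lit 98358) (nat_lit 26) (.e (nat_lit 426354) (nat_lit 15) (.e (nat_lit 2198) (nat_lit 144) (.e (nat_lit 720945) (nat_lit 23) .nil))))))) (.g (nat_lit 5) .nil .nil))) 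
(.lf (nat_lit 222182) (.g (nat_lit 2001) (.e (nat_lit 98317) (nat_lit 9) (.e (nat_lit 336088) (nat_lit 9) (.e (nat_lit 336366) (nat_lit 27) (.e (nat_lit 426482) (nat_lit 27) (.e (nat_lit 335997) (nat_lit 1) .nil))))) .nil))) (.nd (nat_lit 5) 
(.lf (nat_lit 222166) (.g (nat_lit 2375) (.e (nat_lit 98317) (nat_lit 9) (.e (nat_lit 336088) (nat_lit 9) (.e (nat_lit 336019) (nat_lit 3) (.e (nat_lit 98384) (nat_lit 32) (.e (nat_lit 475201) (nat_lit 40) (.e (nat_lit 704659) (nat_lit 9) (.e (nat_lit 1255) (nat_lit 92) .nil))))))) (.g (nat_lit 4) .nil .nil))) 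
(.lf (nat_lit 222198) (.g (nat_lit 2436) (.e (nat_lit 98317) (nat_lit 9) (.e (nat_lit 336088) (nat_lit 9) (.e (nat_lit 336372) (nat_lit 27) (.e (nat_lit 426525) (nat_lit 27) (.e (nat_lit 335986) (nat_lit 1) (.e (nat_lit 57849) (nat_lit 252) (.e (nat_lit 57379) (nat_lit 3) .nil))))))) (.g (nat_lit 5) .nil .nil))))) (.nd (nat_lit 4) (.nd (nat_lit 5) 
(.lf (nat_lit 222158) (.g (nat_lit 1055) (.e (nat_lit 98317) (nat_lit 9) (.e (nat_lit 336088) (nat_lit 9) (.e (nat_lit 336019) (nat_lit 3) (.e (nat_lit 98384) (nat_lit 32) .nil)))) .nil)) 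
(.lf (nat_lit 222190) (.g (nat_lit 540) (.e (nat_lit 98317) (nat_lit 9) (.e (nat_lit 336088) (nat_lit 9) (.e (nat_lit 336370) (nat_lit 27) .nil))) .nil))) (.nd (nat_lit 5) 
(.lf (nat_lit 222174) (.g (nat_lit 2416) (.e (nat_lit 98317) (nat_lit 9) (.e (nat_lit 336088) (nat_lit 9) (.e (nat_lit 336019) (nat_lit 3) (.e (nat_lit 98384) (nat_lit 32) (.e (nat_lit 483072) (nat_lit 42) (.e (nat_lit 720945) (nat_lit 23) .nil)))))) (.g (nat_lit 4) .nil .nil))) 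
(.lf (nat_lit 222206) (.g (nat_lit 3818) (.e (nat_lit 98317) (nat_lit 9) (.e (nat_lit 336088) (nat_lit 9) (.e (nat_lit 336454) (nat_lit 34) (.e (nat_lit 483365) (nat_lit 18) (.e (nat_lit 57847) (nat_lit 252) (.e (nat_lit 57379) (nat_lit 3) .nil)))))) (.g (nat_lit 0) .nil .nil)))))))) (.nd (nat_lit 1) (.nd (nat_lit 2) (.nd (nat_lit 3) (.nd (nat_lit 4) (.nd (nat_lit 5) 
(.lf (nat_lit 222145) (.g (nat_lit 2475) (.e (nat_lit 98317) (nat_lit 9) (.e (nat_lit 336088) (nat_lit 9) (.e (nat_lit 336019) (nat_lit 3) (.e (nat_lit 98356) (nat_lit 26) (.e (nat_lit 426448) (nat_lit 20) (.e (nat_lit 122624) (nat_lit 23) .nil)))))) (.g (nat_lit 5) .nil .nil))) 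
(.lf (nat_lit 222177) (.g (nat_lit 2932) (.e (nat_lit 98317) (nat_lit 9) (.e (nat_lit 336088) (nat_lit 9) (.e (nat_lit 336019) (nat_lit 3) (.e (nat_lit 98386) (nat_lit 32) (.e (nat_lit 475214) (nat_lit 42) (.e (nat_lit 720945) (nat_lit 23) .nil)))))) (.g (nat_lit 5) .nil .nil)))) (.nd (nat_lit 5) 
(.lf (nat_lit 222161) (.g (nat_lit 1940) (.e (nat_lit 98317) (nat_lit 9) (.e (nat_lit 336088) (nat_lit 9) (.e (nat_lit 336019) (nat_lit 3) (.e (nat_lit 98384) (nat_lit 32) (.e (nat_lit 475201) (nat_lit 40) .nil))))) .nil)) 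
(.lf (nat_lit 222193) (.g (nat_lit 4491) (.e (nat_lit 98317) (nat_lit 9) (.e (nat_lit 336088) (nat_lit 9) (.e (nat_lit 336370) (nat_lit 27) (.e (nat_lit 426499) (nat_lit 27) (.e (nat_lit 335986) (nat_lit 1) (.e (nat_lit 57847) (nat_lit 252) (.e (nat_lit 57377) (nat_lit 3) .nil))))))) (.g (nat_lit 6) .nil .nil))))) (.nd (nat_lit 4) (.nd (nat_lit 5) 
(.lf (nat_lit 222153) (.g (nat_lit 2298) (.e (nat_lit 98317) (nat_lit 9) (.e (nat_lit 336088) (nat_lit 9) (.e (nat_lit 336019) (nat_lit 3) (.e (nat_lit 98358) (nat_lit 26) (.e (nat_lit 433920) (nat_lit 20) (.e (nat_lit 114718) (nat_lit 23) .nil)))))) (.g (nat_lit 4) .nil .nil))) 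
(.lf (nat_lit 222185) (.g (nat_lit 3303) (.e (nat_lit 98317) (nat_lit 9) (.e (nat_lit 336088) (nat_lit 9) (.e (nat_lit 336366) (nat_lit 27) (.e (nat_lit 426499) (nat_lit 27) (.e (nat_lit 335986) (nat_lit 1) (.e (nat_lit 57847) (nat_lit 252) (.e (nat_lit 57379) (nat_lit 3) .nil))))))) (.g (nat_lit 5) .nil .nil)))) (.nd (nat_lit 5) 
(.lf (nat_lit 222169) (.g (nat_lit 3136) (.e (nat_lit 98317) (nat_lit 9) (.e (nat_lit 336088) (nat_lit 9) (.e (nat_lit 336019) (nat_lit 3) (.e (nat_lit 98384) (nat_lit 32) (.e (nat_lit 475201) (nat_lit 40) (.e (nat_lit 704686) (nat_lit 9) (.e (nat_lit 1253) (nat_lit 92) .nil))))))) (.g (nat_lit 5) .nil .nil))) 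
(.lf (nat_lit 222201) (.g (nat_lit 2297) (.e (nat_lit 98317) (nat_lit 9) (.e (nat_lit 336088) (nat_lit 9) (.e (nat_lit 336452) (nat_lit 34) (.e (nat_lit 483363) (nat_lit 18) (.e (nat_lit 57854) (nat_lit 252) (.e (nat_lit 57377) (nat_lit 3) .nil)))))) (.g (nat_lit 4) .nil .nil)))))) (.nd (nat_lit 3) (.nd (nat_lit 4) (.nd (nat_lit 5) 
(.lf (nat_lit 222149) (.g (nat_lit 2004) (.e (nat_lit 98317) (nat_lit 9) (.e (nat_lit 336088) (nat_lit 9) (.e (nat_lit 336019) (nat_lit 3) (.e (nat_lit 98358) (nat_lit 26) (.e (nat_lit 426354) (nat_lit 15) .nil))))) .nil)) 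
(.lf (nat_lit 222181) (.g (nat_lit 2137) (.e (nat_lit 98317) (nat_lit 9) (.e (nat_lit 336088) (nat_lit 9) (.e (nat_lit 336324) (nat_lit 18) (.e (nat_lit 204838) (nat_lit 20) (.e (nat_lit 114712) (nat_lit 21) (.e (nat_lit 57692) (nat_lit 156) (.e (nat_lit 171776) (nat_lit 64) .nil))))))) (.g (nat_lit 4) .nil .nil)))) (.nd (nat_lit 5) 
(.lf (nat_lit 222165) (.g (nat_lit 2465) (.e (nat_lit 98317) (nat_lit 9) (.e (nat_lit 336088) (nat_lit 9) (.e (nat_lit 336019) (nat_lit 3) (.e (nat_lit 98384) (nat_lit 32) (.e (nat_lit 475201) (nat_lit 40) (.e (nat_lit 704658) (nat_lit 9) (.e (nat_lit 1255) (nat_lit 92) .nil))))))) (.g (nat_lit 4) .nil .nil))) 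
(.lf (nat_lit 222197) (.g (nat_lit 2545) (.e (nat_lit 98317) (nat_lit 9) (.e (nat_lit 336088) (nat_lit 9) (.e (nat_lit 336372) (nat_lit 27) (.e (nat_lit 426525) (nat_lit 27) (.e (nat_lit 335986) (nat_lit 1) (.e (nat_lit 57849) (nat_lit 252) (.e (nat_lit 57377) (nat_lit 3) .nil))))))) (.g (nat_lit 5) .nil .nil))))) (.nd (nat_lit 4) (.nd (nat_lit 5) 
(.lf (nat_lit 222157) (.g (nat_lit 1525) (.e (nat_lit 98317) (nat_lit 9) (.e (nat_lit 336088) (nat_lit 9) (.e (nat_lit 336019) (nat_lit 3) (.e (nat_lit 98383) (nat_lit 32) .nil)))) .nil)) 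
(.lf (nat_lit 222189) (.g (nat_lit 1646) (.e (nat_lit 98317) (nat_lit 9) (.e (nat_lit 336088) (nat_lit 9) (.e (nat_lit 336369) (nat_lit 27) (.e (nat_lit 426501) (nat_lit 27) .nil)))) .nil))) (.nd (nat_lit 5) 
(.lf (nat_lit 222173) (.g (nat_lit 2184) (.e (nat_lit 98317) (nat_lit 9) (.e (nat_lit 336088) (nat_lit 9) (.e (nat_lit 336019) (nat_lit 3) (.e (nat_lit 98384) (nat_lit 32) (.e (nat_lit 475214) (nat_lit 42) (.e (nat_lit 728832) (nat_lit 23) .nil)))))) (.g (nat_lit 5) .nil .nil))) 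
(.lf (nat_lit 222205) (.g (nat_lit 3475) (.e (nat_lit 98317) (nat_lit 9) (.e (nat_lit 336088) (nat_lit 9) (.e (nat_lit 336454) (nat_lit 34) (.e (nat_lit 483364) (nat_lit 18) (.e (nat_lit 57854) (nat_lit 252) (.e (nat_lit 57378) (nat_lit 3) .nil)))))) (.g (nat_lit 0) .nil .nil))))))) (.nd (nat_lit 2) (.nd (nat_lit 3) (.nd (nat_lit 4) (.nd (nat_lit 5) 
(.lf (nat_lit 222147) (.g (nat_lit 2107) (.e (nat_lit 98317) (nat_lit 9) (.e (nat_lit 336088) (nat_lit 9) (.e (nat_lit 336019) (nat_lit 3) (.e (nat_lit 98356) (nat_lit 26) (.e (nat_lit 426467) (nat_lit 24) (.e (nat_lit 155667) (nat_lit 9) (.e (nat_lit 1252) (nat_lit 92) .nil))))))) (.g (nat_lit 4) .nil .nil))) 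
(.lf (nat_lit 222179) (.g (nat_lit 2401) (.e (nat_lit 98317) (nat_lit 9) (.e (nat_lit 336088) (nat_lit 9) (.e (nat_lit 336324) (nat_lit 18) (.e (nat_lit 204838) (nat_lit 20) (.e (nat_lit 114710) (nat_lit 21) (.e (nat_lit 57692) (nat_lit 156) (.e (nat_lit 171776) (nat_lit 64) .nil))))))) (.g (nat_lit 4) .nil .nil)))) (.nd (nat_lit 5) 
(.lf (nat_lit 222163) (.g (nat_lit 1964) (.e (nat_lit 98317) (nat_lit 9) (.e (nat_lit 336088) (nat_lit 9) (.e (nat_lit 336019) (nat_lit 3) (.e (nat_lit 98384) (nat_lit 32) (.e (nat_lit 475201) (nat_lit 40) (.e (nat_lit 704620) (nat_lit 9) (.e (nat_lit 1254) (nat_lit 92) .nil))))))) (.g (nat_lit 4) .nil .nil))) 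
(.lf (nat_lit 222195) (.g (nat_lit 3242) (.e (nat_lit 98317) (nat_lit 9) (.e (nat_lit 336088) (nat_lit 9) (.e (nat_lit 336370) (nat_lit 27) (.e (nat_lit 426499) (nat_lit 27) (.e (nat_lit 335986) (nat_lit 1) (.e (nat_lit 57847) (nat_lit 252) (.e (nat_lit 57379) (nat_lit 3) .nil))))))) (.g (nat_lit 5) .nil .nil))))) (.nd (nat_lit 4) (.nd (nat_lit 5) 
(.lf (nat_lit 222155) (.g (nat_lit 2268) (.e (nat_lit 98317) (nat_lit 9) (.e (nat_lit 336088) (nat_lit 9) (.e (nat_lit 336019) (nat_lit 3) (.e (nat_lit 98363) (nat_lit 26) (.e (nat_lit 426447) (nat_lit 20) (.e (nat_lit 114719) (nat_lit 23) .nil)))))) (.g (nat_lit 4) .nil .nil))) 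
(.lf (nat_lit 222187) (.g (nat_lit 2456) (.e (nat_lit 98317) (nat_lit 9) (.e (nat_lit 336088) (nat_lit 9) (.e (nat_lit 336368) (nat_lit 27) (.e (nat_lit 426501) (nat_lit 27) (.e (nat_lit 335986) (nat_lit 1) (.e (nat_lit 57849) (nat_lit 252) (.e (nat_lit 57379) (nat_lit 3) .nil))))))) (.g (nat_lit 5) .nil .nil)))) (.nd (nat_lit 5) 
(.lf (nat_lit 222171) (.g (nat_lit 3150) (.e (nat_lit 98317) (nat_lit 9) (.e (nat_lit 336088) (nat_lit 9) (.e (nat_lit 336019) (nat_lit 3) (.e (nat_lit 98384) (nat_lit 32) (.e (nat_lit 475214) (nat_lit 42) (.e (nat_lit 720944) (nat_lit 23) .nil)))))) (.g (nat_lit 0) .nil .nil))) 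
(.lf (nat_lit 222203) (.g (nat_lit 3760) (.e (nat_lit 98317) (nat_lit 9) (.e (nat_lit 336088) (nat_lit 9) (.e (nat_lit 336454) (nat_lit 34) (.e (nat_lit 483363) (nat_lit 18) (.e (nat_lit 57847) (nat_lit 252) (.e (nat_lit 57379) (nat_lit 3) .nil)))))) (.g (nat_lit 0) .nil .nil)))))) (.nd (nat_lit 3) (.nd (nat_lit 4) (.nd (nat_lit 5) 
(.lf (nat_lit 222151) (.g (nat_lit 3636) (.e (nat_lit 98317) (nat_lit 9) (.e (nat_lit 336088) (nat_lit 9) (.e (nat_lit 336019) (nat_lit 3) (.e (nat_lit 98358) (nat_lit 26) (.e (nat_lit 426446) (nat_lit 20) (.e (nat_lit 114718) (nat_lit 23) .nil)))))) (.g (nat_lit 0) .nil .nil))) 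
(.lf (nat_lit 222183) (.g (nat_lit 4608) (.e (nat_lit 98317) (nat_lit 9) (.e (nat_lit 336088) (nat_lit 9) (.e (nat_lit 336366) (nat_lit 27) (.e (nat_lit 426499) (nat_lit 27) (.e (nat_lit 335986) (nat_lit 1) (.e (nat_lit 57847) (nat_lit 252) (.e (nat_lit 57377) (nat_lit 3) .nil))))))) (.g (nat_lit 6) .nil .nil)))) (.nd (nat_lit 5) 
(.lf (nat_lit 222167) (.g (nat_lit 2389) (.e (nat_lit 98317) (nat_lit 9) (.e (nat_lit 336088) (nat_lit 9) (.e (nat_lit 336019) (nat_lit 3) (.e (nat_lit 98384) (nat_lit 32) (.e (nat_lit 475201) (nat_lit 40) (.e (nat_lit 704662) (nat_lit 9) (.e (nat_lit 1247) (nat_lit 92) .nil))))))) (.g (nat_lit 4) .nil .nil))) 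
(.lf (nat_lit 222199) (.g (nat_lit 2321) (.e (nat_lit 98317) (nat_lit 9) (.e (nat_lit 336088) (nat_lit 9) (.e (nat_lit 336395) (nat_lit 27) (.e (nat_lit 426499) (nat_lit 27) (.e (nat_lit 335986) (nat_lit 1) (.e (nat_lit 57849) (nat_lit 252) (.e (nat_lit 57379) (nat_lit 3) .nil))))))) (.g (nat_lit 4) .nil .nil))))) (.nd (nat_lit 4) (.nd (nat_lit 5) 
(.lf (nat_lit 222159) (.g (nat_lit 2466) (.e (nat_lit 98317) (nat_lit 9) (.e (nat_lit 336088) (nat_lit 9) (.e (nat_lit 336019) (nat_lit 3) (.e (nat_lit 98384) (nat_lit 32) (.e (nat_lit 475198) (nat_lit 40) (.e (nat_lit 704680) (nat_lit 9) (.e (nat_lit 1253) (nat_lit 92) .nil))))))) (.g (nat_lit 5) .nil .nil))) 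
(.lf (nat_lit 222191) (.g (nat_lit 2611) (.e (nat_lit 98317) (nat_lit 9) (.e (nat_lit 336088) (nat_lit 9) (.e (nat_lit 336370) (nat_lit 27) (.e (nat_lit 426497) (nat_lit 27) (.e (nat_lit 335986) (nat_lit 1) (.e (nat_lit 57849) (nat_lit 252) (.e (nat_lit 57377) (nat_lit 3) .nil))))))) (.g (nat_lit 5) .nil .nil)))) (.nd (nat_lit 5) 
(.lf (nat_lit 222175) (.g (nat_lit 2414) (.e (nat_lit 98317) (nat_lit 9) (.e (nat_lit 336088) (nat_lit 9) (.e (nat_lit 336019) (nat_lit 3) (.e (nat_lit 98384) (nat_lit 32) (.e (nat_lit 475215) (nat_lit 43) (.e (nat_lit 729114) (nat_lit 23) .nil)))))) (.g (nat_lit 4) .nil .nil))) 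
(.lf (nat_lit 222207) (.g (nat_lit 4371) (.e (nat_lit 98317) (nat_lit 9) (.e (nat_lit 336088) (nat_lit 9) (.e (nat_lit 336454) (nat_lit 34) (.e (nat_lit 483365) (nat_lit 18) (.e (nat_lit 57849) (nat_lit 252) (.e (nat_lit 57377) (nat_lit 3) .nil)))))) (.g (nat_lit 0) .nil .nil)))))))))

noncomputable def tv2918 : DT := (.nd (nat_lit 0) (.nd (nat_lit 1) (.nd (nat_lit 2) (.nd (nat_lit 3) (.nd (nat_lit 4) (.nd (nat_lit 5) 
(.lf (nat_lit 222208) (.g (nat_lit 4056) (.e (nat_lit 98317) (nat_lit 9) (.e (nat_lit 336088) (nat_lit 9) (.e (nat_lit 336454) (nat_lit 34) (.e (nat_lit 483365) (nat_lit 18) (.e (nat_lit 57854) (nat_lit 252) (.e (nat_lit 57378) (nat_lit 3) .nil)))))) (.g (nat_lit 0) .nil .nil))) 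
(.lf (nat_lit 222240) (.g (nat_lit 1729) (.e (nat_lit 98317) (nat_lit 9) (.e (nat_lit 336184) (nat_lit 11) (.e (nat_lit 368676) (nat_lit 21) (.e (nat_lit 516146) (nat_lit 9) (.e (nat_lit 426440) (nat_lit 19) (.e (nat_lit 106526) (nat_lit 9) (.e (nat_lit 1247) (nat_lit 92) .nil))))))) (.g (nat_lit 4) .nil .nil)))) (.nd (nat_lit 5) 
(.lf (nat_lit 222224) (.g (nat_lit 1762) (.e (nat_lit 98317) (nat_lit 9) (.e (nat_lit 336108) (nat_lit 9) (.e (nat_lit 336001) (nat_lit 2) (.e (nat_lit 90170) (nat_lit 13) (.e (nat_lit 179968) (nat_lit 20) (.e (nat_lit 114719) (nat_lit 23) .nil)))))) (.g (nat_lit 4) .nil .nil))) 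
(.lf (nat_lit 222256) (.g (nat_lit 2402) (.e (nat_lit 98317) (nat_lit 9) (.e (nat_lit 336184) (nat_lit 11) (.e (nat_lit 368676) (nat_lit 21) (.e (nat_lit 516179) (nat_lit 15) (.e (nat_lit 475199) (nat_lit 40) (.e (nat_lit 704680) (nat_lit 9) (.e (nat_lit 1253) (nat_lit 92) .nil))))))) (.g (nat_lit 5) .nil .nil))))) (.nd (nat_lit 4) (.nd (nat_lit 5) 
(.lf (nat_lit 222216) (.g (nat_lit 1771) (.e (nat_lit 98317) (nat_lit 9) (.e (nat_lit 336088) (nat_lit 9) (.e (nat_lit 336456) (nat_lit 34) (.e (nat_lit 483359) (nat_lit 17) (.e (nat_lit 1037) (nat_lit 81) .nil))))) .nil)) 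
(.lf (nat_lit 222248) (.g (nat_lit 1538) (.e (nat_lit 98317) (nat_lit 9) (.e (nat_lit 336184) (nat_lit 11) (.e (nat_lit 368676) (nat_lit 21) (.e (nat_lit 516149) (nat_lit 9) (.e (nat_lit 433920) (nat_lit 20) (.e (nat_lit 114719) (nat_lit 23) .nil)))))) (.g (nat_lit 4) .nil .nil)))) (.nd (nat_lit 5) 
(.lf (nat_lit 222232) (.g (nat_lit 3134) (.e (nat_lit 98317) (nat_lit 9) (.e (nat_lit 336163) (nat_lit 10) (.e (nat_lit 344117) (nat_lit 21) (.e (nat_lit 516145) (nat_lit 9) (.e (nat_lit 426449) (nat_lit 20) (.e (nat_lit 114719) (nat_lit 23) .nil)))))) (.g (nat_lit 4) .nil .nil))) 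
(.lf (nat_lit 222264) (.g (nat_lit 1408) (.e (nat_lit 98317) (nat_lit 9) (.e (nat_lit 336184) (nat_lit 11) (.e (nat_lit 368676) (nat_lit 21) (.e (nat_lit 516179) (nat_lit 15) (.e (nat_lit 475215) (nat_lit 43) (.e (nat_lit 729114) (nat_lit 23) .nil)))))) (.g (nat_lit 4) .nil .nil)))))) (.nd (nat_lit 3) (.nd (nat_lit 4) (.nd (nat_lit 5) 
(.lf (nat_lit 222212) (.g (nat_lit 2445) (.e (nat_lit 98317) (nat_lit 9) (.e (nat_lit 336088) (nat_lit 9) (.e (nat_lit 336455) (nat_lit 34) (.e (nat_lit 483363) (nat_lit 18) (.e (nat_lit 57854) (nat_lit 252) .nil))))) .nil)) 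
(.lf (nat_lit 222244) (.g (nat_lit 1832) (.e (nat_lit 98317) (nat_lit 9) (.e (nat_lit 336184) (nat_lit 11) (.e (nat_lit 368676) (nat_lit 21) (.e (nat_lit 516146) (nat_lit 9) (.e (nat_lit 426467) (nat_lit 24) (.e (nat_lit 155667) (nat_lit 9) (.e (nat_lit 1252) (nat_lit 92) .nil))))))) (.g (nat_lit 4) .nil .nil)))) (.nd (nat_lit 5) 
(.lf (nat_lit 222228) (.g (nat_lit 3793) (.e (nat_lit 98317) (nat_lit 9) (.e (nat_lit 336163) (nat_lit 10) (.e (nat_lit 344117) (nat_lit 21) (.e (nat_lit 516145) (nat_lit 9) (.e (nat_lit 426446) (nat_lit 20) (.e (nat_lit 114718) (nat_lit 23) .nil)))))) (.g (nat_lit 5) .nil .nil))) 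
(.lf (nat_lit 222260) (.g (nat_lit 1807) (.e (nat_lit 98317) (nat_lit 9) (.e (nat_lit 336184) (nat_lit 11) (.e (nat_lit 368676) (nat_lit 21) (.e (nat_lit 516179) (nat_lit 15) (.e (nat_lit 475201) (nat_lit 40) (.e (nat_lit 704658) (nat_lit 9) (.e (nat_lit 1255) (nat_lit 92) .nil))))))) (.g (nat_lit 4) .nil .nil))))) (.nd (nat_lit 4) (.nd (nat_lit 5) 
(.lf (nat_lit 222220) (.g (nat_lit 3546) (.e (nat_lit 98317) (nat_lit 9) (.e (nat_lit 336088) (nat_lit 9) (.e (nat_lit 336456) (nat_lit 34) (.e (nat_lit 483365) (nat_lit 18) (.e (nat_lit 57847) (nat_lit 252) (.e (nat_lit 57379) (nat_lit 3) .nil)))))) (.g (nat_lit 0) .nil .nil))) 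
(.lf (nat_lit 222252) (.g (nat_lit 2851) (.e (nat_lit 98317) (nat_lit 9) (.e (nat_lit 336184) (nat_lit 11) (.e (nat_lit 368676) (nat_lit 21) (.e (nat_lit 516151) (nat_lit 9) (.e (nat_lit 433920) (nat_lit 20) (.e (nat_lit 114719) (nat_lit 23) .nil)))))) (.g (nat_lit 4) .nil .nil)))) (.nd (nat_lit 5) 
(.lf (nat_lit 222236) (.g (nat_lit 2546) (.e (nat_lit 98317) (nat_lit 9) (.e (nat_lit 336165) (nat_lit 10) (.e (nat_lit 344117) (nat_lit 21) (.e (nat_lit 516151) (nat_lit 9) (.e (nat_lit 433920) (nat_lit 20) (.e (nat_lit 114718) (nat_lit 23) .nil)))))) (.g (nat_lit 4) .nil .nil))) 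
(.lf (nat_lit 222268) (.g (nat_lit 1757) (.e (nat_lit 98317) (nat_lit 9) (.e (nat_lit 336184) (nat_lit 11) (.e (nat_lit 368676) (nat_lit 21) (.e (nat_lit 516182) (nat_lit 15) (.e (nat_lit 475197) (nat_lit 40) (.e (nat_lit 704612) (nat_lit 9) (.e (nat_lit 1248) (nat_lit 92) .nil))))))) (.g (nat_lit 5) .nil .nil))))))) (.nd (nat_lit 2) (.nd (nat_lit 3) (.nd (nat_lit 4) (.nd (nat_lit 5) 
(.lf (nat_lit 222210) (.g (nat_lit 3271) (.e (nat_lit 98317) (nat_lit 9) (.e (nat_lit 336088) (nat_lit 9) (.e (nat_lit 336454) (nat_lit 34) (.e (nat_lit 483366) (nat_lit 18) (.e (nat_lit 57848) (nat_lit 252) (.e (nat_lit 57379) (nat_lit 3) .nil)))))) (.g (nat_lit 0) .nil .nil))) 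
(.lf (nat_lit 222242) (.g (nat_lit 3855) (.e (nat_lit 98317) (nat_lit 9) (.e (nat_lit 336184) (nat_lit 11) (.e (nat_lit 368676) (nat_lit 21) (.e (nat_lit 516146) (nat_lit 9) (.e (nat_lit 426448) (nat_lit 20) (.e (nat_lit 114719) (nat_lit 23) .nil)))))) (.g (nat_lit 0) .nil .nil)))) (.nd (nat_lit 5) 
(.lf (nat_lit 222226) (.g (nat_lit 2283) (.e (nat_lit 98317) (nat_lit 9) (.e (nat_lit 336155) (nat_lit 9) (.e (nat_lit 336021) (nat_lit 3) (.e (nat_lit 98363) (nat_lit 26) (.e (nat_lit 426447) (nat_lit 20) (.e (nat_lit 114719) (nat_lit 23) .nil)))))) (.g (nat_lit 4) .nil .nil))) 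
(.lf (nat_lit 222258) (.g (nat_lit 1803) (.e (nat_lit 98317) (nat_lit 9) (.e (nat_lit 336184) (nat_lit 11) (.e (nat_lit 368676) (nat_lit 21) (.e (nat_lit 516179) (nat_lit 15) (.e (nat_lit 475201) (nat_lit 40) (.e (nat_lit 704620) (nat_lit 9) (.e (nat_lit 1247) (nat_lit 92) .nil))))))) (.g (nat_lit 4) .nil .nil))))) (.nd (nat_lit 4) (.nd (nat_lit 5) 
(.lf (nat_lit 222218) (.g (nat_lit 3588) (.e (nat_lit 98317) (nat_lit 9) (.e (nat_lit 336088) (nat_lit 9) (.e (nat_lit 336456) (nat_lit 34) (.e (nat_lit 483364) (nat_lit 18) (.e (nat_lit 57854) (nat_lit 252) (.e (nat_lit 57378) (nat_lit 3) .nil)))))) (.g (nat_lit 0) .nil .nil))) 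
(.lf (nat_lit 222250) (.g (nat_lit 1979) (.e (nat_lit 98317) (nat_lit 9) (.e (nat_lit 336184) (nat_lit 11) (.e (nat_lit 368676) (nat_lit 21) (.e (nat_lit 516150) (nat_lit 9) (.e (nat_lit 433920) (nat_lit 20) (.e (nat_lit 114718) (nat_lit 23) .nil)))))) (.g (nat_lit 4) .nil .nil)))) (.nd (nat_lit 5) 
(.lf (nat_lit 222234) (.g (nat_lit 3512) (.e (nat_lit 98317) (nat_lit 9) (.e (nat_lit 336163) (nat_lit 10) (.e (nat_lit 344117) (nat_lit 21) (.e (nat_lit 516147) (nat_lit 9) (.e (nat_lit 426448) (nat_lit 20) (.e (nat_lit 114718) (nat_lit 23) .nil)))))) (.g (nat_lit 6) .nil .nil))) 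
(.lf (nat_lit 222266) (.g (nat_lit 1955) (.e (nat_lit 98317) (nat_lit 9) (.e (nat_lit 336184) (nat_lit 11) (.e (nat_lit 368676) (nat_lit 21) (.e (nat_lit 516181) (nat_lit 15) (.e (nat_lit 475212) (nat_lit 42) (.e (nat_lit 720945) (nat_lit 23) .nil)))))) (.g (nat_lit 5) .nil .nil)))))) (.nd (nat_lit 3) (.nd (nat_lit 4) (.nd (nat_lit 5) 
(.lf (nat_lit 222214) (.g (nat_lit 2471) (.e (nat_lit 98317) (nat_lit 9) (.e (nat_lit 336088) (nat_lit 9) (.e (nat_lit 336456) (nat_lit 34) (.e (nat_lit 483346) (nat_lit 17) (.e (nat_lit 1095) (nat_lit 81) .nil))))) .nil)) 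
(.lf (nat_lit 222246) (.g (nat_lit 3283) (.e (nat_lit 98317) (nat_lit 9) (.e (nat_lit 336184) (nat_lit 11) (.e (nat_lit 368676) (nat_lit 21) (.e (nat_lit 516148) (nat_lit 9) (.e (nat_lit 426448) (nat_lit 20) (.e (nat_lit 114719) (nat_lit 23) .nil)))))) (.g (nat_lit 0) .nil .nil)))) (.nd (nat_lit 5) 
(.lf (nat_lit 222230) (.g (nat_lit 5229) (.e (nat_lit 98317) (nat_lit 9) (.e (nat_lit 336163) (nat_lit 10) (.e (nat_lit 344117) (nat_lit 21) (.e (nat_lit 516145) (nat_lit 9) (.e (nat_lit 426448) (nat_lit 20) (.e (nat_lit 114718) (nat_lit 23) .nil)))))) (.g (nat_lit 6) .nil .nil))) 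
(.lf (nat_lit 222262) (.g (nat_lit 1848) (.e (nat_lit 98317) (nat_lit 9) (.e (nat_lit 336184) (nat_lit 11) (.e (nat_lit 368676) (nat_lit 21) (.e (nat_lit 516179) (nat_lit 15) (.e (nat_lit 475214) (nat_lit 42) (.e (nat_lit 728832) (nat_lit 23) .nil)))))) (.g (nat_lit 5) .nil .nil))))) (.nd (nat_lit 4) (.nd (nat_lit 5) 
(.lf (nat_lit 222222) (.g (nat_lit 1548) (.e (nat_lit 98317) (nat_lit 9) (.e (nat_lit 336105) (nat_lit 9) (.e (nat_lit 336028) (nat_lit 3) (.e (nat_lit 98359) (nat_lit 26) (.e (nat_lit 433920) (nat_lit 20) (.e (nat_lit 114718) (nat_lit 23) .nil)))))) (.g (nat_lit 4) .nil .nil))) 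
(.lf (nat_lit 222254) (.g (nat_lit 2307) (.e (nat_lit 98317) (nat_lit 9) (.e (nat_lit 336184) (nat_lit 11) (.e (nat_lit 368676) (nat_lit 21) (.e (nat_lit 516179) (nat_lit 15) (.e (nat_lit 475197) (nat_lit 40) (.e (nat_lit 704612) (nat_lit 9) (.e (nat_lit 1248) (nat_lit 92) .nil))))))) (.g (nat_lit 4) .nil .nil)))) (.nd (nat_lit 5) 
(.lf (nat_lit 222238) (.g (nat_lit 1523) (.e (nat_lit 98317) (nat_lit 9) (.e (nat_lit 336184) (nat_lit 11) (.e (nat_lit 368676) (nat_lit 21) (.e (nat_lit 516146) (nat_lit 9) (.e (nat_lit 426361) (nat_lit 15) (.e (nat_lit 2195) (nat_lit 144) (.e (nat_lit 720945) (nat_lit 23) .nil))))))) (.g (nat_lit 4) .nil .nil))) 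
(.lf (nat_lit 222270) (.g (nat_lit 1800) (.e (nat_lit 98317) (nat_lit 9) (.e (nat_lit 336185) (nat_lit 11) (.e (nat_lit 368676) (nat_lit 21) (.e (nat_lit 516146) (nat_lit 9) (.e (nat_lit 433920) (nat_lit 20) (.e (nat_lit 114718) (nat_lit 23) .nil)))))) (.g (nat_lit 4) .nil .nil)))))))) (.nd (nat_lit 1) (.nd (nat_lit 2) (.nd (nat_lit 3) (.nd (nat_lit 4) (.nd (nat_lit 5) 
(.lf (nat_lit 222209) (.g (nat_lit 3343) (.e (nat_lit 98317) (nat_lit 9) (.e (nat_lit 336088) (nat_lit 9) (.e (nat_lit 336454) (nat_lit 34) (.e (nat_lit 483366) (nat_lit 18) (.e (nat_lit 57847) (nat_lit 252) (.e (nat_lit 57379) (nat_lit 3) .nil)))))) (.g (nat_lit 0) .nil .nil))) 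
(.lf (nat_lit 222241) (.g (nat_lit 1796) (.e (nat_lit 98317) (nat_lit 9) (.e (nat_lit 336184) (nat_lit 11) (.e (nat_lit 368676) (nat_lit 21) (.e (nat_lit 516146) (nat_lit 9) (.e (nat_lit 426444) (nat_lit 19) (.e (nat_lit 106504) (nat_lit 9) (.e (nat_lit 1255) (nat_lit 92) .nil))))))) (.g (nat_lit 4) .nil .nil)))) (.nd (nat_lit 5) 
(.lf (nat_lit 222225) (.g (nat_lit 2116) (.e (nat_lit 98317) (nat_lit 9) (.e (nat_lit 336108) (nat_lit 9) (.e (nat_lit 336028) (nat_lit 3) (.e (nat_lit 98359) (nat_lit 26) (.e (nat_lit 433920) (nat_lit 20) (.e (nat_lit 114718) (nat_lit 23) .nil)))))) (.g (nat_lit 4) .nil .nil))) 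
(.lf (nat_lit 222257) (.g (nat_lit 1662) (.e (nat_lit 98317) (nat_lit 9) (.e (nat_lit 336184) (nat_lit 11) (.e (nat_lit 368676) (nat_lit 21) (.e (nat_lit 516179) (nat_lit 15) (.e (nat_lit 475201) (nat_lit 40) (.e (nat_lit 704620) (nat_lit 9) (.e (nat_lit 1246) (nat_lit 92) .nil))))))) (.g (nat_lit 4) .nil .nil))))) (.nd (nat_lit 4) (.nd (nat_lit 5) 
(.lf (nat_lit 222217) (.g (nat_lit 3567) (.e (nat_lit 98317) (nat_lit 9) (.e (nat_lit 336088) (nat_lit 9) (.e (nat_lit 336456) (nat_lit 34) (.e (nat_lit 483363) (nat_lit 18) (.e (nat_lit 57854) (nat_lit 252) (.e (nat_lit 57378) (nat_lit 3) .nil)))))) (.g (nat_lit 6) .nil .nil))) 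
(.lf (nat_lit 222249) (.g (nat_lit 3375) (.e (nat_lit 98317) (nat_lit 9) (.e (nat_lit 336184) (nat_lit 11) (.e (nat_lit 368676) (nat_lit 21) (.e (nat_lit 516150) (nat_lit 9) (.e (nat_lit 426448) (nat_lit 20) (.e (nat_lit 114719) (nat_lit 23) .nil)))))) (.g (nat_lit 0) .nil .nil)))) (.nd (nat_lit 5) 
(.lf (nat_lit 222233) (.g (nat_lit 2449) (.e (nat_lit 98317) (nat_lit 9) (.e (nat_lit 336163) (nat_lit 10) (.e (nat_lit 344117) (nat_lit 21) (.e (nat_lit 516145) (nat_lit 9) (.e (nat_lit 433920) (nat_lit 20) .nil))))) .nil)) 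
(.lf (nat_lit 222265) (.g (nat_lit 1029) (.e (nat_lit 98317) (nat_lit 9) (.e (nat_lit 336184) (nat_lit 11) (.e (nat_lit 368676) (nat_lit 21) (.e (nat_lit 516181) (nat_lit 15) (.e (nat_lit 483072) (nat_lit 40) .nil))))) .nil))))) (.nd (nat_lit 3) (.nd (nat_lit 4) (.nd (nat_lit 5) 
(.lf (nat_lit 222213) (.g (nat_lit 1178) (.e (nat_lit 98317) (nat_lit 9) (.e (nat_lit 336088) (nat_lit 9) (.e (nat_lit 336455) (nat_lit 34) (.e (nat_lit 483364) (nat_lit 18) .nil)))) .nil)) 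
(.lf (nat_lit 222245) (.g (nat_lit 1742) (.e (nat_lit 98317) (nat_lit 9) (.e (nat_lit 336184) (nat_lit 11) (.e (nat_lit 368676) (nat_lit 21) (.e (nat_lit 516146) (nat_lit 9) (.e (nat_lit 426467) (nat_lit 24) (.e (nat_lit 155667) (nat_lit 9) (.e (nat_lit 1253) (nat_lit 92) .nil))))))) (.g (nat_lit 4) .nil .nil)))) (.nd (nat_lit 5) 
(.lf (nat_lit 222229) (.g (nat_lit 3741) (.e (nat_lit 98317) (nat_lit 9) (.e (nat_lit 336163) (nat_lit 10) (.e (nat_lit 344117) (nat_lit 21) (.e (nat_lit 516145) (nat_lit 9) (.e (nat_lit 426446) (nat_lit 20) (.e (nat_lit 114719) (nat_lit 23) .nil)))))) (.g (nat_lit 5) .nil .nil))) 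
(.lf (nat_lit 222261) (.g (nat_lit 3025) (.e (nat_lit 98317) (nat_lit 9) (.e (nat_lit 336184) (nat_lit 11) (.e (nat_lit 368676) (nat_lit 21) (.e (nat_lit 516179) (nat_lit 15) (.e (nat_lit 475214) (nat_lit 42) (.e (nat_lit 720945) (nat_lit 23) .nil)))))) (.g (nat_lit 0) .nil .nil))))) (.nd (nat_lit 4) (.nd (nat_lit 5) 
(.lf (nat_lit 222221) (.g (nat_lit 3821) (.e (nat_lit 98317) (nat_lit 9) (.e (nat_lit 336088) (nat_lit 9) (.e (nat_lit 336456) (nat_lit 34) (.e (nat_lit 483365) (nat_lit 18) (.e (nat_lit 57854) (nat_lit 252) (.e (nat_lit 57378) (nat_lit 3) .nil)))))) (.g (nat_lit 0) .nil .nil))) 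
(.lf (nat_lit 222253) (.g (nat_lit 1427) (.e (nat_lit 98317) (nat_lit 9) (.e (nat_lit 336184) (nat_lit 11) (.e (nat_lit 368676) (nat_lit 21) (.e (nat_lit 516178) (nat_lit 15) (.e (nat_lit 475212) (nat_lit 42) .nil))))) .nil))) (.nd (nat_lit 5) 
(.lf (nat_lit 222237) (.g (nat_lit 1639) (.e (nat_lit 98317) (nat_lit 9) (.e (nat_lit 336184) (nat_lit 11) (.e (nat_lit 368676) (nat_lit 21) (.e (nat_lit 516146) (nat_lit 9) (.e (nat_lit 426360) (nat_lit 15) (.e (nat_lit 2210) (nat_lit 145) (.e (nat_lit 729114) (nat_lit 23) .nil))))))) (.g (nat_lit 4) .nil .nil))) 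
(.lf (nat_lit 222269) (.g (nat_lit 1862) (.e (nat_lit 98317) (nat_lit 9) (.e (nat_lit 336184) (nat_lit 11) (.e (nat_lit 368676) (nat_lit 21) (.e (nat_lit 516182) (nat_lit 15) (.e (nat_lit 475214) (nat_lit 42) (.e (nat_lit 720945) (nat_lit 23) .nil)))))) (.g (nat_lit 5) .nil .nil))))))) (.nd (nat_lit 2) (.nd (nat_lit 3) (.nd (nat_lit 4) (.nd (nat_lit 5) 
(.lf (nat_lit 222211) (.g (nat_lit 3592) (.e (nat_lit 98317) (nat_lit 9) (.e (nat_lit 336088) (nat_lit 9) (.e (nat_lit 336454) (nat_lit 34) (.e (nat_lit 483366) (nat_lit 18) (.e (nat_lit 57849) (nat_lit 252) (.e (nat_lit 57379) (nat_lit 3) .nil)))))) (.g (nat_lit 0) .nil .nil))) 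
(.lf (nat_lit 222243) (.g (nat_lit 1942) (.e (nat_lit 98317) (nat_lit 9) (.e (nat_lit 336184) (nat_lit 11) (.e (nat_lit 368676) (nat_lit 21) (.e (nat_lit 516146) (nat_lit 9) (.e (nat_lit 426448) (nat_lit 20) (.e (nat_lit 122624) (nat_lit 23) .nil)))))) (.g (nat_lit 5) .nil .nil)))) (.nd (nat_lit 5) 
(.lf (nat_lit 222227) (.g (nat_lit 3005) (.e (nat_lit 98317) (nat_lit 9) (.e (nat_lit 343808) (nat_lit 9) (.e (nat_lit 336013) (nat_lit 2) (.e (nat_lit 90170) (nat_lit 13) (.e (nat_lit 179968) (nat_lit 20) (.e (nat_lit 114718) (nat_lit 23) .nil)))))) (.g (nat_lit 4) .nil .nil))) 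
(.lf (nat_lit 222259) (.g (nat_lit 1975) (.e (nat_lit 98317) (nat_lit 9) (.e (nat_lit 336184) (nat_lit 11) (.e (nat_lit 368676) (nat_lit 21) (.e (nat_lit 516179) (nat_lit 15) (.e (nat_lit 475201) (nat_lit 40) (.e (nat_lit 704620) (nat_lit 9) (.e (nat_lit 1254) (nat_lit 92) .nil))))))) (.g (nat_lit 5) .nil .nil))))) (.nd (nat_lit 4) (.nd (nat_lit 5) 
(.lf (nat_lit 222219) (.g (nat_lit 1920) (.e (nat_lit 98317) (nat_lit 9) (.e (nat_lit 336088) (nat_lit 9) (.e (nat_lit 336456) (nat_lit 34) (.e (nat_lit 483365) (nat_lit 18) (.e (nat_lit 57844) (nat_lit 252) .nil))))) .nil)) 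
(.lf (nat_lit 222251) (.g (nat_lit 2480) (.e (nat_lit 98317) (nat_lit 9) (.e (nat_lit 336184) (nat_lit 11) (.e (nat_lit 368676) (nat_lit 21) (.e (nat_lit 516151) (nat_lit 9) (.e (nat_lit 433920) (nat_lit 20) .nil))))) .nil))) (.nd (nat_lit 5) 
(.lf (nat_lit 222235) (.g (nat_lit 2617) (.e (nat_lit 98317) (nat_lit 9) (.e (nat_lit 336165) (nat_lit 10) (.e (nat_lit 344117) (nat_lit 21) (.e (nat_lit 516145) (nat_lit 9) (.e (nat_lit 426446) (nat_lit 20) (.e (nat_lit 114718) (nat_lit 23) .nil)))))) (.g (nat_lit 4) .nil .nil))) 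
(.lf (nat_lit 222267) (.g (nat_lit 2231) (.e (nat_lit 98317) (nat_lit 9) (.e (nat_lit 336184) (nat_lit 11) (.e (nat_lit 368676) (nat_lit 21) (.e (nat_lit 516181) (nat_lit 15) (.e (nat_lit 475214) (nat_lit 42) (.e (nat_lit 720945) (nat_lit 23) .nil)))))) (.g (nat_lit 5) .nil .nil)))))) (.nd (nat_lit 3) (.nd (nat_lit 4) (.nd (nat_lit 5) 
(.lf (nat_lit 222215) (.g (nat_lit 1644) (.e (nat_lit 98317) (nat_lit 9) (.e (nat_lit 336088) (nat_lit 9) (.e (nat_lit 336456) (nat_lit 34) (.e (nat_lit 483357) (nat_lit 17) .nil)))) .nil)) 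
(.lf (nat_lit 222247) (.g (nat_lit 1433) (.e (nat_lit 98317) (nat_lit 9) (.e (nat_lit 336184) (nat_lit 11) (.e (nat_lit 368676) (nat_lit 21) (.e (nat_lit 516149) (nat_lit 9) (.e (nat_lit 433920) (nat_lit 20) (.e (nat_lit 114718) (nat_lit 23) .nil)))))) (.g (nat_lit 4) .nil .nil)))) (.nd (nat_lit 5) 
(.lf (nat_lit 222231) (.g (nat_lit 5272) (.e (nat_lit 98317) (nat_lit 9) (.e (nat_lit 336163) (nat_lit 10) (.e (nat_lit 344117) (nat_lit 21) (.e (nat_lit 516145) (nat_lit 9) (.e (nat_lit 426448) (nat_lit 20) (.e (nat_lit 114719) (nat_lit 23) .nil)))))) (.g (nat_lit 6) .nil .nil))) 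
(.lf (nat_lit 222263) (.g (nat_lit 1849) (.e (nat_lit 98317) (nat_lit 9) (.e (nat_lit 336184) (nat_lit 11) (.e (nat_lit 368676) (nat_lit 21) (.e (nat_lit 516179) (nat_lit 15) (.e (nat_lit 483072) (nat_lit 42) (.e (nat_lit 720945) (nat_lit 23) .nil)))))) (.g (nat_lit 4) .nil .nil))))) (.nd (nat_lit 4) (.nd (nat_lit 5) 
(.lf (nat_lit 222223) (.g (nat_lit 1768) (.e (nat_lit 98317) (nat_lit 9) (.e (nat_lit 336105) (nat_lit 9) (.e (nat_lit 336028) (nat_lit 3) (.e (nat_lit 98359) (nat_lit 26) (.e (nat_lit 433920) (nat_lit 20) (.e (nat_lit 114719) (nat_lit 23) .nil)))))) (.g (nat_lit 4) .nil .nil))) 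
(.lf (nat_lit 222255) (.g (nat_lit 2991) (.e (nat_lit 98317) (nat_lit 9) (.e (nat_lit 336184) (nat_lit 11) (.e (nat_lit 368676) (nat_lit 21) (.e (nat_lit 516179) (nat_lit 15) (.e (nat_lit 475199) (nat_lit 40) (.e (nat_lit 704607) (nat_lit 9) (.e (nat_lit 1256) (nat_lit 92) .nil))))))) (.g (nat_lit 5) .nil .nil)))) (.nd (nat_lit 5) 
(.lf (nat_lit 222239) (.g (nat_lit 1720) (.e (nat_lit 98317) (nat_lit 9) (.e (nat_lit 336184) (nat_lit 11) (.e (nat_lit 368676) (nat_lit 21) (.e (nat_lit 516146) (nat_lit 9) (.e (nat_lit 426440) (nat_lit 19) (.e (nat_lit 106517) (nat_lit 9) (.e (nat_lit 1255) (nat_lit 92) .nil))))))) (.g (nat_lit 4) .nil .nil))) 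
(.lf (nat_lit 222271) (.g (nat_lit 1842) (.e (nat_lit 98317) (nat_lit 9) (.e (nat_lit 336185) (nat_lit 11) (.e (nat_lit 368676) (nat_lit 21) (.e (nat_lit 516146) (nat_lit 9) (.e (nat_lit 433920) (nat_lit 20) (.e (nat_lit 114719) (nat_lit 23) .nil)))))) (.g (nat_lit 4) .nil .nil)))))))))

noncomputable def tv2919 : DT := (.nd (nat_lit 0) (.nd (nat_lit 1) (.nd (nat_lit 2) (.nd (nat_lit 3) (.nd (nat_lit 4) (.nd (nat_lit 5) 
(.lf (nat_lit 222272) (.g (nat_lit 2576) (.e (nat_lit 98317) (nat_lit 9) (.e (nat_lit 336185) (nat_lit 11) (.e (nat_lit 368676) (nat_lit 21) (.e (nat_lit 516148) (nat_lit 9) (.e (nat_lit 426446) (nat_lit 20) (.e (nat_lit 114718) (nat_lit 23) .nil)))))) (.g (nat_lit 5) .nil .nil))) 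
(.lf (nat_lit 222304) (.g (nat_lit 2782) (.e (nat_lit 98317) (nat_lit 9) (.e (nat_lit 336186) (nat_lit 11) (.e (nat_lit 368676) (nat_lit 21) (.e (nat_lit 516151) (nat_lit 9) (.e (nat_lit 433920) (nat_lit 20) (.e (nat_lit 114719) (nat_lit 23) .nil)))))) (.g (nat_lit 4) .nil .nil)))) (.nd (nat_lit 5) 
(.lf (nat_lit 222288) (.g (nat_lit 1977) (.e (nat_lit 98317) (nat_lit 9) (.e (nat_lit 336186) (nat_lit 11) (.e (nat_lit 368676) (nat_lit 21) (.e (nat_lit 516146) (nat_lit 9) (.e (nat_lit 426444) (nat_lit 19) (.e (nat_lit 106504) (nat_lit 9) (.e (nat_lit 1255) (nat_lit 92) .nil))))))) (.g (nat_lit 4) .nil .nil))) 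
(.lf (nat_lit 222320) (.g (nat_lit 1988) (.e (nat_lit 98317) (nat_lit 9) (.e (nat_lit 336186) (nat_lit 11) (.e (nat_lit 368676) (nat_lit 21) (.e (nat_lit 516179) (nat_lit 15) (.e (nat_lit 475214) (nat_lit 42) (.e (nat_lit 728832) (nat_lit 23) .nil)))))) (.g (nat_lit 5) .nil .nil))))) (.nd (nat_lit 4) (.nd (nat_lit 5) 
(.lf (nat_lit 222280) (.g (nat_lit 1630) (.e (nat_lit 98317) (nat_lit 9) (.e (nat_lit 336186) (nat_lit 11) (.e (nat_lit 368676) (nat_lit 21) (.e (nat_lit 516146) (nat_lit 9) (.e (nat_lit 426361) (nat_lit 15) .nil))))) .nil)) 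
(.lf (nat_lit 222312) (.g (nat_lit 1330) (.e (nat_lit 98317) (nat_lit 9) (.e (nat_lit 336186) (nat_lit 11) (.e (nat_lit 368676) (nat_lit 21) (.e (nat_lit 516179) (nat_lit 15) (.e (nat_lit 475201) (nat_lit 40) .nil))))) .nil))) (.nd (nat_lit 5) 
(.lf (nat_lit 222296) (.g (nat_lit 1719) (.e (nat_lit 98317) (nat_lit 9) (.e (nat_lit 336186) (nat_lit 11) (.e (nat_lit 368676) (nat_lit 21) (.e (nat_lit 516149) (nat_lit 9) (.e (nat_lit 433920) (nat_lit 20) (.e (nat_lit 114719) (nat_lit 23) .nil)))))) (.g (nat_lit 4) .nil .nil))) 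
(.lf (nat_lit 222328) (.g (nat_lit 2255) (.e (nat_lit 98317) (nat_lit 9) (.e (nat_lit 336186) (nat_lit 11) (.e (nat_lit 368676) (nat_lit 21) (.e (nat_lit 516182) (nat_lit 15) (.e (nat_lit 475212) (nat_lit 42) (.e (nat_lit 720945) (nat_lit 23) .nil)))))) (.g (nat_lit 0) .nil .nil)))))) (.nd (nat_lit 3) (.nd (nat_lit 4) (.nd (nat_lit 5) 
(.lf (nat_lit 222276) (.g (nat_lit 4950) (.e (nat_lit 98317) (nat_lit 9) (.e (nat_lit 336186) (nat_lit 11) (.e (nat_lit 368676) (nat_lit 21) (.e (nat_lit 516145) (nat_lit 9) (.e (nat_lit 426448) (nat_lit 20) (.e (nat_lit 114719) (nat_lit 23) .nil)))))) (.g (nat_lit 0) .nil .nil))) 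
(.lf (nat_lit 222308) (.g (nat_lit 2793) (.e (nat_lit 98317) (nat_lit 9) (.e (nat_lit 336186) (nat_lit 11) (.e (nat_lit 368676) (nat_lit 21) (.e (nat_lit 516179) (nat_lit 15) (.e (nat_lit 475197) (nat_lit 40) (.e (nat_lit 704612) (nat_lit 9) (.e (nat_lit 1248) (nat_lit 92) .nil))))))) (.g (nat_lit 5) .nil .nil)))) (.nd (nat_lit 5) 
(.lf (nat_lit 222292) (.g (nat_lit 2159) (.e (nat_lit 98317) (nat_lit 9) (.e (nat_lit 336186) (nat_lit 11) (.e (nat_lit 368676) (nat_lit 21) (.e (nat_lit 516146) (nat_lit 9) (.e (nat_lit 426467) (nat_lit 24) (.e (nat_lit 155667) (nat_lit 9) (.e (nat_lit 1252) (nat_lit 92) .nil))))))) (.g (nat_lit 4) .nil .nil))) 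
(.lf (nat_lit 222324) (.g (nat_lit 1223) (.e (nat_lit 98317) (nat_lit 9) (.e (nat_lit 336186) (nat_lit 11) (.e (nat_lit 368676) (nat_lit 21) (.e (nat_lit 516181) (nat_lit 15) (.e (nat_lit 483072) (nat_lit 40) .nil))))) .nil)))) (.nd (nat_lit 4) (.nd (nat_lit 5) 
(.lf (nat_lit 222284) (.g (nat_lit 1667) (.e (nat_lit 98317) (nat_lit 9) (.e (nat_lit 336186) (nat_lit 11) (.e (nat_lit 368676) (nat_lit 21) (.e (nat_lit 516146) (nat_lit 9) (.e (nat_lit 426440) (nat_lit 19) .nil))))) .nil)) 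
(.lf (nat_lit 222316) (.g (nat_lit 1983) (.e (nat_lit 98317) (nat_lit 9) (.e (nat_lit 336186) (nat_lit 11) (.e (nat_lit 368676) (nat_lit 21) (.e (nat_lit 516179) (nat_lit 15) (.e (nat_lit 475201) (nat_lit 40) (.e (nat_lit 704658) (nat_lit 9) (.e (nat_lit 1255) (nat_lit 92) .nil))))))) (.g (nat_lit 4) .nil .nil)))) (.nd (nat_lit 5) 
(.lf (nat_lit 222300) (.g (nat_lit 2784) (.e (nat_lit 98317) (nat_lit 9) (.e (nat_lit 336186) (nat_lit 11) (.e (nat_lit 368676) (nat_lit 21) (.e (nat_lit 516150) (nat_lit 9) (.e (nat_lit 426446) (nat_lit 20) (.e (nat_lit 114718) (nat_lit 23) .nil)))))) (.g (nat_lit 6) .nil .nil))) 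
(.lf (nat_lit 222332) (.g (nat_lit 2546) (.e (nat_lit 98317) (nat_lit 9) (.e (nat_lit 336188) (nat_lit 11) (.e (nat_lit 368676) (nat_lit 21) (.e (nat_lit 516148) (nat_lit 9) (.e (nat_lit 426446) (nat_lit 20) (.e (nat_lit 114718) (nat_lit 23) .nil)))))) (.g (nat_lit 5) .nil .nil))))))) (.nd (nat_lit 2) (.nd (nat_lit 3) (.nd (nat_lit 4) (.nd (nat_lit 5) 
(.lf (nat_lit 222274) (.g (nat_lit 1713) (.e (nat_lit 98317) (nat_lit 9) (.e (nat_lit 336186) (nat_lit 11) (.e (nat_lit 368676) (nat_lit 21) (.e (nat_lit 516143) (nat_lit 9) (.e (nat_lit 433920) (nat_lit 20) .nil))))) .nil)) 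
(.lf (nat_lit 222306) (.g (nat_lit 1656) (.e (nat_lit 98317) (nat_lit 9) (.e (nat_lit 336186) (nat_lit 11) (.e (nat_lit 368676) (nat_lit 21) (.e (nat_lit 516178) (nat_lit 15) (.e (nat_lit 475212) (nat_lit 42) .nil))))) .nil))) (.nd (nat_lit 5) 
(.lf (nat_lit 222290) (.g (nat_lit 2095) (.e (nat_lit 98317) (nat_lit 9) (.e (nat_lit 336186) (nat_lit 11) (.e (nat_lit 368676) (nat_lit 21) (.e (nat_lit 516146) (nat_lit 9) (.e (nat_lit 426448) (nat_lit 20) (.e (nat_lit 122624) (nat_lit 23) .nil)))))) (.g (nat_lit 5) .nil .nil))) 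
(.lf (nat_lit 222322) (.g (nat_lit 1767) (.e (nat_lit 98317) (nat_lit 9) (.e (nat_lit 336186) (nat_lit 11) (.e (nat_lit 368676) (nat_lit 21) (.e (nat_lit 516179) (nat_lit 15) (.e (nat_lit 475215) (nat_lit 43) (.e (nat_lit 729114) (nat_lit 23) .nil)))))) (.g (nat_lit 4) .nil .nil))))) (.nd (nat_lit 4) (.nd (nat_lit 5) 
(.lf (nat_lit 222282) (.g (nat_lit 1721) (.e (nat_lit 98317) (nat_lit 9) (.e (nat_lit 336186) (nat_lit 11) (.e (nat_lit 368676) (nat_lit 21) (.e (nat_lit 516146) (nat_lit 9) (.e (nat_lit 426361) (nat_lit 15) (.e (nat_lit 2198) (nat_lit 144) (.e (nat_lit 720945) (nat_lit 23) .nil))))))) (.g (nat_lit 4) .nil .nil))) 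
(.lf (nat_lit 222314) (.g (nat_lit 2141) (.e (nat_lit 98317) (nat_lit 9) (.e (nat_lit 336186) (nat_lit 11) (.e (nat_lit 368676) (nat_lit 21) (.e (nat_lit 516179) (nat_lit 15) (.e (nat_lit 475201) (nat_lit 40) (.e (nat_lit 704620) (nat_lit 9) (.e (nat_lit 1247) (nat_lit 92) .nil))))))) (.g (nat_lit 5) .nil .nil)))) (.nd (nat_lit 5) 
(.lf (nat_lit 222298) (.g (nat_lit 1789) (.e (nat_lit 98317) (nat_lit 9) (.e (nat_lit 336186) (nat_lit 11) (.e (nat_lit 368676) (nat_lit 21) (.e (nat_lit 516150) (nat_lit 9) (.e (nat_lit 426354) (nat_lit 15) (.e (nat_lit 2198) (nat_lit 144) (.e (nat_lit 720945) (nat_lit 23) .nil))))))) (.g (nat_lit 4) .nil .nil))) 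
(.lf (nat_lit 222330) (.g (nat_lit 2294) (.e (nat_lit 98317) (nat_lit 9) (.e (nat_lit 336188) (nat_lit 11) (.e (nat_lit 368676) (nat_lit 21) (.e (nat_lit 516144) (nat_lit 9) (.e (nat_lit 426446) (nat_lit 20) (.e (nat_lit 114718) (nat_lit 23) .nil)))))) (.g (nat_lit 4) .nil .nil)))))) (.nd (nat_lit 3) (.nd (nat_lit 4) (.nd (nat_lit 5) 
(.lf (nat_lit 222278) (.g (nat_lit 2356) (.e (nat_lit 98317) (nat_lit 9) (.e (nat_lit 336186) (nat_lit 11) (.e (nat_lit 368676) (nat_lit 21) (.e (nat_lit 516146) (nat_lit 9) (.e (nat_lit 426360) (nat_lit 15) (.e (nat_lit 2198) (nat_lit 144) (.e (nat_lit 720945) (nat_lit 23) .nil))))))) (.g (nat_lit 5) .nil .nil))) 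
(.lf (nat_lit 222310) (.g (nat_lit 2586) (.e (nat_lit 98317) (nat_lit 9) (.e (nat_lit 336186) (nat_lit 11) (.e (nat_lit 368676) (nat_lit 21) (.e (nat_lit 516179) (nat_lit 15) (.e (nat_lit 475199) (nat_lit 40) (.e (nat_lit 704680) (nat_lit 9) (.e (nat_lit 1253) (nat_lit 92) .nil))))))) (.g (nat_lit 5) .nil .nil)))) (.nd (nat_lit 5) 
(.lf (nat_lit 222294) (.g (nat_lit 2826) (.e (nat_lit 98317) (nat_lit 9) (.e (nat_lit 336186) (nat_lit 11) (.e (nat_lit 368676) (nat_lit 21) (.e (nat_lit 516148) (nat_lit 9) (.e (nat_lit 426446) (nat_lit 20) (.e (nat_lit 114718) (nat_lit 23) .nil)))))) (.g (nat_lit 6) .nil .nil))) 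
(.lf (nat_lit 222326) (.g (nat_lit 2396) (.e (nat_lit 98317) (nat_lit 9) (.e (nat_lit 336186) (nat_lit 11) (.e (nat_lit 368676) (nat_lit 21) (.e (nat_lit 516181) (nat_lit 15) (.e (nat_lit 475214) (nat_lit 42) (.e (nat_lit 720945) (nat_lit 23) .nil)))))) (.g (nat_lit 5) .nil .nil))))) (.nd (nat_lit 4) (.nd (nat_lit 5) 
(.lf (nat_lit 222286) (.g (nat_lit 2084) (.e (nat_lit 98317) (nat_lit 9) (.e (nat_lit 336186) (nat_lit 11) (.e (nat_lit 368676) (nat_lit 21) (.e (nat_lit 516146) (nat_lit 9) (.e (nat_lit 426440) (nat_lit 19) (.e (nat_lit 106526) (nat_lit 9) (.e (nat_lit 1247) (nat_lit 92) .nil))))))) (.g (nat_lit 4) .nil .nil))) 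
(.lf (nat_lit 222318) (.g (nat_lit 2311) (.e (nat_lit 98317) (nat_lit 9) (.e (nat_lit 336186) (nat_lit 11) (.e (nat_lit 368676) (nat_lit 21) (.e (nat_lit 516179) (nat_lit 15) (.e (nat_lit 475205) (nat_lit 40) (.e (nat_lit 704606) (nat_lit 9) (.e (nat_lit 1250) (nat_lit 92) .nil))))))) (.g (nat_lit 4) .nil .nil)))) (.nd (nat_lit 5) 
(.lf (nat_lit 222302) (.g (nat_lit 1923) (.e (nat_lit 98317) (nat_lit 9) (.e (nat_lit 336186) (nat_lit 11) (.e (nat_lit 368676) (nat_lit 21) (.e (nat_lit 516150) (nat_lit 9) (.e (nat_lit 433920) (nat_lit 20) (.e (nat_lit 114718) (nat_lit 23) .nil)))))) (.g (nat_lit 4) .nil .nil))) 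
(.lf (nat_lit 222334) (.g (nat_lit 653) (.e (nat_lit 98317) (nat_lit 9) (.e (nat_lit 336194) (nat_lit 12) (.e (nat_lit 392960) (nat_lit 2) .nil))) .nil))))))) (.nd (nat_lit 1) (.nd (nat_lit 2) (.nd (nat_lit 3) (.nd (nat_lit 4) (.nd (nat_lit 5) 
(.lf (nat_lit 222273) (.g (nat_lit 197) (.e (nat_lit 98317) (nat_lit 9) (.e (nat_lit 336186) (nat_lit 11) (.e (nat_lit 368676) (nat_lit 21) .nil))) .nil)) 
(.lf (nat_lit 222305) (.g (nat_lit 1384) (.e (nat_lit 98317) (nat_lit 9) (.e (nat_lit 336186) (nat_lit 11) (.e (nat_lit 368676) (nat_lit 21) (.e (nat_lit 516156) (nat_lit 9) .nil)))) .nil))) (.nd (nat_lit 5) 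
(.lf (nat_lit 222289) (.g (nat_lit 4027) (.e (nat_lit 98317) (nat_lit 9) (.e (nat_lit 336186) (nat_lit 11) (.e (nat_lit 368676) (nat_lit 21) (.e (nat_lit 516146) (nat_lit 9) (.e (nat_lit 426448) (nat_lit 20) (.e (nat_lit 114719) (nat_lit 23) .nil)))))) (.g (nat_lit 0) .nil .nil))) 
(.lf (nat_lit 222321) (.g (nat_lit 2053) (.e (nat_lit 98317) (nat_lit 9) (.e (nat_lit 336186) (nat_lit 11) (.e (nat_lit 368676) (nat_lit 21) (.e (nat_lit 516179) (nat_lit 15) (.e (nat_lit 483072) (nat_lit 42) (.e (nat_lit 720945) (nat_lit 23) .nil)))))) (.g (nat_lit 4) .nil .nil))))) (.nd (nat_lit 4) (.nd (nat_lit 5) 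
(.lf (nat_lit 222281) (.g (nat_lit 1671) (.e (nat_lit 98317) (nat_lit 9) (.e (nat_lit 336186) (nat_lit 11) (.e (nat_lit 368676) (nat_lit 21) (.e (nat_lit 516146) (nat_lit 9) (.e (nat_lit 426361) (nat_lit 15) (.e (nat_lit 2195) (nat_lit 144) (.e (nat_lit 720945) (nat_lit 23) .nil))))))) (.g (nat_lit 4) .nil .nil))) 
(.lf (nat_lit 222313) (.g (nat_lit 1797) (.e (nat_lit 98317) (nat_lit 9) (.e (nat_lit 336186) (nat_lit 11) (.e (nat_lit 368676) (nat_lit 21) (.e (nat_lit 516179) (nat_lit 15) (.e (nat_lit 475201) (nat_lit 40) (.e (nat_lit 704620) (nat_lit 9) (.e (nat_lit 1246) (nat_lit 92) .nil))))))) (.g (nat_lit 4) .nil .nil)))) (.nd (nat_lit 5) 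
(.lf (nat_lit 222297) (.g (nat_lit 678) (.e (nat_lit 98317) (nat_lit 9) (.e (nat_lit 336186) (nat_lit 11) (.e (nat_lit 368676) (nat_lit 21) (.e (nat_lit 516150) (nat_lit 9) .nil)))) .nil)) 
(.lf (nat_lit 222329) (.g (nat_lit 2047) (.e (nat_lit 98317) (nat_lit 9) (.e (nat_lit 336186) (nat_lit 11) (.e (nat_lit 368676) (nat_lit 21) (.e (nat_lit 516182) (nat_lit 15) (.e (nat_lit 475214) (nat_lit 42) (.e (nat_lit 720945) (nat_lit 23) .nil)))))) (.g (nat_lit 5) .nil .nil)))))) (.nd (nat_lit 3) (.nd (nat_lit 4) (.nd (nat_lit 5) 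
(.lf (nat_lit 222277) (.g (nat_lit 804) (.e (nat_lit 98317) (nat_lit 9) (.e (nat_lit 336186) (nat_lit 11) (.e (nat_lit 368676) (nat_lit 21) (.e (nat_lit 516146) (nat_lit 9) .nil)))) .nil)) 
(.lf (nat_lit 222309) (.g (nat_lit 2123) (.e (nat_lit 98317) (nat_lit 9) (.e (nat_lit 336186) (nat_lit 11) (.e (nat_lit 368676) (nat_lit 21) (.e (nat_lit 516179) (nat_lit 15) (.e (nat_lit 475199) (nat_lit 40) (.e (nat_lit 704612) (nat_lit 9) (.e (nat_lit 1248) (nat_lit 92) .nil))))))) (.g (nat_lit 4) .nil .nil)))) (.nd (nat_lit 5) 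
(.lf (nat_lit 222293) (.g (nat_lit 1942) (.e (nat_lit 98317) (nat_lit 9) (.e (nat_lit 336186) (nat_lit 11) (.e (nat_lit 368676) (nat_lit 21) (.e (nat_lit 516146) (nat_lit 9) (.e (nat_lit 426467) (nat_lit 24) (.e (nat_lit 155667) (nat_lit 9) (.e (nat_lit 1253) (nat_lit 92) .nil))))))) (.g (nat_lit 4) .nil .nil))) 
(.lf (nat_lit 222325) (.g (nat_lit 2056) (.e (nat_lit 98317) (nat_lit 9) (.e (nat_lit 336186) (nat_lit 11) (.e (nat_lit 368676) (nat_lit 21) (.e (nat_lit 516181) (nat_lit 15) (.e (nat_lit 475212) (nat_lit 42) (.e (nat_lit 720945) (nat_lit 23) .nil)))))) (.g (nat_lit 5) .nil .nil))))) (.nd (nat_lit 4) (.nd (nat_lit 5) 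
(.lf (nat_lit 222285) (.g (nat_lit 1913) (.e (nat_lit 98317) (nat_lit 9) (.e (nat_lit 336186) (nat_lit 11) (.e (nat_lit 368676) (nat_lit 21) (.e (nat_lit 516146) (nat_lit 9) (.e (nat_lit 426440) (nat_lit 19) (.e (nat_lit 106517) (nat_lit 9) (.e (nat_lit 1255) (nat_lit 92) .nil))))))) (.g (nat_lit 4) .nil .nil))) 
(.lf (nat_lit 222317) (.g (nat_lit 1587) (.e (nat_lit 98317) (nat_lit 9) (.e (nat_lit 336186) (nat_lit 11) (.e (nat_lit 368676) (nat_lit 21) (.e (nat_lit 516179) (nat_lit 15) (.e (nat_lit 475201) (nat_lit 40) (.e (nat_lit 704662) (nat_lit 9) (.e (nat_lit 1247) (nat_lit 92) .nil))))))) (.g (nat_lit 4) .nil .nil)))) (.nd (nat_lit 5) 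
(.lf (nat_lit 222301) (.g (nat_lit 3535) (.e (nat_lit 98317) (nat_lit 9) (.e (nat_lit 336186) (nat_lit 11) (.e (nat_lit 368676) (nat_lit 21) (.e (nat_lit 516150) (nat_lit 9) (.e (nat_lit 426448) (nat_lit 20) (.e (nat_lit 114719) (nat_lit 23) .nil)))))) (.g (nat_lit 0) .nil .nil))) 
(.lf (nat_lit 222333) (.g (nat_lit 2653) (.e (nat_lit 98317) (nat_lit 9) (.e (nat_lit 336188) (nat_lit 11) (.e (nat_lit 368676) (nat_lit 21) (.e (nat_lit 516181) (nat_lit 15) (.e (nat_lit 475214) (nat_lit 42) (.e (nat_lit 720943) (nat_lit 23) .nil)))))) (.g (nat_lit 5) .nil .nil))))))) (.nd (nat_lit 2) (.nd (nat_lit 3) (.nd (nat_lit 4) (.nd (nat_lit 5) 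
(.lf (nat_lit 222275) (.g (nat_lit 3157) (.e (nat_lit 98317) (nat_lit 9) (.e (nat_lit 336186) (nat_lit 11) (.e (nat_lit 368676) (nat_lit 21) (.e (nat_lit 516145) (nat_lit 9) (.e (nat_lit 426446) (nat_lit 20) (.e (nat_lit 114718) (nat_lit 23) .nil)))))) (.g (nat_lit 6) .nil .nil))) 
(.lf (nat_lit 222307) (.g (nat_lit 2028) (.e (nat_lit 98317) (nat_lit 9) (.e (nat_lit 336186) (nat_lit 11) (.e (nat_lit 368676) (nat_lit 21) (.e (nat_lit 516179) (nat_lit 15) (.e (nat_lit 475195) (nat_lit 40) (.e (nat_lit 704655) (nat_lit 9) (.e (nat_lit 1255) (nat_lit 92) .nil))))))) (.g (nat_lit 4) .nil .nil)))) (.nd (nat_lit 5) 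
(.lf (nat_lit 222291) (.g (nat_lit 2331) (.e (nat_lit 98317) (nat_lit 9) (.e (nat_lit 336186) (nat_lit 11) (.e (nat_lit 368676) (nat_lit 21) (.e (nat_lit 516146) (nat_lit 9) (.e (nat_lit 426449) (nat_lit 20) (.e (nat_lit 114718) (nat_lit 23) .nil)))))) (.g (nat_lit 5) .nil .nil))) 
(.lf (nat_lit 222323) (.g (nat_lit 1999) (.e (nat_lit 98317) (nat_lit 9) (.e (nat_lit 336186) (nat_lit 11) (.e (nat_lit 368676) (nat_lit 21) (.e (nat_lit 516180) (nat_lit 15) (.e (nat_lit 475214) (nat_lit 42) (.e (nat_lit 720945) (nat_lit 23) .nil)))))) (.g (nat_lit 5) .nil .nil))))) (.nd (nat_lit 4) (.nd (nat_lit 5) 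
(.lf (nat_lit 222283) (.g (nat_lit 1785) (.e (nat_lit 98317) (nat_lit 9) (.e (nat_lit 336186) (nat_lit 11) (.e (nat_lit 368676) (nat_lit 21) (.e (nat_lit 516146) (nat_lit 9) (.e (nat_lit 426439) (nat_lit 19) .nil))))) .nil)) 
(.lf (nat_lit 222315) (.g (nat_lit 2220) (.e (nat_lit 98317) (nat_lit 9) (.e (nat_lit 336186) (nat_lit 11) (.e (nat_lit 368676) (nat_lit 21) (.e (nat_lit 516179) (nat_lit 15) (.e (nat_lit 475201) (nat_lit 40) (.e (nat_lit 704620) (nat_lit 9) (.e (nat_lit 1254) (nat_lit 92) .nil))))))) (.g (nat_lit 5) .nil .nil)))) (.nd (nat_lit 5) 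
(.lf (nat_lit 222299) (.g (nat_lit 1879) (.e (nat_lit 98317) (nat_lit 9) (.e (nat_lit 336186) (nat_lit 11) (.e (nat_lit 368676) (nat_lit 21) (.e (nat_lit 516150) (nat_lit 9) (.e (nat_lit 426360) (nat_lit 15) (.e (nat_lit 2210) (nat_lit 145) (.e (nat_lit 729114) (nat_lit 23) .nil))))))) (.g (nat_lit 4) .nil .nil))) 
(.lf (nat_lit 222331) (.g (nat_lit 2938) (.e (nat_lit 98317) (nat_lit 9) (.e (nat_lit 336188) (nat_lit 11) (.e (nat_lit 368676) (nat_lit 21) (.e (nat_lit 516146) (nat_lit 9) (.e (nat_lit 426448) (nat_lit 20) (.e (nat_lit 114719) (nat_lit 23) .nil)))))) (.g (nat_lit 4) .nil .nil)))))) (.nd (nat_lit 3) (.nd (nat_lit 4) (.nd (nat_lit 5) 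
(.lf (nat_lit 222279) (.g (nat_lit 1984) (.e (nat_lit 98317) (nat_lit 9) (.e (nat_lit 336186) (nat_lit 11) (.e (nat_lit 368676) (nat_lit 21) (.e (nat_lit 516146) (nat_lit 9) (.e (nat_lit 426360) (nat_lit 15) (.e (nat_lit 2210) (nat_lit 145) (.e (nat_lit 729114) (nat_lit 23) .nil))))))) (.g (nat_lit 4) .nil .nil))) 
(.lf (nat_lit 222311) (.g (nat_lit 2157) (.e (nat_lit 98317) (nat_lit 9) (.e (nat_lit 336186) (nat_lit 11) (.e (nat_lit 368676) (nat_lit 21) (.e (nat_lit 516179) (nat_lit 15) (.e (nat_lit 475199) (nat_lit 40) (.e (nat_lit 704689) (nat_lit 9) (.e (nat_lit 1252) (nat_lit 92) .nil))))))) (.g (nat_lit 5) .nil .nil)))) (.nd (nat_lit 5) 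
(.lf (nat_lit 222295) (.g (nat_lit 1624) (.e (nat_lit 98317) (nat_lit 9) (.e (nat_lit 336186) (nat_lit 11) (.e (nat_lit 368676) (nat_lit 21) (.e (nat_lit 516149) (nat_lit 9) (.e (nat_lit 433920) (nat_lit 20) (.e (nat_lit 114718) (nat_lit 23) .nil)))))) (.g (nat_lit 4) .nil .nil))) 
(.lf (nat_lit 222327) (.g (nat_lit 2199) (.e (nat_lit 98317) (nat_lit 9) (.e (nat_lit 336186) (nat_lit 11) (.e (nat_lit 368676) (nat_lit 21) (.e (nat_lit 516182) (nat_lit 15) (.e (nat_lit 475197) (nat_lit 40) (.e (nat_lit 704612) (nat_lit 9) (.e (nat_lit 1248) (nat_lit 92) .nil))))))) (.g (nat_lit 5) .nil .nil))))) (.nd (nat_lit 4) (.nd (nat_lit 5) 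
(.lf (nat_lit 222287) (.g (nat_lit 1915) (.e (nat_lit 98317) (nat_lit 9) (.e (nat_lit 336186) (nat_lit 11) (.e (nat_lit 368676) (nat_lit 21) (.e (nat_lit 516146) (nat_lit 9) (.e (nat_lit 426440) (nat_lit 19) (.e (nat_lit 106526) (nat_lit 9) (.e (nat_lit 1255) (nat_lit 92) .nil))))))) (.g (nat_lit 4) .nil .nil))) 
(.lf (nat_lit 222319) (.g (nat_lit 3207) (.e (nat_lit 98317) (nat_lit 9) (.e (nat_lit 336186) (nat_lit 11) (.e (nat_lit 368676) (nat_lit 21) (.e (nat_lit 516179) (nat_lit 15) (.e (nat_lit 475214) (nat_lit 42) (.e (nat_lit 720945) (nat_lit 23) .nil)))))) (.g (nat_lit 0) .nil .nil)))) (.nd (nat_lit 5) 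
(.lf (nat_lit 222303) (.g (nat_lit 2662) (.e (nat_lit 98317) (nat_lit 9) (.e (nat_lit 336186) (nat_lit 11) (.e (nat_lit 368676) (nat_lit 21) (.e (nat_lit 516151) (nat_lit 9) (.e (nat_lit 433920) (nat_lit 20) .nil))))) .nil)) 
(.lf (nat_lit 222335) (.g (nat_lit 2895) (.e (nat_lit 98317) (nat_lit 9) (.e (nat_lit 336194) (nat_lit 12) (.e (nat_lit 385066) (nat_lit 26) (.e (nat_lit 532499) (nat_lit 1) (.e (nat_lit 65280) (nat_lit 211) .nil))))) .nil))))))))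

noncomputable def tv2920 : DT := (.nd (nat_lit 0) (.nd (nat_lit 1) (.nd (nat_lit 2) (.nd (nat_lit 3) (.nd (nat_lit 4) (.nd (nat_lit 5) (.nd (nat_lit 6) 
(.lf (nat_lit 222336) (.g (nat_lit 2283) (.e (nat_lit 98317) (nat_lit 9) (.e (nat_lit 336194) (nat_lit 12) (.e (nat_lit 385066) (nat_lit 26) (.e (nat_lit 532515) (nat_lit 3) (.e (nat_lit 114712) (nat_lit 21) (.e (nat_lit 57692) (nat_lit 156) (.e (nat_lit 171776) (nat_lit 64) .nil))))))) (.g (nat_lit 4) .nil .nil))) 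
(.lf (nat_lit 222400) (.g (nat_lit 3830) (.e (nat_lit 98317) (nat_lit 9) (.e (nat_lit 336223) (nat_lit 13) (.e (nat_lit 393225) (nat_lit 9) (.e (nat_lit 335995) (nat_lit 1) (.e (nat_lit 57847) (nat_lit 252) (.e (nat_lit 57379) (nat_lit 3) .nil)))))) (.g (nat_lit 0) .nil .nil)))) (.nd (nat_lit 6) 
(.lf (nat_lit 222368) (.g (nat_lit 936) (.e (nat_lit 98317) (nat_lit 9) (.e (nat_lit 336213) (nat_lit 13) (.e (nat_lit 393258) (nat_lit 20) .nil))) .nil)) 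
(.lf (nat_lit 222432) (.g (nat_lit 1765) (.e (nat_lit 106240) (nat_lit 9) (.e (nat_lit 336004) (nat_lit 2) (.e (nat_lit 90158) (nat_lit 11) (.e (nat_lit 24607) (nat_lit 3) .nil)))) .nil)))) (.nd (nat_lit 5) (.nd (nat_lit 6) 
(.lf (nat_lit 222352) (.g (nat_lit 2215) (.e (nat_lit 98317) (nat_lit 9) (.e (nat_lit 336213) (nat_lit 13) (.e (nat_lit 393225) (nat_lit 9) (.e (nat_lit 335993) (nat_lit 1) .nil)))) .nil)) 
(.lf (nat_lit 222416) (.g (nat_lit 1635) (.e (nat_lit 98317) (nat_lit 9) (.e (nat_lit 336231) (nat_lit 14) (.e (nat_lit 401463) (nat_lit 15) (.e (nat_lit 1858) (nat_lit 124) (.e (nat_lit 557101) (nat_lit 13) .nil))))) .nil))) (.nd (nat_lit 6) 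
(.lf (nat_lit 222384) (.g (nat_lit 1062) (.e (nat_lit 98317) (nat_lit 9) (.e (nat_lit 336222) (nat_lit 13) (.e (nat_lit 393229) (nat_lit 9) (.e (nat_lit 335892) (nat_lit 0) .nil)))) .nil)) 
(.lf (nat_lit 222448) (.g (nat_lit 1361) (.e (nat_lit 106240) (nat_lit 9) (.e (nat_lit 336013) (nat_lit 2) (.e (nat_lit 90158) (nat_lit 11) .nil))) .nil))))) (.nd (nat_lit 4) (.nd (nat_lit 5) (.nd (nat_lit 6) 
(.lf (nat_lit 222344) (.g (nat_lit 1949) (.e (nat_lit 98317) (nat_lit 9) (.e (nat_lit 336204) (nat_lit 12) (.e (nat_lit 385074) (nat_lit 31) (.e (nat_lit 573482) (nat_lit 13) .nil)))) .nil)) 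
(.lf (nat_lit 222408) (.g (nat_lit 2681) (.e (nat_lit 98317) (nat_lit 9) (.e (nat_lit 336223) (nat_lit 13) (.e (nat_lit 393229) (nat_lit 9) (.e (nat_lit 335988) (nat_lit 1) (.e (nat_lit 57853) (nat_lit 252) (.e (nat_lit 57377) (nat_lit 3) .nil)))))) (.g (nat_lit 4) .nil .nil)))) (.nd (nat_lit 6) 
(.lf (nat_lit 222376) (.g (nat_lit 3439) (.e (nat_lit 98317) (nat_lit 9) (.e (nat_lit 336215) (nat_lit 13) (.e (nat_lit 393229) (nat_lit 9) (.e (nat_lit 335995) (nat_lit 1) (.e (nat_lit 57848) (nat_lit 252) (.e (nat_lit 57377) (nat_lit 3) .nil)))))) (.g (nat_lit 6) .nil .nil))) 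
(.lf (nat_lit 222440) (.g (nat_lit 2728) (.e (nat_lit 106240) (nat_lit 9) (.e (nat_lit 336012) (nat_lit 2) (.e (nat_lit 90160) (nat_lit 11) (.e (nat_lit 24604) (nat_lit 2) (.e (nat_lit 90160) (nat_lit 11) .nil))))) .nil)))) (.nd (nat_lit 5) (.nd (nat_lit 6) 
(.lf (nat_lit 222360) (.g (nat_lit 1419) (.e (nat_lit 98317) (nat_lit 9) (.e (nat_lit 336213) (nat_lit 13) (.e (nat_lit 393229) (nat_lit 9) (.e (nat_lit 335911) (nat_lit 0) .nil)))) .nil)) 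
(.lf (nat_lit 222424) (.g (nat_lit 1295) (.e (nat_lit 106240) (nat_lit 9) (.e (nat_lit 336003) (nat_lit 2) (.e (nat_lit 90158) (nat_lit 11) (.e (nat_lit 24604) (nat_lit 2) (.e (nat_lit 90159) (nat_lit 11) .nil))))) .nil))) (.nd (nat_lit 6) 
(.lf (nat_lit 222392) (.g (nat_lit 3089) (.e (nat_lit 98317) (nat_lit 9) (.e (nat_lit 336222) (nat_lit 13) (.e (nat_lit 393229) (nat_lit 9) (.e (nat_lit 335995) (nat_lit 1) (.e (nat_lit 57854) (nat_lit 252) .nil))))) .nil)) 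
(.lf (nat_lit 222456) (.g (nat_lit 2193) (.e (nat_lit 106240) (nat_lit 9) (.e (nat_lit 336013) (nat_lit 2) (.e (nat_lit 90160) (nat_lit 11) (.e (nat_lit 24607) (nat_lit 3) .nil)))) .nil)))))) (.nd (nat_lit 3) (.nd (nat_lit 4) (.nd (nat_lit 5) (.nd (nat_lit 6) 
(.lf (nat_lit 222340) (.g (nat_lit 1796) (.e (nat_lit 98317) (nat_lit 9) (.e (nat_lit 336204) (nat_lit 12) (.e (nat_lit 385074) (nat_lit 31) (.e (nat_lit 573473) (nat_lit 12) .nil)))) .nil)) 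
(.lf (nat_lit 222404) (.g (nat_lit 1136) (.e (nat_lit 98317) (nat_lit 9) (.e (nat_lit 336223) (nat_lit 13) (.e (nat_lit 393226) (nat_lit 9) .nil))) .nil))) (.nd (nat_lit 6) 
(.lf (nat_lit 222372) (.g (nat_lit 2590) (.e (nat_lit 98317) (nat_lit 9) (.e (nat_lit 336215) (nat_lit 13) (.e (nat_lit 393229) (nat_lit 9) (.e (nat_lit 335986) (nat_lit 1) (.e (nat_lit 57846) (nat_lit 252) .nil))))) .nil)) 
(.lf (nat_lit 222436) (.g (nat_lit 731) (.e (nat_lit 106240) (nat_lit 9) (.e (nat_lit 336012) (nat_lit 2) (.e (nat_lit 90160) (nat_lit 11) .nil))) .nil)))) (.nd (nat_lit 5) (.nd (nat_lit 6) 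
(.lf (nat_lit 222356) (.g (nat_lit 3984) (.e (nat_lit 98317) (nat_lit 9) (.e (nat_lit 336213) (nat_lit 13) (.e (nat_lit 393225) (nat_lit 9) (.e (nat_lit 335996) (nat_lit 1) (.e (nat_lit 57852) (nat_lit 252) (.e (nat_lit 57378) (nat_lit 3) .nil)))))) (.g (nat_lit 5) .nil .nil))) 
(.lf (nat_lit 222420) (.g (nat_lit 2030) (.e (nat_lit 106240) (nat_lit 9) (.e (nat_lit 335988) (nat_lit 1) (.e (nat_lit 57927) (nat_lit 282) (.e (nat_lit 163903) (nat_lit 12) (.e (nat_lit 426538) (nat_lit 29) .nil))))) .nil))) (.nd (nat_lit 6) 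
(.lf (nat_lit 222388) (.g (nat_lit 1061) (.e (nat_lit 98317) (nat_lit 9) (.e (nat_lit 336222) (nat_lit 13) (.e (nat_lit 393229) (nat_lit 9) (.e (nat_lit 335994) (nat_lit 1) .nil)))) .nil)) 
(.lf (nat_lit 222452) (.g (nat_lit 2648) (.e (nat_lit 106240) (nat_lit 9) (.e (nat_lit 336013) (nat_lit 2) (.e (nat_lit 90160) (nat_lit 11) (.e (nat_lit 24602) (nat_lit 2) (.e (nat_lit 90158) (nat_lit 11) .nil))))) .nil))))) (.nd (nat_lit 4) (.nd (nat_lit 5) (.nd (nat_lit 6) 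
(.lf (nat_lit 222348) (.g (nat_lit 2907) (.e (nat_lit 98317) (nat_lit 9) (.e (nat_lit 336213) (nat_lit 13) (.e (nat_lit 393224) (nat_lit 9) (.e (nat_lit 335996) (nat_lit 1) (.e (nat_lit 57854) (nat_lit 252) (.e (nat_lit 57378) (nat_lit 3) .nil)))))) (.g (nat_lit 4) .nil .nil))) 
(.lf (nat_lit 222412) (.g (nat_lit 633) (.e (nat_lit 98317) (nat_lit 9) (.e (nat_lit 336229) (nat_lit 14) (.e (nat_lit 401468) (nat_lit 27) .nil))) .nil))) (.nd (nat_lit 6) 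
(.lf (nat_lit 222380) (.g (nat_lit 2195) (.e (nat_lit 98317) (nat_lit 9) (.e (nat_lit 336220) (nat_lit 13) (.e (nat_lit 393225) (nat_lit 9) (.e (nat_lit 335986) (nat_lit 1) (.e (nat_lit 57849) (nat_lit 252) (.e (nat_lit 57379) (nat_lit 3) .nil)))))) (.g (nat_lit 4) .nil .nil))) 
(.lf (nat_lit 222444) (.g (nat_lit 1334) (.e (nat_lit 106240) (nat_lit 9) (.e (nat_lit 336013) (nat_lit 2) (.e (nat_lit 90157) (nat_lit 11) .nil))) .nil)))) (.nd (nat_lit 5) (.nd (nat_lit 6) 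
(.lf (nat_lit 222364) (.g (nat_lit 2916) (.e (nat_lit 98317) (nat_lit 9) (.e (nat_lit 336213) (nat_lit 13) (.e (nat_lit 393229) (nat_lit 9) (.e (nat_lit 335993) (nat_lit 1) (.e (nat_lit 57847) (nat_lit 252) (.e (nat_lit 57377) (nat_lit 3) .nil)))))) (.g (nat_lit 5) .nil .nil))) 
(.lf (nat_lit 222428) (.g (nat_lit 1462) (.e (nat_lit 106240) (nat_lit 9) (.e (nat_lit 336004) (nat_lit 2) (.e (nat_lit 90158) (nat_lit 11) (.e (nat_lit 24604) (nat_lit 2) .nil)))) .nil))) (.nd (nat_lit 6) 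
(.lf (nat_lit 222396) (.g (nat_lit 1079) (.e (nat_lit 98317) (nat_lit 9) (.e (nat_lit 336222) (nat_lit 13) (.e (nat_lit 401152) (nat_lit 15) (.e (nat_lit 385109) (nat_lit 51) (.e (nat_lit 802560) (nat_lit 3) .nil))))) (.g (nat_lit 4) .nil .nil))) 
(.lf (nat_lit 222460) (.g (nat_lit 1613) (.e (nat_lit 106240) (nat_lit 9) (.e (nat_lit 336021) (nat_lit 3) (.e (nat_lit 98313) (nat_lit 9) (.e (nat_lit 336002) (nat_lit 2) .nil)))) .nil))))))) (.nd (nat_lit 2) (.nd (nat_lit 3) (.nd (nat_lit 4) (.nd (nat_lit 5) (.nd (nat_lit 6) 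
(.lf (nat_lit 222338) (.g (nat_lit 1525) (.e (nat_lit 98317) (nat_lit 9) (.e (nat_lit 336204) (nat_lit 12) (.e (nat_lit 385066) (nat_lit 26) (.e (nat_lit 540416) (nat_lit 18) .nil)))) .nil)) 
(.lf (nat_lit 222402) (.g (nat_lit 3411) (.e (nat_lit 98317) (nat_lit 9) (.e (nat_lit 336223) (nat_lit 13) (.e (nat_lit 393225) (nat_lit 9) (.e (nat_lit 335996) (nat_lit 1) (.e (nat_lit 57852) (nat_lit 252) (.e (nat_lit 57378) (nat_lit 3) .nil)))))) (.g (nat_lit 5) .nil .nil)))) (.nd (nat_lit 6) 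
(.lf (nat_lit 222370) (.g (nat_lit 715) (.e (nat_lit 98317) (nat_lit 9) (.e (nat_lit 336215) (nat_lit 13) (.e (nat_lit 393228) (nat_lit 9) (.e (nat_lit 335994) (nat_lit 1) .nil)))) .nil)) 
(.lf (nat_lit 222434) (.g (nat_lit 1773) (.e (nat_lit 106240) (nat_lit 9) (.e (nat_lit 336004) (nat_lit 2) (.e (nat_lit 90158) (nat_lit 11) (.e (nat_lit 24608) (nat_lit 3) (.e (nat_lit 98312) (nat_lit 9) .nil))))) .nil)))) (.nd (nat_lit 5) (.nd (nat_lit 6) 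
(.lf (nat_lit 222354) (.g (nat_lit 2878) (.e (nat_lit 98317) (nat_lit 9) (.e (nat_lit 336213) (nat_lit 13) (.e (nat_lit 393225) (nat_lit 9) (.e (nat_lit 335995) (nat_lit 1) (.e (nat_lit 57846) (nat_lit 252) (.e (nat_lit 57378) (nat_lit 3) .nil)))))) (.g (nat_lit 4) .nil .nil))) 
(.lf (nat_lit 222418) (.g (nat_lit 1214) (.e (nat_lit 98317) (nat_lit 9) (.e (nat_lit 336232) (nat_lit 14) (.e (nat_lit 401468) (nat_lit 27) (.e (nat_lit 336250) (nat_lit 15) .nil)))) .nil))) (.nd (nat_lit 6) 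
(.lf (nat_lit 222386) (.g (nat_lit 2454) (.e (nat_lit 98317) (nat_lit 9) (.e (nat_lit 336222) (nat_lit 13) (.e (nat_lit 393229) (nat_lit 9) (.e (nat_lit 335988) (nat_lit 1) (.e (nat_lit 57853) (nat_lit 252) (.e (nat_lit 57377) (nat_lit 3) .nil)))))) (.g (nat_lit 4) .nil .nil))) 
(.lf (nat_lit 222450) (.g (nat_lit 1359) (.e (nat_lit 106240) (nat_lit 9) (.e (nat_lit 336013) (nat_lit 2) (.e (nat_lit 90159) (nat_lit 11) .nil))) .nil))))) (.nd (nat_lit 4) (.nd (nat_lit 5) (.nd (nat_lit 6) 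
(.lf (nat_lit 222346) (.g (nat_lit 721) (.e (nat_lit 98317) (nat_lit 9) (.e (nat_lit 336213) (nat_lit 13) (.e (nat_lit 393224) (nat_lit 9) .nil))) .nil)) 
(.lf (nat_lit 222410) (.g (nat_lit 2973) (.e (nat_lit 98317) (nat_lit 9) (.e (nat_lit 336223) (nat_lit 13) (.e (nat_lit 393229) (nat_lit 9) (.e (nat_lit 335994) (nat_lit 1) (.e (nat_lit 57848) (nat_lit 252) (.e (nat_lit 57379) (nat_lit 3) .nil)))))) (.g (nat_lit 0) .nil .nil)))) (.nd (nat_lit 6) 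
(.lf (nat_lit 222378) (.g (nat_lit 1255) (.e (nat_lit 98317) (nat_lit 9) (.e (nat_lit 336215) (nat_lit 13) (.e (nat_lit 401152) (nat_lit 9) (.e (nat_lit 336336) (nat_lit 20) (.e (nat_lit 229120) (nat_lit 3) .nil))))) (.g (nat_lit 4) .nil .nil))) 
(.lf (nat_lit 222442) (.g (nat_lit 2412) (.e (nat_lit 106240) (nat_lit 9) (.e (nat_lit 336013) (nat_lit 2) (.e (nat_lit 90134) (nat_lit 9) (.e (nat_lit 290) (nat_lit 21) (.e (nat_lit 336021) (nat_lit 3) .nil))))) .nil)))) (.nd (nat_lit 5) (.nd (nat_lit 6) 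
(.lf (nat_lit 222362) (.g (nat_lit 3646) (.e (nat_lit 98317) (nat_lit 9) (.e (nat_lit 336213) (nat_lit 13) (.e (nat_lit 393229) (nat_lit 9) (.e (nat_lit 335987) (nat_lit 1) (.e (nat_lit 57854) (nat_lit 252) (.e (nat_lit 57378) (nat_lit 3) .nil)))))) (.g (nat_lit 6) .nil .nil))) 
(.lf (nat_lit 222426) (.g (nat_lit 1833) (.e (nat_lit 106240) (nat_lit 9) (.e (nat_lit 336004) (nat_lit 2) (.e (nat_lit 90158) (nat_lit 11) (.e (nat_lit 24602) (nat_lit 2) .nil)))) .nil))) (.nd (nat_lit 6) 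
(.lf (nat_lit 222394) (.g (nat_lit 1055) (.e (nat_lit 98317) (nat_lit 9) (.e (nat_lit 336222) (nat_lit 13) (.e (nat_lit 393229) (nat_lit 9) (.e (nat_lit 336033) (nat_lit 4) .nil)))) .nil)) 
(.lf (nat_lit 222458) (.g (nat_lit 894) (.e (nat_lit 106240) (nat_lit 9) (.e (nat_lit 336017) (nat_lit 3) (.e (nat_lit 98313) (nat_lit 9) (.e (nat_lit 336027) (nat_lit 3) .nil)))) .nil)))))) (.nd (nat_lit 3) (.nd (nat_lit 4) (.nd (nat_lit 5) (.nd (nat_lit 6) 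
(.lf (nat_lit 222342) (.g (nat_lit 4493) (.e (nat_lit 98317) (nat_lit 9) (.e (nat_lit 336204) (nat_lit 12) (.e (nat_lit 385074) (nat_lit 31) (.e (nat_lit 573477) (nat_lit 12) (.e (nat_lit 65280) (nat_lit 201) .nil))))) .nil)) 
(.lf (nat_lit 222406) (.g (nat_lit 440) (.e (nat_lit 98317) (nat_lit 9) (.e (nat_lit 336223) (nat_lit 13) (.e (nat_lit 393229) (nat_lit 9) .nil))) .nil))) (.nd (nat_lit 6) 
(.lf (nat_lit 222374) (.g (nat_lit 2133) (.e (nat_lit 98317) (nat_lit 9) (.e (nat_lit 336215) (nat_lit 13) (.e (nat_lit 393229) (nat_lit 9) (.e (nat_lit 335993) (nat_lit 1) (.e (nat_lit 57848) (nat_lit 252) (.e (nat_lit 57377) (nat_lit 3) .nil)))))) (.g (nat_lit 5) .nil .nil))) 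
(.lf (nat_lit 222438) (.g (nat_lit 1839) (.e (nat_lit 106240) (nat_lit 9) (.e (nat_lit 336012) (nat_lit 2) (.e (nat_lit 90160) (nat_lit 11) (.e (nat_lit 24603) (nat_lit 2) .nil)))) .nil)))) (.nd (nat_lit 5) (.nd (nat_lit 6) 
(.lf (nat_lit 222358) (.g (nat_lit 426) (.e (nat_lit 98317) (nat_lit 9) (.e (nat_lit 336213) (nat_lit 13) (.e (nat_lit 393229) (nat_lit 9) .nil))) .nil)) 
(.lf (nat_lit 222422) (.g (nat_lit 2070) (.e (nat_lit 106240) (nat_lit 9) (.e (nat_lit 335988) (nat_lit 1) (.e (nat_lit 57931) (nat_lit 282) (.e (nat_lit 163902) (nat_lit 12) .nil)))) .nil))) (.nd (nat_lit 6) 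
(.lf (nat_lit 222390) (.g (nat_lit 3430) (.e (nat_lit 98317) (nat_lit 9) (.e (nat_lit 336222) (nat_lit 13) (.e (nat_lit 393229) (nat_lit 9) (.e (nat_lit 335995) (nat_lit 1) (.e (nat_lit 57847) (nat_lit 252) (.e (nat_lit 57379) (nat_lit 3) .nil)))))) (.g (nat_lit 0) .nil .nil))) 
(.lf (nat_lit 222454) (.g (nat_lit 2975) (.e (nat_lit 106240) (nat_lit 9) (.e (nat_lit 336013) (nat_lit 2) (.e (nat_lit 90160) (nat_lit 11) (.e (nat_lit 24604) (nat_lit 2) (.e (nat_lit 90158) (nat_lit 11) .nil))))) .nil))))) (.nd (nat_lit 4) (.nd (nat_lit 5) (.nd (nat_lit 6) 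
(.lf (nat_lit 222350) (.g (nat_lit 3416) (.e (nat_lit 98317) (nat_lit 9) (.e (nat_lit 336213) (nat_lit 13) (.e (nat_lit 393225) (nat_lit 9) (.e (nat_lit 335986) (nat_lit 1) (.e (nat_lit 57849) (nat_lit 252) (.e (nat_lit 57379) (nat_lit 3) .nil)))))) (.g (nat_lit 5) .nil .nil))) 
(.lf (nat_lit 222414) (.g (nat_lit 4378) (.e (nat_lit 98317) (nat_lit 9) (.e (nat_lit 336231) (nat_lit 14) (.e (nat_lit 401463) (nat_lit 15) (.e (nat_lit 1858) (nat_lit 124) (.e (nat_lit 557100) (nat_lit 13) (.e (nat_lit 179968) (nat_lit 20) (.e (nat_lit 114718) (nat_lit 23) .nil))))))) (.g (nat_lit 5) .nil .nil)))) (.nd (nat_lit 6) 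
(.lf (nat_lit 222382) (.g (nat_lit 2953) (.e (nat_lit 98317) (nat_lit 9) (.e (nat_lit 336222) (nat_lit 13) (.e (nat_lit 393224) (nat_lit 9) (.e (nat_lit 335996) (nat_lit 1) (.e (nat_lit 57852) (nat_lit 252) (.e (nat_lit 57378) (nat_lit 3) .nil)))))) (.g (nat_lit 5) .nil .nil))) 
(.lf (nat_lit 222446) (.g (nat_lit 2498) (.e (nat_lit 106240) (nat_lit 9) (.e (nat_lit 336013) (nat_lit 2) (.e (nat_lit 90157) (nat_lit 11) (.e (nat_lit 24607) (nat_lit 3) (.e (nat_lit 98313) (nat_lit 9) .nil))))) .nil)))) (.nd (nat_lit 5) (.nd (nat_lit 6) 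
(.lf (nat_lit 222366) (.g (nat_lit 3999) (.e (nat_lit 98317) (nat_lit 9) (.e (nat_lit 336213) (nat_lit 13) (.e (nat_lit 393229) (nat_lit 9) (.e (nat_lit 335995) (nat_lit 1) (.e (nat_lit 57846) (nat_lit 252) (.e (nat_lit 57378) (nat_lit 3) .nil)))))) (.g (nat_lit 6) .nil .nil))) 
(.lf (nat_lit 222430) (.g (nat_lit 2000) (.e (nat_lit 106240) (nat_lit 9) (.e (nat_lit 336004) (nat_lit 2) (.e (nat_lit 90158) (nat_lit 11) (.e (nat_lit 24604) (nat_lit 2) (.e (nat_lit 90159) (nat_lit 11) .nil))))) .nil))) (.nd (nat_lit 6) 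
(.lf (nat_lit 222398) (.g (nat_lit 1855) (.e (nat_lit 98317) (nat_lit 9) (.e (nat_lit 336223) (nat_lit 13) (.e (nat_lit 393225) (nat_lit 9) (.e (nat_lit 335985) (nat_lit 1) (.e (nat_lit 57849) (nat_lit 252) .nil))))) .nil)) 
(.lf (nat_lit 222462) (.g (nat_lit 2137) (.e (nat_lit 106240) (nat_lit 9) (.e (nat_lit 336021) (nat_lit 3) (.e (nat_lit 98313) (nat_lit 9) (.e (nat_lit 336011) (nat_lit 2) (.e (nat_lit 90134) (nat_lit 9) .nil))))) .nil)))))))) (.nd (nat_lit 1) (.nd (nat_lit 2) (.nd (nat_lit 3) (.nd (nat_lit 4) (.nd (nat_lit 5) (.nd (nat_lit 6) 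
(.lf (nat_lit 222337) (.g (nat_lit 443) (.e (nat_lit 98317) (nat_lit 9) (.e (nat_lit 336196) (nat_lit 12) (.e (nat_lit 392960) (nat_lit 10) .nil))) .nil)) 
(.lf (nat_lit 222401) (.g (nat_lit 3557) (.e (nat_lit 98317) (nat_lit 9) (.e (nat_lit 336223) (nat_lit 13) (.e (nat_lit 393225) (nat_lit 9) (.e (nat_lit 335995) (nat_lit 1) (.e (nat_lit 57848) (nat_lit 252) (.e (nat_lit 57379) (nat_lit 3) .nil)))))) (.g (nat_lit 0) .nil .nil)))) (.nd (nat_lit 6) 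
(.lf (nat_lit 222369) (.g (nat_lit 867) (.e (nat_lit 98317) (nat_lit 9) (.e (nat_lit 336215) (nat_lit 13) (.e (nat_lit 393226) (nat_lit 9) .nil))) .nil)) 
(.lf (nat_lit 222433) (.g (nat_lit 1410) (.e (nat_lit 106240) (nat_lit 9) (.e (nat_lit 336004) (nat_lit 2) (.e (nat_lit 90158) (nat_lit 11) (.e (nat_lit 24608) (nat_lit 3) .nil)))) .nil)))) (.nd (nat_lit 5) (.nd (nat_lit 6) 
(.lf (nat_lit 222353) (.g (nat_lit 3145) (.e (nat_lit 98317) (nat_lit 9) (.e (nat_lit 336213) (nat_lit 13) (.e (nat_lit 393225) (nat_lit 9) (.e (nat_lit 335995) (nat_lit 1) (.e (nat_lit 57846) (nat_lit 252) (.e (nat_lit 57377) (nat_lit 3) .nil)))))) (.g (nat_lit 4) .nil .nil))) 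
(.lf (nat_lit 222417) (.g (nat_lit 816) (.e (nat_lit 98317) (nat_lit 9) (.e (nat_lit 336232) (nat_lit 14) (.e (nat_lit 401468) (nat_lit 27) .nil))) .nil))) (.nd (nat_lit 6) 
(.lf (nat_lit 222385) (.g (nat_lit 3123) (.e (nat_lit 98317) (nat_lit 9) (.e (nat_lit 336222) (nat_lit 13) (.e (nat_lit 393229) (nat_lit 9) (.e (nat_lit 335986) (nat_lit 1) (.e (nat_lit 57847) (nat_lit 252) (.e (nat_lit 57379) (nat_lit 3) .nil)))))) (.g (nat_lit 0) .nil .nil))) 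
(.lf (nat_lit 222449) (.g (nat_lit 1852) (.e (nat_lit 106240) (nat_lit 9) (.e (nat_lit 336013) (nat_lit 2) (.e (nat_lit 90158) (nat_lit 11) (.e (nat_lit 24604) (nat_lit 2) .nil)))) .nil))))) (.nd (nat_lit 4) (.nd (nat_lit 5) (.nd (nat_lit 6) 
(.lf (nat_lit 222345) (.g (nat_lit 939) (.e (nat_lit 98317) (nat_lit 9) (.e (nat_lit 336213) (nat_lit 13) (.e (nat_lit 393217) (nat_lit 0) .nil))) .nil)) 
(.lf (nat_lit 222409) (.g (nat_lit 3638) (.e (nat_lit 98317) (nat_lit 9) (.e (nat_lit 336223) (nat_lit 13) (.e (nat_lit 393229) (nat_lit 9) (.e (nat_lit 335994) (nat_lit 1) (.e (nat_lit 57844) (nat_lit 252) (.e (nat_lit 57377) (nat_lit 3) .nil)))))) (.g (nat_lit 0) .nil .nil)))) (.nd (nat_lit 6) 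
(.lf (nat_lit 222377) (.g (nat_lit 1474) (.e (nat_lit 98317) (nat_lit 9) (.e (nat_lit 336215) (nat_lit 13) (.e (nat_lit 401152) (nat_lit 9) (.e (nat_lit 336334) (nat_lit 20) (.e (nat_lit 229120) (nat_lit 3) .nil))))) (.g (nat_lit 4) .nil .nil))) 
(.lf (nat_lit 222441) (.g (nat_lit 2079) (.e (nat_lit 106240) (nat_lit 9) (.e (nat_lit 336013) (nat_lit 2) (.e (nat_lit 90134) (nat_lit 9) (.e (nat_lit 290) (nat_lit 21) .nil)))) .nil)))) (.nd (nat_lit 5) (.nd (nat_lit 6) 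
(.lf (nat_lit 222361) (.g (nat_lit 2013) (.e (nat_lit 98317) (nat_lit 9) (.e (nat_lit 336213) (nat_lit 13) (.e (nat_lit 393229) (nat_lit 9) (.e (nat_lit 335956) (nat_lit 0) (.e (nat_lit 1037) (nat_lit 81) .nil))))) .nil)) 
(.lf (nat_lit 222425) (.g (nat_lit 451) (.e (nat_lit 106240) (nat_lit 9) (.e (nat_lit 336004) (nat_lit 2) (.e (nat_lit 90158) (nat_lit 11) .nil))) .nil))) (.nd (nat_lit 6) 
(.lf (nat_lit 222393) (.g (nat_lit 3817) (.e (nat_lit 98317) (nat_lit 9) (.e (nat_lit 336222) (nat_lit 13) (.e (nat_lit 393229) (nat_lit 9) (.e (nat_lit 335996) (nat_lit 1) (.e (nat_lit 57854) (nat_lit 252) (.e (nat_lit 57378) (nat_lit 3) .nil)))))) (.g (nat_lit 0) .nil .nil))) 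
(.lf (nat_lit 222457) (.g (nat_lit 841) (.e (nat_lit 106240) (nat_lit 9) (.e (nat_lit 336017) (nat_lit 3) (.e (nat_lit 98313) (nat_lit 9) (.e (nat_lit 336021) (nat_lit 3) .nil)))) .nil)))))) (.nd (nat_lit 3) (.nd (nat_lit 4) (.nd (nat_lit 5) (.nd (nat_lit 6) 
(.lf (nat_lit 222341) (.g (nat_lit 1641) (.e (nat_lit 98317) (nat_lit 9) (.e (nat_lit 336204) (nat_lit 12) (.e (nat_lit 385074) (nat_lit 31) (.e (nat_lit 573475) (nat_lit 12) .nil)))) .nil)) 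
(.lf (nat_lit 222405) (.g (nat_lit 465) (.e (nat_lit 98317) (nat_lit 9) (.e (nat_lit 336223) (nat_lit 13) (.e (nat_lit 393227) (nat_lit 9) .nil))) .nil))) (.nd (nat_lit 6) 
(.lf (nat_lit 222373) (.g (nat_lit 2361) (.e (nat_lit 98317) (nat_lit 9) (.e (nat_lit 336215) (nat_lit 13) (.e (nat_lit 393229) (nat_lit 9) (.e (nat_lit 335986) (nat_lit 1) (.e (nat_lit 57854) (nat_lit 252) (.e (nat_lit 57378) (nat_lit 3) .nil)))))) (.g (nat_lit 4) .nil .nil))) 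
(.lf (nat_lit 222437) (.g (nat_lit 1402) (.e (nat_lit 106240) (nat_lit 9) (.e (nat_lit 336012) (nat_lit 2) (.e (nat_lit 90160) (nat_lit 11) (.e (nat_lit 24602) (nat_lit 2) .nil)))) .nil)))) (.nd (nat_lit 5) (.nd (nat_lit 6) 
(.lf (nat_lit 222357) (.g (nat_lit 603) (.e (nat_lit 98317) (nat_lit 9) (.e (nat_lit 336213) (nat_lit 13) (.e (nat_lit 393226) (nat_lit 9) .nil))) .nil)) 
(.lf (nat_lit 222421) (.g (nat_lit 1284) (.e (nat_lit 106240) (nat_lit 9) (.e (nat_lit 335988) (nat_lit 1) (.e (nat_lit 57927) (nat_lit 282) (.e (nat_lit 163905) (nat_lit 12) .nil)))) .nil))) (.nd (nat_lit 6) 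
(.lf (nat_lit 222389) (.g (nat_lit 1853) (.e (nat_lit 98317) (nat_lit 9) (.e (nat_lit 336222) (nat_lit 13) (.e (nat_lit 393229) (nat_lit 9) (.e (nat_lit 335994) (nat_lit 1) (.e (nat_lit 57851) (nat_lit 252) .nil))))) .nil)) 
(.lf (nat_lit 222453) (.g (nat_lit 2189) (.e (nat_lit 106240) (nat_lit 9) (.e (nat_lit 336013) (nat_lit 2) (.e (nat_lit 90160) (nat_lit 11) (.e (nat_lit 24603) (nat_lit 2) .nil)))) .nil))))) (.nd (nat_lit 4) (.nd (nat_lit 5) (.nd (nat_lit 6) 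
(.lf (nat_lit 222349) (.g (nat_lit 1250) (.e (nat_lit 98317) (nat_lit 9) (.e (nat_lit 336213) (nat_lit 13) (.e (nat_lit 393225) (nat_lit 9) (.e (nat_lit 335986) (nat_lit 1) .nil)))) .nil)) 
(.lf (nat_lit 222413) (.g (nat_lit 885) (.e (nat_lit 98317) (nat_lit 9) (.e (nat_lit 336231) (nat_lit 14) (.e (nat_lit 401463) (nat_lit 15) .nil))) .nil))) (.nd (nat_lit 6) 
(.lf (nat_lit 222381) (.g (nat_lit 3343) (.e (nat_lit 98317) (nat_lit 9) (.e (nat_lit 336220) (nat_lit 13) (.e (nat_lit 393225) (nat_lit 9) (.e (nat_lit 335995) (nat_lit 1) (.e (nat_lit 57849) (nat_lit 252) (.e (nat_lit 57379) (nat_lit 3) .nil)))))) (.g (nat_lit 5) .nil .nil))) 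
(.lf (nat_lit 222445) (.g (nat_lit 2026) (.e (nat_lit 106240) (nat_lit 9) (.e (nat_lit 336013) (nat_lit 2) (.e (nat_lit 90157) (nat_lit 11) (.e (nat_lit 24602) (nat_lit 2) (.e (nat_lit 90158) (nat_lit 11) .nil))))) .nil)))) (.nd (nat_lit 5) (.nd (nat_lit 6) 
(.lf (nat_lit 222365) (.g (nat_lit 3519) (.e (nat_lit 98317) (nat_lit 9) (.e (nat_lit 336213) (nat_lit 13) (.e (nat_lit 393229) (nat_lit 9) (.e (nat_lit 335994) (nat_lit 1) (.e (nat_lit 57846) (nat_lit 252) (.e (nat_lit 57378) (nat_lit 3) .nil)))))) (.g (nat_lit 6) .nil .nil))) 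
(.lf (nat_lit 222429) (.g (nat_lit 1994) (.e (nat_lit 106240) (nat_lit 9) (.e (nat_lit 336004) (nat_lit 2) (.e (nat_lit 90158) (nat_lit 11) (.e (nat_lit 24604) (nat_lit 2) (.e (nat_lit 90158) (nat_lit 11) .nil))))) .nil))) (.nd (nat_lit 6) 
(.lf (nat_lit 222397) (.g (nat_lit 3169) (.e (nat_lit 98317) (nat_lit 9) (.e (nat_lit 336223) (nat_lit 13) (.e (nat_lit 393224) (nat_lit 9) (.e (nat_lit 335995) (nat_lit 1) (.e (nat_lit 57849) (nat_lit 252) (.e (nat_lit 57379) (nat_lit 3) .nil)))))) (.g (nat_lit 4) .nil .nil))) 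
(.lf (nat_lit 222461) (.g (nat_lit 1852) (.e (nat_lit 106240) (nat_lit 9) (.e (nat_lit 336021) (nat_lit 3) (.e (nat_lit 98313) (nat_lit 9) (.e (nat_lit 336004) (nat_lit 2) (.e (nat_lit 90158) (nat_lit 11) .nil))))) .nil))))))) (.nd (nat_lit 2) (.nd (nat_lit 3) (.nd (nat_lit 4) (.nd (nat_lit 5) (.nd (nat_lit 6) 
(.lf (nat_lit 222339) (.g (nat_lit 546) (.e (nat_lit 98317) (nat_lit 9) (.e (nat_lit 336204) (nat_lit 12) (.e (nat_lit 385074) (nat_lit 31) .nil))) .nil)) 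
(.lf (nat_lit 222403) (.g (nat_lit 3854) (.e (nat_lit 98317) (nat_lit 9) (.e (nat_lit 336223) (nat_lit 13) (.e (nat_lit 393225) (nat_lit 9) (.e (nat_lit 335996) (nat_lit 1) (.e (nat_lit 57854) (nat_lit 252) (.e (nat_lit 57378) (nat_lit 3) .nil)))))) (.g (nat_lit 0) .nil .nil)))) (.nd (nat_lit 6) 
(.lf (nat_lit 222371) (.g (nat_lit 1579) (.e (nat_lit 98317) (nat_lit 9) (.e (nat_lit 336215) (nat_lit 13) (.e (nat_lit 393229) (nat_lit 9) (.e (nat_lit 335892) (nat_lit 0) .nil)))) .nil)) 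
(.lf (nat_lit 222435) (.g (nat_lit 1799) (.e (nat_lit 106240) (nat_lit 9) (.e (nat_lit 336004) (nat_lit 2) (.e (nat_lit 90158) (nat_lit 11) (.e (nat_lit 24609) (nat_lit 3) .nil)))) .nil)))) (.nd (nat_lit 5) (.nd (nat_lit 6) 
(.lf (nat_lit 222355) (.g (nat_lit 4477) (.e (nat_lit 98317) (nat_lit 9) (.e (nat_lit 336213) (nat_lit 13) (.e (nat_lit 393225) (nat_lit 9) (.e (nat_lit 335995) (nat_lit 1) (.e (nat_lit 57849) (nat_lit 252) (.e (nat_lit 57377) (nat_lit 3) .nil)))))) (.g (nat_lit 6) .nil .nil))) 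
(.lf (nat_lit 222419) (.g (nat_lit 2254) (.e (nat_lit 106240) (nat_lit 9) (.e (nat_lit 335988) (nat_lit 1) (.e (nat_lit 57926) (nat_lit 282) (.e (nat_lit 163905) (nat_lit 12) (.e (nat_lit 426542) (nat_lit 29) .nil))))) .nil))) (.nd (nat_lit 6) 
(.lf (nat_lit 222387) (.g (nat_lit 3352) (.e (nat_lit 98317) (nat_lit 9) (.e (nat_lit 336222) (nat_lit 13) (.e (nat_lit 393229) (nat_lit 9) (.e (nat_lit 335988) (nat_lit 1) (.e (nat_lit 57854) (nat_lit 252) (.e (nat_lit 57378) (nat_lit 3) .nil)))))) (.g (nat_lit 0) .nil .nil))) 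
(.lf (nat_lit 222451) (.g (nat_lit 1036) (.e (nat_lit 106240) (nat_lit 9) (.e (nat_lit 336013) (nat_lit 2) (.e (nat_lit 90160) (nat_lit 11) .nil))) .nil))))) (.nd (nat_lit 4) (.nd (nat_lit 5) (.nd (nat_lit 6) 
(.lf (nat_lit 222347) (.g (nat_lit 3409) (.e (nat_lit 98317) (nat_lit 9) (.e (nat_lit 336213) (nat_lit 13) (.e (nat_lit 393224) (nat_lit 9) (.e (nat_lit 335988) (nat_lit 1) (.e (nat_lit 57854) (nat_lit 252) (.e (nat_lit 57378) (nat_lit 3) .nil)))))) (.g (nat_lit 4) .nil .nil))) 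
(.lf (nat_lit 222411) (.g (nat_lit 3993) (.e (nat_lit 98317) (nat_lit 9) (.e (nat_lit 336229) (nat_lit 14) (.e (nat_lit 401463) (nat_lit 15) (.e (nat_lit 1858) (nat_lit 124) (.e (nat_lit 557100) (nat_lit 13) (.e (nat_lit 179968) (nat_lit 20) (.e (nat_lit 114718) (nat_lit 23) .nil))))))) (.g (nat_lit 5) .nil .nil)))) (.nd (nat_lit 6) 
(.lf (nat_lit 222379) (.g (nat_lit 1485) (.e (nat_lit 98317) (nat_lit 9) (.e (nat_lit 336215) (nat_lit 13) (.e (nat_lit 401152) (nat_lit 15) (.e (nat_lit 385109) (nat_lit 51) (.e (nat_lit 802560) (nat_lit 3) .nil))))) (.g (nat_lit 4) .nil .nil))) 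
(.lf (nat_lit 222443) (.g (nat_lit 1361) (.e (nat_lit 106240) (nat_lit 9) (.e (nat_lit 336013) (nat_lit 2) (.e (nat_lit 90156) (nat_lit 11) .nil))) .nil)))) (.nd (nat_lit 5) (.nd (nat_lit 6) 
(.lf (nat_lit 222363) (.g (nat_lit 2972) (.e (nat_lit 98317) (nat_lit 9) (.e (nat_lit 336213) (nat_lit 13) (.e (nat_lit 393229) (nat_lit 9) (.e (nat_lit 335988) (nat_lit 1) (.e (nat_lit 57853) (nat_lit 252) (.e (nat_lit 57377) (nat_lit 3) .nil)))))) (.g (nat_lit 4) .nil .nil))) 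
(.lf (nat_lit 222427) (.g (nat_lit 1207) (.e (nat_lit 106240) (nat_lit 9) (.e (nat_lit 336004) (nat_lit 2) (.e (nat_lit 90158) (nat_lit 11) (.e (nat_lit 24603) (nat_lit 2) .nil)))) .nil))) (.nd (nat_lit 6) 
(.lf (nat_lit 222395) (.g (nat_lit 898) (.e (nat_lit 98317) (nat_lit 9) (.e (nat_lit 336222) (nat_lit 13) (.e (nat_lit 401152) (nat_lit 9) (.e (nat_lit 336334) (nat_lit 20) (.e (nat_lit 229120) (nat_lit 3) .nil))))) (.g (nat_lit 4) .nil .nil))) 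
(.lf (nat_lit 222459) (.g (nat_lit 531) (.e (nat_lit 106240) (nat_lit 9) (.e (nat_lit 336021) (nat_lit 3) (.e (nat_lit 98313) (nat_lit 9) .nil))) .nil)))))) (.nd (nat_lit 3) (.nd (nat_lit 4) (.nd (nat_lit 5) (.nd (nat_lit 6) 
(.lf (nat_lit 222343) (.g (nat_lit 4493) (.e (nat_lit 98317) (nat_lit 9) (.e (nat_lit 336204) (nat_lit 12) (.e (nat_lit 385074) (nat_lit 31) (.e (nat_lit 573477) (nat_lit 12) (.e (nat_lit 65280) (nat_lit 202) .nil))))) .nil)) 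
(.lf (nat_lit 222407) (.g (nat_lit 1588) (.e (nat_lit 98317) (nat_lit 9) (.e (nat_lit 336223) (nat_lit 13) (.e (nat_lit 393229) (nat_lit 9) (.e (nat_lit 335934) (nat_lit 0) (.e (nat_lit 1040) (nat_lit 81) .nil))))) .nil))) (.nd (nat_lit 6) 
(.lf (nat_lit 222375) (.g (nat_lit 3353) (.e (nat_lit 98317) (nat_lit 9) (.e (nat_lit 336215) (nat_lit 13) (.e (nat_lit 393229) (nat_lit 9) (.e (nat_lit 335994) (nat_lit 1) (.e (nat_lit 57848) (nat_lit 252) (.e (nat_lit 57377) (nat_lit 3) .nil)))))) (.g (nat_lit 6) .nil .nil))) 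
(.lf (nat_lit 222439) (.g (nat_lit 2554) (.e (nat_lit 106240) (nat_lit 9) (.e (nat_lit 336012) (nat_lit 2) (.e (nat_lit 90160) (nat_lit 11) (.e (nat_lit 24604) (nat_lit 2) (.e (nat_lit 90158) (nat_lit 11) .nil))))) .nil)))) (.nd (nat_lit 5) (.nd (nat_lit 6) 
(.lf (nat_lit 222359) (.g (nat_lit 2003) (.e (nat_lit 98317) (nat_lit 9) (.e (nat_lit 336213) (nat_lit 13) (.e (nat_lit 393229) (nat_lit 9) (.e (nat_lit 335886) (nat_lit 0) (.e (nat_lit 1040) (nat_lit 81) .nil))))) .nil)) 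
(.lf (nat_lit 222423) (.g (nat_lit 1993) (.e (nat_lit 106240) (nat_lit 9) (.e (nat_lit 335988) (nat_lit 1) (.e (nat_lit 57931) (nat_lit 282) (.e (nat_lit 163905) (nat_lit 12) .nil)))) .nil))) (.nd (nat_lit 6) 
(.lf (nat_lit 222391) (.g (nat_lit 3689) (.e (nat_lit 98317) (nat_lit 9) (.e (nat_lit 336222) (nat_lit 13) (.e (nat_lit 393229) (nat_lit 9) (.e (nat_lit 335995) (nat_lit 1) (.e (nat_lit 57849) (nat_lit 252) (.e (nat_lit 57379) (nat_lit 3) .nil)))))) (.g (nat_lit 0) .nil .nil))) 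
(.lf (nat_lit 222455) (.g (nat_lit 2998) (.e (nat_lit 106240) (nat_lit 9) (.e (nat_lit 336013) (nat_lit 2) (.e (nat_lit 90160) (nat_lit 11) (.e (nat_lit 24604) (nat_lit 2) (.e (nat_lit 90160) (nat_lit 11) .nil))))) .nil))))) (.nd (nat_lit 4) (.nd (nat_lit 5) (.nd (nat_lit 6) 
(.lf (nat_lit 222351) (.g (nat_lit 2843) (.e (nat_lit 98317) (nat_lit 9) (.e (nat_lit 336213) (nat_lit 13) (.e (nat_lit 393225) (nat_lit 9) (.e (nat_lit 335988) (nat_lit 1) (.e (nat_lit 57852) (nat_lit 252) .nil))))) .nil)) 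
(.lf (nat_lit 222415) (.g (nat_lit 4228) (.e (nat_lit 98317) (nat_lit 9) (.e (nat_lit 336231) (nat_lit 14) (.e (nat_lit 401463) (nat_lit 15) (.e (nat_lit 1858) (nat_lit 124) (.e (nat_lit 557100) (nat_lit 13) (.e (nat_lit 179968) (nat_lit 20) (.e (nat_lit 114719) (nat_lit 23) .nil))))))) (.g (nat_lit 5) .nil .nil)))) (.nd (nat_lit 6) 
(.lf (nat_lit 222383) (.g (nat_lit 1052) (.e (nat_lit 98317) (nat_lit 9) (.e (nat_lit 336222) (nat_lit 13) (.e (nat_lit 393229) (nat_lit 9) (.e (nat_lit 335886) (nat_lit 0) .nil)))) .nil)) 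
(.lf (nat_lit 222447) (.g (nat_lit 2358) (.e (nat_lit 106240) (nat_lit 9) (.e (nat_lit 336013) (nat_lit 2) (.e (nat_lit 90157) (nat_lit 11) (.e (nat_lit 24607) (nat_lit 3) (.e (nat_lit 98317) (nat_lit 9) .nil))))) .nil)))) (.nd (nat_lit 5) (.nd (nat_lit 6) 
(.lf (nat_lit 222367) (.g (nat_lit 2634) (.e (nat_lit 98317) (nat_lit 9) (.e (nat_lit 336213) (nat_lit 13) (.e (nat_lit 393229) (nat_lit 9) (.e (nat_lit 336288) (nat_lit 15) (.e (nat_lit 3714) (nat_lit 227) .nil))))) .nil)) 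
(.lf (nat_lit 222431) (.g (nat_lit 2046) (.e (nat_lit 106240) (nat_lit 9) (.e (nat_lit 336004) (nat_lit 2) (.e (nat_lit 90158) (nat_lit 11) (.e (nat_lit 24605) (nat_lit 2) (.e (nat_lit 90158) (nat_lit 11) .nil))))) .nil))) (.nd (nat_lit 6) 
(.lf (nat_lit 222399) (.g (nat_lit 2673) (.e (nat_lit 98317) (nat_lit 9) (.e (nat_lit 336223) (nat_lit 13) (.e (nat_lit 393225) (nat_lit 9) (.e (nat_lit 335995) (nat_lit 1) (.e (nat_lit 57846) (nat_lit 252) (.e (nat_lit 57377) (nat_lit 3) .nil)))))) (.g (nat_lit 4) .nil .nil))) 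
(.lf (nat_lit 222463) (.g (nat_lit 2379) (.e (nat_lit 106240) (nat_lit 9) (.e (nat_lit 336021) (nat_lit 3) (.e (nat_lit 98313) (nat_lit 9) (.e (nat_lit 336011) (nat_lit 2) (.e (nat_lit 90158) (nat_lit 11) .nil))))) .nil)))))))))

noncomputable def tv2921 : DT := (.nd (nat_lit 0) (.nd (nat_lit 1) (.nd (nat_lit 2) (.nd (nat_lit 3) (.nd (nat_lit 4) (.nd (nat_lit 5) (.nd (nat_lit 6) 
(.lf (nat_lit 222464) (.g (nat_lit 2439) (.e (nat_lit 106240) (nat_lit 9) (.e (nat_lit 336021) (nat_lit 3) (.e (nat_lit 98313) (nat_lit 9) (.e (nat_lit 336011) (nat_lit 2) (.e (nat_lit 90160) (nat_lit 11) .nil))))) .nil)) 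
(.lf (nat_lit 222528) (.g (nat_lit 2224) (.e (nat_lit 106240) (nat_lit 10) (.e (nat_lit 344131) (nat_lit 26) (.e (nat_lit 557105) (nat_lit 14) (.e (nat_lit 180252) (nat_lit 10) (.e (nat_lit 573449) (nat_lit 9) .nil))))) .nil))) (.nd (nat_lit 6) 
(.lf (nat_lit 222496) (.g (nat_lit 1977) (.e (nat_lit 106240) (nat_lit 9) (.e (nat_lit 336164) (nat_lit 10) (.e (nat_lit 344117) (nat_lit 21) (.e (nat_lit 516145) (nat_lit 9) (.e (nat_lit 426446) (nat_lit 20) .nil))))) .nil)) 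
(.lf (nat_lit 222560) (.g (nat_lit 1107) (.e (nat_lit 106240) (nat_lit 10) (.e (nat_lit 344133) (nat_lit 26) (.e (nat_lit 557096) (nat_lit 13) (.e (nat_lit 172067) (nat_lit 3) .nil)))) .nil)))) (.nd (nat_lit 5) (.nd (nat_lit 6) 
(.lf (nat_lit 222480) (.g (nat_lit 623) (.e (nat_lit 106240) (nat_lit 9) (.e (nat_lit 336028) (nat_lit 3) (.e (nat_lit 106240) (nat_lit 13) .nil))) .nil)) 
(.lf (nat_lit 222544) (.g (nat_lit 1863) (.e (nat_lit 106240) (nat_lit 10) (.e (nat_lit 344132) (nat_lit 26) (.e (nat_lit 557101) (nat_lit 13) (.e (nat_lit 172064) (nat_lit 2) (.e (nat_lit 196661) (nat_lit 12) .nil))))) .nil))) (.nd (nat_lit 6) 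
(.lf (nat_lit 222512) (.g (nat_lit 626) (.e (nat_lit 106240) (nat_lit 10) (.e (nat_lit 344116) (nat_lit 21) (.e (nat_lit 516195) (nat_lit 26) (.e (nat_lit 336027) (nat_lit 3) .nil)))) .nil)) 
(.lf (nat_lit 222576) (.g (nat_lit 2621) (.e (nat_lit 106240) (nat_lit 10) (.e (nat_lit 344133) (nat_lit 26) (.e (nat_lit 557098) (nat_lit 13) (.e (nat_lit 172067) (nat_lit 3) (.e (nat_lit 204842) (nat_lit 22) .nil))))) .nil))))) (.nd (nat_lit 4) (.nd (nat_lit 5) (.nd (nat_lit 6) 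
(.lf (nat_lit 222472) (.g (nat_lit 1425) (.e (nat_lit 106240) (nat_lit 9) (.e (nat_lit 336021) (nat_lit 3) (.e (nat_lit 98317) (nat_lit 9) (.e (nat_lit 336012) (nat_lit 2) .nil)))) .nil)) 
(.lf (nat_lit 222536) (.g (nat_lit 2495) (.e (nat_lit 106240) (nat_lit 10) (.e (nat_lit 344132) (nat_lit 26) (.e (nat_lit 557100) (nat_lit 13) (.e (nat_lit 172065) (nat_lit 3) (.e (nat_lit 204830) (nat_lit 18) .nil))))) .nil))) (.nd (nat_lit 6) 
(.lf (nat_lit 222504) (.g (nat_lit 1758) (.e (nat_lit 106240) (nat_lit 9) (.e (nat_lit 336213) (nat_lit 13) (.e (nat_lit 393225) (nat_lit 9) (.e (nat_lit 335988) (nat_lit 1) .nil)))) .nil)) 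
(.lf (nat_lit 222568) (.g (nat_lit 2244) (.e (nat_lit 106240) (nat_lit 10) (.e (nat_lit 344133) (nat_lit 26) (.e (nat_lit 557098) (nat_lit 13) (.e (nat_lit 172065) (nat_lit 3) (.e (nat_lit 204831) (nat_lit 18) .nil))))) .nil)))) (.nd (nat_lit 5) (.nd (nat_lit 6) 
(.lf (nat_lit 222488) (.g (nat_lit 2295) (.e (nat_lit 106240) (nat_lit 9) (.e (nat_lit 336099) (nat_lit 9) (.e (nat_lit 336013) (nat_lit 2) (.e (nat_lit 90170) (nat_lit 13) .nil)))) .nil)) 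
(.lf (nat_lit 222552) (.g (nat_lit 2176) (.e (nat_lit 106240) (nat_lit 10) (.e (nat_lit 344132) (nat_lit 26) (.e (nat_lit 557103) (nat_lit 14) (.e (nat_lit 180243) (nat_lit 5) (.e (nat_lit 532503) (nat_lit 1) .nil))))) .nil))) (.nd (nat_lit 6) 
(.lf (nat_lit 222520) (.g (nat_lit 883) (.e (nat_lit 106240) (nat_lit 10) (.e (nat_lit 344131) (nat_lit 26) (.e (nat_lit 557103) (nat_lit 14) (.e (nat_lit 180243) (nat_lit 5) .nil)))) .nil)) 
(.lf (nat_lit 222584) (.g (nat_lit 2292) (.e (nat_lit 106240) (nat_lit 10) (.e (nat_lit 344133) (nat_lit 26) (.e (nat_lit 557103) (nat_lit 14) (.e (nat_lit 180244) (nat_lit 5) (.e (nat_lit 532499) (nat_lit 1) .nil))))) .nil)))))) (.nd (nat_lit 3) (.nd (nat_lit 4) (.nd (nat_lit 5) (.nd (nat_lit 6) 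
(.lf (nat_lit 222468) (.g (nat_lit 525) (.e (nat_lit 106240) (nat_lit 9) (.e (nat_lit 336021) (nat_lit 3) (.e (nat_lit 98317) (nat_lit 9) .nil))) .nil)) 
(.lf (nat_lit 222532) (.g (nat_lit 1404) (.e (nat_lit 106240) (nat_lit 10) (.e (nat_lit 344132) (nat_lit 26) (.e (nat_lit 557100) (nat_lit 13) (.e (nat_lit 172064) (nat_lit 2) .nil)))) .nil))) (.nd (nat_lit 6) 
(.lf (nat_lit 222500) (.g (nat_lit 1358) (.e (nat_lit 106240) (nat_lit 9) (.e (nat_lit 336178) (nat_lit 10) (.e (nat_lit 344117) (nat_lit 21) (.e (nat_lit 516145) (nat_lit 9) .nil)))) .nil)) 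
(.lf (nat_lit 222564) (.g (nat_lit 2397) (.e (nat_lit 106240) (nat_lit 10) (.e (nat_lit 344133) (nat_lit 26) (.e (nat_lit 557098) (nat_lit 13) (.e (nat_lit 172064) (nat_lit 2) (.e (nat_lit 196661) (nat_lit 12) .nil))))) .nil)))) (.nd (nat_lit 5) (.nd (nat_lit 6) 
(.lf (nat_lit 222484) (.g (nat_lit 2412) (.e (nat_lit 106240) (nat_lit 9) (.e (nat_lit 336078) (nat_lit 9) (.e (nat_lit 336454) (nat_lit 34) (.e (nat_lit 483363) (nat_lit 18) (.e (nat_lit 57854) (nat_lit 252) .nil))))) .nil)) 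
(.lf (nat_lit 222548) (.g (nat_lit 1173) (.e (nat_lit 106240) (nat_lit 10) (.e (nat_lit 344132) (nat_lit 26) (.e (nat_lit 557101) (nat_lit 13) (.e (nat_lit 172066) (nat_lit 3) .nil)))) .nil))) (.nd (nat_lit 6) 
(.lf (nat_lit 222516) (.g (nat_lit 2638) (.e (nat_lit 106240) (nat_lit 10) (.e (nat_lit 344129) (nat_lit 26) (.e (nat_lit 557104) (nat_lit 14) (.e (nat_lit 180252) (nat_lit 10) (.e (nat_lit 573474) (nat_lit 12) .nil))))) .nil)) 
(.lf (nat_lit 222580) (.g (nat_lit 1165) (.e (nat_lit 106240) (nat_lit 10) (.e (nat_lit 344133) (nat_lit 26) (.e (nat_lit 557103) (nat_lit 14) (.e (nat_lit 180243) (nat_lit 5) .nil)))) .nil))))) (.nd (nat_lit 4) (.nd (nat_lit 5) (.nd (nat_lit 6) 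
(.lf (nat_lit 222476) (.g (nat_lit 501) (.e (nat_lit 106240) (nat_lit 9) (.e (nat_lit 336028) (nat_lit 3) (.e (nat_lit 98313) (nat_lit 9) .nil))) .nil)) 
(.lf (nat_lit 222540) (.g (nat_lit 2555) (.e (nat_lit 106240) (nat_lit 10) (.e (nat_lit 344132) (nat_lit 26) (.e (nat_lit 557100) (nat_lit 13) (.e (nat_lit 172067) (nat_lit 3) (.e (nat_lit 204829) (nat_lit 18) .nil))))) .nil))) (.nd (nat_lit 6) 
(.lf (nat_lit 222508) (.g (nat_lit 2350) (.e (nat_lit 106240) (nat_lit 9) (.e (nat_lit 336213) (nat_lit 13) (.e (nat_lit 393225) (nat_lit 9) (.e (nat_lit 335996) (nat_lit 1) (.e (nat_lit 57852) (nat_lit 252) .nil))))) .nil)) 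
(.lf (nat_lit 222572) (.g (nat_lit 1285) (.e (nat_lit 106240) (nat_lit 10) (.e (nat_lit 344133) (nat_lit 26) (.e (nat_lit 557098) (nat_lit 13) (.e (nat_lit 172067) (nat_lit 3) .nil)))) .nil)))) (.nd (nat_lit 5) (.nd (nat_lit 6) 
(.lf (nat_lit 222492) (.g (nat_lit 578) (.e (nat_lit 106240) (nat_lit 9) (.e (nat_lit 336121) (nat_lit 9) (.e (nat_lit 336453) (nat_lit 34) (.e (nat_lit 483365) (nat_lit 18) (.e (nat_lit 57848) (nat_lit 252) .nil))))) .nil)) 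
(.lf (nat_lit 222556) (.g (nat_lit 2736) (.e (nat_lit 106240) (nat_lit 10) (.e (nat_lit 344132) (nat_lit 26) (.e (nat_lit 557105) (nat_lit 14) (.e (nat_lit 180252) (nat_lit 10) (.e (nat_lit 573450) (nat_lit 9) .nil))))) .nil))) (.nd (nat_lit 6) 
(.lf (nat_lit 222524) (.g (nat_lit 1958) (.e (nat_lit 106240) (nat_lit 10) (.e (nat_lit 344131) (nat_lit 26) (.e (nat_lit 557103) (nat_lit 14) (.e (nat_lit 180250) (nat_lit 10) (.e (nat_lit 573475) (nat_lit 12) .nil))))) .nil)) 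
(.lf (nat_lit 222588) (.g (nat_lit 2254) (.e (nat_lit 106240) (nat_lit 10) (.e (nat_lit 344133) (nat_lit 26) (.e (nat_lit 557103) (nat_lit 14) (.e (nat_lit 180250) (nat_lit 10) (.e (nat_lit 573478) (nat_lit 12) .nil))))) .nil))))))) (.nd (nat_lit 2) (.nd (nat_lit 3) (.nd (nat_lit 4) (.nd (nat_lit 5) (.nd (nat_lit 6) 
(.lf (nat_lit 222466) (.g (nat_lit 1800) (.e (nat_lit 106240) (nat_lit 9) (.e (nat_lit 336021) (nat_lit 3) (.e (nat_lit 98313) (nat_lit 9) (.e (nat_lit 336021) (nat_lit 3) (.e (nat_lit 98317) (nat_lit 9) .nil))))) .nil)) 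
(.lf (nat_lit 222530) (.g (nat_lit 2240) (.e (nat_lit 106240) (nat_lit 10) (.e (nat_lit 344131) (nat_lit 26) (.e (nat_lit 557105) (nat_lit 14) (.e (nat_lit 180252) (nat_lit 10) (.e (nat_lit 573458) (nat_lit 9) .nil))))) .nil))) (.nd (nat_lit 6) 
(.lf (nat_lit 222498) (.g (nat_lit 1391) (.e (nat_lit 106240) (nat_lit 9) (.e (nat_lit 336177) (nat_lit 10) (.e (nat_lit 344117) (nat_lit 21) (.e (nat_lit 516147) (nat_lit 9) (.e (nat_lit 426446) (nat_lit 20) .nil))))) .nil)) 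
(.lf (nat_lit 222562) (.g (nat_lit 394) (.e (nat_lit 106240) (nat_lit 10) (.e (nat_lit 344133) (nat_lit 26) (.e (nat_lit 557098) (nat_lit 13) .nil))) .nil)))) (.nd (nat_lit 5) (.nd (nat_lit 6) 
(.lf (nat_lit 222482) (.g (nat_lit 665) (.e (nat_lit 106240) (nat_lit 9) (.e (nat_lit 336078) (nat_lit 9) (.e (nat_lit 336454) (nat_lit 34) .nil))) .nil)) 
(.lf (nat_lit 222546) (.g (nat_lit 1955) (.e (nat_lit 106240) (nat_lit 10) (.e (nat_lit 344132) (nat_lit 26) (.e (nat_lit 557101) (nat_lit 13) (.e (nat_lit 172065) (nat_lit 3) (.e (nat_lit 204821) (nat_lit 17) .nil))))) .nil))) (.nd (nat_lit 6) 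
(.lf (nat_lit 222514) (.g (nat_lit 2164) (.e (nat_lit 106240) (nat_lit 10) (.e (nat_lit 344119) (nat_lit 21) (.e (nat_lit 516129) (nat_lit 3) (.e (nat_lit 221215) (nat_lit 23) (.e (nat_lit 204828) (nat_lit 18) .nil))))) .nil)) 
(.lf (nat_lit 222578) (.g (nat_lit 1421) (.e (nat_lit 106240) (nat_lit 10) (.e (nat_lit 344133) (nat_lit 26) (.e (nat_lit 557103) (nat_lit 14) (.e (nat_lit 188160) (nat_lit 3) .nil)))) .nil))))) (.nd (nat_lit 4) (.nd (nat_lit 5) (.nd (nat_lit 6) 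
(.lf (nat_lit 222474) (.g (nat_lit 680) (.e (nat_lit 106240) (nat_lit 9) (.e (nat_lit 336025) (nat_lit 3) (.e (nat_lit 98313) (nat_lit 9) (.e (nat_lit 336027) (nat_lit 3) .nil)))) .nil)) 
(.lf (nat_lit 222538) (.g (nat_lit 1465) (.e (nat_lit 106240) (nat_lit 10) (.e (nat_lit 344132) (nat_lit 26) (.e (nat_lit 557100) (nat_lit 13) (.e (nat_lit 172067) (nat_lit 3) .nil)))) .nil))) (.nd (nat_lit 6) 
(.lf (nat_lit 222506) (.g (nat_lit 2147) (.e (nat_lit 106240) (nat_lit 9) (.e (nat_lit 336213) (nat_lit 13) (.e (nat_lit 393225) (nat_lit 9) (.e (nat_lit 335995) (nat_lit 1) (.e (nat_lit 57848) (nat_lit 252) .nil))))) .nil)) 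
(.lf (nat_lit 222570) (.g (nat_lit 2199) (.e (nat_lit 106240) (nat_lit 10) (.e (nat_lit 344133) (nat_lit 26) (.e (nat_lit 557098) (nat_lit 13) (.e (nat_lit 172066) (nat_lit 3) (.e (nat_lit 204821) (nat_lit 17) .nil))))) .nil)))) (.nd (nat_lit 5) (.nd (nat_lit 6) 
(.lf (nat_lit 222490) (.g (nat_lit 341) (.e (nat_lit 106240) (nat_lit 9) (.e (nat_lit 336116) (nat_lit 9) (.e (nat_lit 336453) (nat_lit 34) (.e (nat_lit 491264) (nat_lit 3) .nil)))) .nil)) 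
(.lf (nat_lit 222554) (.g (nat_lit 1882) (.e (nat_lit 106240) (nat_lit 10) (.e (nat_lit 344132) (nat_lit 26) (.e (nat_lit 557105) (nat_lit 14) (.e (nat_lit 180245) (nat_lit 5) (.e (nat_lit 532503) (nat_lit 1) .nil))))) .nil))) (.nd (nat_lit 6) 
(.lf (nat_lit 222522) (.g (nat_lit 2061) (.e (nat_lit 106240) (nat_lit 10) (.e (nat_lit 344131) (nat_lit 26) (.e (nat_lit 557103) (nat_lit 14) (.e (nat_lit 180244) (nat_lit 5) (.e (nat_lit 532503) (nat_lit 1) .nil))))) .nil)) 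
(.lf (nat_lit 222586) (.g (nat_lit 1385) (.e (nat_lit 106240) (nat_lit 10) (.e (nat_lit 344133) (nat_lit 26) (.e (nat_lit 557103) (nat_lit 14) (.e (nat_lit 180250) (nat_lit 10) .nil)))) .nil)))))) (.nd (nat_lit 3) (.nd (nat_lit 4) (.nd (nat_lit 5) (.nd (nat_lit 6) 
(.lf (nat_lit 222470) (.g (nat_lit 1719) (.e (nat_lit 106240) (nat_lit 9) (.e (nat_lit 336021) (nat_lit 3) (.e (nat_lit 98317) (nat_lit 9) (.e (nat_lit 336004) (nat_lit 2) .nil)))) .nil)) 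
(.lf (nat_lit 222534) (.g (nat_lit 2710) (.e (nat_lit 106240) (nat_lit 10) (.e (nat_lit 344132) (nat_lit 26) (.e (nat_lit 557100) (nat_lit 13) (.e (nat_lit 172065) (nat_lit 3) (.e (nat_lit 204821) (nat_lit 17) .nil))))) .nil))) (.nd (nat_lit 6) 
(.lf (nat_lit 222502) (.g (nat_lit 1537) (.e (nat_lit 106240) (nat_lit 9) (.e (nat_lit 336212) (nat_lit 13) (.e (nat_lit 393225) (nat_lit 9) (.e (nat_lit 335996) (nat_lit 1) (.e (nat_lit 57852) (nat_lit 252) .nil))))) .nil)) 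
(.lf (nat_lit 222566) (.g (nat_lit 2358) (.e (nat_lit 106240) (nat_lit 10) (.e (nat_lit 344133) (nat_lit 26) (.e (nat_lit 557098) (nat_lit 13) (.e (nat_lit 172065) (nat_lit 3) (.e (nat_lit 204821) (nat_lit 17) .nil))))) .nil)))) (.nd (nat_lit 5) (.nd (nat_lit 6) 
(.lf (nat_lit 222486) (.g (nat_lit 2361) (.e (nat_lit 106240) (nat_lit 9) (.e (nat_lit 336078) (nat_lit 9) (.e (nat_lit 336454) (nat_lit 34) (.e (nat_lit 483365) (nat_lit 18) (.e (nat_lit 57846) (nat_lit 252) .nil))))) .nil)) 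
(.lf (nat_lit 222550) (.g (nat_lit 1760) (.e (nat_lit 106240) (nat_lit 10) (.e (nat_lit 344132) (nat_lit 26) (.e (nat_lit 557101) (nat_lit 13) (.e (nat_lit 172066) (nat_lit 3) (.e (nat_lit 204829) (nat_lit 18) .nil))))) .nil))) (.nd (nat_lit 6) 
(.lf (nat_lit 222518) (.g (nat_lit 2292) (.e (nat_lit 106240) (nat_lit 10) (.e (nat_lit 344131) (nat_lit 26) (.e (nat_lit 557100) (nat_lit 13) (.e (nat_lit 172062) (nat_lit 2) (.e (nat_lit 196661) (nat_lit 12) .nil))))) .nil)) 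
(.lf (nat_lit 222582) (.g (nat_lit 2228) (.e (nat_lit 106240) (nat_lit 10) (.e (nat_lit 344133) (nat_lit 26) (.e (nat_lit 557103) (nat_lit 14) (.e (nat_lit 180243) (nat_lit 5) (.e (nat_lit 532503) (nat_lit 1) .nil))))) .nil))))) (.nd (nat_lit 4) (.nd (nat_lit 5) (.nd (nat_lit 6) 
(.lf (nat_lit 222478) (.g (nat_lit 1454) (.e (nat_lit 106240) (nat_lit 9) (.e (nat_lit 336028) (nat_lit 3) (.e (nat_lit 98313) (nat_lit 9) (.e (nat_lit 336027) (nat_lit 3) (.e (nat_lit 98312) (nat_lit 9) .nil))))) .nil)) 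
(.lf (nat_lit 222542) (.g (nat_lit 2686) (.e (nat_lit 106240) (nat_lit 10) (.e (nat_lit 344132) (nat_lit 26) (.e (nat_lit 557100) (nat_lit 13) (.e (nat_lit 172067) (nat_lit 3) (.e (nat_lit 204841) (nat_lit 22) .nil))))) .nil))) (.nd (nat_lit 6) 
(.lf (nat_lit 222510) (.g (nat_lit 3321) (.e (nat_lit 106240) (nat_lit 9) (.e (nat_lit 336324) (nat_lit 18) (.e (nat_lit 204854) (nat_lit 26) (.e (nat_lit 336019) (nat_lit 3) (.e (nat_lit 98342) (nat_lit 20) .nil))))) .nil)) 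
(.lf (nat_lit 222574) (.g (nat_lit 2669) (.e (nat_lit 106240) (nat_lit 10) (.e (nat_lit 344133) (nat_lit 26) (.e (nat_lit 557098) (nat_lit 13) (.e (nat_lit 172067) (nat_lit 3) (.e (nat_lit 204831) (nat_lit 18) .nil))))) .nil)))) (.nd (nat_lit 5) (.nd (nat_lit 6) 
(.lf (nat_lit 222494) (.g (nat_lit 755) (.e (nat_lit 106240) (nat_lit 9) (.e (nat_lit 336158) (nat_lit 9) (.e (nat_lit 336021) (nat_lit 3) (.e (nat_lit 98357) (nat_lit 26) .nil)))) .nil)) 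
(.lf (nat_lit 222558) (.g (nat_lit 2915) (.e (nat_lit 106240) (nat_lit 10) (.e (nat_lit 344132) (nat_lit 26) (.e (nat_lit 557105) (nat_lit 14) (.e (nat_lit 180252) (nat_lit 10) (.e (nat_lit 573459) (nat_lit 9) .nil))))) .nil))) (.nd (nat_lit 6) 
(.lf (nat_lit 222526) (.g (nat_lit 1190) (.e (nat_lit 106240) (nat_lit 10) (.e (nat_lit 344131) (nat_lit 26) (.e (nat_lit 557105) (nat_lit 14) (.e (nat_lit 180245) (nat_lit 5) .nil)))) .nil)) 
(.lf (nat_lit 222590) (.g (nat_lit 425) (.e (nat_lit 106240) (nat_lit 10) (.e (nat_lit 344133) (nat_lit 26) (.e (nat_lit 557105) (nat_lit 14) .nil))) .nil)))))))) (.nd (nat_lit 1) (.nd (nat_lit 2) (.nd (nat_lit 3) (.nd (nat_lit 4) (.nd (nat_lit 5) (.nd (nat_lit 6) 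
(.lf (nat_lit 222465) (.g (nat_lit 2056) (.e (nat_lit 106240) (nat_lit 9) (.e (nat_lit 336021) (nat_lit 3) (.e (nat_lit 98313) (nat_lit 9) (.e (nat_lit 336021) (nat_lit 3) (.e (nat_lit 98313) (nat_lit 9) .nil))))) .nil)) 
(.lf (nat_lit 222529) (.g (nat_lit 2239) (.e (nat_lit 106240) (nat_lit 10) (.e (nat_lit 344131) (nat_lit 26) (.e (nat_lit 557105) (nat_lit 14) (.e (nat_lit 180252) (nat_lit 10) (.e (nat_lit 573452) (nat_lit 9) .nil))))) .nil))) (.nd (nat_lit 6) 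
(.lf (nat_lit 222497) (.g (nat_lit 590) (.e (nat_lit 106240) (nat_lit 9) (.e (nat_lit 336164) (nat_lit 10) (.e (nat_lit 344117) (nat_lit 21) (.e (nat_lit 516151) (nat_lit 9) .nil)))) .nil)) 
(.lf (nat_lit 222561) (.g (nat_lit 2401) (.e (nat_lit 106240) (nat_lit 10) (.e (nat_lit 344133) (nat_lit 26) (.e (nat_lit 557096) (nat_lit 13) (.e (nat_lit 172067) (nat_lit 3) (.e (nat_lit 204829) (nat_lit 18) .nil))))) .nil)))) (.nd (nat_lit 5) (.nd (nat_lit 6) 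
(.lf (nat_lit 222481) (.g (nat_lit 1803) (.e (nat_lit 106240) (nat_lit 9) (.e (nat_lit 336077) (nat_lit 9) (.e (nat_lit 336454) (nat_lit 34) (.e (nat_lit 483365) (nat_lit 18) (.e (nat_lit 57849) (nat_lit 252) .nil))))) .nil)) 
(.lf (nat_lit 222545) (.g (nat_lit 1065) (.e (nat_lit 106240) (nat_lit 10) (.e (nat_lit 344132) (nat_lit 26) (.e (nat_lit 557101) (nat_lit 13) (.e (nat_lit 172065) (nat_lit 3) .nil)))) .nil))) (.nd (nat_lit 6) 
(.lf (nat_lit 222513) (.g (nat_lit 1981) (.e (nat_lit 106240) (nat_lit 10) (.e (nat_lit 344119) (nat_lit 21) (.e (nat_lit 516129) (nat_lit 3) (.e (nat_lit 221210) (nat_lit 22) (.e (nat_lit 196626) (nat_lit 9) .nil))))) .nil)) 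
(.lf (nat_lit 222577) (.g (nat_lit 511) (.e (nat_lit 106240) (nat_lit 10) (.e (nat_lit 344133) (nat_lit 26) (.e (nat_lit 557103) (nat_lit 14) .nil))) .nil))))) (.nd (nat_lit 4) (.nd (nat_lit 5) (.nd (nat_lit 6) 
(.lf (nat_lit 222473) (.g (nat_lit 1900) (.e (nat_lit 106240) (nat_lit 9) (.e (nat_lit 336021) (nat_lit 3) (.e (nat_lit 98317) (nat_lit 9) (.e (nat_lit 336012) (nat_lit 2) (.e (nat_lit 90160) (nat_lit 11) .nil))))) .nil)) 
(.lf (nat_lit 222537) (.g (nat_lit 2684) (.e (nat_lit 106240) (nat_lit 10) (.e (nat_lit 344132) (nat_lit 26) (.e (nat_lit 557100) (nat_lit 13) (.e (nat_lit 172065) (nat_lit 3) (.e (nat_lit 204831) (nat_lit 18) .nil))))) .nil))) (.nd (nat_lit 6) 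
(.lf (nat_lit 222505) (.g (nat_lit 1744) (.e (nat_lit 106240) (nat_lit 9) (.e (nat_lit 336213) (nat_lit 13) (.e (nat_lit 393225) (nat_lit 9) (.e (nat_lit 335995) (nat_lit 1) .nil)))) .nil)) 
(.lf (nat_lit 222569) (.g (nat_lit 1524) (.e (nat_lit 106240) (nat_lit 10) (.e (nat_lit 344133) (nat_lit 26) (.e (nat_lit 557098) (nat_lit 13) (.e (nat_lit 172066) (nat_lit 3) .nil)))) .nil)))) (.nd (nat_lit 5) (.nd (nat_lit 6) 
(.lf (nat_lit 222489) (.g (nat_lit 4771) (.e (nat_lit 106240) (nat_lit 9) (.e (nat_lit 336099) (nat_lit 9) (.e (nat_lit 336013) (nat_lit 2) (.e (nat_lit 90170) (nat_lit 13) (.e (nat_lit 179968) (nat_lit 24) .nil))))) .nil)) 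
(.lf (nat_lit 222553) (.g (nat_lit 2344) (.e (nat_lit 106240) (nat_lit 10) (.e (nat_lit 344132) (nat_lit 26) (.e (nat_lit 557103) (nat_lit 14) (.e (nat_lit 180244) (nat_lit 5) (.e (nat_lit 532499) (nat_lit 1) .nil))))) .nil))) (.nd (nat_lit 6) 
(.lf (nat_lit 222521) (.g (nat_lit 1032) (.e (nat_lit 106240) (nat_lit 10) (.e (nat_lit 344131) (nat_lit 26) (.e (nat_lit 557103) (nat_lit 14) (.e (nat_lit 180244) (nat_lit 5) .nil)))) .nil)) 
(.lf (nat_lit 222585) (.g (nat_lit 2515) (.e (nat_lit 106240) (nat_lit 10) (.e (nat_lit 344133) (nat_lit 26) (.e (nat_lit 557103) (nat_lit 14) (.e (nat_lit 180244) (nat_lit 5) (.e (nat_lit 532503) (nat_lit 1) .nil))))) .nil)))))) (.nd (nat_lit 3) (.nd (nat_lit 4) (.nd (nat_lit 5) (.nd (nat_lit 6) 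
(.lf (nat_lit 222469) (.g (nat_lit 1777) (.e (nat_lit 106240) (nat_lit 9) (.e (nat_lit 336021) (nat_lit 3) (.e (nat_lit 98317) (nat_lit 9) (.e (nat_lit 336002) (nat_lit 2) .nil)))) .nil)) 
(.lf (nat_lit 222533) (.g (nat_lit 1714) (.e (nat_lit 106240) (nat_lit 10) (.e (nat_lit 344132) (nat_lit 26) (.e (nat_lit 557100) (nat_lit 13) (.e (nat_lit 172065) (nat_lit 3) .nil)))) .nil))) (.nd (nat_lit 6) 
(.lf (nat_lit 222501) (.g (nat_lit 1343) (.e (nat_lit 106240) (nat_lit 9) (.e (nat_lit 336212) (nat_lit 13) (.e (nat_lit 393225) (nat_lit 9) (.e (nat_lit 335996) (nat_lit 1) (.e (nat_lit 57851) (nat_lit 252) .nil))))) .nil)) 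
(.lf (nat_lit 222565) (.g (nat_lit 1411) (.e (nat_lit 106240) (nat_lit 10) (.e (nat_lit 344133) (nat_lit 26) (.e (nat_lit 557098) (nat_lit 13) (.e (nat_lit 172065) (nat_lit 3) .nil)))) .nil)))) (.nd (nat_lit 5) (.nd (nat_lit 6) 
(.lf (nat_lit 222485) (.g (nat_lit 1756) (.e (nat_lit 106240) (nat_lit 9) (.e (nat_lit 336078) (nat_lit 9) (.e (nat_lit 336454) (nat_lit 34) (.e (nat_lit 483364) (nat_lit 18) (.e (nat_lit 57854) (nat_lit 252) .nil))))) .nil)) 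
(.lf (nat_lit 222549) (.g (nat_lit 1762) (.e (nat_lit 106240) (nat_lit 10) (.e (nat_lit 344132) (nat_lit 26) (.e (nat_lit 557101) (nat_lit 13) (.e (nat_lit 172066) (nat_lit 3) (.e (nat_lit 204822) (nat_lit 17) .nil))))) .nil))) (.nd (nat_lit 6) 
(.lf (nat_lit 222517) (.g (nat_lit 1948) (.e (nat_lit 106240) (nat_lit 10) (.e (nat_lit 344131) (nat_lit 26) (.e (nat_lit 557098) (nat_lit 13) (.e (nat_lit 172066) (nat_lit 3) (.e (nat_lit 204829) (nat_lit 18) .nil))))) .nil)) 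
(.lf (nat_lit 222581) (.g (nat_lit 2080) (.e (nat_lit 106240) (nat_lit 10) (.e (nat_lit 344133) (nat_lit 26) (.e (nat_lit 557103) (nat_lit 14) (.e (nat_lit 180243) (nat_lit 5) (.e (nat_lit 532499) (nat_lit 1) .nil))))) .nil))))) (.nd (nat_lit 4) (.nd (nat_lit 5) (.nd (nat_lit 6) 
(.lf (nat_lit 222477) (.g (nat_lit 908) (.e (nat_lit 106240) (nat_lit 9) (.e (nat_lit 336028) (nat_lit 3) (.e (nat_lit 98313) (nat_lit 9) (.e (nat_lit 336021) (nat_lit 3) .nil)))) .nil)) 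
(.lf (nat_lit 222541) (.g (nat_lit 2694) (.e (nat_lit 106240) (nat_lit 10) (.e (nat_lit 344132) (nat_lit 26) (.e (nat_lit 557100) (nat_lit 13) (.e (nat_lit 172067) (nat_lit 3) (.e (nat_lit 204831) (nat_lit 18) .nil))))) .nil))) (.nd (nat_lit 6) 
(.lf (nat_lit 222509) (.g (nat_lit 1212) (.e (nat_lit 106240) (nat_lit 9) (.e (nat_lit 336213) (nat_lit 13) (.e (nat_lit 393229) (nat_lit 9) (.e (nat_lit 335994) (nat_lit 1) .nil)))) .nil)) 
(.lf (nat_lit 222573) (.g (nat_lit 2305) (.e (nat_lit 106240) (nat_lit 10) (.e (nat_lit 344133) (nat_lit 26) (.e (nat_lit 557098) (nat_lit 13) (.e (nat_lit 172067) (nat_lit 3) (.e (nat_lit 204821) (nat_lit 17) .nil))))) .nil)))) (.nd (nat_lit 5) (.nd (nat_lit 6) 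
(.lf (nat_lit 222493) (.g (nat_lit 427) (.e (nat_lit 106240) (nat_lit 9) (.e (nat_lit 336121) (nat_lit 9) (.e (nat_lit 336453) (nat_lit 34) (.e (nat_lit 483366) (nat_lit 18) .nil)))) .nil)) 
(.lf (nat_lit 222557) (.g (nat_lit 2155) (.e (nat_lit 106240) (nat_lit 10) (.e (nat_lit 344132) (nat_lit 26) (.e (nat_lit 557105) (nat_lit 14) (.e (nat_lit 180252) (nat_lit 10) (.e (nat_lit 573458) (nat_lit 9) .nil))))) .nil))) (.nd (nat_lit 6) 
(.lf (nat_lit 222525) (.g (nat_lit 2068) (.e (nat_lit 106240) (nat_lit 10) (.e (nat_lit 344131) (nat_lit 26) (.e (nat_lit 557103) (nat_lit 14) (.e (nat_lit 180250) (nat_lit 10) (.e (nat_lit 573478) (nat_lit 12) .nil))))) .nil)) 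
(.lf (nat_lit 222589) (.g (nat_lit 1637) (.e (nat_lit 106240) (nat_lit 10) (.e (nat_lit 344133) (nat_lit 26) (.e (nat_lit 557103) (nat_lit 14) (.e (nat_lit 180252) (nat_lit 10) .nil)))) .nil))))))) (.nd (nat_lit 2) (.nd (nat_lit 3) (.nd (nat_lit 4) (.nd (nat_lit 5) (.nd (nat_lit 6) 
(.lf (nat_lit 222467) (.g (nat_lit 1079) (.e (nat_lit 106240) (nat_lit 9) (.e (nat_lit 336021) (nat_lit 3) (.e (nat_lit 98313) (nat_lit 9) (.e (nat_lit 336027) (nat_lit 3) .nil)))) .nil)) 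
(.lf (nat_lit 222531) (.g (nat_lit 1853) (.e (nat_lit 106240) (nat_lit 10) (.e (nat_lit 344132) (nat_lit 26) (.e (nat_lit 557100) (nat_lit 13) (.e (nat_lit 172062) (nat_lit 2) .nil)))) .nil))) (.nd (nat_lit 6) 
(.lf (nat_lit 222499) (.g (nat_lit 253) (.e (nat_lit 106240) (nat_lit 9) (.e (nat_lit 336178) (nat_lit 10) (.e (nat_lit 344117) (nat_lit 21) .nil))) .nil)) 
(.lf (nat_lit 222563) (.g (nat_lit 1511) (.e (nat_lit 106240) (nat_lit 10) (.e (nat_lit 344133) (nat_lit 26) (.e (nat_lit 557098) (nat_lit 13) (.e (nat_lit 172063) (nat_lit 2) .nil)))) .nil)))) (.nd (nat_lit 5) (.nd (nat_lit 6) 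
(.lf (nat_lit 222483) (.g (nat_lit 2062) (.e (nat_lit 106240) (nat_lit 9) (.e (nat_lit 336078) (nat_lit 9) (.e (nat_lit 336454) (nat_lit 34) (.e (nat_lit 483363) (nat_lit 18) (.e (nat_lit 57847) (nat_lit 252) .nil))))) .nil)) 
(.lf (nat_lit 222547) (.g (nat_lit 1852) (.e (nat_lit 106240) (nat_lit 10) (.e (nat_lit 344132) (nat_lit 26) (.e (nat_lit 557101) (nat_lit 13) (.e (nat_lit 172065) (nat_lit 3) (.e (nat_lit 204829) (nat_lit 18) .nil))))) .nil))) (.nd (nat_lit 6) 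
(.lf (nat_lit 222515) (.g (nat_lit 998) (.e (nat_lit 106240) (nat_lit 10) (.e (nat_lit 344127) (nat_lit 26) (.e (nat_lit 557104) (nat_lit 14) (.e (nat_lit 180244) (nat_lit 5) .nil)))) .nil)) 
(.lf (nat_lit 222579) (.g (nat_lit 1637) (.e (nat_lit 106240) (nat_lit 10) (.e (nat_lit 344133) (nat_lit 26) (.e (nat_lit 557103) (nat_lit 14) (.e (nat_lit 180242) (nat_lit 5) .nil)))) .nil))))) (.nd (nat_lit 4) (.nd (nat_lit 5) (.nd (nat_lit 6) 
(.lf (nat_lit 222475) (.g (nat_lit 951) (.e (nat_lit 106240) (nat_lit 9) (.e (nat_lit 336028) (nat_lit 3) (.e (nat_lit 98312) (nat_lit 9) (.e (nat_lit 336012) (nat_lit 2) .nil)))) .nil)) 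
(.lf (nat_lit 222539) (.g (nat_lit 2481) (.e (nat_lit 106240) (nat_lit 10) (.e (nat_lit 344132) (nat_lit 26) (.e (nat_lit 557100) (nat_lit 13) (.e (nat_lit 172067) (nat_lit 3) (.e (nat_lit 204821) (nat_lit 17) .nil))))) .nil))) (.nd (nat_lit 6) 
(.lf (nat_lit 222507) (.g (nat_lit 1746) (.e (nat_lit 106240) (nat_lit 9) (.e (nat_lit 336213) (nat_lit 13) (.e (nat_lit 393225) (nat_lit 9) (.e (nat_lit 335996) (nat_lit 1) .nil)))) .nil)) 
(.lf (nat_lit 222571) (.g (nat_lit 2199) (.e (nat_lit 106240) (nat_lit 10) (.e (nat_lit 344133) (nat_lit 26) (.e (nat_lit 557098) (nat_lit 13) (.e (nat_lit 172066) (nat_lit 3) (.e (nat_lit 204822) (nat_lit 17) .nil))))) .nil)))) (.nd (nat_lit 5) (.nd (nat_lit 6) 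
(.lf (nat_lit 222491) (.g (nat_lit 381) (.e (nat_lit 106240) (nat_lit 9) (.e (nat_lit 336118) (nat_lit 9) (.e (nat_lit 336453) (nat_lit 34) (.e (nat_lit 491264) (nat_lit 3) .nil)))) .nil)) 
(.lf (nat_lit 222555) (.g (nat_lit 1228) (.e (nat_lit 106240) (nat_lit 10) (.e (nat_lit 344132) (nat_lit 26) (.e (nat_lit 557105) (nat_lit 14) (.e (nat_lit 180251) (nat_lit 10) (.e (nat_lit 573478) (nat_lit 12) .nil))))) .nil))) (.nd (nat_lit 6) 
(.lf (nat_lit 222523) (.g (nat_lit 1136) (.e (nat_lit 106240) (nat_lit 10) (.e (nat_lit 344131) (nat_lit 26) (.e (nat_lit 557103) (nat_lit 14) (.e (nat_lit 180250) (nat_lit 10) .nil)))) .nil)) 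
(.lf (nat_lit 222587) (.g (nat_lit 2081) (.e (nat_lit 106240) (nat_lit 10) (.e (nat_lit 344133) (nat_lit 26) (.e (nat_lit 557103) (nat_lit 14) (.e (nat_lit 180250) (nat_lit 10) (.e (nat_lit 573475) (nat_lit 12) .nil))))) .nil)))))) (.nd (nat_lit 3) (.nd (nat_lit 4) (.nd (nat_lit 5) (.nd (nat_lit 6) 
(.lf (nat_lit 222471) (.g (nat_lit 1824) (.e (nat_lit 106240) (nat_lit 9) (.e (nat_lit 336021) (nat_lit 3) (.e (nat_lit 98317) (nat_lit 9) (.e (nat_lit 336010) (nat_lit 2) .nil)))) .nil)) 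
(.lf (nat_lit 222535) (.g (nat_lit 2615) (.e (nat_lit 106240) (nat_lit 10) (.e (nat_lit 344132) (nat_lit 26) (.e (nat_lit 557100) (nat_lit 13) (.e (nat_lit 172065) (nat_lit 3) (.e (nat_lit 204829) (nat_lit 18) .nil))))) .nil))) (.nd (nat_lit 6) 
(.lf (nat_lit 222503) (.g (nat_lit 1792) (.e (nat_lit 106240) (nat_lit 9) (.e (nat_lit 336213) (nat_lit 13) (.e (nat_lit 393225) (nat_lit 9) (.e (nat_lit 335986) (nat_lit 1) .nil)))) .nil)) 
(.lf (nat_lit 222567) (.g (nat_lit 2252) (.e (nat_lit 106240) (nat_lit 10) (.e (nat_lit 344133) (nat_lit 26) (.e (nat_lit 557098) (nat_lit 13) (.e (nat_lit 172065) (nat_lit 3) (.e (nat_lit 204829) (nat_lit 18) .nil))))) .nil)))) (.nd (nat_lit 5) (.nd (nat_lit 6) 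
(.lf (nat_lit 222487) (.g (nat_lit 1834) (.e (nat_lit 106240) (nat_lit 9) (.e (nat_lit 336078) (nat_lit 9) (.e (nat_lit 336454) (nat_lit 34) (.e (nat_lit 483365) (nat_lit 18) (.e (nat_lit 57849) (nat_lit 252) .nil))))) .nil)) 
(.lf (nat_lit 222551) (.g (nat_lit 2498) (.e (nat_lit 106240) (nat_lit 10) (.e (nat_lit 344132) (nat_lit 26) (.e (nat_lit 557101) (nat_lit 13) (.e (nat_lit 172067) (nat_lit 3) (.e (nat_lit 204829) (nat_lit 18) .nil))))) .nil))) (.nd (nat_lit 6) 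
(.lf (nat_lit 222519) (.g (nat_lit 1486) (.e (nat_lit 106240) (nat_lit 10) (.e (nat_lit 344131) (nat_lit 26) (.e (nat_lit 557100) (nat_lit 13) (.e (nat_lit 172065) (nat_lit 3) .nil)))) .nil)) 
(.lf (nat_lit 222583) (.g (nat_lit 1521) (.e (nat_lit 106240) (nat_lit 10) (.e (nat_lit 344133) (nat_lit 26) (.e (nat_lit 557103) (nat_lit 14) (.e (nat_lit 180244) (nat_lit 5) .nil)))) .nil))))) (.nd (nat_lit 4) (.nd (nat_lit 5) (.nd (nat_lit 6) 
(.lf (nat_lit 222479) (.g (nat_lit 623) (.e (nat_lit 106240) (nat_lit 9) (.e (nat_lit 336028) (nat_lit 3) (.e (nat_lit 106240) (nat_lit 10) .nil))) .nil)) 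
(.lf (nat_lit 222543) (.g (nat_lit 458) (.e (nat_lit 106240) (nat_lit 10) (.e (nat_lit 344132) (nat_lit 26) (.e (nat_lit 557101) (nat_lit 13) .nil))) .nil))) (.nd (nat_lit 6) 
(.lf (nat_lit 222511) (.g (nat_lit 822) (.e (nat_lit 106240) (nat_lit 10) (.e (nat_lit 344096) (nat_lit 18) (.e (nat_lit 5568) (nat_lit 308) (.e (nat_lit 57367) (nat_lit 1) (.e (nat_lit 57870) (nat_lit 264) .nil))))) .nil)) 
(.lf (nat_lit 222575) (.g (nat_lit 2571) (.e (nat_lit 106240) (nat_lit 10) (.e (nat_lit 344133) (nat_lit 26) (.e (nat_lit 557098) (nat_lit 13) (.e (nat_lit 172067) (nat_lit 3) (.e (nat_lit 204841) (nat_lit 22) .nil))))) .nil)))) (.nd (nat_lit 5) (.nd (nat_lit 6) 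
(.lf (nat_lit 222495) (.g (nat_lit 858) (.e (nat_lit 106240) (nat_lit 9) (.e (nat_lit 336158) (nat_lit 9) (.e (nat_lit 336021) (nat_lit 3) (.e (nat_lit 98385) (nat_lit 32) .nil)))) .nil)) 
(.lf (nat_lit 222559) (.g (nat_lit 2950) (.e (nat_lit 106240) (nat_lit 10) (.e (nat_lit 344132) (nat_lit 26) (.e (nat_lit 557105) (nat_lit 14) (.e (nat_lit 180252) (nat_lit 10) (.e (nat_lit 573463) (nat_lit 9) .nil))))) .nil))) (.nd (nat_lit 6) 
(.lf (nat_lit 222527) (.g (nat_lit 1510) (.e (nat_lit 106240) (nat_lit 10) (.e (nat_lit 344131) (nat_lit 26) (.e (nat_lit 557105) (nat_lit 14) (.e (nat_lit 180251) (nat_lit 10) (.e (nat_lit 573478) (nat_lit 12) .nil))))) .nil)) 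
(.lf (nat_lit 222591) (.g (nat_lit 1466) (.e (nat_lit 106240) (nat_lit 10) (.e (nat_lit 344133) (nat_lit 26) (.e (nat_lit 557105) (nat_lit 14) (.e (nat_lit 188160) (nat_lit 3) .nil)))) .nil)))))))))

noncomputable def tv2922 : DT := (.nd (nat_lit 0) (.nd (nat_lit 1) (.nd (nat_lit 2) (.nd (nat_lit 3) (.nd (nat_lit 4) (.nd (nat_lit 5) (.nd (nat_lit 6) 
(.lf (nat_lit 222592) (.g (nat_lit 1761) (.e (nat_lit 106240) (nat_lit 10) (.e (nat_lit 344133) (nat_lit 26) (.e (nat_lit 557105) (nat_lit 14) (.e (nat_lit 180244) (nat_lit 5) .nil)))) .nil)) 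
(.lf (nat_lit 222656) (.g (nat_lit 1334) (.e (nat_lit 106240) (nat_lit 11) (.e (nat_lit 352315) (nat_lit 23) (.e (nat_lit 98356) (nat_lit 26) (.e (nat_lit 426440) (nat_lit 19) .nil)))) .nil))) (.nd (nat_lit 6) 
(.lf (nat_lit 222624) (.g (nat_lit 761) (.e (nat_lit 106240) (nat_lit 11) (.e (nat_lit 352312) (nat_lit 22) (.e (nat_lit 90141) (nat_lit 9) .nil))) .nil)) 
(.lf (nat_lit 222688) (.g (nat_lit 2710) (.e (nat_lit 106240) (nat_lit 11) (.e (nat_lit 352315) (nat_lit 23) (.e (nat_lit 98367) (nat_lit 27) (.e (nat_lit 434272) (nat_lit 38) (.e (nat_lit 655386) (nat_lit 9) .nil))))) .nil)))) (.nd (nat_lit 5) (.nd (nat_lit 6) 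
(.lf (nat_lit 222608) (.g (nat_lit 1879) (.e (nat_lit 106240) (nat_lit 10) (.e (nat_lit 344133) (nat_lit 26) (.e (nat_lit 557119) (nat_lit 18) (.e (nat_lit 7936) (nat_lit 178) .nil)))) .nil)) 
(.lf (nat_lit 222672) (.g (nat_lit 550) (.e (nat_lit 106240) (nat_lit 11) (.e (nat_lit 352315) (nat_lit 23) (.e (nat_lit 98367) (nat_lit 27) .nil))) .nil))) (.nd (nat_lit 6) 
(.lf (nat_lit 222640) (.g (nat_lit 957) (.e (nat_lit 106240) (nat_lit 11) (.e (nat_lit 352313) (nat_lit 23) (.e (nat_lit 98356) (nat_lit 26) (.e (nat_lit 433920) (nat_lit 24) .nil)))) .nil)) 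
(.lf (nat_lit 222704) (.g (nat_lit 578) (.e (nat_lit 106240) (nat_lit 12) (.e (nat_lit 360459) (nat_lit 1) (.e (nat_lit 499919) (nat_lit 9) (.e (nat_lit 179968) (nat_lit 20) .nil)))) .nil))))) (.nd (nat_lit 4) (.nd (nat_lit 5) (.nd (nat_lit 6) 
(.lf (nat_lit 222600) (.g (nat_lit 3267) (.e (nat_lit 106240) (nat_lit 10) (.e (nat_lit 344133) (nat_lit 26) (.e (nat_lit 557105) (nat_lit 14) (.e (nat_lit 180252) (nat_lit 10) (.e (nat_lit 573452) (nat_lit 9) .nil))))) .nil)) 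
(.lf (nat_lit 222664) (.g (nat_lit 1622) (.e (nat_lit 106240) (nat_lit 11) (.e (nat_lit 352315) (nat_lit 23) (.e (nat_lit 98356) (nat_lit 26) (.e (nat_lit 426449) (nat_lit 20) (.e (nat_lit 114719) (nat_lit 23) .nil))))) .nil))) (.nd (nat_lit 6) 
(.lf (nat_lit 222632) (.g (nat_lit 263) (.e (nat_lit 106240) (nat_lit 11) (.e (nat_lit 352313) (nat_lit 23) (.e (nat_lit 98356) (nat_lit 26) .nil))) .nil)) 
(.lf (nat_lit 222696) (.g (nat_lit 1630) (.e (nat_lit 106240) (nat_lit 11) (.e (nat_lit 352315) (nat_lit 23) (.e (nat_lit 98384) (nat_lit 32) (.e (nat_lit 475212) (nat_lit 42) (.e (nat_lit 720945) (nat_lit 23) .nil))))) .nil)))) (.nd (nat_lit 5) (.nd (nat_lit 6) 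
(.lf (nat_lit 222616) (.g (nat_lit 742) (.e (nat_lit 106240) (nat_lit 11) (.e (nat_lit 352309) (nat_lit 21) (.e (nat_lit 57687) (nat_lit 156) .nil))) .nil)) 
(.lf (nat_lit 222680) (.g (nat_lit 1803) (.e (nat_lit 106240) (nat_lit 11) (.e (nat_lit 352315) (nat_lit 23) (.e (nat_lit 98367) (nat_lit 27) (.e (nat_lit 434206) (nat_lit 18) (.e (nat_lit 5537) (nat_lit 306) .nil))))) .nil))) (.nd (nat_lit 6) 
(.lf (nat_lit 222648) (.g (nat_lit 1549) (.e (nat_lit 106240) (nat_lit 11) (.e (nat_lit 352313) (nat_lit 23) (.e (nat_lit 98384) (nat_lit 32) (.e (nat_lit 475214) (nat_lit 42) (.e (nat_lit 720945) (nat_lit 23) .nil))))) .nil)) 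
(.lf (nat_lit 222712) (.g (nat_lit 1259) (.e (nat_lit 106240) (nat_lit 12) (.e (nat_lit 360466) (nat_lit 3) (.e (nat_lit 516146) (nat_lit 9) (.e (nat_lit 426361) (nat_lit 15) (.e (nat_lit 2195) (nat_lit 144) .nil))))) .nil)))))) (.nd (nat_lit 3) (.nd (nat_lit 4) (.nd (nat_lit 5) (.nd (nat_lit 6) 
(.lf (nat_lit 222596) (.g (nat_lit 3130) (.e (nat_lit 106240) (nat_lit 10) (.e (nat_lit 344133) (nat_lit 26) (.e (nat_lit 557105) (nat_lit 14) (.e (nat_lit 180251) (nat_lit 10) (.e (nat_lit 573473) (nat_lit 12) .nil))))) .nil)) 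
(.lf (nat_lit 222660) (.g (nat_lit 1611) (.e (nat_lit 106240) (nat_lit 11) (.e (nat_lit 352315) (nat_lit 23) (.e (nat_lit 98356) (nat_lit 26) (.e (nat_lit 426440) (nat_lit 19) (.e (nat_lit 106526) (nat_lit 9) .nil))))) .nil))) (.nd (nat_lit 6) 
(.lf (nat_lit 222628) (.g (nat_lit 2155) (.e (nat_lit 106240) (nat_lit 11) (.e (nat_lit 352312) (nat_lit 22) (.e (nat_lit 90170) (nat_lit 13) (.e (nat_lit 172134) (nat_lit 15) .nil)))) .nil)) 
(.lf (nat_lit 222692) (.g (nat_lit 1470) (.e (nat_lit 106240) (nat_lit 11) (.e (nat_lit 352315) (nat_lit 23) (.e (nat_lit 98384) (nat_lit 32) (.e (nat_lit 475201) (nat_lit 40) .nil)))) .nil)))) (.nd (nat_lit 5) (.nd (nat_lit 6) 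
(.lf (nat_lit 222612) (.g (nat_lit 756) (.e (nat_lit 106240) (nat_lit 11) (.e (nat_lit 352280) (nat_lit 20) (.e (nat_lit 1702) (nat_lit 117) (.e (nat_lit 499919) (nat_lit 9) (.e (nat_lit 179968) (nat_lit 24) .nil))))) .nil)) 
(.lf (nat_lit 222676) (.g (nat_lit 1933) (.e (nat_lit 106240) (nat_lit 11) (.e (nat_lit 352315) (nat_lit 23) (.e (nat_lit 98367) (nat_lit 27) (.e (nat_lit 434200) (nat_lit 18) (.e (nat_lit 5575) (nat_lit 309) .nil))))) .nil))) (.nd (nat_lit 6) 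
(.lf (nat_lit 222644) (.g (nat_lit 1240) (.e (nat_lit 106240) (nat_lit 11) (.e (nat_lit 352313) (nat_lit 23) (.e (nat_lit 98367) (nat_lit 27) (.e (nat_lit 434272) (nat_lit 38) .nil)))) .nil)) 
(.lf (nat_lit 222708) (.g (nat_lit 368) (.e (nat_lit 106240) (nat_lit 12) (.e (nat_lit 360466) (nat_lit 3) (.e (nat_lit 516146) (nat_lit 9) .nil))) .nil))))) (.nd (nat_lit 4) (.nd (nat_lit 5) (.nd (nat_lit 6) 
(.lf (nat_lit 222604) (.g (nat_lit 3778) (.e (nat_lit 106240) (nat_lit 10) (.e (nat_lit 344133) (nat_lit 26) (.e (nat_lit 557105) (nat_lit 14) (.e (nat_lit 180252) (nat_lit 10) (.e (nat_lit 573463) (nat_lit 9) .nil))))) .nil)) 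
(.lf (nat_lit 222668) (.g (nat_lit 1154) (.e (nat_lit 106240) (nat_lit 11) (.e (nat_lit 352315) (nat_lit 23) (.e (nat_lit 98359) (nat_lit 26) (.e (nat_lit 426407) (nat_lit 15) .nil)))) .nil))) (.nd (nat_lit 6) 
(.lf (nat_lit 222636) (.g (nat_lit 1204) (.e (nat_lit 106240) (nat_lit 11) (.e (nat_lit 352313) (nat_lit 23) (.e (nat_lit 98356) (nat_lit 26) (.e (nat_lit 426440) (nat_lit 19) (.e (nat_lit 106517) (nat_lit 9) .nil))))) .nil)) 
(.lf (nat_lit 222700) (.g (nat_lit 1288) (.e (nat_lit 106240) (nat_lit 11) (.e (nat_lit 352315) (nat_lit 23) (.e (nat_lit 98385) (nat_lit 32) (.e (nat_lit 475212) (nat_lit 42) (.e (nat_lit 720945) (nat_lit 23) .nil))))) .nil)))) (.nd (nat_lit 5) (.nd (nat_lit 6) 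
(.lf (nat_lit 222620) (.g (nat_lit 1571) (.e (nat_lit 106240) (nat_lit 11) (.e (nat_lit 352311) (nat_lit 22) (.e (nat_lit 90170) (nat_lit 13) (.e (nat_lit 172135) (nat_lit 15) (.e (nat_lit 2146) (nat_lit 142) .nil))))) .nil)) 
(.lf (nat_lit 222684) (.g (nat_lit 1509) (.e (nat_lit 106240) (nat_lit 11) (.e (nat_lit 352315) (nat_lit 23) (.e (nat_lit 98367) (nat_lit 27) (.e (nat_lit 434214) (nat_lit 18) .nil)))) .nil))) (.nd (nat_lit 6) 
(.lf (nat_lit 222652) (.g (nat_lit 1020) (.e (nat_lit 106240) (nat_lit 11) (.e (nat_lit 352314) (nat_lit 23) (.e (nat_lit 98384) (nat_lit 32) (.e (nat_lit 475212) (nat_lit 42) .nil)))) .nil)) 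
(.lf (nat_lit 222716) (.g (nat_lit 1229) (.e (nat_lit 106240) (nat_lit 12) (.e (nat_lit 360466) (nat_lit 3) (.e (nat_lit 516146) (nat_lit 9) (.e (nat_lit 426440) (nat_lit 19) .nil)))) .nil))))))) (.nd (nat_lit 2) (.nd (nat_lit 3) (.nd (nat_lit 4) (.nd (nat_lit 5) (.nd (nat_lit 6) 
(.lf (nat_lit 222594) (.g (nat_lit 1583) (.e (nat_lit 106240) (nat_lit 10) (.e (nat_lit 344133) (nat_lit 26) (.e (nat_lit 557105) (nat_lit 14) (.e (nat_lit 180251) (nat_lit 10) .nil)))) .nil)) 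
(.lf (nat_lit 222658) (.g (nat_lit 1660) (.e (nat_lit 106240) (nat_lit 11) (.e (nat_lit 352315) (nat_lit 23) (.e (nat_lit 98356) (nat_lit 26) (.e (nat_lit 426440) (nat_lit 19) (.e (nat_lit 106517) (nat_lit 9) .nil))))) .nil))) (.nd (nat_lit 6) 
(.lf (nat_lit 222626) (.g (nat_lit 1381) (.e (nat_lit 106240) (nat_lit 11) (.e (nat_lit 352312) (nat_lit 22) (.e (nat_lit 90169) (nat_lit 13) (.e (nat_lit 172130) (nat_lit 15) .nil)))) .nil)) 
(.lf (nat_lit 222690) (.g (nat_lit 873) (.e (nat_lit 106240) (nat_lit 11) (.e (nat_lit 352315) (nat_lit 23) (.e (nat_lit 98383) (nat_lit 32) (.e (nat_lit 475197) (nat_lit 40) .nil)))) .nil)))) (.nd (nat_lit 5) (.nd (nat_lit 6) 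
(.lf (nat_lit 222610) (.g (nat_lit 332) (.e (nat_lit 106240) (nat_lit 10) (.e (nat_lit 344164) (nat_lit 37) (.e (nat_lit 647182) (nat_lit 4) .nil))) .nil)) 
(.lf (nat_lit 222674) (.g (nat_lit 1933) (.e (nat_lit 106240) (nat_lit 11) (.e (nat_lit 352315) (nat_lit 23) (.e (nat_lit 98367) (nat_lit 27) (.e (nat_lit 434200) (nat_lit 18) (.e (nat_lit 5564) (nat_lit 308) .nil))))) .nil))) (.nd (nat_lit 6) 
(.lf (nat_lit 222642) (.g (nat_lit 1210) (.e (nat_lit 106240) (nat_lit 11) (.e (nat_lit 352313) (nat_lit 23) (.e (nat_lit 98365) (nat_lit 26) (.e (nat_lit 426009) (nat_lit 0) .nil)))) .nil)) 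
(.lf (nat_lit 222706) (.g (nat_lit 1175) (.e (nat_lit 106240) (nat_lit 12) (.e (nat_lit 360466) (nat_lit 3) (.e (nat_lit 516144) (nat_lit 9) (.e (nat_lit 426446) (nat_lit 20) (.e (nat_lit 114718) (nat_lit 23) .nil))))) .nil))))) (.nd (nat_lit 4) (.nd (nat_lit 5) (.nd (nat_lit 6) 
(.lf (nat_lit 222602) (.g (nat_lit 3004) (.e (nat_lit 106240) (nat_lit 10) (.e (nat_lit 344133) (nat_lit 26) (.e (nat_lit 557105) (nat_lit 14) (.e (nat_lit 180252) (nat_lit 10) (.e (nat_lit 573458) (nat_lit 9) .nil))))) .nil)) 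
(.lf (nat_lit 222666) (.g (nat_lit 662) (.e (nat_lit 106240) (nat_lit 11) (.e (nat_lit 352315) (nat_lit 23) (.e (nat_lit 98357) (nat_lit 26) (.e (nat_lit 426446) (nat_lit 20) .nil)))) .nil))) (.nd (nat_lit 6) 
(.lf (nat_lit 222634) (.g (nat_lit 1223) (.e (nat_lit 106240) (nat_lit 11) (.e (nat_lit 352313) (nat_lit 23) (.e (nat_lit 98356) (nat_lit 26) (.e (nat_lit 426439) (nat_lit 19) .nil)))) .nil)) 
(.lf (nat_lit 222698) (.g (nat_lit 1756) (.e (nat_lit 106240) (nat_lit 11) (.e (nat_lit 352315) (nat_lit 23) (.e (nat_lit 98384) (nat_lit 32) (.e (nat_lit 475214) (nat_lit 42) (.e (nat_lit 728832) (nat_lit 23) .nil))))) .nil)))) (.nd (nat_lit 5) (.nd (nat_lit 6) 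
(.lf (nat_lit 222618) (.g (nat_lit 1005) (.e (nat_lit 106240) (nat_lit 11) (.e (nat_lit 352310) (nat_lit 22) (.e (nat_lit 90170) (nat_lit 13) (.e (nat_lit 179968) (nat_lit 20) .nil)))) .nil)) 
(.lf (nat_lit 222682) (.g (nat_lit 1350) (.e (nat_lit 106240) (nat_lit 11) (.e (nat_lit 352315) (nat_lit 23) (.e (nat_lit 98367) (nat_lit 27) (.e (nat_lit 434208) (nat_lit 18) .nil)))) .nil))) (.nd (nat_lit 6) 
(.lf (nat_lit 222650) (.g (nat_lit 1691) (.e (nat_lit 106240) (nat_lit 11) (.e (nat_lit 352313) (nat_lit 23) (.e (nat_lit 98386) (nat_lit 32) (.e (nat_lit 475197) (nat_lit 40) (.e (nat_lit 704612) (nat_lit 9) .nil))))) .nil)) 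
(.lf (nat_lit 222714) (.g (nat_lit 1254) (.e (nat_lit 106240) (nat_lit 12) (.e (nat_lit 360466) (nat_lit 3) (.e (nat_lit 516146) (nat_lit 9) (.e (nat_lit 426361) (nat_lit 15) (.e (nat_lit 2206) (nat_lit 144) .nil))))) .nil)))))) (.nd (nat_lit 3) (.nd (nat_lit 4) (.nd (nat_lit 5) (.nd (nat_lit 6) 
(.lf (nat_lit 222598) (.g (nat_lit 1381) (.e (nat_lit 106240) (nat_lit 10) (.e (nat_lit 344133) (nat_lit 26) (.e (nat_lit 557105) (nat_lit 14) (.e (nat_lit 180252) (nat_lit 10) .nil)))) .nil)) 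
(.lf (nat_lit 222662) (.g (nat_lit 1001) (.e (nat_lit 106240) (nat_lit 11) (.e (nat_lit 352315) (nat_lit 23) (.e (nat_lit 98356) (nat_lit 26) (.e (nat_lit 426446) (nat_lit 20) .nil)))) .nil))) (.nd (nat_lit 6) 
(.lf (nat_lit 222630) (.g (nat_lit 1405) (.e (nat_lit 106240) (nat_lit 11) (.e (nat_lit 352312) (nat_lit 22) (.e (nat_lit 90170) (nat_lit 13) (.e (nat_lit 179968) (nat_lit 20) .nil)))) .nil)) 
(.lf (nat_lit 222694) (.g (nat_lit 2327) (.e (nat_lit 106240) (nat_lit 11) (.e (nat_lit 352315) (nat_lit 23) (.e (nat_lit 98384) (nat_lit 32) (.e (nat_lit 475201) (nat_lit 40) (.e (nat_lit 704635) (nat_lit 9) .nil))))) .nil)))) (.nd (nat_lit 5) (.nd (nat_lit 6) 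
(.lf (nat_lit 222614) (.g (nat_lit 1062) (.e (nat_lit 106240) (nat_lit 11) (.e (nat_lit 352297) (nat_lit 20) (.e (nat_lit 1682) (nat_lit 117) (.e (nat_lit 499919) (nat_lit 9) (.e (nat_lit 179968) (nat_lit 24) .nil))))) .nil)) 
(.lf (nat_lit 222678) (.g (nat_lit 2140) (.e (nat_lit 106240) (nat_lit 11) (.e (nat_lit 352315) (nat_lit 23) (.e (nat_lit 98367) (nat_lit 27) (.e (nat_lit 434202) (nat_lit 18) (.e (nat_lit 5537) (nat_lit 306) .nil))))) .nil))) (.nd (nat_lit 6) 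
(.lf (nat_lit 222646) (.g (nat_lit 1298) (.e (nat_lit 106240) (nat_lit 11) (.e (nat_lit 352313) (nat_lit 23) (.e (nat_lit 98384) (nat_lit 32) (.e (nat_lit 475201) (nat_lit 40) .nil)))) .nil)) 
(.lf (nat_lit 222710) (.g (nat_lit 1437) (.e (nat_lit 106240) (nat_lit 12) (.e (nat_lit 360466) (nat_lit 3) (.e (nat_lit 516146) (nat_lit 9) (.e (nat_lit 426360) (nat_lit 15) (.e (nat_lit 2210) (nat_lit 145) .nil))))) .nil))))) (.nd (nat_lit 4) (.nd (nat_lit 5) (.nd (nat_lit 6) 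
(.lf (nat_lit 222606) (.g (nat_lit 2895) (.e (nat_lit 106240) (nat_lit 10) (.e (nat_lit 344133) (nat_lit 26) (.e (nat_lit 557105) (nat_lit 14) (.e (nat_lit 180252) (nat_lit 10) (.e (nat_lit 573475) (nat_lit 12) .nil))))) .nil)) 
(.lf (nat_lit 222670) (.g (nat_lit 509) (.e (nat_lit 106240) (nat_lit 11) (.e (nat_lit 352315) (nat_lit 23) (.e (nat_lit 98366) (nat_lit 27) .nil))) .nil))) (.nd (nat_lit 6) 
(.lf (nat_lit 222638) (.g (nat_lit 1107) (.e (nat_lit 106240) (nat_lit 11) (.e (nat_lit 352313) (nat_lit 23) (.e (nat_lit 98356) (nat_lit 26) (.e (nat_lit 426448) (nat_lit 20) (.e (nat_lit 122624) (nat_lit 23) .nil))))) .nil)) 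
(.lf (nat_lit 222702) (.g (nat_lit 540) (.e (nat_lit 106240) (nat_lit 11) (.e (nat_lit 352322) (nat_lit 26) (.e (nat_lit 155392) (nat_lit 4) .nil))) .nil)))) (.nd (nat_lit 5) (.nd (nat_lit 6) 
(.lf (nat_lit 222622) (.g (nat_lit 908) (.e (nat_lit 106240) (nat_lit 11) (.e (nat_lit 352312) (nat_lit 22) (.e (nat_lit 90133) (nat_lit 9) (.e (nat_lit 2902) (nat_lit 184) .nil)))) .nil)) 
(.lf (nat_lit 222686) (.g (nat_lit 2102) (.e (nat_lit 106240) (nat_lit 11) (.e (nat_lit 352315) (nat_lit 23) (.e (nat_lit 98367) (nat_lit 27) (.e (nat_lit 434271) (nat_lit 38) (.e (nat_lit 655385) (nat_lit 9) .nil))))) .nil))) (.nd (nat_lit 6) 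
(.lf (nat_lit 222654) (.g (nat_lit 457) (.e (nat_lit 106240) (nat_lit 11) (.e (nat_lit 352315) (nat_lit 23) (.e (nat_lit 98356) (nat_lit 26) .nil))) .nil)) 
(.lf (nat_lit 222718) (.g (nat_lit 1360) (.e (nat_lit 106240) (nat_lit 12) (.e (nat_lit 360466) (nat_lit 3) (.e (nat_lit 516146) (nat_lit 9) (.e (nat_lit 426440) (nat_lit 19) (.e (nat_lit 106526) (nat_lit 9) .nil))))) .nil)))))))) (.nd (nat_lit 1) (.nd (nat_lit 2) (.nd (nat_lit 3) (.nd (nat_lit 4) (.nd (nat_lit 5) (.nd (nat_lit 6) 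
(.lf (nat_lit 222593) (.g (nat_lit 1727) (.e (nat_lit 106240) (nat_lit 10) (.e (nat_lit 344133) (nat_lit 26) (.e (nat_lit 557105) (nat_lit 14) (.e (nat_lit 180245) (nat_lit 5) .nil)))) .nil)) 
(.lf (nat_lit 222657) (.g (nat_lit 1693) (.e (nat_lit 106240) (nat_lit 11) (.e (nat_lit 352315) (nat_lit 23) (.e (nat_lit 98356) (nat_lit 26) (.e (nat_lit 426440) (nat_lit 19) (.e (nat_lit 106513) (nat_lit 9) .nil))))) .nil))) (.nd (nat_lit 6) 
(.lf (nat_lit 222625) (.g (nat_lit 763) (.e (nat_lit 106240) (nat_lit 11) (.e (nat_lit 352312) (nat_lit 22) (.e (nat_lit 90169) (nat_lit 13) .nil))) .nil)) 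
(.lf (nat_lit 222689) (.g (nat_lit 2946) (.e (nat_lit 106240) (nat_lit 11) (.e (nat_lit 352315) (nat_lit 23) (.e (nat_lit 98367) (nat_lit 27) (.e (nat_lit 434272) (nat_lit 38) (.e (nat_lit 655391) (nat_lit 9) .nil))))) .nil)))) (.nd (nat_lit 5) (.nd (nat_lit 6) 
(.lf (nat_lit 222609) (.g (nat_lit 1882) (.e (nat_lit 106240) (nat_lit 10) (.e (nat_lit 344133) (nat_lit 26) (.e (nat_lit 557119) (nat_lit 18) (.e (nat_lit 2783) (nat_lit 179) .nil)))) .nil)) 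
(.lf (nat_lit 222673) (.g (nat_lit 1575) (.e (nat_lit 106240) (nat_lit 11) (.e (nat_lit 352315) (nat_lit 23) (.e (nat_lit 98367) (nat_lit 27) (.e (nat_lit 434200) (nat_lit 18) .nil)))) .nil))) (.nd (nat_lit 6) 
(.lf (nat_lit 222641) (.g (nat_lit 367) (.e (nat_lit 106240) (nat_lit 11) (.e (nat_lit 352313) (nat_lit 23) (.e (nat_lit 98363) (nat_lit 26) .nil))) .nil)) 
(.lf (nat_lit 222705) (.g (nat_lit 472) (.e (nat_lit 106240) (nat_lit 12) (.e (nat_lit 360466) (nat_lit 3) (.e (nat_lit 516144) (nat_lit 9) .nil))) .nil))))) (.nd (nat_lit 4) (.nd (nat_lit 5) (.nd (nat_lit 6) 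
(.lf (nat_lit 222601) (.g (nat_lit 3777) (.e (nat_lit 106240) (nat_lit 10) (.e (nat_lit 344133) (nat_lit 26) (.e (nat_lit 557105) (nat_lit 14) (.e (nat_lit 180252) (nat_lit 10) (.e (nat_lit 573453) (nat_lit 9) .nil))))) .nil)) 
(.lf (nat_lit 222665) (.g (nat_lit 1303) (.e (nat_lit 106240) (nat_lit 11) (.e (nat_lit 352315) (nat_lit 23) (.e (nat_lit 98356) (nat_lit 26) (.e (nat_lit 433920) (nat_lit 24) .nil)))) .nil))) (.nd (nat_lit 6) 
(.lf (nat_lit 222633) (.g (nat_lit 938) (.e (nat_lit 106240) (nat_lit 11) (.e (nat_lit 352313) (nat_lit 23) (.e (nat_lit 98356) (nat_lit 26) (.e (nat_lit 426361) (nat_lit 15) .nil)))) .nil)) 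
(.lf (nat_lit 222697) (.g (nat_lit 1778) (.e (nat_lit 106240) (nat_lit 11) (.e (nat_lit 352315) (nat_lit 23) (.e (nat_lit 98384) (nat_lit 32) (.e (nat_lit 475214) (nat_lit 42) (.e (nat_lit 720945) (nat_lit 23) .nil))))) .nil)))) (.nd (nat_lit 5) (.nd (nat_lit 6) 
(.lf (nat_lit 222617) (.g (nat_lit 1206) (.e (nat_lit 106240) (nat_lit 11) (.e (nat_lit 352310) (nat_lit 22) (.e (nat_lit 90170) (nat_lit 13) (.e (nat_lit 172135) (nat_lit 15) (.e (nat_lit 2146) (nat_lit 142) .nil))))) .nil)) 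
(.lf (nat_lit 222681) (.g (nat_lit 1579) (.e (nat_lit 106240) (nat_lit 11) (.e (nat_lit 352315) (nat_lit 23) (.e (nat_lit 98367) (nat_lit 27) (.e (nat_lit 434207) (nat_lit 18) .nil)))) .nil))) (.nd (nat_lit 6) 
(.lf (nat_lit 222649) (.g (nat_lit 1512) (.e (nat_lit 106240) (nat_lit 11) (.e (nat_lit 352313) (nat_lit 23) (.e (nat_lit 98384) (nat_lit 32) (.e (nat_lit 475214) (nat_lit 42) (.e (nat_lit 728832) (nat_lit 23) .nil))))) .nil)) 
(.lf (nat_lit 222713) (.g (nat_lit 1284) (.e (nat_lit 106240) (nat_lit 12) (.e (nat_lit 360466) (nat_lit 3) (.e (nat_lit 516146) (nat_lit 9) (.e (nat_lit 426361) (nat_lit 15) (.e (nat_lit 2198) (nat_lit 144) .nil))))) .nil)))))) (.nd (nat_lit 3) (.nd (nat_lit 4) (.nd (nat_lit 5) (.nd (nat_lit 6) 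
(.lf (nat_lit 222597) (.g (nat_lit 2326) (.e (nat_lit 106240) (nat_lit 10) (.e (nat_lit 344133) (nat_lit 26) (.e (nat_lit 557105) (nat_lit 14) (.e (nat_lit 180251) (nat_lit 10) (.e (nat_lit 573478) (nat_lit 12) .nil))))) .nil)) 
(.lf (nat_lit 222661) (.g (nat_lit 1433) (.e (nat_lit 106240) (nat_lit 11) (.e (nat_lit 352315) (nat_lit 23) (.e (nat_lit 98356) (nat_lit 26) (.e (nat_lit 426444) (nat_lit 19) .nil)))) .nil))) (.nd (nat_lit 6) 
(.lf (nat_lit 222629) (.g (nat_lit 1569) (.e (nat_lit 106240) (nat_lit 11) (.e (nat_lit 352312) (nat_lit 22) (.e (nat_lit 90170) (nat_lit 13) (.e (nat_lit 172135) (nat_lit 15) .nil)))) .nil)) 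
(.lf (nat_lit 222693) (.g (nat_lit 2340) (.e (nat_lit 106240) (nat_lit 11) (.e (nat_lit 352315) (nat_lit 23) (.e (nat_lit 98384) (nat_lit 32) (.e (nat_lit 475201) (nat_lit 40) (.e (nat_lit 704620) (nat_lit 9) .nil))))) .nil)))) (.nd (nat_lit 5) (.nd (nat_lit 6) 
(.lf (nat_lit 222613) (.g (nat_lit 1062) (.e (nat_lit 106240) (nat_lit 11) (.e (nat_lit 352297) (nat_lit 20) (.e (nat_lit 1682) (nat_lit 117) (.e (nat_lit 499919) (nat_lit 9) (.e (nat_lit 179968) (nat_lit 20) .nil))))) .nil)) 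
(.lf (nat_lit 222677) (.g (nat_lit 1518) (.e (nat_lit 106240) (nat_lit 11) (.e (nat_lit 352315) (nat_lit 23) (.e (nat_lit 98367) (nat_lit 27) (.e (nat_lit 434201) (nat_lit 18) .nil)))) .nil))) (.nd (nat_lit 6) 
(.lf (nat_lit 222645) (.g (nat_lit 228) (.e (nat_lit 106240) (nat_lit 11) (.e (nat_lit 352313) (nat_lit 23) (.e (nat_lit 98384) (nat_lit 32) .nil))) .nil)) 
(.lf (nat_lit 222709) (.g (nat_lit 1255) (.e (nat_lit 106240) (nat_lit 12) (.e (nat_lit 360466) (nat_lit 3) (.e (nat_lit 516146) (nat_lit 9) (.e (nat_lit 426360) (nat_lit 15) .nil)))) .nil))))) (.nd (nat_lit 4) (.nd (nat_lit 5) (.nd (nat_lit 6) 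
(.lf (nat_lit 222605) (.g (nat_lit 2707) (.e (nat_lit 106240) (nat_lit 10) (.e (nat_lit 344133) (nat_lit 26) (.e (nat_lit 557105) (nat_lit 14) (.e (nat_lit 180252) (nat_lit 10) (.e (nat_lit 573474) (nat_lit 12) .nil))))) .nil)) 
(.lf (nat_lit 222669) (.g (nat_lit 1139) (.e (nat_lit 106240) (nat_lit 11) (.e (nat_lit 352315) (nat_lit 23) (.e (nat_lit 98363) (nat_lit 26) (.e (nat_lit 433920) (nat_lit 20) .nil)))) .nil))) (.nd (nat_lit 6) 
(.lf (nat_lit 222637) (.g (nat_lit 1175) (.e (nat_lit 106240) (nat_lit 11) (.e (nat_lit 352313) (nat_lit 23) (.e (nat_lit 98356) (nat_lit 26) (.e (nat_lit 426440) (nat_lit 19) (.e (nat_lit 106520) (nat_lit 9) .nil))))) .nil)) 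
(.lf (nat_lit 222701) (.g (nat_lit 611) (.e (nat_lit 106240) (nat_lit 11) (.e (nat_lit 352315) (nat_lit 23) (.e (nat_lit 98386) (nat_lit 32) .nil))) .nil)))) (.nd (nat_lit 5) (.nd (nat_lit 6) 
(.lf (nat_lit 222621) (.g (nat_lit 391) (.e (nat_lit 106240) (nat_lit 11) (.e (nat_lit 352312) (nat_lit 22) (.e (nat_lit 90133) (nat_lit 9) .nil))) .nil)) 
(.lf (nat_lit 222685) (.g (nat_lit 1583) (.e (nat_lit 106240) (nat_lit 11) (.e (nat_lit 352315) (nat_lit 23) (.e (nat_lit 98367) (nat_lit 27) (.e (nat_lit 434215) (nat_lit 18) .nil)))) .nil))) (.nd (nat_lit 6) 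
(.lf (nat_lit 222653) (.g (nat_lit 853) (.e (nat_lit 106240) (nat_lit 11) (.e (nat_lit 352315) (nat_lit 23) (.e (nat_lit 98355) (nat_lit 26) (.e (nat_lit 426446) (nat_lit 20) .nil)))) .nil)) 
(.lf (nat_lit 222717) (.g (nat_lit 1434) (.e (nat_lit 106240) (nat_lit 12) (.e (nat_lit 360466) (nat_lit 3) (.e (nat_lit 516146) (nat_lit 9) (.e (nat_lit 426440) (nat_lit 19) (.e (nat_lit 106513) (nat_lit 9) .nil))))) .nil))))))) (.nd (nat_lit 2) (.nd (nat_lit 3) (.nd (nat_lit 4) (.nd (nat_lit 5) (.nd (nat_lit 6) 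
(.lf (nat_lit 222595) (.g (nat_lit 2701) (.e (nat_lit 106240) (nat_lit 10) (.e (nat_lit 344133) (nat_lit 26) (.e (nat_lit 557105) (nat_lit 14) (.e (nat_lit 180251) (nat_lit 10) (.e (nat_lit 573472) (nat_lit 12) .nil))))) .nil)) 
(.lf (nat_lit 222659) (.g (nat_lit 1638) (.e (nat_lit 106240) (nat_lit 11) (.e (nat_lit 352315) (nat_lit 23) (.e (nat_lit 98356) (nat_lit 26) (.e (nat_lit 426440) (nat_lit 19) (.e (nat_lit 106520) (nat_lit 9) .nil))))) .nil))) (.nd (nat_lit 6) 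
(.lf (nat_lit 222627) (.g (nat_lit 1991) (.e (nat_lit 106240) (nat_lit 11) (.e (nat_lit 352312) (nat_lit 22) (.e (nat_lit 90170) (nat_lit 13) (.e (nat_lit 172068) (nat_lit 4) .nil)))) .nil)) 
(.lf (nat_lit 222691) (.g (nat_lit 424) (.e (nat_lit 106240) (nat_lit 11) (.e (nat_lit 352315) (nat_lit 23) (.e (nat_lit 98384) (nat_lit 32) .nil))) .nil)))) (.nd (nat_lit 5) (.nd (nat_lit 6) 
(.lf (nat_lit 222611) (.g (nat_lit 211) (.e (nat_lit 106240) (nat_lit 11) (.e (nat_lit 352273) (nat_lit 11) (.e (nat_lit 426497) (nat_lit 27) .nil))) .nil)) 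
(.lf (nat_lit 222675) (.g (nat_lit 1933) (.e (nat_lit 106240) (nat_lit 11) (.e (nat_lit 352315) (nat_lit 23) (.e (nat_lit 98367) (nat_lit 27) (.e (nat_lit 434200) (nat_lit 18) (.e (nat_lit 5565) (nat_lit 308) .nil))))) .nil))) (.nd (nat_lit 6) 
(.lf (nat_lit 222643) (.g (nat_lit 2174) (.e (nat_lit 106240) (nat_lit 11) (.e (nat_lit 352313) (nat_lit 23) (.e (nat_lit 98367) (nat_lit 27) (.e (nat_lit 434202) (nat_lit 18) (.e (nat_lit 5537) (nat_lit 306) .nil))))) .nil)) 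
(.lf (nat_lit 222707) (.g (nat_lit 1091) (.e (nat_lit 106240) (nat_lit 12) (.e (nat_lit 360466) (nat_lit 3) (.e (nat_lit 516144) (nat_lit 9) (.e (nat_lit 426446) (nat_lit 20) (.e (nat_lit 114719) (nat_lit 23) .nil))))) .nil))))) (.nd (nat_lit 4) (.nd (nat_lit 5) (.nd (nat_lit 6) 
(.lf (nat_lit 222603) (.g (nat_lit 3752) (.e (nat_lit 106240) (nat_lit 10) (.e (nat_lit 344133) (nat_lit 26) (.e (nat_lit 557105) (nat_lit 14) (.e (nat_lit 180252) (nat_lit 10) (.e (nat_lit 573459) (nat_lit 9) .nil))))) .nil)) 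
(.lf (nat_lit 222667) (.g (nat_lit 1783) (.e (nat_lit 106240) (nat_lit 11) (.e (nat_lit 352315) (nat_lit 23) (.e (nat_lit 98358) (nat_lit 26) (.e (nat_lit 426402) (nat_lit 15) .nil)))) .nil))) (.nd (nat_lit 6) 
(.lf (nat_lit 222635) (.g (nat_lit 1024) (.e (nat_lit 106240) (nat_lit 11) (.e (nat_lit 352313) (nat_lit 23) (.e (nat_lit 98356) (nat_lit 26) (.e (nat_lit 426440) (nat_lit 19) .nil)))) .nil)) 
(.lf (nat_lit 222699) (.g (nat_lit 1864) (.e (nat_lit 106240) (nat_lit 11) (.e (nat_lit 352315) (nat_lit 23) (.e (nat_lit 98384) (nat_lit 32) (.e (nat_lit 475215) (nat_lit 43) .nil)))) .nil)))) (.nd (nat_lit 5) (.nd (nat_lit 6) 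
(.lf (nat_lit 222619) (.g (nat_lit 1555) (.e (nat_lit 106240) (nat_lit 11) (.e (nat_lit 352311) (nat_lit 22) (.e (nat_lit 90170) (nat_lit 13) (.e (nat_lit 172135) (nat_lit 15) (.e (nat_lit 2143) (nat_lit 142) .nil))))) .nil)) 
(.lf (nat_lit 222683) (.g (nat_lit 2185) (.e (nat_lit 106240) (nat_lit 11) (.e (nat_lit 352315) (nat_lit 23) (.e (nat_lit 98367) (nat_lit 27) (.e (nat_lit 434208) (nat_lit 18) (.e (nat_lit 7936) (nat_lit 308) .nil))))) .nil))) (.nd (nat_lit 6) 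
(.lf (nat_lit 222651) (.g (nat_lit 1116) (.e (nat_lit 106240) (nat_lit 11) (.e (nat_lit 352313) (nat_lit 23) (.e (nat_lit 98386) (nat_lit 32) (.e (nat_lit 483072) (nat_lit 40) .nil)))) .nil)) 
(.lf (nat_lit 222715) (.g (nat_lit 1263) (.e (nat_lit 106240) (nat_lit 12) (.e (nat_lit 360466) (nat_lit 3) (.e (nat_lit 516146) (nat_lit 9) (.e (nat_lit 426439) (nat_lit 19) .nil)))) .nil)))))) (.nd (nat_lit 3) (.nd (nat_lit 4) (.nd (nat_lit 5) (.nd (nat_lit 6) 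
(.lf (nat_lit 222599) (.g (nat_lit 2995) (.e (nat_lit 106240) (nat_lit 10) (.e (nat_lit 344133) (nat_lit 26) (.e (nat_lit 557105) (nat_lit 14) (.e (nat_lit 180252) (nat_lit 10) (.e (nat_lit 573449) (nat_lit 9) .nil))))) .nil)) 
(.lf (nat_lit 222663) (.g (nat_lit 1393) (.e (nat_lit 106240) (nat_lit 11) (.e (nat_lit 352315) (nat_lit 23) (.e (nat_lit 98356) (nat_lit 26) (.e (nat_lit 426448) (nat_lit 20) (.e (nat_lit 122624) (nat_lit 23) .nil))))) .nil))) (.nd (nat_lit 6) 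
(.lf (nat_lit 222631) (.g (nat_lit 626) (.e (nat_lit 106240) (nat_lit 11) (.e (nat_lit 352313) (nat_lit 23) (.e (nat_lit 98354) (nat_lit 26) (.e (nat_lit 433920) (nat_lit 20) .nil)))) .nil)) 
(.lf (nat_lit 222695) (.g (nat_lit 1868) (.e (nat_lit 106240) (nat_lit 11) (.e (nat_lit 352315) (nat_lit 23) (.e (nat_lit 98384) (nat_lit 32) (.e (nat_lit 475205) (nat_lit 40) .nil)))) .nil)))) (.nd (nat_lit 5) (.nd (nat_lit 6) 
(.lf (nat_lit 222615) (.g (nat_lit 661) (.e (nat_lit 106240) (nat_lit 11) (.e (nat_lit 352307) (nat_lit 21) (.e (nat_lit 57686) (nat_lit 156) .nil))) .nil)) 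
(.lf (nat_lit 222679) (.g (nat_lit 2150) (.e (nat_lit 106240) (nat_lit 11) (.e (nat_lit 352315) (nat_lit 23) (.e (nat_lit 98367) (nat_lit 27) (.e (nat_lit 434203) (nat_lit 18) (.e (nat_lit 5537) (nat_lit 306) .nil))))) .nil))) (.nd (nat_lit 6) 
(.lf (nat_lit 222647) (.g (nat_lit 1391) (.e (nat_lit 106240) (nat_lit 11) (.e (nat_lit 352313) (nat_lit 23) (.e (nat_lit 98384) (nat_lit 32) (.e (nat_lit 475212) (nat_lit 42) (.e (nat_lit 720945) (nat_lit 23) .nil))))) .nil)) 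
(.lf (nat_lit 222711) (.g (nat_lit 1067) (.e (nat_lit 106240) (nat_lit 12) (.e (nat_lit 360466) (nat_lit 3) (.e (nat_lit 516146) (nat_lit 9) (.e (nat_lit 426361) (nat_lit 15) .nil)))) .nil))))) (.nd (nat_lit 4) (.nd (nat_lit 5) (.nd (nat_lit 6) 
(.lf (nat_lit 222607) (.g (nat_lit 556) (.e (nat_lit 106240) (nat_lit 10) (.e (nat_lit 344133) (nat_lit 26) (.e (nat_lit 557119) (nat_lit 18) .nil))) .nil)) 
(.lf (nat_lit 222671) (.g (nat_lit 1413) (.e (nat_lit 106240) (nat_lit 11) (.e (nat_lit 352315) (nat_lit 23) (.e (nat_lit 98366) (nat_lit 27) (.e (nat_lit 434202) (nat_lit 18) .nil)))) .nil))) (.nd (nat_lit 6) 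
(.lf (nat_lit 222639) (.g (nat_lit 957) (.e (nat_lit 106240) (nat_lit 11) (.e (nat_lit 352313) (nat_lit 23) (.e (nat_lit 98356) (nat_lit 26) (.e (nat_lit 433920) (nat_lit 20) .nil)))) .nil)) 
(.lf (nat_lit 222703) (.g (nat_lit 611) (.e (nat_lit 106240) (nat_lit 12) (.e (nat_lit 360458) (nat_lit 1) (.e (nat_lit 499919) (nat_lit 9) (.e (nat_lit 179968) (nat_lit 24) .nil)))) .nil)))) (.nd (nat_lit 5) (.nd (nat_lit 6) 
(.lf (nat_lit 222623) (.g (nat_lit 763) (.e (nat_lit 106240) (nat_lit 11) (.e (nat_lit 352312) (nat_lit 22) (.e (nat_lit 90137) (nat_lit 9) .nil))) .nil)) 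
(.lf (nat_lit 222687) (.g (nat_lit 1301) (.e (nat_lit 106240) (nat_lit 11) (.e (nat_lit 352315) (nat_lit 23) (.e (nat_lit 98367) (nat_lit 27) (.e (nat_lit 434272) (nat_lit 38) .nil)))) .nil))) (.nd (nat_lit 6) 
(.lf (nat_lit 222655) (.g (nat_lit 1434) (.e (nat_lit 106240) (nat_lit 11) (.e (nat_lit 352315) (nat_lit 23) (.e (nat_lit 98356) (nat_lit 26) (.e (nat_lit 426439) (nat_lit 19) .nil)))) .nil)) 
(.lf (nat_lit 222719) (.g (nat_lit 1301) (.e (nat_lit 106240) (nat_lit 12) (.e (nat_lit 360466) (nat_lit 3) (.e (nat_lit 516146) (nat_lit 9) (.e (nat_lit 426444) (nat_lit 19) .nil)))) .nil)))))))))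

noncomputable def tv2923 : DT := (.nd (nat_lit 0) (.nd (nat_lit 1) (.nd (nat_lit 2) (.nd (nat_lit 3) (.nd (nat_lit 4) (.nd (nat_lit 5) (.nd (nat_lit 6) 
(.lf (nat_lit 222720) (.g (nat_lit 1868) (.e (nat_lit 106240) (nat_lit 12) (.e (nat_lit 360466) (nat_lit 3) (.e (nat_lit 516146) (nat_lit 9) (.e (nat_lit 426444) (nat_lit 19) (.e (nat_lit 106504) (nat_lit 9) .nil))))) .nil)) 
(.lf (nat_lit 222784) (.g (nat_lit 999) (.e (nat_lit 106240) (nat_lit 14) (.e (nat_lit 376862) (nat_lit 22) (.e (nat_lit 90169) (nat_lit 13) (.e (nat_lit 172142) (nat_lit 24) .nil)))) .nil))) (.nd (nat_lit 6) 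
(.lf (nat_lit 222752) (.g (nat_lit 1244) (.e (nat_lit 106240) (nat_lit 12) (.e (nat_lit 360467) (nat_lit 3) (.e (nat_lit 516146) (nat_lit 9) (.e (nat_lit 433920) (nat_lit 24) .nil)))) .nil)) 
(.lf (nat_lit 222816) (.g (nat_lit 2237) (.e (nat_lit 106240) (nat_lit 14) (.e (nat_lit 376865) (nat_lit 22) (.e (nat_lit 90185) (nat_lit 17) (.e (nat_lit 237595) (nat_lit 4) .nil)))) .nil)))) (.nd (nat_lit 5) (.nd (nat_lit 6) 
(.lf (nat_lit 222736) (.g (nat_lit 1282) (.e (nat_lit 106240) (nat_lit 12) (.e (nat_lit 360466) (nat_lit 3) (.e (nat_lit 516179) (nat_lit 15) (.e (nat_lit 475205) (nat_lit 40) .nil)))) .nil)) 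
(.lf (nat_lit 222800) (.g (nat_lit 2019) (.e (nat_lit 106240) (nat_lit 14) (.e (nat_lit 376864) (nat_lit 22) (.e (nat_lit 90170) (nat_lit 13) (.e (nat_lit 172134) (nat_lit 15) .nil)))) .nil))) (.nd (nat_lit 6) 
(.lf (nat_lit 222768) (.g (nat_lit 1560) (.e (nat_lit 106240) (nat_lit 12) (.e (nat_lit 360467) (nat_lit 3) (.e (nat_lit 516180) (nat_lit 15) (.e (nat_lit 475214) (nat_lit 42) (.e (nat_lit 720945) (nat_lit 23) .nil))))) .nil)) 
(.lf (nat_lit 222832) (.g (nat_lit 898) (.e (nat_lit 106240) (nat_lit 14) (.e (nat_lit 376867) (nat_lit 23) (.e (nat_lit 98384) (nat_lit 32) (.e (nat_lit 475214) (nat_lit 42) (.e (nat_lit 728832) (nat_lit 23) .nil))))) .nil))))) (.nd (nat_lit 4) (.nd (nat_lit 5) (.nd (nat_lit 6) 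
(.lf (nat_lit 222728) (.g (nat_lit 1318) (.e (nat_lit 106240) (nat_lit 12) (.e (nat_lit 360466) (nat_lit 3) (.e (nat_lit 516150) (nat_lit 9) (.e (nat_lit 426446) (nat_lit 20) .nil)))) .nil)) 
(.lf (nat_lit 222792) (.g (nat_lit 2111) (.e (nat_lit 106240) (nat_lit 14) (.e (nat_lit 376862) (nat_lit 22) (.e (nat_lit 90174) (nat_lit 14) (.e (nat_lit 180261) (nat_lit 20) (.e (nat_lit 655386) (nat_lit 9) .nil))))) .nil))) (.nd (nat_lit 6) 
(.lf (nat_lit 222760) (.g (nat_lit 1386) (.e (nat_lit 106240) (nat_lit 12) (.e (nat_lit 360467) (nat_lit 3) (.e (nat_lit 516179) (nat_lit 15) (.e (nat_lit 475201) (nat_lit 40) (.e (nat_lit 704638) (nat_lit 9) .nil))))) .nil)) 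
(.lf (nat_lit 222824) (.g (nat_lit 993) (.e (nat_lit 106240) (nat_lit 14) (.e (nat_lit 376867) (nat_lit 23) (.e (nat_lit 98365) (nat_lit 26) (.e (nat_lit 426009) (nat_lit 0) (.e (nat_lit 2412) (nat_lit 157) .nil))))) .nil)))) (.nd (nat_lit 5) (.nd (nat_lit 6) 
(.lf (nat_lit 222744) (.g (nat_lit 1349) (.e (nat_lit 106240) (nat_lit 12) (.e (nat_lit 360467) (nat_lit 3) (.e (nat_lit 516146) (nat_lit 9) (.e (nat_lit 426440) (nat_lit 19) .nil)))) .nil)) 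
(.lf (nat_lit 222808) (.g (nat_lit 1059) (.e (nat_lit 106240) (nat_lit 14) (.e (nat_lit 376865) (nat_lit 22) (.e (nat_lit 90172) (nat_lit 14) (.e (nat_lit 188160) (nat_lit 19) .nil)))) .nil))) (.nd (nat_lit 6) 
(.lf (nat_lit 222776) (.g (nat_lit 2628) (.e (nat_lit 106240) (nat_lit 12) (.e (nat_lit 360475) (nat_lit 8) (.e (nat_lit 557090) (nat_lit 12) (.e (nat_lit 163844) (nat_lit 0) (.e (nat_lit 6830) (nat_lit 367) .nil))))) .nil)) 
(.lf (nat_lit 222840) (.g (nat_lit 819) (.e (nat_lit 106240) (nat_lit 14) (.e (nat_lit 376869) (nat_lit 23) (.e (nat_lit 98384) (nat_lit 32) (.e (nat_lit 475201) (nat_lit 40) .nil)))) .nil)))))) (.nd (nat_lit 3) (.nd (nat_lit 4) (.nd (nat_lit 5) (.nd (nat_lit 6) 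
(.lf (nat_lit 222724) (.g (nat_lit 1019) (.e (nat_lit 106240) (nat_lit 12) (.e (nat_lit 360466) (nat_lit 3) (.e (nat_lit 516146) (nat_lit 9) (.e (nat_lit 426449) (nat_lit 20) .nil)))) .nil)) 
(.lf (nat_lit 222788) (.g (nat_lit 1069) (.e (nat_lit 106240) (nat_lit 14) (.e (nat_lit 376862) (nat_lit 22) (.e (nat_lit 90172) (nat_lit 14) (.e (nat_lit 188160) (nat_lit 0) .nil)))) .nil))) (.nd (nat_lit 6) 
(.lf (nat_lit 222756) (.g (nat_lit 1736) (.e (nat_lit 106240) (nat_lit 12) (.e (nat_lit 360467) (nat_lit 3) (.e (nat_lit 516179) (nat_lit 15) (.e (nat_lit 475195) (nat_lit 40) (.e (nat_lit 704637) (nat_lit 9) .nil))))) .nil)) 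
(.lf (nat_lit 222820) (.g (nat_lit 1619) (.e (nat_lit 106240) (nat_lit 14) (.e (nat_lit 376867) (nat_lit 23) (.e (nat_lit 98356) (nat_lit 26) (.e (nat_lit 426467) (nat_lit 24) (.e (nat_lit 155667) (nat_lit 9) .nil))))) .nil)))) (.nd (nat_lit 5) (.nd (nat_lit 6) 
(.lf (nat_lit 222740) (.g (nat_lit 658) (.e (nat_lit 106240) (nat_lit 12) (.e (nat_lit 360466) (nat_lit 3) (.e (nat_lit 516182) (nat_lit 15) (.e (nat_lit 475197) (nat_lit 40) .nil)))) .nil)) 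
(.lf (nat_lit 222804) (.g (nat_lit 436) (.e (nat_lit 106240) (nat_lit 14) (.e (nat_lit 376865) (nat_lit 22) (.e (nat_lit 90172) (nat_lit 14) .nil))) .nil))) (.nd (nat_lit 6) 
(.lf (nat_lit 222772) (.g (nat_lit 2020) (.e (nat_lit 106240) (nat_lit 12) (.e (nat_lit 360475) (nat_lit 8) (.e (nat_lit 557090) (nat_lit 12) (.e (nat_lit 163841) (nat_lit 0) .nil)))) .nil)) 
(.lf (nat_lit 222836) (.g (nat_lit 1288) (.e (nat_lit 106240) (nat_lit 14) (.e (nat_lit 376869) (nat_lit 23) (.e (nat_lit 98365) (nat_lit 26) (.e (nat_lit 426009) (nat_lit 0) (.e (nat_lit 2398) (nat_lit 157) .nil))))) .nil))))) (.nd (nat_lit 4) (.nd (nat_lit 5) (.nd (nat_lit 6) 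
(.lf (nat_lit 222732) (.g (nat_lit 1324) (.e (nat_lit 106240) (nat_lit 12) (.e (nat_lit 360466) (nat_lit 3) (.e (nat_lit 516179) (nat_lit 15) (.e (nat_lit 475195) (nat_lit 40) .nil)))) .nil)) 
(.lf (nat_lit 222796) (.g (nat_lit 1614) (.e (nat_lit 106240) (nat_lit 14) (.e (nat_lit 376862) (nat_lit 22) (.e (nat_lit 90185) (nat_lit 17) (.e (nat_lit 237630) (nat_lit 15) .nil)))) .nil))) (.nd (nat_lit 6) 
(.lf (nat_lit 222764) (.g (nat_lit 1424) (.e (nat_lit 106240) (nat_lit 12) (.e (nat_lit 360467) (nat_lit 3) (.e (nat_lit 516179) (nat_lit 15) (.e (nat_lit 483072) (nat_lit 40) .nil)))) .nil)) 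
(.lf (nat_lit 222828) (.g (nat_lit 1306) (.e (nat_lit 106240) (nat_lit 14) (.e (nat_lit 376867) (nat_lit 23) (.e (nat_lit 98384) (nat_lit 32) (.e (nat_lit 475201) (nat_lit 40) (.e (nat_lit 704655) (nat_lit 9) .nil))))) .nil)))) (.nd (nat_lit 5) (.nd (nat_lit 6) 
(.lf (nat_lit 222748) (.g (nat_lit 1003) (.e (nat_lit 106240) (nat_lit 12) (.e (nat_lit 360467) (nat_lit 3) (.e (nat_lit 516146) (nat_lit 9) (.e (nat_lit 426446) (nat_lit 20) .nil)))) .nil)) 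
(.lf (nat_lit 222812) (.g (nat_lit 374) (.e (nat_lit 106240) (nat_lit 14) (.e (nat_lit 376865) (nat_lit 22) (.e (nat_lit 90185) (nat_lit 17) .nil))) .nil))) (.nd (nat_lit 6) 
(.lf (nat_lit 222780) (.g (nat_lit 575) (.e (nat_lit 106240) (nat_lit 14) (.e (nat_lit 376862) (nat_lit 22) (.e (nat_lit 90167) (nat_lit 13) .nil))) .nil)) 
(.lf (nat_lit 222844) (.g (nat_lit 1530) (.e (nat_lit 106240) (nat_lit 14) (.e (nat_lit 376869) (nat_lit 23) (.e (nat_lit 98384) (nat_lit 32) (.e (nat_lit 475201) (nat_lit 40) (.e (nat_lit 704709) (nat_lit 9) .nil))))) .nil))))))) (.nd (nat_lit 2) (.nd (nat_lit 3) (.nd (nat_lit 4) (.nd (nat_lit 5) (.nd (nat_lit 6) 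
(.lf (nat_lit 222722) (.g (nat_lit 793) (.e (nat_lit 106240) (nat_lit 12) (.e (nat_lit 360466) (nat_lit 3) (.e (nat_lit 516146) (nat_lit 9) (.e (nat_lit 426448) (nat_lit 20) .nil)))) .nil)) 
(.lf (nat_lit 222786) (.g (nat_lit 1390) (.e (nat_lit 106240) (nat_lit 14) (.e (nat_lit 376862) (nat_lit 22) (.e (nat_lit 90172) (nat_lit 14) (.e (nat_lit 180225) (nat_lit 0) .nil)))) .nil))) (.nd (nat_lit 6) 
(.lf (nat_lit 222754) (.g (nat_lit 362) (.e (nat_lit 106240) (nat_lit 12) (.e (nat_lit 360467) (nat_lit 3) (.e (nat_lit 516179) (nat_lit 15) .nil))) .nil)) 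
(.lf (nat_lit 222818) (.g (nat_lit 1131) (.e (nat_lit 106240) (nat_lit 14) (.e (nat_lit 376865) (nat_lit 22) (.e (nat_lit 90185) (nat_lit 17) (.e (nat_lit 245504) (nat_lit 20) .nil)))) .nil)))) (.nd (nat_lit 5) (.nd (nat_lit 6) 
(.lf (nat_lit 222738) (.g (nat_lit 2046) (.e (nat_lit 106240) (nat_lit 12) (.e (nat_lit 360466) (nat_lit 3) (.e (nat_lit 516179) (nat_lit 15) (.e (nat_lit 475214) (nat_lit 42) (.e (nat_lit 720942) (nat_lit 23) .nil))))) .nil)) 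
(.lf (nat_lit 222802) (.g (nat_lit 937) (.e (nat_lit 106240) (nat_lit 14) (.e (nat_lit 376865) (nat_lit 22) (.e (nat_lit 90167) (nat_lit 13) (.e (nat_lit 172142) (nat_lit 24) .nil)))) .nil))) (.nd (nat_lit 6) 
(.lf (nat_lit 222770) (.g (nat_lit 169) (.e (nat_lit 106240) (nat_lit 12) (.e (nat_lit 360468) (nat_lit 3) (.e (nat_lit 516146) (nat_lit 9) .nil))) .nil)) 
(.lf (nat_lit 222834) (.g (nat_lit 687) (.e (nat_lit 106240) (nat_lit 14) (.e (nat_lit 376869) (nat_lit 23) (.e (nat_lit 98363) (nat_lit 26) (.e (nat_lit 433920) (nat_lit 20) .nil)))) .nil))))) (.nd (nat_lit 4) (.nd (nat_lit 5) (.nd (nat_lit 6) 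
(.lf (nat_lit 222730) (.g (nat_lit 967) (.e (nat_lit 106240) (nat_lit 12) (.e (nat_lit 360466) (nat_lit 3) (.e (nat_lit 516150) (nat_lit 9) (.e (nat_lit 433920) (nat_lit 24) .nil)))) .nil)) 
(.lf (nat_lit 222794) (.g (nat_lit 2084) (.e (nat_lit 106240) (nat_lit 14) (.e (nat_lit 376862) (nat_lit 22) (.e (nat_lit 90174) (nat_lit 14) (.e (nat_lit 180261) (nat_lit 20) (.e (nat_lit 655390) (nat_lit 9) .nil))))) .nil))) (.nd (nat_lit 6) 
(.lf (nat_lit 222762) (.g (nat_lit 1422) (.e (nat_lit 106240) (nat_lit 12) (.e (nat_lit 360467) (nat_lit 3) (.e (nat_lit 516179) (nat_lit 15) (.e (nat_lit 475203) (nat_lit 40) .nil)))) .nil)) 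
(.lf (nat_lit 222826) (.g (nat_lit 1330) (.e (nat_lit 106240) (nat_lit 14) (.e (nat_lit 376867) (nat_lit 23) (.e (nat_lit 98384) (nat_lit 32) (.e (nat_lit 475201) (nat_lit 40) (.e (nat_lit 704620) (nat_lit 9) .nil))))) .nil)))) (.nd (nat_lit 5) (.nd (nat_lit 6) 
(.lf (nat_lit 222746) (.g (nat_lit 1559) (.e (nat_lit 106240) (nat_lit 12) (.e (nat_lit 360467) (nat_lit 3) (.e (nat_lit 516146) (nat_lit 9) (.e (nat_lit 426440) (nat_lit 19) (.e (nat_lit 106526) (nat_lit 9) .nil))))) .nil)) 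
(.lf (nat_lit 222810) (.g (nat_lit 2279) (.e (nat_lit 106240) (nat_lit 14) (.e (nat_lit 376865) (nat_lit 22) (.e (nat_lit 90174) (nat_lit 14) (.e (nat_lit 180225) (nat_lit 0) (.e (nat_lit 7936) (nat_lit 308) .nil))))) .nil))) (.nd (nat_lit 6) 
(.lf (nat_lit 222778) (.g (nat_lit 237) (.e (nat_lit 106240) (nat_lit 14) (.e (nat_lit 376840) (nat_lit 11) (.e (nat_lit 426488) (nat_lit 27) (.e (nat_lit 336335) (nat_lit 20) (.e (nat_lit 229120) (nat_lit 3) .nil))))) .nil)) 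
(.lf (nat_lit 222842) (.g (nat_lit 1596) (.e (nat_lit 106240) (nat_lit 14) (.e (nat_lit 376869) (nat_lit 23) (.e (nat_lit 98384) (nat_lit 32) (.e (nat_lit 475201) (nat_lit 40) (.e (nat_lit 704634) (nat_lit 9) .nil))))) .nil)))))) (.nd (nat_lit 3) (.nd (nat_lit 4) (.nd (nat_lit 5) (.nd (nat_lit 6) 
(.lf (nat_lit 222726) (.g (nat_lit 651) (.e (nat_lit 106240) (nat_lit 12) (.e (nat_lit 360466) (nat_lit 3) (.e (nat_lit 516147) (nat_lit 9) (.e (nat_lit 426446) (nat_lit 20) (.e (nat_lit 114717) (nat_lit 23) .nil))))) .nil)) 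
(.lf (nat_lit 222790) (.g (nat_lit 586) (.e (nat_lit 106240) (nat_lit 14) (.e (nat_lit 376862) (nat_lit 22) (.e (nat_lit 90174) (nat_lit 14) .nil))) .nil))) (.nd (nat_lit 6) 
(.lf (nat_lit 222758) (.g (nat_lit 808) (.e (nat_lit 106240) (nat_lit 12) (.e (nat_lit 360467) (nat_lit 3) (.e (nat_lit 516179) (nat_lit 15) (.e (nat_lit 475201) (nat_lit 40) .nil)))) .nil)) 
(.lf (nat_lit 222822) (.g (nat_lit 993) (.e (nat_lit 106240) (nat_lit 14) (.e (nat_lit 376867) (nat_lit 23) (.e (nat_lit 98365) (nat_lit 26) (.e (nat_lit 426009) (nat_lit 0) (.e (nat_lit 2398) (nat_lit 157) .nil))))) .nil)))) (.nd (nat_lit 5) (.nd (nat_lit 6) 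
(.lf (nat_lit 222742) (.g (nat_lit 399) (.e (nat_lit 106240) (nat_lit 12) (.e (nat_lit 360467) (nat_lit 3) (.e (nat_lit 516146) (nat_lit 9) .nil))) .nil)) 
(.lf (nat_lit 222806) (.g (nat_lit 1983) (.e (nat_lit 106240) (nat_lit 14) (.e (nat_lit 376865) (nat_lit 22) (.e (nat_lit 90172) (nat_lit 14) (.e (nat_lit 180225) (nat_lit 0) (.e (nat_lit 7936) (nat_lit 308) .nil))))) .nil))) (.nd (nat_lit 6) 
(.lf (nat_lit 222774) (.g (nat_lit 2826) (.e (nat_lit 106240) (nat_lit 12) (.e (nat_lit 360475) (nat_lit 8) (.e (nat_lit 557090) (nat_lit 12) (.e (nat_lit 163843) (nat_lit 0) (.e (nat_lit 6830) (nat_lit 367) .nil))))) .nil)) 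
(.lf (nat_lit 222838) (.g (nat_lit 1291) (.e (nat_lit 106240) (nat_lit 14) (.e (nat_lit 376869) (nat_lit 23) (.e (nat_lit 98365) (nat_lit 26) (.e (nat_lit 426009) (nat_lit 0) (.e (nat_lit 2412) (nat_lit 157) .nil))))) .nil))))) (.nd (nat_lit 4) (.nd (nat_lit 5) (.nd (nat_lit 6) 
(.lf (nat_lit 222734) (.g (nat_lit 2723) (.e (nat_lit 106240) (nat_lit 12) (.e (nat_lit 360466) (nat_lit 3) (.e (nat_lit 516179) (nat_lit 15) (.e (nat_lit 475199) (nat_lit 40) (.e (nat_lit 704607) (nat_lit 9) .nil))))) .nil)) 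
(.lf (nat_lit 222798) (.g (nat_lit 977) (.e (nat_lit 106240) (nat_lit 14) (.e (nat_lit 376863) (nat_lit 22) (.e (nat_lit 90174) (nat_lit 14) (.e (nat_lit 180261) (nat_lit 20) .nil)))) .nil))) (.nd (nat_lit 6) 
(.lf (nat_lit 222766) (.g (nat_lit 1179) (.e (nat_lit 106240) (nat_lit 12) (.e (nat_lit 360467) (nat_lit 3) (.e (nat_lit 516179) (nat_lit 15) (.e (nat_lit 475214) (nat_lit 42) (.e (nat_lit 728832) (nat_lit 23) .nil))))) .nil)) 
(.lf (nat_lit 222830) (.g (nat_lit 1013) (.e (nat_lit 106240) (nat_lit 14) (.e (nat_lit 376867) (nat_lit 23) (.e (nat_lit 98384) (nat_lit 32) (.e (nat_lit 483072) (nat_lit 40) .nil)))) .nil)))) (.nd (nat_lit 5) (.nd (nat_lit 6) 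
(.lf (nat_lit 222750) (.g (nat_lit 1228) (.e (nat_lit 106240) (nat_lit 12) (.e (nat_lit 360467) (nat_lit 3) (.e (nat_lit 516146) (nat_lit 9) (.e (nat_lit 426448) (nat_lit 20) (.e (nat_lit 122624) (nat_lit 23) .nil))))) .nil)) 
(.lf (nat_lit 222814) (.g (nat_lit 1222) (.e (nat_lit 106240) (nat_lit 14) (.e (nat_lit 376865) (nat_lit 22) (.e (nat_lit 90185) (nat_lit 17) (.e (nat_lit 237584) (nat_lit 1) .nil)))) .nil))) (.nd (nat_lit 6) 
(.lf (nat_lit 222782) (.g (nat_lit 534) (.e (nat_lit 106240) (nat_lit 14) (.e (nat_lit 376862) (nat_lit 22) (.e (nat_lit 90168) (nat_lit 13) (.e (nat_lit 179968) (nat_lit 20) .nil)))) .nil)) 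
(.lf (nat_lit 222846) (.g (nat_lit 1177) (.e (nat_lit 106240) (nat_lit 14) (.e (nat_lit 376869) (nat_lit 23) (.e (nat_lit 98384) (nat_lit 32) (.e (nat_lit 483072) (nat_lit 40) .nil)))) .nil)))))))) (.nd (nat_lit 1) (.nd (nat_lit 2) (.nd (nat_lit 3) (.nd (nat_lit 4) (.nd (nat_lit 5) (.nd (nat_lit 6) 
(.lf (nat_lit 222721) (.g (nat_lit 1172) (.e (nat_lit 106240) (nat_lit 12) (.e (nat_lit 360466) (nat_lit 3) (.e (nat_lit 516146) (nat_lit 9) (.e (nat_lit 426446) (nat_lit 20) (.e (nat_lit 114717) (nat_lit 23) .nil))))) .nil)) 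
(.lf (nat_lit 222785) (.g (nat_lit 1374) (.e (nat_lit 106240) (nat_lit 14) (.e (nat_lit 376862) (nat_lit 22) (.e (nat_lit 90170) (nat_lit 13) (.e (nat_lit 172135) (nat_lit 15) .nil)))) .nil))) (.nd (nat_lit 6) 
(.lf (nat_lit 222753) (.g (nat_lit 877) (.e (nat_lit 106240) (nat_lit 12) (.e (nat_lit 360467) (nat_lit 3) (.e (nat_lit 516147) (nat_lit 9) (.e (nat_lit 426446) (nat_lit 20) (.e (nat_lit 114717) (nat_lit 23) .nil))))) .nil)) 
(.lf (nat_lit 222817) (.g (nat_lit 2032) (.e (nat_lit 106240) (nat_lit 14) (.e (nat_lit 376865) (nat_lit 22) (.e (nat_lit 90185) (nat_lit 17) (.e (nat_lit 237630) (nat_lit 15) .nil)))) .nil)))) (.nd (nat_lit 5) (.nd (nat_lit 6) 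
(.lf (nat_lit 222737) (.g (nat_lit 793) (.e (nat_lit 106240) (nat_lit 12) (.e (nat_lit 360466) (nat_lit 3) (.e (nat_lit 516179) (nat_lit 15) (.e (nat_lit 475214) (nat_lit 42) .nil)))) .nil)) 
(.lf (nat_lit 222801) (.g (nat_lit 458) (.e (nat_lit 106240) (nat_lit 14) (.e (nat_lit 376865) (nat_lit 22) (.e (nat_lit 90167) (nat_lit 13) .nil))) .nil))) (.nd (nat_lit 6) 
(.lf (nat_lit 222769) (.g (nat_lit 562) (.e (nat_lit 106240) (nat_lit 12) (.e (nat_lit 360467) (nat_lit 3) (.e (nat_lit 516182) (nat_lit 15) .nil))) .nil)) 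
(.lf (nat_lit 222833) (.g (nat_lit 1148) (.e (nat_lit 106240) (nat_lit 14) (.e (nat_lit 376867) (nat_lit 23) (.e (nat_lit 98384) (nat_lit 32) (.e (nat_lit 475215) (nat_lit 43) (.e (nat_lit 729114) (nat_lit 23) .nil))))) .nil))))) (.nd (nat_lit 4) (.nd (nat_lit 5) (.nd (nat_lit 6) 
(.lf (nat_lit 222729) (.g (nat_lit 1535) (.e (nat_lit 106240) (nat_lit 12) (.e (nat_lit 360466) (nat_lit 3) (.e (nat_lit 516150) (nat_lit 9) (.e (nat_lit 426467) (nat_lit 24) .nil)))) .nil)) 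
(.lf (nat_lit 222793) (.g (nat_lit 2128) (.e (nat_lit 106240) (nat_lit 14) (.e (nat_lit 376862) (nat_lit 22) (.e (nat_lit 90174) (nat_lit 14) (.e (nat_lit 180261) (nat_lit 20) (.e (nat_lit 655387) (nat_lit 9) .nil))))) .nil))) (.nd (nat_lit 6) 
(.lf (nat_lit 222761) (.g (nat_lit 1368) (.e (nat_lit 106240) (nat_lit 12) (.e (nat_lit 360467) (nat_lit 3) (.e (nat_lit 516179) (nat_lit 15) (.e (nat_lit 475201) (nat_lit 40) (.e (nat_lit 704643) (nat_lit 9) .nil))))) .nil)) 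
(.lf (nat_lit 222825) (.g (nat_lit 653) (.e (nat_lit 106240) (nat_lit 14) (.e (nat_lit 376867) (nat_lit 23) (.e (nat_lit 98384) (nat_lit 32) (.e (nat_lit 475201) (nat_lit 40) .nil)))) .nil)))) (.nd (nat_lit 5) (.nd (nat_lit 6) 
(.lf (nat_lit 222745) (.g (nat_lit 1610) (.e (nat_lit 106240) (nat_lit 12) (.e (nat_lit 360467) (nat_lit 3) (.e (nat_lit 516146) (nat_lit 9) (.e (nat_lit 426440) (nat_lit 19) (.e (nat_lit 106504) (nat_lit 9) .nil))))) .nil)) 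
(.lf (nat_lit 222809) (.g (nat_lit 531) (.e (nat_lit 106240) (nat_lit 14) (.e (nat_lit 376865) (nat_lit 22) (.e (nat_lit 90174) (nat_lit 14) .nil))) .nil))) (.nd (nat_lit 6) 
(.lf (nat_lit 222777) (.g (nat_lit 231) (.e (nat_lit 106240) (nat_lit 14) (.e (nat_lit 376840) (nat_lit 11) (.e (nat_lit 426488) (nat_lit 27) (.e (nat_lit 336333) (nat_lit 20) (.e (nat_lit 229120) (nat_lit 3) .nil))))) .nil)) 
(.lf (nat_lit 222841) (.g (nat_lit 1518) (.e (nat_lit 106240) (nat_lit 14) (.e (nat_lit 376869) (nat_lit 23) (.e (nat_lit 98384) (nat_lit 32) (.e (nat_lit 475201) (nat_lit 40) (.e (nat_lit 704620) (nat_lit 9) .nil))))) .nil)))))) (.nd (nat_lit 3) (.nd (nat_lit 4) (.nd (nat_lit 5) (.nd (nat_lit 6) 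
(.lf (nat_lit 222725) (.g (nat_lit 989) (.e (nat_lit 106240) (nat_lit 12) (.e (nat_lit 360466) (nat_lit 3) (.e (nat_lit 516146) (nat_lit 9) (.e (nat_lit 433920) (nat_lit 20) .nil)))) .nil)) 
(.lf (nat_lit 222789) (.g (nat_lit 1069) (.e (nat_lit 106240) (nat_lit 14) (.e (nat_lit 376862) (nat_lit 22) (.e (nat_lit 90172) (nat_lit 14) (.e (nat_lit 188160) (nat_lit 19) .nil)))) .nil))) (.nd (nat_lit 6) 
(.lf (nat_lit 222757) (.g (nat_lit 3113) (.e (nat_lit 106240) (nat_lit 12) (.e (nat_lit 360467) (nat_lit 3) (.e (nat_lit 516179) (nat_lit 15) (.e (nat_lit 475199) (nat_lit 40) (.e (nat_lit 704607) (nat_lit 9) .nil))))) .nil)) 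
(.lf (nat_lit 222821) (.g (nat_lit 614) (.e (nat_lit 106240) (nat_lit 14) (.e (nat_lit 376867) (nat_lit 23) (.e (nat_lit 98363) (nat_lit 26) (.e (nat_lit 433920) (nat_lit 20) .nil)))) .nil)))) (.nd (nat_lit 5) (.nd (nat_lit 6) 
(.lf (nat_lit 222741) (.g (nat_lit 461) (.e (nat_lit 106240) (nat_lit 12) (.e (nat_lit 360467) (nat_lit 3) (.e (nat_lit 516144) (nat_lit 9) .nil))) .nil)) 
(.lf (nat_lit 222805) (.g (nat_lit 1322) (.e (nat_lit 106240) (nat_lit 14) (.e (nat_lit 376865) (nat_lit 22) (.e (nat_lit 90172) (nat_lit 14) (.e (nat_lit 180225) (nat_lit 0) .nil)))) .nil))) (.nd (nat_lit 6) 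
(.lf (nat_lit 222773) (.g (nat_lit 2890) (.e (nat_lit 106240) (nat_lit 12) (.e (nat_lit 360475) (nat_lit 8) (.e (nat_lit 557090) (nat_lit 12) (.e (nat_lit 163843) (nat_lit 0) (.e (nat_lit 6828) (nat_lit 367) .nil))))) .nil)) 
(.lf (nat_lit 222837) (.g (nat_lit 1288) (.e (nat_lit 106240) (nat_lit 14) (.e (nat_lit 376869) (nat_lit 23) (.e (nat_lit 98365) (nat_lit 26) (.e (nat_lit 426009) (nat_lit 0) (.e (nat_lit 2401) (nat_lit 157) .nil))))) .nil))))) (.nd (nat_lit 4) (.nd (nat_lit 5) (.nd (nat_lit 6) 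
(.lf (nat_lit 222733) (.g (nat_lit 1339) (.e (nat_lit 106240) (nat_lit 12) (.e (nat_lit 360466) (nat_lit 3) (.e (nat_lit 516179) (nat_lit 15) (.e (nat_lit 475197) (nat_lit 40) .nil)))) .nil)) 
(.lf (nat_lit 222797) (.g (nat_lit 1007) (.e (nat_lit 106240) (nat_lit 14) (.e (nat_lit 376862) (nat_lit 22) (.e (nat_lit 90185) (nat_lit 17) (.e (nat_lit 245504) (nat_lit 24) .nil)))) .nil))) (.nd (nat_lit 6) 
(.lf (nat_lit 222765) (.g (nat_lit 1618) (.e (nat_lit 106240) (nat_lit 12) (.e (nat_lit 360467) (nat_lit 3) (.e (nat_lit 516179) (nat_lit 15) (.e (nat_lit 475214) (nat_lit 42) (.e (nat_lit 720944) (nat_lit 23) .nil))))) .nil)) 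
(.lf (nat_lit 222829) (.g (nat_lit 1354) (.e (nat_lit 106240) (nat_lit 14) (.e (nat_lit 376867) (nat_lit 23) (.e (nat_lit 98384) (nat_lit 32) (.e (nat_lit 475201) (nat_lit 40) (.e (nat_lit 704686) (nat_lit 9) .nil))))) .nil)))) (.nd (nat_lit 5) (.nd (nat_lit 6) 
(.lf (nat_lit 222749) (.g (nat_lit 1906) (.e (nat_lit 106240) (nat_lit 12) (.e (nat_lit 360467) (nat_lit 3) (.e (nat_lit 516146) (nat_lit 9) (.e (nat_lit 426448) (nat_lit 20) (.e (nat_lit 114717) (nat_lit 23) .nil))))) .nil)) 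
(.lf (nat_lit 222813) (.g (nat_lit 1371) (.e (nat_lit 106240) (nat_lit 14) (.e (nat_lit 376865) (nat_lit 22) (.e (nat_lit 90185) (nat_lit 17) (.e (nat_lit 237582) (nat_lit 1) .nil)))) .nil))) (.nd (nat_lit 6) 
(.lf (nat_lit 222781) (.g (nat_lit 1070) (.e (nat_lit 106240) (nat_lit 14) (.e (nat_lit 376862) (nat_lit 22) (.e (nat_lit 90167) (nat_lit 13) (.e (nat_lit 172142) (nat_lit 24) .nil)))) .nil)) 
(.lf (nat_lit 222845) (.g (nat_lit 1138) (.e (nat_lit 106240) (nat_lit 14) (.e (nat_lit 376869) (nat_lit 23) (.e (nat_lit 98384) (nat_lit 32) (.e (nat_lit 475203) (nat_lit 40) .nil)))) .nil))))))) (.nd (nat_lit 2) (.nd (nat_lit 3) (.nd (nat_lit 4) (.nd (nat_lit 5) (.nd (nat_lit 6) 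
(.lf (nat_lit 222723) (.g (nat_lit 1765) (.e (nat_lit 106240) (nat_lit 12) (.e (nat_lit 360466) (nat_lit 3) (.e (nat_lit 516146) (nat_lit 9) (.e (nat_lit 426448) (nat_lit 20) (.e (nat_lit 114717) (nat_lit 23) .nil))))) .nil)) 
(.lf (nat_lit 222787) (.g (nat_lit 2050) (.e (nat_lit 106240) (nat_lit 14) (.e (nat_lit 376862) (nat_lit 22) (.e (nat_lit 90172) (nat_lit 14) (.e (nat_lit 180225) (nat_lit 0) (.e (nat_lit 7936) (nat_lit 308) .nil))))) .nil))) (.nd (nat_lit 6) 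
(.lf (nat_lit 222755) (.g (nat_lit 1423) (.e (nat_lit 106240) (nat_lit 12) (.e (nat_lit 360467) (nat_lit 3) (.e (nat_lit 516179) (nat_lit 15) (.e (nat_lit 475195) (nat_lit 40) .nil)))) .nil)) 
(.lf (nat_lit 222819) (.g (nat_lit 1131) (.e (nat_lit 106240) (nat_lit 14) (.e (nat_lit 376865) (nat_lit 22) (.e (nat_lit 90185) (nat_lit 17) (.e (nat_lit 245504) (nat_lit 24) .nil)))) .nil)))) (.nd (nat_lit 5) (.nd (nat_lit 6) 
(.lf (nat_lit 222739) (.g (nat_lit 400) (.e (nat_lit 106240) (nat_lit 12) (.e (nat_lit 360466) (nat_lit 3) (.e (nat_lit 516182) (nat_lit 15) .nil))) .nil)) 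
(.lf (nat_lit 222803) (.g (nat_lit 665) (.e (nat_lit 106240) (nat_lit 14) (.e (nat_lit 376865) (nat_lit 22) (.e (nat_lit 90169) (nat_lit 13) (.e (nat_lit 179968) (nat_lit 20) .nil)))) .nil))) (.nd (nat_lit 6) 
(.lf (nat_lit 222771) (.g (nat_lit 169) (.e (nat_lit 106240) (nat_lit 12) (.e (nat_lit 360468) (nat_lit 3) (.e (nat_lit 516147) (nat_lit 9) .nil))) .nil)) 
(.lf (nat_lit 222835) (.g (nat_lit 1122) (.e (nat_lit 106240) (nat_lit 14) (.e (nat_lit 376869) (nat_lit 23) (.e (nat_lit 98365) (nat_lit 26) (.e (nat_lit 426009) (nat_lit 0) .nil)))) .nil))))) (.nd (nat_lit 4) (.nd (nat_lit 5) (.nd (nat_lit 6) 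
(.lf (nat_lit 222731) (.g (nat_lit 423) (.e (nat_lit 106240) (nat_lit 12) (.e (nat_lit 360466) (nat_lit 3) (.e (nat_lit 516178) (nat_lit 15) .nil))) .nil)) 
(.lf (nat_lit 222795) (.g (nat_lit 1750) (.e (nat_lit 106240) (nat_lit 14) (.e (nat_lit 376862) (nat_lit 22) (.e (nat_lit 90185) (nat_lit 17) (.e (nat_lit 237595) (nat_lit 4) .nil)))) .nil))) (.nd (nat_lit 6) 
(.lf (nat_lit 222763) (.g (nat_lit 1432) (.e (nat_lit 106240) (nat_lit 12) (.e (nat_lit 360467) (nat_lit 3) (.e (nat_lit 516179) (nat_lit 15) (.e (nat_lit 475204) (nat_lit 40) .nil)))) .nil)) 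
(.lf (nat_lit 222827) (.g (nat_lit 1397) (.e (nat_lit 106240) (nat_lit 14) (.e (nat_lit 376867) (nat_lit 23) (.e (nat_lit 98384) (nat_lit 32) (.e (nat_lit 475201) (nat_lit 40) (.e (nat_lit 704635) (nat_lit 9) .nil))))) .nil)))) (.nd (nat_lit 5) (.nd (nat_lit 6) 
(.lf (nat_lit 222747) (.g (nat_lit 1907) (.e (nat_lit 106240) (nat_lit 12) (.e (nat_lit 360467) (nat_lit 3) (.e (nat_lit 516146) (nat_lit 9) (.e (nat_lit 426444) (nat_lit 19) (.e (nat_lit 106504) (nat_lit 9) .nil))))) .nil)) 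
(.lf (nat_lit 222811) (.g (nat_lit 1322) (.e (nat_lit 106240) (nat_lit 14) (.e (nat_lit 376865) (nat_lit 22) (.e (nat_lit 90174) (nat_lit 14) (.e (nat_lit 188160) (nat_lit 19) .nil)))) .nil))) (.nd (nat_lit 6) 
(.lf (nat_lit 222779) (.g (nat_lit 277) (.e (nat_lit 106240) (nat_lit 14) (.e (nat_lit 376840) (nat_lit 11) (.e (nat_lit 426520) (nat_lit 27) (.e (nat_lit 336335) (nat_lit 20) (.e (nat_lit 229120) (nat_lit 3) .nil))))) .nil)) 
(.lf (nat_lit 222843) (.g (nat_lit 1598) (.e (nat_lit 106240) (nat_lit 14) (.e (nat_lit 376869) (nat_lit 23) (.e (nat_lit 98384) (nat_lit 32) (.e (nat_lit 475201) (nat_lit 40) (.e (nat_lit 704635) (nat_lit 9) .nil))))) .nil)))))) (.nd (nat_lit 3) (.nd (nat_lit 4) (.nd (nat_lit 5) (.nd (nat_lit 6) 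
(.lf (nat_lit 222727) (.g (nat_lit 1457) (.e (nat_lit 106240) (nat_lit 12) (.e (nat_lit 360466) (nat_lit 3) (.e (nat_lit 516150) (nat_lit 9) (.e (nat_lit 426360) (nat_lit 15) (.e (nat_lit 2198) (nat_lit 144) .nil))))) .nil)) 
(.lf (nat_lit 222791) (.g (nat_lit 2453) (.e (nat_lit 106240) (nat_lit 14) (.e (nat_lit 376862) (nat_lit 22) (.e (nat_lit 90174) (nat_lit 14) (.e (nat_lit 180225) (nat_lit 0) (.e (nat_lit 7936) (nat_lit 308) .nil))))) .nil))) (.nd (nat_lit 6) 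
(.lf (nat_lit 222759) (.g (nat_lit 1367) (.e (nat_lit 106240) (nat_lit 12) (.e (nat_lit 360467) (nat_lit 3) (.e (nat_lit 516179) (nat_lit 15) (.e (nat_lit 475201) (nat_lit 40) (.e (nat_lit 704634) (nat_lit 9) .nil))))) .nil)) 
(.lf (nat_lit 222823) (.g (nat_lit 993) (.e (nat_lit 106240) (nat_lit 14) (.e (nat_lit 376867) (nat_lit 23) (.e (nat_lit 98365) (nat_lit 26) (.e (nat_lit 426009) (nat_lit 0) (.e (nat_lit 2401) (nat_lit 157) .nil))))) .nil)))) (.nd (nat_lit 5) (.nd (nat_lit 6) 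
(.lf (nat_lit 222743) (.g (nat_lit 1360) (.e (nat_lit 106240) (nat_lit 12) (.e (nat_lit 360467) (nat_lit 3) (.e (nat_lit 516146) (nat_lit 9) (.e (nat_lit 426439) (nat_lit 19) .nil)))) .nil)) 
(.lf (nat_lit 222807) (.g (nat_lit 1059) (.e (nat_lit 106240) (nat_lit 14) (.e (nat_lit 376865) (nat_lit 22) (.e (nat_lit 90172) (nat_lit 14) (.e (nat_lit 188160) (nat_lit 0) .nil)))) .nil))) (.nd (nat_lit 6) 
(.lf (nat_lit 222775) (.g (nat_lit 2628) (.e (nat_lit 106240) (nat_lit 12) (.e (nat_lit 360475) (nat_lit 8) (.e (nat_lit 557090) (nat_lit 12) (.e (nat_lit 163844) (nat_lit 0) (.e (nat_lit 6828) (nat_lit 367) .nil))))) .nil)) 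
(.lf (nat_lit 222839) (.g (nat_lit 774) (.e (nat_lit 106240) (nat_lit 14) (.e (nat_lit 376869) (nat_lit 23) (.e (nat_lit 98367) (nat_lit 27) (.e (nat_lit 434272) (nat_lit 38) .nil)))) .nil))))) (.nd (nat_lit 4) (.nd (nat_lit 5) (.nd (nat_lit 6) 
(.lf (nat_lit 222735) (.g (nat_lit 802) (.e (nat_lit 106240) (nat_lit 12) (.e (nat_lit 360466) (nat_lit 3) (.e (nat_lit 516179) (nat_lit 15) (.e (nat_lit 475201) (nat_lit 40) .nil)))) .nil)) 
(.lf (nat_lit 222799) (.g (nat_lit 165) (.e (nat_lit 106240) (nat_lit 14) (.e (nat_lit 376864) (nat_lit 22) (.e (nat_lit 90133) (nat_lit 9) .nil))) .nil))) (.nd (nat_lit 6) 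
(.lf (nat_lit 222767) (.g (nat_lit 1406) (.e (nat_lit 106240) (nat_lit 12) (.e (nat_lit 360467) (nat_lit 3) (.e (nat_lit 516179) (nat_lit 15) (.e (nat_lit 475215) (nat_lit 43) .nil)))) .nil)) 
(.lf (nat_lit 222831) (.g (nat_lit 1372) (.e (nat_lit 106240) (nat_lit 14) (.e (nat_lit 376867) (nat_lit 23) (.e (nat_lit 98384) (nat_lit 32) (.e (nat_lit 475212) (nat_lit 42) (.e (nat_lit 720945) (nat_lit 23) .nil))))) .nil)))) (.nd (nat_lit 5) (.nd (nat_lit 6) 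
(.lf (nat_lit 222751) (.g (nat_lit 1252) (.e (nat_lit 106240) (nat_lit 12) (.e (nat_lit 360467) (nat_lit 3) (.e (nat_lit 516146) (nat_lit 9) (.e (nat_lit 426449) (nat_lit 20) .nil)))) .nil)) 
(.lf (nat_lit 222815) (.g (nat_lit 1242) (.e (nat_lit 106240) (nat_lit 14) (.e (nat_lit 376865) (nat_lit 22) (.e (nat_lit 90185) (nat_lit 17) (.e (nat_lit 237585) (nat_lit 1) .nil)))) .nil))) (.nd (nat_lit 6) 
(.lf (nat_lit 222783) (.g (nat_lit 757) (.e (nat_lit 106240) (nat_lit 14) (.e (nat_lit 376862) (nat_lit 22) (.e (nat_lit 90169) (nat_lit 13) (.e (nat_lit 179968) (nat_lit 20) .nil)))) .nil)) 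
(.lf (nat_lit 222847) (.g (nat_lit 1463) (.e (nat_lit 106240) (nat_lit 14) (.e (nat_lit 376869) (nat_lit 23) (.e (nat_lit 98384) (nat_lit 32) (.e (nat_lit 475212) (nat_lit 42) (.e (nat_lit 720945) (nat_lit 23) .nil))))) .nil)))))))))

noncomputable def tv2924 : DT := (.nd (nat_lit 0) (.nd (nat_lit 1) (.nd (nat_lit 2) (.nd (nat_lit 3) (.nd (nat_lit 4) (.nd (nat_lit 5) (.nd (nat_lit 6) 
(.lf (nat_lit 222848) (.g (nat_lit 1853) (.e (nat_lit 106240) (nat_lit 14) (.e (nat_lit 376869) (nat_lit 23) (.e (nat_lit 98384) (nat_lit 32) (.e (nat_lit 475214) (nat_lit 42) (.e (nat_lit 720942) (nat_lit 23) .nil))))) .nil)) 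
(.lf (nat_lit 222912) (.g (nat_lit 2151) (.e (nat_lit 106240) (nat_lit 16) (.e (nat_lit 401459) (nat_lit 13) (.e (nat_lit 483363) (nat_lit 18) (.e (nat_lit 57704) (nat_lit 164) (.e (nat_lit 2555) (nat_lit 159) .nil))))) .nil))) (.nd (nat_lit 6) 
(.lf (nat_lit 222880) (.g (nat_lit 1406) (.e (nat_lit 106240) (nat_lit 16) (.e (nat_lit 401454) (nat_lit 12) (.e (nat_lit 475151) (nat_lit 17) .nil))) .nil)) 
(.lf (nat_lit 222944) (.g (nat_lit 2139) (.e (nat_lit 98319) (nat_lit 17) (.e (nat_lit 7065) (nat_lit 377) (.e (nat_lit 1348) (nat_lit 102) (.e (nat_lit 286733) (nat_lit 2) (.e (nat_lit 90173) (nat_lit 14) .nil))))) .nil)))) (.nd (nat_lit 5) (.nd (nat_lit 6) 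
(.lf (nat_lit 222864) (.g (nat_lit 831) (.e (nat_lit 106240) (nat_lit 16) (.e (nat_lit 401437) (nat_lit 9) (.e (nat_lit 426482) (nat_lit 27) (.e (nat_lit 336363) (nat_lit 26) .nil)))) .nil)) 
(.lf (nat_lit 222928) (.g (nat_lit 1860) (.e (nat_lit 98319) (nat_lit 17) (.e (nat_lit 3763) (nat_lit 229) (.e (nat_lit 794633) (nat_lit 11) (.e (nat_lit 336012) (nat_lit 2) (.e (nat_lit 90178) (nat_lit 15) (.e (nat_lit 196352) (nat_lit 3) .nil)))))) (.g (nat_lit 5) .nil .nil)))) (.nd (nat_lit 6) 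
(.lf (nat_lit 222896) (.g (nat_lit 919) (.e (nat_lit 106240) (nat_lit 16) (.e (nat_lit 401459) (nat_lit 13) (.e (nat_lit 483328) (nat_lit 0) .nil))) .nil)) 
(.lf (nat_lit 222960) (.g (nat_lit 1253) (.e (nat_lit 98319) (nat_lit 17) (.e (nat_lit 7591) (nat_lit 407) (.e (nat_lit 73729) (nat_lit 0) (.e (nat_lit 7936) (nat_lit 239) .nil)))) .nil))))) (.nd (nat_lit 4) (.nd (nat_lit 5) (.nd (nat_lit 6) 
(.lf (nat_lit 222856) (.g (nat_lit 1428) (.e (nat_lit 106240) (nat_lit 15) (.e (nat_lit 385106) (nat_lit 50) (.e (nat_lit 786473) (nat_lit 27) (.e (nat_lit 336460) (nat_lit 35) .nil)))) .nil)) 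
(.lf (nat_lit 222920) (.g (nat_lit 2022) (.e (nat_lit 98318) (nat_lit 17) (.e (nat_lit 6989) (nat_lit 377) (.e (nat_lit 2810) (nat_lit 180) (.e (nat_lit 303119) (nat_lit 3) (.e (nat_lit 204867) (nat_lit 28) .nil))))) .nil))) (.nd (nat_lit 6) 
(.lf (nat_lit 222888) (.g (nat_lit 634) (.e (nat_lit 106240) (nat_lit 16) (.e (nat_lit 401458) (nat_lit 13) (.e (nat_lit 483328) (nat_lit 0) .nil))) .nil)) 
(.lf (nat_lit 222952) (.g (nat_lit 2290) (.e (nat_lit 98319) (nat_lit 17) (.e (nat_lit 7065) (nat_lit 377) (.e (nat_lit 1349) (nat_lit 102) (.e (nat_lit 286733) (nat_lit 2) (.e (nat_lit 90173) (nat_lit 14) (.e (nat_lit 180277) (nat_lit 32) (.e (nat_lit 1253) (nat_lit 92) .nil))))))) (.g (nat_lit 4) .nil .nil))))) (.nd (nat_lit 5) (.nd (nat_lit 6) 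
(.lf (nat_lit 222872) (.g (nat_lit 1386) (.e (nat_lit 106240) (nat_lit 16) (.e (nat_lit 401454) (nat_lit 12) (.e (nat_lit 475138) (nat_lit 0) .nil))) .nil)) 
(.lf (nat_lit 222936) (.g (nat_lit 1671) (.e (nat_lit 98319) (nat_lit 17) (.e (nat_lit 3780) (nat_lit 229) (.e (nat_lit 794633) (nat_lit 11) (.e (nat_lit 336012) (nat_lit 2) (.e (nat_lit 90176) (nat_lit 15) (.e (nat_lit 196352) (nat_lit 3) .nil)))))) (.g (nat_lit 5) .nil .nil)))) (.nd (nat_lit 6) 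
(.lf (nat_lit 222904) (.g (nat_lit 913) (.e (nat_lit 106240) (nat_lit 16) (.e (nat_lit 401459) (nat_lit 13) (.e (nat_lit 483334) (nat_lit 0) .nil))) .nil)) 
(.lf (nat_lit 222968) (.g (nat_lit 1597) (.e (nat_lit 98319) (nat_lit 17) (.e (nat_lit 7591) (nat_lit 407) (.e (nat_lit 73747) (nat_lit 3) (.e (nat_lit 516185) (nat_lit 16) (.e (nat_lit 491552) (nat_lit 9) .nil))))) .nil)))))) (.nd (nat_lit 3) (.nd (nat_lit 4) (.nd (nat_lit 5) (.nd (nat_lit 6) 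
(.lf (nat_lit 222852) (.g (nat_lit 767) (.e (nat_lit 106240) (nat_lit 15) (.e (nat_lit 385105) (nat_lit 50) (.e (nat_lit 786470) (nat_lit 27) .nil))) .nil)) 
(.lf (nat_lit 222916) (.g (nat_lit 1615) (.e (nat_lit 98318) (nat_lit 17) (.e (nat_lit 3605) (nat_lit 225) (.e (nat_lit 761905) (nat_lit 16) (.e (nat_lit 179968) (nat_lit 34) .nil)))) .nil))) (.nd (nat_lit 6) 
(.lf (nat_lit 222884) (.g (nat_lit 1406) (.e (nat_lit 106240) (nat_lit 16) (.e (nat_lit 401454) (nat_lit 12) (.e (nat_lit 475160) (nat_lit 21) .nil))) .nil)) 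
(.lf (nat_lit 222948) (.g (nat_lit 2292) (.e (nat_lit 98319) (nat_lit 17) (.e (nat_lit 7065) (nat_lit 377) (.e (nat_lit 1348) (nat_lit 102) (.e (nat_lit 286735) (nat_lit 3) (.e (nat_lit 98323) (nat_lit 17) .nil))))) .nil)))) (.nd (nat_lit 5) (.nd (nat_lit 6) 
(.lf (nat_lit 222868) (.g (nat_lit 1152) (.e (nat_lit 106240) (nat_lit 16) (.e (nat_lit 401448) (nat_lit 10) (.e (nat_lit 434294) (nat_lit 49) (.e (nat_lit 745491) (nat_lit 4) .nil)))) .nil)) 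
(.lf (nat_lit 222932) (.g (nat_lit 1870) (.e (nat_lit 98319) (nat_lit 17) (.e (nat_lit 3773) (nat_lit 229) (.e (nat_lit 794633) (nat_lit 11) (.e (nat_lit 336012) (nat_lit 2) (.e (nat_lit 90178) (nat_lit 15) (.e (nat_lit 196352) (nat_lit 3) .nil)))))) (.g (nat_lit 5) .nil .nil)))) (.nd (nat_lit 6) 
(.lf (nat_lit 222900) (.g (nat_lit 1250) (.e (nat_lit 106240) (nat_lit 16) (.e (nat_lit 401459) (nat_lit 13) (.e (nat_lit 483333) (nat_lit 0) (.e (nat_lit 7000) (nat_lit 377) .nil)))) .nil)) 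
(.lf (nat_lit 222964) (.g (nat_lit 2298) (.e (nat_lit 98319) (nat_lit 17) (.e (nat_lit 7591) (nat_lit 407) (.e (nat_lit 73747) (nat_lit 3) (.e (nat_lit 516106) (nat_lit 0) (.e (nat_lit 7936) (nat_lit 406) .nil))))) .nil))))) (.nd (nat_lit 4) (.nd (nat_lit 5) (.nd (nat_lit 6) 
(.lf (nat_lit 222860) (.g (nat_lit 1720) (.e (nat_lit 106240) (nat_lit 15) (.e (nat_lit 385109) (nat_lit 51) (.e (nat_lit 794658) (nat_lit 21) (.e (nat_lit 164399) (nat_lit 256) (.e (nat_lit 57435) (nat_lit 17) .nil))))) .nil)) 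
(.lf (nat_lit 222924) (.g (nat_lit 2190) (.e (nat_lit 98319) (nat_lit 17) (.e (nat_lit 3616) (nat_lit 226) (.e (nat_lit 770073) (nat_lit 9) (.e (nat_lit 73746) (nat_lit 3) (.e (nat_lit 516176) (nat_lit 14) (.e (nat_lit 474880) (nat_lit 3) .nil)))))) (.g (nat_lit 5) .nil .nil)))) (.nd (nat_lit 6) 
(.lf (nat_lit 222892) (.g (nat_lit 1080) (.e (nat_lit 106240) (nat_lit 16) (.e (nat_lit 401458) (nat_lit 13) (.e (nat_lit 483333) (nat_lit 0) (.e (nat_lit 7000) (nat_lit 377) .nil)))) .nil)) 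
(.lf (nat_lit 222956) (.g (nat_lit 1991) (.e (nat_lit 98319) (nat_lit 17) (.e (nat_lit 7065) (nat_lit 377) (.e (nat_lit 1349) (nat_lit 102) (.e (nat_lit 286735) (nat_lit 3) (.e (nat_lit 98350) (nat_lit 24) .nil))))) .nil)))) (.nd (nat_lit 5) (.nd (nat_lit 6) 
(.lf (nat_lit 222876) (.g (nat_lit 917) (.e (nat_lit 106240) (nat_lit 16) (.e (nat_lit 401454) (nat_lit 12) (.e (nat_lit 475140) (nat_lit 0) .nil))) .nil)) 
(.lf (nat_lit 222940) (.g (nat_lit 1881) (.e (nat_lit 98319) (nat_lit 17) (.e (nat_lit 3783) (nat_lit 230) (.e (nat_lit 802822) (nat_lit 11) (.e (nat_lit 336027) (nat_lit 3) (.e (nat_lit 98369) (nat_lit 28) (.e (nat_lit 450304) (nat_lit 3) .nil)))))) (.g (nat_lit 5) .nil .nil)))) (.nd (nat_lit 6) 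
(.lf (nat_lit 222908) (.g (nat_lit 1576) (.e (nat_lit 106240) (nat_lit 16) (.e (nat_lit 401459) (nat_lit 13) (.e (nat_lit 483363) (nat_lit 18) (.e (nat_lit 57678) (nat_lit 153) .nil)))) .nil)) 
(.lf (nat_lit 222972) (.g (nat_lit 2022) (.e (nat_lit 98319) (nat_lit 17) (.e (nat_lit 7591) (nat_lit 407) (.e (nat_lit 73753) (nat_lit 8) (.e (nat_lit 557086) (nat_lit 11) (.e (nat_lit 24628) (nat_lit 9) .nil))))) .nil))))))) (.nd (nat_lit 2) (.nd (nat_lit 3) (.nd (nat_lit 4) (.nd (nat_lit 5) (.nd (nat_lit 6) 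
(.lf (nat_lit 222850) (.g (nat_lit 2030) (.e (nat_lit 106240) (nat_lit 15) (.e (nat_lit 385070) (nat_lit 28) (.e (nat_lit 548889) (nat_lit 9) (.e (nat_lit 65571) (nat_lit 3) (.e (nat_lit 98313) (nat_lit 9) .nil))))) .nil)) 
(.lf (nat_lit 222914) (.g (nat_lit 1458) (.e (nat_lit 106240) (nat_lit 16) (.e (nat_lit 401459) (nat_lit 13) (.e (nat_lit 483364) (nat_lit 18) (.e (nat_lit 57703) (nat_lit 164) (.e (nat_lit 2554) (nat_lit 159) .nil))))) .nil))) (.nd (nat_lit 6) 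
(.lf (nat_lit 222882) (.g (nat_lit 882) (.e (nat_lit 106240) (nat_lit 16) (.e (nat_lit 401454) (nat_lit 12) (.e (nat_lit 475155) (nat_lit 21) .nil))) .nil)) 
(.lf (nat_lit 222946) (.g (nat_lit 2370) (.e (nat_lit 98319) (nat_lit 17) (.e (nat_lit 7065) (nat_lit 377) (.e (nat_lit 1348) (nat_lit 102) (.e (nat_lit 286733) (nat_lit 2) (.e (nat_lit 90173) (nat_lit 14) (.e (nat_lit 180278) (nat_lit 32) (.e (nat_lit 1252) (nat_lit 92) .nil))))))) (.g (nat_lit 4) .nil .nil))))) (.nd (nat_lit 5) (.nd (nat_lit 6) 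
(.lf (nat_lit 222866) (.g (nat_lit 718) (.e (nat_lit 106240) (nat_lit 16) (.e (nat_lit 401437) (nat_lit 9) (.e (nat_lit 426571) (nat_lit 35) .nil))) .nil)) 
(.lf (nat_lit 222930) (.g (nat_lit 1842) (.e (nat_lit 98319) (nat_lit 17) (.e (nat_lit 3764) (nat_lit 229) (.e (nat_lit 794633) (nat_lit 11) (.e (nat_lit 336012) (nat_lit 2) (.e (nat_lit 90178) (nat_lit 15) (.e (nat_lit 196352) (nat_lit 3) .nil)))))) (.g (nat_lit 5) .nil .nil)))) (.nd (nat_lit 6) 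
(.lf (nat_lit 222898) (.g (nat_lit 1444) (.e (nat_lit 106240) (nat_lit 16) (.e (nat_lit 401459) (nat_lit 13) (.e (nat_lit 483332) (nat_lit 0) (.e (nat_lit 6988) (nat_lit 377) (.e (nat_lit 2793) (nat_lit 179) .nil))))) .nil)) 
(.lf (nat_lit 222962) (.g (nat_lit 1664) (.e (nat_lit 98319) (nat_lit 17) (.e (nat_lit 7591) (nat_lit 407) (.e (nat_lit 73746) (nat_lit 3) (.e (nat_lit 516139) (nat_lit 7) (.e (nat_lit 409616) (nat_lit 10) .nil))))) .nil))))) (.nd (nat_lit 4) (.nd (nat_lit 5) (.nd (nat_lit 6) 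
(.lf (nat_lit 222858) (.g (nat_lit 727) (.e (nat_lit 106240) (nat_lit 15) (.e (nat_lit 385107) (nat_lit 51) (.e (nat_lit 794658) (nat_lit 21) .nil))) .nil)) 
(.lf (nat_lit 222922) (.g (nat_lit 563) (.e (nat_lit 98318) (nat_lit 17) (.e (nat_lit 7593) (nat_lit 407) (.e (nat_lit 73744) (nat_lit 2) .nil))) .nil))) (.nd (nat_lit 6) 
(.lf (nat_lit 222890) (.g (nat_lit 1138) (.e (nat_lit 106240) (nat_lit 16) (.e (nat_lit 401458) (nat_lit 13) (.e (nat_lit 483333) (nat_lit 0) (.e (nat_lit 6994) (nat_lit 377) .nil)))) .nil)) 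
(.lf (nat_lit 222954) (.g (nat_lit 3116) (.e (nat_lit 98319) (nat_lit 17) (.e (nat_lit 7065) (nat_lit 377) (.e (nat_lit 1349) (nat_lit 102) (.e (nat_lit 286733) (nat_lit 2) (.e (nat_lit 90174) (nat_lit 14) (.e (nat_lit 180277) (nat_lit 32) (.e (nat_lit 1253) (nat_lit 92) .nil))))))) (.g (nat_lit 5) .nil .nil))))) (.nd (nat_lit 5) (.nd (nat_lit 6) 
(.lf (nat_lit 222874) (.g (nat_lit 1321) (.e (nat_lit 106240) (nat_lit 16) (.e (nat_lit 401454) (nat_lit 12) (.e (nat_lit 475139) (nat_lit 0) (.e (nat_lit 280) (nat_lit 21) .nil)))) .nil)) 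
(.lf (nat_lit 222938) (.g (nat_lit 1713) (.e (nat_lit 98319) (nat_lit 17) (.e (nat_lit 3783) (nat_lit 230) (.e (nat_lit 802822) (nat_lit 11) (.e (nat_lit 336012) (nat_lit 2) (.e (nat_lit 90176) (nat_lit 15) (.e (nat_lit 196352) (nat_lit 3) .nil)))))) (.g (nat_lit 5) .nil .nil)))) (.nd (nat_lit 6) 
(.lf (nat_lit 222906) (.g (nat_lit 1094) (.e (nat_lit 106240) (nat_lit 16) (.e (nat_lit 401459) (nat_lit 13) (.e (nat_lit 491264) (nat_lit 7) (.e (nat_lit 409641) (nat_lit 17) (.e (nat_lit 294930) (nat_lit 3) .nil))))) .nil)) 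
(.lf (nat_lit 222970) (.g (nat_lit 2331) (.e (nat_lit 98319) (nat_lit 17) (.e (nat_lit 7591) (nat_lit 407) (.e (nat_lit 73753) (nat_lit 8) (.e (nat_lit 557066) (nat_lit 9) (.e (nat_lit 314) (nat_lit 23) (.e (nat_lit 352313) (nat_lit 23) .nil)))))) (.g (nat_lit 5) .nil .nil))))))) (.nd (nat_lit 3) (.nd (nat_lit 4) (.nd (nat_lit 5) (.nd (nat_lit 6) 
(.lf (nat_lit 222854) (.g (nat_lit 1601) (.e (nat_lit 106240) (nat_lit 15) (.e (nat_lit 385105) (nat_lit 50) (.e (nat_lit 786473) (nat_lit 27) (.e (nat_lit 336361) (nat_lit 26) .nil)))) .nil)) 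
(.lf (nat_lit 222918) (.g (nat_lit 2539) (.e (nat_lit 98318) (nat_lit 17) (.e (nat_lit 6989) (nat_lit 377) (.e (nat_lit 2777) (nat_lit 178) (.e (nat_lit 286735) (nat_lit 3) (.e (nat_lit 98389) (nat_lit 33) .nil))))) .nil))) (.nd (nat_lit 6) 
(.lf (nat_lit 222886) (.g (nat_lit 1088) (.e (nat_lit 106240) (nat_lit 16) (.e (nat_lit 401454) (nat_lit 12) (.e (nat_lit 475163) (nat_lit 21) .nil))) .nil)) 
(.lf (nat_lit 222950) (.g (nat_lit 2067) (.e (nat_lit 98319) (nat_lit 17) (.e (nat_lit 7065) (nat_lit 377) (.e (nat_lit 1349) (nat_lit 102) (.e (nat_lit 286733) (nat_lit 2) (.e (nat_lit 90173) (nat_lit 14) .nil))))) .nil)))) (.nd (nat_lit 5) (.nd (nat_lit 6) 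
(.lf (nat_lit 222870) (.g (nat_lit 1327) (.e (nat_lit 106240) (nat_lit 16) (.e (nat_lit 401454) (nat_lit 12) (.e (nat_lit 475136) (nat_lit 0) (.e (nat_lit 7936) (nat_lit 23) .nil)))) .nil)) 
(.lf (nat_lit 222934) (.g (nat_lit 1834) (.e (nat_lit 98319) (nat_lit 17) (.e (nat_lit 3776) (nat_lit 229) (.e (nat_lit 794633) (nat_lit 11) (.e (nat_lit 336012) (nat_lit 2) (.e (nat_lit 90178) (nat_lit 15) (.e (nat_lit 196352) (nat_lit 3) .nil)))))) (.g (nat_lit 5) .nil .nil)))) (.nd (nat_lit 6) 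
(.lf (nat_lit 222902) (.g (nat_lit 1240) (.e (nat_lit 106240) (nat_lit 16) (.e (nat_lit 401459) (nat_lit 13) (.e (nat_lit 483333) (nat_lit 0) (.e (nat_lit 7023) (nat_lit 377) .nil)))) .nil)) 
(.lf (nat_lit 222966) (.g (nat_lit 3656) (.e (nat_lit 98319) (nat_lit 17) (.e (nat_lit 7591) (nat_lit 407) (.e (nat_lit 73747) (nat_lit 3) (.e (nat_lit 516139) (nat_lit 7) (.e (nat_lit 409616) (nat_lit 10) (.e (nat_lit 5355) (nat_lit 298) (.e (nat_lit 1252) (nat_lit 92) .nil))))))) (.g (nat_lit 6) .nil .nil)))))) (.nd (nat_lit 4) (.nd (nat_lit 5) (.nd (nat_lit 6) 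
(.lf (nat_lit 222862) (.g (nat_lit 1439) (.e (nat_lit 106240) (nat_lit 15) (.e (nat_lit 385109) (nat_lit 51) (.e (nat_lit 794659) (nat_lit 21) (.e (nat_lit 164399) (nat_lit 256) (.e (nat_lit 57435) (nat_lit 17) .nil))))) .nil)) 
(.lf (nat_lit 222926) (.g (nat_lit 1615) (.e (nat_lit 98319) (nat_lit 17) (.e (nat_lit 3703) (nat_lit 227) (.e (nat_lit 778465) (nat_lit 11) (.e (nat_lit 24604) (nat_lit 2) (.e (nat_lit 90185) (nat_lit 17) .nil))))) .nil))) (.nd (nat_lit 6) 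
(.lf (nat_lit 222894) (.g (nat_lit 2009) (.e (nat_lit 106240) (nat_lit 16) (.e (nat_lit 401458) (nat_lit 13) (.e (nat_lit 483363) (nat_lit 18) (.e (nat_lit 57679) (nat_lit 153) .nil)))) .nil)) 
(.lf (nat_lit 222958) (.g (nat_lit 3162) (.e (nat_lit 98319) (nat_lit 17) (.e (nat_lit 7065) (nat_lit 377) (.e (nat_lit 1349) (nat_lit 102) (.e (nat_lit 286735) (nat_lit 3) (.e (nat_lit 98367) (nat_lit 27) (.e (nat_lit 434180) (nat_lit 0) (.e (nat_lit 1253) (nat_lit 92) .nil))))))) (.g (nat_lit 5) .nil .nil))))) (.nd (nat_lit 5) (.nd (nat_lit 6) 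
(.lf (nat_lit 222878) (.g (nat_lit 966) (.e (nat_lit 106240) (nat_lit 16) (.e (nat_lit 401454) (nat_lit 12) (.e (nat_lit 483072) (nat_lit 2) (.e (nat_lit 24627) (nat_lit 9) (.e (nat_lit 336018) (nat_lit 3) .nil))))) .nil)) 
(.lf (nat_lit 222942) (.g (nat_lit 3177) (.e (nat_lit 98319) (nat_lit 17) (.e (nat_lit 3783) (nat_lit 230) (.e (nat_lit 810752) (nat_lit 11) (.e (nat_lit 336013) (nat_lit 2) (.e (nat_lit 90170) (nat_lit 13) (.e (nat_lit 172092) (nat_lit 9) (.e (nat_lit 433920) (nat_lit 18) .nil))))))) (.g (nat_lit 5) .nil .nil)))) (.nd (nat_lit 6) 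
(.lf (nat_lit 222910) (.g (nat_lit 2151) (.e (nat_lit 106240) (nat_lit 16) (.e (nat_lit 401459) (nat_lit 13) (.e (nat_lit 483363) (nat_lit 18) (.e (nat_lit 57704) (nat_lit 164) (.e (nat_lit 2551) (nat_lit 159) .nil))))) .nil)) 
(.lf (nat_lit 222974) (.g (nat_lit 331) (.e (nat_lit 98319) (nat_lit 17) (.e (nat_lit 7591) (nat_lit 407) (.e (nat_lit 73754) (nat_lit 8) .nil))) .nil)))))))) (.nd (nat_lit 1) (.nd (nat_lit 2) (.nd (nat_lit 3) (.nd (nat_lit 4) (.nd (nat_lit 5) (.nd (nat_lit 6) 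
(.lf (nat_lit 222849) (.g (nat_lit 995) (.e (nat_lit 106240) (nat_lit 14) (.e (nat_lit 376869) (nat_lit 23) (.e (nat_lit 98384) (nat_lit 32) (.e (nat_lit 475214) (nat_lit 42) (.e (nat_lit 728832) (nat_lit 23) .nil))))) .nil)) 
(.lf (nat_lit 222913) (.g (nat_lit 1341) (.e (nat_lit 106240) (nat_lit 16) (.e (nat_lit 401459) (nat_lit 13) (.e (nat_lit 483364) (nat_lit 18) (.e (nat_lit 57675) (nat_lit 153) .nil)))) .nil))) (.nd (nat_lit 6) 
(.lf (nat_lit 222881) (.g (nat_lit 1406) (.e (nat_lit 106240) (nat_lit 16) (.e (nat_lit 401454) (nat_lit 12) (.e (nat_lit 475153) (nat_lit 18) .nil))) .nil)) 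
(.lf (nat_lit 222945) (.g (nat_lit 2842) (.e (nat_lit 98319) (nat_lit 17) (.e (nat_lit 7065) (nat_lit 377) (.e (nat_lit 1348) (nat_lit 102) (.e (nat_lit 286733) (nat_lit 2) (.e (nat_lit 90173) (nat_lit 14) (.e (nat_lit 180277) (nat_lit 32) (.e (nat_lit 1252) (nat_lit 92) .nil))))))) (.g (nat_lit 5) .nil .nil))))) (.nd (nat_lit 5) (.nd (nat_lit 6) 
(.lf (nat_lit 222865) (.g (nat_lit 1012) (.e (nat_lit 106240) (nat_lit 16) (.e (nat_lit 401437) (nat_lit 9) (.e (nat_lit 426509) (nat_lit 27) (.e (nat_lit 336363) (nat_lit 26) .nil)))) .nil)) 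
(.lf (nat_lit 222929) (.g (nat_lit 1654) (.e (nat_lit 98319) (nat_lit 17) (.e (nat_lit 3764) (nat_lit 229) (.e (nat_lit 794633) (nat_lit 11) (.e (nat_lit 336012) (nat_lit 2) (.e (nat_lit 90176) (nat_lit 15) (.e (nat_lit 196352) (nat_lit 3) .nil)))))) (.g (nat_lit 5) .nil .nil)))) (.nd (nat_lit 6) 
(.lf (nat_lit 222897) (.g (nat_lit 817) (.e (nat_lit 106240) (nat_lit 16) (.e (nat_lit 401459) (nat_lit 13) (.e (nat_lit 483332) (nat_lit 0) .nil))) .nil)) 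
(.lf (nat_lit 222961) (.g (nat_lit 357) (.e (nat_lit 98319) (nat_lit 17) (.e (nat_lit 7591) (nat_lit 407) (.e (nat_lit 73730) (nat_lit 0) .nil))) .nil))))) (.nd (nat_lit 4) (.nd (nat_lit 5) (.nd (nat_lit 6) 
(.lf (nat_lit 222857) (.g (nat_lit 560) (.e (nat_lit 106240) (nat_lit 15) (.e (nat_lit 385106) (nat_lit 50) (.e (nat_lit 786490) (nat_lit 35) .nil))) .nil)) 
(.lf (nat_lit 222921) (.g (nat_lit 1091) (.e (nat_lit 98318) (nat_lit 17) (.e (nat_lit 7065) (nat_lit 377) (.e (nat_lit 1349) (nat_lit 102) (.e (nat_lit 286733) (nat_lit 2) .nil)))) .nil))) (.nd (nat_lit 6) 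
(.lf (nat_lit 222889) (.g (nat_lit 462) (.e (nat_lit 106240) (nat_lit 16) (.e (nat_lit 401458) (nat_lit 13) (.e (nat_lit 483333) (nat_lit 0) .nil))) .nil)) 
(.lf (nat_lit 222953) (.g (nat_lit 2774) (.e (nat_lit 98319) (nat_lit 17) (.e (nat_lit 7065) (nat_lit 377) (.e (nat_lit 1349) (nat_lit 102) (.e (nat_lit 286733) (nat_lit 2) (.e (nat_lit 90173) (nat_lit 14) (.e (nat_lit 180278) (nat_lit 32) (.e (nat_lit 1252) (nat_lit 92) .nil))))))) (.g (nat_lit 5) .nil .nil))))) (.nd (nat_lit 5) (.nd (nat_lit 6) 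
(.lf (nat_lit 222873) (.g (nat_lit 1223) (.e (nat_lit 106240) (nat_lit 16) (.e (nat_lit 401454) (nat_lit 12) (.e (nat_lit 475139) (nat_lit 0) .nil))) .nil)) 
(.lf (nat_lit 222937) (.g (nat_lit 1867) (.e (nat_lit 98319) (nat_lit 17) (.e (nat_lit 3780) (nat_lit 229) (.e (nat_lit 794633) (nat_lit 11) (.e (nat_lit 336012) (nat_lit 2) (.e (nat_lit 90178) (nat_lit 15) (.e (nat_lit 196352) (nat_lit 3) .nil)))))) (.g (nat_lit 5) .nil .nil)))) (.nd (nat_lit 6) 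
(.lf (nat_lit 222905) (.g (nat_lit 1089) (.e (nat_lit 106240) (nat_lit 16) (.e (nat_lit 401459) (nat_lit 13) (.e (nat_lit 491264) (nat_lit 7) (.e (nat_lit 409640) (nat_lit 17) (.e (nat_lit 294930) (nat_lit 3) .nil))))) .nil)) 
(.lf (nat_lit 222969) (.g (nat_lit 2981) (.e (nat_lit 98319) (nat_lit 17) (.e (nat_lit 7591) (nat_lit 407) (.e (nat_lit 73748) (nat_lit 3) (.e (nat_lit 516139) (nat_lit 7) (.e (nat_lit 409617) (nat_lit 10) (.e (nat_lit 5355) (nat_lit 298) (.e (nat_lit 1253) (nat_lit 92) .nil))))))) (.g (nat_lit 6) .nil .nil))))))) (.nd (nat_lit 3) (.nd (nat_lit 4) (.nd (nat_lit 5) (.nd (nat_lit 6) 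
(.lf (nat_lit 222853) (.g (nat_lit 1025) (.e (nat_lit 106240) (nat_lit 15) (.e (nat_lit 385105) (nat_lit 50) (.e (nat_lit 786470) (nat_lit 27) (.e (nat_lit 336363) (nat_lit 26) .nil)))) .nil)) 
(.lf (nat_lit 222917) (.g (nat_lit 2527) (.e (nat_lit 98318) (nat_lit 17) (.e (nat_lit 6989) (nat_lit 377) (.e (nat_lit 2777) (nat_lit 178) (.e (nat_lit 286734) (nat_lit 3) .nil)))) .nil))) (.nd (nat_lit 6) 
(.lf (nat_lit 222885) (.g (nat_lit 1325) (.e (nat_lit 106240) (nat_lit 16) (.e (nat_lit 401454) (nat_lit 12) (.e (nat_lit 475162) (nat_lit 21) .nil))) .nil)) 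
(.lf (nat_lit 222949) (.g (nat_lit 3712) (.e (nat_lit 98319) (nat_lit 17) (.e (nat_lit 7065) (nat_lit 377) (.e (nat_lit 1349) (nat_lit 102) (.e (nat_lit 286733) (nat_lit 2) (.e (nat_lit 90172) (nat_lit 14) (.e (nat_lit 180278) (nat_lit 32) (.e (nat_lit 1252) (nat_lit 92) .nil))))))) (.g (nat_lit 6) .nil .nil))))) (.nd (nat_lit 5) (.nd (nat_lit 6) 
(.lf (nat_lit 222869) (.g (nat_lit 1338) (.e (nat_lit 106240) (nat_lit 16) (.e (nat_lit 401454) (nat_lit 12) (.e (nat_lit 475136) (nat_lit 0) (.e (nat_lit 316) (nat_lit 23) .nil)))) .nil)) 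
(.lf (nat_lit 222933) (.g (nat_lit 1646) (.e (nat_lit 98319) (nat_lit 17) (.e (nat_lit 3776) (nat_lit 229) (.e (nat_lit 794633) (nat_lit 11) (.e (nat_lit 336012) (nat_lit 2) (.e (nat_lit 90176) (nat_lit 15) (.e (nat_lit 196352) (nat_lit 3) .nil)))))) (.g (nat_lit 5) .nil .nil)))) (.nd (nat_lit 6) 
(.lf (nat_lit 222901) (.g (nat_lit 1240) (.e (nat_lit 106240) (nat_lit 16) (.e (nat_lit 401459) (nat_lit 13) (.e (nat_lit 483333) (nat_lit 0) (.e (nat_lit 7022) (nat_lit 377) .nil)))) .nil)) 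
(.lf (nat_lit 222965) (.g (nat_lit 2161) (.e (nat_lit 98319) (nat_lit 17) (.e (nat_lit 7591) (nat_lit 407) (.e (nat_lit 73747) (nat_lit 3) (.e (nat_lit 516138) (nat_lit 7) (.e (nat_lit 409641) (nat_lit 17) .nil))))) .nil))))) (.nd (nat_lit 4) (.nd (nat_lit 5) (.nd (nat_lit 6) 
(.lf (nat_lit 222861) (.g (nat_lit 404) (.e (nat_lit 106240) (nat_lit 15) (.e (nat_lit 385109) (nat_lit 51) (.e (nat_lit 794659) (nat_lit 21) .nil))) .nil)) 
(.lf (nat_lit 222925) (.g (nat_lit 2240) (.e (nat_lit 98319) (nat_lit 17) (.e (nat_lit 3616) (nat_lit 226) (.e (nat_lit 770073) (nat_lit 9) (.e (nat_lit 73747) (nat_lit 3) (.e (nat_lit 516176) (nat_lit 14) (.e (nat_lit 474880) (nat_lit 3) .nil)))))) (.g (nat_lit 5) .nil .nil)))) (.nd (nat_lit 6) 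
(.lf (nat_lit 222893) (.g (nat_lit 628) (.e (nat_lit 106240) (nat_lit 16) (.e (nat_lit 401458) (nat_lit 13) (.e (nat_lit 483363) (nat_lit 18) .nil))) .nil)) 
(.lf (nat_lit 222957) (.g (nat_lit 2013) (.e (nat_lit 98319) (nat_lit 17) (.e (nat_lit 7065) (nat_lit 377) (.e (nat_lit 1349) (nat_lit 102) (.e (nat_lit 286735) (nat_lit 3) (.e (nat_lit 98353) (nat_lit 25) .nil))))) .nil)))) (.nd (nat_lit 5) (.nd (nat_lit 6) 
(.lf (nat_lit 222877) (.g (nat_lit 350) (.e (nat_lit 106240) (nat_lit 16) (.e (nat_lit 401454) (nat_lit 12) (.e (nat_lit 483072) (nat_lit 0) .nil))) .nil)) 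
(.lf (nat_lit 222941) (.g (nat_lit 2058) (.e (nat_lit 98319) (nat_lit 17) (.e (nat_lit 3783) (nat_lit 230) (.e (nat_lit 802822) (nat_lit 11) (.e (nat_lit 336027) (nat_lit 3) (.e (nat_lit 98370) (nat_lit 28) (.e (nat_lit 450304) (nat_lit 3) .nil)))))) (.g (nat_lit 5) .nil .nil)))) (.nd (nat_lit 6) 
(.lf (nat_lit 222909) (.g (nat_lit 1598) (.e (nat_lit 106240) (nat_lit 16) (.e (nat_lit 401459) (nat_lit 13) (.e (nat_lit 483363) (nat_lit 18) (.e (nat_lit 57679) (nat_lit 153) .nil)))) .nil)) 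
(.lf (nat_lit 222973) (.g (nat_lit 1684) (.e (nat_lit 98319) (nat_lit 17) (.e (nat_lit 7591) (nat_lit 407) (.e (nat_lit 73753) (nat_lit 8) (.e (nat_lit 557087) (nat_lit 11) (.e (nat_lit 24634) (nat_lit 9) .nil))))) .nil))))))) (.nd (nat_lit 2) (.nd (nat_lit 3) (.nd (nat_lit 4) (.nd (nat_lit 5) (.nd (nat_lit 6) 
(.lf (nat_lit 222851) (.g (nat_lit 1601) (.e (nat_lit 106240) (nat_lit 15) (.e (nat_lit 385094) (nat_lit 49) (.e (nat_lit 778320) (nat_lit 4) (.e (nat_lit 65648) (nat_lit 26) .nil)))) .nil)) 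
(.lf (nat_lit 222915) (.g (nat_lit 1458) (.e (nat_lit 106240) (nat_lit 16) (.e (nat_lit 401459) (nat_lit 13) (.e (nat_lit 483364) (nat_lit 18) (.e (nat_lit 57703) (nat_lit 164) (.e (nat_lit 2555) (nat_lit 159) .nil))))) .nil))) (.nd (nat_lit 6) 
(.lf (nat_lit 222883) (.g (nat_lit 1096) (.e (nat_lit 106240) (nat_lit 16) (.e (nat_lit 401454) (nat_lit 12) (.e (nat_lit 475157) (nat_lit 21) (.e (nat_lit 4618) (nat_lit 269) .nil)))) .nil)) 
(.lf (nat_lit 222947) (.g (nat_lit 3656) (.e (nat_lit 98319) (nat_lit 17) (.e (nat_lit 7065) (nat_lit 377) (.e (nat_lit 1348) (nat_lit 102) (.e (nat_lit 286733) (nat_lit 2) (.e (nat_lit 90174) (nat_lit 14) (.e (nat_lit 180277) (nat_lit 32) (.e (nat_lit 1252) (nat_lit 92) .nil))))))) (.g (nat_lit 6) .nil .nil))))) (.nd (nat_lit 5) (.nd (nat_lit 6) 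
(.lf (nat_lit 222867) (.g (nat_lit 583) (.e (nat_lit 106240) (nat_lit 16) (.e (nat_lit 401438) (nat_lit 9) (.e (nat_lit 426509) (nat_lit 27) (.e (nat_lit 336363) (nat_lit 26) .nil)))) .nil)) 
(.lf (nat_lit 222931) (.g (nat_lit 1685) (.e (nat_lit 98319) (nat_lit 17) (.e (nat_lit 3773) (nat_lit 229) (.e (nat_lit 794633) (nat_lit 11) (.e (nat_lit 336012) (nat_lit 2) (.e (nat_lit 90176) (nat_lit 15) (.e (nat_lit 196352) (nat_lit 3) .nil)))))) (.g (nat_lit 5) .nil .nil)))) (.nd (nat_lit 6) 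
(.lf (nat_lit 222899) (.g (nat_lit 517) (.e (nat_lit 106240) (nat_lit 16) (.e (nat_lit 401459) (nat_lit 13) (.e (nat_lit 483333) (nat_lit 0) .nil))) .nil)) 
(.lf (nat_lit 222963) (.g (nat_lit 409) (.e (nat_lit 98319) (nat_lit 17) (.e (nat_lit 7591) (nat_lit 407) (.e (nat_lit 73747) (nat_lit 3) .nil))) .nil))))) (.nd (nat_lit 4) (.nd (nat_lit 5) (.nd (nat_lit 6) 
(.lf (nat_lit 222859) (.g (nat_lit 861) (.e (nat_lit 106240) (nat_lit 15) (.e (nat_lit 385109) (nat_lit 51) (.e (nat_lit 794658) (nat_lit 21) .nil))) .nil)) 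
(.lf (nat_lit 222923) (.g (nat_lit 2283) (.e (nat_lit 98319) (nat_lit 17) (.e (nat_lit 3616) (nat_lit 226) (.e (nat_lit 770073) (nat_lit 9) (.e (nat_lit 73746) (nat_lit 3) (.e (nat_lit 516174) (nat_lit 14) (.e (nat_lit 474880) (nat_lit 3) .nil)))))) (.g (nat_lit 5) .nil .nil)))) (.nd (nat_lit 6) 
(.lf (nat_lit 222891) (.g (nat_lit 1111) (.e (nat_lit 106240) (nat_lit 16) (.e (nat_lit 401458) (nat_lit 13) (.e (nat_lit 483333) (nat_lit 0) (.e (nat_lit 6995) (nat_lit 377) .nil)))) .nil)) 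
(.lf (nat_lit 222955) (.g (nat_lit 1156) (.e (nat_lit 98319) (nat_lit 17) (.e (nat_lit 7065) (nat_lit 377) (.e (nat_lit 1349) (nat_lit 102) (.e (nat_lit 286734) (nat_lit 3) .nil)))) .nil)))) (.nd (nat_lit 5) (.nd (nat_lit 6) 
(.lf (nat_lit 222875) (.g (nat_lit 1499) (.e (nat_lit 106240) (nat_lit 16) (.e (nat_lit 401454) (nat_lit 12) (.e (nat_lit 475139) (nat_lit 0) (.e (nat_lit 280) (nat_lit 21) (.e (nat_lit 336151) (nat_lit 9) .nil))))) .nil)) 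
(.lf (nat_lit 222939) (.g (nat_lit 1902) (.e (nat_lit 98319) (nat_lit 17) (.e (nat_lit 3783) (nat_lit 230) (.e (nat_lit 802822) (nat_lit 11) (.e (nat_lit 336012) (nat_lit 2) (.e (nat_lit 90178) (nat_lit 15) (.e (nat_lit 196352) (nat_lit 3) .nil)))))) (.g (nat_lit 5) .nil .nil)))) (.nd (nat_lit 6) 
(.lf (nat_lit 222907) (.g (nat_lit 667) (.e (nat_lit 106240) (nat_lit 16) (.e (nat_lit 401459) (nat_lit 13) (.e (nat_lit 483363) (nat_lit 18) .nil))) .nil)) 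
(.lf (nat_lit 222971) (.g (nat_lit 1164) (.e (nat_lit 98319) (nat_lit 17) (.e (nat_lit 7591) (nat_lit 407) (.e (nat_lit 73753) (nat_lit 8) (.e (nat_lit 557073) (nat_lit 9) .nil)))) .nil)))))) (.nd (nat_lit 3) (.nd (nat_lit 4) (.nd (nat_lit 5) (.nd (nat_lit 6) 
(.lf (nat_lit 222855) (.g (nat_lit 1601) (.e (nat_lit 106240) (nat_lit 15) (.e (nat_lit 385105) (nat_lit 50) (.e (nat_lit 786473) (nat_lit 27) (.e (nat_lit 336460) (nat_lit 35) .nil)))) .nil)) 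
(.lf (nat_lit 222919) (.g (nat_lit 1488) (.e (nat_lit 98318) (nat_lit 17) (.e (nat_lit 6989) (nat_lit 377) (.e (nat_lit 2810) (nat_lit 180) (.e (nat_lit 303117) (nat_lit 2) (.e (nat_lit 196624) (nat_lit 9) .nil))))) .nil))) (.nd (nat_lit 6) 
(.lf (nat_lit 222887) (.g (nat_lit 722) (.e (nat_lit 106240) (nat_lit 16) (.e (nat_lit 401456) (nat_lit 13) (.e (nat_lit 483333) (nat_lit 0) .nil))) .nil)) 
(.lf (nat_lit 222951) (.g (nat_lit 3246) (.e (nat_lit 98319) (nat_lit 17) (.e (nat_lit 7065) (nat_lit 377) (.e (nat_lit 1349) (nat_lit 102) (.e (nat_lit 286733) (nat_lit 2) (.e (nat_lit 90173) (nat_lit 14) (.e (nat_lit 180277) (nat_lit 32) (.e (nat_lit 1252) (nat_lit 92) .nil))))))) (.g (nat_lit 6) .nil .nil))))) (.nd (nat_lit 5) (.nd (nat_lit 6) 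
(.lf (nat_lit 222871) (.g (nat_lit 1241) (.e (nat_lit 106240) (nat_lit 16) (.e (nat_lit 401454) (nat_lit 12) (.e (nat_lit 475137) (nat_lit 0) .nil))) .nil)) 
(.lf (nat_lit 222935) (.g (nat_lit 1599) (.e (nat_lit 98319) (nat_lit 17) (.e (nat_lit 3779) (nat_lit 229) (.e (nat_lit 794633) (nat_lit 11) (.e (nat_lit 336012) (nat_lit 2) (.e (nat_lit 90176) (nat_lit 15) (.e (nat_lit 196352) (nat_lit 3) .nil)))))) (.g (nat_lit 5) .nil .nil)))) (.nd (nat_lit 6) 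
(.lf (nat_lit 222903) (.g (nat_lit 1240) (.e (nat_lit 106240) (nat_lit 16) (.e (nat_lit 401459) (nat_lit 13) (.e (nat_lit 483333) (nat_lit 0) (.e (nat_lit 7024) (nat_lit 377) .nil)))) .nil)) 
(.lf (nat_lit 222967) (.g (nat_lit 3673) (.e (nat_lit 98319) (nat_lit 17) (.e (nat_lit 7591) (nat_lit 407) (.e (nat_lit 73747) (nat_lit 3) (.e (nat_lit 516139) (nat_lit 7) (.e (nat_lit 409617) (nat_lit 10) (.e (nat_lit 5355) (nat_lit 298) (.e (nat_lit 1253) (nat_lit 92) .nil))))))) (.g (nat_lit 6) .nil .nil)))))) (.nd (nat_lit 4) (.nd (nat_lit 5) (.nd (nat_lit 6) 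
(.lf (nat_lit 222863) (.g (nat_lit 232) (.e (nat_lit 106240) (nat_lit 15) (.e (nat_lit 385114) (nat_lit 53) (.e (nat_lit 811028) (nat_lit 9) .nil))) .nil)) 
(.lf (nat_lit 222927) (.g (nat_lit 1671) (.e (nat_lit 98319) (nat_lit 17) (.e (nat_lit 3763) (nat_lit 229) (.e (nat_lit 794633) (nat_lit 11) (.e (nat_lit 336012) (nat_lit 2) (.e (nat_lit 90176) (nat_lit 15) (.e (nat_lit 196352) (nat_lit 3) .nil)))))) (.g (nat_lit 5) .nil .nil)))) (.nd (nat_lit 6) 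
(.lf (nat_lit 222895) (.g (nat_lit 623) (.e (nat_lit 106240) (nat_lit 16) (.e (nat_lit 401458) (nat_lit 13) (.e (nat_lit 483365) (nat_lit 18) .nil))) .nil)) 
(.lf (nat_lit 222959) (.g (nat_lit 3919) (.e (nat_lit 98319) (nat_lit 17) (.e (nat_lit 7587) (nat_lit 406) (.e (nat_lit 65571) (nat_lit 3) (.e (nat_lit 98350) (nat_lit 24) (.e (nat_lit 409617) (nat_lit 10) (.e (nat_lit 5355) (nat_lit 298) (.e (nat_lit 1253) (nat_lit 92) .nil))))))) (.g (nat_lit 6) .nil .nil))))) (.nd (nat_lit 5) (.nd (nat_lit 6) 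
(.lf (nat_lit 222879) (.g (nat_lit 880) (.e (nat_lit 106240) (nat_lit 16) (.e (nat_lit 401454) (nat_lit 12) (.e (nat_lit 483072) (nat_lit 2) (.e (nat_lit 24630) (nat_lit 9) (.e (nat_lit 336018) (nat_lit 3) .nil))))) .nil)) 
(.lf (nat_lit 222943) (.g (nat_lit 3598) (.e (nat_lit 98319) (nat_lit 17) (.e (nat_lit 7065) (nat_lit 377) (.e (nat_lit 1348) (nat_lit 102) (.e (nat_lit 286733) (nat_lit 2) (.e (nat_lit 90172) (nat_lit 14) (.e (nat_lit 180278) (nat_lit 32) (.e (nat_lit 1252) (nat_lit 92) .nil))))))) (.g (nat_lit 6) .nil .nil)))) (.nd (nat_lit 6) 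
(.lf (nat_lit 222911) (.g (nat_lit 2151) (.e (nat_lit 106240) (nat_lit 16) (.e (nat_lit 401459) (nat_lit 13) (.e (nat_lit 483363) (nat_lit 18) (.e (nat_lit 57704) (nat_lit 164) (.e (nat_lit 2554) (nat_lit 159) .nil))))) .nil)) 
(.lf (nat_lit 222975) (.g (nat_lit 1352) (.e (nat_lit 98319) (nat_lit 17) (.e (nat_lit 7591) (nat_lit 407) (.e (nat_lit 73754) (nat_lit 8) (.e (nat_lit 557064) (nat_lit 9) (.e (nat_lit 314) (nat_lit 23) .nil))))) .nil)))))))))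

noncomputable def tv2925 : DT := (.nd (nat_lit 0) (.nd (nat_lit 1) (.nd (nat_lit 2) (.nd (nat_lit 3) (.nd (nat_lit 4) (.nd (nat_lit 5) (.nd (nat_lit 6) 
(.lf (nat_lit 222976) (.g (nat_lit 1362) (.e (nat_lit 98319) (nat_lit 17) (.e (nat_lit 7591) (nat_lit 407) (.e (nat_lit 73754) (nat_lit 8) (.e (nat_lit 557064) (nat_lit 9) (.e (nat_lit 334) (nat_lit 26) .nil))))) .nil)) 
(.lf (nat_lit 223040) (.g (nat_lit 1834) (.e (nat_lit 98319) (nat_lit 17) (.e (nat_lit 7593) (nat_lit 407) (.e (nat_lit 73754) (nat_lit 8) (.e (nat_lit 557074) (nat_lit 9) (.e (nat_lit 284) (nat_lit 21) .nil))))) .nil))) (.nd (nat_lit 6) 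
(.lf (nat_lit 223008) (.g (nat_lit 2407) (.e (nat_lit 98319) (nat_lit 17) (.e (nat_lit 7593) (nat_lit 407) (.e (nat_lit 73753) (nat_lit 8) (.e (nat_lit 557065) (nat_lit 9) (.e (nat_lit 315) (nat_lit 23) .nil))))) .nil)) 
(.lf (nat_lit 223072) (.g (nat_lit 3401) (.e (nat_lit 98320) (nat_lit 17) (.e (nat_lit 7065) (nat_lit 377) (.e (nat_lit 1349) (nat_lit 102) (.e (nat_lit 286733) (nat_lit 2) (.e (nat_lit 90172) (nat_lit 14) (.e (nat_lit 180278) (nat_lit 32) (.e (nat_lit 1252) (nat_lit 92) .nil))))))) (.g (nat_lit 5) .nil .nil))))) (.nd (nat_lit 5) (.nd (nat_lit 6) 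
(.lf (nat_lit 222992) (.g (nat_lit 1395) (.e (nat_lit 98319) (nat_lit 17) (.e (nat_lit 7591) (nat_lit 407) (.e (nat_lit 73755) (nat_lit 8) (.e (nat_lit 557086) (nat_lit 11) (.e (nat_lit 24636) (nat_lit 9) .nil))))) .nil)) 
(.lf (nat_lit 223056) (.g (nat_lit 1804) (.e (nat_lit 98319) (nat_lit 17) (.e (nat_lit 7593) (nat_lit 407) (.e (nat_lit 73755) (nat_lit 8) (.e (nat_lit 557087) (nat_lit 11) (.e (nat_lit 24634) (nat_lit 9) (.e (nat_lit 336023) (nat_lit 3) .nil)))))) (.g (nat_lit 4) .nil .nil)))) (.nd (nat_lit 6) 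
(.lf (nat_lit 223024) (.g (nat_lit 1960) (.e (nat_lit 98319) (nat_lit 17) (.e (nat_lit 7593) (nat_lit 407) (.e (nat_lit 73753) (nat_lit 8) (.e (nat_lit 557087) (nat_lit 11) (.e (nat_lit 24634) (nat_lit 9) (.e (nat_lit 336023) (nat_lit 3) .nil)))))) (.g (nat_lit 4) .nil .nil))) 
(.lf (nat_lit 223088) (.g (nat_lit 3162) (.e (nat_lit 98320) (nat_lit 17) (.e (nat_lit 7587) (nat_lit 406) (.e (nat_lit 65571) (nat_lit 3) (.e (nat_lit 98350) (nat_lit 24) (.e (nat_lit 409617) (nat_lit 10) (.e (nat_lit 5355) (nat_lit 298) (.e (nat_lit 1252) (nat_lit 92) .nil))))))) (.g (nat_lit 5) .nil .nil)))))) (.nd (nat_lit 4) (.nd (nat_lit 5) (.nd (nat_lit 6) 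
(.lf (nat_lit 222984) (.g (nat_lit 2779) (.e (nat_lit 98319) (nat_lit 17) (.e (nat_lit 7591) (nat_lit 407) (.e (nat_lit 73755) (nat_lit 8) (.e (nat_lit 557065) (nat_lit 9) (.e (nat_lit 334) (nat_lit 26) (.e (nat_lit 376869) (nat_lit 23) .nil)))))) (.g (nat_lit 6) .nil .nil))) 
(.lf (nat_lit 223048) (.g (nat_lit 441) (.e (nat_lit 98319) (nat_lit 17) (.e (nat_lit 7593) (nat_lit 407) (.e (nat_lit 73755) (nat_lit 8) .nil))) .nil))) (.nd (nat_lit 6) 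
(.lf (nat_lit 223016) (.g (nat_lit 2126) (.e (nat_lit 98319) (nat_lit 17) (.e (nat_lit 7593) (nat_lit 407) (.e (nat_lit 73753) (nat_lit 8) (.e (nat_lit 557067) (nat_lit 9) (.e (nat_lit 7936) (nat_lit 26) .nil))))) .nil)) 
(.lf (nat_lit 223080) (.g (nat_lit 437) (.e (nat_lit 98320) (nat_lit 17) (.e (nat_lit 7110) (nat_lit 380) (.e (nat_lit 164371) (nat_lit 249) .nil))) .nil)))) (.nd (nat_lit 5) (.nd (nat_lit 6) 
(.lf (nat_lit 223000) (.g (nat_lit 1203) (.e (nat_lit 98319) (nat_lit 17) (.e (nat_lit 7593) (nat_lit 407) (.e (nat_lit 73746) (nat_lit 3) (.e (nat_lit 516105) (nat_lit 0) (.e (nat_lit 7936) (nat_lit 409) .nil))))) .nil)) 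
(.lf (nat_lit 223064) (.g (nat_lit 2198) (.e (nat_lit 98320) (nat_lit 17) (.e (nat_lit 7065) (nat_lit 377) (.e (nat_lit 1348) (nat_lit 102) (.e (nat_lit 286733) (nat_lit 2) (.e (nat_lit 90173) (nat_lit 14) .nil))))) .nil))) (.nd (nat_lit 6) 
(.lf (nat_lit 223032) (.g (nat_lit 1247) (.e (nat_lit 98319) (nat_lit 17) (.e (nat_lit 7593) (nat_lit 407) (.e (nat_lit 73754) (nat_lit 8) (.e (nat_lit 557068) (nat_lit 9) .nil)))) .nil)) 
(.lf (nat_lit 223096) (.g (nat_lit 3116) (.e (nat_lit 98320) (nat_lit 17) (.e (nat_lit 7591) (nat_lit 407) (.e (nat_lit 73747) (nat_lit 3) (.e (nat_lit 516139) (nat_lit 7) (.e (nat_lit 409617) (nat_lit 10) (.e (nat_lit 5355) (nat_lit 298) (.e (nat_lit 1252) (nat_lit 92) .nil))))))) (.g (nat_lit 5) .nil .nil))))))) (.nd (nat_lit 3) (.nd (nat_lit 4) (.nd (nat_lit 5) (.nd (nat_lit 6) 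
(.lf (nat_lit 222980) (.g (nat_lit 1982) (.e (nat_lit 98319) (nat_lit 17) (.e (nat_lit 7591) (nat_lit 407) (.e (nat_lit 73754) (nat_lit 8) (.e (nat_lit 557070) (nat_lit 9) (.e (nat_lit 333) (nat_lit 26) (.e (nat_lit 376869) (nat_lit 23) .nil)))))) (.g (nat_lit 4) .nil .nil))) 
(.lf (nat_lit 223044) (.g (nat_lit 1379) (.e (nat_lit 98319) (nat_lit 17) (.e (nat_lit 7593) (nat_lit 407) (.e (nat_lit 73754) (nat_lit 8) (.e (nat_lit 564992) (nat_lit 9) .nil)))) .nil))) (.nd (nat_lit 6) 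
(.lf (nat_lit 223012) (.g (nat_lit 2945) (.e (nat_lit 98319) (nat_lit 17) (.e (nat_lit 7593) (nat_lit 407) (.e (nat_lit 73753) (nat_lit 8) (.e (nat_lit 557066) (nat_lit 9) (.e (nat_lit 314) (nat_lit 23) (.e (nat_lit 352315) (nat_lit 23) .nil)))))) (.g (nat_lit 0) .nil .nil))) 
(.lf (nat_lit 223076) (.g (nat_lit 1079) (.e (nat_lit 98320) (nat_lit 17) (.e (nat_lit 7065) (nat_lit 377) (.e (nat_lit 1349) (nat_lit 102) (.e (nat_lit 286735) (nat_lit 3) .nil)))) .nil)))) (.nd (nat_lit 5) (.nd (nat_lit 6) 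
(.lf (nat_lit 222996) (.g (nat_lit 4086) (.e (nat_lit 98319) (nat_lit 17) (.e (nat_lit 7593) (nat_lit 407) (.e (nat_lit 73746) (nat_lit 3) (.e (nat_lit 516097) (nat_lit 0) (.e (nat_lit 7587) (nat_lit 406) (.e (nat_lit 65571) (nat_lit 3) .nil)))))) (.g (nat_lit 6) .nil .nil))) 
(.lf (nat_lit 223060) (.g (nat_lit 2177) (.e (nat_lit 98320) (nat_lit 17) (.e (nat_lit 7065) (nat_lit 377) (.e (nat_lit 1348) (nat_lit 102) (.e (nat_lit 286733) (nat_lit 2) (.e (nat_lit 90133) (nat_lit 9) .nil))))) .nil))) (.nd (nat_lit 6) 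
(.lf (nat_lit 223028) (.g (nat_lit 3034) (.e (nat_lit 98319) (nat_lit 17) (.e (nat_lit 7593) (nat_lit 407) (.e (nat_lit 73754) (nat_lit 8) (.e (nat_lit 557065) (nat_lit 9) (.e (nat_lit 334) (nat_lit 26) (.e (nat_lit 376867) (nat_lit 23) .nil)))))) (.g (nat_lit 6) .nil .nil))) 
(.lf (nat_lit 223092) (.g (nat_lit 497) (.e (nat_lit 98320) (nat_lit 17) (.e (nat_lit 7591) (nat_lit 407) (.e (nat_lit 73746) (nat_lit 3) .nil))) .nil))))) (.nd (nat_lit 4) (.nd (nat_lit 5) (.nd (nat_lit 6) 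
(.lf (nat_lit 222988) (.g (nat_lit 1654) (.e (nat_lit 98319) (nat_lit 17) (.e (nat_lit 7591) (nat_lit 407) (.e (nat_lit 73755) (nat_lit 8) (.e (nat_lit 557070) (nat_lit 9) (.e (nat_lit 313) (nat_lit 23) .nil))))) .nil)) 
(.lf (nat_lit 223052) (.g (nat_lit 2574) (.e (nat_lit 98319) (nat_lit 17) (.e (nat_lit 7593) (nat_lit 407) (.e (nat_lit 73755) (nat_lit 8) (.e (nat_lit 557066) (nat_lit 9) (.e (nat_lit 334) (nat_lit 26) (.e (nat_lit 376869) (nat_lit 23) .nil)))))) (.g (nat_lit 0) .nil .nil)))) (.nd (nat_lit 6) 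
(.lf (nat_lit 223020) (.g (nat_lit 1887) (.e (nat_lit 98319) (nat_lit 17) (.e (nat_lit 7593) (nat_lit 407) (.e (nat_lit 73753) (nat_lit 8) (.e (nat_lit 557074) (nat_lit 9) (.e (nat_lit 284) (nat_lit 21) .nil))))) .nil)) 
(.lf (nat_lit 223084) (.g (nat_lit 2033) (.e (nat_lit 98320) (nat_lit 17) (.e (nat_lit 7386) (nat_lit 392) (.e (nat_lit 172067) (nat_lit 3) (.e (nat_lit 204845) (nat_lit 24) (.e (nat_lit 319531) (nat_lit 16) .nil))))) .nil)))) (.nd (nat_lit 5) (.nd (nat_lit 6) 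
(.lf (nat_lit 223004) (.g (nat_lit 1983) (.e (nat_lit 98319) (nat_lit 17) (.e (nat_lit 7593) (nat_lit 407) (.e (nat_lit 73751) (nat_lit 7) (.e (nat_lit 548891) (nat_lit 11) (.e (nat_lit 81954) (nat_lit 23) .nil))))) (.g (nat_lit 0) .nil .nil))) 
(.lf (nat_lit 223068) (.g (nat_lit 5481) (.e (nat_lit 98320) (nat_lit 17) (.e (nat_lit 7065) (nat_lit 377) (.e (nat_lit 1348) (nat_lit 102) (.e (nat_lit 286735) (nat_lit 3) (.e (nat_lit 98350) (nat_lit 24) (.e (nat_lit 409602) (nat_lit 0) (.e (nat_lit 5293) (nat_lit 298) (.e (nat_lit 1250) (nat_lit 92) .nil)))))))) (.g (nat_lit 8) .nil .nil)))) (.nd (nat_lit 6) 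
(.lf (nat_lit 223036) (.g (nat_lit 1326) (.e (nat_lit 98319) (nat_lit 17) (.e (nat_lit 7593) (nat_lit 407) (.e (nat_lit 73754) (nat_lit 8) (.e (nat_lit 557071) (nat_lit 9) .nil)))) .nil)) 
(.lf (nat_lit 223100) (.g (nat_lit 1229) (.e (nat_lit 98320) (nat_lit 17) (.e (nat_lit 7591) (nat_lit 407) (.e (nat_lit 73747) (nat_lit 3) (.e (nat_lit 516183) (nat_lit 16) .nil)))) .nil))))))) (.nd (nat_lit 2) (.nd (nat_lit 3) (.nd (nat_lit 4) (.nd (nat_lit 5) (.nd (nat_lit 6) 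
(.lf (nat_lit 222978) (.g (nat_lit 1917) (.e (nat_lit 98319) (nat_lit 17) (.e (nat_lit 7591) (nat_lit 407) (.e (nat_lit 73754) (nat_lit 8) (.e (nat_lit 557070) (nat_lit 9) (.e (nat_lit 7936) (nat_lit 23) (.e (nat_lit 352315) (nat_lit 23) .nil)))))) (.g (nat_lit 4) .nil .nil))) 
(.lf (nat_lit 223042) (.g (nat_lit 1247) (.e (nat_lit 98319) (nat_lit 17) (.e (nat_lit 7593) (nat_lit 407) (.e (nat_lit 73754) (nat_lit 8) (.e (nat_lit 557077) (nat_lit 9) .nil)))) .nil))) (.nd (nat_lit 6) 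
(.lf (nat_lit 223010) (.g (nat_lit 1848) (.e (nat_lit 98319) (nat_lit 17) (.e (nat_lit 7593) (nat_lit 407) (.e (nat_lit 73753) (nat_lit 8) (.e (nat_lit 557066) (nat_lit 9) (.e (nat_lit 309) (nat_lit 23) .nil))))) .nil)) 
(.lf (nat_lit 223074) (.g (nat_lit 2463) (.e (nat_lit 98320) (nat_lit 17) (.e (nat_lit 7065) (nat_lit 377) (.e (nat_lit 1349) (nat_lit 102) (.e (nat_lit 286733) (nat_lit 2) (.e (nat_lit 90173) (nat_lit 14) (.e (nat_lit 180278) (nat_lit 32) (.e (nat_lit 1252) (nat_lit 92) .nil))))))) (.g (nat_lit 4) .nil .nil))))) (.nd (nat_lit 5) (.nd (nat_lit 6) 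
(.lf (nat_lit 222994) (.g (nat_lit 1196) (.e (nat_lit 98319) (nat_lit 17) (.e (nat_lit 7593) (nat_lit 407) (.e (nat_lit 73729) (nat_lit 0) (.e (nat_lit 3928) (nat_lit 239) .nil)))) .nil)) 
(.lf (nat_lit 223058) (.g (nat_lit 2003) (.e (nat_lit 98320) (nat_lit 17) (.e (nat_lit 3783) (nat_lit 230) (.e (nat_lit 802822) (nat_lit 11) (.e (nat_lit 336027) (nat_lit 3) (.e (nat_lit 98369) (nat_lit 28) (.e (nat_lit 450304) (nat_lit 3) .nil)))))) (.g (nat_lit 5) .nil .nil)))) (.nd (nat_lit 6) 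
(.lf (nat_lit 223026) (.g (nat_lit 1122) (.e (nat_lit 98319) (nat_lit 17) (.e (nat_lit 7593) (nat_lit 407) (.e (nat_lit 73754) (nat_lit 8) (.e (nat_lit 557064) (nat_lit 9) .nil)))) .nil)) 
(.lf (nat_lit 223090) (.g (nat_lit 2599) (.e (nat_lit 98320) (nat_lit 17) (.e (nat_lit 7587) (nat_lit 406) (.e (nat_lit 65571) (nat_lit 3) (.e (nat_lit 98350) (nat_lit 24) (.e (nat_lit 409641) (nat_lit 17) .nil))))) .nil))))) (.nd (nat_lit 4) (.nd (nat_lit 5) (.nd (nat_lit 6) 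
(.lf (nat_lit 222986) (.g (nat_lit 2799) (.e (nat_lit 98319) (nat_lit 17) (.e (nat_lit 7591) (nat_lit 407) (.e (nat_lit 73755) (nat_lit 8) (.e (nat_lit 557066) (nat_lit 9) (.e (nat_lit 314) (nat_lit 23) (.e (nat_lit 352315) (nat_lit 23) .nil)))))) (.g (nat_lit 0) .nil .nil))) 
(.lf (nat_lit 223050) (.g (nat_lit 2872) (.e (nat_lit 98319) (nat_lit 17) (.e (nat_lit 7593) (nat_lit 407) (.e (nat_lit 73755) (nat_lit 8) (.e (nat_lit 557066) (nat_lit 9) (.e (nat_lit 314) (nat_lit 23) (.e (nat_lit 352315) (nat_lit 23) .nil)))))) (.g (nat_lit 6) .nil .nil)))) (.nd (nat_lit 6) 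
(.lf (nat_lit 223018) (.g (nat_lit 1729) (.e (nat_lit 98319) (nat_lit 17) (.e (nat_lit 7593) (nat_lit 407) (.e (nat_lit 73753) (nat_lit 8) (.e (nat_lit 557070) (nat_lit 9) (.e (nat_lit 7936) (nat_lit 26) .nil))))) .nil)) 
(.lf (nat_lit 223082) (.g (nat_lit 1967) (.e (nat_lit 98320) (nat_lit 17) (.e (nat_lit 7303) (nat_lit 388) (.e (nat_lit 2964) (nat_lit 185) (.e (nat_lit 434231) (nat_lit 23) (.e (nat_lit 532523) (nat_lit 7) .nil))))) .nil)))) (.nd (nat_lit 5) (.nd (nat_lit 6) 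
(.lf (nat_lit 223002) (.g (nat_lit 3712) (.e (nat_lit 98319) (nat_lit 17) (.e (nat_lit 7593) (nat_lit 407) (.e (nat_lit 73746) (nat_lit 3) (.e (nat_lit 516139) (nat_lit 7) (.e (nat_lit 409617) (nat_lit 10) (.e (nat_lit 5355) (nat_lit 298) (.e (nat_lit 1252) (nat_lit 92) .nil))))))) (.g (nat_lit 6) .nil .nil))) 
(.lf (nat_lit 223066) (.g (nat_lit 3201) (.e (nat_lit 98320) (nat_lit 17) (.e (nat_lit 7065) (nat_lit 377) (.e (nat_lit 1348) (nat_lit 102) (.e (nat_lit 286733) (nat_lit 2) (.e (nat_lit 90174) (nat_lit 14) (.e (nat_lit 180277) (nat_lit 32) (.e (nat_lit 1252) (nat_lit 92) .nil))))))) (.g (nat_lit 5) .nil .nil)))) (.nd (nat_lit 6) 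
(.lf (nat_lit 223034) (.g (nat_lit 2271) (.e (nat_lit 98319) (nat_lit 17) (.e (nat_lit 7593) (nat_lit 407) (.e (nat_lit 73754) (nat_lit 8) (.e (nat_lit 557070) (nat_lit 9) (.e (nat_lit 7936) (nat_lit 26) .nil))))) .nil)) 
(.lf (nat_lit 223098) (.g (nat_lit 1229) (.e (nat_lit 98320) (nat_lit 17) (.e (nat_lit 7591) (nat_lit 407) (.e (nat_lit 73747) (nat_lit 3) (.e (nat_lit 516141) (nat_lit 8) .nil)))) .nil)))))) (.nd (nat_lit 3) (.nd (nat_lit 4) (.nd (nat_lit 5) (.nd (nat_lit 6) 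
(.lf (nat_lit 222982) (.g (nat_lit 1653) (.e (nat_lit 98319) (nat_lit 17) (.e (nat_lit 7591) (nat_lit 407) (.e (nat_lit 73754) (nat_lit 8) (.e (nat_lit 557085) (nat_lit 11) (.e (nat_lit 24636) (nat_lit 9) .nil))))) .nil)) 
(.lf (nat_lit 223046) (.g (nat_lit 1247) (.e (nat_lit 98319) (nat_lit 17) (.e (nat_lit 7593) (nat_lit 407) (.e (nat_lit 73754) (nat_lit 8) (.e (nat_lit 557086) (nat_lit 11) .nil)))) .nil))) (.nd (nat_lit 6) 
(.lf (nat_lit 223014) (.g (nat_lit 2649) (.e (nat_lit 98319) (nat_lit 17) (.e (nat_lit 7593) (nat_lit 407) (.e (nat_lit 73753) (nat_lit 8) (.e (nat_lit 557066) (nat_lit 9) (.e (nat_lit 334) (nat_lit 26) (.e (nat_lit 376869) (nat_lit 23) .nil)))))) (.g (nat_lit 0) .nil .nil))) 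
(.lf (nat_lit 223078) (.g (nat_lit 3919) (.e (nat_lit 98320) (nat_lit 17) (.e (nat_lit 7065) (nat_lit 377) (.e (nat_lit 1349) (nat_lit 102) (.e (nat_lit 286735) (nat_lit 3) (.e (nat_lit 98367) (nat_lit 27) (.e (nat_lit 434180) (nat_lit 0) (.e (nat_lit 1252) (nat_lit 92) .nil))))))) (.g (nat_lit 6) .nil .nil))))) (.nd (nat_lit 5) (.nd (nat_lit 6) 
(.lf (nat_lit 222998) (.g (nat_lit 1414) (.e (nat_lit 98319) (nat_lit 17) (.e (nat_lit 7593) (nat_lit 407) (.e (nat_lit 73746) (nat_lit 3) (.e (nat_lit 516100) (nat_lit 0) (.e (nat_lit 7936) (nat_lit 409) .nil))))) .nil)) 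
(.lf (nat_lit 223062) (.g (nat_lit 2250) (.e (nat_lit 98320) (nat_lit 17) (.e (nat_lit 7065) (nat_lit 377) (.e (nat_lit 1348) (nat_lit 102) (.e (nat_lit 286733) (nat_lit 2) (.e (nat_lit 90168) (nat_lit 13) .nil))))) .nil))) (.nd (nat_lit 6) 
(.lf (nat_lit 223030) (.g (nat_lit 2176) (.e (nat_lit 98319) (nat_lit 17) (.e (nat_lit 7593) (nat_lit 407) (.e (nat_lit 73754) (nat_lit 8) (.e (nat_lit 557066) (nat_lit 9) (.e (nat_lit 334) (nat_lit 26) (.e (nat_lit 376867) (nat_lit 23) .nil)))))) (.g (nat_lit 4) .nil .nil))) 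
(.lf (nat_lit 223094) (.g (nat_lit 1241) (.e (nat_lit 98320) (nat_lit 17) (.e (nat_lit 7591) (nat_lit 407) (.e (nat_lit 73747) (nat_lit 3) (.e (nat_lit 516106) (nat_lit 0) .nil)))) .nil))))) (.nd (nat_lit 4) (.nd (nat_lit 5) (.nd (nat_lit 6) 
(.lf (nat_lit 222990) (.g (nat_lit 1462) (.e (nat_lit 98319) (nat_lit 17) (.e (nat_lit 7591) (nat_lit 407) (.e (nat_lit 73755) (nat_lit 8) (.e (nat_lit 557070) (nat_lit 9) (.e (nat_lit 7936) (nat_lit 23) .nil))))) .nil)) 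
(.lf (nat_lit 223054) (.g (nat_lit 2106) (.e (nat_lit 98319) (nat_lit 17) (.e (nat_lit 7593) (nat_lit 407) (.e (nat_lit 73755) (nat_lit 8) (.e (nat_lit 557070) (nat_lit 9) (.e (nat_lit 313) (nat_lit 23) .nil))))) .nil))) (.nd (nat_lit 6) 
(.lf (nat_lit 223022) (.g (nat_lit 2176) (.e (nat_lit 98319) (nat_lit 17) (.e (nat_lit 7593) (nat_lit 407) (.e (nat_lit 73753) (nat_lit 8) (.e (nat_lit 557085) (nat_lit 11) (.e (nat_lit 24627) (nat_lit 9) .nil))))) .nil)) 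
(.lf (nat_lit 223086) (.g (nat_lit 1909) (.e (nat_lit 98320) (nat_lit 17) (.e (nat_lit 7587) (nat_lit 406) (.e (nat_lit 65571) (nat_lit 3) (.e (nat_lit 98320) (nat_lit 17) (.e (nat_lit 7587) (nat_lit 406) .nil))))) .nil)))) (.nd (nat_lit 5) (.nd (nat_lit 6) 
(.lf (nat_lit 223006) (.g (nat_lit 1225) (.e (nat_lit 98319) (nat_lit 17) (.e (nat_lit 7593) (nat_lit 407) (.e (nat_lit 73753) (nat_lit 8) (.e (nat_lit 557064) (nat_lit 9) .nil)))) .nil)) 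
(.lf (nat_lit 223070) (.g (nat_lit 3416) (.e (nat_lit 98320) (nat_lit 17) (.e (nat_lit 7065) (nat_lit 377) (.e (nat_lit 1348) (nat_lit 102) (.e (nat_lit 286735) (nat_lit 3) (.e (nat_lit 98367) (nat_lit 27) (.e (nat_lit 434180) (nat_lit 0) (.e (nat_lit 1253) (nat_lit 92) .nil))))))) (.g (nat_lit 5) .nil .nil)))) (.nd (nat_lit 6) 
(.lf (nat_lit 223038) (.g (nat_lit 2359) (.e (nat_lit 98319) (nat_lit 17) (.e (nat_lit 7593) (nat_lit 407) (.e (nat_lit 73754) (nat_lit 8) (.e (nat_lit 557072) (nat_lit 9) (.e (nat_lit 7936) (nat_lit 26) (.e (nat_lit 376867) (nat_lit 23) .nil)))))) (.g (nat_lit 4) .nil .nil))) 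
(.lf (nat_lit 223102) (.g (nat_lit 1446) (.e (nat_lit 98320) (nat_lit 17) (.e (nat_lit 7591) (nat_lit 407) (.e (nat_lit 73747) (nat_lit 3) (.e (nat_lit 516185) (nat_lit 16) (.e (nat_lit 491552) (nat_lit 9) .nil))))) .nil)))))))) (.nd (nat_lit 1) (.nd (nat_lit 2) (.nd (nat_lit 3) (.nd (nat_lit 4) (.nd (nat_lit 5) (.nd (nat_lit 6) 
(.lf (nat_lit 222977) (.g (nat_lit 1932) (.e (nat_lit 98319) (nat_lit 17) (.e (nat_lit 7591) (nat_lit 407) (.e (nat_lit 73754) (nat_lit 8) (.e (nat_lit 557070) (nat_lit 9) (.e (nat_lit 313) (nat_lit 23) (.e (nat_lit 352313) (nat_lit 23) .nil)))))) (.g (nat_lit 4) .nil .nil))) 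
(.lf (nat_lit 223041) (.g (nat_lit 1247) (.e (nat_lit 98319) (nat_lit 17) (.e (nat_lit 7593) (nat_lit 407) (.e (nat_lit 73754) (nat_lit 8) (.e (nat_lit 557076) (nat_lit 9) .nil)))) .nil))) (.nd (nat_lit 6) 
(.lf (nat_lit 223009) (.g (nat_lit 3494) (.e (nat_lit 98319) (nat_lit 17) (.e (nat_lit 7593) (nat_lit 407) (.e (nat_lit 73753) (nat_lit 8) (.e (nat_lit 557065) (nat_lit 9) (.e (nat_lit 334) (nat_lit 26) (.e (nat_lit 376869) (nat_lit 23) .nil)))))) (.g (nat_lit 6) .nil .nil))) 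
(.lf (nat_lit 223073) (.g (nat_lit 2096) (.e (nat_lit 98320) (nat_lit 17) (.e (nat_lit 7065) (nat_lit 377) (.e (nat_lit 1349) (nat_lit 102) (.e (nat_lit 286733) (nat_lit 2) (.e (nat_lit 90173) (nat_lit 14) .nil))))) .nil)))) (.nd (nat_lit 5) (.nd (nat_lit 6) 
(.lf (nat_lit 222993) (.g (nat_lit 1764) (.e (nat_lit 98319) (nat_lit 17) (.e (nat_lit 7591) (nat_lit 407) (.e (nat_lit 73755) (nat_lit 8) (.e (nat_lit 557087) (nat_lit 11) (.e (nat_lit 24634) (nat_lit 9) (.e (nat_lit 336023) (nat_lit 3) .nil)))))) (.g (nat_lit 4) .nil .nil))) 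
(.lf (nat_lit 223057) (.g (nat_lit 1696) (.e (nat_lit 98320) (nat_lit 17) (.e (nat_lit 3694) (nat_lit 227) (.e (nat_lit 778465) (nat_lit 11) (.e (nat_lit 24604) (nat_lit 2) (.e (nat_lit 90185) (nat_lit 17) .nil))))) .nil))) (.nd (nat_lit 6) 
(.lf (nat_lit 223025) (.g (nat_lit 470) (.e (nat_lit 98319) (nat_lit 17) (.e (nat_lit 7593) (nat_lit 407) (.e (nat_lit 73754) (nat_lit 8) .nil))) .nil)) 
(.lf (nat_lit 223089) (.g (nat_lit 2503) (.e (nat_lit 98320) (nat_lit 17) (.e (nat_lit 7587) (nat_lit 406) (.e (nat_lit 65571) (nat_lit 3) (.e (nat_lit 98350) (nat_lit 24) (.e (nat_lit 409623) (nat_lit 10) .nil))))) .nil))))) (.nd (nat_lit 4) (.nd (nat_lit 5) (.nd (nat_lit 6) 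
(.lf (nat_lit 222985) (.g (nat_lit 2524) (.e (nat_lit 98319) (nat_lit 17) (.e (nat_lit 7591) (nat_lit 407) (.e (nat_lit 73755) (nat_lit 8) (.e (nat_lit 557066) (nat_lit 9) (.e (nat_lit 314) (nat_lit 23) (.e (nat_lit 352313) (nat_lit 23) .nil)))))) (.g (nat_lit 0) .nil .nil))) 
(.lf (nat_lit 223049) (.g (nat_lit 2577) (.e (nat_lit 98319) (nat_lit 17) (.e (nat_lit 7593) (nat_lit 407) (.e (nat_lit 73755) (nat_lit 8) (.e (nat_lit 557066) (nat_lit 9) (.e (nat_lit 314) (nat_lit 23) (.e (nat_lit 352313) (nat_lit 23) .nil)))))) (.g (nat_lit 6) .nil .nil)))) (.nd (nat_lit 6) 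
(.lf (nat_lit 223017) (.g (nat_lit 1729) (.e (nat_lit 98319) (nat_lit 17) (.e (nat_lit 7593) (nat_lit 407) (.e (nat_lit 73753) (nat_lit 8) (.e (nat_lit 557070) (nat_lit 9) (.e (nat_lit 7936) (nat_lit 23) .nil))))) .nil)) 
(.lf (nat_lit 223081) (.g (nat_lit 403) (.e (nat_lit 98320) (nat_lit 17) (.e (nat_lit 7110) (nat_lit 380) (.e (nat_lit 164375) (nat_lit 252) .nil))) .nil)))) (.nd (nat_lit 5) (.nd (nat_lit 6) 
(.lf (nat_lit 223001) (.g (nat_lit 2027) (.e (nat_lit 98319) (nat_lit 17) (.e (nat_lit 7593) (nat_lit 407) (.e (nat_lit 73746) (nat_lit 3) (.e (nat_lit 516106) (nat_lit 0) (.e (nat_lit 7936) (nat_lit 406) .nil))))) .nil)) 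
(.lf (nat_lit 223065) (.g (nat_lit 2382) (.e (nat_lit 98320) (nat_lit 17) (.e (nat_lit 7065) (nat_lit 377) (.e (nat_lit 1348) (nat_lit 102) (.e (nat_lit 286733) (nat_lit 2) (.e (nat_lit 90173) (nat_lit 14) (.e (nat_lit 180277) (nat_lit 32) (.e (nat_lit 1252) (nat_lit 92) .nil))))))) (.g (nat_lit 4) .nil .nil)))) (.nd (nat_lit 6) 
(.lf (nat_lit 223033) (.g (nat_lit 2271) (.e (nat_lit 98319) (nat_lit 17) (.e (nat_lit 7593) (nat_lit 407) (.e (nat_lit 73754) (nat_lit 8) (.e (nat_lit 557070) (nat_lit 9) (.e (nat_lit 7936) (nat_lit 23) .nil))))) .nil)) 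
(.lf (nat_lit 223097) (.g (nat_lit 2150) (.e (nat_lit 98320) (nat_lit 17) (.e (nat_lit 7591) (nat_lit 407) (.e (nat_lit 73747) (nat_lit 3) (.e (nat_lit 516139) (nat_lit 7) (.e (nat_lit 417536) (nat_lit 16) .nil))))) .nil)))))) (.nd (nat_lit 3) (.nd (nat_lit 4) (.nd (nat_lit 5) (.nd (nat_lit 6) 
(.lf (nat_lit 222981) (.g (nat_lit 1745) (.e (nat_lit 98319) (nat_lit 17) (.e (nat_lit 7591) (nat_lit 407) (.e (nat_lit 73754) (nat_lit 8) (.e (nat_lit 557070) (nat_lit 9) (.e (nat_lit 7936) (nat_lit 26) .nil))))) .nil)) 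
(.lf (nat_lit 223045) (.g (nat_lit 1977) (.e (nat_lit 98319) (nat_lit 17) (.e (nat_lit 7593) (nat_lit 407) (.e (nat_lit 73754) (nat_lit 8) (.e (nat_lit 557085) (nat_lit 11) (.e (nat_lit 24638) (nat_lit 9) .nil))))) .nil))) (.nd (nat_lit 6) 
(.lf (nat_lit 223013) (.g (nat_lit 2593) (.e (nat_lit 98319) (nat_lit 17) (.e (nat_lit 7593) (nat_lit 407) (.e (nat_lit 73753) (nat_lit 8) (.e (nat_lit 557066) (nat_lit 9) (.e (nat_lit 334) (nat_lit 26) (.e (nat_lit 376867) (nat_lit 23) .nil)))))) (.g (nat_lit 0) .nil .nil))) 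
(.lf (nat_lit 223077) (.g (nat_lit 2013) (.e (nat_lit 98320) (nat_lit 17) (.e (nat_lit 7065) (nat_lit 377) (.e (nat_lit 1349) (nat_lit 102) (.e (nat_lit 286735) (nat_lit 3) (.e (nat_lit 98350) (nat_lit 24) .nil))))) .nil)))) (.nd (nat_lit 5) (.nd (nat_lit 6) 
(.lf (nat_lit 222997) (.g (nat_lit 1702) (.e (nat_lit 98319) (nat_lit 17) (.e (nat_lit 7593) (nat_lit 407) (.e (nat_lit 73746) (nat_lit 3) (.e (nat_lit 516100) (nat_lit 0) (.e (nat_lit 7936) (nat_lit 406) (.e (nat_lit 65570) (nat_lit 3) .nil)))))) (.g (nat_lit 4) .nil .nil))) 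
(.lf (nat_lit 223061) (.g (nat_lit 1823) (.e (nat_lit 98320) (nat_lit 17) (.e (nat_lit 7065) (nat_lit 377) (.e (nat_lit 1348) (nat_lit 102) (.e (nat_lit 286733) (nat_lit 2) (.e (nat_lit 90165) (nat_lit 12) .nil))))) .nil))) (.nd (nat_lit 6) 
(.lf (nat_lit 223029) (.g (nat_lit 3051) (.e (nat_lit 98319) (nat_lit 17) (.e (nat_lit 7593) (nat_lit 407) (.e (nat_lit 73754) (nat_lit 8) (.e (nat_lit 557065) (nat_lit 9) (.e (nat_lit 334) (nat_lit 26) (.e (nat_lit 376869) (nat_lit 23) .nil)))))) (.g (nat_lit 6) .nil .nil))) 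
(.lf (nat_lit 223093) (.g (nat_lit 304) (.e (nat_lit 98320) (nat_lit 17) (.e (nat_lit 7591) (nat_lit 407) (.e (nat_lit 73747) (nat_lit 3) .nil))) .nil))))) (.nd (nat_lit 4) (.nd (nat_lit 5) (.nd (nat_lit 6) 
(.lf (nat_lit 222989) (.g (nat_lit 1697) (.e (nat_lit 98319) (nat_lit 17) (.e (nat_lit 7591) (nat_lit 407) (.e (nat_lit 73755) (nat_lit 8) (.e (nat_lit 557070) (nat_lit 9) (.e (nat_lit 313) (nat_lit 23) (.e (nat_lit 352315) (nat_lit 23) .nil)))))) (.g (nat_lit 4) .nil .nil))) 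
(.lf (nat_lit 223053) (.g (nat_lit 1400) (.e (nat_lit 98319) (nat_lit 17) (.e (nat_lit 7593) (nat_lit 407) (.e (nat_lit 73755) (nat_lit 8) (.e (nat_lit 557068) (nat_lit 9) (.e (nat_lit 7936) (nat_lit 26) .nil))))) .nil))) (.nd (nat_lit 6) 
(.lf (nat_lit 223021) (.g (nat_lit 1840) (.e (nat_lit 98319) (nat_lit 17) (.e (nat_lit 7593) (nat_lit 407) (.e (nat_lit 73753) (nat_lit 8) (.e (nat_lit 557081) (nat_lit 9) (.e (nat_lit 316) (nat_lit 23) (.e (nat_lit 352313) (nat_lit 23) .nil)))))) (.g (nat_lit 4) .nil .nil))) 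
(.lf (nat_lit 223085) (.g (nat_lit 655) (.e (nat_lit 98320) (nat_lit 17) (.e (nat_lit 7581) (nat_lit 405) (.e (nat_lit 57717) (nat_lit 176) (.e (nat_lit 1141) (nat_lit 84) .nil)))) .nil)))) (.nd (nat_lit 5) (.nd (nat_lit 6) 
(.lf (nat_lit 223005) (.g (nat_lit 392) (.e (nat_lit 98319) (nat_lit 17) (.e (nat_lit 7593) (nat_lit 407) (.e (nat_lit 73753) (nat_lit 8) .nil))) .nil)) 
(.lf (nat_lit 223069) (.g (nat_lit 3801) (.e (nat_lit 98320) (nat_lit 17) (.e (nat_lit 7065) (nat_lit 377) (.e (nat_lit 1348) (nat_lit 102) (.e (nat_lit 286735) (nat_lit 3) (.e (nat_lit 98367) (nat_lit 27) (.e (nat_lit 434180) (nat_lit 0) (.e (nat_lit 1252) (nat_lit 92) .nil))))))) (.g (nat_lit 5) .nil .nil)))) (.nd (nat_lit 6) 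
(.lf (nat_lit 223037) (.g (nat_lit 2091) (.e (nat_lit 98319) (nat_lit 17) (.e (nat_lit 7593) (nat_lit 407) (.e (nat_lit 73754) (nat_lit 8) (.e (nat_lit 557072) (nat_lit 9) (.e (nat_lit 290) (nat_lit 21) .nil))))) .nil)) 
(.lf (nat_lit 223101) (.g (nat_lit 1254) (.e (nat_lit 98320) (nat_lit 17) (.e (nat_lit 7591) (nat_lit 407) (.e (nat_lit 73747) (nat_lit 3) (.e (nat_lit 516184) (nat_lit 16) .nil)))) .nil))))))) (.nd (nat_lit 2) (.nd (nat_lit 3) (.nd (nat_lit 4) (.nd (nat_lit 5) (.nd (nat_lit 6) 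
(.lf (nat_lit 222979) (.g (nat_lit 1947) (.e (nat_lit 98319) (nat_lit 17) (.e (nat_lit 7591) (nat_lit 407) (.e (nat_lit 73754) (nat_lit 8) (.e (nat_lit 557070) (nat_lit 9) (.e (nat_lit 333) (nat_lit 26) (.e (nat_lit 376867) (nat_lit 23) .nil)))))) (.g (nat_lit 4) .nil .nil))) 
(.lf (nat_lit 223043) (.g (nat_lit 1247) (.e (nat_lit 98319) (nat_lit 17) (.e (nat_lit 7593) (nat_lit 407) (.e (nat_lit 73754) (nat_lit 8) (.e (nat_lit 557078) (nat_lit 9) .nil)))) .nil))) (.nd (nat_lit 6) 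
(.lf (nat_lit 223011) (.g (nat_lit 2672) (.e (nat_lit 98319) (nat_lit 17) (.e (nat_lit 7593) (nat_lit 407) (.e (nat_lit 73753) (nat_lit 8) (.e (nat_lit 557066) (nat_lit 9) (.e (nat_lit 314) (nat_lit 23) (.e (nat_lit 352313) (nat_lit 23) .nil)))))) (.g (nat_lit 0) .nil .nil))) 
(.lf (nat_lit 223075) (.g (nat_lit 3673) (.e (nat_lit 98320) (nat_lit 17) (.e (nat_lit 7065) (nat_lit 377) (.e (nat_lit 1349) (nat_lit 102) (.e (nat_lit 286733) (nat_lit 2) (.e (nat_lit 90174) (nat_lit 14) (.e (nat_lit 180277) (nat_lit 32) (.e (nat_lit 1252) (nat_lit 92) .nil))))))) (.g (nat_lit 6) .nil .nil))))) (.nd (nat_lit 5) (.nd (nat_lit 6) 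
(.lf (nat_lit 222995) (.g (nat_lit 377) (.e (nat_lit 98319) (nat_lit 17) (.e (nat_lit 7593) (nat_lit 407) (.e (nat_lit 73746) (nat_lit 3) .nil))) .nil)) 
(.lf (nat_lit 223059) (.g (nat_lit 2181) (.e (nat_lit 98320) (nat_lit 17) (.e (nat_lit 3783) (nat_lit 230) (.e (nat_lit 802822) (nat_lit 11) (.e (nat_lit 336027) (nat_lit 3) (.e (nat_lit 98370) (nat_lit 28) (.e (nat_lit 450304) (nat_lit 3) .nil)))))) (.g (nat_lit 5) .nil .nil)))) (.nd (nat_lit 6) 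
(.lf (nat_lit 223027) (.g (nat_lit 1543) (.e (nat_lit 98319) (nat_lit 17) (.e (nat_lit 7593) (nat_lit 407) (.e (nat_lit 73754) (nat_lit 8) (.e (nat_lit 557064) (nat_lit 9) (.e (nat_lit 313) (nat_lit 23) .nil))))) .nil)) 
(.lf (nat_lit 223091) (.g (nat_lit 1678) (.e (nat_lit 98320) (nat_lit 17) (.e (nat_lit 7591) (nat_lit 407) (.e (nat_lit 73729) (nat_lit 0) (.e (nat_lit 7265) (nat_lit 384) (.e (nat_lit 57347) (nat_lit 0) .nil))))) .nil))))) (.nd (nat_lit 4) (.nd (nat_lit 5) (.nd (nat_lit 6) 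
(.lf (nat_lit 222987) (.g (nat_lit 2447) (.e (nat_lit 98319) (nat_lit 17) (.e (nat_lit 7591) (nat_lit 407) (.e (nat_lit 73755) (nat_lit 8) (.e (nat_lit 557066) (nat_lit 9) (.e (nat_lit 334) (nat_lit 26) (.e (nat_lit 376867) (nat_lit 23) .nil)))))) (.g (nat_lit 0) .nil .nil))) 
(.lf (nat_lit 223051) (.g (nat_lit 2521) (.e (nat_lit 98319) (nat_lit 17) (.e (nat_lit 7593) (nat_lit 407) (.e (nat_lit 73755) (nat_lit 8) (.e (nat_lit 557066) (nat_lit 9) (.e (nat_lit 334) (nat_lit 26) (.e (nat_lit 376867) (nat_lit 23) .nil)))))) (.g (nat_lit 0) .nil .nil)))) (.nd (nat_lit 6) 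
(.lf (nat_lit 223019) (.g (nat_lit 1871) (.e (nat_lit 98319) (nat_lit 17) (.e (nat_lit 7593) (nat_lit 407) (.e (nat_lit 73753) (nat_lit 8) (.e (nat_lit 557070) (nat_lit 9) (.e (nat_lit 7936) (nat_lit 26) (.e (nat_lit 376869) (nat_lit 23) .nil)))))) (.g (nat_lit 4) .nil .nil))) 
(.lf (nat_lit 223083) (.g (nat_lit 2129) (.e (nat_lit 98320) (nat_lit 17) (.e (nat_lit 7386) (nat_lit 392) (.e (nat_lit 172067) (nat_lit 3) (.e (nat_lit 204845) (nat_lit 24) (.e (nat_lit 319530) (nat_lit 16) .nil))))) .nil)))) (.nd (nat_lit 5) (.nd (nat_lit 6) 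
(.lf (nat_lit 223003) (.g (nat_lit 1038) (.e (nat_lit 98319) (nat_lit 17) (.e (nat_lit 7593) (nat_lit 407) (.e (nat_lit 73746) (nat_lit 3) (.e (nat_lit 516182) (nat_lit 15) .nil)))) .nil)) 
(.lf (nat_lit 223067) (.g (nat_lit 1083) (.e (nat_lit 98320) (nat_lit 17) (.e (nat_lit 7065) (nat_lit 377) (.e (nat_lit 1348) (nat_lit 102) (.e (nat_lit 286735) (nat_lit 3) .nil)))) .nil))) (.nd (nat_lit 6) 
(.lf (nat_lit 223035) (.g (nat_lit 2295) (.e (nat_lit 98319) (nat_lit 17) (.e (nat_lit 7593) (nat_lit 407) (.e (nat_lit 73754) (nat_lit 8) (.e (nat_lit 557070) (nat_lit 9) (.e (nat_lit 7936) (nat_lit 26) (.e (nat_lit 376869) (nat_lit 23) .nil)))))) (.g (nat_lit 4) .nil .nil))) 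
(.lf (nat_lit 223099) (.g (nat_lit 1229) (.e (nat_lit 98320) (nat_lit 17) (.e (nat_lit 7591) (nat_lit 407) (.e (nat_lit 73747) (nat_lit 3) (.e (nat_lit 516182) (nat_lit 15) .nil)))) .nil)))))) (.nd (nat_lit 3) (.nd (nat_lit 4) (.nd (nat_lit 5) (.nd (nat_lit 6) 
(.lf (nat_lit 222983) (.g (nat_lit 326) (.e (nat_lit 98319) (nat_lit 17) (.e (nat_lit 7591) (nat_lit 407) (.e (nat_lit 73755) (nat_lit 8) .nil))) .nil)) 
(.lf (nat_lit 223047) (.g (nat_lit 2143) (.e (nat_lit 98319) (nat_lit 17) (.e (nat_lit 7593) (nat_lit 407) (.e (nat_lit 73754) (nat_lit 8) (.e (nat_lit 557087) (nat_lit 11) (.e (nat_lit 24638) (nat_lit 9) .nil))))) .nil))) (.nd (nat_lit 6) 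
(.lf (nat_lit 223015) (.g (nat_lit 2126) (.e (nat_lit 98319) (nat_lit 17) (.e (nat_lit 7593) (nat_lit 407) (.e (nat_lit 73753) (nat_lit 8) (.e (nat_lit 557067) (nat_lit 9) (.e (nat_lit 7936) (nat_lit 23) .nil))))) .nil)) 
(.lf (nat_lit 223079) (.g (nat_lit 3534) (.e (nat_lit 98320) (nat_lit 17) (.e (nat_lit 7065) (nat_lit 377) (.e (nat_lit 1349) (nat_lit 102) (.e (nat_lit 286735) (nat_lit 3) (.e (nat_lit 98367) (nat_lit 27) (.e (nat_lit 434180) (nat_lit 0) (.e (nat_lit 1253) (nat_lit 92) .nil))))))) (.g (nat_lit 5) .nil .nil))))) (.nd (nat_lit 5) (.nd (nat_lit 6) 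
(.lf (nat_lit 222999) (.g (nat_lit 902) (.e (nat_lit 98319) (nat_lit 17) (.e (nat_lit 7593) (nat_lit 407) (.e (nat_lit 73746) (nat_lit 3) (.e (nat_lit 516104) (nat_lit 0) .nil)))) .nil)) 
(.lf (nat_lit 223063) (.g (nat_lit 3092) (.e (nat_lit 98320) (nat_lit 17) (.e (nat_lit 7065) (nat_lit 377) (.e (nat_lit 1348) (nat_lit 102) (.e (nat_lit 286733) (nat_lit 2) (.e (nat_lit 90172) (nat_lit 14) (.e (nat_lit 180278) (nat_lit 32) (.e (nat_lit 1252) (nat_lit 92) .nil))))))) (.g (nat_lit 5) .nil .nil)))) (.nd (nat_lit 6) 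
(.lf (nat_lit 223031) (.g (nat_lit 2215) (.e (nat_lit 98319) (nat_lit 17) (.e (nat_lit 7593) (nat_lit 407) (.e (nat_lit 73754) (nat_lit 8) (.e (nat_lit 557066) (nat_lit 9) (.e (nat_lit 334) (nat_lit 26) (.e (nat_lit 376869) (nat_lit 23) .nil)))))) (.g (nat_lit 4) .nil .nil))) 
(.lf (nat_lit 223095) (.g (nat_lit 3021) (.e (nat_lit 98320) (nat_lit 17) (.e (nat_lit 7591) (nat_lit 407) (.e (nat_lit 73747) (nat_lit 3) (.e (nat_lit 516139) (nat_lit 7) (.e (nat_lit 409616) (nat_lit 10) (.e (nat_lit 5355) (nat_lit 298) (.e (nat_lit 1253) (nat_lit 92) .nil))))))) (.g (nat_lit 5) .nil .nil)))))) (.nd (nat_lit 4) (.nd (nat_lit 5) (.nd (nat_lit 6) 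
(.lf (nat_lit 222991) (.g (nat_lit 1686) (.e (nat_lit 98319) (nat_lit 17) (.e (nat_lit 7591) (nat_lit 407) (.e (nat_lit 73755) (nat_lit 8) (.e (nat_lit 557070) (nat_lit 9) (.e (nat_lit 333) (nat_lit 26) .nil))))) .nil)) 
(.lf (nat_lit 223055) (.g (nat_lit 1936) (.e (nat_lit 98319) (nat_lit 17) (.e (nat_lit 7593) (nat_lit 407) (.e (nat_lit 73755) (nat_lit 8) (.e (nat_lit 557070) (nat_lit 9) (.e (nat_lit 7936) (nat_lit 23) .nil))))) .nil))) (.nd (nat_lit 6) 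
(.lf (nat_lit 223023) (.g (nat_lit 2159) (.e (nat_lit 98319) (nat_lit 17) (.e (nat_lit 7593) (nat_lit 407) (.e (nat_lit 73753) (nat_lit 8) (.e (nat_lit 557085) (nat_lit 11) (.e (nat_lit 24636) (nat_lit 9) .nil))))) .nil)) 
(.lf (nat_lit 223087) (.g (nat_lit 3416) (.e (nat_lit 98320) (nat_lit 17) (.e (nat_lit 7587) (nat_lit 406) (.e (nat_lit 65571) (nat_lit 3) (.e (nat_lit 98350) (nat_lit 24) (.e (nat_lit 409616) (nat_lit 10) (.e (nat_lit 5355) (nat_lit 298) (.e (nat_lit 1253) (nat_lit 92) .nil))))))) (.g (nat_lit 5) .nil .nil))))) (.nd (nat_lit 5) (.nd (nat_lit 6) 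
(.lf (nat_lit 223007) (.g (nat_lit 2414) (.e (nat_lit 98319) (nat_lit 17) (.e (nat_lit 7593) (nat_lit 407) (.e (nat_lit 73753) (nat_lit 8) (.e (nat_lit 557065) (nat_lit 9) (.e (nat_lit 309) (nat_lit 23) .nil))))) .nil)) 
(.lf (nat_lit 223071) (.g (nat_lit 2077) (.e (nat_lit 98320) (nat_lit 17) (.e (nat_lit 7065) (nat_lit 377) (.e (nat_lit 1349) (nat_lit 102) (.e (nat_lit 286733) (nat_lit 2) (.e (nat_lit 90133) (nat_lit 9) .nil))))) .nil))) (.nd (nat_lit 6) 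
(.lf (nat_lit 223039) (.g (nat_lit 1843) (.e (nat_lit 98319) (nat_lit 17) (.e (nat_lit 7593) (nat_lit 407) (.e (nat_lit 73754) (nat_lit 8) (.e (nat_lit 557073) (nat_lit 9) (.e (nat_lit 290) (nat_lit 21) .nil))))) .nil)) 
(.lf (nat_lit 223103) (.g (nat_lit 2668) (.e (nat_lit 98320) (nat_lit 17) (.e (nat_lit 7591) (nat_lit 407) (.e (nat_lit 73748) (nat_lit 3) (.e (nat_lit 516139) (nat_lit 7) (.e (nat_lit 409617) (nat_lit 10) (.e (nat_lit 5355) (nat_lit 298) (.e (nat_lit 1253) (nat_lit 92) .nil))))))) (.g (nat_lit 5) .nil .nil))))))))))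

noncomputable def tv2926 : DT := (.nd (nat_lit 0) (.nd (nat_lit 1) (.nd (nat_lit 2) (.nd (nat_lit 3) (.nd (nat_lit 4) (.nd (nat_lit 5) 
(.lf (nat_lit 223104) (.g (nat_lit 1463) (.e (nat_lit 98320) (nat_lit 17) (.e (nat_lit 7591) (nat_lit 407) (.e (nat_lit 73748) (nat_lit 3) (.e (nat_lit 516139) (nat_lit 7) (.e (nat_lit 417536) (nat_lit 16) .nil))))) .nil)) 
(.lf (nat_lit 223136) (.g (nat_lit 2000) (.e (nat_lit 98320) (nat_lit 17) (.e (nat_lit 7591) (nat_lit 407) (.e (nat_lit 73755) (nat_lit 8) (.e (nat_lit 557085) (nat_lit 11) (.e (nat_lit 24627) (nat_lit 9) .nil))))) .nil))) (.nd (nat_lit 5) 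
(.lf (nat_lit 223120) (.g (nat_lit 1777) (.e (nat_lit 98320) (nat_lit 17) (.e (nat_lit 7591) (nat_lit 407) (.e (nat_lit 73754) (nat_lit 8) (.e (nat_lit 557070) (nat_lit 9) (.e (nat_lit 7936) (nat_lit 26) .nil))))) .nil)) 
(.lf (nat_lit 223152) (.g (nat_lit 1198) (.e (nat_lit 98320) (nat_lit 17) (.e (nat_lit 7593) (nat_lit 407) (.e (nat_lit 73753) (nat_lit 8) (.e (nat_lit 557064) (nat_lit 9) .nil)))) .nil)))) (.nd (nat_lit 4) (.nd (nat_lit 5) 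
(.lf (nat_lit 223112) (.g (nat_lit 2254) (.e (nat_lit 98320) (nat_lit 17) (.e (nat_lit 7591) (nat_lit 407) (.e (nat_lit 73753) (nat_lit 8) (.e (nat_lit 557087) (nat_lit 11) (.e (nat_lit 24625) (nat_lit 9) (.e (nat_lit 343808) (nat_lit 3) .nil)))))) (.g (nat_lit 5) .nil .nil))) 
(.lf (nat_lit 223144) (.g (nat_lit 916) (.e (nat_lit 98320) (nat_lit 17) (.e (nat_lit 7593) (nat_lit 407) (.e (nat_lit 73746) (nat_lit 3) (.e (nat_lit 516104) (nat_lit 0) .nil)))) .nil))) (.nd (nat_lit 5) 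
(.lf (nat_lit 223128) (.g (nat_lit 2960) (.e (nat_lit 98320) (nat_lit 17) (.e (nat_lit 7591) (nat_lit 407) (.e (nat_lit 73755) (nat_lit 8) (.e (nat_lit 557066) (nat_lit 9) (.e (nat_lit 314) (nat_lit 23) (.e (nat_lit 352315) (nat_lit 23) .nil)))))) (.g (nat_lit 0) .nil .nil))) 
(.lf (nat_lit 223160) (.g (nat_lit 2100) (.e (nat_lit 98320) (nat_lit 17) (.e (nat_lit 7593) (nat_lit 407) (.e (nat_lit 73753) (nat_lit 8) (.e (nat_lit 557067) (nat_lit 9) (.e (nat_lit 7936) (nat_lit 23) .nil))))) .nil))))) (.nd (nat_lit 3) (.nd (nat_lit 4) (.nd (nat_lit 5) 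
(.lf (nat_lit 223108) (.g (nat_lit 1082) (.e (nat_lit 98320) (nat_lit 17) (.e (nat_lit 7591) (nat_lit 407) (.e (nat_lit 73753) (nat_lit 8) (.e (nat_lit 557073) (nat_lit 9) .nil)))) .nil)) 
(.lf (nat_lit 223140) (.g (nat_lit 2075) (.e (nat_lit 98320) (nat_lit 17) (.e (nat_lit 7591) (nat_lit 407) (.e (nat_lit 73755) (nat_lit 8) (.e (nat_lit 557087) (nat_lit 11) (.e (nat_lit 24634) (nat_lit 9) (.e (nat_lit 336023) (nat_lit 3) .nil)))))) (.g (nat_lit 0) .nil .nil)))) (.nd (nat_lit 5) 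
(.lf (nat_lit 223124) (.g (nat_lit 349) (.e (nat_lit 98320) (nat_lit 17) (.e (nat_lit 7591) (nat_lit 407) (.e (nat_lit 73755) (nat_lit 8) .nil))) .nil)) 
(.lf (nat_lit 223156) (.g (nat_lit 1865) (.e (nat_lit 98320) (nat_lit 17) (.e (nat_lit 7593) (nat_lit 407) (.e (nat_lit 73753) (nat_lit 8) (.e (nat_lit 557066) (nat_lit 9) (.e (nat_lit 310) (nat_lit 23) .nil))))) .nil)))) (.nd (nat_lit 4) (.nd (nat_lit 5) 
(.lf (nat_lit 223116) (.g (nat_lit 1777) (.e (nat_lit 98320) (nat_lit 17) (.e (nat_lit 7591) (nat_lit 407) (.e (nat_lit 73754) (nat_lit 8) (.e (nat_lit 557070) (nat_lit 9) (.e (nat_lit 7936) (nat_lit 23) .nil))))) .nil)) 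
(.lf (nat_lit 223148) (.g (nat_lit 2322) (.e (nat_lit 98320) (nat_lit 17) (.e (nat_lit 7593) (nat_lit 407) (.e (nat_lit 73746) (nat_lit 3) (.e (nat_lit 516178) (nat_lit 15) (.e (nat_lit 475210) (nat_lit 41) (.e (nat_lit 720640) (nat_lit 3) .nil)))))) (.g (nat_lit 5) .nil .nil)))) (.nd (nat_lit 5) 
(.lf (nat_lit 223132) (.g (nat_lit 1692) (.e (nat_lit 98320) (nat_lit 17) (.e (nat_lit 7591) (nat_lit 407) (.e (nat_lit 73755) (nat_lit 8) (.e (nat_lit 557070) (nat_lit 9) (.e (nat_lit 313) (nat_lit 23) (.e (nat_lit 352313) (nat_lit 23) .nil)))))) (.g (nat_lit 4) .nil .nil))) 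
(.lf (nat_lit 223164) (.g (nat_lit 1706) (.e (nat_lit 98320) (nat_lit 17) (.e (nat_lit 7593) (nat_lit 407) (.e (nat_lit 73753) (nat_lit 8) (.e (nat_lit 557070) (nat_lit 9) (.e (nat_lit 7936) (nat_lit 23) .nil))))) .nil)))))) (.nd (nat_lit 2) (.nd (nat_lit 3) (.nd (nat_lit 4) (.nd (nat_lit 5) 
(.lf (nat_lit 223106) (.g (nat_lit 2660) (.e (nat_lit 98320) (nat_lit 17) (.e (nat_lit 7591) (nat_lit 407) (.e (nat_lit 73753) (nat_lit 8) (.e (nat_lit 557066) (nat_lit 9) (.e (nat_lit 334) (nat_lit 26) (.e (nat_lit 376869) (nat_lit 23) .nil)))))) (.g (nat_lit 0) .nil .nil))) 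
(.lf (nat_lit 223138) (.g (nat_lit 2179) (.e (nat_lit 98320) (nat_lit 17) (.e (nat_lit 7591) (nat_lit 407) (.e (nat_lit 73755) (nat_lit 8) (.e (nat_lit 557087) (nat_lit 11) (.e (nat_lit 24625) (nat_lit 9) (.e (nat_lit 343808) (nat_lit 3) .nil)))))) (.g (nat_lit 5) .nil .nil)))) (.nd (nat_lit 5) 
(.lf (nat_lit 223122) (.g (nat_lit 1390) (.e (nat_lit 98320) (nat_lit 17) (.e (nat_lit 7591) (nat_lit 407) (.e (nat_lit 73754) (nat_lit 8) (.e (nat_lit 557072) (nat_lit 9) (.e (nat_lit 7936) (nat_lit 23) .nil))))) .nil)) 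
(.lf (nat_lit 223154) (.g (nat_lit 2385) (.e (nat_lit 98320) (nat_lit 17) (.e (nat_lit 7593) (nat_lit 407) (.e (nat_lit 73753) (nat_lit 8) (.e (nat_lit 557065) (nat_lit 9) (.e (nat_lit 315) (nat_lit 23) .nil))))) .nil)))) (.nd (nat_lit 4) (.nd (nat_lit 5) 
(.lf (nat_lit 223114) (.g (nat_lit 2123) (.e (nat_lit 98320) (nat_lit 17) (.e (nat_lit 7591) (nat_lit 407) (.e (nat_lit 73753) (nat_lit 8) (.e (nat_lit 557087) (nat_lit 11) (.e (nat_lit 24634) (nat_lit 9) (.e (nat_lit 336023) (nat_lit 3) .nil)))))) (.g (nat_lit 0) .nil .nil))) 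
(.lf (nat_lit 223146) (.g (nat_lit 2036) (.e (nat_lit 98320) (nat_lit 17) (.e (nat_lit 7593) (nat_lit 407) (.e (nat_lit 73746) (nat_lit 3) (.e (nat_lit 516106) (nat_lit 0) (.e (nat_lit 7936) (nat_lit 406) .nil))))) .nil))) (.nd (nat_lit 5) 
(.lf (nat_lit 223130) (.g (nat_lit 1655) (.e (nat_lit 98320) (nat_lit 17) (.e (nat_lit 7591) (nat_lit 407) (.e (nat_lit 73755) (nat_lit 8) (.e (nat_lit 557067) (nat_lit 9) (.e (nat_lit 7936) (nat_lit 21) .nil))))) .nil)) 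
(.lf (nat_lit 223162) (.g (nat_lit 2100) (.e (nat_lit 98320) (nat_lit 17) (.e (nat_lit 7593) (nat_lit 407) (.e (nat_lit 73753) (nat_lit 8) (.e (nat_lit 557067) (nat_lit 9) (.e (nat_lit 7936) (nat_lit 26) .nil))))) .nil))))) (.nd (nat_lit 3) (.nd (nat_lit 4) (.nd (nat_lit 5) 
(.lf (nat_lit 223110) (.g (nat_lit 2420) (.e (nat_lit 98320) (nat_lit 17) (.e (nat_lit 7591) (nat_lit 407) (.e (nat_lit 73753) (nat_lit 8) (.e (nat_lit 557085) (nat_lit 11) (.e (nat_lit 24638) (nat_lit 9) .nil))))) .nil)) 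
(.lf (nat_lit 223142) (.g (nat_lit 2083) (.e (nat_lit 98320) (nat_lit 17) (.e (nat_lit 7593) (nat_lit 407) (.e (nat_lit 73746) (nat_lit 3) (.e (nat_lit 516097) (nat_lit 0) (.e (nat_lit 7589) (nat_lit 406) .nil))))) .nil))) (.nd (nat_lit 5) 
(.lf (nat_lit 223126) (.g (nat_lit 2937) (.e (nat_lit 98320) (nat_lit 17) (.e (nat_lit 7591) (nat_lit 407) (.e (nat_lit 73755) (nat_lit 8) (.e (nat_lit 557065) (nat_lit 9) (.e (nat_lit 334) (nat_lit 26) (.e (nat_lit 376869) (nat_lit 23) .nil)))))) (.g (nat_lit 6) .nil .nil))) 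
(.lf (nat_lit 223158) (.g (nat_lit 3070) (.e (nat_lit 98320) (nat_lit 17) (.e (nat_lit 7593) (nat_lit 407) (.e (nat_lit 73753) (nat_lit 8) (.e (nat_lit 557066) (nat_lit 9) (.e (nat_lit 314) (nat_lit 23) (.e (nat_lit 352315) (nat_lit 23) .nil)))))) (.g (nat_lit 0) .nil .nil))))) (.nd (nat_lit 4) (.nd (nat_lit 5) 
(.lf (nat_lit 223118) (.g (nat_lit 2069) (.e (nat_lit 98320) (nat_lit 17) (.e (nat_lit 7591) (nat_lit 407) (.e (nat_lit 73754) (nat_lit 8) (.e (nat_lit 557070) (nat_lit 9) (.e (nat_lit 333) (nat_lit 26) (.e (nat_lit 376867) (nat_lit 23) .nil)))))) (.g (nat_lit 4) .nil .nil))) 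
(.lf (nat_lit 223150) (.g (nat_lit 1033) (.e (nat_lit 98320) (nat_lit 17) (.e (nat_lit 7593) (nat_lit 407) (.e (nat_lit 73746) (nat_lit 3) (.e (nat_lit 516184) (nat_lit 16) .nil)))) .nil))) (.nd (nat_lit 5) 
(.lf (nat_lit 223134) (.g (nat_lit 1716) (.e (nat_lit 98320) (nat_lit 17) (.e (nat_lit 7591) (nat_lit 407) (.e (nat_lit 73755) (nat_lit 8) (.e (nat_lit 557070) (nat_lit 9) (.e (nat_lit 333) (nat_lit 26) .nil))))) .nil)) 
(.lf (nat_lit 223166) (.g (nat_lit 1706) (.e (nat_lit 98320) (nat_lit 17) (.e (nat_lit 7593) (nat_lit 407) (.e (nat_lit 73753) (nat_lit 8) (.e (nat_lit 557070) (nat_lit 9) (.e (nat_lit 7936) (nat_lit 26) .nil))))) .nil))))))) (.nd (nat_lit 1) (.nd (nat_lit 2) (.nd (nat_lit 3) (.nd (nat_lit 4) (.nd (nat_lit 5) 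
(.lf (nat_lit 223105) (.g (nat_lit 325) (.e (nat_lit 98320) (nat_lit 17) (.e (nat_lit 7591) (nat_lit 407) (.e (nat_lit 73753) (nat_lit 8) .nil))) .nil)) 
(.lf (nat_lit 223137) (.g (nat_lit 1436) (.e (nat_lit 98320) (nat_lit 17) (.e (nat_lit 7591) (nat_lit 407) (.e (nat_lit 73755) (nat_lit 8) (.e (nat_lit 557086) (nat_lit 11) (.e (nat_lit 24636) (nat_lit 9) .nil))))) .nil))) (.nd (nat_lit 5) 
(.lf (nat_lit 223121) (.g (nat_lit 1304) (.e (nat_lit 98320) (nat_lit 17) (.e (nat_lit 7591) (nat_lit 407) (.e (nat_lit 73754) (nat_lit 8) (.e (nat_lit 557071) (nat_lit 9) .nil)))) .nil)) 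
(.lf (nat_lit 223153) (.g (nat_lit 2510) (.e (nat_lit 98320) (nat_lit 17) (.e (nat_lit 7593) (nat_lit 407) (.e (nat_lit 73753) (nat_lit 8) (.e (nat_lit 557065) (nat_lit 9) (.e (nat_lit 309) (nat_lit 23) (.e (nat_lit 352315) (nat_lit 23) .nil)))))) (.g (nat_lit 4) .nil .nil))))) (.nd (nat_lit 4) (.nd (nat_lit 5) 
(.lf (nat_lit 223113) (.g (nat_lit 3395) (.e (nat_lit 98320) (nat_lit 17) (.e (nat_lit 7591) (nat_lit 407) (.e (nat_lit 73753) (nat_lit 8) (.e (nat_lit 557087) (nat_lit 11) (.e (nat_lit 24628) (nat_lit 9) (.e (nat_lit 336019) (nat_lit 3) .nil)))))) (.g (nat_lit 0) .nil .nil))) 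
(.lf (nat_lit 223145) (.g (nat_lit 1219) (.e (nat_lit 98320) (nat_lit 17) (.e (nat_lit 7593) (nat_lit 407) (.e (nat_lit 73746) (nat_lit 3) (.e (nat_lit 516105) (nat_lit 0) (.e (nat_lit 7562) (nat_lit 402) .nil))))) .nil))) (.nd (nat_lit 5) 
(.lf (nat_lit 223129) (.g (nat_lit 2666) (.e (nat_lit 98320) (nat_lit 17) (.e (nat_lit 7591) (nat_lit 407) (.e (nat_lit 73755) (nat_lit 8) (.e (nat_lit 557066) (nat_lit 9) (.e (nat_lit 334) (nat_lit 26) (.e (nat_lit 376869) (nat_lit 23) .nil)))))) (.g (nat_lit 0) .nil .nil))) 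
(.lf (nat_lit 223161) (.g (nat_lit 2138) (.e (nat_lit 98320) (nat_lit 17) (.e (nat_lit 7593) (nat_lit 407) (.e (nat_lit 73753) (nat_lit 8) (.e (nat_lit 557067) (nat_lit 9) (.e (nat_lit 7936) (nat_lit 23) (.e (nat_lit 352315) (nat_lit 23) .nil)))))) (.g (nat_lit 4) .nil .nil)))))) (.nd (nat_lit 3) (.nd (nat_lit 4) (.nd (nat_lit 5) 
(.lf (nat_lit 223109) (.g (nat_lit 1505) (.e (nat_lit 98320) (nat_lit 17) (.e (nat_lit 7591) (nat_lit 407) (.e (nat_lit 73753) (nat_lit 8) (.e (nat_lit 557073) (nat_lit 9) (.e (nat_lit 7936) (nat_lit 23) .nil))))) .nil)) 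
(.lf (nat_lit 223141) (.g (nat_lit 386) (.e (nat_lit 98320) (nat_lit 17) (.e (nat_lit 7593) (nat_lit 407) (.e (nat_lit 73746) (nat_lit 3) .nil))) .nil))) (.nd (nat_lit 5) 
(.lf (nat_lit 223125) (.g (nat_lit 1661) (.e (nat_lit 98320) (nat_lit 17) (.e (nat_lit 7591) (nat_lit 407) (.e (nat_lit 73755) (nat_lit 8) (.e (nat_lit 557065) (nat_lit 9) (.e (nat_lit 315) (nat_lit 23) .nil))))) .nil)) 
(.lf (nat_lit 223157) (.g (nat_lit 2796) (.e (nat_lit 98320) (nat_lit 17) (.e (nat_lit 7593) (nat_lit 407) (.e (nat_lit 73753) (nat_lit 8) (.e (nat_lit 557066) (nat_lit 9) (.e (nat_lit 314) (nat_lit 23) (.e (nat_lit 352313) (nat_lit 23) .nil)))))) (.g (nat_lit 0) .nil .nil))))) (.nd (nat_lit 4) (.nd (nat_lit 5) 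
(.lf (nat_lit 223117) (.g (nat_lit 2099) (.e (nat_lit 98320) (nat_lit 17) (.e (nat_lit 7591) (nat_lit 407) (.e (nat_lit 73754) (nat_lit 8) (.e (nat_lit 557070) (nat_lit 9) (.e (nat_lit 7936) (nat_lit 23) (.e (nat_lit 352315) (nat_lit 23) .nil)))))) (.g (nat_lit 4) .nil .nil))) 
(.lf (nat_lit 223149) (.g (nat_lit 3648) (.e (nat_lit 98320) (nat_lit 17) (.e (nat_lit 7593) (nat_lit 407) (.e (nat_lit 73746) (nat_lit 3) (.e (nat_lit 516179) (nat_lit 15) (.e (nat_lit 475210) (nat_lit 41) (.e (nat_lit 720640) (nat_lit 3) .nil)))))) (.g (nat_lit 5) .nil .nil)))) (.nd (nat_lit 5) 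
(.lf (nat_lit 223133) (.g (nat_lit 1896) (.e (nat_lit 98320) (nat_lit 17) (.e (nat_lit 7591) (nat_lit 407) (.e (nat_lit 73755) (nat_lit 8) (.e (nat_lit 557070) (nat_lit 9) (.e (nat_lit 313) (nat_lit 23) (.e (nat_lit 352315) (nat_lit 23) .nil)))))) (.g (nat_lit 4) .nil .nil))) 
(.lf (nat_lit 223165) (.g (nat_lit 1828) (.e (nat_lit 98320) (nat_lit 17) (.e (nat_lit 7593) (nat_lit 407) (.e (nat_lit 73753) (nat_lit 8) (.e (nat_lit 557070) (nat_lit 9) (.e (nat_lit 7936) (nat_lit 23) (.e (nat_lit 352313) (nat_lit 23) .nil)))))) (.g (nat_lit 4) .nil .nil))))))) (.nd (nat_lit 2) (.nd (nat_lit 3) (.nd (nat_lit 4) (.nd (nat_lit 5) 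
(.lf (nat_lit 223107) (.g (nat_lit 1731) (.e (nat_lit 98320) (nat_lit 17) (.e (nat_lit 7591) (nat_lit 407) (.e (nat_lit 73753) (nat_lit 8) (.e (nat_lit 557072) (nat_lit 9) (.e (nat_lit 7936) (nat_lit 21) .nil))))) .nil)) 
(.lf (nat_lit 223139) (.g (nat_lit 3347) (.e (nat_lit 98320) (nat_lit 17) (.e (nat_lit 7591) (nat_lit 407) (.e (nat_lit 73755) (nat_lit 8) (.e (nat_lit 557087) (nat_lit 11) (.e (nat_lit 24628) (nat_lit 9) (.e (nat_lit 336019) (nat_lit 3) .nil)))))) (.g (nat_lit 0) .nil .nil)))) (.nd (nat_lit 5) 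
(.lf (nat_lit 223123) (.g (nat_lit 1282) (.e (nat_lit 98320) (nat_lit 17) (.e (nat_lit 7591) (nat_lit 407) (.e (nat_lit 73754) (nat_lit 8) (.e (nat_lit 564992) (nat_lit 9) .nil)))) .nil)) 
(.lf (nat_lit 223155) (.g (nat_lit 3617) (.e (nat_lit 98320) (nat_lit 17) (.e (nat_lit 7593) (nat_lit 407) (.e (nat_lit 73753) (nat_lit 8) (.e (nat_lit 557065) (nat_lit 9) (.e (nat_lit 334) (nat_lit 26) (.e (nat_lit 376869) (nat_lit 23) .nil)))))) (.g (nat_lit 6) .nil .nil))))) (.nd (nat_lit 4) (.nd (nat_lit 5) 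
(.lf (nat_lit 223115) (.g (nat_lit 348) (.e (nat_lit 98320) (nat_lit 17) (.e (nat_lit 7591) (nat_lit 407) (.e (nat_lit 73754) (nat_lit 8) .nil))) .nil)) 
(.lf (nat_lit 223147) (.g (nat_lit 2160) (.e (nat_lit 98320) (nat_lit 17) (.e (nat_lit 7593) (nat_lit 407) (.e (nat_lit 73746) (nat_lit 3) (.e (nat_lit 516139) (nat_lit 7) (.e (nat_lit 409623) (nat_lit 10) (.e (nat_lit 5293) (nat_lit 298) (.e (nat_lit 1250) (nat_lit 92) .nil))))))) (.g (nat_lit 4) .nil .nil)))) (.nd (nat_lit 5) 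
(.lf (nat_lit 223131) (.g (nat_lit 733) (.e (nat_lit 98320) (nat_lit 17) (.e (nat_lit 7591) (nat_lit 407) (.e (nat_lit 73755) (nat_lit 8) (.e (nat_lit 557068) (nat_lit 9) .nil)))) .nil)) 
(.lf (nat_lit 223163) (.g (nat_lit 1706) (.e (nat_lit 98320) (nat_lit 17) (.e (nat_lit 7593) (nat_lit 407) (.e (nat_lit 73753) (nat_lit 8) (.e (nat_lit 557070) (nat_lit 9) (.e (nat_lit 7936) (nat_lit 21) .nil))))) .nil))))) (.nd (nat_lit 3) (.nd (nat_lit 4) (.nd (nat_lit 5) 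
(.lf (nat_lit 223111) (.g (nat_lit 1311) (.e (nat_lit 98320) (nat_lit 17) (.e (nat_lit 7591) (nat_lit 407) (.e (nat_lit 73753) (nat_lit 8) (.e (nat_lit 557087) (nat_lit 11) (.e (nat_lit 24625) (nat_lit 9) .nil))))) .nil)) 
(.lf (nat_lit 223143) (.g (nat_lit 899) (.e (nat_lit 98320) (nat_lit 17) (.e (nat_lit 7593) (nat_lit 407) (.e (nat_lit 73746) (nat_lit 3) (.e (nat_lit 516100) (nat_lit 0) .nil)))) .nil))) (.nd (nat_lit 5) 
(.lf (nat_lit 223127) (.g (nat_lit 2686) (.e (nat_lit 98320) (nat_lit 17) (.e (nat_lit 7591) (nat_lit 407) (.e (nat_lit 73755) (nat_lit 8) (.e (nat_lit 557066) (nat_lit 9) (.e (nat_lit 314) (nat_lit 23) (.e (nat_lit 352313) (nat_lit 23) .nil)))))) (.g (nat_lit 0) .nil .nil))) 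
(.lf (nat_lit 223159) (.g (nat_lit 2780) (.e (nat_lit 98320) (nat_lit 17) (.e (nat_lit 7593) (nat_lit 407) (.e (nat_lit 73753) (nat_lit 8) (.e (nat_lit 557066) (nat_lit 9) (.e (nat_lit 334) (nat_lit 26) (.e (nat_lit 376869) (nat_lit 23) .nil)))))) (.g (nat_lit 0) .nil .nil))))) (.nd (nat_lit 4) (.nd (nat_lit 5) 
(.lf (nat_lit 223119) (.g (nat_lit 2113) (.e (nat_lit 98320) (nat_lit 17) (.e (nat_lit 7591) (nat_lit 407) (.e (nat_lit 73754) (nat_lit 8) (.e (nat_lit 557070) (nat_lit 9) (.e (nat_lit 333) (nat_lit 26) (.e (nat_lit 376869) (nat_lit 23) .nil)))))) (.g (nat_lit 4) .nil .nil))) 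
(.lf (nat_lit 223151) (.g (nat_lit 383) (.e (nat_lit 98320) (nat_lit 17) (.e (nat_lit 7593) (nat_lit 407) (.e (nat_lit 73753) (nat_lit 8) .nil))) .nil))) (.nd (nat_lit 5) 
(.lf (nat_lit 223135) (.g (nat_lit 1492) (.e (nat_lit 98320) (nat_lit 17) (.e (nat_lit 7591) (nat_lit 407) (.e (nat_lit 73755) (nat_lit 8) (.e (nat_lit 557070) (nat_lit 9) (.e (nat_lit 7936) (nat_lit 26) .nil))))) .nil)) 
(.lf (nat_lit 223167) (.g (nat_lit 1985) (.e (nat_lit 98320) (nat_lit 17) (.e (nat_lit 7593) (nat_lit 407) (.e (nat_lit 73753) (nat_lit 8) (.e (nat_lit 557070) (nat_lit 9) (.e (nat_lit 7936) (nat_lit 26) (.e (nat_lit 376869) (nat_lit 23) .nil)))))) (.g (nat_lit 4) .nil .nil)))))))))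

noncomputable def tv2927 : DT := (.nd (nat_lit 0) (.nd (nat_lit 1) (.nd (nat_lit 2) (.nd (nat_lit 3) (.nd (nat_lit 4) (.nd (nat_lit 5) 
(.lf (nat_lit 223168) (.g (nat_lit 1198) (.e (nat_lit 98320) (nat_lit 17) (.e (nat_lit 7593) (nat_lit 407) (.e (nat_lit 73753) (nat_lit 8) (.e (nat_lit 557071) (nat_lit 9) .nil)))) .nil)) 
(.lf (nat_lit 223200) (.g (nat_lit 419) (.e (nat_lit 98320) (nat_lit 17) (.e (nat_lit 7593) (nat_lit 407) (.e (nat_lit 73755) (nat_lit 8) .nil))) .nil))) (.nd (nat_lit 5) 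
(.lf (nat_lit 223184) (.g (nat_lit 1267) (.e (nat_lit 98320) (nat_lit 17) (.e (nat_lit 7593) (nat_lit 407) (.e (nat_lit 73754) (nat_lit 8) (.e (nat_lit 557068) (nat_lit 9) .nil)))) .nil)) 
(.lf (nat_lit 223216) (.g (nat_lit 1741) (.e (nat_lit 98320) (nat_lit 17) (.e (nat_lit 7593) (nat_lit 407) (.e (nat_lit 73755) (nat_lit 8) (.e (nat_lit 557087) (nat_lit 11) (.e (nat_lit 24637) (nat_lit 9) .nil))))) .nil)))) (.nd (nat_lit 4) (.nd (nat_lit 5) 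
(.lf (nat_lit 223176) (.g (nat_lit 1123) (.e (nat_lit 98320) (nat_lit 17) (.e (nat_lit 7593) (nat_lit 407) (.e (nat_lit 73754) (nat_lit 8) (.e (nat_lit 557064) (nat_lit 9) .nil)))) .nil)) 
(.lf (nat_lit 223208) (.g (nat_lit 2076) (.e (nat_lit 98320) (nat_lit 17) (.e (nat_lit 7593) (nat_lit 407) (.e (nat_lit 73755) (nat_lit 8) (.e (nat_lit 557070) (nat_lit 9) (.e (nat_lit 313) (nat_lit 23) .nil))))) .nil))) (.nd (nat_lit 5) 
(.lf (nat_lit 223192) (.g (nat_lit 2035) (.e (nat_lit 98320) (nat_lit 17) (.e (nat_lit 7593) (nat_lit 407) (.e (nat_lit 73754) (nat_lit 8) (.e (nat_lit 557072) (nat_lit 9) (.e (nat_lit 7936) (nat_lit 23) .nil))))) .nil)) 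
(.lf (nat_lit 223224) (.g (nat_lit 778) (.e (nat_lit 98323) (nat_lit 17) (.e (nat_lit 2400) (nat_lit 157) (.e (nat_lit 7236) (nat_lit 382) (.e (nat_lit 1294) (nat_lit 96) .nil)))) .nil))))) (.nd (nat_lit 3) (.nd (nat_lit 4) (.nd (nat_lit 5) 
(.lf (nat_lit 223172) (.g (nat_lit 3515) (.e (nat_lit 98320) (nat_lit 17) (.e (nat_lit 7593) (nat_lit 407) (.e (nat_lit 73753) (nat_lit 8) (.e (nat_lit 557087) (nat_lit 11) (.e (nat_lit 24628) (nat_lit 9) (.e (nat_lit 336019) (nat_lit 3) .nil)))))) (.g (nat_lit 0) .nil .nil))) 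
(.lf (nat_lit 223204) (.g (nat_lit 2694) (.e (nat_lit 98320) (nat_lit 17) (.e (nat_lit 7593) (nat_lit 407) (.e (nat_lit 73755) (nat_lit 8) (.e (nat_lit 557066) (nat_lit 9) (.e (nat_lit 334) (nat_lit 26) (.e (nat_lit 376869) (nat_lit 23) .nil)))))) (.g (nat_lit 0) .nil .nil)))) (.nd (nat_lit 5) 
(.lf (nat_lit 223188) (.g (nat_lit 2256) (.e (nat_lit 98320) (nat_lit 17) (.e (nat_lit 7593) (nat_lit 407) (.e (nat_lit 73754) (nat_lit 8) (.e (nat_lit 557070) (nat_lit 9) (.e (nat_lit 7936) (nat_lit 26) .nil))))) .nil)) 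
(.lf (nat_lit 223220) (.g (nat_lit 193) (.e (nat_lit 98323) (nat_lit 17) (.e (nat_lit 2400) (nat_lit 157) (.e (nat_lit 7236) (nat_lit 382) .nil))) .nil)))) (.nd (nat_lit 4) (.nd (nat_lit 5) 
(.lf (nat_lit 223180) (.g (nat_lit 3168) (.e (nat_lit 98320) (nat_lit 17) (.e (nat_lit 7593) (nat_lit 407) (.e (nat_lit 73754) (nat_lit 8) (.e (nat_lit 557065) (nat_lit 9) (.e (nat_lit 334) (nat_lit 26) (.e (nat_lit 376869) (nat_lit 23) .nil)))))) (.g (nat_lit 6) .nil .nil))) 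
(.lf (nat_lit 223212) (.g (nat_lit 1297) (.e (nat_lit 98320) (nat_lit 17) (.e (nat_lit 7593) (nat_lit 407) (.e (nat_lit 73755) (nat_lit 8) (.e (nat_lit 557087) (nat_lit 11) (.e (nat_lit 24625) (nat_lit 9) .nil))))) .nil))) (.nd (nat_lit 5) 
(.lf (nat_lit 223196) (.g (nat_lit 1267) (.e (nat_lit 98320) (nat_lit 17) (.e (nat_lit 7593) (nat_lit 407) (.e (nat_lit 73754) (nat_lit 8) (.e (nat_lit 557076) (nat_lit 9) .nil)))) .nil)) 
(.lf (nat_lit 223228) (.g (nat_lit 1513) (.e (nat_lit 98323) (nat_lit 17) (.e (nat_lit 3724) (nat_lit 227) (.e (nat_lit 778466) (nat_lit 11) (.e (nat_lit 24608) (nat_lit 3) (.e (nat_lit 98365) (nat_lit 26) .nil))))) .nil)))))) (.nd (nat_lit 2) (.nd (nat_lit 3) (.nd (nat_lit 4) (.nd (nat_lit 5) 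
(.lf (nat_lit 223170) (.g (nat_lit 1817) (.e (nat_lit 98320) (nat_lit 17) (.e (nat_lit 7593) (nat_lit 407) (.e (nat_lit 73753) (nat_lit 8) (.e (nat_lit 557074) (nat_lit 9) (.e (nat_lit 7936) (nat_lit 23) .nil))))) .nil)) 
(.lf (nat_lit 223202) (.g (nat_lit 2708) (.e (nat_lit 98320) (nat_lit 17) (.e (nat_lit 7593) (nat_lit 407) (.e (nat_lit 73755) (nat_lit 8) (.e (nat_lit 557066) (nat_lit 9) (.e (nat_lit 314) (nat_lit 23) (.e (nat_lit 352313) (nat_lit 23) .nil)))))) (.g (nat_lit 0) .nil .nil)))) (.nd (nat_lit 5) 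
(.lf (nat_lit 223186) (.g (nat_lit 2256) (.e (nat_lit 98320) (nat_lit 17) (.e (nat_lit 7593) (nat_lit 407) (.e (nat_lit 73754) (nat_lit 8) (.e (nat_lit 557070) (nat_lit 9) (.e (nat_lit 7936) (nat_lit 23) .nil))))) .nil)) 
(.lf (nat_lit 223218) (.g (nat_lit 2785) (.e (nat_lit 98321) (nat_lit 17) (.e (nat_lit 3771) (nat_lit 229) (.e (nat_lit 794673) (nat_lit 23) (.e (nat_lit 204862) (nat_lit 27) (.e (nat_lit 344117) (nat_lit 21) (.e (nat_lit 516097) (nat_lit 0) (.e (nat_lit 3460) (nat_lit 216) (.e (nat_lit 696064) (nat_lit 13) (.e (nat_lit 1255) (nat_lit 92) .nil))))))))) (.g (nat_lit 6) .nil .nil))))) 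
(.nd (nat_lit 4) (.nd (nat_lit 5) 
(.lf (nat_lit 223178) (.g (nat_lit 1278) (.e (nat_lit 98320) (nat_lit 17) (.e (nat_lit 7593) (nat_lit 407) (.e (nat_lit 73754) (nat_lit 8) (.e (nat_lit 557065) (nat_lit 9) .nil)))) .nil)) 
(.lf (nat_lit 223210) (.g (nat_lit 1339) (.e (nat_lit 98320) (nat_lit 17) (.e (nat_lit 7593) (nat_lit 407) (.e (nat_lit 73755) (nat_lit 8) (.e (nat_lit 557085) (nat_lit 11) .nil)))) .nil))) (.nd (nat_lit 5) 
(.lf (nat_lit 223194) (.g (nat_lit 2481) (.e (nat_lit 98320) (nat_lit 17) (.e (nat_lit 7593) (nat_lit 407) (.e (nat_lit 73754) (nat_lit 8) (.e (nat_lit 557072) (nat_lit 9) (.e (nat_lit 7936) (nat_lit 26) (.e (nat_lit 376867) (nat_lit 23) .nil)))))) (.g (nat_lit 4) .nil .nil))) 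
(.lf (nat_lit 223226) (.g (nat_lit 1615) (.e (nat_lit 98323) (nat_lit 17) (.e (nat_lit 3686) (nat_lit 227) (.e (nat_lit 778465) (nat_lit 11) (.e (nat_lit 24604) (nat_lit 2) (.e (nat_lit 90185) (nat_lit 17) .nil))))) .nil))))) (.nd (nat_lit 3) (.nd (nat_lit 4) (.nd (nat_lit 5) 
(.lf (nat_lit 223174) (.g (nat_lit 1887) (.e (nat_lit 98320) (nat_lit 17) (.e (nat_lit 7593) (nat_lit 407) (.e (nat_lit 73753) (nat_lit 8) (.e (nat_lit 557087) (nat_lit 11) (.e (nat_lit 24637) (nat_lit 9) .nil))))) .nil)) 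
(.lf (nat_lit 223206) (.g (nat_lit 1370) (.e (nat_lit 98320) (nat_lit 17) (.e (nat_lit 7593) (nat_lit 407) (.e (nat_lit 73755) (nat_lit 8) (.e (nat_lit 557068) (nat_lit 9) (.e (nat_lit 7936) (nat_lit 23) .nil))))) .nil))) (.nd (nat_lit 5) 
(.lf (nat_lit 223190) (.g (nat_lit 1345) (.e (nat_lit 98320) (nat_lit 17) (.e (nat_lit 7593) (nat_lit 407) (.e (nat_lit 73754) (nat_lit 8) (.e (nat_lit 557071) (nat_lit 9) .nil)))) .nil)) 
(.lf (nat_lit 223222) (.g (nat_lit 3519) (.e (nat_lit 98323) (nat_lit 17) (.e (nat_lit 2400) (nat_lit 157) (.e (nat_lit 7236) (nat_lit 382) (.e (nat_lit 1199) (nat_lit 88) (.e (nat_lit 65571) (nat_lit 3) (.e (nat_lit 98370) (nat_lit 28) (.e (nat_lit 450304) (nat_lit 3) .nil))))))) (.g (nat_lit 6) .nil .nil))))) (.nd (nat_lit 4) (.nd (nat_lit 5) 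
(.lf (nat_lit 223182) (.g (nat_lit 2303) (.e (nat_lit 98320) (nat_lit 17) (.e (nat_lit 7593) (nat_lit 407) (.e (nat_lit 73754) (nat_lit 8) (.e (nat_lit 557066) (nat_lit 9) (.e (nat_lit 334) (nat_lit 26) (.e (nat_lit 376867) (nat_lit 23) .nil)))))) (.g (nat_lit 4) .nil .nil))) 
(.lf (nat_lit 223214) (.g (nat_lit 3360) (.e (nat_lit 98320) (nat_lit 17) (.e (nat_lit 7593) (nat_lit 407) (.e (nat_lit 73755) (nat_lit 8) (.e (nat_lit 557087) (nat_lit 11) (.e (nat_lit 24628) (nat_lit 9) (.e (nat_lit 336019) (nat_lit 3) .nil)))))) (.g (nat_lit 0) .nil .nil)))) (.nd (nat_lit 5) 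
(.lf (nat_lit 223198) (.g (nat_lit 1408) (.e (nat_lit 98320) (nat_lit 17) (.e (nat_lit 7593) (nat_lit 407) (.e (nat_lit 73754) (nat_lit 8) (.e (nat_lit 564992) (nat_lit 9) .nil)))) .nil)) 
(.lf (nat_lit 223230) (.g (nat_lit 2160) (.e (nat_lit 98323) (nat_lit 17) (.e (nat_lit 6989) (nat_lit 377) (.e (nat_lit 1361) (nat_lit 102) (.e (nat_lit 286733) (nat_lit 2) (.e (nat_lit 90172) (nat_lit 14) (.e (nat_lit 180278) (nat_lit 32) (.e (nat_lit 1253) (nat_lit 92) .nil))))))) (.g (nat_lit 4) .nil .nil)))))))) 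
(.nd (nat_lit 1) (.nd (nat_lit 2) (.nd (nat_lit 3) (.nd (nat_lit 4) (.nd (nat_lit 5) 
(.lf (nat_lit 223169) (.g (nat_lit 1516) (.e (nat_lit 98320) (nat_lit 17) (.e (nat_lit 7593) (nat_lit 407) (.e (nat_lit 73753) (nat_lit 8) (.e (nat_lit 557072) (nat_lit 9) (.e (nat_lit 7936) (nat_lit 23) .nil))))) .nil)) 
(.lf (nat_lit 223201) (.g (nat_lit 1858) (.e (nat_lit 98320) (nat_lit 17) (.e (nat_lit 7593) (nat_lit 407) (.e (nat_lit 73755) (nat_lit 8) (.e (nat_lit 557065) (nat_lit 9) (.e (nat_lit 309) (nat_lit 23) .nil))))) .nil))) (.nd (nat_lit 5) 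
(.lf (nat_lit 223185) (.g (nat_lit 2256) (.e (nat_lit 98320) (nat_lit 17) (.e (nat_lit 7593) (nat_lit 407) (.e (nat_lit 73754) (nat_lit 8) (.e (nat_lit 557070) (nat_lit 9) (.e (nat_lit 7936) (nat_lit 21) .nil))))) .nil)) 
(.lf (nat_lit 223217) (.g (nat_lit 1892) (.e (nat_lit 98321) (nat_lit 17) (.e (nat_lit 3651) (nat_lit 227) (.e (nat_lit 778462) (nat_lit 11) (.e (nat_lit 24608) (nat_lit 3) (.e (nat_lit 98370) (nat_lit 28) .nil))))) .nil)))) (.nd (nat_lit 4) (.nd (nat_lit 5) 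
(.lf (nat_lit 223177) (.g (nat_lit 1579) (.e (nat_lit 98320) (nat_lit 17) (.e (nat_lit 7593) (nat_lit 407) (.e (nat_lit 73754) (nat_lit 8) (.e (nat_lit 557064) (nat_lit 9) (.e (nat_lit 313) (nat_lit 23) .nil))))) .nil)) 
(.lf (nat_lit 223209) (.g (nat_lit 1906) (.e (nat_lit 98320) (nat_lit 17) (.e (nat_lit 7593) (nat_lit 407) (.e (nat_lit 73755) (nat_lit 8) (.e (nat_lit 557070) (nat_lit 9) (.e (nat_lit 7936) (nat_lit 23) .nil))))) .nil))) (.nd (nat_lit 5) 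
(.lf (nat_lit 223193) (.g (nat_lit 2035) (.e (nat_lit 98320) (nat_lit 17) (.e (nat_lit 7593) (nat_lit 407) (.e (nat_lit 73754) (nat_lit 8) (.e (nat_lit 557072) (nat_lit 9) (.e (nat_lit 7936) (nat_lit 26) .nil))))) .nil)) 
(.lf (nat_lit 223225) (.g (nat_lit 780) (.e (nat_lit 98323) (nat_lit 17) (.e (nat_lit 2400) (nat_lit 157) (.e (nat_lit 7236) (nat_lit 382) (.e (nat_lit 1297) (nat_lit 96) .nil)))) .nil))))) (.nd (nat_lit 3) (.nd (nat_lit 4) (.nd (nat_lit 5) 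
(.lf (nat_lit 223173) (.g (nat_lit 2241) (.e (nat_lit 98320) (nat_lit 17) (.e (nat_lit 7593) (nat_lit 407) (.e (nat_lit 73753) (nat_lit 8) (.e (nat_lit 557087) (nat_lit 11) (.e (nat_lit 24634) (nat_lit 9) (.e (nat_lit 336023) (nat_lit 3) .nil)))))) (.g (nat_lit 0) .nil .nil))) 
(.lf (nat_lit 223205) (.g (nat_lit 2048) (.e (nat_lit 98320) (nat_lit 17) (.e (nat_lit 7593) (nat_lit 407) (.e (nat_lit 73755) (nat_lit 8) (.e (nat_lit 557067) (nat_lit 9) (.e (nat_lit 7936) (nat_lit 21) .nil))))) .nil))) (.nd (nat_lit 5) 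
(.lf (nat_lit 223189) (.g (nat_lit 2409) (.e (nat_lit 98320) (nat_lit 17) (.e (nat_lit 7593) (nat_lit 407) (.e (nat_lit 73754) (nat_lit 8) (.e (nat_lit 557070) (nat_lit 9) (.e (nat_lit 7936) (nat_lit 26) (.e (nat_lit 376869) (nat_lit 23) .nil)))))) (.g (nat_lit 4) .nil .nil))) 
(.lf (nat_lit 223221) (.g (nat_lit 1290) (.e (nat_lit 98323) (nat_lit 17) (.e (nat_lit 2400) (nat_lit 157) (.e (nat_lit 7236) (nat_lit 382) (.e (nat_lit 1199) (nat_lit 88) (.e (nat_lit 65569) (nat_lit 3) .nil))))) .nil)))) (.nd (nat_lit 4) (.nd (nat_lit 5) 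
(.lf (nat_lit 223181) (.g (nat_lit 2097) (.e (nat_lit 98320) (nat_lit 17) (.e (nat_lit 7593) (nat_lit 407) (.e (nat_lit 73754) (nat_lit 8) (.e (nat_lit 557066) (nat_lit 9) (.e (nat_lit 314) (nat_lit 23) (.e (nat_lit 352315) (nat_lit 23) .nil)))))) (.g (nat_lit 4) .nil .nil))) 
(.lf (nat_lit 223213) (.g (nat_lit 1671) (.e (nat_lit 98320) (nat_lit 17) (.e (nat_lit 7593) (nat_lit 407) (.e (nat_lit 73755) (nat_lit 8) (.e (nat_lit 557087) (nat_lit 11) (.e (nat_lit 24627) (nat_lit 9) .nil))))) .nil))) (.nd (nat_lit 5) 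
(.lf (nat_lit 223197) (.g (nat_lit 1267) (.e (nat_lit 98320) (nat_lit 17) (.e (nat_lit 7593) (nat_lit 407) (.e (nat_lit 73754) (nat_lit 8) (.e (nat_lit 557077) (nat_lit 9) .nil)))) .nil)) 
(.lf (nat_lit 223229) (.g (nat_lit 361) (.e (nat_lit 98323) (nat_lit 17) (.e (nat_lit 6989) (nat_lit 377) (.e (nat_lit 1361) (nat_lit 102) .nil))) .nil)))))) (.nd (nat_lit 2) (.nd (nat_lit 3) (.nd (nat_lit 4) (.nd (nat_lit 5) 
(.lf (nat_lit 223171) (.g (nat_lit 1951) (.e (nat_lit 98320) (nat_lit 17) (.e (nat_lit 7593) (nat_lit 407) (.e (nat_lit 73753) (nat_lit 8) (.e (nat_lit 557081) (nat_lit 9) (.e (nat_lit 316) (nat_lit 23) (.e (nat_lit 352313) (nat_lit 23) .nil)))))) (.g (nat_lit 4) .nil .nil))) 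
(.lf (nat_lit 223203) (.g (nat_lit 2977) (.e (nat_lit 98320) (nat_lit 17) (.e (nat_lit 7593) (nat_lit 407) (.e (nat_lit 73755) (nat_lit 8) (.e (nat_lit 557066) (nat_lit 9) (.e (nat_lit 314) (nat_lit 23) (.e (nat_lit 352315) (nat_lit 23) .nil)))))) (.g (nat_lit 0) .nil .nil)))) (.nd (nat_lit 5) 
(.lf (nat_lit 223187) (.g (nat_lit 2267) (.e (nat_lit 98320) (nat_lit 17) (.e (nat_lit 7593) (nat_lit 407) (.e (nat_lit 73754) (nat_lit 8) (.e (nat_lit 557070) (nat_lit 9) (.e (nat_lit 7936) (nat_lit 23) (.e (nat_lit 352313) (nat_lit 23) .nil)))))) (.g (nat_lit 4) .nil .nil))) 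
(.lf (nat_lit 223219) (.g (nat_lit 714) (.e (nat_lit 98323) (nat_lit 17) (.e (nat_lit 2397) (nat_lit 157) (.e (nat_lit 7236) (nat_lit 382) (.e (nat_lit 1294) (nat_lit 96) .nil)))) .nil)))) (.nd (nat_lit 4) (.nd (nat_lit 5) 
(.lf (nat_lit 223179) (.g (nat_lit 3156) (.e (nat_lit 98320) (nat_lit 17) (.e (nat_lit 7593) (nat_lit 407) (.e (nat_lit 73754) (nat_lit 8) (.e (nat_lit 557065) (nat_lit 9) (.e (nat_lit 334) (nat_lit 26) (.e (nat_lit 376867) (nat_lit 23) .nil)))))) (.g (nat_lit 6) .nil .nil))) 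
(.lf (nat_lit 223211) (.g (nat_lit 2158) (.e (nat_lit 98320) (nat_lit 17) (.e (nat_lit 7593) (nat_lit 407) (.e (nat_lit 73755) (nat_lit 8) (.e (nat_lit 557085) (nat_lit 11) (.e (nat_lit 24638) (nat_lit 9) .nil))))) .nil))) (.nd (nat_lit 5) 
(.lf (nat_lit 223195) (.g (nat_lit 1738) (.e (nat_lit 98320) (nat_lit 17) (.e (nat_lit 7593) (nat_lit 407) (.e (nat_lit 73754) (nat_lit 8) (.e (nat_lit 557073) (nat_lit 9) (.e (nat_lit 7936) (nat_lit 26) .nil))))) .nil)) 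
(.lf (nat_lit 223227) (.g (nat_lit 1496) (.e (nat_lit 98323) (nat_lit 17) (.e (nat_lit 3720) (nat_lit 227) (.e (nat_lit 778466) (nat_lit 11) (.e (nat_lit 24608) (nat_lit 3) (.e (nat_lit 98365) (nat_lit 26) .nil))))) .nil))))) (.nd (nat_lit 3) (.nd (nat_lit 4) (.nd (nat_lit 5) 
(.lf (nat_lit 223175) (.g (nat_lit 454) (.e (nat_lit 98320) (nat_lit 17) (.e (nat_lit 7593) (nat_lit 407) (.e (nat_lit 73754) (nat_lit 8) .nil))) .nil)) 
(.lf (nat_lit 223207) (.g (nat_lit 1370) (.e (nat_lit 98320) (nat_lit 17) (.e (nat_lit 7593) (nat_lit 407) (.e (nat_lit 73755) (nat_lit 8) (.e (nat_lit 557068) (nat_lit 9) (.e (nat_lit 7936) (nat_lit 26) .nil))))) .nil))) (.nd (nat_lit 5) 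
(.lf (nat_lit 223191) (.g (nat_lit 2077) (.e (nat_lit 98320) (nat_lit 17) (.e (nat_lit 7593) (nat_lit 407) (.e (nat_lit 73754) (nat_lit 8) (.e (nat_lit 557072) (nat_lit 9) (.e (nat_lit 290) (nat_lit 21) .nil))))) .nil)) 
(.lf (nat_lit 223223) (.g (nat_lit 780) (.e (nat_lit 98323) (nat_lit 17) (.e (nat_lit 2400) (nat_lit 157) (.e (nat_lit 7236) (nat_lit 382) (.e (nat_lit 1208) (nat_lit 89) .nil)))) .nil)))) (.nd (nat_lit 4) (.nd (nat_lit 5) 
(.lf (nat_lit 223183) (.g (nat_lit 2343) (.e (nat_lit 98320) (nat_lit 17) (.e (nat_lit 7593) (nat_lit 407) (.e (nat_lit 73754) (nat_lit 8) (.e (nat_lit 557066) (nat_lit 9) (.e (nat_lit 334) (nat_lit 26) (.e (nat_lit 376869) (nat_lit 23) .nil)))))) (.g (nat_lit 4) .nil .nil))) 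
(.lf (nat_lit 223215) (.g (nat_lit 2086) (.e (nat_lit 98320) (nat_lit 17) (.e (nat_lit 7593) (nat_lit 407) (.e (nat_lit 73755) (nat_lit 8) (.e (nat_lit 557087) (nat_lit 11) (.e (nat_lit 24634) (nat_lit 9) (.e (nat_lit 336023) (nat_lit 3) .nil)))))) (.g (nat_lit 0) .nil .nil)))) (.nd (nat_lit 5) 
(.lf (nat_lit 223199) (.g (nat_lit 1162) (.e (nat_lit 98320) (nat_lit 17) (.e (nat_lit 7593) (nat_lit 407) (.e (nat_lit 73754) (nat_lit 8) (.e (nat_lit 557085) (nat_lit 11) .nil)))) .nil)) 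
(.lf (nat_lit 223231) (.g (nat_lit 2244) (.e (nat_lit 98323) (nat_lit 17) (.e (nat_lit 6989) (nat_lit 377) (.e (nat_lit 1374) (nat_lit 104) (.e (nat_lit 303118) (nat_lit 3) .nil)))) .nil))))))))

noncomputable def tv2928 : DT := (.nd (nat_lit 0) (.nd (nat_lit 1) (.nd (nat_lit 2) (.nd (nat_lit 3) (.nd (nat_lit 4) (.nd (nat_lit 5) (.nd (nat_lit 6) 
(.lf (nat_lit 223232) (.g (nat_lit 1974) (.e (nat_lit 98323) (nat_lit 17) (.e (nat_lit 6989) (nat_lit 377) (.e (nat_lit 2777) (nat_lit 178) (.e (nat_lit 286733) (nat_lit 2) .nil)))) .nil)) 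
(.lf (nat_lit 223296) (.g (nat_lit 2766) (.e (nat_lit 98325) (nat_lit 17) (.e (nat_lit 6986) (nat_lit 377) (.e (nat_lit 2819) (nat_lit 181) (.e (nat_lit 319232) (nat_lit 2) .nil)))) .nil))) (.nd (nat_lit 6) 
(.lf (nat_lit 223264) (.g (nat_lit 2269) (.e (nat_lit 98325) (nat_lit 17) (.e (nat_lit 3614) (nat_lit 226) (.e (nat_lit 770073) (nat_lit 9) (.e (nat_lit 73746) (nat_lit 3) (.e (nat_lit 516174) (nat_lit 14) (.e (nat_lit 474880) (nat_lit 3) .nil)))))) (.g (nat_lit 5) .nil .nil))) 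
(.lf (nat_lit 223328) (.g (nat_lit 765) (.e (nat_lit 98332) (nat_lit 18) (.e (nat_lit 164325) (nat_lit 230) (.e (nat_lit 163866) (nat_lit 2) .nil))) .nil)))) (.nd (nat_lit 5) (.nd (nat_lit 6) 
(.lf (nat_lit 223248) (.g (nat_lit 1717) (.e (nat_lit 98323) (nat_lit 17) (.e (nat_lit 6989) (nat_lit 377) (.e (nat_lit 2810) (nat_lit 180) (.e (nat_lit 303119) (nat_lit 3) (.e (nat_lit 212736) (nat_lit 28) (.e (nat_lit 352313) (nat_lit 23) .nil)))))) (.g (nat_lit 4) .nil .nil))) 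
(.lf (nat_lit 223312) (.g (nat_lit 1800) (.e (nat_lit 98332) (nat_lit 18) (.e (nat_lit 164179) (nat_lit 154) (.e (nat_lit 57406) (nat_lit 12) (.e (nat_lit 336367) (nat_lit 27) (.e (nat_lit 426542) (nat_lit 29) .nil))))) .nil))) (.nd (nat_lit 6) 
(.lf (nat_lit 223280) (.g (nat_lit 2482) (.e (nat_lit 98325) (nat_lit 17) (.e (nat_lit 3711) (nat_lit 227) (.e (nat_lit 778337) (nat_lit 9) (.e (nat_lit 306) (nat_lit 22) (.e (nat_lit 344117) (nat_lit 21) (.e (nat_lit 516163) (nat_lit 11) (.e (nat_lit 450304) (nat_lit 3) .nil))))))) (.g (nat_lit 6) .nil .nil))) 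
(.lf (nat_lit 223344) (.g (nat_lit 1480) (.e (nat_lit 98332) (nat_lit 18) (.e (nat_lit 164403) (nat_lit 256) (.e (nat_lit 57373) (nat_lit 2) (.e (nat_lit 90170) (nat_lit 13) .nil)))) .nil))))) (.nd (nat_lit 4) (.nd (nat_lit 5) (.nd (nat_lit 6) 
(.lf (nat_lit 223240) (.g (nat_lit 5372) (.e (nat_lit 98323) (nat_lit 17) (.e (nat_lit 6989) (nat_lit 377) (.e (nat_lit 2777) (nat_lit 178) (.e (nat_lit 286735) (nat_lit 3) (.e (nat_lit 98350) (nat_lit 24) (.e (nat_lit 409642) (nat_lit 17) (.e (nat_lit 294931) (nat_lit 3) .nil))))))) (.g (nat_lit 6) .nil .nil))) 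
(.lf (nat_lit 223304) (.g (nat_lit 2005) (.e (nat_lit 106240) (nat_lit 17) (.e (nat_lit 6989) (nat_lit 377) (.e (nat_lit 2777) (nat_lit 178) (.e (nat_lit 286733) (nat_lit 2) .nil)))) .nil))) (.nd (nat_lit 6) 
(.lf (nat_lit 223272) (.g (nat_lit 2419) (.e (nat_lit 98325) (nat_lit 17) (.e (nat_lit 3711) (nat_lit 227) (.e (nat_lit 778334) (nat_lit 9) (.e (nat_lit 306) (nat_lit 22) (.e (nat_lit 344117) (nat_lit 21) (.e (nat_lit 516163) (nat_lit 11) (.e (nat_lit 450304) (nat_lit 3) .nil))))))) (.g (nat_lit 6) .nil .nil))) 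
(.lf (nat_lit 223336) (.g (nat_lit 2248) (.e (nat_lit 98332) (nat_lit 18) (.e (nat_lit 164398) (nat_lit 256) (.e (nat_lit 57371) (nat_lit 2) (.e (nat_lit 90172) (nat_lit 14) (.e (nat_lit 180244) (nat_lit 5) .nil))))) .nil)))) (.nd (nat_lit 5) (.nd (nat_lit 6) 
(.lf (nat_lit 223256) (.g (nat_lit 1137) (.e (nat_lit 98325) (nat_lit 17) (.e (nat_lit 2478) (nat_lit 157) (.e (nat_lit 6400) (nat_lit 339) (.e (nat_lit 57447) (nat_lit 19) (.e (nat_lit 401152) (nat_lit 11) .nil))))) .nil)) 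
(.lf (nat_lit 223320) (.g (nat_lit 1389) (.e (nat_lit 98332) (nat_lit 18) (.e (nat_lit 164182) (nat_lit 154) (.e (nat_lit 57411) (nat_lit 12) (.e (nat_lit 336454) (nat_lit 34) .nil)))) .nil))) (.nd (nat_lit 6) 
(.lf (nat_lit 223288) (.g (nat_lit 1879) (.e (nat_lit 98325) (nat_lit 17) (.e (nat_lit 6986) (nat_lit 377) (.e (nat_lit 2777) (nat_lit 178) (.e (nat_lit 286722) (nat_lit 0) .nil)))) .nil)) 
(.lf (nat_lit 223352) (.g (nat_lit 1683) (.e (nat_lit 98333) (nat_lit 18) (.e (nat_lit 164151) (nat_lit 152) (.e (nat_lit 1056) (nat_lit 81) (.e (nat_lit 1661) (nat_lit 115) (.e (nat_lit 393227) (nat_lit 9) (.e (nat_lit 336152) (nat_lit 9) (.e (nat_lit 336017) (nat_lit 3) .nil))))))) (.g (nat_lit 4) .nil .nil))))))) (.nd (nat_lit 3) (.nd (nat_lit 4) (.nd (nat_lit 5) (.nd (nat_lit 6) 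
(.lf (nat_lit 223236) (.g (nat_lit 1198) (.e (nat_lit 98323) (nat_lit 17) (.e (nat_lit 6989) (nat_lit 377) (.e (nat_lit 2777) (nat_lit 178) (.e (nat_lit 286735) (nat_lit 3) .nil)))) .nil)) 
(.lf (nat_lit 223300) (.g (nat_lit 4040) (.e (nat_lit 98325) (nat_lit 17) (.e (nat_lit 7556) (nat_lit 402) (.e (nat_lit 1638) (nat_lit 114) (.e (nat_lit 385072) (nat_lit 31) (.e (nat_lit 573482) (nat_lit 13) (.e (nat_lit 65604) (nat_lit 9) (.e (nat_lit 336028) (nat_lit 3) .nil))))))) (.g (nat_lit 7) .nil .nil)))) (.nd (nat_lit 6) 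
(.lf (nat_lit 223268) (.g (nat_lit 1122) (.e (nat_lit 98325) (nat_lit 17) (.e (nat_lit 3665) (nat_lit 227) (.e (nat_lit 778462) (nat_lit 11) (.e (nat_lit 24604) (nat_lit 2) (.e (nat_lit 90176) (nat_lit 15) .nil))))) .nil)) 
(.lf (nat_lit 223332) (.g (nat_lit 1883) (.e (nat_lit 98332) (nat_lit 18) (.e (nat_lit 164327) (nat_lit 230) (.e (nat_lit 163907) (nat_lit 12) (.e (nat_lit 426566) (nat_lit 34) (.e (nat_lit 393273) (nat_lit 23) .nil))))) .nil)))) (.nd (nat_lit 5) (.nd (nat_lit 6) 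
(.lf (nat_lit 223252) (.g (nat_lit 582) (.e (nat_lit 98323) (nat_lit 17) (.e (nat_lit 7107) (nat_lit 380) (.e (nat_lit 164271) (nat_lit 221) .nil))) .nil)) 
(.lf (nat_lit 223316) (.g (nat_lit 470) (.e (nat_lit 98332) (nat_lit 18) (.e (nat_lit 164182) (nat_lit 154) (.e (nat_lit 57409) (nat_lit 12) .nil))) .nil))) (.nd (nat_lit 6) 
(.lf (nat_lit 223284) (.g (nat_lit 2079) (.e (nat_lit 98325) (nat_lit 17) (.e (nat_lit 3721) (nat_lit 227) (.e (nat_lit 778464) (nat_lit 11) (.e (nat_lit 24604) (nat_lit 2) (.e (nat_lit 90178) (nat_lit 15) (.e (nat_lit 196352) (nat_lit 3) .nil)))))) (.g (nat_lit 5) .nil .nil))) 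
(.lf (nat_lit 223348) (.g (nat_lit 2641) (.e (nat_lit 98332) (nat_lit 18) (.e (nat_lit 164403) (nat_lit 256) (.e (nat_lit 57373) (nat_lit 2) (.e (nat_lit 90172) (nat_lit 14) (.e (nat_lit 180244) (nat_lit 5) .nil))))) .nil))))) (.nd (nat_lit 4) (.nd (nat_lit 5) (.nd (nat_lit 6) 
(.lf (nat_lit 223244) (.g (nat_lit 1607) (.e (nat_lit 98323) (nat_lit 17) (.e (nat_lit 6989) (nat_lit 377) (.e (nat_lit 2810) (nat_lit 180) (.e (nat_lit 303117) (nat_lit 2) (.e (nat_lit 196627) (nat_lit 9) .nil))))) .nil)) 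
(.lf (nat_lit 223308) (.g (nat_lit 1477) (.e (nat_lit 106240) (nat_lit 17) (.e (nat_lit 6989) (nat_lit 377) (.e (nat_lit 2810) (nat_lit 180) (.e (nat_lit 303119) (nat_lit 3) (.e (nat_lit 204849) (nat_lit 25) .nil))))) .nil))) (.nd (nat_lit 6) 
(.lf (nat_lit 223276) (.g (nat_lit 2107) (.e (nat_lit 98325) (nat_lit 17) (.e (nat_lit 3711) (nat_lit 227) (.e (nat_lit 778337) (nat_lit 9) (.e (nat_lit 231) (nat_lit 21) (.e (nat_lit 336028) (nat_lit 3) (.e (nat_lit 98370) (nat_lit 28) (.e (nat_lit 450304) (nat_lit 3) .nil))))))) (.g (nat_lit 6) .nil .nil))) 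
(.lf (nat_lit 223340) (.g (nat_lit 3867) (.e (nat_lit 98332) (nat_lit 18) (.e (nat_lit 164399) (nat_lit 256) (.e (nat_lit 57372) (nat_lit 2) (.e (nat_lit 90172) (nat_lit 14) (.e (nat_lit 180244) (nat_lit 5) (.e (nat_lit 532515) (nat_lit 3) (.e (nat_lit 114719) (nat_lit 23) .nil))))))) (.g (nat_lit 7) .nil .nil))))) (.nd (nat_lit 5) (.nd (nat_lit 6) 
(.lf (nat_lit 223260) (.g (nat_lit 1976) (.e (nat_lit 98325) (nat_lit 17) (.e (nat_lit 3613) (nat_lit 226) (.e (nat_lit 770072) (nat_lit 8) (.e (nat_lit 65571) (nat_lit 3) (.e (nat_lit 98381) (nat_lit 31) .nil))))) .nil)) 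
(.lf (nat_lit 223324) (.g (nat_lit 1658) (.e (nat_lit 98332) (nat_lit 18) (.e (nat_lit 164182) (nat_lit 154) (.e (nat_lit 57447) (nat_lit 19) (.e (nat_lit 401152) (nat_lit 11) .nil)))) .nil))) (.nd (nat_lit 6) 
(.lf (nat_lit 223292) (.g (nat_lit 431) (.e (nat_lit 98325) (nat_lit 17) (.e (nat_lit 6986) (nat_lit 377) (.e (nat_lit 2781) (nat_lit 178) .nil))) .nil)) 
(.lf (nat_lit 223356) (.g (nat_lit 3174) (.e (nat_lit 98333) (nat_lit 18) (.e (nat_lit 164177) (nat_lit 154) (.e (nat_lit 57379) (nat_lit 3) (.e (nat_lit 98341) (nat_lit 20) (.e (nat_lit 221214) (nat_lit 23) (.e (nat_lit 204861) (nat_lit 26) (.e (nat_lit 336025) (nat_lit 3) .nil))))))) (.g (nat_lit 4) .nil .nil)))))))) 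
(.nd (nat_lit 2) (.nd (nat_lit 3) (.nd (nat_lit 4) (.nd (nat_lit 5) (.nd (nat_lit 6) 
(.lf (nat_lit 223234) (.g (nat_lit 2205) (.e (nat_lit 98323) (nat_lit 17) (.e (nat_lit 6989) (nat_lit 377) (.e (nat_lit 2777) (nat_lit 178) (.e (nat_lit 286734) (nat_lit 3) .nil)))) .nil)) 
(.lf (nat_lit 223298) (.g (nat_lit 1870) (.e (nat_lit 98325) (nat_lit 17) (.e (nat_lit 6986) (nat_lit 377) (.e (nat_lit 2819) (nat_lit 181) (.e (nat_lit 311315) (nat_lit 3) (.e (nat_lit 204866) (nat_lit 28) .nil))))) .nil))) (.nd (nat_lit 6) 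
(.lf (nat_lit 223266) (.g (nat_lit 2270) (.e (nat_lit 98325) (nat_lit 17) (.e (nat_lit 3614) (nat_lit 226) (.e (nat_lit 770073) (nat_lit 9) (.e (nat_lit 73747) (nat_lit 3) (.e (nat_lit 516176) (nat_lit 14) (.e (nat_lit 474880) (nat_lit 3) .nil)))))) (.g (nat_lit 5) .nil .nil))) 
(.lf (nat_lit 223330) (.g (nat_lit 3433) (.e (nat_lit 98332) (nat_lit 18) (.e (nat_lit 164327) (nat_lit 230) (.e (nat_lit 163871) (nat_lit 2) (.e (nat_lit 196656) (nat_lit 11) (.e (nat_lit 16416) (nat_lit 3) .nil))))) .nil)))) (.nd (nat_lit 5) (.nd (nat_lit 6) 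
(.lf (nat_lit 223250) (.g (nat_lit 338) (.e (nat_lit 98323) (nat_lit 17) (.e (nat_lit 7101) (nat_lit 380) (.e (nat_lit 164375) (nat_lit 252) .nil))) .nil)) 
(.lf (nat_lit 223314) (.g (nat_lit 1485) (.e (nat_lit 98332) (nat_lit 18) (.e (nat_lit 164179) (nat_lit 154) (.e (nat_lit 57445) (nat_lit 19) (.e (nat_lit 401152) (nat_lit 11) .nil)))) .nil))) (.nd (nat_lit 6) 
(.lf (nat_lit 223282) (.g (nat_lit 1669) (.e (nat_lit 98325) (nat_lit 17) (.e (nat_lit 3719) (nat_lit 227) (.e (nat_lit 778465) (nat_lit 11) (.e (nat_lit 24604) (nat_lit 2) (.e (nat_lit 90176) (nat_lit 15) .nil))))) .nil)) 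
(.lf (nat_lit 223346) (.g (nat_lit 3213) (.e (nat_lit 98332) (nat_lit 18) (.e (nat_lit 164403) (nat_lit 256) (.e (nat_lit 57373) (nat_lit 2) (.e (nat_lit 90172) (nat_lit 14) (.e (nat_lit 180243) (nat_lit 5) .nil))))) .nil))))) (.nd (nat_lit 4) (.nd (nat_lit 5) (.nd (nat_lit 6) 
(.lf (nat_lit 223242) (.g (nat_lit 387) (.e (nat_lit 98323) (nat_lit 17) (.e (nat_lit 6989) (nat_lit 377) (.e (nat_lit 2810) (nat_lit 180) .nil))) .nil)) 
(.lf (nat_lit 223306) (.g (nat_lit 2225) (.e (nat_lit 106240) (nat_lit 17) (.e (nat_lit 6989) (nat_lit 377) (.e (nat_lit 2777) (nat_lit 178) (.e (nat_lit 286735) (nat_lit 3) (.e (nat_lit 98389) (nat_lit 33) .nil))))) .nil))) (.nd (nat_lit 6) 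
(.lf (nat_lit 223274) (.g (nat_lit 254) (.e (nat_lit 98325) (nat_lit 17) (.e (nat_lit 3711) (nat_lit 227) (.e (nat_lit 778337) (nat_lit 9) .nil))) .nil)) 
(.lf (nat_lit 223338) (.g (nat_lit 2388) (.e (nat_lit 98332) (nat_lit 18) (.e (nat_lit 164398) (nat_lit 256) (.e (nat_lit 57373) (nat_lit 2) (.e (nat_lit 90172) (nat_lit 14) (.e (nat_lit 180243) (nat_lit 5) .nil))))) .nil)))) (.nd (nat_lit 5) (.nd (nat_lit 6) 
(.lf (nat_lit 223258) (.g (nat_lit 1386) (.e (nat_lit 98325) (nat_lit 17) (.e (nat_lit 3459) (nat_lit 216) (.e (nat_lit 688161) (nat_lit 13) (.e (nat_lit 1661) (nat_lit 115) (.e (nat_lit 401152) (nat_lit 11) (.e (nat_lit 352313) (nat_lit 23) .nil)))))) (.g (nat_lit 4) .nil .nil))) 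
(.lf (nat_lit 223322) (.g (nat_lit 1345) (.e (nat_lit 98332) (nat_lit 18) (.e (nat_lit 164182) (nat_lit 154) (.e (nat_lit 57447) (nat_lit 19) (.e (nat_lit 393229) (nat_lit 9) .nil)))) .nil))) (.nd (nat_lit 6) 
(.lf (nat_lit 223290) (.g (nat_lit 1883) (.e (nat_lit 98325) (nat_lit 17) (.e (nat_lit 6986) (nat_lit 377) (.e (nat_lit 2777) (nat_lit 178) (.e (nat_lit 286733) (nat_lit 2) .nil)))) .nil)) 
(.lf (nat_lit 223354) (.g (nat_lit 895) (.e (nat_lit 98333) (nat_lit 18) (.e (nat_lit 164156) (nat_lit 152) (.e (nat_lit 975) (nat_lit 81) (.e (nat_lit 1656) (nat_lit 115) (.e (nat_lit 401152) (nat_lit 11) .nil))))) .nil)))))) (.nd (nat_lit 3) (.nd (nat_lit 4) (.nd (nat_lit 5) (.nd (nat_lit 6) 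
(.lf (nat_lit 223238) (.g (nat_lit 3541) (.e (nat_lit 98323) (nat_lit 17) (.e (nat_lit 6989) (nat_lit 377) (.e (nat_lit 2777) (nat_lit 178) (.e (nat_lit 286735) (nat_lit 3) (.e (nat_lit 98349) (nat_lit 24) (.e (nat_lit 409640) (nat_lit 17) (.e (nat_lit 294931) (nat_lit 3) .nil))))))) (.g (nat_lit 5) .nil .nil))) 
(.lf (nat_lit 223302) (.g (nat_lit 979) (.e (nat_lit 98328) (nat_lit 17) (.e (nat_lit 6986) (nat_lit 377) (.e (nat_lit 2819) (nat_lit 181) .nil))) .nil))) (.nd (nat_lit 6) 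
(.lf (nat_lit 223270) (.g (nat_lit 2024) (.e (nat_lit 98325) (nat_lit 17) (.e (nat_lit 3711) (nat_lit 227) (.e (nat_lit 778334) (nat_lit 9) (.e (nat_lit 231) (nat_lit 21) (.e (nat_lit 336028) (nat_lit 3) (.e (nat_lit 98370) (nat_lit 28) (.e (nat_lit 450304) (nat_lit 3) .nil))))))) (.g (nat_lit 6) .nil .nil))) 
(.lf (nat_lit 223334) (.g (nat_lit 1603) (.e (nat_lit 98332) (nat_lit 18) (.e (nat_lit 164331) (nat_lit 230) (.e (nat_lit 163902) (nat_lit 12) (.e (nat_lit 426479) (nat_lit 27) .nil)))) .nil)))) (.nd (nat_lit 5) (.nd (nat_lit 6) 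
(.lf (nat_lit 223254) (.g (nat_lit 1488) (.e (nat_lit 98324) (nat_lit 17) (.e (nat_lit 3617) (nat_lit 227) (.e (nat_lit 778462) (nat_lit 11) (.e (nat_lit 24608) (nat_lit 3) (.e (nat_lit 98363) (nat_lit 26) .nil))))) .nil)) 
(.lf (nat_lit 223318) (.g (nat_lit 1869) (.e (nat_lit 98332) (nat_lit 18) (.e (nat_lit 164182) (nat_lit 154) (.e (nat_lit 57409) (nat_lit 12) (.e (nat_lit 336456) (nat_lit 34) (.e (nat_lit 483383) (nat_lit 23) .nil))))) .nil))) (.nd (nat_lit 6) 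
(.lf (nat_lit 223286) (.g (nat_lit 1646) (.e (nat_lit 98325) (nat_lit 17) (.e (nat_lit 3765) (nat_lit 229) (.e (nat_lit 794633) (nat_lit 11) (.e (nat_lit 336027) (nat_lit 3) (.e (nat_lit 98369) (nat_lit 28) (.e (nat_lit 450304) (nat_lit 3) .nil)))))) (.g (nat_lit 5) .nil .nil))) 
(.lf (nat_lit 223350) (.g (nat_lit 2638) (.e (nat_lit 98332) (nat_lit 18) (.e (nat_lit 164403) (nat_lit 256) (.e (nat_lit 57378) (nat_lit 3) (.e (nat_lit 98355) (nat_lit 26) (.e (nat_lit 426131) (nat_lit 3) .nil))))) .nil))))) (.nd (nat_lit 4) (.nd (nat_lit 5) (.nd (nat_lit 6) 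
(.lf (nat_lit 223246) (.g (nat_lit 3026) (.e (nat_lit 98323) (nat_lit 17) (.e (nat_lit 6989) (nat_lit 377) (.e (nat_lit 2810) (nat_lit 180) (.e (nat_lit 303117) (nat_lit 2) (.e (nat_lit 196630) (nat_lit 9) (.e (nat_lit 1573) (nat_lit 110) (.e (nat_lit 352313) (nat_lit 23) .nil))))))) (.g (nat_lit 5) .nil .nil))) 
(.lf (nat_lit 223310) (.g (nat_lit 2592) (.e (nat_lit 106240) (nat_lit 17) (.e (nat_lit 7586) (nat_lit 406) (.e (nat_lit 65571) (nat_lit 3) (.e (nat_lit 98350) (nat_lit 24) (.e (nat_lit 409641) (nat_lit 17) .nil))))) .nil))) (.nd (nat_lit 6) 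
(.lf (nat_lit 223278) (.g (nat_lit 1576) (.e (nat_lit 98325) (nat_lit 17) (.e (nat_lit 3711) (nat_lit 227) (.e (nat_lit 778337) (nat_lit 9) (.e (nat_lit 301) (nat_lit 22) (.e (nat_lit 344119) (nat_lit 21) (.e (nat_lit 516176) (nat_lit 14) (.e (nat_lit 474880) (nat_lit 3) .nil))))))) (.g (nat_lit 5) .nil .nil))) 
(.lf (nat_lit 223342) (.g (nat_lit 3781) (.e (nat_lit 98332) (nat_lit 18) (.e (nat_lit 164399) (nat_lit 256) (.e (nat_lit 57373) (nat_lit 2) (.e (nat_lit 90172) (nat_lit 14) (.e (nat_lit 180244) (nat_lit 5) (.e (nat_lit 532515) (nat_lit 3) (.e (nat_lit 114719) (nat_lit 23) .nil))))))) (.g (nat_lit 7) .nil .nil))))) (.nd (nat_lit 5) (.nd (nat_lit 6) 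
(.lf (nat_lit 223262) (.g (nat_lit 2110) (.e (nat_lit 98325) (nat_lit 17) (.e (nat_lit 3613) (nat_lit 226) (.e (nat_lit 770073) (nat_lit 9) (.e (nat_lit 73746) (nat_lit 3) (.e (nat_lit 516176) (nat_lit 14) (.e (nat_lit 474880) (nat_lit 3) .nil)))))) (.g (nat_lit 5) .nil .nil))) 
(.lf (nat_lit 223326) (.g (nat_lit 529) (.e (nat_lit 98332) (nat_lit 18) (.e (nat_lit 164183) (nat_lit 154) (.e (nat_lit 57409) (nat_lit 12) .nil))) .nil))) (.nd (nat_lit 6) 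
(.lf (nat_lit 223294) (.g (nat_lit 2711) (.e (nat_lit 98325) (nat_lit 17) (.e (nat_lit 6986) (nat_lit 377) (.e (nat_lit 2819) (nat_lit 181) (.e (nat_lit 311298) (nat_lit 0) .nil)))) .nil)) 
(.lf (nat_lit 223358) (.g (nat_lit 994) (.e (nat_lit 98333) (nat_lit 18) (.e (nat_lit 164177) (nat_lit 154) (.e (nat_lit 57406) (nat_lit 12) (.e (nat_lit 336454) (nat_lit 34) .nil)))) .nil)))))))) (.nd (nat_lit 1) (.nd (nat_lit 2) (.nd (nat_lit 3) (.nd (nat_lit 4) (.nd (nat_lit 5) (.nd (nat_lit 6) 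
(.lf (nat_lit 223233) (.g (nat_lit 4052) (.e (nat_lit 98323) (nat_lit 17) (.e (nat_lit 6989) (nat_lit 377) (.e (nat_lit 2777) (nat_lit 178) (.e (nat_lit 286733) (nat_lit 2) (.e (nat_lit 90165) (nat_lit 12) (.e (nat_lit 164208) (nat_lit 176) (.e (nat_lit 2777) (nat_lit 178) (.e (nat_lit 286735) (nat_lit 3) .nil)))))))) (.g (nat_lit 5) .nil .nil))) 
(.lf (nat_lit 223297) (.g (nat_lit 1390) (.e (nat_lit 98325) (nat_lit 17) (.e (nat_lit 6986) (nat_lit 377) (.e (nat_lit 2819) (nat_lit 181) (.e (nat_lit 311315) (nat_lit 3) .nil)))) .nil))) (.nd (nat_lit 6) 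
(.lf (nat_lit 223265) (.g (nat_lit 2197) (.e (nat_lit 98325) (nat_lit 17) (.e (nat_lit 3614) (nat_lit 226) (.e (nat_lit 770073) (nat_lit 9) (.e (nat_lit 73746) (nat_lit 3) (.e (nat_lit 516176) (nat_lit 14) (.e (nat_lit 474880) (nat_lit 3) .nil)))))) (.g (nat_lit 5) .nil .nil))) 
(.lf (nat_lit 223329) (.g (nat_lit 989) (.e (nat_lit 98332) (nat_lit 18) (.e (nat_lit 164326) (nat_lit 230) (.e (nat_lit 163903) (nat_lit 12) (.e (nat_lit 426479) (nat_lit 27) .nil)))) .nil)))) (.nd (nat_lit 5) (.nd (nat_lit 6) 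
(.lf (nat_lit 223249) (.g (nat_lit 1672) (.e (nat_lit 98323) (nat_lit 17) (.e (nat_lit 6989) (nat_lit 377) (.e (nat_lit 2810) (nat_lit 180) (.e (nat_lit 303119) (nat_lit 3) (.e (nat_lit 212736) (nat_lit 31) .nil))))) .nil)) 
(.lf (nat_lit 223313) (.g (nat_lit 2101) (.e (nat_lit 98332) (nat_lit 18) (.e (nat_lit 164179) (nat_lit 154) (.e (nat_lit 57407) (nat_lit 12) (.e (nat_lit 336367) (nat_lit 27) (.e (nat_lit 426542) (nat_lit 29) .nil))))) .nil))) (.nd (nat_lit 6) 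
(.lf (nat_lit 223281) (.g (nat_lit 2191) (.e (nat_lit 98325) (nat_lit 17) (.e (nat_lit 3711) (nat_lit 227) (.e (nat_lit 778337) (nat_lit 9) (.e (nat_lit 306) (nat_lit 22) (.e (nat_lit 344117) (nat_lit 21) (.e (nat_lit 516175) (nat_lit 14) (.e (nat_lit 474880) (nat_lit 3) .nil))))))) (.g (nat_lit 6) .nil .nil))) 
(.lf (nat_lit 223345) (.g (nat_lit 2407) (.e (nat_lit 98332) (nat_lit 18) (.e (nat_lit 164403) (nat_lit 256) (.e (nat_lit 57373) (nat_lit 2) (.e (nat_lit 90170) (nat_lit 13) (.e (nat_lit 172067) (nat_lit 3) .nil))))) .nil))))) (.nd (nat_lit 4) (.nd (nat_lit 5) (.nd (nat_lit 6) 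
(.lf (nat_lit 223241) (.g (nat_lit 2095) (.e (nat_lit 98323) (nat_lit 17) (.e (nat_lit 6989) (nat_lit 377) (.e (nat_lit 2779) (nat_lit 178) (.e (nat_lit 286733) (nat_lit 2) (.e (nat_lit 90165) (nat_lit 12) (.e (nat_lit 164208) (nat_lit 176) (.e (nat_lit 2777) (nat_lit 178) (.e (nat_lit 286735) (nat_lit 3) .nil)))))))) (.g (nat_lit 4) .nil .nil))) 
(.lf (nat_lit 223305) (.g (nat_lit 1679) (.e (nat_lit 106240) (nat_lit 17) (.e (nat_lit 6989) (nat_lit 377) (.e (nat_lit 2777) (nat_lit 178) (.e (nat_lit 286735) (nat_lit 3) .nil)))) .nil))) (.nd (nat_lit 6) 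
(.lf (nat_lit 223273) (.g (nat_lit 2122) (.e (nat_lit 98325) (nat_lit 17) (.e (nat_lit 3711) (nat_lit 227) (.e (nat_lit 778334) (nat_lit 9) (.e (nat_lit 306) (nat_lit 22) (.e (nat_lit 344117) (nat_lit 21) (.e (nat_lit 516175) (nat_lit 14) (.e (nat_lit 474880) (nat_lit 3) .nil))))))) (.g (nat_lit 6) .nil .nil))) 
(.lf (nat_lit 223337) (.g (nat_lit 1983) (.e (nat_lit 98332) (nat_lit 18) (.e (nat_lit 164398) (nat_lit 256) (.e (nat_lit 57373) (nat_lit 2) (.e (nat_lit 90170) (nat_lit 13) (.e (nat_lit 172065) (nat_lit 3) .nil))))) .nil)))) (.nd (nat_lit 5) (.nd (nat_lit 6) 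
(.lf (nat_lit 223257) (.g (nat_lit 1401) (.e (nat_lit 98325) (nat_lit 17) (.e (nat_lit 2478) (nat_lit 157) (.e (nat_lit 6401) (nat_lit 339) (.e (nat_lit 57447) (nat_lit 19) (.e (nat_lit 401152) (nat_lit 11) .nil))))) .nil)) 
(.lf (nat_lit 223321) (.g (nat_lit 1997) (.e (nat_lit 98332) (nat_lit 18) (.e (nat_lit 164182) (nat_lit 154) (.e (nat_lit 57411) (nat_lit 12) (.e (nat_lit 336456) (nat_lit 34) (.e (nat_lit 483383) (nat_lit 23) .nil))))) .nil))) (.nd (nat_lit 6) 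
(.lf (nat_lit 223289) (.g (nat_lit 1879) (.e (nat_lit 98325) (nat_lit 17) (.e (nat_lit 6986) (nat_lit 377) (.e (nat_lit 2777) (nat_lit 178) (.e (nat_lit 286728) (nat_lit 0) .nil)))) .nil)) 
(.lf (nat_lit 223353) (.g (nat_lit 1747) (.e (nat_lit 98333) (nat_lit 18) (.e (nat_lit 164151) (nat_lit 152) (.e (nat_lit 1089) (nat_lit 81) (.e (nat_lit 1661) (nat_lit 115) (.e (nat_lit 393227) (nat_lit 9) (.e (nat_lit 336151) (nat_lit 9) (.e (nat_lit 336017) (nat_lit 3) .nil))))))) (.g (nat_lit 4) .nil .nil))))))) (.nd (nat_lit 3) (.nd (nat_lit 4) (.nd (nat_lit 5) (.nd (nat_lit 6) 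
(.lf (nat_lit 223237) (.g (nat_lit 2295) (.e (nat_lit 98323) (nat_lit 17) (.e (nat_lit 6989) (nat_lit 377) (.e (nat_lit 2777) (nat_lit 178) (.e (nat_lit 286735) (nat_lit 3) (.e (nat_lit 98325) (nat_lit 17) .nil))))) .nil)) 
(.lf (nat_lit 223301) (.g (nat_lit 1612) (.e (nat_lit 98327) (nat_lit 17) (.e (nat_lit 3721) (nat_lit 227) (.e (nat_lit 778466) (nat_lit 11) (.e (nat_lit 24604) (nat_lit 2) (.e (nat_lit 90185) (nat_lit 17) .nil))))) .nil))) (.nd (nat_lit 6) 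
(.lf (nat_lit 223269) (.g (nat_lit 1585) (.e (nat_lit 98325) (nat_lit 17) (.e (nat_lit 3711) (nat_lit 227) (.e (nat_lit 778334) (nat_lit 9) (.e (nat_lit 231) (nat_lit 21) (.e (nat_lit 336028) (nat_lit 3) (.e (nat_lit 98369) (nat_lit 28) (.e (nat_lit 450304) (nat_lit 3) .nil))))))) (.g (nat_lit 6) .nil .nil))) 
(.lf (nat_lit 223333) (.g (nat_lit 700) (.e (nat_lit 98332) (nat_lit 18) (.e (nat_lit 164330) (nat_lit 230) (.e (nat_lit 163902) (nat_lit 12) .nil))) .nil)))) (.nd (nat_lit 5) (.nd (nat_lit 6) 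
(.lf (nat_lit 223253) (.g (nat_lit 1661) (.e (nat_lit 98323) (nat_lit 17) (.e (nat_lit 7555) (nat_lit 402) (.e (nat_lit 1636) (nat_lit 114) (.e (nat_lit 385074) (nat_lit 31) (.e (nat_lit 573493) (nat_lit 15) .nil))))) .nil)) 
(.lf (nat_lit 223317) (.g (nat_lit 1967) (.e (nat_lit 98332) (nat_lit 18) (.e (nat_lit 164182) (nat_lit 154) (.e (nat_lit 57409) (nat_lit 12) (.e (nat_lit 336367) (nat_lit 27) (.e (nat_lit 426542) (nat_lit 29) .nil))))) .nil))) (.nd (nat_lit 6) 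
(.lf (nat_lit 223285) (.g (nat_lit 1979) (.e (nat_lit 98325) (nat_lit 17) (.e (nat_lit 3765) (nat_lit 229) (.e (nat_lit 794633) (nat_lit 11) (.e (nat_lit 336012) (nat_lit 2) (.e (nat_lit 90178) (nat_lit 15) (.e (nat_lit 196352) (nat_lit 3) .nil)))))) (.g (nat_lit 5) .nil .nil))) 
(.lf (nat_lit 223349) (.g (nat_lit 1883) (.e (nat_lit 98332) (nat_lit 18) (.e (nat_lit 164403) (nat_lit 256) (.e (nat_lit 57377) (nat_lit 3) (.e (nat_lit 98376) (nat_lit 30) .nil)))) .nil))))) (.nd (nat_lit 4) (.nd (nat_lit 5) (.nd (nat_lit 6) 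
(.lf (nat_lit 223245) (.g (nat_lit 1693) (.e (nat_lit 98323) (nat_lit 17) (.e (nat_lit 6989) (nat_lit 377) (.e (nat_lit 2810) (nat_lit 180) (.e (nat_lit 303117) (nat_lit 2) (.e (nat_lit 196630) (nat_lit 9) .nil))))) .nil)) 
(.lf (nat_lit 223309) (.g (nat_lit 971) (.e (nat_lit 106240) (nat_lit 17) (.e (nat_lit 7537) (nat_lit 402) (.e (nat_lit 1638) (nat_lit 114) (.e (nat_lit 385073) (nat_lit 31) .nil)))) .nil))) (.nd (nat_lit 6) 
(.lf (nat_lit 223277) (.g (nat_lit 1480) (.e (nat_lit 98325) (nat_lit 17) (.e (nat_lit 3711) (nat_lit 227) (.e (nat_lit 778337) (nat_lit 9) (.e (nat_lit 301) (nat_lit 22) (.e (nat_lit 344119) (nat_lit 21) (.e (nat_lit 516164) (nat_lit 11) (.e (nat_lit 450304) (nat_lit 3) .nil))))))) (.g (nat_lit 5) .nil .nil))) 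
(.lf (nat_lit 223341) (.g (nat_lit 1954) (.e (nat_lit 98332) (nat_lit 18) (.e (nat_lit 164399) (nat_lit 256) (.e (nat_lit 57373) (nat_lit 2) (.e (nat_lit 90172) (nat_lit 14) (.e (nat_lit 180244) (nat_lit 5) .nil))))) .nil)))) (.nd (nat_lit 5) (.nd (nat_lit 6) 
(.lf (nat_lit 223261) (.g (nat_lit 2182) (.e (nat_lit 98325) (nat_lit 17) (.e (nat_lit 3613) (nat_lit 226) (.e (nat_lit 770073) (nat_lit 9) (.e (nat_lit 73746) (nat_lit 3) (.e (nat_lit 516174) (nat_lit 14) (.e (nat_lit 474880) (nat_lit 3) .nil)))))) (.g (nat_lit 5) .nil .nil))) 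
(.lf (nat_lit 223325) (.g (nat_lit 1269) (.e (nat_lit 98332) (nat_lit 18) (.e (nat_lit 164182) (nat_lit 154) (.e (nat_lit 57448) (nat_lit 19) (.e (nat_lit 401152) (nat_lit 11) .nil)))) .nil))) (.nd (nat_lit 6) 
(.lf (nat_lit 223293) (.g (nat_lit 320) (.e (nat_lit 98325) (nat_lit 17) (.e (nat_lit 6986) (nat_lit 377) (.e (nat_lit 2810) (nat_lit 180) .nil))) .nil)) 
(.lf (nat_lit 223357) (.g (nat_lit 2801) (.e (nat_lit 98333) (nat_lit 18) (.e (nat_lit 164177) (nat_lit 154) (.e (nat_lit 57406) (nat_lit 12) (.e (nat_lit 336367) (nat_lit 27) (.e (nat_lit 426555) (nat_lit 32) (.e (nat_lit 376869) (nat_lit 23) .nil)))))) (.g (nat_lit 0) .nil .nil)))))))) (.nd (nat_lit 2) (.nd (nat_lit 3) (.nd (nat_lit 4) (.nd (nat_lit 5) (.nd (nat_lit 6) 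
(.lf (nat_lit 223235) (.g (nat_lit 3029) (.e (nat_lit 98323) (nat_lit 17) (.e (nat_lit 6989) (nat_lit 377) (.e (nat_lit 2777) (nat_lit 178) (.e (nat_lit 286734) (nat_lit 3) (.e (nat_lit 98350) (nat_lit 24) .nil))))) .nil)) 
(.lf (nat_lit 223299) (.g (nat_lit 3786) (.e (nat_lit 98325) (nat_lit 17) (.e (nat_lit 7554) (nat_lit 402) (.e (nat_lit 1638) (nat_lit 114) (.e (nat_lit 385073) (nat_lit 31) (.e (nat_lit 573493) (nat_lit 15) (.e (nat_lit 81956) (nat_lit 23) .nil)))))) (.g (nat_lit 0) .nil .nil)))) (.nd (nat_lit 6) 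
(.lf (nat_lit 223267) (.g (nat_lit 1178) (.e (nat_lit 98325) (nat_lit 17) (.e (nat_lit 3617) (nat_lit 227) (.e (nat_lit 778462) (nat_lit 11) (.e (nat_lit 24604) (nat_lit 2) (.e (nat_lit 90176) (nat_lit 15) .nil))))) .nil)) 
(.lf (nat_lit 223331) (.g (nat_lit 2228) (.e (nat_lit 98332) (nat_lit 18) (.e (nat_lit 164327) (nat_lit 230) (.e (nat_lit 163873) (nat_lit 3) (.e (nat_lit 204809) (nat_lit 9) (.e (nat_lit 426139) (nat_lit 3) .nil))))) .nil)))) (.nd (nat_lit 5) (.nd (nat_lit 6) 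
(.lf (nat_lit 223251) (.g (nat_lit 597) (.e (nat_lit 98323) (nat_lit 17) (.e (nat_lit 7107) (nat_lit 380) (.e (nat_lit 164261) (nat_lit 221) .nil))) .nil)) 
(.lf (nat_lit 223315) (.g (nat_lit 1408) (.e (nat_lit 98332) (nat_lit 18) (.e (nat_lit 164179) (nat_lit 154) (.e (nat_lit 57446) (nat_lit 19) (.e (nat_lit 401152) (nat_lit 11) .nil)))) .nil))) (.nd (nat_lit 6) 
(.lf (nat_lit 223283) (.g (nat_lit 3738) (.e (nat_lit 98325) (nat_lit 17) (.e (nat_lit 3719) (nat_lit 227) (.e (nat_lit 778466) (nat_lit 11) (.e (nat_lit 24608) (nat_lit 3) (.e (nat_lit 98370) (nat_lit 28) .nil))))) .nil)) 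
(.lf (nat_lit 223347) (.g (nat_lit 3390) (.e (nat_lit 98332) (nat_lit 18) (.e (nat_lit 164403) (nat_lit 256) (.e (nat_lit 57373) (nat_lit 2) (.e (nat_lit 90172) (nat_lit 14) (.e (nat_lit 180243) (nat_lit 5) (.e (nat_lit 532515) (nat_lit 3) (.e (nat_lit 114719) (nat_lit 23) .nil))))))) (.g (nat_lit 4) .nil .nil)))))) (.nd (nat_lit 4) (.nd (nat_lit 5) (.nd (nat_lit 6) 
(.lf (nat_lit 223243) (.g (nat_lit 987) (.e (nat_lit 98323) (nat_lit 17) (.e (nat_lit 6989) (nat_lit 377) (.e (nat_lit 2810) (nat_lit 180) (.e (nat_lit 303112) (nat_lit 0) .nil)))) .nil)) 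
(.lf (nat_lit 223307) (.g (nat_lit 392) (.e (nat_lit 106240) (nat_lit 17) (.e (nat_lit 6989) (nat_lit 377) (.e (nat_lit 2810) (nat_lit 180) .nil))) .nil))) (.nd (nat_lit 6) 
(.lf (nat_lit 223275) (.g (nat_lit 1668) (.e (nat_lit 98325) (nat_lit 17) (.e (nat_lit 3711) (nat_lit 227) (.e (nat_lit 778337) (nat_lit 9) (.e (nat_lit 231) (nat_lit 21) (.e (nat_lit 336028) (nat_lit 3) (.e (nat_lit 98369) (nat_lit 28) (.e (nat_lit 450304) (nat_lit 3) .nil))))))) (.g (nat_lit 6) .nil .nil))) 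
(.lf (nat_lit 223339) (.g (nat_lit 1942) (.e (nat_lit 98332) (nat_lit 18) (.e (nat_lit 164398) (nat_lit 256) (.e (nat_lit 57373) (nat_lit 2) (.e (nat_lit 90174) (nat_lit 14) (.e (nat_lit 180243) (nat_lit 5) (.e (nat_lit 532508) (nat_lit 2) (.e (nat_lit 106517) (nat_lit 9) (.e (nat_lit 1255) (nat_lit 92) .nil)))))))) (.g (nat_lit 4) .nil .nil))))) (.nd (nat_lit 5) (.nd (nat_lit 6) 
(.lf (nat_lit 223259) (.g (nat_lit 1318) (.e (nat_lit 98325) (nat_lit 17) (.e (nat_lit 3579) (nat_lit 223) (.e (nat_lit 745476) (nat_lit 0) (.e (nat_lit 1256) (nat_lit 92) (.e (nat_lit 98367) (nat_lit 27) .nil))))) .nil)) 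
(.lf (nat_lit 223323) (.g (nat_lit 2167) (.e (nat_lit 98332) (nat_lit 18) (.e (nat_lit 164182) (nat_lit 154) (.e (nat_lit 57447) (nat_lit 19) (.e (nat_lit 393229) (nat_lit 9) (.e (nat_lit 336088) (nat_lit 9) .nil))))) .nil))) (.nd (nat_lit 6) 
(.lf (nat_lit 223291) (.g (nat_lit 2688) (.e (nat_lit 98325) (nat_lit 17) (.e (nat_lit 6986) (nat_lit 377) (.e (nat_lit 2777) (nat_lit 178) (.e (nat_lit 286733) (nat_lit 2) (.e (nat_lit 90165) (nat_lit 12) .nil))))) .nil)) 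
(.lf (nat_lit 223355) (.g (nat_lit 943) (.e (nat_lit 98333) (nat_lit 18) (.e (nat_lit 164156) (nat_lit 152) (.e (nat_lit 1055) (nat_lit 81) (.e (nat_lit 1659) (nat_lit 115) (.e (nat_lit 393227) (nat_lit 9) .nil))))) .nil)))))) (.nd (nat_lit 3) (.nd (nat_lit 4) (.nd (nat_lit 5) (.nd (nat_lit 6) 
(.lf (nat_lit 223239) (.g (nat_lit 4110) (.e (nat_lit 98323) (nat_lit 17) (.e (nat_lit 6989) (nat_lit 377) (.e (nat_lit 2777) (nat_lit 178) (.e (nat_lit 286735) (nat_lit 3) (.e (nat_lit 98350) (nat_lit 24) (.e (nat_lit 409616) (nat_lit 10) (.e (nat_lit 5355) (nat_lit 298) (.e (nat_lit 1252) (nat_lit 92) .nil)))))))) (.g (nat_lit 6) .nil .nil))) 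
(.lf (nat_lit 223303) (.g (nat_lit 974) (.e (nat_lit 98328) (nat_lit 17) (.e (nat_lit 7556) (nat_lit 402) (.e (nat_lit 1638) (nat_lit 114) (.e (nat_lit 385072) (nat_lit 31) .nil)))) .nil))) (.nd (nat_lit 6) 
(.lf (nat_lit 223271) (.g (nat_lit 1897) (.e (nat_lit 98325) (nat_lit 17) (.e (nat_lit 3711) (nat_lit 227) (.e (nat_lit 778334) (nat_lit 9) (.e (nat_lit 306) (nat_lit 22) (.e (nat_lit 344117) (nat_lit 21) (.e (nat_lit 516162) (nat_lit 11) (.e (nat_lit 450304) (nat_lit 3) .nil))))))) (.g (nat_lit 6) .nil .nil))) 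
(.lf (nat_lit 223335) (.g (nat_lit 3557) (.e (nat_lit 98332) (nat_lit 18) (.e (nat_lit 164397) (nat_lit 256) (.e (nat_lit 57375) (nat_lit 2) (.e (nat_lit 90172) (nat_lit 14) (.e (nat_lit 180244) (nat_lit 5) (.e (nat_lit 532515) (nat_lit 3) (.e (nat_lit 114719) (nat_lit 23) .nil))))))) (.g (nat_lit 7) .nil .nil))))) (.nd (nat_lit 5) (.nd (nat_lit 6) 
(.lf (nat_lit 223255) (.g (nat_lit 1340) (.e (nat_lit 98325) (nat_lit 17) (.e (nat_lit 2478) (nat_lit 157) (.e (nat_lit 6273) (nat_lit 337) (.e (nat_lit 1089) (nat_lit 81) (.e (nat_lit 1661) (nat_lit 115) (.e (nat_lit 401152) (nat_lit 11) (.e (nat_lit 352313) (nat_lit 23) .nil))))))) (.g (nat_lit 5) .nil .nil))) 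
(.lf (nat_lit 223319) (.g (nat_lit 1988) (.e (nat_lit 98332) (nat_lit 18) (.e (nat_lit 164182) (nat_lit 154) (.e (nat_lit 57411) (nat_lit 12) (.e (nat_lit 336367) (nat_lit 27) (.e (nat_lit 426542) (nat_lit 29) .nil))))) .nil))) (.nd (nat_lit 6) 
(.lf (nat_lit 223287) (.g (nat_lit 2129) (.e (nat_lit 98325) (nat_lit 17) (.e (nat_lit 6986) (nat_lit 377) (.e (nat_lit 1374) (nat_lit 104) (.e (nat_lit 303118) (nat_lit 3) .nil)))) .nil)) 
(.lf (nat_lit 223351) (.g (nat_lit 1585) (.e (nat_lit 98332) (nat_lit 18) (.e (nat_lit 164403) (nat_lit 256) (.e (nat_lit 57378) (nat_lit 3) (.e (nat_lit 98376) (nat_lit 30) .nil)))) .nil))))) (.nd (nat_lit 4) (.nd (nat_lit 5) (.nd (nat_lit 6) 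
(.lf (nat_lit 223247) (.g (nat_lit 679) (.e (nat_lit 98323) (nat_lit 17) (.e (nat_lit 6989) (nat_lit 377) (.e (nat_lit 2810) (nat_lit 180) (.e (nat_lit 303119) (nat_lit 3) .nil)))) .nil)) 
(.lf (nat_lit 223311) (.g (nat_lit 828) (.e (nat_lit 98332) (nat_lit 18) (.e (nat_lit 164177) (nat_lit 154) (.e (nat_lit 57445) (nat_lit 19) (.e (nat_lit 401152) (nat_lit 11) .nil)))) .nil))) (.nd (nat_lit 6) 
(.lf (nat_lit 223279) (.g (nat_lit 1367) (.e (nat_lit 98325) (nat_lit 17) (.e (nat_lit 3711) (nat_lit 227) (.e (nat_lit 778337) (nat_lit 9) (.e (nat_lit 301) (nat_lit 22) (.e (nat_lit 344119) (nat_lit 21) (.e (nat_lit 516177) (nat_lit 14) (.e (nat_lit 474880) (nat_lit 3) .nil))))))) (.g (nat_lit 5) .nil .nil))) 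
(.lf (nat_lit 223343) (.g (nat_lit 2566) (.e (nat_lit 98332) (nat_lit 18) (.e (nat_lit 164403) (nat_lit 256) (.e (nat_lit 57371) (nat_lit 2) (.e (nat_lit 90172) (nat_lit 14) (.e (nat_lit 180243) (nat_lit 5) .nil))))) .nil)))) (.nd (nat_lit 5) (.nd (nat_lit 6) 
(.lf (nat_lit 223263) (.g (nat_lit 1479) (.e (nat_lit 98325) (nat_lit 17) (.e (nat_lit 3614) (nat_lit 226) (.e (nat_lit 770071) (nat_lit 8) (.e (nat_lit 65571) (nat_lit 3) (.e (nat_lit 98370) (nat_lit 28) .nil))))) .nil)) 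
(.lf (nat_lit 223327) (.g (nat_lit 539) (.e (nat_lit 98332) (nat_lit 18) (.e (nat_lit 164183) (nat_lit 154) (.e (nat_lit 57411) (nat_lit 12) .nil))) .nil))) (.nd (nat_lit 6) 
(.lf (nat_lit 223295) (.g (nat_lit 1862) (.e (nat_lit 98325) (nat_lit 17) (.e (nat_lit 6986) (nat_lit 377) (.e (nat_lit 2819) (nat_lit 181) (.e (nat_lit 311300) (nat_lit 0) .nil)))) .nil)) 
(.lf (nat_lit 223359) (.g (nat_lit 2312) (.e (nat_lit 98333) (nat_lit 18) (.e (nat_lit 164177) (nat_lit 154) (.e (nat_lit 57406) (nat_lit 12) (.e (nat_lit 336456) (nat_lit 34) (.e (nat_lit 483389) (nat_lit 23) (.e (nat_lit 336023) (nat_lit 3) .nil)))))) (.g (nat_lit 0) .nil .nil))))))))))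

noncomputable def tv2929 : DT := (.nd (nat_lit 0) (.nd (nat_lit 1) (.nd (nat_lit 2) (.nd (nat_lit 3) (.nd (nat_lit 4) (.nd (nat_lit 5) 
(.lf (nat_lit 223360) (.g (nat_lit 3334) (.e (nat_lit 98333) (nat_lit 18) (.e (nat_lit 164177) (nat_lit 154) (.e (nat_lit 57406) (nat_lit 12) (.e (nat_lit 336456) (nat_lit 34) (.e (nat_lit 483393) (nat_lit 23) (.e (nat_lit 336021) (nat_lit 3) .nil)))))) (.g (nat_lit 0) .nil .nil))) 
(.lf (nat_lit 223392) (.g (nat_lit 1989) (.e (nat_lit 98333) (nat_lit 18) (.e (nat_lit 164179) (nat_lit 154) (.e (nat_lit 57408) (nat_lit 12) (.e (nat_lit 336454) (nat_lit 34) (.e (nat_lit 483391) (nat_lit 23) .nil))))) .nil))) (.nd (nat_lit 5) 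
(.lf (nat_lit 223376) (.g (nat_lit 3150) (.e (nat_lit 98333) (nat_lit 18) (.e (nat_lit 164179) (nat_lit 154) (.e (nat_lit 57406) (nat_lit 12) (.e (nat_lit 336367) (nat_lit 27) (.e (nat_lit 426555) (nat_lit 32) (.e (nat_lit 376869) (nat_lit 23) .nil)))))) (.g (nat_lit 0) .nil .nil))) 
(.lf (nat_lit 223408) (.g (nat_lit 3052) (.e (nat_lit 98333) (nat_lit 18) (.e (nat_lit 164179) (nat_lit 154) (.e (nat_lit 57411) (nat_lit 12) (.e (nat_lit 336456) (nat_lit 34) (.e (nat_lit 483389) (nat_lit 23) (.e (nat_lit 336023) (nat_lit 3) .nil)))))) (.g (nat_lit 4) .nil .nil))))) (.nd (nat_lit 4) (.nd (nat_lit 5) 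
(.lf (nat_lit 223368) (.g (nat_lit 3854) (.e (nat_lit 98333) (nat_lit 18) (.e (nat_lit 164179) (nat_lit 154) (.e (nat_lit 57344) (nat_lit 0) (.e (nat_lit 1858) (nat_lit 124) (.e (nat_lit 557105) (nat_lit 14) (.e (nat_lit 180251) (nat_lit 10) (.e (nat_lit 573485) (nat_lit 13) (.e (nat_lit 65570) (nat_lit 3) .nil)))))))) (.g (nat_lit 5) .nil .nil))) 
(.lf (nat_lit 223400) (.g (nat_lit 2084) (.e (nat_lit 98333) (nat_lit 18) (.e (nat_lit 164179) (nat_lit 154) (.e (nat_lit 57411) (nat_lit 12) (.e (nat_lit 336370) (nat_lit 27) .nil)))) .nil))) (.nd (nat_lit 5) 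
(.lf (nat_lit 223384) (.g (nat_lit 370) (.e (nat_lit 98333) (nat_lit 18) (.e (nat_lit 164179) (nat_lit 154) (.e (nat_lit 57407) (nat_lit 12) .nil))) .nil)) 
(.lf (nat_lit 223416) (.g (nat_lit 3774) (.e (nat_lit 98333) (nat_lit 18) (.e (nat_lit 164182) (nat_lit 154) (.e (nat_lit 57358) (nat_lit 0) (.e (nat_lit 1858) (nat_lit 124) (.e (nat_lit 557105) (nat_lit 14) (.e (nat_lit 180251) (nat_lit 10) (.e (nat_lit 573485) (nat_lit 13) (.e (nat_lit 65570) (nat_lit 3) .nil)))))))) (.g (nat_lit 5) .nil .nil)))))) 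
(.nd (nat_lit 3) (.nd (nat_lit 4) (.nd (nat_lit 5) 
(.lf (nat_lit 223364) (.g (nat_lit 3477) (.e (nat_lit 98333) (nat_lit 18) (.e (nat_lit 164177) (nat_lit 154) (.e (nat_lit 57407) (nat_lit 12) (.e (nat_lit 336456) (nat_lit 34) (.e (nat_lit 483393) (nat_lit 23) (.e (nat_lit 336021) (nat_lit 3) .nil)))))) (.g (nat_lit 0) .nil .nil))) 
(.lf (nat_lit 223396) (.g (nat_lit 3527) (.e (nat_lit 98333) (nat_lit 18) (.e (nat_lit 164179) (nat_lit 154) (.e (nat_lit 57409) (nat_lit 12) (.e (nat_lit 336454) (nat_lit 34) (.e (nat_lit 483385) (nat_lit 23) (.e (nat_lit 336019) (nat_lit 3) .nil)))))) (.g (nat_lit 4) .nil .nil)))) (.nd (nat_lit 5) 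
(.lf (nat_lit 223380) (.g (nat_lit 2983) (.e (nat_lit 98333) (nat_lit 18) (.e (nat_lit 164179) (nat_lit 154) (.e (nat_lit 57406) (nat_lit 12) (.e (nat_lit 336454) (nat_lit 34) (.e (nat_lit 483379) (nat_lit 23) .nil))))) .nil)) 
(.lf (nat_lit 223412) (.g (nat_lit 2318) (.e (nat_lit 98333) (nat_lit 18) (.e (nat_lit 164179) (nat_lit 154) (.e (nat_lit 57447) (nat_lit 19) (.e (nat_lit 393229) (nat_lit 9) (.e (nat_lit 336085) (nat_lit 9) .nil))))) .nil)))) (.nd (nat_lit 4) (.nd (nat_lit 5) 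
(.lf (nat_lit 223372) (.g (nat_lit 3450) (.e (nat_lit 98333) (nat_lit 18) (.e (nat_lit 164179) (nat_lit 154) (.e (nat_lit 57377) (nat_lit 3) (.e (nat_lit 98342) (nat_lit 20) (.e (nat_lit 221214) (nat_lit 23) (.e (nat_lit 204861) (nat_lit 26) (.e (nat_lit 336021) (nat_lit 3) .nil))))))) (.g (nat_lit 5) .nil .nil))) 
(.lf (nat_lit 223404) (.g (nat_lit 2083) (.e (nat_lit 98333) (nat_lit 18) (.e (nat_lit 164179) (nat_lit 154) (.e (nat_lit 57411) (nat_lit 12) (.e (nat_lit 336414) (nat_lit 27) .nil)))) .nil))) (.nd (nat_lit 5) 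
(.lf (nat_lit 223388) (.g (nat_lit 2359) (.e (nat_lit 98333) (nat_lit 18) (.e (nat_lit 164179) (nat_lit 154) (.e (nat_lit 57407) (nat_lit 12) (.e (nat_lit 336454) (nat_lit 34) (.e (nat_lit 483390) (nat_lit 23) (.e (nat_lit 336023) (nat_lit 3) .nil)))))) (.g (nat_lit 4) .nil .nil))) 
(.lf (nat_lit 223420) (.g (nat_lit 3208) (.e (nat_lit 98333) (nat_lit 18) (.e (nat_lit 164182) (nat_lit 154) (.e (nat_lit 57379) (nat_lit 3) (.e (nat_lit 98341) (nat_lit 20) (.e (nat_lit 221214) (nat_lit 23) (.e (nat_lit 204861) (nat_lit 26) (.e (nat_lit 336025) (nat_lit 3) .nil))))))) (.g (nat_lit 4) .nil .nil))))))) (.nd (nat_lit 2) (.nd (nat_lit 3) (.nd (nat_lit 4) (.nd (nat_lit 5) 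
(.lf (nat_lit 223362) (.g (nat_lit 3118) (.e (nat_lit 98333) (nat_lit 18) (.e (nat_lit 164177) (nat_lit 154) (.e (nat_lit 57407) (nat_lit 12) (.e (nat_lit 336367) (nat_lit 27) (.e (nat_lit 426555) (nat_lit 32) (.e (nat_lit 376869) (nat_lit 23) .nil)))))) (.g (nat_lit 0) .nil .nil))) 
(.lf (nat_lit 223394) (.g (nat_lit 1907) (.e (nat_lit 98333) (nat_lit 18) (.e (nat_lit 164179) (nat_lit 154) (.e (nat_lit 57409) (nat_lit 12) (.e (nat_lit 336414) (nat_lit 27) (.e (nat_lit 426541) (nat_lit 29) .nil))))) .nil))) (.nd (nat_lit 5) 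
(.lf (nat_lit 223378) (.g (nat_lit 1756) (.e (nat_lit 98333) (nat_lit 18) (.e (nat_lit 164179) (nat_lit 154) (.e (nat_lit 57406) (nat_lit 12) (.e (nat_lit 336379) (nat_lit 27) .nil)))) .nil)) 
(.lf (nat_lit 223410) (.g (nat_lit 1673) (.e (nat_lit 98333) (nat_lit 18) (.e (nat_lit 164179) (nat_lit 154) (.e (nat_lit 57445) (nat_lit 19) (.e (nat_lit 393224) (nat_lit 9) .nil)))) .nil)))) (.nd (nat_lit 4) (.nd (nat_lit 5) 
(.lf (nat_lit 223370) (.g (nat_lit 4134) (.e (nat_lit 98333) (nat_lit 18) (.e (nat_lit 164179) (nat_lit 154) (.e (nat_lit 57358) (nat_lit 0) (.e (nat_lit 1858) (nat_lit 124) (.e (nat_lit 557105) (nat_lit 14) (.e (nat_lit 180251) (nat_lit 10) (.e (nat_lit 573485) (nat_lit 13) (.e (nat_lit 65570) (nat_lit 3) .nil)))))))) (.g (nat_lit 5) .nil .nil))) 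
(.lf (nat_lit 223402) (.g (nat_lit 2083) (.e (nat_lit 98333) (nat_lit 18) (.e (nat_lit 164179) (nat_lit 154) (.e (nat_lit 57411) (nat_lit 12) (.e (nat_lit 336379) (nat_lit 27) .nil)))) .nil))) (.nd (nat_lit 5) 
(.lf (nat_lit 223386) (.g (nat_lit 2887) (.e (nat_lit 98333) (nat_lit 18) (.e (nat_lit 164179) (nat_lit 154) (.e (nat_lit 57407) (nat_lit 12) (.e (nat_lit 336454) (nat_lit 34) (.e (nat_lit 483378) (nat_lit 23) (.e (nat_lit 336028) (nat_lit 3) .nil)))))) (.g (nat_lit 4) .nil .nil))) 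
(.lf (nat_lit 223418) (.g (nat_lit 2782) (.e (nat_lit 98333) (nat_lit 18) (.e (nat_lit 164182) (nat_lit 154) (.e (nat_lit 57376) (nat_lit 3) (.e (nat_lit 98342) (nat_lit 20) (.e (nat_lit 221212) (nat_lit 22) (.e (nat_lit 196681) (nat_lit 17) (.e (nat_lit 131098) (nat_lit 3) .nil))))))) (.g (nat_lit 5) .nil .nil)))))) (.nd (nat_lit 3) (.nd (nat_lit 4) (.nd (nat_lit 5) 
(.lf (nat_lit 223366) (.g (nat_lit 2610) (.e (nat_lit 98333) (nat_lit 18) (.e (nat_lit 164178) (nat_lit 154) (.e (nat_lit 57407) (nat_lit 12) (.e (nat_lit 336367) (nat_lit 27) (.e (nat_lit 426542) (nat_lit 29) (.e (nat_lit 352313) (nat_lit 23) .nil)))))) (.g (nat_lit 4) .nil .nil))) 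
(.lf (nat_lit 223398) (.g (nat_lit 2437) (.e (nat_lit 98333) (nat_lit 18) (.e (nat_lit 164179) (nat_lit 154) (.e (nat_lit 57409) (nat_lit 12) (.e (nat_lit 336456) (nat_lit 34) (.e (nat_lit 483389) (nat_lit 23) (.e (nat_lit 336023) (nat_lit 3) .nil)))))) (.g (nat_lit 4) .nil .nil)))) (.nd (nat_lit 5) 
(.lf (nat_lit 223382) (.g (nat_lit 2707) (.e (nat_lit 98333) (nat_lit 18) (.e (nat_lit 164179) (nat_lit 154) (.e (nat_lit 57406) (nat_lit 12) (.e (nat_lit 336456) (nat_lit 34) (.e (nat_lit 483389) (nat_lit 23) (.e (nat_lit 336023) (nat_lit 3) .nil)))))) (.g (nat_lit 0) .nil .nil))) 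
(.lf (nat_lit 223414) (.g (nat_lit 3751) (.e (nat_lit 98333) (nat_lit 18) (.e (nat_lit 164182) (nat_lit 154) (.e (nat_lit 57344) (nat_lit 0) (.e (nat_lit 1858) (nat_lit 124) (.e (nat_lit 557105) (nat_lit 14) (.e (nat_lit 180251) (nat_lit 10) (.e (nat_lit 573485) (nat_lit 13) (.e (nat_lit 65570) (nat_lit 3) .nil)))))))) (.g (nat_lit 5) .nil .nil))))) (.nd (nat_lit 4) (.nd (nat_lit 5) 
(.lf (nat_lit 223374) (.g (nat_lit 3659) (.e (nat_lit 98333) (nat_lit 18) (.e (nat_lit 164179) (nat_lit 154) (.e (nat_lit 57377) (nat_lit 3) (.e (nat_lit 98342) (nat_lit 20) (.e (nat_lit 221215) (nat_lit 23) (.e (nat_lit 204861) (nat_lit 26) (.e (nat_lit 336026) (nat_lit 3) .nil))))))) (.g (nat_lit 4) .nil .nil))) 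
(.lf (nat_lit 223406) (.g (nat_lit 2616) (.e (nat_lit 98333) (nat_lit 18) (.e (nat_lit 164179) (nat_lit 154) (.e (nat_lit 57411) (nat_lit 12) (.e (nat_lit 336454) (nat_lit 34) (.e (nat_lit 483379) (nat_lit 23) .nil))))) .nil))) (.nd (nat_lit 5) 
(.lf (nat_lit 223390) (.g (nat_lit 3503) (.e (nat_lit 98333) (nat_lit 18) (.e (nat_lit 164179) (nat_lit 154) (.e (nat_lit 57407) (nat_lit 12) (.e (nat_lit 336456) (nat_lit 34) (.e (nat_lit 483393) (nat_lit 23) (.e (nat_lit 336021) (nat_lit 3) .nil)))))) (.g (nat_lit 0) .nil .nil))) 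
(.lf (nat_lit 223422) (.g (nat_lit 3118) (.e (nat_lit 98333) (nat_lit 18) (.e (nat_lit 164182) (nat_lit 154) (.e (nat_lit 57379) (nat_lit 3) (.e (nat_lit 98342) (nat_lit 20) (.e (nat_lit 221214) (nat_lit 23) (.e (nat_lit 204861) (nat_lit 26) (.e (nat_lit 336021) (nat_lit 3) .nil))))))) (.g (nat_lit 5) .nil .nil)))))))) 
(.nd (nat_lit 1) (.nd (nat_lit 2) (.nd (nat_lit 3) (.nd (nat_lit 4) (.nd (nat_lit 5) 
(.lf (nat_lit 223361) (.g (nat_lit 1291) (.e (nat_lit 98333) (nat_lit 18) (.e (nat_lit 164177) (nat_lit 154) (.e (nat_lit 57407) (nat_lit 12) (.e (nat_lit 336366) (nat_lit 27) .nil)))) .nil)) 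
(.lf (nat_lit 223393) (.g (nat_lit 1825) (.e (nat_lit 98333) (nat_lit 18) (.e (nat_lit 164179) (nat_lit 154) (.e (nat_lit 57409) (nat_lit 12) (.e (nat_lit 336366) (nat_lit 27) (.e (nat_lit 426555) (nat_lit 32) .nil))))) .nil))) (.nd (nat_lit 5) 
(.lf (nat_lit 223377) (.g (nat_lit 2133) (.e (nat_lit 98333) (nat_lit 18) (.e (nat_lit 164179) (nat_lit 154) (.e (nat_lit 57406) (nat_lit 12) (.e (nat_lit 336370) (nat_lit 27) .nil)))) .nil)) 
(.lf (nat_lit 223409) (.g (nat_lit 1295) (.e (nat_lit 98333) (nat_lit 18) (.e (nat_lit 164179) (nat_lit 154) (.e (nat_lit 57412) (nat_lit 12) (.e (nat_lit 336412) (nat_lit 27) .nil)))) .nil)))) (.nd (nat_lit 4) (.nd (nat_lit 5) 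
(.lf (nat_lit 223369) (.g (nat_lit 3266) (.e (nat_lit 98333) (nat_lit 18) (.e (nat_lit 164179) (nat_lit 154) (.e (nat_lit 57356) (nat_lit 0) (.e (nat_lit 1858) (nat_lit 124) (.e (nat_lit 557105) (nat_lit 14) (.e (nat_lit 180251) (nat_lit 10) (.e (nat_lit 573485) (nat_lit 13) (.e (nat_lit 65570) (nat_lit 3) .nil)))))))) (.g (nat_lit 4) .nil .nil))) 
(.lf (nat_lit 223401) (.g (nat_lit 2083) (.e (nat_lit 98333) (nat_lit 18) (.e (nat_lit 164179) (nat_lit 154) (.e (nat_lit 57411) (nat_lit 12) (.e (nat_lit 336377) (nat_lit 27) .nil)))) .nil))) (.nd (nat_lit 5) 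
(.lf (nat_lit 223385) (.g (nat_lit 3134) (.e (nat_lit 98333) (nat_lit 18) (.e (nat_lit 164179) (nat_lit 154) (.e (nat_lit 57407) (nat_lit 12) (.e (nat_lit 336367) (nat_lit 27) (.e (nat_lit 426555) (nat_lit 32) (.e (nat_lit 376869) (nat_lit 23) .nil)))))) (.g (nat_lit 0) .nil .nil))) 
(.lf (nat_lit 223417) (.g (nat_lit 2652) (.e (nat_lit 98333) (nat_lit 18) (.e (nat_lit 164182) (nat_lit 154) (.e (nat_lit 57376) (nat_lit 3) (.e (nat_lit 98342) (nat_lit 20) (.e (nat_lit 221212) (nat_lit 22) (.e (nat_lit 196681) (nat_lit 17) (.e (nat_lit 131096) (nat_lit 3) .nil))))))) (.g (nat_lit 5) .nil .nil)))))) (.nd (nat_lit 3) (.nd (nat_lit 4) (.nd (nat_lit 5) 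
(.lf (nat_lit 223365) (.g (nat_lit 1615) (.e (nat_lit 98333) (nat_lit 18) (.e (nat_lit 164178) (nat_lit 154) (.e (nat_lit 57406) (nat_lit 12) (.e (nat_lit 336367) (nat_lit 27) (.e (nat_lit 426555) (nat_lit 32) .nil))))) .nil)) 
(.lf (nat_lit 223397) (.g (nat_lit 2709) (.e (nat_lit 98333) (nat_lit 18) (.e (nat_lit 164179) (nat_lit 154) (.e (nat_lit 57409) (nat_lit 12) (.e (nat_lit 336454) (nat_lit 34) (.e (nat_lit 483391) (nat_lit 23) .nil))))) .nil))) (.nd (nat_lit 5) 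
(.lf (nat_lit 223381) (.g (nat_lit 2055) (.e (nat_lit 98333) (nat_lit 18) (.e (nat_lit 164179) (nat_lit 154) (.e (nat_lit 57406) (nat_lit 12) (.e (nat_lit 336455) (nat_lit 34) .nil)))) .nil)) 
(.lf (nat_lit 223413) (.g (nat_lit 1551) (.e (nat_lit 98333) (nat_lit 18) (.e (nat_lit 164179) (nat_lit 154) (.e (nat_lit 57448) (nat_lit 19) (.e (nat_lit 401152) (nat_lit 14) .nil)))) .nil)))) (.nd (nat_lit 4) (.nd (nat_lit 5) 
(.lf (nat_lit 223373) (.g (nat_lit 4089) (.e (nat_lit 98333) (nat_lit 18) (.e (nat_lit 164179) (nat_lit 154) (.e (nat_lit 57377) (nat_lit 3) (.e (nat_lit 98342) (nat_lit 20) (.e (nat_lit 221215) (nat_lit 23) (.e (nat_lit 204861) (nat_lit 26) (.e (nat_lit 336025) (nat_lit 3) .nil))))))) (.g (nat_lit 5) .nil .nil))) 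
(.lf (nat_lit 223405) (.g (nat_lit 1660) (.e (nat_lit 98333) (nat_lit 18) (.e (nat_lit 164179) (nat_lit 154) (.e (nat_lit 57411) (nat_lit 12) (.e (nat_lit 336454) (nat_lit 34) .nil)))) .nil))) (.nd (nat_lit 5) 
(.lf (nat_lit 223389) (.g (nat_lit 2498) (.e (nat_lit 98333) (nat_lit 18) (.e (nat_lit 164179) (nat_lit 154) (.e (nat_lit 57407) (nat_lit 12) (.e (nat_lit 336456) (nat_lit 34) (.e (nat_lit 483389) (nat_lit 23) (.e (nat_lit 336023) (nat_lit 3) .nil)))))) (.g (nat_lit 0) .nil .nil))) 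
(.lf (nat_lit 223421) (.g (nat_lit 4439) (.e (nat_lit 98333) (nat_lit 18) (.e (nat_lit 164182) (nat_lit 154) (.e (nat_lit 57379) (nat_lit 3) (.e (nat_lit 98342) (nat_lit 20) (.e (nat_lit 221211) (nat_lit 22) (.e (nat_lit 196666) (nat_lit 13) (.e (nat_lit 65569) (nat_lit 3) .nil))))))) (.g (nat_lit 6) .nil .nil))))))) (.nd (nat_lit 2) (.nd (nat_lit 3) (.nd (nat_lit 4) (.nd (nat_lit 5) 
(.lf (nat_lit 223363) (.g (nat_lit 2460) (.e (nat_lit 98333) (nat_lit 18) (.e (nat_lit 164177) (nat_lit 154) (.e (nat_lit 57407) (nat_lit 12) (.e (nat_lit 336456) (nat_lit 34) (.e (nat_lit 483389) (nat_lit 23) (.e (nat_lit 336023) (nat_lit 3) .nil)))))) (.g (nat_lit 0) .nil .nil))) 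
(.lf (nat_lit 223395) (.g (nat_lit 1907) (.e (nat_lit 98333) (nat_lit 18) (.e (nat_lit 164179) (nat_lit 154) (.e (nat_lit 57409) (nat_lit 12) (.e (nat_lit 336414) (nat_lit 27) (.e (nat_lit 426552) (nat_lit 32) .nil))))) .nil))) (.nd (nat_lit 5) 
(.lf (nat_lit 223379) (.g (nat_lit 3000) (.e (nat_lit 98333) (nat_lit 18) (.e (nat_lit 164179) (nat_lit 154) (.e (nat_lit 57406) (nat_lit 12) (.e (nat_lit 336454) (nat_lit 34) (.e (nat_lit 483378) (nat_lit 23) (.e (nat_lit 336028) (nat_lit 3) .nil)))))) (.g (nat_lit 4) .nil .nil))) 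
(.lf (nat_lit 223411) (.g (nat_lit 1844) (.e (nat_lit 98333) (nat_lit 18) (.e (nat_lit 164179) (nat_lit 154) (.e (nat_lit 57447) (nat_lit 19) (.e (nat_lit 393224) (nat_lit 9) .nil)))) .nil)))) (.nd (nat_lit 4) (.nd (nat_lit 5) 
(.lf (nat_lit 223371) (.g (nat_lit 3447) (.e (nat_lit 98333) (nat_lit 18) (.e (nat_lit 164179) (nat_lit 154) (.e (nat_lit 57377) (nat_lit 3) (.e (nat_lit 98341) (nat_lit 20) (.e (nat_lit 221215) (nat_lit 23) (.e (nat_lit 204861) (nat_lit 26) (.e (nat_lit 336026) (nat_lit 3) .nil))))))) (.g (nat_lit 4) .nil .nil))) 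
(.lf (nat_lit 223403) (.g (nat_lit 2083) (.e (nat_lit 98333) (nat_lit 18) (.e (nat_lit 164179) (nat_lit 154) (.e (nat_lit 57411) (nat_lit 12) (.e (nat_lit 336399) (nat_lit 27) .nil)))) .nil))) (.nd (nat_lit 5) 
(.lf (nat_lit 223387) (.g (nat_lit 1894) (.e (nat_lit 98333) (nat_lit 18) (.e (nat_lit 164179) (nat_lit 154) (.e (nat_lit 57407) (nat_lit 12) (.e (nat_lit 336454) (nat_lit 34) (.e (nat_lit 483385) (nat_lit 23) (.e (nat_lit 343808) (nat_lit 3) .nil)))))) (.g (nat_lit 4) .nil .nil))) 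
(.lf (nat_lit 223419) (.g (nat_lit 4580) (.e (nat_lit 98333) (nat_lit 18) (.e (nat_lit 164182) (nat_lit 154) (.e (nat_lit 57379) (nat_lit 3) (.e (nat_lit 98341) (nat_lit 20) (.e (nat_lit 221211) (nat_lit 22) (.e (nat_lit 196666) (nat_lit 13) (.e (nat_lit 65569) (nat_lit 3) .nil))))))) (.g (nat_lit 6) .nil .nil)))))) (.nd (nat_lit 3) (.nd (nat_lit 4) (.nd (nat_lit 5) 
(.lf (nat_lit 223367) (.g (nat_lit 2507) (.e (nat_lit 98333) (nat_lit 18) (.e (nat_lit 164178) (nat_lit 154) (.e (nat_lit 57407) (nat_lit 12) (.e (nat_lit 336456) (nat_lit 34) (.e (nat_lit 483391) (nat_lit 23) .nil))))) .nil)) 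
(.lf (nat_lit 223399) (.g (nat_lit 474) (.e (nat_lit 98333) (nat_lit 18) (.e (nat_lit 164179) (nat_lit 154) (.e (nat_lit 57411) (nat_lit 12) .nil))) .nil))) (.nd (nat_lit 5) 
(.lf (nat_lit 223383) (.g (nat_lit 3719) (.e (nat_lit 98333) (nat_lit 18) (.e (nat_lit 164179) (nat_lit 154) (.e (nat_lit 57406) (nat_lit 12) (.e (nat_lit 336456) (nat_lit 34) (.e (nat_lit 483393) (nat_lit 23) (.e (nat_lit 336021) (nat_lit 3) .nil)))))) (.g (nat_lit 0) .nil .nil))) 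
(.lf (nat_lit 223415) (.g (nat_lit 3713) (.e (nat_lit 98333) (nat_lit 18) (.e (nat_lit 164182) (nat_lit 154) (.e (nat_lit 57357) (nat_lit 0) (.e (nat_lit 1858) (nat_lit 124) (.e (nat_lit 557105) (nat_lit 14) (.e (nat_lit 180251) (nat_lit 10) (.e (nat_lit 573485) (nat_lit 13) (.e (nat_lit 65570) (nat_lit 3) .nil)))))))) (.g (nat_lit 5) .nil .nil))))) (.nd (nat_lit 4) (.nd (nat_lit 5) 
(.lf (nat_lit 223375) (.g (nat_lit 2011) (.e (nat_lit 98333) (nat_lit 18) (.e (nat_lit 164179) (nat_lit 154) (.e (nat_lit 57406) (nat_lit 12) (.e (nat_lit 336366) (nat_lit 27) (.e (nat_lit 426555) (nat_lit 32) .nil))))) .nil)) 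
(.lf (nat_lit 223407) (.g (nat_lit 2810) (.e (nat_lit 98333) (nat_lit 18) (.e (nat_lit 164179) (nat_lit 154) (.e (nat_lit 57411) (nat_lit 12) (.e (nat_lit 336454) (nat_lit 34) (.e (nat_lit 483391) (nat_lit 23) (.e (nat_lit 336017) (nat_lit 3) .nil)))))) (.g (nat_lit 4) .nil .nil)))) (.nd (nat_lit 5) 
(.lf (nat_lit 223391) (.g (nat_lit 435) (.e (nat_lit 98333) (nat_lit 18) (.e (nat_lit 164179) (nat_lit 154) (.e (nat_lit 57408) (nat_lit 12) .nil))) .nil)) 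
(.lf (nat_lit 223423) (.g (nat_lit 3204) (.e (nat_lit 98333) (nat_lit 18) (.e (nat_lit 164182) (nat_lit 154) (.e (nat_lit 57409) (nat_lit 12) (.e (nat_lit 336367) (nat_lit 27) (.e (nat_lit 426555) (nat_lit 32) (.e (nat_lit 376869) (nat_lit 23) .nil)))))) (.g (nat_lit 0) .nil .nil)))))))))

noncomputable def tv2930 : DT := (.nd (nat_lit 0) (.nd (nat_lit 1) (.nd (nat_lit 2) (.nd (nat_lit 3) (.nd (nat_lit 4) (.nd (nat_lit 5) 
(.lf (nat_lit 223424) (.g (nat_lit 1424) (.e (nat_lit 98333) (nat_lit 18) (.e (nat_lit 164182) (nat_lit 154) (.e (nat_lit 57409) (nat_lit 12) (.e (nat_lit 336372) (nat_lit 27) .nil)))) .nil)) 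
(.lf (nat_lit 223456) (.g (nat_lit 1453) (.e (nat_lit 98333) (nat_lit 18) (.e (nat_lit 164183) (nat_lit 154) (.e (nat_lit 57409) (nat_lit 12) (.e (nat_lit 336395) (nat_lit 27) .nil)))) .nil))) (.nd (nat_lit 5) 
(.lf (nat_lit 223440) (.g (nat_lit 1210) (.e (nat_lit 98333) (nat_lit 18) (.e (nat_lit 164182) (nat_lit 154) (.e (nat_lit 57411) (nat_lit 12) (.e (nat_lit 336454) (nat_lit 34) .nil)))) .nil)) 
(.lf (nat_lit 223472) (.g (nat_lit 2387) (.e (nat_lit 98333) (nat_lit 18) (.e (nat_lit 164183) (nat_lit 154) (.e (nat_lit 57447) (nat_lit 19) (.e (nat_lit 393227) (nat_lit 9) (.e (nat_lit 336152) (nat_lit 9) (.e (nat_lit 336017) (nat_lit 3) .nil)))))) (.g (nat_lit 0) .nil .nil))))) (.nd (nat_lit 4) (.nd (nat_lit 5) 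
(.lf (nat_lit 223432) (.g (nat_lit 3180) (.e (nat_lit 98333) (nat_lit 18) (.e (nat_lit 164182) (nat_lit 154) (.e (nat_lit 57411) (nat_lit 12) (.e (nat_lit 336367) (nat_lit 27) (.e (nat_lit 426555) (nat_lit 32) (.e (nat_lit 376869) (nat_lit 23) .nil)))))) (.g (nat_lit 0) .nil .nil))) 
(.lf (nat_lit 223464) (.g (nat_lit 2933) (.e (nat_lit 98333) (nat_lit 18) (.e (nat_lit 164183) (nat_lit 154) (.e (nat_lit 57411) (nat_lit 12) (.e (nat_lit 336367) (nat_lit 27) (.e (nat_lit 426555) (nat_lit 32) (.e (nat_lit 376869) (nat_lit 23) .nil)))))) (.g (nat_lit 0) .nil .nil)))) (.nd (nat_lit 5) 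
(.lf (nat_lit 223448) (.g (nat_lit 1368) (.e (nat_lit 98333) (nat_lit 18) (.e (nat_lit 164182) (nat_lit 154) (.e (nat_lit 57447) (nat_lit 19) (.e (nat_lit 401152) (nat_lit 14) .nil)))) .nil)) 
(.lf (nat_lit 223480) (.g (nat_lit 3028) (.e (nat_lit 98333) (nat_lit 18) (.e (nat_lit 164325) (nat_lit 230) (.e (nat_lit 163871) (nat_lit 2) (.e (nat_lit 196656) (nat_lit 11) (.e (nat_lit 16416) (nat_lit 3) (.e (nat_lit 204817) (nat_lit 17) (.e (nat_lit 2198) (nat_lit 144) (.e (nat_lit 720945) (nat_lit 23) .nil)))))))) (.g (nat_lit 4) .nil .nil)))))) 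
(.nd (nat_lit 3) (.nd (nat_lit 4) (.nd (nat_lit 5) 
(.lf (nat_lit 223428) (.g (nat_lit 3203) (.e (nat_lit 98333) (nat_lit 18) (.e (nat_lit 164182) (nat_lit 154) (.e (nat_lit 57409) (nat_lit 12) (.e (nat_lit 336456) (nat_lit 34) (.e (nat_lit 483393) (nat_lit 23) (.e (nat_lit 336025) (nat_lit 3) .nil)))))) (.g (nat_lit 5) .nil .nil))) 
(.lf (nat_lit 223460) (.g (nat_lit 2267) (.e (nat_lit 98333) (nat_lit 18) (.e (nat_lit 164183) (nat_lit 154) (.e (nat_lit 57409) (nat_lit 12) (.e (nat_lit 336456) (nat_lit 34) (.e (nat_lit 483389) (nat_lit 23) (.e (nat_lit 336023) (nat_lit 3) .nil)))))) (.g (nat_lit 0) .nil .nil)))) (.nd (nat_lit 5) 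
(.lf (nat_lit 223444) (.g (nat_lit 1738) (.e (nat_lit 98333) (nat_lit 18) (.e (nat_lit 164182) (nat_lit 154) (.e (nat_lit 57417) (nat_lit 12) (.e (nat_lit 336371) (nat_lit 27) (.e (nat_lit 426555) (nat_lit 32) .nil))))) .nil)) 
(.lf (nat_lit 223476) (.g (nat_lit 3143) (.e (nat_lit 98333) (nat_lit 18) (.e (nat_lit 164324) (nat_lit 230) (.e (nat_lit 163902) (nat_lit 12) (.e (nat_lit 426566) (nat_lit 34) (.e (nat_lit 393271) (nat_lit 23) .nil))))) .nil)))) (.nd (nat_lit 4) (.nd (nat_lit 5) 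
(.lf (nat_lit 223436) (.g (nat_lit 1700) (.e (nat_lit 98333) (nat_lit 18) (.e (nat_lit 164182) (nat_lit 154) (.e (nat_lit 57411) (nat_lit 12) (.e (nat_lit 336377) (nat_lit 27) .nil)))) .nil)) 
(.lf (nat_lit 223468) (.g (nat_lit 1914) (.e (nat_lit 98333) (nat_lit 18) (.e (nat_lit 164183) (nat_lit 154) (.e (nat_lit 57411) (nat_lit 12) (.e (nat_lit 336454) (nat_lit 34) (.e (nat_lit 483390) (nat_lit 23) (.e (nat_lit 336023) (nat_lit 3) .nil)))))) (.g (nat_lit 4) .nil .nil)))) (.nd (nat_lit 5) 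
(.lf (nat_lit 223452) (.g (nat_lit 322) (.e (nat_lit 98333) (nat_lit 18) (.e (nat_lit 164183) (nat_lit 154) (.e (nat_lit 57409) (nat_lit 12) .nil))) .nil)) 
(.lf (nat_lit 223484) (.g (nat_lit 1740) (.e (nat_lit 98333) (nat_lit 18) (.e (nat_lit 164325) (nat_lit 230) (.e (nat_lit 163875) (nat_lit 3) (.e (nat_lit 204836) (nat_lit 20) .nil)))) .nil)))))) (.nd (nat_lit 2) (.nd (nat_lit 3) (.nd (nat_lit 4) (.nd (nat_lit 5) 
(.lf (nat_lit 223426) (.g (nat_lit 3349) (.e (nat_lit 98333) (nat_lit 18) (.e (nat_lit 164182) (nat_lit 154) (.e (nat_lit 57409) (nat_lit 12) (.e (nat_lit 336454) (nat_lit 34) (.e (nat_lit 483385) (nat_lit 23) .nil))))) .nil)) 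
(.lf (nat_lit 223458) (.g (nat_lit 1535) (.e (nat_lit 98333) (nat_lit 18) (.e (nat_lit 164183) (nat_lit 154) (.e (nat_lit 57409) (nat_lit 12) (.e (nat_lit 336454) (nat_lit 34) (.e (nat_lit 483388) (nat_lit 23) .nil))))) .nil))) (.nd (nat_lit 5) 
(.lf (nat_lit 223442) (.g (nat_lit 2585) (.e (nat_lit 98333) (nat_lit 18) (.e (nat_lit 164182) (nat_lit 154) (.e (nat_lit 57411) (nat_lit 12) (.e (nat_lit 336456) (nat_lit 34) (.e (nat_lit 483389) (nat_lit 23) (.e (nat_lit 336023) (nat_lit 3) .nil)))))) (.g (nat_lit 0) .nil .nil))) 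
(.lf (nat_lit 223474) (.g (nat_lit 2146) (.e (nat_lit 98333) (nat_lit 18) (.e (nat_lit 164183) (nat_lit 154) (.e (nat_lit 57448) (nat_lit 19) (.e (nat_lit 393225) (nat_lit 9) (.e (nat_lit 336158) (nat_lit 9) (.e (nat_lit 336021) (nat_lit 3) .nil)))))) (.g (nat_lit 4) .nil .nil))))) (.nd (nat_lit 4) (.nd (nat_lit 5) 
(.lf (nat_lit 223434) (.g (nat_lit 1543) (.e (nat_lit 98333) (nat_lit 18) (.e (nat_lit 164182) (nat_lit 154) (.e (nat_lit 57411) (nat_lit 12) (.e (nat_lit 336374) (nat_lit 27) .nil)))) .nil)) 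
(.lf (nat_lit 223466) (.g (nat_lit 1633) (.e (nat_lit 98333) (nat_lit 18) (.e (nat_lit 164183) (nat_lit 154) (.e (nat_lit 57411) (nat_lit 12) (.e (nat_lit 336379) (nat_lit 27) (.e (nat_lit 426554) (nat_lit 32) .nil))))) .nil))) (.nd (nat_lit 5) 
(.lf (nat_lit 223450) (.g (nat_lit 2948) (.e (nat_lit 98333) (nat_lit 18) (.e (nat_lit 164183) (nat_lit 154) (.e (nat_lit 57379) (nat_lit 3) (.e (nat_lit 98341) (nat_lit 20) (.e (nat_lit 221214) (nat_lit 23) (.e (nat_lit 204861) (nat_lit 26) (.e (nat_lit 336026) (nat_lit 3) .nil))))))) (.g (nat_lit 4) .nil .nil))) 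
(.lf (nat_lit 223482) (.g (nat_lit 1613) (.e (nat_lit 98333) (nat_lit 18) (.e (nat_lit 164325) (nat_lit 230) (.e (nat_lit 163874) (nat_lit 3) (.e (nat_lit 204838) (nat_lit 20) .nil)))) .nil))))) (.nd (nat_lit 3) (.nd (nat_lit 4) (.nd (nat_lit 5) 
(.lf (nat_lit 223430) (.g (nat_lit 1176) (.e (nat_lit 98333) (nat_lit 18) (.e (nat_lit 164182) (nat_lit 154) (.e (nat_lit 57410) (nat_lit 12) (.e (nat_lit 336367) (nat_lit 27) (.e (nat_lit 426542) (nat_lit 29) .nil))))) .nil)) 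
(.lf (nat_lit 223462) (.g (nat_lit 316) (.e (nat_lit 98333) (nat_lit 18) (.e (nat_lit 164183) (nat_lit 154) (.e (nat_lit 57411) (nat_lit 12) .nil))) .nil))) (.nd (nat_lit 5) 
(.lf (nat_lit 223446) (.g (nat_lit 1962) (.e (nat_lit 98333) (nat_lit 18) (.e (nat_lit 164182) (nat_lit 154) (.e (nat_lit 57447) (nat_lit 19) (.e (nat_lit 393224) (nat_lit 9) .nil)))) .nil)) 
(.lf (nat_lit 223478) (.g (nat_lit 555) (.e (nat_lit 98333) (nat_lit 18) (.e (nat_lit 164325) (nat_lit 230) (.e (nat_lit 163861) (nat_lit 1) .nil))) .nil)))) (.nd (nat_lit 4) (.nd (nat_lit 5) 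
(.lf (nat_lit 223438) (.g (nat_lit 1569) (.e (nat_lit 98333) (nat_lit 18) (.e (nat_lit 164182) (nat_lit 154) (.e (nat_lit 57411) (nat_lit 12) (.e (nat_lit 336414) (nat_lit 27) .nil)))) .nil)) 
(.lf (nat_lit 223470) (.g (nat_lit 2283) (.e (nat_lit 98333) (nat_lit 18) (.e (nat_lit 164183) (nat_lit 154) (.e (nat_lit 57447) (nat_lit 19) (.e (nat_lit 393225) (nat_lit 9) (.e (nat_lit 336158) (nat_lit 9) (.e (nat_lit 336021) (nat_lit 3) .nil)))))) (.g (nat_lit 4) .nil .nil)))) (.nd (nat_lit 5) 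
(.lf (nat_lit 223454) (.g (nat_lit 1464) (.e (nat_lit 98333) (nat_lit 18) (.e (nat_lit 164183) (nat_lit 154) (.e (nat_lit 57409) (nat_lit 12) (.e (nat_lit 336375) (nat_lit 27) .nil)))) .nil)) 
(.lf (nat_lit 223486) (.g (nat_lit 4337) (.e (nat_lit 98333) (nat_lit 18) (.e (nat_lit 164325) (nat_lit 230) (.e (nat_lit 163875) (nat_lit 3) (.e (nat_lit 204837) (nat_lit 20) (.e (nat_lit 114718) (nat_lit 23) (.e (nat_lit 98356) (nat_lit 26) (.e (nat_lit 426438) (nat_lit 18) .nil))))))) (.g (nat_lit 7) .nil .nil)))))))) 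
(.nd (nat_lit 1) (.nd (nat_lit 2) (.nd (nat_lit 3) (.nd (nat_lit 4) (.nd (nat_lit 5) 
(.lf (nat_lit 223425) (.g (nat_lit 1710) (.e (nat_lit 98333) (nat_lit 18) (.e (nat_lit 164182) (nat_lit 154) (.e (nat_lit 57409) (nat_lit 12) (.e (nat_lit 336379) (nat_lit 27) (.e (nat_lit 426552) (nat_lit 32) .nil))))) .nil)) 
(.lf (nat_lit 223457) (.g (nat_lit 1587) (.e (nat_lit 98333) (nat_lit 18) (.e (nat_lit 164183) (nat_lit 154) (.e (nat_lit 57409) (nat_lit 12) (.e (nat_lit 336414) (nat_lit 27) (.e (nat_lit 426541) (nat_lit 29) .nil))))) .nil))) (.nd (nat_lit 5) 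
(.lf (nat_lit 223441) (.g (nat_lit 2479) (.e (nat_lit 98333) (nat_lit 18) (.e (nat_lit 164182) (nat_lit 154) (.e (nat_lit 57411) (nat_lit 12) (.e (nat_lit 336454) (nat_lit 34) (.e (nat_lit 483391) (nat_lit 23) (.e (nat_lit 336017) (nat_lit 3) .nil)))))) (.g (nat_lit 4) .nil .nil))) 
(.lf (nat_lit 223473) (.g (nat_lit 2558) (.e (nat_lit 98333) (nat_lit 18) (.e (nat_lit 164183) (nat_lit 154) (.e (nat_lit 57447) (nat_lit 19) (.e (nat_lit 393238) (nat_lit 17) (.e (nat_lit 3545) (nat_lit 219) .nil))))) .nil)))) (.nd (nat_lit 4) (.nd (nat_lit 5) 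
(.lf (nat_lit 223433) (.g (nat_lit 1489) (.e (nat_lit 98333) (nat_lit 18) (.e (nat_lit 164182) (nat_lit 154) (.e (nat_lit 57411) (nat_lit 12) (.e (nat_lit 336372) (nat_lit 27) .nil)))) .nil)) 
(.lf (nat_lit 223465) (.g (nat_lit 1588) (.e (nat_lit 98333) (nat_lit 18) (.e (nat_lit 164183) (nat_lit 154) (.e (nat_lit 57411) (nat_lit 12) (.e (nat_lit 336375) (nat_lit 27) .nil)))) .nil))) (.nd (nat_lit 5) 
(.lf (nat_lit 223449) (.g (nat_lit 1304) (.e (nat_lit 98333) (nat_lit 18) (.e (nat_lit 164183) (nat_lit 154) (.e (nat_lit 57378) (nat_lit 3) (.e (nat_lit 98340) (nat_lit 20) .nil)))) .nil)) 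
(.lf (nat_lit 223481) (.g (nat_lit 3905) (.e (nat_lit 98333) (nat_lit 18) (.e (nat_lit 164325) (nat_lit 230) (.e (nat_lit 163873) (nat_lit 3) (.e (nat_lit 204813) (nat_lit 9) (.e (nat_lit 426139) (nat_lit 3) (.e (nat_lit 204817) (nat_lit 17) (.e (nat_lit 2198) (nat_lit 144) (.e (nat_lit 720945) (nat_lit 23) .nil)))))))) (.g (nat_lit 4) .nil .nil)))))) 
(.nd (nat_lit 3) (.nd (nat_lit 4) (.nd (nat_lit 5) 
(.lf (nat_lit 223429) (.g (nat_lit 473) (.e (nat_lit 98333) (nat_lit 18) (.e (nat_lit 164182) (nat_lit 154) (.e (nat_lit 57410) (nat_lit 12) .nil))) .nil)) 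
(.lf (nat_lit 223461) (.g (nat_lit 462) (.e (nat_lit 98333) (nat_lit 18) (.e (nat_lit 164183) (nat_lit 154) (.e (nat_lit 57410) (nat_lit 12) .nil))) .nil))) (.nd (nat_lit 5) 
(.lf (nat_lit 223445) (.g (nat_lit 430) (.e (nat_lit 98333) (nat_lit 18) (.e (nat_lit 164182) (nat_lit 154) (.e (nat_lit 57444) (nat_lit 19) .nil))) .nil)) 
(.lf (nat_lit 223477) (.g (nat_lit 2325) (.e (nat_lit 98333) (nat_lit 18) (.e (nat_lit 164324) (nat_lit 230) (.e (nat_lit 163903) (nat_lit 12) (.e (nat_lit 426566) (nat_lit 34) (.e (nat_lit 393268) (nat_lit 23) .nil))))) .nil)))) (.nd (nat_lit 4) (.nd (nat_lit 5) 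
(.lf (nat_lit 223437) (.g (nat_lit 1482) (.e (nat_lit 98333) (nat_lit 18) (.e (nat_lit 164182) (nat_lit 154) (.e (nat_lit 57411) (nat_lit 12) (.e (nat_lit 336379) (nat_lit 27) .nil)))) .nil)) 
(.lf (nat_lit 223469) (.g (nat_lit 2338) (.e (nat_lit 98333) (nat_lit 18) (.e (nat_lit 164183) (nat_lit 154) (.e (nat_lit 57411) (nat_lit 12) (.e (nat_lit 336456) (nat_lit 34) (.e (nat_lit 483389) (nat_lit 23) (.e (nat_lit 336023) (nat_lit 3) .nil)))))) (.g (nat_lit 0) .nil .nil)))) (.nd (nat_lit 5) 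
(.lf (nat_lit 223453) (.g (nat_lit 2955) (.e (nat_lit 98333) (nat_lit 18) (.e (nat_lit 164183) (nat_lit 154) (.e (nat_lit 57409) (nat_lit 12) (.e (nat_lit 336367) (nat_lit 27) (.e (nat_lit 426555) (nat_lit 32) (.e (nat_lit 376869) (nat_lit 23) .nil)))))) (.g (nat_lit 0) .nil .nil))) 
(.lf (nat_lit 223485) (.g (nat_lit 1855) (.e (nat_lit 98333) (nat_lit 18) (.e (nat_lit 164325) (nat_lit 230) (.e (nat_lit 163875) (nat_lit 3) (.e (nat_lit 204836) (nat_lit 20) (.e (nat_lit 114718) (nat_lit 23) .nil))))) .nil)))))) (.nd (nat_lit 2) (.nd (nat_lit 3) (.nd (nat_lit 4) (.nd (nat_lit 5) 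
(.lf (nat_lit 223427) (.g (nat_lit 2554) (.e (nat_lit 98333) (nat_lit 18) (.e (nat_lit 164182) (nat_lit 154) (.e (nat_lit 57409) (nat_lit 12) (.e (nat_lit 336456) (nat_lit 34) (.e (nat_lit 483389) (nat_lit 23) (.e (nat_lit 336023) (nat_lit 3) .nil)))))) (.g (nat_lit 0) .nil .nil))) 
(.lf (nat_lit 223459) (.g (nat_lit 1785) (.e (nat_lit 98333) (nat_lit 18) (.e (nat_lit 164183) (nat_lit 154) (.e (nat_lit 57409) (nat_lit 12) (.e (nat_lit 336454) (nat_lit 34) (.e (nat_lit 483390) (nat_lit 23) (.e (nat_lit 336023) (nat_lit 3) .nil)))))) (.g (nat_lit 4) .nil .nil)))) (.nd (nat_lit 5) 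
(.lf (nat_lit 223443) (.g (nat_lit 3240) (.e (nat_lit 98333) (nat_lit 18) (.e (nat_lit 164182) (nat_lit 154) (.e (nat_lit 57411) (nat_lit 12) (.e (nat_lit 336456) (nat_lit 34) (.e (nat_lit 483393) (nat_lit 23) (.e (nat_lit 336025) (nat_lit 3) .nil)))))) (.g (nat_lit 5) .nil .nil))) 
(.lf (nat_lit 223475) (.g (nat_lit 2371) (.e (nat_lit 98333) (nat_lit 18) (.e (nat_lit 164183) (nat_lit 154) (.e (nat_lit 57448) (nat_lit 19) (.e (nat_lit 393227) (nat_lit 9) (.e (nat_lit 336152) (nat_lit 9) (.e (nat_lit 336017) (nat_lit 3) .nil)))))) (.g (nat_lit 0) .nil .nil))))) (.nd (nat_lit 4) (.nd (nat_lit 5) 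
(.lf (nat_lit 223435) (.g (nat_lit 1693) (.e (nat_lit 98333) (nat_lit 18) (.e (nat_lit 164182) (nat_lit 154) (.e (nat_lit 57411) (nat_lit 12) (.e (nat_lit 336375) (nat_lit 27) .nil)))) .nil)) 
(.lf (nat_lit 223467) (.g (nat_lit 2022) (.e (nat_lit 98333) (nat_lit 18) (.e (nat_lit 164183) (nat_lit 154) (.e (nat_lit 57411) (nat_lit 12) (.e (nat_lit 336414) (nat_lit 27) (.e (nat_lit 426554) (nat_lit 32) .nil))))) .nil))) (.nd (nat_lit 5) 
(.lf (nat_lit 223451) (.g (nat_lit 3467) (.e (nat_lit 98333) (nat_lit 18) (.e (nat_lit 164183) (nat_lit 154) (.e (nat_lit 57379) (nat_lit 3) (.e (nat_lit 98342) (nat_lit 20) (.e (nat_lit 221214) (nat_lit 23) (.e (nat_lit 204861) (nat_lit 26) (.e (nat_lit 336021) (nat_lit 3) .nil))))))) (.g (nat_lit 6) .nil .nil))) 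
(.lf (nat_lit 223483) (.g (nat_lit 3349) (.e (nat_lit 98333) (nat_lit 18) (.e (nat_lit 164325) (nat_lit 230) (.e (nat_lit 163875) (nat_lit 3) (.e (nat_lit 204809) (nat_lit 9) (.e (nat_lit 426139) (nat_lit 3) (.e (nat_lit 204817) (nat_lit 17) (.e (nat_lit 2198) (nat_lit 144) (.e (nat_lit 720945) (nat_lit 23) .nil)))))))) (.g (nat_lit 5) .nil .nil)))))) 
(.nd (nat_lit 3) (.nd (nat_lit 4) (.nd (nat_lit 5) 
(.lf (nat_lit 223431) (.g (nat_lit 1557) (.e (nat_lit 98333) (nat_lit 18) (.e (nat_lit 164182) (nat_lit 154) (.e (nat_lit 57411) (nat_lit 12) (.e (nat_lit 336366) (nat_lit 27) .nil)))) .nil)) 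
(.lf (nat_lit 223463) (.g (nat_lit 1589) (.e (nat_lit 98333) (nat_lit 18) (.e (nat_lit 164183) (nat_lit 154) (.e (nat_lit 57411) (nat_lit 12) (.e (nat_lit 335878) (nat_lit 0) (.e (nat_lit 7936) (nat_lit 151) .nil))))) .nil))) (.nd (nat_lit 5) 
(.lf (nat_lit 223447) (.g (nat_lit 2399) (.e (nat_lit 98333) (nat_lit 18) (.e (nat_lit 164182) (nat_lit 154) (.e (nat_lit 57447) (nat_lit 19) (.e (nat_lit 393225) (nat_lit 9) (.e (nat_lit 336087) (nat_lit 9) .nil))))) .nil)) 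
(.lf (nat_lit 223479) (.g (nat_lit 3472) (.e (nat_lit 98333) (nat_lit 18) (.e (nat_lit 164325) (nat_lit 230) (.e (nat_lit 163868) (nat_lit 2) (.e (nat_lit 196656) (nat_lit 11) (.e (nat_lit 16416) (nat_lit 3) (.e (nat_lit 204817) (nat_lit 17) (.e (nat_lit 2198) (nat_lit 144) (.e (nat_lit 720945) (nat_lit 23) .nil)))))))) (.g (nat_lit 5) .nil .nil))))) (.nd (nat_lit 4) (.nd (nat_lit 5) 
(.lf (nat_lit 223439) (.g (nat_lit 1432) (.e (nat_lit 98333) (nat_lit 18) (.e (nat_lit 164182) (nat_lit 154) (.e (nat_lit 57411) (nat_lit 12) (.e (nat_lit 343808) (nat_lit 27) .nil)))) .nil)) 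
(.lf (nat_lit 223471) (.g (nat_lit 1896) (.e (nat_lit 98333) (nat_lit 18) (.e (nat_lit 164183) (nat_lit 154) (.e (nat_lit 57447) (nat_lit 19) (.e (nat_lit 393226) (nat_lit 9) .nil)))) .nil))) (.nd (nat_lit 5) 
(.lf (nat_lit 223455) (.g (nat_lit 1397) (.e (nat_lit 98333) (nat_lit 18) (.e (nat_lit 164183) (nat_lit 154) (.e (nat_lit 57409) (nat_lit 12) (.e (nat_lit 336379) (nat_lit 27) (.e (nat_lit 426552) (nat_lit 32) .nil))))) .nil)) 
(.lf (nat_lit 223487) (.g (nat_lit 1921) (.e (nat_lit 98333) (nat_lit 18) (.e (nat_lit 164325) (nat_lit 230) (.e (nat_lit 163875) (nat_lit 3) (.e (nat_lit 204838) (nat_lit 20) (.e (nat_lit 114717) (nat_lit 23) .nil))))) .nil))))))))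

noncomputable def tv2931 : DT := (.nd (nat_lit 0) (.nd (nat_lit 1) (.nd (nat_lit 2) (.nd (nat_lit 3) (.nd (nat_lit 4) (.nd (nat_lit 5) (.nd (nat_lit 6) 
(.lf (nat_lit 223488) (.g (nat_lit 4087) (.e (nat_lit 98333) (nat_lit 18) (.e (nat_lit 164325) (nat_lit 230) (.e (nat_lit 163875) (nat_lit 3) (.e (nat_lit 204838) (nat_lit 20) (.e (nat_lit 114718) (nat_lit 23) (.e (nat_lit 98356) (nat_lit 26) (.e (nat_lit 426438) (nat_lit 18) .nil))))))) (.g (nat_lit 7) .nil .nil))) 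
(.lf (nat_lit 223552) (.g (nat_lit 2658) (.e (nat_lit 98333) (nat_lit 18) (.e (nat_lit 164397) (nat_lit 256) (.e (nat_lit 57375) (nat_lit 2) (.e (nat_lit 90172) (nat_lit 14) (.e (nat_lit 180244) (nat_lit 5) (.e (nat_lit 532508) (nat_lit 2) (.e (nat_lit 106517) (nat_lit 9) (.e (nat_lit 1255) (nat_lit 92) .nil)))))))) (.g (nat_lit 4) .nil .nil)))) (.nd (nat_lit 6) 
(.lf (nat_lit 223520) (.g (nat_lit 2399) (.e (nat_lit 98333) (nat_lit 18) (.e (nat_lit 164327) (nat_lit 230) (.e (nat_lit 163875) (nat_lit 3) (.e (nat_lit 204837) (nat_lit 20) (.e (nat_lit 114716) (nat_lit 22) .nil))))) .nil)) 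
(.lf (nat_lit 223584) (.g (nat_lit 2579) (.e (nat_lit 98333) (nat_lit 18) (.e (nat_lit 164398) (nat_lit 256) (.e (nat_lit 57375) (nat_lit 2) (.e (nat_lit 90174) (nat_lit 14) (.e (nat_lit 180243) (nat_lit 5) (.e (nat_lit 532508) (nat_lit 2) (.e (nat_lit 106526) (nat_lit 9) (.e (nat_lit 1252) (nat_lit 92) .nil)))))))) (.g (nat_lit 4) .nil .nil))))) (.nd (nat_lit 5) (.nd (nat_lit 6) 
(.lf (nat_lit 223504) (.g (nat_lit 1982) (.e (nat_lit 98333) (nat_lit 18) (.e (nat_lit 164325) (nat_lit 230) (.e (nat_lit 163928) (nat_lit 16) (.e (nat_lit 458789) (nat_lit 23) (.e (nat_lit 532566) (nat_lit 15) .nil))))) .nil)) 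
(.lf (nat_lit 223568) (.g (nat_lit 2877) (.e (nat_lit 98333) (nat_lit 18) (.e (nat_lit 164398) (nat_lit 256) (.e (nat_lit 57373) (nat_lit 2) (.e (nat_lit 90172) (nat_lit 14) (.e (nat_lit 180244) (nat_lit 5) (.e (nat_lit 532508) (nat_lit 2) (.e (nat_lit 106517) (nat_lit 9) (.e (nat_lit 1255) (nat_lit 92) .nil)))))))) (.g (nat_lit 4) .nil .nil)))) (.nd (nat_lit 6) 
(.lf (nat_lit 223536) (.g (nat_lit 1643) (.e (nat_lit 98333) (nat_lit 18) (.e (nat_lit 164331) (nat_lit 230) (.e (nat_lit 163902) (nat_lit 12) (.e (nat_lit 426479) (nat_lit 27) .nil)))) .nil)) 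
(.lf (nat_lit 223600) (.g (nat_lit 3598) (.e (nat_lit 98333) (nat_lit 18) (.e (nat_lit 164399) (nat_lit 256) (.e (nat_lit 57370) (nat_lit 2) (.e (nat_lit 90170) (nat_lit 13) (.e (nat_lit 172065) (nat_lit 3) (.e (nat_lit 204838) (nat_lit 20) (.e (nat_lit 114717) (nat_lit 23) .nil))))))) (.g (nat_lit 5) .nil .nil)))))) (.nd (nat_lit 4) (.nd (nat_lit 5) (.nd (nat_lit 6) 
(.lf (nat_lit 223496) (.g (nat_lit 2410) (.e (nat_lit 98333) (nat_lit 18) (.e (nat_lit 164325) (nat_lit 230) (.e (nat_lit 163903) (nat_lit 12) (.e (nat_lit 426568) (nat_lit 34) (.e (nat_lit 393272) (nat_lit 23) .nil))))) .nil)) 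
(.lf (nat_lit 223560) (.g (nat_lit 3233) (.e (nat_lit 98333) (nat_lit 18) (.e (nat_lit 164398) (nat_lit 256) (.e (nat_lit 57372) (nat_lit 2) (.e (nat_lit 90172) (nat_lit 14) (.e (nat_lit 180244) (nat_lit 5) (.e (nat_lit 532513) (nat_lit 3) (.e (nat_lit 114717) (nat_lit 23) .nil))))))) (.g (nat_lit 4) .nil .nil)))) (.nd (nat_lit 6) 
(.lf (nat_lit 223528) (.g (nat_lit 2610) (.e (nat_lit 98333) (nat_lit 18) (.e (nat_lit 164327) (nat_lit 230) (.e (nat_lit 163903) (nat_lit 12) (.e (nat_lit 426568) (nat_lit 34) (.e (nat_lit 393275) (nat_lit 23) .nil))))) .nil)) 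
(.lf (nat_lit 223592) (.g (nat_lit 1928) (.e (nat_lit 98333) (nat_lit 18) (.e (nat_lit 164398) (nat_lit 256) (.e (nat_lit 57379) (nat_lit 3) (.e (nat_lit 98366) (nat_lit 27) (.e (nat_lit 434231) (nat_lit 23) .nil))))) .nil)))) (.nd (nat_lit 5) (.nd (nat_lit 6) 
(.lf (nat_lit 223512) (.g (nat_lit 1966) (.e (nat_lit 98333) (nat_lit 18) (.e (nat_lit 164327) (nat_lit 230) (.e (nat_lit 163868) (nat_lit 2) (.e (nat_lit 196658) (nat_lit 12) .nil)))) .nil)) 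
(.lf (nat_lit 223576) (.g (nat_lit 3887) (.e (nat_lit 98333) (nat_lit 18) (.e (nat_lit 164398) (nat_lit 256) (.e (nat_lit 57373) (nat_lit 2) (.e (nat_lit 90174) (nat_lit 14) (.e (nat_lit 180243) (nat_lit 5) (.e (nat_lit 532513) (nat_lit 3) (.e (nat_lit 114717) (nat_lit 23) .nil))))))) (.g (nat_lit 6) .nil .nil)))) (.nd (nat_lit 6) 
(.lf (nat_lit 223544) (.g (nat_lit 2094) (.e (nat_lit 98333) (nat_lit 18) (.e (nat_lit 164332) (nat_lit 230) (.e (nat_lit 163905) (nat_lit 12) (.e (nat_lit 426479) (nat_lit 27) (.e (nat_lit 336443) (nat_lit 32) (.e (nat_lit 474880) (nat_lit 3) .nil)))))) (.g (nat_lit 5) .nil .nil))) 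
(.lf (nat_lit 223608) (.g (nat_lit 3237) (.e (nat_lit 98333) (nat_lit 18) (.e (nat_lit 164399) (nat_lit 256) (.e (nat_lit 57370) (nat_lit 2) (.e (nat_lit 90174) (nat_lit 14) (.e (nat_lit 180243) (nat_lit 5) (.e (nat_lit 532508) (nat_lit 2) (.e (nat_lit 106526) (nat_lit 9) (.e (nat_lit 1252) (nat_lit 92) .nil)))))))) (.g (nat_lit 5) .nil .nil))))))) 
(.nd (nat_lit 3) (.nd (nat_lit 4) (.nd (nat_lit 5) (.nd (nat_lit 6) 
(.lf (nat_lit 223492) (.g (nat_lit 1193) (.e (nat_lit 98333) (nat_lit 18) (.e (nat_lit 164325) (nat_lit 230) (.e (nat_lit 163903) (nat_lit 12) (.e (nat_lit 426568) (nat_lit 34) .nil)))) .nil)) 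
(.lf (nat_lit 223556) (.g (nat_lit 2996) (.e (nat_lit 98333) (nat_lit 18) (.e (nat_lit 164398) (nat_lit 256) (.e (nat_lit 57371) (nat_lit 2) (.e (nat_lit 90172) (nat_lit 14) (.e (nat_lit 180244) (nat_lit 5) (.e (nat_lit 532515) (nat_lit 3) (.e (nat_lit 114719) (nat_lit 23) .nil))))))) (.g (nat_lit 4) .nil .nil)))) (.nd (nat_lit 6) 
(.lf (nat_lit 223524) (.g (nat_lit 2141) (.e (nat_lit 98333) (nat_lit 18) (.e (nat_lit 164327) (nat_lit 230) (.e (nat_lit 163903) (nat_lit 12) (.e (nat_lit 426564) (nat_lit 34) (.e (nat_lit 393270) (nat_lit 23) .nil))))) .nil)) 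
(.lf (nat_lit 223588) (.g (nat_lit 2584) (.e (nat_lit 98333) (nat_lit 18) (.e (nat_lit 164398) (nat_lit 256) (.e (nat_lit 57378) (nat_lit 3) (.e (nat_lit 98358) (nat_lit 26) (.e (nat_lit 426131) (nat_lit 3) (.e (nat_lit 204838) (nat_lit 20) (.e (nat_lit 114717) (nat_lit 23) .nil))))))) (.g (nat_lit 4) .nil .nil))))) (.nd (nat_lit 5) (.nd (nat_lit 6) 
(.lf (nat_lit 223508) (.g (nat_lit 1871) (.e (nat_lit 98333) (nat_lit 18) (.e (nat_lit 164325) (nat_lit 230) (.e (nat_lit 163943) (nat_lit 19) (.e (nat_lit 483350) (nat_lit 17) .nil)))) .nil)) 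
(.lf (nat_lit 223572) (.g (nat_lit 2697) (.e (nat_lit 98333) (nat_lit 18) (.e (nat_lit 164398) (nat_lit 256) (.e (nat_lit 57373) (nat_lit 2) (.e (nat_lit 90174) (nat_lit 14) (.e (nat_lit 180243) (nat_lit 5) (.e (nat_lit 532508) (nat_lit 2) (.e (nat_lit 106523) (nat_lit 9) (.e (nat_lit 1254) (nat_lit 92) .nil)))))))) (.g (nat_lit 4) .nil .nil)))) (.nd (nat_lit 6) 
(.lf (nat_lit 223540) (.g (nat_lit 1401) (.e (nat_lit 98333) (nat_lit 18) (.e (nat_lit 164332) (nat_lit 230) (.e (nat_lit 163902) (nat_lit 12) (.e (nat_lit 426484) (nat_lit 27) .nil)))) .nil)) 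
(.lf (nat_lit 223604) (.g (nat_lit 3101) (.e (nat_lit 98333) (nat_lit 18) (.e (nat_lit 164399) (nat_lit 256) (.e (nat_lit 57370) (nat_lit 2) (.e (nat_lit 90174) (nat_lit 14) (.e (nat_lit 180243) (nat_lit 5) (.e (nat_lit 532508) (nat_lit 2) (.e (nat_lit 106517) (nat_lit 9) (.e (nat_lit 1255) (nat_lit 92) .nil)))))))) (.g (nat_lit 5) .nil .nil)))))) 
(.nd (nat_lit 4) (.nd (nat_lit 5) (.nd (nat_lit 6) 
(.lf (nat_lit 223500) (.g (nat_lit 1559) (.e (nat_lit 98333) (nat_lit 18) (.e (nat_lit 164325) (nat_lit 230) (.e (nat_lit 163907) (nat_lit 12) (.e (nat_lit 426484) (nat_lit 27) .nil)))) .nil)) 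
(.lf (nat_lit 223564) (.g (nat_lit 3699) (.e (nat_lit 98333) (nat_lit 18) (.e (nat_lit 164398) (nat_lit 256) (.e (nat_lit 57372) (nat_lit 2) (.e (nat_lit 90174) (nat_lit 14) (.e (nat_lit 180243) (nat_lit 5) (.e (nat_lit 532515) (nat_lit 3) (.e (nat_lit 114719) (nat_lit 23) .nil))))))) (.g (nat_lit 5) .nil .nil)))) (.nd (nat_lit 6) 
(.lf (nat_lit 223532) (.g (nat_lit 933) (.e (nat_lit 98333) (nat_lit 18) (.e (nat_lit 164327) (nat_lit 230) (.e (nat_lit 163941) (nat_lit 19) (.e (nat_lit 483339) (nat_lit 9) .nil)))) .nil)) 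
(.lf (nat_lit 223596) (.g (nat_lit 2545) (.e (nat_lit 98333) (nat_lit 18) (.e (nat_lit 164398) (nat_lit 256) (.e (nat_lit 57379) (nat_lit 3) (.e (nat_lit 98367) (nat_lit 27) (.e (nat_lit 434234) (nat_lit 23) .nil))))) .nil)))) (.nd (nat_lit 5) (.nd (nat_lit 6) 
(.lf (nat_lit 223516) (.g (nat_lit 1856) (.e (nat_lit 98333) (nat_lit 18) (.e (nat_lit 164327) (nat_lit 230) (.e (nat_lit 163873) (nat_lit 3) (.e (nat_lit 204815) (nat_lit 17) (.e (nat_lit 2198) (nat_lit 144) .nil))))) .nil)) 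
(.lf (nat_lit 223580) (.g (nat_lit 3878) (.e (nat_lit 98333) (nat_lit 18) (.e (nat_lit 164398) (nat_lit 256) (.e (nat_lit 57374) (nat_lit 2) (.e (nat_lit 90170) (nat_lit 13) (.e (nat_lit 172065) (nat_lit 3) (.e (nat_lit 204838) (nat_lit 20) (.e (nat_lit 114719) (nat_lit 23) .nil))))))) (.g (nat_lit 4) .nil .nil)))) (.nd (nat_lit 6) 
(.lf (nat_lit 223548) (.g (nat_lit 1509) (.e (nat_lit 98333) (nat_lit 18) (.e (nat_lit 164332) (nat_lit 230) (.e (nat_lit 163905) (nat_lit 12) (.e (nat_lit 426568) (nat_lit 34) (.e (nat_lit 393279) (nat_lit 23) (.e (nat_lit 433920) (nat_lit 18) .nil)))))) (.g (nat_lit 4) .nil .nil))) 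
(.lf (nat_lit 223612) (.g (nat_lit 2957) (.e (nat_lit 98333) (nat_lit 18) (.e (nat_lit 164399) (nat_lit 256) (.e (nat_lit 57370) (nat_lit 2) (.e (nat_lit 90174) (nat_lit 14) (.e (nat_lit 180243) (nat_lit 5) (.e (nat_lit 532513) (nat_lit 3) (.e (nat_lit 114717) (nat_lit 23) .nil))))))) (.g (nat_lit 5) .nil .nil)))))))) 
(.nd (nat_lit 2) (.nd (nat_lit 3) (.nd (nat_lit 4) (.nd (nat_lit 5) (.nd (nat_lit 6) 
(.lf (nat_lit 223490) (.g (nat_lit 1643) (.e (nat_lit 98333) (nat_lit 18) (.e (nat_lit 164325) (nat_lit 230) (.e (nat_lit 163902) (nat_lit 12) (.e (nat_lit 426568) (nat_lit 34) .nil)))) .nil)) 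
(.lf (nat_lit 223554) (.g (nat_lit 2842) (.e (nat_lit 98333) (nat_lit 18) (.e (nat_lit 164397) (nat_lit 256) (.e (nat_lit 57379) (nat_lit 3) (.e (nat_lit 98366) (nat_lit 27) (.e (nat_lit 434231) (nat_lit 23) (.e (nat_lit 532507) (nat_lit 2) (.e (nat_lit 106517) (nat_lit 9) (.e (nat_lit 1255) (nat_lit 92) .nil)))))))) (.g (nat_lit 4) .nil .nil)))) (.nd (nat_lit 6) 
(.lf (nat_lit 223522) (.g (nat_lit 1026) (.e (nat_lit 98333) (nat_lit 18) (.e (nat_lit 164327) (nat_lit 230) (.e (nat_lit 163901) (nat_lit 12) .nil))) .nil)) 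
(.lf (nat_lit 223586) (.g (nat_lit 1624) (.e (nat_lit 98333) (nat_lit 18) (.e (nat_lit 164398) (nat_lit 256) (.e (nat_lit 57377) (nat_lit 3) (.e (nat_lit 98376) (nat_lit 30) .nil)))) .nil)))) (.nd (nat_lit 5) (.nd (nat_lit 6) 
(.lf (nat_lit 223506) (.g (nat_lit 2803) (.e (nat_lit 98333) (nat_lit 18) (.e (nat_lit 164325) (nat_lit 230) (.e (nat_lit 163943) (nat_lit 19) (.e (nat_lit 483333) (nat_lit 0) (.e (nat_lit 6988) (nat_lit 377) (.e (nat_lit 1076) (nat_lit 81) (.e (nat_lit 5629) (nat_lit 312) (.e (nat_lit 112) (nat_lit 3) .nil)))))))) (.g (nat_lit 4) .nil .nil))) 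
(.lf (nat_lit 223570) (.g (nat_lit 2520) (.e (nat_lit 98333) (nat_lit 18) (.e (nat_lit 164398) (nat_lit 256) (.e (nat_lit 57373) (nat_lit 2) (.e (nat_lit 90174) (nat_lit 14) (.e (nat_lit 180243) (nat_lit 5) (.e (nat_lit 532508) (nat_lit 2) (.e (nat_lit 106504) (nat_lit 9) (.e (nat_lit 1251) (nat_lit 92) .nil)))))))) (.g (nat_lit 4) .nil .nil)))) (.nd (nat_lit 6) 
(.lf (nat_lit 223538) (.g (nat_lit 1819) (.e (nat_lit 98333) (nat_lit 18) (.e (nat_lit 164332) (nat_lit 230) (.e (nat_lit 163874) (nat_lit 3) (.e (nat_lit 204838) (nat_lit 20) (.e (nat_lit 114719) (nat_lit 23) .nil))))) .nil)) 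
(.lf (nat_lit 223602) (.g (nat_lit 3089) (.e (nat_lit 98333) (nat_lit 18) (.e (nat_lit 164399) (nat_lit 256) (.e (nat_lit 57370) (nat_lit 2) (.e (nat_lit 90172) (nat_lit 14) (.e (nat_lit 180244) (nat_lit 5) (.e (nat_lit 532513) (nat_lit 3) (.e (nat_lit 114717) (nat_lit 23) .nil))))))) (.g (nat_lit 5) .nil .nil)))))) (.nd (nat_lit 4) (.nd (nat_lit 5) (.nd (nat_lit 6) 
(.lf (nat_lit 223498) (.g (nat_lit 2161) (.e (nat_lit 98333) (nat_lit 18) (.e (nat_lit 164325) (nat_lit 230) (.e (nat_lit 163903) (nat_lit 12) (.e (nat_lit 426568) (nat_lit 34) (.e (nat_lit 393279) (nat_lit 23) (.e (nat_lit 433920) (nat_lit 18) .nil)))))) (.g (nat_lit 4) .nil .nil))) 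
(.lf (nat_lit 223562) (.g (nat_lit 3117) (.e (nat_lit 98333) (nat_lit 18) (.e (nat_lit 164398) (nat_lit 256) (.e (nat_lit 57372) (nat_lit 2) (.e (nat_lit 90174) (nat_lit 14) (.e (nat_lit 180243) (nat_lit 5) (.e (nat_lit 532508) (nat_lit 2) (.e (nat_lit 106517) (nat_lit 9) (.e (nat_lit 1255) (nat_lit 92) .nil)))))))) (.g (nat_lit 4) .nil .nil)))) (.nd (nat_lit 6) 
(.lf (nat_lit 223530) (.g (nat_lit 2646) (.e (nat_lit 98333) (nat_lit 18) (.e (nat_lit 164327) (nat_lit 230) (.e (nat_lit 163903) (nat_lit 12) (.e (nat_lit 426568) (nat_lit 34) (.e (nat_lit 393279) (nat_lit 23) (.e (nat_lit 426435) (nat_lit 18) .nil)))))) (.g (nat_lit 4) .nil .nil))) 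
(.lf (nat_lit 223594) (.g (nat_lit 3342) (.e (nat_lit 98333) (nat_lit 18) (.e (nat_lit 164398) (nat_lit 256) (.e (nat_lit 57379) (nat_lit 3) (.e (nat_lit 98367) (nat_lit 27) (.e (nat_lit 434231) (nat_lit 23) (.e (nat_lit 532514) (nat_lit 3) (.e (nat_lit 114717) (nat_lit 23) .nil))))))) (.g (nat_lit 5) .nil .nil))))) (.nd (nat_lit 5) (.nd (nat_lit 6) 
(.lf (nat_lit 223514) (.g (nat_lit 2498) (.e (nat_lit 98333) (nat_lit 18) (.e (nat_lit 164327) (nat_lit 230) (.e (nat_lit 163873) (nat_lit 3) (.e (nat_lit 204809) (nat_lit 9) (.e (nat_lit 426139) (nat_lit 3) (.e (nat_lit 204833) (nat_lit 19) (.e (nat_lit 106513) (nat_lit 9) (.e (nat_lit 1251) (nat_lit 92) .nil)))))))) (.g (nat_lit 4) .nil .nil))) 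
(.lf (nat_lit 223578) (.g (nat_lit 2232) (.e (nat_lit 98333) (nat_lit 18) (.e (nat_lit 164398) (nat_lit 256) (.e (nat_lit 57373) (nat_lit 2) (.e (nat_lit 90174) (nat_lit 14) (.e (nat_lit 180245) (nat_lit 5) .nil))))) .nil))) (.nd (nat_lit 6) 
(.lf (nat_lit 223546) (.g (nat_lit 1763) (.e (nat_lit 98333) (nat_lit 18) (.e (nat_lit 164332) (nat_lit 230) (.e (nat_lit 163905) (nat_lit 12) (.e (nat_lit 426568) (nat_lit 34) (.e (nat_lit 393275) (nat_lit 23) .nil))))) .nil)) 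
(.lf (nat_lit 223610) (.g (nat_lit 2330) (.e (nat_lit 98333) (nat_lit 18) (.e (nat_lit 164399) (nat_lit 256) (.e (nat_lit 57370) (nat_lit 2) (.e (nat_lit 90174) (nat_lit 14) (.e (nat_lit 180243) (nat_lit 5) (.e (nat_lit 532511) (nat_lit 2) (.e (nat_lit 106526) (nat_lit 9) (.e (nat_lit 1252) (nat_lit 92) .nil)))))))) (.g (nat_lit 4) .nil .nil))))))) 
(.nd (nat_lit 3) (.nd (nat_lit 4) (.nd (nat_lit 5) (.nd (nat_lit 6) 
(.lf (nat_lit 223494) (.g (nat_lit 3663) (.e (nat_lit 98333) (nat_lit 18) (.e (nat_lit 164325) (nat_lit 230) (.e (nat_lit 163903) (nat_lit 12) (.e (nat_lit 426568) (nat_lit 34) (.e (nat_lit 393234) (nat_lit 17) (.e (nat_lit 7309) (nat_lit 388) (.e (nat_lit 112) (nat_lit 3) .nil))))))) (.g (nat_lit 5) .nil .nil))) 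
(.lf (nat_lit 223558) (.g (nat_lit 3113) (.e (nat_lit 98333) (nat_lit 18) (.e (nat_lit 164398) (nat_lit 256) (.e (nat_lit 57372) (nat_lit 2) (.e (nat_lit 90172) (nat_lit 14) (.e (nat_lit 180243) (nat_lit 5) (.e (nat_lit 532513) (nat_lit 3) (.e (nat_lit 114717) (nat_lit 23) .nil))))))) (.g (nat_lit 4) .nil .nil)))) (.nd (nat_lit 6) 
(.lf (nat_lit 223526) (.g (nat_lit 1681) (.e (nat_lit 98333) (nat_lit 18) (.e (nat_lit 164327) (nat_lit 230) (.e (nat_lit 163903) (nat_lit 12) (.e (nat_lit 426568) (nat_lit 34) .nil)))) .nil)) 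
(.lf (nat_lit 223590) (.g (nat_lit 1641) (.e (nat_lit 98333) (nat_lit 18) (.e (nat_lit 164398) (nat_lit 256) (.e (nat_lit 57379) (nat_lit 3) (.e (nat_lit 98354) (nat_lit 26) .nil)))) .nil)))) (.nd (nat_lit 5) (.nd (nat_lit 6) 
(.lf (nat_lit 223510) (.g (nat_lit 2373) (.e (nat_lit 98333) (nat_lit 18) (.e (nat_lit 164327) (nat_lit 230) (.e (nat_lit 163868) (nat_lit 2) (.e (nat_lit 196624) (nat_lit 9) (.e (nat_lit 1277) (nat_lit 94) .nil))))) .nil)) 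
(.lf (nat_lit 223574) (.g (nat_lit 2478) (.e (nat_lit 98333) (nat_lit 18) (.e (nat_lit 164398) (nat_lit 256) (.e (nat_lit 57373) (nat_lit 2) (.e (nat_lit 90174) (nat_lit 14) (.e (nat_lit 180243) (nat_lit 5) (.e (nat_lit 532511) (nat_lit 2) (.e (nat_lit 106523) (nat_lit 9) (.e (nat_lit 1254) (nat_lit 92) .nil)))))))) (.g (nat_lit 4) .nil .nil)))) (.nd (nat_lit 6) 
(.lf (nat_lit 223542) (.g (nat_lit 2659) (.e (nat_lit 98333) (nat_lit 18) (.e (nat_lit 164332) (nat_lit 230) (.e (nat_lit 163902) (nat_lit 12) (.e (nat_lit 426568) (nat_lit 34) (.e (nat_lit 393279) (nat_lit 23) (.e (nat_lit 426435) (nat_lit 18) .nil)))))) (.g (nat_lit 4) .nil .nil))) 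
(.lf (nat_lit 223606) (.g (nat_lit 2444) (.e (nat_lit 98333) (nat_lit 18) (.e (nat_lit 164399) (nat_lit 256) (.e (nat_lit 57370) (nat_lit 2) (.e (nat_lit 90174) (nat_lit 14) (.e (nat_lit 180243) (nat_lit 5) (.e (nat_lit 532508) (nat_lit 2) (.e (nat_lit 106526) (nat_lit 9) (.e (nat_lit 1246) (nat_lit 92) .nil)))))))) (.g (nat_lit 4) .nil .nil)))))) 
(.nd (nat_lit 4) (.nd (nat_lit 5) (.nd (nat_lit 6) 
(.lf (nat_lit 223502) (.g (nat_lit 3297) (.e (nat_lit 98333) (nat_lit 18) (.e (nat_lit 164325) (nat_lit 230) (.e (nat_lit 163907) (nat_lit 12) (.e (nat_lit 426568) (nat_lit 34) (.e (nat_lit 393234) (nat_lit 17) (.e (nat_lit 7309) (nat_lit 388) (.e (nat_lit 108) (nat_lit 3) .nil))))))) (.g (nat_lit 4) .nil .nil))) 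
(.lf (nat_lit 223566) (.g (nat_lit 2395) (.e (nat_lit 98333) (nat_lit 18) (.e (nat_lit 164398) (nat_lit 256) (.e (nat_lit 57373) (nat_lit 2) (.e (nat_lit 90172) (nat_lit 14) (.e (nat_lit 180243) (nat_lit 5) .nil))))) .nil))) (.nd (nat_lit 6) 
(.lf (nat_lit 223534) (.g (nat_lit 3139) (.e (nat_lit 98333) (nat_lit 18) (.e (nat_lit 164330) (nat_lit 230) (.e (nat_lit 163902) (nat_lit 12) (.e (nat_lit 426568) (nat_lit 34) (.e (nat_lit 393271) (nat_lit 23) .nil))))) .nil)) 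
(.lf (nat_lit 223598) (.g (nat_lit 2438) (.e (nat_lit 98333) (nat_lit 18) (.e (nat_lit 164399) (nat_lit 256) (.e (nat_lit 57370) (nat_lit 2) (.e (nat_lit 90170) (nat_lit 13) (.e (nat_lit 172065) (nat_lit 3) (.e (nat_lit 204834) (nat_lit 19) (.e (nat_lit 106517) (nat_lit 9) (.e (nat_lit 1252) (nat_lit 92) .nil)))))))) (.g (nat_lit 4) .nil .nil))))) (.nd (nat_lit 5) (.nd (nat_lit 6) 
(.lf (nat_lit 223518) (.g (nat_lit 1757) (.e (nat_lit 98333) (nat_lit 18) (.e (nat_lit 164327) (nat_lit 230) (.e (nat_lit 163875) (nat_lit 3) (.e (nat_lit 204833) (nat_lit 19) .nil)))) .nil)) 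
(.lf (nat_lit 223582) (.g (nat_lit 2764) (.e (nat_lit 98333) (nat_lit 18) (.e (nat_lit 164398) (nat_lit 256) (.e (nat_lit 57375) (nat_lit 2) (.e (nat_lit 90172) (nat_lit 14) (.e (nat_lit 180244) (nat_lit 5) (.e (nat_lit 532513) (nat_lit 3) (.e (nat_lit 114717) (nat_lit 23) .nil))))))) (.g (nat_lit 4) .nil .nil)))) (.nd (nat_lit 6) 
(.lf (nat_lit 223550) (.g (nat_lit 3199) (.e (nat_lit 98333) (nat_lit 18) (.e (nat_lit 164397) (nat_lit 256) (.e (nat_lit 57374) (nat_lit 2) (.e (nat_lit 90170) (nat_lit 13) (.e (nat_lit 172065) (nat_lit 3) (.e (nat_lit 204834) (nat_lit 19) (.e (nat_lit 106517) (nat_lit 9) (.e (nat_lit 1255) (nat_lit 92) .nil)))))))) (.g (nat_lit 4) .nil .nil))) 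
(.lf (nat_lit 223614) (.g (nat_lit 2395) (.e (nat_lit 98333) (nat_lit 18) (.e (nat_lit 164399) (nat_lit 256) (.e (nat_lit 57371) (nat_lit 2) (.e (nat_lit 90172) (nat_lit 14) (.e (nat_lit 180243) (nat_lit 5) .nil))))) .nil)))))))) (.nd (nat_lit 1) (.nd (nat_lit 2) (.nd (nat_lit 3) (.nd (nat_lit 4) (.nd (nat_lit 5) (.nd (nat_lit 6) 
(.lf (nat_lit 223489) (.g (nat_lit 3586) (.e (nat_lit 98333) (nat_lit 18) (.e (nat_lit 164325) (nat_lit 230) (.e (nat_lit 163902) (nat_lit 12) (.e (nat_lit 426566) (nat_lit 34) (.e (nat_lit 393271) (nat_lit 23) .nil))))) .nil)) 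
(.lf (nat_lit 223553) (.g (nat_lit 2795) (.e (nat_lit 98333) (nat_lit 18) (.e (nat_lit 164397) (nat_lit 256) (.e (nat_lit 57375) (nat_lit 2) (.e (nat_lit 90172) (nat_lit 14) (.e (nat_lit 180244) (nat_lit 5) (.e (nat_lit 532515) (nat_lit 3) (.e (nat_lit 114717) (nat_lit 23) .nil))))))) (.g (nat_lit 4) .nil .nil)))) (.nd (nat_lit 6) 
(.lf (nat_lit 223521) (.g (nat_lit 2405) (.e (nat_lit 98333) (nat_lit 18) (.e (nat_lit 164327) (nat_lit 230) (.e (nat_lit 163875) (nat_lit 3) (.e (nat_lit 204838) (nat_lit 20) (.e (nat_lit 114714) (nat_lit 22) .nil))))) .nil)) 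
(.lf (nat_lit 223585) (.g (nat_lit 2585) (.e (nat_lit 98333) (nat_lit 18) (.e (nat_lit 164398) (nat_lit 256) (.e (nat_lit 57375) (nat_lit 2) (.e (nat_lit 90174) (nat_lit 14) (.e (nat_lit 180243) (nat_lit 5) (.e (nat_lit 532513) (nat_lit 3) (.e (nat_lit 114717) (nat_lit 23) .nil))))))) (.g (nat_lit 4) .nil .nil))))) (.nd (nat_lit 5) (.nd (nat_lit 6) 
(.lf (nat_lit 223505) (.g (nat_lit 2823) (.e (nat_lit 98333) (nat_lit 18) (.e (nat_lit 164325) (nat_lit 230) (.e (nat_lit 163943) (nat_lit 19) (.e (nat_lit 483333) (nat_lit 0) (.e (nat_lit 6988) (nat_lit 377) (.e (nat_lit 977) (nat_lit 81) (.e (nat_lit 5629) (nat_lit 312) (.e (nat_lit 112) (nat_lit 3) .nil)))))))) (.g (nat_lit 4) .nil .nil))) 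
(.lf (nat_lit 223569) (.g (nat_lit 3345) (.e (nat_lit 98333) (nat_lit 18) (.e (nat_lit 164398) (nat_lit 256) (.e (nat_lit 57373) (nat_lit 2) (.e (nat_lit 90172) (nat_lit 14) (.e (nat_lit 180244) (nat_lit 5) (.e (nat_lit 532515) (nat_lit 3) (.e (nat_lit 114717) (nat_lit 23) .nil))))))) (.g (nat_lit 5) .nil .nil)))) (.nd (nat_lit 6) 
(.lf (nat_lit 223537) (.g (nat_lit 2548) (.e (nat_lit 98333) (nat_lit 18) (.e (nat_lit 164332) (nat_lit 230) (.e (nat_lit 163874) (nat_lit 3) (.e (nat_lit 204815) (nat_lit 17) .nil)))) .nil)) 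
(.lf (nat_lit 223601) (.g (nat_lit 2543) (.e (nat_lit 98333) (nat_lit 18) (.e (nat_lit 164399) (nat_lit 256) (.e (nat_lit 57370) (nat_lit 2) (.e (nat_lit 90172) (nat_lit 14) (.e (nat_lit 180244) (nat_lit 5) (.e (nat_lit 532508) (nat_lit 2) (.e (nat_lit 106526) (nat_lit 9) (.e (nat_lit 1254) (nat_lit 92) .nil)))))))) (.g (nat_lit 4) .nil .nil)))))) 
(.nd (nat_lit 4) (.nd (nat_lit 5) (.nd (nat_lit 6) 
(.lf (nat_lit 223497) (.g (nat_lit 2330) (.e (nat_lit 98333) (nat_lit 18) (.e (nat_lit 164325) (nat_lit 230) (.e (nat_lit 163903) (nat_lit 12) (.e (nat_lit 426568) (nat_lit 34) (.e (nat_lit 393275) (nat_lit 23) (.e (nat_lit 433920) (nat_lit 18) .nil)))))) (.g (nat_lit 4) .nil .nil))) 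
(.lf (nat_lit 223561) (.g (nat_lit 2475) (.e (nat_lit 98333) (nat_lit 18) (.e (nat_lit 164398) (nat_lit 256) (.e (nat_lit 57372) (nat_lit 2) (.e (nat_lit 90172) (nat_lit 14) (.e (nat_lit 180245) (nat_lit 5) .nil))))) .nil))) (.nd (nat_lit 6) 
(.lf (nat_lit 223529) (.g (nat_lit 2344) (.e (nat_lit 98333) (nat_lit 18) (.e (nat_lit 164327) (nat_lit 230) (.e (nat_lit 163903) (nat_lit 12) (.e (nat_lit 426568) (nat_lit 34) (.e (nat_lit 393279) (nat_lit 23) .nil))))) .nil)) 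
(.lf (nat_lit 223593) (.g (nat_lit 3393) (.e (nat_lit 98333) (nat_lit 18) (.e (nat_lit 164398) (nat_lit 256) (.e (nat_lit 57379) (nat_lit 3) (.e (nat_lit 98366) (nat_lit 27) (.e (nat_lit 434231) (nat_lit 23) (.e (nat_lit 532507) (nat_lit 2) (.e (nat_lit 106517) (nat_lit 9) (.e (nat_lit 1255) (nat_lit 92) .nil)))))))) (.g (nat_lit 5) .nil .nil))))) (.nd (nat_lit 5) (.nd (nat_lit 6) 
(.lf (nat_lit 223513) (.g (nat_lit 1716) (.e (nat_lit 98333) (nat_lit 18) (.e (nat_lit 164327) (nat_lit 230) (.e (nat_lit 163871) (nat_lit 2) (.e (nat_lit 196658) (nat_lit 12) .nil)))) .nil)) 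
(.lf (nat_lit 223577) (.g (nat_lit 5222) (.e (nat_lit 98333) (nat_lit 18) (.e (nat_lit 164398) (nat_lit 256) (.e (nat_lit 57373) (nat_lit 2) (.e (nat_lit 90174) (nat_lit 14) (.e (nat_lit 180243) (nat_lit 5) (.e (nat_lit 532513) (nat_lit 3) (.e (nat_lit 114718) (nat_lit 23) .nil))))))) (.g (nat_lit 0) .nil .nil)))) (.nd (nat_lit 6) 
(.lf (nat_lit 223545) (.g (nat_lit 1700) (.e (nat_lit 98333) (nat_lit 18) (.e (nat_lit 164332) (nat_lit 230) (.e (nat_lit 163905) (nat_lit 12) (.e (nat_lit 426564) (nat_lit 34) .nil)))) .nil)) 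
(.lf (nat_lit 223609) (.g (nat_lit 3042) (.e (nat_lit 98333) (nat_lit 18) (.e (nat_lit 164399) (nat_lit 256) (.e (nat_lit 57370) (nat_lit 2) (.e (nat_lit 90174) (nat_lit 14) (.e (nat_lit 180243) (nat_lit 5) (.e (nat_lit 532508) (nat_lit 2) (.e (nat_lit 106526) (nat_lit 9) (.e (nat_lit 1254) (nat_lit 92) .nil)))))))) (.g (nat_lit 5) .nil .nil))))))) 
(.nd (nat_lit 3) (.nd (nat_lit 4) (.nd (nat_lit 5) (.nd (nat_lit 6) 
(.lf (nat_lit 223493) (.g (nat_lit 3882) (.e (nat_lit 98333) (nat_lit 18) (.e (nat_lit 164325) (nat_lit 230) (.e (nat_lit 163903) (nat_lit 12) (.e (nat_lit 426568) (nat_lit 34) (.e (nat_lit 393234) (nat_lit 17) (.e (nat_lit 7309) (nat_lit 388) (.e (nat_lit 108) (nat_lit 3) .nil))))))) (.g (nat_lit 5) .nil .nil))) 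
(.lf (nat_lit 223557) (.g (nat_lit 3042) (.e (nat_lit 98333) (nat_lit 18) (.e (nat_lit 164398) (nat_lit 256) (.e (nat_lit 57372) (nat_lit 2) (.e (nat_lit 90172) (nat_lit 14) (.e (nat_lit 180243) (nat_lit 5) (.e (nat_lit 532508) (nat_lit 2) (.e (nat_lit 106517) (nat_lit 9) (.e (nat_lit 1255) (nat_lit 92) .nil)))))))) (.g (nat_lit 4) .nil .nil)))) (.nd (nat_lit 6) 
(.lf (nat_lit 223525) (.g (nat_lit 1166) (.e (nat_lit 98333) (nat_lit 18) (.e (nat_lit 164327) (nat_lit 230) (.e (nat_lit 163903) (nat_lit 12) (.e (nat_lit 426566) (nat_lit 34) .nil)))) .nil)) 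
(.lf (nat_lit 223589) (.g (nat_lit 2447) (.e (nat_lit 98333) (nat_lit 18) (.e (nat_lit 164398) (nat_lit 256) (.e (nat_lit 57378) (nat_lit 3) (.e (nat_lit 98367) (nat_lit 27) (.e (nat_lit 434232) (nat_lit 23) .nil))))) .nil)))) (.nd (nat_lit 5) (.nd (nat_lit 6) 
(.lf (nat_lit 223509) (.g (nat_lit 400) (.e (nat_lit 98333) (nat_lit 18) (.e (nat_lit 164326) (nat_lit 230) (.e (nat_lit 163903) (nat_lit 12) .nil))) .nil)) 
(.lf (nat_lit 223573) (.g (nat_lit 3678) (.e (nat_lit 98333) (nat_lit 18) (.e (nat_lit 164398) (nat_lit 256) (.e (nat_lit 57373) (nat_lit 2) (.e (nat_lit 90174) (nat_lit 14) (.e (nat_lit 180243) (nat_lit 5) (.e (nat_lit 532508) (nat_lit 2) (.e (nat_lit 106526) (nat_lit 9) (.e (nat_lit 1254) (nat_lit 92) .nil)))))))) (.g (nat_lit 5) .nil .nil)))) (.nd (nat_lit 6) 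
(.lf (nat_lit 223541) (.g (nat_lit 2070) (.e (nat_lit 98333) (nat_lit 18) (.e (nat_lit 164332) (nat_lit 230) (.e (nat_lit 163902) (nat_lit 12) (.e (nat_lit 426568) (nat_lit 34) (.e (nat_lit 393275) (nat_lit 23) (.e (nat_lit 433920) (nat_lit 18) .nil)))))) (.g (nat_lit 4) .nil .nil))) 
(.lf (nat_lit 223605) (.g (nat_lit 2233) (.e (nat_lit 98333) (nat_lit 18) (.e (nat_lit 164399) (nat_lit 256) (.e (nat_lit 57370) (nat_lit 2) (.e (nat_lit 90174) (nat_lit 14) (.e (nat_lit 180243) (nat_lit 5) (.e (nat_lit 532508) (nat_lit 2) (.e (nat_lit 106523) (nat_lit 9) (.e (nat_lit 1254) (nat_lit 92) .nil)))))))) (.g (nat_lit 4) .nil .nil)))))) 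
(.nd (nat_lit 4) (.nd (nat_lit 5) (.nd (nat_lit 6) 
(.lf (nat_lit 223501) (.g (nat_lit 1527) (.e (nat_lit 98333) (nat_lit 18) (.e (nat_lit 164325) (nat_lit 230) (.e (nat_lit 163907) (nat_lit 12) (.e (nat_lit 426564) (nat_lit 34) .nil)))) .nil)) 
(.lf (nat_lit 223565) (.g (nat_lit 1988) (.e (nat_lit 98333) (nat_lit 18) (.e (nat_lit 164398) (nat_lit 256) (.e (nat_lit 57373) (nat_lit 2) (.e (nat_lit 90170) (nat_lit 13) (.e (nat_lit 172065) (nat_lit 3) .nil))))) .nil))) (.nd (nat_lit 6) 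
(.lf (nat_lit 223533) (.g (nat_lit 3066) (.e (nat_lit 98333) (nat_lit 18) (.e (nat_lit 164330) (nat_lit 230) (.e (nat_lit 163902) (nat_lit 12) (.e (nat_lit 426568) (nat_lit 34) (.e (nat_lit 393268) (nat_lit 23) .nil))))) .nil)) 
(.lf (nat_lit 223597) (.g (nat_lit 795) (.e (nat_lit 98333) (nat_lit 18) (.e (nat_lit 164399) (nat_lit 256) (.e (nat_lit 57370) (nat_lit 2) (.e (nat_lit 98048) (nat_lit 5) .nil)))) .nil)))) (.nd (nat_lit 5) (.nd (nat_lit 6) 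
(.lf (nat_lit 223517) (.g (nat_lit 1734) (.e (nat_lit 98333) (nat_lit 18) (.e (nat_lit 164327) (nat_lit 230) (.e (nat_lit 163875) (nat_lit 3) (.e (nat_lit 204832) (nat_lit 19) .nil)))) .nil)) 
(.lf (nat_lit 223581) (.g (nat_lit 3646) (.e (nat_lit 98333) (nat_lit 18) (.e (nat_lit 164398) (nat_lit 256) (.e (nat_lit 57374) (nat_lit 2) (.e (nat_lit 90170) (nat_lit 13) (.e (nat_lit 172067) (nat_lit 3) (.e (nat_lit 204837) (nat_lit 20) (.e (nat_lit 114719) (nat_lit 23) .nil))))))) (.g (nat_lit 4) .nil .nil)))) (.nd (nat_lit 6) 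
(.lf (nat_lit 223549) (.g (nat_lit 2895) (.e (nat_lit 98333) (nat_lit 18) (.e (nat_lit 164397) (nat_lit 256) (.e (nat_lit 57371) (nat_lit 2) (.e (nat_lit 90174) (nat_lit 14) (.e (nat_lit 180243) (nat_lit 5) (.e (nat_lit 532508) (nat_lit 2) (.e (nat_lit 106517) (nat_lit 9) (.e (nat_lit 1255) (nat_lit 92) .nil)))))))) (.g (nat_lit 4) .nil .nil))) 
(.lf (nat_lit 223613) (.g (nat_lit 2712) (.e (nat_lit 98333) (nat_lit 18) (.e (nat_lit 164399) (nat_lit 256) (.e (nat_lit 57370) (nat_lit 2) (.e (nat_lit 90174) (nat_lit 14) (.e (nat_lit 180243) (nat_lit 5) (.e (nat_lit 532515) (nat_lit 3) (.e (nat_lit 114717) (nat_lit 23) .nil))))))) (.g (nat_lit 5) .nil .nil)))))))) 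
(.nd (nat_lit 2) (.nd (nat_lit 3) (.nd (nat_lit 4) (.nd (nat_lit 5) (.nd (nat_lit 6) 
(.lf (nat_lit 223491) (.g (nat_lit 2354) (.e (nat_lit 98333) (nat_lit 18) (.e (nat_lit 164325) (nat_lit 230) (.e (nat_lit 163903) (nat_lit 12) (.e (nat_lit 426564) (nat_lit 34) .nil)))) .nil)) 
(.lf (nat_lit 223555) (.g (nat_lit 2957) (.e (nat_lit 98333) (nat_lit 18) (.e (nat_lit 164397) (nat_lit 256) (.e (nat_lit 57379) (nat_lit 3) (.e (nat_lit 98366) (nat_lit 27) (.e (nat_lit 434231) (nat_lit 23) (.e (nat_lit 532514) (nat_lit 3) (.e (nat_lit 114717) (nat_lit 23) .nil))))))) (.g (nat_lit 4) .nil .nil)))) (.nd (nat_lit 6) 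
(.lf (nat_lit 223523) (.g (nat_lit 2305) (.e (nat_lit 98333) (nat_lit 18) (.e (nat_lit 164327) (nat_lit 230) (.e (nat_lit 163903) (nat_lit 12) (.e (nat_lit 426479) (nat_lit 27) (.e (nat_lit 336414) (nat_lit 27) .nil))))) .nil)) 
(.lf (nat_lit 223587) (.g (nat_lit 1861) (.e (nat_lit 98333) (nat_lit 18) (.e (nat_lit 164398) (nat_lit 256) (.e (nat_lit 57378) (nat_lit 3) (.e (nat_lit 98357) (nat_lit 26) .nil)))) .nil)))) (.nd (nat_lit 5) (.nd (nat_lit 6) 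
(.lf (nat_lit 223507) (.g (nat_lit 2231) (.e (nat_lit 98333) (nat_lit 18) (.e (nat_lit 164325) (nat_lit 230) (.e (nat_lit 163943) (nat_lit 19) (.e (nat_lit 483333) (nat_lit 0) (.e (nat_lit 7086) (nat_lit 379) .nil))))) .nil)) 
(.lf (nat_lit 223571) (.g (nat_lit 2301) (.e (nat_lit 98333) (nat_lit 18) (.e (nat_lit 164398) (nat_lit 256) (.e (nat_lit 57373) (nat_lit 2) (.e (nat_lit 90174) (nat_lit 14) (.e (nat_lit 180243) (nat_lit 5) (.e (nat_lit 532508) (nat_lit 2) (.e (nat_lit 106520) (nat_lit 9) (.e (nat_lit 1254) (nat_lit 92) .nil)))))))) (.g (nat_lit 4) .nil .nil)))) (.nd (nat_lit 6) 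
(.lf (nat_lit 223539) (.g (nat_lit 1412) (.e (nat_lit 98333) (nat_lit 18) (.e (nat_lit 164332) (nat_lit 230) (.e (nat_lit 163901) (nat_lit 12) (.e (nat_lit 426566) (nat_lit 34) (.e (nat_lit 393270) (nat_lit 23) .nil))))) .nil)) 
(.lf (nat_lit 223603) (.g (nat_lit 2225) (.e (nat_lit 98333) (nat_lit 18) (.e (nat_lit 164399) (nat_lit 256) (.e (nat_lit 57370) (nat_lit 2) (.e (nat_lit 90174) (nat_lit 14) (.e (nat_lit 180243) (nat_lit 5) (.e (nat_lit 532508) (nat_lit 2) (.e (nat_lit 106504) (nat_lit 9) (.e (nat_lit 1251) (nat_lit 92) .nil)))))))) (.g (nat_lit 4) .nil .nil)))))) 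
(.nd (nat_lit 4) (.nd (nat_lit 5) (.nd (nat_lit 6) 
(.lf (nat_lit 223499) (.g (nat_lit 2486) (.e (nat_lit 98333) (nat_lit 18) (.e (nat_lit 164325) (nat_lit 230) (.e (nat_lit 163906) (nat_lit 12) (.e (nat_lit 426566) (nat_lit 34) (.e (nat_lit 393273) (nat_lit 23) (.e (nat_lit 426437) (nat_lit 18) .nil)))))) (.g (nat_lit 4) .nil .nil))) 
(.lf (nat_lit 223563) (.g (nat_lit 2921) (.e (nat_lit 98333) (nat_lit 18) (.e (nat_lit 164398) (nat_lit 256) (.e (nat_lit 57372) (nat_lit 2) (.e (nat_lit 90174) (nat_lit 14) (.e (nat_lit 180243) (nat_lit 5) (.e (nat_lit 532513) (nat_lit 3) (.e (nat_lit 114717) (nat_lit 23) .nil))))))) (.g (nat_lit 4) .nil .nil)))) (.nd (nat_lit 6) 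
(.lf (nat_lit 223531) (.g (nat_lit 886) (.e (nat_lit 98333) (nat_lit 18) (.e (nat_lit 164327) (nat_lit 230) (.e (nat_lit 163907) (nat_lit 12) (.e (nat_lit 426566) (nat_lit 34) .nil)))) .nil)) 
(.lf (nat_lit 223595) (.g (nat_lit 2590) (.e (nat_lit 98333) (nat_lit 18) (.e (nat_lit 164398) (nat_lit 256) (.e (nat_lit 57379) (nat_lit 3) (.e (nat_lit 98367) (nat_lit 27) (.e (nat_lit 434232) (nat_lit 23) .nil))))) .nil)))) (.nd (nat_lit 5) (.nd (nat_lit 6) 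
(.lf (nat_lit 223515) (.g (nat_lit 4307) (.e (nat_lit 98333) (nat_lit 18) (.e (nat_lit 164327) (nat_lit 230) (.e (nat_lit 163873) (nat_lit 3) (.e (nat_lit 204813) (nat_lit 9) (.e (nat_lit 426139) (nat_lit 3) (.e (nat_lit 204817) (nat_lit 17) (.e (nat_lit 2198) (nat_lit 144) (.e (nat_lit 720945) (nat_lit 23) .nil)))))))) (.g (nat_lit 5) .nil .nil))) 
(.lf (nat_lit 223579) (.g (nat_lit 3261) (.e (nat_lit 98333) (nat_lit 18) (.e (nat_lit 164398) (nat_lit 256) (.e (nat_lit 57374) (nat_lit 2) (.e (nat_lit 90170) (nat_lit 13) (.e (nat_lit 172065) (nat_lit 3) .nil))))) .nil))) (.nd (nat_lit 6) 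
(.lf (nat_lit 223547) (.g (nat_lit 2302) (.e (nat_lit 98333) (nat_lit 18) (.e (nat_lit 164332) (nat_lit 230) (.e (nat_lit 163905) (nat_lit 12) (.e (nat_lit 426568) (nat_lit 34) (.e (nat_lit 393279) (nat_lit 23) (.e (nat_lit 426435) (nat_lit 18) .nil)))))) (.g (nat_lit 4) .nil .nil))) 
(.lf (nat_lit 223611) (.g (nat_lit 2135) (.e (nat_lit 98333) (nat_lit 18) (.e (nat_lit 164399) (nat_lit 256) (.e (nat_lit 57370) (nat_lit 2) (.e (nat_lit 90174) (nat_lit 14) (.e (nat_lit 180243) (nat_lit 5) (.e (nat_lit 532511) (nat_lit 2) (.e (nat_lit 106526) (nat_lit 9) (.e (nat_lit 1254) (nat_lit 92) .nil)))))))) (.g (nat_lit 4) .nil .nil))))))) 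
(.nd (nat_lit 3) (.nd (nat_lit 4) (.nd (nat_lit 5) (.nd (nat_lit 6) 
(.lf (nat_lit 223495) (.g (nat_lit 3546) (.e (nat_lit 98333) (nat_lit 18) (.e (nat_lit 164325) (nat_lit 230) (.e (nat_lit 163903) (nat_lit 12) (.e (nat_lit 426568) (nat_lit 34) (.e (nat_lit 393234) (nat_lit 17) (.e (nat_lit 7310) (nat_lit 388) (.e (nat_lit 112) (nat_lit 3) .nil))))))) (.g (nat_lit 5) .nil .nil))) 
(.lf (nat_lit 223559) (.g (nat_lit 3058) (.e (nat_lit 98333) (nat_lit 18) (.e (nat_lit 164398) (nat_lit 256) (.e (nat_lit 57372) (nat_lit 2) (.e (nat_lit 90172) (nat_lit 14) (.e (nat_lit 180244) (nat_lit 5) (.e (nat_lit 532508) (nat_lit 2) (.e (nat_lit 106517) (nat_lit 9) (.e (nat_lit 1255) (nat_lit 92) .nil)))))))) (.g (nat_lit 4) .nil .nil)))) (.nd (nat_lit 6) 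
(.lf (nat_lit 223527) (.g (nat_lit 2509) (.e (nat_lit 98333) (nat_lit 18) (.e (nat_lit 164327) (nat_lit 230) (.e (nat_lit 163903) (nat_lit 12) (.e (nat_lit 426568) (nat_lit 34) (.e (nat_lit 393270) (nat_lit 23) .nil))))) .nil)) 
(.lf (nat_lit 223591) (.g (nat_lit 3012) (.e (nat_lit 98333) (nat_lit 18) (.e (nat_lit 164398) (nat_lit 256) (.e (nat_lit 57379) (nat_lit 3) (.e (nat_lit 98356) (nat_lit 26) (.e (nat_lit 426131) (nat_lit 3) (.e (nat_lit 204838) (nat_lit 20) (.e (nat_lit 114717) (nat_lit 23) .nil))))))) (.g (nat_lit 4) .nil .nil))))) (.nd (nat_lit 5) (.nd (nat_lit 6) 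
(.lf (nat_lit 223511) (.g (nat_lit 4705) (.e (nat_lit 98333) (nat_lit 18) (.e (nat_lit 164327) (nat_lit 230) (.e (nat_lit 163868) (nat_lit 2) (.e (nat_lit 196656) (nat_lit 11) (.e (nat_lit 16416) (nat_lit 3) (.e (nat_lit 204817) (nat_lit 17) (.e (nat_lit 2198) (nat_lit 144) (.e (nat_lit 720945) (nat_lit 23) .nil)))))))) (.g (nat_lit 5) .nil .nil))) 
(.lf (nat_lit 223575) (.g (nat_lit 2777) (.e (nat_lit 98333) (nat_lit 18) (.e (nat_lit 164398) (nat_lit 256) (.e (nat_lit 57373) (nat_lit 2) (.e (nat_lit 90174) (nat_lit 14) (.e (nat_lit 180243) (nat_lit 5) (.e (nat_lit 532511) (nat_lit 2) (.e (nat_lit 106526) (nat_lit 9) (.e (nat_lit 1254) (nat_lit 92) .nil)))))))) (.g (nat_lit 4) .nil .nil)))) (.nd (nat_lit 6) 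
(.lf (nat_lit 223543) (.g (nat_lit 1939) (.e (nat_lit 98333) (nat_lit 18) (.e (nat_lit 164332) (nat_lit 230) (.e (nat_lit 163902) (nat_lit 12) (.e (nat_lit 426568) (nat_lit 34) (.e (nat_lit 393279) (nat_lit 23) (.e (nat_lit 433920) (nat_lit 18) .nil)))))) (.g (nat_lit 4) .nil .nil))) 
(.lf (nat_lit 223607) (.g (nat_lit 2470) (.e (nat_lit 98333) (nat_lit 18) (.e (nat_lit 164399) (nat_lit 256) (.e (nat_lit 57370) (nat_lit 2) (.e (nat_lit 90174) (nat_lit 14) (.e (nat_lit 180243) (nat_lit 5) (.e (nat_lit 532508) (nat_lit 2) (.e (nat_lit 106526) (nat_lit 9) (.e (nat_lit 1247) (nat_lit 92) .nil)))))))) (.g (nat_lit 4) .nil .nil)))))) 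
(.nd (nat_lit 4) (.nd (nat_lit 5) (.nd (nat_lit 6) 
(.lf (nat_lit 223503) (.g (nat_lit 4897) (.e (nat_lit 98333) (nat_lit 18) (.e (nat_lit 164325) (nat_lit 230) (.e (nat_lit 163926) (nat_lit 16) (.e (nat_lit 458789) (nat_lit 23) (.e (nat_lit 532530) (nat_lit 9) (.e (nat_lit 336310) (nat_lit 16) (.e (nat_lit 164179) (nat_lit 154) (.e (nat_lit 57377) (nat_lit 3) .nil)))))))) (.g (nat_lit 7) .nil .nil))) 
(.lf (nat_lit 223567) (.g (nat_lit 3035) (.e (nat_lit 98333) (nat_lit 18) (.e (nat_lit 164398) (nat_lit 256) (.e (nat_lit 57373) (nat_lit 2) (.e (nat_lit 90172) (nat_lit 14) (.e (nat_lit 180243) (nat_lit 5) (.e (nat_lit 532515) (nat_lit 3) (.e (nat_lit 114719) (nat_lit 23) .nil))))))) (.g (nat_lit 4) .nil .nil)))) (.nd (nat_lit 6) 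
(.lf (nat_lit 223535) (.g (nat_lit 694) (.e (nat_lit 98333) (nat_lit 18) (.e (nat_lit 164330) (nat_lit 230) (.e (nat_lit 163942) (nat_lit 19) .nil))) .nil)) 
(.lf (nat_lit 223599) (.g (nat_lit 2967) (.e (nat_lit 98333) (nat_lit 18) (.e (nat_lit 164399) (nat_lit 256) (.e (nat_lit 57370) (nat_lit 2) (.e (nat_lit 90170) (nat_lit 13) (.e (nat_lit 172065) (nat_lit 3) (.e (nat_lit 204834) (nat_lit 19) (.e (nat_lit 106517) (nat_lit 9) (.e (nat_lit 1255) (nat_lit 92) .nil)))))))) (.g (nat_lit 4) .nil .nil))))) (.nd (nat_lit 5) (.nd (nat_lit 6) 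
(.lf (nat_lit 223519) (.g (nat_lit 2365) (.e (nat_lit 98333) (nat_lit 18) (.e (nat_lit 164327) (nat_lit 230) (.e (nat_lit 163875) (nat_lit 3) (.e (nat_lit 204837) (nat_lit 20) (.e (nat_lit 114714) (nat_lit 22) .nil))))) .nil)) 
(.lf (nat_lit 223583) (.g (nat_lit 2926) (.e (nat_lit 98333) (nat_lit 18) (.e (nat_lit 164398) (nat_lit 256) (.e (nat_lit 57375) (nat_lit 2) (.e (nat_lit 90172) (nat_lit 14) (.e (nat_lit 180244) (nat_lit 5) (.e (nat_lit 532515) (nat_lit 3) (.e (nat_lit 114717) (nat_lit 23) .nil))))))) (.g (nat_lit 4) .nil .nil)))) (.nd (nat_lit 6) 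
(.lf (nat_lit 223551) (.g (nat_lit 3071) (.e (nat_lit 98333) (nat_lit 18) (.e (nat_lit 164397) (nat_lit 256) (.e (nat_lit 57374) (nat_lit 2) (.e (nat_lit 90170) (nat_lit 13) (.e (nat_lit 172067) (nat_lit 3) (.e (nat_lit 204834) (nat_lit 19) (.e (nat_lit 106517) (nat_lit 9) (.e (nat_lit 1255) (nat_lit 92) .nil)))))))) (.g (nat_lit 4) .nil .nil))) 
(.lf (nat_lit 223615) (.g (nat_lit 3079) (.e (nat_lit 98333) (nat_lit 18) (.e (nat_lit 164399) (nat_lit 256) (.e (nat_lit 57371) (nat_lit 2) (.e (nat_lit 90174) (nat_lit 14) (.e (nat_lit 180243) (nat_lit 5) (.e (nat_lit 532508) (nat_lit 2) (.e (nat_lit 106517) (nat_lit 9) (.e (nat_lit 1255) (nat_lit 92) .nil)))))))) (.g (nat_lit 4) .nil .nil))))))))))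

noncomputable def tv2932 : DT := (.nd (nat_lit 0) (.nd (nat_lit 1) (.nd (nat_lit 2) (.nd (nat_lit 3) (.nd (nat_lit 4) (.nd (nat_lit 5) 
(.lf (nat_lit 223616) (.g (nat_lit 3215) (.e (nat_lit 98333) (nat_lit 18) (.e (nat_lit 164399) (nat_lit 256) (.e (nat_lit 57371) (nat_lit 2) (.e (nat_lit 90174) (nat_lit 14) (.e (nat_lit 180243) (nat_lit 5) (.e (nat_lit 532508) (nat_lit 2) (.e (nat_lit 106526) (nat_lit 9) (.e (nat_lit 1252) (nat_lit 92) .nil)))))))) (.g (nat_lit 4) .nil .nil))) 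
(.lf (nat_lit 223648) (.g (nat_lit 4581) (.e (nat_lit 98333) (nat_lit 18) (.e (nat_lit 164399) (nat_lit 256) (.e (nat_lit 57372) (nat_lit 2) (.e (nat_lit 90172) (nat_lit 14) (.e (nat_lit 180244) (nat_lit 5) (.e (nat_lit 532515) (nat_lit 3) (.e (nat_lit 114719) (nat_lit 23) .nil))))))) (.g (nat_lit 0) .nil .nil)))) (.nd (nat_lit 5) 
(.lf (nat_lit 223632) (.g (nat_lit 2414) (.e (nat_lit 98333) (nat_lit 18) (.e (nat_lit 164399) (nat_lit 256) (.e (nat_lit 57372) (nat_lit 2) (.e (nat_lit 90172) (nat_lit 14) (.e (nat_lit 180243) (nat_lit 5) (.e (nat_lit 532511) (nat_lit 2) (.e (nat_lit 106523) (nat_lit 9) (.e (nat_lit 1254) (nat_lit 92) .nil)))))))) (.g (nat_lit 4) .nil .nil))) 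
(.lf (nat_lit 223664) (.g (nat_lit 2841) (.e (nat_lit 98333) (nat_lit 18) (.e (nat_lit 164399) (nat_lit 256) (.e (nat_lit 57372) (nat_lit 2) (.e (nat_lit 90174) (nat_lit 14) (.e (nat_lit 180243) (nat_lit 5) (.e (nat_lit 532511) (nat_lit 2) (.e (nat_lit 106526) (nat_lit 9) (.e (nat_lit 1254) (nat_lit 92) .nil)))))))) (.g (nat_lit 5) .nil .nil))))) (.nd (nat_lit 4) (.nd (nat_lit 5) 
(.lf (nat_lit 223624) (.g (nat_lit 2299) (.e (nat_lit 98333) (nat_lit 18) (.e (nat_lit 164399) (nat_lit 256) (.e (nat_lit 57372) (nat_lit 2) (.e (nat_lit 90172) (nat_lit 14) (.e (nat_lit 180243) (nat_lit 5) (.e (nat_lit 532508) (nat_lit 2) (.e (nat_lit 106520) (nat_lit 9) (.e (nat_lit 1254) (nat_lit 92) .nil)))))))) (.g (nat_lit 4) .nil .nil))) 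
(.lf (nat_lit 223656) (.g (nat_lit 3733) (.e (nat_lit 98333) (nat_lit 18) (.e (nat_lit 164399) (nat_lit 256) (.e (nat_lit 57372) (nat_lit 2) (.e (nat_lit 90174) (nat_lit 14) (.e (nat_lit 180243) (nat_lit 5) (.e (nat_lit 532508) (nat_lit 2) (.e (nat_lit 106526) (nat_lit 9) (.e (nat_lit 1254) (nat_lit 92) .nil)))))))) (.g (nat_lit 6) .nil .nil)))) (.nd (nat_lit 5) 
(.lf (nat_lit 223640) (.g (nat_lit 3516) (.e (nat_lit 98333) (nat_lit 18) (.e (nat_lit 164399) (nat_lit 256) (.e (nat_lit 57372) (nat_lit 2) (.e (nat_lit 90172) (nat_lit 14) (.e (nat_lit 180244) (nat_lit 5) (.e (nat_lit 532508) (nat_lit 2) (.e (nat_lit 106517) (nat_lit 9) (.e (nat_lit 1255) (nat_lit 92) .nil)))))))) (.g (nat_lit 5) .nil .nil))) 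
(.lf (nat_lit 223672) (.g (nat_lit 4149) (.e (nat_lit 98333) (nat_lit 18) (.e (nat_lit 164399) (nat_lit 256) (.e (nat_lit 57373) (nat_lit 2) (.e (nat_lit 90170) (nat_lit 13) (.e (nat_lit 172067) (nat_lit 3) (.e (nat_lit 204838) (nat_lit 20) (.e (nat_lit 114717) (nat_lit 23) .nil))))))) (.g (nat_lit 6) .nil .nil)))))) (.nd (nat_lit 3) (.nd (nat_lit 4) (.nd (nat_lit 5) 
(.lf (nat_lit 223620) (.g (nat_lit 3833) (.e (nat_lit 98333) (nat_lit 18) (.e (nat_lit 164399) (nat_lit 256) (.e (nat_lit 57372) (nat_lit 2) (.e (nat_lit 90167) (nat_lit 13) (.e (nat_lit 172067) (nat_lit 3) (.e (nat_lit 204838) (nat_lit 20) (.e (nat_lit 114717) (nat_lit 23) .nil))))))) (.g (nat_lit 6) .nil .nil))) 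
(.lf (nat_lit 223652) (.g (nat_lit 2528) (.e (nat_lit 98333) (nat_lit 18) (.e (nat_lit 164399) (nat_lit 256) (.e (nat_lit 57372) (nat_lit 2) (.e (nat_lit 90174) (nat_lit 14) (.e (nat_lit 180243) (nat_lit 5) (.e (nat_lit 532508) (nat_lit 2) (.e (nat_lit 106520) (nat_lit 9) (.e (nat_lit 1254) (nat_lit 92) .nil)))))))) (.g (nat_lit 4) .nil .nil)))) (.nd (nat_lit 5) 
(.lf (nat_lit 223636) (.g (nat_lit 3251) (.e (nat_lit 98333) (nat_lit 18) (.e (nat_lit 164399) (nat_lit 256) (.e (nat_lit 57372) (nat_lit 2) (.e (nat_lit 90172) (nat_lit 14) (.e (nat_lit 180243) (nat_lit 5) (.e (nat_lit 532515) (nat_lit 3) (.e (nat_lit 114717) (nat_lit 23) .nil))))))) (.g (nat_lit 5) .nil .nil))) 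
(.lf (nat_lit 223668) (.g (nat_lit 3272) (.e (nat_lit 98333) (nat_lit 18) (.e (nat_lit 164399) (nat_lit 256) (.e (nat_lit 57373) (nat_lit 2) (.e (nat_lit 90170) (nat_lit 13) (.e (nat_lit 172065) (nat_lit 3) (.e (nat_lit 204834) (nat_lit 19) (.e (nat_lit 106517) (nat_lit 9) (.e (nat_lit 1252) (nat_lit 92) .nil)))))))) (.g (nat_lit 5) .nil .nil))))) (.nd (nat_lit 4) (.nd (nat_lit 5) 
(.lf (nat_lit 223628) (.g (nat_lit 3533) (.e (nat_lit 98333) (nat_lit 18) (.e (nat_lit 164399) (nat_lit 256) (.e (nat_lit 57372) (nat_lit 2) (.e (nat_lit 90172) (nat_lit 14) (.e (nat_lit 180243) (nat_lit 5) (.e (nat_lit 532508) (nat_lit 2) (.e (nat_lit 106526) (nat_lit 9) (.e (nat_lit 1254) (nat_lit 92) .nil)))))))) (.g (nat_lit 5) .nil .nil))) 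
(.lf (nat_lit 223660) (.g (nat_lit 2723) (.e (nat_lit 98333) (nat_lit 18) (.e (nat_lit 164399) (nat_lit 256) (.e (nat_lit 57372) (nat_lit 2) (.e (nat_lit 90174) (nat_lit 14) (.e (nat_lit 180243) (nat_lit 5) (.e (nat_lit 532511) (nat_lit 2) (.e (nat_lit 106512) (nat_lit 9) (.e (nat_lit 1251) (nat_lit 92) .nil)))))))) (.g (nat_lit 4) .nil .nil)))) (.nd (nat_lit 5) 
(.lf (nat_lit 223644) (.g (nat_lit 3548) (.e (nat_lit 98333) (nat_lit 18) (.e (nat_lit 164399) (nat_lit 256) (.e (nat_lit 57372) (nat_lit 2) (.e (nat_lit 90172) (nat_lit 14) (.e (nat_lit 180244) (nat_lit 5) (.e (nat_lit 532508) (nat_lit 2) (.e (nat_lit 106526) (nat_lit 9) (.e (nat_lit 1252) (nat_lit 92) .nil)))))))) (.g (nat_lit 5) .nil .nil))) 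
(.lf (nat_lit 223676) (.g (nat_lit 3410) (.e (nat_lit 98333) (nat_lit 18) (.e (nat_lit 164399) (nat_lit 256) (.e (nat_lit 57373) (nat_lit 2) (.e (nat_lit 90172) (nat_lit 14) (.e (nat_lit 180243) (nat_lit 5) (.e (nat_lit 532508) (nat_lit 2) (.e (nat_lit 106526) (nat_lit 9) (.e (nat_lit 1252) (nat_lit 92) .nil)))))))) (.g (nat_lit 4) .nil .nil))))))) 
(.nd (nat_lit 2) (.nd (nat_lit 3) (.nd (nat_lit 4) (.nd (nat_lit 5) 
(.lf (nat_lit 223618) (.g (nat_lit 2310) (.e (nat_lit 98333) (nat_lit 18) (.e (nat_lit 164399) (nat_lit 256) (.e (nat_lit 57372) (nat_lit 2) (.e (nat_lit 90167) (nat_lit 13) (.e (nat_lit 172065) (nat_lit 3) (.e (nat_lit 204834) (nat_lit 19) (.e (nat_lit 106517) (nat_lit 9) (.e (nat_lit 1255) (nat_lit 92) .nil)))))))) (.g (nat_lit 4) .nil .nil))) 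
(.lf (nat_lit 223650) (.g (nat_lit 3306) (.e (nat_lit 98333) (nat_lit 18) (.e (nat_lit 164399) (nat_lit 256) (.e (nat_lit 57372) (nat_lit 2) (.e (nat_lit 90174) (nat_lit 14) (.e (nat_lit 180243) (nat_lit 5) (.e (nat_lit 532508) (nat_lit 2) (.e (nat_lit 106517) (nat_lit 9) (.e (nat_lit 1252) (nat_lit 92) .nil)))))))) (.g (nat_lit 5) .nil .nil)))) (.nd (nat_lit 5) 
(.lf (nat_lit 223634) (.g (nat_lit 2541) (.e (nat_lit 98333) (nat_lit 18) (.e (nat_lit 164399) (nat_lit 256) (.e (nat_lit 57372) (nat_lit 2) (.e (nat_lit 90172) (nat_lit 14) (.e (nat_lit 180243) (nat_lit 5) (.e (nat_lit 532511) (nat_lit 2) (.e (nat_lit 106526) (nat_lit 9) (.e (nat_lit 1254) (nat_lit 92) .nil)))))))) (.g (nat_lit 4) .nil .nil))) 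
(.lf (nat_lit 223666) (.g (nat_lit 3397) (.e (nat_lit 98333) (nat_lit 18) (.e (nat_lit 164399) (nat_lit 256) (.e (nat_lit 57372) (nat_lit 2) (.e (nat_lit 90174) (nat_lit 14) (.e (nat_lit 180243) (nat_lit 5) (.e (nat_lit 532515) (nat_lit 3) (.e (nat_lit 114717) (nat_lit 23) .nil))))))) (.g (nat_lit 6) .nil .nil))))) (.nd (nat_lit 4) (.nd (nat_lit 5) 
(.lf (nat_lit 223626) (.g (nat_lit 3220) (.e (nat_lit 98333) (nat_lit 18) (.e (nat_lit 164399) (nat_lit 256) (.e (nat_lit 57372) (nat_lit 2) (.e (nat_lit 90172) (nat_lit 14) (.e (nat_lit 180243) (nat_lit 5) (.e (nat_lit 532508) (nat_lit 2) (.e (nat_lit 106526) (nat_lit 9) (.e (nat_lit 1246) (nat_lit 92) .nil)))))))) (.g (nat_lit 4) .nil .nil))) 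
(.lf (nat_lit 223658) (.g (nat_lit 2279) (.e (nat_lit 98333) (nat_lit 18) (.e (nat_lit 164399) (nat_lit 256) (.e (nat_lit 57372) (nat_lit 2) (.e (nat_lit 90174) (nat_lit 14) (.e (nat_lit 180243) (nat_lit 5) (.e (nat_lit 532510) (nat_lit 2) (.e (nat_lit 106523) (nat_lit 9) (.e (nat_lit 1254) (nat_lit 92) .nil)))))))) (.g (nat_lit 4) .nil .nil)))) (.nd (nat_lit 5) 
(.lf (nat_lit 223642) (.g (nat_lit 3059) (.e (nat_lit 98333) (nat_lit 18) (.e (nat_lit 164399) (nat_lit 256) (.e (nat_lit 57372) (nat_lit 2) (.e (nat_lit 90172) (nat_lit 14) (.e (nat_lit 180244) (nat_lit 5) (.e (nat_lit 532508) (nat_lit 2) (.e (nat_lit 106526) (nat_lit 9) (.e (nat_lit 1246) (nat_lit 92) .nil)))))))) (.g (nat_lit 4) .nil .nil))) 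
(.lf (nat_lit 223674) (.g (nat_lit 2846) (.e (nat_lit 98333) (nat_lit 18) (.e (nat_lit 164399) (nat_lit 256) (.e (nat_lit 57373) (nat_lit 2) (.e (nat_lit 90172) (nat_lit 14) (.e (nat_lit 180243) (nat_lit 5) (.e (nat_lit 532508) (nat_lit 2) (.e (nat_lit 106517) (nat_lit 9) (.e (nat_lit 1252) (nat_lit 92) .nil)))))))) (.g (nat_lit 4) .nil .nil)))))) 
(.nd (nat_lit 3) (.nd (nat_lit 4) (.nd (nat_lit 5) 
(.lf (nat_lit 223622) (.g (nat_lit 2972) (.e (nat_lit 98333) (nat_lit 18) (.e (nat_lit 164399) (nat_lit 256) (.e (nat_lit 57372) (nat_lit 2) (.e (nat_lit 90172) (nat_lit 14) (.e (nat_lit 180243) (nat_lit 5) (.e (nat_lit 532508) (nat_lit 2) (.e (nat_lit 106504) (nat_lit 9) (.e (nat_lit 1251) (nat_lit 92) .nil)))))))) (.g (nat_lit 4) .nil .nil))) 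
(.lf (nat_lit 223654) (.g (nat_lit 3420) (.e (nat_lit 98333) (nat_lit 18) (.e (nat_lit 164399) (nat_lit 256) (.e (nat_lit 57372) (nat_lit 2) (.e (nat_lit 90174) (nat_lit 14) (.e (nat_lit 180243) (nat_lit 5) (.e (nat_lit 532508) (nat_lit 2) (.e (nat_lit 106526) (nat_lit 9) (.e (nat_lit 1246) (nat_lit 92) .nil)))))))) (.g (nat_lit 5) .nil .nil)))) (.nd (nat_lit 5) 
(.lf (nat_lit 223638) (.g (nat_lit 2756) (.e (nat_lit 98333) (nat_lit 18) (.e (nat_lit 164399) (nat_lit 256) (.e (nat_lit 57372) (nat_lit 2) (.e (nat_lit 90172) (nat_lit 14) (.e (nat_lit 180244) (nat_lit 5) (.e (nat_lit 532508) (nat_lit 2) (.e (nat_lit 106504) (nat_lit 9) (.e (nat_lit 1251) (nat_lit 92) .nil)))))))) (.g (nat_lit 4) .nil .nil))) 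
(.lf (nat_lit 223670) (.g (nat_lit 3440) (.e (nat_lit 98333) (nat_lit 18) (.e (nat_lit 164399) (nat_lit 256) (.e (nat_lit 57373) (nat_lit 2) (.e (nat_lit 90170) (nat_lit 13) (.e (nat_lit 172067) (nat_lit 3) (.e (nat_lit 204834) (nat_lit 19) (.e (nat_lit 106517) (nat_lit 9) (.e (nat_lit 1255) (nat_lit 92) .nil)))))))) (.g (nat_lit 5) .nil .nil))))) (.nd (nat_lit 4) (.nd (nat_lit 5) 
(.lf (nat_lit 223630) (.g (nat_lit 2965) (.e (nat_lit 98333) (nat_lit 18) (.e (nat_lit 164399) (nat_lit 256) (.e (nat_lit 57372) (nat_lit 2) (.e (nat_lit 90172) (nat_lit 14) (.e (nat_lit 180243) (nat_lit 5) (.e (nat_lit 532508) (nat_lit 2) (.e (nat_lit 114432) (nat_lit 9) (.e (nat_lit 1256) (nat_lit 92) .nil)))))))) (.g (nat_lit 4) .nil .nil))) 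
(.lf (nat_lit 223662) (.g (nat_lit 2554) (.e (nat_lit 98333) (nat_lit 18) (.e (nat_lit 164399) (nat_lit 256) (.e (nat_lit 57372) (nat_lit 2) (.e (nat_lit 90174) (nat_lit 14) (.e (nat_lit 180243) (nat_lit 5) (.e (nat_lit 532511) (nat_lit 2) (.e (nat_lit 106526) (nat_lit 9) (.e (nat_lit 1247) (nat_lit 92) .nil)))))))) (.g (nat_lit 4) .nil .nil)))) (.nd (nat_lit 5) 
(.lf (nat_lit 223646) (.g (nat_lit 2962) (.e (nat_lit 98333) (nat_lit 18) (.e (nat_lit 164399) (nat_lit 256) (.e (nat_lit 57372) (nat_lit 2) (.e (nat_lit 90172) (nat_lit 14) (.e (nat_lit 180244) (nat_lit 5) (.e (nat_lit 532508) (nat_lit 2) (.e (nat_lit 114432) (nat_lit 9) (.e (nat_lit 1256) (nat_lit 92) .nil)))))))) (.g (nat_lit 4) .nil .nil))) 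
(.lf (nat_lit 223678) (.g (nat_lit 3135) (.e (nat_lit 98333) (nat_lit 18) (.e (nat_lit 164399) (nat_lit 256) (.e (nat_lit 57373) (nat_lit 2) (.e (nat_lit 90172) (nat_lit 14) (.e (nat_lit 180243) (nat_lit 5) (.e (nat_lit 532515) (nat_lit 3) (.e (nat_lit 114718) (nat_lit 23) .nil))))))) (.g (nat_lit 4) .nil .nil)))))))) 
(.nd (nat_lit 1) (.nd (nat_lit 2) (.nd (nat_lit 3) (.nd (nat_lit 4) (.nd (nat_lit 5) 
(.lf (nat_lit 223617) (.g (nat_lit 3020) (.e (nat_lit 98333) (nat_lit 18) (.e (nat_lit 164399) (nat_lit 256) (.e (nat_lit 57371) (nat_lit 2) (.e (nat_lit 90174) (nat_lit 14) (.e (nat_lit 180243) (nat_lit 5) (.e (nat_lit 532508) (nat_lit 2) (.e (nat_lit 106526) (nat_lit 9) (.e (nat_lit 1254) (nat_lit 92) .nil)))))))) (.g (nat_lit 4) .nil .nil))) 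
(.lf (nat_lit 223649) (.g (nat_lit 3201) (.e (nat_lit 98333) (nat_lit 18) (.e (nat_lit 164399) (nat_lit 256) (.e (nat_lit 57372) (nat_lit 2) (.e (nat_lit 90174) (nat_lit 14) (.e (nat_lit 180243) (nat_lit 5) (.e (nat_lit 532508) (nat_lit 2) (.e (nat_lit 106504) (nat_lit 9) (.e (nat_lit 1251) (nat_lit 92) .nil)))))))) (.g (nat_lit 5) .nil .nil)))) (.nd (nat_lit 5) 
(.lf (nat_lit 223633) (.g (nat_lit 2717) (.e (nat_lit 98333) (nat_lit 18) (.e (nat_lit 164399) (nat_lit 256) (.e (nat_lit 57372) (nat_lit 2) (.e (nat_lit 90172) (nat_lit 14) (.e (nat_lit 180243) (nat_lit 5) (.e (nat_lit 532511) (nat_lit 2) (.e (nat_lit 106526) (nat_lit 9) (.e (nat_lit 1252) (nat_lit 92) .nil)))))))) (.g (nat_lit 4) .nil .nil))) 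
(.lf (nat_lit 223665) (.g (nat_lit 3643) (.e (nat_lit 98333) (nat_lit 18) (.e (nat_lit 164399) (nat_lit 256) (.e (nat_lit 57372) (nat_lit 2) (.e (nat_lit 90174) (nat_lit 14) (.e (nat_lit 180243) (nat_lit 5) (.e (nat_lit 532513) (nat_lit 3) (.e (nat_lit 114717) (nat_lit 23) .nil))))))) (.g (nat_lit 6) .nil .nil))))) (.nd (nat_lit 4) (.nd (nat_lit 5) 
(.lf (nat_lit 223625) (.g (nat_lit 2695) (.e (nat_lit 98333) (nat_lit 18) (.e (nat_lit 164399) (nat_lit 256) (.e (nat_lit 57372) (nat_lit 2) (.e (nat_lit 90172) (nat_lit 14) (.e (nat_lit 180243) (nat_lit 5) (.e (nat_lit 532508) (nat_lit 2) (.e (nat_lit 106523) (nat_lit 9) (.e (nat_lit 1254) (nat_lit 92) .nil)))))))) (.g (nat_lit 4) .nil .nil))) 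
(.lf (nat_lit 223657) (.g (nat_lit 2424) (.e (nat_lit 98333) (nat_lit 18) (.e (nat_lit 164399) (nat_lit 256) (.e (nat_lit 57372) (nat_lit 2) (.e (nat_lit 90174) (nat_lit 14) (.e (nat_lit 180243) (nat_lit 5) (.e (nat_lit 532508) (nat_lit 2) (.e (nat_lit 106527) (nat_lit 9) (.e (nat_lit 1252) (nat_lit 92) .nil)))))))) (.g (nat_lit 4) .nil .nil)))) (.nd (nat_lit 5) 
(.lf (nat_lit 223641) (.g (nat_lit 2479) (.e (nat_lit 98333) (nat_lit 18) (.e (nat_lit 164399) (nat_lit 256) (.e (nat_lit 57372) (nat_lit 2) (.e (nat_lit 90172) (nat_lit 14) (.e (nat_lit 180244) (nat_lit 5) (.e (nat_lit 532508) (nat_lit 2) (.e (nat_lit 106523) (nat_lit 9) (.e (nat_lit 1254) (nat_lit 92) .nil)))))))) (.g (nat_lit 4) .nil .nil))) 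
(.lf (nat_lit 223673) (.g (nat_lit 2384) (.e (nat_lit 98333) (nat_lit 18) (.e (nat_lit 164399) (nat_lit 256) (.e (nat_lit 57373) (nat_lit 2) (.e (nat_lit 90172) (nat_lit 14) (.e (nat_lit 180243) (nat_lit 5) .nil))))) .nil))))) (.nd (nat_lit 3) (.nd (nat_lit 4) (.nd (nat_lit 5) 
(.lf (nat_lit 223621) (.g (nat_lit 2038) (.e (nat_lit 98333) (nat_lit 18) (.e (nat_lit 164399) (nat_lit 256) (.e (nat_lit 57372) (nat_lit 2) (.e (nat_lit 90172) (nat_lit 14) (.e (nat_lit 180243) (nat_lit 5) .nil))))) .nil)) 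
(.lf (nat_lit 223653) (.g (nat_lit 2924) (.e (nat_lit 98333) (nat_lit 18) (.e (nat_lit 164399) (nat_lit 256) (.e (nat_lit 57372) (nat_lit 2) (.e (nat_lit 90174) (nat_lit 14) (.e (nat_lit 180243) (nat_lit 5) (.e (nat_lit 532508) (nat_lit 2) (.e (nat_lit 106523) (nat_lit 9) (.e (nat_lit 1254) (nat_lit 92) .nil)))))))) (.g (nat_lit 5) .nil .nil)))) (.nd (nat_lit 5) 
(.lf (nat_lit 223637) (.g (nat_lit 2325) (.e (nat_lit 98333) (nat_lit 18) (.e (nat_lit 164399) (nat_lit 256) (.e (nat_lit 57372) (nat_lit 2) (.e (nat_lit 90172) (nat_lit 14) (.e (nat_lit 180244) (nat_lit 5) (.e (nat_lit 532506) (nat_lit 2) (.e (nat_lit 106523) (nat_lit 9) (.e (nat_lit 1254) (nat_lit 92) .nil)))))))) (.g (nat_lit 4) .nil .nil))) 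
(.lf (nat_lit 223669) (.g (nat_lit 3068) (.e (nat_lit 98333) (nat_lit 18) (.e (nat_lit 164399) (nat_lit 256) (.e (nat_lit 57373) (nat_lit 2) (.e (nat_lit 90170) (nat_lit 13) (.e (nat_lit 172065) (nat_lit 3) (.e (nat_lit 204837) (nat_lit 20) (.e (nat_lit 114717) (nat_lit 23) .nil))))))) (.g (nat_lit 5) .nil .nil))))) (.nd (nat_lit 4) (.nd (nat_lit 5) 
(.lf (nat_lit 223629) (.g (nat_lit 2579) (.e (nat_lit 98333) (nat_lit 18) (.e (nat_lit 164399) (nat_lit 256) (.e (nat_lit 57372) (nat_lit 2) (.e (nat_lit 90172) (nat_lit 14) (.e (nat_lit 180243) (nat_lit 5) (.e (nat_lit 532508) (nat_lit 2) (.e (nat_lit 106526) (nat_lit 9) (.e (nat_lit 1255) (nat_lit 92) .nil)))))))) (.g (nat_lit 4) .nil .nil))) 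
(.lf (nat_lit 223661) (.g (nat_lit 2528) (.e (nat_lit 98333) (nat_lit 18) (.e (nat_lit 164399) (nat_lit 256) (.e (nat_lit 57372) (nat_lit 2) (.e (nat_lit 90174) (nat_lit 14) (.e (nat_lit 180243) (nat_lit 5) (.e (nat_lit 532511) (nat_lit 2) (.e (nat_lit 106526) (nat_lit 9) (.e (nat_lit 1246) (nat_lit 92) .nil)))))))) (.g (nat_lit 4) .nil .nil)))) (.nd (nat_lit 5) 
(.lf (nat_lit 223645) (.g (nat_lit 3372) (.e (nat_lit 98333) (nat_lit 18) (.e (nat_lit 164399) (nat_lit 256) (.e (nat_lit 57372) (nat_lit 2) (.e (nat_lit 90172) (nat_lit 14) (.e (nat_lit 180244) (nat_lit 5) (.e (nat_lit 532508) (nat_lit 2) (.e (nat_lit 106526) (nat_lit 9) (.e (nat_lit 1254) (nat_lit 92) .nil)))))))) (.g (nat_lit 5) .nil .nil))) 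
(.lf (nat_lit 223677) (.g (nat_lit 3215) (.e (nat_lit 98333) (nat_lit 18) (.e (nat_lit 164399) (nat_lit 256) (.e (nat_lit 57373) (nat_lit 2) (.e (nat_lit 90172) (nat_lit 14) (.e (nat_lit 180243) (nat_lit 5) (.e (nat_lit 532508) (nat_lit 2) (.e (nat_lit 106526) (nat_lit 9) (.e (nat_lit 1254) (nat_lit 92) .nil)))))))) (.g (nat_lit 4) .nil .nil))))))) 
(.nd (nat_lit 2) (.nd (nat_lit 3) (.nd (nat_lit 4) (.nd (nat_lit 5) 
(.lf (nat_lit 223619) (.g (nat_lit 2807) (.e (nat_lit 98333) (nat_lit 18) (.e (nat_lit 164399) (nat_lit 256) (.e (nat_lit 57372) (nat_lit 2) (.e (nat_lit 90167) (nat_lit 13) (.e (nat_lit 172067) (nat_lit 3) (.e (nat_lit 204834) (nat_lit 19) (.e (nat_lit 106517) (nat_lit 9) (.e (nat_lit 1255) (nat_lit 92) .nil)))))))) (.g (nat_lit 5) .nil .nil))) 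
(.lf (nat_lit 223651) (.g (nat_lit 3749) (.e (nat_lit 98333) (nat_lit 18) (.e (nat_lit 164399) (nat_lit 256) (.e (nat_lit 57372) (nat_lit 2) (.e (nat_lit 90174) (nat_lit 14) (.e (nat_lit 180243) (nat_lit 5) (.e (nat_lit 532508) (nat_lit 2) (.e (nat_lit 106517) (nat_lit 9) (.e (nat_lit 1255) (nat_lit 92) .nil)))))))) (.g (nat_lit 6) .nil .nil)))) (.nd (nat_lit 5) 
(.lf (nat_lit 223635) (.g (nat_lit 3749) (.e (nat_lit 98333) (nat_lit 18) (.e (nat_lit 164399) (nat_lit 256) (.e (nat_lit 57372) (nat_lit 2) (.e (nat_lit 90172) (nat_lit 14) (.e (nat_lit 180243) (nat_lit 5) (.e (nat_lit 532513) (nat_lit 3) (.e (nat_lit 114717) (nat_lit 23) .nil))))))) (.g (nat_lit 6) .nil .nil))) 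
(.lf (nat_lit 223667) (.g (nat_lit 2441) (.e (nat_lit 98333) (nat_lit 18) (.e (nat_lit 164399) (nat_lit 256) (.e (nat_lit 57373) (nat_lit 2) (.e (nat_lit 90170) (nat_lit 13) (.e (nat_lit 172065) (nat_lit 3) (.e (nat_lit 204817) (nat_lit 17) (.e (nat_lit 2198) (nat_lit 144) (.e (nat_lit 720945) (nat_lit 23) .nil)))))))) (.g (nat_lit 4) .nil .nil))))) (.nd (nat_lit 4) (.nd (nat_lit 5) 
(.lf (nat_lit 223627) (.g (nat_lit 3246) (.e (nat_lit 98333) (nat_lit 18) (.e (nat_lit 164399) (nat_lit 256) (.e (nat_lit 57372) (nat_lit 2) (.e (nat_lit 90172) (nat_lit 14) (.e (nat_lit 180243) (nat_lit 5) (.e (nat_lit 532508) (nat_lit 2) (.e (nat_lit 106526) (nat_lit 9) (.e (nat_lit 1247) (nat_lit 92) .nil)))))))) (.g (nat_lit 4) .nil .nil))) 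
(.lf (nat_lit 223659) (.g (nat_lit 2451) (.e (nat_lit 98333) (nat_lit 18) (.e (nat_lit 164399) (nat_lit 256) (.e (nat_lit 57372) (nat_lit 2) (.e (nat_lit 90174) (nat_lit 14) (.e (nat_lit 180243) (nat_lit 5) (.e (nat_lit 532511) (nat_lit 2) (.e (nat_lit 106504) (nat_lit 9) (.e (nat_lit 1251) (nat_lit 92) .nil)))))))) (.g (nat_lit 4) .nil .nil)))) (.nd (nat_lit 5) 
(.lf (nat_lit 223643) (.g (nat_lit 3085) (.e (nat_lit 98333) (nat_lit 18) (.e (nat_lit 164399) (nat_lit 256) (.e (nat_lit 57372) (nat_lit 2) (.e (nat_lit 90172) (nat_lit 14) (.e (nat_lit 180244) (nat_lit 5) (.e (nat_lit 532508) (nat_lit 2) (.e (nat_lit 106526) (nat_lit 9) (.e (nat_lit 1247) (nat_lit 92) .nil)))))))) (.g (nat_lit 4) .nil .nil))) 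
(.lf (nat_lit 223675) (.g (nat_lit 2977) (.e (nat_lit 98333) (nat_lit 18) (.e (nat_lit 164399) (nat_lit 256) (.e (nat_lit 57373) (nat_lit 2) (.e (nat_lit 90172) (nat_lit 14) (.e (nat_lit 180243) (nat_lit 5) (.e (nat_lit 532508) (nat_lit 2) (.e (nat_lit 106517) (nat_lit 9) (.e (nat_lit 1255) (nat_lit 92) .nil)))))))) (.g (nat_lit 4) .nil .nil)))))) 
(.nd (nat_lit 3) (.nd (nat_lit 4) (.nd (nat_lit 5) 
(.lf (nat_lit 223623) (.g (nat_lit 2672) (.e (nat_lit 98333) (nat_lit 18) (.e (nat_lit 164399) (nat_lit 256) (.e (nat_lit 57372) (nat_lit 2) (.e (nat_lit 90172) (nat_lit 14) (.e (nat_lit 180243) (nat_lit 5) (.e (nat_lit 532508) (nat_lit 2) (.e (nat_lit 106512) (nat_lit 9) (.e (nat_lit 1251) (nat_lit 92) .nil)))))))) (.g (nat_lit 4) .nil .nil))) 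
(.lf (nat_lit 223655) (.g (nat_lit 3446) (.e (nat_lit 98333) (nat_lit 18) (.e (nat_lit 164399) (nat_lit 256) (.e (nat_lit 57372) (nat_lit 2) (.e (nat_lit 90174) (nat_lit 14) (.e (nat_lit 180243) (nat_lit 5) (.e (nat_lit 532508) (nat_lit 2) (.e (nat_lit 106526) (nat_lit 9) (.e (nat_lit 1247) (nat_lit 92) .nil)))))))) (.g (nat_lit 5) .nil .nil)))) (.nd (nat_lit 5) 
(.lf (nat_lit 223639) (.g (nat_lit 2456) (.e (nat_lit 98333) (nat_lit 18) (.e (nat_lit 164399) (nat_lit 256) (.e (nat_lit 57372) (nat_lit 2) (.e (nat_lit 90172) (nat_lit 14) (.e (nat_lit 180244) (nat_lit 5) (.e (nat_lit 532508) (nat_lit 2) (.e (nat_lit 106512) (nat_lit 9) (.e (nat_lit 1251) (nat_lit 92) .nil)))))))) (.g (nat_lit 4) .nil .nil))) 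
(.lf (nat_lit 223671) (.g (nat_lit 3904) (.e (nat_lit 98333) (nat_lit 18) (.e (nat_lit 164399) (nat_lit 256) (.e (nat_lit 57373) (nat_lit 2) (.e (nat_lit 90170) (nat_lit 13) (.e (nat_lit 172067) (nat_lit 3) (.e (nat_lit 204837) (nat_lit 20) (.e (nat_lit 114717) (nat_lit 23) .nil))))))) (.g (nat_lit 6) .nil .nil))))) (.nd (nat_lit 4) (.nd (nat_lit 5) 
(.lf (nat_lit 223631) (.g (nat_lit 2423) (.e (nat_lit 98333) (nat_lit 18) (.e (nat_lit 164399) (nat_lit 256) (.e (nat_lit 57372) (nat_lit 2) (.e (nat_lit 90172) (nat_lit 14) (.e (nat_lit 180243) (nat_lit 5) (.e (nat_lit 532511) (nat_lit 2) (.e (nat_lit 106512) (nat_lit 9) (.e (nat_lit 1251) (nat_lit 92) .nil)))))))) (.g (nat_lit 4) .nil .nil))) 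
(.lf (nat_lit 223663) (.g (nat_lit 3017) (.e (nat_lit 98333) (nat_lit 18) (.e (nat_lit 164399) (nat_lit 256) (.e (nat_lit 57372) (nat_lit 2) (.e (nat_lit 90174) (nat_lit 14) (.e (nat_lit 180243) (nat_lit 5) (.e (nat_lit 532511) (nat_lit 2) (.e (nat_lit 106526) (nat_lit 9) (.e (nat_lit 1252) (nat_lit 92) .nil)))))))) (.g (nat_lit 5) .nil .nil)))) (.nd (nat_lit 5) 
(.lf (nat_lit 223647) (.g (nat_lit 3781) (.e (nat_lit 98333) (nat_lit 18) (.e (nat_lit 164399) (nat_lit 256) (.e (nat_lit 57372) (nat_lit 2) (.e (nat_lit 90172) (nat_lit 14) (.e (nat_lit 180244) (nat_lit 5) (.e (nat_lit 532513) (nat_lit 3) (.e (nat_lit 114717) (nat_lit 23) .nil))))))) (.g (nat_lit 6) .nil .nil))) 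
(.lf (nat_lit 223679) (.g (nat_lit 1812) (.e (nat_lit 98333) (nat_lit 18) (.e (nat_lit 164399) (nat_lit 256) (.e (nat_lit 57373) (nat_lit 2) (.e (nat_lit 90172) (nat_lit 14) (.e (nat_lit 180244) (nat_lit 5) .nil))))) .nil))))))))

noncomputable def tv2933 : DT := (.nd (nat_lit 0) (.nd (nat_lit 1) (.nd (nat_lit 2) (.nd (nat_lit 3) (.nd (nat_lit 4) (.nd (nat_lit 5) 
(.lf (nat_lit 223680) (.g (nat_lit 2709) (.e (nat_lit 98333) (nat_lit 18) (.e (nat_lit 164399) (nat_lit 256) (.e (nat_lit 57373) (nat_lit 2) (.e (nat_lit 90172) (nat_lit 14) (.e (nat_lit 180244) (nat_lit 5) (.e (nat_lit 532508) (nat_lit 2) (.e (nat_lit 106504) (nat_lit 9) (.e (nat_lit 1251) (nat_lit 92) .nil)))))))) (.g (nat_lit 4) .nil .nil))) 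
(.lf (nat_lit 223712) (.g (nat_lit 3048) (.e (nat_lit 98333) (nat_lit 18) (.e (nat_lit 164399) (nat_lit 256) (.e (nat_lit 57373) (nat_lit 2) (.e (nat_lit 90174) (nat_lit 14) (.e (nat_lit 180243) (nat_lit 5) (.e (nat_lit 532508) (nat_lit 2) (.e (nat_lit 114432) (nat_lit 9) (.e (nat_lit 1250) (nat_lit 92) .nil)))))))) (.g (nat_lit 4) .nil .nil)))) (.nd (nat_lit 5) 
(.lf (nat_lit 223696) (.g (nat_lit 3587) (.e (nat_lit 98333) (nat_lit 18) (.e (nat_lit 164399) (nat_lit 256) (.e (nat_lit 57373) (nat_lit 2) (.e (nat_lit 90174) (nat_lit 14) (.e (nat_lit 180243) (nat_lit 5) (.e (nat_lit 532508) (nat_lit 2) (.e (nat_lit 106512) (nat_lit 9) (.e (nat_lit 1251) (nat_lit 92) .nil)))))))) (.g (nat_lit 5) .nil .nil))) 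
(.lf (nat_lit 223728) (.g (nat_lit 3676) (.e (nat_lit 98333) (nat_lit 18) (.e (nat_lit 164399) (nat_lit 256) (.e (nat_lit 57373) (nat_lit 2) (.e (nat_lit 90174) (nat_lit 14) (.e (nat_lit 180243) (nat_lit 5) (.e (nat_lit 532511) (nat_lit 2) (.e (nat_lit 106523) (nat_lit 9) (.e (nat_lit 1254) (nat_lit 92) .nil)))))))) (.g (nat_lit 5) .nil .nil))))) (.nd (nat_lit 4) (.nd (nat_lit 5) 
(.lf (nat_lit 223688) (.g (nat_lit 3800) (.e (nat_lit 98333) (nat_lit 18) (.e (nat_lit 164399) (nat_lit 256) (.e (nat_lit 57373) (nat_lit 2) (.e (nat_lit 90172) (nat_lit 14) (.e (nat_lit 180244) (nat_lit 5) (.e (nat_lit 532513) (nat_lit 3) (.e (nat_lit 114717) (nat_lit 23) .nil))))))) (.g (nat_lit 6) .nil .nil))) 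
(.lf (nat_lit 223720) (.g (nat_lit 2428) (.e (nat_lit 98333) (nat_lit 18) (.e (nat_lit 164399) (nat_lit 256) (.e (nat_lit 57373) (nat_lit 2) (.e (nat_lit 90174) (nat_lit 14) (.e (nat_lit 180243) (nat_lit 5) (.e (nat_lit 532510) (nat_lit 2) (.e (nat_lit 106521) (nat_lit 9) (.e (nat_lit 1254) (nat_lit 92) .nil)))))))) (.g (nat_lit 4) .nil .nil)))) (.nd (nat_lit 5) 
(.lf (nat_lit 223704) (.g (nat_lit 3895) (.e (nat_lit 98333) (nat_lit 18) (.e (nat_lit 164399) (nat_lit 256) (.e (nat_lit 57373) (nat_lit 2) (.e (nat_lit 90174) (nat_lit 14) (.e (nat_lit 180243) (nat_lit 5) (.e (nat_lit 532508) (nat_lit 2) (.e (nat_lit 106523) (nat_lit 9) (.e (nat_lit 1254) (nat_lit 92) .nil)))))))) (.g (nat_lit 5) .nil .nil))) 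
(.lf (nat_lit 223736) (.g (nat_lit 2163) (.e (nat_lit 98333) (nat_lit 18) (.e (nat_lit 164399) (nat_lit 256) (.e (nat_lit 57373) (nat_lit 2) (.e (nat_lit 90185) (nat_lit 17) (.e (nat_lit 237594) (nat_lit 3) .nil))))) .nil))))) (.nd (nat_lit 3) (.nd (nat_lit 4) (.nd (nat_lit 5) 
(.lf (nat_lit 223684) (.g (nat_lit 3038) (.e (nat_lit 98333) (nat_lit 18) (.e (nat_lit 164399) (nat_lit 256) (.e (nat_lit 57373) (nat_lit 2) (.e (nat_lit 90172) (nat_lit 14) (.e (nat_lit 180244) (nat_lit 5) (.e (nat_lit 532508) (nat_lit 2) (.e (nat_lit 106526) (nat_lit 9) (.e (nat_lit 1247) (nat_lit 92) .nil)))))))) (.g (nat_lit 4) .nil .nil))) 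
(.lf (nat_lit 223716) (.g (nat_lit 2512) (.e (nat_lit 98333) (nat_lit 18) (.e (nat_lit 164399) (nat_lit 256) (.e (nat_lit 57373) (nat_lit 2) (.e (nat_lit 90174) (nat_lit 14) (.e (nat_lit 180243) (nat_lit 5) (.e (nat_lit 532510) (nat_lit 2) (.e (nat_lit 106512) (nat_lit 9) (.e (nat_lit 1251) (nat_lit 92) .nil)))))))) (.g (nat_lit 4) .nil .nil)))) (.nd (nat_lit 5) 
(.lf (nat_lit 223700) (.g (nat_lit 2465) (.e (nat_lit 98333) (nat_lit 18) (.e (nat_lit 164399) (nat_lit 256) (.e (nat_lit 57373) (nat_lit 2) (.e (nat_lit 90174) (nat_lit 14) (.e (nat_lit 180243) (nat_lit 5) (.e (nat_lit 532508) (nat_lit 2) (.e (nat_lit 106519) (nat_lit 9) (.e (nat_lit 1254) (nat_lit 92) .nil)))))))) (.g (nat_lit 4) .nil .nil))) 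
(.lf (nat_lit 223732) (.g (nat_lit 2556) (.e (nat_lit 98333) (nat_lit 18) (.e (nat_lit 164399) (nat_lit 256) (.e (nat_lit 57373) (nat_lit 2) (.e (nat_lit 90174) (nat_lit 14) (.e (nat_lit 180243) (nat_lit 5) (.e (nat_lit 532511) (nat_lit 2) (.e (nat_lit 106526) (nat_lit 9) (.e (nat_lit 1255) (nat_lit 92) .nil)))))))) (.g (nat_lit 4) .nil .nil))))) (.nd (nat_lit 4) (.nd (nat_lit 5) 
(.lf (nat_lit 223692) (.g (nat_lit 2798) (.e (nat_lit 98333) (nat_lit 18) (.e (nat_lit 164399) (nat_lit 256) (.e (nat_lit 57373) (nat_lit 2) (.e (nat_lit 90174) (nat_lit 14) (.e (nat_lit 180243) (nat_lit 5) (.e (nat_lit 532508) (nat_lit 2) (.e (nat_lit 106504) (nat_lit 9) (.e (nat_lit 1249) (nat_lit 92) .nil)))))))) (.g (nat_lit 4) .nil .nil))) 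
(.lf (nat_lit 223724) (.g (nat_lit 3400) (.e (nat_lit 98333) (nat_lit 18) (.e (nat_lit 164399) (nat_lit 256) (.e (nat_lit 57373) (nat_lit 2) (.e (nat_lit 90174) (nat_lit 14) (.e (nat_lit 180243) (nat_lit 5) (.e (nat_lit 532511) (nat_lit 2) (.e (nat_lit 106512) (nat_lit 9) (.e (nat_lit 1251) (nat_lit 92) .nil)))))))) (.g (nat_lit 5) .nil .nil)))) (.nd (nat_lit 5) 
(.lf (nat_lit 223708) (.g (nat_lit 4899) (.e (nat_lit 98333) (nat_lit 18) (.e (nat_lit 164399) (nat_lit 256) (.e (nat_lit 57373) (nat_lit 2) (.e (nat_lit 90174) (nat_lit 14) (.e (nat_lit 180243) (nat_lit 5) (.e (nat_lit 532508) (nat_lit 2) (.e (nat_lit 106526) (nat_lit 9) (.e (nat_lit 1252) (nat_lit 92) .nil)))))))) (.g (nat_lit 8) .nil .nil))) 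
(.lf (nat_lit 223740) (.g (nat_lit 3683) (.e (nat_lit 98333) (nat_lit 18) (.e (nat_lit 164399) (nat_lit 256) (.e (nat_lit 57374) (nat_lit 2) (.e (nat_lit 90170) (nat_lit 13) (.e (nat_lit 172067) (nat_lit 3) (.e (nat_lit 204834) (nat_lit 19) (.e (nat_lit 106517) (nat_lit 9) (.e (nat_lit 1255) (nat_lit 92) .nil)))))))) (.g (nat_lit 5) .nil .nil))))))) 
(.nd (nat_lit 2) (.nd (nat_lit 3) (.nd (nat_lit 4) (.nd (nat_lit 5) 
(.lf (nat_lit 223682) (.g (nat_lit 2717) (.e (nat_lit 98333) (nat_lit 18) (.e (nat_lit 164399) (nat_lit 256) (.e (nat_lit 57373) (nat_lit 2) (.e (nat_lit 90172) (nat_lit 14) (.e (nat_lit 180244) (nat_lit 5) (.e (nat_lit 532508) (nat_lit 2) (.e (nat_lit 106523) (nat_lit 9) (.e (nat_lit 1254) (nat_lit 92) .nil)))))))) (.g (nat_lit 4) .nil .nil))) 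
(.lf (nat_lit 223714) (.g (nat_lit 2875) (.e (nat_lit 98333) (nat_lit 18) (.e (nat_lit 164399) (nat_lit 256) (.e (nat_lit 57373) (nat_lit 2) (.e (nat_lit 90174) (nat_lit 14) (.e (nat_lit 180243) (nat_lit 5) (.e (nat_lit 532510) (nat_lit 2) (.e (nat_lit 106504) (nat_lit 9) (.e (nat_lit 1251) (nat_lit 92) .nil)))))))) (.g (nat_lit 4) .nil .nil)))) (.nd (nat_lit 5) 
(.lf (nat_lit 223698) (.g (nat_lit 2801) (.e (nat_lit 98333) (nat_lit 18) (.e (nat_lit 164399) (nat_lit 256) (.e (nat_lit 57373) (nat_lit 2) (.e (nat_lit 90174) (nat_lit 14) (.e (nat_lit 180243) (nat_lit 5) (.e (nat_lit 532508) (nat_lit 2) (.e (nat_lit 106513) (nat_lit 9) (.e (nat_lit 1251) (nat_lit 92) .nil)))))))) (.g (nat_lit 4) .nil .nil))) 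
(.lf (nat_lit 223730) (.g (nat_lit 3231) (.e (nat_lit 98333) (nat_lit 18) (.e (nat_lit 164399) (nat_lit 256) (.e (nat_lit 57373) (nat_lit 2) (.e (nat_lit 90174) (nat_lit 14) (.e (nat_lit 180243) (nat_lit 5) (.e (nat_lit 532511) (nat_lit 2) (.e (nat_lit 106526) (nat_lit 9) (.e (nat_lit 1247) (nat_lit 92) .nil)))))))) (.g (nat_lit 4) .nil .nil))))) (.nd (nat_lit 4) (.nd (nat_lit 5) 
(.lf (nat_lit 223690) (.g (nat_lit 2420) (.e (nat_lit 98333) (nat_lit 18) (.e (nat_lit 164399) (nat_lit 256) (.e (nat_lit 57373) (nat_lit 2) (.e (nat_lit 90174) (nat_lit 14) (.e (nat_lit 180243) (nat_lit 5) (.e (nat_lit 532506) (nat_lit 2) (.e (nat_lit 106520) (nat_lit 9) (.e (nat_lit 1254) (nat_lit 92) .nil)))))))) (.g (nat_lit 4) .nil .nil))) 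
(.lf (nat_lit 223722) (.g (nat_lit 3243) (.e (nat_lit 98333) (nat_lit 18) (.e (nat_lit 164399) (nat_lit 256) (.e (nat_lit 57373) (nat_lit 2) (.e (nat_lit 90174) (nat_lit 14) (.e (nat_lit 180243) (nat_lit 5) (.e (nat_lit 532510) (nat_lit 2) (.e (nat_lit 106523) (nat_lit 9) (.e (nat_lit 1254) (nat_lit 92) .nil)))))))) (.g (nat_lit 5) .nil .nil)))) (.nd (nat_lit 5) 
(.lf (nat_lit 223706) (.g (nat_lit 2948) (.e (nat_lit 98333) (nat_lit 18) (.e (nat_lit 164399) (nat_lit 256) (.e (nat_lit 57373) (nat_lit 2) (.e (nat_lit 90174) (nat_lit 14) (.e (nat_lit 180243) (nat_lit 5) (.e (nat_lit 532508) (nat_lit 2) (.e (nat_lit 106525) (nat_lit 9) (.e (nat_lit 1252) (nat_lit 92) .nil)))))))) (.g (nat_lit 4) .nil .nil))) 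
(.lf (nat_lit 223738) (.g (nat_lit 3296) (.e (nat_lit 98333) (nat_lit 18) (.e (nat_lit 164399) (nat_lit 256) (.e (nat_lit 57374) (nat_lit 2) (.e (nat_lit 90170) (nat_lit 13) (.e (nat_lit 172065) (nat_lit 3) (.e (nat_lit 204834) (nat_lit 19) (.e (nat_lit 106517) (nat_lit 9) (.e (nat_lit 1252) (nat_lit 92) .nil)))))))) (.g (nat_lit 4) .nil .nil)))))) 
(.nd (nat_lit 3) (.nd (nat_lit 4) (.nd (nat_lit 5) 
(.lf (nat_lit 223686) (.g (nat_lit 3610) (.e (nat_lit 98333) (nat_lit 18) (.e (nat_lit 164399) (nat_lit 256) (.e (nat_lit 57373) (nat_lit 2) (.e (nat_lit 90172) (nat_lit 14) (.e (nat_lit 180244) (nat_lit 5) (.e (nat_lit 532508) (nat_lit 2) (.e (nat_lit 106526) (nat_lit 9) (.e (nat_lit 1254) (nat_lit 92) .nil)))))))) (.g (nat_lit 5) .nil .nil))) 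
(.lf (nat_lit 223718) (.g (nat_lit 2982) (.e (nat_lit 98333) (nat_lit 18) (.e (nat_lit 164399) (nat_lit 256) (.e (nat_lit 57373) (nat_lit 2) (.e (nat_lit 90174) (nat_lit 14) (.e (nat_lit 180243) (nat_lit 5) (.e (nat_lit 532510) (nat_lit 2) (.e (nat_lit 106514) (nat_lit 9) (.e (nat_lit 1254) (nat_lit 92) .nil)))))))) (.g (nat_lit 4) .nil .nil)))) (.nd (nat_lit 5) 
(.lf (nat_lit 223702) (.g (nat_lit 2762) (.e (nat_lit 98333) (nat_lit 18) (.e (nat_lit 164399) (nat_lit 256) (.e (nat_lit 57373) (nat_lit 2) (.e (nat_lit 90174) (nat_lit 14) (.e (nat_lit 180243) (nat_lit 5) (.e (nat_lit 532508) (nat_lit 2) (.e (nat_lit 106522) (nat_lit 9) (.e (nat_lit 1252) (nat_lit 92) .nil)))))))) (.g (nat_lit 4) .nil .nil))) 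
(.lf (nat_lit 223734) (.g (nat_lit 2386) (.e (nat_lit 98333) (nat_lit 18) (.e (nat_lit 164399) (nat_lit 256) (.e (nat_lit 57373) (nat_lit 2) (.e (nat_lit 90174) (nat_lit 14) (.e (nat_lit 180245) (nat_lit 5) .nil))))) .nil)))) (.nd (nat_lit 4) (.nd (nat_lit 5) 
(.lf (nat_lit 223694) (.g (nat_lit 2787) (.e (nat_lit 98333) (nat_lit 18) (.e (nat_lit 164399) (nat_lit 256) (.e (nat_lit 57373) (nat_lit 2) (.e (nat_lit 90174) (nat_lit 14) (.e (nat_lit 180243) (nat_lit 5) (.e (nat_lit 532508) (nat_lit 2) (.e (nat_lit 106504) (nat_lit 9) (.e (nat_lit 1254) (nat_lit 92) .nil)))))))) (.g (nat_lit 4) .nil .nil))) 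
(.lf (nat_lit 223726) (.g (nat_lit 2351) (.e (nat_lit 98333) (nat_lit 18) (.e (nat_lit 164399) (nat_lit 256) (.e (nat_lit 57373) (nat_lit 2) (.e (nat_lit 90174) (nat_lit 14) (.e (nat_lit 180243) (nat_lit 5) (.e (nat_lit 532511) (nat_lit 2) (.e (nat_lit 106517) (nat_lit 9) (.e (nat_lit 1255) (nat_lit 92) .nil)))))))) (.g (nat_lit 4) .nil .nil)))) (.nd (nat_lit 5) 
(.lf (nat_lit 223710) (.g (nat_lit 3457) (.e (nat_lit 98333) (nat_lit 18) (.e (nat_lit 164399) (nat_lit 256) (.e (nat_lit 57373) (nat_lit 2) (.e (nat_lit 90174) (nat_lit 14) (.e (nat_lit 180243) (nat_lit 5) (.e (nat_lit 532508) (nat_lit 2) (.e (nat_lit 106526) (nat_lit 9) (.e (nat_lit 1255) (nat_lit 92) .nil)))))))) (.g (nat_lit 5) .nil .nil))) 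
(.lf (nat_lit 223742) (.g (nat_lit 4271) (.e (nat_lit 98333) (nat_lit 18) (.e (nat_lit 164399) (nat_lit 256) (.e (nat_lit 57374) (nat_lit 2) (.e (nat_lit 90170) (nat_lit 13) (.e (nat_lit 172067) (nat_lit 3) (.e (nat_lit 204838) (nat_lit 20) (.e (nat_lit 114717) (nat_lit 23) .nil))))))) (.g (nat_lit 6) .nil .nil)))))))) 
(.nd (nat_lit 1) (.nd (nat_lit 2) (.nd (nat_lit 3) (.nd (nat_lit 4) (.nd (nat_lit 5) 
(.lf (nat_lit 223681) (.g (nat_lit 3461) (.e (nat_lit 98333) (nat_lit 18) (.e (nat_lit 164399) (nat_lit 256) (.e (nat_lit 57373) (nat_lit 2) (.e (nat_lit 90172) (nat_lit 14) (.e (nat_lit 180244) (nat_lit 5) (.e (nat_lit 532508) (nat_lit 2) (.e (nat_lit 106517) (nat_lit 9) (.e (nat_lit 1255) (nat_lit 92) .nil)))))))) (.g (nat_lit 5) .nil .nil))) 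
(.lf (nat_lit 223713) (.g (nat_lit 3835) (.e (nat_lit 98333) (nat_lit 18) (.e (nat_lit 164399) (nat_lit 256) (.e (nat_lit 57373) (nat_lit 2) (.e (nat_lit 90174) (nat_lit 14) (.e (nat_lit 180243) (nat_lit 5) (.e (nat_lit 532508) (nat_lit 2) (.e (nat_lit 114432) (nat_lit 9) (.e (nat_lit 1256) (nat_lit 92) .nil)))))))) (.g (nat_lit 5) .nil .nil)))) (.nd (nat_lit 5) 
(.lf (nat_lit 223697) (.g (nat_lit 2733) (.e (nat_lit 98333) (nat_lit 18) (.e (nat_lit 164399) (nat_lit 256) (.e (nat_lit 57373) (nat_lit 2) (.e (nat_lit 90174) (nat_lit 14) (.e (nat_lit 180243) (nat_lit 5) (.e (nat_lit 532508) (nat_lit 2) (.e (nat_lit 106512) (nat_lit 9) (.e (nat_lit 1256) (nat_lit 92) .nil)))))))) (.g (nat_lit 4) .nil .nil))) 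
(.lf (nat_lit 223729) (.g (nat_lit 3205) (.e (nat_lit 98333) (nat_lit 18) (.e (nat_lit 164399) (nat_lit 256) (.e (nat_lit 57373) (nat_lit 2) (.e (nat_lit 90174) (nat_lit 14) (.e (nat_lit 180243) (nat_lit 5) (.e (nat_lit 532511) (nat_lit 2) (.e (nat_lit 106526) (nat_lit 9) (.e (nat_lit 1246) (nat_lit 92) .nil)))))))) (.g (nat_lit 4) .nil .nil))))) (.nd (nat_lit 4) (.nd (nat_lit 5) 
(.lf (nat_lit 223689) (.g (nat_lit 1847) (.e (nat_lit 98333) (nat_lit 18) (.e (nat_lit 164399) (nat_lit 256) (.e (nat_lit 57373) (nat_lit 2) (.e (nat_lit 90174) (nat_lit 14) (.e (nat_lit 180243) (nat_lit 5) .nil))))) .nil)) 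
(.lf (nat_lit 223721) (.g (nat_lit 2745) (.e (nat_lit 98333) (nat_lit 18) (.e (nat_lit 164399) (nat_lit 256) (.e (nat_lit 57373) (nat_lit 2) (.e (nat_lit 90174) (nat_lit 14) (.e (nat_lit 180243) (nat_lit 5) (.e (nat_lit 532510) (nat_lit 2) (.e (nat_lit 106523) (nat_lit 9) (.e (nat_lit 1252) (nat_lit 92) .nil)))))))) (.g (nat_lit 4) .nil .nil)))) (.nd (nat_lit 5) 
(.lf (nat_lit 223705) (.g (nat_lit 2494) (.e (nat_lit 98333) (nat_lit 18) (.e (nat_lit 164399) (nat_lit 256) (.e (nat_lit 57373) (nat_lit 2) (.e (nat_lit 90174) (nat_lit 14) (.e (nat_lit 180243) (nat_lit 5) (.e (nat_lit 532508) (nat_lit 2) (.e (nat_lit 106524) (nat_lit 9) (.e (nat_lit 1254) (nat_lit 92) .nil)))))))) (.g (nat_lit 4) .nil .nil))) 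
(.lf (nat_lit 223737) (.g (nat_lit 2472) (.e (nat_lit 98333) (nat_lit 18) (.e (nat_lit 164399) (nat_lit 256) (.e (nat_lit 57374) (nat_lit 2) (.e (nat_lit 90170) (nat_lit 13) (.e (nat_lit 172065) (nat_lit 3) .nil))))) .nil))))) (.nd (nat_lit 3) (.nd (nat_lit 4) (.nd (nat_lit 5) 
(.lf (nat_lit 223685) (.g (nat_lit 3805) (.e (nat_lit 98333) (nat_lit 18) (.e (nat_lit 164399) (nat_lit 256) (.e (nat_lit 57373) (nat_lit 2) (.e (nat_lit 90172) (nat_lit 14) (.e (nat_lit 180244) (nat_lit 5) (.e (nat_lit 532508) (nat_lit 2) (.e (nat_lit 106526) (nat_lit 9) (.e (nat_lit 1252) (nat_lit 92) .nil)))))))) (.g (nat_lit 5) .nil .nil))) 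
(.lf (nat_lit 223717) (.g (nat_lit 2378) (.e (nat_lit 98333) (nat_lit 18) (.e (nat_lit 164399) (nat_lit 256) (.e (nat_lit 57373) (nat_lit 2) (.e (nat_lit 90174) (nat_lit 14) (.e (nat_lit 180243) (nat_lit 5) (.e (nat_lit 532510) (nat_lit 2) (.e (nat_lit 106513) (nat_lit 9) (.e (nat_lit 1251) (nat_lit 92) .nil)))))))) (.g (nat_lit 4) .nil .nil)))) (.nd (nat_lit 5) 
(.lf (nat_lit 223701) (.g (nat_lit 3499) (.e (nat_lit 98333) (nat_lit 18) (.e (nat_lit 164399) (nat_lit 256) (.e (nat_lit 57373) (nat_lit 2) (.e (nat_lit 90174) (nat_lit 14) (.e (nat_lit 180243) (nat_lit 5) (.e (nat_lit 532508) (nat_lit 2) (.e (nat_lit 106520) (nat_lit 9) (.e (nat_lit 1254) (nat_lit 92) .nil)))))))) (.g (nat_lit 5) .nil .nil))) 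
(.lf (nat_lit 223733) (.g (nat_lit 4009) (.e (nat_lit 98333) (nat_lit 18) (.e (nat_lit 164399) (nat_lit 256) (.e (nat_lit 57373) (nat_lit 2) (.e (nat_lit 90174) (nat_lit 14) (.e (nat_lit 180243) (nat_lit 5) (.e (nat_lit 532515) (nat_lit 3) (.e (nat_lit 114717) (nat_lit 23) .nil))))))) (.g (nat_lit 6) .nil .nil))))) (.nd (nat_lit 4) (.nd (nat_lit 5) 
(.lf (nat_lit 223693) (.g (nat_lit 3887) (.e (nat_lit 98333) (nat_lit 18) (.e (nat_lit 164399) (nat_lit 256) (.e (nat_lit 57373) (nat_lit 2) (.e (nat_lit 90174) (nat_lit 14) (.e (nat_lit 180243) (nat_lit 5) (.e (nat_lit 532508) (nat_lit 2) (.e (nat_lit 106504) (nat_lit 9) (.e (nat_lit 1251) (nat_lit 92) .nil)))))))) (.g (nat_lit 5) .nil .nil))) 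
(.lf (nat_lit 223725) (.g (nat_lit 2669) (.e (nat_lit 98333) (nat_lit 18) (.e (nat_lit 164399) (nat_lit 256) (.e (nat_lit 57373) (nat_lit 2) (.e (nat_lit 90174) (nat_lit 14) (.e (nat_lit 180243) (nat_lit 5) (.e (nat_lit 532511) (nat_lit 2) (.e (nat_lit 106513) (nat_lit 9) (.e (nat_lit 1251) (nat_lit 92) .nil)))))))) (.g (nat_lit 4) .nil .nil)))) (.nd (nat_lit 5) 
(.lf (nat_lit 223709) (.g (nat_lit 4704) (.e (nat_lit 98333) (nat_lit 18) (.e (nat_lit 164399) (nat_lit 256) (.e (nat_lit 57373) (nat_lit 2) (.e (nat_lit 90174) (nat_lit 14) (.e (nat_lit 180243) (nat_lit 5) (.e (nat_lit 532508) (nat_lit 2) (.e (nat_lit 106526) (nat_lit 9) (.e (nat_lit 1254) (nat_lit 92) .nil)))))))) (.g (nat_lit 8) .nil .nil))) 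
(.lf (nat_lit 223741) (.g (nat_lit 4054) (.e (nat_lit 98333) (nat_lit 18) (.e (nat_lit 164399) (nat_lit 256) (.e (nat_lit 57374) (nat_lit 2) (.e (nat_lit 90170) (nat_lit 13) (.e (nat_lit 172067) (nat_lit 3) (.e (nat_lit 204837) (nat_lit 20) (.e (nat_lit 114717) (nat_lit 23) .nil))))))) (.g (nat_lit 5) .nil .nil))))))) (.nd (nat_lit 2) (.nd (nat_lit 3) (.nd (nat_lit 4) (.nd (nat_lit 5) 
(.lf (nat_lit 223683) (.g (nat_lit 3012) (.e (nat_lit 98333) (nat_lit 18) (.e (nat_lit 164399) (nat_lit 256) (.e (nat_lit 57373) (nat_lit 2) (.e (nat_lit 90172) (nat_lit 14) (.e (nat_lit 180244) (nat_lit 5) (.e (nat_lit 532508) (nat_lit 2) (.e (nat_lit 106526) (nat_lit 9) (.e (nat_lit 1246) (nat_lit 92) .nil)))))))) (.g (nat_lit 4) .nil .nil))) 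
(.lf (nat_lit 223715) (.g (nat_lit 2480) (.e (nat_lit 98333) (nat_lit 18) (.e (nat_lit 164399) (nat_lit 256) (.e (nat_lit 57373) (nat_lit 2) (.e (nat_lit 90174) (nat_lit 14) (.e (nat_lit 180243) (nat_lit 5) (.e (nat_lit 532510) (nat_lit 2) (.e (nat_lit 106511) (nat_lit 9) (.e (nat_lit 1243) (nat_lit 92) .nil)))))))) (.g (nat_lit 4) .nil .nil)))) (.nd (nat_lit 5) 
(.lf (nat_lit 223699) (.g (nat_lit 2690) (.e (nat_lit 98333) (nat_lit 18) (.e (nat_lit 164399) (nat_lit 256) (.e (nat_lit 57373) (nat_lit 2) (.e (nat_lit 90174) (nat_lit 14) (.e (nat_lit 180243) (nat_lit 5) (.e (nat_lit 532508) (nat_lit 2) (.e (nat_lit 106517) (nat_lit 9) (.e (nat_lit 1246) (nat_lit 92) .nil)))))))) (.g (nat_lit 4) .nil .nil))) 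
(.lf (nat_lit 223731) (.g (nat_lit 3803) (.e (nat_lit 98333) (nat_lit 18) (.e (nat_lit 164399) (nat_lit 256) (.e (nat_lit 57373) (nat_lit 2) (.e (nat_lit 90174) (nat_lit 14) (.e (nat_lit 180243) (nat_lit 5) (.e (nat_lit 532511) (nat_lit 2) (.e (nat_lit 106526) (nat_lit 9) (.e (nat_lit 1254) (nat_lit 92) .nil)))))))) (.g (nat_lit 5) .nil .nil))))) (.nd (nat_lit 4) (.nd (nat_lit 5) 
(.lf (nat_lit 223691) (.g (nat_lit 2805) (.e (nat_lit 98333) (nat_lit 18) (.e (nat_lit 164399) (nat_lit 256) (.e (nat_lit 57373) (nat_lit 2) (.e (nat_lit 90174) (nat_lit 14) (.e (nat_lit 180243) (nat_lit 5) (.e (nat_lit 532506) (nat_lit 2) (.e (nat_lit 106523) (nat_lit 9) (.e (nat_lit 1254) (nat_lit 92) .nil)))))))) (.g (nat_lit 4) .nil .nil))) 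
(.lf (nat_lit 223723) (.g (nat_lit 3128) (.e (nat_lit 98333) (nat_lit 18) (.e (nat_lit 164399) (nat_lit 256) (.e (nat_lit 57373) (nat_lit 2) (.e (nat_lit 90174) (nat_lit 14) (.e (nat_lit 180243) (nat_lit 5) (.e (nat_lit 532511) (nat_lit 2) (.e (nat_lit 106504) (nat_lit 9) (.e (nat_lit 1251) (nat_lit 92) .nil)))))))) (.g (nat_lit 4) .nil .nil)))) (.nd (nat_lit 5) 
(.lf (nat_lit 223707) (.g (nat_lit 4106) (.e (nat_lit 98333) (nat_lit 18) (.e (nat_lit 164399) (nat_lit 256) (.e (nat_lit 57373) (nat_lit 2) (.e (nat_lit 90174) (nat_lit 14) (.e (nat_lit 180243) (nat_lit 5) (.e (nat_lit 532508) (nat_lit 2) (.e (nat_lit 106526) (nat_lit 9) (.e (nat_lit 1246) (nat_lit 92) .nil)))))))) (.g (nat_lit 5) .nil .nil))) 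
(.lf (nat_lit 223739) (.g (nat_lit 3169) (.e (nat_lit 98333) (nat_lit 18) (.e (nat_lit 164399) (nat_lit 256) (.e (nat_lit 57374) (nat_lit 2) (.e (nat_lit 90170) (nat_lit 13) (.e (nat_lit 172067) (nat_lit 3) (.e (nat_lit 204834) (nat_lit 19) (.e (nat_lit 106517) (nat_lit 9) (.e (nat_lit 1252) (nat_lit 92) .nil)))))))) (.g (nat_lit 4) .nil .nil)))))) 
(.nd (nat_lit 3) (.nd (nat_lit 4) (.nd (nat_lit 5) 
(.lf (nat_lit 223687) (.g (nat_lit 2915) (.e (nat_lit 98333) (nat_lit 18) (.e (nat_lit 164399) (nat_lit 256) (.e (nat_lit 57373) (nat_lit 2) (.e (nat_lit 90172) (nat_lit 14) (.e (nat_lit 180244) (nat_lit 5) (.e (nat_lit 532508) (nat_lit 2) (.e (nat_lit 114432) (nat_lit 9) (.e (nat_lit 1256) (nat_lit 92) .nil)))))))) (.g (nat_lit 4) .nil .nil))) 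
(.lf (nat_lit 223719) (.g (nat_lit 3030) (.e (nat_lit 98333) (nat_lit 18) (.e (nat_lit 164399) (nat_lit 256) (.e (nat_lit 57373) (nat_lit 2) (.e (nat_lit 90174) (nat_lit 14) (.e (nat_lit 180243) (nat_lit 5) (.e (nat_lit 532510) (nat_lit 2) (.e (nat_lit 106520) (nat_lit 9) (.e (nat_lit 1254) (nat_lit 92) .nil)))))))) (.g (nat_lit 4) .nil .nil)))) (.nd (nat_lit 5) 
(.lf (nat_lit 223703) (.g (nat_lit 2484) (.e (nat_lit 98333) (nat_lit 18) (.e (nat_lit 164399) (nat_lit 256) (.e (nat_lit 57373) (nat_lit 2) (.e (nat_lit 90174) (nat_lit 14) (.e (nat_lit 180243) (nat_lit 5) (.e (nat_lit 532508) (nat_lit 2) (.e (nat_lit 106522) (nat_lit 9) (.e (nat_lit 1254) (nat_lit 92) .nil)))))))) (.g (nat_lit 4) .nil .nil))) 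
(.lf (nat_lit 223735) (.g (nat_lit 1843) (.e (nat_lit 98333) (nat_lit 18) (.e (nat_lit 164399) (nat_lit 256) (.e (nat_lit 57373) (nat_lit 2) (.e (nat_lit 90185) (nat_lit 17) (.e (nat_lit 237592) (nat_lit 3) .nil))))) .nil)))) (.nd (nat_lit 4) (.nd (nat_lit 5) 
(.lf (nat_lit 223695) (.g (nat_lit 3136) (.e (nat_lit 98333) (nat_lit 18) (.e (nat_lit 164399) (nat_lit 256) (.e (nat_lit 57373) (nat_lit 2) (.e (nat_lit 90174) (nat_lit 14) (.e (nat_lit 180243) (nat_lit 5) (.e (nat_lit 532508) (nat_lit 2) (.e (nat_lit 106504) (nat_lit 9) (.e (nat_lit 1256) (nat_lit 92) .nil)))))))) (.g (nat_lit 4) .nil .nil))) 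
(.lf (nat_lit 223727) (.g (nat_lit 2434) (.e (nat_lit 98333) (nat_lit 18) (.e (nat_lit 164399) (nat_lit 256) (.e (nat_lit 57373) (nat_lit 2) (.e (nat_lit 90174) (nat_lit 14) (.e (nat_lit 180243) (nat_lit 5) (.e (nat_lit 532511) (nat_lit 2) (.e (nat_lit 106520) (nat_lit 9) (.e (nat_lit 1254) (nat_lit 92) .nil)))))))) (.g (nat_lit 4) .nil .nil)))) (.nd (nat_lit 5) 
(.lf (nat_lit 223711) (.g (nat_lit 2977) (.e (nat_lit 98333) (nat_lit 18) (.e (nat_lit 164399) (nat_lit 256) (.e (nat_lit 57373) (nat_lit 2) (.e (nat_lit 90174) (nat_lit 14) (.e (nat_lit 180243) (nat_lit 5) (.e (nat_lit 532508) (nat_lit 2) (.e (nat_lit 106529) (nat_lit 9) (.e (nat_lit 1253) (nat_lit 92) .nil)))))))) (.g (nat_lit 4) .nil .nil))) 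
(.lf (nat_lit 223743) (.g (nat_lit 1961) (.e (nat_lit 98333) (nat_lit 18) (.e (nat_lit 164399) (nat_lit 256) (.e (nat_lit 57374) (nat_lit 2) (.e (nat_lit 90174) (nat_lit 14) (.e (nat_lit 180243) (nat_lit 5) .nil))))) .nil))))))))

noncomputable def tv2934 : DT := (.nd (nat_lit 0) (.nd (nat_lit 1) (.nd (nat_lit 2) (.nd (nat_lit 3) (.nd (nat_lit 4) (.nd (nat_lit 5) 
(.lf (nat_lit 223744) (.g (nat_lit 1975) (.e (nat_lit 98333) (nat_lit 18) (.e (nat_lit 164399) (nat_lit 256) (.e (nat_lit 57375) (nat_lit 2) (.e (nat_lit 90172) (nat_lit 14) (.e (nat_lit 180243) (nat_lit 5) .nil))))) .nil)) 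
(.lf (nat_lit 223776) (.g (nat_lit 3363) (.e (nat_lit 98333) (nat_lit 18) (.e (nat_lit 164399) (nat_lit 256) (.e (nat_lit 57378) (nat_lit 3) (.e (nat_lit 98367) (nat_lit 27) (.e (nat_lit 434231) (nat_lit 23) (.e (nat_lit 532507) (nat_lit 2) (.e (nat_lit 106504) (nat_lit 9) (.e (nat_lit 1251) (nat_lit 92) .nil)))))))) (.g (nat_lit 5) .nil .nil)))) (.nd (nat_lit 5) 
(.lf (nat_lit 223760) (.g (nat_lit 2531) (.e (nat_lit 98333) (nat_lit 18) (.e (nat_lit 164399) (nat_lit 256) (.e (nat_lit 57375) (nat_lit 2) (.e (nat_lit 90174) (nat_lit 14) (.e (nat_lit 180243) (nat_lit 5) (.e (nat_lit 532508) (nat_lit 2) (.e (nat_lit 106523) (nat_lit 9) (.e (nat_lit 1254) (nat_lit 92) .nil)))))))) (.g (nat_lit 4) .nil .nil))) 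
(.lf (nat_lit 223792) (.g (nat_lit 2680) (.e (nat_lit 98333) (nat_lit 18) (.e (nat_lit 164400) (nat_lit 256) (.e (nat_lit 57372) (nat_lit 2) (.e (nat_lit 90172) (nat_lit 14) (.e (nat_lit 180244) (nat_lit 5) (.e (nat_lit 532508) (nat_lit 2) (.e (nat_lit 106517) (nat_lit 9) (.e (nat_lit 1255) (nat_lit 92) .nil)))))))) (.g (nat_lit 4) .nil .nil))))) (.nd (nat_lit 4) (.nd (nat_lit 5) 
(.lf (nat_lit 223752) (.g (nat_lit 2615) (.e (nat_lit 98333) (nat_lit 18) (.e (nat_lit 164399) (nat_lit 256) (.e (nat_lit 57375) (nat_lit 2) (.e (nat_lit 90172) (nat_lit 14) (.e (nat_lit 180244) (nat_lit 5) (.e (nat_lit 532508) (nat_lit 2) (.e (nat_lit 106526) (nat_lit 9) (.e (nat_lit 1246) (nat_lit 92) .nil)))))))) (.g (nat_lit 4) .nil .nil))) 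
(.lf (nat_lit 223784) (.g (nat_lit 3439) (.e (nat_lit 98333) (nat_lit 18) (.e (nat_lit 164399) (nat_lit 256) (.e (nat_lit 57379) (nat_lit 3) (.e (nat_lit 98366) (nat_lit 27) (.e (nat_lit 434231) (nat_lit 23) (.e (nat_lit 532507) (nat_lit 2) (.e (nat_lit 106504) (nat_lit 9) (.e (nat_lit 1251) (nat_lit 92) .nil)))))))) (.g (nat_lit 5) .nil .nil)))) (.nd (nat_lit 5) 
(.lf (nat_lit 223768) (.g (nat_lit 3943) (.e (nat_lit 98333) (nat_lit 18) (.e (nat_lit 164399) (nat_lit 256) (.e (nat_lit 57378) (nat_lit 3) (.e (nat_lit 98356) (nat_lit 26) (.e (nat_lit 426131) (nat_lit 3) (.e (nat_lit 204838) (nat_lit 20) (.e (nat_lit 114717) (nat_lit 23) .nil))))))) (.g (nat_lit 5) .nil .nil))) 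
(.lf (nat_lit 223800) (.g (nat_lit 3087) (.e (nat_lit 98333) (nat_lit 18) (.e (nat_lit 164403) (nat_lit 256) (.e (nat_lit 57370) (nat_lit 2) (.e (nat_lit 90170) (nat_lit 13) (.e (nat_lit 172065) (nat_lit 3) (.e (nat_lit 204838) (nat_lit 20) (.e (nat_lit 114719) (nat_lit 23) .nil))))))) (.g (nat_lit 4) .nil .nil)))))) (.nd (nat_lit 3) (.nd (nat_lit 4) (.nd (nat_lit 5) 
(.lf (nat_lit 223748) (.g (nat_lit 2943) (.e (nat_lit 98333) (nat_lit 18) (.e (nat_lit 164399) (nat_lit 256) (.e (nat_lit 57375) (nat_lit 2) (.e (nat_lit 90172) (nat_lit 14) (.e (nat_lit 180243) (nat_lit 5) (.e (nat_lit 532513) (nat_lit 3) (.e (nat_lit 114717) (nat_lit 23) .nil))))))) (.g (nat_lit 4) .nil .nil))) 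
(.lf (nat_lit 223780) (.g (nat_lit 1710) (.e (nat_lit 98333) (nat_lit 18) (.e (nat_lit 164399) (nat_lit 256) (.e (nat_lit 57378) (nat_lit 3) (.e (nat_lit 98377) (nat_lit 30) (.e (nat_lit 458789) (nat_lit 23) .nil))))) .nil))) (.nd (nat_lit 5) 
(.lf (nat_lit 223764) (.g (nat_lit 2433) (.e (nat_lit 98333) (nat_lit 18) (.e (nat_lit 164399) (nat_lit 256) (.e (nat_lit 57375) (nat_lit 2) (.e (nat_lit 90174) (nat_lit 14) (.e (nat_lit 180243) (nat_lit 5) (.e (nat_lit 532511) (nat_lit 2) (.e (nat_lit 106526) (nat_lit 9) (.e (nat_lit 1254) (nat_lit 92) .nil)))))))) (.g (nat_lit 4) .nil .nil))) 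
(.lf (nat_lit 223796) (.g (nat_lit 2811) (.e (nat_lit 98333) (nat_lit 18) (.e (nat_lit 164400) (nat_lit 256) (.e (nat_lit 57375) (nat_lit 2) (.e (nat_lit 90172) (nat_lit 14) (.e (nat_lit 180244) (nat_lit 5) (.e (nat_lit 532515) (nat_lit 3) (.e (nat_lit 114717) (nat_lit 23) .nil))))))) (.g (nat_lit 4) .nil .nil))))) (.nd (nat_lit 4) (.nd (nat_lit 5) 
(.lf (nat_lit 223756) (.g (nat_lit 3662) (.e (nat_lit 98333) (nat_lit 18) (.e (nat_lit 164399) (nat_lit 256) (.e (nat_lit 57375) (nat_lit 2) (.e (nat_lit 90172) (nat_lit 14) (.e (nat_lit 180244) (nat_lit 5) (.e (nat_lit 532515) (nat_lit 3) (.e (nat_lit 114717) (nat_lit 23) .nil))))))) (.g (nat_lit 6) .nil .nil))) 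
(.lf (nat_lit 223788) (.g (nat_lit 2713) (.e (nat_lit 98333) (nat_lit 18) (.e (nat_lit 164399) (nat_lit 256) (.e (nat_lit 57379) (nat_lit 3) (.e (nat_lit 98367) (nat_lit 27) (.e (nat_lit 434231) (nat_lit 23) (.e (nat_lit 532507) (nat_lit 2) (.e (nat_lit 106504) (nat_lit 9) (.e (nat_lit 1251) (nat_lit 92) .nil)))))))) (.g (nat_lit 4) .nil .nil)))) (.nd (nat_lit 5) 
(.lf (nat_lit 223772) (.g (nat_lit 3536) (.e (nat_lit 98333) (nat_lit 18) (.e (nat_lit 164399) (nat_lit 256) (.e (nat_lit 57378) (nat_lit 3) (.e (nat_lit 98366) (nat_lit 27) (.e (nat_lit 434231) (nat_lit 23) (.e (nat_lit 532507) (nat_lit 2) (.e (nat_lit 106504) (nat_lit 9) (.e (nat_lit 1251) (nat_lit 92) .nil)))))))) (.g (nat_lit 5) .nil .nil))) 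
(.lf (nat_lit 223804) (.g (nat_lit 1619) (.e (nat_lit 98333) (nat_lit 18) (.e (nat_lit 164403) (nat_lit 256) (.e (nat_lit 57371) (nat_lit 2) (.e (nat_lit 90171) (nat_lit 14) .nil)))) .nil)))))) (.nd (nat_lit 2) (.nd (nat_lit 3) (.nd (nat_lit 4) (.nd (nat_lit 5) 
(.lf (nat_lit 223746) (.g (nat_lit 3040) (.e (nat_lit 98333) (nat_lit 18) (.e (nat_lit 164399) (nat_lit 256) (.e (nat_lit 57375) (nat_lit 2) (.e (nat_lit 90172) (nat_lit 14) (.e (nat_lit 180243) (nat_lit 5) (.e (nat_lit 532508) (nat_lit 2) (.e (nat_lit 106526) (nat_lit 9) (.e (nat_lit 1252) (nat_lit 92) .nil)))))))) (.g (nat_lit 4) .nil .nil))) 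
(.lf (nat_lit 223778) (.g (nat_lit 2497) (.e (nat_lit 98333) (nat_lit 18) (.e (nat_lit 164399) (nat_lit 256) (.e (nat_lit 57378) (nat_lit 3) (.e (nat_lit 98367) (nat_lit 27) (.e (nat_lit 434234) (nat_lit 23) .nil))))) .nil))) (.nd (nat_lit 5) 
(.lf (nat_lit 223762) (.g (nat_lit 2768) (.e (nat_lit 98333) (nat_lit 18) (.e (nat_lit 164399) (nat_lit 256) (.e (nat_lit 57375) (nat_lit 2) (.e (nat_lit 90174) (nat_lit 14) (.e (nat_lit 180243) (nat_lit 5) (.e (nat_lit 532508) (nat_lit 2) (.e (nat_lit 106526) (nat_lit 9) (.e (nat_lit 1247) (nat_lit 92) .nil)))))))) (.g (nat_lit 4) .nil .nil))) 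
(.lf (nat_lit 223794) (.g (nat_lit 2974) (.e (nat_lit 98333) (nat_lit 18) (.e (nat_lit 164400) (nat_lit 256) (.e (nat_lit 57372) (nat_lit 2) (.e (nat_lit 90174) (nat_lit 14) (.e (nat_lit 180243) (nat_lit 5) (.e (nat_lit 532515) (nat_lit 3) (.e (nat_lit 114719) (nat_lit 23) .nil))))))) (.g (nat_lit 4) .nil .nil))))) (.nd (nat_lit 4) (.nd (nat_lit 5) 
(.lf (nat_lit 223754) (.g (nat_lit 3408) (.e (nat_lit 98333) (nat_lit 18) (.e (nat_lit 164399) (nat_lit 256) (.e (nat_lit 57375) (nat_lit 2) (.e (nat_lit 90172) (nat_lit 14) (.e (nat_lit 180244) (nat_lit 5) (.e (nat_lit 532508) (nat_lit 2) (.e (nat_lit 106526) (nat_lit 9) (.e (nat_lit 1252) (nat_lit 92) .nil)))))))) (.g (nat_lit 5) .nil .nil))) 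
(.lf (nat_lit 223786) (.g (nat_lit 3807) (.e (nat_lit 98333) (nat_lit 18) (.e (nat_lit 164399) (nat_lit 256) (.e (nat_lit 57379) (nat_lit 3) (.e (nat_lit 98366) (nat_lit 27) (.e (nat_lit 434231) (nat_lit 23) (.e (nat_lit 532514) (nat_lit 3) (.e (nat_lit 114717) (nat_lit 23) .nil))))))) (.g (nat_lit 6) .nil .nil)))) (.nd (nat_lit 5) 
(.lf (nat_lit 223770) (.g (nat_lit 2982) (.e (nat_lit 98333) (nat_lit 18) (.e (nat_lit 164399) (nat_lit 256) (.e (nat_lit 57378) (nat_lit 3) (.e (nat_lit 98357) (nat_lit 26) (.e (nat_lit 426131) (nat_lit 3) (.e (nat_lit 204838) (nat_lit 20) (.e (nat_lit 114717) (nat_lit 23) .nil))))))) (.g (nat_lit 4) .nil .nil))) 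
(.lf (nat_lit 223802) (.g (nat_lit 1542) (.e (nat_lit 98333) (nat_lit 18) (.e (nat_lit 164403) (nat_lit 256) (.e (nat_lit 57371) (nat_lit 2) (.e (nat_lit 90166) (nat_lit 13) .nil)))) .nil))))) (.nd (nat_lit 3) (.nd (nat_lit 4) (.nd (nat_lit 5) 
(.lf (nat_lit 223750) (.g (nat_lit 2926) (.e (nat_lit 98333) (nat_lit 18) (.e (nat_lit 164399) (nat_lit 256) (.e (nat_lit 57375) (nat_lit 2) (.e (nat_lit 90172) (nat_lit 14) (.e (nat_lit 180244) (nat_lit 5) (.e (nat_lit 532508) (nat_lit 2) (.e (nat_lit 106517) (nat_lit 9) (.e (nat_lit 1252) (nat_lit 92) .nil)))))))) (.g (nat_lit 4) .nil .nil))) 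
(.lf (nat_lit 223782) (.g (nat_lit 1454) (.e (nat_lit 98333) (nat_lit 18) (.e (nat_lit 164399) (nat_lit 256) (.e (nat_lit 57379) (nat_lit 3) (.e (nat_lit 98354) (nat_lit 26) .nil)))) .nil))) (.nd (nat_lit 5) 
(.lf (nat_lit 223766) (.g (nat_lit 1720) (.e (nat_lit 98333) (nat_lit 18) (.e (nat_lit 164399) (nat_lit 256) (.e (nat_lit 57378) (nat_lit 3) (.e (nat_lit 98354) (nat_lit 26) .nil)))) .nil)) 
(.lf (nat_lit 223798) (.g (nat_lit 2563) (.e (nat_lit 98333) (nat_lit 18) (.e (nat_lit 164400) (nat_lit 256) (.e (nat_lit 57379) (nat_lit 3) (.e (nat_lit 98366) (nat_lit 27) (.e (nat_lit 434231) (nat_lit 23) (.e (nat_lit 532507) (nat_lit 2) (.e (nat_lit 106517) (nat_lit 9) (.e (nat_lit 1255) (nat_lit 92) .nil)))))))) (.g (nat_lit 4) .nil .nil))))) (.nd (nat_lit 4) (.nd (nat_lit 5) 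
(.lf (nat_lit 223758) (.g (nat_lit 2223) (.e (nat_lit 98333) (nat_lit 18) (.e (nat_lit 164399) (nat_lit 256) (.e (nat_lit 57375) (nat_lit 2) (.e (nat_lit 90174) (nat_lit 14) (.e (nat_lit 180243) (nat_lit 5) (.e (nat_lit 532508) (nat_lit 2) (.e (nat_lit 106512) (nat_lit 9) (.e (nat_lit 1251) (nat_lit 92) .nil)))))))) (.g (nat_lit 4) .nil .nil))) 
(.lf (nat_lit 223790) (.g (nat_lit 3204) (.e (nat_lit 98333) (nat_lit 18) (.e (nat_lit 164399) (nat_lit 256) (.e (nat_lit 57379) (nat_lit 3) (.e (nat_lit 98377) (nat_lit 30) (.e (nat_lit 458789) (nat_lit 23) (.e (nat_lit 532515) (nat_lit 3) (.e (nat_lit 114717) (nat_lit 23) .nil))))))) (.g (nat_lit 6) .nil .nil)))) (.nd (nat_lit 5) 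
(.lf (nat_lit 223774) (.g (nat_lit 3429) (.e (nat_lit 98333) (nat_lit 18) (.e (nat_lit 164399) (nat_lit 256) (.e (nat_lit 57378) (nat_lit 3) (.e (nat_lit 98366) (nat_lit 27) (.e (nat_lit 434231) (nat_lit 23) (.e (nat_lit 532507) (nat_lit 2) (.e (nat_lit 106517) (nat_lit 9) (.e (nat_lit 1255) (nat_lit 92) .nil)))))))) (.g (nat_lit 5) .nil .nil))) 
(.lf (nat_lit 223806) (.g (nat_lit 3479) (.e (nat_lit 98333) (nat_lit 18) (.e (nat_lit 164403) (nat_lit 256) (.e (nat_lit 57371) (nat_lit 2) (.e (nat_lit 90172) (nat_lit 14) (.e (nat_lit 180243) (nat_lit 5) (.e (nat_lit 532508) (nat_lit 2) (.e (nat_lit 106517) (nat_lit 9) (.e (nat_lit 1255) (nat_lit 92) .nil)))))))) (.g (nat_lit 4) .nil .nil)))))))) 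
(.nd (nat_lit 1) (.nd (nat_lit 2) (.nd (nat_lit 3) (.nd (nat_lit 4) (.nd (nat_lit 5) 
(.lf (nat_lit 223745) (.g (nat_lit 2803) (.e (nat_lit 98333) (nat_lit 18) (.e (nat_lit 164399) (nat_lit 256) (.e (nat_lit 57375) (nat_lit 2) (.e (nat_lit 90172) (nat_lit 14) (.e (nat_lit 180243) (nat_lit 5) (.e (nat_lit 532508) (nat_lit 2) (.e (nat_lit 106517) (nat_lit 9) (.e (nat_lit 1255) (nat_lit 92) .nil)))))))) (.g (nat_lit 4) .nil .nil))) 
(.lf (nat_lit 223777) (.g (nat_lit 3273) (.e (nat_lit 98333) (nat_lit 18) (.e (nat_lit 164399) (nat_lit 256) (.e (nat_lit 57378) (nat_lit 3) (.e (nat_lit 98367) (nat_lit 27) (.e (nat_lit 434231) (nat_lit 23) (.e (nat_lit 532507) (nat_lit 2) (.e (nat_lit 106517) (nat_lit 9) (.e (nat_lit 1255) (nat_lit 92) .nil)))))))) (.g (nat_lit 5) .nil .nil)))) (.nd (nat_lit 5) 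
(.lf (nat_lit 223761) (.g (nat_lit 2742) (.e (nat_lit 98333) (nat_lit 18) (.e (nat_lit 164399) (nat_lit 256) (.e (nat_lit 57375) (nat_lit 2) (.e (nat_lit 90174) (nat_lit 14) (.e (nat_lit 180243) (nat_lit 5) (.e (nat_lit 532508) (nat_lit 2) (.e (nat_lit 106526) (nat_lit 9) (.e (nat_lit 1246) (nat_lit 92) .nil)))))))) (.g (nat_lit 4) .nil .nil))) 
(.lf (nat_lit 223793) (.g (nat_lit 2929) (.e (nat_lit 98333) (nat_lit 18) (.e (nat_lit 164400) (nat_lit 256) (.e (nat_lit 57372) (nat_lit 2) (.e (nat_lit 90172) (nat_lit 14) (.e (nat_lit 180244) (nat_lit 5) (.e (nat_lit 532515) (nat_lit 3) (.e (nat_lit 114717) (nat_lit 23) .nil))))))) (.g (nat_lit 4) .nil .nil))))) (.nd (nat_lit 4) (.nd (nat_lit 5) 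
(.lf (nat_lit 223753) (.g (nat_lit 2641) (.e (nat_lit 98333) (nat_lit 18) (.e (nat_lit 164399) (nat_lit 256) (.e (nat_lit 57375) (nat_lit 2) (.e (nat_lit 90172) (nat_lit 14) (.e (nat_lit 180244) (nat_lit 5) (.e (nat_lit 532508) (nat_lit 2) (.e (nat_lit 106526) (nat_lit 9) (.e (nat_lit 1247) (nat_lit 92) .nil)))))))) (.g (nat_lit 4) .nil .nil))) 
(.lf (nat_lit 223785) (.g (nat_lit 2669) (.e (nat_lit 98333) (nat_lit 18) (.e (nat_lit 164399) (nat_lit 256) (.e (nat_lit 57379) (nat_lit 3) (.e (nat_lit 98366) (nat_lit 27) (.e (nat_lit 434231) (nat_lit 23) (.e (nat_lit 532507) (nat_lit 2) (.e (nat_lit 106523) (nat_lit 9) (.e (nat_lit 1254) (nat_lit 92) .nil)))))))) (.g (nat_lit 4) .nil .nil)))) (.nd (nat_lit 5) 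
(.lf (nat_lit 223769) (.g (nat_lit 1906) (.e (nat_lit 98333) (nat_lit 18) (.e (nat_lit 164399) (nat_lit 256) (.e (nat_lit 57378) (nat_lit 3) (.e (nat_lit 98357) (nat_lit 26) .nil)))) .nil)) 
(.lf (nat_lit 223801) (.g (nat_lit 2183) (.e (nat_lit 98333) (nat_lit 18) (.e (nat_lit 164403) (nat_lit 256) (.e (nat_lit 57370) (nat_lit 2) (.e (nat_lit 90172) (nat_lit 14) (.e (nat_lit 180243) (nat_lit 5) .nil))))) .nil))))) (.nd (nat_lit 3) (.nd (nat_lit 4) (.nd (nat_lit 5) 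
(.lf (nat_lit 223749) (.g (nat_lit 2312) (.e (nat_lit 98333) (nat_lit 18) (.e (nat_lit 164399) (nat_lit 256) (.e (nat_lit 57375) (nat_lit 2) (.e (nat_lit 90172) (nat_lit 14) (.e (nat_lit 180244) (nat_lit 5) (.e (nat_lit 532508) (nat_lit 2) (.e (nat_lit 106504) (nat_lit 9) (.e (nat_lit 1251) (nat_lit 92) .nil)))))))) (.g (nat_lit 4) .nil .nil))) 
(.lf (nat_lit 223781) (.g (nat_lit 4471) (.e (nat_lit 98333) (nat_lit 18) (.e (nat_lit 164399) (nat_lit 256) (.e (nat_lit 57378) (nat_lit 3) (.e (nat_lit 98377) (nat_lit 30) (.e (nat_lit 458789) (nat_lit 23) (.e (nat_lit 532484) (nat_lit 0) (.e (nat_lit 2198) (nat_lit 144) (.e (nat_lit 720945) (nat_lit 23) .nil)))))))) (.g (nat_lit 6) .nil .nil)))) (.nd (nat_lit 5) 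
(.lf (nat_lit 223765) (.g (nat_lit 2849) (.e (nat_lit 98333) (nat_lit 18) (.e (nat_lit 164399) (nat_lit 256) (.e (nat_lit 57375) (nat_lit 2) (.e (nat_lit 90174) (nat_lit 14) (.e (nat_lit 180243) (nat_lit 5) (.e (nat_lit 532515) (nat_lit 3) (.e (nat_lit 114717) (nat_lit 23) .nil))))))) (.g (nat_lit 5) .nil .nil))) 
(.lf (nat_lit 223797) (.g (nat_lit 2832) (.e (nat_lit 98333) (nat_lit 18) (.e (nat_lit 164400) (nat_lit 256) (.e (nat_lit 57375) (nat_lit 2) (.e (nat_lit 90174) (nat_lit 14) (.e (nat_lit 180243) (nat_lit 5) (.e (nat_lit 532508) (nat_lit 2) (.e (nat_lit 106517) (nat_lit 9) (.e (nat_lit 1255) (nat_lit 92) .nil)))))))) (.g (nat_lit 4) .nil .nil))))) (.nd (nat_lit 4) (.nd (nat_lit 5) 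
(.lf (nat_lit 223757) (.g (nat_lit 2523) (.e (nat_lit 98333) (nat_lit 18) (.e (nat_lit 164399) (nat_lit 256) (.e (nat_lit 57375) (nat_lit 2) (.e (nat_lit 90174) (nat_lit 14) (.e (nat_lit 180243) (nat_lit 5) (.e (nat_lit 532508) (nat_lit 2) (.e (nat_lit 106504) (nat_lit 9) (.e (nat_lit 1251) (nat_lit 92) .nil)))))))) (.g (nat_lit 4) .nil .nil))) 
(.lf (nat_lit 223789) (.g (nat_lit 3442) (.e (nat_lit 98333) (nat_lit 18) (.e (nat_lit 164399) (nat_lit 256) (.e (nat_lit 57379) (nat_lit 3) (.e (nat_lit 98367) (nat_lit 27) (.e (nat_lit 434231) (nat_lit 23) (.e (nat_lit 532514) (nat_lit 3) (.e (nat_lit 114717) (nat_lit 23) .nil))))))) (.g (nat_lit 5) .nil .nil)))) (.nd (nat_lit 5) 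
(.lf (nat_lit 223773) (.g (nat_lit 3226) (.e (nat_lit 98333) (nat_lit 18) (.e (nat_lit 164399) (nat_lit 256) (.e (nat_lit 57378) (nat_lit 3) (.e (nat_lit 98366) (nat_lit 27) (.e (nat_lit 434231) (nat_lit 23) (.e (nat_lit 532507) (nat_lit 2) (.e (nat_lit 106517) (nat_lit 9) (.e (nat_lit 1252) (nat_lit 92) .nil)))))))) (.g (nat_lit 4) .nil .nil))) 
(.lf (nat_lit 223805) (.g (nat_lit 2595) (.e (nat_lit 98333) (nat_lit 18) (.e (nat_lit 164403) (nat_lit 256) (.e (nat_lit 57371) (nat_lit 2) (.e (nat_lit 90172) (nat_lit 14) (.e (nat_lit 180243) (nat_lit 5) .nil))))) .nil)))))) (.nd (nat_lit 2) (.nd (nat_lit 3) (.nd (nat_lit 4) (.nd (nat_lit 5) 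
(.lf (nat_lit 223747) (.g (nat_lit 2845) (.e (nat_lit 98333) (nat_lit 18) (.e (nat_lit 164399) (nat_lit 256) (.e (nat_lit 57375) (nat_lit 2) (.e (nat_lit 90172) (nat_lit 14) (.e (nat_lit 180243) (nat_lit 5) (.e (nat_lit 532508) (nat_lit 2) (.e (nat_lit 106526) (nat_lit 9) (.e (nat_lit 1254) (nat_lit 92) .nil)))))))) (.g (nat_lit 4) .nil .nil))) 
(.lf (nat_lit 223779) (.g (nat_lit 4102) (.e (nat_lit 98333) (nat_lit 18) (.e (nat_lit 164399) (nat_lit 256) (.e (nat_lit 57378) (nat_lit 3) (.e (nat_lit 98376) (nat_lit 30) (.e (nat_lit 458789) (nat_lit 23) (.e (nat_lit 532484) (nat_lit 0) (.e (nat_lit 2198) (nat_lit 144) (.e (nat_lit 720945) (nat_lit 23) .nil)))))))) (.g (nat_lit 6) .nil .nil)))) (.nd (nat_lit 5) 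
(.lf (nat_lit 223763) (.g (nat_lit 2306) (.e (nat_lit 98333) (nat_lit 18) (.e (nat_lit 164399) (nat_lit 256) (.e (nat_lit 57375) (nat_lit 2) (.e (nat_lit 90174) (nat_lit 14) (.e (nat_lit 180243) (nat_lit 5) (.e (nat_lit 532511) (nat_lit 2) (.e (nat_lit 106523) (nat_lit 9) (.e (nat_lit 1254) (nat_lit 92) .nil)))))))) (.g (nat_lit 4) .nil .nil))) 
(.lf (nat_lit 223795) (.g (nat_lit 2597) (.e (nat_lit 98333) (nat_lit 18) (.e (nat_lit 164400) (nat_lit 256) (.e (nat_lit 57375) (nat_lit 2) (.e (nat_lit 90172) (nat_lit 14) (.e (nat_lit 180244) (nat_lit 5) (.e (nat_lit 532508) (nat_lit 2) (.e (nat_lit 106517) (nat_lit 9) (.e (nat_lit 1255) (nat_lit 92) .nil)))))))) (.g (nat_lit 4) .nil .nil))))) (.nd (nat_lit 4) (.nd (nat_lit 5) 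
(.lf (nat_lit 223755) (.g (nat_lit 3213) (.e (nat_lit 98333) (nat_lit 18) (.e (nat_lit 164399) (nat_lit 256) (.e (nat_lit 57375) (nat_lit 2) (.e (nat_lit 90172) (nat_lit 14) (.e (nat_lit 180244) (nat_lit 5) (.e (nat_lit 532508) (nat_lit 2) (.e (nat_lit 106526) (nat_lit 9) (.e (nat_lit 1254) (nat_lit 92) .nil)))))))) (.g (nat_lit 5) .nil .nil))) 
(.lf (nat_lit 223787) (.g (nat_lit 4699) (.e (nat_lit 98333) (nat_lit 18) (.e (nat_lit 164399) (nat_lit 256) (.e (nat_lit 57379) (nat_lit 3) (.e (nat_lit 98367) (nat_lit 27) (.e (nat_lit 434231) (nat_lit 23) (.e (nat_lit 532483) (nat_lit 0) (.e (nat_lit 2198) (nat_lit 144) (.e (nat_lit 720945) (nat_lit 23) .nil)))))))) (.g (nat_lit 5) .nil .nil)))) (.nd (nat_lit 5) 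
(.lf (nat_lit 223771) (.g (nat_lit 5040) (.e (nat_lit 98333) (nat_lit 18) (.e (nat_lit 164399) (nat_lit 256) (.e (nat_lit 57378) (nat_lit 3) (.e (nat_lit 98366) (nat_lit 27) (.e (nat_lit 434231) (nat_lit 23) (.e (nat_lit 532483) (nat_lit 0) (.e (nat_lit 2198) (nat_lit 144) (.e (nat_lit 720945) (nat_lit 23) .nil)))))))) (.g (nat_lit 5) .nil .nil))) 
(.lf (nat_lit 223803) (.g (nat_lit 3198) (.e (nat_lit 98333) (nat_lit 18) (.e (nat_lit 164403) (nat_lit 256) (.e (nat_lit 57371) (nat_lit 2) (.e (nat_lit 90167) (nat_lit 13) (.e (nat_lit 172067) (nat_lit 3) (.e (nat_lit 204837) (nat_lit 20) (.e (nat_lit 114717) (nat_lit 23) .nil))))))) (.g (nat_lit 4) .nil .nil)))))) (.nd (nat_lit 3) (.nd (nat_lit 4) (.nd (nat_lit 5) 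
(.lf (nat_lit 223751) (.g (nat_lit 3260) (.e (nat_lit 98333) (nat_lit 18) (.e (nat_lit 164399) (nat_lit 256) (.e (nat_lit 57375) (nat_lit 2) (.e (nat_lit 90172) (nat_lit 14) (.e (nat_lit 180244) (nat_lit 5) (.e (nat_lit 532508) (nat_lit 2) (.e (nat_lit 106517) (nat_lit 9) (.e (nat_lit 1255) (nat_lit 92) .nil)))))))) (.g (nat_lit 5) .nil .nil))) 
(.lf (nat_lit 223783) (.g (nat_lit 4943) (.e (nat_lit 98333) (nat_lit 18) (.e (nat_lit 164399) (nat_lit 256) (.e (nat_lit 57379) (nat_lit 3) (.e (nat_lit 98366) (nat_lit 27) (.e (nat_lit 434231) (nat_lit 23) (.e (nat_lit 532483) (nat_lit 0) (.e (nat_lit 2198) (nat_lit 144) (.e (nat_lit 720945) (nat_lit 23) .nil)))))))) (.g (nat_lit 5) .nil .nil)))) (.nd (nat_lit 5) 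
(.lf (nat_lit 223767) (.g (nat_lit 3485) (.e (nat_lit 98333) (nat_lit 18) (.e (nat_lit 164399) (nat_lit 256) (.e (nat_lit 57378) (nat_lit 3) (.e (nat_lit 98355) (nat_lit 26) (.e (nat_lit 426131) (nat_lit 3) (.e (nat_lit 204838) (nat_lit 20) (.e (nat_lit 114717) (nat_lit 23) .nil))))))) (.g (nat_lit 5) .nil .nil))) 
(.lf (nat_lit 223799) (.g (nat_lit 2629) (.e (nat_lit 98333) (nat_lit 18) (.e (nat_lit 164403) (nat_lit 256) (.e (nat_lit 57370) (nat_lit 2) (.e (nat_lit 90170) (nat_lit 13) (.e (nat_lit 172065) (nat_lit 3) .nil))))) .nil)))) (.nd (nat_lit 4) (.nd (nat_lit 5) 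
(.lf (nat_lit 223759) (.g (nat_lit 2932) (.e (nat_lit 98333) (nat_lit 18) (.e (nat_lit 164399) (nat_lit 256) (.e (nat_lit 57375) (nat_lit 2) (.e (nat_lit 90174) (nat_lit 14) (.e (nat_lit 180243) (nat_lit 5) (.e (nat_lit 532508) (nat_lit 2) (.e (nat_lit 106517) (nat_lit 9) (.e (nat_lit 1252) (nat_lit 92) .nil)))))))) (.g (nat_lit 5) .nil .nil))) 
(.lf (nat_lit 223791) (.g (nat_lit 3025) (.e (nat_lit 98333) (nat_lit 18) (.e (nat_lit 164399) (nat_lit 256) (.e (nat_lit 57588) (nat_lit 73) (.e (nat_lit 426139) (nat_lit 3) (.e (nat_lit 204854) (nat_lit 26) (.e (nat_lit 336000) (nat_lit 1) (.e (nat_lit 57849) (nat_lit 252) (.e (nat_lit 57377) (nat_lit 3) .nil)))))))) (.g (nat_lit 4) .nil .nil)))) (.nd (nat_lit 5) 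
(.lf (nat_lit 223775) (.g (nat_lit 5366) (.e (nat_lit 98333) (nat_lit 18) (.e (nat_lit 164399) (nat_lit 256) (.e (nat_lit 57378) (nat_lit 3) (.e (nat_lit 98367) (nat_lit 27) (.e (nat_lit 434231) (nat_lit 23) (.e (nat_lit 532483) (nat_lit 0) (.e (nat_lit 2198) (nat_lit 144) (.e (nat_lit 720945) (nat_lit 23) .nil)))))))) (.g (nat_lit 5) .nil .nil))) 
(.lf (nat_lit 223807) (.g (nat_lit 3248) (.e (nat_lit 98333) (nat_lit 18) (.e (nat_lit 164403) (nat_lit 256) (.e (nat_lit 57371) (nat_lit 2) (.e (nat_lit 90172) (nat_lit 14) (.e (nat_lit 180243) (nat_lit 5) (.e (nat_lit 532508) (nat_lit 2) (.e (nat_lit 106526) (nat_lit 9) (.e (nat_lit 1252) (nat_lit 92) .nil)))))))) (.g (nat_lit 4) .nil .nil)))))))))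

noncomputable def tv2935 : DT := (.nd (nat_lit 0) (.nd (nat_lit 1) (.nd (nat_lit 2) (.nd (nat_lit 3) (.nd (nat_lit 4) (.nd (nat_lit 5) 
(.lf (nat_lit 223808) (.g (nat_lit 3578) (.e (nat_lit 98333) (nat_lit 18) (.e (nat_lit 164403) (nat_lit 256) (.e (nat_lit 57371) (nat_lit 2) (.e (nat_lit 90172) (nat_lit 14) (.e (nat_lit 180243) (nat_lit 5) (.e (nat_lit 532513) (nat_lit 3) (.e (nat_lit 114717) (nat_lit 23) .nil))))))) (.g (nat_lit 4) .nil .nil))) 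
(.lf (nat_lit 223840) (.g (nat_lit 4962) (.e (nat_lit 98333) (nat_lit 18) (.e (nat_lit 164403) (nat_lit 256) (.e (nat_lit 57373) (nat_lit 2) (.e (nat_lit 90174) (nat_lit 14) (.e (nat_lit 180243) (nat_lit 5) (.e (nat_lit 532513) (nat_lit 3) (.e (nat_lit 114717) (nat_lit 23) .nil))))))) (.g (nat_lit 6) .nil .nil)))) (.nd (nat_lit 5) 
(.lf (nat_lit 223824) (.g (nat_lit 3733) (.e (nat_lit 98333) (nat_lit 18) (.e (nat_lit 164403) (nat_lit 256) (.e (nat_lit 57373) (nat_lit 2) (.e (nat_lit 90172) (nat_lit 14) (.e (nat_lit 180243) (nat_lit 5) (.e (nat_lit 532508) (nat_lit 2) (.e (nat_lit 106517) (nat_lit 9) (.e (nat_lit 1255) (nat_lit 92) .nil)))))))) (.g (nat_lit 4) .nil .nil))) 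
(.lf (nat_lit 223856) (.g (nat_lit 1129) (.e (nat_lit 98334) (nat_lit 18) (.e (nat_lit 164147) (nat_lit 152) (.e (nat_lit 1211) (nat_lit 89) (.e (nat_lit 73775) (nat_lit 26) (.e (nat_lit 786176) (nat_lit 6) .nil))))) .nil)))) (.nd (nat_lit 4) (.nd (nat_lit 5) 
(.lf (nat_lit 223816) (.g (nat_lit 4041) (.e (nat_lit 98333) (nat_lit 18) (.e (nat_lit 164403) (nat_lit 256) (.e (nat_lit 57371) (nat_lit 2) (.e (nat_lit 90174) (nat_lit 14) (.e (nat_lit 180243) (nat_lit 5) (.e (nat_lit 532513) (nat_lit 3) (.e (nat_lit 114717) (nat_lit 23) .nil))))))) (.g (nat_lit 5) .nil .nil))) 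
(.lf (nat_lit 223848) (.g (nat_lit 2456) (.e (nat_lit 98333) (nat_lit 18) (.e (nat_lit 164403) (nat_lit 256) (.e (nat_lit 57378) (nat_lit 3) (.e (nat_lit 98356) (nat_lit 26) (.e (nat_lit 426131) (nat_lit 3) .nil))))) .nil))) (.nd (nat_lit 5) 
(.lf (nat_lit 223832) (.g (nat_lit 4831) (.e (nat_lit 98333) (nat_lit 18) (.e (nat_lit 164403) (nat_lit 256) (.e (nat_lit 57373) (nat_lit 2) (.e (nat_lit 90172) (nat_lit 14) (.e (nat_lit 180244) (nat_lit 5) (.e (nat_lit 532515) (nat_lit 3) (.e (nat_lit 114717) (nat_lit 23) .nil))))))) (.g (nat_lit 6) .nil .nil))) 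
(.lf (nat_lit 223864) (.g (nat_lit 935) (.e (nat_lit 98334) (nat_lit 18) (.e (nat_lit 164176) (nat_lit 154) (.e (nat_lit 57445) (nat_lit 19) (.e (nat_lit 393227) (nat_lit 9) .nil)))) .nil))))) (.nd (nat_lit 3) (.nd (nat_lit 4) (.nd (nat_lit 5) 
(.lf (nat_lit 223812) (.g (nat_lit 2174) (.e (nat_lit 98333) (nat_lit 18) (.e (nat_lit 164403) (nat_lit 256) (.e (nat_lit 57371) (nat_lit 2) (.e (nat_lit 90174) (nat_lit 14) (.e (nat_lit 180243) (nat_lit 5) .nil))))) .nil)) 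
(.lf (nat_lit 223844) (.g (nat_lit 3446) (.e (nat_lit 98333) (nat_lit 18) (.e (nat_lit 164403) (nat_lit 256) (.e (nat_lit 57373) (nat_lit 2) (.e (nat_lit 90174) (nat_lit 14) (.e (nat_lit 180245) (nat_lit 5) (.e (nat_lit 532515) (nat_lit 3) (.e (nat_lit 114719) (nat_lit 23) .nil))))))) (.g (nat_lit 4) .nil .nil)))) (.nd (nat_lit 5) 
(.lf (nat_lit 223828) (.g (nat_lit 3912) (.e (nat_lit 98333) (nat_lit 18) (.e (nat_lit 164403) (nat_lit 256) (.e (nat_lit 57373) (nat_lit 2) (.e (nat_lit 90172) (nat_lit 14) (.e (nat_lit 180243) (nat_lit 5) (.e (nat_lit 532515) (nat_lit 3) (.e (nat_lit 114718) (nat_lit 23) .nil))))))) (.g (nat_lit 4) .nil .nil))) 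
(.lf (nat_lit 223860) (.g (nat_lit 1023) (.e (nat_lit 98334) (nat_lit 18) (.e (nat_lit 164161) (nat_lit 152) (.e (nat_lit 1068) (nat_lit 81) (.e (nat_lit 1661) (nat_lit 115) (.e (nat_lit 401152) (nat_lit 14) .nil))))) .nil)))) (.nd (nat_lit 4) (.nd (nat_lit 5) 
(.lf (nat_lit 223820) (.g (nat_lit 3603) (.e (nat_lit 98333) (nat_lit 18) (.e (nat_lit 164403) (nat_lit 256) (.e (nat_lit 57373) (nat_lit 2) (.e (nat_lit 90170) (nat_lit 13) (.e (nat_lit 172065) (nat_lit 3) (.e (nat_lit 204837) (nat_lit 20) (.e (nat_lit 114717) (nat_lit 23) .nil))))))) (.g (nat_lit 4) .nil .nil))) 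
(.lf (nat_lit 223852) (.g (nat_lit 3342) (.e (nat_lit 98333) (nat_lit 18) (.e (nat_lit 164403) (nat_lit 256) (.e (nat_lit 57378) (nat_lit 3) (.e (nat_lit 98367) (nat_lit 27) (.e (nat_lit 434231) (nat_lit 23) (.e (nat_lit 532483) (nat_lit 0) (.e (nat_lit 2198) (nat_lit 144) (.e (nat_lit 720945) (nat_lit 23) .nil)))))))) (.g (nat_lit 4) .nil .nil)))) (.nd (nat_lit 5) 
(.lf (nat_lit 223836) (.g (nat_lit 3376) (.e (nat_lit 98333) (nat_lit 18) (.e (nat_lit 164403) (nat_lit 256) (.e (nat_lit 57373) (nat_lit 2) (.e (nat_lit 90174) (nat_lit 14) (.e (nat_lit 180243) (nat_lit 5) (.e (nat_lit 532508) (nat_lit 2) (.e (nat_lit 106520) (nat_lit 9) (.e (nat_lit 1254) (nat_lit 92) .nil)))))))) (.g (nat_lit 4) .nil .nil))) 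
(.lf (nat_lit 223868) (.g (nat_lit 1994) (.e (nat_lit 98334) (nat_lit 18) (.e (nat_lit 164180) (nat_lit 154) (.e (nat_lit 57411) (nat_lit 12) (.e (nat_lit 336454) (nat_lit 34) (.e (nat_lit 483384) (nat_lit 23) .nil))))) .nil)))))) (.nd (nat_lit 2) (.nd (nat_lit 3) (.nd (nat_lit 4) (.nd (nat_lit 5) 
(.lf (nat_lit 223810) (.g (nat_lit 3375) (.e (nat_lit 98333) (nat_lit 18) (.e (nat_lit 164403) (nat_lit 256) (.e (nat_lit 57371) (nat_lit 2) (.e (nat_lit 90172) (nat_lit 14) (.e (nat_lit 180244) (nat_lit 5) (.e (nat_lit 532508) (nat_lit 2) (.e (nat_lit 106517) (nat_lit 9) (.e (nat_lit 1255) (nat_lit 92) .nil)))))))) (.g (nat_lit 4) .nil .nil))) 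
(.lf (nat_lit 223842) (.g (nat_lit 4725) (.e (nat_lit 98333) (nat_lit 18) (.e (nat_lit 164403) (nat_lit 256) (.e (nat_lit 57373) (nat_lit 2) (.e (nat_lit 90174) (nat_lit 14) (.e (nat_lit 180243) (nat_lit 5) (.e (nat_lit 532515) (nat_lit 3) (.e (nat_lit 114717) (nat_lit 23) .nil))))))) (.g (nat_lit 6) .nil .nil)))) (.nd (nat_lit 5) 
(.lf (nat_lit 223826) (.g (nat_lit 3945) (.e (nat_lit 98333) (nat_lit 18) (.e (nat_lit 164403) (nat_lit 256) (.e (nat_lit 57373) (nat_lit 2) (.e (nat_lit 90172) (nat_lit 14) (.e (nat_lit 180243) (nat_lit 5) (.e (nat_lit 532513) (nat_lit 3) (.e (nat_lit 114717) (nat_lit 23) .nil))))))) (.g (nat_lit 4) .nil .nil))) 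
(.lf (nat_lit 223858) (.g (nat_lit 1329) (.e (nat_lit 98334) (nat_lit 18) (.e (nat_lit 164159) (nat_lit 152) (.e (nat_lit 1296) (nat_lit 96) (.e (nat_lit 131073) (nat_lit 0) .nil)))) .nil)))) (.nd (nat_lit 4) (.nd (nat_lit 5) 
(.lf (nat_lit 223818) (.g (nat_lit 2658) (.e (nat_lit 98333) (nat_lit 18) (.e (nat_lit 164403) (nat_lit 256) (.e (nat_lit 57371) (nat_lit 2) (.e (nat_lit 90174) (nat_lit 14) (.e (nat_lit 180245) (nat_lit 5) .nil))))) .nil)) 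
(.lf (nat_lit 223850) (.g (nat_lit 2173) (.e (nat_lit 98333) (nat_lit 18) (.e (nat_lit 164403) (nat_lit 256) (.e (nat_lit 57378) (nat_lit 3) (.e (nat_lit 98357) (nat_lit 26) .nil)))) .nil))) (.nd (nat_lit 5) 
(.lf (nat_lit 223834) (.g (nat_lit 2525) (.e (nat_lit 98333) (nat_lit 18) (.e (nat_lit 164403) (nat_lit 256) (.e (nat_lit 57373) (nat_lit 2) (.e (nat_lit 90174) (nat_lit 14) (.e (nat_lit 180243) (nat_lit 5) .nil))))) .nil)) 
(.lf (nat_lit 223866) (.g (nat_lit 1722) (.e (nat_lit 98334) (nat_lit 18) (.e (nat_lit 164180) (nat_lit 154) (.e (nat_lit 57409) (nat_lit 12) (.e (nat_lit 336414) (nat_lit 27) (.e (nat_lit 426541) (nat_lit 29) .nil))))) .nil))))) (.nd (nat_lit 3) (.nd (nat_lit 4) (.nd (nat_lit 5) 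
(.lf (nat_lit 223814) (.g (nat_lit 4262) (.e (nat_lit 98333) (nat_lit 18) (.e (nat_lit 164403) (nat_lit 256) (.e (nat_lit 57371) (nat_lit 2) (.e (nat_lit 90174) (nat_lit 14) (.e (nat_lit 180243) (nat_lit 5) (.e (nat_lit 532508) (nat_lit 2) (.e (nat_lit 106517) (nat_lit 9) (.e (nat_lit 1255) (nat_lit 92) .nil)))))))) (.g (nat_lit 5) .nil .nil))) 
(.lf (nat_lit 223846) (.g (nat_lit 2813) (.e (nat_lit 98333) (nat_lit 18) (.e (nat_lit 164403) (nat_lit 256) (.e (nat_lit 57373) (nat_lit 2) (.e (nat_lit 90185) (nat_lit 17) (.e (nat_lit 237594) (nat_lit 3) .nil))))) .nil))) (.nd (nat_lit 5) 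
(.lf (nat_lit 223830) (.g (nat_lit 3777) (.e (nat_lit 98333) (nat_lit 18) (.e (nat_lit 164403) (nat_lit 256) (.e (nat_lit 57373) (nat_lit 2) (.e (nat_lit 90172) (nat_lit 14) (.e (nat_lit 180244) (nat_lit 5) (.e (nat_lit 532508) (nat_lit 2) (.e (nat_lit 106526) (nat_lit 9) (.e (nat_lit 1254) (nat_lit 92) .nil)))))))) (.g (nat_lit 4) .nil .nil))) 
(.lf (nat_lit 223862) (.g (nat_lit 1810) (.e (nat_lit 98334) (nat_lit 18) (.e (nat_lit 164176) (nat_lit 154) (.e (nat_lit 57406) (nat_lit 12) (.e (nat_lit 336456) (nat_lit 34) (.e (nat_lit 483391) (nat_lit 23) .nil))))) .nil)))) (.nd (nat_lit 4) (.nd (nat_lit 5) 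
(.lf (nat_lit 223822) (.g (nat_lit 1763) (.e (nat_lit 98333) (nat_lit 18) (.e (nat_lit 164403) (nat_lit 256) (.e (nat_lit 57373) (nat_lit 2) (.e (nat_lit 90172) (nat_lit 14) .nil)))) .nil)) 
(.lf (nat_lit 223854) (.g (nat_lit 3148) (.e (nat_lit 98333) (nat_lit 18) (.e (nat_lit 164403) (nat_lit 256) (.e (nat_lit 57378) (nat_lit 3) (.e (nat_lit 98377) (nat_lit 30) (.e (nat_lit 458789) (nat_lit 23) (.e (nat_lit 532515) (nat_lit 3) (.e (nat_lit 114717) (nat_lit 23) .nil))))))) (.g (nat_lit 4) .nil .nil)))) (.nd (nat_lit 5) 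
(.lf (nat_lit 223838) (.g (nat_lit 3553) (.e (nat_lit 98333) (nat_lit 18) (.e (nat_lit 164403) (nat_lit 256) (.e (nat_lit 57373) (nat_lit 2) (.e (nat_lit 90174) (nat_lit 14) (.e (nat_lit 180243) (nat_lit 5) (.e (nat_lit 532511) (nat_lit 2) (.e (nat_lit 106523) (nat_lit 9) (.e (nat_lit 1254) (nat_lit 92) .nil)))))))) (.g (nat_lit 4) .nil .nil))) 
(.lf (nat_lit 223870) (.g (nat_lit 894) (.e (nat_lit 98334) (nat_lit 18) (.e (nat_lit 164181) (nat_lit 154) (.e (nat_lit 57448) (nat_lit 19) (.e (nat_lit 393227) (nat_lit 9) .nil)))) .nil))))))) (.nd (nat_lit 1) (.nd (nat_lit 2) (.nd (nat_lit 3) (.nd (nat_lit 4) (.nd (nat_lit 5) 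
(.lf (nat_lit 223809) (.g (nat_lit 3086) (.e (nat_lit 98333) (nat_lit 18) (.e (nat_lit 164403) (nat_lit 256) (.e (nat_lit 57371) (nat_lit 2) (.e (nat_lit 90172) (nat_lit 14) (.e (nat_lit 180243) (nat_lit 5) (.e (nat_lit 532515) (nat_lit 3) (.e (nat_lit 114717) (nat_lit 23) .nil))))))) (.g (nat_lit 4) .nil .nil))) 
(.lf (nat_lit 223841) (.g (nat_lit 5976) (.e (nat_lit 98333) (nat_lit 18) (.e (nat_lit 164403) (nat_lit 256) (.e (nat_lit 57373) (nat_lit 2) (.e (nat_lit 90174) (nat_lit 14) (.e (nat_lit 180243) (nat_lit 5) (.e (nat_lit 532513) (nat_lit 3) (.e (nat_lit 114718) (nat_lit 23) .nil))))))) (.g (nat_lit 0) .nil .nil)))) (.nd (nat_lit 5) 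
(.lf (nat_lit 223825) (.g (nat_lit 3615) (.e (nat_lit 98333) (nat_lit 18) (.e (nat_lit 164403) (nat_lit 256) (.e (nat_lit 57373) (nat_lit 2) (.e (nat_lit 90172) (nat_lit 14) (.e (nat_lit 180243) (nat_lit 5) (.e (nat_lit 532508) (nat_lit 2) (.e (nat_lit 106526) (nat_lit 9) (.e (nat_lit 1252) (nat_lit 92) .nil)))))))) (.g (nat_lit 4) .nil .nil))) 
(.lf (nat_lit 223857) (.g (nat_lit 1127) (.e (nat_lit 98334) (nat_lit 18) (.e (nat_lit 164159) (nat_lit 152) (.e (nat_lit 1201) (nat_lit 88) (.e (nat_lit 65543) (nat_lit 0) .nil)))) .nil)))) (.nd (nat_lit 4) (.nd (nat_lit 5) 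
(.lf (nat_lit 223817) (.g (nat_lit 3822) (.e (nat_lit 98333) (nat_lit 18) (.e (nat_lit 164403) (nat_lit 256) (.e (nat_lit 57371) (nat_lit 2) (.e (nat_lit 90174) (nat_lit 14) (.e (nat_lit 180243) (nat_lit 5) (.e (nat_lit 532515) (nat_lit 3) (.e (nat_lit 114717) (nat_lit 23) .nil))))))) (.g (nat_lit 5) .nil .nil))) 
(.lf (nat_lit 223849) (.g (nat_lit 3432) (.e (nat_lit 98333) (nat_lit 18) (.e (nat_lit 164403) (nat_lit 256) (.e (nat_lit 57378) (nat_lit 3) (.e (nat_lit 98356) (nat_lit 26) (.e (nat_lit 426131) (nat_lit 3) (.e (nat_lit 204838) (nat_lit 20) (.e (nat_lit 114717) (nat_lit 23) .nil))))))) (.g (nat_lit 4) .nil .nil)))) (.nd (nat_lit 5) 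
(.lf (nat_lit 223833) (.g (nat_lit 2012) (.e (nat_lit 98333) (nat_lit 18) (.e (nat_lit 164403) (nat_lit 256) (.e (nat_lit 57373) (nat_lit 2) (.e (nat_lit 90173) (nat_lit 14) .nil)))) .nil)) 
(.lf (nat_lit 223865) (.g (nat_lit 2780) (.e (nat_lit 98334) (nat_lit 18) (.e (nat_lit 164180) (nat_lit 154) (.e (nat_lit 57409) (nat_lit 12) (.e (nat_lit 336367) (nat_lit 27) (.e (nat_lit 426542) (nat_lit 29) (.e (nat_lit 352313) (nat_lit 23) .nil)))))) (.g (nat_lit 0) .nil .nil)))))) (.nd (nat_lit 3) (.nd (nat_lit 4) (.nd (nat_lit 5) 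
(.lf (nat_lit 223813) (.g (nat_lit 3306) (.e (nat_lit 98333) (nat_lit 18) (.e (nat_lit 164403) (nat_lit 256) (.e (nat_lit 57371) (nat_lit 2) (.e (nat_lit 90174) (nat_lit 14) (.e (nat_lit 180243) (nat_lit 5) (.e (nat_lit 532508) (nat_lit 2) (.e (nat_lit 106517) (nat_lit 9) (.e (nat_lit 1252) (nat_lit 92) .nil)))))))) (.g (nat_lit 4) .nil .nil))) 
(.lf (nat_lit 223845) (.g (nat_lit 2545) (.e (nat_lit 98333) (nat_lit 18) (.e (nat_lit 164403) (nat_lit 256) (.e (nat_lit 57373) (nat_lit 2) (.e (nat_lit 90185) (nat_lit 17) (.e (nat_lit 237592) (nat_lit 3) .nil))))) .nil))) (.nd (nat_lit 5) 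
(.lf (nat_lit 223829) (.g (nat_lit 2600) (.e (nat_lit 98333) (nat_lit 18) (.e (nat_lit 164403) (nat_lit 256) (.e (nat_lit 57373) (nat_lit 2) (.e (nat_lit 90172) (nat_lit 14) (.e (nat_lit 180244) (nat_lit 5) .nil))))) .nil)) 
(.lf (nat_lit 223861) (.g (nat_lit 898) (.e (nat_lit 98334) (nat_lit 18) (.e (nat_lit 164166) (nat_lit 152) (.e (nat_lit 1086) (nat_lit 81) (.e (nat_lit 1661) (nat_lit 115) (.e (nat_lit 401152) (nat_lit 11) .nil))))) .nil)))) (.nd (nat_lit 4) (.nd (nat_lit 5) 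
(.lf (nat_lit 223821) (.g (nat_lit 4446) (.e (nat_lit 98333) (nat_lit 18) (.e (nat_lit 164403) (nat_lit 256) (.e (nat_lit 57373) (nat_lit 2) (.e (nat_lit 90170) (nat_lit 13) (.e (nat_lit 172067) (nat_lit 3) (.e (nat_lit 204837) (nat_lit 20) (.e (nat_lit 114717) (nat_lit 23) .nil))))))) (.g (nat_lit 5) .nil .nil))) 
(.lf (nat_lit 223853) (.g (nat_lit 3305) (.e (nat_lit 98333) (nat_lit 18) (.e (nat_lit 164403) (nat_lit 256) (.e (nat_lit 57378) (nat_lit 3) (.e (nat_lit 98367) (nat_lit 27) (.e (nat_lit 434231) (nat_lit 23) (.e (nat_lit 532507) (nat_lit 2) (.e (nat_lit 106517) (nat_lit 9) (.e (nat_lit 1255) (nat_lit 92) .nil)))))))) (.g (nat_lit 4) .nil .nil)))) (.nd (nat_lit 5) 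
(.lf (nat_lit 223837) (.g (nat_lit 3772) (.e (nat_lit 98333) (nat_lit 18) (.e (nat_lit 164403) (nat_lit 256) (.e (nat_lit 57373) (nat_lit 2) (.e (nat_lit 90174) (nat_lit 14) (.e (nat_lit 180243) (nat_lit 5) (.e (nat_lit 532508) (nat_lit 2) (.e (nat_lit 106523) (nat_lit 9) (.e (nat_lit 1254) (nat_lit 92) .nil)))))))) (.g (nat_lit 4) .nil .nil))) 
(.lf (nat_lit 223869) (.g (nat_lit 99) (.e (nat_lit 98334) (nat_lit 18) (.e (nat_lit 164180) (nat_lit 154) (.e (nat_lit 57447) (nat_lit 19) .nil))) .nil)))))) (.nd (nat_lit 2) (.nd (nat_lit 3) (.nd (nat_lit 4) (.nd (nat_lit 5) 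
(.lf (nat_lit 223811) (.g (nat_lit 3779) (.e (nat_lit 98333) (nat_lit 18) (.e (nat_lit 164403) (nat_lit 256) (.e (nat_lit 57371) (nat_lit 2) (.e (nat_lit 90172) (nat_lit 14) (.e (nat_lit 180244) (nat_lit 5) (.e (nat_lit 532515) (nat_lit 3) (.e (nat_lit 114717) (nat_lit 23) .nil))))))) (.g (nat_lit 5) .nil .nil))) 
(.lf (nat_lit 223843) (.g (nat_lit 3195) (.e (nat_lit 98333) (nat_lit 18) (.e (nat_lit 164403) (nat_lit 256) (.e (nat_lit 57373) (nat_lit 2) (.e (nat_lit 90174) (nat_lit 14) (.e (nat_lit 180245) (nat_lit 5) .nil))))) .nil))) (.nd (nat_lit 5) 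
(.lf (nat_lit 223827) (.g (nat_lit 3453) (.e (nat_lit 98333) (nat_lit 18) (.e (nat_lit 164403) (nat_lit 256) (.e (nat_lit 57373) (nat_lit 2) (.e (nat_lit 90172) (nat_lit 14) (.e (nat_lit 180243) (nat_lit 5) (.e (nat_lit 532515) (nat_lit 3) (.e (nat_lit 114717) (nat_lit 23) .nil))))))) (.g (nat_lit 4) .nil .nil))) 
(.lf (nat_lit 223859) (.g (nat_lit 976) (.e (nat_lit 98334) (nat_lit 18) (.e (nat_lit 164159) (nat_lit 152) (.e (nat_lit 1296) (nat_lit 96) (.e (nat_lit 131101) (nat_lit 6) .nil)))) .nil)))) (.nd (nat_lit 4) (.nd (nat_lit 5) 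
(.lf (nat_lit 223819) (.g (nat_lit 2064) (.e (nat_lit 98333) (nat_lit 18) (.e (nat_lit 164403) (nat_lit 256) (.e (nat_lit 57373) (nat_lit 2) (.e (nat_lit 90167) (nat_lit 13) .nil)))) .nil)) 
(.lf (nat_lit 223851) (.g (nat_lit 3801) (.e (nat_lit 98333) (nat_lit 18) (.e (nat_lit 164403) (nat_lit 256) (.e (nat_lit 57378) (nat_lit 3) (.e (nat_lit 98366) (nat_lit 27) (.e (nat_lit 434231) (nat_lit 23) (.e (nat_lit 532507) (nat_lit 2) (.e (nat_lit 106517) (nat_lit 9) (.e (nat_lit 1255) (nat_lit 92) .nil)))))))) (.g (nat_lit 4) .nil .nil)))) (.nd (nat_lit 5) 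
(.lf (nat_lit 223835) (.g (nat_lit 3595) (.e (nat_lit 98333) (nat_lit 18) (.e (nat_lit 164403) (nat_lit 256) (.e (nat_lit 57373) (nat_lit 2) (.e (nat_lit 90174) (nat_lit 14) (.e (nat_lit 180243) (nat_lit 5) (.e (nat_lit 532508) (nat_lit 2) (.e (nat_lit 106504) (nat_lit 9) (.e (nat_lit 1251) (nat_lit 92) .nil)))))))) (.g (nat_lit 4) .nil .nil))) 
(.lf (nat_lit 223867) (.g (nat_lit 2729) (.e (nat_lit 98334) (nat_lit 18) (.e (nat_lit 164180) (nat_lit 154) (.e (nat_lit 57411) (nat_lit 12) (.e (nat_lit 336367) (nat_lit 27) (.e (nat_lit 426542) (nat_lit 29) (.e (nat_lit 352313) (nat_lit 23) .nil)))))) (.g (nat_lit 0) .nil .nil)))))) (.nd (nat_lit 3) (.nd (nat_lit 4) (.nd (nat_lit 5) 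
(.lf (nat_lit 223815) (.g (nat_lit 4070) (.e (nat_lit 98333) (nat_lit 18) (.e (nat_lit 164403) (nat_lit 256) (.e (nat_lit 57371) (nat_lit 2) (.e (nat_lit 90174) (nat_lit 14) (.e (nat_lit 180243) (nat_lit 5) (.e (nat_lit 532508) (nat_lit 2) (.e (nat_lit 106526) (nat_lit 9) (.e (nat_lit 1252) (nat_lit 92) .nil)))))))) (.g (nat_lit 5) .nil .nil))) 
(.lf (nat_lit 223847) (.g (nat_lit 2603) (.e (nat_lit 98333) (nat_lit 18) (.e (nat_lit 164403) (nat_lit 256) (.e (nat_lit 57378) (nat_lit 3) (.e (nat_lit 98355) (nat_lit 26) (.e (nat_lit 426131) (nat_lit 3) .nil))))) .nil))) (.nd (nat_lit 5) 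
(.lf (nat_lit 223831) (.g (nat_lit 4629) (.e (nat_lit 98333) (nat_lit 18) (.e (nat_lit 164403) (nat_lit 256) (.e (nat_lit 57373) (nat_lit 2) (.e (nat_lit 90172) (nat_lit 14) (.e (nat_lit 180244) (nat_lit 5) (.e (nat_lit 532513) (nat_lit 3) (.e (nat_lit 114717) (nat_lit 23) .nil))))))) (.g (nat_lit 5) .nil .nil))) 
(.lf (nat_lit 223863) (.g (nat_lit 2041) (.e (nat_lit 98334) (nat_lit 18) (.e (nat_lit 164176) (nat_lit 154) (.e (nat_lit 57409) (nat_lit 12) (.e (nat_lit 336454) (nat_lit 34) (.e (nat_lit 483383) (nat_lit 23) .nil))))) .nil)))) (.nd (nat_lit 4) (.nd (nat_lit 5) 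
(.lf (nat_lit 223823) (.g (nat_lit 3172) (.e (nat_lit 98333) (nat_lit 18) (.e (nat_lit 164403) (nat_lit 256) (.e (nat_lit 57373) (nat_lit 2) (.e (nat_lit 90172) (nat_lit 14) (.e (nat_lit 180243) (nat_lit 5) .nil))))) .nil)) 
(.lf (nat_lit 223855) (.g (nat_lit 960) (.e (nat_lit 98334) (nat_lit 18) (.e (nat_lit 164147) (nat_lit 152) (.e (nat_lit 1199) (nat_lit 88) (.e (nat_lit 65580) (nat_lit 6) (.e (nat_lit 155392) (nat_lit 6) .nil))))) .nil))) (.nd (nat_lit 5) 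
(.lf (nat_lit 223839) (.g (nat_lit 3852) (.e (nat_lit 98333) (nat_lit 18) (.e (nat_lit 164403) (nat_lit 256) (.e (nat_lit 57373) (nat_lit 2) (.e (nat_lit 90174) (nat_lit 14) (.e (nat_lit 180243) (nat_lit 5) (.e (nat_lit 532511) (nat_lit 2) (.e (nat_lit 106526) (nat_lit 9) (.e (nat_lit 1254) (nat_lit 92) .nil)))))))) (.g (nat_lit 4) .nil .nil))) 
(.lf (nat_lit 223871) (.g (nat_lit 2150) (.e (nat_lit 98334) (nat_lit 18) (.e (nat_lit 164182) (nat_lit 154) (.e (nat_lit 57379) (nat_lit 3) (.e (nat_lit 98342) (nat_lit 20) (.e (nat_lit 221214) (nat_lit 23) .nil))))) .nil))))))))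

noncomputable def tv2936 : DT := (.nd (nat_lit 0) (.nd (nat_lit 1) (.nd (nat_lit 2) (.nd (nat_lit 3) (.nd (nat_lit 4) (.nd (nat_lit 5) (.nd (nat_lit 6) 
(.lf (nat_lit 223872) (.g (nat_lit 3138) (.e (nat_lit 98334) (nat_lit 18) (.e (nat_lit 164182) (nat_lit 154) (.e (nat_lit 57409) (nat_lit 12) (.e (nat_lit 336367) (nat_lit 27) (.e (nat_lit 426555) (nat_lit 32) (.e (nat_lit 376867) (nat_lit 23) .nil)))))) (.g (nat_lit 0) .nil .nil))) 
(.lf (nat_lit 223936) (.g (nat_lit 4358) (.e (nat_lit 98334) (nat_lit 18) (.e (nat_lit 164330) (nat_lit 230) (.e (nat_lit 163873) (nat_lit 3) (.e (nat_lit 204813) (nat_lit 9) (.e (nat_lit 426138) (nat_lit 3) (.e (nat_lit 204817) (nat_lit 17) (.e (nat_lit 2198) (nat_lit 144) (.e (nat_lit 720945) (nat_lit 23) .nil)))))))) (.g (nat_lit 4) .nil .nil)))) (.nd (nat_lit 6) 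
(.lf (nat_lit 223904) (.g (nat_lit 2635) (.e (nat_lit 98334) (nat_lit 18) (.e (nat_lit 164183) (nat_lit 154) (.e (nat_lit 57409) (nat_lit 12) (.e (nat_lit 336367) (nat_lit 27) (.e (nat_lit 426555) (nat_lit 32) (.e (nat_lit 376867) (nat_lit 23) .nil)))))) (.g (nat_lit 0) .nil .nil))) 
(.lf (nat_lit 223968) (.g (nat_lit 1900) (.e (nat_lit 98334) (nat_lit 18) (.e (nat_lit 164332) (nat_lit 230) (.e (nat_lit 163902) (nat_lit 12) (.e (nat_lit 426568) (nat_lit 34) (.e (nat_lit 393266) (nat_lit 23) .nil))))) .nil)))) (.nd (nat_lit 5) (.nd (nat_lit 6) 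
(.lf (nat_lit 223888) (.g (nat_lit 1565) (.e (nat_lit 98334) (nat_lit 18) (.e (nat_lit 164182) (nat_lit 154) (.e (nat_lit 57411) (nat_lit 12) (.e (nat_lit 336374) (nat_lit 27) .nil)))) .nil)) 
(.lf (nat_lit 223952) (.g (nat_lit 636) (.e (nat_lit 98334) (nat_lit 18) (.e (nat_lit 164332) (nat_lit 230) (.e (nat_lit 163859) (nat_lit 1) .nil))) .nil))) (.nd (nat_lit 6) 
(.lf (nat_lit 223920) (.g (nat_lit 2757) (.e (nat_lit 98334) (nat_lit 18) (.e (nat_lit 164183) (nat_lit 154) (.e (nat_lit 57411) (nat_lit 12) (.e (nat_lit 336456) (nat_lit 34) (.e (nat_lit 483391) (nat_lit 23) (.e (nat_lit 336017) (nat_lit 3) .nil)))))) (.g (nat_lit 0) .nil .nil))) 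
(.lf (nat_lit 223984) (.g (nat_lit 1840) (.e (nat_lit 98334) (nat_lit 18) (.e (nat_lit 164332) (nat_lit 230) (.e (nat_lit 163927) (nat_lit 16) (.e (nat_lit 458789) (nat_lit 23) (.e (nat_lit 532563) (nat_lit 15) .nil))))) .nil))))) (.nd (nat_lit 4) (.nd (nat_lit 5) (.nd (nat_lit 6) 
(.lf (nat_lit 223880) (.g (nat_lit 2393) (.e (nat_lit 98334) (nat_lit 18) (.e (nat_lit 164182) (nat_lit 154) (.e (nat_lit 57409) (nat_lit 12) (.e (nat_lit 336456) (nat_lit 34) (.e (nat_lit 483393) (nat_lit 23) (.e (nat_lit 336025) (nat_lit 3) .nil)))))) (.g (nat_lit 4) .nil .nil))) 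
(.lf (nat_lit 223944) (.g (nat_lit 1187) (.e (nat_lit 98334) (nat_lit 18) (.e (nat_lit 164330) (nat_lit 230) (.e (nat_lit 163905) (nat_lit 12) (.e (nat_lit 426479) (nat_lit 27) .nil)))) .nil))) (.nd (nat_lit 6) 
(.lf (nat_lit 223912) (.g (nat_lit 2191) (.e (nat_lit 98334) (nat_lit 18) (.e (nat_lit 164183) (nat_lit 154) (.e (nat_lit 57409) (nat_lit 12) (.e (nat_lit 336414) (nat_lit 27) (.e (nat_lit 426554) (nat_lit 32) (.e (nat_lit 376869) (nat_lit 23) .nil)))))) (.g (nat_lit 4) .nil .nil))) 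
(.lf (nat_lit 223976) (.g (nat_lit 1051) (.e (nat_lit 98334) (nat_lit 18) (.e (nat_lit 164332) (nat_lit 230) (.e (nat_lit 163905) (nat_lit 12) (.e (nat_lit 426567) (nat_lit 34) .nil)))) .nil)))) (.nd (nat_lit 5) (.nd (nat_lit 6) 
(.lf (nat_lit 223896) (.g (nat_lit 3233) (.e (nat_lit 98334) (nat_lit 18) (.e (nat_lit 164182) (nat_lit 154) (.e (nat_lit 57411) (nat_lit 12) (.e (nat_lit 336456) (nat_lit 34) (.e (nat_lit 483391) (nat_lit 23) (.e (nat_lit 336017) (nat_lit 3) .nil)))))) (.g (nat_lit 0) .nil .nil))) 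
(.lf (nat_lit 223960) (.g (nat_lit 2358) (.e (nat_lit 98334) (nat_lit 18) (.e (nat_lit 164332) (nat_lit 230) (.e (nat_lit 163874) (nat_lit 3) (.e (nat_lit 204836) (nat_lit 20) .nil)))) .nil))) (.nd (nat_lit 6) 
(.lf (nat_lit 223928) (.g (nat_lit 622) (.e (nat_lit 98334) (nat_lit 18) (.e (nat_lit 164330) (nat_lit 230) (.e (nat_lit 163857) (nat_lit 0) .nil))) .nil)) 
(.lf (nat_lit 223992) (.g (nat_lit 1997) (.e (nat_lit 98334) (nat_lit 18) (.e (nat_lit 164332) (nat_lit 230) (.e (nat_lit 163943) (nat_lit 19) (.e (nat_lit 483333) (nat_lit 0) (.e (nat_lit 7086) (nat_lit 379) .nil))))) .nil)))))) (.nd (nat_lit 3) (.nd (nat_lit 4) (.nd (nat_lit 5) (.nd (nat_lit 6) 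
(.lf (nat_lit 223876) (.g (nat_lit 3207) (.e (nat_lit 98334) (nat_lit 18) (.e (nat_lit 164182) (nat_lit 154) (.e (nat_lit 57409) (nat_lit 12) (.e (nat_lit 336454) (nat_lit 34) (.e (nat_lit 483384) (nat_lit 23) .nil))))) .nil)) 
(.lf (nat_lit 223940) (.g (nat_lit 1759) (.e (nat_lit 98334) (nat_lit 18) (.e (nat_lit 164330) (nat_lit 230) (.e (nat_lit 163902) (nat_lit 12) (.e (nat_lit 426567) (nat_lit 34) .nil)))) .nil))) (.nd (nat_lit 6) 
(.lf (nat_lit 223908) (.g (nat_lit 1103) (.e (nat_lit 98334) (nat_lit 18) (.e (nat_lit 164183) (nat_lit 154) (.e (nat_lit 57409) (nat_lit 12) (.e (nat_lit 336379) (nat_lit 27) .nil)))) .nil)) 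
(.lf (nat_lit 223972) (.g (nat_lit 1686) (.e (nat_lit 98334) (nat_lit 18) (.e (nat_lit 164332) (nat_lit 230) (.e (nat_lit 163902) (nat_lit 12) (.e (nat_lit 426568) (nat_lit 34) (.e (nat_lit 393279) (nat_lit 23) .nil))))) .nil)))) (.nd (nat_lit 5) (.nd (nat_lit 6) 
(.lf (nat_lit 223892) (.g (nat_lit 1414) (.e (nat_lit 98334) (nat_lit 18) (.e (nat_lit 164182) (nat_lit 154) (.e (nat_lit 57411) (nat_lit 12) (.e (nat_lit 343808) (nat_lit 27) .nil)))) .nil)) 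
(.lf (nat_lit 223956) (.g (nat_lit 2375) (.e (nat_lit 98334) (nat_lit 18) (.e (nat_lit 164332) (nat_lit 230) (.e (nat_lit 163869) (nat_lit 2) (.e (nat_lit 196656) (nat_lit 11) (.e (nat_lit 16416) (nat_lit 3) .nil))))) .nil))) (.nd (nat_lit 6) 
(.lf (nat_lit 223924) (.g (nat_lit 2264) (.e (nat_lit 98334) (nat_lit 18) (.e (nat_lit 164183) (nat_lit 154) (.e (nat_lit 57448) (nat_lit 19) (.e (nat_lit 393227) (nat_lit 9) (.e (nat_lit 336152) (nat_lit 9) (.e (nat_lit 336017) (nat_lit 3) .nil)))))) (.g (nat_lit 0) .nil .nil))) 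
(.lf (nat_lit 223988) (.g (nat_lit 1385) (.e (nat_lit 98334) (nat_lit 18) (.e (nat_lit 164332) (nat_lit 230) (.e (nat_lit 163941) (nat_lit 19) (.e (nat_lit 483338) (nat_lit 9) .nil)))) .nil))))) (.nd (nat_lit 4) (.nd (nat_lit 5) (.nd (nat_lit 6) 
(.lf (nat_lit 223884) (.g (nat_lit 1526) (.e (nat_lit 98334) (nat_lit 18) (.e (nat_lit 164182) (nat_lit 154) (.e (nat_lit 57411) (nat_lit 12) (.e (nat_lit 336366) (nat_lit 27) .nil)))) .nil)) 
(.lf (nat_lit 223948) (.g (nat_lit 1369) (.e (nat_lit 98334) (nat_lit 18) (.e (nat_lit 164330) (nat_lit 230) (.e (nat_lit 163905) (nat_lit 12) (.e (nat_lit 433920) (nat_lit 34) .nil)))) .nil))) (.nd (nat_lit 6) 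
(.lf (nat_lit 223916) (.g (nat_lit 2641) (.e (nat_lit 98334) (nat_lit 18) (.e (nat_lit 164183) (nat_lit 154) (.e (nat_lit 57411) (nat_lit 12) (.e (nat_lit 336367) (nat_lit 27) (.e (nat_lit 426555) (nat_lit 32) (.e (nat_lit 376869) (nat_lit 23) .nil)))))) (.g (nat_lit 0) .nil .nil))) 
(.lf (nat_lit 223980) (.g (nat_lit 2930) (.e (nat_lit 98334) (nat_lit 18) (.e (nat_lit 164332) (nat_lit 230) (.e (nat_lit 163905) (nat_lit 12) (.e (nat_lit 426568) (nat_lit 34) (.e (nat_lit 393234) (nat_lit 17) (.e (nat_lit 7310) (nat_lit 388) (.e (nat_lit 112) (nat_lit 3) .nil))))))) (.g (nat_lit 5) .nil .nil))))) (.nd (nat_lit 5) (.nd (nat_lit 6) 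
(.lf (nat_lit 223900) (.g (nat_lit 2272) (.e (nat_lit 98334) (nat_lit 18) (.e (nat_lit 164182) (nat_lit 154) (.e (nat_lit 57447) (nat_lit 19) (.e (nat_lit 393225) (nat_lit 9) (.e (nat_lit 336087) (nat_lit 9) .nil))))) .nil)) 
(.lf (nat_lit 223964) (.g (nat_lit 1291) (.e (nat_lit 98334) (nat_lit 18) (.e (nat_lit 164332) (nat_lit 230) (.e (nat_lit 163902) (nat_lit 12) (.e (nat_lit 426564) (nat_lit 34) .nil)))) .nil))) (.nd (nat_lit 6) 
(.lf (nat_lit 223932) (.g (nat_lit 4096) (.e (nat_lit 98334) (nat_lit 18) (.e (nat_lit 164330) (nat_lit 230) (.e (nat_lit 163869) (nat_lit 2) (.e (nat_lit 196654) (nat_lit 11) (.e (nat_lit 16416) (nat_lit 3) (.e (nat_lit 204834) (nat_lit 19) (.e (nat_lit 106517) (nat_lit 9) (.e (nat_lit 1255) (nat_lit 92) .nil)))))))) (.g (nat_lit 5) .nil .nil))) 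
(.lf (nat_lit 223996) (.g (nat_lit 3349) (.e (nat_lit 98334) (nat_lit 18) (.e (nat_lit 164396) (nat_lit 256) (.e (nat_lit 57371) (nat_lit 2) (.e (nat_lit 90172) (nat_lit 14) (.e (nat_lit 180244) (nat_lit 5) (.e (nat_lit 532515) (nat_lit 3) (.e (nat_lit 114717) (nat_lit 23) .nil))))))) (.g (nat_lit 6) .nil .nil)))))))) 
(.nd (nat_lit 2) (.nd (nat_lit 3) (.nd (nat_lit 4) (.nd (nat_lit 5) (.nd (nat_lit 6) 
(.lf (nat_lit 223874) (.g (nat_lit 1458) (.e (nat_lit 98334) (nat_lit 18) (.e (nat_lit 164182) (nat_lit 154) (.e (nat_lit 57409) (nat_lit 12) (.e (nat_lit 336372) (nat_lit 27) .nil)))) .nil)) 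
(.lf (nat_lit 223938) (.g (nat_lit 1790) (.e (nat_lit 98334) (nat_lit 18) (.e (nat_lit 164330) (nat_lit 230) (.e (nat_lit 163902) (nat_lit 12) (.e (nat_lit 426562) (nat_lit 33) .nil)))) .nil))) (.nd (nat_lit 6) 
(.lf (nat_lit 223906) (.g (nat_lit 1616) (.e (nat_lit 98334) (nat_lit 18) (.e (nat_lit 164183) (nat_lit 154) (.e (nat_lit 57409) (nat_lit 12) (.e (nat_lit 336370) (nat_lit 27) .nil)))) .nil)) 
(.lf (nat_lit 223970) (.g (nat_lit 2012) (.e (nat_lit 98334) (nat_lit 18) (.e (nat_lit 164332) (nat_lit 230) (.e (nat_lit 163902) (nat_lit 12) (.e (nat_lit 426568) (nat_lit 34) (.e (nat_lit 393269) (nat_lit 23) .nil))))) .nil)))) (.nd (nat_lit 5) (.nd (nat_lit 6) 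
(.lf (nat_lit 223890) (.g (nat_lit 1550) (.e (nat_lit 98334) (nat_lit 18) (.e (nat_lit 164182) (nat_lit 154) (.e (nat_lit 57411) (nat_lit 12) (.e (nat_lit 336414) (nat_lit 27) .nil)))) .nil)) 
(.lf (nat_lit 223954) (.g (nat_lit 615) (.e (nat_lit 98334) (nat_lit 18) (.e (nat_lit 164332) (nat_lit 230) (.e (nat_lit 163862) (nat_lit 1) .nil))) .nil))) (.nd (nat_lit 6) 
(.lf (nat_lit 223922) (.g (nat_lit 2277) (.e (nat_lit 98334) (nat_lit 18) (.e (nat_lit 164183) (nat_lit 154) (.e (nat_lit 57447) (nat_lit 19) (.e (nat_lit 393227) (nat_lit 9) (.e (nat_lit 336152) (nat_lit 9) (.e (nat_lit 336017) (nat_lit 3) .nil)))))) (.g (nat_lit 0) .nil .nil))) 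
(.lf (nat_lit 223986) (.g (nat_lit 1390) (.e (nat_lit 98334) (nat_lit 18) (.e (nat_lit 164332) (nat_lit 230) (.e (nat_lit 163941) (nat_lit 19) (.e (nat_lit 483333) (nat_lit 0) .nil)))) .nil))))) (.nd (nat_lit 4) (.nd (nat_lit 5) (.nd (nat_lit 6) 
(.lf (nat_lit 223882) (.g (nat_lit 1733) (.e (nat_lit 98334) (nat_lit 18) (.e (nat_lit 164182) (nat_lit 154) (.e (nat_lit 57411) (nat_lit 12) (.e (nat_lit 335878) (nat_lit 0) (.e (nat_lit 1016) (nat_lit 81) .nil))))) .nil)) 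
(.lf (nat_lit 223946) (.g (nat_lit 958) (.e (nat_lit 98334) (nat_lit 18) (.e (nat_lit 164330) (nat_lit 230) (.e (nat_lit 163905) (nat_lit 12) (.e (nat_lit 426568) (nat_lit 34) .nil)))) .nil))) (.nd (nat_lit 6) 
(.lf (nat_lit 223914) (.g (nat_lit 2791) (.e (nat_lit 98334) (nat_lit 18) (.e (nat_lit 164183) (nat_lit 154) (.e (nat_lit 57411) (nat_lit 12) (.e (nat_lit 336366) (nat_lit 27) (.e (nat_lit 426555) (nat_lit 32) (.e (nat_lit 376867) (nat_lit 23) .nil)))))) (.g (nat_lit 5) .nil .nil))) 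
(.lf (nat_lit 223978) (.g (nat_lit 2719) (.e (nat_lit 98334) (nat_lit 18) (.e (nat_lit 164332) (nat_lit 230) (.e (nat_lit 163905) (nat_lit 12) (.e (nat_lit 426568) (nat_lit 34) (.e (nat_lit 393234) (nat_lit 17) (.e (nat_lit 7309) (nat_lit 388) (.e (nat_lit 110) (nat_lit 3) .nil))))))) (.g (nat_lit 4) .nil .nil))))) (.nd (nat_lit 5) (.nd (nat_lit 6) 
(.lf (nat_lit 223898) (.g (nat_lit 2412) (.e (nat_lit 98334) (nat_lit 18) (.e (nat_lit 164182) (nat_lit 154) (.e (nat_lit 57411) (nat_lit 12) (.e (nat_lit 336456) (nat_lit 34) (.e (nat_lit 483393) (nat_lit 23) (.e (nat_lit 336025) (nat_lit 3) .nil)))))) (.g (nat_lit 4) .nil .nil))) 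
(.lf (nat_lit 223962) (.g (nat_lit 4335) (.e (nat_lit 98334) (nat_lit 18) (.e (nat_lit 164332) (nat_lit 230) (.e (nat_lit 163874) (nat_lit 3) (.e (nat_lit 204837) (nat_lit 20) (.e (nat_lit 114718) (nat_lit 23) (.e (nat_lit 98356) (nat_lit 26) (.e (nat_lit 426438) (nat_lit 18) .nil))))))) (.g (nat_lit 7) .nil .nil)))) (.nd (nat_lit 6) 
(.lf (nat_lit 223930) (.g (nat_lit 2566) (.e (nat_lit 98334) (nat_lit 18) (.e (nat_lit 164330) (nat_lit 230) (.e (nat_lit 163866) (nat_lit 2) (.e (nat_lit 196654) (nat_lit 11) (.e (nat_lit 16416) (nat_lit 3) (.e (nat_lit 204836) (nat_lit 20) (.e (nat_lit 114717) (nat_lit 23) .nil))))))) (.g (nat_lit 4) .nil .nil))) 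
(.lf (nat_lit 223994) (.g (nat_lit 1490) (.e (nat_lit 98334) (nat_lit 18) (.e (nat_lit 164332) (nat_lit 230) (.e (nat_lit 163943) (nat_lit 19) (.e (nat_lit 483350) (nat_lit 17) .nil)))) .nil)))))) (.nd (nat_lit 3) (.nd (nat_lit 4) (.nd (nat_lit 5) (.nd (nat_lit 6) 
(.lf (nat_lit 223878) (.g (nat_lit 2744) (.e (nat_lit 98334) (nat_lit 18) (.e (nat_lit 164182) (nat_lit 154) (.e (nat_lit 57409) (nat_lit 12) (.e (nat_lit 336456) (nat_lit 34) (.e (nat_lit 483386) (nat_lit 23) (.e (nat_lit 336020) (nat_lit 3) .nil)))))) (.g (nat_lit 4) .nil .nil))) 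
(.lf (nat_lit 223942) (.g (nat_lit 2764) (.e (nat_lit 98334) (nat_lit 18) (.e (nat_lit 164330) (nat_lit 230) (.e (nat_lit 163902) (nat_lit 12) (.e (nat_lit 426568) (nat_lit 34) (.e (nat_lit 393269) (nat_lit 23) .nil))))) .nil))) (.nd (nat_lit 6) 
(.lf (nat_lit 223910) (.g (nat_lit 1709) (.e (nat_lit 98334) (nat_lit 18) (.e (nat_lit 164183) (nat_lit 154) (.e (nat_lit 57409) (nat_lit 12) (.e (nat_lit 336414) (nat_lit 27) (.e (nat_lit 426552) (nat_lit 32) .nil))))) .nil)) 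
(.lf (nat_lit 223974) (.g (nat_lit 1715) (.e (nat_lit 98334) (nat_lit 18) (.e (nat_lit 164332) (nat_lit 230) (.e (nat_lit 163905) (nat_lit 12) (.e (nat_lit 426487) (nat_lit 27) .nil)))) .nil)))) (.nd (nat_lit 5) (.nd (nat_lit 6) 
(.lf (nat_lit 223894) (.g (nat_lit 2558) (.e (nat_lit 98334) (nat_lit 18) (.e (nat_lit 164182) (nat_lit 154) (.e (nat_lit 57411) (nat_lit 12) (.e (nat_lit 336454) (nat_lit 34) (.e (nat_lit 483391) (nat_lit 23) (.e (nat_lit 336017) (nat_lit 3) .nil)))))) (.g (nat_lit 4) .nil .nil))) 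
(.lf (nat_lit 223958) (.g (nat_lit 2762) (.e (nat_lit 98334) (nat_lit 18) (.e (nat_lit 164332) (nat_lit 230) (.e (nat_lit 163874) (nat_lit 3) (.e (nat_lit 204815) (nat_lit 17) (.e (nat_lit 2198) (nat_lit 144) .nil))))) .nil))) (.nd (nat_lit 6) 
(.lf (nat_lit 223926) (.g (nat_lit 2479) (.e (nat_lit 98334) (nat_lit 18) (.e (nat_lit 164322) (nat_lit 230) (.e (nat_lit 163902) (nat_lit 12) (.e (nat_lit 426568) (nat_lit 34) (.e (nat_lit 393267) (nat_lit 23) .nil))))) .nil)) 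
(.lf (nat_lit 223990) (.g (nat_lit 369) (.e (nat_lit 98334) (nat_lit 18) (.e (nat_lit 164332) (nat_lit 230) (.e (nat_lit 163943) (nat_lit 19) .nil))) .nil))))) (.nd (nat_lit 4) (.nd (nat_lit 5) (.nd (nat_lit 6) 
(.lf (nat_lit 223886) (.g (nat_lit 3155) (.e (nat_lit 98334) (nat_lit 18) (.e (nat_lit 164182) (nat_lit 154) (.e (nat_lit 57411) (nat_lit 12) (.e (nat_lit 336367) (nat_lit 27) (.e (nat_lit 426555) (nat_lit 32) (.e (nat_lit 376869) (nat_lit 23) .nil)))))) (.g (nat_lit 0) .nil .nil))) 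
(.lf (nat_lit 223950) (.g (nat_lit 805) (.e (nat_lit 98334) (nat_lit 18) (.e (nat_lit 164330) (nat_lit 230) (.e (nat_lit 163918) (nat_lit 13) .nil))) .nil))) (.nd (nat_lit 6) 
(.lf (nat_lit 223918) (.g (nat_lit 1875) (.e (nat_lit 98334) (nat_lit 18) (.e (nat_lit 164183) (nat_lit 154) (.e (nat_lit 57411) (nat_lit 12) (.e (nat_lit 336399) (nat_lit 27) (.e (nat_lit 426523) (nat_lit 27) .nil))))) .nil)) 
(.lf (nat_lit 223982) (.g (nat_lit 1725) (.e (nat_lit 98334) (nat_lit 18) (.e (nat_lit 164332) (nat_lit 230) (.e (nat_lit 163905) (nat_lit 12) (.e (nat_lit 426568) (nat_lit 34) (.e (nat_lit 393275) (nat_lit 23) .nil))))) .nil)))) (.nd (nat_lit 5) (.nd (nat_lit 6) 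
(.lf (nat_lit 223902) (.g (nat_lit 2045) (.e (nat_lit 98334) (nat_lit 18) (.e (nat_lit 164182) (nat_lit 154) (.e (nat_lit 57447) (nat_lit 19) (.e (nat_lit 393228) (nat_lit 9) (.e (nat_lit 336087) (nat_lit 9) .nil))))) .nil)) 
(.lf (nat_lit 223966) (.g (nat_lit 3347) (.e (nat_lit 98334) (nat_lit 18) (.e (nat_lit 164332) (nat_lit 230) (.e (nat_lit 163902) (nat_lit 12) (.e (nat_lit 426568) (nat_lit 34) (.e (nat_lit 393234) (nat_lit 17) (.e (nat_lit 7309) (nat_lit 388) (.e (nat_lit 110) (nat_lit 3) .nil))))))) (.g (nat_lit 5) .nil .nil)))) (.nd (nat_lit 6) 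
(.lf (nat_lit 223934) (.g (nat_lit 3553) (.e (nat_lit 98334) (nat_lit 18) (.e (nat_lit 164330) (nat_lit 230) (.e (nat_lit 163869) (nat_lit 2) (.e (nat_lit 196656) (nat_lit 11) (.e (nat_lit 16416) (nat_lit 3) (.e (nat_lit 204834) (nat_lit 19) (.e (nat_lit 106517) (nat_lit 9) (.e (nat_lit 1255) (nat_lit 92) .nil)))))))) (.g (nat_lit 4) .nil .nil))) 
(.lf (nat_lit 223998) (.g (nat_lit 2649) (.e (nat_lit 98334) (nat_lit 18) (.e (nat_lit 164396) (nat_lit 256) (.e (nat_lit 57371) (nat_lit 2) (.e (nat_lit 90174) (nat_lit 14) (.e (nat_lit 180243) (nat_lit 5) (.e (nat_lit 532508) (nat_lit 2) (.e (nat_lit 106526) (nat_lit 9) (.e (nat_lit 1254) (nat_lit 92) .nil)))))))) (.g (nat_lit 4) .nil .nil))))))))) 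
(.nd (nat_lit 1) (.nd (nat_lit 2) (.nd (nat_lit 3) (.nd (nat_lit 4) (.nd (nat_lit 5) 
(.nd (nat_lit 6) 
(.lf (nat_lit 223873) (.g (nat_lit 3204) (.e (nat_lit 98334) (nat_lit 18) (.e (nat_lit 164182) (nat_lit 154) (.e (nat_lit 57409) (nat_lit 12) (.e (nat_lit 336367) (nat_lit 27) (.e (nat_lit 426555) (nat_lit 32) (.e (nat_lit 376869) (nat_lit 23) .nil)))))) (.g (nat_lit 0) .nil .nil))) 
(.lf (nat_lit 223937) (.g (nat_lit 3950) (.e (nat_lit 98334) (nat_lit 18) (.e (nat_lit 164330) (nat_lit 230) (.e (nat_lit 163873) (nat_lit 3) (.e (nat_lit 204813) (nat_lit 9) (.e (nat_lit 426139) (nat_lit 3) (.e (nat_lit 204817) (nat_lit 17) (.e (nat_lit 2198) (nat_lit 144) (.e (nat_lit 720945) (nat_lit 23) .nil)))))))) (.g (nat_lit 4) .nil .nil)))) (.nd (nat_lit 6) 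
(.lf (nat_lit 223905) (.g (nat_lit 2702) (.e (nat_lit 98334) (nat_lit 18) (.e (nat_lit 164183) (nat_lit 154) (.e (nat_lit 57409) (nat_lit 12) (.e (nat_lit 336367) (nat_lit 27) (.e (nat_lit 426555) (nat_lit 32) (.e (nat_lit 376869) (nat_lit 23) .nil)))))) (.g (nat_lit 0) .nil .nil))) 
(.lf (nat_lit 223969) (.g (nat_lit 1864) (.e (nat_lit 98334) (nat_lit 18) (.e (nat_lit 164332) (nat_lit 230) (.e (nat_lit 163902) (nat_lit 12) (.e (nat_lit 426568) (nat_lit 34) (.e (nat_lit 393268) (nat_lit 23) .nil))))) .nil)))) (.nd (nat_lit 5) (.nd (nat_lit 6) 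
(.lf (nat_lit 223889) (.g (nat_lit 1678) (.e (nat_lit 98334) (nat_lit 18) (.e (nat_lit 164182) (nat_lit 154) (.e (nat_lit 57411) (nat_lit 12) (.e (nat_lit 336375) (nat_lit 27) .nil)))) .nil)) 
(.lf (nat_lit 223953) (.g (nat_lit 918) (.e (nat_lit 98334) (nat_lit 18) (.e (nat_lit 164332) (nat_lit 230) (.e (nat_lit 163860) (nat_lit 1) (.e (nat_lit 164399) (nat_lit 256) .nil)))) .nil))) (.nd (nat_lit 6) 
(.lf (nat_lit 223921) (.g (nat_lit 1693) (.e (nat_lit 98334) (nat_lit 18) (.e (nat_lit 164183) (nat_lit 154) (.e (nat_lit 57417) (nat_lit 12) (.e (nat_lit 336371) (nat_lit 27) .nil)))) .nil)) 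
(.lf (nat_lit 223985) (.g (nat_lit 743) (.e (nat_lit 98334) (nat_lit 18) (.e (nat_lit 164332) (nat_lit 230) (.e (nat_lit 163938) (nat_lit 18) .nil))) .nil))))) (.nd (nat_lit 4) (.nd (nat_lit 5) (.nd (nat_lit 6) 
(.lf (nat_lit 223881) (.g (nat_lit 469) (.e (nat_lit 98334) (nat_lit 18) (.e (nat_lit 164182) (nat_lit 154) (.e (nat_lit 57410) (nat_lit 12) .nil))) .nil)) 
(.lf (nat_lit 223945) (.g (nat_lit 1174) (.e (nat_lit 98334) (nat_lit 18) (.e (nat_lit 164330) (nat_lit 230) (.e (nat_lit 163905) (nat_lit 12) (.e (nat_lit 426486) (nat_lit 27) .nil)))) .nil))) (.nd (nat_lit 6) 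
(.lf (nat_lit 223913) (.g (nat_lit 2703) (.e (nat_lit 98334) (nat_lit 18) (.e (nat_lit 164183) (nat_lit 154) (.e (nat_lit 57409) (nat_lit 12) (.e (nat_lit 336456) (nat_lit 34) (.e (nat_lit 483391) (nat_lit 23) (.e (nat_lit 336017) (nat_lit 3) .nil)))))) (.g (nat_lit 0) .nil .nil))) 
(.lf (nat_lit 223977) (.g (nat_lit 1791) (.e (nat_lit 98334) (nat_lit 18) (.e (nat_lit 164332) (nat_lit 230) (.e (nat_lit 163905) (nat_lit 12) (.e (nat_lit 426568) (nat_lit 34) (.e (nat_lit 393234) (nat_lit 17) .nil))))) .nil)))) (.nd (nat_lit 5) (.nd (nat_lit 6) 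
(.lf (nat_lit 223897) (.g (nat_lit 2686) (.e (nat_lit 98334) (nat_lit 18) (.e (nat_lit 164182) (nat_lit 154) (.e (nat_lit 57411) (nat_lit 12) (.e (nat_lit 336456) (nat_lit 34) (.e (nat_lit 483393) (nat_lit 23) (.e (nat_lit 336020) (nat_lit 3) .nil)))))) (.g (nat_lit 4) .nil .nil))) 
(.lf (nat_lit 223961) (.g (nat_lit 2424) (.e (nat_lit 98334) (nat_lit 18) (.e (nat_lit 164332) (nat_lit 230) (.e (nat_lit 163874) (nat_lit 3) (.e (nat_lit 204836) (nat_lit 20) (.e (nat_lit 114718) (nat_lit 23) .nil))))) .nil))) (.nd (nat_lit 6) 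
(.lf (nat_lit 223929) (.g (nat_lit 800) (.e (nat_lit 98334) (nat_lit 18) (.e (nat_lit 164330) (nat_lit 230) (.e (nat_lit 163860) (nat_lit 1) .nil))) .nil)) 
(.lf (nat_lit 223993) (.g (nat_lit 958) (.e (nat_lit 98334) (nat_lit 18) (.e (nat_lit 164332) (nat_lit 230) (.e (nat_lit 163943) (nat_lit 19) (.e (nat_lit 483339) (nat_lit 9) .nil)))) .nil)))))) (.nd (nat_lit 3) (.nd (nat_lit 4) (.nd (nat_lit 5) (.nd (nat_lit 6) 
(.lf (nat_lit 223877) (.g (nat_lit 3355) (.e (nat_lit 98334) (nat_lit 18) (.e (nat_lit 164182) (nat_lit 154) (.e (nat_lit 57409) (nat_lit 12) (.e (nat_lit 336454) (nat_lit 34) (.e (nat_lit 483385) (nat_lit 23) .nil))))) .nil)) 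
(.lf (nat_lit 223941) (.g (nat_lit 2013) (.e (nat_lit 98334) (nat_lit 18) (.e (nat_lit 164330) (nat_lit 230) (.e (nat_lit 163902) (nat_lit 12) (.e (nat_lit 426567) (nat_lit 34) (.e (nat_lit 393269) (nat_lit 23) .nil))))) .nil))) (.nd (nat_lit 6) 
(.lf (nat_lit 223909) (.g (nat_lit 1617) (.e (nat_lit 98334) (nat_lit 18) (.e (nat_lit 164183) (nat_lit 154) (.e (nat_lit 57409) (nat_lit 12) (.e (nat_lit 336414) (nat_lit 27) (.e (nat_lit 426541) (nat_lit 29) .nil))))) .nil)) 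
(.lf (nat_lit 223973) (.g (nat_lit 2168) (.e (nat_lit 98334) (nat_lit 18) (.e (nat_lit 164332) (nat_lit 230) (.e (nat_lit 163905) (nat_lit 12) (.e (nat_lit 426131) (nat_lit 3) .nil)))) .nil)))) (.nd (nat_lit 5) (.nd (nat_lit 6) 
(.lf (nat_lit 223893) (.g (nat_lit 1862) (.e (nat_lit 98334) (nat_lit 18) (.e (nat_lit 164182) (nat_lit 154) (.e (nat_lit 57411) (nat_lit 12) (.e (nat_lit 336454) (nat_lit 34) (.e (nat_lit 483390) (nat_lit 23) .nil))))) .nil)) 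
(.lf (nat_lit 223957) (.g (nat_lit 2703) (.e (nat_lit 98334) (nat_lit 18) (.e (nat_lit 164332) (nat_lit 230) (.e (nat_lit 163874) (nat_lit 3) (.e (nat_lit 204809) (nat_lit 9) (.e (nat_lit 426139) (nat_lit 3) (.e (nat_lit 204817) (nat_lit 17) (.e (nat_lit 2198) (nat_lit 144) (.e (nat_lit 720945) (nat_lit 23) .nil)))))))) (.g (nat_lit 5) .nil .nil)))) (.nd (nat_lit 6) 
(.lf (nat_lit 223925) (.g (nat_lit 2498) (.e (nat_lit 98334) (nat_lit 18) (.e (nat_lit 164322) (nat_lit 230) (.e (nat_lit 163902) (nat_lit 12) (.e (nat_lit 426566) (nat_lit 34) (.e (nat_lit 393271) (nat_lit 23) .nil))))) .nil)) 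
(.lf (nat_lit 223989) (.g (nat_lit 1261) (.e (nat_lit 98334) (nat_lit 18) (.e (nat_lit 164332) (nat_lit 230) (.e (nat_lit 163941) (nat_lit 19) (.e (nat_lit 483339) (nat_lit 9) (.e (nat_lit 426225) (nat_lit 9) .nil))))) .nil))))) (.nd (nat_lit 4) (.nd (nat_lit 5) (.nd (nat_lit 6) 
(.lf (nat_lit 223885) (.g (nat_lit 3084) (.e (nat_lit 98334) (nat_lit 18) (.e (nat_lit 164182) (nat_lit 154) (.e (nat_lit 57411) (nat_lit 12) (.e (nat_lit 336367) (nat_lit 27) (.e (nat_lit 426555) (nat_lit 32) (.e (nat_lit 376867) (nat_lit 23) .nil)))))) (.g (nat_lit 0) .nil .nil))) 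
(.lf (nat_lit 223949) (.g (nat_lit 3154) (.e (nat_lit 98334) (nat_lit 18) (.e (nat_lit 164330) (nat_lit 230) (.e (nat_lit 163915) (nat_lit 12) (.e (nat_lit 426133) (nat_lit 3) (.e (nat_lit 204852) (nat_lit 26) (.e (nat_lit 336310) (nat_lit 16) (.e (nat_lit 164182) (nat_lit 154) (.e (nat_lit 57379) (nat_lit 3) .nil)))))))) (.g (nat_lit 4) .nil .nil)))) (.nd (nat_lit 6) 
(.lf (nat_lit 223917) (.g (nat_lit 1353) (.e (nat_lit 98334) (nat_lit 18) (.e (nat_lit 164183) (nat_lit 154) (.e (nat_lit 57411) (nat_lit 12) (.e (nat_lit 336379) (nat_lit 27) .nil)))) .nil)) 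
(.lf (nat_lit 223981) (.g (nat_lit 1484) (.e (nat_lit 98334) (nat_lit 18) (.e (nat_lit 164332) (nat_lit 230) (.e (nat_lit 163905) (nat_lit 12) (.e (nat_lit 426568) (nat_lit 34) (.e (nat_lit 393266) (nat_lit 23) .nil))))) .nil)))) (.nd (nat_lit 5) (.nd (nat_lit 6) 
(.lf (nat_lit 223901) (.g (nat_lit 2615) (.e (nat_lit 98334) (nat_lit 18) (.e (nat_lit 164182) (nat_lit 154) (.e (nat_lit 57447) (nat_lit 19) (.e (nat_lit 393225) (nat_lit 9) (.e (nat_lit 336091) (nat_lit 9) .nil))))) .nil)) 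
(.lf (nat_lit 223965) (.g (nat_lit 2857) (.e (nat_lit 98334) (nat_lit 18) (.e (nat_lit 164332) (nat_lit 230) (.e (nat_lit 163902) (nat_lit 12) (.e (nat_lit 426568) (nat_lit 34) (.e (nat_lit 393234) (nat_lit 17) (.e (nat_lit 7309) (nat_lit 388) (.e (nat_lit 108) (nat_lit 3) .nil))))))) (.g (nat_lit 4) .nil .nil)))) (.nd (nat_lit 6) 
(.lf (nat_lit 223933) (.g (nat_lit 4478) (.e (nat_lit 98334) (nat_lit 18) (.e (nat_lit 164330) (nat_lit 230) (.e (nat_lit 163869) (nat_lit 2) (.e (nat_lit 196656) (nat_lit 11) (.e (nat_lit 16416) (nat_lit 3) (.e (nat_lit 204817) (nat_lit 17) (.e (nat_lit 2198) (nat_lit 144) (.e (nat_lit 720945) (nat_lit 23) .nil)))))))) (.g (nat_lit 5) .nil .nil))) 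
(.lf (nat_lit 223997) (.g (nat_lit 2354) (.e (nat_lit 98334) (nat_lit 18) (.e (nat_lit 164396) (nat_lit 256) (.e (nat_lit 57371) (nat_lit 2) (.e (nat_lit 90174) (nat_lit 14) (.e (nat_lit 180243) (nat_lit 5) (.e (nat_lit 532508) (nat_lit 2) (.e (nat_lit 106526) (nat_lit 9) (.e (nat_lit 1246) (nat_lit 92) .nil)))))))) (.g (nat_lit 4) .nil .nil)))))))) 
(.nd (nat_lit 2) (.nd (nat_lit 3) (.nd (nat_lit 4) (.nd (nat_lit 5) (.nd (nat_lit 6) 
(.lf (nat_lit 223875) (.g (nat_lit 1787) (.e (nat_lit 98334) (nat_lit 18) (.e (nat_lit 164182) (nat_lit 154) (.e (nat_lit 57409) (nat_lit 12) (.e (nat_lit 336379) (nat_lit 27) (.e (nat_lit 426552) (nat_lit 32) .nil))))) .nil)) 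
(.lf (nat_lit 223939) (.g (nat_lit 1733) (.e (nat_lit 98334) (nat_lit 18) (.e (nat_lit 164330) (nat_lit 230) (.e (nat_lit 163902) (nat_lit 12) (.e (nat_lit 426564) (nat_lit 34) .nil)))) .nil))) (.nd (nat_lit 6) 
(.lf (nat_lit 223907) (.g (nat_lit 1540) (.e (nat_lit 98334) (nat_lit 18) (.e (nat_lit 164183) (nat_lit 154) (.e (nat_lit 57409) (nat_lit 12) (.e (nat_lit 336375) (nat_lit 27) .nil)))) .nil)) 
(.lf (nat_lit 223971) (.g (nat_lit 1860) (.e (nat_lit 98334) (nat_lit 18) (.e (nat_lit 164332) (nat_lit 230) (.e (nat_lit 163902) (nat_lit 12) (.e (nat_lit 426568) (nat_lit 34) (.e (nat_lit 393275) (nat_lit 23) .nil))))) .nil)))) (.nd (nat_lit 5) (.nd (nat_lit 6) 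
(.lf (nat_lit 223891) (.g (nat_lit 2095) (.e (nat_lit 98334) (nat_lit 18) (.e (nat_lit 164182) (nat_lit 154) (.e (nat_lit 57411) (nat_lit 12) (.e (nat_lit 336414) (nat_lit 27) (.e (nat_lit 426541) (nat_lit 29) .nil))))) .nil)) 
(.lf (nat_lit 223955) (.g (nat_lit 2915) (.e (nat_lit 98334) (nat_lit 18) (.e (nat_lit 164332) (nat_lit 230) (.e (nat_lit 163869) (nat_lit 2) (.e (nat_lit 196654) (nat_lit 11) (.e (nat_lit 16416) (nat_lit 3) .nil))))) .nil))) (.nd (nat_lit 6) 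
(.lf (nat_lit 223923) (.g (nat_lit 1684) (.e (nat_lit 98334) (nat_lit 18) (.e (nat_lit 164183) (nat_lit 154) (.e (nat_lit 57447) (nat_lit 19) (.e (nat_lit 393229) (nat_lit 9) (.e (nat_lit 336085) (nat_lit 9) .nil))))) .nil)) 
(.lf (nat_lit 223987) (.g (nat_lit 1999) (.e (nat_lit 98334) (nat_lit 18) (.e (nat_lit 164332) (nat_lit 230) (.e (nat_lit 163941) (nat_lit 19) (.e (nat_lit 483333) (nat_lit 0) (.e (nat_lit 7086) (nat_lit 379) .nil))))) .nil))))) (.nd (nat_lit 4) (.nd (nat_lit 5) (.nd (nat_lit 6) 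
(.lf (nat_lit 223883) (.g (nat_lit 1681) (.e (nat_lit 98334) (nat_lit 18) (.e (nat_lit 164182) (nat_lit 154) (.e (nat_lit 57411) (nat_lit 12) (.e (nat_lit 336240) (nat_lit 15) .nil)))) .nil)) 
(.lf (nat_lit 223947) (.g (nat_lit 1891) (.e (nat_lit 98334) (nat_lit 18) (.e (nat_lit 164330) (nat_lit 230) (.e (nat_lit 163905) (nat_lit 12) (.e (nat_lit 426568) (nat_lit 34) (.e (nat_lit 393279) (nat_lit 23) .nil))))) .nil))) (.nd (nat_lit 6) 
(.lf (nat_lit 223915) (.g (nat_lit 2573) (.e (nat_lit 98334) (nat_lit 18) (.e (nat_lit 164183) (nat_lit 154) (.e (nat_lit 57411) (nat_lit 12) (.e (nat_lit 336367) (nat_lit 27) (.e (nat_lit 426555) (nat_lit 32) (.e (nat_lit 376867) (nat_lit 23) .nil)))))) (.g (nat_lit 0) .nil .nil))) 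
(.lf (nat_lit 223979) (.g (nat_lit 3047) (.e (nat_lit 98334) (nat_lit 18) (.e (nat_lit 164332) (nat_lit 230) (.e (nat_lit 163905) (nat_lit 12) (.e (nat_lit 426568) (nat_lit 34) (.e (nat_lit 393234) (nat_lit 17) (.e (nat_lit 7309) (nat_lit 388) (.e (nat_lit 112) (nat_lit 3) .nil))))))) (.g (nat_lit 5) .nil .nil))))) (.nd (nat_lit 5) (.nd (nat_lit 6) 
(.lf (nat_lit 223899) (.g (nat_lit 1698) (.e (nat_lit 98334) (nat_lit 18) (.e (nat_lit 164182) (nat_lit 154) (.e (nat_lit 57417) (nat_lit 12) (.e (nat_lit 336371) (nat_lit 27) (.e (nat_lit 426555) (nat_lit 32) .nil))))) .nil)) 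
(.lf (nat_lit 223963) (.g (nat_lit 2047) (.e (nat_lit 98334) (nat_lit 18) (.e (nat_lit 164332) (nat_lit 230) (.e (nat_lit 163874) (nat_lit 3) (.e (nat_lit 204838) (nat_lit 20) (.e (nat_lit 114717) (nat_lit 23) .nil))))) .nil))) (.nd (nat_lit 6) 
(.lf (nat_lit 223931) (.g (nat_lit 634) (.e (nat_lit 98334) (nat_lit 18) (.e (nat_lit 164330) (nat_lit 230) (.e (nat_lit 163869) (nat_lit 2) .nil))) .nil)) 
(.lf (nat_lit 223995) (.g (nat_lit 2916) (.e (nat_lit 98334) (nat_lit 18) (.e (nat_lit 164396) (nat_lit 256) (.e (nat_lit 57371) (nat_lit 2) (.e (nat_lit 90172) (nat_lit 14) (.e (nat_lit 180244) (nat_lit 5) (.e (nat_lit 532513) (nat_lit 3) (.e (nat_lit 114717) (nat_lit 23) .nil))))))) (.g (nat_lit 5) .nil .nil))))))) (.nd (nat_lit 3) (.nd (nat_lit 4) (.nd (nat_lit 5) (.nd (nat_lit 6) 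
(.lf (nat_lit 223879) (.g (nat_lit 2683) (.e (nat_lit 98334) (nat_lit 18) (.e (nat_lit 164182) (nat_lit 154) (.e (nat_lit 57409) (nat_lit 12) (.e (nat_lit 336456) (nat_lit 34) (.e (nat_lit 483393) (nat_lit 23) (.e (nat_lit 336020) (nat_lit 3) .nil)))))) (.g (nat_lit 4) .nil .nil))) 
(.lf (nat_lit 223943) (.g (nat_lit 3345) (.e (nat_lit 98334) (nat_lit 18) (.e (nat_lit 164330) (nat_lit 230) (.e (nat_lit 163902) (nat_lit 12) (.e (nat_lit 426568) (nat_lit 34) (.e (nat_lit 393279) (nat_lit 23) (.e (nat_lit 426435) (nat_lit 18) .nil)))))) (.g (nat_lit 4) .nil .nil)))) (.nd (nat_lit 6) 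
(.lf (nat_lit 223911) (.g (nat_lit 2120) (.e (nat_lit 98334) (nat_lit 18) (.e (nat_lit 164183) (nat_lit 154) (.e (nat_lit 57409) (nat_lit 12) (.e (nat_lit 336414) (nat_lit 27) (.e (nat_lit 426554) (nat_lit 32) (.e (nat_lit 376867) (nat_lit 23) .nil)))))) (.g (nat_lit 4) .nil .nil))) 
(.lf (nat_lit 223975) (.g (nat_lit 1640) (.e (nat_lit 98334) (nat_lit 18) (.e (nat_lit 164332) (nat_lit 230) (.e (nat_lit 163905) (nat_lit 12) (.e (nat_lit 426564) (nat_lit 34) .nil)))) .nil)))) (.nd (nat_lit 5) (.nd (nat_lit 6) 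
(.lf (nat_lit 223895) (.g (nat_lit 2743) (.e (nat_lit 98334) (nat_lit 18) (.e (nat_lit 164182) (nat_lit 154) (.e (nat_lit 57411) (nat_lit 12) (.e (nat_lit 336456) (nat_lit 34) (.e (nat_lit 483386) (nat_lit 23) (.e (nat_lit 336020) (nat_lit 3) .nil)))))) (.g (nat_lit 4) .nil .nil))) 
(.lf (nat_lit 223959) (.g (nat_lit 2453) (.e (nat_lit 98334) (nat_lit 18) (.e (nat_lit 164332) (nat_lit 230) (.e (nat_lit 163874) (nat_lit 3) (.e (nat_lit 204818) (nat_lit 17) .nil)))) .nil))) (.nd (nat_lit 6) 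
(.lf (nat_lit 223927) (.g (nat_lit 2571) (.e (nat_lit 98334) (nat_lit 18) (.e (nat_lit 164322) (nat_lit 230) (.e (nat_lit 163902) (nat_lit 12) (.e (nat_lit 426568) (nat_lit 34) (.e (nat_lit 393279) (nat_lit 23) .nil))))) .nil)) 
(.lf (nat_lit 223991) (.g (nat_lit 1511) (.e (nat_lit 98334) (nat_lit 18) (.e (nat_lit 164332) (nat_lit 230) (.e (nat_lit 163943) (nat_lit 19) (.e (nat_lit 483332) (nat_lit 0) .nil)))) .nil))))) (.nd (nat_lit 4) (.nd (nat_lit 5) (.nd (nat_lit 6) 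
(.lf (nat_lit 223887) (.g (nat_lit 1471) (.e (nat_lit 98334) (nat_lit 18) (.e (nat_lit 164182) (nat_lit 154) (.e (nat_lit 57411) (nat_lit 12) (.e (nat_lit 336372) (nat_lit 27) .nil)))) .nil)) 
(.lf (nat_lit 223951) (.g (nat_lit 807) (.e (nat_lit 98334) (nat_lit 18) (.e (nat_lit 164330) (nat_lit 230) (.e (nat_lit 163938) (nat_lit 18) .nil))) .nil))) (.nd (nat_lit 6) 
(.lf (nat_lit 223919) (.g (nat_lit 2047) (.e (nat_lit 98334) (nat_lit 18) (.e (nat_lit 164183) (nat_lit 154) (.e (nat_lit 57411) (nat_lit 12) (.e (nat_lit 336414) (nat_lit 27) (.e (nat_lit 426554) (nat_lit 32) .nil))))) .nil)) 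
(.lf (nat_lit 223983) (.g (nat_lit 1235) (.e (nat_lit 98334) (nat_lit 18) (.e (nat_lit 164332) (nat_lit 230) (.e (nat_lit 163905) (nat_lit 12) (.e (nat_lit 426568) (nat_lit 34) (.e (nat_lit 393279) (nat_lit 23) (.e (nat_lit 433920) (nat_lit 18) .nil)))))) (.g (nat_lit 4) .nil .nil))))) (.nd (nat_lit 5) (.nd (nat_lit 6) 
(.lf (nat_lit 223903) (.g (nat_lit 2653) (.e (nat_lit 98334) (nat_lit 18) (.e (nat_lit 164182) (nat_lit 154) (.e (nat_lit 57448) (nat_lit 19) (.e (nat_lit 393225) (nat_lit 9) (.e (nat_lit 336091) (nat_lit 9) (.e (nat_lit 336020) (nat_lit 3) .nil)))))) (.g (nat_lit 4) .nil .nil))) 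
(.lf (nat_lit 223967) (.g (nat_lit 3582) (.e (nat_lit 98334) (nat_lit 18) (.e (nat_lit 164332) (nat_lit 230) (.e (nat_lit 163902) (nat_lit 12) (.e (nat_lit 426568) (nat_lit 34) (.e (nat_lit 393234) (nat_lit 17) (.e (nat_lit 7310) (nat_lit 388) (.e (nat_lit 112) (nat_lit 3) .nil))))))) (.g (nat_lit 5) .nil .nil)))) (.nd (nat_lit 6) 
(.lf (nat_lit 223935) (.g (nat_lit 2028) (.e (nat_lit 98334) (nat_lit 18) (.e (nat_lit 164330) (nat_lit 230) (.e (nat_lit 163872) (nat_lit 3) (.e (nat_lit 204838) (nat_lit 20) (.e (nat_lit 114717) (nat_lit 23) .nil))))) .nil)) 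
(.lf (nat_lit 223999) (.g (nat_lit 3641) (.e (nat_lit 98334) (nat_lit 18) (.e (nat_lit 164396) (nat_lit 256) (.e (nat_lit 57371) (nat_lit 2) (.e (nat_lit 90174) (nat_lit 14) (.e (nat_lit 180243) (nat_lit 5) (.e (nat_lit 532513) (nat_lit 3) (.e (nat_lit 114717) (nat_lit 23) .nil))))))) (.g (nat_lit 6) .nil .nil))))))))))

noncomputable def tv2937 : DT := (.nd (nat_lit 0) (.nd (nat_lit 1) (.nd (nat_lit 2) (.nd (nat_lit 3) (.nd (nat_lit 4) (.nd (nat_lit 5) 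
(.lf (nat_lit 224000) (.g (nat_lit 3603) (.e (nat_lit 98334) (nat_lit 18) (.e (nat_lit 164396) (nat_lit 256) (.e (nat_lit 57371) (nat_lit 2) (.e (nat_lit 90174) (nat_lit 14) (.e (nat_lit 180243) (nat_lit 5) (.e (nat_lit 532515) (nat_lit 3) (.e (nat_lit 114717) (nat_lit 23) .nil))))))) (.g (nat_lit 6) .nil .nil))) 
(.lf (nat_lit 224032) (.g (nat_lit 4046) (.e (nat_lit 98334) (nat_lit 18) (.e (nat_lit 164398) (nat_lit 256) (.e (nat_lit 57372) (nat_lit 2) (.e (nat_lit 90174) (nat_lit 14) (.e (nat_lit 180243) (nat_lit 5) (.e (nat_lit 532508) (nat_lit 2) (.e (nat_lit 106526) (nat_lit 9) (.e (nat_lit 1254) (nat_lit 92) .nil)))))))) (.g (nat_lit 5) .nil .nil)))) (.nd (nat_lit 5) 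
(.lf (nat_lit 224016) (.g (nat_lit 3322) (.e (nat_lit 98334) (nat_lit 18) (.e (nat_lit 164398) (nat_lit 256) (.e (nat_lit 57371) (nat_lit 2) (.e (nat_lit 90174) (nat_lit 14) (.e (nat_lit 180243) (nat_lit 5) (.e (nat_lit 532508) (nat_lit 2) (.e (nat_lit 106517) (nat_lit 9) (.e (nat_lit 1255) (nat_lit 92) .nil)))))))) (.g (nat_lit 4) .nil .nil))) 
(.lf (nat_lit 224048) (.g (nat_lit 3672) (.e (nat_lit 98334) (nat_lit 18) (.e (nat_lit 164398) (nat_lit 256) (.e (nat_lit 57373) (nat_lit 2) (.e (nat_lit 90174) (nat_lit 14) (.e (nat_lit 180243) (nat_lit 5) (.e (nat_lit 532484) (nat_lit 0) (.e (nat_lit 2198) (nat_lit 144) (.e (nat_lit 720945) (nat_lit 23) .nil)))))))) (.g (nat_lit 5) .nil .nil))))) (.nd (nat_lit 4) (.nd (nat_lit 5) 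
(.lf (nat_lit 224008) (.g (nat_lit 3398) (.e (nat_lit 98334) (nat_lit 18) (.e (nat_lit 164397) (nat_lit 256) (.e (nat_lit 57375) (nat_lit 2) (.e (nat_lit 90172) (nat_lit 14) (.e (nat_lit 180244) (nat_lit 5) (.e (nat_lit 532508) (nat_lit 2) (.e (nat_lit 106517) (nat_lit 9) (.e (nat_lit 1255) (nat_lit 92) .nil)))))))) (.g (nat_lit 5) .nil .nil))) 
(.lf (nat_lit 224040) (.g (nat_lit 3128) (.e (nat_lit 98334) (nat_lit 18) (.e (nat_lit 164398) (nat_lit 256) (.e (nat_lit 57373) (nat_lit 2) (.e (nat_lit 90172) (nat_lit 14) (.e (nat_lit 180243) (nat_lit 5) (.e (nat_lit 532508) (nat_lit 2) (.e (nat_lit 106526) (nat_lit 9) (.e (nat_lit 1254) (nat_lit 92) .nil)))))))) (.g (nat_lit 4) .nil .nil)))) (.nd (nat_lit 5) 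
(.lf (nat_lit 224024) (.g (nat_lit 3610) (.e (nat_lit 98334) (nat_lit 18) (.e (nat_lit 164398) (nat_lit 256) (.e (nat_lit 57372) (nat_lit 2) (.e (nat_lit 90172) (nat_lit 14) (.e (nat_lit 180243) (nat_lit 5) (.e (nat_lit 532508) (nat_lit 2) (.e (nat_lit 106526) (nat_lit 9) (.e (nat_lit 1246) (nat_lit 92) .nil)))))))) (.g (nat_lit 4) .nil .nil))) 
(.lf (nat_lit 224056) (.g (nat_lit 3995) (.e (nat_lit 98334) (nat_lit 18) (.e (nat_lit 164398) (nat_lit 256) (.e (nat_lit 57373) (nat_lit 2) (.e (nat_lit 90174) (nat_lit 14) (.e (nat_lit 180243) (nat_lit 5) (.e (nat_lit 532508) (nat_lit 2) (.e (nat_lit 106523) (nat_lit 9) (.e (nat_lit 1254) (nat_lit 92) .nil)))))))) (.g (nat_lit 5) .nil .nil)))))) 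
(.nd (nat_lit 3) (.nd (nat_lit 4) (.nd (nat_lit 5) 
(.lf (nat_lit 224004) (.g (nat_lit 2781) (.e (nat_lit 98334) (nat_lit 18) (.e (nat_lit 164397) (nat_lit 256) (.e (nat_lit 57371) (nat_lit 2) (.e (nat_lit 90172) (nat_lit 14) (.e (nat_lit 180244) (nat_lit 5) (.e (nat_lit 532508) (nat_lit 2) (.e (nat_lit 106517) (nat_lit 9) (.e (nat_lit 1255) (nat_lit 92) .nil)))))))) (.g (nat_lit 4) .nil .nil))) 
(.lf (nat_lit 224036) (.g (nat_lit 2494) (.e (nat_lit 98334) (nat_lit 18) (.e (nat_lit 164398) (nat_lit 256) (.e (nat_lit 57373) (nat_lit 2) (.e (nat_lit 90170) (nat_lit 13) (.e (nat_lit 172067) (nat_lit 3) (.e (nat_lit 204834) (nat_lit 19) (.e (nat_lit 106517) (nat_lit 9) (.e (nat_lit 1255) (nat_lit 92) .nil)))))))) (.g (nat_lit 4) .nil .nil)))) (.nd (nat_lit 5) 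
(.lf (nat_lit 224020) (.g (nat_lit 3188) (.e (nat_lit 98334) (nat_lit 18) (.e (nat_lit 164398) (nat_lit 256) (.e (nat_lit 57371) (nat_lit 2) (.e (nat_lit 90174) (nat_lit 14) (.e (nat_lit 180243) (nat_lit 5) (.e (nat_lit 532515) (nat_lit 3) (.e (nat_lit 114717) (nat_lit 23) .nil))))))) (.g (nat_lit 4) .nil .nil))) 
(.lf (nat_lit 224052) (.g (nat_lit 2865) (.e (nat_lit 98334) (nat_lit 18) (.e (nat_lit 164398) (nat_lit 256) (.e (nat_lit 57373) (nat_lit 2) (.e (nat_lit 90174) (nat_lit 14) (.e (nat_lit 180243) (nat_lit 5) (.e (nat_lit 532508) (nat_lit 2) (.e (nat_lit 106504) (nat_lit 9) (.e (nat_lit 1256) (nat_lit 92) .nil)))))))) (.g (nat_lit 4) .nil .nil))))) (.nd (nat_lit 4) (.nd (nat_lit 5) 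
(.lf (nat_lit 224012) (.g (nat_lit 2416) (.e (nat_lit 98334) (nat_lit 18) (.e (nat_lit 164398) (nat_lit 256) (.e (nat_lit 57370) (nat_lit 2) (.e (nat_lit 90170) (nat_lit 13) (.e (nat_lit 172065) (nat_lit 3) .nil))))) .nil)) 
(.lf (nat_lit 224044) (.g (nat_lit 3336) (.e (nat_lit 98334) (nat_lit 18) (.e (nat_lit 164398) (nat_lit 256) (.e (nat_lit 57373) (nat_lit 2) (.e (nat_lit 90172) (nat_lit 14) (.e (nat_lit 180244) (nat_lit 5) (.e (nat_lit 532508) (nat_lit 2) (.e (nat_lit 106526) (nat_lit 9) (.e (nat_lit 1246) (nat_lit 92) .nil)))))))) (.g (nat_lit 4) .nil .nil)))) (.nd (nat_lit 5) 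
(.lf (nat_lit 224028) (.g (nat_lit 3899) (.e (nat_lit 98334) (nat_lit 18) (.e (nat_lit 164398) (nat_lit 256) (.e (nat_lit 57372) (nat_lit 2) (.e (nat_lit 90172) (nat_lit 14) (.e (nat_lit 180244) (nat_lit 5) (.e (nat_lit 532513) (nat_lit 3) (.e (nat_lit 114717) (nat_lit 23) .nil))))))) (.g (nat_lit 5) .nil .nil))) 
(.lf (nat_lit 224060) (.g (nat_lit 2534) (.e (nat_lit 98334) (nat_lit 18) (.e (nat_lit 164398) (nat_lit 256) (.e (nat_lit 57373) (nat_lit 2) (.e (nat_lit 90174) (nat_lit 14) (.e (nat_lit 180243) (nat_lit 5) (.e (nat_lit 532508) (nat_lit 2) (.e (nat_lit 106526) (nat_lit 9) (.e (nat_lit 1247) (nat_lit 92) .nil)))))))) (.g (nat_lit 4) .nil .nil))))))) 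
(.nd (nat_lit 2) (.nd (nat_lit 3) (.nd (nat_lit 4) (.nd (nat_lit 5) 
(.lf (nat_lit 224002) (.g (nat_lit 2429) (.e (nat_lit 98334) (nat_lit 18) (.e (nat_lit 164396) (nat_lit 256) (.e (nat_lit 57379) (nat_lit 3) (.e (nat_lit 98356) (nat_lit 26) (.e (nat_lit 426131) (nat_lit 3) .nil))))) .nil)) 
(.lf (nat_lit 224034) (.g (nat_lit 3564) (.e (nat_lit 98334) (nat_lit 18) (.e (nat_lit 164398) (nat_lit 256) (.e (nat_lit 57372) (nat_lit 2) (.e (nat_lit 90174) (nat_lit 14) (.e (nat_lit 180243) (nat_lit 5) (.e (nat_lit 532515) (nat_lit 3) (.e (nat_lit 114717) (nat_lit 23) .nil))))))) (.g (nat_lit 5) .nil .nil)))) (.nd (nat_lit 5) 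
(.lf (nat_lit 224018) (.g (nat_lit 3493) (.e (nat_lit 98334) (nat_lit 18) (.e (nat_lit 164398) (nat_lit 256) (.e (nat_lit 57371) (nat_lit 2) (.e (nat_lit 90174) (nat_lit 14) (.e (nat_lit 180243) (nat_lit 5) (.e (nat_lit 532508) (nat_lit 2) (.e (nat_lit 106526) (nat_lit 9) (.e (nat_lit 1254) (nat_lit 92) .nil)))))))) (.g (nat_lit 4) .nil .nil))) 
(.lf (nat_lit 224050) (.g (nat_lit 3700) (.e (nat_lit 98334) (nat_lit 18) (.e (nat_lit 164398) (nat_lit 256) (.e (nat_lit 57373) (nat_lit 2) (.e (nat_lit 90174) (nat_lit 14) (.e (nat_lit 180243) (nat_lit 5) (.e (nat_lit 532508) (nat_lit 2) (.e (nat_lit 106504) (nat_lit 9) (.e (nat_lit 1251) (nat_lit 92) .nil)))))))) (.g (nat_lit 5) .nil .nil))))) (.nd (nat_lit 4) (.nd (nat_lit 5) 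
(.lf (nat_lit 224010) (.g (nat_lit 2496) (.e (nat_lit 98334) (nat_lit 18) (.e (nat_lit 164397) (nat_lit 256) (.e (nat_lit 57375) (nat_lit 2) (.e (nat_lit 90174) (nat_lit 14) (.e (nat_lit 180243) (nat_lit 5) (.e (nat_lit 532515) (nat_lit 3) (.e (nat_lit 114717) (nat_lit 23) .nil))))))) (.g (nat_lit 4) .nil .nil))) 
(.lf (nat_lit 224042) (.g (nat_lit 3293) (.e (nat_lit 98334) (nat_lit 18) (.e (nat_lit 164398) (nat_lit 256) (.e (nat_lit 57373) (nat_lit 2) (.e (nat_lit 90172) (nat_lit 14) (.e (nat_lit 180243) (nat_lit 5) (.e (nat_lit 532515) (nat_lit 3) (.e (nat_lit 114719) (nat_lit 23) .nil))))))) (.g (nat_lit 4) .nil .nil)))) (.nd (nat_lit 5) 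
(.lf (nat_lit 224026) (.g (nat_lit 3477) (.e (nat_lit 98334) (nat_lit 18) (.e (nat_lit 164398) (nat_lit 256) (.e (nat_lit 57372) (nat_lit 2) (.e (nat_lit 90172) (nat_lit 14) (.e (nat_lit 180243) (nat_lit 5) (.e (nat_lit 532515) (nat_lit 3) (.e (nat_lit 114717) (nat_lit 23) .nil))))))) (.g (nat_lit 4) .nil .nil))) 
(.lf (nat_lit 224058) (.g (nat_lit 3096) (.e (nat_lit 98334) (nat_lit 18) (.e (nat_lit 164398) (nat_lit 256) (.e (nat_lit 57373) (nat_lit 2) (.e (nat_lit 90174) (nat_lit 14) (.e (nat_lit 180243) (nat_lit 5) (.e (nat_lit 532508) (nat_lit 2) (.e (nat_lit 106525) (nat_lit 9) (.e (nat_lit 1252) (nat_lit 92) .nil)))))))) (.g (nat_lit 4) .nil .nil)))))) 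
(.nd (nat_lit 3) (.nd (nat_lit 4) (.nd (nat_lit 5) 
(.lf (nat_lit 224006) (.g (nat_lit 3934) (.e (nat_lit 98334) (nat_lit 18) (.e (nat_lit 164397) (nat_lit 256) (.e (nat_lit 57374) (nat_lit 2) (.e (nat_lit 90170) (nat_lit 13) (.e (nat_lit 172065) (nat_lit 3) (.e (nat_lit 204834) (nat_lit 19) (.e (nat_lit 106517) (nat_lit 9) (.e (nat_lit 1255) (nat_lit 92) .nil)))))))) (.g (nat_lit 5) .nil .nil))) 
(.lf (nat_lit 224038) (.g (nat_lit 2686) (.e (nat_lit 98334) (nat_lit 18) (.e (nat_lit 164398) (nat_lit 256) (.e (nat_lit 57373) (nat_lit 2) (.e (nat_lit 90172) (nat_lit 14) (.e (nat_lit 180243) (nat_lit 5) (.e (nat_lit 532508) (nat_lit 2) (.e (nat_lit 106517) (nat_lit 9) (.e (nat_lit 1255) (nat_lit 92) .nil)))))))) (.g (nat_lit 4) .nil .nil)))) (.nd (nat_lit 5) 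
(.lf (nat_lit 224022) (.g (nat_lit 2484) (.e (nat_lit 98334) (nat_lit 18) (.e (nat_lit 164398) (nat_lit 256) (.e (nat_lit 57372) (nat_lit 2) (.e (nat_lit 90172) (nat_lit 14) (.e (nat_lit 180243) (nat_lit 5) .nil))))) .nil)) 
(.lf (nat_lit 224054) (.g (nat_lit 2910) (.e (nat_lit 98334) (nat_lit 18) (.e (nat_lit 164398) (nat_lit 256) (.e (nat_lit 57373) (nat_lit 2) (.e (nat_lit 90174) (nat_lit 14) (.e (nat_lit 180243) (nat_lit 5) (.e (nat_lit 532508) (nat_lit 2) (.e (nat_lit 106522) (nat_lit 9) (.e (nat_lit 1252) (nat_lit 92) .nil)))))))) (.g (nat_lit 4) .nil .nil))))) (.nd (nat_lit 4) (.nd (nat_lit 5) 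
(.lf (nat_lit 224014) (.g (nat_lit 2209) (.e (nat_lit 98334) (nat_lit 18) (.e (nat_lit 164398) (nat_lit 256) (.e (nat_lit 57371) (nat_lit 2) (.e (nat_lit 90172) (nat_lit 14) (.e (nat_lit 180244) (nat_lit 5) .nil))))) .nil)) 
(.lf (nat_lit 224046) (.g (nat_lit 3631) (.e (nat_lit 98334) (nat_lit 18) (.e (nat_lit 164398) (nat_lit 256) (.e (nat_lit 57373) (nat_lit 2) (.e (nat_lit 90172) (nat_lit 14) (.e (nat_lit 180244) (nat_lit 5) (.e (nat_lit 532508) (nat_lit 2) (.e (nat_lit 106526) (nat_lit 9) (.e (nat_lit 1254) (nat_lit 92) .nil)))))))) (.g (nat_lit 5) .nil .nil)))) (.nd (nat_lit 5) 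
(.lf (nat_lit 224030) (.g (nat_lit 3745) (.e (nat_lit 98334) (nat_lit 18) (.e (nat_lit 164398) (nat_lit 256) (.e (nat_lit 57372) (nat_lit 2) (.e (nat_lit 90174) (nat_lit 14) (.e (nat_lit 180243) (nat_lit 5) (.e (nat_lit 532508) (nat_lit 2) (.e (nat_lit 106517) (nat_lit 9) (.e (nat_lit 1255) (nat_lit 92) .nil)))))))) (.g (nat_lit 5) .nil .nil))) 
(.lf (nat_lit 224062) (.g (nat_lit 2841) (.e (nat_lit 98334) (nat_lit 18) (.e (nat_lit 164398) (nat_lit 256) (.e (nat_lit 57373) (nat_lit 2) (.e (nat_lit 90174) (nat_lit 14) (.e (nat_lit 180243) (nat_lit 5) (.e (nat_lit 532508) (nat_lit 2) (.e (nat_lit 114432) (nat_lit 9) (.e (nat_lit 1250) (nat_lit 92) .nil)))))))) (.g (nat_lit 4) .nil .nil)))))))) 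
(.nd (nat_lit 1) (.nd (nat_lit 2) (.nd (nat_lit 3) (.nd (nat_lit 4) (.nd (nat_lit 5) 
(.lf (nat_lit 224001) (.g (nat_lit 1735) (.e (nat_lit 98334) (nat_lit 18) (.e (nat_lit 164396) (nat_lit 256) (.e (nat_lit 57371) (nat_lit 2) (.e (nat_lit 90174) (nat_lit 14) (.e (nat_lit 180245) (nat_lit 5) .nil))))) .nil)) 
(.lf (nat_lit 224033) (.g (nat_lit 3614) (.e (nat_lit 98334) (nat_lit 18) (.e (nat_lit 164398) (nat_lit 256) (.e (nat_lit 57372) (nat_lit 2) (.e (nat_lit 90174) (nat_lit 14) (.e (nat_lit 180243) (nat_lit 5) (.e (nat_lit 532513) (nat_lit 3) (.e (nat_lit 114717) (nat_lit 23) .nil))))))) (.g (nat_lit 5) .nil .nil)))) (.nd (nat_lit 5) 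
(.lf (nat_lit 224017) (.g (nat_lit 3725) (.e (nat_lit 98334) (nat_lit 18) (.e (nat_lit 164398) (nat_lit 256) (.e (nat_lit 57371) (nat_lit 2) (.e (nat_lit 90174) (nat_lit 14) (.e (nat_lit 180243) (nat_lit 5) (.e (nat_lit 532508) (nat_lit 2) (.e (nat_lit 106526) (nat_lit 9) (.e (nat_lit 1252) (nat_lit 92) .nil)))))))) (.g (nat_lit 4) .nil .nil))) 
(.lf (nat_lit 224049) (.g (nat_lit 2905) (.e (nat_lit 98334) (nat_lit 18) (.e (nat_lit 164398) (nat_lit 256) (.e (nat_lit 57373) (nat_lit 2) (.e (nat_lit 90174) (nat_lit 14) (.e (nat_lit 180243) (nat_lit 5) (.e (nat_lit 532506) (nat_lit 2) (.e (nat_lit 106523) (nat_lit 9) (.e (nat_lit 1254) (nat_lit 92) .nil)))))))) (.g (nat_lit 4) .nil .nil))))) (.nd (nat_lit 4) (.nd (nat_lit 5) 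
(.lf (nat_lit 224009) (.g (nat_lit 3134) (.e (nat_lit 98334) (nat_lit 18) (.e (nat_lit 164397) (nat_lit 256) (.e (nat_lit 57375) (nat_lit 2) (.e (nat_lit 90172) (nat_lit 14) (.e (nat_lit 180244) (nat_lit 5) (.e (nat_lit 532513) (nat_lit 3) (.e (nat_lit 114717) (nat_lit 23) .nil))))))) (.g (nat_lit 5) .nil .nil))) 
(.lf (nat_lit 224041) (.g (nat_lit 3037) (.e (nat_lit 98334) (nat_lit 18) (.e (nat_lit 164398) (nat_lit 256) (.e (nat_lit 57373) (nat_lit 2) (.e (nat_lit 90172) (nat_lit 14) (.e (nat_lit 180243) (nat_lit 5) (.e (nat_lit 532515) (nat_lit 3) (.e (nat_lit 114718) (nat_lit 23) .nil))))))) (.g (nat_lit 4) .nil .nil)))) (.nd (nat_lit 5) 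
(.lf (nat_lit 224025) (.g (nat_lit 3905) (.e (nat_lit 98334) (nat_lit 18) (.e (nat_lit 164398) (nat_lit 256) (.e (nat_lit 57372) (nat_lit 2) (.e (nat_lit 90172) (nat_lit 14) (.e (nat_lit 180243) (nat_lit 5) (.e (nat_lit 532508) (nat_lit 2) (.e (nat_lit 106526) (nat_lit 9) (.e (nat_lit 1254) (nat_lit 92) .nil)))))))) (.g (nat_lit 4) .nil .nil))) 
(.lf (nat_lit 224057) (.g (nat_lit 2594) (.e (nat_lit 98334) (nat_lit 18) (.e (nat_lit 164398) (nat_lit 256) (.e (nat_lit 57373) (nat_lit 2) (.e (nat_lit 90174) (nat_lit 14) (.e (nat_lit 180243) (nat_lit 5) (.e (nat_lit 532508) (nat_lit 2) (.e (nat_lit 106524) (nat_lit 9) (.e (nat_lit 1254) (nat_lit 92) .nil)))))))) (.g (nat_lit 4) .nil .nil)))))) 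
(.nd (nat_lit 3) (.nd (nat_lit 4) (.nd (nat_lit 5) 
(.lf (nat_lit 224005) (.g (nat_lit 3635) (.e (nat_lit 98334) (nat_lit 18) (.e (nat_lit 164397) (nat_lit 256) (.e (nat_lit 57371) (nat_lit 2) (.e (nat_lit 90174) (nat_lit 14) (.e (nat_lit 180243) (nat_lit 5) (.e (nat_lit 532508) (nat_lit 2) (.e (nat_lit 106517) (nat_lit 9) (.e (nat_lit 1255) (nat_lit 92) .nil)))))))) (.g (nat_lit 5) .nil .nil))) 
(.lf (nat_lit 224037) (.g (nat_lit 3493) (.e (nat_lit 98334) (nat_lit 18) (.e (nat_lit 164398) (nat_lit 256) (.e (nat_lit 57373) (nat_lit 2) (.e (nat_lit 90170) (nat_lit 13) (.e (nat_lit 172067) (nat_lit 3) (.e (nat_lit 204838) (nat_lit 20) (.e (nat_lit 114717) (nat_lit 23) .nil))))))) (.g (nat_lit 5) .nil .nil)))) (.nd (nat_lit 5) 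
(.lf (nat_lit 224021) (.g (nat_lit 1440) (.e (nat_lit 98334) (nat_lit 18) (.e (nat_lit 164398) (nat_lit 256) (.e (nat_lit 57372) (nat_lit 2) (.e (nat_lit 90172) (nat_lit 14) .nil)))) .nil)) 
(.lf (nat_lit 224053) (.g (nat_lit 3599) (.e (nat_lit 98334) (nat_lit 18) (.e (nat_lit 164398) (nat_lit 256) (.e (nat_lit 57373) (nat_lit 2) (.e (nat_lit 90174) (nat_lit 14) (.e (nat_lit 180243) (nat_lit 5) (.e (nat_lit 532508) (nat_lit 2) (.e (nat_lit 106520) (nat_lit 9) (.e (nat_lit 1254) (nat_lit 92) .nil)))))))) (.g (nat_lit 5) .nil .nil))))) (.nd (nat_lit 4) (.nd (nat_lit 5) 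
(.lf (nat_lit 224013) (.g (nat_lit 2400) (.e (nat_lit 98334) (nat_lit 18) (.e (nat_lit 164398) (nat_lit 256) (.e (nat_lit 57371) (nat_lit 2) (.e (nat_lit 90172) (nat_lit 14) (.e (nat_lit 180243) (nat_lit 5) .nil))))) .nil)) 
(.lf (nat_lit 224045) (.g (nat_lit 3863) (.e (nat_lit 98334) (nat_lit 18) (.e (nat_lit 164398) (nat_lit 256) (.e (nat_lit 57373) (nat_lit 2) (.e (nat_lit 90172) (nat_lit 14) (.e (nat_lit 180244) (nat_lit 5) (.e (nat_lit 532508) (nat_lit 2) (.e (nat_lit 106526) (nat_lit 9) (.e (nat_lit 1252) (nat_lit 92) .nil)))))))) (.g (nat_lit 5) .nil .nil)))) (.nd (nat_lit 5) 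
(.lf (nat_lit 224029) (.g (nat_lit 4376) (.e (nat_lit 98334) (nat_lit 18) (.e (nat_lit 164398) (nat_lit 256) (.e (nat_lit 57372) (nat_lit 2) (.e (nat_lit 90172) (nat_lit 14) (.e (nat_lit 180244) (nat_lit 5) (.e (nat_lit 532515) (nat_lit 3) (.e (nat_lit 114717) (nat_lit 23) .nil))))))) (.g (nat_lit 6) .nil .nil))) 
(.lf (nat_lit 224061) (.g (nat_lit 3481) (.e (nat_lit 98334) (nat_lit 18) (.e (nat_lit 164398) (nat_lit 256) (.e (nat_lit 57373) (nat_lit 2) (.e (nat_lit 90174) (nat_lit 14) (.e (nat_lit 180243) (nat_lit 5) (.e (nat_lit 532508) (nat_lit 2) (.e (nat_lit 106526) (nat_lit 9) (.e (nat_lit 1255) (nat_lit 92) .nil)))))))) (.g (nat_lit 5) .nil .nil))))))) 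
(.nd (nat_lit 2) (.nd (nat_lit 3) (.nd (nat_lit 4) (.nd (nat_lit 5) 
(.lf (nat_lit 224003) (.g (nat_lit 2833) (.e (nat_lit 98334) (nat_lit 18) (.e (nat_lit 164396) (nat_lit 256) (.e (nat_lit 57379) (nat_lit 3) (.e (nat_lit 98366) (nat_lit 27) (.e (nat_lit 434231) (nat_lit 23) (.e (nat_lit 532507) (nat_lit 2) (.e (nat_lit 106517) (nat_lit 9) (.e (nat_lit 1255) (nat_lit 92) .nil)))))))) (.g (nat_lit 4) .nil .nil))) 
(.lf (nat_lit 224035) (.g (nat_lit 3385) (.e (nat_lit 98334) (nat_lit 18) (.e (nat_lit 164398) (nat_lit 256) (.e (nat_lit 57373) (nat_lit 2) (.e (nat_lit 90170) (nat_lit 13) (.e (nat_lit 172065) (nat_lit 3) (.e (nat_lit 204838) (nat_lit 20) (.e (nat_lit 114717) (nat_lit 23) .nil))))))) (.g (nat_lit 5) .nil .nil)))) (.nd (nat_lit 5) 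
(.lf (nat_lit 224019) (.g (nat_lit 3216) (.e (nat_lit 98334) (nat_lit 18) (.e (nat_lit 164398) (nat_lit 256) (.e (nat_lit 57371) (nat_lit 2) (.e (nat_lit 90174) (nat_lit 14) (.e (nat_lit 180243) (nat_lit 5) (.e (nat_lit 532513) (nat_lit 3) (.e (nat_lit 114717) (nat_lit 23) .nil))))))) (.g (nat_lit 4) .nil .nil))) 
(.lf (nat_lit 224051) (.g (nat_lit 2887) (.e (nat_lit 98334) (nat_lit 18) (.e (nat_lit 164398) (nat_lit 256) (.e (nat_lit 57373) (nat_lit 2) (.e (nat_lit 90174) (nat_lit 14) (.e (nat_lit 180243) (nat_lit 5) (.e (nat_lit 532508) (nat_lit 2) (.e (nat_lit 106504) (nat_lit 9) (.e (nat_lit 1254) (nat_lit 92) .nil)))))))) (.g (nat_lit 4) .nil .nil))))) (.nd (nat_lit 4) (.nd (nat_lit 5) 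
(.lf (nat_lit 224011) (.g (nat_lit 2265) (.e (nat_lit 98334) (nat_lit 18) (.e (nat_lit 164397) (nat_lit 256) (.e (nat_lit 57379) (nat_lit 3) (.e (nat_lit 98356) (nat_lit 26) (.e (nat_lit 426131) (nat_lit 3) .nil))))) .nil)) 
(.lf (nat_lit 224043) (.g (nat_lit 3220) (.e (nat_lit 98334) (nat_lit 18) (.e (nat_lit 164398) (nat_lit 256) (.e (nat_lit 57373) (nat_lit 2) (.e (nat_lit 90172) (nat_lit 14) (.e (nat_lit 180244) (nat_lit 5) (.e (nat_lit 532508) (nat_lit 2) (.e (nat_lit 106517) (nat_lit 9) (.e (nat_lit 1252) (nat_lit 92) .nil)))))))) (.g (nat_lit 4) .nil .nil)))) (.nd (nat_lit 5) 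
(.lf (nat_lit 224027) (.g (nat_lit 3537) (.e (nat_lit 98334) (nat_lit 18) (.e (nat_lit 164398) (nat_lit 256) (.e (nat_lit 57372) (nat_lit 2) (.e (nat_lit 90172) (nat_lit 14) (.e (nat_lit 180244) (nat_lit 5) (.e (nat_lit 532508) (nat_lit 2) (.e (nat_lit 106526) (nat_lit 9) (.e (nat_lit 1246) (nat_lit 92) .nil)))))))) (.g (nat_lit 4) .nil .nil))) 
(.lf (nat_lit 224059) (.g (nat_lit 4681) (.e (nat_lit 98334) (nat_lit 18) (.e (nat_lit 164398) (nat_lit 256) (.e (nat_lit 57373) (nat_lit 2) (.e (nat_lit 90174) (nat_lit 14) (.e (nat_lit 180243) (nat_lit 5) (.e (nat_lit 532508) (nat_lit 2) (.e (nat_lit 106526) (nat_lit 9) (.e (nat_lit 1246) (nat_lit 92) .nil)))))))) (.g (nat_lit 7) .nil .nil)))))) 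
(.nd (nat_lit 3) (.nd (nat_lit 4) (.nd (nat_lit 5) 
(.lf (nat_lit 224007) (.g (nat_lit 3806) (.e (nat_lit 98334) (nat_lit 18) (.e (nat_lit 164397) (nat_lit 256) (.e (nat_lit 57374) (nat_lit 2) (.e (nat_lit 90170) (nat_lit 13) (.e (nat_lit 172067) (nat_lit 3) (.e (nat_lit 204834) (nat_lit 19) (.e (nat_lit 106517) (nat_lit 9) (.e (nat_lit 1255) (nat_lit 92) .nil)))))))) (.g (nat_lit 5) .nil .nil))) 
(.lf (nat_lit 224039) (.g (nat_lit 3360) (.e (nat_lit 98334) (nat_lit 18) (.e (nat_lit 164398) (nat_lit 256) (.e (nat_lit 57373) (nat_lit 2) (.e (nat_lit 90172) (nat_lit 14) (.e (nat_lit 180243) (nat_lit 5) (.e (nat_lit 532508) (nat_lit 2) (.e (nat_lit 106526) (nat_lit 9) (.e (nat_lit 1252) (nat_lit 92) .nil)))))))) (.g (nat_lit 4) .nil .nil)))) (.nd (nat_lit 5) 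
(.lf (nat_lit 224023) (.g (nat_lit 3643) (.e (nat_lit 98334) (nat_lit 18) (.e (nat_lit 164398) (nat_lit 256) (.e (nat_lit 57372) (nat_lit 2) (.e (nat_lit 90172) (nat_lit 14) (.e (nat_lit 180243) (nat_lit 5) (.e (nat_lit 532508) (nat_lit 2) (.e (nat_lit 106517) (nat_lit 9) (.e (nat_lit 1255) (nat_lit 92) .nil)))))))) (.g (nat_lit 4) .nil .nil))) 
(.lf (nat_lit 224055) (.g (nat_lit 2584) (.e (nat_lit 98334) (nat_lit 18) (.e (nat_lit 164398) (nat_lit 256) (.e (nat_lit 57373) (nat_lit 2) (.e (nat_lit 90174) (nat_lit 14) (.e (nat_lit 180243) (nat_lit 5) (.e (nat_lit 532508) (nat_lit 2) (.e (nat_lit 106522) (nat_lit 9) (.e (nat_lit 1254) (nat_lit 92) .nil)))))))) (.g (nat_lit 4) .nil .nil))))) (.nd (nat_lit 4) (.nd (nat_lit 5) 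
(.lf (nat_lit 224015) (.g (nat_lit 3266) (.e (nat_lit 98334) (nat_lit 18) (.e (nat_lit 164398) (nat_lit 256) (.e (nat_lit 57371) (nat_lit 2) (.e (nat_lit 90172) (nat_lit 14) (.e (nat_lit 180244) (nat_lit 5) (.e (nat_lit 532515) (nat_lit 3) (.e (nat_lit 114717) (nat_lit 23) .nil))))))) (.g (nat_lit 4) .nil .nil))) 
(.lf (nat_lit 224047) (.g (nat_lit 1673) (.e (nat_lit 98334) (nat_lit 18) (.e (nat_lit 164398) (nat_lit 256) (.e (nat_lit 57373) (nat_lit 2) (.e (nat_lit 90174) (nat_lit 14) (.e (nat_lit 180243) (nat_lit 5) .nil))))) .nil))) (.nd (nat_lit 5) 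
(.lf (nat_lit 224031) (.g (nat_lit 4278) (.e (nat_lit 98334) (nat_lit 18) (.e (nat_lit 164398) (nat_lit 256) (.e (nat_lit 57372) (nat_lit 2) (.e (nat_lit 90174) (nat_lit 14) (.e (nat_lit 180243) (nat_lit 5) (.e (nat_lit 532508) (nat_lit 2) (.e (nat_lit 106526) (nat_lit 9) (.e (nat_lit 1252) (nat_lit 92) .nil)))))))) (.g (nat_lit 5) .nil .nil))) 
(.lf (nat_lit 224063) (.g (nat_lit 3564) (.e (nat_lit 98334) (nat_lit 18) (.e (nat_lit 164398) (nat_lit 256) (.e (nat_lit 57373) (nat_lit 2) (.e (nat_lit 90174) (nat_lit 14) (.e (nat_lit 180243) (nat_lit 5) (.e (nat_lit 532508) (nat_lit 2) (.e (nat_lit 114432) (nat_lit 9) (.e (nat_lit 1256) (nat_lit 92) .nil)))))))) (.g (nat_lit 5) .nil .nil)))))))))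

noncomputable def tv2938 : DT := (.nd (nat_lit 0) (.nd (nat_lit 1) (.nd (nat_lit 2) (.nd (nat_lit 3) (.nd (nat_lit 4) (.nd (nat_lit 5) 
(.lf (nat_lit 224064) (.g (nat_lit 2688) (.e (nat_lit 98334) (nat_lit 18) (.e (nat_lit 164398) (nat_lit 256) (.e (nat_lit 57373) (nat_lit 2) (.e (nat_lit 90174) (nat_lit 14) (.e (nat_lit 180243) (nat_lit 5) (.e (nat_lit 532510) (nat_lit 2) (.e (nat_lit 106504) (nat_lit 9) (.e (nat_lit 1251) (nat_lit 92) .nil)))))))) (.g (nat_lit 4) .nil .nil))) 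
(.lf (nat_lit 224096) (.g (nat_lit 2590) (.e (nat_lit 98334) (nat_lit 18) (.e (nat_lit 164398) (nat_lit 256) (.e (nat_lit 57375) (nat_lit 2) (.e (nat_lit 90174) (nat_lit 14) (.e (nat_lit 180243) (nat_lit 5) (.e (nat_lit 532511) (nat_lit 2) (.e (nat_lit 106526) (nat_lit 9) (.e (nat_lit 1246) (nat_lit 92) .nil)))))))) (.g (nat_lit 4) .nil .nil)))) (.nd (nat_lit 5) 
(.lf (nat_lit 224080) (.g (nat_lit 4078) (.e (nat_lit 98334) (nat_lit 18) (.e (nat_lit 164398) (nat_lit 256) (.e (nat_lit 57374) (nat_lit 2) (.e (nat_lit 90170) (nat_lit 13) (.e (nat_lit 172067) (nat_lit 3) (.e (nat_lit 204838) (nat_lit 20) (.e (nat_lit 114717) (nat_lit 23) .nil))))))) (.g (nat_lit 4) .nil .nil))) 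
(.lf (nat_lit 224112) (.g (nat_lit 2061) (.e (nat_lit 98334) (nat_lit 18) (.e (nat_lit 164398) (nat_lit 256) (.e (nat_lit 57379) (nat_lit 3) (.e (nat_lit 98366) (nat_lit 27) (.e (nat_lit 434232) (nat_lit 23) .nil))))) .nil)))) (.nd (nat_lit 4) (.nd (nat_lit 5) 
(.lf (nat_lit 224072) (.g (nat_lit 3780) (.e (nat_lit 98334) (nat_lit 18) (.e (nat_lit 164398) (nat_lit 256) (.e (nat_lit 57373) (nat_lit 2) (.e (nat_lit 90174) (nat_lit 14) (.e (nat_lit 180243) (nat_lit 5) (.e (nat_lit 532511) (nat_lit 2) (.e (nat_lit 106526) (nat_lit 9) (.e (nat_lit 1246) (nat_lit 92) .nil)))))))) (.g (nat_lit 5) .nil .nil))) 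
(.lf (nat_lit 224104) (.g (nat_lit 2274) (.e (nat_lit 98334) (nat_lit 18) (.e (nat_lit 164398) (nat_lit 256) (.e (nat_lit 57378) (nat_lit 3) (.e (nat_lit 98367) (nat_lit 27) (.e (nat_lit 434234) (nat_lit 23) .nil))))) .nil))) (.nd (nat_lit 5) 
(.lf (nat_lit 224088) (.g (nat_lit 2792) (.e (nat_lit 98334) (nat_lit 18) (.e (nat_lit 164398) (nat_lit 256) (.e (nat_lit 57375) (nat_lit 2) (.e (nat_lit 90172) (nat_lit 14) (.e (nat_lit 180243) (nat_lit 5) (.e (nat_lit 532515) (nat_lit 3) (.e (nat_lit 114717) (nat_lit 23) .nil))))))) (.g (nat_lit 4) .nil .nil))) 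
(.lf (nat_lit 224120) (.g (nat_lit 2913) (.e (nat_lit 98334) (nat_lit 18) (.e (nat_lit 164399) (nat_lit 256) (.e (nat_lit 57370) (nat_lit 2) (.e (nat_lit 90172) (nat_lit 14) (.e (nat_lit 180244) (nat_lit 5) (.e (nat_lit 532515) (nat_lit 3) (.e (nat_lit 114717) (nat_lit 23) .nil))))))) (.g (nat_lit 5) .nil .nil)))))) (.nd (nat_lit 3) (.nd (nat_lit 4) (.nd (nat_lit 5) 
(.lf (nat_lit 224068) (.g (nat_lit 2941) (.e (nat_lit 98334) (nat_lit 18) (.e (nat_lit 164398) (nat_lit 256) (.e (nat_lit 57373) (nat_lit 2) (.e (nat_lit 90174) (nat_lit 14) (.e (nat_lit 180243) (nat_lit 5) (.e (nat_lit 532511) (nat_lit 2) (.e (nat_lit 106504) (nat_lit 9) (.e (nat_lit 1251) (nat_lit 92) .nil)))))))) (.g (nat_lit 4) .nil .nil))) 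
(.lf (nat_lit 224100) (.g (nat_lit 3113) (.e (nat_lit 98334) (nat_lit 18) (.e (nat_lit 164398) (nat_lit 256) (.e (nat_lit 57378) (nat_lit 3) (.e (nat_lit 98355) (nat_lit 26) (.e (nat_lit 426131) (nat_lit 3) (.e (nat_lit 204838) (nat_lit 20) (.e (nat_lit 114717) (nat_lit 23) .nil))))))) (.g (nat_lit 4) .nil .nil)))) (.nd (nat_lit 5) 
(.lf (nat_lit 224084) (.g (nat_lit 2879) (.e (nat_lit 98334) (nat_lit 18) (.e (nat_lit 164398) (nat_lit 256) (.e (nat_lit 57375) (nat_lit 2) (.e (nat_lit 90172) (nat_lit 14) (.e (nat_lit 180243) (nat_lit 5) (.e (nat_lit 532508) (nat_lit 2) (.e (nat_lit 106517) (nat_lit 9) (.e (nat_lit 1255) (nat_lit 92) .nil)))))))) (.g (nat_lit 4) .nil .nil))) 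
(.lf (nat_lit 224116) (.g (nat_lit 3154) (.e (nat_lit 98334) (nat_lit 18) (.e (nat_lit 164398) (nat_lit 256) (.e (nat_lit 57588) (nat_lit 73) (.e (nat_lit 426139) (nat_lit 3) (.e (nat_lit 204854) (nat_lit 26) (.e (nat_lit 336000) (nat_lit 1) (.e (nat_lit 57849) (nat_lit 252) (.e (nat_lit 57379) (nat_lit 3) .nil)))))))) (.g (nat_lit 4) .nil .nil))))) (.nd (nat_lit 4) (.nd (nat_lit 5) 
(.lf (nat_lit 224076) (.g (nat_lit 4053) (.e (nat_lit 98334) (nat_lit 18) (.e (nat_lit 164398) (nat_lit 256) (.e (nat_lit 57374) (nat_lit 2) (.e (nat_lit 90170) (nat_lit 13) (.e (nat_lit 172065) (nat_lit 3) (.e (nat_lit 204837) (nat_lit 20) (.e (nat_lit 114718) (nat_lit 23) .nil))))))) (.g (nat_lit 4) .nil .nil))) 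
(.lf (nat_lit 224108) (.g (nat_lit 1831) (.e (nat_lit 98334) (nat_lit 18) (.e (nat_lit 164398) (nat_lit 256) (.e (nat_lit 57379) (nat_lit 3) (.e (nat_lit 98366) (nat_lit 27) (.e (nat_lit 434231) (nat_lit 23) .nil))))) .nil))) (.nd (nat_lit 5) 
(.lf (nat_lit 224092) (.g (nat_lit 4170) (.e (nat_lit 98334) (nat_lit 18) (.e (nat_lit 164398) (nat_lit 256) (.e (nat_lit 57375) (nat_lit 2) (.e (nat_lit 90172) (nat_lit 14) (.e (nat_lit 180244) (nat_lit 5) (.e (nat_lit 532515) (nat_lit 3) (.e (nat_lit 114717) (nat_lit 23) .nil))))))) (.g (nat_lit 6) .nil .nil))) 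
(.lf (nat_lit 224124) (.g (nat_lit 2310) (.e (nat_lit 98334) (nat_lit 18) (.e (nat_lit 164399) (nat_lit 256) (.e (nat_lit 57371) (nat_lit 2) (.e (nat_lit 90172) (nat_lit 14) (.e (nat_lit 180244) (nat_lit 5) .nil))))) .nil)))))) (.nd (nat_lit 2) (.nd (nat_lit 3) (.nd (nat_lit 4) (.nd (nat_lit 5) 
(.lf (nat_lit 224066) (.g (nat_lit 3130) (.e (nat_lit 98334) (nat_lit 18) (.e (nat_lit 164398) (nat_lit 256) (.e (nat_lit 57373) (nat_lit 2) (.e (nat_lit 90174) (nat_lit 14) (.e (nat_lit 180243) (nat_lit 5) (.e (nat_lit 532510) (nat_lit 2) (.e (nat_lit 106520) (nat_lit 9) (.e (nat_lit 1254) (nat_lit 92) .nil)))))))) (.g (nat_lit 4) .nil .nil))) 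
(.lf (nat_lit 224098) (.g (nat_lit 2093) (.e (nat_lit 98334) (nat_lit 18) (.e (nat_lit 164398) (nat_lit 256) (.e (nat_lit 57377) (nat_lit 3) (.e (nat_lit 98377) (nat_lit 30) (.e (nat_lit 458789) (nat_lit 23) .nil))))) .nil))) (.nd (nat_lit 5) 
(.lf (nat_lit 224082) (.g (nat_lit 1569) (.e (nat_lit 98334) (nat_lit 18) (.e (nat_lit 164398) (nat_lit 256) (.e (nat_lit 57374) (nat_lit 2) (.e (nat_lit 90174) (nat_lit 14) .nil)))) .nil)) 
(.lf (nat_lit 224114) (.g (nat_lit 4309) (.e (nat_lit 98334) (nat_lit 18) (.e (nat_lit 164398) (nat_lit 256) (.e (nat_lit 57379) (nat_lit 3) (.e (nat_lit 98367) (nat_lit 27) (.e (nat_lit 434231) (nat_lit 23) (.e (nat_lit 532514) (nat_lit 3) (.e (nat_lit 114717) (nat_lit 23) .nil))))))) (.g (nat_lit 6) .nil .nil))))) (.nd (nat_lit 4) (.nd (nat_lit 5) 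
(.lf (nat_lit 224074) (.g (nat_lit 2187) (.e (nat_lit 98334) (nat_lit 18) (.e (nat_lit 164398) (nat_lit 256) (.e (nat_lit 57373) (nat_lit 2) (.e (nat_lit 90174) (nat_lit 14) (.e (nat_lit 180245) (nat_lit 5) .nil))))) .nil)) 
(.lf (nat_lit 224106) (.g (nat_lit 4438) (.e (nat_lit 98334) (nat_lit 18) (.e (nat_lit 164398) (nat_lit 256) (.e (nat_lit 57378) (nat_lit 3) (.e (nat_lit 98377) (nat_lit 30) (.e (nat_lit 458789) (nat_lit 23) (.e (nat_lit 532484) (nat_lit 0) (.e (nat_lit 2198) (nat_lit 144) (.e (nat_lit 720945) (nat_lit 23) .nil)))))))) (.g (nat_lit 6) .nil .nil)))) (.nd (nat_lit 5) 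
(.lf (nat_lit 224090) (.g (nat_lit 3158) (.e (nat_lit 98334) (nat_lit 18) (.e (nat_lit 164398) (nat_lit 256) (.e (nat_lit 57375) (nat_lit 2) (.e (nat_lit 90172) (nat_lit 14) (.e (nat_lit 180244) (nat_lit 5) (.e (nat_lit 532508) (nat_lit 2) (.e (nat_lit 106526) (nat_lit 9) (.e (nat_lit 1246) (nat_lit 92) .nil)))))))) (.g (nat_lit 4) .nil .nil))) 
(.lf (nat_lit 224122) (.g (nat_lit 2336) (.e (nat_lit 98334) (nat_lit 18) (.e (nat_lit 164399) (nat_lit 256) (.e (nat_lit 57370) (nat_lit 2) (.e (nat_lit 90174) (nat_lit 14) (.e (nat_lit 180243) (nat_lit 5) (.e (nat_lit 532515) (nat_lit 3) (.e (nat_lit 114717) (nat_lit 23) .nil))))))) (.g (nat_lit 4) .nil .nil)))))) (.nd (nat_lit 3) (.nd (nat_lit 4) (.nd (nat_lit 5) 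
(.lf (nat_lit 224070) (.g (nat_lit 2409) (.e (nat_lit 98334) (nat_lit 18) (.e (nat_lit 164398) (nat_lit 256) (.e (nat_lit 57373) (nat_lit 2) (.e (nat_lit 90174) (nat_lit 14) (.e (nat_lit 180243) (nat_lit 5) (.e (nat_lit 532511) (nat_lit 2) (.e (nat_lit 106517) (nat_lit 9) (.e (nat_lit 1255) (nat_lit 92) .nil)))))))) (.g (nat_lit 4) .nil .nil))) 
(.lf (nat_lit 224102) (.g (nat_lit 5108) (.e (nat_lit 98334) (nat_lit 18) (.e (nat_lit 164398) (nat_lit 256) (.e (nat_lit 57378) (nat_lit 3) (.e (nat_lit 98366) (nat_lit 27) (.e (nat_lit 434231) (nat_lit 23) (.e (nat_lit 532483) (nat_lit 0) (.e (nat_lit 2198) (nat_lit 144) (.e (nat_lit 720945) (nat_lit 23) .nil)))))))) (.g (nat_lit 5) .nil .nil)))) (.nd (nat_lit 5) 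
(.lf (nat_lit 224086) (.g (nat_lit 3011) (.e (nat_lit 98334) (nat_lit 18) (.e (nat_lit 164398) (nat_lit 256) (.e (nat_lit 57375) (nat_lit 2) (.e (nat_lit 90172) (nat_lit 14) (.e (nat_lit 180243) (nat_lit 5) (.e (nat_lit 532508) (nat_lit 2) (.e (nat_lit 106526) (nat_lit 9) (.e (nat_lit 1254) (nat_lit 92) .nil)))))))) (.g (nat_lit 4) .nil .nil))) 
(.lf (nat_lit 224118) (.g (nat_lit 2896) (.e (nat_lit 98334) (nat_lit 18) (.e (nat_lit 164399) (nat_lit 256) (.e (nat_lit 57370) (nat_lit 2) (.e (nat_lit 90170) (nat_lit 13) (.e (nat_lit 172065) (nat_lit 3) (.e (nat_lit 204834) (nat_lit 19) (.e (nat_lit 106517) (nat_lit 9) (.e (nat_lit 1255) (nat_lit 92) .nil)))))))) (.g (nat_lit 4) .nil .nil))))) (.nd (nat_lit 4) (.nd (nat_lit 5) 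
(.lf (nat_lit 224078) (.g (nat_lit 4169) (.e (nat_lit 98334) (nat_lit 18) (.e (nat_lit 164398) (nat_lit 256) (.e (nat_lit 57374) (nat_lit 2) (.e (nat_lit 90170) (nat_lit 13) (.e (nat_lit 172065) (nat_lit 3) (.e (nat_lit 204838) (nat_lit 20) (.e (nat_lit 114717) (nat_lit 23) .nil))))))) (.g (nat_lit 4) .nil .nil))) 
(.lf (nat_lit 224110) (.g (nat_lit 3210) (.e (nat_lit 98334) (nat_lit 18) (.e (nat_lit 164398) (nat_lit 256) (.e (nat_lit 57379) (nat_lit 3) (.e (nat_lit 98366) (nat_lit 27) (.e (nat_lit 434231) (nat_lit 23) (.e (nat_lit 532507) (nat_lit 2) (.e (nat_lit 106523) (nat_lit 9) (.e (nat_lit 1254) (nat_lit 92) .nil)))))))) (.g (nat_lit 4) .nil .nil)))) (.nd (nat_lit 5) 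
(.lf (nat_lit 224094) (.g (nat_lit 2811) (.e (nat_lit 98334) (nat_lit 18) (.e (nat_lit 164398) (nat_lit 256) (.e (nat_lit 57375) (nat_lit 2) (.e (nat_lit 90174) (nat_lit 14) (.e (nat_lit 180243) (nat_lit 5) (.e (nat_lit 532508) (nat_lit 2) (.e (nat_lit 106523) (nat_lit 9) (.e (nat_lit 1254) (nat_lit 92) .nil)))))))) (.g (nat_lit 4) .nil .nil))) 
(.lf (nat_lit 224126) (.g (nat_lit 3462) (.e (nat_lit 98334) (nat_lit 18) (.e (nat_lit 164399) (nat_lit 256) (.e (nat_lit 57372) (nat_lit 2) (.e (nat_lit 90172) (nat_lit 14) (.e (nat_lit 180243) (nat_lit 5) (.e (nat_lit 532513) (nat_lit 3) (.e (nat_lit 114717) (nat_lit 23) .nil))))))) (.g (nat_lit 5) .nil .nil)))))))) 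
(.nd (nat_lit 1) (.nd (nat_lit 2) (.nd (nat_lit 3) (.nd (nat_lit 4) (.nd (nat_lit 5) 
(.lf (nat_lit 224065) (.g (nat_lit 3082) (.e (nat_lit 98334) (nat_lit 18) (.e (nat_lit 164398) (nat_lit 256) (.e (nat_lit 57373) (nat_lit 2) (.e (nat_lit 90174) (nat_lit 14) (.e (nat_lit 180243) (nat_lit 5) (.e (nat_lit 532510) (nat_lit 2) (.e (nat_lit 106514) (nat_lit 9) (.e (nat_lit 1254) (nat_lit 92) .nil)))))))) (.g (nat_lit 4) .nil .nil))) 
(.lf (nat_lit 224097) (.g (nat_lit 3481) (.e (nat_lit 98334) (nat_lit 18) (.e (nat_lit 164398) (nat_lit 256) (.e (nat_lit 57375) (nat_lit 2) (.e (nat_lit 90174) (nat_lit 14) (.e (nat_lit 180243) (nat_lit 5) (.e (nat_lit 532515) (nat_lit 3) (.e (nat_lit 114717) (nat_lit 23) .nil))))))) (.g (nat_lit 6) .nil .nil)))) (.nd (nat_lit 5) 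
(.lf (nat_lit 224081) (.g (nat_lit 4751) (.e (nat_lit 98334) (nat_lit 18) (.e (nat_lit 164398) (nat_lit 256) (.e (nat_lit 57374) (nat_lit 2) (.e (nat_lit 90170) (nat_lit 13) (.e (nat_lit 172067) (nat_lit 3) (.e (nat_lit 204838) (nat_lit 20) (.e (nat_lit 114719) (nat_lit 23) .nil))))))) (.g (nat_lit 5) .nil .nil))) 
(.lf (nat_lit 224113) (.g (nat_lit 2968) (.e (nat_lit 98334) (nat_lit 18) (.e (nat_lit 164398) (nat_lit 256) (.e (nat_lit 57379) (nat_lit 3) (.e (nat_lit 98367) (nat_lit 27) (.e (nat_lit 434231) (nat_lit 23) (.e (nat_lit 532507) (nat_lit 2) (.e (nat_lit 106504) (nat_lit 9) (.e (nat_lit 1251) (nat_lit 92) .nil)))))))) (.g (nat_lit 4) .nil .nil))))) (.nd (nat_lit 4) (.nd (nat_lit 5) 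
(.lf (nat_lit 224073) (.g (nat_lit 2580) (.e (nat_lit 98334) (nat_lit 18) (.e (nat_lit 164398) (nat_lit 256) (.e (nat_lit 57373) (nat_lit 2) (.e (nat_lit 90174) (nat_lit 14) (.e (nat_lit 180243) (nat_lit 5) (.e (nat_lit 532511) (nat_lit 2) (.e (nat_lit 106526) (nat_lit 9) (.e (nat_lit 1255) (nat_lit 92) .nil)))))))) (.g (nat_lit 4) .nil .nil))) 
(.lf (nat_lit 224105) (.g (nat_lit 4198) (.e (nat_lit 98334) (nat_lit 18) (.e (nat_lit 164398) (nat_lit 256) (.e (nat_lit 57378) (nat_lit 3) (.e (nat_lit 98376) (nat_lit 30) (.e (nat_lit 458789) (nat_lit 23) (.e (nat_lit 532484) (nat_lit 0) (.e (nat_lit 2198) (nat_lit 144) (.e (nat_lit 720945) (nat_lit 23) .nil)))))))) (.g (nat_lit 6) .nil .nil)))) (.nd (nat_lit 5) 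
(.lf (nat_lit 224089) (.g (nat_lit 3042) (.e (nat_lit 98334) (nat_lit 18) (.e (nat_lit 164398) (nat_lit 256) (.e (nat_lit 57375) (nat_lit 2) (.e (nat_lit 90172) (nat_lit 14) (.e (nat_lit 180244) (nat_lit 5) (.e (nat_lit 532508) (nat_lit 2) (.e (nat_lit 106517) (nat_lit 9) (.e (nat_lit 1252) (nat_lit 92) .nil)))))))) (.g (nat_lit 4) .nil .nil))) 
(.lf (nat_lit 224121) (.g (nat_lit 2395) (.e (nat_lit 98334) (nat_lit 18) (.e (nat_lit 164399) (nat_lit 256) (.e (nat_lit 57370) (nat_lit 2) (.e (nat_lit 90174) (nat_lit 14) (.e (nat_lit 180243) (nat_lit 5) (.e (nat_lit 532513) (nat_lit 3) (.e (nat_lit 114717) (nat_lit 23) .nil))))))) (.g (nat_lit 4) .nil .nil)))))) (.nd (nat_lit 3) (.nd (nat_lit 4) (.nd (nat_lit 5) 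
(.lf (nat_lit 224069) (.g (nat_lit 3054) (.e (nat_lit 98334) (nat_lit 18) (.e (nat_lit 164398) (nat_lit 256) (.e (nat_lit 57373) (nat_lit 2) (.e (nat_lit 90174) (nat_lit 14) (.e (nat_lit 180243) (nat_lit 5) (.e (nat_lit 532511) (nat_lit 2) (.e (nat_lit 106512) (nat_lit 9) (.e (nat_lit 1251) (nat_lit 92) .nil)))))))) (.g (nat_lit 4) .nil .nil))) 
(.lf (nat_lit 224101) (.g (nat_lit 1949) (.e (nat_lit 98334) (nat_lit 18) (.e (nat_lit 164398) (nat_lit 256) (.e (nat_lit 57378) (nat_lit 3) (.e (nat_lit 98360) (nat_lit 26) (.e (nat_lit 426140) (nat_lit 3) .nil))))) .nil))) (.nd (nat_lit 5) 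
(.lf (nat_lit 224085) (.g (nat_lit 3243) (.e (nat_lit 98334) (nat_lit 18) (.e (nat_lit 164398) (nat_lit 256) (.e (nat_lit 57375) (nat_lit 2) (.e (nat_lit 90172) (nat_lit 14) (.e (nat_lit 180243) (nat_lit 5) (.e (nat_lit 532508) (nat_lit 2) (.e (nat_lit 106526) (nat_lit 9) (.e (nat_lit 1252) (nat_lit 92) .nil)))))))) (.g (nat_lit 4) .nil .nil))) 
(.lf (nat_lit 224117) (.g (nat_lit 2402) (.e (nat_lit 98334) (nat_lit 18) (.e (nat_lit 164399) (nat_lit 256) (.e (nat_lit 57370) (nat_lit 2) (.e (nat_lit 90170) (nat_lit 13) (.e (nat_lit 172065) (nat_lit 3) .nil))))) .nil)))) (.nd (nat_lit 4) (.nd (nat_lit 5) 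
(.lf (nat_lit 224077) (.g (nat_lit 3775) (.e (nat_lit 98334) (nat_lit 18) (.e (nat_lit 164398) (nat_lit 256) (.e (nat_lit 57374) (nat_lit 2) (.e (nat_lit 90170) (nat_lit 13) (.e (nat_lit 172065) (nat_lit 3) (.e (nat_lit 204837) (nat_lit 20) (.e (nat_lit 114719) (nat_lit 23) .nil))))))) (.g (nat_lit 4) .nil .nil))) 
(.lf (nat_lit 224109) (.g (nat_lit 3693) (.e (nat_lit 98334) (nat_lit 18) (.e (nat_lit 164398) (nat_lit 256) (.e (nat_lit 57379) (nat_lit 3) (.e (nat_lit 98366) (nat_lit 27) (.e (nat_lit 434231) (nat_lit 23) (.e (nat_lit 532507) (nat_lit 2) (.e (nat_lit 106504) (nat_lit 9) (.e (nat_lit 1251) (nat_lit 92) .nil)))))))) (.g (nat_lit 5) .nil .nil)))) (.nd (nat_lit 5) 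
(.lf (nat_lit 224093) (.g (nat_lit 3260) (.e (nat_lit 98334) (nat_lit 18) (.e (nat_lit 164398) (nat_lit 256) (.e (nat_lit 57375) (nat_lit 2) (.e (nat_lit 90174) (nat_lit 14) (.e (nat_lit 180243) (nat_lit 5) (.e (nat_lit 532508) (nat_lit 2) (.e (nat_lit 106517) (nat_lit 9) (.e (nat_lit 1252) (nat_lit 92) .nil)))))))) (.g (nat_lit 5) .nil .nil))) 
(.lf (nat_lit 224125) (.g (nat_lit 2185) (.e (nat_lit 98334) (nat_lit 18) (.e (nat_lit 164399) (nat_lit 256) (.e (nat_lit 57372) (nat_lit 2) (.e (nat_lit 90172) (nat_lit 14) (.e (nat_lit 180243) (nat_lit 5) .nil))))) .nil)))))) (.nd (nat_lit 2) (.nd (nat_lit 3) (.nd (nat_lit 4) (.nd (nat_lit 5) 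
(.lf (nat_lit 224067) (.g (nat_lit 2893) (.e (nat_lit 98334) (nat_lit 18) (.e (nat_lit 164398) (nat_lit 256) (.e (nat_lit 57373) (nat_lit 2) (.e (nat_lit 90174) (nat_lit 14) (.e (nat_lit 180243) (nat_lit 5) (.e (nat_lit 532510) (nat_lit 2) (.e (nat_lit 106523) (nat_lit 9) (.e (nat_lit 1252) (nat_lit 92) .nil)))))))) (.g (nat_lit 4) .nil .nil))) 
(.lf (nat_lit 224099) (.g (nat_lit 1628) (.e (nat_lit 98334) (nat_lit 18) (.e (nat_lit 164398) (nat_lit 256) (.e (nat_lit 57378) (nat_lit 3) (.e (nat_lit 98354) (nat_lit 26) .nil)))) .nil))) (.nd (nat_lit 5) 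
(.lf (nat_lit 224083) (.g (nat_lit 2020) (.e (nat_lit 98334) (nat_lit 18) (.e (nat_lit 164398) (nat_lit 256) (.e (nat_lit 57375) (nat_lit 2) (.e (nat_lit 90172) (nat_lit 14) (.e (nat_lit 180243) (nat_lit 5) .nil))))) .nil)) 
(.lf (nat_lit 224115) (.g (nat_lit 2422) (.e (nat_lit 98334) (nat_lit 18) (.e (nat_lit 164398) (nat_lit 256) (.e (nat_lit 57379) (nat_lit 3) (.e (nat_lit 98367) (nat_lit 27) (.e (nat_lit 434234) (nat_lit 23) .nil))))) .nil)))) (.nd (nat_lit 4) (.nd (nat_lit 5) 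
(.lf (nat_lit 224075) (.g (nat_lit 3265) (.e (nat_lit 98334) (nat_lit 18) (.e (nat_lit 164398) (nat_lit 256) (.e (nat_lit 57374) (nat_lit 2) (.e (nat_lit 90170) (nat_lit 13) (.e (nat_lit 172065) (nat_lit 3) (.e (nat_lit 204834) (nat_lit 19) (.e (nat_lit 106517) (nat_lit 9) (.e (nat_lit 1255) (nat_lit 92) .nil)))))))) (.g (nat_lit 4) .nil .nil))) 
(.lf (nat_lit 224107) (.g (nat_lit 3030) (.e (nat_lit 98334) (nat_lit 18) (.e (nat_lit 164398) (nat_lit 256) (.e (nat_lit 57379) (nat_lit 3) (.e (nat_lit 98356) (nat_lit 26) (.e (nat_lit 426131) (nat_lit 3) (.e (nat_lit 204837) (nat_lit 20) (.e (nat_lit 114717) (nat_lit 23) .nil))))))) (.g (nat_lit 4) .nil .nil)))) (.nd (nat_lit 5) 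
(.lf (nat_lit 224091) (.g (nat_lit 3729) (.e (nat_lit 98334) (nat_lit 18) (.e (nat_lit 164398) (nat_lit 256) (.e (nat_lit 57375) (nat_lit 2) (.e (nat_lit 90172) (nat_lit 14) (.e (nat_lit 180244) (nat_lit 5) (.e (nat_lit 532513) (nat_lit 3) (.e (nat_lit 114717) (nat_lit 23) .nil))))))) (.g (nat_lit 5) .nil .nil))) 
(.lf (nat_lit 224123) (.g (nat_lit 2445) (.e (nat_lit 98334) (nat_lit 18) (.e (nat_lit 164399) (nat_lit 256) (.e (nat_lit 57371) (nat_lit 2) (.e (nat_lit 90172) (nat_lit 14) (.e (nat_lit 180243) (nat_lit 5) .nil))))) .nil))))) (.nd (nat_lit 3) (.nd (nat_lit 4) (.nd (nat_lit 5) 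
(.lf (nat_lit 224071) (.g (nat_lit 3776) (.e (nat_lit 98334) (nat_lit 18) (.e (nat_lit 164398) (nat_lit 256) (.e (nat_lit 57373) (nat_lit 2) (.e (nat_lit 90174) (nat_lit 14) (.e (nat_lit 180243) (nat_lit 5) (.e (nat_lit 532511) (nat_lit 2) (.e (nat_lit 106523) (nat_lit 9) (.e (nat_lit 1254) (nat_lit 92) .nil)))))))) (.g (nat_lit 5) .nil .nil))) 
(.lf (nat_lit 224103) (.g (nat_lit 5234) (.e (nat_lit 98334) (nat_lit 18) (.e (nat_lit 164398) (nat_lit 256) (.e (nat_lit 57378) (nat_lit 3) (.e (nat_lit 98367) (nat_lit 27) (.e (nat_lit 434231) (nat_lit 23) (.e (nat_lit 532483) (nat_lit 0) (.e (nat_lit 2198) (nat_lit 144) (.e (nat_lit 720945) (nat_lit 23) .nil)))))))) (.g (nat_lit 5) .nil .nil)))) (.nd (nat_lit 5) 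
(.lf (nat_lit 224087) (.g (nat_lit 3093) (.e (nat_lit 98334) (nat_lit 18) (.e (nat_lit 164398) (nat_lit 256) (.e (nat_lit 57375) (nat_lit 2) (.e (nat_lit 90172) (nat_lit 14) (.e (nat_lit 180243) (nat_lit 5) (.e (nat_lit 532513) (nat_lit 3) (.e (nat_lit 114717) (nat_lit 23) .nil))))))) (.g (nat_lit 4) .nil .nil))) 
(.lf (nat_lit 224119) (.g (nat_lit 1957) (.e (nat_lit 98334) (nat_lit 18) (.e (nat_lit 164399) (nat_lit 256) (.e (nat_lit 57370) (nat_lit 2) (.e (nat_lit 90172) (nat_lit 14) (.e (nat_lit 180243) (nat_lit 5) .nil))))) .nil)))) (.nd (nat_lit 4) (.nd (nat_lit 5) 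
(.lf (nat_lit 224079) (.g (nat_lit 3989) (.e (nat_lit 98334) (nat_lit 18) (.e (nat_lit 164398) (nat_lit 256) (.e (nat_lit 57374) (nat_lit 2) (.e (nat_lit 90170) (nat_lit 13) (.e (nat_lit 172067) (nat_lit 3) (.e (nat_lit 204837) (nat_lit 20) (.e (nat_lit 114717) (nat_lit 23) .nil))))))) (.g (nat_lit 4) .nil .nil))) 
(.lf (nat_lit 224111) (.g (nat_lit 4673) (.e (nat_lit 98334) (nat_lit 18) (.e (nat_lit 164398) (nat_lit 256) (.e (nat_lit 57379) (nat_lit 3) (.e (nat_lit 98366) (nat_lit 27) (.e (nat_lit 434231) (nat_lit 23) (.e (nat_lit 532514) (nat_lit 3) (.e (nat_lit 114717) (nat_lit 23) .nil))))))) (.g (nat_lit 6) .nil .nil)))) (.nd (nat_lit 5) 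
(.lf (nat_lit 224095) (.g (nat_lit 3497) (.e (nat_lit 98334) (nat_lit 18) (.e (nat_lit 164398) (nat_lit 256) (.e (nat_lit 57375) (nat_lit 2) (.e (nat_lit 90174) (nat_lit 14) (.e (nat_lit 180243) (nat_lit 5) (.e (nat_lit 532508) (nat_lit 2) (.e (nat_lit 106526) (nat_lit 9) (.e (nat_lit 1246) (nat_lit 92) .nil)))))))) (.g (nat_lit 5) .nil .nil))) 
(.lf (nat_lit 224127) (.g (nat_lit 3150) (.e (nat_lit 98334) (nat_lit 18) (.e (nat_lit 164399) (nat_lit 256) (.e (nat_lit 57372) (nat_lit 2) (.e (nat_lit 90172) (nat_lit 14) (.e (nat_lit 180243) (nat_lit 5) (.e (nat_lit 532515) (nat_lit 3) (.e (nat_lit 114717) (nat_lit 23) .nil))))))) (.g (nat_lit 4) .nil .nil)))))))))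

noncomputable def tv2939 : DT := (.nd (nat_lit 0) (.nd (nat_lit 1) (.nd (nat_lit 2) (.nd (nat_lit 3) (.nd (nat_lit 4) (.nd (nat_lit 5) (.nd (nat_lit 6) 
(.lf (nat_lit 224128) (.g (nat_lit 3757) (.e (nat_lit 98334) (nat_lit 18) (.e (nat_lit 164399) (nat_lit 256) (.e (nat_lit 57372) (nat_lit 2) (.e (nat_lit 90172) (nat_lit 14) (.e (nat_lit 180244) (nat_lit 5) (.e (nat_lit 532508) (nat_lit 2) (.e (nat_lit 106517) (nat_lit 9) (.e (nat_lit 1255) (nat_lit 92) .nil)))))))) (.g (nat_lit 5) .nil .nil))) 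
(.lf (nat_lit 224192) (.g (nat_lit 3148) (.e (nat_lit 98334) (nat_lit 18) (.e (nat_lit 164403) (nat_lit 256) (.e (nat_lit 57373) (nat_lit 2) (.e (nat_lit 90170) (nat_lit 13) (.e (nat_lit 172067) (nat_lit 3) (.e (nat_lit 204838) (nat_lit 20) (.e (nat_lit 114717) (nat_lit 23) .nil))))))) (.g (nat_lit 4) .nil .nil)))) (.nd (nat_lit 6) 
(.lf (nat_lit 224160) (.g (nat_lit 1807) (.e (nat_lit 98334) (nat_lit 18) (.e (nat_lit 164399) (nat_lit 256) (.e (nat_lit 57378) (nat_lit 3) (.e (nat_lit 98354) (nat_lit 26) .nil)))) .nil)) 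
(.lf (nat_lit 224224) (.g (nat_lit 1347) (.e (nat_lit 98335) (nat_lit 18) (.e (nat_lit 164178) (nat_lit 154) (.e (nat_lit 57447) (nat_lit 19) (.e (nat_lit 393227) (nat_lit 9) .nil)))) .nil)))) (.nd (nat_lit 5) (.nd (nat_lit 6) 
(.lf (nat_lit 224144) (.g (nat_lit 4019) (.e (nat_lit 98334) (nat_lit 18) (.e (nat_lit 164399) (nat_lit 256) (.e (nat_lit 57373) (nat_lit 2) (.e (nat_lit 90174) (nat_lit 14) (.e (nat_lit 180243) (nat_lit 5) (.e (nat_lit 532513) (nat_lit 3) (.e (nat_lit 114717) (nat_lit 23) .nil))))))) (.g (nat_lit 6) .nil .nil))) 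
(.lf (nat_lit 224208) (.g (nat_lit 2482) (.e (nat_lit 98334) (nat_lit 18) (.e (nat_lit 164403) (nat_lit 256) (.e (nat_lit 57378) (nat_lit 3) (.e (nat_lit 98357) (nat_lit 26) (.e (nat_lit 426131) (nat_lit 3) .nil))))) .nil))) (.nd (nat_lit 6) 
(.lf (nat_lit 224176) (.g (nat_lit 2549) (.e (nat_lit 98334) (nat_lit 18) (.e (nat_lit 164401) (nat_lit 256) (.e (nat_lit 57373) (nat_lit 2) (.e (nat_lit 90174) (nat_lit 14) (.e (nat_lit 180243) (nat_lit 5) (.e (nat_lit 532508) (nat_lit 2) (.e (nat_lit 106526) (nat_lit 9) (.e (nat_lit 1246) (nat_lit 92) .nil)))))))) (.g (nat_lit 4) .nil .nil))) 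
(.lf (nat_lit 224240) (.g (nat_lit 2535) (.e (nat_lit 98335) (nat_lit 18) (.e (nat_lit 164179) (nat_lit 154) (.e (nat_lit 57407) (nat_lit 12) (.e (nat_lit 336454) (nat_lit 34) (.e (nat_lit 483385) (nat_lit 23) (.e (nat_lit 343808) (nat_lit 3) .nil)))))) (.g (nat_lit 5) .nil .nil)))))) (.nd (nat_lit 4) (.nd (nat_lit 5) (.nd (nat_lit 6) 
(.lf (nat_lit 224136) (.g (nat_lit 3681) (.e (nat_lit 98334) (nat_lit 18) (.e (nat_lit 164399) (nat_lit 256) (.e (nat_lit 57373) (nat_lit 2) (.e (nat_lit 90170) (nat_lit 13) (.e (nat_lit 172067) (nat_lit 3) (.e (nat_lit 204837) (nat_lit 20) (.e (nat_lit 114717) (nat_lit 23) .nil))))))) (.g (nat_lit 5) .nil .nil))) 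
(.lf (nat_lit 224200) (.g (nat_lit 4116) (.e (nat_lit 98334) (nat_lit 18) (.e (nat_lit 164403) (nat_lit 256) (.e (nat_lit 57373) (nat_lit 2) (.e (nat_lit 90174) (nat_lit 14) (.e (nat_lit 180243) (nat_lit 5) (.e (nat_lit 532508) (nat_lit 2) (.e (nat_lit 106517) (nat_lit 9) (.e (nat_lit 1255) (nat_lit 92) .nil)))))))) (.g (nat_lit 5) .nil .nil)))) (.nd (nat_lit 6) 
(.lf (nat_lit 224168) (.g (nat_lit 1575) (.e (nat_lit 98334) (nat_lit 18) (.e (nat_lit 164399) (nat_lit 256) (.e (nat_lit 57379) (nat_lit 3) (.e (nat_lit 98354) (nat_lit 26) .nil)))) .nil)) 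
(.lf (nat_lit 224232) (.g (nat_lit 377) (.e (nat_lit 98335) (nat_lit 18) (.e (nat_lit 164179) (nat_lit 154) (.e (nat_lit 57406) (nat_lit 12) .nil))) .nil)))) (.nd (nat_lit 5) (.nd (nat_lit 6) 
(.lf (nat_lit 224152) (.g (nat_lit 4113) (.e (nat_lit 98334) (nat_lit 18) (.e (nat_lit 164399) (nat_lit 256) (.e (nat_lit 57374) (nat_lit 2) (.e (nat_lit 90170) (nat_lit 13) (.e (nat_lit 172067) (nat_lit 3) (.e (nat_lit 204838) (nat_lit 20) (.e (nat_lit 114717) (nat_lit 23) .nil))))))) (.g (nat_lit 5) .nil .nil))) 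
(.lf (nat_lit 224216) (.g (nat_lit 948) (.e (nat_lit 98335) (nat_lit 18) (.e (nat_lit 164177) (nat_lit 154) (.e (nat_lit 57447) (nat_lit 19) (.e (nat_lit 401152) (nat_lit 14) .nil)))) .nil))) (.nd (nat_lit 6) 
(.lf (nat_lit 224184) (.g (nat_lit 3221) (.e (nat_lit 98334) (nat_lit 18) (.e (nat_lit 164403) (nat_lit 256) (.e (nat_lit 57371) (nat_lit 2) (.e (nat_lit 90172) (nat_lit 14) (.e (nat_lit 180243) (nat_lit 5) (.e (nat_lit 532515) (nat_lit 3) (.e (nat_lit 114718) (nat_lit 23) .nil))))))) (.g (nat_lit 4) .nil .nil))) 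
(.lf (nat_lit 224248) (.g (nat_lit 1973) (.e (nat_lit 98335) (nat_lit 18) (.e (nat_lit 164179) (nat_lit 154) (.e (nat_lit 57409) (nat_lit 12) (.e (nat_lit 336456) (nat_lit 34) (.e (nat_lit 483391) (nat_lit 23) .nil))))) .nil)))))) (.nd (nat_lit 3) (.nd (nat_lit 4) (.nd (nat_lit 5) (.nd (nat_lit 6) 
(.lf (nat_lit 224132) (.g (nat_lit 3235) (.e (nat_lit 98334) (nat_lit 18) (.e (nat_lit 164399) (nat_lit 256) (.e (nat_lit 57372) (nat_lit 2) (.e (nat_lit 90174) (nat_lit 14) (.e (nat_lit 180243) (nat_lit 5) (.e (nat_lit 532515) (nat_lit 3) (.e (nat_lit 114717) (nat_lit 23) .nil))))))) (.g (nat_lit 5) .nil .nil))) 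
(.lf (nat_lit 224196) (.g (nat_lit 3261) (.e (nat_lit 98334) (nat_lit 18) (.e (nat_lit 164403) (nat_lit 256) (.e (nat_lit 57373) (nat_lit 2) (.e (nat_lit 90172) (nat_lit 14) (.e (nat_lit 180244) (nat_lit 5) (.e (nat_lit 532508) (nat_lit 2) (.e (nat_lit 106517) (nat_lit 9) (.e (nat_lit 1255) (nat_lit 92) .nil)))))))) (.g (nat_lit 4) .nil .nil)))) (.nd (nat_lit 6) 
(.lf (nat_lit 224164) (.g (nat_lit 3719) (.e (nat_lit 98334) (nat_lit 18) (.e (nat_lit 164399) (nat_lit 256) (.e (nat_lit 57378) (nat_lit 3) (.e (nat_lit 98358) (nat_lit 26) (.e (nat_lit 426131) (nat_lit 3) (.e (nat_lit 204838) (nat_lit 20) (.e (nat_lit 114717) (nat_lit 23) .nil))))))) (.g (nat_lit 6) .nil .nil))) 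
(.lf (nat_lit 224228) (.g (nat_lit 1010) (.e (nat_lit 98335) (nat_lit 18) (.e (nat_lit 164178) (nat_lit 154) (.e (nat_lit 57448) (nat_lit 19) (.e (nat_lit 401152) (nat_lit 11) .nil)))) .nil)))) (.nd (nat_lit 5) (.nd (nat_lit 6) 
(.lf (nat_lit 224148) (.g (nat_lit 1904) (.e (nat_lit 98334) (nat_lit 18) (.e (nat_lit 164399) (nat_lit 256) (.e (nat_lit 57373) (nat_lit 2) (.e (nat_lit 90185) (nat_lit 17) (.e (nat_lit 237592) (nat_lit 3) .nil))))) .nil)) 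
(.lf (nat_lit 224212) (.g (nat_lit 1368) (.e (nat_lit 98335) (nat_lit 18) (.e (nat_lit 164177) (nat_lit 154) (.e (nat_lit 57407) (nat_lit 12) (.e (nat_lit 336367) (nat_lit 27) (.e (nat_lit 426555) (nat_lit 32) .nil))))) .nil))) (.nd (nat_lit 6) 
(.lf (nat_lit 224180) (.g (nat_lit 2508) (.e (nat_lit 98334) (nat_lit 18) (.e (nat_lit 164401) (nat_lit 256) (.e (nat_lit 57378) (nat_lit 3) (.e (nat_lit 98367) (nat_lit 27) (.e (nat_lit 434231) (nat_lit 23) (.e (nat_lit 532507) (nat_lit 2) (.e (nat_lit 106517) (nat_lit 9) (.e (nat_lit 1255) (nat_lit 92) .nil)))))))) (.g (nat_lit 4) .nil .nil))) 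
(.lf (nat_lit 224244) (.g (nat_lit 2281) (.e (nat_lit 98335) (nat_lit 18) (.e (nat_lit 164179) (nat_lit 154) (.e (nat_lit 57407) (nat_lit 12) (.e (nat_lit 336456) (nat_lit 34) (.e (nat_lit 483391) (nat_lit 23) (.e (nat_lit 336017) (nat_lit 3) .nil)))))) (.g (nat_lit 4) .nil .nil)))))) (.nd (nat_lit 4) (.nd (nat_lit 5) (.nd (nat_lit 6) 
(.lf (nat_lit 224140) (.g (nat_lit 3977) (.e (nat_lit 98334) (nat_lit 18) (.e (nat_lit 164399) (nat_lit 256) (.e (nat_lit 57373) (nat_lit 2) (.e (nat_lit 90172) (nat_lit 14) (.e (nat_lit 180244) (nat_lit 5) (.e (nat_lit 532515) (nat_lit 3) (.e (nat_lit 114717) (nat_lit 23) .nil))))))) (.g (nat_lit 6) .nil .nil))) 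
(.lf (nat_lit 224204) (.g (nat_lit 3231) (.e (nat_lit 98334) (nat_lit 18) (.e (nat_lit 164403) (nat_lit 256) (.e (nat_lit 57373) (nat_lit 2) (.e (nat_lit 90174) (nat_lit 14) (.e (nat_lit 180245) (nat_lit 5) (.e (nat_lit 532515) (nat_lit 3) (.e (nat_lit 114719) (nat_lit 23) .nil))))))) (.g (nat_lit 4) .nil .nil)))) (.nd (nat_lit 6) 
(.lf (nat_lit 224172) (.g (nat_lit 2328) (.e (nat_lit 98334) (nat_lit 18) (.e (nat_lit 164400) (nat_lit 256) (.e (nat_lit 57375) (nat_lit 2) (.e (nat_lit 90172) (nat_lit 14) (.e (nat_lit 180243) (nat_lit 5) (.e (nat_lit 532508) (nat_lit 2) (.e (nat_lit 106517) (nat_lit 9) (.e (nat_lit 1255) (nat_lit 92) .nil)))))))) (.g (nat_lit 4) .nil .nil))) 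
(.lf (nat_lit 224236) (.g (nat_lit 2431) (.e (nat_lit 98335) (nat_lit 18) (.e (nat_lit 164179) (nat_lit 154) (.e (nat_lit 57406) (nat_lit 12) (.e (nat_lit 336456) (nat_lit 34) (.e (nat_lit 483393) (nat_lit 23) (.e (nat_lit 336026) (nat_lit 3) .nil)))))) (.g (nat_lit 4) .nil .nil))))) (.nd (nat_lit 5) (.nd (nat_lit 6) 
(.lf (nat_lit 224156) (.g (nat_lit 3302) (.e (nat_lit 98334) (nat_lit 18) (.e (nat_lit 164399) (nat_lit 256) (.e (nat_lit 57375) (nat_lit 2) (.e (nat_lit 90174) (nat_lit 14) (.e (nat_lit 180243) (nat_lit 5) (.e (nat_lit 532508) (nat_lit 2) (.e (nat_lit 106517) (nat_lit 9) (.e (nat_lit 1255) (nat_lit 92) .nil)))))))) (.g (nat_lit 5) .nil .nil))) 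
(.lf (nat_lit 224220) (.g (nat_lit 3849) (.e (nat_lit 98335) (nat_lit 18) (.e (nat_lit 164178) (nat_lit 154) (.e (nat_lit 57407) (nat_lit 12) (.e (nat_lit 336456) (nat_lit 34) (.e (nat_lit 483383) (nat_lit 23) (.e (nat_lit 336019) (nat_lit 3) .nil)))))) (.g (nat_lit 0) .nil .nil)))) (.nd (nat_lit 6) 
(.lf (nat_lit 224188) (.g (nat_lit 2084) (.e (nat_lit 98334) (nat_lit 18) (.e (nat_lit 164403) (nat_lit 256) (.e (nat_lit 57373) (nat_lit 2) (.e (nat_lit 90167) (nat_lit 13) .nil)))) .nil)) 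
(.lf (nat_lit 224252) (.g (nat_lit 2565) (.e (nat_lit 98335) (nat_lit 18) (.e (nat_lit 164179) (nat_lit 154) (.e (nat_lit 57411) (nat_lit 12) (.e (nat_lit 336456) (nat_lit 34) (.e (nat_lit 483391) (nat_lit 23) .nil))))) .nil))))))) (.nd (nat_lit 2) (.nd (nat_lit 3) (.nd (nat_lit 4) (.nd (nat_lit 5) (.nd (nat_lit 6) 
(.lf (nat_lit 224130) (.g (nat_lit 2286) (.e (nat_lit 98334) (nat_lit 18) (.e (nat_lit 164399) (nat_lit 256) (.e (nat_lit 57372) (nat_lit 2) (.e (nat_lit 90172) (nat_lit 14) (.e (nat_lit 180245) (nat_lit 5) .nil))))) .nil)) 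
(.lf (nat_lit 224194) (.g (nat_lit 3215) (.e (nat_lit 98334) (nat_lit 18) (.e (nat_lit 164403) (nat_lit 256) (.e (nat_lit 57373) (nat_lit 2) (.e (nat_lit 90172) (nat_lit 14) (.e (nat_lit 180243) (nat_lit 5) .nil))))) .nil))) (.nd (nat_lit 6) 
(.lf (nat_lit 224162) (.g (nat_lit 3204) (.e (nat_lit 98334) (nat_lit 18) (.e (nat_lit 164399) (nat_lit 256) (.e (nat_lit 57378) (nat_lit 3) (.e (nat_lit 98355) (nat_lit 26) (.e (nat_lit 426131) (nat_lit 3) (.e (nat_lit 204838) (nat_lit 20) (.e (nat_lit 114717) (nat_lit 23) .nil))))))) (.g (nat_lit 4) .nil .nil))) 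
(.lf (nat_lit 224226) (.g (nat_lit 1097) (.e (nat_lit 98335) (nat_lit 18) (.e (nat_lit 164178) (nat_lit 154) (.e (nat_lit 57447) (nat_lit 19) (.e (nat_lit 393229) (nat_lit 9) .nil)))) .nil)))) (.nd (nat_lit 5) (.nd (nat_lit 6) 
(.lf (nat_lit 224146) (.g (nat_lit 3963) (.e (nat_lit 98334) (nat_lit 18) (.e (nat_lit 164399) (nat_lit 256) (.e (nat_lit 57373) (nat_lit 2) (.e (nat_lit 90174) (nat_lit 14) (.e (nat_lit 180243) (nat_lit 5) (.e (nat_lit 532515) (nat_lit 3) (.e (nat_lit 114717) (nat_lit 23) .nil))))))) (.g (nat_lit 6) .nil .nil))) 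
(.lf (nat_lit 224210) (.g (nat_lit 1016) (.e (nat_lit 98335) (nat_lit 18) (.e (nat_lit 164159) (nat_lit 152) (.e (nat_lit 1201) (nat_lit 88) (.e (nat_lit 65651) (nat_lit 27) .nil)))) .nil))) (.nd (nat_lit 6) 
(.lf (nat_lit 224178) (.g (nat_lit 5200) (.e (nat_lit 98334) (nat_lit 18) (.e (nat_lit 164401) (nat_lit 256) (.e (nat_lit 57373) (nat_lit 2) (.e (nat_lit 90174) (nat_lit 14) (.e (nat_lit 180243) (nat_lit 5) (.e (nat_lit 532513) (nat_lit 3) (.e (nat_lit 114718) (nat_lit 23) .nil))))))) (.g (nat_lit 0) .nil .nil))) 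
(.lf (nat_lit 224242) (.g (nat_lit 1275) (.e (nat_lit 98335) (nat_lit 18) (.e (nat_lit 164179) (nat_lit 154) (.e (nat_lit 57407) (nat_lit 12) (.e (nat_lit 336455) (nat_lit 34) .nil)))) .nil))))) (.nd (nat_lit 4) (.nd (nat_lit 5) (.nd (nat_lit 6) 
(.lf (nat_lit 224138) (.g (nat_lit 3691) (.e (nat_lit 98334) (nat_lit 18) (.e (nat_lit 164399) (nat_lit 256) (.e (nat_lit 57373) (nat_lit 2) (.e (nat_lit 90172) (nat_lit 14) (.e (nat_lit 180244) (nat_lit 5) (.e (nat_lit 532508) (nat_lit 2) (.e (nat_lit 106517) (nat_lit 9) (.e (nat_lit 1255) (nat_lit 92) .nil)))))))) (.g (nat_lit 5) .nil .nil))) 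
(.lf (nat_lit 224202) (.g (nat_lit 3360) (.e (nat_lit 98334) (nat_lit 18) (.e (nat_lit 164403) (nat_lit 256) (.e (nat_lit 57373) (nat_lit 2) (.e (nat_lit 90174) (nat_lit 14) (.e (nat_lit 180243) (nat_lit 5) (.e (nat_lit 532515) (nat_lit 3) (.e (nat_lit 114717) (nat_lit 23) .nil))))))) (.g (nat_lit 4) .nil .nil)))) (.nd (nat_lit 6) 
(.lf (nat_lit 224170) (.g (nat_lit 3309) (.e (nat_lit 98334) (nat_lit 18) (.e (nat_lit 164399) (nat_lit 256) (.e (nat_lit 57379) (nat_lit 3) (.e (nat_lit 98367) (nat_lit 27) (.e (nat_lit 434231) (nat_lit 23) (.e (nat_lit 532514) (nat_lit 3) (.e (nat_lit 114717) (nat_lit 23) .nil))))))) (.g (nat_lit 5) .nil .nil))) 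
(.lf (nat_lit 224234) (.g (nat_lit 2504) (.e (nat_lit 98335) (nat_lit 18) (.e (nat_lit 164179) (nat_lit 154) (.e (nat_lit 57406) (nat_lit 12) (.e (nat_lit 336454) (nat_lit 34) (.e (nat_lit 483385) (nat_lit 23) (.e (nat_lit 343808) (nat_lit 3) .nil)))))) (.g (nat_lit 5) .nil .nil))))) (.nd (nat_lit 5) (.nd (nat_lit 6) 
(.lf (nat_lit 224154) (.g (nat_lit 2847) (.e (nat_lit 98334) (nat_lit 18) (.e (nat_lit 164399) (nat_lit 256) (.e (nat_lit 57375) (nat_lit 2) (.e (nat_lit 90172) (nat_lit 14) (.e (nat_lit 180243) (nat_lit 5) (.e (nat_lit 532508) (nat_lit 2) (.e (nat_lit 106517) (nat_lit 9) (.e (nat_lit 1255) (nat_lit 92) .nil)))))))) (.g (nat_lit 4) .nil .nil))) 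
(.lf (nat_lit 224218) (.g (nat_lit 2019) (.e (nat_lit 98335) (nat_lit 18) (.e (nat_lit 164178) (nat_lit 154) (.e (nat_lit 57406) (nat_lit 12) (.e (nat_lit 336456) (nat_lit 34) (.e (nat_lit 483393) (nat_lit 23) .nil))))) .nil))) (.nd (nat_lit 6) 
(.lf (nat_lit 224186) (.g (nat_lit 4360) (.e (nat_lit 98334) (nat_lit 18) (.e (nat_lit 164403) (nat_lit 256) (.e (nat_lit 57371) (nat_lit 2) (.e (nat_lit 90174) (nat_lit 14) (.e (nat_lit 180243) (nat_lit 5) (.e (nat_lit 532513) (nat_lit 3) (.e (nat_lit 114719) (nat_lit 23) .nil))))))) (.g (nat_lit 6) .nil .nil))) 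
(.lf (nat_lit 224250) (.g (nat_lit 2158) (.e (nat_lit 98335) (nat_lit 18) (.e (nat_lit 164179) (nat_lit 154) (.e (nat_lit 57411) (nat_lit 12) (.e (nat_lit 336454) (nat_lit 34) (.e (nat_lit 483385) (nat_lit 23) .nil))))) .nil)))))) (.nd (nat_lit 3) (.nd (nat_lit 4) (.nd (nat_lit 5) (.nd (nat_lit 6) 
(.lf (nat_lit 224134) (.g (nat_lit 3923) (.e (nat_lit 98334) (nat_lit 18) (.e (nat_lit 164399) (nat_lit 256) (.e (nat_lit 57373) (nat_lit 2) (.e (nat_lit 90170) (nat_lit 13) (.e (nat_lit 172065) (nat_lit 3) (.e (nat_lit 204838) (nat_lit 20) (.e (nat_lit 114717) (nat_lit 23) .nil))))))) (.g (nat_lit 6) .nil .nil))) 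
(.lf (nat_lit 224198) (.g (nat_lit 3547) (.e (nat_lit 98334) (nat_lit 18) (.e (nat_lit 164403) (nat_lit 256) (.e (nat_lit 57373) (nat_lit 2) (.e (nat_lit 90172) (nat_lit 14) (.e (nat_lit 180244) (nat_lit 5) (.e (nat_lit 532515) (nat_lit 3) (.e (nat_lit 114717) (nat_lit 23) .nil))))))) (.g (nat_lit 4) .nil .nil)))) (.nd (nat_lit 6) 
(.lf (nat_lit 224166) (.g (nat_lit 2576) (.e (nat_lit 98334) (nat_lit 18) (.e (nat_lit 164399) (nat_lit 256) (.e (nat_lit 57378) (nat_lit 3) (.e (nat_lit 98367) (nat_lit 27) (.e (nat_lit 434234) (nat_lit 23) .nil))))) .nil)) 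
(.lf (nat_lit 224230) (.g (nat_lit 3792) (.e (nat_lit 98335) (nat_lit 18) (.e (nat_lit 164179) (nat_lit 154) (.e (nat_lit 57377) (nat_lit 3) (.e (nat_lit 98341) (nat_lit 20) (.e (nat_lit 221215) (nat_lit 23) (.e (nat_lit 204861) (nat_lit 26) (.e (nat_lit 336026) (nat_lit 3) .nil))))))) (.g (nat_lit 5) .nil .nil))))) (.nd (nat_lit 5) (.nd (nat_lit 6) 
(.lf (nat_lit 224150) (.g (nat_lit 4174) (.e (nat_lit 98334) (nat_lit 18) (.e (nat_lit 164399) (nat_lit 256) (.e (nat_lit 57374) (nat_lit 2) (.e (nat_lit 90170) (nat_lit 13) (.e (nat_lit 172065) (nat_lit 3) (.e (nat_lit 204838) (nat_lit 20) (.e (nat_lit 114717) (nat_lit 23) .nil))))))) (.g (nat_lit 5) .nil .nil))) 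
(.lf (nat_lit 224214) (.g (nat_lit 1541) (.e (nat_lit 98335) (nat_lit 18) (.e (nat_lit 164177) (nat_lit 154) (.e (nat_lit 57407) (nat_lit 12) (.e (nat_lit 336456) (nat_lit 34) (.e (nat_lit 483389) (nat_lit 23) .nil))))) .nil))) (.nd (nat_lit 6) 
(.lf (nat_lit 224182) (.g (nat_lit 2877) (.e (nat_lit 98334) (nat_lit 18) (.e (nat_lit 164401) (nat_lit 256) (.e (nat_lit 57378) (nat_lit 3) (.e (nat_lit 98377) (nat_lit 30) (.e (nat_lit 458789) (nat_lit 23) (.e (nat_lit 532515) (nat_lit 3) (.e (nat_lit 114717) (nat_lit 23) .nil))))))) (.g (nat_lit 5) .nil .nil))) 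
(.lf (nat_lit 224246) (.g (nat_lit 1961) (.e (nat_lit 98335) (nat_lit 18) (.e (nat_lit 164179) (nat_lit 154) (.e (nat_lit 57409) (nat_lit 12) (.e (nat_lit 336414) (nat_lit 27) (.e (nat_lit 426541) (nat_lit 29) .nil))))) .nil))))) (.nd (nat_lit 4) (.nd (nat_lit 5) (.nd (nat_lit 6) 
(.lf (nat_lit 224142) (.g (nat_lit 2745) (.e (nat_lit 98334) (nat_lit 18) (.e (nat_lit 164399) (nat_lit 256) (.e (nat_lit 57373) (nat_lit 2) (.e (nat_lit 90174) (nat_lit 14) (.e (nat_lit 180243) (nat_lit 5) (.e (nat_lit 532508) (nat_lit 2) (.e (nat_lit 106526) (nat_lit 9) (.e (nat_lit 1246) (nat_lit 92) .nil)))))))) (.g (nat_lit 4) .nil .nil))) 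
(.lf (nat_lit 224206) (.g (nat_lit 2837) (.e (nat_lit 98334) (nat_lit 18) (.e (nat_lit 164403) (nat_lit 256) (.e (nat_lit 57373) (nat_lit 2) (.e (nat_lit 90185) (nat_lit 17) (.e (nat_lit 237594) (nat_lit 3) .nil))))) .nil))) (.nd (nat_lit 6) 
(.lf (nat_lit 224174) (.g (nat_lit 2331) (.e (nat_lit 98334) (nat_lit 18) (.e (nat_lit 164401) (nat_lit 256) (.e (nat_lit 57373) (nat_lit 2) (.e (nat_lit 90170) (nat_lit 13) (.e (nat_lit 172065) (nat_lit 3) (.e (nat_lit 204834) (nat_lit 19) (.e (nat_lit 106517) (nat_lit 9) (.e (nat_lit 1255) (nat_lit 92) .nil)))))))) (.g (nat_lit 4) .nil .nil))) 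
(.lf (nat_lit 224238) (.g (nat_lit 1383) (.e (nat_lit 98335) (nat_lit 18) (.e (nat_lit 164179) (nat_lit 154) (.e (nat_lit 57407) (nat_lit 12) (.e (nat_lit 336370) (nat_lit 27) .nil)))) .nil)))) (.nd (nat_lit 5) (.nd (nat_lit 6) 
(.lf (nat_lit 224158) (.g (nat_lit 3431) (.e (nat_lit 98334) (nat_lit 18) (.e (nat_lit 164399) (nat_lit 256) (.e (nat_lit 57377) (nat_lit 3) (.e (nat_lit 98357) (nat_lit 26) (.e (nat_lit 426131) (nat_lit 3) (.e (nat_lit 204838) (nat_lit 20) (.e (nat_lit 114717) (nat_lit 23) .nil))))))) (.g (nat_lit 5) .nil .nil))) 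
(.lf (nat_lit 224222) (.g (nat_lit 2149) (.e (nat_lit 98335) (nat_lit 18) (.e (nat_lit 164178) (nat_lit 154) (.e (nat_lit 57411) (nat_lit 12) (.e (nat_lit 336367) (nat_lit 27) (.e (nat_lit 426542) (nat_lit 29) .nil))))) .nil))) (.nd (nat_lit 6) 
(.lf (nat_lit 224190) (.g (nat_lit 3085) (.e (nat_lit 98334) (nat_lit 18) (.e (nat_lit 164403) (nat_lit 256) (.e (nat_lit 57373) (nat_lit 2) (.e (nat_lit 90170) (nat_lit 13) (.e (nat_lit 172065) (nat_lit 3) (.e (nat_lit 204838) (nat_lit 20) (.e (nat_lit 114717) (nat_lit 23) .nil))))))) (.g (nat_lit 4) .nil .nil))) 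
(.lf (nat_lit 224254) (.g (nat_lit 388) (.e (nat_lit 98335) (nat_lit 18) (.e (nat_lit 164179) (nat_lit 154) (.e (nat_lit 57445) (nat_lit 19) .nil))) .nil)))))))) (.nd (nat_lit 1) (.nd (nat_lit 2) (.nd (nat_lit 3) (.nd (nat_lit 4) (.nd (nat_lit 5) (.nd (nat_lit 6) 
(.lf (nat_lit 224129) (.g (nat_lit 3961) (.e (nat_lit 98334) (nat_lit 18) (.e (nat_lit 164399) (nat_lit 256) (.e (nat_lit 57372) (nat_lit 2) (.e (nat_lit 90172) (nat_lit 14) (.e (nat_lit 180244) (nat_lit 5) (.e (nat_lit 532515) (nat_lit 3) (.e (nat_lit 114717) (nat_lit 23) .nil))))))) (.g (nat_lit 6) .nil .nil))) 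
(.lf (nat_lit 224193) (.g (nat_lit 1707) (.e (nat_lit 98334) (nat_lit 18) (.e (nat_lit 164403) (nat_lit 256) (.e (nat_lit 57373) (nat_lit 2) (.e (nat_lit 90172) (nat_lit 14) .nil)))) .nil))) (.nd (nat_lit 6) 
(.lf (nat_lit 224161) (.g (nat_lit 2372) (.e (nat_lit 98334) (nat_lit 18) (.e (nat_lit 164399) (nat_lit 256) (.e (nat_lit 57378) (nat_lit 3) (.e (nat_lit 98355) (nat_lit 26) (.e (nat_lit 426131) (nat_lit 3) .nil))))) .nil)) 
(.lf (nat_lit 224225) (.g (nat_lit 1715) (.e (nat_lit 98335) (nat_lit 18) (.e (nat_lit 164178) (nat_lit 154) (.e (nat_lit 57447) (nat_lit 19) (.e (nat_lit 393228) (nat_lit 9) .nil)))) .nil)))) (.nd (nat_lit 5) (.nd (nat_lit 6) 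
(.lf (nat_lit 224145) (.g (nat_lit 5381) (.e (nat_lit 98334) (nat_lit 18) (.e (nat_lit 164399) (nat_lit 256) (.e (nat_lit 57373) (nat_lit 2) (.e (nat_lit 90174) (nat_lit 14) (.e (nat_lit 180243) (nat_lit 5) (.e (nat_lit 532513) (nat_lit 3) (.e (nat_lit 114718) (nat_lit 23) .nil))))))) (.g (nat_lit 0) .nil .nil))) 
(.lf (nat_lit 224209) (.g (nat_lit 1873) (.e (nat_lit 98334) (nat_lit 18) (.e (nat_lit 164403) (nat_lit 256) (.e (nat_lit 57378) (nat_lit 3) (.e (nat_lit 98376) (nat_lit 30) (.e (nat_lit 458789) (nat_lit 23) .nil))))) .nil))) (.nd (nat_lit 6) 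
(.lf (nat_lit 224177) (.g (nat_lit 3770) (.e (nat_lit 98334) (nat_lit 18) (.e (nat_lit 164401) (nat_lit 256) (.e (nat_lit 57373) (nat_lit 2) (.e (nat_lit 90174) (nat_lit 14) (.e (nat_lit 180243) (nat_lit 5) (.e (nat_lit 532513) (nat_lit 3) (.e (nat_lit 114717) (nat_lit 23) .nil))))))) (.g (nat_lit 6) .nil .nil))) 
(.lf (nat_lit 224241) (.g (nat_lit 1870) (.e (nat_lit 98335) (nat_lit 18) (.e (nat_lit 164179) (nat_lit 154) (.e (nat_lit 57407) (nat_lit 12) (.e (nat_lit 336454) (nat_lit 34) (.e (nat_lit 483391) (nat_lit 23) .nil))))) .nil))))) (.nd (nat_lit 4) (.nd (nat_lit 5) (.nd (nat_lit 6) 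
(.lf (nat_lit 224137) (.g (nat_lit 3207) (.e (nat_lit 98334) (nat_lit 18) (.e (nat_lit 164399) (nat_lit 256) (.e (nat_lit 57373) (nat_lit 2) (.e (nat_lit 90172) (nat_lit 14) (.e (nat_lit 180243) (nat_lit 5) (.e (nat_lit 532508) (nat_lit 2) (.e (nat_lit 106517) (nat_lit 9) (.e (nat_lit 1255) (nat_lit 92) .nil)))))))) (.g (nat_lit 4) .nil .nil))) 
(.lf (nat_lit 224201) (.g (nat_lit 3416) (.e (nat_lit 98334) (nat_lit 18) (.e (nat_lit 164403) (nat_lit 256) (.e (nat_lit 57373) (nat_lit 2) (.e (nat_lit 90174) (nat_lit 14) (.e (nat_lit 180243) (nat_lit 5) (.e (nat_lit 532513) (nat_lit 3) (.e (nat_lit 114717) (nat_lit 23) .nil))))))) (.g (nat_lit 4) .nil .nil)))) (.nd (nat_lit 6) 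
(.lf (nat_lit 224169) (.g (nat_lit 2970) (.e (nat_lit 98334) (nat_lit 18) (.e (nat_lit 164399) (nat_lit 256) (.e (nat_lit 57379) (nat_lit 3) (.e (nat_lit 98367) (nat_lit 27) (.e (nat_lit 434231) (nat_lit 23) (.e (nat_lit 532507) (nat_lit 2) (.e (nat_lit 106517) (nat_lit 9) (.e (nat_lit 1255) (nat_lit 92) .nil)))))))) (.g (nat_lit 4) .nil .nil))) 
(.lf (nat_lit 224233) (.g (nat_lit 2057) (.e (nat_lit 98335) (nat_lit 18) (.e (nat_lit 164179) (nat_lit 154) (.e (nat_lit 57406) (nat_lit 12) (.e (nat_lit 336454) (nat_lit 34) (.e (nat_lit 483384) (nat_lit 23) (.e (nat_lit 343808) (nat_lit 3) .nil)))))) (.g (nat_lit 5) .nil .nil))))) (.nd (nat_lit 5) (.nd (nat_lit 6) 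
(.lf (nat_lit 224153) (.g (nat_lit 2025) (.e (nat_lit 98334) (nat_lit 18) (.e (nat_lit 164399) (nat_lit 256) (.e (nat_lit 57375) (nat_lit 2) (.e (nat_lit 90167) (nat_lit 13) (.e (nat_lit 172067) (nat_lit 3) .nil))))) .nil)) 
(.lf (nat_lit 224217) (.g (nat_lit 3634) (.e (nat_lit 98335) (nat_lit 18) (.e (nat_lit 164178) (nat_lit 154) (.e (nat_lit 57406) (nat_lit 12) (.e (nat_lit 336456) (nat_lit 34) (.e (nat_lit 483383) (nat_lit 23) (.e (nat_lit 336019) (nat_lit 3) .nil)))))) (.g (nat_lit 0) .nil .nil)))) (.nd (nat_lit 6) 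
(.lf (nat_lit 224185) (.g (nat_lit 2168) (.e (nat_lit 98334) (nat_lit 18) (.e (nat_lit 164403) (nat_lit 256) (.e (nat_lit 57371) (nat_lit 2) (.e (nat_lit 90172) (nat_lit 14) (.e (nat_lit 180244) (nat_lit 5) .nil))))) .nil)) 
(.lf (nat_lit 224249) (.g (nat_lit 461) (.e (nat_lit 98335) (nat_lit 18) (.e (nat_lit 164179) (nat_lit 154) (.e (nat_lit 57411) (nat_lit 12) .nil))) .nil)))))) (.nd (nat_lit 3) (.nd (nat_lit 4) (.nd (nat_lit 5) (.nd (nat_lit 6) 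
(.lf (nat_lit 224133) (.g (nat_lit 2121) (.e (nat_lit 98334) (nat_lit 18) (.e (nat_lit 164399) (nat_lit 256) (.e (nat_lit 57372) (nat_lit 2) (.e (nat_lit 90174) (nat_lit 14) (.e (nat_lit 180245) (nat_lit 5) .nil))))) .nil)) 
(.lf (nat_lit 224197) (.g (nat_lit 3076) (.e (nat_lit 98334) (nat_lit 18) (.e (nat_lit 164403) (nat_lit 256) (.e (nat_lit 57373) (nat_lit 2) (.e (nat_lit 90172) (nat_lit 14) (.e (nat_lit 180244) (nat_lit 5) (.e (nat_lit 532513) (nat_lit 3) (.e (nat_lit 114717) (nat_lit 23) .nil))))))) (.g (nat_lit 4) .nil .nil)))) (.nd (nat_lit 6) 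
(.lf (nat_lit 224165) (.g (nat_lit 1535) (.e (nat_lit 98334) (nat_lit 18) (.e (nat_lit 164399) (nat_lit 256) (.e (nat_lit 57378) (nat_lit 3) (.e (nat_lit 98366) (nat_lit 27) .nil)))) .nil)) 
(.lf (nat_lit 224229) (.g (nat_lit 3505) (.e (nat_lit 98335) (nat_lit 18) (.e (nat_lit 164179) (nat_lit 154) (.e (nat_lit 57377) (nat_lit 3) (.e (nat_lit 98341) (nat_lit 20) (.e (nat_lit 221211) (nat_lit 22) (.e (nat_lit 196666) (nat_lit 13) (.e (nat_lit 65569) (nat_lit 3) .nil))))))) (.g (nat_lit 4) .nil .nil))))) (.nd (nat_lit 5) (.nd (nat_lit 6) 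
(.lf (nat_lit 224149) (.g (nat_lit 2224) (.e (nat_lit 98334) (nat_lit 18) (.e (nat_lit 164399) (nat_lit 256) (.e (nat_lit 57373) (nat_lit 2) (.e (nat_lit 90185) (nat_lit 17) (.e (nat_lit 237594) (nat_lit 3) .nil))))) .nil)) 
(.lf (nat_lit 224213) (.g (nat_lit 1374) (.e (nat_lit 98335) (nat_lit 18) (.e (nat_lit 164177) (nat_lit 154) (.e (nat_lit 57407) (nat_lit 12) (.e (nat_lit 336454) (nat_lit 34) .nil)))) .nil))) (.nd (nat_lit 6) 
(.lf (nat_lit 224181) (.g (nat_lit 2327) (.e (nat_lit 98334) (nat_lit 18) (.e (nat_lit 164401) (nat_lit 256) (.e (nat_lit 57378) (nat_lit 3) (.e (nat_lit 98367) (nat_lit 27) (.e (nat_lit 434234) (nat_lit 23) .nil))))) .nil)) 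
(.lf (nat_lit 224245) (.g (nat_lit 1456) (.e (nat_lit 98335) (nat_lit 18) (.e (nat_lit 164179) (nat_lit 154) (.e (nat_lit 57409) (nat_lit 12) (.e (nat_lit 336369) (nat_lit 27) .nil)))) .nil))))) (.nd (nat_lit 4) (.nd (nat_lit 5) (.nd (nat_lit 6) 
(.lf (nat_lit 224141) (.g (nat_lit 1948) (.e (nat_lit 98334) (nat_lit 18) (.e (nat_lit 164399) (nat_lit 256) (.e (nat_lit 57373) (nat_lit 2) (.e (nat_lit 90174) (nat_lit 14) (.e (nat_lit 180243) (nat_lit 5) .nil))))) .nil)) 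
(.lf (nat_lit 224205) (.g (nat_lit 2566) (.e (nat_lit 98334) (nat_lit 18) (.e (nat_lit 164403) (nat_lit 256) (.e (nat_lit 57373) (nat_lit 2) (.e (nat_lit 90185) (nat_lit 17) (.e (nat_lit 237592) (nat_lit 3) .nil))))) .nil))) (.nd (nat_lit 6) 
(.lf (nat_lit 224173) (.g (nat_lit 2576) (.e (nat_lit 98334) (nat_lit 18) (.e (nat_lit 164400) (nat_lit 256) (.e (nat_lit 57375) (nat_lit 2) (.e (nat_lit 90174) (nat_lit 14) (.e (nat_lit 180243) (nat_lit 5) (.e (nat_lit 532515) (nat_lit 3) (.e (nat_lit 114717) (nat_lit 23) .nil))))))) (.g (nat_lit 4) .nil .nil))) 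
(.lf (nat_lit 224237) (.g (nat_lit 377) (.e (nat_lit 98335) (nat_lit 18) (.e (nat_lit 164179) (nat_lit 154) (.e (nat_lit 57407) (nat_lit 12) .nil))) .nil)))) (.nd (nat_lit 5) (.nd (nat_lit 6) 
(.lf (nat_lit 224157) (.g (nat_lit 2948) (.e (nat_lit 98334) (nat_lit 18) (.e (nat_lit 164399) (nat_lit 256) (.e (nat_lit 57377) (nat_lit 3) (.e (nat_lit 98356) (nat_lit 26) (.e (nat_lit 426131) (nat_lit 3) .nil))))) .nil)) 
(.lf (nat_lit 224221) (.g (nat_lit 2284) (.e (nat_lit 98335) (nat_lit 18) (.e (nat_lit 164178) (nat_lit 154) (.e (nat_lit 57407) (nat_lit 12) (.e (nat_lit 336456) (nat_lit 34) (.e (nat_lit 483391) (nat_lit 23) .nil))))) .nil))) (.nd (nat_lit 6) 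
(.lf (nat_lit 224189) (.g (nat_lit 2299) (.e (nat_lit 98334) (nat_lit 18) (.e (nat_lit 164403) (nat_lit 256) (.e (nat_lit 57373) (nat_lit 2) (.e (nat_lit 90170) (nat_lit 13) (.e (nat_lit 172065) (nat_lit 3) .nil))))) .nil)) 
(.lf (nat_lit 224253) (.g (nat_lit 2243) (.e (nat_lit 98335) (nat_lit 18) (.e (nat_lit 164179) (nat_lit 154) (.e (nat_lit 57412) (nat_lit 12) (.e (nat_lit 336389) (nat_lit 27) (.e (nat_lit 426523) (nat_lit 27) .nil))))) .nil))))))) (.nd (nat_lit 2) (.nd (nat_lit 3) (.nd (nat_lit 4) (.nd (nat_lit 5) (.nd (nat_lit 6) 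
(.lf (nat_lit 224131) (.g (nat_lit 3295) (.e (nat_lit 98334) (nat_lit 18) (.e (nat_lit 164399) (nat_lit 256) (.e (nat_lit 57372) (nat_lit 2) (.e (nat_lit 90174) (nat_lit 14) (.e (nat_lit 180243) (nat_lit 5) (.e (nat_lit 532513) (nat_lit 3) (.e (nat_lit 114717) (nat_lit 23) .nil))))))) (.g (nat_lit 5) .nil .nil))) 
(.lf (nat_lit 224195) (.g (nat_lit 3793) (.e (nat_lit 98334) (nat_lit 18) (.e (nat_lit 164403) (nat_lit 256) (.e (nat_lit 57373) (nat_lit 2) (.e (nat_lit 90172) (nat_lit 14) (.e (nat_lit 180243) (nat_lit 5) (.e (nat_lit 532515) (nat_lit 3) (.e (nat_lit 114718) (nat_lit 23) .nil))))))) (.g (nat_lit 4) .nil .nil)))) (.nd (nat_lit 6) 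
(.lf (nat_lit 224163) (.g (nat_lit 2667) (.e (nat_lit 98334) (nat_lit 18) (.e (nat_lit 164399) (nat_lit 256) (.e (nat_lit 57378) (nat_lit 3) (.e (nat_lit 98356) (nat_lit 26) (.e (nat_lit 426131) (nat_lit 3) .nil))))) .nil)) 
(.lf (nat_lit 224227) (.g (nat_lit 1566) (.e (nat_lit 98335) (nat_lit 18) (.e (nat_lit 164178) (nat_lit 154) (.e (nat_lit 57448) (nat_lit 19) (.e (nat_lit 393225) (nat_lit 9) (.e (nat_lit 336087) (nat_lit 9) .nil))))) .nil)))) (.nd (nat_lit 5) (.nd (nat_lit 6) 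
(.lf (nat_lit 224147) (.g (nat_lit 2487) (.e (nat_lit 98334) (nat_lit 18) (.e (nat_lit 164399) (nat_lit 256) (.e (nat_lit 57373) (nat_lit 2) (.e (nat_lit 90174) (nat_lit 14) (.e (nat_lit 180245) (nat_lit 5) .nil))))) .nil)) 
(.lf (nat_lit 224211) (.g (nat_lit 1397) (.e (nat_lit 98335) (nat_lit 18) (.e (nat_lit 164176) (nat_lit 154) (.e (nat_lit 57407) (nat_lit 12) (.e (nat_lit 336367) (nat_lit 27) (.e (nat_lit 426542) (nat_lit 29) .nil))))) .nil))) (.nd (nat_lit 6) 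
(.lf (nat_lit 224179) (.g (nat_lit 2951) (.e (nat_lit 98334) (nat_lit 18) (.e (nat_lit 164401) (nat_lit 256) (.e (nat_lit 57378) (nat_lit 3) (.e (nat_lit 98366) (nat_lit 27) (.e (nat_lit 434231) (nat_lit 23) (.e (nat_lit 532507) (nat_lit 2) (.e (nat_lit 106517) (nat_lit 9) (.e (nat_lit 1255) (nat_lit 92) .nil)))))))) (.g (nat_lit 4) .nil .nil))) 
(.lf (nat_lit 224243) (.g (nat_lit 1704) (.e (nat_lit 98335) (nat_lit 18) (.e (nat_lit 164179) (nat_lit 154) (.e (nat_lit 57407) (nat_lit 12) (.e (nat_lit 336456) (nat_lit 34) (.e (nat_lit 483389) (nat_lit 23) .nil))))) .nil))))) (.nd (nat_lit 4) (.nd (nat_lit 5) (.nd (nat_lit 6) 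
(.lf (nat_lit 224139) (.g (nat_lit 3506) (.e (nat_lit 98334) (nat_lit 18) (.e (nat_lit 164399) (nat_lit 256) (.e (nat_lit 57373) (nat_lit 2) (.e (nat_lit 90172) (nat_lit 14) (.e (nat_lit 180244) (nat_lit 5) (.e (nat_lit 532513) (nat_lit 3) (.e (nat_lit 114717) (nat_lit 23) .nil))))))) (.g (nat_lit 5) .nil .nil))) 
(.lf (nat_lit 224203) (.g (nat_lit 3209) (.e (nat_lit 98334) (nat_lit 18) (.e (nat_lit 164403) (nat_lit 256) (.e (nat_lit 57373) (nat_lit 2) (.e (nat_lit 90174) (nat_lit 14) (.e (nat_lit 180245) (nat_lit 5) .nil))))) .nil))) (.nd (nat_lit 6) 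
(.lf (nat_lit 224171) (.g (nat_lit 2542) (.e (nat_lit 98334) (nat_lit 18) (.e (nat_lit 164400) (nat_lit 256) (.e (nat_lit 57372) (nat_lit 2) (.e (nat_lit 90172) (nat_lit 14) (.e (nat_lit 180243) (nat_lit 5) (.e (nat_lit 532508) (nat_lit 2) (.e (nat_lit 106517) (nat_lit 9) (.e (nat_lit 1255) (nat_lit 92) .nil)))))))) (.g (nat_lit 4) .nil .nil))) 
(.lf (nat_lit 224235) (.g (nat_lit 2552) (.e (nat_lit 98335) (nat_lit 18) (.e (nat_lit 164179) (nat_lit 154) (.e (nat_lit 57406) (nat_lit 12) (.e (nat_lit 336456) (nat_lit 34) (.e (nat_lit 483391) (nat_lit 23) (.e (nat_lit 336017) (nat_lit 3) .nil)))))) (.g (nat_lit 4) .nil .nil))))) (.nd (nat_lit 5) (.nd (nat_lit 6) 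
(.lf (nat_lit 224155) (.g (nat_lit 3473) (.e (nat_lit 98334) (nat_lit 18) (.e (nat_lit 164399) (nat_lit 256) (.e (nat_lit 57375) (nat_lit 2) (.e (nat_lit 90172) (nat_lit 14) (.e (nat_lit 180244) (nat_lit 5) (.e (nat_lit 532515) (nat_lit 3) (.e (nat_lit 114717) (nat_lit 23) .nil))))))) (.g (nat_lit 5) .nil .nil))) 
(.lf (nat_lit 224219) (.g (nat_lit 2108) (.e (nat_lit 98335) (nat_lit 18) (.e (nat_lit 164178) (nat_lit 154) (.e (nat_lit 57407) (nat_lit 12) (.e (nat_lit 336367) (nat_lit 27) (.e (nat_lit 426555) (nat_lit 32) .nil))))) .nil))) (.nd (nat_lit 6) 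
(.lf (nat_lit 224187) (.g (nat_lit 2686) (.e (nat_lit 98334) (nat_lit 18) (.e (nat_lit 164403) (nat_lit 256) (.e (nat_lit 57371) (nat_lit 2) (.e (nat_lit 90174) (nat_lit 14) (.e (nat_lit 180245) (nat_lit 5) .nil))))) .nil)) 
(.lf (nat_lit 224251) (.g (nat_lit 2597) (.e (nat_lit 98335) (nat_lit 18) (.e (nat_lit 164179) (nat_lit 154) (.e (nat_lit 57411) (nat_lit 12) (.e (nat_lit 336456) (nat_lit 34) (.e (nat_lit 483389) (nat_lit 23) .nil))))) .nil)))))) (.nd (nat_lit 3) (.nd (nat_lit 4) (.nd (nat_lit 5) (.nd (nat_lit 6) 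
(.lf (nat_lit 224135) (.g (nat_lit 3621) (.e (nat_lit 98334) (nat_lit 18) (.e (nat_lit 164399) (nat_lit 256) (.e (nat_lit 57373) (nat_lit 2) (.e (nat_lit 90170) (nat_lit 13) (.e (nat_lit 172067) (nat_lit 3) (.e (nat_lit 204834) (nat_lit 19) (.e (nat_lit 106517) (nat_lit 9) (.e (nat_lit 1255) (nat_lit 92) .nil)))))))) (.g (nat_lit 5) .nil .nil))) 
(.lf (nat_lit 224199) (.g (nat_lit 2483) (.e (nat_lit 98334) (nat_lit 18) (.e (nat_lit 164403) (nat_lit 256) (.e (nat_lit 57373) (nat_lit 2) (.e (nat_lit 90174) (nat_lit 14) (.e (nat_lit 180243) (nat_lit 5) .nil))))) .nil))) (.nd (nat_lit 6) 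
(.lf (nat_lit 224167) (.g (nat_lit 3138) (.e (nat_lit 98334) (nat_lit 18) (.e (nat_lit 164399) (nat_lit 256) (.e (nat_lit 57378) (nat_lit 3) (.e (nat_lit 98377) (nat_lit 30) (.e (nat_lit 458789) (nat_lit 23) (.e (nat_lit 532515) (nat_lit 3) (.e (nat_lit 114717) (nat_lit 23) .nil))))))) (.g (nat_lit 5) .nil .nil))) 
(.lf (nat_lit 224231) (.g (nat_lit 3469) (.e (nat_lit 98335) (nat_lit 18) (.e (nat_lit 164179) (nat_lit 154) (.e (nat_lit 57378) (nat_lit 3) (.e (nat_lit 98341) (nat_lit 20) (.e (nat_lit 221211) (nat_lit 22) (.e (nat_lit 196666) (nat_lit 13) (.e (nat_lit 65569) (nat_lit 3) .nil))))))) (.g (nat_lit 4) .nil .nil))))) (.nd (nat_lit 5) (.nd (nat_lit 6) 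
(.lf (nat_lit 224151) (.g (nat_lit 3843) (.e (nat_lit 98334) (nat_lit 18) (.e (nat_lit 164399) (nat_lit 256) (.e (nat_lit 57374) (nat_lit 2) (.e (nat_lit 90170) (nat_lit 13) (.e (nat_lit 172067) (nat_lit 3) (.e (nat_lit 204837) (nat_lit 20) (.e (nat_lit 114717) (nat_lit 23) .nil))))))) (.g (nat_lit 5) .nil .nil))) 
(.lf (nat_lit 224215) (.g (nat_lit 2234) (.e (nat_lit 98335) (nat_lit 18) (.e (nat_lit 164177) (nat_lit 154) (.e (nat_lit 57447) (nat_lit 19) (.e (nat_lit 393229) (nat_lit 9) (.e (nat_lit 336088) (nat_lit 9) .nil))))) .nil))) (.nd (nat_lit 6) 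
(.lf (nat_lit 224183) (.g (nat_lit 2047) (.e (nat_lit 98334) (nat_lit 18) (.e (nat_lit 164403) (nat_lit 256) (.e (nat_lit 57371) (nat_lit 2) (.e (nat_lit 90166) (nat_lit 13) (.e (nat_lit 172065) (nat_lit 3) .nil))))) .nil)) 
(.lf (nat_lit 224247) (.g (nat_lit 2960) (.e (nat_lit 98335) (nat_lit 18) (.e (nat_lit 164179) (nat_lit 154) (.e (nat_lit 57409) (nat_lit 12) (.e (nat_lit 336454) (nat_lit 34) (.e (nat_lit 483384) (nat_lit 23) .nil))))) .nil))))) (.nd (nat_lit 4) (.nd (nat_lit 5) (.nd (nat_lit 6) 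
(.lf (nat_lit 224143) (.g (nat_lit 3040) (.e (nat_lit 98334) (nat_lit 18) (.e (nat_lit 164399) (nat_lit 256) (.e (nat_lit 57373) (nat_lit 2) (.e (nat_lit 90174) (nat_lit 14) (.e (nat_lit 180243) (nat_lit 5) (.e (nat_lit 532508) (nat_lit 2) (.e (nat_lit 106526) (nat_lit 9) (.e (nat_lit 1254) (nat_lit 92) .nil)))))))) (.g (nat_lit 4) .nil .nil))) 
(.lf (nat_lit 224207) (.g (nat_lit 2364) (.e (nat_lit 98334) (nat_lit 18) (.e (nat_lit 164403) (nat_lit 256) (.e (nat_lit 57377) (nat_lit 3) (.e (nat_lit 98355) (nat_lit 26) (.e (nat_lit 426131) (nat_lit 3) .nil))))) .nil))) (.nd (nat_lit 6) 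
(.lf (nat_lit 224175) (.g (nat_lit 2871) (.e (nat_lit 98334) (nat_lit 18) (.e (nat_lit 164401) (nat_lit 256) (.e (nat_lit 57373) (nat_lit 2) (.e (nat_lit 90172) (nat_lit 14) (.e (nat_lit 180243) (nat_lit 5) (.e (nat_lit 532515) (nat_lit 3) (.e (nat_lit 114718) (nat_lit 23) .nil))))))) (.g (nat_lit 4) .nil .nil))) 
(.lf (nat_lit 224239) (.g (nat_lit 2004) (.e (nat_lit 98335) (nat_lit 18) (.e (nat_lit 164179) (nat_lit 154) (.e (nat_lit 57407) (nat_lit 12) (.e (nat_lit 336454) (nat_lit 34) (.e (nat_lit 483384) (nat_lit 23) (.e (nat_lit 343808) (nat_lit 3) .nil)))))) (.g (nat_lit 5) .nil .nil))))) (.nd (nat_lit 5) (.nd (nat_lit 6) 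
(.lf (nat_lit 224159) (.g (nat_lit 2144) (.e (nat_lit 98334) (nat_lit 18) (.e (nat_lit 164399) (nat_lit 256) (.e (nat_lit 57377) (nat_lit 3) (.e (nat_lit 98377) (nat_lit 30) (.e (nat_lit 458789) (nat_lit 23) .nil))))) .nil)) 
(.lf (nat_lit 224223) (.g (nat_lit 1671) (.e (nat_lit 98335) (nat_lit 18) (.e (nat_lit 164178) (nat_lit 154) (.e (nat_lit 57445) (nat_lit 19) (.e (nat_lit 393225) (nat_lit 9) (.e (nat_lit 336087) (nat_lit 9) .nil))))) .nil))) (.nd (nat_lit 6) 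
(.lf (nat_lit 224191) (.g (nat_lit 2850) (.e (nat_lit 98334) (nat_lit 18) (.e (nat_lit 164403) (nat_lit 256) (.e (nat_lit 57373) (nat_lit 2) (.e (nat_lit 90170) (nat_lit 13) (.e (nat_lit 172067) (nat_lit 3) (.e (nat_lit 204837) (nat_lit 20) (.e (nat_lit 114717) (nat_lit 23) .nil))))))) (.g (nat_lit 4) .nil .nil))) 
(.lf (nat_lit 224255) (.g (nat_lit 1730) (.e (nat_lit 98335) (nat_lit 18) (.e (nat_lit 164179) (nat_lit 154) (.e (nat_lit 57445) (nat_lit 19) (.e (nat_lit 393228) (nat_lit 9) .nil)))) .nil)))))))))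

noncomputable def tv2940 : DT := (.nd (nat_lit 0) (.nd (nat_lit 1) (.nd (nat_lit 2) (.nd (nat_lit 3) (.nd (nat_lit 4) (.nd (nat_lit 5) (.nd (nat_lit 6) 
(.lf (nat_lit 224256) (.g (nat_lit 3312) (.e (nat_lit 98335) (nat_lit 18) (.e (nat_lit 164179) (nat_lit 154) (.e (nat_lit 57445) (nat_lit 19) (.e (nat_lit 393229) (nat_lit 9) (.e (nat_lit 336085) (nat_lit 9) (.e (nat_lit 336019) (nat_lit 3) .nil)))))) (.g (nat_lit 4) .nil .nil))) 
(.lf (nat_lit 224320) (.g (nat_lit 3698) (.e (nat_lit 98335) (nat_lit 18) (.e (nat_lit 164325) (nat_lit 230) (.e (nat_lit 163902) (nat_lit 12) (.e (nat_lit 426566) (nat_lit 34) (.e (nat_lit 393268) (nat_lit 23) (.e (nat_lit 426436) (nat_lit 18) .nil)))))) (.g (nat_lit 4) .nil .nil)))) (.nd (nat_lit 6) 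
(.lf (nat_lit 224288) (.g (nat_lit 811) (.e (nat_lit 98335) (nat_lit 18) (.e (nat_lit 164305) (nat_lit 226) (.e (nat_lit 2643) (nat_lit 165) (.e (nat_lit 188160) (nat_lit 27) .nil)))) .nil)) 
(.lf (nat_lit 224352) (.g (nat_lit 2557) (.e (nat_lit 98335) (nat_lit 18) (.e (nat_lit 164327) (nat_lit 230) (.e (nat_lit 163873) (nat_lit 3) (.e (nat_lit 204837) (nat_lit 20) (.e (nat_lit 114719) (nat_lit 23) .nil))))) .nil)))) (.nd (nat_lit 5) (.nd (nat_lit 6) 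
(.lf (nat_lit 224272) (.g (nat_lit 1552) (.e (nat_lit 98335) (nat_lit 18) (.e (nat_lit 164182) (nat_lit 154) (.e (nat_lit 57448) (nat_lit 19) (.e (nat_lit 393228) (nat_lit 9) (.e (nat_lit 336088) (nat_lit 9) .nil))))) .nil)) 
(.lf (nat_lit 224336) (.g (nat_lit 2677) (.e (nat_lit 98335) (nat_lit 18) (.e (nat_lit 164325) (nat_lit 230) (.e (nat_lit 163941) (nat_lit 19) (.e (nat_lit 483341) (nat_lit 9) (.e (nat_lit 433920) (nat_lit 9) .nil))))) .nil))) (.nd (nat_lit 6) 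
(.lf (nat_lit 224304) (.g (nat_lit 1215) (.e (nat_lit 98335) (nat_lit 18) (.e (nat_lit 164324) (nat_lit 230) (.e (nat_lit 163903) (nat_lit 12) (.e (nat_lit 426567) (nat_lit 34) .nil)))) .nil)) 
(.lf (nat_lit 224368) (.g (nat_lit 1738) (.e (nat_lit 98335) (nat_lit 18) (.e (nat_lit 164327) (nat_lit 230) (.e (nat_lit 163907) (nat_lit 12) (.e (nat_lit 426564) (nat_lit 34) .nil)))) .nil))))) (.nd (nat_lit 4) (.nd (nat_lit 5) (.nd (nat_lit 6) 
(.lf (nat_lit 224264) (.g (nat_lit 917) (.e (nat_lit 98335) (nat_lit 18) (.e (nat_lit 164181) (nat_lit 154) (.e (nat_lit 57447) (nat_lit 19) (.e (nat_lit 393229) (nat_lit 9) .nil)))) .nil)) 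
(.lf (nat_lit 224328) (.g (nat_lit 1211) (.e (nat_lit 98335) (nat_lit 18) (.e (nat_lit 164325) (nat_lit 230) (.e (nat_lit 163907) (nat_lit 12) (.e (nat_lit 426478) (nat_lit 27) .nil)))) .nil))) (.nd (nat_lit 6) 
(.lf (nat_lit 224296) (.g (nat_lit 2657) (.e (nat_lit 98335) (nat_lit 18) (.e (nat_lit 164322) (nat_lit 230) (.e (nat_lit 163902) (nat_lit 12) (.e (nat_lit 426568) (nat_lit 34) (.e (nat_lit 393275) (nat_lit 23) .nil))))) .nil)) 
(.lf (nat_lit 224360) (.g (nat_lit 1243) (.e (nat_lit 98335) (nat_lit 18) (.e (nat_lit 164327) (nat_lit 230) (.e (nat_lit 163903) (nat_lit 12) (.e (nat_lit 426567) (nat_lit 34) .nil)))) .nil)))) (.nd (nat_lit 5) (.nd (nat_lit 6) 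
(.lf (nat_lit 224280) (.g (nat_lit 1724) (.e (nat_lit 98335) (nat_lit 18) (.e (nat_lit 164183) (nat_lit 154) (.e (nat_lit 57411) (nat_lit 12) (.e (nat_lit 336366) (nat_lit 27) (.e (nat_lit 426555) (nat_lit 32) .nil))))) .nil)) 
(.lf (nat_lit 224344) (.g (nat_lit 1202) (.e (nat_lit 98335) (nat_lit 18) (.e (nat_lit 164326) (nat_lit 230) (.e (nat_lit 163903) (nat_lit 12) (.e (nat_lit 426567) (nat_lit 34) .nil)))) .nil))) (.nd (nat_lit 6) 
(.lf (nat_lit 224312) (.g (nat_lit 4302) (.e (nat_lit 98335) (nat_lit 18) (.e (nat_lit 164324) (nat_lit 230) (.e (nat_lit 163941) (nat_lit 19) (.e (nat_lit 483341) (nat_lit 9) (.e (nat_lit 426258) (nat_lit 9) .nil))))) .nil)) 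
(.lf (nat_lit 224376) (.g (nat_lit 3637) (.e (nat_lit 98335) (nat_lit 18) (.e (nat_lit 164327) (nat_lit 230) (.e (nat_lit 163943) (nat_lit 19) (.e (nat_lit 483341) (nat_lit 9) (.e (nat_lit 426189) (nat_lit 9) .nil))))) .nil)))))) (.nd (nat_lit 3) (.nd (nat_lit 4) (.nd (nat_lit 5) (.nd (nat_lit 6) 
(.lf (nat_lit 224260) (.g (nat_lit 1942) (.e (nat_lit 98335) (nat_lit 18) (.e (nat_lit 164179) (nat_lit 154) (.e (nat_lit 57448) (nat_lit 19) (.e (nat_lit 393228) (nat_lit 9) .nil)))) .nil)) 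
(.lf (nat_lit 224324) (.g (nat_lit 1135) (.e (nat_lit 98335) (nat_lit 18) (.e (nat_lit 164325) (nat_lit 230) (.e (nat_lit 163903) (nat_lit 12) (.e (nat_lit 426568) (nat_lit 34) .nil)))) .nil))) (.nd (nat_lit 6) 
(.lf (nat_lit 224292) (.g (nat_lit 3110) (.e (nat_lit 98335) (nat_lit 18) (.e (nat_lit 164322) (nat_lit 230) (.e (nat_lit 163902) (nat_lit 12) (.e (nat_lit 426566) (nat_lit 34) (.e (nat_lit 393272) (nat_lit 23) .nil))))) .nil)) 
(.lf (nat_lit 224356) (.g (nat_lit 2176) (.e (nat_lit 98335) (nat_lit 18) (.e (nat_lit 164327) (nat_lit 230) (.e (nat_lit 163901) (nat_lit 12) (.e (nat_lit 426566) (nat_lit 34) (.e (nat_lit 393272) (nat_lit 23) .nil))))) .nil)))) (.nd (nat_lit 5) (.nd (nat_lit 6) 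
(.lf (nat_lit 224276) (.g (nat_lit 1682) (.e (nat_lit 98335) (nat_lit 18) (.e (nat_lit 164183) (nat_lit 154) (.e (nat_lit 57409) (nat_lit 12) (.e (nat_lit 336414) (nat_lit 27) (.e (nat_lit 426541) (nat_lit 29) .nil))))) .nil)) 
(.lf (nat_lit 224340) (.g (nat_lit 1421) (.e (nat_lit 98335) (nat_lit 18) (.e (nat_lit 164325) (nat_lit 230) (.e (nat_lit 163944) (nat_lit 19) (.e (nat_lit 483338) (nat_lit 9) (.e (nat_lit 426228) (nat_lit 9) .nil))))) .nil))) (.nd (nat_lit 6) 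
(.lf (nat_lit 224308) (.g (nat_lit 1594) (.e (nat_lit 98335) (nat_lit 18) (.e (nat_lit 164324) (nat_lit 230) (.e (nat_lit 163903) (nat_lit 12) (.e (nat_lit 426568) (nat_lit 34) (.e (nat_lit 401152) (nat_lit 23) .nil))))) .nil)) 
(.lf (nat_lit 224372) (.g (nat_lit 1643) (.e (nat_lit 98335) (nat_lit 18) (.e (nat_lit 164327) (nat_lit 230) (.e (nat_lit 163941) (nat_lit 19) (.e (nat_lit 483333) (nat_lit 0) .nil)))) .nil))))) (.nd (nat_lit 4) (.nd (nat_lit 5) (.nd (nat_lit 6) 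
(.lf (nat_lit 224268) (.g (nat_lit 2639) (.e (nat_lit 98335) (nat_lit 18) (.e (nat_lit 164182) (nat_lit 154) (.e (nat_lit 57409) (nat_lit 12) (.e (nat_lit 336454) (nat_lit 34) (.e (nat_lit 483383) (nat_lit 23) .nil))))) .nil)) 
(.lf (nat_lit 224332) (.g (nat_lit 1650) (.e (nat_lit 98335) (nat_lit 18) (.e (nat_lit 164325) (nat_lit 230) (.e (nat_lit 163907) (nat_lit 12) (.e (nat_lit 426568) (nat_lit 34) (.e (nat_lit 393275) (nat_lit 23) .nil))))) .nil))) (.nd (nat_lit 6) 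
(.lf (nat_lit 224300) (.g (nat_lit 2983) (.e (nat_lit 98335) (nat_lit 18) (.e (nat_lit 164324) (nat_lit 230) (.e (nat_lit 163902) (nat_lit 12) (.e (nat_lit 426566) (nat_lit 34) (.e (nat_lit 393273) (nat_lit 23) .nil))))) .nil)) 
(.lf (nat_lit 224364) (.g (nat_lit 2500) (.e (nat_lit 98335) (nat_lit 18) (.e (nat_lit 164327) (nat_lit 230) (.e (nat_lit 163903) (nat_lit 12) (.e (nat_lit 426568) (nat_lit 34) (.e (nat_lit 393275) (nat_lit 23) (.e (nat_lit 433920) (nat_lit 18) .nil)))))) (.g (nat_lit 5) .nil .nil))))) (.nd (nat_lit 5) (.nd (nat_lit 6) 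
(.lf (nat_lit 224284) (.g (nat_lit 426) (.e (nat_lit 98335) (nat_lit 18) (.e (nat_lit 164183) (nat_lit 154) (.e (nat_lit 57444) (nat_lit 19) .nil))) .nil)) 
(.lf (nat_lit 224348) (.g (nat_lit 2159) (.e (nat_lit 98335) (nat_lit 18) (.e (nat_lit 164327) (nat_lit 230) (.e (nat_lit 163868) (nat_lit 2) (.e (nat_lit 196658) (nat_lit 12) .nil)))) .nil))) (.nd (nat_lit 6) 
(.lf (nat_lit 224316) (.g (nat_lit 1700) (.e (nat_lit 98335) (nat_lit 18) (.e (nat_lit 164325) (nat_lit 230) (.e (nat_lit 163875) (nat_lit 3) (.e (nat_lit 204836) (nat_lit 20) .nil)))) .nil)) 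
(.lf (nat_lit 224380) (.g (nat_lit 2625) (.e (nat_lit 98335) (nat_lit 18) (.e (nat_lit 164329) (nat_lit 230) (.e (nat_lit 163902) (nat_lit 12) (.e (nat_lit 426564) (nat_lit 34) (.e (nat_lit 393273) (nat_lit 23) (.e (nat_lit 426436) (nat_lit 18) .nil)))))) (.g (nat_lit 6) .nil .nil)))))))) (.nd (nat_lit 2) (.nd (nat_lit 3) (.nd (nat_lit 4) (.nd (nat_lit 5) (.nd (nat_lit 6) 
(.lf (nat_lit 224258) (.g (nat_lit 2168) (.e (nat_lit 98335) (nat_lit 18) (.e (nat_lit 164179) (nat_lit 154) (.e (nat_lit 57447) (nat_lit 19) (.e (nat_lit 393225) (nat_lit 9) (.e (nat_lit 336087) (nat_lit 9) .nil))))) .nil)) 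
(.lf (nat_lit 224322) (.g (nat_lit 1628) (.e (nat_lit 98335) (nat_lit 18) (.e (nat_lit 164325) (nat_lit 230) (.e (nat_lit 163902) (nat_lit 12) (.e (nat_lit 426568) (nat_lit 34) .nil)))) .nil))) (.nd (nat_lit 6) 
(.lf (nat_lit 224290) (.g (nat_lit 2465) (.e (nat_lit 98335) (nat_lit 18) (.e (nat_lit 164322) (nat_lit 230) (.e (nat_lit 163902) (nat_lit 12) (.e (nat_lit 426566) (nat_lit 34) (.e (nat_lit 393268) (nat_lit 23) .nil))))) .nil)) 
(.lf (nat_lit 224354) (.g (nat_lit 415) (.e (nat_lit 98335) (nat_lit 18) (.e (nat_lit 164327) (nat_lit 230) (.e (nat_lit 163875) (nat_lit 3) .nil))) .nil)))) (.nd (nat_lit 5) (.nd (nat_lit 6) 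
(.lf (nat_lit 224274) (.g (nat_lit 2480) (.e (nat_lit 98335) (nat_lit 18) (.e (nat_lit 164183) (nat_lit 154) (.e (nat_lit 57373) (nat_lit 2) (.e (nat_lit 90160) (nat_lit 11) (.e (nat_lit 24608) (nat_lit 3) .nil))))) .nil)) 
(.lf (nat_lit 224338) (.g (nat_lit 1255) (.e (nat_lit 98335) (nat_lit 18) (.e (nat_lit 164325) (nat_lit 230) (.e (nat_lit 163944) (nat_lit 19) (.e (nat_lit 483333) (nat_lit 0) .nil)))) .nil))) (.nd (nat_lit 6) 
(.lf (nat_lit 224306) (.g (nat_lit 1899) (.e (nat_lit 98335) (nat_lit 18) (.e (nat_lit 164324) (nat_lit 230) (.e (nat_lit 163903) (nat_lit 12) (.e (nat_lit 426568) (nat_lit 34) (.e (nat_lit 393275) (nat_lit 23) (.e (nat_lit 433920) (nat_lit 18) .nil)))))) (.g (nat_lit 4) .nil .nil))) 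
(.lf (nat_lit 224370) (.g (nat_lit 1751) (.e (nat_lit 98335) (nat_lit 18) (.e (nat_lit 164327) (nat_lit 230) (.e (nat_lit 163907) (nat_lit 12) (.e (nat_lit 426567) (nat_lit 34) .nil)))) .nil))))) (.nd (nat_lit 4) (.nd (nat_lit 5) (.nd (nat_lit 6) 
(.lf (nat_lit 224266) (.g (nat_lit 1528) (.e (nat_lit 98335) (nat_lit 18) (.e (nat_lit 164182) (nat_lit 154) (.e (nat_lit 57409) (nat_lit 12) (.e (nat_lit 336369) (nat_lit 27) .nil)))) .nil)) 
(.lf (nat_lit 224330) (.g (nat_lit 1919) (.e (nat_lit 98335) (nat_lit 18) (.e (nat_lit 164325) (nat_lit 230) (.e (nat_lit 163907) (nat_lit 12) (.e (nat_lit 426509) (nat_lit 27) (.e (nat_lit 336412) (nat_lit 27) .nil))))) .nil))) (.nd (nat_lit 6) 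
(.lf (nat_lit 224298) (.g (nat_lit 1364) (.e (nat_lit 98335) (nat_lit 18) (.e (nat_lit 164324) (nat_lit 230) (.e (nat_lit 163901) (nat_lit 12) (.e (nat_lit 426566) (nat_lit 34) (.e (nat_lit 393270) (nat_lit 23) .nil))))) .nil)) 
(.lf (nat_lit 224362) (.g (nat_lit 2727) (.e (nat_lit 98335) (nat_lit 18) (.e (nat_lit 164327) (nat_lit 230) (.e (nat_lit 163903) (nat_lit 12) (.e (nat_lit 426568) (nat_lit 34) (.e (nat_lit 393234) (nat_lit 17) (.e (nat_lit 7309) (nat_lit 388) (.e (nat_lit 108) (nat_lit 3) .nil))))))) (.g (nat_lit 4) .nil .nil))))) (.nd (nat_lit 5) (.nd (nat_lit 6) 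
(.lf (nat_lit 224282) (.g (nat_lit 1975) (.e (nat_lit 98335) (nat_lit 18) (.e (nat_lit 164183) (nat_lit 154) (.e (nat_lit 57411) (nat_lit 12) (.e (nat_lit 336454) (nat_lit 34) (.e (nat_lit 483384) (nat_lit 23) (.e (nat_lit 343808) (nat_lit 3) .nil)))))) (.g (nat_lit 5) .nil .nil))) 
(.lf (nat_lit 224346) (.g (nat_lit 2112) (.e (nat_lit 98335) (nat_lit 18) (.e (nat_lit 164326) (nat_lit 230) (.e (nat_lit 163903) (nat_lit 12) (.e (nat_lit 426568) (nat_lit 34) (.e (nat_lit 393279) (nat_lit 23) (.e (nat_lit 433920) (nat_lit 18) .nil)))))) (.g (nat_lit 5) .nil .nil)))) (.nd (nat_lit 6) 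
(.lf (nat_lit 224314) (.g (nat_lit 2287) (.e (nat_lit 98335) (nat_lit 18) (.e (nat_lit 164324) (nat_lit 230) (.e (nat_lit 163943) (nat_lit 19) (.e (nat_lit 483338) (nat_lit 9) (.e (nat_lit 426228) (nat_lit 9) .nil))))) .nil)) 
(.lf (nat_lit 224378) (.g (nat_lit 1501) (.e (nat_lit 98335) (nat_lit 18) (.e (nat_lit 164329) (nat_lit 230) (.e (nat_lit 163902) (nat_lit 12) (.e (nat_lit 426484) (nat_lit 27) .nil)))) .nil)))))) (.nd (nat_lit 3) (.nd (nat_lit 4) (.nd (nat_lit 5) (.nd (nat_lit 6) 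
(.lf (nat_lit 224262) (.g (nat_lit 1528) (.e (nat_lit 98335) (nat_lit 18) (.e (nat_lit 164179) (nat_lit 154) (.e (nat_lit 57448) (nat_lit 19) (.e (nat_lit 401152) (nat_lit 11) .nil)))) .nil)) 
(.lf (nat_lit 224326) (.g (nat_lit 1934) (.e (nat_lit 98335) (nat_lit 18) (.e (nat_lit 164325) (nat_lit 230) (.e (nat_lit 163903) (nat_lit 12) (.e (nat_lit 426568) (nat_lit 34) (.e (nat_lit 393275) (nat_lit 23) .nil))))) .nil))) (.nd (nat_lit 6) 
(.lf (nat_lit 224294) (.g (nat_lit 2262) (.e (nat_lit 98335) (nat_lit 18) (.e (nat_lit 164322) (nat_lit 230) (.e (nat_lit 163902) (nat_lit 12) (.e (nat_lit 426568) (nat_lit 34) (.e (nat_lit 393266) (nat_lit 23) .nil))))) .nil)) 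
(.lf (nat_lit 224358) (.g (nat_lit 1640) (.e (nat_lit 98335) (nat_lit 18) (.e (nat_lit 164327) (nat_lit 230) (.e (nat_lit 163903) (nat_lit 12) (.e (nat_lit 426487) (nat_lit 27) .nil)))) .nil)))) (.nd (nat_lit 5) (.nd (nat_lit 6) 
(.lf (nat_lit 224278) (.g (nat_lit 1789) (.e (nat_lit 98335) (nat_lit 18) (.e (nat_lit 164183) (nat_lit 154) (.e (nat_lit 57409) (nat_lit 12) (.e (nat_lit 336454) (nat_lit 34) (.e (nat_lit 483384) (nat_lit 23) (.e (nat_lit 343808) (nat_lit 3) .nil)))))) (.g (nat_lit 5) .nil .nil))) 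
(.lf (nat_lit 224342) (.g (nat_lit 1245) (.e (nat_lit 98335) (nat_lit 18) (.e (nat_lit 164325) (nat_lit 230) (.e (nat_lit 163944) (nat_lit 19) (.e (nat_lit 483346) (nat_lit 17) .nil)))) .nil))) (.nd (nat_lit 6) 
(.lf (nat_lit 224310) (.g (nat_lit 2501) (.e (nat_lit 98335) (nat_lit 18) (.e (nat_lit 164324) (nat_lit 230) (.e (nat_lit 163907) (nat_lit 12) (.e (nat_lit 426566) (nat_lit 34) (.e (nat_lit 393272) (nat_lit 23) .nil))))) .nil)) 
(.lf (nat_lit 224374) (.g (nat_lit 923) (.e (nat_lit 98335) (nat_lit 18) (.e (nat_lit 164327) (nat_lit 230) (.e (nat_lit 163941) (nat_lit 19) (.e (nat_lit 483339) (nat_lit 9) .nil)))) .nil))))) (.nd (nat_lit 4) (.nd (nat_lit 5) (.nd (nat_lit 6) 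
(.lf (nat_lit 224270) (.g (nat_lit 1975) (.e (nat_lit 98335) (nat_lit 18) (.e (nat_lit 164182) (nat_lit 154) (.e (nat_lit 57447) (nat_lit 19) (.e (nat_lit 393224) (nat_lit 9) .nil)))) .nil)) 
(.lf (nat_lit 224334) (.g (nat_lit 1637) (.e (nat_lit 98335) (nat_lit 18) (.e (nat_lit 164325) (nat_lit 230) (.e (nat_lit 163941) (nat_lit 19) (.e (nat_lit 483333) (nat_lit 0) .nil)))) .nil))) (.nd (nat_lit 6) 
(.lf (nat_lit 224302) (.g (nat_lit 2739) (.e (nat_lit 98335) (nat_lit 18) (.e (nat_lit 164324) (nat_lit 230) (.e (nat_lit 163902) (nat_lit 12) (.e (nat_lit 426568) (nat_lit 34) (.e (nat_lit 393267) (nat_lit 23) .nil))))) .nil)) 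
(.lf (nat_lit 224366) (.g (nat_lit 1995) (.e (nat_lit 98335) (nat_lit 18) (.e (nat_lit 164327) (nat_lit 230) (.e (nat_lit 163905) (nat_lit 12) (.e (nat_lit 426566) (nat_lit 34) .nil)))) .nil)))) (.nd (nat_lit 5) (.nd (nat_lit 6) 
(.lf (nat_lit 224286) (.g (nat_lit 1740) (.e (nat_lit 98335) (nat_lit 18) (.e (nat_lit 164183) (nat_lit 154) (.e (nat_lit 57447) (nat_lit 19) (.e (nat_lit 393229) (nat_lit 9) (.e (nat_lit 336085) (nat_lit 9) .nil))))) .nil)) 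
(.lf (nat_lit 224350) (.g (nat_lit 3530) (.e (nat_lit 98335) (nat_lit 18) (.e (nat_lit 164327) (nat_lit 230) (.e (nat_lit 163871) (nat_lit 2) (.e (nat_lit 196656) (nat_lit 11) (.e (nat_lit 16416) (nat_lit 3) (.e (nat_lit 204817) (nat_lit 17) (.e (nat_lit 2198) (nat_lit 144) (.e (nat_lit 720945) (nat_lit 23) .nil)))))))) (.g (nat_lit 4) .nil .nil)))) (.nd (nat_lit 6) 
(.lf (nat_lit 224318) (.g (nat_lit 3612) (.e (nat_lit 98335) (nat_lit 18) (.e (nat_lit 164325) (nat_lit 230) (.e (nat_lit 163875) (nat_lit 3) (.e (nat_lit 204838) (nat_lit 20) (.e (nat_lit 114718) (nat_lit 23) (.e (nat_lit 98356) (nat_lit 26) (.e (nat_lit 426438) (nat_lit 18) .nil))))))) (.g (nat_lit 7) .nil .nil))) 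
(.lf (nat_lit 224382) (.g (nat_lit 2554) (.e (nat_lit 98335) (nat_lit 18) (.e (nat_lit 164329) (nat_lit 230) (.e (nat_lit 163902) (nat_lit 12) (.e (nat_lit 426567) (nat_lit 34) (.e (nat_lit 393273) (nat_lit 23) (.e (nat_lit 426436) (nat_lit 18) .nil)))))) (.g (nat_lit 6) .nil .nil))))))))) (.nd (nat_lit 1) (.nd (nat_lit 2) (.nd (nat_lit 3) (.nd (nat_lit 4) (.nd (nat_lit 5) (.nd (nat_lit 6) 
(.lf (nat_lit 224257) (.g (nat_lit 1889) (.e (nat_lit 98335) (nat_lit 18) (.e (nat_lit 164179) (nat_lit 154) (.e (nat_lit 57447) (nat_lit 19) (.e (nat_lit 393224) (nat_lit 9) .nil)))) .nil)) 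
(.lf (nat_lit 224321) (.g (nat_lit 3526) (.e (nat_lit 98335) (nat_lit 18) (.e (nat_lit 164325) (nat_lit 230) (.e (nat_lit 163902) (nat_lit 12) (.e (nat_lit 426566) (nat_lit 34) (.e (nat_lit 393271) (nat_lit 23) .nil))))) .nil))) (.nd (nat_lit 6) 
(.lf (nat_lit 224289) (.g (nat_lit 771) (.e (nat_lit 98335) (nat_lit 18) (.e (nat_lit 164305) (nat_lit 226) (.e (nat_lit 2725) (nat_lit 172) (.e (nat_lit 245504) (nat_lit 34) .nil)))) .nil)) 
(.lf (nat_lit 224353) (.g (nat_lit 1732) (.e (nat_lit 98335) (nat_lit 18) (.e (nat_lit 164327) (nat_lit 230) (.e (nat_lit 163873) (nat_lit 3) (.e (nat_lit 204838) (nat_lit 20) .nil)))) .nil)))) (.nd (nat_lit 5) (.nd (nat_lit 6) 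
(.lf (nat_lit 224273) (.g (nat_lit 4713) (.e (nat_lit 98335) (nat_lit 18) (.e (nat_lit 164183) (nat_lit 154) (.e (nat_lit 57373) (nat_lit 2) (.e (nat_lit 90158) (nat_lit 11) (.e (nat_lit 24608) (nat_lit 3) (.e (nat_lit 98341) (nat_lit 20) (.e (nat_lit 229120) (nat_lit 3) .nil))))))) (.g (nat_lit 6) .nil .nil))) 
(.lf (nat_lit 224337) (.g (nat_lit 1141) (.e (nat_lit 98335) (nat_lit 18) (.e (nat_lit 164325) (nat_lit 230) (.e (nat_lit 163943) (nat_lit 19) (.e (nat_lit 483339) (nat_lit 9) .nil)))) .nil))) (.nd (nat_lit 6) 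
(.lf (nat_lit 224305) (.g (nat_lit 2182) (.e (nat_lit 98335) (nat_lit 18) (.e (nat_lit 164324) (nat_lit 230) (.e (nat_lit 163903) (nat_lit 12) (.e (nat_lit 426568) (nat_lit 34) (.e (nat_lit 393272) (nat_lit 23) .nil))))) .nil)) 
(.lf (nat_lit 224369) (.g (nat_lit 913) (.e (nat_lit 98335) (nat_lit 18) (.e (nat_lit 164327) (nat_lit 230) (.e (nat_lit 163907) (nat_lit 12) (.e (nat_lit 426566) (nat_lit 34) .nil)))) .nil))))) (.nd (nat_lit 4) (.nd (nat_lit 5) (.nd (nat_lit 6) 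
(.lf (nat_lit 224265) (.g (nat_lit 3056) (.e (nat_lit 98335) (nat_lit 18) (.e (nat_lit 164182) (nat_lit 154) (.e (nat_lit 57379) (nat_lit 3) (.e (nat_lit 98341) (nat_lit 20) (.e (nat_lit 221214) (nat_lit 23) (.e (nat_lit 204861) (nat_lit 26) (.e (nat_lit 336026) (nat_lit 3) .nil))))))) (.g (nat_lit 4) .nil .nil))) 
(.lf (nat_lit 224329) (.g (nat_lit 1544) (.e (nat_lit 98335) (nat_lit 18) (.e (nat_lit 164325) (nat_lit 230) (.e (nat_lit 163907) (nat_lit 12) (.e (nat_lit 426491) (nat_lit 27) .nil)))) .nil))) (.nd (nat_lit 6) 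
(.lf (nat_lit 224297) (.g (nat_lit 2371) (.e (nat_lit 98335) (nat_lit 18) (.e (nat_lit 164322) (nat_lit 230) (.e (nat_lit 163902) (nat_lit 12) (.e (nat_lit 426568) (nat_lit 34) (.e (nat_lit 393279) (nat_lit 23) .nil))))) .nil)) 
(.lf (nat_lit 224361) (.g (nat_lit 1034) (.e (nat_lit 98335) (nat_lit 18) (.e (nat_lit 164327) (nat_lit 230) (.e (nat_lit 163903) (nat_lit 12) (.e (nat_lit 426568) (nat_lit 34) .nil)))) .nil)))) (.nd (nat_lit 5) (.nd (nat_lit 6) 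
(.lf (nat_lit 224281) (.g (nat_lit 1826) (.e (nat_lit 98335) (nat_lit 18) (.e (nat_lit 164183) (nat_lit 154) (.e (nat_lit 57411) (nat_lit 12) (.e (nat_lit 336399) (nat_lit 27) (.e (nat_lit 426523) (nat_lit 27) .nil))))) .nil)) 
(.lf (nat_lit 224345) (.g (nat_lit 2261) (.e (nat_lit 98335) (nat_lit 18) (.e (nat_lit 164326) (nat_lit 230) (.e (nat_lit 163903) (nat_lit 12) (.e (nat_lit 426568) (nat_lit 34) (.e (nat_lit 393275) (nat_lit 23) (.e (nat_lit 433920) (nat_lit 18) .nil)))))) (.g (nat_lit 5) .nil .nil)))) (.nd (nat_lit 6) 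
(.lf (nat_lit 224313) (.g (nat_lit 1972) (.e (nat_lit 98335) (nat_lit 18) (.e (nat_lit 164324) (nat_lit 230) (.e (nat_lit 163943) (nat_lit 19) (.e (nat_lit 483336) (nat_lit 9) .nil)))) .nil)) 
(.lf (nat_lit 224377) (.g (nat_lit 1197) (.e (nat_lit 98335) (nat_lit 18) (.e (nat_lit 164329) (nat_lit 230) (.e (nat_lit 163902) (nat_lit 12) (.e (nat_lit 426481) (nat_lit 27) .nil)))) .nil)))))) (.nd (nat_lit 3) (.nd (nat_lit 4) (.nd (nat_lit 5) (.nd (nat_lit 6) 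
(.lf (nat_lit 224261) (.g (nat_lit 1669) (.e (nat_lit 98335) (nat_lit 18) (.e (nat_lit 164179) (nat_lit 154) (.e (nat_lit 57448) (nat_lit 19) (.e (nat_lit 393229) (nat_lit 9) (.e (nat_lit 336085) (nat_lit 9) .nil))))) .nil)) 
(.lf (nat_lit 224325) (.g (nat_lit 2352) (.e (nat_lit 98335) (nat_lit 18) (.e (nat_lit 164325) (nat_lit 230) (.e (nat_lit 163903) (nat_lit 12) (.e (nat_lit 426568) (nat_lit 34) (.e (nat_lit 393272) (nat_lit 23) .nil))))) .nil))) (.nd (nat_lit 6) 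
(.lf (nat_lit 224293) (.g (nat_lit 1354) (.e (nat_lit 98335) (nat_lit 18) (.e (nat_lit 164322) (nat_lit 230) (.e (nat_lit 163902) (nat_lit 12) (.e (nat_lit 426567) (nat_lit 34) .nil)))) .nil)) 
(.lf (nat_lit 224357) (.g (nat_lit 1521) (.e (nat_lit 98335) (nat_lit 18) (.e (nat_lit 164327) (nat_lit 230) (.e (nat_lit 163903) (nat_lit 12) (.e (nat_lit 426481) (nat_lit 27) (.e (nat_lit 336385) (nat_lit 27) .nil))))) .nil)))) (.nd (nat_lit 5) (.nd (nat_lit 6) 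
(.lf (nat_lit 224277) (.g (nat_lit 1716) (.e (nat_lit 98335) (nat_lit 18) (.e (nat_lit 164183) (nat_lit 154) (.e (nat_lit 57409) (nat_lit 12) (.e (nat_lit 336414) (nat_lit 27) (.e (nat_lit 426554) (nat_lit 32) .nil))))) .nil)) 
(.lf (nat_lit 224341) (.g (nat_lit 846) (.e (nat_lit 98335) (nat_lit 18) (.e (nat_lit 164325) (nat_lit 230) (.e (nat_lit 163944) (nat_lit 19) (.e (nat_lit 483339) (nat_lit 9) .nil)))) .nil))) (.nd (nat_lit 6) 
(.lf (nat_lit 224309) (.g (nat_lit 2294) (.e (nat_lit 98335) (nat_lit 18) (.e (nat_lit 164324) (nat_lit 230) (.e (nat_lit 163905) (nat_lit 12) (.e (nat_lit 426566) (nat_lit 34) (.e (nat_lit 393272) (nat_lit 23) .nil))))) .nil)) 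
(.lf (nat_lit 224373) (.g (nat_lit 1629) (.e (nat_lit 98335) (nat_lit 18) (.e (nat_lit 164327) (nat_lit 230) (.e (nat_lit 163941) (nat_lit 19) (.e (nat_lit 483338) (nat_lit 9) .nil)))) .nil))))) (.nd (nat_lit 4) (.nd (nat_lit 5) (.nd (nat_lit 6) 
(.lf (nat_lit 224269) (.g (nat_lit 1691) (.e (nat_lit 98335) (nat_lit 18) (.e (nat_lit 164182) (nat_lit 154) (.e (nat_lit 57411) (nat_lit 12) (.e (nat_lit 336377) (nat_lit 27) (.e (nat_lit 426524) (nat_lit 27) .nil))))) .nil)) 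
(.lf (nat_lit 224333) (.g (nat_lit 1313) (.e (nat_lit 98335) (nat_lit 18) (.e (nat_lit 164325) (nat_lit 230) (.e (nat_lit 163907) (nat_lit 12) (.e (nat_lit 426568) (nat_lit 34) (.e (nat_lit 393279) (nat_lit 23) (.e (nat_lit 433920) (nat_lit 18) .nil)))))) (.g (nat_lit 4) .nil .nil)))) (.nd (nat_lit 6) 
(.lf (nat_lit 224301) (.g (nat_lit 1572) (.e (nat_lit 98335) (nat_lit 18) (.e (nat_lit 164324) (nat_lit 230) (.e (nat_lit 163902) (nat_lit 12) (.e (nat_lit 426568) (nat_lit 34) .nil)))) .nil)) 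
(.lf (nat_lit 224365) (.g (nat_lit 2320) (.e (nat_lit 98335) (nat_lit 18) (.e (nat_lit 164327) (nat_lit 230) (.e (nat_lit 163903) (nat_lit 12) (.e (nat_lit 426568) (nat_lit 34) (.e (nat_lit 393279) (nat_lit 23) (.e (nat_lit 433920) (nat_lit 18) .nil)))))) (.g (nat_lit 5) .nil .nil))))) (.nd (nat_lit 5) (.nd (nat_lit 6) 
(.lf (nat_lit 224285) (.g (nat_lit 1814) (.e (nat_lit 98335) (nat_lit 18) (.e (nat_lit 164183) (nat_lit 154) (.e (nat_lit 57447) (nat_lit 19) (.e (nat_lit 393226) (nat_lit 9) .nil)))) .nil)) 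
(.lf (nat_lit 224349) (.g (nat_lit 2159) (.e (nat_lit 98335) (nat_lit 18) (.e (nat_lit 164327) (nat_lit 230) (.e (nat_lit 163868) (nat_lit 2) (.e (nat_lit 196660) (nat_lit 12) .nil)))) .nil))) (.nd (nat_lit 6) 
(.lf (nat_lit 224317) (.g (nat_lit 3859) (.e (nat_lit 98335) (nat_lit 18) (.e (nat_lit 164325) (nat_lit 230) (.e (nat_lit 163875) (nat_lit 3) (.e (nat_lit 204837) (nat_lit 20) (.e (nat_lit 114718) (nat_lit 23) (.e (nat_lit 98356) (nat_lit 26) (.e (nat_lit 426438) (nat_lit 18) .nil))))))) (.g (nat_lit 7) .nil .nil))) 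
(.lf (nat_lit 224381) (.g (nat_lit 3439) (.e (nat_lit 98335) (nat_lit 18) (.e (nat_lit 164329) (nat_lit 230) (.e (nat_lit 163902) (nat_lit 12) (.e (nat_lit 426566) (nat_lit 34) (.e (nat_lit 393273) (nat_lit 23) (.e (nat_lit 426436) (nat_lit 18) .nil)))))) (.g (nat_lit 6) .nil .nil)))))))) (.nd (nat_lit 2) (.nd (nat_lit 3) (.nd (nat_lit 4) (.nd (nat_lit 5) (.nd (nat_lit 6) 
(.lf (nat_lit 224259) (.g (nat_lit 2261) (.e (nat_lit 98335) (nat_lit 18) (.e (nat_lit 164179) (nat_lit 154) (.e (nat_lit 57447) (nat_lit 19) (.e (nat_lit 393229) (nat_lit 9) (.e (nat_lit 336086) (nat_lit 9) .nil))))) .nil)) 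
(.lf (nat_lit 224323) (.g (nat_lit 2343) (.e (nat_lit 98335) (nat_lit 18) (.e (nat_lit 164325) (nat_lit 230) (.e (nat_lit 163903) (nat_lit 12) (.e (nat_lit 426564) (nat_lit 34) .nil)))) .nil))) (.nd (nat_lit 6) 
(.lf (nat_lit 224291) (.g (nat_lit 2949) (.e (nat_lit 98335) (nat_lit 18) (.e (nat_lit 164322) (nat_lit 230) (.e (nat_lit 163902) (nat_lit 12) (.e (nat_lit 426566) (nat_lit 34) (.e (nat_lit 393268) (nat_lit 23) (.e (nat_lit 426436) (nat_lit 18) .nil)))))) (.g (nat_lit 4) .nil .nil))) 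
(.lf (nat_lit 224355) (.g (nat_lit 1927) (.e (nat_lit 98335) (nat_lit 18) (.e (nat_lit 164327) (nat_lit 230) (.e (nat_lit 163875) (nat_lit 3) (.e (nat_lit 204833) (nat_lit 19) .nil)))) .nil)))) (.nd (nat_lit 5) (.nd (nat_lit 6) 
(.lf (nat_lit 224275) (.g (nat_lit 1569) (.e (nat_lit 98335) (nat_lit 18) (.e (nat_lit 164183) (nat_lit 154) (.e (nat_lit 57409) (nat_lit 12) (.e (nat_lit 336370) (nat_lit 27) .nil)))) .nil)) 
(.lf (nat_lit 224339) (.g (nat_lit 1311) (.e (nat_lit 98335) (nat_lit 18) (.e (nat_lit 164325) (nat_lit 230) (.e (nat_lit 163944) (nat_lit 19) (.e (nat_lit 483336) (nat_lit 9) .nil)))) .nil))) (.nd (nat_lit 6) 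
(.lf (nat_lit 224307) (.g (nat_lit 1676) (.e (nat_lit 98335) (nat_lit 18) (.e (nat_lit 164324) (nat_lit 230) (.e (nat_lit 163903) (nat_lit 12) (.e (nat_lit 426568) (nat_lit 34) (.e (nat_lit 393279) (nat_lit 23) (.e (nat_lit 433920) (nat_lit 18) .nil)))))) (.g (nat_lit 4) .nil .nil))) 
(.lf (nat_lit 224371) (.g (nat_lit 2070) (.e (nat_lit 98335) (nat_lit 18) (.e (nat_lit 164327) (nat_lit 230) (.e (nat_lit 163907) (nat_lit 12) (.e (nat_lit 426568) (nat_lit 34) .nil)))) .nil))))) (.nd (nat_lit 4) (.nd (nat_lit 5) (.nd (nat_lit 6) 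
(.lf (nat_lit 224267) (.g (nat_lit 2163) (.e (nat_lit 98335) (nat_lit 18) (.e (nat_lit 164182) (nat_lit 154) (.e (nat_lit 57409) (nat_lit 12) (.e (nat_lit 336414) (nat_lit 27) (.e (nat_lit 426541) (nat_lit 29) .nil))))) .nil)) 
(.lf (nat_lit 224331) (.g (nat_lit 3470) (.e (nat_lit 98335) (nat_lit 18) (.e (nat_lit 164325) (nat_lit 230) (.e (nat_lit 163907) (nat_lit 12) (.e (nat_lit 426567) (nat_lit 34) (.e (nat_lit 393268) (nat_lit 23) (.e (nat_lit 426438) (nat_lit 18) .nil)))))) (.g (nat_lit 6) .nil .nil)))) (.nd (nat_lit 6) 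
(.lf (nat_lit 224299) (.g (nat_lit 3049) (.e (nat_lit 98335) (nat_lit 18) (.e (nat_lit 164324) (nat_lit 230) (.e (nat_lit 163902) (nat_lit 12) (.e (nat_lit 426566) (nat_lit 34) (.e (nat_lit 393272) (nat_lit 23) .nil))))) .nil)) 
(.lf (nat_lit 224363) (.g (nat_lit 2440) (.e (nat_lit 98335) (nat_lit 18) (.e (nat_lit 164327) (nat_lit 230) (.e (nat_lit 163903) (nat_lit 12) (.e (nat_lit 426568) (nat_lit 34) (.e (nat_lit 393272) (nat_lit 23) .nil))))) .nil)))) (.nd (nat_lit 5) (.nd (nat_lit 6) 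
(.lf (nat_lit 224283) (.g (nat_lit 2496) (.e (nat_lit 98335) (nat_lit 18) (.e (nat_lit 164183) (nat_lit 154) (.e (nat_lit 57411) (nat_lit 12) (.e (nat_lit 336454) (nat_lit 34) (.e (nat_lit 483385) (nat_lit 23) (.e (nat_lit 343808) (nat_lit 3) .nil)))))) (.g (nat_lit 5) .nil .nil))) 
(.lf (nat_lit 224347) (.g (nat_lit 3293) (.e (nat_lit 98335) (nat_lit 18) (.e (nat_lit 164327) (nat_lit 230) (.e (nat_lit 163868) (nat_lit 2) (.e (nat_lit 196656) (nat_lit 11) (.e (nat_lit 16416) (nat_lit 3) (.e (nat_lit 204817) (nat_lit 17) (.e (nat_lit 2198) (nat_lit 144) (.e (nat_lit 720945) (nat_lit 23) .nil)))))))) (.g (nat_lit 4) .nil .nil)))) (.nd (nat_lit 6) 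
(.lf (nat_lit 224315) (.g (nat_lit 545) (.e (nat_lit 98335) (nat_lit 18) (.e (nat_lit 164324) (nat_lit 230) (.e (nat_lit 163944) (nat_lit 19) .nil))) .nil)) 
(.lf (nat_lit 224379) (.g (nat_lit 1490) (.e (nat_lit 98335) (nat_lit 18) (.e (nat_lit 164329) (nat_lit 230) (.e (nat_lit 163902) (nat_lit 12) (.e (nat_lit 426489) (nat_lit 27) .nil)))) .nil)))))) (.nd (nat_lit 3) (.nd (nat_lit 4) (.nd (nat_lit 5) (.nd (nat_lit 6) 
(.lf (nat_lit 224263) (.g (nat_lit 1528) (.e (nat_lit 98335) (nat_lit 18) (.e (nat_lit 164179) (nat_lit 154) (.e (nat_lit 57448) (nat_lit 19) (.e (nat_lit 401152) (nat_lit 14) .nil)))) .nil)) 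
(.lf (nat_lit 224327) (.g (nat_lit 1672) (.e (nat_lit 98335) (nat_lit 18) (.e (nat_lit 164325) (nat_lit 230) (.e (nat_lit 163903) (nat_lit 12) (.e (nat_lit 426568) (nat_lit 34) (.e (nat_lit 393279) (nat_lit 23) (.e (nat_lit 433920) (nat_lit 18) .nil)))))) (.g (nat_lit 4) .nil .nil)))) (.nd (nat_lit 6) 
(.lf (nat_lit 224295) (.g (nat_lit 2450) (.e (nat_lit 98335) (nat_lit 18) (.e (nat_lit 164322) (nat_lit 230) (.e (nat_lit 163902) (nat_lit 12) (.e (nat_lit 426568) (nat_lit 34) (.e (nat_lit 393270) (nat_lit 23) .nil))))) .nil)) 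
(.lf (nat_lit 224359) (.g (nat_lit 1699) (.e (nat_lit 98335) (nat_lit 18) (.e (nat_lit 164327) (nat_lit 230) (.e (nat_lit 163903) (nat_lit 12) (.e (nat_lit 426487) (nat_lit 27) (.e (nat_lit 336409) (nat_lit 27) .nil))))) .nil)))) (.nd (nat_lit 5) (.nd (nat_lit 6) 
(.lf (nat_lit 224279) (.g (nat_lit 2315) (.e (nat_lit 98335) (nat_lit 18) (.e (nat_lit 164183) (nat_lit 154) (.e (nat_lit 57409) (nat_lit 12) (.e (nat_lit 336454) (nat_lit 34) (.e (nat_lit 483385) (nat_lit 23) (.e (nat_lit 343808) (nat_lit 3) .nil)))))) (.g (nat_lit 5) .nil .nil))) 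
(.lf (nat_lit 224343) (.g (nat_lit 2587) (.e (nat_lit 98335) (nat_lit 18) (.e (nat_lit 164326) (nat_lit 230) (.e (nat_lit 163868) (nat_lit 2) (.e (nat_lit 196678) (nat_lit 16) .nil)))) .nil))) (.nd (nat_lit 6) 
(.lf (nat_lit 224311) (.g (nat_lit 1576) (.e (nat_lit 98335) (nat_lit 18) (.e (nat_lit 164324) (nat_lit 230) (.e (nat_lit 163941) (nat_lit 19) (.e (nat_lit 483338) (nat_lit 9) (.e (nat_lit 426228) (nat_lit 9) .nil))))) .nil)) 
(.lf (nat_lit 224375) (.g (nat_lit 1103) (.e (nat_lit 98335) (nat_lit 18) (.e (nat_lit 164327) (nat_lit 230) (.e (nat_lit 163941) (nat_lit 19) (.e (nat_lit 483339) (nat_lit 9) (.e (nat_lit 426225) (nat_lit 9) .nil))))) .nil))))) (.nd (nat_lit 4) (.nd (nat_lit 5) (.nd (nat_lit 6) 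
(.lf (nat_lit 224271) (.g (nat_lit 1947) (.e (nat_lit 98335) (nat_lit 18) (.e (nat_lit 164182) (nat_lit 154) (.e (nat_lit 57447) (nat_lit 19) (.e (nat_lit 393229) (nat_lit 9) (.e (nat_lit 336085) (nat_lit 9) .nil))))) .nil)) 
(.lf (nat_lit 224335) (.g (nat_lit 1397) (.e (nat_lit 98335) (nat_lit 18) (.e (nat_lit 164325) (nat_lit 230) (.e (nat_lit 163941) (nat_lit 19) (.e (nat_lit 483339) (nat_lit 9) (.e (nat_lit 426225) (nat_lit 9) .nil))))) .nil))) (.nd (nat_lit 6) 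
(.lf (nat_lit 224303) (.g (nat_lit 2673) (.e (nat_lit 98335) (nat_lit 18) (.e (nat_lit 164324) (nat_lit 230) (.e (nat_lit 163902) (nat_lit 12) (.e (nat_lit 426568) (nat_lit 34) (.e (nat_lit 393279) (nat_lit 23) .nil))))) .nil)) 
(.lf (nat_lit 224367) (.g (nat_lit 2138) (.e (nat_lit 98335) (nat_lit 18) (.e (nat_lit 164327) (nat_lit 230) (.e (nat_lit 163906) (nat_lit 12) (.e (nat_lit 426566) (nat_lit 34) (.e (nat_lit 393273) (nat_lit 23) .nil))))) .nil)))) (.nd (nat_lit 5) (.nd (nat_lit 6) 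
(.lf (nat_lit 224287) (.g (nat_lit 1184) (.e (nat_lit 98335) (nat_lit 18) (.e (nat_lit 164305) (nat_lit 226) (.e (nat_lit 2630) (nat_lit 164) (.e (nat_lit 172039) (nat_lit 0) .nil)))) .nil)) 
(.lf (nat_lit 224351) (.g (nat_lit 2021) (.e (nat_lit 98335) (nat_lit 18) (.e (nat_lit 164327) (nat_lit 230) (.e (nat_lit 163871) (nat_lit 2) (.e (nat_lit 196658) (nat_lit 12) .nil)))) .nil))) (.nd (nat_lit 6) 
(.lf (nat_lit 224319) (.g (nat_lit 3494) (.e (nat_lit 98335) (nat_lit 18) (.e (nat_lit 164325) (nat_lit 230) (.e (nat_lit 163902) (nat_lit 12) (.e (nat_lit 426566) (nat_lit 34) (.e (nat_lit 393268) (nat_lit 23) .nil))))) .nil)) 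
(.lf (nat_lit 224383) (.g (nat_lit 3471) (.e (nat_lit 98335) (nat_lit 18) (.e (nat_lit 164329) (nat_lit 230) (.e (nat_lit 163902) (nat_lit 12) (.e (nat_lit 426568) (nat_lit 34) (.e (nat_lit 393273) (nat_lit 23) (.e (nat_lit 426436) (nat_lit 18) .nil)))))) (.g (nat_lit 0) .nil .nil))))))))))

noncomputable def tv2941 : DT := (.nd (nat_lit 0) (.nd (nat_lit 1) (.nd (nat_lit 2) (.nd (nat_lit 3) (.nd (nat_lit 4) (.nd (nat_lit 5) (.nd (nat_lit 6) 
(.lf (nat_lit 224384) (.g (nat_lit 1429) (.e (nat_lit 98335) (nat_lit 18) (.e (nat_lit 164329) (nat_lit 230) (.e (nat_lit 163913) (nat_lit 12) (.e (nat_lit 433920) (nat_lit 34) .nil)))) .nil)) 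
(.lf (nat_lit 224448) (.g (nat_lit 2290) (.e (nat_lit 98335) (nat_lit 18) (.e (nat_lit 164403) (nat_lit 256) (.e (nat_lit 57370) (nat_lit 2) (.e (nat_lit 90174) (nat_lit 14) (.e (nat_lit 180243) (nat_lit 5) (.e (nat_lit 532508) (nat_lit 2) (.e (nat_lit 106517) (nat_lit 9) (.e (nat_lit 1252) (nat_lit 92) .nil)))))))) (.g (nat_lit 4) .nil .nil)))) (.nd (nat_lit 6) 
(.lf (nat_lit 224416) (.g (nat_lit 3120) (.e (nat_lit 98335) (nat_lit 18) (.e (nat_lit 164332) (nat_lit 230) (.e (nat_lit 163874) (nat_lit 3) (.e (nat_lit 204821) (nat_lit 17) .nil)))) .nil)) 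
(.lf (nat_lit 224480) (.g (nat_lit 1963) (.e (nat_lit 98335) (nat_lit 18) (.e (nat_lit 164403) (nat_lit 256) (.e (nat_lit 57373) (nat_lit 2) (.e (nat_lit 90170) (nat_lit 13) (.e (nat_lit 172065) (nat_lit 3) .nil))))) .nil)))) (.nd (nat_lit 5) (.nd (nat_lit 6) 
(.lf (nat_lit 224400) (.g (nat_lit 3051) (.e (nat_lit 98335) (nat_lit 18) (.e (nat_lit 164332) (nat_lit 230) (.e (nat_lit 163867) (nat_lit 2) (.e (nat_lit 196624) (nat_lit 9) (.e (nat_lit 1277) (nat_lit 94) (.e (nat_lit 114718) (nat_lit 23) (.e (nat_lit 98356) (nat_lit 26) (.e (nat_lit 426438) (nat_lit 18) .nil)))))))) (.g (nat_lit 4) .nil .nil))) 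
(.lf (nat_lit 224464) (.g (nat_lit 2787) (.e (nat_lit 98335) (nat_lit 18) (.e (nat_lit 164403) (nat_lit 256) (.e (nat_lit 57371) (nat_lit 2) (.e (nat_lit 90174) (nat_lit 14) (.e (nat_lit 180243) (nat_lit 5) (.e (nat_lit 532508) (nat_lit 2) (.e (nat_lit 106523) (nat_lit 9) (.e (nat_lit 1254) (nat_lit 92) .nil)))))))) (.g (nat_lit 4) .nil .nil)))) (.nd (nat_lit 6) 
(.lf (nat_lit 224432) (.g (nat_lit 2114) (.e (nat_lit 98335) (nat_lit 18) (.e (nat_lit 164332) (nat_lit 230) (.e (nat_lit 163905) (nat_lit 12) (.e (nat_lit 426487) (nat_lit 27) .nil)))) .nil)) 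
(.lf (nat_lit 224496) (.g (nat_lit 4496) (.e (nat_lit 98335) (nat_lit 18) (.e (nat_lit 164403) (nat_lit 256) (.e (nat_lit 57373) (nat_lit 2) (.e (nat_lit 90174) (nat_lit 14) (.e (nat_lit 180243) (nat_lit 5) (.e (nat_lit 532508) (nat_lit 2) (.e (nat_lit 106517) (nat_lit 9) (.e (nat_lit 1252) (nat_lit 92) .nil)))))))) (.g (nat_lit 6) .nil .nil)))))) 
(.nd (nat_lit 4) (.nd (nat_lit 5) (.nd (nat_lit 6) 
(.lf (nat_lit 224392) (.g (nat_lit 3166) (.e (nat_lit 98335) (nat_lit 18) (.e (nat_lit 164330) (nat_lit 230) (.e (nat_lit 163902) (nat_lit 12) (.e (nat_lit 426568) (nat_lit 34) (.e (nat_lit 393279) (nat_lit 23) (.e (nat_lit 426435) (nat_lit 18) .nil)))))) (.g (nat_lit 4) .nil .nil))) 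
(.lf (nat_lit 224456) (.g (nat_lit 3746) (.e (nat_lit 98335) (nat_lit 18) (.e (nat_lit 164403) (nat_lit 256) (.e (nat_lit 57371) (nat_lit 2) (.e (nat_lit 90172) (nat_lit 14) (.e (nat_lit 180244) (nat_lit 5) (.e (nat_lit 532508) (nat_lit 2) (.e (nat_lit 106526) (nat_lit 9) (.e (nat_lit 1252) (nat_lit 92) .nil)))))))) (.g (nat_lit 5) .nil .nil)))) (.nd (nat_lit 6) 
(.lf (nat_lit 224424) (.g (nat_lit 2068) (.e (nat_lit 98335) (nat_lit 18) (.e (nat_lit 164332) (nat_lit 230) (.e (nat_lit 163901) (nat_lit 12) (.e (nat_lit 426566) (nat_lit 34) (.e (nat_lit 393272) (nat_lit 23) .nil))))) .nil)) 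
(.lf (nat_lit 224488) (.g (nat_lit 3829) (.e (nat_lit 98335) (nat_lit 18) (.e (nat_lit 164403) (nat_lit 256) (.e (nat_lit 57373) (nat_lit 2) (.e (nat_lit 90172) (nat_lit 14) (.e (nat_lit 180243) (nat_lit 5) (.e (nat_lit 532508) (nat_lit 2) (.e (nat_lit 106526) (nat_lit 9) (.e (nat_lit 1252) (nat_lit 92) .nil)))))))) (.g (nat_lit 4) .nil .nil))))) (.nd (nat_lit 5) (.nd (nat_lit 6) 
(.lf (nat_lit 224408) (.g (nat_lit 4017) (.e (nat_lit 98335) (nat_lit 18) (.e (nat_lit 164332) (nat_lit 230) (.e (nat_lit 163869) (nat_lit 2) (.e (nat_lit 196678) (nat_lit 16) .nil)))) .nil)) 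
(.lf (nat_lit 224472) (.g (nat_lit 3853) (.e (nat_lit 98335) (nat_lit 18) (.e (nat_lit 164403) (nat_lit 256) (.e (nat_lit 57371) (nat_lit 2) (.e (nat_lit 90174) (nat_lit 14) (.e (nat_lit 180243) (nat_lit 5) (.e (nat_lit 532511) (nat_lit 2) (.e (nat_lit 106526) (nat_lit 9) (.e (nat_lit 1252) (nat_lit 92) .nil)))))))) (.g (nat_lit 5) .nil .nil)))) (.nd (nat_lit 6) 
(.lf (nat_lit 224440) (.g (nat_lit 2395) (.e (nat_lit 98335) (nat_lit 18) (.e (nat_lit 164396) (nat_lit 256) (.e (nat_lit 57371) (nat_lit 2) (.e (nat_lit 90174) (nat_lit 14) (.e (nat_lit 180243) (nat_lit 5) (.e (nat_lit 532511) (nat_lit 2) (.e (nat_lit 106526) (nat_lit 9) (.e (nat_lit 1252) (nat_lit 92) .nil)))))))) (.g (nat_lit 4) .nil .nil))) 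
(.lf (nat_lit 224504) (.g (nat_lit 2604) (.e (nat_lit 98335) (nat_lit 18) (.e (nat_lit 164403) (nat_lit 256) (.e (nat_lit 57373) (nat_lit 2) (.e (nat_lit 90174) (nat_lit 14) (.e (nat_lit 180243) (nat_lit 5) (.e (nat_lit 532510) (nat_lit 2) (.e (nat_lit 106523) (nat_lit 9) (.e (nat_lit 1254) (nat_lit 92) .nil)))))))) (.g (nat_lit 4) .nil .nil))))))) 
(.nd (nat_lit 3) (.nd (nat_lit 4) (.nd (nat_lit 5) (.nd (nat_lit 6) 
(.lf (nat_lit 224388) (.g (nat_lit 3333) (.e (nat_lit 98335) (nat_lit 18) (.e (nat_lit 164330) (nat_lit 230) (.e (nat_lit 163902) (nat_lit 12) (.e (nat_lit 426566) (nat_lit 34) (.e (nat_lit 393267) (nat_lit 23) .nil))))) .nil)) 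
(.lf (nat_lit 224452) (.g (nat_lit 3259) (.e (nat_lit 98335) (nat_lit 18) (.e (nat_lit 164403) (nat_lit 256) (.e (nat_lit 57371) (nat_lit 2) (.e (nat_lit 90172) (nat_lit 14) (.e (nat_lit 180243) (nat_lit 5) (.e (nat_lit 532508) (nat_lit 2) (.e (nat_lit 106517) (nat_lit 9) (.e (nat_lit 1252) (nat_lit 92) .nil)))))))) (.g (nat_lit 4) .nil .nil)))) (.nd (nat_lit 6) 
(.lf (nat_lit 224420) (.g (nat_lit 4274) (.e (nat_lit 98335) (nat_lit 18) (.e (nat_lit 164332) (nat_lit 230) (.e (nat_lit 163874) (nat_lit 3) (.e (nat_lit 204837) (nat_lit 20) (.e (nat_lit 114718) (nat_lit 23) (.e (nat_lit 98356) (nat_lit 26) (.e (nat_lit 426438) (nat_lit 18) .nil))))))) (.g (nat_lit 7) .nil .nil))) 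
(.lf (nat_lit 224484) (.g (nat_lit 1628) (.e (nat_lit 98335) (nat_lit 18) (.e (nat_lit 164403) (nat_lit 256) (.e (nat_lit 57373) (nat_lit 2) (.e (nat_lit 90172) (nat_lit 14) .nil)))) .nil)))) (.nd (nat_lit 5) (.nd (nat_lit 6) 
(.lf (nat_lit 224404) (.g (nat_lit 4256) (.e (nat_lit 98335) (nat_lit 18) (.e (nat_lit 164332) (nat_lit 230) (.e (nat_lit 163869) (nat_lit 2) (.e (nat_lit 196661) (nat_lit 12) (.e (nat_lit 57538) (nat_lit 46) .nil))))) .nil)) 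
(.lf (nat_lit 224468) (.g (nat_lit 2504) (.e (nat_lit 98335) (nat_lit 18) (.e (nat_lit 164403) (nat_lit 256) (.e (nat_lit 57371) (nat_lit 2) (.e (nat_lit 90174) (nat_lit 14) (.e (nat_lit 180243) (nat_lit 5) (.e (nat_lit 532510) (nat_lit 2) (.e (nat_lit 106523) (nat_lit 9) (.e (nat_lit 1252) (nat_lit 92) .nil)))))))) (.g (nat_lit 4) .nil .nil)))) (.nd (nat_lit 6) 
(.lf (nat_lit 224436) (.g (nat_lit 889) (.e (nat_lit 98335) (nat_lit 18) (.e (nat_lit 164332) (nat_lit 230) (.e (nat_lit 163913) (nat_lit 12) .nil))) .nil)) 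
(.lf (nat_lit 224500) (.g (nat_lit 3159) (.e (nat_lit 98335) (nat_lit 18) (.e (nat_lit 164403) (nat_lit 256) (.e (nat_lit 57373) (nat_lit 2) (.e (nat_lit 90174) (nat_lit 14) (.e (nat_lit 180243) (nat_lit 5) (.e (nat_lit 532508) (nat_lit 2) (.e (nat_lit 106525) (nat_lit 9) (.e (nat_lit 1252) (nat_lit 92) .nil)))))))) (.g (nat_lit 4) .nil .nil)))))) 
(.nd (nat_lit 4) (.nd (nat_lit 5) (.nd (nat_lit 6) 
(.lf (nat_lit 224396) (.g (nat_lit 3800) (.e (nat_lit 98335) (nat_lit 18) (.e (nat_lit 164331) (nat_lit 230) (.e (nat_lit 163902) (nat_lit 12) (.e (nat_lit 426566) (nat_lit 34) (.e (nat_lit 393267) (nat_lit 23) .nil))))) .nil)) 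
(.lf (nat_lit 224460) (.g (nat_lit 2381) (.e (nat_lit 98335) (nat_lit 18) (.e (nat_lit 164403) (nat_lit 256) (.e (nat_lit 57371) (nat_lit 2) (.e (nat_lit 90172) (nat_lit 14) (.e (nat_lit 180245) (nat_lit 5) .nil))))) .nil))) (.nd (nat_lit 6) 
(.lf (nat_lit 224428) (.g (nat_lit 1982) (.e (nat_lit 98335) (nat_lit 18) (.e (nat_lit 164332) (nat_lit 230) (.e (nat_lit 163902) (nat_lit 12) (.e (nat_lit 426568) (nat_lit 34) (.e (nat_lit 393275) (nat_lit 23) (.e (nat_lit 433920) (nat_lit 18) .nil)))))) (.g (nat_lit 4) .nil .nil))) 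
(.lf (nat_lit 224492) (.g (nat_lit 3264) (.e (nat_lit 98335) (nat_lit 18) (.e (nat_lit 164403) (nat_lit 256) (.e (nat_lit 57373) (nat_lit 2) (.e (nat_lit 90172) (nat_lit 14) (.e (nat_lit 180244) (nat_lit 5) (.e (nat_lit 532508) (nat_lit 2) (.e (nat_lit 106526) (nat_lit 9) (.e (nat_lit 1254) (nat_lit 92) .nil)))))))) (.g (nat_lit 4) .nil .nil))))) (.nd (nat_lit 5) (.nd (nat_lit 6) 
(.lf (nat_lit 224412) (.g (nat_lit 3566) (.e (nat_lit 98335) (nat_lit 18) (.e (nat_lit 164332) (nat_lit 230) (.e (nat_lit 163873) (nat_lit 3) (.e (nat_lit 204838) (nat_lit 20) (.e (nat_lit 114718) (nat_lit 23) .nil))))) .nil)) 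
(.lf (nat_lit 224476) (.g (nat_lit 4751) (.e (nat_lit 98335) (nat_lit 18) (.e (nat_lit 164403) (nat_lit 256) (.e (nat_lit 57371) (nat_lit 2) (.e (nat_lit 90174) (nat_lit 14) (.e (nat_lit 180243) (nat_lit 5) (.e (nat_lit 532515) (nat_lit 3) (.e (nat_lit 114719) (nat_lit 23) .nil))))))) (.g (nat_lit 7) .nil .nil)))) (.nd (nat_lit 6) 
(.lf (nat_lit 224444) (.g (nat_lit 2393) (.e (nat_lit 98335) (nat_lit 18) (.e (nat_lit 164401) (nat_lit 256) (.e (nat_lit 57373) (nat_lit 2) (.e (nat_lit 90174) (nat_lit 14) (.e (nat_lit 180243) (nat_lit 5) (.e (nat_lit 532508) (nat_lit 2) (.e (nat_lit 106526) (nat_lit 9) (.e (nat_lit 1252) (nat_lit 92) .nil)))))))) (.g (nat_lit 4) .nil .nil))) 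
(.lf (nat_lit 224508) (.g (nat_lit 3336) (.e (nat_lit 98335) (nat_lit 18) (.e (nat_lit 164403) (nat_lit 256) (.e (nat_lit 57373) (nat_lit 2) (.e (nat_lit 90174) (nat_lit 14) (.e (nat_lit 180243) (nat_lit 5) (.e (nat_lit 532511) (nat_lit 2) (.e (nat_lit 106526) (nat_lit 9) (.e (nat_lit 1254) (nat_lit 92) .nil)))))))) (.g (nat_lit 4) .nil .nil)))))))) 
(.nd (nat_lit 2) (.nd (nat_lit 3) (.nd (nat_lit 4) (.nd (nat_lit 5) (.nd (nat_lit 6) 
(.lf (nat_lit 224386) (.g (nat_lit 2904) (.e (nat_lit 98335) (nat_lit 18) (.e (nat_lit 164330) (nat_lit 230) (.e (nat_lit 163873) (nat_lit 3) (.e (nat_lit 204809) (nat_lit 9) (.e (nat_lit 426139) (nat_lit 3) (.e (nat_lit 204817) (nat_lit 17) (.e (nat_lit 2198) (nat_lit 144) (.e (nat_lit 720945) (nat_lit 23) .nil)))))))) (.g (nat_lit 4) .nil .nil))) 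
(.lf (nat_lit 224450) (.g (nat_lit 3009) (.e (nat_lit 98335) (nat_lit 18) (.e (nat_lit 164403) (nat_lit 256) (.e (nat_lit 57370) (nat_lit 2) (.e (nat_lit 90174) (nat_lit 14) (.e (nat_lit 180243) (nat_lit 5) (.e (nat_lit 532508) (nat_lit 2) (.e (nat_lit 106526) (nat_lit 9) (.e (nat_lit 1252) (nat_lit 92) .nil)))))))) (.g (nat_lit 5) .nil .nil)))) (.nd (nat_lit 6) 
(.lf (nat_lit 224418) (.g (nat_lit 2707) (.e (nat_lit 98335) (nat_lit 18) (.e (nat_lit 164332) (nat_lit 230) (.e (nat_lit 163874) (nat_lit 3) (.e (nat_lit 204833) (nat_lit 19) .nil)))) .nil)) 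
(.lf (nat_lit 224482) (.g (nat_lit 3140) (.e (nat_lit 98335) (nat_lit 18) (.e (nat_lit 164403) (nat_lit 256) (.e (nat_lit 57373) (nat_lit 2) (.e (nat_lit 90170) (nat_lit 13) (.e (nat_lit 172067) (nat_lit 3) (.e (nat_lit 204834) (nat_lit 19) (.e (nat_lit 106517) (nat_lit 9) (.e (nat_lit 1252) (nat_lit 92) .nil)))))))) (.g (nat_lit 4) .nil .nil))))) (.nd (nat_lit 5) (.nd (nat_lit 6) 
(.lf (nat_lit 224402) (.g (nat_lit 4079) (.e (nat_lit 98335) (nat_lit 18) (.e (nat_lit 164332) (nat_lit 230) (.e (nat_lit 163869) (nat_lit 2) (.e (nat_lit 196660) (nat_lit 12) (.e (nat_lit 57550) (nat_lit 48) (.e (nat_lit 720944) (nat_lit 23) (.e (nat_lit 98356) (nat_lit 26) (.e (nat_lit 426438) (nat_lit 18) .nil)))))))) (.g (nat_lit 8) .nil .nil))) 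
(.lf (nat_lit 224466) (.g (nat_lit 3768) (.e (nat_lit 98335) (nat_lit 18) (.e (nat_lit 164403) (nat_lit 256) (.e (nat_lit 57371) (nat_lit 2) (.e (nat_lit 90174) (nat_lit 14) (.e (nat_lit 180243) (nat_lit 5) (.e (nat_lit 532508) (nat_lit 2) (.e (nat_lit 106526) (nat_lit 9) (.e (nat_lit 1254) (nat_lit 92) .nil)))))))) (.g (nat_lit 5) .nil .nil)))) (.nd (nat_lit 6) 
(.lf (nat_lit 224434) (.g (nat_lit 1898) (.e (nat_lit 98335) (nat_lit 18) (.e (nat_lit 164332) (nat_lit 230) (.e (nat_lit 163905) (nat_lit 12) (.e (nat_lit 426568) (nat_lit 34) (.e (nat_lit 393272) (nat_lit 23) .nil))))) .nil)) 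
(.lf (nat_lit 224498) (.g (nat_lit 2973) (.e (nat_lit 98335) (nat_lit 18) (.e (nat_lit 164403) (nat_lit 256) (.e (nat_lit 57373) (nat_lit 2) (.e (nat_lit 90174) (nat_lit 14) (.e (nat_lit 180243) (nat_lit 5) (.e (nat_lit 532508) (nat_lit 2) (.e (nat_lit 106522) (nat_lit 9) (.e (nat_lit 1252) (nat_lit 92) .nil)))))))) (.g (nat_lit 4) .nil .nil)))))) 
(.nd (nat_lit 4) (.nd (nat_lit 5) (.nd (nat_lit 6) 
(.lf (nat_lit 224394) (.g (nat_lit 2372) (.e (nat_lit 98335) (nat_lit 18) (.e (nat_lit 164330) (nat_lit 230) (.e (nat_lit 163905) (nat_lit 12) (.e (nat_lit 426566) (nat_lit 34) (.e (nat_lit 393267) (nat_lit 23) .nil))))) .nil)) 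
(.lf (nat_lit 224458) (.g (nat_lit 5192) (.e (nat_lit 98335) (nat_lit 18) (.e (nat_lit 164403) (nat_lit 256) (.e (nat_lit 57371) (nat_lit 2) (.e (nat_lit 90172) (nat_lit 14) (.e (nat_lit 180244) (nat_lit 5) (.e (nat_lit 532513) (nat_lit 3) (.e (nat_lit 114718) (nat_lit 23) .nil))))))) (.g (nat_lit 7) .nil .nil)))) (.nd (nat_lit 6) 
(.lf (nat_lit 224426) (.g (nat_lit 1381) (.e (nat_lit 98335) (nat_lit 18) (.e (nat_lit 164332) (nat_lit 230) (.e (nat_lit 163901) (nat_lit 12) (.e (nat_lit 426568) (nat_lit 34) .nil)))) .nil)) 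
(.lf (nat_lit 224490) (.g (nat_lit 3972) (.e (nat_lit 98335) (nat_lit 18) (.e (nat_lit 164403) (nat_lit 256) (.e (nat_lit 57373) (nat_lit 2) (.e (nat_lit 90172) (nat_lit 14) (.e (nat_lit 180244) (nat_lit 5) (.e (nat_lit 532508) (nat_lit 2) (.e (nat_lit 106517) (nat_lit 9) (.e (nat_lit 1255) (nat_lit 92) .nil)))))))) (.g (nat_lit 5) .nil .nil))))) (.nd (nat_lit 5) (.nd (nat_lit 6) 
(.lf (nat_lit 224410) (.g (nat_lit 2635) (.e (nat_lit 98335) (nat_lit 18) (.e (nat_lit 164332) (nat_lit 230) (.e (nat_lit 163873) (nat_lit 3) (.e (nat_lit 204834) (nat_lit 19) .nil)))) .nil)) 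
(.lf (nat_lit 224474) (.g (nat_lit 2604) (.e (nat_lit 98335) (nat_lit 18) (.e (nat_lit 164403) (nat_lit 256) (.e (nat_lit 57371) (nat_lit 2) (.e (nat_lit 90174) (nat_lit 14) (.e (nat_lit 180243) (nat_lit 5) (.e (nat_lit 532511) (nat_lit 2) (.e (nat_lit 106526) (nat_lit 9) (.e (nat_lit 1255) (nat_lit 92) .nil)))))))) (.g (nat_lit 4) .nil .nil)))) (.nd (nat_lit 6) 
(.lf (nat_lit 224442) (.g (nat_lit 2637) (.e (nat_lit 98335) (nat_lit 18) (.e (nat_lit 164396) (nat_lit 256) (.e (nat_lit 57375) (nat_lit 2) (.e (nat_lit 90172) (nat_lit 14) (.e (nat_lit 180244) (nat_lit 5) (.e (nat_lit 532515) (nat_lit 3) (.e (nat_lit 114719) (nat_lit 23) .nil))))))) (.g (nat_lit 4) .nil .nil))) 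
(.lf (nat_lit 224506) (.g (nat_lit 3389) (.e (nat_lit 98335) (nat_lit 18) (.e (nat_lit 164403) (nat_lit 256) (.e (nat_lit 57373) (nat_lit 2) (.e (nat_lit 90174) (nat_lit 14) (.e (nat_lit 180243) (nat_lit 5) (.e (nat_lit 532511) (nat_lit 2) (.e (nat_lit 106523) (nat_lit 9) (.e (nat_lit 1252) (nat_lit 92) .nil)))))))) (.g (nat_lit 4) .nil .nil))))))) 
(.nd (nat_lit 3) (.nd (nat_lit 4) (.nd (nat_lit 5) (.nd (nat_lit 6) 
(.lf (nat_lit 224390) (.g (nat_lit 2538) (.e (nat_lit 98335) (nat_lit 18) (.e (nat_lit 164330) (nat_lit 230) (.e (nat_lit 163902) (nat_lit 12) (.e (nat_lit 426568) (nat_lit 34) (.e (nat_lit 393275) (nat_lit 23) .nil))))) .nil)) 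
(.lf (nat_lit 224454) (.g (nat_lit 2690) (.e (nat_lit 98335) (nat_lit 18) (.e (nat_lit 164403) (nat_lit 256) (.e (nat_lit 57371) (nat_lit 2) (.e (nat_lit 90172) (nat_lit 14) (.e (nat_lit 180243) (nat_lit 5) (.e (nat_lit 532508) (nat_lit 2) (.e (nat_lit 106526) (nat_lit 9) (.e (nat_lit 1255) (nat_lit 92) .nil)))))))) (.g (nat_lit 4) .nil .nil)))) (.nd (nat_lit 6) 
(.lf (nat_lit 224422) (.g (nat_lit 3189) (.e (nat_lit 98335) (nat_lit 18) (.e (nat_lit 164332) (nat_lit 230) (.e (nat_lit 163874) (nat_lit 3) (.e (nat_lit 204844) (nat_lit 23) .nil)))) .nil)) 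
(.lf (nat_lit 224486) (.g (nat_lit 3149) (.e (nat_lit 98335) (nat_lit 18) (.e (nat_lit 164403) (nat_lit 256) (.e (nat_lit 57373) (nat_lit 2) (.e (nat_lit 90172) (nat_lit 14) (.e (nat_lit 180243) (nat_lit 5) (.e (nat_lit 532508) (nat_lit 2) (.e (nat_lit 106517) (nat_lit 9) (.e (nat_lit 1252) (nat_lit 92) .nil)))))))) (.g (nat_lit 4) .nil .nil))))) (.nd (nat_lit 5) (.nd (nat_lit 6) 
(.lf (nat_lit 224406) (.g (nat_lit 3585) (.e (nat_lit 98335) (nat_lit 18) (.e (nat_lit 164332) (nat_lit 230) (.e (nat_lit 163869) (nat_lit 2) (.e (nat_lit 196677) (nat_lit 16) .nil)))) .nil)) 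
(.lf (nat_lit 224470) (.g (nat_lit 2928) (.e (nat_lit 98335) (nat_lit 18) (.e (nat_lit 164403) (nat_lit 256) (.e (nat_lit 57371) (nat_lit 2) (.e (nat_lit 90174) (nat_lit 14) (.e (nat_lit 180243) (nat_lit 5) (.e (nat_lit 532511) (nat_lit 2) (.e (nat_lit 106523) (nat_lit 9) (.e (nat_lit 1252) (nat_lit 92) .nil)))))))) (.g (nat_lit 4) .nil .nil)))) (.nd (nat_lit 6) 
(.lf (nat_lit 224438) (.g (nat_lit 2524) (.e (nat_lit 98335) (nat_lit 18) (.e (nat_lit 164396) (nat_lit 256) (.e (nat_lit 57371) (nat_lit 2) (.e (nat_lit 90174) (nat_lit 14) (.e (nat_lit 180243) (nat_lit 5) (.e (nat_lit 532508) (nat_lit 2) (.e (nat_lit 106517) (nat_lit 9) (.e (nat_lit 1252) (nat_lit 92) .nil)))))))) (.g (nat_lit 4) .nil .nil))) 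
(.lf (nat_lit 224502) (.g (nat_lit 3687) (.e (nat_lit 98335) (nat_lit 18) (.e (nat_lit 164403) (nat_lit 256) (.e (nat_lit 57373) (nat_lit 2) (.e (nat_lit 90174) (nat_lit 14) (.e (nat_lit 180243) (nat_lit 5) (.e (nat_lit 532508) (nat_lit 2) (.e (nat_lit 106526) (nat_lit 9) (.e (nat_lit 1255) (nat_lit 92) .nil)))))))) (.g (nat_lit 5) .nil .nil)))))) 
(.nd (nat_lit 4) (.nd (nat_lit 5) (.nd (nat_lit 6) 
(.lf (nat_lit 224398) (.g (nat_lit 3075) (.e (nat_lit 98335) (nat_lit 18) (.e (nat_lit 164331) (nat_lit 230) (.e (nat_lit 163943) (nat_lit 19) (.e (nat_lit 483341) (nat_lit 9) (.e (nat_lit 426189) (nat_lit 9) .nil))))) .nil)) 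
(.lf (nat_lit 224462) (.g (nat_lit 2391) (.e (nat_lit 98335) (nat_lit 18) (.e (nat_lit 164403) (nat_lit 256) (.e (nat_lit 57371) (nat_lit 2) (.e (nat_lit 90174) (nat_lit 14) (.e (nat_lit 180243) (nat_lit 5) (.e (nat_lit 532508) (nat_lit 2) (.e (nat_lit 106520) (nat_lit 9) (.e (nat_lit 1254) (nat_lit 92) .nil)))))))) (.g (nat_lit 4) .nil .nil)))) (.nd (nat_lit 6) 
(.lf (nat_lit 224430) (.g (nat_lit 1923) (.e (nat_lit 98335) (nat_lit 18) (.e (nat_lit 164332) (nat_lit 230) (.e (nat_lit 163902) (nat_lit 12) (.e (nat_lit 426568) (nat_lit 34) (.e (nat_lit 401152) (nat_lit 23) .nil))))) .nil)) 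
(.lf (nat_lit 224494) (.g (nat_lit 5712) (.e (nat_lit 98335) (nat_lit 18) (.e (nat_lit 164403) (nat_lit 256) (.e (nat_lit 57373) (nat_lit 2) (.e (nat_lit 90172) (nat_lit 14) (.e (nat_lit 180244) (nat_lit 5) (.e (nat_lit 532513) (nat_lit 3) (.e (nat_lit 114718) (nat_lit 23) .nil))))))) (.g (nat_lit 7) .nil .nil))))) (.nd (nat_lit 5) (.nd (nat_lit 6) 
(.lf (nat_lit 224414) (.g (nat_lit 3189) (.e (nat_lit 98335) (nat_lit 18) (.e (nat_lit 164332) (nat_lit 230) (.e (nat_lit 163874) (nat_lit 3) (.e (nat_lit 204816) (nat_lit 17) .nil)))) .nil)) 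
(.lf (nat_lit 224478) (.g (nat_lit 1946) (.e (nat_lit 98335) (nat_lit 18) (.e (nat_lit 164403) (nat_lit 256) (.e (nat_lit 57373) (nat_lit 2) (.e (nat_lit 90167) (nat_lit 13) .nil)))) .nil))) (.nd (nat_lit 6) 
(.lf (nat_lit 224446) (.g (nat_lit 2754) (.e (nat_lit 98335) (nat_lit 18) (.e (nat_lit 164403) (nat_lit 256) (.e (nat_lit 57370) (nat_lit 2) (.e (nat_lit 90170) (nat_lit 13) (.e (nat_lit 172065) (nat_lit 3) (.e (nat_lit 204834) (nat_lit 19) (.e (nat_lit 106517) (nat_lit 9) (.e (nat_lit 1255) (nat_lit 92) .nil)))))))) (.g (nat_lit 4) .nil .nil))) 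
(.lf (nat_lit 224510) (.g (nat_lit 5871) (.e (nat_lit 98335) (nat_lit 18) (.e (nat_lit 164403) (nat_lit 256) (.e (nat_lit 57373) (nat_lit 2) (.e (nat_lit 90174) (nat_lit 14) (.e (nat_lit 180243) (nat_lit 5) (.e (nat_lit 532513) (nat_lit 3) (.e (nat_lit 114718) (nat_lit 23) .nil))))))) (.g (nat_lit 7) .nil .nil))))))))) 
(.nd (nat_lit 1) (.nd (nat_lit 2) (.nd (nat_lit 3) (.nd (nat_lit 4) (.nd (nat_lit 5) 
(.nd (nat_lit 6) 
(.lf (nat_lit 224385) (.g (nat_lit 3163) (.e (nat_lit 98335) (nat_lit 18) (.e (nat_lit 164330) (nat_lit 230) (.e (nat_lit 163869) (nat_lit 2) (.e (nat_lit 196654) (nat_lit 11) (.e (nat_lit 16416) (nat_lit 3) (.e (nat_lit 204817) (nat_lit 17) (.e (nat_lit 2198) (nat_lit 144) (.e (nat_lit 720945) (nat_lit 23) .nil)))))))) (.g (nat_lit 4) .nil .nil))) 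
(.lf (nat_lit 224449) (.g (nat_lit 2898) (.e (nat_lit 98335) (nat_lit 18) (.e (nat_lit 164403) (nat_lit 256) (.e (nat_lit 57370) (nat_lit 2) (.e (nat_lit 90174) (nat_lit 14) (.e (nat_lit 180243) (nat_lit 5) (.e (nat_lit 532508) (nat_lit 2) (.e (nat_lit 106517) (nat_lit 9) (.e (nat_lit 1255) (nat_lit 92) .nil)))))))) (.g (nat_lit 5) .nil .nil)))) (.nd (nat_lit 6) 
(.lf (nat_lit 224417) (.g (nat_lit 3174) (.e (nat_lit 98335) (nat_lit 18) (.e (nat_lit 164332) (nat_lit 230) (.e (nat_lit 163874) (nat_lit 3) (.e (nat_lit 204822) (nat_lit 17) .nil)))) .nil)) 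
(.lf (nat_lit 224481) (.g (nat_lit 2735) (.e (nat_lit 98335) (nat_lit 18) (.e (nat_lit 164403) (nat_lit 256) (.e (nat_lit 57373) (nat_lit 2) (.e (nat_lit 90170) (nat_lit 13) (.e (nat_lit 172065) (nat_lit 3) (.e (nat_lit 204838) (nat_lit 20) (.e (nat_lit 114717) (nat_lit 23) .nil))))))) (.g (nat_lit 4) .nil .nil))))) (.nd (nat_lit 5) (.nd (nat_lit 6) 
(.lf (nat_lit 224401) (.g (nat_lit 4288) (.e (nat_lit 98335) (nat_lit 18) (.e (nat_lit 164332) (nat_lit 230) (.e (nat_lit 163869) (nat_lit 2) (.e (nat_lit 196654) (nat_lit 11) (.e (nat_lit 16416) (nat_lit 3) .nil))))) .nil)) 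
(.lf (nat_lit 224465) (.g (nat_lit 2690) (.e (nat_lit 98335) (nat_lit 18) (.e (nat_lit 164403) (nat_lit 256) (.e (nat_lit 57371) (nat_lit 2) (.e (nat_lit 90174) (nat_lit 14) (.e (nat_lit 180243) (nat_lit 5) (.e (nat_lit 532508) (nat_lit 2) (.e (nat_lit 106525) (nat_lit 9) (.e (nat_lit 1252) (nat_lit 92) .nil)))))))) (.g (nat_lit 4) .nil .nil)))) (.nd (nat_lit 6) 
(.lf (nat_lit 224433) (.g (nat_lit 2222) (.e (nat_lit 98335) (nat_lit 18) (.e (nat_lit 164332) (nat_lit 230) (.e (nat_lit 163905) (nat_lit 12) (.e (nat_lit 426491) (nat_lit 27) .nil)))) .nil)) 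
(.lf (nat_lit 224497) (.g (nat_lit 2860) (.e (nat_lit 98335) (nat_lit 18) (.e (nat_lit 164403) (nat_lit 256) (.e (nat_lit 57373) (nat_lit 2) (.e (nat_lit 90174) (nat_lit 14) (.e (nat_lit 180243) (nat_lit 5) (.e (nat_lit 532508) (nat_lit 2) (.e (nat_lit 106520) (nat_lit 9) (.e (nat_lit 1254) (nat_lit 92) .nil)))))))) (.g (nat_lit 4) .nil .nil)))))) 
(.nd (nat_lit 4) (.nd (nat_lit 5) (.nd (nat_lit 6) 
(.lf (nat_lit 224393) (.g (nat_lit 1519) (.e (nat_lit 98335) (nat_lit 18) (.e (nat_lit 164330) (nat_lit 230) (.e (nat_lit 163905) (nat_lit 12) (.e (nat_lit 426479) (nat_lit 27) (.e (nat_lit 336443) (nat_lit 32) .nil))))) .nil)) 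
(.lf (nat_lit 224457) (.g (nat_lit 2768) (.e (nat_lit 98335) (nat_lit 18) (.e (nat_lit 164403) (nat_lit 256) (.e (nat_lit 57371) (nat_lit 2) (.e (nat_lit 90172) (nat_lit 14) (.e (nat_lit 180244) (nat_lit 5) (.e (nat_lit 532508) (nat_lit 2) (.e (nat_lit 106526) (nat_lit 9) (.e (nat_lit 1254) (nat_lit 92) .nil)))))))) (.g (nat_lit 4) .nil .nil)))) (.nd (nat_lit 6) 
(.lf (nat_lit 224425) (.g (nat_lit 1381) (.e (nat_lit 98335) (nat_lit 18) (.e (nat_lit 164332) (nat_lit 230) (.e (nat_lit 163901) (nat_lit 12) (.e (nat_lit 426567) (nat_lit 34) .nil)))) .nil)) 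
(.lf (nat_lit 224489) (.g (nat_lit 3634) (.e (nat_lit 98335) (nat_lit 18) (.e (nat_lit 164403) (nat_lit 256) (.e (nat_lit 57373) (nat_lit 2) (.e (nat_lit 90172) (nat_lit 14) (.e (nat_lit 180243) (nat_lit 5) (.e (nat_lit 532515) (nat_lit 3) (.e (nat_lit 114718) (nat_lit 23) .nil))))))) (.g (nat_lit 4) .nil .nil))))) (.nd (nat_lit 5) (.nd (nat_lit 6) 
(.lf (nat_lit 224409) (.g (nat_lit 2628) (.e (nat_lit 98335) (nat_lit 18) (.e (nat_lit 164332) (nat_lit 230) (.e (nat_lit 163873) (nat_lit 3) (.e (nat_lit 204815) (nat_lit 17) .nil)))) .nil)) 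
(.lf (nat_lit 224473) (.g (nat_lit 2875) (.e (nat_lit 98335) (nat_lit 18) (.e (nat_lit 164403) (nat_lit 256) (.e (nat_lit 57371) (nat_lit 2) (.e (nat_lit 90174) (nat_lit 14) (.e (nat_lit 180243) (nat_lit 5) (.e (nat_lit 532511) (nat_lit 2) (.e (nat_lit 106526) (nat_lit 9) (.e (nat_lit 1254) (nat_lit 92) .nil)))))))) (.g (nat_lit 4) .nil .nil)))) (.nd (nat_lit 6) 
(.lf (nat_lit 224441) (.g (nat_lit 2556) (.e (nat_lit 98335) (nat_lit 18) (.e (nat_lit 164396) (nat_lit 256) (.e (nat_lit 57372) (nat_lit 2) (.e (nat_lit 90172) (nat_lit 14) (.e (nat_lit 180244) (nat_lit 5) (.e (nat_lit 532515) (nat_lit 3) (.e (nat_lit 114719) (nat_lit 23) .nil))))))) (.g (nat_lit 4) .nil .nil))) 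
(.lf (nat_lit 224505) (.g (nat_lit 2734) (.e (nat_lit 98335) (nat_lit 18) (.e (nat_lit 164403) (nat_lit 256) (.e (nat_lit 57373) (nat_lit 2) (.e (nat_lit 90174) (nat_lit 14) (.e (nat_lit 180243) (nat_lit 5) (.e (nat_lit 532511) (nat_lit 2) (.e (nat_lit 106517) (nat_lit 9) (.e (nat_lit 1255) (nat_lit 92) .nil)))))))) (.g (nat_lit 4) .nil .nil))))))) 
(.nd (nat_lit 3) (.nd (nat_lit 4) (.nd (nat_lit 5) (.nd (nat_lit 6) 
(.lf (nat_lit 224389) (.g (nat_lit 1999) (.e (nat_lit 98335) (nat_lit 18) (.e (nat_lit 164330) (nat_lit 230) (.e (nat_lit 163902) (nat_lit 12) (.e (nat_lit 426567) (nat_lit 34) (.e (nat_lit 393272) (nat_lit 23) .nil))))) .nil)) 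
(.lf (nat_lit 224453) (.g (nat_lit 2961) (.e (nat_lit 98335) (nat_lit 18) (.e (nat_lit 164403) (nat_lit 256) (.e (nat_lit 57371) (nat_lit 2) (.e (nat_lit 90172) (nat_lit 14) (.e (nat_lit 180243) (nat_lit 5) (.e (nat_lit 532508) (nat_lit 2) (.e (nat_lit 106526) (nat_lit 9) (.e (nat_lit 1254) (nat_lit 92) .nil)))))))) (.g (nat_lit 4) .nil .nil)))) (.nd (nat_lit 6) 
(.lf (nat_lit 224421) (.g (nat_lit 3876) (.e (nat_lit 98335) (nat_lit 18) (.e (nat_lit 164332) (nat_lit 230) (.e (nat_lit 163874) (nat_lit 3) (.e (nat_lit 204838) (nat_lit 20) (.e (nat_lit 114718) (nat_lit 23) (.e (nat_lit 98356) (nat_lit 26) (.e (nat_lit 426438) (nat_lit 18) .nil))))))) (.g (nat_lit 7) .nil .nil))) 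
(.lf (nat_lit 224485) (.g (nat_lit 2903) (.e (nat_lit 98335) (nat_lit 18) (.e (nat_lit 164403) (nat_lit 256) (.e (nat_lit 57373) (nat_lit 2) (.e (nat_lit 90172) (nat_lit 14) (.e (nat_lit 180243) (nat_lit 5) .nil))))) .nil)))) (.nd (nat_lit 5) (.nd (nat_lit 6) 
(.lf (nat_lit 224405) (.g (nat_lit 4034) (.e (nat_lit 98335) (nat_lit 18) (.e (nat_lit 164332) (nat_lit 230) (.e (nat_lit 163869) (nat_lit 2) (.e (nat_lit 196676) (nat_lit 16) .nil)))) .nil)) 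
(.lf (nat_lit 224469) (.g (nat_lit 2552) (.e (nat_lit 98335) (nat_lit 18) (.e (nat_lit 164403) (nat_lit 256) (.e (nat_lit 57371) (nat_lit 2) (.e (nat_lit 90174) (nat_lit 14) (.e (nat_lit 180243) (nat_lit 5) (.e (nat_lit 532511) (nat_lit 2) (.e (nat_lit 106517) (nat_lit 9) (.e (nat_lit 1255) (nat_lit 92) .nil)))))))) (.g (nat_lit 4) .nil .nil)))) (.nd (nat_lit 6) 
(.lf (nat_lit 224437) (.g (nat_lit 2598) (.e (nat_lit 98335) (nat_lit 18) (.e (nat_lit 164396) (nat_lit 256) (.e (nat_lit 57371) (nat_lit 2) (.e (nat_lit 90172) (nat_lit 14) (.e (nat_lit 180244) (nat_lit 5) (.e (nat_lit 532508) (nat_lit 2) (.e (nat_lit 106517) (nat_lit 9) (.e (nat_lit 1255) (nat_lit 92) .nil)))))))) (.g (nat_lit 4) .nil .nil))) 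
(.lf (nat_lit 224501) (.g (nat_lit 5215) (.e (nat_lit 98335) (nat_lit 18) (.e (nat_lit 164403) (nat_lit 256) (.e (nat_lit 57373) (nat_lit 2) (.e (nat_lit 90174) (nat_lit 14) (.e (nat_lit 180243) (nat_lit 5) (.e (nat_lit 532508) (nat_lit 2) (.e (nat_lit 106526) (nat_lit 9) (.e (nat_lit 1252) (nat_lit 92) .nil)))))))) (.g (nat_lit 8) .nil .nil)))))) 
(.nd (nat_lit 4) (.nd (nat_lit 5) (.nd (nat_lit 6) 
(.lf (nat_lit 224397) (.g (nat_lit 1636) (.e (nat_lit 98335) (nat_lit 18) (.e (nat_lit 164331) (nat_lit 230) (.e (nat_lit 163905) (nat_lit 12) (.e (nat_lit 426566) (nat_lit 34) .nil)))) .nil)) 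
(.lf (nat_lit 224461) (.g (nat_lit 1945) (.e (nat_lit 98335) (nat_lit 18) (.e (nat_lit 164403) (nat_lit 256) (.e (nat_lit 57371) (nat_lit 2) (.e (nat_lit 90174) (nat_lit 14) (.e (nat_lit 180243) (nat_lit 5) .nil))))) .nil))) (.nd (nat_lit 6) 
(.lf (nat_lit 224429) (.g (nat_lit 1892) (.e (nat_lit 98335) (nat_lit 18) (.e (nat_lit 164332) (nat_lit 230) (.e (nat_lit 163902) (nat_lit 12) (.e (nat_lit 426568) (nat_lit 34) (.e (nat_lit 393279) (nat_lit 23) (.e (nat_lit 433920) (nat_lit 18) .nil)))))) (.g (nat_lit 4) .nil .nil))) 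
(.lf (nat_lit 224493) (.g (nat_lit 2824) (.e (nat_lit 98335) (nat_lit 18) (.e (nat_lit 164403) (nat_lit 256) (.e (nat_lit 57373) (nat_lit 2) (.e (nat_lit 90172) (nat_lit 14) (.e (nat_lit 180244) (nat_lit 5) (.e (nat_lit 532513) (nat_lit 3) (.e (nat_lit 114717) (nat_lit 23) .nil))))))) (.g (nat_lit 4) .nil .nil))))) (.nd (nat_lit 5) (.nd (nat_lit 6) 
(.lf (nat_lit 224413) (.g (nat_lit 3193) (.e (nat_lit 98335) (nat_lit 18) (.e (nat_lit 164332) (nat_lit 230) (.e (nat_lit 163874) (nat_lit 3) (.e (nat_lit 204815) (nat_lit 17) .nil)))) .nil)) 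
(.lf (nat_lit 224477) (.g (nat_lit 2934) (.e (nat_lit 98335) (nat_lit 18) (.e (nat_lit 164403) (nat_lit 256) (.e (nat_lit 57371) (nat_lit 2) (.e (nat_lit 90174) (nat_lit 14) (.e (nat_lit 180245) (nat_lit 5) (.e (nat_lit 532515) (nat_lit 3) (.e (nat_lit 114719) (nat_lit 23) .nil))))))) (.g (nat_lit 4) .nil .nil)))) (.nd (nat_lit 6) 
(.lf (nat_lit 224445) (.g (nat_lit 2070) (.e (nat_lit 98335) (nat_lit 18) (.e (nat_lit 164401) (nat_lit 256) (.e (nat_lit 57378) (nat_lit 3) (.e (nat_lit 98355) (nat_lit 26) (.e (nat_lit 426131) (nat_lit 3) .nil))))) .nil)) 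
(.lf (nat_lit 224509) (.g (nat_lit 3154) (.e (nat_lit 98335) (nat_lit 18) (.e (nat_lit 164403) (nat_lit 256) (.e (nat_lit 57373) (nat_lit 2) (.e (nat_lit 90174) (nat_lit 14) (.e (nat_lit 180243) (nat_lit 5) (.e (nat_lit 532513) (nat_lit 3) (.e (nat_lit 114717) (nat_lit 23) .nil))))))) (.g (nat_lit 4) .nil .nil)))))))) 
(.nd (nat_lit 2) (.nd (nat_lit 3) (.nd (nat_lit 4) (.nd (nat_lit 5) (.nd (nat_lit 6) 
(.lf (nat_lit 224387) (.g (nat_lit 539) (.e (nat_lit 98335) (nat_lit 18) (.e (nat_lit 164330) (nat_lit 230) (.e (nat_lit 163874) (nat_lit 3) .nil))) .nil)) 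
(.lf (nat_lit 224451) (.g (nat_lit 2382) (.e (nat_lit 98335) (nat_lit 18) (.e (nat_lit 164403) (nat_lit 256) (.e (nat_lit 57371) (nat_lit 2) (.e (nat_lit 90172) (nat_lit 14) (.e (nat_lit 180243) (nat_lit 5) .nil))))) .nil))) (.nd (nat_lit 6) 
(.lf (nat_lit 224419) (.g (nat_lit 3189) (.e (nat_lit 98335) (nat_lit 18) (.e (nat_lit 164332) (nat_lit 230) (.e (nat_lit 163874) (nat_lit 3) (.e (nat_lit 204835) (nat_lit 19) .nil)))) .nil)) 
(.lf (nat_lit 224483) (.g (nat_lit 3520) (.e (nat_lit 98335) (nat_lit 18) (.e (nat_lit 164403) (nat_lit 256) (.e (nat_lit 57373) (nat_lit 2) (.e (nat_lit 90170) (nat_lit 13) (.e (nat_lit 172067) (nat_lit 3) (.e (nat_lit 204834) (nat_lit 19) (.e (nat_lit 106517) (nat_lit 9) (.e (nat_lit 1255) (nat_lit 92) .nil)))))))) (.g (nat_lit 5) .nil .nil))))) (.nd (nat_lit 5) (.nd (nat_lit 6) 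
(.lf (nat_lit 224403) (.g (nat_lit 3711) (.e (nat_lit 98335) (nat_lit 18) (.e (nat_lit 164332) (nat_lit 230) (.e (nat_lit 163869) (nat_lit 2) (.e (nat_lit 196661) (nat_lit 12) .nil)))) .nil)) 
(.lf (nat_lit 224467) (.g (nat_lit 3497) (.e (nat_lit 98335) (nat_lit 18) (.e (nat_lit 164403) (nat_lit 256) (.e (nat_lit 57371) (nat_lit 2) (.e (nat_lit 90174) (nat_lit 14) (.e (nat_lit 180243) (nat_lit 5) (.e (nat_lit 532508) (nat_lit 2) (.e (nat_lit 106526) (nat_lit 9) (.e (nat_lit 1255) (nat_lit 92) .nil)))))))) (.g (nat_lit 5) .nil .nil)))) (.nd (nat_lit 6) 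
(.lf (nat_lit 224435) (.g (nat_lit 1760) (.e (nat_lit 98335) (nat_lit 18) (.e (nat_lit 164332) (nat_lit 230) (.e (nat_lit 163905) (nat_lit 12) (.e (nat_lit 426568) (nat_lit 34) (.e (nat_lit 393275) (nat_lit 23) .nil))))) .nil)) 
(.lf (nat_lit 224499) (.g (nat_lit 3256) (.e (nat_lit 98335) (nat_lit 18) (.e (nat_lit 164403) (nat_lit 256) (.e (nat_lit 57373) (nat_lit 2) (.e (nat_lit 90174) (nat_lit 14) (.e (nat_lit 180243) (nat_lit 5) (.e (nat_lit 532508) (nat_lit 2) (.e (nat_lit 106523) (nat_lit 9) (.e (nat_lit 1254) (nat_lit 92) .nil)))))))) (.g (nat_lit 4) .nil .nil)))))) 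
(.nd (nat_lit 4) (.nd (nat_lit 5) (.nd (nat_lit 6) 
(.lf (nat_lit 224395) (.g (nat_lit 1111) (.e (nat_lit 98335) (nat_lit 18) (.e (nat_lit 164330) (nat_lit 230) (.e (nat_lit 163913) (nat_lit 12) (.e (nat_lit 426565) (nat_lit 34) .nil)))) .nil)) 
(.lf (nat_lit 224459) (.g (nat_lit 2852) (.e (nat_lit 98335) (nat_lit 18) (.e (nat_lit 164403) (nat_lit 256) (.e (nat_lit 57371) (nat_lit 2) (.e (nat_lit 90172) (nat_lit 14) (.e (nat_lit 180244) (nat_lit 5) (.e (nat_lit 532515) (nat_lit 3) (.e (nat_lit 114717) (nat_lit 23) .nil))))))) (.g (nat_lit 4) .nil .nil)))) (.nd (nat_lit 6) 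
(.lf (nat_lit 224427) (.g (nat_lit 2098) (.e (nat_lit 98335) (nat_lit 18) (.e (nat_lit 164332) (nat_lit 230) (.e (nat_lit 163902) (nat_lit 12) (.e (nat_lit 426530) (nat_lit 27) .nil)))) .nil)) 
(.lf (nat_lit 224491) (.g (nat_lit 4242) (.e (nat_lit 98335) (nat_lit 18) (.e (nat_lit 164403) (nat_lit 256) (.e (nat_lit 57373) (nat_lit 2) (.e (nat_lit 90172) (nat_lit 14) (.e (nat_lit 180244) (nat_lit 5) (.e (nat_lit 532508) (nat_lit 2) (.e (nat_lit 106526) (nat_lit 9) (.e (nat_lit 1252) (nat_lit 92) .nil)))))))) (.g (nat_lit 5) .nil .nil))))) (.nd (nat_lit 5) (.nd (nat_lit 6) 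
(.lf (nat_lit 224411) (.g (nat_lit 2625) (.e (nat_lit 98335) (nat_lit 18) (.e (nat_lit 164332) (nat_lit 230) (.e (nat_lit 163873) (nat_lit 3) (.e (nat_lit 204837) (nat_lit 20) .nil)))) .nil)) 
(.lf (nat_lit 224475) (.g (nat_lit 5432) (.e (nat_lit 98335) (nat_lit 18) (.e (nat_lit 164403) (nat_lit 256) (.e (nat_lit 57371) (nat_lit 2) (.e (nat_lit 90174) (nat_lit 14) (.e (nat_lit 180243) (nat_lit 5) (.e (nat_lit 532513) (nat_lit 3) (.e (nat_lit 114718) (nat_lit 23) .nil))))))) (.g (nat_lit 7) .nil .nil)))) (.nd (nat_lit 6) 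
(.lf (nat_lit 224443) (.g (nat_lit 2221) (.e (nat_lit 98335) (nat_lit 18) (.e (nat_lit 164401) (nat_lit 256) (.e (nat_lit 57373) (nat_lit 2) (.e (nat_lit 90172) (nat_lit 14) (.e (nat_lit 180243) (nat_lit 5) .nil))))) .nil)) 
(.lf (nat_lit 224507) (.g (nat_lit 3037) (.e (nat_lit 98335) (nat_lit 18) (.e (nat_lit 164403) (nat_lit 256) (.e (nat_lit 57373) (nat_lit 2) (.e (nat_lit 90174) (nat_lit 14) (.e (nat_lit 180243) (nat_lit 5) (.e (nat_lit 532511) (nat_lit 2) (.e (nat_lit 106523) (nat_lit 9) (.e (nat_lit 1254) (nat_lit 92) .nil)))))))) (.g (nat_lit 4) .nil .nil))))))) 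
(.nd (nat_lit 3) (.nd (nat_lit 4) (.nd (nat_lit 5) (.nd (nat_lit 6) 
(.lf (nat_lit 224391) (.g (nat_lit 2410) (.e (nat_lit 98335) (nat_lit 18) (.e (nat_lit 164330) (nat_lit 230) (.e (nat_lit 163902) (nat_lit 12) (.e (nat_lit 426568) (nat_lit 34) (.e (nat_lit 393279) (nat_lit 23) .nil))))) .nil)) 
(.lf (nat_lit 224455) (.g (nat_lit 2947) (.e (nat_lit 98335) (nat_lit 18) (.e (nat_lit 164403) (nat_lit 256) (.e (nat_lit 57371) (nat_lit 2) (.e (nat_lit 90172) (nat_lit 14) (.e (nat_lit 180243) (nat_lit 5) (.e (nat_lit 532511) (nat_lit 2) (.e (nat_lit 106526) (nat_lit 9) (.e (nat_lit 1252) (nat_lit 92) .nil)))))))) (.g (nat_lit 4) .nil .nil)))) (.nd (nat_lit 6) 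
(.lf (nat_lit 224423) (.g (nat_lit 1381) (.e (nat_lit 98335) (nat_lit 18) (.e (nat_lit 164332) (nat_lit 230) (.e (nat_lit 163901) (nat_lit 12) (.e (nat_lit 426564) (nat_lit 34) .nil)))) .nil)) 
(.lf (nat_lit 224487) (.g (nat_lit 3470) (.e (nat_lit 98335) (nat_lit 18) (.e (nat_lit 164403) (nat_lit 256) (.e (nat_lit 57373) (nat_lit 2) (.e (nat_lit 90172) (nat_lit 14) (.e (nat_lit 180243) (nat_lit 5) (.e (nat_lit 532508) (nat_lit 2) (.e (nat_lit 106517) (nat_lit 9) (.e (nat_lit 1255) (nat_lit 92) .nil)))))))) (.g (nat_lit 4) .nil .nil))))) (.nd (nat_lit 5) (.nd (nat_lit 6) 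
(.lf (nat_lit 224407) (.g (nat_lit 4705) (.e (nat_lit 98335) (nat_lit 18) (.e (nat_lit 164332) (nat_lit 230) (.e (nat_lit 163869) (nat_lit 2) (.e (nat_lit 196677) (nat_lit 16) (.e (nat_lit 122969) (nat_lit 48) (.e (nat_lit 720945) (nat_lit 23) (.e (nat_lit 98356) (nat_lit 26) (.e (nat_lit 426438) (nat_lit 18) .nil)))))))) (.g (nat_lit 4) .nil .nil))) 
(.lf (nat_lit 224471) (.g (nat_lit 2576) (.e (nat_lit 98335) (nat_lit 18) (.e (nat_lit 164403) (nat_lit 256) (.e (nat_lit 57371) (nat_lit 2) (.e (nat_lit 90174) (nat_lit 14) (.e (nat_lit 180243) (nat_lit 5) (.e (nat_lit 532511) (nat_lit 2) (.e (nat_lit 106523) (nat_lit 9) (.e (nat_lit 1254) (nat_lit 92) .nil)))))))) (.g (nat_lit 4) .nil .nil)))) (.nd (nat_lit 6) 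
(.lf (nat_lit 224439) (.g (nat_lit 3288) (.e (nat_lit 98335) (nat_lit 18) (.e (nat_lit 164396) (nat_lit 256) (.e (nat_lit 57371) (nat_lit 2) (.e (nat_lit 90174) (nat_lit 14) (.e (nat_lit 180243) (nat_lit 5) (.e (nat_lit 532508) (nat_lit 2) (.e (nat_lit 106526) (nat_lit 9) (.e (nat_lit 1252) (nat_lit 92) .nil)))))))) (.g (nat_lit 5) .nil .nil))) 
(.lf (nat_lit 224503) (.g (nat_lit 2956) (.e (nat_lit 98335) (nat_lit 18) (.e (nat_lit 164403) (nat_lit 256) (.e (nat_lit 57373) (nat_lit 2) (.e (nat_lit 90174) (nat_lit 14) (.e (nat_lit 180243) (nat_lit 5) (.e (nat_lit 532510) (nat_lit 2) (.e (nat_lit 106523) (nat_lit 9) (.e (nat_lit 1252) (nat_lit 92) .nil)))))))) (.g (nat_lit 4) .nil .nil)))))) 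
(.nd (nat_lit 4) (.nd (nat_lit 5) (.nd (nat_lit 6) 
(.lf (nat_lit 224399) (.g (nat_lit 2769) (.e (nat_lit 98335) (nat_lit 18) (.e (nat_lit 164332) (nat_lit 230) (.e (nat_lit 163840) (nat_lit 0) (.e (nat_lit 3307) (nat_lit 202) (.e (nat_lit 573489) (nat_lit 14) .nil))))) .nil)) 
(.lf (nat_lit 224463) (.g (nat_lit 2504) (.e (nat_lit 98335) (nat_lit 18) (.e (nat_lit 164403) (nat_lit 256) (.e (nat_lit 57371) (nat_lit 2) (.e (nat_lit 90174) (nat_lit 14) (.e (nat_lit 180243) (nat_lit 5) (.e (nat_lit 532508) (nat_lit 2) (.e (nat_lit 106522) (nat_lit 9) (.e (nat_lit 1252) (nat_lit 92) .nil)))))))) (.g (nat_lit 4) .nil .nil)))) (.nd (nat_lit 6) 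
(.lf (nat_lit 224431) (.g (nat_lit 2355) (.e (nat_lit 98335) (nat_lit 18) (.e (nat_lit 164332) (nat_lit 230) (.e (nat_lit 163905) (nat_lit 12) (.e (nat_lit 426484) (nat_lit 27) .nil)))) .nil)) 
(.lf (nat_lit 224495) (.g (nat_lit 3427) (.e (nat_lit 98335) (nat_lit 18) (.e (nat_lit 164403) (nat_lit 256) (.e (nat_lit 57373) (nat_lit 2) (.e (nat_lit 90172) (nat_lit 14) (.e (nat_lit 180244) (nat_lit 5) (.e (nat_lit 532515) (nat_lit 3) (.e (nat_lit 114717) (nat_lit 23) .nil))))))) (.g (nat_lit 4) .nil .nil))))) (.nd (nat_lit 5) (.nd (nat_lit 6) 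
(.lf (nat_lit 224415) (.g (nat_lit 3191) (.e (nat_lit 98335) (nat_lit 18) (.e (nat_lit 164332) (nat_lit 230) (.e (nat_lit 163874) (nat_lit 3) (.e (nat_lit 204818) (nat_lit 17) .nil)))) .nil)) 
(.lf (nat_lit 224479) (.g (nat_lit 1913) (.e (nat_lit 98335) (nat_lit 18) (.e (nat_lit 164403) (nat_lit 256) (.e (nat_lit 57373) (nat_lit 2) (.e (nat_lit 90169) (nat_lit 13) .nil)))) .nil))) (.nd (nat_lit 6) 
(.lf (nat_lit 224447) (.g (nat_lit 2018) (.e (nat_lit 98335) (nat_lit 18) (.e (nat_lit 164403) (nat_lit 256) (.e (nat_lit 57370) (nat_lit 2) (.e (nat_lit 90172) (nat_lit 14) (.e (nat_lit 180243) (nat_lit 5) .nil))))) .nil)) 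
(.lf (nat_lit 224511) (.g (nat_lit 2966) (.e (nat_lit 98335) (nat_lit 18) (.e (nat_lit 164403) (nat_lit 256) (.e (nat_lit 57373) (nat_lit 2) (.e (nat_lit 90174) (nat_lit 14) (.e (nat_lit 180245) (nat_lit 5) .nil))))) .nil)))))))))

noncomputable def tv2942 : DT := (.nd (nat_lit 0) (.nd (nat_lit 1) (.nd (nat_lit 2) (.nd (nat_lit 3) (.nd (nat_lit 4) (.nd (nat_lit 5) (.nd (nat_lit 6) 
(.lf (nat_lit 224512) (.g (nat_lit 3003) (.e (nat_lit 98335) (nat_lit 18) (.e (nat_lit 164403) (nat_lit 256) (.e (nat_lit 57373) (nat_lit 2) (.e (nat_lit 90174) (nat_lit 14) (.e (nat_lit 180245) (nat_lit 5) (.e (nat_lit 532515) (nat_lit 3) (.e (nat_lit 114719) (nat_lit 23) .nil))))))) (.g (nat_lit 4) .nil .nil))) 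
(.lf (nat_lit 224576) (.g (nat_lit 2223) (.e (nat_lit 98339) (nat_lit 19) (.e (nat_lit 213032) (nat_lit 11) (.e (nat_lit 24605) (nat_lit 2) (.e (nat_lit 90170) (nat_lit 13) (.e (nat_lit 172087) (nat_lit 9) (.e (nat_lit 426438) (nat_lit 18) .nil)))))) (.g (nat_lit 4) .nil .nil)))) (.nd (nat_lit 6) 
(.lf (nat_lit 224544) (.g (nat_lit 1080) (.e (nat_lit 98338) (nat_lit 19) (.e (nat_lit 213030) (nat_lit 11) (.e (nat_lit 24603) (nat_lit 2) (.e (nat_lit 90185) (nat_lit 17) (.e (nat_lit 237605) (nat_lit 9) .nil))))) .nil)) 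
(.lf (nat_lit 224608) (.g (nat_lit 1265) (.e (nat_lit 98340) (nat_lit 20) (.e (nat_lit 221194) (nat_lit 11) (.e (nat_lit 336027) (nat_lit 3) (.e (nat_lit 98369) (nat_lit 28) .nil)))) .nil)))) (.nd (nat_lit 5) (.nd (nat_lit 6) 
(.lf (nat_lit 224528) (.g (nat_lit 577) (.e (nat_lit 98337) (nat_lit 19) (.e (nat_lit 213030) (nat_lit 11) (.e (nat_lit 24605) (nat_lit 2) .nil))) .nil)) 
(.lf (nat_lit 224592) (.g (nat_lit 295) (.e (nat_lit 98340) (nat_lit 20) (.e (nat_lit 221193) (nat_lit 11) (.e (nat_lit 336026) (nat_lit 3) .nil))) .nil))) (.nd (nat_lit 6) 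
(.lf (nat_lit 224560) (.g (nat_lit 1560) (.e (nat_lit 98338) (nat_lit 19) (.e (nat_lit 213032) (nat_lit 11) (.e (nat_lit 24605) (nat_lit 2) (.e (nat_lit 90178) (nat_lit 15) (.e (nat_lit 196352) (nat_lit 3) .nil))))) .nil)) 
(.lf (nat_lit 224624) (.g (nat_lit 2469) (.e (nat_lit 98340) (nat_lit 20) (.e (nat_lit 221214) (nat_lit 23) (.e (nat_lit 204863) (nat_lit 27) (.e (nat_lit 344117) (nat_lit 21) (.e (nat_lit 516118) (nat_lit 1) .nil))))) .nil))))) (.nd (nat_lit 4) (.nd (nat_lit 5) (.nd (nat_lit 6) 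
(.lf (nat_lit 224520) (.g (nat_lit 3554) (.e (nat_lit 98335) (nat_lit 18) (.e (nat_lit 164403) (nat_lit 256) (.e (nat_lit 57378) (nat_lit 3) (.e (nat_lit 98367) (nat_lit 27) (.e (nat_lit 434231) (nat_lit 23) (.e (nat_lit 532507) (nat_lit 2) (.e (nat_lit 106517) (nat_lit 9) (.e (nat_lit 1255) (nat_lit 92) .nil)))))))) (.g (nat_lit 5) .nil .nil))) 
(.lf (nat_lit 224584) (.g (nat_lit 1898) (.e (nat_lit 98339) (nat_lit 19) (.e (nat_lit 213032) (nat_lit 11) (.e (nat_lit 24607) (nat_lit 3) (.e (nat_lit 98365) (nat_lit 26) (.e (nat_lit 426198) (nat_lit 9) .nil))))) .nil))) (.nd (nat_lit 6) 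
(.lf (nat_lit 224552) (.g (nat_lit 1463) (.e (nat_lit 98338) (nat_lit 19) (.e (nat_lit 213030) (nat_lit 11) (.e (nat_lit 24608) (nat_lit 3) (.e (nat_lit 98381) (nat_lit 31) (.e (nat_lit 474880) (nat_lit 3) .nil))))) .nil)) 
(.lf (nat_lit 224616) (.g (nat_lit 2525) (.e (nat_lit 98340) (nat_lit 20) (.e (nat_lit 221211) (nat_lit 22) (.e (nat_lit 196666) (nat_lit 13) (.e (nat_lit 65571) (nat_lit 3) (.e (nat_lit 98332) (nat_lit 18) .nil))))) .nil)))) (.nd (nat_lit 5) (.nd (nat_lit 6) 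
(.lf (nat_lit 224536) (.g (nat_lit 445) (.e (nat_lit 98337) (nat_lit 19) (.e (nat_lit 213032) (nat_lit 11) (.e (nat_lit 24603) (nat_lit 2) .nil))) .nil)) 
(.lf (nat_lit 224600) (.g (nat_lit 4146) (.e (nat_lit 98340) (nat_lit 20) (.e (nat_lit 221194) (nat_lit 11) (.e (nat_lit 336011) (nat_lit 2) (.e (nat_lit 90170) (nat_lit 13) (.e (nat_lit 172095) (nat_lit 9) .nil))))) .nil))) (.nd (nat_lit 6) 
(.lf (nat_lit 224568) (.g (nat_lit 2202) (.e (nat_lit 98339) (nat_lit 19) (.e (nat_lit 213030) (nat_lit 11) (.e (nat_lit 24603) (nat_lit 2) (.e (nat_lit 90185) (nat_lit 17) (.e (nat_lit 237603) (nat_lit 9) .nil))))) .nil)) 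
(.lf (nat_lit 224632) (.g (nat_lit 2701) (.e (nat_lit 98340) (nat_lit 20) (.e (nat_lit 221215) (nat_lit 23) (.e (nat_lit 204830) (nat_lit 18) (.e (nat_lit 57852) (nat_lit 252) (.e (nat_lit 57378) (nat_lit 3) .nil))))) .nil)))))) (.nd (nat_lit 3) (.nd (nat_lit 4) (.nd (nat_lit 5) (.nd (nat_lit 6) 
(.lf (nat_lit 224516) (.g (nat_lit 3250) (.e (nat_lit 98335) (nat_lit 18) (.e (nat_lit 164403) (nat_lit 256) (.e (nat_lit 57378) (nat_lit 3) (.e (nat_lit 98356) (nat_lit 26) (.e (nat_lit 426131) (nat_lit 3) (.e (nat_lit 204837) (nat_lit 20) (.e (nat_lit 114718) (nat_lit 23) .nil))))))) (.g (nat_lit 4) .nil .nil))) 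
(.lf (nat_lit 224580) (.g (nat_lit 1663) (.e (nat_lit 98339) (nat_lit 19) (.e (nat_lit 213032) (nat_lit 11) (.e (nat_lit 24605) (nat_lit 2) (.e (nat_lit 90185) (nat_lit 17) (.e (nat_lit 237603) (nat_lit 9) .nil))))) .nil))) (.nd (nat_lit 6) 
(.lf (nat_lit 224548) (.g (nat_lit 1464) (.e (nat_lit 98338) (nat_lit 19) (.e (nat_lit 213030) (nat_lit 11) (.e (nat_lit 24608) (nat_lit 3) (.e (nat_lit 98365) (nat_lit 26) (.e (nat_lit 426187) (nat_lit 9) .nil))))) .nil)) 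
(.lf (nat_lit 224612) (.g (nat_lit 469) (.e (nat_lit 98340) (nat_lit 20) (.e (nat_lit 229120) (nat_lit 12) (.e (nat_lit 344120) (nat_lit 21) (.e (nat_lit 516176) (nat_lit 14) (.e (nat_lit 474880) (nat_lit 3) .nil))))) (.g (nat_lit 4) .nil .nil))))) (.nd (nat_lit 5) (.nd (nat_lit 6) 
(.lf (nat_lit 224532) (.g (nat_lit 845) (.e (nat_lit 98337) (nat_lit 19) (.e (nat_lit 213030) (nat_lit 11) (.e (nat_lit 24609) (nat_lit 3) (.e (nat_lit 98358) (nat_lit 26) .nil)))) .nil)) 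
(.lf (nat_lit 224596) (.g (nat_lit 820) (.e (nat_lit 98340) (nat_lit 20) (.e (nat_lit 221194) (nat_lit 11) (.e (nat_lit 336010) (nat_lit 2) (.e (nat_lit 90178) (nat_lit 15) .nil)))) .nil))) (.nd (nat_lit 6) 
(.lf (nat_lit 224564) (.g (nat_lit 1223) (.e (nat_lit 98338) (nat_lit 19) (.e (nat_lit 213032) (nat_lit 11) (.e (nat_lit 24609) (nat_lit 3) (.e (nat_lit 98358) (nat_lit 26) .nil)))) .nil)) 
(.lf (nat_lit 224628) (.g (nat_lit 2028) (.e (nat_lit 98340) (nat_lit 20) (.e (nat_lit 221215) (nat_lit 23) (.e (nat_lit 204828) (nat_lit 18) (.e (nat_lit 57849) (nat_lit 252) (.e (nat_lit 57379) (nat_lit 3) .nil))))) .nil))))) (.nd (nat_lit 4) (.nd (nat_lit 5) (.nd (nat_lit 6) 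
(.lf (nat_lit 224524) (.g (nat_lit 564) (.e (nat_lit 98336) (nat_lit 19) (.e (nat_lit 213030) (nat_lit 11) (.e (nat_lit 24608) (nat_lit 3) .nil))) .nil)) 
(.lf (nat_lit 224588) (.g (nat_lit 1172) (.e (nat_lit 98340) (nat_lit 20) (.e (nat_lit 221193) (nat_lit 11) (.e (nat_lit 336012) (nat_lit 2) (.e (nat_lit 90176) (nat_lit 15) (.e (nat_lit 196352) (nat_lit 3) .nil))))) .nil))) (.nd (nat_lit 6) 
(.lf (nat_lit 224556) (.g (nat_lit 1949) (.e (nat_lit 98338) (nat_lit 19) (.e (nat_lit 213032) (nat_lit 11) (.e (nat_lit 24604) (nat_lit 2) (.e (nat_lit 90185) (nat_lit 17) (.e (nat_lit 237605) (nat_lit 9) .nil))))) .nil)) 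
(.lf (nat_lit 224620) (.g (nat_lit 2563) (.e (nat_lit 98340) (nat_lit 20) (.e (nat_lit 221214) (nat_lit 23) (.e (nat_lit 204830) (nat_lit 18) (.e (nat_lit 57852) (nat_lit 252) (.e (nat_lit 57377) (nat_lit 3) (.e (nat_lit 98313) (nat_lit 9) (.e (nat_lit 336027) (nat_lit 3) .nil))))))) (.g (nat_lit 4) .nil .nil))))) (.nd (nat_lit 5) (.nd (nat_lit 6) 
(.lf (nat_lit 224540) (.g (nat_lit 1313) (.e (nat_lit 98337) (nat_lit 19) (.e (nat_lit 213032) (nat_lit 11) (.e (nat_lit 24605) (nat_lit 2) (.e (nat_lit 90185) (nat_lit 17) .nil)))) .nil)) 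
(.lf (nat_lit 224604) (.g (nat_lit 525) (.e (nat_lit 98340) (nat_lit 20) (.e (nat_lit 221194) (nat_lit 11) (.e (nat_lit 336026) (nat_lit 3) .nil))) .nil))) (.nd (nat_lit 6) 
(.lf (nat_lit 224572) (.g (nat_lit 1010) (.e (nat_lit 98339) (nat_lit 19) (.e (nat_lit 213032) (nat_lit 11) (.e (nat_lit 24587) (nat_lit 0) .nil))) .nil)) 
(.lf (nat_lit 224636) (.g (nat_lit 803) (.e (nat_lit 98340) (nat_lit 20) (.e (nat_lit 221215) (nat_lit 23) (.e (nat_lit 204862) (nat_lit 27) .nil))) .nil))))))) (.nd (nat_lit 2) (.nd (nat_lit 3) (.nd (nat_lit 4) (.nd (nat_lit 5) (.nd (nat_lit 6) 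
(.lf (nat_lit 224514) (.g (nat_lit 1680) (.e (nat_lit 98335) (nat_lit 18) (.e (nat_lit 164403) (nat_lit 256) (.e (nat_lit 57377) (nat_lit 3) (.e (nat_lit 98377) (nat_lit 30) .nil)))) .nil)) 
(.lf (nat_lit 224578) (.g (nat_lit 1707) (.e (nat_lit 98339) (nat_lit 19) (.e (nat_lit 213032) (nat_lit 11) (.e (nat_lit 24605) (nat_lit 2) (.e (nat_lit 90174) (nat_lit 14) (.e (nat_lit 188160) (nat_lit 40) .nil))))) .nil))) (.nd (nat_lit 6) 
(.lf (nat_lit 224546) (.g (nat_lit 2149) (.e (nat_lit 98338) (nat_lit 19) (.e (nat_lit 213030) (nat_lit 11) (.e (nat_lit 24605) (nat_lit 2) (.e (nat_lit 90170) (nat_lit 13) (.e (nat_lit 172095) (nat_lit 9) (.e (nat_lit 433920) (nat_lit 18) .nil)))))) (.g (nat_lit 5) .nil .nil))) 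
(.lf (nat_lit 224610) (.g (nat_lit 1525) (.e (nat_lit 98340) (nat_lit 20) (.e (nat_lit 221194) (nat_lit 11) (.e (nat_lit 336027) (nat_lit 3) (.e (nat_lit 98380) (nat_lit 31) .nil)))) .nil)))) (.nd (nat_lit 5) (.nd (nat_lit 6) 
(.lf (nat_lit 224530) (.g (nat_lit 2049) (.e (nat_lit 98337) (nat_lit 19) (.e (nat_lit 213030) (nat_lit 11) (.e (nat_lit 24608) (nat_lit 3) (.e (nat_lit 98365) (nat_lit 26) (.e (nat_lit 426187) (nat_lit 9) .nil))))) .nil)) 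
(.lf (nat_lit 224594) (.g (nat_lit 1229) (.e (nat_lit 98340) (nat_lit 20) (.e (nat_lit 221194) (nat_lit 11) (.e (nat_lit 336002) (nat_lit 2) (.e (nat_lit 90185) (nat_lit 17) .nil)))) .nil))) (.nd (nat_lit 6) 
(.lf (nat_lit 224562) (.g (nat_lit 1955) (.e (nat_lit 98338) (nat_lit 19) (.e (nat_lit 213032) (nat_lit 11) (.e (nat_lit 24607) (nat_lit 3) (.e (nat_lit 98365) (nat_lit 26) (.e (nat_lit 426187) (nat_lit 9) .nil))))) .nil)) 
(.lf (nat_lit 224626) (.g (nat_lit 2147) (.e (nat_lit 98340) (nat_lit 20) (.e (nat_lit 221214) (nat_lit 23) (.e (nat_lit 204863) (nat_lit 27) (.e (nat_lit 344118) (nat_lit 21) (.e (nat_lit 516119) (nat_lit 1) .nil))))) .nil))))) (.nd (nat_lit 4) (.nd (nat_lit 5) (.nd (nat_lit 6) 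
(.lf (nat_lit 224522) (.g (nat_lit 1278) (.e (nat_lit 98335) (nat_lit 18) (.e (nat_lit 164403) (nat_lit 256) (.e (nat_lit 57378) (nat_lit 3) (.e (nat_lit 98377) (nat_lit 30) .nil)))) .nil)) 
(.lf (nat_lit 224586) (.g (nat_lit 651) (.e (nat_lit 98340) (nat_lit 20) (.e (nat_lit 221193) (nat_lit 11) (.e (nat_lit 336010) (nat_lit 2) (.e (nat_lit 90176) (nat_lit 15) (.e (nat_lit 196352) (nat_lit 3) .nil))))) .nil))) (.nd (nat_lit 6) 
(.lf (nat_lit 224554) (.g (nat_lit 822) (.e (nat_lit 98338) (nat_lit 19) (.e (nat_lit 213032) (nat_lit 11) (.e (nat_lit 24603) (nat_lit 2) (.e (nat_lit 90185) (nat_lit 17) .nil)))) .nil)) 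
(.lf (nat_lit 224618) (.g (nat_lit 3997) (.e (nat_lit 98340) (nat_lit 20) (.e (nat_lit 221212) (nat_lit 22) (.e (nat_lit 196670) (nat_lit 14) (.e (nat_lit 73746) (nat_lit 3) (.e (nat_lit 516115) (nat_lit 1) (.e (nat_lit 164183) (nat_lit 154) (.e (nat_lit 57378) (nat_lit 3) .nil))))))) (.g (nat_lit 7) .nil .nil))))) (.nd (nat_lit 5) (.nd (nat_lit 6) 
(.lf (nat_lit 224538) (.g (nat_lit 2320) (.e (nat_lit 98337) (nat_lit 19) (.e (nat_lit 213032) (nat_lit 11) (.e (nat_lit 24604) (nat_lit 2) (.e (nat_lit 90172) (nat_lit 14) (.e (nat_lit 188160) (nat_lit 40) .nil))))) .nil)) 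
(.lf (nat_lit 224602) (.g (nat_lit 1765) (.e (nat_lit 98340) (nat_lit 20) (.e (nat_lit 221194) (nat_lit 11) (.e (nat_lit 336012) (nat_lit 2) (.e (nat_lit 90176) (nat_lit 15) (.e (nat_lit 196352) (nat_lit 3) .nil))))) .nil))) (.nd (nat_lit 6) 
(.lf (nat_lit 224570) (.g (nat_lit 3011) (.e (nat_lit 98339) (nat_lit 19) (.e (nat_lit 213030) (nat_lit 11) (.e (nat_lit 24608) (nat_lit 3) (.e (nat_lit 98365) (nat_lit 26) (.e (nat_lit 426188) (nat_lit 9) (.e (nat_lit 426438) (nat_lit 18) .nil)))))) (.g (nat_lit 6) .nil .nil))) 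
(.lf (nat_lit 224634) (.g (nat_lit 1678) (.e (nat_lit 98340) (nat_lit 20) (.e (nat_lit 221215) (nat_lit 23) (.e (nat_lit 204859) (nat_lit 26) (.e (nat_lit 336017) (nat_lit 3) .nil)))) .nil)))))) (.nd (nat_lit 3) (.nd (nat_lit 4) (.nd (nat_lit 5) (.nd (nat_lit 6) 
(.lf (nat_lit 224518) (.g (nat_lit 4048) (.e (nat_lit 98335) (nat_lit 18) (.e (nat_lit 164403) (nat_lit 256) (.e (nat_lit 57378) (nat_lit 3) (.e (nat_lit 98366) (nat_lit 27) (.e (nat_lit 434231) (nat_lit 23) (.e (nat_lit 532507) (nat_lit 2) (.e (nat_lit 106517) (nat_lit 9) (.e (nat_lit 1255) (nat_lit 92) .nil)))))))) (.g (nat_lit 5) .nil .nil))) 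
(.lf (nat_lit 224582) (.g (nat_lit 1010) (.e (nat_lit 98339) (nat_lit 19) (.e (nat_lit 213032) (nat_lit 11) (.e (nat_lit 24606) (nat_lit 3) .nil))) .nil))) (.nd (nat_lit 6) 
(.lf (nat_lit 224550) (.g (nat_lit 1630) (.e (nat_lit 98338) (nat_lit 19) (.e (nat_lit 213030) (nat_lit 11) (.e (nat_lit 24608) (nat_lit 3) (.e (nat_lit 98370) (nat_lit 28) (.e (nat_lit 450304) (nat_lit 3) .nil))))) .nil)) 
(.lf (nat_lit 224614) (.g (nat_lit 2262) (.e (nat_lit 98340) (nat_lit 20) (.e (nat_lit 221210) (nat_lit 22) (.e (nat_lit 196668) (nat_lit 14) (.e (nat_lit 73746) (nat_lit 3) (.e (nat_lit 516118) (nat_lit 1) .nil))))) .nil)))) (.nd (nat_lit 5) (.nd (nat_lit 6) 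
(.lf (nat_lit 224534) (.g (nat_lit 1411) (.e (nat_lit 98337) (nat_lit 19) (.e (nat_lit 213031) (nat_lit 11) (.e (nat_lit 24607) (nat_lit 3) (.e (nat_lit 98365) (nat_lit 26) (.e (nat_lit 426188) (nat_lit 9) .nil))))) .nil)) 
(.lf (nat_lit 224598) (.g (nat_lit 2188) (.e (nat_lit 98340) (nat_lit 20) (.e (nat_lit 221194) (nat_lit 11) (.e (nat_lit 336011) (nat_lit 2) (.e (nat_lit 90170) (nat_lit 13) .nil)))) .nil))) (.nd (nat_lit 6) 
(.lf (nat_lit 224566) (.g (nat_lit 1646) (.e (nat_lit 98339) (nat_lit 19) (.e (nat_lit 213030) (nat_lit 11) (.e (nat_lit 24602) (nat_lit 2) (.e (nat_lit 90185) (nat_lit 17) (.e (nat_lit 237601) (nat_lit 9) (.e (nat_lit 426438) (nat_lit 18) .nil)))))) (.g (nat_lit 4) .nil .nil))) 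
(.lf (nat_lit 224630) (.g (nat_lit 2047) (.e (nat_lit 98340) (nat_lit 20) (.e (nat_lit 221215) (nat_lit 23) (.e (nat_lit 204829) (nat_lit 18) (.e (nat_lit 57847) (nat_lit 252) (.e (nat_lit 57379) (nat_lit 3) .nil))))) .nil))))) (.nd (nat_lit 4) (.nd (nat_lit 5) (.nd (nat_lit 6) 
(.lf (nat_lit 224526) (.g (nat_lit 2255) (.e (nat_lit 98337) (nat_lit 19) (.e (nat_lit 213030) (nat_lit 11) (.e (nat_lit 24604) (nat_lit 2) (.e (nat_lit 90185) (nat_lit 17) (.e (nat_lit 237601) (nat_lit 9) .nil))))) .nil)) 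
(.lf (nat_lit 224590) (.g (nat_lit 285) (.e (nat_lit 98340) (nat_lit 20) (.e (nat_lit 221193) (nat_lit 11) (.e (nat_lit 336025) (nat_lit 3) .nil))) .nil))) (.nd (nat_lit 6) 
(.lf (nat_lit 224558) (.g (nat_lit 2069) (.e (nat_lit 98338) (nat_lit 19) (.e (nat_lit 213032) (nat_lit 11) (.e (nat_lit 24605) (nat_lit 2) (.e (nat_lit 90170) (nat_lit 13) (.e (nat_lit 172095) (nat_lit 9) .nil))))) .nil)) 
(.lf (nat_lit 224622) (.g (nat_lit 2341) (.e (nat_lit 98340) (nat_lit 20) (.e (nat_lit 221214) (nat_lit 23) (.e (nat_lit 204862) (nat_lit 27) (.e (nat_lit 344117) (nat_lit 21) (.e (nat_lit 516118) (nat_lit 1) .nil))))) .nil)))) (.nd (nat_lit 5) (.nd (nat_lit 6) 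
(.lf (nat_lit 224542) (.g (nat_lit 1414) (.e (nat_lit 98338) (nat_lit 19) (.e (nat_lit 213013) (nat_lit 9) (.e (nat_lit 284) (nat_lit 21) (.e (nat_lit 336012) (nat_lit 2) (.e (nat_lit 90185) (nat_lit 17) .nil))))) .nil)) 
(.lf (nat_lit 224606) (.g (nat_lit 1762) (.e (nat_lit 98340) (nat_lit 20) (.e (nat_lit 221194) (nat_lit 11) (.e (nat_lit 336027) (nat_lit 3) (.e (nat_lit 98365) (nat_lit 26) .nil)))) .nil))) (.nd (nat_lit 6) 
(.lf (nat_lit 224574) (.g (nat_lit 2061) (.e (nat_lit 98339) (nat_lit 19) (.e (nat_lit 213032) (nat_lit 11) (.e (nat_lit 24603) (nat_lit 2) (.e (nat_lit 90185) (nat_lit 17) (.e (nat_lit 237603) (nat_lit 9) .nil))))) .nil)) 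
(.lf (nat_lit 224638) (.g (nat_lit 1496) (.e (nat_lit 98340) (nat_lit 20) (.e (nat_lit 221215) (nat_lit 23) (.e (nat_lit 204862) (nat_lit 27) (.e (nat_lit 344118) (nat_lit 21) .nil)))) .nil)))))))) (.nd (nat_lit 1) (.nd (nat_lit 2) (.nd (nat_lit 3) (.nd (nat_lit 4) (.nd (nat_lit 5) (.nd (nat_lit 6) 
(.lf (nat_lit 224513) (.g (nat_lit 2638) (.e (nat_lit 98335) (nat_lit 18) (.e (nat_lit 164403) (nat_lit 256) (.e (nat_lit 57373) (nat_lit 2) (.e (nat_lit 90185) (nat_lit 17) (.e (nat_lit 237594) (nat_lit 3) .nil))))) .nil)) 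
(.lf (nat_lit 224577) (.g (nat_lit 1681) (.e (nat_lit 98339) (nat_lit 19) (.e (nat_lit 213032) (nat_lit 11) (.e (nat_lit 24605) (nat_lit 2) (.e (nat_lit 90172) (nat_lit 14) (.e (nat_lit 188160) (nat_lit 40) .nil))))) .nil))) (.nd (nat_lit 6) 
(.lf (nat_lit 224545) (.g (nat_lit 1456) (.e (nat_lit 98338) (nat_lit 19) (.e (nat_lit 213030) (nat_lit 11) (.e (nat_lit 24604) (nat_lit 2) (.e (nat_lit 90185) (nat_lit 17) (.e (nat_lit 237605) (nat_lit 9) .nil))))) .nil)) 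
(.lf (nat_lit 224609) (.g (nat_lit 1325) (.e (nat_lit 98340) (nat_lit 20) (.e (nat_lit 221194) (nat_lit 11) (.e (nat_lit 336027) (nat_lit 3) (.e (nat_lit 98370) (nat_lit 28) .nil)))) .nil)))) (.nd (nat_lit 5) (.nd (nat_lit 6) 
(.lf (nat_lit 224529) (.g (nat_lit 1416) (.e (nat_lit 98337) (nat_lit 19) (.e (nat_lit 213030) (nat_lit 11) (.e (nat_lit 24607) (nat_lit 3) (.e (nat_lit 98365) (nat_lit 26) .nil)))) .nil)) 
(.lf (nat_lit 224593) (.g (nat_lit 525) (.e (nat_lit 98340) (nat_lit 20) (.e (nat_lit 221193) (nat_lit 11) (.e (nat_lit 336026) (nat_lit 3) (.e (nat_lit 98369) (nat_lit 28) .nil)))) .nil))) (.nd (nat_lit 6) 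
(.lf (nat_lit 224561) (.g (nat_lit 1962) (.e (nat_lit 98338) (nat_lit 19) (.e (nat_lit 213032) (nat_lit 11) (.e (nat_lit 24607) (nat_lit 3) (.e (nat_lit 98363) (nat_lit 26) .nil)))) .nil)) 
(.lf (nat_lit 224625) (.g (nat_lit 1802) (.e (nat_lit 98340) (nat_lit 20) (.e (nat_lit 221214) (nat_lit 23) (.e (nat_lit 204863) (nat_lit 27) (.e (nat_lit 344118) (nat_lit 21) .nil)))) .nil))))) (.nd (nat_lit 4) (.nd (nat_lit 5) (.nd (nat_lit 6) 
(.lf (nat_lit 224521) (.g (nat_lit 2983) (.e (nat_lit 98335) (nat_lit 18) (.e (nat_lit 164403) (nat_lit 256) (.e (nat_lit 57378) (nat_lit 3) (.e (nat_lit 98376) (nat_lit 30) (.e (nat_lit 458789) (nat_lit 23) (.e (nat_lit 532484) (nat_lit 0) (.e (nat_lit 2198) (nat_lit 144) (.e (nat_lit 720945) (nat_lit 23) .nil)))))))) (.g (nat_lit 5) .nil .nil))) 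
(.lf (nat_lit 224585) (.g (nat_lit 2418) (.e (nat_lit 98339) (nat_lit 19) (.e (nat_lit 213032) (nat_lit 11) (.e (nat_lit 24608) (nat_lit 3) (.e (nat_lit 98358) (nat_lit 26) .nil)))) .nil))) (.nd (nat_lit 6) 
(.lf (nat_lit 224553) (.g (nat_lit 1466) (.e (nat_lit 98338) (nat_lit 19) (.e (nat_lit 213032) (nat_lit 11) (.e (nat_lit 24602) (nat_lit 2) (.e (nat_lit 90185) (nat_lit 17) .nil)))) .nil)) 
(.lf (nat_lit 224617) (.g (nat_lit 1969) (.e (nat_lit 98340) (nat_lit 20) (.e (nat_lit 221211) (nat_lit 22) (.e (nat_lit 196666) (nat_lit 13) (.e (nat_lit 65642) (nat_lit 15) .nil)))) .nil)))) (.nd (nat_lit 5) (.nd (nat_lit 6) 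
(.lf (nat_lit 224537) (.g (nat_lit 1224) (.e (nat_lit 98337) (nat_lit 19) (.e (nat_lit 213032) (nat_lit 11) (.e (nat_lit 24603) (nat_lit 2) (.e (nat_lit 90185) (nat_lit 17) (.e (nat_lit 237605) (nat_lit 9) (.e (nat_lit 426434) (nat_lit 18) .nil)))))) (.g (nat_lit 4) .nil .nil))) 
(.lf (nat_lit 224601) (.g (nat_lit 2292) (.e (nat_lit 98340) (nat_lit 20) (.e (nat_lit 221194) (nat_lit 11) (.e (nat_lit 336011) (nat_lit 2) (.e (nat_lit 90185) (nat_lit 17) .nil)))) .nil))) (.nd (nat_lit 6) 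
(.lf (nat_lit 224569) (.g (nat_lit 2135) (.e (nat_lit 98339) (nat_lit 19) (.e (nat_lit 213030) (nat_lit 11) (.e (nat_lit 24605) (nat_lit 2) (.e (nat_lit 90170) (nat_lit 13) (.e (nat_lit 172095) (nat_lit 9) (.e (nat_lit 433920) (nat_lit 18) .nil)))))) (.g (nat_lit 5) .nil .nil))) 
(.lf (nat_lit 224633) (.g (nat_lit 1861) (.e (nat_lit 98340) (nat_lit 20) (.e (nat_lit 221215) (nat_lit 23) (.e (nat_lit 204830) (nat_lit 18) (.e (nat_lit 57854) (nat_lit 252) (.e (nat_lit 57377) (nat_lit 3) .nil))))) .nil)))))) (.nd (nat_lit 3) (.nd (nat_lit 4) (.nd (nat_lit 5) (.nd (nat_lit 6) 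
(.lf (nat_lit 224517) (.g (nat_lit 3488) (.e (nat_lit 98335) (nat_lit 18) (.e (nat_lit 164403) (nat_lit 256) (.e (nat_lit 57378) (nat_lit 3) (.e (nat_lit 98366) (nat_lit 27) (.e (nat_lit 434231) (nat_lit 23) (.e (nat_lit 532507) (nat_lit 2) (.e (nat_lit 106517) (nat_lit 9) (.e (nat_lit 1252) (nat_lit 92) .nil)))))))) (.g (nat_lit 4) .nil .nil))) 
(.lf (nat_lit 224581) (.g (nat_lit 2212) (.e (nat_lit 98339) (nat_lit 19) (.e (nat_lit 213032) (nat_lit 11) (.e (nat_lit 24605) (nat_lit 2) (.e (nat_lit 90185) (nat_lit 17) (.e (nat_lit 237605) (nat_lit 9) (.e (nat_lit 426438) (nat_lit 18) .nil)))))) (.g (nat_lit 0) .nil .nil)))) (.nd (nat_lit 6) 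
(.lf (nat_lit 224549) (.g (nat_lit 1391) (.e (nat_lit 98338) (nat_lit 19) (.e (nat_lit 213030) (nat_lit 11) (.e (nat_lit 24608) (nat_lit 3) (.e (nat_lit 98369) (nat_lit 28) (.e (nat_lit 450304) (nat_lit 3) .nil))))) .nil)) 
(.lf (nat_lit 224613) (.g (nat_lit 2452) (.e (nat_lit 98340) (nat_lit 20) (.e (nat_lit 221210) (nat_lit 22) (.e (nat_lit 196666) (nat_lit 13) (.e (nat_lit 65571) (nat_lit 3) (.e (nat_lit 98334) (nat_lit 18) .nil))))) .nil)))) (.nd (nat_lit 5) (.nd (nat_lit 6) 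
(.lf (nat_lit 224533) (.g (nat_lit 1393) (.e (nat_lit 98337) (nat_lit 19) (.e (nat_lit 213031) (nat_lit 11) (.e (nat_lit 24607) (nat_lit 3) (.e (nat_lit 98365) (nat_lit 26) (.e (nat_lit 426187) (nat_lit 9) .nil))))) .nil)) 
(.lf (nat_lit 224597) (.g (nat_lit 1018) (.e (nat_lit 98340) (nat_lit 20) (.e (nat_lit 221194) (nat_lit 11) (.e (nat_lit 336011) (nat_lit 2) .nil))) .nil))) (.nd (nat_lit 6) 
(.lf (nat_lit 224565) (.g (nat_lit 959) (.e (nat_lit 98339) (nat_lit 19) (.e (nat_lit 213007) (nat_lit 9) (.e (nat_lit 253) (nat_lit 21) (.e (nat_lit 336004) (nat_lit 2) (.e (nat_lit 90185) (nat_lit 17) .nil))))) .nil)) 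
(.lf (nat_lit 224629) (.g (nat_lit 2028) (.e (nat_lit 98340) (nat_lit 20) (.e (nat_lit 221215) (nat_lit 23) (.e (nat_lit 204829) (nat_lit 18) (.e (nat_lit 57847) (nat_lit 252) (.e (nat_lit 57377) (nat_lit 3) .nil))))) .nil))))) (.nd (nat_lit 4) (.nd (nat_lit 5) (.nd (nat_lit 6) 
(.lf (nat_lit 224525) (.g (nat_lit 1825) (.e (nat_lit 98336) (nat_lit 19) (.e (nat_lit 213032) (nat_lit 11) (.e (nat_lit 24607) (nat_lit 3) (.e (nat_lit 98365) (nat_lit 26) .nil)))) .nil)) 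
(.lf (nat_lit 224589) (.g (nat_lit 1179) (.e (nat_lit 98340) (nat_lit 20) (.e (nat_lit 221193) (nat_lit 11) (.e (nat_lit 336021) (nat_lit 3) (.e (nat_lit 98365) (nat_lit 26) .nil)))) .nil))) (.nd (nat_lit 6) 
(.lf (nat_lit 224557) (.g (nat_lit 822) (.e (nat_lit 98338) (nat_lit 19) (.e (nat_lit 213032) (nat_lit 11) (.e (nat_lit 24605) (nat_lit 2) .nil))) .nil)) 
(.lf (nat_lit 224621) (.g (nat_lit 886) (.e (nat_lit 98340) (nat_lit 20) (.e (nat_lit 221214) (nat_lit 23) (.e (nat_lit 204859) (nat_lit 26) .nil))) .nil)))) (.nd (nat_lit 5) (.nd (nat_lit 6) 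
(.lf (nat_lit 224541) (.g (nat_lit 1132) (.e (nat_lit 98338) (nat_lit 19) (.e (nat_lit 213013) (nat_lit 9) (.e (nat_lit 284) (nat_lit 21) (.e (nat_lit 336002) (nat_lit 2) (.e (nat_lit 90185) (nat_lit 17) .nil))))) .nil)) 
(.lf (nat_lit 224605) (.g (nat_lit 1689) (.e (nat_lit 98340) (nat_lit 20) (.e (nat_lit 221194) (nat_lit 11) (.e (nat_lit 336027) (nat_lit 3) (.e (nat_lit 98363) (nat_lit 26) .nil)))) .nil))) (.nd (nat_lit 6) 
(.lf (nat_lit 224573) (.g (nat_lit 2173) (.e (nat_lit 98339) (nat_lit 19) (.e (nat_lit 213032) (nat_lit 11) (.e (nat_lit 24601) (nat_lit 2) (.e (nat_lit 90185) (nat_lit 17) (.e (nat_lit 237601) (nat_lit 9) .nil))))) .nil)) 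
(.lf (nat_lit 224637) (.g (nat_lit 4093) (.e (nat_lit 98340) (nat_lit 20) (.e (nat_lit 221215) (nat_lit 23) (.e (nat_lit 204862) (nat_lit 27) (.e (nat_lit 344117) (nat_lit 21) (.e (nat_lit 516115) (nat_lit 1) (.e (nat_lit 164183) (nat_lit 154) (.e (nat_lit 57378) (nat_lit 3) .nil))))))) (.g (nat_lit 7) .nil .nil)))))))) 
(.nd (nat_lit 2) (.nd (nat_lit 3) (.nd (nat_lit 4) (.nd (nat_lit 5) (.nd (nat_lit 6) 
(.lf (nat_lit 224515) (.g (nat_lit 2171) (.e (nat_lit 98335) (nat_lit 18) (.e (nat_lit 164403) (nat_lit 256) (.e (nat_lit 57378) (nat_lit 3) (.e (nat_lit 98354) (nat_lit 26) (.e (nat_lit 426140) (nat_lit 3) .nil))))) .nil)) 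
(.lf (nat_lit 224579) (.g (nat_lit 2125) (.e (nat_lit 98339) (nat_lit 19) (.e (nat_lit 213032) (nat_lit 11) (.e (nat_lit 24605) (nat_lit 2) (.e (nat_lit 90185) (nat_lit 17) (.e (nat_lit 237601) (nat_lit 9) (.e (nat_lit 426438) (nat_lit 18) .nil)))))) (.g (nat_lit 0) .nil .nil)))) (.nd (nat_lit 6) 
(.lf (nat_lit 224547) (.g (nat_lit 1594) (.e (nat_lit 98338) (nat_lit 19) (.e (nat_lit 213030) (nat_lit 11) (.e (nat_lit 24607) (nat_lit 3) (.e (nat_lit 98363) (nat_lit 26) .nil)))) .nil)) 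
(.lf (nat_lit 224611) (.g (nat_lit 1381) (.e (nat_lit 98340) (nat_lit 20) (.e (nat_lit 221194) (nat_lit 11) (.e (nat_lit 336027) (nat_lit 3) (.e (nat_lit 98381) (nat_lit 31) .nil)))) .nil)))) (.nd (nat_lit 5) (.nd (nat_lit 6) 
(.lf (nat_lit 224531) (.g (nat_lit 2078) (.e (nat_lit 98337) (nat_lit 19) (.e (nat_lit 213030) (nat_lit 11) (.e (nat_lit 24608) (nat_lit 3) (.e (nat_lit 98365) (nat_lit 26) (.e (nat_lit 426188) (nat_lit 9) .nil))))) .nil)) 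
(.lf (nat_lit 224595) (.g (nat_lit 823) (.e (nat_lit 98340) (nat_lit 20) (.e (nat_lit 221194) (nat_lit 11) (.e (nat_lit 336010) (nat_lit 2) (.e (nat_lit 90176) (nat_lit 15) .nil)))) .nil))) (.nd (nat_lit 6) 
(.lf (nat_lit 224563) (.g (nat_lit 1973) (.e (nat_lit 98338) (nat_lit 19) (.e (nat_lit 213032) (nat_lit 11) (.e (nat_lit 24607) (nat_lit 3) (.e (nat_lit 98365) (nat_lit 26) (.e (nat_lit 426188) (nat_lit 9) .nil))))) .nil)) 
(.lf (nat_lit 224627) (.g (nat_lit 1850) (.e (nat_lit 98340) (nat_lit 20) (.e (nat_lit 221214) (nat_lit 23) (.e (nat_lit 204863) (nat_lit 27) (.e (nat_lit 344120) (nat_lit 21) .nil)))) .nil))))) (.nd (nat_lit 4) (.nd (nat_lit 5) (.nd (nat_lit 6) 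
(.lf (nat_lit 224523) (.g (nat_lit 2617) (.e (nat_lit 98335) (nat_lit 18) (.e (nat_lit 164403) (nat_lit 256) (.e (nat_lit 57389) (nat_lit 5) (.e (nat_lit 114712) (nat_lit 21) (.e (nat_lit 57930) (nat_lit 282) (.e (nat_lit 163920) (nat_lit 14) (.e (nat_lit 450304) (nat_lit 3) .nil))))))) (.g (nat_lit 5) .nil .nil))) 
(.lf (nat_lit 224587) (.g (nat_lit 877) (.e (nat_lit 98340) (nat_lit 20) (.e (nat_lit 221193) (nat_lit 11) (.e (nat_lit 336010) (nat_lit 2) (.e (nat_lit 90178) (nat_lit 15) (.e (nat_lit 196352) (nat_lit 3) .nil))))) .nil))) (.nd (nat_lit 6) 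
(.lf (nat_lit 224555) (.g (nat_lit 2030) (.e (nat_lit 98338) (nat_lit 19) (.e (nat_lit 213032) (nat_lit 11) (.e (nat_lit 24604) (nat_lit 2) (.e (nat_lit 90185) (nat_lit 17) (.e (nat_lit 237601) (nat_lit 9) .nil))))) .nil)) 
(.lf (nat_lit 224619) (.g (nat_lit 3974) (.e (nat_lit 98340) (nat_lit 20) (.e (nat_lit 221212) (nat_lit 22) (.e (nat_lit 196670) (nat_lit 14) (.e (nat_lit 73746) (nat_lit 3) (.e (nat_lit 516120) (nat_lit 1) (.e (nat_lit 164183) (nat_lit 154) (.e (nat_lit 57378) (nat_lit 3) .nil))))))) (.g (nat_lit 7) .nil .nil))))) (.nd (nat_lit 5) (.nd (nat_lit 6) 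
(.lf (nat_lit 224539) (.g (nat_lit 906) (.e (nat_lit 98337) (nat_lit 19) (.e (nat_lit 213032) (nat_lit 11) (.e (nat_lit 24605) (nat_lit 2) .nil))) .nil)) 
(.lf (nat_lit 224603) (.g (nat_lit 1906) (.e (nat_lit 98340) (nat_lit 20) (.e (nat_lit 221194) (nat_lit 11) (.e (nat_lit 336012) (nat_lit 2) (.e (nat_lit 90178) (nat_lit 15) (.e (nat_lit 196352) (nat_lit 3) .nil))))) .nil))) (.nd (nat_lit 6) 
(.lf (nat_lit 224571) (.g (nat_lit 1010) (.e (nat_lit 98339) (nat_lit 19) (.e (nat_lit 213032) (nat_lit 11) (.e (nat_lit 24583) (nat_lit 0) .nil))) .nil)) 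
(.lf (nat_lit 224635) (.g (nat_lit 2204) (.e (nat_lit 98340) (nat_lit 20) (.e (nat_lit 221215) (nat_lit 23) (.e (nat_lit 204859) (nat_lit 26) (.e (nat_lit 336017) (nat_lit 3) (.e (nat_lit 98333) (nat_lit 18) .nil))))) .nil)))))) (.nd (nat_lit 3) (.nd (nat_lit 4) (.nd (nat_lit 5) (.nd (nat_lit 6) 
(.lf (nat_lit 224519) (.g (nat_lit 2994) (.e (nat_lit 98335) (nat_lit 18) (.e (nat_lit 164403) (nat_lit 256) (.e (nat_lit 57378) (nat_lit 3) (.e (nat_lit 98367) (nat_lit 27) (.e (nat_lit 434231) (nat_lit 23) (.e (nat_lit 532507) (nat_lit 2) (.e (nat_lit 106517) (nat_lit 9) (.e (nat_lit 1252) (nat_lit 92) .nil)))))))) (.g (nat_lit 4) .nil .nil))) 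
(.lf (nat_lit 224583) (.g (nat_lit 391) (.e (nat_lit 98339) (nat_lit 19) (.e (nat_lit 213032) (nat_lit 11) (.e (nat_lit 24607) (nat_lit 3) .nil))) .nil))) (.nd (nat_lit 6) 
(.lf (nat_lit 224551) (.g (nat_lit 1372) (.e (nat_lit 98338) (nat_lit 19) (.e (nat_lit 213030) (nat_lit 11) (.e (nat_lit 24608) (nat_lit 3) (.e (nat_lit 98380) (nat_lit 31) (.e (nat_lit 474880) (nat_lit 3) .nil))))) .nil)) 
(.lf (nat_lit 224615) (.g (nat_lit 2144) (.e (nat_lit 98340) (nat_lit 20) (.e (nat_lit 221211) (nat_lit 22) (.e (nat_lit 196666) (nat_lit 13) (.e (nat_lit 65550) (nat_lit 0) (.e (nat_lit 1788) (nat_lit 119) .nil))))) .nil)))) (.nd (nat_lit 5) (.nd (nat_lit 6) 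
(.lf (nat_lit 224535) (.g (nat_lit 1871) (.e (nat_lit 98337) (nat_lit 19) (.e (nat_lit 213032) (nat_lit 11) (.e (nat_lit 24602) (nat_lit 2) (.e (nat_lit 90185) (nat_lit 17) (.e (nat_lit 237601) (nat_lit 9) .nil))))) .nil)) 
(.lf (nat_lit 224599) (.g (nat_lit 3645) (.e (nat_lit 98340) (nat_lit 20) (.e (nat_lit 221194) (nat_lit 11) (.e (nat_lit 336011) (nat_lit 2) (.e (nat_lit 90170) (nat_lit 13) (.e (nat_lit 172087) (nat_lit 9) .nil))))) .nil))) (.nd (nat_lit 6) 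
(.lf (nat_lit 224567) (.g (nat_lit 1691) (.e (nat_lit 98339) (nat_lit 19) (.e (nat_lit 213030) (nat_lit 11) (.e (nat_lit 24602) (nat_lit 2) (.e (nat_lit 90185) (nat_lit 17) (.e (nat_lit 237605) (nat_lit 9) (.e (nat_lit 426438) (nat_lit 18) .nil)))))) (.g (nat_lit 4) .nil .nil))) 
(.lf (nat_lit 224631) (.g (nat_lit 2618) (.e (nat_lit 98340) (nat_lit 20) (.e (nat_lit 221215) (nat_lit 23) (.e (nat_lit 204830) (nat_lit 18) (.e (nat_lit 57852) (nat_lit 252) (.e (nat_lit 57377) (nat_lit 3) .nil))))) .nil))))) (.nd (nat_lit 4) (.nd (nat_lit 5) (.nd (nat_lit 6) 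
(.lf (nat_lit 224527) (.g (nat_lit 2168) (.e (nat_lit 98337) (nat_lit 19) (.e (nat_lit 213030) (nat_lit 11) (.e (nat_lit 24604) (nat_lit 2) (.e (nat_lit 90185) (nat_lit 17) (.e (nat_lit 237605) (nat_lit 9) .nil))))) .nil)) 
(.lf (nat_lit 224591) (.g (nat_lit 637) (.e (nat_lit 98340) (nat_lit 20) (.e (nat_lit 221193) (nat_lit 11) (.e (nat_lit 336025) (nat_lit 3) (.e (nat_lit 98369) (nat_lit 28) .nil)))) .nil))) (.nd (nat_lit 6) 
(.lf (nat_lit 224559) (.g (nat_lit 1318) (.e (nat_lit 98338) (nat_lit 19) (.e (nat_lit 213032) (nat_lit 11) (.e (nat_lit 24605) (nat_lit 2) (.e (nat_lit 90176) (nat_lit 15) (.e (nat_lit 196352) (nat_lit 3) .nil))))) .nil)) 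
(.lf (nat_lit 224623) (.g (nat_lit 1747) (.e (nat_lit 98340) (nat_lit 20) (.e (nat_lit 221214) (nat_lit 23) (.e (nat_lit 204862) (nat_lit 27) (.e (nat_lit 344118) (nat_lit 21) (.e (nat_lit 516120) (nat_lit 1) .nil))))) .nil)))) (.nd (nat_lit 5) (.nd (nat_lit 6) 
(.lf (nat_lit 224543) (.g (nat_lit 1454) (.e (nat_lit 98338) (nat_lit 19) (.e (nat_lit 213030) (nat_lit 11) (.e (nat_lit 24602) (nat_lit 2) (.e (nat_lit 90185) (nat_lit 17) (.e (nat_lit 237605) (nat_lit 9) .nil))))) .nil)) 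
(.lf (nat_lit 224607) (.g (nat_lit 2498) (.e (nat_lit 98340) (nat_lit 20) (.e (nat_lit 221194) (nat_lit 11) (.e (nat_lit 336027) (nat_lit 3) (.e (nat_lit 98365) (nat_lit 26) (.e (nat_lit 426188) (nat_lit 9) .nil))))) .nil))) (.nd (nat_lit 6) 
(.lf (nat_lit 224575) (.g (nat_lit 793) (.e (nat_lit 98339) (nat_lit 19) (.e (nat_lit 213032) (nat_lit 11) (.e (nat_lit 24605) (nat_lit 2) (.e (nat_lit 90169) (nat_lit 13) .nil)))) .nil)) 
(.lf (nat_lit 224639) (.g (nat_lit 1811) (.e (nat_lit 98340) (nat_lit 20) (.e (nat_lit 221215) (nat_lit 23) (.e (nat_lit 204862) (nat_lit 27) (.e (nat_lit 344118) (nat_lit 21) (.e (nat_lit 516115) (nat_lit 1) .nil))))) .nil)))))))))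

noncomputable def tv2943 : DT := (.nd (nat_lit 0) (.nd (nat_lit 1) (.nd (nat_lit 2) (.nd (nat_lit 3) (.nd (nat_lit 4) (.nd (nat_lit 5) 
(.lf (nat_lit 224640) (.g (nat_lit 1496) (.e (nat_lit 98340) (nat_lit 20) (.e (nat_lit 221215) (nat_lit 23) (.e (nat_lit 204862) (nat_lit 27) (.e (nat_lit 344119) (nat_lit 21) .nil)))) .nil)) 
(.lf (nat_lit 224672) (.g (nat_lit 1491) (.e (nat_lit 98341) (nat_lit 20) (.e (nat_lit 221193) (nat_lit 11) (.e (nat_lit 336002) (nat_lit 2) (.e (nat_lit 90185) (nat_lit 17) (.e (nat_lit 237605) (nat_lit 9) .nil))))) .nil))) (.nd (nat_lit 5) 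
(.lf (nat_lit 224656) (.g (nat_lit 1870) (.e (nat_lit 98341) (nat_lit 20) (.e (nat_lit 221190) (nat_lit 11) (.e (nat_lit 336021) (nat_lit 3) (.e (nat_lit 98365) (nat_lit 26) (.e (nat_lit 426188) (nat_lit 9) .nil))))) .nil)) 
(.lf (nat_lit 224688) (.g (nat_lit 1850) (.e (nat_lit 98341) (nat_lit 20) (.e (nat_lit 221193) (nat_lit 11) (.e (nat_lit 336011) (nat_lit 2) (.e (nat_lit 90185) (nat_lit 17) (.e (nat_lit 237604) (nat_lit 9) .nil))))) .nil)))) (.nd (nat_lit 4) (.nd (nat_lit 5) 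
(.lf (nat_lit 224648) (.g (nat_lit 1668) (.e (nat_lit 98340) (nat_lit 20) (.e (nat_lit 221215) (nat_lit 23) (.e (nat_lit 204863) (nat_lit 27) (.e (nat_lit 344120) (nat_lit 21) .nil)))) .nil)) 
(.lf (nat_lit 224680) (.g (nat_lit 1411) (.e (nat_lit 98341) (nat_lit 20) (.e (nat_lit 221193) (nat_lit 11) (.e (nat_lit 336010) (nat_lit 2) (.e (nat_lit 90172) (nat_lit 14) (.e (nat_lit 188160) (nat_lit 40) (.e (nat_lit 109) (nat_lit 3) .nil)))))) (.g (nat_lit 4) .nil .nil)))) (.nd (nat_lit 5) 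
(.lf (nat_lit 224664) (.g (nat_lit 824) (.e (nat_lit 98341) (nat_lit 20) (.e (nat_lit 221191) (nat_lit 11) (.e (nat_lit 336017) (nat_lit 3) (.e (nat_lit 98380) (nat_lit 31) (.e (nat_lit 474880) (nat_lit 3) .nil))))) (.g (nat_lit 4) .nil .nil))) 
(.lf (nat_lit 224696) (.g (nat_lit 2461) (.e (nat_lit 98341) (nat_lit 20) (.e (nat_lit 221193) (nat_lit 11) (.e (nat_lit 336021) (nat_lit 3) (.e (nat_lit 98365) (nat_lit 26) (.e (nat_lit 426187) (nat_lit 9) (.e (nat_lit 426437) (nat_lit 18) .nil)))))) (.g (nat_lit 5) .nil .nil)))))) (.nd (nat_lit 3) (.nd (nat_lit 4) (.nd (nat_lit 5) 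
(.lf (nat_lit 224644) (.g (nat_lit 1640) (.e (nat_lit 98340) (nat_lit 20) (.e (nat_lit 221215) (nat_lit 23) (.e (nat_lit 204863) (nat_lit 27) (.e (nat_lit 344118) (nat_lit 21) .nil)))) .nil)) 
(.lf (nat_lit 224676) (.g (nat_lit 1647) (.e (nat_lit 98341) (nat_lit 20) (.e (nat_lit 221193) (nat_lit 11) (.e (nat_lit 336010) (nat_lit 2) (.e (nat_lit 90170) (nat_lit 13) (.e (nat_lit 172087) (nat_lit 9) (.e (nat_lit 426437) (nat_lit 18) .nil)))))) (.g (nat_lit 4) .nil .nil)))) (.nd (nat_lit 5) 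
(.lf (nat_lit 224660) (.g (nat_lit 1656) (.e (nat_lit 98341) (nat_lit 20) (.e (nat_lit 221190) (nat_lit 11) (.e (nat_lit 336027) (nat_lit 3) (.e (nat_lit 98365) (nat_lit 26) (.e (nat_lit 426188) (nat_lit 9) .nil))))) .nil)) 
(.lf (nat_lit 224692) (.g (nat_lit 2605) (.e (nat_lit 98341) (nat_lit 20) (.e (nat_lit 221193) (nat_lit 11) (.e (nat_lit 336012) (nat_lit 2) (.e (nat_lit 90185) (nat_lit 17) (.e (nat_lit 237603) (nat_lit 9) .nil))))) .nil)))) (.nd (nat_lit 4) (.nd (nat_lit 5) 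
(.lf (nat_lit 224652) (.g (nat_lit 2134) (.e (nat_lit 98341) (nat_lit 20) (.e (nat_lit 221190) (nat_lit 11) (.e (nat_lit 336012) (nat_lit 2) (.e (nat_lit 90185) (nat_lit 17) (.e (nat_lit 237601) (nat_lit 9) (.e (nat_lit 426436) (nat_lit 18) .nil)))))) (.g (nat_lit 4) .nil .nil))) 
(.lf (nat_lit 224684) (.g (nat_lit 1377) (.e (nat_lit 98341) (nat_lit 20) (.e (nat_lit 221193) (nat_lit 11) (.e (nat_lit 336010) (nat_lit 2) (.e (nat_lit 90178) (nat_lit 15) (.e (nat_lit 196352) (nat_lit 3) .nil))))) (.g (nat_lit 4) .nil .nil)))) (.nd (nat_lit 5) 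
(.lf (nat_lit 224668) (.g (nat_lit 1074) (.e (nat_lit 98341) (nat_lit 20) (.e (nat_lit 221192) (nat_lit 11) (.e (nat_lit 336017) (nat_lit 3) (.e (nat_lit 98380) (nat_lit 31) (.e (nat_lit 474880) (nat_lit 3) .nil))))) (.g (nat_lit 4) .nil .nil))) 
(.lf (nat_lit 224700) (.g (nat_lit 2929) (.e (nat_lit 98341) (nat_lit 20) (.e (nat_lit 221193) (nat_lit 11) (.e (nat_lit 336021) (nat_lit 3) (.e (nat_lit 98365) (nat_lit 26) (.e (nat_lit 426188) (nat_lit 9) (.e (nat_lit 426437) (nat_lit 18) .nil)))))) (.g (nat_lit 5) .nil .nil))))))) (.nd (nat_lit 2) (.nd (nat_lit 3) (.nd (nat_lit 4) (.nd (nat_lit 5) 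
(.lf (nat_lit 224642) (.g (nat_lit 3156) (.e (nat_lit 98340) (nat_lit 20) (.e (nat_lit 221215) (nat_lit 23) (.e (nat_lit 204863) (nat_lit 27) (.e (nat_lit 344117) (nat_lit 21) (.e (nat_lit 516115) (nat_lit 1) (.e (nat_lit 164177) (nat_lit 154) (.e (nat_lit 57379) (nat_lit 3) .nil))))))) (.g (nat_lit 5) .nil .nil))) 
(.lf (nat_lit 224674) (.g (nat_lit 1175) (.e (nat_lit 98341) (nat_lit 20) (.e (nat_lit 221193) (nat_lit 11) (.e (nat_lit 336009) (nat_lit 2) (.e (nat_lit 90176) (nat_lit 15) (.e (nat_lit 196352) (nat_lit 3) .nil))))) .nil))) (.nd (nat_lit 5) 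
(.lf (nat_lit 224658) (.g (nat_lit 2071) (.e (nat_lit 98341) (nat_lit 20) (.e (nat_lit 221190) (nat_lit 11) (.e (nat_lit 336021) (nat_lit 3) (.e (nat_lit 98365) (nat_lit 26) (.e (nat_lit 426189) (nat_lit 9) (.e (nat_lit 426436) (nat_lit 18) .nil)))))) (.g (nat_lit 4) .nil .nil))) 
(.lf (nat_lit 224690) (.g (nat_lit 1807) (.e (nat_lit 98341) (nat_lit 20) (.e (nat_lit 221193) (nat_lit 11) (.e (nat_lit 336012) (nat_lit 2) (.e (nat_lit 90172) (nat_lit 14) (.e (nat_lit 188160) (nat_lit 40) .nil))))) .nil)))) (.nd (nat_lit 4) (.nd (nat_lit 5) 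
(.lf (nat_lit 224650) (.g (nat_lit 2477) (.e (nat_lit 98340) (nat_lit 20) (.e (nat_lit 221215) (nat_lit 23) (.e (nat_lit 204880) (nat_lit 32) (.e (nat_lit 385066) (nat_lit 26) (.e (nat_lit 532501) (nat_lit 1) (.e (nat_lit 57852) (nat_lit 252) (.e (nat_lit 57378) (nat_lit 3) .nil))))))) (.g (nat_lit 4) .nil .nil))) 
(.lf (nat_lit 224682) (.g (nat_lit 1251) (.e (nat_lit 98341) (nat_lit 20) (.e (nat_lit 221193) (nat_lit 11) (.e (nat_lit 336010) (nat_lit 2) (.e (nat_lit 90174) (nat_lit 14) (.e (nat_lit 188160) (nat_lit 40) .nil))))) .nil))) (.nd (nat_lit 5) 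
(.lf (nat_lit 224666) (.g (nat_lit 1490) (.e (nat_lit 98341) (nat_lit 20) (.e (nat_lit 221192) (nat_lit 11) (.e (nat_lit 336017) (nat_lit 3) (.e (nat_lit 98370) (nat_lit 28) (.e (nat_lit 450304) (nat_lit 3) .nil))))) (.g (nat_lit 4) .nil .nil))) 
(.lf (nat_lit 224698) (.g (nat_lit 2374) (.e (nat_lit 98341) (nat_lit 20) (.e (nat_lit 221193) (nat_lit 11) (.e (nat_lit 336021) (nat_lit 3) (.e (nat_lit 98365) (nat_lit 26) (.e (nat_lit 426188) (nat_lit 9) (.e (nat_lit 426434) (nat_lit 18) .nil)))))) (.g (nat_lit 4) .nil .nil)))))) (.nd (nat_lit 3) (.nd (nat_lit 4) (.nd (nat_lit 5) 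
(.lf (nat_lit 224646) (.g (nat_lit 1909) (.e (nat_lit 98340) (nat_lit 20) (.e (nat_lit 221215) (nat_lit 23) (.e (nat_lit 204863) (nat_lit 27) (.e (nat_lit 344118) (nat_lit 21) (.e (nat_lit 516119) (nat_lit 1) .nil))))) .nil)) 
(.lf (nat_lit 224678) (.g (nat_lit 1377) (.e (nat_lit 98341) (nat_lit 20) (.e (nat_lit 221193) (nat_lit 11) (.e (nat_lit 336010) (nat_lit 2) (.e (nat_lit 90170) (nat_lit 13) (.e (nat_lit 172088) (nat_lit 9) .nil))))) .nil))) (.nd (nat_lit 5) 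
(.lf (nat_lit 224662) (.g (nat_lit 2080) (.e (nat_lit 98341) (nat_lit 20) (.e (nat_lit 221190) (nat_lit 11) (.e (nat_lit 336027) (nat_lit 3) (.e (nat_lit 98365) (nat_lit 26) (.e (nat_lit 426189) (nat_lit 9) (.e (nat_lit 426436) (nat_lit 18) .nil)))))) (.g (nat_lit 4) .nil .nil))) 
(.lf (nat_lit 224694) (.g (nat_lit 2252) (.e (nat_lit 98341) (nat_lit 20) (.e (nat_lit 221193) (nat_lit 11) (.e (nat_lit 336021) (nat_lit 3) (.e (nat_lit 98365) (nat_lit 26) (.e (nat_lit 426186) (nat_lit 9) (.e (nat_lit 426436) (nat_lit 18) .nil)))))) (.g (nat_lit 4) .nil .nil))))) (.nd (nat_lit 4) (.nd (nat_lit 5) 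
(.lf (nat_lit 224654) (.g (nat_lit 1163) (.e (nat_lit 98341) (nat_lit 20) (.e (nat_lit 221190) (nat_lit 11) (.e (nat_lit 336021) (nat_lit 3) (.e (nat_lit 98365) (nat_lit 26) .nil)))) .nil)) 
(.lf (nat_lit 224686) (.g (nat_lit 2617) (.e (nat_lit 98341) (nat_lit 20) (.e (nat_lit 221193) (nat_lit 11) (.e (nat_lit 336011) (nat_lit 2) (.e (nat_lit 90170) (nat_lit 13) (.e (nat_lit 172087) (nat_lit 9) (.e (nat_lit 426436) (nat_lit 18) .nil)))))) (.g (nat_lit 4) .nil .nil)))) (.nd (nat_lit 5) 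
(.lf (nat_lit 224670) (.g (nat_lit 1174) (.e (nat_lit 98341) (nat_lit 20) (.e (nat_lit 221192) (nat_lit 11) (.e (nat_lit 336017) (nat_lit 3) (.e (nat_lit 98382) (nat_lit 31) (.e (nat_lit 474880) (nat_lit 3) .nil))))) (.g (nat_lit 4) .nil .nil))) 
(.lf (nat_lit 224702) (.g (nat_lit 2262) (.e (nat_lit 98341) (nat_lit 20) (.e (nat_lit 221193) (nat_lit 11) (.e (nat_lit 336021) (nat_lit 3) (.e (nat_lit 98365) (nat_lit 26) (.e (nat_lit 426198) (nat_lit 9) (.e (nat_lit 426436) (nat_lit 18) .nil)))))) (.g (nat_lit 4) .nil .nil)))))))) (.nd (nat_lit 1) (.nd (nat_lit 2) (.nd (nat_lit 3) (.nd (nat_lit 4) (.nd (nat_lit 5) 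
(.lf (nat_lit 224641) (.g (nat_lit 1972) (.e (nat_lit 98340) (nat_lit 20) (.e (nat_lit 221215) (nat_lit 23) (.e (nat_lit 204862) (nat_lit 27) (.e (nat_lit 344119) (nat_lit 21) (.e (nat_lit 516120) (nat_lit 1) .nil))))) .nil)) 
(.lf (nat_lit 224673) (.g (nat_lit 1737) (.e (nat_lit 98341) (nat_lit 20) (.e (nat_lit 221193) (nat_lit 11) (.e (nat_lit 336004) (nat_lit 2) (.e (nat_lit 90185) (nat_lit 17) (.e (nat_lit 237604) (nat_lit 9) .nil))))) .nil))) (.nd (nat_lit 5) 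
(.lf (nat_lit 224657) (.g (nat_lit 2647) (.e (nat_lit 98341) (nat_lit 20) (.e (nat_lit 221190) (nat_lit 11) (.e (nat_lit 336021) (nat_lit 3) (.e (nat_lit 98365) (nat_lit 26) (.e (nat_lit 426188) (nat_lit 9) (.e (nat_lit 426436) (nat_lit 18) .nil)))))) (.g (nat_lit 5) .nil .nil))) 
(.lf (nat_lit 224689) (.g (nat_lit 1949) (.e (nat_lit 98341) (nat_lit 20) (.e (nat_lit 221193) (nat_lit 11) (.e (nat_lit 336011) (nat_lit 2) (.e (nat_lit 90185) (nat_lit 17) (.e (nat_lit 237605) (nat_lit 9) (.e (nat_lit 426434) (nat_lit 18) .nil)))))) (.g (nat_lit 4) .nil .nil))))) (.nd (nat_lit 4) (.nd (nat_lit 5) 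
(.lf (nat_lit 224649) (.g (nat_lit 2783) (.e (nat_lit 98340) (nat_lit 20) (.e (nat_lit 221215) (nat_lit 23) (.e (nat_lit 204863) (nat_lit 27) (.e (nat_lit 344120) (nat_lit 21) (.e (nat_lit 516120) (nat_lit 1) (.e (nat_lit 164183) (nat_lit 154) (.e (nat_lit 57378) (nat_lit 3) .nil))))))) (.g (nat_lit 5) .nil .nil))) 
(.lf (nat_lit 224681) (.g (nat_lit 1469) (.e (nat_lit 98341) (nat_lit 20) (.e (nat_lit 221193) (nat_lit 11) (.e (nat_lit 336010) (nat_lit 2) (.e (nat_lit 90172) (nat_lit 14) (.e (nat_lit 188160) (nat_lit 40) (.e (nat_lit 112) (nat_lit 3) .nil)))))) (.g (nat_lit 4) .nil .nil)))) (.nd (nat_lit 5) 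
(.lf (nat_lit 224665) (.g (nat_lit 890) (.e (nat_lit 98341) (nat_lit 20) (.e (nat_lit 221191) (nat_lit 11) (.e (nat_lit 336017) (nat_lit 3) (.e (nat_lit 98381) (nat_lit 31) (.e (nat_lit 474880) (nat_lit 3) .nil))))) (.g (nat_lit 4) .nil .nil))) 
(.lf (nat_lit 224697) (.g (nat_lit 2295) (.e (nat_lit 98341) (nat_lit 20) (.e (nat_lit 221193) (nat_lit 11) (.e (nat_lit 336021) (nat_lit 3) (.e (nat_lit 98365) (nat_lit 26) (.e (nat_lit 426187) (nat_lit 9) (.e (nat_lit 426438) (nat_lit 18) .nil)))))) (.g (nat_lit 4) .nil .nil)))))) (.nd (nat_lit 3) (.nd (nat_lit 4) (.nd (nat_lit 5) 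
(.lf (nat_lit 224645) (.g (nat_lit 1934) (.e (nat_lit 98340) (nat_lit 20) (.e (nat_lit 221215) (nat_lit 23) (.e (nat_lit 204863) (nat_lit 27) (.e (nat_lit 344118) (nat_lit 21) (.e (nat_lit 516118) (nat_lit 1) .nil))))) .nil)) 
(.lf (nat_lit 224677) (.g (nat_lit 1865) (.e (nat_lit 98341) (nat_lit 20) (.e (nat_lit 221193) (nat_lit 11) (.e (nat_lit 336010) (nat_lit 2) (.e (nat_lit 90170) (nat_lit 13) (.e (nat_lit 172087) (nat_lit 9) (.e (nat_lit 426438) (nat_lit 18) .nil)))))) (.g (nat_lit 4) .nil .nil)))) (.nd (nat_lit 5) 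
(.lf (nat_lit 224661) (.g (nat_lit 2698) (.e (nat_lit 98341) (nat_lit 20) (.e (nat_lit 221190) (nat_lit 11) (.e (nat_lit 336027) (nat_lit 3) (.e (nat_lit 98365) (nat_lit 26) (.e (nat_lit 426188) (nat_lit 9) (.e (nat_lit 426436) (nat_lit 18) .nil)))))) (.g (nat_lit 5) .nil .nil))) 
(.lf (nat_lit 224693) (.g (nat_lit 1905) (.e (nat_lit 98341) (nat_lit 20) (.e (nat_lit 221193) (nat_lit 11) (.e (nat_lit 336012) (nat_lit 2) (.e (nat_lit 90185) (nat_lit 17) (.e (nat_lit 237605) (nat_lit 9) (.e (nat_lit 426437) (nat_lit 18) .nil)))))) (.g (nat_lit 4) .nil .nil))))) (.nd (nat_lit 4) (.nd (nat_lit 5) 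
(.lf (nat_lit 224653) (.g (nat_lit 1546) (.e (nat_lit 98341) (nat_lit 20) (.e (nat_lit 221190) (nat_lit 11) (.e (nat_lit 336012) (nat_lit 2) (.e (nat_lit 90185) (nat_lit 17) (.e (nat_lit 237605) (nat_lit 9) .nil))))) .nil)) 
(.lf (nat_lit 224685) (.g (nat_lit 2516) (.e (nat_lit 98341) (nat_lit 20) (.e (nat_lit 221193) (nat_lit 11) (.e (nat_lit 336011) (nat_lit 2) (.e (nat_lit 90170) (nat_lit 13) (.e (nat_lit 172087) (nat_lit 9) .nil))))) .nil))) (.nd (nat_lit 5) 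
(.lf (nat_lit 224669) (.g (nat_lit 1147) (.e (nat_lit 98341) (nat_lit 20) (.e (nat_lit 221192) (nat_lit 11) (.e (nat_lit 336017) (nat_lit 3) (.e (nat_lit 98381) (nat_lit 31) (.e (nat_lit 474880) (nat_lit 3) .nil))))) (.g (nat_lit 4) .nil .nil))) 
(.lf (nat_lit 224701) (.g (nat_lit 2851) (.e (nat_lit 98341) (nat_lit 20) (.e (nat_lit 221193) (nat_lit 11) (.e (nat_lit 336021) (nat_lit 3) (.e (nat_lit 98365) (nat_lit 26) (.e (nat_lit 426188) (nat_lit 9) (.e (nat_lit 426438) (nat_lit 18) .nil)))))) (.g (nat_lit 5) .nil .nil))))))) (.nd (nat_lit 2) (.nd (nat_lit 3) (.nd (nat_lit 4) (.nd (nat_lit 5) 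
(.lf (nat_lit 224643) (.g (nat_lit 2617) (.e (nat_lit 98340) (nat_lit 20) (.e (nat_lit 221215) (nat_lit 23) (.e (nat_lit 204863) (nat_lit 27) (.e (nat_lit 344117) (nat_lit 21) (.e (nat_lit 516118) (nat_lit 1) .nil))))) .nil)) 
(.lf (nat_lit 224675) (.g (nat_lit 1610) (.e (nat_lit 98341) (nat_lit 20) (.e (nat_lit 221193) (nat_lit 11) (.e (nat_lit 336009) (nat_lit 2) (.e (nat_lit 90185) (nat_lit 17) (.e (nat_lit 237605) (nat_lit 9) (.e (nat_lit 426434) (nat_lit 18) .nil)))))) (.g (nat_lit 4) .nil .nil)))) (.nd (nat_lit 5) 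
(.lf (nat_lit 224659) (.g (nat_lit 2465) (.e (nat_lit 98341) (nat_lit 20) (.e (nat_lit 221190) (nat_lit 11) (.e (nat_lit 336027) (nat_lit 3) (.e (nat_lit 98365) (nat_lit 26) (.e (nat_lit 426187) (nat_lit 9) (.e (nat_lit 426436) (nat_lit 18) .nil)))))) (.g (nat_lit 5) .nil .nil))) 
(.lf (nat_lit 224691) (.g (nat_lit 2007) (.e (nat_lit 98341) (nat_lit 20) (.e (nat_lit 221193) (nat_lit 11) (.e (nat_lit 336012) (nat_lit 2) (.e (nat_lit 90185) (nat_lit 17) (.e (nat_lit 237601) (nat_lit 9) (.e (nat_lit 426438) (nat_lit 18) .nil)))))) (.g (nat_lit 4) .nil .nil))))) (.nd (nat_lit 4) (.nd (nat_lit 5) 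
(.lf (nat_lit 224651) (.g (nat_lit 1665) (.e (nat_lit 98341) (nat_lit 20) (.e (nat_lit 221190) (nat_lit 11) (.e (nat_lit 336004) (nat_lit 2) (.e (nat_lit 90185) (nat_lit 17) (.e (nat_lit 237601) (nat_lit 9) .nil))))) .nil)) 
(.lf (nat_lit 224683) (.g (nat_lit 1150) (.e (nat_lit 98341) (nat_lit 20) (.e (nat_lit 221193) (nat_lit 11) (.e (nat_lit 336010) (nat_lit 2) (.e (nat_lit 90176) (nat_lit 15) (.e (nat_lit 196352) (nat_lit 3) .nil))))) (.g (nat_lit 4) .nil .nil)))) (.nd (nat_lit 5) 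
(.lf (nat_lit 224667) (.g (nat_lit 1132) (.e (nat_lit 98341) (nat_lit 20) (.e (nat_lit 221192) (nat_lit 11) (.e (nat_lit 336017) (nat_lit 3) (.e (nat_lit 98371) (nat_lit 28) (.e (nat_lit 450304) (nat_lit 3) .nil))))) (.g (nat_lit 4) .nil .nil))) 
(.lf (nat_lit 224699) (.g (nat_lit 3636) (.e (nat_lit 98341) (nat_lit 20) (.e (nat_lit 221193) (nat_lit 11) (.e (nat_lit 336021) (nat_lit 3) (.e (nat_lit 98365) (nat_lit 26) (.e (nat_lit 426188) (nat_lit 9) (.e (nat_lit 426436) (nat_lit 18) .nil)))))) (.g (nat_lit 0) .nil .nil)))))) (.nd (nat_lit 3) (.nd (nat_lit 4) (.nd (nat_lit 5) 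
(.lf (nat_lit 224647) (.g (nat_lit 1904) (.e (nat_lit 98340) (nat_lit 20) (.e (nat_lit 221215) (nat_lit 23) (.e (nat_lit 204863) (nat_lit 27) (.e (nat_lit 344118) (nat_lit 21) (.e (nat_lit 516120) (nat_lit 1) .nil))))) .nil)) 
(.lf (nat_lit 224679) (.g (nat_lit 2707) (.e (nat_lit 98341) (nat_lit 20) (.e (nat_lit 221193) (nat_lit 11) (.e (nat_lit 336010) (nat_lit 2) (.e (nat_lit 90170) (nat_lit 13) (.e (nat_lit 172095) (nat_lit 9) (.e (nat_lit 433920) (nat_lit 18) .nil)))))) (.g (nat_lit 5) .nil .nil)))) (.nd (nat_lit 5) 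
(.lf (nat_lit 224663) (.g (nat_lit 1225) (.e (nat_lit 98341) (nat_lit 20) (.e (nat_lit 221191) (nat_lit 11) (.e (nat_lit 336017) (nat_lit 3) (.e (nat_lit 98370) (nat_lit 28) (.e (nat_lit 450304) (nat_lit 3) .nil))))) (.g (nat_lit 4) .nil .nil))) 
(.lf (nat_lit 224695) (.g (nat_lit 1804) (.e (nat_lit 98341) (nat_lit 20) (.e (nat_lit 221193) (nat_lit 11) (.e (nat_lit 336021) (nat_lit 3) (.e (nat_lit 98365) (nat_lit 26) (.e (nat_lit 426187) (nat_lit 9) (.e (nat_lit 426434) (nat_lit 18) .nil)))))) (.g (nat_lit 4) .nil .nil))))) (.nd (nat_lit 4) (.nd (nat_lit 5) 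
(.lf (nat_lit 224655) (.g (nat_lit 2362) (.e (nat_lit 98341) (nat_lit 20) (.e (nat_lit 221190) (nat_lit 11) (.e (nat_lit 336021) (nat_lit 3) (.e (nat_lit 98365) (nat_lit 26) (.e (nat_lit 426187) (nat_lit 9) (.e (nat_lit 426436) (nat_lit 18) .nil)))))) (.g (nat_lit 4) .nil .nil))) 
(.lf (nat_lit 224687) (.g (nat_lit 3126) (.e (nat_lit 98341) (nat_lit 20) (.e (nat_lit 221193) (nat_lit 11) (.e (nat_lit 336011) (nat_lit 2) (.e (nat_lit 90170) (nat_lit 13) (.e (nat_lit 172095) (nat_lit 9) (.e (nat_lit 433920) (nat_lit 18) .nil)))))) (.g (nat_lit 4) .nil .nil)))) (.nd (nat_lit 5) 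
(.lf (nat_lit 224671) (.g (nat_lit 2269) (.e (nat_lit 98341) (nat_lit 20) (.e (nat_lit 221193) (nat_lit 11) (.e (nat_lit 336002) (nat_lit 2) (.e (nat_lit 90185) (nat_lit 17) (.e (nat_lit 237600) (nat_lit 9) .nil))))) .nil)) 
(.lf (nat_lit 224703) (.g (nat_lit 3596) (.e (nat_lit 98341) (nat_lit 20) (.e (nat_lit 221193) (nat_lit 11) (.e (nat_lit 336021) (nat_lit 3) (.e (nat_lit 98365) (nat_lit 26) (.e (nat_lit 426200) (nat_lit 9) (.e (nat_lit 426436) (nat_lit 18) .nil)))))) (.g (nat_lit 6) .nil .nil)))))))))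

noncomputable def tv2944 : DT := (.nd (nat_lit 0) (.nd (nat_lit 1) (.nd (nat_lit 2) (.nd (nat_lit 3) (.nd (nat_lit 4) (.nd (nat_lit 5) 
(.lf (nat_lit 224704) (.g (nat_lit 1865) (.e (nat_lit 98341) (nat_lit 20) (.e (nat_lit 221193) (nat_lit 11) (.e (nat_lit 336025) (nat_lit 3) (.e (nat_lit 98363) (nat_lit 26) (.e (nat_lit 426228) (nat_lit 9) (.e (nat_lit 426435) (nat_lit 18) .nil)))))) (.g (nat_lit 6) .nil .nil))) 
(.lf (nat_lit 224736) (.g (nat_lit 2743) (.e (nat_lit 98341) (nat_lit 20) (.e (nat_lit 221193) (nat_lit 11) (.e (nat_lit 336027) (nat_lit 3) (.e (nat_lit 98365) (nat_lit 26) (.e (nat_lit 426188) (nat_lit 9) (.e (nat_lit 426438) (nat_lit 18) .nil)))))) (.g (nat_lit 5) .nil .nil)))) (.nd (nat_lit 5) 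
(.lf (nat_lit 224720) (.g (nat_lit 1677) (.e (nat_lit 98341) (nat_lit 20) (.e (nat_lit 221193) (nat_lit 11) (.e (nat_lit 336026) (nat_lit 3) (.e (nat_lit 98363) (nat_lit 26) (.e (nat_lit 426230) (nat_lit 9) (.e (nat_lit 426435) (nat_lit 18) .nil)))))) (.g (nat_lit 0) .nil .nil))) 
(.lf (nat_lit 224752) (.g (nat_lit 676) (.e (nat_lit 98341) (nat_lit 20) (.e (nat_lit 221194) (nat_lit 11) (.e (nat_lit 336009) (nat_lit 2) .nil))) .nil)))) (.nd (nat_lit 4) (.nd (nat_lit 5) 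
(.lf (nat_lit 224712) (.g (nat_lit 3221) (.e (nat_lit 98341) (nat_lit 20) (.e (nat_lit 221193) (nat_lit 11) (.e (nat_lit 336025) (nat_lit 3) (.e (nat_lit 98365) (nat_lit 26) (.e (nat_lit 426200) (nat_lit 9) (.e (nat_lit 426436) (nat_lit 18) .nil)))))) (.g (nat_lit 6) .nil .nil))) 
(.lf (nat_lit 224744) (.g (nat_lit 2672) (.e (nat_lit 98341) (nat_lit 20) (.e (nat_lit 221194) (nat_lit 11) (.e (nat_lit 336002) (nat_lit 2) (.e (nat_lit 90185) (nat_lit 17) (.e (nat_lit 237600) (nat_lit 9) (.e (nat_lit 426436) (nat_lit 18) .nil)))))) (.g (nat_lit 4) .nil .nil)))) (.nd (nat_lit 5) 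
(.lf (nat_lit 224728) (.g (nat_lit 2031) (.e (nat_lit 98341) (nat_lit 20) (.e (nat_lit 221193) (nat_lit 11) (.e (nat_lit 336027) (nat_lit 3) (.e (nat_lit 98356) (nat_lit 26) (.e (nat_lit 433920) (nat_lit 9) (.e (nat_lit 426436) (nat_lit 18) .nil)))))) (.g (nat_lit 4) .nil .nil))) 
(.lf (nat_lit 224760) (.g (nat_lit 1576) (.e (nat_lit 98341) (nat_lit 20) (.e (nat_lit 221194) (nat_lit 11) (.e (nat_lit 336010) (nat_lit 2) (.e (nat_lit 90172) (nat_lit 14) (.e (nat_lit 188160) (nat_lit 40) .nil))))) .nil))))) (.nd (nat_lit 3) (.nd (nat_lit 4) (.nd (nat_lit 5) 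
(.lf (nat_lit 224708) (.g (nat_lit 1960) (.e (nat_lit 98341) (nat_lit 20) (.e (nat_lit 221193) (nat_lit 11) (.e (nat_lit 336025) (nat_lit 3) (.e (nat_lit 98365) (nat_lit 26) (.e (nat_lit 426187) (nat_lit 9) (.e (nat_lit 426437) (nat_lit 18) .nil)))))) (.g (nat_lit 4) .nil .nil))) 
(.lf (nat_lit 224740) (.g (nat_lit 1590) (.e (nat_lit 98341) (nat_lit 20) (.e (nat_lit 221193) (nat_lit 11) (.e (nat_lit 336027) (nat_lit 3) (.e (nat_lit 98380) (nat_lit 31) (.e (nat_lit 474880) (nat_lit 3) .nil))))) (.g (nat_lit 4) .nil .nil)))) (.nd (nat_lit 5) 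
(.lf (nat_lit 224724) (.g (nat_lit 1248) (.e (nat_lit 98341) (nat_lit 20) (.e (nat_lit 221193) (nat_lit 11) (.e (nat_lit 336026) (nat_lit 3) (.e (nat_lit 98369) (nat_lit 28) (.e (nat_lit 450304) (nat_lit 3) .nil))))) (.g (nat_lit 4) .nil .nil))) 
(.lf (nat_lit 224756) (.g (nat_lit 2326) (.e (nat_lit 98341) (nat_lit 20) (.e (nat_lit 221194) (nat_lit 11) (.e (nat_lit 336010) (nat_lit 2) (.e (nat_lit 90170) (nat_lit 13) (.e (nat_lit 172087) (nat_lit 9) (.e (nat_lit 426437) (nat_lit 18) .nil)))))) (.g (nat_lit 4) .nil .nil))))) (.nd (nat_lit 4) (.nd (nat_lit 5) 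
(.lf (nat_lit 224716) (.g (nat_lit 1469) (.e (nat_lit 98341) (nat_lit 20) (.e (nat_lit 221193) (nat_lit 11) (.e (nat_lit 336025) (nat_lit 3) (.e (nat_lit 98380) (nat_lit 31) (.e (nat_lit 474880) (nat_lit 3) .nil))))) (.g (nat_lit 4) .nil .nil))) 
(.lf (nat_lit 224748) (.g (nat_lit 867) (.e (nat_lit 98341) (nat_lit 20) (.e (nat_lit 221194) (nat_lit 11) (.e (nat_lit 336003) (nat_lit 2) (.e (nat_lit 90176) (nat_lit 15) .nil)))) .nil))) (.nd (nat_lit 5) 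
(.lf (nat_lit 224732) (.g (nat_lit 1702) (.e (nat_lit 98341) (nat_lit 20) (.e (nat_lit 221193) (nat_lit 11) (.e (nat_lit 336027) (nat_lit 3) (.e (nat_lit 98365) (nat_lit 26) (.e (nat_lit 426187) (nat_lit 9) (.e (nat_lit 426434) (nat_lit 18) .nil)))))) (.g (nat_lit 4) .nil .nil))) 
(.lf (nat_lit 224764) (.g (nat_lit 1593) (.e (nat_lit 98341) (nat_lit 20) (.e (nat_lit 221194) (nat_lit 11) (.e (nat_lit 336010) (nat_lit 2) (.e (nat_lit 90176) (nat_lit 15) (.e (nat_lit 196352) (nat_lit 3) .nil))))) (.g (nat_lit 4) .nil .nil))))))) (.nd (nat_lit 2) (.nd (nat_lit 3) (.nd (nat_lit 4) (.nd (nat_lit 5) 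
(.lf (nat_lit 224706) (.g (nat_lit 1994) (.e (nat_lit 98341) (nat_lit 20) (.e (nat_lit 221193) (nat_lit 11) (.e (nat_lit 336025) (nat_lit 3) (.e (nat_lit 98365) (nat_lit 26) (.e (nat_lit 426186) (nat_lit 9) (.e (nat_lit 426436) (nat_lit 18) .nil)))))) (.g (nat_lit 4) .nil .nil))) 
(.lf (nat_lit 224738) (.g (nat_lit 1526) (.e (nat_lit 98341) (nat_lit 20) (.e (nat_lit 221193) (nat_lit 11) (.e (nat_lit 336027) (nat_lit 3) (.e (nat_lit 98369) (nat_lit 28) (.e (nat_lit 450304) (nat_lit 3) .nil))))) (.g (nat_lit 4) .nil .nil)))) (.nd (nat_lit 5) 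
(.lf (nat_lit 224722) (.g (nat_lit 1827) (.e (nat_lit 98341) (nat_lit 20) (.e (nat_lit 221193) (nat_lit 11) (.e (nat_lit 336026) (nat_lit 3) (.e (nat_lit 98365) (nat_lit 26) (.e (nat_lit 426187) (nat_lit 9) (.e (nat_lit 426437) (nat_lit 18) .nil)))))) (.g (nat_lit 5) .nil .nil))) 
(.lf (nat_lit 224754) (.g (nat_lit 410) (.e (nat_lit 98341) (nat_lit 20) (.e (nat_lit 221194) (nat_lit 11) (.e (nat_lit 336010) (nat_lit 2) .nil))) .nil)))) (.nd (nat_lit 4) (.nd (nat_lit 5) 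
(.lf (nat_lit 224714) (.g (nat_lit 1797) (.e (nat_lit 98341) (nat_lit 20) (.e (nat_lit 221193) (nat_lit 11) (.e (nat_lit 336025) (nat_lit 3) (.e (nat_lit 98370) (nat_lit 28) (.e (nat_lit 450304) (nat_lit 3) .nil))))) (.g (nat_lit 4) .nil .nil))) 
(.lf (nat_lit 224746) (.g (nat_lit 2547) (.e (nat_lit 98341) (nat_lit 20) (.e (nat_lit 221194) (nat_lit 11) (.e (nat_lit 336002) (nat_lit 2) (.e (nat_lit 90185) (nat_lit 17) (.e (nat_lit 237604) (nat_lit 9) (.e (nat_lit 426437) (nat_lit 18) .nil)))))) (.g (nat_lit 4) .nil .nil)))) (.nd (nat_lit 5) 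
(.lf (nat_lit 224730) (.g (nat_lit 2348) (.e (nat_lit 98341) (nat_lit 20) (.e (nat_lit 221193) (nat_lit 11) (.e (nat_lit 336027) (nat_lit 3) (.e (nat_lit 98363) (nat_lit 26) (.e (nat_lit 426230) (nat_lit 9) (.e (nat_lit 426435) (nat_lit 18) .nil)))))) (.g (nat_lit 0) .nil .nil))) 
(.lf (nat_lit 224762) (.g (nat_lit 2485) (.e (nat_lit 98341) (nat_lit 20) (.e (nat_lit 221194) (nat_lit 11) (.e (nat_lit 336010) (nat_lit 2) (.e (nat_lit 90172) (nat_lit 14) (.e (nat_lit 188160) (nat_lit 40) (.e (nat_lit 112) (nat_lit 3) .nil)))))) (.g (nat_lit 4) .nil .nil)))))) (.nd (nat_lit 3) (.nd (nat_lit 4) (.nd (nat_lit 5) 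
(.lf (nat_lit 224710) (.g (nat_lit 2451) (.e (nat_lit 98341) (nat_lit 20) (.e (nat_lit 221193) (nat_lit 11) (.e (nat_lit 336025) (nat_lit 3) (.e (nat_lit 98365) (nat_lit 26) (.e (nat_lit 426188) (nat_lit 9) (.e (nat_lit 426437) (nat_lit 18) .nil)))))) (.g (nat_lit 5) .nil .nil))) 
(.lf (nat_lit 224742) (.g (nat_lit 2019) (.e (nat_lit 98341) (nat_lit 20) (.e (nat_lit 221194) (nat_lit 11) (.e (nat_lit 336001) (nat_lit 2) (.e (nat_lit 90185) (nat_lit 17) (.e (nat_lit 237605) (nat_lit 9) .nil))))) .nil))) (.nd (nat_lit 5) 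
(.lf (nat_lit 224726) (.g (nat_lit 1236) (.e (nat_lit 98341) (nat_lit 20) (.e (nat_lit 221193) (nat_lit 11) (.e (nat_lit 336026) (nat_lit 3) (.e (nat_lit 98380) (nat_lit 31) (.e (nat_lit 474880) (nat_lit 3) .nil))))) (.g (nat_lit 4) .nil .nil))) 
(.lf (nat_lit 224758) (.g (nat_lit 1815) (.e (nat_lit 98341) (nat_lit 20) (.e (nat_lit 221194) (nat_lit 11) (.e (nat_lit 336010) (nat_lit 2) (.e (nat_lit 90170) (nat_lit 13) (.e (nat_lit 172092) (nat_lit 9) .nil))))) .nil)))) (.nd (nat_lit 4) (.nd (nat_lit 5) 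
(.lf (nat_lit 224718) (.g (nat_lit 2008) (.e (nat_lit 98341) (nat_lit 20) (.e (nat_lit 221193) (nat_lit 11) (.e (nat_lit 336026) (nat_lit 3) (.e (nat_lit 98358) (nat_lit 26) (.e (nat_lit 426227) (nat_lit 9) (.e (nat_lit 426437) (nat_lit 18) .nil)))))) (.g (nat_lit 5) .nil .nil))) 
(.lf (nat_lit 224750) (.g (nat_lit 2330) (.e (nat_lit 98341) (nat_lit 20) (.e (nat_lit 221194) (nat_lit 11) (.e (nat_lit 336004) (nat_lit 2) (.e (nat_lit 90172) (nat_lit 14) (.e (nat_lit 188160) (nat_lit 40) .nil))))) .nil))) (.nd (nat_lit 5) 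
(.lf (nat_lit 224734) (.g (nat_lit 2199) (.e (nat_lit 98341) (nat_lit 20) (.e (nat_lit 221193) (nat_lit 11) (.e (nat_lit 336027) (nat_lit 3) (.e (nat_lit 98365) (nat_lit 26) (.e (nat_lit 426187) (nat_lit 9) (.e (nat_lit 426438) (nat_lit 18) .nil)))))) (.g (nat_lit 5) .nil .nil))) 
(.lf (nat_lit 224766) (.g (nat_lit 2439) (.e (nat_lit 98341) (nat_lit 20) (.e (nat_lit 221194) (nat_lit 11) (.e (nat_lit 336010) (nat_lit 2) (.e (nat_lit 90185) (nat_lit 17) (.e (nat_lit 237601) (nat_lit 9) (.e (nat_lit 426438) (nat_lit 18) .nil)))))) (.g (nat_lit 0) .nil .nil)))))))) (.nd (nat_lit 1) (.nd (nat_lit 2) (.nd (nat_lit 3) (.nd (nat_lit 4) (.nd (nat_lit 5) 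
(.lf (nat_lit 224705) (.g (nat_lit 1920) (.e (nat_lit 98341) (nat_lit 20) (.e (nat_lit 221193) (nat_lit 11) (.e (nat_lit 336025) (nat_lit 3) (.e (nat_lit 98363) (nat_lit 26) (.e (nat_lit 426230) (nat_lit 9) (.e (nat_lit 426435) (nat_lit 18) .nil)))))) (.g (nat_lit 6) .nil .nil))) 
(.lf (nat_lit 224737) (.g (nat_lit 3516) (.e (nat_lit 98341) (nat_lit 20) (.e (nat_lit 221193) (nat_lit 11) (.e (nat_lit 336027) (nat_lit 3) (.e (nat_lit 98365) (nat_lit 26) (.e (nat_lit 426200) (nat_lit 9) (.e (nat_lit 426436) (nat_lit 18) .nil)))))) (.g (nat_lit 6) .nil .nil)))) (.nd (nat_lit 5) 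
(.lf (nat_lit 224721) (.g (nat_lit 1200) (.e (nat_lit 98341) (nat_lit 20) (.e (nat_lit 221193) (nat_lit 11) (.e (nat_lit 336026) (nat_lit 3) (.e (nat_lit 98365) (nat_lit 26) (.e (nat_lit 426187) (nat_lit 9) (.e (nat_lit 426434) (nat_lit 18) .nil)))))) (.g (nat_lit 4) .nil .nil))) 
(.lf (nat_lit 224753) (.g (nat_lit 1869) (.e (nat_lit 98341) (nat_lit 20) (.e (nat_lit 221194) (nat_lit 11) (.e (nat_lit 336009) (nat_lit 2) (.e (nat_lit 90172) (nat_lit 14) (.e (nat_lit 188160) (nat_lit 40) .nil))))) .nil)))) (.nd (nat_lit 4) (.nd (nat_lit 5) 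
(.lf (nat_lit 224713) (.g (nat_lit 1481) (.e (nat_lit 98341) (nat_lit 20) (.e (nat_lit 221193) (nat_lit 11) (.e (nat_lit 336025) (nat_lit 3) (.e (nat_lit 98369) (nat_lit 28) (.e (nat_lit 450304) (nat_lit 3) .nil))))) (.g (nat_lit 4) .nil .nil))) 
(.lf (nat_lit 224745) (.g (nat_lit 2080) (.e (nat_lit 98341) (nat_lit 20) (.e (nat_lit 221194) (nat_lit 11) (.e (nat_lit 336002) (nat_lit 2) (.e (nat_lit 90185) (nat_lit 17) (.e (nat_lit 237601) (nat_lit 9) (.e (nat_lit 426437) (nat_lit 18) .nil)))))) (.g (nat_lit 4) .nil .nil)))) (.nd (nat_lit 5) 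
(.lf (nat_lit 224729) (.g (nat_lit 2280) (.e (nat_lit 98341) (nat_lit 20) (.e (nat_lit 221193) (nat_lit 11) (.e (nat_lit 336027) (nat_lit 3) (.e (nat_lit 98363) (nat_lit 26) (.e (nat_lit 426228) (nat_lit 9) (.e (nat_lit 426435) (nat_lit 18) .nil)))))) (.g (nat_lit 0) .nil .nil))) 
(.lf (nat_lit 224761) (.g (nat_lit 2324) (.e (nat_lit 98341) (nat_lit 20) (.e (nat_lit 221194) (nat_lit 11) (.e (nat_lit 336010) (nat_lit 2) (.e (nat_lit 90172) (nat_lit 14) (.e (nat_lit 188160) (nat_lit 40) (.e (nat_lit 110) (nat_lit 3) .nil)))))) (.g (nat_lit 4) .nil .nil)))))) (.nd (nat_lit 3) (.nd (nat_lit 4) (.nd (nat_lit 5) 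
(.lf (nat_lit 224709) (.g (nat_lit 1807) (.e (nat_lit 98341) (nat_lit 20) (.e (nat_lit 221193) (nat_lit 11) (.e (nat_lit 336025) (nat_lit 3) (.e (nat_lit 98365) (nat_lit 26) (.e (nat_lit 426187) (nat_lit 9) (.e (nat_lit 426438) (nat_lit 18) .nil)))))) (.g (nat_lit 4) .nil .nil))) 
(.lf (nat_lit 224741) (.g (nat_lit 1636) (.e (nat_lit 98341) (nat_lit 20) (.e (nat_lit 221193) (nat_lit 11) (.e (nat_lit 336027) (nat_lit 3) (.e (nat_lit 98381) (nat_lit 31) (.e (nat_lit 474880) (nat_lit 3) .nil))))) (.g (nat_lit 4) .nil .nil)))) (.nd (nat_lit 5) 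
(.lf (nat_lit 224725) (.g (nat_lit 1546) (.e (nat_lit 98341) (nat_lit 20) (.e (nat_lit 221193) (nat_lit 11) (.e (nat_lit 336026) (nat_lit 3) (.e (nat_lit 98370) (nat_lit 28) (.e (nat_lit 450304) (nat_lit 3) .nil))))) (.g (nat_lit 4) .nil .nil))) 
(.lf (nat_lit 224757) (.g (nat_lit 1830) (.e (nat_lit 98341) (nat_lit 20) (.e (nat_lit 221194) (nat_lit 11) (.e (nat_lit 336010) (nat_lit 2) (.e (nat_lit 90170) (nat_lit 13) (.e (nat_lit 172088) (nat_lit 9) (.e (nat_lit 433920) (nat_lit 18) .nil)))))) (.g (nat_lit 4) .nil .nil))))) (.nd (nat_lit 4) (.nd (nat_lit 5) 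
(.lf (nat_lit 224717) (.g (nat_lit 1511) (.e (nat_lit 98341) (nat_lit 20) (.e (nat_lit 221193) (nat_lit 11) (.e (nat_lit 336025) (nat_lit 3) (.e (nat_lit 98381) (nat_lit 31) (.e (nat_lit 474880) (nat_lit 3) .nil))))) (.g (nat_lit 4) .nil .nil))) 
(.lf (nat_lit 224749) (.g (nat_lit 2501) (.e (nat_lit 98341) (nat_lit 20) (.e (nat_lit 221194) (nat_lit 11) (.e (nat_lit 336003) (nat_lit 2) (.e (nat_lit 90185) (nat_lit 17) (.e (nat_lit 237605) (nat_lit 9) (.e (nat_lit 426437) (nat_lit 18) .nil)))))) (.g (nat_lit 4) .nil .nil)))) (.nd (nat_lit 5) 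
(.lf (nat_lit 224733) (.g (nat_lit 2355) (.e (nat_lit 98341) (nat_lit 20) (.e (nat_lit 221193) (nat_lit 11) (.e (nat_lit 336027) (nat_lit 3) (.e (nat_lit 98365) (nat_lit 26) (.e (nat_lit 426187) (nat_lit 9) (.e (nat_lit 426437) (nat_lit 18) .nil)))))) (.g (nat_lit 5) .nil .nil))) 
(.lf (nat_lit 224765) (.g (nat_lit 1814) (.e (nat_lit 98341) (nat_lit 20) (.e (nat_lit 221194) (nat_lit 11) (.e (nat_lit 336010) (nat_lit 2) (.e (nat_lit 90178) (nat_lit 15) (.e (nat_lit 196352) (nat_lit 3) .nil))))) (.g (nat_lit 4) .nil .nil))))))) (.nd (nat_lit 2) (.nd (nat_lit 3) (.nd (nat_lit 4) (.nd (nat_lit 5) 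
(.lf (nat_lit 224707) (.g (nat_lit 1363) (.e (nat_lit 98341) (nat_lit 20) (.e (nat_lit 221193) (nat_lit 11) (.e (nat_lit 336025) (nat_lit 3) (.e (nat_lit 98365) (nat_lit 26) (.e (nat_lit 426187) (nat_lit 9) (.e (nat_lit 426434) (nat_lit 18) .nil)))))) (.g (nat_lit 4) .nil .nil))) 
(.lf (nat_lit 224739) (.g (nat_lit 1791) (.e (nat_lit 98341) (nat_lit 20) (.e (nat_lit 221193) (nat_lit 11) (.e (nat_lit 336027) (nat_lit 3) (.e (nat_lit 98370) (nat_lit 28) (.e (nat_lit 450304) (nat_lit 3) .nil))))) (.g (nat_lit 4) .nil .nil)))) (.nd (nat_lit 5) 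
(.lf (nat_lit 224723) (.g (nat_lit 2262) (.e (nat_lit 98341) (nat_lit 20) (.e (nat_lit 221193) (nat_lit 11) (.e (nat_lit 336026) (nat_lit 3) (.e (nat_lit 98365) (nat_lit 26) (.e (nat_lit 426188) (nat_lit 9) (.e (nat_lit 426437) (nat_lit 18) .nil)))))) (.g (nat_lit 5) .nil .nil))) 
(.lf (nat_lit 224755) (.g (nat_lit 2293) (.e (nat_lit 98341) (nat_lit 20) (.e (nat_lit 221194) (nat_lit 11) (.e (nat_lit 336010) (nat_lit 2) (.e (nat_lit 90170) (nat_lit 13) (.e (nat_lit 172085) (nat_lit 9) (.e (nat_lit 426438) (nat_lit 18) .nil)))))) (.g (nat_lit 4) .nil .nil))))) (.nd (nat_lit 4) (.nd (nat_lit 5) 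
(.lf (nat_lit 224715) (.g (nat_lit 613) (.e (nat_lit 98341) (nat_lit 20) (.e (nat_lit 221193) (nat_lit 11) (.e (nat_lit 336025) (nat_lit 3) (.e (nat_lit 98371) (nat_lit 28) .nil)))) .nil)) 
(.lf (nat_lit 224747) (.g (nat_lit 694) (.e (nat_lit 98341) (nat_lit 20) (.e (nat_lit 221194) (nat_lit 11) (.e (nat_lit 336003) (nat_lit 2) .nil))) .nil))) (.nd (nat_lit 5) 
(.lf (nat_lit 224731) (.g (nat_lit 1994) (.e (nat_lit 98341) (nat_lit 20) (.e (nat_lit 221193) (nat_lit 11) (.e (nat_lit 336027) (nat_lit 3) (.e (nat_lit 98365) (nat_lit 26) (.e (nat_lit 426186) (nat_lit 9) (.e (nat_lit 426436) (nat_lit 18) .nil)))))) (.g (nat_lit 4) .nil .nil))) 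
(.lf (nat_lit 224763) (.g (nat_lit 1952) (.e (nat_lit 98341) (nat_lit 20) (.e (nat_lit 221194) (nat_lit 11) (.e (nat_lit 336010) (nat_lit 2) (.e (nat_lit 90174) (nat_lit 14) (.e (nat_lit 188160) (nat_lit 40) (.e (nat_lit 112) (nat_lit 3) .nil)))))) (.g (nat_lit 4) .nil .nil)))))) (.nd (nat_lit 3) (.nd (nat_lit 4) (.nd (nat_lit 5) 
(.lf (nat_lit 224711) (.g (nat_lit 2447) (.e (nat_lit 98341) (nat_lit 20) (.e (nat_lit 221193) (nat_lit 11) (.e (nat_lit 336025) (nat_lit 3) (.e (nat_lit 98365) (nat_lit 26) (.e (nat_lit 426188) (nat_lit 9) (.e (nat_lit 426438) (nat_lit 18) .nil)))))) (.g (nat_lit 5) .nil .nil))) 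
(.lf (nat_lit 224743) (.g (nat_lit 374) (.e (nat_lit 98341) (nat_lit 20) (.e (nat_lit 221194) (nat_lit 11) (.e (nat_lit 336002) (nat_lit 2) .nil))) .nil))) (.nd (nat_lit 5) 
(.lf (nat_lit 224727) (.g (nat_lit 1301) (.e (nat_lit 98341) (nat_lit 20) (.e (nat_lit 221193) (nat_lit 11) (.e (nat_lit 336026) (nat_lit 3) (.e (nat_lit 98381) (nat_lit 31) (.e (nat_lit 474880) (nat_lit 3) .nil))))) (.g (nat_lit 4) .nil .nil))) 
(.lf (nat_lit 224759) (.g (nat_lit 3196) (.e (nat_lit 98341) (nat_lit 20) (.e (nat_lit 221194) (nat_lit 11) (.e (nat_lit 336010) (nat_lit 2) (.e (nat_lit 90170) (nat_lit 13) (.e (nat_lit 172095) (nat_lit 9) (.e (nat_lit 433920) (nat_lit 18) .nil)))))) (.g (nat_lit 5) .nil .nil))))) (.nd (nat_lit 4) (.nd (nat_lit 5) 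
(.lf (nat_lit 224719) (.g (nat_lit 1627) (.e (nat_lit 98341) (nat_lit 20) (.e (nat_lit 221193) (nat_lit 11) (.e (nat_lit 336026) (nat_lit 3) (.e (nat_lit 98363) (nat_lit 26) (.e (nat_lit 426228) (nat_lit 9) (.e (nat_lit 426435) (nat_lit 18) .nil)))))) (.g (nat_lit 0) .nil .nil))) 
(.lf (nat_lit 224751) (.g (nat_lit 2037) (.e (nat_lit 98341) (nat_lit 20) (.e (nat_lit 221194) (nat_lit 11) (.e (nat_lit 336004) (nat_lit 2) (.e (nat_lit 90176) (nat_lit 15) (.e (nat_lit 196352) (nat_lit 3) .nil))))) (.g (nat_lit 4) .nil .nil)))) (.nd (nat_lit 5) 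
(.lf (nat_lit 224735) (.g (nat_lit 2757) (.e (nat_lit 98341) (nat_lit 20) (.e (nat_lit 221193) (nat_lit 11) (.e (nat_lit 336027) (nat_lit 3) (.e (nat_lit 98365) (nat_lit 26) (.e (nat_lit 426188) (nat_lit 9) (.e (nat_lit 426437) (nat_lit 18) .nil)))))) (.g (nat_lit 5) .nil .nil))) 
(.lf (nat_lit 224767) (.g (nat_lit 2537) (.e (nat_lit 98341) (nat_lit 20) (.e (nat_lit 221194) (nat_lit 11) (.e (nat_lit 336010) (nat_lit 2) (.e (nat_lit 90185) (nat_lit 17) (.e (nat_lit 237605) (nat_lit 9) (.e (nat_lit 426438) (nat_lit 18) .nil)))))) (.g (nat_lit 0) .nil .nil)))))))))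

noncomputable def tv2945 : DT := (.nd (nat_lit 0) (.nd (nat_lit 1) (.nd (nat_lit 2) (.nd (nat_lit 3) (.nd (nat_lit 4) (.nd (nat_lit 5) 
(.lf (nat_lit 224768) (.g (nat_lit 1740) (.e (nat_lit 98341) (nat_lit 20) (.e (nat_lit 221194) (nat_lit 11) (.e (nat_lit 336011) (nat_lit 2) (.e (nat_lit 90166) (nat_lit 13) .nil)))) .nil)) 
(.lf (nat_lit 224800) (.g (nat_lit 2763) (.e (nat_lit 98341) (nat_lit 20) (.e (nat_lit 221194) (nat_lit 11) (.e (nat_lit 336021) (nat_lit 3) (.e (nat_lit 98365) (nat_lit 26) (.e (nat_lit 426187) (nat_lit 9) (.e (nat_lit 426434) (nat_lit 18) .nil)))))) (.g (nat_lit 0) .nil .nil)))) (.nd (nat_lit 5) 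
(.lf (nat_lit 224784) (.g (nat_lit 3478) (.e (nat_lit 98341) (nat_lit 20) (.e (nat_lit 221194) (nat_lit 11) (.e (nat_lit 336011) (nat_lit 2) (.e (nat_lit 90185) (nat_lit 17) (.e (nat_lit 237605) (nat_lit 9) (.e (nat_lit 426437) (nat_lit 18) .nil)))))) (.g (nat_lit 4) .nil .nil))) 
(.lf (nat_lit 224816) (.g (nat_lit 2816) (.e (nat_lit 98341) (nat_lit 20) (.e (nat_lit 221194) (nat_lit 11) (.e (nat_lit 336025) (nat_lit 3) (.e (nat_lit 98365) (nat_lit 26) (.e (nat_lit 426188) (nat_lit 9) (.e (nat_lit 426438) (nat_lit 18) .nil)))))) (.g (nat_lit 5) .nil .nil))))) (.nd (nat_lit 4) (.nd (nat_lit 5) 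
(.lf (nat_lit 224776) (.g (nat_lit 1740) (.e (nat_lit 98341) (nat_lit 20) (.e (nat_lit 221194) (nat_lit 11) (.e (nat_lit 336011) (nat_lit 2) (.e (nat_lit 90171) (nat_lit 14) .nil)))) .nil)) 
(.lf (nat_lit 224808) (.g (nat_lit 1610) (.e (nat_lit 98341) (nat_lit 20) (.e (nat_lit 221194) (nat_lit 11) (.e (nat_lit 336021) (nat_lit 3) (.e (nat_lit 98369) (nat_lit 28) .nil)))) .nil))) (.nd (nat_lit 5) 
(.lf (nat_lit 224792) (.g (nat_lit 2400) (.e (nat_lit 98341) (nat_lit 20) (.e (nat_lit 221194) (nat_lit 11) (.e (nat_lit 336012) (nat_lit 2) (.e (nat_lit 90185) (nat_lit 17) (.e (nat_lit 237600) (nat_lit 9) .nil))))) .nil)) 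
(.lf (nat_lit 224824) (.g (nat_lit 2799) (.e (nat_lit 98341) (nat_lit 20) (.e (nat_lit 221194) (nat_lit 11) (.e (nat_lit 336026) (nat_lit 3) (.e (nat_lit 98358) (nat_lit 26) (.e (nat_lit 426227) (nat_lit 9) (.e (nat_lit 426437) (nat_lit 18) .nil)))))) (.g (nat_lit 6) .nil .nil)))))) (.nd (nat_lit 3) (.nd (nat_lit 4) (.nd (nat_lit 5) 
(.lf (nat_lit 224772) (.g (nat_lit 3973) (.e (nat_lit 98341) (nat_lit 20) (.e (nat_lit 221194) (nat_lit 11) (.e (nat_lit 336011) (nat_lit 2) (.e (nat_lit 90170) (nat_lit 13) (.e (nat_lit 172087) (nat_lit 9) (.e (nat_lit 426437) (nat_lit 18) .nil)))))) (.g (nat_lit 4) .nil .nil))) 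
(.lf (nat_lit 224804) (.g (nat_lit 3541) (.e (nat_lit 98341) (nat_lit 20) (.e (nat_lit 221194) (nat_lit 11) (.e (nat_lit 336021) (nat_lit 3) (.e (nat_lit 98365) (nat_lit 26) (.e (nat_lit 426188) (nat_lit 9) (.e (nat_lit 426437) (nat_lit 18) .nil)))))) (.g (nat_lit 0) .nil .nil)))) (.nd (nat_lit 5) 
(.lf (nat_lit 224788) (.g (nat_lit 3535) (.e (nat_lit 98341) (nat_lit 20) (.e (nat_lit 221194) (nat_lit 11) (.e (nat_lit 336012) (nat_lit 2) (.e (nat_lit 90172) (nat_lit 14) (.e (nat_lit 188160) (nat_lit 40) (.e (nat_lit 112) (nat_lit 3) .nil)))))) (.g (nat_lit 4) .nil .nil))) 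
(.lf (nat_lit 224820) (.g (nat_lit 421) (.e (nat_lit 98341) (nat_lit 20) (.e (nat_lit 221194) (nat_lit 11) (.e (nat_lit 336026) (nat_lit 3) .nil))) .nil)))) (.nd (nat_lit 4) (.nd (nat_lit 5) 
(.lf (nat_lit 224780) (.g (nat_lit 3206) (.e (nat_lit 98341) (nat_lit 20) (.e (nat_lit 221194) (nat_lit 11) (.e (nat_lit 336011) (nat_lit 2) (.e (nat_lit 90185) (nat_lit 17) (.e (nat_lit 237601) (nat_lit 9) (.e (nat_lit 426437) (nat_lit 18) .nil)))))) (.g (nat_lit 4) .nil .nil))) 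
(.lf (nat_lit 224812) (.g (nat_lit 2026) (.e (nat_lit 98341) (nat_lit 20) (.e (nat_lit 221194) (nat_lit 11) (.e (nat_lit 336025) (nat_lit 3) (.e (nat_lit 98365) (nat_lit 26) (.e (nat_lit 426187) (nat_lit 9) (.e (nat_lit 426437) (nat_lit 18) .nil)))))) (.g (nat_lit 4) .nil .nil)))) (.nd (nat_lit 5) 
(.lf (nat_lit 224796) (.g (nat_lit 2365) (.e (nat_lit 98341) (nat_lit 20) (.e (nat_lit 221194) (nat_lit 11) (.e (nat_lit 336020) (nat_lit 3) (.e (nat_lit 98365) (nat_lit 26) (.e (nat_lit 426188) (nat_lit 9) (.e (nat_lit 426436) (nat_lit 18) .nil)))))) (.g (nat_lit 4) .nil .nil))) 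
(.lf (nat_lit 224828) (.g (nat_lit 2745) (.e (nat_lit 98341) (nat_lit 20) (.e (nat_lit 221194) (nat_lit 11) (.e (nat_lit 336026) (nat_lit 3) (.e (nat_lit 98365) (nat_lit 26) (.e (nat_lit 426187) (nat_lit 9) (.e (nat_lit 426438) (nat_lit 18) .nil)))))) (.g (nat_lit 0) .nil .nil))))))) (.nd (nat_lit 2) (.nd (nat_lit 3) (.nd (nat_lit 4) (.nd (nat_lit 5) 
(.lf (nat_lit 224770) (.g (nat_lit 3975) (.e (nat_lit 98341) (nat_lit 20) (.e (nat_lit 221194) (nat_lit 11) (.e (nat_lit 336011) (nat_lit 2) (.e (nat_lit 90170) (nat_lit 13) (.e (nat_lit 172085) (nat_lit 9) (.e (nat_lit 426438) (nat_lit 18) .nil)))))) (.g (nat_lit 4) .nil .nil))) 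
(.lf (nat_lit 224802) (.g (nat_lit 3059) (.e (nat_lit 98341) (nat_lit 20) (.e (nat_lit 221194) (nat_lit 11) (.e (nat_lit 336021) (nat_lit 3) (.e (nat_lit 98365) (nat_lit 26) (.e (nat_lit 426187) (nat_lit 9) (.e (nat_lit 426438) (nat_lit 18) .nil)))))) (.g (nat_lit 0) .nil .nil)))) (.nd (nat_lit 5) 
(.lf (nat_lit 224786) (.g (nat_lit 2643) (.e (nat_lit 98341) (nat_lit 20) (.e (nat_lit 221194) (nat_lit 11) (.e (nat_lit 336012) (nat_lit 2) (.e (nat_lit 90172) (nat_lit 14) (.e (nat_lit 188160) (nat_lit 40) .nil))))) .nil)) 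
(.lf (nat_lit 224818) (.g (nat_lit 2637) (.e (nat_lit 98341) (nat_lit 20) (.e (nat_lit 221194) (nat_lit 11) (.e (nat_lit 336025) (nat_lit 3) (.e (nat_lit 98365) (nat_lit 26) (.e (nat_lit 426190) (nat_lit 9) (.e (nat_lit 426436) (nat_lit 18) .nil)))))) (.g (nat_lit 4) .nil .nil))))) (.nd (nat_lit 4) (.nd (nat_lit 5) 
(.lf (nat_lit 224778) (.g (nat_lit 2671) (.e (nat_lit 98341) (nat_lit 20) (.e (nat_lit 221194) (nat_lit 11) (.e (nat_lit 336011) (nat_lit 2) (.e (nat_lit 90174) (nat_lit 14) (.e (nat_lit 188160) (nat_lit 40) .nil))))) .nil)) 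
(.lf (nat_lit 224810) (.g (nat_lit 1956) (.e (nat_lit 98341) (nat_lit 20) (.e (nat_lit 221194) (nat_lit 11) (.e (nat_lit 336021) (nat_lit 3) (.e (nat_lit 98381) (nat_lit 31) .nil)))) .nil))) (.nd (nat_lit 5) 
(.lf (nat_lit 224794) (.g (nat_lit 3314) (.e (nat_lit 98341) (nat_lit 20) (.e (nat_lit 221194) (nat_lit 11) (.e (nat_lit 336012) (nat_lit 2) (.e (nat_lit 90185) (nat_lit 17) (.e (nat_lit 237603) (nat_lit 9) (.e (nat_lit 426436) (nat_lit 18) .nil)))))) (.g (nat_lit 4) .nil .nil))) 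
(.lf (nat_lit 224826) (.g (nat_lit 2281) (.e (nat_lit 98341) (nat_lit 20) (.e (nat_lit 221194) (nat_lit 11) (.e (nat_lit 336026) (nat_lit 3) (.e (nat_lit 98365) (nat_lit 26) (.e (nat_lit 426187) (nat_lit 9) (.e (nat_lit 426434) (nat_lit 18) .nil)))))) (.g (nat_lit 5) .nil .nil)))))) (.nd (nat_lit 3) (.nd (nat_lit 4) (.nd (nat_lit 5) 
(.lf (nat_lit 224774) (.g (nat_lit 3655) (.e (nat_lit 98341) (nat_lit 20) (.e (nat_lit 221194) (nat_lit 11) (.e (nat_lit 336011) (nat_lit 2) (.e (nat_lit 90170) (nat_lit 13) (.e (nat_lit 172092) (nat_lit 9) .nil))))) .nil)) 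
(.lf (nat_lit 224806) (.g (nat_lit 2714) (.e (nat_lit 98341) (nat_lit 20) (.e (nat_lit 221194) (nat_lit 11) (.e (nat_lit 336021) (nat_lit 3) (.e (nat_lit 98365) (nat_lit 26) (.e (nat_lit 426198) (nat_lit 9) (.e (nat_lit 426436) (nat_lit 18) .nil)))))) (.g (nat_lit 5) .nil .nil)))) (.nd (nat_lit 5) 
(.lf (nat_lit 224790) (.g (nat_lit 2223) (.e (nat_lit 98341) (nat_lit 20) (.e (nat_lit 221194) (nat_lit 11) (.e (nat_lit 336012) (nat_lit 2) (.e (nat_lit 90176) (nat_lit 15) (.e (nat_lit 196352) (nat_lit 3) .nil))))) (.g (nat_lit 4) .nil .nil))) 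
(.lf (nat_lit 224822) (.g (nat_lit 2209) (.e (nat_lit 98341) (nat_lit 20) (.e (nat_lit 221194) (nat_lit 11) (.e (nat_lit 336026) (nat_lit 3) (.e (nat_lit 98358) (nat_lit 26) (.e (nat_lit 426226) (nat_lit 9) (.e (nat_lit 426437) (nat_lit 18) .nil)))))) (.g (nat_lit 4) .nil .nil))))) (.nd (nat_lit 4) (.nd (nat_lit 5) 
(.lf (nat_lit 224782) (.g (nat_lit 2722) (.e (nat_lit 98341) (nat_lit 20) (.e (nat_lit 221194) (nat_lit 11) (.e (nat_lit 336011) (nat_lit 2) (.e (nat_lit 90185) (nat_lit 17) (.e (nat_lit 237604) (nat_lit 9) .nil))))) .nil)) 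
(.lf (nat_lit 224814) (.g (nat_lit 2311) (.e (nat_lit 98341) (nat_lit 20) (.e (nat_lit 221194) (nat_lit 11) (.e (nat_lit 336025) (nat_lit 3) (.e (nat_lit 98365) (nat_lit 26) (.e (nat_lit 426188) (nat_lit 9) (.e (nat_lit 426434) (nat_lit 18) .nil)))))) (.g (nat_lit 4) .nil .nil)))) (.nd (nat_lit 5) 
(.lf (nat_lit 224798) (.g (nat_lit 2276) (.e (nat_lit 98341) (nat_lit 20) (.e (nat_lit 221194) (nat_lit 11) (.e (nat_lit 336020) (nat_lit 3) (.e (nat_lit 98370) (nat_lit 28) (.e (nat_lit 450304) (nat_lit 3) .nil))))) (.g (nat_lit 4) .nil .nil))) 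
(.lf (nat_lit 224830) (.g (nat_lit 3058) (.e (nat_lit 98341) (nat_lit 20) (.e (nat_lit 221194) (nat_lit 11) (.e (nat_lit 336026) (nat_lit 3) (.e (nat_lit 98365) (nat_lit 26) (.e (nat_lit 426188) (nat_lit 9) (.e (nat_lit 426437) (nat_lit 18) .nil)))))) (.g (nat_lit 6) .nil .nil)))))))) (.nd (nat_lit 1) (.nd (nat_lit 2) (.nd (nat_lit 3) (.nd (nat_lit 4) (.nd (nat_lit 5) 
(.lf (nat_lit 224769) (.g (nat_lit 1740) (.e (nat_lit 98341) (nat_lit 20) (.e (nat_lit 221194) (nat_lit 11) (.e (nat_lit 336011) (nat_lit 2) (.e (nat_lit 90167) (nat_lit 13) .nil)))) .nil)) 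
(.lf (nat_lit 224801) (.g (nat_lit 3077) (.e (nat_lit 98341) (nat_lit 20) (.e (nat_lit 221194) (nat_lit 11) (.e (nat_lit 336021) (nat_lit 3) (.e (nat_lit 98365) (nat_lit 26) (.e (nat_lit 426187) (nat_lit 9) (.e (nat_lit 426437) (nat_lit 18) .nil)))))) (.g (nat_lit 0) .nil .nil)))) (.nd (nat_lit 5) 
(.lf (nat_lit 224785) (.g (nat_lit 2117) (.e (nat_lit 98341) (nat_lit 20) (.e (nat_lit 221194) (nat_lit 11) (.e (nat_lit 336012) (nat_lit 2) (.e (nat_lit 90169) (nat_lit 13) (.e (nat_lit 172086) (nat_lit 9) .nil))))) .nil)) 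
(.lf (nat_lit 224817) (.g (nat_lit 2809) (.e (nat_lit 98341) (nat_lit 20) (.e (nat_lit 221194) (nat_lit 11) (.e (nat_lit 336025) (nat_lit 3) (.e (nat_lit 98365) (nat_lit 26) (.e (nat_lit 426189) (nat_lit 9) (.e (nat_lit 426436) (nat_lit 18) .nil)))))) (.g (nat_lit 5) .nil .nil))))) (.nd (nat_lit 4) (.nd (nat_lit 5) 
(.lf (nat_lit 224777) (.g (nat_lit 2717) (.e (nat_lit 98341) (nat_lit 20) (.e (nat_lit 221194) (nat_lit 11) (.e (nat_lit 336011) (nat_lit 2) (.e (nat_lit 90172) (nat_lit 14) (.e (nat_lit 188160) (nat_lit 40) .nil))))) .nil)) 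
(.lf (nat_lit 224809) (.g (nat_lit 1819) (.e (nat_lit 98341) (nat_lit 20) (.e (nat_lit 221194) (nat_lit 11) (.e (nat_lit 336021) (nat_lit 3) (.e (nat_lit 98371) (nat_lit 28) .nil)))) .nil))) (.nd (nat_lit 5) 
(.lf (nat_lit 224793) (.g (nat_lit 2464) (.e (nat_lit 98341) (nat_lit 20) (.e (nat_lit 221194) (nat_lit 11) (.e (nat_lit 336012) (nat_lit 2) (.e (nat_lit 90185) (nat_lit 17) (.e (nat_lit 237601) (nat_lit 9) (.e (nat_lit 426437) (nat_lit 18) .nil)))))) (.g (nat_lit 4) .nil .nil))) 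
(.lf (nat_lit 224825) (.g (nat_lit 3068) (.e (nat_lit 98341) (nat_lit 20) (.e (nat_lit 221194) (nat_lit 11) (.e (nat_lit 336026) (nat_lit 3) (.e (nat_lit 98358) (nat_lit 26) (.e (nat_lit 426227) (nat_lit 9) (.e (nat_lit 426438) (nat_lit 18) .nil)))))) (.g (nat_lit 0) .nil .nil)))))) (.nd (nat_lit 3) (.nd (nat_lit 4) (.nd (nat_lit 5) 
(.lf (nat_lit 224773) (.g (nat_lit 3458) (.e (nat_lit 98341) (nat_lit 20) (.e (nat_lit 221194) (nat_lit 11) (.e (nat_lit 336011) (nat_lit 2) (.e (nat_lit 90170) (nat_lit 13) (.e (nat_lit 172088) (nat_lit 9) (.e (nat_lit 433920) (nat_lit 18) .nil)))))) (.g (nat_lit 4) .nil .nil))) 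
(.lf (nat_lit 224805) (.g (nat_lit 3611) (.e (nat_lit 98341) (nat_lit 20) (.e (nat_lit 221194) (nat_lit 11) (.e (nat_lit 336021) (nat_lit 3) (.e (nat_lit 98365) (nat_lit 26) (.e (nat_lit 426188) (nat_lit 9) (.e (nat_lit 426438) (nat_lit 18) .nil)))))) (.g (nat_lit 0) .nil .nil)))) (.nd (nat_lit 5) 
(.lf (nat_lit 224789) (.g (nat_lit 2664) (.e (nat_lit 98341) (nat_lit 20) (.e (nat_lit 221194) (nat_lit 11) (.e (nat_lit 336012) (nat_lit 2) (.e (nat_lit 90174) (nat_lit 14) (.e (nat_lit 188160) (nat_lit 40) .nil))))) .nil)) 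
(.lf (nat_lit 224821) (.g (nat_lit 2308) (.e (nat_lit 98341) (nat_lit 20) (.e (nat_lit 221194) (nat_lit 11) (.e (nat_lit 336026) (nat_lit 3) (.e (nat_lit 98356) (nat_lit 26) (.e (nat_lit 433920) (nat_lit 9) (.e (nat_lit 426436) (nat_lit 18) .nil)))))) (.g (nat_lit 4) .nil .nil))))) (.nd (nat_lit 4) (.nd (nat_lit 5) 
(.lf (nat_lit 224781) (.g (nat_lit 3310) (.e (nat_lit 98341) (nat_lit 20) (.e (nat_lit 221194) (nat_lit 11) (.e (nat_lit 336011) (nat_lit 2) (.e (nat_lit 90185) (nat_lit 17) (.e (nat_lit 237603) (nat_lit 9) .nil))))) .nil)) 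
(.lf (nat_lit 224813) (.g (nat_lit 2140) (.e (nat_lit 98341) (nat_lit 20) (.e (nat_lit 221194) (nat_lit 11) (.e (nat_lit 336025) (nat_lit 3) (.e (nat_lit 98365) (nat_lit 26) (.e (nat_lit 426187) (nat_lit 9) (.e (nat_lit 426438) (nat_lit 18) .nil)))))) (.g (nat_lit 4) .nil .nil)))) (.nd (nat_lit 5) 
(.lf (nat_lit 224797) (.g (nat_lit 2358) (.e (nat_lit 98341) (nat_lit 20) (.e (nat_lit 221194) (nat_lit 11) (.e (nat_lit 336020) (nat_lit 3) (.e (nat_lit 98365) (nat_lit 26) (.e (nat_lit 426188) (nat_lit 9) (.e (nat_lit 426438) (nat_lit 18) .nil)))))) (.g (nat_lit 4) .nil .nil))) 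
(.lf (nat_lit 224829) (.g (nat_lit 2844) (.e (nat_lit 98341) (nat_lit 20) (.e (nat_lit 221194) (nat_lit 11) (.e (nat_lit 336026) (nat_lit 3) (.e (nat_lit 98365) (nat_lit 26) (.e (nat_lit 426188) (nat_lit 9) (.e (nat_lit 426434) (nat_lit 18) .nil)))))) (.g (nat_lit 5) .nil .nil))))))) (.nd (nat_lit 2) (.nd (nat_lit 3) (.nd (nat_lit 4) (.nd (nat_lit 5) 
(.lf (nat_lit 224771) (.g (nat_lit 3699) (.e (nat_lit 98341) (nat_lit 20) (.e (nat_lit 221194) (nat_lit 11) (.e (nat_lit 336011) (nat_lit 2) (.e (nat_lit 90170) (nat_lit 13) (.e (nat_lit 172086) (nat_lit 9) .nil))))) .nil)) 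
(.lf (nat_lit 224803) (.g (nat_lit 3318) (.e (nat_lit 98341) (nat_lit 20) (.e (nat_lit 221194) (nat_lit 11) (.e (nat_lit 336021) (nat_lit 3) (.e (nat_lit 98365) (nat_lit 26) (.e (nat_lit 426188) (nat_lit 9) (.e (nat_lit 426434) (nat_lit 18) .nil)))))) (.g (nat_lit 0) .nil .nil)))) (.nd (nat_lit 5) 
(.lf (nat_lit 224787) (.g (nat_lit 3374) (.e (nat_lit 98341) (nat_lit 20) (.e (nat_lit 221194) (nat_lit 11) (.e (nat_lit 336012) (nat_lit 2) (.e (nat_lit 90172) (nat_lit 14) (.e (nat_lit 188160) (nat_lit 40) (.e (nat_lit 110) (nat_lit 3) .nil)))))) (.g (nat_lit 4) .nil .nil))) 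
(.lf (nat_lit 224819) (.g (nat_lit 3085) (.e (nat_lit 98341) (nat_lit 20) (.e (nat_lit 221194) (nat_lit 11) (.e (nat_lit 336025) (nat_lit 3) (.e (nat_lit 98365) (nat_lit 26) (.e (nat_lit 426200) (nat_lit 9) (.e (nat_lit 426436) (nat_lit 18) .nil)))))) (.g (nat_lit 5) .nil .nil))))) (.nd (nat_lit 4) (.nd (nat_lit 5) 
(.lf (nat_lit 224779) (.g (nat_lit 2664) (.e (nat_lit 98341) (nat_lit 20) (.e (nat_lit 221194) (nat_lit 11) (.e (nat_lit 336011) (nat_lit 2) (.e (nat_lit 90185) (nat_lit 17) (.e (nat_lit 237601) (nat_lit 9) .nil))))) .nil)) 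
(.lf (nat_lit 224811) (.g (nat_lit 1703) (.e (nat_lit 98341) (nat_lit 20) (.e (nat_lit 221194) (nat_lit 11) (.e (nat_lit 336021) (nat_lit 3) (.e (nat_lit 98382) (nat_lit 31) .nil)))) .nil))) (.nd (nat_lit 5) 
(.lf (nat_lit 224795) (.g (nat_lit 3364) (.e (nat_lit 98341) (nat_lit 20) (.e (nat_lit 221194) (nat_lit 11) (.e (nat_lit 336012) (nat_lit 2) (.e (nat_lit 90185) (nat_lit 17) (.e (nat_lit 237605) (nat_lit 9) (.e (nat_lit 426438) (nat_lit 18) .nil)))))) (.g (nat_lit 0) .nil .nil))) 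
(.lf (nat_lit 224827) (.g (nat_lit 2617) (.e (nat_lit 98341) (nat_lit 20) (.e (nat_lit 221194) (nat_lit 11) (.e (nat_lit 336026) (nat_lit 3) (.e (nat_lit 98365) (nat_lit 26) (.e (nat_lit 426187) (nat_lit 9) (.e (nat_lit 426437) (nat_lit 18) .nil)))))) (.g (nat_lit 6) .nil .nil)))))) (.nd (nat_lit 3) (.nd (nat_lit 4) (.nd (nat_lit 5) 
(.lf (nat_lit 224775) (.g (nat_lit 4646) (.e (nat_lit 98341) (nat_lit 20) (.e (nat_lit 221194) (nat_lit 11) (.e (nat_lit 336011) (nat_lit 2) (.e (nat_lit 90170) (nat_lit 13) (.e (nat_lit 172095) (nat_lit 9) (.e (nat_lit 433920) (nat_lit 18) .nil)))))) (.g (nat_lit 5) .nil .nil))) 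
(.lf (nat_lit 224807) (.g (nat_lit 4024) (.e (nat_lit 98341) (nat_lit 20) (.e (nat_lit 221194) (nat_lit 11) (.e (nat_lit 336021) (nat_lit 3) (.e (nat_lit 98365) (nat_lit 26) (.e (nat_lit 426200) (nat_lit 9) (.e (nat_lit 426436) (nat_lit 18) .nil)))))) (.g (nat_lit 0) .nil .nil)))) (.nd (nat_lit 5) 
(.lf (nat_lit 224791) (.g (nat_lit 2397) (.e (nat_lit 98341) (nat_lit 20) (.e (nat_lit 221194) (nat_lit 11) (.e (nat_lit 336012) (nat_lit 2) (.e (nat_lit 90178) (nat_lit 15) (.e (nat_lit 196352) (nat_lit 3) .nil))))) (.g (nat_lit 4) .nil .nil))) 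
(.lf (nat_lit 224823) (.g (nat_lit 2161) (.e (nat_lit 98341) (nat_lit 20) (.e (nat_lit 221194) (nat_lit 11) (.e (nat_lit 336026) (nat_lit 3) (.e (nat_lit 98358) (nat_lit 26) (.e (nat_lit 426226) (nat_lit 9) (.e (nat_lit 426438) (nat_lit 18) .nil)))))) (.g (nat_lit 4) .nil .nil))))) (.nd (nat_lit 4) (.nd (nat_lit 5) 
(.lf (nat_lit 224783) (.g (nat_lit 3944) (.e (nat_lit 98341) (nat_lit 20) (.e (nat_lit 221194) (nat_lit 11) (.e (nat_lit 336011) (nat_lit 2) (.e (nat_lit 90185) (nat_lit 17) (.e (nat_lit 237605) (nat_lit 9) (.e (nat_lit 426434) (nat_lit 18) .nil)))))) (.g (nat_lit 5) .nil .nil))) 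
(.lf (nat_lit 224815) (.g (nat_lit 2553) (.e (nat_lit 98341) (nat_lit 20) (.e (nat_lit 221194) (nat_lit 11) (.e (nat_lit 336025) (nat_lit 3) (.e (nat_lit 98365) (nat_lit 26) (.e (nat_lit 426188) (nat_lit 9) (.e (nat_lit 426437) (nat_lit 18) .nil)))))) (.g (nat_lit 4) .nil .nil)))) (.nd (nat_lit 5) 
(.lf (nat_lit 224799) (.g (nat_lit 1959) (.e (nat_lit 98341) (nat_lit 20) (.e (nat_lit 221194) (nat_lit 11) (.e (nat_lit 336021) (nat_lit 3) (.e (nat_lit 98354) (nat_lit 26) .nil)))) .nil)) 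
(.lf (nat_lit 224831) (.g (nat_lit 3272) (.e (nat_lit 98341) (nat_lit 20) (.e (nat_lit 221194) (nat_lit 11) (.e (nat_lit 336026) (nat_lit 3) (.e (nat_lit 98365) (nat_lit 26) (.e (nat_lit 426188) (nat_lit 9) (.e (nat_lit 426438) (nat_lit 18) .nil)))))) (.g (nat_lit 0) .nil .nil)))))))))

noncomputable def tv2946 : DT := (.nd (nat_lit 0) (.nd (nat_lit 1) (.nd (nat_lit 2) (.nd (nat_lit 3) (.nd (nat_lit 4) (.nd (nat_lit 5) 
(.lf (nat_lit 224832) (.g (nat_lit 2831) (.e (nat_lit 98341) (nat_lit 20) (.e (nat_lit 221194) (nat_lit 11) (.e (nat_lit 336026) (nat_lit 3) (.e (nat_lit 98365) (nat_lit 26) (.e (nat_lit 426198) (nat_lit 9) (.e (nat_lit 426436) (nat_lit 18) .nil)))))) (.g (nat_lit 5) .nil .nil))) 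
(.lf (nat_lit 224864) (.g (nat_lit 1662) (.e (nat_lit 98341) (nat_lit 20) (.e (nat_lit 229120) (nat_lit 11) (.e (nat_lit 336028) (nat_lit 3) (.e (nat_lit 98359) (nat_lit 26) (.e (nat_lit 426185) (nat_lit 9) (.e (nat_lit 426437) (nat_lit 18) .nil)))))) (.g (nat_lit 4) .nil .nil)))) (.nd (nat_lit 5) 
(.lf (nat_lit 224848) (.g (nat_lit 2197) (.e (nat_lit 98341) (nat_lit 20) (.e (nat_lit 221194) (nat_lit 11) (.e (nat_lit 336027) (nat_lit 3) (.e (nat_lit 98369) (nat_lit 28) (.e (nat_lit 450304) (nat_lit 3) .nil))))) (.g (nat_lit 4) .nil .nil))) 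
(.lf (nat_lit 224880) (.g (nat_lit 870) (.e (nat_lit 98341) (nat_lit 20) (.e (nat_lit 229120) (nat_lit 12) (.e (nat_lit 344120) (nat_lit 21) (.e (nat_lit 516176) (nat_lit 14) (.e (nat_lit 474880) (nat_lit 3) .nil))))) (.g (nat_lit 4) .nil .nil))))) (.nd (nat_lit 4) (.nd (nat_lit 5) 
(.lf (nat_lit 224840) (.g (nat_lit 2319) (.e (nat_lit 98341) (nat_lit 20) (.e (nat_lit 221194) (nat_lit 11) (.e (nat_lit 336027) (nat_lit 3) (.e (nat_lit 98363) (nat_lit 26) (.e (nat_lit 426230) (nat_lit 9) (.e (nat_lit 426433) (nat_lit 18) .nil)))))) (.g (nat_lit 4) .nil .nil))) 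
(.lf (nat_lit 224872) (.g (nat_lit 1617) (.e (nat_lit 98341) (nat_lit 20) (.e (nat_lit 229120) (nat_lit 12) (.e (nat_lit 344117) (nat_lit 21) (.e (nat_lit 516174) (nat_lit 14) (.e (nat_lit 474880) (nat_lit 3) .nil))))) (.g (nat_lit 4) .nil .nil)))) (.nd (nat_lit 5) 
(.lf (nat_lit 224856) (.g (nat_lit 3161) (.e (nat_lit 98341) (nat_lit 20) (.e (nat_lit 229120) (nat_lit 11) (.e (nat_lit 336013) (nat_lit 2) (.e (nat_lit 90170) (nat_lit 13) (.e (nat_lit 172095) (nat_lit 9) (.e (nat_lit 433920) (nat_lit 18) .nil)))))) (.g (nat_lit 5) .nil .nil))) 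
(.lf (nat_lit 224888) (.g (nat_lit 1914) (.e (nat_lit 98341) (nat_lit 20) (.e (nat_lit 221210) (nat_lit 22) (.e (nat_lit 196666) (nat_lit 13) (.e (nat_lit 65566) (nat_lit 2) .nil)))) .nil))))) (.nd (nat_lit 3) (.nd (nat_lit 4) (.nd (nat_lit 5) 
(.lf (nat_lit 224836) (.g (nat_lit 2149) (.e (nat_lit 98341) (nat_lit 20) (.e (nat_lit 221194) (nat_lit 11) (.e (nat_lit 336026) (nat_lit 3) (.e (nat_lit 98370) (nat_lit 28) (.e (nat_lit 450304) (nat_lit 3) .nil))))) (.g (nat_lit 4) .nil .nil))) 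
(.lf (nat_lit 224868) (.g (nat_lit 2564) (.e (nat_lit 98341) (nat_lit 20) (.e (nat_lit 229120) (nat_lit 12) (.e (nat_lit 344117) (nat_lit 21) (.e (nat_lit 516151) (nat_lit 9) (.e (nat_lit 426195) (nat_lit 9) (.e (nat_lit 426437) (nat_lit 18) .nil)))))) (.g (nat_lit 4) .nil .nil)))) (.nd (nat_lit 5) 
(.lf (nat_lit 224852) (.g (nat_lit 1660) (.e (nat_lit 98341) (nat_lit 20) (.e (nat_lit 229120) (nat_lit 11) (.e (nat_lit 336012) (nat_lit 2) (.e (nat_lit 90185) (nat_lit 17) (.e (nat_lit 237601) (nat_lit 9) (.e (nat_lit 426438) (nat_lit 18) .nil)))))) (.g (nat_lit 4) .nil .nil))) 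
(.lf (nat_lit 224884) (.g (nat_lit 640) (.e (nat_lit 98341) (nat_lit 20) (.e (nat_lit 229120) (nat_lit 15) (.e (nat_lit 368678) (nat_lit 22) (.e (nat_lit 524319) (nat_lit 11) (.e (nat_lit 450304) (nat_lit 3) .nil))))) (.g (nat_lit 4) .nil .nil))))) (.nd (nat_lit 4) (.nd (nat_lit 5) 
(.lf (nat_lit 224844) (.g (nat_lit 3470) (.e (nat_lit 98341) (nat_lit 20) (.e (nat_lit 221194) (nat_lit 11) (.e (nat_lit 336027) (nat_lit 3) (.e (nat_lit 98365) (nat_lit 26) (.e (nat_lit 426188) (nat_lit 9) (.e (nat_lit 426434) (nat_lit 18) .nil)))))) (.g (nat_lit 5) .nil .nil))) 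
(.lf (nat_lit 224876) (.g (nat_lit 1271) (.e (nat_lit 98341) (nat_lit 20) (.e (nat_lit 229120) (nat_lit 12) (.e (nat_lit 344118) (nat_lit 21) (.e (nat_lit 516176) (nat_lit 14) (.e (nat_lit 474880) (nat_lit 3) .nil))))) (.g (nat_lit 4) .nil .nil)))) (.nd (nat_lit 5) 
(.lf (nat_lit 224860) (.g (nat_lit 698) (.e (nat_lit 98341) (nat_lit 20) (.e (nat_lit 229120) (nat_lit 11) (.e (nat_lit 336020) (nat_lit 3) (.e (nat_lit 98381) (nat_lit 31) (.e (nat_lit 474880) (nat_lit 3) .nil))))) (.g (nat_lit 4) .nil .nil))) 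
(.lf (nat_lit 224892) (.g (nat_lit 2056) (.e (nat_lit 98341) (nat_lit 20) (.e (nat_lit 221210) (nat_lit 22) (.e (nat_lit 196666) (nat_lit 13) (.e (nat_lit 65569) (nat_lit 3) (.e (nat_lit 98334) (nat_lit 18) .nil))))) .nil)))))) (.nd (nat_lit 2) (.nd (nat_lit 3) (.nd (nat_lit 4) (.nd (nat_lit 5) 
(.lf (nat_lit 224834) (.g (nat_lit 1774) (.e (nat_lit 98341) (nat_lit 20) (.e (nat_lit 221194) (nat_lit 11) (.e (nat_lit 336026) (nat_lit 3) (.e (nat_lit 98367) (nat_lit 27) (.e (nat_lit 442112) (nat_lit 8) .nil))))) .nil)) 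
(.lf (nat_lit 224866) (.g (nat_lit 1095) (.e (nat_lit 98341) (nat_lit 20) (.e (nat_lit 229120) (nat_lit 11) (.e (nat_lit 336028) (nat_lit 3) (.e (nat_lit 98369) (nat_lit 28) (.e (nat_lit 450304) (nat_lit 3) .nil))))) (.g (nat_lit 4) .nil .nil)))) (.nd (nat_lit 5) 
(.lf (nat_lit 224850) (.g (nat_lit 2282) (.e (nat_lit 98341) (nat_lit 20) (.e (nat_lit 221194) (nat_lit 11) (.e (nat_lit 336027) (nat_lit 3) (.e (nat_lit 98380) (nat_lit 31) (.e (nat_lit 474880) (nat_lit 3) .nil))))) (.g (nat_lit 4) .nil .nil))) 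
(.lf (nat_lit 224882) (.g (nat_lit 1418) (.e (nat_lit 98341) (nat_lit 20) (.e (nat_lit 229120) (nat_lit 15) (.e (nat_lit 368676) (nat_lit 21) (.e (nat_lit 516174) (nat_lit 14) (.e (nat_lit 474880) (nat_lit 3) .nil))))) (.g (nat_lit 4) .nil .nil))))) (.nd (nat_lit 4) (.nd (nat_lit 5) 
(.lf (nat_lit 224842) (.g (nat_lit 3276) (.e (nat_lit 98341) (nat_lit 20) (.e (nat_lit 221194) (nat_lit 11) (.e (nat_lit 336027) (nat_lit 3) (.e (nat_lit 98365) (nat_lit 26) (.e (nat_lit 426187) (nat_lit 9) (.e (nat_lit 426437) (nat_lit 18) .nil)))))) (.g (nat_lit 6) .nil .nil))) 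
(.lf (nat_lit 224874) (.g (nat_lit 1285) (.e (nat_lit 98341) (nat_lit 20) (.e (nat_lit 229120) (nat_lit 12) (.e (nat_lit 344117) (nat_lit 21) (.e (nat_lit 516176) (nat_lit 14) (.e (nat_lit 474880) (nat_lit 3) .nil))))) (.g (nat_lit 4) .nil .nil)))) (.nd (nat_lit 5) 
(.lf (nat_lit 224858) (.g (nat_lit 1175) (.e (nat_lit 98341) (nat_lit 20) (.e (nat_lit 229120) (nat_lit 11) (.e (nat_lit 336019) (nat_lit 3) (.e (nat_lit 98381) (nat_lit 31) (.e (nat_lit 474880) (nat_lit 3) .nil))))) (.g (nat_lit 4) .nil .nil))) 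
(.lf (nat_lit 224890) (.g (nat_lit 1554) (.e (nat_lit 98341) (nat_lit 20) (.e (nat_lit 221210) (nat_lit 22) (.e (nat_lit 196666) (nat_lit 13) (.e (nat_lit 65569) (nat_lit 3) .nil)))) .nil))))) (.nd (nat_lit 3) (.nd (nat_lit 4) (.nd (nat_lit 5) 
(.lf (nat_lit 224838) (.g (nat_lit 1895) (.e (nat_lit 98341) (nat_lit 20) (.e (nat_lit 221194) (nat_lit 11) (.e (nat_lit 336026) (nat_lit 3) (.e (nat_lit 98381) (nat_lit 31) (.e (nat_lit 474880) (nat_lit 3) .nil))))) (.g (nat_lit 4) .nil .nil))) 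
(.lf (nat_lit 224870) (.g (nat_lit 1816) (.e (nat_lit 98341) (nat_lit 20) (.e (nat_lit 229120) (nat_lit 12) (.e (nat_lit 344117) (nat_lit 21) (.e (nat_lit 516163) (nat_lit 11) (.e (nat_lit 450304) (nat_lit 3) .nil))))) (.g (nat_lit 4) .nil .nil)))) (.nd (nat_lit 5) 
(.lf (nat_lit 224854) (.g (nat_lit 3076) (.e (nat_lit 98341) (nat_lit 20) (.e (nat_lit 229120) (nat_lit 11) (.e (nat_lit 336013) (nat_lit 2) (.e (nat_lit 90170) (nat_lit 13) (.e (nat_lit 172088) (nat_lit 9) (.e (nat_lit 433920) (nat_lit 18) .nil)))))) (.g (nat_lit 4) .nil .nil))) 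
(.lf (nat_lit 224886) (.g (nat_lit 543) (.e (nat_lit 98341) (nat_lit 20) (.e (nat_lit 221210) (nat_lit 22) (.e (nat_lit 196665) (nat_lit 13) .nil))) .nil)))) (.nd (nat_lit 4) (.nd (nat_lit 5) 
(.lf (nat_lit 224846) (.g (nat_lit 3957) (.e (nat_lit 98341) (nat_lit 20) (.e (nat_lit 221194) (nat_lit 11) (.e (nat_lit 336027) (nat_lit 3) (.e (nat_lit 98365) (nat_lit 26) (.e (nat_lit 426188) (nat_lit 9) (.e (nat_lit 426438) (nat_lit 18) .nil)))))) (.g (nat_lit 0) .nil .nil))) 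
(.lf (nat_lit 224878) (.g (nat_lit 1076) (.e (nat_lit 98341) (nat_lit 20) (.e (nat_lit 229120) (nat_lit 12) (.e (nat_lit 344119) (nat_lit 21) (.e (nat_lit 516176) (nat_lit 14) (.e (nat_lit 474880) (nat_lit 3) .nil))))) (.g (nat_lit 4) .nil .nil)))) (.nd (nat_lit 5) 
(.lf (nat_lit 224862) (.g (nat_lit 1780) (.e (nat_lit 98341) (nat_lit 20) (.e (nat_lit 229120) (nat_lit 11) (.e (nat_lit 336027) (nat_lit 3) (.e (nat_lit 98363) (nat_lit 26) (.e (nat_lit 426230) (nat_lit 9) (.e (nat_lit 426435) (nat_lit 18) .nil)))))) (.g (nat_lit 5) .nil .nil))) 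
(.lf (nat_lit 224894) (.g (nat_lit 415) (.e (nat_lit 98341) (nat_lit 20) (.e (nat_lit 221210) (nat_lit 22) (.e (nat_lit 196668) (nat_lit 14) .nil))) .nil))))))) (.nd (nat_lit 1) (.nd (nat_lit 2) (.nd (nat_lit 3) (.nd (nat_lit 4) (.nd (nat_lit 5) 
(.lf (nat_lit 224833) (.g (nat_lit 3729) (.e (nat_lit 98341) (nat_lit 20) (.e (nat_lit 221194) (nat_lit 11) (.e (nat_lit 336026) (nat_lit 3) (.e (nat_lit 98365) (nat_lit 26) (.e (nat_lit 426200) (nat_lit 9) (.e (nat_lit 426436) (nat_lit 18) .nil)))))) (.g (nat_lit 0) .nil .nil))) 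
(.lf (nat_lit 224865) (.g (nat_lit 1548) (.e (nat_lit 98341) (nat_lit 20) (.e (nat_lit 229120) (nat_lit 11) (.e (nat_lit 336028) (nat_lit 3) (.e (nat_lit 98359) (nat_lit 26) (.e (nat_lit 426191) (nat_lit 9) (.e (nat_lit 426436) (nat_lit 18) .nil)))))) (.g (nat_lit 4) .nil .nil)))) (.nd (nat_lit 5) 
(.lf (nat_lit 224849) (.g (nat_lit 2484) (.e (nat_lit 98341) (nat_lit 20) (.e (nat_lit 221194) (nat_lit 11) (.e (nat_lit 336027) (nat_lit 3) (.e (nat_lit 98370) (nat_lit 28) (.e (nat_lit 450304) (nat_lit 3) .nil))))) (.g (nat_lit 4) .nil .nil))) 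
(.lf (nat_lit 224881) (.g (nat_lit 1598) (.e (nat_lit 98341) (nat_lit 20) (.e (nat_lit 229120) (nat_lit 15) (.e (nat_lit 368676) (nat_lit 21) (.e (nat_lit 516150) (nat_lit 9) (.e (nat_lit 426227) (nat_lit 9) (.e (nat_lit 426438) (nat_lit 18) .nil)))))) (.g (nat_lit 4) .nil .nil))))) (.nd (nat_lit 4) (.nd (nat_lit 5) 
(.lf (nat_lit 224841) (.g (nat_lit 2923) (.e (nat_lit 98341) (nat_lit 20) (.e (nat_lit 221194) (nat_lit 11) (.e (nat_lit 336027) (nat_lit 3) (.e (nat_lit 98365) (nat_lit 26) (.e (nat_lit 426187) (nat_lit 9) (.e (nat_lit 426434) (nat_lit 18) .nil)))))) (.g (nat_lit 5) .nil .nil))) 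
(.lf (nat_lit 224873) (.g (nat_lit 1437) (.e (nat_lit 98341) (nat_lit 20) (.e (nat_lit 229120) (nat_lit 12) (.e (nat_lit 344117) (nat_lit 21) (.e (nat_lit 516175) (nat_lit 14) (.e (nat_lit 474880) (nat_lit 3) .nil))))) (.g (nat_lit 4) .nil .nil)))) (.nd (nat_lit 5) 
(.lf (nat_lit 224857) (.g (nat_lit 1018) (.e (nat_lit 98341) (nat_lit 20) (.e (nat_lit 229120) (nat_lit 11) (.e (nat_lit 336019) (nat_lit 3) (.e (nat_lit 98380) (nat_lit 31) (.e (nat_lit 474880) (nat_lit 3) .nil))))) (.g (nat_lit 4) .nil .nil))) 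
(.lf (nat_lit 224889) (.g (nat_lit 2331) (.e (nat_lit 98341) (nat_lit 20) (.e (nat_lit 221210) (nat_lit 22) (.e (nat_lit 196666) (nat_lit 13) (.e (nat_lit 65568) (nat_lit 2) (.e (nat_lit 98048) (nat_lit 3) .nil))))) .nil))))) (.nd (nat_lit 3) (.nd (nat_lit 4) (.nd (nat_lit 5) 
(.lf (nat_lit 224837) (.g (nat_lit 1831) (.e (nat_lit 98341) (nat_lit 20) (.e (nat_lit 221194) (nat_lit 11) (.e (nat_lit 336026) (nat_lit 3) (.e (nat_lit 98380) (nat_lit 31) (.e (nat_lit 474880) (nat_lit 3) .nil))))) (.g (nat_lit 4) .nil .nil))) 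
(.lf (nat_lit 224869) (.g (nat_lit 1416) (.e (nat_lit 98341) (nat_lit 20) (.e (nat_lit 229120) (nat_lit 12) (.e (nat_lit 344117) (nat_lit 21) (.e (nat_lit 516162) (nat_lit 11) (.e (nat_lit 450304) (nat_lit 3) .nil))))) (.g (nat_lit 4) .nil .nil)))) (.nd (nat_lit 5) 
(.lf (nat_lit 224853) (.g (nat_lit 1768) (.e (nat_lit 98341) (nat_lit 20) (.e (nat_lit 229120) (nat_lit 11) (.e (nat_lit 336012) (nat_lit 2) (.e (nat_lit 90185) (nat_lit 17) (.e (nat_lit 237605) (nat_lit 9) (.e (nat_lit 426434) (nat_lit 18) .nil)))))) (.g (nat_lit 4) .nil .nil))) 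
(.lf (nat_lit 224885) (.g (nat_lit 2420) (.e (nat_lit 98341) (nat_lit 20) (.e (nat_lit 221207) (nat_lit 21) (.e (nat_lit 164179) (nat_lit 154) (.e (nat_lit 57389) (nat_lit 5) (.e (nat_lit 114711) (nat_lit 21) .nil))))) .nil)))) (.nd (nat_lit 4) (.nd (nat_lit 5) 
(.lf (nat_lit 224845) (.g (nat_lit 3684) (.e (nat_lit 98341) (nat_lit 20) (.e (nat_lit 221194) (nat_lit 11) (.e (nat_lit 336027) (nat_lit 3) (.e (nat_lit 98365) (nat_lit 26) (.e (nat_lit 426188) (nat_lit 9) (.e (nat_lit 426437) (nat_lit 18) .nil)))))) (.g (nat_lit 6) .nil .nil))) 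
(.lf (nat_lit 224877) (.g (nat_lit 1168) (.e (nat_lit 98341) (nat_lit 20) (.e (nat_lit 229120) (nat_lit 12) (.e (nat_lit 344119) (nat_lit 21) (.e (nat_lit 516174) (nat_lit 14) (.e (nat_lit 474880) (nat_lit 3) .nil))))) (.g (nat_lit 4) .nil .nil)))) (.nd (nat_lit 5) 
(.lf (nat_lit 224861) (.g (nat_lit 1711) (.e (nat_lit 98341) (nat_lit 20) (.e (nat_lit 229120) (nat_lit 11) (.e (nat_lit 336027) (nat_lit 3) (.e (nat_lit 98363) (nat_lit 26) (.e (nat_lit 426228) (nat_lit 9) (.e (nat_lit 426435) (nat_lit 18) .nil)))))) (.g (nat_lit 5) .nil .nil))) 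
(.lf (nat_lit 224893) (.g (nat_lit 3128) (.e (nat_lit 98341) (nat_lit 20) (.e (nat_lit 221210) (nat_lit 22) (.e (nat_lit 196666) (nat_lit 13) (.e (nat_lit 65569) (nat_lit 3) (.e (nat_lit 98334) (nat_lit 18) (.e (nat_lit 164159) (nat_lit 152) (.e (nat_lit 1016) (nat_lit 81) (.e (nat_lit 1256) (nat_lit 92) .nil)))))))) (.g (nat_lit 4) .nil .nil))))))) 
(.nd (nat_lit 2) (.nd (nat_lit 3) (.nd (nat_lit 4) (.nd (nat_lit 5) 
(.lf (nat_lit 224835) (.g (nat_lit 1853) (.e (nat_lit 98341) (nat_lit 20) (.e (nat_lit 221194) (nat_lit 11) (.e (nat_lit 336026) (nat_lit 3) (.e (nat_lit 98369) (nat_lit 28) (.e (nat_lit 450304) (nat_lit 3) .nil))))) (.g (nat_lit 4) .nil .nil))) 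
(.lf (nat_lit 224867) (.g (nat_lit 1472) (.e (nat_lit 98341) (nat_lit 20) (.e (nat_lit 229120) (nat_lit 11) (.e (nat_lit 336028) (nat_lit 3) (.e (nat_lit 98370) (nat_lit 28) (.e (nat_lit 450304) (nat_lit 3) .nil))))) (.g (nat_lit 4) .nil .nil)))) (.nd (nat_lit 5) 
(.lf (nat_lit 224851) (.g (nat_lit 2332) (.e (nat_lit 98341) (nat_lit 20) (.e (nat_lit 221194) (nat_lit 11) (.e (nat_lit 336027) (nat_lit 3) (.e (nat_lit 98381) (nat_lit 31) (.e (nat_lit 474880) (nat_lit 3) .nil))))) (.g (nat_lit 4) .nil .nil))) 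
(.lf (nat_lit 224883) (.g (nat_lit 1542) (.e (nat_lit 98341) (nat_lit 20) (.e (nat_lit 229120) (nat_lit 15) (.e (nat_lit 368676) (nat_lit 21) (.e (nat_lit 516176) (nat_lit 14) (.e (nat_lit 474880) (nat_lit 3) .nil))))) (.g (nat_lit 4) .nil .nil))))) (.nd (nat_lit 4) (.nd (nat_lit 5) 
(.lf (nat_lit 224843) (.g (nat_lit 3407) (.e (nat_lit 98341) (nat_lit 20) (.e (nat_lit 221194) (nat_lit 11) (.e (nat_lit 336027) (nat_lit 3) (.e (nat_lit 98365) (nat_lit 26) (.e (nat_lit 426187) (nat_lit 9) (.e (nat_lit 426438) (nat_lit 18) .nil)))))) (.g (nat_lit 0) .nil .nil))) 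
(.lf (nat_lit 224875) (.g (nat_lit 1441) (.e (nat_lit 98341) (nat_lit 20) (.e (nat_lit 229120) (nat_lit 12) (.e (nat_lit 344118) (nat_lit 21) (.e (nat_lit 516174) (nat_lit 14) (.e (nat_lit 474880) (nat_lit 3) .nil))))) (.g (nat_lit 4) .nil .nil)))) (.nd (nat_lit 5) 
(.lf (nat_lit 224859) (.g (nat_lit 1291) (.e (nat_lit 98341) (nat_lit 20) (.e (nat_lit 229120) (nat_lit 11) (.e (nat_lit 336020) (nat_lit 3) (.e (nat_lit 98370) (nat_lit 28) (.e (nat_lit 450304) (nat_lit 3) .nil))))) (.g (nat_lit 4) .nil .nil))) 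
(.lf (nat_lit 224891) (.g (nat_lit 2243) (.e (nat_lit 98341) (nat_lit 20) (.e (nat_lit 221210) (nat_lit 22) (.e (nat_lit 196666) (nat_lit 13) (.e (nat_lit 65569) (nat_lit 3) (.e (nat_lit 98333) (nat_lit 18) .nil))))) .nil))))) (.nd (nat_lit 3) (.nd (nat_lit 4) (.nd (nat_lit 5) 
(.lf (nat_lit 224839) (.g (nat_lit 1960) (.e (nat_lit 98341) (nat_lit 20) (.e (nat_lit 221194) (nat_lit 11) (.e (nat_lit 336027) (nat_lit 3) (.e (nat_lit 98354) (nat_lit 26) .nil)))) .nil)) 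
(.lf (nat_lit 224871) (.g (nat_lit 1194) (.e (nat_lit 98341) (nat_lit 20) (.e (nat_lit 229120) (nat_lit 12) (.e (nat_lit 344117) (nat_lit 21) (.e (nat_lit 516164) (nat_lit 11) (.e (nat_lit 450304) (nat_lit 3) .nil))))) (.g (nat_lit 4) .nil .nil)))) (.nd (nat_lit 5) 
(.lf (nat_lit 224855) (.g (nat_lit 3125) (.e (nat_lit 98341) (nat_lit 20) (.e (nat_lit 229120) (nat_lit 11) (.e (nat_lit 336013) (nat_lit 2) (.e (nat_lit 90170) (nat_lit 13) (.e (nat_lit 172092) (nat_lit 9) (.e (nat_lit 433920) (nat_lit 18) .nil)))))) (.g (nat_lit 4) .nil .nil))) 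
(.lf (nat_lit 224887) (.g (nat_lit 1905) (.e (nat_lit 98341) (nat_lit 20) (.e (nat_lit 221210) (nat_lit 22) (.e (nat_lit 196666) (nat_lit 13) (.e (nat_lit 65550) (nat_lit 0) .nil)))) .nil)))) (.nd (nat_lit 4) (.nd (nat_lit 5) 
(.lf (nat_lit 224847) (.g (nat_lit 4272) (.e (nat_lit 98341) (nat_lit 20) (.e (nat_lit 221194) (nat_lit 11) (.e (nat_lit 336027) (nat_lit 3) (.e (nat_lit 98365) (nat_lit 26) (.e (nat_lit 426200) (nat_lit 9) (.e (nat_lit 426436) (nat_lit 18) .nil)))))) (.g (nat_lit 0) .nil .nil))) 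
(.lf (nat_lit 224879) (.g (nat_lit 945) (.e (nat_lit 98341) (nat_lit 20) (.e (nat_lit 229120) (nat_lit 12) (.e (nat_lit 344120) (nat_lit 21) (.e (nat_lit 516174) (nat_lit 14) (.e (nat_lit 474880) (nat_lit 3) .nil))))) (.g (nat_lit 4) .nil .nil)))) (.nd (nat_lit 5) 
(.lf (nat_lit 224863) (.g (nat_lit 1737) (.e (nat_lit 98341) (nat_lit 20) (.e (nat_lit 229120) (nat_lit 11) (.e (nat_lit 336027) (nat_lit 3) (.e (nat_lit 98365) (nat_lit 26) (.e (nat_lit 426187) (nat_lit 9) (.e (nat_lit 426437) (nat_lit 18) .nil)))))) (.g (nat_lit 4) .nil .nil))) 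
(.lf (nat_lit 224895) (.g (nat_lit 1411) (.e (nat_lit 98341) (nat_lit 20) (.e (nat_lit 221210) (nat_lit 22) (.e (nat_lit 196668) (nat_lit 14) (.e (nat_lit 73746) (nat_lit 3) .nil)))) .nil))))))))

noncomputable def tv2947 : DT := (.nd (nat_lit 0) (.nd (nat_lit 1) (.nd (nat_lit 2) (.nd (nat_lit 3) (.nd (nat_lit 4) (.nd (nat_lit 5) 
(.lf (nat_lit 224896) (.g (nat_lit 2770) (.e (nat_lit 98341) (nat_lit 20) (.e (nat_lit 221210) (nat_lit 22) (.e (nat_lit 196668) (nat_lit 14) (.e (nat_lit 73746) (nat_lit 3) (.e (nat_lit 516115) (nat_lit 1) (.e (nat_lit 164153) (nat_lit 152) (.e (nat_lit 999) (nat_lit 81) (.e (nat_lit 1256) (nat_lit 92) .nil)))))))) (.g (nat_lit 4) .nil .nil))) 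
(.lf (nat_lit 224928) (.g (nat_lit 2403) (.e (nat_lit 98341) (nat_lit 20) (.e (nat_lit 221210) (nat_lit 22) (.e (nat_lit 196670) (nat_lit 14) (.e (nat_lit 73746) (nat_lit 3) (.e (nat_lit 516117) (nat_lit 1) (.e (nat_lit 164158) (nat_lit 152) (.e (nat_lit 1016) (nat_lit 81) (.e (nat_lit 1256) (nat_lit 92) .nil)))))))) (.g (nat_lit 4) .nil .nil)))) (.nd (nat_lit 5) 
(.lf (nat_lit 224912) (.g (nat_lit 2814) (.e (nat_lit 98341) (nat_lit 20) (.e (nat_lit 221210) (nat_lit 22) (.e (nat_lit 196668) (nat_lit 14) (.e (nat_lit 73747) (nat_lit 3) (.e (nat_lit 516119) (nat_lit 1) (.e (nat_lit 164176) (nat_lit 154) (.e (nat_lit 57376) (nat_lit 3) .nil))))))) (.g (nat_lit 4) .nil .nil))) 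
(.lf (nat_lit 224944) (.g (nat_lit 2722) (.e (nat_lit 98341) (nat_lit 20) (.e (nat_lit 221210) (nat_lit 22) (.e (nat_lit 196670) (nat_lit 14) (.e (nat_lit 73746) (nat_lit 3) (.e (nat_lit 516120) (nat_lit 1) (.e (nat_lit 164184) (nat_lit 155) (.e (nat_lit 122892) (nat_lit 3) .nil))))))) (.g (nat_lit 4) .nil .nil))))) (.nd (nat_lit 4) (.nd (nat_lit 5) 
(.lf (nat_lit 224904) (.g (nat_lit 3468) (.e (nat_lit 98341) (nat_lit 20) (.e (nat_lit 221210) (nat_lit 22) (.e (nat_lit 196668) (nat_lit 14) (.e (nat_lit 73747) (nat_lit 3) (.e (nat_lit 516115) (nat_lit 1) (.e (nat_lit 164151) (nat_lit 152) (.e (nat_lit 974) (nat_lit 81) (.e (nat_lit 1256) (nat_lit 92) .nil)))))))) (.g (nat_lit 5) .nil .nil))) 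
(.lf (nat_lit 224936) (.g (nat_lit 2497) (.e (nat_lit 98341) (nat_lit 20) (.e (nat_lit 221210) (nat_lit 22) (.e (nat_lit 196670) (nat_lit 14) (.e (nat_lit 73746) (nat_lit 3) (.e (nat_lit 516119) (nat_lit 1) (.e (nat_lit 164154) (nat_lit 152) (.e (nat_lit 999) (nat_lit 81) (.e (nat_lit 1256) (nat_lit 92) .nil)))))))) (.g (nat_lit 4) .nil .nil)))) (.nd (nat_lit 5) 
(.lf (nat_lit 224920) (.g (nat_lit 1168) (.e (nat_lit 98341) (nat_lit 20) (.e (nat_lit 221210) (nat_lit 22) (.e (nat_lit 196670) (nat_lit 14) (.e (nat_lit 73746) (nat_lit 3) .nil)))) .nil)) 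
(.lf (nat_lit 224952) (.g (nat_lit 4498) (.e (nat_lit 98341) (nat_lit 20) (.e (nat_lit 221211) (nat_lit 22) (.e (nat_lit 196666) (nat_lit 13) (.e (nat_lit 65569) (nat_lit 3) (.e (nat_lit 98333) (nat_lit 18) (.e (nat_lit 164179) (nat_lit 154) (.e (nat_lit 57379) (nat_lit 3) .nil))))))) (.g (nat_lit 6) .nil .nil)))))) (.nd (nat_lit 3) (.nd (nat_lit 4) (.nd (nat_lit 5) 
(.lf (nat_lit 224900) (.g (nat_lit 2731) (.e (nat_lit 98341) (nat_lit 20) (.e (nat_lit 221210) (nat_lit 22) (.e (nat_lit 196668) (nat_lit 14) (.e (nat_lit 73746) (nat_lit 3) (.e (nat_lit 516120) (nat_lit 1) (.e (nat_lit 164183) (nat_lit 154) (.e (nat_lit 57376) (nat_lit 3) .nil))))))) (.g (nat_lit 4) .nil .nil))) 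
(.lf (nat_lit 224932) (.g (nat_lit 3291) (.e (nat_lit 98341) (nat_lit 20) (.e (nat_lit 221210) (nat_lit 22) (.e (nat_lit 196670) (nat_lit 14) (.e (nat_lit 73746) (nat_lit 3) (.e (nat_lit 516119) (nat_lit 1) (.e (nat_lit 164147) (nat_lit 152) (.e (nat_lit 974) (nat_lit 81) (.e (nat_lit 1256) (nat_lit 92) .nil)))))))) (.g (nat_lit 5) .nil .nil)))) (.nd (nat_lit 5) 
(.lf (nat_lit 224916) (.g (nat_lit 2477) (.e (nat_lit 98341) (nat_lit 20) (.e (nat_lit 221210) (nat_lit 22) (.e (nat_lit 196668) (nat_lit 14) (.e (nat_lit 73747) (nat_lit 3) (.e (nat_lit 516120) (nat_lit 1) (.e (nat_lit 164147) (nat_lit 152) (.e (nat_lit 974) (nat_lit 81) (.e (nat_lit 1256) (nat_lit 92) .nil)))))))) (.g (nat_lit 4) .nil .nil))) 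
(.lf (nat_lit 224948) (.g (nat_lit 2115) (.e (nat_lit 98341) (nat_lit 20) (.e (nat_lit 221211) (nat_lit 22) (.e (nat_lit 196666) (nat_lit 13) (.e (nat_lit 65566) (nat_lit 2) (.e (nat_lit 98048) (nat_lit 3) .nil))))) .nil)))) (.nd (nat_lit 4) (.nd (nat_lit 5) 
(.lf (nat_lit 224908) (.g (nat_lit 2873) (.e (nat_lit 98341) (nat_lit 20) (.e (nat_lit 221210) (nat_lit 22) (.e (nat_lit 196668) (nat_lit 14) (.e (nat_lit 73747) (nat_lit 3) (.e (nat_lit 516119) (nat_lit 1) (.e (nat_lit 164147) (nat_lit 152) (.e (nat_lit 974) (nat_lit 81) (.e (nat_lit 1256) (nat_lit 92) .nil)))))))) (.g (nat_lit 4) .nil .nil))) 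
(.lf (nat_lit 224940) (.g (nat_lit 2613) (.e (nat_lit 98341) (nat_lit 20) (.e (nat_lit 221210) (nat_lit 22) (.e (nat_lit 196670) (nat_lit 14) (.e (nat_lit 73746) (nat_lit 3) (.e (nat_lit 516120) (nat_lit 1) (.e (nat_lit 164181) (nat_lit 154) (.e (nat_lit 57376) (nat_lit 3) .nil))))))) (.g (nat_lit 4) .nil .nil)))) (.nd (nat_lit 5) 
(.lf (nat_lit 224924) (.g (nat_lit 3540) (.e (nat_lit 98341) (nat_lit 20) (.e (nat_lit 221210) (nat_lit 22) (.e (nat_lit 196670) (nat_lit 14) (.e (nat_lit 73746) (nat_lit 3) (.e (nat_lit 516115) (nat_lit 1) (.e (nat_lit 164179) (nat_lit 154) (.e (nat_lit 57376) (nat_lit 3) .nil))))))) (.g (nat_lit 5) .nil .nil))) 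
(.lf (nat_lit 224956) (.g (nat_lit 1976) (.e (nat_lit 98341) (nat_lit 20) (.e (nat_lit 221211) (nat_lit 22) (.e (nat_lit 196666) (nat_lit 13) (.e (nat_lit 65571) (nat_lit 3) (.e (nat_lit 98333) (nat_lit 18) .nil))))) .nil)))))) (.nd (nat_lit 2) (.nd (nat_lit 3) (.nd (nat_lit 4) (.nd (nat_lit 5) 
(.lf (nat_lit 224898) (.g (nat_lit 3588) (.e (nat_lit 98341) (nat_lit 20) (.e (nat_lit 221210) (nat_lit 22) (.e (nat_lit 196668) (nat_lit 14) (.e (nat_lit 73746) (nat_lit 3) (.e (nat_lit 516119) (nat_lit 1) (.e (nat_lit 164150) (nat_lit 152) (.e (nat_lit 974) (nat_lit 81) (.e (nat_lit 1256) (nat_lit 92) .nil)))))))) (.g (nat_lit 5) .nil .nil))) 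
(.lf (nat_lit 224930) (.g (nat_lit 2528) (.e (nat_lit 98341) (nat_lit 20) (.e (nat_lit 221210) (nat_lit 22) (.e (nat_lit 196670) (nat_lit 14) (.e (nat_lit 73746) (nat_lit 3) (.e (nat_lit 516117) (nat_lit 1) (.e (nat_lit 164181) (nat_lit 154) (.e (nat_lit 57376) (nat_lit 3) .nil))))))) (.g (nat_lit 4) .nil .nil)))) (.nd (nat_lit 5) 
(.lf (nat_lit 224914) (.g (nat_lit 2963) (.e (nat_lit 98341) (nat_lit 20) (.e (nat_lit 221210) (nat_lit 22) (.e (nat_lit 196668) (nat_lit 14) (.e (nat_lit 73747) (nat_lit 3) (.e (nat_lit 516119) (nat_lit 1) (.e (nat_lit 164179) (nat_lit 154) (.e (nat_lit 57376) (nat_lit 3) .nil))))))) (.g (nat_lit 4) .nil .nil))) 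
(.lf (nat_lit 224946) (.g (nat_lit 1313) (.e (nat_lit 98341) (nat_lit 20) (.e (nat_lit 221210) (nat_lit 22) (.e (nat_lit 196681) (nat_lit 17) (.e (nat_lit 131098) (nat_lit 3) .nil)))) .nil)))) (.nd (nat_lit 4) (.nd (nat_lit 5) 
(.lf (nat_lit 224906) (.g (nat_lit 3140) (.e (nat_lit 98341) (nat_lit 20) (.e (nat_lit 221210) (nat_lit 22) (.e (nat_lit 196668) (nat_lit 14) (.e (nat_lit 73747) (nat_lit 3) (.e (nat_lit 516115) (nat_lit 1) (.e (nat_lit 164183) (nat_lit 154) (.e (nat_lit 57376) (nat_lit 3) .nil))))))) (.g (nat_lit 5) .nil .nil))) 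
(.lf (nat_lit 224938) (.g (nat_lit 2688) (.e (nat_lit 98341) (nat_lit 20) (.e (nat_lit 221210) (nat_lit 22) (.e (nat_lit 196670) (nat_lit 14) (.e (nat_lit 73746) (nat_lit 3) (.e (nat_lit 516119) (nat_lit 1) (.e (nat_lit 164184) (nat_lit 155) (.e (nat_lit 122892) (nat_lit 3) .nil))))))) (.g (nat_lit 4) .nil .nil)))) (.nd (nat_lit 5) 
(.lf (nat_lit 224922) (.g (nat_lit 4254) (.e (nat_lit 98341) (nat_lit 20) (.e (nat_lit 221210) (nat_lit 22) (.e (nat_lit 196670) (nat_lit 14) (.e (nat_lit 73746) (nat_lit 3) (.e (nat_lit 516115) (nat_lit 1) (.e (nat_lit 164150) (nat_lit 152) (.e (nat_lit 974) (nat_lit 81) (.e (nat_lit 1256) (nat_lit 92) .nil)))))))) (.g (nat_lit 6) .nil .nil))) 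
(.lf (nat_lit 224954) (.g (nat_lit 4848) (.e (nat_lit 98341) (nat_lit 20) (.e (nat_lit 221211) (nat_lit 22) (.e (nat_lit 196666) (nat_lit 13) (.e (nat_lit 65569) (nat_lit 3) (.e (nat_lit 98334) (nat_lit 18) (.e (nat_lit 164180) (nat_lit 154) (.e (nat_lit 57379) (nat_lit 3) .nil))))))) (.g (nat_lit 0) .nil .nil)))))) (.nd (nat_lit 3) (.nd (nat_lit 4) (.nd (nat_lit 5) 
(.lf (nat_lit 224902) (.g (nat_lit 3552) (.e (nat_lit 98341) (nat_lit 20) (.e (nat_lit 221210) (nat_lit 22) (.e (nat_lit 196668) (nat_lit 14) (.e (nat_lit 73747) (nat_lit 3) (.e (nat_lit 516115) (nat_lit 1) (.e (nat_lit 164148) (nat_lit 152) (.e (nat_lit 974) (nat_lit 81) (.e (nat_lit 1256) (nat_lit 92) .nil)))))))) (.g (nat_lit 5) .nil .nil))) 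
(.lf (nat_lit 224934) (.g (nat_lit 4307) (.e (nat_lit 98341) (nat_lit 20) (.e (nat_lit 221210) (nat_lit 22) (.e (nat_lit 196670) (nat_lit 14) (.e (nat_lit 73746) (nat_lit 3) (.e (nat_lit 516119) (nat_lit 1) (.e (nat_lit 164150) (nat_lit 152) (.e (nat_lit 974) (nat_lit 81) (.e (nat_lit 1256) (nat_lit 92) .nil)))))))) (.g (nat_lit 6) .nil .nil)))) (.nd (nat_lit 5) 
(.lf (nat_lit 224918) (.g (nat_lit 2552) (.e (nat_lit 98341) (nat_lit 20) (.e (nat_lit 221210) (nat_lit 22) (.e (nat_lit 196668) (nat_lit 14) (.e (nat_lit 81664) (nat_lit 5) (.e (nat_lit 532499) (nat_lit 1) (.e (nat_lit 57684) (nat_lit 155) (.e (nat_lit 122892) (nat_lit 3) .nil))))))) (.g (nat_lit 5) .nil .nil))) 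
(.lf (nat_lit 224950) (.g (nat_lit 1369) (.e (nat_lit 98341) (nat_lit 20) (.e (nat_lit 221211) (nat_lit 22) (.e (nat_lit 196666) (nat_lit 13) (.e (nat_lit 65569) (nat_lit 3) .nil)))) .nil)))) (.nd (nat_lit 4) (.nd (nat_lit 5) 
(.lf (nat_lit 224910) (.g (nat_lit 2710) (.e (nat_lit 98341) (nat_lit 20) (.e (nat_lit 221210) (nat_lit 22) (.e (nat_lit 196668) (nat_lit 14) (.e (nat_lit 73747) (nat_lit 3) (.e (nat_lit 516119) (nat_lit 1) (.e (nat_lit 164153) (nat_lit 152) (.e (nat_lit 999) (nat_lit 81) (.e (nat_lit 1256) (nat_lit 92) .nil)))))))) (.g (nat_lit 4) .nil .nil))) 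
(.lf (nat_lit 224942) (.g (nat_lit 2877) (.e (nat_lit 98341) (nat_lit 20) (.e (nat_lit 221210) (nat_lit 22) (.e (nat_lit 196670) (nat_lit 14) (.e (nat_lit 73746) (nat_lit 3) (.e (nat_lit 516120) (nat_lit 1) (.e (nat_lit 164183) (nat_lit 154) (.e (nat_lit 57376) (nat_lit 3) .nil))))))) (.g (nat_lit 4) .nil .nil)))) (.nd (nat_lit 5) 
(.lf (nat_lit 224926) (.g (nat_lit 2569) (.e (nat_lit 98341) (nat_lit 20) (.e (nat_lit 221210) (nat_lit 22) (.e (nat_lit 196670) (nat_lit 14) (.e (nat_lit 73746) (nat_lit 3) (.e (nat_lit 516117) (nat_lit 1) (.e (nat_lit 164147) (nat_lit 152) (.e (nat_lit 999) (nat_lit 81) (.e (nat_lit 1256) (nat_lit 92) .nil)))))))) (.g (nat_lit 4) .nil .nil))) 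
(.lf (nat_lit 224958) (.g (nat_lit 4197) (.e (nat_lit 98341) (nat_lit 20) (.e (nat_lit 221211) (nat_lit 22) (.e (nat_lit 196666) (nat_lit 13) (.e (nat_lit 65571) (nat_lit 3) (.e (nat_lit 98333) (nat_lit 18) (.e (nat_lit 164179) (nat_lit 154) (.e (nat_lit 57379) (nat_lit 3) .nil))))))) (.g (nat_lit 6) .nil .nil)))))))) 
(.nd (nat_lit 1) (.nd (nat_lit 2) (.nd (nat_lit 3) (.nd (nat_lit 4) (.nd (nat_lit 5) 
(.lf (nat_lit 224897) (.g (nat_lit 3304) (.e (nat_lit 98341) (nat_lit 20) (.e (nat_lit 221210) (nat_lit 22) (.e (nat_lit 196668) (nat_lit 14) (.e (nat_lit 73746) (nat_lit 3) (.e (nat_lit 516119) (nat_lit 1) (.e (nat_lit 164149) (nat_lit 152) (.e (nat_lit 974) (nat_lit 81) (.e (nat_lit 1256) (nat_lit 92) .nil)))))))) (.g (nat_lit 5) .nil .nil))) 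
(.lf (nat_lit 224929) (.g (nat_lit 2562) (.e (nat_lit 98341) (nat_lit 20) (.e (nat_lit 221210) (nat_lit 22) (.e (nat_lit 196670) (nat_lit 14) (.e (nat_lit 73746) (nat_lit 3) (.e (nat_lit 516117) (nat_lit 1) (.e (nat_lit 164180) (nat_lit 154) (.e (nat_lit 57376) (nat_lit 3) .nil))))))) (.g (nat_lit 4) .nil .nil)))) (.nd (nat_lit 5) 
(.lf (nat_lit 224913) (.g (nat_lit 2506) (.e (nat_lit 98341) (nat_lit 20) (.e (nat_lit 221210) (nat_lit 22) (.e (nat_lit 196668) (nat_lit 14) (.e (nat_lit 73747) (nat_lit 3) (.e (nat_lit 516119) (nat_lit 1) (.e (nat_lit 164178) (nat_lit 154) (.e (nat_lit 57376) (nat_lit 3) .nil))))))) (.g (nat_lit 4) .nil .nil))) 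
(.lf (nat_lit 224945) (.g (nat_lit 1261) (.e (nat_lit 98341) (nat_lit 20) (.e (nat_lit 221210) (nat_lit 22) (.e (nat_lit 196681) (nat_lit 17) (.e (nat_lit 131096) (nat_lit 3) .nil)))) .nil)))) (.nd (nat_lit 4) (.nd (nat_lit 5) 
(.lf (nat_lit 224905) (.g (nat_lit 3145) (.e (nat_lit 98341) (nat_lit 20) (.e (nat_lit 221210) (nat_lit 22) (.e (nat_lit 196668) (nat_lit 14) (.e (nat_lit 73747) (nat_lit 3) (.e (nat_lit 516115) (nat_lit 1) (.e (nat_lit 164182) (nat_lit 154) (.e (nat_lit 57376) (nat_lit 3) .nil))))))) (.g (nat_lit 5) .nil .nil))) 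
(.lf (nat_lit 224937) (.g (nat_lit 2692) (.e (nat_lit 98341) (nat_lit 20) (.e (nat_lit 221210) (nat_lit 22) (.e (nat_lit 196670) (nat_lit 14) (.e (nat_lit 73746) (nat_lit 3) (.e (nat_lit 516119) (nat_lit 1) (.e (nat_lit 164179) (nat_lit 154) (.e (nat_lit 57376) (nat_lit 3) .nil))))))) (.g (nat_lit 4) .nil .nil)))) (.nd (nat_lit 5) 
(.lf (nat_lit 224921) (.g (nat_lit 3360) (.e (nat_lit 98341) (nat_lit 20) (.e (nat_lit 221210) (nat_lit 22) (.e (nat_lit 196670) (nat_lit 14) (.e (nat_lit 73746) (nat_lit 3) (.e (nat_lit 516115) (nat_lit 1) (.e (nat_lit 164148) (nat_lit 152) (.e (nat_lit 974) (nat_lit 81) (.e (nat_lit 1256) (nat_lit 92) .nil)))))))) (.g (nat_lit 5) .nil .nil))) 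
(.lf (nat_lit 224953) (.g (nat_lit 3286) (.e (nat_lit 98341) (nat_lit 20) (.e (nat_lit 221211) (nat_lit 22) (.e (nat_lit 196666) (nat_lit 13) (.e (nat_lit 65569) (nat_lit 3) (.e (nat_lit 98334) (nat_lit 18) (.e (nat_lit 164159) (nat_lit 152) (.e (nat_lit 1016) (nat_lit 81) (.e (nat_lit 1256) (nat_lit 92) .nil)))))))) (.g (nat_lit 5) .nil .nil)))))) 
(.nd (nat_lit 3) (.nd (nat_lit 4) (.nd (nat_lit 5) 
(.lf (nat_lit 224901) (.g (nat_lit 1122) (.e (nat_lit 98341) (nat_lit 20) (.e (nat_lit 221210) (nat_lit 22) (.e (nat_lit 196668) (nat_lit 14) (.e (nat_lit 73747) (nat_lit 3) .nil)))) .nil)) 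
(.lf (nat_lit 224933) (.g (nat_lit 4023) (.e (nat_lit 98341) (nat_lit 20) (.e (nat_lit 221210) (nat_lit 22) (.e (nat_lit 196670) (nat_lit 14) (.e (nat_lit 73746) (nat_lit 3) (.e (nat_lit 516119) (nat_lit 1) (.e (nat_lit 164149) (nat_lit 152) (.e (nat_lit 974) (nat_lit 81) (.e (nat_lit 1256) (nat_lit 92) .nil)))))))) (.g (nat_lit 6) .nil .nil)))) (.nd (nat_lit 5) 
(.lf (nat_lit 224917) (.g (nat_lit 2497) (.e (nat_lit 98341) (nat_lit 20) (.e (nat_lit 221210) (nat_lit 22) (.e (nat_lit 196668) (nat_lit 14) (.e (nat_lit 73747) (nat_lit 3) (.e (nat_lit 516120) (nat_lit 1) (.e (nat_lit 164183) (nat_lit 154) (.e (nat_lit 57376) (nat_lit 3) .nil))))))) (.g (nat_lit 4) .nil .nil))) 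
(.lf (nat_lit 224949) (.g (nat_lit 2003) (.e (nat_lit 98341) (nat_lit 20) (.e (nat_lit 221211) (nat_lit 22) (.e (nat_lit 196666) (nat_lit 13) (.e (nat_lit 65568) (nat_lit 2) (.e (nat_lit 98048) (nat_lit 3) .nil))))) .nil)))) (.nd (nat_lit 4) (.nd (nat_lit 5) 
(.lf (nat_lit 224909) (.g (nat_lit 2542) (.e (nat_lit 98341) (nat_lit 20) (.e (nat_lit 221210) (nat_lit 22) (.e (nat_lit 196668) (nat_lit 14) (.e (nat_lit 73747) (nat_lit 3) (.e (nat_lit 516119) (nat_lit 1) (.e (nat_lit 164148) (nat_lit 152) (.e (nat_lit 974) (nat_lit 81) (.e (nat_lit 1256) (nat_lit 92) .nil)))))))) (.g (nat_lit 4) .nil .nil))) 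
(.lf (nat_lit 224941) (.g (nat_lit 2630) (.e (nat_lit 98341) (nat_lit 20) (.e (nat_lit 221210) (nat_lit 22) (.e (nat_lit 196670) (nat_lit 14) (.e (nat_lit 73746) (nat_lit 3) (.e (nat_lit 516120) (nat_lit 1) (.e (nat_lit 164182) (nat_lit 154) (.e (nat_lit 57376) (nat_lit 3) .nil))))))) (.g (nat_lit 4) .nil .nil)))) (.nd (nat_lit 5) 
(.lf (nat_lit 224925) (.g (nat_lit 2535) (.e (nat_lit 98341) (nat_lit 20) (.e (nat_lit 221210) (nat_lit 22) (.e (nat_lit 196670) (nat_lit 14) (.e (nat_lit 73746) (nat_lit 3) (.e (nat_lit 516115) (nat_lit 1) (.e (nat_lit 164182) (nat_lit 154) (.e (nat_lit 57376) (nat_lit 3) .nil))))))) (.g (nat_lit 4) .nil .nil))) 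
(.lf (nat_lit 224957) (.g (nat_lit 2397) (.e (nat_lit 98341) (nat_lit 20) (.e (nat_lit 221211) (nat_lit 22) (.e (nat_lit 196666) (nat_lit 13) (.e (nat_lit 65571) (nat_lit 3) (.e (nat_lit 98333) (nat_lit 18) (.e (nat_lit 164150) (nat_lit 152) (.e (nat_lit 974) (nat_lit 81) (.e (nat_lit 1256) (nat_lit 92) .nil)))))))) (.g (nat_lit 4) .nil .nil))))))) 
(.nd (nat_lit 2) (.nd (nat_lit 3) (.nd (nat_lit 4) (.nd (nat_lit 5) 
(.lf (nat_lit 224899) (.g (nat_lit 2795) (.e (nat_lit 98341) (nat_lit 20) (.e (nat_lit 221210) (nat_lit 22) (.e (nat_lit 196668) (nat_lit 14) (.e (nat_lit 73746) (nat_lit 3) (.e (nat_lit 516120) (nat_lit 1) (.e (nat_lit 164147) (nat_lit 152) (.e (nat_lit 974) (nat_lit 81) (.e (nat_lit 1256) (nat_lit 92) .nil)))))))) (.g (nat_lit 4) .nil .nil))) 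
(.lf (nat_lit 224931) (.g (nat_lit 2399) (.e (nat_lit 98341) (nat_lit 20) (.e (nat_lit 221210) (nat_lit 22) (.e (nat_lit 196670) (nat_lit 14) (.e (nat_lit 73746) (nat_lit 3) (.e (nat_lit 516117) (nat_lit 1) (.e (nat_lit 164183) (nat_lit 154) (.e (nat_lit 57376) (nat_lit 3) .nil))))))) (.g (nat_lit 4) .nil .nil)))) (.nd (nat_lit 5) 
(.lf (nat_lit 224915) (.g (nat_lit 2837) (.e (nat_lit 98341) (nat_lit 20) (.e (nat_lit 221210) (nat_lit 22) (.e (nat_lit 196668) (nat_lit 14) (.e (nat_lit 73747) (nat_lit 3) (.e (nat_lit 516119) (nat_lit 1) (.e (nat_lit 164184) (nat_lit 155) (.e (nat_lit 122892) (nat_lit 3) .nil))))))) (.g (nat_lit 4) .nil .nil))) 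
(.lf (nat_lit 224947) (.g (nat_lit 2136) (.e (nat_lit 98341) (nat_lit 20) (.e (nat_lit 221211) (nat_lit 22) (.e (nat_lit 196666) (nat_lit 13) (.e (nat_lit 65550) (nat_lit 0) (.e (nat_lit 1788) (nat_lit 119) .nil))))) .nil)))) (.nd (nat_lit 4) (.nd (nat_lit 5) 
(.lf (nat_lit 224907) (.g (nat_lit 3131) (.e (nat_lit 98341) (nat_lit 20) (.e (nat_lit 221210) (nat_lit 22) (.e (nat_lit 196668) (nat_lit 14) (.e (nat_lit 73747) (nat_lit 3) (.e (nat_lit 516117) (nat_lit 1) (.e (nat_lit 164147) (nat_lit 152) (.e (nat_lit 974) (nat_lit 81) (.e (nat_lit 1256) (nat_lit 92) .nil)))))))) (.g (nat_lit 5) .nil .nil))) 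
(.lf (nat_lit 224939) (.g (nat_lit 3403) (.e (nat_lit 98341) (nat_lit 20) (.e (nat_lit 221210) (nat_lit 22) (.e (nat_lit 196670) (nat_lit 14) (.e (nat_lit 73746) (nat_lit 3) (.e (nat_lit 516120) (nat_lit 1) (.e (nat_lit 164147) (nat_lit 152) (.e (nat_lit 974) (nat_lit 81) (.e (nat_lit 1256) (nat_lit 92) .nil)))))))) (.g (nat_lit 5) .nil .nil)))) (.nd (nat_lit 5) 
(.lf (nat_lit 224923) (.g (nat_lit 3631) (.e (nat_lit 98341) (nat_lit 20) (.e (nat_lit 221210) (nat_lit 22) (.e (nat_lit 196670) (nat_lit 14) (.e (nat_lit 73746) (nat_lit 3) (.e (nat_lit 516115) (nat_lit 1) (.e (nat_lit 164151) (nat_lit 152) (.e (nat_lit 974) (nat_lit 81) (.e (nat_lit 1256) (nat_lit 92) .nil)))))))) (.g (nat_lit 5) .nil .nil))) 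
(.lf (nat_lit 224955) (.g (nat_lit 2473) (.e (nat_lit 98341) (nat_lit 20) (.e (nat_lit 221211) (nat_lit 22) (.e (nat_lit 196666) (nat_lit 13) (.e (nat_lit 65571) (nat_lit 3) (.e (nat_lit 98332) (nat_lit 18) .nil))))) .nil))))) (.nd (nat_lit 3) (.nd (nat_lit 4) (.nd (nat_lit 5) 
(.lf (nat_lit 224903) (.g (nat_lit 3723) (.e (nat_lit 98341) (nat_lit 20) (.e (nat_lit 221210) (nat_lit 22) (.e (nat_lit 196668) (nat_lit 14) (.e (nat_lit 73747) (nat_lit 3) (.e (nat_lit 516115) (nat_lit 1) (.e (nat_lit 164149) (nat_lit 152) (.e (nat_lit 974) (nat_lit 81) (.e (nat_lit 1256) (nat_lit 92) .nil)))))))) (.g (nat_lit 5) .nil .nil))) 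
(.lf (nat_lit 224935) (.g (nat_lit 2478) (.e (nat_lit 98341) (nat_lit 20) (.e (nat_lit 221210) (nat_lit 22) (.e (nat_lit 196670) (nat_lit 14) (.e (nat_lit 73746) (nat_lit 3) (.e (nat_lit 516119) (nat_lit 1) (.e (nat_lit 164153) (nat_lit 152) (.e (nat_lit 999) (nat_lit 81) (.e (nat_lit 1256) (nat_lit 92) .nil)))))))) (.g (nat_lit 4) .nil .nil)))) (.nd (nat_lit 5) 
(.lf (nat_lit 224919) (.g (nat_lit 1253) (.e (nat_lit 98341) (nat_lit 20) (.e (nat_lit 221210) (nat_lit 22) (.e (nat_lit 196668) (nat_lit 14) (.e (nat_lit 73750) (nat_lit 6) .nil)))) .nil)) 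
(.lf (nat_lit 224951) (.g (nat_lit 2178) (.e (nat_lit 98341) (nat_lit 20) (.e (nat_lit 221211) (nat_lit 22) (.e (nat_lit 196666) (nat_lit 13) (.e (nat_lit 65569) (nat_lit 3) (.e (nat_lit 98325) (nat_lit 17) .nil))))) .nil)))) (.nd (nat_lit 4) (.nd (nat_lit 5) 
(.lf (nat_lit 224911) (.g (nat_lit 2634) (.e (nat_lit 98341) (nat_lit 20) (.e (nat_lit 221210) (nat_lit 22) (.e (nat_lit 196668) (nat_lit 14) (.e (nat_lit 73747) (nat_lit 3) (.e (nat_lit 516119) (nat_lit 1) (.e (nat_lit 164154) (nat_lit 152) (.e (nat_lit 999) (nat_lit 81) (.e (nat_lit 1256) (nat_lit 92) .nil)))))))) (.g (nat_lit 4) .nil .nil))) 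
(.lf (nat_lit 224943) (.g (nat_lit 5026) (.e (nat_lit 98341) (nat_lit 20) (.e (nat_lit 221210) (nat_lit 22) (.e (nat_lit 196670) (nat_lit 14) (.e (nat_lit 73746) (nat_lit 3) (.e (nat_lit 516120) (nat_lit 1) (.e (nat_lit 164183) (nat_lit 154) (.e (nat_lit 57378) (nat_lit 3) .nil))))))) (.g (nat_lit 0) .nil .nil)))) (.nd (nat_lit 5) 
(.lf (nat_lit 224927) (.g (nat_lit 2770) (.e (nat_lit 98341) (nat_lit 20) (.e (nat_lit 221210) (nat_lit 22) (.e (nat_lit 196670) (nat_lit 14) (.e (nat_lit 73746) (nat_lit 3) (.e (nat_lit 516117) (nat_lit 1) (.e (nat_lit 164157) (nat_lit 152) (.e (nat_lit 1016) (nat_lit 81) (.e (nat_lit 1256) (nat_lit 92) .nil)))))))) (.g (nat_lit 4) .nil .nil))) 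
(.lf (nat_lit 224959) (.g (nat_lit 4498) (.e (nat_lit 98341) (nat_lit 20) (.e (nat_lit 221211) (nat_lit 22) (.e (nat_lit 196666) (nat_lit 13) (.e (nat_lit 65571) (nat_lit 3) (.e (nat_lit 98333) (nat_lit 18) (.e (nat_lit 164182) (nat_lit 154) (.e (nat_lit 57379) (nat_lit 3) .nil))))))) (.g (nat_lit 7) .nil .nil)))))))))

noncomputable def tv2948 : DT := (.nd (nat_lit 0) (.nd (nat_lit 1) (.nd (nat_lit 2) (.nd (nat_lit 3) (.nd (nat_lit 4) (.nd (nat_lit 5) 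
(.lf (nat_lit 224960) (.g (nat_lit 2584) (.e (nat_lit 98341) (nat_lit 20) (.e (nat_lit 221211) (nat_lit 22) (.e (nat_lit 196666) (nat_lit 13) (.e (nat_lit 65571) (nat_lit 3) (.e (nat_lit 98334) (nat_lit 18) (.e (nat_lit 164159) (nat_lit 152) (.e (nat_lit 1016) (nat_lit 81) (.e (nat_lit 1256) (nat_lit 92) .nil)))))))) (.g (nat_lit 4) .nil .nil))) 
(.lf (nat_lit 224992) (.g (nat_lit 4107) (.e (nat_lit 98341) (nat_lit 20) (.e (nat_lit 221214) (nat_lit 23) (.e (nat_lit 204852) (nat_lit 26) (.e (nat_lit 336324) (nat_lit 18) (.e (nat_lit 204831) (nat_lit 18) (.e (nat_lit 57830) (nat_lit 250) (.e (nat_lit 999) (nat_lit 81) (.e (nat_lit 1256) (nat_lit 92) .nil)))))))) (.g (nat_lit 5) .nil .nil)))) (.nd (nat_lit 5) 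
(.lf (nat_lit 224976) (.g (nat_lit 2424) (.e (nat_lit 98341) (nat_lit 20) (.e (nat_lit 221213) (nat_lit 23) (.e (nat_lit 204829) (nat_lit 18) (.e (nat_lit 57847) (nat_lit 252) (.e (nat_lit 57379) (nat_lit 3) .nil))))) .nil)) 
(.lf (nat_lit 225008) (.g (nat_lit 2854) (.e (nat_lit 98341) (nat_lit 20) (.e (nat_lit 221214) (nat_lit 23) (.e (nat_lit 204863) (nat_lit 27) (.e (nat_lit 344117) (nat_lit 21) (.e (nat_lit 516115) (nat_lit 1) (.e (nat_lit 164150) (nat_lit 152) (.e (nat_lit 974) (nat_lit 81) (.e (nat_lit 1256) (nat_lit 92) .nil)))))))) (.g (nat_lit 4) .nil .nil))))) (.nd (nat_lit 4) (.nd (nat_lit 5) 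
(.lf (nat_lit 224968) (.g (nat_lit 2843) (.e (nat_lit 98341) (nat_lit 20) (.e (nat_lit 221212) (nat_lit 22) (.e (nat_lit 196670) (nat_lit 14) (.e (nat_lit 73746) (nat_lit 3) (.e (nat_lit 516115) (nat_lit 1) (.e (nat_lit 164153) (nat_lit 152) (.e (nat_lit 999) (nat_lit 81) (.e (nat_lit 1256) (nat_lit 92) .nil)))))))) (.g (nat_lit 5) .nil .nil))) 
(.lf (nat_lit 225000) (.g (nat_lit 1344) (.e (nat_lit 98341) (nat_lit 20) (.e (nat_lit 221214) (nat_lit 23) (.e (nat_lit 204861) (nat_lit 26) (.e (nat_lit 336021) (nat_lit 3) .nil)))) .nil))) (.nd (nat_lit 5) 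
(.lf (nat_lit 224984) (.g (nat_lit 5019) (.e (nat_lit 98341) (nat_lit 20) (.e (nat_lit 221214) (nat_lit 23) (.e (nat_lit 204829) (nat_lit 18) (.e (nat_lit 57849) (nat_lit 252) (.e (nat_lit 57377) (nat_lit 3) (.e (nat_lit 98317) (nat_lit 9) (.e (nat_lit 336027) (nat_lit 3) .nil))))))) (.g (nat_lit 6) .nil .nil))) 
(.lf (nat_lit 225016) (.g (nat_lit 3246) (.e (nat_lit 98341) (nat_lit 20) (.e (nat_lit 221214) (nat_lit 23) (.e (nat_lit 204880) (nat_lit 32) (.e (nat_lit 385066) (nat_lit 26) (.e (nat_lit 532499) (nat_lit 1) (.e (nat_lit 57854) (nat_lit 252) (.e (nat_lit 57378) (nat_lit 3) .nil))))))) (.g (nat_lit 5) .nil .nil)))))) (.nd (nat_lit 3) (.nd (nat_lit 4) (.nd (nat_lit 5) 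
(.lf (nat_lit 224964) (.g (nat_lit 2644) (.e (nat_lit 98341) (nat_lit 20) (.e (nat_lit 221212) (nat_lit 22) (.e (nat_lit 196668) (nat_lit 14) (.e (nat_lit 73747) (nat_lit 3) (.e (nat_lit 516115) (nat_lit 1) (.e (nat_lit 164153) (nat_lit 152) (.e (nat_lit 999) (nat_lit 81) (.e (nat_lit 1256) (nat_lit 92) .nil)))))))) (.g (nat_lit 5) .nil .nil))) 
(.lf (nat_lit 224996) (.g (nat_lit 1922) (.e (nat_lit 98341) (nat_lit 20) (.e (nat_lit 221214) (nat_lit 23) (.e (nat_lit 204859) (nat_lit 26) (.e (nat_lit 336017) (nat_lit 3) (.e (nat_lit 98333) (nat_lit 18) .nil))))) .nil))) (.nd (nat_lit 5) 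
(.lf (nat_lit 224980) (.g (nat_lit 3125) (.e (nat_lit 98341) (nat_lit 20) (.e (nat_lit 221214) (nat_lit 23) (.e (nat_lit 204829) (nat_lit 18) (.e (nat_lit 57847) (nat_lit 252) (.e (nat_lit 57370) (nat_lit 2) .nil))))) .nil)) 
(.lf (nat_lit 225012) (.g (nat_lit 1986) (.e (nat_lit 98341) (nat_lit 20) (.e (nat_lit 221214) (nat_lit 23) (.e (nat_lit 204872) (nat_lit 30) (.e (nat_lit 368676) (nat_lit 21) (.e (nat_lit 516118) (nat_lit 1) .nil))))) .nil)))) (.nd (nat_lit 4) (.nd (nat_lit 5) 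
(.lf (nat_lit 224972) (.g (nat_lit 3109) (.e (nat_lit 98341) (nat_lit 20) (.e (nat_lit 221212) (nat_lit 22) (.e (nat_lit 196670) (nat_lit 14) (.e (nat_lit 73746) (nat_lit 3) (.e (nat_lit 516119) (nat_lit 1) (.e (nat_lit 164149) (nat_lit 152) (.e (nat_lit 974) (nat_lit 81) (.e (nat_lit 1256) (nat_lit 92) .nil)))))))) (.g (nat_lit 5) .nil .nil))) 
(.lf (nat_lit 225004) (.g (nat_lit 3069) (.e (nat_lit 98341) (nat_lit 20) (.e (nat_lit 221214) (nat_lit 23) (.e (nat_lit 204862) (nat_lit 27) (.e (nat_lit 344117) (nat_lit 21) (.e (nat_lit 516115) (nat_lit 1) (.e (nat_lit 164182) (nat_lit 154) (.e (nat_lit 57379) (nat_lit 3) .nil))))))) (.g (nat_lit 5) .nil .nil)))) (.nd (nat_lit 5) 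
(.lf (nat_lit 224988) (.g (nat_lit 2402) (.e (nat_lit 98341) (nat_lit 20) (.e (nat_lit 221214) (nat_lit 23) (.e (nat_lit 204830) (nat_lit 18) (.e (nat_lit 57830) (nat_lit 250) (.e (nat_lit 1175) (nat_lit 87) .nil))))) .nil)) 
(.lf (nat_lit 225020) (.g (nat_lit 1909) (.e (nat_lit 98341) (nat_lit 20) (.e (nat_lit 221214) (nat_lit 23) (.e (nat_lit 204880) (nat_lit 32) (.e (nat_lit 385066) (nat_lit 26) (.e (nat_lit 532504) (nat_lit 1) .nil))))) .nil)))))) (.nd (nat_lit 2) (.nd (nat_lit 3) (.nd (nat_lit 4) (.nd (nat_lit 5) 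
(.lf (nat_lit 224962) (.g (nat_lit 1650) (.e (nat_lit 98341) (nat_lit 20) (.e (nat_lit 221211) (nat_lit 22) (.e (nat_lit 196670) (nat_lit 14) (.e (nat_lit 73746) (nat_lit 3) (.e (nat_lit 516119) (nat_lit 1) .nil))))) .nil)) 
(.lf (nat_lit 224994) (.g (nat_lit 4137) (.e (nat_lit 98341) (nat_lit 20) (.e (nat_lit 221214) (nat_lit 23) (.e (nat_lit 204852) (nat_lit 26) (.e (nat_lit 336326) (nat_lit 18) (.e (nat_lit 204830) (nat_lit 18) (.e (nat_lit 57852) (nat_lit 252) (.e (nat_lit 57376) (nat_lit 3) .nil))))))) (.g (nat_lit 6) .nil .nil)))) (.nd (nat_lit 5) 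
(.lf (nat_lit 224978) (.g (nat_lit 1773) (.e (nat_lit 98341) (nat_lit 20) (.e (nat_lit 221213) (nat_lit 23) (.e (nat_lit 204852) (nat_lit 26) (.e (nat_lit 336326) (nat_lit 18) (.e (nat_lit 204831) (nat_lit 18) (.e (nat_lit 57847) (nat_lit 252) (.e (nat_lit 57379) (nat_lit 3) .nil))))))) (.g (nat_lit 4) .nil .nil))) 
(.lf (nat_lit 225010) (.g (nat_lit 2041) (.e (nat_lit 98341) (nat_lit 20) (.e (nat_lit 221214) (nat_lit 23) (.e (nat_lit 204863) (nat_lit 27) (.e (nat_lit 344118) (nat_lit 21) (.e (nat_lit 516119) (nat_lit 1) .nil))))) .nil)))) (.nd (nat_lit 4) (.nd (nat_lit 5) 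
(.lf (nat_lit 224970) (.g (nat_lit 2067) (.e (nat_lit 98341) (nat_lit 20) (.e (nat_lit 221212) (nat_lit 22) (.e (nat_lit 196670) (nat_lit 14) (.e (nat_lit 73746) (nat_lit 3) (.e (nat_lit 516117) (nat_lit 1) (.e (nat_lit 164159) (nat_lit 152) (.e (nat_lit 1016) (nat_lit 81) (.e (nat_lit 1256) (nat_lit 92) .nil)))))))) (.g (nat_lit 4) .nil .nil))) 
(.lf (nat_lit 225002) (.g (nat_lit 3451) (.e (nat_lit 98341) (nat_lit 20) (.e (nat_lit 221214) (nat_lit 23) (.e (nat_lit 204861) (nat_lit 26) (.e (nat_lit 336025) (nat_lit 3) (.e (nat_lit 98333) (nat_lit 18) (.e (nat_lit 164183) (nat_lit 154) (.e (nat_lit 57379) (nat_lit 3) .nil))))))) (.g (nat_lit 5) .nil .nil)))) (.nd (nat_lit 5) 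
(.lf (nat_lit 224986) (.g (nat_lit 1954) (.e (nat_lit 98341) (nat_lit 20) (.e (nat_lit 221214) (nat_lit 23) (.e (nat_lit 204829) (nat_lit 18) (.e (nat_lit 57927) (nat_lit 282) (.e (nat_lit 163875) (nat_lit 3) .nil))))) .nil)) 
(.lf (nat_lit 225018) (.g (nat_lit 3227) (.e (nat_lit 98341) (nat_lit 20) (.e (nat_lit 221214) (nat_lit 23) (.e (nat_lit 204880) (nat_lit 32) (.e (nat_lit 385066) (nat_lit 26) (.e (nat_lit 532501) (nat_lit 1) (.e (nat_lit 57854) (nat_lit 252) (.e (nat_lit 57378) (nat_lit 3) .nil))))))) (.g (nat_lit 5) .nil .nil)))))) (.nd (nat_lit 3) (.nd (nat_lit 4) (.nd (nat_lit 5) 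
(.lf (nat_lit 224966) (.g (nat_lit 3458) (.e (nat_lit 98341) (nat_lit 20) (.e (nat_lit 221212) (nat_lit 22) (.e (nat_lit 196668) (nat_lit 14) (.e (nat_lit 73747) (nat_lit 3) (.e (nat_lit 516119) (nat_lit 1) (.e (nat_lit 164150) (nat_lit 152) (.e (nat_lit 974) (nat_lit 81) (.e (nat_lit 1256) (nat_lit 92) .nil)))))))) (.g (nat_lit 5) .nil .nil))) 
(.lf (nat_lit 224998) (.g (nat_lit 2578) (.e (nat_lit 98341) (nat_lit 20) (.e (nat_lit 221214) (nat_lit 23) (.e (nat_lit 204861) (nat_lit 26) (.e (nat_lit 336012) (nat_lit 2) (.e (nat_lit 90164) (nat_lit 12) (.e (nat_lit 164017) (nat_lit 44) (.e (nat_lit 688157) (nat_lit 13) (.e (nat_lit 1252) (nat_lit 92) .nil)))))))) (.g (nat_lit 4) .nil .nil)))) (.nd (nat_lit 5) 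
(.lf (nat_lit 224982) (.g (nat_lit 3981) (.e (nat_lit 98341) (nat_lit 20) (.e (nat_lit 221214) (nat_lit 23) (.e (nat_lit 204829) (nat_lit 18) (.e (nat_lit 57847) (nat_lit 252) (.e (nat_lit 57378) (nat_lit 3) (.e (nat_lit 98313) (nat_lit 9) (.e (nat_lit 336027) (nat_lit 3) .nil))))))) (.g (nat_lit 5) .nil .nil))) 
(.lf (nat_lit 225014) (.g (nat_lit 1273) (.e (nat_lit 98341) (nat_lit 20) (.e (nat_lit 221214) (nat_lit 23) (.e (nat_lit 204880) (nat_lit 32) (.e (nat_lit 385066) (nat_lit 26) .nil)))) .nil)))) (.nd (nat_lit 4) (.nd (nat_lit 5) 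
(.lf (nat_lit 224974) (.g (nat_lit 987) (.e (nat_lit 98341) (nat_lit 20) (.e (nat_lit 221212) (nat_lit 22) (.e (nat_lit 196681) (nat_lit 17) (.e (nat_lit 131096) (nat_lit 3) .nil)))) .nil)) 
(.lf (nat_lit 225006) (.g (nat_lit 3762) (.e (nat_lit 98341) (nat_lit 20) (.e (nat_lit 221214) (nat_lit 23) (.e (nat_lit 204862) (nat_lit 27) (.e (nat_lit 344117) (nat_lit 21) (.e (nat_lit 516116) (nat_lit 1) (.e (nat_lit 164181) (nat_lit 154) (.e (nat_lit 57379) (nat_lit 3) .nil))))))) (.g (nat_lit 5) .nil .nil)))) (.nd (nat_lit 5) 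
(.lf (nat_lit 224990) (.g (nat_lit 2568) (.e (nat_lit 98341) (nat_lit 20) (.e (nat_lit 221214) (nat_lit 23) (.e (nat_lit 204830) (nat_lit 18) (.e (nat_lit 57852) (nat_lit 252) (.e (nat_lit 57373) (nat_lit 2) .nil))))) .nil)) 
(.lf (nat_lit 225022) (.g (nat_lit 3682) (.e (nat_lit 98341) (nat_lit 20) (.e (nat_lit 221214) (nat_lit 23) (.e (nat_lit 204880) (nat_lit 32) (.e (nat_lit 385066) (nat_lit 26) (.e (nat_lit 532504) (nat_lit 1) (.e (nat_lit 57854) (nat_lit 252) (.e (nat_lit 57378) (nat_lit 3) .nil))))))) (.g (nat_lit 6) .nil .nil)))))))) 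
(.nd (nat_lit 1) (.nd (nat_lit 2) (.nd (nat_lit 3) (.nd (nat_lit 4) (.nd (nat_lit 5) 
(.lf (nat_lit 224961) (.g (nat_lit 3023) (.e (nat_lit 98341) (nat_lit 20) (.e (nat_lit 221211) (nat_lit 22) (.e (nat_lit 196666) (nat_lit 13) (.e (nat_lit 65571) (nat_lit 3) (.e (nat_lit 98335) (nat_lit 18) (.e (nat_lit 164179) (nat_lit 154) (.e (nat_lit 57377) (nat_lit 3) .nil))))))) (.g (nat_lit 4) .nil .nil))) 
(.lf (nat_lit 224993) (.g (nat_lit 2369) (.e (nat_lit 98341) (nat_lit 20) (.e (nat_lit 221214) (nat_lit 23) (.e (nat_lit 204852) (nat_lit 26) (.e (nat_lit 336326) (nat_lit 18) (.e (nat_lit 204830) (nat_lit 18) (.e (nat_lit 57830) (nat_lit 250) (.e (nat_lit 1016) (nat_lit 81) (.e (nat_lit 1256) (nat_lit 92) .nil)))))))) (.g (nat_lit 4) .nil .nil)))) (.nd (nat_lit 5) 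
(.lf (nat_lit 224977) (.g (nat_lit 1855) (.e (nat_lit 98341) (nat_lit 20) (.e (nat_lit 221213) (nat_lit 23) (.e (nat_lit 204830) (nat_lit 18) (.e (nat_lit 57854) (nat_lit 252) (.e (nat_lit 57378) (nat_lit 3) .nil))))) .nil)) 
(.lf (nat_lit 225009) (.g (nat_lit 1697) (.e (nat_lit 98341) (nat_lit 20) (.e (nat_lit 221214) (nat_lit 23) (.e (nat_lit 204863) (nat_lit 27) (.e (nat_lit 344118) (nat_lit 21) .nil)))) .nil)))) (.nd (nat_lit 4) (.nd (nat_lit 5) 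
(.lf (nat_lit 224969) (.g (nat_lit 2750) (.e (nat_lit 98341) (nat_lit 20) (.e (nat_lit 221212) (nat_lit 22) (.e (nat_lit 196670) (nat_lit 14) (.e (nat_lit 73746) (nat_lit 3) (.e (nat_lit 516117) (nat_lit 1) (.e (nat_lit 164147) (nat_lit 152) (.e (nat_lit 974) (nat_lit 81) (.e (nat_lit 1256) (nat_lit 92) .nil)))))))) (.g (nat_lit 5) .nil .nil))) 
(.lf (nat_lit 225001) (.g (nat_lit 1522) (.e (nat_lit 98341) (nat_lit 20) (.e (nat_lit 221214) (nat_lit 23) (.e (nat_lit 204861) (nat_lit 26) (.e (nat_lit 336025) (nat_lit 3) .nil)))) .nil))) (.nd (nat_lit 5) 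
(.lf (nat_lit 224985) (.g (nat_lit 1641) (.e (nat_lit 98341) (nat_lit 20) (.e (nat_lit 221214) (nat_lit 23) (.e (nat_lit 204829) (nat_lit 18) (.e (nat_lit 57854) (nat_lit 252) .nil)))) .nil)) 
(.lf (nat_lit 225017) (.g (nat_lit 2791) (.e (nat_lit 98341) (nat_lit 20) (.e (nat_lit 221214) (nat_lit 23) (.e (nat_lit 204880) (nat_lit 32) (.e (nat_lit 385066) (nat_lit 26) (.e (nat_lit 532501) (nat_lit 1) (.e (nat_lit 57830) (nat_lit 250) (.e (nat_lit 999) (nat_lit 81) (.e (nat_lit 1256) (nat_lit 92) .nil)))))))) (.g (nat_lit 4) .nil .nil)))))) 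
(.nd (nat_lit 3) (.nd (nat_lit 4) (.nd (nat_lit 5) 
(.lf (nat_lit 224965) (.g (nat_lit 3386) (.e (nat_lit 98341) (nat_lit 20) (.e (nat_lit 221212) (nat_lit 22) (.e (nat_lit 196668) (nat_lit 14) (.e (nat_lit 73747) (nat_lit 3) (.e (nat_lit 516119) (nat_lit 1) (.e (nat_lit 164149) (nat_lit 152) (.e (nat_lit 974) (nat_lit 81) (.e (nat_lit 1256) (nat_lit 92) .nil)))))))) (.g (nat_lit 5) .nil .nil))) 
(.lf (nat_lit 224997) (.g (nat_lit 1867) (.e (nat_lit 98341) (nat_lit 20) (.e (nat_lit 221214) (nat_lit 23) (.e (nat_lit 204859) (nat_lit 26) (.e (nat_lit 336017) (nat_lit 3) (.e (nat_lit 98334) (nat_lit 18) .nil))))) .nil))) (.nd (nat_lit 5) 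
(.lf (nat_lit 224981) (.g (nat_lit 4660) (.e (nat_lit 98341) (nat_lit 20) (.e (nat_lit 221214) (nat_lit 23) (.e (nat_lit 204829) (nat_lit 18) (.e (nat_lit 57847) (nat_lit 252) (.e (nat_lit 57377) (nat_lit 3) (.e (nat_lit 98317) (nat_lit 9) (.e (nat_lit 336027) (nat_lit 3) .nil))))))) (.g (nat_lit 6) .nil .nil))) 
(.lf (nat_lit 225013) (.g (nat_lit 2238) (.e (nat_lit 98341) (nat_lit 20) (.e (nat_lit 221214) (nat_lit 23) (.e (nat_lit 204873) (nat_lit 30) (.e (nat_lit 368676) (nat_lit 21) (.e (nat_lit 516118) (nat_lit 1) .nil))))) .nil)))) (.nd (nat_lit 4) (.nd (nat_lit 5) 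
(.lf (nat_lit 224973) (.g (nat_lit 3393) (.e (nat_lit 98341) (nat_lit 20) (.e (nat_lit 221212) (nat_lit 22) (.e (nat_lit 196670) (nat_lit 14) (.e (nat_lit 73746) (nat_lit 3) (.e (nat_lit 516119) (nat_lit 1) (.e (nat_lit 164150) (nat_lit 152) (.e (nat_lit 974) (nat_lit 81) (.e (nat_lit 1256) (nat_lit 92) .nil)))))))) (.g (nat_lit 5) .nil .nil))) 
(.lf (nat_lit 225005) (.g (nat_lit 3646) (.e (nat_lit 98341) (nat_lit 20) (.e (nat_lit 221214) (nat_lit 23) (.e (nat_lit 204862) (nat_lit 27) (.e (nat_lit 344117) (nat_lit 21) (.e (nat_lit 516116) (nat_lit 1) (.e (nat_lit 164180) (nat_lit 154) (.e (nat_lit 57378) (nat_lit 3) .nil))))))) (.g (nat_lit 5) .nil .nil)))) (.nd (nat_lit 5) 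
(.lf (nat_lit 224989) (.g (nat_lit 4894) (.e (nat_lit 98341) (nat_lit 20) (.e (nat_lit 221214) (nat_lit 23) (.e (nat_lit 204830) (nat_lit 18) (.e (nat_lit 57852) (nat_lit 252) (.e (nat_lit 57371) (nat_lit 2) (.e (nat_lit 90160) (nat_lit 11) (.e (nat_lit 24608) (nat_lit 3) .nil))))))) (.g (nat_lit 6) .nil .nil))) 
(.lf (nat_lit 225021) (.g (nat_lit 2956) (.e (nat_lit 98341) (nat_lit 20) (.e (nat_lit 221214) (nat_lit 23) (.e (nat_lit 204880) (nat_lit 32) (.e (nat_lit 385066) (nat_lit 26) (.e (nat_lit 532504) (nat_lit 1) (.e (nat_lit 57852) (nat_lit 252) (.e (nat_lit 57376) (nat_lit 3) .nil))))))) (.g (nat_lit 5) .nil .nil))))))) (.nd (nat_lit 2) (.nd (nat_lit 3) (.nd (nat_lit 4) (.nd (nat_lit 5) 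
(.lf (nat_lit 224963) (.g (nat_lit 3227) (.e (nat_lit 98341) (nat_lit 20) (.e (nat_lit 221212) (nat_lit 22) (.e (nat_lit 196668) (nat_lit 14) (.e (nat_lit 73747) (nat_lit 3) (.e (nat_lit 516115) (nat_lit 1) (.e (nat_lit 164150) (nat_lit 152) (.e (nat_lit 974) (nat_lit 81) (.e (nat_lit 1256) (nat_lit 92) .nil)))))))) (.g (nat_lit 5) .nil .nil))) 
(.lf (nat_lit 224995) (.g (nat_lit 3847) (.e (nat_lit 98341) (nat_lit 20) (.e (nat_lit 221214) (nat_lit 23) (.e (nat_lit 204852) (nat_lit 26) (.e (nat_lit 336326) (nat_lit 18) (.e (nat_lit 204831) (nat_lit 18) (.e (nat_lit 57852) (nat_lit 252) (.e (nat_lit 57376) (nat_lit 3) .nil))))))) (.g (nat_lit 6) .nil .nil)))) (.nd (nat_lit 5) 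
(.lf (nat_lit 224979) (.g (nat_lit 751) (.e (nat_lit 98341) (nat_lit 20) (.e (nat_lit 221214) (nat_lit 23) (.e (nat_lit 204819) (nat_lit 17) .nil))) .nil)) 
(.lf (nat_lit 225011) (.g (nat_lit 1777) (.e (nat_lit 98341) (nat_lit 20) (.e (nat_lit 221214) (nat_lit 23) (.e (nat_lit 204863) (nat_lit 27) (.e (nat_lit 344120) (nat_lit 21) .nil)))) .nil)))) (.nd (nat_lit 4) (.nd (nat_lit 5) 
(.lf (nat_lit 224971) (.g (nat_lit 2377) (.e (nat_lit 98341) (nat_lit 20) (.e (nat_lit 221212) (nat_lit 22) (.e (nat_lit 196670) (nat_lit 14) (.e (nat_lit 73746) (nat_lit 3) (.e (nat_lit 516119) (nat_lit 1) (.e (nat_lit 164147) (nat_lit 152) (.e (nat_lit 974) (nat_lit 81) (.e (nat_lit 1256) (nat_lit 92) .nil)))))))) (.g (nat_lit 4) .nil .nil))) 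
(.lf (nat_lit 225003) (.g (nat_lit 1773) (.e (nat_lit 98341) (nat_lit 20) (.e (nat_lit 221214) (nat_lit 23) (.e (nat_lit 204861) (nat_lit 26) (.e (nat_lit 336026) (nat_lit 3) (.e (nat_lit 98335) (nat_lit 18) .nil))))) .nil))) (.nd (nat_lit 5) 
(.lf (nat_lit 224987) (.g (nat_lit 1699) (.e (nat_lit 98341) (nat_lit 20) (.e (nat_lit 221214) (nat_lit 23) (.e (nat_lit 204830) (nat_lit 18) (.e (nat_lit 57830) (nat_lit 250) .nil)))) .nil)) 
(.lf (nat_lit 225019) (.g (nat_lit 2325) (.e (nat_lit 98341) (nat_lit 20) (.e (nat_lit 221214) (nat_lit 23) (.e (nat_lit 204880) (nat_lit 32) (.e (nat_lit 385066) (nat_lit 26) (.e (nat_lit 532502) (nat_lit 1) (.e (nat_lit 57847) (nat_lit 252) (.e (nat_lit 57379) (nat_lit 3) .nil))))))) (.g (nat_lit 4) .nil .nil)))))) (.nd (nat_lit 3) (.nd (nat_lit 4) (.nd (nat_lit 5) 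
(.lf (nat_lit 224967) (.g (nat_lit 3378) (.e (nat_lit 98341) (nat_lit 20) (.e (nat_lit 221212) (nat_lit 22) (.e (nat_lit 196670) (nat_lit 14) (.e (nat_lit 73746) (nat_lit 3) (.e (nat_lit 516115) (nat_lit 1) (.e (nat_lit 164150) (nat_lit 152) (.e (nat_lit 974) (nat_lit 81) (.e (nat_lit 1256) (nat_lit 92) .nil)))))))) (.g (nat_lit 5) .nil .nil))) 
(.lf (nat_lit 224999) (.g (nat_lit 1986) (.e (nat_lit 98341) (nat_lit 20) (.e (nat_lit 221214) (nat_lit 23) (.e (nat_lit 204861) (nat_lit 26) (.e (nat_lit 336012) (nat_lit 2) (.e (nat_lit 90181) (nat_lit 16) .nil))))) .nil))) (.nd (nat_lit 5) 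
(.lf (nat_lit 224983) (.g (nat_lit 2364) (.e (nat_lit 98341) (nat_lit 20) (.e (nat_lit 221214) (nat_lit 23) (.e (nat_lit 204829) (nat_lit 18) (.e (nat_lit 57847) (nat_lit 252) (.e (nat_lit 57378) (nat_lit 3) (.e (nat_lit 98317) (nat_lit 9) (.e (nat_lit 336027) (nat_lit 3) .nil))))))) (.g (nat_lit 4) .nil .nil))) 
(.lf (nat_lit 225015) (.g (nat_lit 4907) (.e (nat_lit 98341) (nat_lit 20) (.e (nat_lit 221214) (nat_lit 23) (.e (nat_lit 204880) (nat_lit 32) (.e (nat_lit 385066) (nat_lit 26) (.e (nat_lit 532499) (nat_lit 1) (.e (nat_lit 57847) (nat_lit 252) (.e (nat_lit 57379) (nat_lit 3) .nil))))))) (.g (nat_lit 6) .nil .nil))))) (.nd (nat_lit 4) (.nd (nat_lit 5) 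
(.lf (nat_lit 224975) (.g (nat_lit 1035) (.e (nat_lit 98341) (nat_lit 20) (.e (nat_lit 221212) (nat_lit 22) (.e (nat_lit 196681) (nat_lit 17) (.e (nat_lit 131098) (nat_lit 3) .nil)))) .nil)) 
(.lf (nat_lit 225007) (.g (nat_lit 1331) (.e (nat_lit 98341) (nat_lit 20) (.e (nat_lit 221214) (nat_lit 23) (.e (nat_lit 204862) (nat_lit 27) (.e (nat_lit 344118) (nat_lit 21) .nil)))) .nil))) (.nd (nat_lit 5) 
(.lf (nat_lit 224991) (.g (nat_lit 4328) (.e (nat_lit 98341) (nat_lit 20) (.e (nat_lit 221214) (nat_lit 23) (.e (nat_lit 204830) (nat_lit 18) (.e (nat_lit 57854) (nat_lit 252) (.e (nat_lit 57371) (nat_lit 2) (.e (nat_lit 90160) (nat_lit 11) (.e (nat_lit 24608) (nat_lit 3) .nil))))))) (.g (nat_lit 7) .nil .nil))) 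
(.lf (nat_lit 225023) (.g (nat_lit 2850) (.e (nat_lit 98341) (nat_lit 20) (.e (nat_lit 221214) (nat_lit 23) (.e (nat_lit 204882) (nat_lit 32) (.e (nat_lit 385068) (nat_lit 26) (.e (nat_lit 532504) (nat_lit 1) (.e (nat_lit 57854) (nat_lit 252) (.e (nat_lit 57378) (nat_lit 3) .nil))))))) (.g (nat_lit 4) .nil .nil)))))))))

noncomputable def tv2949 : DT := (.nd (nat_lit 0) (.nd (nat_lit 1) (.nd (nat_lit 2) (.nd (nat_lit 3) (.nd (nat_lit 4) (.nd (nat_lit 5) 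
(.lf (nat_lit 225024) (.g (nat_lit 860) (.e (nat_lit 98341) (nat_lit 20) (.e (nat_lit 221215) (nat_lit 23) (.e (nat_lit 204819) (nat_lit 17) .nil))) .nil)) 
(.lf (nat_lit 225056) (.g (nat_lit 1504) (.e (nat_lit 98341) (nat_lit 20) (.e (nat_lit 221215) (nat_lit 23) (.e (nat_lit 204861) (nat_lit 26) (.e (nat_lit 336021) (nat_lit 3) .nil)))) .nil))) (.nd (nat_lit 5) 
(.lf (nat_lit 225040) (.g (nat_lit 3898) (.e (nat_lit 98341) (nat_lit 20) (.e (nat_lit 221215) (nat_lit 23) (.e (nat_lit 204852) (nat_lit 26) (.e (nat_lit 336324) (nat_lit 18) (.e (nat_lit 204831) (nat_lit 18) (.e (nat_lit 57830) (nat_lit 250) (.e (nat_lit 999) (nat_lit 81) (.e (nat_lit 1256) (nat_lit 92) .nil)))))))) (.g (nat_lit 5) .nil .nil))) 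
(.lf (nat_lit 225072) (.g (nat_lit 2590) (.e (nat_lit 98341) (nat_lit 20) (.e (nat_lit 221215) (nat_lit 23) (.e (nat_lit 204863) (nat_lit 27) (.e (nat_lit 344117) (nat_lit 21) (.e (nat_lit 516118) (nat_lit 1) .nil))))) .nil)))) (.nd (nat_lit 4) (.nd (nat_lit 5) 
(.lf (nat_lit 225032) (.g (nat_lit 2756) (.e (nat_lit 98341) (nat_lit 20) (.e (nat_lit 221215) (nat_lit 23) (.e (nat_lit 204830) (nat_lit 18) (.e (nat_lit 57852) (nat_lit 252) (.e (nat_lit 57378) (nat_lit 3) (.e (nat_lit 98317) (nat_lit 9) (.e (nat_lit 336027) (nat_lit 3) .nil))))))) (.g (nat_lit 4) .nil .nil))) 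
(.lf (nat_lit 225064) (.g (nat_lit 1465) (.e (nat_lit 98341) (nat_lit 20) (.e (nat_lit 221215) (nat_lit 23) (.e (nat_lit 204862) (nat_lit 27) (.e (nat_lit 344118) (nat_lit 21) .nil)))) .nil))) (.nd (nat_lit 5) 
(.lf (nat_lit 225048) (.g (nat_lit 1501) (.e (nat_lit 98341) (nat_lit 20) (.e (nat_lit 221215) (nat_lit 23) (.e (nat_lit 204859) (nat_lit 26) (.e (nat_lit 336017) (nat_lit 3) .nil)))) .nil)) 
(.lf (nat_lit 225080) (.g (nat_lit 2337) (.e (nat_lit 98341) (nat_lit 20) (.e (nat_lit 221215) (nat_lit 23) (.e (nat_lit 204873) (nat_lit 30) (.e (nat_lit 368676) (nat_lit 21) (.e (nat_lit 516118) (nat_lit 1) .nil))))) .nil))))) (.nd (nat_lit 3) (.nd (nat_lit 4) (.nd (nat_lit 5) 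
(.lf (nat_lit 225028) (.g (nat_lit 3603) (.e (nat_lit 98341) (nat_lit 20) (.e (nat_lit 221215) (nat_lit 23) (.e (nat_lit 204829) (nat_lit 18) (.e (nat_lit 57847) (nat_lit 252) (.e (nat_lit 57378) (nat_lit 3) (.e (nat_lit 98313) (nat_lit 9) (.e (nat_lit 336027) (nat_lit 3) .nil))))))) (.g (nat_lit 5) .nil .nil))) 
(.lf (nat_lit 225060) (.g (nat_lit 742) (.e (nat_lit 98341) (nat_lit 20) (.e (nat_lit 221215) (nat_lit 23) (.e (nat_lit 204862) (nat_lit 27) .nil))) .nil))) (.nd (nat_lit 5) 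
(.lf (nat_lit 225044) (.g (nat_lit 3301) (.e (nat_lit 98341) (nat_lit 20) (.e (nat_lit 221215) (nat_lit 23) (.e (nat_lit 204852) (nat_lit 26) (.e (nat_lit 336326) (nat_lit 18) (.e (nat_lit 204831) (nat_lit 18) (.e (nat_lit 57830) (nat_lit 250) (.e (nat_lit 999) (nat_lit 81) (.e (nat_lit 1256) (nat_lit 92) .nil)))))))) (.g (nat_lit 6) .nil .nil))) 
(.lf (nat_lit 225076) (.g (nat_lit 1617) (.e (nat_lit 98341) (nat_lit 20) (.e (nat_lit 221215) (nat_lit 23) (.e (nat_lit 204863) (nat_lit 27) (.e (nat_lit 344118) (nat_lit 21) .nil)))) .nil)))) (.nd (nat_lit 4) (.nd (nat_lit 5) 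
(.lf (nat_lit 225036) (.g (nat_lit 2695) (.e (nat_lit 98341) (nat_lit 20) (.e (nat_lit 221215) (nat_lit 23) (.e (nat_lit 204831) (nat_lit 18) (.e (nat_lit 57852) (nat_lit 252) (.e (nat_lit 57377) (nat_lit 3) .nil))))) .nil)) 
(.lf (nat_lit 225068) (.g (nat_lit 3282) (.e (nat_lit 98341) (nat_lit 20) (.e (nat_lit 221215) (nat_lit 23) (.e (nat_lit 204863) (nat_lit 27) (.e (nat_lit 344117) (nat_lit 21) (.e (nat_lit 516099) (nat_lit 0) .nil))))) .nil))) (.nd (nat_lit 5) 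
(.lf (nat_lit 225052) (.g (nat_lit 2464) (.e (nat_lit 98341) (nat_lit 20) (.e (nat_lit 221215) (nat_lit 23) (.e (nat_lit 204861) (nat_lit 26) (.e (nat_lit 336012) (nat_lit 2) (.e (nat_lit 90130) (nat_lit 9) .nil))))) .nil)) 
(.lf (nat_lit 225084) (.g (nat_lit 2509) (.e (nat_lit 98341) (nat_lit 20) (.e (nat_lit 221215) (nat_lit 23) (.e (nat_lit 204880) (nat_lit 32) (.e (nat_lit 385066) (nat_lit 26) (.e (nat_lit 532504) (nat_lit 1) (.e (nat_lit 57830) (nat_lit 250) (.e (nat_lit 999) (nat_lit 81) (.e (nat_lit 1256) (nat_lit 92) .nil)))))))) (.g (nat_lit 4) .nil .nil))))))) 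
(.nd (nat_lit 2) (.nd (nat_lit 3) (.nd (nat_lit 4) (.nd (nat_lit 5) 
(.lf (nat_lit 225026) (.g (nat_lit 3024) (.e (nat_lit 98341) (nat_lit 20) (.e (nat_lit 221215) (nat_lit 23) (.e (nat_lit 204828) (nat_lit 18) (.e (nat_lit 57847) (nat_lit 252) (.e (nat_lit 57377) (nat_lit 3) (.e (nat_lit 98313) (nat_lit 9) (.e (nat_lit 336027) (nat_lit 3) .nil))))))) (.g (nat_lit 4) .nil .nil))) 
(.lf (nat_lit 225058) (.g (nat_lit 1618) (.e (nat_lit 98341) (nat_lit 20) (.e (nat_lit 221215) (nat_lit 23) (.e (nat_lit 204861) (nat_lit 26) (.e (nat_lit 336025) (nat_lit 3) .nil)))) .nil))) (.nd (nat_lit 5) 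
(.lf (nat_lit 225042) (.g (nat_lit 2344) (.e (nat_lit 98341) (nat_lit 20) (.e (nat_lit 221215) (nat_lit 23) (.e (nat_lit 204852) (nat_lit 26) (.e (nat_lit 336326) (nat_lit 18) (.e (nat_lit 204830) (nat_lit 18) (.e (nat_lit 57830) (nat_lit 250) (.e (nat_lit 1016) (nat_lit 81) (.e (nat_lit 1256) (nat_lit 92) .nil)))))))) (.g (nat_lit 4) .nil .nil))) 
(.lf (nat_lit 225074) (.g (nat_lit 3019) (.e (nat_lit 98341) (nat_lit 20) (.e (nat_lit 221215) (nat_lit 23) (.e (nat_lit 204863) (nat_lit 27) (.e (nat_lit 344117) (nat_lit 21) (.e (nat_lit 516118) (nat_lit 1) (.e (nat_lit 164179) (nat_lit 154) (.e (nat_lit 57378) (nat_lit 3) .nil))))))) (.g (nat_lit 4) .nil .nil))))) (.nd (nat_lit 4) (.nd (nat_lit 5) 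
(.lf (nat_lit 225034) (.g (nat_lit 3566) (.e (nat_lit 98341) (nat_lit 20) (.e (nat_lit 221215) (nat_lit 23) (.e (nat_lit 204831) (nat_lit 18) (.e (nat_lit 57847) (nat_lit 252) (.e (nat_lit 57377) (nat_lit 3) .nil))))) .nil)) 
(.lf (nat_lit 225066) (.g (nat_lit 1842) (.e (nat_lit 98341) (nat_lit 20) (.e (nat_lit 221215) (nat_lit 23) (.e (nat_lit 204862) (nat_lit 27) (.e (nat_lit 344123) (nat_lit 24) (.e (nat_lit 540675) (nat_lit 0) .nil))))) .nil))) (.nd (nat_lit 5) 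
(.lf (nat_lit 225050) (.g (nat_lit 1618) (.e (nat_lit 98341) (nat_lit 20) (.e (nat_lit 221215) (nat_lit 23) (.e (nat_lit 204861) (nat_lit 26) (.e (nat_lit 336010) (nat_lit 2) .nil)))) .nil)) 
(.lf (nat_lit 225082) (.g (nat_lit 2432) (.e (nat_lit 98341) (nat_lit 20) (.e (nat_lit 221215) (nat_lit 23) (.e (nat_lit 204880) (nat_lit 32) (.e (nat_lit 385066) (nat_lit 26) (.e (nat_lit 532501) (nat_lit 1) (.e (nat_lit 57830) (nat_lit 250) (.e (nat_lit 999) (nat_lit 81) (.e (nat_lit 1256) (nat_lit 92) .nil)))))))) (.g (nat_lit 4) .nil .nil)))))) 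
(.nd (nat_lit 3) (.nd (nat_lit 4) (.nd (nat_lit 5) 
(.lf (nat_lit 225030) (.g (nat_lit 1376) (.e (nat_lit 98341) (nat_lit 20) (.e (nat_lit 221215) (nat_lit 23) (.e (nat_lit 204829) (nat_lit 18) (.e (nat_lit 57854) (nat_lit 252) .nil)))) .nil)) 
(.lf (nat_lit 225062) (.g (nat_lit 2297) (.e (nat_lit 98341) (nat_lit 20) (.e (nat_lit 221215) (nat_lit 23) (.e (nat_lit 204862) (nat_lit 27) (.e (nat_lit 344117) (nat_lit 21) (.e (nat_lit 516115) (nat_lit 1) (.e (nat_lit 164179) (nat_lit 154) (.e (nat_lit 57376) (nat_lit 3) .nil))))))) (.g (nat_lit 4) .nil .nil)))) (.nd (nat_lit 5) 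
(.lf (nat_lit 225046) (.g (nat_lit 4293) (.e (nat_lit 98341) (nat_lit 20) (.e (nat_lit 221215) (nat_lit 23) (.e (nat_lit 204852) (nat_lit 26) (.e (nat_lit 336326) (nat_lit 18) (.e (nat_lit 204831) (nat_lit 18) (.e (nat_lit 57849) (nat_lit 252) (.e (nat_lit 57379) (nat_lit 3) .nil))))))) (.g (nat_lit 7) .nil .nil))) 
(.lf (nat_lit 225078) (.g (nat_lit 1644) (.e (nat_lit 98341) (nat_lit 20) (.e (nat_lit 221215) (nat_lit 23) (.e (nat_lit 204863) (nat_lit 27) (.e (nat_lit 344120) (nat_lit 21) .nil)))) .nil)))) (.nd (nat_lit 4) (.nd (nat_lit 5) 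
(.lf (nat_lit 225038) (.g (nat_lit 1114) (.e (nat_lit 98341) (nat_lit 20) (.e (nat_lit 221215) (nat_lit 23) (.e (nat_lit 204850) (nat_lit 26) (.e (nat_lit 336028) (nat_lit 3) .nil)))) .nil)) 
(.lf (nat_lit 225070) (.g (nat_lit 2534) (.e (nat_lit 98341) (nat_lit 20) (.e (nat_lit 221215) (nat_lit 23) (.e (nat_lit 204863) (nat_lit 27) (.e (nat_lit 344117) (nat_lit 21) (.e (nat_lit 516115) (nat_lit 1) (.e (nat_lit 164179) (nat_lit 154) (.e (nat_lit 57376) (nat_lit 3) .nil))))))) (.g (nat_lit 4) .nil .nil)))) (.nd (nat_lit 5) 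
(.lf (nat_lit 225054) (.g (nat_lit 3187) (.e (nat_lit 98341) (nat_lit 20) (.e (nat_lit 221215) (nat_lit 23) (.e (nat_lit 204861) (nat_lit 26) (.e (nat_lit 336012) (nat_lit 2) (.e (nat_lit 90164) (nat_lit 12) (.e (nat_lit 164017) (nat_lit 44) (.e (nat_lit 688157) (nat_lit 13) (.e (nat_lit 1252) (nat_lit 92) .nil)))))))) (.g (nat_lit 4) .nil .nil))) 
(.lf (nat_lit 225086) (.g (nat_lit 3534) (.e (nat_lit 98341) (nat_lit 20) (.e (nat_lit 221215) (nat_lit 23) (.e (nat_lit 204880) (nat_lit 32) (.e (nat_lit 385066) (nat_lit 26) (.e (nat_lit 532504) (nat_lit 1) (.e (nat_lit 57852) (nat_lit 252) (.e (nat_lit 57378) (nat_lit 3) .nil))))))) (.g (nat_lit 6) .nil .nil)))))))) 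
(.nd (nat_lit 1) (.nd (nat_lit 2) (.nd (nat_lit 3) (.nd (nat_lit 4) (.nd (nat_lit 5) 
(.lf (nat_lit 225025) (.g (nat_lit 868) (.e (nat_lit 98341) (nat_lit 20) (.e (nat_lit 221215) (nat_lit 23) (.e (nat_lit 204828) (nat_lit 18) .nil))) .nil)) 
(.lf (nat_lit 225057) (.g (nat_lit 4754) (.e (nat_lit 98341) (nat_lit 20) (.e (nat_lit 221215) (nat_lit 23) (.e (nat_lit 204861) (nat_lit 26) (.e (nat_lit 336021) (nat_lit 3) (.e (nat_lit 98333) (nat_lit 18) (.e (nat_lit 164179) (nat_lit 154) (.e (nat_lit 57377) (nat_lit 3) .nil))))))) (.g (nat_lit 7) .nil .nil)))) (.nd (nat_lit 5) 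
(.lf (nat_lit 225041) (.g (nat_lit 3431) (.e (nat_lit 98341) (nat_lit 20) (.e (nat_lit 221215) (nat_lit 23) (.e (nat_lit 204852) (nat_lit 26) (.e (nat_lit 336326) (nat_lit 18) (.e (nat_lit 204830) (nat_lit 18) (.e (nat_lit 57830) (nat_lit 250) (.e (nat_lit 999) (nat_lit 81) (.e (nat_lit 1256) (nat_lit 92) .nil)))))))) (.g (nat_lit 6) .nil .nil))) 
(.lf (nat_lit 225073) (.g (nat_lit 3212) (.e (nat_lit 98341) (nat_lit 20) (.e (nat_lit 221215) (nat_lit 23) (.e (nat_lit 204863) (nat_lit 27) (.e (nat_lit 344117) (nat_lit 21) (.e (nat_lit 516118) (nat_lit 1) (.e (nat_lit 164179) (nat_lit 154) (.e (nat_lit 57377) (nat_lit 3) .nil))))))) (.g (nat_lit 4) .nil .nil))))) (.nd (nat_lit 4) (.nd (nat_lit 5) 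
(.lf (nat_lit 225033) (.g (nat_lit 853) (.e (nat_lit 98341) (nat_lit 20) (.e (nat_lit 221215) (nat_lit 23) (.e (nat_lit 204831) (nat_lit 18) .nil))) .nil)) 
(.lf (nat_lit 225065) (.g (nat_lit 1465) (.e (nat_lit 98341) (nat_lit 20) (.e (nat_lit 221215) (nat_lit 23) (.e (nat_lit 204862) (nat_lit 27) (.e (nat_lit 344119) (nat_lit 21) .nil)))) .nil))) (.nd (nat_lit 5) 
(.lf (nat_lit 225049) (.g (nat_lit 2778) (.e (nat_lit 98341) (nat_lit 20) (.e (nat_lit 221215) (nat_lit 23) (.e (nat_lit 204861) (nat_lit 26) (.e (nat_lit 336004) (nat_lit 2) (.e (nat_lit 90164) (nat_lit 12) .nil))))) .nil)) 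
(.lf (nat_lit 225081) (.g (nat_lit 2180) (.e (nat_lit 98341) (nat_lit 20) (.e (nat_lit 221215) (nat_lit 23) (.e (nat_lit 204879) (nat_lit 32) (.e (nat_lit 385068) (nat_lit 26) (.e (nat_lit 532504) (nat_lit 1) (.e (nat_lit 57854) (nat_lit 252) (.e (nat_lit 57378) (nat_lit 3) .nil))))))) (.g (nat_lit 4) .nil .nil)))))) (.nd (nat_lit 3) (.nd (nat_lit 4) (.nd (nat_lit 5) 
(.lf (nat_lit 225029) (.g (nat_lit 4710) (.e (nat_lit 98341) (nat_lit 20) (.e (nat_lit 221215) (nat_lit 23) (.e (nat_lit 204829) (nat_lit 18) (.e (nat_lit 57849) (nat_lit 252) (.e (nat_lit 57377) (nat_lit 3) (.e (nat_lit 98317) (nat_lit 9) (.e (nat_lit 336027) (nat_lit 3) .nil))))))) (.g (nat_lit 6) .nil .nil))) 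
(.lf (nat_lit 225061) (.g (nat_lit 1328) (.e (nat_lit 98341) (nat_lit 20) (.e (nat_lit 221215) (nat_lit 23) (.e (nat_lit 204862) (nat_lit 27) (.e (nat_lit 344117) (nat_lit 21) .nil)))) .nil))) (.nd (nat_lit 5) 
(.lf (nat_lit 225045) (.g (nat_lit 2230) (.e (nat_lit 98341) (nat_lit 20) (.e (nat_lit 221215) (nat_lit 23) (.e (nat_lit 204852) (nat_lit 26) (.e (nat_lit 336326) (nat_lit 18) (.e (nat_lit 204831) (nat_lit 18) (.e (nat_lit 57830) (nat_lit 250) (.e (nat_lit 1016) (nat_lit 81) (.e (nat_lit 1256) (nat_lit 92) .nil)))))))) (.g (nat_lit 4) .nil .nil))) 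
(.lf (nat_lit 225077) (.g (nat_lit 1881) (.e (nat_lit 98341) (nat_lit 20) (.e (nat_lit 221215) (nat_lit 23) (.e (nat_lit 204863) (nat_lit 27) (.e (nat_lit 344118) (nat_lit 21) (.e (nat_lit 516120) (nat_lit 1) .nil))))) .nil)))) (.nd (nat_lit 4) (.nd (nat_lit 5) 
(.lf (nat_lit 225037) (.g (nat_lit 815) (.e (nat_lit 98341) (nat_lit 20) (.e (nat_lit 221215) (nat_lit 23) (.e (nat_lit 204850) (nat_lit 26) .nil))) .nil)) 
(.lf (nat_lit 225069) (.g (nat_lit 2125) (.e (nat_lit 98341) (nat_lit 20) (.e (nat_lit 221215) (nat_lit 23) (.e (nat_lit 204863) (nat_lit 27) (.e (nat_lit 344117) (nat_lit 21) (.e (nat_lit 516115) (nat_lit 1) .nil))))) .nil))) (.nd (nat_lit 5) 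
(.lf (nat_lit 225053) (.g (nat_lit 2449) (.e (nat_lit 98341) (nat_lit 20) (.e (nat_lit 221215) (nat_lit 23) (.e (nat_lit 204861) (nat_lit 26) (.e (nat_lit 336012) (nat_lit 2) (.e (nat_lit 90164) (nat_lit 12) .nil))))) .nil)) 
(.lf (nat_lit 225085) (.g (nat_lit 2486) (.e (nat_lit 98341) (nat_lit 20) (.e (nat_lit 221215) (nat_lit 23) (.e (nat_lit 204880) (nat_lit 32) (.e (nat_lit 385066) (nat_lit 26) (.e (nat_lit 532504) (nat_lit 1) (.e (nat_lit 57852) (nat_lit 252) (.e (nat_lit 57376) (nat_lit 3) .nil))))))) (.g (nat_lit 4) .nil .nil))))))) (.nd (nat_lit 2) (.nd (nat_lit 3) (.nd (nat_lit 4) (.nd (nat_lit 5) 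
(.lf (nat_lit 225027) (.g (nat_lit 4871) (.e (nat_lit 98341) (nat_lit 20) (.e (nat_lit 221215) (nat_lit 23) (.e (nat_lit 204828) (nat_lit 18) (.e (nat_lit 57849) (nat_lit 252) (.e (nat_lit 57377) (nat_lit 3) (.e (nat_lit 98317) (nat_lit 9) (.e (nat_lit 336027) (nat_lit 3) .nil))))))) (.g (nat_lit 6) .nil .nil))) 
(.lf (nat_lit 225059) (.g (nat_lit 1604) (.e (nat_lit 98341) (nat_lit 20) (.e (nat_lit 221215) (nat_lit 23) (.e (nat_lit 204861) (nat_lit 26) (.e (nat_lit 336027) (nat_lit 3) .nil)))) .nil))) (.nd (nat_lit 5) 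
(.lf (nat_lit 225043) (.g (nat_lit 4001) (.e (nat_lit 98341) (nat_lit 20) (.e (nat_lit 221215) (nat_lit 23) (.e (nat_lit 204852) (nat_lit 26) (.e (nat_lit 336326) (nat_lit 18) (.e (nat_lit 204830) (nat_lit 18) (.e (nat_lit 57852) (nat_lit 252) (.e (nat_lit 57376) (nat_lit 3) .nil))))))) (.g (nat_lit 6) .nil .nil))) 
(.lf (nat_lit 225075) (.g (nat_lit 2677) (.e (nat_lit 98341) (nat_lit 20) (.e (nat_lit 221215) (nat_lit 23) (.e (nat_lit 204863) (nat_lit 27) (.e (nat_lit 344117) (nat_lit 21) (.e (nat_lit 516120) (nat_lit 1) .nil))))) .nil)))) (.nd (nat_lit 4) (.nd (nat_lit 5) 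
(.lf (nat_lit 225035) (.g (nat_lit 2817) (.e (nat_lit 98341) (nat_lit 20) (.e (nat_lit 221215) (nat_lit 23) (.e (nat_lit 204831) (nat_lit 18) (.e (nat_lit 57852) (nat_lit 252) (.e (nat_lit 57371) (nat_lit 2) .nil))))) .nil)) 
(.lf (nat_lit 225067) (.g (nat_lit 651) (.e (nat_lit 98341) (nat_lit 20) (.e (nat_lit 221215) (nat_lit 23) (.e (nat_lit 204863) (nat_lit 27) .nil))) .nil))) (.nd (nat_lit 5) 
(.lf (nat_lit 225051) (.g (nat_lit 1518) (.e (nat_lit 98341) (nat_lit 20) (.e (nat_lit 221215) (nat_lit 23) (.e (nat_lit 204861) (nat_lit 26) (.e (nat_lit 336012) (nat_lit 2) .nil)))) .nil)) 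
(.lf (nat_lit 225083) (.g (nat_lit 5356) (.e (nat_lit 98341) (nat_lit 20) (.e (nat_lit 221215) (nat_lit 23) (.e (nat_lit 204880) (nat_lit 32) (.e (nat_lit 385066) (nat_lit 26) (.e (nat_lit 532502) (nat_lit 1) (.e (nat_lit 57854) (nat_lit 252) (.e (nat_lit 57378) (nat_lit 3) .nil))))))) (.g (nat_lit 7) .nil .nil)))))) (.nd (nat_lit 3) (.nd (nat_lit 4) (.nd (nat_lit 5) 
(.lf (nat_lit 225031) (.g (nat_lit 2261) (.e (nat_lit 98341) (nat_lit 20) (.e (nat_lit 221215) (nat_lit 23) (.e (nat_lit 204830) (nat_lit 18) (.e (nat_lit 57830) (nat_lit 250) (.e (nat_lit 1175) (nat_lit 87) .nil))))) .nil)) 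
(.lf (nat_lit 225063) (.g (nat_lit 4290) (.e (nat_lit 98341) (nat_lit 20) (.e (nat_lit 221215) (nat_lit 23) (.e (nat_lit 204862) (nat_lit 27) (.e (nat_lit 344117) (nat_lit 21) (.e (nat_lit 516116) (nat_lit 1) (.e (nat_lit 164181) (nat_lit 154) (.e (nat_lit 57378) (nat_lit 3) .nil))))))) (.g (nat_lit 5) .nil .nil)))) (.nd (nat_lit 5) 
(.lf (nat_lit 225047) (.g (nat_lit 3729) (.e (nat_lit 98341) (nat_lit 20) (.e (nat_lit 221215) (nat_lit 23) (.e (nat_lit 204852) (nat_lit 26) (.e (nat_lit 336326) (nat_lit 18) (.e (nat_lit 204831) (nat_lit 18) (.e (nat_lit 57852) (nat_lit 252) (.e (nat_lit 57376) (nat_lit 3) .nil))))))) (.g (nat_lit 6) .nil .nil))) 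
(.lf (nat_lit 225079) (.g (nat_lit 2084) (.e (nat_lit 98341) (nat_lit 20) (.e (nat_lit 221215) (nat_lit 23) (.e (nat_lit 204872) (nat_lit 30) (.e (nat_lit 368676) (nat_lit 21) (.e (nat_lit 516118) (nat_lit 1) .nil))))) .nil)))) (.nd (nat_lit 4) (.nd (nat_lit 5) 
(.lf (nat_lit 225039) (.g (nat_lit 2443) (.e (nat_lit 98341) (nat_lit 20) (.e (nat_lit 221215) (nat_lit 23) (.e (nat_lit 204852) (nat_lit 26) (.e (nat_lit 336324) (nat_lit 18) (.e (nat_lit 204830) (nat_lit 18) (.e (nat_lit 57852) (nat_lit 252) (.e (nat_lit 57376) (nat_lit 3) .nil))))))) (.g (nat_lit 4) .nil .nil))) 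
(.lf (nat_lit 225071) (.g (nat_lit 2169) (.e (nat_lit 98341) (nat_lit 20) (.e (nat_lit 221215) (nat_lit 23) (.e (nat_lit 204863) (nat_lit 27) (.e (nat_lit 344117) (nat_lit 21) (.e (nat_lit 516115) (nat_lit 1) (.e (nat_lit 164183) (nat_lit 154) (.e (nat_lit 57376) (nat_lit 3) .nil))))))) (.g (nat_lit 4) .nil .nil)))) (.nd (nat_lit 5) 
(.lf (nat_lit 225055) (.g (nat_lit 2601) (.e (nat_lit 98341) (nat_lit 20) (.e (nat_lit 221215) (nat_lit 23) (.e (nat_lit 204861) (nat_lit 26) (.e (nat_lit 336012) (nat_lit 2) (.e (nat_lit 90164) (nat_lit 12) (.e (nat_lit 164017) (nat_lit 44) (.e (nat_lit 688157) (nat_lit 13) (.e (nat_lit 1254) (nat_lit 92) .nil)))))))) (.g (nat_lit 4) .nil .nil))) 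
(.lf (nat_lit 225087) (.g (nat_lit 4841) (.e (nat_lit 98341) (nat_lit 20) (.e (nat_lit 221215) (nat_lit 23) (.e (nat_lit 204880) (nat_lit 32) (.e (nat_lit 385068) (nat_lit 26) (.e (nat_lit 532504) (nat_lit 1) (.e (nat_lit 57852) (nat_lit 252) (.e (nat_lit 57378) (nat_lit 3) .nil))))))) (.g (nat_lit 6) .nil .nil)))))))))

noncomputable def tv2950 : DT := (.nd (nat_lit 0) (.nd (nat_lit 1) (.nd (nat_lit 2) (.nd (nat_lit 3) (.nd (nat_lit 4) (.nd (nat_lit 5) 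
(.lf (nat_lit 225088) (.g (nat_lit 846) (.e (nat_lit 98341) (nat_lit 20) (.e (nat_lit 221215) (nat_lit 23) (.e (nat_lit 204881) (nat_lit 32) .nil))) .nil)) 
(.lf (nat_lit 225120) (.g (nat_lit 2786) (.e (nat_lit 98342) (nat_lit 20) (.e (nat_lit 221190) (nat_lit 11) (.e (nat_lit 336027) (nat_lit 3) (.e (nat_lit 98365) (nat_lit 26) (.e (nat_lit 426188) (nat_lit 9) (.e (nat_lit 426437) (nat_lit 18) .nil)))))) (.g (nat_lit 5) .nil .nil)))) (.nd (nat_lit 5) 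
(.lf (nat_lit 225104) (.g (nat_lit 2358) (.e (nat_lit 98342) (nat_lit 20) (.e (nat_lit 221190) (nat_lit 11) (.e (nat_lit 336021) (nat_lit 3) (.e (nat_lit 98365) (nat_lit 26) (.e (nat_lit 426187) (nat_lit 9) (.e (nat_lit 426437) (nat_lit 18) .nil)))))) (.g (nat_lit 4) .nil .nil))) 
(.lf (nat_lit 225136) (.g (nat_lit 1454) (.e (nat_lit 98342) (nat_lit 20) (.e (nat_lit 221193) (nat_lit 11) (.e (nat_lit 336002) (nat_lit 2) (.e (nat_lit 90185) (nat_lit 17) (.e (nat_lit 237601) (nat_lit 9) .nil))))) .nil)))) (.nd (nat_lit 4) (.nd (nat_lit 5) 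
(.lf (nat_lit 225096) (.g (nat_lit 1988) (.e (nat_lit 98342) (nat_lit 20) (.e (nat_lit 221190) (nat_lit 11) (.e (nat_lit 336011) (nat_lit 2) (.e (nat_lit 90185) (nat_lit 17) (.e (nat_lit 237601) (nat_lit 9) .nil))))) .nil)) 
(.lf (nat_lit 225128) (.g (nat_lit 1089) (.e (nat_lit 98342) (nat_lit 20) (.e (nat_lit 221191) (nat_lit 11) (.e (nat_lit 336017) (nat_lit 3) (.e (nat_lit 98382) (nat_lit 31) (.e (nat_lit 474880) (nat_lit 3) .nil))))) (.g (nat_lit 4) .nil .nil)))) (.nd (nat_lit 5) 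
(.lf (nat_lit 225112) (.g (nat_lit 2419) (.e (nat_lit 98342) (nat_lit 20) (.e (nat_lit 221190) (nat_lit 11) (.e (nat_lit 336027) (nat_lit 3) (.e (nat_lit 98363) (nat_lit 26) (.e (nat_lit 426230) (nat_lit 9) (.e (nat_lit 426435) (nat_lit 18) .nil)))))) (.g (nat_lit 6) .nil .nil))) 
(.lf (nat_lit 225144) (.g (nat_lit 2045) (.e (nat_lit 98342) (nat_lit 20) (.e (nat_lit 221193) (nat_lit 11) (.e (nat_lit 336004) (nat_lit 2) (.e (nat_lit 90185) (nat_lit 17) (.e (nat_lit 237605) (nat_lit 9) (.e (nat_lit 426438) (nat_lit 18) .nil)))))) (.g (nat_lit 4) .nil .nil)))))) (.nd (nat_lit 3) (.nd (nat_lit 4) (.nd (nat_lit 5) 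
(.lf (nat_lit 225092) (.g (nat_lit 1371) (.e (nat_lit 98342) (nat_lit 20) (.e (nat_lit 221190) (nat_lit 11) (.e (nat_lit 336004) (nat_lit 2) (.e (nat_lit 90185) (nat_lit 17) (.e (nat_lit 237605) (nat_lit 9) .nil))))) .nil)) 
(.lf (nat_lit 225124) (.g (nat_lit 1414) (.e (nat_lit 98342) (nat_lit 20) (.e (nat_lit 221191) (nat_lit 11) (.e (nat_lit 336017) (nat_lit 3) (.e (nat_lit 98370) (nat_lit 28) (.e (nat_lit 450304) (nat_lit 3) .nil))))) (.g (nat_lit 4) .nil .nil)))) (.nd (nat_lit 5) 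
(.lf (nat_lit 225108) (.g (nat_lit 2831) (.e (nat_lit 98342) (nat_lit 20) (.e (nat_lit 221190) (nat_lit 11) (.e (nat_lit 336021) (nat_lit 3) (.e (nat_lit 98365) (nat_lit 26) (.e (nat_lit 426188) (nat_lit 9) (.e (nat_lit 426437) (nat_lit 18) .nil)))))) (.g (nat_lit 5) .nil .nil))) 
(.lf (nat_lit 225140) (.g (nat_lit 2089) (.e (nat_lit 98342) (nat_lit 20) (.e (nat_lit 221193) (nat_lit 11) (.e (nat_lit 336002) (nat_lit 2) (.e (nat_lit 90185) (nat_lit 17) (.e (nat_lit 237605) (nat_lit 9) (.e (nat_lit 426438) (nat_lit 18) .nil)))))) (.g (nat_lit 4) .nil .nil))))) (.nd (nat_lit 4) (.nd (nat_lit 5) 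
(.lf (nat_lit 225100) (.g (nat_lit 1857) (.e (nat_lit 98342) (nat_lit 20) (.e (nat_lit 221190) (nat_lit 11) (.e (nat_lit 336012) (nat_lit 2) (.e (nat_lit 90185) (nat_lit 17) (.e (nat_lit 237605) (nat_lit 9) (.e (nat_lit 426437) (nat_lit 18) .nil)))))) (.g (nat_lit 4) .nil .nil))) 
(.lf (nat_lit 225132) (.g (nat_lit 1146) (.e (nat_lit 98342) (nat_lit 20) (.e (nat_lit 221192) (nat_lit 11) (.e (nat_lit 336017) (nat_lit 3) (.e (nat_lit 98380) (nat_lit 31) (.e (nat_lit 474880) (nat_lit 3) .nil))))) (.g (nat_lit 4) .nil .nil)))) (.nd (nat_lit 5) 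
(.lf (nat_lit 225116) (.g (nat_lit 2420) (.e (nat_lit 98342) (nat_lit 20) (.e (nat_lit 221190) (nat_lit 11) (.e (nat_lit 336027) (nat_lit 3) (.e (nat_lit 98365) (nat_lit 26) (.e (nat_lit 426187) (nat_lit 9) (.e (nat_lit 426437) (nat_lit 18) .nil)))))) (.g (nat_lit 5) .nil .nil))) 
(.lf (nat_lit 225148) (.g (nat_lit 1317) (.e (nat_lit 98342) (nat_lit 20) (.e (nat_lit 221193) (nat_lit 11) (.e (nat_lit 336009) (nat_lit 2) (.e (nat_lit 90185) (nat_lit 17) (.e (nat_lit 237604) (nat_lit 9) .nil))))) .nil)))))) (.nd (nat_lit 2) (.nd (nat_lit 3) (.nd (nat_lit 4) (.nd (nat_lit 5) 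
(.lf (nat_lit 225090) (.g (nat_lit 3187) (.e (nat_lit 98341) (nat_lit 20) (.e (nat_lit 221215) (nat_lit 23) (.e (nat_lit 204882) (nat_lit 32) (.e (nat_lit 385068) (nat_lit 26) (.e (nat_lit 532504) (nat_lit 1) (.e (nat_lit 57854) (nat_lit 252) (.e (nat_lit 57378) (nat_lit 3) .nil))))))) (.g (nat_lit 4) .nil .nil))) 
(.lf (nat_lit 225122) (.g (nat_lit 1524) (.e (nat_lit 98342) (nat_lit 20) (.e (nat_lit 221190) (nat_lit 11) (.e (nat_lit 336027) (nat_lit 3) (.e (nat_lit 98369) (nat_lit 28) (.e (nat_lit 450304) (nat_lit 3) .nil))))) (.g (nat_lit 4) .nil .nil)))) (.nd (nat_lit 5) 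
(.lf (nat_lit 225106) (.g (nat_lit 2514) (.e (nat_lit 98342) (nat_lit 20) (.e (nat_lit 221190) (nat_lit 11) (.e (nat_lit 336021) (nat_lit 3) (.e (nat_lit 98365) (nat_lit 26) (.e (nat_lit 426188) (nat_lit 9) (.e (nat_lit 426434) (nat_lit 18) .nil)))))) (.g (nat_lit 4) .nil .nil))) 
(.lf (nat_lit 225138) (.g (nat_lit 1897) (.e (nat_lit 98342) (nat_lit 20) (.e (nat_lit 221193) (nat_lit 11) (.e (nat_lit 336002) (nat_lit 2) (.e (nat_lit 90185) (nat_lit 17) (.e (nat_lit 237604) (nat_lit 9) .nil))))) .nil)))) (.nd (nat_lit 4) (.nd (nat_lit 5) 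
(.lf (nat_lit 225098) (.g (nat_lit 2101) (.e (nat_lit 98342) (nat_lit 20) (.e (nat_lit 221190) (nat_lit 11) (.e (nat_lit 336012) (nat_lit 2) (.e (nat_lit 90185) (nat_lit 17) (.e (nat_lit 237601) (nat_lit 9) (.e (nat_lit 426438) (nat_lit 18) .nil)))))) (.g (nat_lit 4) .nil .nil))) 
(.lf (nat_lit 225130) (.g (nat_lit 1545) (.e (nat_lit 98342) (nat_lit 20) (.e (nat_lit 221192) (nat_lit 11) (.e (nat_lit 336017) (nat_lit 3) (.e (nat_lit 98370) (nat_lit 28) (.e (nat_lit 450304) (nat_lit 3) .nil))))) (.g (nat_lit 4) .nil .nil)))) (.nd (nat_lit 5) 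
(.lf (nat_lit 225114) (.g (nat_lit 1992) (.e (nat_lit 98342) (nat_lit 20) (.e (nat_lit 221190) (nat_lit 11) (.e (nat_lit 336027) (nat_lit 3) (.e (nat_lit 98365) (nat_lit 26) (.e (nat_lit 426187) (nat_lit 9) (.e (nat_lit 426434) (nat_lit 18) .nil)))))) (.g (nat_lit 4) .nil .nil))) 
(.lf (nat_lit 225146) (.g (nat_lit 1546) (.e (nat_lit 98342) (nat_lit 20) (.e (nat_lit 221193) (nat_lit 11) (.e (nat_lit 336009) (nat_lit 2) (.e (nat_lit 90172) (nat_lit 14) (.e (nat_lit 188160) (nat_lit 40) (.e (nat_lit 112) (nat_lit 3) .nil)))))) (.g (nat_lit 4) .nil .nil)))))) (.nd (nat_lit 3) (.nd (nat_lit 4) (.nd (nat_lit 5) 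
(.lf (nat_lit 225094) (.g (nat_lit 2211) (.e (nat_lit 98342) (nat_lit 20) (.e (nat_lit 221190) (nat_lit 11) (.e (nat_lit 336011) (nat_lit 2) (.e (nat_lit 90170) (nat_lit 13) (.e (nat_lit 172087) (nat_lit 9) .nil))))) .nil)) 
(.lf (nat_lit 225126) (.g (nat_lit 994) (.e (nat_lit 98342) (nat_lit 20) (.e (nat_lit 221191) (nat_lit 11) (.e (nat_lit 336017) (nat_lit 3) (.e (nat_lit 98380) (nat_lit 31) (.e (nat_lit 474880) (nat_lit 3) .nil))))) (.g (nat_lit 4) .nil .nil)))) (.nd (nat_lit 5) 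
(.lf (nat_lit 225110) (.g (nat_lit 3588) (.e (nat_lit 98342) (nat_lit 20) (.e (nat_lit 221190) (nat_lit 11) (.e (nat_lit 336021) (nat_lit 3) (.e (nat_lit 98365) (nat_lit 26) (.e (nat_lit 426200) (nat_lit 9) (.e (nat_lit 426436) (nat_lit 18) .nil)))))) (.g (nat_lit 6) .nil .nil))) 
(.lf (nat_lit 225142) (.g (nat_lit 1704) (.e (nat_lit 98342) (nat_lit 20) (.e (nat_lit 221193) (nat_lit 11) (.e (nat_lit 336004) (nat_lit 2) (.e (nat_lit 90185) (nat_lit 17) (.e (nat_lit 237604) (nat_lit 9) .nil))))) .nil)))) (.nd (nat_lit 4) (.nd (nat_lit 5) 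
(.lf (nat_lit 225102) (.g (nat_lit 2103) (.e (nat_lit 98342) (nat_lit 20) (.e (nat_lit 221190) (nat_lit 11) (.e (nat_lit 336021) (nat_lit 3) (.e (nat_lit 98365) (nat_lit 26) (.e (nat_lit 426186) (nat_lit 9) (.e (nat_lit 426436) (nat_lit 18) .nil)))))) (.g (nat_lit 4) .nil .nil))) 
(.lf (nat_lit 225134) (.g (nat_lit 1235) (.e (nat_lit 98342) (nat_lit 20) (.e (nat_lit 221192) (nat_lit 11) (.e (nat_lit 336017) (nat_lit 3) (.e (nat_lit 98382) (nat_lit 31) (.e (nat_lit 474880) (nat_lit 3) .nil))))) (.g (nat_lit 4) .nil .nil)))) (.nd (nat_lit 5) 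
(.lf (nat_lit 225118) (.g (nat_lit 2521) (.e (nat_lit 98342) (nat_lit 20) (.e (nat_lit 221190) (nat_lit 11) (.e (nat_lit 336027) (nat_lit 3) (.e (nat_lit 98365) (nat_lit 26) (.e (nat_lit 426188) (nat_lit 9) (.e (nat_lit 426434) (nat_lit 18) .nil)))))) (.g (nat_lit 4) .nil .nil))) 
(.lf (nat_lit 225150) (.g (nat_lit 1337) (.e (nat_lit 98342) (nat_lit 20) (.e (nat_lit 221193) (nat_lit 11) (.e (nat_lit 336010) (nat_lit 2) (.e (nat_lit 90170) (nat_lit 13) (.e (nat_lit 172088) (nat_lit 9) .nil))))) .nil))))))) (.nd (nat_lit 1) (.nd (nat_lit 2) (.nd (nat_lit 3) (.nd (nat_lit 4) (.nd (nat_lit 5) 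
(.lf (nat_lit 225089) (.g (nat_lit 2866) (.e (nat_lit 98341) (nat_lit 20) (.e (nat_lit 221215) (nat_lit 23) (.e (nat_lit 204882) (nat_lit 32) (.e (nat_lit 385068) (nat_lit 26) (.e (nat_lit 532501) (nat_lit 1) (.e (nat_lit 57854) (nat_lit 252) (.e (nat_lit 57378) (nat_lit 3) .nil))))))) (.g (nat_lit 4) .nil .nil))) 
(.lf (nat_lit 225121) (.g (nat_lit 2944) (.e (nat_lit 98342) (nat_lit 20) (.e (nat_lit 221190) (nat_lit 11) (.e (nat_lit 336027) (nat_lit 3) (.e (nat_lit 98365) (nat_lit 26) (.e (nat_lit 426188) (nat_lit 9) (.e (nat_lit 426438) (nat_lit 18) .nil)))))) (.g (nat_lit 5) .nil .nil)))) (.nd (nat_lit 5) 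
(.lf (nat_lit 225105) (.g (nat_lit 2352) (.e (nat_lit 98342) (nat_lit 20) (.e (nat_lit 221190) (nat_lit 11) (.e (nat_lit 336021) (nat_lit 3) (.e (nat_lit 98365) (nat_lit 26) (.e (nat_lit 426187) (nat_lit 9) (.e (nat_lit 426438) (nat_lit 18) .nil)))))) (.g (nat_lit 4) .nil .nil))) 
(.lf (nat_lit 225137) (.g (nat_lit 1958) (.e (nat_lit 98342) (nat_lit 20) (.e (nat_lit 221193) (nat_lit 11) (.e (nat_lit 336002) (nat_lit 2) (.e (nat_lit 90185) (nat_lit 17) (.e (nat_lit 237601) (nat_lit 9) (.e (nat_lit 426438) (nat_lit 18) .nil)))))) (.g (nat_lit 4) .nil .nil))))) (.nd (nat_lit 4) (.nd (nat_lit 5) 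
(.lf (nat_lit 225097) (.g (nat_lit 2074) (.e (nat_lit 98342) (nat_lit 20) (.e (nat_lit 221190) (nat_lit 11) (.e (nat_lit 336012) (nat_lit 2) (.e (nat_lit 90172) (nat_lit 14) (.e (nat_lit 188160) (nat_lit 40) .nil))))) .nil)) 
(.lf (nat_lit 225129) (.g (nat_lit 2283) (.e (nat_lit 98342) (nat_lit 20) (.e (nat_lit 221192) (nat_lit 11) (.e (nat_lit 336017) (nat_lit 3) (.e (nat_lit 98358) (nat_lit 26) (.e (nat_lit 426226) (nat_lit 9) (.e (nat_lit 426436) (nat_lit 18) .nil)))))) (.g (nat_lit 4) .nil .nil)))) (.nd (nat_lit 5) 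
(.lf (nat_lit 225113) (.g (nat_lit 2069) (.e (nat_lit 98342) (nat_lit 20) (.e (nat_lit 221190) (nat_lit 11) (.e (nat_lit 336027) (nat_lit 3) (.e (nat_lit 98365) (nat_lit 26) (.e (nat_lit 426186) (nat_lit 9) (.e (nat_lit 426436) (nat_lit 18) .nil)))))) (.g (nat_lit 4) .nil .nil))) 
(.lf (nat_lit 225145) (.g (nat_lit 1779) (.e (nat_lit 98342) (nat_lit 20) (.e (nat_lit 221193) (nat_lit 11) (.e (nat_lit 336009) (nat_lit 2) (.e (nat_lit 90172) (nat_lit 14) (.e (nat_lit 188160) (nat_lit 40) (.e (nat_lit 109) (nat_lit 3) .nil)))))) (.g (nat_lit 4) .nil .nil)))))) (.nd (nat_lit 3) (.nd (nat_lit 4) (.nd (nat_lit 5) 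
(.lf (nat_lit 225093) (.g (nat_lit 2949) (.e (nat_lit 98342) (nat_lit 20) (.e (nat_lit 221190) (nat_lit 11) (.e (nat_lit 336011) (nat_lit 2) (.e (nat_lit 90170) (nat_lit 13) (.e (nat_lit 172085) (nat_lit 9) (.e (nat_lit 426437) (nat_lit 18) .nil)))))) (.g (nat_lit 4) .nil .nil))) 
(.lf (nat_lit 225125) (.g (nat_lit 1067) (.e (nat_lit 98342) (nat_lit 20) (.e (nat_lit 221191) (nat_lit 11) (.e (nat_lit 336017) (nat_lit 3) (.e (nat_lit 98371) (nat_lit 28) (.e (nat_lit 450304) (nat_lit 3) .nil))))) (.g (nat_lit 4) .nil .nil)))) (.nd (nat_lit 5) 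
(.lf (nat_lit 225109) (.g (nat_lit 2922) (.e (nat_lit 98342) (nat_lit 20) (.e (nat_lit 221190) (nat_lit 11) (.e (nat_lit 336021) (nat_lit 3) (.e (nat_lit 98365) (nat_lit 26) (.e (nat_lit 426188) (nat_lit 9) (.e (nat_lit 426438) (nat_lit 18) .nil)))))) (.g (nat_lit 5) .nil .nil))) 
(.lf (nat_lit 225141) (.g (nat_lit 2002) (.e (nat_lit 98342) (nat_lit 20) (.e (nat_lit 221193) (nat_lit 11) (.e (nat_lit 336004) (nat_lit 2) (.e (nat_lit 90185) (nat_lit 17) (.e (nat_lit 237601) (nat_lit 9) (.e (nat_lit 426438) (nat_lit 18) .nil)))))) (.g (nat_lit 4) .nil .nil))))) (.nd (nat_lit 4) (.nd (nat_lit 5) 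
(.lf (nat_lit 225101) (.g (nat_lit 2234) (.e (nat_lit 98342) (nat_lit 20) (.e (nat_lit 221190) (nat_lit 11) (.e (nat_lit 336012) (nat_lit 2) (.e (nat_lit 90185) (nat_lit 17) (.e (nat_lit 237605) (nat_lit 9) (.e (nat_lit 426438) (nat_lit 18) .nil)))))) (.g (nat_lit 4) .nil .nil))) 
(.lf (nat_lit 225133) (.g (nat_lit 1211) (.e (nat_lit 98342) (nat_lit 20) (.e (nat_lit 221192) (nat_lit 11) (.e (nat_lit 336017) (nat_lit 3) (.e (nat_lit 98381) (nat_lit 31) (.e (nat_lit 474880) (nat_lit 3) .nil))))) (.g (nat_lit 4) .nil .nil)))) (.nd (nat_lit 5) 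
(.lf (nat_lit 225117) (.g (nat_lit 2427) (.e (nat_lit 98342) (nat_lit 20) (.e (nat_lit 221190) (nat_lit 11) (.e (nat_lit 336027) (nat_lit 3) (.e (nat_lit 98365) (nat_lit 26) (.e (nat_lit 426187) (nat_lit 9) (.e (nat_lit 426438) (nat_lit 18) .nil)))))) (.g (nat_lit 4) .nil .nil))) 
(.lf (nat_lit 225149) (.g (nat_lit 1748) (.e (nat_lit 98342) (nat_lit 20) (.e (nat_lit 221193) (nat_lit 11) (.e (nat_lit 336010) (nat_lit 2) (.e (nat_lit 90170) (nat_lit 13) (.e (nat_lit 172087) (nat_lit 9) (.e (nat_lit 426437) (nat_lit 18) .nil)))))) (.g (nat_lit 4) .nil .nil))))))) (.nd (nat_lit 2) (.nd (nat_lit 3) (.nd (nat_lit 4) (.nd (nat_lit 5) 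
(.lf (nat_lit 225091) (.g (nat_lit 1491) (.e (nat_lit 98342) (nat_lit 20) (.e (nat_lit 221190) (nat_lit 11) (.e (nat_lit 336002) (nat_lit 2) (.e (nat_lit 90185) (nat_lit 17) (.e (nat_lit 237601) (nat_lit 9) .nil))))) .nil)) 
(.lf (nat_lit 225123) (.g (nat_lit 1622) (.e (nat_lit 98342) (nat_lit 20) (.e (nat_lit 221190) (nat_lit 11) (.e (nat_lit 336027) (nat_lit 3) (.e (nat_lit 98370) (nat_lit 28) (.e (nat_lit 450304) (nat_lit 3) .nil))))) .nil))) (.nd (nat_lit 5) 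
(.lf (nat_lit 225107) (.g (nat_lit 3711) (.e (nat_lit 98342) (nat_lit 20) (.e (nat_lit 221190) (nat_lit 11) (.e (nat_lit 336021) (nat_lit 3) (.e (nat_lit 98365) (nat_lit 26) (.e (nat_lit 426188) (nat_lit 9) (.e (nat_lit 426436) (nat_lit 18) .nil)))))) (.g (nat_lit 0) .nil .nil))) 
(.lf (nat_lit 225139) (.g (nat_lit 1756) (.e (nat_lit 98342) (nat_lit 20) (.e (nat_lit 221193) (nat_lit 11) (.e (nat_lit 336002) (nat_lit 2) (.e (nat_lit 90185) (nat_lit 17) (.e (nat_lit 237605) (nat_lit 9) (.e (nat_lit 426434) (nat_lit 18) .nil)))))) (.g (nat_lit 4) .nil .nil))))) (.nd (nat_lit 4) (.nd (nat_lit 5) 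
(.lf (nat_lit 225099) (.g (nat_lit 2203) (.e (nat_lit 98342) (nat_lit 20) (.e (nat_lit 221190) (nat_lit 11) (.e (nat_lit 336012) (nat_lit 2) (.e (nat_lit 90185) (nat_lit 17) (.e (nat_lit 237605) (nat_lit 9) (.e (nat_lit 426434) (nat_lit 18) .nil)))))) (.g (nat_lit 4) .nil .nil))) 
(.lf (nat_lit 225131) (.g (nat_lit 1184) (.e (nat_lit 98342) (nat_lit 20) (.e (nat_lit 221192) (nat_lit 11) (.e (nat_lit 336017) (nat_lit 3) (.e (nat_lit 98371) (nat_lit 28) (.e (nat_lit 450304) (nat_lit 3) .nil))))) (.g (nat_lit 4) .nil .nil)))) (.nd (nat_lit 5) 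
(.lf (nat_lit 225115) (.g (nat_lit 3515) (.e (nat_lit 98342) (nat_lit 20) (.e (nat_lit 221190) (nat_lit 11) (.e (nat_lit 336027) (nat_lit 3) (.e (nat_lit 98365) (nat_lit 26) (.e (nat_lit 426187) (nat_lit 9) (.e (nat_lit 426436) (nat_lit 18) .nil)))))) (.g (nat_lit 0) .nil .nil))) 
(.lf (nat_lit 225147) (.g (nat_lit 1091) (.e (nat_lit 98342) (nat_lit 20) (.e (nat_lit 221193) (nat_lit 11) (.e (nat_lit 336009) (nat_lit 2) (.e (nat_lit 90176) (nat_lit 15) (.e (nat_lit 196352) (nat_lit 3) .nil))))) .nil))))) (.nd (nat_lit 3) (.nd (nat_lit 4) (.nd (nat_lit 5) 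
(.lf (nat_lit 225095) (.g (nat_lit 1126) (.e (nat_lit 98342) (nat_lit 20) (.e (nat_lit 221190) (nat_lit 11) (.e (nat_lit 336011) (nat_lit 2) (.e (nat_lit 90185) (nat_lit 17) .nil)))) .nil)) 
(.lf (nat_lit 225127) (.g (nat_lit 1067) (.e (nat_lit 98342) (nat_lit 20) (.e (nat_lit 221191) (nat_lit 11) (.e (nat_lit 336017) (nat_lit 3) (.e (nat_lit 98381) (nat_lit 31) (.e (nat_lit 474880) (nat_lit 3) .nil))))) (.g (nat_lit 4) .nil .nil)))) (.nd (nat_lit 5) 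
(.lf (nat_lit 225111) (.g (nat_lit 2349) (.e (nat_lit 98342) (nat_lit 20) (.e (nat_lit 221190) (nat_lit 11) (.e (nat_lit 336027) (nat_lit 3) (.e (nat_lit 98363) (nat_lit 26) (.e (nat_lit 426228) (nat_lit 9) (.e (nat_lit 426435) (nat_lit 18) .nil)))))) (.g (nat_lit 5) .nil .nil))) 
(.lf (nat_lit 225143) (.g (nat_lit 1900) (.e (nat_lit 98342) (nat_lit 20) (.e (nat_lit 221193) (nat_lit 11) (.e (nat_lit 336004) (nat_lit 2) (.e (nat_lit 90185) (nat_lit 17) (.e (nat_lit 237605) (nat_lit 9) (.e (nat_lit 426434) (nat_lit 18) .nil)))))) (.g (nat_lit 4) .nil .nil))))) (.nd (nat_lit 4) (.nd (nat_lit 5) 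
(.lf (nat_lit 225103) (.g (nat_lit 3455) (.e (nat_lit 98342) (nat_lit 20) (.e (nat_lit 221190) (nat_lit 11) (.e (nat_lit 336021) (nat_lit 3) (.e (nat_lit 98365) (nat_lit 26) (.e (nat_lit 426187) (nat_lit 9) (.e (nat_lit 426436) (nat_lit 18) .nil)))))) (.g (nat_lit 0) .nil .nil))) 
(.lf (nat_lit 225135) (.g (nat_lit 2255) (.e (nat_lit 98342) (nat_lit 20) (.e (nat_lit 221193) (nat_lit 11) (.e (nat_lit 336002) (nat_lit 2) (.e (nat_lit 90185) (nat_lit 17) (.e (nat_lit 237600) (nat_lit 9) .nil))))) .nil))) (.nd (nat_lit 5) 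
(.lf (nat_lit 225119) (.g (nat_lit 3719) (.e (nat_lit 98342) (nat_lit 20) (.e (nat_lit 221190) (nat_lit 11) (.e (nat_lit 336027) (nat_lit 3) (.e (nat_lit 98365) (nat_lit 26) (.e (nat_lit 426188) (nat_lit 9) (.e (nat_lit 426436) (nat_lit 18) .nil)))))) (.g (nat_lit 0) .nil .nil))) 
(.lf (nat_lit 225151) (.g (nat_lit 2315) (.e (nat_lit 98342) (nat_lit 20) (.e (nat_lit 221193) (nat_lit 11) (.e (nat_lit 336010) (nat_lit 2) (.e (nat_lit 90170) (nat_lit 13) (.e (nat_lit 172095) (nat_lit 9) (.e (nat_lit 433920) (nat_lit 18) .nil)))))) (.g (nat_lit 5) .nil .nil)))))))))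

noncomputable def tv2951 : DT := (.nd (nat_lit 0) (.nd (nat_lit 1) (.nd (nat_lit 2) (.nd (nat_lit 3) (.nd (nat_lit 4) (.nd (nat_lit 5) 
(.lf (nat_lit 225152) (.g (nat_lit 1374) (.e (nat_lit 98342) (nat_lit 20) (.e (nat_lit 221193) (nat_lit 11) (.e (nat_lit 336010) (nat_lit 2) (.e (nat_lit 90172) (nat_lit 14) (.e (nat_lit 188160) (nat_lit 40) .nil))))) .nil)) 
(.lf (nat_lit 225184) (.g (nat_lit 1449) (.e (nat_lit 98342) (nat_lit 20) (.e (nat_lit 221193) (nat_lit 11) (.e (nat_lit 336025) (nat_lit 3) (.e (nat_lit 98369) (nat_lit 28) (.e (nat_lit 450304) (nat_lit 3) .nil))))) (.g (nat_lit 4) .nil .nil)))) (.nd (nat_lit 5) 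
(.lf (nat_lit 225168) (.g (nat_lit 1791) (.e (nat_lit 98342) (nat_lit 20) (.e (nat_lit 221193) (nat_lit 11) (.e (nat_lit 336012) (nat_lit 2) (.e (nat_lit 90172) (nat_lit 14) (.e (nat_lit 188160) (nat_lit 40) .nil))))) .nil)) 
(.lf (nat_lit 225200) (.g (nat_lit 2005) (.e (nat_lit 98342) (nat_lit 20) (.e (nat_lit 221193) (nat_lit 11) (.e (nat_lit 336027) (nat_lit 3) (.e (nat_lit 98365) (nat_lit 26) (.e (nat_lit 426186) (nat_lit 9) (.e (nat_lit 426436) (nat_lit 18) .nil)))))) (.g (nat_lit 4) .nil .nil))))) (.nd (nat_lit 4) (.nd (nat_lit 5) 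
(.lf (nat_lit 225160) (.g (nat_lit 2731) (.e (nat_lit 98342) (nat_lit 20) (.e (nat_lit 221193) (nat_lit 11) (.e (nat_lit 336011) (nat_lit 2) (.e (nat_lit 90170) (nat_lit 13) (.e (nat_lit 172087) (nat_lit 9) (.e (nat_lit 426436) (nat_lit 18) .nil)))))) (.g (nat_lit 4) .nil .nil))) 
(.lf (nat_lit 225192) (.g (nat_lit 2368) (.e (nat_lit 98342) (nat_lit 20) (.e (nat_lit 221193) (nat_lit 11) (.e (nat_lit 336026) (nat_lit 3) (.e (nat_lit 98365) (nat_lit 26) (.e (nat_lit 426188) (nat_lit 9) (.e (nat_lit 426437) (nat_lit 18) .nil)))))) (.g (nat_lit 6) .nil .nil)))) (.nd (nat_lit 5) 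
(.lf (nat_lit 225176) (.g (nat_lit 3233) (.e (nat_lit 98342) (nat_lit 20) (.e (nat_lit 221193) (nat_lit 11) (.e (nat_lit 336021) (nat_lit 3) (.e (nat_lit 98365) (nat_lit 26) (.e (nat_lit 426188) (nat_lit 9) (.e (nat_lit 426438) (nat_lit 18) .nil)))))) (.g (nat_lit 6) .nil .nil))) 
(.lf (nat_lit 225208) (.g (nat_lit 1749) (.e (nat_lit 98342) (nat_lit 20) (.e (nat_lit 221193) (nat_lit 11) (.e (nat_lit 336027) (nat_lit 3) (.e (nat_lit 98370) (nat_lit 28) (.e (nat_lit 450304) (nat_lit 3) .nil))))) (.g (nat_lit 4) .nil .nil)))))) (.nd (nat_lit 3) (.nd (nat_lit 4) (.nd (nat_lit 5) 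
(.lf (nat_lit 225156) (.g (nat_lit 1318) (.e (nat_lit 98342) (nat_lit 20) (.e (nat_lit 221193) (nat_lit 11) (.e (nat_lit 336010) (nat_lit 2) (.e (nat_lit 90178) (nat_lit 15) (.e (nat_lit 196352) (nat_lit 3) .nil))))) (.g (nat_lit 4) .nil .nil))) 
(.lf (nat_lit 225188) (.g (nat_lit 1478) (.e (nat_lit 98342) (nat_lit 20) (.e (nat_lit 221193) (nat_lit 11) (.e (nat_lit 336025) (nat_lit 3) (.e (nat_lit 98381) (nat_lit 31) (.e (nat_lit 474880) (nat_lit 3) .nil))))) (.g (nat_lit 4) .nil .nil)))) (.nd (nat_lit 5) 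
(.lf (nat_lit 225172) (.g (nat_lit 2272) (.e (nat_lit 98342) (nat_lit 20) (.e (nat_lit 221193) (nat_lit 11) (.e (nat_lit 336021) (nat_lit 3) (.e (nat_lit 98365) (nat_lit 26) (.e (nat_lit 426187) (nat_lit 9) (.e (nat_lit 426434) (nat_lit 18) .nil)))))) (.g (nat_lit 4) .nil .nil))) 
(.lf (nat_lit 225204) (.g (nat_lit 2908) (.e (nat_lit 98342) (nat_lit 20) (.e (nat_lit 221193) (nat_lit 11) (.e (nat_lit 336027) (nat_lit 3) (.e (nat_lit 98365) (nat_lit 26) (.e (nat_lit 426188) (nat_lit 9) (.e (nat_lit 426437) (nat_lit 18) .nil)))))) (.g (nat_lit 6) .nil .nil))))) (.nd (nat_lit 4) (.nd (nat_lit 5) 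
(.lf (nat_lit 225164) (.g (nat_lit 2385) (.e (nat_lit 98342) (nat_lit 20) (.e (nat_lit 221193) (nat_lit 11) (.e (nat_lit 336011) (nat_lit 2) (.e (nat_lit 90185) (nat_lit 17) (.e (nat_lit 237601) (nat_lit 9) (.e (nat_lit 426438) (nat_lit 18) .nil)))))) (.g (nat_lit 4) .nil .nil))) 
(.lf (nat_lit 225196) (.g (nat_lit 1185) (.e (nat_lit 98342) (nat_lit 20) (.e (nat_lit 221193) (nat_lit 11) (.e (nat_lit 336026) (nat_lit 3) (.e (nat_lit 98380) (nat_lit 31) (.e (nat_lit 474880) (nat_lit 3) .nil))))) (.g (nat_lit 4) .nil .nil)))) (.nd (nat_lit 5) 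
(.lf (nat_lit 225180) (.g (nat_lit 2091) (.e (nat_lit 98342) (nat_lit 20) (.e (nat_lit 221193) (nat_lit 11) (.e (nat_lit 336025) (nat_lit 3) (.e (nat_lit 98365) (nat_lit 26) (.e (nat_lit 426187) (nat_lit 9) (.e (nat_lit 426437) (nat_lit 18) .nil)))))) (.g (nat_lit 5) .nil .nil))) 
(.lf (nat_lit 225212) (.g (nat_lit 2037) (.e (nat_lit 98342) (nat_lit 20) (.e (nat_lit 221194) (nat_lit 11) (.e (nat_lit 336001) (nat_lit 2) (.e (nat_lit 90185) (nat_lit 17) (.e (nat_lit 237605) (nat_lit 9) .nil))))) .nil)))))) (.nd (nat_lit 2) (.nd (nat_lit 3) (.nd (nat_lit 4) (.nd (nat_lit 5) 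
(.lf (nat_lit 225154) (.g (nat_lit 1836) (.e (nat_lit 98342) (nat_lit 20) (.e (nat_lit 221193) (nat_lit 11) (.e (nat_lit 336010) (nat_lit 2) (.e (nat_lit 90174) (nat_lit 14) (.e (nat_lit 188160) (nat_lit 40) (.e (nat_lit 109) (nat_lit 3) .nil)))))) (.g (nat_lit 4) .nil .nil))) 
(.lf (nat_lit 225186) (.g (nat_lit 599) (.e (nat_lit 98342) (nat_lit 20) (.e (nat_lit 221193) (nat_lit 11) (.e (nat_lit 336025) (nat_lit 3) (.e (nat_lit 98371) (nat_lit 28) .nil)))) .nil))) (.nd (nat_lit 5) 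
(.lf (nat_lit 225170) (.g (nat_lit 1684) (.e (nat_lit 98342) (nat_lit 20) (.e (nat_lit 221193) (nat_lit 11) (.e (nat_lit 336012) (nat_lit 2) (.e (nat_lit 90185) (nat_lit 17) (.e (nat_lit 237601) (nat_lit 9) (.e (nat_lit 426437) (nat_lit 18) .nil)))))) (.g (nat_lit 4) .nil .nil))) 
(.lf (nat_lit 225202) (.g (nat_lit 2514) (.e (nat_lit 98342) (nat_lit 20) (.e (nat_lit 221193) (nat_lit 11) (.e (nat_lit 336027) (nat_lit 3) (.e (nat_lit 98365) (nat_lit 26) (.e (nat_lit 426187) (nat_lit 9) (.e (nat_lit 426437) (nat_lit 18) .nil)))))) (.g (nat_lit 6) .nil .nil))))) (.nd (nat_lit 4) (.nd (nat_lit 5) 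
(.lf (nat_lit 225162) (.g (nat_lit 3012) (.e (nat_lit 98342) (nat_lit 20) (.e (nat_lit 221193) (nat_lit 11) (.e (nat_lit 336011) (nat_lit 2) (.e (nat_lit 90170) (nat_lit 13) (.e (nat_lit 172095) (nat_lit 9) .nil))))) .nil)) 
(.lf (nat_lit 225194) (.g (nat_lit 1194) (.e (nat_lit 98342) (nat_lit 20) (.e (nat_lit 221193) (nat_lit 11) (.e (nat_lit 336026) (nat_lit 3) (.e (nat_lit 98369) (nat_lit 28) (.e (nat_lit 450304) (nat_lit 3) .nil))))) (.g (nat_lit 4) .nil .nil)))) (.nd (nat_lit 5) 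
(.lf (nat_lit 225178) (.g (nat_lit 1907) (.e (nat_lit 98342) (nat_lit 20) (.e (nat_lit 221193) (nat_lit 11) (.e (nat_lit 336025) (nat_lit 3) (.e (nat_lit 98363) (nat_lit 26) (.e (nat_lit 426230) (nat_lit 9) (.e (nat_lit 426435) (nat_lit 18) .nil)))))) (.g (nat_lit 6) .nil .nil))) 
(.lf (nat_lit 225210) (.g (nat_lit 1598) (.e (nat_lit 98342) (nat_lit 20) (.e (nat_lit 221193) (nat_lit 11) (.e (nat_lit 336027) (nat_lit 3) (.e (nat_lit 98381) (nat_lit 31) (.e (nat_lit 474880) (nat_lit 3) .nil))))) (.g (nat_lit 4) .nil .nil)))))) (.nd (nat_lit 3) (.nd (nat_lit 4) (.nd (nat_lit 5) 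
(.lf (nat_lit 225158) (.g (nat_lit 3726) (.e (nat_lit 98342) (nat_lit 20) (.e (nat_lit 221193) (nat_lit 11) (.e (nat_lit 336011) (nat_lit 2) (.e (nat_lit 90170) (nat_lit 13) (.e (nat_lit 172085) (nat_lit 9) (.e (nat_lit 426437) (nat_lit 18) .nil)))))) (.g (nat_lit 5) .nil .nil))) 
(.lf (nat_lit 225190) (.g (nat_lit 1618) (.e (nat_lit 98342) (nat_lit 20) (.e (nat_lit 221193) (nat_lit 11) (.e (nat_lit 336026) (nat_lit 3) (.e (nat_lit 98365) (nat_lit 26) (.e (nat_lit 426187) (nat_lit 9) (.e (nat_lit 426434) (nat_lit 18) .nil)))))) (.g (nat_lit 4) .nil .nil)))) (.nd (nat_lit 5) 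
(.lf (nat_lit 225174) (.g (nat_lit 2844) (.e (nat_lit 98342) (nat_lit 20) (.e (nat_lit 221193) (nat_lit 11) (.e (nat_lit 336021) (nat_lit 3) (.e (nat_lit 98365) (nat_lit 26) (.e (nat_lit 426188) (nat_lit 9) (.e (nat_lit 426434) (nat_lit 18) .nil)))))) (.g (nat_lit 5) .nil .nil))) 
(.lf (nat_lit 225206) (.g (nat_lit 3668) (.e (nat_lit 98342) (nat_lit 20) (.e (nat_lit 221193) (nat_lit 11) (.e (nat_lit 336027) (nat_lit 3) (.e (nat_lit 98365) (nat_lit 26) (.e (nat_lit 426200) (nat_lit 9) (.e (nat_lit 426436) (nat_lit 18) .nil)))))) (.g (nat_lit 0) .nil .nil))))) (.nd (nat_lit 4) (.nd (nat_lit 5) 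
(.lf (nat_lit 225166) (.g (nat_lit 2351) (.e (nat_lit 98342) (nat_lit 20) (.e (nat_lit 221193) (nat_lit 11) (.e (nat_lit 336011) (nat_lit 2) (.e (nat_lit 90185) (nat_lit 17) (.e (nat_lit 237605) (nat_lit 9) (.e (nat_lit 426434) (nat_lit 18) .nil)))))) (.g (nat_lit 4) .nil .nil))) 
(.lf (nat_lit 225198) (.g (nat_lit 2121) (.e (nat_lit 98342) (nat_lit 20) (.e (nat_lit 221193) (nat_lit 11) (.e (nat_lit 336027) (nat_lit 3) (.e (nat_lit 98356) (nat_lit 26) (.e (nat_lit 433920) (nat_lit 9) (.e (nat_lit 426436) (nat_lit 18) .nil)))))) (.g (nat_lit 4) .nil .nil)))) (.nd (nat_lit 5) 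
(.lf (nat_lit 225182) (.g (nat_lit 2396) (.e (nat_lit 98342) (nat_lit 20) (.e (nat_lit 221193) (nat_lit 11) (.e (nat_lit 336025) (nat_lit 3) (.e (nat_lit 98365) (nat_lit 26) (.e (nat_lit 426188) (nat_lit 9) (.e (nat_lit 426434) (nat_lit 18) .nil)))))) (.g (nat_lit 5) .nil .nil))) 
(.lf (nat_lit 225214) (.g (nat_lit 2622) (.e (nat_lit 98342) (nat_lit 20) (.e (nat_lit 221194) (nat_lit 11) (.e (nat_lit 336002) (nat_lit 2) (.e (nat_lit 90185) (nat_lit 17) (.e (nat_lit 237601) (nat_lit 9) (.e (nat_lit 426438) (nat_lit 18) .nil)))))) (.g (nat_lit 0) .nil .nil)))))))) (.nd (nat_lit 1) (.nd (nat_lit 2) (.nd (nat_lit 3) (.nd (nat_lit 4) (.nd (nat_lit 5) 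
(.lf (nat_lit 225153) (.g (nat_lit 1992) (.e (nat_lit 98342) (nat_lit 20) (.e (nat_lit 221193) (nat_lit 11) (.e (nat_lit 336010) (nat_lit 2) (.e (nat_lit 90172) (nat_lit 14) (.e (nat_lit 188160) (nat_lit 40) (.e (nat_lit 112) (nat_lit 3) .nil)))))) (.g (nat_lit 4) .nil .nil))) 
(.lf (nat_lit 225185) (.g (nat_lit 1757) (.e (nat_lit 98342) (nat_lit 20) (.e (nat_lit 221193) (nat_lit 11) (.e (nat_lit 336025) (nat_lit 3) (.e (nat_lit 98370) (nat_lit 28) (.e (nat_lit 450304) (nat_lit 3) .nil))))) (.g (nat_lit 4) .nil .nil)))) (.nd (nat_lit 5) 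
(.lf (nat_lit 225169) (.g (nat_lit 2356) (.e (nat_lit 98342) (nat_lit 20) (.e (nat_lit 221193) (nat_lit 11) (.e (nat_lit 336012) (nat_lit 2) (.e (nat_lit 90172) (nat_lit 14) (.e (nat_lit 188160) (nat_lit 40) (.e (nat_lit 112) (nat_lit 3) .nil)))))) (.g (nat_lit 4) .nil .nil))) 
(.lf (nat_lit 225201) (.g (nat_lit 2156) (.e (nat_lit 98342) (nat_lit 20) (.e (nat_lit 221193) (nat_lit 11) (.e (nat_lit 336027) (nat_lit 3) (.e (nat_lit 98365) (nat_lit 26) (.e (nat_lit 426187) (nat_lit 9) (.e (nat_lit 426434) (nat_lit 18) .nil)))))) (.g (nat_lit 4) .nil .nil))))) (.nd (nat_lit 4) (.nd (nat_lit 5) 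
(.lf (nat_lit 225161) (.g (nat_lit 2792) (.e (nat_lit 98342) (nat_lit 20) (.e (nat_lit 221193) (nat_lit 11) (.e (nat_lit 336011) (nat_lit 2) (.e (nat_lit 90170) (nat_lit 13) (.e (nat_lit 172087) (nat_lit 9) (.e (nat_lit 426438) (nat_lit 18) .nil)))))) (.g (nat_lit 4) .nil .nil))) 
(.lf (nat_lit 225193) (.g (nat_lit 3230) (.e (nat_lit 98342) (nat_lit 20) (.e (nat_lit 221193) (nat_lit 11) (.e (nat_lit 336026) (nat_lit 3) (.e (nat_lit 98365) (nat_lit 26) (.e (nat_lit 426200) (nat_lit 9) (.e (nat_lit 426436) (nat_lit 18) .nil)))))) (.g (nat_lit 0) .nil .nil)))) (.nd (nat_lit 5) 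
(.lf (nat_lit 225177) (.g (nat_lit 1847) (.e (nat_lit 98342) (nat_lit 20) (.e (nat_lit 221193) (nat_lit 11) (.e (nat_lit 336025) (nat_lit 3) (.e (nat_lit 98363) (nat_lit 26) (.e (nat_lit 426228) (nat_lit 9) (.e (nat_lit 426435) (nat_lit 18) .nil)))))) (.g (nat_lit 0) .nil .nil))) 
(.lf (nat_lit 225209) (.g (nat_lit 1552) (.e (nat_lit 98342) (nat_lit 20) (.e (nat_lit 221193) (nat_lit 11) (.e (nat_lit 336027) (nat_lit 3) (.e (nat_lit 98380) (nat_lit 31) (.e (nat_lit 474880) (nat_lit 3) .nil))))) (.g (nat_lit 4) .nil .nil)))))) (.nd (nat_lit 3) (.nd (nat_lit 4) (.nd (nat_lit 5) 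
(.lf (nat_lit 225157) (.g (nat_lit 1715) (.e (nat_lit 98342) (nat_lit 20) (.e (nat_lit 221193) (nat_lit 11) (.e (nat_lit 336010) (nat_lit 2) (.e (nat_lit 90185) (nat_lit 17) (.e (nat_lit 237602) (nat_lit 9) .nil))))) .nil)) 
(.lf (nat_lit 225189) (.g (nat_lit 2104) (.e (nat_lit 98342) (nat_lit 20) (.e (nat_lit 221193) (nat_lit 11) (.e (nat_lit 336026) (nat_lit 3) (.e (nat_lit 98358) (nat_lit 26) (.e (nat_lit 426227) (nat_lit 9) (.e (nat_lit 426437) (nat_lit 18) .nil)))))) (.g (nat_lit 6) .nil .nil)))) (.nd (nat_lit 5) 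
(.lf (nat_lit 225173) (.g (nat_lit 2635) (.e (nat_lit 98342) (nat_lit 20) (.e (nat_lit 221193) (nat_lit 11) (.e (nat_lit 336021) (nat_lit 3) (.e (nat_lit 98365) (nat_lit 26) (.e (nat_lit 426187) (nat_lit 9) (.e (nat_lit 426437) (nat_lit 18) .nil)))))) (.g (nat_lit 6) .nil .nil))) 
(.lf (nat_lit 225205) (.g (nat_lit 3114) (.e (nat_lit 98342) (nat_lit 20) (.e (nat_lit 221193) (nat_lit 11) (.e (nat_lit 336027) (nat_lit 3) (.e (nat_lit 98365) (nat_lit 26) (.e (nat_lit 426188) (nat_lit 9) (.e (nat_lit 426438) (nat_lit 18) .nil)))))) (.g (nat_lit 6) .nil .nil))))) (.nd (nat_lit 4) (.nd (nat_lit 5) 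
(.lf (nat_lit 225165) (.g (nat_lit 1846) (.e (nat_lit 98342) (nat_lit 20) (.e (nat_lit 221193) (nat_lit 11) (.e (nat_lit 336011) (nat_lit 2) (.e (nat_lit 90185) (nat_lit 17) (.e (nat_lit 237604) (nat_lit 9) .nil))))) .nil)) 
(.lf (nat_lit 225197) (.g (nat_lit 1250) (.e (nat_lit 98342) (nat_lit 20) (.e (nat_lit 221193) (nat_lit 11) (.e (nat_lit 336026) (nat_lit 3) (.e (nat_lit 98381) (nat_lit 31) (.e (nat_lit 474880) (nat_lit 3) .nil))))) (.g (nat_lit 4) .nil .nil)))) (.nd (nat_lit 5) 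
(.lf (nat_lit 225181) (.g (nat_lit 2149) (.e (nat_lit 98342) (nat_lit 20) (.e (nat_lit 221193) (nat_lit 11) (.e (nat_lit 336025) (nat_lit 3) (.e (nat_lit 98365) (nat_lit 26) (.e (nat_lit 426187) (nat_lit 9) (.e (nat_lit 426438) (nat_lit 18) .nil)))))) (.g (nat_lit 5) .nil .nil))) 
(.lf (nat_lit 225213) (.g (nat_lit 1944) (.e (nat_lit 98342) (nat_lit 20) (.e (nat_lit 221194) (nat_lit 11) (.e (nat_lit 336002) (nat_lit 2) (.e (nat_lit 90185) (nat_lit 17) (.e (nat_lit 237601) (nat_lit 9) (.e (nat_lit 426437) (nat_lit 18) .nil)))))) (.g (nat_lit 4) .nil .nil))))))) (.nd (nat_lit 2) (.nd (nat_lit 3) (.nd (nat_lit 4) (.nd (nat_lit 5) 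
(.lf (nat_lit 225155) (.g (nat_lit 1089) (.e (nat_lit 98342) (nat_lit 20) (.e (nat_lit 221193) (nat_lit 11) (.e (nat_lit 336010) (nat_lit 2) (.e (nat_lit 90176) (nat_lit 15) (.e (nat_lit 196352) (nat_lit 3) .nil))))) (.g (nat_lit 4) .nil .nil))) 
(.lf (nat_lit 225187) (.g (nat_lit 1436) (.e (nat_lit 98342) (nat_lit 20) (.e (nat_lit 221193) (nat_lit 11) (.e (nat_lit 336025) (nat_lit 3) (.e (nat_lit 98380) (nat_lit 31) (.e (nat_lit 474880) (nat_lit 3) .nil))))) (.g (nat_lit 4) .nil .nil)))) (.nd (nat_lit 5) 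
(.lf (nat_lit 225171) (.g (nat_lit 2499) (.e (nat_lit 98342) (nat_lit 20) (.e (nat_lit 221193) (nat_lit 11) (.e (nat_lit 336012) (nat_lit 2) (.e (nat_lit 90185) (nat_lit 17) (.e (nat_lit 237605) (nat_lit 9) (.e (nat_lit 426434) (nat_lit 18) .nil)))))) (.g (nat_lit 5) .nil .nil))) 
(.lf (nat_lit 225203) (.g (nat_lit 2710) (.e (nat_lit 98342) (nat_lit 20) (.e (nat_lit 221193) (nat_lit 11) (.e (nat_lit 336027) (nat_lit 3) (.e (nat_lit 98365) (nat_lit 26) (.e (nat_lit 426188) (nat_lit 9) (.e (nat_lit 426434) (nat_lit 18) .nil)))))) (.g (nat_lit 5) .nil .nil))))) (.nd (nat_lit 4) (.nd (nat_lit 5) 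
(.lf (nat_lit 225163) (.g (nat_lit 1826) (.e (nat_lit 98342) (nat_lit 20) (.e (nat_lit 221193) (nat_lit 11) (.e (nat_lit 336011) (nat_lit 2) (.e (nat_lit 90185) (nat_lit 17) (.e (nat_lit 237601) (nat_lit 9) .nil))))) .nil)) 
(.lf (nat_lit 225195) (.g (nat_lit 1492) (.e (nat_lit 98342) (nat_lit 20) (.e (nat_lit 221193) (nat_lit 11) (.e (nat_lit 336026) (nat_lit 3) (.e (nat_lit 98370) (nat_lit 28) (.e (nat_lit 450304) (nat_lit 3) .nil))))) (.g (nat_lit 4) .nil .nil)))) (.nd (nat_lit 5) 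
(.lf (nat_lit 225179) (.g (nat_lit 1793) (.e (nat_lit 98342) (nat_lit 20) (.e (nat_lit 221193) (nat_lit 11) (.e (nat_lit 336025) (nat_lit 3) (.e (nat_lit 98365) (nat_lit 26) (.e (nat_lit 426187) (nat_lit 9) (.e (nat_lit 426434) (nat_lit 18) .nil)))))) (.g (nat_lit 4) .nil .nil))) 
(.lf (nat_lit 225211) (.g (nat_lit 2016) (.e (nat_lit 98342) (nat_lit 20) (.e (nat_lit 221194) (nat_lit 11) (.e (nat_lit 336001) (nat_lit 2) (.e (nat_lit 90185) (nat_lit 17) (.e (nat_lit 237601) (nat_lit 9) .nil))))) .nil))))) (.nd (nat_lit 3) (.nd (nat_lit 4) (.nd (nat_lit 5) 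
(.lf (nat_lit 225159) (.g (nat_lit 2504) (.e (nat_lit 98342) (nat_lit 20) (.e (nat_lit 221193) (nat_lit 11) (.e (nat_lit 336011) (nat_lit 2) (.e (nat_lit 90170) (nat_lit 13) (.e (nat_lit 172087) (nat_lit 9) .nil))))) .nil)) 
(.lf (nat_lit 225191) (.g (nat_lit 1941) (.e (nat_lit 98342) (nat_lit 20) (.e (nat_lit 221193) (nat_lit 11) (.e (nat_lit 336026) (nat_lit 3) (.e (nat_lit 98365) (nat_lit 26) (.e (nat_lit 426187) (nat_lit 9) (.e (nat_lit 426437) (nat_lit 18) .nil)))))) (.g (nat_lit 6) .nil .nil)))) (.nd (nat_lit 5) 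
(.lf (nat_lit 225175) (.g (nat_lit 3095) (.e (nat_lit 98342) (nat_lit 20) (.e (nat_lit 221193) (nat_lit 11) (.e (nat_lit 336021) (nat_lit 3) (.e (nat_lit 98365) (nat_lit 26) (.e (nat_lit 426188) (nat_lit 9) (.e (nat_lit 426437) (nat_lit 18) .nil)))))) (.g (nat_lit 6) .nil .nil))) 
(.lf (nat_lit 225207) (.g (nat_lit 1486) (.e (nat_lit 98342) (nat_lit 20) (.e (nat_lit 221193) (nat_lit 11) (.e (nat_lit 336027) (nat_lit 3) (.e (nat_lit 98369) (nat_lit 28) (.e (nat_lit 450304) (nat_lit 3) .nil))))) (.g (nat_lit 4) .nil .nil))))) (.nd (nat_lit 4) (.nd (nat_lit 5) 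
(.lf (nat_lit 225167) (.g (nat_lit 1945) (.e (nat_lit 98342) (nat_lit 20) (.e (nat_lit 221193) (nat_lit 11) (.e (nat_lit 336011) (nat_lit 2) (.e (nat_lit 90185) (nat_lit 17) (.e (nat_lit 237605) (nat_lit 9) (.e (nat_lit 426437) (nat_lit 18) .nil)))))) (.g (nat_lit 4) .nil .nil))) 
(.lf (nat_lit 225199) (.g (nat_lit 1855) (.e (nat_lit 98342) (nat_lit 20) (.e (nat_lit 221193) (nat_lit 11) (.e (nat_lit 336027) (nat_lit 3) (.e (nat_lit 98363) (nat_lit 26) (.e (nat_lit 426230) (nat_lit 9) (.e (nat_lit 426433) (nat_lit 18) .nil)))))) (.g (nat_lit 4) .nil .nil)))) (.nd (nat_lit 5) 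
(.lf (nat_lit 225183) (.g (nat_lit 2574) (.e (nat_lit 98342) (nat_lit 20) (.e (nat_lit 221193) (nat_lit 11) (.e (nat_lit 336025) (nat_lit 3) (.e (nat_lit 98365) (nat_lit 26) (.e (nat_lit 426188) (nat_lit 9) (.e (nat_lit 426437) (nat_lit 18) .nil)))))) (.g (nat_lit 6) .nil .nil))) 
(.lf (nat_lit 225215) (.g (nat_lit 2399) (.e (nat_lit 98342) (nat_lit 20) (.e (nat_lit 221194) (nat_lit 11) (.e (nat_lit 336002) (nat_lit 2) (.e (nat_lit 90185) (nat_lit 17) (.e (nat_lit 237604) (nat_lit 9) (.e (nat_lit 426437) (nat_lit 18) .nil)))))) (.g (nat_lit 4) .nil .nil)))))))))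

noncomputable def tv2952 : DT := (.nd (nat_lit 0) (.nd (nat_lit 1) (.nd (nat_lit 2) (.nd (nat_lit 3) (.nd (nat_lit 4) (.nd (nat_lit 5) 
(.lf (nat_lit 225216) (.g (nat_lit 2460) (.e (nat_lit 98342) (nat_lit 20) (.e (nat_lit 221194) (nat_lit 11) (.e (nat_lit 336002) (nat_lit 2) (.e (nat_lit 90185) (nat_lit 17) (.e (nat_lit 237605) (nat_lit 9) (.e (nat_lit 426434) (nat_lit 18) .nil)))))) (.g (nat_lit 5) .nil .nil))) 
(.lf (nat_lit 225248) (.g (nat_lit 3002) (.e (nat_lit 98342) (nat_lit 20) (.e (nat_lit 221194) (nat_lit 11) (.e (nat_lit 336011) (nat_lit 2) (.e (nat_lit 90170) (nat_lit 13) (.e (nat_lit 172087) (nat_lit 9) .nil))))) .nil))) (.nd (nat_lit 5) 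
(.lf (nat_lit 225232) (.g (nat_lit 1836) (.e (nat_lit 98342) (nat_lit 20) (.e (nat_lit 221194) (nat_lit 11) (.e (nat_lit 336010) (nat_lit 2) (.e (nat_lit 90170) (nat_lit 13) (.e (nat_lit 172092) (nat_lit 9) .nil))))) .nil)) 
(.lf (nat_lit 225264) (.g (nat_lit 2637) (.e (nat_lit 98342) (nat_lit 20) (.e (nat_lit 221194) (nat_lit 11) (.e (nat_lit 336012) (nat_lit 2) (.e (nat_lit 90172) (nat_lit 14) (.e (nat_lit 188160) (nat_lit 40) .nil))))) .nil)))) (.nd (nat_lit 4) (.nd (nat_lit 5) 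
(.lf (nat_lit 225224) (.g (nat_lit 2348) (.e (nat_lit 98342) (nat_lit 20) (.e (nat_lit 221194) (nat_lit 11) (.e (nat_lit 336004) (nat_lit 2) (.e (nat_lit 90185) (nat_lit 17) (.e (nat_lit 237605) (nat_lit 9) (.e (nat_lit 426437) (nat_lit 18) .nil)))))) (.g (nat_lit 4) .nil .nil))) 
(.lf (nat_lit 225256) (.g (nat_lit 2775) (.e (nat_lit 98342) (nat_lit 20) (.e (nat_lit 221194) (nat_lit 11) (.e (nat_lit 336011) (nat_lit 2) (.e (nat_lit 90185) (nat_lit 17) (.e (nat_lit 237601) (nat_lit 9) .nil))))) .nil))) (.nd (nat_lit 5) 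
(.lf (nat_lit 225240) (.g (nat_lit 2436) (.e (nat_lit 98342) (nat_lit 20) (.e (nat_lit 221194) (nat_lit 11) (.e (nat_lit 336010) (nat_lit 2) (.e (nat_lit 90185) (nat_lit 17) (.e (nat_lit 237601) (nat_lit 9) (.e (nat_lit 426438) (nat_lit 18) .nil)))))) (.g (nat_lit 0) .nil .nil))) 
(.lf (nat_lit 225272) (.g (nat_lit 3333) (.e (nat_lit 98342) (nat_lit 20) (.e (nat_lit 221194) (nat_lit 11) (.e (nat_lit 336012) (nat_lit 2) (.e (nat_lit 90185) (nat_lit 17) (.e (nat_lit 237605) (nat_lit 9) (.e (nat_lit 426438) (nat_lit 18) .nil)))))) (.g (nat_lit 0) .nil .nil)))))) (.nd (nat_lit 3) (.nd (nat_lit 4) (.nd (nat_lit 5) 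
(.lf (nat_lit 225220) (.g (nat_lit 2351) (.e (nat_lit 98342) (nat_lit 20) (.e (nat_lit 221194) (nat_lit 11) (.e (nat_lit 336004) (nat_lit 2) (.e (nat_lit 90172) (nat_lit 14) (.e (nat_lit 188160) (nat_lit 40) .nil))))) .nil)) 
(.lf (nat_lit 225252) (.g (nat_lit 1859) (.e (nat_lit 98342) (nat_lit 20) (.e (nat_lit 221194) (nat_lit 11) (.e (nat_lit 336011) (nat_lit 2) (.e (nat_lit 90171) (nat_lit 14) .nil)))) .nil))) (.nd (nat_lit 5) 
(.lf (nat_lit 225236) (.g (nat_lit 2427) (.e (nat_lit 98342) (nat_lit 20) (.e (nat_lit 221194) (nat_lit 11) (.e (nat_lit 336010) (nat_lit 2) (.e (nat_lit 90174) (nat_lit 14) (.e (nat_lit 188160) (nat_lit 40) (.e (nat_lit 109) (nat_lit 3) .nil)))))) (.g (nat_lit 4) .nil .nil))) 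
(.lf (nat_lit 225268) (.g (nat_lit 2164) (.e (nat_lit 98342) (nat_lit 20) (.e (nat_lit 221194) (nat_lit 11) (.e (nat_lit 336012) (nat_lit 2) (.e (nat_lit 90176) (nat_lit 15) (.e (nat_lit 196352) (nat_lit 3) .nil))))) (.g (nat_lit 4) .nil .nil))))) (.nd (nat_lit 4) (.nd (nat_lit 5) 
(.lf (nat_lit 225228) (.g (nat_lit 426) (.e (nat_lit 98342) (nat_lit 20) (.e (nat_lit 221194) (nat_lit 11) (.e (nat_lit 336010) (nat_lit 2) .nil))) .nil)) 
(.lf (nat_lit 225260) (.g (nat_lit 2833) (.e (nat_lit 98342) (nat_lit 20) (.e (nat_lit 221194) (nat_lit 11) (.e (nat_lit 336011) (nat_lit 2) (.e (nat_lit 90185) (nat_lit 17) (.e (nat_lit 237604) (nat_lit 9) .nil))))) .nil))) (.nd (nat_lit 5) 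
(.lf (nat_lit 225244) (.g (nat_lit 639) (.e (nat_lit 98342) (nat_lit 20) (.e (nat_lit 221194) (nat_lit 11) (.e (nat_lit 336011) (nat_lit 2) .nil))) .nil)) 
(.lf (nat_lit 225276) (.g (nat_lit 1714) (.e (nat_lit 98342) (nat_lit 20) (.e (nat_lit 221194) (nat_lit 11) (.e (nat_lit 336020) (nat_lit 3) (.e (nat_lit 98381) (nat_lit 31) (.e (nat_lit 474880) (nat_lit 3) .nil))))) (.g (nat_lit 4) .nil .nil))))))) (.nd (nat_lit 2) (.nd (nat_lit 3) (.nd (nat_lit 4) (.nd (nat_lit 5) 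
(.lf (nat_lit 225218) (.g (nat_lit 2113) (.e (nat_lit 98342) (nat_lit 20) (.e (nat_lit 221194) (nat_lit 11) (.e (nat_lit 336003) (nat_lit 2) (.e (nat_lit 90185) (nat_lit 17) (.e (nat_lit 237603) (nat_lit 9) .nil))))) .nil)) 
(.lf (nat_lit 225250) (.g (nat_lit 3758) (.e (nat_lit 98342) (nat_lit 20) (.e (nat_lit 221194) (nat_lit 11) (.e (nat_lit 336011) (nat_lit 2) (.e (nat_lit 90170) (nat_lit 13) (.e (nat_lit 172092) (nat_lit 9) .nil))))) .nil))) (.nd (nat_lit 5) 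
(.lf (nat_lit 225234) (.g (nat_lit 2743) (.e (nat_lit 98342) (nat_lit 20) (.e (nat_lit 221194) (nat_lit 11) (.e (nat_lit 336010) (nat_lit 2) (.e (nat_lit 90172) (nat_lit 14) (.e (nat_lit 188160) (nat_lit 40) (.e (nat_lit 109) (nat_lit 3) .nil)))))) (.g (nat_lit 4) .nil .nil))) 
(.lf (nat_lit 225266) (.g (nat_lit 3391) (.e (nat_lit 98342) (nat_lit 20) (.e (nat_lit 221194) (nat_lit 11) (.e (nat_lit 336012) (nat_lit 2) (.e (nat_lit 90172) (nat_lit 14) (.e (nat_lit 188160) (nat_lit 40) (.e (nat_lit 112) (nat_lit 3) .nil)))))) (.g (nat_lit 4) .nil .nil))))) (.nd (nat_lit 4) (.nd (nat_lit 5) 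
(.lf (nat_lit 225226) (.g (nat_lit 1919) (.e (nat_lit 98342) (nat_lit 20) (.e (nat_lit 221194) (nat_lit 11) (.e (nat_lit 336009) (nat_lit 2) (.e (nat_lit 90172) (nat_lit 14) (.e (nat_lit 188160) (nat_lit 40) .nil))))) .nil)) 
(.lf (nat_lit 225258) (.g (nat_lit 4223) (.e (nat_lit 98342) (nat_lit 20) (.e (nat_lit 221194) (nat_lit 11) (.e (nat_lit 336011) (nat_lit 2) (.e (nat_lit 90185) (nat_lit 17) (.e (nat_lit 237601) (nat_lit 9) (.e (nat_lit 426438) (nat_lit 18) .nil)))))) (.g (nat_lit 6) .nil .nil)))) (.nd (nat_lit 5) 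
(.lf (nat_lit 225242) (.g (nat_lit 1966) (.e (nat_lit 98342) (nat_lit 20) (.e (nat_lit 221194) (nat_lit 11) (.e (nat_lit 336010) (nat_lit 2) (.e (nat_lit 90185) (nat_lit 17) (.e (nat_lit 237605) (nat_lit 9) (.e (nat_lit 426437) (nat_lit 18) .nil)))))) (.g (nat_lit 4) .nil .nil))) 
(.lf (nat_lit 225274) (.g (nat_lit 2389) (.e (nat_lit 98342) (nat_lit 20) (.e (nat_lit 221194) (nat_lit 11) (.e (nat_lit 336020) (nat_lit 3) (.e (nat_lit 98365) (nat_lit 26) (.e (nat_lit 426188) (nat_lit 9) (.e (nat_lit 426438) (nat_lit 18) .nil)))))) (.g (nat_lit 4) .nil .nil)))))) (.nd (nat_lit 3) (.nd (nat_lit 4) (.nd (nat_lit 5) 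
(.lf (nat_lit 225222) (.g (nat_lit 2714) (.e (nat_lit 98342) (nat_lit 20) (.e (nat_lit 221194) (nat_lit 11) (.e (nat_lit 336004) (nat_lit 2) (.e (nat_lit 90185) (nat_lit 17) (.e (nat_lit 237601) (nat_lit 9) (.e (nat_lit 426438) (nat_lit 18) .nil)))))) (.g (nat_lit 0) .nil .nil))) 
(.lf (nat_lit 225254) (.g (nat_lit 1864) (.e (nat_lit 98342) (nat_lit 20) (.e (nat_lit 221194) (nat_lit 11) (.e (nat_lit 336011) (nat_lit 2) (.e (nat_lit 90176) (nat_lit 15) .nil)))) .nil))) (.nd (nat_lit 5) 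
(.lf (nat_lit 225238) (.g (nat_lit 1568) (.e (nat_lit 98342) (nat_lit 20) (.e (nat_lit 221194) (nat_lit 11) (.e (nat_lit 336010) (nat_lit 2) (.e (nat_lit 90176) (nat_lit 15) (.e (nat_lit 196352) (nat_lit 3) .nil))))) (.g (nat_lit 4) .nil .nil))) 
(.lf (nat_lit 225270) (.g (nat_lit 2409) (.e (nat_lit 98342) (nat_lit 20) (.e (nat_lit 221194) (nat_lit 11) (.e (nat_lit 336012) (nat_lit 2) (.e (nat_lit 90185) (nat_lit 17) (.e (nat_lit 237601) (nat_lit 9) (.e (nat_lit 426437) (nat_lit 18) .nil)))))) (.g (nat_lit 4) .nil .nil))))) (.nd (nat_lit 4) (.nd (nat_lit 5) 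
(.lf (nat_lit 225230) (.g (nat_lit 2276) (.e (nat_lit 98342) (nat_lit 20) (.e (nat_lit 221194) (nat_lit 11) (.e (nat_lit 336010) (nat_lit 2) (.e (nat_lit 90170) (nat_lit 13) (.e (nat_lit 172087) (nat_lit 9) (.e (nat_lit 426437) (nat_lit 18) .nil)))))) (.g (nat_lit 4) .nil .nil))) 
(.lf (nat_lit 225262) (.g (nat_lit 3684) (.e (nat_lit 98342) (nat_lit 20) (.e (nat_lit 221194) (nat_lit 11) (.e (nat_lit 336011) (nat_lit 2) (.e (nat_lit 90185) (nat_lit 17) (.e (nat_lit 237605) (nat_lit 9) (.e (nat_lit 426437) (nat_lit 18) .nil)))))) (.g (nat_lit 4) .nil .nil)))) (.nd (nat_lit 5) 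
(.lf (nat_lit 225246) (.g (nat_lit 1859) (.e (nat_lit 98342) (nat_lit 20) (.e (nat_lit 221194) (nat_lit 11) (.e (nat_lit 336011) (nat_lit 2) (.e (nat_lit 90167) (nat_lit 13) .nil)))) .nil)) 
(.lf (nat_lit 225278) (.g (nat_lit 2005) (.e (nat_lit 98342) (nat_lit 20) (.e (nat_lit 221194) (nat_lit 11) (.e (nat_lit 336021) (nat_lit 3) (.e (nat_lit 98363) (nat_lit 26) (.e (nat_lit 426230) (nat_lit 9) (.e (nat_lit 426435) (nat_lit 18) .nil)))))) (.g (nat_lit 4) .nil .nil)))))))) (.nd (nat_lit 1) (.nd (nat_lit 2) (.nd (nat_lit 3) (.nd (nat_lit 4) (.nd (nat_lit 5) 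
(.lf (nat_lit 225217) (.g (nat_lit 856) (.e (nat_lit 98342) (nat_lit 20) (.e (nat_lit 221194) (nat_lit 11) (.e (nat_lit 336003) (nat_lit 2) (.e (nat_lit 90176) (nat_lit 15) .nil)))) .nil)) 
(.lf (nat_lit 225249) (.g (nat_lit 3711) (.e (nat_lit 98342) (nat_lit 20) (.e (nat_lit 221194) (nat_lit 11) (.e (nat_lit 336011) (nat_lit 2) (.e (nat_lit 90170) (nat_lit 13) (.e (nat_lit 172088) (nat_lit 9) (.e (nat_lit 433920) (nat_lit 18) .nil)))))) (.g (nat_lit 5) .nil .nil)))) (.nd (nat_lit 5) 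
(.lf (nat_lit 225233) (.g (nat_lit 2835) (.e (nat_lit 98342) (nat_lit 20) (.e (nat_lit 221194) (nat_lit 11) (.e (nat_lit 336010) (nat_lit 2) (.e (nat_lit 90170) (nat_lit 13) (.e (nat_lit 172095) (nat_lit 9) (.e (nat_lit 433920) (nat_lit 18) .nil)))))) (.g (nat_lit 5) .nil .nil))) 
(.lf (nat_lit 225265) (.g (nat_lit 3711) (.e (nat_lit 98342) (nat_lit 20) (.e (nat_lit 221194) (nat_lit 11) (.e (nat_lit 336012) (nat_lit 2) (.e (nat_lit 90172) (nat_lit 14) (.e (nat_lit 188160) (nat_lit 40) (.e (nat_lit 109) (nat_lit 3) .nil)))))) (.g (nat_lit 4) .nil .nil))))) (.nd (nat_lit 4) (.nd (nat_lit 5) 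
(.lf (nat_lit 225225) (.g (nat_lit 712) (.e (nat_lit 98342) (nat_lit 20) (.e (nat_lit 221194) (nat_lit 11) (.e (nat_lit 336009) (nat_lit 2) .nil))) .nil)) 
(.lf (nat_lit 225257) (.g (nat_lit 3414) (.e (nat_lit 98342) (nat_lit 20) (.e (nat_lit 221194) (nat_lit 11) (.e (nat_lit 336011) (nat_lit 2) (.e (nat_lit 90185) (nat_lit 17) (.e (nat_lit 237601) (nat_lit 9) (.e (nat_lit 426437) (nat_lit 18) .nil)))))) (.g (nat_lit 4) .nil .nil)))) (.nd (nat_lit 5) 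
(.lf (nat_lit 225241) (.g (nat_lit 2418) (.e (nat_lit 98342) (nat_lit 20) (.e (nat_lit 221194) (nat_lit 11) (.e (nat_lit 336010) (nat_lit 2) (.e (nat_lit 90185) (nat_lit 17) (.e (nat_lit 237605) (nat_lit 9) (.e (nat_lit 426434) (nat_lit 18) .nil)))))) (.g (nat_lit 5) .nil .nil))) 
(.lf (nat_lit 225273) (.g (nat_lit 2543) (.e (nat_lit 98342) (nat_lit 20) (.e (nat_lit 221194) (nat_lit 11) (.e (nat_lit 336020) (nat_lit 3) (.e (nat_lit 98365) (nat_lit 26) (.e (nat_lit 426188) (nat_lit 9) (.e (nat_lit 426436) (nat_lit 18) .nil)))))) (.g (nat_lit 4) .nil .nil)))))) (.nd (nat_lit 3) (.nd (nat_lit 4) (.nd (nat_lit 5) 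
(.lf (nat_lit 225221) (.g (nat_lit 1959) (.e (nat_lit 98342) (nat_lit 20) (.e (nat_lit 221194) (nat_lit 11) (.e (nat_lit 336004) (nat_lit 2) (.e (nat_lit 90176) (nat_lit 15) (.e (nat_lit 196352) (nat_lit 3) .nil))))) (.g (nat_lit 4) .nil .nil))) 
(.lf (nat_lit 225253) (.g (nat_lit 2836) (.e (nat_lit 98342) (nat_lit 20) (.e (nat_lit 221194) (nat_lit 11) (.e (nat_lit 336011) (nat_lit 2) (.e (nat_lit 90172) (nat_lit 14) (.e (nat_lit 188160) (nat_lit 40) .nil))))) .nil))) (.nd (nat_lit 5) 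
(.lf (nat_lit 225237) (.g (nat_lit 1858) (.e (nat_lit 98342) (nat_lit 20) (.e (nat_lit 221194) (nat_lit 11) (.e (nat_lit 336010) (nat_lit 2) (.e (nat_lit 90174) (nat_lit 14) (.e (nat_lit 188160) (nat_lit 40) (.e (nat_lit 112) (nat_lit 3) .nil)))))) (.g (nat_lit 4) .nil .nil))) 
(.lf (nat_lit 225269) (.g (nat_lit 2324) (.e (nat_lit 98342) (nat_lit 20) (.e (nat_lit 221194) (nat_lit 11) (.e (nat_lit 336012) (nat_lit 2) (.e (nat_lit 90178) (nat_lit 15) (.e (nat_lit 196352) (nat_lit 3) .nil))))) (.g (nat_lit 4) .nil .nil))))) (.nd (nat_lit 4) (.nd (nat_lit 5) 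
(.lf (nat_lit 225229) (.g (nat_lit 2283) (.e (nat_lit 98342) (nat_lit 20) (.e (nat_lit 221194) (nat_lit 11) (.e (nat_lit 336010) (nat_lit 2) (.e (nat_lit 90170) (nat_lit 13) (.e (nat_lit 172085) (nat_lit 9) (.e (nat_lit 426438) (nat_lit 18) .nil)))))) (.g (nat_lit 4) .nil .nil))) 
(.lf (nat_lit 225261) (.g (nat_lit 4111) (.e (nat_lit 98342) (nat_lit 20) (.e (nat_lit 221194) (nat_lit 11) (.e (nat_lit 336011) (nat_lit 2) (.e (nat_lit 90185) (nat_lit 17) (.e (nat_lit 237605) (nat_lit 9) (.e (nat_lit 426434) (nat_lit 18) .nil)))))) (.g (nat_lit 5) .nil .nil)))) (.nd (nat_lit 5) 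
(.lf (nat_lit 225245) (.g (nat_lit 1859) (.e (nat_lit 98342) (nat_lit 20) (.e (nat_lit 221194) (nat_lit 11) (.e (nat_lit 336011) (nat_lit 2) (.e (nat_lit 90166) (nat_lit 13) .nil)))) .nil)) 
(.lf (nat_lit 225277) (.g (nat_lit 1959) (.e (nat_lit 98342) (nat_lit 20) (.e (nat_lit 221194) (nat_lit 11) (.e (nat_lit 336021) (nat_lit 3) (.e (nat_lit 98363) (nat_lit 26) (.e (nat_lit 426228) (nat_lit 9) (.e (nat_lit 426435) (nat_lit 18) .nil)))))) (.g (nat_lit 4) .nil .nil))))))) (.nd (nat_lit 2) (.nd (nat_lit 3) (.nd (nat_lit 4) (.nd (nat_lit 5) 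
(.lf (nat_lit 225219) (.g (nat_lit 2401) (.e (nat_lit 98342) (nat_lit 20) (.e (nat_lit 221194) (nat_lit 11) (.e (nat_lit 336003) (nat_lit 2) (.e (nat_lit 90185) (nat_lit 17) (.e (nat_lit 237605) (nat_lit 9) (.e (nat_lit 426437) (nat_lit 18) .nil)))))) (.g (nat_lit 4) .nil .nil))) 
(.lf (nat_lit 225251) (.g (nat_lit 4566) (.e (nat_lit 98342) (nat_lit 20) (.e (nat_lit 221194) (nat_lit 11) (.e (nat_lit 336011) (nat_lit 2) (.e (nat_lit 90170) (nat_lit 13) (.e (nat_lit 172095) (nat_lit 9) (.e (nat_lit 433920) (nat_lit 18) .nil)))))) (.g (nat_lit 5) .nil .nil)))) (.nd (nat_lit 5) 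
(.lf (nat_lit 225235) (.g (nat_lit 2391) (.e (nat_lit 98342) (nat_lit 20) (.e (nat_lit 221194) (nat_lit 11) (.e (nat_lit 336010) (nat_lit 2) (.e (nat_lit 90172) (nat_lit 14) (.e (nat_lit 188160) (nat_lit 40) (.e (nat_lit 112) (nat_lit 3) .nil)))))) (.g (nat_lit 4) .nil .nil))) 
(.lf (nat_lit 225267) (.g (nat_lit 2655) (.e (nat_lit 98342) (nat_lit 20) (.e (nat_lit 221194) (nat_lit 11) (.e (nat_lit 336012) (nat_lit 2) (.e (nat_lit 90174) (nat_lit 14) (.e (nat_lit 188160) (nat_lit 40) .nil))))) .nil)))) (.nd (nat_lit 4) (.nd (nat_lit 5) 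
(.lf (nat_lit 225227) (.g (nat_lit 1634) (.e (nat_lit 98342) (nat_lit 20) (.e (nat_lit 221194) (nat_lit 11) (.e (nat_lit 336009) (nat_lit 2) (.e (nat_lit 90176) (nat_lit 15) (.e (nat_lit 196352) (nat_lit 3) .nil))))) .nil)) 
(.lf (nat_lit 225259) (.g (nat_lit 3421) (.e (nat_lit 98342) (nat_lit 20) (.e (nat_lit 221194) (nat_lit 11) (.e (nat_lit 336011) (nat_lit 2) (.e (nat_lit 90185) (nat_lit 17) (.e (nat_lit 237603) (nat_lit 9) .nil))))) .nil))) (.nd (nat_lit 5) 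
(.lf (nat_lit 225243) (.g (nat_lit 2531) (.e (nat_lit 98342) (nat_lit 20) (.e (nat_lit 221194) (nat_lit 11) (.e (nat_lit 336010) (nat_lit 2) (.e (nat_lit 90185) (nat_lit 17) (.e (nat_lit 237605) (nat_lit 9) (.e (nat_lit 426438) (nat_lit 18) .nil)))))) (.g (nat_lit 0) .nil .nil))) 
(.lf (nat_lit 225275) (.g (nat_lit 2305) (.e (nat_lit 98342) (nat_lit 20) (.e (nat_lit 221194) (nat_lit 11) (.e (nat_lit 336020) (nat_lit 3) (.e (nat_lit 98370) (nat_lit 28) (.e (nat_lit 450304) (nat_lit 3) .nil))))) (.g (nat_lit 4) .nil .nil)))))) (.nd (nat_lit 3) (.nd (nat_lit 4) (.nd (nat_lit 5) 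
(.lf (nat_lit 225223) (.g (nat_lit 2698) (.e (nat_lit 98342) (nat_lit 20) (.e (nat_lit 221194) (nat_lit 11) (.e (nat_lit 336004) (nat_lit 2) (.e (nat_lit 90185) (nat_lit 17) (.e (nat_lit 237605) (nat_lit 9) (.e (nat_lit 426434) (nat_lit 18) .nil)))))) (.g (nat_lit 5) .nil .nil))) 
(.lf (nat_lit 225255) (.g (nat_lit 3209) (.e (nat_lit 98342) (nat_lit 20) (.e (nat_lit 221194) (nat_lit 11) (.e (nat_lit 336011) (nat_lit 2) (.e (nat_lit 90185) (nat_lit 17) (.e (nat_lit 237600) (nat_lit 9) .nil))))) .nil))) (.nd (nat_lit 5) 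
(.lf (nat_lit 225239) (.g (nat_lit 1792) (.e (nat_lit 98342) (nat_lit 20) (.e (nat_lit 221194) (nat_lit 11) (.e (nat_lit 336010) (nat_lit 2) (.e (nat_lit 90178) (nat_lit 15) (.e (nat_lit 196352) (nat_lit 3) .nil))))) (.g (nat_lit 4) .nil .nil))) 
(.lf (nat_lit 225271) (.g (nat_lit 3201) (.e (nat_lit 98342) (nat_lit 20) (.e (nat_lit 221194) (nat_lit 11) (.e (nat_lit 336012) (nat_lit 2) (.e (nat_lit 90185) (nat_lit 17) (.e (nat_lit 237601) (nat_lit 9) (.e (nat_lit 426438) (nat_lit 18) .nil)))))) (.g (nat_lit 0) .nil .nil))))) (.nd (nat_lit 4) (.nd (nat_lit 5) 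
(.lf (nat_lit 225231) (.g (nat_lit 1802) (.e (nat_lit 98342) (nat_lit 20) (.e (nat_lit 221194) (nat_lit 11) (.e (nat_lit 336010) (nat_lit 2) (.e (nat_lit 90170) (nat_lit 13) (.e (nat_lit 172088) (nat_lit 9) (.e (nat_lit 433920) (nat_lit 18) .nil)))))) (.g (nat_lit 4) .nil .nil))) 
(.lf (nat_lit 225263) (.g (nat_lit 2107) (.e (nat_lit 98342) (nat_lit 20) (.e (nat_lit 221194) (nat_lit 11) (.e (nat_lit 336012) (nat_lit 2) (.e (nat_lit 90169) (nat_lit 13) (.e (nat_lit 172086) (nat_lit 9) .nil))))) .nil))) (.nd (nat_lit 5) 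
(.lf (nat_lit 225247) (.g (nat_lit 3802) (.e (nat_lit 98342) (nat_lit 20) (.e (nat_lit 221194) (nat_lit 11) (.e (nat_lit 336011) (nat_lit 2) (.e (nat_lit 90170) (nat_lit 13) (.e (nat_lit 172086) (nat_lit 9) .nil))))) .nil)) 
(.lf (nat_lit 225279) (.g (nat_lit 887) (.e (nat_lit 98342) (nat_lit 20) (.e (nat_lit 221194) (nat_lit 11) (.e (nat_lit 336021) (nat_lit 3) (.e (nat_lit 98365) (nat_lit 26) .nil)))) .nil))))))))

noncomputable def tv2953 : DT := (.nd (nat_lit 0) (.nd (nat_lit 1) (.nd (nat_lit 2) (.nd (nat_lit 3) (.nd (nat_lit 4) (.nd (nat_lit 5) 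
(.lf (nat_lit 225280) (.g (nat_lit 2616) (.e (nat_lit 98342) (nat_lit 20) (.e (nat_lit 221194) (nat_lit 11) (.e (nat_lit 336021) (nat_lit 3) (.e (nat_lit 98365) (nat_lit 26) (.e (nat_lit 426187) (nat_lit 9) (.e (nat_lit 426434) (nat_lit 18) .nil)))))) (.g (nat_lit 5) .nil .nil))) 
(.lf (nat_lit 225312) (.g (nat_lit 1811) (.e (nat_lit 98342) (nat_lit 20) (.e (nat_lit 221194) (nat_lit 11) (.e (nat_lit 336026) (nat_lit 3) (.e (nat_lit 98367) (nat_lit 27) (.e (nat_lit 442112) (nat_lit 8) .nil))))) .nil))) (.nd (nat_lit 5) 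
(.lf (nat_lit 225296) (.g (nat_lit 2797) (.e (nat_lit 98342) (nat_lit 20) (.e (nat_lit 221194) (nat_lit 11) (.e (nat_lit 336025) (nat_lit 3) (.e (nat_lit 98365) (nat_lit 26) (.e (nat_lit 426190) (nat_lit 9) (.e (nat_lit 426436) (nat_lit 18) .nil)))))) (.g (nat_lit 4) .nil .nil))) 
(.lf (nat_lit 225328) (.g (nat_lit 3928) (.e (nat_lit 98342) (nat_lit 20) (.e (nat_lit 221194) (nat_lit 11) (.e (nat_lit 336027) (nat_lit 3) (.e (nat_lit 98365) (nat_lit 26) (.e (nat_lit 426188) (nat_lit 9) (.e (nat_lit 426438) (nat_lit 18) .nil)))))) (.g (nat_lit 0) .nil .nil))))) (.nd (nat_lit 4) (.nd (nat_lit 5) 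
(.lf (nat_lit 225288) (.g (nat_lit 1866) (.e (nat_lit 98342) (nat_lit 20) (.e (nat_lit 221194) (nat_lit 11) (.e (nat_lit 336021) (nat_lit 3) (.e (nat_lit 98381) (nat_lit 31) .nil)))) .nil)) 
(.lf (nat_lit 225320) (.g (nat_lit 2700) (.e (nat_lit 98342) (nat_lit 20) (.e (nat_lit 221194) (nat_lit 11) (.e (nat_lit 336027) (nat_lit 3) (.e (nat_lit 98363) (nat_lit 26) (.e (nat_lit 426230) (nat_lit 9) (.e (nat_lit 426433) (nat_lit 18) .nil)))))) (.g (nat_lit 4) .nil .nil)))) (.nd (nat_lit 5) 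
(.lf (nat_lit 225304) (.g (nat_lit 2247) (.e (nat_lit 98342) (nat_lit 20) (.e (nat_lit 221194) (nat_lit 11) (.e (nat_lit 336026) (nat_lit 3) (.e (nat_lit 98365) (nat_lit 26) (.e (nat_lit 426187) (nat_lit 9) (.e (nat_lit 426434) (nat_lit 18) .nil)))))) (.g (nat_lit 4) .nil .nil))) 
(.lf (nat_lit 225336) (.g (nat_lit 2174) (.e (nat_lit 98342) (nat_lit 20) (.e (nat_lit 229120) (nat_lit 11) (.e (nat_lit 336013) (nat_lit 2) (.e (nat_lit 90170) (nat_lit 13) (.e (nat_lit 172087) (nat_lit 9) (.e (nat_lit 426437) (nat_lit 18) .nil)))))) (.g (nat_lit 4) .nil .nil)))))) (.nd (nat_lit 3) (.nd (nat_lit 4) (.nd (nat_lit 5) 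
(.lf (nat_lit 225284) (.g (nat_lit 3391) (.e (nat_lit 98342) (nat_lit 20) (.e (nat_lit 221194) (nat_lit 11) (.e (nat_lit 336021) (nat_lit 3) (.e (nat_lit 98365) (nat_lit 26) (.e (nat_lit 426188) (nat_lit 9) (.e (nat_lit 426437) (nat_lit 18) .nil)))))) (.g (nat_lit 6) .nil .nil))) 
(.lf (nat_lit 225316) (.g (nat_lit 1794) (.e (nat_lit 98342) (nat_lit 20) (.e (nat_lit 221194) (nat_lit 11) (.e (nat_lit 336026) (nat_lit 3) (.e (nat_lit 98380) (nat_lit 31) (.e (nat_lit 474880) (nat_lit 3) .nil))))) (.g (nat_lit 4) .nil .nil)))) (.nd (nat_lit 5) 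
(.lf (nat_lit 225300) (.g (nat_lit 2138) (.e (nat_lit 98342) (nat_lit 20) (.e (nat_lit 221194) (nat_lit 11) (.e (nat_lit 336026) (nat_lit 3) (.e (nat_lit 98358) (nat_lit 26) (.e (nat_lit 426226) (nat_lit 9) (.e (nat_lit 426437) (nat_lit 18) .nil)))))) (.g (nat_lit 4) .nil .nil))) 
(.lf (nat_lit 225332) (.g (nat_lit 2427) (.e (nat_lit 98342) (nat_lit 20) (.e (nat_lit 221194) (nat_lit 11) (.e (nat_lit 336027) (nat_lit 3) (.e (nat_lit 98370) (nat_lit 28) (.e (nat_lit 450304) (nat_lit 3) .nil))))) (.g (nat_lit 4) .nil .nil))))) (.nd (nat_lit 4) (.nd (nat_lit 5) 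
(.lf (nat_lit 225292) (.g (nat_lit 2432) (.e (nat_lit 98342) (nat_lit 20) (.e (nat_lit 221194) (nat_lit 11) (.e (nat_lit 336025) (nat_lit 3) (.e (nat_lit 98365) (nat_lit 26) (.e (nat_lit 426188) (nat_lit 9) (.e (nat_lit 426434) (nat_lit 18) .nil)))))) (.g (nat_lit 4) .nil .nil))) 
(.lf (nat_lit 225324) (.g (nat_lit 3380) (.e (nat_lit 98342) (nat_lit 20) (.e (nat_lit 221194) (nat_lit 11) (.e (nat_lit 336027) (nat_lit 3) (.e (nat_lit 98365) (nat_lit 26) (.e (nat_lit 426187) (nat_lit 9) (.e (nat_lit 426438) (nat_lit 18) .nil)))))) (.g (nat_lit 0) .nil .nil)))) (.nd (nat_lit 5) 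
(.lf (nat_lit 225308) (.g (nat_lit 3646) (.e (nat_lit 98342) (nat_lit 20) (.e (nat_lit 221194) (nat_lit 11) (.e (nat_lit 336026) (nat_lit 3) (.e (nat_lit 98365) (nat_lit 26) (.e (nat_lit 426188) (nat_lit 9) (.e (nat_lit 426436) (nat_lit 18) .nil)))))) (.g (nat_lit 0) .nil .nil))) 
(.lf (nat_lit 225340) (.g (nat_lit 1019) (.e (nat_lit 98342) (nat_lit 20) (.e (nat_lit 229120) (nat_lit 11) (.e (nat_lit 336019) (nat_lit 3) (.e (nat_lit 98380) (nat_lit 31) (.e (nat_lit 474880) (nat_lit 3) .nil))))) (.g (nat_lit 4) .nil .nil))))))) (.nd (nat_lit 2) (.nd (nat_lit 3) (.nd (nat_lit 4) (.nd (nat_lit 5) 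
(.lf (nat_lit 225282) (.g (nat_lit 3008) (.e (nat_lit 98342) (nat_lit 20) (.e (nat_lit 221194) (nat_lit 11) (.e (nat_lit 336021) (nat_lit 3) (.e (nat_lit 98365) (nat_lit 26) (.e (nat_lit 426187) (nat_lit 9) (.e (nat_lit 426438) (nat_lit 18) .nil)))))) (.g (nat_lit 0) .nil .nil))) 
(.lf (nat_lit 225314) (.g (nat_lit 2103) (.e (nat_lit 98342) (nat_lit 20) (.e (nat_lit 221194) (nat_lit 11) (.e (nat_lit 336026) (nat_lit 3) (.e (nat_lit 98370) (nat_lit 28) (.e (nat_lit 450304) (nat_lit 3) .nil))))) (.g (nat_lit 4) .nil .nil)))) (.nd (nat_lit 5) 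
(.lf (nat_lit 225298) (.g (nat_lit 431) (.e (nat_lit 98342) (nat_lit 20) (.e (nat_lit 221194) (nat_lit 11) (.e (nat_lit 336026) (nat_lit 3) .nil))) .nil)) 
(.lf (nat_lit 225330) (.g (nat_lit 4356) (.e (nat_lit 98342) (nat_lit 20) (.e (nat_lit 221194) (nat_lit 11) (.e (nat_lit 336027) (nat_lit 3) (.e (nat_lit 98365) (nat_lit 26) (.e (nat_lit 426200) (nat_lit 9) (.e (nat_lit 426436) (nat_lit 18) .nil)))))) (.g (nat_lit 0) .nil .nil))))) (.nd (nat_lit 4) (.nd (nat_lit 5) 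
(.lf (nat_lit 225290) (.g (nat_lit 2072) (.e (nat_lit 98342) (nat_lit 20) (.e (nat_lit 221194) (nat_lit 11) (.e (nat_lit 336025) (nat_lit 3) (.e (nat_lit 98365) (nat_lit 26) (.e (nat_lit 426187) (nat_lit 9) (.e (nat_lit 426437) (nat_lit 18) .nil)))))) (.g (nat_lit 4) .nil .nil))) 
(.lf (nat_lit 225322) (.g (nat_lit 2856) (.e (nat_lit 98342) (nat_lit 20) (.e (nat_lit 221194) (nat_lit 11) (.e (nat_lit 336027) (nat_lit 3) (.e (nat_lit 98365) (nat_lit 26) (.e (nat_lit 426187) (nat_lit 9) (.e (nat_lit 426434) (nat_lit 18) .nil)))))) (.g (nat_lit 5) .nil .nil)))) (.nd (nat_lit 5) 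
(.lf (nat_lit 225306) (.g (nat_lit 2741) (.e (nat_lit 98342) (nat_lit 20) (.e (nat_lit 221194) (nat_lit 11) (.e (nat_lit 336026) (nat_lit 3) (.e (nat_lit 98365) (nat_lit 26) (.e (nat_lit 426187) (nat_lit 9) (.e (nat_lit 426438) (nat_lit 18) .nil)))))) (.g (nat_lit 0) .nil .nil))) 
(.lf (nat_lit 225338) (.g (nat_lit 3199) (.e (nat_lit 98342) (nat_lit 20) (.e (nat_lit 229120) (nat_lit 11) (.e (nat_lit 336013) (nat_lit 2) (.e (nat_lit 90170) (nat_lit 13) (.e (nat_lit 172092) (nat_lit 9) (.e (nat_lit 433920) (nat_lit 18) .nil)))))) (.g (nat_lit 4) .nil .nil)))))) (.nd (nat_lit 3) (.nd (nat_lit 4) (.nd (nat_lit 5) 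
(.lf (nat_lit 225286) (.g (nat_lit 1558) (.e (nat_lit 98342) (nat_lit 20) (.e (nat_lit 221194) (nat_lit 11) (.e (nat_lit 336021) (nat_lit 3) (.e (nat_lit 98369) (nat_lit 28) .nil)))) .nil)) 
(.lf (nat_lit 225318) (.g (nat_lit 1945) (.e (nat_lit 98342) (nat_lit 20) (.e (nat_lit 221194) (nat_lit 11) (.e (nat_lit 336027) (nat_lit 3) (.e (nat_lit 98354) (nat_lit 26) .nil)))) .nil))) (.nd (nat_lit 5) 
(.lf (nat_lit 225302) (.g (nat_lit 2725) (.e (nat_lit 98342) (nat_lit 20) (.e (nat_lit 221194) (nat_lit 11) (.e (nat_lit 336026) (nat_lit 3) (.e (nat_lit 98358) (nat_lit 26) (.e (nat_lit 426227) (nat_lit 9) (.e (nat_lit 426437) (nat_lit 18) .nil)))))) (.g (nat_lit 5) .nil .nil))) 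
(.lf (nat_lit 225334) (.g (nat_lit 2271) (.e (nat_lit 98342) (nat_lit 20) (.e (nat_lit 221194) (nat_lit 11) (.e (nat_lit 336027) (nat_lit 3) (.e (nat_lit 98381) (nat_lit 31) (.e (nat_lit 474880) (nat_lit 3) .nil))))) (.g (nat_lit 4) .nil .nil))))) (.nd (nat_lit 4) (.nd (nat_lit 5) 
(.lf (nat_lit 225294) (.g (nat_lit 2915) (.e (nat_lit 98342) (nat_lit 20) (.e (nat_lit 221194) (nat_lit 11) (.e (nat_lit 336025) (nat_lit 3) (.e (nat_lit 98365) (nat_lit 26) (.e (nat_lit 426188) (nat_lit 9) (.e (nat_lit 426438) (nat_lit 18) .nil)))))) (.g (nat_lit 5) .nil .nil))) 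
(.lf (nat_lit 225326) (.g (nat_lit 4311) (.e (nat_lit 98342) (nat_lit 20) (.e (nat_lit 221194) (nat_lit 11) (.e (nat_lit 336027) (nat_lit 3) (.e (nat_lit 98365) (nat_lit 26) (.e (nat_lit 426188) (nat_lit 9) (.e (nat_lit 426436) (nat_lit 18) .nil)))))) (.g (nat_lit 0) .nil .nil)))) (.nd (nat_lit 5) 
(.lf (nat_lit 225310) (.g (nat_lit 3266) (.e (nat_lit 98342) (nat_lit 20) (.e (nat_lit 221194) (nat_lit 11) (.e (nat_lit 336026) (nat_lit 3) (.e (nat_lit 98365) (nat_lit 26) (.e (nat_lit 426188) (nat_lit 9) (.e (nat_lit 426438) (nat_lit 18) .nil)))))) (.g (nat_lit 0) .nil .nil))) 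
(.lf (nat_lit 225342) (.g (nat_lit 1284) (.e (nat_lit 98342) (nat_lit 20) (.e (nat_lit 229120) (nat_lit 11) (.e (nat_lit 336020) (nat_lit 3) (.e (nat_lit 98370) (nat_lit 28) (.e (nat_lit 450304) (nat_lit 3) .nil))))) (.g (nat_lit 4) .nil .nil)))))))) (.nd (nat_lit 1) (.nd (nat_lit 2) (.nd (nat_lit 3) (.nd (nat_lit 4) (.nd (nat_lit 5) 
(.lf (nat_lit 225281) (.g (nat_lit 2930) (.e (nat_lit 98342) (nat_lit 20) (.e (nat_lit 221194) (nat_lit 11) (.e (nat_lit 336021) (nat_lit 3) (.e (nat_lit 98365) (nat_lit 26) (.e (nat_lit 426187) (nat_lit 9) (.e (nat_lit 426437) (nat_lit 18) .nil)))))) (.g (nat_lit 6) .nil .nil))) 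
(.lf (nat_lit 225313) (.g (nat_lit 1806) (.e (nat_lit 98342) (nat_lit 20) (.e (nat_lit 221194) (nat_lit 11) (.e (nat_lit 336026) (nat_lit 3) (.e (nat_lit 98369) (nat_lit 28) (.e (nat_lit 450304) (nat_lit 3) .nil))))) (.g (nat_lit 4) .nil .nil)))) (.nd (nat_lit 5) 
(.lf (nat_lit 225297) (.g (nat_lit 3288) (.e (nat_lit 98342) (nat_lit 20) (.e (nat_lit 221194) (nat_lit 11) (.e (nat_lit 336025) (nat_lit 3) (.e (nat_lit 98365) (nat_lit 26) (.e (nat_lit 426200) (nat_lit 9) (.e (nat_lit 426436) (nat_lit 18) .nil)))))) (.g (nat_lit 5) .nil .nil))) 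
(.lf (nat_lit 225329) (.g (nat_lit 2929) (.e (nat_lit 98342) (nat_lit 20) (.e (nat_lit 221194) (nat_lit 11) (.e (nat_lit 336027) (nat_lit 3) (.e (nat_lit 98365) (nat_lit 26) (.e (nat_lit 426198) (nat_lit 9) (.e (nat_lit 426436) (nat_lit 18) .nil)))))) (.g (nat_lit 5) .nil .nil))))) (.nd (nat_lit 4) (.nd (nat_lit 5) 
(.lf (nat_lit 225289) (.g (nat_lit 1614) (.e (nat_lit 98342) (nat_lit 20) (.e (nat_lit 221194) (nat_lit 11) (.e (nat_lit 336021) (nat_lit 3) (.e (nat_lit 98382) (nat_lit 31) .nil)))) .nil)) 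
(.lf (nat_lit 225321) (.g (nat_lit 2786) (.e (nat_lit 98342) (nat_lit 20) (.e (nat_lit 221194) (nat_lit 11) (.e (nat_lit 336027) (nat_lit 3) (.e (nat_lit 98365) (nat_lit 26) (.e (nat_lit 426186) (nat_lit 9) (.e (nat_lit 426436) (nat_lit 18) .nil)))))) (.g (nat_lit 4) .nil .nil)))) (.nd (nat_lit 5) 
(.lf (nat_lit 225305) (.g (nat_lit 2555) (.e (nat_lit 98342) (nat_lit 20) (.e (nat_lit 221194) (nat_lit 11) (.e (nat_lit 336026) (nat_lit 3) (.e (nat_lit 98365) (nat_lit 26) (.e (nat_lit 426187) (nat_lit 9) (.e (nat_lit 426437) (nat_lit 18) .nil)))))) (.g (nat_lit 6) .nil .nil))) 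
(.lf (nat_lit 225337) (.g (nat_lit 3272) (.e (nat_lit 98342) (nat_lit 20) (.e (nat_lit 229120) (nat_lit 11) (.e (nat_lit 336013) (nat_lit 2) (.e (nat_lit 90170) (nat_lit 13) (.e (nat_lit 172088) (nat_lit 9) (.e (nat_lit 433920) (nat_lit 18) .nil)))))) (.g (nat_lit 4) .nil .nil)))))) (.nd (nat_lit 3) (.nd (nat_lit 4) (.nd (nat_lit 5) 
(.lf (nat_lit 225285) (.g (nat_lit 3558) (.e (nat_lit 98342) (nat_lit 20) (.e (nat_lit 221194) (nat_lit 11) (.e (nat_lit 336021) (nat_lit 3) (.e (nat_lit 98365) (nat_lit 26) (.e (nat_lit 426188) (nat_lit 9) (.e (nat_lit 426438) (nat_lit 18) .nil)))))) (.g (nat_lit 0) .nil .nil))) 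
(.lf (nat_lit 225317) (.g (nat_lit 1855) (.e (nat_lit 98342) (nat_lit 20) (.e (nat_lit 221194) (nat_lit 11) (.e (nat_lit 336026) (nat_lit 3) (.e (nat_lit 98381) (nat_lit 31) (.e (nat_lit 474880) (nat_lit 3) .nil))))) (.g (nat_lit 4) .nil .nil)))) (.nd (nat_lit 5) 
(.lf (nat_lit 225301) (.g (nat_lit 2148) (.e (nat_lit 98342) (nat_lit 20) (.e (nat_lit 221194) (nat_lit 11) (.e (nat_lit 336026) (nat_lit 3) (.e (nat_lit 98358) (nat_lit 26) (.e (nat_lit 426226) (nat_lit 9) (.e (nat_lit 426438) (nat_lit 18) .nil)))))) (.g (nat_lit 4) .nil .nil))) 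
(.lf (nat_lit 225333) (.g (nat_lit 2226) (.e (nat_lit 98342) (nat_lit 20) (.e (nat_lit 221194) (nat_lit 11) (.e (nat_lit 336027) (nat_lit 3) (.e (nat_lit 98380) (nat_lit 31) (.e (nat_lit 474880) (nat_lit 3) .nil))))) (.g (nat_lit 4) .nil .nil))))) (.nd (nat_lit 4) (.nd (nat_lit 5) 
(.lf (nat_lit 225293) (.g (nat_lit 2596) (.e (nat_lit 98342) (nat_lit 20) (.e (nat_lit 221194) (nat_lit 11) (.e (nat_lit 336025) (nat_lit 3) (.e (nat_lit 98365) (nat_lit 26) (.e (nat_lit 426188) (nat_lit 9) (.e (nat_lit 426437) (nat_lit 18) .nil)))))) (.g (nat_lit 5) .nil .nil))) 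
(.lf (nat_lit 225325) (.g (nat_lit 3411) (.e (nat_lit 98342) (nat_lit 20) (.e (nat_lit 221194) (nat_lit 11) (.e (nat_lit 336027) (nat_lit 3) (.e (nat_lit 98365) (nat_lit 26) (.e (nat_lit 426188) (nat_lit 9) (.e (nat_lit 426434) (nat_lit 18) .nil)))))) (.g (nat_lit 5) .nil .nil)))) (.nd (nat_lit 5) 
(.lf (nat_lit 225309) (.g (nat_lit 2993) (.e (nat_lit 98342) (nat_lit 20) (.e (nat_lit 221194) (nat_lit 11) (.e (nat_lit 336026) (nat_lit 3) (.e (nat_lit 98365) (nat_lit 26) (.e (nat_lit 426188) (nat_lit 9) (.e (nat_lit 426437) (nat_lit 18) .nil)))))) (.g (nat_lit 6) .nil .nil))) 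
(.lf (nat_lit 225341) (.g (nat_lit 1176) (.e (nat_lit 98342) (nat_lit 20) (.e (nat_lit 229120) (nat_lit 11) (.e (nat_lit 336019) (nat_lit 3) (.e (nat_lit 98381) (nat_lit 31) (.e (nat_lit 474880) (nat_lit 3) .nil))))) (.g (nat_lit 4) .nil .nil))))))) (.nd (nat_lit 2) (.nd (nat_lit 3) (.nd (nat_lit 4) (.nd (nat_lit 5) 
(.lf (nat_lit 225283) (.g (nat_lit 3179) (.e (nat_lit 98342) (nat_lit 20) (.e (nat_lit 221194) (nat_lit 11) (.e (nat_lit 336021) (nat_lit 3) (.e (nat_lit 98365) (nat_lit 26) (.e (nat_lit 426188) (nat_lit 9) (.e (nat_lit 426434) (nat_lit 18) .nil)))))) (.g (nat_lit 6) .nil .nil))) 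
(.lf (nat_lit 225315) (.g (nat_lit 863) (.e (nat_lit 98342) (nat_lit 20) (.e (nat_lit 221194) (nat_lit 11) (.e (nat_lit 336026) (nat_lit 3) (.e (nat_lit 98371) (nat_lit 28) .nil)))) .nil))) (.nd (nat_lit 5) 
(.lf (nat_lit 225299) (.g (nat_lit 2341) (.e (nat_lit 98342) (nat_lit 20) (.e (nat_lit 221194) (nat_lit 11) (.e (nat_lit 336026) (nat_lit 3) (.e (nat_lit 98356) (nat_lit 26) (.e (nat_lit 433920) (nat_lit 9) (.e (nat_lit 426436) (nat_lit 18) .nil)))))) (.g (nat_lit 4) .nil .nil))) 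
(.lf (nat_lit 225331) (.g (nat_lit 2141) (.e (nat_lit 98342) (nat_lit 20) (.e (nat_lit 221194) (nat_lit 11) (.e (nat_lit 336027) (nat_lit 3) (.e (nat_lit 98369) (nat_lit 28) (.e (nat_lit 450304) (nat_lit 3) .nil))))) (.g (nat_lit 4) .nil .nil))))) (.nd (nat_lit 4) (.nd (nat_lit 5) 
(.lf (nat_lit 225291) (.g (nat_lit 2241) (.e (nat_lit 98342) (nat_lit 20) (.e (nat_lit 221194) (nat_lit 11) (.e (nat_lit 336025) (nat_lit 3) (.e (nat_lit 98365) (nat_lit 26) (.e (nat_lit 426187) (nat_lit 9) (.e (nat_lit 426438) (nat_lit 18) .nil)))))) (.g (nat_lit 4) .nil .nil))) 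
(.lf (nat_lit 225323) (.g (nat_lit 3210) (.e (nat_lit 98342) (nat_lit 20) (.e (nat_lit 221194) (nat_lit 11) (.e (nat_lit 336027) (nat_lit 3) (.e (nat_lit 98365) (nat_lit 26) (.e (nat_lit 426187) (nat_lit 9) (.e (nat_lit 426437) (nat_lit 18) .nil)))))) (.g (nat_lit 6) .nil .nil)))) (.nd (nat_lit 5) 
(.lf (nat_lit 225307) (.g (nat_lit 2818) (.e (nat_lit 98342) (nat_lit 20) (.e (nat_lit 221194) (nat_lit 11) (.e (nat_lit 336026) (nat_lit 3) (.e (nat_lit 98365) (nat_lit 26) (.e (nat_lit 426188) (nat_lit 9) (.e (nat_lit 426434) (nat_lit 18) .nil)))))) (.g (nat_lit 5) .nil .nil))) 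
(.lf (nat_lit 225339) (.g (nat_lit 3024) (.e (nat_lit 98342) (nat_lit 20) (.e (nat_lit 229120) (nat_lit 11) (.e (nat_lit 336013) (nat_lit 2) (.e (nat_lit 90170) (nat_lit 13) (.e (nat_lit 172095) (nat_lit 9) (.e (nat_lit 433920) (nat_lit 18) .nil)))))) (.g (nat_lit 5) .nil .nil)))))) (.nd (nat_lit 3) (.nd (nat_lit 4) (.nd (nat_lit 5) 
(.lf (nat_lit 225287) (.g (nat_lit 1793) (.e (nat_lit 98342) (nat_lit 20) (.e (nat_lit 221194) (nat_lit 11) (.e (nat_lit 336021) (nat_lit 3) (.e (nat_lit 98371) (nat_lit 28) .nil)))) .nil)) 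
(.lf (nat_lit 225319) (.g (nat_lit 1954) (.e (nat_lit 98342) (nat_lit 20) (.e (nat_lit 221194) (nat_lit 11) (.e (nat_lit 336027) (nat_lit 3) (.e (nat_lit 98359) (nat_lit 26) .nil)))) .nil))) (.nd (nat_lit 5) 
(.lf (nat_lit 225303) (.g (nat_lit 3077) (.e (nat_lit 98342) (nat_lit 20) (.e (nat_lit 221194) (nat_lit 11) (.e (nat_lit 336026) (nat_lit 3) (.e (nat_lit 98358) (nat_lit 26) (.e (nat_lit 426227) (nat_lit 9) (.e (nat_lit 426438) (nat_lit 18) .nil)))))) (.g (nat_lit 0) .nil .nil))) 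
(.lf (nat_lit 225335) (.g (nat_lit 1696) (.e (nat_lit 98342) (nat_lit 20) (.e (nat_lit 229120) (nat_lit 11) (.e (nat_lit 336012) (nat_lit 2) (.e (nat_lit 90185) (nat_lit 17) (.e (nat_lit 237605) (nat_lit 9) (.e (nat_lit 426434) (nat_lit 18) .nil)))))) (.g (nat_lit 4) .nil .nil))))) (.nd (nat_lit 4) (.nd (nat_lit 5) 
(.lf (nat_lit 225295) (.g (nat_lit 2842) (.e (nat_lit 98342) (nat_lit 20) (.e (nat_lit 221194) (nat_lit 11) (.e (nat_lit 336025) (nat_lit 3) (.e (nat_lit 98365) (nat_lit 26) (.e (nat_lit 426189) (nat_lit 9) (.e (nat_lit 426436) (nat_lit 18) .nil)))))) (.g (nat_lit 4) .nil .nil))) 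
(.lf (nat_lit 225327) (.g (nat_lit 3615) (.e (nat_lit 98342) (nat_lit 20) (.e (nat_lit 221194) (nat_lit 11) (.e (nat_lit 336027) (nat_lit 3) (.e (nat_lit 98365) (nat_lit 26) (.e (nat_lit 426188) (nat_lit 9) (.e (nat_lit 426437) (nat_lit 18) .nil)))))) (.g (nat_lit 6) .nil .nil)))) (.nd (nat_lit 5) 
(.lf (nat_lit 225311) (.g (nat_lit 2951) (.e (nat_lit 98342) (nat_lit 20) (.e (nat_lit 221194) (nat_lit 11) (.e (nat_lit 336026) (nat_lit 3) (.e (nat_lit 98365) (nat_lit 26) (.e (nat_lit 426198) (nat_lit 9) (.e (nat_lit 426436) (nat_lit 18) .nil)))))) (.g (nat_lit 5) .nil .nil))) 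
(.lf (nat_lit 225343) (.g (nat_lit 691) (.e (nat_lit 98342) (nat_lit 20) (.e (nat_lit 229120) (nat_lit 11) (.e (nat_lit 336020) (nat_lit 3) (.e (nat_lit 98381) (nat_lit 31) (.e (nat_lit 474880) (nat_lit 3) .nil))))) (.g (nat_lit 4) .nil .nil)))))))))

noncomputable def tv2954 : DT := (.nd (nat_lit 0) (.nd (nat_lit 1) (.nd (nat_lit 2) (.nd (nat_lit 3) (.nd (nat_lit 4) (.nd (nat_lit 5) 
(.lf (nat_lit 225344) (.g (nat_lit 1789) (.e (nat_lit 98342) (nat_lit 20) (.e (nat_lit 229120) (nat_lit 11) (.e (nat_lit 336027) (nat_lit 3) (.e (nat_lit 98363) (nat_lit 26) (.e (nat_lit 426228) (nat_lit 9) (.e (nat_lit 426435) (nat_lit 18) .nil)))))) (.g (nat_lit 5) .nil .nil))) 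
(.lf (nat_lit 225376) (.g (nat_lit 758) (.e (nat_lit 98342) (nat_lit 20) (.e (nat_lit 221207) (nat_lit 21) (.e (nat_lit 164243) (nat_lit 195) .nil))) .nil))) (.nd (nat_lit 5) 
(.lf (nat_lit 225360) (.g (nat_lit 1076) (.e (nat_lit 98342) (nat_lit 20) (.e (nat_lit 229120) (nat_lit 12) (.e (nat_lit 344119) (nat_lit 21) (.e (nat_lit 516176) (nat_lit 14) (.e (nat_lit 474880) (nat_lit 3) .nil))))) (.g (nat_lit 4) .nil .nil))) 
(.lf (nat_lit 225392) (.g (nat_lit 3696) (.e (nat_lit 98342) (nat_lit 20) (.e (nat_lit 221210) (nat_lit 22) (.e (nat_lit 196668) (nat_lit 14) (.e (nat_lit 73747) (nat_lit 3) (.e (nat_lit 516115) (nat_lit 1) (.e (nat_lit 164149) (nat_lit 152) (.e (nat_lit 974) (nat_lit 81) (.e (nat_lit 1256) (nat_lit 92) .nil)))))))) (.g (nat_lit 5) .nil .nil))))) (.nd (nat_lit 4) (.nd (nat_lit 5) 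
(.lf (nat_lit 225352) (.g (nat_lit 1816) (.e (nat_lit 98342) (nat_lit 20) (.e (nat_lit 229120) (nat_lit 12) (.e (nat_lit 344117) (nat_lit 21) (.e (nat_lit 516163) (nat_lit 11) (.e (nat_lit 450304) (nat_lit 3) .nil))))) (.g (nat_lit 4) .nil .nil))) 
(.lf (nat_lit 225384) (.g (nat_lit 1426) (.e (nat_lit 98342) (nat_lit 20) (.e (nat_lit 221210) (nat_lit 22) (.e (nat_lit 196668) (nat_lit 14) (.e (nat_lit 73746) (nat_lit 3) .nil)))) .nil))) (.nd (nat_lit 5) 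
(.lf (nat_lit 225368) (.g (nat_lit 701) (.e (nat_lit 98342) (nat_lit 20) (.e (nat_lit 221206) (nat_lit 21) (.e (nat_lit 164242) (nat_lit 195) .nil))) .nil)) 
(.lf (nat_lit 225400) (.g (nat_lit 2843) (.e (nat_lit 98342) (nat_lit 20) (.e (nat_lit 221210) (nat_lit 22) (.e (nat_lit 196668) (nat_lit 14) (.e (nat_lit 73747) (nat_lit 3) (.e (nat_lit 516117) (nat_lit 1) (.e (nat_lit 164181) (nat_lit 154) (.e (nat_lit 57376) (nat_lit 3) .nil))))))) (.g (nat_lit 4) .nil .nil)))))) (.nd (nat_lit 3) (.nd (nat_lit 4) (.nd (nat_lit 5) 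
(.lf (nat_lit 225348) (.g (nat_lit 1472) (.e (nat_lit 98342) (nat_lit 20) (.e (nat_lit 229120) (nat_lit 11) (.e (nat_lit 336028) (nat_lit 3) (.e (nat_lit 98370) (nat_lit 28) (.e (nat_lit 450304) (nat_lit 3) .nil))))) (.g (nat_lit 4) .nil .nil))) 
(.lf (nat_lit 225380) (.g (nat_lit 1487) (.e (nat_lit 98342) (nat_lit 20) (.e (nat_lit 221210) (nat_lit 22) (.e (nat_lit 196666) (nat_lit 13) (.e (nat_lit 65569) (nat_lit 3) .nil)))) .nil))) (.nd (nat_lit 5) 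
(.lf (nat_lit 225364) (.g (nat_lit 1542) (.e (nat_lit 98342) (nat_lit 20) (.e (nat_lit 229120) (nat_lit 15) (.e (nat_lit 368676) (nat_lit 21) (.e (nat_lit 516176) (nat_lit 14) (.e (nat_lit 474880) (nat_lit 3) .nil))))) (.g (nat_lit 4) .nil .nil))) 
(.lf (nat_lit 225396) (.g (nat_lit 2862) (.e (nat_lit 98342) (nat_lit 20) (.e (nat_lit 221210) (nat_lit 22) (.e (nat_lit 196668) (nat_lit 14) (.e (nat_lit 73747) (nat_lit 3) (.e (nat_lit 516115) (nat_lit 1) (.e (nat_lit 164178) (nat_lit 154) (.e (nat_lit 57376) (nat_lit 3) .nil))))))) (.g (nat_lit 4) .nil .nil))))) (.nd (nat_lit 4) (.nd (nat_lit 5) 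
(.lf (nat_lit 225356) (.g (nat_lit 1285) (.e (nat_lit 98342) (nat_lit 20) (.e (nat_lit 229120) (nat_lit 12) (.e (nat_lit 344117) (nat_lit 21) (.e (nat_lit 516176) (nat_lit 14) (.e (nat_lit 474880) (nat_lit 3) .nil))))) (.g (nat_lit 4) .nil .nil))) 
(.lf (nat_lit 225388) (.g (nat_lit 2978) (.e (nat_lit 98342) (nat_lit 20) (.e (nat_lit 221210) (nat_lit 22) (.e (nat_lit 196668) (nat_lit 14) (.e (nat_lit 73746) (nat_lit 3) (.e (nat_lit 516120) (nat_lit 1) (.e (nat_lit 164182) (nat_lit 154) (.e (nat_lit 57376) (nat_lit 3) .nil))))))) (.g (nat_lit 4) .nil .nil)))) (.nd (nat_lit 5) 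
(.lf (nat_lit 225372) (.g (nat_lit 758) (.e (nat_lit 98342) (nat_lit 20) (.e (nat_lit 221207) (nat_lit 21) (.e (nat_lit 164189) (nat_lit 157) .nil))) .nil)) 
(.lf (nat_lit 225404) (.g (nat_lit 3143) (.e (nat_lit 98342) (nat_lit 20) (.e (nat_lit 221210) (nat_lit 22) (.e (nat_lit 196668) (nat_lit 14) (.e (nat_lit 73747) (nat_lit 3) (.e (nat_lit 516119) (nat_lit 1) (.e (nat_lit 164178) (nat_lit 154) (.e (nat_lit 57376) (nat_lit 3) .nil))))))) (.g (nat_lit 4) .nil .nil))))))) (.nd (nat_lit 2) (.nd (nat_lit 3) (.nd (nat_lit 4) (.nd (nat_lit 5) 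
(.lf (nat_lit 225346) (.g (nat_lit 1594) (.e (nat_lit 98342) (nat_lit 20) (.e (nat_lit 229120) (nat_lit 11) (.e (nat_lit 336028) (nat_lit 3) (.e (nat_lit 98359) (nat_lit 26) (.e (nat_lit 426185) (nat_lit 9) (.e (nat_lit 426437) (nat_lit 18) .nil)))))) (.g (nat_lit 4) .nil .nil))) 
(.lf (nat_lit 225378) (.g (nat_lit 1886) (.e (nat_lit 98342) (nat_lit 20) (.e (nat_lit 221210) (nat_lit 22) (.e (nat_lit 196666) (nat_lit 13) (.e (nat_lit 65550) (nat_lit 0) .nil)))) .nil))) (.nd (nat_lit 5) 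
(.lf (nat_lit 225362) (.g (nat_lit 870) (.e (nat_lit 98342) (nat_lit 20) (.e (nat_lit 229120) (nat_lit 12) (.e (nat_lit 344120) (nat_lit 21) (.e (nat_lit 516176) (nat_lit 14) (.e (nat_lit 474880) (nat_lit 3) .nil))))) (.g (nat_lit 4) .nil .nil))) 
(.lf (nat_lit 225394) (.g (nat_lit 3727) (.e (nat_lit 98342) (nat_lit 20) (.e (nat_lit 221210) (nat_lit 22) (.e (nat_lit 196668) (nat_lit 14) (.e (nat_lit 73747) (nat_lit 3) (.e (nat_lit 516115) (nat_lit 1) (.e (nat_lit 164153) (nat_lit 152) (.e (nat_lit 999) (nat_lit 81) (.e (nat_lit 1256) (nat_lit 92) .nil)))))))) (.g (nat_lit 5) .nil .nil))))) (.nd (nat_lit 4) (.nd (nat_lit 5) 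
(.lf (nat_lit 225354) (.g (nat_lit 1617) (.e (nat_lit 98342) (nat_lit 20) (.e (nat_lit 229120) (nat_lit 12) (.e (nat_lit 344117) (nat_lit 21) (.e (nat_lit 516174) (nat_lit 14) (.e (nat_lit 474880) (nat_lit 3) .nil))))) (.g (nat_lit 4) .nil .nil))) 
(.lf (nat_lit 225386) (.g (nat_lit 3569) (.e (nat_lit 98342) (nat_lit 20) (.e (nat_lit 221210) (nat_lit 22) (.e (nat_lit 196668) (nat_lit 14) (.e (nat_lit 73746) (nat_lit 3) (.e (nat_lit 516119) (nat_lit 1) (.e (nat_lit 164150) (nat_lit 152) (.e (nat_lit 974) (nat_lit 81) (.e (nat_lit 1256) (nat_lit 92) .nil)))))))) (.g (nat_lit 5) .nil .nil)))) (.nd (nat_lit 5) 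
(.lf (nat_lit 225370) (.g (nat_lit 565) (.e (nat_lit 98342) (nat_lit 20) (.e (nat_lit 221207) (nat_lit 21) (.e (nat_lit 164179) (nat_lit 154) .nil))) .nil)) 
(.lf (nat_lit 225402) (.g (nat_lit 4443) (.e (nat_lit 98342) (nat_lit 20) (.e (nat_lit 221210) (nat_lit 22) (.e (nat_lit 196668) (nat_lit 14) (.e (nat_lit 73747) (nat_lit 3) (.e (nat_lit 516119) (nat_lit 1) (.e (nat_lit 164149) (nat_lit 152) (.e (nat_lit 974) (nat_lit 81) (.e (nat_lit 1256) (nat_lit 92) .nil)))))))) (.g (nat_lit 6) .nil .nil)))))) 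
(.nd (nat_lit 3) (.nd (nat_lit 4) (.nd (nat_lit 5) 
(.lf (nat_lit 225350) (.g (nat_lit 2484) (.e (nat_lit 98342) (nat_lit 20) (.e (nat_lit 229120) (nat_lit 12) (.e (nat_lit 344117) (nat_lit 21) (.e (nat_lit 516151) (nat_lit 9) (.e (nat_lit 426195) (nat_lit 9) (.e (nat_lit 426437) (nat_lit 18) .nil)))))) (.g (nat_lit 4) .nil .nil))) 
(.lf (nat_lit 225382) (.g (nat_lit 440) (.e (nat_lit 98342) (nat_lit 20) (.e (nat_lit 221210) (nat_lit 22) (.e (nat_lit 196668) (nat_lit 14) .nil))) .nil))) (.nd (nat_lit 5) 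
(.lf (nat_lit 225366) (.g (nat_lit 4104) (.e (nat_lit 98342) (nat_lit 20) (.e (nat_lit 221206) (nat_lit 21) (.e (nat_lit 164196) (nat_lit 158) (.e (nat_lit 1181) (nat_lit 87) (.e (nat_lit 57479) (nat_lit 28) (.e (nat_lit 557109) (nat_lit 15) (.e (nat_lit 196352) (nat_lit 3) .nil))))))) (.g (nat_lit 5) .nil .nil))) 
(.lf (nat_lit 225398) (.g (nat_lit 3686) (.e (nat_lit 98342) (nat_lit 20) (.e (nat_lit 221210) (nat_lit 22) (.e (nat_lit 196668) (nat_lit 14) (.e (nat_lit 73747) (nat_lit 3) (.e (nat_lit 516115) (nat_lit 1) (.e (nat_lit 164182) (nat_lit 154) (.e (nat_lit 57376) (nat_lit 3) .nil))))))) (.g (nat_lit 5) .nil .nil))))) (.nd (nat_lit 4) (.nd (nat_lit 5) 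
(.lf (nat_lit 225358) (.g (nat_lit 1273) (.e (nat_lit 98342) (nat_lit 20) (.e (nat_lit 229120) (nat_lit 12) (.e (nat_lit 344118) (nat_lit 21) (.e (nat_lit 516176) (nat_lit 14) (.e (nat_lit 474880) (nat_lit 3) .nil))))) (.g (nat_lit 4) .nil .nil))) 
(.lf (nat_lit 225390) (.g (nat_lit 3525) (.e (nat_lit 98342) (nat_lit 20) (.e (nat_lit 221210) (nat_lit 22) (.e (nat_lit 196668) (nat_lit 14) (.e (nat_lit 73747) (nat_lit 3) (.e (nat_lit 516115) (nat_lit 1) (.e (nat_lit 164148) (nat_lit 152) (.e (nat_lit 974) (nat_lit 81) (.e (nat_lit 1256) (nat_lit 92) .nil)))))))) (.g (nat_lit 5) .nil .nil)))) (.nd (nat_lit 5) 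
(.lf (nat_lit 225374) (.g (nat_lit 3879) (.e (nat_lit 98342) (nat_lit 20) (.e (nat_lit 221207) (nat_lit 21) (.e (nat_lit 164196) (nat_lit 158) (.e (nat_lit 1181) (nat_lit 87) (.e (nat_lit 57479) (nat_lit 28) (.e (nat_lit 557109) (nat_lit 15) (.e (nat_lit 196352) (nat_lit 3) .nil))))))) (.g (nat_lit 5) .nil .nil))) 
(.lf (nat_lit 225406) (.g (nat_lit 2855) (.e (nat_lit 98342) (nat_lit 20) (.e (nat_lit 221210) (nat_lit 22) (.e (nat_lit 196668) (nat_lit 14) (.e (nat_lit 73747) (nat_lit 3) (.e (nat_lit 516119) (nat_lit 1) (.e (nat_lit 164180) (nat_lit 154) (.e (nat_lit 57376) (nat_lit 3) .nil))))))) (.g (nat_lit 4) .nil .nil)))))))) 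
(.nd (nat_lit 1) (.nd (nat_lit 2) (.nd (nat_lit 3) (.nd (nat_lit 4) (.nd (nat_lit 5) 
(.lf (nat_lit 225345) (.g (nat_lit 1863) (.e (nat_lit 98342) (nat_lit 20) (.e (nat_lit 229120) (nat_lit 11) (.e (nat_lit 336027) (nat_lit 3) (.e (nat_lit 98363) (nat_lit 26) (.e (nat_lit 426230) (nat_lit 9) (.e (nat_lit 426435) (nat_lit 18) .nil)))))) (.g (nat_lit 5) .nil .nil))) 
(.lf (nat_lit 225377) (.g (nat_lit 552) (.e (nat_lit 98342) (nat_lit 20) (.e (nat_lit 221210) (nat_lit 22) (.e (nat_lit 196658) (nat_lit 12) .nil))) .nil))) (.nd (nat_lit 5) 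
(.lf (nat_lit 225361) (.g (nat_lit 945) (.e (nat_lit 98342) (nat_lit 20) (.e (nat_lit 229120) (nat_lit 12) (.e (nat_lit 344120) (nat_lit 21) (.e (nat_lit 516174) (nat_lit 14) (.e (nat_lit 474880) (nat_lit 3) .nil))))) (.g (nat_lit 4) .nil .nil))) 
(.lf (nat_lit 225393) (.g (nat_lit 3441) (.e (nat_lit 98342) (nat_lit 20) (.e (nat_lit 221210) (nat_lit 22) (.e (nat_lit 196668) (nat_lit 14) (.e (nat_lit 73747) (nat_lit 3) (.e (nat_lit 516115) (nat_lit 1) (.e (nat_lit 164151) (nat_lit 152) (.e (nat_lit 974) (nat_lit 81) (.e (nat_lit 1256) (nat_lit 92) .nil)))))))) (.g (nat_lit 5) .nil .nil))))) (.nd (nat_lit 4) (.nd (nat_lit 5) 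
(.lf (nat_lit 225353) (.g (nat_lit 1194) (.e (nat_lit 98342) (nat_lit 20) (.e (nat_lit 229120) (nat_lit 12) (.e (nat_lit 344117) (nat_lit 21) (.e (nat_lit 516164) (nat_lit 11) (.e (nat_lit 450304) (nat_lit 3) .nil))))) (.g (nat_lit 4) .nil .nil))) 
(.lf (nat_lit 225385) (.g (nat_lit 3341) (.e (nat_lit 98342) (nat_lit 20) (.e (nat_lit 221210) (nat_lit 22) (.e (nat_lit 196668) (nat_lit 14) (.e (nat_lit 73746) (nat_lit 3) (.e (nat_lit 516115) (nat_lit 1) (.e (nat_lit 164179) (nat_lit 154) (.e (nat_lit 57376) (nat_lit 3) .nil))))))) (.g (nat_lit 4) .nil .nil)))) (.nd (nat_lit 5) 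
(.lf (nat_lit 225369) (.g (nat_lit 758) (.e (nat_lit 98342) (nat_lit 20) (.e (nat_lit 221207) (nat_lit 21) (.e (nat_lit 171776) (nat_lit 136) .nil))) .nil)) 
(.lf (nat_lit 225401) (.g (nat_lit 2847) (.e (nat_lit 98342) (nat_lit 20) (.e (nat_lit 221210) (nat_lit 22) (.e (nat_lit 196668) (nat_lit 14) (.e (nat_lit 73747) (nat_lit 3) (.e (nat_lit 516119) (nat_lit 1) (.e (nat_lit 164147) (nat_lit 152) (.e (nat_lit 974) (nat_lit 81) (.e (nat_lit 1256) (nat_lit 92) .nil)))))))) (.g (nat_lit 4) .nil .nil)))))) 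
(.nd (nat_lit 3) (.nd (nat_lit 4) (.nd (nat_lit 5) 
(.lf (nat_lit 225349) (.g (nat_lit 1588) (.e (nat_lit 98342) (nat_lit 20) (.e (nat_lit 229120) (nat_lit 12) (.e (nat_lit 344117) (nat_lit 21) (.e (nat_lit 516143) (nat_lit 9) (.e (nat_lit 426201) (nat_lit 9) (.e (nat_lit 426436) (nat_lit 18) .nil)))))) (.g (nat_lit 4) .nil .nil))) 
(.lf (nat_lit 225381) (.g (nat_lit 2462) (.e (nat_lit 98342) (nat_lit 20) (.e (nat_lit 221210) (nat_lit 22) (.e (nat_lit 196666) (nat_lit 13) (.e (nat_lit 65571) (nat_lit 3) (.e (nat_lit 98333) (nat_lit 18) .nil))))) .nil))) (.nd (nat_lit 5) 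
(.lf (nat_lit 225365) (.g (nat_lit 701) (.e (nat_lit 98342) (nat_lit 20) (.e (nat_lit 221206) (nat_lit 21) (.e (nat_lit 164196) (nat_lit 158) .nil))) .nil)) 
(.lf (nat_lit 225397) (.g (nat_lit 4308) (.e (nat_lit 98342) (nat_lit 20) (.e (nat_lit 221210) (nat_lit 22) (.e (nat_lit 196668) (nat_lit 14) (.e (nat_lit 73747) (nat_lit 3) (.e (nat_lit 516115) (nat_lit 1) (.e (nat_lit 164179) (nat_lit 154) (.e (nat_lit 57376) (nat_lit 3) .nil))))))) (.g (nat_lit 6) .nil .nil))))) (.nd (nat_lit 4) (.nd (nat_lit 5) 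
(.lf (nat_lit 225357) (.g (nat_lit 1443) (.e (nat_lit 98342) (nat_lit 20) (.e (nat_lit 229120) (nat_lit 12) (.e (nat_lit 344118) (nat_lit 21) (.e (nat_lit 516174) (nat_lit 14) (.e (nat_lit 474880) (nat_lit 3) .nil))))) (.g (nat_lit 4) .nil .nil))) 
(.lf (nat_lit 225389) (.g (nat_lit 1143) (.e (nat_lit 98342) (nat_lit 20) (.e (nat_lit 221210) (nat_lit 22) (.e (nat_lit 196668) (nat_lit 14) (.e (nat_lit 73747) (nat_lit 3) .nil)))) .nil))) (.nd (nat_lit 5) 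
(.lf (nat_lit 225373) (.g (nat_lit 758) (.e (nat_lit 98342) (nat_lit 20) (.e (nat_lit 221207) (nat_lit 21) (.e (nat_lit 164196) (nat_lit 158) .nil))) .nil)) 
(.lf (nat_lit 225405) (.g (nat_lit 3572) (.e (nat_lit 98342) (nat_lit 20) (.e (nat_lit 221210) (nat_lit 22) (.e (nat_lit 196668) (nat_lit 14) (.e (nat_lit 73747) (nat_lit 3) (.e (nat_lit 516119) (nat_lit 1) (.e (nat_lit 164179) (nat_lit 154) (.e (nat_lit 57376) (nat_lit 3) .nil))))))) (.g (nat_lit 5) .nil .nil))))))) (.nd (nat_lit 2) (.nd (nat_lit 3) (.nd (nat_lit 4) (.nd (nat_lit 5) 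
(.lf (nat_lit 225347) (.g (nat_lit 1095) (.e (nat_lit 98342) (nat_lit 20) (.e (nat_lit 229120) (nat_lit 11) (.e (nat_lit 336028) (nat_lit 3) (.e (nat_lit 98369) (nat_lit 28) (.e (nat_lit 450304) (nat_lit 3) .nil))))) (.g (nat_lit 4) .nil .nil))) 
(.lf (nat_lit 225379) (.g (nat_lit 1896) (.e (nat_lit 98342) (nat_lit 20) (.e (nat_lit 221210) (nat_lit 22) (.e (nat_lit 196666) (nat_lit 13) (.e (nat_lit 65566) (nat_lit 2) .nil)))) .nil))) (.nd (nat_lit 5) 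
(.lf (nat_lit 225363) (.g (nat_lit 1418) (.e (nat_lit 98342) (nat_lit 20) (.e (nat_lit 229120) (nat_lit 15) (.e (nat_lit 368676) (nat_lit 21) (.e (nat_lit 516174) (nat_lit 14) (.e (nat_lit 474880) (nat_lit 3) .nil))))) (.g (nat_lit 4) .nil .nil))) 
(.lf (nat_lit 225395) (.g (nat_lit 2800) (.e (nat_lit 98342) (nat_lit 20) (.e (nat_lit 221210) (nat_lit 22) (.e (nat_lit 196668) (nat_lit 14) (.e (nat_lit 73747) (nat_lit 3) (.e (nat_lit 516115) (nat_lit 1) (.e (nat_lit 164177) (nat_lit 154) (.e (nat_lit 57376) (nat_lit 3) .nil))))))) (.g (nat_lit 4) .nil .nil))))) (.nd (nat_lit 4) (.nd (nat_lit 5) 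
(.lf (nat_lit 225355) (.g (nat_lit 1437) (.e (nat_lit 98342) (nat_lit 20) (.e (nat_lit 229120) (nat_lit 12) (.e (nat_lit 344117) (nat_lit 21) (.e (nat_lit 516175) (nat_lit 14) (.e (nat_lit 474880) (nat_lit 3) .nil))))) (.g (nat_lit 4) .nil .nil))) 
(.lf (nat_lit 225387) (.g (nat_lit 3160) (.e (nat_lit 98342) (nat_lit 20) (.e (nat_lit 221210) (nat_lit 22) (.e (nat_lit 196668) (nat_lit 14) (.e (nat_lit 73746) (nat_lit 3) (.e (nat_lit 516119) (nat_lit 1) (.e (nat_lit 164179) (nat_lit 154) (.e (nat_lit 57376) (nat_lit 3) .nil))))))) (.g (nat_lit 4) .nil .nil)))) (.nd (nat_lit 5) 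
(.lf (nat_lit 225371) (.g (nat_lit 1532) (.e (nat_lit 98342) (nat_lit 20) (.e (nat_lit 221207) (nat_lit 21) (.e (nat_lit 164187) (nat_lit 157) (.e (nat_lit 229379) (nat_lit 0) .nil)))) .nil)) 
(.lf (nat_lit 225403) (.g (nat_lit 3451) (.e (nat_lit 98342) (nat_lit 20) (.e (nat_lit 221210) (nat_lit 22) (.e (nat_lit 196668) (nat_lit 14) (.e (nat_lit 73747) (nat_lit 3) (.e (nat_lit 516119) (nat_lit 1) (.e (nat_lit 164176) (nat_lit 154) (.e (nat_lit 57376) (nat_lit 3) .nil))))))) (.g (nat_lit 5) .nil .nil)))))) (.nd (nat_lit 3) (.nd (nat_lit 4) (.nd (nat_lit 5) 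
(.lf (nat_lit 225351) (.g (nat_lit 1416) (.e (nat_lit 98342) (nat_lit 20) (.e (nat_lit 229120) (nat_lit 12) (.e (nat_lit 344117) (nat_lit 21) (.e (nat_lit 516162) (nat_lit 11) (.e (nat_lit 450304) (nat_lit 3) .nil))))) (.g (nat_lit 4) .nil .nil))) 
(.lf (nat_lit 225383) (.g (nat_lit 1550) (.e (nat_lit 98342) (nat_lit 20) (.e (nat_lit 221210) (nat_lit 22) (.e (nat_lit 196668) (nat_lit 14) (.e (nat_lit 73743) (nat_lit 1) (.e (nat_lit 499846) (nat_lit 5) .nil))))) .nil))) (.nd (nat_lit 5) 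
(.lf (nat_lit 225367) (.g (nat_lit 4417) (.e (nat_lit 98342) (nat_lit 20) (.e (nat_lit 221206) (nat_lit 21) (.e (nat_lit 164196) (nat_lit 158) (.e (nat_lit 1182) (nat_lit 87) (.e (nat_lit 57479) (nat_lit 28) (.e (nat_lit 557109) (nat_lit 15) (.e (nat_lit 196352) (nat_lit 3) .nil))))))) (.g (nat_lit 6) .nil .nil))) 
(.lf (nat_lit 225399) (.g (nat_lit 3752) (.e (nat_lit 98342) (nat_lit 20) (.e (nat_lit 221210) (nat_lit 22) (.e (nat_lit 196668) (nat_lit 14) (.e (nat_lit 73747) (nat_lit 3) (.e (nat_lit 516115) (nat_lit 1) (.e (nat_lit 164183) (nat_lit 154) (.e (nat_lit 57376) (nat_lit 3) .nil))))))) (.g (nat_lit 5) .nil .nil))))) (.nd (nat_lit 4) (.nd (nat_lit 5) 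
(.lf (nat_lit 225359) (.g (nat_lit 1168) (.e (nat_lit 98342) (nat_lit 20) (.e (nat_lit 229120) (nat_lit 12) (.e (nat_lit 344119) (nat_lit 21) (.e (nat_lit 516174) (nat_lit 14) (.e (nat_lit 474880) (nat_lit 3) .nil))))) (.g (nat_lit 4) .nil .nil))) 
(.lf (nat_lit 225391) (.g (nat_lit 2770) (.e (nat_lit 98342) (nat_lit 20) (.e (nat_lit 221210) (nat_lit 22) (.e (nat_lit 196668) (nat_lit 14) (.e (nat_lit 73747) (nat_lit 3) (.e (nat_lit 516115) (nat_lit 1) (.e (nat_lit 164148) (nat_lit 152) (.e (nat_lit 999) (nat_lit 81) (.e (nat_lit 1256) (nat_lit 92) .nil)))))))) (.g (nat_lit 4) .nil .nil)))) (.nd (nat_lit 5) 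
(.lf (nat_lit 225375) (.g (nat_lit 758) (.e (nat_lit 98342) (nat_lit 20) (.e (nat_lit 221207) (nat_lit 21) (.e (nat_lit 164242) (nat_lit 195) .nil))) .nil)) 
(.lf (nat_lit 225407) (.g (nat_lit 3008) (.e (nat_lit 98342) (nat_lit 20) (.e (nat_lit 221210) (nat_lit 22) (.e (nat_lit 196668) (nat_lit 14) (.e (nat_lit 73747) (nat_lit 3) (.e (nat_lit 516119) (nat_lit 1) (.e (nat_lit 164184) (nat_lit 155) (.e (nat_lit 122892) (nat_lit 3) .nil))))))) (.g (nat_lit 4) .nil .nil)))))))))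

noncomputable def tv2955 : DT := (.nd (nat_lit 0) (.nd (nat_lit 1) (.nd (nat_lit 2) (.nd (nat_lit 3) (.nd (nat_lit 4) (.nd (nat_lit 5) 
(.lf (nat_lit 225408) (.g (nat_lit 2735) (.e (nat_lit 98342) (nat_lit 20) (.e (nat_lit 221210) (nat_lit 22) (.e (nat_lit 196668) (nat_lit 14) (.e (nat_lit 73747) (nat_lit 3) (.e (nat_lit 516120) (nat_lit 1) (.e (nat_lit 164182) (nat_lit 154) (.e (nat_lit 57376) (nat_lit 3) .nil))))))) (.g (nat_lit 4) .nil .nil))) 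
(.lf (nat_lit 225440) (.g (nat_lit 2996) (.e (nat_lit 98342) (nat_lit 20) (.e (nat_lit 221210) (nat_lit 22) (.e (nat_lit 196670) (nat_lit 14) (.e (nat_lit 73746) (nat_lit 3) (.e (nat_lit 516120) (nat_lit 1) (.e (nat_lit 164159) (nat_lit 152) (.e (nat_lit 1016) (nat_lit 81) (.e (nat_lit 1256) (nat_lit 92) .nil)))))))) (.g (nat_lit 4) .nil .nil)))) (.nd (nat_lit 5) 
(.lf (nat_lit 225424) (.g (nat_lit 2576) (.e (nat_lit 98342) (nat_lit 20) (.e (nat_lit 221210) (nat_lit 22) (.e (nat_lit 196670) (nat_lit 14) (.e (nat_lit 73746) (nat_lit 3) (.e (nat_lit 516115) (nat_lit 1) (.e (nat_lit 164185) (nat_lit 155) (.e (nat_lit 122892) (nat_lit 3) .nil))))))) (.g (nat_lit 4) .nil .nil))) 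
(.lf (nat_lit 225456) (.g (nat_lit 1675) (.e (nat_lit 98342) (nat_lit 20) (.e (nat_lit 221211) (nat_lit 22) (.e (nat_lit 196666) (nat_lit 13) (.e (nat_lit 65569) (nat_lit 3) (.e (nat_lit 98334) (nat_lit 18) .nil))))) .nil)))) (.nd (nat_lit 4) (.nd (nat_lit 5) 
(.lf (nat_lit 225416) (.g (nat_lit 3816) (.e (nat_lit 98342) (nat_lit 20) (.e (nat_lit 221210) (nat_lit 22) (.e (nat_lit 196670) (nat_lit 14) (.e (nat_lit 73746) (nat_lit 3) (.e (nat_lit 516115) (nat_lit 1) (.e (nat_lit 164153) (nat_lit 152) (.e (nat_lit 999) (nat_lit 81) (.e (nat_lit 1256) (nat_lit 92) .nil)))))))) (.g (nat_lit 5) .nil .nil))) 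
(.lf (nat_lit 225448) (.g (nat_lit 1899) (.e (nat_lit 98342) (nat_lit 20) (.e (nat_lit 221211) (nat_lit 22) (.e (nat_lit 196666) (nat_lit 13) (.e (nat_lit 65550) (nat_lit 0) (.e (nat_lit 1788) (nat_lit 119) .nil))))) .nil))) (.nd (nat_lit 5) 
(.lf (nat_lit 225432) (.g (nat_lit 4215) (.e (nat_lit 98342) (nat_lit 20) (.e (nat_lit 221210) (nat_lit 22) (.e (nat_lit 196670) (nat_lit 14) (.e (nat_lit 73746) (nat_lit 3) (.e (nat_lit 516118) (nat_lit 1) (.e (nat_lit 164183) (nat_lit 154) (.e (nat_lit 57378) (nat_lit 3) .nil))))))) (.g (nat_lit 7) .nil .nil))) 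
(.lf (nat_lit 225464) (.g (nat_lit 2897) (.e (nat_lit 98342) (nat_lit 20) (.e (nat_lit 221211) (nat_lit 22) (.e (nat_lit 196666) (nat_lit 13) (.e (nat_lit 65569) (nat_lit 3) (.e (nat_lit 98335) (nat_lit 18) (.e (nat_lit 164150) (nat_lit 152) (.e (nat_lit 974) (nat_lit 81) (.e (nat_lit 1256) (nat_lit 92) .nil)))))))) (.g (nat_lit 4) .nil .nil)))))) 
(.nd (nat_lit 3) (.nd (nat_lit 4) (.nd (nat_lit 5) 
(.lf (nat_lit 225412) (.g (nat_lit 1116) (.e (nat_lit 98342) (nat_lit 20) (.e (nat_lit 221210) (nat_lit 22) (.e (nat_lit 196670) (nat_lit 14) (.e (nat_lit 73746) (nat_lit 3) .nil)))) .nil)) 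
(.lf (nat_lit 225444) (.g (nat_lit 3598) (.e (nat_lit 98342) (nat_lit 20) (.e (nat_lit 221210) (nat_lit 22) (.e (nat_lit 196670) (nat_lit 14) (.e (nat_lit 73746) (nat_lit 3) (.e (nat_lit 516120) (nat_lit 1) (.e (nat_lit 164183) (nat_lit 154) (.e (nat_lit 57376) (nat_lit 3) .nil))))))) (.g (nat_lit 5) .nil .nil)))) (.nd (nat_lit 5) 
(.lf (nat_lit 225428) (.g (nat_lit 2867) (.e (nat_lit 98342) (nat_lit 20) (.e (nat_lit 221210) (nat_lit 22) (.e (nat_lit 196670) (nat_lit 14) (.e (nat_lit 73746) (nat_lit 3) (.e (nat_lit 516117) (nat_lit 1) (.e (nat_lit 164157) (nat_lit 152) (.e (nat_lit 1016) (nat_lit 81) (.e (nat_lit 1256) (nat_lit 92) .nil)))))))) (.g (nat_lit 4) .nil .nil))) 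
(.lf (nat_lit 225460) (.g (nat_lit 3748) (.e (nat_lit 98342) (nat_lit 20) (.e (nat_lit 221211) (nat_lit 22) (.e (nat_lit 196666) (nat_lit 13) (.e (nat_lit 65569) (nat_lit 3) (.e (nat_lit 98334) (nat_lit 18) (.e (nat_lit 164182) (nat_lit 154) (.e (nat_lit 57376) (nat_lit 3) .nil))))))) (.g (nat_lit 6) .nil .nil))))) (.nd (nat_lit 4) (.nd (nat_lit 5) 
(.lf (nat_lit 225420) (.g (nat_lit 5673) (.e (nat_lit 98342) (nat_lit 20) (.e (nat_lit 221210) (nat_lit 22) (.e (nat_lit 196670) (nat_lit 14) (.e (nat_lit 73746) (nat_lit 3) (.e (nat_lit 516115) (nat_lit 1) (.e (nat_lit 164179) (nat_lit 154) (.e (nat_lit 57378) (nat_lit 3) .nil))))))) (.g (nat_lit 0) .nil .nil))) 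
(.lf (nat_lit 225452) (.g (nat_lit 2811) (.e (nat_lit 98342) (nat_lit 20) (.e (nat_lit 221211) (nat_lit 22) (.e (nat_lit 196666) (nat_lit 13) (.e (nat_lit 65569) (nat_lit 3) (.e (nat_lit 98333) (nat_lit 18) (.e (nat_lit 164150) (nat_lit 152) (.e (nat_lit 974) (nat_lit 81) (.e (nat_lit 1256) (nat_lit 92) .nil)))))))) (.g (nat_lit 4) .nil .nil)))) (.nd (nat_lit 5) 
(.lf (nat_lit 225436) (.g (nat_lit 3423) (.e (nat_lit 98342) (nat_lit 20) (.e (nat_lit 221210) (nat_lit 22) (.e (nat_lit 196670) (nat_lit 14) (.e (nat_lit 73746) (nat_lit 3) (.e (nat_lit 516119) (nat_lit 1) (.e (nat_lit 164179) (nat_lit 154) (.e (nat_lit 57376) (nat_lit 3) .nil))))))) (.g (nat_lit 5) .nil .nil))) 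
(.lf (nat_lit 225468) (.g (nat_lit 2403) (.e (nat_lit 98342) (nat_lit 20) (.e (nat_lit 221211) (nat_lit 22) (.e (nat_lit 196666) (nat_lit 13) (.e (nat_lit 65571) (nat_lit 3) (.e (nat_lit 98332) (nat_lit 18) (.e (nat_lit 164182) (nat_lit 154) (.e (nat_lit 57378) (nat_lit 3) .nil))))))) (.g (nat_lit 4) .nil .nil))))))) (.nd (nat_lit 2) (.nd (nat_lit 3) (.nd (nat_lit 4) (.nd (nat_lit 5) 
(.lf (nat_lit 225410) (.g (nat_lit 2753) (.e (nat_lit 98342) (nat_lit 20) (.e (nat_lit 221210) (nat_lit 22) (.e (nat_lit 196668) (nat_lit 14) (.e (nat_lit 81664) (nat_lit 5) (.e (nat_lit 532499) (nat_lit 1) (.e (nat_lit 57684) (nat_lit 155) (.e (nat_lit 122892) (nat_lit 3) .nil))))))) (.g (nat_lit 5) .nil .nil))) 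
(.lf (nat_lit 225442) (.g (nat_lit 3361) (.e (nat_lit 98342) (nat_lit 20) (.e (nat_lit 221210) (nat_lit 22) (.e (nat_lit 196670) (nat_lit 14) (.e (nat_lit 73746) (nat_lit 3) (.e (nat_lit 516120) (nat_lit 1) (.e (nat_lit 164181) (nat_lit 154) (.e (nat_lit 57376) (nat_lit 3) .nil))))))) (.g (nat_lit 5) .nil .nil)))) (.nd (nat_lit 5) 
(.lf (nat_lit 225426) (.g (nat_lit 3756) (.e (nat_lit 98342) (nat_lit 20) (.e (nat_lit 221210) (nat_lit 22) (.e (nat_lit 196670) (nat_lit 14) (.e (nat_lit 73746) (nat_lit 3) (.e (nat_lit 516117) (nat_lit 1) (.e (nat_lit 164147) (nat_lit 152) (.e (nat_lit 974) (nat_lit 81) (.e (nat_lit 1256) (nat_lit 92) .nil)))))))) (.g (nat_lit 5) .nil .nil))) 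
(.lf (nat_lit 225458) (.g (nat_lit 3438) (.e (nat_lit 98342) (nat_lit 20) (.e (nat_lit 221211) (nat_lit 22) (.e (nat_lit 196666) (nat_lit 13) (.e (nat_lit 65569) (nat_lit 3) (.e (nat_lit 98334) (nat_lit 18) (.e (nat_lit 164180) (nat_lit 154) (.e (nat_lit 57376) (nat_lit 3) .nil))))))) (.g (nat_lit 5) .nil .nil))))) (.nd (nat_lit 4) (.nd (nat_lit 5) 
(.lf (nat_lit 225418) (.g (nat_lit 2688) (.e (nat_lit 98342) (nat_lit 20) (.e (nat_lit 221210) (nat_lit 22) (.e (nat_lit 196670) (nat_lit 14) (.e (nat_lit 73746) (nat_lit 3) (.e (nat_lit 516115) (nat_lit 1) (.e (nat_lit 164178) (nat_lit 154) (.e (nat_lit 57376) (nat_lit 3) .nil))))))) (.g (nat_lit 4) .nil .nil))) 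
(.lf (nat_lit 225450) (.g (nat_lit 1145) (.e (nat_lit 98342) (nat_lit 20) (.e (nat_lit 221211) (nat_lit 22) (.e (nat_lit 196666) (nat_lit 13) (.e (nat_lit 65569) (nat_lit 3) .nil)))) .nil))) (.nd (nat_lit 5) 
(.lf (nat_lit 225434) (.g (nat_lit 3001) (.e (nat_lit 98342) (nat_lit 20) (.e (nat_lit 221210) (nat_lit 22) (.e (nat_lit 196670) (nat_lit 14) (.e (nat_lit 73746) (nat_lit 3) (.e (nat_lit 516119) (nat_lit 1) (.e (nat_lit 164176) (nat_lit 154) (.e (nat_lit 57376) (nat_lit 3) .nil))))))) (.g (nat_lit 4) .nil .nil))) 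
(.lf (nat_lit 225466) (.g (nat_lit 3559) (.e (nat_lit 98342) (nat_lit 20) (.e (nat_lit 221211) (nat_lit 22) (.e (nat_lit 196666) (nat_lit 13) (.e (nat_lit 65569) (nat_lit 3) (.e (nat_lit 98335) (nat_lit 18) (.e (nat_lit 164179) (nat_lit 154) (.e (nat_lit 57378) (nat_lit 3) .nil))))))) (.g (nat_lit 5) .nil .nil)))))) (.nd (nat_lit 3) (.nd (nat_lit 4) (.nd (nat_lit 5) 
(.lf (nat_lit 225414) (.g (nat_lit 2694) (.e (nat_lit 98342) (nat_lit 20) (.e (nat_lit 221210) (nat_lit 22) (.e (nat_lit 196670) (nat_lit 14) (.e (nat_lit 73746) (nat_lit 3) (.e (nat_lit 516115) (nat_lit 1) (.e (nat_lit 164148) (nat_lit 152) (.e (nat_lit 999) (nat_lit 81) (.e (nat_lit 1256) (nat_lit 92) .nil)))))))) (.g (nat_lit 4) .nil .nil))) 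
(.lf (nat_lit 225446) (.g (nat_lit 2998) (.e (nat_lit 98342) (nat_lit 20) (.e (nat_lit 221210) (nat_lit 22) (.e (nat_lit 196670) (nat_lit 14) (.e (nat_lit 73746) (nat_lit 3) (.e (nat_lit 516120) (nat_lit 1) (.e (nat_lit 164184) (nat_lit 155) (.e (nat_lit 122892) (nat_lit 3) .nil))))))) (.g (nat_lit 4) .nil .nil)))) (.nd (nat_lit 5) 
(.lf (nat_lit 225430) (.g (nat_lit 3276) (.e (nat_lit 98342) (nat_lit 20) (.e (nat_lit 221210) (nat_lit 22) (.e (nat_lit 196670) (nat_lit 14) (.e (nat_lit 73746) (nat_lit 3) (.e (nat_lit 516117) (nat_lit 1) (.e (nat_lit 164181) (nat_lit 154) (.e (nat_lit 57376) (nat_lit 3) .nil))))))) (.g (nat_lit 5) .nil .nil))) 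
(.lf (nat_lit 225462) (.g (nat_lit 3427) (.e (nat_lit 98342) (nat_lit 20) (.e (nat_lit 221211) (nat_lit 22) (.e (nat_lit 196666) (nat_lit 13) (.e (nat_lit 65569) (nat_lit 3) (.e (nat_lit 98334) (nat_lit 18) (.e (nat_lit 164183) (nat_lit 154) (.e (nat_lit 57376) (nat_lit 3) .nil))))))) (.g (nat_lit 5) .nil .nil))))) (.nd (nat_lit 4) (.nd (nat_lit 5) 
(.lf (nat_lit 225422) (.g (nat_lit 3508) (.e (nat_lit 98342) (nat_lit 20) (.e (nat_lit 221210) (nat_lit 22) (.e (nat_lit 196670) (nat_lit 14) (.e (nat_lit 73746) (nat_lit 3) (.e (nat_lit 516115) (nat_lit 1) (.e (nat_lit 164183) (nat_lit 154) (.e (nat_lit 57376) (nat_lit 3) .nil))))))) (.g (nat_lit 5) .nil .nil))) 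
(.lf (nat_lit 225454) (.g (nat_lit 4331) (.e (nat_lit 98342) (nat_lit 20) (.e (nat_lit 221211) (nat_lit 22) (.e (nat_lit 196666) (nat_lit 13) (.e (nat_lit 65569) (nat_lit 3) (.e (nat_lit 98333) (nat_lit 18) (.e (nat_lit 164179) (nat_lit 154) (.e (nat_lit 57379) (nat_lit 3) .nil))))))) (.g (nat_lit 6) .nil .nil)))) (.nd (nat_lit 5) 
(.lf (nat_lit 225438) (.g (nat_lit 2971) (.e (nat_lit 98342) (nat_lit 20) (.e (nat_lit 221210) (nat_lit 22) (.e (nat_lit 196670) (nat_lit 14) (.e (nat_lit 73746) (nat_lit 3) (.e (nat_lit 516119) (nat_lit 1) (.e (nat_lit 164184) (nat_lit 155) (.e (nat_lit 122892) (nat_lit 3) .nil))))))) (.g (nat_lit 4) .nil .nil))) 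
(.lf (nat_lit 225470) (.g (nat_lit 3453) (.e (nat_lit 98342) (nat_lit 20) (.e (nat_lit 221211) (nat_lit 22) (.e (nat_lit 196666) (nat_lit 13) (.e (nat_lit 65571) (nat_lit 3) (.e (nat_lit 98333) (nat_lit 18) (.e (nat_lit 164150) (nat_lit 152) (.e (nat_lit 974) (nat_lit 81) (.e (nat_lit 1256) (nat_lit 92) .nil)))))))) (.g (nat_lit 5) .nil .nil)))))))) 
(.nd (nat_lit 1) (.nd (nat_lit 2) (.nd (nat_lit 3) (.nd (nat_lit 4) (.nd (nat_lit 5) 
(.lf (nat_lit 225409) (.g (nat_lit 1136) (.e (nat_lit 98342) (nat_lit 20) (.e (nat_lit 221210) (nat_lit 22) (.e (nat_lit 196668) (nat_lit 14) (.e (nat_lit 81664) (nat_lit 5) .nil)))) .nil)) 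
(.lf (nat_lit 225441) (.g (nat_lit 2669) (.e (nat_lit 98342) (nat_lit 20) (.e (nat_lit 221210) (nat_lit 22) (.e (nat_lit 196670) (nat_lit 14) (.e (nat_lit 73746) (nat_lit 3) (.e (nat_lit 516120) (nat_lit 1) (.e (nat_lit 164180) (nat_lit 154) (.e (nat_lit 57376) (nat_lit 3) .nil))))))) (.g (nat_lit 4) .nil .nil)))) (.nd (nat_lit 5) 
(.lf (nat_lit 225425) (.g (nat_lit 2474) (.e (nat_lit 98342) (nat_lit 20) (.e (nat_lit 221210) (nat_lit 22) (.e (nat_lit 196670) (nat_lit 14) (.e (nat_lit 73746) (nat_lit 3) (.e (nat_lit 516116) (nat_lit 1) (.e (nat_lit 164183) (nat_lit 154) (.e (nat_lit 57378) (nat_lit 3) .nil))))))) (.g (nat_lit 4) .nil .nil))) 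
(.lf (nat_lit 225457) (.g (nat_lit 3101) (.e (nat_lit 98342) (nat_lit 20) (.e (nat_lit 221211) (nat_lit 22) (.e (nat_lit 196666) (nat_lit 13) (.e (nat_lit 65569) (nat_lit 3) (.e (nat_lit 98334) (nat_lit 18) (.e (nat_lit 164157) (nat_lit 152) (.e (nat_lit 1016) (nat_lit 81) (.e (nat_lit 1256) (nat_lit 92) .nil)))))))) (.g (nat_lit 5) .nil .nil))))) (.nd (nat_lit 4) (.nd (nat_lit 5) 
(.lf (nat_lit 225417) (.g (nat_lit 2528) (.e (nat_lit 98342) (nat_lit 20) (.e (nat_lit 221210) (nat_lit 22) (.e (nat_lit 196670) (nat_lit 14) (.e (nat_lit 73746) (nat_lit 3) (.e (nat_lit 516115) (nat_lit 1) (.e (nat_lit 164177) (nat_lit 154) (.e (nat_lit 57376) (nat_lit 3) .nil))))))) (.g (nat_lit 4) .nil .nil))) 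
(.lf (nat_lit 225449) (.g (nat_lit 1757) (.e (nat_lit 98342) (nat_lit 20) (.e (nat_lit 221211) (nat_lit 22) (.e (nat_lit 196666) (nat_lit 13) (.e (nat_lit 65568) (nat_lit 2) (.e (nat_lit 98048) (nat_lit 3) .nil))))) .nil))) (.nd (nat_lit 5) 
(.lf (nat_lit 225433) (.g (nat_lit 3381) (.e (nat_lit 98342) (nat_lit 20) (.e (nat_lit 221210) (nat_lit 22) (.e (nat_lit 196670) (nat_lit 14) (.e (nat_lit 73746) (nat_lit 3) (.e (nat_lit 516119) (nat_lit 1) (.e (nat_lit 164147) (nat_lit 152) (.e (nat_lit 974) (nat_lit 81) (.e (nat_lit 1256) (nat_lit 92) .nil)))))))) (.g (nat_lit 5) .nil .nil))) 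
(.lf (nat_lit 225465) (.g (nat_lit 3780) (.e (nat_lit 98342) (nat_lit 20) (.e (nat_lit 221211) (nat_lit 22) (.e (nat_lit 196666) (nat_lit 13) (.e (nat_lit 65569) (nat_lit 3) (.e (nat_lit 98335) (nat_lit 18) (.e (nat_lit 164179) (nat_lit 154) (.e (nat_lit 57377) (nat_lit 3) .nil))))))) (.g (nat_lit 5) .nil .nil)))))) (.nd (nat_lit 3) (.nd (nat_lit 4) (.nd (nat_lit 5) 
(.lf (nat_lit 225413) (.g (nat_lit 3449) (.e (nat_lit 98342) (nat_lit 20) (.e (nat_lit 221210) (nat_lit 22) (.e (nat_lit 196670) (nat_lit 14) (.e (nat_lit 73746) (nat_lit 3) (.e (nat_lit 516115) (nat_lit 1) (.e (nat_lit 164148) (nat_lit 152) (.e (nat_lit 974) (nat_lit 81) (.e (nat_lit 1256) (nat_lit 92) .nil)))))))) (.g (nat_lit 5) .nil .nil))) 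
(.lf (nat_lit 225445) (.g (nat_lit 4879) (.e (nat_lit 98342) (nat_lit 20) (.e (nat_lit 221210) (nat_lit 22) (.e (nat_lit 196670) (nat_lit 14) (.e (nat_lit 73746) (nat_lit 3) (.e (nat_lit 516120) (nat_lit 1) (.e (nat_lit 164183) (nat_lit 154) (.e (nat_lit 57378) (nat_lit 3) .nil))))))) (.g (nat_lit 0) .nil .nil)))) (.nd (nat_lit 5) 
(.lf (nat_lit 225429) (.g (nat_lit 3320) (.e (nat_lit 98342) (nat_lit 20) (.e (nat_lit 221210) (nat_lit 22) (.e (nat_lit 196670) (nat_lit 14) (.e (nat_lit 73746) (nat_lit 3) (.e (nat_lit 516117) (nat_lit 1) (.e (nat_lit 164180) (nat_lit 154) (.e (nat_lit 57376) (nat_lit 3) .nil))))))) (.g (nat_lit 5) .nil .nil))) 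
(.lf (nat_lit 225461) (.g (nat_lit 5059) (.e (nat_lit 98342) (nat_lit 20) (.e (nat_lit 221211) (nat_lit 22) (.e (nat_lit 196666) (nat_lit 13) (.e (nat_lit 65569) (nat_lit 3) (.e (nat_lit 98334) (nat_lit 18) (.e (nat_lit 164182) (nat_lit 154) (.e (nat_lit 57379) (nat_lit 3) .nil))))))) (.g (nat_lit 0) .nil .nil))))) (.nd (nat_lit 4) (.nd (nat_lit 5) 
(.lf (nat_lit 225421) (.g (nat_lit 3198) (.e (nat_lit 98342) (nat_lit 20) (.e (nat_lit 221210) (nat_lit 22) (.e (nat_lit 196670) (nat_lit 14) (.e (nat_lit 73746) (nat_lit 3) (.e (nat_lit 516115) (nat_lit 1) (.e (nat_lit 164182) (nat_lit 154) (.e (nat_lit 57376) (nat_lit 3) .nil))))))) (.g (nat_lit 5) .nil .nil))) 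
(.lf (nat_lit 225453) (.g (nat_lit 2527) (.e (nat_lit 98342) (nat_lit 20) (.e (nat_lit 221211) (nat_lit 22) (.e (nat_lit 196666) (nat_lit 13) (.e (nat_lit 65569) (nat_lit 3) (.e (nat_lit 98333) (nat_lit 18) (.e (nat_lit 164177) (nat_lit 154) (.e (nat_lit 57376) (nat_lit 3) .nil))))))) (.g (nat_lit 4) .nil .nil)))) (.nd (nat_lit 5) 
(.lf (nat_lit 225437) (.g (nat_lit 2739) (.e (nat_lit 98342) (nat_lit 20) (.e (nat_lit 221210) (nat_lit 22) (.e (nat_lit 196670) (nat_lit 14) (.e (nat_lit 73746) (nat_lit 3) (.e (nat_lit 516119) (nat_lit 1) (.e (nat_lit 164180) (nat_lit 154) (.e (nat_lit 57376) (nat_lit 3) .nil))))))) (.g (nat_lit 4) .nil .nil))) 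
(.lf (nat_lit 225469) (.g (nat_lit 2548) (.e (nat_lit 98342) (nat_lit 20) (.e (nat_lit 221211) (nat_lit 22) (.e (nat_lit 196666) (nat_lit 13) (.e (nat_lit 65571) (nat_lit 3) (.e (nat_lit 98333) (nat_lit 18) (.e (nat_lit 164148) (nat_lit 152) (.e (nat_lit 974) (nat_lit 81) (.e (nat_lit 1256) (nat_lit 92) .nil)))))))) (.g (nat_lit 4) .nil .nil))))))) 
(.nd (nat_lit 2) (.nd (nat_lit 3) (.nd (nat_lit 4) (.nd (nat_lit 5) 
(.lf (nat_lit 225411) (.g (nat_lit 1421) (.e (nat_lit 98342) (nat_lit 20) (.e (nat_lit 221210) (nat_lit 22) (.e (nat_lit 196668) (nat_lit 14) (.e (nat_lit 73757) (nat_lit 11) .nil)))) .nil)) 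
(.lf (nat_lit 225443) (.g (nat_lit 3324) (.e (nat_lit 98342) (nat_lit 20) (.e (nat_lit 221210) (nat_lit 22) (.e (nat_lit 196670) (nat_lit 14) (.e (nat_lit 73746) (nat_lit 3) (.e (nat_lit 516120) (nat_lit 1) (.e (nat_lit 164182) (nat_lit 154) (.e (nat_lit 57376) (nat_lit 3) .nil))))))) (.g (nat_lit 5) .nil .nil)))) (.nd (nat_lit 5) 
(.lf (nat_lit 225427) (.g (nat_lit 2666) (.e (nat_lit 98342) (nat_lit 20) (.e (nat_lit 221210) (nat_lit 22) (.e (nat_lit 196670) (nat_lit 14) (.e (nat_lit 73746) (nat_lit 3) (.e (nat_lit 516117) (nat_lit 1) (.e (nat_lit 164147) (nat_lit 152) (.e (nat_lit 999) (nat_lit 81) (.e (nat_lit 1256) (nat_lit 92) .nil)))))))) (.g (nat_lit 4) .nil .nil))) 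
(.lf (nat_lit 225459) (.g (nat_lit 3260) (.e (nat_lit 98342) (nat_lit 20) (.e (nat_lit 221211) (nat_lit 22) (.e (nat_lit 196666) (nat_lit 13) (.e (nat_lit 65569) (nat_lit 3) (.e (nat_lit 98334) (nat_lit 18) (.e (nat_lit 164181) (nat_lit 154) (.e (nat_lit 57376) (nat_lit 3) .nil))))))) (.g (nat_lit 5) .nil .nil))))) (.nd (nat_lit 4) (.nd (nat_lit 5) 
(.lf (nat_lit 225419) (.g (nat_lit 4251) (.e (nat_lit 98342) (nat_lit 20) (.e (nat_lit 221210) (nat_lit 22) (.e (nat_lit 196670) (nat_lit 14) (.e (nat_lit 73746) (nat_lit 3) (.e (nat_lit 516115) (nat_lit 1) (.e (nat_lit 164179) (nat_lit 154) (.e (nat_lit 57376) (nat_lit 3) .nil))))))) (.g (nat_lit 6) .nil .nil))) 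
(.lf (nat_lit 225451) (.g (nat_lit 1968) (.e (nat_lit 98342) (nat_lit 20) (.e (nat_lit 221211) (nat_lit 22) (.e (nat_lit 196666) (nat_lit 13) (.e (nat_lit 65569) (nat_lit 3) (.e (nat_lit 98325) (nat_lit 17) .nil))))) .nil))) (.nd (nat_lit 5) 
(.lf (nat_lit 225435) (.g (nat_lit 2966) (.e (nat_lit 98342) (nat_lit 20) (.e (nat_lit 221210) (nat_lit 22) (.e (nat_lit 196670) (nat_lit 14) (.e (nat_lit 73746) (nat_lit 3) (.e (nat_lit 516119) (nat_lit 1) (.e (nat_lit 164178) (nat_lit 154) (.e (nat_lit 57376) (nat_lit 3) .nil))))))) (.g (nat_lit 4) .nil .nil))) 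
(.lf (nat_lit 225467) (.g (nat_lit 2728) (.e (nat_lit 98342) (nat_lit 20) (.e (nat_lit 221211) (nat_lit 22) (.e (nat_lit 196666) (nat_lit 13) (.e (nat_lit 65569) (nat_lit 3) (.e (nat_lit 98335) (nat_lit 18) (.e (nat_lit 164183) (nat_lit 154) (.e (nat_lit 57376) (nat_lit 3) .nil))))))) (.g (nat_lit 4) .nil .nil)))))) (.nd (nat_lit 3) (.nd (nat_lit 4) (.nd (nat_lit 5) 
(.lf (nat_lit 225415) (.g (nat_lit 3720) (.e (nat_lit 98342) (nat_lit 20) (.e (nat_lit 221210) (nat_lit 22) (.e (nat_lit 196670) (nat_lit 14) (.e (nat_lit 73746) (nat_lit 3) (.e (nat_lit 516115) (nat_lit 1) (.e (nat_lit 164151) (nat_lit 152) (.e (nat_lit 974) (nat_lit 81) (.e (nat_lit 1256) (nat_lit 92) .nil)))))))) (.g (nat_lit 5) .nil .nil))) 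
(.lf (nat_lit 225447) (.g (nat_lit 1365) (.e (nat_lit 98342) (nat_lit 20) (.e (nat_lit 221210) (nat_lit 22) (.e (nat_lit 196670) (nat_lit 14) (.e (nat_lit 73750) (nat_lit 6) .nil)))) .nil))) (.nd (nat_lit 5) 
(.lf (nat_lit 225431) (.g (nat_lit 3006) (.e (nat_lit 98342) (nat_lit 20) (.e (nat_lit 221210) (nat_lit 22) (.e (nat_lit 196670) (nat_lit 14) (.e (nat_lit 73746) (nat_lit 3) (.e (nat_lit 516117) (nat_lit 1) (.e (nat_lit 164182) (nat_lit 154) (.e (nat_lit 57376) (nat_lit 3) .nil))))))) (.g (nat_lit 4) .nil .nil))) 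
(.lf (nat_lit 225463) (.g (nat_lit 4530) (.e (nat_lit 98342) (nat_lit 20) (.e (nat_lit 221211) (nat_lit 22) (.e (nat_lit 196666) (nat_lit 13) (.e (nat_lit 65569) (nat_lit 3) (.e (nat_lit 98334) (nat_lit 18) (.e (nat_lit 164183) (nat_lit 154) (.e (nat_lit 57378) (nat_lit 3) .nil))))))) (.g (nat_lit 0) .nil .nil))))) (.nd (nat_lit 4) (.nd (nat_lit 5) 
(.lf (nat_lit 225423) (.g (nat_lit 4893) (.e (nat_lit 98342) (nat_lit 20) (.e (nat_lit 221210) (nat_lit 22) (.e (nat_lit 196670) (nat_lit 14) (.e (nat_lit 73746) (nat_lit 3) (.e (nat_lit 516115) (nat_lit 1) (.e (nat_lit 164183) (nat_lit 154) (.e (nat_lit 57378) (nat_lit 3) .nil))))))) (.g (nat_lit 0) .nil .nil))) 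
(.lf (nat_lit 225455) (.g (nat_lit 3537) (.e (nat_lit 98342) (nat_lit 20) (.e (nat_lit 221211) (nat_lit 22) (.e (nat_lit 196666) (nat_lit 13) (.e (nat_lit 65569) (nat_lit 3) (.e (nat_lit 98333) (nat_lit 18) (.e (nat_lit 164183) (nat_lit 154) (.e (nat_lit 57376) (nat_lit 3) .nil))))))) (.g (nat_lit 5) .nil .nil)))) (.nd (nat_lit 5) 
(.lf (nat_lit 225439) (.g (nat_lit 3493) (.e (nat_lit 98342) (nat_lit 20) (.e (nat_lit 221210) (nat_lit 22) (.e (nat_lit 196670) (nat_lit 14) (.e (nat_lit 73746) (nat_lit 3) (.e (nat_lit 516120) (nat_lit 1) (.e (nat_lit 164147) (nat_lit 152) (.e (nat_lit 974) (nat_lit 81) (.e (nat_lit 1256) (nat_lit 92) .nil)))))))) (.g (nat_lit 5) .nil .nil))) 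
(.lf (nat_lit 225471) (.g (nat_lit 2760) (.e (nat_lit 98342) (nat_lit 20) (.e (nat_lit 221211) (nat_lit 22) (.e (nat_lit 196666) (nat_lit 13) (.e (nat_lit 65571) (nat_lit 3) (.e (nat_lit 98333) (nat_lit 18) (.e (nat_lit 164153) (nat_lit 152) (.e (nat_lit 999) (nat_lit 81) (.e (nat_lit 1256) (nat_lit 92) .nil)))))))) (.g (nat_lit 4) .nil .nil)))))))))

noncomputable def tv2956 : DT := (.nd (nat_lit 0) (.nd (nat_lit 1) (.nd (nat_lit 2) (.nd (nat_lit 3) (.nd (nat_lit 4) (.nd (nat_lit 5) 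
(.lf (nat_lit 225472) (.g (nat_lit 2358) (.e (nat_lit 98342) (nat_lit 20) (.e (nat_lit 221211) (nat_lit 22) (.e (nat_lit 196666) (nat_lit 13) (.e (nat_lit 65571) (nat_lit 3) (.e (nat_lit 98333) (nat_lit 18) (.e (nat_lit 164156) (nat_lit 152) (.e (nat_lit 968) (nat_lit 81) (.e (nat_lit 1256) (nat_lit 92) .nil)))))))) (.g (nat_lit 4) .nil .nil))) 
(.lf (nat_lit 225504) (.g (nat_lit 3125) (.e (nat_lit 98342) (nat_lit 20) (.e (nat_lit 221212) (nat_lit 22) (.e (nat_lit 196668) (nat_lit 14) (.e (nat_lit 73747) (nat_lit 3) (.e (nat_lit 516115) (nat_lit 1) (.e (nat_lit 164151) (nat_lit 152) (.e (nat_lit 974) (nat_lit 81) (.e (nat_lit 1256) (nat_lit 92) .nil)))))))) (.g (nat_lit 5) .nil .nil)))) (.nd (nat_lit 5) 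
(.lf (nat_lit 225488) (.g (nat_lit 1628) (.e (nat_lit 98342) (nat_lit 20) (.e (nat_lit 221212) (nat_lit 22) (.e (nat_lit 196666) (nat_lit 13) (.e (nat_lit 65569) (nat_lit 3) .nil)))) .nil)) 
(.lf (nat_lit 225520) (.g (nat_lit 2353) (.e (nat_lit 98342) (nat_lit 20) (.e (nat_lit 221212) (nat_lit 22) (.e (nat_lit 196668) (nat_lit 14) (.e (nat_lit 73747) (nat_lit 3) (.e (nat_lit 516119) (nat_lit 1) (.e (nat_lit 164182) (nat_lit 154) (.e (nat_lit 57376) (nat_lit 3) .nil))))))) (.g (nat_lit 4) .nil .nil))))) (.nd (nat_lit 4) (.nd (nat_lit 5) 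
(.lf (nat_lit 225480) (.g (nat_lit 2837) (.e (nat_lit 98342) (nat_lit 20) (.e (nat_lit 221211) (nat_lit 22) (.e (nat_lit 196666) (nat_lit 13) (.e (nat_lit 65571) (nat_lit 3) (.e (nat_lit 98334) (nat_lit 18) (.e (nat_lit 164180) (nat_lit 154) (.e (nat_lit 57376) (nat_lit 3) .nil))))))) (.g (nat_lit 5) .nil .nil))) 
(.lf (nat_lit 225512) (.g (nat_lit 1885) (.e (nat_lit 98342) (nat_lit 20) (.e (nat_lit 221212) (nat_lit 22) (.e (nat_lit 196668) (nat_lit 14) (.e (nat_lit 73747) (nat_lit 3) (.e (nat_lit 516118) (nat_lit 1) (.e (nat_lit 164179) (nat_lit 154) (.e (nat_lit 57376) (nat_lit 3) .nil))))))) (.g (nat_lit 4) .nil .nil)))) (.nd (nat_lit 5) 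
(.lf (nat_lit 225496) (.g (nat_lit 3209) (.e (nat_lit 98342) (nat_lit 20) (.e (nat_lit 221212) (nat_lit 22) (.e (nat_lit 196668) (nat_lit 14) (.e (nat_lit 73746) (nat_lit 3) (.e (nat_lit 516119) (nat_lit 1) (.e (nat_lit 164179) (nat_lit 154) (.e (nat_lit 57376) (nat_lit 3) .nil))))))) (.g (nat_lit 5) .nil .nil))) 
(.lf (nat_lit 225528) (.g (nat_lit 2297) (.e (nat_lit 98342) (nat_lit 20) (.e (nat_lit 221212) (nat_lit 22) (.e (nat_lit 196669) (nat_lit 14) (.e (nat_lit 73754) (nat_lit 8) (.e (nat_lit 557091) (nat_lit 12) (.e (nat_lit 163999) (nat_lit 38) (.e (nat_lit 639007) (nat_lit 13) (.e (nat_lit 1256) (nat_lit 92) .nil)))))))) (.g (nat_lit 4) .nil .nil)))))) 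
(.nd (nat_lit 3) (.nd (nat_lit 4) (.nd (nat_lit 5) 
(.lf (nat_lit 225476) (.g (nat_lit 3716) (.e (nat_lit 98342) (nat_lit 20) (.e (nat_lit 221211) (nat_lit 22) (.e (nat_lit 196666) (nat_lit 13) (.e (nat_lit 65571) (nat_lit 3) (.e (nat_lit 98333) (nat_lit 18) (.e (nat_lit 164183) (nat_lit 154) (.e (nat_lit 57376) (nat_lit 3) .nil))))))) (.g (nat_lit 6) .nil .nil))) 
(.lf (nat_lit 225508) (.g (nat_lit 2269) (.e (nat_lit 98342) (nat_lit 20) (.e (nat_lit 221212) (nat_lit 22) (.e (nat_lit 196668) (nat_lit 14) (.e (nat_lit 73747) (nat_lit 3) (.e (nat_lit 516117) (nat_lit 1) (.e (nat_lit 164159) (nat_lit 152) (.e (nat_lit 1016) (nat_lit 81) (.e (nat_lit 1256) (nat_lit 92) .nil)))))))) (.g (nat_lit 5) .nil .nil)))) (.nd (nat_lit 5) 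
(.lf (nat_lit 225492) (.g (nat_lit 2815) (.e (nat_lit 98342) (nat_lit 20) (.e (nat_lit 221212) (nat_lit 22) (.e (nat_lit 196668) (nat_lit 14) (.e (nat_lit 73746) (nat_lit 3) (.e (nat_lit 516119) (nat_lit 1) (.e (nat_lit 164149) (nat_lit 152) (.e (nat_lit 974) (nat_lit 81) (.e (nat_lit 1256) (nat_lit 92) .nil)))))))) (.g (nat_lit 5) .nil .nil))) 
(.lf (nat_lit 225524) (.g (nat_lit 3306) (.e (nat_lit 98342) (nat_lit 20) (.e (nat_lit 221212) (nat_lit 22) (.e (nat_lit 196668) (nat_lit 14) (.e (nat_lit 73747) (nat_lit 3) (.e (nat_lit 516120) (nat_lit 1) (.e (nat_lit 164183) (nat_lit 154) (.e (nat_lit 57376) (nat_lit 3) .nil))))))) (.g (nat_lit 6) .nil .nil))))) (.nd (nat_lit 4) (.nd (nat_lit 5) 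
(.lf (nat_lit 225484) (.g (nat_lit 2829) (.e (nat_lit 98342) (nat_lit 20) (.e (nat_lit 221211) (nat_lit 22) (.e (nat_lit 196670) (nat_lit 14) (.e (nat_lit 73746) (nat_lit 3) (.e (nat_lit 516115) (nat_lit 1) (.e (nat_lit 164183) (nat_lit 154) (.e (nat_lit 57378) (nat_lit 3) .nil))))))) (.g (nat_lit 5) .nil .nil))) 
(.lf (nat_lit 225516) (.g (nat_lit 2320) (.e (nat_lit 98342) (nat_lit 20) (.e (nat_lit 221212) (nat_lit 22) (.e (nat_lit 196668) (nat_lit 14) (.e (nat_lit 73747) (nat_lit 3) (.e (nat_lit 516119) (nat_lit 1) (.e (nat_lit 164154) (nat_lit 152) (.e (nat_lit 999) (nat_lit 81) (.e (nat_lit 1256) (nat_lit 92) .nil)))))))) (.g (nat_lit 4) .nil .nil)))) (.nd (nat_lit 5) 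
(.lf (nat_lit 225500) (.g (nat_lit 3039) (.e (nat_lit 98342) (nat_lit 20) (.e (nat_lit 221212) (nat_lit 22) (.e (nat_lit 196668) (nat_lit 14) (.e (nat_lit 73746) (nat_lit 3) (.e (nat_lit 516120) (nat_lit 1) (.e (nat_lit 164182) (nat_lit 154) (.e (nat_lit 57376) (nat_lit 3) .nil))))))) (.g (nat_lit 5) .nil .nil))) 
(.lf (nat_lit 225532) (.g (nat_lit 2965) (.e (nat_lit 98342) (nat_lit 20) (.e (nat_lit 221212) (nat_lit 22) (.e (nat_lit 196670) (nat_lit 14) (.e (nat_lit 73746) (nat_lit 3) (.e (nat_lit 516115) (nat_lit 1) (.e (nat_lit 164178) (nat_lit 154) (.e (nat_lit 57376) (nat_lit 3) .nil))))))) (.g (nat_lit 5) .nil .nil))))))) (.nd (nat_lit 2) (.nd (nat_lit 3) (.nd (nat_lit 4) (.nd (nat_lit 5) 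
(.lf (nat_lit 225474) (.g (nat_lit 3811) (.e (nat_lit 98342) (nat_lit 20) (.e (nat_lit 221211) (nat_lit 22) (.e (nat_lit 196666) (nat_lit 13) (.e (nat_lit 65571) (nat_lit 3) (.e (nat_lit 98333) (nat_lit 18) (.e (nat_lit 164179) (nat_lit 154) (.e (nat_lit 57376) (nat_lit 3) .nil))))))) (.g (nat_lit 6) .nil .nil))) 
(.lf (nat_lit 225506) (.g (nat_lit 3451) (.e (nat_lit 98342) (nat_lit 20) (.e (nat_lit 221212) (nat_lit 22) (.e (nat_lit 196668) (nat_lit 14) (.e (nat_lit 73747) (nat_lit 3) (.e (nat_lit 516115) (nat_lit 1) (.e (nat_lit 164185) (nat_lit 155) (.e (nat_lit 122892) (nat_lit 3) .nil))))))) (.g (nat_lit 5) .nil .nil)))) (.nd (nat_lit 5) 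
(.lf (nat_lit 225490) (.g (nat_lit 2789) (.e (nat_lit 98342) (nat_lit 20) (.e (nat_lit 221212) (nat_lit 22) (.e (nat_lit 196668) (nat_lit 14) (.e (nat_lit 73746) (nat_lit 3) (.e (nat_lit 516115) (nat_lit 1) (.e (nat_lit 164153) (nat_lit 152) (.e (nat_lit 997) (nat_lit 81) (.e (nat_lit 1245) (nat_lit 92) .nil)))))))) (.g (nat_lit 4) .nil .nil))) 
(.lf (nat_lit 225522) (.g (nat_lit 2887) (.e (nat_lit 98342) (nat_lit 20) (.e (nat_lit 221212) (nat_lit 22) (.e (nat_lit 196668) (nat_lit 14) (.e (nat_lit 73747) (nat_lit 3) (.e (nat_lit 516119) (nat_lit 1) (.e (nat_lit 164184) (nat_lit 155) (.e (nat_lit 122893) (nat_lit 3) .nil))))))) (.g (nat_lit 4) .nil .nil))))) (.nd (nat_lit 4) (.nd (nat_lit 5) 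
(.lf (nat_lit 225482) (.g (nat_lit 3036) (.e (nat_lit 98342) (nat_lit 20) (.e (nat_lit 221211) (nat_lit 22) (.e (nat_lit 196666) (nat_lit 13) (.e (nat_lit 65571) (nat_lit 3) (.e (nat_lit 98334) (nat_lit 18) (.e (nat_lit 164183) (nat_lit 154) (.e (nat_lit 57376) (nat_lit 3) .nil))))))) (.g (nat_lit 5) .nil .nil))) 
(.lf (nat_lit 225514) (.g (nat_lit 2893) (.e (nat_lit 98342) (nat_lit 20) (.e (nat_lit 221212) (nat_lit 22) (.e (nat_lit 196668) (nat_lit 14) (.e (nat_lit 73747) (nat_lit 3) (.e (nat_lit 516119) (nat_lit 1) (.e (nat_lit 164153) (nat_lit 152) (.e (nat_lit 997) (nat_lit 81) (.e (nat_lit 1245) (nat_lit 92) .nil)))))))) (.g (nat_lit 4) .nil .nil)))) (.nd (nat_lit 5) 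
(.lf (nat_lit 225498) (.g (nat_lit 2306) (.e (nat_lit 98342) (nat_lit 20) (.e (nat_lit 221212) (nat_lit 22) (.e (nat_lit 196668) (nat_lit 14) (.e (nat_lit 73746) (nat_lit 3) (.e (nat_lit 516120) (nat_lit 1) (.e (nat_lit 164147) (nat_lit 152) (.e (nat_lit 974) (nat_lit 81) (.e (nat_lit 1256) (nat_lit 92) .nil)))))))) (.g (nat_lit 4) .nil .nil))) 
(.lf (nat_lit 225530) (.g (nat_lit 3216) (.e (nat_lit 98342) (nat_lit 20) (.e (nat_lit 221212) (nat_lit 22) (.e (nat_lit 196670) (nat_lit 14) (.e (nat_lit 73746) (nat_lit 3) (.e (nat_lit 516115) (nat_lit 1) (.e (nat_lit 164148) (nat_lit 152) (.e (nat_lit 974) (nat_lit 81) (.e (nat_lit 1256) (nat_lit 92) .nil)))))))) (.g (nat_lit 5) .nil .nil)))))) 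
(.nd (nat_lit 3) (.nd (nat_lit 4) (.nd (nat_lit 5) 
(.lf (nat_lit 225478) (.g (nat_lit 2275) (.e (nat_lit 98342) (nat_lit 20) (.e (nat_lit 221211) (nat_lit 22) (.e (nat_lit 196666) (nat_lit 13) (.e (nat_lit 65571) (nat_lit 3) (.e (nat_lit 98334) (nat_lit 18) (.e (nat_lit 164157) (nat_lit 152) (.e (nat_lit 1016) (nat_lit 81) (.e (nat_lit 1256) (nat_lit 92) .nil)))))))) (.g (nat_lit 4) .nil .nil))) 
(.lf (nat_lit 225510) (.g (nat_lit 3038) (.e (nat_lit 98342) (nat_lit 20) (.e (nat_lit 221212) (nat_lit 22) (.e (nat_lit 196668) (nat_lit 14) (.e (nat_lit 73747) (nat_lit 3) (.e (nat_lit 516117) (nat_lit 1) (.e (nat_lit 164181) (nat_lit 154) (.e (nat_lit 57376) (nat_lit 3) .nil))))))) (.g (nat_lit 5) .nil .nil)))) (.nd (nat_lit 5) 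
(.lf (nat_lit 225494) (.g (nat_lit 2206) (.e (nat_lit 98342) (nat_lit 20) (.e (nat_lit 221212) (nat_lit 22) (.e (nat_lit 196668) (nat_lit 14) (.e (nat_lit 73746) (nat_lit 3) (.e (nat_lit 516119) (nat_lit 1) (.e (nat_lit 164176) (nat_lit 154) (.e (nat_lit 57376) (nat_lit 3) .nil))))))) (.g (nat_lit 4) .nil .nil))) 
(.lf (nat_lit 225526) (.g (nat_lit 360) (.e (nat_lit 98342) (nat_lit 20) (.e (nat_lit 221212) (nat_lit 22) (.e (nat_lit 196669) (nat_lit 14) .nil))) .nil)))) (.nd (nat_lit 4) (.nd (nat_lit 5) 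
(.lf (nat_lit 225486) (.g (nat_lit 2565) (.e (nat_lit 98342) (nat_lit 20) (.e (nat_lit 221211) (nat_lit 22) (.e (nat_lit 196670) (nat_lit 14) (.e (nat_lit 73746) (nat_lit 3) (.e (nat_lit 516119) (nat_lit 1) (.e (nat_lit 164150) (nat_lit 152) (.e (nat_lit 974) (nat_lit 81) (.e (nat_lit 1256) (nat_lit 92) .nil)))))))) (.g (nat_lit 4) .nil .nil))) 
(.lf (nat_lit 225518) (.g (nat_lit 3795) (.e (nat_lit 98342) (nat_lit 20) (.e (nat_lit 221212) (nat_lit 22) (.e (nat_lit 196668) (nat_lit 14) (.e (nat_lit 73747) (nat_lit 3) (.e (nat_lit 516119) (nat_lit 1) (.e (nat_lit 164179) (nat_lit 154) (.e (nat_lit 57376) (nat_lit 3) .nil))))))) (.g (nat_lit 6) .nil .nil)))) (.nd (nat_lit 5) 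
(.lf (nat_lit 225502) (.g (nat_lit 3209) (.e (nat_lit 98342) (nat_lit 20) (.e (nat_lit 221212) (nat_lit 22) (.e (nat_lit 196668) (nat_lit 14) (.e (nat_lit 73747) (nat_lit 3) (.e (nat_lit 516115) (nat_lit 1) (.e (nat_lit 164148) (nat_lit 152) (.e (nat_lit 974) (nat_lit 81) (.e (nat_lit 1256) (nat_lit 92) .nil)))))))) (.g (nat_lit 5) .nil .nil))) 
(.lf (nat_lit 225534) (.g (nat_lit 3048) (.e (nat_lit 98342) (nat_lit 20) (.e (nat_lit 221212) (nat_lit 22) (.e (nat_lit 196670) (nat_lit 14) (.e (nat_lit 73746) (nat_lit 3) (.e (nat_lit 516115) (nat_lit 1) (.e (nat_lit 164185) (nat_lit 155) (.e (nat_lit 122892) (nat_lit 3) .nil))))))) (.g (nat_lit 5) .nil .nil)))))))) 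
(.nd (nat_lit 1) (.nd (nat_lit 2) (.nd (nat_lit 3) (.nd (nat_lit 4) (.nd (nat_lit 5) 
(.lf (nat_lit 225473) (.g (nat_lit 2359) (.e (nat_lit 98342) (nat_lit 20) (.e (nat_lit 221211) (nat_lit 22) (.e (nat_lit 196666) (nat_lit 13) (.e (nat_lit 65571) (nat_lit 3) (.e (nat_lit 98333) (nat_lit 18) (.e (nat_lit 164177) (nat_lit 154) (.e (nat_lit 57376) (nat_lit 3) .nil))))))) (.g (nat_lit 4) .nil .nil))) 
(.lf (nat_lit 225505) (.g (nat_lit 3080) (.e (nat_lit 98342) (nat_lit 20) (.e (nat_lit 221212) (nat_lit 22) (.e (nat_lit 196668) (nat_lit 14) (.e (nat_lit 73747) (nat_lit 3) (.e (nat_lit 516115) (nat_lit 1) (.e (nat_lit 164178) (nat_lit 154) (.e (nat_lit 57376) (nat_lit 3) .nil))))))) (.g (nat_lit 5) .nil .nil)))) (.nd (nat_lit 5) 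
(.lf (nat_lit 225489) (.g (nat_lit 1118) (.e (nat_lit 98342) (nat_lit 20) (.e (nat_lit 221212) (nat_lit 22) (.e (nat_lit 196668) (nat_lit 14) (.e (nat_lit 73743) (nat_lit 1) .nil)))) .nil)) 
(.lf (nat_lit 225521) (.g (nat_lit 3417) (.e (nat_lit 98342) (nat_lit 20) (.e (nat_lit 221212) (nat_lit 22) (.e (nat_lit 196668) (nat_lit 14) (.e (nat_lit 73747) (nat_lit 3) (.e (nat_lit 516119) (nat_lit 1) (.e (nat_lit 164184) (nat_lit 155) (.e (nat_lit 122892) (nat_lit 3) .nil))))))) (.g (nat_lit 5) .nil .nil))))) (.nd (nat_lit 4) (.nd (nat_lit 5) 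
(.lf (nat_lit 225481) (.g (nat_lit 2531) (.e (nat_lit 98342) (nat_lit 20) (.e (nat_lit 221211) (nat_lit 22) (.e (nat_lit 196666) (nat_lit 13) (.e (nat_lit 65571) (nat_lit 3) (.e (nat_lit 98334) (nat_lit 18) (.e (nat_lit 164181) (nat_lit 154) (.e (nat_lit 57376) (nat_lit 3) .nil))))))) (.g (nat_lit 4) .nil .nil))) 
(.lf (nat_lit 225513) (.g (nat_lit 2223) (.e (nat_lit 98342) (nat_lit 20) (.e (nat_lit 221212) (nat_lit 22) (.e (nat_lit 196668) (nat_lit 14) (.e (nat_lit 73747) (nat_lit 3) (.e (nat_lit 516118) (nat_lit 1) (.e (nat_lit 164183) (nat_lit 154) (.e (nat_lit 57376) (nat_lit 3) .nil))))))) (.g (nat_lit 4) .nil .nil)))) (.nd (nat_lit 5) 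
(.lf (nat_lit 225497) (.g (nat_lit 2342) (.e (nat_lit 98342) (nat_lit 20) (.e (nat_lit 221212) (nat_lit 22) (.e (nat_lit 196668) (nat_lit 14) (.e (nat_lit 73746) (nat_lit 3) (.e (nat_lit 516119) (nat_lit 1) (.e (nat_lit 164184) (nat_lit 155) (.e (nat_lit 122892) (nat_lit 3) .nil))))))) (.g (nat_lit 4) .nil .nil))) 
(.lf (nat_lit 225529) (.g (nat_lit 2121) (.e (nat_lit 98342) (nat_lit 20) (.e (nat_lit 221212) (nat_lit 22) (.e (nat_lit 196669) (nat_lit 14) (.e (nat_lit 73755) (nat_lit 8) (.e (nat_lit 557091) (nat_lit 12) (.e (nat_lit 163999) (nat_lit 38) (.e (nat_lit 639007) (nat_lit 13) (.e (nat_lit 1256) (nat_lit 92) .nil)))))))) (.g (nat_lit 4) .nil .nil)))))) 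
(.nd (nat_lit 3) (.nd (nat_lit 4) (.nd (nat_lit 5) 
(.lf (nat_lit 225477) (.g (nat_lit 4677) (.e (nat_lit 98342) (nat_lit 20) (.e (nat_lit 221211) (nat_lit 22) (.e (nat_lit 196666) (nat_lit 13) (.e (nat_lit 65571) (nat_lit 3) (.e (nat_lit 98333) (nat_lit 18) (.e (nat_lit 164183) (nat_lit 154) (.e (nat_lit 57378) (nat_lit 3) .nil))))))) (.g (nat_lit 0) .nil .nil))) 
(.lf (nat_lit 225509) (.g (nat_lit 2679) (.e (nat_lit 98342) (nat_lit 20) (.e (nat_lit 221212) (nat_lit 22) (.e (nat_lit 196668) (nat_lit 14) (.e (nat_lit 73747) (nat_lit 3) (.e (nat_lit 516117) (nat_lit 1) (.e (nat_lit 164180) (nat_lit 154) (.e (nat_lit 57376) (nat_lit 3) .nil))))))) (.g (nat_lit 5) .nil .nil)))) (.nd (nat_lit 5) 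
(.lf (nat_lit 225493) (.g (nat_lit 3097) (.e (nat_lit 98342) (nat_lit 20) (.e (nat_lit 221212) (nat_lit 22) (.e (nat_lit 196668) (nat_lit 14) (.e (nat_lit 73746) (nat_lit 3) (.e (nat_lit 516119) (nat_lit 1) (.e (nat_lit 164150) (nat_lit 152) (.e (nat_lit 974) (nat_lit 81) (.e (nat_lit 1256) (nat_lit 92) .nil)))))))) (.g (nat_lit 5) .nil .nil))) 
(.lf (nat_lit 225525) (.g (nat_lit 2922) (.e (nat_lit 98342) (nat_lit 20) (.e (nat_lit 221212) (nat_lit 22) (.e (nat_lit 196668) (nat_lit 14) (.e (nat_lit 73750) (nat_lit 6) (.e (nat_lit 540675) (nat_lit 0) (.e (nat_lit 2270) (nat_lit 149) (.e (nat_lit 761867) (nat_lit 5) (.e (nat_lit 1246) (nat_lit 92) .nil)))))))) (.g (nat_lit 6) .nil .nil))))) (.nd (nat_lit 4) (.nd (nat_lit 5) 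
(.lf (nat_lit 225485) (.g (nat_lit 2283) (.e (nat_lit 98342) (nat_lit 20) (.e (nat_lit 221211) (nat_lit 22) (.e (nat_lit 196670) (nat_lit 14) (.e (nat_lit 73746) (nat_lit 3) (.e (nat_lit 516119) (nat_lit 1) (.e (nat_lit 164149) (nat_lit 152) (.e (nat_lit 974) (nat_lit 81) (.e (nat_lit 1256) (nat_lit 92) .nil)))))))) (.g (nat_lit 4) .nil .nil))) 
(.lf (nat_lit 225517) (.g (nat_lit 3379) (.e (nat_lit 98342) (nat_lit 20) (.e (nat_lit 221212) (nat_lit 22) (.e (nat_lit 196668) (nat_lit 14) (.e (nat_lit 73747) (nat_lit 3) (.e (nat_lit 516119) (nat_lit 1) (.e (nat_lit 164178) (nat_lit 154) (.e (nat_lit 57376) (nat_lit 3) .nil))))))) (.g (nat_lit 6) .nil .nil)))) (.nd (nat_lit 5) 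
(.lf (nat_lit 225501) (.g (nat_lit 2451) (.e (nat_lit 98342) (nat_lit 20) (.e (nat_lit 221212) (nat_lit 22) (.e (nat_lit 196668) (nat_lit 14) (.e (nat_lit 73746) (nat_lit 3) (.e (nat_lit 516120) (nat_lit 1) (.e (nat_lit 164184) (nat_lit 155) (.e (nat_lit 122892) (nat_lit 3) .nil))))))) (.g (nat_lit 4) .nil .nil))) 
(.lf (nat_lit 225533) (.g (nat_lit 3781) (.e (nat_lit 98342) (nat_lit 20) (.e (nat_lit 221212) (nat_lit 22) (.e (nat_lit 196670) (nat_lit 14) (.e (nat_lit 73746) (nat_lit 3) (.e (nat_lit 516115) (nat_lit 1) (.e (nat_lit 164183) (nat_lit 154) (.e (nat_lit 57376) (nat_lit 3) .nil))))))) (.g (nat_lit 7) .nil .nil))))))) (.nd (nat_lit 2) (.nd (nat_lit 3) (.nd (nat_lit 4) (.nd (nat_lit 5) 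
(.lf (nat_lit 225475) (.g (nat_lit 2968) (.e (nat_lit 98342) (nat_lit 20) (.e (nat_lit 221211) (nat_lit 22) (.e (nat_lit 196666) (nat_lit 13) (.e (nat_lit 65571) (nat_lit 3) (.e (nat_lit 98333) (nat_lit 18) (.e (nat_lit 164182) (nat_lit 154) (.e (nat_lit 57376) (nat_lit 3) .nil))))))) (.g (nat_lit 5) .nil .nil))) 
(.lf (nat_lit 225507) (.g (nat_lit 2766) (.e (nat_lit 98342) (nat_lit 20) (.e (nat_lit 221212) (nat_lit 22) (.e (nat_lit 196668) (nat_lit 14) (.e (nat_lit 73747) (nat_lit 3) (.e (nat_lit 516117) (nat_lit 1) (.e (nat_lit 164147) (nat_lit 152) (.e (nat_lit 974) (nat_lit 81) (.e (nat_lit 1256) (nat_lit 92) .nil)))))))) (.g (nat_lit 5) .nil .nil)))) (.nd (nat_lit 5) 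
(.lf (nat_lit 225491) (.g (nat_lit 2206) (.e (nat_lit 98342) (nat_lit 20) (.e (nat_lit 221212) (nat_lit 22) (.e (nat_lit 196668) (nat_lit 14) (.e (nat_lit 73746) (nat_lit 3) (.e (nat_lit 516117) (nat_lit 1) (.e (nat_lit 164182) (nat_lit 154) (.e (nat_lit 57376) (nat_lit 3) .nil))))))) (.g (nat_lit 4) .nil .nil))) 
(.lf (nat_lit 225523) (.g (nat_lit 2949) (.e (nat_lit 98342) (nat_lit 20) (.e (nat_lit 221212) (nat_lit 22) (.e (nat_lit 196668) (nat_lit 14) (.e (nat_lit 73747) (nat_lit 3) (.e (nat_lit 516120) (nat_lit 1) (.e (nat_lit 164182) (nat_lit 154) (.e (nat_lit 57376) (nat_lit 3) .nil))))))) (.g (nat_lit 5) .nil .nil))))) (.nd (nat_lit 4) (.nd (nat_lit 5) 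
(.lf (nat_lit 225483) (.g (nat_lit 3591) (.e (nat_lit 98342) (nat_lit 20) (.e (nat_lit 221211) (nat_lit 22) (.e (nat_lit 196666) (nat_lit 13) (.e (nat_lit 65571) (nat_lit 3) (.e (nat_lit 98335) (nat_lit 18) (.e (nat_lit 164183) (nat_lit 154) (.e (nat_lit 57378) (nat_lit 3) .nil))))))) (.g (nat_lit 5) .nil .nil))) 
(.lf (nat_lit 225515) (.g (nat_lit 2396) (.e (nat_lit 98342) (nat_lit 20) (.e (nat_lit 221212) (nat_lit 22) (.e (nat_lit 196668) (nat_lit 14) (.e (nat_lit 73747) (nat_lit 3) (.e (nat_lit 516119) (nat_lit 1) (.e (nat_lit 164153) (nat_lit 152) (.e (nat_lit 999) (nat_lit 81) (.e (nat_lit 1256) (nat_lit 92) .nil)))))))) (.g (nat_lit 4) .nil .nil)))) (.nd (nat_lit 5) 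
(.lf (nat_lit 225499) (.g (nat_lit 2721) (.e (nat_lit 98342) (nat_lit 20) (.e (nat_lit 221212) (nat_lit 22) (.e (nat_lit 196668) (nat_lit 14) (.e (nat_lit 73746) (nat_lit 3) (.e (nat_lit 516120) (nat_lit 1) (.e (nat_lit 164181) (nat_lit 154) (.e (nat_lit 57376) (nat_lit 3) .nil))))))) (.g (nat_lit 5) .nil .nil))) 
(.lf (nat_lit 225531) (.g (nat_lit 2649) (.e (nat_lit 98342) (nat_lit 20) (.e (nat_lit 221212) (nat_lit 22) (.e (nat_lit 196670) (nat_lit 14) (.e (nat_lit 73746) (nat_lit 3) (.e (nat_lit 516115) (nat_lit 1) (.e (nat_lit 164149) (nat_lit 152) (.e (nat_lit 974) (nat_lit 81) (.e (nat_lit 1256) (nat_lit 92) .nil)))))))) (.g (nat_lit 5) .nil .nil)))))) 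
(.nd (nat_lit 3) (.nd (nat_lit 4) (.nd (nat_lit 5) 
(.lf (nat_lit 225479) (.g (nat_lit 3658) (.e (nat_lit 98342) (nat_lit 20) (.e (nat_lit 221211) (nat_lit 22) (.e (nat_lit 196666) (nat_lit 13) (.e (nat_lit 65571) (nat_lit 3) (.e (nat_lit 98334) (nat_lit 18) (.e (nat_lit 164159) (nat_lit 152) (.e (nat_lit 1016) (nat_lit 81) (.e (nat_lit 1256) (nat_lit 92) .nil)))))))) (.g (nat_lit 6) .nil .nil))) 
(.lf (nat_lit 225511) (.g (nat_lit 2745) (.e (nat_lit 98342) (nat_lit 20) (.e (nat_lit 221212) (nat_lit 22) (.e (nat_lit 196668) (nat_lit 14) (.e (nat_lit 73747) (nat_lit 3) (.e (nat_lit 516117) (nat_lit 1) (.e (nat_lit 164182) (nat_lit 154) (.e (nat_lit 57376) (nat_lit 3) .nil))))))) (.g (nat_lit 6) .nil .nil)))) (.nd (nat_lit 5) 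
(.lf (nat_lit 225495) (.g (nat_lit 2158) (.e (nat_lit 98342) (nat_lit 20) (.e (nat_lit 221212) (nat_lit 22) (.e (nat_lit 196668) (nat_lit 14) (.e (nat_lit 73746) (nat_lit 3) (.e (nat_lit 516119) (nat_lit 1) (.e (nat_lit 164178) (nat_lit 154) (.e (nat_lit 57376) (nat_lit 3) .nil))))))) (.g (nat_lit 4) .nil .nil))) 
(.lf (nat_lit 225527) (.g (nat_lit 2024) (.e (nat_lit 98342) (nat_lit 20) (.e (nat_lit 221212) (nat_lit 22) (.e (nat_lit 196669) (nat_lit 14) (.e (nat_lit 81664) (nat_lit 5) (.e (nat_lit 532499) (nat_lit 1) (.e (nat_lit 57684) (nat_lit 155) (.e (nat_lit 122892) (nat_lit 3) .nil))))))) (.g (nat_lit 5) .nil .nil))))) (.nd (nat_lit 4) (.nd (nat_lit 5) 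
(.lf (nat_lit 225487) (.g (nat_lit 4445) (.e (nat_lit 98342) (nat_lit 20) (.e (nat_lit 221212) (nat_lit 22) (.e (nat_lit 196660) (nat_lit 12) (.e (nat_lit 57354) (nat_lit 0) (.e (nat_lit 5195) (nat_lit 294) (.e (nat_lit 57379) (nat_lit 3) (.e (nat_lit 98313) (nat_lit 9) (.e (nat_lit 336027) (nat_lit 3) .nil)))))))) (.g (nat_lit 8) .nil .nil))) 
(.lf (nat_lit 225519) (.g (nat_lit 3091) (.e (nat_lit 98342) (nat_lit 20) (.e (nat_lit 221212) (nat_lit 22) (.e (nat_lit 196668) (nat_lit 14) (.e (nat_lit 73747) (nat_lit 3) (.e (nat_lit 516119) (nat_lit 1) (.e (nat_lit 164180) (nat_lit 154) (.e (nat_lit 57376) (nat_lit 3) .nil))))))) (.g (nat_lit 5) .nil .nil)))) (.nd (nat_lit 5) 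
(.lf (nat_lit 225503) (.g (nat_lit 3380) (.e (nat_lit 98342) (nat_lit 20) (.e (nat_lit 221212) (nat_lit 22) (.e (nat_lit 196668) (nat_lit 14) (.e (nat_lit 73747) (nat_lit 3) (.e (nat_lit 516115) (nat_lit 1) (.e (nat_lit 164149) (nat_lit 152) (.e (nat_lit 974) (nat_lit 81) (.e (nat_lit 1256) (nat_lit 92) .nil)))))))) (.g (nat_lit 5) .nil .nil))) 
(.lf (nat_lit 225535) (.g (nat_lit 2184) (.e (nat_lit 98342) (nat_lit 20) (.e (nat_lit 221212) (nat_lit 22) (.e (nat_lit 196670) (nat_lit 14) (.e (nat_lit 73746) (nat_lit 3) (.e (nat_lit 516116) (nat_lit 1) (.e (nat_lit 164183) (nat_lit 154) (.e (nat_lit 57378) (nat_lit 3) .nil))))))) (.g (nat_lit 4) .nil .nil)))))))))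

noncomputable def tv2957 : DT := (.nd (nat_lit 0) (.nd (nat_lit 1) (.nd (nat_lit 2) (.nd (nat_lit 3) (.nd (nat_lit 4) (.nd (nat_lit 5) 
(.lf (nat_lit 225536) (.g (nat_lit 2526) (.e (nat_lit 98342) (nat_lit 20) (.e (nat_lit 221212) (nat_lit 22) (.e (nat_lit 196670) (nat_lit 14) (.e (nat_lit 73746) (nat_lit 3) (.e (nat_lit 516117) (nat_lit 1) (.e (nat_lit 164147) (nat_lit 152) (.e (nat_lit 988) (nat_lit 81) (.e (nat_lit 1245) (nat_lit 92) .nil)))))))) (.g (nat_lit 4) .nil .nil))) 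
(.lf (nat_lit 225568) (.g (nat_lit 938) (.e (nat_lit 98342) (nat_lit 20) (.e (nat_lit 221212) (nat_lit 22) (.e (nat_lit 196681) (nat_lit 17) (.e (nat_lit 131091) (nat_lit 2) .nil)))) .nil))) (.nd (nat_lit 5) 
(.lf (nat_lit 225552) (.g (nat_lit 3240) (.e (nat_lit 98342) (nat_lit 20) (.e (nat_lit 221212) (nat_lit 22) (.e (nat_lit 196670) (nat_lit 14) (.e (nat_lit 73746) (nat_lit 3) (.e (nat_lit 516119) (nat_lit 1) (.e (nat_lit 164176) (nat_lit 154) (.e (nat_lit 57376) (nat_lit 3) .nil))))))) (.g (nat_lit 6) .nil .nil))) 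
(.lf (nat_lit 225584) (.g (nat_lit 3904) (.e (nat_lit 98342) (nat_lit 20) (.e (nat_lit 221214) (nat_lit 23) (.e (nat_lit 204829) (nat_lit 18) (.e (nat_lit 57847) (nat_lit 252) (.e (nat_lit 57378) (nat_lit 3) (.e (nat_lit 98313) (nat_lit 9) (.e (nat_lit 336027) (nat_lit 3) .nil))))))) (.g (nat_lit 5) .nil .nil))))) (.nd (nat_lit 4) (.nd (nat_lit 5) 
(.lf (nat_lit 225544) (.g (nat_lit 2379) (.e (nat_lit 98342) (nat_lit 20) (.e (nat_lit 221212) (nat_lit 22) (.e (nat_lit 196670) (nat_lit 14) (.e (nat_lit 73746) (nat_lit 3) (.e (nat_lit 516117) (nat_lit 1) (.e (nat_lit 164176) (nat_lit 154) (.e (nat_lit 57376) (nat_lit 3) .nil))))))) (.g (nat_lit 5) .nil .nil))) 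
(.lf (nat_lit 225576) (.g (nat_lit 2089) (.e (nat_lit 98342) (nat_lit 20) (.e (nat_lit 221212) (nat_lit 22) (.e (nat_lit 196681) (nat_lit 17) (.e (nat_lit 131098) (nat_lit 3) (.e (nat_lit 98333) (nat_lit 18) (.e (nat_lit 164177) (nat_lit 154) (.e (nat_lit 57376) (nat_lit 3) .nil))))))) (.g (nat_lit 4) .nil .nil)))) (.nd (nat_lit 5) 
(.lf (nat_lit 225560) (.g (nat_lit 2276) (.e (nat_lit 98342) (nat_lit 20) (.e (nat_lit 221212) (nat_lit 22) (.e (nat_lit 196670) (nat_lit 14) (.e (nat_lit 73746) (nat_lit 3) (.e (nat_lit 516120) (nat_lit 1) (.e (nat_lit 164147) (nat_lit 152) (.e (nat_lit 991) (nat_lit 81) (.e (nat_lit 1245) (nat_lit 92) .nil)))))))) (.g (nat_lit 4) .nil .nil))) 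
(.lf (nat_lit 225592) (.g (nat_lit 4070) (.e (nat_lit 98342) (nat_lit 20) (.e (nat_lit 221214) (nat_lit 23) (.e (nat_lit 204852) (nat_lit 26) (.e (nat_lit 336324) (nat_lit 18) (.e (nat_lit 204831) (nat_lit 18) (.e (nat_lit 57830) (nat_lit 250) (.e (nat_lit 999) (nat_lit 81) (.e (nat_lit 1256) (nat_lit 92) .nil)))))))) (.g (nat_lit 5) .nil .nil)))))) 
(.nd (nat_lit 3) (.nd (nat_lit 4) (.nd (nat_lit 5) 
(.lf (nat_lit 225540) (.g (nat_lit 2760) (.e (nat_lit 98342) (nat_lit 20) (.e (nat_lit 221212) (nat_lit 22) (.e (nat_lit 196670) (nat_lit 14) (.e (nat_lit 73746) (nat_lit 3) (.e (nat_lit 516117) (nat_lit 1) (.e (nat_lit 164157) (nat_lit 152) (.e (nat_lit 1027) (nat_lit 81) (.e (nat_lit 1255) (nat_lit 92) .nil)))))))) (.g (nat_lit 4) .nil .nil))) 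
(.lf (nat_lit 225572) (.g (nat_lit 3154) (.e (nat_lit 98342) (nat_lit 20) (.e (nat_lit 221212) (nat_lit 22) (.e (nat_lit 196681) (nat_lit 17) (.e (nat_lit 131096) (nat_lit 3) (.e (nat_lit 98333) (nat_lit 18) (.e (nat_lit 164183) (nat_lit 154) (.e (nat_lit 57376) (nat_lit 3) .nil))))))) (.g (nat_lit 6) .nil .nil)))) (.nd (nat_lit 5) 
(.lf (nat_lit 225556) (.g (nat_lit 3400) (.e (nat_lit 98342) (nat_lit 20) (.e (nat_lit 221212) (nat_lit 22) (.e (nat_lit 196670) (nat_lit 14) (.e (nat_lit 73746) (nat_lit 3) (.e (nat_lit 516119) (nat_lit 1) (.e (nat_lit 164184) (nat_lit 155) (.e (nat_lit 122892) (nat_lit 3) .nil))))))) (.g (nat_lit 6) .nil .nil))) 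
(.lf (nat_lit 225588) (.g (nat_lit 2793) (.e (nat_lit 98342) (nat_lit 20) (.e (nat_lit 221214) (nat_lit 23) (.e (nat_lit 204830) (nat_lit 18) (.e (nat_lit 57852) (nat_lit 252) (.e (nat_lit 57378) (nat_lit 3) (.e (nat_lit 98317) (nat_lit 9) (.e (nat_lit 336027) (nat_lit 3) .nil))))))) (.g (nat_lit 4) .nil .nil))))) (.nd (nat_lit 4) (.nd (nat_lit 5) 
(.lf (nat_lit 225548) (.g (nat_lit 3836) (.e (nat_lit 98342) (nat_lit 20) (.e (nat_lit 221212) (nat_lit 22) (.e (nat_lit 196670) (nat_lit 14) (.e (nat_lit 73746) (nat_lit 3) (.e (nat_lit 516118) (nat_lit 1) (.e (nat_lit 164183) (nat_lit 154) (.e (nat_lit 57378) (nat_lit 3) .nil))))))) (.g (nat_lit 7) .nil .nil))) 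
(.lf (nat_lit 225580) (.g (nat_lit 3071) (.e (nat_lit 98342) (nat_lit 20) (.e (nat_lit 221212) (nat_lit 22) (.e (nat_lit 196681) (nat_lit 17) (.e (nat_lit 131098) (nat_lit 3) (.e (nat_lit 98334) (nat_lit 18) (.e (nat_lit 164183) (nat_lit 154) (.e (nat_lit 57376) (nat_lit 3) .nil))))))) (.g (nat_lit 6) .nil .nil)))) (.nd (nat_lit 5) 
(.lf (nat_lit 225564) (.g (nat_lit 2762) (.e (nat_lit 98342) (nat_lit 20) (.e (nat_lit 221212) (nat_lit 22) (.e (nat_lit 196670) (nat_lit 14) (.e (nat_lit 73746) (nat_lit 3) (.e (nat_lit 516120) (nat_lit 1) (.e (nat_lit 164159) (nat_lit 152) (.e (nat_lit 1016) (nat_lit 81) (.e (nat_lit 1256) (nat_lit 92) .nil)))))))) (.g (nat_lit 5) .nil .nil))) 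
(.lf (nat_lit 225596) (.g (nat_lit 1390) (.e (nat_lit 98342) (nat_lit 20) (.e (nat_lit 221214) (nat_lit 23) (.e (nat_lit 204861) (nat_lit 26) (.e (nat_lit 336012) (nat_lit 2) .nil)))) .nil)))))) (.nd (nat_lit 2) (.nd (nat_lit 3) (.nd (nat_lit 4) (.nd (nat_lit 5) 
(.lf (nat_lit 225538) (.g (nat_lit 2041) (.e (nat_lit 98342) (nat_lit 20) (.e (nat_lit 221212) (nat_lit 22) (.e (nat_lit 196670) (nat_lit 14) (.e (nat_lit 73746) (nat_lit 3) (.e (nat_lit 516117) (nat_lit 1) (.e (nat_lit 164147) (nat_lit 152) (.e (nat_lit 1016) (nat_lit 81) (.e (nat_lit 1256) (nat_lit 92) .nil)))))))) (.g (nat_lit 4) .nil .nil))) 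
(.lf (nat_lit 225570) (.g (nat_lit 890) (.e (nat_lit 98342) (nat_lit 20) (.e (nat_lit 221212) (nat_lit 22) (.e (nat_lit 196681) (nat_lit 17) (.e (nat_lit 131096) (nat_lit 3) .nil)))) .nil))) (.nd (nat_lit 5) 
(.lf (nat_lit 225554) (.g (nat_lit 3649) (.e (nat_lit 98342) (nat_lit 20) (.e (nat_lit 221212) (nat_lit 22) (.e (nat_lit 196670) (nat_lit 14) (.e (nat_lit 73746) (nat_lit 3) (.e (nat_lit 516119) (nat_lit 1) (.e (nat_lit 164179) (nat_lit 154) (.e (nat_lit 57376) (nat_lit 3) .nil))))))) (.g (nat_lit 6) .nil .nil))) 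
(.lf (nat_lit 225586) (.g (nat_lit 2341) (.e (nat_lit 98342) (nat_lit 20) (.e (nat_lit 221214) (nat_lit 23) (.e (nat_lit 204830) (nat_lit 18) (.e (nat_lit 57830) (nat_lit 250) (.e (nat_lit 1175) (nat_lit 87) .nil))))) .nil)))) (.nd (nat_lit 4) (.nd (nat_lit 5) 
(.lf (nat_lit 225546) (.g (nat_lit 3366) (.e (nat_lit 98342) (nat_lit 20) (.e (nat_lit 221212) (nat_lit 22) (.e (nat_lit 196670) (nat_lit 14) (.e (nat_lit 73746) (nat_lit 3) (.e (nat_lit 516117) (nat_lit 1) (.e (nat_lit 164183) (nat_lit 154) (.e (nat_lit 57376) (nat_lit 3) .nil))))))) (.g (nat_lit 6) .nil .nil))) 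
(.lf (nat_lit 225578) (.g (nat_lit 3359) (.e (nat_lit 98342) (nat_lit 20) (.e (nat_lit 221212) (nat_lit 22) (.e (nat_lit 196681) (nat_lit 17) (.e (nat_lit 131098) (nat_lit 3) (.e (nat_lit 98333) (nat_lit 18) (.e (nat_lit 164183) (nat_lit 154) (.e (nat_lit 57376) (nat_lit 3) .nil))))))) (.g (nat_lit 6) .nil .nil)))) (.nd (nat_lit 5) 
(.lf (nat_lit 225562) (.g (nat_lit 2201) (.e (nat_lit 98342) (nat_lit 20) (.e (nat_lit 221212) (nat_lit 22) (.e (nat_lit 196670) (nat_lit 14) (.e (nat_lit 73746) (nat_lit 3) (.e (nat_lit 516120) (nat_lit 1) (.e (nat_lit 164158) (nat_lit 152) (.e (nat_lit 1016) (nat_lit 81) (.e (nat_lit 1256) (nat_lit 92) .nil)))))))) (.g (nat_lit 4) .nil .nil))) 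
(.lf (nat_lit 225594) (.g (nat_lit 4298) (.e (nat_lit 98342) (nat_lit 20) (.e (nat_lit 221214) (nat_lit 23) (.e (nat_lit 204852) (nat_lit 26) (.e (nat_lit 336326) (nat_lit 18) (.e (nat_lit 204831) (nat_lit 18) (.e (nat_lit 57852) (nat_lit 252) (.e (nat_lit 57376) (nat_lit 3) .nil))))))) (.g (nat_lit 6) .nil .nil)))))) (.nd (nat_lit 3) (.nd (nat_lit 4) (.nd (nat_lit 5) 
(.lf (nat_lit 225542) (.g (nat_lit 2531) (.e (nat_lit 98342) (nat_lit 20) (.e (nat_lit 221212) (nat_lit 22) (.e (nat_lit 196670) (nat_lit 14) (.e (nat_lit 73746) (nat_lit 3) (.e (nat_lit 516117) (nat_lit 1) (.e (nat_lit 164159) (nat_lit 152) (.e (nat_lit 1005) (nat_lit 81) (.e (nat_lit 1243) (nat_lit 92) .nil)))))))) (.g (nat_lit 4) .nil .nil))) 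
(.lf (nat_lit 225574) (.g (nat_lit 2844) (.e (nat_lit 98342) (nat_lit 20) (.e (nat_lit 221212) (nat_lit 22) (.e (nat_lit 196681) (nat_lit 17) (.e (nat_lit 131096) (nat_lit 3) (.e (nat_lit 98334) (nat_lit 18) (.e (nat_lit 164183) (nat_lit 154) (.e (nat_lit 57376) (nat_lit 3) .nil))))))) (.g (nat_lit 6) .nil .nil)))) (.nd (nat_lit 5) 
(.lf (nat_lit 225558) (.g (nat_lit 2290) (.e (nat_lit 98342) (nat_lit 20) (.e (nat_lit 221212) (nat_lit 22) (.e (nat_lit 196670) (nat_lit 14) (.e (nat_lit 73746) (nat_lit 3) (.e (nat_lit 516120) (nat_lit 1) (.e (nat_lit 164147) (nat_lit 152) (.e (nat_lit 988) (nat_lit 81) (.e (nat_lit 1245) (nat_lit 92) .nil)))))))) (.g (nat_lit 4) .nil .nil))) 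
(.lf (nat_lit 225590) (.g (nat_lit 2557) (.e (nat_lit 98342) (nat_lit 20) (.e (nat_lit 221214) (nat_lit 23) (.e (nat_lit 204831) (nat_lit 18) (.e (nat_lit 57852) (nat_lit 252) (.e (nat_lit 57377) (nat_lit 3) .nil))))) .nil)))) (.nd (nat_lit 4) (.nd (nat_lit 5) 
(.lf (nat_lit 225550) (.g (nat_lit 2414) (.e (nat_lit 98342) (nat_lit 20) (.e (nat_lit 221212) (nat_lit 22) (.e (nat_lit 196670) (nat_lit 14) (.e (nat_lit 73746) (nat_lit 3) (.e (nat_lit 516119) (nat_lit 1) (.e (nat_lit 164147) (nat_lit 152) (.e (nat_lit 990) (nat_lit 81) (.e (nat_lit 1245) (nat_lit 92) .nil)))))))) (.g (nat_lit 4) .nil .nil))) 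
(.lf (nat_lit 225582) (.g (nat_lit 3030) (.e (nat_lit 98342) (nat_lit 20) (.e (nat_lit 221213) (nat_lit 23) (.e (nat_lit 204829) (nat_lit 18) (.e (nat_lit 57849) (nat_lit 252) (.e (nat_lit 57379) (nat_lit 3) (.e (nat_lit 98313) (nat_lit 9) (.e (nat_lit 336027) (nat_lit 3) .nil))))))) (.g (nat_lit 5) .nil .nil)))) (.nd (nat_lit 5) 
(.lf (nat_lit 225566) (.g (nat_lit 3597) (.e (nat_lit 98342) (nat_lit 20) (.e (nat_lit 221212) (nat_lit 22) (.e (nat_lit 196670) (nat_lit 14) (.e (nat_lit 73746) (nat_lit 3) (.e (nat_lit 516120) (nat_lit 1) (.e (nat_lit 164182) (nat_lit 154) (.e (nat_lit 57376) (nat_lit 3) .nil))))))) (.g (nat_lit 6) .nil .nil))) 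
(.lf (nat_lit 225598) (.g (nat_lit 3875) (.e (nat_lit 98342) (nat_lit 20) (.e (nat_lit 221214) (nat_lit 23) (.e (nat_lit 204862) (nat_lit 27) (.e (nat_lit 344117) (nat_lit 21) (.e (nat_lit 516115) (nat_lit 1) (.e (nat_lit 164179) (nat_lit 154) (.e (nat_lit 57378) (nat_lit 3) .nil))))))) (.g (nat_lit 6) .nil .nil)))))))) 
(.nd (nat_lit 1) (.nd (nat_lit 2) (.nd (nat_lit 3) (.nd (nat_lit 4) (.nd (nat_lit 5) 
(.lf (nat_lit 225537) (.g (nat_lit 2512) (.e (nat_lit 98342) (nat_lit 20) (.e (nat_lit 221212) (nat_lit 22) (.e (nat_lit 196670) (nat_lit 14) (.e (nat_lit 73746) (nat_lit 3) (.e (nat_lit 516117) (nat_lit 1) (.e (nat_lit 164147) (nat_lit 152) (.e (nat_lit 991) (nat_lit 81) (.e (nat_lit 1245) (nat_lit 92) .nil)))))))) (.g (nat_lit 4) .nil .nil))) 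
(.lf (nat_lit 225569) (.g (nat_lit 1180) (.e (nat_lit 98342) (nat_lit 20) (.e (nat_lit 221212) (nat_lit 22) (.e (nat_lit 196681) (nat_lit 17) (.e (nat_lit 131093) (nat_lit 2) .nil)))) .nil))) (.nd (nat_lit 5) 
(.lf (nat_lit 225553) (.g (nat_lit 3205) (.e (nat_lit 98342) (nat_lit 20) (.e (nat_lit 221212) (nat_lit 22) (.e (nat_lit 196670) (nat_lit 14) (.e (nat_lit 73746) (nat_lit 3) (.e (nat_lit 516119) (nat_lit 1) (.e (nat_lit 164178) (nat_lit 154) (.e (nat_lit 57376) (nat_lit 3) .nil))))))) (.g (nat_lit 6) .nil .nil))) 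
(.lf (nat_lit 225585) (.g (nat_lit 1623) (.e (nat_lit 98342) (nat_lit 20) (.e (nat_lit 221214) (nat_lit 23) (.e (nat_lit 204829) (nat_lit 18) (.e (nat_lit 57854) (nat_lit 252) .nil)))) .nil)))) (.nd (nat_lit 4) (.nd (nat_lit 5) 
(.lf (nat_lit 225545) (.g (nat_lit 3243) (.e (nat_lit 98342) (nat_lit 20) (.e (nat_lit 221212) (nat_lit 22) (.e (nat_lit 196670) (nat_lit 14) (.e (nat_lit 73746) (nat_lit 3) (.e (nat_lit 516117) (nat_lit 1) (.e (nat_lit 164182) (nat_lit 154) (.e (nat_lit 57376) (nat_lit 3) .nil))))))) (.g (nat_lit 6) .nil .nil))) 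
(.lf (nat_lit 225577) (.g (nat_lit 3294) (.e (nat_lit 98342) (nat_lit 20) (.e (nat_lit 221212) (nat_lit 22) (.e (nat_lit 196681) (nat_lit 17) (.e (nat_lit 131098) (nat_lit 3) (.e (nat_lit 98333) (nat_lit 18) (.e (nat_lit 164179) (nat_lit 154) (.e (nat_lit 57376) (nat_lit 3) .nil))))))) (.g (nat_lit 6) .nil .nil)))) (.nd (nat_lit 5) 
(.lf (nat_lit 225561) (.g (nat_lit 2160) (.e (nat_lit 98342) (nat_lit 20) (.e (nat_lit 221212) (nat_lit 22) (.e (nat_lit 196670) (nat_lit 14) (.e (nat_lit 73746) (nat_lit 3) (.e (nat_lit 516120) (nat_lit 1) (.e (nat_lit 164147) (nat_lit 152) (.e (nat_lit 999) (nat_lit 81) (.e (nat_lit 1256) (nat_lit 92) .nil)))))))) (.g (nat_lit 4) .nil .nil))) 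
(.lf (nat_lit 225593) (.g (nat_lit 4871) (.e (nat_lit 98342) (nat_lit 20) (.e (nat_lit 221214) (nat_lit 23) (.e (nat_lit 204852) (nat_lit 26) (.e (nat_lit 336324) (nat_lit 18) (.e (nat_lit 204831) (nat_lit 18) (.e (nat_lit 57852) (nat_lit 252) (.e (nat_lit 57376) (nat_lit 3) .nil))))))) (.g (nat_lit 6) .nil .nil)))))) (.nd (nat_lit 3) (.nd (nat_lit 4) (.nd (nat_lit 5) 
(.lf (nat_lit 225541) (.g (nat_lit 2230) (.e (nat_lit 98342) (nat_lit 20) (.e (nat_lit 221212) (nat_lit 22) (.e (nat_lit 196670) (nat_lit 14) (.e (nat_lit 73746) (nat_lit 3) (.e (nat_lit 516117) (nat_lit 1) (.e (nat_lit 164158) (nat_lit 152) (.e (nat_lit 1016) (nat_lit 81) (.e (nat_lit 1256) (nat_lit 92) .nil)))))))) (.g (nat_lit 4) .nil .nil))) 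
(.lf (nat_lit 225573) (.g (nat_lit 2934) (.e (nat_lit 98342) (nat_lit 20) (.e (nat_lit 221212) (nat_lit 22) (.e (nat_lit 196681) (nat_lit 17) (.e (nat_lit 131096) (nat_lit 3) (.e (nat_lit 98334) (nat_lit 18) (.e (nat_lit 164182) (nat_lit 154) (.e (nat_lit 57376) (nat_lit 3) .nil))))))) (.g (nat_lit 6) .nil .nil)))) (.nd (nat_lit 5) 
(.lf (nat_lit 225557) (.g (nat_lit 2632) (.e (nat_lit 98342) (nat_lit 20) (.e (nat_lit 221212) (nat_lit 22) (.e (nat_lit 196670) (nat_lit 14) (.e (nat_lit 73746) (nat_lit 3) (.e (nat_lit 516119) (nat_lit 1) (.e (nat_lit 164184) (nat_lit 155) (.e (nat_lit 122893) (nat_lit 3) .nil))))))) (.g (nat_lit 4) .nil .nil))) 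
(.lf (nat_lit 225589) (.g (nat_lit 2558) (.e (nat_lit 98342) (nat_lit 20) (.e (nat_lit 221214) (nat_lit 23) (.e (nat_lit 204830) (nat_lit 18) (.e (nat_lit 57926) (nat_lit 282) (.e (nat_lit 163865) (nat_lit 2) .nil))))) .nil)))) (.nd (nat_lit 4) (.nd (nat_lit 5) 
(.lf (nat_lit 225549) (.g (nat_lit 3110) (.e (nat_lit 98342) (nat_lit 20) (.e (nat_lit 221212) (nat_lit 22) (.e (nat_lit 196670) (nat_lit 14) (.e (nat_lit 73746) (nat_lit 3) (.e (nat_lit 516119) (nat_lit 1) (.e (nat_lit 164147) (nat_lit 152) (.e (nat_lit 974) (nat_lit 81) (.e (nat_lit 1256) (nat_lit 92) .nil)))))))) (.g (nat_lit 5) .nil .nil))) 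
(.lf (nat_lit 225581) (.g (nat_lit 3110) (.e (nat_lit 98342) (nat_lit 20) (.e (nat_lit 221213) (nat_lit 23) (.e (nat_lit 204829) (nat_lit 18) (.e (nat_lit 57849) (nat_lit 252) (.e (nat_lit 57377) (nat_lit 3) (.e (nat_lit 98313) (nat_lit 9) (.e (nat_lit 336027) (nat_lit 3) .nil))))))) (.g (nat_lit 5) .nil .nil)))) (.nd (nat_lit 5) 
(.lf (nat_lit 225565) (.g (nat_lit 2942) (.e (nat_lit 98342) (nat_lit 20) (.e (nat_lit 221212) (nat_lit 22) (.e (nat_lit 196670) (nat_lit 14) (.e (nat_lit 73746) (nat_lit 3) (.e (nat_lit 516120) (nat_lit 1) (.e (nat_lit 164180) (nat_lit 154) (.e (nat_lit 57376) (nat_lit 3) .nil))))))) (.g (nat_lit 5) .nil .nil))) 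
(.lf (nat_lit 225597) (.g (nat_lit 3622) (.e (nat_lit 98342) (nat_lit 20) (.e (nat_lit 221214) (nat_lit 23) (.e (nat_lit 204861) (nat_lit 26) (.e (nat_lit 336027) (nat_lit 3) (.e (nat_lit 98333) (nat_lit 18) (.e (nat_lit 164182) (nat_lit 154) (.e (nat_lit 57379) (nat_lit 3) .nil))))))) (.g (nat_lit 5) .nil .nil))))))) (.nd (nat_lit 2) (.nd (nat_lit 3) (.nd (nat_lit 4) (.nd (nat_lit 5) 
(.lf (nat_lit 225539) (.g (nat_lit 2597) (.e (nat_lit 98342) (nat_lit 20) (.e (nat_lit 221212) (nat_lit 22) (.e (nat_lit 196670) (nat_lit 14) (.e (nat_lit 73746) (nat_lit 3) (.e (nat_lit 516117) (nat_lit 1) (.e (nat_lit 164157) (nat_lit 152) (.e (nat_lit 1016) (nat_lit 81) (.e (nat_lit 1256) (nat_lit 92) .nil)))))))) (.g (nat_lit 5) .nil .nil))) 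
(.lf (nat_lit 225571) (.g (nat_lit 3434) (.e (nat_lit 98342) (nat_lit 20) (.e (nat_lit 221212) (nat_lit 22) (.e (nat_lit 196681) (nat_lit 17) (.e (nat_lit 131096) (nat_lit 3) (.e (nat_lit 98333) (nat_lit 18) (.e (nat_lit 164179) (nat_lit 154) (.e (nat_lit 57376) (nat_lit 3) .nil))))))) (.g (nat_lit 6) .nil .nil)))) (.nd (nat_lit 5) 
(.lf (nat_lit 225555) (.g (nat_lit 2978) (.e (nat_lit 98342) (nat_lit 20) (.e (nat_lit 221212) (nat_lit 22) (.e (nat_lit 196670) (nat_lit 14) (.e (nat_lit 73746) (nat_lit 3) (.e (nat_lit 516119) (nat_lit 1) (.e (nat_lit 164180) (nat_lit 154) (.e (nat_lit 57376) (nat_lit 3) .nil))))))) (.g (nat_lit 5) .nil .nil))) 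
(.lf (nat_lit 225587) (.g (nat_lit 2908) (.e (nat_lit 98342) (nat_lit 20) (.e (nat_lit 221214) (nat_lit 23) (.e (nat_lit 204830) (nat_lit 18) (.e (nat_lit 57852) (nat_lit 252) (.e (nat_lit 57373) (nat_lit 2) (.e (nat_lit 90160) (nat_lit 11) (.e (nat_lit 24606) (nat_lit 3) .nil))))))) (.g (nat_lit 4) .nil .nil))))) (.nd (nat_lit 4) (.nd (nat_lit 5) 
(.lf (nat_lit 225547) (.g (nat_lit 2674) (.e (nat_lit 98342) (nat_lit 20) (.e (nat_lit 221212) (nat_lit 22) (.e (nat_lit 196670) (nat_lit 14) (.e (nat_lit 73746) (nat_lit 3) (.e (nat_lit 516117) (nat_lit 1) (.e (nat_lit 164184) (nat_lit 155) (.e (nat_lit 122892) (nat_lit 3) .nil))))))) (.g (nat_lit 5) .nil .nil))) 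
(.lf (nat_lit 225579) (.g (nat_lit 3133) (.e (nat_lit 98342) (nat_lit 20) (.e (nat_lit 221212) (nat_lit 22) (.e (nat_lit 196681) (nat_lit 17) (.e (nat_lit 131098) (nat_lit 3) (.e (nat_lit 98334) (nat_lit 18) (.e (nat_lit 164182) (nat_lit 154) (.e (nat_lit 57376) (nat_lit 3) .nil))))))) (.g (nat_lit 6) .nil .nil)))) (.nd (nat_lit 5) 
(.lf (nat_lit 225563) (.g (nat_lit 2483) (.e (nat_lit 98342) (nat_lit 20) (.e (nat_lit 221212) (nat_lit 22) (.e (nat_lit 196670) (nat_lit 14) (.e (nat_lit 73746) (nat_lit 3) (.e (nat_lit 516120) (nat_lit 1) (.e (nat_lit 164159) (nat_lit 152) (.e (nat_lit 1005) (nat_lit 81) (.e (nat_lit 1243) (nat_lit 92) .nil)))))))) (.g (nat_lit 4) .nil .nil))) 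
(.lf (nat_lit 225595) (.g (nat_lit 1260) (.e (nat_lit 98342) (nat_lit 20) (.e (nat_lit 221214) (nat_lit 23) (.e (nat_lit 204859) (nat_lit 26) (.e (nat_lit 336017) (nat_lit 3) .nil)))) .nil))))) (.nd (nat_lit 3) (.nd (nat_lit 4) (.nd (nat_lit 5) 
(.lf (nat_lit 225543) (.g (nat_lit 2810) (.e (nat_lit 98342) (nat_lit 20) (.e (nat_lit 221212) (nat_lit 22) (.e (nat_lit 196670) (nat_lit 14) (.e (nat_lit 73746) (nat_lit 3) (.e (nat_lit 516117) (nat_lit 1) (.e (nat_lit 164159) (nat_lit 152) (.e (nat_lit 1016) (nat_lit 81) (.e (nat_lit 1256) (nat_lit 92) .nil)))))))) (.g (nat_lit 5) .nil .nil))) 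
(.lf (nat_lit 225575) (.g (nat_lit 921) (.e (nat_lit 98342) (nat_lit 20) (.e (nat_lit 221212) (nat_lit 22) (.e (nat_lit 196681) (nat_lit 17) (.e (nat_lit 131098) (nat_lit 3) .nil)))) .nil))) (.nd (nat_lit 5) 
(.lf (nat_lit 225559) (.g (nat_lit 2549) (.e (nat_lit 98342) (nat_lit 20) (.e (nat_lit 221212) (nat_lit 22) (.e (nat_lit 196670) (nat_lit 14) (.e (nat_lit 73746) (nat_lit 3) (.e (nat_lit 516120) (nat_lit 1) (.e (nat_lit 164147) (nat_lit 152) (.e (nat_lit 990) (nat_lit 81) (.e (nat_lit 1245) (nat_lit 92) .nil)))))))) (.g (nat_lit 4) .nil .nil))) 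
(.lf (nat_lit 225591) (.g (nat_lit 1988) (.e (nat_lit 98342) (nat_lit 20) (.e (nat_lit 221214) (nat_lit 23) (.e (nat_lit 204852) (nat_lit 26) (.e (nat_lit 336324) (nat_lit 18) (.e (nat_lit 204829) (nat_lit 18) (.e (nat_lit 57854) (nat_lit 252) (.e (nat_lit 57378) (nat_lit 3) .nil))))))) (.g (nat_lit 4) .nil .nil))))) (.nd (nat_lit 4) (.nd (nat_lit 5) 
(.lf (nat_lit 225551) (.g (nat_lit 2682) (.e (nat_lit 98342) (nat_lit 20) (.e (nat_lit 221212) (nat_lit 22) (.e (nat_lit 196670) (nat_lit 14) (.e (nat_lit 73746) (nat_lit 3) (.e (nat_lit 516119) (nat_lit 1) (.e (nat_lit 164153) (nat_lit 152) (.e (nat_lit 997) (nat_lit 81) (.e (nat_lit 1245) (nat_lit 92) .nil)))))))) (.g (nat_lit 4) .nil .nil))) 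
(.lf (nat_lit 225583) (.g (nat_lit 2180) (.e (nat_lit 98342) (nat_lit 20) (.e (nat_lit 221214) (nat_lit 23) (.e (nat_lit 204829) (nat_lit 18) (.e (nat_lit 57847) (nat_lit 252) (.e (nat_lit 57372) (nat_lit 2) (.e (nat_lit 90160) (nat_lit 11) (.e (nat_lit 24606) (nat_lit 3) .nil))))))) (.g (nat_lit 4) .nil .nil)))) (.nd (nat_lit 5) 
(.lf (nat_lit 225567) (.g (nat_lit 4581) (.e (nat_lit 98342) (nat_lit 20) (.e (nat_lit 221212) (nat_lit 22) (.e (nat_lit 196670) (nat_lit 14) (.e (nat_lit 73746) (nat_lit 3) (.e (nat_lit 516120) (nat_lit 1) (.e (nat_lit 164183) (nat_lit 154) (.e (nat_lit 57378) (nat_lit 3) .nil))))))) (.g (nat_lit 0) .nil .nil))) 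
(.lf (nat_lit 225599) (.g (nat_lit 3697) (.e (nat_lit 98342) (nat_lit 20) (.e (nat_lit 221214) (nat_lit 23) (.e (nat_lit 204862) (nat_lit 27) (.e (nat_lit 344117) (nat_lit 21) (.e (nat_lit 516115) (nat_lit 1) (.e (nat_lit 164179) (nat_lit 154) (.e (nat_lit 57379) (nat_lit 3) .nil))))))) (.g (nat_lit 6) .nil .nil)))))))))


end

end Pool.Agent.Lib.MP_5854e1_co.Cz
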