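import Pool.Agent.Lib.MP_5854e1_co.DtD

/-!
# Windows and cells of the rings
-/

set_option autoImplicit false
set_option maxRecDepth 100000
set_option deprecated.oldSectionVars true

namespace Pool.Agent.Lib.MP_5854e1_co.Cz

open Pool.Agent.Lib.MP_5854e1_co

noncomputable section

noncomputable def tv3173 : DT := (.nd (nat_lit 0) (.nd (nat_lit 1) (.nd (nat_lit 2) (.nd (nat_lit 3) (.nd (nat_lit 4) (.nd (nat_lit 5) (.nd (nat_lit 6) 
(.lf (nat_lit 243456) (.g (nat_lit 1113) (.e (nat_lit 130816) (nat_lit 108) (.e (nat_lit 712750) (nat_lit 29) (.e (nat_lit 442381) (nat_lit 7) (.e (nat_lit 139281) (nat_lit 5) .nil)))) .nil)) 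
(.lf (nat_lit 243520) (.g (nat_lit 3302) (.e (nat_lit 123040) (nat_lit 140) (.e (nat_lit 1221) (nat_lit 90) (.e (nat_lit 81956) (nat_lit 23) (.e (nat_lit 98389) (nat_lit 33) .nil)))) .nil))) (.nd (nat_lit 6) 
(.lf (nat_lit 243488) (.g (nat_lit 1600) (.e (nat_lit 123023) (nat_lit 124) (.e (nat_lit 57368) (nat_lit 1) (.e (nat_lit 57854) (nat_lit 252) (.e (nat_lit 57445) (nat_lit 19) (.e (nat_lit 401152) (nat_lit 11) .nil))))) .nil)) 
(.lf (nat_lit 243552) (.g (nat_lit 750) (.e (nat_lit 123056) (nat_lit 155) (.e (nat_lit 122916) (nat_lit 14) (.e (nat_lit 352307) (nat_lit 21) .nil))) .nil)))) (.nd (nat_lit 5) (.nd (nat_lit 6) 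
(.lf (nat_lit 243472) (.g (nat_lit 2232) (.e (nat_lit 123019) (nat_lit 122) (.e (nat_lit 1209) (nat_lit 89) (.e (nat_lit 73753) (nat_lit 8) (.e (nat_lit 557096) (nat_lit 13) (.e (nat_lit 172064) (nat_lit 2) .nil))))) .nil)) 
(.lf (nat_lit 243536) (.g (nat_lit 2417) (.e (nat_lit 130816) (nat_lit 142) (.e (nat_lit 57427) (nat_lit 15) (.e (nat_lit 360471) (nat_lit 7) (.e (nat_lit 548891) (nat_lit 11) (.e (nat_lit 81959) (nat_lit 24) .nil))))) .nil))) (.nd (nat_lit 6) 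
(.lf (nat_lit 243504) (.g (nat_lit 1585) (.e (nat_lit 123033) (nat_lit 131) (.e (nat_lit 122916) (nat_lit 14) (.e (nat_lit 352315) (nat_lit 23) (.e (nat_lit 98356) (nat_lit 26) .nil)))) .nil)) 
(.lf (nat_lit 243568) (.g (nat_lit 1293) (.e (nat_lit 123056) (nat_lit 155) (.e (nat_lit 122919) (nat_lit 15) (.e (nat_lit 360451) (nat_lit 0) (.e (nat_lit 7132) (nat_lit 382) .nil)))) .nil))))) (.nd (nat_lit 4) (.nd (nat_lit 5) (.nd (nat_lit 6) 
(.lf (nat_lit 243464) (.g (nat_lit 1998) (.e (nat_lit 123015) (nat_lit 122) (.e (nat_lit 1221) (nat_lit 90) (.e (nat_lit 81956) (nat_lit 23) (.e (nat_lit 98350) (nat_lit 24) (.e (nat_lit 409649) (nat_lit 18) .nil))))) .nil)) 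
(.lf (nat_lit 243528) (.g (nat_lit 431) (.e (nat_lit 130816) (nat_lit 140) (.e (nat_lit 1214) (nat_lit 89) (.e (nat_lit 73781) (nat_lit 32) .nil))) .nil))) (.nd (nat_lit 6) 
(.lf (nat_lit 243496) (.g (nat_lit 1103) (.e (nat_lit 123025) (nat_lit 127) (.e (nat_lit 229413) (nat_lit 15) (.e (nat_lit 450565) (nat_lit 0) (.e (nat_lit 6792) (nat_lit 365) .nil)))) .nil)) 
(.lf (nat_lit 243560) (.g (nat_lit 524) (.e (nat_lit 123056) (nat_lit 155) (.e (nat_lit 122919) (nat_lit 15) (.e (nat_lit 360450) (nat_lit 0) .nil))) .nil)))) (.nd (nat_lit 5) (.nd (nat_lit 6) 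
(.lf (nat_lit 243480) (.g (nat_lit 2450) (.e (nat_lit 123019) (nat_lit 122) (.e (nat_lit 1211) (nat_lit 89) (.e (nat_lit 73755) (nat_lit 8) (.e (nat_lit 557098) (nat_lit 13) (.e (nat_lit 172140) (nat_lit 22) .nil))))) .nil)) 
(.lf (nat_lit 243544) (.g (nat_lit 401) (.e (nat_lit 130816) (nat_lit 152) (.e (nat_lit 1222) (nat_lit 90) (.e (nat_lit 81948) (nat_lit 21) .nil))) .nil))) (.nd (nat_lit 6) 
(.lf (nat_lit 243512) (.g (nat_lit 1400) (.e (nat_lit 123040) (nat_lit 140) (.e (nat_lit 1190) (nat_lit 88) (.e (nat_lit 65630) (nat_lit 14) (.e (nat_lit 401425) (nat_lit 2) .nil)))) .nil)) 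
(.lf (nat_lit 243576) (.g (nat_lit 1706) (.e (nat_lit 123057) (nat_lit 156) (.e (nat_lit 163902) (nat_lit 12) (.e (nat_lit 426438) (nat_lit 18) (.e (nat_lit 98381) (nat_lit 31) (.e (nat_lit 466954) (nat_lit 11) .nil))))) .nil)))))) (.nd (nat_lit 3) (.nd (nat_lit 4) (.nd (nat_lit 5) (.nd (nat_lit 6) 
(.lf (nat_lit 243460) (.g (nat_lit 1887) (.e (nat_lit 123013) (nat_lit 116) (.e (nat_lit 778362) (nat_lit 9) (.e (nat_lit 232) (nat_lit 21) (.e (nat_lit 336060) (nat_lit 7) (.e (nat_lit 319534) (nat_lit 16) .nil))))) .nil)) 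
(.lf (nat_lit 243524) (.g (nat_lit 2757) (.e (nat_lit 130816) (nat_lit 140) (.e (nat_lit 1201) (nat_lit 88) (.e (nat_lit 65630) (nat_lit 14) (.e (nat_lit 401428) (nat_lit 3) (.e (nat_lit 204866) (nat_lit 28) .nil))))) .nil))) (.nd (nat_lit 6) 
(.lf (nat_lit 243492) (.g (nat_lit 772) (.e (nat_lit 123024) (nat_lit 125) (.e (nat_lit 122916) (nat_lit 14) (.e (nat_lit 352315) (nat_lit 23) .nil))) .nil)) 
(.lf (nat_lit 243556) (.g (nat_lit 2102) (.e (nat_lit 123056) (nat_lit 155) (.e (nat_lit 122916) (nat_lit 14) (.e (nat_lit 352309) (nat_lit 21) (.e (nat_lit 57653) (nat_lit 152) (.e (nat_lit 1216) (nat_lit 90) .nil))))) .nil)))) (.nd (nat_lit 5) (.nd (nat_lit 6) 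
(.lf (nat_lit 243476) (.g (nat_lit 744) (.e (nat_lit 123019) (nat_lit 122) (.e (nat_lit 1209) (nat_lit 89) (.e (nat_lit 73754) (nat_lit 8) .nil))) .nil)) 
(.lf (nat_lit 243540) (.g (nat_lit 1385) (.e (nat_lit 130816) (nat_lit 143) (.e (nat_lit 122919) (nat_lit 15) (.e (nat_lit 360475) (nat_lit 8) (.e (nat_lit 557068) (nat_lit 9) .nil)))) .nil))) (.nd (nat_lit 6) 
(.lf (nat_lit 243508) (.g (nat_lit 2188) (.e (nat_lit 123040) (nat_lit 140) (.e (nat_lit 1189) (nat_lit 88) (.e (nat_lit 65630) (nat_lit 14) (.e (nat_lit 401428) (nat_lit 3) (.e (nat_lit 204866) (nat_lit 28) .nil))))) .nil)) 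
(.lf (nat_lit 243572) (.g (nat_lit 1401) (.e (nat_lit 130816) (nat_lit 155) (.e (nat_lit 122919) (nat_lit 15) (.e (nat_lit 360451) (nat_lit 0) (.e (nat_lit 7124) (nat_lit 382) (.e (nat_lit 7936) (nat_lit 90) .nil))))) .nil))))) (.nd (nat_lit 4) (.nd (nat_lit 5) (.nd (nat_lit 6) 
(.lf (nat_lit 243468) (.g (nat_lit 2413) (.e (nat_lit 123018) (nat_lit 122) (.e (nat_lit 1209) (nat_lit 89) (.e (nat_lit 73753) (nat_lit 8) (.e (nat_lit 557098) (nat_lit 13) (.e (nat_lit 172140) (nat_lit 22) .nil))))) .nil)) 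
(.lf (nat_lit 243532) (.g (nat_lit 310) (.e (nat_lit 130816) (nat_lit 140) (.e (nat_lit 1224) (nat_lit 90) (.e (nat_lit 81922) (nat_lit 0) .nil))) .nil))) (.nd (nat_lit 6) 
(.lf (nat_lit 243500) (.g (nat_lit 462) (.e (nat_lit 123026) (nat_lit 128) (.e (nat_lit 2638) (nat_lit 165) (.e (nat_lit 188160) (nat_lit 32) .nil))) .nil)) 
(.lf (nat_lit 243564) (.g (nat_lit 2466) (.e (nat_lit 123056) (nat_lit 155) (.e (nat_lit 122919) (nat_lit 15) (.e (nat_lit 360451) (nat_lit 0) (.e (nat_lit 7122) (nat_lit 382) (.e (nat_lit 7936) (nat_lit 90) .nil))))) .nil)))) (.nd (nat_lit 5) (.nd (nat_lit 6) 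
(.lf (nat_lit 243484) (.g (nat_lit 1655) (.e (nat_lit 123019) (nat_lit 122) (.e (nat_lit 1221) (nat_lit 90) (.e (nat_lit 81965) (nat_lit 26) (.e (nat_lit 147500) (nat_lit 12) .nil)))) .nil)) 
(.lf (nat_lit 243548) (.g (nat_lit 1460) (.e (nat_lit 130816) (nat_lit 154) (.e (nat_lit 57427) (nat_lit 15) (.e (nat_lit 360451) (nat_lit 0) (.e (nat_lit 7122) (nat_lit 382) .nil)))) .nil))) (.nd (nat_lit 6) 
(.lf (nat_lit 243516) (.g (nat_lit 2796) (.e (nat_lit 123040) (nat_lit 140) (.e (nat_lit 1199) (nat_lit 88) (.e (nat_lit 65630) (nat_lit 14) (.e (nat_lit 401425) (nat_lit 2) (.e (nat_lit 196672) (nat_lit 15) .nil))))) .nil)) 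
(.lf (nat_lit 243580) (.g (nat_lit 1947) (.e (nat_lit 123058) (nat_lit 156) (.e (nat_lit 163907) (nat_lit 12) (.e (nat_lit 426428) (nat_lit 17) (.e (nat_lit 90170) (nat_lit 13) .nil)))) .nil))))))) (.nd (nat_lit 2) (.nd (nat_lit 3) (.nd (nat_lit 4) (.nd (nat_lit 5) (.nd (nat_lit 6) 
(.lf (nat_lit 243458) (.g (nat_lit 1594) (.e (nat_lit 130816) (nat_lit 108) (.e (nat_lit 712755) (nat_lit 30) (.e (nat_lit 450588) (nat_lit 10) (.e (nat_lit 573503) (nat_lit 18) (.e (nat_lit 1349) (nat_lit 102) .nil))))) .nil)) 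
(.lf (nat_lit 243522) (.g (nat_lit 1355) (.e (nat_lit 123043) (nat_lit 140) (.e (nat_lit 1196) (nat_lit 88) (.e (nat_lit 65630) (nat_lit 14) (.e (nat_lit 401427) (nat_lit 3) .nil)))) .nil))) (.nd (nat_lit 6) 
(.lf (nat_lit 243490) (.g (nat_lit 2051) (.e (nat_lit 123023) (nat_lit 124) (.e (nat_lit 57368) (nat_lit 1) (.e (nat_lit 57854) (nat_lit 252) (.e (nat_lit 57447) (nat_lit 19) (.e (nat_lit 401152) (nat_lit 11) .nil))))) .nil)) 
(.lf (nat_lit 243554) (.g (nat_lit 1933) (.e (nat_lit 123056) (nat_lit 155) (.e (nat_lit 122916) (nat_lit 14) (.e (nat_lit 352309) (nat_lit 21) (.e (nat_lit 57651) (nat_lit 152) .nil)))) .nil)))) (.nd (nat_lit 5) (.nd (nat_lit 6) 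
(.lf (nat_lit 243474) (.g (nat_lit 2243) (.e (nat_lit 123019) (nat_lit 122) (.e (nat_lit 1209) (nat_lit 89) (.e (nat_lit 73753) (nat_lit 8) (.e (nat_lit 557101) (nat_lit 13) (.e (nat_lit 172064) (nat_lit 2) .nil))))) .nil)) 
(.lf (nat_lit 243538) (.g (nat_lit 2335) (.e (nat_lit 130816) (nat_lit 142) (.e (nat_lit 57427) (nat_lit 15) (.e (nat_lit 360474) (nat_lit 8) (.e (nat_lit 557073) (nat_lit 9) (.e (nat_lit 7936) (nat_lit 23) .nil))))) .nil))) (.nd (nat_lit 6) 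
(.lf (nat_lit 243506) (.g (nat_lit 853) (.e (nat_lit 123033) (nat_lit 131) (.e (nat_lit 122919) (nat_lit 15) (.e (nat_lit 360467) (nat_lit 3) .nil))) .nil)) 
(.lf (nat_lit 243570) (.g (nat_lit 1580) (.e (nat_lit 123056) (nat_lit 155) (.e (nat_lit 122919) (nat_lit 15) (.e (nat_lit 360451) (nat_lit 0) (.e (nat_lit 7263) (nat_lit 384) .nil)))) .nil))))) (.nd (nat_lit 4) (.nd (nat_lit 5) (.nd (nat_lit 6) 
(.lf (nat_lit 243466) (.g (nat_lit 1383) (.e (nat_lit 123016) (nat_lit 122) (.e (nat_lit 1220) (nat_lit 90) (.e (nat_lit 81956) (nat_lit 23) (.e (nat_lit 98350) (nat_lit 24) .nil)))) .nil)) 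
(.lf (nat_lit 243530) (.g (nat_lit 2911) (.e (nat_lit 130816) (nat_lit 140) (.e (nat_lit 1220) (nat_lit 90) (.e (nat_lit 81956) (nat_lit 23) (.e (nat_lit 98320) (nat_lit 17) .nil)))) .nil))) (.nd (nat_lit 6) 
(.lf (nat_lit 243498) (.g (nat_lit 1528) (.e (nat_lit 123025) (nat_lit 127) (.e (nat_lit 229415) (nat_lit 15) (.e (nat_lit 450563) (nat_lit 0) (.e (nat_lit 6736) (nat_lit 365) .nil)))) .nil)) 
(.lf (nat_lit 243562) (.g (nat_lit 1501) (.e (nat_lit 123056) (nat_lit 155) (.e (nat_lit 122919) (nat_lit 15) (.e (nat_lit 360451) (nat_lit 0) (.e (nat_lit 7119) (nat_lit 382) .nil)))) .nil)))) (.nd (nat_lit 5) (.nd (nat_lit 6) 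
(.lf (nat_lit 243482) (.g (nat_lit 623) (.e (nat_lit 123019) (nat_lit 122) (.e (nat_lit 1221) (nat_lit 90) (.e (nat_lit 81956) (nat_lit 23) .nil))) .nil)) 
(.lf (nat_lit 243546) (.g (nat_lit 2015) (.e (nat_lit 130816) (nat_lit 154) (.e (nat_lit 57427) (nat_lit 15) (.e (nat_lit 360450) (nat_lit 0) (.e (nat_lit 7119) (nat_lit 382) .nil)))) .nil))) (.nd (nat_lit 6) 
(.lf (nat_lit 243514) (.g (nat_lit 398) (.e (nat_lit 123040) (nat_lit 140) (.e (nat_lit 1199) (nat_lit 88) (.e (nat_lit 65622) (nat_lit 12) .nil))) .nil)) 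
(.lf (nat_lit 243578) (.g (nat_lit 751) (.e (nat_lit 123058) (nat_lit 156) (.e (nat_lit 163905) (nat_lit 12) (.e (nat_lit 426428) (nat_lit 17) .nil))) .nil)))))) (.nd (nat_lit 3) (.nd (nat_lit 4) (.nd (nat_lit 5) (.nd (nat_lit 6) 
(.lf (nat_lit 243462) (.g (nat_lit 1969) (.e (nat_lit 123015) (nat_lit 122) (.e (nat_lit 1211) (nat_lit 89) (.e (nat_lit 73755) (nat_lit 8) (.e (nat_lit 557097) (nat_lit 13) (.e (nat_lit 172064) (nat_lit 2) .nil))))) .nil)) 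
(.lf (nat_lit 243526) (.g (nat_lit 1054) (.e (nat_lit 130816) (nat_lit 140) (.e (nat_lit 1212) (nat_lit 89) (.e (nat_lit 73782) (nat_lit 32) (.e (nat_lit 2664) (nat_lit 167) .nil)))) .nil))) (.nd (nat_lit 6) 
(.lf (nat_lit 243494) (.g (nat_lit 1606) (.e (nat_lit 130816) (nat_lit 126) (.e (nat_lit 163932) (nat_lit 17) (.e (nat_lit 466972) (nat_lit 21) (.e (nat_lit 164195) (nat_lit 158) .nil)))) .nil)) 
(.lf (nat_lit 243558) (.g (nat_lit 1648) (.e (nat_lit 123056) (nat_lit 155) (.e (nat_lit 122916) (nat_lit 14) (.e (nat_lit 352309) (nat_lit 21) (.e (nat_lit 57660) (nat_lit 152) .nil)))) .nil)))) (.nd (nat_lit 5) (.nd (nat_lit 6) 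
(.lf (nat_lit 243478) (.g (nat_lit 1303) (.e (nat_lit 123019) (nat_lit 122) (.e (nat_lit 1211) (nat_lit 89) (.e (nat_lit 73755) (nat_lit 8) (.e (nat_lit 557096) (nat_lit 13) .nil)))) .nil)) 
(.lf (nat_lit 243542) (.g (nat_lit 1030) (.e (nat_lit 130816) (nat_lit 152) (.e (nat_lit 1220) (nat_lit 90) (.e (nat_lit 81950) (nat_lit 21) (.e (nat_lit 57654) (nat_lit 152) .nil)))) .nil))) (.nd (nat_lit 6) 
(.lf (nat_lit 243510) (.g (nat_lit 951) (.e (nat_lit 123040) (nat_lit 140) (.e (nat_lit 1190) (nat_lit 88) (.e (nat_lit 65622) (nat_lit 12) (.e (nat_lit 385074) (nat_lit 31) .nil)))) .nil)) 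
(.lf (nat_lit 243574) (.g (nat_lit 530) (.e (nat_lit 123057) (nat_lit 156) (.e (nat_lit 163885) (nat_lit 5) (.e (nat_lit 229120) (nat_lit 17) .nil))) .nil))))) (.nd (nat_lit 4) (.nd (nat_lit 5) (.nd (nat_lit 6) 
(.lf (nat_lit 243470) (.g (nat_lit 1969) (.e (nat_lit 123018) (nat_lit 122) (.e (nat_lit 1211) (nat_lit 89) (.e (nat_lit 73755) (nat_lit 8) (.e (nat_lit 557097) (nat_lit 13) (.e (nat_lit 172064) (nat_lit 2) .nil))))) .nil)) 
(.lf (nat_lit 243534) (.g (nat_lit 1131) (.e (nat_lit 130816) (nat_lit 142) (.e (nat_lit 57411) (nat_lit 12) (.e (nat_lit 336182) (nat_lit 11) (.e (nat_lit 368680) (nat_lit 25) .nil)))) .nil))) (.nd (nat_lit 6) 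
(.lf (nat_lit 243502) (.g (nat_lit 2832) (.e (nat_lit 130816) (nat_lit 128) (.e (nat_lit 1220) (nat_lit 90) (.e (nat_lit 81956) (nat_lit 23) (.e (nat_lit 98384) (nat_lit 32) (.e (nat_lit 475214) (nat_lit 42) .nil))))) .nil)) 
(.lf (nat_lit 243566) (.g (nat_lit 1553) (.e (nat_lit 123056) (nat_lit 155) (.e (nat_lit 122919) (nat_lit 15) (.e (nat_lit 360451) (nat_lit 0) (.e (nat_lit 7125) (nat_lit 382) .nil)))) .nil)))) (.nd (nat_lit 5) (.nd (nat_lit 6) 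
(.lf (nat_lit 243486) (.g (nat_lit 1085) (.e (nat_lit 123023) (nat_lit 124) (.e (nat_lit 57363) (nat_lit 1) (.e (nat_lit 57847) (nat_lit 252) (.e (nat_lit 57446) (nat_lit 19) (.e (nat_lit 401152) (nat_lit 11) .nil))))) .nil)) 
(.lf (nat_lit 243550) (.g (nat_lit 1822) (.e (nat_lit 130816) (nat_lit 154) (.e (nat_lit 57437) (nat_lit 17) (.e (nat_lit 376860) (nat_lit 21) (.e (nat_lit 57665) (nat_lit 152) (.e (nat_lit 7936) (nat_lit 90) .nil))))) .nil))) (.nd (nat_lit 6) 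
(.lf (nat_lit 243518) (.g (nat_lit 3356) (.e (nat_lit 123040) (nat_lit 140) (.e (nat_lit 1220) (nat_lit 90) (.e (nat_lit 81956) (nat_lit 23) (.e (nat_lit 98389) (nat_lit 33) .nil)))) .nil)) 
(.lf (nat_lit 243582) (.g (nat_lit 3615) (.e (nat_lit 130816) (nat_lit 161) (.e (nat_lit 122919) (nat_lit 15) (.e (nat_lit 360474) (nat_lit 8) (.e (nat_lit 557091) (nat_lit 12) (.e (nat_lit 163999) (nat_lit 38) .nil))))) .nil)))))))) (.nd (nat_lit 1) (.nd (nat_lit 2) (.nd (nat_lit 3) (.nd (nat_lit 4) (.nd (nat_lit 5) (.nd (nat_lit 6) 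
(.lf (nat_lit 243457) (.g (nat_lit 416) (.e (nat_lit 130816) (nat_lit 108) (.e (nat_lit 712753) (nat_lit 30) (.e (nat_lit 450577) (nat_lit 4) (.e (nat_lit 524339) (nat_lit 27) .nil)))) .nil)) 
(.lf (nat_lit 243521) (.g (nat_lit 1500) (.e (nat_lit 123040) (nat_lit 140) (.e (nat_lit 1221) (nat_lit 90) (.e (nat_lit 81959) (nat_lit 24) (.e (nat_lit 123040) (nat_lit 140) (.e (nat_lit 1221) (nat_lit 90) .nil))))) .nil))) (.nd (nat_lit 6) 
(.lf (nat_lit 243489) (.g (nat_lit 1303) (.e (nat_lit 123023) (nat_lit 124) (.e (nat_lit 57368) (nat_lit 1) (.e (nat_lit 57854) (nat_lit 252) (.e (nat_lit 57446) (nat_lit 19) (.e (nat_lit 401152) (nat_lit 11) .nil))))) .nil)) 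
(.lf (nat_lit 243553) (.g (nat_lit 688) (.e (nat_lit 123056) (nat_lit 155) (.e (nat_lit 122916) (nat_lit 14) (.e (nat_lit 352309) (nat_lit 21) .nil))) .nil)))) (.nd (nat_lit 5) (.nd (nat_lit 6) 
(.lf (nat_lit 243473) (.g (nat_lit 2230) (.e (nat_lit 123019) (nat_lit 122) (.e (nat_lit 1209) (nat_lit 89) (.e (nat_lit 73753) (nat_lit 8) (.e (nat_lit 557096) (nat_lit 13) (.e (nat_lit 172140) (nat_lit 22) .nil))))) .nil)) 
(.lf (nat_lit 243537) (.g (nat_lit 2466) (.e (nat_lit 130816) (nat_lit 142) (.e (nat_lit 57427) (nat_lit 15) (.e (nat_lit 360474) (nat_lit 8) (.e (nat_lit 557072) (nat_lit 9) (.e (nat_lit 7936) (nat_lit 23) .nil))))) .nil))) (.nd (nat_lit 6) 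
(.lf (nat_lit 243505) (.g (nat_lit 620) (.e (nat_lit 123033) (nat_lit 131) (.e (nat_lit 122917) (nat_lit 15) (.e (nat_lit 360466) (nat_lit 3) .nil))) .nil)) 
(.lf (nat_lit 243569) (.g (nat_lit 1532) (.e (nat_lit 123056) (nat_lit 155) (.e (nat_lit 122919) (nat_lit 15) (.e (nat_lit 360451) (nat_lit 0) (.e (nat_lit 7261) (nat_lit 384) .nil)))) .nil))))) (.nd (nat_lit 4) (.nd (nat_lit 5) (.nd (nat_lit 6) 
(.lf (nat_lit 243465) (.g (nat_lit 1410) (.e (nat_lit 123015) (nat_lit 122) (.e (nat_lit 2644) (nat_lit 166) (.e (nat_lit 188446) (nat_lit 21) (.e (nat_lit 164196) (nat_lit 158) (.e (nat_lit 1221) (nat_lit 90) .nil))))) .nil)) 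
(.lf (nat_lit 243529) (.g (nat_lit 2391) (.e (nat_lit 130816) (nat_lit 140) (.e (nat_lit 1216) (nat_lit 90) (.e (nat_lit 81956) (nat_lit 23) (.e (nat_lit 98320) (nat_lit 17) .nil)))) .nil))) (.nd (nat_lit 6) 
(.lf (nat_lit 243497) (.g (nat_lit 777) (.e (nat_lit 123025) (nat_lit 127) (.e (nat_lit 229415) (nat_lit 15) (.e (nat_lit 450562) (nat_lit 0) .nil))) .nil)) 
(.lf (nat_lit 243561) (.g (nat_lit 1588) (.e (nat_lit 123056) (nat_lit 155) (.e (nat_lit 122919) (nat_lit 15) (.e (nat_lit 360450) (nat_lit 0) (.e (nat_lit 7119) (nat_lit 382) .nil)))) .nil)))) (.nd (nat_lit 5) (.nd (nat_lit 6) 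
(.lf (nat_lit 243481) (.g (nat_lit 2407) (.e (nat_lit 123019) (nat_lit 122) (.e (nat_lit 1211) (nat_lit 89) (.e (nat_lit 73755) (nat_lit 8) (.e (nat_lit 557104) (nat_lit 14) (.e (nat_lit 188160) (nat_lit 3) .nil))))) .nil)) 
(.lf (nat_lit 243545) (.g (nat_lit 678) (.e (nat_lit 130816) (nat_lit 154) (.e (nat_lit 57411) (nat_lit 12) (.e (nat_lit 336182) (nat_lit 11) .nil))) .nil))) (.nd (nat_lit 6) 
(.lf (nat_lit 243513) (.g (nat_lit 2135) (.e (nat_lit 123040) (nat_lit 140) (.e (nat_lit 1190) (nat_lit 88) (.e (nat_lit 65630) (nat_lit 14) (.e (nat_lit 401428) (nat_lit 3) (.e (nat_lit 204866) (nat_lit 28) .nil))))) .nil)) 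
(.lf (nat_lit 243577) (.g (nat_lit 1801) (.e (nat_lit 123057) (nat_lit 156) (.e (nat_lit 163903) (nat_lit 12) (.e (nat_lit 426428) (nat_lit 17) (.e (nat_lit 90170) (nat_lit 13) .nil)))) .nil)))))) (.nd (nat_lit 3) (.nd (nat_lit 4) (.nd (nat_lit 5) (.nd (nat_lit 6) 
(.lf (nat_lit 243461) (.g (nat_lit 3162) (.e (nat_lit 123014) (nat_lit 118) (.e (nat_lit 794669) (nat_lit 22) (.e (nat_lit 196691) (nat_lit 18) (.e (nat_lit 1349) (nat_lit 102) (.e (nat_lit 286761) (nat_lit 13) (.e (nat_lit 393234) (nat_lit 17) (.e (nat_lit 3479) (nat_lit 218) (.e (nat_lit 704847) (nat_lit 16) .nil)))))))) (.g (nat_lit 6) .nil .nil))) 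
(.lf (nat_lit 243525) (.g (nat_lit 1093) (.e (nat_lit 130816) (nat_lit 140) (.e (nat_lit 1212) (nat_lit 89) (.e (nat_lit 73782) (nat_lit 32) (.e (nat_lit 2663) (nat_lit 167) .nil)))) .nil))) (.nd (nat_lit 6) 
(.lf (nat_lit 243493) (.g (nat_lit 2401) (.e (nat_lit 123024) (nat_lit 125) (.e (nat_lit 122919) (nat_lit 15) (.e (nat_lit 360475) (nat_lit 8) (.e (nat_lit 557090) (nat_lit 12) (.e (nat_lit 164020) (nat_lit 45) .nil))))) .nil)) 
(.lf (nat_lit 243557) (.g (nat_lit 2463) (.e (nat_lit 123056) (nat_lit 155) (.e (nat_lit 122916) (nat_lit 14) (.e (nat_lit 352309) (nat_lit 21) (.e (nat_lit 57655) (nat_lit 152) (.e (nat_lit 1216) (nat_lit 90) .nil))))) .nil)))) (.nd (nat_lit 5) (.nd (nat_lit 6) 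
(.lf (nat_lit 243477) (.g (nat_lit 2182) (.e (nat_lit 123019) (nat_lit 122) (.e (nat_lit 1211) (nat_lit 89) (.e (nat_lit 73754) (nat_lit 8) (.e (nat_lit 557100) (nat_lit 13) (.e (nat_lit 172064) (nat_lit 2) .nil))))) .nil)) 
(.lf (nat_lit 243541) (.g (nat_lit 1615) (.e (nat_lit 130816) (nat_lit 152) (.e (nat_lit 1220) (nat_lit 90) (.e (nat_lit 81938) (nat_lit 20) (.e (nat_lit 2281) (nat_lit 150) (.e (nat_lit 770074) (nat_lit 10) .nil))))) .nil))) (.nd (nat_lit 6) 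
(.lf (nat_lit 243509) (.g (nat_lit 1740) (.e (nat_lit 123040) (nat_lit 140) (.e (nat_lit 1190) (nat_lit 88) (.e (nat_lit 65619) (nat_lit 10) (.e (nat_lit 344129) (nat_lit 26) (.e (nat_lit 557074) (nat_lit 9) .nil))))) .nil)) 
(.lf (nat_lit 243573) (.g (nat_lit 489) (.e (nat_lit 123057) (nat_lit 156) (.e (nat_lit 163884) (nat_lit 5) (.e (nat_lit 229120) (nat_lit 17) .nil))) .nil))))) (.nd (nat_lit 4) (.nd (nat_lit 5) (.nd (nat_lit 6) 
(.lf (nat_lit 243469) (.g (nat_lit 1828) (.e (nat_lit 123018) (nat_lit 122) (.e (nat_lit 1211) (nat_lit 89) (.e (nat_lit 73755) (nat_lit 8) (.e (nat_lit 557096) (nat_lit 13) (.e (nat_lit 172140) (nat_lit 22) .nil))))) .nil)) 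
(.lf (nat_lit 243533) (.g (nat_lit 2652) (.e (nat_lit 130816) (nat_lit 140) (.e (nat_lit 1224) (nat_lit 90) (.e (nat_lit 81956) (nat_lit 23) (.e (nat_lit 98320) (nat_lit 17) .nil)))) .nil))) (.nd (nat_lit 6) 
(.lf (nat_lit 243501) (.g (nat_lit 512) (.e (nat_lit 123028) (nat_lit 128) (.e (nat_lit 2649) (nat_lit 166) (.e (nat_lit 188420) (nat_lit 0) .nil))) .nil)) 
(.lf (nat_lit 243565) (.g (nat_lit 1777) (.e (nat_lit 123056) (nat_lit 155) (.e (nat_lit 122919) (nat_lit 15) (.e (nat_lit 360451) (nat_lit 0) (.e (nat_lit 7124) (nat_lit 382) (.e (nat_lit 7936) (nat_lit 90) .nil))))) .nil)))) (.nd (nat_lit 5) (.nd (nat_lit 6) 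
(.lf (nat_lit 243485) (.g (nat_lit 1756) (.e (nat_lit 130816) (nat_lit 122) (.e (nat_lit 2647) (nat_lit 166) (.e (nat_lit 188446) (nat_lit 21) (.e (nat_lit 164196) (nat_lit 158) (.e (nat_lit 1221) (nat_lit 90) .nil))))) .nil)) 
(.lf (nat_lit 243549) (.g (nat_lit 539) (.e (nat_lit 130816) (nat_lit 154) (.e (nat_lit 57437) (nat_lit 17) (.e (nat_lit 376859) (nat_lit 21) .nil))) .nil))) (.nd (nat_lit 6) 
(.lf (nat_lit 243517) (.g (nat_lit 2812) (.e (nat_lit 123040) (nat_lit 140) (.e (nat_lit 1200) (nat_lit 88) (.e (nat_lit 65630) (nat_lit 14) (.e (nat_lit 401425) (nat_lit 2) (.e (nat_lit 196672) (nat_lit 15) .nil))))) .nil)) 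
(.lf (nat_lit 243581) (.g (nat_lit 1129) (.e (nat_lit 123058) (nat_lit 156) (.e (nat_lit 163907) (nat_lit 12) (.e (nat_lit 426438) (nat_lit 18) .nil))) .nil))))))) (.nd (nat_lit 2) (.nd (nat_lit 3) (.nd (nat_lit 4) (.nd (nat_lit 5) (.nd (nat_lit 6) 
(.lf (nat_lit 243459) (.g (nat_lit 1702) (.e (nat_lit 130816) (nat_lit 115) (.e (nat_lit 770072) (nat_lit 8) (.e (nat_lit 65586) (nat_lit 7) (.e (nat_lit 319531) (nat_lit 16) (.e (nat_lit 286748) (nat_lit 9) .nil))))) .nil)) 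
(.lf (nat_lit 243523) (.g (nat_lit 3560) (.e (nat_lit 130816) (nat_lit 140) (.e (nat_lit 1201) (nat_lit 88) (.e (nat_lit 65630) (nat_lit 14) (.e (nat_lit 401425) (nat_lit 2) (.e (nat_lit 196672) (nat_lit 15) .nil))))) .nil))) (.nd (nat_lit 6) 
(.lf (nat_lit 243491) (.g (nat_lit 2367) (.e (nat_lit 130816) (nat_lit 124) (.e (nat_lit 57384) (nat_lit 4) (.e (nat_lit 106536) (nat_lit 11) (.e (nat_lit 16412) (nat_lit 2) (.e (nat_lit 196674) (nat_lit 15) .nil))))) .nil)) 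
(.lf (nat_lit 243555) (.g (nat_lit 2137) (.e (nat_lit 123056) (nat_lit 155) (.e (nat_lit 122916) (nat_lit 14) (.e (nat_lit 352309) (nat_lit 21) (.e (nat_lit 57652) (nat_lit 152) .nil)))) .nil)))) (.nd (nat_lit 5) (.nd (nat_lit 6) 
(.lf (nat_lit 243475) (.g (nat_lit 2468) (.e (nat_lit 123019) (nat_lit 122) (.e (nat_lit 1209) (nat_lit 89) (.e (nat_lit 73753) (nat_lit 8) (.e (nat_lit 557103) (nat_lit 14) (.e (nat_lit 188160) (nat_lit 3) .nil))))) .nil)) 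
(.lf (nat_lit 243539) (.g (nat_lit 1932) (.e (nat_lit 130816) (nat_lit 142) (.e (nat_lit 57427) (nat_lit 15) (.e (nat_lit 360475) (nat_lit 8) (.e (nat_lit 557068) (nat_lit 9) .nil)))) .nil))) (.nd (nat_lit 6) 
(.lf (nat_lit 243507) (.g (nat_lit 1952) (.e (nat_lit 123034) (nat_lit 132) (.e (nat_lit 164084) (nat_lit 73) (.e (nat_lit 336204) (nat_lit 12) (.e (nat_lit 385074) (nat_lit 31) (.e (nat_lit 573491) (nat_lit 15) .nil))))) .nil)) 
(.lf (nat_lit 243571) (.g (nat_lit 1719) (.e (nat_lit 123056) (nat_lit 155) (.e (nat_lit 122919) (nat_lit 15) (.e (nat_lit 360451) (nat_lit 0) (.e (nat_lit 7266) (nat_lit 384) .nil)))) .nil))))) (.nd (nat_lit 4) (.nd (nat_lit 5) (.nd (nat_lit 6) 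
(.lf (nat_lit 243467) (.g (nat_lit 1336) (.e (nat_lit 123017) (nat_lit 122) (.e (nat_lit 1220) (nat_lit 90) (.e (nat_lit 81956) (nat_lit 23) (.e (nat_lit 98350) (nat_lit 24) .nil)))) .nil)) 
(.lf (nat_lit 243531) (.g (nat_lit 1263) (.e (nat_lit 130816) (nat_lit 140) (.e (nat_lit 1222) (nat_lit 90) (.e (nat_lit 81943) (nat_lit 20) (.e (nat_lit 1841) (nat_lit 123) (.e (nat_lit 548891) (nat_lit 11) .nil))))) .nil))) (.nd (nat_lit 6) 
(.lf (nat_lit 243499) (.g (nat_lit 1388) (.e (nat_lit 123025) (nat_lit 127) (.e (nat_lit 229415) (nat_lit 15) (.e (nat_lit 450563) (nat_lit 0) (.e (nat_lit 6740) (nat_lit 365) (.e (nat_lit 1224) (nat_lit 90) .nil))))) .nil)) 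
(.lf (nat_lit 243563) (.g (nat_lit 1644) (.e (nat_lit 123056) (nat_lit 155) (.e (nat_lit 122919) (nat_lit 15) (.e (nat_lit 360451) (nat_lit 0) (.e (nat_lit 7122) (nat_lit 382) .nil)))) .nil)))) (.nd (nat_lit 5) (.nd (nat_lit 6) 
(.lf (nat_lit 243483) (.g (nat_lit 2005) (.e (nat_lit 123019) (nat_lit 122) (.e (nat_lit 1221) (nat_lit 90) (.e (nat_lit 81956) (nat_lit 23) (.e (nat_lit 98350) (nat_lit 24) (.e (nat_lit 409648) (nat_lit 18) .nil))))) .nil)) 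
(.lf (nat_lit 243547) (.g (nat_lit 1600) (.e (nat_lit 130816) (nat_lit 154) (.e (nat_lit 57427) (nat_lit 15) (.e (nat_lit 360450) (nat_lit 0) (.e (nat_lit 7265) (nat_lit 384) .nil)))) .nil))) (.nd (nat_lit 6) 
(.lf (nat_lit 243515) (.g (nat_lit 1361) (.e (nat_lit 123040) (nat_lit 140) (.e (nat_lit 1199) (nat_lit 88) (.e (nat_lit 65630) (nat_lit 14) (.e (nat_lit 401425) (nat_lit 2) .nil)))) .nil)) 
(.lf (nat_lit 243579) (.g (nat_lit 1164) (.e (nat_lit 123058) (nat_lit 156) (.e (nat_lit 163907) (nat_lit 12) (.e (nat_lit 426428) (nat_lit 17) .nil))) .nil)))))) (.nd (nat_lit 3) (.nd (nat_lit 4) (.nd (nat_lit 5) (.nd (nat_lit 6) 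
(.lf (nat_lit 243463) (.g (nat_lit 2083) (.e (nat_lit 123015) (nat_lit 122) (.e (nat_lit 1220) (nat_lit 90) (.e (nat_lit 81956) (nat_lit 23) (.e (nat_lit 98350) (nat_lit 24) (.e (nat_lit 409648) (nat_lit 18) .nil))))) .nil)) 
(.lf (nat_lit 243527) (.g (nat_lit 584) (.e (nat_lit 130816) (nat_lit 140) (.e (nat_lit 1212) (nat_lit 89) (.e (nat_lit 73789) (nat_lit 45) .nil))) .nil))) (.nd (nat_lit 6) 
(.lf (nat_lit 243495) (.g (nat_lit 1610) (.e (nat_lit 130816) (nat_lit 126) (.e (nat_lit 163933) (nat_lit 17) (.e (nat_lit 466971) (nat_lit 21) (.e (nat_lit 164195) (nat_lit 158) (.e (nat_lit 1221) (nat_lit 90) .nil))))) .nil)) 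
(.lf (nat_lit 243559) (.g (nat_lit 1180) (.e (nat_lit 123056) (nat_lit 155) (.e (nat_lit 122917) (nat_lit 15) (.e (nat_lit 360449) (nat_lit 0) (.e (nat_lit 7265) (nat_lit 384) .nil)))) .nil)))) (.nd (nat_lit 5) (.nd (nat_lit 6) 
(.lf (nat_lit 243479) (.g (nat_lit 1865) (.e (nat_lit 123019) (nat_lit 122) (.e (nat_lit 1211) (nat_lit 89) (.e (nat_lit 73755) (nat_lit 8) (.e (nat_lit 557096) (nat_lit 13) (.e (nat_lit 172064) (nat_lit 2) .nil))))) .nil)) 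
(.lf (nat_lit 243543) (.g (nat_lit 1122) (.e (nat_lit 130816) (nat_lit 152) (.e (nat_lit 1221) (nat_lit 90) (.e (nat_lit 81965) (nat_lit 26) (.e (nat_lit 147463) (nat_lit 9) .nil)))) .nil))) (.nd (nat_lit 6) 
(.lf (nat_lit 243511) (.g (nat_lit 957) (.e (nat_lit 123040) (nat_lit 140) (.e (nat_lit 1190) (nat_lit 88) (.e (nat_lit 65623) (nat_lit 12) (.e (nat_lit 385074) (nat_lit 31) .nil)))) .nil)) 
(.lf (nat_lit 243575) (.g (nat_lit 1494) (.e (nat_lit 123057) (nat_lit 156) (.e (nat_lit 163902) (nat_lit 12) (.e (nat_lit 426428) (nat_lit 17) (.e (nat_lit 90170) (nat_lit 13) .nil)))) .nil))))) (.nd (nat_lit 4) (.nd (nat_lit 5) (.nd (nat_lit 6) 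
(.lf (nat_lit 243471) (.g (nat_lit 1265) (.e (nat_lit 123018) (nat_lit 122) (.e (nat_lit 1221) (nat_lit 90) (.e (nat_lit 81956) (nat_lit 23) (.e (nat_lit 98350) (nat_lit 24) .nil)))) .nil)) 
(.lf (nat_lit 243535) (.g (nat_lit 1100) (.e (nat_lit 130816) (nat_lit 142) (.e (nat_lit 57426) (nat_lit 15) (.e (nat_lit 360471) (nat_lit 7) (.e (nat_lit 548891) (nat_lit 11) .nil)))) .nil))) (.nd (nat_lit 6) 
(.lf (nat_lit 243503) (.g (nat_lit 2453) (.e (nat_lit 130816) (nat_lit 128) (.e (nat_lit 1221) (nat_lit 90) (.e (nat_lit 81956) (nat_lit 23) (.e (nat_lit 98384) (nat_lit 32) .nil)))) .nil)) 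
(.lf (nat_lit 243567) (.g (nat_lit 2299) (.e (nat_lit 123056) (nat_lit 155) (.e (nat_lit 122919) (nat_lit 15) (.e (nat_lit 360451) (nat_lit 0) (.e (nat_lit 7125) (nat_lit 382) (.e (nat_lit 1224) (nat_lit 90) .nil))))) .nil)))) (.nd (nat_lit 5) (.nd (nat_lit 6) 
(.lf (nat_lit 243487) (.g (nat_lit 1916) (.e (nat_lit 123023) (nat_lit 124) (.e (nat_lit 57367) (nat_lit 1) (.e (nat_lit 57847) (nat_lit 252) (.e (nat_lit 57446) (nat_lit 19) .nil)))) .nil)) 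
(.lf (nat_lit 243551) (.g (nat_lit 785) (.e (nat_lit 123056) (nat_lit 155) (.e (nat_lit 122916) (nat_lit 14) (.e (nat_lit 352296) (nat_lit 20) .nil))) .nil))) (.nd (nat_lit 6) 
(.lf (nat_lit 243519) (.g (nat_lit 3464) (.e (nat_lit 123040) (nat_lit 140) (.e (nat_lit 1221) (nat_lit 90) (.e (nat_lit 81956) (nat_lit 23) (.e (nat_lit 98320) (nat_lit 17) .nil)))) .nil)) 
(.lf (nat_lit 243583) (.g (nat_lit 1799) (.e (nat_lit 130816) (nat_lit 161) (.e (nat_lit 122919) (nat_lit 15) (.e (nat_lit 360475) (nat_lit 8) (.e (nat_lit 557089) (nat_lit 12) .nil)))) .nil)))))))))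

noncomputable def tv3174 : DT := (.nd (nat_lit 0) (.nd (nat_lit 1) (.nd (nat_lit 2) (.nd (nat_lit 3) (.nd (nat_lit 4) (.nd (nat_lit 5) (.nd (nat_lit 6) 
(.lf (nat_lit 243584) (.g (nat_lit 836) (.e (nat_lit 130816) (nat_lit 164) (.e (nat_lit 2650) (nat_lit 166) (.e (nat_lit 188455) (nat_lit 24) (.e (nat_lit 237312) (nat_lit 122) .nil)))) .nil)) 
(.lf (nat_lit 243648) (.g (nat_lit 1665) (.e (nat_lit 123085) (nat_lit 181) (.e (nat_lit 1200) (nat_lit 88) (.e (nat_lit 65619) (nat_lit 10) (.e (nat_lit 344160) (nat_lit 37) (.e (nat_lit 647195) (nat_lit 9) .nil))))) .nil))) (.nd (nat_lit 6) 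
(.lf (nat_lit 243616) (.g (nat_lit 1442) (.e (nat_lit 130816) (nat_lit 176) (.e (nat_lit 1348) (nat_lit 102) (.e (nat_lit 286735) (nat_lit 3) (.e (nat_lit 98381) (nat_lit 31) .nil)))) .nil)) 
(.lf (nat_lit 243680) (.g (nat_lit 1663) (.e (nat_lit 130816) (nat_lit 206) (.e (nat_lit 180243) (nat_lit 5) (.e (nat_lit 532523) (nat_lit 7) (.e (nat_lit 319537) (nat_lit 19) .nil)))) .nil)))) (.nd (nat_lit 5) (.nd (nat_lit 6) 
(.lf (nat_lit 243600) (.g (nat_lit 1881) (.e (nat_lit 123075) (nat_lit 176) (.e (nat_lit 1348) (nat_lit 102) (.e (nat_lit 286735) (nat_lit 3) (.e (nat_lit 98382) (nat_lit 31) .nil)))) .nil)) 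
(.lf (nat_lit 243664) (.g (nat_lit 1556) (.e (nat_lit 123096) (nat_lit 187) (.e (nat_lit 1638) (nat_lit 114) (.e (nat_lit 385067) (nat_lit 26) (.e (nat_lit 532511) (nat_lit 2) (.e (nat_lit 106536) (nat_lit 11) .nil))))) .nil))) (.nd (nat_lit 6) 
(.lf (nat_lit 243632) (.g (nat_lit 338) (.e (nat_lit 123080) (nat_lit 177) (.e (nat_lit 57887) (nat_lit 270) (.e (nat_lit 1250) (nat_lit 92) .nil))) .nil)) 
(.lf (nat_lit 243696) (.g (nat_lit 3776) (.e (nat_lit 123109) (nat_lit 209) (.e (nat_lit 1200) (nat_lit 88) (.e (nat_lit 65619) (nat_lit 10) (.e (nat_lit 344117) (nat_lit 21) (.e (nat_lit 516195) (nat_lit 26) (.e (nat_lit 335995) (nat_lit 1) (.e (nat_lit 57847) (nat_lit 252) (.e (nat_lit 57392) (nat_lit 6) .nil)))))))) (.g (nat_lit 8) .nil .nil)))))) 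
(.nd (nat_lit 4) (.nd (nat_lit 5) (.nd (nat_lit 6) 
(.lf (nat_lit 243592) (.g (nat_lit 450) (.e (nat_lit 123072) (nat_lit 176) (.e (nat_lit 1349) (nat_lit 102) (.e (nat_lit 286727) (nat_lit 0) .nil))) .nil)) 
(.lf (nat_lit 243656) (.g (nat_lit 682) (.e (nat_lit 123092) (nat_lit 183) (.e (nat_lit 57373) (nat_lit 2) (.e (nat_lit 98048) (nat_lit 6) .nil))) .nil))) (.nd (nat_lit 6) 
(.lf (nat_lit 243624) (.g (nat_lit 807) (.e (nat_lit 123080) (nat_lit 177) (.e (nat_lit 57881) (nat_lit 270) (.e (nat_lit 1061) (nat_lit 81) .nil))) .nil)) 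
(.lf (nat_lit 243688) (.g (nat_lit 2358) (.e (nat_lit 130816) (nat_lit 206) (.e (nat_lit 180244) (nat_lit 5) (.e (nat_lit 532523) (nat_lit 7) (.e (nat_lit 319537) (nat_lit 19) (.e (nat_lit 311312) (nat_lit 2) .nil))))) .nil)))) (.nd (nat_lit 5) (.nd (nat_lit 6) 
(.lf (nat_lit 243608) (.g (nat_lit 1624) (.e (nat_lit 130816) (nat_lit 176) (.e (nat_lit 1348) (nat_lit 102) (.e (nat_lit 286735) (nat_lit 3) (.e (nat_lit 98357) (nat_lit 26) .nil)))) .nil)) 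
(.lf (nat_lit 243672) (.g (nat_lit 2893) (.e (nat_lit 123096) (nat_lit 187) (.e (nat_lit 1661) (nat_lit 115) (.e (nat_lit 393260) (nat_lit 21) (.e (nat_lit 409649) (nat_lit 18) (.e (nat_lit 303111) (nat_lit 0) .nil))))) .nil))) (.nd (nat_lit 6) 
(.lf (nat_lit 243640) (.g (nat_lit 403) (.e (nat_lit 123080) (nat_lit 177) (.e (nat_lit 57891) (nat_lit 270) (.e (nat_lit 1253) (nat_lit 92) .nil))) .nil)) 
(.lf (nat_lit 243704) (.g (nat_lit 3654) (.e (nat_lit 123109) (nat_lit 209) (.e (nat_lit 1221) (nat_lit 90) (.e (nat_lit 81956) (nat_lit 23) (.e (nat_lit 98313) (nat_lit 9) (.e (nat_lit 335986) (nat_lit 1) .nil))))) .nil)))))) (.nd (nat_lit 3) (.nd (nat_lit 4) (.nd (nat_lit 5) (.nd (nat_lit 6) 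
(.lf (nat_lit 243588) (.g (nat_lit 953) (.e (nat_lit 130816) (nat_lit 172) (.e (nat_lit 57447) (nat_lit 19) (.e (nat_lit 393260) (nat_lit 21) .nil))) .nil)) 
(.lf (nat_lit 243652) (.g (nat_lit 1665) (.e (nat_lit 123086) (nat_lit 181) (.e (nat_lit 1200) (nat_lit 88) (.e (nat_lit 65619) (nat_lit 10) (.e (nat_lit 344160) (nat_lit 37) (.e (nat_lit 647195) (nat_lit 9) .nil))))) .nil))) (.nd (nat_lit 6) 
(.lf (nat_lit 243620) (.g (nat_lit 2808) (.e (nat_lit 130816) (nat_lit 176) (.e (nat_lit 1349) (nat_lit 102) (.e (nat_lit 286735) (nat_lit 3) (.e (nat_lit 98356) (nat_lit 26) (.e (nat_lit 426270) (nat_lit 9) .nil))))) .nil)) 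
(.lf (nat_lit 243684) (.g (nat_lit 1258) (.e (nat_lit 130816) (nat_lit 206) (.e (nat_lit 180243) (nat_lit 5) (.e (nat_lit 532525) (nat_lit 8) (.e (nat_lit 327718) (nat_lit 19) .nil)))) .nil)))) (.nd (nat_lit 5) (.nd (nat_lit 6) 
(.lf (nat_lit 243604) (.g (nat_lit 1628) (.e (nat_lit 130816) (nat_lit 176) (.e (nat_lit 1348) (nat_lit 102) (.e (nat_lit 286735) (nat_lit 3) (.e (nat_lit 98354) (nat_lit 26) .nil)))) .nil)) 
(.lf (nat_lit 243668) (.g (nat_lit 2561) (.e (nat_lit 123096) (nat_lit 187) (.e (nat_lit 1661) (nat_lit 115) (.e (nat_lit 393260) (nat_lit 21) (.e (nat_lit 409645) (nat_lit 18) .nil)))) .nil))) (.nd (nat_lit 6) 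
(.lf (nat_lit 243636) (.g (nat_lit 992) (.e (nat_lit 123080) (nat_lit 177) (.e (nat_lit 57887) (nat_lit 270) (.e (nat_lit 1656) (nat_lit 115) (.e (nat_lit 393289) (nat_lit 25) .nil)))) .nil)) 
(.lf (nat_lit 243700) (.g (nat_lit 3701) (.e (nat_lit 123109) (nat_lit 209) (.e (nat_lit 1220) (nat_lit 90) (.e (nat_lit 81956) (nat_lit 23) (.e (nat_lit 98313) (nat_lit 9) (.e (nat_lit 335986) (nat_lit 1) .nil))))) .nil))))) (.nd (nat_lit 4) (.nd (nat_lit 5) (.nd (nat_lit 6) 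
(.lf (nat_lit 243596) (.g (nat_lit 255) (.e (nat_lit 123073) (nat_lit 176) (.e (nat_lit 1367) (nat_lit 103) (.e (nat_lit 294930) (nat_lit 3) .nil))) .nil)) 
(.lf (nat_lit 243660) (.g (nat_lit 1390) (.e (nat_lit 123096) (nat_lit 187) (.e (nat_lit 1638) (nat_lit 114) (.e (nat_lit 385067) (nat_lit 26) (.e (nat_lit 532508) (nat_lit 2) (.e (nat_lit 106534) (nat_lit 11) .nil))))) .nil))) (.nd (nat_lit 6) 
(.lf (nat_lit 243628) (.g (nat_lit 409) (.e (nat_lit 123080) (nat_lit 177) (.e (nat_lit 57881) (nat_lit 270) (.e (nat_lit 7936) (nat_lit 92) .nil))) .nil)) 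
(.lf (nat_lit 243692) (.g (nat_lit 338) (.e (nat_lit 130816) (nat_lit 206) (.e (nat_lit 180252) (nat_lit 10) (.e (nat_lit 573471) (nat_lit 11) .nil))) .nil)))) (.nd (nat_lit 5) (.nd (nat_lit 6) 
(.lf (nat_lit 243612) (.g (nat_lit 1402) (.e (nat_lit 130816) (nat_lit 176) (.e (nat_lit 1348) (nat_lit 102) (.e (nat_lit 286735) (nat_lit 3) (.e (nat_lit 98374) (nat_lit 29) .nil)))) .nil)) 
(.lf (nat_lit 243676) (.g (nat_lit 4452) (.e (nat_lit 130816) (nat_lit 187) (.e (nat_lit 1656) (nat_lit 115) (.e (nat_lit 393301) (nat_lit 27) (.e (nat_lit 491559) (nat_lit 10) (.e (nat_lit 344177) (nat_lit 43) .nil))))) .nil))) (.nd (nat_lit 6) 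
(.lf (nat_lit 243644) (.g (nat_lit 2160) (.e (nat_lit 123080) (nat_lit 177) (.e (nat_lit 57891) (nat_lit 270) (.e (nat_lit 1253) (nat_lit 92) (.e (nat_lit 98373) (nat_lit 29) (.e (nat_lit 458496) (nat_lit 1) .nil))))) .nil)) 
(.lf (nat_lit 243708) (.g (nat_lit 933) (.e (nat_lit 130816) (nat_lit 211) (.e (nat_lit 57373) (nat_lit 2) (.e (nat_lit 90178) (nat_lit 15) (.e (nat_lit 196352) (nat_lit 18) .nil)))) .nil))))))) (.nd (nat_lit 2) (.nd (nat_lit 3) (.nd (nat_lit 4) (.nd (nat_lit 5) (.nd (nat_lit 6) 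
(.lf (nat_lit 243586) (.g (nat_lit 1066) (.e (nat_lit 130816) (nat_lit 172) (.e (nat_lit 57375) (nat_lit 2) (.e (nat_lit 90176) (nat_lit 15) (.e (nat_lit 188450) (nat_lit 23) .nil)))) .nil)) 
(.lf (nat_lit 243650) (.g (nat_lit 4658) (.e (nat_lit 123086) (nat_lit 181) (.e (nat_lit 1182) (nat_lit 87) (.e (nat_lit 57479) (nat_lit 28) (.e (nat_lit 557105) (nat_lit 14) (.e (nat_lit 180252) (nat_lit 10) (.e (nat_lit 573489) (nat_lit 14) (.e (nat_lit 73755) (nat_lit 8) (.e (nat_lit 557067) (nat_lit 9) (.e (nat_lit 128) (nat_lit 6) .nil))))))))) (.g (nat_lit 9) .nil .nil)))) (.nd (nat_lit 6) 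
(.lf (nat_lit 243618) (.g (nat_lit 1505) (.e (nat_lit 130816) (nat_lit 176) (.e (nat_lit 1349) (nat_lit 102) (.e (nat_lit 286735) (nat_lit 3) (.e (nat_lit 98356) (nat_lit 26) .nil)))) .nil)) 
(.lf (nat_lit 243682) (.g (nat_lit 3127) (.e (nat_lit 130816) (nat_lit 206) (.e (nat_lit 180243) (nat_lit 5) (.e (nat_lit 532523) (nat_lit 7) (.e (nat_lit 319538) (nat_lit 19) (.e (nat_lit 311312) (nat_lit 2) .nil))))) .nil)))) (.nd (nat_lit 5) (.nd (nat_lit 6) 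
(.lf (nat_lit 243602) (.g (nat_lit 1746) (.e (nat_lit 130816) (nat_lit 176) (.e (nat_lit 1348) (nat_lit 102) (.e (nat_lit 286733) (nat_lit 2) (.e (nat_lit 90178) (nat_lit 15) (.e (nat_lit 188449) (nat_lit 22) .nil))))) .nil)) 
(.lf (nat_lit 243666) (.g (nat_lit 2867) (.e (nat_lit 123096) (nat_lit 187) (.e (nat_lit 1659) (nat_lit 115) (.e (nat_lit 393301) (nat_lit 27) (.e (nat_lit 491560) (nat_lit 10) (.e (nat_lit 344176) (nat_lit 43) .nil))))) .nil))) (.nd (nat_lit 6) 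
(.lf (nat_lit 243634) (.g (nat_lit 755) (.e (nat_lit 123080) (nat_lit 177) (.e (nat_lit 57887) (nat_lit 270) (.e (nat_lit 1250) (nat_lit 92) (.e (nat_lit 98370) (nat_lit 28) .nil)))) .nil)) 
(.lf (nat_lit 243698) (.g (nat_lit 3560) (.e (nat_lit 123109) (nat_lit 209) (.e (nat_lit 1220) (nat_lit 90) (.e (nat_lit 81953) (nat_lit 22) (.e (nat_lit 90160) (nat_lit 11) .nil)))) .nil))))) (.nd (nat_lit 4) (.nd (nat_lit 5) (.nd (nat_lit 6) 
(.lf (nat_lit 243594) (.g (nat_lit 1500) (.e (nat_lit 123072) (nat_lit 176) (.e (nat_lit 1349) (nat_lit 102) (.e (nat_lit 286735) (nat_lit 3) (.e (nat_lit 98382) (nat_lit 31) .nil)))) .nil)) 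
(.lf (nat_lit 243658) (.g (nat_lit 1368) (.e (nat_lit 123092) (nat_lit 183) (.e (nat_lit 57379) (nat_lit 3) (.e (nat_lit 98313) (nat_lit 9) (.e (nat_lit 336223) (nat_lit 13) .nil)))) .nil))) (.nd (nat_lit 6) 
(.lf (nat_lit 243626) (.g (nat_lit 807) (.e (nat_lit 123080) (nat_lit 177) (.e (nat_lit 57881) (nat_lit 270) (.e (nat_lit 1065) (nat_lit 81) .nil))) .nil)) 
(.lf (nat_lit 243690) (.g (nat_lit 2584) (.e (nat_lit 130816) (nat_lit 206) (.e (nat_lit 180244) (nat_lit 5) (.e (nat_lit 532523) (nat_lit 7) (.e (nat_lit 319539) (nat_lit 19) (.e (nat_lit 311312) (nat_lit 2) .nil))))) .nil)))) (.nd (nat_lit 5) (.nd (nat_lit 6) 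
(.lf (nat_lit 243610) (.g (nat_lit 1105) (.e (nat_lit 130816) (nat_lit 176) (.e (nat_lit 1348) (nat_lit 102) (.e (nat_lit 286735) (nat_lit 3) (.e (nat_lit 106240) (nat_lit 26) .nil)))) .nil)) 
(.lf (nat_lit 243674) (.g (nat_lit 1507) (.e (nat_lit 123096) (nat_lit 187) (.e (nat_lit 1661) (nat_lit 115) (.e (nat_lit 393299) (nat_lit 27) (.e (nat_lit 491560) (nat_lit 10) .nil)))) .nil))) (.nd (nat_lit 6) 
(.lf (nat_lit 243642) (.g (nat_lit 2679) (.e (nat_lit 123080) (nat_lit 177) (.e (nat_lit 57891) (nat_lit 270) (.e (nat_lit 1253) (nat_lit 92) (.e (nat_lit 98358) (nat_lit 26) (.e (nat_lit 426270) (nat_lit 9) (.e (nat_lit 426124) (nat_lit 2) (.e (nat_lit 196677) (nat_lit 16) .nil))))))) (.g (nat_lit 4) .nil .nil))) 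
(.lf (nat_lit 243706) (.g (nat_lit 1370) (.e (nat_lit 130816) (nat_lit 211) (.e (nat_lit 57372) (nat_lit 2) (.e (nat_lit 90176) (nat_lit 15) (.e (nat_lit 196352) (nat_lit 18) .nil)))) .nil)))))) (.nd (nat_lit 3) (.nd (nat_lit 4) (.nd (nat_lit 5) (.nd (nat_lit 6) 
(.lf (nat_lit 243590) (.g (nat_lit 2025) (.e (nat_lit 123072) (nat_lit 176) (.e (nat_lit 1348) (nat_lit 102) (.e (nat_lit 286735) (nat_lit 3) (.e (nat_lit 98381) (nat_lit 31) .nil)))) .nil)) 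
(.lf (nat_lit 243654) (.g (nat_lit 3938) (.e (nat_lit 123091) (nat_lit 183) (.e (nat_lit 57377) (nat_lit 3) (.e (nat_lit 98317) (nat_lit 9) (.e (nat_lit 336223) (nat_lit 13) .nil)))) .nil))) (.nd (nat_lit 6) 
(.lf (nat_lit 243622) (.g (nat_lit 1604) (.e (nat_lit 130816) (nat_lit 176) (.e (nat_lit 1349) (nat_lit 102) (.e (nat_lit 286735) (nat_lit 3) (.e (nat_lit 98380) (nat_lit 31) .nil)))) .nil)) 
(.lf (nat_lit 243686) (.g (nat_lit 1291) (.e (nat_lit 130816) (nat_lit 206) (.e (nat_lit 180244) (nat_lit 5) (.e (nat_lit 532522) (nat_lit 7) (.e (nat_lit 319538) (nat_lit 19) .nil)))) .nil)))) (.nd (nat_lit 5) (.nd (nat_lit 6) 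
(.lf (nat_lit 243606) (.g (nat_lit 2713) (.e (nat_lit 130816) (nat_lit 176) (.e (nat_lit 1348) (nat_lit 102) (.e (nat_lit 286735) (nat_lit 3) (.e (nat_lit 98355) (nat_lit 26) (.e (nat_lit 426270) (nat_lit 9) .nil))))) .nil)) 
(.lf (nat_lit 243670) (.g (nat_lit 2532) (.e (nat_lit 123096) (nat_lit 187) (.e (nat_lit 1661) (nat_lit 115) (.e (nat_lit 393260) (nat_lit 21) (.e (nat_lit 409648) (nat_lit 18) (.e (nat_lit 303115) (nat_lit 1) .nil))))) .nil))) (.nd (nat_lit 6) 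
(.lf (nat_lit 243638) (.g (nat_lit 315) (.e (nat_lit 123080) (nat_lit 177) (.e (nat_lit 57891) (nat_lit 270) (.e (nat_lit 1235) (nat_lit 91) .nil))) .nil)) 
(.lf (nat_lit 243702) (.g (nat_lit 3186) (.e (nat_lit 123109) (nat_lit 209) (.e (nat_lit 1221) (nat_lit 90) (.e (nat_lit 81953) (nat_lit 22) (.e (nat_lit 90160) (nat_lit 11) .nil)))) .nil))))) (.nd (nat_lit 4) (.nd (nat_lit 5) (.nd (nat_lit 6) 
(.lf (nat_lit 243598) (.g (nat_lit 2680) (.e (nat_lit 123073) (nat_lit 176) (.e (nat_lit 1367) (nat_lit 103) (.e (nat_lit 294931) (nat_lit 3) (.e (nat_lit 98381) (nat_lit 31) (.e (nat_lit 466977) (nat_lit 22) (.e (nat_lit 196677) (nat_lit 16) .nil)))))) (.g (nat_lit 6) .nil .nil))) 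
(.lf (nat_lit 243662) (.g (nat_lit 1532) (.e (nat_lit 123096) (nat_lit 187) (.e (nat_lit 1638) (nat_lit 114) (.e (nat_lit 385067) (nat_lit 26) (.e (nat_lit 532510) (nat_lit 2) (.e (nat_lit 106536) (nat_lit 11) .nil))))) .nil))) (.nd (nat_lit 6) 
(.lf (nat_lit 243630) (.g (nat_lit 178) (.e (nat_lit 123080) (nat_lit 177) (.e (nat_lit 57887) (nat_lit 270) (.e (nat_lit 1232) (nat_lit 91) .nil))) .nil)) 
(.lf (nat_lit 243694) (.g (nat_lit 1638) (.e (nat_lit 130816) (nat_lit 206) (.e (nat_lit 180271) (nat_lit 26) (.e (nat_lit 704737) (nat_lit 11) (.e (nat_lit 16448) (nat_lit 10) (.e (nat_lit 434283) (nat_lit 41) .nil))))) .nil)))) (.nd (nat_lit 5) (.nd (nat_lit 6) 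
(.lf (nat_lit 243614) (.g (nat_lit 2463) (.e (nat_lit 130816) (nat_lit 176) (.e (nat_lit 1348) (nat_lit 102) (.e (nat_lit 286735) (nat_lit 3) (.e (nat_lit 98379) (nat_lit 31) (.e (nat_lit 466977) (nat_lit 22) .nil))))) .nil)) 
(.lf (nat_lit 243678) (.g (nat_lit 1058) (.e (nat_lit 130816) (nat_lit 203) (.e (nat_lit 24651) (nat_lit 12) (.e (nat_lit 385106) (nat_lit 50) (.e (nat_lit 786477) (nat_lit 28) .nil)))) .nil))) (.nd (nat_lit 6) 
(.lf (nat_lit 243646) (.g (nat_lit 919) (.e (nat_lit 123081) (nat_lit 178) (.e (nat_lit 123145) (nat_lit 249) (.e (nat_lit 237312) (nat_lit 84) (.e (nat_lit 516151) (nat_lit 9) (.e (nat_lit 426211) (nat_lit 9) (.e (nat_lit 426125) (nat_lit 2) (.e (nat_lit 204544) (nat_lit 16) .nil))))))) (.g (nat_lit 6) .nil .nil))) 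
(.lf (nat_lit 243710) (.g (nat_lit 1362) (.e (nat_lit 130816) (nat_lit 211) (.e (nat_lit 57378) (nat_lit 3) (.e (nat_lit 98365) (nat_lit 26) (.e (nat_lit 426187) (nat_lit 9) (.e (nat_lit 426566) (nat_lit 34) .nil))))) .nil)))))))) (.nd (nat_lit 1) (.nd (nat_lit 2) (.nd (nat_lit 3) (.nd (nat_lit 4) (.nd (nat_lit 5) (.nd (nat_lit 6) 
(.lf (nat_lit 243585) (.g (nat_lit 458) (.e (nat_lit 130816) (nat_lit 172) (.e (nat_lit 57372) (nat_lit 2) (.e (nat_lit 90176) (nat_lit 15) .nil))) .nil)) 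
(.lf (nat_lit 243649) (.g (nat_lit 2322) (.e (nat_lit 123086) (nat_lit 181) (.e (nat_lit 1181) (nat_lit 87) (.e (nat_lit 57479) (nat_lit 28) (.e (nat_lit 557105) (nat_lit 14) (.e (nat_lit 180252) (nat_lit 10) .nil))))) .nil))) (.nd (nat_lit 6) 
(.lf (nat_lit 243617) (.g (nat_lit 1186) (.e (nat_lit 130816) (nat_lit 176) (.e (nat_lit 1348) (nat_lit 102) (.e (nat_lit 286735) (nat_lit 3) (.e (nat_lit 98382) (nat_lit 31) .nil)))) .nil)) 
(.lf (nat_lit 243681) (.g (nat_lit 1696) (.e (nat_lit 130816) (nat_lit 206) (.e (nat_lit 180243) (nat_lit 5) (.e (nat_lit 532523) (nat_lit 7) (.e (nat_lit 319538) (nat_lit 19) .nil)))) .nil)))) (.nd (nat_lit 5) (.nd (nat_lit 6) 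
(.lf (nat_lit 243601) (.g (nat_lit 1194) (.e (nat_lit 130816) (nat_lit 176) (.e (nat_lit 1348) (nat_lit 102) (.e (nat_lit 286733) (nat_lit 2) (.e (nat_lit 90169) (nat_lit 13) (.e (nat_lit 172094) (nat_lit 9) .nil))))) .nil)) 
(.lf (nat_lit 243665) (.g (nat_lit 2850) (.e (nat_lit 123096) (nat_lit 187) (.e (nat_lit 1659) (nat_lit 115) (.e (nat_lit 393301) (nat_lit 27) (.e (nat_lit 491560) (nat_lit 10) (.e (nat_lit 344087) (nat_lit 18) .nil))))) .nil))) (.nd (nat_lit 6) 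
(.lf (nat_lit 243633) (.g (nat_lit 1274) (.e (nat_lit 123080) (nat_lit 177) (.e (nat_lit 57887) (nat_lit 270) (.e (nat_lit 1250) (nat_lit 92) (.e (nat_lit 98369) (nat_lit 28) (.e (nat_lit 442422) (nat_lit 22) .nil))))) .nil)) 
(.lf (nat_lit 243697) (.g (nat_lit 2012) (.e (nat_lit 123109) (nat_lit 209) (.e (nat_lit 1219) (nat_lit 90) (.e (nat_lit 81956) (nat_lit 23) (.e (nat_lit 98313) (nat_lit 9) .nil)))) .nil))))) (.nd (nat_lit 4) (.nd (nat_lit 5) (.nd (nat_lit 6) 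
(.lf (nat_lit 243593) (.g (nat_lit 2490) (.e (nat_lit 123072) (nat_lit 176) (.e (nat_lit 1349) (nat_lit 102) (.e (nat_lit 286735) (nat_lit 3) (.e (nat_lit 98381) (nat_lit 31) (.e (nat_lit 466977) (nat_lit 22) .nil))))) .nil)) 
(.lf (nat_lit 243657) (.g (nat_lit 1728) (.e (nat_lit 123092) (nat_lit 183) (.e (nat_lit 57378) (nat_lit 3) (.e (nat_lit 98313) (nat_lit 9) (.e (nat_lit 336223) (nat_lit 13) (.e (nat_lit 393234) (nat_lit 17) .nil))))) .nil))) (.nd (nat_lit 6) 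
(.lf (nat_lit 243625) (.g (nat_lit 1423) (.e (nat_lit 123080) (nat_lit 177) (.e (nat_lit 57881) (nat_lit 270) (.e (nat_lit 1061) (nat_lit 81) (.e (nat_lit 1800) (nat_lit 119) (.e (nat_lit 516176) (nat_lit 14) .nil))))) .nil)) 
(.lf (nat_lit 243689) (.g (nat_lit 3043) (.e (nat_lit 130816) (nat_lit 206) (.e (nat_lit 180244) (nat_lit 5) (.e (nat_lit 532523) (nat_lit 7) (.e (nat_lit 319538) (nat_lit 19) (.e (nat_lit 311311) (nat_lit 2) .nil))))) .nil)))) (.nd (nat_lit 5) (.nd (nat_lit 6) 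
(.lf (nat_lit 243609) (.g (nat_lit 1624) (.e (nat_lit 130816) (nat_lit 176) (.e (nat_lit 1348) (nat_lit 102) (.e (nat_lit 286735) (nat_lit 3) (.e (nat_lit 98362) (nat_lit 26) .nil)))) .nil)) 
(.lf (nat_lit 243673) (.g (nat_lit 2733) (.e (nat_lit 123096) (nat_lit 187) (.e (nat_lit 1661) (nat_lit 115) (.e (nat_lit 393260) (nat_lit 21) (.e (nat_lit 409649) (nat_lit 18) (.e (nat_lit 303115) (nat_lit 1) .nil))))) .nil))) (.nd (nat_lit 6) 
(.lf (nat_lit 243641) (.g (nat_lit 2367) (.e (nat_lit 123080) (nat_lit 177) (.e (nat_lit 57891) (nat_lit 270) (.e (nat_lit 1253) (nat_lit 92) (.e (nat_lit 98358) (nat_lit 26) (.e (nat_lit 426241) (nat_lit 9) .nil))))) .nil)) 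
(.lf (nat_lit 243705) (.g (nat_lit 3581) (.e (nat_lit 123109) (nat_lit 209) (.e (nat_lit 1221) (nat_lit 90) (.e (nat_lit 81956) (nat_lit 23) (.e (nat_lit 98313) (nat_lit 9) (.e (nat_lit 335995) (nat_lit 1) .nil))))) .nil)))))) (.nd (nat_lit 3) (.nd (nat_lit 4) (.nd (nat_lit 5) (.nd (nat_lit 6) 
(.lf (nat_lit 243589) (.g (nat_lit 1485) (.e (nat_lit 130816) (nat_lit 172) (.e (nat_lit 57447) (nat_lit 19) (.e (nat_lit 393301) (nat_lit 27) (.e (nat_lit 491560) (nat_lit 10) .nil)))) .nil)) 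
(.lf (nat_lit 243653) (.g (nat_lit 1002) (.e (nat_lit 123091) (nat_lit 183) (.e (nat_lit 57377) (nat_lit 3) (.e (nat_lit 98313) (nat_lit 9) (.e (nat_lit 336223) (nat_lit 13) .nil)))) .nil))) (.nd (nat_lit 6) 
(.lf (nat_lit 243621) (.g (nat_lit 1405) (.e (nat_lit 130816) (nat_lit 176) (.e (nat_lit 1349) (nat_lit 102) (.e (nat_lit 286735) (nat_lit 3) (.e (nat_lit 106240) (nat_lit 26) .nil)))) .nil)) 
(.lf (nat_lit 243685) (.g (nat_lit 1056) (.e (nat_lit 130816) (nat_lit 206) (.e (nat_lit 180243) (nat_lit 5) (.e (nat_lit 532526) (nat_lit 8) (.e (nat_lit 327718) (nat_lit 19) .nil)))) .nil)))) (.nd (nat_lit 5) (.nd (nat_lit 6) 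
(.lf (nat_lit 243605) (.g (nat_lit 1623) (.e (nat_lit 130816) (nat_lit 176) (.e (nat_lit 1348) (nat_lit 102) (.e (nat_lit 286735) (nat_lit 3) (.e (nat_lit 98355) (nat_lit 26) .nil)))) .nil)) 
(.lf (nat_lit 243669) (.g (nat_lit 2017) (.e (nat_lit 123096) (nat_lit 187) (.e (nat_lit 1661) (nat_lit 115) (.e (nat_lit 393260) (nat_lit 21) (.e (nat_lit 409648) (nat_lit 18) .nil)))) .nil))) (.nd (nat_lit 6) 
(.lf (nat_lit 243637) (.g (nat_lit 2656) (.e (nat_lit 123080) (nat_lit 177) (.e (nat_lit 57890) (nat_lit 270) (.e (nat_lit 1253) (nat_lit 92) (.e (nat_lit 98381) (nat_lit 31) (.e (nat_lit 466977) (nat_lit 22) (.e (nat_lit 196677) (nat_lit 16) .nil)))))) (.g (nat_lit 6) .nil .nil))) 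
(.lf (nat_lit 243701) (.g (nat_lit 3628) (.e (nat_lit 123109) (nat_lit 209) (.e (nat_lit 1220) (nat_lit 90) (.e (nat_lit 81956) (nat_lit 23) (.e (nat_lit 98313) (nat_lit 9) (.e (nat_lit 335995) (nat_lit 1) .nil))))) .nil))))) (.nd (nat_lit 4) (.nd (nat_lit 5) (.nd (nat_lit 6) 
(.lf (nat_lit 243597) (.g (nat_lit 1347) (.e (nat_lit 123073) (nat_lit 176) (.e (nat_lit 1367) (nat_lit 103) (.e (nat_lit 294931) (nat_lit 3) (.e (nat_lit 98372) (nat_lit 29) (.e (nat_lit 450571) (nat_lit 1) .nil))))) .nil)) 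
(.lf (nat_lit 243661) (.g (nat_lit 906) (.e (nat_lit 123096) (nat_lit 187) (.e (nat_lit 1638) (nat_lit 114) (.e (nat_lit 385067) (nat_lit 26) (.e (nat_lit 532510) (nat_lit 2) .nil)))) .nil))) (.nd (nat_lit 6) 
(.lf (nat_lit 243629) (.g (nat_lit 537) (.e (nat_lit 123080) (nat_lit 177) (.e (nat_lit 57883) (nat_lit 270) (.e (nat_lit 1065) (nat_lit 81) .nil))) .nil)) 
(.lf (nat_lit 243693) (.g (nat_lit 454) (.e (nat_lit 130816) (nat_lit 206) (.e (nat_lit 180252) (nat_lit 10) (.e (nat_lit 573474) (nat_lit 12) .nil))) .nil)))) (.nd (nat_lit 5) (.nd (nat_lit 6) 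
(.lf (nat_lit 243613) (.g (nat_lit 2533) (.e (nat_lit 130816) (nat_lit 176) (.e (nat_lit 1348) (nat_lit 102) (.e (nat_lit 286735) (nat_lit 3) (.e (nat_lit 98374) (nat_lit 29) (.e (nat_lit 450575) (nat_lit 1) .nil))))) .nil)) 
(.lf (nat_lit 243677) (.g (nat_lit 2418) (.e (nat_lit 130816) (nat_lit 187) (.e (nat_lit 1659) (nat_lit 115) (.e (nat_lit 393301) (nat_lit 27) (.e (nat_lit 491559) (nat_lit 10) (.e (nat_lit 344177) (nat_lit 43) .nil))))) .nil))) (.nd (nat_lit 6) 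
(.lf (nat_lit 243645) (.g (nat_lit 1028) (.e (nat_lit 123080) (nat_lit 177) (.e (nat_lit 57891) (nat_lit 270) (.e (nat_lit 1253) (nat_lit 92) (.e (nat_lit 98379) (nat_lit 31) .nil)))) .nil)) 
(.lf (nat_lit 243709) (.g (nat_lit 1317) (.e (nat_lit 130816) (nat_lit 211) (.e (nat_lit 57375) (nat_lit 2) (.e (nat_lit 90176) (nat_lit 15) (.e (nat_lit 196352) (nat_lit 18) .nil)))) .nil))))))) (.nd (nat_lit 2) (.nd (nat_lit 3) (.nd (nat_lit 4) (.nd (nat_lit 5) (.nd (nat_lit 6) 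
(.lf (nat_lit 243587) (.g (nat_lit 866) (.e (nat_lit 130816) (nat_lit 172) (.e (nat_lit 57379) (nat_lit 3) (.e (nat_lit 98372) (nat_lit 29) (.e (nat_lit 450579) (nat_lit 5) .nil)))) .nil)) 
(.lf (nat_lit 243651) (.g (nat_lit 3533) (.e (nat_lit 123086) (nat_lit 181) (.e (nat_lit 1182) (nat_lit 87) (.e (nat_lit 57479) (nat_lit 28) (.e (nat_lit 557105) (nat_lit 14) (.e (nat_lit 180252) (nat_lit 10) (.e (nat_lit 573489) (nat_lit 14) (.e (nat_lit 73755) (nat_lit 8) (.e (nat_lit 557068) (nat_lit 9) (.e (nat_lit 128) (nat_lit 6) .nil))))))))) (.g (nat_lit 7) .nil .nil)))) (.nd (nat_lit 6) 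
(.lf (nat_lit 243619) (.g (nat_lit 2406) (.e (nat_lit 130816) (nat_lit 176) (.e (nat_lit 1349) (nat_lit 102) (.e (nat_lit 286735) (nat_lit 3) (.e (nat_lit 98356) (nat_lit 26) (.e (nat_lit 426244) (nat_lit 9) .nil))))) .nil)) 
(.lf (nat_lit 243683) (.g (nat_lit 2164) (.e (nat_lit 130816) (nat_lit 206) (.e (nat_lit 180243) (nat_lit 5) (.e (nat_lit 532523) (nat_lit 7) (.e (nat_lit 319539) (nat_lit 19) .nil)))) .nil)))) (.nd (nat_lit 5) (.nd (nat_lit 6) 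
(.lf (nat_lit 243603) (.g (nat_lit 351) (.e (nat_lit 130816) (nat_lit 176) (.e (nat_lit 1348) (nat_lit 102) (.e (nat_lit 286735) (nat_lit 3) .nil))) .nil)) 
(.lf (nat_lit 243667) (.g (nat_lit 2115) (.e (nat_lit 123096) (nat_lit 187) (.e (nat_lit 1661) (nat_lit 115) (.e (nat_lit 393260) (nat_lit 21) (.e (nat_lit 409643) (nat_lit 18) .nil)))) .nil))) (.nd (nat_lit 6) 
(.lf (nat_lit 243635) (.g (nat_lit 1651) (.e (nat_lit 123080) (nat_lit 177) (.e (nat_lit 57887) (nat_lit 270) (.e (nat_lit 1656) (nat_lit 115) (.e (nat_lit 393265) (nat_lit 22) (.e (nat_lit 417804) (nat_lit 1) (.e (nat_lit 8433) (nat_lit 138) (.e (nat_lit 1288) (nat_lit 95) .nil))))))) (.g (nat_lit 4) .nil .nil))) 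
(.lf (nat_lit 243699) (.g (nat_lit 2914) (.e (nat_lit 123109) (nat_lit 209) (.e (nat_lit 1220) (nat_lit 90) (.e (nat_lit 81956) (nat_lit 23) (.e (nat_lit 98313) (nat_lit 9) .nil)))) .nil))))) (.nd (nat_lit 4) (.nd (nat_lit 5) (.nd (nat_lit 6) 
(.lf (nat_lit 243595) (.g (nat_lit 1377) (.e (nat_lit 123073) (nat_lit 176) (.e (nat_lit 1360) (nat_lit 102) (.e (nat_lit 286734) (nat_lit 3) (.e (nat_lit 98381) (nat_lit 31) .nil)))) .nil)) 
(.lf (nat_lit 243659) (.g (nat_lit 1249) (.e (nat_lit 123092) (nat_lit 183) (.e (nat_lit 57447) (nat_lit 19) (.e (nat_lit 393242) (nat_lit 17) .nil))) .nil))) (.nd (nat_lit 6) 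
(.lf (nat_lit 243627) (.g (nat_lit 807) (.e (nat_lit 123080) (nat_lit 177) (.e (nat_lit 57881) (nat_lit 270) (.e (nat_lit 1070) (nat_lit 81) .nil))) .nil)) 
(.lf (nat_lit 243691) (.g (nat_lit 1493) (.e (nat_lit 130816) (nat_lit 206) (.e (nat_lit 180244) (nat_lit 5) (.e (nat_lit 532525) (nat_lit 8) (.e (nat_lit 327718) (nat_lit 19) (.e (nat_lit 311312) (nat_lit 2) .nil))))) .nil)))) (.nd (nat_lit 5) (.nd (nat_lit 6) 
(.lf (nat_lit 243611) (.g (nat_lit 3145) (.e (nat_lit 130816) (nat_lit 176) (.e (nat_lit 1348) (nat_lit 102) (.e (nat_lit 286735) (nat_lit 3) (.e (nat_lit 98373) (nat_lit 29) (.e (nat_lit 450574) (nat_lit 1) .nil))))) .nil)) 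
(.lf (nat_lit 243675) (.g (nat_lit 2922) (.e (nat_lit 123096) (nat_lit 187) (.e (nat_lit 1661) (nat_lit 115) (.e (nat_lit 393299) (nat_lit 27) (.e (nat_lit 491560) (nat_lit 10) (.e (nat_lit 344177) (nat_lit 43) .nil))))) .nil))) (.nd (nat_lit 6) 
(.lf (nat_lit 243643) (.g (nat_lit 1494) (.e (nat_lit 123080) (nat_lit 177) (.e (nat_lit 57891) (nat_lit 270) (.e (nat_lit 1253) (nat_lit 92) (.e (nat_lit 98372) (nat_lit 29) (.e (nat_lit 450571) (nat_lit 1) (.e (nat_lit 500083) (nat_lit 21) .nil)))))) (.g (nat_lit 4) .nil .nil))) 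
(.lf (nat_lit 243707) (.g (nat_lit 832) (.e (nat_lit 130816) (nat_lit 211) (.e (nat_lit 57373) (nat_lit 2) (.e (nat_lit 90176) (nat_lit 15) (.e (nat_lit 196352) (nat_lit 18) .nil)))) .nil)))))) (.nd (nat_lit 3) (.nd (nat_lit 4) (.nd (nat_lit 5) (.nd (nat_lit 6) 
(.lf (nat_lit 243591) (.g (nat_lit 1863) (.e (nat_lit 123072) (nat_lit 176) (.e (nat_lit 1348) (nat_lit 102) (.e (nat_lit 286735) (nat_lit 3) (.e (nat_lit 98382) (nat_lit 31) .nil)))) .nil)) 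
(.lf (nat_lit 243655) (.g (nat_lit 2998) (.e (nat_lit 123091) (nat_lit 183) (.e (nat_lit 57406) (nat_lit 12) (.e (nat_lit 336456) (nat_lit 34) (.e (nat_lit 483372) (nat_lit 21) (.e (nat_lit 319519) (nat_lit 12) .nil))))) .nil))) (.nd (nat_lit 6) 
(.lf (nat_lit 243623) (.g (nat_lit 1762) (.e (nat_lit 130816) (nat_lit 176) (.e (nat_lit 1349) (nat_lit 102) (.e (nat_lit 286735) (nat_lit 3) (.e (nat_lit 98382) (nat_lit 31) (.e (nat_lit 466974) (nat_lit 22) .nil))))) .nil)) 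
(.lf (nat_lit 243687) (.g (nat_lit 2277) (.e (nat_lit 130816) (nat_lit 206) (.e (nat_lit 180244) (nat_lit 5) (.e (nat_lit 532523) (nat_lit 7) (.e (nat_lit 319504) (nat_lit 10) (.e (nat_lit 5714) (nat_lit 312) .nil))))) .nil)))) (.nd (nat_lit 5) (.nd (nat_lit 6) 
(.lf (nat_lit 243607) (.g (nat_lit 3268) (.e (nat_lit 130816) (nat_lit 176) (.e (nat_lit 1348) (nat_lit 102) (.e (nat_lit 286735) (nat_lit 3) (.e (nat_lit 98356) (nat_lit 26) (.e (nat_lit 426255) (nat_lit 9) .nil))))) .nil)) 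
(.lf (nat_lit 243671) (.g (nat_lit 2099) (.e (nat_lit 123096) (nat_lit 187) (.e (nat_lit 1661) (nat_lit 115) (.e (nat_lit 393260) (nat_lit 21) (.e (nat_lit 409649) (nat_lit 18) .nil)))) .nil))) (.nd (nat_lit 6) 
(.lf (nat_lit 243639) (.g (nat_lit 2945) (.e (nat_lit 123080) (nat_lit 177) (.e (nat_lit 57891) (nat_lit 270) (.e (nat_lit 1235) (nat_lit 91) (.e (nat_lit 90176) (nat_lit 15) (.e (nat_lit 188447) (nat_lit 22) (.e (nat_lit 196677) (nat_lit 16) .nil)))))) (.g (nat_lit 5) .nil .nil))) 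
(.lf (nat_lit 243703) (.g (nat_lit 2858) (.e (nat_lit 123109) (nat_lit 209) (.e (nat_lit 1221) (nat_lit 90) (.e (nat_lit 81956) (nat_lit 23) (.e (nat_lit 98313) (nat_lit 9) .nil)))) .nil))))) (.nd (nat_lit 4) (.nd (nat_lit 5) (.nd (nat_lit 6) 
(.lf (nat_lit 243599) (.g (nat_lit 1511) (.e (nat_lit 123074) (nat_lit 176) (.e (nat_lit 1359) (nat_lit 102) (.e (nat_lit 286735) (nat_lit 3) (.e (nat_lit 98381) (nat_lit 31) .nil)))) .nil)) 
(.lf (nat_lit 243663) (.g (nat_lit 1450) (.e (nat_lit 123096) (nat_lit 187) (.e (nat_lit 1638) (nat_lit 114) (.e (nat_lit 385067) (nat_lit 26) (.e (nat_lit 532511) (nat_lit 2) (.e (nat_lit 106534) (nat_lit 11) .nil))))) .nil))) (.nd (nat_lit 6) 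
(.lf (nat_lit 243631) (.g (nat_lit 639) (.e (nat_lit 123080) (nat_lit 177) (.e (nat_lit 57887) (nat_lit 270) (.e (nat_lit 1232) (nat_lit 91) (.e (nat_lit 90186) (nat_lit 17) .nil)))) .nil)) 
(.lf (nat_lit 243695) (.g (nat_lit 1935) (.e (nat_lit 123109) (nat_lit 209) (.e (nat_lit 1190) (nat_lit 88) (.e (nat_lit 65619) (nat_lit 10) (.e (nat_lit 344117) (nat_lit 21) (.e (nat_lit 516195) (nat_lit 26) .nil))))) .nil)))) (.nd (nat_lit 5) (.nd (nat_lit 6) 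
(.lf (nat_lit 243615) (.g (nat_lit 2508) (.e (nat_lit 130816) (nat_lit 176) (.e (nat_lit 1348) (nat_lit 102) (.e (nat_lit 286735) (nat_lit 3) (.e (nat_lit 98380) (nat_lit 31) (.e (nat_lit 466974) (nat_lit 22) .nil))))) .nil)) 
(.lf (nat_lit 243679) (.g (nat_lit 2068) (.e (nat_lit 130816) (nat_lit 206) (.e (nat_lit 180243) (nat_lit 5) (.e (nat_lit 532523) (nat_lit 7) (.e (nat_lit 319504) (nat_lit 10) (.e (nat_lit 5714) (nat_lit 312) .nil))))) .nil))) (.nd (nat_lit 6) 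
(.lf (nat_lit 243647) (.g (nat_lit 2322) (.e (nat_lit 123085) (nat_lit 181) (.e (nat_lit 1181) (nat_lit 87) (.e (nat_lit 57479) (nat_lit 28) (.e (nat_lit 557105) (nat_lit 14) (.e (nat_lit 180252) (nat_lit 10) .nil))))) .nil)) 
(.lf (nat_lit 243711) (.g (nat_lit 1615) (.e (nat_lit 130816) (nat_lit 211) (.e (nat_lit 57378) (nat_lit 3) (.e (nat_lit 98365) (nat_lit 26) (.e (nat_lit 426188) (nat_lit 9) (.e (nat_lit 426566) (nat_lit 34) .nil))))) .nil)))))))))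

noncomputable def tv3175 : DT := (.nd (nat_lit 0) (.nd (nat_lit 1) (.nd (nat_lit 2) (.nd (nat_lit 3) (.nd (nat_lit 4) (.nd (nat_lit 5) (.nd (nat_lit 6) 
(.lf (nat_lit 243712) (.g (nat_lit 1602) (.e (nat_lit 130816) (nat_lit 211) (.e (nat_lit 57379) (nat_lit 3) (.e (nat_lit 98365) (nat_lit 26) (.e (nat_lit 426187) (nat_lit 9) (.e (nat_lit 426566) (nat_lit 34) .nil))))) .nil)) 
(.lf (nat_lit 243776) (.g (nat_lit 475) (.e (nat_lit 123160) (nat_lit 254) (.e (nat_lit 163932) (nat_lit 17) (.e (nat_lit 466972) (nat_lit 21) .nil))) .nil))) (.nd (nat_lit 6) 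
(.lf (nat_lit 243744) (.g (nat_lit 4430) (.e (nat_lit 123156) (nat_lit 252) (.e (nat_lit 57377) (nat_lit 3) (.e (nat_lit 98317) (nat_lit 9) (.e (nat_lit 336215) (nat_lit 13) .nil)))) .nil)) 
(.lf (nat_lit 243808) (.g (nat_lit 1997) (.e (nat_lit 123163) (nat_lit 256) (.e (nat_lit 351) (nat_lit 28) (.e (nat_lit 393251) (nat_lit 18) (.e (nat_lit 164325) (nat_lit 230) (.e (nat_lit 163875) (nat_lit 3) .nil))))) .nil)))) (.nd (nat_lit 5) (.nd (nat_lit 6) 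
(.lf (nat_lit 243728) (.g (nat_lit 1703) (.e (nat_lit 123127) (nat_lit 239) (.e (nat_lit 1209) (nat_lit 89) (.e (nat_lit 73747) (nat_lit 3) (.e (nat_lit 516169) (nat_lit 13) .nil)))) .nil)) 
(.lf (nat_lit 243792) (.g (nat_lit 1901) (.e (nat_lit 123162) (nat_lit 256) (.e (nat_lit 2685) (nat_lit 168) (.e (nat_lit 204845) (nat_lit 24) (.e (nat_lit 319531) (nat_lit 16) (.e (nat_lit 286735) (nat_lit 3) .nil))))) .nil))) (.nd (nat_lit 6) 
(.lf (nat_lit 243760) (.g (nat_lit 2056) (.e (nat_lit 123159) (nat_lit 254) (.e (nat_lit 163920) (nat_lit 14) (.e (nat_lit 442430) (nat_lit 24) (.e (nat_lit 229637) (nat_lit 228) .nil)))) .nil)) 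
(.lf (nat_lit 243824) (.g (nat_lit 608) (.e (nat_lit 123166) (nat_lit 256) (.e (nat_lit 258) (nat_lit 21) (.e (nat_lit 336200) (nat_lit 12) (.e (nat_lit 385094) (nat_lit 49) .nil)))) .nil))))) (.nd (nat_lit 4) (.nd (nat_lit 5) (.nd (nat_lit 6) 
(.lf (nat_lit 243720) (.g (nat_lit 3118) (.e (nat_lit 123116) (nat_lit 221) (.e (nat_lit 1199) (nat_lit 88) (.e (nat_lit 65566) (nat_lit 2) (.e (nat_lit 90170) (nat_lit 13) (.e (nat_lit 172106) (nat_lit 10) (.e (nat_lit 434231) (nat_lit 23) (.e (nat_lit 532516) (nat_lit 4) .nil))))))) (.g (nat_lit 6) .nil .nil))) 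
(.lf (nat_lit 243784) (.g (nat_lit 1158) (.e (nat_lit 130816) (nat_lit 255) (.e (nat_lit 229415) (nat_lit 15) (.e (nat_lit 450563) (nat_lit 0) (.e (nat_lit 5117) (nat_lit 292) (.e (nat_lit 1215) (nat_lit 90) .nil))))) .nil))) (.nd (nat_lit 6) 
(.lf (nat_lit 243752) (.g (nat_lit 3917) (.e (nat_lit 123157) (nat_lit 252) (.e (nat_lit 57377) (nat_lit 3) (.e (nat_lit 98317) (nat_lit 9) (.e (nat_lit 336213) (nat_lit 13) .nil)))) .nil)) 
(.lf (nat_lit 243816) (.g (nat_lit 1123) (.e (nat_lit 123164) (nat_lit 256) (.e (nat_lit 301) (nat_lit 22) (.e (nat_lit 344085) (nat_lit 15) (.e (nat_lit 123165) (nat_lit 256) (.e (nat_lit 301) (nat_lit 22) (.e (nat_lit 344085) (nat_lit 15) .nil)))))) (.g (nat_lit 0) .nil .nil))))) (.nd (nat_lit 5) (.nd (nat_lit 6) 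
(.lf (nat_lit 243736) (.g (nat_lit 702) (.e (nat_lit 123146) (nat_lit 250) (.e (nat_lit 2725) (nat_lit 172) (.e (nat_lit 237619) (nat_lit 12) .nil))) .nil)) 
(.lf (nat_lit 243800) (.g (nat_lit 2174) (.e (nat_lit 123163) (nat_lit 256) (.e (nat_lit 258) (nat_lit 21) (.e (nat_lit 336228) (nat_lit 14) (.e (nat_lit 401437) (nat_lit 9) (.e (nat_lit 426533) (nat_lit 28) (.e (nat_lit 344085) (nat_lit 15) .nil)))))) (.g (nat_lit 6) .nil .nil)))) (.nd (nat_lit 6) 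
(.lf (nat_lit 243768) (.g (nat_lit 2106) (.e (nat_lit 123160) (nat_lit 254) (.e (nat_lit 163919) (nat_lit 14) (.e (nat_lit 442421) (nat_lit 21) (.e (nat_lit 164319) (nat_lit 228) (.e (nat_lit 57424) (nat_lit 14) .nil))))) .nil)) 
(.lf (nat_lit 243832) (.g (nat_lit 2949) (.e (nat_lit 123167) (nat_lit 256) (.e (nat_lit 3085) (nat_lit 191) (.e (nat_lit 483413) (nat_lit 27) (.e (nat_lit 401448) (nat_lit 10) (.e (nat_lit 434209) (nat_lit 18) .nil))))) .nil)))))) (.nd (nat_lit 3) (.nd (nat_lit 4) (.nd (nat_lit 5) (.nd (nat_lit 6) 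
(.lf (nat_lit 243716) (.g (nat_lit 2884) (.e (nat_lit 123112) (nat_lit 215) (.e (nat_lit 1122) (nat_lit 83) (.e (nat_lit 16473) (nat_lit 14) (.e (nat_lit 491560) (nat_lit 10) (.e (nat_lit 344177) (nat_lit 43) .nil))))) .nil)) 
(.lf (nat_lit 243780) (.g (nat_lit 513) (.e (nat_lit 130816) (nat_lit 254) (.e (nat_lit 163907) (nat_lit 12) (.e (nat_lit 426320) (nat_lit 12) .nil))) .nil))) (.nd (nat_lit 6) 
(.lf (nat_lit 243748) (.g (nat_lit 667) (.e (nat_lit 123156) (nat_lit 252) (.e (nat_lit 57411) (nat_lit 12) (.e (nat_lit 336211) (nat_lit 13) .nil))) .nil)) 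
(.lf (nat_lit 243812) (.g (nat_lit 1411) (.e (nat_lit 123164) (nat_lit 256) (.e (nat_lit 258) (nat_lit 21) (.e (nat_lit 336228) (nat_lit 14) (.e (nat_lit 401459) (nat_lit 13) (.e (nat_lit 491264) (nat_lit 17) .nil))))) .nil)))) (.nd (nat_lit 5) (.nd (nat_lit 6) 
(.lf (nat_lit 243732) (.g (nat_lit 556) (.e (nat_lit 123136) (nat_lit 245) (.e (nat_lit 1349) (nat_lit 102) (.e (nat_lit 286761) (nat_lit 13) .nil))) .nil)) 
(.lf (nat_lit 243796) (.g (nat_lit 2142) (.e (nat_lit 123162) (nat_lit 256) (.e (nat_lit 2685) (nat_lit 168) (.e (nat_lit 204846) (nat_lit 24) (.e (nat_lit 319531) (nat_lit 16) (.e (nat_lit 286735) (nat_lit 3) .nil))))) .nil))) (.nd (nat_lit 6) 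
(.lf (nat_lit 243764) (.g (nat_lit 1782) (.e (nat_lit 123160) (nat_lit 254) (.e (nat_lit 163905) (nat_lit 12) (.e (nat_lit 426320) (nat_lit 12) (.e (nat_lit 475193) (nat_lit 38) (.e (nat_lit 688184) (nat_lit 18) .nil))))) .nil)) 
(.lf (nat_lit 243828) (.g (nat_lit 1652) (.e (nat_lit 123166) (nat_lit 256) (.e (nat_lit 318) (nat_lit 23) (.e (nat_lit 352318) (nat_lit 24) (.e (nat_lit 123183) (nat_lit 264) (.e (nat_lit 1212) (nat_lit 89) (.e (nat_lit 73795) (nat_lit 47) .nil)))))) (.g (nat_lit 5) .nil .nil)))))) (.nd (nat_lit 4) (.nd (nat_lit 5) (.nd (nat_lit 6) 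
(.lf (nat_lit 243724) (.g (nat_lit 447) (.e (nat_lit 123127) (nat_lit 239) (.e (nat_lit 1190) (nat_lit 88) (.e (nat_lit 73472) (nat_lit 34) .nil))) .nil)) 
(.lf (nat_lit 243788) (.g (nat_lit 1304) (.e (nat_lit 123162) (nat_lit 256) (.e (nat_lit 232) (nat_lit 21) (.e (nat_lit 336060) (nat_lit 7) (.e (nat_lit 319504) (nat_lit 10) .nil)))) .nil))) (.nd (nat_lit 6) 
(.lf (nat_lit 243756) (.g (nat_lit 2897) (.e (nat_lit 123157) (nat_lit 252) (.e (nat_lit 57388) (nat_lit 5) (.e (nat_lit 114698) (nat_lit 11) (.e (nat_lit 426107) (nat_lit 1) (.e (nat_lit 164421) (nat_lit 272) .nil))))) .nil)) 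
(.lf (nat_lit 243820) (.g (nat_lit 1637) (.e (nat_lit 123165) (nat_lit 256) (.e (nat_lit 318) (nat_lit 23) (.e (nat_lit 352318) (nat_lit 24) (.e (nat_lit 123183) (nat_lit 264) (.e (nat_lit 1212) (nat_lit 89) (.e (nat_lit 73795) (nat_lit 47) .nil)))))) (.g (nat_lit 5) .nil .nil))))) (.nd (nat_lit 5) (.nd (nat_lit 6) 
(.lf (nat_lit 243740) (.g (nat_lit 1496) (.e (nat_lit 123147) (nat_lit 250) (.e (nat_lit 2725) (nat_lit 172) (.e (nat_lit 237619) (nat_lit 12) (.e (nat_lit 475193) (nat_lit 38) (.e (nat_lit 688186) (nat_lit 18) .nil))))) .nil)) 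
(.lf (nat_lit 243804) (.g (nat_lit 1308) (.e (nat_lit 123163) (nat_lit 256) (.e (nat_lit 311) (nat_lit 23) (.e (nat_lit 352262) (nat_lit 0) (.e (nat_lit 3632) (nat_lit 227) (.e (nat_lit 778324) (nat_lit 5) .nil))))) .nil))) (.nd (nat_lit 6) 
(.lf (nat_lit 243772) (.g (nat_lit 751) (.e (nat_lit 123160) (nat_lit 254) (.e (nat_lit 163923) (nat_lit 15) (.e (nat_lit 450560) (nat_lit 0) .nil))) .nil)) 
(.lf (nat_lit 243836) (.g (nat_lit 1916) (.e (nat_lit 123168) (nat_lit 256) (.e (nat_lit 2679) (nat_lit 168) (.e (nat_lit 204846) (nat_lit 24) (.e (nat_lit 319534) (nat_lit 16) (.e (nat_lit 286735) (nat_lit 3) .nil))))) .nil))))))) (.nd (nat_lit 2) (.nd (nat_lit 3) (.nd (nat_lit 4) (.nd (nat_lit 5) (.nd (nat_lit 6) 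
(.lf (nat_lit 243714) (.g (nat_lit 1238) (.e (nat_lit 130816) (nat_lit 211) (.e (nat_lit 57379) (nat_lit 3) (.e (nat_lit 98369) (nat_lit 28) (.e (nat_lit 450304) (nat_lit 18) .nil)))) .nil)) 
(.lf (nat_lit 243778) (.g (nat_lit 1500) (.e (nat_lit 123160) (nat_lit 254) (.e (nat_lit 163932) (nat_lit 17) (.e (nat_lit 466972) (nat_lit 21) (.e (nat_lit 164307) (nat_lit 226) .nil)))) .nil))) (.nd (nat_lit 6) 
(.lf (nat_lit 243746) (.g (nat_lit 2897) (.e (nat_lit 123156) (nat_lit 252) (.e (nat_lit 57388) (nat_lit 5) (.e (nat_lit 114698) (nat_lit 11) (.e (nat_lit 426107) (nat_lit 1) (.e (nat_lit 164421) (nat_lit 272) .nil))))) .nil)) 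
(.lf (nat_lit 243810) (.g (nat_lit 1999) (.e (nat_lit 123163) (nat_lit 256) (.e (nat_lit 351) (nat_lit 28) (.e (nat_lit 393253) (nat_lit 18) (.e (nat_lit 164325) (nat_lit 230) (.e (nat_lit 163875) (nat_lit 3) .nil))))) .nil)))) (.nd (nat_lit 5) (.nd (nat_lit 6) 
(.lf (nat_lit 243730) (.g (nat_lit 969) (.e (nat_lit 130816) (nat_lit 241) (.e (nat_lit 57371) (nat_lit 2) (.e (nat_lit 90176) (nat_lit 15) (.e (nat_lit 188450) (nat_lit 23) .nil)))) .nil)) 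
(.lf (nat_lit 243794) (.g (nat_lit 1804) (.e (nat_lit 123162) (nat_lit 256) (.e (nat_lit 2685) (nat_lit 168) (.e (nat_lit 204846) (nat_lit 24) (.e (nat_lit 319530) (nat_lit 16) .nil)))) .nil))) (.nd (nat_lit 6) 
(.lf (nat_lit 243762) (.g (nat_lit 1512) (.e (nat_lit 123159) (nat_lit 254) (.e (nat_lit 163932) (nat_lit 17) (.e (nat_lit 466972) (nat_lit 21) (.e (nat_lit 164307) (nat_lit 226) .nil)))) .nil)) 
(.lf (nat_lit 243826) (.g (nat_lit 1261) (.e (nat_lit 123166) (nat_lit 256) (.e (nat_lit 292) (nat_lit 21) (.e (nat_lit 336235) (nat_lit 14) (.e (nat_lit 401437) (nat_lit 9) (.e (nat_lit 426533) (nat_lit 28) .nil))))) .nil))))) (.nd (nat_lit 4) (.nd (nat_lit 5) (.nd (nat_lit 6) 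
(.lf (nat_lit 243722) (.g (nat_lit 1700) (.e (nat_lit 123116) (nat_lit 221) (.e (nat_lit 1209) (nat_lit 89) (.e (nat_lit 73747) (nat_lit 3) (.e (nat_lit 516163) (nat_lit 11) .nil)))) .nil)) 
(.lf (nat_lit 243786) (.g (nat_lit 1119) (.e (nat_lit 130816) (nat_lit 255) (.e (nat_lit 229415) (nat_lit 15) (.e (nat_lit 450563) (nat_lit 0) (.e (nat_lit 5125) (nat_lit 292) .nil)))) .nil))) (.nd (nat_lit 6) 
(.lf (nat_lit 243754) (.g (nat_lit 4191) (.e (nat_lit 123157) (nat_lit 252) (.e (nat_lit 57377) (nat_lit 3) (.e (nat_lit 98317) (nat_lit 9) (.e (nat_lit 336222) (nat_lit 13) .nil)))) .nil)) 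
(.lf (nat_lit 243818) (.g (nat_lit 1405) (.e (nat_lit 123165) (nat_lit 256) (.e (nat_lit 258) (nat_lit 21) (.e (nat_lit 336228) (nat_lit 14) (.e (nat_lit 401459) (nat_lit 13) (.e (nat_lit 491264) (nat_lit 17) .nil))))) .nil)))) (.nd (nat_lit 5) (.nd (nat_lit 6) 
(.lf (nat_lit 243738) (.g (nat_lit 698) (.e (nat_lit 123147) (nat_lit 250) (.e (nat_lit 2725) (nat_lit 172) (.e (nat_lit 237616) (nat_lit 12) .nil))) .nil)) 
(.lf (nat_lit 243802) (.g (nat_lit 775) (.e (nat_lit 123163) (nat_lit 256) (.e (nat_lit 301) (nat_lit 22) (.e (nat_lit 344084) (nat_lit 14) (.e (nat_lit 57864) (nat_lit 256) (.e (nat_lit 300) (nat_lit 22) (.e (nat_lit 344085) (nat_lit 15) .nil)))))) (.g (nat_lit 0) .nil .nil)))) (.nd (nat_lit 6) 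
(.lf (nat_lit 243770) (.g (nat_lit 2064) (.e (nat_lit 123160) (nat_lit 254) (.e (nat_lit 163920) (nat_lit 14) (.e (nat_lit 442430) (nat_lit 24) (.e (nat_lit 229637) (nat_lit 228) .nil)))) .nil)) 
(.lf (nat_lit 243834) (.g (nat_lit 2535) (.e (nat_lit 123168) (nat_lit 256) (.e (nat_lit 2679) (nat_lit 168) (.e (nat_lit 204846) (nat_lit 24) (.e (nat_lit 319531) (nat_lit 16) (.e (nat_lit 286733) (nat_lit 2) .nil))))) .nil)))))) (.nd (nat_lit 3) (.nd (nat_lit 4) (.nd (nat_lit 5) (.nd (nat_lit 6) 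
(.lf (nat_lit 243718) (.g (nat_lit 3968) (.e (nat_lit 123116) (nat_lit 221) (.e (nat_lit 1015) (nat_lit 81) (.e (nat_lit 1449) (nat_lit 108) (.e (nat_lit 336013) (nat_lit 2) (.e (nat_lit 90170) (nat_lit 13) (.e (nat_lit 172106) (nat_lit 10) (.e (nat_lit 434231) (nat_lit 23) (.e (nat_lit 532516) (nat_lit 4) .nil)))))))) (.g (nat_lit 7) .nil .nil))) 
(.lf (nat_lit 243782) (.g (nat_lit 607) (.e (nat_lit 123161) (nat_lit 255) (.e (nat_lit 229415) (nat_lit 15) (.e (nat_lit 450568) (nat_lit 0) .nil))) .nil))) (.nd (nat_lit 6) 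
(.lf (nat_lit 243750) (.g (nat_lit 1288) (.e (nat_lit 123157) (nat_lit 252) (.e (nat_lit 57373) (nat_lit 2) (.e (nat_lit 90158) (nat_lit 11) .nil))) .nil)) 
(.lf (nat_lit 243814) (.g (nat_lit 803) (.e (nat_lit 123164) (nat_lit 256) (.e (nat_lit 301) (nat_lit 22) (.e (nat_lit 344084) (nat_lit 14) (.e (nat_lit 57864) (nat_lit 256) (.e (nat_lit 300) (nat_lit 22) (.e (nat_lit 344085) (nat_lit 15) .nil)))))) (.g (nat_lit 0) .nil .nil))))) (.nd (nat_lit 5) (.nd (nat_lit 6) 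
(.lf (nat_lit 243734) (.g (nat_lit 330) (.e (nat_lit 123143) (nat_lit 248) (.e (nat_lit 164294) (nat_lit 224) (.e (nat_lit 164112) (nat_lit 118) (.e (nat_lit 802560) (nat_lit 13) .nil)))) .nil)) 
(.lf (nat_lit 243798) (.g (nat_lit 4901) (.e (nat_lit 123162) (nat_lit 256) (.e (nat_lit 2685) (nat_lit 168) (.e (nat_lit 204846) (nat_lit 24) (.e (nat_lit 319534) (nat_lit 16) (.e (nat_lit 286733) (nat_lit 2) (.e (nat_lit 90165) (nat_lit 12) (.e (nat_lit 164217) (nat_lit 178) .nil))))))) (.g (nat_lit 7) .nil .nil)))) (.nd (nat_lit 6) 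
(.lf (nat_lit 243766) (.g (nat_lit 985) (.e (nat_lit 123160) (nat_lit 254) (.e (nat_lit 163915) (nat_lit 12) (.e (nat_lit 426306) (nat_lit 12) (.e (nat_lit 475193) (nat_lit 38) .nil)))) .nil)) 
(.lf (nat_lit 243830) (.g (nat_lit 3453) (.e (nat_lit 123167) (nat_lit 256) (.e (nat_lit 3085) (nat_lit 191) (.e (nat_lit 483413) (nat_lit 27) (.e (nat_lit 401446) (nat_lit 10) (.e (nat_lit 434205) (nat_lit 18) .nil))))) .nil))))) (.nd (nat_lit 4) (.nd (nat_lit 5) (.nd (nat_lit 6) 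
(.lf (nat_lit 243726) (.g (nat_lit 418) (.e (nat_lit 123127) (nat_lit 239) (.e (nat_lit 1199) (nat_lit 88) (.e (nat_lit 65580) (nat_lit 6) .nil))) .nil)) 
(.lf (nat_lit 243790) (.g (nat_lit 1531) (.e (nat_lit 123162) (nat_lit 256) (.e (nat_lit 290) (nat_lit 21) (.e (nat_lit 336231) (nat_lit 14) (.e (nat_lit 401458) (nat_lit 13) .nil)))) .nil))) (.nd (nat_lit 6) 
(.lf (nat_lit 243758) (.g (nat_lit 4274) (.e (nat_lit 130816) (nat_lit 252) (.e (nat_lit 57377) (nat_lit 3) (.e (nat_lit 98317) (nat_lit 9) (.e (nat_lit 336215) (nat_lit 13) .nil)))) .nil)) 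
(.lf (nat_lit 243822) (.g (nat_lit 1078) (.e (nat_lit 123165) (nat_lit 256) (.e (nat_lit 323) (nat_lit 24) (.e (nat_lit 360466) (nat_lit 3) (.e (nat_lit 516100) (nat_lit 0) (.e (nat_lit 7936) (nat_lit 220) (.e (nat_lit 720949) (nat_lit 24) (.e (nat_lit 106557) (nat_lit 16) .nil))))))) (.g (nat_lit 4) .nil .nil))))) (.nd (nat_lit 5) (.nd (nat_lit 6) 
(.lf (nat_lit 243742) (.g (nat_lit 836) (.e (nat_lit 130816) (nat_lit 250) (.e (nat_lit 2650) (nat_lit 166) (.e (nat_lit 188455) (nat_lit 24) (.e (nat_lit 237312) (nat_lit 226) .nil)))) .nil)) 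
(.lf (nat_lit 243806) (.g (nat_lit 75) (.e (nat_lit 123163) (nat_lit 256) (.e (nat_lit 323) (nat_lit 24) (.e (nat_lit 360456) (nat_lit 0) .nil))) .nil))) (.nd (nat_lit 6) 
(.lf (nat_lit 243774) (.g (nat_lit 519) (.e (nat_lit 123160) (nat_lit 254) (.e (nat_lit 163932) (nat_lit 17) (.e (nat_lit 466960) (nat_lit 20) .nil))) .nil)) 
(.lf (nat_lit 243838) (.g (nat_lit 1158) (.e (nat_lit 123174) (nat_lit 257) (.e (nat_lit 8318) (nat_lit 64) (.e (nat_lit 516115) (nat_lit 1) (.e (nat_lit 164325) (nat_lit 230) .nil)))) .nil)))))))) (.nd (nat_lit 1) (.nd (nat_lit 2) (.nd (nat_lit 3) (.nd (nat_lit 4) (.nd (nat_lit 5) (.nd (nat_lit 6) 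
(.lf (nat_lit 243713) (.g (nat_lit 1291) (.e (nat_lit 130816) (nat_lit 211) (.e (nat_lit 57379) (nat_lit 3) (.e (nat_lit 98365) (nat_lit 26) (.e (nat_lit 426188) (nat_lit 9) .nil)))) .nil)) 
(.lf (nat_lit 243777) (.g (nat_lit 1442) (.e (nat_lit 123160) (nat_lit 254) (.e (nat_lit 163932) (nat_lit 17) (.e (nat_lit 466972) (nat_lit 21) (.e (nat_lit 164305) (nat_lit 226) .nil)))) .nil))) (.nd (nat_lit 6) 
(.lf (nat_lit 243745) (.g (nat_lit 3809) (.e (nat_lit 123156) (nat_lit 252) (.e (nat_lit 57377) (nat_lit 3) (.e (nat_lit 98317) (nat_lit 9) (.e (nat_lit 336223) (nat_lit 13) .nil)))) .nil)) 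
(.lf (nat_lit 243809) (.g (nat_lit 2231) (.e (nat_lit 123163) (nat_lit 256) (.e (nat_lit 351) (nat_lit 28) (.e (nat_lit 393251) (nat_lit 18) (.e (nat_lit 164332) (nat_lit 230) (.e (nat_lit 163874) (nat_lit 3) .nil))))) .nil)))) (.nd (nat_lit 5) (.nd (nat_lit 6) 
(.lf (nat_lit 243729) (.g (nat_lit 1676) (.e (nat_lit 123127) (nat_lit 239) (.e (nat_lit 1209) (nat_lit 89) (.e (nat_lit 73747) (nat_lit 3) (.e (nat_lit 516171) (nat_lit 13) .nil)))) .nil)) 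
(.lf (nat_lit 243793) (.g (nat_lit 2193) (.e (nat_lit 123162) (nat_lit 256) (.e (nat_lit 2685) (nat_lit 168) (.e (nat_lit 204846) (nat_lit 24) (.e (nat_lit 319504) (nat_lit 10) (.e (nat_lit 7936) (nat_lit 298) (.e (nat_lit 1239) (nat_lit 91) (.e (nat_lit 90165) (nat_lit 12) (.e (nat_lit 164217) (nat_lit 178) .nil)))))))) (.g (nat_lit 4) .nil .nil)))) (.nd (nat_lit 6) 
(.lf (nat_lit 243761) (.g (nat_lit 1942) (.e (nat_lit 123159) (nat_lit 254) (.e (nat_lit 163932) (nat_lit 17) (.e (nat_lit 466972) (nat_lit 21) (.e (nat_lit 164305) (nat_lit 226) (.e (nat_lit 7936) (nat_lit 90) .nil))))) .nil)) 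
(.lf (nat_lit 243825) (.g (nat_lit 1409) (.e (nat_lit 123166) (nat_lit 256) (.e (nat_lit 258) (nat_lit 21) (.e (nat_lit 336228) (nat_lit 14) (.e (nat_lit 401459) (nat_lit 13) (.e (nat_lit 491264) (nat_lit 17) .nil))))) .nil))))) (.nd (nat_lit 4) (.nd (nat_lit 5) (.nd (nat_lit 6) 
(.lf (nat_lit 243721) (.g (nat_lit 3286) (.e (nat_lit 123116) (nat_lit 221) (.e (nat_lit 1199) (nat_lit 88) (.e (nat_lit 65566) (nat_lit 2) (.e (nat_lit 90170) (nat_lit 13) (.e (nat_lit 172106) (nat_lit 10) (.e (nat_lit 434231) (nat_lit 23) (.e (nat_lit 532517) (nat_lit 4) .nil))))))) (.g (nat_lit 6) .nil .nil))) 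
(.lf (nat_lit 243785) (.g (nat_lit 1158) (.e (nat_lit 130816) (nat_lit 255) (.e (nat_lit 229415) (nat_lit 15) (.e (nat_lit 450563) (nat_lit 0) (.e (nat_lit 5117) (nat_lit 292) (.e (nat_lit 1216) (nat_lit 90) .nil))))) .nil))) (.nd (nat_lit 6) 
(.lf (nat_lit 243753) (.g (nat_lit 4415) (.e (nat_lit 123157) (nat_lit 252) (.e (nat_lit 57377) (nat_lit 3) (.e (nat_lit 98317) (nat_lit 9) (.e (nat_lit 336215) (nat_lit 13) .nil)))) .nil)) 
(.lf (nat_lit 243817) (.g (nat_lit 1631) (.e (nat_lit 123164) (nat_lit 256) (.e (nat_lit 318) (nat_lit 23) (.e (nat_lit 352318) (nat_lit 24) (.e (nat_lit 123183) (nat_lit 264) (.e (nat_lit 1212) (nat_lit 89) (.e (nat_lit 73795) (nat_lit 47) .nil)))))) (.g (nat_lit 5) .nil .nil))))) (.nd (nat_lit 5) (.nd (nat_lit 6) 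
(.lf (nat_lit 243737) (.g (nat_lit 1410) (.e (nat_lit 123147) (nat_lit 250) (.e (nat_lit 2630) (nat_lit 164) (.e (nat_lit 172113) (nat_lit 10) (.e (nat_lit 434199) (nat_lit 18) .nil)))) .nil)) 
(.lf (nat_lit 243801) (.g (nat_lit 1409) (.e (nat_lit 123163) (nat_lit 256) (.e (nat_lit 258) (nat_lit 21) (.e (nat_lit 336228) (nat_lit 14) (.e (nat_lit 401459) (nat_lit 13) (.e (nat_lit 491264) (nat_lit 17) .nil))))) .nil))) (.nd (nat_lit 6) 
(.lf (nat_lit 243769) (.g (nat_lit 747) (.e (nat_lit 123160) (nat_lit 254) (.e (nat_lit 163920) (nat_lit 14) (.e (nat_lit 450304) (nat_lit 0) .nil))) .nil)) 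
(.lf (nat_lit 243833) (.g (nat_lit 3005) (.e (nat_lit 123167) (nat_lit 256) (.e (nat_lit 3085) (nat_lit 191) (.e (nat_lit 483413) (nat_lit 27) (.e (nat_lit 401448) (nat_lit 10) (.e (nat_lit 434209) (nat_lit 18) (.e (nat_lit 6270) (nat_lit 337) (.e (nat_lit 129) (nat_lit 6) .nil))))))) (.g (nat_lit 4) .nil .nil))))))) (.nd (nat_lit 3) (.nd (nat_lit 4) (.nd (nat_lit 5) (.nd (nat_lit 6) 
(.lf (nat_lit 243717) (.g (nat_lit 3088) (.e (nat_lit 123116) (nat_lit 221) (.e (nat_lit 1008) (nat_lit 81) (.e (nat_lit 1464) (nat_lit 108) (.e (nat_lit 336013) (nat_lit 2) (.e (nat_lit 90170) (nat_lit 13) (.e (nat_lit 172106) (nat_lit 10) (.e (nat_lit 434231) (nat_lit 23) (.e (nat_lit 532516) (nat_lit 4) .nil)))))))) (.g (nat_lit 7) .nil .nil))) 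
(.lf (nat_lit 243781) (.g (nat_lit 1176) (.e (nat_lit 130816) (nat_lit 254) (.e (nat_lit 163933) (nat_lit 17) (.e (nat_lit 466947) (nat_lit 0) (.e (nat_lit 2024) (nat_lit 140) (.e (nat_lit 688186) (nat_lit 18) .nil))))) .nil))) (.nd (nat_lit 6) 
(.lf (nat_lit 243749) (.g (nat_lit 686) (.e (nat_lit 123156) (nat_lit 252) (.e (nat_lit 57445) (nat_lit 19) (.e (nat_lit 393229) (nat_lit 9) .nil))) .nil)) 
(.lf (nat_lit 243813) (.g (nat_lit 776) (.e (nat_lit 123164) (nat_lit 256) (.e (nat_lit 301) (nat_lit 22) (.e (nat_lit 344084) (nat_lit 14) (.e (nat_lit 57862) (nat_lit 256) (.e (nat_lit 300) (nat_lit 22) (.e (nat_lit 344085) (nat_lit 15) .nil)))))) (.g (nat_lit 0) .nil .nil))))) (.nd (nat_lit 5) (.nd (nat_lit 6) 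
(.lf (nat_lit 243733) (.g (nat_lit 812) (.e (nat_lit 123138) (nat_lit 245) (.e (nat_lit 2797) (nat_lit 180) (.e (nat_lit 303119) (nat_lit 3) .nil))) .nil)) 
(.lf (nat_lit 243797) (.g (nat_lit 4876) (.e (nat_lit 123162) (nat_lit 256) (.e (nat_lit 2685) (nat_lit 168) (.e (nat_lit 204846) (nat_lit 24) (.e (nat_lit 319533) (nat_lit 16) (.e (nat_lit 286733) (nat_lit 2) (.e (nat_lit 90165) (nat_lit 12) (.e (nat_lit 164217) (nat_lit 178) .nil))))))) (.g (nat_lit 6) .nil .nil)))) (.nd (nat_lit 6) 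
(.lf (nat_lit 243765) (.g (nat_lit 1052) (.e (nat_lit 123160) (nat_lit 254) (.e (nat_lit 163908) (nat_lit 12) (.e (nat_lit 426211) (nat_lit 9) (.e (nat_lit 426109) (nat_lit 1) .nil)))) .nil)) 
(.lf (nat_lit 243829) (.g (nat_lit 1940) (.e (nat_lit 123167) (nat_lit 256) (.e (nat_lit 3085) (nat_lit 191) (.e (nat_lit 483413) (nat_lit 27) (.e (nat_lit 401446) (nat_lit 10) .nil)))) .nil))))) (.nd (nat_lit 4) (.nd (nat_lit 5) (.nd (nat_lit 6) 
(.lf (nat_lit 243725) (.g (nat_lit 418) (.e (nat_lit 123127) (nat_lit 239) (.e (nat_lit 1199) (nat_lit 88) (.e (nat_lit 65578) (nat_lit 6) .nil))) .nil)) 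
(.lf (nat_lit 243789) (.g (nat_lit 1330) (.e (nat_lit 123162) (nat_lit 256) (.e (nat_lit 232) (nat_lit 21) (.e (nat_lit 336060) (nat_lit 7) (.e (nat_lit 319534) (nat_lit 16) .nil)))) .nil))) (.nd (nat_lit 6) 
(.lf (nat_lit 243757) (.g (nat_lit 3935) (.e (nat_lit 123157) (nat_lit 252) (.e (nat_lit 57445) (nat_lit 19) (.e (nat_lit 393229) (nat_lit 9) (.e (nat_lit 336088) (nat_lit 9) .nil)))) .nil)) 
(.lf (nat_lit 243821) (.g (nat_lit 1022) (.e (nat_lit 123165) (nat_lit 256) (.e (nat_lit 323) (nat_lit 24) (.e (nat_lit 360466) (nat_lit 3) (.e (nat_lit 516100) (nat_lit 0) (.e (nat_lit 7936) (nat_lit 220) (.e (nat_lit 720948) (nat_lit 24) (.e (nat_lit 106557) (nat_lit 16) .nil))))))) (.g (nat_lit 4) .nil .nil))))) (.nd (nat_lit 5) (.nd (nat_lit 6) 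
(.lf (nat_lit 243741) (.g (nat_lit 719) (.e (nat_lit 130816) (nat_lit 250) (.e (nat_lit 2649) (nat_lit 166) (.e (nat_lit 188427) (nat_lit 20) (.e (nat_lit 2402) (nat_lit 157) .nil)))) .nil)) 
(.lf (nat_lit 243805) (.g (nat_lit 1457) (.e (nat_lit 123163) (nat_lit 256) (.e (nat_lit 323) (nat_lit 24) (.e (nat_lit 360452) (nat_lit 0) (.e (nat_lit 5907) (nat_lit 320) (.e (nat_lit 1209) (nat_lit 89) .nil))))) .nil))) (.nd (nat_lit 6) 
(.lf (nat_lit 243773) (.g (nat_lit 1314) (.e (nat_lit 123160) (nat_lit 254) (.e (nat_lit 163932) (nat_lit 17) (.e (nat_lit 466947) (nat_lit 0) (.e (nat_lit 2024) (nat_lit 140) (.e (nat_lit 688186) (nat_lit 18) .nil))))) .nil)) 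
(.lf (nat_lit 243837) (.g (nat_lit 1975) (.e (nat_lit 123168) (nat_lit 256) (.e (nat_lit 3085) (nat_lit 191) (.e (nat_lit 483413) (nat_lit 27) (.e (nat_lit 401446) (nat_lit 10) .nil)))) .nil))))))) (.nd (nat_lit 2) (.nd (nat_lit 3) (.nd (nat_lit 4) (.nd (nat_lit 5) (.nd (nat_lit 6) 
(.lf (nat_lit 243715) (.g (nat_lit 1230) (.e (nat_lit 130816) (nat_lit 211) (.e (nat_lit 57379) (nat_lit 3) (.e (nat_lit 98370) (nat_lit 28) (.e (nat_lit 450304) (nat_lit 18) .nil)))) .nil)) 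
(.lf (nat_lit 243779) (.g (nat_lit 3065) (.e (nat_lit 123160) (nat_lit 254) (.e (nat_lit 163932) (nat_lit 17) (.e (nat_lit 466972) (nat_lit 21) (.e (nat_lit 164319) (nat_lit 228) (.e (nat_lit 57424) (nat_lit 14) (.e (nat_lit 352318) (nat_lit 24) .nil)))))) (.g (nat_lit 6) .nil .nil)))) (.nd (nat_lit 6) 
(.lf (nat_lit 243747) (.g (nat_lit 2784) (.e (nat_lit 123156) (nat_lit 252) (.e (nat_lit 57389) (nat_lit 5) (.e (nat_lit 114698) (nat_lit 11) (.e (nat_lit 426107) (nat_lit 1) (.e (nat_lit 164421) (nat_lit 272) .nil))))) .nil)) 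
(.lf (nat_lit 243811) (.g (nat_lit 2186) (.e (nat_lit 123164) (nat_lit 256) (.e (nat_lit 258) (nat_lit 21) (.e (nat_lit 336228) (nat_lit 14) (.e (nat_lit 401437) (nat_lit 9) (.e (nat_lit 426533) (nat_lit 28) (.e (nat_lit 344085) (nat_lit 15) .nil)))))) (.g (nat_lit 6) .nil .nil))))) (.nd (nat_lit 5) (.nd (nat_lit 6) 
(.lf (nat_lit 243731) (.g (nat_lit 701) (.e (nat_lit 123136) (nat_lit 245) (.e (nat_lit 1348) (nat_lit 102) (.e (nat_lit 286761) (nat_lit 13) .nil))) .nil)) 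
(.lf (nat_lit 243795) (.g (nat_lit 4805) (.e (nat_lit 123162) (nat_lit 256) (.e (nat_lit 2685) (nat_lit 168) (.e (nat_lit 204846) (nat_lit 24) (.e (nat_lit 319531) (nat_lit 16) (.e (nat_lit 286733) (nat_lit 2) (.e (nat_lit 90165) (nat_lit 12) (.e (nat_lit 164217) (nat_lit 178) .nil))))))) (.g (nat_lit 7) .nil .nil)))) (.nd (nat_lit 6) 
(.lf (nat_lit 243763) (.g (nat_lit 621) (.e (nat_lit 123159) (nat_lit 254) (.e (nat_lit 163933) (nat_lit 17) (.e (nat_lit 466971) (nat_lit 21) .nil))) .nil)) 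
(.lf (nat_lit 243827) (.g (nat_lit 24) (.e (nat_lit 123166) (nat_lit 256) (.e (nat_lit 318) (nat_lit 23) (.e (nat_lit 360192) (nat_lit 5) .nil))) .nil))))) (.nd (nat_lit 4) (.nd (nat_lit 5) (.nd (nat_lit 6) 
(.lf (nat_lit 243723) (.g (nat_lit 1302) (.e (nat_lit 123116) (nat_lit 221) (.e (nat_lit 1221) (nat_lit 90) (.e (nat_lit 81965) (nat_lit 26) (.e (nat_lit 147492) (nat_lit 11) .nil)))) .nil)) 
(.lf (nat_lit 243787) (.g (nat_lit 1396) (.e (nat_lit 130816) (nat_lit 255) (.e (nat_lit 229415) (nat_lit 15) (.e (nat_lit 450563) (nat_lit 0) (.e (nat_lit 5172) (nat_lit 292) .nil)))) .nil))) (.nd (nat_lit 6) 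
(.lf (nat_lit 243755) (.g (nat_lit 3724) (.e (nat_lit 123157) (nat_lit 252) (.e (nat_lit 57377) (nat_lit 3) (.e (nat_lit 98317) (nat_lit 9) (.e (nat_lit 336223) (nat_lit 13) .nil)))) .nil)) 
(.lf (nat_lit 243819) (.g (nat_lit 1092) (.e (nat_lit 123165) (nat_lit 256) (.e (nat_lit 318) (nat_lit 23) (.e (nat_lit 352316) (nat_lit 24) (.e (nat_lit 123197) (nat_lit 266) (.e (nat_lit 57421) (nat_lit 13) .nil))))) .nil)))) (.nd (nat_lit 5) (.nd (nat_lit 6) 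
(.lf (nat_lit 243739) (.g (nat_lit 589) (.e (nat_lit 123147) (nat_lit 250) (.e (nat_lit 2725) (nat_lit 172) (.e (nat_lit 237618) (nat_lit 12) .nil))) .nil)) 
(.lf (nat_lit 243803) (.g (nat_lit 1097) (.e (nat_lit 123163) (nat_lit 256) (.e (nat_lit 301) (nat_lit 22) (.e (nat_lit 344085) (nat_lit 15) (.e (nat_lit 123165) (nat_lit 256) (.e (nat_lit 301) (nat_lit 22) (.e (nat_lit 344085) (nat_lit 15) .nil)))))) (.g (nat_lit 0) .nil .nil)))) (.nd (nat_lit 6) 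
(.lf (nat_lit 243771) (.g (nat_lit 2248) (.e (nat_lit 123160) (nat_lit 254) (.e (nat_lit 163920) (nat_lit 14) (.e (nat_lit 442430) (nat_lit 24) (.e (nat_lit 229638) (nat_lit 228) (.e (nat_lit 57424) (nat_lit 14) .nil))))) .nil)) 
(.lf (nat_lit 243835) (.g (nat_lit 1912) (.e (nat_lit 123168) (nat_lit 256) (.e (nat_lit 2679) (nat_lit 168) (.e (nat_lit 204846) (nat_lit 24) (.e (nat_lit 319533) (nat_lit 16) (.e (nat_lit 286732) (nat_lit 2) .nil))))) .nil)))))) (.nd (nat_lit 3) (.nd (nat_lit 4) (.nd (nat_lit 5) (.nd (nat_lit 6) 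
(.lf (nat_lit 243719) (.g (nat_lit 4136) (.e (nat_lit 123116) (nat_lit 221) (.e (nat_lit 1015) (nat_lit 81) (.e (nat_lit 1449) (nat_lit 108) (.e (nat_lit 336013) (nat_lit 2) (.e (nat_lit 90170) (nat_lit 13) (.e (nat_lit 172106) (nat_lit 10) (.e (nat_lit 434231) (nat_lit 23) (.e (nat_lit 532517) (nat_lit 4) .nil)))))))) (.g (nat_lit 8) .nil .nil))) 
(.lf (nat_lit 243783) (.g (nat_lit 1078) (.e (nat_lit 123161) (nat_lit 255) (.e (nat_lit 229415) (nat_lit 15) (.e (nat_lit 450569) (nat_lit 0) (.e (nat_lit 5152) (nat_lit 292) .nil)))) .nil))) (.nd (nat_lit 6) 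
(.lf (nat_lit 243751) (.g (nat_lit 2187) (.e (nat_lit 123157) (nat_lit 252) (.e (nat_lit 57373) (nat_lit 2) (.e (nat_lit 90158) (nat_lit 11) (.e (nat_lit 24655) (nat_lit 13) .nil)))) .nil)) 
(.lf (nat_lit 243815) (.g (nat_lit 746) (.e (nat_lit 123164) (nat_lit 256) (.e (nat_lit 301) (nat_lit 22) (.e (nat_lit 344084) (nat_lit 14) (.e (nat_lit 57865) (nat_lit 256) (.e (nat_lit 300) (nat_lit 22) (.e (nat_lit 344085) (nat_lit 15) .nil)))))) (.g (nat_lit 0) .nil .nil))))) (.nd (nat_lit 5) (.nd (nat_lit 6) 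
(.lf (nat_lit 243735) (.g (nat_lit 1708) (.e (nat_lit 123146) (nat_lit 250) (.e (nat_lit 2630) (nat_lit 164) (.e (nat_lit 172106) (nat_lit 10) (.e (nat_lit 434209) (nat_lit 18) .nil)))) .nil)) 
(.lf (nat_lit 243799) (.g (nat_lit 2063) (.e (nat_lit 123162) (nat_lit 256) (.e (nat_lit 2685) (nat_lit 168) (.e (nat_lit 204846) (nat_lit 24) (.e (nat_lit 319534) (nat_lit 16) (.e (nat_lit 286734) (nat_lit 3) .nil))))) .nil))) (.nd (nat_lit 6) 
(.lf (nat_lit 243767) (.g (nat_lit 755) (.e (nat_lit 123160) (nat_lit 254) (.e (nat_lit 163919) (nat_lit 14) (.e (nat_lit 442380) (nat_lit 6) .nil))) .nil)) 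
(.lf (nat_lit 243831) (.g (nat_lit 4453) (.e (nat_lit 123167) (nat_lit 256) (.e (nat_lit 3085) (nat_lit 191) (.e (nat_lit 483413) (nat_lit 27) (.e (nat_lit 401447) (nat_lit 10) (.e (nat_lit 434205) (nat_lit 18) .nil))))) .nil))))) (.nd (nat_lit 4) (.nd (nat_lit 5) (.nd (nat_lit 6) 
(.lf (nat_lit 243727) (.g (nat_lit 744) (.e (nat_lit 123127) (nat_lit 239) (.e (nat_lit 1209) (nat_lit 89) (.e (nat_lit 73747) (nat_lit 3) .nil))) .nil)) 
(.lf (nat_lit 243791) (.g (nat_lit 2087) (.e (nat_lit 123162) (nat_lit 256) (.e (nat_lit 2685) (nat_lit 168) (.e (nat_lit 204845) (nat_lit 24) (.e (nat_lit 319530) (nat_lit 16) (.e (nat_lit 286733) (nat_lit 2) .nil))))) .nil))) (.nd (nat_lit 6) 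
(.lf (nat_lit 243759) (.g (nat_lit 1863) (.e (nat_lit 123159) (nat_lit 254) (.e (nat_lit 163903) (nat_lit 12) (.e (nat_lit 426320) (nat_lit 12) (.e (nat_lit 475193) (nat_lit 38) .nil)))) .nil)) 
(.lf (nat_lit 243823) (.g (nat_lit 522) (.e (nat_lit 123166) (nat_lit 256) (.e (nat_lit 231) (nat_lit 21) (.e (nat_lit 336205) (nat_lit 12) (.e (nat_lit 385094) (nat_lit 49) .nil)))) .nil)))) (.nd (nat_lit 5) (.nd (nat_lit 6) 
(.lf (nat_lit 243743) (.g (nat_lit 3984) (.e (nat_lit 123156) (nat_lit 252) (.e (nat_lit 57377) (nat_lit 3) (.e (nat_lit 98317) (nat_lit 9) (.e (nat_lit 336213) (nat_lit 13) .nil)))) .nil)) 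
(.lf (nat_lit 243807) (.g (nat_lit 72) (.e (nat_lit 123163) (nat_lit 256) (.e (nat_lit 323) (nat_lit 24) (.e (nat_lit 368384) (nat_lit 0) .nil))) .nil))) (.nd (nat_lit 6) 
(.lf (nat_lit 243775) (.g (nat_lit 949) (.e (nat_lit 123160) (nat_lit 254) (.e (nat_lit 163932) (nat_lit 17) (.e (nat_lit 466967) (nat_lit 20) (.e (nat_lit 3386) (nat_lit 210) .nil)))) .nil)) 
(.lf (nat_lit 243839) (.g (nat_lit 2495) (.e (nat_lit 123174) (nat_lit 257) (.e (nat_lit 8325) (nat_lit 69) (.e (nat_lit 557098) (nat_lit 13) (.e (nat_lit 172097) (nat_lit 9) (.e (nat_lit 426125) (nat_lit 2) .nil))))) .nil)))))))))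

noncomputable def tv3176 : DT := (.nd (nat_lit 0) (.nd (nat_lit 1) (.nd (nat_lit 2) (.nd (nat_lit 3) (.nd (nat_lit 4) (.nd (nat_lit 5) (.nd (nat_lit 6) 
(.lf (nat_lit 243840) (.g (nat_lit 1795) (.e (nat_lit 123174) (nat_lit 257) (.e (nat_lit 8325) (nat_lit 69) (.e (nat_lit 557101) (nat_lit 13) (.e (nat_lit 172097) (nat_lit 9) (.e (nat_lit 426125) (nat_lit 2) .nil))))) .nil)) 
(.lf (nat_lit 243904) (.g (nat_lit 3637) (.e (nat_lit 123176) (nat_lit 259) (.e (nat_lit 163962) (nat_lit 25) (.e (nat_lit 532523) (nat_lit 7) (.e (nat_lit 319529) (nat_lit 16) (.e (nat_lit 286735) (nat_lit 3) (.e (nat_lit 98325) (nat_lit 17) (.e (nat_lit 7083) (nat_lit 379) .nil))))))) (.g (nat_lit 5) .nil .nil)))) (.nd (nat_lit 6) 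
(.lf (nat_lit 243872) (.g (nat_lit 2367) (.e (nat_lit 123175) (nat_lit 258) (.e (nat_lit 24665) (nat_lit 14) (.e (nat_lit 401435) (nat_lit 9) (.e (nat_lit 426533) (nat_lit 28) (.e (nat_lit 344085) (nat_lit 15) .nil))))) .nil)) 
(.lf (nat_lit 243936) (.g (nat_lit 4966) (.e (nat_lit 123182) (nat_lit 264) (.e (nat_lit 1183) (nat_lit 87) (.e (nat_lit 57478) (nat_lit 28) (.e (nat_lit 557109) (nat_lit 15) (.e (nat_lit 188449) (nat_lit 22) (.e (nat_lit 196666) (nat_lit 13) (.e (nat_lit 65573) (nat_lit 4) .nil))))))) (.g (nat_lit 6) .nil .nil))))) (.nd (nat_lit 5) (.nd (nat_lit 6) 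
(.lf (nat_lit 243856) (.g (nat_lit 791) (.e (nat_lit 123175) (nat_lit 258) (.e (nat_lit 24661) (nat_lit 14) (.e (nat_lit 401436) (nat_lit 9) .nil))) .nil)) 
(.lf (nat_lit 243920) (.g (nat_lit 2111) (.e (nat_lit 123181) (nat_lit 264) (.e (nat_lit 1201) (nat_lit 88) (.e (nat_lit 65610) (nat_lit 10) (.e (nat_lit 344097) (nat_lit 18) (.e (nat_lit 5905) (nat_lit 320) .nil))))) .nil))) (.nd (nat_lit 6) 
(.lf (nat_lit 243888) (.g (nat_lit 2364) (.e (nat_lit 123175) (nat_lit 258) (.e (nat_lit 24665) (nat_lit 14) (.e (nat_lit 401448) (nat_lit 10) (.e (nat_lit 434206) (nat_lit 18) .nil)))) .nil)) 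
(.lf (nat_lit 243952) (.g (nat_lit 3280) (.e (nat_lit 123182) (nat_lit 264) (.e (nat_lit 1183) (nat_lit 87) (.e (nat_lit 57479) (nat_lit 28) (.e (nat_lit 557101) (nat_lit 13) (.e (nat_lit 172097) (nat_lit 9) (.e (nat_lit 426125) (nat_lit 2) (.e (nat_lit 196666) (nat_lit 13) (.e (nat_lit 73472) (nat_lit 4) .nil)))))))) (.g (nat_lit 4) .nil .nil)))))) 
(.nd (nat_lit 4) (.nd (nat_lit 5) (.nd (nat_lit 6) 
(.lf (nat_lit 243848) (.g (nat_lit 3267) (.e (nat_lit 123174) (nat_lit 257) (.e (nat_lit 8326) (nat_lit 69) (.e (nat_lit 557109) (nat_lit 15) (.e (nat_lit 188449) (nat_lit 22) (.e (nat_lit 196661) (nat_lit 12) .nil))))) .nil)) 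
(.lf (nat_lit 243912) (.g (nat_lit 858) (.e (nat_lit 123177) (nat_lit 260) (.e (nat_lit 172067) (nat_lit 3) (.e (nat_lit 204846) (nat_lit 24) .nil))) .nil))) (.nd (nat_lit 6) 
(.lf (nat_lit 243880) (.g (nat_lit 1307) (.e (nat_lit 123175) (nat_lit 258) (.e (nat_lit 24665) (nat_lit 14) (.e (nat_lit 401447) (nat_lit 10) .nil))) .nil)) 
(.lf (nat_lit 243944) (.g (nat_lit 4102) (.e (nat_lit 123182) (nat_lit 264) (.e (nat_lit 1183) (nat_lit 87) (.e (nat_lit 57478) (nat_lit 28) (.e (nat_lit 557109) (nat_lit 15) (.e (nat_lit 188458) (nat_lit 25) (.e (nat_lit 245784) (nat_lit 9) (.e (nat_lit 1457) (nat_lit 108) (.e (nat_lit 336032) (nat_lit 4) .nil)))))))) (.g (nat_lit 5) .nil .nil))))) (.nd (nat_lit 5) (.nd (nat_lit 6) 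
(.lf (nat_lit 243864) (.g (nat_lit 2136) (.e (nat_lit 123175) (nat_lit 258) (.e (nat_lit 24662) (nat_lit 14) (.e (nat_lit 401459) (nat_lit 13) (.e (nat_lit 483350) (nat_lit 17) .nil)))) .nil)) 
(.lf (nat_lit 243928) (.g (nat_lit 475) (.e (nat_lit 123182) (nat_lit 264) (.e (nat_lit 1183) (nat_lit 87) (.e (nat_lit 57469) (nat_lit 26) .nil))) .nil))) (.nd (nat_lit 6) 
(.lf (nat_lit 243896) (.g (nat_lit 2525) (.e (nat_lit 123175) (nat_lit 258) (.e (nat_lit 24665) (nat_lit 14) (.e (nat_lit 401448) (nat_lit 10) (.e (nat_lit 442112) (nat_lit 46) .nil)))) .nil)) 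
(.lf (nat_lit 243960) (.g (nat_lit 2392) (.e (nat_lit 123182) (nat_lit 264) (.e (nat_lit 1183) (nat_lit 87) (.e (nat_lit 57480) (nat_lit 28) (.e (nat_lit 557107) (nat_lit 15) (.e (nat_lit 188450) (nat_lit 23) .nil))))) .nil)))))) (.nd (nat_lit 3) (.nd (nat_lit 4) (.nd (nat_lit 5) (.nd (nat_lit 6) 
(.lf (nat_lit 243844) (.g (nat_lit 1286) (.e (nat_lit 123174) (nat_lit 257) (.e (nat_lit 8325) (nat_lit 69) (.e (nat_lit 557109) (nat_lit 15) (.e (nat_lit 188452) (nat_lit 23) .nil)))) .nil)) 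
(.lf (nat_lit 243908) (.g (nat_lit 5025) (.e (nat_lit 123176) (nat_lit 259) (.e (nat_lit 163962) (nat_lit 25) (.e (nat_lit 532523) (nat_lit 7) (.e (nat_lit 319534) (nat_lit 16) (.e (nat_lit 286733) (nat_lit 2) (.e (nat_lit 90165) (nat_lit 12) (.e (nat_lit 164217) (nat_lit 178) .nil))))))) (.g (nat_lit 7) .nil .nil)))) (.nd (nat_lit 6) 
(.lf (nat_lit 243876) (.g (nat_lit 2430) (.e (nat_lit 123175) (nat_lit 258) (.e (nat_lit 24665) (nat_lit 14) (.e (nat_lit 401446) (nat_lit 10) (.e (nat_lit 434203) (nat_lit 18) .nil)))) .nil)) 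
(.lf (nat_lit 243940) (.g (nat_lit 5104) (.e (nat_lit 123182) (nat_lit 264) (.e (nat_lit 1183) (nat_lit 87) (.e (nat_lit 57478) (nat_lit 28) (.e (nat_lit 557109) (nat_lit 15) (.e (nat_lit 188452) (nat_lit 23) (.e (nat_lit 204857) (nat_lit 26) (.e (nat_lit 336032) (nat_lit 4) .nil))))))) (.g (nat_lit 5) .nil .nil))))) (.nd (nat_lit 5) (.nd (nat_lit 6) 
(.lf (nat_lit 243860) (.g (nat_lit 2664) (.e (nat_lit 123175) (nat_lit 258) (.e (nat_lit 24662) (nat_lit 14) (.e (nat_lit 401438) (nat_lit 9) (.e (nat_lit 426533) (nat_lit 28) (.e (nat_lit 344085) (nat_lit 15) .nil))))) .nil)) 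
(.lf (nat_lit 243924) (.g (nat_lit 1480) (.e (nat_lit 123181) (nat_lit 264) (.e (nat_lit 1217) (nat_lit 90) (.e (nat_lit 81948) (nat_lit 21) (.e (nat_lit 57872) (nat_lit 264) (.e (nat_lit 1221) (nat_lit 90) .nil))))) .nil))) (.nd (nat_lit 6) 
(.lf (nat_lit 243892) (.g (nat_lit 3423) (.e (nat_lit 123175) (nat_lit 258) (.e (nat_lit 24665) (nat_lit 14) (.e (nat_lit 401448) (nat_lit 10) (.e (nat_lit 434208) (nat_lit 18) (.e (nat_lit 6252) (nat_lit 337) .nil))))) .nil)) 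
(.lf (nat_lit 243956) (.g (nat_lit 1448) (.e (nat_lit 123182) (nat_lit 264) (.e (nat_lit 1183) (nat_lit 87) (.e (nat_lit 57480) (nat_lit 28) (.e (nat_lit 557107) (nat_lit 15) .nil)))) .nil))))) (.nd (nat_lit 4) (.nd (nat_lit 5) (.nd (nat_lit 6) 
(.lf (nat_lit 243852) (.g (nat_lit 639) (.e (nat_lit 123175) (nat_lit 258) (.e (nat_lit 24651) (nat_lit 12) (.e (nat_lit 385093) (nat_lit 49) .nil))) .nil)) 
(.lf (nat_lit 243916) (.g (nat_lit 1882) (.e (nat_lit 123177) (nat_lit 260) (.e (nat_lit 172150) (nat_lit 27) (.e (nat_lit 336231) (nat_lit 14) (.e (nat_lit 401446) (nat_lit 10) (.e (nat_lit 434205) (nat_lit 18) .nil))))) .nil))) (.nd (nat_lit 6) 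
(.lf (nat_lit 243884) (.g (nat_lit 2851) (.e (nat_lit 123175) (nat_lit 258) (.e (nat_lit 24665) (nat_lit 14) (.e (nat_lit 401448) (nat_lit 10) (.e (nat_lit 434200) (nat_lit 18) .nil)))) .nil)) 
(.lf (nat_lit 243948) (.g (nat_lit 2299) (.e (nat_lit 123182) (nat_lit 264) (.e (nat_lit 1183) (nat_lit 87) (.e (nat_lit 57479) (nat_lit 28) (.e (nat_lit 557095) (nat_lit 13) (.e (nat_lit 172115) (nat_lit 10) .nil))))) .nil)))) (.nd (nat_lit 5) (.nd (nat_lit 6) 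
(.lf (nat_lit 243868) (.g (nat_lit 1322) (.e (nat_lit 123175) (nat_lit 258) (.e (nat_lit 24664) (nat_lit 14) (.e (nat_lit 401436) (nat_lit 9) (.e (nat_lit 426533) (nat_lit 28) .nil)))) .nil)) 
(.lf (nat_lit 243932) (.g (nat_lit 3604) (.e (nat_lit 123182) (nat_lit 264) (.e (nat_lit 1183) (nat_lit 87) (.e (nat_lit 57478) (nat_lit 28) (.e (nat_lit 557108) (nat_lit 15) (.e (nat_lit 188452) (nat_lit 23) (.e (nat_lit 204817) (nat_lit 17) (.e (nat_lit 7936) (nat_lit 343) (.e (nat_lit 1288) (nat_lit 95) .nil)))))))) (.g (nat_lit 5) .nil .nil)))) (.nd (nat_lit 6) 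
(.lf (nat_lit 243900) (.g (nat_lit 1025) (.e (nat_lit 123176) (nat_lit 259) (.e (nat_lit 163962) (nat_lit 25) (.e (nat_lit 532490) (nat_lit 0) (.e (nat_lit 7936) (nat_lit 332) .nil)))) .nil)) 
(.lf (nat_lit 243964) (.g (nat_lit 3438) (.e (nat_lit 123182) (nat_lit 264) (.e (nat_lit 1183) (nat_lit 87) (.e (nat_lit 57480) (nat_lit 28) (.e (nat_lit 557108) (nat_lit 15) (.e (nat_lit 188452) (nat_lit 23) (.e (nat_lit 204853) (nat_lit 26) (.e (nat_lit 336036) (nat_lit 4) .nil))))))) (.g (nat_lit 4) .nil .nil)))))))) 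
(.nd (nat_lit 2) (.nd (nat_lit 3) (.nd (nat_lit 4) (.nd (nat_lit 5) (.nd (nat_lit 6) 
(.lf (nat_lit 243842) (.g (nat_lit 1954) (.e (nat_lit 123174) (nat_lit 257) (.e (nat_lit 8325) (nat_lit 69) (.e (nat_lit 557109) (nat_lit 15) (.e (nat_lit 188447) (nat_lit 22) .nil)))) .nil)) 
(.lf (nat_lit 243906) (.g (nat_lit 4901) (.e (nat_lit 123176) (nat_lit 259) (.e (nat_lit 163962) (nat_lit 25) (.e (nat_lit 532523) (nat_lit 7) (.e (nat_lit 319531) (nat_lit 16) (.e (nat_lit 286735) (nat_lit 3) (.e (nat_lit 98325) (nat_lit 17) (.e (nat_lit 7083) (nat_lit 379) .nil))))))) (.g (nat_lit 7) .nil .nil)))) (.nd (nat_lit 6) 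
(.lf (nat_lit 243874) (.g (nat_lit 1135) (.e (nat_lit 123175) (nat_lit 258) (.e (nat_lit 24665) (nat_lit 14) (.e (nat_lit 401446) (nat_lit 10) .nil))) .nil)) 
(.lf (nat_lit 243938) (.g (nat_lit 4375) (.e (nat_lit 123182) (nat_lit 264) (.e (nat_lit 1183) (nat_lit 87) (.e (nat_lit 57478) (nat_lit 28) (.e (nat_lit 557109) (nat_lit 15) (.e (nat_lit 188452) (nat_lit 23) (.e (nat_lit 204856) (nat_lit 26) (.e (nat_lit 336031) (nat_lit 4) .nil))))))) (.g (nat_lit 5) .nil .nil))))) (.nd (nat_lit 5) (.nd (nat_lit 6) 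
(.lf (nat_lit 243858) (.g (nat_lit 767) (.e (nat_lit 123175) (nat_lit 258) (.e (nat_lit 24661) (nat_lit 14) (.e (nat_lit 401438) (nat_lit 9) .nil))) .nil)) 
(.lf (nat_lit 243922) (.g (nat_lit 1190) (.e (nat_lit 123181) (nat_lit 264) (.e (nat_lit 1214) (nat_lit 89) (.e (nat_lit 73792) (nat_lit 45) (.e (nat_lit 1385) (nat_lit 105) .nil)))) .nil))) (.nd (nat_lit 6) 
(.lf (nat_lit 243890) (.g (nat_lit 2920) (.e (nat_lit 123175) (nat_lit 258) (.e (nat_lit 24665) (nat_lit 14) (.e (nat_lit 401448) (nat_lit 10) (.e (nat_lit 434207) (nat_lit 18) .nil)))) .nil)) 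
(.lf (nat_lit 243954) (.g (nat_lit 1768) (.e (nat_lit 123182) (nat_lit 264) (.e (nat_lit 1183) (nat_lit 87) (.e (nat_lit 57479) (nat_lit 28) (.e (nat_lit 557106) (nat_lit 15) .nil)))) .nil))))) (.nd (nat_lit 4) (.nd (nat_lit 5) (.nd (nat_lit 6) 
(.lf (nat_lit 243850) (.g (nat_lit 639) (.e (nat_lit 123175) (nat_lit 258) (.e (nat_lit 24648) (nat_lit 12) (.e (nat_lit 385093) (nat_lit 49) .nil))) .nil)) 
(.lf (nat_lit 243914) (.g (nat_lit 1161) (.e (nat_lit 123177) (nat_lit 260) (.e (nat_lit 172150) (nat_lit 27) (.e (nat_lit 336231) (nat_lit 14) (.e (nat_lit 401434) (nat_lit 9) .nil)))) .nil))) (.nd (nat_lit 6) 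
(.lf (nat_lit 243882) (.g (nat_lit 3998) (.e (nat_lit 123175) (nat_lit 258) (.e (nat_lit 24665) (nat_lit 14) (.e (nat_lit 401447) (nat_lit 10) (.e (nat_lit 434289) (nat_lit 43) (.e (nat_lit 696341) (nat_lit 7) .nil))))) .nil)) 
(.lf (nat_lit 243946) (.g (nat_lit 4098) (.e (nat_lit 123182) (nat_lit 264) (.e (nat_lit 1183) (nat_lit 87) (.e (nat_lit 57479) (nat_lit 28) (.e (nat_lit 557095) (nat_lit 13) (.e (nat_lit 172097) (nat_lit 9) (.e (nat_lit 426125) (nat_lit 2) (.e (nat_lit 196666) (nat_lit 13) (.e (nat_lit 65572) (nat_lit 4) .nil)))))))) (.g (nat_lit 5) .nil .nil))))) (.nd (nat_lit 5) (.nd (nat_lit 6) 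
(.lf (nat_lit 243866) (.g (nat_lit 2533) (.e (nat_lit 123175) (nat_lit 258) (.e (nat_lit 24662) (nat_lit 14) (.e (nat_lit 401459) (nat_lit 13) (.e (nat_lit 491264) (nat_lit 17) .nil)))) .nil)) 
(.lf (nat_lit 243930) (.g (nat_lit 4898) (.e (nat_lit 123182) (nat_lit 264) (.e (nat_lit 1183) (nat_lit 87) (.e (nat_lit 57478) (nat_lit 28) (.e (nat_lit 557107) (nat_lit 15) (.e (nat_lit 188447) (nat_lit 22) (.e (nat_lit 196666) (nat_lit 13) (.e (nat_lit 65573) (nat_lit 4) .nil))))))) (.g (nat_lit 6) .nil .nil)))) (.nd (nat_lit 6) 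
(.lf (nat_lit 243898) (.g (nat_lit 521) (.e (nat_lit 130816) (nat_lit 258) (.e (nat_lit 24662) (nat_lit 14) (.e (nat_lit 401438) (nat_lit 9) .nil))) .nil)) 
(.lf (nat_lit 243962) (.g (nat_lit 5419) (.e (nat_lit 123182) (nat_lit 264) (.e (nat_lit 1183) (nat_lit 87) (.e (nat_lit 57480) (nat_lit 28) (.e (nat_lit 557108) (nat_lit 15) (.e (nat_lit 188452) (nat_lit 23) (.e (nat_lit 204852) (nat_lit 26) (.e (nat_lit 343808) (nat_lit 4) .nil))))))) (.g (nat_lit 6) .nil .nil))))))) (.nd (nat_lit 3) (.nd (nat_lit 4) (.nd (nat_lit 5) (.nd (nat_lit 6) 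
(.lf (nat_lit 243846) (.g (nat_lit 1352) (.e (nat_lit 123174) (nat_lit 257) (.e (nat_lit 8326) (nat_lit 69) (.e (nat_lit 557107) (nat_lit 15) (.e (nat_lit 188447) (nat_lit 22) .nil)))) .nil)) 
(.lf (nat_lit 243910) (.g (nat_lit 359) (.e (nat_lit 123176) (nat_lit 259) (.e (nat_lit 163962) (nat_lit 25) (.e (nat_lit 532569) (nat_lit 16) .nil))) .nil))) (.nd (nat_lit 6) 
(.lf (nat_lit 243878) (.g (nat_lit 2414) (.e (nat_lit 123175) (nat_lit 258) (.e (nat_lit 24665) (nat_lit 14) (.e (nat_lit 401446) (nat_lit 10) (.e (nat_lit 434208) (nat_lit 18) .nil)))) .nil)) 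
(.lf (nat_lit 243942) (.g (nat_lit 4055) (.e (nat_lit 123182) (nat_lit 264) (.e (nat_lit 1183) (nat_lit 87) (.e (nat_lit 57478) (nat_lit 28) (.e (nat_lit 557109) (nat_lit 15) (.e (nat_lit 188458) (nat_lit 25) (.e (nat_lit 245784) (nat_lit 9) (.e (nat_lit 1450) (nat_lit 108) (.e (nat_lit 336032) (nat_lit 4) .nil)))))))) (.g (nat_lit 5) .nil .nil))))) (.nd (nat_lit 5) (.nd (nat_lit 6) 
(.lf (nat_lit 243862) (.g (nat_lit 2457) (.e (nat_lit 123175) (nat_lit 258) (.e (nat_lit 24662) (nat_lit 14) (.e (nat_lit 401459) (nat_lit 13) (.e (nat_lit 483343) (nat_lit 17) .nil)))) .nil)) 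
(.lf (nat_lit 243926) (.g (nat_lit 2876) (.e (nat_lit 123181) (nat_lit 264) (.e (nat_lit 1217) (nat_lit 90) (.e (nat_lit 81959) (nat_lit 24) (.e (nat_lit 123182) (nat_lit 264) (.e (nat_lit 1224) (nat_lit 90) .nil))))) .nil))) (.nd (nat_lit 6) 
(.lf (nat_lit 243894) (.g (nat_lit 2185) (.e (nat_lit 123175) (nat_lit 258) (.e (nat_lit 24665) (nat_lit 14) (.e (nat_lit 401448) (nat_lit 10) (.e (nat_lit 434291) (nat_lit 44) .nil)))) .nil)) 
(.lf (nat_lit 243958) (.g (nat_lit 4999) (.e (nat_lit 123182) (nat_lit 264) (.e (nat_lit 1183) (nat_lit 87) (.e (nat_lit 57480) (nat_lit 28) (.e (nat_lit 557107) (nat_lit 15) (.e (nat_lit 188447) (nat_lit 22) (.e (nat_lit 196666) (nat_lit 13) (.e (nat_lit 65573) (nat_lit 4) .nil))))))) (.g (nat_lit 6) .nil .nil)))))) (.nd (nat_lit 4) (.nd (nat_lit 5) (.nd (nat_lit 6) 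
(.lf (nat_lit 243854) (.g (nat_lit 1938) (.e (nat_lit 123175) (nat_lit 258) (.e (nat_lit 24651) (nat_lit 12) (.e (nat_lit 385094) (nat_lit 49) (.e (nat_lit 778324) (nat_lit 5) (.e (nat_lit 73795) (nat_lit 47) .nil))))) .nil)) 
(.lf (nat_lit 243918) (.g (nat_lit 2228) (.e (nat_lit 123177) (nat_lit 260) (.e (nat_lit 172150) (nat_lit 27) (.e (nat_lit 336231) (nat_lit 14) (.e (nat_lit 401448) (nat_lit 10) (.e (nat_lit 434209) (nat_lit 18) (.e (nat_lit 6270) (nat_lit 337) (.e (nat_lit 131) (nat_lit 6) .nil))))))) (.g (nat_lit 5) .nil .nil)))) (.nd (nat_lit 6) 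
(.lf (nat_lit 243886) (.g (nat_lit 3401) (.e (nat_lit 123175) (nat_lit 258) (.e (nat_lit 24665) (nat_lit 14) (.e (nat_lit 401448) (nat_lit 10) (.e (nat_lit 434202) (nat_lit 18) (.e (nat_lit 6254) (nat_lit 337) .nil))))) .nil)) 
(.lf (nat_lit 243950) (.g (nat_lit 5095) (.e (nat_lit 123182) (nat_lit 264) (.e (nat_lit 1183) (nat_lit 87) (.e (nat_lit 57479) (nat_lit 28) (.e (nat_lit 557100) (nat_lit 13) (.e (nat_lit 172106) (nat_lit 10) (.e (nat_lit 434231) (nat_lit 23) (.e (nat_lit 532527) (nat_lit 9) (.e (nat_lit 336032) (nat_lit 4) .nil)))))))) (.g (nat_lit 6) .nil .nil))))) (.nd (nat_lit 5) (.nd (nat_lit 6) 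
(.lf (nat_lit 243870) (.g (nat_lit 677) (.e (nat_lit 123175) (nat_lit 258) (.e (nat_lit 24664) (nat_lit 14) (.e (nat_lit 401448) (nat_lit 10) .nil))) .nil)) 
(.lf (nat_lit 243934) (.g (nat_lit 4719) (.e (nat_lit 123182) (nat_lit 264) (.e (nat_lit 1183) (nat_lit 87) (.e (nat_lit 57478) (nat_lit 28) (.e (nat_lit 557108) (nat_lit 15) (.e (nat_lit 188452) (nat_lit 23) (.e (nat_lit 204856) (nat_lit 26) (.e (nat_lit 336032) (nat_lit 4) .nil))))))) (.g (nat_lit 5) .nil .nil)))) (.nd (nat_lit 6) 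
(.lf (nat_lit 243902) (.g (nat_lit 4437) (.e (nat_lit 123176) (nat_lit 259) (.e (nat_lit 163962) (nat_lit 25) (.e (nat_lit 532522) (nat_lit 7) (.e (nat_lit 319530) (nat_lit 16) (.e (nat_lit 286735) (nat_lit 3) (.e (nat_lit 98325) (nat_lit 17) (.e (nat_lit 7083) (nat_lit 379) .nil))))))) (.g (nat_lit 7) .nil .nil))) 
(.lf (nat_lit 243966) (.g (nat_lit 3118) (.e (nat_lit 123182) (nat_lit 264) (.e (nat_lit 1183) (nat_lit 87) (.e (nat_lit 57480) (nat_lit 28) (.e (nat_lit 557108) (nat_lit 15) (.e (nat_lit 188458) (nat_lit 25) .nil))))) .nil)))))))) (.nd (nat_lit 1) (.nd (nat_lit 2) (.nd (nat_lit 3) (.nd (nat_lit 4) (.nd (nat_lit 5) (.nd (nat_lit 6) 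
(.lf (nat_lit 243841) (.g (nat_lit 1341) (.e (nat_lit 123174) (nat_lit 257) (.e (nat_lit 8325) (nat_lit 69) (.e (nat_lit 557107) (nat_lit 15) (.e (nat_lit 188447) (nat_lit 22) .nil)))) .nil)) 
(.lf (nat_lit 243905) (.g (nat_lit 5025) (.e (nat_lit 123176) (nat_lit 259) (.e (nat_lit 163962) (nat_lit 25) (.e (nat_lit 532523) (nat_lit 7) (.e (nat_lit 319531) (nat_lit 16) (.e (nat_lit 286733) (nat_lit 2) (.e (nat_lit 90165) (nat_lit 12) (.e (nat_lit 164217) (nat_lit 178) .nil))))))) (.g (nat_lit 7) .nil .nil)))) (.nd (nat_lit 6) 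
(.lf (nat_lit 243873) (.g (nat_lit 2351) (.e (nat_lit 123175) (nat_lit 258) (.e (nat_lit 24665) (nat_lit 14) (.e (nat_lit 401444) (nat_lit 9) (.e (nat_lit 426532) (nat_lit 28) .nil)))) .nil)) 
(.lf (nat_lit 243937) (.g (nat_lit 2550) (.e (nat_lit 123182) (nat_lit 264) (.e (nat_lit 1183) (nat_lit 87) (.e (nat_lit 57478) (nat_lit 28) (.e (nat_lit 557109) (nat_lit 15) (.e (nat_lit 188450) (nat_lit 23) .nil))))) .nil)))) (.nd (nat_lit 5) (.nd (nat_lit 6) 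
(.lf (nat_lit 243857) (.g (nat_lit 2414) (.e (nat_lit 123175) (nat_lit 258) (.e (nat_lit 24661) (nat_lit 14) (.e (nat_lit 401437) (nat_lit 9) (.e (nat_lit 426533) (nat_lit 28) .nil)))) .nil)) 
(.lf (nat_lit 243921) (.g (nat_lit 570) (.e (nat_lit 123181) (nat_lit 264) (.e (nat_lit 1201) (nat_lit 88) (.e (nat_lit 65624) (nat_lit 12) .nil))) .nil))) (.nd (nat_lit 6) 
(.lf (nat_lit 243889) (.g (nat_lit 2776) (.e (nat_lit 123175) (nat_lit 258) (.e (nat_lit 24665) (nat_lit 14) (.e (nat_lit 401448) (nat_lit 10) (.e (nat_lit 434206) (nat_lit 18) (.e (nat_lit 6252) (nat_lit 337) .nil))))) .nil)) 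
(.lf (nat_lit 243953) (.g (nat_lit 1945) (.e (nat_lit 123182) (nat_lit 264) (.e (nat_lit 1183) (nat_lit 87) (.e (nat_lit 57479) (nat_lit 28) (.e (nat_lit 557101) (nat_lit 13) (.e (nat_lit 172115) (nat_lit 10) .nil))))) .nil))))) (.nd (nat_lit 4) (.nd (nat_lit 5) (.nd (nat_lit 6) 
(.lf (nat_lit 243849) (.g (nat_lit 1245) (.e (nat_lit 123175) (nat_lit 258) (.e (nat_lit 24584) (nat_lit 0) (.e (nat_lit 6113) (nat_lit 332) (.e (nat_lit 1376) (nat_lit 104) .nil)))) .nil)) 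
(.lf (nat_lit 243913) (.g (nat_lit 1601) (.e (nat_lit 123177) (nat_lit 260) (.e (nat_lit 172067) (nat_lit 3) (.e (nat_lit 204846) (nat_lit 24) (.e (nat_lit 319534) (nat_lit 16) .nil)))) .nil))) (.nd (nat_lit 6) 
(.lf (nat_lit 243881) (.g (nat_lit 2962) (.e (nat_lit 123175) (nat_lit 258) (.e (nat_lit 24665) (nat_lit 14) (.e (nat_lit 401447) (nat_lit 10) (.e (nat_lit 434289) (nat_lit 43) .nil)))) .nil)) 
(.lf (nat_lit 243945) (.g (nat_lit 4034) (.e (nat_lit 123182) (nat_lit 264) (.e (nat_lit 1183) (nat_lit 87) (.e (nat_lit 57478) (nat_lit 28) (.e (nat_lit 557109) (nat_lit 15) (.e (nat_lit 188458) (nat_lit 25) (.e (nat_lit 245784) (nat_lit 9) (.e (nat_lit 1459) (nat_lit 108) (.e (nat_lit 336032) (nat_lit 4) .nil)))))))) (.g (nat_lit 5) .nil .nil))))) (.nd (nat_lit 5) (.nd (nat_lit 6) 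
(.lf (nat_lit 243865) (.g (nat_lit 2490) (.e (nat_lit 123175) (nat_lit 258) (.e (nat_lit 24662) (nat_lit 14) (.e (nat_lit 401459) (nat_lit 13) (.e (nat_lit 483354) (nat_lit 17) (.e (nat_lit 6223) (nat_lit 334) .nil))))) .nil)) 
(.lf (nat_lit 243929) (.g (nat_lit 2818) (.e (nat_lit 123182) (nat_lit 264) (.e (nat_lit 1183) (nat_lit 87) (.e (nat_lit 57478) (nat_lit 28) (.e (nat_lit 557098) (nat_lit 13) (.e (nat_lit 172097) (nat_lit 9) (.e (nat_lit 426140) (nat_lit 3) (.e (nat_lit 204855) (nat_lit 26) (.e (nat_lit 336034) (nat_lit 4) .nil)))))))) (.g (nat_lit 4) .nil .nil)))) (.nd (nat_lit 6) 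
(.lf (nat_lit 243897) (.g (nat_lit 1876) (.e (nat_lit 123175) (nat_lit 258) (.e (nat_lit 24665) (nat_lit 14) (.e (nat_lit 401455) (nat_lit 13) (.e (nat_lit 491264) (nat_lit 17) .nil)))) .nil)) 
(.lf (nat_lit 243961) (.g (nat_lit 5628) (.e (nat_lit 123182) (nat_lit 264) (.e (nat_lit 1183) (nat_lit 87) (.e (nat_lit 57480) (nat_lit 28) (.e (nat_lit 557108) (nat_lit 15) (.e (nat_lit 188452) (nat_lit 23) (.e (nat_lit 204852) (nat_lit 26) (.e (nat_lit 336036) (nat_lit 4) .nil))))))) (.g (nat_lit 6) .nil .nil))))))) (.nd (nat_lit 3) (.nd (nat_lit 4) (.nd (nat_lit 5) (.nd (nat_lit 6) 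
(.lf (nat_lit 243845) (.g (nat_lit 525) (.e (nat_lit 123174) (nat_lit 257) (.e (nat_lit 8326) (nat_lit 69) (.e (nat_lit 557107) (nat_lit 15) .nil))) .nil)) 
(.lf (nat_lit 243909) (.g (nat_lit 4805) (.e (nat_lit 123176) (nat_lit 259) (.e (nat_lit 163962) (nat_lit 25) (.e (nat_lit 532523) (nat_lit 7) (.e (nat_lit 319534) (nat_lit 16) (.e (nat_lit 286735) (nat_lit 3) (.e (nat_lit 98325) (nat_lit 17) (.e (nat_lit 7083) (nat_lit 379) .nil))))))) (.g (nat_lit 7) .nil .nil)))) (.nd (nat_lit 6) 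
(.lf (nat_lit 243877) (.g (nat_lit 2466) (.e (nat_lit 123175) (nat_lit 258) (.e (nat_lit 24665) (nat_lit 14) (.e (nat_lit 401446) (nat_lit 10) (.e (nat_lit 434207) (nat_lit 18) .nil)))) .nil)) 
(.lf (nat_lit 243941) (.g (nat_lit 5423) (.e (nat_lit 123182) (nat_lit 264) (.e (nat_lit 1183) (nat_lit 87) (.e (nat_lit 57478) (nat_lit 28) (.e (nat_lit 557109) (nat_lit 15) (.e (nat_lit 188452) (nat_lit 23) (.e (nat_lit 204858) (nat_lit 26) (.e (nat_lit 336031) (nat_lit 4) .nil))))))) (.g (nat_lit 5) .nil .nil))))) (.nd (nat_lit 5) (.nd (nat_lit 6) 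
(.lf (nat_lit 243861) (.g (nat_lit 518) (.e (nat_lit 123175) (nat_lit 258) (.e (nat_lit 24662) (nat_lit 14) (.e (nat_lit 401459) (nat_lit 13) .nil))) .nil)) 
(.lf (nat_lit 243925) (.g (nat_lit 1981) (.e (nat_lit 123181) (nat_lit 264) (.e (nat_lit 1217) (nat_lit 90) (.e (nat_lit 81957) (nat_lit 24) (.e (nat_lit 123182) (nat_lit 264) (.e (nat_lit 1222) (nat_lit 90) .nil))))) .nil))) (.nd (nat_lit 6) 
(.lf (nat_lit 243893) (.g (nat_lit 3288) (.e (nat_lit 123175) (nat_lit 258) (.e (nat_lit 24665) (nat_lit 14) (.e (nat_lit 401448) (nat_lit 10) (.e (nat_lit 434208) (nat_lit 18) (.e (nat_lit 6254) (nat_lit 337) .nil))))) .nil)) 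
(.lf (nat_lit 243957) (.g (nat_lit 4604) (.e (nat_lit 123182) (nat_lit 264) (.e (nat_lit 1183) (nat_lit 87) (.e (nat_lit 57480) (nat_lit 28) (.e (nat_lit 557107) (nat_lit 15) (.e (nat_lit 188447) (nat_lit 22) (.e (nat_lit 196666) (nat_lit 13) (.e (nat_lit 65572) (nat_lit 4) .nil))))))) (.g (nat_lit 6) .nil .nil)))))) (.nd (nat_lit 4) (.nd (nat_lit 5) (.nd (nat_lit 6) 
(.lf (nat_lit 243853) (.g (nat_lit 2305) (.e (nat_lit 123175) (nat_lit 258) (.e (nat_lit 24651) (nat_lit 12) (.e (nat_lit 385094) (nat_lit 49) (.e (nat_lit 778323) (nat_lit 5) (.e (nat_lit 73795) (nat_lit 47) .nil))))) .nil)) 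
(.lf (nat_lit 243917) (.g (nat_lit 830) (.e (nat_lit 123177) (nat_lit 260) (.e (nat_lit 172150) (nat_lit 27) (.e (nat_lit 336231) (nat_lit 14) (.e (nat_lit 401448) (nat_lit 10) .nil)))) .nil))) (.nd (nat_lit 6) 
(.lf (nat_lit 243885) (.g (nat_lit 2708) (.e (nat_lit 123175) (nat_lit 258) (.e (nat_lit 24665) (nat_lit 14) (.e (nat_lit 401448) (nat_lit 10) (.e (nat_lit 434202) (nat_lit 18) .nil)))) .nil)) 
(.lf (nat_lit 243949) (.g (nat_lit 5073) (.e (nat_lit 123182) (nat_lit 264) (.e (nat_lit 1183) (nat_lit 87) (.e (nat_lit 57479) (nat_lit 28) (.e (nat_lit 557095) (nat_lit 13) (.e (nat_lit 172115) (nat_lit 10) (.e (nat_lit 434231) (nat_lit 23) (.e (nat_lit 532535) (nat_lit 9) (.e (nat_lit 336030) (nat_lit 4) .nil)))))))) (.g (nat_lit 7) .nil .nil))))) (.nd (nat_lit 5) (.nd (nat_lit 6) 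
(.lf (nat_lit 243869) (.g (nat_lit 545) (.e (nat_lit 123175) (nat_lit 258) (.e (nat_lit 24664) (nat_lit 14) (.e (nat_lit 401437) (nat_lit 9) .nil))) .nil)) 
(.lf (nat_lit 243933) (.g (nat_lit 5049) (.e (nat_lit 123182) (nat_lit 264) (.e (nat_lit 1183) (nat_lit 87) (.e (nat_lit 57478) (nat_lit 28) (.e (nat_lit 557108) (nat_lit 15) (.e (nat_lit 188452) (nat_lit 23) (.e (nat_lit 204852) (nat_lit 26) (.e (nat_lit 343808) (nat_lit 4) .nil))))))) (.g (nat_lit 5) .nil .nil)))) (.nd (nat_lit 6) 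
(.lf (nat_lit 243901) (.g (nat_lit 1103) (.e (nat_lit 123176) (nat_lit 259) (.e (nat_lit 163962) (nat_lit 25) (.e (nat_lit 532522) (nat_lit 7) (.e (nat_lit 319529) (nat_lit 16) .nil)))) .nil)) 
(.lf (nat_lit 243965) (.g (nat_lit 5385) (.e (nat_lit 123182) (nat_lit 264) (.e (nat_lit 1183) (nat_lit 87) (.e (nat_lit 57480) (nat_lit 28) (.e (nat_lit 557108) (nat_lit 15) (.e (nat_lit 188452) (nat_lit 23) (.e (nat_lit 204856) (nat_lit 26) (.e (nat_lit 336032) (nat_lit 4) .nil))))))) (.g (nat_lit 5) .nil .nil)))))))) 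
(.nd (nat_lit 2) (.nd (nat_lit 3) (.nd (nat_lit 4) (.nd (nat_lit 5) (.nd (nat_lit 6) 
(.lf (nat_lit 243843) (.g (nat_lit 3717) (.e (nat_lit 123174) (nat_lit 257) (.e (nat_lit 8325) (nat_lit 69) (.e (nat_lit 557109) (nat_lit 15) (.e (nat_lit 188449) (nat_lit 22) (.e (nat_lit 196661) (nat_lit 12) .nil))))) .nil)) 
(.lf (nat_lit 243907) (.g (nat_lit 1199) (.e (nat_lit 123176) (nat_lit 259) (.e (nat_lit 163962) (nat_lit 25) (.e (nat_lit 532523) (nat_lit 7) (.e (nat_lit 319532) (nat_lit 16) .nil)))) .nil))) (.nd (nat_lit 6) 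
(.lf (nat_lit 243875) (.g (nat_lit 2677) (.e (nat_lit 123175) (nat_lit 258) (.e (nat_lit 24665) (nat_lit 14) (.e (nat_lit 401446) (nat_lit 10) (.e (nat_lit 434202) (nat_lit 18) .nil)))) .nil)) 
(.lf (nat_lit 243939) (.g (nat_lit 5369) (.e (nat_lit 123182) (nat_lit 264) (.e (nat_lit 1183) (nat_lit 87) (.e (nat_lit 57478) (nat_lit 28) (.e (nat_lit 557109) (nat_lit 15) (.e (nat_lit 188452) (nat_lit 23) (.e (nat_lit 204856) (nat_lit 26) (.e (nat_lit 336032) (nat_lit 4) .nil))))))) (.g (nat_lit 6) .nil .nil))))) (.nd (nat_lit 5) (.nd (nat_lit 6) 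
(.lf (nat_lit 243859) (.g (nat_lit 2507) (.e (nat_lit 123175) (nat_lit 258) (.e (nat_lit 24661) (nat_lit 14) (.e (nat_lit 401459) (nat_lit 13) (.e (nat_lit 483350) (nat_lit 17) .nil)))) .nil)) 
(.lf (nat_lit 243923) (.g (nat_lit 1755) (.e (nat_lit 123181) (nat_lit 264) (.e (nat_lit 1214) (nat_lit 89) (.e (nat_lit 73792) (nat_lit 45) (.e (nat_lit 1386) (nat_lit 105) (.e (nat_lit 311358) (nat_lit 29) .nil))))) .nil))) (.nd (nat_lit 6) 
(.lf (nat_lit 243891) (.g (nat_lit 2624) (.e (nat_lit 123175) (nat_lit 258) (.e (nat_lit 24665) (nat_lit 14) (.e (nat_lit 401448) (nat_lit 10) (.e (nat_lit 434208) (nat_lit 18) .nil)))) .nil)) 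
(.lf (nat_lit 243955) (.g (nat_lit 3241) (.e (nat_lit 123182) (nat_lit 264) (.e (nat_lit 1183) (nat_lit 87) (.e (nat_lit 57480) (nat_lit 28) (.e (nat_lit 557098) (nat_lit 13) (.e (nat_lit 172097) (nat_lit 9) (.e (nat_lit 426125) (nat_lit 2) (.e (nat_lit 196666) (nat_lit 13) (.e (nat_lit 73472) (nat_lit 4) .nil)))))))) (.g (nat_lit 4) .nil .nil)))))) 
(.nd (nat_lit 4) (.nd (nat_lit 5) (.nd (nat_lit 6) 
(.lf (nat_lit 243851) (.g (nat_lit 1424) (.e (nat_lit 123175) (nat_lit 258) (.e (nat_lit 24648) (nat_lit 12) (.e (nat_lit 385094) (nat_lit 49) (.e (nat_lit 778324) (nat_lit 5) .nil)))) .nil)) 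
(.lf (nat_lit 243915) (.g (nat_lit 819) (.e (nat_lit 123177) (nat_lit 260) (.e (nat_lit 172150) (nat_lit 27) (.e (nat_lit 336231) (nat_lit 14) (.e (nat_lit 401446) (nat_lit 10) .nil)))) .nil))) (.nd (nat_lit 6) 
(.lf (nat_lit 243883) (.g (nat_lit 1088) (.e (nat_lit 123175) (nat_lit 258) (.e (nat_lit 24665) (nat_lit 14) (.e (nat_lit 401448) (nat_lit 10) .nil))) .nil)) 
(.lf (nat_lit 243947) (.g (nat_lit 3586) (.e (nat_lit 123182) (nat_lit 264) (.e (nat_lit 1183) (nat_lit 87) (.e (nat_lit 57479) (nat_lit 28) (.e (nat_lit 557095) (nat_lit 13) (.e (nat_lit 172097) (nat_lit 9) (.e (nat_lit 426140) (nat_lit 3) (.e (nat_lit 204855) (nat_lit 26) (.e (nat_lit 336030) (nat_lit 4) .nil)))))))) (.g (nat_lit 4) .nil .nil))))) (.nd (nat_lit 5) (.nd (nat_lit 6) 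
(.lf (nat_lit 243867) (.g (nat_lit 1368) (.e (nat_lit 123175) (nat_lit 258) (.e (nat_lit 24663) (nat_lit 14) (.e (nat_lit 401437) (nat_lit 9) (.e (nat_lit 426533) (nat_lit 28) .nil)))) .nil)) 
(.lf (nat_lit 243931) (.g (nat_lit 2594) (.e (nat_lit 123182) (nat_lit 264) (.e (nat_lit 1183) (nat_lit 87) (.e (nat_lit 57478) (nat_lit 28) (.e (nat_lit 557107) (nat_lit 15) (.e (nat_lit 188450) (nat_lit 23) (.e (nat_lit 204856) (nat_lit 26) (.e (nat_lit 336032) (nat_lit 4) .nil))))))) (.g (nat_lit 4) .nil .nil)))) (.nd (nat_lit 6) 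
(.lf (nat_lit 243899) (.g (nat_lit 1283) (.e (nat_lit 123176) (nat_lit 259) (.e (nat_lit 163962) (nat_lit 25) (.e (nat_lit 532482) (nat_lit 0) (.e (nat_lit 6722) (nat_lit 362) (.e (nat_lit 180245) (nat_lit 5) (.e (nat_lit 532486) (nat_lit 0) (.e (nat_lit 6225) (nat_lit 334) .nil))))))) (.g (nat_lit 4) .nil .nil))) 
(.lf (nat_lit 243963) (.g (nat_lit 3503) (.e (nat_lit 123182) (nat_lit 264) (.e (nat_lit 1183) (nat_lit 87) (.e (nat_lit 57480) (nat_lit 28) (.e (nat_lit 557108) (nat_lit 15) (.e (nat_lit 188452) (nat_lit 23) (.e (nat_lit 204853) (nat_lit 26) (.e (nat_lit 336029) (nat_lit 4) .nil))))))) (.g (nat_lit 4) .nil .nil))))))) (.nd (nat_lit 3) (.nd (nat_lit 4) (.nd (nat_lit 5) (.nd (nat_lit 6) 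
(.lf (nat_lit 243847) (.g (nat_lit 1577) (.e (nat_lit 123174) (nat_lit 257) (.e (nat_lit 8326) (nat_lit 69) (.e (nat_lit 557109) (nat_lit 15) (.e (nat_lit 188447) (nat_lit 22) .nil)))) .nil)) 
(.lf (nat_lit 243911) (.g (nat_lit 1185) (.e (nat_lit 123176) (nat_lit 259) (.e (nat_lit 163962) (nat_lit 25) (.e (nat_lit 532569) (nat_lit 16) (.e (nat_lit 401448) (nat_lit 10) .nil)))) .nil))) (.nd (nat_lit 6) 
(.lf (nat_lit 243879) (.g (nat_lit 2478) (.e (nat_lit 123175) (nat_lit 258) (.e (nat_lit 24665) (nat_lit 14) (.e (nat_lit 401446) (nat_lit 10) (.e (nat_lit 442112) (nat_lit 46) .nil)))) .nil)) 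
(.lf (nat_lit 243943) (.g (nat_lit 4068) (.e (nat_lit 123182) (nat_lit 264) (.e (nat_lit 1183) (nat_lit 87) (.e (nat_lit 57478) (nat_lit 28) (.e (nat_lit 557109) (nat_lit 15) (.e (nat_lit 188458) (nat_lit 25) (.e (nat_lit 245784) (nat_lit 9) (.e (nat_lit 1456) (nat_lit 108) (.e (nat_lit 336032) (nat_lit 4) .nil)))))))) (.g (nat_lit 5) .nil .nil))))) (.nd (nat_lit 5) (.nd (nat_lit 6) 
(.lf (nat_lit 243863) (.g (nat_lit 2494) (.e (nat_lit 123175) (nat_lit 258) (.e (nat_lit 24662) (nat_lit 14) (.e (nat_lit 401459) (nat_lit 13) (.e (nat_lit 483344) (nat_lit 17) .nil)))) .nil)) 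
(.lf (nat_lit 243927) (.g (nat_lit 832) (.e (nat_lit 123182) (nat_lit 264) (.e (nat_lit 999) (nat_lit 81) (.e (nat_lit 1239) (nat_lit 91) (.e (nat_lit 98048) (nat_lit 5) .nil)))) .nil))) (.nd (nat_lit 6) 
(.lf (nat_lit 243895) (.g (nat_lit 2872) (.e (nat_lit 123175) (nat_lit 258) (.e (nat_lit 24665) (nat_lit 14) (.e (nat_lit 401448) (nat_lit 10) (.e (nat_lit 434291) (nat_lit 44) (.e (nat_lit 704726) (nat_lit 10) .nil))))) .nil)) 
(.lf (nat_lit 243959) (.g (nat_lit 4916) (.e (nat_lit 123182) (nat_lit 264) (.e (nat_lit 1183) (nat_lit 87) (.e (nat_lit 57480) (nat_lit 28) (.e (nat_lit 557107) (nat_lit 15) (.e (nat_lit 188447) (nat_lit 22) (.e (nat_lit 196666) (nat_lit 13) (.e (nat_lit 65574) (nat_lit 4) .nil))))))) (.g (nat_lit 6) .nil .nil)))))) (.nd (nat_lit 4) (.nd (nat_lit 5) (.nd (nat_lit 6) 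
(.lf (nat_lit 243855) (.g (nat_lit 1689) (.e (nat_lit 123175) (nat_lit 258) (.e (nat_lit 24653) (nat_lit 12) (.e (nat_lit 385093) (nat_lit 49) (.e (nat_lit 778324) (nat_lit 5) (.e (nat_lit 73795) (nat_lit 47) .nil))))) .nil)) 
(.lf (nat_lit 243919) (.g (nat_lit 1735) (.e (nat_lit 123181) (nat_lit 264) (.e (nat_lit 1201) (nat_lit 88) (.e (nat_lit 65610) (nat_lit 10) (.e (nat_lit 344097) (nat_lit 18) .nil)))) .nil))) (.nd (nat_lit 6) 
(.lf (nat_lit 243887) (.g (nat_lit 2760) (.e (nat_lit 123175) (nat_lit 258) (.e (nat_lit 24665) (nat_lit 14) (.e (nat_lit 401448) (nat_lit 10) (.e (nat_lit 434203) (nat_lit 18) .nil)))) .nil)) 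
(.lf (nat_lit 243951) (.g (nat_lit 5952) (.e (nat_lit 123182) (nat_lit 264) (.e (nat_lit 1183) (nat_lit 87) (.e (nat_lit 57479) (nat_lit 28) (.e (nat_lit 557100) (nat_lit 13) (.e (nat_lit 172106) (nat_lit 10) (.e (nat_lit 434231) (nat_lit 23) (.e (nat_lit 532535) (nat_lit 9) (.e (nat_lit 336030) (nat_lit 4) .nil)))))))) (.g (nat_lit 7) .nil .nil))))) (.nd (nat_lit 5) (.nd (nat_lit 6) 
(.lf (nat_lit 243871) (.g (nat_lit 2854) (.e (nat_lit 123175) (nat_lit 258) (.e (nat_lit 24665) (nat_lit 14) (.e (nat_lit 401434) (nat_lit 9) (.e (nat_lit 426533) (nat_lit 28) (.e (nat_lit 344085) (nat_lit 15) .nil))))) .nil)) 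
(.lf (nat_lit 243935) (.g (nat_lit 6004) (.e (nat_lit 123182) (nat_lit 264) (.e (nat_lit 1183) (nat_lit 87) (.e (nat_lit 57478) (nat_lit 28) (.e (nat_lit 557109) (nat_lit 15) (.e (nat_lit 188449) (nat_lit 22) (.e (nat_lit 196663) (nat_lit 13) (.e (nat_lit 65574) (nat_lit 4) .nil))))))) (.g (nat_lit 5) .nil .nil)))) (.nd (nat_lit 6) 
(.lf (nat_lit 243903) (.g (nat_lit 1006) (.e (nat_lit 123176) (nat_lit 259) (.e (nat_lit 163962) (nat_lit 25) (.e (nat_lit 532523) (nat_lit 7) (.e (nat_lit 319504) (nat_lit 10) .nil)))) .nil)) 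
(.lf (nat_lit 243967) (.g (nat_lit 5649) (.e (nat_lit 123182) (nat_lit 264) (.e (nat_lit 1183) (nat_lit 87) (.e (nat_lit 57480) (nat_lit 28) (.e (nat_lit 557109) (nat_lit 15) (.e (nat_lit 188449) (nat_lit 22) (.e (nat_lit 196663) (nat_lit 13) (.e (nat_lit 65574) (nat_lit 4) .nil))))))) (.g (nat_lit 5) .nil .nil))))))))))

noncomputable def tv3177 : DT := (.nd (nat_lit 0) (.nd (nat_lit 1) (.nd (nat_lit 2) (.nd (nat_lit 3) (.nd (nat_lit 4) (.nd (nat_lit 5) 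
(.lf (nat_lit 243968) (.g (nat_lit 4866) (.e (nat_lit 123182) (nat_lit 264) (.e (nat_lit 1183) (nat_lit 87) (.e (nat_lit 57480) (nat_lit 28) (.e (nat_lit 557109) (nat_lit 15) (.e (nat_lit 188452) (nat_lit 23) (.e (nat_lit 204856) (nat_lit 26) (.e (nat_lit 336031) (nat_lit 4) .nil))))))) (.g (nat_lit 5) .nil .nil))) 
(.lf (nat_lit 244000) (.g (nat_lit 3783) (.e (nat_lit 123182) (nat_lit 264) (.e (nat_lit 1201) (nat_lit 88) (.e (nat_lit 65610) (nat_lit 10) (.e (nat_lit 344169) (nat_lit 40) (.e (nat_lit 671762) (nat_lit 4) (.e (nat_lit 65598) (nat_lit 9) (.e (nat_lit 336032) (nat_lit 4) .nil))))))) (.g (nat_lit 5) .nil .nil)))) (.nd (nat_lit 5) 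
(.lf (nat_lit 243984) (.g (nat_lit 2695) (.e (nat_lit 123182) (nat_lit 264) (.e (nat_lit 1193) (nat_lit 88) (.e (nat_lit 65628) (nat_lit 14) (.e (nat_lit 401438) (nat_lit 9) (.e (nat_lit 426542) (nat_lit 29) (.e (nat_lit 352317) (nat_lit 24) .nil)))))) (.g (nat_lit 4) .nil .nil))) 
(.lf (nat_lit 244016) (.g (nat_lit 2715) (.e (nat_lit 123182) (nat_lit 264) (.e (nat_lit 1201) (nat_lit 88) (.e (nat_lit 65628) (nat_lit 14) (.e (nat_lit 401457) (nat_lit 13) (.e (nat_lit 483378) (nat_lit 23) (.e (nat_lit 336032) (nat_lit 4) .nil)))))) (.g (nat_lit 4) .nil .nil))))) (.nd (nat_lit 4) (.nd (nat_lit 5) 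
(.lf (nat_lit 243976) (.g (nat_lit 884) (.e (nat_lit 123182) (nat_lit 264) (.e (nat_lit 1187) (nat_lit 88) (.e (nat_lit 65624) (nat_lit 12) (.e (nat_lit 385105) (nat_lit 50) .nil)))) .nil)) 
(.lf (nat_lit 244008) (.g (nat_lit 3166) (.e (nat_lit 123182) (nat_lit 264) (.e (nat_lit 1201) (nat_lit 88) (.e (nat_lit 65624) (nat_lit 12) (.e (nat_lit 385093) (nat_lit 49) (.e (nat_lit 778326) (nat_lit 6) (.e (nat_lit 81958) (nat_lit 24) .nil)))))) (.g (nat_lit 4) .nil .nil)))) (.nd (nat_lit 5) 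
(.lf (nat_lit 243992) (.g (nat_lit 2772) (.e (nat_lit 123182) (nat_lit 264) (.e (nat_lit 1201) (nat_lit 88) (.e (nat_lit 65610) (nat_lit 10) (.e (nat_lit 344097) (nat_lit 18) (.e (nat_lit 5905) (nat_lit 320) (.e (nat_lit 1220) (nat_lit 90) (.e (nat_lit 81958) (nat_lit 24) .nil))))))) (.g (nat_lit 4) .nil .nil))) 
(.lf (nat_lit 244024) (.g (nat_lit 3551) (.e (nat_lit 123182) (nat_lit 264) (.e (nat_lit 1201) (nat_lit 88) (.e (nat_lit 65628) (nat_lit 14) (.e (nat_lit 401459) (nat_lit 13) (.e (nat_lit 483388) (nat_lit 23) (.e (nat_lit 336032) (nat_lit 4) .nil)))))) (.g (nat_lit 4) .nil .nil)))))) (.nd (nat_lit 3) (.nd (nat_lit 4) (.nd (nat_lit 5) 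
(.lf (nat_lit 243972) (.g (nat_lit 3860) (.e (nat_lit 123182) (nat_lit 264) (.e (nat_lit 1183) (nat_lit 87) (.e (nat_lit 57520) (nat_lit 44) (.e (nat_lit 688177) (nat_lit 16) (.e (nat_lit 65583) (nat_lit 7) (.e (nat_lit 319530) (nat_lit 16) (.e (nat_lit 286742) (nat_lit 9) (.e (nat_lit 336032) (nat_lit 4) .nil)))))))) (.g (nat_lit 6) .nil .nil))) 
(.lf (nat_lit 244004) (.g (nat_lit 2922) (.e (nat_lit 123182) (nat_lit 264) (.e (nat_lit 1201) (nat_lit 88) (.e (nat_lit 65617) (nat_lit 10) (.e (nat_lit 344168) (nat_lit 40) (.e (nat_lit 671762) (nat_lit 4) (.e (nat_lit 65598) (nat_lit 9) (.e (nat_lit 336032) (nat_lit 4) .nil))))))) (.g (nat_lit 4) .nil .nil)))) (.nd (nat_lit 5) 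
(.lf (nat_lit 243988) (.g (nat_lit 2648) (.e (nat_lit 123182) (nat_lit 264) (.e (nat_lit 1193) (nat_lit 88) (.e (nat_lit 65628) (nat_lit 14) (.e (nat_lit 401459) (nat_lit 13) (.e (nat_lit 483389) (nat_lit 23) .nil))))) .nil)) 
(.lf (nat_lit 244020) (.g (nat_lit 3811) (.e (nat_lit 123182) (nat_lit 264) (.e (nat_lit 1201) (nat_lit 88) (.e (nat_lit 65628) (nat_lit 14) (.e (nat_lit 401459) (nat_lit 13) (.e (nat_lit 483344) (nat_lit 17) (.e (nat_lit 6434) (nat_lit 343) (.e (nat_lit 1288) (nat_lit 95) .nil))))))) (.g (nat_lit 5) .nil .nil))))) (.nd (nat_lit 4) (.nd (nat_lit 5) 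
(.lf (nat_lit 243980) (.g (nat_lit 1779) (.e (nat_lit 123182) (nat_lit 264) (.e (nat_lit 1191) (nat_lit 88) (.e (nat_lit 65630) (nat_lit 14) (.e (nat_lit 401454) (nat_lit 12) (.e (nat_lit 483072) (nat_lit 12) (.e (nat_lit 65574) (nat_lit 4) .nil)))))) (.g (nat_lit 4) .nil .nil))) 
(.lf (nat_lit 244012) (.g (nat_lit 3860) (.e (nat_lit 123182) (nat_lit 264) (.e (nat_lit 1201) (nat_lit 88) (.e (nat_lit 65628) (nat_lit 14) (.e (nat_lit 401437) (nat_lit 9) (.e (nat_lit 426542) (nat_lit 29) (.e (nat_lit 352317) (nat_lit 24) .nil)))))) (.g (nat_lit 5) .nil .nil)))) (.nd (nat_lit 5) 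
(.lf (nat_lit 243996) (.g (nat_lit 4474) (.e (nat_lit 123182) (nat_lit 264) (.e (nat_lit 1201) (nat_lit 88) (.e (nat_lit 65610) (nat_lit 10) (.e (nat_lit 344097) (nat_lit 18) (.e (nat_lit 5907) (nat_lit 320) (.e (nat_lit 1221) (nat_lit 90) (.e (nat_lit 81958) (nat_lit 24) .nil))))))) (.g (nat_lit 6) .nil .nil))) 
(.lf (nat_lit 244028) (.g (nat_lit 2437) (.e (nat_lit 123182) (nat_lit 264) (.e (nat_lit 1201) (nat_lit 88) (.e (nat_lit 65629) (nat_lit 14) (.e (nat_lit 401459) (nat_lit 13) (.e (nat_lit 483344) (nat_lit 17) .nil))))) .nil)))))) (.nd (nat_lit 2) (.nd (nat_lit 3) (.nd (nat_lit 4) (.nd (nat_lit 5) 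
(.lf (nat_lit 243970) (.g (nat_lit 5795) (.e (nat_lit 123182) (nat_lit 264) (.e (nat_lit 1183) (nat_lit 87) (.e (nat_lit 57480) (nat_lit 28) (.e (nat_lit 557109) (nat_lit 15) (.e (nat_lit 188452) (nat_lit 23) (.e (nat_lit 204858) (nat_lit 26) (.e (nat_lit 336031) (nat_lit 4) .nil))))))) (.g (nat_lit 5) .nil .nil))) 
(.lf (nat_lit 244002) (.g (nat_lit 606) (.e (nat_lit 123182) (nat_lit 264) (.e (nat_lit 1201) (nat_lit 88) (.e (nat_lit 65611) (nat_lit 10) .nil))) .nil))) (.nd (nat_lit 5) 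
(.lf (nat_lit 243986) (.g (nat_lit 1921) (.e (nat_lit 123182) (nat_lit 264) (.e (nat_lit 1193) (nat_lit 88) (.e (nat_lit 65628) (nat_lit 14) (.e (nat_lit 401458) (nat_lit 13) (.e (nat_lit 483386) (nat_lit 23) .nil))))) .nil)) 
(.lf (nat_lit 244018) (.g (nat_lit 2868) (.e (nat_lit 123182) (nat_lit 264) (.e (nat_lit 1201) (nat_lit 88) (.e (nat_lit 65628) (nat_lit 14) (.e (nat_lit 401458) (nat_lit 13) (.e (nat_lit 483387) (nat_lit 23) (.e (nat_lit 336032) (nat_lit 4) .nil)))))) (.g (nat_lit 4) .nil .nil))))) (.nd (nat_lit 4) (.nd (nat_lit 5) 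
(.lf (nat_lit 243978) (.g (nat_lit 1517) (.e (nat_lit 123182) (nat_lit 264) (.e (nat_lit 1191) (nat_lit 88) (.e (nat_lit 65619) (nat_lit 10) (.e (nat_lit 344097) (nat_lit 18) (.e (nat_lit 5906) (nat_lit 320) .nil))))) .nil)) 
(.lf (nat_lit 244010) (.g (nat_lit 3403) (.e (nat_lit 123182) (nat_lit 264) (.e (nat_lit 1201) (nat_lit 88) (.e (nat_lit 65624) (nat_lit 12) (.e (nat_lit 385094) (nat_lit 49) (.e (nat_lit 778326) (nat_lit 6) (.e (nat_lit 81958) (nat_lit 24) .nil)))))) (.g (nat_lit 5) .nil .nil)))) (.nd (nat_lit 5) 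
(.lf (nat_lit 243994) (.g (nat_lit 2460) (.e (nat_lit 123182) (nat_lit 264) (.e (nat_lit 1201) (nat_lit 88) (.e (nat_lit 65610) (nat_lit 10) (.e (nat_lit 344097) (nat_lit 18) (.e (nat_lit 5907) (nat_lit 320) (.e (nat_lit 993) (nat_lit 81) (.e (nat_lit 1567) (nat_lit 110) (.e (nat_lit 352318) (nat_lit 24) .nil)))))))) (.g (nat_lit 4) .nil .nil))) 
(.lf (nat_lit 244026) (.g (nat_lit 2482) (.e (nat_lit 123182) (nat_lit 264) (.e (nat_lit 1201) (nat_lit 88) (.e (nat_lit 65628) (nat_lit 14) (.e (nat_lit 401459) (nat_lit 13) (.e (nat_lit 483393) (nat_lit 23) .nil))))) .nil))))) (.nd (nat_lit 3) (.nd (nat_lit 4) (.nd (nat_lit 5) 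
(.lf (nat_lit 243974) (.g (nat_lit 4750) (.e (nat_lit 123182) (nat_lit 264) (.e (nat_lit 1183) (nat_lit 87) (.e (nat_lit 57520) (nat_lit 44) (.e (nat_lit 688177) (nat_lit 16) (.e (nat_lit 65586) (nat_lit 7) (.e (nat_lit 319531) (nat_lit 16) (.e (nat_lit 286742) (nat_lit 9) (.e (nat_lit 336032) (nat_lit 4) .nil)))))))) (.g (nat_lit 6) .nil .nil))) 
(.lf (nat_lit 244006) (.g (nat_lit 2728) (.e (nat_lit 123182) (nat_lit 264) (.e (nat_lit 1201) (nat_lit 88) (.e (nat_lit 65622) (nat_lit 12) (.e (nat_lit 385093) (nat_lit 49) (.e (nat_lit 778326) (nat_lit 6) (.e (nat_lit 81958) (nat_lit 24) .nil)))))) (.g (nat_lit 4) .nil .nil)))) (.nd (nat_lit 5) 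
(.lf (nat_lit 243990) (.g (nat_lit 587) (.e (nat_lit 123182) (nat_lit 264) (.e (nat_lit 1201) (nat_lit 88) (.e (nat_lit 65610) (nat_lit 10) .nil))) .nil)) 
(.lf (nat_lit 244022) (.g (nat_lit 3574) (.e (nat_lit 123182) (nat_lit 264) (.e (nat_lit 1201) (nat_lit 88) (.e (nat_lit 65628) (nat_lit 14) (.e (nat_lit 401459) (nat_lit 13) (.e (nat_lit 483380) (nat_lit 23) (.e (nat_lit 336036) (nat_lit 4) .nil)))))) (.g (nat_lit 4) .nil .nil))))) (.nd (nat_lit 4) (.nd (nat_lit 5) 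
(.lf (nat_lit 243982) (.g (nat_lit 2806) (.e (nat_lit 123182) (nat_lit 264) (.e (nat_lit 1191) (nat_lit 88) (.e (nat_lit 65630) (nat_lit 14) (.e (nat_lit 401459) (nat_lit 13) (.e (nat_lit 483387) (nat_lit 23) (.e (nat_lit 336032) (nat_lit 4) .nil)))))) (.g (nat_lit 4) .nil .nil))) 
(.lf (nat_lit 244014) (.g (nat_lit 3635) (.e (nat_lit 123182) (nat_lit 264) (.e (nat_lit 1201) (nat_lit 88) (.e (nat_lit 65628) (nat_lit 14) (.e (nat_lit 401437) (nat_lit 9) (.e (nat_lit 426555) (nat_lit 32) (.e (nat_lit 376870) (nat_lit 24) .nil)))))) (.g (nat_lit 5) .nil .nil)))) (.nd (nat_lit 5) 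
(.lf (nat_lit 243998) (.g (nat_lit 1603) (.e (nat_lit 123182) (nat_lit 264) (.e (nat_lit 1201) (nat_lit 88) (.e (nat_lit 65610) (nat_lit 10) (.e (nat_lit 344168) (nat_lit 40) .nil)))) .nil)) 
(.lf (nat_lit 244030) (.g (nat_lit 3513) (.e (nat_lit 123182) (nat_lit 264) (.e (nat_lit 1201) (nat_lit 88) (.e (nat_lit 65629) (nat_lit 14) (.e (nat_lit 401459) (nat_lit 13) (.e (nat_lit 483378) (nat_lit 23) (.e (nat_lit 336032) (nat_lit 4) .nil)))))) (.g (nat_lit 4) .nil .nil)))))))) (.nd (nat_lit 1) (.nd (nat_lit 2) (.nd (nat_lit 3) (.nd (nat_lit 4) (.nd (nat_lit 5) 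
(.lf (nat_lit 243969) (.g (nat_lit 5323) (.e (nat_lit 123182) (nat_lit 264) (.e (nat_lit 1183) (nat_lit 87) (.e (nat_lit 57480) (nat_lit 28) (.e (nat_lit 557109) (nat_lit 15) (.e (nat_lit 188452) (nat_lit 23) (.e (nat_lit 204857) (nat_lit 26) (.e (nat_lit 336032) (nat_lit 4) .nil))))))) (.g (nat_lit 5) .nil .nil))) 
(.lf (nat_lit 244001) (.g (nat_lit 2840) (.e (nat_lit 123182) (nat_lit 264) (.e (nat_lit 1201) (nat_lit 88) (.e (nat_lit 65610) (nat_lit 10) (.e (nat_lit 344169) (nat_lit 40) (.e (nat_lit 671764) (nat_lit 6) (.e (nat_lit 81958) (nat_lit 24) .nil)))))) (.g (nat_lit 4) .nil .nil)))) (.nd (nat_lit 5) 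
(.lf (nat_lit 243985) (.g (nat_lit 2530) (.e (nat_lit 123182) (nat_lit 264) (.e (nat_lit 1193) (nat_lit 88) (.e (nat_lit 65628) (nat_lit 14) (.e (nat_lit 401454) (nat_lit 12) (.e (nat_lit 483072) (nat_lit 12) (.e (nat_lit 65574) (nat_lit 4) .nil)))))) (.g (nat_lit 4) .nil .nil))) 
(.lf (nat_lit 244017) (.g (nat_lit 2637) (.e (nat_lit 123182) (nat_lit 264) (.e (nat_lit 1201) (nat_lit 88) (.e (nat_lit 65628) (nat_lit 14) (.e (nat_lit 401458) (nat_lit 13) (.e (nat_lit 483378) (nat_lit 23) (.e (nat_lit 336032) (nat_lit 4) .nil)))))) (.g (nat_lit 4) .nil .nil))))) (.nd (nat_lit 4) (.nd (nat_lit 5) 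
(.lf (nat_lit 243977) (.g (nat_lit 514) (.e (nat_lit 123182) (nat_lit 264) (.e (nat_lit 1191) (nat_lit 88) (.e (nat_lit 65610) (nat_lit 10) (.e (nat_lit 344169) (nat_lit 40) .nil)))) .nil)) 
(.lf (nat_lit 244009) (.g (nat_lit 2783) (.e (nat_lit 123182) (nat_lit 264) (.e (nat_lit 1201) (nat_lit 88) (.e (nat_lit 65624) (nat_lit 12) (.e (nat_lit 385093) (nat_lit 49) (.e (nat_lit 778327) (nat_lit 6) (.e (nat_lit 81958) (nat_lit 24) .nil)))))) (.g (nat_lit 4) .nil .nil)))) (.nd (nat_lit 5) 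
(.lf (nat_lit 243993) (.g (nat_lit 2884) (.e (nat_lit 123182) (nat_lit 264) (.e (nat_lit 1201) (nat_lit 88) (.e (nat_lit 65610) (nat_lit 10) (.e (nat_lit 344097) (nat_lit 18) (.e (nat_lit 5905) (nat_lit 320) (.e (nat_lit 1221) (nat_lit 90) (.e (nat_lit 81958) (nat_lit 24) .nil))))))) (.g (nat_lit 4) .nil .nil))) 
(.lf (nat_lit 244025) (.g (nat_lit 3352) (.e (nat_lit 123182) (nat_lit 264) (.e (nat_lit 1201) (nat_lit 88) (.e (nat_lit 65628) (nat_lit 14) (.e (nat_lit 401459) (nat_lit 13) (.e (nat_lit 483389) (nat_lit 23) (.e (nat_lit 336032) (nat_lit 4) .nil)))))) (.g (nat_lit 4) .nil .nil)))))) (.nd (nat_lit 3) (.nd (nat_lit 4) (.nd (nat_lit 5) 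
(.lf (nat_lit 243973) (.g (nat_lit 3392) (.e (nat_lit 123182) (nat_lit 264) (.e (nat_lit 1183) (nat_lit 87) (.e (nat_lit 57520) (nat_lit 44) (.e (nat_lit 688177) (nat_lit 16) (.e (nat_lit 65583) (nat_lit 7) (.e (nat_lit 319530) (nat_lit 16) (.e (nat_lit 286748) (nat_lit 9) (.e (nat_lit 336034) (nat_lit 4) .nil)))))))) (.g (nat_lit 5) .nil .nil))) 
(.lf (nat_lit 244005) (.g (nat_lit 3704) (.e (nat_lit 123182) (nat_lit 264) (.e (nat_lit 1201) (nat_lit 88) (.e (nat_lit 65617) (nat_lit 10) (.e (nat_lit 344169) (nat_lit 40) (.e (nat_lit 671762) (nat_lit 4) (.e (nat_lit 65598) (nat_lit 9) (.e (nat_lit 336032) (nat_lit 4) .nil))))))) (.g (nat_lit 5) .nil .nil)))) (.nd (nat_lit 5) 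
(.lf (nat_lit 243989) (.g (nat_lit 606) (.e (nat_lit 123182) (nat_lit 264) (.e (nat_lit 1201) (nat_lit 88) (.e (nat_lit 65592) (nat_lit 9) .nil))) .nil)) 
(.lf (nat_lit 244021) (.g (nat_lit 3051) (.e (nat_lit 123182) (nat_lit 264) (.e (nat_lit 1201) (nat_lit 88) (.e (nat_lit 65628) (nat_lit 14) (.e (nat_lit 401459) (nat_lit 13) (.e (nat_lit 483378) (nat_lit 23) (.e (nat_lit 336032) (nat_lit 4) .nil)))))) (.g (nat_lit 4) .nil .nil))))) (.nd (nat_lit 4) (.nd (nat_lit 5) 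
(.lf (nat_lit 243981) (.g (nat_lit 2844) (.e (nat_lit 123182) (nat_lit 264) (.e (nat_lit 1191) (nat_lit 88) (.e (nat_lit 65630) (nat_lit 14) (.e (nat_lit 401459) (nat_lit 13) (.e (nat_lit 483344) (nat_lit 17) (.e (nat_lit 6437) (nat_lit 343) (.e (nat_lit 1286) (nat_lit 95) .nil))))))) (.g (nat_lit 5) .nil .nil))) 
(.lf (nat_lit 244013) (.g (nat_lit 2459) (.e (nat_lit 123182) (nat_lit 264) (.e (nat_lit 1201) (nat_lit 88) (.e (nat_lit 65628) (nat_lit 14) (.e (nat_lit 401437) (nat_lit 9) (.e (nat_lit 426553) (nat_lit 32) (.e (nat_lit 376870) (nat_lit 24) .nil)))))) (.g (nat_lit 4) .nil .nil)))) (.nd (nat_lit 5) 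
(.lf (nat_lit 243997) (.g (nat_lit 2080) (.e (nat_lit 123182) (nat_lit 264) (.e (nat_lit 1201) (nat_lit 88) (.e (nat_lit 65610) (nat_lit 10) (.e (nat_lit 344103) (nat_lit 18) .nil)))) .nil)) 
(.lf (nat_lit 244029) (.g (nat_lit 3831) (.e (nat_lit 123182) (nat_lit 264) (.e (nat_lit 1201) (nat_lit 88) (.e (nat_lit 65629) (nat_lit 14) (.e (nat_lit 401459) (nat_lit 13) (.e (nat_lit 483344) (nat_lit 17) (.e (nat_lit 6434) (nat_lit 343) (.e (nat_lit 1288) (nat_lit 95) .nil))))))) (.g (nat_lit 4) .nil .nil))))))) (.nd (nat_lit 2) (.nd (nat_lit 3) (.nd (nat_lit 4) (.nd (nat_lit 5) 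
(.lf (nat_lit 243971) (.g (nat_lit 3965) (.e (nat_lit 123182) (nat_lit 264) (.e (nat_lit 1183) (nat_lit 87) (.e (nat_lit 57480) (nat_lit 28) (.e (nat_lit 557109) (nat_lit 15) (.e (nat_lit 188458) (nat_lit 25) (.e (nat_lit 245784) (nat_lit 9) (.e (nat_lit 1457) (nat_lit 108) (.e (nat_lit 336032) (nat_lit 4) .nil)))))))) (.g (nat_lit 4) .nil .nil))) 
(.lf (nat_lit 244003) (.g (nat_lit 606) (.e (nat_lit 123182) (nat_lit 264) (.e (nat_lit 1201) (nat_lit 88) (.e (nat_lit 65616) (nat_lit 10) .nil))) .nil))) (.nd (nat_lit 5) 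
(.lf (nat_lit 243987) (.g (nat_lit 2958) (.e (nat_lit 123182) (nat_lit 264) (.e (nat_lit 1193) (nat_lit 88) (.e (nat_lit 65628) (nat_lit 14) (.e (nat_lit 401459) (nat_lit 13) (.e (nat_lit 483387) (nat_lit 23) (.e (nat_lit 336032) (nat_lit 4) .nil)))))) (.g (nat_lit 4) .nil .nil))) 
(.lf (nat_lit 244019) (.g (nat_lit 2520) (.e (nat_lit 123182) (nat_lit 264) (.e (nat_lit 1201) (nat_lit 88) (.e (nat_lit 65628) (nat_lit 14) (.e (nat_lit 401458) (nat_lit 13) (.e (nat_lit 483389) (nat_lit 23) (.e (nat_lit 336032) (nat_lit 4) .nil)))))) (.g (nat_lit 4) .nil .nil))))) (.nd (nat_lit 4) (.nd (nat_lit 5) 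
(.lf (nat_lit 243979) (.g (nat_lit 1380) (.e (nat_lit 123182) (nat_lit 264) (.e (nat_lit 1191) (nat_lit 88) (.e (nat_lit 65630) (nat_lit 14) (.e (nat_lit 401436) (nat_lit 9) (.e (nat_lit 426543) (nat_lit 29) .nil))))) .nil)) 
(.lf (nat_lit 244011) (.g (nat_lit 3107) (.e (nat_lit 123182) (nat_lit 264) (.e (nat_lit 1201) (nat_lit 88) (.e (nat_lit 65624) (nat_lit 12) (.e (nat_lit 385094) (nat_lit 49) (.e (nat_lit 778327) (nat_lit 6) (.e (nat_lit 81958) (nat_lit 24) .nil)))))) (.g (nat_lit 4) .nil .nil)))) (.nd (nat_lit 5) 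
(.lf (nat_lit 243995) (.g (nat_lit 4059) (.e (nat_lit 123182) (nat_lit 264) (.e (nat_lit 1201) (nat_lit 88) (.e (nat_lit 65610) (nat_lit 10) (.e (nat_lit 344097) (nat_lit 18) (.e (nat_lit 5907) (nat_lit 320) (.e (nat_lit 1219) (nat_lit 90) (.e (nat_lit 81958) (nat_lit 24) .nil))))))) (.g (nat_lit 6) .nil .nil))) 
(.lf (nat_lit 244027) (.g (nat_lit 1117) (.e (nat_lit 123182) (nat_lit 264) (.e (nat_lit 1201) (nat_lit 88) (.e (nat_lit 65629) (nat_lit 14) (.e (nat_lit 401459) (nat_lit 13) .nil)))) .nil))))) (.nd (nat_lit 3) (.nd (nat_lit 4) (.nd (nat_lit 5) 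
(.lf (nat_lit 243975) (.g (nat_lit 3067) (.e (nat_lit 123182) (nat_lit 264) (.e (nat_lit 1183) (nat_lit 87) (.e (nat_lit 57520) (nat_lit 44) (.e (nat_lit 688177) (nat_lit 16) (.e (nat_lit 65586) (nat_lit 7) (.e (nat_lit 319531) (nat_lit 16) (.e (nat_lit 286748) (nat_lit 9) (.e (nat_lit 336030) (nat_lit 4) .nil)))))))) (.g (nat_lit 4) .nil .nil))) 
(.lf (nat_lit 244007) (.g (nat_lit 1539) (.e (nat_lit 123182) (nat_lit 264) (.e (nat_lit 1201) (nat_lit 88) (.e (nat_lit 65622) (nat_lit 12) (.e (nat_lit 385093) (nat_lit 49) (.e (nat_lit 786176) (nat_lit 6) .nil))))) .nil))) (.nd (nat_lit 5) 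
(.lf (nat_lit 243991) (.g (nat_lit 1287) (.e (nat_lit 123182) (nat_lit 264) (.e (nat_lit 1201) (nat_lit 88) (.e (nat_lit 65610) (nat_lit 10) (.e (nat_lit 344097) (nat_lit 18) .nil)))) .nil)) 
(.lf (nat_lit 244023) (.g (nat_lit 3765) (.e (nat_lit 123182) (nat_lit 264) (.e (nat_lit 1201) (nat_lit 88) (.e (nat_lit 65628) (nat_lit 14) (.e (nat_lit 401459) (nat_lit 13) (.e (nat_lit 483387) (nat_lit 23) (.e (nat_lit 336032) (nat_lit 4) .nil)))))) (.g (nat_lit 4) .nil .nil))))) (.nd (nat_lit 4) (.nd (nat_lit 5) 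
(.lf (nat_lit 243983) (.g (nat_lit 3529) (.e (nat_lit 123182) (nat_lit 264) (.e (nat_lit 1193) (nat_lit 88) (.e (nat_lit 65619) (nat_lit 10) (.e (nat_lit 344097) (nat_lit 18) (.e (nat_lit 5906) (nat_lit 320) (.e (nat_lit 1221) (nat_lit 90) (.e (nat_lit 81959) (nat_lit 24) .nil))))))) (.g (nat_lit 7) .nil .nil))) 
(.lf (nat_lit 244015) (.g (nat_lit 2772) (.e (nat_lit 123182) (nat_lit 264) (.e (nat_lit 1201) (nat_lit 88) (.e (nat_lit 65628) (nat_lit 14) (.e (nat_lit 401438) (nat_lit 9) (.e (nat_lit 426538) (nat_lit 29) (.e (nat_lit 352318) (nat_lit 24) .nil)))))) (.g (nat_lit 4) .nil .nil)))) (.nd (nat_lit 5) 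
(.lf (nat_lit 243999) (.g (nat_lit 3264) (.e (nat_lit 123182) (nat_lit 264) (.e (nat_lit 1201) (nat_lit 88) (.e (nat_lit 65610) (nat_lit 10) (.e (nat_lit 344168) (nat_lit 40) (.e (nat_lit 671762) (nat_lit 4) (.e (nat_lit 65598) (nat_lit 9) (.e (nat_lit 336032) (nat_lit 4) .nil))))))) (.g (nat_lit 4) .nil .nil))) 
(.lf (nat_lit 244031) (.g (nat_lit 3405) (.e (nat_lit 123182) (nat_lit 264) (.e (nat_lit 1201) (nat_lit 88) (.e (nat_lit 65629) (nat_lit 14) (.e (nat_lit 401459) (nat_lit 13) (.e (nat_lit 483388) (nat_lit 23) .nil))))) .nil))))))))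

noncomputable def tv3178 : DT := (.nd (nat_lit 0) (.nd (nat_lit 1) (.nd (nat_lit 2) (.nd (nat_lit 3) (.nd (nat_lit 4) (.nd (nat_lit 5) 
(.lf (nat_lit 244032) (.g (nat_lit 382) (.e (nat_lit 123182) (nat_lit 264) (.e (nat_lit 1201) (nat_lit 88) (.e (nat_lit 65630) (nat_lit 14) .nil))) .nil)) 
(.lf (nat_lit 244064) (.g (nat_lit 405) (.e (nat_lit 123182) (nat_lit 264) (.e (nat_lit 1214) (nat_lit 89) (.e (nat_lit 73781) (nat_lit 32) .nil))) .nil))) (.nd (nat_lit 5) 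
(.lf (nat_lit 244048) (.g (nat_lit 2757) (.e (nat_lit 123182) (nat_lit 264) (.e (nat_lit 1201) (nat_lit 88) (.e (nat_lit 65630) (nat_lit 14) (.e (nat_lit 401459) (nat_lit 13) (.e (nat_lit 483380) (nat_lit 23) .nil))))) .nil)) 
(.lf (nat_lit 244080) (.g (nat_lit 1046) (.e (nat_lit 123182) (nat_lit 264) (.e (nat_lit 1222) (nat_lit 90) (.e (nat_lit 81943) (nat_lit 20) (.e (nat_lit 1023) (nat_lit 81) .nil)))) .nil)))) (.nd (nat_lit 4) (.nd (nat_lit 5) 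
(.lf (nat_lit 244040) (.g (nat_lit 1014) (.e (nat_lit 123182) (nat_lit 264) (.e (nat_lit 1201) (nat_lit 88) (.e (nat_lit 65630) (nat_lit 14) (.e (nat_lit 401458) (nat_lit 13) .nil)))) .nil)) 
(.lf (nat_lit 244072) (.g (nat_lit 569) (.e (nat_lit 123182) (nat_lit 264) (.e (nat_lit 1222) (nat_lit 90) (.e (nat_lit 81920) (nat_lit 0) .nil))) .nil))) (.nd (nat_lit 5) 
(.lf (nat_lit 244056) (.g (nat_lit 3883) (.e (nat_lit 123182) (nat_lit 264) (.e (nat_lit 1201) (nat_lit 88) (.e (nat_lit 65630) (nat_lit 14) (.e (nat_lit 401459) (nat_lit 13) (.e (nat_lit 483393) (nat_lit 23) (.e (nat_lit 336033) (nat_lit 4) .nil)))))) (.g (nat_lit 4) .nil .nil))) 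
(.lf (nat_lit 244088) (.g (nat_lit 3072) (.e (nat_lit 123182) (nat_lit 264) (.e (nat_lit 1222) (nat_lit 90) (.e (nat_lit 81959) (nat_lit 24) (.e (nat_lit 123182) (nat_lit 264) (.e (nat_lit 7936) (nat_lit 90) (.e (nat_lit 81957) (nat_lit 24) .nil)))))) (.g (nat_lit 4) .nil .nil)))))) (.nd (nat_lit 3) (.nd (nat_lit 4) (.nd (nat_lit 5) 
(.lf (nat_lit 244036) (.g (nat_lit 2108) (.e (nat_lit 123182) (nat_lit 264) (.e (nat_lit 1201) (nat_lit 88) (.e (nat_lit 65630) (nat_lit 14) (.e (nat_lit 401438) (nat_lit 9) (.e (nat_lit 426553) (nat_lit 32) .nil))))) .nil)) 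
(.lf (nat_lit 244068) (.g (nat_lit 2161) (.e (nat_lit 123182) (nat_lit 264) (.e (nat_lit 1214) (nat_lit 89) (.e (nat_lit 73781) (nat_lit 32) (.e (nat_lit 2857) (nat_lit 184) (.e (nat_lit 426538) (nat_lit 29) (.e (nat_lit 352318) (nat_lit 24) .nil)))))) (.g (nat_lit 4) .nil .nil)))) (.nd (nat_lit 5) 
(.lf (nat_lit 244052) (.g (nat_lit 3981) (.e (nat_lit 123182) (nat_lit 264) (.e (nat_lit 1201) (nat_lit 88) (.e (nat_lit 65630) (nat_lit 14) (.e (nat_lit 401459) (nat_lit 13) (.e (nat_lit 483388) (nat_lit 23) (.e (nat_lit 336032) (nat_lit 4) .nil)))))) (.g (nat_lit 4) .nil .nil))) 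
(.lf (nat_lit 244084) (.g (nat_lit 2571) (.e (nat_lit 123182) (nat_lit 264) (.e (nat_lit 1222) (nat_lit 90) (.e (nat_lit 81957) (nat_lit 24) (.e (nat_lit 123195) (nat_lit 266) (.e (nat_lit 57425) (nat_lit 14) (.e (nat_lit 352318) (nat_lit 24) .nil)))))) (.g (nat_lit 4) .nil .nil))))) (.nd (nat_lit 4) (.nd (nat_lit 5) 
(.lf (nat_lit 244044) (.g (nat_lit 2858) (.e (nat_lit 123182) (nat_lit 264) (.e (nat_lit 1201) (nat_lit 88) (.e (nat_lit 65630) (nat_lit 14) (.e (nat_lit 401459) (nat_lit 13) (.e (nat_lit 483343) (nat_lit 17) .nil))))) .nil)) 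
(.lf (nat_lit 244076) (.g (nat_lit 564) (.e (nat_lit 123182) (nat_lit 264) (.e (nat_lit 1222) (nat_lit 90) (.e (nat_lit 81933) (nat_lit 20) .nil))) .nil))) (.nd (nat_lit 5) 
(.lf (nat_lit 244060) (.g (nat_lit 1803) (.e (nat_lit 123182) (nat_lit 264) (.e (nat_lit 1212) (nat_lit 89) (.e (nat_lit 73782) (nat_lit 32) (.e (nat_lit 3090) (nat_lit 191) (.e (nat_lit 483387) (nat_lit 23) (.e (nat_lit 336032) (nat_lit 4) .nil)))))) (.g (nat_lit 4) .nil .nil))) 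
(.lf (nat_lit 244092) (.g (nat_lit 3511) (.e (nat_lit 123182) (nat_lit 264) (.e (nat_lit 1224) (nat_lit 90) (.e (nat_lit 81947) (nat_lit 20) (.e (nat_lit 1023) (nat_lit 81) (.e (nat_lit 5906) (nat_lit 320) (.e (nat_lit 1221) (nat_lit 90) (.e (nat_lit 81959) (nat_lit 24) .nil))))))) (.g (nat_lit 7) .nil .nil))))))) (.nd (nat_lit 2) (.nd (nat_lit 3) (.nd (nat_lit 4) (.nd (nat_lit 5) 
(.lf (nat_lit 244034) (.g (nat_lit 3864) (.e (nat_lit 123182) (nat_lit 264) (.e (nat_lit 1201) (nat_lit 88) (.e (nat_lit 65630) (nat_lit 14) (.e (nat_lit 401437) (nat_lit 9) (.e (nat_lit 426555) (nat_lit 32) (.e (nat_lit 376870) (nat_lit 24) .nil)))))) (.g (nat_lit 5) .nil .nil))) 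
(.lf (nat_lit 244066) (.g (nat_lit 2058) (.e (nat_lit 123182) (nat_lit 264) (.e (nat_lit 1214) (nat_lit 89) (.e (nat_lit 73781) (nat_lit 32) (.e (nat_lit 2856) (nat_lit 184) (.e (nat_lit 426553) (nat_lit 32) .nil))))) .nil))) (.nd (nat_lit 5) 
(.lf (nat_lit 244050) (.g (nat_lit 2977) (.e (nat_lit 123182) (nat_lit 264) (.e (nat_lit 1201) (nat_lit 88) (.e (nat_lit 65630) (nat_lit 14) (.e (nat_lit 401459) (nat_lit 13) (.e (nat_lit 483381) (nat_lit 23) .nil))))) .nil)) 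
(.lf (nat_lit 244082) (.g (nat_lit 2792) (.e (nat_lit 123182) (nat_lit 264) (.e (nat_lit 1222) (nat_lit 90) (.e (nat_lit 81948) (nat_lit 21) (.e (nat_lit 57872) (nat_lit 264) (.e (nat_lit 1221) (nat_lit 90) (.e (nat_lit 81958) (nat_lit 24) .nil)))))) (.g (nat_lit 5) .nil .nil))))) (.nd (nat_lit 4) (.nd (nat_lit 5) 
(.lf (nat_lit 244042) (.g (nat_lit 2846) (.e (nat_lit 123182) (nat_lit 264) (.e (nat_lit 1201) (nat_lit 88) (.e (nat_lit 65630) (nat_lit 14) (.e (nat_lit 401458) (nat_lit 13) (.e (nat_lit 483386) (nat_lit 23) (.e (nat_lit 336030) (nat_lit 4) .nil)))))) (.g (nat_lit 4) .nil .nil))) 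
(.lf (nat_lit 244074) (.g (nat_lit 3724) (.e (nat_lit 123182) (nat_lit 264) (.e (nat_lit 1222) (nat_lit 90) (.e (nat_lit 81924) (nat_lit 0) (.e (nat_lit 3632) (nat_lit 227) (.e (nat_lit 778326) (nat_lit 6) (.e (nat_lit 81957) (nat_lit 24) .nil)))))) (.g (nat_lit 0) .nil .nil)))) (.nd (nat_lit 5) 
(.lf (nat_lit 244058) (.g (nat_lit 2976) (.e (nat_lit 123182) (nat_lit 264) (.e (nat_lit 1212) (nat_lit 89) (.e (nat_lit 73782) (nat_lit 32) (.e (nat_lit 2856) (nat_lit 184) (.e (nat_lit 426555) (nat_lit 32) (.e (nat_lit 376870) (nat_lit 24) .nil)))))) (.g (nat_lit 5) .nil .nil))) 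
(.lf (nat_lit 244090) (.g (nat_lit 3492) (.e (nat_lit 123182) (nat_lit 264) (.e (nat_lit 1222) (nat_lit 90) (.e (nat_lit 81959) (nat_lit 24) (.e (nat_lit 123184) (nat_lit 264) (.e (nat_lit 1222) (nat_lit 90) (.e (nat_lit 81957) (nat_lit 24) .nil)))))) (.g (nat_lit 5) .nil .nil)))))) (.nd (nat_lit 3) (.nd (nat_lit 4) (.nd (nat_lit 5) 
(.lf (nat_lit 244038) (.g (nat_lit 3954) (.e (nat_lit 123182) (nat_lit 264) (.e (nat_lit 1201) (nat_lit 88) (.e (nat_lit 65630) (nat_lit 14) (.e (nat_lit 401454) (nat_lit 12) (.e (nat_lit 483072) (nat_lit 12) (.e (nat_lit 65574) (nat_lit 4) .nil)))))) (.g (nat_lit 4) .nil .nil))) 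
(.lf (nat_lit 244070) (.g (nat_lit 2409) (.e (nat_lit 123182) (nat_lit 264) (.e (nat_lit 1214) (nat_lit 89) (.e (nat_lit 73781) (nat_lit 32) (.e (nat_lit 3090) (nat_lit 191) (.e (nat_lit 483387) (nat_lit 23) (.e (nat_lit 336032) (nat_lit 4) .nil)))))) (.g (nat_lit 4) .nil .nil)))) (.nd (nat_lit 5) 
(.lf (nat_lit 244054) (.g (nat_lit 3830) (.e (nat_lit 123182) (nat_lit 264) (.e (nat_lit 1201) (nat_lit 88) (.e (nat_lit 65630) (nat_lit 14) (.e (nat_lit 401459) (nat_lit 13) (.e (nat_lit 483389) (nat_lit 23) (.e (nat_lit 336032) (nat_lit 4) .nil)))))) (.g (nat_lit 4) .nil .nil))) 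
(.lf (nat_lit 244086) (.g (nat_lit 524) (.e (nat_lit 123182) (nat_lit 264) (.e (nat_lit 1222) (nat_lit 90) (.e (nat_lit 81959) (nat_lit 24) .nil))) .nil)))) (.nd (nat_lit 4) (.nd (nat_lit 5) 
(.lf (nat_lit 244046) (.g (nat_lit 4392) (.e (nat_lit 123182) (nat_lit 264) (.e (nat_lit 1201) (nat_lit 88) (.e (nat_lit 65630) (nat_lit 14) (.e (nat_lit 401459) (nat_lit 13) (.e (nat_lit 483344) (nat_lit 17) (.e (nat_lit 6440) (nat_lit 343) (.e (nat_lit 1288) (nat_lit 95) .nil))))))) (.g (nat_lit 5) .nil .nil))) 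
(.lf (nat_lit 244078) (.g (nat_lit 569) (.e (nat_lit 123182) (nat_lit 264) (.e (nat_lit 1222) (nat_lit 90) (.e (nat_lit 81937) (nat_lit 20) .nil))) .nil))) (.nd (nat_lit 5) 
(.lf (nat_lit 244062) (.g (nat_lit 1698) (.e (nat_lit 123182) (nat_lit 264) (.e (nat_lit 1212) (nat_lit 89) (.e (nat_lit 73794) (nat_lit 46) (.e (nat_lit 57864) (nat_lit 256) (.e (nat_lit 317) (nat_lit 23) (.e (nat_lit 352316) (nat_lit 24) .nil)))))) (.g (nat_lit 0) .nil .nil))) 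
(.lf (nat_lit 244094) (.g (nat_lit 3361) (.e (nat_lit 123182) (nat_lit 264) (.e (nat_lit 1224) (nat_lit 90) (.e (nat_lit 81949) (nat_lit 21) (.e (nat_lit 57870) (nat_lit 264) (.e (nat_lit 1221) (nat_lit 90) (.e (nat_lit 81959) (nat_lit 24) .nil)))))) (.g (nat_lit 6) .nil .nil)))))))) (.nd (nat_lit 1) (.nd (nat_lit 2) (.nd (nat_lit 3) (.nd (nat_lit 4) (.nd (nat_lit 5) 
(.lf (nat_lit 244033) (.g (nat_lit 4103) (.e (nat_lit 123182) (nat_lit 264) (.e (nat_lit 1201) (nat_lit 88) (.e (nat_lit 65630) (nat_lit 14) (.e (nat_lit 401437) (nat_lit 9) (.e (nat_lit 426542) (nat_lit 29) (.e (nat_lit 352317) (nat_lit 24) .nil)))))) (.g (nat_lit 5) .nil .nil))) 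
(.lf (nat_lit 244065) (.g (nat_lit 3571) (.e (nat_lit 123182) (nat_lit 264) (.e (nat_lit 1214) (nat_lit 89) (.e (nat_lit 73781) (nat_lit 32) (.e (nat_lit 2856) (nat_lit 184) (.e (nat_lit 426542) (nat_lit 29) (.e (nat_lit 352317) (nat_lit 24) .nil)))))) (.g (nat_lit 5) .nil .nil)))) (.nd (nat_lit 5) 
(.lf (nat_lit 244049) (.g (nat_lit 4065) (.e (nat_lit 123182) (nat_lit 264) (.e (nat_lit 1201) (nat_lit 88) (.e (nat_lit 65630) (nat_lit 14) (.e (nat_lit 401459) (nat_lit 13) (.e (nat_lit 483380) (nat_lit 23) (.e (nat_lit 336036) (nat_lit 4) .nil)))))) (.g (nat_lit 4) .nil .nil))) 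
(.lf (nat_lit 244081) (.g (nat_lit 2102) (.e (nat_lit 123182) (nat_lit 264) (.e (nat_lit 1222) (nat_lit 90) (.e (nat_lit 81943) (nat_lit 20) (.e (nat_lit 2005) (nat_lit 138) (.e (nat_lit 671762) (nat_lit 4) (.e (nat_lit 65598) (nat_lit 9) (.e (nat_lit 336032) (nat_lit 4) .nil))))))) (.g (nat_lit 4) .nil .nil))))) (.nd (nat_lit 4) (.nd (nat_lit 5) 
(.lf (nat_lit 244041) (.g (nat_lit 2933) (.e (nat_lit 123182) (nat_lit 264) (.e (nat_lit 1201) (nat_lit 88) (.e (nat_lit 65630) (nat_lit 14) (.e (nat_lit 401458) (nat_lit 13) (.e (nat_lit 483378) (nat_lit 23) (.e (nat_lit 336032) (nat_lit 4) .nil)))))) (.g (nat_lit 4) .nil .nil))) 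
(.lf (nat_lit 244073) (.g (nat_lit 3589) (.e (nat_lit 123182) (nat_lit 264) (.e (nat_lit 1222) (nat_lit 90) (.e (nat_lit 81924) (nat_lit 0) (.e (nat_lit 3631) (nat_lit 227) (.e (nat_lit 778326) (nat_lit 6) (.e (nat_lit 81957) (nat_lit 24) .nil)))))) (.g (nat_lit 0) .nil .nil)))) (.nd (nat_lit 5) 
(.lf (nat_lit 244057) (.g (nat_lit 1981) (.e (nat_lit 123182) (nat_lit 264) (.e (nat_lit 1212) (nat_lit 89) (.e (nat_lit 73781) (nat_lit 32) (.e (nat_lit 2856) (nat_lit 184) (.e (nat_lit 426538) (nat_lit 29) .nil))))) .nil)) 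
(.lf (nat_lit 244089) (.g (nat_lit 3182) (.e (nat_lit 123182) (nat_lit 264) (.e (nat_lit 1222) (nat_lit 90) (.e (nat_lit 81959) (nat_lit 24) (.e (nat_lit 123182) (nat_lit 264) (.e (nat_lit 7936) (nat_lit 90) (.e (nat_lit 81959) (nat_lit 24) .nil)))))) (.g (nat_lit 4) .nil .nil)))))) (.nd (nat_lit 3) (.nd (nat_lit 4) (.nd (nat_lit 5) 
(.lf (nat_lit 244037) (.g (nat_lit 2443) (.e (nat_lit 123182) (nat_lit 264) (.e (nat_lit 1201) (nat_lit 88) (.e (nat_lit 65630) (nat_lit 14) (.e (nat_lit 401454) (nat_lit 12) (.e (nat_lit 483072) (nat_lit 12) .nil))))) .nil)) 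
(.lf (nat_lit 244069) (.g (nat_lit 2313) (.e (nat_lit 123182) (nat_lit 264) (.e (nat_lit 1214) (nat_lit 89) (.e (nat_lit 73781) (nat_lit 32) (.e (nat_lit 3090) (nat_lit 191) (.e (nat_lit 483378) (nat_lit 23) (.e (nat_lit 336032) (nat_lit 4) .nil)))))) (.g (nat_lit 4) .nil .nil)))) (.nd (nat_lit 5) 
(.lf (nat_lit 244053) (.g (nat_lit 3135) (.e (nat_lit 123182) (nat_lit 264) (.e (nat_lit 1201) (nat_lit 88) (.e (nat_lit 65630) (nat_lit 14) (.e (nat_lit 401459) (nat_lit 13) (.e (nat_lit 483389) (nat_lit 23) .nil))))) .nil)) 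
(.lf (nat_lit 244085) (.g (nat_lit 3392) (.e (nat_lit 123182) (nat_lit 264) (.e (nat_lit 1222) (nat_lit 90) (.e (nat_lit 81957) (nat_lit 24) (.e (nat_lit 123197) (nat_lit 266) (.e (nat_lit 57423) (nat_lit 14) (.e (nat_lit 352318) (nat_lit 24) .nil)))))) (.g (nat_lit 5) .nil .nil))))) (.nd (nat_lit 4) (.nd (nat_lit 5) 
(.lf (nat_lit 244045) (.g (nat_lit 3590) (.e (nat_lit 123182) (nat_lit 264) (.e (nat_lit 1201) (nat_lit 88) (.e (nat_lit 65630) (nat_lit 14) (.e (nat_lit 401459) (nat_lit 13) (.e (nat_lit 483344) (nat_lit 17) (.e (nat_lit 6437) (nat_lit 343) (.e (nat_lit 1286) (nat_lit 95) .nil))))))) (.g (nat_lit 4) .nil .nil))) 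
(.lf (nat_lit 244077) (.g (nat_lit 414) (.e (nat_lit 123182) (nat_lit 264) (.e (nat_lit 1222) (nat_lit 90) (.e (nat_lit 81935) (nat_lit 20) .nil))) .nil))) (.nd (nat_lit 5) 
(.lf (nat_lit 244061) (.g (nat_lit 1714) (.e (nat_lit 123182) (nat_lit 264) (.e (nat_lit 1212) (nat_lit 89) (.e (nat_lit 73786) (nat_lit 45) (.e (nat_lit 1374) (nat_lit 104) (.e (nat_lit 303155) (nat_lit 29) (.e (nat_lit 352316) (nat_lit 24) .nil)))))) (.g (nat_lit 4) .nil .nil))) 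
(.lf (nat_lit 244093) (.g (nat_lit 713) (.e (nat_lit 123182) (nat_lit 264) (.e (nat_lit 1224) (nat_lit 90) (.e (nat_lit 81947) (nat_lit 20) (.e (nat_lit 2005) (nat_lit 138) .nil)))) .nil)))))) (.nd (nat_lit 2) (.nd (nat_lit 3) (.nd (nat_lit 4) (.nd (nat_lit 5) 
(.lf (nat_lit 244035) (.g (nat_lit 3022) (.e (nat_lit 123182) (nat_lit 264) (.e (nat_lit 1201) (nat_lit 88) (.e (nat_lit 65630) (nat_lit 14) (.e (nat_lit 401438) (nat_lit 9) (.e (nat_lit 426538) (nat_lit 29) (.e (nat_lit 352318) (nat_lit 24) .nil)))))) (.g (nat_lit 4) .nil .nil))) 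
(.lf (nat_lit 244067) (.g (nat_lit 3368) (.e (nat_lit 123182) (nat_lit 264) (.e (nat_lit 1214) (nat_lit 89) (.e (nat_lit 73781) (nat_lit 32) (.e (nat_lit 2856) (nat_lit 184) (.e (nat_lit 426555) (nat_lit 32) (.e (nat_lit 376870) (nat_lit 24) .nil)))))) (.g (nat_lit 5) .nil .nil)))) (.nd (nat_lit 5) 
(.lf (nat_lit 244051) (.g (nat_lit 3778) (.e (nat_lit 123182) (nat_lit 264) (.e (nat_lit 1201) (nat_lit 88) (.e (nat_lit 65630) (nat_lit 14) (.e (nat_lit 401459) (nat_lit 13) (.e (nat_lit 483387) (nat_lit 23) (.e (nat_lit 336032) (nat_lit 4) .nil)))))) (.g (nat_lit 4) .nil .nil))) 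
(.lf (nat_lit 244083) (.g (nat_lit 1538) (.e (nat_lit 123182) (nat_lit 264) (.e (nat_lit 1222) (nat_lit 90) (.e (nat_lit 81948) (nat_lit 21) (.e (nat_lit 57873) (nat_lit 264) (.e (nat_lit 993) (nat_lit 81) .nil))))) .nil)))) (.nd (nat_lit 4) (.nd (nat_lit 5) 
(.lf (nat_lit 244043) (.g (nat_lit 3180) (.e (nat_lit 123182) (nat_lit 264) (.e (nat_lit 1201) (nat_lit 88) (.e (nat_lit 65630) (nat_lit 14) (.e (nat_lit 401458) (nat_lit 13) (.e (nat_lit 483387) (nat_lit 23) (.e (nat_lit 336032) (nat_lit 4) .nil)))))) (.g (nat_lit 4) .nil .nil))) 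
(.lf (nat_lit 244075) (.g (nat_lit 2141) (.e (nat_lit 123182) (nat_lit 264) (.e (nat_lit 1222) (nat_lit 90) (.e (nat_lit 81924) (nat_lit 0) (.e (nat_lit 3632) (nat_lit 227) (.e (nat_lit 778326) (nat_lit 6) (.e (nat_lit 81958) (nat_lit 24) .nil)))))) (.g (nat_lit 4) .nil .nil)))) (.nd (nat_lit 5) 
(.lf (nat_lit 244059) (.g (nat_lit 2203) (.e (nat_lit 123182) (nat_lit 264) (.e (nat_lit 1212) (nat_lit 89) (.e (nat_lit 73782) (nat_lit 32) (.e (nat_lit 2857) (nat_lit 184) (.e (nat_lit 426538) (nat_lit 29) (.e (nat_lit 352318) (nat_lit 24) .nil)))))) (.g (nat_lit 4) .nil .nil))) 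
(.lf (nat_lit 244091) (.g (nat_lit 1039) (.e (nat_lit 123182) (nat_lit 264) (.e (nat_lit 1224) (nat_lit 90) (.e (nat_lit 81946) (nat_lit 20) (.e (nat_lit 2004) (nat_lit 138) .nil)))) .nil))))) (.nd (nat_lit 3) (.nd (nat_lit 4) (.nd (nat_lit 5) 
(.lf (nat_lit 244039) (.g (nat_lit 2326) (.e (nat_lit 123182) (nat_lit 264) (.e (nat_lit 1201) (nat_lit 88) (.e (nat_lit 65630) (nat_lit 14) (.e (nat_lit 401457) (nat_lit 13) (.e (nat_lit 483393) (nat_lit 23) .nil))))) .nil)) 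
(.lf (nat_lit 244071) (.g (nat_lit 2774) (.e (nat_lit 123182) (nat_lit 264) (.e (nat_lit 1218) (nat_lit 90) (.e (nat_lit 81959) (nat_lit 24) (.e (nat_lit 123182) (nat_lit 264) (.e (nat_lit 7936) (nat_lit 90) (.e (nat_lit 81959) (nat_lit 24) .nil)))))) (.g (nat_lit 4) .nil .nil)))) (.nd (nat_lit 5) 
(.lf (nat_lit 244055) (.g (nat_lit 3483) (.e (nat_lit 123182) (nat_lit 264) (.e (nat_lit 1201) (nat_lit 88) (.e (nat_lit 65630) (nat_lit 14) (.e (nat_lit 401459) (nat_lit 13) (.e (nat_lit 483392) (nat_lit 23) .nil))))) .nil)) 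
(.lf (nat_lit 244087) (.g (nat_lit 4485) (.e (nat_lit 123182) (nat_lit 264) (.e (nat_lit 1222) (nat_lit 90) (.e (nat_lit 81959) (nat_lit 24) (.e (nat_lit 123182) (nat_lit 264) (.e (nat_lit 1222) (nat_lit 90) (.e (nat_lit 81957) (nat_lit 24) .nil)))))) (.g (nat_lit 5) .nil .nil))))) (.nd (nat_lit 4) (.nd (nat_lit 5) 
(.lf (nat_lit 244047) (.g (nat_lit 2940) (.e (nat_lit 123182) (nat_lit 264) (.e (nat_lit 1201) (nat_lit 88) (.e (nat_lit 65630) (nat_lit 14) (.e (nat_lit 401459) (nat_lit 13) (.e (nat_lit 483347) (nat_lit 17) .nil))))) .nil)) 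
(.lf (nat_lit 244079) (.g (nat_lit 349) (.e (nat_lit 123182) (nat_lit 264) (.e (nat_lit 1222) (nat_lit 90) (.e (nat_lit 81943) (nat_lit 20) .nil))) .nil))) (.nd (nat_lit 5) 
(.lf (nat_lit 244063) (.g (nat_lit 1709) (.e (nat_lit 123182) (nat_lit 264) (.e (nat_lit 1212) (nat_lit 89) (.e (nat_lit 73795) (nat_lit 47) (.e (nat_lit 123165) (nat_lit 256) (.e (nat_lit 318) (nat_lit 23) (.e (nat_lit 352316) (nat_lit 24) .nil)))))) (.g (nat_lit 0) .nil .nil))) 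
(.lf (nat_lit 244095) (.g (nat_lit 3219) (.e (nat_lit 123182) (nat_lit 264) (.e (nat_lit 1224) (nat_lit 90) (.e (nat_lit 81950) (nat_lit 21) (.e (nat_lit 57872) (nat_lit 264) (.e (nat_lit 1221) (nat_lit 90) (.e (nat_lit 81959) (nat_lit 24) .nil)))))) (.g (nat_lit 6) .nil .nil)))))))))

noncomputable def tv3179 : DT := (.nd (nat_lit 0) (.nd (nat_lit 1) (.nd (nat_lit 2) (.nd (nat_lit 3) (.nd (nat_lit 4) (.nd (nat_lit 5) (.nd (nat_lit 6) 
(.lf (nat_lit 244096) (.g (nat_lit 3139) (.e (nat_lit 123182) (nat_lit 264) (.e (nat_lit 1224) (nat_lit 90) (.e (nat_lit 81959) (nat_lit 24) (.e (nat_lit 123191) (nat_lit 264) (.e (nat_lit 1221) (nat_lit 90) (.e (nat_lit 81959) (nat_lit 24) .nil)))))) (.g (nat_lit 6) .nil .nil))) 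
(.lf (nat_lit 244160) (.g (nat_lit 962) (.e (nat_lit 123183) (nat_lit 264) (.e (nat_lit 1222) (nat_lit 90) (.e (nat_lit 81920) (nat_lit 0) (.e (nat_lit 3715) (nat_lit 227) (.e (nat_lit 778325) (nat_lit 6) .nil))))) .nil))) (.nd (nat_lit 6) 
(.lf (nat_lit 244128) (.g (nat_lit 3269) (.e (nat_lit 123183) (nat_lit 264) (.e (nat_lit 1201) (nat_lit 88) (.e (nat_lit 65630) (nat_lit 14) (.e (nat_lit 401459) (nat_lit 13) (.e (nat_lit 483389) (nat_lit 23) .nil))))) .nil)) 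
(.lf (nat_lit 244192) (.g (nat_lit 3585) (.e (nat_lit 123183) (nat_lit 264) (.e (nat_lit 1222) (nat_lit 90) (.e (nat_lit 81959) (nat_lit 24) (.e (nat_lit 123182) (nat_lit 264) (.e (nat_lit 1222) (nat_lit 90) (.e (nat_lit 81957) (nat_lit 24) .nil)))))) (.g (nat_lit 5) .nil .nil))))) (.nd (nat_lit 5) (.nd (nat_lit 6) 
(.lf (nat_lit 244112) (.g (nat_lit 2184) (.e (nat_lit 123183) (nat_lit 264) (.e (nat_lit 1201) (nat_lit 88) (.e (nat_lit 65624) (nat_lit 12) (.e (nat_lit 385106) (nat_lit 50) (.e (nat_lit 786479) (nat_lit 29) .nil))))) .nil)) 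
(.lf (nat_lit 244176) (.g (nat_lit 872) (.e (nat_lit 123183) (nat_lit 264) (.e (nat_lit 1222) (nat_lit 90) (.e (nat_lit 81948) (nat_lit 21) (.e (nat_lit 57871) (nat_lit 264) .nil)))) .nil))) (.nd (nat_lit 6) 
(.lf (nat_lit 244144) (.g (nat_lit 824) (.e (nat_lit 123183) (nat_lit 264) (.e (nat_lit 1212) (nat_lit 89) (.e (nat_lit 73782) (nat_lit 32) (.e (nat_lit 3089) (nat_lit 191) .nil)))) .nil)) 
(.lf (nat_lit 244208) (.g (nat_lit 460) (.e (nat_lit 123183) (nat_lit 264) (.e (nat_lit 1296) (nat_lit 96) (.e (nat_lit 131123) (nat_lit 12) .nil))) .nil))))) (.nd (nat_lit 4) (.nd (nat_lit 5) (.nd (nat_lit 6) 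
(.lf (nat_lit 244104) (.g (nat_lit 1260) (.e (nat_lit 123183) (nat_lit 264) (.e (nat_lit 1201) (nat_lit 88) (.e (nat_lit 65610) (nat_lit 10) (.e (nat_lit 344169) (nat_lit 40) .nil)))) .nil)) 
(.lf (nat_lit 244168) (.g (nat_lit 639) (.e (nat_lit 123183) (nat_lit 264) (.e (nat_lit 1222) (nat_lit 90) (.e (nat_lit 81933) (nat_lit 20) .nil))) .nil))) (.nd (nat_lit 6) 
(.lf (nat_lit 244136) (.g (nat_lit 2500) (.e (nat_lit 123183) (nat_lit 264) (.e (nat_lit 1212) (nat_lit 89) (.e (nat_lit 73782) (nat_lit 32) (.e (nat_lit 2854) (nat_lit 184) (.e (nat_lit 426542) (nat_lit 29) (.e (nat_lit 352316) (nat_lit 24) .nil)))))) (.g (nat_lit 0) .nil .nil))) 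
(.lf (nat_lit 244200) (.g (nat_lit 368) (.e (nat_lit 123183) (nat_lit 264) (.e (nat_lit 1224) (nat_lit 90) (.e (nat_lit 81957) (nat_lit 24) .nil))) .nil)))) (.nd (nat_lit 5) (.nd (nat_lit 6) 
(.lf (nat_lit 244120) (.g (nat_lit 3249) (.e (nat_lit 123183) (nat_lit 264) (.e (nat_lit 1201) (nat_lit 88) (.e (nat_lit 65630) (nat_lit 14) (.e (nat_lit 401437) (nat_lit 9) (.e (nat_lit 426542) (nat_lit 29) (.e (nat_lit 352317) (nat_lit 24) .nil)))))) (.g (nat_lit 5) .nil .nil))) 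
(.lf (nat_lit 244184) (.g (nat_lit 2122) (.e (nat_lit 123183) (nat_lit 264) (.e (nat_lit 1222) (nat_lit 90) (.e (nat_lit 81957) (nat_lit 24) (.e (nat_lit 123182) (nat_lit 264) (.e (nat_lit 1218) (nat_lit 90) .nil))))) .nil))) (.nd (nat_lit 6) 
(.lf (nat_lit 244152) (.g (nat_lit 1642) (.e (nat_lit 123183) (nat_lit 264) (.e (nat_lit 1212) (nat_lit 89) (.e (nat_lit 73795) (nat_lit 47) (.e (nat_lit 123165) (nat_lit 256) (.e (nat_lit 318) (nat_lit 23) (.e (nat_lit 352316) (nat_lit 24) .nil)))))) (.g (nat_lit 0) .nil .nil))) 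
(.lf (nat_lit 244216) (.g (nat_lit 4513) (.e (nat_lit 123184) (nat_lit 264) (.e (nat_lit 1183) (nat_lit 87) (.e (nat_lit 57480) (nat_lit 28) (.e (nat_lit 557098) (nat_lit 13) (.e (nat_lit 172115) (nat_lit 10) (.e (nat_lit 434231) (nat_lit 23) (.e (nat_lit 532535) (nat_lit 9) (.e (nat_lit 336030) (nat_lit 4) .nil)))))))) (.g (nat_lit 7) .nil .nil))))))) 
(.nd (nat_lit 3) (.nd (nat_lit 4) (.nd (nat_lit 5) (.nd (nat_lit 6) 
(.lf (nat_lit 244100) (.g (nat_lit 1313) (.e (nat_lit 123183) (nat_lit 264) (.e (nat_lit 1191) (nat_lit 88) (.e (nat_lit 65630) (nat_lit 14) (.e (nat_lit 401454) (nat_lit 12) (.e (nat_lit 483072) (nat_lit 12) .nil))))) .nil)) 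
(.lf (nat_lit 244164) (.g (nat_lit 2042) (.e (nat_lit 123183) (nat_lit 264) (.e (nat_lit 1222) (nat_lit 90) (.e (nat_lit 81921) (nat_lit 0) (.e (nat_lit 3716) (nat_lit 227) (.e (nat_lit 778325) (nat_lit 6) (.e (nat_lit 81957) (nat_lit 24) .nil)))))) (.g (nat_lit 0) .nil .nil)))) (.nd (nat_lit 6) 
(.lf (nat_lit 244132) (.g (nat_lit 1703) (.e (nat_lit 123183) (nat_lit 264) (.e (nat_lit 1212) (nat_lit 89) (.e (nat_lit 73780) (nat_lit 32) (.e (nat_lit 2936) (nat_lit 184) (.e (nat_lit 426541) (nat_lit 29) (.e (nat_lit 352316) (nat_lit 24) .nil)))))) (.g (nat_lit 0) .nil .nil))) 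
(.lf (nat_lit 244196) (.g (nat_lit 2271) (.e (nat_lit 123183) (nat_lit 264) (.e (nat_lit 1223) (nat_lit 90) (.e (nat_lit 81959) (nat_lit 24) (.e (nat_lit 123182) (nat_lit 264) (.e (nat_lit 1224) (nat_lit 90) .nil))))) .nil)))) (.nd (nat_lit 5) (.nd (nat_lit 6) 
(.lf (nat_lit 244116) (.g (nat_lit 2211) (.e (nat_lit 123183) (nat_lit 264) (.e (nat_lit 1201) (nat_lit 88) (.e (nat_lit 65628) (nat_lit 14) (.e (nat_lit 401459) (nat_lit 13) (.e (nat_lit 483386) (nat_lit 23) .nil))))) .nil)) 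
(.lf (nat_lit 244180) (.g (nat_lit 3330) (.e (nat_lit 123183) (nat_lit 264) (.e (nat_lit 1222) (nat_lit 90) (.e (nat_lit 81948) (nat_lit 21) (.e (nat_lit 57873) (nat_lit 264) (.e (nat_lit 1219) (nat_lit 90) (.e (nat_lit 81957) (nat_lit 24) .nil)))))) (.g (nat_lit 0) .nil .nil)))) (.nd (nat_lit 6) 
(.lf (nat_lit 244148) (.g (nat_lit 498) (.e (nat_lit 123183) (nat_lit 264) (.e (nat_lit 1212) (nat_lit 89) (.e (nat_lit 81664) (nat_lit 37) .nil))) .nil)) 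
(.lf (nat_lit 244212) (.g (nat_lit 4728) (.e (nat_lit 123184) (nat_lit 264) (.e (nat_lit 1183) (nat_lit 87) (.e (nat_lit 57479) (nat_lit 28) (.e (nat_lit 557101) (nat_lit 13) (.e (nat_lit 172097) (nat_lit 9) (.e (nat_lit 426125) (nat_lit 2) (.e (nat_lit 196666) (nat_lit 13) (.e (nat_lit 65572) (nat_lit 4) .nil)))))))) (.g (nat_lit 7) .nil .nil)))))) 
(.nd (nat_lit 4) (.nd (nat_lit 5) (.nd (nat_lit 6) 
(.lf (nat_lit 244108) (.g (nat_lit 1119) (.e (nat_lit 123183) (nat_lit 264) (.e (nat_lit 1201) (nat_lit 88) (.e (nat_lit 65622) (nat_lit 12) (.e (nat_lit 385092) (nat_lit 49) .nil)))) .nil)) 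
(.lf (nat_lit 244172) (.g (nat_lit 1221) (.e (nat_lit 123183) (nat_lit 264) (.e (nat_lit 1222) (nat_lit 90) (.e (nat_lit 81947) (nat_lit 20) (.e (nat_lit 2006) (nat_lit 138) .nil)))) .nil))) (.nd (nat_lit 6) 
(.lf (nat_lit 244140) (.g (nat_lit 992) (.e (nat_lit 123183) (nat_lit 264) (.e (nat_lit 1212) (nat_lit 89) (.e (nat_lit 73782) (nat_lit 32) (.e (nat_lit 3087) (nat_lit 191) .nil)))) .nil)) 
(.lf (nat_lit 244204) (.g (nat_lit 1662) (.e (nat_lit 123183) (nat_lit 264) (.e (nat_lit 1296) (nat_lit 96) (.e (nat_lit 131119) (nat_lit 12) (.e (nat_lit 385094) (nat_lit 49) (.e (nat_lit 778326) (nat_lit 6) .nil))))) .nil)))) (.nd (nat_lit 5) (.nd (nat_lit 6) 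
(.lf (nat_lit 244124) (.g (nat_lit 1873) (.e (nat_lit 123183) (nat_lit 264) (.e (nat_lit 1201) (nat_lit 88) (.e (nat_lit 65630) (nat_lit 14) (.e (nat_lit 401458) (nat_lit 13) (.e (nat_lit 483387) (nat_lit 23) .nil))))) .nil)) 
(.lf (nat_lit 244188) (.g (nat_lit 1564) (.e (nat_lit 123183) (nat_lit 264) (.e (nat_lit 1222) (nat_lit 90) (.e (nat_lit 81957) (nat_lit 24) (.e (nat_lit 123184) (nat_lit 264) (.e (nat_lit 7936) (nat_lit 90) .nil))))) .nil))) (.nd (nat_lit 6) 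
(.lf (nat_lit 244156) (.g (nat_lit 1190) (.e (nat_lit 123183) (nat_lit 264) (.e (nat_lit 1214) (nat_lit 89) (.e (nat_lit 73792) (nat_lit 45) (.e (nat_lit 1385) (nat_lit 105) .nil)))) .nil)) 
(.lf (nat_lit 244220) (.g (nat_lit 2470) (.e (nat_lit 123184) (nat_lit 264) (.e (nat_lit 1183) (nat_lit 87) (.e (nat_lit 57520) (nat_lit 44) (.e (nat_lit 688177) (nat_lit 16) (.e (nat_lit 65583) (nat_lit 7) (.e (nat_lit 319530) (nat_lit 16) (.e (nat_lit 286748) (nat_lit 9) (.e (nat_lit 336032) (nat_lit 4) .nil)))))))) (.g (nat_lit 4) .nil .nil)))))))) 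
(.nd (nat_lit 2) (.nd (nat_lit 3) (.nd (nat_lit 4) (.nd (nat_lit 5) (.nd (nat_lit 6) 
(.lf (nat_lit 244098) (.g (nat_lit 2434) (.e (nat_lit 123183) (nat_lit 264) (.e (nat_lit 1183) (nat_lit 87) (.e (nat_lit 57479) (nat_lit 28) (.e (nat_lit 557095) (nat_lit 13) (.e (nat_lit 172115) (nat_lit 10) (.e (nat_lit 434231) (nat_lit 23) (.e (nat_lit 532535) (nat_lit 9) (.e (nat_lit 336030) (nat_lit 4) .nil)))))))) (.g (nat_lit 4) .nil .nil))) 
(.lf (nat_lit 244162) (.g (nat_lit 2267) (.e (nat_lit 123183) (nat_lit 264) (.e (nat_lit 1222) (nat_lit 90) (.e (nat_lit 81921) (nat_lit 0) (.e (nat_lit 3711) (nat_lit 227) (.e (nat_lit 778325) (nat_lit 6) (.e (nat_lit 81957) (nat_lit 24) .nil)))))) (.g (nat_lit 0) .nil .nil)))) (.nd (nat_lit 6) 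
(.lf (nat_lit 244130) (.g (nat_lit 515) (.e (nat_lit 123183) (nat_lit 264) (.e (nat_lit 1212) (nat_lit 89) (.e (nat_lit 73779) (nat_lit 32) (.e (nat_lit 2936) (nat_lit 184) .nil)))) .nil)) 
(.lf (nat_lit 244194) (.g (nat_lit 2254) (.e (nat_lit 123183) (nat_lit 264) (.e (nat_lit 1222) (nat_lit 90) (.e (nat_lit 81959) (nat_lit 24) (.e (nat_lit 123183) (nat_lit 264) (.e (nat_lit 1222) (nat_lit 90) (.e (nat_lit 81957) (nat_lit 24) .nil)))))) (.g (nat_lit 4) .nil .nil))))) (.nd (nat_lit 5) (.nd (nat_lit 6) 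
(.lf (nat_lit 244114) (.g (nat_lit 1668) (.e (nat_lit 123183) (nat_lit 264) (.e (nat_lit 1201) (nat_lit 88) (.e (nat_lit 65628) (nat_lit 14) (.e (nat_lit 401436) (nat_lit 9) (.e (nat_lit 426542) (nat_lit 29) .nil))))) .nil)) 
(.lf (nat_lit 244178) (.g (nat_lit 3258) (.e (nat_lit 123183) (nat_lit 264) (.e (nat_lit 1222) (nat_lit 90) (.e (nat_lit 81948) (nat_lit 21) (.e (nat_lit 57871) (nat_lit 264) (.e (nat_lit 1220) (nat_lit 90) (.e (nat_lit 81959) (nat_lit 24) .nil)))))) (.g (nat_lit 0) .nil .nil)))) (.nd (nat_lit 6) 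
(.lf (nat_lit 244146) (.g (nat_lit 2332) (.e (nat_lit 123183) (nat_lit 264) (.e (nat_lit 1212) (nat_lit 89) (.e (nat_lit 73782) (nat_lit 32) (.e (nat_lit 3090) (nat_lit 191) (.e (nat_lit 483386) (nat_lit 23) (.e (nat_lit 336030) (nat_lit 4) .nil)))))) (.g (nat_lit 0) .nil .nil))) 
(.lf (nat_lit 244210) (.g (nat_lit 3034) (.e (nat_lit 123184) (nat_lit 264) (.e (nat_lit 1183) (nat_lit 87) (.e (nat_lit 57479) (nat_lit 28) (.e (nat_lit 557095) (nat_lit 13) (.e (nat_lit 172097) (nat_lit 9) (.e (nat_lit 426125) (nat_lit 2) (.e (nat_lit 196666) (nat_lit 13) (.e (nat_lit 65574) (nat_lit 4) .nil)))))))) (.g (nat_lit 4) .nil .nil)))))) 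
(.nd (nat_lit 4) (.nd (nat_lit 5) (.nd (nat_lit 6) 
(.lf (nat_lit 244106) (.g (nat_lit 1910) (.e (nat_lit 123183) (nat_lit 264) (.e (nat_lit 1201) (nat_lit 88) (.e (nat_lit 65617) (nat_lit 10) (.e (nat_lit 344168) (nat_lit 40) (.e (nat_lit 671764) (nat_lit 6) .nil))))) .nil)) 
(.lf (nat_lit 244170) (.g (nat_lit 632) (.e (nat_lit 123183) (nat_lit 264) (.e (nat_lit 1222) (nat_lit 90) (.e (nat_lit 81939) (nat_lit 20) .nil))) .nil))) (.nd (nat_lit 6) 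
(.lf (nat_lit 244138) (.g (nat_lit 3093) (.e (nat_lit 123183) (nat_lit 264) (.e (nat_lit 1212) (nat_lit 89) (.e (nat_lit 73782) (nat_lit 32) (.e (nat_lit 2857) (nat_lit 184) (.e (nat_lit 426542) (nat_lit 29) (.e (nat_lit 352316) (nat_lit 24) .nil)))))) (.g (nat_lit 0) .nil .nil))) 
(.lf (nat_lit 244202) (.g (nat_lit 1400) (.e (nat_lit 123183) (nat_lit 264) (.e (nat_lit 1224) (nat_lit 90) (.e (nat_lit 81959) (nat_lit 24) (.e (nat_lit 123184) (nat_lit 264) (.e (nat_lit 1222) (nat_lit 90) .nil))))) .nil)))) (.nd (nat_lit 5) (.nd (nat_lit 6) 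
(.lf (nat_lit 244122) (.g (nat_lit 2708) (.e (nat_lit 123183) (nat_lit 264) (.e (nat_lit 1201) (nat_lit 88) (.e (nat_lit 65630) (nat_lit 14) (.e (nat_lit 401454) (nat_lit 12) (.e (nat_lit 483072) (nat_lit 12) .nil))))) .nil)) 
(.lf (nat_lit 244186) (.g (nat_lit 2628) (.e (nat_lit 123183) (nat_lit 264) (.e (nat_lit 1222) (nat_lit 90) (.e (nat_lit 81957) (nat_lit 24) (.e (nat_lit 123183) (nat_lit 264) (.e (nat_lit 1222) (nat_lit 90) (.e (nat_lit 81957) (nat_lit 24) .nil)))))) (.g (nat_lit 0) .nil .nil)))) (.nd (nat_lit 6) 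
(.lf (nat_lit 244154) (.g (nat_lit 430) (.e (nat_lit 123183) (nat_lit 264) (.e (nat_lit 1214) (nat_lit 89) (.e (nat_lit 81664) (nat_lit 39) .nil))) .nil)) 
(.lf (nat_lit 244218) (.g (nat_lit 4071) (.e (nat_lit 123184) (nat_lit 264) (.e (nat_lit 1183) (nat_lit 87) (.e (nat_lit 57480) (nat_lit 28) (.e (nat_lit 557109) (nat_lit 15) (.e (nat_lit 188452) (nat_lit 23) (.e (nat_lit 204855) (nat_lit 26) (.e (nat_lit 336030) (nat_lit 4) .nil))))))) (.g (nat_lit 6) .nil .nil))))))) (.nd (nat_lit 3) (.nd (nat_lit 4) (.nd (nat_lit 5) (.nd (nat_lit 6) 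
(.lf (nat_lit 244102) (.g (nat_lit 2450) (.e (nat_lit 123183) (nat_lit 264) (.e (nat_lit 1201) (nat_lit 88) (.e (nat_lit 65610) (nat_lit 10) (.e (nat_lit 344097) (nat_lit 18) (.e (nat_lit 5907) (nat_lit 320) (.e (nat_lit 7936) (nat_lit 90) (.e (nat_lit 81957) (nat_lit 24) .nil))))))) (.g (nat_lit 5) .nil .nil))) 
(.lf (nat_lit 244166) (.g (nat_lit 772) (.e (nat_lit 123183) (nat_lit 264) (.e (nat_lit 1222) (nat_lit 90) (.e (nat_lit 81924) (nat_lit 0) (.e (nat_lit 3630) (nat_lit 227) .nil)))) .nil))) (.nd (nat_lit 6) 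
(.lf (nat_lit 244134) (.g (nat_lit 935) (.e (nat_lit 123183) (nat_lit 264) (.e (nat_lit 1212) (nat_lit 89) (.e (nat_lit 73781) (nat_lit 32) (.e (nat_lit 2855) (nat_lit 184) .nil)))) .nil)) 
(.lf (nat_lit 244198) (.g (nat_lit 917) (.e (nat_lit 123183) (nat_lit 264) (.e (nat_lit 1224) (nat_lit 90) (.e (nat_lit 81947) (nat_lit 20) (.e (nat_lit 2005) (nat_lit 138) .nil)))) .nil)))) (.nd (nat_lit 5) (.nd (nat_lit 6) 
(.lf (nat_lit 244118) (.g (nat_lit 1866) (.e (nat_lit 123183) (nat_lit 264) (.e (nat_lit 1201) (nat_lit 88) (.e (nat_lit 65630) (nat_lit 14) (.e (nat_lit 401436) (nat_lit 9) (.e (nat_lit 426555) (nat_lit 32) .nil))))) .nil)) 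
(.lf (nat_lit 244182) (.g (nat_lit 1988) (.e (nat_lit 123183) (nat_lit 264) (.e (nat_lit 1222) (nat_lit 90) (.e (nat_lit 81950) (nat_lit 21) (.e (nat_lit 57873) (nat_lit 264) (.e (nat_lit 1219) (nat_lit 90) .nil))))) .nil))) (.nd (nat_lit 6) 
(.lf (nat_lit 244150) (.g (nat_lit 1646) (.e (nat_lit 123183) (nat_lit 264) (.e (nat_lit 1212) (nat_lit 89) (.e (nat_lit 73794) (nat_lit 46) (.e (nat_lit 57864) (nat_lit 256) (.e (nat_lit 317) (nat_lit 23) (.e (nat_lit 352316) (nat_lit 24) .nil)))))) (.g (nat_lit 0) .nil .nil))) 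
(.lf (nat_lit 244214) (.g (nat_lit 4667) (.e (nat_lit 123184) (nat_lit 264) (.e (nat_lit 1183) (nat_lit 87) (.e (nat_lit 57479) (nat_lit 28) (.e (nat_lit 557101) (nat_lit 13) (.e (nat_lit 172115) (nat_lit 10) (.e (nat_lit 434231) (nat_lit 23) (.e (nat_lit 532535) (nat_lit 9) (.e (nat_lit 336030) (nat_lit 4) .nil)))))))) (.g (nat_lit 7) .nil .nil)))))) 
(.nd (nat_lit 4) (.nd (nat_lit 5) (.nd (nat_lit 6) 
(.lf (nat_lit 244110) (.g (nat_lit 2490) (.e (nat_lit 123183) (nat_lit 264) (.e (nat_lit 1201) (nat_lit 88) (.e (nat_lit 65624) (nat_lit 12) (.e (nat_lit 385093) (nat_lit 49) (.e (nat_lit 778326) (nat_lit 6) (.e (nat_lit 81958) (nat_lit 24) .nil)))))) (.g (nat_lit 5) .nil .nil))) 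
(.lf (nat_lit 244174) (.g (nat_lit 2844) (.e (nat_lit 123183) (nat_lit 264) (.e (nat_lit 1222) (nat_lit 90) (.e (nat_lit 81948) (nat_lit 21) (.e (nat_lit 57870) (nat_lit 264) (.e (nat_lit 1219) (nat_lit 90) (.e (nat_lit 81957) (nat_lit 24) .nil)))))) (.g (nat_lit 0) .nil .nil)))) (.nd (nat_lit 6) 
(.lf (nat_lit 244142) (.g (nat_lit 1565) (.e (nat_lit 123183) (nat_lit 264) (.e (nat_lit 1212) (nat_lit 89) (.e (nat_lit 73782) (nat_lit 32) (.e (nat_lit 3088) (nat_lit 191) (.e (nat_lit 483378) (nat_lit 23) .nil))))) .nil)) 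
(.lf (nat_lit 244206) (.g (nat_lit 1280) (.e (nat_lit 123183) (nat_lit 264) (.e (nat_lit 1296) (nat_lit 96) (.e (nat_lit 131121) (nat_lit 12) (.e (nat_lit 385094) (nat_lit 49) (.e (nat_lit 778327) (nat_lit 6) .nil))))) .nil)))) (.nd (nat_lit 5) (.nd (nat_lit 6) 
(.lf (nat_lit 244126) (.g (nat_lit 2894) (.e (nat_lit 123183) (nat_lit 264) (.e (nat_lit 1201) (nat_lit 88) (.e (nat_lit 65630) (nat_lit 14) (.e (nat_lit 401459) (nat_lit 13) (.e (nat_lit 483380) (nat_lit 23) .nil))))) .nil)) 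
(.lf (nat_lit 244190) (.g (nat_lit 2239) (.e (nat_lit 123183) (nat_lit 264) (.e (nat_lit 1222) (nat_lit 90) (.e (nat_lit 81957) (nat_lit 24) (.e (nat_lit 123195) (nat_lit 266) (.e (nat_lit 57425) (nat_lit 14) (.e (nat_lit 352318) (nat_lit 24) .nil)))))) (.g (nat_lit 4) .nil .nil)))) (.nd (nat_lit 6) 
(.lf (nat_lit 244158) (.g (nat_lit 453) (.e (nat_lit 123183) (nat_lit 264) (.e (nat_lit 1214) (nat_lit 89) (.e (nat_lit 73795) (nat_lit 47) .nil))) .nil)) 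
(.lf (nat_lit 244222) (.g (nat_lit 1421) (.e (nat_lit 123184) (nat_lit 264) (.e (nat_lit 1192) (nat_lit 88) (.e (nat_lit 65624) (nat_lit 12) (.e (nat_lit 385092) (nat_lit 49) (.e (nat_lit 778326) (nat_lit 6) .nil))))) .nil)))))))) (.nd (nat_lit 1) (.nd (nat_lit 2) (.nd (nat_lit 3) (.nd (nat_lit 4) (.nd (nat_lit 5) (.nd (nat_lit 6) 
(.lf (nat_lit 244097) (.g (nat_lit 840) (.e (nat_lit 123182) (nat_lit 264) (.e (nat_lit 1296) (nat_lit 96) (.e (nat_lit 131107) (nat_lit 9) (.e (nat_lit 336332) (nat_lit 19) .nil)))) .nil)) 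
(.lf (nat_lit 244161) (.g (nat_lit 433) (.e (nat_lit 123183) (nat_lit 264) (.e (nat_lit 1222) (nat_lit 90) (.e (nat_lit 81921) (nat_lit 0) .nil))) .nil))) (.nd (nat_lit 6) 
(.lf (nat_lit 244129) (.g (nat_lit 427) (.e (nat_lit 123183) (nat_lit 264) (.e (nat_lit 1212) (nat_lit 89) (.e (nat_lit 73779) (nat_lit 32) .nil))) .nil)) 
(.lf (nat_lit 244193) (.g (nat_lit 2996) (.e (nat_lit 123183) (nat_lit 264) (.e (nat_lit 1222) (nat_lit 90) (.e (nat_lit 81959) (nat_lit 24) (.e (nat_lit 123182) (nat_lit 264) (.e (nat_lit 7936) (nat_lit 90) .nil))))) .nil)))) (.nd (nat_lit 5) (.nd (nat_lit 6) 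
(.lf (nat_lit 244113) (.g (nat_lit 1334) (.e (nat_lit 123183) (nat_lit 264) (.e (nat_lit 1201) (nat_lit 88) (.e (nat_lit 65628) (nat_lit 14) (.e (nat_lit 401436) (nat_lit 9) .nil)))) .nil)) 
(.lf (nat_lit 244177) (.g (nat_lit 2794) (.e (nat_lit 123183) (nat_lit 264) (.e (nat_lit 1222) (nat_lit 90) (.e (nat_lit 81948) (nat_lit 21) (.e (nat_lit 57871) (nat_lit 264) (.e (nat_lit 1219) (nat_lit 90) (.e (nat_lit 81957) (nat_lit 24) .nil)))))) (.g (nat_lit 0) .nil .nil)))) (.nd (nat_lit 6) 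
(.lf (nat_lit 244145) (.g (nat_lit 1529) (.e (nat_lit 123183) (nat_lit 264) (.e (nat_lit 1212) (nat_lit 89) (.e (nat_lit 73782) (nat_lit 32) (.e (nat_lit 3089) (nat_lit 191) (.e (nat_lit 483387) (nat_lit 23) .nil))))) .nil)) 
(.lf (nat_lit 244209) (.g (nat_lit 2577) (.e (nat_lit 123184) (nat_lit 264) (.e (nat_lit 1173) (nat_lit 87) (.e (nat_lit 57479) (nat_lit 28) (.e (nat_lit 557095) (nat_lit 13) (.e (nat_lit 172097) (nat_lit 9) .nil))))) .nil))))) (.nd (nat_lit 4) (.nd (nat_lit 5) (.nd (nat_lit 6) 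
(.lf (nat_lit 244105) (.g (nat_lit 1965) (.e (nat_lit 123183) (nat_lit 264) (.e (nat_lit 1201) (nat_lit 88) (.e (nat_lit 65610) (nat_lit 10) (.e (nat_lit 344169) (nat_lit 40) (.e (nat_lit 671747) (nat_lit 0) .nil))))) .nil)) 
(.lf (nat_lit 244169) (.g (nat_lit 1109) (.e (nat_lit 123183) (nat_lit 264) (.e (nat_lit 1222) (nat_lit 90) (.e (nat_lit 81935) (nat_lit 20) (.e (nat_lit 1994) (nat_lit 137) (.e (nat_lit 663554) (nat_lit 0) .nil))))) .nil))) (.nd (nat_lit 6) 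
(.lf (nat_lit 244137) (.g (nat_lit 2136) (.e (nat_lit 123183) (nat_lit 264) (.e (nat_lit 1212) (nat_lit 89) (.e (nat_lit 73782) (nat_lit 32) (.e (nat_lit 2855) (nat_lit 184) (.e (nat_lit 426542) (nat_lit 29) (.e (nat_lit 352317) (nat_lit 24) .nil)))))) (.g (nat_lit 5) .nil .nil))) 
(.lf (nat_lit 244201) (.g (nat_lit 1449) (.e (nat_lit 123183) (nat_lit 264) (.e (nat_lit 1224) (nat_lit 90) (.e (nat_lit 81959) (nat_lit 24) (.e (nat_lit 123183) (nat_lit 264) (.e (nat_lit 1222) (nat_lit 90) .nil))))) .nil)))) (.nd (nat_lit 5) (.nd (nat_lit 6) 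
(.lf (nat_lit 244121) (.g (nat_lit 2645) (.e (nat_lit 123183) (nat_lit 264) (.e (nat_lit 1201) (nat_lit 88) (.e (nat_lit 65630) (nat_lit 14) (.e (nat_lit 401438) (nat_lit 9) (.e (nat_lit 426542) (nat_lit 29) (.e (nat_lit 352317) (nat_lit 24) .nil)))))) (.g (nat_lit 5) .nil .nil))) 
(.lf (nat_lit 244185) (.g (nat_lit 3451) (.e (nat_lit 123183) (nat_lit 264) (.e (nat_lit 1222) (nat_lit 90) (.e (nat_lit 81957) (nat_lit 24) (.e (nat_lit 123182) (nat_lit 264) (.e (nat_lit 1222) (nat_lit 90) (.e (nat_lit 81957) (nat_lit 24) .nil)))))) (.g (nat_lit 0) .nil .nil)))) (.nd (nat_lit 6) 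
(.lf (nat_lit 244153) (.g (nat_lit 431) (.e (nat_lit 123183) (nat_lit 264) (.e (nat_lit 1214) (nat_lit 89) (.e (nat_lit 73781) (nat_lit 32) .nil))) .nil)) 
(.lf (nat_lit 244217) (.g (nat_lit 4012) (.e (nat_lit 123184) (nat_lit 264) (.e (nat_lit 1183) (nat_lit 87) (.e (nat_lit 57480) (nat_lit 28) (.e (nat_lit 557109) (nat_lit 15) (.e (nat_lit 188449) (nat_lit 22) (.e (nat_lit 196666) (nat_lit 13) (.e (nat_lit 65572) (nat_lit 4) .nil))))))) (.g (nat_lit 6) .nil .nil))))))) (.nd (nat_lit 3) (.nd (nat_lit 4) (.nd (nat_lit 5) (.nd (nat_lit 6) 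
(.lf (nat_lit 244101) (.g (nat_lit 1404) (.e (nat_lit 123183) (nat_lit 264) (.e (nat_lit 1201) (nat_lit 88) (.e (nat_lit 65610) (nat_lit 10) (.e (nat_lit 344097) (nat_lit 18) .nil)))) .nil)) 
(.lf (nat_lit 244165) (.g (nat_lit 635) (.e (nat_lit 123183) (nat_lit 264) (.e (nat_lit 1222) (nat_lit 90) (.e (nat_lit 81922) (nat_lit 0) .nil))) .nil))) (.nd (nat_lit 6) 
(.lf (nat_lit 244133) (.g (nat_lit 1667) (.e (nat_lit 123183) (nat_lit 264) (.e (nat_lit 1212) (nat_lit 89) (.e (nat_lit 73780) (nat_lit 32) (.e (nat_lit 2940) (nat_lit 184) (.e (nat_lit 426541) (nat_lit 29) (.e (nat_lit 352316) (nat_lit 24) .nil)))))) (.g (nat_lit 0) .nil .nil))) 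
(.lf (nat_lit 244197) (.g (nat_lit 2376) (.e (nat_lit 123183) (nat_lit 264) (.e (nat_lit 1223) (nat_lit 90) (.e (nat_lit 81959) (nat_lit 24) (.e (nat_lit 123195) (nat_lit 266) (.e (nat_lit 57424) (nat_lit 14) .nil))))) .nil)))) (.nd (nat_lit 5) (.nd (nat_lit 6) 
(.lf (nat_lit 244117) (.g (nat_lit 497) (.e (nat_lit 123183) (nat_lit 264) (.e (nat_lit 1201) (nat_lit 88) (.e (nat_lit 65630) (nat_lit 14) .nil))) .nil)) 
(.lf (nat_lit 244181) (.g (nat_lit 643) (.e (nat_lit 123183) (nat_lit 264) (.e (nat_lit 1222) (nat_lit 90) (.e (nat_lit 81950) (nat_lit 21) .nil))) .nil))) (.nd (nat_lit 6) 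
(.lf (nat_lit 244149) (.g (nat_lit 1630) (.e (nat_lit 123183) (nat_lit 264) (.e (nat_lit 1212) (nat_lit 89) (.e (nat_lit 73794) (nat_lit 46) (.e (nat_lit 57862) (nat_lit 256) (.e (nat_lit 317) (nat_lit 23) (.e (nat_lit 352316) (nat_lit 24) .nil)))))) (.g (nat_lit 0) .nil .nil))) 
(.lf (nat_lit 244213) (.g (nat_lit 4395) (.e (nat_lit 123184) (nat_lit 264) (.e (nat_lit 1183) (nat_lit 87) (.e (nat_lit 57479) (nat_lit 28) (.e (nat_lit 557101) (nat_lit 13) (.e (nat_lit 172097) (nat_lit 9) (.e (nat_lit 426140) (nat_lit 3) (.e (nat_lit 204855) (nat_lit 26) (.e (nat_lit 336030) (nat_lit 4) .nil)))))))) (.g (nat_lit 7) .nil .nil)))))) 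
(.nd (nat_lit 4) (.nd (nat_lit 5) (.nd (nat_lit 6) 
(.lf (nat_lit 244109) (.g (nat_lit 2066) (.e (nat_lit 123183) (nat_lit 264) (.e (nat_lit 1201) (nat_lit 88) (.e (nat_lit 65624) (nat_lit 12) (.e (nat_lit 385092) (nat_lit 49) (.e (nat_lit 778326) (nat_lit 6) (.e (nat_lit 81958) (nat_lit 24) .nil)))))) (.g (nat_lit 4) .nil .nil))) 
(.lf (nat_lit 244173) (.g (nat_lit 1120) (.e (nat_lit 123183) (nat_lit 264) (.e (nat_lit 1222) (nat_lit 90) (.e (nat_lit 81948) (nat_lit 21) (.e (nat_lit 57870) (nat_lit 264) (.e (nat_lit 1189) (nat_lit 88) .nil))))) .nil))) (.nd (nat_lit 6) 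
(.lf (nat_lit 244141) (.g (nat_lit 937) (.e (nat_lit 123183) (nat_lit 264) (.e (nat_lit 1212) (nat_lit 89) (.e (nat_lit 73782) (nat_lit 32) (.e (nat_lit 3088) (nat_lit 191) .nil)))) .nil)) 
(.lf (nat_lit 244205) (.g (nat_lit 597) (.e (nat_lit 123183) (nat_lit 264) (.e (nat_lit 1296) (nat_lit 96) (.e (nat_lit 131121) (nat_lit 12) .nil))) .nil)))) (.nd (nat_lit 5) (.nd (nat_lit 6) 
(.lf (nat_lit 244125) (.g (nat_lit 2436) (.e (nat_lit 123183) (nat_lit 264) (.e (nat_lit 1201) (nat_lit 88) (.e (nat_lit 65630) (nat_lit 14) (.e (nat_lit 401459) (nat_lit 13) (.e (nat_lit 483344) (nat_lit 17) .nil))))) .nil)) 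
(.lf (nat_lit 244189) (.g (nat_lit 2515) (.e (nat_lit 123183) (nat_lit 264) (.e (nat_lit 1222) (nat_lit 90) (.e (nat_lit 81957) (nat_lit 24) (.e (nat_lit 123185) (nat_lit 264) (.e (nat_lit 1222) (nat_lit 90) (.e (nat_lit 81957) (nat_lit 24) .nil)))))) (.g (nat_lit 0) .nil .nil)))) (.nd (nat_lit 6) 
(.lf (nat_lit 244157) (.g (nat_lit 1755) (.e (nat_lit 123183) (nat_lit 264) (.e (nat_lit 1214) (nat_lit 89) (.e (nat_lit 73792) (nat_lit 45) (.e (nat_lit 1386) (nat_lit 105) (.e (nat_lit 311358) (nat_lit 29) .nil))))) .nil)) 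
(.lf (nat_lit 244221) (.g (nat_lit 1816) (.e (nat_lit 123184) (nat_lit 264) (.e (nat_lit 1191) (nat_lit 88) (.e (nat_lit 65624) (nat_lit 12) (.e (nat_lit 385093) (nat_lit 49) (.e (nat_lit 778326) (nat_lit 6) .nil))))) .nil))))))) (.nd (nat_lit 2) (.nd (nat_lit 3) (.nd (nat_lit 4) (.nd (nat_lit 5) (.nd (nat_lit 6) 
(.lf (nat_lit 244099) (.g (nat_lit 2498) (.e (nat_lit 123183) (nat_lit 264) (.e (nat_lit 1183) (nat_lit 87) (.e (nat_lit 57480) (nat_lit 28) (.e (nat_lit 557107) (nat_lit 15) (.e (nat_lit 188450) (nat_lit 23) .nil))))) .nil)) 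
(.lf (nat_lit 244163) (.g (nat_lit 2232) (.e (nat_lit 123183) (nat_lit 264) (.e (nat_lit 1222) (nat_lit 90) (.e (nat_lit 81921) (nat_lit 0) (.e (nat_lit 3715) (nat_lit 227) (.e (nat_lit 778325) (nat_lit 6) (.e (nat_lit 81957) (nat_lit 24) .nil)))))) (.g (nat_lit 0) .nil .nil)))) (.nd (nat_lit 6) 
(.lf (nat_lit 244131) (.g (nat_lit 501) (.e (nat_lit 123183) (nat_lit 264) (.e (nat_lit 1212) (nat_lit 89) (.e (nat_lit 73779) (nat_lit 32) (.e (nat_lit 2940) (nat_lit 184) .nil)))) .nil)) 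
(.lf (nat_lit 244195) (.g (nat_lit 3041) (.e (nat_lit 123183) (nat_lit 264) (.e (nat_lit 1222) (nat_lit 90) (.e (nat_lit 81959) (nat_lit 24) (.e (nat_lit 123195) (nat_lit 266) (.e (nat_lit 57425) (nat_lit 14) .nil))))) .nil)))) (.nd (nat_lit 5) (.nd (nat_lit 6) 
(.lf (nat_lit 244115) (.g (nat_lit 2466) (.e (nat_lit 123183) (nat_lit 264) (.e (nat_lit 1201) (nat_lit 88) (.e (nat_lit 65628) (nat_lit 14) (.e (nat_lit 401437) (nat_lit 9) (.e (nat_lit 426538) (nat_lit 29) (.e (nat_lit 352318) (nat_lit 24) .nil)))))) (.g (nat_lit 4) .nil .nil))) 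
(.lf (nat_lit 244179) (.g (nat_lit 3602) (.e (nat_lit 123183) (nat_lit 264) (.e (nat_lit 1222) (nat_lit 90) (.e (nat_lit 81948) (nat_lit 21) (.e (nat_lit 57872) (nat_lit 264) (.e (nat_lit 1219) (nat_lit 90) (.e (nat_lit 81957) (nat_lit 24) .nil)))))) (.g (nat_lit 0) .nil .nil)))) (.nd (nat_lit 6) 
(.lf (nat_lit 244147) (.g (nat_lit 1857) (.e (nat_lit 123183) (nat_lit 264) (.e (nat_lit 1212) (nat_lit 89) (.e (nat_lit 73782) (nat_lit 32) (.e (nat_lit 3090) (nat_lit 191) (.e (nat_lit 483387) (nat_lit 23) (.e (nat_lit 336032) (nat_lit 4) .nil)))))) (.g (nat_lit 4) .nil .nil))) 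
(.lf (nat_lit 244211) (.g (nat_lit 2518) (.e (nat_lit 123184) (nat_lit 264) (.e (nat_lit 1183) (nat_lit 87) (.e (nat_lit 57479) (nat_lit 28) (.e (nat_lit 557095) (nat_lit 13) (.e (nat_lit 172115) (nat_lit 10) (.e (nat_lit 434231) (nat_lit 23) (.e (nat_lit 532527) (nat_lit 9) (.e (nat_lit 336032) (nat_lit 4) .nil)))))))) (.g (nat_lit 4) .nil .nil)))))) 
(.nd (nat_lit 4) (.nd (nat_lit 5) (.nd (nat_lit 6) 
(.lf (nat_lit 244107) (.g (nat_lit 1294) (.e (nat_lit 123183) (nat_lit 264) (.e (nat_lit 1201) (nat_lit 88) (.e (nat_lit 65617) (nat_lit 10) (.e (nat_lit 344169) (nat_lit 40) .nil)))) .nil)) 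
(.lf (nat_lit 244171) (.g (nat_lit 1702) (.e (nat_lit 123183) (nat_lit 264) (.e (nat_lit 1222) (nat_lit 90) (.e (nat_lit 81943) (nat_lit 20) (.e (nat_lit 2003) (nat_lit 138) (.e (nat_lit 671764) (nat_lit 6) (.e (nat_lit 81958) (nat_lit 24) .nil)))))) (.g (nat_lit 5) .nil .nil)))) (.nd (nat_lit 6) 
(.lf (nat_lit 244139) (.g (nat_lit 2616) (.e (nat_lit 123183) (nat_lit 264) (.e (nat_lit 1212) (nat_lit 89) (.e (nat_lit 73782) (nat_lit 32) (.e (nat_lit 2857) (nat_lit 184) (.e (nat_lit 426542) (nat_lit 29) (.e (nat_lit 352317) (nat_lit 24) .nil)))))) (.g (nat_lit 5) .nil .nil))) 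
(.lf (nat_lit 244203) (.g (nat_lit 666) (.e (nat_lit 123183) (nat_lit 264) (.e (nat_lit 1296) (nat_lit 96) (.e (nat_lit 131107) (nat_lit 9) .nil))) .nil)))) (.nd (nat_lit 5) (.nd (nat_lit 6) 
(.lf (nat_lit 244123) (.g (nat_lit 1757) (.e (nat_lit 123183) (nat_lit 264) (.e (nat_lit 1201) (nat_lit 88) (.e (nat_lit 65630) (nat_lit 14) (.e (nat_lit 401456) (nat_lit 13) .nil)))) .nil)) 
(.lf (nat_lit 244187) (.g (nat_lit 3259) (.e (nat_lit 123183) (nat_lit 264) (.e (nat_lit 1222) (nat_lit 90) (.e (nat_lit 81957) (nat_lit 24) (.e (nat_lit 123184) (nat_lit 264) (.e (nat_lit 1222) (nat_lit 90) (.e (nat_lit 81957) (nat_lit 24) .nil)))))) (.g (nat_lit 0) .nil .nil)))) (.nd (nat_lit 6) 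
(.lf (nat_lit 244155) (.g (nat_lit 680) (.e (nat_lit 123183) (nat_lit 264) (.e (nat_lit 1214) (nat_lit 89) (.e (nat_lit 73792) (nat_lit 45) .nil))) .nil)) 
(.lf (nat_lit 244219) (.g (nat_lit 2057) (.e (nat_lit 123184) (nat_lit 264) (.e (nat_lit 1183) (nat_lit 87) (.e (nat_lit 57520) (nat_lit 44) (.e (nat_lit 688177) (nat_lit 16) (.e (nat_lit 65583) (nat_lit 7) .nil))))) .nil)))))) (.nd (nat_lit 3) (.nd (nat_lit 4) (.nd (nat_lit 5) (.nd (nat_lit 6) 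
(.lf (nat_lit 244103) (.g (nat_lit 1494) (.e (nat_lit 123183) (nat_lit 264) (.e (nat_lit 1201) (nat_lit 88) (.e (nat_lit 65610) (nat_lit 10) (.e (nat_lit 344168) (nat_lit 40) .nil)))) .nil)) 
(.lf (nat_lit 244167) (.g (nat_lit 1618) (.e (nat_lit 123183) (nat_lit 264) (.e (nat_lit 1222) (nat_lit 90) (.e (nat_lit 81924) (nat_lit 0) (.e (nat_lit 3631) (nat_lit 227) (.e (nat_lit 778327) (nat_lit 6) (.e (nat_lit 81958) (nat_lit 24) .nil)))))) (.g (nat_lit 4) .nil .nil)))) (.nd (nat_lit 6) 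
(.lf (nat_lit 244135) (.g (nat_lit 455) (.e (nat_lit 123183) (nat_lit 264) (.e (nat_lit 1212) (nat_lit 89) (.e (nat_lit 73782) (nat_lit 32) .nil))) .nil)) 
(.lf (nat_lit 244199) (.g (nat_lit 776) (.e (nat_lit 123183) (nat_lit 264) (.e (nat_lit 1224) (nat_lit 90) (.e (nat_lit 81947) (nat_lit 20) (.e (nat_lit 2006) (nat_lit 138) .nil)))) .nil)))) (.nd (nat_lit 5) (.nd (nat_lit 6) 
(.lf (nat_lit 244119) (.g (nat_lit 1238) (.e (nat_lit 123183) (nat_lit 264) (.e (nat_lit 1201) (nat_lit 88) (.e (nat_lit 65630) (nat_lit 14) (.e (nat_lit 401437) (nat_lit 9) .nil)))) .nil)) 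
(.lf (nat_lit 244183) (.g (nat_lit 430) (.e (nat_lit 123183) (nat_lit 264) (.e (nat_lit 1222) (nat_lit 90) (.e (nat_lit 81957) (nat_lit 24) .nil))) .nil))) (.nd (nat_lit 6) 
(.lf (nat_lit 244151) (.g (nat_lit 1586) (.e (nat_lit 123183) (nat_lit 264) (.e (nat_lit 1212) (nat_lit 89) (.e (nat_lit 73795) (nat_lit 47) (.e (nat_lit 123163) (nat_lit 256) (.e (nat_lit 318) (nat_lit 23) (.e (nat_lit 352316) (nat_lit 24) .nil)))))) (.g (nat_lit 0) .nil .nil))) 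
(.lf (nat_lit 244215) (.g (nat_lit 4496) (.e (nat_lit 123184) (nat_lit 264) (.e (nat_lit 1183) (nat_lit 87) (.e (nat_lit 57480) (nat_lit 28) (.e (nat_lit 557098) (nat_lit 13) (.e (nat_lit 172097) (nat_lit 9) (.e (nat_lit 426125) (nat_lit 2) (.e (nat_lit 196666) (nat_lit 13) (.e (nat_lit 65572) (nat_lit 4) .nil)))))))) (.g (nat_lit 7) .nil .nil)))))) 
(.nd (nat_lit 4) (.nd (nat_lit 5) (.nd (nat_lit 6) 
(.lf (nat_lit 244111) (.g (nat_lit 2694) (.e (nat_lit 123183) (nat_lit 264) (.e (nat_lit 1201) (nat_lit 88) (.e (nat_lit 65624) (nat_lit 12) (.e (nat_lit 385094) (nat_lit 49) (.e (nat_lit 778326) (nat_lit 6) (.e (nat_lit 81958) (nat_lit 24) .nil)))))) (.g (nat_lit 5) .nil .nil))) 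
(.lf (nat_lit 244175) (.g (nat_lit 3256) (.e (nat_lit 123183) (nat_lit 264) (.e (nat_lit 1222) (nat_lit 90) (.e (nat_lit 81948) (nat_lit 21) (.e (nat_lit 57870) (nat_lit 264) (.e (nat_lit 1220) (nat_lit 90) (.e (nat_lit 81959) (nat_lit 24) .nil)))))) (.g (nat_lit 0) .nil .nil)))) (.nd (nat_lit 6) 
(.lf (nat_lit 244143) (.g (nat_lit 1647) (.e (nat_lit 123183) (nat_lit 264) (.e (nat_lit 1212) (nat_lit 89) (.e (nat_lit 73782) (nat_lit 32) (.e (nat_lit 3088) (nat_lit 191) (.e (nat_lit 483389) (nat_lit 23) .nil))))) .nil)) 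
(.lf (nat_lit 244207) (.g (nat_lit 492) (.e (nat_lit 123183) (nat_lit 264) (.e (nat_lit 1296) (nat_lit 96) (.e (nat_lit 131122) (nat_lit 12) .nil))) .nil)))) (.nd (nat_lit 5) (.nd (nat_lit 6) 
(.lf (nat_lit 244127) (.g (nat_lit 2616) (.e (nat_lit 123183) (nat_lit 264) (.e (nat_lit 1201) (nat_lit 88) (.e (nat_lit 65630) (nat_lit 14) (.e (nat_lit 401459) (nat_lit 13) (.e (nat_lit 483387) (nat_lit 23) .nil))))) .nil)) 
(.lf (nat_lit 244191) (.g (nat_lit 601) (.e (nat_lit 123183) (nat_lit 264) (.e (nat_lit 1222) (nat_lit 90) (.e (nat_lit 81959) (nat_lit 24) .nil))) .nil))) (.nd (nat_lit 6) 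
(.lf (nat_lit 244159) (.g (nat_lit 632) (.e (nat_lit 123183) (nat_lit 264) (.e (nat_lit 1222) (nat_lit 90) (.e (nat_lit 81920) (nat_lit 0) .nil))) .nil)) 
(.lf (nat_lit 244223) (.g (nat_lit 1757) (.e (nat_lit 123184) (nat_lit 264) (.e (nat_lit 1192) (nat_lit 88) (.e (nat_lit 65624) (nat_lit 12) (.e (nat_lit 385093) (nat_lit 49) (.e (nat_lit 778327) (nat_lit 6) .nil))))) .nil)))))))))

noncomputable def tv3180 : DT := (.nd (nat_lit 0) (.nd (nat_lit 1) (.nd (nat_lit 2) (.nd (nat_lit 3) (.nd (nat_lit 4) (.nd (nat_lit 5) (.nd (nat_lit 6) 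
(.lf (nat_lit 244224) (.g (nat_lit 1989) (.e (nat_lit 123184) (nat_lit 264) (.e (nat_lit 1193) (nat_lit 88) (.e (nat_lit 65628) (nat_lit 14) (.e (nat_lit 401437) (nat_lit 9) (.e (nat_lit 426542) (nat_lit 29) .nil))))) .nil)) 
(.lf (nat_lit 244288) (.g (nat_lit 2591) (.e (nat_lit 123184) (nat_lit 264) (.e (nat_lit 1212) (nat_lit 89) (.e (nat_lit 73782) (nat_lit 32) (.e (nat_lit 2857) (nat_lit 184) (.e (nat_lit 426542) (nat_lit 29) (.e (nat_lit 352317) (nat_lit 24) .nil)))))) (.g (nat_lit 5) .nil .nil)))) (.nd (nat_lit 6) 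
(.lf (nat_lit 244256) (.g (nat_lit 3053) (.e (nat_lit 123184) (nat_lit 264) (.e (nat_lit 1201) (nat_lit 88) (.e (nat_lit 65628) (nat_lit 14) (.e (nat_lit 401459) (nat_lit 13) (.e (nat_lit 483388) (nat_lit 23) .nil))))) .nil)) 
(.lf (nat_lit 244320) (.g (nat_lit 3101) (.e (nat_lit 123184) (nat_lit 264) (.e (nat_lit 1222) (nat_lit 90) (.e (nat_lit 81924) (nat_lit 0) (.e (nat_lit 3632) (nat_lit 227) (.e (nat_lit 778326) (nat_lit 6) (.e (nat_lit 81959) (nat_lit 24) .nil)))))) (.g (nat_lit 0) .nil .nil))))) (.nd (nat_lit 5) (.nd (nat_lit 6) 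
(.lf (nat_lit 244240) (.g (nat_lit 1284) (.e (nat_lit 123184) (nat_lit 264) (.e (nat_lit 1201) (nat_lit 88) (.e (nat_lit 65610) (nat_lit 10) (.e (nat_lit 344169) (nat_lit 40) .nil)))) .nil)) 
(.lf (nat_lit 244304) (.g (nat_lit 1822) (.e (nat_lit 123184) (nat_lit 264) (.e (nat_lit 1214) (nat_lit 89) (.e (nat_lit 73781) (nat_lit 32) (.e (nat_lit 3088) (nat_lit 191) (.e (nat_lit 483378) (nat_lit 23) (.e (nat_lit 336032) (nat_lit 4) .nil)))))) (.g (nat_lit 4) .nil .nil)))) (.nd (nat_lit 6) 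
(.lf (nat_lit 244272) (.g (nat_lit 2761) (.e (nat_lit 123184) (nat_lit 264) (.e (nat_lit 1201) (nat_lit 88) (.e (nat_lit 65630) (nat_lit 14) (.e (nat_lit 401457) (nat_lit 13) (.e (nat_lit 483346) (nat_lit 17) .nil))))) .nil)) 
(.lf (nat_lit 244336) (.g (nat_lit 1616) (.e (nat_lit 123184) (nat_lit 264) (.e (nat_lit 1222) (nat_lit 90) (.e (nat_lit 81948) (nat_lit 21) (.e (nat_lit 57873) (nat_lit 264) (.e (nat_lit 993) (nat_lit 81) .nil))))) .nil))))) (.nd (nat_lit 4) (.nd (nat_lit 5) (.nd (nat_lit 6) 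
(.lf (nat_lit 244232) (.g (nat_lit 1985) (.e (nat_lit 123184) (nat_lit 264) (.e (nat_lit 1201) (nat_lit 88) (.e (nat_lit 65610) (nat_lit 10) (.e (nat_lit 344097) (nat_lit 18) (.e (nat_lit 5907) (nat_lit 320) (.e (nat_lit 993) (nat_lit 81) (.e (nat_lit 1567) (nat_lit 110) (.e (nat_lit 352318) (nat_lit 24) .nil)))))))) (.g (nat_lit 4) .nil .nil))) 
(.lf (nat_lit 244296) (.g (nat_lit 2091) (.e (nat_lit 123184) (nat_lit 264) (.e (nat_lit 1212) (nat_lit 89) (.e (nat_lit 73782) (nat_lit 32) (.e (nat_lit 3090) (nat_lit 191) (.e (nat_lit 483388) (nat_lit 23) (.e (nat_lit 336032) (nat_lit 4) .nil)))))) (.g (nat_lit 4) .nil .nil)))) (.nd (nat_lit 6) 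
(.lf (nat_lit 244264) (.g (nat_lit 1873) (.e (nat_lit 123184) (nat_lit 264) (.e (nat_lit 1201) (nat_lit 88) (.e (nat_lit 65630) (nat_lit 14) (.e (nat_lit 401436) (nat_lit 9) (.e (nat_lit 426553) (nat_lit 32) .nil))))) .nil)) 
(.lf (nat_lit 244328) (.g (nat_lit 1222) (.e (nat_lit 123184) (nat_lit 264) (.e (nat_lit 1222) (nat_lit 90) (.e (nat_lit 81938) (nat_lit 20) (.e (nat_lit 2006) (nat_lit 138) .nil)))) .nil)))) (.nd (nat_lit 5) (.nd (nat_lit 6) 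
(.lf (nat_lit 244248) (.g (nat_lit 2128) (.e (nat_lit 123184) (nat_lit 264) (.e (nat_lit 1201) (nat_lit 88) (.e (nat_lit 65624) (nat_lit 12) (.e (nat_lit 385106) (nat_lit 50) (.e (nat_lit 786479) (nat_lit 29) .nil))))) .nil)) 
(.lf (nat_lit 244312) (.g (nat_lit 1840) (.e (nat_lit 123184) (nat_lit 264) (.e (nat_lit 1214) (nat_lit 89) (.e (nat_lit 73781) (nat_lit 32) (.e (nat_lit 3090) (nat_lit 191) (.e (nat_lit 483389) (nat_lit 23) .nil))))) .nil))) (.nd (nat_lit 6) 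
(.lf (nat_lit 244280) (.g (nat_lit 3499) (.e (nat_lit 123184) (nat_lit 264) (.e (nat_lit 1201) (nat_lit 88) (.e (nat_lit 65630) (nat_lit 14) (.e (nat_lit 401459) (nat_lit 13) (.e (nat_lit 483387) (nat_lit 23) (.e (nat_lit 336032) (nat_lit 4) .nil)))))) (.g (nat_lit 5) .nil .nil))) 
(.lf (nat_lit 244344) (.g (nat_lit 2353) (.e (nat_lit 123184) (nat_lit 264) (.e (nat_lit 1222) (nat_lit 90) (.e (nat_lit 81957) (nat_lit 24) (.e (nat_lit 123182) (nat_lit 264) (.e (nat_lit 1218) (nat_lit 90) (.e (nat_lit 81959) (nat_lit 24) .nil)))))) (.g (nat_lit 4) .nil .nil))))))) (.nd (nat_lit 3) (.nd (nat_lit 4) (.nd (nat_lit 5) (.nd (nat_lit 6) 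
(.lf (nat_lit 244228) (.g (nat_lit 1819) (.e (nat_lit 123184) (nat_lit 264) (.e (nat_lit 1201) (nat_lit 88) (.e (nat_lit 65610) (nat_lit 10) (.e (nat_lit 344097) (nat_lit 18) (.e (nat_lit 5906) (nat_lit 320) (.e (nat_lit 1190) (nat_lit 88) (.e (nat_lit 65595) (nat_lit 9) (.e (nat_lit 336032) (nat_lit 4) .nil)))))))) (.g (nat_lit 4) .nil .nil))) 
(.lf (nat_lit 244292) (.g (nat_lit 2129) (.e (nat_lit 123184) (nat_lit 264) (.e (nat_lit 1212) (nat_lit 89) (.e (nat_lit 73782) (nat_lit 32) (.e (nat_lit 3089) (nat_lit 191) (.e (nat_lit 483378) (nat_lit 23) (.e (nat_lit 336032) (nat_lit 4) .nil)))))) (.g (nat_lit 5) .nil .nil)))) (.nd (nat_lit 6) 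
(.lf (nat_lit 244260) (.g (nat_lit 447) (.e (nat_lit 123184) (nat_lit 264) (.e (nat_lit 1201) (nat_lit 88) (.e (nat_lit 65630) (nat_lit 14) .nil))) .nil)) 
(.lf (nat_lit 244324) (.g (nat_lit 889) (.e (nat_lit 123184) (nat_lit 264) (.e (nat_lit 1222) (nat_lit 90) (.e (nat_lit 81931) (nat_lit 20) (.e (nat_lit 1999) (nat_lit 137) .nil)))) .nil)))) (.nd (nat_lit 5) (.nd (nat_lit 6) 
(.lf (nat_lit 244244) (.g (nat_lit 801) (.e (nat_lit 123184) (nat_lit 264) (.e (nat_lit 1201) (nat_lit 88) (.e (nat_lit 65619) (nat_lit 10) .nil))) .nil)) 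
(.lf (nat_lit 244308) (.g (nat_lit 1636) (.e (nat_lit 123184) (nat_lit 264) (.e (nat_lit 1214) (nat_lit 89) (.e (nat_lit 73781) (nat_lit 32) (.e (nat_lit 3089) (nat_lit 191) (.e (nat_lit 483388) (nat_lit 23) .nil))))) .nil))) (.nd (nat_lit 6) 
(.lf (nat_lit 244276) (.g (nat_lit 2438) (.e (nat_lit 123184) (nat_lit 264) (.e (nat_lit 1201) (nat_lit 88) (.e (nat_lit 65630) (nat_lit 14) (.e (nat_lit 401459) (nat_lit 13) (.e (nat_lit 483344) (nat_lit 17) .nil))))) .nil)) 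
(.lf (nat_lit 244340) (.g (nat_lit 2668) (.e (nat_lit 123184) (nat_lit 264) (.e (nat_lit 1222) (nat_lit 90) (.e (nat_lit 81948) (nat_lit 21) (.e (nat_lit 57873) (nat_lit 264) (.e (nat_lit 1221) (nat_lit 90) (.e (nat_lit 81958) (nat_lit 24) .nil)))))) (.g (nat_lit 5) .nil .nil)))))) (.nd (nat_lit 4) (.nd (nat_lit 5) (.nd (nat_lit 6) 
(.lf (nat_lit 244236) (.g (nat_lit 1946) (.e (nat_lit 123184) (nat_lit 264) (.e (nat_lit 1201) (nat_lit 88) (.e (nat_lit 65610) (nat_lit 10) (.e (nat_lit 344168) (nat_lit 40) (.e (nat_lit 671747) (nat_lit 0) .nil))))) .nil)) 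
(.lf (nat_lit 244300) (.g (nat_lit 396) (.e (nat_lit 123184) (nat_lit 264) (.e (nat_lit 1212) (nat_lit 89) (.e (nat_lit 73787) (nat_lit 45) .nil))) .nil))) (.nd (nat_lit 6) 
(.lf (nat_lit 244268) (.g (nat_lit 2910) (.e (nat_lit 123184) (nat_lit 264) (.e (nat_lit 1201) (nat_lit 88) (.e (nat_lit 65630) (nat_lit 14) (.e (nat_lit 401438) (nat_lit 9) (.e (nat_lit 426542) (nat_lit 29) (.e (nat_lit 352317) (nat_lit 24) .nil)))))) (.g (nat_lit 5) .nil .nil))) 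
(.lf (nat_lit 244332) (.g (nat_lit 1193) (.e (nat_lit 123184) (nat_lit 264) (.e (nat_lit 1222) (nat_lit 90) (.e (nat_lit 81948) (nat_lit 21) (.e (nat_lit 57870) (nat_lit 264) (.e (nat_lit 1190) (nat_lit 88) .nil))))) .nil)))) (.nd (nat_lit 5) (.nd (nat_lit 6) 
(.lf (nat_lit 244252) (.g (nat_lit 2286) (.e (nat_lit 123184) (nat_lit 264) (.e (nat_lit 1201) (nat_lit 88) (.e (nat_lit 65628) (nat_lit 14) (.e (nat_lit 401457) (nat_lit 13) (.e (nat_lit 483378) (nat_lit 23) .nil))))) .nil)) 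
(.lf (nat_lit 244316) (.g (nat_lit 413) (.e (nat_lit 123184) (nat_lit 264) (.e (nat_lit 1222) (nat_lit 90) (.e (nat_lit 81921) (nat_lit 0) .nil))) .nil))) (.nd (nat_lit 6) 
(.lf (nat_lit 244284) (.g (nat_lit 515) (.e (nat_lit 123184) (nat_lit 264) (.e (nat_lit 1212) (nat_lit 89) (.e (nat_lit 73779) (nat_lit 32) (.e (nat_lit 2936) (nat_lit 184) .nil)))) .nil)) 
(.lf (nat_lit 244348) (.g (nat_lit 606) (.e (nat_lit 123184) (nat_lit 264) (.e (nat_lit 1222) (nat_lit 90) (.e (nat_lit 81959) (nat_lit 24) .nil))) .nil))))))) (.nd (nat_lit 2) (.nd (nat_lit 3) (.nd (nat_lit 4) (.nd (nat_lit 5) (.nd (nat_lit 6) 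
(.lf (nat_lit 244226) (.g (nat_lit 369) (.e (nat_lit 123184) (nat_lit 264) (.e (nat_lit 1201) (nat_lit 88) (.e (nat_lit 65610) (nat_lit 10) .nil))) .nil)) 
(.lf (nat_lit 244290) (.g (nat_lit 1917) (.e (nat_lit 123184) (nat_lit 264) (.e (nat_lit 1212) (nat_lit 89) (.e (nat_lit 73782) (nat_lit 32) (.e (nat_lit 3088) (nat_lit 191) (.e (nat_lit 483389) (nat_lit 23) (.e (nat_lit 336032) (nat_lit 4) .nil)))))) (.g (nat_lit 4) .nil .nil)))) (.nd (nat_lit 6) 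
(.lf (nat_lit 244258) (.g (nat_lit 2734) (.e (nat_lit 123184) (nat_lit 264) (.e (nat_lit 1201) (nat_lit 88) (.e (nat_lit 65629) (nat_lit 14) (.e (nat_lit 401459) (nat_lit 13) (.e (nat_lit 483344) (nat_lit 17) .nil))))) .nil)) 
(.lf (nat_lit 244322) (.g (nat_lit 3123) (.e (nat_lit 123184) (nat_lit 264) (.e (nat_lit 1222) (nat_lit 90) (.e (nat_lit 81924) (nat_lit 0) (.e (nat_lit 3632) (nat_lit 227) (.e (nat_lit 778327) (nat_lit 6) (.e (nat_lit 81959) (nat_lit 24) .nil)))))) (.g (nat_lit 0) .nil .nil))))) (.nd (nat_lit 5) (.nd (nat_lit 6) 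
(.lf (nat_lit 244242) (.g (nat_lit 1214) (.e (nat_lit 123184) (nat_lit 264) (.e (nat_lit 1201) (nat_lit 88) (.e (nat_lit 65617) (nat_lit 10) (.e (nat_lit 344169) (nat_lit 40) .nil)))) .nil)) 
(.lf (nat_lit 244306) (.g (nat_lit 1530) (.e (nat_lit 123184) (nat_lit 264) (.e (nat_lit 1214) (nat_lit 89) (.e (nat_lit 73781) (nat_lit 32) (.e (nat_lit 3088) (nat_lit 191) (.e (nat_lit 483390) (nat_lit 23) .nil))))) .nil))) (.nd (nat_lit 6) 
(.lf (nat_lit 244274) (.g (nat_lit 1989) (.e (nat_lit 123184) (nat_lit 264) (.e (nat_lit 1201) (nat_lit 88) (.e (nat_lit 65630) (nat_lit 14) (.e (nat_lit 401458) (nat_lit 13) (.e (nat_lit 483386) (nat_lit 23) .nil))))) .nil)) 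
(.lf (nat_lit 244338) (.g (nat_lit 1642) (.e (nat_lit 123184) (nat_lit 264) (.e (nat_lit 1222) (nat_lit 90) (.e (nat_lit 81948) (nat_lit 21) (.e (nat_lit 57873) (nat_lit 264) (.e (nat_lit 1218) (nat_lit 90) .nil))))) .nil))))) (.nd (nat_lit 4) (.nd (nat_lit 5) (.nd (nat_lit 6) 
(.lf (nat_lit 244234) (.g (nat_lit 3616) (.e (nat_lit 123184) (nat_lit 264) (.e (nat_lit 1201) (nat_lit 88) (.e (nat_lit 65610) (nat_lit 10) (.e (nat_lit 344097) (nat_lit 18) (.e (nat_lit 5907) (nat_lit 320) (.e (nat_lit 1219) (nat_lit 90) (.e (nat_lit 81958) (nat_lit 24) .nil))))))) (.g (nat_lit 6) .nil .nil))) 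
(.lf (nat_lit 244298) (.g (nat_lit 491) (.e (nat_lit 123184) (nat_lit 264) (.e (nat_lit 1212) (nat_lit 89) (.e (nat_lit 81664) (nat_lit 32) .nil))) .nil))) (.nd (nat_lit 6) 
(.lf (nat_lit 244266) (.g (nat_lit 3534) (.e (nat_lit 123184) (nat_lit 264) (.e (nat_lit 1201) (nat_lit 88) (.e (nat_lit 65630) (nat_lit 14) (.e (nat_lit 401437) (nat_lit 9) (.e (nat_lit 426542) (nat_lit 29) (.e (nat_lit 352317) (nat_lit 24) .nil)))))) (.g (nat_lit 5) .nil .nil))) 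
(.lf (nat_lit 244330) (.g (nat_lit 3137) (.e (nat_lit 123184) (nat_lit 264) (.e (nat_lit 1222) (nat_lit 90) (.e (nat_lit 81943) (nat_lit 20) (.e (nat_lit 2006) (nat_lit 138) (.e (nat_lit 671764) (nat_lit 6) (.e (nat_lit 81959) (nat_lit 24) .nil)))))) (.g (nat_lit 0) .nil .nil))))) (.nd (nat_lit 5) (.nd (nat_lit 6) 
(.lf (nat_lit 244250) (.g (nat_lit 2065) (.e (nat_lit 123184) (nat_lit 264) (.e (nat_lit 1201) (nat_lit 88) (.e (nat_lit 65628) (nat_lit 14) (.e (nat_lit 401438) (nat_lit 9) (.e (nat_lit 426538) (nat_lit 29) .nil))))) .nil)) 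
(.lf (nat_lit 244314) (.g (nat_lit 421) (.e (nat_lit 123184) (nat_lit 264) (.e (nat_lit 1214) (nat_lit 89) (.e (nat_lit 81664) (nat_lit 39) .nil))) .nil))) (.nd (nat_lit 6) 
(.lf (nat_lit 244282) (.g (nat_lit 3658) (.e (nat_lit 123184) (nat_lit 264) (.e (nat_lit 1201) (nat_lit 88) (.e (nat_lit 65630) (nat_lit 14) (.e (nat_lit 401459) (nat_lit 13) (.e (nat_lit 483389) (nat_lit 23) (.e (nat_lit 336032) (nat_lit 4) .nil)))))) (.g (nat_lit 4) .nil .nil))) 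
(.lf (nat_lit 244346) (.g (nat_lit 1915) (.e (nat_lit 123184) (nat_lit 264) (.e (nat_lit 1222) (nat_lit 90) (.e (nat_lit 81957) (nat_lit 24) (.e (nat_lit 123182) (nat_lit 264) (.e (nat_lit 7936) (nat_lit 90) .nil))))) .nil)))))) (.nd (nat_lit 3) (.nd (nat_lit 4) (.nd (nat_lit 5) (.nd (nat_lit 6) 
(.lf (nat_lit 244230) (.g (nat_lit 2676) (.e (nat_lit 123184) (nat_lit 264) (.e (nat_lit 1201) (nat_lit 88) (.e (nat_lit 65610) (nat_lit 10) (.e (nat_lit 344097) (nat_lit 18) (.e (nat_lit 5906) (nat_lit 320) (.e (nat_lit 7936) (nat_lit 90) (.e (nat_lit 81959) (nat_lit 24) .nil))))))) (.g (nat_lit 5) .nil .nil))) 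
(.lf (nat_lit 244294) (.g (nat_lit 1586) (.e (nat_lit 123184) (nat_lit 264) (.e (nat_lit 1212) (nat_lit 89) (.e (nat_lit 73782) (nat_lit 32) (.e (nat_lit 3089) (nat_lit 191) (.e (nat_lit 483388) (nat_lit 23) .nil))))) .nil))) (.nd (nat_lit 6) 
(.lf (nat_lit 244262) (.g (nat_lit 1262) (.e (nat_lit 123184) (nat_lit 264) (.e (nat_lit 1201) (nat_lit 88) (.e (nat_lit 65630) (nat_lit 14) (.e (nat_lit 401436) (nat_lit 9) .nil)))) .nil)) 
(.lf (nat_lit 244326) (.g (nat_lit 404) (.e (nat_lit 123184) (nat_lit 264) (.e (nat_lit 1222) (nat_lit 90) (.e (nat_lit 81935) (nat_lit 20) .nil))) .nil)))) (.nd (nat_lit 5) (.nd (nat_lit 6) 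
(.lf (nat_lit 244246) (.g (nat_lit 1049) (.e (nat_lit 123184) (nat_lit 264) (.e (nat_lit 1201) (nat_lit 88) (.e (nat_lit 65622) (nat_lit 12) (.e (nat_lit 385106) (nat_lit 50) .nil)))) .nil)) 
(.lf (nat_lit 244310) (.g (nat_lit 2408) (.e (nat_lit 123184) (nat_lit 264) (.e (nat_lit 1214) (nat_lit 89) (.e (nat_lit 73781) (nat_lit 32) (.e (nat_lit 3090) (nat_lit 191) (.e (nat_lit 483378) (nat_lit 23) (.e (nat_lit 336032) (nat_lit 4) .nil)))))) (.g (nat_lit 5) .nil .nil)))) (.nd (nat_lit 6) 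
(.lf (nat_lit 244278) (.g (nat_lit 3454) (.e (nat_lit 123184) (nat_lit 264) (.e (nat_lit 1201) (nat_lit 88) (.e (nat_lit 65630) (nat_lit 14) (.e (nat_lit 401459) (nat_lit 13) (.e (nat_lit 483378) (nat_lit 23) (.e (nat_lit 336032) (nat_lit 4) .nil)))))) (.g (nat_lit 6) .nil .nil))) 
(.lf (nat_lit 244342) (.g (nat_lit 418) (.e (nat_lit 123184) (nat_lit 264) (.e (nat_lit 1222) (nat_lit 90) (.e (nat_lit 81957) (nat_lit 24) .nil))) .nil))))) (.nd (nat_lit 4) (.nd (nat_lit 5) (.nd (nat_lit 6) 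
(.lf (nat_lit 244238) (.g (nat_lit 1837) (.e (nat_lit 123184) (nat_lit 264) (.e (nat_lit 1201) (nat_lit 88) (.e (nat_lit 65610) (nat_lit 10) (.e (nat_lit 344168) (nat_lit 40) (.e (nat_lit 671762) (nat_lit 4) .nil))))) .nil)) 
(.lf (nat_lit 244302) (.g (nat_lit 3258) (.e (nat_lit 123184) (nat_lit 264) (.e (nat_lit 1214) (nat_lit 89) (.e (nat_lit 73781) (nat_lit 32) (.e (nat_lit 2856) (nat_lit 184) (.e (nat_lit 426542) (nat_lit 29) (.e (nat_lit 352317) (nat_lit 24) .nil)))))) (.g (nat_lit 5) .nil .nil)))) (.nd (nat_lit 6) 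
(.lf (nat_lit 244270) (.g (nat_lit 2869) (.e (nat_lit 123184) (nat_lit 264) (.e (nat_lit 1201) (nat_lit 88) (.e (nat_lit 65630) (nat_lit 14) (.e (nat_lit 401456) (nat_lit 13) (.e (nat_lit 483378) (nat_lit 23) .nil))))) .nil)) 
(.lf (nat_lit 244334) (.g (nat_lit 1994) (.e (nat_lit 123184) (nat_lit 264) (.e (nat_lit 1222) (nat_lit 90) (.e (nat_lit 81948) (nat_lit 21) (.e (nat_lit 57872) (nat_lit 264) (.e (nat_lit 1219) (nat_lit 90) (.e (nat_lit 81958) (nat_lit 24) .nil)))))) (.g (nat_lit 4) .nil .nil))))) (.nd (nat_lit 5) (.nd (nat_lit 6) 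
(.lf (nat_lit 244254) (.g (nat_lit 2200) (.e (nat_lit 123184) (nat_lit 264) (.e (nat_lit 1201) (nat_lit 88) (.e (nat_lit 65628) (nat_lit 14) (.e (nat_lit 401458) (nat_lit 13) (.e (nat_lit 483387) (nat_lit 23) (.e (nat_lit 336032) (nat_lit 4) .nil)))))) (.g (nat_lit 4) .nil .nil))) 
(.lf (nat_lit 244318) (.g (nat_lit 732) (.e (nat_lit 123184) (nat_lit 264) (.e (nat_lit 1222) (nat_lit 90) (.e (nat_lit 81921) (nat_lit 0) (.e (nat_lit 3716) (nat_lit 227) .nil)))) .nil))) (.nd (nat_lit 6) 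
(.lf (nat_lit 244286) (.g (nat_lit 935) (.e (nat_lit 123184) (nat_lit 264) (.e (nat_lit 1212) (nat_lit 89) (.e (nat_lit 73781) (nat_lit 32) (.e (nat_lit 2855) (nat_lit 184) .nil)))) .nil)) 
(.lf (nat_lit 244350) (.g (nat_lit 2998) (.e (nat_lit 123184) (nat_lit 264) (.e (nat_lit 1222) (nat_lit 90) (.e (nat_lit 81959) (nat_lit 24) (.e (nat_lit 123182) (nat_lit 264) (.e (nat_lit 7936) (nat_lit 90) .nil))))) .nil)))))))) (.nd (nat_lit 1) (.nd (nat_lit 2) (.nd (nat_lit 3) (.nd (nat_lit 4) (.nd (nat_lit 5) (.nd (nat_lit 6) 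
(.lf (nat_lit 244225) (.g (nat_lit 1004) (.e (nat_lit 123184) (nat_lit 264) (.e (nat_lit 1201) (nat_lit 88) (.e (nat_lit 65583) (nat_lit 7) (.e (nat_lit 319530) (nat_lit 16) .nil)))) .nil)) 
(.lf (nat_lit 244289) (.g (nat_lit 1998) (.e (nat_lit 123184) (nat_lit 264) (.e (nat_lit 1212) (nat_lit 89) (.e (nat_lit 73782) (nat_lit 32) (.e (nat_lit 3088) (nat_lit 191) (.e (nat_lit 483378) (nat_lit 23) (.e (nat_lit 336032) (nat_lit 4) .nil)))))) (.g (nat_lit 4) .nil .nil)))) (.nd (nat_lit 6) 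
(.lf (nat_lit 244257) (.g (nat_lit 2919) (.e (nat_lit 123184) (nat_lit 264) (.e (nat_lit 1201) (nat_lit 88) (.e (nat_lit 65628) (nat_lit 14) (.e (nat_lit 401459) (nat_lit 13) (.e (nat_lit 483389) (nat_lit 23) .nil))))) .nil)) 
(.lf (nat_lit 244321) (.g (nat_lit 1871) (.e (nat_lit 123184) (nat_lit 264) (.e (nat_lit 1222) (nat_lit 90) (.e (nat_lit 81924) (nat_lit 0) (.e (nat_lit 3632) (nat_lit 227) (.e (nat_lit 778327) (nat_lit 6) (.e (nat_lit 81958) (nat_lit 24) .nil)))))) (.g (nat_lit 4) .nil .nil))))) (.nd (nat_lit 5) (.nd (nat_lit 6) 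
(.lf (nat_lit 244241) (.g (nat_lit 2013) (.e (nat_lit 123184) (nat_lit 264) (.e (nat_lit 1201) (nat_lit 88) (.e (nat_lit 65610) (nat_lit 10) (.e (nat_lit 344169) (nat_lit 40) (.e (nat_lit 671747) (nat_lit 0) .nil))))) .nil)) 
(.lf (nat_lit 244305) (.g (nat_lit 1756) (.e (nat_lit 123184) (nat_lit 264) (.e (nat_lit 1214) (nat_lit 89) (.e (nat_lit 73781) (nat_lit 32) (.e (nat_lit 3088) (nat_lit 191) (.e (nat_lit 483389) (nat_lit 23) (.e (nat_lit 336032) (nat_lit 4) .nil)))))) (.g (nat_lit 4) .nil .nil)))) (.nd (nat_lit 6) 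
(.lf (nat_lit 244273) (.g (nat_lit 2367) (.e (nat_lit 123184) (nat_lit 264) (.e (nat_lit 1201) (nat_lit 88) (.e (nat_lit 65630) (nat_lit 14) (.e (nat_lit 401457) (nat_lit 13) (.e (nat_lit 483389) (nat_lit 23) .nil))))) .nil)) 
(.lf (nat_lit 244337) (.g (nat_lit 1916) (.e (nat_lit 123184) (nat_lit 264) (.e (nat_lit 1222) (nat_lit 90) (.e (nat_lit 81948) (nat_lit 21) (.e (nat_lit 57873) (nat_lit 264) (.e (nat_lit 1190) (nat_lit 88) (.e (nat_lit 65595) (nat_lit 9) (.e (nat_lit 336032) (nat_lit 4) .nil))))))) (.g (nat_lit 4) .nil .nil)))))) (.nd (nat_lit 4) (.nd (nat_lit 5) (.nd (nat_lit 6) 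
(.lf (nat_lit 244233) (.g (nat_lit 2715) (.e (nat_lit 123184) (nat_lit 264) (.e (nat_lit 1201) (nat_lit 88) (.e (nat_lit 65610) (nat_lit 10) (.e (nat_lit 344097) (nat_lit 18) (.e (nat_lit 5907) (nat_lit 320) (.e (nat_lit 1190) (nat_lit 88) (.e (nat_lit 65595) (nat_lit 9) (.e (nat_lit 336032) (nat_lit 4) .nil)))))))) (.g (nat_lit 5) .nil .nil))) 
(.lf (nat_lit 244297) (.g (nat_lit 1779) (.e (nat_lit 123184) (nat_lit 264) (.e (nat_lit 1212) (nat_lit 89) (.e (nat_lit 73782) (nat_lit 32) (.e (nat_lit 3090) (nat_lit 191) (.e (nat_lit 483389) (nat_lit 23) .nil))))) .nil))) (.nd (nat_lit 6) 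
(.lf (nat_lit 244265) (.g (nat_lit 1229) (.e (nat_lit 123184) (nat_lit 264) (.e (nat_lit 1201) (nat_lit 88) (.e (nat_lit 65630) (nat_lit 14) (.e (nat_lit 401437) (nat_lit 9) .nil)))) .nil)) 
(.lf (nat_lit 244329) (.g (nat_lit 354) (.e (nat_lit 123184) (nat_lit 264) (.e (nat_lit 1222) (nat_lit 90) (.e (nat_lit 81943) (nat_lit 20) .nil))) .nil)))) (.nd (nat_lit 5) (.nd (nat_lit 6) 
(.lf (nat_lit 244249) (.g (nat_lit 579) (.e (nat_lit 123184) (nat_lit 264) (.e (nat_lit 1201) (nat_lit 88) (.e (nat_lit 65628) (nat_lit 14) .nil))) .nil)) 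
(.lf (nat_lit 244313) (.g (nat_lit 421) (.e (nat_lit 123184) (nat_lit 264) (.e (nat_lit 1214) (nat_lit 89) (.e (nat_lit 81664) (nat_lit 37) .nil))) .nil))) (.nd (nat_lit 6) 
(.lf (nat_lit 244281) (.g (nat_lit 3809) (.e (nat_lit 123184) (nat_lit 264) (.e (nat_lit 1201) (nat_lit 88) (.e (nat_lit 65630) (nat_lit 14) (.e (nat_lit 401459) (nat_lit 13) (.e (nat_lit 483388) (nat_lit 23) (.e (nat_lit 336032) (nat_lit 4) .nil)))))) (.g (nat_lit 4) .nil .nil))) 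
(.lf (nat_lit 244345) (.g (nat_lit 2034) (.e (nat_lit 123184) (nat_lit 264) (.e (nat_lit 1222) (nat_lit 90) (.e (nat_lit 81957) (nat_lit 24) (.e (nat_lit 123182) (nat_lit 264) (.e (nat_lit 1223) (nat_lit 90) .nil))))) .nil)))))) (.nd (nat_lit 3) (.nd (nat_lit 4) (.nd (nat_lit 5) (.nd (nat_lit 6) 
(.lf (nat_lit 244229) (.g (nat_lit 2186) (.e (nat_lit 123184) (nat_lit 264) (.e (nat_lit 1201) (nat_lit 88) (.e (nat_lit 65610) (nat_lit 10) (.e (nat_lit 344097) (nat_lit 18) (.e (nat_lit 5906) (nat_lit 320) (.e (nat_lit 1219) (nat_lit 90) (.e (nat_lit 81958) (nat_lit 24) .nil))))))) (.g (nat_lit 4) .nil .nil))) 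
(.lf (nat_lit 244293) (.g (nat_lit 2024) (.e (nat_lit 123184) (nat_lit 264) (.e (nat_lit 1212) (nat_lit 89) (.e (nat_lit 73782) (nat_lit 32) (.e (nat_lit 3089) (nat_lit 191) (.e (nat_lit 483387) (nat_lit 23) (.e (nat_lit 336032) (nat_lit 4) .nil)))))) (.g (nat_lit 4) .nil .nil)))) (.nd (nat_lit 6) 
(.lf (nat_lit 244261) (.g (nat_lit 2908) (.e (nat_lit 123184) (nat_lit 264) (.e (nat_lit 1201) (nat_lit 88) (.e (nat_lit 65630) (nat_lit 14) (.e (nat_lit 401435) (nat_lit 9) (.e (nat_lit 426538) (nat_lit 29) .nil))))) .nil)) 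
(.lf (nat_lit 244325) (.g (nat_lit 640) (.e (nat_lit 123184) (nat_lit 264) (.e (nat_lit 1222) (nat_lit 90) (.e (nat_lit 81934) (nat_lit 20) .nil))) .nil)))) (.nd (nat_lit 5) (.nd (nat_lit 6) 
(.lf (nat_lit 244245) (.g (nat_lit 1842) (.e (nat_lit 123184) (nat_lit 264) (.e (nat_lit 1201) (nat_lit 88) (.e (nat_lit 65622) (nat_lit 12) (.e (nat_lit 385105) (nat_lit 50) (.e (nat_lit 786478) (nat_lit 29) .nil))))) .nil)) 
(.lf (nat_lit 244309) (.g (nat_lit 1934) (.e (nat_lit 123184) (nat_lit 264) (.e (nat_lit 1214) (nat_lit 89) (.e (nat_lit 73781) (nat_lit 32) (.e (nat_lit 3089) (nat_lit 191) (.e (nat_lit 483389) (nat_lit 23) (.e (nat_lit 336032) (nat_lit 4) .nil)))))) (.g (nat_lit 4) .nil .nil)))) (.nd (nat_lit 6) 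
(.lf (nat_lit 244277) (.g (nat_lit 2569) (.e (nat_lit 123184) (nat_lit 264) (.e (nat_lit 1201) (nat_lit 88) (.e (nat_lit 65630) (nat_lit 14) (.e (nat_lit 401459) (nat_lit 13) (.e (nat_lit 483350) (nat_lit 17) .nil))))) .nil)) 
(.lf (nat_lit 244341) (.g (nat_lit 2298) (.e (nat_lit 123184) (nat_lit 264) (.e (nat_lit 1222) (nat_lit 90) (.e (nat_lit 81948) (nat_lit 21) (.e (nat_lit 57873) (nat_lit 264) (.e (nat_lit 7936) (nat_lit 90) (.e (nat_lit 81959) (nat_lit 24) .nil)))))) (.g (nat_lit 4) .nil .nil)))))) (.nd (nat_lit 4) (.nd (nat_lit 5) (.nd (nat_lit 6) 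
(.lf (nat_lit 244237) (.g (nat_lit 1933) (.e (nat_lit 123184) (nat_lit 264) (.e (nat_lit 1201) (nat_lit 88) (.e (nat_lit 65610) (nat_lit 10) (.e (nat_lit 344168) (nat_lit 40) (.e (nat_lit 671748) (nat_lit 0) .nil))))) .nil)) 
(.lf (nat_lit 244301) (.g (nat_lit 428) (.e (nat_lit 123184) (nat_lit 264) (.e (nat_lit 1214) (nat_lit 89) (.e (nat_lit 73781) (nat_lit 32) .nil))) .nil))) (.nd (nat_lit 6) 
(.lf (nat_lit 244269) (.g (nat_lit 1753) (.e (nat_lit 123184) (nat_lit 264) (.e (nat_lit 1201) (nat_lit 88) (.e (nat_lit 65630) (nat_lit 14) (.e (nat_lit 401456) (nat_lit 13) .nil)))) .nil)) 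
(.lf (nat_lit 244333) (.g (nat_lit 1507) (.e (nat_lit 123184) (nat_lit 264) (.e (nat_lit 1222) (nat_lit 90) (.e (nat_lit 81948) (nat_lit 21) (.e (nat_lit 57872) (nat_lit 264) (.e (nat_lit 1190) (nat_lit 88) .nil))))) .nil)))) (.nd (nat_lit 5) (.nd (nat_lit 6) 
(.lf (nat_lit 244253) (.g (nat_lit 2260) (.e (nat_lit 123184) (nat_lit 264) (.e (nat_lit 1201) (nat_lit 88) (.e (nat_lit 65628) (nat_lit 14) (.e (nat_lit 401457) (nat_lit 13) (.e (nat_lit 483389) (nat_lit 23) .nil))))) .nil)) 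
(.lf (nat_lit 244317) (.g (nat_lit 777) (.e (nat_lit 123184) (nat_lit 264) (.e (nat_lit 1222) (nat_lit 90) (.e (nat_lit 81921) (nat_lit 0) (.e (nat_lit 3715) (nat_lit 227) .nil)))) .nil))) (.nd (nat_lit 6) 
(.lf (nat_lit 244285) (.g (nat_lit 427) (.e (nat_lit 123184) (nat_lit 264) (.e (nat_lit 1212) (nat_lit 89) (.e (nat_lit 73781) (nat_lit 32) .nil))) .nil)) 
(.lf (nat_lit 244349) (.g (nat_lit 4098) (.e (nat_lit 123184) (nat_lit 264) (.e (nat_lit 1222) (nat_lit 90) (.e (nat_lit 81959) (nat_lit 24) (.e (nat_lit 123182) (nat_lit 264) (.e (nat_lit 1222) (nat_lit 90) (.e (nat_lit 81957) (nat_lit 24) .nil)))))) (.g (nat_lit 5) .nil .nil)))))))) (.nd (nat_lit 2) (.nd (nat_lit 3) (.nd (nat_lit 4) (.nd (nat_lit 5) (.nd (nat_lit 6) 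
(.lf (nat_lit 244227) (.g (nat_lit 1709) (.e (nat_lit 123184) (nat_lit 264) (.e (nat_lit 1201) (nat_lit 88) (.e (nat_lit 65610) (nat_lit 10) (.e (nat_lit 344097) (nat_lit 18) (.e (nat_lit 5906) (nat_lit 320) .nil))))) .nil)) 
(.lf (nat_lit 244291) (.g (nat_lit 1619) (.e (nat_lit 123184) (nat_lit 264) (.e (nat_lit 1212) (nat_lit 89) (.e (nat_lit 73782) (nat_lit 32) (.e (nat_lit 3088) (nat_lit 191) (.e (nat_lit 483390) (nat_lit 23) .nil))))) .nil))) (.nd (nat_lit 6) 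
(.lf (nat_lit 244259) (.g (nat_lit 3016) (.e (nat_lit 123184) (nat_lit 264) (.e (nat_lit 1201) (nat_lit 88) (.e (nat_lit 65629) (nat_lit 14) (.e (nat_lit 401459) (nat_lit 13) (.e (nat_lit 483378) (nat_lit 23) .nil))))) .nil)) 
(.lf (nat_lit 244323) (.g (nat_lit 1328) (.e (nat_lit 123184) (nat_lit 264) (.e (nat_lit 1222) (nat_lit 90) (.e (nat_lit 81924) (nat_lit 0) (.e (nat_lit 3746) (nat_lit 228) (.e (nat_lit 786480) (nat_lit 29) .nil))))) .nil)))) (.nd (nat_lit 5) (.nd (nat_lit 6) 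
(.lf (nat_lit 244243) (.g (nat_lit 3133) (.e (nat_lit 123184) (nat_lit 264) (.e (nat_lit 1201) (nat_lit 88) (.e (nat_lit 65617) (nat_lit 10) (.e (nat_lit 344169) (nat_lit 40) (.e (nat_lit 671748) (nat_lit 0) (.e (nat_lit 1572) (nat_lit 110) (.e (nat_lit 352318) (nat_lit 24) .nil))))))) (.g (nat_lit 5) .nil .nil))) 
(.lf (nat_lit 244307) (.g (nat_lit 1850) (.e (nat_lit 123184) (nat_lit 264) (.e (nat_lit 1214) (nat_lit 89) (.e (nat_lit 73781) (nat_lit 32) (.e (nat_lit 3089) (nat_lit 191) (.e (nat_lit 483387) (nat_lit 23) (.e (nat_lit 336032) (nat_lit 4) .nil)))))) (.g (nat_lit 4) .nil .nil)))) (.nd (nat_lit 6) 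
(.lf (nat_lit 244275) (.g (nat_lit 1804) (.e (nat_lit 123184) (nat_lit 264) (.e (nat_lit 1201) (nat_lit 88) (.e (nat_lit 65630) (nat_lit 14) (.e (nat_lit 401458) (nat_lit 13) (.e (nat_lit 483393) (nat_lit 23) .nil))))) .nil)) 
(.lf (nat_lit 244339) (.g (nat_lit 2769) (.e (nat_lit 123184) (nat_lit 264) (.e (nat_lit 1222) (nat_lit 90) (.e (nat_lit 81948) (nat_lit 21) (.e (nat_lit 57873) (nat_lit 264) (.e (nat_lit 1219) (nat_lit 90) (.e (nat_lit 81958) (nat_lit 24) .nil)))))) (.g (nat_lit 5) .nil .nil)))))) (.nd (nat_lit 4) (.nd (nat_lit 5) (.nd (nat_lit 6) 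
(.lf (nat_lit 244235) (.g (nat_lit 2871) (.e (nat_lit 123184) (nat_lit 264) (.e (nat_lit 1201) (nat_lit 88) (.e (nat_lit 65610) (nat_lit 10) (.e (nat_lit 344097) (nat_lit 18) (.e (nat_lit 5907) (nat_lit 320) (.e (nat_lit 7936) (nat_lit 90) (.e (nat_lit 81959) (nat_lit 24) .nil))))))) (.g (nat_lit 5) .nil .nil))) 
(.lf (nat_lit 244299) (.g (nat_lit 491) (.e (nat_lit 123184) (nat_lit 264) (.e (nat_lit 1212) (nat_lit 89) (.e (nat_lit 81664) (nat_lit 39) .nil))) .nil))) (.nd (nat_lit 6) 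
(.lf (nat_lit 244267) (.g (nat_lit 2536) (.e (nat_lit 123184) (nat_lit 264) (.e (nat_lit 1201) (nat_lit 88) (.e (nat_lit 65630) (nat_lit 14) (.e (nat_lit 401438) (nat_lit 9) (.e (nat_lit 426538) (nat_lit 29) (.e (nat_lit 352318) (nat_lit 24) .nil)))))) (.g (nat_lit 4) .nil .nil))) 
(.lf (nat_lit 244331) (.g (nat_lit 1697) (.e (nat_lit 123184) (nat_lit 264) (.e (nat_lit 1222) (nat_lit 90) (.e (nat_lit 81947) (nat_lit 20) (.e (nat_lit 2006) (nat_lit 138) (.e (nat_lit 671764) (nat_lit 6) .nil))))) .nil)))) (.nd (nat_lit 5) (.nd (nat_lit 6) 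
(.lf (nat_lit 244251) (.g (nat_lit 2286) (.e (nat_lit 123184) (nat_lit 264) (.e (nat_lit 1201) (nat_lit 88) (.e (nat_lit 65628) (nat_lit 14) (.e (nat_lit 401454) (nat_lit 12) (.e (nat_lit 483072) (nat_lit 12) .nil))))) .nil)) 
(.lf (nat_lit 244315) (.g (nat_lit 448) (.e (nat_lit 123184) (nat_lit 264) (.e (nat_lit 1214) (nat_lit 89) (.e (nat_lit 73786) (nat_lit 45) .nil))) .nil))) (.nd (nat_lit 6) 
(.lf (nat_lit 244283) (.g (nat_lit 427) (.e (nat_lit 123184) (nat_lit 264) (.e (nat_lit 1212) (nat_lit 89) (.e (nat_lit 73779) (nat_lit 32) .nil))) .nil)) 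
(.lf (nat_lit 244347) (.g (nat_lit 2593) (.e (nat_lit 123184) (nat_lit 264) (.e (nat_lit 1222) (nat_lit 90) (.e (nat_lit 81957) (nat_lit 24) (.e (nat_lit 123195) (nat_lit 266) (.e (nat_lit 57425) (nat_lit 14) (.e (nat_lit 352318) (nat_lit 24) .nil)))))) (.g (nat_lit 4) .nil .nil))))))) (.nd (nat_lit 3) (.nd (nat_lit 4) (.nd (nat_lit 5) (.nd (nat_lit 6) 
(.lf (nat_lit 244231) (.g (nat_lit 1897) (.e (nat_lit 123184) (nat_lit 264) (.e (nat_lit 1201) (nat_lit 88) (.e (nat_lit 65610) (nat_lit 10) (.e (nat_lit 344097) (nat_lit 18) (.e (nat_lit 5907) (nat_lit 320) .nil))))) .nil)) 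
(.lf (nat_lit 244295) (.g (nat_lit 2333) (.e (nat_lit 123184) (nat_lit 264) (.e (nat_lit 1212) (nat_lit 89) (.e (nat_lit 73782) (nat_lit 32) (.e (nat_lit 3090) (nat_lit 191) (.e (nat_lit 483378) (nat_lit 23) (.e (nat_lit 336032) (nat_lit 4) .nil)))))) (.g (nat_lit 5) .nil .nil)))) (.nd (nat_lit 6) 
(.lf (nat_lit 244263) (.g (nat_lit 2678) (.e (nat_lit 123184) (nat_lit 264) (.e (nat_lit 1201) (nat_lit 88) (.e (nat_lit 65630) (nat_lit 14) (.e (nat_lit 401436) (nat_lit 9) (.e (nat_lit 426542) (nat_lit 29) (.e (nat_lit 352317) (nat_lit 24) .nil)))))) (.g (nat_lit 5) .nil .nil))) 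
(.lf (nat_lit 244327) (.g (nat_lit 640) (.e (nat_lit 123184) (nat_lit 264) (.e (nat_lit 1222) (nat_lit 90) (.e (nat_lit 81938) (nat_lit 20) .nil))) .nil)))) (.nd (nat_lit 5) (.nd (nat_lit 6) 
(.lf (nat_lit 244247) (.g (nat_lit 2555) (.e (nat_lit 123184) (nat_lit 264) (.e (nat_lit 1201) (nat_lit 88) (.e (nat_lit 65624) (nat_lit 12) (.e (nat_lit 385094) (nat_lit 49) (.e (nat_lit 778326) (nat_lit 6) (.e (nat_lit 81958) (nat_lit 24) .nil)))))) (.g (nat_lit 5) .nil .nil))) 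
(.lf (nat_lit 244311) (.g (nat_lit 2381) (.e (nat_lit 123184) (nat_lit 264) (.e (nat_lit 1214) (nat_lit 89) (.e (nat_lit 73781) (nat_lit 32) (.e (nat_lit 3090) (nat_lit 191) (.e (nat_lit 483386) (nat_lit 23) (.e (nat_lit 336030) (nat_lit 4) .nil)))))) (.g (nat_lit 5) .nil .nil)))) (.nd (nat_lit 6) 
(.lf (nat_lit 244279) (.g (nat_lit 3393) (.e (nat_lit 123184) (nat_lit 264) (.e (nat_lit 1201) (nat_lit 88) (.e (nat_lit 65630) (nat_lit 14) (.e (nat_lit 401459) (nat_lit 13) (.e (nat_lit 483386) (nat_lit 23) (.e (nat_lit 336030) (nat_lit 4) .nil)))))) (.g (nat_lit 5) .nil .nil))) 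
(.lf (nat_lit 244343) (.g (nat_lit 1123) (.e (nat_lit 123184) (nat_lit 264) (.e (nat_lit 1222) (nat_lit 90) (.e (nat_lit 81957) (nat_lit 24) (.e (nat_lit 123181) (nat_lit 264) .nil)))) .nil))))) (.nd (nat_lit 4) (.nd (nat_lit 5) (.nd (nat_lit 6) 
(.lf (nat_lit 244239) (.g (nat_lit 3554) (.e (nat_lit 123184) (nat_lit 264) (.e (nat_lit 1201) (nat_lit 88) (.e (nat_lit 65610) (nat_lit 10) (.e (nat_lit 344168) (nat_lit 40) (.e (nat_lit 671762) (nat_lit 4) (.e (nat_lit 65598) (nat_lit 9) (.e (nat_lit 336032) (nat_lit 4) .nil))))))) (.g (nat_lit 6) .nil .nil))) 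
(.lf (nat_lit 244303) (.g (nat_lit 2108) (.e (nat_lit 123184) (nat_lit 264) (.e (nat_lit 1214) (nat_lit 89) (.e (nat_lit 73781) (nat_lit 32) (.e (nat_lit 2857) (nat_lit 184) (.e (nat_lit 426538) (nat_lit 29) (.e (nat_lit 352318) (nat_lit 24) .nil)))))) (.g (nat_lit 4) .nil .nil)))) (.nd (nat_lit 6) 
(.lf (nat_lit 244271) (.g (nat_lit 1500) (.e (nat_lit 123184) (nat_lit 264) (.e (nat_lit 1201) (nat_lit 88) (.e (nat_lit 65630) (nat_lit 14) (.e (nat_lit 401457) (nat_lit 13) .nil)))) .nil)) 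
(.lf (nat_lit 244335) (.g (nat_lit 3006) (.e (nat_lit 123184) (nat_lit 264) (.e (nat_lit 1222) (nat_lit 90) (.e (nat_lit 81948) (nat_lit 21) (.e (nat_lit 57872) (nat_lit 264) (.e (nat_lit 1221) (nat_lit 90) (.e (nat_lit 81958) (nat_lit 24) .nil)))))) (.g (nat_lit 5) .nil .nil))))) (.nd (nat_lit 5) (.nd (nat_lit 6) 
(.lf (nat_lit 244255) (.g (nat_lit 2130) (.e (nat_lit 123184) (nat_lit 264) (.e (nat_lit 1201) (nat_lit 88) (.e (nat_lit 65628) (nat_lit 14) (.e (nat_lit 401458) (nat_lit 13) (.e (nat_lit 483388) (nat_lit 23) .nil))))) .nil)) 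
(.lf (nat_lit 244319) (.g (nat_lit 1920) (.e (nat_lit 123184) (nat_lit 264) (.e (nat_lit 1222) (nat_lit 90) (.e (nat_lit 81924) (nat_lit 0) (.e (nat_lit 3631) (nat_lit 227) (.e (nat_lit 778326) (nat_lit 6) (.e (nat_lit 81958) (nat_lit 24) .nil)))))) (.g (nat_lit 4) .nil .nil)))) (.nd (nat_lit 6) 
(.lf (nat_lit 244287) (.g (nat_lit 452) (.e (nat_lit 123184) (nat_lit 264) (.e (nat_lit 1212) (nat_lit 89) (.e (nat_lit 73782) (nat_lit 32) .nil))) .nil)) 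
(.lf (nat_lit 244351) (.g (nat_lit 3036) (.e (nat_lit 123184) (nat_lit 264) (.e (nat_lit 1222) (nat_lit 90) (.e (nat_lit 81959) (nat_lit 24) (.e (nat_lit 123195) (nat_lit 266) (.e (nat_lit 57425) (nat_lit 14) .nil))))) .nil)))))))))

noncomputable def tv3181 : DT := (.nd (nat_lit 0) (.nd (nat_lit 1) (.nd (nat_lit 2) (.nd (nat_lit 3) (.nd (nat_lit 4) (.nd (nat_lit 5) (.nd (nat_lit 6) 
(.lf (nat_lit 244352) (.g (nat_lit 2271) (.e (nat_lit 123184) (nat_lit 264) (.e (nat_lit 1223) (nat_lit 90) (.e (nat_lit 81959) (nat_lit 24) (.e (nat_lit 123182) (nat_lit 264) (.e (nat_lit 1224) (nat_lit 90) .nil))))) .nil)) 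
(.lf (nat_lit 244416) (.g (nat_lit 2135) (.e (nat_lit 123185) (nat_lit 264) (.e (nat_lit 1201) (nat_lit 88) (.e (nat_lit 65628) (nat_lit 14) (.e (nat_lit 401459) (nat_lit 13) (.e (nat_lit 483391) (nat_lit 23) .nil))))) .nil))) (.nd (nat_lit 6) 
(.lf (nat_lit 244384) (.g (nat_lit 1192) (.e (nat_lit 123185) (nat_lit 264) (.e (nat_lit 1193) (nat_lit 88) (.e (nat_lit 65623) (nat_lit 12) (.e (nat_lit 385094) (nat_lit 49) (.e (nat_lit 778327) (nat_lit 6) .nil))))) .nil)) 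
(.lf (nat_lit 244448) (.g (nat_lit 636) (.e (nat_lit 123185) (nat_lit 264) (.e (nat_lit 1222) (nat_lit 90) (.e (nat_lit 81939) (nat_lit 20) .nil))) .nil)))) (.nd (nat_lit 5) (.nd (nat_lit 6) 
(.lf (nat_lit 244368) (.g (nat_lit 459) (.e (nat_lit 123184) (nat_lit 264) (.e (nat_lit 1296) (nat_lit 96) (.e (nat_lit 131129) (nat_lit 14) .nil))) .nil)) 
(.lf (nat_lit 244432) (.g (nat_lit 2768) (.e (nat_lit 123185) (nat_lit 264) (.e (nat_lit 1201) (nat_lit 88) (.e (nat_lit 65630) (nat_lit 14) (.e (nat_lit 401459) (nat_lit 13) (.e (nat_lit 491264) (nat_lit 23) .nil))))) .nil))) (.nd (nat_lit 6) 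
(.lf (nat_lit 244400) (.g (nat_lit 910) (.e (nat_lit 123185) (nat_lit 264) (.e (nat_lit 1201) (nat_lit 88) (.e (nat_lit 65617) (nat_lit 10) (.e (nat_lit 344087) (nat_lit 18) .nil)))) .nil)) 
(.lf (nat_lit 244464) (.g (nat_lit 2072) (.e (nat_lit 123185) (nat_lit 264) (.e (nat_lit 1222) (nat_lit 90) (.e (nat_lit 81959) (nat_lit 24) (.e (nat_lit 123183) (nat_lit 264) (.e (nat_lit 1222) (nat_lit 90) (.e (nat_lit 81957) (nat_lit 24) .nil)))))) (.g (nat_lit 4) .nil .nil)))))) (.nd (nat_lit 4) (.nd (nat_lit 5) (.nd (nat_lit 6) 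
(.lf (nat_lit 244360) (.g (nat_lit 773) (.e (nat_lit 123184) (nat_lit 264) (.e (nat_lit 1296) (nat_lit 96) (.e (nat_lit 131109) (nat_lit 9) (.e (nat_lit 336357) (nat_lit 24) .nil)))) .nil)) 
(.lf (nat_lit 244424) (.g (nat_lit 2585) (.e (nat_lit 123185) (nat_lit 264) (.e (nat_lit 1201) (nat_lit 88) (.e (nat_lit 65630) (nat_lit 14) (.e (nat_lit 401454) (nat_lit 12) (.e (nat_lit 483072) (nat_lit 8) .nil))))) .nil))) (.nd (nat_lit 6) 
(.lf (nat_lit 244392) (.g (nat_lit 1776) (.e (nat_lit 123185) (nat_lit 264) (.e (nat_lit 1201) (nat_lit 88) (.e (nat_lit 65610) (nat_lit 10) (.e (nat_lit 344097) (nat_lit 18) (.e (nat_lit 5907) (nat_lit 320) .nil))))) .nil)) 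
(.lf (nat_lit 244456) (.g (nat_lit 1731) (.e (nat_lit 123185) (nat_lit 264) (.e (nat_lit 1222) (nat_lit 90) (.e (nat_lit 81948) (nat_lit 21) (.e (nat_lit 57873) (nat_lit 264) (.e (nat_lit 7936) (nat_lit 90) .nil))))) .nil)))) (.nd (nat_lit 5) (.nd (nat_lit 6) 
(.lf (nat_lit 244376) (.g (nat_lit 3926) (.e (nat_lit 123185) (nat_lit 264) (.e (nat_lit 1183) (nat_lit 87) (.e (nat_lit 57478) (nat_lit 28) (.e (nat_lit 557109) (nat_lit 15) (.e (nat_lit 188458) (nat_lit 25) (.e (nat_lit 245784) (nat_lit 9) (.e (nat_lit 1512) (nat_lit 108) (.e (nat_lit 336035) (nat_lit 4) .nil)))))))) (.g (nat_lit 5) .nil .nil))) 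
(.lf (nat_lit 244440) (.g (nat_lit 1256) (.e (nat_lit 123185) (nat_lit 264) (.e (nat_lit 1212) (nat_lit 89) (.e (nat_lit 73792) (nat_lit 45) (.e (nat_lit 1386) (nat_lit 105) (.e (nat_lit 311358) (nat_lit 29) .nil))))) .nil))) (.nd (nat_lit 6) 
(.lf (nat_lit 244408) (.g (nat_lit 3023) (.e (nat_lit 123185) (nat_lit 264) (.e (nat_lit 1201) (nat_lit 88) (.e (nat_lit 65624) (nat_lit 12) (.e (nat_lit 385094) (nat_lit 49) (.e (nat_lit 778327) (nat_lit 6) (.e (nat_lit 81959) (nat_lit 24) .nil)))))) (.g (nat_lit 0) .nil .nil))) 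
(.lf (nat_lit 244472) (.g (nat_lit 722) (.e (nat_lit 123185) (nat_lit 264) (.e (nat_lit 1296) (nat_lit 96) (.e (nat_lit 131107) (nat_lit 9) (.e (nat_lit 336332) (nat_lit 19) .nil)))) .nil)))))) (.nd (nat_lit 3) (.nd (nat_lit 4) (.nd (nat_lit 5) (.nd (nat_lit 6) 
(.lf (nat_lit 244356) (.g (nat_lit 3431) (.e (nat_lit 123184) (nat_lit 264) (.e (nat_lit 1224) (nat_lit 90) (.e (nat_lit 81959) (nat_lit 24) (.e (nat_lit 123182) (nat_lit 264) (.e (nat_lit 1224) (nat_lit 90) (.e (nat_lit 81957) (nat_lit 24) .nil)))))) (.g (nat_lit 5) .nil .nil))) 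
(.lf (nat_lit 244420) (.g (nat_lit 1833) (.e (nat_lit 123185) (nat_lit 264) (.e (nat_lit 1201) (nat_lit 88) (.e (nat_lit 65630) (nat_lit 14) (.e (nat_lit 401436) (nat_lit 9) (.e (nat_lit 426538) (nat_lit 29) .nil))))) .nil))) (.nd (nat_lit 6) 
(.lf (nat_lit 244388) (.g (nat_lit 1204) (.e (nat_lit 123185) (nat_lit 264) (.e (nat_lit 1201) (nat_lit 88) (.e (nat_lit 65585) (nat_lit 7) (.e (nat_lit 319539) (nat_lit 19) (.e (nat_lit 311358) (nat_lit 29) .nil))))) .nil)) 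
(.lf (nat_lit 244452) (.g (nat_lit 1225) (.e (nat_lit 123185) (nat_lit 264) (.e (nat_lit 1222) (nat_lit 90) (.e (nat_lit 81947) (nat_lit 20) (.e (nat_lit 2006) (nat_lit 138) .nil)))) .nil)))) (.nd (nat_lit 5) (.nd (nat_lit 6) 
(.lf (nat_lit 244372) (.g (nat_lit 4335) (.e (nat_lit 123185) (nat_lit 264) (.e (nat_lit 1183) (nat_lit 87) (.e (nat_lit 57478) (nat_lit 28) (.e (nat_lit 557101) (nat_lit 13) (.e (nat_lit 172097) (nat_lit 9) (.e (nat_lit 426125) (nat_lit 2) (.e (nat_lit 196666) (nat_lit 13) (.e (nat_lit 65574) (nat_lit 4) .nil)))))))) (.g (nat_lit 8) .nil .nil))) 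
(.lf (nat_lit 244436) (.g (nat_lit 236) (.e (nat_lit 123185) (nat_lit 264) (.e (nat_lit 1212) (nat_lit 89) (.e (nat_lit 81664) (nat_lit 37) .nil))) .nil))) (.nd (nat_lit 6) 
(.lf (nat_lit 244404) (.g (nat_lit 1391) (.e (nat_lit 123185) (nat_lit 264) (.e (nat_lit 1201) (nat_lit 88) (.e (nat_lit 65619) (nat_lit 10) (.e (nat_lit 344097) (nat_lit 18) .nil)))) .nil)) 
(.lf (nat_lit 244468) (.g (nat_lit 294) (.e (nat_lit 123185) (nat_lit 264) (.e (nat_lit 1224) (nat_lit 90) (.e (nat_lit 81957) (nat_lit 24) .nil))) .nil))))) (.nd (nat_lit 4) (.nd (nat_lit 5) (.nd (nat_lit 6) 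
(.lf (nat_lit 244364) (.g (nat_lit 2560) (.e (nat_lit 123184) (nat_lit 264) (.e (nat_lit 1296) (nat_lit 96) (.e (nat_lit 131123) (nat_lit 12) (.e (nat_lit 385094) (nat_lit 49) (.e (nat_lit 778327) (nat_lit 6) (.e (nat_lit 81957) (nat_lit 24) .nil)))))) (.g (nat_lit 0) .nil .nil))) 
(.lf (nat_lit 244428) (.g (nat_lit 1994) (.e (nat_lit 123185) (nat_lit 264) (.e (nat_lit 1201) (nat_lit 88) (.e (nat_lit 65630) (nat_lit 14) (.e (nat_lit 401459) (nat_lit 13) (.e (nat_lit 483378) (nat_lit 23) .nil))))) .nil))) (.nd (nat_lit 6) 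
(.lf (nat_lit 244396) (.g (nat_lit 1995) (.e (nat_lit 123185) (nat_lit 264) (.e (nat_lit 1201) (nat_lit 88) (.e (nat_lit 65610) (nat_lit 10) (.e (nat_lit 344168) (nat_lit 40) (.e (nat_lit 671762) (nat_lit 4) .nil))))) .nil)) 
(.lf (nat_lit 244460) (.g (nat_lit 2053) (.e (nat_lit 123185) (nat_lit 264) (.e (nat_lit 1222) (nat_lit 90) (.e (nat_lit 81957) (nat_lit 24) (.e (nat_lit 123182) (nat_lit 264) (.e (nat_lit 1218) (nat_lit 90) .nil))))) .nil)))) (.nd (nat_lit 5) (.nd (nat_lit 6) 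
(.lf (nat_lit 244380) (.g (nat_lit 2561) (.e (nat_lit 123185) (nat_lit 264) (.e (nat_lit 1191) (nat_lit 88) (.e (nat_lit 65630) (nat_lit 14) (.e (nat_lit 401454) (nat_lit 12) (.e (nat_lit 475141) (nat_lit 8) .nil))))) .nil)) 
(.lf (nat_lit 244444) (.g (nat_lit 440) (.e (nat_lit 123185) (nat_lit 264) (.e (nat_lit 1222) (nat_lit 90) (.e (nat_lit 81924) (nat_lit 0) .nil))) .nil))) (.nd (nat_lit 6) 
(.lf (nat_lit 244412) (.g (nat_lit 3279) (.e (nat_lit 123185) (nat_lit 264) (.e (nat_lit 1201) (nat_lit 88) (.e (nat_lit 65628) (nat_lit 14) (.e (nat_lit 401454) (nat_lit 12) (.e (nat_lit 475141) (nat_lit 8) .nil))))) .nil)) 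
(.lf (nat_lit 244476) (.g (nat_lit 2087) (.e (nat_lit 123185) (nat_lit 264) (.e (nat_lit 1296) (nat_lit 96) (.e (nat_lit 131120) (nat_lit 12) (.e (nat_lit 385094) (nat_lit 49) (.e (nat_lit 778326) (nat_lit 6) (.e (nat_lit 81957) (nat_lit 24) .nil)))))) (.g (nat_lit 0) .nil .nil)))))))) (.nd (nat_lit 2) (.nd (nat_lit 3) (.nd (nat_lit 4) (.nd (nat_lit 5) (.nd (nat_lit 6) 
(.lf (nat_lit 244354) (.g (nat_lit 392) (.e (nat_lit 123184) (nat_lit 264) (.e (nat_lit 1224) (nat_lit 90) (.e (nat_lit 81959) (nat_lit 24) .nil))) .nil)) 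
(.lf (nat_lit 244418) (.g (nat_lit 656) (.e (nat_lit 123185) (nat_lit 264) (.e (nat_lit 1201) (nat_lit 88) (.e (nat_lit 65629) (nat_lit 14) .nil))) .nil))) (.nd (nat_lit 6) 
(.lf (nat_lit 244386) (.g (nat_lit 455) (.e (nat_lit 123185) (nat_lit 264) (.e (nat_lit 1201) (nat_lit 88) (.e (nat_lit 65583) (nat_lit 7) .nil))) .nil)) 
(.lf (nat_lit 244450) (.g (nat_lit 978) (.e (nat_lit 123185) (nat_lit 264) (.e (nat_lit 1222) (nat_lit 90) (.e (nat_lit 81943) (nat_lit 20) (.e (nat_lit 2003) (nat_lit 138) .nil)))) .nil)))) (.nd (nat_lit 5) (.nd (nat_lit 6) 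
(.lf (nat_lit 244370) (.g (nat_lit 3196) (.e (nat_lit 123185) (nat_lit 264) (.e (nat_lit 1175) (nat_lit 87) (.e (nat_lit 57476) (nat_lit 28) (.e (nat_lit 557108) (nat_lit 15) (.e (nat_lit 188452) (nat_lit 23) (.e (nat_lit 204855) (nat_lit 26) (.e (nat_lit 336030) (nat_lit 4) .nil))))))) (.g (nat_lit 6) .nil .nil))) 
(.lf (nat_lit 244434) (.g (nat_lit 295) (.e (nat_lit 123185) (nat_lit 264) (.e (nat_lit 1212) (nat_lit 89) (.e (nat_lit 73782) (nat_lit 32) .nil))) .nil))) (.nd (nat_lit 6) 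
(.lf (nat_lit 244402) (.g (nat_lit 1472) (.e (nat_lit 123185) (nat_lit 264) (.e (nat_lit 1201) (nat_lit 88) (.e (nat_lit 65617) (nat_lit 10) (.e (nat_lit 344168) (nat_lit 40) (.e (nat_lit 671747) (nat_lit 0) .nil))))) .nil)) 
(.lf (nat_lit 244466) (.g (nat_lit 3041) (.e (nat_lit 123185) (nat_lit 264) (.e (nat_lit 1222) (nat_lit 90) (.e (nat_lit 81959) (nat_lit 24) (.e (nat_lit 123195) (nat_lit 266) (.e (nat_lit 57425) (nat_lit 14) .nil))))) .nil))))) (.nd (nat_lit 4) (.nd (nat_lit 5) (.nd (nat_lit 6) 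
(.lf (nat_lit 244362) (.g (nat_lit 316) (.e (nat_lit 123184) (nat_lit 264) (.e (nat_lit 1296) (nat_lit 96) (.e (nat_lit 131123) (nat_lit 12) .nil))) .nil)) 
(.lf (nat_lit 244426) (.g (nat_lit 2272) (.e (nat_lit 123185) (nat_lit 264) (.e (nat_lit 1201) (nat_lit 88) (.e (nat_lit 65630) (nat_lit 14) (.e (nat_lit 401457) (nat_lit 13) (.e (nat_lit 491264) (nat_lit 23) .nil))))) .nil))) (.nd (nat_lit 6) 
(.lf (nat_lit 244394) (.g (nat_lit 2104) (.e (nat_lit 123185) (nat_lit 264) (.e (nat_lit 1201) (nat_lit 88) (.e (nat_lit 65610) (nat_lit 10) (.e (nat_lit 344168) (nat_lit 40) (.e (nat_lit 671747) (nat_lit 0) .nil))))) .nil)) 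
(.lf (nat_lit 244458) (.g (nat_lit 1969) (.e (nat_lit 123185) (nat_lit 264) (.e (nat_lit 1222) (nat_lit 90) (.e (nat_lit 81950) (nat_lit 21) (.e (nat_lit 57872) (nat_lit 264) (.e (nat_lit 1219) (nat_lit 90) (.e (nat_lit 81957) (nat_lit 24) .nil)))))) (.g (nat_lit 4) .nil .nil))))) (.nd (nat_lit 5) (.nd (nat_lit 6) 
(.lf (nat_lit 244378) (.g (nat_lit 3860) (.e (nat_lit 123185) (nat_lit 264) (.e (nat_lit 1183) (nat_lit 87) (.e (nat_lit 57480) (nat_lit 28) (.e (nat_lit 557108) (nat_lit 15) (.e (nat_lit 188452) (nat_lit 23) (.e (nat_lit 204851) (nat_lit 26) (.e (nat_lit 336029) (nat_lit 4) .nil))))))) (.g (nat_lit 5) .nil .nil))) 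
(.lf (nat_lit 244442) (.g (nat_lit 669) (.e (nat_lit 123185) (nat_lit 264) (.e (nat_lit 1214) (nat_lit 89) (.e (nat_lit 73781) (nat_lit 32) (.e (nat_lit 3089) (nat_lit 191) .nil)))) .nil))) (.nd (nat_lit 6) 
(.lf (nat_lit 244410) (.g (nat_lit 367) (.e (nat_lit 123185) (nat_lit 264) (.e (nat_lit 1201) (nat_lit 88) (.e (nat_lit 65628) (nat_lit 14) .nil))) .nil)) 
(.lf (nat_lit 244474) (.g (nat_lit 588) (.e (nat_lit 123185) (nat_lit 264) (.e (nat_lit 1296) (nat_lit 96) (.e (nat_lit 131114) (nat_lit 9) .nil))) .nil)))))) (.nd (nat_lit 3) (.nd (nat_lit 4) (.nd (nat_lit 5) (.nd (nat_lit 6) 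
(.lf (nat_lit 244358) (.g (nat_lit 1140) (.e (nat_lit 123184) (nat_lit 264) (.e (nat_lit 1224) (nat_lit 90) (.e (nat_lit 81959) (nat_lit 24) (.e (nat_lit 123185) (nat_lit 264) (.e (nat_lit 7936) (nat_lit 90) .nil))))) .nil)) 
(.lf (nat_lit 244422) (.g (nat_lit 1392) (.e (nat_lit 123185) (nat_lit 264) (.e (nat_lit 1201) (nat_lit 88) (.e (nat_lit 65630) (nat_lit 14) (.e (nat_lit 401454) (nat_lit 12) .nil)))) .nil))) (.nd (nat_lit 6) 
(.lf (nat_lit 244390) (.g (nat_lit 925) (.e (nat_lit 123185) (nat_lit 264) (.e (nat_lit 1201) (nat_lit 88) (.e (nat_lit 65610) (nat_lit 10) (.e (nat_lit 344097) (nat_lit 18) .nil)))) .nil)) 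
(.lf (nat_lit 244454) (.g (nat_lit 988) (.e (nat_lit 123185) (nat_lit 264) (.e (nat_lit 1222) (nat_lit 90) (.e (nat_lit 81948) (nat_lit 21) (.e (nat_lit 57871) (nat_lit 264) .nil)))) .nil)))) (.nd (nat_lit 5) (.nd (nat_lit 6) 
(.lf (nat_lit 244374) (.g (nat_lit 3433) (.e (nat_lit 123185) (nat_lit 264) (.e (nat_lit 1183) (nat_lit 87) (.e (nat_lit 57478) (nat_lit 28) (.e (nat_lit 557108) (nat_lit 15) (.e (nat_lit 188452) (nat_lit 23) (.e (nat_lit 212736) (nat_lit 26) (.e (nat_lit 336035) (nat_lit 4) .nil))))))) (.g (nat_lit 5) .nil .nil))) 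
(.lf (nat_lit 244438) (.g (nat_lit 506) (.e (nat_lit 123185) (nat_lit 264) (.e (nat_lit 1212) (nat_lit 89) (.e (nat_lit 73791) (nat_lit 45) (.e (nat_lit 1386) (nat_lit 105) .nil)))) .nil))) (.nd (nat_lit 6) 
(.lf (nat_lit 244406) (.g (nat_lit 2407) (.e (nat_lit 123185) (nat_lit 264) (.e (nat_lit 1201) (nat_lit 88) (.e (nat_lit 65622) (nat_lit 12) (.e (nat_lit 385094) (nat_lit 49) (.e (nat_lit 778327) (nat_lit 6) (.e (nat_lit 81959) (nat_lit 24) .nil)))))) (.g (nat_lit 0) .nil .nil))) 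
(.lf (nat_lit 244470) (.g (nat_lit 362) (.e (nat_lit 123185) (nat_lit 264) (.e (nat_lit 1224) (nat_lit 90) (.e (nat_lit 81959) (nat_lit 24) .nil))) .nil))))) (.nd (nat_lit 4) (.nd (nat_lit 5) (.nd (nat_lit 6) 
(.lf (nat_lit 244366) (.g (nat_lit 706) (.e (nat_lit 123184) (nat_lit 264) (.e (nat_lit 1296) (nat_lit 96) (.e (nat_lit 131123) (nat_lit 12) (.e (nat_lit 385096) (nat_lit 49) .nil)))) .nil)) 
(.lf (nat_lit 244430) (.g (nat_lit 3120) (.e (nat_lit 123185) (nat_lit 264) (.e (nat_lit 1201) (nat_lit 88) (.e (nat_lit 65630) (nat_lit 14) (.e (nat_lit 401459) (nat_lit 13) (.e (nat_lit 483386) (nat_lit 23) (.e (nat_lit 336030) (nat_lit 4) .nil)))))) (.g (nat_lit 5) .nil .nil)))) (.nd (nat_lit 6) 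
(.lf (nat_lit 244398) (.g (nat_lit 2044) (.e (nat_lit 123185) (nat_lit 264) (.e (nat_lit 1201) (nat_lit 88) (.e (nat_lit 65610) (nat_lit 10) (.e (nat_lit 344169) (nat_lit 40) (.e (nat_lit 671746) (nat_lit 0) .nil))))) .nil)) 
(.lf (nat_lit 244462) (.g (nat_lit 603) (.e (nat_lit 123185) (nat_lit 264) (.e (nat_lit 1222) (nat_lit 90) (.e (nat_lit 81959) (nat_lit 24) .nil))) .nil)))) (.nd (nat_lit 5) (.nd (nat_lit 6) 
(.lf (nat_lit 244382) (.g (nat_lit 1407) (.e (nat_lit 123185) (nat_lit 264) (.e (nat_lit 1193) (nat_lit 88) (.e (nat_lit 65622) (nat_lit 12) (.e (nat_lit 385093) (nat_lit 49) (.e (nat_lit 778326) (nat_lit 6) .nil))))) .nil)) 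
(.lf (nat_lit 244446) (.g (nat_lit 1133) (.e (nat_lit 123185) (nat_lit 264) (.e (nat_lit 1222) (nat_lit 90) (.e (nat_lit 81935) (nat_lit 20) (.e (nat_lit 1994) (nat_lit 137) (.e (nat_lit 663567) (nat_lit 4) .nil))))) .nil))) (.nd (nat_lit 6) 
(.lf (nat_lit 244414) (.g (nat_lit 918) (.e (nat_lit 123185) (nat_lit 264) (.e (nat_lit 1201) (nat_lit 88) (.e (nat_lit 65628) (nat_lit 14) (.e (nat_lit 401457) (nat_lit 13) .nil)))) .nil)) 
(.lf (nat_lit 244478) (.g (nat_lit 1909) (.e (nat_lit 123185) (nat_lit 264) (.e (nat_lit 1296) (nat_lit 96) (.e (nat_lit 131120) (nat_lit 12) (.e (nat_lit 385094) (nat_lit 49) (.e (nat_lit 778327) (nat_lit 6) (.e (nat_lit 81957) (nat_lit 24) .nil)))))) (.g (nat_lit 0) .nil .nil))))))))) (.nd (nat_lit 1) (.nd (nat_lit 2) (.nd (nat_lit 3) (.nd (nat_lit 4) (.nd (nat_lit 5) (.nd (nat_lit 6) 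
(.lf (nat_lit 244353) (.g (nat_lit 366) (.e (nat_lit 123184) (nat_lit 264) (.e (nat_lit 1224) (nat_lit 90) (.e (nat_lit 81957) (nat_lit 24) .nil))) .nil)) 
(.lf (nat_lit 244417) (.g (nat_lit 2176) (.e (nat_lit 123185) (nat_lit 264) (.e (nat_lit 1201) (nat_lit 88) (.e (nat_lit 65628) (nat_lit 14) (.e (nat_lit 401459) (nat_lit 13) (.e (nat_lit 491264) (nat_lit 23) .nil))))) .nil))) (.nd (nat_lit 6) 
(.lf (nat_lit 244385) (.g (nat_lit 1696) (.e (nat_lit 123185) (nat_lit 264) (.e (nat_lit 1193) (nat_lit 88) (.e (nat_lit 65628) (nat_lit 14) (.e (nat_lit 401454) (nat_lit 12) (.e (nat_lit 483072) (nat_lit 12) .nil))))) .nil)) 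
(.lf (nat_lit 244449) (.g (nat_lit 426) (.e (nat_lit 123185) (nat_lit 264) (.e (nat_lit 1222) (nat_lit 90) (.e (nat_lit 81943) (nat_lit 20) .nil))) .nil)))) (.nd (nat_lit 5) (.nd (nat_lit 6) 
(.lf (nat_lit 244369) (.g (nat_lit 2400) (.e (nat_lit 123185) (nat_lit 264) (.e (nat_lit 1173) (nat_lit 87) (.e (nat_lit 57479) (nat_lit 28) (.e (nat_lit 557095) (nat_lit 13) (.e (nat_lit 172115) (nat_lit 10) .nil))))) .nil)) 
(.lf (nat_lit 244433) (.g (nat_lit 2125) (.e (nat_lit 123185) (nat_lit 264) (.e (nat_lit 1212) (nat_lit 89) (.e (nat_lit 73781) (nat_lit 32) (.e (nat_lit 2856) (nat_lit 184) (.e (nat_lit 426542) (nat_lit 29) .nil))))) .nil))) (.nd (nat_lit 6) 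
(.lf (nat_lit 244401) (.g (nat_lit 1838) (.e (nat_lit 123185) (nat_lit 264) (.e (nat_lit 1201) (nat_lit 88) (.e (nat_lit 65617) (nat_lit 10) (.e (nat_lit 344097) (nat_lit 18) (.e (nat_lit 5907) (nat_lit 320) .nil))))) .nil)) 
(.lf (nat_lit 244465) (.g (nat_lit 1706) (.e (nat_lit 123185) (nat_lit 264) (.e (nat_lit 1222) (nat_lit 90) (.e (nat_lit 81959) (nat_lit 24) (.e (nat_lit 123185) (nat_lit 264) (.e (nat_lit 1223) (nat_lit 90) .nil))))) .nil))))) (.nd (nat_lit 4) (.nd (nat_lit 5) (.nd (nat_lit 6) 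
(.lf (nat_lit 244361) (.g (nat_lit 1352) (.e (nat_lit 123184) (nat_lit 264) (.e (nat_lit 1296) (nat_lit 96) (.e (nat_lit 131120) (nat_lit 12) (.e (nat_lit 385106) (nat_lit 50) (.e (nat_lit 786479) (nat_lit 29) .nil))))) .nil)) 
(.lf (nat_lit 244425) (.g (nat_lit 2422) (.e (nat_lit 123185) (nat_lit 264) (.e (nat_lit 1201) (nat_lit 88) (.e (nat_lit 65630) (nat_lit 14) (.e (nat_lit 401457) (nat_lit 13) (.e (nat_lit 483391) (nat_lit 23) .nil))))) .nil))) (.nd (nat_lit 6) 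
(.lf (nat_lit 244393) (.g (nat_lit 1454) (.e (nat_lit 123185) (nat_lit 264) (.e (nat_lit 1201) (nat_lit 88) (.e (nat_lit 65610) (nat_lit 10) (.e (nat_lit 344168) (nat_lit 40) .nil)))) .nil)) 
(.lf (nat_lit 244457) (.g (nat_lit 1036) (.e (nat_lit 123185) (nat_lit 264) (.e (nat_lit 1222) (nat_lit 90) (.e (nat_lit 81948) (nat_lit 21) (.e (nat_lit 65280) (nat_lit 266) .nil)))) .nil)))) (.nd (nat_lit 5) (.nd (nat_lit 6) 
(.lf (nat_lit 244377) (.g (nat_lit 4349) (.e (nat_lit 123185) (nat_lit 264) (.e (nat_lit 1183) (nat_lit 87) (.e (nat_lit 57479) (nat_lit 28) (.e (nat_lit 557095) (nat_lit 13) (.e (nat_lit 172115) (nat_lit 10) (.e (nat_lit 434231) (nat_lit 23) (.e (nat_lit 532535) (nat_lit 9) (.e (nat_lit 336030) (nat_lit 4) .nil)))))))) (.g (nat_lit 7) .nil .nil))) 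
(.lf (nat_lit 244441) (.g (nat_lit 317) (.e (nat_lit 123185) (nat_lit 264) (.e (nat_lit 1214) (nat_lit 89) (.e (nat_lit 73781) (nat_lit 32) .nil))) .nil))) (.nd (nat_lit 6) 
(.lf (nat_lit 244409) (.g (nat_lit 2193) (.e (nat_lit 123185) (nat_lit 264) (.e (nat_lit 1201) (nat_lit 88) (.e (nat_lit 65624) (nat_lit 12) (.e (nat_lit 385106) (nat_lit 50) (.e (nat_lit 786479) (nat_lit 29) .nil))))) .nil)) 
(.lf (nat_lit 244473) (.g (nat_lit 284) (.e (nat_lit 123185) (nat_lit 264) (.e (nat_lit 1296) (nat_lit 96) (.e (nat_lit 131109) (nat_lit 9) .nil))) .nil)))))) (.nd (nat_lit 3) (.nd (nat_lit 4) (.nd (nat_lit 5) (.nd (nat_lit 6) 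
(.lf (nat_lit 244357) (.g (nat_lit 2469) (.e (nat_lit 123184) (nat_lit 264) (.e (nat_lit 1224) (nat_lit 90) (.e (nat_lit 81959) (nat_lit 24) (.e (nat_lit 123182) (nat_lit 264) (.e (nat_lit 7936) (nat_lit 90) .nil))))) .nil)) 
(.lf (nat_lit 244421) (.g (nat_lit 2085) (.e (nat_lit 123185) (nat_lit 264) (.e (nat_lit 1201) (nat_lit 88) (.e (nat_lit 65630) (nat_lit 14) (.e (nat_lit 401438) (nat_lit 9) (.e (nat_lit 426538) (nat_lit 29) .nil))))) .nil))) (.nd (nat_lit 6) 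
(.lf (nat_lit 244389) (.g (nat_lit 434) (.e (nat_lit 123185) (nat_lit 264) (.e (nat_lit 1201) (nat_lit 88) (.e (nat_lit 65610) (nat_lit 10) .nil))) .nil)) 
(.lf (nat_lit 244453) (.g (nat_lit 400) (.e (nat_lit 123185) (nat_lit 264) (.e (nat_lit 1222) (nat_lit 90) (.e (nat_lit 81948) (nat_lit 21) .nil))) .nil)))) (.nd (nat_lit 5) (.nd (nat_lit 6) 
(.lf (nat_lit 244373) (.g (nat_lit 3932) (.e (nat_lit 123185) (nat_lit 264) (.e (nat_lit 1183) (nat_lit 87) (.e (nat_lit 57478) (nat_lit 28) (.e (nat_lit 557107) (nat_lit 15) (.e (nat_lit 188447) (nat_lit 22) (.e (nat_lit 196666) (nat_lit 13) (.e (nat_lit 65574) (nat_lit 4) .nil))))))) (.g (nat_lit 7) .nil .nil))) 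
(.lf (nat_lit 244437) (.g (nat_lit 419) (.e (nat_lit 123185) (nat_lit 264) (.e (nat_lit 1212) (nat_lit 89) (.e (nat_lit 73791) (nat_lit 45) .nil))) .nil))) (.nd (nat_lit 6) 
(.lf (nat_lit 244405) (.g (nat_lit 1209) (.e (nat_lit 123185) (nat_lit 264) (.e (nat_lit 1201) (nat_lit 88) (.e (nat_lit 65622) (nat_lit 12) (.e (nat_lit 385092) (nat_lit 49) (.e (nat_lit 778327) (nat_lit 6) .nil))))) .nil)) 
(.lf (nat_lit 244469) (.g (nat_lit 2004) (.e (nat_lit 123185) (nat_lit 264) (.e (nat_lit 1224) (nat_lit 90) (.e (nat_lit 81957) (nat_lit 24) (.e (nat_lit 123185) (nat_lit 264) (.e (nat_lit 1224) (nat_lit 90) (.e (nat_lit 81957) (nat_lit 24) .nil)))))) (.g (nat_lit 0) .nil .nil)))))) (.nd (nat_lit 4) (.nd (nat_lit 5) (.nd (nat_lit 6) 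
(.lf (nat_lit 244365) (.g (nat_lit 2427) (.e (nat_lit 123184) (nat_lit 264) (.e (nat_lit 1296) (nat_lit 96) (.e (nat_lit 131123) (nat_lit 12) (.e (nat_lit 385094) (nat_lit 49) (.e (nat_lit 778327) (nat_lit 6) (.e (nat_lit 81959) (nat_lit 24) .nil)))))) (.g (nat_lit 0) .nil .nil))) 
(.lf (nat_lit 244429) (.g (nat_lit 3043) (.e (nat_lit 123185) (nat_lit 264) (.e (nat_lit 1201) (nat_lit 88) (.e (nat_lit 65630) (nat_lit 14) (.e (nat_lit 401459) (nat_lit 13) (.e (nat_lit 483381) (nat_lit 23) .nil))))) .nil))) (.nd (nat_lit 6) 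
(.lf (nat_lit 244397) (.g (nat_lit 1409) (.e (nat_lit 123185) (nat_lit 264) (.e (nat_lit 1201) (nat_lit 88) (.e (nat_lit 65610) (nat_lit 10) (.e (nat_lit 344169) (nat_lit 40) .nil)))) .nil)) 
(.lf (nat_lit 244461) (.g (nat_lit 826) (.e (nat_lit 123185) (nat_lit 264) (.e (nat_lit 1222) (nat_lit 90) (.e (nat_lit 81957) (nat_lit 24) (.e (nat_lit 123185) (nat_lit 264) .nil)))) .nil)))) (.nd (nat_lit 5) (.nd (nat_lit 6) 
(.lf (nat_lit 244381) (.g (nat_lit 1323) (.e (nat_lit 123185) (nat_lit 264) (.e (nat_lit 1191) (nat_lit 88) (.e (nat_lit 65630) (nat_lit 14) (.e (nat_lit 401454) (nat_lit 12) (.e (nat_lit 483072) (nat_lit 12) .nil))))) .nil)) 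
(.lf (nat_lit 244445) (.g (nat_lit 399) (.e (nat_lit 123185) (nat_lit 264) (.e (nat_lit 1222) (nat_lit 90) (.e (nat_lit 81935) (nat_lit 20) .nil))) .nil))) (.nd (nat_lit 6) 
(.lf (nat_lit 244413) (.g (nat_lit 2007) (.e (nat_lit 123185) (nat_lit 264) (.e (nat_lit 1201) (nat_lit 88) (.e (nat_lit 65628) (nat_lit 14) (.e (nat_lit 401454) (nat_lit 12) (.e (nat_lit 483072) (nat_lit 8) .nil))))) .nil)) 
(.lf (nat_lit 244477) (.g (nat_lit 1969) (.e (nat_lit 123185) (nat_lit 264) (.e (nat_lit 1296) (nat_lit 96) (.e (nat_lit 131120) (nat_lit 12) (.e (nat_lit 385094) (nat_lit 49) (.e (nat_lit 778326) (nat_lit 6) (.e (nat_lit 81959) (nat_lit 24) .nil)))))) (.g (nat_lit 0) .nil .nil)))))))) (.nd (nat_lit 2) (.nd (nat_lit 3) (.nd (nat_lit 4) (.nd (nat_lit 5) (.nd (nat_lit 6) 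
(.lf (nat_lit 244355) (.g (nat_lit 2966) (.e (nat_lit 123184) (nat_lit 264) (.e (nat_lit 1224) (nat_lit 90) (.e (nat_lit 81959) (nat_lit 24) (.e (nat_lit 123182) (nat_lit 264) (.e (nat_lit 1222) (nat_lit 90) (.e (nat_lit 81959) (nat_lit 24) .nil)))))) (.g (nat_lit 5) .nil .nil))) 
(.lf (nat_lit 244419) (.g (nat_lit 1222) (.e (nat_lit 123185) (nat_lit 264) (.e (nat_lit 1201) (nat_lit 88) (.e (nat_lit 65630) (nat_lit 14) (.e (nat_lit 401436) (nat_lit 9) .nil)))) .nil))) (.nd (nat_lit 6) 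
(.lf (nat_lit 244387) (.g (nat_lit 1876) (.e (nat_lit 123185) (nat_lit 264) (.e (nat_lit 1201) (nat_lit 88) (.e (nat_lit 65583) (nat_lit 7) (.e (nat_lit 319538) (nat_lit 19) (.e (nat_lit 311358) (nat_lit 29) .nil))))) .nil)) 
(.lf (nat_lit 244451) (.g (nat_lit 636) (.e (nat_lit 123185) (nat_lit 264) (.e (nat_lit 1222) (nat_lit 90) (.e (nat_lit 81946) (nat_lit 20) .nil))) .nil)))) (.nd (nat_lit 5) (.nd (nat_lit 6) 
(.lf (nat_lit 244371) (.g (nat_lit 4553) (.e (nat_lit 123185) (nat_lit 264) (.e (nat_lit 1183) (nat_lit 87) (.e (nat_lit 57478) (nat_lit 28) (.e (nat_lit 557098) (nat_lit 13) (.e (nat_lit 172097) (nat_lit 9) (.e (nat_lit 426125) (nat_lit 2) (.e (nat_lit 196666) (nat_lit 13) (.e (nat_lit 65574) (nat_lit 4) .nil)))))))) (.g (nat_lit 8) .nil .nil))) 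
(.lf (nat_lit 244435) (.g (nat_lit 631) (.e (nat_lit 123185) (nat_lit 264) (.e (nat_lit 1212) (nat_lit 89) (.e (nat_lit 73782) (nat_lit 32) (.e (nat_lit 3089) (nat_lit 191) .nil)))) .nil))) (.nd (nat_lit 6) 
(.lf (nat_lit 244403) (.g (nat_lit 1353) (.e (nat_lit 123185) (nat_lit 264) (.e (nat_lit 1201) (nat_lit 88) (.e (nat_lit 65617) (nat_lit 10) (.e (nat_lit 344168) (nat_lit 40) (.e (nat_lit 671762) (nat_lit 4) .nil))))) .nil)) 
(.lf (nat_lit 244467) (.g (nat_lit 1804) (.e (nat_lit 123185) (nat_lit 264) (.e (nat_lit 1223) (nat_lit 90) (.e (nat_lit 81950) (nat_lit 21) (.e (nat_lit 57872) (nat_lit 264) (.e (nat_lit 1219) (nat_lit 90) (.e (nat_lit 81957) (nat_lit 24) .nil)))))) (.g (nat_lit 4) .nil .nil)))))) (.nd (nat_lit 4) (.nd (nat_lit 5) (.nd (nat_lit 6) 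
(.lf (nat_lit 244363) (.g (nat_lit 2416) (.e (nat_lit 123184) (nat_lit 264) (.e (nat_lit 1296) (nat_lit 96) (.e (nat_lit 131123) (nat_lit 12) (.e (nat_lit 385094) (nat_lit 49) (.e (nat_lit 778326) (nat_lit 6) (.e (nat_lit 81959) (nat_lit 24) .nil)))))) (.g (nat_lit 0) .nil .nil))) 
(.lf (nat_lit 244427) (.g (nat_lit 1065) (.e (nat_lit 123185) (nat_lit 264) (.e (nat_lit 1201) (nat_lit 88) (.e (nat_lit 65630) (nat_lit 14) (.e (nat_lit 401458) (nat_lit 13) .nil)))) .nil))) (.nd (nat_lit 6) 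
(.lf (nat_lit 244395) (.g (nat_lit 2105) (.e (nat_lit 123185) (nat_lit 264) (.e (nat_lit 1201) (nat_lit 88) (.e (nat_lit 65610) (nat_lit 10) (.e (nat_lit 344168) (nat_lit 40) (.e (nat_lit 671751) (nat_lit 0) .nil))))) .nil)) 
(.lf (nat_lit 244459) (.g (nat_lit 378) (.e (nat_lit 123185) (nat_lit 264) (.e (nat_lit 1222) (nat_lit 90) (.e (nat_lit 81957) (nat_lit 24) .nil))) .nil)))) (.nd (nat_lit 5) (.nd (nat_lit 6) 
(.lf (nat_lit 244379) (.g (nat_lit 1773) (.e (nat_lit 123185) (nat_lit 264) (.e (nat_lit 1187) (nat_lit 88) (.e (nat_lit 65630) (nat_lit 14) (.e (nat_lit 401438) (nat_lit 9) (.e (nat_lit 426542) (nat_lit 29) .nil))))) .nil)) 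
(.lf (nat_lit 244443) (.g (nat_lit 636) (.e (nat_lit 123185) (nat_lit 264) (.e (nat_lit 1222) (nat_lit 90) (.e (nat_lit 81920) (nat_lit 0) .nil))) .nil))) (.nd (nat_lit 6) 
(.lf (nat_lit 244411) (.g (nat_lit 921) (.e (nat_lit 123185) (nat_lit 264) (.e (nat_lit 1201) (nat_lit 88) (.e (nat_lit 65628) (nat_lit 14) (.e (nat_lit 401436) (nat_lit 9) .nil)))) .nil)) 
(.lf (nat_lit 244475) (.g (nat_lit 347) (.e (nat_lit 123185) (nat_lit 264) (.e (nat_lit 1296) (nat_lit 96) (.e (nat_lit 131120) (nat_lit 12) .nil))) .nil)))))) (.nd (nat_lit 3) (.nd (nat_lit 4) (.nd (nat_lit 5) (.nd (nat_lit 6) 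
(.lf (nat_lit 244359) (.g (nat_lit 3207) (.e (nat_lit 123184) (nat_lit 264) (.e (nat_lit 1224) (nat_lit 90) (.e (nat_lit 81959) (nat_lit 24) (.e (nat_lit 123195) (nat_lit 266) (.e (nat_lit 57425) (nat_lit 14) (.e (nat_lit 352318) (nat_lit 24) .nil)))))) (.g (nat_lit 4) .nil .nil))) 
(.lf (nat_lit 244423) (.g (nat_lit 4206) (.e (nat_lit 123185) (nat_lit 264) (.e (nat_lit 1201) (nat_lit 88) (.e (nat_lit 65630) (nat_lit 14) (.e (nat_lit 401454) (nat_lit 12) (.e (nat_lit 475141) (nat_lit 8) (.e (nat_lit 1512) (nat_lit 108) (.e (nat_lit 336035) (nat_lit 4) .nil))))))) (.g (nat_lit 4) .nil .nil)))) (.nd (nat_lit 6) 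
(.lf (nat_lit 244391) (.g (nat_lit 1714) (.e (nat_lit 123185) (nat_lit 264) (.e (nat_lit 1201) (nat_lit 88) (.e (nat_lit 65610) (nat_lit 10) (.e (nat_lit 344097) (nat_lit 18) (.e (nat_lit 5905) (nat_lit 320) .nil))))) .nil)) 
(.lf (nat_lit 244455) (.g (nat_lit 2769) (.e (nat_lit 123185) (nat_lit 264) (.e (nat_lit 1222) (nat_lit 90) (.e (nat_lit 81948) (nat_lit 21) (.e (nat_lit 57872) (nat_lit 264) (.e (nat_lit 1219) (nat_lit 90) (.e (nat_lit 81959) (nat_lit 24) .nil)))))) (.g (nat_lit 5) .nil .nil))))) (.nd (nat_lit 5) (.nd (nat_lit 6) 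
(.lf (nat_lit 244375) (.g (nat_lit 4285) (.e (nat_lit 123185) (nat_lit 264) (.e (nat_lit 1183) (nat_lit 87) (.e (nat_lit 57478) (nat_lit 28) (.e (nat_lit 557109) (nat_lit 15) (.e (nat_lit 188449) (nat_lit 22) (.e (nat_lit 196666) (nat_lit 13) (.e (nat_lit 65574) (nat_lit 4) .nil))))))) (.g (nat_lit 7) .nil .nil))) 
(.lf (nat_lit 244439) (.g (nat_lit 894) (.e (nat_lit 123185) (nat_lit 264) (.e (nat_lit 1212) (nat_lit 89) (.e (nat_lit 73792) (nat_lit 45) (.e (nat_lit 1385) (nat_lit 105) (.e (nat_lit 311358) (nat_lit 29) .nil))))) .nil))) (.nd (nat_lit 6) 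
(.lf (nat_lit 244407) (.g (nat_lit 656) (.e (nat_lit 123185) (nat_lit 264) (.e (nat_lit 1201) (nat_lit 88) (.e (nat_lit 65623) (nat_lit 12) .nil))) .nil)) 
(.lf (nat_lit 244471) (.g (nat_lit 3016) (.e (nat_lit 123185) (nat_lit 264) (.e (nat_lit 1224) (nat_lit 90) (.e (nat_lit 81959) (nat_lit 24) (.e (nat_lit 123182) (nat_lit 264) (.e (nat_lit 1224) (nat_lit 90) (.e (nat_lit 81957) (nat_lit 24) .nil)))))) (.g (nat_lit 5) .nil .nil)))))) (.nd (nat_lit 4) (.nd (nat_lit 5) (.nd (nat_lit 6) 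
(.lf (nat_lit 244367) (.g (nat_lit 1506) (.e (nat_lit 123184) (nat_lit 264) (.e (nat_lit 1296) (nat_lit 96) (.e (nat_lit 131123) (nat_lit 12) (.e (nat_lit 385106) (nat_lit 50) (.e (nat_lit 786479) (nat_lit 29) .nil))))) .nil)) 
(.lf (nat_lit 244431) (.g (nat_lit 2396) (.e (nat_lit 123185) (nat_lit 264) (.e (nat_lit 1201) (nat_lit 88) (.e (nat_lit 65630) (nat_lit 14) (.e (nat_lit 401459) (nat_lit 13) (.e (nat_lit 483387) (nat_lit 23) .nil))))) .nil))) (.nd (nat_lit 6) 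
(.lf (nat_lit 244399) (.g (nat_lit 2130) (.e (nat_lit 123185) (nat_lit 264) (.e (nat_lit 1201) (nat_lit 88) (.e (nat_lit 65610) (nat_lit 10) (.e (nat_lit 344169) (nat_lit 40) (.e (nat_lit 671747) (nat_lit 0) .nil))))) .nil)) 
(.lf (nat_lit 244463) (.g (nat_lit 3408) (.e (nat_lit 123185) (nat_lit 264) (.e (nat_lit 1222) (nat_lit 90) (.e (nat_lit 81959) (nat_lit 24) (.e (nat_lit 123182) (nat_lit 264) (.e (nat_lit 1222) (nat_lit 90) (.e (nat_lit 81957) (nat_lit 24) .nil)))))) (.g (nat_lit 5) .nil .nil))))) (.nd (nat_lit 5) (.nd (nat_lit 6) 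
(.lf (nat_lit 244383) (.g (nat_lit 1296) (.e (nat_lit 123185) (nat_lit 264) (.e (nat_lit 1193) (nat_lit 88) (.e (nat_lit 65622) (nat_lit 12) (.e (nat_lit 385094) (nat_lit 49) (.e (nat_lit 778326) (nat_lit 6) .nil))))) .nil)) 
(.lf (nat_lit 244447) (.g (nat_lit 636) (.e (nat_lit 123185) (nat_lit 264) (.e (nat_lit 1222) (nat_lit 90) (.e (nat_lit 81938) (nat_lit 20) .nil))) .nil))) (.nd (nat_lit 6) 
(.lf (nat_lit 244415) (.g (nat_lit 1540) (.e (nat_lit 123185) (nat_lit 264) (.e (nat_lit 1201) (nat_lit 88) (.e (nat_lit 65628) (nat_lit 14) (.e (nat_lit 401458) (nat_lit 13) (.e (nat_lit 483391) (nat_lit 23) .nil))))) .nil)) 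
(.lf (nat_lit 244479) (.g (nat_lit 419) (.e (nat_lit 123185) (nat_lit 264) (.e (nat_lit 1296) (nat_lit 96) (.e (nat_lit 131122) (nat_lit 12) .nil))) .nil)))))))))

noncomputable def tv3182 : DT := (.nd (nat_lit 0) (.nd (nat_lit 1) (.nd (nat_lit 2) (.nd (nat_lit 3) (.nd (nat_lit 4) (.nd (nat_lit 5) (.nd (nat_lit 6) 
(.lf (nat_lit 244480) (.g (nat_lit 760) (.e (nat_lit 123185) (nat_lit 264) (.e (nat_lit 1296) (nat_lit 96) (.e (nat_lit 131122) (nat_lit 12) (.e (nat_lit 385091) (nat_lit 49) (.e (nat_lit 778327) (nat_lit 6) .nil))))) .nil)) 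
(.lf (nat_lit 244544) (.g (nat_lit 2157) (.e (nat_lit 123194) (nat_lit 266) (.e (nat_lit 57407) (nat_lit 12) (.e (nat_lit 336208) (nat_lit 12) (.e (nat_lit 385094) (nat_lit 49) (.e (nat_lit 778326) (nat_lit 6) .nil))))) .nil))) (.nd (nat_lit 6) 
(.lf (nat_lit 244512) (.g (nat_lit 2406) (.e (nat_lit 123194) (nat_lit 266) (.e (nat_lit 57372) (nat_lit 2) (.e (nat_lit 90172) (nat_lit 14) (.e (nat_lit 180243) (nat_lit 5) (.e (nat_lit 532508) (nat_lit 2) (.e (nat_lit 114432) (nat_lit 3) (.e (nat_lit 163962) (nat_lit 25) (.e (nat_lit 532517) (nat_lit 4) .nil)))))))) (.g (nat_lit 5) .nil .nil))) 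
(.lf (nat_lit 244576) (.g (nat_lit 4150) (.e (nat_lit 123195) (nat_lit 266) (.e (nat_lit 57345) (nat_lit 0) (.e (nat_lit 2031) (nat_lit 140) (.e (nat_lit 688177) (nat_lit 16) (.e (nat_lit 65586) (nat_lit 7) (.e (nat_lit 319531) (nat_lit 16) (.e (nat_lit 286748) (nat_lit 9) (.e (nat_lit 336034) (nat_lit 4) .nil)))))))) (.g (nat_lit 7) .nil .nil))))) (.nd (nat_lit 5) (.nd (nat_lit 6) 
(.lf (nat_lit 244496) (.g (nat_lit 3506) (.e (nat_lit 123194) (nat_lit 266) (.e (nat_lit 57347) (nat_lit 0) (.e (nat_lit 2031) (nat_lit 140) (.e (nat_lit 688177) (nat_lit 16) (.e (nat_lit 65583) (nat_lit 7) (.e (nat_lit 319530) (nat_lit 16) (.e (nat_lit 286748) (nat_lit 9) (.e (nat_lit 336031) (nat_lit 4) .nil)))))))) (.g (nat_lit 6) .nil .nil))) 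
(.lf (nat_lit 244560) (.g (nat_lit 905) (.e (nat_lit 123194) (nat_lit 266) (.e (nat_lit 57424) (nat_lit 14) (.e (nat_lit 352262) (nat_lit 0) .nil))) .nil))) (.nd (nat_lit 6) 
(.lf (nat_lit 244528) (.g (nat_lit 2074) (.e (nat_lit 123194) (nat_lit 266) (.e (nat_lit 57375) (nat_lit 2) (.e (nat_lit 90172) (nat_lit 14) (.e (nat_lit 180244) (nat_lit 5) (.e (nat_lit 532511) (nat_lit 2) .nil))))) .nil)) 
(.lf (nat_lit 244592) (.g (nat_lit 857) (.e (nat_lit 123195) (nat_lit 266) (.e (nat_lit 57371) (nat_lit 2) (.e (nat_lit 98048) (nat_lit 5) .nil))) .nil))))) (.nd (nat_lit 4) (.nd (nat_lit 5) (.nd (nat_lit 6) 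
(.lf (nat_lit 244488) (.g (nat_lit 1574) (.e (nat_lit 123185) (nat_lit 264) (.e (nat_lit 1296) (nat_lit 96) (.e (nat_lit 131123) (nat_lit 12) (.e (nat_lit 385106) (nat_lit 50) (.e (nat_lit 786479) (nat_lit 29) .nil))))) .nil)) 
(.lf (nat_lit 244552) (.g (nat_lit 1314) (.e (nat_lit 123194) (nat_lit 266) (.e (nat_lit 57412) (nat_lit 12) (.e (nat_lit 336173) (nat_lit 10) (.e (nat_lit 344169) (nat_lit 40) .nil)))) .nil))) (.nd (nat_lit 6) 
(.lf (nat_lit 244520) (.g (nat_lit 2112) (.e (nat_lit 123194) (nat_lit 266) (.e (nat_lit 57372) (nat_lit 2) (.e (nat_lit 90174) (nat_lit 14) (.e (nat_lit 180243) (nat_lit 5) (.e (nat_lit 532511) (nat_lit 2) .nil))))) .nil)) 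
(.lf (nat_lit 244584) (.g (nat_lit 1386) (.e (nat_lit 123195) (nat_lit 266) (.e (nat_lit 57354) (nat_lit 0) (.e (nat_lit 1855) (nat_lit 124) (.e (nat_lit 557107) (nat_lit 15) .nil)))) .nil)))) (.nd (nat_lit 5) (.nd (nat_lit 6) 
(.lf (nat_lit 244504) (.g (nat_lit 2192) (.e (nat_lit 123194) (nat_lit 266) (.e (nat_lit 57371) (nat_lit 2) (.e (nat_lit 90172) (nat_lit 14) (.e (nat_lit 180244) (nat_lit 5) (.e (nat_lit 532508) (nat_lit 2) .nil))))) .nil)) 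
(.lf (nat_lit 244568) (.g (nat_lit 1716) (.e (nat_lit 123194) (nat_lit 266) (.e (nat_lit 57424) (nat_lit 14) (.e (nat_lit 352318) (nat_lit 24) (.e (nat_lit 123185) (nat_lit 264) .nil)))) .nil))) (.nd (nat_lit 6) 
(.lf (nat_lit 244536) (.g (nat_lit 1843) (.e (nat_lit 123194) (nat_lit 266) (.e (nat_lit 57379) (nat_lit 3) (.e (nat_lit 98366) (nat_lit 27) (.e (nat_lit 434245) (nat_lit 28) .nil)))) .nil)) 
(.lf (nat_lit 244600) (.g (nat_lit 3260) (.e (nat_lit 123195) (nat_lit 266) (.e (nat_lit 57371) (nat_lit 2) (.e (nat_lit 90174) (nat_lit 14) (.e (nat_lit 180243) (nat_lit 5) (.e (nat_lit 532508) (nat_lit 2) (.e (nat_lit 114432) (nat_lit 3) (.e (nat_lit 163962) (nat_lit 25) (.e (nat_lit 532517) (nat_lit 4) .nil)))))))) (.g (nat_lit 4) .nil .nil))))))) 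
(.nd (nat_lit 3) (.nd (nat_lit 4) (.nd (nat_lit 5) (.nd (nat_lit 6) 
(.lf (nat_lit 244484) (.g (nat_lit 2252) (.e (nat_lit 123185) (nat_lit 264) (.e (nat_lit 1296) (nat_lit 96) (.e (nat_lit 131123) (nat_lit 12) (.e (nat_lit 385094) (nat_lit 49) (.e (nat_lit 778326) (nat_lit 6) (.e (nat_lit 81957) (nat_lit 24) .nil)))))) (.g (nat_lit 0) .nil .nil))) 
(.lf (nat_lit 244548) (.g (nat_lit 1522) (.e (nat_lit 123194) (nat_lit 266) (.e (nat_lit 57411) (nat_lit 12) (.e (nat_lit 336208) (nat_lit 12) (.e (nat_lit 385093) (nat_lit 49) .nil)))) .nil))) (.nd (nat_lit 6) 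
(.lf (nat_lit 244516) (.g (nat_lit 1985) (.e (nat_lit 123194) (nat_lit 266) (.e (nat_lit 57372) (nat_lit 2) (.e (nat_lit 90172) (nat_lit 14) (.e (nat_lit 180244) (nat_lit 5) (.e (nat_lit 532511) (nat_lit 2) .nil))))) .nil)) 
(.lf (nat_lit 244580) (.g (nat_lit 4976) (.e (nat_lit 123195) (nat_lit 266) (.e (nat_lit 57347) (nat_lit 0) (.e (nat_lit 2031) (nat_lit 140) (.e (nat_lit 688177) (nat_lit 16) (.e (nat_lit 65586) (nat_lit 7) (.e (nat_lit 319531) (nat_lit 16) (.e (nat_lit 286748) (nat_lit 9) (.e (nat_lit 336034) (nat_lit 4) .nil)))))))) (.g (nat_lit 7) .nil .nil))))) (.nd (nat_lit 5) (.nd (nat_lit 6) 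
(.lf (nat_lit 244500) (.g (nat_lit 828) (.e (nat_lit 123194) (nat_lit 266) (.e (nat_lit 57371) (nat_lit 2) (.e (nat_lit 90112) (nat_lit 0) .nil))) .nil)) 
(.lf (nat_lit 244564) (.g (nat_lit 1268) (.e (nat_lit 123194) (nat_lit 266) (.e (nat_lit 57424) (nat_lit 14) (.e (nat_lit 352318) (nat_lit 24) (.e (nat_lit 123183) (nat_lit 264) .nil)))) .nil))) (.nd (nat_lit 6) 
(.lf (nat_lit 244532) (.g (nat_lit 2025) (.e (nat_lit 123194) (nat_lit 266) (.e (nat_lit 57375) (nat_lit 2) (.e (nat_lit 90174) (nat_lit 14) (.e (nat_lit 180243) (nat_lit 5) (.e (nat_lit 532510) (nat_lit 2) (.e (nat_lit 114432) (nat_lit 0) (.e (nat_lit 2684) (nat_lit 168) (.e (nat_lit 204840) (nat_lit 21) .nil)))))))) (.g (nat_lit 4) .nil .nil))) 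
(.lf (nat_lit 244596) (.g (nat_lit 2771) (.e (nat_lit 123195) (nat_lit 266) (.e (nat_lit 57371) (nat_lit 2) (.e (nat_lit 90172) (nat_lit 14) (.e (nat_lit 180250) (nat_lit 10) (.e (nat_lit 573480) (nat_lit 13) .nil))))) .nil))))) (.nd (nat_lit 4) (.nd (nat_lit 5) (.nd (nat_lit 6) 
(.lf (nat_lit 244492) (.g (nat_lit 1369) (.e (nat_lit 123191) (nat_lit 264) (.e (nat_lit 1221) (nat_lit 90) (.e (nat_lit 81959) (nat_lit 24) (.e (nat_lit 123182) (nat_lit 264) .nil)))) .nil)) 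
(.lf (nat_lit 244556) (.g (nat_lit 2013) (.e (nat_lit 123194) (nat_lit 266) (.e (nat_lit 57412) (nat_lit 12) (.e (nat_lit 336193) (nat_lit 12) (.e (nat_lit 385094) (nat_lit 49) (.e (nat_lit 778326) (nat_lit 6) .nil))))) .nil))) (.nd (nat_lit 6) 
(.lf (nat_lit 244524) (.g (nat_lit 2462) (.e (nat_lit 123194) (nat_lit 266) (.e (nat_lit 57375) (nat_lit 2) (.e (nat_lit 90172) (nat_lit 14) (.e (nat_lit 180243) (nat_lit 5) (.e (nat_lit 532508) (nat_lit 2) (.e (nat_lit 114432) (nat_lit 0) (.e (nat_lit 2685) (nat_lit 168) (.e (nat_lit 204840) (nat_lit 21) .nil)))))))) (.g (nat_lit 5) .nil .nil))) 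
(.lf (nat_lit 244588) (.g (nat_lit 5302) (.e (nat_lit 123195) (nat_lit 266) (.e (nat_lit 57354) (nat_lit 0) (.e (nat_lit 1857) (nat_lit 124) (.e (nat_lit 557109) (nat_lit 15) (.e (nat_lit 188449) (nat_lit 22) (.e (nat_lit 196666) (nat_lit 13) (.e (nat_lit 65574) (nat_lit 4) .nil))))))) (.g (nat_lit 6) .nil .nil))))) (.nd (nat_lit 5) (.nd (nat_lit 6) 
(.lf (nat_lit 244508) (.g (nat_lit 3051) (.e (nat_lit 123194) (nat_lit 266) (.e (nat_lit 57371) (nat_lit 2) (.e (nat_lit 90174) (nat_lit 14) (.e (nat_lit 180243) (nat_lit 5) (.e (nat_lit 532511) (nat_lit 2) (.e (nat_lit 114432) (nat_lit 0) (.e (nat_lit 2684) (nat_lit 168) (.e (nat_lit 204840) (nat_lit 21) .nil)))))))) (.g (nat_lit 5) .nil .nil))) 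
(.lf (nat_lit 244572) (.g (nat_lit 1262) (.e (nat_lit 123194) (nat_lit 266) (.e (nat_lit 57427) (nat_lit 15) (.e (nat_lit 360486) (nat_lit 18) (.e (nat_lit 671764) (nat_lit 6) .nil)))) .nil))) (.nd (nat_lit 6) 
(.lf (nat_lit 244540) (.g (nat_lit 4709) (.e (nat_lit 123194) (nat_lit 266) (.e (nat_lit 57390) (nat_lit 5) (.e (nat_lit 114723) (nat_lit 24) (.e (nat_lit 106536) (nat_lit 11) (.e (nat_lit 16473) (nat_lit 14) (.e (nat_lit 491546) (nat_lit 9) (.e (nat_lit 336032) (nat_lit 4) .nil))))))) (.g (nat_lit 6) .nil .nil))) 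
(.lf (nat_lit 244604) (.g (nat_lit 4302) (.e (nat_lit 123195) (nat_lit 266) (.e (nat_lit 57371) (nat_lit 2) (.e (nat_lit 90174) (nat_lit 14) (.e (nat_lit 180250) (nat_lit 10) (.e (nat_lit 573482) (nat_lit 13) (.e (nat_lit 73472) (nat_lit 18) (.e (nat_lit 204840) (nat_lit 21) .nil))))))) (.g (nat_lit 5) .nil .nil)))))))) 
(.nd (nat_lit 2) (.nd (nat_lit 3) (.nd (nat_lit 4) (.nd (nat_lit 5) (.nd (nat_lit 6) 
(.lf (nat_lit 244482) (.g (nat_lit 1098) (.e (nat_lit 123185) (nat_lit 264) (.e (nat_lit 1296) (nat_lit 96) (.e (nat_lit 131123) (nat_lit 12) (.e (nat_lit 385092) (nat_lit 49) (.e (nat_lit 778326) (nat_lit 6) .nil))))) .nil)) 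
(.lf (nat_lit 244546) (.g (nat_lit 632) (.e (nat_lit 123194) (nat_lit 266) (.e (nat_lit 57409) (nat_lit 12) (.e (nat_lit 336182) (nat_lit 11) .nil))) .nil))) (.nd (nat_lit 6) 
(.lf (nat_lit 244514) (.g (nat_lit 2634) (.e (nat_lit 123194) (nat_lit 266) (.e (nat_lit 57372) (nat_lit 2) (.e (nat_lit 90172) (nat_lit 14) (.e (nat_lit 180243) (nat_lit 5) (.e (nat_lit 532511) (nat_lit 2) (.e (nat_lit 114432) (nat_lit 0) (.e (nat_lit 2684) (nat_lit 168) (.e (nat_lit 204840) (nat_lit 21) .nil)))))))) (.g (nat_lit 5) .nil .nil))) 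
(.lf (nat_lit 244578) (.g (nat_lit 3649) (.e (nat_lit 123195) (nat_lit 266) (.e (nat_lit 57347) (nat_lit 0) (.e (nat_lit 2031) (nat_lit 140) (.e (nat_lit 688177) (nat_lit 16) (.e (nat_lit 65583) (nat_lit 7) (.e (nat_lit 319530) (nat_lit 16) (.e (nat_lit 286748) (nat_lit 9) (.e (nat_lit 336030) (nat_lit 4) .nil)))))))) (.g (nat_lit 6) .nil .nil))))) (.nd (nat_lit 5) (.nd (nat_lit 6) 
(.lf (nat_lit 244498) (.g (nat_lit 3562) (.e (nat_lit 123194) (nat_lit 266) (.e (nat_lit 57347) (nat_lit 0) (.e (nat_lit 2031) (nat_lit 140) (.e (nat_lit 688177) (nat_lit 16) (.e (nat_lit 65583) (nat_lit 7) (.e (nat_lit 319530) (nat_lit 16) (.e (nat_lit 286748) (nat_lit 9) (.e (nat_lit 336034) (nat_lit 4) .nil)))))))) (.g (nat_lit 6) .nil .nil))) 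
(.lf (nat_lit 244562) (.g (nat_lit 2314) (.e (nat_lit 123194) (nat_lit 266) (.e (nat_lit 57424) (nat_lit 14) (.e (nat_lit 352318) (nat_lit 24) (.e (nat_lit 123182) (nat_lit 264) (.e (nat_lit 1224) (nat_lit 90) .nil))))) .nil))) (.nd (nat_lit 6) 
(.lf (nat_lit 244530) (.g (nat_lit 2737) (.e (nat_lit 123194) (nat_lit 266) (.e (nat_lit 57375) (nat_lit 2) (.e (nat_lit 90174) (nat_lit 14) (.e (nat_lit 180243) (nat_lit 5) (.e (nat_lit 532508) (nat_lit 2) (.e (nat_lit 114432) (nat_lit 0) (.e (nat_lit 2685) (nat_lit 168) (.e (nat_lit 204840) (nat_lit 21) .nil)))))))) (.g (nat_lit 5) .nil .nil))) 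
(.lf (nat_lit 244594) (.g (nat_lit 3059) (.e (nat_lit 123195) (nat_lit 266) (.e (nat_lit 57371) (nat_lit 2) (.e (nat_lit 90172) (nat_lit 14) (.e (nat_lit 180244) (nat_lit 5) (.e (nat_lit 532508) (nat_lit 2) (.e (nat_lit 114432) (nat_lit 0) (.e (nat_lit 2685) (nat_lit 168) (.e (nat_lit 204840) (nat_lit 21) .nil)))))))) (.g (nat_lit 4) .nil .nil)))))) 
(.nd (nat_lit 4) (.nd (nat_lit 5) (.nd (nat_lit 6) 
(.lf (nat_lit 244490) (.g (nat_lit 1829) (.e (nat_lit 123190) (nat_lit 264) (.e (nat_lit 1196) (nat_lit 88) (.e (nat_lit 65624) (nat_lit 12) (.e (nat_lit 385093) (nat_lit 49) (.e (nat_lit 778327) (nat_lit 6) .nil))))) .nil)) 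
(.lf (nat_lit 244554) (.g (nat_lit 1389) (.e (nat_lit 123194) (nat_lit 266) (.e (nat_lit 57412) (nat_lit 12) (.e (nat_lit 336193) (nat_lit 12) (.e (nat_lit 385092) (nat_lit 49) .nil)))) .nil))) (.nd (nat_lit 6) 
(.lf (nat_lit 244522) (.g (nat_lit 2396) (.e (nat_lit 123194) (nat_lit 266) (.e (nat_lit 57374) (nat_lit 2) (.e (nat_lit 90170) (nat_lit 13) (.e (nat_lit 172065) (nat_lit 3) .nil)))) .nil)) 
(.lf (nat_lit 244586) (.g (nat_lit 4319) (.e (nat_lit 123195) (nat_lit 266) (.e (nat_lit 57354) (nat_lit 0) (.e (nat_lit 1855) (nat_lit 124) (.e (nat_lit 557107) (nat_lit 15) (.e (nat_lit 188447) (nat_lit 22) (.e (nat_lit 196666) (nat_lit 13) (.e (nat_lit 65574) (nat_lit 4) .nil))))))) (.g (nat_lit 6) .nil .nil))))) (.nd (nat_lit 5) (.nd (nat_lit 6) 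
(.lf (nat_lit 244506) (.g (nat_lit 3005) (.e (nat_lit 123194) (nat_lit 266) (.e (nat_lit 57371) (nat_lit 2) (.e (nat_lit 90174) (nat_lit 14) (.e (nat_lit 180243) (nat_lit 5) (.e (nat_lit 532508) (nat_lit 2) (.e (nat_lit 114432) (nat_lit 0) (.e (nat_lit 2684) (nat_lit 168) (.e (nat_lit 204840) (nat_lit 21) .nil)))))))) (.g (nat_lit 5) .nil .nil))) 
(.lf (nat_lit 244570) (.g (nat_lit 917) (.e (nat_lit 123194) (nat_lit 266) (.e (nat_lit 57427) (nat_lit 15) (.e (nat_lit 360456) (nat_lit 0) (.e (nat_lit 5818) (nat_lit 320) .nil)))) .nil))) (.nd (nat_lit 6) 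
(.lf (nat_lit 244538) (.g (nat_lit 1606) (.e (nat_lit 123194) (nat_lit 266) (.e (nat_lit 57379) (nat_lit 3) (.e (nat_lit 98367) (nat_lit 27) (.e (nat_lit 434248) (nat_lit 28) .nil)))) .nil)) 
(.lf (nat_lit 244602) (.g (nat_lit 2562) (.e (nat_lit 123195) (nat_lit 266) (.e (nat_lit 57371) (nat_lit 2) (.e (nat_lit 90174) (nat_lit 14) (.e (nat_lit 180250) (nat_lit 10) (.e (nat_lit 573480) (nat_lit 13) .nil))))) .nil)))))) (.nd (nat_lit 3) (.nd (nat_lit 4) (.nd (nat_lit 5) (.nd (nat_lit 6) 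
(.lf (nat_lit 244486) (.g (nat_lit 2072) (.e (nat_lit 123185) (nat_lit 264) (.e (nat_lit 1296) (nat_lit 96) (.e (nat_lit 131123) (nat_lit 12) (.e (nat_lit 385094) (nat_lit 49) (.e (nat_lit 778327) (nat_lit 6) (.e (nat_lit 81957) (nat_lit 24) .nil)))))) (.g (nat_lit 0) .nil .nil))) 
(.lf (nat_lit 244550) (.g (nat_lit 1413) (.e (nat_lit 123194) (nat_lit 266) (.e (nat_lit 57411) (nat_lit 12) (.e (nat_lit 336208) (nat_lit 12) (.e (nat_lit 385094) (nat_lit 49) .nil)))) .nil))) (.nd (nat_lit 6) 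
(.lf (nat_lit 244518) (.g (nat_lit 1389) (.e (nat_lit 123194) (nat_lit 266) (.e (nat_lit 57372) (nat_lit 2) (.e (nat_lit 90174) (nat_lit 14) (.e (nat_lit 180243) (nat_lit 5) .nil)))) .nil)) 
(.lf (nat_lit 244582) (.g (nat_lit 4188) (.e (nat_lit 123195) (nat_lit 266) (.e (nat_lit 57354) (nat_lit 0) (.e (nat_lit 1855) (nat_lit 124) (.e (nat_lit 557098) (nat_lit 13) (.e (nat_lit 172115) (nat_lit 10) (.e (nat_lit 434231) (nat_lit 23) (.e (nat_lit 532535) (nat_lit 9) (.e (nat_lit 336030) (nat_lit 4) .nil)))))))) (.g (nat_lit 6) .nil .nil))))) (.nd (nat_lit 5) (.nd (nat_lit 6) 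
(.lf (nat_lit 244502) (.g (nat_lit 763) (.e (nat_lit 123194) (nat_lit 266) (.e (nat_lit 57371) (nat_lit 2) (.e (nat_lit 98048) (nat_lit 0) .nil))) .nil)) 
(.lf (nat_lit 244566) (.g (nat_lit 2032) (.e (nat_lit 123194) (nat_lit 266) (.e (nat_lit 57424) (nat_lit 14) (.e (nat_lit 352318) (nat_lit 24) (.e (nat_lit 123184) (nat_lit 264) (.e (nat_lit 1224) (nat_lit 90) (.e (nat_lit 81958) (nat_lit 24) .nil)))))) (.g (nat_lit 4) .nil .nil)))) (.nd (nat_lit 6) 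
(.lf (nat_lit 244534) (.g (nat_lit 2247) (.e (nat_lit 123194) (nat_lit 266) (.e (nat_lit 57379) (nat_lit 3) (.e (nat_lit 98366) (nat_lit 27) (.e (nat_lit 434231) (nat_lit 23) (.e (nat_lit 532507) (nat_lit 2) .nil))))) .nil)) 
(.lf (nat_lit 244598) (.g (nat_lit 1211) (.e (nat_lit 123195) (nat_lit 266) (.e (nat_lit 57371) (nat_lit 2) (.e (nat_lit 90173) (nat_lit 14) (.e (nat_lit 180252) (nat_lit 10) .nil)))) .nil))))) (.nd (nat_lit 4) (.nd (nat_lit 5) (.nd (nat_lit 6) 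
(.lf (nat_lit 244494) (.g (nat_lit 1197) (.e (nat_lit 130816) (nat_lit 264) (.e (nat_lit 1221) (nat_lit 90) (.e (nat_lit 81950) (nat_lit 21) (.e (nat_lit 57872) (nat_lit 264) .nil)))) .nil)) 
(.lf (nat_lit 244558) (.g (nat_lit 1139) (.e (nat_lit 123194) (nat_lit 266) (.e (nat_lit 57412) (nat_lit 12) (.e (nat_lit 336226) (nat_lit 14) (.e (nat_lit 401436) (nat_lit 9) .nil)))) .nil))) (.nd (nat_lit 6) 
(.lf (nat_lit 244526) (.g (nat_lit 1875) (.e (nat_lit 123194) (nat_lit 266) (.e (nat_lit 57375) (nat_lit 2) (.e (nat_lit 90172) (nat_lit 14) (.e (nat_lit 180243) (nat_lit 5) (.e (nat_lit 532510) (nat_lit 2) .nil))))) .nil)) 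
(.lf (nat_lit 244590) (.g (nat_lit 3812) (.e (nat_lit 123195) (nat_lit 266) (.e (nat_lit 57354) (nat_lit 0) (.e (nat_lit 2030) (nat_lit 140) (.e (nat_lit 688177) (nat_lit 16) (.e (nat_lit 65586) (nat_lit 7) (.e (nat_lit 319531) (nat_lit 16) (.e (nat_lit 286748) (nat_lit 9) (.e (nat_lit 336034) (nat_lit 4) .nil)))))))) (.g (nat_lit 6) .nil .nil))))) (.nd (nat_lit 5) (.nd (nat_lit 6) 
(.lf (nat_lit 244510) (.g (nat_lit 1203) (.e (nat_lit 123194) (nat_lit 266) (.e (nat_lit 57372) (nat_lit 2) (.e (nat_lit 90115) (nat_lit 0) .nil))) .nil)) 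
(.lf (nat_lit 244574) (.g (nat_lit 1049) (.e (nat_lit 123194) (nat_lit 266) (.e (nat_lit 57435) (nat_lit 17) (.e (nat_lit 376835) (nat_lit 0) (.e (nat_lit 3629) (nat_lit 227) .nil)))) .nil))) (.nd (nat_lit 6) 
(.lf (nat_lit 244542) (.g (nat_lit 921) (.e (nat_lit 123194) (nat_lit 266) (.e (nat_lit 57406) (nat_lit 12) (.e (nat_lit 336208) (nat_lit 12) .nil))) .nil)) 
(.lf (nat_lit 244606) (.g (nat_lit 1832) (.e (nat_lit 123195) (nat_lit 266) (.e (nat_lit 57373) (nat_lit 2) (.e (nat_lit 90174) (nat_lit 14) (.e (nat_lit 180243) (nat_lit 5) .nil)))) .nil)))))))) (.nd (nat_lit 1) (.nd (nat_lit 2) (.nd (nat_lit 3) (.nd (nat_lit 4) (.nd (nat_lit 5) (.nd (nat_lit 6) 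
(.lf (nat_lit 244481) (.g (nat_lit 371) (.e (nat_lit 123185) (nat_lit 264) (.e (nat_lit 1296) (nat_lit 96) (.e (nat_lit 131123) (nat_lit 12) .nil))) .nil)) 
(.lf (nat_lit 244545) (.g (nat_lit 2124) (.e (nat_lit 123194) (nat_lit 266) (.e (nat_lit 57407) (nat_lit 12) (.e (nat_lit 336208) (nat_lit 12) (.e (nat_lit 385094) (nat_lit 49) (.e (nat_lit 778327) (nat_lit 6) .nil))))) .nil))) (.nd (nat_lit 6) 
(.lf (nat_lit 244513) (.g (nat_lit 1864) (.e (nat_lit 123194) (nat_lit 266) (.e (nat_lit 57372) (nat_lit 2) (.e (nat_lit 90172) (nat_lit 14) (.e (nat_lit 180243) (nat_lit 5) (.e (nat_lit 532510) (nat_lit 2) .nil))))) .nil)) 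
(.lf (nat_lit 244577) (.g (nat_lit 499) (.e (nat_lit 123195) (nat_lit 266) (.e (nat_lit 57347) (nat_lit 0) (.e (nat_lit 1829) (nat_lit 122) .nil))) .nil)))) (.nd (nat_lit 5) (.nd (nat_lit 6) 
(.lf (nat_lit 244497) (.g (nat_lit 3265) (.e (nat_lit 123194) (nat_lit 266) (.e (nat_lit 57347) (nat_lit 0) (.e (nat_lit 2031) (nat_lit 140) (.e (nat_lit 688177) (nat_lit 16) (.e (nat_lit 65583) (nat_lit 7) (.e (nat_lit 319530) (nat_lit 16) (.e (nat_lit 286748) (nat_lit 9) (.e (nat_lit 336032) (nat_lit 4) .nil)))))))) (.g (nat_lit 6) .nil .nil))) 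
(.lf (nat_lit 244561) (.g (nat_lit 2736) (.e (nat_lit 123194) (nat_lit 266) (.e (nat_lit 57424) (nat_lit 14) (.e (nat_lit 352309) (nat_lit 21) (.e (nat_lit 57873) (nat_lit 264) (.e (nat_lit 1221) (nat_lit 90) (.e (nat_lit 81959) (nat_lit 24) .nil)))))) (.g (nat_lit 4) .nil .nil)))) (.nd (nat_lit 6) 
(.lf (nat_lit 244529) (.g (nat_lit 2380) (.e (nat_lit 123194) (nat_lit 266) (.e (nat_lit 57375) (nat_lit 2) (.e (nat_lit 90172) (nat_lit 14) (.e (nat_lit 180250) (nat_lit 10) (.e (nat_lit 573480) (nat_lit 13) .nil))))) .nil)) 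
(.lf (nat_lit 244593) (.g (nat_lit 887) (.e (nat_lit 123195) (nat_lit 266) (.e (nat_lit 57371) (nat_lit 2) (.e (nat_lit 90171) (nat_lit 14) .nil))) .nil))))) (.nd (nat_lit 4) (.nd (nat_lit 5) (.nd (nat_lit 6) 
(.lf (nat_lit 244489) (.g (nat_lit 1614) (.e (nat_lit 123190) (nat_lit 264) (.e (nat_lit 1196) (nat_lit 88) (.e (nat_lit 65624) (nat_lit 12) (.e (nat_lit 385093) (nat_lit 49) (.e (nat_lit 778326) (nat_lit 6) .nil))))) .nil)) 
(.lf (nat_lit 244553) (.g (nat_lit 1014) (.e (nat_lit 123194) (nat_lit 266) (.e (nat_lit 57412) (nat_lit 12) (.e (nat_lit 336176) (nat_lit 10) (.e (nat_lit 344168) (nat_lit 40) .nil)))) .nil))) (.nd (nat_lit 6) 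
(.lf (nat_lit 244521) (.g (nat_lit 632) (.e (nat_lit 123194) (nat_lit 266) (.e (nat_lit 57374) (nat_lit 2) (.e (nat_lit 98048) (nat_lit 0) .nil))) .nil)) 
(.lf (nat_lit 244585) (.g (nat_lit 4347) (.e (nat_lit 123195) (nat_lit 266) (.e (nat_lit 57354) (nat_lit 0) (.e (nat_lit 1855) (nat_lit 124) (.e (nat_lit 557107) (nat_lit 15) (.e (nat_lit 188447) (nat_lit 22) (.e (nat_lit 196666) (nat_lit 13) (.e (nat_lit 65572) (nat_lit 4) .nil))))))) (.g (nat_lit 6) .nil .nil))))) (.nd (nat_lit 5) (.nd (nat_lit 6) 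
(.lf (nat_lit 244505) (.g (nat_lit 2197) (.e (nat_lit 123194) (nat_lit 266) (.e (nat_lit 57371) (nat_lit 2) (.e (nat_lit 90172) (nat_lit 14) (.e (nat_lit 180244) (nat_lit 5) (.e (nat_lit 532508) (nat_lit 2) (.e (nat_lit 114432) (nat_lit 0) (.e (nat_lit 2684) (nat_lit 168) (.e (nat_lit 204840) (nat_lit 21) .nil)))))))) (.g (nat_lit 4) .nil .nil))) 
(.lf (nat_lit 244569) (.g (nat_lit 797) (.e (nat_lit 123194) (nat_lit 266) (.e (nat_lit 57427) (nat_lit 15) (.e (nat_lit 360452) (nat_lit 0) .nil))) .nil))) (.nd (nat_lit 6) 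
(.lf (nat_lit 244537) (.g (nat_lit 1909) (.e (nat_lit 123194) (nat_lit 266) (.e (nat_lit 57379) (nat_lit 3) (.e (nat_lit 98367) (nat_lit 27) (.e (nat_lit 434245) (nat_lit 28) .nil)))) .nil)) 
(.lf (nat_lit 244601) (.g (nat_lit 3221) (.e (nat_lit 123195) (nat_lit 266) (.e (nat_lit 57371) (nat_lit 2) (.e (nat_lit 90174) (nat_lit 14) (.e (nat_lit 180243) (nat_lit 5) (.e (nat_lit 532510) (nat_lit 2) (.e (nat_lit 114432) (nat_lit 0) (.e (nat_lit 2684) (nat_lit 168) (.e (nat_lit 204840) (nat_lit 21) .nil)))))))) (.g (nat_lit 4) .nil .nil))))))) 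
(.nd (nat_lit 3) (.nd (nat_lit 4) (.nd (nat_lit 5) (.nd (nat_lit 6) 
(.lf (nat_lit 244485) (.g (nat_lit 2139) (.e (nat_lit 123185) (nat_lit 264) (.e (nat_lit 1296) (nat_lit 96) (.e (nat_lit 131123) (nat_lit 12) (.e (nat_lit 385094) (nat_lit 49) (.e (nat_lit 778326) (nat_lit 6) (.e (nat_lit 81959) (nat_lit 24) .nil)))))) (.g (nat_lit 0) .nil .nil))) 
(.lf (nat_lit 244549) (.g (nat_lit 2184) (.e (nat_lit 123194) (nat_lit 266) (.e (nat_lit 57411) (nat_lit 12) (.e (nat_lit 336208) (nat_lit 12) (.e (nat_lit 385093) (nat_lit 49) (.e (nat_lit 778326) (nat_lit 6) .nil))))) .nil))) (.nd (nat_lit 6) 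
(.lf (nat_lit 244517) (.g (nat_lit 2472) (.e (nat_lit 123194) (nat_lit 266) (.e (nat_lit 57372) (nat_lit 2) (.e (nat_lit 90172) (nat_lit 14) (.e (nat_lit 180250) (nat_lit 10) (.e (nat_lit 573480) (nat_lit 13) .nil))))) .nil)) 
(.lf (nat_lit 244581) (.g (nat_lit 4158) (.e (nat_lit 123195) (nat_lit 266) (.e (nat_lit 57354) (nat_lit 0) (.e (nat_lit 1855) (nat_lit 124) (.e (nat_lit 557098) (nat_lit 13) (.e (nat_lit 172097) (nat_lit 9) (.e (nat_lit 426140) (nat_lit 3) (.e (nat_lit 204855) (nat_lit 26) (.e (nat_lit 336030) (nat_lit 4) .nil)))))))) (.g (nat_lit 6) .nil .nil))))) (.nd (nat_lit 5) (.nd (nat_lit 6) 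
(.lf (nat_lit 244501) (.g (nat_lit 828) (.e (nat_lit 123194) (nat_lit 266) (.e (nat_lit 57371) (nat_lit 2) (.e (nat_lit 90114) (nat_lit 0) .nil))) .nil)) 
(.lf (nat_lit 244565) (.g (nat_lit 1859) (.e (nat_lit 123194) (nat_lit 266) (.e (nat_lit 57424) (nat_lit 14) (.e (nat_lit 352318) (nat_lit 24) (.e (nat_lit 123183) (nat_lit 264) (.e (nat_lit 7936) (nat_lit 90) .nil))))) .nil))) (.nd (nat_lit 6) 
(.lf (nat_lit 244533) (.g (nat_lit 809) (.e (nat_lit 123194) (nat_lit 266) (.e (nat_lit 57379) (nat_lit 3) (.e (nat_lit 98366) (nat_lit 27) .nil))) .nil)) 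
(.lf (nat_lit 244597) (.g (nat_lit 3928) (.e (nat_lit 123195) (nat_lit 266) (.e (nat_lit 57371) (nat_lit 2) (.e (nat_lit 90172) (nat_lit 14) (.e (nat_lit 180250) (nat_lit 10) (.e (nat_lit 573482) (nat_lit 13) (.e (nat_lit 73472) (nat_lit 18) (.e (nat_lit 204840) (nat_lit 21) .nil))))))) (.g (nat_lit 5) .nil .nil)))))) (.nd (nat_lit 4) (.nd (nat_lit 5) (.nd (nat_lit 6) 
(.lf (nat_lit 244493) (.g (nat_lit 337) (.e (nat_lit 130816) (nat_lit 264) (.e (nat_lit 1217) (nat_lit 90) (.e (nat_lit 81950) (nat_lit 21) .nil))) .nil)) 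
(.lf (nat_lit 244557) (.g (nat_lit 1957) (.e (nat_lit 123194) (nat_lit 266) (.e (nat_lit 57412) (nat_lit 12) (.e (nat_lit 336193) (nat_lit 12) (.e (nat_lit 385094) (nat_lit 49) (.e (nat_lit 778327) (nat_lit 6) .nil))))) .nil))) (.nd (nat_lit 6) 
(.lf (nat_lit 244525) (.g (nat_lit 2378) (.e (nat_lit 123194) (nat_lit 266) (.e (nat_lit 57375) (nat_lit 2) (.e (nat_lit 90172) (nat_lit 14) (.e (nat_lit 180243) (nat_lit 5) (.e (nat_lit 532508) (nat_lit 2) (.e (nat_lit 114432) (nat_lit 3) (.e (nat_lit 163962) (nat_lit 25) (.e (nat_lit 532517) (nat_lit 4) .nil)))))))) (.g (nat_lit 5) .nil .nil))) 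
(.lf (nat_lit 244589) (.g (nat_lit 1982) (.e (nat_lit 123195) (nat_lit 266) (.e (nat_lit 57354) (nat_lit 0) (.e (nat_lit 2030) (nat_lit 140) (.e (nat_lit 688177) (nat_lit 16) (.e (nat_lit 65583) (nat_lit 7) .nil))))) .nil)))) (.nd (nat_lit 5) (.nd (nat_lit 6) 
(.lf (nat_lit 244509) (.g (nat_lit 1048) (.e (nat_lit 123194) (nat_lit 266) (.e (nat_lit 57371) (nat_lit 2) (.e (nat_lit 90174) (nat_lit 14) (.e (nat_lit 180251) (nat_lit 10) .nil)))) .nil)) 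
(.lf (nat_lit 244573) (.g (nat_lit 786) (.e (nat_lit 123194) (nat_lit 266) (.e (nat_lit 57428) (nat_lit 15) (.e (nat_lit 360486) (nat_lit 18) (.e (nat_lit 671764) (nat_lit 6) .nil)))) .nil))) (.nd (nat_lit 6) 
(.lf (nat_lit 244541) (.g (nat_lit 1843) (.e (nat_lit 123194) (nat_lit 266) (.e (nat_lit 57400) (nat_lit 10) (.e (nat_lit 319490) (nat_lit 0) (.e (nat_lit 5664) (nat_lit 312) (.e (nat_lit 2852) (nat_lit 184) .nil))))) .nil)) 
(.lf (nat_lit 244605) (.g (nat_lit 883) (.e (nat_lit 123195) (nat_lit 266) (.e (nat_lit 57373) (nat_lit 2) (.e (nat_lit 90173) (nat_lit 14) .nil))) .nil))))))) (.nd (nat_lit 2) (.nd (nat_lit 3) (.nd (nat_lit 4) (.nd (nat_lit 5) (.nd (nat_lit 6) 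
(.lf (nat_lit 244483) (.g (nat_lit 1556) (.e (nat_lit 123185) (nat_lit 264) (.e (nat_lit 1296) (nat_lit 96) (.e (nat_lit 131123) (nat_lit 12) (.e (nat_lit 385093) (nat_lit 49) (.e (nat_lit 778326) (nat_lit 6) .nil))))) .nil)) 
(.lf (nat_lit 244547) (.g (nat_lit 1558) (.e (nat_lit 123194) (nat_lit 266) (.e (nat_lit 57411) (nat_lit 12) (.e (nat_lit 336208) (nat_lit 12) (.e (nat_lit 385091) (nat_lit 49) .nil)))) .nil))) (.nd (nat_lit 6) 
(.lf (nat_lit 244515) (.g (nat_lit 1158) (.e (nat_lit 123194) (nat_lit 266) (.e (nat_lit 57372) (nat_lit 2) (.e (nat_lit 90172) (nat_lit 14) (.e (nat_lit 180244) (nat_lit 5) .nil)))) .nil)) 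
(.lf (nat_lit 244579) (.g (nat_lit 3484) (.e (nat_lit 123195) (nat_lit 266) (.e (nat_lit 57347) (nat_lit 0) (.e (nat_lit 2031) (nat_lit 140) (.e (nat_lit 688177) (nat_lit 16) (.e (nat_lit 65583) (nat_lit 7) (.e (nat_lit 319530) (nat_lit 16) (.e (nat_lit 286748) (nat_lit 9) (.e (nat_lit 336032) (nat_lit 4) .nil)))))))) (.g (nat_lit 6) .nil .nil))))) (.nd (nat_lit 5) (.nd (nat_lit 6) 
(.lf (nat_lit 244499) (.g (nat_lit 4364) (.e (nat_lit 123194) (nat_lit 266) (.e (nat_lit 57347) (nat_lit 0) (.e (nat_lit 2031) (nat_lit 140) (.e (nat_lit 688177) (nat_lit 16) (.e (nat_lit 65586) (nat_lit 7) (.e (nat_lit 319531) (nat_lit 16) (.e (nat_lit 286748) (nat_lit 9) (.e (nat_lit 336034) (nat_lit 4) .nil)))))))) (.g (nat_lit 7) .nil .nil))) 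
(.lf (nat_lit 244563) (.g (nat_lit 2180) (.e (nat_lit 123194) (nat_lit 266) (.e (nat_lit 57424) (nat_lit 14) (.e (nat_lit 352318) (nat_lit 24) (.e (nat_lit 123182) (nat_lit 264) (.e (nat_lit 7936) (nat_lit 90) .nil))))) .nil))) (.nd (nat_lit 6) 
(.lf (nat_lit 244531) (.g (nat_lit 2651) (.e (nat_lit 123194) (nat_lit 266) (.e (nat_lit 57375) (nat_lit 2) (.e (nat_lit 90174) (nat_lit 14) (.e (nat_lit 180243) (nat_lit 5) (.e (nat_lit 532508) (nat_lit 2) (.e (nat_lit 114432) (nat_lit 3) (.e (nat_lit 163962) (nat_lit 25) (.e (nat_lit 532517) (nat_lit 4) .nil)))))))) (.g (nat_lit 5) .nil .nil))) 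
(.lf (nat_lit 244595) (.g (nat_lit 2432) (.e (nat_lit 123195) (nat_lit 266) (.e (nat_lit 57371) (nat_lit 2) (.e (nat_lit 90172) (nat_lit 14) (.e (nat_lit 180244) (nat_lit 5) (.e (nat_lit 532511) (nat_lit 2) .nil))))) .nil))))) (.nd (nat_lit 4) (.nd (nat_lit 5) (.nd (nat_lit 6) 
(.lf (nat_lit 244491) (.g (nat_lit 1607) (.e (nat_lit 123191) (nat_lit 264) (.e (nat_lit 1221) (nat_lit 90) (.e (nat_lit 81948) (nat_lit 21) (.e (nat_lit 57872) (nat_lit 264) (.e (nat_lit 1221) (nat_lit 90) .nil))))) .nil)) 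
(.lf (nat_lit 244555) (.g (nat_lit 1849) (.e (nat_lit 123194) (nat_lit 266) (.e (nat_lit 57412) (nat_lit 12) (.e (nat_lit 336193) (nat_lit 12) (.e (nat_lit 385093) (nat_lit 49) (.e (nat_lit 778326) (nat_lit 6) .nil))))) .nil))) (.nd (nat_lit 6) 
(.lf (nat_lit 244523) (.g (nat_lit 2690) (.e (nat_lit 123194) (nat_lit 266) (.e (nat_lit 57375) (nat_lit 2) (.e (nat_lit 90172) (nat_lit 14) (.e (nat_lit 180243) (nat_lit 5) (.e (nat_lit 532508) (nat_lit 2) (.e (nat_lit 114432) (nat_lit 0) (.e (nat_lit 2684) (nat_lit 168) (.e (nat_lit 204840) (nat_lit 21) .nil)))))))) (.g (nat_lit 5) .nil .nil))) 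
(.lf (nat_lit 244587) (.g (nat_lit 4097) (.e (nat_lit 123195) (nat_lit 266) (.e (nat_lit 57354) (nat_lit 0) (.e (nat_lit 1855) (nat_lit 124) (.e (nat_lit 557109) (nat_lit 15) (.e (nat_lit 188452) (nat_lit 23) (.e (nat_lit 204855) (nat_lit 26) (.e (nat_lit 336030) (nat_lit 4) .nil))))))) (.g (nat_lit 5) .nil .nil))))) (.nd (nat_lit 5) (.nd (nat_lit 6) 
(.lf (nat_lit 244507) (.g (nat_lit 2253) (.e (nat_lit 123194) (nat_lit 266) (.e (nat_lit 57371) (nat_lit 2) (.e (nat_lit 90174) (nat_lit 14) (.e (nat_lit 180243) (nat_lit 5) (.e (nat_lit 532510) (nat_lit 2) .nil))))) .nil)) 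
(.lf (nat_lit 244571) (.g (nat_lit 694) (.e (nat_lit 123194) (nat_lit 266) (.e (nat_lit 57427) (nat_lit 15) (.e (nat_lit 360457) (nat_lit 0) .nil))) .nil))) (.nd (nat_lit 6) 
(.lf (nat_lit 244539) (.g (nat_lit 1538) (.e (nat_lit 123194) (nat_lit 266) (.e (nat_lit 57379) (nat_lit 3) (.e (nat_lit 98368) (nat_lit 27) (.e (nat_lit 434245) (nat_lit 28) .nil)))) .nil)) 
(.lf (nat_lit 244603) (.g (nat_lit 3686) (.e (nat_lit 123195) (nat_lit 266) (.e (nat_lit 57371) (nat_lit 2) (.e (nat_lit 90174) (nat_lit 14) (.e (nat_lit 180250) (nat_lit 10) (.e (nat_lit 573480) (nat_lit 13) (.e (nat_lit 73472) (nat_lit 18) (.e (nat_lit 204840) (nat_lit 21) .nil))))))) (.g (nat_lit 5) .nil .nil))))))) (.nd (nat_lit 3) (.nd (nat_lit 4) (.nd (nat_lit 5) (.nd (nat_lit 6) 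
(.lf (nat_lit 244487) (.g (nat_lit 2159) (.e (nat_lit 123185) (nat_lit 264) (.e (nat_lit 1296) (nat_lit 96) (.e (nat_lit 131123) (nat_lit 12) (.e (nat_lit 385094) (nat_lit 49) (.e (nat_lit 778327) (nat_lit 6) (.e (nat_lit 81959) (nat_lit 24) .nil)))))) (.g (nat_lit 0) .nil .nil))) 
(.lf (nat_lit 244551) (.g (nat_lit 1319) (.e (nat_lit 123194) (nat_lit 266) (.e (nat_lit 57412) (nat_lit 12) (.e (nat_lit 336173) (nat_lit 10) (.e (nat_lit 344168) (nat_lit 40) .nil)))) .nil))) (.nd (nat_lit 6) 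
(.lf (nat_lit 244519) (.g (nat_lit 2087) (.e (nat_lit 123194) (nat_lit 266) (.e (nat_lit 57372) (nat_lit 2) (.e (nat_lit 90174) (nat_lit 14) (.e (nat_lit 180243) (nat_lit 5) (.e (nat_lit 532508) (nat_lit 2) .nil))))) .nil)) 
(.lf (nat_lit 244583) (.g (nat_lit 3923) (.e (nat_lit 123195) (nat_lit 266) (.e (nat_lit 57354) (nat_lit 0) (.e (nat_lit 1855) (nat_lit 124) (.e (nat_lit 557101) (nat_lit 13) (.e (nat_lit 172097) (nat_lit 9) (.e (nat_lit 426140) (nat_lit 3) (.e (nat_lit 204855) (nat_lit 26) (.e (nat_lit 336030) (nat_lit 4) .nil)))))))) (.g (nat_lit 6) .nil .nil))))) (.nd (nat_lit 5) (.nd (nat_lit 6) 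
(.lf (nat_lit 244503) (.g (nat_lit 1481) (.e (nat_lit 123194) (nat_lit 266) (.e (nat_lit 57371) (nat_lit 2) (.e (nat_lit 90172) (nat_lit 14) (.e (nat_lit 180243) (nat_lit 5) .nil)))) .nil)) 
(.lf (nat_lit 244567) (.g (nat_lit 1845) (.e (nat_lit 123194) (nat_lit 266) (.e (nat_lit 57424) (nat_lit 14) (.e (nat_lit 352318) (nat_lit 24) (.e (nat_lit 123184) (nat_lit 264) (.e (nat_lit 7936) (nat_lit 90) .nil))))) .nil))) (.nd (nat_lit 6) 
(.lf (nat_lit 244535) (.g (nat_lit 2682) (.e (nat_lit 123194) (nat_lit 266) (.e (nat_lit 57379) (nat_lit 3) (.e (nat_lit 98366) (nat_lit 27) (.e (nat_lit 434244) (nat_lit 28) (.e (nat_lit 573480) (nat_lit 13) .nil))))) .nil)) 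
(.lf (nat_lit 244599) (.g (nat_lit 790) (.e (nat_lit 123195) (nat_lit 266) (.e (nat_lit 57371) (nat_lit 2) (.e (nat_lit 90174) (nat_lit 14) .nil))) .nil))))) (.nd (nat_lit 4) (.nd (nat_lit 5) (.nd (nat_lit 6) 
(.lf (nat_lit 244495) (.g (nat_lit 499) (.e (nat_lit 123194) (nat_lit 266) (.e (nat_lit 57347) (nat_lit 0) (.e (nat_lit 1829) (nat_lit 122) .nil))) .nil)) 
(.lf (nat_lit 244559) (.g (nat_lit 718) (.e (nat_lit 123194) (nat_lit 266) (.e (nat_lit 57423) (nat_lit 14) (.e (nat_lit 352262) (nat_lit 0) .nil))) .nil))) (.nd (nat_lit 6) 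
(.lf (nat_lit 244527) (.g (nat_lit 2623) (.e (nat_lit 123194) (nat_lit 266) (.e (nat_lit 57375) (nat_lit 2) (.e (nat_lit 90172) (nat_lit 14) (.e (nat_lit 180243) (nat_lit 5) (.e (nat_lit 532511) (nat_lit 2) (.e (nat_lit 114432) (nat_lit 0) (.e (nat_lit 2684) (nat_lit 168) (.e (nat_lit 204840) (nat_lit 21) .nil)))))))) (.g (nat_lit 5) .nil .nil))) 
(.lf (nat_lit 244591) (.g (nat_lit 997) (.e (nat_lit 123195) (nat_lit 266) (.e (nat_lit 57371) (nat_lit 2) (.e (nat_lit 90113) (nat_lit 0) (.e (nat_lit 1556) (nat_lit 110) .nil)))) .nil)))) (.nd (nat_lit 5) (.nd (nat_lit 6) 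
(.lf (nat_lit 244511) (.g (nat_lit 2473) (.e (nat_lit 123194) (nat_lit 266) (.e (nat_lit 57372) (nat_lit 2) (.e (nat_lit 90172) (nat_lit 14) (.e (nat_lit 180243) (nat_lit 5) (.e (nat_lit 532508) (nat_lit 2) (.e (nat_lit 114432) (nat_lit 0) (.e (nat_lit 2685) (nat_lit 168) (.e (nat_lit 204840) (nat_lit 21) .nil)))))))) (.g (nat_lit 5) .nil .nil))) 
(.lf (nat_lit 244575) (.g (nat_lit 970) (.e (nat_lit 123194) (nat_lit 266) (.e (nat_lit 57435) (nat_lit 17) (.e (nat_lit 376835) (nat_lit 0) (.e (nat_lit 3746) (nat_lit 228) .nil)))) .nil))) (.nd (nat_lit 6) 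
(.lf (nat_lit 244543) (.g (nat_lit 1534) (.e (nat_lit 123194) (nat_lit 266) (.e (nat_lit 57407) (nat_lit 12) (.e (nat_lit 336208) (nat_lit 12) (.e (nat_lit 385093) (nat_lit 49) .nil)))) .nil)) 
(.lf (nat_lit 244607) (.g (nat_lit 2634) (.e (nat_lit 123195) (nat_lit 266) (.e (nat_lit 57373) (nat_lit 2) (.e (nat_lit 90174) (nat_lit 14) (.e (nat_lit 180243) (nat_lit 5) (.e (nat_lit 532508) (nat_lit 2) .nil))))) .nil)))))))))

noncomputable def tv3183 : DT := (.nd (nat_lit 0) (.nd (nat_lit 1) (.nd (nat_lit 2) (.nd (nat_lit 3) (.nd (nat_lit 4) (.nd (nat_lit 5) (.nd (nat_lit 6) 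
(.lf (nat_lit 244608) (.g (nat_lit 2096) (.e (nat_lit 123195) (nat_lit 266) (.e (nat_lit 57373) (nat_lit 2) (.e (nat_lit 90174) (nat_lit 14) (.e (nat_lit 180250) (nat_lit 10) .nil)))) .nil)) 
(.lf (nat_lit 244672) (.g (nat_lit 3736) (.e (nat_lit 123196) (nat_lit 266) (.e (nat_lit 57347) (nat_lit 0) (.e (nat_lit 2031) (nat_lit 140) (.e (nat_lit 688177) (nat_lit 16) (.e (nat_lit 65583) (nat_lit 7) (.e (nat_lit 319530) (nat_lit 16) (.e (nat_lit 286748) (nat_lit 9) (.e (nat_lit 336032) (nat_lit 4) .nil)))))))) (.g (nat_lit 7) .nil .nil)))) (.nd (nat_lit 6) 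
(.lf (nat_lit 244640) (.g (nat_lit 437) (.e (nat_lit 123195) (nat_lit 266) (.e (nat_lit 57424) (nat_lit 14) (.e (nat_lit 352270) (nat_lit 8) .nil))) .nil)) 
(.lf (nat_lit 244704) (.g (nat_lit 672) (.e (nat_lit 123196) (nat_lit 266) (.e (nat_lit 57423) (nat_lit 14) (.e (nat_lit 360192) (nat_lit 4) .nil))) .nil)))) (.nd (nat_lit 5) (.nd (nat_lit 6) 
(.lf (nat_lit 244624) (.g (nat_lit 2229) (.e (nat_lit 123195) (nat_lit 266) (.e (nat_lit 57412) (nat_lit 12) (.e (nat_lit 336176) (nat_lit 10) (.e (nat_lit 344097) (nat_lit 18) (.e (nat_lit 5905) (nat_lit 320) (.e (nat_lit 1220) (nat_lit 90) (.e (nat_lit 81959) (nat_lit 24) .nil))))))) (.g (nat_lit 4) .nil .nil))) 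
(.lf (nat_lit 244688) (.g (nat_lit 1322) (.e (nat_lit 123196) (nat_lit 266) (.e (nat_lit 57412) (nat_lit 12) (.e (nat_lit 336058) (nat_lit 7) (.e (nat_lit 319539) (nat_lit 19) (.e (nat_lit 311358) (nat_lit 29) .nil))))) .nil))) (.nd (nat_lit 6) 
(.lf (nat_lit 244656) (.g (nat_lit 3743) (.e (nat_lit 123195) (nat_lit 266) (.e (nat_lit 57427) (nat_lit 15) (.e (nat_lit 360451) (nat_lit 0) (.e (nat_lit 5896) (nat_lit 320) (.e (nat_lit 1220) (nat_lit 90) (.e (nat_lit 81959) (nat_lit 24) .nil)))))) (.g (nat_lit 6) .nil .nil))) 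
(.lf (nat_lit 244720) (.g (nat_lit 1994) (.e (nat_lit 123196) (nat_lit 266) (.e (nat_lit 57424) (nat_lit 14) (.e (nat_lit 352318) (nat_lit 24) (.e (nat_lit 123196) (nat_lit 266) (.e (nat_lit 57423) (nat_lit 14) .nil))))) .nil))))) (.nd (nat_lit 4) (.nd (nat_lit 5) (.nd (nat_lit 6) 
(.lf (nat_lit 244616) (.g (nat_lit 1864) (.e (nat_lit 123195) (nat_lit 266) (.e (nat_lit 57400) (nat_lit 10) (.e (nat_lit 319490) (nat_lit 0) (.e (nat_lit 5664) (nat_lit 312) (.e (nat_lit 2852) (nat_lit 184) (.e (nat_lit 426543) (nat_lit 29) (.e (nat_lit 352317) (nat_lit 24) .nil))))))) (.g (nat_lit 4) .nil .nil))) 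
(.lf (nat_lit 244680) (.g (nat_lit 2597) (.e (nat_lit 123196) (nat_lit 266) (.e (nat_lit 57371) (nat_lit 2) (.e (nat_lit 90172) (nat_lit 14) (.e (nat_lit 180250) (nat_lit 10) (.e (nat_lit 573482) (nat_lit 13) .nil))))) .nil))) (.nd (nat_lit 6) 
(.lf (nat_lit 244648) (.g (nat_lit 3908) (.e (nat_lit 123195) (nat_lit 266) (.e (nat_lit 57427) (nat_lit 15) (.e (nat_lit 360448) (nat_lit 0) (.e (nat_lit 5902) (nat_lit 320) (.e (nat_lit 1221) (nat_lit 90) (.e (nat_lit 81959) (nat_lit 24) .nil)))))) (.g (nat_lit 6) .nil .nil))) 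
(.lf (nat_lit 244712) (.g (nat_lit 905) (.e (nat_lit 123196) (nat_lit 266) (.e (nat_lit 57424) (nat_lit 14) (.e (nat_lit 352262) (nat_lit 0) .nil))) .nil)))) (.nd (nat_lit 5) (.nd (nat_lit 6) 
(.lf (nat_lit 244632) (.g (nat_lit 1157) (.e (nat_lit 123195) (nat_lit 266) (.e (nat_lit 57417) (nat_lit 12) (.e (nat_lit 336116) (nat_lit 9) (.e (nat_lit 336329) (nat_lit 19) .nil)))) .nil)) 
(.lf (nat_lit 244696) (.g (nat_lit 1033) (.e (nat_lit 123196) (nat_lit 266) (.e (nat_lit 57419) (nat_lit 12) (.e (nat_lit 336076) (nat_lit 9) (.e (nat_lit 336332) (nat_lit 19) (.e (nat_lit 220928) (nat_lit 6) .nil))))) .nil))) (.nd (nat_lit 6) 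
(.lf (nat_lit 244664) (.g (nat_lit 2393) (.e (nat_lit 123195) (nat_lit 266) (.e (nat_lit 57427) (nat_lit 15) (.e (nat_lit 360474) (nat_lit 8) (.e (nat_lit 557091) (nat_lit 12) .nil)))) .nil)) 
(.lf (nat_lit 244728) (.g (nat_lit 3257) (.e (nat_lit 123197) (nat_lit 266) (.e (nat_lit 57347) (nat_lit 0) (.e (nat_lit 2031) (nat_lit 140) (.e (nat_lit 688177) (nat_lit 16) (.e (nat_lit 65583) (nat_lit 7) (.e (nat_lit 319530) (nat_lit 16) (.e (nat_lit 286742) (nat_lit 9) (.e (nat_lit 336032) (nat_lit 4) .nil)))))))) (.g (nat_lit 6) .nil .nil))))))) 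
(.nd (nat_lit 3) (.nd (nat_lit 4) (.nd (nat_lit 5) (.nd (nat_lit 6) 
(.lf (nat_lit 244612) (.g (nat_lit 2810) (.e (nat_lit 123195) (nat_lit 266) (.e (nat_lit 57389) (nat_lit 5) (.e (nat_lit 114723) (nat_lit 24) (.e (nat_lit 106536) (nat_lit 11) (.e (nat_lit 16388) (nat_lit 0) (.e (nat_lit 7587) (nat_lit 406) (.e (nat_lit 65574) (nat_lit 4) .nil))))))) (.g (nat_lit 4) .nil .nil))) 
(.lf (nat_lit 244676) (.g (nat_lit 4003) (.e (nat_lit 123196) (nat_lit 266) (.e (nat_lit 57354) (nat_lit 0) (.e (nat_lit 1855) (nat_lit 124) (.e (nat_lit 557101) (nat_lit 13) (.e (nat_lit 172097) (nat_lit 9) (.e (nat_lit 426125) (nat_lit 2) (.e (nat_lit 196666) (nat_lit 13) (.e (nat_lit 65574) (nat_lit 4) .nil)))))))) (.g (nat_lit 7) .nil .nil)))) (.nd (nat_lit 6) 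
(.lf (nat_lit 244644) (.g (nat_lit 1427) (.e (nat_lit 123195) (nat_lit 266) (.e (nat_lit 57424) (nat_lit 14) (.e (nat_lit 352318) (nat_lit 24) (.e (nat_lit 123185) (nat_lit 264) .nil)))) .nil)) 
(.lf (nat_lit 244708) (.g (nat_lit 2802) (.e (nat_lit 123196) (nat_lit 266) (.e (nat_lit 57423) (nat_lit 14) (.e (nat_lit 352309) (nat_lit 21) (.e (nat_lit 57873) (nat_lit 264) (.e (nat_lit 1221) (nat_lit 90) (.e (nat_lit 81959) (nat_lit 24) .nil)))))) (.g (nat_lit 4) .nil .nil))))) (.nd (nat_lit 5) (.nd (nat_lit 6) 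
(.lf (nat_lit 244628) (.g (nat_lit 1123) (.e (nat_lit 123195) (nat_lit 266) (.e (nat_lit 57412) (nat_lit 12) (.e (nat_lit 336226) (nat_lit 14) (.e (nat_lit 401436) (nat_lit 9) .nil)))) .nil)) 
(.lf (nat_lit 244692) (.g (nat_lit 1448) (.e (nat_lit 123196) (nat_lit 266) (.e (nat_lit 57412) (nat_lit 12) (.e (nat_lit 336200) (nat_lit 12) (.e (nat_lit 385094) (nat_lit 49) (.e (nat_lit 778326) (nat_lit 6) .nil))))) .nil))) (.nd (nat_lit 6) 
(.lf (nat_lit 244660) (.g (nat_lit 4727) (.e (nat_lit 123195) (nat_lit 266) (.e (nat_lit 57427) (nat_lit 15) (.e (nat_lit 360452) (nat_lit 0) (.e (nat_lit 5907) (nat_lit 320) (.e (nat_lit 1221) (nat_lit 90) (.e (nat_lit 81959) (nat_lit 24) .nil)))))) (.g (nat_lit 6) .nil .nil))) 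
(.lf (nat_lit 244724) (.g (nat_lit 653) (.e (nat_lit 123196) (nat_lit 266) (.e (nat_lit 57427) (nat_lit 15) (.e (nat_lit 360486) (nat_lit 18) .nil))) .nil))))) (.nd (nat_lit 4) (.nd (nat_lit 5) (.nd (nat_lit 6) 
(.lf (nat_lit 244620) (.g (nat_lit 1483) (.e (nat_lit 123195) (nat_lit 266) (.e (nat_lit 57409) (nat_lit 12) (.e (nat_lit 336182) (nat_lit 11) (.e (nat_lit 368695) (nat_lit 40) (.e (nat_lit 671764) (nat_lit 6) .nil))))) .nil)) 
(.lf (nat_lit 244684) (.g (nat_lit 1102) (.e (nat_lit 123196) (nat_lit 266) (.e (nat_lit 57371) (nat_lit 2) (.e (nat_lit 90196) (nat_lit 18) (.e (nat_lit 2787) (nat_lit 179) .nil)))) .nil))) (.nd (nat_lit 6) 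
(.lf (nat_lit 244652) (.g (nat_lit 1623) (.e (nat_lit 123195) (nat_lit 266) (.e (nat_lit 57427) (nat_lit 15) (.e (nat_lit 360450) (nat_lit 0) (.e (nat_lit 5872) (nat_lit 320) .nil)))) .nil)) 
(.lf (nat_lit 244716) (.g (nat_lit 1199) (.e (nat_lit 123196) (nat_lit 266) (.e (nat_lit 57424) (nat_lit 14) (.e (nat_lit 352318) (nat_lit 24) (.e (nat_lit 123183) (nat_lit 264) .nil)))) .nil)))) (.nd (nat_lit 5) (.nd (nat_lit 6) 
(.lf (nat_lit 244636) (.g (nat_lit 1944) (.e (nat_lit 123195) (nat_lit 266) (.e (nat_lit 57419) (nat_lit 12) (.e (nat_lit 336194) (nat_lit 12) (.e (nat_lit 385105) (nat_lit 50) (.e (nat_lit 786478) (nat_lit 29) .nil))))) .nil)) 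
(.lf (nat_lit 244700) (.g (nat_lit 1956) (.e (nat_lit 123196) (nat_lit 266) (.e (nat_lit 57423) (nat_lit 14) (.e (nat_lit 352262) (nat_lit 0) (.e (nat_lit 3632) (nat_lit 227) (.e (nat_lit 778326) (nat_lit 6) .nil))))) .nil))) (.nd (nat_lit 6) 
(.lf (nat_lit 244668) (.g (nat_lit 670) (.e (nat_lit 123195) (nat_lit 266) (.e (nat_lit 57435) (nat_lit 17) (.e (nat_lit 376870) (nat_lit 24) .nil))) .nil)) 
(.lf (nat_lit 244732) (.g (nat_lit 3490) (.e (nat_lit 123197) (nat_lit 266) (.e (nat_lit 57347) (nat_lit 0) (.e (nat_lit 2031) (nat_lit 140) (.e (nat_lit 688177) (nat_lit 16) (.e (nat_lit 65583) (nat_lit 7) (.e (nat_lit 319530) (nat_lit 16) (.e (nat_lit 286748) (nat_lit 9) (.e (nat_lit 336034) (nat_lit 4) .nil)))))))) (.g (nat_lit 6) .nil .nil)))))))) 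
(.nd (nat_lit 2) (.nd (nat_lit 3) (.nd (nat_lit 4) (.nd (nat_lit 5) (.nd (nat_lit 6) 
(.lf (nat_lit 244610) (.g (nat_lit 715) (.e (nat_lit 123195) (nat_lit 266) (.e (nat_lit 57389) (nat_lit 5) (.e (nat_lit 114712) (nat_lit 21) .nil))) .nil)) 
(.lf (nat_lit 244674) (.g (nat_lit 4357) (.e (nat_lit 123196) (nat_lit 266) (.e (nat_lit 57347) (nat_lit 0) (.e (nat_lit 2031) (nat_lit 140) (.e (nat_lit 688177) (nat_lit 16) (.e (nat_lit 65586) (nat_lit 7) (.e (nat_lit 319531) (nat_lit 16) (.e (nat_lit 286748) (nat_lit 9) (.e (nat_lit 336034) (nat_lit 4) .nil)))))))) (.g (nat_lit 7) .nil .nil)))) (.nd (nat_lit 6) 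
(.lf (nat_lit 244642) (.g (nat_lit 2138) (.e (nat_lit 123195) (nat_lit 266) (.e (nat_lit 57424) (nat_lit 14) (.e (nat_lit 352318) (nat_lit 24) (.e (nat_lit 123182) (nat_lit 264) (.e (nat_lit 1224) (nat_lit 90) .nil))))) .nil)) 
(.lf (nat_lit 244706) (.g (nat_lit 2015) (.e (nat_lit 123196) (nat_lit 266) (.e (nat_lit 57423) (nat_lit 14) (.e (nat_lit 352307) (nat_lit 21) (.e (nat_lit 57872) (nat_lit 264) (.e (nat_lit 1221) (nat_lit 90) .nil))))) .nil)))) (.nd (nat_lit 5) (.nd (nat_lit 6) 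
(.lf (nat_lit 244626) (.g (nat_lit 1101) (.e (nat_lit 123195) (nat_lit 266) (.e (nat_lit 57412) (nat_lit 12) (.e (nat_lit 336193) (nat_lit 12) (.e (nat_lit 385100) (nat_lit 49) .nil)))) .nil)) 
(.lf (nat_lit 244690) (.g (nat_lit 1776) (.e (nat_lit 123196) (nat_lit 266) (.e (nat_lit 57412) (nat_lit 12) (.e (nat_lit 336061) (nat_lit 7) (.e (nat_lit 319539) (nat_lit 19) (.e (nat_lit 311358) (nat_lit 29) .nil))))) .nil))) (.nd (nat_lit 6) 
(.lf (nat_lit 244658) (.g (nat_lit 4498) (.e (nat_lit 123195) (nat_lit 266) (.e (nat_lit 57427) (nat_lit 15) (.e (nat_lit 360452) (nat_lit 0) (.e (nat_lit 5906) (nat_lit 320) (.e (nat_lit 1221) (nat_lit 90) (.e (nat_lit 81959) (nat_lit 24) .nil)))))) (.g (nat_lit 6) .nil .nil))) 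
(.lf (nat_lit 244722) (.g (nat_lit 1744) (.e (nat_lit 123196) (nat_lit 266) (.e (nat_lit 57424) (nat_lit 14) (.e (nat_lit 352318) (nat_lit 24) (.e (nat_lit 123198) (nat_lit 266) .nil)))) .nil))))) (.nd (nat_lit 4) (.nd (nat_lit 5) (.nd (nat_lit 6) 
(.lf (nat_lit 244618) (.g (nat_lit 904) (.e (nat_lit 123195) (nat_lit 266) (.e (nat_lit 57406) (nat_lit 12) (.e (nat_lit 336208) (nat_lit 12) .nil))) .nil)) 
(.lf (nat_lit 244682) (.g (nat_lit 2511) (.e (nat_lit 123196) (nat_lit 266) (.e (nat_lit 57371) (nat_lit 2) (.e (nat_lit 90174) (nat_lit 14) (.e (nat_lit 180243) (nat_lit 5) (.e (nat_lit 532508) (nat_lit 2) .nil))))) .nil))) (.nd (nat_lit 6) 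
(.lf (nat_lit 244650) (.g (nat_lit 3580) (.e (nat_lit 123195) (nat_lit 266) (.e (nat_lit 57427) (nat_lit 15) (.e (nat_lit 360448) (nat_lit 0) (.e (nat_lit 5909) (nat_lit 320) (.e (nat_lit 1221) (nat_lit 90) (.e (nat_lit 81959) (nat_lit 24) .nil)))))) (.g (nat_lit 6) .nil .nil))) 
(.lf (nat_lit 244714) (.g (nat_lit 2343) (.e (nat_lit 123196) (nat_lit 266) (.e (nat_lit 57424) (nat_lit 14) (.e (nat_lit 352318) (nat_lit 24) (.e (nat_lit 123182) (nat_lit 264) (.e (nat_lit 1218) (nat_lit 90) .nil))))) .nil)))) (.nd (nat_lit 5) (.nd (nat_lit 6) 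
(.lf (nat_lit 244634) (.g (nat_lit 928) (.e (nat_lit 123195) (nat_lit 266) (.e (nat_lit 57417) (nat_lit 12) (.e (nat_lit 336206) (nat_lit 12) (.e (nat_lit 385100) (nat_lit 49) .nil)))) .nil)) 
(.lf (nat_lit 244698) (.g (nat_lit 1292) (.e (nat_lit 123196) (nat_lit 266) (.e (nat_lit 57419) (nat_lit 12) (.e (nat_lit 336194) (nat_lit 12) (.e (nat_lit 385096) (nat_lit 49) (.e (nat_lit 786176) (nat_lit 6) .nil))))) .nil))) (.nd (nat_lit 6) 
(.lf (nat_lit 244666) (.g (nat_lit 583) (.e (nat_lit 123195) (nat_lit 266) (.e (nat_lit 57435) (nat_lit 17) (.e (nat_lit 376833) (nat_lit 0) .nil))) .nil)) 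
(.lf (nat_lit 244730) (.g (nat_lit 3635) (.e (nat_lit 123197) (nat_lit 266) (.e (nat_lit 57347) (nat_lit 0) (.e (nat_lit 2031) (nat_lit 140) (.e (nat_lit 688177) (nat_lit 16) (.e (nat_lit 65583) (nat_lit 7) (.e (nat_lit 319530) (nat_lit 16) (.e (nat_lit 286748) (nat_lit 9) (.e (nat_lit 336031) (nat_lit 4) .nil)))))))) (.g (nat_lit 6) .nil .nil))))))) 
(.nd (nat_lit 3) (.nd (nat_lit 4) (.nd (nat_lit 5) (.nd (nat_lit 6) 
(.lf (nat_lit 244614) (.g (nat_lit 348) (.e (nat_lit 123195) (nat_lit 266) (.e (nat_lit 57400) (nat_lit 10) (.e (nat_lit 319490) (nat_lit 0) .nil))) .nil)) 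
(.lf (nat_lit 244678) (.g (nat_lit 1725) (.e (nat_lit 123196) (nat_lit 266) (.e (nat_lit 57371) (nat_lit 2) (.e (nat_lit 90172) (nat_lit 14) (.e (nat_lit 180243) (nat_lit 5) .nil)))) .nil))) (.nd (nat_lit 6) 
(.lf (nat_lit 244646) (.g (nat_lit 1800) (.e (nat_lit 123195) (nat_lit 266) (.e (nat_lit 57424) (nat_lit 14) (.e (nat_lit 352318) (nat_lit 24) (.e (nat_lit 123191) (nat_lit 264) .nil)))) .nil)) 
(.lf (nat_lit 244710) (.g (nat_lit 749) (.e (nat_lit 123196) (nat_lit 266) (.e (nat_lit 57423) (nat_lit 14) (.e (nat_lit 352318) (nat_lit 24) .nil))) .nil)))) (.nd (nat_lit 5) (.nd (nat_lit 6) 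
(.lf (nat_lit 244630) (.g (nat_lit 3814) (.e (nat_lit 123195) (nat_lit 266) (.e (nat_lit 57412) (nat_lit 12) (.e (nat_lit 336226) (nat_lit 14) (.e (nat_lit 401438) (nat_lit 9) (.e (nat_lit 426542) (nat_lit 29) (.e (nat_lit 352318) (nat_lit 24) .nil)))))) (.g (nat_lit 5) .nil .nil))) 
(.lf (nat_lit 244694) (.g (nat_lit 1702) (.e (nat_lit 123196) (nat_lit 266) (.e (nat_lit 57412) (nat_lit 12) (.e (nat_lit 336226) (nat_lit 14) (.e (nat_lit 401436) (nat_lit 9) (.e (nat_lit 426542) (nat_lit 29) .nil))))) .nil))) (.nd (nat_lit 6) 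
(.lf (nat_lit 244662) (.g (nat_lit 3969) (.e (nat_lit 123195) (nat_lit 266) (.e (nat_lit 57427) (nat_lit 15) (.e (nat_lit 360474) (nat_lit 8) (.e (nat_lit 557058) (nat_lit 0) .nil)))) .nil)) 
(.lf (nat_lit 244726) (.g (nat_lit 1390) (.e (nat_lit 123196) (nat_lit 266) (.e (nat_lit 57436) (nat_lit 17) (.e (nat_lit 376860) (nat_lit 21) (.e (nat_lit 57870) (nat_lit 264) .nil)))) .nil))))) (.nd (nat_lit 4) (.nd (nat_lit 5) (.nd (nat_lit 6) 
(.lf (nat_lit 244622) (.g (nat_lit 2259) (.e (nat_lit 123195) (nat_lit 266) (.e (nat_lit 57412) (nat_lit 12) (.e (nat_lit 336099) (nat_lit 9) (.e (nat_lit 335997) (nat_lit 1) (.e (nat_lit 57871) (nat_lit 264) (.e (nat_lit 1220) (nat_lit 90) (.e (nat_lit 81959) (nat_lit 24) .nil))))))) (.g (nat_lit 4) .nil .nil))) 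
(.lf (nat_lit 244686) (.g (nat_lit 2101) (.e (nat_lit 123196) (nat_lit 266) (.e (nat_lit 57389) (nat_lit 5) (.e (nat_lit 114723) (nat_lit 24) (.e (nat_lit 106536) (nat_lit 11) (.e (nat_lit 16387) (nat_lit 0) .nil))))) .nil))) (.nd (nat_lit 6) 
(.lf (nat_lit 244654) (.g (nat_lit 4090) (.e (nat_lit 123195) (nat_lit 266) (.e (nat_lit 57427) (nat_lit 15) (.e (nat_lit 360450) (nat_lit 0) (.e (nat_lit 5896) (nat_lit 320) (.e (nat_lit 1221) (nat_lit 90) (.e (nat_lit 81959) (nat_lit 24) .nil)))))) (.g (nat_lit 6) .nil .nil))) 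
(.lf (nat_lit 244718) (.g (nat_lit 1903) (.e (nat_lit 123196) (nat_lit 266) (.e (nat_lit 57424) (nat_lit 14) (.e (nat_lit 352318) (nat_lit 24) (.e (nat_lit 123184) (nat_lit 264) (.e (nat_lit 7936) (nat_lit 90) .nil))))) .nil)))) (.nd (nat_lit 5) (.nd (nat_lit 6) 
(.lf (nat_lit 244638) (.g (nat_lit 752) (.e (nat_lit 123195) (nat_lit 266) (.e (nat_lit 57423) (nat_lit 14) (.e (nat_lit 352307) (nat_lit 21) .nil))) .nil)) 
(.lf (nat_lit 244702) (.g (nat_lit 1974) (.e (nat_lit 123196) (nat_lit 266) (.e (nat_lit 57423) (nat_lit 14) (.e (nat_lit 352262) (nat_lit 0) (.e (nat_lit 3632) (nat_lit 227) (.e (nat_lit 778327) (nat_lit 6) .nil))))) .nil))) (.nd (nat_lit 6) 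
(.lf (nat_lit 244670) (.g (nat_lit 3093) (.e (nat_lit 123196) (nat_lit 266) (.e (nat_lit 57347) (nat_lit 0) (.e (nat_lit 2031) (nat_lit 140) (.e (nat_lit 688177) (nat_lit 16) (.e (nat_lit 65583) (nat_lit 7) (.e (nat_lit 319530) (nat_lit 16) (.e (nat_lit 286742) (nat_lit 9) (.e (nat_lit 336032) (nat_lit 4) .nil)))))))) (.g (nat_lit 6) .nil .nil))) 
(.lf (nat_lit 244734) (.g (nat_lit 4407) (.e (nat_lit 123197) (nat_lit 266) (.e (nat_lit 57347) (nat_lit 0) (.e (nat_lit 2031) (nat_lit 140) (.e (nat_lit 688177) (nat_lit 16) (.e (nat_lit 65586) (nat_lit 7) (.e (nat_lit 319531) (nat_lit 16) (.e (nat_lit 286748) (nat_lit 9) (.e (nat_lit 336030) (nat_lit 4) .nil)))))))) (.g (nat_lit 7) .nil .nil))))))))) 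
(.nd (nat_lit 1) (.nd (nat_lit 2) (.nd (nat_lit 3) (.nd (nat_lit 4) (.nd (nat_lit 5) 
(.nd (nat_lit 6) 
(.lf (nat_lit 244609) (.g (nat_lit 2994) (.e (nat_lit 123195) (nat_lit 266) (.e (nat_lit 57373) (nat_lit 2) (.e (nat_lit 90174) (nat_lit 14) (.e (nat_lit 180250) (nat_lit 10) (.e (nat_lit 573482) (nat_lit 13) .nil))))) .nil)) 
(.lf (nat_lit 244673) (.g (nat_lit 4173) (.e (nat_lit 123196) (nat_lit 266) (.e (nat_lit 57347) (nat_lit 0) (.e (nat_lit 2031) (nat_lit 140) (.e (nat_lit 688177) (nat_lit 16) (.e (nat_lit 65586) (nat_lit 7) (.e (nat_lit 319531) (nat_lit 16) (.e (nat_lit 286742) (nat_lit 9) (.e (nat_lit 336032) (nat_lit 4) .nil)))))))) (.g (nat_lit 6) .nil .nil)))) (.nd (nat_lit 6) 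
(.lf (nat_lit 244641) (.g (nat_lit 1013) (.e (nat_lit 123195) (nat_lit 266) (.e (nat_lit 57424) (nat_lit 14) (.e (nat_lit 352309) (nat_lit 21) (.e (nat_lit 57872) (nat_lit 264) .nil)))) .nil)) 
(.lf (nat_lit 244705) (.g (nat_lit 785) (.e (nat_lit 123196) (nat_lit 266) (.e (nat_lit 57423) (nat_lit 14) (.e (nat_lit 352270) (nat_lit 8) .nil))) .nil)))) (.nd (nat_lit 5) (.nd (nat_lit 6) 
(.lf (nat_lit 244625) (.g (nat_lit 4235) (.e (nat_lit 123195) (nat_lit 266) (.e (nat_lit 57412) (nat_lit 12) (.e (nat_lit 336176) (nat_lit 10) (.e (nat_lit 344097) (nat_lit 18) (.e (nat_lit 5907) (nat_lit 320) (.e (nat_lit 1221) (nat_lit 90) (.e (nat_lit 81959) (nat_lit 24) .nil))))))) (.g (nat_lit 6) .nil .nil))) 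
(.lf (nat_lit 244689) (.g (nat_lit 1211) (.e (nat_lit 123196) (nat_lit 266) (.e (nat_lit 57412) (nat_lit 12) (.e (nat_lit 336061) (nat_lit 7) (.e (nat_lit 327424) (nat_lit 18) .nil)))) .nil))) (.nd (nat_lit 6) 
(.lf (nat_lit 244657) (.g (nat_lit 4324) (.e (nat_lit 123195) (nat_lit 266) (.e (nat_lit 57427) (nat_lit 15) (.e (nat_lit 360452) (nat_lit 0) (.e (nat_lit 5905) (nat_lit 320) (.e (nat_lit 1221) (nat_lit 90) (.e (nat_lit 81959) (nat_lit 24) .nil)))))) (.g (nat_lit 6) .nil .nil))) 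
(.lf (nat_lit 244721) (.g (nat_lit 2241) (.e (nat_lit 123196) (nat_lit 266) (.e (nat_lit 57424) (nat_lit 14) (.e (nat_lit 352318) (nat_lit 24) (.e (nat_lit 123197) (nat_lit 266) (.e (nat_lit 57425) (nat_lit 14) .nil))))) .nil))))) (.nd (nat_lit 4) (.nd (nat_lit 5) (.nd (nat_lit 6) 
(.lf (nat_lit 244617) (.g (nat_lit 900) (.e (nat_lit 123195) (nat_lit 266) (.e (nat_lit 57406) (nat_lit 12) (.e (nat_lit 336142) (nat_lit 9) .nil))) .nil)) 
(.lf (nat_lit 244681) (.g (nat_lit 1599) (.e (nat_lit 123196) (nat_lit 266) (.e (nat_lit 57371) (nat_lit 2) (.e (nat_lit 90174) (nat_lit 14) (.e (nat_lit 180243) (nat_lit 5) .nil)))) .nil))) (.nd (nat_lit 6) 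
(.lf (nat_lit 244649) (.g (nat_lit 3584) (.e (nat_lit 123195) (nat_lit 266) (.e (nat_lit 57427) (nat_lit 15) (.e (nat_lit 360448) (nat_lit 0) (.e (nat_lit 5905) (nat_lit 320) (.e (nat_lit 1221) (nat_lit 90) (.e (nat_lit 81959) (nat_lit 24) .nil)))))) (.g (nat_lit 5) .nil .nil))) 
(.lf (nat_lit 244713) (.g (nat_lit 2632) (.e (nat_lit 123196) (nat_lit 266) (.e (nat_lit 57424) (nat_lit 14) (.e (nat_lit 352309) (nat_lit 21) (.e (nat_lit 57873) (nat_lit 264) (.e (nat_lit 1221) (nat_lit 90) (.e (nat_lit 81959) (nat_lit 24) .nil)))))) (.g (nat_lit 4) .nil .nil))))) (.nd (nat_lit 5) (.nd (nat_lit 6) 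
(.lf (nat_lit 244633) (.g (nat_lit 409) (.e (nat_lit 123195) (nat_lit 266) (.e (nat_lit 57417) (nat_lit 12) (.e (nat_lit 336119) (nat_lit 9) .nil))) .nil)) 
(.lf (nat_lit 244697) (.g (nat_lit 1116) (.e (nat_lit 123196) (nat_lit 266) (.e (nat_lit 57419) (nat_lit 12) (.e (nat_lit 336194) (nat_lit 12) (.e (nat_lit 385094) (nat_lit 49) (.e (nat_lit 778327) (nat_lit 6) .nil))))) .nil))) (.nd (nat_lit 6) 
(.lf (nat_lit 244665) (.g (nat_lit 1445) (.e (nat_lit 123195) (nat_lit 266) (.e (nat_lit 57427) (nat_lit 15) (.e (nat_lit 360481) (nat_lit 15) (.e (nat_lit 647181) (nat_lit 3) .nil)))) .nil)) 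
(.lf (nat_lit 244729) (.g (nat_lit 3787) (.e (nat_lit 123197) (nat_lit 266) (.e (nat_lit 57347) (nat_lit 0) (.e (nat_lit 2031) (nat_lit 140) (.e (nat_lit 688177) (nat_lit 16) (.e (nat_lit 65583) (nat_lit 7) (.e (nat_lit 319530) (nat_lit 16) (.e (nat_lit 286748) (nat_lit 9) (.e (nat_lit 336030) (nat_lit 4) .nil)))))))) (.g (nat_lit 6) .nil .nil))))))) 
(.nd (nat_lit 3) (.nd (nat_lit 4) (.nd (nat_lit 5) (.nd (nat_lit 6) 
(.lf (nat_lit 244613) (.g (nat_lit 1073) (.e (nat_lit 123195) (nat_lit 266) (.e (nat_lit 57389) (nat_lit 5) (.e (nat_lit 114723) (nat_lit 24) (.e (nat_lit 106538) (nat_lit 12) .nil)))) .nil)) 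
(.lf (nat_lit 244677) (.g (nat_lit 886) (.e (nat_lit 123196) (nat_lit 266) (.e (nat_lit 57371) (nat_lit 2) (.e (nat_lit 90115) (nat_lit 0) .nil))) .nil))) (.nd (nat_lit 6) 
(.lf (nat_lit 244645) (.g (nat_lit 1703) (.e (nat_lit 123195) (nat_lit 266) (.e (nat_lit 57424) (nat_lit 14) (.e (nat_lit 352318) (nat_lit 24) (.e (nat_lit 123185) (nat_lit 264) (.e (nat_lit 1224) (nat_lit 90) .nil))))) .nil)) 
(.lf (nat_lit 244709) (.g (nat_lit 747) (.e (nat_lit 123196) (nat_lit 266) (.e (nat_lit 57423) (nat_lit 14) (.e (nat_lit 352316) (nat_lit 24) .nil))) .nil)))) (.nd (nat_lit 5) (.nd (nat_lit 6) 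
(.lf (nat_lit 244629) (.g (nat_lit 3831) (.e (nat_lit 123195) (nat_lit 266) (.e (nat_lit 57412) (nat_lit 12) (.e (nat_lit 336226) (nat_lit 14) (.e (nat_lit 401438) (nat_lit 9) (.e (nat_lit 426542) (nat_lit 29) (.e (nat_lit 352316) (nat_lit 24) .nil)))))) (.g (nat_lit 5) .nil .nil))) 
(.lf (nat_lit 244693) (.g (nat_lit 1454) (.e (nat_lit 123196) (nat_lit 266) (.e (nat_lit 57412) (nat_lit 12) (.e (nat_lit 336200) (nat_lit 12) (.e (nat_lit 385094) (nat_lit 49) (.e (nat_lit 778327) (nat_lit 6) .nil))))) .nil))) (.nd (nat_lit 6) 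
(.lf (nat_lit 244661) (.g (nat_lit 712) (.e (nat_lit 123195) (nat_lit 266) (.e (nat_lit 57427) (nat_lit 15) (.e (nat_lit 360457) (nat_lit 0) .nil))) .nil)) 
(.lf (nat_lit 244725) (.g (nat_lit 634) (.e (nat_lit 123196) (nat_lit 266) (.e (nat_lit 57435) (nat_lit 17) (.e (nat_lit 376858) (nat_lit 21) .nil))) .nil))))) (.nd (nat_lit 4) (.nd (nat_lit 5) (.nd (nat_lit 6) 
(.lf (nat_lit 244621) (.g (nat_lit 2104) (.e (nat_lit 123195) (nat_lit 266) (.e (nat_lit 57409) (nat_lit 12) (.e (nat_lit 336208) (nat_lit 12) (.e (nat_lit 385093) (nat_lit 49) (.e (nat_lit 778326) (nat_lit 6) .nil))))) .nil)) 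
(.lf (nat_lit 244685) (.g (nat_lit 1832) (.e (nat_lit 123196) (nat_lit 266) (.e (nat_lit 57373) (nat_lit 2) (.e (nat_lit 90174) (nat_lit 14) (.e (nat_lit 180243) (nat_lit 5) .nil)))) .nil))) (.nd (nat_lit 6) 
(.lf (nat_lit 244653) (.g (nat_lit 1623) (.e (nat_lit 123195) (nat_lit 266) (.e (nat_lit 57427) (nat_lit 15) (.e (nat_lit 360450) (nat_lit 0) (.e (nat_lit 5873) (nat_lit 320) .nil)))) .nil)) 
(.lf (nat_lit 244717) (.g (nat_lit 1802) (.e (nat_lit 123196) (nat_lit 266) (.e (nat_lit 57424) (nat_lit 14) (.e (nat_lit 352318) (nat_lit 24) (.e (nat_lit 123183) (nat_lit 264) (.e (nat_lit 1224) (nat_lit 90) .nil))))) .nil)))) (.nd (nat_lit 5) (.nd (nat_lit 6) 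
(.lf (nat_lit 244637) (.g (nat_lit 269) (.e (nat_lit 123195) (nat_lit 266) (.e (nat_lit 57421) (nat_lit 13) (.e (nat_lit 344081) (nat_lit 13) .nil))) .nil)) 
(.lf (nat_lit 244701) (.g (nat_lit 2272) (.e (nat_lit 123196) (nat_lit 266) (.e (nat_lit 57423) (nat_lit 14) (.e (nat_lit 352262) (nat_lit 0) (.e (nat_lit 3632) (nat_lit 227) (.e (nat_lit 778326) (nat_lit 6) (.e (nat_lit 81959) (nat_lit 24) .nil)))))) (.g (nat_lit 4) .nil .nil)))) (.nd (nat_lit 6) 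
(.lf (nat_lit 244669) (.g (nat_lit 616) (.e (nat_lit 123196) (nat_lit 266) (.e (nat_lit 57347) (nat_lit 0) (.e (nat_lit 1829) (nat_lit 122) (.e (nat_lit 540701) (nat_lit 11) .nil)))) .nil)) 
(.lf (nat_lit 244733) (.g (nat_lit 4337) (.e (nat_lit 123197) (nat_lit 266) (.e (nat_lit 57347) (nat_lit 0) (.e (nat_lit 2031) (nat_lit 140) (.e (nat_lit 688177) (nat_lit 16) (.e (nat_lit 65586) (nat_lit 7) (.e (nat_lit 319531) (nat_lit 16) (.e (nat_lit 286742) (nat_lit 9) (.e (nat_lit 336032) (nat_lit 4) .nil)))))))) (.g (nat_lit 6) .nil .nil)))))))) 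
(.nd (nat_lit 2) (.nd (nat_lit 3) (.nd (nat_lit 4) (.nd (nat_lit 5) (.nd (nat_lit 6) 
(.lf (nat_lit 244611) (.g (nat_lit 1489) (.e (nat_lit 123195) (nat_lit 266) (.e (nat_lit 57389) (nat_lit 5) (.e (nat_lit 114719) (nat_lit 23) (.e (nat_lit 106240) (nat_lit 11) .nil)))) .nil)) 
(.lf (nat_lit 244675) (.g (nat_lit 2844) (.e (nat_lit 123196) (nat_lit 266) (.e (nat_lit 57354) (nat_lit 0) (.e (nat_lit 1855) (nat_lit 124) (.e (nat_lit 557100) (nat_lit 13) (.e (nat_lit 172106) (nat_lit 10) (.e (nat_lit 434231) (nat_lit 23) (.e (nat_lit 532535) (nat_lit 9) (.e (nat_lit 336030) (nat_lit 4) .nil)))))))) (.g (nat_lit 5) .nil .nil)))) (.nd (nat_lit 6) 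
(.lf (nat_lit 244643) (.g (nat_lit 2098) (.e (nat_lit 123195) (nat_lit 266) (.e (nat_lit 57424) (nat_lit 14) (.e (nat_lit 352318) (nat_lit 24) (.e (nat_lit 123184) (nat_lit 264) (.e (nat_lit 1224) (nat_lit 90) (.e (nat_lit 81958) (nat_lit 24) .nil)))))) (.g (nat_lit 4) .nil .nil))) 
(.lf (nat_lit 244707) (.g (nat_lit 3658) (.e (nat_lit 123196) (nat_lit 266) (.e (nat_lit 57423) (nat_lit 14) (.e (nat_lit 352309) (nat_lit 21) (.e (nat_lit 57872) (nat_lit 264) (.e (nat_lit 1221) (nat_lit 90) (.e (nat_lit 81959) (nat_lit 24) .nil)))))) (.g (nat_lit 6) .nil .nil))))) (.nd (nat_lit 5) (.nd (nat_lit 6) 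
(.lf (nat_lit 244627) (.g (nat_lit 1320) (.e (nat_lit 123195) (nat_lit 266) (.e (nat_lit 57412) (nat_lit 12) (.e (nat_lit 336198) (nat_lit 12) (.e (nat_lit 385094) (nat_lit 49) (.e (nat_lit 778326) (nat_lit 6) .nil))))) .nil)) 
(.lf (nat_lit 244691) (.g (nat_lit 2100) (.e (nat_lit 123196) (nat_lit 266) (.e (nat_lit 57412) (nat_lit 12) (.e (nat_lit 336193) (nat_lit 12) (.e (nat_lit 385106) (nat_lit 50) (.e (nat_lit 786480) (nat_lit 29) .nil))))) .nil))) (.nd (nat_lit 6) 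
(.lf (nat_lit 244659) (.g (nat_lit 3658) (.e (nat_lit 123195) (nat_lit 266) (.e (nat_lit 57427) (nat_lit 15) (.e (nat_lit 360452) (nat_lit 0) (.e (nat_lit 5907) (nat_lit 320) (.e (nat_lit 1219) (nat_lit 90) (.e (nat_lit 81957) (nat_lit 24) .nil)))))) (.g (nat_lit 4) .nil .nil))) 
(.lf (nat_lit 244723) (.g (nat_lit 2101) (.e (nat_lit 123196) (nat_lit 266) (.e (nat_lit 57427) (nat_lit 15) (.e (nat_lit 360452) (nat_lit 0) (.e (nat_lit 5905) (nat_lit 320) (.e (nat_lit 1221) (nat_lit 90) .nil))))) .nil))))) (.nd (nat_lit 4) (.nd (nat_lit 5) (.nd (nat_lit 6) 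
(.lf (nat_lit 244619) (.g (nat_lit 677) (.e (nat_lit 123195) (nat_lit 266) (.e (nat_lit 57409) (nat_lit 12) (.e (nat_lit 336182) (nat_lit 11) .nil))) .nil)) 
(.lf (nat_lit 244683) (.g (nat_lit 2531) (.e (nat_lit 123196) (nat_lit 266) (.e (nat_lit 57371) (nat_lit 2) (.e (nat_lit 90174) (nat_lit 14) (.e (nat_lit 180243) (nat_lit 5) (.e (nat_lit 532511) (nat_lit 2) (.e (nat_lit 114432) (nat_lit 0) (.e (nat_lit 2684) (nat_lit 168) (.e (nat_lit 204840) (nat_lit 21) .nil)))))))) (.g (nat_lit 4) .nil .nil)))) (.nd (nat_lit 6) 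
(.lf (nat_lit 244651) (.g (nat_lit 1407) (.e (nat_lit 123195) (nat_lit 266) (.e (nat_lit 57427) (nat_lit 15) (.e (nat_lit 360449) (nat_lit 0) .nil))) .nil)) 
(.lf (nat_lit 244715) (.g (nat_lit 2278) (.e (nat_lit 123196) (nat_lit 266) (.e (nat_lit 57424) (nat_lit 14) (.e (nat_lit 352318) (nat_lit 24) (.e (nat_lit 123182) (nat_lit 264) (.e (nat_lit 1223) (nat_lit 90) .nil))))) .nil)))) (.nd (nat_lit 5) (.nd (nat_lit 6) 
(.lf (nat_lit 244635) (.g (nat_lit 1248) (.e (nat_lit 123195) (nat_lit 266) (.e (nat_lit 57419) (nat_lit 12) (.e (nat_lit 336186) (nat_lit 11) (.e (nat_lit 368662) (nat_lit 18) (.e (nat_lit 5902) (nat_lit 320) .nil))))) .nil)) 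
(.lf (nat_lit 244699) (.g (nat_lit 279) (.e (nat_lit 123196) (nat_lit 266) (.e (nat_lit 57421) (nat_lit 13) (.e (nat_lit 352000) (nat_lit 4) .nil))) .nil))) (.nd (nat_lit 6) 
(.lf (nat_lit 244667) (.g (nat_lit 579) (.e (nat_lit 123195) (nat_lit 266) (.e (nat_lit 57435) (nat_lit 17) (.e (nat_lit 376855) (nat_lit 20) .nil))) .nil)) 
(.lf (nat_lit 244731) (.g (nat_lit 3985) (.e (nat_lit 123197) (nat_lit 266) (.e (nat_lit 57347) (nat_lit 0) (.e (nat_lit 2031) (nat_lit 140) (.e (nat_lit 688177) (nat_lit 16) (.e (nat_lit 65583) (nat_lit 7) (.e (nat_lit 319530) (nat_lit 16) (.e (nat_lit 286748) (nat_lit 9) (.e (nat_lit 336032) (nat_lit 4) .nil)))))))) (.g (nat_lit 7) .nil .nil))))))) 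
(.nd (nat_lit 3) (.nd (nat_lit 4) (.nd (nat_lit 5) (.nd (nat_lit 6) 
(.lf (nat_lit 244615) (.g (nat_lit 3092) (.e (nat_lit 123195) (nat_lit 266) (.e (nat_lit 57400) (nat_lit 10) (.e (nat_lit 319490) (nat_lit 0) (.e (nat_lit 5270) (nat_lit 298) (.e (nat_lit 1183) (nat_lit 87) (.e (nat_lit 57870) (nat_lit 264) (.e (nat_lit 1221) (nat_lit 90) (.e (nat_lit 81959) (nat_lit 24) .nil)))))))) (.g (nat_lit 4) .nil .nil))) 
(.lf (nat_lit 244679) (.g (nat_lit 2771) (.e (nat_lit 123196) (nat_lit 266) (.e (nat_lit 57371) (nat_lit 2) (.e (nat_lit 90172) (nat_lit 14) (.e (nat_lit 180250) (nat_lit 10) (.e (nat_lit 573480) (nat_lit 13) .nil))))) .nil))) (.nd (nat_lit 6) 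
(.lf (nat_lit 244647) (.g (nat_lit 938) (.e (nat_lit 123195) (nat_lit 266) (.e (nat_lit 57426) (nat_lit 15) (.e (nat_lit 360486) (nat_lit 18) (.e (nat_lit 679680) (nat_lit 6) .nil)))) .nil)) 
(.lf (nat_lit 244711) (.g (nat_lit 1594) (.e (nat_lit 123196) (nat_lit 266) (.e (nat_lit 57423) (nat_lit 14) (.e (nat_lit 352318) (nat_lit 24) (.e (nat_lit 123194) (nat_lit 266) .nil)))) .nil)))) (.nd (nat_lit 5) (.nd (nat_lit 6) 
(.lf (nat_lit 244631) (.g (nat_lit 409) (.e (nat_lit 123195) (nat_lit 266) (.e (nat_lit 57417) (nat_lit 12) (.e (nat_lit 336113) (nat_lit 9) .nil))) .nil)) 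
(.lf (nat_lit 244695) (.g (nat_lit 737) (.e (nat_lit 123196) (nat_lit 266) (.e (nat_lit 57419) (nat_lit 12) (.e (nat_lit 336075) (nat_lit 9) (.e (nat_lit 336332) (nat_lit 19) (.e (nat_lit 220928) (nat_lit 6) .nil))))) .nil))) (.nd (nat_lit 6) 
(.lf (nat_lit 244663) (.g (nat_lit 3147) (.e (nat_lit 123195) (nat_lit 266) (.e (nat_lit 57427) (nat_lit 15) (.e (nat_lit 360474) (nat_lit 8) (.e (nat_lit 557059) (nat_lit 0) .nil)))) .nil)) 
(.lf (nat_lit 244727) (.g (nat_lit 3483) (.e (nat_lit 123197) (nat_lit 266) (.e (nat_lit 57345) (nat_lit 0) (.e (nat_lit 2031) (nat_lit 140) (.e (nat_lit 688177) (nat_lit 16) (.e (nat_lit 65586) (nat_lit 7) (.e (nat_lit 319531) (nat_lit 16) (.e (nat_lit 286742) (nat_lit 9) (.e (nat_lit 336032) (nat_lit 4) .nil)))))))) (.g (nat_lit 6) .nil .nil)))))) 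
(.nd (nat_lit 4) (.nd (nat_lit 5) (.nd (nat_lit 6) 
(.lf (nat_lit 244623) (.g (nat_lit 589) (.e (nat_lit 123195) (nat_lit 266) (.e (nat_lit 57412) (nat_lit 12) (.e (nat_lit 336173) (nat_lit 10) .nil))) .nil)) 
(.lf (nat_lit 244687) (.g (nat_lit 1843) (.e (nat_lit 123196) (nat_lit 266) (.e (nat_lit 57400) (nat_lit 10) (.e (nat_lit 319490) (nat_lit 0) (.e (nat_lit 5664) (nat_lit 312) (.e (nat_lit 2852) (nat_lit 184) .nil))))) .nil))) (.nd (nat_lit 6) 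
(.lf (nat_lit 244655) (.g (nat_lit 1474) (.e (nat_lit 123195) (nat_lit 266) (.e (nat_lit 57427) (nat_lit 15) (.e (nat_lit 360450) (nat_lit 0) (.e (nat_lit 7936) (nat_lit 320) .nil)))) .nil)) 
(.lf (nat_lit 244719) (.g (nat_lit 1761) (.e (nat_lit 123196) (nat_lit 266) (.e (nat_lit 57424) (nat_lit 14) (.e (nat_lit 352318) (nat_lit 24) (.e (nat_lit 123185) (nat_lit 264) .nil)))) .nil)))) (.nd (nat_lit 5) (.nd (nat_lit 6) 
(.lf (nat_lit 244639) (.g (nat_lit 734) (.e (nat_lit 123195) (nat_lit 266) (.e (nat_lit 57423) (nat_lit 14) (.e (nat_lit 352318) (nat_lit 24) .nil))) .nil)) 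
(.lf (nat_lit 244703) (.g (nat_lit 1823) (.e (nat_lit 123196) (nat_lit 266) (.e (nat_lit 57423) (nat_lit 14) (.e (nat_lit 352262) (nat_lit 0) (.e (nat_lit 3748) (nat_lit 228) (.e (nat_lit 786478) (nat_lit 29) .nil))))) .nil))) (.nd (nat_lit 6) 
(.lf (nat_lit 244671) (.g (nat_lit 3389) (.e (nat_lit 123196) (nat_lit 266) (.e (nat_lit 57347) (nat_lit 0) (.e (nat_lit 2031) (nat_lit 140) (.e (nat_lit 688177) (nat_lit 16) (.e (nat_lit 65583) (nat_lit 7) (.e (nat_lit 319530) (nat_lit 16) (.e (nat_lit 286748) (nat_lit 9) (.e (nat_lit 336031) (nat_lit 4) .nil)))))))) (.g (nat_lit 6) .nil .nil))) 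
(.lf (nat_lit 244735) (.g (nat_lit 4288) (.e (nat_lit 123197) (nat_lit 266) (.e (nat_lit 57347) (nat_lit 0) (.e (nat_lit 2031) (nat_lit 140) (.e (nat_lit 688177) (nat_lit 16) (.e (nat_lit 65586) (nat_lit 7) (.e (nat_lit 319531) (nat_lit 16) (.e (nat_lit 286748) (nat_lit 9) (.e (nat_lit 336034) (nat_lit 4) .nil)))))))) (.g (nat_lit 7) .nil .nil))))))))))

noncomputable def tv3184 : DT := (.nd (nat_lit 0) (.nd (nat_lit 1) (.nd (nat_lit 2) (.nd (nat_lit 3) (.nd (nat_lit 4) (.nd (nat_lit 5) (.nd (nat_lit 6) 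
(.lf (nat_lit 244736) (.g (nat_lit 2421) (.e (nat_lit 123197) (nat_lit 266) (.e (nat_lit 57354) (nat_lit 0) (.e (nat_lit 1855) (nat_lit 124) (.e (nat_lit 557101) (nat_lit 13) (.e (nat_lit 172097) (nat_lit 9) (.e (nat_lit 426125) (nat_lit 2) (.e (nat_lit 196666) (nat_lit 13) (.e (nat_lit 65574) (nat_lit 4) .nil)))))))) (.g (nat_lit 4) .nil .nil))) 
(.lf (nat_lit 244800) (.g (nat_lit 968) (.e (nat_lit 123197) (nat_lit 266) (.e (nat_lit 57424) (nat_lit 14) (.e (nat_lit 352262) (nat_lit 0) (.e (nat_lit 3630) (nat_lit 227) .nil)))) .nil))) (.nd (nat_lit 6) 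
(.lf (nat_lit 244768) (.g (nat_lit 624) (.e (nat_lit 123197) (nat_lit 266) (.e (nat_lit 57417) (nat_lit 12) (.e (nat_lit 335874) (nat_lit 0) .nil))) .nil)) 
(.lf (nat_lit 244832) (.g (nat_lit 3362) (.e (nat_lit 123197) (nat_lit 266) (.e (nat_lit 57445) (nat_lit 19) (.e (nat_lit 393251) (nat_lit 18) (.e (nat_lit 164406) (nat_lit 258) (.e (nat_lit 163871) (nat_lit 2) (.e (nat_lit 196663) (nat_lit 13) (.e (nat_lit 65574) (nat_lit 4) .nil))))))) (.g (nat_lit 5) .nil .nil))))) (.nd (nat_lit 5) (.nd (nat_lit 6) 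
(.lf (nat_lit 244752) (.g (nat_lit 1447) (.e (nat_lit 123197) (nat_lit 266) (.e (nat_lit 57404) (nat_lit 12) (.e (nat_lit 336205) (nat_lit 12) (.e (nat_lit 385106) (nat_lit 50) (.e (nat_lit 786478) (nat_lit 29) .nil))))) .nil)) 
(.lf (nat_lit 244816) (.g (nat_lit 1335) (.e (nat_lit 123197) (nat_lit 266) (.e (nat_lit 57427) (nat_lit 15) (.e (nat_lit 360450) (nat_lit 0) (.e (nat_lit 5898) (nat_lit 320) (.e (nat_lit 7936) (nat_lit 90) .nil))))) .nil))) (.nd (nat_lit 6) 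
(.lf (nat_lit 244784) (.g (nat_lit 813) (.e (nat_lit 123197) (nat_lit 266) (.e (nat_lit 57423) (nat_lit 14) (.e (nat_lit 352262) (nat_lit 0) (.e (nat_lit 3747) (nat_lit 228) .nil)))) .nil)) 
(.lf (nat_lit 244848) (.g (nat_lit 2540) (.e (nat_lit 123198) (nat_lit 266) (.e (nat_lit 57373) (nat_lit 2) (.e (nat_lit 90172) (nat_lit 14) (.e (nat_lit 180244) (nat_lit 5) (.e (nat_lit 532508) (nat_lit 2) .nil))))) .nil))))) (.nd (nat_lit 4) (.nd (nat_lit 5) (.nd (nat_lit 6) 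
(.lf (nat_lit 244744) (.g (nat_lit 2415) (.e (nat_lit 123197) (nat_lit 266) (.e (nat_lit 57371) (nat_lit 2) (.e (nat_lit 90174) (nat_lit 14) (.e (nat_lit 180243) (nat_lit 5) (.e (nat_lit 532511) (nat_lit 2) .nil))))) .nil)) 
(.lf (nat_lit 244808) (.g (nat_lit 2014) (.e (nat_lit 123197) (nat_lit 266) (.e (nat_lit 57424) (nat_lit 14) (.e (nat_lit 352318) (nat_lit 24) (.e (nat_lit 123182) (nat_lit 264) (.e (nat_lit 1223) (nat_lit 90) .nil))))) .nil))) (.nd (nat_lit 6) 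
(.lf (nat_lit 244776) (.g (nat_lit 2492) (.e (nat_lit 123197) (nat_lit 266) (.e (nat_lit 57419) (nat_lit 12) (.e (nat_lit 336194) (nat_lit 12) (.e (nat_lit 385094) (nat_lit 49) (.e (nat_lit 778327) (nat_lit 6) (.e (nat_lit 81957) (nat_lit 24) .nil)))))) (.g (nat_lit 0) .nil .nil))) 
(.lf (nat_lit 244840) (.g (nat_lit 2771) (.e (nat_lit 123198) (nat_lit 266) (.e (nat_lit 57371) (nat_lit 2) (.e (nat_lit 90172) (nat_lit 14) (.e (nat_lit 180250) (nat_lit 10) (.e (nat_lit 573480) (nat_lit 13) .nil))))) .nil)))) (.nd (nat_lit 5) (.nd (nat_lit 6) 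
(.lf (nat_lit 244760) (.g (nat_lit 1434) (.e (nat_lit 123197) (nat_lit 266) (.e (nat_lit 57409) (nat_lit 12) (.e (nat_lit 336208) (nat_lit 12) (.e (nat_lit 385093) (nat_lit 49) .nil)))) .nil)) 
(.lf (nat_lit 244824) (.g (nat_lit 2024) (.e (nat_lit 123197) (nat_lit 266) (.e (nat_lit 57427) (nat_lit 15) (.e (nat_lit 360486) (nat_lit 18) (.e (nat_lit 671762) (nat_lit 4) (.e (nat_lit 65598) (nat_lit 9) .nil))))) .nil))) (.nd (nat_lit 6) 
(.lf (nat_lit 244792) (.g (nat_lit 1360) (.e (nat_lit 123197) (nat_lit 266) (.e (nat_lit 57423) (nat_lit 14) (.e (nat_lit 352316) (nat_lit 24) (.e (nat_lit 123197) (nat_lit 266) .nil)))) .nil)) 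
(.lf (nat_lit 244856) (.g (nat_lit 2398) (.e (nat_lit 123198) (nat_lit 266) (.e (nat_lit 57373) (nat_lit 2) (.e (nat_lit 90174) (nat_lit 14) (.e (nat_lit 180243) (nat_lit 5) (.e (nat_lit 532510) (nat_lit 2) .nil))))) .nil)))))) (.nd (nat_lit 3) (.nd (nat_lit 4) (.nd (nat_lit 5) (.nd (nat_lit 6) 
(.lf (nat_lit 244740) (.g (nat_lit 2776) (.e (nat_lit 123197) (nat_lit 266) (.e (nat_lit 57371) (nat_lit 2) (.e (nat_lit 90172) (nat_lit 14) (.e (nat_lit 180250) (nat_lit 10) (.e (nat_lit 573481) (nat_lit 13) .nil))))) .nil)) 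
(.lf (nat_lit 244804) (.g (nat_lit 895) (.e (nat_lit 123197) (nat_lit 266) (.e (nat_lit 57424) (nat_lit 14) (.e (nat_lit 352302) (nat_lit 20) .nil))) .nil))) (.nd (nat_lit 6) 
(.lf (nat_lit 244772) (.g (nat_lit 2384) (.e (nat_lit 123197) (nat_lit 266) (.e (nat_lit 57417) (nat_lit 12) (.e (nat_lit 336206) (nat_lit 12) (.e (nat_lit 385094) (nat_lit 49) (.e (nat_lit 778327) (nat_lit 6) (.e (nat_lit 81959) (nat_lit 24) .nil)))))) (.g (nat_lit 0) .nil .nil))) 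
(.lf (nat_lit 244836) (.g (nat_lit 1920) (.e (nat_lit 123197) (nat_lit 266) (.e (nat_lit 57447) (nat_lit 19) (.e (nat_lit 393234) (nat_lit 17) (.e (nat_lit 2399) (nat_lit 157) (.e (nat_lit 5968) (nat_lit 324) .nil))))) .nil)))) (.nd (nat_lit 5) (.nd (nat_lit 6) 
(.lf (nat_lit 244756) (.g (nat_lit 2073) (.e (nat_lit 123197) (nat_lit 266) (.e (nat_lit 57406) (nat_lit 12) (.e (nat_lit 336208) (nat_lit 12) (.e (nat_lit 385094) (nat_lit 49) (.e (nat_lit 778327) (nat_lit 6) .nil))))) .nil)) 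
(.lf (nat_lit 244820) (.g (nat_lit 421) (.e (nat_lit 123197) (nat_lit 266) (.e (nat_lit 57427) (nat_lit 15) (.e (nat_lit 368384) (nat_lit 0) .nil))) .nil))) (.nd (nat_lit 6) 
(.lf (nat_lit 244788) (.g (nat_lit 712) (.e (nat_lit 123197) (nat_lit 266) (.e (nat_lit 57423) (nat_lit 14) (.e (nat_lit 352308) (nat_lit 21) .nil))) .nil)) 
(.lf (nat_lit 244852) (.g (nat_lit 2137) (.e (nat_lit 123198) (nat_lit 266) (.e (nat_lit 57373) (nat_lit 2) (.e (nat_lit 90173) (nat_lit 14) (.e (nat_lit 180252) (nat_lit 10) (.e (nat_lit 573481) (nat_lit 13) .nil))))) .nil))))) (.nd (nat_lit 4) (.nd (nat_lit 5) (.nd (nat_lit 6) 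
(.lf (nat_lit 244748) (.g (nat_lit 2065) (.e (nat_lit 123197) (nat_lit 266) (.e (nat_lit 57373) (nat_lit 2) (.e (nat_lit 90174) (nat_lit 14) (.e (nat_lit 180250) (nat_lit 10) .nil)))) .nil)) 
(.lf (nat_lit 244812) (.g (nat_lit 1866) (.e (nat_lit 123197) (nat_lit 266) (.e (nat_lit 57426) (nat_lit 15) (.e (nat_lit 360452) (nat_lit 0) (.e (nat_lit 5907) (nat_lit 320) (.e (nat_lit 1015) (nat_lit 81) .nil))))) .nil))) (.nd (nat_lit 6) 
(.lf (nat_lit 244780) (.g (nat_lit 385) (.e (nat_lit 123197) (nat_lit 266) (.e (nat_lit 57423) (nat_lit 14) (.e (nat_lit 352258) (nat_lit 0) .nil))) .nil)) 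
(.lf (nat_lit 244844) (.g (nat_lit 1148) (.e (nat_lit 123198) (nat_lit 266) (.e (nat_lit 57373) (nat_lit 2) (.e (nat_lit 98048) (nat_lit 5) (.e (nat_lit 73746) (nat_lit 3) (.e (nat_lit 516131) (nat_lit 3) .nil))))) .nil)))) (.nd (nat_lit 5) (.nd (nat_lit 6) 
(.lf (nat_lit 244764) (.g (nat_lit 1171) (.e (nat_lit 123197) (nat_lit 266) (.e (nat_lit 57412) (nat_lit 12) (.e (nat_lit 336226) (nat_lit 14) (.e (nat_lit 401438) (nat_lit 9) .nil)))) .nil)) 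
(.lf (nat_lit 244828) (.g (nat_lit 1516) (.e (nat_lit 123197) (nat_lit 266) (.e (nat_lit 57436) (nat_lit 17) (.e (nat_lit 376835) (nat_lit 0) (.e (nat_lit 3631) (nat_lit 227) (.e (nat_lit 778327) (nat_lit 6) .nil))))) .nil))) (.nd (nat_lit 6) 
(.lf (nat_lit 244796) (.g (nat_lit 3272) (.e (nat_lit 123197) (nat_lit 266) (.e (nat_lit 57423) (nat_lit 14) (.e (nat_lit 352318) (nat_lit 24) (.e (nat_lit 123184) (nat_lit 264) (.e (nat_lit 1222) (nat_lit 90) (.e (nat_lit 81957) (nat_lit 24) .nil)))))) (.g (nat_lit 5) .nil .nil))) 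
(.lf (nat_lit 244860) (.g (nat_lit 2124) (.e (nat_lit 123198) (nat_lit 266) (.e (nat_lit 57373) (nat_lit 2) (.e (nat_lit 90174) (nat_lit 14) (.e (nat_lit 180252) (nat_lit 10) .nil)))) .nil))))))) (.nd (nat_lit 2) (.nd (nat_lit 3) (.nd (nat_lit 4) (.nd (nat_lit 5) (.nd (nat_lit 6) 
(.lf (nat_lit 244738) (.g (nat_lit 735) (.e (nat_lit 123197) (nat_lit 266) (.e (nat_lit 57371) (nat_lit 2) (.e (nat_lit 90171) (nat_lit 14) .nil))) .nil)) 
(.lf (nat_lit 244802) (.g (nat_lit 3005) (.e (nat_lit 123197) (nat_lit 266) (.e (nat_lit 57424) (nat_lit 14) (.e (nat_lit 352262) (nat_lit 0) (.e (nat_lit 3632) (nat_lit 227) (.e (nat_lit 778326) (nat_lit 6) (.e (nat_lit 81959) (nat_lit 24) .nil)))))) (.g (nat_lit 0) .nil .nil)))) (.nd (nat_lit 6) 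
(.lf (nat_lit 244770) (.g (nat_lit 2354) (.e (nat_lit 123197) (nat_lit 266) (.e (nat_lit 57417) (nat_lit 12) (.e (nat_lit 336206) (nat_lit 12) (.e (nat_lit 385094) (nat_lit 49) (.e (nat_lit 778326) (nat_lit 6) (.e (nat_lit 81959) (nat_lit 24) .nil)))))) (.g (nat_lit 0) .nil .nil))) 
(.lf (nat_lit 244834) (.g (nat_lit 629) (.e (nat_lit 123197) (nat_lit 266) (.e (nat_lit 57445) (nat_lit 19) (.e (nat_lit 393299) (nat_lit 27) .nil))) .nil)))) (.nd (nat_lit 5) (.nd (nat_lit 6) 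
(.lf (nat_lit 244754) (.g (nat_lit 1433) (.e (nat_lit 123197) (nat_lit 266) (.e (nat_lit 57406) (nat_lit 12) (.e (nat_lit 336208) (nat_lit 12) (.e (nat_lit 385093) (nat_lit 49) .nil)))) .nil)) 
(.lf (nat_lit 244818) (.g (nat_lit 1467) (.e (nat_lit 123197) (nat_lit 266) (.e (nat_lit 57427) (nat_lit 15) (.e (nat_lit 360457) (nat_lit 0) (.e (nat_lit 5818) (nat_lit 320) (.e (nat_lit 7936) (nat_lit 90) .nil))))) .nil))) (.nd (nat_lit 6) 
(.lf (nat_lit 244786) (.g (nat_lit 405) (.e (nat_lit 123197) (nat_lit 266) (.e (nat_lit 57423) (nat_lit 14) (.e (nat_lit 352270) (nat_lit 8) .nil))) .nil)) 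
(.lf (nat_lit 244850) (.g (nat_lit 2882) (.e (nat_lit 123198) (nat_lit 266) (.e (nat_lit 57373) (nat_lit 2) (.e (nat_lit 90172) (nat_lit 14) (.e (nat_lit 180250) (nat_lit 10) (.e (nat_lit 573481) (nat_lit 13) .nil))))) .nil))))) (.nd (nat_lit 4) (.nd (nat_lit 5) (.nd (nat_lit 6) 
(.lf (nat_lit 244746) (.g (nat_lit 4087) (.e (nat_lit 123197) (nat_lit 266) (.e (nat_lit 57371) (nat_lit 2) (.e (nat_lit 90174) (nat_lit 14) (.e (nat_lit 180250) (nat_lit 10) (.e (nat_lit 573482) (nat_lit 13) (.e (nat_lit 73472) (nat_lit 18) (.e (nat_lit 204839) (nat_lit 21) .nil))))))) (.g (nat_lit 5) .nil .nil))) 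
(.lf (nat_lit 244810) (.g (nat_lit 1290) (.e (nat_lit 123197) (nat_lit 266) (.e (nat_lit 57426) (nat_lit 15) (.e (nat_lit 360452) (nat_lit 0) (.e (nat_lit 5906) (nat_lit 320) (.e (nat_lit 7936) (nat_lit 90) .nil))))) .nil))) (.nd (nat_lit 6) 
(.lf (nat_lit 244778) (.g (nat_lit 913) (.e (nat_lit 123197) (nat_lit 266) (.e (nat_lit 57419) (nat_lit 12) (.e (nat_lit 336194) (nat_lit 12) (.e (nat_lit 385102) (nat_lit 50) .nil)))) .nil)) 
(.lf (nat_lit 244842) (.g (nat_lit 2560) (.e (nat_lit 123198) (nat_lit 266) (.e (nat_lit 57371) (nat_lit 2) (.e (nat_lit 90174) (nat_lit 14) (.e (nat_lit 180250) (nat_lit 10) (.e (nat_lit 573480) (nat_lit 13) .nil))))) .nil)))) (.nd (nat_lit 5) (.nd (nat_lit 6) 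
(.lf (nat_lit 244762) (.g (nat_lit 1726) (.e (nat_lit 123197) (nat_lit 266) (.e (nat_lit 57409) (nat_lit 12) (.e (nat_lit 336208) (nat_lit 12) (.e (nat_lit 385104) (nat_lit 50) (.e (nat_lit 786478) (nat_lit 29) .nil))))) .nil)) 
(.lf (nat_lit 244826) (.g (nat_lit 1452) (.e (nat_lit 123197) (nat_lit 266) (.e (nat_lit 57435) (nat_lit 17) (.e (nat_lit 376835) (nat_lit 0) (.e (nat_lit 3631) (nat_lit 227) (.e (nat_lit 778327) (nat_lit 6) .nil))))) .nil))) (.nd (nat_lit 6) 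
(.lf (nat_lit 244794) (.g (nat_lit 2723) (.e (nat_lit 123197) (nat_lit 266) (.e (nat_lit 57423) (nat_lit 14) (.e (nat_lit 352318) (nat_lit 24) (.e (nat_lit 123182) (nat_lit 264) (.e (nat_lit 1224) (nat_lit 90) (.e (nat_lit 81957) (nat_lit 24) .nil)))))) (.g (nat_lit 4) .nil .nil))) 
(.lf (nat_lit 244858) (.g (nat_lit 1492) (.e (nat_lit 123198) (nat_lit 266) (.e (nat_lit 57373) (nat_lit 2) (.e (nat_lit 90174) (nat_lit 14) (.e (nat_lit 180250) (nat_lit 10) .nil)))) .nil)))))) (.nd (nat_lit 3) (.nd (nat_lit 4) (.nd (nat_lit 5) (.nd (nat_lit 6) 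
(.lf (nat_lit 244742) (.g (nat_lit 728) (.e (nat_lit 123197) (nat_lit 266) (.e (nat_lit 57371) (nat_lit 2) (.e (nat_lit 90174) (nat_lit 14) .nil))) .nil)) 
(.lf (nat_lit 244806) (.g (nat_lit 1052) (.e (nat_lit 123197) (nat_lit 266) (.e (nat_lit 57424) (nat_lit 14) (.e (nat_lit 352318) (nat_lit 24) (.e (nat_lit 123182) (nat_lit 264) .nil)))) .nil))) (.nd (nat_lit 6) 
(.lf (nat_lit 244774) (.g (nat_lit 2428) (.e (nat_lit 123197) (nat_lit 266) (.e (nat_lit 57417) (nat_lit 12) (.e (nat_lit 336235) (nat_lit 14) (.e (nat_lit 401437) (nat_lit 9) (.e (nat_lit 426542) (nat_lit 29) .nil))))) .nil)) 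
(.lf (nat_lit 244838) (.g (nat_lit 2115) (.e (nat_lit 123198) (nat_lit 266) (.e (nat_lit 57354) (nat_lit 0) (.e (nat_lit 1855) (nat_lit 124) (.e (nat_lit 557107) (nat_lit 15) (.e (nat_lit 188450) (nat_lit 23) .nil))))) .nil)))) (.nd (nat_lit 5) (.nd (nat_lit 6) 
(.lf (nat_lit 244758) (.g (nat_lit 521) (.e (nat_lit 123197) (nat_lit 266) (.e (nat_lit 57409) (nat_lit 12) (.e (nat_lit 336208) (nat_lit 12) .nil))) .nil)) 
(.lf (nat_lit 244822) (.g (nat_lit 2235) (.e (nat_lit 123197) (nat_lit 266) (.e (nat_lit 57427) (nat_lit 15) (.e (nat_lit 360474) (nat_lit 8) (.e (nat_lit 557059) (nat_lit 0) .nil)))) .nil))) (.nd (nat_lit 6) 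
(.lf (nat_lit 244790) (.g (nat_lit 701) (.e (nat_lit 123197) (nat_lit 266) (.e (nat_lit 57423) (nat_lit 14) (.e (nat_lit 352316) (nat_lit 24) .nil))) .nil)) 
(.lf (nat_lit 244854) (.g (nat_lit 2429) (.e (nat_lit 123198) (nat_lit 266) (.e (nat_lit 57373) (nat_lit 2) (.e (nat_lit 90174) (nat_lit 14) (.e (nat_lit 180243) (nat_lit 5) (.e (nat_lit 532508) (nat_lit 2) .nil))))) .nil))))) (.nd (nat_lit 4) (.nd (nat_lit 5) (.nd (nat_lit 6) 
(.lf (nat_lit 244750) (.g (nat_lit 1140) (.e (nat_lit 123197) (nat_lit 266) (.e (nat_lit 57378) (nat_lit 3) (.e (nat_lit 98368) (nat_lit 27) .nil))) .nil)) 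
(.lf (nat_lit 244814) (.g (nat_lit 355) (.e (nat_lit 123197) (nat_lit 266) (.e (nat_lit 57426) (nat_lit 15) (.e (nat_lit 368384) (nat_lit 17) .nil))) .nil))) (.nd (nat_lit 6) 
(.lf (nat_lit 244782) (.g (nat_lit 828) (.e (nat_lit 123197) (nat_lit 266) (.e (nat_lit 57423) (nat_lit 14) (.e (nat_lit 352262) (nat_lit 0) (.e (nat_lit 3630) (nat_lit 227) .nil)))) .nil)) 
(.lf (nat_lit 244846) (.g (nat_lit 1281) (.e (nat_lit 123198) (nat_lit 266) (.e (nat_lit 57373) (nat_lit 2) (.e (nat_lit 98048) (nat_lit 8) (.e (nat_lit 131127) (nat_lit 13) (.e (nat_lit 401152) (nat_lit 9) (.e (nat_lit 336035) (nat_lit 4) .nil)))))) (.g (nat_lit 4) .nil .nil))))) (.nd (nat_lit 5) (.nd (nat_lit 6) 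
(.lf (nat_lit 244766) (.g (nat_lit 2122) (.e (nat_lit 123197) (nat_lit 266) (.e (nat_lit 57412) (nat_lit 12) (.e (nat_lit 336226) (nat_lit 14) (.e (nat_lit 401459) (nat_lit 13) (.e (nat_lit 483378) (nat_lit 23) .nil))))) .nil)) 
(.lf (nat_lit 244830) (.g (nat_lit 3367) (.e (nat_lit 123197) (nat_lit 266) (.e (nat_lit 57436) (nat_lit 17) (.e (nat_lit 376859) (nat_lit 21) (.e (nat_lit 57872) (nat_lit 264) (.e (nat_lit 1221) (nat_lit 90) (.e (nat_lit 81959) (nat_lit 24) .nil)))))) (.g (nat_lit 6) .nil .nil)))) (.nd (nat_lit 6) 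
(.lf (nat_lit 244798) (.g (nat_lit 1523) (.e (nat_lit 123197) (nat_lit 266) (.e (nat_lit 57423) (nat_lit 14) (.e (nat_lit 352318) (nat_lit 24) (.e (nat_lit 123196) (nat_lit 266) (.e (nat_lit 57423) (nat_lit 14) .nil))))) .nil)) 
(.lf (nat_lit 244862) (.g (nat_lit 1682) (.e (nat_lit 123198) (nat_lit 266) (.e (nat_lit 57378) (nat_lit 3) (.e (nat_lit 98367) (nat_lit 27) (.e (nat_lit 434244) (nat_lit 28) .nil)))) .nil)))))))) (.nd (nat_lit 1) (.nd (nat_lit 2) (.nd (nat_lit 3) (.nd (nat_lit 4) (.nd (nat_lit 5) (.nd (nat_lit 6) 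
(.lf (nat_lit 244737) (.g (nat_lit 734) (.e (nat_lit 123197) (nat_lit 266) (.e (nat_lit 57371) (nat_lit 2) (.e (nat_lit 90113) (nat_lit 0) .nil))) .nil)) 
(.lf (nat_lit 244801) (.g (nat_lit 1516) (.e (nat_lit 123197) (nat_lit 266) (.e (nat_lit 57424) (nat_lit 14) (.e (nat_lit 352262) (nat_lit 0) (.e (nat_lit 3631) (nat_lit 227) (.e (nat_lit 778326) (nat_lit 6) .nil))))) .nil))) (.nd (nat_lit 6) 
(.lf (nat_lit 244769) (.g (nat_lit 851) (.e (nat_lit 123197) (nat_lit 266) (.e (nat_lit 57417) (nat_lit 12) (.e (nat_lit 336118) (nat_lit 9) (.e (nat_lit 336329) (nat_lit 19) .nil)))) .nil)) 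
(.lf (nat_lit 244833) (.g (nat_lit 629) (.e (nat_lit 123197) (nat_lit 266) (.e (nat_lit 57445) (nat_lit 19) (.e (nat_lit 393252) (nat_lit 18) .nil))) .nil)))) (.nd (nat_lit 5) (.nd (nat_lit 6) 
(.lf (nat_lit 244753) (.g (nat_lit 1610) (.e (nat_lit 123197) (nat_lit 266) (.e (nat_lit 57406) (nat_lit 12) (.e (nat_lit 336207) (nat_lit 12) (.e (nat_lit 385094) (nat_lit 49) (.e (nat_lit 778327) (nat_lit 6) .nil))))) .nil)) 
(.lf (nat_lit 244817) (.g (nat_lit 883) (.e (nat_lit 123197) (nat_lit 266) (.e (nat_lit 57427) (nat_lit 15) (.e (nat_lit 360450) (nat_lit 0) (.e (nat_lit 7936) (nat_lit 323) .nil)))) .nil))) (.nd (nat_lit 6) 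
(.lf (nat_lit 244785) (.g (nat_lit 701) (.e (nat_lit 123197) (nat_lit 266) (.e (nat_lit 57423) (nat_lit 14) (.e (nat_lit 352265) (nat_lit 0) .nil))) .nil)) 
(.lf (nat_lit 244849) (.g (nat_lit 3435) (.e (nat_lit 123198) (nat_lit 266) (.e (nat_lit 57373) (nat_lit 2) (.e (nat_lit 90172) (nat_lit 14) (.e (nat_lit 180250) (nat_lit 10) (.e (nat_lit 573480) (nat_lit 13) (.e (nat_lit 73472) (nat_lit 18) (.e (nat_lit 204839) (nat_lit 21) .nil))))))) (.g (nat_lit 5) .nil .nil)))))) (.nd (nat_lit 4) (.nd (nat_lit 5) (.nd (nat_lit 6) 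
(.lf (nat_lit 244745) (.g (nat_lit 2749) (.e (nat_lit 123197) (nat_lit 266) (.e (nat_lit 57371) (nat_lit 2) (.e (nat_lit 90174) (nat_lit 14) (.e (nat_lit 180250) (nat_lit 10) (.e (nat_lit 573481) (nat_lit 13) .nil))))) .nil)) 
(.lf (nat_lit 244809) (.g (nat_lit 1208) (.e (nat_lit 123197) (nat_lit 266) (.e (nat_lit 57424) (nat_lit 14) (.e (nat_lit 352318) (nat_lit 24) (.e (nat_lit 123198) (nat_lit 266) .nil)))) .nil))) (.nd (nat_lit 6) 
(.lf (nat_lit 244777) (.g (nat_lit 2312) (.e (nat_lit 123197) (nat_lit 266) (.e (nat_lit 57419) (nat_lit 12) (.e (nat_lit 336194) (nat_lit 12) (.e (nat_lit 385094) (nat_lit 49) (.e (nat_lit 778327) (nat_lit 6) (.e (nat_lit 81959) (nat_lit 24) .nil)))))) (.g (nat_lit 0) .nil .nil))) 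
(.lf (nat_lit 244841) (.g (nat_lit 1599) (.e (nat_lit 123198) (nat_lit 266) (.e (nat_lit 57371) (nat_lit 2) (.e (nat_lit 90174) (nat_lit 14) (.e (nat_lit 180243) (nat_lit 5) .nil)))) .nil)))) (.nd (nat_lit 5) (.nd (nat_lit 6) 
(.lf (nat_lit 244761) (.g (nat_lit 1400) (.e (nat_lit 123197) (nat_lit 266) (.e (nat_lit 57409) (nat_lit 12) (.e (nat_lit 336208) (nat_lit 12) (.e (nat_lit 385094) (nat_lit 49) .nil)))) .nil)) 
(.lf (nat_lit 244825) (.g (nat_lit 891) (.e (nat_lit 123197) (nat_lit 266) (.e (nat_lit 57428) (nat_lit 15) (.e (nat_lit 360486) (nat_lit 18) (.e (nat_lit 679680) (nat_lit 6) .nil)))) .nil))) (.nd (nat_lit 6) 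
(.lf (nat_lit 244793) (.g (nat_lit 702) (.e (nat_lit 123197) (nat_lit 266) (.e (nat_lit 57423) (nat_lit 14) (.e (nat_lit 352317) (nat_lit 24) .nil))) .nil)) 
(.lf (nat_lit 244857) (.g (nat_lit 2645) (.e (nat_lit 123198) (nat_lit 266) (.e (nat_lit 57373) (nat_lit 2) (.e (nat_lit 90174) (nat_lit 14) (.e (nat_lit 180243) (nat_lit 5) (.e (nat_lit 532511) (nat_lit 2) (.e (nat_lit 114432) (nat_lit 0) (.e (nat_lit 2684) (nat_lit 168) (.e (nat_lit 204840) (nat_lit 21) .nil)))))))) (.g (nat_lit 4) .nil .nil))))))) 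
(.nd (nat_lit 3) (.nd (nat_lit 4) (.nd (nat_lit 5) (.nd (nat_lit 6) 
(.lf (nat_lit 244741) (.g (nat_lit 3716) (.e (nat_lit 123197) (nat_lit 266) (.e (nat_lit 57371) (nat_lit 2) (.e (nat_lit 90172) (nat_lit 14) (.e (nat_lit 180250) (nat_lit 10) (.e (nat_lit 573482) (nat_lit 13) (.e (nat_lit 73472) (nat_lit 18) (.e (nat_lit 204839) (nat_lit 21) .nil))))))) (.g (nat_lit 5) .nil .nil))) 
(.lf (nat_lit 244805) (.g (nat_lit 874) (.e (nat_lit 123197) (nat_lit 266) (.e (nat_lit 57424) (nat_lit 14) (.e (nat_lit 352303) (nat_lit 20) .nil))) .nil))) (.nd (nat_lit 6) 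
(.lf (nat_lit 244773) (.g (nat_lit 736) (.e (nat_lit 123197) (nat_lit 266) (.e (nat_lit 57417) (nat_lit 12) (.e (nat_lit 336235) (nat_lit 14) .nil))) .nil)) 
(.lf (nat_lit 244837) (.g (nat_lit 3457) (.e (nat_lit 123198) (nat_lit 266) (.e (nat_lit 57347) (nat_lit 0) (.e (nat_lit 2031) (nat_lit 140) (.e (nat_lit 688177) (nat_lit 16) (.e (nat_lit 65586) (nat_lit 7) (.e (nat_lit 319531) (nat_lit 16) (.e (nat_lit 286748) (nat_lit 9) (.e (nat_lit 336030) (nat_lit 4) .nil)))))))) (.g (nat_lit 6) .nil .nil))))) (.nd (nat_lit 5) (.nd (nat_lit 6) 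
(.lf (nat_lit 244757) (.g (nat_lit 1901) (.e (nat_lit 123197) (nat_lit 266) (.e (nat_lit 57406) (nat_lit 12) (.e (nat_lit 336208) (nat_lit 12) (.e (nat_lit 385104) (nat_lit 50) (.e (nat_lit 786478) (nat_lit 29) .nil))))) .nil)) 
(.lf (nat_lit 244821) (.g (nat_lit 3195) (.e (nat_lit 123197) (nat_lit 266) (.e (nat_lit 57427) (nat_lit 15) (.e (nat_lit 360474) (nat_lit 8) (.e (nat_lit 557058) (nat_lit 0) .nil)))) .nil))) (.nd (nat_lit 6) 
(.lf (nat_lit 244789) (.g (nat_lit 679) (.e (nat_lit 123197) (nat_lit 266) (.e (nat_lit 57423) (nat_lit 14) (.e (nat_lit 352309) (nat_lit 21) .nil))) .nil)) 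
(.lf (nat_lit 244853) (.g (nat_lit 1627) (.e (nat_lit 123198) (nat_lit 266) (.e (nat_lit 57373) (nat_lit 2) (.e (nat_lit 90174) (nat_lit 14) (.e (nat_lit 180243) (nat_lit 5) .nil)))) .nil))))) (.nd (nat_lit 4) (.nd (nat_lit 5) (.nd (nat_lit 6) 
(.lf (nat_lit 244749) (.g (nat_lit 2762) (.e (nat_lit 123197) (nat_lit 266) (.e (nat_lit 57378) (nat_lit 3) (.e (nat_lit 98367) (nat_lit 27) (.e (nat_lit 434248) (nat_lit 28) (.e (nat_lit 573482) (nat_lit 13) .nil))))) .nil)) 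
(.lf (nat_lit 244813) (.g (nat_lit 1939) (.e (nat_lit 123197) (nat_lit 266) (.e (nat_lit 57426) (nat_lit 15) (.e (nat_lit 360452) (nat_lit 0) (.e (nat_lit 5907) (nat_lit 320) (.e (nat_lit 7936) (nat_lit 90) (.e (nat_lit 81959) (nat_lit 24) .nil)))))) (.g (nat_lit 4) .nil .nil)))) (.nd (nat_lit 6) 
(.lf (nat_lit 244781) (.g (nat_lit 737) (.e (nat_lit 123197) (nat_lit 266) (.e (nat_lit 57423) (nat_lit 14) (.e (nat_lit 352261) (nat_lit 0) (.e (nat_lit 3627) (nat_lit 227) .nil)))) .nil)) 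
(.lf (nat_lit 244845) (.g (nat_lit 743) (.e (nat_lit 123198) (nat_lit 266) (.e (nat_lit 57373) (nat_lit 2) (.e (nat_lit 98048) (nat_lit 6) .nil))) .nil)))) (.nd (nat_lit 5) (.nd (nat_lit 6) 
(.lf (nat_lit 244765) (.g (nat_lit 1022) (.e (nat_lit 123197) (nat_lit 266) (.e (nat_lit 57412) (nat_lit 12) (.e (nat_lit 336226) (nat_lit 14) (.e (nat_lit 401458) (nat_lit 13) .nil)))) .nil)) 
(.lf (nat_lit 244829) (.g (nat_lit 1139) (.e (nat_lit 123197) (nat_lit 266) (.e (nat_lit 57436) (nat_lit 17) (.e (nat_lit 376859) (nat_lit 21) (.e (nat_lit 57870) (nat_lit 264) .nil)))) .nil))) (.nd (nat_lit 6) 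
(.lf (nat_lit 244797) (.g (nat_lit 1139) (.e (nat_lit 123197) (nat_lit 266) (.e (nat_lit 57423) (nat_lit 14) (.e (nat_lit 352318) (nat_lit 24) (.e (nat_lit 123185) (nat_lit 264) .nil)))) .nil)) 
(.lf (nat_lit 244861) (.g (nat_lit 1907) (.e (nat_lit 123198) (nat_lit 266) (.e (nat_lit 57378) (nat_lit 3) (.e (nat_lit 98365) (nat_lit 26) (.e (nat_lit 426325) (nat_lit 13) .nil)))) .nil))))))) (.nd (nat_lit 2) (.nd (nat_lit 3) (.nd (nat_lit 4) (.nd (nat_lit 5) (.nd (nat_lit 6) 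
(.lf (nat_lit 244739) (.g (nat_lit 3247) (.e (nat_lit 123197) (nat_lit 266) (.e (nat_lit 57371) (nat_lit 2) (.e (nat_lit 90172) (nat_lit 14) (.e (nat_lit 180250) (nat_lit 10) (.e (nat_lit 573480) (nat_lit 13) (.e (nat_lit 73472) (nat_lit 18) (.e (nat_lit 204839) (nat_lit 21) .nil))))))) (.g (nat_lit 4) .nil .nil))) 
(.lf (nat_lit 244803) (.g (nat_lit 3046) (.e (nat_lit 123197) (nat_lit 266) (.e (nat_lit 57424) (nat_lit 14) (.e (nat_lit 352262) (nat_lit 0) (.e (nat_lit 3632) (nat_lit 227) (.e (nat_lit 778327) (nat_lit 6) (.e (nat_lit 81959) (nat_lit 24) .nil)))))) (.g (nat_lit 0) .nil .nil)))) (.nd (nat_lit 6) 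
(.lf (nat_lit 244771) (.g (nat_lit 2564) (.e (nat_lit 123197) (nat_lit 266) (.e (nat_lit 57417) (nat_lit 12) (.e (nat_lit 336206) (nat_lit 12) (.e (nat_lit 385094) (nat_lit 49) (.e (nat_lit 778327) (nat_lit 6) (.e (nat_lit 81957) (nat_lit 24) .nil)))))) (.g (nat_lit 0) .nil .nil))) 
(.lf (nat_lit 244835) (.g (nat_lit 1700) (.e (nat_lit 123197) (nat_lit 266) (.e (nat_lit 57447) (nat_lit 19) (.e (nat_lit 393234) (nat_lit 17) (.e (nat_lit 2398) (nat_lit 157) .nil)))) .nil)))) (.nd (nat_lit 5) (.nd (nat_lit 6) 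
(.lf (nat_lit 244755) (.g (nat_lit 2153) (.e (nat_lit 123197) (nat_lit 266) (.e (nat_lit 57406) (nat_lit 12) (.e (nat_lit 336208) (nat_lit 12) (.e (nat_lit 385094) (nat_lit 49) (.e (nat_lit 778326) (nat_lit 6) .nil))))) .nil)) 
(.lf (nat_lit 244819) (.g (nat_lit 1416) (.e (nat_lit 123197) (nat_lit 266) (.e (nat_lit 57427) (nat_lit 15) (.e (nat_lit 360457) (nat_lit 0) (.e (nat_lit 5949) (nat_lit 322) (.e (nat_lit 57425) (nat_lit 14) .nil))))) .nil))) (.nd (nat_lit 6) 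
(.lf (nat_lit 244787) (.g (nat_lit 708) (.e (nat_lit 123197) (nat_lit 266) (.e (nat_lit 57423) (nat_lit 14) (.e (nat_lit 352307) (nat_lit 21) .nil))) .nil)) 
(.lf (nat_lit 244851) (.g (nat_lit 3852) (.e (nat_lit 123198) (nat_lit 266) (.e (nat_lit 57373) (nat_lit 2) (.e (nat_lit 90172) (nat_lit 14) (.e (nat_lit 180250) (nat_lit 10) (.e (nat_lit 573482) (nat_lit 13) (.e (nat_lit 73472) (nat_lit 18) (.e (nat_lit 204839) (nat_lit 21) .nil))))))) (.g (nat_lit 5) .nil .nil)))))) (.nd (nat_lit 4) (.nd (nat_lit 5) (.nd (nat_lit 6) 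
(.lf (nat_lit 244747) (.g (nat_lit 2550) (.e (nat_lit 123197) (nat_lit 266) (.e (nat_lit 57371) (nat_lit 2) (.e (nat_lit 90174) (nat_lit 14) (.e (nat_lit 180252) (nat_lit 10) (.e (nat_lit 573482) (nat_lit 13) .nil))))) .nil)) 
(.lf (nat_lit 244811) (.g (nat_lit 1775) (.e (nat_lit 123197) (nat_lit 266) (.e (nat_lit 57426) (nat_lit 15) (.e (nat_lit 360452) (nat_lit 0) (.e (nat_lit 5907) (nat_lit 320) (.e (nat_lit 993) (nat_lit 81) .nil))))) .nil))) (.nd (nat_lit 6) 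
(.lf (nat_lit 244779) (.g (nat_lit 680) (.e (nat_lit 123197) (nat_lit 266) (.e (nat_lit 57423) (nat_lit 14) (.e (nat_lit 352256) (nat_lit 0) .nil))) .nil)) 
(.lf (nat_lit 244843) (.g (nat_lit 816) (.e (nat_lit 123198) (nat_lit 266) (.e (nat_lit 57371) (nat_lit 2) (.e (nat_lit 90196) (nat_lit 18) .nil))) .nil)))) (.nd (nat_lit 5) (.nd (nat_lit 6) 
(.lf (nat_lit 244763) (.g (nat_lit 1148) (.e (nat_lit 123197) (nat_lit 266) (.e (nat_lit 57412) (nat_lit 12) (.e (nat_lit 336176) (nat_lit 10) (.e (nat_lit 344169) (nat_lit 40) .nil)))) .nil)) 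
(.lf (nat_lit 244827) (.g (nat_lit 499) (.e (nat_lit 123197) (nat_lit 266) (.e (nat_lit 57435) (nat_lit 17) (.e (nat_lit 376858) (nat_lit 21) .nil))) .nil))) (.nd (nat_lit 6) 
(.lf (nat_lit 244795) (.g (nat_lit 2889) (.e (nat_lit 123197) (nat_lit 266) (.e (nat_lit 57423) (nat_lit 14) (.e (nat_lit 352318) (nat_lit 24) (.e (nat_lit 123182) (nat_lit 264) (.e (nat_lit 1224) (nat_lit 90) (.e (nat_lit 81959) (nat_lit 24) .nil)))))) (.g (nat_lit 4) .nil .nil))) 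
(.lf (nat_lit 244859) (.g (nat_lit 3654) (.e (nat_lit 123198) (nat_lit 266) (.e (nat_lit 57373) (nat_lit 2) (.e (nat_lit 90174) (nat_lit 14) (.e (nat_lit 180250) (nat_lit 10) (.e (nat_lit 573482) (nat_lit 13) (.e (nat_lit 73472) (nat_lit 18) (.e (nat_lit 204839) (nat_lit 21) .nil))))))) (.g (nat_lit 5) .nil .nil))))))) (.nd (nat_lit 3) (.nd (nat_lit 4) (.nd (nat_lit 5) (.nd (nat_lit 6) 
(.lf (nat_lit 244743) (.g (nat_lit 2406) (.e (nat_lit 123197) (nat_lit 266) (.e (nat_lit 57371) (nat_lit 2) (.e (nat_lit 90174) (nat_lit 14) (.e (nat_lit 180243) (nat_lit 5) (.e (nat_lit 532508) (nat_lit 2) .nil))))) .nil)) 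
(.lf (nat_lit 244807) (.g (nat_lit 2080) (.e (nat_lit 123197) (nat_lit 266) (.e (nat_lit 57424) (nat_lit 14) (.e (nat_lit 352318) (nat_lit 24) (.e (nat_lit 123182) (nat_lit 264) (.e (nat_lit 1218) (nat_lit 90) .nil))))) .nil))) (.nd (nat_lit 6) 
(.lf (nat_lit 244775) (.g (nat_lit 985) (.e (nat_lit 123197) (nat_lit 266) (.e (nat_lit 57419) (nat_lit 12) (.e (nat_lit 336076) (nat_lit 9) (.e (nat_lit 336330) (nat_lit 19) .nil)))) .nil)) 
(.lf (nat_lit 244839) (.g (nat_lit 2154) (.e (nat_lit 123198) (nat_lit 266) (.e (nat_lit 57354) (nat_lit 0) (.e (nat_lit 1855) (nat_lit 124) (.e (nat_lit 557109) (nat_lit 15) (.e (nat_lit 188458) (nat_lit 25) .nil))))) .nil)))) (.nd (nat_lit 5) (.nd (nat_lit 6) 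
(.lf (nat_lit 244759) (.g (nat_lit 1462) (.e (nat_lit 123197) (nat_lit 266) (.e (nat_lit 57409) (nat_lit 12) (.e (nat_lit 336208) (nat_lit 12) (.e (nat_lit 385091) (nat_lit 49) .nil)))) .nil)) 
(.lf (nat_lit 244823) (.g (nat_lit 425) (.e (nat_lit 123197) (nat_lit 266) (.e (nat_lit 57427) (nat_lit 15) (.e (nat_lit 360486) (nat_lit 18) .nil))) .nil))) (.nd (nat_lit 6) 
(.lf (nat_lit 244791) (.g (nat_lit 1288) (.e (nat_lit 123197) (nat_lit 266) (.e (nat_lit 57423) (nat_lit 14) (.e (nat_lit 352316) (nat_lit 24) (.e (nat_lit 123185) (nat_lit 264) .nil)))) .nil)) 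
(.lf (nat_lit 244855) (.g (nat_lit 2607) (.e (nat_lit 123198) (nat_lit 266) (.e (nat_lit 57373) (nat_lit 2) (.e (nat_lit 90174) (nat_lit 14) (.e (nat_lit 180243) (nat_lit 5) (.e (nat_lit 532508) (nat_lit 2) (.e (nat_lit 114432) (nat_lit 0) (.e (nat_lit 2684) (nat_lit 168) (.e (nat_lit 204840) (nat_lit 21) .nil)))))))) (.g (nat_lit 4) .nil .nil)))))) 
(.nd (nat_lit 4) (.nd (nat_lit 5) (.nd (nat_lit 6) 
(.lf (nat_lit 244751) (.g (nat_lit 758) (.e (nat_lit 123197) (nat_lit 266) (.e (nat_lit 57389) (nat_lit 5) (.e (nat_lit 114719) (nat_lit 23) .nil))) .nil)) 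
(.lf (nat_lit 244815) (.g (nat_lit 1102) (.e (nat_lit 123197) (nat_lit 266) (.e (nat_lit 57427) (nat_lit 15) (.e (nat_lit 360450) (nat_lit 0) (.e (nat_lit 5898) (nat_lit 320) .nil)))) .nil))) (.nd (nat_lit 6) 
(.lf (nat_lit 244783) (.g (nat_lit 3021) (.e (nat_lit 123197) (nat_lit 266) (.e (nat_lit 57423) (nat_lit 14) (.e (nat_lit 352262) (nat_lit 0) (.e (nat_lit 3632) (nat_lit 227) (.e (nat_lit 778326) (nat_lit 6) (.e (nat_lit 81959) (nat_lit 24) .nil)))))) (.g (nat_lit 0) .nil .nil))) 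
(.lf (nat_lit 244847) (.g (nat_lit 2122) (.e (nat_lit 123198) (nat_lit 266) (.e (nat_lit 57373) (nat_lit 2) (.e (nat_lit 90172) (nat_lit 14) (.e (nat_lit 180243) (nat_lit 5) .nil)))) .nil)))) (.nd (nat_lit 5) (.nd (nat_lit 6) 
(.lf (nat_lit 244767) (.g (nat_lit 625) (.e (nat_lit 123197) (nat_lit 266) (.e (nat_lit 57417) (nat_lit 12) (.e (nat_lit 335872) (nat_lit 0) .nil))) .nil)) 
(.lf (nat_lit 244831) (.g (nat_lit 1966) (.e (nat_lit 123197) (nat_lit 266) (.e (nat_lit 57445) (nat_lit 19) (.e (nat_lit 393251) (nat_lit 18) (.e (nat_lit 164406) (nat_lit 258) .nil)))) .nil))) (.nd (nat_lit 6) 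
(.lf (nat_lit 244799) (.g (nat_lit 854) (.e (nat_lit 123197) (nat_lit 266) (.e (nat_lit 57424) (nat_lit 14) (.e (nat_lit 352258) (nat_lit 0) .nil))) .nil)) 
(.lf (nat_lit 244863) (.g (nat_lit 2850) (.e (nat_lit 123198) (nat_lit 266) (.e (nat_lit 57378) (nat_lit 3) (.e (nat_lit 98367) (nat_lit 27) (.e (nat_lit 434245) (nat_lit 28) (.e (nat_lit 573481) (nat_lit 13) .nil))))) .nil)))))))))

noncomputable def tv3185 : DT := (.nd (nat_lit 0) (.nd (nat_lit 1) (.nd (nat_lit 2) (.nd (nat_lit 3) (.nd (nat_lit 4) (.nd (nat_lit 5) 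
(.lf (nat_lit 244864) (.g (nat_lit 3137) (.e (nat_lit 123198) (nat_lit 266) (.e (nat_lit 57378) (nat_lit 3) (.e (nat_lit 98367) (nat_lit 27) (.e (nat_lit 434248) (nat_lit 28) (.e (nat_lit 573480) (nat_lit 13) .nil))))) .nil)) 
(.lf (nat_lit 244896) (.g (nat_lit 1934) (.e (nat_lit 123198) (nat_lit 266) (.e (nat_lit 57419) (nat_lit 12) (.e (nat_lit 336194) (nat_lit 12) (.e (nat_lit 385105) (nat_lit 50) (.e (nat_lit 786478) (nat_lit 29) .nil))))) .nil))) (.nd (nat_lit 5) 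
(.lf (nat_lit 244880) (.g (nat_lit 1182) (.e (nat_lit 123198) (nat_lit 266) (.e (nat_lit 57409) (nat_lit 12) (.e (nat_lit 336208) (nat_lit 12) (.e (nat_lit 385091) (nat_lit 49) .nil)))) .nil)) 
(.lf (nat_lit 244912) (.g (nat_lit 864) (.e (nat_lit 123198) (nat_lit 266) (.e (nat_lit 57424) (nat_lit 14) (.e (nat_lit 352303) (nat_lit 20) .nil))) .nil)))) (.nd (nat_lit 4) (.nd (nat_lit 5) 
(.lf (nat_lit 244872) (.g (nat_lit 1531) (.e (nat_lit 123198) (nat_lit 266) (.e (nat_lit 57400) (nat_lit 10) (.e (nat_lit 319490) (nat_lit 0) (.e (nat_lit 5771) (nat_lit 316) (.e (nat_lit 179968) (nat_lit 29) .nil))))) .nil)) 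
(.lf (nat_lit 244904) (.g (nat_lit 2898) (.e (nat_lit 123198) (nat_lit 266) (.e (nat_lit 57423) (nat_lit 14) (.e (nat_lit 352318) (nat_lit 24) (.e (nat_lit 123182) (nat_lit 264) (.e (nat_lit 1222) (nat_lit 90) (.e (nat_lit 81957) (nat_lit 24) .nil)))))) (.g (nat_lit 5) .nil .nil)))) (.nd (nat_lit 5) 
(.lf (nat_lit 244888) (.g (nat_lit 520) (.e (nat_lit 123198) (nat_lit 266) (.e (nat_lit 57417) (nat_lit 12) (.e (nat_lit 335874) (nat_lit 0) .nil))) .nil)) 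
(.lf (nat_lit 244920) (.g (nat_lit 1415) (.e (nat_lit 123198) (nat_lit 266) (.e (nat_lit 57424) (nat_lit 14) (.e (nat_lit 352318) (nat_lit 24) (.e (nat_lit 123185) (nat_lit 264) .nil)))) .nil))))) (.nd (nat_lit 3) (.nd (nat_lit 4) (.nd (nat_lit 5) 
(.lf (nat_lit 244868) (.g (nat_lit 2438) (.e (nat_lit 123198) (nat_lit 266) (.e (nat_lit 57378) (nat_lit 3) (.e (nat_lit 98368) (nat_lit 27) (.e (nat_lit 434248) (nat_lit 28) (.e (nat_lit 573482) (nat_lit 13) .nil))))) .nil)) 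
(.lf (nat_lit 244900) (.g (nat_lit 982) (.e (nat_lit 123198) (nat_lit 266) (.e (nat_lit 57423) (nat_lit 14) (.e (nat_lit 352262) (nat_lit 0) (.e (nat_lit 3631) (nat_lit 227) .nil)))) .nil))) (.nd (nat_lit 5) 
(.lf (nat_lit 244884) (.g (nat_lit 1287) (.e (nat_lit 123198) (nat_lit 266) (.e (nat_lit 57412) (nat_lit 12) (.e (nat_lit 336193) (nat_lit 12) (.e (nat_lit 385094) (nat_lit 49) .nil)))) .nil)) 
(.lf (nat_lit 244916) (.g (nat_lit 670) (.e (nat_lit 123198) (nat_lit 266) (.e (nat_lit 57424) (nat_lit 14) (.e (nat_lit 352317) (nat_lit 24) .nil))) .nil)))) (.nd (nat_lit 4) (.nd (nat_lit 5) 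
(.lf (nat_lit 244876) (.g (nat_lit 1007) (.e (nat_lit 123198) (nat_lit 266) (.e (nat_lit 57406) (nat_lit 12) (.e (nat_lit 335977) (nat_lit 0) (.e (nat_lit 6216) (nat_lit 333) .nil)))) .nil)) 
(.lf (nat_lit 244908) (.g (nat_lit 1001) (.e (nat_lit 123198) (nat_lit 266) (.e (nat_lit 57424) (nat_lit 14) (.e (nat_lit 352262) (nat_lit 0) (.e (nat_lit 3630) (nat_lit 227) .nil)))) .nil))) (.nd (nat_lit 5) 
(.lf (nat_lit 244892) (.g (nat_lit 2313) (.e (nat_lit 123198) (nat_lit 266) (.e (nat_lit 57419) (nat_lit 12) (.e (nat_lit 336194) (nat_lit 12) (.e (nat_lit 385094) (nat_lit 49) (.e (nat_lit 778326) (nat_lit 6) (.e (nat_lit 81957) (nat_lit 24) .nil)))))) (.g (nat_lit 0) .nil .nil))) 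
(.lf (nat_lit 244924) (.g (nat_lit 557) (.e (nat_lit 123198) (nat_lit 266) (.e (nat_lit 57426) (nat_lit 15) (.e (nat_lit 360457) (nat_lit 0) .nil))) .nil)))))) (.nd (nat_lit 2) (.nd (nat_lit 3) (.nd (nat_lit 4) (.nd (nat_lit 5) 
(.lf (nat_lit 244866) (.g (nat_lit 1046) (.e (nat_lit 123198) (nat_lit 266) (.e (nat_lit 57378) (nat_lit 3) (.e (nat_lit 98368) (nat_lit 27) .nil))) .nil)) 
(.lf (nat_lit 244898) (.g (nat_lit 1156) (.e (nat_lit 123198) (nat_lit 266) (.e (nat_lit 57421) (nat_lit 13) (.e (nat_lit 344079) (nat_lit 13) (.e (nat_lit 1386) (nat_lit 105) (.e (nat_lit 311358) (nat_lit 29) (.e (nat_lit 352316) (nat_lit 24) .nil)))))) (.g (nat_lit 4) .nil .nil)))) (.nd (nat_lit 5) 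
(.lf (nat_lit 244882) (.g (nat_lit 1842) (.e (nat_lit 123198) (nat_lit 266) (.e (nat_lit 57409) (nat_lit 12) (.e (nat_lit 336208) (nat_lit 12) (.e (nat_lit 385105) (nat_lit 50) (.e (nat_lit 786480) (nat_lit 29) .nil))))) .nil)) 
(.lf (nat_lit 244914) (.g (nat_lit 852) (.e (nat_lit 123198) (nat_lit 266) (.e (nat_lit 57424) (nat_lit 14) (.e (nat_lit 352316) (nat_lit 24) .nil))) .nil)))) (.nd (nat_lit 4) (.nd (nat_lit 5) 
(.lf (nat_lit 244874) (.g (nat_lit 365) (.e (nat_lit 123198) (nat_lit 266) (.e (nat_lit 57400) (nat_lit 10) (.e (nat_lit 327424) (nat_lit 0) .nil))) .nil)) 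
(.lf (nat_lit 244906) (.g (nat_lit 2781) (.e (nat_lit 123198) (nat_lit 266) (.e (nat_lit 57423) (nat_lit 14) (.e (nat_lit 352318) (nat_lit 24) (.e (nat_lit 123184) (nat_lit 264) (.e (nat_lit 1222) (nat_lit 90) (.e (nat_lit 81957) (nat_lit 24) .nil)))))) (.g (nat_lit 5) .nil .nil)))) (.nd (nat_lit 5) 
(.lf (nat_lit 244890) (.g (nat_lit 2178) (.e (nat_lit 123198) (nat_lit 266) (.e (nat_lit 57417) (nat_lit 12) (.e (nat_lit 336206) (nat_lit 12) (.e (nat_lit 385094) (nat_lit 49) (.e (nat_lit 778327) (nat_lit 6) (.e (nat_lit 81957) (nat_lit 24) .nil)))))) (.g (nat_lit 0) .nil .nil))) 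
(.lf (nat_lit 244922) (.g (nat_lit 1722) (.e (nat_lit 123198) (nat_lit 266) (.e (nat_lit 57426) (nat_lit 15) (.e (nat_lit 360452) (nat_lit 0) (.e (nat_lit 5907) (nat_lit 320) (.e (nat_lit 7936) (nat_lit 90) .nil))))) .nil))))) (.nd (nat_lit 3) (.nd (nat_lit 4) (.nd (nat_lit 5) 
(.lf (nat_lit 244870) (.g (nat_lit 1928) (.e (nat_lit 123198) (nat_lit 266) (.e (nat_lit 57389) (nat_lit 5) (.e (nat_lit 114723) (nat_lit 24) (.e (nat_lit 106536) (nat_lit 11) (.e (nat_lit 16471) (nat_lit 14) .nil))))) .nil)) 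
(.lf (nat_lit 244902) (.g (nat_lit 336) (.e (nat_lit 123198) (nat_lit 266) (.e (nat_lit 57423) (nat_lit 14) (.e (nat_lit 352270) (nat_lit 8) .nil))) .nil))) (.nd (nat_lit 5) 
(.lf (nat_lit 244886) (.g (nat_lit 2620) (.e (nat_lit 123198) (nat_lit 266) (.e (nat_lit 57412) (nat_lit 12) (.e (nat_lit 336226) (nat_lit 14) (.e (nat_lit 401437) (nat_lit 9) (.e (nat_lit 426538) (nat_lit 29) .nil))))) .nil)) 
(.lf (nat_lit 244918) (.g (nat_lit 1227) (.e (nat_lit 123198) (nat_lit 266) (.e (nat_lit 57424) (nat_lit 14) (.e (nat_lit 352318) (nat_lit 24) (.e (nat_lit 123183) (nat_lit 264) .nil)))) .nil)))) (.nd (nat_lit 4) (.nd (nat_lit 5) 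
(.lf (nat_lit 244878) (.g (nat_lit 1801) (.e (nat_lit 123198) (nat_lit 266) (.e (nat_lit 57409) (nat_lit 12) (.e (nat_lit 336207) (nat_lit 12) (.e (nat_lit 385094) (nat_lit 49) (.e (nat_lit 778326) (nat_lit 6) .nil))))) .nil)) 
(.lf (nat_lit 244910) (.g (nat_lit 2910) (.e (nat_lit 123198) (nat_lit 266) (.e (nat_lit 57424) (nat_lit 14) (.e (nat_lit 352262) (nat_lit 0) (.e (nat_lit 3632) (nat_lit 227) (.e (nat_lit 778327) (nat_lit 6) (.e (nat_lit 81959) (nat_lit 24) .nil)))))) (.g (nat_lit 0) .nil .nil)))) (.nd (nat_lit 5) 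
(.lf (nat_lit 244894) (.g (nat_lit 2131) (.e (nat_lit 123198) (nat_lit 266) (.e (nat_lit 57419) (nat_lit 12) (.e (nat_lit 336194) (nat_lit 12) (.e (nat_lit 385094) (nat_lit 49) (.e (nat_lit 778327) (nat_lit 6) (.e (nat_lit 81957) (nat_lit 24) .nil)))))) (.g (nat_lit 0) .nil .nil))) 
(.lf (nat_lit 244926) (.g (nat_lit 354) (.e (nat_lit 123198) (nat_lit 266) (.e (nat_lit 57426) (nat_lit 15) (.e (nat_lit 368384) (nat_lit 17) .nil))) .nil))))))) (.nd (nat_lit 1) (.nd (nat_lit 2) (.nd (nat_lit 3) (.nd (nat_lit 4) (.nd (nat_lit 5) 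
(.lf (nat_lit 244865) (.g (nat_lit 2765) (.e (nat_lit 123198) (nat_lit 266) (.e (nat_lit 57378) (nat_lit 3) (.e (nat_lit 98367) (nat_lit 27) (.e (nat_lit 434248) (nat_lit 28) (.e (nat_lit 573482) (nat_lit 13) .nil))))) .nil)) 
(.lf (nat_lit 244897) (.g (nat_lit 1714) (.e (nat_lit 123198) (nat_lit 266) (.e (nat_lit 57419) (nat_lit 12) (.e (nat_lit 336194) (nat_lit 12) (.e (nat_lit 385106) (nat_lit 50) (.e (nat_lit 786479) (nat_lit 29) .nil))))) .nil))) (.nd (nat_lit 5) 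
(.lf (nat_lit 244881) (.g (nat_lit 1255) (.e (nat_lit 123198) (nat_lit 266) (.e (nat_lit 57409) (nat_lit 12) (.e (nat_lit 336208) (nat_lit 12) (.e (nat_lit 385092) (nat_lit 49) .nil)))) .nil)) 
(.lf (nat_lit 244913) (.g (nat_lit 2277) (.e (nat_lit 123198) (nat_lit 266) (.e (nat_lit 57424) (nat_lit 14) (.e (nat_lit 352309) (nat_lit 21) (.e (nat_lit 57873) (nat_lit 264) (.e (nat_lit 1221) (nat_lit 90) .nil))))) .nil)))) (.nd (nat_lit 4) (.nd (nat_lit 5) 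
(.lf (nat_lit 244873) (.g (nat_lit 1607) (.e (nat_lit 123198) (nat_lit 266) (.e (nat_lit 57400) (nat_lit 10) (.e (nat_lit 319490) (nat_lit 0) (.e (nat_lit 5792) (nat_lit 319) (.e (nat_lit 245504) (nat_lit 29) .nil))))) .nil)) 
(.lf (nat_lit 244905) (.g (nat_lit 2314) (.e (nat_lit 123198) (nat_lit 266) (.e (nat_lit 57423) (nat_lit 14) (.e (nat_lit 352318) (nat_lit 24) (.e (nat_lit 123182) (nat_lit 264) (.e (nat_lit 1224) (nat_lit 90) (.e (nat_lit 81959) (nat_lit 24) .nil)))))) (.g (nat_lit 4) .nil .nil)))) (.nd (nat_lit 5) 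
(.lf (nat_lit 244889) (.g (nat_lit 2355) (.e (nat_lit 123198) (nat_lit 266) (.e (nat_lit 57417) (nat_lit 12) (.e (nat_lit 336206) (nat_lit 12) (.e (nat_lit 385094) (nat_lit 49) (.e (nat_lit 778326) (nat_lit 6) (.e (nat_lit 81957) (nat_lit 24) .nil)))))) (.g (nat_lit 0) .nil .nil))) 
(.lf (nat_lit 244921) (.g (nat_lit 1189) (.e (nat_lit 123198) (nat_lit 266) (.e (nat_lit 57425) (nat_lit 14) (.e (nat_lit 352318) (nat_lit 24) (.e (nat_lit 123183) (nat_lit 264) (.e (nat_lit 1222) (nat_lit 90) .nil))))) .nil))))) (.nd (nat_lit 3) (.nd (nat_lit 4) (.nd (nat_lit 5) 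
(.lf (nat_lit 244869) (.g (nat_lit 3658) (.e (nat_lit 123198) (nat_lit 266) (.e (nat_lit 57378) (nat_lit 3) (.e (nat_lit 98368) (nat_lit 27) (.e (nat_lit 434248) (nat_lit 28) (.e (nat_lit 573482) (nat_lit 13) (.e (nat_lit 73472) (nat_lit 18) (.e (nat_lit 204839) (nat_lit 21) .nil))))))) (.g (nat_lit 5) .nil .nil))) 
(.lf (nat_lit 244901) (.g (nat_lit 2674) (.e (nat_lit 123198) (nat_lit 266) (.e (nat_lit 57423) (nat_lit 14) (.e (nat_lit 352262) (nat_lit 0) (.e (nat_lit 3632) (nat_lit 227) (.e (nat_lit 778327) (nat_lit 6) (.e (nat_lit 81959) (nat_lit 24) .nil)))))) (.g (nat_lit 0) .nil .nil)))) (.nd (nat_lit 5) 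
(.lf (nat_lit 244885) (.g (nat_lit 1340) (.e (nat_lit 123198) (nat_lit 266) (.e (nat_lit 57412) (nat_lit 12) (.e (nat_lit 336193) (nat_lit 12) (.e (nat_lit 385106) (nat_lit 50) .nil)))) .nil)) 
(.lf (nat_lit 244917) (.g (nat_lit 2289) (.e (nat_lit 123198) (nat_lit 266) (.e (nat_lit 57424) (nat_lit 14) (.e (nat_lit 352318) (nat_lit 24) (.e (nat_lit 123182) (nat_lit 264) (.e (nat_lit 1218) (nat_lit 90) .nil))))) .nil)))) (.nd (nat_lit 4) (.nd (nat_lit 5) 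
(.lf (nat_lit 244877) (.g (nat_lit 703) (.e (nat_lit 123198) (nat_lit 266) (.e (nat_lit 57409) (nat_lit 12) (.e (nat_lit 335982) (nat_lit 0) .nil))) .nil)) 
(.lf (nat_lit 244909) (.g (nat_lit 1550) (.e (nat_lit 123198) (nat_lit 266) (.e (nat_lit 57424) (nat_lit 14) (.e (nat_lit 352262) (nat_lit 0) (.e (nat_lit 3631) (nat_lit 227) (.e (nat_lit 778326) (nat_lit 6) .nil))))) .nil))) (.nd (nat_lit 5) 
(.lf (nat_lit 244893) (.g (nat_lit 2234) (.e (nat_lit 123198) (nat_lit 266) (.e (nat_lit 57419) (nat_lit 12) (.e (nat_lit 336194) (nat_lit 12) (.e (nat_lit 385094) (nat_lit 49) (.e (nat_lit 778326) (nat_lit 6) (.e (nat_lit 81959) (nat_lit 24) .nil)))))) (.g (nat_lit 0) .nil .nil))) 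
(.lf (nat_lit 244925) (.g (nat_lit 354) (.e (nat_lit 123198) (nat_lit 266) (.e (nat_lit 57426) (nat_lit 15) (.e (nat_lit 368384) (nat_lit 0) .nil))) .nil)))))) (.nd (nat_lit 2) (.nd (nat_lit 3) (.nd (nat_lit 4) (.nd (nat_lit 5) 
(.lf (nat_lit 244867) (.g (nat_lit 3511) (.e (nat_lit 123198) (nat_lit 266) (.e (nat_lit 57378) (nat_lit 3) (.e (nat_lit 98368) (nat_lit 27) (.e (nat_lit 434245) (nat_lit 28) (.e (nat_lit 573481) (nat_lit 13) (.e (nat_lit 73472) (nat_lit 18) (.e (nat_lit 204839) (nat_lit 21) .nil))))))) (.g (nat_lit 5) .nil .nil))) 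
(.lf (nat_lit 244899) (.g (nat_lit 1142) (.e (nat_lit 123198) (nat_lit 266) (.e (nat_lit 57421) (nat_lit 13) (.e (nat_lit 344080) (nat_lit 13) (.e (nat_lit 1386) (nat_lit 105) (.e (nat_lit 311358) (nat_lit 29) (.e (nat_lit 352318) (nat_lit 24) .nil)))))) (.g (nat_lit 4) .nil .nil)))) (.nd (nat_lit 5) 
(.lf (nat_lit 244883) (.g (nat_lit 1119) (.e (nat_lit 123198) (nat_lit 266) (.e (nat_lit 57412) (nat_lit 12) (.e (nat_lit 336061) (nat_lit 7) (.e (nat_lit 327424) (nat_lit 10) .nil)))) .nil)) 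
(.lf (nat_lit 244915) (.g (nat_lit 2034) (.e (nat_lit 123198) (nat_lit 266) (.e (nat_lit 57424) (nat_lit 14) (.e (nat_lit 352316) (nat_lit 24) (.e (nat_lit 123195) (nat_lit 266) (.e (nat_lit 57424) (nat_lit 14) .nil))))) .nil)))) (.nd (nat_lit 4) (.nd (nat_lit 5) 
(.lf (nat_lit 244875) (.g (nat_lit 654) (.e (nat_lit 123198) (nat_lit 266) (.e (nat_lit 57404) (nat_lit 12) (.e (nat_lit 336205) (nat_lit 12) (.e (nat_lit 385094) (nat_lit 49) .nil)))) .nil)) 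
(.lf (nat_lit 244907) (.g (nat_lit 1186) (.e (nat_lit 123198) (nat_lit 266) (.e (nat_lit 57423) (nat_lit 14) (.e (nat_lit 352318) (nat_lit 24) (.e (nat_lit 123197) (nat_lit 266) .nil)))) .nil))) (.nd (nat_lit 5) 
(.lf (nat_lit 244891) (.g (nat_lit 924) (.e (nat_lit 123198) (nat_lit 266) (.e (nat_lit 57418) (nat_lit 12) (.e (nat_lit 336194) (nat_lit 12) (.e (nat_lit 385105) (nat_lit 50) .nil)))) .nil)) 
(.lf (nat_lit 244923) (.g (nat_lit 974) (.e (nat_lit 123198) (nat_lit 266) (.e (nat_lit 57426) (nat_lit 15) (.e (nat_lit 360452) (nat_lit 0) (.e (nat_lit 7936) (nat_lit 322) .nil)))) .nil))))) (.nd (nat_lit 3) (.nd (nat_lit 4) (.nd (nat_lit 5) 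
(.lf (nat_lit 244871) (.g (nat_lit 1494) (.e (nat_lit 123198) (nat_lit 266) (.e (nat_lit 57400) (nat_lit 10) (.e (nat_lit 319490) (nat_lit 0) (.e (nat_lit 5766) (nat_lit 316) .nil)))) .nil)) 
(.lf (nat_lit 244903) (.g (nat_lit 719) (.e (nat_lit 123198) (nat_lit 266) (.e (nat_lit 57423) (nat_lit 14) (.e (nat_lit 352316) (nat_lit 24) .nil))) .nil))) (.nd (nat_lit 5) 
(.lf (nat_lit 244887) (.g (nat_lit 741) (.e (nat_lit 123198) (nat_lit 266) (.e (nat_lit 57417) (nat_lit 12) (.e (nat_lit 335872) (nat_lit 0) (.e (nat_lit 6717) (nat_lit 361) .nil)))) .nil)) 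
(.lf (nat_lit 244919) (.g (nat_lit 1905) (.e (nat_lit 123198) (nat_lit 266) (.e (nat_lit 57424) (nat_lit 14) (.e (nat_lit 352318) (nat_lit 24) (.e (nat_lit 123184) (nat_lit 264) (.e (nat_lit 7936) (nat_lit 90) .nil))))) .nil)))) (.nd (nat_lit 4) (.nd (nat_lit 5) 
(.lf (nat_lit 244879) (.g (nat_lit 357) (.e (nat_lit 123198) (nat_lit 266) (.e (nat_lit 57409) (nat_lit 12) (.e (nat_lit 336208) (nat_lit 12) .nil))) .nil)) 
(.lf (nat_lit 244911) (.g (nat_lit 885) (.e (nat_lit 123198) (nat_lit 266) (.e (nat_lit 57424) (nat_lit 14) (.e (nat_lit 352302) (nat_lit 20) .nil))) .nil))) (.nd (nat_lit 5) 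
(.lf (nat_lit 244895) (.g (nat_lit 1177) (.e (nat_lit 123198) (nat_lit 266) (.e (nat_lit 57419) (nat_lit 12) (.e (nat_lit 336194) (nat_lit 12) (.e (nat_lit 385100) (nat_lit 49) (.e (nat_lit 778325) (nat_lit 6) .nil))))) .nil)) 
(.lf (nat_lit 244927) (.g (nat_lit 2150) (.e (nat_lit 123198) (nat_lit 266) (.e (nat_lit 57426) (nat_lit 15) (.e (nat_lit 360486) (nat_lit 18) (.e (nat_lit 671764) (nat_lit 6) (.e (nat_lit 81957) (nat_lit 24) .nil))))) (.g (nat_lit 0) .nil .nil)))))))))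

noncomputable def tv3186 : DT := (.nd (nat_lit 0) (.nd (nat_lit 1) (.nd (nat_lit 2) (.nd (nat_lit 3) (.nd (nat_lit 4) (.nd (nat_lit 5) 
(.lf (nat_lit 244928) (.g (nat_lit 1198) (.e (nat_lit 123198) (nat_lit 266) (.e (nat_lit 57427) (nat_lit 15) (.e (nat_lit 360450) (nat_lit 0) (.e (nat_lit 5898) (nat_lit 320) .nil)))) .nil)) 
(.lf (nat_lit 244960) (.g (nat_lit 2276) (.e (nat_lit 123202) (nat_lit 270) (.e (nat_lit 1239) (nat_lit 91) (.e (nat_lit 90170) (nat_lit 13) (.e (nat_lit 172106) (nat_lit 10) (.e (nat_lit 434244) (nat_lit 28) (.e (nat_lit 573451) (nat_lit 9) (.e (nat_lit 62) (nat_lit 0) (.e (nat_lit 7086) (nat_lit 379) .nil)))))))) (.g (nat_lit 4) .nil .nil)))) (.nd (nat_lit 5) 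
(.lf (nat_lit 244944) (.g (nat_lit 1707) (.e (nat_lit 123198) (nat_lit 266) (.e (nat_lit 57447) (nat_lit 19) (.e (nat_lit 393234) (nat_lit 17) (.e (nat_lit 2405) (nat_lit 157) .nil)))) .nil)) 
(.lf (nat_lit 244976) (.g (nat_lit 1677) (.e (nat_lit 123202) (nat_lit 270) (.e (nat_lit 1256) (nat_lit 92) (.e (nat_lit 98372) (nat_lit 29) (.e (nat_lit 450579) (nat_lit 5) (.e (nat_lit 532480) (nat_lit 0) .nil))))) .nil)))) (.nd (nat_lit 4) (.nd (nat_lit 5) 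
(.lf (nat_lit 244936) (.g (nat_lit 985) (.e (nat_lit 123198) (nat_lit 266) (.e (nat_lit 57435) (nat_lit 17) (.e (nat_lit 376835) (nat_lit 0) (.e (nat_lit 3630) (nat_lit 227) (.e (nat_lit 778327) (nat_lit 6) .nil))))) .nil)) 
(.lf (nat_lit 244968) (.g (nat_lit 3253) (.e (nat_lit 123202) (nat_lit 270) (.e (nat_lit 1239) (nat_lit 91) (.e (nat_lit 90170) (nat_lit 13) (.e (nat_lit 172113) (nat_lit 10) (.e (nat_lit 434248) (nat_lit 28) (.e (nat_lit 573452) (nat_lit 9) (.e (nat_lit 61) (nat_lit 0) (.e (nat_lit 7087) (nat_lit 379) .nil)))))))) (.g (nat_lit 7) .nil .nil)))) (.nd (nat_lit 5) 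
(.lf (nat_lit 244952) (.g (nat_lit 503) (.e (nat_lit 123199) (nat_lit 267) (.e (nat_lit 122919) (nat_lit 15) (.e (nat_lit 360457) (nat_lit 0) .nil))) .nil)) 
(.lf (nat_lit 244984) (.g (nat_lit 1851) (.e (nat_lit 123202) (nat_lit 270) (.e (nat_lit 1256) (nat_lit 92) (.e (nat_lit 98372) (nat_lit 29) (.e (nat_lit 450586) (nat_lit 10) (.e (nat_lit 573452) (nat_lit 9) (.e (nat_lit 61) (nat_lit 0) (.e (nat_lit 7087) (nat_lit 379) .nil))))))) (.g (nat_lit 5) .nil .nil)))))) (.nd (nat_lit 3) (.nd (nat_lit 4) (.nd (nat_lit 5) 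
(.lf (nat_lit 244932) (.g (nat_lit 1189) (.e (nat_lit 123198) (nat_lit 266) (.e (nat_lit 57427) (nat_lit 15) (.e (nat_lit 360486) (nat_lit 18) (.e (nat_lit 671747) (nat_lit 0) .nil)))) .nil)) 
(.lf (nat_lit 244964) (.g (nat_lit 3604) (.e (nat_lit 123202) (nat_lit 270) (.e (nat_lit 1239) (nat_lit 91) (.e (nat_lit 90170) (nat_lit 13) (.e (nat_lit 172113) (nat_lit 10) (.e (nat_lit 434245) (nat_lit 28) (.e (nat_lit 573451) (nat_lit 9) (.e (nat_lit 62) (nat_lit 0) (.e (nat_lit 7089) (nat_lit 379) .nil)))))))) (.g (nat_lit 6) .nil .nil)))) (.nd (nat_lit 5) 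
(.lf (nat_lit 244948) (.g (nat_lit 2063) (.e (nat_lit 123198) (nat_lit 266) (.e (nat_lit 57447) (nat_lit 19) (.e (nat_lit 393301) (nat_lit 27) (.e (nat_lit 491538) (nat_lit 3) .nil)))) .nil)) 
(.lf (nat_lit 244980) (.g (nat_lit 1578) (.e (nat_lit 123202) (nat_lit 270) (.e (nat_lit 1256) (nat_lit 92) (.e (nat_lit 98372) (nat_lit 29) (.e (nat_lit 450579) (nat_lit 5) (.e (nat_lit 532489) (nat_lit 0) (.e (nat_lit 7936) (nat_lit 334) .nil)))))) (.g (nat_lit 4) .nil .nil))))) (.nd (nat_lit 4) (.nd (nat_lit 5) 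
(.lf (nat_lit 244940) (.g (nat_lit 405) (.e (nat_lit 123198) (nat_lit 266) (.e (nat_lit 57436) (nat_lit 17) (.e (nat_lit 376855) (nat_lit 20) .nil))) .nil)) 
(.lf (nat_lit 244972) (.g (nat_lit 2877) (.e (nat_lit 123202) (nat_lit 270) (.e (nat_lit 1256) (nat_lit 92) (.e (nat_lit 98359) (nat_lit 26) (.e (nat_lit 426286) (nat_lit 10) (.e (nat_lit 434245) (nat_lit 28) (.e (nat_lit 573458) (nat_lit 9) (.e (nat_lit 48) (nat_lit 0) (.e (nat_lit 7083) (nat_lit 379) .nil)))))))) (.g (nat_lit 6) .nil .nil)))) (.nd (nat_lit 5) 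
(.lf (nat_lit 244956) (.g (nat_lit 2262) (.e (nat_lit 123202) (nat_lit 270) (.e (nat_lit 1239) (nat_lit 91) (.e (nat_lit 90170) (nat_lit 13) (.e (nat_lit 172106) (nat_lit 10) (.e (nat_lit 434244) (nat_lit 28) (.e (nat_lit 573451) (nat_lit 9) (.e (nat_lit 11) (nat_lit 0) (.e (nat_lit 7084) (nat_lit 379) .nil)))))))) (.g (nat_lit 4) .nil .nil))) 
(.lf (nat_lit 244988) (.g (nat_lit 1841) (.e (nat_lit 123202) (nat_lit 270) (.e (nat_lit 1256) (nat_lit 92) (.e (nat_lit 98373) (nat_lit 29) (.e (nat_lit 450587) (nat_lit 10) (.e (nat_lit 573457) (nat_lit 9) .nil))))) .nil)))))) (.nd (nat_lit 2) (.nd (nat_lit 3) (.nd (nat_lit 4) (.nd (nat_lit 5) 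
(.lf (nat_lit 244930) (.g (nat_lit 411) (.e (nat_lit 123198) (nat_lit 266) (.e (nat_lit 57427) (nat_lit 15) (.e (nat_lit 360456) (nat_lit 0) .nil))) .nil)) 
(.lf (nat_lit 244962) (.g (nat_lit 1497) (.e (nat_lit 123202) (nat_lit 270) (.e (nat_lit 1239) (nat_lit 91) (.e (nat_lit 90170) (nat_lit 13) (.e (nat_lit 172113) (nat_lit 10) (.e (nat_lit 434242) (nat_lit 28) .nil))))) .nil))) (.nd (nat_lit 5) 
(.lf (nat_lit 244946) (.g (nat_lit 1248) (.e (nat_lit 123198) (nat_lit 266) (.e (nat_lit 57447) (nat_lit 19) (.e (nat_lit 393249) (nat_lit 17) .nil))) .nil)) 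
(.lf (nat_lit 244978) (.g (nat_lit 1795) (.e (nat_lit 123202) (nat_lit 270) (.e (nat_lit 1256) (nat_lit 92) (.e (nat_lit 98372) (nat_lit 29) (.e (nat_lit 450579) (nat_lit 5) (.e (nat_lit 532484) (nat_lit 0) (.e (nat_lit 7936) (nat_lit 334) .nil)))))) (.g (nat_lit 5) .nil .nil))))) (.nd (nat_lit 4) (.nd (nat_lit 5) 
(.lf (nat_lit 244938) (.g (nat_lit 641) (.e (nat_lit 123198) (nat_lit 266) (.e (nat_lit 57435) (nat_lit 17) (.e (nat_lit 376835) (nat_lit 0) (.e (nat_lit 3746) (nat_lit 228) .nil)))) .nil)) 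
(.lf (nat_lit 244970) (.g (nat_lit 1793) (.e (nat_lit 123202) (nat_lit 270) (.e (nat_lit 1239) (nat_lit 91) (.e (nat_lit 90170) (nat_lit 13) (.e (nat_lit 172126) (nat_lit 14) .nil)))) .nil))) (.nd (nat_lit 5) 
(.lf (nat_lit 244954) (.g (nat_lit 668) (.e (nat_lit 130816) (nat_lit 267) (.e (nat_lit 122916) (nat_lit 14) (.e (nat_lit 352309) (nat_lit 21) .nil))) .nil)) 
(.lf (nat_lit 244986) (.g (nat_lit 2706) (.e (nat_lit 123202) (nat_lit 270) (.e (nat_lit 1256) (nat_lit 92) (.e (nat_lit 98372) (nat_lit 29) (.e (nat_lit 450588) (nat_lit 10) (.e (nat_lit 573452) (nat_lit 9) .nil))))) .nil))))) (.nd (nat_lit 3) (.nd (nat_lit 4) (.nd (nat_lit 5) 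
(.lf (nat_lit 244934) (.g (nat_lit 1185) (.e (nat_lit 123198) (nat_lit 266) (.e (nat_lit 57427) (nat_lit 15) (.e (nat_lit 360486) (nat_lit 18) (.e (nat_lit 679680) (nat_lit 6) .nil)))) .nil)) 
(.lf (nat_lit 244966) (.g (nat_lit 2621) (.e (nat_lit 123202) (nat_lit 270) (.e (nat_lit 1239) (nat_lit 91) (.e (nat_lit 90170) (nat_lit 13) (.e (nat_lit 172113) (nat_lit 10) (.e (nat_lit 434245) (nat_lit 28) (.e (nat_lit 573458) (nat_lit 9) (.e (nat_lit 60) (nat_lit 0) (.e (nat_lit 7089) (nat_lit 379) .nil)))))))) (.g (nat_lit 5) .nil .nil)))) (.nd (nat_lit 5) 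
(.lf (nat_lit 244950) (.g (nat_lit 295) (.e (nat_lit 123199) (nat_lit 267) (.e (nat_lit 122919) (nat_lit 15) (.e (nat_lit 360451) (nat_lit 0) .nil))) .nil)) 
(.lf (nat_lit 244982) (.g (nat_lit 1347) (.e (nat_lit 123202) (nat_lit 270) (.e (nat_lit 1256) (nat_lit 92) (.e (nat_lit 98372) (nat_lit 29) (.e (nat_lit 450586) (nat_lit 10) (.e (nat_lit 573452) (nat_lit 9) .nil))))) .nil)))) (.nd (nat_lit 4) (.nd (nat_lit 5) 
(.lf (nat_lit 244942) (.g (nat_lit 2703) (.e (nat_lit 123198) (nat_lit 266) (.e (nat_lit 57436) (nat_lit 17) (.e (nat_lit 376859) (nat_lit 21) (.e (nat_lit 57872) (nat_lit 264) (.e (nat_lit 1219) (nat_lit 90) (.e (nat_lit 81957) (nat_lit 24) .nil)))))) (.g (nat_lit 6) .nil .nil))) 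
(.lf (nat_lit 244974) (.g (nat_lit 1748) (.e (nat_lit 123202) (nat_lit 270) (.e (nat_lit 1256) (nat_lit 92) (.e (nat_lit 98359) (nat_lit 26) (.e (nat_lit 426338) (nat_lit 14) (.e (nat_lit 491540) (nat_lit 3) .nil))))) .nil))) (.nd (nat_lit 5) 
(.lf (nat_lit 244958) (.g (nat_lit 2149) (.e (nat_lit 123202) (nat_lit 270) (.e (nat_lit 1239) (nat_lit 91) (.e (nat_lit 90170) (nat_lit 13) (.e (nat_lit 172106) (nat_lit 10) (.e (nat_lit 434244) (nat_lit 28) (.e (nat_lit 573451) (nat_lit 9) (.e (nat_lit 11) (nat_lit 0) (.e (nat_lit 7090) (nat_lit 379) .nil)))))))) (.g (nat_lit 4) .nil .nil))) 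
(.lf (nat_lit 244990) (.g (nat_lit 3413) (.e (nat_lit 123202) (nat_lit 270) (.e (nat_lit 1256) (nat_lit 92) (.e (nat_lit 98373) (nat_lit 29) (.e (nat_lit 450588) (nat_lit 10) (.e (nat_lit 573457) (nat_lit 9) (.e (nat_lit 16) (nat_lit 0) (.e (nat_lit 7086) (nat_lit 379) .nil))))))) (.g (nat_lit 6) .nil .nil)))))))) 
(.nd (nat_lit 1) (.nd (nat_lit 2) (.nd (nat_lit 3) (.nd (nat_lit 4) (.nd (nat_lit 5) 
(.lf (nat_lit 244929) (.g (nat_lit 977) (.e (nat_lit 123198) (nat_lit 266) (.e (nat_lit 57427) (nat_lit 15) (.e (nat_lit 360450) (nat_lit 0) (.e (nat_lit 7936) (nat_lit 320) .nil)))) .nil)) 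
(.lf (nat_lit 244961) (.g (nat_lit 2140) (.e (nat_lit 123202) (nat_lit 270) (.e (nat_lit 1239) (nat_lit 91) (.e (nat_lit 90170) (nat_lit 13) (.e (nat_lit 172106) (nat_lit 10) (.e (nat_lit 434244) (nat_lit 28) (.e (nat_lit 573451) (nat_lit 9) (.e (nat_lit 67) (nat_lit 0) (.e (nat_lit 7083) (nat_lit 379) .nil)))))))) (.g (nat_lit 4) .nil .nil)))) (.nd (nat_lit 5) 
(.lf (nat_lit 244945) (.g (nat_lit 1477) (.e (nat_lit 123198) (nat_lit 266) (.e (nat_lit 57447) (nat_lit 19) (.e (nat_lit 393246) (nat_lit 17) (.e (nat_lit 2449) (nat_lit 157) .nil)))) .nil)) 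
(.lf (nat_lit 244977) (.g (nat_lit 1968) (.e (nat_lit 123202) (nat_lit 270) (.e (nat_lit 1256) (nat_lit 92) (.e (nat_lit 98372) (nat_lit 29) (.e (nat_lit 450579) (nat_lit 5) (.e (nat_lit 532480) (nat_lit 0) (.e (nat_lit 6227) (nat_lit 334) .nil)))))) (.g (nat_lit 4) .nil .nil))))) (.nd (nat_lit 4) (.nd (nat_lit 5) 
(.lf (nat_lit 244937) (.g (nat_lit 1558) (.e (nat_lit 123198) (nat_lit 266) (.e (nat_lit 57435) (nat_lit 17) (.e (nat_lit 376835) (nat_lit 0) (.e (nat_lit 3631) (nat_lit 227) (.e (nat_lit 778326) (nat_lit 6) (.e (nat_lit 81957) (nat_lit 24) .nil)))))) (.g (nat_lit 4) .nil .nil))) 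
(.lf (nat_lit 244969) (.g (nat_lit 3360) (.e (nat_lit 123202) (nat_lit 270) (.e (nat_lit 1239) (nat_lit 91) (.e (nat_lit 90170) (nat_lit 13) (.e (nat_lit 172113) (nat_lit 10) (.e (nat_lit 434248) (nat_lit 28) (.e (nat_lit 573452) (nat_lit 9) (.e (nat_lit 61) (nat_lit 0) (.e (nat_lit 7089) (nat_lit 379) .nil)))))))) (.g (nat_lit 7) .nil .nil)))) (.nd (nat_lit 5) 
(.lf (nat_lit 244953) (.g (nat_lit 1260) (.e (nat_lit 123199) (nat_lit 267) (.e (nat_lit 122919) (nat_lit 15) (.e (nat_lit 360486) (nat_lit 18) (.e (nat_lit 679680) (nat_lit 6) .nil)))) .nil)) 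
(.lf (nat_lit 244985) (.g (nat_lit 1946) (.e (nat_lit 123202) (nat_lit 270) (.e (nat_lit 1256) (nat_lit 92) (.e (nat_lit 98372) (nat_lit 29) (.e (nat_lit 450586) (nat_lit 10) (.e (nat_lit 573452) (nat_lit 9) (.e (nat_lit 61) (nat_lit 0) (.e (nat_lit 7089) (nat_lit 379) .nil))))))) (.g (nat_lit 5) .nil .nil)))))) (.nd (nat_lit 3) (.nd (nat_lit 4) (.nd (nat_lit 5) 
(.lf (nat_lit 244933) (.g (nat_lit 2412) (.e (nat_lit 123198) (nat_lit 266) (.e (nat_lit 57427) (nat_lit 15) (.e (nat_lit 360486) (nat_lit 18) (.e (nat_lit 671764) (nat_lit 6) (.e (nat_lit 81957) (nat_lit 24) .nil))))) (.g (nat_lit 0) .nil .nil))) 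
(.lf (nat_lit 244965) (.g (nat_lit 3240) (.e (nat_lit 123202) (nat_lit 270) (.e (nat_lit 1239) (nat_lit 91) (.e (nat_lit 90170) (nat_lit 13) (.e (nat_lit 172113) (nat_lit 10) (.e (nat_lit 434245) (nat_lit 28) (.e (nat_lit 573458) (nat_lit 9) (.e (nat_lit 48) (nat_lit 0) (.e (nat_lit 7083) (nat_lit 379) .nil)))))))) (.g (nat_lit 6) .nil .nil)))) (.nd (nat_lit 5) 
(.lf (nat_lit 244949) (.g (nat_lit 539) (.e (nat_lit 130816) (nat_lit 266) (.e (nat_lit 57437) (nat_lit 17) (.e (nat_lit 376859) (nat_lit 21) .nil))) .nil)) 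
(.lf (nat_lit 244981) (.g (nat_lit 1378) (.e (nat_lit 123202) (nat_lit 270) (.e (nat_lit 1256) (nat_lit 92) (.e (nat_lit 98372) (nat_lit 29) (.e (nat_lit 450579) (nat_lit 5) (.e (nat_lit 540416) (nat_lit 0) (.e (nat_lit 6226) (nat_lit 334) .nil)))))) (.g (nat_lit 4) .nil .nil))))) (.nd (nat_lit 4) (.nd (nat_lit 5) 
(.lf (nat_lit 244941) (.g (nat_lit 1129) (.e (nat_lit 123198) (nat_lit 266) (.e (nat_lit 57436) (nat_lit 17) (.e (nat_lit 376859) (nat_lit 21) (.e (nat_lit 57870) (nat_lit 264) .nil)))) .nil)) 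
(.lf (nat_lit 244973) (.g (nat_lit 2807) (.e (nat_lit 123202) (nat_lit 270) (.e (nat_lit 1256) (nat_lit 92) (.e (nat_lit 98359) (nat_lit 26) (.e (nat_lit 426286) (nat_lit 10) (.e (nat_lit 434248) (nat_lit 28) (.e (nat_lit 573452) (nat_lit 9) (.e (nat_lit 61) (nat_lit 0) (.e (nat_lit 7086) (nat_lit 379) .nil)))))))) (.g (nat_lit 6) .nil .nil)))) (.nd (nat_lit 5) 
(.lf (nat_lit 244957) (.g (nat_lit 3233) (.e (nat_lit 123202) (nat_lit 270) (.e (nat_lit 1239) (nat_lit 91) (.e (nat_lit 90170) (nat_lit 13) (.e (nat_lit 172106) (nat_lit 10) (.e (nat_lit 434244) (nat_lit 28) (.e (nat_lit 573451) (nat_lit 9) (.e (nat_lit 11) (nat_lit 0) (.e (nat_lit 7088) (nat_lit 379) .nil)))))))) (.g (nat_lit 5) .nil .nil))) 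
(.lf (nat_lit 244989) (.g (nat_lit 2130) (.e (nat_lit 123202) (nat_lit 270) (.e (nat_lit 1256) (nat_lit 92) (.e (nat_lit 98373) (nat_lit 29) (.e (nat_lit 450588) (nat_lit 10) (.e (nat_lit 573452) (nat_lit 9) .nil))))) .nil)))))) (.nd (nat_lit 2) (.nd (nat_lit 3) (.nd (nat_lit 4) (.nd (nat_lit 5) 
(.lf (nat_lit 244931) (.g (nat_lit 565) (.e (nat_lit 123198) (nat_lit 266) (.e (nat_lit 57427) (nat_lit 15) (.e (nat_lit 360457) (nat_lit 0) .nil))) .nil)) 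
(.lf (nat_lit 244963) (.g (nat_lit 3550) (.e (nat_lit 123202) (nat_lit 270) (.e (nat_lit 1239) (nat_lit 91) (.e (nat_lit 90170) (nat_lit 13) (.e (nat_lit 172113) (nat_lit 10) (.e (nat_lit 434245) (nat_lit 28) (.e (nat_lit 573451) (nat_lit 9) (.e (nat_lit 11) (nat_lit 0) (.e (nat_lit 7089) (nat_lit 379) .nil)))))))) (.g (nat_lit 6) .nil .nil)))) (.nd (nat_lit 5) 
(.lf (nat_lit 244947) (.g (nat_lit 2166) (.e (nat_lit 123198) (nat_lit 266) (.e (nat_lit 57447) (nat_lit 19) (.e (nat_lit 393252) (nat_lit 18) (.e (nat_lit 164406) (nat_lit 258) .nil)))) .nil)) 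
(.lf (nat_lit 244979) (.g (nat_lit 1438) (.e (nat_lit 123202) (nat_lit 270) (.e (nat_lit 1256) (nat_lit 92) (.e (nat_lit 98372) (nat_lit 29) (.e (nat_lit 450579) (nat_lit 5) (.e (nat_lit 532488) (nat_lit 0) (.e (nat_lit 7936) (nat_lit 334) .nil)))))) (.g (nat_lit 4) .nil .nil))))) (.nd (nat_lit 4) (.nd (nat_lit 5) 
(.lf (nat_lit 244939) (.g (nat_lit 1075) (.e (nat_lit 123198) (nat_lit 266) (.e (nat_lit 57436) (nat_lit 17) (.e (nat_lit 376835) (nat_lit 0) (.e (nat_lit 3630) (nat_lit 227) (.e (nat_lit 778327) (nat_lit 6) .nil))))) .nil)) 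
(.lf (nat_lit 244971) (.g (nat_lit 3208) (.e (nat_lit 123202) (nat_lit 270) (.e (nat_lit 1256) (nat_lit 92) (.e (nat_lit 98359) (nat_lit 26) (.e (nat_lit 426286) (nat_lit 10) (.e (nat_lit 434245) (nat_lit 28) (.e (nat_lit 573451) (nat_lit 9) (.e (nat_lit 11) (nat_lit 0) (.e (nat_lit 7089) (nat_lit 379) .nil)))))))) (.g (nat_lit 6) .nil .nil)))) (.nd (nat_lit 5) 
(.lf (nat_lit 244955) (.g (nat_lit 1615) (.e (nat_lit 123202) (nat_lit 270) (.e (nat_lit 1239) (nat_lit 91) (.e (nat_lit 90170) (nat_lit 13) (.e (nat_lit 172097) (nat_lit 9) .nil)))) .nil)) 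
(.lf (nat_lit 244987) (.g (nat_lit 2425) (.e (nat_lit 123202) (nat_lit 270) (.e (nat_lit 1256) (nat_lit 92) (.e (nat_lit 98373) (nat_lit 29) (.e (nat_lit 450562) (nat_lit 0) (.e (nat_lit 4284) (nat_lit 253) .nil))))) .nil))))) (.nd (nat_lit 3) (.nd (nat_lit 4) (.nd (nat_lit 5) 
(.lf (nat_lit 244935) (.g (nat_lit 881) (.e (nat_lit 123198) (nat_lit 266) (.e (nat_lit 57428) (nat_lit 15) (.e (nat_lit 360486) (nat_lit 18) (.e (nat_lit 679680) (nat_lit 6) .nil)))) .nil)) 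
(.lf (nat_lit 244967) (.g (nat_lit 3485) (.e (nat_lit 123202) (nat_lit 270) (.e (nat_lit 1239) (nat_lit 91) (.e (nat_lit 90170) (nat_lit 13) (.e (nat_lit 172113) (nat_lit 10) (.e (nat_lit 434245) (nat_lit 28) (.e (nat_lit 573468) (nat_lit 10) (.e (nat_lit 8497) (nat_lit 182) .nil))))))) (.g (nat_lit 6) .nil .nil)))) (.nd (nat_lit 5) 
(.lf (nat_lit 244951) (.g (nat_lit 519) (.e (nat_lit 123199) (nat_lit 267) (.e (nat_lit 122919) (nat_lit 15) (.e (nat_lit 360456) (nat_lit 0) .nil))) .nil)) 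
(.lf (nat_lit 244983) (.g (nat_lit 1567) (.e (nat_lit 123202) (nat_lit 270) (.e (nat_lit 1256) (nat_lit 92) (.e (nat_lit 98372) (nat_lit 29) (.e (nat_lit 450586) (nat_lit 10) (.e (nat_lit 573452) (nat_lit 9) (.e (nat_lit 11) (nat_lit 0) (.e (nat_lit 7089) (nat_lit 379) .nil))))))) (.g (nat_lit 4) .nil .nil))))) (.nd (nat_lit 4) (.nd (nat_lit 5) 
(.lf (nat_lit 244943) (.g (nat_lit 493) (.e (nat_lit 123198) (nat_lit 266) (.e (nat_lit 57447) (nat_lit 19) (.e (nat_lit 393234) (nat_lit 17) .nil))) .nil)) 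
(.lf (nat_lit 244975) (.g (nat_lit 985) (.e (nat_lit 123202) (nat_lit 270) (.e (nat_lit 1256) (nat_lit 92) (.e (nat_lit 98372) (nat_lit 29) (.e (nat_lit 450576) (nat_lit 2) .nil)))) .nil))) (.nd (nat_lit 5) 
(.lf (nat_lit 244959) (.g (nat_lit 2171) (.e (nat_lit 123202) (nat_lit 270) (.e (nat_lit 1239) (nat_lit 91) (.e (nat_lit 90170) (nat_lit 13) (.e (nat_lit 172106) (nat_lit 10) (.e (nat_lit 434244) (nat_lit 28) (.e (nat_lit 573451) (nat_lit 9) (.e (nat_lit 59) (nat_lit 0) (.e (nat_lit 7089) (nat_lit 379) .nil)))))))) (.g (nat_lit 4) .nil .nil))) 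
(.lf (nat_lit 244991) (.g (nat_lit 3435) (.e (nat_lit 123202) (nat_lit 270) (.e (nat_lit 1256) (nat_lit 92) (.e (nat_lit 98373) (nat_lit 29) (.e (nat_lit 450588) (nat_lit 10) (.e (nat_lit 573457) (nat_lit 9) (.e (nat_lit 16) (nat_lit 0) (.e (nat_lit 7087) (nat_lit 379) .nil))))))) (.g (nat_lit 6) .nil .nil)))))))))

noncomputable def tv3187 : DT := (.nd (nat_lit 0) (.nd (nat_lit 1) (.nd (nat_lit 2) (.nd (nat_lit 3) (.nd (nat_lit 4) (.nd (nat_lit 5) (.nd (nat_lit 6) 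
(.lf (nat_lit 244992) (.g (nat_lit 3461) (.e (nat_lit 123202) (nat_lit 270) (.e (nat_lit 1256) (nat_lit 92) (.e (nat_lit 98373) (nat_lit 29) (.e (nat_lit 450588) (nat_lit 10) (.e (nat_lit 573457) (nat_lit 9) (.e (nat_lit 16) (nat_lit 0) (.e (nat_lit 7088) (nat_lit 379) .nil))))))) (.g (nat_lit 6) .nil .nil))) 
(.lf (nat_lit 245056) (.g (nat_lit 1841) (.e (nat_lit 123205) (nat_lit 270) (.e (nat_lit 1656) (nat_lit 115) (.e (nat_lit 393234) (nat_lit 17) (.e (nat_lit 7589) (nat_lit 406) (.e (nat_lit 65633) (nat_lit 15) .nil))))) .nil))) (.nd (nat_lit 6) 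
(.lf (nat_lit 245024) (.g (nat_lit 1584) (.e (nat_lit 123204) (nat_lit 270) (.e (nat_lit 1656) (nat_lit 115) (.e (nat_lit 393234) (nat_lit 17) (.e (nat_lit 7587) (nat_lit 406) .nil)))) .nil)) 
(.lf (nat_lit 245088) (.g (nat_lit 469) (.e (nat_lit 123207) (nat_lit 270) (.e (nat_lit 1661) (nat_lit 115) (.e (nat_lit 393260) (nat_lit 21) .nil))) .nil)))) (.nd (nat_lit 5) (.nd (nat_lit 6) 
(.lf (nat_lit 245008) (.g (nat_lit 2178) (.e (nat_lit 123202) (nat_lit 270) (.e (nat_lit 7936) (nat_lit 108) (.e (nat_lit 336051) (nat_lit 6) (.e (nat_lit 147467) (nat_lit 9) (.e (nat_lit 314) (nat_lit 23) (.e (nat_lit 352264) (nat_lit 0) (.e (nat_lit 7088) (nat_lit 379) .nil))))))) (.g (nat_lit 5) .nil .nil))) 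
(.lf (nat_lit 245072) (.g (nat_lit 2842) (.e (nat_lit 123205) (nat_lit 270) (.e (nat_lit 1656) (nat_lit 115) (.e (nat_lit 393301) (nat_lit 27) (.e (nat_lit 491551) (nat_lit 9) (.e (nat_lit 336253) (nat_lit 15) .nil))))) .nil))) (.nd (nat_lit 6) 
(.lf (nat_lit 245040) (.g (nat_lit 1337) (.e (nat_lit 123205) (nat_lit 270) (.e (nat_lit 1423) (nat_lit 108) (.e (nat_lit 336369) (nat_lit 27) (.e (nat_lit 426173) (nat_lit 7) (.e (nat_lit 409649) (nat_lit 18) .nil))))) .nil)) 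
(.lf (nat_lit 245104) (.g (nat_lit 1251) (.e (nat_lit 130816) (nat_lit 270) (.e (nat_lit 1256) (nat_lit 92) (.e (nat_lit 98370) (nat_lit 28) (.e (nat_lit 442424) (nat_lit 22) (.e (nat_lit 196661) (nat_lit 12) .nil))))) .nil))))) (.nd (nat_lit 4) (.nd (nat_lit 5) (.nd (nat_lit 6) 
(.lf (nat_lit 245000) (.g (nat_lit 2736) (.e (nat_lit 123202) (nat_lit 270) (.e (nat_lit 1400) (nat_lit 106) (.e (nat_lit 319534) (nat_lit 16) (.e (nat_lit 286756) (nat_lit 10) (.e (nat_lit 344160) (nat_lit 37) (.e (nat_lit 647190) (nat_lit 9) (.e (nat_lit 62) (nat_lit 0) (.e (nat_lit 7088) (nat_lit 379) .nil)))))))) (.g (nat_lit 4) .nil .nil))) 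
(.lf (nat_lit 245064) (.g (nat_lit 1826) (.e (nat_lit 123205) (nat_lit 270) (.e (nat_lit 1656) (nat_lit 115) (.e (nat_lit 393300) (nat_lit 27) (.e (nat_lit 491552) (nat_lit 9) (.e (nat_lit 336253) (nat_lit 15) .nil))))) .nil))) (.nd (nat_lit 6) 
(.lf (nat_lit 245032) (.g (nat_lit 928) (.e (nat_lit 123205) (nat_lit 270) (.e (nat_lit 1250) (nat_lit 92) (.e (nat_lit 98372) (nat_lit 29) (.e (nat_lit 458496) (nat_lit 1) .nil)))) .nil)) 
(.lf (nat_lit 245096) (.g (nat_lit 478) (.e (nat_lit 123209) (nat_lit 270) (.e (nat_lit 1638) (nat_lit 114) (.e (nat_lit 392960) (nat_lit 16) .nil))) .nil)))) (.nd (nat_lit 5) (.nd (nat_lit 6) 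
(.lf (nat_lit 245016) (.g (nat_lit 1621) (.e (nat_lit 123202) (nat_lit 270) (.e (nat_lit 1656) (nat_lit 115) (.e (nat_lit 393234) (nat_lit 17) (.e (nat_lit 7936) (nat_lit 406) .nil)))) .nil)) 
(.lf (nat_lit 245080) (.g (nat_lit 1633) (.e (nat_lit 123207) (nat_lit 270) (.e (nat_lit 1253) (nat_lit 92) (.e (nat_lit 98373) (nat_lit 29) (.e (nat_lit 458496) (nat_lit 1) .nil)))) .nil))) (.nd (nat_lit 6) 
(.lf (nat_lit 245048) (.g (nat_lit 2679) (.e (nat_lit 123205) (nat_lit 270) (.e (nat_lit 1633) (nat_lit 114) (.e (nat_lit 385106) (nat_lit 50) (.e (nat_lit 786483) (nat_lit 30) (.e (nat_lit 360484) (nat_lit 15) (.e (nat_lit 655104) (nat_lit 16) .nil)))))) (.g (nat_lit 5) .nil .nil))) 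
(.lf (nat_lit 245112) (.g (nat_lit 3448) (.e (nat_lit 123212) (nat_lit 273) (.e (nat_lit 57464) (nat_lit 23) (.e (nat_lit 516151) (nat_lit 9) (.e (nat_lit 426170) (nat_lit 7) (.e (nat_lit 409631) (nat_lit 12) (.e (nat_lit 32794) (nat_lit 14) (.e (nat_lit 2437) (nat_lit 157) (.e (nat_lit 7091) (nat_lit 379) .nil)))))))) (.g (nat_lit 6) .nil .nil))))))) 
(.nd (nat_lit 3) (.nd (nat_lit 4) (.nd (nat_lit 5) (.nd (nat_lit 6) 
(.lf (nat_lit 244996) (.g (nat_lit 2939) (.e (nat_lit 123202) (nat_lit 270) (.e (nat_lit 1400) (nat_lit 106) (.e (nat_lit 319533) (nat_lit 16) (.e (nat_lit 286753) (nat_lit 10) (.e (nat_lit 344160) (nat_lit 37) (.e (nat_lit 647190) (nat_lit 9) (.e (nat_lit 62) (nat_lit 0) (.e (nat_lit 7089) (nat_lit 379) .nil)))))))) (.g (nat_lit 5) .nil .nil))) 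
(.lf (nat_lit 245060) (.g (nat_lit 1507) (.e (nat_lit 123205) (nat_lit 270) (.e (nat_lit 1656) (nat_lit 115) (.e (nat_lit 393299) (nat_lit 27) (.e (nat_lit 491552) (nat_lit 9) .nil)))) .nil))) (.nd (nat_lit 6) 
(.lf (nat_lit 245028) (.g (nat_lit 1648) (.e (nat_lit 123204) (nat_lit 270) (.e (nat_lit 1656) (nat_lit 115) (.e (nat_lit 393234) (nat_lit 17) (.e (nat_lit 7936) (nat_lit 406) .nil)))) .nil)) 
(.lf (nat_lit 245092) (.g (nat_lit 1896) (.e (nat_lit 123207) (nat_lit 270) (.e (nat_lit 1661) (nat_lit 115) (.e (nat_lit 393260) (nat_lit 21) (.e (nat_lit 409648) (nat_lit 18) .nil)))) .nil)))) (.nd (nat_lit 5) (.nd (nat_lit 6) 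
(.lf (nat_lit 245012) (.g (nat_lit 1551) (.e (nat_lit 123202) (nat_lit 270) (.e (nat_lit 1656) (nat_lit 115) (.e (nat_lit 393234) (nat_lit 17) (.e (nat_lit 7587) (nat_lit 406) .nil)))) .nil)) 
(.lf (nat_lit 245076) (.g (nat_lit 2600) (.e (nat_lit 123205) (nat_lit 270) (.e (nat_lit 1656) (nat_lit 115) (.e (nat_lit 393301) (nat_lit 27) (.e (nat_lit 491556) (nat_lit 9) (.e (nat_lit 343808) (nat_lit 15) .nil))))) .nil))) (.nd (nat_lit 6) 
(.lf (nat_lit 245044) (.g (nat_lit 3364) (.e (nat_lit 123205) (nat_lit 270) (.e (nat_lit 1633) (nat_lit 114) (.e (nat_lit 385074) (nat_lit 31) (.e (nat_lit 573482) (nat_lit 13) (.e (nat_lit 65598) (nat_lit 9) .nil))))) .nil)) 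
(.lf (nat_lit 245108) (.g (nat_lit 1406) (.e (nat_lit 123211) (nat_lit 272) (.e (nat_lit 16473) (nat_lit 14) (.e (nat_lit 499456) (nat_lit 18) .nil))) .nil))))) (.nd (nat_lit 4) (.nd (nat_lit 5) (.nd (nat_lit 6) 
(.lf (nat_lit 245004) (.g (nat_lit 2092) (.e (nat_lit 123202) (nat_lit 270) (.e (nat_lit 1401) (nat_lit 106) (.e (nat_lit 319505) (nat_lit 10) (.e (nat_lit 618) (nat_lit 48) (.e (nat_lit 557109) (nat_lit 15) (.e (nat_lit 188461) (nat_lit 26) (.e (nat_lit 261888) (nat_lit 16) .nil))))))) (.g (nat_lit 4) .nil .nil))) 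
(.lf (nat_lit 245068) (.g (nat_lit 1303) (.e (nat_lit 123205) (nat_lit 270) (.e (nat_lit 1656) (nat_lit 115) (.e (nat_lit 393300) (nat_lit 27) (.e (nat_lit 491564) (nat_lit 12) .nil)))) .nil))) (.nd (nat_lit 6) 
(.lf (nat_lit 245036) (.g (nat_lit 1856) (.e (nat_lit 123205) (nat_lit 270) (.e (nat_lit 1250) (nat_lit 92) (.e (nat_lit 98372) (nat_lit 29) (.e (nat_lit 450579) (nat_lit 5) (.e (nat_lit 532488) (nat_lit 0) (.e (nat_lit 7936) (nat_lit 334) .nil)))))) (.g (nat_lit 5) .nil .nil))) 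
(.lf (nat_lit 245100) (.g (nat_lit 2094) (.e (nat_lit 123209) (nat_lit 270) (.e (nat_lit 1661) (nat_lit 115) (.e (nat_lit 393260) (nat_lit 21) (.e (nat_lit 409643) (nat_lit 18) .nil)))) .nil)))) (.nd (nat_lit 5) (.nd (nat_lit 6) 
(.lf (nat_lit 245020) (.g (nat_lit 986) (.e (nat_lit 123202) (nat_lit 270) (.e (nat_lit 1665) (nat_lit 115) (.e (nat_lit 393301) (nat_lit 27) (.e (nat_lit 491556) (nat_lit 9) .nil)))) .nil)) 
(.lf (nat_lit 245084) (.g (nat_lit 1232) (.e (nat_lit 123207) (nat_lit 270) (.e (nat_lit 1428) (nat_lit 108) (.e (nat_lit 336369) (nat_lit 27) (.e (nat_lit 426173) (nat_lit 7) (.e (nat_lit 409616) (nat_lit 10) .nil))))) .nil))) (.nd (nat_lit 6) 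
(.lf (nat_lit 245052) (.g (nat_lit 2280) (.e (nat_lit 123205) (nat_lit 270) (.e (nat_lit 1656) (nat_lit 115) (.e (nat_lit 393234) (nat_lit 17) (.e (nat_lit 7587) (nat_lit 406) (.e (nat_lit 65633) (nat_lit 15) (.e (nat_lit 7086) (nat_lit 379) .nil)))))) (.g (nat_lit 5) .nil .nil))) 
(.lf (nat_lit 245116) (.g (nat_lit 2280) (.e (nat_lit 123212) (nat_lit 273) (.e (nat_lit 57464) (nat_lit 23) (.e (nat_lit 516151) (nat_lit 9) (.e (nat_lit 426209) (nat_lit 9) .nil)))) .nil))))))) (.nd (nat_lit 2) (.nd (nat_lit 3) (.nd (nat_lit 4) (.nd (nat_lit 5) (.nd (nat_lit 6) 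
(.lf (nat_lit 244994) (.g (nat_lit 3199) (.e (nat_lit 123202) (nat_lit 270) (.e (nat_lit 1400) (nat_lit 106) (.e (nat_lit 319505) (nat_lit 10) (.e (nat_lit 618) (nat_lit 48) (.e (nat_lit 557109) (nat_lit 15) (.e (nat_lit 188461) (nat_lit 26) (.e (nat_lit 261888) (nat_lit 16) .nil))))))) (.g (nat_lit 5) .nil .nil))) 
(.lf (nat_lit 245058) (.g (nat_lit 395) (.e (nat_lit 123205) (nat_lit 270) (.e (nat_lit 1656) (nat_lit 115) (.e (nat_lit 393260) (nat_lit 21) .nil))) .nil))) (.nd (nat_lit 6) 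
(.lf (nat_lit 245026) (.g (nat_lit 1606) (.e (nat_lit 123204) (nat_lit 270) (.e (nat_lit 1656) (nat_lit 115) (.e (nat_lit 393234) (nat_lit 17) (.e (nat_lit 7589) (nat_lit 406) .nil)))) .nil)) 
(.lf (nat_lit 245090) (.g (nat_lit 2732) (.e (nat_lit 123207) (nat_lit 270) (.e (nat_lit 1661) (nat_lit 115) (.e (nat_lit 393260) (nat_lit 21) (.e (nat_lit 409617) (nat_lit 10) (.e (nat_lit 7936) (nat_lit 313) .nil))))) .nil)))) (.nd (nat_lit 5) (.nd (nat_lit 6) 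
(.lf (nat_lit 245010) (.g (nat_lit 2562) (.e (nat_lit 123202) (nat_lit 270) (.e (nat_lit 1535) (nat_lit 109) (.e (nat_lit 344126) (nat_lit 25) (.e (nat_lit 548889) (nat_lit 9) (.e (nat_lit 65598) (nat_lit 9) .nil))))) .nil)) 
(.lf (nat_lit 245074) (.g (nat_lit 2251) (.e (nat_lit 123205) (nat_lit 270) (.e (nat_lit 1656) (nat_lit 115) (.e (nat_lit 393301) (nat_lit 27) (.e (nat_lit 491555) (nat_lit 9) .nil)))) .nil))) (.nd (nat_lit 6) 
(.lf (nat_lit 245042) (.g (nat_lit 439) (.e (nat_lit 123205) (nat_lit 270) (.e (nat_lit 1633) (nat_lit 114) (.e (nat_lit 385074) (nat_lit 31) .nil))) .nil)) 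
(.lf (nat_lit 245106) (.g (nat_lit 3091) (.e (nat_lit 123211) (nat_lit 272) (.e (nat_lit 16470) (nat_lit 14) (.e (nat_lit 491571) (nat_lit 13) (.e (nat_lit 401152) (nat_lit 1) .nil)))) .nil))))) (.nd (nat_lit 4) (.nd (nat_lit 5) (.nd (nat_lit 6) 
(.lf (nat_lit 245002) (.g (nat_lit 2676) (.e (nat_lit 123202) (nat_lit 270) (.e (nat_lit 1400) (nat_lit 106) (.e (nat_lit 319534) (nat_lit 16) (.e (nat_lit 286756) (nat_lit 10) (.e (nat_lit 344160) (nat_lit 37) (.e (nat_lit 647195) (nat_lit 9) (.e (nat_lit 59) (nat_lit 0) (.e (nat_lit 7087) (nat_lit 379) .nil)))))))) (.g (nat_lit 4) .nil .nil))) 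
(.lf (nat_lit 245066) (.g (nat_lit 2337) (.e (nat_lit 123205) (nat_lit 270) (.e (nat_lit 1656) (nat_lit 115) (.e (nat_lit 393300) (nat_lit 27) (.e (nat_lit 491556) (nat_lit 9) (.e (nat_lit 343808) (nat_lit 15) .nil))))) .nil))) (.nd (nat_lit 6) 
(.lf (nat_lit 245034) (.g (nat_lit 1751) (.e (nat_lit 123205) (nat_lit 270) (.e (nat_lit 1250) (nat_lit 92) (.e (nat_lit 98372) (nat_lit 29) (.e (nat_lit 450579) (nat_lit 5) (.e (nat_lit 532482) (nat_lit 0) .nil))))) .nil)) 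
(.lf (nat_lit 245098) (.g (nat_lit 2206) (.e (nat_lit 123209) (nat_lit 270) (.e (nat_lit 1661) (nat_lit 115) (.e (nat_lit 393260) (nat_lit 21) (.e (nat_lit 409617) (nat_lit 10) .nil)))) .nil)))) (.nd (nat_lit 5) (.nd (nat_lit 6) 
(.lf (nat_lit 245018) (.g (nat_lit 1697) (.e (nat_lit 123202) (nat_lit 270) (.e (nat_lit 1665) (nat_lit 115) (.e (nat_lit 393301) (nat_lit 27) (.e (nat_lit 491551) (nat_lit 9) (.e (nat_lit 336253) (nat_lit 15) .nil))))) .nil)) 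
(.lf (nat_lit 245082) (.g (nat_lit 797) (.e (nat_lit 123207) (nat_lit 270) (.e (nat_lit 1427) (nat_lit 108) (.e (nat_lit 336421) (nat_lit 28) .nil))) .nil))) (.nd (nat_lit 6) 
(.lf (nat_lit 245050) (.g (nat_lit 1143) (.e (nat_lit 123205) (nat_lit 270) (.e (nat_lit 1656) (nat_lit 115) (.e (nat_lit 393234) (nat_lit 17) (.e (nat_lit 7587) (nat_lit 406) .nil)))) .nil)) 
(.lf (nat_lit 245114) (.g (nat_lit 1922) (.e (nat_lit 123212) (nat_lit 273) (.e (nat_lit 57464) (nat_lit 23) (.e (nat_lit 516151) (nat_lit 9) (.e (nat_lit 426185) (nat_lit 9) .nil)))) .nil)))))) (.nd (nat_lit 3) (.nd (nat_lit 4) (.nd (nat_lit 5) (.nd (nat_lit 6) 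
(.lf (nat_lit 244998) (.g (nat_lit 2620) (.e (nat_lit 123202) (nat_lit 270) (.e (nat_lit 1400) (nat_lit 106) (.e (nat_lit 319534) (nat_lit 16) (.e (nat_lit 286756) (nat_lit 10) (.e (nat_lit 344160) (nat_lit 37) (.e (nat_lit 647190) (nat_lit 9) (.e (nat_lit 62) (nat_lit 0) (.e (nat_lit 7086) (nat_lit 379) .nil)))))))) (.g (nat_lit 4) .nil .nil))) 
(.lf (nat_lit 245062) (.g (nat_lit 1857) (.e (nat_lit 123205) (nat_lit 270) (.e (nat_lit 1656) (nat_lit 115) (.e (nat_lit 393300) (nat_lit 27) (.e (nat_lit 491551) (nat_lit 9) (.e (nat_lit 336253) (nat_lit 15) .nil))))) .nil))) (.nd (nat_lit 6) 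
(.lf (nat_lit 245030) (.g (nat_lit 2745) (.e (nat_lit 123205) (nat_lit 270) (.e (nat_lit 1232) (nat_lit 91) (.e (nat_lit 90170) (nat_lit 13) (.e (nat_lit 172106) (nat_lit 10) (.e (nat_lit 434231) (nat_lit 23) (.e (nat_lit 532480) (nat_lit 0) (.e (nat_lit 6227) (nat_lit 334) .nil))))))) (.g (nat_lit 6) .nil .nil))) 
(.lf (nat_lit 245094) (.g (nat_lit 2517) (.e (nat_lit 123207) (nat_lit 270) (.e (nat_lit 1661) (nat_lit 115) (.e (nat_lit 393260) (nat_lit 21) (.e (nat_lit 409649) (nat_lit 18) (.e (nat_lit 303149) (nat_lit 15) .nil))))) .nil)))) (.nd (nat_lit 5) (.nd (nat_lit 6) 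
(.lf (nat_lit 245014) (.g (nat_lit 1595) (.e (nat_lit 123202) (nat_lit 270) (.e (nat_lit 1656) (nat_lit 115) (.e (nat_lit 393234) (nat_lit 17) (.e (nat_lit 7589) (nat_lit 406) .nil)))) .nil)) 
(.lf (nat_lit 245078) (.g (nat_lit 1831) (.e (nat_lit 123207) (nat_lit 270) (.e (nat_lit 1235) (nat_lit 91) (.e (nat_lit 90176) (nat_lit 15) (.e (nat_lit 188447) (nat_lit 22) (.e (nat_lit 196661) (nat_lit 12) .nil))))) .nil))) (.nd (nat_lit 6) 
(.lf (nat_lit 245046) (.g (nat_lit 1482) (.e (nat_lit 123205) (nat_lit 270) (.e (nat_lit 1633) (nat_lit 114) (.e (nat_lit 385102) (nat_lit 50) (.e (nat_lit 786483) (nat_lit 30) (.e (nat_lit 360484) (nat_lit 15) .nil))))) .nil)) 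
(.lf (nat_lit 245110) (.g (nat_lit 2638) (.e (nat_lit 123212) (nat_lit 273) (.e (nat_lit 57464) (nat_lit 23) (.e (nat_lit 516151) (nat_lit 9) (.e (nat_lit 426170) (nat_lit 7) (.e (nat_lit 409631) (nat_lit 12) .nil))))) .nil))))) (.nd (nat_lit 4) (.nd (nat_lit 5) (.nd (nat_lit 6) 
(.lf (nat_lit 245006) (.g (nat_lit 2132) (.e (nat_lit 123202) (nat_lit 270) (.e (nat_lit 7936) (nat_lit 108) (.e (nat_lit 336051) (nat_lit 6) (.e (nat_lit 147466) (nat_lit 9) (.e (nat_lit 312) (nat_lit 23) (.e (nat_lit 352258) (nat_lit 0) (.e (nat_lit 7088) (nat_lit 379) .nil))))))) (.g (nat_lit 5) .nil .nil))) 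
(.lf (nat_lit 245070) (.g (nat_lit 1693) (.e (nat_lit 123205) (nat_lit 270) (.e (nat_lit 1656) (nat_lit 115) (.e (nat_lit 393301) (nat_lit 27) (.e (nat_lit 491546) (nat_lit 9) .nil)))) .nil))) (.nd (nat_lit 6) 
(.lf (nat_lit 245038) (.g (nat_lit 1662) (.e (nat_lit 123205) (nat_lit 270) (.e (nat_lit 1250) (nat_lit 92) (.e (nat_lit 98372) (nat_lit 29) (.e (nat_lit 450579) (nat_lit 5) (.e (nat_lit 540416) (nat_lit 0) (.e (nat_lit 6226) (nat_lit 334) .nil)))))) (.g (nat_lit 4) .nil .nil))) 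
(.lf (nat_lit 245102) (.g (nat_lit 1986) (.e (nat_lit 123209) (nat_lit 270) (.e (nat_lit 1661) (nat_lit 115) (.e (nat_lit 393260) (nat_lit 21) (.e (nat_lit 409649) (nat_lit 18) .nil)))) .nil)))) (.nd (nat_lit 5) (.nd (nat_lit 6) 
(.lf (nat_lit 245022) (.g (nat_lit 2490) (.e (nat_lit 123202) (nat_lit 270) (.e (nat_lit 1665) (nat_lit 115) (.e (nat_lit 393301) (nat_lit 27) (.e (nat_lit 491563) (nat_lit 12) (.e (nat_lit 385039) (nat_lit 18) .nil))))) .nil)) 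
(.lf (nat_lit 245086) (.g (nat_lit 1079) (.e (nat_lit 123207) (nat_lit 270) (.e (nat_lit 1660) (nat_lit 115) (.e (nat_lit 393260) (nat_lit 21) (.e (nat_lit 409648) (nat_lit 18) .nil)))) .nil))) (.nd (nat_lit 6) 
(.lf (nat_lit 245054) (.g (nat_lit 2282) (.e (nat_lit 123205) (nat_lit 270) (.e (nat_lit 1656) (nat_lit 115) (.e (nat_lit 393234) (nat_lit 17) (.e (nat_lit 7587) (nat_lit 406) (.e (nat_lit 65633) (nat_lit 15) (.e (nat_lit 7088) (nat_lit 379) .nil)))))) (.g (nat_lit 5) .nil .nil))) 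
(.lf (nat_lit 245118) (.g (nat_lit 2780) (.e (nat_lit 123212) (nat_lit 273) (.e (nat_lit 57464) (nat_lit 23) (.e (nat_lit 516151) (nat_lit 9) (.e (nat_lit 426211) (nat_lit 9) (.e (nat_lit 426125) (nat_lit 2) .nil))))) .nil)))))))) (.nd (nat_lit 1) (.nd (nat_lit 2) (.nd (nat_lit 3) (.nd (nat_lit 4) (.nd (nat_lit 5) (.nd (nat_lit 6) 
(.lf (nat_lit 244993) (.g (nat_lit 3455) (.e (nat_lit 123202) (nat_lit 270) (.e (nat_lit 1256) (nat_lit 92) (.e (nat_lit 98373) (nat_lit 29) (.e (nat_lit 450588) (nat_lit 10) (.e (nat_lit 573457) (nat_lit 9) (.e (nat_lit 16) (nat_lit 0) (.e (nat_lit 7089) (nat_lit 379) .nil))))))) (.g (nat_lit 6) .nil .nil))) 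
(.lf (nat_lit 245057) (.g (nat_lit 1515) (.e (nat_lit 123205) (nat_lit 270) (.e (nat_lit 1656) (nat_lit 115) (.e (nat_lit 393234) (nat_lit 17) (.e (nat_lit 7936) (nat_lit 406) .nil)))) .nil))) (.nd (nat_lit 6) 
(.lf (nat_lit 245025) (.g (nat_lit 2231) (.e (nat_lit 123204) (nat_lit 270) (.e (nat_lit 1656) (nat_lit 115) (.e (nat_lit 393234) (nat_lit 17) (.e (nat_lit 7587) (nat_lit 406) (.e (nat_lit 65633) (nat_lit 15) .nil))))) .nil)) 
(.lf (nat_lit 245089) (.g (nat_lit 2732) (.e (nat_lit 123207) (nat_lit 270) (.e (nat_lit 1661) (nat_lit 115) (.e (nat_lit 393260) (nat_lit 21) (.e (nat_lit 409617) (nat_lit 10) (.e (nat_lit 7936) (nat_lit 299) .nil))))) .nil)))) (.nd (nat_lit 5) (.nd (nat_lit 6) 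
(.lf (nat_lit 245009) (.g (nat_lit 2519) (.e (nat_lit 123202) (nat_lit 270) (.e (nat_lit 1531) (nat_lit 109) (.e (nat_lit 344126) (nat_lit 25) (.e (nat_lit 548889) (nat_lit 9) (.e (nat_lit 65598) (nat_lit 9) .nil))))) .nil)) 
(.lf (nat_lit 245073) (.g (nat_lit 1489) (.e (nat_lit 123205) (nat_lit 270) (.e (nat_lit 1656) (nat_lit 115) (.e (nat_lit 393301) (nat_lit 27) (.e (nat_lit 491552) (nat_lit 9) .nil)))) .nil))) (.nd (nat_lit 6) 
(.lf (nat_lit 245041) (.g (nat_lit 891) (.e (nat_lit 123205) (nat_lit 270) (.e (nat_lit 1530) (nat_lit 109) (.e (nat_lit 344177) (nat_lit 43) (.e (nat_lit 770074) (nat_lit 10) .nil)))) .nil)) 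
(.lf (nat_lit 245105) (.g (nat_lit 1076) (.e (nat_lit 123211) (nat_lit 272) (.e (nat_lit 16470) (nat_lit 14) (.e (nat_lit 491571) (nat_lit 13) .nil))) .nil))))) (.nd (nat_lit 4) (.nd (nat_lit 5) (.nd (nat_lit 6) 
(.lf (nat_lit 245001) (.g (nat_lit 3182) (.e (nat_lit 123202) (nat_lit 270) (.e (nat_lit 1400) (nat_lit 106) (.e (nat_lit 319534) (nat_lit 16) (.e (nat_lit 286756) (nat_lit 10) (.e (nat_lit 344160) (nat_lit 37) (.e (nat_lit 647190) (nat_lit 9) (.e (nat_lit 62) (nat_lit 0) (.e (nat_lit 7089) (nat_lit 379) .nil)))))))) (.g (nat_lit 5) .nil .nil))) 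
(.lf (nat_lit 245065) (.g (nat_lit 1192) (.e (nat_lit 123205) (nat_lit 270) (.e (nat_lit 1656) (nat_lit 115) (.e (nat_lit 393300) (nat_lit 27) (.e (nat_lit 491555) (nat_lit 9) .nil)))) .nil))) (.nd (nat_lit 6) 
(.lf (nat_lit 245033) (.g (nat_lit 1742) (.e (nat_lit 123205) (nat_lit 270) (.e (nat_lit 1250) (nat_lit 92) (.e (nat_lit 98372) (nat_lit 29) (.e (nat_lit 450579) (nat_lit 5) (.e (nat_lit 532481) (nat_lit 0) .nil))))) .nil)) 
(.lf (nat_lit 245097) (.g (nat_lit 3393) (.e (nat_lit 123209) (nat_lit 270) (.e (nat_lit 1661) (nat_lit 115) (.e (nat_lit 393260) (nat_lit 21) (.e (nat_lit 409616) (nat_lit 10) (.e (nat_lit 7936) (nat_lit 313) .nil))))) .nil)))) (.nd (nat_lit 5) (.nd (nat_lit 6) 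
(.lf (nat_lit 245017) (.g (nat_lit 2175) (.e (nat_lit 123202) (nat_lit 270) (.e (nat_lit 1656) (nat_lit 115) (.e (nat_lit 393301) (nat_lit 27) (.e (nat_lit 491552) (nat_lit 9) .nil)))) .nil)) 
(.lf (nat_lit 245081) (.g (nat_lit 2705) (.e (nat_lit 123207) (nat_lit 270) (.e (nat_lit 1253) (nat_lit 92) (.e (nat_lit 98373) (nat_lit 29) (.e (nat_lit 450581) (nat_lit 5) (.e (nat_lit 532486) (nat_lit 0) .nil))))) .nil))) (.nd (nat_lit 6) 
(.lf (nat_lit 245049) (.g (nat_lit 817) (.e (nat_lit 123205) (nat_lit 270) (.e (nat_lit 1656) (nat_lit 115) (.e (nat_lit 393233) (nat_lit 17) (.e (nat_lit 7587) (nat_lit 406) .nil)))) .nil)) 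
(.lf (nat_lit 245113) (.g (nat_lit 2565) (.e (nat_lit 123212) (nat_lit 273) (.e (nat_lit 57464) (nat_lit 23) (.e (nat_lit 516151) (nat_lit 9) (.e (nat_lit 426171) (nat_lit 7) (.e (nat_lit 409631) (nat_lit 12) .nil))))) .nil)))))) (.nd (nat_lit 3) (.nd (nat_lit 4) (.nd (nat_lit 5) (.nd (nat_lit 6) 
(.lf (nat_lit 244997) (.g (nat_lit 2615) (.e (nat_lit 123202) (nat_lit 270) (.e (nat_lit 1400) (nat_lit 106) (.e (nat_lit 319534) (nat_lit 16) (.e (nat_lit 286756) (nat_lit 10) (.e (nat_lit 344160) (nat_lit 37) .nil))))) .nil)) 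
(.lf (nat_lit 245061) (.g (nat_lit 359) (.e (nat_lit 123205) (nat_lit 270) (.e (nat_lit 1656) (nat_lit 115) (.e (nat_lit 393300) (nat_lit 27) .nil))) .nil))) (.nd (nat_lit 6) 
(.lf (nat_lit 245029) (.g (nat_lit 2165) (.e (nat_lit 123204) (nat_lit 270) (.e (nat_lit 1656) (nat_lit 115) (.e (nat_lit 393301) (nat_lit 27) (.e (nat_lit 491552) (nat_lit 9) .nil)))) .nil)) 
(.lf (nat_lit 245093) (.g (nat_lit 1933) (.e (nat_lit 123207) (nat_lit 270) (.e (nat_lit 1661) (nat_lit 115) (.e (nat_lit 393260) (nat_lit 21) (.e (nat_lit 409649) (nat_lit 18) .nil)))) .nil)))) (.nd (nat_lit 5) (.nd (nat_lit 6) 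
(.lf (nat_lit 245013) (.g (nat_lit 2198) (.e (nat_lit 123202) (nat_lit 270) (.e (nat_lit 1656) (nat_lit 115) (.e (nat_lit 393234) (nat_lit 17) (.e (nat_lit 7587) (nat_lit 406) (.e (nat_lit 65633) (nat_lit 15) .nil))))) .nil)) 
(.lf (nat_lit 245077) (.g (nat_lit 2021) (.e (nat_lit 123206) (nat_lit 270) (.e (nat_lit 1225) (nat_lit 91) (.e (nat_lit 90176) (nat_lit 15) (.e (nat_lit 188447) (nat_lit 22) (.e (nat_lit 196661) (nat_lit 12) (.e (nat_lit 57722) (nat_lit 178) .nil)))))) (.g (nat_lit 6) .nil .nil)))) (.nd (nat_lit 6) 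
(.lf (nat_lit 245045) (.g (nat_lit 3023) (.e (nat_lit 123205) (nat_lit 270) (.e (nat_lit 1633) (nat_lit 114) (.e (nat_lit 385074) (nat_lit 31) (.e (nat_lit 573491) (nat_lit 15) (.e (nat_lit 81951) (nat_lit 22) .nil))))) .nil)) 
(.lf (nat_lit 245109) (.g (nat_lit 783) (.e (nat_lit 123212) (nat_lit 273) (.e (nat_lit 57464) (nat_lit 23) (.e (nat_lit 516142) (nat_lit 8) (.e (nat_lit 417812) (nat_lit 7) .nil)))) .nil))))) (.nd (nat_lit 4) (.nd (nat_lit 5) (.nd (nat_lit 6) 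
(.lf (nat_lit 245005) (.g (nat_lit 2370) (.e (nat_lit 123202) (nat_lit 270) (.e (nat_lit 1401) (nat_lit 106) (.e (nat_lit 319534) (nat_lit 16) (.e (nat_lit 286756) (nat_lit 10) (.e (nat_lit 344160) (nat_lit 37) .nil))))) .nil)) 
(.lf (nat_lit 245069) (.g (nat_lit 1338) (.e (nat_lit 123205) (nat_lit 270) (.e (nat_lit 1656) (nat_lit 115) (.e (nat_lit 393300) (nat_lit 27) (.e (nat_lit 491565) (nat_lit 12) .nil)))) .nil))) (.nd (nat_lit 6) 
(.lf (nat_lit 245037) (.g (nat_lit 1907) (.e (nat_lit 123205) (nat_lit 270) (.e (nat_lit 1250) (nat_lit 92) (.e (nat_lit 98372) (nat_lit 29) (.e (nat_lit 450579) (nat_lit 5) (.e (nat_lit 532489) (nat_lit 0) (.e (nat_lit 7936) (nat_lit 334) .nil)))))) (.g (nat_lit 5) .nil .nil))) 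
(.lf (nat_lit 245101) (.g (nat_lit 1981) (.e (nat_lit 123209) (nat_lit 270) (.e (nat_lit 1661) (nat_lit 115) (.e (nat_lit 393260) (nat_lit 21) (.e (nat_lit 409648) (nat_lit 18) .nil)))) .nil)))) (.nd (nat_lit 5) (.nd (nat_lit 6) 
(.lf (nat_lit 245021) (.g (nat_lit 1029) (.e (nat_lit 123202) (nat_lit 270) (.e (nat_lit 1665) (nat_lit 115) (.e (nat_lit 393301) (nat_lit 27) (.e (nat_lit 491562) (nat_lit 12) .nil)))) .nil)) 
(.lf (nat_lit 245085) (.g (nat_lit 1438) (.e (nat_lit 123207) (nat_lit 270) (.e (nat_lit 1660) (nat_lit 115) (.e (nat_lit 393260) (nat_lit 21) (.e (nat_lit 409616) (nat_lit 10) .nil)))) .nil))) (.nd (nat_lit 6) 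
(.lf (nat_lit 245053) (.g (nat_lit 2276) (.e (nat_lit 123205) (nat_lit 270) (.e (nat_lit 1656) (nat_lit 115) (.e (nat_lit 393234) (nat_lit 17) (.e (nat_lit 7587) (nat_lit 406) (.e (nat_lit 65633) (nat_lit 15) (.e (nat_lit 7087) (nat_lit 379) .nil)))))) (.g (nat_lit 5) .nil .nil))) 
(.lf (nat_lit 245117) (.g (nat_lit 2272) (.e (nat_lit 123212) (nat_lit 273) (.e (nat_lit 57464) (nat_lit 23) (.e (nat_lit 516151) (nat_lit 9) (.e (nat_lit 426210) (nat_lit 9) .nil)))) .nil))))))) (.nd (nat_lit 2) (.nd (nat_lit 3) (.nd (nat_lit 4) (.nd (nat_lit 5) (.nd (nat_lit 6) 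
(.lf (nat_lit 244995) (.g (nat_lit 1889) (.e (nat_lit 123202) (nat_lit 270) (.e (nat_lit 1400) (nat_lit 106) (.e (nat_lit 319533) (nat_lit 16) (.e (nat_lit 286753) (nat_lit 10) .nil)))) .nil)) 
(.lf (nat_lit 245059) (.g (nat_lit 1295) (.e (nat_lit 123205) (nat_lit 270) (.e (nat_lit 1656) (nat_lit 115) (.e (nat_lit 393260) (nat_lit 21) (.e (nat_lit 409649) (nat_lit 18) .nil)))) .nil))) (.nd (nat_lit 6) 
(.lf (nat_lit 245027) (.g (nat_lit 2332) (.e (nat_lit 123204) (nat_lit 270) (.e (nat_lit 1656) (nat_lit 115) (.e (nat_lit 393234) (nat_lit 17) (.e (nat_lit 7589) (nat_lit 406) (.e (nat_lit 65633) (nat_lit 15) .nil))))) .nil)) 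
(.lf (nat_lit 245091) (.g (nat_lit 2119) (.e (nat_lit 123207) (nat_lit 270) (.e (nat_lit 1661) (nat_lit 115) (.e (nat_lit 393260) (nat_lit 21) (.e (nat_lit 409643) (nat_lit 18) .nil)))) .nil)))) (.nd (nat_lit 5) (.nd (nat_lit 6) 
(.lf (nat_lit 245011) (.g (nat_lit 1484) (.e (nat_lit 123202) (nat_lit 270) (.e (nat_lit 1633) (nat_lit 114) (.e (nat_lit 385106) (nat_lit 50) (.e (nat_lit 786483) (nat_lit 30) .nil)))) .nil)) 
(.lf (nat_lit 245075) (.g (nat_lit 1593) (.e (nat_lit 123205) (nat_lit 270) (.e (nat_lit 1656) (nat_lit 115) (.e (nat_lit 393301) (nat_lit 27) (.e (nat_lit 491556) (nat_lit 9) .nil)))) .nil))) (.nd (nat_lit 6) 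
(.lf (nat_lit 245043) (.g (nat_lit 1760) (.e (nat_lit 123205) (nat_lit 270) (.e (nat_lit 1633) (nat_lit 114) (.e (nat_lit 385074) (nat_lit 31) (.e (nat_lit 573482) (nat_lit 13) .nil)))) .nil)) 
(.lf (nat_lit 245107) (.g (nat_lit 2972) (.e (nat_lit 123211) (nat_lit 272) (.e (nat_lit 16470) (nat_lit 14) (.e (nat_lit 491571) (nat_lit 13) (.e (nat_lit 393235) (nat_lit 17) .nil)))) .nil))))) (.nd (nat_lit 4) (.nd (nat_lit 5) (.nd (nat_lit 6) 
(.lf (nat_lit 245003) (.g (nat_lit 2690) (.e (nat_lit 123202) (nat_lit 270) (.e (nat_lit 1400) (nat_lit 106) (.e (nat_lit 319534) (nat_lit 16) (.e (nat_lit 286756) (nat_lit 10) (.e (nat_lit 344160) (nat_lit 37) (.e (nat_lit 647195) (nat_lit 9) (.e (nat_lit 59) (nat_lit 0) (.e (nat_lit 7088) (nat_lit 379) .nil)))))))) (.g (nat_lit 4) .nil .nil))) 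
(.lf (nat_lit 245067) (.g (nat_lit 1546) (.e (nat_lit 123205) (nat_lit 270) (.e (nat_lit 1656) (nat_lit 115) (.e (nat_lit 393300) (nat_lit 27) (.e (nat_lit 491563) (nat_lit 12) .nil)))) .nil))) (.nd (nat_lit 6) 
(.lf (nat_lit 245035) (.g (nat_lit 1968) (.e (nat_lit 123205) (nat_lit 270) (.e (nat_lit 1250) (nat_lit 92) (.e (nat_lit 98372) (nat_lit 29) (.e (nat_lit 450579) (nat_lit 5) (.e (nat_lit 532484) (nat_lit 0) (.e (nat_lit 7936) (nat_lit 334) .nil)))))) (.g (nat_lit 5) .nil .nil))) 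
(.lf (nat_lit 245099) (.g (nat_lit 2706) (.e (nat_lit 123209) (nat_lit 270) (.e (nat_lit 1661) (nat_lit 115) (.e (nat_lit 393260) (nat_lit 21) (.e (nat_lit 409617) (nat_lit 10) (.e (nat_lit 7936) (nat_lit 299) .nil))))) .nil)))) (.nd (nat_lit 5) (.nd (nat_lit 6) 
(.lf (nat_lit 245019) (.g (nat_lit 813) (.e (nat_lit 123202) (nat_lit 270) (.e (nat_lit 1665) (nat_lit 115) (.e (nat_lit 393301) (nat_lit 27) (.e (nat_lit 491552) (nat_lit 9) .nil)))) .nil)) 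
(.lf (nat_lit 245083) (.g (nat_lit 794) (.e (nat_lit 123207) (nat_lit 270) (.e (nat_lit 1428) (nat_lit 108) (.e (nat_lit 336369) (nat_lit 27) (.e (nat_lit 426173) (nat_lit 7) .nil)))) .nil))) (.nd (nat_lit 6) 
(.lf (nat_lit 245051) (.g (nat_lit 1790) (.e (nat_lit 123205) (nat_lit 270) (.e (nat_lit 1656) (nat_lit 115) (.e (nat_lit 393234) (nat_lit 17) (.e (nat_lit 7587) (nat_lit 406) (.e (nat_lit 65633) (nat_lit 15) .nil))))) .nil)) 
(.lf (nat_lit 245115) (.g (nat_lit 2280) (.e (nat_lit 123212) (nat_lit 273) (.e (nat_lit 57464) (nat_lit 23) (.e (nat_lit 516151) (nat_lit 9) (.e (nat_lit 426207) (nat_lit 9) .nil)))) .nil)))))) (.nd (nat_lit 3) (.nd (nat_lit 4) (.nd (nat_lit 5) (.nd (nat_lit 6) 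
(.lf (nat_lit 244999) (.g (nat_lit 2861) (.e (nat_lit 123202) (nat_lit 270) (.e (nat_lit 1400) (nat_lit 106) (.e (nat_lit 319534) (nat_lit 16) (.e (nat_lit 286756) (nat_lit 10) (.e (nat_lit 344160) (nat_lit 37) (.e (nat_lit 647190) (nat_lit 9) (.e (nat_lit 62) (nat_lit 0) (.e (nat_lit 7087) (nat_lit 379) .nil)))))))) (.g (nat_lit 4) .nil .nil))) 
(.lf (nat_lit 245063) (.g (nat_lit 1397) (.e (nat_lit 123205) (nat_lit 270) (.e (nat_lit 1656) (nat_lit 115) (.e (nat_lit 393300) (nat_lit 27) (.e (nat_lit 491552) (nat_lit 9) .nil)))) .nil))) (.nd (nat_lit 6) 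
(.lf (nat_lit 245031) (.g (nat_lit 1565) (.e (nat_lit 123205) (nat_lit 270) (.e (nat_lit 1232) (nat_lit 91) (.e (nat_lit 90172) (nat_lit 14) (.e (nat_lit 180278) (nat_lit 32) (.e (nat_lit 1235) (nat_lit 91) .nil))))) .nil)) 
(.lf (nat_lit 245095) (.g (nat_lit 2234) (.e (nat_lit 123209) (nat_lit 270) (.e (nat_lit 1234) (nat_lit 91) (.e (nat_lit 90176) (nat_lit 15) (.e (nat_lit 188447) (nat_lit 22) (.e (nat_lit 196661) (nat_lit 12) .nil))))) .nil)))) (.nd (nat_lit 5) (.nd (nat_lit 6) 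
(.lf (nat_lit 245015) (.g (nat_lit 2321) (.e (nat_lit 123202) (nat_lit 270) (.e (nat_lit 1656) (nat_lit 115) (.e (nat_lit 393234) (nat_lit 17) (.e (nat_lit 7589) (nat_lit 406) (.e (nat_lit 65633) (nat_lit 15) .nil))))) .nil)) 
(.lf (nat_lit 245079) (.g (nat_lit 1821) (.e (nat_lit 123207) (nat_lit 270) (.e (nat_lit 1235) (nat_lit 91) (.e (nat_lit 90176) (nat_lit 15) (.e (nat_lit 188450) (nat_lit 23) (.e (nat_lit 204819) (nat_lit 17) .nil))))) .nil))) (.nd (nat_lit 6) 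
(.lf (nat_lit 245047) (.g (nat_lit 1915) (.e (nat_lit 123205) (nat_lit 270) (.e (nat_lit 1633) (nat_lit 114) (.e (nat_lit 385105) (nat_lit 50) (.e (nat_lit 786483) (nat_lit 30) (.e (nat_lit 360484) (nat_lit 15) .nil))))) .nil)) 
(.lf (nat_lit 245111) (.g (nat_lit 2714) (.e (nat_lit 123212) (nat_lit 273) (.e (nat_lit 57464) (nat_lit 23) (.e (nat_lit 516151) (nat_lit 9) (.e (nat_lit 426170) (nat_lit 7) (.e (nat_lit 409631) (nat_lit 12) (.e (nat_lit 32794) (nat_lit 14) (.e (nat_lit 2417) (nat_lit 157) (.e (nat_lit 7091) (nat_lit 379) .nil)))))))) (.g (nat_lit 4) .nil .nil)))))) 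
(.nd (nat_lit 4) (.nd (nat_lit 5) (.nd (nat_lit 6) 
(.lf (nat_lit 245007) (.g (nat_lit 1835) (.e (nat_lit 123202) (nat_lit 270) (.e (nat_lit 7936) (nat_lit 108) (.e (nat_lit 336051) (nat_lit 6) (.e (nat_lit 147467) (nat_lit 9) (.e (nat_lit 312) (nat_lit 23) (.e (nat_lit 352258) (nat_lit 0) (.e (nat_lit 7088) (nat_lit 379) .nil))))))) (.g (nat_lit 5) .nil .nil))) 
(.lf (nat_lit 245071) (.g (nat_lit 1661) (.e (nat_lit 123205) (nat_lit 270) (.e (nat_lit 1656) (nat_lit 115) (.e (nat_lit 393301) (nat_lit 27) (.e (nat_lit 491551) (nat_lit 9) .nil)))) .nil))) (.nd (nat_lit 6) 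
(.lf (nat_lit 245039) (.g (nat_lit 2971) (.e (nat_lit 123205) (nat_lit 270) (.e (nat_lit 1250) (nat_lit 92) (.e (nat_lit 98373) (nat_lit 29) (.e (nat_lit 450588) (nat_lit 10) (.e (nat_lit 573452) (nat_lit 9) .nil))))) .nil)) 
(.lf (nat_lit 245103) (.g (nat_lit 2571) (.e (nat_lit 123209) (nat_lit 270) (.e (nat_lit 1661) (nat_lit 115) (.e (nat_lit 393260) (nat_lit 21) (.e (nat_lit 409649) (nat_lit 18) (.e (nat_lit 303149) (nat_lit 15) .nil))))) .nil)))) (.nd (nat_lit 5) (.nd (nat_lit 6) 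
(.lf (nat_lit 245023) (.g (nat_lit 467) (.e (nat_lit 123202) (nat_lit 270) (.e (nat_lit 1669) (nat_lit 116) (.e (nat_lit 401425) (nat_lit 2) .nil))) .nil)) 
(.lf (nat_lit 245087) (.g (nat_lit 511) (.e (nat_lit 123207) (nat_lit 270) (.e (nat_lit 1661) (nat_lit 115) (.e (nat_lit 393238) (nat_lit 17) .nil))) .nil))) (.nd (nat_lit 6) 
(.lf (nat_lit 245055) (.g (nat_lit 1115) (.e (nat_lit 123205) (nat_lit 270) (.e (nat_lit 1656) (nat_lit 115) (.e (nat_lit 393234) (nat_lit 17) (.e (nat_lit 7589) (nat_lit 406) .nil)))) .nil)) 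
(.lf (nat_lit 245119) (.g (nat_lit 2824) (.e (nat_lit 123212) (nat_lit 273) (.e (nat_lit 57464) (nat_lit 23) (.e (nat_lit 516151) (nat_lit 9) (.e (nat_lit 426211) (nat_lit 9) (.e (nat_lit 426140) (nat_lit 3) .nil))))) .nil)))))))))

noncomputable def tv3188 : DT := (.nd (nat_lit 0) (.nd (nat_lit 1) (.nd (nat_lit 2) (.nd (nat_lit 3) (.nd (nat_lit 4) (.nd (nat_lit 5) 
(.lf (nat_lit 245120) (.g (nat_lit 2477) (.e (nat_lit 123212) (nat_lit 273) (.e (nat_lit 57464) (nat_lit 23) (.e (nat_lit 516151) (nat_lit 9) (.e (nat_lit 426212) (nat_lit 9) (.e (nat_lit 426125) (nat_lit 2) .nil))))) .nil)) 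
(.lf (nat_lit 245152) (.g (nat_lit 2974) (.e (nat_lit 123212) (nat_lit 273) (.e (nat_lit 57464) (nat_lit 23) (.e (nat_lit 516166) (nat_lit 12) (.e (nat_lit 450588) (nat_lit 10) (.e (nat_lit 573457) (nat_lit 9) (.e (nat_lit 16) (nat_lit 0) (.e (nat_lit 7089) (nat_lit 379) .nil))))))) (.g (nat_lit 6) .nil .nil)))) (.nd (nat_lit 5) 
(.lf (nat_lit 245136) (.g (nat_lit 2511) (.e (nat_lit 123212) (nat_lit 273) (.e (nat_lit 57464) (nat_lit 23) (.e (nat_lit 516151) (nat_lit 9) (.e (nat_lit 426338) (nat_lit 14) (.e (nat_lit 491540) (nat_lit 3) .nil))))) .nil)) 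
(.lf (nat_lit 245168) (.g (nat_lit 775) (.e (nat_lit 123213) (nat_lit 274) (.e (nat_lit 65632) (nat_lit 15) (.e (nat_lit 7081) (nat_lit 378) (.e (nat_lit 57897) (nat_lit 274) (.e (nat_lit 65633) (nat_lit 15) (.e (nat_lit 7086) (nat_lit 379) .nil)))))) (.g (nat_lit 0) .nil .nil))))) (.nd (nat_lit 4) (.nd (nat_lit 5) 
(.lf (nat_lit 245128) (.g (nat_lit 3303) (.e (nat_lit 123212) (nat_lit 273) (.e (nat_lit 57464) (nat_lit 23) (.e (nat_lit 516151) (nat_lit 9) (.e (nat_lit 426286) (nat_lit 10) (.e (nat_lit 434245) (nat_lit 28) (.e (nat_lit 573451) (nat_lit 9) (.e (nat_lit 11) (nat_lit 0) (.e (nat_lit 7089) (nat_lit 379) .nil)))))))) (.g (nat_lit 6) .nil .nil))) 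
(.lf (nat_lit 245160) (.g (nat_lit 1083) (.e (nat_lit 123213) (nat_lit 274) (.e (nat_lit 65565) (nat_lit 1) (.e (nat_lit 57684) (nat_lit 155) (.e (nat_lit 122914) (nat_lit 14) (.e (nat_lit 352258) (nat_lit 0) (.e (nat_lit 7088) (nat_lit 379) .nil)))))) (.g (nat_lit 4) .nil .nil)))) (.nd (nat_lit 5) 
(.lf (nat_lit 245144) (.g (nat_lit 1650) (.e (nat_lit 123212) (nat_lit 273) (.e (nat_lit 57464) (nat_lit 23) (.e (nat_lit 516165) (nat_lit 12) (.e (nat_lit 450579) (nat_lit 5) (.e (nat_lit 532488) (nat_lit 0) (.e (nat_lit 7936) (nat_lit 334) .nil)))))) (.g (nat_lit 4) .nil .nil))) 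
(.lf (nat_lit 245176) (.g (nat_lit 763) (.e (nat_lit 123213) (nat_lit 274) (.e (nat_lit 65637) (nat_lit 15) (.e (nat_lit 3748) (nat_lit 228) (.e (nat_lit 786481) (nat_lit 30) .nil)))) .nil))))) (.nd (nat_lit 3) (.nd (nat_lit 4) (.nd (nat_lit 5) 
(.lf (nat_lit 245124) (.g (nat_lit 2278) (.e (nat_lit 123212) (nat_lit 273) (.e (nat_lit 57464) (nat_lit 23) (.e (nat_lit 516151) (nat_lit 9) (.e (nat_lit 426218) (nat_lit 9) .nil)))) .nil)) 
(.lf (nat_lit 245156) (.g (nat_lit 639) (.e (nat_lit 123212) (nat_lit 273) (.e (nat_lit 57480) (nat_lit 28) (.e (nat_lit 557105) (nat_lit 14) .nil))) .nil))) (.nd (nat_lit 5) 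
(.lf (nat_lit 245140) (.g (nat_lit 936) (.e (nat_lit 123212) (nat_lit 273) (.e (nat_lit 57464) (nat_lit 23) (.e (nat_lit 516165) (nat_lit 12) (.e (nat_lit 458496) (nat_lit 1) .nil)))) .nil)) 
(.lf (nat_lit 245172) (.g (nat_lit 984) (.e (nat_lit 123213) (nat_lit 274) (.e (nat_lit 65633) (nat_lit 15) (.e (nat_lit 7086) (nat_lit 379) (.e (nat_lit 123213) (nat_lit 274) (.e (nat_lit 65633) (nat_lit 15) (.e (nat_lit 7086) (nat_lit 379) .nil)))))) (.g (nat_lit 0) .nil .nil))))) (.nd (nat_lit 4) (.nd (nat_lit 5) 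
(.lf (nat_lit 245132) (.g (nat_lit 2920) (.e (nat_lit 123212) (nat_lit 273) (.e (nat_lit 57464) (nat_lit 23) (.e (nat_lit 516151) (nat_lit 9) (.e (nat_lit 426286) (nat_lit 10) (.e (nat_lit 434248) (nat_lit 28) (.e (nat_lit 573452) (nat_lit 9) (.e (nat_lit 61) (nat_lit 0) (.e (nat_lit 7086) (nat_lit 379) .nil)))))))) (.g (nat_lit 6) .nil .nil))) 
(.lf (nat_lit 245164) (.g (nat_lit 1366) (.e (nat_lit 123213) (nat_lit 274) (.e (nat_lit 65580) (nat_lit 6) (.e (nat_lit 147467) (nat_lit 9) (.e (nat_lit 312) (nat_lit 23) (.e (nat_lit 352258) (nat_lit 0) .nil))))) .nil))) (.nd (nat_lit 5) 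
(.lf (nat_lit 245148) (.g (nat_lit 2189) (.e (nat_lit 123212) (nat_lit 273) (.e (nat_lit 57464) (nat_lit 23) (.e (nat_lit 516166) (nat_lit 12) (.e (nat_lit 450562) (nat_lit 0) (.e (nat_lit 4284) (nat_lit 253) .nil))))) .nil)) 
(.lf (nat_lit 245180) (.g (nat_lit 783) (.e (nat_lit 123213) (nat_lit 274) (.e (nat_lit 65652) (nat_lit 27) (.e (nat_lit 425984) (nat_lit 0) (.e (nat_lit 7588) (nat_lit 406) (.e (nat_lit 65633) (nat_lit 15) (.e (nat_lit 7086) (nat_lit 379) .nil)))))) (.g (nat_lit 0) .nil .nil))))))) (.nd (nat_lit 2) (.nd (nat_lit 3) (.nd (nat_lit 4) (.nd (nat_lit 5) 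
(.lf (nat_lit 245122) (.g (nat_lit 2250) (.e (nat_lit 123212) (nat_lit 273) (.e (nat_lit 57464) (nat_lit 23) (.e (nat_lit 516151) (nat_lit 9) (.e (nat_lit 426215) (nat_lit 9) .nil)))) .nil)) 
(.lf (nat_lit 245154) (.g (nat_lit 2102) (.e (nat_lit 123212) (nat_lit 273) (.e (nat_lit 57479) (nat_lit 28) (.e (nat_lit 557105) (nat_lit 14) (.e (nat_lit 180264) (nat_lit 21) .nil)))) .nil))) (.nd (nat_lit 5) 
(.lf (nat_lit 245138) (.g (nat_lit 2688) (.e (nat_lit 123212) (nat_lit 273) (.e (nat_lit 57464) (nat_lit 23) (.e (nat_lit 516151) (nat_lit 9) (.e (nat_lit 426338) (nat_lit 14) (.e (nat_lit 491540) (nat_lit 3) (.e (nat_lit 106240) (nat_lit 17) (.e (nat_lit 7088) (nat_lit 379) .nil))))))) (.g (nat_lit 4) .nil .nil))) 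
(.lf (nat_lit 245170) (.g (nat_lit 720) (.e (nat_lit 123213) (nat_lit 274) (.e (nat_lit 65632) (nat_lit 15) (.e (nat_lit 7082) (nat_lit 378) (.e (nat_lit 57897) (nat_lit 274) (.e (nat_lit 65633) (nat_lit 15) (.e (nat_lit 7086) (nat_lit 379) .nil)))))) (.g (nat_lit 0) .nil .nil))))) (.nd (nat_lit 4) (.nd (nat_lit 5) 
(.lf (nat_lit 245130) (.g (nat_lit 3327) (.e (nat_lit 123212) (nat_lit 273) (.e (nat_lit 57464) (nat_lit 23) (.e (nat_lit 516151) (nat_lit 9) (.e (nat_lit 426286) (nat_lit 10) (.e (nat_lit 434245) (nat_lit 28) (.e (nat_lit 573468) (nat_lit 10) (.e (nat_lit 8497) (nat_lit 182) .nil))))))) (.g (nat_lit 7) .nil .nil))) 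
(.lf (nat_lit 245162) (.g (nat_lit 2113) (.e (nat_lit 123213) (nat_lit 274) (.e (nat_lit 65571) (nat_lit 3) (.e (nat_lit 98389) (nat_lit 33) (.e (nat_lit 491546) (nat_lit 9) .nil)))) .nil))) (.nd (nat_lit 5) 
(.lf (nat_lit 245146) (.g (nat_lit 1675) (.e (nat_lit 123212) (nat_lit 273) (.e (nat_lit 57464) (nat_lit 23) (.e (nat_lit 516165) (nat_lit 12) (.e (nat_lit 450579) (nat_lit 5) (.e (nat_lit 540416) (nat_lit 0) (.e (nat_lit 6226) (nat_lit 334) .nil)))))) (.g (nat_lit 4) .nil .nil))) 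
(.lf (nat_lit 245178) (.g (nat_lit 893) (.e (nat_lit 123213) (nat_lit 274) (.e (nat_lit 65648) (nat_lit 26) (.e (nat_lit 417795) (nat_lit 0) (.e (nat_lit 5405) (nat_lit 302) (.e (nat_lit 65633) (nat_lit 15) (.e (nat_lit 7086) (nat_lit 379) .nil)))))) (.g (nat_lit 0) .nil .nil)))))) (.nd (nat_lit 3) (.nd (nat_lit 4) (.nd (nat_lit 5) 
(.lf (nat_lit 245126) (.g (nat_lit 3159) (.e (nat_lit 123212) (nat_lit 273) (.e (nat_lit 57464) (nat_lit 23) (.e (nat_lit 516151) (nat_lit 9) (.e (nat_lit 426285) (nat_lit 10) (.e (nat_lit 434227) (nat_lit 20) .nil))))) .nil)) 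
(.lf (nat_lit 245158) (.g (nat_lit 1130) (.e (nat_lit 123213) (nat_lit 274) (.e (nat_lit 65565) (nat_lit 1) (.e (nat_lit 57655) (nat_lit 152) (.e (nat_lit 1216) (nat_lit 90) (.e (nat_lit 81921) (nat_lit 0) (.e (nat_lit 7088) (nat_lit 379) .nil)))))) (.g (nat_lit 4) .nil .nil)))) (.nd (nat_lit 5) 
(.lf (nat_lit 245142) (.g (nat_lit 2021) (.e (nat_lit 123212) (nat_lit 273) (.e (nat_lit 57464) (nat_lit 23) (.e (nat_lit 516165) (nat_lit 12) (.e (nat_lit 450579) (nat_lit 5) (.e (nat_lit 532480) (nat_lit 0) (.e (nat_lit 6227) (nat_lit 334) .nil)))))) (.g (nat_lit 6) .nil .nil))) 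
(.lf (nat_lit 245174) (.g (nat_lit 1219) (.e (nat_lit 123213) (nat_lit 274) (.e (nat_lit 65633) (nat_lit 15) (.e (nat_lit 7088) (nat_lit 379) (.e (nat_lit 123213) (nat_lit 274) (.e (nat_lit 65633) (nat_lit 15) (.e (nat_lit 7089) (nat_lit 379) .nil)))))) (.g (nat_lit 0) .nil .nil))))) (.nd (nat_lit 4) (.nd (nat_lit 5) 
(.lf (nat_lit 245134) (.g (nat_lit 2154) (.e (nat_lit 123212) (nat_lit 273) (.e (nat_lit 57464) (nat_lit 23) (.e (nat_lit 516151) (nat_lit 9) (.e (nat_lit 426290) (nat_lit 10) .nil)))) .nil)) 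
(.lf (nat_lit 245166) (.g (nat_lit 748) (.e (nat_lit 123213) (nat_lit 274) (.e (nat_lit 65632) (nat_lit 15) (.e (nat_lit 7077) (nat_lit 378) (.e (nat_lit 57897) (nat_lit 274) (.e (nat_lit 65633) (nat_lit 15) (.e (nat_lit 7086) (nat_lit 379) .nil)))))) (.g (nat_lit 0) .nil .nil)))) (.nd (nat_lit 5) 
(.lf (nat_lit 245150) (.g (nat_lit 1477) (.e (nat_lit 123212) (nat_lit 273) (.e (nat_lit 57464) (nat_lit 23) (.e (nat_lit 516166) (nat_lit 12) (.e (nat_lit 450576) (nat_lit 2) (.e (nat_lit 507934) (nat_lit 10) .nil))))) .nil)) 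
(.lf (nat_lit 245182) (.g (nat_lit 1052) (.e (nat_lit 123213) (nat_lit 274) (.e (nat_lit 65653) (nat_lit 27) (.e (nat_lit 426009) (nat_lit 0) (.e (nat_lit 7587) (nat_lit 406) (.e (nat_lit 65633) (nat_lit 15) .nil))))) .nil))))))) (.nd (nat_lit 1) (.nd (nat_lit 2) (.nd (nat_lit 3) (.nd (nat_lit 4) (.nd (nat_lit 5) 
(.lf (nat_lit 245121) (.g (nat_lit 2275) (.e (nat_lit 123212) (nat_lit 273) (.e (nat_lit 57464) (nat_lit 23) (.e (nat_lit 516151) (nat_lit 9) (.e (nat_lit 426214) (nat_lit 9) .nil)))) .nil)) 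
(.lf (nat_lit 245153) (.g (nat_lit 2077) (.e (nat_lit 123212) (nat_lit 273) (.e (nat_lit 57479) (nat_lit 28) (.e (nat_lit 557105) (nat_lit 14) (.e (nat_lit 180227) (nat_lit 0) .nil)))) .nil))) (.nd (nat_lit 5) 
(.lf (nat_lit 245137) (.g (nat_lit 3136) (.e (nat_lit 123212) (nat_lit 273) (.e (nat_lit 57464) (nat_lit 23) (.e (nat_lit 516151) (nat_lit 9) (.e (nat_lit 426338) (nat_lit 14) (.e (nat_lit 491540) (nat_lit 3) (.e (nat_lit 98325) (nat_lit 17) (.e (nat_lit 7083) (nat_lit 379) .nil))))))) (.g (nat_lit 5) .nil .nil))) 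
(.lf (nat_lit 245169) (.g (nat_lit 894) (.e (nat_lit 123213) (nat_lit 274) (.e (nat_lit 65632) (nat_lit 15) (.e (nat_lit 7081) (nat_lit 378) (.e (nat_lit 57897) (nat_lit 274) (.e (nat_lit 65633) (nat_lit 15) (.e (nat_lit 7089) (nat_lit 379) .nil)))))) (.g (nat_lit 0) .nil .nil))))) (.nd (nat_lit 4) (.nd (nat_lit 5) 
(.lf (nat_lit 245129) (.g (nat_lit 3088) (.e (nat_lit 123212) (nat_lit 273) (.e (nat_lit 57464) (nat_lit 23) (.e (nat_lit 516151) (nat_lit 9) (.e (nat_lit 426286) (nat_lit 10) (.e (nat_lit 434245) (nat_lit 28) (.e (nat_lit 573458) (nat_lit 9) (.e (nat_lit 48) (nat_lit 0) (.e (nat_lit 7083) (nat_lit 379) .nil)))))))) (.g (nat_lit 6) .nil .nil))) 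
(.lf (nat_lit 245161) (.g (nat_lit 840) (.e (nat_lit 123213) (nat_lit 274) (.e (nat_lit 65571) (nat_lit 3) (.e (nat_lit 98389) (nat_lit 33) .nil))) .nil))) (.nd (nat_lit 5) 
(.lf (nat_lit 245145) (.g (nat_lit 1657) (.e (nat_lit 123212) (nat_lit 273) (.e (nat_lit 57464) (nat_lit 23) (.e (nat_lit 516165) (nat_lit 12) (.e (nat_lit 450579) (nat_lit 5) (.e (nat_lit 532489) (nat_lit 0) (.e (nat_lit 7936) (nat_lit 334) .nil)))))) (.g (nat_lit 5) .nil .nil))) 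
(.lf (nat_lit 245177) (.g (nat_lit 745) (.e (nat_lit 123213) (nat_lit 274) (.e (nat_lit 65648) (nat_lit 26) (.e (nat_lit 417793) (nat_lit 0) (.e (nat_lit 5405) (nat_lit 302) (.e (nat_lit 65633) (nat_lit 15) (.e (nat_lit 7086) (nat_lit 379) .nil)))))) (.g (nat_lit 0) .nil .nil)))))) (.nd (nat_lit 3) (.nd (nat_lit 4) (.nd (nat_lit 5) 
(.lf (nat_lit 245125) (.g (nat_lit 2280) (.e (nat_lit 123212) (nat_lit 273) (.e (nat_lit 57464) (nat_lit 23) (.e (nat_lit 516151) (nat_lit 9) (.e (nat_lit 426219) (nat_lit 9) .nil)))) .nil)) 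
(.lf (nat_lit 245157) (.g (nat_lit 1724) (.e (nat_lit 130816) (nat_lit 273) (.e (nat_lit 57464) (nat_lit 23) (.e (nat_lit 516163) (nat_lit 11) (.e (nat_lit 442424) (nat_lit 22) (.e (nat_lit 196661) (nat_lit 12) .nil))))) .nil))) (.nd (nat_lit 5) 
(.lf (nat_lit 245141) (.g (nat_lit 1255) (.e (nat_lit 123212) (nat_lit 273) (.e (nat_lit 57464) (nat_lit 23) (.e (nat_lit 516165) (nat_lit 12) (.e (nat_lit 450576) (nat_lit 2) (.e (nat_lit 507934) (nat_lit 10) .nil))))) .nil)) 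
(.lf (nat_lit 245173) (.g (nat_lit 1097) (.e (nat_lit 123213) (nat_lit 274) (.e (nat_lit 65633) (nat_lit 15) (.e (nat_lit 7088) (nat_lit 379) (.e (nat_lit 123213) (nat_lit 274) (.e (nat_lit 65633) (nat_lit 15) (.e (nat_lit 7086) (nat_lit 379) .nil)))))) (.g (nat_lit 0) .nil .nil))))) (.nd (nat_lit 4) (.nd (nat_lit 5) 
(.lf (nat_lit 245133) (.g (nat_lit 3121) (.e (nat_lit 123212) (nat_lit 273) (.e (nat_lit 57464) (nat_lit 23) (.e (nat_lit 516151) (nat_lit 9) (.e (nat_lit 426286) (nat_lit 10) (.e (nat_lit 434248) (nat_lit 28) (.e (nat_lit 573452) (nat_lit 9) (.e (nat_lit 61) (nat_lit 0) (.e (nat_lit 7089) (nat_lit 379) .nil)))))))) (.g (nat_lit 7) .nil .nil))) 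
(.lf (nat_lit 245165) (.g (nat_lit 1506) (.e (nat_lit 123213) (nat_lit 274) (.e (nat_lit 65580) (nat_lit 6) (.e (nat_lit 147467) (nat_lit 9) (.e (nat_lit 314) (nat_lit 23) (.e (nat_lit 352264) (nat_lit 0) .nil))))) .nil))) (.nd (nat_lit 5) 
(.lf (nat_lit 245149) (.g (nat_lit 1000) (.e (nat_lit 123212) (nat_lit 273) (.e (nat_lit 57464) (nat_lit 23) (.e (nat_lit 516166) (nat_lit 12) (.e (nat_lit 458496) (nat_lit 1) .nil)))) .nil)) 
(.lf (nat_lit 245181) (.g (nat_lit 738) (.e (nat_lit 123213) (nat_lit 274) (.e (nat_lit 65652) (nat_lit 27) (.e (nat_lit 425989) (nat_lit 0) (.e (nat_lit 7588) (nat_lit 406) (.e (nat_lit 65633) (nat_lit 15) (.e (nat_lit 7086) (nat_lit 379) .nil)))))) (.g (nat_lit 0) .nil .nil))))))) (.nd (nat_lit 2) (.nd (nat_lit 3) (.nd (nat_lit 4) (.nd (nat_lit 5) 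
(.lf (nat_lit 245123) (.g (nat_lit 2025) (.e (nat_lit 123212) (nat_lit 273) (.e (nat_lit 57464) (nat_lit 23) (.e (nat_lit 516151) (nat_lit 9) (.e (nat_lit 426216) (nat_lit 9) .nil)))) .nil)) 
(.lf (nat_lit 245155) (.g (nat_lit 2710) (.e (nat_lit 123212) (nat_lit 273) (.e (nat_lit 57479) (nat_lit 28) (.e (nat_lit 557105) (nat_lit 14) (.e (nat_lit 180265) (nat_lit 21) (.e (nat_lit 663566) (nat_lit 4) .nil))))) .nil))) (.nd (nat_lit 5) 
(.lf (nat_lit 245139) (.g (nat_lit 2878) (.e (nat_lit 123212) (nat_lit 273) (.e (nat_lit 57464) (nat_lit 23) (.e (nat_lit 516163) (nat_lit 11) (.e (nat_lit 442424) (nat_lit 22) (.e (nat_lit 196661) (nat_lit 12) (.e (nat_lit 57722) (nat_lit 178) .nil)))))) (.g (nat_lit 6) .nil .nil))) 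
(.lf (nat_lit 245171) (.g (nat_lit 843) (.e (nat_lit 123213) (nat_lit 274) (.e (nat_lit 65632) (nat_lit 15) (.e (nat_lit 7082) (nat_lit 378) (.e (nat_lit 57897) (nat_lit 274) (.e (nat_lit 65633) (nat_lit 15) (.e (nat_lit 7089) (nat_lit 379) .nil)))))) (.g (nat_lit 0) .nil .nil))))) (.nd (nat_lit 4) (.nd (nat_lit 5) 
(.lf (nat_lit 245131) (.g (nat_lit 1758) (.e (nat_lit 123212) (nat_lit 273) (.e (nat_lit 57464) (nat_lit 23) (.e (nat_lit 516151) (nat_lit 9) (.e (nat_lit 426286) (nat_lit 10) (.e (nat_lit 434247) (nat_lit 28) (.e (nat_lit 573457) (nat_lit 9) (.e (nat_lit 7936) (nat_lit 0) (.e (nat_lit 7089) (nat_lit 379) .nil)))))))) (.g (nat_lit 4) .nil .nil))) 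
(.lf (nat_lit 245163) (.g (nat_lit 2848) (.e (nat_lit 123213) (nat_lit 274) (.e (nat_lit 65571) (nat_lit 3) (.e (nat_lit 98389) (nat_lit 33) (.e (nat_lit 491546) (nat_lit 9) (.e (nat_lit 336013) (nat_lit 2) (.e (nat_lit 98048) (nat_lit 20) .nil)))))) (.g (nat_lit 5) .nil .nil)))) (.nd (nat_lit 5) 
(.lf (nat_lit 245147) (.g (nat_lit 1581) (.e (nat_lit 123212) (nat_lit 273) (.e (nat_lit 57464) (nat_lit 23) (.e (nat_lit 516165) (nat_lit 12) (.e (nat_lit 450586) (nat_lit 10) (.e (nat_lit 573452) (nat_lit 9) (.e (nat_lit 11) (nat_lit 0) (.e (nat_lit 7089) (nat_lit 379) .nil))))))) (.g (nat_lit 4) .nil .nil))) 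
(.lf (nat_lit 245179) (.g (nat_lit 1010) (.e (nat_lit 123213) (nat_lit 274) (.e (nat_lit 65648) (nat_lit 26) (.e (nat_lit 417795) (nat_lit 0) (.e (nat_lit 5405) (nat_lit 302) (.e (nat_lit 65633) (nat_lit 15) (.e (nat_lit 7089) (nat_lit 379) .nil)))))) (.g (nat_lit 0) .nil .nil)))))) (.nd (nat_lit 3) (.nd (nat_lit 4) (.nd (nat_lit 5) 
(.lf (nat_lit 245127) (.g (nat_lit 1561) (.e (nat_lit 123212) (nat_lit 273) (.e (nat_lit 57464) (nat_lit 23) (.e (nat_lit 516151) (nat_lit 9) (.e (nat_lit 426286) (nat_lit 10) (.e (nat_lit 434231) (nat_lit 23) .nil))))) .nil)) 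
(.lf (nat_lit 245159) (.g (nat_lit 1032) (.e (nat_lit 123213) (nat_lit 274) (.e (nat_lit 65565) (nat_lit 1) (.e (nat_lit 57684) (nat_lit 155) (.e (nat_lit 122914) (nat_lit 14) (.e (nat_lit 352258) (nat_lit 0) .nil))))) .nil))) (.nd (nat_lit 5) 
(.lf (nat_lit 245143) (.g (nat_lit 1994) (.e (nat_lit 123212) (nat_lit 273) (.e (nat_lit 57464) (nat_lit 23) (.e (nat_lit 516165) (nat_lit 12) (.e (nat_lit 450579) (nat_lit 5) (.e (nat_lit 532484) (nat_lit 0) (.e (nat_lit 7936) (nat_lit 334) .nil)))))) (.g (nat_lit 5) .nil .nil))) 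
(.lf (nat_lit 245175) (.g (nat_lit 1210) (.e (nat_lit 123213) (nat_lit 274) (.e (nat_lit 65633) (nat_lit 15) (.e (nat_lit 7089) (nat_lit 379) (.e (nat_lit 123213) (nat_lit 274) (.e (nat_lit 65633) (nat_lit 15) (.e (nat_lit 7089) (nat_lit 379) .nil)))))) (.g (nat_lit 0) .nil .nil))))) (.nd (nat_lit 4) (.nd (nat_lit 5) 
(.lf (nat_lit 245135) (.g (nat_lit 2452) (.e (nat_lit 123212) (nat_lit 273) (.e (nat_lit 57464) (nat_lit 23) (.e (nat_lit 516151) (nat_lit 9) (.e (nat_lit 426338) (nat_lit 14) (.e (nat_lit 491537) (nat_lit 2) .nil))))) .nil)) 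
(.lf (nat_lit 245167) (.g (nat_lit 870) (.e (nat_lit 123213) (nat_lit 274) (.e (nat_lit 65632) (nat_lit 15) (.e (nat_lit 7077) (nat_lit 378) (.e (nat_lit 57897) (nat_lit 274) (.e (nat_lit 65633) (nat_lit 15) (.e (nat_lit 7089) (nat_lit 379) .nil)))))) (.g (nat_lit 0) .nil .nil)))) (.nd (nat_lit 5) 
(.lf (nat_lit 245151) (.g (nat_lit 3002) (.e (nat_lit 123212) (nat_lit 273) (.e (nat_lit 57464) (nat_lit 23) (.e (nat_lit 516166) (nat_lit 12) (.e (nat_lit 450588) (nat_lit 10) (.e (nat_lit 573457) (nat_lit 9) (.e (nat_lit 16) (nat_lit 0) (.e (nat_lit 7088) (nat_lit 379) .nil))))))) (.g (nat_lit 6) .nil .nil))) 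
(.lf (nat_lit 245183) (.g (nat_lit 1228) (.e (nat_lit 123213) (nat_lit 274) (.e (nat_lit 65653) (nat_lit 27) (.e (nat_lit 426009) (nat_lit 0) (.e (nat_lit 7589) (nat_lit 406) (.e (nat_lit 65633) (nat_lit 15) (.e (nat_lit 7086) (nat_lit 379) .nil)))))) (.g (nat_lit 0) .nil .nil)))))))))

noncomputable def tv3189 : DT := (.nd (nat_lit 0) (.nd (nat_lit 1) (.nd (nat_lit 2) (.nd (nat_lit 3) (.nd (nat_lit 4) (.nd (nat_lit 5) 
(.lf (nat_lit 245184) (.g (nat_lit 448) (.e (nat_lit 123213) (nat_lit 274) (.e (nat_lit 65653) (nat_lit 27) (.e (nat_lit 426009) (nat_lit 0) (.e (nat_lit 7936) (nat_lit 406) .nil)))) .nil)) 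
(.lf (nat_lit 245216) (.g (nat_lit 1957) (.e (nat_lit 123214) (nat_lit 275) (.e (nat_lit 73731) (nat_lit 0) (.e (nat_lit 7125) (nat_lit 382) (.e (nat_lit 1222) (nat_lit 90) (.e (nat_lit 81921) (nat_lit 0) .nil))))) .nil))) (.nd (nat_lit 5) 
(.lf (nat_lit 245200) (.g (nat_lit 1156) (.e (nat_lit 123213) (nat_lit 274) (.e (nat_lit 65653) (nat_lit 27) (.e (nat_lit 426343) (nat_lit 14) (.e (nat_lit 491546) (nat_lit 9) .nil)))) .nil)) 
(.lf (nat_lit 245232) (.g (nat_lit 1550) (.e (nat_lit 123214) (nat_lit 275) (.e (nat_lit 73733) (nat_lit 0) (.e (nat_lit 7272) (nat_lit 385) (.e (nat_lit 122914) (nat_lit 14) (.e (nat_lit 352258) (nat_lit 0) (.e (nat_lit 7089) (nat_lit 379) .nil)))))) (.g (nat_lit 4) .nil .nil))))) (.nd (nat_lit 4) (.nd (nat_lit 5) 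
(.lf (nat_lit 245192) (.g (nat_lit 1691) (.e (nat_lit 123213) (nat_lit 274) (.e (nat_lit 65653) (nat_lit 27) (.e (nat_lit 426012) (nat_lit 0) (.e (nat_lit 7587) (nat_lit 406) (.e (nat_lit 65633) (nat_lit 15) (.e (nat_lit 7086) (nat_lit 379) .nil)))))) (.g (nat_lit 5) .nil .nil))) 
(.lf (nat_lit 245224) (.g (nat_lit 1755) (.e (nat_lit 123214) (nat_lit 275) (.e (nat_lit 73733) (nat_lit 0) (.e (nat_lit 7270) (nat_lit 385) (.e (nat_lit 122914) (nat_lit 14) (.e (nat_lit 352258) (nat_lit 0) .nil))))) .nil))) (.nd (nat_lit 5) 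
(.lf (nat_lit 245208) (.g (nat_lit 1157) (.e (nat_lit 123213) (nat_lit 274) (.e (nat_lit 65653) (nat_lit 27) (.e (nat_lit 426344) (nat_lit 14) (.e (nat_lit 491552) (nat_lit 9) .nil)))) .nil)) 
(.lf (nat_lit 245240) (.g (nat_lit 1986) (.e (nat_lit 123214) (nat_lit 275) (.e (nat_lit 73746) (nat_lit 3) (.e (nat_lit 516195) (nat_lit 26) (.e (nat_lit 335995) (nat_lit 1) (.e (nat_lit 57848) (nat_lit 252) .nil))))) .nil))))) (.nd (nat_lit 3) (.nd (nat_lit 4) (.nd (nat_lit 5) 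
(.lf (nat_lit 245188) (.g (nat_lit 2384) (.e (nat_lit 123213) (nat_lit 274) (.e (nat_lit 65653) (nat_lit 27) (.e (nat_lit 426011) (nat_lit 0) (.e (nat_lit 7587) (nat_lit 406) (.e (nat_lit 65633) (nat_lit 15) (.e (nat_lit 7087) (nat_lit 379) .nil)))))) (.g (nat_lit 5) .nil .nil))) 
(.lf (nat_lit 245220) (.g (nat_lit 1865) (.e (nat_lit 123214) (nat_lit 275) (.e (nat_lit 73732) (nat_lit 0) (.e (nat_lit 7270) (nat_lit 385) (.e (nat_lit 122916) (nat_lit 14) (.e (nat_lit 352258) (nat_lit 0) (.e (nat_lit 7087) (nat_lit 379) .nil)))))) (.g (nat_lit 6) .nil .nil)))) (.nd (nat_lit 5) 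
(.lf (nat_lit 245204) (.g (nat_lit 2186) (.e (nat_lit 123213) (nat_lit 274) (.e (nat_lit 65653) (nat_lit 27) (.e (nat_lit 426343) (nat_lit 14) (.e (nat_lit 491552) (nat_lit 9) (.e (nat_lit 336253) (nat_lit 15) (.e (nat_lit 7087) (nat_lit 379) .nil)))))) (.g (nat_lit 6) .nil .nil))) 
(.lf (nat_lit 245236) (.g (nat_lit 1575) (.e (nat_lit 123214) (nat_lit 275) (.e (nat_lit 73746) (nat_lit 3) (.e (nat_lit 516146) (nat_lit 9) (.e (nat_lit 426448) (nat_lit 20) .nil)))) .nil)))) (.nd (nat_lit 4) (.nd (nat_lit 5) 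
(.lf (nat_lit 245196) (.g (nat_lit 2854) (.e (nat_lit 123213) (nat_lit 274) (.e (nat_lit 65653) (nat_lit 27) (.e (nat_lit 426338) (nat_lit 14) (.e (nat_lit 491566) (nat_lit 12) (.e (nat_lit 385039) (nat_lit 18) .nil))))) .nil)) 
(.lf (nat_lit 245228) (.g (nat_lit 2030) (.e (nat_lit 123214) (nat_lit 275) (.e (nat_lit 73733) (nat_lit 0) (.e (nat_lit 7270) (nat_lit 385) (.e (nat_lit 122916) (nat_lit 14) (.e (nat_lit 352258) (nat_lit 0) .nil))))) .nil))) (.nd (nat_lit 5) 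
(.lf (nat_lit 245212) (.g (nat_lit 1454) (.e (nat_lit 123214) (nat_lit 275) (.e (nat_lit 73729) (nat_lit 0) (.e (nat_lit 7124) (nat_lit 382) (.e (nat_lit 1222) (nat_lit 90) .nil)))) .nil)) 
(.lf (nat_lit 245244) (.g (nat_lit 2003) (.e (nat_lit 123214) (nat_lit 275) (.e (nat_lit 73751) (nat_lit 7) (.e (nat_lit 548889) (nat_lit 9) (.e (nat_lit 65598) (nat_lit 9) (.e (nat_lit 336013) (nat_lit 2) (.e (nat_lit 98048) (nat_lit 20) .nil)))))) (.g (nat_lit 5) .nil .nil))))))) (.nd (nat_lit 2) (.nd (nat_lit 3) (.nd (nat_lit 4) (.nd (nat_lit 5) 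
(.lf (nat_lit 245186) (.g (nat_lit 606) (.e (nat_lit 123213) (nat_lit 274) (.e (nat_lit 65653) (nat_lit 27) (.e (nat_lit 426010) (nat_lit 0) (.e (nat_lit 7936) (nat_lit 406) .nil)))) .nil)) 
(.lf (nat_lit 245218) (.g (nat_lit 1657) (.e (nat_lit 123214) (nat_lit 275) (.e (nat_lit 73732) (nat_lit 0) (.e (nat_lit 7270) (nat_lit 385) (.e (nat_lit 122914) (nat_lit 14) (.e (nat_lit 352258) (nat_lit 0) (.e (nat_lit 7086) (nat_lit 379) .nil)))))) (.g (nat_lit 0) .nil .nil)))) (.nd (nat_lit 5) 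
(.lf (nat_lit 245202) (.g (nat_lit 1682) (.e (nat_lit 123213) (nat_lit 274) (.e (nat_lit 65653) (nat_lit 27) (.e (nat_lit 426343) (nat_lit 14) (.e (nat_lit 491552) (nat_lit 9) (.e (nat_lit 336248) (nat_lit 15) .nil))))) .nil)) 
(.lf (nat_lit 245234) (.g (nat_lit 1286) (.e (nat_lit 123214) (nat_lit 275) (.e (nat_lit 73733) (nat_lit 0) (.e (nat_lit 7273) (nat_lit 385) (.e (nat_lit 122914) (nat_lit 14) (.e (nat_lit 352258) (nat_lit 0) (.e (nat_lit 7089) (nat_lit 379) .nil)))))) (.g (nat_lit 0) .nil .nil))))) (.nd (nat_lit 4) (.nd (nat_lit 5) 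
(.lf (nat_lit 245194) (.g (nat_lit 1166) (.e (nat_lit 123213) (nat_lit 274) (.e (nat_lit 65653) (nat_lit 27) (.e (nat_lit 426012) (nat_lit 0) (.e (nat_lit 7587) (nat_lit 406) (.e (nat_lit 73472) (nat_lit 15) (.e (nat_lit 7089) (nat_lit 379) .nil)))))) (.g (nat_lit 4) .nil .nil))) 
(.lf (nat_lit 245226) (.g (nat_lit 1781) (.e (nat_lit 123214) (nat_lit 275) (.e (nat_lit 73733) (nat_lit 0) (.e (nat_lit 7270) (nat_lit 385) (.e (nat_lit 122914) (nat_lit 14) (.e (nat_lit 352258) (nat_lit 0) (.e (nat_lit 7088) (nat_lit 379) .nil)))))) (.g (nat_lit 4) .nil .nil)))) (.nd (nat_lit 5) 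
(.lf (nat_lit 245210) (.g (nat_lit 2664) (.e (nat_lit 123213) (nat_lit 274) (.e (nat_lit 65653) (nat_lit 27) (.e (nat_lit 426344) (nat_lit 14) (.e (nat_lit 491563) (nat_lit 12) (.e (nat_lit 385039) (nat_lit 18) .nil))))) .nil)) 
(.lf (nat_lit 245242) (.g (nat_lit 2019) (.e (nat_lit 123214) (nat_lit 275) (.e (nat_lit 73747) (nat_lit 3) (.e (nat_lit 516185) (nat_lit 16) (.e (nat_lit 491546) (nat_lit 9) (.e (nat_lit 336013) (nat_lit 2) .nil))))) .nil))))) (.nd (nat_lit 3) (.nd (nat_lit 4) (.nd (nat_lit 5) 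
(.lf (nat_lit 245190) (.g (nat_lit 2173) (.e (nat_lit 123213) (nat_lit 274) (.e (nat_lit 65653) (nat_lit 27) (.e (nat_lit 426011) (nat_lit 0) (.e (nat_lit 7589) (nat_lit 406) (.e (nat_lit 65633) (nat_lit 15) (.e (nat_lit 7086) (nat_lit 379) .nil)))))) (.g (nat_lit 0) .nil .nil))) 
(.lf (nat_lit 245222) (.g (nat_lit 1594) (.e (nat_lit 123214) (nat_lit 275) (.e (nat_lit 73732) (nat_lit 0) (.e (nat_lit 7271) (nat_lit 385) (.e (nat_lit 122916) (nat_lit 14) (.e (nat_lit 352258) (nat_lit 0) (.e (nat_lit 7086) (nat_lit 379) .nil)))))) (.g (nat_lit 5) .nil .nil)))) (.nd (nat_lit 5) 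
(.lf (nat_lit 245206) (.g (nat_lit 1949) (.e (nat_lit 123213) (nat_lit 274) (.e (nat_lit 65653) (nat_lit 27) (.e (nat_lit 426343) (nat_lit 14) (.e (nat_lit 491562) (nat_lit 12) .nil)))) .nil)) 
(.lf (nat_lit 245238) (.g (nat_lit 1637) (.e (nat_lit 123214) (nat_lit 275) (.e (nat_lit 73746) (nat_lit 3) (.e (nat_lit 516184) (nat_lit 16) (.e (nat_lit 491546) (nat_lit 9) .nil)))) .nil)))) (.nd (nat_lit 4) (.nd (nat_lit 5) 
(.lf (nat_lit 245198) (.g (nat_lit 934) (.e (nat_lit 123213) (nat_lit 274) (.e (nat_lit 65653) (nat_lit 27) (.e (nat_lit 426342) (nat_lit 14) (.e (nat_lit 491552) (nat_lit 9) (.e (nat_lit 336253) (nat_lit 15) .nil))))) .nil)) 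
(.lf (nat_lit 245230) (.g (nat_lit 1526) (.e (nat_lit 123214) (nat_lit 275) (.e (nat_lit 73733) (nat_lit 0) (.e (nat_lit 7272) (nat_lit 385) (.e (nat_lit 122914) (nat_lit 14) (.e (nat_lit 352258) (nat_lit 0) .nil))))) .nil))) (.nd (nat_lit 5) 
(.lf (nat_lit 245214) (.g (nat_lit 1944) (.e (nat_lit 123214) (nat_lit 275) (.e (nat_lit 73729) (nat_lit 0) (.e (nat_lit 7265) (nat_lit 384) (.e (nat_lit 57423) (nat_lit 14) (.e (nat_lit 352258) (nat_lit 0) (.e (nat_lit 7086) (nat_lit 379) .nil)))))) (.g (nat_lit 0) .nil .nil))) 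
(.lf (nat_lit 245246) (.g (nat_lit 2160) (.e (nat_lit 123214) (nat_lit 275) (.e (nat_lit 73753) (nat_lit 8) (.e (nat_lit 557087) (nat_lit 11) (.e (nat_lit 24632) (nat_lit 9) .nil)))) .nil))))))) (.nd (nat_lit 1) (.nd (nat_lit 2) (.nd (nat_lit 3) (.nd (nat_lit 4) (.nd (nat_lit 5) 
(.lf (nat_lit 245185) (.g (nat_lit 1183) (.e (nat_lit 123213) (nat_lit 274) (.e (nat_lit 65653) (nat_lit 27) (.e (nat_lit 426010) (nat_lit 0) (.e (nat_lit 7587) (nat_lit 406) (.e (nat_lit 65633) (nat_lit 15) .nil))))) .nil)) 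
(.lf (nat_lit 245217) (.g (nat_lit 2028) (.e (nat_lit 123214) (nat_lit 275) (.e (nat_lit 73731) (nat_lit 0) (.e (nat_lit 7266) (nat_lit 384) (.e (nat_lit 57423) (nat_lit 14) (.e (nat_lit 352258) (nat_lit 0) .nil))))) .nil))) (.nd (nat_lit 5) 
(.lf (nat_lit 245201) (.g (nat_lit 1166) (.e (nat_lit 123213) (nat_lit 274) (.e (nat_lit 65653) (nat_lit 27) (.e (nat_lit 426343) (nat_lit 14) (.e (nat_lit 491552) (nat_lit 9) .nil)))) .nil)) 
(.lf (nat_lit 245233) (.g (nat_lit 1741) (.e (nat_lit 123214) (nat_lit 275) (.e (nat_lit 73733) (nat_lit 0) (.e (nat_lit 7272) (nat_lit 385) (.e (nat_lit 122916) (nat_lit 14) (.e (nat_lit 352258) (nat_lit 0) .nil))))) .nil)))) (.nd (nat_lit 4) (.nd (nat_lit 5) 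
(.lf (nat_lit 245193) (.g (nat_lit 1704) (.e (nat_lit 123213) (nat_lit 274) (.e (nat_lit 65653) (nat_lit 27) (.e (nat_lit 426012) (nat_lit 0) (.e (nat_lit 7587) (nat_lit 406) (.e (nat_lit 65633) (nat_lit 15) (.e (nat_lit 7087) (nat_lit 379) .nil)))))) (.g (nat_lit 5) .nil .nil))) 
(.lf (nat_lit 245225) (.g (nat_lit 1768) (.e (nat_lit 123214) (nat_lit 275) (.e (nat_lit 73733) (nat_lit 0) (.e (nat_lit 7270) (nat_lit 385) (.e (nat_lit 122914) (nat_lit 14) (.e (nat_lit 352258) (nat_lit 0) (.e (nat_lit 7087) (nat_lit 379) .nil)))))) (.g (nat_lit 4) .nil .nil)))) (.nd (nat_lit 5) 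
(.lf (nat_lit 245209) (.g (nat_lit 1748) (.e (nat_lit 123213) (nat_lit 274) (.e (nat_lit 65653) (nat_lit 27) (.e (nat_lit 426344) (nat_lit 14) (.e (nat_lit 491556) (nat_lit 9) (.e (nat_lit 343808) (nat_lit 15) .nil))))) .nil)) 
(.lf (nat_lit 245241) (.g (nat_lit 797) (.e (nat_lit 123214) (nat_lit 275) (.e (nat_lit 73747) (nat_lit 3) (.e (nat_lit 516184) (nat_lit 16) .nil))) .nil))))) (.nd (nat_lit 3) (.nd (nat_lit 4) (.nd (nat_lit 5) 
(.lf (nat_lit 245189) (.g (nat_lit 1817) (.e (nat_lit 123213) (nat_lit 274) (.e (nat_lit 65653) (nat_lit 27) (.e (nat_lit 426011) (nat_lit 0) (.e (nat_lit 7587) (nat_lit 406) (.e (nat_lit 73472) (nat_lit 15) .nil))))) .nil)) 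
(.lf (nat_lit 245221) (.g (nat_lit 811) (.e (nat_lit 123214) (nat_lit 275) (.e (nat_lit 73732) (nat_lit 0) (.e (nat_lit 7271) (nat_lit 385) (.e (nat_lit 122916) (nat_lit 14) .nil)))) .nil))) (.nd (nat_lit 5) 
(.lf (nat_lit 245205) (.g (nat_lit 1814) (.e (nat_lit 123213) (nat_lit 274) (.e (nat_lit 65653) (nat_lit 27) (.e (nat_lit 426343) (nat_lit 14) (.e (nat_lit 491556) (nat_lit 9) (.e (nat_lit 343808) (nat_lit 15) .nil))))) .nil)) 
(.lf (nat_lit 245237) (.g (nat_lit 621) (.e (nat_lit 123214) (nat_lit 275) (.e (nat_lit 73746) (nat_lit 3) (.e (nat_lit 516183) (nat_lit 16) .nil))) .nil)))) (.nd (nat_lit 4) (.nd (nat_lit 5) 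
(.lf (nat_lit 245197) (.g (nat_lit 2367) (.e (nat_lit 123213) (nat_lit 274) (.e (nat_lit 65653) (nat_lit 27) (.e (nat_lit 426341) (nat_lit 14) (.e (nat_lit 491566) (nat_lit 12) (.e (nat_lit 385039) (nat_lit 18) .nil))))) .nil)) 
(.lf (nat_lit 245229) (.g (nat_lit 453) (.e (nat_lit 123214) (nat_lit 275) (.e (nat_lit 73733) (nat_lit 0) (.e (nat_lit 7271) (nat_lit 385) .nil))) .nil))) (.nd (nat_lit 5) 
(.lf (nat_lit 245213) (.g (nat_lit 1542) (.e (nat_lit 123214) (nat_lit 275) (.e (nat_lit 73729) (nat_lit 0) (.e (nat_lit 7261) (nat_lit 384) (.e (nat_lit 57423) (nat_lit 14) (.e (nat_lit 352258) (nat_lit 0) (.e (nat_lit 7086) (nat_lit 379) .nil)))))) (.g (nat_lit 0) .nil .nil))) 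
(.lf (nat_lit 245245) (.g (nat_lit 1968) (.e (nat_lit 123214) (nat_lit 275) (.e (nat_lit 73753) (nat_lit 8) (.e (nat_lit 557087) (nat_lit 11) (.e (nat_lit 24617) (nat_lit 7) .nil)))) .nil)))))) (.nd (nat_lit 2) (.nd (nat_lit 3) (.nd (nat_lit 4) (.nd (nat_lit 5) 
(.lf (nat_lit 245187) (.g (nat_lit 2373) (.e (nat_lit 123213) (nat_lit 274) (.e (nat_lit 65653) (nat_lit 27) (.e (nat_lit 426011) (nat_lit 0) (.e (nat_lit 7587) (nat_lit 406) (.e (nat_lit 65633) (nat_lit 15) (.e (nat_lit 7086) (nat_lit 379) .nil)))))) (.g (nat_lit 5) .nil .nil))) 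
(.lf (nat_lit 245219) (.g (nat_lit 1828) (.e (nat_lit 123214) (nat_lit 275) (.e (nat_lit 73732) (nat_lit 0) (.e (nat_lit 7270) (nat_lit 385) (.e (nat_lit 122916) (nat_lit 14) (.e (nat_lit 352258) (nat_lit 0) (.e (nat_lit 7086) (nat_lit 379) .nil)))))) (.g (nat_lit 6) .nil .nil)))) (.nd (nat_lit 5) 
(.lf (nat_lit 245203) (.g (nat_lit 2174) (.e (nat_lit 123213) (nat_lit 274) (.e (nat_lit 65653) (nat_lit 27) (.e (nat_lit 426343) (nat_lit 14) (.e (nat_lit 491552) (nat_lit 9) (.e (nat_lit 336253) (nat_lit 15) (.e (nat_lit 7086) (nat_lit 379) .nil)))))) (.g (nat_lit 6) .nil .nil))) 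
(.lf (nat_lit 245235) (.g (nat_lit 1087) (.e (nat_lit 123214) (nat_lit 275) (.e (nat_lit 73744) (nat_lit 2) (.e (nat_lit 507923) (nat_lit 6) (.e (nat_lit 286747) (nat_lit 9) (.e (nat_lit 336013) (nat_lit 2) (.e (nat_lit 98048) (nat_lit 20) .nil)))))) (.g (nat_lit 5) .nil .nil))))) (.nd (nat_lit 4) (.nd (nat_lit 5) 
(.lf (nat_lit 245195) (.g (nat_lit 2178) (.e (nat_lit 123213) (nat_lit 274) (.e (nat_lit 65653) (nat_lit 27) (.e (nat_lit 426012) (nat_lit 0) (.e (nat_lit 7589) (nat_lit 406) (.e (nat_lit 65633) (nat_lit 15) (.e (nat_lit 7086) (nat_lit 379) .nil)))))) (.g (nat_lit 0) .nil .nil))) 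
(.lf (nat_lit 245227) (.g (nat_lit 1796) (.e (nat_lit 123214) (nat_lit 275) (.e (nat_lit 73733) (nat_lit 0) (.e (nat_lit 7270) (nat_lit 385) (.e (nat_lit 122914) (nat_lit 14) (.e (nat_lit 352258) (nat_lit 0) (.e (nat_lit 7089) (nat_lit 379) .nil)))))) (.g (nat_lit 4) .nil .nil)))) (.nd (nat_lit 5) 
(.lf (nat_lit 245211) (.g (nat_lit 490) (.e (nat_lit 123214) (nat_lit 275) (.e (nat_lit 73729) (nat_lit 0) (.e (nat_lit 7124) (nat_lit 382) .nil))) .nil)) 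
(.lf (nat_lit 245243) (.g (nat_lit 1869) (.e (nat_lit 123214) (nat_lit 275) (.e (nat_lit 73747) (nat_lit 3) (.e (nat_lit 516195) (nat_lit 26) (.e (nat_lit 335995) (nat_lit 1) (.e (nat_lit 57848) (nat_lit 252) .nil))))) .nil))))) (.nd (nat_lit 3) (.nd (nat_lit 4) (.nd (nat_lit 5) 
(.lf (nat_lit 245191) (.g (nat_lit 1388) (.e (nat_lit 123213) (nat_lit 274) (.e (nat_lit 65653) (nat_lit 27) (.e (nat_lit 426011) (nat_lit 0) (.e (nat_lit 7589) (nat_lit 406) (.e (nat_lit 73472) (nat_lit 15) .nil))))) .nil)) 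
(.lf (nat_lit 245223) (.g (nat_lit 851) (.e (nat_lit 123214) (nat_lit 275) (.e (nat_lit 73732) (nat_lit 0) (.e (nat_lit 7272) (nat_lit 385) (.e (nat_lit 122916) (nat_lit 14) .nil)))) .nil))) (.nd (nat_lit 5) 
(.lf (nat_lit 245207) (.g (nat_lit 1685) (.e (nat_lit 123213) (nat_lit 274) (.e (nat_lit 65653) (nat_lit 27) (.e (nat_lit 426343) (nat_lit 14) (.e (nat_lit 491564) (nat_lit 12) .nil)))) .nil)) 
(.lf (nat_lit 245239) (.g (nat_lit 1481) (.e (nat_lit 123214) (nat_lit 275) (.e (nat_lit 73746) (nat_lit 3) (.e (nat_lit 516185) (nat_lit 16) (.e (nat_lit 491546) (nat_lit 9) .nil)))) .nil)))) (.nd (nat_lit 4) (.nd (nat_lit 5) 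
(.lf (nat_lit 245199) (.g (nat_lit 183) (.e (nat_lit 123213) (nat_lit 274) (.e (nat_lit 65653) (nat_lit 27) (.e (nat_lit 426343) (nat_lit 14) .nil))) .nil)) 
(.lf (nat_lit 245231) (.g (nat_lit 1531) (.e (nat_lit 123214) (nat_lit 275) (.e (nat_lit 73733) (nat_lit 0) (.e (nat_lit 7272) (nat_lit 385) (.e (nat_lit 122914) (nat_lit 14) (.e (nat_lit 352258) (nat_lit 0) (.e (nat_lit 7088) (nat_lit 379) .nil)))))) (.g (nat_lit 4) .nil .nil)))) (.nd (nat_lit 5) 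
(.lf (nat_lit 245215) (.g (nat_lit 2260) (.e (nat_lit 123214) (nat_lit 275) (.e (nat_lit 73729) (nat_lit 0) (.e (nat_lit 7265) (nat_lit 384) (.e (nat_lit 57424) (nat_lit 14) (.e (nat_lit 352258) (nat_lit 0) .nil))))) .nil)) 
(.lf (nat_lit 245247) (.g (nat_lit 753) (.e (nat_lit 123214) (nat_lit 275) (.e (nat_lit 73772) (nat_lit 24) (.e (nat_lit 761866) (nat_lit 5) (.e (nat_lit 1574) (nat_lit 110) (.e (nat_lit 352258) (nat_lit 0) (.e (nat_lit 7086) (nat_lit 379) .nil)))))) (.g (nat_lit 0) .nil .nil)))))))))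

noncomputable def tv3190 : DT := (.nd (nat_lit 0) (.nd (nat_lit 1) (.nd (nat_lit 2) (.nd (nat_lit 3) (.nd (nat_lit 4) (.nd (nat_lit 5) (.nd (nat_lit 6) 
(.lf (nat_lit 245248) (.g (nat_lit 633) (.e (nat_lit 123214) (nat_lit 275) (.e (nat_lit 73772) (nat_lit 24) (.e (nat_lit 761868) (nat_lit 5) (.e (nat_lit 1574) (nat_lit 110) (.e (nat_lit 352258) (nat_lit 0) (.e (nat_lit 7086) (nat_lit 379) .nil)))))) (.g (nat_lit 0) .nil .nil))) 
(.lf (nat_lit 245312) (.g (nat_lit 2099) (.e (nat_lit 131088) (nat_lit 1) (.e (nat_lit 57847) (nat_lit 252) (.e (nat_lit 57365) (nat_lit 1) (.e (nat_lit 57854) (nat_lit 252) (.e (nat_lit 57431) (nat_lit 16) .nil))))) .nil))) (.nd (nat_lit 6) 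
(.lf (nat_lit 245280) (.g (nat_lit 1459) (.e (nat_lit 131072) (nat_lit 0) (.e (nat_lit 1842) (nat_lit 123) (.e (nat_lit 548889) (nat_lit 9) (.e (nat_lit 65604) (nat_lit 9) .nil)))) .nil)) 
(.lf (nat_lit 245344) (.g (nat_lit 2345) (.e (nat_lit 131091) (nat_lit 2) (.e (nat_lit 90170) (nat_lit 13) (.e (nat_lit 172106) (nat_lit 10) (.e (nat_lit 434244) (nat_lit 28) (.e (nat_lit 573468) (nat_lit 10) (.e (nat_lit 8194) (nat_lit 0) (.e (nat_lit 4443) (nat_lit 263) (.e (nat_lit 1296) (nat_lit 96) .nil)))))))) (.g (nat_lit 5) .nil .nil))))) (.nd (nat_lit 5) (.nd (nat_lit 6) 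
(.lf (nat_lit 245264) (.g (nat_lit 952) (.e (nat_lit 123214) (nat_lit 275) (.e (nat_lit 73776) (nat_lit 26) (.e (nat_lit 778362) (nat_lit 9) (.e (nat_lit 314) (nat_lit 23) .nil)))) .nil)) 
(.lf (nat_lit 245328) (.g (nat_lit 2525) (.e (nat_lit 131090) (nat_lit 2) (.e (nat_lit 90170) (nat_lit 13) (.e (nat_lit 172113) (nat_lit 10) (.e (nat_lit 434248) (nat_lit 28) (.e (nat_lit 573473) (nat_lit 12) .nil))))) .nil))) (.nd (nat_lit 6) 
(.lf (nat_lit 245296) (.g (nat_lit 598) (.e (nat_lit 139008) (nat_lit 0) (.e (nat_lit 2270) (nat_lit 149) (.e (nat_lit 761868) (nat_lit 5) (.e (nat_lit 1574) (nat_lit 110) .nil)))) .nil)) 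
(.lf (nat_lit 245360) (.g (nat_lit 2831) (.e (nat_lit 131091) (nat_lit 2) (.e (nat_lit 90170) (nat_lit 13) (.e (nat_lit 172113) (nat_lit 10) (.e (nat_lit 434245) (nat_lit 28) (.e (nat_lit 573473) (nat_lit 12) (.e (nat_lit 57347) (nat_lit 0) (.e (nat_lit 7124) (nat_lit 382) (.e (nat_lit 1296) (nat_lit 96) .nil)))))))) (.g (nat_lit 4) .nil .nil)))))) 
(.nd (nat_lit 4) (.nd (nat_lit 5) (.nd (nat_lit 6) 
(.lf (nat_lit 245256) (.g (nat_lit 1993) (.e (nat_lit 123214) (nat_lit 275) (.e (nat_lit 73775) (nat_lit 26) (.e (nat_lit 778362) (nat_lit 9) (.e (nat_lit 312) (nat_lit 23) (.e (nat_lit 352258) (nat_lit 0) (.e (nat_lit 7086) (nat_lit 379) .nil)))))) (.g (nat_lit 0) .nil .nil))) 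
(.lf (nat_lit 245320) (.g (nat_lit 2818) (.e (nat_lit 131089) (nat_lit 1) (.e (nat_lit 57854) (nat_lit 252) (.e (nat_lit 57378) (nat_lit 3) (.e (nat_lit 98334) (nat_lit 18) (.e (nat_lit 164383) (nat_lit 254) (.e (nat_lit 1130) (nat_lit 83) (.e (nat_lit 16412) (nat_lit 2) (.e (nat_lit 196681) (nat_lit 17) .nil)))))))) (.g (nat_lit 4) .nil .nil)))) (.nd (nat_lit 6) 
(.lf (nat_lit 245288) (.g (nat_lit 527) (.e (nat_lit 131084) (nat_lit 0) (.e (nat_lit 1800) (nat_lit 119) (.e (nat_lit 516138) (nat_lit 7) .nil))) .nil)) 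
(.lf (nat_lit 245352) (.g (nat_lit 1851) (.e (nat_lit 131091) (nat_lit 2) (.e (nat_lit 90170) (nat_lit 13) (.e (nat_lit 172106) (nat_lit 10) (.e (nat_lit 434244) (nat_lit 28) (.e (nat_lit 573474) (nat_lit 12) (.e (nat_lit 57344) (nat_lit 0) (.e (nat_lit 7125) (nat_lit 382) (.e (nat_lit 1296) (nat_lit 96) .nil)))))))) (.g (nat_lit 4) .nil .nil))))) (.nd (nat_lit 5) (.nd (nat_lit 6) 
(.lf (nat_lit 245272) (.g (nat_lit 1100) (.e (nat_lit 123226) (nat_lit 280) (.e (nat_lit 57378) (nat_lit 3) (.e (nat_lit 98389) (nat_lit 33) .nil))) .nil)) 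
(.lf (nat_lit 245336) (.g (nat_lit 3721) (.e (nat_lit 131091) (nat_lit 2) (.e (nat_lit 90170) (nat_lit 13) (.e (nat_lit 172106) (nat_lit 10) (.e (nat_lit 434231) (nat_lit 23) (.e (nat_lit 532481) (nat_lit 0) .nil))))) .nil))) (.nd (nat_lit 6) 
(.lf (nat_lit 245304) (.g (nat_lit 762) (.e (nat_lit 131087) (nat_lit 1) (.e (nat_lit 57847) (nat_lit 252) (.e (nat_lit 57365) (nat_lit 1) .nil))) .nil)) 
(.lf (nat_lit 245368) (.g (nat_lit 2924) (.e (nat_lit 131091) (nat_lit 2) (.e (nat_lit 90170) (nat_lit 13) (.e (nat_lit 172113) (nat_lit 10) (.e (nat_lit 434248) (nat_lit 28) (.e (nat_lit 573473) (nat_lit 12) (.e (nat_lit 57347) (nat_lit 0) (.e (nat_lit 7124) (nat_lit 382) (.e (nat_lit 1296) (nat_lit 96) .nil)))))))) (.g (nat_lit 4) .nil .nil))))))) 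
(.nd (nat_lit 3) (.nd (nat_lit 4) (.nd (nat_lit 5) (.nd (nat_lit 6) 
(.lf (nat_lit 245252) (.g (nat_lit 794) (.e (nat_lit 123214) (nat_lit 275) (.e (nat_lit 73773) (nat_lit 25) (.e (nat_lit 770058) (nat_lit 5) (.e (nat_lit 1575) (nat_lit 110) (.e (nat_lit 352258) (nat_lit 0) (.e (nat_lit 7086) (nat_lit 379) .nil)))))) (.g (nat_lit 0) .nil .nil))) 
(.lf (nat_lit 245316) (.g (nat_lit 3094) (.e (nat_lit 131088) (nat_lit 1) (.e (nat_lit 57849) (nat_lit 252) (.e (nat_lit 57379) (nat_lit 3) (.e (nat_lit 98334) (nat_lit 18) (.e (nat_lit 164383) (nat_lit 254) .nil))))) .nil))) (.nd (nat_lit 6) 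
(.lf (nat_lit 245284) (.g (nat_lit 2578) (.e (nat_lit 131082) (nat_lit 0) (.e (nat_lit 1796) (nat_lit 119) (.e (nat_lit 516185) (nat_lit 16) (.e (nat_lit 491560) (nat_lit 10) (.e (nat_lit 344105) (nat_lit 19) .nil))))) .nil)) 
(.lf (nat_lit 245348) (.g (nat_lit 2299) (.e (nat_lit 131091) (nat_lit 2) (.e (nat_lit 90170) (nat_lit 13) (.e (nat_lit 172106) (nat_lit 10) (.e (nat_lit 434244) (nat_lit 28) (.e (nat_lit 573473) (nat_lit 12) (.e (nat_lit 57352) (nat_lit 0) (.e (nat_lit 7122) (nat_lit 382) (.e (nat_lit 1296) (nat_lit 96) .nil)))))))) (.g (nat_lit 4) .nil .nil))))) (.nd (nat_lit 5) (.nd (nat_lit 6) 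
(.lf (nat_lit 245268) (.g (nat_lit 971) (.e (nat_lit 130816) (nat_lit 275) (.e (nat_lit 73775) (nat_lit 26) (.e (nat_lit 778362) (nat_lit 9) (.e (nat_lit 312) (nat_lit 23) .nil)))) .nil)) 
(.lf (nat_lit 245332) (.g (nat_lit 1480) (.e (nat_lit 131090) (nat_lit 2) (.e (nat_lit 90176) (nat_lit 15) (.e (nat_lit 188450) (nat_lit 23) (.e (nat_lit 204817) (nat_lit 17) .nil)))) .nil))) (.nd (nat_lit 6) 
(.lf (nat_lit 245300) (.g (nat_lit 3255) (.e (nat_lit 131086) (nat_lit 1) (.e (nat_lit 57849) (nat_lit 252) (.e (nat_lit 57379) (nat_lit 3) (.e (nat_lit 98334) (nat_lit 18) (.e (nat_lit 164383) (nat_lit 254) (.e (nat_lit 1124) (nat_lit 83) (.e (nat_lit 16412) (nat_lit 2) (.e (nat_lit 196681) (nat_lit 17) .nil)))))))) (.g (nat_lit 4) .nil .nil))) 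
(.lf (nat_lit 245364) (.g (nat_lit 3615) (.e (nat_lit 131091) (nat_lit 2) (.e (nat_lit 90170) (nat_lit 13) (.e (nat_lit 172113) (nat_lit 10) (.e (nat_lit 434245) (nat_lit 28) (.e (nat_lit 573474) (nat_lit 12) (.e (nat_lit 57351) (nat_lit 0) (.e (nat_lit 7124) (nat_lit 382) (.e (nat_lit 1296) (nat_lit 96) .nil)))))))) (.g (nat_lit 5) .nil .nil)))))) 
(.nd (nat_lit 4) (.nd (nat_lit 5) (.nd (nat_lit 6) 
(.lf (nat_lit 245260) (.g (nat_lit 1659) (.e (nat_lit 123214) (nat_lit 275) (.e (nat_lit 73775) (nat_lit 26) (.e (nat_lit 778466) (nat_lit 11) (.e (nat_lit 24651) (nat_lit 12) .nil)))) .nil)) 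
(.lf (nat_lit 245324) (.g (nat_lit 1184) (.e (nat_lit 131089) (nat_lit 1) (.e (nat_lit 57931) (nat_lit 282) (.e (nat_lit 163902) (nat_lit 12) (.e (nat_lit 426545) (nat_lit 30) .nil)))) .nil))) (.nd (nat_lit 6) 
(.lf (nat_lit 245292) (.g (nat_lit 1678) (.e (nat_lit 131084) (nat_lit 0) (.e (nat_lit 1800) (nat_lit 119) (.e (nat_lit 516185) (nat_lit 16) (.e (nat_lit 491558) (nat_lit 10) .nil)))) .nil)) 
(.lf (nat_lit 245356) (.g (nat_lit 3270) (.e (nat_lit 131091) (nat_lit 2) (.e (nat_lit 90170) (nat_lit 13) (.e (nat_lit 172106) (nat_lit 10) (.e (nat_lit 434244) (nat_lit 28) (.e (nat_lit 573474) (nat_lit 12) (.e (nat_lit 57351) (nat_lit 0) (.e (nat_lit 7125) (nat_lit 382) (.e (nat_lit 1296) (nat_lit 96) .nil)))))))) (.g (nat_lit 5) .nil .nil))))) (.nd (nat_lit 5) (.nd (nat_lit 6) 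
(.lf (nat_lit 245276) (.g (nat_lit 1472) (.e (nat_lit 123228) (nat_lit 282) (.e (nat_lit 163945) (nat_lit 20) (.e (nat_lit 491566) (nat_lit 12) (.e (nat_lit 385104) (nat_lit 50) (.e (nat_lit 786480) (nat_lit 29) .nil))))) .nil)) 
(.lf (nat_lit 245340) (.g (nat_lit 2522) (.e (nat_lit 131091) (nat_lit 2) (.e (nat_lit 90170) (nat_lit 13) (.e (nat_lit 172106) (nat_lit 10) (.e (nat_lit 434231) (nat_lit 23) (.e (nat_lit 532490) (nat_lit 0) .nil))))) .nil))) (.nd (nat_lit 6) 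
(.lf (nat_lit 245308) (.g (nat_lit 3121) (.e (nat_lit 131088) (nat_lit 1) (.e (nat_lit 57681) (nat_lit 155) (.e (nat_lit 122919) (nat_lit 15) (.e (nat_lit 360451) (nat_lit 0) (.e (nat_lit 7247) (nat_lit 383) .nil))))) .nil)) 
(.lf (nat_lit 245372) (.g (nat_lit 3663) (.e (nat_lit 131091) (nat_lit 2) (.e (nat_lit 90170) (nat_lit 13) (.e (nat_lit 172113) (nat_lit 10) (.e (nat_lit 434248) (nat_lit 28) (.e (nat_lit 573475) (nat_lit 12) (.e (nat_lit 57348) (nat_lit 0) (.e (nat_lit 7124) (nat_lit 382) (.e (nat_lit 1296) (nat_lit 96) .nil)))))))) (.g (nat_lit 5) .nil .nil)))))))) 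
(.nd (nat_lit 2) (.nd (nat_lit 3) (.nd (nat_lit 4) (.nd (nat_lit 5) (.nd (nat_lit 6) 
(.lf (nat_lit 245250) (.g (nat_lit 660) (.e (nat_lit 123214) (nat_lit 275) (.e (nat_lit 73773) (nat_lit 25) (.e (nat_lit 770055) (nat_lit 5) (.e (nat_lit 1575) (nat_lit 110) (.e (nat_lit 352258) (nat_lit 0) (.e (nat_lit 7086) (nat_lit 379) .nil)))))) (.g (nat_lit 0) .nil .nil))) 
(.lf (nat_lit 245314) (.g (nat_lit 2099) (.e (nat_lit 131088) (nat_lit 1) (.e (nat_lit 57847) (nat_lit 252) (.e (nat_lit 57368) (nat_lit 1) (.e (nat_lit 57854) (nat_lit 252) (.e (nat_lit 57431) (nat_lit 16) .nil))))) .nil))) (.nd (nat_lit 6) 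
(.lf (nat_lit 245282) (.g (nat_lit 761) (.e (nat_lit 131072) (nat_lit 0) (.e (nat_lit 2270) (nat_lit 149) (.e (nat_lit 761868) (nat_lit 5) (.e (nat_lit 1558) (nat_lit 110) .nil)))) .nil)) 
(.lf (nat_lit 245346) (.g (nat_lit 2290) (.e (nat_lit 131091) (nat_lit 2) (.e (nat_lit 90170) (nat_lit 13) (.e (nat_lit 172106) (nat_lit 10) (.e (nat_lit 434244) (nat_lit 28) (.e (nat_lit 573473) (nat_lit 12) (.e (nat_lit 57347) (nat_lit 0) (.e (nat_lit 7124) (nat_lit 382) (.e (nat_lit 1296) (nat_lit 96) .nil)))))))) (.g (nat_lit 4) .nil .nil))))) (.nd (nat_lit 5) (.nd (nat_lit 6) 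
(.lf (nat_lit 245266) (.g (nat_lit 1689) (.e (nat_lit 123214) (nat_lit 275) (.e (nat_lit 73776) (nat_lit 26) (.e (nat_lit 778465) (nat_lit 11) (.e (nat_lit 24650) (nat_lit 12) (.e (nat_lit 385039) (nat_lit 18) .nil))))) .nil)) 
(.lf (nat_lit 245330) (.g (nat_lit 549) (.e (nat_lit 131090) (nat_lit 2) (.e (nat_lit 90176) (nat_lit 15) (.e (nat_lit 188450) (nat_lit 23) .nil))) .nil))) (.nd (nat_lit 6) 
(.lf (nat_lit 245298) (.g (nat_lit 1045) (.e (nat_lit 131086) (nat_lit 1) (.e (nat_lit 57683) (nat_lit 155) (.e (nat_lit 122916) (nat_lit 14) (.e (nat_lit 360192) (nat_lit 12) .nil)))) .nil)) 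
(.lf (nat_lit 245362) (.g (nat_lit 4207) (.e (nat_lit 131091) (nat_lit 2) (.e (nat_lit 90170) (nat_lit 13) (.e (nat_lit 172113) (nat_lit 10) (.e (nat_lit 434245) (nat_lit 28) (.e (nat_lit 573474) (nat_lit 12) (.e (nat_lit 57347) (nat_lit 0) (.e (nat_lit 7124) (nat_lit 382) (.e (nat_lit 1296) (nat_lit 96) .nil)))))))) (.g (nat_lit 6) .nil .nil)))))) 
(.nd (nat_lit 4) (.nd (nat_lit 5) (.nd (nat_lit 6) 
(.lf (nat_lit 245258) (.g (nat_lit 2305) (.e (nat_lit 123214) (nat_lit 275) (.e (nat_lit 73775) (nat_lit 26) (.e (nat_lit 778466) (nat_lit 11) (.e (nat_lit 24648) (nat_lit 12) (.e (nat_lit 385039) (nat_lit 18) .nil))))) .nil)) 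
(.lf (nat_lit 245322) (.g (nat_lit 1471) (.e (nat_lit 131089) (nat_lit 1) (.e (nat_lit 57854) (nat_lit 252) (.e (nat_lit 57389) (nat_lit 5) (.e (nat_lit 114697) (nat_lit 11) (.e (nat_lit 426315) (nat_lit 12) (.e (nat_lit 483072) (nat_lit 15) .nil)))))) (.g (nat_lit 4) .nil .nil)))) (.nd (nat_lit 6) 
(.lf (nat_lit 245290) (.g (nat_lit 2415) (.e (nat_lit 131084) (nat_lit 0) (.e (nat_lit 1800) (nat_lit 119) (.e (nat_lit 516139) (nat_lit 7) (.e (nat_lit 409642) (nat_lit 17) (.e (nat_lit 294928) (nat_lit 2) .nil))))) .nil)) 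
(.lf (nat_lit 245354) (.g (nat_lit 2994) (.e (nat_lit 131091) (nat_lit 2) (.e (nat_lit 90170) (nat_lit 13) (.e (nat_lit 172106) (nat_lit 10) (.e (nat_lit 434244) (nat_lit 28) (.e (nat_lit 573474) (nat_lit 12) (.e (nat_lit 57348) (nat_lit 0) (.e (nat_lit 7124) (nat_lit 382) (.e (nat_lit 1296) (nat_lit 96) .nil)))))))) (.g (nat_lit 5) .nil .nil))))) (.nd (nat_lit 5) (.nd (nat_lit 6) 
(.lf (nat_lit 245274) (.g (nat_lit 1858) (.e (nat_lit 123226) (nat_lit 280) (.e (nat_lit 57379) (nat_lit 3) (.e (nat_lit 98384) (nat_lit 32) (.e (nat_lit 475201) (nat_lit 40) .nil)))) .nil)) 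
(.lf (nat_lit 245338) (.g (nat_lit 3130) (.e (nat_lit 131091) (nat_lit 2) (.e (nat_lit 90170) (nat_lit 13) (.e (nat_lit 172106) (nat_lit 10) (.e (nat_lit 434231) (nat_lit 23) (.e (nat_lit 532482) (nat_lit 0) .nil))))) .nil))) (.nd (nat_lit 6) 
(.lf (nat_lit 245306) (.g (nat_lit 2241) (.e (nat_lit 131087) (nat_lit 1) (.e (nat_lit 57854) (nat_lit 252) (.e (nat_lit 57388) (nat_lit 5) (.e (nat_lit 114698) (nat_lit 11) (.e (nat_lit 426315) (nat_lit 12) .nil))))) .nil)) 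
(.lf (nat_lit 245370) (.g (nat_lit 2233) (.e (nat_lit 131091) (nat_lit 2) (.e (nat_lit 90170) (nat_lit 13) (.e (nat_lit 172113) (nat_lit 10) (.e (nat_lit 434248) (nat_lit 28) (.e (nat_lit 573475) (nat_lit 12) .nil))))) .nil)))))) (.nd (nat_lit 3) (.nd (nat_lit 4) (.nd (nat_lit 5) (.nd (nat_lit 6) 
(.lf (nat_lit 245254) (.g (nat_lit 1416) (.e (nat_lit 123214) (nat_lit 275) (.e (nat_lit 73775) (nat_lit 26) (.e (nat_lit 778361) (nat_lit 9) (.e (nat_lit 312) (nat_lit 23) (.e (nat_lit 352258) (nat_lit 0) (.e (nat_lit 7086) (nat_lit 379) .nil)))))) (.g (nat_lit 0) .nil .nil))) 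
(.lf (nat_lit 245318) (.g (nat_lit 887) (.e (nat_lit 131088) (nat_lit 1) (.e (nat_lit 57931) (nat_lit 282) (.e (nat_lit 164075) (nat_lit 61) .nil))) .nil))) (.nd (nat_lit 6) 
(.lf (nat_lit 245286) (.g (nat_lit 1986) (.e (nat_lit 131082) (nat_lit 0) (.e (nat_lit 1796) (nat_lit 119) (.e (nat_lit 516185) (nat_lit 16) (.e (nat_lit 491560) (nat_lit 10) (.e (nat_lit 344118) (nat_lit 21) .nil))))) .nil)) 
(.lf (nat_lit 245350) (.g (nat_lit 3312) (.e (nat_lit 131091) (nat_lit 2) (.e (nat_lit 90170) (nat_lit 13) (.e (nat_lit 172106) (nat_lit 10) (.e (nat_lit 434244) (nat_lit 28) (.e (nat_lit 573473) (nat_lit 12) (.e (nat_lit 57353) (nat_lit 0) (.e (nat_lit 7125) (nat_lit 382) (.e (nat_lit 1296) (nat_lit 96) .nil)))))))) (.g (nat_lit 5) .nil .nil))))) (.nd (nat_lit 5) (.nd (nat_lit 6) 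
(.lf (nat_lit 245270) (.g (nat_lit 1012) (.e (nat_lit 123217) (nat_lit 278) (.e (nat_lit 1124) (nat_lit 83) (.e (nat_lit 16448) (nat_lit 10) (.e (nat_lit 434268) (nat_lit 36) .nil)))) .nil)) 
(.lf (nat_lit 245334) (.g (nat_lit 3015) (.e (nat_lit 131091) (nat_lit 2) (.e (nat_lit 90170) (nat_lit 13) (.e (nat_lit 172082) (nat_lit 7) (.e (nat_lit 409612) (nat_lit 10) (.e (nat_lit 604) (nat_lit 45) (.e (nat_lit 532504) (nat_lit 1) (.e (nat_lit 57830) (nat_lit 250) (.e (nat_lit 1296) (nat_lit 96) .nil)))))))) (.g (nat_lit 4) .nil .nil)))) (.nd (nat_lit 6) 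
(.lf (nat_lit 245302) (.g (nat_lit 458) (.e (nat_lit 131086) (nat_lit 1) (.e (nat_lit 57873) (nat_lit 264) (.e (nat_lit 1181) (nat_lit 87) .nil))) .nil)) 
(.lf (nat_lit 245366) (.g (nat_lit 2745) (.e (nat_lit 131091) (nat_lit 2) (.e (nat_lit 90170) (nat_lit 13) (.e (nat_lit 172113) (nat_lit 10) (.e (nat_lit 434245) (nat_lit 28) (.e (nat_lit 573474) (nat_lit 12) (.e (nat_lit 57353) (nat_lit 0) (.e (nat_lit 7124) (nat_lit 382) (.e (nat_lit 1296) (nat_lit 96) .nil)))))))) (.g (nat_lit 4) .nil .nil)))))) 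
(.nd (nat_lit 4) (.nd (nat_lit 5) (.nd (nat_lit 6) 
(.lf (nat_lit 245262) (.g (nat_lit 392) (.e (nat_lit 123214) (nat_lit 275) (.e (nat_lit 73776) (nat_lit 26) (.e (nat_lit 778360) (nat_lit 9) .nil))) .nil)) 
(.lf (nat_lit 245326) (.g (nat_lit 509) (.e (nat_lit 131089) (nat_lit 1) (.e (nat_lit 57931) (nat_lit 282) (.e (nat_lit 171776) (nat_lit 64) .nil))) .nil))) (.nd (nat_lit 6) 
(.lf (nat_lit 245294) (.g (nat_lit 1529) (.e (nat_lit 131084) (nat_lit 0) (.e (nat_lit 2000) (nat_lit 138) (.e (nat_lit 671762) (nat_lit 4) (.e (nat_lit 65630) (nat_lit 14) (.e (nat_lit 401454) (nat_lit 12) .nil))))) .nil)) 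
(.lf (nat_lit 245358) (.g (nat_lit 3912) (.e (nat_lit 131091) (nat_lit 2) (.e (nat_lit 90170) (nat_lit 13) (.e (nat_lit 172113) (nat_lit 10) (.e (nat_lit 434242) (nat_lit 28) (.e (nat_lit 573474) (nat_lit 12) (.e (nat_lit 57348) (nat_lit 0) (.e (nat_lit 7124) (nat_lit 382) (.e (nat_lit 1296) (nat_lit 96) .nil)))))))) (.g (nat_lit 5) .nil .nil))))) (.nd (nat_lit 5) (.nd (nat_lit 6) 
(.lf (nat_lit 245278) (.g (nat_lit 1466) (.e (nat_lit 123229) (nat_lit 282) (.e (nat_lit 163896) (nat_lit 10) (.e (nat_lit 409648) (nat_lit 18) (.e (nat_lit 303108) (nat_lit 0) .nil)))) .nil)) 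
(.lf (nat_lit 245342) (.g (nat_lit 3374) (.e (nat_lit 131091) (nat_lit 2) (.e (nat_lit 90170) (nat_lit 13) (.e (nat_lit 172106) (nat_lit 10) (.e (nat_lit 434231) (nat_lit 23) (.e (nat_lit 532500) (nat_lit 1) (.e (nat_lit 65280) (nat_lit 221) (.e (nat_lit 1296) (nat_lit 96) .nil))))))) (.g (nat_lit 4) .nil .nil)))) (.nd (nat_lit 6) 
(.lf (nat_lit 245310) (.g (nat_lit 1047) (.e (nat_lit 131088) (nat_lit 1) (.e (nat_lit 57683) (nat_lit 155) (.e (nat_lit 122916) (nat_lit 14) (.e (nat_lit 360192) (nat_lit 12) .nil)))) .nil)) 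
(.lf (nat_lit 245374) (.g (nat_lit 3702) (.e (nat_lit 131091) (nat_lit 2) (.e (nat_lit 90170) (nat_lit 13) (.e (nat_lit 172113) (nat_lit 10) (.e (nat_lit 434248) (nat_lit 28) (.e (nat_lit 573475) (nat_lit 12) (.e (nat_lit 57351) (nat_lit 0) (.e (nat_lit 7124) (nat_lit 382) (.e (nat_lit 1296) (nat_lit 96) .nil)))))))) (.g (nat_lit 5) .nil .nil))))))))) 
(.nd (nat_lit 1) (.nd (nat_lit 2) (.nd (nat_lit 3) (.nd (nat_lit 4) (.nd (nat_lit 5) 
(.nd (nat_lit 6) 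
(.lf (nat_lit 245249) (.g (nat_lit 183) (.e (nat_lit 123214) (nat_lit 275) (.e (nat_lit 73772) (nat_lit 24) (.e (nat_lit 769792) (nat_lit 10) .nil))) .nil)) 
(.lf (nat_lit 245313) (.g (nat_lit 1138) (.e (nat_lit 131088) (nat_lit 1) (.e (nat_lit 57847) (nat_lit 252) (.e (nat_lit 57365) (nat_lit 1) (.e (nat_lit 57926) (nat_lit 282) .nil)))) .nil))) (.nd (nat_lit 6) 
(.lf (nat_lit 245281) (.g (nat_lit 451) (.e (nat_lit 131072) (nat_lit 0) (.e (nat_lit 2270) (nat_lit 149) (.e (nat_lit 761868) (nat_lit 5) .nil))) .nil)) 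
(.lf (nat_lit 245345) (.g (nat_lit 2097) (.e (nat_lit 131091) (nat_lit 2) (.e (nat_lit 90170) (nat_lit 13) (.e (nat_lit 172106) (nat_lit 10) (.e (nat_lit 434244) (nat_lit 28) (.e (nat_lit 573473) (nat_lit 12) .nil))))) .nil)))) (.nd (nat_lit 5) (.nd (nat_lit 6) 
(.lf (nat_lit 245265) (.g (nat_lit 404) (.e (nat_lit 123214) (nat_lit 275) (.e (nat_lit 73776) (nat_lit 26) (.e (nat_lit 778465) (nat_lit 11) .nil))) .nil)) 
(.lf (nat_lit 245329) (.g (nat_lit 2554) (.e (nat_lit 131090) (nat_lit 2) (.e (nat_lit 90170) (nat_lit 13) (.e (nat_lit 172113) (nat_lit 10) (.e (nat_lit 434248) (nat_lit 28) (.e (nat_lit 573475) (nat_lit 12) .nil))))) .nil))) (.nd (nat_lit 6) 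
(.lf (nat_lit 245297) (.g (nat_lit 1147) (.e (nat_lit 131086) (nat_lit 1) (.e (nat_lit 57683) (nat_lit 155) (.e (nat_lit 122916) (nat_lit 14) (.e (nat_lit 352257) (nat_lit 0) .nil)))) .nil)) 
(.lf (nat_lit 245361) (.g (nat_lit 3279) (.e (nat_lit 131091) (nat_lit 2) (.e (nat_lit 90170) (nat_lit 13) (.e (nat_lit 172113) (nat_lit 10) (.e (nat_lit 434245) (nat_lit 28) (.e (nat_lit 573473) (nat_lit 12) (.e (nat_lit 57347) (nat_lit 0) (.e (nat_lit 7125) (nat_lit 382) (.e (nat_lit 1296) (nat_lit 96) .nil)))))))) (.g (nat_lit 5) .nil .nil)))))) 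
(.nd (nat_lit 4) (.nd (nat_lit 5) (.nd (nat_lit 6) 
(.lf (nat_lit 245257) (.g (nat_lit 1905) (.e (nat_lit 123214) (nat_lit 275) (.e (nat_lit 73775) (nat_lit 26) (.e (nat_lit 778362) (nat_lit 9) (.e (nat_lit 314) (nat_lit 23) (.e (nat_lit 352264) (nat_lit 0) .nil))))) .nil)) 
(.lf (nat_lit 245321) (.g (nat_lit 2608) (.e (nat_lit 131089) (nat_lit 1) (.e (nat_lit 57854) (nat_lit 252) (.e (nat_lit 57388) (nat_lit 5) (.e (nat_lit 114698) (nat_lit 11) (.e (nat_lit 426315) (nat_lit 12) (.e (nat_lit 483072) (nat_lit 15) .nil)))))) (.g (nat_lit 5) .nil .nil)))) (.nd (nat_lit 6) 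
(.lf (nat_lit 245289) (.g (nat_lit 1964) (.e (nat_lit 131084) (nat_lit 0) (.e (nat_lit 1800) (nat_lit 119) (.e (nat_lit 516139) (nat_lit 7) (.e (nat_lit 409641) (nat_lit 17) .nil)))) .nil)) 
(.lf (nat_lit 245353) (.g (nat_lit 3834) (.e (nat_lit 131091) (nat_lit 2) (.e (nat_lit 90170) (nat_lit 13) (.e (nat_lit 172106) (nat_lit 10) (.e (nat_lit 434244) (nat_lit 28) (.e (nat_lit 573474) (nat_lit 12) (.e (nat_lit 57347) (nat_lit 0) (.e (nat_lit 7124) (nat_lit 382) (.e (nat_lit 1296) (nat_lit 96) .nil)))))))) (.g (nat_lit 6) .nil .nil))))) (.nd (nat_lit 5) (.nd (nat_lit 6) 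
(.lf (nat_lit 245273) (.g (nat_lit 1785) (.e (nat_lit 123226) (nat_lit 280) (.e (nat_lit 57378) (nat_lit 3) (.e (nat_lit 98389) (nat_lit 33) (.e (nat_lit 491568) (nat_lit 13) .nil)))) .nil)) 
(.lf (nat_lit 245337) (.g (nat_lit 3794) (.e (nat_lit 131091) (nat_lit 2) (.e (nat_lit 90170) (nat_lit 13) (.e (nat_lit 172106) (nat_lit 10) (.e (nat_lit 434231) (nat_lit 23) (.e (nat_lit 532481) (nat_lit 0) (.e (nat_lit 984) (nat_lit 81) (.e (nat_lit 4433) (nat_lit 263) (.e (nat_lit 1296) (nat_lit 96) .nil)))))))) (.g (nat_lit 4) .nil .nil)))) (.nd (nat_lit 6) 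
(.lf (nat_lit 245305) (.g (nat_lit 905) (.e (nat_lit 131087) (nat_lit 1) (.e (nat_lit 57847) (nat_lit 252) (.e (nat_lit 57368) (nat_lit 1) .nil))) .nil)) 
(.lf (nat_lit 245369) (.g (nat_lit 3372) (.e (nat_lit 131091) (nat_lit 2) (.e (nat_lit 90170) (nat_lit 13) (.e (nat_lit 172113) (nat_lit 10) (.e (nat_lit 434248) (nat_lit 28) (.e (nat_lit 573473) (nat_lit 12) (.e (nat_lit 57347) (nat_lit 0) (.e (nat_lit 7125) (nat_lit 382) (.e (nat_lit 1296) (nat_lit 96) .nil)))))))) (.g (nat_lit 5) .nil .nil))))))) 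
(.nd (nat_lit 3) (.nd (nat_lit 4) (.nd (nat_lit 5) (.nd (nat_lit 6) 
(.lf (nat_lit 245253) (.g (nat_lit 581) (.e (nat_lit 123214) (nat_lit 275) (.e (nat_lit 73774) (nat_lit 26) (.e (nat_lit 778339) (nat_lit 9) (.e (nat_lit 311) (nat_lit 23) (.e (nat_lit 352258) (nat_lit 0) (.e (nat_lit 7086) (nat_lit 379) .nil)))))) (.g (nat_lit 0) .nil .nil))) 
(.lf (nat_lit 245317) (.g (nat_lit 189) (.e (nat_lit 131088) (nat_lit 1) (.e (nat_lit 57872) (nat_lit 264) (.e (nat_lit 1190) (nat_lit 88) .nil))) .nil))) (.nd (nat_lit 6) 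
(.lf (nat_lit 245285) (.g (nat_lit 2443) (.e (nat_lit 131082) (nat_lit 0) (.e (nat_lit 1796) (nat_lit 119) (.e (nat_lit 516185) (nat_lit 16) (.e (nat_lit 491560) (nat_lit 10) (.e (nat_lit 344109) (nat_lit 19) .nil))))) .nil)) 
(.lf (nat_lit 245349) (.g (nat_lit 3205) (.e (nat_lit 131091) (nat_lit 2) (.e (nat_lit 90170) (nat_lit 13) (.e (nat_lit 172106) (nat_lit 10) (.e (nat_lit 434244) (nat_lit 28) (.e (nat_lit 573473) (nat_lit 12) (.e (nat_lit 57353) (nat_lit 0) (.e (nat_lit 7124) (nat_lit 382) (.e (nat_lit 1296) (nat_lit 96) .nil)))))))) (.g (nat_lit 5) .nil .nil))))) (.nd (nat_lit 5) (.nd (nat_lit 6) 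
(.lf (nat_lit 245269) (.g (nat_lit 1436) (.e (nat_lit 130816) (nat_lit 275) (.e (nat_lit 73775) (nat_lit 26) (.e (nat_lit 778466) (nat_lit 11) (.e (nat_lit 24648) (nat_lit 12) .nil)))) .nil)) 
(.lf (nat_lit 245333) (.g (nat_lit 1240) (.e (nat_lit 131091) (nat_lit 2) (.e (nat_lit 90170) (nat_lit 13) (.e (nat_lit 172079) (nat_lit 7) (.e (nat_lit 409611) (nat_lit 10) .nil)))) .nil))) (.nd (nat_lit 6) 
(.lf (nat_lit 245301) (.g (nat_lit 2698) (.e (nat_lit 131086) (nat_lit 1) (.e (nat_lit 57854) (nat_lit 252) (.e (nat_lit 57388) (nat_lit 5) (.e (nat_lit 114698) (nat_lit 11) (.e (nat_lit 426315) (nat_lit 12) (.e (nat_lit 483072) (nat_lit 15) .nil)))))) (.g (nat_lit 5) .nil .nil))) 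
(.lf (nat_lit 245365) (.g (nat_lit 3696) (.e (nat_lit 131091) (nat_lit 2) (.e (nat_lit 90170) (nat_lit 13) (.e (nat_lit 172113) (nat_lit 10) (.e (nat_lit 434245) (nat_lit 28) (.e (nat_lit 573474) (nat_lit 12) (.e (nat_lit 57351) (nat_lit 0) (.e (nat_lit 7125) (nat_lit 382) (.e (nat_lit 1296) (nat_lit 96) .nil)))))))) (.g (nat_lit 5) .nil .nil)))))) 
(.nd (nat_lit 4) (.nd (nat_lit 5) (.nd (nat_lit 6) 
(.lf (nat_lit 245261) (.g (nat_lit 967) (.e (nat_lit 123214) (nat_lit 275) (.e (nat_lit 73776) (nat_lit 26) (.e (nat_lit 778359) (nat_lit 9) (.e (nat_lit 312) (nat_lit 23) (.e (nat_lit 352258) (nat_lit 0) .nil))))) .nil)) 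
(.lf (nat_lit 245325) (.g (nat_lit 2779) (.e (nat_lit 131089) (nat_lit 1) (.e (nat_lit 57931) (nat_lit 282) (.e (nat_lit 163943) (nat_lit 19) (.e (nat_lit 483372) (nat_lit 21) (.e (nat_lit 319504) (nat_lit 10) .nil))))) .nil))) (.nd (nat_lit 6) 
(.lf (nat_lit 245293) (.g (nat_lit 594) (.e (nat_lit 131084) (nat_lit 0) (.e (nat_lit 1856) (nat_lit 124) (.e (nat_lit 557070) (nat_lit 9) .nil))) .nil)) 
(.lf (nat_lit 245357) (.g (nat_lit 4465) (.e (nat_lit 131091) (nat_lit 2) (.e (nat_lit 90170) (nat_lit 13) (.e (nat_lit 172113) (nat_lit 10) (.e (nat_lit 434242) (nat_lit 28) (.e (nat_lit 573474) (nat_lit 12) (.e (nat_lit 57347) (nat_lit 0) (.e (nat_lit 7125) (nat_lit 382) (.e (nat_lit 1296) (nat_lit 96) .nil)))))))) (.g (nat_lit 6) .nil .nil))))) (.nd (nat_lit 5) (.nd (nat_lit 6) 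
(.lf (nat_lit 245277) (.g (nat_lit 2324) (.e (nat_lit 123229) (nat_lit 282) (.e (nat_lit 163867) (nat_lit 2) (.e (nat_lit 196670) (nat_lit 14) (.e (nat_lit 73746) (nat_lit 3) (.e (nat_lit 516129) (nat_lit 3) .nil))))) .nil)) 
(.lf (nat_lit 245341) (.g (nat_lit 3083) (.e (nat_lit 131091) (nat_lit 2) (.e (nat_lit 90170) (nat_lit 13) (.e (nat_lit 172106) (nat_lit 10) (.e (nat_lit 434231) (nat_lit 23) (.e (nat_lit 532499) (nat_lit 1) .nil))))) .nil))) (.nd (nat_lit 6) 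
(.lf (nat_lit 245309) (.g (nat_lit 1149) (.e (nat_lit 131088) (nat_lit 1) (.e (nat_lit 57683) (nat_lit 155) (.e (nat_lit 122916) (nat_lit 14) (.e (nat_lit 352257) (nat_lit 0) .nil)))) .nil)) 
(.lf (nat_lit 245373) (.g (nat_lit 2936) (.e (nat_lit 131091) (nat_lit 2) (.e (nat_lit 90170) (nat_lit 13) (.e (nat_lit 172113) (nat_lit 10) (.e (nat_lit 434248) (nat_lit 28) (.e (nat_lit 573475) (nat_lit 12) (.e (nat_lit 57351) (nat_lit 0) (.e (nat_lit 7122) (nat_lit 382) (.e (nat_lit 1296) (nat_lit 96) .nil)))))))) (.g (nat_lit 4) .nil .nil)))))))) 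
(.nd (nat_lit 2) (.nd (nat_lit 3) (.nd (nat_lit 4) (.nd (nat_lit 5) (.nd (nat_lit 6) 
(.lf (nat_lit 245251) (.g (nat_lit 582) (.e (nat_lit 123214) (nat_lit 275) (.e (nat_lit 73773) (nat_lit 25) (.e (nat_lit 770057) (nat_lit 5) (.e (nat_lit 1575) (nat_lit 110) (.e (nat_lit 352258) (nat_lit 0) (.e (nat_lit 7086) (nat_lit 379) .nil)))))) (.g (nat_lit 0) .nil .nil))) 
(.lf (nat_lit 245315) (.g (nat_lit 2786) (.e (nat_lit 131088) (nat_lit 1) (.e (nat_lit 57847) (nat_lit 252) (.e (nat_lit 57379) (nat_lit 3) (.e (nat_lit 98334) (nat_lit 18) (.e (nat_lit 164383) (nat_lit 254) .nil))))) .nil))) (.nd (nat_lit 6) 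
(.lf (nat_lit 245283) (.g (nat_lit 856) (.e (nat_lit 131072) (nat_lit 0) (.e (nat_lit 2270) (nat_lit 149) (.e (nat_lit 761868) (nat_lit 5) (.e (nat_lit 1574) (nat_lit 110) (.e (nat_lit 352257) (nat_lit 0) .nil))))) .nil)) 
(.lf (nat_lit 245347) (.g (nat_lit 3274) (.e (nat_lit 131091) (nat_lit 2) (.e (nat_lit 90170) (nat_lit 13) (.e (nat_lit 172106) (nat_lit 10) (.e (nat_lit 434244) (nat_lit 28) (.e (nat_lit 573473) (nat_lit 12) (.e (nat_lit 57348) (nat_lit 0) (.e (nat_lit 7124) (nat_lit 382) (.e (nat_lit 1296) (nat_lit 96) .nil)))))))) (.g (nat_lit 5) .nil .nil))))) (.nd (nat_lit 5) (.nd (nat_lit 6) 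
(.lf (nat_lit 245267) (.g (nat_lit 1385) (.e (nat_lit 123214) (nat_lit 275) (.e (nat_lit 73776) (nat_lit 26) (.e (nat_lit 778465) (nat_lit 11) (.e (nat_lit 24665) (nat_lit 14) .nil)))) .nil)) 
(.lf (nat_lit 245331) (.g (nat_lit 1672) (.e (nat_lit 131090) (nat_lit 2) (.e (nat_lit 90176) (nat_lit 15) (.e (nat_lit 188450) (nat_lit 23) (.e (nat_lit 212736) (nat_lit 1) .nil)))) .nil))) (.nd (nat_lit 6) 
(.lf (nat_lit 245299) (.g (nat_lit 3174) (.e (nat_lit 131086) (nat_lit 1) (.e (nat_lit 57849) (nat_lit 252) (.e (nat_lit 57379) (nat_lit 3) (.e (nat_lit 98334) (nat_lit 18) (.e (nat_lit 164383) (nat_lit 254) .nil))))) .nil)) 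
(.lf (nat_lit 245363) (.g (nat_lit 3937) (.e (nat_lit 131091) (nat_lit 2) (.e (nat_lit 90170) (nat_lit 13) (.e (nat_lit 172113) (nat_lit 10) (.e (nat_lit 434245) (nat_lit 28) (.e (nat_lit 573474) (nat_lit 12) (.e (nat_lit 57348) (nat_lit 0) (.e (nat_lit 7124) (nat_lit 382) (.e (nat_lit 1296) (nat_lit 96) .nil)))))))) (.g (nat_lit 5) .nil .nil)))))) 
(.nd (nat_lit 4) (.nd (nat_lit 5) (.nd (nat_lit 6) 
(.lf (nat_lit 245259) (.g (nat_lit 1798) (.e (nat_lit 123214) (nat_lit 275) (.e (nat_lit 73775) (nat_lit 26) (.e (nat_lit 778466) (nat_lit 11) (.e (nat_lit 24649) (nat_lit 12) .nil)))) .nil)) 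
(.lf (nat_lit 245323) (.g (nat_lit 2230) (.e (nat_lit 131089) (nat_lit 1) (.e (nat_lit 57930) (nat_lit 282) (.e (nat_lit 164076) (nat_lit 61) (.e (nat_lit 1786) (nat_lit 119) (.e (nat_lit 516177) (nat_lit 14) (.e (nat_lit 466974) (nat_lit 22) (.e (nat_lit 196681) (nat_lit 17) .nil))))))) (.g (nat_lit 7) .nil .nil)))) (.nd (nat_lit 6) 
(.lf (nat_lit 245291) (.g (nat_lit 2555) (.e (nat_lit 131084) (nat_lit 0) (.e (nat_lit 1800) (nat_lit 119) (.e (nat_lit 516185) (nat_lit 16) (.e (nat_lit 491546) (nat_lit 9) (.e (nat_lit 336013) (nat_lit 2) .nil))))) .nil)) 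
(.lf (nat_lit 245355) (.g (nat_lit 3190) (.e (nat_lit 131091) (nat_lit 2) (.e (nat_lit 90170) (nat_lit 13) (.e (nat_lit 172106) (nat_lit 10) (.e (nat_lit 434244) (nat_lit 28) (.e (nat_lit 573474) (nat_lit 12) (.e (nat_lit 57351) (nat_lit 0) (.e (nat_lit 7124) (nat_lit 382) (.e (nat_lit 1296) (nat_lit 96) .nil)))))))) (.g (nat_lit 5) .nil .nil))))) (.nd (nat_lit 5) (.nd (nat_lit 6) 
(.lf (nat_lit 245275) (.g (nat_lit 955) (.e (nat_lit 123226) (nat_lit 280) (.e (nat_lit 57379) (nat_lit 3) (.e (nat_lit 98389) (nat_lit 33) .nil))) .nil)) 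
(.lf (nat_lit 245339) (.g (nat_lit 3615) (.e (nat_lit 131091) (nat_lit 2) (.e (nat_lit 90170) (nat_lit 13) (.e (nat_lit 172106) (nat_lit 10) (.e (nat_lit 434231) (nat_lit 23) (.e (nat_lit 532483) (nat_lit 0) .nil))))) .nil))) (.nd (nat_lit 6) 
(.lf (nat_lit 245307) (.g (nat_lit 2675) (.e (nat_lit 131087) (nat_lit 1) (.e (nat_lit 57854) (nat_lit 252) (.e (nat_lit 57389) (nat_lit 5) (.e (nat_lit 114698) (nat_lit 11) (.e (nat_lit 426315) (nat_lit 12) .nil))))) .nil)) 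
(.lf (nat_lit 245371) (.g (nat_lit 4353) (.e (nat_lit 131091) (nat_lit 2) (.e (nat_lit 90170) (nat_lit 13) (.e (nat_lit 172113) (nat_lit 10) (.e (nat_lit 434248) (nat_lit 28) (.e (nat_lit 573475) (nat_lit 12) (.e (nat_lit 57347) (nat_lit 0) (.e (nat_lit 7124) (nat_lit 382) (.e (nat_lit 1296) (nat_lit 96) .nil)))))))) (.g (nat_lit 6) .nil .nil))))))) 
(.nd (nat_lit 3) (.nd (nat_lit 4) (.nd (nat_lit 5) (.nd (nat_lit 6) 
(.lf (nat_lit 245255) (.g (nat_lit 1629) (.e (nat_lit 123214) (nat_lit 275) (.e (nat_lit 73775) (nat_lit 26) (.e (nat_lit 778361) (nat_lit 9) (.e (nat_lit 314) (nat_lit 23) (.e (nat_lit 352264) (nat_lit 0) .nil))))) .nil)) 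
(.lf (nat_lit 245319) (.g (nat_lit 1289) (.e (nat_lit 131089) (nat_lit 1) (.e (nat_lit 57692) (nat_lit 156) (.e (nat_lit 163907) (nat_lit 12) (.e (nat_lit 426131) (nat_lit 3) .nil)))) .nil))) (.nd (nat_lit 6) 
(.lf (nat_lit 245287) (.g (nat_lit 926) (.e (nat_lit 131084) (nat_lit 0) (.e (nat_lit 1800) (nat_lit 119) (.e (nat_lit 516120) (nat_lit 1) (.e (nat_lit 164183) (nat_lit 154) .nil)))) .nil)) 
(.lf (nat_lit 245351) (.g (nat_lit 1687) (.e (nat_lit 131091) (nat_lit 2) (.e (nat_lit 90170) (nat_lit 13) (.e (nat_lit 172106) (nat_lit 10) (.e (nat_lit 434244) (nat_lit 28) (.e (nat_lit 573474) (nat_lit 12) .nil))))) .nil)))) (.nd (nat_lit 5) (.nd (nat_lit 6) 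
(.lf (nat_lit 245271) (.g (nat_lit 885) (.e (nat_lit 123226) (nat_lit 280) (.e (nat_lit 57378) (nat_lit 3) (.e (nat_lit 98384) (nat_lit 32) .nil))) .nil)) 
(.lf (nat_lit 245335) (.g (nat_lit 2434) (.e (nat_lit 131091) (nat_lit 2) (.e (nat_lit 90170) (nat_lit 13) (.e (nat_lit 172082) (nat_lit 7) (.e (nat_lit 409617) (nat_lit 10) (.e (nat_lit 604) (nat_lit 45) .nil))))) .nil))) (.nd (nat_lit 6) 
(.lf (nat_lit 245303) (.g (nat_lit 531) (.e (nat_lit 131086) (nat_lit 1) (.e (nat_lit 57931) (nat_lit 282) (.e (nat_lit 171776) (nat_lit 64) .nil))) .nil)) 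
(.lf (nat_lit 245367) (.g (nat_lit 2383) (.e (nat_lit 131091) (nat_lit 2) (.e (nat_lit 90170) (nat_lit 13) (.e (nat_lit 172113) (nat_lit 10) (.e (nat_lit 434247) (nat_lit 28) (.e (nat_lit 573477) (nat_lit 12) .nil))))) .nil))))) (.nd (nat_lit 4) (.nd (nat_lit 5) (.nd (nat_lit 6) 
(.lf (nat_lit 245263) (.g (nat_lit 1449) (.e (nat_lit 123214) (nat_lit 275) (.e (nat_lit 73776) (nat_lit 26) (.e (nat_lit 778361) (nat_lit 9) (.e (nat_lit 312) (nat_lit 23) (.e (nat_lit 352258) (nat_lit 0) .nil))))) .nil)) 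
(.lf (nat_lit 245327) (.g (nat_lit 2134) (.e (nat_lit 131090) (nat_lit 2) (.e (nat_lit 90170) (nat_lit 13) (.e (nat_lit 172106) (nat_lit 10) (.e (nat_lit 434244) (nat_lit 28) .nil)))) .nil))) (.nd (nat_lit 6) 
(.lf (nat_lit 245295) (.g (nat_lit 418) (.e (nat_lit 139008) (nat_lit 0) (.e (nat_lit 2270) (nat_lit 149) (.e (nat_lit 761868) (nat_lit 5) .nil))) .nil)) 
(.lf (nat_lit 245359) (.g (nat_lit 2096) (.e (nat_lit 131091) (nat_lit 2) (.e (nat_lit 90170) (nat_lit 13) (.e (nat_lit 172113) (nat_lit 10) (.e (nat_lit 434245) (nat_lit 28) (.e (nat_lit 573473) (nat_lit 12) .nil))))) .nil)))) (.nd (nat_lit 5) (.nd (nat_lit 6) 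
(.lf (nat_lit 245279) (.g (nat_lit 2376) (.e (nat_lit 123229) (nat_lit 282) (.e (nat_lit 163902) (nat_lit 12) (.e (nat_lit 426545) (nat_lit 30) (.e (nat_lit 360475) (nat_lit 8) (.e (nat_lit 564992) (nat_lit 4) .nil))))) .nil)) 
(.lf (nat_lit 245343) (.g (nat_lit 3457) (.e (nat_lit 131091) (nat_lit 2) (.e (nat_lit 90170) (nat_lit 13) (.e (nat_lit 172106) (nat_lit 10) (.e (nat_lit 434231) (nat_lit 23) (.e (nat_lit 540416) (nat_lit 18) .nil))))) .nil))) (.nd (nat_lit 6) 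
(.lf (nat_lit 245311) (.g (nat_lit 661) (.e (nat_lit 131088) (nat_lit 1) (.e (nat_lit 57684) (nat_lit 155) (.e (nat_lit 122914) (nat_lit 14) (.e (nat_lit 360192) (nat_lit 12) .nil)))) .nil)) 
(.lf (nat_lit 245375) (.g (nat_lit 3779) (.e (nat_lit 131091) (nat_lit 2) (.e (nat_lit 90170) (nat_lit 13) (.e (nat_lit 172113) (nat_lit 10) (.e (nat_lit 434248) (nat_lit 28) (.e (nat_lit 573475) (nat_lit 12) (.e (nat_lit 57351) (nat_lit 0) (.e (nat_lit 7125) (nat_lit 382) (.e (nat_lit 1296) (nat_lit 96) .nil)))))))) (.g (nat_lit 5) .nil .nil))))))))))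

noncomputable def tv3191 : DT := (.nd (nat_lit 0) (.nd (nat_lit 1) (.nd (nat_lit 2) (.nd (nat_lit 3) (.nd (nat_lit 4) (.nd (nat_lit 5) (.nd (nat_lit 6) 
(.lf (nat_lit 245376) (.g (nat_lit 3150) (.e (nat_lit 131091) (nat_lit 2) (.e (nat_lit 90172) (nat_lit 14) (.e (nat_lit 188160) (nat_lit 33) (.e (nat_lit 8228) (nat_lit 15) (.e (nat_lit 532504) (nat_lit 1) (.e (nat_lit 57730) (nat_lit 181) (.e (nat_lit 1297) (nat_lit 96) .nil))))))) (.g (nat_lit 6) .nil .nil))) 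
(.lf (nat_lit 245440) (.g (nat_lit 3190) (.e (nat_lit 131092) (nat_lit 2) (.e (nat_lit 90170) (nat_lit 13) (.e (nat_lit 172106) (nat_lit 10) (.e (nat_lit 434244) (nat_lit 28) (.e (nat_lit 573473) (nat_lit 12) .nil))))) .nil))) (.nd (nat_lit 6) 
(.lf (nat_lit 245408) (.g (nat_lit 3774) (.e (nat_lit 131091) (nat_lit 2) (.e (nat_lit 90178) (nat_lit 15) (.e (nat_lit 188440) (nat_lit 20) (.e (nat_lit 3307) (nat_lit 202) (.e (nat_lit 573475) (nat_lit 12) (.e (nat_lit 57347) (nat_lit 0) (.e (nat_lit 7125) (nat_lit 382) (.e (nat_lit 1296) (nat_lit 96) .nil)))))))) (.g (nat_lit 5) .nil .nil))) 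
(.lf (nat_lit 245472) (.g (nat_lit 3919) (.e (nat_lit 131093) (nat_lit 2) (.e (nat_lit 90170) (nat_lit 13) (.e (nat_lit 172106) (nat_lit 10) (.e (nat_lit 434231) (nat_lit 23) (.e (nat_lit 532500) (nat_lit 1) (.e (nat_lit 65280) (nat_lit 221) (.e (nat_lit 1296) (nat_lit 96) .nil))))))) (.g (nat_lit 5) .nil .nil))))) (.nd (nat_lit 5) (.nd (nat_lit 6) 
(.lf (nat_lit 245392) (.g (nat_lit 1807) (.e (nat_lit 131091) (nat_lit 2) (.e (nat_lit 90176) (nat_lit 15) (.e (nat_lit 188450) (nat_lit 23) (.e (nat_lit 204819) (nat_lit 17) (.e (nat_lit 968) (nat_lit 81) .nil))))) .nil)) 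
(.lf (nat_lit 245456) (.g (nat_lit 2053) (.e (nat_lit 131092) (nat_lit 2) (.e (nat_lit 90178) (nat_lit 15) (.e (nat_lit 188440) (nat_lit 20) (.e (nat_lit 3307) (nat_lit 202) (.e (nat_lit 573447) (nat_lit 0) .nil))))) .nil))) (.nd (nat_lit 6) 
(.lf (nat_lit 245424) (.g (nat_lit 467) (.e (nat_lit 131091) (nat_lit 2) (.e (nat_lit 90185) (nat_lit 17) (.e (nat_lit 237605) (nat_lit 9) .nil))) .nil)) 
(.lf (nat_lit 245488) (.g (nat_lit 5159) (.e (nat_lit 131093) (nat_lit 2) (.e (nat_lit 90170) (nat_lit 13) (.e (nat_lit 172113) (nat_lit 10) (.e (nat_lit 434242) (nat_lit 28) (.e (nat_lit 573474) (nat_lit 12) (.e (nat_lit 57348) (nat_lit 0) (.e (nat_lit 7125) (nat_lit 382) (.e (nat_lit 1296) (nat_lit 96) .nil)))))))) (.g (nat_lit 7) .nil .nil)))))) 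
(.nd (nat_lit 4) (.nd (nat_lit 5) (.nd (nat_lit 6) 
(.lf (nat_lit 245384) (.g (nat_lit 2045) (.e (nat_lit 131091) (nat_lit 2) (.e (nat_lit 90176) (nat_lit 15) (.e (nat_lit 188450) (nat_lit 23) (.e (nat_lit 204807) (nat_lit 0) (.e (nat_lit 2479) (nat_lit 157) .nil))))) .nil)) 
(.lf (nat_lit 245448) (.g (nat_lit 1991) (.e (nat_lit 131092) (nat_lit 2) (.e (nat_lit 90174) (nat_lit 14) (.e (nat_lit 180225) (nat_lit 0) (.e (nat_lit 5968) (nat_lit 324) (.e (nat_lit 163871) (nat_lit 2) (.e (nat_lit 196651) (nat_lit 10) (.e (nat_lit 16128) (nat_lit 198) .nil))))))) (.g (nat_lit 4) .nil .nil)))) (.nd (nat_lit 6) 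
(.lf (nat_lit 245416) (.g (nat_lit 3437) (.e (nat_lit 131091) (nat_lit 2) (.e (nat_lit 90185) (nat_lit 17) (.e (nat_lit 237582) (nat_lit 1) (.e (nat_lit 164332) (nat_lit 230) (.e (nat_lit 163869) (nat_lit 2) (.e (nat_lit 196697) (nat_lit 19) (.e (nat_lit 57902) (nat_lit 277) .nil))))))) (.g (nat_lit 5) .nil .nil))) 
(.lf (nat_lit 245480) (.g (nat_lit 4119) (.e (nat_lit 131093) (nat_lit 2) (.e (nat_lit 90170) (nat_lit 13) (.e (nat_lit 172106) (nat_lit 10) (.e (nat_lit 434244) (nat_lit 28) (.e (nat_lit 573473) (nat_lit 12) (.e (nat_lit 57353) (nat_lit 0) (.e (nat_lit 7124) (nat_lit 382) (.e (nat_lit 1296) (nat_lit 96) .nil)))))))) (.g (nat_lit 7) .nil .nil))))) (.nd (nat_lit 5) (.nd (nat_lit 6) 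
(.lf (nat_lit 245400) (.g (nat_lit 2049) (.e (nat_lit 131091) (nat_lit 2) (.e (nat_lit 90176) (nat_lit 15) (.e (nat_lit 188452) (nat_lit 23) (.e (nat_lit 212736) (nat_lit 1) .nil)))) .nil)) 
(.lf (nat_lit 245464) (.g (nat_lit 4121) (.e (nat_lit 131093) (nat_lit 2) (.e (nat_lit 90170) (nat_lit 13) (.e (nat_lit 172106) (nat_lit 10) (.e (nat_lit 434231) (nat_lit 23) (.e (nat_lit 532481) (nat_lit 0) (.e (nat_lit 1911) (nat_lit 129) (.e (nat_lit 598043) (nat_lit 12) .nil))))))) (.g (nat_lit 5) .nil .nil)))) (.nd (nat_lit 6) 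
(.lf (nat_lit 245432) (.g (nat_lit 1926) (.e (nat_lit 131091) (nat_lit 2) (.e (nat_lit 90185) (nat_lit 17) (.e (nat_lit 237605) (nat_lit 9) (.e (nat_lit 426131) (nat_lit 3) (.e (nat_lit 212736) (nat_lit 4) (.e (nat_lit 229545) (nat_lit 152) (.e (nat_lit 1296) (nat_lit 96) .nil))))))) (.g (nat_lit 4) .nil .nil))) 
(.lf (nat_lit 245496) (.g (nat_lit 3585) (.e (nat_lit 131093) (nat_lit 2) (.e (nat_lit 90170) (nat_lit 13) (.e (nat_lit 172113) (nat_lit 10) (.e (nat_lit 434245) (nat_lit 28) (.e (nat_lit 573474) (nat_lit 12) (.e (nat_lit 57347) (nat_lit 0) (.e (nat_lit 7122) (nat_lit 382) (.e (nat_lit 1296) (nat_lit 96) .nil)))))))) (.g (nat_lit 5) .nil .nil))))))) 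
(.nd (nat_lit 3) (.nd (nat_lit 4) (.nd (nat_lit 5) (.nd (nat_lit 6) 
(.lf (nat_lit 245380) (.g (nat_lit 1408) (.e (nat_lit 131091) (nat_lit 2) (.e (nat_lit 90176) (nat_lit 15) (.e (nat_lit 188447) (nat_lit 22) (.e (nat_lit 196661) (nat_lit 12) .nil)))) .nil)) 
(.lf (nat_lit 245444) (.g (nat_lit 2244) (.e (nat_lit 131092) (nat_lit 2) (.e (nat_lit 90170) (nat_lit 13) (.e (nat_lit 172113) (nat_lit 10) (.e (nat_lit 434248) (nat_lit 28) (.e (nat_lit 573473) (nat_lit 12) .nil))))) .nil))) (.nd (nat_lit 6) 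
(.lf (nat_lit 245412) (.g (nat_lit 1210) (.e (nat_lit 131091) (nat_lit 2) (.e (nat_lit 90181) (nat_lit 16) (.e (nat_lit 237312) (nat_lit 192) (.e (nat_lit 73746) (nat_lit 3) (.e (nat_lit 516104) (nat_lit 0) (.e (nat_lit 7936) (nat_lit 409) .nil)))))) (.g (nat_lit 4) .nil .nil))) 
(.lf (nat_lit 245476) (.g (nat_lit 2190) (.e (nat_lit 131093) (nat_lit 2) (.e (nat_lit 90170) (nat_lit 13) (.e (nat_lit 172106) (nat_lit 10) (.e (nat_lit 434244) (nat_lit 28) (.e (nat_lit 573473) (nat_lit 12) .nil))))) .nil)))) (.nd (nat_lit 5) (.nd (nat_lit 6) 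
(.lf (nat_lit 245396) (.g (nat_lit 2156) (.e (nat_lit 131091) (nat_lit 2) (.e (nat_lit 90176) (nat_lit 15) (.e (nat_lit 188450) (nat_lit 23) (.e (nat_lit 204821) (nat_lit 17) (.e (nat_lit 1908) (nat_lit 129) (.e (nat_lit 598043) (nat_lit 12) .nil)))))) (.g (nat_lit 4) .nil .nil))) 
(.lf (nat_lit 245460) (.g (nat_lit 752) (.e (nat_lit 131093) (nat_lit 2) (.e (nat_lit 90165) (nat_lit 12) (.e (nat_lit 171776) (nat_lit 194) (.e (nat_lit 131093) (nat_lit 2) (.e (nat_lit 90165) (nat_lit 12) (.e (nat_lit 171776) (nat_lit 194) .nil)))))) (.g (nat_lit 4) .nil .nil)))) (.nd (nat_lit 6) 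
(.lf (nat_lit 245428) (.g (nat_lit 1538) (.e (nat_lit 131091) (nat_lit 2) (.e (nat_lit 90185) (nat_lit 17) (.e (nat_lit 237605) (nat_lit 9) (.e (nat_lit 426131) (nat_lit 3) (.e (nat_lit 212736) (nat_lit 1) (.e (nat_lit 164153) (nat_lit 152) (.e (nat_lit 1298) (nat_lit 96) .nil))))))) (.g (nat_lit 4) .nil .nil))) 
(.lf (nat_lit 245492) (.g (nat_lit 2836) (.e (nat_lit 131093) (nat_lit 2) (.e (nat_lit 90170) (nat_lit 13) (.e (nat_lit 172113) (nat_lit 10) (.e (nat_lit 434245) (nat_lit 28) (.e (nat_lit 573473) (nat_lit 12) (.e (nat_lit 57352) (nat_lit 0) (.e (nat_lit 7125) (nat_lit 382) (.e (nat_lit 1296) (nat_lit 96) .nil)))))))) (.g (nat_lit 4) .nil .nil)))))) 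
(.nd (nat_lit 4) (.nd (nat_lit 5) (.nd (nat_lit 6) 
(.lf (nat_lit 245388) (.g (nat_lit 1460) (.e (nat_lit 131091) (nat_lit 2) (.e (nat_lit 90176) (nat_lit 15) (.e (nat_lit 188450) (nat_lit 23) (.e (nat_lit 212736) (nat_lit 4) .nil)))) .nil)) 
(.lf (nat_lit 245452) (.g (nat_lit 1341) (.e (nat_lit 131092) (nat_lit 2) (.e (nat_lit 90176) (nat_lit 15) (.e (nat_lit 188450) (nat_lit 23) (.e (nat_lit 204817) (nat_lit 17) .nil)))) .nil))) (.nd (nat_lit 6) 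
(.lf (nat_lit 245420) (.g (nat_lit 1299) (.e (nat_lit 131091) (nat_lit 2) (.e (nat_lit 90185) (nat_lit 17) (.e (nat_lit 237585) (nat_lit 1) (.e (nat_lit 164332) (nat_lit 230) (.e (nat_lit 163869) (nat_lit 2) .nil))))) .nil)) 
(.lf (nat_lit 245484) (.g (nat_lit 1928) (.e (nat_lit 131093) (nat_lit 2) (.e (nat_lit 90170) (nat_lit 13) (.e (nat_lit 172106) (nat_lit 10) (.e (nat_lit 434244) (nat_lit 28) (.e (nat_lit 573474) (nat_lit 12) (.e (nat_lit 57351) (nat_lit 0) (.e (nat_lit 7119) (nat_lit 382) (.e (nat_lit 1296) (nat_lit 96) .nil)))))))) (.g (nat_lit 4) .nil .nil))))) (.nd (nat_lit 5) (.nd (nat_lit 6) 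
(.lf (nat_lit 245404) (.g (nat_lit 2176) (.e (nat_lit 131091) (nat_lit 2) (.e (nat_lit 90178) (nat_lit 15) (.e (nat_lit 188440) (nat_lit 20) (.e (nat_lit 3307) (nat_lit 202) (.e (nat_lit 573473) (nat_lit 12) (.e (nat_lit 57347) (nat_lit 0) (.e (nat_lit 7125) (nat_lit 382) (.e (nat_lit 1296) (nat_lit 96) .nil)))))))) (.g (nat_lit 4) .nil .nil))) 
(.lf (nat_lit 245468) (.g (nat_lit 3366) (.e (nat_lit 131093) (nat_lit 2) (.e (nat_lit 90170) (nat_lit 13) (.e (nat_lit 172106) (nat_lit 10) (.e (nat_lit 434231) (nat_lit 23) (.e (nat_lit 532490) (nat_lit 0) (.e (nat_lit 1909) (nat_lit 129) (.e (nat_lit 598043) (nat_lit 12) .nil))))))) (.g (nat_lit 5) .nil .nil)))) (.nd (nat_lit 6) 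
(.lf (nat_lit 245436) (.g (nat_lit 1523) (.e (nat_lit 131091) (nat_lit 2) (.e (nat_lit 90185) (nat_lit 17) (.e (nat_lit 237605) (nat_lit 9) (.e (nat_lit 426428) (nat_lit 17) (.e (nat_lit 90165) (nat_lit 12) .nil))))) .nil)) 
(.lf (nat_lit 245500) (.g (nat_lit 3869) (.e (nat_lit 131093) (nat_lit 2) (.e (nat_lit 90170) (nat_lit 13) (.e (nat_lit 172113) (nat_lit 10) (.e (nat_lit 434245) (nat_lit 28) (.e (nat_lit 573474) (nat_lit 12) (.e (nat_lit 57353) (nat_lit 0) (.e (nat_lit 7124) (nat_lit 382) (.e (nat_lit 1296) (nat_lit 96) .nil)))))))) (.g (nat_lit 5) .nil .nil)))))))) 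
(.nd (nat_lit 2) (.nd (nat_lit 3) (.nd (nat_lit 4) (.nd (nat_lit 5) (.nd (nat_lit 6) 
(.lf (nat_lit 245378) (.g (nat_lit 1433) (.e (nat_lit 131091) (nat_lit 2) (.e (nat_lit 90176) (nat_lit 15) (.e (nat_lit 188439) (nat_lit 20) (.e (nat_lit 3272) (nat_lit 199) (.e (nat_lit 548910) (nat_lit 17) .nil))))) .nil)) 
(.lf (nat_lit 245442) (.g (nat_lit 2465) (.e (nat_lit 131092) (nat_lit 2) (.e (nat_lit 90170) (nat_lit 13) (.e (nat_lit 172113) (nat_lit 10) (.e (nat_lit 434245) (nat_lit 28) (.e (nat_lit 573474) (nat_lit 12) (.e (nat_lit 57348) (nat_lit 0) (.e (nat_lit 7125) (nat_lit 382) (.e (nat_lit 1296) (nat_lit 96) .nil)))))))) (.g (nat_lit 4) .nil .nil)))) (.nd (nat_lit 6) 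
(.lf (nat_lit 245410) (.g (nat_lit 1044) (.e (nat_lit 131091) (nat_lit 2) (.e (nat_lit 90181) (nat_lit 16) (.e (nat_lit 237312) (nat_lit 191) (.e (nat_lit 65568) (nat_lit 2) (.e (nat_lit 90165) (nat_lit 12) (.e (nat_lit 171776) (nat_lit 194) .nil)))))) (.g (nat_lit 4) .nil .nil))) 
(.lf (nat_lit 245474) (.g (nat_lit 2673) (.e (nat_lit 131093) (nat_lit 2) (.e (nat_lit 90170) (nat_lit 13) (.e (nat_lit 172106) (nat_lit 10) (.e (nat_lit 434231) (nat_lit 23) (.e (nat_lit 540416) (nat_lit 18) .nil))))) .nil)))) (.nd (nat_lit 5) (.nd (nat_lit 6) 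
(.lf (nat_lit 245394) (.g (nat_lit 1280) (.e (nat_lit 131091) (nat_lit 2) (.e (nat_lit 90176) (nat_lit 15) (.e (nat_lit 188450) (nat_lit 23) (.e (nat_lit 204821) (nat_lit 17) .nil)))) .nil)) 
(.lf (nat_lit 245458) (.g (nat_lit 2610) (.e (nat_lit 131093) (nat_lit 2) (.e (nat_lit 90165) (nat_lit 12) (.e (nat_lit 164208) (nat_lit 176) (.e (nat_lit 2781) (nat_lit 178) (.e (nat_lit 286733) (nat_lit 2) (.e (nat_lit 90165) (nat_lit 12) (.e (nat_lit 171776) (nat_lit 194) .nil))))))) (.g (nat_lit 6) .nil .nil)))) (.nd (nat_lit 6) 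
(.lf (nat_lit 245426) (.g (nat_lit 1408) (.e (nat_lit 131091) (nat_lit 2) (.e (nat_lit 90185) (nat_lit 17) (.e (nat_lit 237605) (nat_lit 9) (.e (nat_lit 426131) (nat_lit 3) (.e (nat_lit 212736) (nat_lit 1) .nil))))) .nil)) 
(.lf (nat_lit 245490) (.g (nat_lit 4234) (.e (nat_lit 131093) (nat_lit 2) (.e (nat_lit 90170) (nat_lit 13) (.e (nat_lit 172113) (nat_lit 10) (.e (nat_lit 434245) (nat_lit 28) (.e (nat_lit 573473) (nat_lit 12) (.e (nat_lit 57347) (nat_lit 0) (.e (nat_lit 7125) (nat_lit 382) (.e (nat_lit 1296) (nat_lit 96) .nil)))))))) (.g (nat_lit 6) .nil .nil)))))) 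
(.nd (nat_lit 4) (.nd (nat_lit 5) (.nd (nat_lit 6) 
(.lf (nat_lit 245386) (.g (nat_lit 1460) (.e (nat_lit 131091) (nat_lit 2) (.e (nat_lit 90176) (nat_lit 15) (.e (nat_lit 188450) (nat_lit 23) (.e (nat_lit 212736) (nat_lit 1) .nil)))) .nil)) 
(.lf (nat_lit 245450) (.g (nat_lit 1522) (.e (nat_lit 131092) (nat_lit 2) (.e (nat_lit 90176) (nat_lit 15) (.e (nat_lit 188450) (nat_lit 23) (.e (nat_lit 212736) (nat_lit 1) .nil)))) .nil))) (.nd (nat_lit 6) 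
(.lf (nat_lit 245418) (.g (nat_lit 1610) (.e (nat_lit 131091) (nat_lit 2) (.e (nat_lit 90185) (nat_lit 17) (.e (nat_lit 237584) (nat_lit 1) (.e (nat_lit 164325) (nat_lit 230) (.e (nat_lit 163844) (nat_lit 0) .nil))))) .nil)) 
(.lf (nat_lit 245482) (.g (nat_lit 2994) (.e (nat_lit 131093) (nat_lit 2) (.e (nat_lit 90170) (nat_lit 13) (.e (nat_lit 172106) (nat_lit 10) (.e (nat_lit 434244) (nat_lit 28) (.e (nat_lit 573474) (nat_lit 12) (.e (nat_lit 57347) (nat_lit 0) (.e (nat_lit 7122) (nat_lit 382) (.e (nat_lit 1296) (nat_lit 96) .nil)))))))) (.g (nat_lit 5) .nil .nil))))) (.nd (nat_lit 5) (.nd (nat_lit 6) 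
(.lf (nat_lit 245402) (.g (nat_lit 2062) (.e (nat_lit 131091) (nat_lit 2) (.e (nat_lit 90178) (nat_lit 15) (.e (nat_lit 188440) (nat_lit 20) (.e (nat_lit 3307) (nat_lit 202) (.e (nat_lit 573467) (nat_lit 10) .nil))))) .nil)) 
(.lf (nat_lit 245466) (.g (nat_lit 3058) (.e (nat_lit 131093) (nat_lit 2) (.e (nat_lit 90170) (nat_lit 13) (.e (nat_lit 172106) (nat_lit 10) (.e (nat_lit 434231) (nat_lit 23) (.e (nat_lit 532483) (nat_lit 0) (.e (nat_lit 7936) (nat_lit 129) (.e (nat_lit 598043) (nat_lit 12) .nil))))))) (.g (nat_lit 4) .nil .nil)))) (.nd (nat_lit 6) 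
(.lf (nat_lit 245434) (.g (nat_lit 1535) (.e (nat_lit 131091) (nat_lit 2) (.e (nat_lit 90185) (nat_lit 17) (.e (nat_lit 237605) (nat_lit 9) (.e (nat_lit 426131) (nat_lit 3) (.e (nat_lit 204817) (nat_lit 17) (.e (nat_lit 7936) (nat_lit 129) (.e (nat_lit 598043) (nat_lit 12) .nil))))))) (.g (nat_lit 4) .nil .nil))) 
(.lf (nat_lit 245498) (.g (nat_lit 3528) (.e (nat_lit 131093) (nat_lit 2) (.e (nat_lit 90170) (nat_lit 13) (.e (nat_lit 172113) (nat_lit 10) (.e (nat_lit 434245) (nat_lit 28) (.e (nat_lit 573474) (nat_lit 12) (.e (nat_lit 57348) (nat_lit 0) (.e (nat_lit 7122) (nat_lit 382) (.e (nat_lit 1296) (nat_lit 96) .nil)))))))) (.g (nat_lit 5) .nil .nil))))))) 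
(.nd (nat_lit 3) (.nd (nat_lit 4) (.nd (nat_lit 5) (.nd (nat_lit 6) 
(.lf (nat_lit 245382) (.g (nat_lit 2365) (.e (nat_lit 131091) (nat_lit 2) (.e (nat_lit 90176) (nat_lit 15) (.e (nat_lit 188447) (nat_lit 22) (.e (nat_lit 196661) (nat_lit 12) (.e (nat_lit 57489) (nat_lit 33) (.e (nat_lit 598043) (nat_lit 12) .nil)))))) (.g (nat_lit 4) .nil .nil))) 
(.lf (nat_lit 245446) (.g (nat_lit 2683) (.e (nat_lit 131092) (nat_lit 2) (.e (nat_lit 90172) (nat_lit 14) (.e (nat_lit 188160) (nat_lit 33) (.e (nat_lit 8228) (nat_lit 15) (.e (nat_lit 532504) (nat_lit 1) (.e (nat_lit 57730) (nat_lit 181) (.e (nat_lit 1297) (nat_lit 96) .nil))))))) (.g (nat_lit 6) .nil .nil)))) (.nd (nat_lit 6) 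
(.lf (nat_lit 245414) (.g (nat_lit 678) (.e (nat_lit 131091) (nat_lit 2) (.e (nat_lit 90185) (nat_lit 17) (.e (nat_lit 237582) (nat_lit 1) .nil))) .nil)) 
(.lf (nat_lit 245478) (.g (nat_lit 2487) (.e (nat_lit 131093) (nat_lit 2) (.e (nat_lit 90170) (nat_lit 13) (.e (nat_lit 172106) (nat_lit 10) (.e (nat_lit 434244) (nat_lit 28) (.e (nat_lit 573473) (nat_lit 12) (.e (nat_lit 57348) (nat_lit 0) (.e (nat_lit 7119) (nat_lit 382) (.e (nat_lit 1296) (nat_lit 96) .nil)))))))) (.g (nat_lit 4) .nil .nil))))) (.nd (nat_lit 5) (.nd (nat_lit 6) 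
(.lf (nat_lit 245398) (.g (nat_lit 1490) (.e (nat_lit 131091) (nat_lit 2) (.e (nat_lit 90176) (nat_lit 15) (.e (nat_lit 188450) (nat_lit 23) (.e (nat_lit 204829) (nat_lit 18) .nil)))) .nil)) 
(.lf (nat_lit 245462) (.g (nat_lit 1603) (.e (nat_lit 131093) (nat_lit 2) (.e (nat_lit 90170) (nat_lit 13) (.e (nat_lit 172082) (nat_lit 7) (.e (nat_lit 409612) (nat_lit 10) .nil)))) .nil))) (.nd (nat_lit 6) 
(.lf (nat_lit 245430) (.g (nat_lit 1935) (.e (nat_lit 131091) (nat_lit 2) (.e (nat_lit 90185) (nat_lit 17) (.e (nat_lit 237605) (nat_lit 9) (.e (nat_lit 426131) (nat_lit 3) (.e (nat_lit 212736) (nat_lit 1) (.e (nat_lit 164158) (nat_lit 152) (.e (nat_lit 1296) (nat_lit 96) .nil))))))) (.g (nat_lit 4) .nil .nil))) 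
(.lf (nat_lit 245494) (.g (nat_lit 4338) (.e (nat_lit 131093) (nat_lit 2) (.e (nat_lit 90170) (nat_lit 13) (.e (nat_lit 172113) (nat_lit 10) (.e (nat_lit 434245) (nat_lit 28) (.e (nat_lit 573473) (nat_lit 12) (.e (nat_lit 57353) (nat_lit 0) (.e (nat_lit 7125) (nat_lit 382) (.e (nat_lit 1296) (nat_lit 96) .nil)))))))) (.g (nat_lit 8) .nil .nil)))))) 
(.nd (nat_lit 4) (.nd (nat_lit 5) (.nd (nat_lit 6) 
(.lf (nat_lit 245390) (.g (nat_lit 1236) (.e (nat_lit 131091) (nat_lit 2) (.e (nat_lit 90176) (nat_lit 15) (.e (nat_lit 188450) (nat_lit 23) (.e (nat_lit 204816) (nat_lit 17) .nil)))) .nil)) 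
(.lf (nat_lit 245454) (.g (nat_lit 1395) (.e (nat_lit 131092) (nat_lit 2) (.e (nat_lit 90176) (nat_lit 15) (.e (nat_lit 188450) (nat_lit 23) (.e (nat_lit 204830) (nat_lit 18) .nil)))) .nil))) (.nd (nat_lit 6) 
(.lf (nat_lit 245422) (.g (nat_lit 1366) (.e (nat_lit 131091) (nat_lit 2) (.e (nat_lit 90185) (nat_lit 17) (.e (nat_lit 237598) (nat_lit 7) .nil))) .nil)) 
(.lf (nat_lit 245486) (.g (nat_lit 3326) (.e (nat_lit 131093) (nat_lit 2) (.e (nat_lit 90170) (nat_lit 13) (.e (nat_lit 172106) (nat_lit 10) (.e (nat_lit 434244) (nat_lit 28) (.e (nat_lit 573474) (nat_lit 12) (.e (nat_lit 57353) (nat_lit 0) (.e (nat_lit 7124) (nat_lit 382) (.e (nat_lit 1296) (nat_lit 96) .nil)))))))) (.g (nat_lit 5) .nil .nil))))) (.nd (nat_lit 5) (.nd (nat_lit 6) 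
(.lf (nat_lit 245406) (.g (nat_lit 2329) (.e (nat_lit 131091) (nat_lit 2) (.e (nat_lit 90178) (nat_lit 15) (.e (nat_lit 188440) (nat_lit 20) (.e (nat_lit 3307) (nat_lit 202) (.e (nat_lit 573473) (nat_lit 12) (.e (nat_lit 57353) (nat_lit 0) (.e (nat_lit 7125) (nat_lit 382) (.e (nat_lit 1296) (nat_lit 96) .nil)))))))) (.g (nat_lit 4) .nil .nil))) 
(.lf (nat_lit 245470) (.g (nat_lit 2596) (.e (nat_lit 131093) (nat_lit 2) (.e (nat_lit 90170) (nat_lit 13) (.e (nat_lit 172106) (nat_lit 10) (.e (nat_lit 434231) (nat_lit 23) (.e (nat_lit 532499) (nat_lit 1) (.e (nat_lit 57767) (nat_lit 221) (.e (nat_lit 1294) (nat_lit 96) .nil))))))) (.g (nat_lit 4) .nil .nil)))) (.nd (nat_lit 6) 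
(.lf (nat_lit 245438) (.g (nat_lit 2519) (.e (nat_lit 131092) (nat_lit 2) (.e (nat_lit 90170) (nat_lit 13) (.e (nat_lit 172106) (nat_lit 10) (.e (nat_lit 434231) (nat_lit 23) .nil)))) .nil)) 
(.lf (nat_lit 245502) (.g (nat_lit 2867) (.e (nat_lit 131093) (nat_lit 2) (.e (nat_lit 90170) (nat_lit 13) (.e (nat_lit 172113) (nat_lit 10) (.e (nat_lit 434247) (nat_lit 28) (.e (nat_lit 573475) (nat_lit 12) (.e (nat_lit 57347) (nat_lit 0) (.e (nat_lit 7125) (nat_lit 382) (.e (nat_lit 1296) (nat_lit 96) .nil)))))))) (.g (nat_lit 4) .nil .nil))))))))) 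
(.nd (nat_lit 1) (.nd (nat_lit 2) (.nd (nat_lit 3) (.nd (nat_lit 4) (.nd (nat_lit 5) 
(.nd (nat_lit 6) 
(.lf (nat_lit 245377) (.g (nat_lit 1772) (.e (nat_lit 131091) (nat_lit 2) (.e (nat_lit 90174) (nat_lit 14) (.e (nat_lit 180288) (nat_lit 45) (.e (nat_lit 2427) (nat_lit 157) (.e (nat_lit 604) (nat_lit 45) .nil))))) .nil)) 
(.lf (nat_lit 245441) (.g (nat_lit 2187) (.e (nat_lit 131092) (nat_lit 2) (.e (nat_lit 90170) (nat_lit 13) (.e (nat_lit 172113) (nat_lit 10) (.e (nat_lit 434245) (nat_lit 28) (.e (nat_lit 573473) (nat_lit 12) .nil))))) .nil))) (.nd (nat_lit 6) 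
(.lf (nat_lit 245409) (.g (nat_lit 2146) (.e (nat_lit 131091) (nat_lit 2) (.e (nat_lit 90178) (nat_lit 15) (.e (nat_lit 188440) (nat_lit 20) (.e (nat_lit 3307) (nat_lit 202) (.e (nat_lit 573478) (nat_lit 12) .nil))))) .nil)) 
(.lf (nat_lit 245473) (.g (nat_lit 2914) (.e (nat_lit 131093) (nat_lit 2) (.e (nat_lit 90170) (nat_lit 13) (.e (nat_lit 172106) (nat_lit 10) (.e (nat_lit 434231) (nat_lit 23) (.e (nat_lit 532577) (nat_lit 17) .nil))))) .nil)))) (.nd (nat_lit 5) (.nd (nat_lit 6) 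
(.lf (nat_lit 245393) (.g (nat_lit 1791) (.e (nat_lit 131091) (nat_lit 2) (.e (nat_lit 90176) (nat_lit 15) (.e (nat_lit 188450) (nat_lit 23) (.e (nat_lit 204819) (nat_lit 17) (.e (nat_lit 970) (nat_lit 81) .nil))))) .nil)) 
(.lf (nat_lit 245457) (.g (nat_lit 206) (.e (nat_lit 131092) (nat_lit 2) (.e (nat_lit 90181) (nat_lit 16) (.e (nat_lit 237312) (nat_lit 192) .nil))) .nil))) (.nd (nat_lit 6) 
(.lf (nat_lit 245425) (.g (nat_lit 778) (.e (nat_lit 131091) (nat_lit 2) (.e (nat_lit 90185) (nat_lit 17) (.e (nat_lit 237605) (nat_lit 9) (.e (nat_lit 426131) (nat_lit 3) .nil)))) .nil)) 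
(.lf (nat_lit 245489) (.g (nat_lit 3195) (.e (nat_lit 131093) (nat_lit 2) (.e (nat_lit 90170) (nat_lit 13) (.e (nat_lit 172113) (nat_lit 10) (.e (nat_lit 434242) (nat_lit 28) (.e (nat_lit 573474) (nat_lit 12) (.e (nat_lit 57351) (nat_lit 0) (.e (nat_lit 7124) (nat_lit 382) (.e (nat_lit 1296) (nat_lit 96) .nil)))))))) (.g (nat_lit 5) .nil .nil)))))) 
(.nd (nat_lit 4) (.nd (nat_lit 5) (.nd (nat_lit 6) 
(.lf (nat_lit 245385) (.g (nat_lit 1460) (.e (nat_lit 131091) (nat_lit 2) (.e (nat_lit 90176) (nat_lit 15) (.e (nat_lit 188450) (nat_lit 23) (.e (nat_lit 212736) (nat_lit 0) .nil)))) .nil)) 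
(.lf (nat_lit 245449) (.g (nat_lit 1463) (.e (nat_lit 131092) (nat_lit 2) (.e (nat_lit 90176) (nat_lit 15) (.e (nat_lit 188447) (nat_lit 22) (.e (nat_lit 196661) (nat_lit 12) .nil)))) .nil))) (.nd (nat_lit 6) 
(.lf (nat_lit 245417) (.g (nat_lit 614) (.e (nat_lit 131091) (nat_lit 2) (.e (nat_lit 90185) (nat_lit 17) (.e (nat_lit 237584) (nat_lit 1) .nil))) .nil)) 
(.lf (nat_lit 245481) (.g (nat_lit 1779) (.e (nat_lit 131093) (nat_lit 2) (.e (nat_lit 90170) (nat_lit 13) (.e (nat_lit 172106) (nat_lit 10) (.e (nat_lit 434244) (nat_lit 28) (.e (nat_lit 573474) (nat_lit 12) .nil))))) .nil)))) (.nd (nat_lit 5) (.nd (nat_lit 6) 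
(.lf (nat_lit 245401) (.g (nat_lit 2970) (.e (nat_lit 131091) (nat_lit 2) (.e (nat_lit 90176) (nat_lit 15) (.e (nat_lit 188452) (nat_lit 23) (.e (nat_lit 204816) (nat_lit 17) .nil)))) .nil)) 
(.lf (nat_lit 245465) (.g (nat_lit 3021) (.e (nat_lit 131093) (nat_lit 2) (.e (nat_lit 90170) (nat_lit 13) (.e (nat_lit 172106) (nat_lit 10) (.e (nat_lit 434231) (nat_lit 23) (.e (nat_lit 532483) (nat_lit 0) .nil))))) .nil))) (.nd (nat_lit 6) 
(.lf (nat_lit 245433) (.g (nat_lit 1810) (.e (nat_lit 131091) (nat_lit 2) (.e (nat_lit 90185) (nat_lit 17) (.e (nat_lit 237605) (nat_lit 9) (.e (nat_lit 426131) (nat_lit 3) (.e (nat_lit 204817) (nat_lit 17) (.e (nat_lit 1905) (nat_lit 129) (.e (nat_lit 598043) (nat_lit 12) .nil))))))) (.g (nat_lit 4) .nil .nil))) 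
(.lf (nat_lit 245497) (.g (nat_lit 5582) (.e (nat_lit 131093) (nat_lit 2) (.e (nat_lit 90170) (nat_lit 13) (.e (nat_lit 172113) (nat_lit 10) (.e (nat_lit 434245) (nat_lit 28) (.e (nat_lit 573474) (nat_lit 12) (.e (nat_lit 57347) (nat_lit 0) (.e (nat_lit 7125) (nat_lit 382) (.e (nat_lit 1296) (nat_lit 96) .nil)))))))) (.g (nat_lit 8) .nil .nil))))))) 
(.nd (nat_lit 3) (.nd (nat_lit 4) (.nd (nat_lit 5) (.nd (nat_lit 6) 
(.lf (nat_lit 245381) (.g (nat_lit 1797) (.e (nat_lit 131091) (nat_lit 2) (.e (nat_lit 90176) (nat_lit 15) (.e (nat_lit 188447) (nat_lit 22) (.e (nat_lit 196661) (nat_lit 12) (.e (nat_lit 57353) (nat_lit 0) .nil))))) .nil)) 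
(.lf (nat_lit 245445) (.g (nat_lit 2273) (.e (nat_lit 131092) (nat_lit 2) (.e (nat_lit 90170) (nat_lit 13) (.e (nat_lit 172113) (nat_lit 10) (.e (nat_lit 434248) (nat_lit 28) (.e (nat_lit 573475) (nat_lit 12) .nil))))) .nil))) (.nd (nat_lit 6) 
(.lf (nat_lit 245413) (.g (nat_lit 1246) (.e (nat_lit 131091) (nat_lit 2) (.e (nat_lit 90181) (nat_lit 16) (.e (nat_lit 237312) (nat_lit 192) (.e (nat_lit 73746) (nat_lit 3) (.e (nat_lit 516105) (nat_lit 0) (.e (nat_lit 7936) (nat_lit 409) .nil)))))) (.g (nat_lit 5) .nil .nil))) 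
(.lf (nat_lit 245477) (.g (nat_lit 3482) (.e (nat_lit 131093) (nat_lit 2) (.e (nat_lit 90170) (nat_lit 13) (.e (nat_lit 172106) (nat_lit 10) (.e (nat_lit 434244) (nat_lit 28) (.e (nat_lit 573473) (nat_lit 12) (.e (nat_lit 57347) (nat_lit 0) (.e (nat_lit 7125) (nat_lit 382) (.e (nat_lit 1296) (nat_lit 96) .nil)))))))) (.g (nat_lit 6) .nil .nil))))) (.nd (nat_lit 5) (.nd (nat_lit 6) 
(.lf (nat_lit 245397) (.g (nat_lit 1943) (.e (nat_lit 131091) (nat_lit 2) (.e (nat_lit 90176) (nat_lit 15) (.e (nat_lit 188450) (nat_lit 23) (.e (nat_lit 204821) (nat_lit 17) (.e (nat_lit 1909) (nat_lit 129) (.e (nat_lit 598043) (nat_lit 12) .nil)))))) (.g (nat_lit 4) .nil .nil))) 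
(.lf (nat_lit 245461) (.g (nat_lit 468) (.e (nat_lit 131093) (nat_lit 2) (.e (nat_lit 90170) (nat_lit 13) (.e (nat_lit 172079) (nat_lit 7) .nil))) .nil))) (.nd (nat_lit 6) 
(.lf (nat_lit 245429) (.g (nat_lit 1894) (.e (nat_lit 131091) (nat_lit 2) (.e (nat_lit 90185) (nat_lit 17) (.e (nat_lit 237605) (nat_lit 9) (.e (nat_lit 426131) (nat_lit 3) (.e (nat_lit 212736) (nat_lit 1) (.e (nat_lit 164154) (nat_lit 152) (.e (nat_lit 1296) (nat_lit 96) .nil))))))) (.g (nat_lit 4) .nil .nil))) 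
(.lf (nat_lit 245493) (.g (nat_lit 2841) (.e (nat_lit 131093) (nat_lit 2) (.e (nat_lit 90170) (nat_lit 13) (.e (nat_lit 172113) (nat_lit 10) (.e (nat_lit 434245) (nat_lit 28) (.e (nat_lit 573473) (nat_lit 12) (.e (nat_lit 57353) (nat_lit 0) (.e (nat_lit 7122) (nat_lit 382) (.e (nat_lit 1296) (nat_lit 96) .nil)))))))) (.g (nat_lit 4) .nil .nil)))))) 
(.nd (nat_lit 4) (.nd (nat_lit 5) (.nd (nat_lit 6) 
(.lf (nat_lit 245389) (.g (nat_lit 1227) (.e (nat_lit 131091) (nat_lit 2) (.e (nat_lit 90176) (nat_lit 15) (.e (nat_lit 188450) (nat_lit 23) (.e (nat_lit 204815) (nat_lit 17) .nil)))) .nil)) 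
(.lf (nat_lit 245453) (.g (nat_lit 1279) (.e (nat_lit 131092) (nat_lit 2) (.e (nat_lit 90176) (nat_lit 15) (.e (nat_lit 188450) (nat_lit 23) (.e (nat_lit 204821) (nat_lit 17) .nil)))) .nil))) (.nd (nat_lit 6) 
(.lf (nat_lit 245421) (.g (nat_lit 3390) (.e (nat_lit 131091) (nat_lit 2) (.e (nat_lit 90185) (nat_lit 17) (.e (nat_lit 237585) (nat_lit 1) (.e (nat_lit 164332) (nat_lit 230) (.e (nat_lit 163869) (nat_lit 2) (.e (nat_lit 196697) (nat_lit 19) (.e (nat_lit 57902) (nat_lit 277) .nil))))))) (.g (nat_lit 5) .nil .nil))) 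
(.lf (nat_lit 245485) (.g (nat_lit 3277) (.e (nat_lit 131093) (nat_lit 2) (.e (nat_lit 90170) (nat_lit 13) (.e (nat_lit 172106) (nat_lit 10) (.e (nat_lit 434244) (nat_lit 28) (.e (nat_lit 573474) (nat_lit 12) (.e (nat_lit 57351) (nat_lit 0) (.e (nat_lit 7122) (nat_lit 382) (.e (nat_lit 1296) (nat_lit 96) .nil)))))))) (.g (nat_lit 5) .nil .nil))))) (.nd (nat_lit 5) (.nd (nat_lit 6) 
(.lf (nat_lit 245405) (.g (nat_lit 2394) (.e (nat_lit 131091) (nat_lit 2) (.e (nat_lit 90178) (nat_lit 15) (.e (nat_lit 188440) (nat_lit 20) (.e (nat_lit 3307) (nat_lit 202) (.e (nat_lit 573473) (nat_lit 12) (.e (nat_lit 57348) (nat_lit 0) (.e (nat_lit 7125) (nat_lit 382) (.e (nat_lit 1296) (nat_lit 96) .nil)))))))) (.g (nat_lit 4) .nil .nil))) 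
(.lf (nat_lit 245469) (.g (nat_lit 3150) (.e (nat_lit 131093) (nat_lit 2) (.e (nat_lit 90170) (nat_lit 13) (.e (nat_lit 172106) (nat_lit 10) (.e (nat_lit 434231) (nat_lit 23) (.e (nat_lit 532490) (nat_lit 0) (.e (nat_lit 1910) (nat_lit 129) (.e (nat_lit 598043) (nat_lit 12) .nil))))))) (.g (nat_lit 5) .nil .nil)))) (.nd (nat_lit 6) 
(.lf (nat_lit 245437) (.g (nat_lit 212) (.e (nat_lit 131092) (nat_lit 2) (.e (nat_lit 90165) (nat_lit 12) (.e (nat_lit 164210) (nat_lit 176) .nil))) .nil)) 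
(.lf (nat_lit 245501) (.g (nat_lit 3962) (.e (nat_lit 131093) (nat_lit 2) (.e (nat_lit 90170) (nat_lit 13) (.e (nat_lit 172113) (nat_lit 10) (.e (nat_lit 434245) (nat_lit 28) (.e (nat_lit 573474) (nat_lit 12) (.e (nat_lit 57353) (nat_lit 0) (.e (nat_lit 7125) (nat_lit 382) (.e (nat_lit 1296) (nat_lit 96) .nil)))))))) (.g (nat_lit 5) .nil .nil)))))))) 
(.nd (nat_lit 2) (.nd (nat_lit 3) (.nd (nat_lit 4) (.nd (nat_lit 5) (.nd (nat_lit 6) 
(.lf (nat_lit 245379) (.g (nat_lit 530) (.e (nat_lit 131091) (nat_lit 2) (.e (nat_lit 90176) (nat_lit 15) (.e (nat_lit 188447) (nat_lit 22) .nil))) .nil)) 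
(.lf (nat_lit 245443) (.g (nat_lit 2434) (.e (nat_lit 131092) (nat_lit 2) (.e (nat_lit 90170) (nat_lit 13) (.e (nat_lit 172113) (nat_lit 10) (.e (nat_lit 434247) (nat_lit 28) (.e (nat_lit 573477) (nat_lit 12) .nil))))) .nil))) (.nd (nat_lit 6) 
(.lf (nat_lit 245411) (.g (nat_lit 1401) (.e (nat_lit 131091) (nat_lit 2) (.e (nat_lit 90181) (nat_lit 16) (.e (nat_lit 237312) (nat_lit 192) (.e (nat_lit 73746) (nat_lit 3) (.e (nat_lit 516100) (nat_lit 0) (.e (nat_lit 7936) (nat_lit 409) .nil)))))) (.g (nat_lit 5) .nil .nil))) 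
(.lf (nat_lit 245475) (.g (nat_lit 2352) (.e (nat_lit 131093) (nat_lit 2) (.e (nat_lit 90170) (nat_lit 13) (.e (nat_lit 172106) (nat_lit 10) (.e (nat_lit 434244) (nat_lit 28) (.e (nat_lit 573468) (nat_lit 10) (.e (nat_lit 8193) (nat_lit 0) (.e (nat_lit 4441) (nat_lit 263) (.e (nat_lit 1296) (nat_lit 96) .nil)))))))) (.g (nat_lit 5) .nil .nil))))) (.nd (nat_lit 5) (.nd (nat_lit 6) 
(.lf (nat_lit 245395) (.g (nat_lit 1985) (.e (nat_lit 131091) (nat_lit 2) (.e (nat_lit 90176) (nat_lit 15) (.e (nat_lit 188450) (nat_lit 23) (.e (nat_lit 204821) (nat_lit 17) (.e (nat_lit 991) (nat_lit 81) (.e (nat_lit 4500) (nat_lit 263) (.e (nat_lit 1297) (nat_lit 96) .nil))))))) (.g (nat_lit 4) .nil .nil))) 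
(.lf (nat_lit 245459) (.g (nat_lit 236) (.e (nat_lit 131093) (nat_lit 2) (.e (nat_lit 90165) (nat_lit 12) (.e (nat_lit 171776) (nat_lit 191) .nil))) .nil))) (.nd (nat_lit 6) 
(.lf (nat_lit 245427) (.g (nat_lit 1778) (.e (nat_lit 131091) (nat_lit 2) (.e (nat_lit 90185) (nat_lit 17) (.e (nat_lit 237605) (nat_lit 9) (.e (nat_lit 426131) (nat_lit 3) (.e (nat_lit 212736) (nat_lit 1) (.e (nat_lit 164148) (nat_lit 152) (.e (nat_lit 1298) (nat_lit 96) .nil))))))) (.g (nat_lit 4) .nil .nil))) 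
(.lf (nat_lit 245491) (.g (nat_lit 4425) (.e (nat_lit 131093) (nat_lit 2) (.e (nat_lit 90170) (nat_lit 13) (.e (nat_lit 172113) (nat_lit 10) (.e (nat_lit 434245) (nat_lit 28) (.e (nat_lit 573473) (nat_lit 12) (.e (nat_lit 57348) (nat_lit 0) (.e (nat_lit 7125) (nat_lit 382) (.e (nat_lit 1296) (nat_lit 96) .nil)))))))) (.g (nat_lit 8) .nil .nil)))))) 
(.nd (nat_lit 4) (.nd (nat_lit 5) (.nd (nat_lit 6) 
(.lf (nat_lit 245387) (.g (nat_lit 2113) (.e (nat_lit 131091) (nat_lit 2) (.e (nat_lit 90176) (nat_lit 15) (.e (nat_lit 188450) (nat_lit 23) (.e (nat_lit 212736) (nat_lit 1) (.e (nat_lit 164148) (nat_lit 152) (.e (nat_lit 1298) (nat_lit 96) .nil)))))) (.g (nat_lit 5) .nil .nil))) 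
(.lf (nat_lit 245451) (.g (nat_lit 1305) (.e (nat_lit 131092) (nat_lit 2) (.e (nat_lit 90176) (nat_lit 15) (.e (nat_lit 188450) (nat_lit 23) (.e (nat_lit 204815) (nat_lit 17) .nil)))) .nil))) (.nd (nat_lit 6) 
(.lf (nat_lit 245419) (.g (nat_lit 471) (.e (nat_lit 131091) (nat_lit 2) (.e (nat_lit 90185) (nat_lit 17) (.e (nat_lit 237585) (nat_lit 1) .nil))) .nil)) 
(.lf (nat_lit 245483) (.g (nat_lit 2125) (.e (nat_lit 131093) (nat_lit 2) (.e (nat_lit 90170) (nat_lit 13) (.e (nat_lit 172106) (nat_lit 10) (.e (nat_lit 434244) (nat_lit 28) (.e (nat_lit 573474) (nat_lit 12) (.e (nat_lit 57348) (nat_lit 0) (.e (nat_lit 7119) (nat_lit 382) (.e (nat_lit 1296) (nat_lit 96) .nil)))))))) (.g (nat_lit 4) .nil .nil))))) (.nd (nat_lit 5) (.nd (nat_lit 6) 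
(.lf (nat_lit 245403) (.g (nat_lit 2062) (.e (nat_lit 131091) (nat_lit 2) (.e (nat_lit 90178) (nat_lit 15) (.e (nat_lit 188440) (nat_lit 20) (.e (nat_lit 3307) (nat_lit 202) (.e (nat_lit 573472) (nat_lit 12) .nil))))) .nil)) 
(.lf (nat_lit 245467) (.g (nat_lit 3516) (.e (nat_lit 131093) (nat_lit 2) (.e (nat_lit 90170) (nat_lit 13) (.e (nat_lit 172106) (nat_lit 10) (.e (nat_lit 434231) (nat_lit 23) (.e (nat_lit 532490) (nat_lit 0) (.e (nat_lit 989) (nat_lit 81) (.e (nat_lit 4435) (nat_lit 263) (.e (nat_lit 1296) (nat_lit 96) .nil)))))))) (.g (nat_lit 5) .nil .nil)))) (.nd (nat_lit 6) 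
(.lf (nat_lit 245435) (.g (nat_lit 1556) (.e (nat_lit 131091) (nat_lit 2) (.e (nat_lit 90185) (nat_lit 17) (.e (nat_lit 237605) (nat_lit 9) (.e (nat_lit 426131) (nat_lit 3) (.e (nat_lit 204830) (nat_lit 18) (.e (nat_lit 65280) (nat_lit 221) (.e (nat_lit 1294) (nat_lit 96) .nil))))))) (.g (nat_lit 4) .nil .nil))) 
(.lf (nat_lit 245499) (.g (nat_lit 4654) (.e (nat_lit 131093) (nat_lit 2) (.e (nat_lit 90170) (nat_lit 13) (.e (nat_lit 172113) (nat_lit 10) (.e (nat_lit 434245) (nat_lit 28) (.e (nat_lit 573474) (nat_lit 12) (.e (nat_lit 57351) (nat_lit 0) (.e (nat_lit 7125) (nat_lit 382) (.e (nat_lit 1296) (nat_lit 96) .nil)))))))) (.g (nat_lit 8) .nil .nil))))))) 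
(.nd (nat_lit 3) (.nd (nat_lit 4) (.nd (nat_lit 5) (.nd (nat_lit 6) 
(.lf (nat_lit 245383) (.g (nat_lit 1810) (.e (nat_lit 131091) (nat_lit 2) (.e (nat_lit 90176) (nat_lit 15) (.e (nat_lit 188450) (nat_lit 23) (.e (nat_lit 204807) (nat_lit 0) .nil)))) .nil)) 
(.lf (nat_lit 245447) (.g (nat_lit 1779) (.e (nat_lit 131092) (nat_lit 2) (.e (nat_lit 90172) (nat_lit 14) (.e (nat_lit 180285) (nat_lit 45) (.e (nat_lit 2422) (nat_lit 157) .nil)))) .nil))) (.nd (nat_lit 6) 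
(.lf (nat_lit 245415) (.g (nat_lit 1464) (.e (nat_lit 131091) (nat_lit 2) (.e (nat_lit 90185) (nat_lit 17) (.e (nat_lit 237582) (nat_lit 1) (.e (nat_lit 164332) (nat_lit 230) (.e (nat_lit 163869) (nat_lit 2) .nil))))) .nil)) 
(.lf (nat_lit 245479) (.g (nat_lit 3145) (.e (nat_lit 131093) (nat_lit 2) (.e (nat_lit 90170) (nat_lit 13) (.e (nat_lit 172106) (nat_lit 10) (.e (nat_lit 434244) (nat_lit 28) (.e (nat_lit 573473) (nat_lit 12) (.e (nat_lit 57352) (nat_lit 0) (.e (nat_lit 7122) (nat_lit 382) (.e (nat_lit 1296) (nat_lit 96) .nil)))))))) (.g (nat_lit 5) .nil .nil))))) (.nd (nat_lit 5) (.nd (nat_lit 6) 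
(.lf (nat_lit 245399) (.g (nat_lit 1256) (.e (nat_lit 131091) (nat_lit 2) (.e (nat_lit 90176) (nat_lit 15) (.e (nat_lit 188450) (nat_lit 23) (.e (nat_lit 204830) (nat_lit 18) .nil)))) .nil)) 
(.lf (nat_lit 245463) (.g (nat_lit 4218) (.e (nat_lit 131093) (nat_lit 2) (.e (nat_lit 90170) (nat_lit 13) (.e (nat_lit 172106) (nat_lit 10) (.e (nat_lit 434231) (nat_lit 23) (.e (nat_lit 532481) (nat_lit 0) (.e (nat_lit 1905) (nat_lit 129) (.e (nat_lit 598043) (nat_lit 12) .nil))))))) (.g (nat_lit 5) .nil .nil)))) (.nd (nat_lit 6) 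
(.lf (nat_lit 245431) (.g (nat_lit 1890) (.e (nat_lit 131091) (nat_lit 2) (.e (nat_lit 90185) (nat_lit 17) (.e (nat_lit 237605) (nat_lit 9) (.e (nat_lit 426131) (nat_lit 3) (.e (nat_lit 212736) (nat_lit 4) (.e (nat_lit 229544) (nat_lit 152) (.e (nat_lit 1296) (nat_lit 96) .nil))))))) (.g (nat_lit 4) .nil .nil))) 
(.lf (nat_lit 245495) (.g (nat_lit 2102) (.e (nat_lit 131093) (nat_lit 2) (.e (nat_lit 90170) (nat_lit 13) (.e (nat_lit 172113) (nat_lit 10) (.e (nat_lit 434245) (nat_lit 28) (.e (nat_lit 573474) (nat_lit 12) .nil))))) .nil))))) (.nd (nat_lit 4) (.nd (nat_lit 5) (.nd (nat_lit 6) 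
(.lf (nat_lit 245391) (.g (nat_lit 1904) (.e (nat_lit 131091) (nat_lit 2) (.e (nat_lit 90176) (nat_lit 15) (.e (nat_lit 188450) (nat_lit 23) (.e (nat_lit 204817) (nat_lit 17) (.e (nat_lit 1905) (nat_lit 129) (.e (nat_lit 598043) (nat_lit 12) .nil)))))) (.g (nat_lit 4) .nil .nil))) 
(.lf (nat_lit 245455) (.g (nat_lit 1185) (.e (nat_lit 131092) (nat_lit 2) (.e (nat_lit 90178) (nat_lit 15) (.e (nat_lit 188440) (nat_lit 20) (.e (nat_lit 3307) (nat_lit 202) .nil)))) .nil))) (.nd (nat_lit 6) 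
(.lf (nat_lit 245423) (.g (nat_lit 448) (.e (nat_lit 131091) (nat_lit 2) (.e (nat_lit 90185) (nat_lit 17) (.e (nat_lit 237601) (nat_lit 9) .nil))) .nil)) 
(.lf (nat_lit 245487) (.g (nat_lit 3462) (.e (nat_lit 131093) (nat_lit 2) (.e (nat_lit 90170) (nat_lit 13) (.e (nat_lit 172113) (nat_lit 10) (.e (nat_lit 434242) (nat_lit 28) (.e (nat_lit 573474) (nat_lit 12) (.e (nat_lit 57348) (nat_lit 0) (.e (nat_lit 7122) (nat_lit 382) (.e (nat_lit 1296) (nat_lit 96) .nil)))))))) (.g (nat_lit 5) .nil .nil))))) (.nd (nat_lit 5) (.nd (nat_lit 6) 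
(.lf (nat_lit 245407) (.g (nat_lit 3363) (.e (nat_lit 131091) (nat_lit 2) (.e (nat_lit 90178) (nat_lit 15) (.e (nat_lit 188440) (nat_lit 20) (.e (nat_lit 3307) (nat_lit 202) (.e (nat_lit 573475) (nat_lit 12) (.e (nat_lit 57347) (nat_lit 0) (.e (nat_lit 7124) (nat_lit 382) (.e (nat_lit 1296) (nat_lit 96) .nil)))))))) (.g (nat_lit 5) .nil .nil))) 
(.lf (nat_lit 245471) (.g (nat_lit 2819) (.e (nat_lit 131093) (nat_lit 2) (.e (nat_lit 90170) (nat_lit 13) (.e (nat_lit 172106) (nat_lit 10) (.e (nat_lit 434231) (nat_lit 23) (.e (nat_lit 532500) (nat_lit 1) .nil))))) .nil))) (.nd (nat_lit 6) 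
(.lf (nat_lit 245439) (.g (nat_lit 2535) (.e (nat_lit 131092) (nat_lit 2) (.e (nat_lit 90170) (nat_lit 13) (.e (nat_lit 172106) (nat_lit 10) (.e (nat_lit 434244) (nat_lit 28) .nil)))) .nil)) 
(.lf (nat_lit 245503) (.g (nat_lit 3512) (.e (nat_lit 131093) (nat_lit 2) (.e (nat_lit 90170) (nat_lit 13) (.e (nat_lit 172113) (nat_lit 10) (.e (nat_lit 434247) (nat_lit 28) (.e (nat_lit 573477) (nat_lit 12) (.e (nat_lit 57351) (nat_lit 0) (.e (nat_lit 7125) (nat_lit 382) (.e (nat_lit 1296) (nat_lit 96) .nil)))))))) (.g (nat_lit 5) .nil .nil))))))))))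

noncomputable def tv3192 : DT := (.nd (nat_lit 0) (.nd (nat_lit 1) (.nd (nat_lit 2) (.nd (nat_lit 3) (.nd (nat_lit 4) (.nd (nat_lit 5) (.nd (nat_lit 6) 
(.lf (nat_lit 245504) (.g (nat_lit 2959) (.e (nat_lit 131093) (nat_lit 2) (.e (nat_lit 90170) (nat_lit 13) (.e (nat_lit 172113) (nat_lit 10) (.e (nat_lit 434247) (nat_lit 28) (.e (nat_lit 573477) (nat_lit 12) (.e (nat_lit 57352) (nat_lit 0) (.e (nat_lit 7125) (nat_lit 382) (.e (nat_lit 1296) (nat_lit 96) .nil)))))))) (.g (nat_lit 4) .nil .nil))) 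
(.lf (nat_lit 245568) (.g (nat_lit 1675) (.e (nat_lit 131094) (nat_lit 2) (.e (nat_lit 90176) (nat_lit 15) (.e (nat_lit 188450) (nat_lit 23) (.e (nat_lit 204817) (nat_lit 17) (.e (nat_lit 1911) (nat_lit 129) (.e (nat_lit 598043) (nat_lit 12) .nil)))))) (.g (nat_lit 4) .nil .nil)))) (.nd (nat_lit 6) 
(.lf (nat_lit 245536) (.g (nat_lit 4007) (.e (nat_lit 131094) (nat_lit 2) (.e (nat_lit 90170) (nat_lit 13) (.e (nat_lit 172113) (nat_lit 10) (.e (nat_lit 434245) (nat_lit 28) (.e (nat_lit 573474) (nat_lit 12) (.e (nat_lit 57348) (nat_lit 0) (.e (nat_lit 7125) (nat_lit 382) (.e (nat_lit 1296) (nat_lit 96) .nil)))))))) (.g (nat_lit 5) .nil .nil))) 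
(.lf (nat_lit 245600) (.g (nat_lit 906) (.e (nat_lit 131094) (nat_lit 2) (.e (nat_lit 90185) (nat_lit 17) (.e (nat_lit 237582) (nat_lit 1) (.e (nat_lit 164332) (nat_lit 230) .nil)))) .nil)))) (.nd (nat_lit 5) (.nd (nat_lit 6) 
(.lf (nat_lit 245520) (.g (nat_lit 1578) (.e (nat_lit 131093) (nat_lit 2) (.e (nat_lit 90176) (nat_lit 15) (.e (nat_lit 188450) (nat_lit 23) (.e (nat_lit 204817) (nat_lit 17) .nil)))) .nil)) 
(.lf (nat_lit 245584) (.g (nat_lit 2343) (.e (nat_lit 131094) (nat_lit 2) (.e (nat_lit 90178) (nat_lit 15) (.e (nat_lit 188440) (nat_lit 20) (.e (nat_lit 3307) (nat_lit 202) (.e (nat_lit 573447) (nat_lit 0) (.e (nat_lit 2607) (nat_lit 163) (.e (nat_lit 164159) (nat_lit 152) (.e (nat_lit 1296) (nat_lit 96) .nil)))))))) (.g (nat_lit 4) .nil .nil)))) (.nd (nat_lit 6) 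
(.lf (nat_lit 245552) (.g (nat_lit 2562) (.e (nat_lit 131094) (nat_lit 2) (.e (nat_lit 90172) (nat_lit 14) (.e (nat_lit 188160) (nat_lit 33) (.e (nat_lit 8228) (nat_lit 15) (.e (nat_lit 532501) (nat_lit 1) (.e (nat_lit 57730) (nat_lit 181) (.e (nat_lit 1294) (nat_lit 96) .nil))))))) (.g (nat_lit 6) .nil .nil))) 
(.lf (nat_lit 245616) (.g (nat_lit 1800) (.e (nat_lit 131094) (nat_lit 2) (.e (nat_lit 90185) (nat_lit 17) (.e (nat_lit 237605) (nat_lit 9) (.e (nat_lit 426131) (nat_lit 3) (.e (nat_lit 212736) (nat_lit 1) (.e (nat_lit 164154) (nat_lit 152) (.e (nat_lit 1296) (nat_lit 96) .nil))))))) (.g (nat_lit 4) .nil .nil)))))) (.nd (nat_lit 4) (.nd (nat_lit 5) (.nd (nat_lit 6) 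
(.lf (nat_lit 245512) (.g (nat_lit 2978) (.e (nat_lit 131093) (nat_lit 2) (.e (nat_lit 90170) (nat_lit 13) (.e (nat_lit 172113) (nat_lit 10) (.e (nat_lit 434248) (nat_lit 28) (.e (nat_lit 573473) (nat_lit 12) (.e (nat_lit 57352) (nat_lit 0) (.e (nat_lit 7125) (nat_lit 382) (.e (nat_lit 1296) (nat_lit 96) .nil)))))))) (.g (nat_lit 4) .nil .nil))) 
(.lf (nat_lit 245576) (.g (nat_lit 1496) (.e (nat_lit 131094) (nat_lit 2) (.e (nat_lit 90176) (nat_lit 15) (.e (nat_lit 188450) (nat_lit 23) (.e (nat_lit 204829) (nat_lit 18) .nil)))) .nil))) (.nd (nat_lit 6) 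
(.lf (nat_lit 245544) (.g (nat_lit 3355) (.e (nat_lit 131094) (nat_lit 2) (.e (nat_lit 90170) (nat_lit 13) (.e (nat_lit 172113) (nat_lit 10) (.e (nat_lit 434248) (nat_lit 28) (.e (nat_lit 573473) (nat_lit 12) (.e (nat_lit 57348) (nat_lit 0) (.e (nat_lit 7125) (nat_lit 382) (.e (nat_lit 1296) (nat_lit 96) .nil)))))))) (.g (nat_lit 5) .nil .nil))) 
(.lf (nat_lit 245608) (.g (nat_lit 1175) (.e (nat_lit 131094) (nat_lit 2) (.e (nat_lit 90185) (nat_lit 17) (.e (nat_lit 237601) (nat_lit 9) (.e (nat_lit 426436) (nat_lit 18) (.e (nat_lit 98335) (nat_lit 18) .nil))))) .nil)))) (.nd (nat_lit 5) (.nd (nat_lit 6) 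
(.lf (nat_lit 245528) (.g (nat_lit 1217) (.e (nat_lit 131094) (nat_lit 2) (.e (nat_lit 90170) (nat_lit 13) (.e (nat_lit 172113) (nat_lit 10) (.e (nat_lit 434242) (nat_lit 28) .nil)))) .nil)) 
(.lf (nat_lit 245592) (.g (nat_lit 2909) (.e (nat_lit 131094) (nat_lit 2) (.e (nat_lit 90178) (nat_lit 15) (.e (nat_lit 188440) (nat_lit 20) (.e (nat_lit 3307) (nat_lit 202) (.e (nat_lit 573477) (nat_lit 12) (.e (nat_lit 57570) (nat_lit 54) (.e (nat_lit 770076) (nat_lit 12) .nil))))))) (.g (nat_lit 4) .nil .nil)))) (.nd (nat_lit 6) 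
(.lf (nat_lit 245560) (.g (nat_lit 1799) (.e (nat_lit 131094) (nat_lit 2) (.e (nat_lit 90176) (nat_lit 15) (.e (nat_lit 188450) (nat_lit 23) (.e (nat_lit 204807) (nat_lit 0) .nil)))) .nil)) 
(.lf (nat_lit 245624) (.g (nat_lit 1962) (.e (nat_lit 131094) (nat_lit 2) (.e (nat_lit 90185) (nat_lit 17) (.e (nat_lit 237605) (nat_lit 9) (.e (nat_lit 426428) (nat_lit 17) (.e (nat_lit 90181) (nat_lit 16) (.e (nat_lit 229461) (nat_lit 54) (.e (nat_lit 770076) (nat_lit 12) .nil))))))) (.g (nat_lit 4) .nil .nil))))))) (.nd (nat_lit 3) (.nd (nat_lit 4) (.nd (nat_lit 5) (.nd (nat_lit 6) 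
(.lf (nat_lit 245508) (.g (nat_lit 4117) (.e (nat_lit 131093) (nat_lit 2) (.e (nat_lit 90170) (nat_lit 13) (.e (nat_lit 172113) (nat_lit 10) (.e (nat_lit 434247) (nat_lit 28) (.e (nat_lit 573478) (nat_lit 12) (.e (nat_lit 57351) (nat_lit 0) (.e (nat_lit 7125) (nat_lit 382) (.e (nat_lit 1296) (nat_lit 96) .nil)))))))) (.g (nat_lit 8) .nil .nil))) 
(.lf (nat_lit 245572) (.g (nat_lit 1146) (.e (nat_lit 131094) (nat_lit 2) (.e (nat_lit 90176) (nat_lit 15) (.e (nat_lit 188450) (nat_lit 23) (.e (nat_lit 204821) (nat_lit 17) .nil)))) .nil))) (.nd (nat_lit 6) 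
(.lf (nat_lit 245540) (.g (nat_lit 2815) (.e (nat_lit 131094) (nat_lit 2) (.e (nat_lit 90170) (nat_lit 13) (.e (nat_lit 172113) (nat_lit 10) (.e (nat_lit 434247) (nat_lit 28) (.e (nat_lit 573478) (nat_lit 12) (.e (nat_lit 57351) (nat_lit 0) (.e (nat_lit 7124) (nat_lit 382) (.e (nat_lit 1296) (nat_lit 96) .nil)))))))) (.g (nat_lit 4) .nil .nil))) 
(.lf (nat_lit 245604) (.g (nat_lit 551) (.e (nat_lit 131094) (nat_lit 2) (.e (nat_lit 90185) (nat_lit 17) (.e (nat_lit 237585) (nat_lit 1) .nil))) .nil)))) (.nd (nat_lit 5) (.nd (nat_lit 6) 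
(.lf (nat_lit 245524) (.g (nat_lit 2359) (.e (nat_lit 131094) (nat_lit 2) (.e (nat_lit 90170) (nat_lit 13) (.e (nat_lit 172106) (nat_lit 10) (.e (nat_lit 434231) (nat_lit 23) .nil)))) .nil)) 
(.lf (nat_lit 245588) (.g (nat_lit 2478) (.e (nat_lit 131094) (nat_lit 2) (.e (nat_lit 90178) (nat_lit 15) (.e (nat_lit 188440) (nat_lit 20) (.e (nat_lit 3307) (nat_lit 202) (.e (nat_lit 573473) (nat_lit 12) (.e (nat_lit 57348) (nat_lit 0) (.e (nat_lit 7124) (nat_lit 382) (.e (nat_lit 1296) (nat_lit 96) .nil)))))))) (.g (nat_lit 4) .nil .nil)))) (.nd (nat_lit 6) 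
(.lf (nat_lit 245556) (.g (nat_lit 1456) (.e (nat_lit 131094) (nat_lit 2) (.e (nat_lit 90176) (nat_lit 15) (.e (nat_lit 188439) (nat_lit 20) (.e (nat_lit 3272) (nat_lit 199) (.e (nat_lit 548910) (nat_lit 17) .nil))))) .nil)) 
(.lf (nat_lit 245620) (.g (nat_lit 1653) (.e (nat_lit 131094) (nat_lit 2) (.e (nat_lit 90185) (nat_lit 17) (.e (nat_lit 237605) (nat_lit 9) (.e (nat_lit 426131) (nat_lit 3) (.e (nat_lit 204817) (nat_lit 17) (.e (nat_lit 1911) (nat_lit 129) (.e (nat_lit 598043) (nat_lit 12) .nil))))))) (.g (nat_lit 4) .nil .nil)))))) (.nd (nat_lit 4) (.nd (nat_lit 5) (.nd (nat_lit 6) 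
(.lf (nat_lit 245516) (.g (nat_lit 4735) (.e (nat_lit 131093) (nat_lit 2) (.e (nat_lit 90170) (nat_lit 13) (.e (nat_lit 172113) (nat_lit 10) (.e (nat_lit 434248) (nat_lit 28) (.e (nat_lit 573475) (nat_lit 12) (.e (nat_lit 57351) (nat_lit 0) (.e (nat_lit 7125) (nat_lit 382) (.e (nat_lit 1296) (nat_lit 96) .nil)))))))) (.g (nat_lit 8) .nil .nil))) 
(.lf (nat_lit 245580) (.g (nat_lit 2993) (.e (nat_lit 131094) (nat_lit 2) (.e (nat_lit 90176) (nat_lit 15) (.e (nat_lit 188452) (nat_lit 23) (.e (nat_lit 204816) (nat_lit 17) .nil)))) .nil))) (.nd (nat_lit 6) 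
(.lf (nat_lit 245548) (.g (nat_lit 3499) (.e (nat_lit 131094) (nat_lit 2) (.e (nat_lit 90170) (nat_lit 13) (.e (nat_lit 172113) (nat_lit 10) (.e (nat_lit 434248) (nat_lit 28) (.e (nat_lit 573475) (nat_lit 12) (.e (nat_lit 57351) (nat_lit 0) (.e (nat_lit 7125) (nat_lit 382) (.e (nat_lit 1296) (nat_lit 96) .nil)))))))) (.g (nat_lit 5) .nil .nil))) 
(.lf (nat_lit 245612) (.g (nat_lit 745) (.e (nat_lit 131094) (nat_lit 2) (.e (nat_lit 90185) (nat_lit 17) (.e (nat_lit 237605) (nat_lit 9) (.e (nat_lit 426131) (nat_lit 3) .nil)))) .nil)))) (.nd (nat_lit 5) (.nd (nat_lit 6) 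
(.lf (nat_lit 245532) (.g (nat_lit 2175) (.e (nat_lit 131094) (nat_lit 2) (.e (nat_lit 90170) (nat_lit 13) (.e (nat_lit 172113) (nat_lit 10) (.e (nat_lit 434245) (nat_lit 28) (.e (nat_lit 573473) (nat_lit 12) .nil))))) .nil)) 
(.lf (nat_lit 245596) (.g (nat_lit 1264) (.e (nat_lit 131094) (nat_lit 2) (.e (nat_lit 90181) (nat_lit 16) (.e (nat_lit 237312) (nat_lit 192) (.e (nat_lit 73746) (nat_lit 3) (.e (nat_lit 516100) (nat_lit 0) (.e (nat_lit 7936) (nat_lit 409) .nil)))))) (.g (nat_lit 5) .nil .nil)))) (.nd (nat_lit 6) 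
(.lf (nat_lit 245564) (.g (nat_lit 1233) (.e (nat_lit 131094) (nat_lit 2) (.e (nat_lit 90176) (nat_lit 15) (.e (nat_lit 188450) (nat_lit 23) (.e (nat_lit 204815) (nat_lit 17) .nil)))) .nil)) 
(.lf (nat_lit 245628) (.g (nat_lit 1729) (.e (nat_lit 131094) (nat_lit 2) (.e (nat_lit 90185) (nat_lit 17) (.e (nat_lit 237616) (nat_lit 12) (.e (nat_lit 475179) (nat_lit 24) (.e (nat_lit 516102) (nat_lit 0) .nil))))) .nil))))))) (.nd (nat_lit 2) (.nd (nat_lit 3) (.nd (nat_lit 4) (.nd (nat_lit 5) (.nd (nat_lit 6) 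
(.lf (nat_lit 245506) (.g (nat_lit 4572) (.e (nat_lit 131093) (nat_lit 2) (.e (nat_lit 90170) (nat_lit 13) (.e (nat_lit 172113) (nat_lit 10) (.e (nat_lit 434247) (nat_lit 28) (.e (nat_lit 573477) (nat_lit 12) (.e (nat_lit 57353) (nat_lit 0) (.e (nat_lit 7125) (nat_lit 382) (.e (nat_lit 1296) (nat_lit 96) .nil)))))))) (.g (nat_lit 8) .nil .nil))) 
(.lf (nat_lit 245570) (.g (nat_lit 1780) (.e (nat_lit 131094) (nat_lit 2) (.e (nat_lit 90176) (nat_lit 15) (.e (nat_lit 188450) (nat_lit 23) (.e (nat_lit 204819) (nat_lit 17) (.e (nat_lit 970) (nat_lit 81) .nil))))) .nil))) (.nd (nat_lit 6) 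
(.lf (nat_lit 245538) (.g (nat_lit 2754) (.e (nat_lit 131094) (nat_lit 2) (.e (nat_lit 90170) (nat_lit 13) (.e (nat_lit 172113) (nat_lit 10) (.e (nat_lit 434245) (nat_lit 28) (.e (nat_lit 573474) (nat_lit 12) (.e (nat_lit 57353) (nat_lit 0) (.e (nat_lit 7125) (nat_lit 382) (.e (nat_lit 1296) (nat_lit 96) .nil)))))))) (.g (nat_lit 4) .nil .nil))) 
(.lf (nat_lit 245602) (.g (nat_lit 677) (.e (nat_lit 131094) (nat_lit 2) (.e (nat_lit 90185) (nat_lit 17) (.e (nat_lit 237584) (nat_lit 1) .nil))) .nil)))) (.nd (nat_lit 5) (.nd (nat_lit 6) 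
(.lf (nat_lit 245522) (.g (nat_lit 2602) (.e (nat_lit 131094) (nat_lit 2) (.e (nat_lit 90167) (nat_lit 13) (.e (nat_lit 172126) (nat_lit 14) (.e (nat_lit 491537) (nat_lit 2) (.e (nat_lit 90165) (nat_lit 12) .nil))))) .nil)) 
(.lf (nat_lit 245586) (.g (nat_lit 2028) (.e (nat_lit 131094) (nat_lit 2) (.e (nat_lit 90178) (nat_lit 15) (.e (nat_lit 188440) (nat_lit 20) (.e (nat_lit 3307) (nat_lit 202) (.e (nat_lit 573473) (nat_lit 12) .nil))))) .nil))) (.nd (nat_lit 6) 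
(.lf (nat_lit 245554) (.g (nat_lit 1676) (.e (nat_lit 131094) (nat_lit 2) (.e (nat_lit 90174) (nat_lit 14) (.e (nat_lit 180225) (nat_lit 0) (.e (nat_lit 4527) (nat_lit 265) .nil)))) .nil)) 
(.lf (nat_lit 245618) (.g (nat_lit 1679) (.e (nat_lit 131094) (nat_lit 2) (.e (nat_lit 90185) (nat_lit 17) (.e (nat_lit 237605) (nat_lit 9) (.e (nat_lit 426131) (nat_lit 3) (.e (nat_lit 204815) (nat_lit 17) (.e (nat_lit 979) (nat_lit 81) (.e (nat_lit 4490) (nat_lit 263) (.e (nat_lit 1294) (nat_lit 96) .nil)))))))) (.g (nat_lit 4) .nil .nil)))))) (.nd (nat_lit 4) (.nd (nat_lit 5) (.nd (nat_lit 6) 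
(.lf (nat_lit 245514) (.g (nat_lit 2236) (.e (nat_lit 131093) (nat_lit 2) (.e (nat_lit 90170) (nat_lit 13) (.e (nat_lit 172113) (nat_lit 10) (.e (nat_lit 434248) (nat_lit 28) (.e (nat_lit 573475) (nat_lit 12) .nil))))) .nil)) 
(.lf (nat_lit 245578) (.g (nat_lit 2295) (.e (nat_lit 131094) (nat_lit 2) (.e (nat_lit 90176) (nat_lit 15) (.e (nat_lit 188450) (nat_lit 23) (.e (nat_lit 204830) (nat_lit 18) (.e (nat_lit 57767) (nat_lit 221) (.e (nat_lit 1294) (nat_lit 96) .nil)))))) (.g (nat_lit 4) .nil .nil)))) (.nd (nat_lit 6) 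
(.lf (nat_lit 245546) (.g (nat_lit 3549) (.e (nat_lit 131094) (nat_lit 2) (.e (nat_lit 90170) (nat_lit 13) (.e (nat_lit 172113) (nat_lit 10) (.e (nat_lit 434248) (nat_lit 28) (.e (nat_lit 573475) (nat_lit 12) (.e (nat_lit 57348) (nat_lit 0) (.e (nat_lit 7125) (nat_lit 382) (.e (nat_lit 1296) (nat_lit 96) .nil)))))))) (.g (nat_lit 5) .nil .nil))) 
(.lf (nat_lit 245610) (.g (nat_lit 1301) (.e (nat_lit 131094) (nat_lit 2) (.e (nat_lit 90185) (nat_lit 17) (.e (nat_lit 237605) (nat_lit 9) (.e (nat_lit 426128) (nat_lit 2) (.e (nat_lit 196684) (nat_lit 18) .nil))))) .nil)))) (.nd (nat_lit 5) (.nd (nat_lit 6) 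
(.lf (nat_lit 245530) (.g (nat_lit 3532) (.e (nat_lit 131094) (nat_lit 2) (.e (nat_lit 90170) (nat_lit 13) (.e (nat_lit 172113) (nat_lit 10) (.e (nat_lit 434242) (nat_lit 28) (.e (nat_lit 573474) (nat_lit 12) (.e (nat_lit 57348) (nat_lit 0) (.e (nat_lit 7124) (nat_lit 382) (.e (nat_lit 1296) (nat_lit 96) .nil)))))))) (.g (nat_lit 5) .nil .nil))) 
(.lf (nat_lit 245594) (.g (nat_lit 1160) (.e (nat_lit 131094) (nat_lit 2) (.e (nat_lit 90178) (nat_lit 15) (.e (nat_lit 188441) (nat_lit 20) (.e (nat_lit 3272) (nat_lit 199) .nil)))) .nil))) (.nd (nat_lit 6) 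
(.lf (nat_lit 245562) (.g (nat_lit 1426) (.e (nat_lit 131094) (nat_lit 2) (.e (nat_lit 90176) (nat_lit 15) (.e (nat_lit 188450) (nat_lit 23) (.e (nat_lit 212736) (nat_lit 0) .nil)))) .nil)) 
(.lf (nat_lit 245626) (.g (nat_lit 1607) (.e (nat_lit 131094) (nat_lit 2) (.e (nat_lit 90185) (nat_lit 17) (.e (nat_lit 237605) (nat_lit 9) (.e (nat_lit 426438) (nat_lit 18) (.e (nat_lit 98323) (nat_lit 17) (.e (nat_lit 2400) (nat_lit 157) (.e (nat_lit 7236) (nat_lit 382) (.e (nat_lit 1294) (nat_lit 96) .nil)))))))) (.g (nat_lit 4) .nil .nil))))))) 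
(.nd (nat_lit 3) (.nd (nat_lit 4) (.nd (nat_lit 5) (.nd (nat_lit 6) 
(.lf (nat_lit 245510) (.g (nat_lit 2918) (.e (nat_lit 131093) (nat_lit 2) (.e (nat_lit 90170) (nat_lit 13) (.e (nat_lit 172113) (nat_lit 10) (.e (nat_lit 434248) (nat_lit 28) (.e (nat_lit 573473) (nat_lit 12) (.e (nat_lit 57348) (nat_lit 0) (.e (nat_lit 7119) (nat_lit 382) (.e (nat_lit 1296) (nat_lit 96) .nil)))))))) (.g (nat_lit 4) .nil .nil))) 
(.lf (nat_lit 245574) (.g (nat_lit 1428) (.e (nat_lit 131094) (nat_lit 2) (.e (nat_lit 90176) (nat_lit 15) (.e (nat_lit 188450) (nat_lit 23) (.e (nat_lit 204821) (nat_lit 17) (.e (nat_lit 7936) (nat_lit 81) .nil))))) .nil))) (.nd (nat_lit 6) 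
(.lf (nat_lit 245542) (.g (nat_lit 2726) (.e (nat_lit 131094) (nat_lit 2) (.e (nat_lit 90170) (nat_lit 13) (.e (nat_lit 172113) (nat_lit 10) (.e (nat_lit 434247) (nat_lit 28) (.e (nat_lit 573478) (nat_lit 12) (.e (nat_lit 57353) (nat_lit 0) (.e (nat_lit 7124) (nat_lit 382) (.e (nat_lit 1296) (nat_lit 96) .nil)))))))) (.g (nat_lit 4) .nil .nil))) 
(.lf (nat_lit 245606) (.g (nat_lit 1368) (.e (nat_lit 131094) (nat_lit 2) (.e (nat_lit 90185) (nat_lit 17) (.e (nat_lit 237598) (nat_lit 7) .nil))) .nil)))) (.nd (nat_lit 5) (.nd (nat_lit 6) 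
(.lf (nat_lit 245526) (.g (nat_lit 2440) (.e (nat_lit 131094) (nat_lit 2) (.e (nat_lit 90170) (nat_lit 13) (.e (nat_lit 172106) (nat_lit 10) (.e (nat_lit 434244) (nat_lit 28) (.e (nat_lit 573473) (nat_lit 12) .nil))))) .nil)) 
(.lf (nat_lit 245590) (.g (nat_lit 1828) (.e (nat_lit 131094) (nat_lit 2) (.e (nat_lit 90178) (nat_lit 15) (.e (nat_lit 188440) (nat_lit 20) (.e (nat_lit 3307) (nat_lit 202) (.e (nat_lit 573475) (nat_lit 12) .nil))))) .nil))) (.nd (nat_lit 6) 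
(.lf (nat_lit 245558) (.g (nat_lit 1430) (.e (nat_lit 131094) (nat_lit 2) (.e (nat_lit 90176) (nat_lit 15) (.e (nat_lit 188447) (nat_lit 22) (.e (nat_lit 196661) (nat_lit 12) .nil)))) .nil)) 
(.lf (nat_lit 245622) (.g (nat_lit 2155) (.e (nat_lit 131094) (nat_lit 2) (.e (nat_lit 90185) (nat_lit 17) (.e (nat_lit 237605) (nat_lit 9) (.e (nat_lit 426131) (nat_lit 3) (.e (nat_lit 204829) (nat_lit 18) (.e (nat_lit 65280) (nat_lit 221) (.e (nat_lit 1294) (nat_lit 96) .nil))))))) (.g (nat_lit 5) .nil .nil)))))) (.nd (nat_lit 4) (.nd (nat_lit 5) (.nd (nat_lit 6) 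
(.lf (nat_lit 245518) (.g (nat_lit 601) (.e (nat_lit 131093) (nat_lit 2) (.e (nat_lit 90176) (nat_lit 15) (.e (nat_lit 188450) (nat_lit 23) .nil))) .nil)) 
(.lf (nat_lit 245582) (.g (nat_lit 553) (.e (nat_lit 131094) (nat_lit 2) (.e (nat_lit 90178) (nat_lit 15) (.e (nat_lit 188440) (nat_lit 20) .nil))) .nil))) (.nd (nat_lit 6) 
(.lf (nat_lit 245550) (.g (nat_lit 2983) (.e (nat_lit 131094) (nat_lit 2) (.e (nat_lit 90170) (nat_lit 13) (.e (nat_lit 172113) (nat_lit 10) (.e (nat_lit 434248) (nat_lit 28) (.e (nat_lit 573475) (nat_lit 12) (.e (nat_lit 57570) (nat_lit 54) (.e (nat_lit 770076) (nat_lit 12) .nil))))))) (.g (nat_lit 4) .nil .nil))) 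
(.lf (nat_lit 245614) (.g (nat_lit 1377) (.e (nat_lit 131094) (nat_lit 2) (.e (nat_lit 90185) (nat_lit 17) (.e (nat_lit 237605) (nat_lit 9) (.e (nat_lit 426131) (nat_lit 3) (.e (nat_lit 212736) (nat_lit 1) .nil))))) .nil)))) (.nd (nat_lit 5) (.nd (nat_lit 6) 
(.lf (nat_lit 245534) (.g (nat_lit 4358) (.e (nat_lit 131094) (nat_lit 2) (.e (nat_lit 90170) (nat_lit 13) (.e (nat_lit 172113) (nat_lit 10) (.e (nat_lit 434245) (nat_lit 28) (.e (nat_lit 573474) (nat_lit 12) (.e (nat_lit 57347) (nat_lit 0) (.e (nat_lit 7125) (nat_lit 382) (.e (nat_lit 1296) (nat_lit 96) .nil)))))))) (.g (nat_lit 6) .nil .nil))) 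
(.lf (nat_lit 245598) (.g (nat_lit 1167) (.e (nat_lit 131094) (nat_lit 2) (.e (nat_lit 90181) (nat_lit 16) (.e (nat_lit 237312) (nat_lit 192) (.e (nat_lit 73746) (nat_lit 3) (.e (nat_lit 516105) (nat_lit 0) (.e (nat_lit 7936) (nat_lit 409) .nil)))))) (.g (nat_lit 5) .nil .nil)))) (.nd (nat_lit 6) 
(.lf (nat_lit 245566) (.g (nat_lit 1672) (.e (nat_lit 131094) (nat_lit 2) (.e (nat_lit 90176) (nat_lit 15) (.e (nat_lit 188450) (nat_lit 23) (.e (nat_lit 204816) (nat_lit 17) (.e (nat_lit 1053) (nat_lit 81) .nil))))) .nil)) 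
(.lf (nat_lit 245630) (.g (nat_lit 659) (.e (nat_lit 131095) (nat_lit 3) (.e (nat_lit 98372) (nat_lit 29) (.e (nat_lit 450579) (nat_lit 5) .nil))) .nil)))))))) (.nd (nat_lit 1) (.nd (nat_lit 2) (.nd (nat_lit 3) (.nd (nat_lit 4) (.nd (nat_lit 5) (.nd (nat_lit 6) 
(.lf (nat_lit 245505) (.g (nat_lit 2927) (.e (nat_lit 131093) (nat_lit 2) (.e (nat_lit 90170) (nat_lit 13) (.e (nat_lit 172113) (nat_lit 10) (.e (nat_lit 434247) (nat_lit 28) (.e (nat_lit 573477) (nat_lit 12) (.e (nat_lit 57353) (nat_lit 0) (.e (nat_lit 7122) (nat_lit 382) (.e (nat_lit 1296) (nat_lit 96) .nil)))))))) (.g (nat_lit 4) .nil .nil))) 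
(.lf (nat_lit 245569) (.g (nat_lit 1796) (.e (nat_lit 131094) (nat_lit 2) (.e (nat_lit 90176) (nat_lit 15) (.e (nat_lit 188450) (nat_lit 23) (.e (nat_lit 204819) (nat_lit 17) (.e (nat_lit 968) (nat_lit 81) .nil))))) .nil))) (.nd (nat_lit 6) 
(.lf (nat_lit 245537) (.g (nat_lit 3445) (.e (nat_lit 131094) (nat_lit 2) (.e (nat_lit 90170) (nat_lit 13) (.e (nat_lit 172113) (nat_lit 10) (.e (nat_lit 434245) (nat_lit 28) (.e (nat_lit 573474) (nat_lit 12) (.e (nat_lit 57351) (nat_lit 0) (.e (nat_lit 7125) (nat_lit 382) (.e (nat_lit 1296) (nat_lit 96) .nil)))))))) (.g (nat_lit 5) .nil .nil))) 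
(.lf (nat_lit 245601) (.g (nat_lit 3534) (.e (nat_lit 131094) (nat_lit 2) (.e (nat_lit 90185) (nat_lit 17) (.e (nat_lit 237582) (nat_lit 1) (.e (nat_lit 164332) (nat_lit 230) (.e (nat_lit 163869) (nat_lit 2) (.e (nat_lit 196697) (nat_lit 19) (.e (nat_lit 57902) (nat_lit 277) .nil))))))) (.g (nat_lit 5) .nil .nil))))) (.nd (nat_lit 5) (.nd (nat_lit 6) 
(.lf (nat_lit 245521) (.g (nat_lit 1635) (.e (nat_lit 131093) (nat_lit 2) (.e (nat_lit 90176) (nat_lit 15) (.e (nat_lit 188450) (nat_lit 23) (.e (nat_lit 204821) (nat_lit 17) .nil)))) .nil)) 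
(.lf (nat_lit 245585) (.g (nat_lit 2062) (.e (nat_lit 131094) (nat_lit 2) (.e (nat_lit 90178) (nat_lit 15) (.e (nat_lit 188440) (nat_lit 20) (.e (nat_lit 3307) (nat_lit 202) (.e (nat_lit 573467) (nat_lit 10) .nil))))) .nil))) (.nd (nat_lit 6) 
(.lf (nat_lit 245553) (.g (nat_lit 2875) (.e (nat_lit 131094) (nat_lit 2) (.e (nat_lit 90172) (nat_lit 14) (.e (nat_lit 188160) (nat_lit 33) (.e (nat_lit 8228) (nat_lit 15) (.e (nat_lit 532504) (nat_lit 1) (.e (nat_lit 57730) (nat_lit 181) (.e (nat_lit 1297) (nat_lit 96) .nil))))))) (.g (nat_lit 6) .nil .nil))) 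
(.lf (nat_lit 245617) (.g (nat_lit 1782) (.e (nat_lit 131094) (nat_lit 2) (.e (nat_lit 90185) (nat_lit 17) (.e (nat_lit 237605) (nat_lit 9) (.e (nat_lit 426131) (nat_lit 3) (.e (nat_lit 212736) (nat_lit 4) (.e (nat_lit 229544) (nat_lit 152) (.e (nat_lit 1296) (nat_lit 96) .nil))))))) (.g (nat_lit 4) .nil .nil)))))) (.nd (nat_lit 4) (.nd (nat_lit 5) (.nd (nat_lit 6) 
(.lf (nat_lit 245513) (.g (nat_lit 4483) (.e (nat_lit 131093) (nat_lit 2) (.e (nat_lit 90170) (nat_lit 13) (.e (nat_lit 172113) (nat_lit 10) (.e (nat_lit 434248) (nat_lit 28) (.e (nat_lit 573473) (nat_lit 12) (.e (nat_lit 57353) (nat_lit 0) (.e (nat_lit 7125) (nat_lit 382) (.e (nat_lit 1296) (nat_lit 96) .nil)))))))) (.g (nat_lit 8) .nil .nil))) 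
(.lf (nat_lit 245577) (.g (nat_lit 2150) (.e (nat_lit 131094) (nat_lit 2) (.e (nat_lit 90176) (nat_lit 15) (.e (nat_lit 188450) (nat_lit 23) (.e (nat_lit 204830) (nat_lit 18) (.e (nat_lit 57766) (nat_lit 221) (.e (nat_lit 1294) (nat_lit 96) .nil)))))) (.g (nat_lit 4) .nil .nil)))) (.nd (nat_lit 6) 
(.lf (nat_lit 245545) (.g (nat_lit 4436) (.e (nat_lit 131094) (nat_lit 2) (.e (nat_lit 90170) (nat_lit 13) (.e (nat_lit 172113) (nat_lit 10) (.e (nat_lit 434248) (nat_lit 28) (.e (nat_lit 573475) (nat_lit 12) (.e (nat_lit 57347) (nat_lit 0) (.e (nat_lit 7125) (nat_lit 382) (.e (nat_lit 1296) (nat_lit 96) .nil)))))))) (.g (nat_lit 6) .nil .nil))) 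
(.lf (nat_lit 245609) (.g (nat_lit 458) (.e (nat_lit 131094) (nat_lit 2) (.e (nat_lit 90185) (nat_lit 17) (.e (nat_lit 237605) (nat_lit 9) .nil))) .nil)))) (.nd (nat_lit 5) (.nd (nat_lit 6) 
(.lf (nat_lit 245529) (.g (nat_lit 4072) (.e (nat_lit 131094) (nat_lit 2) (.e (nat_lit 90170) (nat_lit 13) (.e (nat_lit 172113) (nat_lit 10) (.e (nat_lit 434242) (nat_lit 28) (.e (nat_lit 573474) (nat_lit 12) (.e (nat_lit 57347) (nat_lit 0) (.e (nat_lit 7125) (nat_lit 382) (.e (nat_lit 1296) (nat_lit 96) .nil)))))))) (.g (nat_lit 6) .nil .nil))) 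
(.lf (nat_lit 245593) (.g (nat_lit 2145) (.e (nat_lit 131094) (nat_lit 2) (.e (nat_lit 90178) (nat_lit 15) (.e (nat_lit 188440) (nat_lit 20) (.e (nat_lit 3307) (nat_lit 202) (.e (nat_lit 573478) (nat_lit 12) .nil))))) .nil))) (.nd (nat_lit 6) 
(.lf (nat_lit 245561) (.g (nat_lit 2034) (.e (nat_lit 131094) (nat_lit 2) (.e (nat_lit 90176) (nat_lit 15) (.e (nat_lit 188450) (nat_lit 23) (.e (nat_lit 204807) (nat_lit 0) (.e (nat_lit 2479) (nat_lit 157) .nil))))) .nil)) 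
(.lf (nat_lit 245625) (.g (nat_lit 1311) (.e (nat_lit 131094) (nat_lit 2) (.e (nat_lit 90185) (nat_lit 17) (.e (nat_lit 237605) (nat_lit 9) (.e (nat_lit 426436) (nat_lit 18) (.e (nat_lit 98335) (nat_lit 18) .nil))))) .nil)))))) (.nd (nat_lit 3) (.nd (nat_lit 4) (.nd (nat_lit 5) (.nd (nat_lit 6) 
(.lf (nat_lit 245509) (.g (nat_lit 4120) (.e (nat_lit 131093) (nat_lit 2) (.e (nat_lit 90170) (nat_lit 13) (.e (nat_lit 172113) (nat_lit 10) (.e (nat_lit 434247) (nat_lit 28) (.e (nat_lit 573478) (nat_lit 12) (.e (nat_lit 57353) (nat_lit 0) (.e (nat_lit 7124) (nat_lit 382) (.e (nat_lit 1296) (nat_lit 96) .nil)))))))) (.g (nat_lit 7) .nil .nil))) 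
(.lf (nat_lit 245573) (.g (nat_lit 1580) (.e (nat_lit 131094) (nat_lit 2) (.e (nat_lit 90176) (nat_lit 15) (.e (nat_lit 188450) (nat_lit 23) (.e (nat_lit 204821) (nat_lit 17) (.e (nat_lit 991) (nat_lit 81) .nil))))) .nil))) (.nd (nat_lit 6) 
(.lf (nat_lit 245541) (.g (nat_lit 2896) (.e (nat_lit 131094) (nat_lit 2) (.e (nat_lit 90170) (nat_lit 13) (.e (nat_lit 172113) (nat_lit 10) (.e (nat_lit 434247) (nat_lit 28) (.e (nat_lit 573478) (nat_lit 12) (.e (nat_lit 57351) (nat_lit 0) (.e (nat_lit 7125) (nat_lit 382) (.e (nat_lit 1296) (nat_lit 96) .nil)))))))) (.g (nat_lit 4) .nil .nil))) 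
(.lf (nat_lit 245605) (.g (nat_lit 3370) (.e (nat_lit 131094) (nat_lit 2) (.e (nat_lit 90185) (nat_lit 17) (.e (nat_lit 237585) (nat_lit 1) (.e (nat_lit 164332) (nat_lit 230) (.e (nat_lit 163869) (nat_lit 2) (.e (nat_lit 196697) (nat_lit 19) (.e (nat_lit 57902) (nat_lit 277) .nil))))))) (.g (nat_lit 5) .nil .nil))))) (.nd (nat_lit 5) (.nd (nat_lit 6) 
(.lf (nat_lit 245525) (.g (nat_lit 1840) (.e (nat_lit 131094) (nat_lit 2) (.e (nat_lit 90170) (nat_lit 13) (.e (nat_lit 172106) (nat_lit 10) (.e (nat_lit 434244) (nat_lit 28) .nil)))) .nil)) 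
(.lf (nat_lit 245589) (.g (nat_lit 2441) (.e (nat_lit 131094) (nat_lit 2) (.e (nat_lit 90178) (nat_lit 15) (.e (nat_lit 188440) (nat_lit 20) (.e (nat_lit 3307) (nat_lit 202) (.e (nat_lit 573473) (nat_lit 12) (.e (nat_lit 57353) (nat_lit 0) (.e (nat_lit 7124) (nat_lit 382) (.e (nat_lit 1296) (nat_lit 96) .nil)))))))) (.g (nat_lit 4) .nil .nil)))) (.nd (nat_lit 6) 
(.lf (nat_lit 245557) (.g (nat_lit 577) (.e (nat_lit 131094) (nat_lit 2) (.e (nat_lit 90176) (nat_lit 15) (.e (nat_lit 188447) (nat_lit 22) .nil))) .nil)) 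
(.lf (nat_lit 245621) (.g (nat_lit 1722) (.e (nat_lit 131094) (nat_lit 2) (.e (nat_lit 90185) (nat_lit 17) (.e (nat_lit 237605) (nat_lit 9) (.e (nat_lit 426131) (nat_lit 3) (.e (nat_lit 204817) (nat_lit 17) (.e (nat_lit 7936) (nat_lit 129) (.e (nat_lit 598043) (nat_lit 12) .nil))))))) (.g (nat_lit 4) .nil .nil)))))) (.nd (nat_lit 4) (.nd (nat_lit 5) (.nd (nat_lit 6) 
(.lf (nat_lit 245517) (.g (nat_lit 2375) (.e (nat_lit 131093) (nat_lit 2) (.e (nat_lit 90170) (nat_lit 13) (.e (nat_lit 172113) (nat_lit 10) (.e (nat_lit 434248) (nat_lit 28) (.e (nat_lit 573476) (nat_lit 12) .nil))))) .nil)) 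
(.lf (nat_lit 245581) (.g (nat_lit 2307) (.e (nat_lit 131094) (nat_lit 2) (.e (nat_lit 90177) (nat_lit 15) (.e (nat_lit 188452) (nat_lit 23) (.e (nat_lit 204816) (nat_lit 17) .nil)))) .nil))) (.nd (nat_lit 6) 
(.lf (nat_lit 245549) (.g (nat_lit 2917) (.e (nat_lit 131094) (nat_lit 2) (.e (nat_lit 90170) (nat_lit 13) (.e (nat_lit 172113) (nat_lit 10) (.e (nat_lit 434248) (nat_lit 28) (.e (nat_lit 573475) (nat_lit 12) (.e (nat_lit 57353) (nat_lit 0) (.e (nat_lit 7124) (nat_lit 382) (.e (nat_lit 1296) (nat_lit 96) .nil)))))))) (.g (nat_lit 4) .nil .nil))) 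
(.lf (nat_lit 245613) (.g (nat_lit 1377) (.e (nat_lit 131094) (nat_lit 2) (.e (nat_lit 90185) (nat_lit 17) (.e (nat_lit 237605) (nat_lit 9) (.e (nat_lit 426131) (nat_lit 3) (.e (nat_lit 212736) (nat_lit 0) .nil))))) .nil)))) (.nd (nat_lit 5) (.nd (nat_lit 6) 
(.lf (nat_lit 245533) (.g (nat_lit 2178) (.e (nat_lit 131094) (nat_lit 2) (.e (nat_lit 90170) (nat_lit 13) (.e (nat_lit 172113) (nat_lit 10) (.e (nat_lit 434245) (nat_lit 28) (.e (nat_lit 573474) (nat_lit 12) .nil))))) .nil)) 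
(.lf (nat_lit 245597) (.g (nat_lit 1125) (.e (nat_lit 131094) (nat_lit 2) (.e (nat_lit 90181) (nat_lit 16) (.e (nat_lit 237312) (nat_lit 192) (.e (nat_lit 73746) (nat_lit 3) (.e (nat_lit 516104) (nat_lit 0) (.e (nat_lit 7936) (nat_lit 409) .nil)))))) (.g (nat_lit 5) .nil .nil)))) (.nd (nat_lit 6) 
(.lf (nat_lit 245565) (.g (nat_lit 1242) (.e (nat_lit 131094) (nat_lit 2) (.e (nat_lit 90176) (nat_lit 15) (.e (nat_lit 188450) (nat_lit 23) (.e (nat_lit 204816) (nat_lit 17) .nil)))) .nil)) 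
(.lf (nat_lit 245629) (.g (nat_lit 1876) (.e (nat_lit 131094) (nat_lit 2) (.e (nat_lit 90185) (nat_lit 17) (.e (nat_lit 237619) (nat_lit 12) (.e (nat_lit 475179) (nat_lit 24) (.e (nat_lit 516102) (nat_lit 0) .nil))))) .nil))))))) (.nd (nat_lit 2) (.nd (nat_lit 3) (.nd (nat_lit 4) (.nd (nat_lit 5) (.nd (nat_lit 6) 
(.lf (nat_lit 245507) (.g (nat_lit 3148) (.e (nat_lit 131093) (nat_lit 2) (.e (nat_lit 90170) (nat_lit 13) (.e (nat_lit 172113) (nat_lit 10) (.e (nat_lit 434247) (nat_lit 28) (.e (nat_lit 573477) (nat_lit 12) (.e (nat_lit 57570) (nat_lit 54) (.e (nat_lit 770076) (nat_lit 12) .nil))))))) (.g (nat_lit 4) .nil .nil))) 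
(.lf (nat_lit 245571) (.g (nat_lit 1780) (.e (nat_lit 131094) (nat_lit 2) (.e (nat_lit 90176) (nat_lit 15) (.e (nat_lit 188450) (nat_lit 23) (.e (nat_lit 204819) (nat_lit 17) (.e (nat_lit 973) (nat_lit 81) .nil))))) .nil))) (.nd (nat_lit 6) 
(.lf (nat_lit 245539) (.g (nat_lit 2880) (.e (nat_lit 131094) (nat_lit 2) (.e (nat_lit 90170) (nat_lit 13) (.e (nat_lit 172113) (nat_lit 10) (.e (nat_lit 434245) (nat_lit 28) (.e (nat_lit 573474) (nat_lit 12) (.e (nat_lit 57570) (nat_lit 54) (.e (nat_lit 770076) (nat_lit 12) .nil))))))) (.g (nat_lit 4) .nil .nil))) 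
(.lf (nat_lit 245603) (.g (nat_lit 1659) (.e (nat_lit 131094) (nat_lit 2) (.e (nat_lit 90185) (nat_lit 17) (.e (nat_lit 237584) (nat_lit 1) (.e (nat_lit 164325) (nat_lit 230) (.e (nat_lit 163844) (nat_lit 0) .nil))))) .nil)))) (.nd (nat_lit 5) (.nd (nat_lit 6) 
(.lf (nat_lit 245523) (.g (nat_lit 1820) (.e (nat_lit 131094) (nat_lit 2) (.e (nat_lit 90170) (nat_lit 13) (.e (nat_lit 172082) (nat_lit 7) (.e (nat_lit 409612) (nat_lit 10) (.e (nat_lit 604) (nat_lit 45) .nil))))) .nil)) 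
(.lf (nat_lit 245587) (.g (nat_lit 2411) (.e (nat_lit 131094) (nat_lit 2) (.e (nat_lit 90178) (nat_lit 15) (.e (nat_lit 188440) (nat_lit 20) (.e (nat_lit 3307) (nat_lit 202) (.e (nat_lit 573473) (nat_lit 12) (.e (nat_lit 57347) (nat_lit 0) (.e (nat_lit 7125) (nat_lit 382) (.e (nat_lit 1296) (nat_lit 96) .nil)))))))) (.g (nat_lit 4) .nil .nil)))) (.nd (nat_lit 6) 
(.lf (nat_lit 245555) (.g (nat_lit 1676) (.e (nat_lit 131094) (nat_lit 2) (.e (nat_lit 90174) (nat_lit 14) (.e (nat_lit 180225) (nat_lit 0) (.e (nat_lit 4542) (nat_lit 268) .nil)))) .nil)) 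
(.lf (nat_lit 245619) (.g (nat_lit 2020) (.e (nat_lit 131094) (nat_lit 2) (.e (nat_lit 90185) (nat_lit 17) (.e (nat_lit 237605) (nat_lit 9) (.e (nat_lit 426131) (nat_lit 3) (.e (nat_lit 204817) (nat_lit 17) (.e (nat_lit 1905) (nat_lit 129) (.e (nat_lit 598043) (nat_lit 12) .nil))))))) (.g (nat_lit 5) .nil .nil)))))) (.nd (nat_lit 4) (.nd (nat_lit 5) (.nd (nat_lit 6) 
(.lf (nat_lit 245515) (.g (nat_lit 2997) (.e (nat_lit 131093) (nat_lit 2) (.e (nat_lit 90170) (nat_lit 13) (.e (nat_lit 172113) (nat_lit 10) (.e (nat_lit 434248) (nat_lit 28) (.e (nat_lit 573475) (nat_lit 12) (.e (nat_lit 57344) (nat_lit 0) (.e (nat_lit 7125) (nat_lit 382) (.e (nat_lit 1296) (nat_lit 96) .nil)))))))) (.g (nat_lit 4) .nil .nil))) 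
(.lf (nat_lit 245579) (.g (nat_lit 1587) (.e (nat_lit 131094) (nat_lit 2) (.e (nat_lit 90176) (nat_lit 15) (.e (nat_lit 188450) (nat_lit 23) (.e (nat_lit 204840) (nat_lit 21) .nil)))) .nil))) (.nd (nat_lit 6) 
(.lf (nat_lit 245547) (.g (nat_lit 2697) (.e (nat_lit 131094) (nat_lit 2) (.e (nat_lit 90170) (nat_lit 13) (.e (nat_lit 172113) (nat_lit 10) (.e (nat_lit 434248) (nat_lit 28) (.e (nat_lit 573475) (nat_lit 12) (.e (nat_lit 57351) (nat_lit 0) (.e (nat_lit 7122) (nat_lit 382) (.e (nat_lit 1296) (nat_lit 96) .nil)))))))) (.g (nat_lit 4) .nil .nil))) 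
(.lf (nat_lit 245611) (.g (nat_lit 1295) (.e (nat_lit 131094) (nat_lit 2) (.e (nat_lit 90185) (nat_lit 17) (.e (nat_lit 237605) (nat_lit 9) (.e (nat_lit 426128) (nat_lit 2) (.e (nat_lit 196698) (nat_lit 19) .nil))))) .nil)))) (.nd (nat_lit 5) (.nd (nat_lit 6) 
(.lf (nat_lit 245531) (.g (nat_lit 3858) (.e (nat_lit 131094) (nat_lit 2) (.e (nat_lit 90170) (nat_lit 13) (.e (nat_lit 172113) (nat_lit 10) (.e (nat_lit 434242) (nat_lit 28) (.e (nat_lit 573474) (nat_lit 12) (.e (nat_lit 57348) (nat_lit 0) (.e (nat_lit 7125) (nat_lit 382) (.e (nat_lit 1296) (nat_lit 96) .nil)))))))) (.g (nat_lit 5) .nil .nil))) 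
(.lf (nat_lit 245595) (.g (nat_lit 689) (.e (nat_lit 131094) (nat_lit 2) (.e (nat_lit 90178) (nat_lit 15) (.e (nat_lit 188456) (nat_lit 25) .nil))) .nil))) (.nd (nat_lit 6) 
(.lf (nat_lit 245563) (.g (nat_lit 1426) (.e (nat_lit 131094) (nat_lit 2) (.e (nat_lit 90176) (nat_lit 15) (.e (nat_lit 188450) (nat_lit 23) (.e (nat_lit 212736) (nat_lit 1) .nil)))) .nil)) 
(.lf (nat_lit 245627) (.g (nat_lit 551) (.e (nat_lit 131094) (nat_lit 2) (.e (nat_lit 90185) (nat_lit 17) (.e (nat_lit 237616) (nat_lit 12) .nil))) .nil)))))) (.nd (nat_lit 3) (.nd (nat_lit 4) (.nd (nat_lit 5) (.nd (nat_lit 6) 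
(.lf (nat_lit 245511) (.g (nat_lit 4600) (.e (nat_lit 131093) (nat_lit 2) (.e (nat_lit 90170) (nat_lit 13) (.e (nat_lit 172113) (nat_lit 10) (.e (nat_lit 434248) (nat_lit 28) (.e (nat_lit 573473) (nat_lit 12) (.e (nat_lit 57348) (nat_lit 0) (.e (nat_lit 7125) (nat_lit 382) (.e (nat_lit 1296) (nat_lit 96) .nil)))))))) (.g (nat_lit 8) .nil .nil))) 
(.lf (nat_lit 245575) (.g (nat_lit 1752) (.e (nat_lit 131094) (nat_lit 2) (.e (nat_lit 90176) (nat_lit 15) (.e (nat_lit 188450) (nat_lit 23) (.e (nat_lit 204821) (nat_lit 17) (.e (nat_lit 1910) (nat_lit 129) (.e (nat_lit 598043) (nat_lit 12) .nil)))))) (.g (nat_lit 4) .nil .nil)))) (.nd (nat_lit 6) 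
(.lf (nat_lit 245543) (.g (nat_lit 2632) (.e (nat_lit 131094) (nat_lit 2) (.e (nat_lit 90170) (nat_lit 13) (.e (nat_lit 172113) (nat_lit 10) (.e (nat_lit 434248) (nat_lit 28) (.e (nat_lit 573473) (nat_lit 12) (.e (nat_lit 57347) (nat_lit 0) (.e (nat_lit 7124) (nat_lit 382) (.e (nat_lit 1296) (nat_lit 96) .nil)))))))) (.g (nat_lit 4) .nil .nil))) 
(.lf (nat_lit 245607) (.g (nat_lit 492) (.e (nat_lit 131094) (nat_lit 2) (.e (nat_lit 90185) (nat_lit 17) (.e (nat_lit 237601) (nat_lit 9) .nil))) .nil)))) (.nd (nat_lit 5) (.nd (nat_lit 6) 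
(.lf (nat_lit 245527) (.g (nat_lit 3416) (.e (nat_lit 131094) (nat_lit 2) (.e (nat_lit 90170) (nat_lit 13) (.e (nat_lit 172106) (nat_lit 10) (.e (nat_lit 434244) (nat_lit 28) (.e (nat_lit 573474) (nat_lit 12) (.e (nat_lit 57347) (nat_lit 0) (.e (nat_lit 7125) (nat_lit 382) (.e (nat_lit 1296) (nat_lit 96) .nil)))))))) (.g (nat_lit 5) .nil .nil))) 
(.lf (nat_lit 245591) (.g (nat_lit 3605) (.e (nat_lit 131094) (nat_lit 2) (.e (nat_lit 90178) (nat_lit 15) (.e (nat_lit 188440) (nat_lit 20) (.e (nat_lit 3307) (nat_lit 202) (.e (nat_lit 573475) (nat_lit 12) (.e (nat_lit 57347) (nat_lit 0) (.e (nat_lit 7124) (nat_lit 382) (.e (nat_lit 1296) (nat_lit 96) .nil)))))))) (.g (nat_lit 5) .nil .nil)))) (.nd (nat_lit 6) 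
(.lf (nat_lit 245559) (.g (nat_lit 1820) (.e (nat_lit 131094) (nat_lit 2) (.e (nat_lit 90176) (nat_lit 15) (.e (nat_lit 188447) (nat_lit 22) (.e (nat_lit 196661) (nat_lit 12) (.e (nat_lit 57353) (nat_lit 0) .nil))))) .nil)) 
(.lf (nat_lit 245623) (.g (nat_lit 2260) (.e (nat_lit 131094) (nat_lit 2) (.e (nat_lit 90185) (nat_lit 17) (.e (nat_lit 237605) (nat_lit 9) (.e (nat_lit 426131) (nat_lit 3) (.e (nat_lit 204830) (nat_lit 18) (.e (nat_lit 65280) (nat_lit 221) (.e (nat_lit 1294) (nat_lit 96) .nil))))))) (.g (nat_lit 5) .nil .nil)))))) (.nd (nat_lit 4) (.nd (nat_lit 5) (.nd (nat_lit 6) 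
(.lf (nat_lit 245519) (.g (nat_lit 1794) (.e (nat_lit 131093) (nat_lit 2) (.e (nat_lit 90176) (nat_lit 15) (.e (nat_lit 188450) (nat_lit 23) (.e (nat_lit 212736) (nat_lit 1) .nil)))) .nil)) 
(.lf (nat_lit 245583) (.g (nat_lit 2062) (.e (nat_lit 131094) (nat_lit 2) (.e (nat_lit 90178) (nat_lit 15) (.e (nat_lit 188440) (nat_lit 20) (.e (nat_lit 3307) (nat_lit 202) (.e (nat_lit 573447) (nat_lit 0) .nil))))) .nil))) (.nd (nat_lit 6) 
(.lf (nat_lit 245551) (.g (nat_lit 694) (.e (nat_lit 131094) (nat_lit 2) (.e (nat_lit 90172) (nat_lit 14) (.e (nat_lit 188160) (nat_lit 33) .nil))) .nil)) 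
(.lf (nat_lit 245615) (.g (nat_lit 1548) (.e (nat_lit 131094) (nat_lit 2) (.e (nat_lit 90185) (nat_lit 17) (.e (nat_lit 237605) (nat_lit 9) (.e (nat_lit 426131) (nat_lit 3) (.e (nat_lit 212736) (nat_lit 1) (.e (nat_lit 164148) (nat_lit 152) (.e (nat_lit 1298) (nat_lit 96) .nil))))))) (.g (nat_lit 4) .nil .nil))))) (.nd (nat_lit 5) (.nd (nat_lit 6) 
(.lf (nat_lit 245535) (.g (nat_lit 3681) (.e (nat_lit 131094) (nat_lit 2) (.e (nat_lit 90170) (nat_lit 13) (.e (nat_lit 172113) (nat_lit 10) (.e (nat_lit 434245) (nat_lit 28) (.e (nat_lit 573474) (nat_lit 12) (.e (nat_lit 57348) (nat_lit 0) (.e (nat_lit 7124) (nat_lit 382) (.e (nat_lit 1296) (nat_lit 96) .nil)))))))) (.g (nat_lit 5) .nil .nil))) 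
(.lf (nat_lit 245599) (.g (nat_lit 775) (.e (nat_lit 131094) (nat_lit 2) (.e (nat_lit 90185) (nat_lit 17) (.e (nat_lit 237582) (nat_lit 1) .nil))) .nil))) (.nd (nat_lit 6) 
(.lf (nat_lit 245567) (.g (nat_lit 1185) (.e (nat_lit 131094) (nat_lit 2) (.e (nat_lit 90176) (nat_lit 15) (.e (nat_lit 188450) (nat_lit 23) (.e (nat_lit 204817) (nat_lit 17) .nil)))) .nil)) 
(.lf (nat_lit 245631) (.g (nat_lit 1802) (.e (nat_lit 131095) (nat_lit 3) (.e (nat_lit 98372) (nat_lit 29) (.e (nat_lit 450579) (nat_lit 5) (.e (nat_lit 532484) (nat_lit 0) .nil)))) .nil)))))))))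

noncomputable def tv3193 : DT := (.nd (nat_lit 0) (.nd (nat_lit 1) (.nd (nat_lit 2) (.nd (nat_lit 3) (.nd (nat_lit 4) (.nd (nat_lit 5) (.nd (nat_lit 6) 
(.lf (nat_lit 245632) (.g (nat_lit 1563) (.e (nat_lit 131095) (nat_lit 3) (.e (nat_lit 98372) (nat_lit 29) (.e (nat_lit 450586) (nat_lit 10) (.e (nat_lit 573475) (nat_lit 12) .nil)))) .nil)) 
(.lf (nat_lit 245696) (.g (nat_lit 3626) (.e (nat_lit 131096) (nat_lit 3) (.e (nat_lit 98372) (nat_lit 29) (.e (nat_lit 450588) (nat_lit 10) (.e (nat_lit 573473) (nat_lit 12) (.e (nat_lit 57352) (nat_lit 0) .nil))))) .nil))) (.nd (nat_lit 6) 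
(.lf (nat_lit 245664) (.g (nat_lit 515) (.e (nat_lit 131096) (nat_lit 3) (.e (nat_lit 98349) (nat_lit 24) (.e (nat_lit 409641) (nat_lit 17) .nil))) .nil)) 
(.lf (nat_lit 245728) (.g (nat_lit 4162) (.e (nat_lit 131096) (nat_lit 3) (.e (nat_lit 98373) (nat_lit 29) (.e (nat_lit 450587) (nat_lit 10) (.e (nat_lit 573475) (nat_lit 12) (.e (nat_lit 57348) (nat_lit 0) (.e (nat_lit 7125) (nat_lit 382) (.e (nat_lit 1296) (nat_lit 96) .nil))))))) (.g (nat_lit 7) .nil .nil))))) (.nd (nat_lit 5) (.nd (nat_lit 6) 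
(.lf (nat_lit 245648) (.g (nat_lit 855) (.e (nat_lit 131096) (nat_lit 3) (.e (nat_lit 98320) (nat_lit 17) (.e (nat_lit 7593) (nat_lit 407) (.e (nat_lit 73746) (nat_lit 3) .nil)))) .nil)) 
(.lf (nat_lit 245712) (.g (nat_lit 2909) (.e (nat_lit 131096) (nat_lit 3) (.e (nat_lit 98373) (nat_lit 29) (.e (nat_lit 450587) (nat_lit 10) (.e (nat_lit 573473) (nat_lit 12) (.e (nat_lit 57348) (nat_lit 0) .nil))))) .nil))) (.nd (nat_lit 6) 
(.lf (nat_lit 245680) (.g (nat_lit 1698) (.e (nat_lit 131096) (nat_lit 3) (.e (nat_lit 98372) (nat_lit 29) (.e (nat_lit 450579) (nat_lit 5) (.e (nat_lit 532499) (nat_lit 1) (.e (nat_lit 65280) (nat_lit 221) .nil))))) .nil)) 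
(.lf (nat_lit 245744) (.g (nat_lit 3612) (.e (nat_lit 131096) (nat_lit 3) (.e (nat_lit 98373) (nat_lit 29) (.e (nat_lit 450588) (nat_lit 10) (.e (nat_lit 573449) (nat_lit 9) .nil)))) .nil))))) (.nd (nat_lit 4) (.nd (nat_lit 5) (.nd (nat_lit 6) 
(.lf (nat_lit 245640) (.g (nat_lit 3243) (.e (nat_lit 131095) (nat_lit 3) (.e (nat_lit 98373) (nat_lit 29) (.e (nat_lit 450587) (nat_lit 10) (.e (nat_lit 573478) (nat_lit 12) .nil)))) .nil)) 
(.lf (nat_lit 245704) (.g (nat_lit 3371) (.e (nat_lit 131096) (nat_lit 3) (.e (nat_lit 98373) (nat_lit 29) (.e (nat_lit 450585) (nat_lit 10) (.e (nat_lit 573474) (nat_lit 12) (.e (nat_lit 57347) (nat_lit 0) .nil))))) .nil))) (.nd (nat_lit 6) 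
(.lf (nat_lit 245672) (.g (nat_lit 2356) (.e (nat_lit 131096) (nat_lit 3) (.e (nat_lit 98359) (nat_lit 26) (.e (nat_lit 426286) (nat_lit 10) (.e (nat_lit 434245) (nat_lit 28) (.e (nat_lit 573474) (nat_lit 12) .nil))))) .nil)) 
(.lf (nat_lit 245736) (.g (nat_lit 2971) (.e (nat_lit 131096) (nat_lit 3) (.e (nat_lit 98373) (nat_lit 29) (.e (nat_lit 450587) (nat_lit 10) (.e (nat_lit 573475) (nat_lit 12) (.e (nat_lit 57570) (nat_lit 54) .nil))))) .nil)))) (.nd (nat_lit 5) (.nd (nat_lit 6) 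
(.lf (nat_lit 245656) (.g (nat_lit 1680) (.e (nat_lit 131096) (nat_lit 3) (.e (nat_lit 98333) (nat_lit 18) (.e (nat_lit 164183) (nat_lit 154) (.e (nat_lit 57351) (nat_lit 0) (.e (nat_lit 1803) (nat_lit 119) .nil))))) .nil)) 
(.lf (nat_lit 245720) (.g (nat_lit 1555) (.e (nat_lit 131096) (nat_lit 3) (.e (nat_lit 98373) (nat_lit 29) (.e (nat_lit 450587) (nat_lit 10) (.e (nat_lit 573475) (nat_lit 12) .nil)))) .nil))) (.nd (nat_lit 6) 
(.lf (nat_lit 245688) (.g (nat_lit 2306) (.e (nat_lit 131096) (nat_lit 3) (.e (nat_lit 98372) (nat_lit 29) (.e (nat_lit 450586) (nat_lit 10) (.e (nat_lit 573475) (nat_lit 12) (.e (nat_lit 57353) (nat_lit 0) (.e (nat_lit 7125) (nat_lit 382) (.e (nat_lit 1296) (nat_lit 96) .nil))))))) (.g (nat_lit 4) .nil .nil))) 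
(.lf (nat_lit 245752) (.g (nat_lit 2290) (.e (nat_lit 131096) (nat_lit 3) (.e (nat_lit 98373) (nat_lit 29) (.e (nat_lit 450588) (nat_lit 10) (.e (nat_lit 573474) (nat_lit 12) .nil)))) .nil)))))) (.nd (nat_lit 3) (.nd (nat_lit 4) (.nd (nat_lit 5) (.nd (nat_lit 6) 
(.lf (nat_lit 245636) (.g (nat_lit 4163) (.e (nat_lit 131095) (nat_lit 3) (.e (nat_lit 98373) (nat_lit 29) (.e (nat_lit 450587) (nat_lit 10) (.e (nat_lit 573472) (nat_lit 12) .nil)))) .nil)) 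
(.lf (nat_lit 245700) (.g (nat_lit 3392) (.e (nat_lit 131096) (nat_lit 3) (.e (nat_lit 98372) (nat_lit 29) (.e (nat_lit 450588) (nat_lit 10) (.e (nat_lit 573475) (nat_lit 12) (.e (nat_lit 57351) (nat_lit 0) .nil))))) .nil))) (.nd (nat_lit 6) 
(.lf (nat_lit 245668) (.g (nat_lit 1775) (.e (nat_lit 131096) (nat_lit 3) (.e (nat_lit 98350) (nat_lit 24) (.e (nat_lit 409641) (nat_lit 17) (.e (nat_lit 294930) (nat_lit 3) .nil)))) .nil)) 
(.lf (nat_lit 245732) (.g (nat_lit 3516) (.e (nat_lit 131096) (nat_lit 3) (.e (nat_lit 98373) (nat_lit 29) (.e (nat_lit 450587) (nat_lit 10) (.e (nat_lit 573475) (nat_lit 12) (.e (nat_lit 57352) (nat_lit 0) .nil))))) .nil)))) (.nd (nat_lit 5) (.nd (nat_lit 6) 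
(.lf (nat_lit 245652) (.g (nat_lit 2470) (.e (nat_lit 131096) (nat_lit 3) (.e (nat_lit 98333) (nat_lit 18) (.e (nat_lit 164179) (nat_lit 154) (.e (nat_lit 57347) (nat_lit 0) (.e (nat_lit 1781) (nat_lit 119) .nil))))) .nil)) 
(.lf (nat_lit 245716) (.g (nat_lit 3154) (.e (nat_lit 131096) (nat_lit 3) (.e (nat_lit 98373) (nat_lit 29) (.e (nat_lit 450587) (nat_lit 10) (.e (nat_lit 573473) (nat_lit 12) (.e (nat_lit 57352) (nat_lit 0) .nil))))) .nil))) (.nd (nat_lit 6) 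
(.lf (nat_lit 245684) (.g (nat_lit 1677) (.e (nat_lit 131096) (nat_lit 3) (.e (nat_lit 98372) (nat_lit 29) (.e (nat_lit 450586) (nat_lit 10) (.e (nat_lit 573473) (nat_lit 12) (.e (nat_lit 57348) (nat_lit 0) .nil))))) .nil)) 
(.lf (nat_lit 245748) (.g (nat_lit 4219) (.e (nat_lit 131096) (nat_lit 3) (.e (nat_lit 98373) (nat_lit 29) (.e (nat_lit 450588) (nat_lit 10) (.e (nat_lit 573473) (nat_lit 12) (.e (nat_lit 57348) (nat_lit 0) (.e (nat_lit 7124) (nat_lit 382) (.e (nat_lit 1296) (nat_lit 96) .nil))))))) (.g (nat_lit 7) .nil .nil)))))) (.nd (nat_lit 4) (.nd (nat_lit 5) (.nd (nat_lit 6) 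
(.lf (nat_lit 245644) (.g (nat_lit 4631) (.e (nat_lit 131095) (nat_lit 3) (.e (nat_lit 98373) (nat_lit 29) (.e (nat_lit 450588) (nat_lit 10) (.e (nat_lit 573473) (nat_lit 12) (.e (nat_lit 57353) (nat_lit 0) .nil))))) .nil)) 
(.lf (nat_lit 245708) (.g (nat_lit 3917) (.e (nat_lit 131096) (nat_lit 3) (.e (nat_lit 98373) (nat_lit 29) (.e (nat_lit 450587) (nat_lit 10) (.e (nat_lit 573472) (nat_lit 12) .nil)))) .nil))) (.nd (nat_lit 6) 
(.lf (nat_lit 245676) (.g (nat_lit 2437) (.e (nat_lit 131096) (nat_lit 3) (.e (nat_lit 98359) (nat_lit 26) (.e (nat_lit 426286) (nat_lit 10) (.e (nat_lit 434248) (nat_lit 28) (.e (nat_lit 573473) (nat_lit 12) .nil))))) .nil)) 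
(.lf (nat_lit 245740) (.g (nat_lit 1742) (.e (nat_lit 131096) (nat_lit 3) (.e (nat_lit 98373) (nat_lit 29) (.e (nat_lit 450587) (nat_lit 10) (.e (nat_lit 573478) (nat_lit 12) .nil)))) .nil)))) (.nd (nat_lit 5) (.nd (nat_lit 6) 
(.lf (nat_lit 245660) (.g (nat_lit 2709) (.e (nat_lit 131096) (nat_lit 3) (.e (nat_lit 98335) (nat_lit 18) (.e (nat_lit 164179) (nat_lit 154) (.e (nat_lit 57347) (nat_lit 0) (.e (nat_lit 1795) (nat_lit 119) .nil))))) .nil)) 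
(.lf (nat_lit 245724) (.g (nat_lit 4738) (.e (nat_lit 131096) (nat_lit 3) (.e (nat_lit 98373) (nat_lit 29) (.e (nat_lit 450587) (nat_lit 10) (.e (nat_lit 573475) (nat_lit 12) (.e (nat_lit 57347) (nat_lit 0) (.e (nat_lit 7124) (nat_lit 382) (.e (nat_lit 1296) (nat_lit 96) .nil))))))) (.g (nat_lit 7) .nil .nil)))) (.nd (nat_lit 6) 
(.lf (nat_lit 245692) (.g (nat_lit 2503) (.e (nat_lit 131096) (nat_lit 3) (.e (nat_lit 98372) (nat_lit 29) (.e (nat_lit 450586) (nat_lit 10) (.e (nat_lit 573478) (nat_lit 12) (.e (nat_lit 57351) (nat_lit 0) (.e (nat_lit 7124) (nat_lit 382) (.e (nat_lit 1296) (nat_lit 96) .nil))))))) (.g (nat_lit 7) .nil .nil))) 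
(.lf (nat_lit 245756) (.g (nat_lit 1830) (.e (nat_lit 131096) (nat_lit 3) (.e (nat_lit 98373) (nat_lit 29) (.e (nat_lit 450588) (nat_lit 10) (.e (nat_lit 573475) (nat_lit 12) .nil)))) .nil))))))) (.nd (nat_lit 2) (.nd (nat_lit 3) (.nd (nat_lit 4) (.nd (nat_lit 5) (.nd (nat_lit 6) 
(.lf (nat_lit 245634) (.g (nat_lit 1581) (.e (nat_lit 131095) (nat_lit 3) (.e (nat_lit 98372) (nat_lit 29) (.e (nat_lit 450586) (nat_lit 10) (.e (nat_lit 573477) (nat_lit 12) .nil)))) .nil)) 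
(.lf (nat_lit 245698) (.g (nat_lit 3724) (.e (nat_lit 131096) (nat_lit 3) (.e (nat_lit 98372) (nat_lit 29) (.e (nat_lit 450588) (nat_lit 10) (.e (nat_lit 573475) (nat_lit 12) (.e (nat_lit 57347) (nat_lit 0) .nil))))) .nil))) (.nd (nat_lit 6) 
(.lf (nat_lit 245666) (.g (nat_lit 2373) (.e (nat_lit 131096) (nat_lit 3) (.e (nat_lit 98350) (nat_lit 24) (.e (nat_lit 409617) (nat_lit 10) (.e (nat_lit 5355) (nat_lit 298) (.e (nat_lit 1235) (nat_lit 91) .nil))))) .nil)) 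
(.lf (nat_lit 245730) (.g (nat_lit 4027) (.e (nat_lit 131096) (nat_lit 3) (.e (nat_lit 98373) (nat_lit 29) (.e (nat_lit 450587) (nat_lit 10) (.e (nat_lit 573475) (nat_lit 12) (.e (nat_lit 57351) (nat_lit 0) (.e (nat_lit 7124) (nat_lit 382) (.e (nat_lit 1296) (nat_lit 96) .nil))))))) (.g (nat_lit 7) .nil .nil))))) (.nd (nat_lit 5) (.nd (nat_lit 6) 
(.lf (nat_lit 245650) (.g (nat_lit 1385) (.e (nat_lit 131096) (nat_lit 3) (.e (nat_lit 98333) (nat_lit 18) (.e (nat_lit 164151) (nat_lit 152) (.e (nat_lit 1185) (nat_lit 87) .nil)))) .nil)) 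
(.lf (nat_lit 245714) (.g (nat_lit 4229) (.e (nat_lit 131096) (nat_lit 3) (.e (nat_lit 98373) (nat_lit 29) (.e (nat_lit 450587) (nat_lit 10) (.e (nat_lit 573473) (nat_lit 12) (.e (nat_lit 57348) (nat_lit 0) (.e (nat_lit 7125) (nat_lit 382) (.e (nat_lit 1296) (nat_lit 96) .nil))))))) (.g (nat_lit 7) .nil .nil)))) (.nd (nat_lit 6) 
(.lf (nat_lit 245682) (.g (nat_lit 2112) (.e (nat_lit 131096) (nat_lit 3) (.e (nat_lit 98372) (nat_lit 29) (.e (nat_lit 450579) (nat_lit 5) (.e (nat_lit 532501) (nat_lit 1) (.e (nat_lit 65280) (nat_lit 221) .nil))))) .nil)) 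
(.lf (nat_lit 245746) (.g (nat_lit 2782) (.e (nat_lit 131096) (nat_lit 3) (.e (nat_lit 98373) (nat_lit 29) (.e (nat_lit 450588) (nat_lit 10) (.e (nat_lit 573473) (nat_lit 12) (.e (nat_lit 57348) (nat_lit 0) (.e (nat_lit 7119) (nat_lit 382) (.e (nat_lit 1296) (nat_lit 96) .nil))))))) (.g (nat_lit 4) .nil .nil)))))) (.nd (nat_lit 4) (.nd (nat_lit 5) (.nd (nat_lit 6) 
(.lf (nat_lit 245642) (.g (nat_lit 4657) (.e (nat_lit 131095) (nat_lit 3) (.e (nat_lit 98373) (nat_lit 29) (.e (nat_lit 450588) (nat_lit 10) (.e (nat_lit 573473) (nat_lit 12) (.e (nat_lit 57347) (nat_lit 0) .nil))))) .nil)) 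
(.lf (nat_lit 245706) (.g (nat_lit 3777) (.e (nat_lit 131096) (nat_lit 3) (.e (nat_lit 98373) (nat_lit 29) (.e (nat_lit 450585) (nat_lit 10) (.e (nat_lit 573474) (nat_lit 12) (.e (nat_lit 57348) (nat_lit 0) .nil))))) .nil))) (.nd (nat_lit 6) 
(.lf (nat_lit 245674) (.g (nat_lit 2416) (.e (nat_lit 131096) (nat_lit 3) (.e (nat_lit 98359) (nat_lit 26) (.e (nat_lit 426286) (nat_lit 10) (.e (nat_lit 434245) (nat_lit 28) (.e (nat_lit 573474) (nat_lit 12) (.e (nat_lit 57348) (nat_lit 0) (.e (nat_lit 7125) (nat_lit 382) (.e (nat_lit 1296) (nat_lit 96) .nil)))))))) (.g (nat_lit 4) .nil .nil))) 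
(.lf (nat_lit 245738) (.g (nat_lit 2717) (.e (nat_lit 131096) (nat_lit 3) (.e (nat_lit 98373) (nat_lit 29) (.e (nat_lit 450587) (nat_lit 10) (.e (nat_lit 573477) (nat_lit 12) (.e (nat_lit 57351) (nat_lit 0) (.e (nat_lit 7124) (nat_lit 382) (.e (nat_lit 1296) (nat_lit 96) .nil))))))) (.g (nat_lit 4) .nil .nil))))) (.nd (nat_lit 5) (.nd (nat_lit 6) 
(.lf (nat_lit 245658) (.g (nat_lit 1525) (.e (nat_lit 131096) (nat_lit 3) (.e (nat_lit 98335) (nat_lit 18) (.e (nat_lit 164150) (nat_lit 152) (.e (nat_lit 1186) (nat_lit 87) (.e (nat_lit 57464) (nat_lit 23) .nil))))) .nil)) 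
(.lf (nat_lit 245722) (.g (nat_lit 2690) (.e (nat_lit 131096) (nat_lit 3) (.e (nat_lit 98373) (nat_lit 29) (.e (nat_lit 450587) (nat_lit 10) (.e (nat_lit 573475) (nat_lit 12) (.e (nat_lit 57345) (nat_lit 0) .nil))))) .nil))) (.nd (nat_lit 6) 
(.lf (nat_lit 245690) (.g (nat_lit 1581) (.e (nat_lit 131096) (nat_lit 3) (.e (nat_lit 98372) (nat_lit 29) (.e (nat_lit 450586) (nat_lit 10) (.e (nat_lit 573477) (nat_lit 12) (.e (nat_lit 57351) (nat_lit 0) .nil))))) .nil)) 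
(.lf (nat_lit 245754) (.g (nat_lit 4103) (.e (nat_lit 131096) (nat_lit 3) (.e (nat_lit 98373) (nat_lit 29) (.e (nat_lit 450588) (nat_lit 10) (.e (nat_lit 573474) (nat_lit 12) (.e (nat_lit 57348) (nat_lit 0) .nil))))) .nil)))))) (.nd (nat_lit 3) (.nd (nat_lit 4) (.nd (nat_lit 5) (.nd (nat_lit 6) 
(.lf (nat_lit 245638) (.g (nat_lit 4401) (.e (nat_lit 131095) (nat_lit 3) (.e (nat_lit 98373) (nat_lit 29) (.e (nat_lit 450587) (nat_lit 10) (.e (nat_lit 573475) (nat_lit 12) .nil)))) .nil)) 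
(.lf (nat_lit 245702) (.g (nat_lit 3998) (.e (nat_lit 131096) (nat_lit 3) (.e (nat_lit 98372) (nat_lit 29) (.e (nat_lit 450588) (nat_lit 10) (.e (nat_lit 573475) (nat_lit 12) (.e (nat_lit 57353) (nat_lit 0) .nil))))) .nil))) (.nd (nat_lit 6) 
(.lf (nat_lit 245670) (.g (nat_lit 3023) (.e (nat_lit 131096) (nat_lit 3) (.e (nat_lit 98356) (nat_lit 26) (.e (nat_lit 426422) (nat_lit 16) (.e (nat_lit 57692) (nat_lit 156) (.e (nat_lit 163874) (nat_lit 3) (.e (nat_lit 204830) (nat_lit 18) (.e (nat_lit 57830) (nat_lit 250) (.e (nat_lit 1296) (nat_lit 96) .nil)))))))) (.g (nat_lit 5) .nil .nil))) 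
(.lf (nat_lit 245734) (.g (nat_lit 4109) (.e (nat_lit 131096) (nat_lit 3) (.e (nat_lit 98373) (nat_lit 29) (.e (nat_lit 450587) (nat_lit 10) (.e (nat_lit 573475) (nat_lit 12) (.e (nat_lit 57353) (nat_lit 0) (.e (nat_lit 7125) (nat_lit 382) (.e (nat_lit 1296) (nat_lit 96) .nil))))))) (.g (nat_lit 7) .nil .nil))))) (.nd (nat_lit 5) (.nd (nat_lit 6) 
(.lf (nat_lit 245654) (.g (nat_lit 1585) (.e (nat_lit 131096) (nat_lit 3) (.e (nat_lit 98333) (nat_lit 18) (.e (nat_lit 164179) (nat_lit 154) (.e (nat_lit 57376) (nat_lit 3) .nil)))) .nil)) 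
(.lf (nat_lit 245718) (.g (nat_lit 4375) (.e (nat_lit 131096) (nat_lit 3) (.e (nat_lit 98373) (nat_lit 29) (.e (nat_lit 450587) (nat_lit 10) (.e (nat_lit 573473) (nat_lit 12) (.e (nat_lit 57353) (nat_lit 0) (.e (nat_lit 7124) (nat_lit 382) (.e (nat_lit 1296) (nat_lit 96) .nil))))))) (.g (nat_lit 7) .nil .nil)))) (.nd (nat_lit 6) 
(.lf (nat_lit 245686) (.g (nat_lit 1676) (.e (nat_lit 131096) (nat_lit 3) (.e (nat_lit 98372) (nat_lit 29) (.e (nat_lit 450586) (nat_lit 10) (.e (nat_lit 573473) (nat_lit 12) (.e (nat_lit 57353) (nat_lit 0) .nil))))) .nil)) 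
(.lf (nat_lit 245750) (.g (nat_lit 2653) (.e (nat_lit 131096) (nat_lit 3) (.e (nat_lit 98373) (nat_lit 29) (.e (nat_lit 450588) (nat_lit 10) (.e (nat_lit 573473) (nat_lit 12) (.e (nat_lit 57353) (nat_lit 0) .nil))))) .nil))))) (.nd (nat_lit 4) (.nd (nat_lit 5) (.nd (nat_lit 6) 
(.lf (nat_lit 245646) (.g (nat_lit 3711) (.e (nat_lit 131095) (nat_lit 3) (.e (nat_lit 98373) (nat_lit 29) (.e (nat_lit 450588) (nat_lit 10) (.e (nat_lit 573475) (nat_lit 12) .nil)))) .nil)) 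
(.lf (nat_lit 245710) (.g (nat_lit 2239) (.e (nat_lit 131096) (nat_lit 3) (.e (nat_lit 98373) (nat_lit 29) (.e (nat_lit 450587) (nat_lit 10) (.e (nat_lit 573473) (nat_lit 12) .nil)))) .nil))) (.nd (nat_lit 6) 
(.lf (nat_lit 245678) (.g (nat_lit 2568) (.e (nat_lit 131096) (nat_lit 3) (.e (nat_lit 98359) (nat_lit 26) (.e (nat_lit 426286) (nat_lit 10) (.e (nat_lit 434248) (nat_lit 28) (.e (nat_lit 573475) (nat_lit 12) (.e (nat_lit 57347) (nat_lit 0) (.e (nat_lit 7124) (nat_lit 382) (.e (nat_lit 1296) (nat_lit 96) .nil)))))))) (.g (nat_lit 4) .nil .nil))) 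
(.lf (nat_lit 245742) (.g (nat_lit 2316) (.e (nat_lit 131096) (nat_lit 3) (.e (nat_lit 98373) (nat_lit 29) (.e (nat_lit 450587) (nat_lit 10) (.e (nat_lit 573478) (nat_lit 12) (.e (nat_lit 57352) (nat_lit 0) .nil))))) .nil)))) (.nd (nat_lit 5) (.nd (nat_lit 6) 
(.lf (nat_lit 245662) (.g (nat_lit 1883) (.e (nat_lit 131096) (nat_lit 3) (.e (nat_lit 98335) (nat_lit 18) (.e (nat_lit 164179) (nat_lit 154) (.e (nat_lit 57354) (nat_lit 0) .nil)))) .nil)) 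
(.lf (nat_lit 245726) (.g (nat_lit 2728) (.e (nat_lit 131096) (nat_lit 3) (.e (nat_lit 98373) (nat_lit 29) (.e (nat_lit 450587) (nat_lit 10) (.e (nat_lit 573475) (nat_lit 12) (.e (nat_lit 57348) (nat_lit 0) (.e (nat_lit 7119) (nat_lit 382) (.e (nat_lit 1296) (nat_lit 96) .nil))))))) (.g (nat_lit 4) .nil .nil)))) (.nd (nat_lit 6) 
(.lf (nat_lit 245694) (.g (nat_lit 3773) (.e (nat_lit 131096) (nat_lit 3) (.e (nat_lit 98372) (nat_lit 29) (.e (nat_lit 450588) (nat_lit 10) (.e (nat_lit 573473) (nat_lit 12) (.e (nat_lit 57347) (nat_lit 0) .nil))))) .nil)) 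
(.lf (nat_lit 245758) (.g (nat_lit 4792) (.e (nat_lit 131096) (nat_lit 3) (.e (nat_lit 98373) (nat_lit 29) (.e (nat_lit 450588) (nat_lit 10) (.e (nat_lit 573475) (nat_lit 12) (.e (nat_lit 57347) (nat_lit 0) (.e (nat_lit 7124) (nat_lit 382) (.e (nat_lit 1296) (nat_lit 96) .nil))))))) (.g (nat_lit 7) .nil .nil))))))))) 
(.nd (nat_lit 1) (.nd (nat_lit 2) (.nd (nat_lit 3) (.nd (nat_lit 4) (.nd (nat_lit 5) 
(.nd (nat_lit 6) 
(.lf (nat_lit 245633) (.g (nat_lit 2494) (.e (nat_lit 131095) (nat_lit 3) (.e (nat_lit 98372) (nat_lit 29) (.e (nat_lit 450586) (nat_lit 10) (.e (nat_lit 573475) (nat_lit 12) (.e (nat_lit 57347) (nat_lit 0) .nil))))) .nil)) 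
(.lf (nat_lit 245697) (.g (nat_lit 3621) (.e (nat_lit 131096) (nat_lit 3) (.e (nat_lit 98372) (nat_lit 29) (.e (nat_lit 450588) (nat_lit 10) (.e (nat_lit 573473) (nat_lit 12) (.e (nat_lit 57353) (nat_lit 0) .nil))))) .nil))) (.nd (nat_lit 6) 
(.lf (nat_lit 245665) (.g (nat_lit 570) (.e (nat_lit 131096) (nat_lit 3) (.e (nat_lit 98349) (nat_lit 24) (.e (nat_lit 409645) (nat_lit 18) .nil))) .nil)) 
(.lf (nat_lit 245729) (.g (nat_lit 2671) (.e (nat_lit 131096) (nat_lit 3) (.e (nat_lit 98373) (nat_lit 29) (.e (nat_lit 450587) (nat_lit 10) (.e (nat_lit 573475) (nat_lit 12) (.e (nat_lit 57351) (nat_lit 0) .nil))))) .nil)))) (.nd (nat_lit 5) (.nd (nat_lit 6) 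
(.lf (nat_lit 245649) (.g (nat_lit 1424) (.e (nat_lit 131096) (nat_lit 3) (.e (nat_lit 98333) (nat_lit 18) (.e (nat_lit 164150) (nat_lit 152) (.e (nat_lit 1186) (nat_lit 87) (.e (nat_lit 57464) (nat_lit 23) .nil))))) .nil)) 
(.lf (nat_lit 245713) (.g (nat_lit 4413) (.e (nat_lit 131096) (nat_lit 3) (.e (nat_lit 98373) (nat_lit 29) (.e (nat_lit 450587) (nat_lit 10) (.e (nat_lit 573473) (nat_lit 12) (.e (nat_lit 57348) (nat_lit 0) (.e (nat_lit 7124) (nat_lit 382) (.e (nat_lit 1296) (nat_lit 96) .nil))))))) (.g (nat_lit 7) .nil .nil)))) (.nd (nat_lit 6) 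
(.lf (nat_lit 245681) (.g (nat_lit 1341) (.e (nat_lit 131096) (nat_lit 3) (.e (nat_lit 98372) (nat_lit 29) (.e (nat_lit 450579) (nat_lit 5) (.e (nat_lit 532501) (nat_lit 1) .nil)))) .nil)) 
(.lf (nat_lit 245745) (.g (nat_lit 1803) (.e (nat_lit 131096) (nat_lit 3) (.e (nat_lit 98373) (nat_lit 29) (.e (nat_lit 450588) (nat_lit 10) (.e (nat_lit 573473) (nat_lit 12) .nil)))) .nil))))) (.nd (nat_lit 4) (.nd (nat_lit 5) (.nd (nat_lit 6) 
(.lf (nat_lit 245641) (.g (nat_lit 3928) (.e (nat_lit 131095) (nat_lit 3) (.e (nat_lit 98373) (nat_lit 29) (.e (nat_lit 450588) (nat_lit 10) (.e (nat_lit 573473) (nat_lit 12) .nil)))) .nil)) 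
(.lf (nat_lit 245705) (.g (nat_lit 3440) (.e (nat_lit 131096) (nat_lit 3) (.e (nat_lit 98373) (nat_lit 29) (.e (nat_lit 450585) (nat_lit 10) (.e (nat_lit 573474) (nat_lit 12) (.e (nat_lit 57347) (nat_lit 0) (.e (nat_lit 7125) (nat_lit 382) (.e (nat_lit 1296) (nat_lit 96) .nil))))))) (.g (nat_lit 4) .nil .nil)))) (.nd (nat_lit 6) 
(.lf (nat_lit 245673) (.g (nat_lit 2507) (.e (nat_lit 131096) (nat_lit 3) (.e (nat_lit 98359) (nat_lit 26) (.e (nat_lit 426286) (nat_lit 10) (.e (nat_lit 434245) (nat_lit 28) (.e (nat_lit 573474) (nat_lit 12) (.e (nat_lit 57347) (nat_lit 0) (.e (nat_lit 7124) (nat_lit 382) (.e (nat_lit 1296) (nat_lit 96) .nil)))))))) (.g (nat_lit 4) .nil .nil))) 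
(.lf (nat_lit 245737) (.g (nat_lit 4136) (.e (nat_lit 131096) (nat_lit 3) (.e (nat_lit 98373) (nat_lit 29) (.e (nat_lit 450587) (nat_lit 10) (.e (nat_lit 573476) (nat_lit 12) .nil)))) .nil)))) (.nd (nat_lit 5) (.nd (nat_lit 6) 
(.lf (nat_lit 245657) (.g (nat_lit 1749) (.e (nat_lit 131096) (nat_lit 3) (.e (nat_lit 98334) (nat_lit 18) (.e (nat_lit 164159) (nat_lit 152) (.e (nat_lit 1183) (nat_lit 87) (.e (nat_lit 57466) (nat_lit 23) .nil))))) .nil)) 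
(.lf (nat_lit 245721) (.g (nat_lit 3074) (.e (nat_lit 131096) (nat_lit 3) (.e (nat_lit 98373) (nat_lit 29) (.e (nat_lit 450587) (nat_lit 10) (.e (nat_lit 573475) (nat_lit 12) (.e (nat_lit 57344) (nat_lit 0) .nil))))) .nil))) (.nd (nat_lit 6) 
(.lf (nat_lit 245689) (.g (nat_lit 1064) (.e (nat_lit 131096) (nat_lit 3) (.e (nat_lit 98372) (nat_lit 29) (.e (nat_lit 450586) (nat_lit 10) (.e (nat_lit 573477) (nat_lit 12) .nil)))) .nil)) 
(.lf (nat_lit 245753) (.g (nat_lit 3836) (.e (nat_lit 131096) (nat_lit 3) (.e (nat_lit 98373) (nat_lit 29) (.e (nat_lit 450588) (nat_lit 10) (.e (nat_lit 573474) (nat_lit 12) (.e (nat_lit 57347) (nat_lit 0) .nil))))) .nil)))))) (.nd (nat_lit 3) (.nd (nat_lit 4) (.nd (nat_lit 5) (.nd (nat_lit 6) 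
(.lf (nat_lit 245637) (.g (nat_lit 3840) (.e (nat_lit 131095) (nat_lit 3) (.e (nat_lit 98373) (nat_lit 29) (.e (nat_lit 450587) (nat_lit 10) (.e (nat_lit 573473) (nat_lit 12) .nil)))) .nil)) 
(.lf (nat_lit 245701) (.g (nat_lit 3505) (.e (nat_lit 131096) (nat_lit 3) (.e (nat_lit 98372) (nat_lit 29) (.e (nat_lit 450588) (nat_lit 10) (.e (nat_lit 573475) (nat_lit 12) (.e (nat_lit 57351) (nat_lit 0) (.e (nat_lit 7124) (nat_lit 382) (.e (nat_lit 1296) (nat_lit 96) .nil))))))) (.g (nat_lit 4) .nil .nil)))) (.nd (nat_lit 6) 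
(.lf (nat_lit 245669) (.g (nat_lit 709) (.e (nat_lit 131096) (nat_lit 3) (.e (nat_lit 98350) (nat_lit 24) (.e (nat_lit 409645) (nat_lit 18) .nil))) .nil)) 
(.lf (nat_lit 245733) (.g (nat_lit 2862) (.e (nat_lit 131096) (nat_lit 3) (.e (nat_lit 98373) (nat_lit 29) (.e (nat_lit 450587) (nat_lit 10) (.e (nat_lit 573475) (nat_lit 12) (.e (nat_lit 57353) (nat_lit 0) .nil))))) .nil)))) (.nd (nat_lit 5) (.nd (nat_lit 6) 
(.lf (nat_lit 245653) (.g (nat_lit 2012) (.e (nat_lit 131096) (nat_lit 3) (.e (nat_lit 98333) (nat_lit 18) (.e (nat_lit 164179) (nat_lit 154) (.e (nat_lit 57348) (nat_lit 0) (.e (nat_lit 1781) (nat_lit 119) .nil))))) .nil)) 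
(.lf (nat_lit 245717) (.g (nat_lit 2952) (.e (nat_lit 131096) (nat_lit 3) (.e (nat_lit 98373) (nat_lit 29) (.e (nat_lit 450587) (nat_lit 10) (.e (nat_lit 573473) (nat_lit 12) (.e (nat_lit 57353) (nat_lit 0) .nil))))) .nil))) (.nd (nat_lit 6) 
(.lf (nat_lit 245685) (.g (nat_lit 1683) (.e (nat_lit 131096) (nat_lit 3) (.e (nat_lit 98372) (nat_lit 29) (.e (nat_lit 450586) (nat_lit 10) (.e (nat_lit 573473) (nat_lit 12) (.e (nat_lit 57352) (nat_lit 0) .nil))))) .nil)) 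
(.lf (nat_lit 245749) (.g (nat_lit 2670) (.e (nat_lit 131096) (nat_lit 3) (.e (nat_lit 98373) (nat_lit 29) (.e (nat_lit 450588) (nat_lit 10) (.e (nat_lit 573473) (nat_lit 12) (.e (nat_lit 57352) (nat_lit 0) .nil))))) .nil))))) (.nd (nat_lit 4) (.nd (nat_lit 5) (.nd (nat_lit 6) 
(.lf (nat_lit 245645) (.g (nat_lit 5190) (.e (nat_lit 131095) (nat_lit 3) (.e (nat_lit 98373) (nat_lit 29) (.e (nat_lit 450588) (nat_lit 10) (.e (nat_lit 573474) (nat_lit 12) .nil)))) .nil)) 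
(.lf (nat_lit 245709) (.g (nat_lit 4284) (.e (nat_lit 131096) (nat_lit 3) (.e (nat_lit 98373) (nat_lit 29) (.e (nat_lit 450587) (nat_lit 10) (.e (nat_lit 573472) (nat_lit 12) (.e (nat_lit 57347) (nat_lit 0) .nil))))) .nil))) (.nd (nat_lit 6) 
(.lf (nat_lit 245677) (.g (nat_lit 2447) (.e (nat_lit 131096) (nat_lit 3) (.e (nat_lit 98359) (nat_lit 26) (.e (nat_lit 426286) (nat_lit 10) (.e (nat_lit 434248) (nat_lit 28) (.e (nat_lit 573475) (nat_lit 12) .nil))))) .nil)) 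
(.lf (nat_lit 245741) (.g (nat_lit 3373) (.e (nat_lit 131096) (nat_lit 3) (.e (nat_lit 98373) (nat_lit 29) (.e (nat_lit 450587) (nat_lit 10) (.e (nat_lit 573478) (nat_lit 12) (.e (nat_lit 57351) (nat_lit 0) (.e (nat_lit 7124) (nat_lit 382) (.e (nat_lit 1296) (nat_lit 96) .nil))))))) (.g (nat_lit 7) .nil .nil))))) (.nd (nat_lit 5) (.nd (nat_lit 6) 
(.lf (nat_lit 245661) (.g (nat_lit 2313) (.e (nat_lit 131096) (nat_lit 3) (.e (nat_lit 98335) (nat_lit 18) (.e (nat_lit 164179) (nat_lit 154) (.e (nat_lit 57348) (nat_lit 0) (.e (nat_lit 1795) (nat_lit 119) .nil))))) .nil)) 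
(.lf (nat_lit 245725) (.g (nat_lit 4796) (.e (nat_lit 131096) (nat_lit 3) (.e (nat_lit 98373) (nat_lit 29) (.e (nat_lit 450587) (nat_lit 10) (.e (nat_lit 573475) (nat_lit 12) (.e (nat_lit 57347) (nat_lit 0) (.e (nat_lit 7125) (nat_lit 382) (.e (nat_lit 1296) (nat_lit 96) .nil))))))) (.g (nat_lit 7) .nil .nil)))) (.nd (nat_lit 6) 
(.lf (nat_lit 245693) (.g (nat_lit 2435) (.e (nat_lit 131096) (nat_lit 3) (.e (nat_lit 98372) (nat_lit 29) (.e (nat_lit 450586) (nat_lit 10) (.e (nat_lit 573478) (nat_lit 12) (.e (nat_lit 57353) (nat_lit 0) (.e (nat_lit 7125) (nat_lit 382) (.e (nat_lit 1296) (nat_lit 96) .nil))))))) (.g (nat_lit 7) .nil .nil))) 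
(.lf (nat_lit 245757) (.g (nat_lit 2918) (.e (nat_lit 131096) (nat_lit 3) (.e (nat_lit 98373) (nat_lit 29) (.e (nat_lit 450588) (nat_lit 10) (.e (nat_lit 573475) (nat_lit 12) (.e (nat_lit 57347) (nat_lit 0) (.e (nat_lit 7119) (nat_lit 382) (.e (nat_lit 1296) (nat_lit 96) .nil))))))) (.g (nat_lit 4) .nil .nil)))))))) 
(.nd (nat_lit 2) (.nd (nat_lit 3) (.nd (nat_lit 4) (.nd (nat_lit 5) (.nd (nat_lit 6) 
(.lf (nat_lit 245635) (.g (nat_lit 1532) (.e (nat_lit 131095) (nat_lit 3) (.e (nat_lit 98372) (nat_lit 29) (.e (nat_lit 450586) (nat_lit 10) (.e (nat_lit 573478) (nat_lit 12) .nil)))) .nil)) 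
(.lf (nat_lit 245699) (.g (nat_lit 3947) (.e (nat_lit 131096) (nat_lit 3) (.e (nat_lit 98372) (nat_lit 29) (.e (nat_lit 450588) (nat_lit 10) (.e (nat_lit 573475) (nat_lit 12) (.e (nat_lit 57348) (nat_lit 0) .nil))))) .nil))) (.nd (nat_lit 6) 
(.lf (nat_lit 245667) (.g (nat_lit 1760) (.e (nat_lit 131096) (nat_lit 3) (.e (nat_lit 98350) (nat_lit 24) (.e (nat_lit 409641) (nat_lit 17) (.e (nat_lit 294928) (nat_lit 2) .nil)))) .nil)) 
(.lf (nat_lit 245731) (.g (nat_lit 3790) (.e (nat_lit 131096) (nat_lit 3) (.e (nat_lit 98373) (nat_lit 29) (.e (nat_lit 450587) (nat_lit 10) (.e (nat_lit 573475) (nat_lit 12) (.e (nat_lit 57351) (nat_lit 0) (.e (nat_lit 7125) (nat_lit 382) (.e (nat_lit 1296) (nat_lit 96) .nil))))))) (.g (nat_lit 7) .nil .nil))))) (.nd (nat_lit 5) (.nd (nat_lit 6) 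
(.lf (nat_lit 245651) (.g (nat_lit 1695) (.e (nat_lit 131096) (nat_lit 3) (.e (nat_lit 98333) (nat_lit 18) (.e (nat_lit 164177) (nat_lit 154) (.e (nat_lit 57354) (nat_lit 0) (.e (nat_lit 1799) (nat_lit 119) .nil))))) .nil)) 
(.lf (nat_lit 245715) (.g (nat_lit 3344) (.e (nat_lit 131096) (nat_lit 3) (.e (nat_lit 98373) (nat_lit 29) (.e (nat_lit 450587) (nat_lit 10) (.e (nat_lit 573473) (nat_lit 12) (.e (nat_lit 57351) (nat_lit 0) .nil))))) .nil))) (.nd (nat_lit 6) 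
(.lf (nat_lit 245683) (.g (nat_lit 1984) (.e (nat_lit 131096) (nat_lit 3) (.e (nat_lit 98372) (nat_lit 29) (.e (nat_lit 450579) (nat_lit 5) (.e (nat_lit 532503) (nat_lit 1) (.e (nat_lit 65280) (nat_lit 221) .nil))))) .nil)) 
(.lf (nat_lit 245747) (.g (nat_lit 2729) (.e (nat_lit 131096) (nat_lit 3) (.e (nat_lit 98373) (nat_lit 29) (.e (nat_lit 450588) (nat_lit 10) (.e (nat_lit 573473) (nat_lit 12) (.e (nat_lit 57348) (nat_lit 0) (.e (nat_lit 7122) (nat_lit 382) (.e (nat_lit 1296) (nat_lit 96) .nil))))))) (.g (nat_lit 4) .nil .nil)))))) (.nd (nat_lit 4) (.nd (nat_lit 5) (.nd (nat_lit 6) 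
(.lf (nat_lit 245643) (.g (nat_lit 4627) (.e (nat_lit 131095) (nat_lit 3) (.e (nat_lit 98373) (nat_lit 29) (.e (nat_lit 450588) (nat_lit 10) (.e (nat_lit 573473) (nat_lit 12) (.e (nat_lit 57348) (nat_lit 0) .nil))))) .nil)) 
(.lf (nat_lit 245707) (.g (nat_lit 2340) (.e (nat_lit 131096) (nat_lit 3) (.e (nat_lit 98373) (nat_lit 29) (.e (nat_lit 450586) (nat_lit 10) (.e (nat_lit 573473) (nat_lit 12) (.e (nat_lit 57348) (nat_lit 0) .nil))))) .nil))) (.nd (nat_lit 6) 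
(.lf (nat_lit 245675) (.g (nat_lit 1710) (.e (nat_lit 131096) (nat_lit 3) (.e (nat_lit 98359) (nat_lit 26) (.e (nat_lit 426286) (nat_lit 10) (.e (nat_lit 434247) (nat_lit 28) .nil)))) .nil)) 
(.lf (nat_lit 245739) (.g (nat_lit 2701) (.e (nat_lit 131096) (nat_lit 3) (.e (nat_lit 98373) (nat_lit 29) (.e (nat_lit 450587) (nat_lit 10) (.e (nat_lit 573477) (nat_lit 12) (.e (nat_lit 57351) (nat_lit 0) (.e (nat_lit 7125) (nat_lit 382) (.e (nat_lit 1296) (nat_lit 96) .nil))))))) (.g (nat_lit 4) .nil .nil))))) (.nd (nat_lit 5) (.nd (nat_lit 6) 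
(.lf (nat_lit 245659) (.g (nat_lit 1562) (.e (nat_lit 131096) (nat_lit 3) (.e (nat_lit 98335) (nat_lit 18) (.e (nat_lit 164161) (nat_lit 152) (.e (nat_lit 1286) (nat_lit 95) (.e (nat_lit 122936) (nat_lit 23) .nil))))) .nil)) 
(.lf (nat_lit 245723) (.g (nat_lit 2553) (.e (nat_lit 131096) (nat_lit 3) (.e (nat_lit 98373) (nat_lit 29) (.e (nat_lit 450587) (nat_lit 10) (.e (nat_lit 573475) (nat_lit 12) (.e (nat_lit 57346) (nat_lit 0) .nil))))) .nil))) (.nd (nat_lit 6) 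
(.lf (nat_lit 245691) (.g (nat_lit 1594) (.e (nat_lit 131096) (nat_lit 3) (.e (nat_lit 98372) (nat_lit 29) (.e (nat_lit 450586) (nat_lit 10) (.e (nat_lit 573477) (nat_lit 12) (.e (nat_lit 57351) (nat_lit 0) (.e (nat_lit 7124) (nat_lit 382) (.e (nat_lit 1296) (nat_lit 96) .nil))))))) (.g (nat_lit 4) .nil .nil))) 
(.lf (nat_lit 245755) (.g (nat_lit 4474) (.e (nat_lit 131096) (nat_lit 3) (.e (nat_lit 98373) (nat_lit 29) (.e (nat_lit 450588) (nat_lit 10) (.e (nat_lit 573474) (nat_lit 12) (.e (nat_lit 57351) (nat_lit 0) .nil))))) .nil)))))) (.nd (nat_lit 3) (.nd (nat_lit 4) (.nd (nat_lit 5) (.nd (nat_lit 6) 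
(.lf (nat_lit 245639) (.g (nat_lit 3358) (.e (nat_lit 131095) (nat_lit 3) (.e (nat_lit 98373) (nat_lit 29) (.e (nat_lit 450587) (nat_lit 10) (.e (nat_lit 573477) (nat_lit 12) .nil)))) .nil)) 
(.lf (nat_lit 245703) (.g (nat_lit 757) (.e (nat_lit 131096) (nat_lit 3) (.e (nat_lit 98373) (nat_lit 29) (.e (nat_lit 450585) (nat_lit 10) .nil))) .nil))) (.nd (nat_lit 6) 
(.lf (nat_lit 245671) (.g (nat_lit 1696) (.e (nat_lit 131096) (nat_lit 3) (.e (nat_lit 98359) (nat_lit 26) (.e (nat_lit 426286) (nat_lit 10) (.e (nat_lit 434245) (nat_lit 28) .nil)))) .nil)) 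
(.lf (nat_lit 245735) (.g (nat_lit 2447) (.e (nat_lit 131096) (nat_lit 3) (.e (nat_lit 98373) (nat_lit 29) (.e (nat_lit 450587) (nat_lit 10) (.e (nat_lit 573475) (nat_lit 12) (.e (nat_lit 57354) (nat_lit 0) .nil))))) .nil)))) (.nd (nat_lit 5) (.nd (nat_lit 6) 
(.lf (nat_lit 245655) (.g (nat_lit 1712) (.e (nat_lit 131096) (nat_lit 3) (.e (nat_lit 98333) (nat_lit 18) (.e (nat_lit 164182) (nat_lit 154) (.e (nat_lit 57361) (nat_lit 0) (.e (nat_lit 1800) (nat_lit 119) .nil))))) .nil)) 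
(.lf (nat_lit 245719) (.g (nat_lit 4202) (.e (nat_lit 131096) (nat_lit 3) (.e (nat_lit 98373) (nat_lit 29) (.e (nat_lit 450587) (nat_lit 10) (.e (nat_lit 573473) (nat_lit 12) (.e (nat_lit 57353) (nat_lit 0) (.e (nat_lit 7125) (nat_lit 382) (.e (nat_lit 1296) (nat_lit 96) .nil))))))) (.g (nat_lit 0) .nil .nil)))) (.nd (nat_lit 6) 
(.lf (nat_lit 245687) (.g (nat_lit 3063) (.e (nat_lit 131096) (nat_lit 3) (.e (nat_lit 98372) (nat_lit 29) (.e (nat_lit 450586) (nat_lit 10) (.e (nat_lit 573475) (nat_lit 12) (.e (nat_lit 57351) (nat_lit 0) (.e (nat_lit 7124) (nat_lit 382) (.e (nat_lit 1296) (nat_lit 96) .nil))))))) (.g (nat_lit 7) .nil .nil))) 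
(.lf (nat_lit 245751) (.g (nat_lit 4122) (.e (nat_lit 131096) (nat_lit 3) (.e (nat_lit 98373) (nat_lit 29) (.e (nat_lit 450588) (nat_lit 10) (.e (nat_lit 573473) (nat_lit 12) (.e (nat_lit 57353) (nat_lit 0) (.e (nat_lit 7124) (nat_lit 382) (.e (nat_lit 1296) (nat_lit 96) .nil))))))) (.g (nat_lit 7) .nil .nil)))))) (.nd (nat_lit 4) (.nd (nat_lit 5) (.nd (nat_lit 6) 
(.lf (nat_lit 245647) (.g (nat_lit 1964) (.e (nat_lit 131095) (nat_lit 3) (.e (nat_lit 98389) (nat_lit 33) (.e (nat_lit 491546) (nat_lit 9) (.e (nat_lit 336028) (nat_lit 3) (.e (nat_lit 98325) (nat_lit 17) .nil))))) .nil)) 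
(.lf (nat_lit 245711) (.g (nat_lit 2816) (.e (nat_lit 131096) (nat_lit 3) (.e (nat_lit 98373) (nat_lit 29) (.e (nat_lit 450587) (nat_lit 10) (.e (nat_lit 573473) (nat_lit 12) (.e (nat_lit 57347) (nat_lit 0) .nil))))) .nil))) (.nd (nat_lit 6) 
(.lf (nat_lit 245679) (.g (nat_lit 1409) (.e (nat_lit 131096) (nat_lit 3) (.e (nat_lit 98372) (nat_lit 29) (.e (nat_lit 450579) (nat_lit 5) (.e (nat_lit 532484) (nat_lit 0) .nil)))) .nil)) 
(.lf (nat_lit 245743) (.g (nat_lit 3913) (.e (nat_lit 131096) (nat_lit 3) (.e (nat_lit 98373) (nat_lit 29) (.e (nat_lit 450588) (nat_lit 10) (.e (nat_lit 581376) (nat_lit 0) .nil)))) .nil)))) (.nd (nat_lit 5) (.nd (nat_lit 6) 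
(.lf (nat_lit 245663) (.g (nat_lit 1883) (.e (nat_lit 131096) (nat_lit 3) (.e (nat_lit 98335) (nat_lit 18) (.e (nat_lit 164179) (nat_lit 154) (.e (nat_lit 57376) (nat_lit 3) .nil)))) .nil)) 
(.lf (nat_lit 245727) (.g (nat_lit 2677) (.e (nat_lit 131096) (nat_lit 3) (.e (nat_lit 98373) (nat_lit 29) (.e (nat_lit 450587) (nat_lit 10) (.e (nat_lit 573475) (nat_lit 12) (.e (nat_lit 57348) (nat_lit 0) (.e (nat_lit 7122) (nat_lit 382) (.e (nat_lit 1296) (nat_lit 96) .nil))))))) (.g (nat_lit 4) .nil .nil)))) (.nd (nat_lit 6) 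
(.lf (nat_lit 245695) (.g (nat_lit 3604) (.e (nat_lit 131096) (nat_lit 3) (.e (nat_lit 98372) (nat_lit 29) (.e (nat_lit 450588) (nat_lit 10) (.e (nat_lit 573473) (nat_lit 12) (.e (nat_lit 57348) (nat_lit 0) .nil))))) .nil)) 
(.lf (nat_lit 245759) (.g (nat_lit 2871) (.e (nat_lit 131096) (nat_lit 3) (.e (nat_lit 98373) (nat_lit 29) (.e (nat_lit 450588) (nat_lit 10) (.e (nat_lit 573475) (nat_lit 12) (.e (nat_lit 57348) (nat_lit 0) .nil))))) .nil)))))))))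

noncomputable def tv3194 : DT := (.nd (nat_lit 0) (.nd (nat_lit 1) (.nd (nat_lit 2) (.nd (nat_lit 3) (.nd (nat_lit 4) (.nd (nat_lit 5) (.nd (nat_lit 6) 
(.lf (nat_lit 245760) (.g (nat_lit 4066) (.e (nat_lit 131096) (nat_lit 3) (.e (nat_lit 98373) (nat_lit 29) (.e (nat_lit 450588) (nat_lit 10) (.e (nat_lit 573475) (nat_lit 12) (.e (nat_lit 57348) (nat_lit 0) (.e (nat_lit 7124) (nat_lit 382) (.e (nat_lit 1296) (nat_lit 96) .nil))))))) (.g (nat_lit 6) .nil .nil))) 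
(.lf (nat_lit 245824) (.g (nat_lit 3014) (.e (nat_lit 131097) (nat_lit 3) (.e (nat_lit 98373) (nat_lit 29) (.e (nat_lit 450587) (nat_lit 10) (.e (nat_lit 573475) (nat_lit 12) (.e (nat_lit 57348) (nat_lit 0) .nil))))) .nil))) (.nd (nat_lit 6) 
(.lf (nat_lit 245792) (.g (nat_lit 1396) (.e (nat_lit 131097) (nat_lit 3) (.e (nat_lit 98372) (nat_lit 29) (.e (nat_lit 450579) (nat_lit 5) (.e (nat_lit 532504) (nat_lit 1) .nil)))) .nil)) 
(.lf (nat_lit 245856) (.g (nat_lit 4710) (.e (nat_lit 131097) (nat_lit 3) (.e (nat_lit 98373) (nat_lit 29) (.e (nat_lit 450588) (nat_lit 10) (.e (nat_lit 573474) (nat_lit 12) (.e (nat_lit 57347) (nat_lit 0) .nil))))) .nil)))) (.nd (nat_lit 5) (.nd (nat_lit 6) 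
(.lf (nat_lit 245776) (.g (nat_lit 2198) (.e (nat_lit 131097) (nat_lit 3) (.e (nat_lit 98350) (nat_lit 24) (.e (nat_lit 409640) (nat_lit 17) (.e (nat_lit 294928) (nat_lit 2) (.e (nat_lit 90165) (nat_lit 12) .nil))))) .nil)) 
(.lf (nat_lit 245840) (.g (nat_lit 2799) (.e (nat_lit 131097) (nat_lit 3) (.e (nat_lit 98373) (nat_lit 29) (.e (nat_lit 450587) (nat_lit 10) (.e (nat_lit 573477) (nat_lit 12) (.e (nat_lit 57353) (nat_lit 0) .nil))))) .nil))) (.nd (nat_lit 6) 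
(.lf (nat_lit 245808) (.g (nat_lit 4238) (.e (nat_lit 131097) (nat_lit 3) (.e (nat_lit 98373) (nat_lit 29) (.e (nat_lit 450587) (nat_lit 10) (.e (nat_lit 573473) (nat_lit 12) (.e (nat_lit 57348) (nat_lit 0) (.e (nat_lit 7125) (nat_lit 382) (.e (nat_lit 1296) (nat_lit 96) .nil))))))) (.g (nat_lit 7) .nil .nil))) 
(.lf (nat_lit 245872) (.g (nat_lit 4550) (.e (nat_lit 131097) (nat_lit 3) (.e (nat_lit 98373) (nat_lit 29) (.e (nat_lit 450588) (nat_lit 10) (.e (nat_lit 573495) (nat_lit 16) .nil)))) .nil))))) (.nd (nat_lit 4) (.nd (nat_lit 5) (.nd (nat_lit 6) 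
(.lf (nat_lit 245768) (.g (nat_lit 1421) (.e (nat_lit 131097) (nat_lit 3) (.e (nat_lit 98320) (nat_lit 17) (.e (nat_lit 7593) (nat_lit 407) (.e (nat_lit 73746) (nat_lit 3) (.e (nat_lit 516105) (nat_lit 0) .nil))))) .nil)) 
(.lf (nat_lit 245832) (.g (nat_lit 3308) (.e (nat_lit 131097) (nat_lit 3) (.e (nat_lit 98373) (nat_lit 29) (.e (nat_lit 450587) (nat_lit 10) (.e (nat_lit 573475) (nat_lit 12) (.e (nat_lit 57356) (nat_lit 0) .nil))))) .nil))) (.nd (nat_lit 6) 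
(.lf (nat_lit 245800) (.g (nat_lit 1784) (.e (nat_lit 131097) (nat_lit 3) (.e (nat_lit 98372) (nat_lit 29) (.e (nat_lit 450586) (nat_lit 10) (.e (nat_lit 573477) (nat_lit 12) (.e (nat_lit 57351) (nat_lit 0) .nil))))) .nil)) 
(.lf (nat_lit 245864) (.g (nat_lit 3957) (.e (nat_lit 131097) (nat_lit 3) (.e (nat_lit 98373) (nat_lit 29) (.e (nat_lit 450588) (nat_lit 10) (.e (nat_lit 573475) (nat_lit 12) (.e (nat_lit 57348) (nat_lit 0) (.e (nat_lit 7119) (nat_lit 382) (.e (nat_lit 1296) (nat_lit 96) .nil))))))) (.g (nat_lit 4) .nil .nil))))) (.nd (nat_lit 5) (.nd (nat_lit 6) 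
(.lf (nat_lit 245784) (.g (nat_lit 2650) (.e (nat_lit 131097) (nat_lit 3) (.e (nat_lit 98350) (nat_lit 24) (.e (nat_lit 409646) (nat_lit 18) (.e (nat_lit 303119) (nat_lit 3) (.e (nat_lit 204819) (nat_lit 17) .nil))))) .nil)) 
(.lf (nat_lit 245848) (.g (nat_lit 3325) (.e (nat_lit 131097) (nat_lit 3) (.e (nat_lit 98373) (nat_lit 29) (.e (nat_lit 450588) (nat_lit 10) (.e (nat_lit 573473) (nat_lit 12) (.e (nat_lit 57347) (nat_lit 0) .nil))))) .nil))) (.nd (nat_lit 6) 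
(.lf (nat_lit 245816) (.g (nat_lit 1894) (.e (nat_lit 131097) (nat_lit 3) (.e (nat_lit 98373) (nat_lit 29) (.e (nat_lit 450587) (nat_lit 10) (.e (nat_lit 573475) (nat_lit 12) .nil)))) .nil)) 
(.lf (nat_lit 245880) (.g (nat_lit 2364) (.e (nat_lit 131098) (nat_lit 3) (.e (nat_lit 98335) (nat_lit 18) (.e (nat_lit 164179) (nat_lit 154) (.e (nat_lit 57348) (nat_lit 0) (.e (nat_lit 1795) (nat_lit 119) .nil))))) .nil)))))) (.nd (nat_lit 3) (.nd (nat_lit 4) (.nd (nat_lit 5) (.nd (nat_lit 6) 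
(.lf (nat_lit 245764) (.g (nat_lit 4334) (.e (nat_lit 131096) (nat_lit 3) (.e (nat_lit 98373) (nat_lit 29) (.e (nat_lit 450588) (nat_lit 10) (.e (nat_lit 573478) (nat_lit 12) .nil)))) .nil)) 
(.lf (nat_lit 245828) (.g (nat_lit 3855) (.e (nat_lit 131097) (nat_lit 3) (.e (nat_lit 98373) (nat_lit 29) (.e (nat_lit 450587) (nat_lit 10) (.e (nat_lit 573475) (nat_lit 12) (.e (nat_lit 57352) (nat_lit 0) .nil))))) .nil))) (.nd (nat_lit 6) 
(.lf (nat_lit 245796) (.g (nat_lit 2459) (.e (nat_lit 131097) (nat_lit 3) (.e (nat_lit 98372) (nat_lit 29) (.e (nat_lit 450586) (nat_lit 10) (.e (nat_lit 573475) (nat_lit 12) (.e (nat_lit 57348) (nat_lit 0) (.e (nat_lit 7124) (nat_lit 382) (.e (nat_lit 1296) (nat_lit 96) .nil))))))) (.g (nat_lit 4) .nil .nil))) 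
(.lf (nat_lit 245860) (.g (nat_lit 3572) (.e (nat_lit 131097) (nat_lit 3) (.e (nat_lit 98373) (nat_lit 29) (.e (nat_lit 450588) (nat_lit 10) (.e (nat_lit 573475) (nat_lit 12) (.e (nat_lit 57344) (nat_lit 0) .nil))))) .nil)))) (.nd (nat_lit 5) (.nd (nat_lit 6) 
(.lf (nat_lit 245780) (.g (nat_lit 747) (.e (nat_lit 131097) (nat_lit 3) (.e (nat_lit 98350) (nat_lit 24) (.e (nat_lit 409644) (nat_lit 18) .nil))) .nil)) 
(.lf (nat_lit 245844) (.g (nat_lit 3824) (.e (nat_lit 131097) (nat_lit 3) (.e (nat_lit 98373) (nat_lit 29) (.e (nat_lit 450588) (nat_lit 10) (.e (nat_lit 573449) (nat_lit 9) .nil)))) .nil))) (.nd (nat_lit 6) 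
(.lf (nat_lit 245812) (.g (nat_lit 2875) (.e (nat_lit 131097) (nat_lit 3) (.e (nat_lit 98373) (nat_lit 29) (.e (nat_lit 450587) (nat_lit 10) (.e (nat_lit 573473) (nat_lit 12) (.e (nat_lit 57353) (nat_lit 0) .nil))))) .nil)) 
(.lf (nat_lit 245876) (.g (nat_lit 2423) (.e (nat_lit 131098) (nat_lit 3) (.e (nat_lit 98333) (nat_lit 18) (.e (nat_lit 164177) (nat_lit 154) (.e (nat_lit 57347) (nat_lit 0) (.e (nat_lit 1795) (nat_lit 119) (.e (nat_lit 516131) (nat_lit 3) (.e (nat_lit 221212) (nat_lit 22) (.e (nat_lit 196681) (nat_lit 17) .nil)))))))) (.g (nat_lit 4) .nil .nil)))))) 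
(.nd (nat_lit 4) (.nd (nat_lit 5) (.nd (nat_lit 6) 
(.lf (nat_lit 245772) (.g (nat_lit 1733) (.e (nat_lit 131097) (nat_lit 3) (.e (nat_lit 98349) (nat_lit 24) (.e (nat_lit 409645) (nat_lit 18) (.e (nat_lit 303119) (nat_lit 3) .nil)))) .nil)) 
(.lf (nat_lit 245836) (.g (nat_lit 4332) (.e (nat_lit 131097) (nat_lit 3) (.e (nat_lit 98373) (nat_lit 29) (.e (nat_lit 450587) (nat_lit 10) (.e (nat_lit 573476) (nat_lit 12) .nil)))) .nil))) (.nd (nat_lit 6) 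
(.lf (nat_lit 245804) (.g (nat_lit 4191) (.e (nat_lit 131097) (nat_lit 3) (.e (nat_lit 98373) (nat_lit 29) (.e (nat_lit 450585) (nat_lit 10) (.e (nat_lit 573474) (nat_lit 12) (.e (nat_lit 57348) (nat_lit 0) .nil))))) .nil)) 
(.lf (nat_lit 245868) (.g (nat_lit 3317) (.e (nat_lit 131097) (nat_lit 3) (.e (nat_lit 98373) (nat_lit 29) (.e (nat_lit 450588) (nat_lit 10) (.e (nat_lit 573475) (nat_lit 12) (.e (nat_lit 57354) (nat_lit 0) .nil))))) .nil)))) (.nd (nat_lit 5) (.nd (nat_lit 6) 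
(.lf (nat_lit 245788) (.g (nat_lit 1502) (.e (nat_lit 131097) (nat_lit 3) (.e (nat_lit 98372) (nat_lit 29) (.e (nat_lit 450579) (nat_lit 5) (.e (nat_lit 532484) (nat_lit 0) .nil)))) .nil)) 
(.lf (nat_lit 245852) (.g (nat_lit 3321) (.e (nat_lit 131097) (nat_lit 3) (.e (nat_lit 98373) (nat_lit 29) (.e (nat_lit 450588) (nat_lit 10) (.e (nat_lit 573473) (nat_lit 12) (.e (nat_lit 57352) (nat_lit 0) .nil))))) .nil))) (.nd (nat_lit 6) 
(.lf (nat_lit 245820) (.g (nat_lit 2892) (.e (nat_lit 131097) (nat_lit 3) (.e (nat_lit 98373) (nat_lit 29) (.e (nat_lit 450587) (nat_lit 10) (.e (nat_lit 573475) (nat_lit 12) (.e (nat_lit 57346) (nat_lit 0) .nil))))) .nil)) 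
(.lf (nat_lit 245884) (.g (nat_lit 579) (.e (nat_lit 131098) (nat_lit 3) (.e (nat_lit 98350) (nat_lit 24) (.e (nat_lit 409641) (nat_lit 17) .nil))) .nil))))))) (.nd (nat_lit 2) (.nd (nat_lit 3) (.nd (nat_lit 4) (.nd (nat_lit 5) (.nd (nat_lit 6) 
(.lf (nat_lit 245762) (.g (nat_lit 4601) (.e (nat_lit 131096) (nat_lit 3) (.e (nat_lit 98373) (nat_lit 29) (.e (nat_lit 450588) (nat_lit 10) (.e (nat_lit 573476) (nat_lit 12) .nil)))) .nil)) 
(.lf (nat_lit 245826) (.g (nat_lit 3522) (.e (nat_lit 131097) (nat_lit 3) (.e (nat_lit 98373) (nat_lit 29) (.e (nat_lit 450587) (nat_lit 10) (.e (nat_lit 573475) (nat_lit 12) (.e (nat_lit 57350) (nat_lit 0) .nil))))) .nil))) (.nd (nat_lit 6) 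
(.lf (nat_lit 245794) (.g (nat_lit 1889) (.e (nat_lit 131097) (nat_lit 3) (.e (nat_lit 98372) (nat_lit 29) (.e (nat_lit 450586) (nat_lit 10) (.e (nat_lit 573473) (nat_lit 12) (.e (nat_lit 57348) (nat_lit 0) .nil))))) .nil)) 
(.lf (nat_lit 245858) (.g (nat_lit 5348) (.e (nat_lit 131097) (nat_lit 3) (.e (nat_lit 98373) (nat_lit 29) (.e (nat_lit 450588) (nat_lit 10) (.e (nat_lit 573474) (nat_lit 12) (.e (nat_lit 57351) (nat_lit 0) .nil))))) .nil)))) (.nd (nat_lit 5) (.nd (nat_lit 6) 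
(.lf (nat_lit 245778) (.g (nat_lit 3081) (.e (nat_lit 131097) (nat_lit 3) (.e (nat_lit 98350) (nat_lit 24) (.e (nat_lit 409641) (nat_lit 17) (.e (nat_lit 294928) (nat_lit 2) (.e (nat_lit 90165) (nat_lit 12) (.e (nat_lit 171776) (nat_lit 194) .nil)))))) (.g (nat_lit 5) .nil .nil))) 
(.lf (nat_lit 245842) (.g (nat_lit 2810) (.e (nat_lit 131097) (nat_lit 3) (.e (nat_lit 98373) (nat_lit 29) (.e (nat_lit 450587) (nat_lit 10) (.e (nat_lit 573478) (nat_lit 12) (.e (nat_lit 57353) (nat_lit 0) .nil))))) .nil))) (.nd (nat_lit 6) 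
(.lf (nat_lit 245810) (.g (nat_lit 3266) (.e (nat_lit 131097) (nat_lit 3) (.e (nat_lit 98373) (nat_lit 29) (.e (nat_lit 450587) (nat_lit 10) (.e (nat_lit 573473) (nat_lit 12) (.e (nat_lit 57351) (nat_lit 0) .nil))))) .nil)) 
(.lf (nat_lit 245874) (.g (nat_lit 2534) (.e (nat_lit 131097) (nat_lit 3) (.e (nat_lit 98389) (nat_lit 33) (.e (nat_lit 491546) (nat_lit 9) (.e (nat_lit 336013) (nat_lit 2) (.e (nat_lit 90165) (nat_lit 12) (.e (nat_lit 171776) (nat_lit 194) .nil)))))) (.g (nat_lit 5) .nil .nil)))))) (.nd (nat_lit 4) (.nd (nat_lit 5) (.nd (nat_lit 6) 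
(.lf (nat_lit 245770) (.g (nat_lit 515) (.e (nat_lit 131097) (nat_lit 3) (.e (nat_lit 98349) (nat_lit 24) (.e (nat_lit 409641) (nat_lit 17) .nil))) .nil)) 
(.lf (nat_lit 245834) (.g (nat_lit 3311) (.e (nat_lit 131097) (nat_lit 3) (.e (nat_lit 98373) (nat_lit 29) (.e (nat_lit 450587) (nat_lit 10) (.e (nat_lit 573475) (nat_lit 12) (.e (nat_lit 57570) (nat_lit 54) .nil))))) .nil))) (.nd (nat_lit 6) 
(.lf (nat_lit 245802) (.g (nat_lit 1018) (.e (nat_lit 131097) (nat_lit 3) (.e (nat_lit 98373) (nat_lit 29) (.e (nat_lit 458496) (nat_lit 3) .nil))) .nil)) 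
(.lf (nat_lit 245866) (.g (nat_lit 4885) (.e (nat_lit 131097) (nat_lit 3) (.e (nat_lit 98373) (nat_lit 29) (.e (nat_lit 450588) (nat_lit 10) (.e (nat_lit 573475) (nat_lit 12) (.e (nat_lit 57351) (nat_lit 0) (.e (nat_lit 7125) (nat_lit 382) (.e (nat_lit 1296) (nat_lit 96) .nil))))))) (.g (nat_lit 7) .nil .nil))))) (.nd (nat_lit 5) (.nd (nat_lit 6) 
(.lf (nat_lit 245786) (.g (nat_lit 591) (.e (nat_lit 131097) (nat_lit 3) (.e (nat_lit 98350) (nat_lit 24) (.e (nat_lit 409649) (nat_lit 18) .nil))) .nil)) 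
(.lf (nat_lit 245850) (.g (nat_lit 3296) (.e (nat_lit 131097) (nat_lit 3) (.e (nat_lit 98373) (nat_lit 29) (.e (nat_lit 450588) (nat_lit 10) (.e (nat_lit 573473) (nat_lit 12) (.e (nat_lit 57348) (nat_lit 0) .nil))))) .nil))) (.nd (nat_lit 6) 
(.lf (nat_lit 245818) (.g (nat_lit 3029) (.e (nat_lit 131097) (nat_lit 3) (.e (nat_lit 98373) (nat_lit 29) (.e (nat_lit 450587) (nat_lit 10) (.e (nat_lit 573475) (nat_lit 12) (.e (nat_lit 57345) (nat_lit 0) .nil))))) .nil)) 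
(.lf (nat_lit 245882) (.g (nat_lit 2365) (.e (nat_lit 131098) (nat_lit 3) (.e (nat_lit 98350) (nat_lit 24) (.e (nat_lit 409617) (nat_lit 10) (.e (nat_lit 5355) (nat_lit 298) (.e (nat_lit 1235) (nat_lit 91) .nil))))) .nil)))))) (.nd (nat_lit 3) (.nd (nat_lit 4) (.nd (nat_lit 5) (.nd (nat_lit 6) 
(.lf (nat_lit 245766) (.g (nat_lit 2630) (.e (nat_lit 131096) (nat_lit 3) (.e (nat_lit 98389) (nat_lit 33) (.e (nat_lit 491546) (nat_lit 9) (.e (nat_lit 336013) (nat_lit 2) (.e (nat_lit 90165) (nat_lit 12) (.e (nat_lit 171776) (nat_lit 194) .nil)))))) (.g (nat_lit 5) .nil .nil))) 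
(.lf (nat_lit 245830) (.g (nat_lit 2787) (.e (nat_lit 131097) (nat_lit 3) (.e (nat_lit 98373) (nat_lit 29) (.e (nat_lit 450587) (nat_lit 10) (.e (nat_lit 573475) (nat_lit 12) (.e (nat_lit 57354) (nat_lit 0) .nil))))) .nil))) (.nd (nat_lit 6) 
(.lf (nat_lit 245798) (.g (nat_lit 2425) (.e (nat_lit 131097) (nat_lit 3) (.e (nat_lit 98372) (nat_lit 29) (.e (nat_lit 450586) (nat_lit 10) (.e (nat_lit 573475) (nat_lit 12) (.e (nat_lit 57353) (nat_lit 0) .nil))))) .nil)) 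
(.lf (nat_lit 245862) (.g (nat_lit 5955) (.e (nat_lit 131097) (nat_lit 3) (.e (nat_lit 98373) (nat_lit 29) (.e (nat_lit 450588) (nat_lit 10) (.e (nat_lit 573475) (nat_lit 12) (.e (nat_lit 57347) (nat_lit 0) (.e (nat_lit 7125) (nat_lit 382) (.e (nat_lit 1296) (nat_lit 96) .nil))))))) (.g (nat_lit 7) .nil .nil))))) (.nd (nat_lit 5) (.nd (nat_lit 6) 
(.lf (nat_lit 245782) (.g (nat_lit 2625) (.e (nat_lit 131097) (nat_lit 3) (.e (nat_lit 98350) (nat_lit 24) (.e (nat_lit 409645) (nat_lit 18) (.e (nat_lit 303119) (nat_lit 3) (.e (nat_lit 204819) (nat_lit 17) .nil))))) .nil)) 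
(.lf (nat_lit 245846) (.g (nat_lit 4445) (.e (nat_lit 131097) (nat_lit 3) (.e (nat_lit 98373) (nat_lit 29) (.e (nat_lit 450588) (nat_lit 10) (.e (nat_lit 573453) (nat_lit 9) .nil)))) .nil))) (.nd (nat_lit 6) 
(.lf (nat_lit 245814) (.g (nat_lit 3032) (.e (nat_lit 131097) (nat_lit 3) (.e (nat_lit 98373) (nat_lit 29) (.e (nat_lit 450587) (nat_lit 10) (.e (nat_lit 573473) (nat_lit 12) (.e (nat_lit 57354) (nat_lit 0) .nil))))) .nil)) 
(.lf (nat_lit 245878) (.g (nat_lit 1579) (.e (nat_lit 131098) (nat_lit 3) (.e (nat_lit 98334) (nat_lit 18) (.e (nat_lit 164183) (nat_lit 154) (.e (nat_lit 57352) (nat_lit 0) (.e (nat_lit 1803) (nat_lit 119) .nil))))) .nil))))) (.nd (nat_lit 4) (.nd (nat_lit 5) (.nd (nat_lit 6) 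
(.lf (nat_lit 245774) (.g (nat_lit 3069) (.e (nat_lit 131097) (nat_lit 3) (.e (nat_lit 98350) (nat_lit 24) (.e (nat_lit 409616) (nat_lit 10) (.e (nat_lit 5355) (nat_lit 298) (.e (nat_lit 1235) (nat_lit 91) (.e (nat_lit 90165) (nat_lit 12) (.e (nat_lit 171776) (nat_lit 194) .nil))))))) (.g (nat_lit 4) .nil .nil))) 
(.lf (nat_lit 245838) (.g (nat_lit 3159) (.e (nat_lit 131097) (nat_lit 3) (.e (nat_lit 98373) (nat_lit 29) (.e (nat_lit 450587) (nat_lit 10) (.e (nat_lit 573477) (nat_lit 12) (.e (nat_lit 57351) (nat_lit 0) .nil))))) .nil))) (.nd (nat_lit 6) 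
(.lf (nat_lit 245806) (.g (nat_lit 4210) (.e (nat_lit 131097) (nat_lit 3) (.e (nat_lit 98373) (nat_lit 29) (.e (nat_lit 450587) (nat_lit 10) (.e (nat_lit 573472) (nat_lit 12) .nil)))) .nil)) 
(.lf (nat_lit 245870) (.g (nat_lit 4830) (.e (nat_lit 131097) (nat_lit 3) (.e (nat_lit 98373) (nat_lit 29) (.e (nat_lit 450588) (nat_lit 10) (.e (nat_lit 573477) (nat_lit 12) .nil)))) .nil)))) (.nd (nat_lit 5) (.nd (nat_lit 6) 
(.lf (nat_lit 245790) (.g (nat_lit 1442) (.e (nat_lit 131097) (nat_lit 3) (.e (nat_lit 98372) (nat_lit 29) (.e (nat_lit 450579) (nat_lit 5) (.e (nat_lit 532499) (nat_lit 1) .nil)))) .nil)) 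
(.lf (nat_lit 245854) (.g (nat_lit 5007) (.e (nat_lit 131097) (nat_lit 3) (.e (nat_lit 98373) (nat_lit 29) (.e (nat_lit 450588) (nat_lit 10) (.e (nat_lit 573473) (nat_lit 12) (.e (nat_lit 57353) (nat_lit 0) (.e (nat_lit 7125) (nat_lit 382) (.e (nat_lit 1296) (nat_lit 96) .nil))))))) (.g (nat_lit 0) .nil .nil)))) (.nd (nat_lit 6) 
(.lf (nat_lit 245822) (.g (nat_lit 2969) (.e (nat_lit 131097) (nat_lit 3) (.e (nat_lit 98373) (nat_lit 29) (.e (nat_lit 450587) (nat_lit 10) (.e (nat_lit 573475) (nat_lit 12) (.e (nat_lit 57346) (nat_lit 0) (.e (nat_lit 7233) (nat_lit 382) (.e (nat_lit 1294) (nat_lit 96) .nil))))))) (.g (nat_lit 4) .nil .nil))) 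
(.lf (nat_lit 245886) (.g (nat_lit 1846) (.e (nat_lit 131098) (nat_lit 3) (.e (nat_lit 98350) (nat_lit 24) (.e (nat_lit 409645) (nat_lit 18) (.e (nat_lit 303119) (nat_lit 3) .nil)))) .nil)))))))) (.nd (nat_lit 1) (.nd (nat_lit 2) (.nd (nat_lit 3) (.nd (nat_lit 4) (.nd (nat_lit 5) (.nd (nat_lit 6) 
(.lf (nat_lit 245761) (.g (nat_lit 4050) (.e (nat_lit 131096) (nat_lit 3) (.e (nat_lit 98373) (nat_lit 29) (.e (nat_lit 450588) (nat_lit 10) (.e (nat_lit 573475) (nat_lit 12) (.e (nat_lit 57351) (nat_lit 0) (.e (nat_lit 7124) (nat_lit 382) (.e (nat_lit 1296) (nat_lit 96) .nil))))))) (.g (nat_lit 7) .nil .nil))) 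
(.lf (nat_lit 245825) (.g (nat_lit 3135) (.e (nat_lit 131097) (nat_lit 3) (.e (nat_lit 98373) (nat_lit 29) (.e (nat_lit 450587) (nat_lit 10) (.e (nat_lit 573475) (nat_lit 12) (.e (nat_lit 57349) (nat_lit 0) .nil))))) .nil))) (.nd (nat_lit 6) 
(.lf (nat_lit 245793) (.g (nat_lit 2136) (.e (nat_lit 131097) (nat_lit 3) (.e (nat_lit 98372) (nat_lit 29) (.e (nat_lit 450586) (nat_lit 10) (.e (nat_lit 573473) (nat_lit 12) (.e (nat_lit 57347) (nat_lit 0) (.e (nat_lit 7124) (nat_lit 382) (.e (nat_lit 1296) (nat_lit 96) .nil))))))) (.g (nat_lit 4) .nil .nil))) 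
(.lf (nat_lit 245857) (.g (nat_lit 4977) (.e (nat_lit 131097) (nat_lit 3) (.e (nat_lit 98373) (nat_lit 29) (.e (nat_lit 450588) (nat_lit 10) (.e (nat_lit 573474) (nat_lit 12) (.e (nat_lit 57348) (nat_lit 0) .nil))))) .nil)))) (.nd (nat_lit 5) (.nd (nat_lit 6) 
(.lf (nat_lit 245777) (.g (nat_lit 1799) (.e (nat_lit 131097) (nat_lit 3) (.e (nat_lit 98350) (nat_lit 24) (.e (nat_lit 409641) (nat_lit 17) (.e (nat_lit 294927) (nat_lit 2) .nil)))) .nil)) 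
(.lf (nat_lit 245841) (.g (nat_lit 2348) (.e (nat_lit 131097) (nat_lit 3) (.e (nat_lit 98373) (nat_lit 29) (.e (nat_lit 450587) (nat_lit 10) (.e (nat_lit 573478) (nat_lit 12) .nil)))) .nil))) (.nd (nat_lit 6) 
(.lf (nat_lit 245809) (.g (nat_lit 3340) (.e (nat_lit 131097) (nat_lit 3) (.e (nat_lit 98373) (nat_lit 29) (.e (nat_lit 450587) (nat_lit 10) (.e (nat_lit 573473) (nat_lit 12) (.e (nat_lit 57350) (nat_lit 0) .nil))))) .nil)) 
(.lf (nat_lit 245873) (.g (nat_lit 4170) (.e (nat_lit 131097) (nat_lit 3) (.e (nat_lit 98373) (nat_lit 29) (.e (nat_lit 450588) (nat_lit 10) (.e (nat_lit 573503) (nat_lit 18) .nil)))) .nil))))) (.nd (nat_lit 4) (.nd (nat_lit 5) (.nd (nat_lit 6) 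
(.lf (nat_lit 245769) (.g (nat_lit 3083) (.e (nat_lit 131097) (nat_lit 3) (.e (nat_lit 98323) (nat_lit 17) (.e (nat_lit 6989) (nat_lit 377) (.e (nat_lit 2777) (nat_lit 178) (.e (nat_lit 286733) (nat_lit 2) (.e (nat_lit 90165) (nat_lit 12) (.e (nat_lit 171776) (nat_lit 194) .nil))))))) (.g (nat_lit 4) .nil .nil))) 
(.lf (nat_lit 245833) (.g (nat_lit 3423) (.e (nat_lit 131097) (nat_lit 3) (.e (nat_lit 98373) (nat_lit 29) (.e (nat_lit 450587) (nat_lit 10) (.e (nat_lit 573475) (nat_lit 12) (.e (nat_lit 57568) (nat_lit 53) (.e (nat_lit 769792) (nat_lit 12) .nil)))))) (.g (nat_lit 5) .nil .nil)))) (.nd (nat_lit 6) 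
(.lf (nat_lit 245801) (.g (nat_lit 3781) (.e (nat_lit 131097) (nat_lit 3) (.e (nat_lit 98372) (nat_lit 29) (.e (nat_lit 450588) (nat_lit 10) (.e (nat_lit 573475) (nat_lit 12) (.e (nat_lit 57347) (nat_lit 0) .nil))))) .nil)) 
(.lf (nat_lit 245865) (.g (nat_lit 3959) (.e (nat_lit 131097) (nat_lit 3) (.e (nat_lit 98373) (nat_lit 29) (.e (nat_lit 450588) (nat_lit 10) (.e (nat_lit 573475) (nat_lit 12) (.e (nat_lit 57348) (nat_lit 0) (.e (nat_lit 7122) (nat_lit 382) (.e (nat_lit 1296) (nat_lit 96) .nil))))))) (.g (nat_lit 4) .nil .nil))))) (.nd (nat_lit 5) (.nd (nat_lit 6) 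
(.lf (nat_lit 245785) (.g (nat_lit 1676) (.e (nat_lit 131097) (nat_lit 3) (.e (nat_lit 98350) (nat_lit 24) (.e (nat_lit 409648) (nat_lit 18) (.e (nat_lit 303118) (nat_lit 3) .nil)))) .nil)) 
(.lf (nat_lit 245849) (.g (nat_lit 4605) (.e (nat_lit 131097) (nat_lit 3) (.e (nat_lit 98373) (nat_lit 29) (.e (nat_lit 450588) (nat_lit 10) (.e (nat_lit 573473) (nat_lit 12) (.e (nat_lit 57347) (nat_lit 0) (.e (nat_lit 7124) (nat_lit 382) (.e (nat_lit 1296) (nat_lit 96) .nil))))))) (.g (nat_lit 5) .nil .nil)))) (.nd (nat_lit 6) 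
(.lf (nat_lit 245817) (.g (nat_lit 3414) (.e (nat_lit 131097) (nat_lit 3) (.e (nat_lit 98373) (nat_lit 29) (.e (nat_lit 450587) (nat_lit 10) (.e (nat_lit 573475) (nat_lit 12) (.e (nat_lit 57344) (nat_lit 0) .nil))))) .nil)) 
(.lf (nat_lit 245881) (.g (nat_lit 1879) (.e (nat_lit 131098) (nat_lit 3) (.e (nat_lit 98350) (nat_lit 24) (.e (nat_lit 409616) (nat_lit 10) (.e (nat_lit 5355) (nat_lit 298) .nil)))) .nil)))))) (.nd (nat_lit 3) (.nd (nat_lit 4) (.nd (nat_lit 5) (.nd (nat_lit 6) 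
(.lf (nat_lit 245765) (.g (nat_lit 3691) (.e (nat_lit 131096) (nat_lit 3) (.e (nat_lit 98373) (nat_lit 29) (.e (nat_lit 450588) (nat_lit 10) (.e (nat_lit 573503) (nat_lit 18) .nil)))) .nil)) 
(.lf (nat_lit 245829) (.g (nat_lit 3201) (.e (nat_lit 131097) (nat_lit 3) (.e (nat_lit 98373) (nat_lit 29) (.e (nat_lit 450587) (nat_lit 10) (.e (nat_lit 573475) (nat_lit 12) (.e (nat_lit 57353) (nat_lit 0) .nil))))) .nil))) (.nd (nat_lit 6) 
(.lf (nat_lit 245797) (.g (nat_lit 2367) (.e (nat_lit 131097) (nat_lit 3) (.e (nat_lit 98372) (nat_lit 29) (.e (nat_lit 450586) (nat_lit 10) (.e (nat_lit 573475) (nat_lit 12) (.e (nat_lit 57348) (nat_lit 0) (.e (nat_lit 7125) (nat_lit 382) (.e (nat_lit 1296) (nat_lit 96) .nil))))))) (.g (nat_lit 4) .nil .nil))) 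
(.lf (nat_lit 245861) (.g (nat_lit 3398) (.e (nat_lit 131097) (nat_lit 3) (.e (nat_lit 98373) (nat_lit 29) (.e (nat_lit 450588) (nat_lit 10) (.e (nat_lit 573475) (nat_lit 12) (.e (nat_lit 57347) (nat_lit 0) .nil))))) .nil)))) (.nd (nat_lit 5) (.nd (nat_lit 6) 
(.lf (nat_lit 245781) (.g (nat_lit 1809) (.e (nat_lit 131097) (nat_lit 3) (.e (nat_lit 98350) (nat_lit 24) (.e (nat_lit 409645) (nat_lit 18) (.e (nat_lit 303119) (nat_lit 3) .nil)))) .nil)) 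
(.lf (nat_lit 245845) (.g (nat_lit 4436) (.e (nat_lit 131097) (nat_lit 3) (.e (nat_lit 98373) (nat_lit 29) (.e (nat_lit 450588) (nat_lit 10) (.e (nat_lit 573452) (nat_lit 9) .nil)))) .nil))) (.nd (nat_lit 6) 
(.lf (nat_lit 245813) (.g (nat_lit 4206) (.e (nat_lit 131097) (nat_lit 3) (.e (nat_lit 98373) (nat_lit 29) (.e (nat_lit 450587) (nat_lit 10) (.e (nat_lit 573473) (nat_lit 12) (.e (nat_lit 57353) (nat_lit 0) (.e (nat_lit 7125) (nat_lit 382) (.e (nat_lit 1296) (nat_lit 96) .nil))))))) (.g (nat_lit 7) .nil .nil))) 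
(.lf (nat_lit 245877) (.g (nat_lit 1742) (.e (nat_lit 131098) (nat_lit 3) (.e (nat_lit 98334) (nat_lit 18) (.e (nat_lit 164159) (nat_lit 152) (.e (nat_lit 1183) (nat_lit 87) (.e (nat_lit 57466) (nat_lit 23) .nil))))) .nil))))) (.nd (nat_lit 4) (.nd (nat_lit 5) (.nd (nat_lit 6) 
(.lf (nat_lit 245773) (.g (nat_lit 1708) (.e (nat_lit 131097) (nat_lit 3) (.e (nat_lit 98349) (nat_lit 24) (.e (nat_lit 409646) (nat_lit 18) (.e (nat_lit 303119) (nat_lit 3) .nil)))) .nil)) 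
(.lf (nat_lit 245837) (.g (nat_lit 2406) (.e (nat_lit 131097) (nat_lit 3) (.e (nat_lit 98373) (nat_lit 29) (.e (nat_lit 450587) (nat_lit 10) (.e (nat_lit 573477) (nat_lit 12) .nil)))) .nil))) (.nd (nat_lit 6) 
(.lf (nat_lit 245805) (.g (nat_lit 919) (.e (nat_lit 131097) (nat_lit 3) (.e (nat_lit 98373) (nat_lit 29) (.e (nat_lit 450586) (nat_lit 10) .nil))) .nil)) 
(.lf (nat_lit 245869) (.g (nat_lit 4910) (.e (nat_lit 131097) (nat_lit 3) (.e (nat_lit 98373) (nat_lit 29) (.e (nat_lit 450588) (nat_lit 10) (.e (nat_lit 573476) (nat_lit 12) .nil)))) .nil)))) (.nd (nat_lit 5) (.nd (nat_lit 6) 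
(.lf (nat_lit 245789) (.g (nat_lit 1805) (.e (nat_lit 131097) (nat_lit 3) (.e (nat_lit 98372) (nat_lit 29) (.e (nat_lit 450579) (nat_lit 5) (.e (nat_lit 532484) (nat_lit 0) (.e (nat_lit 1912) (nat_lit 129) .nil))))) .nil)) 
(.lf (nat_lit 245853) (.g (nat_lit 3569) (.e (nat_lit 131097) (nat_lit 3) (.e (nat_lit 98373) (nat_lit 29) (.e (nat_lit 450588) (nat_lit 10) (.e (nat_lit 573473) (nat_lit 12) (.e (nat_lit 57352) (nat_lit 0) (.e (nat_lit 7125) (nat_lit 382) (.e (nat_lit 1296) (nat_lit 96) .nil))))))) (.g (nat_lit 4) .nil .nil)))) (.nd (nat_lit 6) 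
(.lf (nat_lit 245821) (.g (nat_lit 2946) (.e (nat_lit 131097) (nat_lit 3) (.e (nat_lit 98373) (nat_lit 29) (.e (nat_lit 450587) (nat_lit 10) (.e (nat_lit 573475) (nat_lit 12) (.e (nat_lit 57346) (nat_lit 0) (.e (nat_lit 7133) (nat_lit 382) (.e (nat_lit 1295) (nat_lit 96) .nil))))))) (.g (nat_lit 4) .nil .nil))) 
(.lf (nat_lit 245885) (.g (nat_lit 2305) (.e (nat_lit 131098) (nat_lit 3) (.e (nat_lit 98350) (nat_lit 24) (.e (nat_lit 409641) (nat_lit 17) (.e (nat_lit 294928) (nat_lit 2) (.e (nat_lit 90165) (nat_lit 12) .nil))))) .nil))))))) (.nd (nat_lit 2) (.nd (nat_lit 3) (.nd (nat_lit 4) (.nd (nat_lit 5) (.nd (nat_lit 6) 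
(.lf (nat_lit 245763) (.g (nat_lit 4521) (.e (nat_lit 131096) (nat_lit 3) (.e (nat_lit 98373) (nat_lit 29) (.e (nat_lit 450588) (nat_lit 10) (.e (nat_lit 573477) (nat_lit 12) .nil)))) .nil)) 
(.lf (nat_lit 245827) (.g (nat_lit 3010) (.e (nat_lit 131097) (nat_lit 3) (.e (nat_lit 98373) (nat_lit 29) (.e (nat_lit 450587) (nat_lit 10) (.e (nat_lit 573475) (nat_lit 12) (.e (nat_lit 57351) (nat_lit 0) .nil))))) .nil))) (.nd (nat_lit 6) 
(.lf (nat_lit 245795) (.g (nat_lit 2052) (.e (nat_lit 131097) (nat_lit 3) (.e (nat_lit 98372) (nat_lit 29) (.e (nat_lit 450586) (nat_lit 10) (.e (nat_lit 573473) (nat_lit 12) (.e (nat_lit 57352) (nat_lit 0) (.e (nat_lit 7122) (nat_lit 382) (.e (nat_lit 1296) (nat_lit 96) .nil))))))) (.g (nat_lit 4) .nil .nil))) 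
(.lf (nat_lit 245859) (.g (nat_lit 2684) (.e (nat_lit 131097) (nat_lit 3) (.e (nat_lit 98373) (nat_lit 29) (.e (nat_lit 450588) (nat_lit 10) (.e (nat_lit 573475) (nat_lit 12) .nil)))) .nil)))) (.nd (nat_lit 5) (.nd (nat_lit 6) 
(.lf (nat_lit 245779) (.g (nat_lit 1872) (.e (nat_lit 131097) (nat_lit 3) (.e (nat_lit 98350) (nat_lit 24) (.e (nat_lit 409641) (nat_lit 17) (.e (nat_lit 294930) (nat_lit 3) .nil)))) .nil)) 
(.lf (nat_lit 245843) (.g (nat_lit 4242) (.e (nat_lit 131097) (nat_lit 3) (.e (nat_lit 98373) (nat_lit 29) (.e (nat_lit 450588) (nat_lit 10) (.e (nat_lit 581376) (nat_lit 0) .nil)))) .nil))) (.nd (nat_lit 6) 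
(.lf (nat_lit 245811) (.g (nat_lit 3077) (.e (nat_lit 131097) (nat_lit 3) (.e (nat_lit 98373) (nat_lit 29) (.e (nat_lit 450587) (nat_lit 10) (.e (nat_lit 573473) (nat_lit 12) (.e (nat_lit 57352) (nat_lit 0) .nil))))) .nil)) 
(.lf (nat_lit 245875) (.g (nat_lit 2037) (.e (nat_lit 131097) (nat_lit 3) (.e (nat_lit 98389) (nat_lit 33) (.e (nat_lit 491546) (nat_lit 9) (.e (nat_lit 336028) (nat_lit 3) (.e (nat_lit 98325) (nat_lit 17) (.e (nat_lit 7936) (nat_lit 409) .nil)))))) (.g (nat_lit 4) .nil .nil)))))) (.nd (nat_lit 4) (.nd (nat_lit 5) (.nd (nat_lit 6) 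
(.lf (nat_lit 245771) (.g (nat_lit 1947) (.e (nat_lit 131097) (nat_lit 3) (.e (nat_lit 98349) (nat_lit 24) (.e (nat_lit 409641) (nat_lit 17) (.e (nat_lit 294928) (nat_lit 2) (.e (nat_lit 90165) (nat_lit 12) .nil))))) .nil)) 
(.lf (nat_lit 245835) (.g (nat_lit 2934) (.e (nat_lit 131097) (nat_lit 3) (.e (nat_lit 98373) (nat_lit 29) (.e (nat_lit 450587) (nat_lit 10) (.e (nat_lit 573475) (nat_lit 12) (.e (nat_lit 57572) (nat_lit 54) (.e (nat_lit 777984) (nat_lit 12) .nil)))))) (.g (nat_lit 5) .nil .nil)))) (.nd (nat_lit 6) 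
(.lf (nat_lit 245803) (.g (nat_lit 1465) (.e (nat_lit 131097) (nat_lit 3) (.e (nat_lit 98373) (nat_lit 29) (.e (nat_lit 458496) (nat_lit 3) (.e (nat_lit 516106) (nat_lit 0) (.e (nat_lit 2515) (nat_lit 157) .nil))))) .nil)) 
(.lf (nat_lit 245867) (.g (nat_lit 3673) (.e (nat_lit 131097) (nat_lit 3) (.e (nat_lit 98373) (nat_lit 29) (.e (nat_lit 450588) (nat_lit 10) (.e (nat_lit 573475) (nat_lit 12) (.e (nat_lit 57353) (nat_lit 0) .nil))))) .nil)))) (.nd (nat_lit 5) (.nd (nat_lit 6) 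
(.lf (nat_lit 245787) (.g (nat_lit 1748) (.e (nat_lit 131097) (nat_lit 3) (.e (nat_lit 98350) (nat_lit 24) (.e (nat_lit 409649) (nat_lit 18) (.e (nat_lit 303119) (nat_lit 3) .nil)))) .nil)) 
(.lf (nat_lit 245851) (.g (nat_lit 5167) (.e (nat_lit 131097) (nat_lit 3) (.e (nat_lit 98373) (nat_lit 29) (.e (nat_lit 450588) (nat_lit 10) (.e (nat_lit 573473) (nat_lit 12) (.e (nat_lit 57348) (nat_lit 0) (.e (nat_lit 7125) (nat_lit 382) (.e (nat_lit 1296) (nat_lit 96) .nil))))))) (.g (nat_lit 0) .nil .nil)))) (.nd (nat_lit 6) 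
(.lf (nat_lit 245819) (.g (nat_lit 3142) (.e (nat_lit 131097) (nat_lit 3) (.e (nat_lit 98373) (nat_lit 29) (.e (nat_lit 450587) (nat_lit 10) (.e (nat_lit 573475) (nat_lit 12) (.e (nat_lit 57345) (nat_lit 0) (.e (nat_lit 7134) (nat_lit 382) (.e (nat_lit 1296) (nat_lit 96) .nil))))))) (.g (nat_lit 4) .nil .nil))) 
(.lf (nat_lit 245883) (.g (nat_lit 792) (.e (nat_lit 131098) (nat_lit 3) (.e (nat_lit 98350) (nat_lit 24) (.e (nat_lit 409640) (nat_lit 17) .nil))) .nil)))))) (.nd (nat_lit 3) (.nd (nat_lit 4) (.nd (nat_lit 5) (.nd (nat_lit 6) 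
(.lf (nat_lit 245767) (.g (nat_lit 1386) (.e (nat_lit 131097) (nat_lit 3) (.e (nat_lit 98320) (nat_lit 17) (.e (nat_lit 7593) (nat_lit 407) (.e (nat_lit 73746) (nat_lit 3) (.e (nat_lit 516100) (nat_lit 0) .nil))))) .nil)) 
(.lf (nat_lit 245831) (.g (nat_lit 4244) (.e (nat_lit 131097) (nat_lit 3) (.e (nat_lit 98373) (nat_lit 29) (.e (nat_lit 450587) (nat_lit 10) (.e (nat_lit 573475) (nat_lit 12) (.e (nat_lit 57354) (nat_lit 0) (.e (nat_lit 7147) (nat_lit 382) (.e (nat_lit 1300) (nat_lit 96) .nil))))))) (.g (nat_lit 6) .nil .nil)))) (.nd (nat_lit 6) 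
(.lf (nat_lit 245799) (.g (nat_lit 1267) (.e (nat_lit 131097) (nat_lit 3) (.e (nat_lit 98372) (nat_lit 29) (.e (nat_lit 450586) (nat_lit 10) (.e (nat_lit 573477) (nat_lit 12) .nil)))) .nil)) 
(.lf (nat_lit 245863) (.g (nat_lit 3554) (.e (nat_lit 131097) (nat_lit 3) (.e (nat_lit 98373) (nat_lit 29) (.e (nat_lit 450588) (nat_lit 10) (.e (nat_lit 573475) (nat_lit 12) (.e (nat_lit 57348) (nat_lit 0) .nil))))) .nil)))) (.nd (nat_lit 5) (.nd (nat_lit 6) 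
(.lf (nat_lit 245783) (.g (nat_lit 2683) (.e (nat_lit 131097) (nat_lit 3) (.e (nat_lit 98350) (nat_lit 24) (.e (nat_lit 409646) (nat_lit 18) (.e (nat_lit 303119) (nat_lit 3) (.e (nat_lit 204816) (nat_lit 17) .nil))))) .nil)) 
(.lf (nat_lit 245847) (.g (nat_lit 2676) (.e (nat_lit 131097) (nat_lit 3) (.e (nat_lit 98373) (nat_lit 29) (.e (nat_lit 450588) (nat_lit 10) (.e (nat_lit 573473) (nat_lit 12) .nil)))) .nil))) (.nd (nat_lit 6) 
(.lf (nat_lit 245815) (.g (nat_lit 2941) (.e (nat_lit 131097) (nat_lit 3) (.e (nat_lit 98373) (nat_lit 29) (.e (nat_lit 450587) (nat_lit 10) (.e (nat_lit 573473) (nat_lit 12) (.e (nat_lit 57569) (nat_lit 53) .nil))))) .nil)) 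
(.lf (nat_lit 245879) (.g (nat_lit 1327) (.e (nat_lit 131098) (nat_lit 3) (.e (nat_lit 98335) (nat_lit 18) (.e (nat_lit 164150) (nat_lit 152) (.e (nat_lit 1186) (nat_lit 87) .nil)))) .nil))))) (.nd (nat_lit 4) (.nd (nat_lit 5) (.nd (nat_lit 6) 
(.lf (nat_lit 245775) (.g (nat_lit 2386) (.e (nat_lit 131097) (nat_lit 3) (.e (nat_lit 98350) (nat_lit 24) (.e (nat_lit 409617) (nat_lit 10) (.e (nat_lit 5355) (nat_lit 298) (.e (nat_lit 1234) (nat_lit 91) .nil))))) .nil)) 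
(.lf (nat_lit 245839) (.g (nat_lit 3221) (.e (nat_lit 131097) (nat_lit 3) (.e (nat_lit 98373) (nat_lit 29) (.e (nat_lit 450587) (nat_lit 10) (.e (nat_lit 573477) (nat_lit 12) (.e (nat_lit 57351) (nat_lit 0) (.e (nat_lit 7124) (nat_lit 382) (.e (nat_lit 1296) (nat_lit 96) .nil))))))) (.g (nat_lit 4) .nil .nil)))) (.nd (nat_lit 6) 
(.lf (nat_lit 245807) (.g (nat_lit 2162) (.e (nat_lit 131097) (nat_lit 3) (.e (nat_lit 98373) (nat_lit 29) (.e (nat_lit 450587) (nat_lit 10) (.e (nat_lit 573473) (nat_lit 12) .nil)))) .nil)) 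
(.lf (nat_lit 245871) (.g (nat_lit 4546) (.e (nat_lit 131097) (nat_lit 3) (.e (nat_lit 98373) (nat_lit 29) (.e (nat_lit 450588) (nat_lit 10) (.e (nat_lit 573478) (nat_lit 12) .nil)))) .nil)))) (.nd (nat_lit 5) (.nd (nat_lit 6) 
(.lf (nat_lit 245791) (.g (nat_lit 1434) (.e (nat_lit 131097) (nat_lit 3) (.e (nat_lit 98372) (nat_lit 29) (.e (nat_lit 450579) (nat_lit 5) (.e (nat_lit 532501) (nat_lit 1) .nil)))) .nil)) 
(.lf (nat_lit 245855) (.g (nat_lit 3164) (.e (nat_lit 131097) (nat_lit 3) (.e (nat_lit 98373) (nat_lit 29) (.e (nat_lit 450588) (nat_lit 10) (.e (nat_lit 573474) (nat_lit 12) .nil)))) .nil))) (.nd (nat_lit 6) 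
(.lf (nat_lit 245823) (.g (nat_lit 2905) (.e (nat_lit 131097) (nat_lit 3) (.e (nat_lit 98373) (nat_lit 29) (.e (nat_lit 450587) (nat_lit 10) (.e (nat_lit 573475) (nat_lit 12) (.e (nat_lit 57347) (nat_lit 0) .nil))))) .nil)) 
(.lf (nat_lit 245887) (.g (nat_lit 2356) (.e (nat_lit 131098) (nat_lit 3) (.e (nat_lit 98359) (nat_lit 26) (.e (nat_lit 426286) (nat_lit 10) (.e (nat_lit 434245) (nat_lit 28) (.e (nat_lit 573474) (nat_lit 12) .nil))))) .nil)))))))))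

noncomputable def tv3195 : DT := (.nd (nat_lit 0) (.nd (nat_lit 1) (.nd (nat_lit 2) (.nd (nat_lit 3) (.nd (nat_lit 4) (.nd (nat_lit 5) 
(.lf (nat_lit 245888) (.g (nat_lit 1675) (.e (nat_lit 131098) (nat_lit 3) (.e (nat_lit 98359) (nat_lit 26) (.e (nat_lit 426286) (nat_lit 10) (.e (nat_lit 434248) (nat_lit 28) .nil)))) .nil)) 
(.lf (nat_lit 245920) (.g (nat_lit 3292) (.e (nat_lit 131098) (nat_lit 3) (.e (nat_lit 98372) (nat_lit 29) (.e (nat_lit 450586) (nat_lit 10) (.e (nat_lit 573475) (nat_lit 12) (.e (nat_lit 57351) (nat_lit 0) (.e (nat_lit 7125) (nat_lit 382) (.e (nat_lit 1296) (nat_lit 96) .nil))))))) (.g (nat_lit 0) .nil .nil)))) (.nd (nat_lit 5) 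
(.lf (nat_lit 245904) (.g (nat_lit 1892) (.e (nat_lit 131098) (nat_lit 3) (.e (nat_lit 98372) (nat_lit 29) (.e (nat_lit 450579) (nat_lit 5) (.e (nat_lit 532501) (nat_lit 1) (.e (nat_lit 65280) (nat_lit 221) .nil))))) .nil)) 
(.lf (nat_lit 245936) (.g (nat_lit 767) (.e (nat_lit 131098) (nat_lit 3) (.e (nat_lit 98373) (nat_lit 29) (.e (nat_lit 450585) (nat_lit 10) .nil))) .nil)))) (.nd (nat_lit 4) (.nd (nat_lit 5) 
(.lf (nat_lit 245896) (.g (nat_lit 1704) (.e (nat_lit 131098) (nat_lit 3) (.e (nat_lit 98365) (nat_lit 26) (.e (nat_lit 426298) (nat_lit 11) (.e (nat_lit 458789) (nat_lit 23) (.e (nat_lit 532485) (nat_lit 0) .nil))))) .nil)) 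
(.lf (nat_lit 245928) (.g (nat_lit 3585) (.e (nat_lit 131098) (nat_lit 3) (.e (nat_lit 98372) (nat_lit 29) (.e (nat_lit 450588) (nat_lit 10) (.e (nat_lit 573473) (nat_lit 12) (.e (nat_lit 57352) (nat_lit 0) .nil))))) .nil))) (.nd (nat_lit 5) 
(.lf (nat_lit 245912) (.g (nat_lit 1719) (.e (nat_lit 131098) (nat_lit 3) (.e (nat_lit 98372) (nat_lit 29) (.e (nat_lit 450586) (nat_lit 10) (.e (nat_lit 573473) (nat_lit 12) (.e (nat_lit 57353) (nat_lit 0) .nil))))) .nil)) 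
(.lf (nat_lit 245944) (.g (nat_lit 2830) (.e (nat_lit 131098) (nat_lit 3) (.e (nat_lit 98373) (nat_lit 29) (.e (nat_lit 450587) (nat_lit 10) (.e (nat_lit 573473) (nat_lit 12) (.e (nat_lit 57347) (nat_lit 0) .nil))))) .nil))))) (.nd (nat_lit 3) (.nd (nat_lit 4) (.nd (nat_lit 5) 
(.lf (nat_lit 245892) (.g (nat_lit 1233) (.e (nat_lit 131098) (nat_lit 3) (.e (nat_lit 98365) (nat_lit 26) (.e (nat_lit 426188) (nat_lit 9) (.e (nat_lit 426436) (nat_lit 18) .nil)))) .nil)) 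
(.lf (nat_lit 245924) (.g (nat_lit 2725) (.e (nat_lit 131098) (nat_lit 3) (.e (nat_lit 98372) (nat_lit 29) (.e (nat_lit 450586) (nat_lit 10) (.e (nat_lit 573478) (nat_lit 12) (.e (nat_lit 57351) (nat_lit 0) (.e (nat_lit 7125) (nat_lit 382) (.e (nat_lit 1296) (nat_lit 96) .nil))))))) (.g (nat_lit 0) .nil .nil)))) (.nd (nat_lit 5) 
(.lf (nat_lit 245908) (.g (nat_lit 2856) (.e (nat_lit 131098) (nat_lit 3) (.e (nat_lit 98372) (nat_lit 29) (.e (nat_lit 450586) (nat_lit 10) (.e (nat_lit 573473) (nat_lit 12) (.e (nat_lit 57347) (nat_lit 0) (.e (nat_lit 7124) (nat_lit 382) (.e (nat_lit 1296) (nat_lit 96) .nil))))))) (.g (nat_lit 5) .nil .nil))) 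
(.lf (nat_lit 245940) (.g (nat_lit 1389) (.e (nat_lit 131098) (nat_lit 3) (.e (nat_lit 98373) (nat_lit 29) (.e (nat_lit 450586) (nat_lit 10) (.e (nat_lit 573475) (nat_lit 12) .nil)))) .nil)))) (.nd (nat_lit 4) (.nd (nat_lit 5) 
(.lf (nat_lit 245900) (.g (nat_lit 2108) (.e (nat_lit 131098) (nat_lit 3) (.e (nat_lit 98372) (nat_lit 29) (.e (nat_lit 450579) (nat_lit 5) (.e (nat_lit 532484) (nat_lit 0) (.e (nat_lit 1912) (nat_lit 129) (.e (nat_lit 598043) (nat_lit 12) .nil)))))) (.g (nat_lit 0) .nil .nil))) 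
(.lf (nat_lit 245932) (.g (nat_lit 3906) (.e (nat_lit 131098) (nat_lit 3) (.e (nat_lit 98372) (nat_lit 29) (.e (nat_lit 450588) (nat_lit 10) (.e (nat_lit 573475) (nat_lit 12) (.e (nat_lit 57348) (nat_lit 0) .nil))))) .nil))) (.nd (nat_lit 5) 
(.lf (nat_lit 245916) (.g (nat_lit 2034) (.e (nat_lit 131098) (nat_lit 3) (.e (nat_lit 98372) (nat_lit 29) (.e (nat_lit 450586) (nat_lit 10) (.e (nat_lit 573475) (nat_lit 12) (.e (nat_lit 57344) (nat_lit 0) .nil))))) .nil)) 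
(.lf (nat_lit 245948) (.g (nat_lit 3431) (.e (nat_lit 131098) (nat_lit 3) (.e (nat_lit 98373) (nat_lit 29) (.e (nat_lit 450587) (nat_lit 10) (.e (nat_lit 573473) (nat_lit 12) (.e (nat_lit 57350) (nat_lit 0) .nil))))) .nil)))))) (.nd (nat_lit 2) (.nd (nat_lit 3) (.nd (nat_lit 4) (.nd (nat_lit 5) 
(.lf (nat_lit 245890) (.g (nat_lit 1581) (.e (nat_lit 131098) (nat_lit 3) (.e (nat_lit 98365) (nat_lit 26) (.e (nat_lit 426100) (nat_lit 1) (.e (nat_lit 164332) (nat_lit 230) .nil)))) .nil)) 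
(.lf (nat_lit 245922) (.g (nat_lit 2988) (.e (nat_lit 131098) (nat_lit 3) (.e (nat_lit 98372) (nat_lit 29) (.e (nat_lit 450586) (nat_lit 10) (.e (nat_lit 573477) (nat_lit 12) (.e (nat_lit 57353) (nat_lit 0) (.e (nat_lit 7125) (nat_lit 382) (.e (nat_lit 1296) (nat_lit 96) .nil))))))) (.g (nat_lit 0) .nil .nil)))) (.nd (nat_lit 5) 
(.lf (nat_lit 245906) (.g (nat_lit 2584) (.e (nat_lit 131098) (nat_lit 3) (.e (nat_lit 98372) (nat_lit 29) (.e (nat_lit 450579) (nat_lit 5) (.e (nat_lit 532504) (nat_lit 1) (.e (nat_lit 57766) (nat_lit 221) .nil))))) .nil)) 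
(.lf (nat_lit 245938) (.g (nat_lit 3777) (.e (nat_lit 131098) (nat_lit 3) (.e (nat_lit 98373) (nat_lit 29) (.e (nat_lit 450585) (nat_lit 10) (.e (nat_lit 573474) (nat_lit 12) (.e (nat_lit 57348) (nat_lit 0) .nil))))) .nil)))) (.nd (nat_lit 4) (.nd (nat_lit 5) 
(.lf (nat_lit 245898) (.g (nat_lit 1152) (.e (nat_lit 131098) (nat_lit 3) (.e (nat_lit 98372) (nat_lit 29) (.e (nat_lit 450579) (nat_lit 5) (.e (nat_lit 532484) (nat_lit 0) .nil)))) .nil)) 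
(.lf (nat_lit 245930) (.g (nat_lit 2234) (.e (nat_lit 131098) (nat_lit 3) (.e (nat_lit 98372) (nat_lit 29) (.e (nat_lit 450588) (nat_lit 10) (.e (nat_lit 573475) (nat_lit 12) .nil)))) .nil))) (.nd (nat_lit 5) 
(.lf (nat_lit 245914) (.g (nat_lit 3426) (.e (nat_lit 131098) (nat_lit 3) (.e (nat_lit 98372) (nat_lit 29) (.e (nat_lit 450586) (nat_lit 10) (.e (nat_lit 573473) (nat_lit 12) (.e (nat_lit 57353) (nat_lit 0) (.e (nat_lit 7124) (nat_lit 382) (.e (nat_lit 1296) (nat_lit 96) .nil))))))) (.g (nat_lit 7) .nil .nil))) 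
(.lf (nat_lit 245946) (.g (nat_lit 2923) (.e (nat_lit 131098) (nat_lit 3) (.e (nat_lit 98373) (nat_lit 29) (.e (nat_lit 450587) (nat_lit 10) (.e (nat_lit 573473) (nat_lit 12) (.e (nat_lit 57348) (nat_lit 0) .nil))))) .nil))))) (.nd (nat_lit 3) (.nd (nat_lit 4) (.nd (nat_lit 5) 
(.lf (nat_lit 245894) (.g (nat_lit 2628) (.e (nat_lit 131098) (nat_lit 3) (.e (nat_lit 98365) (nat_lit 26) (.e (nat_lit 426298) (nat_lit 11) (.e (nat_lit 458789) (nat_lit 23) (.e (nat_lit 532481) (nat_lit 0) (.e (nat_lit 1912) (nat_lit 129) (.e (nat_lit 598043) (nat_lit 12) .nil))))))) (.g (nat_lit 6) .nil .nil))) 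
(.lf (nat_lit 245926) (.g (nat_lit 3732) (.e (nat_lit 131098) (nat_lit 3) (.e (nat_lit 98372) (nat_lit 29) (.e (nat_lit 450588) (nat_lit 10) (.e (nat_lit 573473) (nat_lit 12) (.e (nat_lit 57347) (nat_lit 0) .nil))))) .nil))) (.nd (nat_lit 5) 
(.lf (nat_lit 245910) (.g (nat_lit 3468) (.e (nat_lit 131098) (nat_lit 3) (.e (nat_lit 98372) (nat_lit 29) (.e (nat_lit 450586) (nat_lit 10) (.e (nat_lit 573473) (nat_lit 12) (.e (nat_lit 57348) (nat_lit 0) (.e (nat_lit 7125) (nat_lit 382) (.e (nat_lit 1296) (nat_lit 96) .nil))))))) (.g (nat_lit 0) .nil .nil))) 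
(.lf (nat_lit 245942) (.g (nat_lit 3689) (.e (nat_lit 131098) (nat_lit 3) (.e (nat_lit 98373) (nat_lit 29) (.e (nat_lit 450587) (nat_lit 10) (.e (nat_lit 573472) (nat_lit 12) .nil)))) .nil)))) (.nd (nat_lit 4) (.nd (nat_lit 5) 
(.lf (nat_lit 245902) (.g (nat_lit 2126) (.e (nat_lit 131098) (nat_lit 3) (.e (nat_lit 98372) (nat_lit 29) (.e (nat_lit 450579) (nat_lit 5) (.e (nat_lit 532501) (nat_lit 1) (.e (nat_lit 57766) (nat_lit 221) .nil))))) .nil)) 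
(.lf (nat_lit 245934) (.g (nat_lit 3482) (.e (nat_lit 131098) (nat_lit 3) (.e (nat_lit 98372) (nat_lit 29) (.e (nat_lit 450588) (nat_lit 10) (.e (nat_lit 573475) (nat_lit 12) (.e (nat_lit 57351) (nat_lit 0) (.e (nat_lit 7124) (nat_lit 382) (.e (nat_lit 1296) (nat_lit 96) .nil))))))) (.g (nat_lit 4) .nil .nil)))) (.nd (nat_lit 5) 
(.lf (nat_lit 245918) (.g (nat_lit 1845) (.e (nat_lit 131098) (nat_lit 3) (.e (nat_lit 98372) (nat_lit 29) (.e (nat_lit 450586) (nat_lit 10) (.e (nat_lit 573475) (nat_lit 12) (.e (nat_lit 57351) (nat_lit 0) .nil))))) .nil)) 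
(.lf (nat_lit 245950) (.g (nat_lit 3168) (.e (nat_lit 131098) (nat_lit 3) (.e (nat_lit 98373) (nat_lit 29) (.e (nat_lit 450587) (nat_lit 10) (.e (nat_lit 573473) (nat_lit 12) (.e (nat_lit 57352) (nat_lit 0) .nil))))) .nil))))))) (.nd (nat_lit 1) (.nd (nat_lit 2) (.nd (nat_lit 3) (.nd (nat_lit 4) (.nd (nat_lit 5) 
(.lf (nat_lit 245889) (.g (nat_lit 2447) (.e (nat_lit 131098) (nat_lit 3) (.e (nat_lit 98359) (nat_lit 26) (.e (nat_lit 426286) (nat_lit 10) (.e (nat_lit 434248) (nat_lit 28) (.e (nat_lit 573475) (nat_lit 12) .nil))))) .nil)) 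
(.lf (nat_lit 245921) (.g (nat_lit 1944) (.e (nat_lit 131098) (nat_lit 3) (.e (nat_lit 98372) (nat_lit 29) (.e (nat_lit 450586) (nat_lit 10) (.e (nat_lit 573477) (nat_lit 12) (.e (nat_lit 57351) (nat_lit 0) (.e (nat_lit 7125) (nat_lit 382) (.e (nat_lit 1296) (nat_lit 96) .nil))))))) (.g (nat_lit 4) .nil .nil)))) (.nd (nat_lit 5) 
(.lf (nat_lit 245905) (.g (nat_lit 1854) (.e (nat_lit 131098) (nat_lit 3) (.e (nat_lit 98372) (nat_lit 29) (.e (nat_lit 450579) (nat_lit 5) (.e (nat_lit 532503) (nat_lit 1) (.e (nat_lit 65280) (nat_lit 221) .nil))))) .nil)) 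
(.lf (nat_lit 245937) (.g (nat_lit 3371) (.e (nat_lit 131098) (nat_lit 3) (.e (nat_lit 98373) (nat_lit 29) (.e (nat_lit 450585) (nat_lit 10) (.e (nat_lit 573474) (nat_lit 12) (.e (nat_lit 57347) (nat_lit 0) .nil))))) .nil)))) (.nd (nat_lit 4) (.nd (nat_lit 5) 
(.lf (nat_lit 245897) (.g (nat_lit 627) (.e (nat_lit 131098) (nat_lit 3) (.e (nat_lit 98372) (nat_lit 29) (.e (nat_lit 458496) (nat_lit 3) .nil))) .nil)) 
(.lf (nat_lit 245929) (.g (nat_lit 3580) (.e (nat_lit 131098) (nat_lit 3) (.e (nat_lit 98372) (nat_lit 29) (.e (nat_lit 450588) (nat_lit 10) (.e (nat_lit 573473) (nat_lit 12) (.e (nat_lit 57353) (nat_lit 0) .nil))))) .nil))) (.nd (nat_lit 5) 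
(.lf (nat_lit 245913) (.g (nat_lit 2022) (.e (nat_lit 131098) (nat_lit 3) (.e (nat_lit 98372) (nat_lit 29) (.e (nat_lit 450586) (nat_lit 10) (.e (nat_lit 573473) (nat_lit 12) (.e (nat_lit 57353) (nat_lit 0) (.e (nat_lit 7122) (nat_lit 382) (.e (nat_lit 1296) (nat_lit 96) .nil))))))) (.g (nat_lit 4) .nil .nil))) 
(.lf (nat_lit 245945) (.g (nat_lit 4891) (.e (nat_lit 131098) (nat_lit 3) (.e (nat_lit 98373) (nat_lit 29) (.e (nat_lit 450587) (nat_lit 10) (.e (nat_lit 573473) (nat_lit 12) (.e (nat_lit 57347) (nat_lit 0) (.e (nat_lit 7125) (nat_lit 382) (.e (nat_lit 1296) (nat_lit 96) .nil))))))) (.g (nat_lit 7) .nil .nil)))))) (.nd (nat_lit 3) (.nd (nat_lit 4) (.nd (nat_lit 5) 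
(.lf (nat_lit 245893) (.g (nat_lit 1668) (.e (nat_lit 131098) (nat_lit 3) (.e (nat_lit 98365) (nat_lit 26) (.e (nat_lit 426298) (nat_lit 11) (.e (nat_lit 458789) (nat_lit 23) (.e (nat_lit 532481) (nat_lit 0) (.e (nat_lit 1905) (nat_lit 129) (.e (nat_lit 598043) (nat_lit 12) .nil))))))) (.g (nat_lit 4) .nil .nil))) 
(.lf (nat_lit 245925) (.g (nat_lit 2787) (.e (nat_lit 131098) (nat_lit 3) (.e (nat_lit 98372) (nat_lit 29) (.e (nat_lit 450586) (nat_lit 10) (.e (nat_lit 573478) (nat_lit 12) (.e (nat_lit 57353) (nat_lit 0) (.e (nat_lit 7125) (nat_lit 382) (.e (nat_lit 1296) (nat_lit 96) .nil))))))) (.g (nat_lit 7) .nil .nil)))) (.nd (nat_lit 5) 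
(.lf (nat_lit 245909) (.g (nat_lit 3531) (.e (nat_lit 131098) (nat_lit 3) (.e (nat_lit 98372) (nat_lit 29) (.e (nat_lit 450586) (nat_lit 10) (.e (nat_lit 573473) (nat_lit 12) (.e (nat_lit 57348) (nat_lit 0) (.e (nat_lit 7124) (nat_lit 382) (.e (nat_lit 1296) (nat_lit 96) .nil))))))) (.g (nat_lit 7) .nil .nil))) 
(.lf (nat_lit 245941) (.g (nat_lit 2805) (.e (nat_lit 131098) (nat_lit 3) (.e (nat_lit 98373) (nat_lit 29) (.e (nat_lit 450586) (nat_lit 10) (.e (nat_lit 573475) (nat_lit 12) (.e (nat_lit 57347) (nat_lit 0) .nil))))) .nil)))) (.nd (nat_lit 4) (.nd (nat_lit 5) 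
(.lf (nat_lit 245901) (.g (nat_lit 1220) (.e (nat_lit 131098) (nat_lit 3) (.e (nat_lit 98372) (nat_lit 29) (.e (nat_lit 450579) (nat_lit 5) (.e (nat_lit 532499) (nat_lit 1) .nil)))) .nil)) 
(.lf (nat_lit 245933) (.g (nat_lit 3352) (.e (nat_lit 131098) (nat_lit 3) (.e (nat_lit 98372) (nat_lit 29) (.e (nat_lit 450588) (nat_lit 10) (.e (nat_lit 573475) (nat_lit 12) (.e (nat_lit 57351) (nat_lit 0) .nil))))) .nil))) (.nd (nat_lit 5) 
(.lf (nat_lit 245917) (.g (nat_lit 2112) (.e (nat_lit 131098) (nat_lit 3) (.e (nat_lit 98372) (nat_lit 29) (.e (nat_lit 450586) (nat_lit 10) (.e (nat_lit 573475) (nat_lit 12) (.e (nat_lit 57348) (nat_lit 0) .nil))))) .nil)) 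
(.lf (nat_lit 245949) (.g (nat_lit 3358) (.e (nat_lit 131098) (nat_lit 3) (.e (nat_lit 98373) (nat_lit 29) (.e (nat_lit 450587) (nat_lit 10) (.e (nat_lit 573473) (nat_lit 12) (.e (nat_lit 57351) (nat_lit 0) .nil))))) .nil)))))) (.nd (nat_lit 2) (.nd (nat_lit 3) (.nd (nat_lit 4) (.nd (nat_lit 5) 
(.lf (nat_lit 245891) (.g (nat_lit 626) (.e (nat_lit 131098) (nat_lit 3) (.e (nat_lit 98365) (nat_lit 26) (.e (nat_lit 426187) (nat_lit 9) .nil))) .nil)) 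
(.lf (nat_lit 245923) (.g (nat_lit 2913) (.e (nat_lit 131098) (nat_lit 3) (.e (nat_lit 98372) (nat_lit 29) (.e (nat_lit 450586) (nat_lit 10) (.e (nat_lit 573478) (nat_lit 12) (.e (nat_lit 57351) (nat_lit 0) (.e (nat_lit 7124) (nat_lit 382) (.e (nat_lit 1296) (nat_lit 96) .nil))))))) (.g (nat_lit 7) .nil .nil)))) (.nd (nat_lit 5) 
(.lf (nat_lit 245907) (.g (nat_lit 1885) (.e (nat_lit 131098) (nat_lit 3) (.e (nat_lit 98372) (nat_lit 29) (.e (nat_lit 450579) (nat_lit 5) (.e (nat_lit 532504) (nat_lit 1) (.e (nat_lit 65280) (nat_lit 221) .nil))))) .nil)) 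
(.lf (nat_lit 245939) (.g (nat_lit 1301) (.e (nat_lit 131098) (nat_lit 3) (.e (nat_lit 98373) (nat_lit 29) (.e (nat_lit 450586) (nat_lit 10) (.e (nat_lit 573473) (nat_lit 12) .nil)))) .nil)))) (.nd (nat_lit 4) (.nd (nat_lit 5) 
(.lf (nat_lit 245899) (.g (nat_lit 1502) (.e (nat_lit 131098) (nat_lit 3) (.e (nat_lit 98372) (nat_lit 29) (.e (nat_lit 450579) (nat_lit 5) (.e (nat_lit 532484) (nat_lit 0) (.e (nat_lit 1905) (nat_lit 129) .nil))))) .nil)) 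
(.lf (nat_lit 245931) (.g (nat_lit 4101) (.e (nat_lit 131098) (nat_lit 3) (.e (nat_lit 98372) (nat_lit 29) (.e (nat_lit 450588) (nat_lit 10) (.e (nat_lit 573475) (nat_lit 12) (.e (nat_lit 57347) (nat_lit 0) (.e (nat_lit 7124) (nat_lit 382) (.e (nat_lit 1296) (nat_lit 96) .nil))))))) (.g (nat_lit 4) .nil .nil)))) (.nd (nat_lit 5) 
(.lf (nat_lit 245915) (.g (nat_lit 3306) (.e (nat_lit 131098) (nat_lit 3) (.e (nat_lit 98372) (nat_lit 29) (.e (nat_lit 450586) (nat_lit 10) (.e (nat_lit 573473) (nat_lit 12) (.e (nat_lit 57353) (nat_lit 0) (.e (nat_lit 7125) (nat_lit 382) (.e (nat_lit 1296) (nat_lit 96) .nil))))))) (.g (nat_lit 0) .nil .nil))) 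
(.lf (nat_lit 245947) (.g (nat_lit 4340) (.e (nat_lit 131098) (nat_lit 3) (.e (nat_lit 98373) (nat_lit 29) (.e (nat_lit 450587) (nat_lit 10) (.e (nat_lit 573473) (nat_lit 12) (.e (nat_lit 57348) (nat_lit 0) (.e (nat_lit 7125) (nat_lit 382) (.e (nat_lit 1296) (nat_lit 96) .nil))))))) (.g (nat_lit 7) .nil .nil)))))) (.nd (nat_lit 3) (.nd (nat_lit 4) (.nd (nat_lit 5) 
(.lf (nat_lit 245895) (.g (nat_lit 1884) (.e (nat_lit 131098) (nat_lit 3) (.e (nat_lit 98365) (nat_lit 26) (.e (nat_lit 426298) (nat_lit 11) (.e (nat_lit 458789) (nat_lit 23) (.e (nat_lit 532484) (nat_lit 0) (.e (nat_lit 1912) (nat_lit 129) (.e (nat_lit 598043) (nat_lit 12) .nil))))))) (.g (nat_lit 5) .nil .nil))) 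
(.lf (nat_lit 245927) (.g (nat_lit 3563) (.e (nat_lit 131098) (nat_lit 3) (.e (nat_lit 98372) (nat_lit 29) (.e (nat_lit 450588) (nat_lit 10) (.e (nat_lit 573473) (nat_lit 12) (.e (nat_lit 57348) (nat_lit 0) .nil))))) .nil))) (.nd (nat_lit 5) 
(.lf (nat_lit 245911) (.g (nat_lit 1844) (.e (nat_lit 131098) (nat_lit 3) (.e (nat_lit 98372) (nat_lit 29) (.e (nat_lit 450586) (nat_lit 10) (.e (nat_lit 573473) (nat_lit 12) (.e (nat_lit 57352) (nat_lit 0) (.e (nat_lit 7125) (nat_lit 382) (.e (nat_lit 1296) (nat_lit 96) .nil))))))) (.g (nat_lit 4) .nil .nil))) 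
(.lf (nat_lit 245943) (.g (nat_lit 2253) (.e (nat_lit 131098) (nat_lit 3) (.e (nat_lit 98373) (nat_lit 29) (.e (nat_lit 450587) (nat_lit 10) (.e (nat_lit 573473) (nat_lit 12) .nil)))) .nil)))) (.nd (nat_lit 4) (.nd (nat_lit 5) 
(.lf (nat_lit 245903) (.g (nat_lit 1887) (.e (nat_lit 131098) (nat_lit 3) (.e (nat_lit 98372) (nat_lit 29) (.e (nat_lit 450579) (nat_lit 5) (.e (nat_lit 532501) (nat_lit 1) (.e (nat_lit 57767) (nat_lit 221) .nil))))) .nil)) 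
(.lf (nat_lit 245935) (.g (nat_lit 3957) (.e (nat_lit 131098) (nat_lit 3) (.e (nat_lit 98372) (nat_lit 29) (.e (nat_lit 450588) (nat_lit 10) (.e (nat_lit 573475) (nat_lit 12) (.e (nat_lit 57353) (nat_lit 0) .nil))))) .nil))) (.nd (nat_lit 5) 
(.lf (nat_lit 245919) (.g (nat_lit 3476) (.e (nat_lit 131098) (nat_lit 3) (.e (nat_lit 98372) (nat_lit 29) (.e (nat_lit 450586) (nat_lit 10) (.e (nat_lit 573475) (nat_lit 12) (.e (nat_lit 57351) (nat_lit 0) (.e (nat_lit 7124) (nat_lit 382) (.e (nat_lit 1296) (nat_lit 96) .nil))))))) (.g (nat_lit 7) .nil .nil))) 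
(.lf (nat_lit 245951) (.g (nat_lit 3343) (.e (nat_lit 131098) (nat_lit 3) (.e (nat_lit 98373) (nat_lit 29) (.e (nat_lit 450587) (nat_lit 10) (.e (nat_lit 573473) (nat_lit 12) (.e (nat_lit 57352) (nat_lit 0) (.e (nat_lit 7119) (nat_lit 382) (.e (nat_lit 1296) (nat_lit 96) .nil))))))) (.g (nat_lit 4) .nil .nil)))))))))

noncomputable def tv3196 : DT := (.nd (nat_lit 0) (.nd (nat_lit 1) (.nd (nat_lit 2) (.nd (nat_lit 3) (.nd (nat_lit 4) (.nd (nat_lit 5) 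
(.lf (nat_lit 245952) (.g (nat_lit 2966) (.e (nat_lit 131098) (nat_lit 3) (.e (nat_lit 98373) (nat_lit 29) (.e (nat_lit 450587) (nat_lit 10) (.e (nat_lit 573473) (nat_lit 12) (.e (nat_lit 57353) (nat_lit 0) .nil))))) .nil)) 
(.lf (nat_lit 245984) (.g (nat_lit 2148) (.e (nat_lit 131098) (nat_lit 3) (.e (nat_lit 98373) (nat_lit 29) (.e (nat_lit 450587) (nat_lit 10) (.e (nat_lit 573477) (nat_lit 12) .nil)))) .nil))) (.nd (nat_lit 5) 
(.lf (nat_lit 245968) (.g (nat_lit 3151) (.e (nat_lit 131098) (nat_lit 3) (.e (nat_lit 98373) (nat_lit 29) (.e (nat_lit 450587) (nat_lit 10) (.e (nat_lit 573475) (nat_lit 12) (.e (nat_lit 57346) (nat_lit 0) (.e (nat_lit 7137) (nat_lit 382) (.e (nat_lit 1297) (nat_lit 96) .nil))))))) (.g (nat_lit 4) .nil .nil))) 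
(.lf (nat_lit 246000) (.g (nat_lit 2856) (.e (nat_lit 131098) (nat_lit 3) (.e (nat_lit 98373) (nat_lit 29) (.e (nat_lit 450588) (nat_lit 10) (.e (nat_lit 573473) (nat_lit 12) (.e (nat_lit 57352) (nat_lit 0) .nil))))) .nil)))) (.nd (nat_lit 4) (.nd (nat_lit 5) 
(.lf (nat_lit 245960) (.g (nat_lit 3067) (.e (nat_lit 131098) (nat_lit 3) (.e (nat_lit 98373) (nat_lit 29) (.e (nat_lit 450587) (nat_lit 10) (.e (nat_lit 573475) (nat_lit 12) (.e (nat_lit 57345) (nat_lit 0) (.e (nat_lit 7130) (nat_lit 382) (.e (nat_lit 1294) (nat_lit 96) .nil))))))) (.g (nat_lit 4) .nil .nil))) 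
(.lf (nat_lit 245992) (.g (nat_lit 3915) (.e (nat_lit 131098) (nat_lit 3) (.e (nat_lit 98373) (nat_lit 29) (.e (nat_lit 450588) (nat_lit 10) (.e (nat_lit 573451) (nat_lit 9) .nil)))) .nil))) (.nd (nat_lit 5) 
(.lf (nat_lit 245976) (.g (nat_lit 3888) (.e (nat_lit 131098) (nat_lit 3) (.e (nat_lit 98373) (nat_lit 29) (.e (nat_lit 450587) (nat_lit 10) (.e (nat_lit 573475) (nat_lit 12) (.e (nat_lit 57352) (nat_lit 0) .nil))))) .nil)) 
(.lf (nat_lit 246008) (.g (nat_lit 3075) (.e (nat_lit 131098) (nat_lit 3) (.e (nat_lit 98373) (nat_lit 29) (.e (nat_lit 450588) (nat_lit 10) (.e (nat_lit 573475) (nat_lit 12) (.e (nat_lit 57344) (nat_lit 0) .nil))))) .nil))))) (.nd (nat_lit 3) (.nd (nat_lit 4) (.nd (nat_lit 5) 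
(.lf (nat_lit 245956) (.g (nat_lit 1928) (.e (nat_lit 131098) (nat_lit 3) (.e (nat_lit 98373) (nat_lit 29) (.e (nat_lit 450587) (nat_lit 10) (.e (nat_lit 573475) (nat_lit 12) .nil)))) .nil)) 
(.lf (nat_lit 245988) (.g (nat_lit 2008) (.e (nat_lit 131098) (nat_lit 3) (.e (nat_lit 98373) (nat_lit 29) (.e (nat_lit 450587) (nat_lit 10) (.e (nat_lit 573478) (nat_lit 12) .nil)))) .nil))) (.nd (nat_lit 5) 
(.lf (nat_lit 245972) (.g (nat_lit 3063) (.e (nat_lit 131098) (nat_lit 3) (.e (nat_lit 98373) (nat_lit 29) (.e (nat_lit 450587) (nat_lit 10) (.e (nat_lit 573475) (nat_lit 12) (.e (nat_lit 57348) (nat_lit 0) (.e (nat_lit 7119) (nat_lit 382) (.e (nat_lit 1296) (nat_lit 96) .nil))))))) (.g (nat_lit 4) .nil .nil))) 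
(.lf (nat_lit 246004) (.g (nat_lit 3509) (.e (nat_lit 131098) (nat_lit 3) (.e (nat_lit 98373) (nat_lit 29) (.e (nat_lit 450588) (nat_lit 10) (.e (nat_lit 573474) (nat_lit 12) .nil)))) .nil)))) (.nd (nat_lit 4) (.nd (nat_lit 5) 
(.lf (nat_lit 245964) (.g (nat_lit 3476) (.e (nat_lit 131098) (nat_lit 3) (.e (nat_lit 98373) (nat_lit 29) (.e (nat_lit 450587) (nat_lit 10) (.e (nat_lit 573475) (nat_lit 12) (.e (nat_lit 57346) (nat_lit 0) (.e (nat_lit 7133) (nat_lit 382) (.e (nat_lit 1298) (nat_lit 96) .nil))))))) (.g (nat_lit 5) .nil .nil))) 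
(.lf (nat_lit 245996) (.g (nat_lit 4063) (.e (nat_lit 131098) (nat_lit 3) (.e (nat_lit 98373) (nat_lit 29) (.e (nat_lit 450588) (nat_lit 10) (.e (nat_lit 573473) (nat_lit 12) (.e (nat_lit 57347) (nat_lit 0) (.e (nat_lit 7124) (nat_lit 382) (.e (nat_lit 1296) (nat_lit 96) .nil))))))) (.g (nat_lit 5) .nil .nil)))) (.nd (nat_lit 5) 
(.lf (nat_lit 245980) (.g (nat_lit 2820) (.e (nat_lit 131098) (nat_lit 3) (.e (nat_lit 98373) (nat_lit 29) (.e (nat_lit 450587) (nat_lit 10) (.e (nat_lit 573475) (nat_lit 12) (.e (nat_lit 57354) (nat_lit 0) .nil))))) .nil)) 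
(.lf (nat_lit 246012) (.g (nat_lit 3239) (.e (nat_lit 131098) (nat_lit 3) (.e (nat_lit 98373) (nat_lit 29) (.e (nat_lit 450588) (nat_lit 10) (.e (nat_lit 573475) (nat_lit 12) (.e (nat_lit 57348) (nat_lit 0) (.e (nat_lit 7122) (nat_lit 382) (.e (nat_lit 1296) (nat_lit 96) .nil))))))) (.g (nat_lit 4) .nil .nil))))))) (.nd (nat_lit 2) (.nd (nat_lit 3) (.nd (nat_lit 4) (.nd (nat_lit 5) 
(.lf (nat_lit 245954) (.g (nat_lit 4294) (.e (nat_lit 131098) (nat_lit 3) (.e (nat_lit 98373) (nat_lit 29) (.e (nat_lit 450587) (nat_lit 10) (.e (nat_lit 573473) (nat_lit 12) (.e (nat_lit 57353) (nat_lit 0) (.e (nat_lit 7125) (nat_lit 382) (.e (nat_lit 1296) (nat_lit 96) .nil))))))) (.g (nat_lit 7) .nil .nil))) 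
(.lf (nat_lit 245986) (.g (nat_lit 3321) (.e (nat_lit 131098) (nat_lit 3) (.e (nat_lit 98373) (nat_lit 29) (.e (nat_lit 450587) (nat_lit 10) (.e (nat_lit 573477) (nat_lit 12) (.e (nat_lit 57351) (nat_lit 0) (.e (nat_lit 7125) (nat_lit 382) (.e (nat_lit 1296) (nat_lit 96) .nil))))))) (.g (nat_lit 4) .nil .nil)))) (.nd (nat_lit 5) 
(.lf (nat_lit 245970) (.g (nat_lit 2938) (.e (nat_lit 131098) (nat_lit 3) (.e (nat_lit 98373) (nat_lit 29) (.e (nat_lit 450587) (nat_lit 10) (.e (nat_lit 573475) (nat_lit 12) (.e (nat_lit 57347) (nat_lit 0) .nil))))) .nil)) 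
(.lf (nat_lit 246002) (.g (nat_lit 3282) (.e (nat_lit 131098) (nat_lit 3) (.e (nat_lit 98373) (nat_lit 29) (.e (nat_lit 450588) (nat_lit 10) (.e (nat_lit 573473) (nat_lit 12) (.e (nat_lit 57353) (nat_lit 0) (.e (nat_lit 7122) (nat_lit 382) (.e (nat_lit 1296) (nat_lit 96) .nil))))))) (.g (nat_lit 4) .nil .nil))))) (.nd (nat_lit 4) (.nd (nat_lit 5) 
(.lf (nat_lit 245962) (.g (nat_lit 2926) (.e (nat_lit 131098) (nat_lit 3) (.e (nat_lit 98373) (nat_lit 29) (.e (nat_lit 450587) (nat_lit 10) (.e (nat_lit 573475) (nat_lit 12) (.e (nat_lit 57346) (nat_lit 0) .nil))))) .nil)) 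
(.lf (nat_lit 245994) (.g (nat_lit 4500) (.e (nat_lit 131098) (nat_lit 3) (.e (nat_lit 98373) (nat_lit 29) (.e (nat_lit 450588) (nat_lit 10) (.e (nat_lit 573472) (nat_lit 12) .nil)))) .nil))) (.nd (nat_lit 5) 
(.lf (nat_lit 245978) (.g (nat_lit 3235) (.e (nat_lit 131098) (nat_lit 3) (.e (nat_lit 98373) (nat_lit 29) (.e (nat_lit 450587) (nat_lit 10) (.e (nat_lit 573475) (nat_lit 12) (.e (nat_lit 57353) (nat_lit 0) .nil))))) .nil)) 
(.lf (nat_lit 246010) (.g (nat_lit 5367) (.e (nat_lit 131098) (nat_lit 3) (.e (nat_lit 98373) (nat_lit 29) (.e (nat_lit 450588) (nat_lit 10) (.e (nat_lit 573475) (nat_lit 12) (.e (nat_lit 57347) (nat_lit 0) (.e (nat_lit 7124) (nat_lit 382) (.e (nat_lit 1296) (nat_lit 96) .nil))))))) (.g (nat_lit 7) .nil .nil)))))) (.nd (nat_lit 3) (.nd (nat_lit 4) (.nd (nat_lit 5) 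
(.lf (nat_lit 245958) (.g (nat_lit 3521) (.e (nat_lit 131098) (nat_lit 3) (.e (nat_lit 98373) (nat_lit 29) (.e (nat_lit 450587) (nat_lit 10) (.e (nat_lit 573475) (nat_lit 12) (.e (nat_lit 57344) (nat_lit 0) (.e (nat_lit 7124) (nat_lit 382) (.e (nat_lit 1296) (nat_lit 96) .nil))))))) (.g (nat_lit 4) .nil .nil))) 
(.lf (nat_lit 245990) (.g (nat_lit 3898) (.e (nat_lit 131098) (nat_lit 3) (.e (nat_lit 98373) (nat_lit 29) (.e (nat_lit 450588) (nat_lit 10) (.e (nat_lit 581376) (nat_lit 0) .nil)))) .nil))) (.nd (nat_lit 5) 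
(.lf (nat_lit 245974) (.g (nat_lit 3555) (.e (nat_lit 131098) (nat_lit 3) (.e (nat_lit 98373) (nat_lit 29) (.e (nat_lit 450587) (nat_lit 10) (.e (nat_lit 573475) (nat_lit 12) (.e (nat_lit 57350) (nat_lit 0) .nil))))) .nil)) 
(.lf (nat_lit 246006) (.g (nat_lit 5322) (.e (nat_lit 131098) (nat_lit 3) (.e (nat_lit 98373) (nat_lit 29) (.e (nat_lit 450588) (nat_lit 10) (.e (nat_lit 573474) (nat_lit 12) (.e (nat_lit 57348) (nat_lit 0) .nil))))) .nil)))) (.nd (nat_lit 4) (.nd (nat_lit 5) 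
(.lf (nat_lit 245966) (.g (nat_lit 3742) (.e (nat_lit 131098) (nat_lit 3) (.e (nat_lit 98373) (nat_lit 29) (.e (nat_lit 450587) (nat_lit 10) (.e (nat_lit 573475) (nat_lit 12) (.e (nat_lit 57346) (nat_lit 0) (.e (nat_lit 7135) (nat_lit 382) (.e (nat_lit 1297) (nat_lit 96) .nil))))))) (.g (nat_lit 6) .nil .nil))) 
(.lf (nat_lit 245998) (.g (nat_lit 4775) (.e (nat_lit 131098) (nat_lit 3) (.e (nat_lit 98373) (nat_lit 29) (.e (nat_lit 450588) (nat_lit 10) (.e (nat_lit 573473) (nat_lit 12) (.e (nat_lit 57348) (nat_lit 0) (.e (nat_lit 7124) (nat_lit 382) (.e (nat_lit 1296) (nat_lit 96) .nil))))))) (.g (nat_lit 7) .nil .nil)))) (.nd (nat_lit 5) 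
(.lf (nat_lit 245982) (.g (nat_lit 3527) (.e (nat_lit 131098) (nat_lit 3) (.e (nat_lit 98373) (nat_lit 29) (.e (nat_lit 450587) (nat_lit 10) (.e (nat_lit 573475) (nat_lit 12) (.e (nat_lit 57570) (nat_lit 54) (.e (nat_lit 770076) (nat_lit 12) .nil)))))) (.g (nat_lit 4) .nil .nil))) 
(.lf (nat_lit 246014) (.g (nat_lit 4613) (.e (nat_lit 131098) (nat_lit 3) (.e (nat_lit 98373) (nat_lit 29) (.e (nat_lit 450588) (nat_lit 10) (.e (nat_lit 573475) (nat_lit 12) (.e (nat_lit 57351) (nat_lit 0) (.e (nat_lit 7124) (nat_lit 382) (.e (nat_lit 1296) (nat_lit 96) .nil))))))) (.g (nat_lit 7) .nil .nil)))))))) 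
(.nd (nat_lit 1) (.nd (nat_lit 2) (.nd (nat_lit 3) (.nd (nat_lit 4) (.nd (nat_lit 5) 
(.lf (nat_lit 245953) (.g (nat_lit 3147) (.e (nat_lit 131098) (nat_lit 3) (.e (nat_lit 98373) (nat_lit 29) (.e (nat_lit 450587) (nat_lit 10) (.e (nat_lit 573473) (nat_lit 12) (.e (nat_lit 57353) (nat_lit 0) (.e (nat_lit 7122) (nat_lit 382) (.e (nat_lit 1296) (nat_lit 96) .nil))))))) (.g (nat_lit 4) .nil .nil))) 
(.lf (nat_lit 245985) (.g (nat_lit 2902) (.e (nat_lit 131098) (nat_lit 3) (.e (nat_lit 98373) (nat_lit 29) (.e (nat_lit 450587) (nat_lit 10) (.e (nat_lit 573477) (nat_lit 12) (.e (nat_lit 57351) (nat_lit 0) .nil))))) .nil))) (.nd (nat_lit 5) 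
(.lf (nat_lit 245969) (.g (nat_lit 3738) (.e (nat_lit 131098) (nat_lit 3) (.e (nat_lit 98373) (nat_lit 29) (.e (nat_lit 450587) (nat_lit 10) (.e (nat_lit 573475) (nat_lit 12) (.e (nat_lit 57346) (nat_lit 0) (.e (nat_lit 7233) (nat_lit 382) (.e (nat_lit 1297) (nat_lit 96) .nil))))))) (.g (nat_lit 6) .nil .nil))) 
(.lf (nat_lit 246001) (.g (nat_lit 3096) (.e (nat_lit 131098) (nat_lit 3) (.e (nat_lit 98373) (nat_lit 29) (.e (nat_lit 450588) (nat_lit 10) (.e (nat_lit 573473) (nat_lit 12) (.e (nat_lit 57352) (nat_lit 0) (.e (nat_lit 7125) (nat_lit 382) (.e (nat_lit 1296) (nat_lit 96) .nil))))))) (.g (nat_lit 4) .nil .nil))))) (.nd (nat_lit 4) (.nd (nat_lit 5) 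
(.lf (nat_lit 245961) (.g (nat_lit 3258) (.e (nat_lit 131098) (nat_lit 3) (.e (nat_lit 98373) (nat_lit 29) (.e (nat_lit 450587) (nat_lit 10) (.e (nat_lit 573475) (nat_lit 12) (.e (nat_lit 57345) (nat_lit 0) (.e (nat_lit 7236) (nat_lit 382) (.e (nat_lit 1297) (nat_lit 96) .nil))))))) (.g (nat_lit 4) .nil .nil))) 
(.lf (nat_lit 245993) (.g (nat_lit 4146) (.e (nat_lit 131098) (nat_lit 3) (.e (nat_lit 98373) (nat_lit 29) (.e (nat_lit 450588) (nat_lit 10) (.e (nat_lit 573452) (nat_lit 9) .nil)))) .nil))) (.nd (nat_lit 5) 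
(.lf (nat_lit 245977) (.g (nat_lit 4030) (.e (nat_lit 131098) (nat_lit 3) (.e (nat_lit 98373) (nat_lit 29) (.e (nat_lit 450587) (nat_lit 10) (.e (nat_lit 573475) (nat_lit 12) (.e (nat_lit 57352) (nat_lit 0) (.e (nat_lit 7122) (nat_lit 382) (.e (nat_lit 1296) (nat_lit 96) .nil))))))) (.g (nat_lit 4) .nil .nil))) 
(.lf (nat_lit 246009) (.g (nat_lit 2900) (.e (nat_lit 131098) (nat_lit 3) (.e (nat_lit 98373) (nat_lit 29) (.e (nat_lit 450588) (nat_lit 10) (.e (nat_lit 573475) (nat_lit 12) (.e (nat_lit 57347) (nat_lit 0) .nil))))) .nil))))) (.nd (nat_lit 3) (.nd (nat_lit 4) (.nd (nat_lit 5) 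
(.lf (nat_lit 245957) (.g (nat_lit 3447) (.e (nat_lit 131098) (nat_lit 3) (.e (nat_lit 98373) (nat_lit 29) (.e (nat_lit 450587) (nat_lit 10) (.e (nat_lit 573475) (nat_lit 12) (.e (nat_lit 57344) (nat_lit 0) .nil))))) .nil)) 
(.lf (nat_lit 245989) (.g (nat_lit 3683) (.e (nat_lit 131098) (nat_lit 3) (.e (nat_lit 98373) (nat_lit 29) (.e (nat_lit 450587) (nat_lit 10) (.e (nat_lit 573478) (nat_lit 12) (.e (nat_lit 57353) (nat_lit 0) (.e (nat_lit 7124) (nat_lit 382) (.e (nat_lit 1296) (nat_lit 96) .nil))))))) (.g (nat_lit 6) .nil .nil)))) (.nd (nat_lit 5) 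
(.lf (nat_lit 245973) (.g (nat_lit 3168) (.e (nat_lit 131098) (nat_lit 3) (.e (nat_lit 98373) (nat_lit 29) (.e (nat_lit 450587) (nat_lit 10) (.e (nat_lit 573475) (nat_lit 12) (.e (nat_lit 57349) (nat_lit 0) .nil))))) .nil)) 
(.lf (nat_lit 246005) (.g (nat_lit 5055) (.e (nat_lit 131098) (nat_lit 3) (.e (nat_lit 98373) (nat_lit 29) (.e (nat_lit 450588) (nat_lit 10) (.e (nat_lit 573474) (nat_lit 12) (.e (nat_lit 57347) (nat_lit 0) .nil))))) .nil)))) (.nd (nat_lit 4) (.nd (nat_lit 5) 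
(.lf (nat_lit 245965) (.g (nat_lit 3098) (.e (nat_lit 131098) (nat_lit 3) (.e (nat_lit 98373) (nat_lit 29) (.e (nat_lit 450587) (nat_lit 10) (.e (nat_lit 573475) (nat_lit 12) (.e (nat_lit 57346) (nat_lit 0) (.e (nat_lit 7135) (nat_lit 382) (.e (nat_lit 1294) (nat_lit 96) .nil))))))) (.g (nat_lit 4) .nil .nil))) 
(.lf (nat_lit 245997) (.g (nat_lit 2830) (.e (nat_lit 131098) (nat_lit 3) (.e (nat_lit 98373) (nat_lit 29) (.e (nat_lit 450588) (nat_lit 10) (.e (nat_lit 573473) (nat_lit 12) (.e (nat_lit 57348) (nat_lit 0) .nil))))) .nil))) (.nd (nat_lit 5) 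
(.lf (nat_lit 245981) (.g (nat_lit 3342) (.e (nat_lit 131098) (nat_lit 3) (.e (nat_lit 98373) (nat_lit 29) (.e (nat_lit 450587) (nat_lit 10) (.e (nat_lit 573475) (nat_lit 12) (.e (nat_lit 57356) (nat_lit 0) .nil))))) .nil)) 
(.lf (nat_lit 246013) (.g (nat_lit 2861) (.e (nat_lit 131098) (nat_lit 3) (.e (nat_lit 98373) (nat_lit 29) (.e (nat_lit 450588) (nat_lit 10) (.e (nat_lit 573475) (nat_lit 12) (.e (nat_lit 57351) (nat_lit 0) .nil))))) .nil)))))) (.nd (nat_lit 2) (.nd (nat_lit 3) (.nd (nat_lit 4) (.nd (nat_lit 5) 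
(.lf (nat_lit 245955) (.g (nat_lit 3123) (.e (nat_lit 131098) (nat_lit 3) (.e (nat_lit 98373) (nat_lit 29) (.e (nat_lit 450587) (nat_lit 10) (.e (nat_lit 573473) (nat_lit 12) (.e (nat_lit 57354) (nat_lit 0) .nil))))) .nil)) 
(.lf (nat_lit 245987) (.g (nat_lit 4129) (.e (nat_lit 131098) (nat_lit 3) (.e (nat_lit 98373) (nat_lit 29) (.e (nat_lit 450587) (nat_lit 10) (.e (nat_lit 573477) (nat_lit 12) (.e (nat_lit 57353) (nat_lit 0) (.e (nat_lit 7125) (nat_lit 382) (.e (nat_lit 1296) (nat_lit 96) .nil))))))) (.g (nat_lit 7) .nil .nil)))) (.nd (nat_lit 5) 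
(.lf (nat_lit 245971) (.g (nat_lit 3047) (.e (nat_lit 131098) (nat_lit 3) (.e (nat_lit 98373) (nat_lit 29) (.e (nat_lit 450587) (nat_lit 10) (.e (nat_lit 573475) (nat_lit 12) (.e (nat_lit 57348) (nat_lit 0) .nil))))) .nil)) 
(.lf (nat_lit 246003) (.g (nat_lit 4677) (.e (nat_lit 131098) (nat_lit 3) (.e (nat_lit 98373) (nat_lit 29) (.e (nat_lit 450588) (nat_lit 10) (.e (nat_lit 573473) (nat_lit 12) (.e (nat_lit 57353) (nat_lit 0) (.e (nat_lit 7124) (nat_lit 382) (.e (nat_lit 1296) (nat_lit 96) .nil))))))) (.g (nat_lit 7) .nil .nil))))) (.nd (nat_lit 4) (.nd (nat_lit 5) 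
(.lf (nat_lit 245963) (.g (nat_lit 3166) (.e (nat_lit 131098) (nat_lit 3) (.e (nat_lit 98373) (nat_lit 29) (.e (nat_lit 450587) (nat_lit 10) (.e (nat_lit 573475) (nat_lit 12) (.e (nat_lit 57346) (nat_lit 0) (.e (nat_lit 7133) (nat_lit 382) (.e (nat_lit 1297) (nat_lit 96) .nil))))))) (.g (nat_lit 4) .nil .nil))) 
(.lf (nat_lit 245995) (.g (nat_lit 2077) (.e (nat_lit 131098) (nat_lit 3) (.e (nat_lit 98373) (nat_lit 29) (.e (nat_lit 450588) (nat_lit 10) (.e (nat_lit 573473) (nat_lit 12) .nil)))) .nil))) (.nd (nat_lit 5) 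
(.lf (nat_lit 245979) (.g (nat_lit 4406) (.e (nat_lit 131098) (nat_lit 3) (.e (nat_lit 98373) (nat_lit 29) (.e (nat_lit 450587) (nat_lit 10) (.e (nat_lit 573475) (nat_lit 12) (.e (nat_lit 57353) (nat_lit 0) (.e (nat_lit 7124) (nat_lit 382) (.e (nat_lit 1296) (nat_lit 96) .nil))))))) (.g (nat_lit 6) .nil .nil))) 
(.lf (nat_lit 246011) (.g (nat_lit 3057) (.e (nat_lit 131098) (nat_lit 3) (.e (nat_lit 98373) (nat_lit 29) (.e (nat_lit 450588) (nat_lit 10) (.e (nat_lit 573475) (nat_lit 12) (.e (nat_lit 57348) (nat_lit 0) .nil))))) .nil))))) (.nd (nat_lit 3) (.nd (nat_lit 4) (.nd (nat_lit 5) 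
(.lf (nat_lit 245959) (.g (nat_lit 3063) (.e (nat_lit 131098) (nat_lit 3) (.e (nat_lit 98373) (nat_lit 29) (.e (nat_lit 450587) (nat_lit 10) (.e (nat_lit 573475) (nat_lit 12) (.e (nat_lit 57345) (nat_lit 0) .nil))))) .nil)) 
(.lf (nat_lit 245991) (.g (nat_lit 3616) (.e (nat_lit 131098) (nat_lit 3) (.e (nat_lit 98373) (nat_lit 29) (.e (nat_lit 450588) (nat_lit 10) (.e (nat_lit 573449) (nat_lit 9) .nil)))) .nil))) (.nd (nat_lit 5) 
(.lf (nat_lit 245975) (.g (nat_lit 3044) (.e (nat_lit 131098) (nat_lit 3) (.e (nat_lit 98373) (nat_lit 29) (.e (nat_lit 450587) (nat_lit 10) (.e (nat_lit 573475) (nat_lit 12) (.e (nat_lit 57351) (nat_lit 0) .nil))))) .nil)) 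
(.lf (nat_lit 246007) (.g (nat_lit 2059) (.e (nat_lit 131098) (nat_lit 3) (.e (nat_lit 98373) (nat_lit 29) (.e (nat_lit 450588) (nat_lit 10) (.e (nat_lit 573475) (nat_lit 12) .nil)))) .nil)))) (.nd (nat_lit 4) (.nd (nat_lit 5) 
(.lf (nat_lit 245967) (.g (nat_lit 3083) (.e (nat_lit 131098) (nat_lit 3) (.e (nat_lit 98373) (nat_lit 29) (.e (nat_lit 450587) (nat_lit 10) (.e (nat_lit 573475) (nat_lit 12) (.e (nat_lit 57346) (nat_lit 0) (.e (nat_lit 7136) (nat_lit 382) (.e (nat_lit 1294) (nat_lit 96) .nil))))))) (.g (nat_lit 4) .nil .nil))) 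
(.lf (nat_lit 245999) (.g (nat_lit 3145) (.e (nat_lit 131098) (nat_lit 3) (.e (nat_lit 98373) (nat_lit 29) (.e (nat_lit 450588) (nat_lit 10) (.e (nat_lit 573473) (nat_lit 12) (.e (nat_lit 57351) (nat_lit 0) .nil))))) .nil))) (.nd (nat_lit 5) 
(.lf (nat_lit 245983) (.g (nat_lit 4281) (.e (nat_lit 131098) (nat_lit 3) (.e (nat_lit 98373) (nat_lit 29) (.e (nat_lit 450587) (nat_lit 10) (.e (nat_lit 573476) (nat_lit 12) .nil)))) .nil)) 
(.lf (nat_lit 246015) (.g (nat_lit 2820) (.e (nat_lit 131098) (nat_lit 3) (.e (nat_lit 98373) (nat_lit 29) (.e (nat_lit 450588) (nat_lit 10) (.e (nat_lit 573475) (nat_lit 12) (.e (nat_lit 57354) (nat_lit 0) .nil))))) .nil))))))))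

noncomputable def tv3197 : DT := (.nd (nat_lit 0) (.nd (nat_lit 1) (.nd (nat_lit 2) (.nd (nat_lit 3) (.nd (nat_lit 4) (.nd (nat_lit 5) (.nd (nat_lit 6) 
(.lf (nat_lit 246016) (.g (nat_lit 4567) (.e (nat_lit 131098) (nat_lit 3) (.e (nat_lit 98373) (nat_lit 29) (.e (nat_lit 450588) (nat_lit 10) (.e (nat_lit 573476) (nat_lit 12) .nil)))) .nil)) 
(.lf (nat_lit 246080) (.g (nat_lit 2594) (.e (nat_lit 131105) (nat_lit 9) (.e (nat_lit 336443) (nat_lit 32) (.e (nat_lit 466972) (nat_lit 21) (.e (nat_lit 164330) (nat_lit 230) (.e (nat_lit 163846) (nat_lit 0) (.e (nat_lit 2397) (nat_lit 157) (.e (nat_lit 7236) (nat_lit 382) (.e (nat_lit 1294) (nat_lit 96) .nil)))))))) (.g (nat_lit 4) .nil .nil)))) (.nd (nat_lit 6) 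
(.lf (nat_lit 246048) (.g (nat_lit 2563) (.e (nat_lit 131102) (nat_lit 7) (.e (nat_lit 319534) (nat_lit 16) (.e (nat_lit 286756) (nat_lit 10) (.e (nat_lit 344169) (nat_lit 40) (.e (nat_lit 671751) (nat_lit 0) .nil))))) .nil)) 
(.lf (nat_lit 246112) (.g (nat_lit 1621) (.e (nat_lit 131107) (nat_lit 9) (.e (nat_lit 336369) (nat_lit 27) (.e (nat_lit 426173) (nat_lit 7) (.e (nat_lit 409649) (nat_lit 18) (.e (nat_lit 303111) (nat_lit 0) (.e (nat_lit 2429) (nat_lit 157) (.e (nat_lit 6351) (nat_lit 337) (.e (nat_lit 1294) (nat_lit 96) .nil)))))))) (.g (nat_lit 4) .nil .nil))))) (.nd (nat_lit 5) (.nd (nat_lit 6) 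
(.lf (nat_lit 246032) (.g (nat_lit 1051) (.e (nat_lit 131102) (nat_lit 7) (.e (nat_lit 319531) (nat_lit 16) (.e (nat_lit 286756) (nat_lit 10) .nil))) .nil)) 
(.lf (nat_lit 246096) (.g (nat_lit 1663) (.e (nat_lit 131107) (nat_lit 9) (.e (nat_lit 336324) (nat_lit 18) (.e (nat_lit 204835) (nat_lit 19) (.e (nat_lit 106534) (nat_lit 11) .nil)))) .nil))) (.nd (nat_lit 6) 
(.lf (nat_lit 246064) (.g (nat_lit 2606) (.e (nat_lit 131105) (nat_lit 9) (.e (nat_lit 336324) (nat_lit 18) (.e (nat_lit 204835) (nat_lit 19) (.e (nat_lit 106536) (nat_lit 11) (.e (nat_lit 16413) (nat_lit 2) (.e (nat_lit 196681) (nat_lit 17) .nil)))))) (.g (nat_lit 0) .nil .nil))) 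
(.lf (nat_lit 246128) (.g (nat_lit 1966) (.e (nat_lit 131108) (nat_lit 9) (.e (nat_lit 336369) (nat_lit 27) (.e (nat_lit 426173) (nat_lit 7) (.e (nat_lit 409649) (nat_lit 18) (.e (nat_lit 303111) (nat_lit 0) .nil))))) .nil))))) (.nd (nat_lit 4) (.nd (nat_lit 5) (.nd (nat_lit 6) 
(.lf (nat_lit 246024) (.g (nat_lit 1609) (.e (nat_lit 131098) (nat_lit 3) (.e (nat_lit 98389) (nat_lit 33) (.e (nat_lit 491560) (nat_lit 10) (.e (nat_lit 344105) (nat_lit 19) .nil)))) .nil)) 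
(.lf (nat_lit 246088) (.g (nat_lit 1637) (.e (nat_lit 131105) (nat_lit 9) (.e (nat_lit 336443) (nat_lit 32) (.e (nat_lit 466972) (nat_lit 21) (.e (nat_lit 164332) (nat_lit 230) (.e (nat_lit 171776) (nat_lit 62) .nil))))) .nil))) (.nd (nat_lit 6) 
(.lf (nat_lit 246056) (.g (nat_lit 1792) (.e (nat_lit 131105) (nat_lit 9) (.e (nat_lit 336019) (nat_lit 3) (.e (nat_lit 98350) (nat_lit 24) (.e (nat_lit 417536) (nat_lit 18) .nil)))) .nil)) 
(.lf (nat_lit 246120) (.g (nat_lit 4484) (.e (nat_lit 131107) (nat_lit 9) (.e (nat_lit 336454) (nat_lit 34) (.e (nat_lit 483365) (nat_lit 18) (.e (nat_lit 57870) (nat_lit 264) .nil)))) .nil)))) (.nd (nat_lit 5) (.nd (nat_lit 6) 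
(.lf (nat_lit 246040) (.g (nat_lit 2517) (.e (nat_lit 131102) (nat_lit 7) (.e (nat_lit 319534) (nat_lit 16) (.e (nat_lit 286749) (nat_lit 9) (.e (nat_lit 335997) (nat_lit 1) (.e (nat_lit 57849) (nat_lit 252) .nil))))) .nil)) 
(.lf (nat_lit 246104) (.g (nat_lit 1671) (.e (nat_lit 131107) (nat_lit 9) (.e (nat_lit 336369) (nat_lit 27) (.e (nat_lit 426173) (nat_lit 7) (.e (nat_lit 409648) (nat_lit 18) (.e (nat_lit 303108) (nat_lit 0) .nil))))) .nil))) (.nd (nat_lit 6) 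
(.lf (nat_lit 246072) (.g (nat_lit 227) (.e (nat_lit 131105) (nat_lit 9) (.e (nat_lit 336443) (nat_lit 32) (.e (nat_lit 466969) (nat_lit 21) .nil))) .nil)) 
(.lf (nat_lit 246136) (.g (nat_lit 1899) (.e (nat_lit 131109) (nat_lit 9) (.e (nat_lit 336019) (nat_lit 3) (.e (nat_lit 98349) (nat_lit 24) (.e (nat_lit 409646) (nat_lit 18) (.e (nat_lit 303117) (nat_lit 2) .nil))))) .nil)))))) (.nd (nat_lit 3) (.nd (nat_lit 4) (.nd (nat_lit 5) (.nd (nat_lit 6) 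
(.lf (nat_lit 246020) (.g (nat_lit 3703) (.e (nat_lit 131098) (nat_lit 3) (.e (nat_lit 98373) (nat_lit 29) (.e (nat_lit 450588) (nat_lit 10) (.e (nat_lit 573503) (nat_lit 18) .nil)))) .nil)) 
(.lf (nat_lit 246084) (.g (nat_lit 1585) (.e (nat_lit 131105) (nat_lit 9) (.e (nat_lit 336443) (nat_lit 32) (.e (nat_lit 466972) (nat_lit 21) (.e (nat_lit 164332) (nat_lit 230) (.e (nat_lit 163847) (nat_lit 0) .nil))))) .nil))) (.nd (nat_lit 6) 
(.lf (nat_lit 246052) (.g (nat_lit 4016) (.e (nat_lit 131104) (nat_lit 9) (.e (nat_lit 336454) (nat_lit 34) (.e (nat_lit 483365) (nat_lit 18) (.e (nat_lit 57873) (nat_lit 264) .nil)))) .nil)) 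
(.lf (nat_lit 246116) (.g (nat_lit 2722) (.e (nat_lit 131107) (nat_lit 9) (.e (nat_lit 336369) (nat_lit 27) (.e (nat_lit 426173) (nat_lit 7) (.e (nat_lit 409649) (nat_lit 18) (.e (nat_lit 303111) (nat_lit 0) (.e (nat_lit 3469) (nat_lit 217) (.e (nat_lit 696365) (nat_lit 20) .nil))))))) (.g (nat_lit 6) .nil .nil))))) (.nd (nat_lit 5) (.nd (nat_lit 6) 
(.lf (nat_lit 246036) (.g (nat_lit 1266) (.e (nat_lit 131102) (nat_lit 7) (.e (nat_lit 319533) (nat_lit 16) (.e (nat_lit 286753) (nat_lit 10) (.e (nat_lit 344097) (nat_lit 18) .nil)))) .nil)) 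
(.lf (nat_lit 246100) (.g (nat_lit 3158) (.e (nat_lit 131107) (nat_lit 9) (.e (nat_lit 336369) (nat_lit 27) (.e (nat_lit 426173) (nat_lit 7) (.e (nat_lit 409645) (nat_lit 18) (.e (nat_lit 303115) (nat_lit 1) (.e (nat_lit 164159) (nat_lit 152) (.e (nat_lit 1296) (nat_lit 96) .nil))))))) (.g (nat_lit 4) .nil .nil)))) (.nd (nat_lit 6) 
(.lf (nat_lit 246068) (.g (nat_lit 3242) (.e (nat_lit 131105) (nat_lit 9) (.e (nat_lit 336369) (nat_lit 27) (.e (nat_lit 426173) (nat_lit 7) (.e (nat_lit 409649) (nat_lit 18) (.e (nat_lit 303111) (nat_lit 0) (.e (nat_lit 3468) (nat_lit 217) (.e (nat_lit 696365) (nat_lit 20) .nil))))))) (.g (nat_lit 7) .nil .nil))) 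
(.lf (nat_lit 246132) (.g (nat_lit 2039) (.e (nat_lit 131109) (nat_lit 9) (.e (nat_lit 336019) (nat_lit 3) (.e (nat_lit 98333) (nat_lit 18) (.e (nat_lit 164429) (nat_lit 278) .nil)))) .nil))))) (.nd (nat_lit 4) (.nd (nat_lit 5) (.nd (nat_lit 6) 
(.lf (nat_lit 246028) (.g (nat_lit 1997) (.e (nat_lit 131099) (nat_lit 4) (.e (nat_lit 123182) (nat_lit 264) (.e (nat_lit 1201) (nat_lit 88) (.e (nat_lit 65628) (nat_lit 14) .nil)))) .nil)) 
(.lf (nat_lit 246092) (.g (nat_lit 2181) (.e (nat_lit 131106) (nat_lit 9) (.e (nat_lit 336369) (nat_lit 27) (.e (nat_lit 426173) (nat_lit 7) (.e (nat_lit 409649) (nat_lit 18) (.e (nat_lit 303111) (nat_lit 0) (.e (nat_lit 3459) (nat_lit 216) (.e (nat_lit 688189) (nat_lit 20) .nil))))))) (.g (nat_lit 4) .nil .nil)))) (.nd (nat_lit 6) 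
(.lf (nat_lit 246060) (.g (nat_lit 918) (.e (nat_lit 131105) (nat_lit 9) (.e (nat_lit 336324) (nat_lit 18) (.e (nat_lit 204821) (nat_lit 17) (.e (nat_lit 2155) (nat_lit 142) .nil)))) .nil)) 
(.lf (nat_lit 246124) (.g (nat_lit 1701) (.e (nat_lit 131107) (nat_lit 9) (.e (nat_lit 336456) (nat_lit 34) (.e (nat_lit 483350) (nat_lit 17) (.e (nat_lit 1998) (nat_lit 137) .nil)))) .nil)))) (.nd (nat_lit 5) (.nd (nat_lit 6) 
(.lf (nat_lit 246044) (.g (nat_lit 2348) (.e (nat_lit 131102) (nat_lit 7) (.e (nat_lit 319534) (nat_lit 16) (.e (nat_lit 286756) (nat_lit 10) (.e (nat_lit 344097) (nat_lit 18) (.e (nat_lit 5195) (nat_lit 294) .nil))))) .nil)) 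
(.lf (nat_lit 246108) (.g (nat_lit 1514) (.e (nat_lit 131107) (nat_lit 9) (.e (nat_lit 336369) (nat_lit 27) (.e (nat_lit 426173) (nat_lit 7) (.e (nat_lit 409649) (nat_lit 18) (.e (nat_lit 303111) (nat_lit 0) .nil))))) .nil))) (.nd (nat_lit 6) 
(.lf (nat_lit 246076) (.g (nat_lit 1817) (.e (nat_lit 131105) (nat_lit 9) (.e (nat_lit 336443) (nat_lit 32) (.e (nat_lit 466969) (nat_lit 21) (.e (nat_lit 164332) (nat_lit 230) (.e (nat_lit 163846) (nat_lit 0) .nil))))) .nil)) 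
(.lf (nat_lit 246140) (.g (nat_lit 2372) (.e (nat_lit 131109) (nat_lit 9) (.e (nat_lit 336019) (nat_lit 3) (.e (nat_lit 98350) (nat_lit 24) (.e (nat_lit 409646) (nat_lit 18) (.e (nat_lit 303116) (nat_lit 2) .nil))))) .nil))))))) (.nd (nat_lit 2) (.nd (nat_lit 3) (.nd (nat_lit 4) (.nd (nat_lit 5) (.nd (nat_lit 6) 
(.lf (nat_lit 246018) (.g (nat_lit 4338) (.e (nat_lit 131098) (nat_lit 3) (.e (nat_lit 98373) (nat_lit 29) (.e (nat_lit 450588) (nat_lit 10) (.e (nat_lit 573478) (nat_lit 12) .nil)))) .nil)) 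
(.lf (nat_lit 246082) (.g (nat_lit 1148) (.e (nat_lit 131105) (nat_lit 9) (.e (nat_lit 336443) (nat_lit 32) (.e (nat_lit 466972) (nat_lit 21) (.e (nat_lit 164332) (nat_lit 230) .nil)))) .nil))) (.nd (nat_lit 6) 
(.lf (nat_lit 246050) (.g (nat_lit 1966) (.e (nat_lit 131104) (nat_lit 9) (.e (nat_lit 336369) (nat_lit 27) (.e (nat_lit 426173) (nat_lit 7) (.e (nat_lit 409649) (nat_lit 18) (.e (nat_lit 303111) (nat_lit 0) .nil))))) .nil)) 
(.lf (nat_lit 246114) (.g (nat_lit 3014) (.e (nat_lit 131107) (nat_lit 9) (.e (nat_lit 336369) (nat_lit 27) (.e (nat_lit 426173) (nat_lit 7) (.e (nat_lit 409649) (nat_lit 18) (.e (nat_lit 303111) (nat_lit 0) (.e (nat_lit 3459) (nat_lit 216) (.e (nat_lit 688189) (nat_lit 20) .nil))))))) (.g (nat_lit 6) .nil .nil))))) (.nd (nat_lit 5) (.nd (nat_lit 6) 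
(.lf (nat_lit 246034) (.g (nat_lit 956) (.e (nat_lit 131102) (nat_lit 7) (.e (nat_lit 319531) (nat_lit 16) (.e (nat_lit 286759) (nat_lit 12) .nil))) .nil)) 
(.lf (nat_lit 246098) (.g (nat_lit 1953) (.e (nat_lit 131107) (nat_lit 9) (.e (nat_lit 336369) (nat_lit 27) (.e (nat_lit 426173) (nat_lit 7) (.e (nat_lit 409617) (nat_lit 10) (.e (nat_lit 5355) (nat_lit 298) (.e (nat_lit 1179) (nat_lit 87) (.e (nat_lit 57665) (nat_lit 152) (.e (nat_lit 7936) (nat_lit 96) .nil)))))))) (.g (nat_lit 4) .nil .nil)))) (.nd (nat_lit 6) 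
(.lf (nat_lit 246066) (.g (nat_lit 2229) (.e (nat_lit 131105) (nat_lit 9) (.e (nat_lit 336369) (nat_lit 27) (.e (nat_lit 426173) (nat_lit 7) (.e (nat_lit 409649) (nat_lit 18) (.e (nat_lit 303107) (nat_lit 0) .nil))))) .nil)) 
(.lf (nat_lit 246130) (.g (nat_lit 1027) (.e (nat_lit 131109) (nat_lit 9) (.e (nat_lit 336000) (nat_lit 1) (.e (nat_lit 57681) (nat_lit 155) (.e (nat_lit 122919) (nat_lit 15) (.e (nat_lit 360450) (nat_lit 0) .nil))))) .nil))))) (.nd (nat_lit 4) (.nd (nat_lit 5) (.nd (nat_lit 6) 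
(.lf (nat_lit 246026) (.g (nat_lit 3779) (.e (nat_lit 139008) (nat_lit 3) (.e (nat_lit 98373) (nat_lit 29) (.e (nat_lit 450587) (nat_lit 10) (.e (nat_lit 573472) (nat_lit 12) .nil)))) .nil)) 
(.lf (nat_lit 246090) (.g (nat_lit 4076) (.e (nat_lit 131105) (nat_lit 9) (.e (nat_lit 336454) (nat_lit 34) (.e (nat_lit 483365) (nat_lit 18) (.e (nat_lit 57873) (nat_lit 264) .nil)))) .nil))) (.nd (nat_lit 6) 
(.lf (nat_lit 246058) (.g (nat_lit 912) (.e (nat_lit 131105) (nat_lit 9) (.e (nat_lit 336316) (nat_lit 17) (.e (nat_lit 196661) (nat_lit 12) (.e (nat_lit 57530) (nat_lit 46) .nil)))) .nil)) 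
(.lf (nat_lit 246122) (.g (nat_lit 3990) (.e (nat_lit 131107) (nat_lit 9) (.e (nat_lit 336454) (nat_lit 34) (.e (nat_lit 483365) (nat_lit 18) (.e (nat_lit 57873) (nat_lit 264) .nil)))) .nil)))) (.nd (nat_lit 5) (.nd (nat_lit 6) 
(.lf (nat_lit 246042) (.g (nat_lit 982) (.e (nat_lit 131102) (nat_lit 7) (.e (nat_lit 319534) (nat_lit 16) (.e (nat_lit 286756) (nat_lit 10) .nil))) .nil)) 
(.lf (nat_lit 246106) (.g (nat_lit 865) (.e (nat_lit 131107) (nat_lit 9) (.e (nat_lit 336369) (nat_lit 27) (.e (nat_lit 426173) (nat_lit 7) (.e (nat_lit 409649) (nat_lit 18) .nil)))) .nil))) (.nd (nat_lit 6) 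
(.lf (nat_lit 246074) (.g (nat_lit 2327) (.e (nat_lit 131105) (nat_lit 9) (.e (nat_lit 336443) (nat_lit 32) (.e (nat_lit 466969) (nat_lit 21) (.e (nat_lit 164330) (nat_lit 230) (.e (nat_lit 163846) (nat_lit 0) (.e (nat_lit 2397) (nat_lit 157) (.e (nat_lit 7236) (nat_lit 382) (.e (nat_lit 1294) (nat_lit 96) .nil)))))))) (.g (nat_lit 4) .nil .nil))) 
(.lf (nat_lit 246138) (.g (nat_lit 2179) (.e (nat_lit 131109) (nat_lit 9) (.e (nat_lit 336019) (nat_lit 3) (.e (nat_lit 98350) (nat_lit 24) (.e (nat_lit 409645) (nat_lit 18) .nil)))) .nil)))))) (.nd (nat_lit 3) (.nd (nat_lit 4) (.nd (nat_lit 5) (.nd (nat_lit 6) 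
(.lf (nat_lit 246022) (.g (nat_lit 2365) (.e (nat_lit 131098) (nat_lit 3) (.e (nat_lit 98389) (nat_lit 33) (.e (nat_lit 491546) (nat_lit 9) (.e (nat_lit 336028) (nat_lit 3) (.e (nat_lit 98325) (nat_lit 17) (.e (nat_lit 7936) (nat_lit 409) .nil)))))) (.g (nat_lit 5) .nil .nil))) 
(.lf (nat_lit 246086) (.g (nat_lit 1907) (.e (nat_lit 131105) (nat_lit 9) (.e (nat_lit 336443) (nat_lit 32) (.e (nat_lit 466972) (nat_lit 21) (.e (nat_lit 164332) (nat_lit 230) (.e (nat_lit 163860) (nat_lit 1) .nil))))) .nil))) (.nd (nat_lit 6) 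
(.lf (nat_lit 246054) (.g (nat_lit 2096) (.e (nat_lit 131105) (nat_lit 9) (.e (nat_lit 336019) (nat_lit 3) (.e (nat_lit 98350) (nat_lit 24) (.e (nat_lit 409648) (nat_lit 18) (.e (nat_lit 303108) (nat_lit 0) .nil))))) .nil)) 
(.lf (nat_lit 246118) (.g (nat_lit 1893) (.e (nat_lit 131107) (nat_lit 9) (.e (nat_lit 336369) (nat_lit 27) (.e (nat_lit 426173) (nat_lit 7) (.e (nat_lit 409649) (nat_lit 18) (.e (nat_lit 303115) (nat_lit 1) .nil))))) .nil)))) (.nd (nat_lit 5) (.nd (nat_lit 6) 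
(.lf (nat_lit 246038) (.g (nat_lit 1801) (.e (nat_lit 131102) (nat_lit 7) (.e (nat_lit 319534) (nat_lit 16) (.e (nat_lit 286749) (nat_lit 9) (.e (nat_lit 335997) (nat_lit 1) .nil)))) .nil)) 
(.lf (nat_lit 246102) (.g (nat_lit 3188) (.e (nat_lit 131107) (nat_lit 9) (.e (nat_lit 336369) (nat_lit 27) (.e (nat_lit 426173) (nat_lit 7) (.e (nat_lit 409646) (nat_lit 18) (.e (nat_lit 303115) (nat_lit 1) (.e (nat_lit 164159) (nat_lit 152) (.e (nat_lit 1296) (nat_lit 96) .nil))))))) (.g (nat_lit 4) .nil .nil)))) (.nd (nat_lit 6) 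
(.lf (nat_lit 246070) (.g (nat_lit 1650) (.e (nat_lit 131105) (nat_lit 9) (.e (nat_lit 336443) (nat_lit 32) (.e (nat_lit 466944) (nat_lit 0) .nil))) .nil)) 
(.lf (nat_lit 246134) (.g (nat_lit 399) (.e (nat_lit 131109) (nat_lit 9) (.e (nat_lit 336019) (nat_lit 3) (.e (nat_lit 98349) (nat_lit 24) .nil))) .nil))))) (.nd (nat_lit 4) (.nd (nat_lit 5) (.nd (nat_lit 6) 
(.lf (nat_lit 246030) (.g (nat_lit 1693) (.e (nat_lit 131101) (nat_lit 6) (.e (nat_lit 147494) (nat_lit 11) (.e (nat_lit 24665) (nat_lit 14) (.e (nat_lit 401465) (nat_lit 15) .nil)))) .nil)) 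
(.lf (nat_lit 246094) (.g (nat_lit 4273) (.e (nat_lit 131106) (nat_lit 9) (.e (nat_lit 336454) (nat_lit 34) (.e (nat_lit 483365) (nat_lit 18) (.e (nat_lit 57873) (nat_lit 264) .nil)))) .nil))) (.nd (nat_lit 6) 
(.lf (nat_lit 246062) (.g (nat_lit 2547) (.e (nat_lit 131105) (nat_lit 9) (.e (nat_lit 336324) (nat_lit 18) (.e (nat_lit 204834) (nat_lit 19) (.e (nat_lit 106534) (nat_lit 11) (.e (nat_lit 16412) (nat_lit 2) (.e (nat_lit 196681) (nat_lit 17) .nil)))))) (.g (nat_lit 0) .nil .nil))) 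
(.lf (nat_lit 246126) (.g (nat_lit 1399) (.e (nat_lit 131108) (nat_lit 9) (.e (nat_lit 336324) (nat_lit 18) (.e (nat_lit 204838) (nat_lit 20) (.e (nat_lit 122624) (nat_lit 12) .nil)))) .nil)))) (.nd (nat_lit 5) (.nd (nat_lit 6) 
(.lf (nat_lit 246046) (.g (nat_lit 2031) (.e (nat_lit 131102) (nat_lit 7) (.e (nat_lit 319534) (nat_lit 16) (.e (nat_lit 286756) (nat_lit 10) (.e (nat_lit 344168) (nat_lit 40) .nil)))) .nil)) 
(.lf (nat_lit 246110) (.g (nat_lit 1581) (.e (nat_lit 131107) (nat_lit 9) (.e (nat_lit 336369) (nat_lit 27) (.e (nat_lit 426173) (nat_lit 7) (.e (nat_lit 409649) (nat_lit 18) (.e (nat_lit 303111) (nat_lit 0) (.e (nat_lit 2429) (nat_lit 157) (.e (nat_lit 6347) (nat_lit 337) (.e (nat_lit 1294) (nat_lit 96) .nil)))))))) (.g (nat_lit 4) .nil .nil)))) (.nd (nat_lit 6) 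
(.lf (nat_lit 246078) (.g (nat_lit 1109) (.e (nat_lit 131105) (nat_lit 9) (.e (nat_lit 336443) (nat_lit 32) (.e (nat_lit 466972) (nat_lit 21) (.e (nat_lit 164329) (nat_lit 230) .nil)))) .nil)) 
(.lf (nat_lit 246142) (.g (nat_lit 2072) (.e (nat_lit 131109) (nat_lit 9) (.e (nat_lit 336019) (nat_lit 3) (.e (nat_lit 98350) (nat_lit 24) (.e (nat_lit 409649) (nat_lit 18) (.e (nat_lit 303111) (nat_lit 0) .nil))))) .nil)))))))) (.nd (nat_lit 1) (.nd (nat_lit 2) (.nd (nat_lit 3) (.nd (nat_lit 4) (.nd (nat_lit 5) (.nd (nat_lit 6) 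
(.lf (nat_lit 246017) (.g (nat_lit 4487) (.e (nat_lit 131098) (nat_lit 3) (.e (nat_lit 98373) (nat_lit 29) (.e (nat_lit 450588) (nat_lit 10) (.e (nat_lit 573477) (nat_lit 12) .nil)))) .nil)) 
(.lf (nat_lit 246081) (.g (nat_lit 2170) (.e (nat_lit 131105) (nat_lit 9) (.e (nat_lit 336443) (nat_lit 32) (.e (nat_lit 466972) (nat_lit 21) (.e (nat_lit 164330) (nat_lit 230) (.e (nat_lit 171776) (nat_lit 62) .nil))))) .nil))) (.nd (nat_lit 6) 
(.lf (nat_lit 246049) (.g (nat_lit 1595) (.e (nat_lit 131104) (nat_lit 9) (.e (nat_lit 335997) (nat_lit 1) (.e (nat_lit 57872) (nat_lit 264) (.e (nat_lit 1221) (nat_lit 90) (.e (nat_lit 81959) (nat_lit 24) .nil))))) .nil)) 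
(.lf (nat_lit 246113) (.g (nat_lit 2305) (.e (nat_lit 131107) (nat_lit 9) (.e (nat_lit 336369) (nat_lit 27) (.e (nat_lit 426173) (nat_lit 7) (.e (nat_lit 409649) (nat_lit 18) (.e (nat_lit 303111) (nat_lit 0) (.e (nat_lit 2438) (nat_lit 157) (.e (nat_lit 6266) (nat_lit 337) (.e (nat_lit 1293) (nat_lit 96) .nil)))))))) (.g (nat_lit 5) .nil .nil))))) (.nd (nat_lit 5) (.nd (nat_lit 6) 
(.lf (nat_lit 246033) (.g (nat_lit 2512) (.e (nat_lit 131102) (nat_lit 7) (.e (nat_lit 319531) (nat_lit 16) (.e (nat_lit 286756) (nat_lit 10) (.e (nat_lit 344097) (nat_lit 18) .nil)))) .nil)) 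
(.lf (nat_lit 246097) (.g (nat_lit 1351) (.e (nat_lit 131107) (nat_lit 9) (.e (nat_lit 336324) (nat_lit 18) (.e (nat_lit 204835) (nat_lit 19) (.e (nat_lit 106536) (nat_lit 11) .nil)))) .nil))) (.nd (nat_lit 6) 
(.lf (nat_lit 246065) (.g (nat_lit 2690) (.e (nat_lit 131105) (nat_lit 9) (.e (nat_lit 336326) (nat_lit 18) (.e (nat_lit 204835) (nat_lit 19) (.e (nat_lit 106536) (nat_lit 11) (.e (nat_lit 16412) (nat_lit 2) (.e (nat_lit 196681) (nat_lit 17) .nil)))))) (.g (nat_lit 0) .nil .nil))) 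
(.lf (nat_lit 246129) (.g (nat_lit 1362) (.e (nat_lit 131108) (nat_lit 9) (.e (nat_lit 336456) (nat_lit 34) (.e (nat_lit 483350) (nat_lit 17) (.e (nat_lit 1996) (nat_lit 137) .nil)))) .nil))))) (.nd (nat_lit 4) (.nd (nat_lit 5) (.nd (nat_lit 6) 
(.lf (nat_lit 246025) (.g (nat_lit 1561) (.e (nat_lit 131098) (nat_lit 3) (.e (nat_lit 98389) (nat_lit 33) (.e (nat_lit 491560) (nat_lit 10) (.e (nat_lit 344109) (nat_lit 19) .nil)))) .nil)) 
(.lf (nat_lit 246089) (.g (nat_lit 2104) (.e (nat_lit 131105) (nat_lit 9) (.e (nat_lit 336454) (nat_lit 34) (.e (nat_lit 483363) (nat_lit 18) (.e (nat_lit 57929) (nat_lit 282) .nil)))) .nil))) (.nd (nat_lit 6) 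
(.lf (nat_lit 246057) (.g (nat_lit 842) (.e (nat_lit 131105) (nat_lit 9) (.e (nat_lit 336316) (nat_lit 17) (.e (nat_lit 196628) (nat_lit 9) (.e (nat_lit 7936) (nat_lit 93) .nil)))) .nil)) 
(.lf (nat_lit 246121) (.g (nat_lit 4337) (.e (nat_lit 131107) (nat_lit 9) (.e (nat_lit 336454) (nat_lit 34) (.e (nat_lit 483365) (nat_lit 18) (.e (nat_lit 57872) (nat_lit 264) .nil)))) .nil)))) (.nd (nat_lit 5) (.nd (nat_lit 6) 
(.lf (nat_lit 246041) (.g (nat_lit 2517) (.e (nat_lit 131102) (nat_lit 7) (.e (nat_lit 319534) (nat_lit 16) (.e (nat_lit 286749) (nat_lit 9) (.e (nat_lit 335997) (nat_lit 1) (.e (nat_lit 57854) (nat_lit 252) .nil))))) .nil)) 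
(.lf (nat_lit 246105) (.g (nat_lit 1826) (.e (nat_lit 131107) (nat_lit 9) (.e (nat_lit 336369) (nat_lit 27) (.e (nat_lit 426173) (nat_lit 7) (.e (nat_lit 409648) (nat_lit 18) (.e (nat_lit 303115) (nat_lit 1) .nil))))) .nil))) (.nd (nat_lit 6) 
(.lf (nat_lit 246073) (.g (nat_lit 2041) (.e (nat_lit 131105) (nat_lit 9) (.e (nat_lit 336443) (nat_lit 32) (.e (nat_lit 466969) (nat_lit 21) (.e (nat_lit 164330) (nat_lit 230) (.e (nat_lit 163846) (nat_lit 0) .nil))))) .nil)) 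
(.lf (nat_lit 246137) (.g (nat_lit 1832) (.e (nat_lit 131109) (nat_lit 9) (.e (nat_lit 336019) (nat_lit 3) (.e (nat_lit 98349) (nat_lit 24) (.e (nat_lit 409648) (nat_lit 18) (.e (nat_lit 303116) (nat_lit 2) .nil))))) .nil)))))) (.nd (nat_lit 3) (.nd (nat_lit 4) (.nd (nat_lit 5) (.nd (nat_lit 6) 
(.lf (nat_lit 246021) (.g (nat_lit 2872) (.e (nat_lit 131098) (nat_lit 3) (.e (nat_lit 98389) (nat_lit 33) (.e (nat_lit 491546) (nat_lit 9) (.e (nat_lit 336013) (nat_lit 2) (.e (nat_lit 90165) (nat_lit 12) (.e (nat_lit 171776) (nat_lit 194) .nil)))))) (.g (nat_lit 5) .nil .nil))) 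
(.lf (nat_lit 246085) (.g (nat_lit 1888) (.e (nat_lit 131105) (nat_lit 9) (.e (nat_lit 336443) (nat_lit 32) (.e (nat_lit 466972) (nat_lit 21) (.e (nat_lit 164332) (nat_lit 230) (.e (nat_lit 163859) (nat_lit 1) .nil))))) .nil))) (.nd (nat_lit 6) 
(.lf (nat_lit 246053) (.g (nat_lit 4171) (.e (nat_lit 131104) (nat_lit 9) (.e (nat_lit 336454) (nat_lit 34) (.e (nat_lit 483365) (nat_lit 18) (.e (nat_lit 57931) (nat_lit 282) (.e (nat_lit 163866) (nat_lit 2) .nil))))) .nil)) 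
(.lf (nat_lit 246117) (.g (nat_lit 2996) (.e (nat_lit 131107) (nat_lit 9) (.e (nat_lit 336369) (nat_lit 27) (.e (nat_lit 426173) (nat_lit 7) (.e (nat_lit 409649) (nat_lit 18) (.e (nat_lit 303111) (nat_lit 0) (.e (nat_lit 3469) (nat_lit 217) (.e (nat_lit 704256) (nat_lit 20) .nil))))))) (.g (nat_lit 6) .nil .nil))))) (.nd (nat_lit 5) (.nd (nat_lit 6) 
(.lf (nat_lit 246037) (.g (nat_lit 2237) (.e (nat_lit 131102) (nat_lit 7) (.e (nat_lit 319533) (nat_lit 16) (.e (nat_lit 286753) (nat_lit 10) (.e (nat_lit 344169) (nat_lit 40) (.e (nat_lit 671751) (nat_lit 0) .nil))))) .nil)) 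
(.lf (nat_lit 246101) (.g (nat_lit 3060) (.e (nat_lit 131107) (nat_lit 9) (.e (nat_lit 336369) (nat_lit 27) (.e (nat_lit 426173) (nat_lit 7) (.e (nat_lit 409646) (nat_lit 18) (.e (nat_lit 303115) (nat_lit 1) (.e (nat_lit 164155) (nat_lit 152) (.e (nat_lit 1296) (nat_lit 96) .nil))))))) (.g (nat_lit 4) .nil .nil)))) (.nd (nat_lit 6) 
(.lf (nat_lit 246069) (.g (nat_lit 2802) (.e (nat_lit 131105) (nat_lit 9) (.e (nat_lit 336369) (nat_lit 27) (.e (nat_lit 426173) (nat_lit 7) (.e (nat_lit 409649) (nat_lit 18) (.e (nat_lit 303111) (nat_lit 0) (.e (nat_lit 3469) (nat_lit 217) (.e (nat_lit 696365) (nat_lit 20) .nil))))))) (.g (nat_lit 6) .nil .nil))) 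
(.lf (nat_lit 246133) (.g (nat_lit 1031) (.e (nat_lit 131109) (nat_lit 9) (.e (nat_lit 336019) (nat_lit 3) (.e (nat_lit 98333) (nat_lit 18) (.e (nat_lit 171776) (nat_lit 278) .nil)))) .nil))))) (.nd (nat_lit 4) (.nd (nat_lit 5) (.nd (nat_lit 6) 
(.lf (nat_lit 246029) (.g (nat_lit 1744) (.e (nat_lit 131099) (nat_lit 4) (.e (nat_lit 123182) (nat_lit 264) (.e (nat_lit 1201) (nat_lit 88) (.e (nat_lit 65630) (nat_lit 14) .nil)))) .nil)) 
(.lf (nat_lit 246093) (.g (nat_lit 2616) (.e (nat_lit 131106) (nat_lit 9) (.e (nat_lit 336369) (nat_lit 27) (.e (nat_lit 426173) (nat_lit 7) (.e (nat_lit 409649) (nat_lit 18) (.e (nat_lit 303111) (nat_lit 0) (.e (nat_lit 3468) (nat_lit 217) (.e (nat_lit 696365) (nat_lit 20) .nil))))))) (.g (nat_lit 5) .nil .nil)))) (.nd (nat_lit 6) 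
(.lf (nat_lit 246061) (.g (nat_lit 3890) (.e (nat_lit 131105) (nat_lit 9) (.e (nat_lit 336324) (nat_lit 18) (.e (nat_lit 204831) (nat_lit 18) (.e (nat_lit 57931) (nat_lit 282) .nil)))) .nil)) 
(.lf (nat_lit 246125) (.g (nat_lit 1182) (.e (nat_lit 131108) (nat_lit 9) (.e (nat_lit 336019) (nat_lit 3) (.e (nat_lit 98320) (nat_lit 17) (.e (nat_lit 7490) (nat_lit 402) .nil)))) .nil)))) (.nd (nat_lit 5) (.nd (nat_lit 6) 
(.lf (nat_lit 246045) (.g (nat_lit 2022) (.e (nat_lit 131102) (nat_lit 7) (.e (nat_lit 319534) (nat_lit 16) (.e (nat_lit 286756) (nat_lit 10) (.e (nat_lit 344160) (nat_lit 37) .nil)))) .nil)) 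
(.lf (nat_lit 246109) (.g (nat_lit 1740) (.e (nat_lit 131107) (nat_lit 9) (.e (nat_lit 336369) (nat_lit 27) (.e (nat_lit 426173) (nat_lit 7) (.e (nat_lit 409649) (nat_lit 18) (.e (nat_lit 303111) (nat_lit 0) (.e (nat_lit 2422) (nat_lit 157) (.e (nat_lit 6252) (nat_lit 337) (.e (nat_lit 7936) (nat_lit 96) .nil)))))))) (.g (nat_lit 4) .nil .nil)))) (.nd (nat_lit 6) 
(.lf (nat_lit 246077) (.g (nat_lit 1682) (.e (nat_lit 131105) (nat_lit 9) (.e (nat_lit 336443) (nat_lit 32) (.e (nat_lit 466969) (nat_lit 21) (.e (nat_lit 164332) (nat_lit 230) (.e (nat_lit 163860) (nat_lit 1) (.e (nat_lit 164220) (nat_lit 181) (.e (nat_lit 1299) (nat_lit 96) .nil))))))) (.g (nat_lit 4) .nil .nil))) 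
(.lf (nat_lit 246141) (.g (nat_lit 2173) (.e (nat_lit 131109) (nat_lit 9) (.e (nat_lit 336019) (nat_lit 3) (.e (nat_lit 98350) (nat_lit 24) (.e (nat_lit 409648) (nat_lit 18) (.e (nat_lit 303108) (nat_lit 0) .nil))))) .nil))))))) (.nd (nat_lit 2) (.nd (nat_lit 3) (.nd (nat_lit 4) (.nd (nat_lit 5) (.nd (nat_lit 6) 
(.lf (nat_lit 246019) (.g (nat_lit 4207) (.e (nat_lit 131098) (nat_lit 3) (.e (nat_lit 98373) (nat_lit 29) (.e (nat_lit 450588) (nat_lit 10) (.e (nat_lit 573495) (nat_lit 16) .nil)))) .nil)) 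
(.lf (nat_lit 246083) (.g (nat_lit 2001) (.e (nat_lit 131105) (nat_lit 9) (.e (nat_lit 336443) (nat_lit 32) (.e (nat_lit 466972) (nat_lit 21) (.e (nat_lit 164332) (nat_lit 230) (.e (nat_lit 163846) (nat_lit 0) .nil))))) .nil))) (.nd (nat_lit 6) 
(.lf (nat_lit 246051) (.g (nat_lit 2096) (.e (nat_lit 131104) (nat_lit 9) (.e (nat_lit 336369) (nat_lit 27) (.e (nat_lit 426173) (nat_lit 7) (.e (nat_lit 409649) (nat_lit 18) (.e (nat_lit 303111) (nat_lit 0) (.e (nat_lit 3468) (nat_lit 217) (.e (nat_lit 696365) (nat_lit 20) .nil))))))) (.g (nat_lit 4) .nil .nil))) 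
(.lf (nat_lit 246115) (.g (nat_lit 3043) (.e (nat_lit 131107) (nat_lit 9) (.e (nat_lit 336369) (nat_lit 27) (.e (nat_lit 426173) (nat_lit 7) (.e (nat_lit 409649) (nat_lit 18) (.e (nat_lit 303111) (nat_lit 0) (.e (nat_lit 3468) (nat_lit 217) (.e (nat_lit 696365) (nat_lit 20) .nil))))))) (.g (nat_lit 7) .nil .nil))))) (.nd (nat_lit 5) (.nd (nat_lit 6) 
(.lf (nat_lit 246035) (.g (nat_lit 734) (.e (nat_lit 131102) (nat_lit 7) (.e (nat_lit 319533) (nat_lit 16) (.e (nat_lit 286753) (nat_lit 10) .nil))) .nil)) 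
(.lf (nat_lit 246099) (.g (nat_lit 3034) (.e (nat_lit 131107) (nat_lit 9) (.e (nat_lit 336369) (nat_lit 27) (.e (nat_lit 426173) (nat_lit 7) (.e (nat_lit 409645) (nat_lit 18) (.e (nat_lit 303115) (nat_lit 1) (.e (nat_lit 164155) (nat_lit 152) (.e (nat_lit 1296) (nat_lit 96) .nil))))))) (.g (nat_lit 4) .nil .nil)))) (.nd (nat_lit 6) 
(.lf (nat_lit 246067) (.g (nat_lit 3310) (.e (nat_lit 131105) (nat_lit 9) (.e (nat_lit 336369) (nat_lit 27) (.e (nat_lit 426173) (nat_lit 7) (.e (nat_lit 409649) (nat_lit 18) (.e (nat_lit 303111) (nat_lit 0) (.e (nat_lit 3459) (nat_lit 216) (.e (nat_lit 688189) (nat_lit 20) .nil))))))) (.g (nat_lit 6) .nil .nil))) 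
(.lf (nat_lit 246131) (.g (nat_lit 3371) (.e (nat_lit 131109) (nat_lit 9) (.e (nat_lit 336000) (nat_lit 1) (.e (nat_lit 57681) (nat_lit 155) (.e (nat_lit 122919) (nat_lit 15) (.e (nat_lit 360451) (nat_lit 0) (.e (nat_lit 7125) (nat_lit 382) (.e (nat_lit 1296) (nat_lit 96) .nil))))))) (.g (nat_lit 6) .nil .nil)))))) (.nd (nat_lit 4) (.nd (nat_lit 5) (.nd (nat_lit 6) 
(.lf (nat_lit 246027) (.g (nat_lit 3454) (.e (nat_lit 139008) (nat_lit 3) (.e (nat_lit 98373) (nat_lit 29) (.e (nat_lit 450588) (nat_lit 10) (.e (nat_lit 573474) (nat_lit 12) .nil)))) .nil)) 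
(.lf (nat_lit 246091) (.g (nat_lit 2408) (.e (nat_lit 131105) (nat_lit 9) (.e (nat_lit 336456) (nat_lit 34) (.e (nat_lit 483350) (nat_lit 17) (.e (nat_lit 1996) (nat_lit 137) (.e (nat_lit 663554) (nat_lit 0) (.e (nat_lit 1304) (nat_lit 97) (.e (nat_lit 139284) (nat_lit 8) .nil))))))) (.g (nat_lit 6) .nil .nil)))) (.nd (nat_lit 6) 
(.lf (nat_lit 246059) (.g (nat_lit 1047) (.e (nat_lit 131105) (nat_lit 9) (.e (nat_lit 336324) (nat_lit 18) (.e (nat_lit 204816) (nat_lit 17) (.e (nat_lit 2099) (nat_lit 142) (.e (nat_lit 712448) (nat_lit 11) .nil))))) .nil)) 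
(.lf (nat_lit 246123) (.g (nat_lit 1362) (.e (nat_lit 131107) (nat_lit 9) (.e (nat_lit 336456) (nat_lit 34) (.e (nat_lit 483350) (nat_lit 17) (.e (nat_lit 1996) (nat_lit 137) .nil)))) .nil)))) (.nd (nat_lit 5) (.nd (nat_lit 6) 
(.lf (nat_lit 246043) (.g (nat_lit 2294) (.e (nat_lit 131102) (nat_lit 7) (.e (nat_lit 319534) (nat_lit 16) (.e (nat_lit 286756) (nat_lit 10) (.e (nat_lit 344097) (nat_lit 18) (.e (nat_lit 5194) (nat_lit 294) .nil))))) .nil)) 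
(.lf (nat_lit 246107) (.g (nat_lit 2162) (.e (nat_lit 131107) (nat_lit 9) (.e (nat_lit 336369) (nat_lit 27) (.e (nat_lit 426173) (nat_lit 7) (.e (nat_lit 409649) (nat_lit 18) (.e (nat_lit 303107) (nat_lit 0) .nil))))) .nil))) (.nd (nat_lit 6) 
(.lf (nat_lit 246075) (.g (nat_lit 918) (.e (nat_lit 131105) (nat_lit 9) (.e (nat_lit 336443) (nat_lit 32) (.e (nat_lit 466969) (nat_lit 21) (.e (nat_lit 164332) (nat_lit 230) .nil)))) .nil)) 
(.lf (nat_lit 246139) (.g (nat_lit 2876) (.e (nat_lit 131109) (nat_lit 9) (.e (nat_lit 336019) (nat_lit 3) (.e (nat_lit 98350) (nat_lit 24) (.e (nat_lit 409645) (nat_lit 18) (.e (nat_lit 303112) (nat_lit 0) .nil))))) .nil)))))) (.nd (nat_lit 3) (.nd (nat_lit 4) (.nd (nat_lit 5) (.nd (nat_lit 6) 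
(.lf (nat_lit 246023) (.g (nat_lit 2087) (.e (nat_lit 131098) (nat_lit 3) (.e (nat_lit 98389) (nat_lit 33) (.e (nat_lit 491546) (nat_lit 9) (.e (nat_lit 336028) (nat_lit 3) (.e (nat_lit 106240) (nat_lit 17) .nil))))) .nil)) 
(.lf (nat_lit 246087) (.g (nat_lit 1957) (.e (nat_lit 131105) (nat_lit 9) (.e (nat_lit 336443) (nat_lit 32) (.e (nat_lit 466972) (nat_lit 21) (.e (nat_lit 164332) (nat_lit 230) (.e (nat_lit 163860) (nat_lit 1) (.e (nat_lit 164220) (nat_lit 181) (.e (nat_lit 1299) (nat_lit 96) .nil))))))) (.g (nat_lit 4) .nil .nil)))) (.nd (nat_lit 6) 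
(.lf (nat_lit 246055) (.g (nat_lit 1814) (.e (nat_lit 131105) (nat_lit 9) (.e (nat_lit 336019) (nat_lit 3) (.e (nat_lit 98350) (nat_lit 24) (.e (nat_lit 409649) (nat_lit 18) (.e (nat_lit 303111) (nat_lit 0) .nil))))) .nil)) 
(.lf (nat_lit 246119) (.g (nat_lit 219) (.e (nat_lit 131107) (nat_lit 9) (.e (nat_lit 336421) (nat_lit 28) (.e (nat_lit 442112) (nat_lit 5) .nil))) .nil)))) (.nd (nat_lit 5) (.nd (nat_lit 6) 
(.lf (nat_lit 246039) (.g (nat_lit 2520) (.e (nat_lit 131102) (nat_lit 7) (.e (nat_lit 319534) (nat_lit 16) (.e (nat_lit 286749) (nat_lit 9) (.e (nat_lit 335997) (nat_lit 1) (.e (nat_lit 57846) (nat_lit 252) .nil))))) .nil)) 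
(.lf (nat_lit 246103) (.g (nat_lit 1049) (.e (nat_lit 131107) (nat_lit 9) (.e (nat_lit 336369) (nat_lit 27) (.e (nat_lit 426173) (nat_lit 7) (.e (nat_lit 409648) (nat_lit 18) .nil)))) .nil))) (.nd (nat_lit 6) 
(.lf (nat_lit 246071) (.g (nat_lit 1532) (.e (nat_lit 131105) (nat_lit 9) (.e (nat_lit 336443) (nat_lit 32) (.e (nat_lit 466949) (nat_lit 0) .nil))) .nil)) 
(.lf (nat_lit 246135) (.g (nat_lit 1688) (.e (nat_lit 131109) (nat_lit 9) (.e (nat_lit 336019) (nat_lit 3) (.e (nat_lit 98349) (nat_lit 24) (.e (nat_lit 409645) (nat_lit 18) (.e (nat_lit 303117) (nat_lit 2) .nil))))) .nil))))) (.nd (nat_lit 4) (.nd (nat_lit 5) (.nd (nat_lit 6) 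
(.lf (nat_lit 246031) (.g (nat_lit 1176) (.e (nat_lit 131102) (nat_lit 7) (.e (nat_lit 319531) (nat_lit 16) (.e (nat_lit 286749) (nat_lit 9) .nil))) .nil)) 
(.lf (nat_lit 246095) (.g (nat_lit 1362) (.e (nat_lit 131106) (nat_lit 9) (.e (nat_lit 336456) (nat_lit 34) (.e (nat_lit 483350) (nat_lit 17) (.e (nat_lit 1996) (nat_lit 137) .nil)))) .nil))) (.nd (nat_lit 6) 
(.lf (nat_lit 246063) (.g (nat_lit 3167) (.e (nat_lit 131105) (nat_lit 9) (.e (nat_lit 336324) (nat_lit 18) (.e (nat_lit 204835) (nat_lit 19) (.e (nat_lit 106536) (nat_lit 11) (.e (nat_lit 16412) (nat_lit 2) (.e (nat_lit 196681) (nat_lit 17) .nil)))))) (.g (nat_lit 0) .nil .nil))) 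
(.lf (nat_lit 246127) (.g (nat_lit 483) (.e (nat_lit 131108) (nat_lit 9) (.e (nat_lit 336332) (nat_lit 19) (.e (nat_lit 220928) (nat_lit 6) .nil))) .nil)))) (.nd (nat_lit 5) (.nd (nat_lit 6) 
(.lf (nat_lit 246047) (.g (nat_lit 1930) (.e (nat_lit 131102) (nat_lit 7) (.e (nat_lit 319534) (nat_lit 16) (.e (nat_lit 286756) (nat_lit 10) (.e (nat_lit 344169) (nat_lit 40) .nil)))) .nil)) 
(.lf (nat_lit 246111) (.g (nat_lit 1722) (.e (nat_lit 131107) (nat_lit 9) (.e (nat_lit 336369) (nat_lit 27) (.e (nat_lit 426173) (nat_lit 7) (.e (nat_lit 409649) (nat_lit 18) (.e (nat_lit 303111) (nat_lit 0) (.e (nat_lit 2429) (nat_lit 157) (.e (nat_lit 6349) (nat_lit 337) (.e (nat_lit 1294) (nat_lit 96) .nil)))))))) (.g (nat_lit 4) .nil .nil)))) (.nd (nat_lit 6) 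
(.lf (nat_lit 246079) (.g (nat_lit 2285) (.e (nat_lit 131105) (nat_lit 9) (.e (nat_lit 336443) (nat_lit 32) (.e (nat_lit 466972) (nat_lit 21) (.e (nat_lit 164330) (nat_lit 230) (.e (nat_lit 163846) (nat_lit 0) .nil))))) .nil)) 
(.lf (nat_lit 246143) (.g (nat_lit 2420) (.e (nat_lit 131109) (nat_lit 9) (.e (nat_lit 336019) (nat_lit 3) (.e (nat_lit 98350) (nat_lit 24) (.e (nat_lit 409649) (nat_lit 18) (.e (nat_lit 303121) (nat_lit 5) (.e (nat_lit 245794) (nat_lit 17) .nil)))))) (.g (nat_lit 4) .nil .nil))))))))))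

noncomputable def tv3198 : DT := (.nd (nat_lit 0) (.nd (nat_lit 1) (.nd (nat_lit 2) (.nd (nat_lit 3) (.nd (nat_lit 4) (.nd (nat_lit 5) (.nd (nat_lit 6) 
(.lf (nat_lit 246144) (.g (nat_lit 1842) (.e (nat_lit 131109) (nat_lit 9) (.e (nat_lit 336019) (nat_lit 3) (.e (nat_lit 98350) (nat_lit 24) (.e (nat_lit 417536) (nat_lit 18) .nil)))) .nil)) 
(.lf (nat_lit 246208) (.g (nat_lit 632) (.e (nat_lit 131116) (nat_lit 9) (.e (nat_lit 335986) (nat_lit 1) (.e (nat_lit 57680) (nat_lit 155) .nil))) .nil))) (.nd (nat_lit 6) 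
(.lf (nat_lit 246176) (.g (nat_lit 1400) (.e (nat_lit 131109) (nat_lit 9) (.e (nat_lit 336443) (nat_lit 32) (.e (nat_lit 466969) (nat_lit 21) (.e (nat_lit 164332) (nat_lit 230) (.e (nat_lit 163847) (nat_lit 0) .nil))))) .nil)) 
(.lf (nat_lit 246240) (.g (nat_lit 3309) (.e (nat_lit 131116) (nat_lit 9) (.e (nat_lit 335988) (nat_lit 1) (.e (nat_lit 57680) (nat_lit 155) (.e (nat_lit 122919) (nat_lit 15) (.e (nat_lit 360451) (nat_lit 0) (.e (nat_lit 7124) (nat_lit 382) (.e (nat_lit 7936) (nat_lit 96) .nil))))))) (.g (nat_lit 6) .nil .nil))))) (.nd (nat_lit 5) (.nd (nat_lit 6) 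
(.lf (nat_lit 246160) (.g (nat_lit 2207) (.e (nat_lit 131109) (nat_lit 9) (.e (nat_lit 336369) (nat_lit 27) (.e (nat_lit 426173) (nat_lit 7) (.e (nat_lit 409649) (nat_lit 18) (.e (nat_lit 303107) (nat_lit 0) .nil))))) .nil)) 
(.lf (nat_lit 246224) (.g (nat_lit 875) (.e (nat_lit 131116) (nat_lit 9) (.e (nat_lit 335986) (nat_lit 1) (.e (nat_lit 57871) (nat_lit 264) (.e (nat_lit 1219) (nat_lit 90) .nil)))) .nil))) (.nd (nat_lit 6) 
(.lf (nat_lit 246192) (.g (nat_lit 1847) (.e (nat_lit 131109) (nat_lit 9) (.e (nat_lit 336443) (nat_lit 32) (.e (nat_lit 466972) (nat_lit 21) (.e (nat_lit 164332) (nat_lit 230) (.e (nat_lit 163843) (nat_lit 0) .nil))))) .nil)) 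
(.lf (nat_lit 246256) (.g (nat_lit 3224) (.e (nat_lit 131116) (nat_lit 9) (.e (nat_lit 335988) (nat_lit 1) (.e (nat_lit 57870) (nat_lit 264) (.e (nat_lit 1199) (nat_lit 88) (.e (nat_lit 65610) (nat_lit 10) (.e (nat_lit 344169) (nat_lit 40) (.e (nat_lit 671766) (nat_lit 8) .nil))))))) (.g (nat_lit 7) .nil .nil)))))) (.nd (nat_lit 4) (.nd (nat_lit 5) (.nd (nat_lit 6) 
(.lf (nat_lit 246152) (.g (nat_lit 2997) (.e (nat_lit 131109) (nat_lit 9) (.e (nat_lit 336019) (nat_lit 3) (.e (nat_lit 98387) (nat_lit 33) (.e (nat_lit 491566) (nat_lit 12) (.e (nat_lit 385075) (nat_lit 32) (.e (nat_lit 581673) (nat_lit 17) .nil)))))) (.g (nat_lit 4) .nil .nil))) 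
(.lf (nat_lit 246216) (.g (nat_lit 2421) (.e (nat_lit 131116) (nat_lit 9) (.e (nat_lit 335986) (nat_lit 1) (.e (nat_lit 57847) (nat_lit 252) (.e (nat_lit 57365) (nat_lit 1) (.e (nat_lit 57854) (nat_lit 252) .nil))))) .nil))) (.nd (nat_lit 6) 
(.lf (nat_lit 246184) (.g (nat_lit 2142) (.e (nat_lit 131109) (nat_lit 9) (.e (nat_lit 336443) (nat_lit 32) (.e (nat_lit 466972) (nat_lit 21) (.e (nat_lit 164329) (nat_lit 230) (.e (nat_lit 163850) (nat_lit 0) (.e (nat_lit 3613) (nat_lit 226) (.e (nat_lit 770076) (nat_lit 12) .nil))))))) (.g (nat_lit 4) .nil .nil))) 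
(.lf (nat_lit 246248) (.g (nat_lit 3380) (.e (nat_lit 131116) (nat_lit 9) (.e (nat_lit 335988) (nat_lit 1) (.e (nat_lit 57854) (nat_lit 252) (.e (nat_lit 57366) (nat_lit 1) (.e (nat_lit 57852) (nat_lit 252) (.e (nat_lit 57421) (nat_lit 13) (.e (nat_lit 344144) (nat_lit 31) (.e (nat_lit 598043) (nat_lit 12) .nil)))))))) (.g (nat_lit 8) .nil .nil))))) (.nd (nat_lit 5) (.nd (nat_lit 6) 
(.lf (nat_lit 246168) (.g (nat_lit 1943) (.e (nat_lit 131109) (nat_lit 9) (.e (nat_lit 336443) (nat_lit 32) (.e (nat_lit 466969) (nat_lit 21) (.e (nat_lit 164325) (nat_lit 230) (.e (nat_lit 163844) (nat_lit 0) (.e (nat_lit 3615) (nat_lit 226) (.e (nat_lit 770076) (nat_lit 12) .nil))))))) (.g (nat_lit 4) .nil .nil))) 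
(.lf (nat_lit 246232) (.g (nat_lit 1072) (.e (nat_lit 131116) (nat_lit 9) (.e (nat_lit 335986) (nat_lit 1) (.e (nat_lit 57873) (nat_lit 264) (.e (nat_lit 1219) (nat_lit 90) .nil)))) .nil))) (.nd (nat_lit 6) 
(.lf (nat_lit 246200) (.g (nat_lit 2262) (.e (nat_lit 131109) (nat_lit 9) (.e (nat_lit 336456) (nat_lit 34) (.e (nat_lit 483350) (nat_lit 17) (.e (nat_lit 1996) (nat_lit 137) (.e (nat_lit 663554) (nat_lit 0) (.e (nat_lit 1304) (nat_lit 97) (.e (nat_lit 139284) (nat_lit 8) .nil))))))) (.g (nat_lit 5) .nil .nil))) 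
(.lf (nat_lit 246264) (.g (nat_lit 1250) (.e (nat_lit 131116) (nat_lit 9) (.e (nat_lit 335988) (nat_lit 1) (.e (nat_lit 57870) (nat_lit 264) (.e (nat_lit 1221) (nat_lit 90) .nil)))) .nil)))))) (.nd (nat_lit 3) (.nd (nat_lit 4) (.nd (nat_lit 5) (.nd (nat_lit 6) 
(.lf (nat_lit 246148) (.g (nat_lit 2581) (.e (nat_lit 131109) (nat_lit 9) (.e (nat_lit 336019) (nat_lit 3) (.e (nat_lit 98387) (nat_lit 33) (.e (nat_lit 491566) (nat_lit 12) (.e (nat_lit 385043) (nat_lit 21) .nil))))) .nil)) 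
(.lf (nat_lit 246212) (.g (nat_lit 2387) (.e (nat_lit 131116) (nat_lit 9) (.e (nat_lit 335986) (nat_lit 1) (.e (nat_lit 57684) (nat_lit 155) (.e (nat_lit 122919) (nat_lit 15) (.e (nat_lit 360451) (nat_lit 0) (.e (nat_lit 7124) (nat_lit 382) (.e (nat_lit 7936) (nat_lit 96) .nil))))))) (.g (nat_lit 5) .nil .nil)))) (.nd (nat_lit 6) 
(.lf (nat_lit 246180) (.g (nat_lit 1459) (.e (nat_lit 131109) (nat_lit 9) (.e (nat_lit 336443) (nat_lit 32) (.e (nat_lit 466971) (nat_lit 21) (.e (nat_lit 164325) (nat_lit 230) (.e (nat_lit 163844) (nat_lit 0) .nil))))) .nil)) 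
(.lf (nat_lit 246244) (.g (nat_lit 872) (.e (nat_lit 131116) (nat_lit 9) (.e (nat_lit 335988) (nat_lit 1) (.e (nat_lit 57832) (nat_lit 250) (.e (nat_lit 7936) (nat_lit 166) .nil)))) .nil)))) (.nd (nat_lit 5) (.nd (nat_lit 6) 
(.lf (nat_lit 246164) (.g (nat_lit 1533) (.e (nat_lit 131109) (nat_lit 9) (.e (nat_lit 336443) (nat_lit 32) (.e (nat_lit 466949) (nat_lit 0) .nil))) .nil)) 
(.lf (nat_lit 246228) (.g (nat_lit 2476) (.e (nat_lit 131116) (nat_lit 9) (.e (nat_lit 335986) (nat_lit 1) (.e (nat_lit 57873) (nat_lit 264) (.e (nat_lit 1199) (nat_lit 88) (.e (nat_lit 65610) (nat_lit 10) (.e (nat_lit 344168) (nat_lit 40) (.e (nat_lit 671766) (nat_lit 8) .nil))))))) (.g (nat_lit 6) .nil .nil)))) (.nd (nat_lit 6) 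
(.lf (nat_lit 246196) (.g (nat_lit 1629) (.e (nat_lit 131109) (nat_lit 9) (.e (nat_lit 336443) (nat_lit 32) (.e (nat_lit 466972) (nat_lit 21) (.e (nat_lit 164332) (nat_lit 230) (.e (nat_lit 171776) (nat_lit 62) .nil))))) .nil)) 
(.lf (nat_lit 246260) (.g (nat_lit 3014) (.e (nat_lit 131116) (nat_lit 9) (.e (nat_lit 335988) (nat_lit 1) (.e (nat_lit 57870) (nat_lit 264) (.e (nat_lit 1200) (nat_lit 88) (.e (nat_lit 65619) (nat_lit 10) (.e (nat_lit 344169) (nat_lit 40) (.e (nat_lit 671766) (nat_lit 8) .nil))))))) (.g (nat_lit 6) .nil .nil)))))) (.nd (nat_lit 4) (.nd (nat_lit 5) (.nd (nat_lit 6) 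
(.lf (nat_lit 246156) (.g (nat_lit 780) (.e (nat_lit 131109) (nat_lit 9) (.e (nat_lit 336316) (nat_lit 17) (.e (nat_lit 196677) (nat_lit 16) (.e (nat_lit 122960) (nat_lit 46) .nil)))) .nil)) 
(.lf (nat_lit 246220) (.g (nat_lit 632) (.e (nat_lit 131116) (nat_lit 9) (.e (nat_lit 335986) (nat_lit 1) (.e (nat_lit 57871) (nat_lit 264) .nil))) .nil))) (.nd (nat_lit 6) 
(.lf (nat_lit 246188) (.g (nat_lit 2167) (.e (nat_lit 131109) (nat_lit 9) (.e (nat_lit 336443) (nat_lit 32) (.e (nat_lit 466972) (nat_lit 21) (.e (nat_lit 164330) (nat_lit 230) (.e (nat_lit 171776) (nat_lit 62) .nil))))) .nil)) 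
(.lf (nat_lit 246252) (.g (nat_lit 1608) (.e (nat_lit 131116) (nat_lit 9) (.e (nat_lit 335988) (nat_lit 1) (.e (nat_lit 57870) (nat_lit 264) (.e (nat_lit 1189) (nat_lit 88) (.e (nat_lit 65624) (nat_lit 12) .nil))))) .nil)))) (.nd (nat_lit 5) (.nd (nat_lit 6) 
(.lf (nat_lit 246172) (.g (nat_lit 914) (.e (nat_lit 131109) (nat_lit 9) (.e (nat_lit 336443) (nat_lit 32) (.e (nat_lit 466969) (nat_lit 21) (.e (nat_lit 164332) (nat_lit 230) .nil)))) .nil)) 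
(.lf (nat_lit 246236) (.g (nat_lit 673) (.e (nat_lit 131116) (nat_lit 9) (.e (nat_lit 335986) (nat_lit 1) (.e (nat_lit 57920) (nat_lit 279) (.e (nat_lit 8305) (nat_lit 58) .nil)))) .nil))) (.nd (nat_lit 6) 
(.lf (nat_lit 246204) (.g (nat_lit 2133) (.e (nat_lit 131110) (nat_lit 9) (.e (nat_lit 336013) (nat_lit 2) (.e (nat_lit 90165) (nat_lit 12) (.e (nat_lit 171776) (nat_lit 187) .nil)))) .nil)) 
(.lf (nat_lit 246268) (.g (nat_lit 1189) (.e (nat_lit 131116) (nat_lit 9) (.e (nat_lit 335988) (nat_lit 1) (.e (nat_lit 57927) (nat_lit 282) (.e (nat_lit 163947) (nat_lit 20) .nil)))) .nil))))))) (.nd (nat_lit 2) (.nd (nat_lit 3) (.nd (nat_lit 4) (.nd (nat_lit 5) (.nd (nat_lit 6) 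
(.lf (nat_lit 246146) (.g (nat_lit 2794) (.e (nat_lit 131109) (nat_lit 9) (.e (nat_lit 336019) (nat_lit 3) (.e (nat_lit 98384) (nat_lit 32) (.e (nat_lit 475199) (nat_lit 40) (.e (nat_lit 704590) (nat_lit 3) (.e (nat_lit 163975) (nat_lit 30) (.e (nat_lit 573497) (nat_lit 17) .nil))))))) (.g (nat_lit 5) .nil .nil))) 
(.lf (nat_lit 246210) (.g (nat_lit 4153) (.e (nat_lit 131116) (nat_lit 9) (.e (nat_lit 335986) (nat_lit 1) (.e (nat_lit 57681) (nat_lit 155) (.e (nat_lit 122919) (nat_lit 15) (.e (nat_lit 360451) (nat_lit 0) (.e (nat_lit 7124) (nat_lit 382) (.e (nat_lit 7936) (nat_lit 96) .nil))))))) (.g (nat_lit 6) .nil .nil)))) (.nd (nat_lit 6) 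
(.lf (nat_lit 246178) (.g (nat_lit 2087) (.e (nat_lit 131109) (nat_lit 9) (.e (nat_lit 336443) (nat_lit 32) (.e (nat_lit 466969) (nat_lit 21) (.e (nat_lit 164332) (nat_lit 230) (.e (nat_lit 163850) (nat_lit 0) (.e (nat_lit 3613) (nat_lit 226) (.e (nat_lit 770076) (nat_lit 12) .nil))))))) (.g (nat_lit 4) .nil .nil))) 
(.lf (nat_lit 246242) (.g (nat_lit 3358) (.e (nat_lit 131116) (nat_lit 9) (.e (nat_lit 335988) (nat_lit 1) (.e (nat_lit 57830) (nat_lit 250) (.e (nat_lit 7936) (nat_lit 172) (.e (nat_lit 237612) (nat_lit 9) (.e (nat_lit 426100) (nat_lit 1) (.e (nat_lit 164305) (nat_lit 226) (.e (nat_lit 7936) (nat_lit 96) .nil)))))))) (.g (nat_lit 7) .nil .nil))))) (.nd (nat_lit 5) (.nd (nat_lit 6) 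
(.lf (nat_lit 246162) (.g (nat_lit 2754) (.e (nat_lit 131109) (nat_lit 9) (.e (nat_lit 336369) (nat_lit 27) (.e (nat_lit 426173) (nat_lit 7) (.e (nat_lit 409649) (nat_lit 18) (.e (nat_lit 303111) (nat_lit 0) (.e (nat_lit 3469) (nat_lit 217) (.e (nat_lit 696365) (nat_lit 20) .nil))))))) (.g (nat_lit 6) .nil .nil))) 
(.lf (nat_lit 246226) (.g (nat_lit 468) (.e (nat_lit 131116) (nat_lit 9) (.e (nat_lit 335986) (nat_lit 1) (.e (nat_lit 57873) (nat_lit 264) .nil))) .nil))) (.nd (nat_lit 6) 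
(.lf (nat_lit 246194) (.g (nat_lit 1890) (.e (nat_lit 131109) (nat_lit 9) (.e (nat_lit 336443) (nat_lit 32) (.e (nat_lit 466972) (nat_lit 21) (.e (nat_lit 164332) (nat_lit 230) (.e (nat_lit 163850) (nat_lit 0) .nil))))) .nil)) 
(.lf (nat_lit 246258) (.g (nat_lit 1246) (.e (nat_lit 131116) (nat_lit 9) (.e (nat_lit 335988) (nat_lit 1) (.e (nat_lit 57870) (nat_lit 264) (.e (nat_lit 1200) (nat_lit 88) .nil)))) .nil))))) (.nd (nat_lit 4) (.nd (nat_lit 5) (.nd (nat_lit 6) 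
(.lf (nat_lit 246154) (.g (nat_lit 1582) (.e (nat_lit 131109) (nat_lit 9) (.e (nat_lit 336019) (nat_lit 3) (.e (nat_lit 98389) (nat_lit 33) (.e (nat_lit 491544) (nat_lit 7) (.e (nat_lit 319519) (nat_lit 12) (.e (nat_lit 32791) (nat_lit 13) .nil)))))) (.g (nat_lit 4) .nil .nil))) 
(.lf (nat_lit 246218) (.g (nat_lit 3744) (.e (nat_lit 131116) (nat_lit 9) (.e (nat_lit 335986) (nat_lit 1) (.e (nat_lit 57847) (nat_lit 252) (.e (nat_lit 57368) (nat_lit 1) (.e (nat_lit 57852) (nat_lit 252) (.e (nat_lit 57421) (nat_lit 13) (.e (nat_lit 344144) (nat_lit 31) (.e (nat_lit 598043) (nat_lit 12) .nil)))))))) (.g (nat_lit 6) .nil .nil)))) (.nd (nat_lit 6) 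
(.lf (nat_lit 246186) (.g (nat_lit 2279) (.e (nat_lit 131109) (nat_lit 9) (.e (nat_lit 336443) (nat_lit 32) (.e (nat_lit 466972) (nat_lit 21) (.e (nat_lit 164330) (nat_lit 230) (.e (nat_lit 163846) (nat_lit 0) .nil))))) .nil)) 
(.lf (nat_lit 246250) (.g (nat_lit 2885) (.e (nat_lit 131116) (nat_lit 9) (.e (nat_lit 335988) (nat_lit 1) (.e (nat_lit 57870) (nat_lit 264) (.e (nat_lit 1189) (nat_lit 88) (.e (nat_lit 65619) (nat_lit 10) (.e (nat_lit 344168) (nat_lit 40) (.e (nat_lit 671766) (nat_lit 8) .nil))))))) (.g (nat_lit 6) .nil .nil))))) (.nd (nat_lit 5) (.nd (nat_lit 6) 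
(.lf (nat_lit 246170) (.g (nat_lit 2032) (.e (nat_lit 131109) (nat_lit 9) (.e (nat_lit 336443) (nat_lit 32) (.e (nat_lit 466969) (nat_lit 21) (.e (nat_lit 164330) (nat_lit 230) (.e (nat_lit 163846) (nat_lit 0) .nil))))) .nil)) 
(.lf (nat_lit 246234) (.g (nat_lit 2012) (.e (nat_lit 131116) (nat_lit 9) (.e (nat_lit 335986) (nat_lit 1) (.e (nat_lit 57873) (nat_lit 264) (.e (nat_lit 1219) (nat_lit 90) (.e (nat_lit 81921) (nat_lit 0) (.e (nat_lit 3711) (nat_lit 227) (.e (nat_lit 786176) (nat_lit 8) .nil))))))) (.g (nat_lit 6) .nil .nil)))) (.nd (nat_lit 6) 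
(.lf (nat_lit 246202) (.g (nat_lit 814) (.e (nat_lit 131109) (nat_lit 9) (.e (nat_lit 336456) (nat_lit 34) (.e (nat_lit 483362) (nat_lit 18) .nil))) .nil)) 
(.lf (nat_lit 246266) (.g (nat_lit 749) (.e (nat_lit 131116) (nat_lit 9) (.e (nat_lit 335988) (nat_lit 1) (.e (nat_lit 57920) (nat_lit 279) .nil))) .nil)))))) (.nd (nat_lit 3) (.nd (nat_lit 4) (.nd (nat_lit 5) (.nd (nat_lit 6) 
(.lf (nat_lit 246150) (.g (nat_lit 2539) (.e (nat_lit 131109) (nat_lit 9) (.e (nat_lit 336019) (nat_lit 3) (.e (nat_lit 98387) (nat_lit 33) (.e (nat_lit 491566) (nat_lit 12) (.e (nat_lit 385046) (nat_lit 21) (.e (nat_lit 4185) (nat_lit 251) (.e (nat_lit 1296) (nat_lit 96) .nil))))))) (.g (nat_lit 4) .nil .nil))) 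
(.lf (nat_lit 246214) (.g (nat_lit 632) (.e (nat_lit 131116) (nat_lit 9) (.e (nat_lit 335986) (nat_lit 1) (.e (nat_lit 57832) (nat_lit 250) .nil))) .nil))) (.nd (nat_lit 6) 
(.lf (nat_lit 246182) (.g (nat_lit 1454) (.e (nat_lit 131109) (nat_lit 9) (.e (nat_lit 336443) (nat_lit 32) (.e (nat_lit 466971) (nat_lit 21) (.e (nat_lit 164325) (nat_lit 230) (.e (nat_lit 163861) (nat_lit 1) .nil))))) .nil)) 
(.lf (nat_lit 246246) (.g (nat_lit 2042) (.e (nat_lit 131116) (nat_lit 9) (.e (nat_lit 335988) (nat_lit 1) (.e (nat_lit 57854) (nat_lit 252) (.e (nat_lit 57364) (nat_lit 1) (.e (nat_lit 57851) (nat_lit 252) (.e (nat_lit 57421) (nat_lit 13) (.e (nat_lit 344144) (nat_lit 31) (.e (nat_lit 598043) (nat_lit 12) .nil)))))))) (.g (nat_lit 5) .nil .nil))))) (.nd (nat_lit 5) (.nd (nat_lit 6) 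
(.lf (nat_lit 246166) (.g (nat_lit 2047) (.e (nat_lit 131109) (nat_lit 9) (.e (nat_lit 336443) (nat_lit 32) (.e (nat_lit 466969) (nat_lit 21) (.e (nat_lit 164305) (nat_lit 226) (.e (nat_lit 2612) (nat_lit 163) (.e (nat_lit 164032) (nat_lit 54) (.e (nat_lit 770076) (nat_lit 12) .nil))))))) (.g (nat_lit 4) .nil .nil))) 
(.lf (nat_lit 246230) (.g (nat_lit 2713) (.e (nat_lit 131116) (nat_lit 9) (.e (nat_lit 335986) (nat_lit 1) (.e (nat_lit 57873) (nat_lit 264) (.e (nat_lit 1200) (nat_lit 88) (.e (nat_lit 65619) (nat_lit 10) (.e (nat_lit 344168) (nat_lit 40) (.e (nat_lit 671766) (nat_lit 8) .nil))))))) (.g (nat_lit 6) .nil .nil)))) (.nd (nat_lit 6) 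
(.lf (nat_lit 246198) (.g (nat_lit 3770) (.e (nat_lit 131109) (nat_lit 9) (.e (nat_lit 336454) (nat_lit 34) (.e (nat_lit 483365) (nat_lit 18) (.e (nat_lit 57873) (nat_lit 264) .nil)))) .nil)) 
(.lf (nat_lit 246262) (.g (nat_lit 1749) (.e (nat_lit 131116) (nat_lit 9) (.e (nat_lit 335988) (nat_lit 1) (.e (nat_lit 57870) (nat_lit 264) (.e (nat_lit 1219) (nat_lit 90) (.e (nat_lit 81921) (nat_lit 0) .nil))))) .nil))))) (.nd (nat_lit 4) (.nd (nat_lit 5) (.nd (nat_lit 6) 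
(.lf (nat_lit 246158) (.g (nat_lit 2685) (.e (nat_lit 131109) (nat_lit 9) (.e (nat_lit 336324) (nat_lit 18) (.e (nat_lit 204835) (nat_lit 19) (.e (nat_lit 106536) (nat_lit 11) (.e (nat_lit 16411) (nat_lit 2) (.e (nat_lit 196681) (nat_lit 17) .nil)))))) (.g (nat_lit 0) .nil .nil))) 
(.lf (nat_lit 246222) (.g (nat_lit 2416) (.e (nat_lit 131116) (nat_lit 9) (.e (nat_lit 335986) (nat_lit 1) (.e (nat_lit 57871) (nat_lit 264) (.e (nat_lit 1200) (nat_lit 88) (.e (nat_lit 65619) (nat_lit 10) (.e (nat_lit 344168) (nat_lit 40) (.e (nat_lit 671766) (nat_lit 8) .nil))))))) (.g (nat_lit 5) .nil .nil)))) (.nd (nat_lit 6) 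
(.lf (nat_lit 246190) (.g (nat_lit 1140) (.e (nat_lit 131109) (nat_lit 9) (.e (nat_lit 336443) (nat_lit 32) (.e (nat_lit 466972) (nat_lit 21) (.e (nat_lit 164332) (nat_lit 230) .nil)))) .nil)) 
(.lf (nat_lit 246254) (.g (nat_lit 3175) (.e (nat_lit 131116) (nat_lit 9) (.e (nat_lit 335988) (nat_lit 1) (.e (nat_lit 57870) (nat_lit 264) (.e (nat_lit 1190) (nat_lit 88) (.e (nat_lit 65619) (nat_lit 10) (.e (nat_lit 344169) (nat_lit 40) (.e (nat_lit 671766) (nat_lit 8) .nil))))))) (.g (nat_lit 6) .nil .nil))))) (.nd (nat_lit 5) (.nd (nat_lit 6) 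
(.lf (nat_lit 246174) (.g (nat_lit 1653) (.e (nat_lit 131109) (nat_lit 9) (.e (nat_lit 336443) (nat_lit 32) (.e (nat_lit 466969) (nat_lit 21) (.e (nat_lit 164332) (nat_lit 230) (.e (nat_lit 163843) (nat_lit 0) .nil))))) .nil)) 
(.lf (nat_lit 246238) (.g (nat_lit 519) (.e (nat_lit 131116) (nat_lit 9) (.e (nat_lit 335988) (nat_lit 1) (.e (nat_lit 57665) (nat_lit 152) .nil))) .nil))) (.nd (nat_lit 6) 
(.lf (nat_lit 246206) (.g (nat_lit 1632) (.e (nat_lit 131115) (nat_lit 9) (.e (nat_lit 335995) (nat_lit 1) (.e (nat_lit 57872) (nat_lit 264) (.e (nat_lit 1221) (nat_lit 90) .nil)))) .nil)) 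
(.lf (nat_lit 246270) (.g (nat_lit 1245) (.e (nat_lit 131116) (nat_lit 9) (.e (nat_lit 335995) (nat_lit 1) (.e (nat_lit 57870) (nat_lit 264) (.e (nat_lit 1199) (nat_lit 88) .nil)))) .nil)))))))) (.nd (nat_lit 1) (.nd (nat_lit 2) (.nd (nat_lit 3) (.nd (nat_lit 4) (.nd (nat_lit 5) (.nd (nat_lit 6) 
(.lf (nat_lit 246145) (.g (nat_lit 3327) (.e (nat_lit 131109) (nat_lit 9) (.e (nat_lit 336019) (nat_lit 3) (.e (nat_lit 98384) (nat_lit 32) (.e (nat_lit 475199) (nat_lit 40) (.e (nat_lit 704590) (nat_lit 3) (.e (nat_lit 163975) (nat_lit 30) (.e (nat_lit 573496) (nat_lit 17) .nil))))))) (.g (nat_lit 6) .nil .nil))) 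
(.lf (nat_lit 246209) (.g (nat_lit 1513) (.e (nat_lit 131116) (nat_lit 9) (.e (nat_lit 335986) (nat_lit 1) (.e (nat_lit 57681) (nat_lit 155) (.e (nat_lit 122919) (nat_lit 15) .nil)))) .nil))) (.nd (nat_lit 6) 
(.lf (nat_lit 246177) (.g (nat_lit 1698) (.e (nat_lit 131109) (nat_lit 9) (.e (nat_lit 336443) (nat_lit 32) (.e (nat_lit 466969) (nat_lit 21) (.e (nat_lit 164332) (nat_lit 230) (.e (nat_lit 163850) (nat_lit 0) .nil))))) .nil)) 
(.lf (nat_lit 246241) (.g (nat_lit 1394) (.e (nat_lit 131116) (nat_lit 9) (.e (nat_lit 335988) (nat_lit 1) (.e (nat_lit 57830) (nat_lit 250) (.e (nat_lit 7936) (nat_lit 166) .nil)))) .nil)))) (.nd (nat_lit 5) (.nd (nat_lit 6) 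
(.lf (nat_lit 246161) (.g (nat_lit 3249) (.e (nat_lit 131109) (nat_lit 9) (.e (nat_lit 336369) (nat_lit 27) (.e (nat_lit 426173) (nat_lit 7) (.e (nat_lit 409649) (nat_lit 18) (.e (nat_lit 303111) (nat_lit 0) (.e (nat_lit 3459) (nat_lit 216) (.e (nat_lit 688189) (nat_lit 20) .nil))))))) (.g (nat_lit 6) .nil .nil))) 
(.lf (nat_lit 246225) (.g (nat_lit 632) (.e (nat_lit 131116) (nat_lit 9) (.e (nat_lit 335986) (nat_lit 1) (.e (nat_lit 57872) (nat_lit 264) .nil))) .nil))) (.nd (nat_lit 6) 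
(.lf (nat_lit 246193) (.g (nat_lit 2370) (.e (nat_lit 131109) (nat_lit 9) (.e (nat_lit 336443) (nat_lit 32) (.e (nat_lit 466972) (nat_lit 21) (.e (nat_lit 164332) (nat_lit 230) (.e (nat_lit 163846) (nat_lit 0) (.e (nat_lit 2400) (nat_lit 157) (.e (nat_lit 7236) (nat_lit 382) (.e (nat_lit 1294) (nat_lit 96) .nil)))))))) (.g (nat_lit 4) .nil .nil))) 
(.lf (nat_lit 246257) (.g (nat_lit 3061) (.e (nat_lit 131116) (nat_lit 9) (.e (nat_lit 335988) (nat_lit 1) (.e (nat_lit 57870) (nat_lit 264) (.e (nat_lit 1199) (nat_lit 88) (.e (nat_lit 65617) (nat_lit 10) (.e (nat_lit 344169) (nat_lit 40) (.e (nat_lit 671766) (nat_lit 8) .nil))))))) (.g (nat_lit 6) .nil .nil)))))) (.nd (nat_lit 4) (.nd (nat_lit 5) (.nd (nat_lit 6) 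
(.lf (nat_lit 246153) (.g (nat_lit 438) (.e (nat_lit 131109) (nat_lit 9) (.e (nat_lit 336019) (nat_lit 3) (.e (nat_lit 98388) (nat_lit 33) .nil))) .nil)) 
(.lf (nat_lit 246217) (.g (nat_lit 1769) (.e (nat_lit 131116) (nat_lit 9) (.e (nat_lit 335986) (nat_lit 1) (.e (nat_lit 57847) (nat_lit 252) (.e (nat_lit 57368) (nat_lit 1) .nil)))) .nil))) (.nd (nat_lit 6) 
(.lf (nat_lit 246185) (.g (nat_lit 2532) (.e (nat_lit 131109) (nat_lit 9) (.e (nat_lit 336443) (nat_lit 32) (.e (nat_lit 466972) (nat_lit 21) (.e (nat_lit 164330) (nat_lit 230) (.e (nat_lit 163841) (nat_lit 0) .nil))))) .nil)) 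
(.lf (nat_lit 246249) (.g (nat_lit 777) (.e (nat_lit 131116) (nat_lit 9) (.e (nat_lit 335988) (nat_lit 1) (.e (nat_lit 57870) (nat_lit 264) .nil))) .nil)))) (.nd (nat_lit 5) (.nd (nat_lit 6) 
(.lf (nat_lit 246169) (.g (nat_lit 1518) (.e (nat_lit 131109) (nat_lit 9) (.e (nat_lit 336443) (nat_lit 32) (.e (nat_lit 466969) (nat_lit 21) (.e (nat_lit 164329) (nat_lit 230) (.e (nat_lit 163850) (nat_lit 0) .nil))))) .nil)) 
(.lf (nat_lit 246233) (.g (nat_lit 1671) (.e (nat_lit 131116) (nat_lit 9) (.e (nat_lit 335986) (nat_lit 1) (.e (nat_lit 57873) (nat_lit 264) (.e (nat_lit 1219) (nat_lit 90) (.e (nat_lit 81920) (nat_lit 0) .nil))))) .nil))) (.nd (nat_lit 6) 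
(.lf (nat_lit 246201) (.g (nat_lit 1425) (.e (nat_lit 131109) (nat_lit 9) (.e (nat_lit 336456) (nat_lit 34) (.e (nat_lit 483350) (nat_lit 17) (.e (nat_lit 1998) (nat_lit 137) .nil)))) .nil)) 
(.lf (nat_lit 246265) (.g (nat_lit 678) (.e (nat_lit 131116) (nat_lit 9) (.e (nat_lit 335988) (nat_lit 1) (.e (nat_lit 65280) (nat_lit 267) .nil))) .nil)))))) (.nd (nat_lit 3) (.nd (nat_lit 4) (.nd (nat_lit 5) (.nd (nat_lit 6) 
(.lf (nat_lit 246149) (.g (nat_lit 2363) (.e (nat_lit 131109) (nat_lit 9) (.e (nat_lit 336019) (nat_lit 3) (.e (nat_lit 98387) (nat_lit 33) (.e (nat_lit 491566) (nat_lit 12) (.e (nat_lit 385045) (nat_lit 21) .nil))))) .nil)) 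
(.lf (nat_lit 246213) (.g (nat_lit 641) (.e (nat_lit 131116) (nat_lit 9) (.e (nat_lit 335986) (nat_lit 1) (.e (nat_lit 57825) (nat_lit 250) .nil))) .nil))) (.nd (nat_lit 6) 
(.lf (nat_lit 246181) (.g (nat_lit 1789) (.e (nat_lit 131109) (nat_lit 9) (.e (nat_lit 336443) (nat_lit 32) (.e (nat_lit 466971) (nat_lit 21) (.e (nat_lit 164325) (nat_lit 230) (.e (nat_lit 163844) (nat_lit 0) (.e (nat_lit 3616) (nat_lit 226) (.e (nat_lit 770076) (nat_lit 12) .nil))))))) (.g (nat_lit 4) .nil .nil))) 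
(.lf (nat_lit 246245) (.g (nat_lit 2622) (.e (nat_lit 131116) (nat_lit 9) (.e (nat_lit 335988) (nat_lit 1) (.e (nat_lit 57832) (nat_lit 250) (.e (nat_lit 7936) (nat_lit 172) (.e (nat_lit 237612) (nat_lit 9) (.e (nat_lit 426100) (nat_lit 1) (.e (nat_lit 164307) (nat_lit 226) (.e (nat_lit 7936) (nat_lit 96) .nil)))))))) (.g (nat_lit 7) .nil .nil))))) (.nd (nat_lit 5) (.nd (nat_lit 6) 
(.lf (nat_lit 246165) (.g (nat_lit 228) (.e (nat_lit 131109) (nat_lit 9) (.e (nat_lit 336443) (nat_lit 32) (.e (nat_lit 466969) (nat_lit 21) .nil))) .nil)) 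
(.lf (nat_lit 246229) (.g (nat_lit 2012) (.e (nat_lit 131116) (nat_lit 9) (.e (nat_lit 335986) (nat_lit 1) (.e (nat_lit 57873) (nat_lit 264) (.e (nat_lit 1199) (nat_lit 88) (.e (nat_lit 65617) (nat_lit 10) (.e (nat_lit 344168) (nat_lit 40) (.e (nat_lit 671766) (nat_lit 8) .nil))))))) (.g (nat_lit 5) .nil .nil)))) (.nd (nat_lit 6) 
(.lf (nat_lit 246197) (.g (nat_lit 2021) (.e (nat_lit 131109) (nat_lit 9) (.e (nat_lit 336454) (nat_lit 34) (.e (nat_lit 483363) (nat_lit 18) (.e (nat_lit 57929) (nat_lit 282) .nil)))) .nil)) 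
(.lf (nat_lit 246261) (.g (nat_lit 1271) (.e (nat_lit 131116) (nat_lit 9) (.e (nat_lit 335988) (nat_lit 1) (.e (nat_lit 57870) (nat_lit 264) (.e (nat_lit 1219) (nat_lit 90) .nil)))) .nil))))) (.nd (nat_lit 4) (.nd (nat_lit 5) (.nd (nat_lit 6) 
(.lf (nat_lit 246157) (.g (nat_lit 3882) (.e (nat_lit 131109) (nat_lit 9) (.e (nat_lit 336324) (nat_lit 18) (.e (nat_lit 204831) (nat_lit 18) (.e (nat_lit 57931) (nat_lit 282) .nil)))) .nil)) 
(.lf (nat_lit 246221) (.g (nat_lit 1893) (.e (nat_lit 131116) (nat_lit 9) (.e (nat_lit 335986) (nat_lit 1) (.e (nat_lit 57871) (nat_lit 264) (.e (nat_lit 1199) (nat_lit 88) (.e (nat_lit 65610) (nat_lit 10) (.e (nat_lit 344168) (nat_lit 40) (.e (nat_lit 671766) (nat_lit 8) .nil))))))) (.g (nat_lit 5) .nil .nil)))) (.nd (nat_lit 6) 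
(.lf (nat_lit 246189) (.g (nat_lit 1116) (.e (nat_lit 131109) (nat_lit 9) (.e (nat_lit 336443) (nat_lit 32) (.e (nat_lit 466972) (nat_lit 21) (.e (nat_lit 164331) (nat_lit 230) .nil)))) .nil)) 
(.lf (nat_lit 246253) (.g (nat_lit 3197) (.e (nat_lit 131116) (nat_lit 9) (.e (nat_lit 335988) (nat_lit 1) (.e (nat_lit 57870) (nat_lit 264) (.e (nat_lit 1190) (nat_lit 88) (.e (nat_lit 65619) (nat_lit 10) (.e (nat_lit 344168) (nat_lit 40) (.e (nat_lit 671766) (nat_lit 8) .nil))))))) (.g (nat_lit 6) .nil .nil))))) (.nd (nat_lit 5) (.nd (nat_lit 6) 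
(.lf (nat_lit 246173) (.g (nat_lit 2017) (.e (nat_lit 131109) (nat_lit 9) (.e (nat_lit 336443) (nat_lit 32) (.e (nat_lit 466969) (nat_lit 21) (.e (nat_lit 164332) (nat_lit 230) (.e (nat_lit 163842) (nat_lit 0) (.e (nat_lit 3608) (nat_lit 226) (.e (nat_lit 770076) (nat_lit 12) .nil))))))) (.g (nat_lit 4) .nil .nil))) 
(.lf (nat_lit 246237) (.g (nat_lit 1008) (.e (nat_lit 131116) (nat_lit 9) (.e (nat_lit 335986) (nat_lit 1) (.e (nat_lit 57927) (nat_lit 282) .nil))) .nil))) (.nd (nat_lit 6) 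
(.lf (nat_lit 246205) (.g (nat_lit 934) (.e (nat_lit 131115) (nat_lit 9) (.e (nat_lit 335995) (nat_lit 1) (.e (nat_lit 57872) (nat_lit 264) .nil))) .nil)) 
(.lf (nat_lit 246269) (.g (nat_lit 1811) (.e (nat_lit 131116) (nat_lit 9) (.e (nat_lit 335995) (nat_lit 1) (.e (nat_lit 57681) (nat_lit 155) (.e (nat_lit 122919) (nat_lit 15) .nil)))) .nil))))))) (.nd (nat_lit 2) (.nd (nat_lit 3) (.nd (nat_lit 4) (.nd (nat_lit 5) (.nd (nat_lit 6) 
(.lf (nat_lit 246147) (.g (nat_lit 761) (.e (nat_lit 131109) (nat_lit 9) (.e (nat_lit 336019) (nat_lit 3) (.e (nat_lit 98387) (nat_lit 33) .nil))) .nil)) 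
(.lf (nat_lit 246211) (.g (nat_lit 712) (.e (nat_lit 131116) (nat_lit 9) (.e (nat_lit 335986) (nat_lit 1) (.e (nat_lit 57684) (nat_lit 155) (.e (nat_lit 122916) (nat_lit 14) .nil)))) .nil))) (.nd (nat_lit 6) 
(.lf (nat_lit 246179) (.g (nat_lit 1684) (.e (nat_lit 131109) (nat_lit 9) (.e (nat_lit 336443) (nat_lit 32) (.e (nat_lit 466969) (nat_lit 21) (.e (nat_lit 164332) (nat_lit 230) (.e (nat_lit 163860) (nat_lit 1) (.e (nat_lit 164220) (nat_lit 181) (.e (nat_lit 1293) (nat_lit 96) .nil))))))) (.g (nat_lit 4) .nil .nil))) 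
(.lf (nat_lit 246243) (.g (nat_lit 2990) (.e (nat_lit 131116) (nat_lit 9) (.e (nat_lit 335988) (nat_lit 1) (.e (nat_lit 57830) (nat_lit 250) (.e (nat_lit 7936) (nat_lit 172) (.e (nat_lit 237612) (nat_lit 9) (.e (nat_lit 426100) (nat_lit 1) (.e (nat_lit 164307) (nat_lit 226) (.e (nat_lit 7936) (nat_lit 96) .nil)))))))) (.g (nat_lit 7) .nil .nil))))) (.nd (nat_lit 5) (.nd (nat_lit 6) 
(.lf (nat_lit 246163) (.g (nat_lit 1653) (.e (nat_lit 131109) (nat_lit 9) (.e (nat_lit 336443) (nat_lit 32) (.e (nat_lit 466944) (nat_lit 0) .nil))) .nil)) 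
(.lf (nat_lit 246227) (.g (nat_lit 1236) (.e (nat_lit 131116) (nat_lit 9) (.e (nat_lit 335986) (nat_lit 1) (.e (nat_lit 57873) (nat_lit 264) (.e (nat_lit 1189) (nat_lit 88) .nil)))) .nil))) (.nd (nat_lit 6) 
(.lf (nat_lit 246195) (.g (nat_lit 1950) (.e (nat_lit 131109) (nat_lit 9) (.e (nat_lit 336443) (nat_lit 32) (.e (nat_lit 466972) (nat_lit 21) (.e (nat_lit 164332) (nat_lit 230) (.e (nat_lit 163860) (nat_lit 1) (.e (nat_lit 164220) (nat_lit 181) (.e (nat_lit 1293) (nat_lit 96) .nil))))))) (.g (nat_lit 4) .nil .nil))) 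
(.lf (nat_lit 246259) (.g (nat_lit 3052) (.e (nat_lit 131116) (nat_lit 9) (.e (nat_lit 335988) (nat_lit 1) (.e (nat_lit 57870) (nat_lit 264) (.e (nat_lit 1200) (nat_lit 88) (.e (nat_lit 65619) (nat_lit 10) (.e (nat_lit 344168) (nat_lit 40) (.e (nat_lit 671766) (nat_lit 8) .nil))))))) (.g (nat_lit 6) .nil .nil)))))) (.nd (nat_lit 4) (.nd (nat_lit 5) (.nd (nat_lit 6) 
(.lf (nat_lit 246155) (.g (nat_lit 1296) (.e (nat_lit 131109) (nat_lit 9) (.e (nat_lit 336240) (nat_lit 15) (.e (nat_lit 3309) (nat_lit 202) (.e (nat_lit 573479) (nat_lit 13) .nil)))) .nil)) 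
(.lf (nat_lit 246219) (.g (nat_lit 632) (.e (nat_lit 131116) (nat_lit 9) (.e (nat_lit 335986) (nat_lit 1) (.e (nat_lit 57870) (nat_lit 264) .nil))) .nil))) (.nd (nat_lit 6) 
(.lf (nat_lit 246187) (.g (nat_lit 2589) (.e (nat_lit 131109) (nat_lit 9) (.e (nat_lit 336443) (nat_lit 32) (.e (nat_lit 466972) (nat_lit 21) (.e (nat_lit 164330) (nat_lit 230) (.e (nat_lit 163850) (nat_lit 0) .nil))))) .nil)) 
(.lf (nat_lit 246251) (.g (nat_lit 2821) (.e (nat_lit 131116) (nat_lit 9) (.e (nat_lit 335988) (nat_lit 1) (.e (nat_lit 57870) (nat_lit 264) (.e (nat_lit 1189) (nat_lit 88) (.e (nat_lit 65619) (nat_lit 10) (.e (nat_lit 344169) (nat_lit 40) (.e (nat_lit 671766) (nat_lit 8) .nil))))))) (.g (nat_lit 6) .nil .nil))))) (.nd (nat_lit 5) (.nd (nat_lit 6) 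
(.lf (nat_lit 246171) (.g (nat_lit 2262) (.e (nat_lit 131109) (nat_lit 9) (.e (nat_lit 336443) (nat_lit 32) (.e (nat_lit 466969) (nat_lit 21) (.e (nat_lit 164330) (nat_lit 230) (.e (nat_lit 163850) (nat_lit 0) .nil))))) .nil)) 
(.lf (nat_lit 246235) (.g (nat_lit 1887) (.e (nat_lit 131116) (nat_lit 9) (.e (nat_lit 335986) (nat_lit 1) (.e (nat_lit 57873) (nat_lit 264) (.e (nat_lit 1219) (nat_lit 90) (.e (nat_lit 81921) (nat_lit 0) (.e (nat_lit 3714) (nat_lit 227) (.e (nat_lit 786176) (nat_lit 8) .nil))))))) (.g (nat_lit 6) .nil .nil)))) (.nd (nat_lit 6) 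
(.lf (nat_lit 246203) (.g (nat_lit 416) (.e (nat_lit 131109) (nat_lit 9) (.e (nat_lit 336456) (nat_lit 34) (.e (nat_lit 483365) (nat_lit 18) .nil))) .nil)) 
(.lf (nat_lit 246267) (.g (nat_lit 2226) (.e (nat_lit 131116) (nat_lit 9) (.e (nat_lit 335988) (nat_lit 1) (.e (nat_lit 57926) (nat_lit 282) (.e (nat_lit 163947) (nat_lit 20) (.e (nat_lit 491560) (nat_lit 10) (.e (nat_lit 344168) (nat_lit 40) (.e (nat_lit 671766) (nat_lit 8) .nil))))))) (.g (nat_lit 5) .nil .nil))))))) (.nd (nat_lit 3) (.nd (nat_lit 4) (.nd (nat_lit 5) (.nd (nat_lit 6) 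
(.lf (nat_lit 246151) (.g (nat_lit 3322) (.e (nat_lit 131109) (nat_lit 9) (.e (nat_lit 336019) (nat_lit 3) (.e (nat_lit 98387) (nat_lit 33) (.e (nat_lit 491566) (nat_lit 12) (.e (nat_lit 385053) (nat_lit 21) .nil))))) .nil)) 
(.lf (nat_lit 246215) (.g (nat_lit 3358) (.e (nat_lit 131116) (nat_lit 9) (.e (nat_lit 335986) (nat_lit 1) (.e (nat_lit 57847) (nat_lit 252) (.e (nat_lit 57365) (nat_lit 1) (.e (nat_lit 57851) (nat_lit 252) (.e (nat_lit 57421) (nat_lit 13) (.e (nat_lit 344144) (nat_lit 31) (.e (nat_lit 598043) (nat_lit 12) .nil)))))))) (.g (nat_lit 6) .nil .nil)))) (.nd (nat_lit 6) 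
(.lf (nat_lit 246183) (.g (nat_lit 1732) (.e (nat_lit 131109) (nat_lit 9) (.e (nat_lit 336443) (nat_lit 32) (.e (nat_lit 466972) (nat_lit 21) (.e (nat_lit 164329) (nat_lit 230) (.e (nat_lit 163850) (nat_lit 0) .nil))))) .nil)) 
(.lf (nat_lit 246247) (.g (nat_lit 3343) (.e (nat_lit 131116) (nat_lit 9) (.e (nat_lit 335988) (nat_lit 1) (.e (nat_lit 57854) (nat_lit 252) (.e (nat_lit 57364) (nat_lit 1) (.e (nat_lit 57852) (nat_lit 252) (.e (nat_lit 57421) (nat_lit 13) (.e (nat_lit 344144) (nat_lit 31) (.e (nat_lit 598043) (nat_lit 12) .nil)))))))) (.g (nat_lit 8) .nil .nil))))) (.nd (nat_lit 5) (.nd (nat_lit 6) 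
(.lf (nat_lit 246167) (.g (nat_lit 1784) (.e (nat_lit 131109) (nat_lit 9) (.e (nat_lit 336443) (nat_lit 32) (.e (nat_lit 466969) (nat_lit 21) (.e (nat_lit 164325) (nat_lit 230) (.e (nat_lit 163841) (nat_lit 0) .nil))))) .nil)) 
(.lf (nat_lit 246231) (.g (nat_lit 2685) (.e (nat_lit 131116) (nat_lit 9) (.e (nat_lit 335986) (nat_lit 1) (.e (nat_lit 57873) (nat_lit 264) (.e (nat_lit 1200) (nat_lit 88) (.e (nat_lit 65619) (nat_lit 10) (.e (nat_lit 344169) (nat_lit 40) (.e (nat_lit 671766) (nat_lit 8) .nil))))))) (.g (nat_lit 6) .nil .nil)))) (.nd (nat_lit 6) 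
(.lf (nat_lit 246199) (.g (nat_lit 1583) (.e (nat_lit 131109) (nat_lit 9) (.e (nat_lit 336456) (nat_lit 34) (.e (nat_lit 483350) (nat_lit 17) (.e (nat_lit 1994) (nat_lit 137) (.e (nat_lit 663554) (nat_lit 0) .nil))))) .nil)) 
(.lf (nat_lit 246263) (.g (nat_lit 1253) (.e (nat_lit 131116) (nat_lit 9) (.e (nat_lit 335988) (nat_lit 1) (.e (nat_lit 57870) (nat_lit 264) (.e (nat_lit 1220) (nat_lit 90) .nil)))) .nil))))) (.nd (nat_lit 4) (.nd (nat_lit 5) (.nd (nat_lit 6) 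
(.lf (nat_lit 246159) (.g (nat_lit 1252) (.e (nat_lit 131109) (nat_lit 9) (.e (nat_lit 336369) (nat_lit 27) (.e (nat_lit 426173) (nat_lit 7) (.e (nat_lit 409648) (nat_lit 18) .nil)))) .nil)) 
(.lf (nat_lit 246223) (.g (nat_lit 2376) (.e (nat_lit 131116) (nat_lit 9) (.e (nat_lit 335986) (nat_lit 1) (.e (nat_lit 57871) (nat_lit 264) (.e (nat_lit 1200) (nat_lit 88) (.e (nat_lit 65619) (nat_lit 10) (.e (nat_lit 344169) (nat_lit 40) (.e (nat_lit 671766) (nat_lit 8) .nil))))))) (.g (nat_lit 5) .nil .nil)))) (.nd (nat_lit 6) 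
(.lf (nat_lit 246191) (.g (nat_lit 2180) (.e (nat_lit 131109) (nat_lit 9) (.e (nat_lit 336443) (nat_lit 32) (.e (nat_lit 466972) (nat_lit 21) (.e (nat_lit 164332) (nat_lit 230) (.e (nat_lit 163842) (nat_lit 0) (.e (nat_lit 3608) (nat_lit 226) (.e (nat_lit 770076) (nat_lit 12) .nil))))))) (.g (nat_lit 4) .nil .nil))) 
(.lf (nat_lit 246255) (.g (nat_lit 2963) (.e (nat_lit 131116) (nat_lit 9) (.e (nat_lit 335988) (nat_lit 1) (.e (nat_lit 57870) (nat_lit 264) (.e (nat_lit 1199) (nat_lit 88) (.e (nat_lit 65610) (nat_lit 10) (.e (nat_lit 344168) (nat_lit 40) (.e (nat_lit 671766) (nat_lit 8) .nil))))))) (.g (nat_lit 7) .nil .nil))))) (.nd (nat_lit 5) (.nd (nat_lit 6) 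
(.lf (nat_lit 246175) (.g (nat_lit 2193) (.e (nat_lit 131109) (nat_lit 9) (.e (nat_lit 336443) (nat_lit 32) (.e (nat_lit 466969) (nat_lit 21) (.e (nat_lit 164332) (nat_lit 230) (.e (nat_lit 163846) (nat_lit 0) (.e (nat_lit 2400) (nat_lit 157) (.e (nat_lit 7236) (nat_lit 382) (.e (nat_lit 1294) (nat_lit 96) .nil)))))))) (.g (nat_lit 4) .nil .nil))) 
(.lf (nat_lit 246239) (.g (nat_lit 823) (.e (nat_lit 131116) (nat_lit 9) (.e (nat_lit 335988) (nat_lit 1) (.e (nat_lit 57680) (nat_lit 155) .nil))) .nil))) (.nd (nat_lit 6) 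
(.lf (nat_lit 246207) (.g (nat_lit 480) (.e (nat_lit 131116) (nat_lit 9) (.e (nat_lit 335986) (nat_lit 1) (.e (nat_lit 57655) (nat_lit 152) .nil))) .nil)) 
(.lf (nat_lit 246271) (.g (nat_lit 813) (.e (nat_lit 131116) (nat_lit 9) (.e (nat_lit 335995) (nat_lit 1) (.e (nat_lit 57872) (nat_lit 264) .nil))) .nil)))))))))

noncomputable def tv3199 : DT := (.nd (nat_lit 0) (.nd (nat_lit 1) (.nd (nat_lit 2) (.nd (nat_lit 3) (.nd (nat_lit 4) (.nd (nat_lit 5) (.nd (nat_lit 6) 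
(.lf (nat_lit 246272) (.g (nat_lit 1316) (.e (nat_lit 131116) (nat_lit 9) (.e (nat_lit 335995) (nat_lit 1) (.e (nat_lit 57872) (nat_lit 264) (.e (nat_lit 1190) (nat_lit 88) .nil)))) .nil)) 
(.lf (nat_lit 246336) (.g (nat_lit 973) (.e (nat_lit 131116) (nat_lit 9) (.e (nat_lit 336012) (nat_lit 2) (.e (nat_lit 90181) (nat_lit 16) (.e (nat_lit 237312) (nat_lit 192) .nil)))) .nil))) (.nd (nat_lit 6) 
(.lf (nat_lit 246304) (.g (nat_lit 1803) (.e (nat_lit 131116) (nat_lit 9) (.e (nat_lit 336004) (nat_lit 2) (.e (nat_lit 90174) (nat_lit 14) (.e (nat_lit 180260) (nat_lit 18) (.e (nat_lit 639011) (nat_lit 13) .nil))))) .nil)) 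
(.lf (nat_lit 246368) (.g (nat_lit 1782) (.e (nat_lit 131116) (nat_lit 9) (.e (nat_lit 336021) (nat_lit 3) (.e (nat_lit 98385) (nat_lit 32) (.e (nat_lit 475214) (nat_lit 42) (.e (nat_lit 720920) (nat_lit 20) .nil))))) .nil)))) (.nd (nat_lit 5) (.nd (nat_lit 6) 
(.lf (nat_lit 246288) (.g (nat_lit 1119) (.e (nat_lit 131116) (nat_lit 9) (.e (nat_lit 336003) (nat_lit 2) (.e (nat_lit 90185) (nat_lit 17) (.e (nat_lit 237585) (nat_lit 1) .nil)))) .nil)) 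
(.lf (nat_lit 246352) (.g (nat_lit 1567) (.e (nat_lit 131116) (nat_lit 9) (.e (nat_lit 336021) (nat_lit 3) (.e (nat_lit 98365) (nat_lit 26) (.e (nat_lit 426098) (nat_lit 1) .nil)))) .nil))) (.nd (nat_lit 6) 
(.lf (nat_lit 246320) (.g (nat_lit 2138) (.e (nat_lit 131116) (nat_lit 9) (.e (nat_lit 336012) (nat_lit 2) (.e (nat_lit 90172) (nat_lit 14) (.e (nat_lit 180229) (nat_lit 0) (.e (nat_lit 5069) (nat_lit 292) .nil))))) .nil)) 
(.lf (nat_lit 246384) (.g (nat_lit 1215) (.e (nat_lit 131119) (nat_lit 12) (.e (nat_lit 385105) (nat_lit 50) (.e (nat_lit 786478) (nat_lit 29) (.e (nat_lit 352318) (nat_lit 24) .nil)))) .nil))))) (.nd (nat_lit 4) (.nd (nat_lit 5) (.nd (nat_lit 6) 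
(.lf (nat_lit 246280) (.g (nat_lit 2387) (.e (nat_lit 131116) (nat_lit 9) (.e (nat_lit 335996) (nat_lit 1) (.e (nat_lit 57870) (nat_lit 264) (.e (nat_lit 1189) (nat_lit 88) (.e (nat_lit 65619) (nat_lit 10) (.e (nat_lit 344168) (nat_lit 40) (.e (nat_lit 671766) (nat_lit 8) .nil))))))) (.g (nat_lit 4) .nil .nil))) 
(.lf (nat_lit 246344) (.g (nat_lit 953) (.e (nat_lit 131116) (nat_lit 9) (.e (nat_lit 336021) (nat_lit 3) (.e (nat_lit 98350) (nat_lit 24) .nil))) .nil))) (.nd (nat_lit 6) 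
(.lf (nat_lit 246312) (.g (nat_lit 1733) (.e (nat_lit 131116) (nat_lit 9) (.e (nat_lit 336004) (nat_lit 2) (.e (nat_lit 90185) (nat_lit 17) (.e (nat_lit 237585) (nat_lit 1) (.e (nat_lit 164297) (nat_lit 226) .nil))))) .nil)) 
(.lf (nat_lit 246376) (.g (nat_lit 1988) (.e (nat_lit 131116) (nat_lit 9) (.e (nat_lit 336021) (nat_lit 3) (.e (nat_lit 98389) (nat_lit 33) (.e (nat_lit 491560) (nat_lit 10) (.e (nat_lit 344125) (nat_lit 25) .nil))))) .nil)))) (.nd (nat_lit 5) (.nd (nat_lit 6) 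
(.lf (nat_lit 246296) (.g (nat_lit 1920) (.e (nat_lit 131116) (nat_lit 9) (.e (nat_lit 336004) (nat_lit 2) (.e (nat_lit 90172) (nat_lit 14) (.e (nat_lit 180259) (nat_lit 17) (.e (nat_lit 630807) (nat_lit 13) (.e (nat_lit 1239) (nat_lit 91) (.e (nat_lit 98048) (nat_lit 8) .nil))))))) (.g (nat_lit 4) .nil .nil))) 
(.lf (nat_lit 246360) (.g (nat_lit 1152) (.e (nat_lit 131116) (nat_lit 9) (.e (nat_lit 336021) (nat_lit 3) (.e (nat_lit 98367) (nat_lit 27) .nil))) .nil))) (.nd (nat_lit 6) 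
(.lf (nat_lit 246328) (.g (nat_lit 2376) (.e (nat_lit 131116) (nat_lit 9) (.e (nat_lit 336012) (nat_lit 2) (.e (nat_lit 90174) (nat_lit 14) (.e (nat_lit 180228) (nat_lit 0) (.e (nat_lit 5045) (nat_lit 292) .nil))))) .nil)) 
(.lf (nat_lit 246392) (.g (nat_lit 1957) (.e (nat_lit 131120) (nat_lit 12) (.e (nat_lit 385066) (nat_lit 26) (.e (nat_lit 532506) (nat_lit 2) (.e (nat_lit 106536) (nat_lit 11) (.e (nat_lit 16410) (nat_lit 2) (.e (nat_lit 196681) (nat_lit 17) .nil)))))) (.g (nat_lit 4) .nil .nil))))))) (.nd (nat_lit 3) (.nd (nat_lit 4) (.nd (nat_lit 5) (.nd (nat_lit 6) 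
(.lf (nat_lit 246276) (.g (nat_lit 2201) (.e (nat_lit 131116) (nat_lit 9) (.e (nat_lit 335995) (nat_lit 1) (.e (nat_lit 57872) (nat_lit 264) (.e (nat_lit 1219) (nat_lit 90) (.e (nat_lit 81921) (nat_lit 0) .nil))))) .nil)) 
(.lf (nat_lit 246340) (.g (nat_lit 976) (.e (nat_lit 131116) (nat_lit 9) (.e (nat_lit 336021) (nat_lit 3) (.e (nat_lit 98319) (nat_lit 17) .nil))) .nil))) (.nd (nat_lit 6) 
(.lf (nat_lit 246308) (.g (nat_lit 1836) (.e (nat_lit 131116) (nat_lit 9) (.e (nat_lit 336004) (nat_lit 2) (.e (nat_lit 90185) (nat_lit 17) (.e (nat_lit 237573) (nat_lit 0) .nil)))) .nil)) 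
(.lf (nat_lit 246372) (.g (nat_lit 2067) (.e (nat_lit 131116) (nat_lit 9) (.e (nat_lit 336021) (nat_lit 3) (.e (nat_lit 98388) (nat_lit 33) (.e (nat_lit 491566) (nat_lit 12) (.e (nat_lit 385072) (nat_lit 31) .nil))))) .nil)))) (.nd (nat_lit 5) (.nd (nat_lit 6) 
(.lf (nat_lit 246292) (.g (nat_lit 1451) (.e (nat_lit 131116) (nat_lit 9) (.e (nat_lit 336004) (nat_lit 2) (.e (nat_lit 90172) (nat_lit 14) (.e (nat_lit 180225) (nat_lit 0) .nil)))) .nil)) 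
(.lf (nat_lit 246356) (.g (nat_lit 2972) (.e (nat_lit 131116) (nat_lit 9) (.e (nat_lit 336021) (nat_lit 3) (.e (nat_lit 98365) (nat_lit 26) (.e (nat_lit 426100) (nat_lit 1) (.e (nat_lit 164297) (nat_lit 226) (.e (nat_lit 999) (nat_lit 81) (.e (nat_lit 1239) (nat_lit 91) (.e (nat_lit 98048) (nat_lit 8) .nil)))))))) (.g (nat_lit 4) .nil .nil)))) (.nd (nat_lit 6) 
(.lf (nat_lit 246324) (.g (nat_lit 2809) (.e (nat_lit 131116) (nat_lit 9) (.e (nat_lit 336012) (nat_lit 2) (.e (nat_lit 90172) (nat_lit 14) (.e (nat_lit 180259) (nat_lit 17) (.e (nat_lit 630812) (nat_lit 13) (.e (nat_lit 1234) (nat_lit 91) (.e (nat_lit 98048) (nat_lit 8) .nil))))))) (.g (nat_lit 6) .nil .nil))) 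
(.lf (nat_lit 246388) (.g (nat_lit 2082) (.e (nat_lit 131119) (nat_lit 12) (.e (nat_lit 385106) (nat_lit 50) (.e (nat_lit 786480) (nat_lit 29) (.e (nat_lit 352318) (nat_lit 24) (.e (nat_lit 123184) (nat_lit 264) .nil))))) .nil))))) (.nd (nat_lit 4) (.nd (nat_lit 5) (.nd (nat_lit 6) 
(.lf (nat_lit 246284) (.g (nat_lit 2721) (.e (nat_lit 131116) (nat_lit 9) (.e (nat_lit 335996) (nat_lit 1) (.e (nat_lit 57870) (nat_lit 264) (.e (nat_lit 1199) (nat_lit 88) (.e (nat_lit 65610) (nat_lit 10) (.e (nat_lit 344169) (nat_lit 40) (.e (nat_lit 671766) (nat_lit 8) .nil))))))) (.g (nat_lit 5) .nil .nil))) 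
(.lf (nat_lit 246348) (.g (nat_lit 818) (.e (nat_lit 131116) (nat_lit 9) (.e (nat_lit 336021) (nat_lit 3) (.e (nat_lit 106240) (nat_lit 24) .nil))) .nil))) (.nd (nat_lit 6) 
(.lf (nat_lit 246316) (.g (nat_lit 591) (.e (nat_lit 131116) (nat_lit 9) (.e (nat_lit 336012) (nat_lit 2) (.e (nat_lit 90172) (nat_lit 14) .nil))) .nil)) 
(.lf (nat_lit 246380) (.g (nat_lit 3140) (.e (nat_lit 131117) (nat_lit 10) (.e (nat_lit 344117) (nat_lit 21) (.e (nat_lit 516139) (nat_lit 7) (.e (nat_lit 409645) (nat_lit 18) .nil)))) .nil)))) (.nd (nat_lit 5) (.nd (nat_lit 6) 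
(.lf (nat_lit 246300) (.g (nat_lit 1506) (.e (nat_lit 131116) (nat_lit 9) (.e (nat_lit 336004) (nat_lit 2) (.e (nat_lit 90172) (nat_lit 14) (.e (nat_lit 180261) (nat_lit 20) .nil)))) .nil)) 
(.lf (nat_lit 246364) (.g (nat_lit 1721) (.e (nat_lit 131116) (nat_lit 9) (.e (nat_lit 336021) (nat_lit 3) (.e (nat_lit 98385) (nat_lit 32) (.e (nat_lit 475193) (nat_lit 38) (.e (nat_lit 688145) (nat_lit 13) (.e (nat_lit 1239) (nat_lit 91) (.e (nat_lit 98048) (nat_lit 8) .nil))))))) (.g (nat_lit 4) .nil .nil)))) (.nd (nat_lit 6) 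
(.lf (nat_lit 246332) (.g (nat_lit 1840) (.e (nat_lit 131116) (nat_lit 9) (.e (nat_lit 336012) (nat_lit 2) (.e (nat_lit 90174) (nat_lit 14) (.e (nat_lit 180260) (nat_lit 18) .nil)))) .nil)) 
(.lf (nat_lit 246396) (.g (nat_lit 2553) (.e (nat_lit 131120) (nat_lit 12) (.e (nat_lit 385066) (nat_lit 26) (.e (nat_lit 532510) (nat_lit 2) (.e (nat_lit 106534) (nat_lit 11) (.e (nat_lit 16412) (nat_lit 2) (.e (nat_lit 196681) (nat_lit 17) .nil)))))) (.g (nat_lit 6) .nil .nil)))))))) (.nd (nat_lit 2) (.nd (nat_lit 3) (.nd (nat_lit 4) (.nd (nat_lit 5) (.nd (nat_lit 6) 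
(.lf (nat_lit 246274) (.g (nat_lit 1378) (.e (nat_lit 131116) (nat_lit 9) (.e (nat_lit 335995) (nat_lit 1) (.e (nat_lit 57872) (nat_lit 264) (.e (nat_lit 1219) (nat_lit 90) .nil)))) .nil)) 
(.lf (nat_lit 246338) (.g (nat_lit 1594) (.e (nat_lit 131116) (nat_lit 9) (.e (nat_lit 336012) (nat_lit 2) (.e (nat_lit 90185) (nat_lit 17) (.e (nat_lit 237585) (nat_lit 1) .nil)))) .nil))) (.nd (nat_lit 6) 
(.lf (nat_lit 246306) (.g (nat_lit 601) (.e (nat_lit 131116) (nat_lit 9) (.e (nat_lit 336004) (nat_lit 2) (.e (nat_lit 90181) (nat_lit 16) (.e (nat_lit 237312) (nat_lit 192) .nil)))) .nil)) 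
(.lf (nat_lit 246370) (.g (nat_lit 566) (.e (nat_lit 131116) (nat_lit 9) (.e (nat_lit 336021) (nat_lit 3) (.e (nat_lit 98388) (nat_lit 33) .nil))) .nil)))) (.nd (nat_lit 5) (.nd (nat_lit 6) 
(.lf (nat_lit 246290) (.g (nat_lit 512) (.e (nat_lit 131116) (nat_lit 9) (.e (nat_lit 336004) (nat_lit 2) (.e (nat_lit 90172) (nat_lit 14) .nil))) .nil)) 
(.lf (nat_lit 246354) (.g (nat_lit 1603) (.e (nat_lit 131116) (nat_lit 9) (.e (nat_lit 336021) (nat_lit 3) (.e (nat_lit 98365) (nat_lit 26) (.e (nat_lit 426099) (nat_lit 1) .nil)))) .nil))) (.nd (nat_lit 6) 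
(.lf (nat_lit 246322) (.g (nat_lit 2206) (.e (nat_lit 131116) (nat_lit 9) (.e (nat_lit 336012) (nat_lit 2) (.e (nat_lit 90172) (nat_lit 14) (.e (nat_lit 180259) (nat_lit 17) (.e (nat_lit 630807) (nat_lit 13) (.e (nat_lit 1239) (nat_lit 91) (.e (nat_lit 98048) (nat_lit 8) .nil))))))) (.g (nat_lit 4) .nil .nil))) 
(.lf (nat_lit 246386) (.g (nat_lit 1889) (.e (nat_lit 131119) (nat_lit 12) (.e (nat_lit 385105) (nat_lit 50) (.e (nat_lit 786483) (nat_lit 30) (.e (nat_lit 360457) (nat_lit 0) (.e (nat_lit 5818) (nat_lit 320) .nil))))) .nil))))) (.nd (nat_lit 4) (.nd (nat_lit 5) (.nd (nat_lit 6) 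
(.lf (nat_lit 246282) (.g (nat_lit 2697) (.e (nat_lit 131116) (nat_lit 9) (.e (nat_lit 335996) (nat_lit 1) (.e (nat_lit 57870) (nat_lit 264) (.e (nat_lit 1190) (nat_lit 88) (.e (nat_lit 65619) (nat_lit 10) (.e (nat_lit 344168) (nat_lit 40) (.e (nat_lit 671766) (nat_lit 8) .nil))))))) (.g (nat_lit 4) .nil .nil))) 
(.lf (nat_lit 246346) (.g (nat_lit 3013) (.e (nat_lit 131116) (nat_lit 9) (.e (nat_lit 336021) (nat_lit 3) (.e (nat_lit 98350) (nat_lit 24) (.e (nat_lit 409648) (nat_lit 18) (.e (nat_lit 303116) (nat_lit 2) .nil))))) .nil))) (.nd (nat_lit 6) 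
(.lf (nat_lit 246314) (.g (nat_lit 2226) (.e (nat_lit 131116) (nat_lit 9) (.e (nat_lit 336004) (nat_lit 2) (.e (nat_lit 90185) (nat_lit 17) (.e (nat_lit 237585) (nat_lit 1) (.e (nat_lit 164307) (nat_lit 226) (.e (nat_lit 7936) (nat_lit 81) (.e (nat_lit 1239) (nat_lit 91) (.e (nat_lit 98048) (nat_lit 8) .nil)))))))) (.g (nat_lit 5) .nil .nil))) 
(.lf (nat_lit 246378) (.g (nat_lit 2300) (.e (nat_lit 131116) (nat_lit 9) (.e (nat_lit 336021) (nat_lit 3) (.e (nat_lit 98389) (nat_lit 33) (.e (nat_lit 491563) (nat_lit 12) (.e (nat_lit 385074) (nat_lit 31) .nil))))) .nil)))) (.nd (nat_lit 5) (.nd (nat_lit 6) 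
(.lf (nat_lit 246298) (.g (nat_lit 2514) (.e (nat_lit 131116) (nat_lit 9) (.e (nat_lit 336004) (nat_lit 2) (.e (nat_lit 90172) (nat_lit 14) (.e (nat_lit 180259) (nat_lit 17) (.e (nat_lit 630812) (nat_lit 13) (.e (nat_lit 1234) (nat_lit 91) (.e (nat_lit 98048) (nat_lit 8) .nil))))))) (.g (nat_lit 6) .nil .nil))) 
(.lf (nat_lit 246362) (.g (nat_lit 2412) (.e (nat_lit 131116) (nat_lit 9) (.e (nat_lit 336021) (nat_lit 3) (.e (nat_lit 98384) (nat_lit 32) (.e (nat_lit 483072) (nat_lit 21) .nil)))) .nil))) (.nd (nat_lit 6) 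
(.lf (nat_lit 246330) (.g (nat_lit 2351) (.e (nat_lit 131116) (nat_lit 9) (.e (nat_lit 336012) (nat_lit 2) (.e (nat_lit 90174) (nat_lit 14) (.e (nat_lit 180228) (nat_lit 0) (.e (nat_lit 5190) (nat_lit 294) .nil))))) .nil)) 
(.lf (nat_lit 246394) (.g (nat_lit 2274) (.e (nat_lit 131120) (nat_lit 12) (.e (nat_lit 385066) (nat_lit 26) (.e (nat_lit 532508) (nat_lit 2) (.e (nat_lit 106536) (nat_lit 11) (.e (nat_lit 16410) (nat_lit 2) (.e (nat_lit 196681) (nat_lit 17) .nil)))))) (.g (nat_lit 4) .nil .nil))))))) (.nd (nat_lit 3) (.nd (nat_lit 4) (.nd (nat_lit 5) (.nd (nat_lit 6) 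
(.lf (nat_lit 246278) (.g (nat_lit 2367) (.e (nat_lit 131116) (nat_lit 9) (.e (nat_lit 335995) (nat_lit 1) (.e (nat_lit 57872) (nat_lit 264) (.e (nat_lit 1221) (nat_lit 90) (.e (nat_lit 81959) (nat_lit 24) (.e (nat_lit 123182) (nat_lit 264) (.e (nat_lit 1294) (nat_lit 96) .nil))))))) (.g (nat_lit 4) .nil .nil))) 
(.lf (nat_lit 246342) (.g (nat_lit 1152) (.e (nat_lit 131116) (nat_lit 9) (.e (nat_lit 336021) (nat_lit 3) (.e (nat_lit 98323) (nat_lit 17) .nil))) .nil))) (.nd (nat_lit 6) 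
(.lf (nat_lit 246310) (.g (nat_lit 2473) (.e (nat_lit 131116) (nat_lit 9) (.e (nat_lit 336004) (nat_lit 2) (.e (nat_lit 90185) (nat_lit 17) (.e (nat_lit 237582) (nat_lit 1) (.e (nat_lit 164305) (nat_lit 226) (.e (nat_lit 7936) (nat_lit 81) (.e (nat_lit 1239) (nat_lit 91) (.e (nat_lit 98048) (nat_lit 8) .nil)))))))) (.g (nat_lit 5) .nil .nil))) 
(.lf (nat_lit 246374) (.g (nat_lit 946) (.e (nat_lit 131116) (nat_lit 9) (.e (nat_lit 336021) (nat_lit 3) (.e (nat_lit 98389) (nat_lit 33) (.e (nat_lit 491544) (nat_lit 7) .nil)))) .nil)))) (.nd (nat_lit 5) (.nd (nat_lit 6) 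
(.lf (nat_lit 246294) (.g (nat_lit 1853) (.e (nat_lit 131116) (nat_lit 9) (.e (nat_lit 336004) (nat_lit 2) (.e (nat_lit 90172) (nat_lit 14) (.e (nat_lit 180229) (nat_lit 0) (.e (nat_lit 5069) (nat_lit 292) .nil))))) .nil)) 
(.lf (nat_lit 246358) (.g (nat_lit 3405) (.e (nat_lit 131116) (nat_lit 9) (.e (nat_lit 336021) (nat_lit 3) (.e (nat_lit 98365) (nat_lit 26) (.e (nat_lit 426100) (nat_lit 1) (.e (nat_lit 164307) (nat_lit 226) (.e (nat_lit 7936) (nat_lit 81) (.e (nat_lit 1239) (nat_lit 91) (.e (nat_lit 98048) (nat_lit 8) .nil)))))))) (.g (nat_lit 5) .nil .nil)))) (.nd (nat_lit 6) 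
(.lf (nat_lit 246326) (.g (nat_lit 1760) (.e (nat_lit 131116) (nat_lit 9) (.e (nat_lit 336012) (nat_lit 2) (.e (nat_lit 90172) (nat_lit 14) (.e (nat_lit 180261) (nat_lit 20) .nil)))) .nil)) 
(.lf (nat_lit 246390) (.g (nat_lit 1601) (.e (nat_lit 131119) (nat_lit 12) (.e (nat_lit 385106) (nat_lit 50) (.e (nat_lit 786481) (nat_lit 30) (.e (nat_lit 360456) (nat_lit 0) (.e (nat_lit 5818) (nat_lit 320) .nil))))) .nil))))) (.nd (nat_lit 4) (.nd (nat_lit 5) (.nd (nat_lit 6) 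
(.lf (nat_lit 246286) (.g (nat_lit 1840) (.e (nat_lit 131116) (nat_lit 9) (.e (nat_lit 335996) (nat_lit 1) (.e (nat_lit 57870) (nat_lit 264) (.e (nat_lit 1219) (nat_lit 90) .nil)))) .nil)) 
(.lf (nat_lit 246350) (.g (nat_lit 1969) (.e (nat_lit 131116) (nat_lit 9) (.e (nat_lit 336021) (nat_lit 3) (.e (nat_lit 98353) (nat_lit 25) (.e (nat_lit 417820) (nat_lit 10) (.e (nat_lit 5756) (nat_lit 315) .nil))))) .nil))) (.nd (nat_lit 6) 
(.lf (nat_lit 246318) (.g (nat_lit 1609) (.e (nat_lit 131116) (nat_lit 9) (.e (nat_lit 336012) (nat_lit 2) (.e (nat_lit 90172) (nat_lit 14) (.e (nat_lit 180229) (nat_lit 0) .nil)))) .nil)) 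
(.lf (nat_lit 246382) (.g (nat_lit 1131) (.e (nat_lit 131117) (nat_lit 10) (.e (nat_lit 344133) (nat_lit 26) (.e (nat_lit 557087) (nat_lit 11) .nil))) .nil)))) (.nd (nat_lit 5) (.nd (nat_lit 6) 
(.lf (nat_lit 246302) (.g (nat_lit 1456) (.e (nat_lit 131116) (nat_lit 9) (.e (nat_lit 336004) (nat_lit 2) (.e (nat_lit 90174) (nat_lit 14) (.e (nat_lit 188160) (nat_lit 0) .nil)))) .nil)) 
(.lf (nat_lit 246366) (.g (nat_lit 1726) (.e (nat_lit 131116) (nat_lit 9) (.e (nat_lit 336021) (nat_lit 3) (.e (nat_lit 98385) (nat_lit 32) (.e (nat_lit 475212) (nat_lit 42) (.e (nat_lit 720920) (nat_lit 20) (.e (nat_lit 1855) (nat_lit 124) (.e (nat_lit 564992) (nat_lit 8) .nil))))))) (.g (nat_lit 4) .nil .nil)))) (.nd (nat_lit 6) 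
(.lf (nat_lit 246334) (.g (nat_lit 2903) (.e (nat_lit 131116) (nat_lit 9) (.e (nat_lit 336012) (nat_lit 2) (.e (nat_lit 90174) (nat_lit 14) (.e (nat_lit 180260) (nat_lit 18) (.e (nat_lit 639011) (nat_lit 13) (.e (nat_lit 1234) (nat_lit 91) (.e (nat_lit 98048) (nat_lit 8) .nil))))))) (.g (nat_lit 6) .nil .nil))) 
(.lf (nat_lit 246398) (.g (nat_lit 2523) (.e (nat_lit 131120) (nat_lit 12) (.e (nat_lit 385066) (nat_lit 26) (.e (nat_lit 532511) (nat_lit 2) (.e (nat_lit 106534) (nat_lit 11) (.e (nat_lit 16412) (nat_lit 2) (.e (nat_lit 196681) (nat_lit 17) .nil)))))) (.g (nat_lit 6) .nil .nil))))))))) (.nd (nat_lit 1) (.nd (nat_lit 2) (.nd (nat_lit 3) (.nd (nat_lit 4) (.nd (nat_lit 5) (.nd (nat_lit 6) 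
(.lf (nat_lit 246273) (.g (nat_lit 1792) (.e (nat_lit 131116) (nat_lit 9) (.e (nat_lit 335995) (nat_lit 1) (.e (nat_lit 57872) (nat_lit 264) (.e (nat_lit 1199) (nat_lit 88) (.e (nat_lit 65617) (nat_lit 10) .nil))))) .nil)) 
(.lf (nat_lit 246337) (.g (nat_lit 1801) (.e (nat_lit 131116) (nat_lit 9) (.e (nat_lit 336012) (nat_lit 2) (.e (nat_lit 90185) (nat_lit 17) (.e (nat_lit 237582) (nat_lit 1) .nil)))) .nil))) (.nd (nat_lit 6) 
(.lf (nat_lit 246305) (.g (nat_lit 397) (.e (nat_lit 131116) (nat_lit 9) (.e (nat_lit 336004) (nat_lit 2) (.e (nat_lit 90181) (nat_lit 16) .nil))) .nil)) 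
(.lf (nat_lit 246369) (.g (nat_lit 2005) (.e (nat_lit 131116) (nat_lit 9) (.e (nat_lit 336021) (nat_lit 3) (.e (nat_lit 98386) (nat_lit 32) (.e (nat_lit 483072) (nat_lit 21) .nil)))) .nil)))) (.nd (nat_lit 5) (.nd (nat_lit 6) 
(.lf (nat_lit 246289) (.g (nat_lit 1568) (.e (nat_lit 131116) (nat_lit 9) (.e (nat_lit 336004) (nat_lit 2) (.e (nat_lit 90128) (nat_lit 9) (.e (nat_lit 3095) (nat_lit 192) .nil)))) .nil)) 
(.lf (nat_lit 246353) (.g (nat_lit 2767) (.e (nat_lit 131116) (nat_lit 9) (.e (nat_lit 336021) (nat_lit 3) (.e (nat_lit 98365) (nat_lit 26) (.e (nat_lit 426098) (nat_lit 1) (.e (nat_lit 164298) (nat_lit 226) (.e (nat_lit 974) (nat_lit 81) (.e (nat_lit 1239) (nat_lit 91) (.e (nat_lit 98048) (nat_lit 8) .nil)))))))) (.g (nat_lit 4) .nil .nil)))) (.nd (nat_lit 6) 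
(.lf (nat_lit 246321) (.g (nat_lit 2138) (.e (nat_lit 131116) (nat_lit 9) (.e (nat_lit 336012) (nat_lit 2) (.e (nat_lit 90172) (nat_lit 14) (.e (nat_lit 180229) (nat_lit 0) (.e (nat_lit 5190) (nat_lit 294) .nil))))) .nil)) 
(.lf (nat_lit 246385) (.g (nat_lit 1893) (.e (nat_lit 131119) (nat_lit 12) (.e (nat_lit 385105) (nat_lit 50) (.e (nat_lit 786480) (nat_lit 29) (.e (nat_lit 352318) (nat_lit 24) (.e (nat_lit 123184) (nat_lit 264) .nil))))) .nil))))) (.nd (nat_lit 4) (.nd (nat_lit 5) (.nd (nat_lit 6) 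
(.lf (nat_lit 246281) (.g (nat_lit 2325) (.e (nat_lit 131116) (nat_lit 9) (.e (nat_lit 335996) (nat_lit 1) (.e (nat_lit 57870) (nat_lit 264) (.e (nat_lit 1189) (nat_lit 88) (.e (nat_lit 65619) (nat_lit 10) (.e (nat_lit 344169) (nat_lit 40) (.e (nat_lit 671766) (nat_lit 8) .nil))))))) (.g (nat_lit 4) .nil .nil))) 
(.lf (nat_lit 246345) (.g (nat_lit 1889) (.e (nat_lit 131116) (nat_lit 9) (.e (nat_lit 336021) (nat_lit 3) (.e (nat_lit 98350) (nat_lit 24) (.e (nat_lit 409648) (nat_lit 18) .nil)))) .nil))) (.nd (nat_lit 6) 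
(.lf (nat_lit 246313) (.g (nat_lit 2564) (.e (nat_lit 131116) (nat_lit 9) (.e (nat_lit 336004) (nat_lit 2) (.e (nat_lit 90185) (nat_lit 17) (.e (nat_lit 237585) (nat_lit 1) (.e (nat_lit 164305) (nat_lit 226) (.e (nat_lit 7936) (nat_lit 81) (.e (nat_lit 1239) (nat_lit 91) (.e (nat_lit 98048) (nat_lit 8) .nil)))))))) (.g (nat_lit 5) .nil .nil))) 
(.lf (nat_lit 246377) (.g (nat_lit 3111) (.e (nat_lit 131116) (nat_lit 9) (.e (nat_lit 336021) (nat_lit 3) (.e (nat_lit 98389) (nat_lit 33) (.e (nat_lit 491560) (nat_lit 10) (.e (nat_lit 344126) (nat_lit 25) (.e (nat_lit 548893) (nat_lit 13) .nil)))))) (.g (nat_lit 5) .nil .nil))))) (.nd (nat_lit 5) (.nd (nat_lit 6) 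
(.lf (nat_lit 246297) (.g (nat_lit 2597) (.e (nat_lit 131116) (nat_lit 9) (.e (nat_lit 336004) (nat_lit 2) (.e (nat_lit 90172) (nat_lit 14) (.e (nat_lit 180259) (nat_lit 17) (.e (nat_lit 630811) (nat_lit 13) (.e (nat_lit 1234) (nat_lit 91) (.e (nat_lit 98048) (nat_lit 8) .nil))))))) (.g (nat_lit 6) .nil .nil))) 
(.lf (nat_lit 246361) (.g (nat_lit 1139) (.e (nat_lit 131116) (nat_lit 9) (.e (nat_lit 336021) (nat_lit 3) (.e (nat_lit 98384) (nat_lit 32) .nil))) .nil))) (.nd (nat_lit 6) 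
(.lf (nat_lit 246329) (.g (nat_lit 2376) (.e (nat_lit 131116) (nat_lit 9) (.e (nat_lit 336012) (nat_lit 2) (.e (nat_lit 90174) (nat_lit 14) (.e (nat_lit 180228) (nat_lit 0) (.e (nat_lit 5046) (nat_lit 292) .nil))))) .nil)) 
(.lf (nat_lit 246393) (.g (nat_lit 2731) (.e (nat_lit 131120) (nat_lit 12) (.e (nat_lit 385066) (nat_lit 26) (.e (nat_lit 532506) (nat_lit 2) (.e (nat_lit 106536) (nat_lit 11) (.e (nat_lit 16412) (nat_lit 2) (.e (nat_lit 196681) (nat_lit 17) .nil)))))) (.g (nat_lit 6) .nil .nil))))))) (.nd (nat_lit 3) (.nd (nat_lit 4) (.nd (nat_lit 5) (.nd (nat_lit 6) 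
(.lf (nat_lit 246277) (.g (nat_lit 1511) (.e (nat_lit 131116) (nat_lit 9) (.e (nat_lit 335995) (nat_lit 1) (.e (nat_lit 57872) (nat_lit 264) (.e (nat_lit 1221) (nat_lit 90) .nil)))) .nil)) 
(.lf (nat_lit 246341) (.g (nat_lit 1028) (.e (nat_lit 131116) (nat_lit 9) (.e (nat_lit 336021) (nat_lit 3) (.e (nat_lit 98320) (nat_lit 17) (.e (nat_lit 7495) (nat_lit 402) .nil)))) .nil))) (.nd (nat_lit 6) 
(.lf (nat_lit 246309) (.g (nat_lit 1553) (.e (nat_lit 131116) (nat_lit 9) (.e (nat_lit 336004) (nat_lit 2) (.e (nat_lit 90185) (nat_lit 17) (.e (nat_lit 237582) (nat_lit 1) .nil)))) .nil)) 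
(.lf (nat_lit 246373) (.g (nat_lit 2156) (.e (nat_lit 131116) (nat_lit 9) (.e (nat_lit 336021) (nat_lit 3) (.e (nat_lit 98388) (nat_lit 33) (.e (nat_lit 491566) (nat_lit 12) (.e (nat_lit 385074) (nat_lit 31) .nil))))) .nil)))) (.nd (nat_lit 5) (.nd (nat_lit 6) 
(.lf (nat_lit 246293) (.g (nat_lit 1333) (.e (nat_lit 131116) (nat_lit 9) (.e (nat_lit 336004) (nat_lit 2) (.e (nat_lit 90172) (nat_lit 14) (.e (nat_lit 180229) (nat_lit 0) .nil)))) .nil)) 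
(.lf (nat_lit 246357) (.g (nat_lit 3867) (.e (nat_lit 131116) (nat_lit 9) (.e (nat_lit 336021) (nat_lit 3) (.e (nat_lit 98365) (nat_lit 26) (.e (nat_lit 426100) (nat_lit 1) (.e (nat_lit 164305) (nat_lit 226) (.e (nat_lit 7936) (nat_lit 81) (.e (nat_lit 1239) (nat_lit 91) (.e (nat_lit 98048) (nat_lit 8) .nil)))))))) (.g (nat_lit 5) .nil .nil)))) (.nd (nat_lit 6) 
(.lf (nat_lit 246325) (.g (nat_lit 2700) (.e (nat_lit 131116) (nat_lit 9) (.e (nat_lit 336012) (nat_lit 2) (.e (nat_lit 90172) (nat_lit 14) (.e (nat_lit 180259) (nat_lit 17) (.e (nat_lit 630814) (nat_lit 13) (.e (nat_lit 1234) (nat_lit 91) (.e (nat_lit 98048) (nat_lit 8) .nil))))))) (.g (nat_lit 6) .nil .nil))) 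
(.lf (nat_lit 246389) (.g (nat_lit 2186) (.e (nat_lit 131119) (nat_lit 12) (.e (nat_lit 385106) (nat_lit 50) (.e (nat_lit 786480) (nat_lit 29) (.e (nat_lit 352318) (nat_lit 24) (.e (nat_lit 123185) (nat_lit 264) .nil))))) .nil))))) (.nd (nat_lit 4) (.nd (nat_lit 5) (.nd (nat_lit 6) 
(.lf (nat_lit 246285) (.g (nat_lit 1986) (.e (nat_lit 131116) (nat_lit 9) (.e (nat_lit 335996) (nat_lit 1) (.e (nat_lit 57870) (nat_lit 264) (.e (nat_lit 1199) (nat_lit 88) (.e (nat_lit 65617) (nat_lit 10) .nil))))) .nil)) 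
(.lf (nat_lit 246349) (.g (nat_lit 944) (.e (nat_lit 131116) (nat_lit 9) (.e (nat_lit 336021) (nat_lit 3) (.e (nat_lit 98352) (nat_lit 25) .nil))) .nil))) (.nd (nat_lit 6) 
(.lf (nat_lit 246317) (.g (nat_lit 1743) (.e (nat_lit 131116) (nat_lit 9) (.e (nat_lit 336012) (nat_lit 2) (.e (nat_lit 90172) (nat_lit 14) (.e (nat_lit 180225) (nat_lit 0) .nil)))) .nil)) 
(.lf (nat_lit 246381) (.g (nat_lit 2822) (.e (nat_lit 131117) (nat_lit 10) (.e (nat_lit 344129) (nat_lit 26) (.e (nat_lit 557087) (nat_lit 11) (.e (nat_lit 24617) (nat_lit 7) .nil)))) .nil)))) (.nd (nat_lit 5) (.nd (nat_lit 6) 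
(.lf (nat_lit 246301) (.g (nat_lit 1553) (.e (nat_lit 131116) (nat_lit 9) (.e (nat_lit 336004) (nat_lit 2) (.e (nat_lit 90174) (nat_lit 14) (.e (nat_lit 180224) (nat_lit 0) .nil)))) .nil)) 
(.lf (nat_lit 246365) (.g (nat_lit 1531) (.e (nat_lit 131116) (nat_lit 9) (.e (nat_lit 336021) (nat_lit 3) (.e (nat_lit 98385) (nat_lit 32) (.e (nat_lit 475193) (nat_lit 38) (.e (nat_lit 696064) (nat_lit 13) .nil))))) .nil))) (.nd (nat_lit 6) 
(.lf (nat_lit 246333) (.g (nat_lit 2207) (.e (nat_lit 131116) (nat_lit 9) (.e (nat_lit 336012) (nat_lit 2) (.e (nat_lit 90174) (nat_lit 14) (.e (nat_lit 180260) (nat_lit 18) (.e (nat_lit 639008) (nat_lit 13) (.e (nat_lit 1239) (nat_lit 91) (.e (nat_lit 98048) (nat_lit 8) .nil))))))) (.g (nat_lit 4) .nil .nil))) 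
(.lf (nat_lit 246397) (.g (nat_lit 2809) (.e (nat_lit 131120) (nat_lit 12) (.e (nat_lit 385066) (nat_lit 26) (.e (nat_lit 532510) (nat_lit 2) (.e (nat_lit 106536) (nat_lit 11) (.e (nat_lit 16412) (nat_lit 2) (.e (nat_lit 196681) (nat_lit 17) .nil)))))) (.g (nat_lit 0) .nil .nil)))))))) (.nd (nat_lit 2) (.nd (nat_lit 3) (.nd (nat_lit 4) (.nd (nat_lit 5) (.nd (nat_lit 6) 
(.lf (nat_lit 246275) (.g (nat_lit 2296) (.e (nat_lit 131116) (nat_lit 9) (.e (nat_lit 335995) (nat_lit 1) (.e (nat_lit 57872) (nat_lit 264) (.e (nat_lit 1219) (nat_lit 90) (.e (nat_lit 81920) (nat_lit 0) .nil))))) .nil)) 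
(.lf (nat_lit 246339) (.g (nat_lit 1994) (.e (nat_lit 131116) (nat_lit 9) (.e (nat_lit 336012) (nat_lit 2) (.e (nat_lit 90185) (nat_lit 17) (.e (nat_lit 237585) (nat_lit 1) (.e (nat_lit 164307) (nat_lit 226) .nil))))) .nil))) (.nd (nat_lit 6) 
(.lf (nat_lit 246307) (.g (nat_lit 594) (.e (nat_lit 131116) (nat_lit 9) (.e (nat_lit 336004) (nat_lit 2) (.e (nat_lit 90185) (nat_lit 17) .nil))) .nil)) 
(.lf (nat_lit 246371) (.g (nat_lit 1247) (.e (nat_lit 131116) (nat_lit 9) (.e (nat_lit 336021) (nat_lit 3) (.e (nat_lit 98388) (nat_lit 33) (.e (nat_lit 491563) (nat_lit 12) .nil)))) .nil)))) (.nd (nat_lit 5) (.nd (nat_lit 6) 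
(.lf (nat_lit 246291) (.g (nat_lit 1432) (.e (nat_lit 131116) (nat_lit 9) (.e (nat_lit 336004) (nat_lit 2) (.e (nat_lit 90172) (nat_lit 14) (.e (nat_lit 180224) (nat_lit 0) .nil)))) .nil)) 
(.lf (nat_lit 246355) (.g (nat_lit 2377) (.e (nat_lit 131116) (nat_lit 9) (.e (nat_lit 336021) (nat_lit 3) (.e (nat_lit 98365) (nat_lit 26) (.e (nat_lit 426099) (nat_lit 1) (.e (nat_lit 164307) (nat_lit 226) (.e (nat_lit 7936) (nat_lit 81) (.e (nat_lit 1239) (nat_lit 91) (.e (nat_lit 98048) (nat_lit 8) .nil)))))))) (.g (nat_lit 5) .nil .nil)))) (.nd (nat_lit 6) 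
(.lf (nat_lit 246323) (.g (nat_lit 2890) (.e (nat_lit 131116) (nat_lit 9) (.e (nat_lit 336012) (nat_lit 2) (.e (nat_lit 90172) (nat_lit 14) (.e (nat_lit 180259) (nat_lit 17) (.e (nat_lit 630811) (nat_lit 13) (.e (nat_lit 1234) (nat_lit 91) (.e (nat_lit 98048) (nat_lit 8) .nil))))))) (.g (nat_lit 6) .nil .nil))) 
(.lf (nat_lit 246387) (.g (nat_lit 1393) (.e (nat_lit 131119) (nat_lit 12) (.e (nat_lit 385106) (nat_lit 50) (.e (nat_lit 786478) (nat_lit 29) (.e (nat_lit 352318) (nat_lit 24) .nil)))) .nil))))) (.nd (nat_lit 4) (.nd (nat_lit 5) (.nd (nat_lit 6) 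
(.lf (nat_lit 246283) (.g (nat_lit 2677) (.e (nat_lit 131116) (nat_lit 9) (.e (nat_lit 335996) (nat_lit 1) (.e (nat_lit 57870) (nat_lit 264) (.e (nat_lit 1190) (nat_lit 88) (.e (nat_lit 65619) (nat_lit 10) (.e (nat_lit 344169) (nat_lit 40) (.e (nat_lit 671766) (nat_lit 8) .nil))))))) (.g (nat_lit 4) .nil .nil))) 
(.lf (nat_lit 246347) (.g (nat_lit 1833) (.e (nat_lit 131116) (nat_lit 9) (.e (nat_lit 336021) (nat_lit 3) (.e (nat_lit 98350) (nat_lit 24) (.e (nat_lit 409649) (nat_lit 18) .nil)))) .nil))) (.nd (nat_lit 6) 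
(.lf (nat_lit 246315) (.g (nat_lit 1644) (.e (nat_lit 131116) (nat_lit 9) (.e (nat_lit 336012) (nat_lit 2) (.e (nat_lit 90169) (nat_lit 13) (.e (nat_lit 172128) (nat_lit 15) .nil)))) .nil)) 
(.lf (nat_lit 246379) (.g (nat_lit 902) (.e (nat_lit 131116) (nat_lit 9) (.e (nat_lit 336027) (nat_lit 3) (.e (nat_lit 98350) (nat_lit 24) .nil))) .nil)))) (.nd (nat_lit 5) (.nd (nat_lit 6) 
(.lf (nat_lit 246299) (.g (nat_lit 2418) (.e (nat_lit 131116) (nat_lit 9) (.e (nat_lit 336004) (nat_lit 2) (.e (nat_lit 90172) (nat_lit 14) (.e (nat_lit 180259) (nat_lit 17) (.e (nat_lit 630814) (nat_lit 13) (.e (nat_lit 1234) (nat_lit 91) (.e (nat_lit 98048) (nat_lit 8) .nil))))))) (.g (nat_lit 6) .nil .nil))) 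
(.lf (nat_lit 246363) (.g (nat_lit 775) (.e (nat_lit 131116) (nat_lit 9) (.e (nat_lit 336021) (nat_lit 3) (.e (nat_lit 98385) (nat_lit 32) .nil))) .nil))) (.nd (nat_lit 6) 
(.lf (nat_lit 246331) (.g (nat_lit 1677) (.e (nat_lit 131116) (nat_lit 9) (.e (nat_lit 336012) (nat_lit 2) (.e (nat_lit 90174) (nat_lit 14) (.e (nat_lit 188160) (nat_lit 0) .nil)))) .nil)) 
(.lf (nat_lit 246395) (.g (nat_lit 1576) (.e (nat_lit 131120) (nat_lit 12) (.e (nat_lit 385066) (nat_lit 26) (.e (nat_lit 532510) (nat_lit 2) (.e (nat_lit 106534) (nat_lit 11) (.e (nat_lit 16411) (nat_lit 2) (.e (nat_lit 196681) (nat_lit 17) .nil)))))) (.g (nat_lit 4) .nil .nil))))))) (.nd (nat_lit 3) (.nd (nat_lit 4) (.nd (nat_lit 5) (.nd (nat_lit 6) 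
(.lf (nat_lit 246279) (.g (nat_lit 1022) (.e (nat_lit 131116) (nat_lit 9) (.e (nat_lit 335996) (nat_lit 1) (.e (nat_lit 57870) (nat_lit 264) .nil))) .nil)) 
(.lf (nat_lit 246343) (.g (nat_lit 1019) (.e (nat_lit 131116) (nat_lit 9) (.e (nat_lit 336021) (nat_lit 3) (.e (nat_lit 98349) (nat_lit 24) .nil))) .nil))) (.nd (nat_lit 6) 
(.lf (nat_lit 246311) (.g (nat_lit 2205) (.e (nat_lit 131116) (nat_lit 9) (.e (nat_lit 336004) (nat_lit 2) (.e (nat_lit 90185) (nat_lit 17) (.e (nat_lit 237582) (nat_lit 1) (.e (nat_lit 164307) (nat_lit 226) (.e (nat_lit 7936) (nat_lit 81) (.e (nat_lit 1239) (nat_lit 91) (.e (nat_lit 98048) (nat_lit 8) .nil)))))))) (.g (nat_lit 5) .nil .nil))) 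
(.lf (nat_lit 246375) (.g (nat_lit 1881) (.e (nat_lit 131116) (nat_lit 9) (.e (nat_lit 336021) (nat_lit 3) (.e (nat_lit 98389) (nat_lit 33) (.e (nat_lit 491560) (nat_lit 10) (.e (nat_lit 344124) (nat_lit 25) .nil))))) .nil)))) (.nd (nat_lit 5) (.nd (nat_lit 6) 
(.lf (nat_lit 246295) (.g (nat_lit 1853) (.e (nat_lit 131116) (nat_lit 9) (.e (nat_lit 336004) (nat_lit 2) (.e (nat_lit 90172) (nat_lit 14) (.e (nat_lit 180229) (nat_lit 0) (.e (nat_lit 5190) (nat_lit 294) .nil))))) .nil)) 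
(.lf (nat_lit 246359) (.g (nat_lit 1152) (.e (nat_lit 131116) (nat_lit 9) (.e (nat_lit 336021) (nat_lit 3) (.e (nat_lit 98366) (nat_lit 27) .nil))) .nil))) (.nd (nat_lit 6) 
(.lf (nat_lit 246327) (.g (nat_lit 628) (.e (nat_lit 131116) (nat_lit 9) (.e (nat_lit 336012) (nat_lit 2) (.e (nat_lit 90174) (nat_lit 14) .nil))) .nil)) 
(.lf (nat_lit 246391) (.g (nat_lit 1703) (.e (nat_lit 131120) (nat_lit 12) (.e (nat_lit 385066) (nat_lit 26) (.e (nat_lit 532481) (nat_lit 0) (.e (nat_lit 2078) (nat_lit 142) (.e (nat_lit 704734) (nat_lit 11) .nil))))) .nil))))) (.nd (nat_lit 4) (.nd (nat_lit 5) (.nd (nat_lit 6) 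
(.lf (nat_lit 246287) (.g (nat_lit 992) (.e (nat_lit 131116) (nat_lit 9) (.e (nat_lit 336003) (nat_lit 2) (.e (nat_lit 90185) (nat_lit 17) (.e (nat_lit 237582) (nat_lit 1) .nil)))) .nil)) 
(.lf (nat_lit 246351) (.g (nat_lit 766) (.e (nat_lit 131116) (nat_lit 9) (.e (nat_lit 336021) (nat_lit 3) (.e (nat_lit 98365) (nat_lit 26) .nil))) .nil))) (.nd (nat_lit 6) 
(.lf (nat_lit 246319) (.g (nat_lit 2834) (.e (nat_lit 131116) (nat_lit 9) (.e (nat_lit 336012) (nat_lit 2) (.e (nat_lit 90172) (nat_lit 14) (.e (nat_lit 180229) (nat_lit 0) (.e (nat_lit 5046) (nat_lit 292) (.e (nat_lit 974) (nat_lit 81) (.e (nat_lit 1239) (nat_lit 91) (.e (nat_lit 98048) (nat_lit 8) .nil)))))))) (.g (nat_lit 5) .nil .nil))) 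
(.lf (nat_lit 246383) (.g (nat_lit 647) (.e (nat_lit 131119) (nat_lit 12) (.e (nat_lit 385094) (nat_lit 49) (.e (nat_lit 778326) (nat_lit 6) .nil))) .nil)))) (.nd (nat_lit 5) (.nd (nat_lit 6) 
(.lf (nat_lit 246303) (.g (nat_lit 1527) (.e (nat_lit 131116) (nat_lit 9) (.e (nat_lit 336004) (nat_lit 2) (.e (nat_lit 90174) (nat_lit 14) (.e (nat_lit 180260) (nat_lit 18) .nil)))) .nil)) 
(.lf (nat_lit 246367) (.g (nat_lit 1692) (.e (nat_lit 131116) (nat_lit 9) (.e (nat_lit 336021) (nat_lit 3) (.e (nat_lit 98385) (nat_lit 32) (.e (nat_lit 475212) (nat_lit 42) (.e (nat_lit 720923) (nat_lit 20) .nil))))) .nil))) (.nd (nat_lit 6) 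
(.lf (nat_lit 246335) (.g (nat_lit 1084) (.e (nat_lit 131116) (nat_lit 9) (.e (nat_lit 336012) (nat_lit 2) (.e (nat_lit 90181) (nat_lit 16) (.e (nat_lit 229577) (nat_lit 179) .nil)))) .nil)) 
(.lf (nat_lit 246399) (.g (nat_lit 2781) (.e (nat_lit 131120) (nat_lit 12) (.e (nat_lit 385066) (nat_lit 26) (.e (nat_lit 532511) (nat_lit 2) (.e (nat_lit 106536) (nat_lit 11) (.e (nat_lit 16412) (nat_lit 2) (.e (nat_lit 196681) (nat_lit 17) .nil)))))) (.g (nat_lit 0) .nil .nil))))))))))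

noncomputable def tv3200 : DT := (.nd (nat_lit 0) (.nd (nat_lit 1) (.nd (nat_lit 2) (.nd (nat_lit 3) (.nd (nat_lit 4) (.nd (nat_lit 5) (.nd (nat_lit 6) 
(.lf (nat_lit 246400) (.g (nat_lit 1703) (.e (nat_lit 131120) (nat_lit 12) (.e (nat_lit 385068) (nat_lit 26) (.e (nat_lit 532481) (nat_lit 0) (.e (nat_lit 2044) (nat_lit 142) .nil)))) .nil)) 
(.lf (nat_lit 246464) (.g (nat_lit 1412) (.e (nat_lit 131124) (nat_lit 13) (.e (nat_lit 393234) (nat_lit 17) (.e (nat_lit 7591) (nat_lit 407) (.e (nat_lit 73731) (nat_lit 0) .nil)))) .nil))) (.nd (nat_lit 6) 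
(.lf (nat_lit 246432) (.g (nat_lit 1999) (.e (nat_lit 131121) (nat_lit 12) (.e (nat_lit 385105) (nat_lit 50) (.e (nat_lit 786480) (nat_lit 29) (.e (nat_lit 352318) (nat_lit 24) (.e (nat_lit 123185) (nat_lit 264) .nil))))) .nil)) 
(.lf (nat_lit 246496) (.g (nat_lit 2461) (.e (nat_lit 131124) (nat_lit 13) (.e (nat_lit 393301) (nat_lit 27) (.e (nat_lit 491560) (nat_lit 10) (.e (nat_lit 344094) (nat_lit 18) .nil)))) .nil)))) (.nd (nat_lit 5) (.nd (nat_lit 6) 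
(.lf (nat_lit 246416) (.g (nat_lit 1131) (.e (nat_lit 131120) (nat_lit 12) (.e (nat_lit 385094) (nat_lit 49) (.e (nat_lit 778326) (nat_lit 6) (.e (nat_lit 81958) (nat_lit 24) .nil)))) .nil)) 
(.lf (nat_lit 246480) (.g (nat_lit 2673) (.e (nat_lit 131124) (nat_lit 13) (.e (nat_lit 393301) (nat_lit 27) (.e (nat_lit 491558) (nat_lit 10) (.e (nat_lit 344175) (nat_lit 43) .nil)))) .nil))) (.nd (nat_lit 6) 
(.lf (nat_lit 246448) (.g (nat_lit 1602) (.e (nat_lit 131123) (nat_lit 12) (.e (nat_lit 385074) (nat_lit 31) (.e (nat_lit 573491) (nat_lit 15) (.e (nat_lit 81924) (nat_lit 0) .nil)))) .nil)) 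
(.lf (nat_lit 246512) (.g (nat_lit 3038) (.e (nat_lit 131125) (nat_lit 13) (.e (nat_lit 393234) (nat_lit 17) (.e (nat_lit 7591) (nat_lit 407) (.e (nat_lit 73729) (nat_lit 0) (.e (nat_lit 7125) (nat_lit 382) (.e (nat_lit 1296) (nat_lit 96) .nil)))))) (.g (nat_lit 6) .nil .nil)))))) (.nd (nat_lit 4) (.nd (nat_lit 5) (.nd (nat_lit 6) 
(.lf (nat_lit 246408) (.g (nat_lit 2505) (.e (nat_lit 131120) (nat_lit 12) (.e (nat_lit 385068) (nat_lit 26) (.e (nat_lit 532511) (nat_lit 2) (.e (nat_lit 106534) (nat_lit 11) (.e (nat_lit 16412) (nat_lit 2) (.e (nat_lit 196681) (nat_lit 17) .nil)))))) (.g (nat_lit 0) .nil .nil))) 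
(.lf (nat_lit 246472) (.g (nat_lit 2373) (.e (nat_lit 131124) (nat_lit 13) (.e (nat_lit 393301) (nat_lit 27) (.e (nat_lit 491558) (nat_lit 10) (.e (nat_lit 344090) (nat_lit 18) .nil)))) .nil))) (.nd (nat_lit 6) 
(.lf (nat_lit 246440) (.g (nat_lit 1894) (.e (nat_lit 131123) (nat_lit 12) (.e (nat_lit 385068) (nat_lit 26) (.e (nat_lit 532481) (nat_lit 0) (.e (nat_lit 2044) (nat_lit 142) (.e (nat_lit 704734) (nat_lit 11) .nil))))) .nil)) 
(.lf (nat_lit 246504) (.g (nat_lit 2384) (.e (nat_lit 131124) (nat_lit 13) (.e (nat_lit 393301) (nat_lit 27) (.e (nat_lit 491560) (nat_lit 10) (.e (nat_lit 344173) (nat_lit 42) .nil)))) .nil)))) (.nd (nat_lit 5) (.nd (nat_lit 6) 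
(.lf (nat_lit 246424) (.g (nat_lit 2066) (.e (nat_lit 131120) (nat_lit 12) (.e (nat_lit 385105) (nat_lit 50) (.e (nat_lit 786481) (nat_lit 30) (.e (nat_lit 360456) (nat_lit 0) (.e (nat_lit 5818) (nat_lit 320) (.e (nat_lit 1296) (nat_lit 96) .nil)))))) (.g (nat_lit 6) .nil .nil))) 
(.lf (nat_lit 246488) (.g (nat_lit 2865) (.e (nat_lit 131124) (nat_lit 13) (.e (nat_lit 393301) (nat_lit 27) (.e (nat_lit 491559) (nat_lit 10) (.e (nat_lit 344176) (nat_lit 43) .nil)))) .nil))) (.nd (nat_lit 6) 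
(.lf (nat_lit 246456) (.g (nat_lit 1807) (.e (nat_lit 131123) (nat_lit 12) (.e (nat_lit 385104) (nat_lit 50) (.e (nat_lit 786483) (nat_lit 30) (.e (nat_lit 360457) (nat_lit 0) (.e (nat_lit 5818) (nat_lit 320) .nil))))) .nil)) 
(.lf (nat_lit 246520) (.g (nat_lit 693) (.e (nat_lit 131125) (nat_lit 13) (.e (nat_lit 393260) (nat_lit 21) (.e (nat_lit 409643) (nat_lit 18) .nil))) .nil)))))) (.nd (nat_lit 3) (.nd (nat_lit 4) (.nd (nat_lit 5) (.nd (nat_lit 6) 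
(.lf (nat_lit 246404) (.g (nat_lit 2110) (.e (nat_lit 131120) (nat_lit 12) (.e (nat_lit 385068) (nat_lit 26) (.e (nat_lit 532506) (nat_lit 2) (.e (nat_lit 106536) (nat_lit 11) (.e (nat_lit 16410) (nat_lit 2) (.e (nat_lit 196681) (nat_lit 17) .nil)))))) (.g (nat_lit 4) .nil .nil))) 
(.lf (nat_lit 246468) (.g (nat_lit 1020) (.e (nat_lit 131124) (nat_lit 13) (.e (nat_lit 393270) (nat_lit 23) (.e (nat_lit 426448) (nat_lit 20) (.e (nat_lit 114712) (nat_lit 21) .nil)))) .nil))) (.nd (nat_lit 6) 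
(.lf (nat_lit 246436) (.g (nat_lit 658) (.e (nat_lit 131122) (nat_lit 12) (.e (nat_lit 385102) (nat_lit 50) (.e (nat_lit 786478) (nat_lit 29) (.e (nat_lit 360192) (nat_lit 4) .nil)))) .nil)) 
(.lf (nat_lit 246500) (.g (nat_lit 3378) (.e (nat_lit 131124) (nat_lit 13) (.e (nat_lit 393301) (nat_lit 27) (.e (nat_lit 491560) (nat_lit 10) (.e (nat_lit 344096) (nat_lit 18) (.e (nat_lit 7125) (nat_lit 382) .nil))))) .nil)))) (.nd (nat_lit 5) (.nd (nat_lit 6) 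
(.lf (nat_lit 246420) (.g (nat_lit 2264) (.e (nat_lit 131120) (nat_lit 12) (.e (nat_lit 385094) (nat_lit 49) (.e (nat_lit 778327) (nat_lit 6) (.e (nat_lit 81959) (nat_lit 24) (.e (nat_lit 123184) (nat_lit 264) (.e (nat_lit 1296) (nat_lit 96) .nil)))))) (.g (nat_lit 0) .nil .nil))) 
(.lf (nat_lit 246484) (.g (nat_lit 2837) (.e (nat_lit 131124) (nat_lit 13) (.e (nat_lit 393301) (nat_lit 27) (.e (nat_lit 491559) (nat_lit 10) (.e (nat_lit 344091) (nat_lit 18) .nil)))) .nil))) (.nd (nat_lit 6) 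
(.lf (nat_lit 246452) (.g (nat_lit 1180) (.e (nat_lit 131123) (nat_lit 12) (.e (nat_lit 385094) (nat_lit 49) (.e (nat_lit 778326) (nat_lit 6) (.e (nat_lit 81938) (nat_lit 20) (.e (nat_lit 2005) (nat_lit 138) .nil))))) .nil)) 
(.lf (nat_lit 246516) (.g (nat_lit 3313) (.e (nat_lit 131125) (nat_lit 13) (.e (nat_lit 393234) (nat_lit 17) (.e (nat_lit 7593) (nat_lit 407) (.e (nat_lit 73729) (nat_lit 0) (.e (nat_lit 7124) (nat_lit 382) (.e (nat_lit 1296) (nat_lit 96) .nil)))))) (.g (nat_lit 6) .nil .nil)))))) (.nd (nat_lit 4) (.nd (nat_lit 5) (.nd (nat_lit 6) 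
(.lf (nat_lit 246412) (.g (nat_lit 1442) (.e (nat_lit 131120) (nat_lit 12) (.e (nat_lit 385093) (nat_lit 49) (.e (nat_lit 778326) (nat_lit 6) (.e (nat_lit 81959) (nat_lit 24) (.e (nat_lit 123184) (nat_lit 264) .nil))))) .nil)) 
(.lf (nat_lit 246476) (.g (nat_lit 2274) (.e (nat_lit 131124) (nat_lit 13) (.e (nat_lit 393301) (nat_lit 27) (.e (nat_lit 491558) (nat_lit 10) (.e (nat_lit 344095) (nat_lit 18) .nil)))) .nil))) (.nd (nat_lit 6) 
(.lf (nat_lit 246444) (.g (nat_lit 2242) (.e (nat_lit 131123) (nat_lit 12) (.e (nat_lit 385068) (nat_lit 26) (.e (nat_lit 532506) (nat_lit 2) (.e (nat_lit 106536) (nat_lit 11) (.e (nat_lit 16410) (nat_lit 2) (.e (nat_lit 196681) (nat_lit 17) .nil)))))) (.g (nat_lit 4) .nil .nil))) 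
(.lf (nat_lit 246508) (.g (nat_lit 1017) (.e (nat_lit 131125) (nat_lit 13) (.e (nat_lit 393225) (nat_lit 9) (.e (nat_lit 335906) (nat_lit 0) (.e (nat_lit 1998) (nat_lit 137) (.e (nat_lit 663554) (nat_lit 0) .nil))))) .nil)))) (.nd (nat_lit 5) (.nd (nat_lit 6) 
(.lf (nat_lit 246428) (.g (nat_lit 2065) (.e (nat_lit 131121) (nat_lit 12) (.e (nat_lit 385074) (nat_lit 31) (.e (nat_lit 573491) (nat_lit 15) (.e (nat_lit 81935) (nat_lit 20) .nil)))) .nil)) 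
(.lf (nat_lit 246492) (.g (nat_lit 3114) (.e (nat_lit 131124) (nat_lit 13) (.e (nat_lit 393301) (nat_lit 27) (.e (nat_lit 491560) (nat_lit 10) (.e (nat_lit 344089) (nat_lit 18) .nil)))) .nil))) (.nd (nat_lit 6) 
(.lf (nat_lit 246460) (.g (nat_lit 1967) (.e (nat_lit 131123) (nat_lit 12) (.e (nat_lit 385106) (nat_lit 50) (.e (nat_lit 786480) (nat_lit 29) (.e (nat_lit 352316) (nat_lit 24) (.e (nat_lit 123185) (nat_lit 264) .nil))))) .nil)) 
(.lf (nat_lit 246524) (.g (nat_lit 1615) (.e (nat_lit 131125) (nat_lit 13) (.e (nat_lit 393260) (nat_lit 21) (.e (nat_lit 409645) (nat_lit 18) (.e (nat_lit 303115) (nat_lit 1) .nil)))) .nil))))))) (.nd (nat_lit 2) (.nd (nat_lit 3) (.nd (nat_lit 4) (.nd (nat_lit 5) (.nd (nat_lit 6) 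
(.lf (nat_lit 246402) (.g (nat_lit 1969) (.e (nat_lit 131120) (nat_lit 12) (.e (nat_lit 385068) (nat_lit 26) (.e (nat_lit 532490) (nat_lit 0) (.e (nat_lit 2044) (nat_lit 142) .nil)))) .nil)) 
(.lf (nat_lit 246466) (.g (nat_lit 1752) (.e (nat_lit 131124) (nat_lit 13) (.e (nat_lit 393234) (nat_lit 17) (.e (nat_lit 7593) (nat_lit 407) (.e (nat_lit 73729) (nat_lit 0) (.e (nat_lit 7125) (nat_lit 382) .nil))))) .nil))) (.nd (nat_lit 6) 
(.lf (nat_lit 246434) (.g (nat_lit 2167) (.e (nat_lit 131121) (nat_lit 12) (.e (nat_lit 385106) (nat_lit 50) (.e (nat_lit 786480) (nat_lit 29) (.e (nat_lit 352318) (nat_lit 24) (.e (nat_lit 123185) (nat_lit 264) .nil))))) .nil)) 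
(.lf (nat_lit 246498) (.g (nat_lit 2852) (.e (nat_lit 131124) (nat_lit 13) (.e (nat_lit 393301) (nat_lit 27) (.e (nat_lit 491560) (nat_lit 10) (.e (nat_lit 344096) (nat_lit 18) .nil)))) .nil)))) (.nd (nat_lit 5) (.nd (nat_lit 6) 
(.lf (nat_lit 246418) (.g (nat_lit 2402) (.e (nat_lit 131120) (nat_lit 12) (.e (nat_lit 385094) (nat_lit 49) (.e (nat_lit 778327) (nat_lit 6) (.e (nat_lit 81957) (nat_lit 24) (.e (nat_lit 123184) (nat_lit 264) (.e (nat_lit 1296) (nat_lit 96) .nil)))))) (.g (nat_lit 0) .nil .nil))) 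
(.lf (nat_lit 246482) (.g (nat_lit 882) (.e (nat_lit 131124) (nat_lit 13) (.e (nat_lit 393301) (nat_lit 27) (.e (nat_lit 491559) (nat_lit 10) .nil))) .nil))) (.nd (nat_lit 6) 
(.lf (nat_lit 246450) (.g (nat_lit 1858) (.e (nat_lit 131123) (nat_lit 12) (.e (nat_lit 385093) (nat_lit 49) (.e (nat_lit 778326) (nat_lit 6) (.e (nat_lit 81957) (nat_lit 24) (.e (nat_lit 123184) (nat_lit 264) (.e (nat_lit 1296) (nat_lit 96) .nil)))))) (.g (nat_lit 4) .nil .nil))) 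
(.lf (nat_lit 246514) (.g (nat_lit 2652) (.e (nat_lit 131125) (nat_lit 13) (.e (nat_lit 393234) (nat_lit 17) (.e (nat_lit 7591) (nat_lit 407) (.e (nat_lit 73731) (nat_lit 0) (.e (nat_lit 7124) (nat_lit 382) (.e (nat_lit 1296) (nat_lit 96) .nil)))))) (.g (nat_lit 6) .nil .nil)))))) (.nd (nat_lit 4) (.nd (nat_lit 5) (.nd (nat_lit 6) 
(.lf (nat_lit 246410) (.g (nat_lit 1753) (.e (nat_lit 131120) (nat_lit 12) (.e (nat_lit 385093) (nat_lit 49) (.e (nat_lit 778326) (nat_lit 6) (.e (nat_lit 81957) (nat_lit 24) (.e (nat_lit 123184) (nat_lit 264) (.e (nat_lit 1296) (nat_lit 96) .nil)))))) (.g (nat_lit 4) .nil .nil))) 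
(.lf (nat_lit 246474) (.g (nat_lit 2233) (.e (nat_lit 131124) (nat_lit 13) (.e (nat_lit 393301) (nat_lit 27) (.e (nat_lit 491558) (nat_lit 10) (.e (nat_lit 344091) (nat_lit 18) .nil)))) .nil))) (.nd (nat_lit 6) 
(.lf (nat_lit 246442) (.g (nat_lit 1969) (.e (nat_lit 131123) (nat_lit 12) (.e (nat_lit 385068) (nat_lit 26) (.e (nat_lit 532490) (nat_lit 0) (.e (nat_lit 2143) (nat_lit 142) .nil)))) .nil)) 
(.lf (nat_lit 246506) (.g (nat_lit 2404) (.e (nat_lit 131124) (nat_lit 13) (.e (nat_lit 393301) (nat_lit 27) (.e (nat_lit 491560) (nat_lit 10) (.e (nat_lit 344175) (nat_lit 43) .nil)))) .nil)))) (.nd (nat_lit 5) (.nd (nat_lit 6) 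
(.lf (nat_lit 246426) (.g (nat_lit 1960) (.e (nat_lit 131120) (nat_lit 12) (.e (nat_lit 385106) (nat_lit 50) (.e (nat_lit 786480) (nat_lit 29) (.e (nat_lit 352316) (nat_lit 24) (.e (nat_lit 123185) (nat_lit 264) .nil))))) .nil)) 
(.lf (nat_lit 246490) (.g (nat_lit 2768) (.e (nat_lit 131124) (nat_lit 13) (.e (nat_lit 393301) (nat_lit 27) (.e (nat_lit 491560) (nat_lit 10) (.e (nat_lit 344087) (nat_lit 18) .nil)))) .nil))) (.nd (nat_lit 6) 
(.lf (nat_lit 246458) (.g (nat_lit 1449) (.e (nat_lit 131123) (nat_lit 12) (.e (nat_lit 385105) (nat_lit 50) (.e (nat_lit 786480) (nat_lit 29) (.e (nat_lit 352316) (nat_lit 24) .nil)))) .nil)) 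
(.lf (nat_lit 246522) (.g (nat_lit 1472) (.e (nat_lit 131125) (nat_lit 13) (.e (nat_lit 393260) (nat_lit 21) (.e (nat_lit 409644) (nat_lit 18) (.e (nat_lit 303115) (nat_lit 1) .nil)))) .nil)))))) (.nd (nat_lit 3) (.nd (nat_lit 4) (.nd (nat_lit 5) (.nd (nat_lit 6) 
(.lf (nat_lit 246406) (.g (nat_lit 1585) (.e (nat_lit 131120) (nat_lit 12) (.e (nat_lit 385068) (nat_lit 26) (.e (nat_lit 532510) (nat_lit 2) (.e (nat_lit 106534) (nat_lit 11) (.e (nat_lit 16411) (nat_lit 2) (.e (nat_lit 196681) (nat_lit 17) .nil)))))) (.g (nat_lit 4) .nil .nil))) 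
(.lf (nat_lit 246470) (.g (nat_lit 609) (.e (nat_lit 131124) (nat_lit 13) (.e (nat_lit 393300) (nat_lit 27) (.e (nat_lit 491560) (nat_lit 10) .nil))) .nil))) (.nd (nat_lit 6) 
(.lf (nat_lit 246438) (.g (nat_lit 2070) (.e (nat_lit 131123) (nat_lit 12) (.e (nat_lit 385066) (nat_lit 26) (.e (nat_lit 532506) (nat_lit 2) (.e (nat_lit 106536) (nat_lit 11) (.e (nat_lit 16410) (nat_lit 2) (.e (nat_lit 196681) (nat_lit 17) .nil)))))) (.g (nat_lit 4) .nil .nil))) 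
(.lf (nat_lit 246502) (.g (nat_lit 2497) (.e (nat_lit 131124) (nat_lit 13) (.e (nat_lit 393301) (nat_lit 27) (.e (nat_lit 491560) (nat_lit 10) (.e (nat_lit 344099) (nat_lit 18) .nil)))) .nil)))) (.nd (nat_lit 5) (.nd (nat_lit 6) 
(.lf (nat_lit 246422) (.g (nat_lit 1160) (.e (nat_lit 131120) (nat_lit 12) (.e (nat_lit 385104) (nat_lit 50) (.e (nat_lit 786483) (nat_lit 30) (.e (nat_lit 360457) (nat_lit 0) .nil)))) .nil)) 
(.lf (nat_lit 246486) (.g (nat_lit 2852) (.e (nat_lit 131124) (nat_lit 13) (.e (nat_lit 393301) (nat_lit 27) (.e (nat_lit 491559) (nat_lit 10) (.e (nat_lit 344096) (nat_lit 18) .nil)))) .nil))) (.nd (nat_lit 6) 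
(.lf (nat_lit 246454) (.g (nat_lit 1097) (.e (nat_lit 131123) (nat_lit 12) (.e (nat_lit 385094) (nat_lit 49) (.e (nat_lit 778327) (nat_lit 6) (.e (nat_lit 81946) (nat_lit 20) (.e (nat_lit 2005) (nat_lit 138) .nil))))) .nil)) 
(.lf (nat_lit 246518) (.g (nat_lit 1717) (.e (nat_lit 131125) (nat_lit 13) (.e (nat_lit 393238) (nat_lit 17) (.e (nat_lit 6989) (nat_lit 377) (.e (nat_lit 2777) (nat_lit 178) .nil)))) .nil))))) (.nd (nat_lit 4) (.nd (nat_lit 5) (.nd (nat_lit 6) 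
(.lf (nat_lit 246414) (.g (nat_lit 1950) (.e (nat_lit 131120) (nat_lit 12) (.e (nat_lit 385093) (nat_lit 49) (.e (nat_lit 778327) (nat_lit 6) (.e (nat_lit 81957) (nat_lit 24) (.e (nat_lit 123184) (nat_lit 264) (.e (nat_lit 1296) (nat_lit 96) .nil)))))) (.g (nat_lit 5) .nil .nil))) 
(.lf (nat_lit 246478) (.g (nat_lit 3085) (.e (nat_lit 131124) (nat_lit 13) (.e (nat_lit 393301) (nat_lit 27) (.e (nat_lit 491558) (nat_lit 10) (.e (nat_lit 344096) (nat_lit 18) (.e (nat_lit 7125) (nat_lit 382) (.e (nat_lit 1296) (nat_lit 96) .nil)))))) (.g (nat_lit 4) .nil .nil)))) (.nd (nat_lit 6) 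
(.lf (nat_lit 246446) (.g (nat_lit 1821) (.e (nat_lit 131123) (nat_lit 12) (.e (nat_lit 385068) (nat_lit 26) (.e (nat_lit 532508) (nat_lit 2) (.e (nat_lit 106536) (nat_lit 11) (.e (nat_lit 16413) (nat_lit 2) (.e (nat_lit 196681) (nat_lit 17) .nil)))))) (.g (nat_lit 4) .nil .nil))) 
(.lf (nat_lit 246510) (.g (nat_lit 3102) (.e (nat_lit 131125) (nat_lit 13) (.e (nat_lit 393233) (nat_lit 17) (.e (nat_lit 7593) (nat_lit 407) (.e (nat_lit 73729) (nat_lit 0) (.e (nat_lit 7124) (nat_lit 382) (.e (nat_lit 1296) (nat_lit 96) .nil)))))) (.g (nat_lit 6) .nil .nil))))) (.nd (nat_lit 5) (.nd (nat_lit 6) 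
(.lf (nat_lit 246430) (.g (nat_lit 2727) (.e (nat_lit 131121) (nat_lit 12) (.e (nat_lit 385074) (nat_lit 31) (.e (nat_lit 573493) (nat_lit 15) (.e (nat_lit 81931) (nat_lit 20) (.e (nat_lit 972) (nat_lit 81) .nil))))) .nil)) 
(.lf (nat_lit 246494) (.g (nat_lit 2920) (.e (nat_lit 131124) (nat_lit 13) (.e (nat_lit 393301) (nat_lit 27) (.e (nat_lit 491560) (nat_lit 10) (.e (nat_lit 344091) (nat_lit 18) .nil)))) .nil))) (.nd (nat_lit 6) 
(.lf (nat_lit 246462) (.g (nat_lit 1979) (.e (nat_lit 131124) (nat_lit 13) (.e (nat_lit 393225) (nat_lit 9) (.e (nat_lit 335988) (nat_lit 1) (.e (nat_lit 57931) (nat_lit 282) .nil)))) .nil)) 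
(.lf (nat_lit 246526) (.g (nat_lit 2528) (.e (nat_lit 131125) (nat_lit 13) (.e (nat_lit 393260) (nat_lit 21) (.e (nat_lit 409645) (nat_lit 18) (.e (nat_lit 303115) (nat_lit 1) (.e (nat_lit 164155) (nat_lit 152) .nil))))) .nil)))))))) (.nd (nat_lit 1) (.nd (nat_lit 2) (.nd (nat_lit 3) (.nd (nat_lit 4) (.nd (nat_lit 5) (.nd (nat_lit 6) 
(.lf (nat_lit 246401) (.g (nat_lit 1603) (.e (nat_lit 131120) (nat_lit 12) (.e (nat_lit 385068) (nat_lit 26) (.e (nat_lit 532484) (nat_lit 0) (.e (nat_lit 2084) (nat_lit 142) (.e (nat_lit 704734) (nat_lit 11) .nil))))) .nil)) 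
(.lf (nat_lit 246465) (.g (nat_lit 1635) (.e (nat_lit 131124) (nat_lit 13) (.e (nat_lit 393234) (nat_lit 17) (.e (nat_lit 7591) (nat_lit 407) (.e (nat_lit 73731) (nat_lit 0) (.e (nat_lit 7125) (nat_lit 382) .nil))))) .nil))) (.nd (nat_lit 6) 
(.lf (nat_lit 246433) (.g (nat_lit 1887) (.e (nat_lit 131121) (nat_lit 12) (.e (nat_lit 385105) (nat_lit 50) (.e (nat_lit 786483) (nat_lit 30) (.e (nat_lit 360457) (nat_lit 0) (.e (nat_lit 5818) (nat_lit 320) .nil))))) .nil)) 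
(.lf (nat_lit 246497) (.g (nat_lit 3092) (.e (nat_lit 131124) (nat_lit 13) (.e (nat_lit 393301) (nat_lit 27) (.e (nat_lit 491560) (nat_lit 10) (.e (nat_lit 344095) (nat_lit 18) .nil)))) .nil)))) (.nd (nat_lit 5) (.nd (nat_lit 6) 
(.lf (nat_lit 246417) (.g (nat_lit 2251) (.e (nat_lit 131120) (nat_lit 12) (.e (nat_lit 385094) (nat_lit 49) (.e (nat_lit 778326) (nat_lit 6) (.e (nat_lit 81959) (nat_lit 24) (.e (nat_lit 123184) (nat_lit 264) (.e (nat_lit 1296) (nat_lit 96) .nil)))))) (.g (nat_lit 0) .nil .nil))) 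
(.lf (nat_lit 246481) (.g (nat_lit 2617) (.e (nat_lit 131124) (nat_lit 13) (.e (nat_lit 393301) (nat_lit 27) (.e (nat_lit 491558) (nat_lit 10) (.e (nat_lit 344176) (nat_lit 43) .nil)))) .nil))) (.nd (nat_lit 6) 
(.lf (nat_lit 246449) (.g (nat_lit 502) (.e (nat_lit 131123) (nat_lit 12) (.e (nat_lit 385074) (nat_lit 31) (.e (nat_lit 573493) (nat_lit 15) .nil))) .nil)) 
(.lf (nat_lit 246513) (.g (nat_lit 1955) (.e (nat_lit 131125) (nat_lit 13) (.e (nat_lit 393234) (nat_lit 17) (.e (nat_lit 7591) (nat_lit 407) (.e (nat_lit 73730) (nat_lit 0) (.e (nat_lit 7125) (nat_lit 382) (.e (nat_lit 1296) (nat_lit 96) .nil)))))) (.g (nat_lit 5) .nil .nil)))))) (.nd (nat_lit 4) (.nd (nat_lit 5) (.nd (nat_lit 6) 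
(.lf (nat_lit 246409) (.g (nat_lit 2758) (.e (nat_lit 131120) (nat_lit 12) (.e (nat_lit 385068) (nat_lit 26) (.e (nat_lit 532511) (nat_lit 2) (.e (nat_lit 106536) (nat_lit 11) (.e (nat_lit 16412) (nat_lit 2) (.e (nat_lit 196681) (nat_lit 17) .nil)))))) (.g (nat_lit 0) .nil .nil))) 
(.lf (nat_lit 246473) (.g (nat_lit 2861) (.e (nat_lit 131124) (nat_lit 13) (.e (nat_lit 393301) (nat_lit 27) (.e (nat_lit 491558) (nat_lit 10) (.e (nat_lit 344090) (nat_lit 18) (.e (nat_lit 7124) (nat_lit 382) .nil))))) .nil))) (.nd (nat_lit 6) 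
(.lf (nat_lit 246441) (.g (nat_lit 1596) (.e (nat_lit 131123) (nat_lit 12) (.e (nat_lit 385068) (nat_lit 26) (.e (nat_lit 532484) (nat_lit 0) (.e (nat_lit 2084) (nat_lit 142) (.e (nat_lit 704734) (nat_lit 11) .nil))))) .nil)) 
(.lf (nat_lit 246505) (.g (nat_lit 2756) (.e (nat_lit 131124) (nat_lit 13) (.e (nat_lit 393301) (nat_lit 27) (.e (nat_lit 491560) (nat_lit 10) (.e (nat_lit 344174) (nat_lit 42) .nil)))) .nil)))) (.nd (nat_lit 5) (.nd (nat_lit 6) 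
(.lf (nat_lit 246425) (.g (nat_lit 1338) (.e (nat_lit 131120) (nat_lit 12) (.e (nat_lit 385106) (nat_lit 50) (.e (nat_lit 786478) (nat_lit 29) (.e (nat_lit 352317) (nat_lit 24) .nil)))) .nil)) 
(.lf (nat_lit 246489) (.g (nat_lit 3899) (.e (nat_lit 131124) (nat_lit 13) (.e (nat_lit 393301) (nat_lit 27) (.e (nat_lit 491559) (nat_lit 10) (.e (nat_lit 344177) (nat_lit 43) (.e (nat_lit 770076) (nat_lit 12) .nil))))) (.g (nat_lit 4) .nil .nil)))) (.nd (nat_lit 6) 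
(.lf (nat_lit 246457) (.g (nat_lit 1696) (.e (nat_lit 131123) (nat_lit 12) (.e (nat_lit 385105) (nat_lit 50) (.e (nat_lit 786478) (nat_lit 29) (.e (nat_lit 352318) (nat_lit 24) (.e (nat_lit 123183) (nat_lit 264) .nil))))) .nil)) 
(.lf (nat_lit 246521) (.g (nat_lit 2055) (.e (nat_lit 131125) (nat_lit 13) (.e (nat_lit 393260) (nat_lit 21) (.e (nat_lit 409643) (nat_lit 18) (.e (nat_lit 303115) (nat_lit 1) (.e (nat_lit 164148) (nat_lit 152) .nil))))) .nil)))))) (.nd (nat_lit 3) (.nd (nat_lit 4) (.nd (nat_lit 5) (.nd (nat_lit 6) 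
(.lf (nat_lit 246405) (.g (nat_lit 1559) (.e (nat_lit 131120) (nat_lit 12) (.e (nat_lit 385068) (nat_lit 26) (.e (nat_lit 532506) (nat_lit 2) (.e (nat_lit 106536) (nat_lit 11) (.e (nat_lit 16411) (nat_lit 2) (.e (nat_lit 196681) (nat_lit 17) .nil)))))) (.g (nat_lit 4) .nil .nil))) 
(.lf (nat_lit 246469) (.g (nat_lit 610) (.e (nat_lit 131124) (nat_lit 13) (.e (nat_lit 393300) (nat_lit 27) (.e (nat_lit 491558) (nat_lit 10) .nil))) .nil))) (.nd (nat_lit 6) 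
(.lf (nat_lit 246437) (.g (nat_lit 1704) (.e (nat_lit 131123) (nat_lit 12) (.e (nat_lit 385066) (nat_lit 26) (.e (nat_lit 532481) (nat_lit 0) (.e (nat_lit 2078) (nat_lit 142) (.e (nat_lit 704734) (nat_lit 11) .nil))))) .nil)) 
(.lf (nat_lit 246501) (.g (nat_lit 2775) (.e (nat_lit 131124) (nat_lit 13) (.e (nat_lit 393301) (nat_lit 27) (.e (nat_lit 491560) (nat_lit 10) (.e (nat_lit 344097) (nat_lit 18) .nil)))) .nil)))) (.nd (nat_lit 5) (.nd (nat_lit 6) 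
(.lf (nat_lit 246421) (.g (nat_lit 1791) (.e (nat_lit 131120) (nat_lit 12) (.e (nat_lit 385104) (nat_lit 50) (.e (nat_lit 786478) (nat_lit 29) (.e (nat_lit 352318) (nat_lit 24) (.e (nat_lit 123184) (nat_lit 264) (.e (nat_lit 1296) (nat_lit 96) .nil)))))) (.g (nat_lit 4) .nil .nil))) 
(.lf (nat_lit 246485) (.g (nat_lit 2898) (.e (nat_lit 131124) (nat_lit 13) (.e (nat_lit 393301) (nat_lit 27) (.e (nat_lit 491559) (nat_lit 10) (.e (nat_lit 344093) (nat_lit 18) .nil)))) .nil))) (.nd (nat_lit 6) 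
(.lf (nat_lit 246453) (.g (nat_lit 1141) (.e (nat_lit 131123) (nat_lit 12) (.e (nat_lit 385094) (nat_lit 49) (.e (nat_lit 778326) (nat_lit 6) (.e (nat_lit 81958) (nat_lit 24) .nil)))) .nil)) 
(.lf (nat_lit 246517) (.g (nat_lit 2716) (.e (nat_lit 131125) (nat_lit 13) (.e (nat_lit 393234) (nat_lit 17) (.e (nat_lit 7593) (nat_lit 407) (.e (nat_lit 73731) (nat_lit 0) (.e (nat_lit 7125) (nat_lit 382) (.e (nat_lit 1296) (nat_lit 96) .nil)))))) (.g (nat_lit 6) .nil .nil)))))) (.nd (nat_lit 4) (.nd (nat_lit 5) (.nd (nat_lit 6) 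
(.lf (nat_lit 246413) (.g (nat_lit 1413) (.e (nat_lit 131120) (nat_lit 12) (.e (nat_lit 385093) (nat_lit 49) (.e (nat_lit 778326) (nat_lit 6) (.e (nat_lit 81959) (nat_lit 24) (.e (nat_lit 123185) (nat_lit 264) .nil))))) .nil)) 
(.lf (nat_lit 246477) (.g (nat_lit 2976) (.e (nat_lit 131124) (nat_lit 13) (.e (nat_lit 393301) (nat_lit 27) (.e (nat_lit 491558) (nat_lit 10) (.e (nat_lit 344096) (nat_lit 18) (.e (nat_lit 7122) (nat_lit 382) .nil))))) .nil))) (.nd (nat_lit 6) 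
(.lf (nat_lit 246445) (.g (nat_lit 1697) (.e (nat_lit 131123) (nat_lit 12) (.e (nat_lit 385068) (nat_lit 26) (.e (nat_lit 532506) (nat_lit 2) (.e (nat_lit 106536) (nat_lit 11) (.e (nat_lit 16411) (nat_lit 2) (.e (nat_lit 196681) (nat_lit 17) .nil)))))) (.g (nat_lit 4) .nil .nil))) 
(.lf (nat_lit 246509) (.g (nat_lit 2339) (.e (nat_lit 131125) (nat_lit 13) (.e (nat_lit 393233) (nat_lit 17) (.e (nat_lit 7591) (nat_lit 407) (.e (nat_lit 73731) (nat_lit 0) (.e (nat_lit 7124) (nat_lit 382) (.e (nat_lit 1296) (nat_lit 96) .nil)))))) (.g (nat_lit 6) .nil .nil))))) (.nd (nat_lit 5) (.nd (nat_lit 6) 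
(.lf (nat_lit 246429) (.g (nat_lit 2036) (.e (nat_lit 131121) (nat_lit 12) (.e (nat_lit 385074) (nat_lit 31) (.e (nat_lit 573493) (nat_lit 15) (.e (nat_lit 81931) (nat_lit 20) .nil)))) .nil)) 
(.lf (nat_lit 246493) (.g (nat_lit 2790) (.e (nat_lit 131124) (nat_lit 13) (.e (nat_lit 393301) (nat_lit 27) (.e (nat_lit 491560) (nat_lit 10) (.e (nat_lit 344090) (nat_lit 18) .nil)))) .nil))) (.nd (nat_lit 6) 
(.lf (nat_lit 246461) (.g (nat_lit 1233) (.e (nat_lit 131123) (nat_lit 12) (.e (nat_lit 385106) (nat_lit 50) (.e (nat_lit 786481) (nat_lit 30) (.e (nat_lit 360455) (nat_lit 0) .nil)))) .nil)) 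
(.lf (nat_lit 246525) (.g (nat_lit 2613) (.e (nat_lit 131125) (nat_lit 13) (.e (nat_lit 393260) (nat_lit 21) (.e (nat_lit 409645) (nat_lit 18) (.e (nat_lit 303115) (nat_lit 1) (.e (nat_lit 164148) (nat_lit 152) .nil))))) .nil))))))) (.nd (nat_lit 2) (.nd (nat_lit 3) (.nd (nat_lit 4) (.nd (nat_lit 5) (.nd (nat_lit 6) 
(.lf (nat_lit 246403) (.g (nat_lit 1969) (.e (nat_lit 131120) (nat_lit 12) (.e (nat_lit 385068) (nat_lit 26) (.e (nat_lit 532490) (nat_lit 0) (.e (nat_lit 2143) (nat_lit 142) .nil)))) .nil)) 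
(.lf (nat_lit 246467) (.g (nat_lit 1407) (.e (nat_lit 131124) (nat_lit 13) (.e (nat_lit 393234) (nat_lit 17) (.e (nat_lit 7593) (nat_lit 407) (.e (nat_lit 73731) (nat_lit 0) .nil)))) .nil))) (.nd (nat_lit 6) 
(.lf (nat_lit 246435) (.g (nat_lit 475) (.e (nat_lit 131122) (nat_lit 12) (.e (nat_lit 385066) (nat_lit 26) (.e (nat_lit 532510) (nat_lit 2) .nil))) .nil)) 
(.lf (nat_lit 246499) (.g (nat_lit 3475) (.e (nat_lit 131124) (nat_lit 13) (.e (nat_lit 393301) (nat_lit 27) (.e (nat_lit 491560) (nat_lit 10) (.e (nat_lit 344096) (nat_lit 18) (.e (nat_lit 7124) (nat_lit 382) .nil))))) .nil)))) (.nd (nat_lit 5) (.nd (nat_lit 6) 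
(.lf (nat_lit 246419) (.g (nat_lit 1366) (.e (nat_lit 131120) (nat_lit 12) (.e (nat_lit 385094) (nat_lit 49) (.e (nat_lit 778327) (nat_lit 6) (.e (nat_lit 81958) (nat_lit 24) (.e (nat_lit 123184) (nat_lit 264) .nil))))) .nil)) 
(.lf (nat_lit 246483) (.g (nat_lit 2893) (.e (nat_lit 131124) (nat_lit 13) (.e (nat_lit 393301) (nat_lit 27) (.e (nat_lit 491559) (nat_lit 10) (.e (nat_lit 344090) (nat_lit 18) .nil)))) .nil))) (.nd (nat_lit 6) 
(.lf (nat_lit 246451) (.g (nat_lit 2055) (.e (nat_lit 131123) (nat_lit 12) (.e (nat_lit 385093) (nat_lit 49) (.e (nat_lit 778327) (nat_lit 6) (.e (nat_lit 81957) (nat_lit 24) (.e (nat_lit 123184) (nat_lit 264) (.e (nat_lit 1296) (nat_lit 96) .nil)))))) (.g (nat_lit 5) .nil .nil))) 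
(.lf (nat_lit 246515) (.g (nat_lit 1082) (.e (nat_lit 131125) (nat_lit 13) (.e (nat_lit 393234) (nat_lit 17) (.e (nat_lit 7593) (nat_lit 407) (.e (nat_lit 73729) (nat_lit 0) .nil)))) .nil))))) (.nd (nat_lit 4) (.nd (nat_lit 5) (.nd (nat_lit 6) 
(.lf (nat_lit 246411) (.g (nat_lit 1660) (.e (nat_lit 131120) (nat_lit 12) (.e (nat_lit 385093) (nat_lit 49) (.e (nat_lit 778326) (nat_lit 6) (.e (nat_lit 81957) (nat_lit 24) (.e (nat_lit 123185) (nat_lit 264) .nil))))) .nil)) 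
(.lf (nat_lit 246475) (.g (nat_lit 2641) (.e (nat_lit 131124) (nat_lit 13) (.e (nat_lit 393301) (nat_lit 27) (.e (nat_lit 491558) (nat_lit 10) (.e (nat_lit 344093) (nat_lit 18) .nil)))) .nil))) (.nd (nat_lit 6) 
(.lf (nat_lit 246443) (.g (nat_lit 983) (.e (nat_lit 131123) (nat_lit 12) (.e (nat_lit 385068) (nat_lit 26) (.e (nat_lit 532494) (nat_lit 0) (.e (nat_lit 2090) (nat_lit 142) .nil)))) .nil)) 
(.lf (nat_lit 246507) (.g (nat_lit 3082) (.e (nat_lit 131124) (nat_lit 13) (.e (nat_lit 393301) (nat_lit 27) (.e (nat_lit 491560) (nat_lit 10) (.e (nat_lit 344177) (nat_lit 43) .nil)))) .nil)))) (.nd (nat_lit 5) (.nd (nat_lit 6) 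
(.lf (nat_lit 246427) (.g (nat_lit 2836) (.e (nat_lit 131120) (nat_lit 12) (.e (nat_lit 385106) (nat_lit 50) (.e (nat_lit 786480) (nat_lit 29) (.e (nat_lit 352318) (nat_lit 24) (.e (nat_lit 123184) (nat_lit 264) (.e (nat_lit 1296) (nat_lit 96) .nil)))))) (.g (nat_lit 0) .nil .nil))) 
(.lf (nat_lit 246491) (.g (nat_lit 2970) (.e (nat_lit 131124) (nat_lit 13) (.e (nat_lit 393301) (nat_lit 27) (.e (nat_lit 491560) (nat_lit 10) (.e (nat_lit 344088) (nat_lit 18) .nil)))) .nil))) (.nd (nat_lit 6) 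
(.lf (nat_lit 246459) (.g (nat_lit 1343) (.e (nat_lit 131123) (nat_lit 12) (.e (nat_lit 385106) (nat_lit 50) (.e (nat_lit 786478) (nat_lit 29) (.e (nat_lit 352317) (nat_lit 24) .nil)))) .nil)) 
(.lf (nat_lit 246523) (.g (nat_lit 1884) (.e (nat_lit 131125) (nat_lit 13) (.e (nat_lit 393260) (nat_lit 21) (.e (nat_lit 409644) (nat_lit 18) (.e (nat_lit 303115) (nat_lit 1) (.e (nat_lit 164159) (nat_lit 152) .nil))))) .nil)))))) (.nd (nat_lit 3) (.nd (nat_lit 4) (.nd (nat_lit 5) (.nd (nat_lit 6) 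
(.lf (nat_lit 246407) (.g (nat_lit 2717) (.e (nat_lit 131120) (nat_lit 12) (.e (nat_lit 385068) (nat_lit 26) (.e (nat_lit 532510) (nat_lit 2) (.e (nat_lit 106536) (nat_lit 11) (.e (nat_lit 16412) (nat_lit 2) (.e (nat_lit 196681) (nat_lit 17) .nil)))))) (.g (nat_lit 0) .nil .nil))) 
(.lf (nat_lit 246471) (.g (nat_lit 973) (.e (nat_lit 131124) (nat_lit 13) (.e (nat_lit 393301) (nat_lit 27) (.e (nat_lit 491558) (nat_lit 10) .nil))) .nil))) (.nd (nat_lit 6) 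
(.lf (nat_lit 246439) (.g (nat_lit 1699) (.e (nat_lit 131123) (nat_lit 12) (.e (nat_lit 385066) (nat_lit 26) (.e (nat_lit 532510) (nat_lit 2) (.e (nat_lit 106534) (nat_lit 11) (.e (nat_lit 16411) (nat_lit 2) (.e (nat_lit 196681) (nat_lit 17) .nil)))))) (.g (nat_lit 4) .nil .nil))) 
(.lf (nat_lit 246503) (.g (nat_lit 2680) (.e (nat_lit 131124) (nat_lit 13) (.e (nat_lit 393301) (nat_lit 27) (.e (nat_lit 491560) (nat_lit 10) (.e (nat_lit 352000) (nat_lit 18) .nil)))) .nil)))) (.nd (nat_lit 5) (.nd (nat_lit 6) 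
(.lf (nat_lit 246423) (.g (nat_lit 1701) (.e (nat_lit 131120) (nat_lit 12) (.e (nat_lit 385105) (nat_lit 50) (.e (nat_lit 786478) (nat_lit 29) (.e (nat_lit 352318) (nat_lit 24) (.e (nat_lit 123183) (nat_lit 264) .nil))))) .nil)) 
(.lf (nat_lit 246487) (.g (nat_lit 2866) (.e (nat_lit 131124) (nat_lit 13) (.e (nat_lit 393301) (nat_lit 27) (.e (nat_lit 491559) (nat_lit 10) (.e (nat_lit 344175) (nat_lit 43) .nil)))) .nil))) (.nd (nat_lit 6) 
(.lf (nat_lit 246455) (.g (nat_lit 1340) (.e (nat_lit 131123) (nat_lit 12) (.e (nat_lit 385104) (nat_lit 50) (.e (nat_lit 786483) (nat_lit 30) (.e (nat_lit 360456) (nat_lit 0) .nil)))) .nil)) 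
(.lf (nat_lit 246519) (.g (nat_lit 1056) (.e (nat_lit 131125) (nat_lit 13) (.e (nat_lit 393259) (nat_lit 21) (.e (nat_lit 409645) (nat_lit 18) (.e (nat_lit 303115) (nat_lit 1) .nil)))) .nil))))) (.nd (nat_lit 4) (.nd (nat_lit 5) (.nd (nat_lit 6) 
(.lf (nat_lit 246415) (.g (nat_lit 2551) (.e (nat_lit 131120) (nat_lit 12) (.e (nat_lit 385094) (nat_lit 49) (.e (nat_lit 778326) (nat_lit 6) (.e (nat_lit 81957) (nat_lit 24) (.e (nat_lit 123184) (nat_lit 264) (.e (nat_lit 1296) (nat_lit 96) .nil)))))) (.g (nat_lit 0) .nil .nil))) 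
(.lf (nat_lit 246479) (.g (nat_lit 2307) (.e (nat_lit 131124) (nat_lit 13) (.e (nat_lit 393301) (nat_lit 27) (.e (nat_lit 491558) (nat_lit 10) (.e (nat_lit 344097) (nat_lit 18) .nil)))) .nil))) (.nd (nat_lit 6) 
(.lf (nat_lit 246447) (.g (nat_lit 406) (.e (nat_lit 131123) (nat_lit 12) (.e (nat_lit 385068) (nat_lit 26) (.e (nat_lit 532510) (nat_lit 2) .nil))) .nil)) 
(.lf (nat_lit 246511) (.g (nat_lit 1306) (.e (nat_lit 131125) (nat_lit 13) (.e (nat_lit 393234) (nat_lit 17) (.e (nat_lit 7591) (nat_lit 407) (.e (nat_lit 73729) (nat_lit 0) .nil)))) .nil)))) (.nd (nat_lit 5) (.nd (nat_lit 6) 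
(.lf (nat_lit 246431) (.g (nat_lit 1715) (.e (nat_lit 131121) (nat_lit 12) (.e (nat_lit 385105) (nat_lit 50) (.e (nat_lit 786478) (nat_lit 29) (.e (nat_lit 352318) (nat_lit 24) (.e (nat_lit 123185) (nat_lit 264) .nil))))) .nil)) 
(.lf (nat_lit 246495) (.g (nat_lit 3072) (.e (nat_lit 131124) (nat_lit 13) (.e (nat_lit 393301) (nat_lit 27) (.e (nat_lit 491560) (nat_lit 10) (.e (nat_lit 344093) (nat_lit 18) .nil)))) .nil))) (.nd (nat_lit 6) 
(.lf (nat_lit 246463) (.g (nat_lit 579) (.e (nat_lit 131124) (nat_lit 13) (.e (nat_lit 393234) (nat_lit 17) (.e (nat_lit 7591) (nat_lit 407) .nil))) .nil)) 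
(.lf (nat_lit 246527) (.g (nat_lit 2524) (.e (nat_lit 131125) (nat_lit 13) (.e (nat_lit 393260) (nat_lit 21) (.e (nat_lit 409645) (nat_lit 18) (.e (nat_lit 303115) (nat_lit 1) (.e (nat_lit 164159) (nat_lit 152) .nil))))) .nil)))))))))

noncomputable def tv3201 : DT := (.nd (nat_lit 0) (.nd (nat_lit 1) (.nd (nat_lit 2) (.nd (nat_lit 3) (.nd (nat_lit 4) (.nd (nat_lit 5) (.nd (nat_lit 6) 
(.lf (nat_lit 246528) (.g (nat_lit 740) (.e (nat_lit 131125) (nat_lit 13) (.e (nat_lit 393260) (nat_lit 21) (.e (nat_lit 409646) (nat_lit 18) .nil))) .nil)) 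
(.lf (nat_lit 246592) (.g (nat_lit 2534) (.e (nat_lit 131125) (nat_lit 13) (.e (nat_lit 393301) (nat_lit 27) (.e (nat_lit 491560) (nat_lit 10) (.e (nat_lit 344088) (nat_lit 18) .nil)))) .nil))) (.nd (nat_lit 6) 
(.lf (nat_lit 246560) (.g (nat_lit 1560) (.e (nat_lit 131125) (nat_lit 13) (.e (nat_lit 393300) (nat_lit 27) (.e (nat_lit 491558) (nat_lit 10) (.e (nat_lit 344176) (nat_lit 43) .nil)))) .nil)) 
(.lf (nat_lit 246624) (.g (nat_lit 678) (.e (nat_lit 131126) (nat_lit 13) (.e (nat_lit 393260) (nat_lit 21) (.e (nat_lit 409623) (nat_lit 10) .nil))) .nil)))) (.nd (nat_lit 5) (.nd (nat_lit 6) 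
(.lf (nat_lit 246544) (.g (nat_lit 1785) (.e (nat_lit 131125) (nat_lit 13) (.e (nat_lit 393260) (nat_lit 21) (.e (nat_lit 409649) (nat_lit 18) (.e (nat_lit 303114) (nat_lit 1) .nil)))) .nil)) 
(.lf (nat_lit 246608) (.g (nat_lit 3170) (.e (nat_lit 131125) (nat_lit 13) (.e (nat_lit 393301) (nat_lit 27) (.e (nat_lit 491560) (nat_lit 10) (.e (nat_lit 344097) (nat_lit 18) (.e (nat_lit 7144) (nat_lit 382) .nil))))) .nil))) (.nd (nat_lit 6) 
(.lf (nat_lit 246576) (.g (nat_lit 1703) (.e (nat_lit 131125) (nat_lit 13) (.e (nat_lit 393301) (nat_lit 27) (.e (nat_lit 491558) (nat_lit 10) (.e (nat_lit 344095) (nat_lit 18) .nil)))) .nil)) 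
(.lf (nat_lit 246640) (.g (nat_lit 1385) (.e (nat_lit 131126) (nat_lit 13) (.e (nat_lit 393260) (nat_lit 21) (.e (nat_lit 409647) (nat_lit 18) (.e (nat_lit 303115) (nat_lit 1) .nil)))) .nil))))) (.nd (nat_lit 4) (.nd (nat_lit 5) (.nd (nat_lit 6) 
(.lf (nat_lit 246536) (.g (nat_lit 1704) (.e (nat_lit 131125) (nat_lit 13) (.e (nat_lit 393260) (nat_lit 21) (.e (nat_lit 409648) (nat_lit 18) (.e (nat_lit 303107) (nat_lit 0) .nil)))) .nil)) 
(.lf (nat_lit 246600) (.g (nat_lit 2621) (.e (nat_lit 131125) (nat_lit 13) (.e (nat_lit 393301) (nat_lit 27) (.e (nat_lit 491560) (nat_lit 10) (.e (nat_lit 344091) (nat_lit 18) (.e (nat_lit 7122) (nat_lit 382) .nil))))) .nil))) (.nd (nat_lit 6) 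
(.lf (nat_lit 246568) (.g (nat_lit 682) (.e (nat_lit 131125) (nat_lit 13) (.e (nat_lit 393301) (nat_lit 27) (.e (nat_lit 491558) (nat_lit 10) .nil))) .nil)) 
(.lf (nat_lit 246632) (.g (nat_lit 3496) (.e (nat_lit 131126) (nat_lit 13) (.e (nat_lit 393260) (nat_lit 21) (.e (nat_lit 409645) (nat_lit 18) (.e (nat_lit 303115) (nat_lit 1) (.e (nat_lit 164159) (nat_lit 152) (.e (nat_lit 1296) (nat_lit 96) .nil)))))) (.g (nat_lit 6) .nil .nil))))) (.nd (nat_lit 5) (.nd (nat_lit 6) 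
(.lf (nat_lit 246552) (.g (nat_lit 967) (.e (nat_lit 131125) (nat_lit 13) (.e (nat_lit 393299) (nat_lit 27) (.e (nat_lit 491560) (nat_lit 10) .nil))) .nil)) 
(.lf (nat_lit 246616) (.g (nat_lit 2769) (.e (nat_lit 131125) (nat_lit 13) (.e (nat_lit 393301) (nat_lit 27) (.e (nat_lit 491563) (nat_lit 12) (.e (nat_lit 385077) (nat_lit 34) .nil)))) .nil))) (.nd (nat_lit 6) 
(.lf (nat_lit 246584) (.g (nat_lit 2126) (.e (nat_lit 131125) (nat_lit 13) (.e (nat_lit 393301) (nat_lit 27) (.e (nat_lit 491559) (nat_lit 10) (.e (nat_lit 344090) (nat_lit 18) .nil)))) .nil)) 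
(.lf (nat_lit 246648) (.g (nat_lit 2378) (.e (nat_lit 131126) (nat_lit 13) (.e (nat_lit 393260) (nat_lit 21) (.e (nat_lit 409649) (nat_lit 18) (.e (nat_lit 303111) (nat_lit 0) (.e (nat_lit 3468) (nat_lit 217) .nil))))) .nil)))))) (.nd (nat_lit 3) (.nd (nat_lit 4) (.nd (nat_lit 5) (.nd (nat_lit 6) 
(.lf (nat_lit 246532) (.g (nat_lit 2402) (.e (nat_lit 131125) (nat_lit 13) (.e (nat_lit 393260) (nat_lit 21) (.e (nat_lit 409646) (nat_lit 18) (.e (nat_lit 303115) (nat_lit 1) (.e (nat_lit 164159) (nat_lit 152) (.e (nat_lit 1296) (nat_lit 96) .nil)))))) (.g (nat_lit 4) .nil .nil))) 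
(.lf (nat_lit 246596) (.g (nat_lit 3597) (.e (nat_lit 131125) (nat_lit 13) (.e (nat_lit 393301) (nat_lit 27) (.e (nat_lit 491560) (nat_lit 10) (.e (nat_lit 344090) (nat_lit 18) (.e (nat_lit 7124) (nat_lit 382) (.e (nat_lit 1296) (nat_lit 96) .nil)))))) (.g (nat_lit 6) .nil .nil)))) (.nd (nat_lit 6) 
(.lf (nat_lit 246564) (.g (nat_lit 2398) (.e (nat_lit 131125) (nat_lit 13) (.e (nat_lit 393300) (nat_lit 27) (.e (nat_lit 491560) (nat_lit 10) (.e (nat_lit 344094) (nat_lit 18) (.e (nat_lit 7125) (nat_lit 382) (.e (nat_lit 1296) (nat_lit 96) .nil)))))) (.g (nat_lit 6) .nil .nil))) 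
(.lf (nat_lit 246628) (.g (nat_lit 1850) (.e (nat_lit 131126) (nat_lit 13) (.e (nat_lit 393260) (nat_lit 21) (.e (nat_lit 409645) (nat_lit 18) (.e (nat_lit 303114) (nat_lit 1) .nil)))) .nil)))) (.nd (nat_lit 5) (.nd (nat_lit 6) 
(.lf (nat_lit 246548) (.g (nat_lit 2715) (.e (nat_lit 131125) (nat_lit 13) (.e (nat_lit 393271) (nat_lit 23) (.e (nat_lit 426448) (nat_lit 20) (.e (nat_lit 114710) (nat_lit 21) .nil)))) .nil)) 
(.lf (nat_lit 246612) (.g (nat_lit 2321) (.e (nat_lit 131125) (nat_lit 13) (.e (nat_lit 393301) (nat_lit 27) (.e (nat_lit 491560) (nat_lit 10) (.e (nat_lit 344174) (nat_lit 42) .nil)))) .nil))) (.nd (nat_lit 6) 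
(.lf (nat_lit 246580) (.g (nat_lit 3775) (.e (nat_lit 131125) (nat_lit 13) (.e (nat_lit 393301) (nat_lit 27) (.e (nat_lit 491558) (nat_lit 10) (.e (nat_lit 344096) (nat_lit 18) (.e (nat_lit 7125) (nat_lit 382) (.e (nat_lit 1296) (nat_lit 96) .nil)))))) (.g (nat_lit 0) .nil .nil))) 
(.lf (nat_lit 246644) (.g (nat_lit 1778) (.e (nat_lit 131126) (nat_lit 13) (.e (nat_lit 393260) (nat_lit 21) (.e (nat_lit 409648) (nat_lit 18) (.e (nat_lit 303114) (nat_lit 1) (.e (nat_lit 164160) (nat_lit 152) .nil))))) .nil))))) (.nd (nat_lit 4) (.nd (nat_lit 5) (.nd (nat_lit 6) 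
(.lf (nat_lit 246540) (.g (nat_lit 2159) (.e (nat_lit 131125) (nat_lit 13) (.e (nat_lit 393260) (nat_lit 21) (.e (nat_lit 409649) (nat_lit 18) (.e (nat_lit 303107) (nat_lit 0) .nil)))) .nil)) 
(.lf (nat_lit 246604) (.g (nat_lit 2611) (.e (nat_lit 131125) (nat_lit 13) (.e (nat_lit 393301) (nat_lit 27) (.e (nat_lit 491560) (nat_lit 10) (.e (nat_lit 344095) (nat_lit 18) .nil)))) .nil))) (.nd (nat_lit 6) 
(.lf (nat_lit 246572) (.g (nat_lit 2057) (.e (nat_lit 131125) (nat_lit 13) (.e (nat_lit 393301) (nat_lit 27) (.e (nat_lit 491558) (nat_lit 10) (.e (nat_lit 344090) (nat_lit 18) (.e (nat_lit 7130) (nat_lit 382) .nil))))) .nil)) 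
(.lf (nat_lit 246636) (.g (nat_lit 2211) (.e (nat_lit 131126) (nat_lit 13) (.e (nat_lit 393260) (nat_lit 21) (.e (nat_lit 409646) (nat_lit 18) (.e (nat_lit 303115) (nat_lit 1) (.e (nat_lit 164148) (nat_lit 152) .nil))))) .nil)))) (.nd (nat_lit 5) (.nd (nat_lit 6) 
(.lf (nat_lit 246556) (.g (nat_lit 1561) (.e (nat_lit 131125) (nat_lit 13) (.e (nat_lit 393300) (nat_lit 27) (.e (nat_lit 491558) (nat_lit 10) (.e (nat_lit 344095) (nat_lit 18) (.e (nat_lit 7125) (nat_lit 382) .nil))))) .nil)) 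
(.lf (nat_lit 246620) (.g (nat_lit 1717) (.e (nat_lit 131126) (nat_lit 13) (.e (nat_lit 393238) (nat_lit 17) (.e (nat_lit 6989) (nat_lit 377) (.e (nat_lit 2777) (nat_lit 178) .nil)))) .nil))) (.nd (nat_lit 6) 
(.lf (nat_lit 246588) (.g (nat_lit 2133) (.e (nat_lit 131125) (nat_lit 13) (.e (nat_lit 393301) (nat_lit 27) (.e (nat_lit 491559) (nat_lit 10) (.e (nat_lit 344095) (nat_lit 18) .nil)))) .nil)) 
(.lf (nat_lit 246652) (.g (nat_lit 1016) (.e (nat_lit 131126) (nat_lit 13) (.e (nat_lit 393260) (nat_lit 21) (.e (nat_lit 409650) (nat_lit 19) .nil))) .nil))))))) (.nd (nat_lit 2) (.nd (nat_lit 3) (.nd (nat_lit 4) (.nd (nat_lit 5) (.nd (nat_lit 6) 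
(.lf (nat_lit 246530) (.g (nat_lit 2280) (.e (nat_lit 131125) (nat_lit 13) (.e (nat_lit 393260) (nat_lit 21) (.e (nat_lit 409646) (nat_lit 18) (.e (nat_lit 303115) (nat_lit 1) (.e (nat_lit 164148) (nat_lit 152) .nil))))) .nil)) 
(.lf (nat_lit 246594) (.g (nat_lit 2666) (.e (nat_lit 131125) (nat_lit 13) (.e (nat_lit 393301) (nat_lit 27) (.e (nat_lit 491560) (nat_lit 10) (.e (nat_lit 344089) (nat_lit 18) .nil)))) .nil))) (.nd (nat_lit 6) 
(.lf (nat_lit 246562) (.g (nat_lit 1417) (.e (nat_lit 131125) (nat_lit 13) (.e (nat_lit 393300) (nat_lit 27) (.e (nat_lit 491560) (nat_lit 10) (.e (nat_lit 344089) (nat_lit 18) .nil)))) .nil)) 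
(.lf (nat_lit 246626) (.g (nat_lit 2741) (.e (nat_lit 131126) (nat_lit 13) (.e (nat_lit 393260) (nat_lit 21) (.e (nat_lit 409643) (nat_lit 18) (.e (nat_lit 303115) (nat_lit 1) (.e (nat_lit 164159) (nat_lit 152) (.e (nat_lit 1296) (nat_lit 96) .nil)))))) (.g (nat_lit 6) .nil .nil))))) (.nd (nat_lit 5) (.nd (nat_lit 6) 
(.lf (nat_lit 246546) (.g (nat_lit 2302) (.e (nat_lit 131125) (nat_lit 13) (.e (nat_lit 393260) (nat_lit 21) (.e (nat_lit 409649) (nat_lit 18) (.e (nat_lit 303115) (nat_lit 1) (.e (nat_lit 164148) (nat_lit 152) (.e (nat_lit 1298) (nat_lit 96) .nil)))))) (.g (nat_lit 4) .nil .nil))) 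
(.lf (nat_lit 246610) (.g (nat_lit 2037) (.e (nat_lit 131125) (nat_lit 13) (.e (nat_lit 393301) (nat_lit 27) (.e (nat_lit 491560) (nat_lit 10) (.e (nat_lit 344099) (nat_lit 18) .nil)))) .nil))) (.nd (nat_lit 6) 
(.lf (nat_lit 246578) (.g (nat_lit 1597) (.e (nat_lit 131125) (nat_lit 13) (.e (nat_lit 393301) (nat_lit 27) (.e (nat_lit 491558) (nat_lit 10) (.e (nat_lit 344096) (nat_lit 18) .nil)))) .nil)) 
(.lf (nat_lit 246642) (.g (nat_lit 650) (.e (nat_lit 131126) (nat_lit 13) (.e (nat_lit 393260) (nat_lit 21) (.e (nat_lit 409648) (nat_lit 18) .nil))) .nil))))) (.nd (nat_lit 4) (.nd (nat_lit 5) (.nd (nat_lit 6) 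
(.lf (nat_lit 246538) (.g (nat_lit 2200) (.e (nat_lit 131125) (nat_lit 13) (.e (nat_lit 393260) (nat_lit 21) (.e (nat_lit 409648) (nat_lit 18) (.e (nat_lit 303115) (nat_lit 1) (.e (nat_lit 164148) (nat_lit 152) .nil))))) .nil)) 
(.lf (nat_lit 246602) (.g (nat_lit 1569) (.e (nat_lit 131125) (nat_lit 13) (.e (nat_lit 393301) (nat_lit 27) (.e (nat_lit 491560) (nat_lit 10) (.e (nat_lit 344094) (nat_lit 18) .nil)))) .nil))) (.nd (nat_lit 6) 
(.lf (nat_lit 246570) (.g (nat_lit 2069) (.e (nat_lit 131125) (nat_lit 13) (.e (nat_lit 393301) (nat_lit 27) (.e (nat_lit 491558) (nat_lit 10) (.e (nat_lit 344090) (nat_lit 18) (.e (nat_lit 7122) (nat_lit 382) .nil))))) .nil)) 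
(.lf (nat_lit 246634) (.g (nat_lit 1866) (.e (nat_lit 131126) (nat_lit 13) (.e (nat_lit 393260) (nat_lit 21) (.e (nat_lit 409646) (nat_lit 18) (.e (nat_lit 303114) (nat_lit 1) .nil)))) .nil)))) (.nd (nat_lit 5) (.nd (nat_lit 6) 
(.lf (nat_lit 246554) (.g (nat_lit 3002) (.e (nat_lit 131125) (nat_lit 13) (.e (nat_lit 393300) (nat_lit 27) (.e (nat_lit 491558) (nat_lit 10) (.e (nat_lit 344091) (nat_lit 18) (.e (nat_lit 7124) (nat_lit 382) (.e (nat_lit 1296) (nat_lit 96) .nil)))))) (.g (nat_lit 6) .nil .nil))) 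
(.lf (nat_lit 246618) (.g (nat_lit 1212) (.e (nat_lit 131126) (nat_lit 13) (.e (nat_lit 393234) (nat_lit 17) (.e (nat_lit 7591) (nat_lit 407) (.e (nat_lit 73730) (nat_lit 0) .nil)))) .nil))) (.nd (nat_lit 6) 
(.lf (nat_lit 246586) (.g (nat_lit 3976) (.e (nat_lit 131125) (nat_lit 13) (.e (nat_lit 393301) (nat_lit 27) (.e (nat_lit 491559) (nat_lit 10) (.e (nat_lit 344091) (nat_lit 18) (.e (nat_lit 7125) (nat_lit 382) (.e (nat_lit 1296) (nat_lit 96) .nil)))))) (.g (nat_lit 0) .nil .nil))) 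
(.lf (nat_lit 246650) (.g (nat_lit 2072) (.e (nat_lit 131126) (nat_lit 13) (.e (nat_lit 393260) (nat_lit 21) (.e (nat_lit 409649) (nat_lit 18) (.e (nat_lit 303115) (nat_lit 1) (.e (nat_lit 164148) (nat_lit 152) .nil))))) .nil)))))) (.nd (nat_lit 3) (.nd (nat_lit 4) (.nd (nat_lit 5) (.nd (nat_lit 6) 
(.lf (nat_lit 246534) (.g (nat_lit 692) (.e (nat_lit 131125) (nat_lit 13) (.e (nat_lit 393260) (nat_lit 21) (.e (nat_lit 409648) (nat_lit 18) .nil))) .nil)) 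
(.lf (nat_lit 246598) (.g (nat_lit 2226) (.e (nat_lit 131125) (nat_lit 13) (.e (nat_lit 393301) (nat_lit 27) (.e (nat_lit 491560) (nat_lit 10) (.e (nat_lit 344090) (nat_lit 18) (.e (nat_lit 7130) (nat_lit 382) .nil))))) .nil))) (.nd (nat_lit 6) 
(.lf (nat_lit 246566) (.g (nat_lit 2941) (.e (nat_lit 131125) (nat_lit 13) (.e (nat_lit 393300) (nat_lit 27) (.e (nat_lit 491560) (nat_lit 10) (.e (nat_lit 344096) (nat_lit 18) (.e (nat_lit 7125) (nat_lit 382) (.e (nat_lit 1296) (nat_lit 96) .nil)))))) (.g (nat_lit 0) .nil .nil))) 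
(.lf (nat_lit 246630) (.g (nat_lit 2608) (.e (nat_lit 131126) (nat_lit 13) (.e (nat_lit 393260) (nat_lit 21) (.e (nat_lit 409645) (nat_lit 18) (.e (nat_lit 303115) (nat_lit 1) (.e (nat_lit 164148) (nat_lit 152) .nil))))) .nil)))) (.nd (nat_lit 5) (.nd (nat_lit 6) 
(.lf (nat_lit 246550) (.g (nat_lit 1338) (.e (nat_lit 131125) (nat_lit 13) (.e (nat_lit 393293) (nat_lit 26) (.e (nat_lit 475214) (nat_lit 42) (.e (nat_lit 720934) (nat_lit 21) .nil)))) .nil)) 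
(.lf (nat_lit 246614) (.g (nat_lit 3491) (.e (nat_lit 131125) (nat_lit 13) (.e (nat_lit 393301) (nat_lit 27) (.e (nat_lit 491560) (nat_lit 10) (.e (nat_lit 344176) (nat_lit 43) (.e (nat_lit 770076) (nat_lit 12) .nil))))) (.g (nat_lit 5) .nil .nil)))) (.nd (nat_lit 6) 
(.lf (nat_lit 246582) (.g (nat_lit 2115) (.e (nat_lit 131125) (nat_lit 13) (.e (nat_lit 393301) (nat_lit 27) (.e (nat_lit 491558) (nat_lit 10) (.e (nat_lit 344175) (nat_lit 43) .nil)))) .nil)) 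
(.lf (nat_lit 246646) (.g (nat_lit 2180) (.e (nat_lit 131126) (nat_lit 13) (.e (nat_lit 393260) (nat_lit 21) (.e (nat_lit 409648) (nat_lit 18) (.e (nat_lit 303120) (nat_lit 4) .nil)))) .nil))))) (.nd (nat_lit 4) (.nd (nat_lit 5) (.nd (nat_lit 6) 
(.lf (nat_lit 246542) (.g (nat_lit 2604) (.e (nat_lit 131125) (nat_lit 13) (.e (nat_lit 393260) (nat_lit 21) (.e (nat_lit 409649) (nat_lit 18) (.e (nat_lit 303111) (nat_lit 0) (.e (nat_lit 3468) (nat_lit 217) (.e (nat_lit 696365) (nat_lit 20) .nil)))))) (.g (nat_lit 4) .nil .nil))) 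
(.lf (nat_lit 246606) (.g (nat_lit 3748) (.e (nat_lit 131125) (nat_lit 13) (.e (nat_lit 393301) (nat_lit 27) (.e (nat_lit 491560) (nat_lit 10) (.e (nat_lit 344096) (nat_lit 18) (.e (nat_lit 7125) (nat_lit 382) (.e (nat_lit 1296) (nat_lit 96) .nil)))))) (.g (nat_lit 6) .nil .nil)))) (.nd (nat_lit 6) 
(.lf (nat_lit 246574) (.g (nat_lit 3697) (.e (nat_lit 131125) (nat_lit 13) (.e (nat_lit 393301) (nat_lit 27) (.e (nat_lit 491558) (nat_lit 10) (.e (nat_lit 344091) (nat_lit 18) (.e (nat_lit 7124) (nat_lit 382) (.e (nat_lit 1296) (nat_lit 96) .nil)))))) (.g (nat_lit 6) .nil .nil))) 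
(.lf (nat_lit 246638) (.g (nat_lit 3211) (.e (nat_lit 131126) (nat_lit 13) (.e (nat_lit 393260) (nat_lit 21) (.e (nat_lit 409646) (nat_lit 18) (.e (nat_lit 303115) (nat_lit 1) (.e (nat_lit 164159) (nat_lit 152) (.e (nat_lit 1296) (nat_lit 96) .nil)))))) (.g (nat_lit 6) .nil .nil))))) (.nd (nat_lit 5) (.nd (nat_lit 6) 
(.lf (nat_lit 246558) (.g (nat_lit 2992) (.e (nat_lit 131125) (nat_lit 13) (.e (nat_lit 393300) (nat_lit 27) (.e (nat_lit 491558) (nat_lit 10) (.e (nat_lit 344096) (nat_lit 18) (.e (nat_lit 7124) (nat_lit 382) (.e (nat_lit 1296) (nat_lit 96) .nil)))))) (.g (nat_lit 6) .nil .nil))) 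
(.lf (nat_lit 246622) (.g (nat_lit 1851) (.e (nat_lit 131126) (nat_lit 13) (.e (nat_lit 393259) (nat_lit 21) (.e (nat_lit 409645) (nat_lit 18) (.e (nat_lit 303115) (nat_lit 1) (.e (nat_lit 164155) (nat_lit 152) .nil))))) .nil))) (.nd (nat_lit 6) 
(.lf (nat_lit 246590) (.g (nat_lit 3908) (.e (nat_lit 131125) (nat_lit 13) (.e (nat_lit 393301) (nat_lit 27) (.e (nat_lit 491559) (nat_lit 10) (.e (nat_lit 344177) (nat_lit 43) (.e (nat_lit 770076) (nat_lit 12) .nil))))) (.g (nat_lit 0) .nil .nil))) 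
(.lf (nat_lit 246654) (.g (nat_lit 825) (.e (nat_lit 131126) (nat_lit 13) (.e (nat_lit 393299) (nat_lit 27) (.e (nat_lit 491560) (nat_lit 10) .nil))) .nil)))))))) (.nd (nat_lit 1) (.nd (nat_lit 2) (.nd (nat_lit 3) (.nd (nat_lit 4) (.nd (nat_lit 5) (.nd (nat_lit 6) 
(.lf (nat_lit 246529) (.g (nat_lit 1608) (.e (nat_lit 131125) (nat_lit 13) (.e (nat_lit 393260) (nat_lit 21) (.e (nat_lit 409646) (nat_lit 18) (.e (nat_lit 303115) (nat_lit 1) .nil)))) .nil)) 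
(.lf (nat_lit 246593) (.g (nat_lit 2989) (.e (nat_lit 131125) (nat_lit 13) (.e (nat_lit 393301) (nat_lit 27) (.e (nat_lit 491560) (nat_lit 10) (.e (nat_lit 344088) (nat_lit 18) (.e (nat_lit 7125) (nat_lit 382) .nil))))) .nil))) (.nd (nat_lit 6) 
(.lf (nat_lit 246561) (.g (nat_lit 1501) (.e (nat_lit 131125) (nat_lit 13) (.e (nat_lit 393300) (nat_lit 27) (.e (nat_lit 491560) (nat_lit 10) (.e (nat_lit 344087) (nat_lit 18) .nil)))) .nil)) 
(.lf (nat_lit 246625) (.g (nat_lit 1191) (.e (nat_lit 131126) (nat_lit 13) (.e (nat_lit 393260) (nat_lit 21) (.e (nat_lit 409643) (nat_lit 18) (.e (nat_lit 303115) (nat_lit 1) .nil)))) .nil)))) (.nd (nat_lit 5) (.nd (nat_lit 6) 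
(.lf (nat_lit 246545) (.g (nat_lit 1700) (.e (nat_lit 131125) (nat_lit 13) (.e (nat_lit 393260) (nat_lit 21) (.e (nat_lit 409649) (nat_lit 18) (.e (nat_lit 303115) (nat_lit 1) .nil)))) .nil)) 
(.lf (nat_lit 246609) (.g (nat_lit 3198) (.e (nat_lit 131125) (nat_lit 13) (.e (nat_lit 393301) (nat_lit 27) (.e (nat_lit 491560) (nat_lit 10) (.e (nat_lit 344097) (nat_lit 18) (.e (nat_lit 7146) (nat_lit 382) .nil))))) .nil))) (.nd (nat_lit 6) 
(.lf (nat_lit 246577) (.g (nat_lit 1959) (.e (nat_lit 131125) (nat_lit 13) (.e (nat_lit 393301) (nat_lit 27) (.e (nat_lit 491558) (nat_lit 10) (.e (nat_lit 344095) (nat_lit 18) (.e (nat_lit 7122) (nat_lit 382) .nil))))) .nil)) 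
(.lf (nat_lit 246641) (.g (nat_lit 1823) (.e (nat_lit 131126) (nat_lit 13) (.e (nat_lit 393260) (nat_lit 21) (.e (nat_lit 409647) (nat_lit 18) (.e (nat_lit 303115) (nat_lit 1) (.e (nat_lit 164159) (nat_lit 152) .nil))))) .nil))))) (.nd (nat_lit 4) (.nd (nat_lit 5) (.nd (nat_lit 6) 
(.lf (nat_lit 246537) (.g (nat_lit 2011) (.e (nat_lit 131125) (nat_lit 13) (.e (nat_lit 393260) (nat_lit 21) (.e (nat_lit 409648) (nat_lit 18) (.e (nat_lit 303108) (nat_lit 0) .nil)))) .nil)) 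
(.lf (nat_lit 246601) (.g (nat_lit 2636) (.e (nat_lit 131125) (nat_lit 13) (.e (nat_lit 393301) (nat_lit 27) (.e (nat_lit 491560) (nat_lit 10) (.e (nat_lit 344093) (nat_lit 18) .nil)))) .nil))) (.nd (nat_lit 6) 
(.lf (nat_lit 246569) (.g (nat_lit 2091) (.e (nat_lit 131125) (nat_lit 13) (.e (nat_lit 393301) (nat_lit 27) (.e (nat_lit 491558) (nat_lit 10) (.e (nat_lit 344088) (nat_lit 18) .nil)))) .nil)) 
(.lf (nat_lit 246633) (.g (nat_lit 2591) (.e (nat_lit 131126) (nat_lit 13) (.e (nat_lit 393260) (nat_lit 21) (.e (nat_lit 409645) (nat_lit 18) (.e (nat_lit 303115) (nat_lit 1) (.e (nat_lit 164160) (nat_lit 152) .nil))))) .nil)))) (.nd (nat_lit 5) (.nd (nat_lit 6) 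
(.lf (nat_lit 246553) (.g (nat_lit 1995) (.e (nat_lit 131125) (nat_lit 13) (.e (nat_lit 393299) (nat_lit 27) (.e (nat_lit 491560) (nat_lit 10) (.e (nat_lit 344090) (nat_lit 18) .nil)))) .nil)) 
(.lf (nat_lit 246617) (.g (nat_lit 2252) (.e (nat_lit 131126) (nat_lit 13) (.e (nat_lit 393229) (nat_lit 9) (.e (nat_lit 335996) (nat_lit 1) (.e (nat_lit 57931) (nat_lit 282) (.e (nat_lit 163866) (nat_lit 2) .nil))))) .nil))) (.nd (nat_lit 6) 
(.lf (nat_lit 246585) (.g (nat_lit 2091) (.e (nat_lit 131125) (nat_lit 13) (.e (nat_lit 393301) (nat_lit 27) (.e (nat_lit 491559) (nat_lit 10) (.e (nat_lit 344091) (nat_lit 18) .nil)))) .nil)) 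
(.lf (nat_lit 246649) (.g (nat_lit 1552) (.e (nat_lit 131126) (nat_lit 13) (.e (nat_lit 393260) (nat_lit 21) (.e (nat_lit 409649) (nat_lit 18) (.e (nat_lit 303115) (nat_lit 1) .nil)))) .nil)))))) (.nd (nat_lit 3) (.nd (nat_lit 4) (.nd (nat_lit 5) (.nd (nat_lit 6) 
(.lf (nat_lit 246533) (.g (nat_lit 747) (.e (nat_lit 131125) (nat_lit 13) (.e (nat_lit 393260) (nat_lit 21) (.e (nat_lit 409647) (nat_lit 18) .nil))) .nil)) 
(.lf (nat_lit 246597) (.g (nat_lit 3466) (.e (nat_lit 131125) (nat_lit 13) (.e (nat_lit 393301) (nat_lit 27) (.e (nat_lit 491560) (nat_lit 10) (.e (nat_lit 344090) (nat_lit 18) (.e (nat_lit 7125) (nat_lit 382) (.e (nat_lit 1296) (nat_lit 96) .nil)))))) (.g (nat_lit 0) .nil .nil)))) (.nd (nat_lit 6) 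
(.lf (nat_lit 246565) (.g (nat_lit 1758) (.e (nat_lit 131125) (nat_lit 13) (.e (nat_lit 393300) (nat_lit 27) (.e (nat_lit 491560) (nat_lit 10) (.e (nat_lit 344095) (nat_lit 18) (.e (nat_lit 7122) (nat_lit 382) .nil))))) .nil)) 
(.lf (nat_lit 246629) (.g (nat_lit 1609) (.e (nat_lit 131126) (nat_lit 13) (.e (nat_lit 393260) (nat_lit 21) (.e (nat_lit 409645) (nat_lit 18) (.e (nat_lit 303115) (nat_lit 1) .nil)))) .nil)))) (.nd (nat_lit 5) (.nd (nat_lit 6) 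
(.lf (nat_lit 246549) (.g (nat_lit 2122) (.e (nat_lit 131125) (nat_lit 13) (.e (nat_lit 393293) (nat_lit 26) (.e (nat_lit 475212) (nat_lit 42) (.e (nat_lit 720934) (nat_lit 21) (.e (nat_lit 57830) (nat_lit 250) (.e (nat_lit 1296) (nat_lit 96) .nil)))))) (.g (nat_lit 0) .nil .nil))) 
(.lf (nat_lit 246613) (.g (nat_lit 2263) (.e (nat_lit 131125) (nat_lit 13) (.e (nat_lit 393301) (nat_lit 27) (.e (nat_lit 491560) (nat_lit 10) (.e (nat_lit 344175) (nat_lit 43) (.e (nat_lit 770076) (nat_lit 12) .nil))))) (.g (nat_lit 4) .nil .nil)))) (.nd (nat_lit 6) 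
(.lf (nat_lit 246581) (.g (nat_lit 1735) (.e (nat_lit 131125) (nat_lit 13) (.e (nat_lit 393301) (nat_lit 27) (.e (nat_lit 491558) (nat_lit 10) (.e (nat_lit 344097) (nat_lit 18) .nil)))) .nil)) 
(.lf (nat_lit 246645) (.g (nat_lit 1653) (.e (nat_lit 131126) (nat_lit 13) (.e (nat_lit 393260) (nat_lit 21) (.e (nat_lit 409648) (nat_lit 18) (.e (nat_lit 303115) (nat_lit 1) .nil)))) .nil))))) (.nd (nat_lit 4) (.nd (nat_lit 5) (.nd (nat_lit 6) 
(.lf (nat_lit 246541) (.g (nat_lit 2583) (.e (nat_lit 131125) (nat_lit 13) (.e (nat_lit 393260) (nat_lit 21) (.e (nat_lit 409649) (nat_lit 18) (.e (nat_lit 303111) (nat_lit 0) (.e (nat_lit 3459) (nat_lit 216) .nil))))) .nil)) 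
(.lf (nat_lit 246605) (.g (nat_lit 2033) (.e (nat_lit 131125) (nat_lit 13) (.e (nat_lit 393301) (nat_lit 27) (.e (nat_lit 491560) (nat_lit 10) (.e (nat_lit 344096) (nat_lit 18) .nil)))) .nil))) (.nd (nat_lit 6) 
(.lf (nat_lit 246573) (.g (nat_lit 1511) (.e (nat_lit 131125) (nat_lit 13) (.e (nat_lit 393301) (nat_lit 27) (.e (nat_lit 491558) (nat_lit 10) (.e (nat_lit 344091) (nat_lit 18) .nil)))) .nil)) 
(.lf (nat_lit 246637) (.g (nat_lit 2325) (.e (nat_lit 131126) (nat_lit 13) (.e (nat_lit 393260) (nat_lit 21) (.e (nat_lit 409646) (nat_lit 18) (.e (nat_lit 303115) (nat_lit 1) (.e (nat_lit 164158) (nat_lit 152) .nil))))) .nil)))) (.nd (nat_lit 5) (.nd (nat_lit 6) 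
(.lf (nat_lit 246557) (.g (nat_lit 2670) (.e (nat_lit 131125) (nat_lit 13) (.e (nat_lit 393300) (nat_lit 27) (.e (nat_lit 491558) (nat_lit 10) (.e (nat_lit 344096) (nat_lit 18) (.e (nat_lit 7122) (nat_lit 382) (.e (nat_lit 1296) (nat_lit 96) .nil)))))) (.g (nat_lit 5) .nil .nil))) 
(.lf (nat_lit 246621) (.g (nat_lit 1131) (.e (nat_lit 131126) (nat_lit 13) (.e (nat_lit 393238) (nat_lit 17) (.e (nat_lit 6989) (nat_lit 377) (.e (nat_lit 2810) (nat_lit 180) .nil)))) .nil))) (.nd (nat_lit 6) 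
(.lf (nat_lit 246589) (.g (nat_lit 2099) (.e (nat_lit 131125) (nat_lit 13) (.e (nat_lit 393301) (nat_lit 27) (.e (nat_lit 491559) (nat_lit 10) (.e (nat_lit 344175) (nat_lit 43) .nil)))) .nil)) 
(.lf (nat_lit 246653) (.g (nat_lit 1299) (.e (nat_lit 131126) (nat_lit 13) (.e (nat_lit 393271) (nat_lit 23) (.e (nat_lit 426448) (nat_lit 20) .nil))) .nil))))))) (.nd (nat_lit 2) (.nd (nat_lit 3) (.nd (nat_lit 4) (.nd (nat_lit 5) (.nd (nat_lit 6) 
(.lf (nat_lit 246531) (.g (nat_lit 2439) (.e (nat_lit 131125) (nat_lit 13) (.e (nat_lit 393260) (nat_lit 21) (.e (nat_lit 409646) (nat_lit 18) (.e (nat_lit 303115) (nat_lit 1) (.e (nat_lit 164155) (nat_lit 152) (.e (nat_lit 1296) (nat_lit 96) .nil)))))) (.g (nat_lit 4) .nil .nil))) 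
(.lf (nat_lit 246595) (.g (nat_lit 1637) (.e (nat_lit 131125) (nat_lit 13) (.e (nat_lit 393301) (nat_lit 27) (.e (nat_lit 491560) (nat_lit 10) (.e (nat_lit 344090) (nat_lit 18) .nil)))) .nil))) (.nd (nat_lit 6) 
(.lf (nat_lit 246563) (.g (nat_lit 1023) (.e (nat_lit 131125) (nat_lit 13) (.e (nat_lit 393300) (nat_lit 27) (.e (nat_lit 491560) (nat_lit 10) (.e (nat_lit 344090) (nat_lit 18) .nil)))) .nil)) 
(.lf (nat_lit 246627) (.g (nat_lit 748) (.e (nat_lit 131126) (nat_lit 13) (.e (nat_lit 393260) (nat_lit 21) (.e (nat_lit 409644) (nat_lit 18) .nil))) .nil)))) (.nd (nat_lit 5) (.nd (nat_lit 6) 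
(.lf (nat_lit 246547) (.g (nat_lit 1299) (.e (nat_lit 131125) (nat_lit 13) (.e (nat_lit 393271) (nat_lit 23) (.e (nat_lit 426448) (nat_lit 20) .nil))) .nil)) 
(.lf (nat_lit 246611) (.g (nat_lit 2238) (.e (nat_lit 131125) (nat_lit 13) (.e (nat_lit 393301) (nat_lit 27) (.e (nat_lit 491560) (nat_lit 10) (.e (nat_lit 352000) (nat_lit 18) .nil)))) .nil))) (.nd (nat_lit 6) 
(.lf (nat_lit 246579) (.g (nat_lit 2300) (.e (nat_lit 131125) (nat_lit 13) (.e (nat_lit 393301) (nat_lit 27) (.e (nat_lit 491558) (nat_lit 10) (.e (nat_lit 344096) (nat_lit 18) (.e (nat_lit 7122) (nat_lit 382) .nil))))) .nil)) 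
(.lf (nat_lit 246643) (.g (nat_lit 1550) (.e (nat_lit 131126) (nat_lit 13) (.e (nat_lit 393260) (nat_lit 21) (.e (nat_lit 409648) (nat_lit 18) (.e (nat_lit 303104) (nat_lit 0) .nil)))) .nil))))) (.nd (nat_lit 4) (.nd (nat_lit 5) (.nd (nat_lit 6) 
(.lf (nat_lit 246539) (.g (nat_lit 642) (.e (nat_lit 131125) (nat_lit 13) (.e (nat_lit 393260) (nat_lit 21) (.e (nat_lit 409649) (nat_lit 18) .nil))) .nil)) 
(.lf (nat_lit 246603) (.g (nat_lit 3273) (.e (nat_lit 131125) (nat_lit 13) (.e (nat_lit 393301) (nat_lit 27) (.e (nat_lit 491560) (nat_lit 10) (.e (nat_lit 344094) (nat_lit 18) (.e (nat_lit 7124) (nat_lit 382) (.e (nat_lit 1296) (nat_lit 96) .nil)))))) (.g (nat_lit 6) .nil .nil)))) (.nd (nat_lit 6) 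
(.lf (nat_lit 246571) (.g (nat_lit 3273) (.e (nat_lit 131125) (nat_lit 13) (.e (nat_lit 393301) (nat_lit 27) (.e (nat_lit 491558) (nat_lit 10) (.e (nat_lit 344090) (nat_lit 18) (.e (nat_lit 7125) (nat_lit 382) (.e (nat_lit 1296) (nat_lit 96) .nil)))))) (.g (nat_lit 0) .nil .nil))) 
(.lf (nat_lit 246635) (.g (nat_lit 1538) (.e (nat_lit 131126) (nat_lit 13) (.e (nat_lit 393260) (nat_lit 21) (.e (nat_lit 409646) (nat_lit 18) (.e (nat_lit 303115) (nat_lit 1) .nil)))) .nil)))) (.nd (nat_lit 5) (.nd (nat_lit 6) 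
(.lf (nat_lit 246555) (.g (nat_lit 2298) (.e (nat_lit 131125) (nat_lit 13) (.e (nat_lit 393300) (nat_lit 27) (.e (nat_lit 491558) (nat_lit 10) (.e (nat_lit 344095) (nat_lit 18) (.e (nat_lit 7122) (nat_lit 382) (.e (nat_lit 1296) (nat_lit 96) .nil)))))) (.g (nat_lit 5) .nil .nil))) 
(.lf (nat_lit 246619) (.g (nat_lit 1332) (.e (nat_lit 131126) (nat_lit 13) (.e (nat_lit 393234) (nat_lit 17) (.e (nat_lit 7593) (nat_lit 407) (.e (nat_lit 73730) (nat_lit 0) .nil)))) .nil))) (.nd (nat_lit 6) 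
(.lf (nat_lit 246587) (.g (nat_lit 2086) (.e (nat_lit 131125) (nat_lit 13) (.e (nat_lit 393301) (nat_lit 27) (.e (nat_lit 491559) (nat_lit 10) (.e (nat_lit 344094) (nat_lit 18) .nil)))) .nil)) 
(.lf (nat_lit 246651) (.g (nat_lit 2137) (.e (nat_lit 131126) (nat_lit 13) (.e (nat_lit 393260) (nat_lit 21) (.e (nat_lit 409649) (nat_lit 18) (.e (nat_lit 303120) (nat_lit 4) .nil)))) .nil)))))) (.nd (nat_lit 3) (.nd (nat_lit 4) (.nd (nat_lit 5) (.nd (nat_lit 6) 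
(.lf (nat_lit 246535) (.g (nat_lit 1621) (.e (nat_lit 131125) (nat_lit 13) (.e (nat_lit 393260) (nat_lit 21) (.e (nat_lit 409648) (nat_lit 18) (.e (nat_lit 303104) (nat_lit 0) .nil)))) .nil)) 
(.lf (nat_lit 246599) (.g (nat_lit 1990) (.e (nat_lit 131125) (nat_lit 13) (.e (nat_lit 393301) (nat_lit 27) (.e (nat_lit 491560) (nat_lit 10) (.e (nat_lit 344091) (nat_lit 18) .nil)))) .nil))) (.nd (nat_lit 6) 
(.lf (nat_lit 246567) (.g (nat_lit 1609) (.e (nat_lit 131125) (nat_lit 13) (.e (nat_lit 393301) (nat_lit 27) (.e (nat_lit 491546) (nat_lit 9) (.e (nat_lit 335997) (nat_lit 1) .nil)))) .nil)) 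
(.lf (nat_lit 246631) (.g (nat_lit 2614) (.e (nat_lit 131126) (nat_lit 13) (.e (nat_lit 393260) (nat_lit 21) (.e (nat_lit 409645) (nat_lit 18) (.e (nat_lit 303115) (nat_lit 1) (.e (nat_lit 164158) (nat_lit 152) .nil))))) .nil)))) (.nd (nat_lit 5) (.nd (nat_lit 6) 
(.lf (nat_lit 246551) (.g (nat_lit 820) (.e (nat_lit 131125) (nat_lit 13) (.e (nat_lit 393298) (nat_lit 27) (.e (nat_lit 491560) (nat_lit 10) .nil))) .nil)) 
(.lf (nat_lit 246615) (.g (nat_lit 2514) (.e (nat_lit 131125) (nat_lit 13) (.e (nat_lit 393301) (nat_lit 27) (.e (nat_lit 491560) (nat_lit 10) (.e (nat_lit 344177) (nat_lit 43) (.e (nat_lit 770076) (nat_lit 12) .nil))))) (.g (nat_lit 4) .nil .nil)))) (.nd (nat_lit 6) 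
(.lf (nat_lit 246583) (.g (nat_lit 2086) (.e (nat_lit 131125) (nat_lit 13) (.e (nat_lit 393301) (nat_lit 27) (.e (nat_lit 491559) (nat_lit 10) (.e (nat_lit 344089) (nat_lit 18) .nil)))) .nil)) 
(.lf (nat_lit 246647) (.g (nat_lit 1864) (.e (nat_lit 131126) (nat_lit 13) (.e (nat_lit 393260) (nat_lit 21) (.e (nat_lit 409649) (nat_lit 18) (.e (nat_lit 303111) (nat_lit 0) .nil)))) .nil))))) (.nd (nat_lit 4) (.nd (nat_lit 5) (.nd (nat_lit 6) 
(.lf (nat_lit 246543) (.g (nat_lit 2361) (.e (nat_lit 131125) (nat_lit 13) (.e (nat_lit 393260) (nat_lit 21) (.e (nat_lit 409649) (nat_lit 18) (.e (nat_lit 303111) (nat_lit 0) (.e (nat_lit 3469) (nat_lit 217) .nil))))) .nil)) 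
(.lf (nat_lit 246607) (.g (nat_lit 2339) (.e (nat_lit 131125) (nat_lit 13) (.e (nat_lit 393301) (nat_lit 27) (.e (nat_lit 491560) (nat_lit 10) (.e (nat_lit 344097) (nat_lit 18) .nil)))) .nil))) (.nd (nat_lit 6) 
(.lf (nat_lit 246575) (.g (nat_lit 2070) (.e (nat_lit 131125) (nat_lit 13) (.e (nat_lit 393301) (nat_lit 27) (.e (nat_lit 491558) (nat_lit 10) (.e (nat_lit 344093) (nat_lit 18) .nil)))) .nil)) 
(.lf (nat_lit 246639) (.g (nat_lit 2325) (.e (nat_lit 131126) (nat_lit 13) (.e (nat_lit 393260) (nat_lit 21) (.e (nat_lit 409646) (nat_lit 18) (.e (nat_lit 303115) (nat_lit 1) (.e (nat_lit 164160) (nat_lit 152) .nil))))) .nil)))) (.nd (nat_lit 5) (.nd (nat_lit 6) 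
(.lf (nat_lit 246559) (.g (nat_lit 2901) (.e (nat_lit 131125) (nat_lit 13) (.e (nat_lit 393300) (nat_lit 27) (.e (nat_lit 491558) (nat_lit 10) (.e (nat_lit 344096) (nat_lit 18) (.e (nat_lit 7125) (nat_lit 382) (.e (nat_lit 1296) (nat_lit 96) .nil)))))) (.g (nat_lit 6) .nil .nil))) 
(.lf (nat_lit 246623) (.g (nat_lit 1900) (.e (nat_lit 131126) (nat_lit 13) (.e (nat_lit 393259) (nat_lit 21) (.e (nat_lit 409645) (nat_lit 18) (.e (nat_lit 303115) (nat_lit 1) (.e (nat_lit 164159) (nat_lit 152) (.e (nat_lit 1296) (nat_lit 96) .nil)))))) (.g (nat_lit 4) .nil .nil)))) (.nd (nat_lit 6) 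
(.lf (nat_lit 246591) (.g (nat_lit 2326) (.e (nat_lit 131125) (nat_lit 13) (.e (nat_lit 393301) (nat_lit 27) (.e (nat_lit 491560) (nat_lit 10) (.e (nat_lit 344087) (nat_lit 18) .nil)))) .nil)) 
(.lf (nat_lit 246655) (.g (nat_lit 1966) (.e (nat_lit 131126) (nat_lit 13) (.e (nat_lit 393299) (nat_lit 27) (.e (nat_lit 491560) (nat_lit 10) (.e (nat_lit 344097) (nat_lit 18) .nil)))) .nil)))))))))

noncomputable def tv3202 : DT := (.nd (nat_lit 0) (.nd (nat_lit 1) (.nd (nat_lit 2) (.nd (nat_lit 3) (.nd (nat_lit 4) (.nd (nat_lit 5) (.nd (nat_lit 6) 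
(.lf (nat_lit 246656) (.g (nat_lit 609) (.e (nat_lit 131126) (nat_lit 13) (.e (nat_lit 393300) (nat_lit 27) (.e (nat_lit 491560) (nat_lit 10) .nil))) .nil)) 
(.lf (nat_lit 246720) (.g (nat_lit 1256) (.e (nat_lit 131127) (nat_lit 13) (.e (nat_lit 401152) (nat_lit 16) (.e (nat_lit 401453) (nat_lit 12) (.e (nat_lit 475169) (nat_lit 22) (.e (nat_lit 507648) (nat_lit 22) .nil))))) (.g (nat_lit 4) .nil .nil)))) (.nd (nat_lit 6) 
(.lf (nat_lit 246688) (.g (nat_lit 2417) (.e (nat_lit 131126) (nat_lit 13) (.e (nat_lit 393301) (nat_lit 27) (.e (nat_lit 491560) (nat_lit 10) (.e (nat_lit 344091) (nat_lit 18) .nil)))) .nil)) 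
(.lf (nat_lit 246752) (.g (nat_lit 1306) (.e (nat_lit 131127) (nat_lit 13) (.e (nat_lit 393253) (nat_lit 18) (.e (nat_lit 164182) (nat_lit 154) (.e (nat_lit 57411) (nat_lit 12) .nil)))) .nil)))) (.nd (nat_lit 5) (.nd (nat_lit 6) 
(.lf (nat_lit 246672) (.g (nat_lit 2522) (.e (nat_lit 131126) (nat_lit 13) (.e (nat_lit 393301) (nat_lit 27) (.e (nat_lit 491558) (nat_lit 10) (.e (nat_lit 344176) (nat_lit 43) (.e (nat_lit 770076) (nat_lit 12) .nil))))) .nil)) 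
(.lf (nat_lit 246736) (.g (nat_lit 1206) (.e (nat_lit 131127) (nat_lit 13) (.e (nat_lit 393238) (nat_lit 17) (.e (nat_lit 7936) (nat_lit 407) (.e (nat_lit 73729) (nat_lit 0) (.e (nat_lit 7124) (nat_lit 382) (.e (nat_lit 7936) (nat_lit 96) .nil)))))) (.g (nat_lit 4) .nil .nil)))) (.nd (nat_lit 6) 
(.lf (nat_lit 246704) (.g (nat_lit 2149) (.e (nat_lit 131127) (nat_lit 13) (.e (nat_lit 393229) (nat_lit 9) (.e (nat_lit 335988) (nat_lit 1) (.e (nat_lit 57926) (nat_lit 282) (.e (nat_lit 163866) (nat_lit 2) .nil))))) .nil)) 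
(.lf (nat_lit 246768) (.g (nat_lit 1533) (.e (nat_lit 131127) (nat_lit 13) (.e (nat_lit 393260) (nat_lit 21) (.e (nat_lit 409617) (nat_lit 10) (.e (nat_lit 5355) (nat_lit 298) .nil)))) .nil))))) (.nd (nat_lit 4) (.nd (nat_lit 5) (.nd (nat_lit 6) 
(.lf (nat_lit 246664) (.g (nat_lit 2543) (.e (nat_lit 131126) (nat_lit 13) (.e (nat_lit 393301) (nat_lit 27) (.e (nat_lit 491558) (nat_lit 10) (.e (nat_lit 344091) (nat_lit 18) (.e (nat_lit 7119) (nat_lit 382) .nil))))) .nil)) 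
(.lf (nat_lit 246728) (.g (nat_lit 579) (.e (nat_lit 131127) (nat_lit 13) (.e (nat_lit 393238) (nat_lit 17) (.e (nat_lit 3572) (nat_lit 222) .nil))) .nil))) (.nd (nat_lit 6) 
(.lf (nat_lit 246696) (.g (nat_lit 2925) (.e (nat_lit 131126) (nat_lit 13) (.e (nat_lit 393301) (nat_lit 27) (.e (nat_lit 491560) (nat_lit 10) (.e (nat_lit 344097) (nat_lit 18) (.e (nat_lit 7144) (nat_lit 382) .nil))))) .nil)) 
(.lf (nat_lit 246760) (.g (nat_lit 1767) (.e (nat_lit 131127) (nat_lit 13) (.e (nat_lit 393259) (nat_lit 21) (.e (nat_lit 409645) (nat_lit 18) (.e (nat_lit 303115) (nat_lit 1) (.e (nat_lit 164160) (nat_lit 152) .nil))))) .nil)))) (.nd (nat_lit 5) (.nd (nat_lit 6) 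
(.lf (nat_lit 246680) (.g (nat_lit 2359) (.e (nat_lit 131126) (nat_lit 13) (.e (nat_lit 393301) (nat_lit 27) (.e (nat_lit 491559) (nat_lit 10) (.e (nat_lit 344176) (nat_lit 43) .nil)))) .nil)) 
(.lf (nat_lit 246744) (.g (nat_lit 2142) (.e (nat_lit 131127) (nat_lit 13) (.e (nat_lit 393252) (nat_lit 18) (.e (nat_lit 164183) (nat_lit 154) (.e (nat_lit 57409) (nat_lit 12) (.e (nat_lit 336316) (nat_lit 17) .nil))))) .nil))) (.nd (nat_lit 6) 
(.lf (nat_lit 246712) (.g (nat_lit 1624) (.e (nat_lit 131127) (nat_lit 13) (.e (nat_lit 401152) (nat_lit 15) (.e (nat_lit 385094) (nat_lit 49) (.e (nat_lit 778246) (nat_lit 0) (.e (nat_lit 1239) (nat_lit 91) (.e (nat_lit 98048) (nat_lit 8) .nil)))))) (.g (nat_lit 5) .nil .nil))) 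
(.lf (nat_lit 246776) (.g (nat_lit 1329) (.e (nat_lit 131127) (nat_lit 13) (.e (nat_lit 393260) (nat_lit 21) (.e (nat_lit 409623) (nat_lit 10) (.e (nat_lit 5664) (nat_lit 312) (.e (nat_lit 2605) (nat_lit 163) .nil))))) .nil)))))) (.nd (nat_lit 3) (.nd (nat_lit 4) (.nd (nat_lit 5) (.nd (nat_lit 6) 
(.lf (nat_lit 246660) (.g (nat_lit 1769) (.e (nat_lit 131126) (nat_lit 13) (.e (nat_lit 393301) (nat_lit 27) (.e (nat_lit 491558) (nat_lit 10) (.e (nat_lit 344090) (nat_lit 18) .nil)))) .nil)) 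
(.lf (nat_lit 246724) (.g (nat_lit 1374) (.e (nat_lit 131127) (nat_lit 13) (.e (nat_lit 393232) (nat_lit 17) (.e (nat_lit 7593) (nat_lit 407) (.e (nat_lit 73772) (nat_lit 24) (.e (nat_lit 769792) (nat_lit 12) .nil))))) (.g (nat_lit 4) .nil .nil)))) (.nd (nat_lit 6) 
(.lf (nat_lit 246692) (.g (nat_lit 2881) (.e (nat_lit 131126) (nat_lit 13) (.e (nat_lit 393301) (nat_lit 27) (.e (nat_lit 491560) (nat_lit 10) (.e (nat_lit 344095) (nat_lit 18) .nil)))) .nil)) 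
(.lf (nat_lit 246756) (.g (nat_lit 1846) (.e (nat_lit 131127) (nat_lit 13) (.e (nat_lit 393259) (nat_lit 21) (.e (nat_lit 409645) (nat_lit 18) (.e (nat_lit 303115) (nat_lit 1) (.e (nat_lit 164148) (nat_lit 152) .nil))))) .nil)))) (.nd (nat_lit 5) (.nd (nat_lit 6) 
(.lf (nat_lit 246676) (.g (nat_lit 2394) (.e (nat_lit 131126) (nat_lit 13) (.e (nat_lit 393301) (nat_lit 27) (.e (nat_lit 491559) (nat_lit 10) (.e (nat_lit 344095) (nat_lit 18) .nil)))) .nil)) 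
(.lf (nat_lit 246740) (.g (nat_lit 2546) (.e (nat_lit 131127) (nat_lit 13) (.e (nat_lit 393251) (nat_lit 18) (.e (nat_lit 164179) (nat_lit 154) (.e (nat_lit 57409) (nat_lit 12) (.e (nat_lit 336316) (nat_lit 17) (.e (nat_lit 196681) (nat_lit 17) .nil)))))) (.g (nat_lit 4) .nil .nil)))) (.nd (nat_lit 6) 
(.lf (nat_lit 246708) (.g (nat_lit 1784) (.e (nat_lit 131127) (nat_lit 13) (.e (nat_lit 393229) (nat_lit 9) (.e (nat_lit 335996) (nat_lit 1) (.e (nat_lit 57931) (nat_lit 282) (.e (nat_lit 163867) (nat_lit 2) .nil))))) .nil)) 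
(.lf (nat_lit 246772) (.g (nat_lit 1872) (.e (nat_lit 131127) (nat_lit 13) (.e (nat_lit 393260) (nat_lit 21) (.e (nat_lit 409623) (nat_lit 10) (.e (nat_lit 5293) (nat_lit 298) (.e (nat_lit 1031) (nat_lit 81) .nil))))) .nil))))) (.nd (nat_lit 4) (.nd (nat_lit 5) (.nd (nat_lit 6) 
(.lf (nat_lit 246668) (.g (nat_lit 1765) (.e (nat_lit 131126) (nat_lit 13) (.e (nat_lit 393301) (nat_lit 27) (.e (nat_lit 491558) (nat_lit 10) (.e (nat_lit 344096) (nat_lit 18) .nil)))) .nil)) 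
(.lf (nat_lit 246732) (.g (nat_lit 2255) (.e (nat_lit 131127) (nat_lit 13) (.e (nat_lit 393238) (nat_lit 17) (.e (nat_lit 6989) (nat_lit 377) (.e (nat_lit 2810) (nat_lit 180) (.e (nat_lit 303115) (nat_lit 1) (.e (nat_lit 164159) (nat_lit 152) (.e (nat_lit 1296) (nat_lit 96) .nil))))))) (.g (nat_lit 0) .nil .nil)))) (.nd (nat_lit 6) 
(.lf (nat_lit 246700) (.g (nat_lit 3634) (.e (nat_lit 131126) (nat_lit 13) (.e (nat_lit 393301) (nat_lit 27) (.e (nat_lit 491560) (nat_lit 10) (.e (nat_lit 344176) (nat_lit 43) (.e (nat_lit 770076) (nat_lit 12) .nil))))) (.g (nat_lit 0) .nil .nil))) 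
(.lf (nat_lit 246764) (.g (nat_lit 589) (.e (nat_lit 131127) (nat_lit 13) (.e (nat_lit 393260) (nat_lit 21) (.e (nat_lit 409615) (nat_lit 10) .nil))) .nil)))) (.nd (nat_lit 5) (.nd (nat_lit 6) 
(.lf (nat_lit 246684) (.g (nat_lit 2714) (.e (nat_lit 131126) (nat_lit 13) (.e (nat_lit 393301) (nat_lit 27) (.e (nat_lit 491560) (nat_lit 10) (.e (nat_lit 344088) (nat_lit 18) .nil)))) .nil)) 
(.lf (nat_lit 246748) (.g (nat_lit 1280) (.e (nat_lit 131127) (nat_lit 13) (.e (nat_lit 393253) (nat_lit 18) (.e (nat_lit 164179) (nat_lit 154) (.e (nat_lit 57406) (nat_lit 12) .nil)))) .nil))) (.nd (nat_lit 6) 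
(.lf (nat_lit 246716) (.g (nat_lit 1252) (.e (nat_lit 131127) (nat_lit 13) (.e (nat_lit 401152) (nat_lit 16) (.e (nat_lit 401437) (nat_lit 9) (.e (nat_lit 426428) (nat_lit 17) (.e (nat_lit 98048) (nat_lit 8) .nil))))) (.g (nat_lit 4) .nil .nil))) 
(.lf (nat_lit 246780) (.g (nat_lit 1895) (.e (nat_lit 131127) (nat_lit 13) (.e (nat_lit 393260) (nat_lit 21) (.e (nat_lit 409640) (nat_lit 17) (.e (nat_lit 294924) (nat_lit 1) (.e (nat_lit 57665) (nat_lit 152) (.e (nat_lit 7936) (nat_lit 96) .nil)))))) (.g (nat_lit 5) .nil .nil)))))))) (.nd (nat_lit 2) (.nd (nat_lit 3) (.nd (nat_lit 4) (.nd (nat_lit 5) (.nd (nat_lit 6) 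
(.lf (nat_lit 246658) (.g (nat_lit 2186) (.e (nat_lit 131126) (nat_lit 13) (.e (nat_lit 393301) (nat_lit 27) (.e (nat_lit 491558) (nat_lit 10) (.e (nat_lit 344088) (nat_lit 18) .nil)))) .nil)) 
(.lf (nat_lit 246722) (.g (nat_lit 1432) (.e (nat_lit 131127) (nat_lit 13) (.e (nat_lit 401152) (nat_lit 16) (.e (nat_lit 401454) (nat_lit 12) (.e (nat_lit 475169) (nat_lit 22) (.e (nat_lit 507648) (nat_lit 22) .nil))))) (.g (nat_lit 4) .nil .nil)))) (.nd (nat_lit 6) 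
(.lf (nat_lit 246690) (.g (nat_lit 1871) (.e (nat_lit 131126) (nat_lit 13) (.e (nat_lit 393301) (nat_lit 27) (.e (nat_lit 491560) (nat_lit 10) (.e (nat_lit 344094) (nat_lit 18) .nil)))) .nil)) 
(.lf (nat_lit 246754) (.g (nat_lit 283) (.e (nat_lit 131127) (nat_lit 13) (.e (nat_lit 393259) (nat_lit 21) (.e (nat_lit 417536) (nat_lit 16) .nil))) .nil)))) (.nd (nat_lit 5) (.nd (nat_lit 6) 
(.lf (nat_lit 246674) (.g (nat_lit 3006) (.e (nat_lit 131126) (nat_lit 13) (.e (nat_lit 393301) (nat_lit 27) (.e (nat_lit 491559) (nat_lit 10) (.e (nat_lit 344091) (nat_lit 18) (.e (nat_lit 7122) (nat_lit 382) .nil))))) .nil)) 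
(.lf (nat_lit 246738) (.g (nat_lit 1970) (.e (nat_lit 131127) (nat_lit 13) (.e (nat_lit 393251) (nat_lit 18) (.e (nat_lit 164177) (nat_lit 154) (.e (nat_lit 57406) (nat_lit 12) (.e (nat_lit 336316) (nat_lit 17) .nil))))) .nil))) (.nd (nat_lit 6) 
(.lf (nat_lit 246706) (.g (nat_lit 1377) (.e (nat_lit 131127) (nat_lit 13) (.e (nat_lit 393229) (nat_lit 9) (.e (nat_lit 335995) (nat_lit 1) (.e (nat_lit 57931) (nat_lit 282) .nil)))) .nil)) 
(.lf (nat_lit 246770) (.g (nat_lit 411) (.e (nat_lit 131127) (nat_lit 13) (.e (nat_lit 393260) (nat_lit 21) (.e (nat_lit 409623) (nat_lit 10) .nil))) .nil))))) (.nd (nat_lit 4) (.nd (nat_lit 5) (.nd (nat_lit 6) 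
(.lf (nat_lit 246666) (.g (nat_lit 1799) (.e (nat_lit 131126) (nat_lit 13) (.e (nat_lit 393301) (nat_lit 27) (.e (nat_lit 491558) (nat_lit 10) (.e (nat_lit 344095) (nat_lit 18) .nil)))) .nil)) 
(.lf (nat_lit 246730) (.g (nat_lit 1793) (.e (nat_lit 131127) (nat_lit 13) (.e (nat_lit 393238) (nat_lit 17) (.e (nat_lit 6989) (nat_lit 377) (.e (nat_lit 2777) (nat_lit 178) (.e (nat_lit 286731) (nat_lit 1) .nil))))) .nil))) (.nd (nat_lit 6) 
(.lf (nat_lit 246698) (.g (nat_lit 2424) (.e (nat_lit 131126) (nat_lit 13) (.e (nat_lit 393301) (nat_lit 27) (.e (nat_lit 491560) (nat_lit 10) (.e (nat_lit 352000) (nat_lit 18) .nil)))) .nil)) 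
(.lf (nat_lit 246762) (.g (nat_lit 1357) (.e (nat_lit 131127) (nat_lit 13) (.e (nat_lit 393259) (nat_lit 21) (.e (nat_lit 409646) (nat_lit 18) (.e (nat_lit 303115) (nat_lit 1) .nil)))) .nil)))) (.nd (nat_lit 5) (.nd (nat_lit 6) 
(.lf (nat_lit 246682) (.g (nat_lit 3708) (.e (nat_lit 131126) (nat_lit 13) (.e (nat_lit 393301) (nat_lit 27) (.e (nat_lit 491559) (nat_lit 10) (.e (nat_lit 344177) (nat_lit 43) (.e (nat_lit 770076) (nat_lit 12) .nil))))) (.g (nat_lit 0) .nil .nil))) 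
(.lf (nat_lit 246746) (.g (nat_lit 1140) (.e (nat_lit 131127) (nat_lit 13) (.e (nat_lit 393253) (nat_lit 18) (.e (nat_lit 164177) (nat_lit 154) (.e (nat_lit 57406) (nat_lit 12) .nil)))) .nil))) (.nd (nat_lit 6) 
(.lf (nat_lit 246714) (.g (nat_lit 426) (.e (nat_lit 131127) (nat_lit 13) (.e (nat_lit 401152) (nat_lit 15) (.e (nat_lit 385102) (nat_lit 50) (.e (nat_lit 786455) (nat_lit 17) (.e (nat_lit 98048) (nat_lit 8) .nil))))) (.g (nat_lit 4) .nil .nil))) 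
(.lf (nat_lit 246778) (.g (nat_lit 372) (.e (nat_lit 131127) (nat_lit 13) (.e (nat_lit 393260) (nat_lit 21) (.e (nat_lit 417536) (nat_lit 16) .nil))) .nil)))))) (.nd (nat_lit 3) (.nd (nat_lit 4) (.nd (nat_lit 5) (.nd (nat_lit 6) 
(.lf (nat_lit 246662) (.g (nat_lit 3255) (.e (nat_lit 131126) (nat_lit 13) (.e (nat_lit 393301) (nat_lit 27) (.e (nat_lit 491558) (nat_lit 10) (.e (nat_lit 344090) (nat_lit 18) (.e (nat_lit 7125) (nat_lit 382) (.e (nat_lit 1296) (nat_lit 96) .nil)))))) (.g (nat_lit 6) .nil .nil))) 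
(.lf (nat_lit 246726) (.g (nat_lit 1214) (.e (nat_lit 131127) (nat_lit 13) (.e (nat_lit 393238) (nat_lit 17) (.e (nat_lit 3569) (nat_lit 222) (.e (nat_lit 737294) (nat_lit 3) (.e (nat_lit 48896) (nat_lit 0) (.e (nat_lit 1239) (nat_lit 91) (.e (nat_lit 98048) (nat_lit 8) .nil))))))) (.g (nat_lit 4) .nil .nil)))) (.nd (nat_lit 6) 
(.lf (nat_lit 246694) (.g (nat_lit 3728) (.e (nat_lit 131126) (nat_lit 13) (.e (nat_lit 393301) (nat_lit 27) (.e (nat_lit 491560) (nat_lit 10) (.e (nat_lit 344096) (nat_lit 18) (.e (nat_lit 7124) (nat_lit 382) (.e (nat_lit 1296) (nat_lit 96) .nil)))))) (.g (nat_lit 5) .nil .nil))) 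
(.lf (nat_lit 246758) (.g (nat_lit 1868) (.e (nat_lit 131127) (nat_lit 13) (.e (nat_lit 393259) (nat_lit 21) (.e (nat_lit 409645) (nat_lit 18) (.e (nat_lit 303115) (nat_lit 1) (.e (nat_lit 164151) (nat_lit 152) (.e (nat_lit 1293) (nat_lit 96) .nil)))))) (.g (nat_lit 4) .nil .nil))))) (.nd (nat_lit 5) (.nd (nat_lit 6) 
(.lf (nat_lit 246678) (.g (nat_lit 2375) (.e (nat_lit 131126) (nat_lit 13) (.e (nat_lit 393301) (nat_lit 27) (.e (nat_lit 491559) (nat_lit 10) (.e (nat_lit 344097) (nat_lit 18) .nil)))) .nil)) 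
(.lf (nat_lit 246742) (.g (nat_lit 2317) (.e (nat_lit 131127) (nat_lit 13) (.e (nat_lit 393252) (nat_lit 18) (.e (nat_lit 164182) (nat_lit 154) (.e (nat_lit 57409) (nat_lit 12) (.e (nat_lit 336316) (nat_lit 17) .nil))))) .nil))) (.nd (nat_lit 6) 
(.lf (nat_lit 246710) (.g (nat_lit 1501) (.e (nat_lit 131127) (nat_lit 13) (.e (nat_lit 401152) (nat_lit 15) (.e (nat_lit 385091) (nat_lit 49) (.e (nat_lit 778318) (nat_lit 3) (.e (nat_lit 57454) (nat_lit 21) (.e (nat_lit 507648) (nat_lit 22) .nil)))))) (.g (nat_lit 5) .nil .nil))) 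
(.lf (nat_lit 246774) (.g (nat_lit 1593) (.e (nat_lit 131127) (nat_lit 13) (.e (nat_lit 393260) (nat_lit 21) (.e (nat_lit 409623) (nat_lit 10) (.e (nat_lit 5293) (nat_lit 298) (.e (nat_lit 1176) (nat_lit 87) (.e (nat_lit 57654) (nat_lit 152) (.e (nat_lit 1293) (nat_lit 96) .nil))))))) (.g (nat_lit 4) .nil .nil)))))) (.nd (nat_lit 4) (.nd (nat_lit 5) (.nd (nat_lit 6) 
(.lf (nat_lit 246670) (.g (nat_lit 1727) (.e (nat_lit 131126) (nat_lit 13) (.e (nat_lit 393301) (nat_lit 27) (.e (nat_lit 491558) (nat_lit 10) (.e (nat_lit 344097) (nat_lit 18) .nil)))) .nil)) 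
(.lf (nat_lit 246734) (.g (nat_lit 992) (.e (nat_lit 131127) (nat_lit 13) (.e (nat_lit 393238) (nat_lit 17) (.e (nat_lit 7101) (nat_lit 380) (.e (nat_lit 164375) (nat_lit 252) .nil)))) .nil))) (.nd (nat_lit 6) 
(.lf (nat_lit 246702) (.g (nat_lit 1483) (.e (nat_lit 131127) (nat_lit 13) (.e (nat_lit 393225) (nat_lit 9) (.e (nat_lit 335995) (nat_lit 1) (.e (nat_lit 57872) (nat_lit 264) .nil)))) .nil)) 
(.lf (nat_lit 246766) (.g (nat_lit 1633) (.e (nat_lit 131127) (nat_lit 13) (.e (nat_lit 393260) (nat_lit 21) (.e (nat_lit 409616) (nat_lit 10) (.e (nat_lit 5763) (nat_lit 315) (.e (nat_lit 164020) (nat_lit 45) .nil))))) .nil)))) (.nd (nat_lit 5) (.nd (nat_lit 6) 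
(.lf (nat_lit 246686) (.g (nat_lit 2117) (.e (nat_lit 131126) (nat_lit 13) (.e (nat_lit 393301) (nat_lit 27) (.e (nat_lit 491560) (nat_lit 10) (.e (nat_lit 344090) (nat_lit 18) .nil)))) .nil)) 
(.lf (nat_lit 246750) (.g (nat_lit 3210) (.e (nat_lit 131127) (nat_lit 13) (.e (nat_lit 393253) (nat_lit 18) (.e (nat_lit 164179) (nat_lit 154) (.e (nat_lit 57409) (nat_lit 12) (.e (nat_lit 336316) (nat_lit 17) (.e (nat_lit 196681) (nat_lit 17) .nil)))))) (.g (nat_lit 5) .nil .nil)))) (.nd (nat_lit 6) 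
(.lf (nat_lit 246718) (.g (nat_lit 1437) (.e (nat_lit 131127) (nat_lit 13) (.e (nat_lit 401152) (nat_lit 16) (.e (nat_lit 401451) (nat_lit 12) (.e (nat_lit 475169) (nat_lit 22) (.e (nat_lit 507648) (nat_lit 22) .nil))))) (.g (nat_lit 4) .nil .nil))) 
(.lf (nat_lit 246782) (.g (nat_lit 1110) (.e (nat_lit 131127) (nat_lit 13) (.e (nat_lit 393260) (nat_lit 21) (.e (nat_lit 409643) (nat_lit 18) (.e (nat_lit 303112) (nat_lit 0) .nil)))) .nil)))))))) (.nd (nat_lit 1) (.nd (nat_lit 2) (.nd (nat_lit 3) (.nd (nat_lit 4) (.nd (nat_lit 5) (.nd (nat_lit 6) 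
(.lf (nat_lit 246657) (.g (nat_lit 1896) (.e (nat_lit 131126) (nat_lit 13) (.e (nat_lit 393301) (nat_lit 27) (.e (nat_lit 491546) (nat_lit 9) (.e (nat_lit 335997) (nat_lit 1) .nil)))) .nil)) 
(.lf (nat_lit 246721) (.g (nat_lit 1123) (.e (nat_lit 131127) (nat_lit 13) (.e (nat_lit 401152) (nat_lit 16) (.e (nat_lit 401454) (nat_lit 12) (.e (nat_lit 475168) (nat_lit 22) (.e (nat_lit 507648) (nat_lit 22) .nil))))) (.g (nat_lit 4) .nil .nil)))) (.nd (nat_lit 6) 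
(.lf (nat_lit 246689) (.g (nat_lit 3049) (.e (nat_lit 131126) (nat_lit 13) (.e (nat_lit 393301) (nat_lit 27) (.e (nat_lit 491560) (nat_lit 10) (.e (nat_lit 344091) (nat_lit 18) (.e (nat_lit 7122) (nat_lit 382) .nil))))) .nil)) 
(.lf (nat_lit 246753) (.g (nat_lit 3533) (.e (nat_lit 131127) (nat_lit 13) (.e (nat_lit 393253) (nat_lit 18) (.e (nat_lit 164183) (nat_lit 154) (.e (nat_lit 57411) (nat_lit 12) (.e (nat_lit 336316) (nat_lit 17) (.e (nat_lit 196681) (nat_lit 17) .nil)))))) (.g (nat_lit 6) .nil .nil))))) (.nd (nat_lit 5) (.nd (nat_lit 6) 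
(.lf (nat_lit 246673) (.g (nat_lit 2331) (.e (nat_lit 131126) (nat_lit 13) (.e (nat_lit 393301) (nat_lit 27) (.e (nat_lit 491559) (nat_lit 10) (.e (nat_lit 344091) (nat_lit 18) .nil)))) .nil)) 
(.lf (nat_lit 246737) (.g (nat_lit 1381) (.e (nat_lit 131127) (nat_lit 13) (.e (nat_lit 393238) (nat_lit 17) (.e (nat_lit 7936) (nat_lit 407) (.e (nat_lit 73731) (nat_lit 0) (.e (nat_lit 7124) (nat_lit 382) (.e (nat_lit 7936) (nat_lit 96) .nil)))))) (.g (nat_lit 5) .nil .nil)))) (.nd (nat_lit 6) 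
(.lf (nat_lit 246705) (.g (nat_lit 528) (.e (nat_lit 131127) (nat_lit 13) (.e (nat_lit 393229) (nat_lit 9) (.e (nat_lit 335995) (nat_lit 1) .nil))) .nil)) 
(.lf (nat_lit 246769) (.g (nat_lit 3586) (.e (nat_lit 131127) (nat_lit 13) (.e (nat_lit 393260) (nat_lit 21) (.e (nat_lit 409617) (nat_lit 10) (.e (nat_lit 5355) (nat_lit 298) (.e (nat_lit 1179) (nat_lit 87) (.e (nat_lit 57665) (nat_lit 152) (.e (nat_lit 7936) (nat_lit 96) .nil))))))) (.g (nat_lit 6) .nil .nil)))))) (.nd (nat_lit 4) (.nd (nat_lit 5) (.nd (nat_lit 6) 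
(.lf (nat_lit 246665) (.g (nat_lit 3632) (.e (nat_lit 131126) (nat_lit 13) (.e (nat_lit 393301) (nat_lit 27) (.e (nat_lit 491558) (nat_lit 10) (.e (nat_lit 344091) (nat_lit 18) (.e (nat_lit 7125) (nat_lit 382) (.e (nat_lit 1296) (nat_lit 96) .nil)))))) (.g (nat_lit 0) .nil .nil))) 
(.lf (nat_lit 246729) (.g (nat_lit 1182) (.e (nat_lit 131127) (nat_lit 13) (.e (nat_lit 393238) (nat_lit 17) (.e (nat_lit 6989) (nat_lit 377) (.e (nat_lit 2777) (nat_lit 178) .nil)))) .nil))) (.nd (nat_lit 6) 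
(.lf (nat_lit 246697) (.g (nat_lit 1858) (.e (nat_lit 131126) (nat_lit 13) (.e (nat_lit 393301) (nat_lit 27) (.e (nat_lit 491560) (nat_lit 10) (.e (nat_lit 344099) (nat_lit 18) .nil)))) .nil)) 
(.lf (nat_lit 246761) (.g (nat_lit 1848) (.e (nat_lit 131127) (nat_lit 13) (.e (nat_lit 393259) (nat_lit 21) (.e (nat_lit 409645) (nat_lit 18) (.e (nat_lit 303115) (nat_lit 1) (.e (nat_lit 164162) (nat_lit 152) (.e (nat_lit 1294) (nat_lit 96) .nil)))))) (.g (nat_lit 4) .nil .nil))))) (.nd (nat_lit 5) (.nd (nat_lit 6) 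
(.lf (nat_lit 246681) (.g (nat_lit 1945) (.e (nat_lit 131126) (nat_lit 13) (.e (nat_lit 393301) (nat_lit 27) (.e (nat_lit 491559) (nat_lit 10) (.e (nat_lit 344177) (nat_lit 43) .nil)))) .nil)) 
(.lf (nat_lit 246745) (.g (nat_lit 2281) (.e (nat_lit 131127) (nat_lit 13) (.e (nat_lit 393252) (nat_lit 18) (.e (nat_lit 164183) (nat_lit 154) (.e (nat_lit 57411) (nat_lit 12) (.e (nat_lit 336316) (nat_lit 17) .nil))))) .nil))) (.nd (nat_lit 6) 
(.lf (nat_lit 246713) (.g (nat_lit 2622) (.e (nat_lit 131127) (nat_lit 13) (.e (nat_lit 401152) (nat_lit 15) (.e (nat_lit 385094) (nat_lit 49) (.e (nat_lit 778318) (nat_lit 3) (.e (nat_lit 57454) (nat_lit 21) (.e (nat_lit 507648) (nat_lit 22) .nil)))))) (.g (nat_lit 5) .nil .nil))) 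
(.lf (nat_lit 246777) (.g (nat_lit 2481) (.e (nat_lit 131127) (nat_lit 13) (.e (nat_lit 393260) (nat_lit 21) (.e (nat_lit 409623) (nat_lit 10) (.e (nat_lit 5664) (nat_lit 312) (.e (nat_lit 2605) (nat_lit 163) (.e (nat_lit 164159) (nat_lit 152) (.e (nat_lit 1296) (nat_lit 96) .nil))))))) (.g (nat_lit 0) .nil .nil))))))) (.nd (nat_lit 3) (.nd (nat_lit 4) (.nd (nat_lit 5) (.nd (nat_lit 6) 
(.lf (nat_lit 246661) (.g (nat_lit 2343) (.e (nat_lit 131126) (nat_lit 13) (.e (nat_lit 393301) (nat_lit 27) (.e (nat_lit 491558) (nat_lit 10) (.e (nat_lit 344090) (nat_lit 18) (.e (nat_lit 7122) (nat_lit 382) .nil))))) .nil)) 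
(.lf (nat_lit 246725) (.g (nat_lit 579) (.e (nat_lit 131127) (nat_lit 13) (.e (nat_lit 393238) (nat_lit 17) (.e (nat_lit 3567) (nat_lit 222) .nil))) .nil))) (.nd (nat_lit 6) 
(.lf (nat_lit 246693) (.g (nat_lit 2434) (.e (nat_lit 131126) (nat_lit 13) (.e (nat_lit 393301) (nat_lit 27) (.e (nat_lit 491560) (nat_lit 10) (.e (nat_lit 344096) (nat_lit 18) .nil)))) .nil)) 
(.lf (nat_lit 246757) (.g (nat_lit 1939) (.e (nat_lit 131127) (nat_lit 13) (.e (nat_lit 393259) (nat_lit 21) (.e (nat_lit 409645) (nat_lit 18) (.e (nat_lit 303115) (nat_lit 1) (.e (nat_lit 164148) (nat_lit 152) (.e (nat_lit 1294) (nat_lit 96) .nil)))))) (.g (nat_lit 4) .nil .nil))))) (.nd (nat_lit 5) (.nd (nat_lit 6) 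
(.lf (nat_lit 246677) (.g (nat_lit 2346) (.e (nat_lit 131126) (nat_lit 13) (.e (nat_lit 393301) (nat_lit 27) (.e (nat_lit 491559) (nat_lit 10) (.e (nat_lit 344096) (nat_lit 18) .nil)))) .nil)) 
(.lf (nat_lit 246741) (.g (nat_lit 1032) (.e (nat_lit 131127) (nat_lit 13) (.e (nat_lit 393251) (nat_lit 18) (.e (nat_lit 164182) (nat_lit 154) .nil))) .nil))) (.nd (nat_lit 6) 
(.lf (nat_lit 246709) (.g (nat_lit 785) (.e (nat_lit 131127) (nat_lit 13) (.e (nat_lit 393229) (nat_lit 9) (.e (nat_lit 336033) (nat_lit 4) .nil))) .nil)) 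
(.lf (nat_lit 246773) (.g (nat_lit 1312) (.e (nat_lit 131127) (nat_lit 13) (.e (nat_lit 393260) (nat_lit 21) (.e (nat_lit 409623) (nat_lit 10) (.e (nat_lit 5293) (nat_lit 298) (.e (nat_lit 1176) (nat_lit 87) .nil))))) .nil))))) (.nd (nat_lit 4) (.nd (nat_lit 5) (.nd (nat_lit 6) 
(.lf (nat_lit 246669) (.g (nat_lit 3738) (.e (nat_lit 131126) (nat_lit 13) (.e (nat_lit 393301) (nat_lit 27) (.e (nat_lit 491558) (nat_lit 10) (.e (nat_lit 344096) (nat_lit 18) (.e (nat_lit 7125) (nat_lit 382) (.e (nat_lit 1296) (nat_lit 96) .nil)))))) (.g (nat_lit 6) .nil .nil))) 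
(.lf (nat_lit 246733) (.g (nat_lit 476) (.e (nat_lit 131127) (nat_lit 13) (.e (nat_lit 393238) (nat_lit 17) (.e (nat_lit 7101) (nat_lit 380) .nil))) .nil))) (.nd (nat_lit 6) 
(.lf (nat_lit 246701) (.g (nat_lit 3590) (.e (nat_lit 131126) (nat_lit 13) (.e (nat_lit 393301) (nat_lit 27) (.e (nat_lit 491560) (nat_lit 10) (.e (nat_lit 344177) (nat_lit 43) (.e (nat_lit 770076) (nat_lit 12) .nil))))) .nil)) 
(.lf (nat_lit 246765) (.g (nat_lit 1441) (.e (nat_lit 131127) (nat_lit 13) (.e (nat_lit 393260) (nat_lit 21) (.e (nat_lit 409616) (nat_lit 10) (.e (nat_lit 5763) (nat_lit 315) .nil)))) .nil)))) (.nd (nat_lit 5) (.nd (nat_lit 6) 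
(.lf (nat_lit 246685) (.g (nat_lit 2844) (.e (nat_lit 131126) (nat_lit 13) (.e (nat_lit 393301) (nat_lit 27) (.e (nat_lit 491560) (nat_lit 10) (.e (nat_lit 344089) (nat_lit 18) .nil)))) .nil)) 
(.lf (nat_lit 246749) (.g (nat_lit 1313) (.e (nat_lit 131127) (nat_lit 13) (.e (nat_lit 393253) (nat_lit 18) (.e (nat_lit 164179) (nat_lit 154) (.e (nat_lit 57407) (nat_lit 12) .nil)))) .nil))) (.nd (nat_lit 6) 
(.lf (nat_lit 246717) (.g (nat_lit 1290) (.e (nat_lit 131127) (nat_lit 13) (.e (nat_lit 401152) (nat_lit 16) (.e (nat_lit 401438) (nat_lit 9) (.e (nat_lit 426428) (nat_lit 17) (.e (nat_lit 98048) (nat_lit 8) .nil))))) (.g (nat_lit 4) .nil .nil))) 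
(.lf (nat_lit 246781) (.g (nat_lit 1816) (.e (nat_lit 131127) (nat_lit 13) (.e (nat_lit 393260) (nat_lit 21) (.e (nat_lit 409640) (nat_lit 17) (.e (nat_lit 294925) (nat_lit 1) (.e (nat_lit 57665) (nat_lit 152) (.e (nat_lit 7936) (nat_lit 96) .nil)))))) (.g (nat_lit 5) .nil .nil)))))))) (.nd (nat_lit 2) (.nd (nat_lit 3) (.nd (nat_lit 4) (.nd (nat_lit 5) (.nd (nat_lit 6) 
(.lf (nat_lit 246659) (.g (nat_lit 2180) (.e (nat_lit 131126) (nat_lit 13) (.e (nat_lit 393301) (nat_lit 27) (.e (nat_lit 491558) (nat_lit 10) (.e (nat_lit 344089) (nat_lit 18) .nil)))) .nil)) 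
(.lf (nat_lit 246723) (.g (nat_lit 1208) (.e (nat_lit 131127) (nat_lit 13) (.e (nat_lit 393232) (nat_lit 17) (.e (nat_lit 7591) (nat_lit 407) (.e (nat_lit 73772) (nat_lit 24) (.e (nat_lit 769792) (nat_lit 12) .nil))))) .nil))) (.nd (nat_lit 6) 
(.lf (nat_lit 246691) (.g (nat_lit 3026) (.e (nat_lit 131126) (nat_lit 13) (.e (nat_lit 393301) (nat_lit 27) (.e (nat_lit 491560) (nat_lit 10) (.e (nat_lit 344094) (nat_lit 18) (.e (nat_lit 7122) (nat_lit 382) (.e (nat_lit 1296) (nat_lit 96) .nil)))))) (.g (nat_lit 5) .nil .nil))) 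
(.lf (nat_lit 246755) (.g (nat_lit 935) (.e (nat_lit 131127) (nat_lit 13) (.e (nat_lit 393259) (nat_lit 21) (.e (nat_lit 409645) (nat_lit 18) (.e (nat_lit 303115) (nat_lit 1) .nil)))) .nil)))) (.nd (nat_lit 5) (.nd (nat_lit 6) 
(.lf (nat_lit 246675) (.g (nat_lit 2346) (.e (nat_lit 131126) (nat_lit 13) (.e (nat_lit 393301) (nat_lit 27) (.e (nat_lit 491559) (nat_lit 10) (.e (nat_lit 344094) (nat_lit 18) .nil)))) .nil)) 
(.lf (nat_lit 246739) (.g (nat_lit 2264) (.e (nat_lit 131127) (nat_lit 13) (.e (nat_lit 393251) (nat_lit 18) (.e (nat_lit 164177) (nat_lit 154) (.e (nat_lit 57407) (nat_lit 12) (.e (nat_lit 336316) (nat_lit 17) (.e (nat_lit 196681) (nat_lit 17) .nil)))))) (.g (nat_lit 4) .nil .nil)))) (.nd (nat_lit 6) 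
(.lf (nat_lit 246707) (.g (nat_lit 1972) (.e (nat_lit 131127) (nat_lit 13) (.e (nat_lit 393229) (nat_lit 9) (.e (nat_lit 335995) (nat_lit 1) (.e (nat_lit 57931) (nat_lit 282) (.e (nat_lit 163867) (nat_lit 2) .nil))))) .nil)) 
(.lf (nat_lit 246771) (.g (nat_lit 1872) (.e (nat_lit 131127) (nat_lit 13) (.e (nat_lit 393260) (nat_lit 21) (.e (nat_lit 409623) (nat_lit 10) (.e (nat_lit 5293) (nat_lit 298) (.e (nat_lit 1018) (nat_lit 81) .nil))))) .nil))))) (.nd (nat_lit 4) (.nd (nat_lit 5) (.nd (nat_lit 6) 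
(.lf (nat_lit 246667) (.g (nat_lit 2132) (.e (nat_lit 131126) (nat_lit 13) (.e (nat_lit 393301) (nat_lit 27) (.e (nat_lit 491558) (nat_lit 10) (.e (nat_lit 344095) (nat_lit 18) (.e (nat_lit 7125) (nat_lit 382) .nil))))) .nil)) 
(.lf (nat_lit 246731) (.g (nat_lit 817) (.e (nat_lit 131127) (nat_lit 13) (.e (nat_lit 393238) (nat_lit 17) (.e (nat_lit 6989) (nat_lit 377) (.e (nat_lit 2810) (nat_lit 180) .nil)))) .nil))) (.nd (nat_lit 6) 
(.lf (nat_lit 246699) (.g (nat_lit 2867) (.e (nat_lit 131126) (nat_lit 13) (.e (nat_lit 393301) (nat_lit 27) (.e (nat_lit 491560) (nat_lit 10) (.e (nat_lit 344174) (nat_lit 42) (.e (nat_lit 769792) (nat_lit 12) .nil))))) (.g (nat_lit 4) .nil .nil))) 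
(.lf (nat_lit 246763) (.g (nat_lit 2366) (.e (nat_lit 131127) (nat_lit 13) (.e (nat_lit 393259) (nat_lit 21) (.e (nat_lit 409646) (nat_lit 18) (.e (nat_lit 303115) (nat_lit 1) (.e (nat_lit 164159) (nat_lit 152) .nil))))) .nil)))) (.nd (nat_lit 5) (.nd (nat_lit 6) 
(.lf (nat_lit 246683) (.g (nat_lit 2512) (.e (nat_lit 131126) (nat_lit 13) (.e (nat_lit 393301) (nat_lit 27) (.e (nat_lit 491560) (nat_lit 10) (.e (nat_lit 344087) (nat_lit 18) .nil)))) .nil)) 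
(.lf (nat_lit 246747) (.g (nat_lit 2213) (.e (nat_lit 131127) (nat_lit 13) (.e (nat_lit 393253) (nat_lit 18) (.e (nat_lit 164177) (nat_lit 154) (.e (nat_lit 57407) (nat_lit 12) (.e (nat_lit 336316) (nat_lit 17) .nil))))) .nil))) (.nd (nat_lit 6) 
(.lf (nat_lit 246715) (.g (nat_lit 814) (.e (nat_lit 131127) (nat_lit 13) (.e (nat_lit 401152) (nat_lit 15) (.e (nat_lit 385106) (nat_lit 50) (.e (nat_lit 786455) (nat_lit 17) (.e (nat_lit 98048) (nat_lit 8) .nil))))) (.g (nat_lit 4) .nil .nil))) 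
(.lf (nat_lit 246779) (.g (nat_lit 1361) (.e (nat_lit 131127) (nat_lit 13) (.e (nat_lit 393260) (nat_lit 21) (.e (nat_lit 417536) (nat_lit 16) (.e (nat_lit 286731) (nat_lit 1) (.e (nat_lit 57655) (nat_lit 152) (.e (nat_lit 1293) (nat_lit 96) .nil)))))) (.g (nat_lit 5) .nil .nil))))))) (.nd (nat_lit 3) (.nd (nat_lit 4) (.nd (nat_lit 5) (.nd (nat_lit 6) 
(.lf (nat_lit 246663) (.g (nat_lit 1690) (.e (nat_lit 131126) (nat_lit 13) (.e (nat_lit 393301) (nat_lit 27) (.e (nat_lit 491558) (nat_lit 10) (.e (nat_lit 344091) (nat_lit 18) .nil)))) .nil)) 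
(.lf (nat_lit 246727) (.g (nat_lit 1363) (.e (nat_lit 131127) (nat_lit 13) (.e (nat_lit 393238) (nat_lit 17) (.e (nat_lit 3571) (nat_lit 222) (.e (nat_lit 737294) (nat_lit 3) (.e (nat_lit 48896) (nat_lit 0) (.e (nat_lit 1239) (nat_lit 91) (.e (nat_lit 98048) (nat_lit 8) .nil))))))) (.g (nat_lit 4) .nil .nil)))) (.nd (nat_lit 6) 
(.lf (nat_lit 246695) (.g (nat_lit 2094) (.e (nat_lit 131126) (nat_lit 13) (.e (nat_lit 393301) (nat_lit 27) (.e (nat_lit 491560) (nat_lit 10) (.e (nat_lit 344097) (nat_lit 18) .nil)))) .nil)) 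
(.lf (nat_lit 246759) (.g (nat_lit 1999) (.e (nat_lit 131127) (nat_lit 13) (.e (nat_lit 393259) (nat_lit 21) (.e (nat_lit 409645) (nat_lit 18) (.e (nat_lit 303115) (nat_lit 1) (.e (nat_lit 164151) (nat_lit 152) (.e (nat_lit 7936) (nat_lit 96) .nil)))))) (.g (nat_lit 4) .nil .nil))))) (.nd (nat_lit 5) (.nd (nat_lit 6) 
(.lf (nat_lit 246679) (.g (nat_lit 2359) (.e (nat_lit 131126) (nat_lit 13) (.e (nat_lit 393301) (nat_lit 27) (.e (nat_lit 491559) (nat_lit 10) (.e (nat_lit 344175) (nat_lit 43) .nil)))) .nil)) 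
(.lf (nat_lit 246743) (.g (nat_lit 2458) (.e (nat_lit 131127) (nat_lit 13) (.e (nat_lit 393252) (nat_lit 18) (.e (nat_lit 164182) (nat_lit 154) (.e (nat_lit 57411) (nat_lit 12) (.e (nat_lit 336316) (nat_lit 17) .nil))))) .nil))) (.nd (nat_lit 6) 
(.lf (nat_lit 246711) (.g (nat_lit 2076) (.e (nat_lit 131127) (nat_lit 13) (.e (nat_lit 401152) (nat_lit 15) (.e (nat_lit 385093) (nat_lit 49) (.e (nat_lit 778318) (nat_lit 3) (.e (nat_lit 57454) (nat_lit 21) (.e (nat_lit 507648) (nat_lit 22) .nil)))))) (.g (nat_lit 5) .nil .nil))) 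
(.lf (nat_lit 246775) (.g (nat_lit 1934) (.e (nat_lit 131127) (nat_lit 13) (.e (nat_lit 393260) (nat_lit 21) (.e (nat_lit 409623) (nat_lit 10) (.e (nat_lit 5293) (nat_lit 298) (.e (nat_lit 1176) (nat_lit 87) (.e (nat_lit 57665) (nat_lit 152) (.e (nat_lit 7936) (nat_lit 96) .nil))))))) (.g (nat_lit 6) .nil .nil)))))) (.nd (nat_lit 4) (.nd (nat_lit 5) (.nd (nat_lit 6) 
(.lf (nat_lit 246671) (.g (nat_lit 2211) (.e (nat_lit 131126) (nat_lit 13) (.e (nat_lit 393301) (nat_lit 27) (.e (nat_lit 491558) (nat_lit 10) (.e (nat_lit 344175) (nat_lit 43) .nil)))) .nil)) 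
(.lf (nat_lit 246735) (.g (nat_lit 480) (.e (nat_lit 131127) (nat_lit 13) (.e (nat_lit 393238) (nat_lit 17) (.e (nat_lit 7936) (nat_lit 407) .nil))) .nil))) (.nd (nat_lit 6) 
(.lf (nat_lit 246703) (.g (nat_lit 883) (.e (nat_lit 131127) (nat_lit 13) (.e (nat_lit 393229) (nat_lit 9) (.e (nat_lit 335987) (nat_lit 1) .nil))) .nil)) 
(.lf (nat_lit 246767) (.g (nat_lit 1557) (.e (nat_lit 131127) (nat_lit 13) (.e (nat_lit 393260) (nat_lit 21) (.e (nat_lit 409617) (nat_lit 10) (.e (nat_lit 5353) (nat_lit 298) .nil)))) .nil)))) (.nd (nat_lit 5) (.nd (nat_lit 6) 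
(.lf (nat_lit 246687) (.g (nat_lit 2655) (.e (nat_lit 131126) (nat_lit 13) (.e (nat_lit 393301) (nat_lit 27) (.e (nat_lit 491560) (nat_lit 10) (.e (nat_lit 344090) (nat_lit 18) (.e (nat_lit 7122) (nat_lit 382) .nil))))) .nil)) 
(.lf (nat_lit 246751) (.g (nat_lit 3726) (.e (nat_lit 131127) (nat_lit 13) (.e (nat_lit 393253) (nat_lit 18) (.e (nat_lit 164179) (nat_lit 154) (.e (nat_lit 57411) (nat_lit 12) (.e (nat_lit 336316) (nat_lit 17) (.e (nat_lit 196681) (nat_lit 17) .nil)))))) (.g (nat_lit 5) .nil .nil)))) (.nd (nat_lit 6) 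
(.lf (nat_lit 246719) (.g (nat_lit 1084) (.e (nat_lit 131127) (nat_lit 13) (.e (nat_lit 401152) (nat_lit 16) (.e (nat_lit 401452) (nat_lit 12) (.e (nat_lit 475169) (nat_lit 22) (.e (nat_lit 507648) (nat_lit 22) .nil))))) (.g (nat_lit 4) .nil .nil))) 
(.lf (nat_lit 246783) (.g (nat_lit 779) (.e (nat_lit 131127) (nat_lit 13) (.e (nat_lit 393260) (nat_lit 21) (.e (nat_lit 409643) (nat_lit 18) (.e (nat_lit 303115) (nat_lit 1) .nil)))) .nil)))))))))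

noncomputable def tv3203 : DT := (.nd (nat_lit 0) (.nd (nat_lit 1) (.nd (nat_lit 2) (.nd (nat_lit 3) (.nd (nat_lit 4) (.nd (nat_lit 5) (.nd (nat_lit 6) 
(.lf (nat_lit 246784) (.g (nat_lit 1271) (.e (nat_lit 131127) (nat_lit 13) (.e (nat_lit 393260) (nat_lit 21) (.e (nat_lit 409643) (nat_lit 18) (.e (nat_lit 303115) (nat_lit 1) (.e (nat_lit 164148) (nat_lit 152) .nil))))) .nil)) 
(.lf (nat_lit 246848) (.g (nat_lit 1153) (.e (nat_lit 131127) (nat_lit 13) (.e (nat_lit 393260) (nat_lit 21) (.e (nat_lit 409648) (nat_lit 18) (.e (nat_lit 303108) (nat_lit 0) .nil)))) .nil))) (.nd (nat_lit 6) 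
(.lf (nat_lit 246816) (.g (nat_lit 1203) (.e (nat_lit 131127) (nat_lit 13) (.e (nat_lit 393260) (nat_lit 21) (.e (nat_lit 409646) (nat_lit 18) (.e (nat_lit 303111) (nat_lit 0) (.e (nat_lit 3459) (nat_lit 216) .nil))))) .nil)) 
(.lf (nat_lit 246880) (.g (nat_lit 1338) (.e (nat_lit 131127) (nat_lit 13) (.e (nat_lit 393260) (nat_lit 21) (.e (nat_lit 409649) (nat_lit 18) (.e (nat_lit 303114) (nat_lit 1) .nil)))) .nil)))) (.nd (nat_lit 5) (.nd (nat_lit 6) 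
(.lf (nat_lit 246800) (.g (nat_lit 1342) (.e (nat_lit 131127) (nat_lit 13) (.e (nat_lit 393260) (nat_lit 21) (.e (nat_lit 409645) (nat_lit 18) (.e (nat_lit 303114) (nat_lit 1) .nil)))) .nil)) 
(.lf (nat_lit 246864) (.g (nat_lit 1688) (.e (nat_lit 131127) (nat_lit 13) (.e (nat_lit 393260) (nat_lit 21) (.e (nat_lit 409648) (nat_lit 18) (.e (nat_lit 303115) (nat_lit 1) (.e (nat_lit 164158) (nat_lit 152) .nil))))) .nil))) (.nd (nat_lit 6) 
(.lf (nat_lit 246832) (.g (nat_lit 2881) (.e (nat_lit 131127) (nat_lit 13) (.e (nat_lit 393260) (nat_lit 21) (.e (nat_lit 409646) (nat_lit 18) (.e (nat_lit 303115) (nat_lit 1) (.e (nat_lit 164159) (nat_lit 152) (.e (nat_lit 1296) (nat_lit 96) .nil)))))) (.g (nat_lit 0) .nil .nil))) 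
(.lf (nat_lit 246896) (.g (nat_lit 581) (.e (nat_lit 131127) (nat_lit 13) (.e (nat_lit 393260) (nat_lit 21) (.e (nat_lit 409650) (nat_lit 19) .nil))) .nil))))) (.nd (nat_lit 4) (.nd (nat_lit 5) (.nd (nat_lit 6) 
(.lf (nat_lit 246792) (.g (nat_lit 1781) (.e (nat_lit 131127) (nat_lit 13) (.e (nat_lit 393260) (nat_lit 21) (.e (nat_lit 409644) (nat_lit 18) (.e (nat_lit 303115) (nat_lit 1) (.e (nat_lit 164148) (nat_lit 152) (.e (nat_lit 1294) (nat_lit 96) .nil)))))) (.g (nat_lit 4) .nil .nil))) 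
(.lf (nat_lit 246856) (.g (nat_lit 1143) (.e (nat_lit 131127) (nat_lit 13) (.e (nat_lit 393260) (nat_lit 21) (.e (nat_lit 409648) (nat_lit 18) (.e (nat_lit 303115) (nat_lit 1) .nil)))) .nil))) (.nd (nat_lit 6) 
(.lf (nat_lit 246824) (.g (nat_lit 1758) (.e (nat_lit 131127) (nat_lit 13) (.e (nat_lit 393260) (nat_lit 21) (.e (nat_lit 409646) (nat_lit 18) (.e (nat_lit 303115) (nat_lit 1) (.e (nat_lit 164148) (nat_lit 152) (.e (nat_lit 1298) (nat_lit 96) .nil)))))) (.g (nat_lit 4) .nil .nil))) 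
(.lf (nat_lit 246888) (.g (nat_lit 2308) (.e (nat_lit 131127) (nat_lit 13) (.e (nat_lit 393260) (nat_lit 21) (.e (nat_lit 409649) (nat_lit 18) (.e (nat_lit 303115) (nat_lit 1) (.e (nat_lit 164151) (nat_lit 152) (.e (nat_lit 7936) (nat_lit 96) .nil)))))) (.g (nat_lit 5) .nil .nil))))) (.nd (nat_lit 5) (.nd (nat_lit 6) 
(.lf (nat_lit 246808) (.g (nat_lit 2744) (.e (nat_lit 131127) (nat_lit 13) (.e (nat_lit 393260) (nat_lit 21) (.e (nat_lit 409645) (nat_lit 18) (.e (nat_lit 303115) (nat_lit 1) (.e (nat_lit 164151) (nat_lit 152) (.e (nat_lit 1293) (nat_lit 96) .nil)))))) (.g (nat_lit 5) .nil .nil))) 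
(.lf (nat_lit 246872) (.g (nat_lit 2178) (.e (nat_lit 131127) (nat_lit 13) (.e (nat_lit 393260) (nat_lit 21) (.e (nat_lit 409649) (nat_lit 18) (.e (nat_lit 303111) (nat_lit 0) (.e (nat_lit 2449) (nat_lit 157) .nil))))) .nil))) (.nd (nat_lit 6) 
(.lf (nat_lit 246840) (.g (nat_lit 1282) (.e (nat_lit 131127) (nat_lit 13) (.e (nat_lit 393260) (nat_lit 21) (.e (nat_lit 409647) (nat_lit 18) (.e (nat_lit 303115) (nat_lit 1) (.e (nat_lit 164150) (nat_lit 152) .nil))))) .nil)) 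
(.lf (nat_lit 246904) (.g (nat_lit 1161) (.e (nat_lit 131127) (nat_lit 13) (.e (nat_lit 393271) (nat_lit 23) (.e (nat_lit 426446) (nat_lit 20) .nil))) .nil)))))) (.nd (nat_lit 3) (.nd (nat_lit 4) (.nd (nat_lit 5) (.nd (nat_lit 6) 
(.lf (nat_lit 246788) (.g (nat_lit 1540) (.e (nat_lit 131127) (nat_lit 13) (.e (nat_lit 393260) (nat_lit 21) (.e (nat_lit 409643) (nat_lit 18) (.e (nat_lit 303115) (nat_lit 1) (.e (nat_lit 164155) (nat_lit 152) (.e (nat_lit 1294) (nat_lit 96) .nil)))))) (.g (nat_lit 4) .nil .nil))) 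
(.lf (nat_lit 246852) (.g (nat_lit 1150) (.e (nat_lit 131127) (nat_lit 13) (.e (nat_lit 393260) (nat_lit 21) (.e (nat_lit 409648) (nat_lit 18) (.e (nat_lit 303114) (nat_lit 1) .nil)))) .nil))) (.nd (nat_lit 6) 
(.lf (nat_lit 246820) (.g (nat_lit 1568) (.e (nat_lit 131127) (nat_lit 13) (.e (nat_lit 393260) (nat_lit 21) (.e (nat_lit 409646) (nat_lit 18) (.e (nat_lit 303114) (nat_lit 1) (.e (nat_lit 164159) (nat_lit 152) .nil))))) .nil)) 
(.lf (nat_lit 246884) (.g (nat_lit 2424) (.e (nat_lit 131127) (nat_lit 13) (.e (nat_lit 393260) (nat_lit 21) (.e (nat_lit 409649) (nat_lit 18) (.e (nat_lit 303115) (nat_lit 1) (.e (nat_lit 164148) (nat_lit 152) (.e (nat_lit 1295) (nat_lit 96) .nil)))))) (.g (nat_lit 5) .nil .nil))))) (.nd (nat_lit 5) (.nd (nat_lit 6) 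
(.lf (nat_lit 246804) (.g (nat_lit 2717) (.e (nat_lit 131127) (nat_lit 13) (.e (nat_lit 393260) (nat_lit 21) (.e (nat_lit 409645) (nat_lit 18) (.e (nat_lit 303115) (nat_lit 1) (.e (nat_lit 164148) (nat_lit 152) (.e (nat_lit 1295) (nat_lit 96) .nil)))))) (.g (nat_lit 5) .nil .nil))) 
(.lf (nat_lit 246868) (.g (nat_lit 1752) (.e (nat_lit 131127) (nat_lit 13) (.e (nat_lit 393260) (nat_lit 21) (.e (nat_lit 409649) (nat_lit 18) (.e (nat_lit 303107) (nat_lit 0) .nil)))) .nil))) (.nd (nat_lit 6) 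
(.lf (nat_lit 246836) (.g (nat_lit 980) (.e (nat_lit 131127) (nat_lit 13) (.e (nat_lit 393260) (nat_lit 21) (.e (nat_lit 409647) (nat_lit 18) (.e (nat_lit 303111) (nat_lit 0) .nil)))) .nil)) 
(.lf (nat_lit 246900) (.g (nat_lit 1180) (.e (nat_lit 131127) (nat_lit 13) (.e (nat_lit 393271) (nat_lit 23) (.e (nat_lit 426354) (nat_lit 15) .nil))) .nil))))) (.nd (nat_lit 4) (.nd (nat_lit 5) (.nd (nat_lit 6) 
(.lf (nat_lit 246796) (.g (nat_lit 2568) (.e (nat_lit 131127) (nat_lit 13) (.e (nat_lit 393260) (nat_lit 21) (.e (nat_lit 409644) (nat_lit 18) (.e (nat_lit 303115) (nat_lit 1) (.e (nat_lit 164159) (nat_lit 152) (.e (nat_lit 1296) (nat_lit 96) .nil)))))) (.g (nat_lit 0) .nil .nil))) 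
(.lf (nat_lit 246860) (.g (nat_lit 2384) (.e (nat_lit 131127) (nat_lit 13) (.e (nat_lit 393260) (nat_lit 21) (.e (nat_lit 409648) (nat_lit 18) (.e (nat_lit 303115) (nat_lit 1) (.e (nat_lit 164151) (nat_lit 152) (.e (nat_lit 1293) (nat_lit 96) .nil)))))) (.g (nat_lit 5) .nil .nil)))) (.nd (nat_lit 6) 
(.lf (nat_lit 246828) (.g (nat_lit 2440) (.e (nat_lit 131127) (nat_lit 13) (.e (nat_lit 393260) (nat_lit 21) (.e (nat_lit 409646) (nat_lit 18) (.e (nat_lit 303115) (nat_lit 1) (.e (nat_lit 164151) (nat_lit 152) (.e (nat_lit 7936) (nat_lit 96) .nil)))))) (.g (nat_lit 5) .nil .nil))) 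
(.lf (nat_lit 246892) (.g (nat_lit 1562) (.e (nat_lit 131127) (nat_lit 13) (.e (nat_lit 393260) (nat_lit 21) (.e (nat_lit 409649) (nat_lit 18) (.e (nat_lit 303115) (nat_lit 1) (.e (nat_lit 164161) (nat_lit 152) (.e (nat_lit 7936) (nat_lit 96) .nil)))))) (.g (nat_lit 4) .nil .nil))))) (.nd (nat_lit 5) (.nd (nat_lit 6) 
(.lf (nat_lit 246812) (.g (nat_lit 1943) (.e (nat_lit 131127) (nat_lit 13) (.e (nat_lit 393260) (nat_lit 21) (.e (nat_lit 409645) (nat_lit 18) (.e (nat_lit 303115) (nat_lit 1) (.e (nat_lit 164158) (nat_lit 152) .nil))))) .nil)) 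
(.lf (nat_lit 246876) (.g (nat_lit 2095) (.e (nat_lit 131127) (nat_lit 13) (.e (nat_lit 393260) (nat_lit 21) (.e (nat_lit 409649) (nat_lit 18) (.e (nat_lit 303111) (nat_lit 0) (.e (nat_lit 3468) (nat_lit 217) (.e (nat_lit 704256) (nat_lit 20) .nil)))))) (.g (nat_lit 4) .nil .nil)))) (.nd (nat_lit 6) 
(.lf (nat_lit 246844) (.g (nat_lit 1541) (.e (nat_lit 131127) (nat_lit 13) (.e (nat_lit 393260) (nat_lit 21) (.e (nat_lit 409647) (nat_lit 18) (.e (nat_lit 303115) (nat_lit 1) (.e (nat_lit 164162) (nat_lit 152) (.e (nat_lit 1294) (nat_lit 96) .nil)))))) (.g (nat_lit 4) .nil .nil))) 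
(.lf (nat_lit 246908) (.g (nat_lit 2513) (.e (nat_lit 131127) (nat_lit 13) (.e (nat_lit 393271) (nat_lit 23) (.e (nat_lit 426449) (nat_lit 20) (.e (nat_lit 114710) (nat_lit 21) (.e (nat_lit 57830) (nat_lit 250) .nil))))) .nil))))))) (.nd (nat_lit 2) (.nd (nat_lit 3) (.nd (nat_lit 4) (.nd (nat_lit 5) (.nd (nat_lit 6) 
(.lf (nat_lit 246786) (.g (nat_lit 1985) (.e (nat_lit 131127) (nat_lit 13) (.e (nat_lit 393260) (nat_lit 21) (.e (nat_lit 409643) (nat_lit 18) (.e (nat_lit 303115) (nat_lit 1) (.e (nat_lit 164151) (nat_lit 152) (.e (nat_lit 7936) (nat_lit 96) .nil)))))) (.g (nat_lit 5) .nil .nil))) 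
(.lf (nat_lit 246850) (.g (nat_lit 1479) (.e (nat_lit 131127) (nat_lit 13) (.e (nat_lit 393260) (nat_lit 21) (.e (nat_lit 409648) (nat_lit 18) (.e (nat_lit 303109) (nat_lit 0) .nil)))) .nil))) (.nd (nat_lit 6) 
(.lf (nat_lit 246818) (.g (nat_lit 2424) (.e (nat_lit 131127) (nat_lit 13) (.e (nat_lit 393260) (nat_lit 21) (.e (nat_lit 409646) (nat_lit 18) (.e (nat_lit 303112) (nat_lit 0) (.e (nat_lit 2478) (nat_lit 157) (.e (nat_lit 6273) (nat_lit 337) (.e (nat_lit 1293) (nat_lit 96) .nil))))))) (.g (nat_lit 4) .nil .nil))) 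
(.lf (nat_lit 246882) (.g (nat_lit 1014) (.e (nat_lit 131127) (nat_lit 13) (.e (nat_lit 393260) (nat_lit 21) (.e (nat_lit 409649) (nat_lit 18) (.e (nat_lit 303115) (nat_lit 1) .nil)))) .nil)))) (.nd (nat_lit 5) (.nd (nat_lit 6) 
(.lf (nat_lit 246802) (.g (nat_lit 1999) (.e (nat_lit 131127) (nat_lit 13) (.e (nat_lit 393260) (nat_lit 21) (.e (nat_lit 409645) (nat_lit 18) (.e (nat_lit 303115) (nat_lit 1) (.e (nat_lit 164148) (nat_lit 152) (.e (nat_lit 1293) (nat_lit 96) .nil)))))) (.g (nat_lit 4) .nil .nil))) 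
(.lf (nat_lit 246866) (.g (nat_lit 2295) (.e (nat_lit 131127) (nat_lit 13) (.e (nat_lit 393260) (nat_lit 21) (.e (nat_lit 409648) (nat_lit 18) (.e (nat_lit 303115) (nat_lit 1) (.e (nat_lit 164162) (nat_lit 152) (.e (nat_lit 1294) (nat_lit 96) .nil)))))) (.g (nat_lit 4) .nil .nil)))) (.nd (nat_lit 6) 
(.lf (nat_lit 246834) (.g (nat_lit 1825) (.e (nat_lit 131127) (nat_lit 13) (.e (nat_lit 393260) (nat_lit 21) (.e (nat_lit 409646) (nat_lit 18) (.e (nat_lit 303115) (nat_lit 1) (.e (nat_lit 164161) (nat_lit 152) (.e (nat_lit 7936) (nat_lit 96) .nil)))))) (.g (nat_lit 4) .nil .nil))) 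
(.lf (nat_lit 246898) (.g (nat_lit 2226) (.e (nat_lit 131127) (nat_lit 13) (.e (nat_lit 393267) (nat_lit 23) (.e (nat_lit 426446) (nat_lit 20) (.e (nat_lit 114712) (nat_lit 21) (.e (nat_lit 57830) (nat_lit 250) (.e (nat_lit 1296) (nat_lit 96) .nil)))))) (.g (nat_lit 0) .nil .nil)))))) (.nd (nat_lit 4) (.nd (nat_lit 5) (.nd (nat_lit 6) 
(.lf (nat_lit 246794) (.g (nat_lit 1844) (.e (nat_lit 131127) (nat_lit 13) (.e (nat_lit 393260) (nat_lit 21) (.e (nat_lit 409644) (nat_lit 18) (.e (nat_lit 303115) (nat_lit 1) (.e (nat_lit 164151) (nat_lit 152) (.e (nat_lit 1293) (nat_lit 96) .nil)))))) (.g (nat_lit 4) .nil .nil))) 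
(.lf (nat_lit 246858) (.g (nat_lit 2403) (.e (nat_lit 131127) (nat_lit 13) (.e (nat_lit 393260) (nat_lit 21) (.e (nat_lit 409648) (nat_lit 18) (.e (nat_lit 303115) (nat_lit 1) (.e (nat_lit 164148) (nat_lit 152) (.e (nat_lit 1294) (nat_lit 96) .nil)))))) (.g (nat_lit 5) .nil .nil)))) (.nd (nat_lit 6) 
(.lf (nat_lit 246826) (.g (nat_lit 1858) (.e (nat_lit 131127) (nat_lit 13) (.e (nat_lit 393260) (nat_lit 21) (.e (nat_lit 409646) (nat_lit 18) (.e (nat_lit 303115) (nat_lit 1) (.e (nat_lit 164150) (nat_lit 152) (.e (nat_lit 1293) (nat_lit 96) .nil)))))) (.g (nat_lit 4) .nil .nil))) 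
(.lf (nat_lit 246890) (.g (nat_lit 1939) (.e (nat_lit 131127) (nat_lit 13) (.e (nat_lit 393260) (nat_lit 21) (.e (nat_lit 409649) (nat_lit 18) (.e (nat_lit 303115) (nat_lit 1) (.e (nat_lit 164155) (nat_lit 152) (.e (nat_lit 1294) (nat_lit 96) .nil)))))) (.g (nat_lit 4) .nil .nil))))) (.nd (nat_lit 5) (.nd (nat_lit 6) 
(.lf (nat_lit 246810) (.g (nat_lit 2536) (.e (nat_lit 131127) (nat_lit 13) (.e (nat_lit 393260) (nat_lit 21) (.e (nat_lit 409645) (nat_lit 18) (.e (nat_lit 303115) (nat_lit 1) (.e (nat_lit 164153) (nat_lit 152) (.e (nat_lit 1294) (nat_lit 96) .nil)))))) (.g (nat_lit 4) .nil .nil))) 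
(.lf (nat_lit 246874) (.g (nat_lit 2956) (.e (nat_lit 131127) (nat_lit 13) (.e (nat_lit 393260) (nat_lit 21) (.e (nat_lit 409649) (nat_lit 18) (.e (nat_lit 303111) (nat_lit 0) (.e (nat_lit 3459) (nat_lit 216) (.e (nat_lit 696064) (nat_lit 20) .nil)))))) (.g (nat_lit 5) .nil .nil)))) (.nd (nat_lit 6) 
(.lf (nat_lit 246842) (.g (nat_lit 1662) (.e (nat_lit 131127) (nat_lit 13) (.e (nat_lit 393260) (nat_lit 21) (.e (nat_lit 409647) (nat_lit 18) (.e (nat_lit 303115) (nat_lit 1) (.e (nat_lit 164151) (nat_lit 152) (.e (nat_lit 7936) (nat_lit 96) .nil)))))) (.g (nat_lit 4) .nil .nil))) 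
(.lf (nat_lit 246906) (.g (nat_lit 773) (.e (nat_lit 131127) (nat_lit 13) (.e (nat_lit 393271) (nat_lit 23) (.e (nat_lit 426448) (nat_lit 20) .nil))) .nil)))))) (.nd (nat_lit 3) (.nd (nat_lit 4) (.nd (nat_lit 5) (.nd (nat_lit 6) 
(.lf (nat_lit 246790) (.g (nat_lit 1867) (.e (nat_lit 131127) (nat_lit 13) (.e (nat_lit 393260) (nat_lit 21) (.e (nat_lit 409643) (nat_lit 18) (.e (nat_lit 303115) (nat_lit 1) (.e (nat_lit 164162) (nat_lit 152) (.e (nat_lit 1294) (nat_lit 96) .nil)))))) (.g (nat_lit 4) .nil .nil))) 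
(.lf (nat_lit 246854) (.g (nat_lit 2058) (.e (nat_lit 131127) (nat_lit 13) (.e (nat_lit 393260) (nat_lit 21) (.e (nat_lit 409648) (nat_lit 18) (.e (nat_lit 303114) (nat_lit 1) (.e (nat_lit 164151) (nat_lit 152) (.e (nat_lit 7936) (nat_lit 96) .nil)))))) (.g (nat_lit 5) .nil .nil)))) (.nd (nat_lit 6) 
(.lf (nat_lit 246822) (.g (nat_lit 1601) (.e (nat_lit 131127) (nat_lit 13) (.e (nat_lit 393260) (nat_lit 21) (.e (nat_lit 409646) (nat_lit 18) (.e (nat_lit 303115) (nat_lit 1) (.e (nat_lit 164148) (nat_lit 152) (.e (nat_lit 1293) (nat_lit 96) .nil)))))) (.g (nat_lit 4) .nil .nil))) 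
(.lf (nat_lit 246886) (.g (nat_lit 1732) (.e (nat_lit 131127) (nat_lit 13) (.e (nat_lit 393260) (nat_lit 21) (.e (nat_lit 409649) (nat_lit 18) (.e (nat_lit 303115) (nat_lit 1) (.e (nat_lit 164150) (nat_lit 152) (.e (nat_lit 1293) (nat_lit 96) .nil)))))) (.g (nat_lit 4) .nil .nil))))) (.nd (nat_lit 5) (.nd (nat_lit 6) 
(.lf (nat_lit 246806) (.g (nat_lit 2322) (.e (nat_lit 131127) (nat_lit 13) (.e (nat_lit 393260) (nat_lit 21) (.e (nat_lit 409645) (nat_lit 18) (.e (nat_lit 303115) (nat_lit 1) (.e (nat_lit 164150) (nat_lit 152) (.e (nat_lit 1293) (nat_lit 96) .nil)))))) (.g (nat_lit 4) .nil .nil))) 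
(.lf (nat_lit 246870) (.g (nat_lit 1361) (.e (nat_lit 131127) (nat_lit 13) (.e (nat_lit 393260) (nat_lit 21) (.e (nat_lit 409649) (nat_lit 18) (.e (nat_lit 303111) (nat_lit 0) .nil)))) .nil))) (.nd (nat_lit 6) 
(.lf (nat_lit 246838) (.g (nat_lit 1649) (.e (nat_lit 131127) (nat_lit 13) (.e (nat_lit 393260) (nat_lit 21) (.e (nat_lit 409647) (nat_lit 18) (.e (nat_lit 303115) (nat_lit 1) (.e (nat_lit 164148) (nat_lit 152) (.e (nat_lit 1294) (nat_lit 96) .nil)))))) (.g (nat_lit 4) .nil .nil))) 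
(.lf (nat_lit 246902) (.g (nat_lit 1988) (.e (nat_lit 131127) (nat_lit 13) (.e (nat_lit 393271) (nat_lit 23) (.e (nat_lit 426354) (nat_lit 15) (.e (nat_lit 2198) (nat_lit 144) .nil)))) .nil))))) (.nd (nat_lit 4) (.nd (nat_lit 5) (.nd (nat_lit 6) 
(.lf (nat_lit 246798) (.g (nat_lit 2187) (.e (nat_lit 131127) (nat_lit 13) (.e (nat_lit 393260) (nat_lit 21) (.e (nat_lit 409645) (nat_lit 18) (.e (nat_lit 303112) (nat_lit 0) (.e (nat_lit 2449) (nat_lit 157) (.e (nat_lit 6254) (nat_lit 337) (.e (nat_lit 7936) (nat_lit 96) .nil))))))) (.g (nat_lit 4) .nil .nil))) 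
(.lf (nat_lit 246862) (.g (nat_lit 2007) (.e (nat_lit 131127) (nat_lit 13) (.e (nat_lit 393260) (nat_lit 21) (.e (nat_lit 409648) (nat_lit 18) (.e (nat_lit 303115) (nat_lit 1) (.e (nat_lit 164153) (nat_lit 152) (.e (nat_lit 1294) (nat_lit 96) .nil)))))) (.g (nat_lit 4) .nil .nil)))) (.nd (nat_lit 6) 
(.lf (nat_lit 246830) (.g (nat_lit 1940) (.e (nat_lit 131127) (nat_lit 13) (.e (nat_lit 393260) (nat_lit 21) (.e (nat_lit 409646) (nat_lit 18) (.e (nat_lit 303115) (nat_lit 1) (.e (nat_lit 164155) (nat_lit 152) (.e (nat_lit 1294) (nat_lit 96) .nil)))))) (.g (nat_lit 4) .nil .nil))) 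
(.lf (nat_lit 246894) (.g (nat_lit 1835) (.e (nat_lit 131127) (nat_lit 13) (.e (nat_lit 393260) (nat_lit 21) (.e (nat_lit 409649) (nat_lit 18) (.e (nat_lit 303120) (nat_lit 4) .nil)))) .nil)))) (.nd (nat_lit 5) (.nd (nat_lit 6) 
(.lf (nat_lit 246814) (.g (nat_lit 2127) (.e (nat_lit 131127) (nat_lit 13) (.e (nat_lit 393260) (nat_lit 21) (.e (nat_lit 409645) (nat_lit 18) (.e (nat_lit 303115) (nat_lit 1) (.e (nat_lit 164161) (nat_lit 152) (.e (nat_lit 7936) (nat_lit 96) .nil)))))) (.g (nat_lit 4) .nil .nil))) 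
(.lf (nat_lit 246878) (.g (nat_lit 3075) (.e (nat_lit 131127) (nat_lit 13) (.e (nat_lit 393260) (nat_lit 21) (.e (nat_lit 409649) (nat_lit 18) (.e (nat_lit 303111) (nat_lit 0) (.e (nat_lit 3469) (nat_lit 217) (.e (nat_lit 704256) (nat_lit 20) .nil)))))) (.g (nat_lit 5) .nil .nil)))) (.nd (nat_lit 6) 
(.lf (nat_lit 246846) (.g (nat_lit 2094) (.e (nat_lit 131127) (nat_lit 13) (.e (nat_lit 393260) (nat_lit 21) (.e (nat_lit 409648) (nat_lit 18) (.e (nat_lit 303104) (nat_lit 0) (.e (nat_lit 3459) (nat_lit 216) (.e (nat_lit 696064) (nat_lit 20) .nil)))))) (.g (nat_lit 5) .nil .nil))) 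
(.lf (nat_lit 246910) (.g (nat_lit 965) (.e (nat_lit 131127) (nat_lit 13) (.e (nat_lit 393291) (nat_lit 26) (.e (nat_lit 475214) (nat_lit 42) .nil))) .nil)))))))) (.nd (nat_lit 1) (.nd (nat_lit 2) (.nd (nat_lit 3) (.nd (nat_lit 4) (.nd (nat_lit 5) (.nd (nat_lit 6) 
(.lf (nat_lit 246785) (.g (nat_lit 1816) (.e (nat_lit 131127) (nat_lit 13) (.e (nat_lit 393260) (nat_lit 21) (.e (nat_lit 409643) (nat_lit 18) (.e (nat_lit 303115) (nat_lit 1) (.e (nat_lit 164148) (nat_lit 152) (.e (nat_lit 1295) (nat_lit 96) .nil)))))) (.g (nat_lit 4) .nil .nil))) 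
(.lf (nat_lit 246849) (.g (nat_lit 2593) (.e (nat_lit 131127) (nat_lit 13) (.e (nat_lit 393260) (nat_lit 21) (.e (nat_lit 409648) (nat_lit 18) (.e (nat_lit 303108) (nat_lit 0) (.e (nat_lit 3469) (nat_lit 217) (.e (nat_lit 704256) (nat_lit 20) .nil)))))) (.g (nat_lit 5) .nil .nil)))) (.nd (nat_lit 6) 
(.lf (nat_lit 246817) (.g (nat_lit 1897) (.e (nat_lit 131127) (nat_lit 13) (.e (nat_lit 393260) (nat_lit 21) (.e (nat_lit 409646) (nat_lit 18) (.e (nat_lit 303111) (nat_lit 0) (.e (nat_lit 3459) (nat_lit 216) (.e (nat_lit 696064) (nat_lit 20) .nil)))))) (.g (nat_lit 5) .nil .nil))) 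
(.lf (nat_lit 246881) (.g (nat_lit 1855) (.e (nat_lit 131127) (nat_lit 13) (.e (nat_lit 393260) (nat_lit 21) (.e (nat_lit 409649) (nat_lit 18) (.e (nat_lit 303114) (nat_lit 1) (.e (nat_lit 164151) (nat_lit 152) (.e (nat_lit 7936) (nat_lit 96) .nil)))))) (.g (nat_lit 4) .nil .nil))))) (.nd (nat_lit 5) (.nd (nat_lit 6) 
(.lf (nat_lit 246801) (.g (nat_lit 958) (.e (nat_lit 131127) (nat_lit 13) (.e (nat_lit 393260) (nat_lit 21) (.e (nat_lit 409645) (nat_lit 18) (.e (nat_lit 303115) (nat_lit 1) .nil)))) .nil)) 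
(.lf (nat_lit 246865) (.g (nat_lit 1674) (.e (nat_lit 131127) (nat_lit 13) (.e (nat_lit 393260) (nat_lit 21) (.e (nat_lit 409648) (nat_lit 18) (.e (nat_lit 303115) (nat_lit 1) (.e (nat_lit 164160) (nat_lit 152) .nil))))) .nil))) (.nd (nat_lit 6) 
(.lf (nat_lit 246833) (.g (nat_lit 1891) (.e (nat_lit 131127) (nat_lit 13) (.e (nat_lit 393260) (nat_lit 21) (.e (nat_lit 409646) (nat_lit 18) (.e (nat_lit 303115) (nat_lit 1) (.e (nat_lit 164160) (nat_lit 152) (.e (nat_lit 1296) (nat_lit 96) .nil)))))) (.g (nat_lit 4) .nil .nil))) 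
(.lf (nat_lit 246897) (.g (nat_lit 1356) (.e (nat_lit 131127) (nat_lit 13) (.e (nat_lit 393260) (nat_lit 21) (.e (nat_lit 409651) (nat_lit 19) (.e (nat_lit 311309) (nat_lit 1) .nil)))) .nil))))) (.nd (nat_lit 4) (.nd (nat_lit 5) (.nd (nat_lit 6) 
(.lf (nat_lit 246793) (.g (nat_lit 1622) (.e (nat_lit 131127) (nat_lit 13) (.e (nat_lit 393260) (nat_lit 21) (.e (nat_lit 409644) (nat_lit 18) (.e (nat_lit 303115) (nat_lit 1) (.e (nat_lit 164148) (nat_lit 152) (.e (nat_lit 1295) (nat_lit 96) .nil)))))) (.g (nat_lit 4) .nil .nil))) 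
(.lf (nat_lit 246857) (.g (nat_lit 1619) (.e (nat_lit 131127) (nat_lit 13) (.e (nat_lit 393260) (nat_lit 21) (.e (nat_lit 409648) (nat_lit 18) (.e (nat_lit 303115) (nat_lit 1) (.e (nat_lit 164148) (nat_lit 152) .nil))))) .nil))) (.nd (nat_lit 6) 
(.lf (nat_lit 246825) (.g (nat_lit 1688) (.e (nat_lit 131127) (nat_lit 13) (.e (nat_lit 393260) (nat_lit 21) (.e (nat_lit 409646) (nat_lit 18) (.e (nat_lit 303115) (nat_lit 1) (.e (nat_lit 164150) (nat_lit 152) .nil))))) .nil)) 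
(.lf (nat_lit 246889) (.g (nat_lit 2006) (.e (nat_lit 131127) (nat_lit 13) (.e (nat_lit 393260) (nat_lit 21) (.e (nat_lit 409649) (nat_lit 18) (.e (nat_lit 303115) (nat_lit 1) (.e (nat_lit 164153) (nat_lit 152) (.e (nat_lit 1294) (nat_lit 96) .nil)))))) (.g (nat_lit 4) .nil .nil))))) (.nd (nat_lit 5) (.nd (nat_lit 6) 
(.lf (nat_lit 246809) (.g (nat_lit 2749) (.e (nat_lit 131127) (nat_lit 13) (.e (nat_lit 393260) (nat_lit 21) (.e (nat_lit 409645) (nat_lit 18) (.e (nat_lit 303115) (nat_lit 1) (.e (nat_lit 164151) (nat_lit 152) (.e (nat_lit 7936) (nat_lit 96) .nil)))))) (.g (nat_lit 5) .nil .nil))) 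
(.lf (nat_lit 246873) (.g (nat_lit 2367) (.e (nat_lit 131127) (nat_lit 13) (.e (nat_lit 393260) (nat_lit 21) (.e (nat_lit 409649) (nat_lit 18) (.e (nat_lit 303111) (nat_lit 0) (.e (nat_lit 3459) (nat_lit 216) (.e (nat_lit 688189) (nat_lit 20) .nil)))))) (.g (nat_lit 4) .nil .nil)))) (.nd (nat_lit 6) 
(.lf (nat_lit 246841) (.g (nat_lit 1639) (.e (nat_lit 131127) (nat_lit 13) (.e (nat_lit 393260) (nat_lit 21) (.e (nat_lit 409647) (nat_lit 18) (.e (nat_lit 303115) (nat_lit 1) (.e (nat_lit 164151) (nat_lit 152) (.e (nat_lit 1293) (nat_lit 96) .nil)))))) (.g (nat_lit 4) .nil .nil))) 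
(.lf (nat_lit 246905) (.g (nat_lit 1878) (.e (nat_lit 131127) (nat_lit 13) (.e (nat_lit 393271) (nat_lit 23) (.e (nat_lit 426446) (nat_lit 20) (.e (nat_lit 114710) (nat_lit 21) .nil)))) .nil)))))) (.nd (nat_lit 3) (.nd (nat_lit 4) (.nd (nat_lit 5) (.nd (nat_lit 6) 
(.lf (nat_lit 246789) (.g (nat_lit 1271) (.e (nat_lit 131127) (nat_lit 13) (.e (nat_lit 393260) (nat_lit 21) (.e (nat_lit 409643) (nat_lit 18) (.e (nat_lit 303115) (nat_lit 1) (.e (nat_lit 164158) (nat_lit 152) .nil))))) .nil)) 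
(.lf (nat_lit 246853) (.g (nat_lit 2138) (.e (nat_lit 131127) (nat_lit 13) (.e (nat_lit 393260) (nat_lit 21) (.e (nat_lit 409648) (nat_lit 18) (.e (nat_lit 303114) (nat_lit 1) (.e (nat_lit 164151) (nat_lit 152) (.e (nat_lit 1293) (nat_lit 96) .nil)))))) (.g (nat_lit 5) .nil .nil)))) (.nd (nat_lit 6) 
(.lf (nat_lit 246821) (.g (nat_lit 904) (.e (nat_lit 131127) (nat_lit 13) (.e (nat_lit 393260) (nat_lit 21) (.e (nat_lit 409646) (nat_lit 18) (.e (nat_lit 303115) (nat_lit 1) .nil)))) .nil)) 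
(.lf (nat_lit 246885) (.g (nat_lit 1773) (.e (nat_lit 131127) (nat_lit 13) (.e (nat_lit 393260) (nat_lit 21) (.e (nat_lit 409649) (nat_lit 18) (.e (nat_lit 303115) (nat_lit 1) (.e (nat_lit 164148) (nat_lit 152) (.e (nat_lit 1298) (nat_lit 96) .nil)))))) (.g (nat_lit 4) .nil .nil))))) (.nd (nat_lit 5) (.nd (nat_lit 6) 
(.lf (nat_lit 246805) (.g (nat_lit 2109) (.e (nat_lit 131127) (nat_lit 13) (.e (nat_lit 393260) (nat_lit 21) (.e (nat_lit 409645) (nat_lit 18) (.e (nat_lit 303115) (nat_lit 1) (.e (nat_lit 164148) (nat_lit 152) (.e (nat_lit 1298) (nat_lit 96) .nil)))))) (.g (nat_lit 4) .nil .nil))) 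
(.lf (nat_lit 246869) (.g (nat_lit 1909) (.e (nat_lit 131127) (nat_lit 13) (.e (nat_lit 393260) (nat_lit 21) (.e (nat_lit 409649) (nat_lit 18) (.e (nat_lit 303108) (nat_lit 0) .nil)))) .nil))) (.nd (nat_lit 6) 
(.lf (nat_lit 246837) (.g (nat_lit 874) (.e (nat_lit 131127) (nat_lit 13) (.e (nat_lit 393260) (nat_lit 21) (.e (nat_lit 409647) (nat_lit 18) (.e (nat_lit 303115) (nat_lit 1) .nil)))) .nil)) 
(.lf (nat_lit 246901) (.g (nat_lit 1975) (.e (nat_lit 131127) (nat_lit 13) (.e (nat_lit 393271) (nat_lit 23) (.e (nat_lit 426354) (nat_lit 15) (.e (nat_lit 2196) (nat_lit 144) .nil)))) .nil))))) (.nd (nat_lit 4) (.nd (nat_lit 5) (.nd (nat_lit 6) 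
(.lf (nat_lit 246797) (.g (nat_lit 1673) (.e (nat_lit 131127) (nat_lit 13) (.e (nat_lit 393260) (nat_lit 21) (.e (nat_lit 409644) (nat_lit 18) (.e (nat_lit 303115) (nat_lit 1) (.e (nat_lit 164162) (nat_lit 152) (.e (nat_lit 1294) (nat_lit 96) .nil)))))) (.g (nat_lit 4) .nil .nil))) 
(.lf (nat_lit 246861) (.g (nat_lit 2239) (.e (nat_lit 131127) (nat_lit 13) (.e (nat_lit 393260) (nat_lit 21) (.e (nat_lit 409648) (nat_lit 18) (.e (nat_lit 303115) (nat_lit 1) (.e (nat_lit 164151) (nat_lit 152) (.e (nat_lit 7936) (nat_lit 96) .nil)))))) (.g (nat_lit 5) .nil .nil)))) (.nd (nat_lit 6) 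
(.lf (nat_lit 246829) (.g (nat_lit 2140) (.e (nat_lit 131127) (nat_lit 13) (.e (nat_lit 393260) (nat_lit 21) (.e (nat_lit 409646) (nat_lit 18) (.e (nat_lit 303115) (nat_lit 1) (.e (nat_lit 164153) (nat_lit 152) (.e (nat_lit 1294) (nat_lit 96) .nil)))))) (.g (nat_lit 4) .nil .nil))) 
(.lf (nat_lit 246893) (.g (nat_lit 2294) (.e (nat_lit 131127) (nat_lit 13) (.e (nat_lit 393260) (nat_lit 21) (.e (nat_lit 409649) (nat_lit 18) (.e (nat_lit 303115) (nat_lit 1) (.e (nat_lit 164162) (nat_lit 152) (.e (nat_lit 1294) (nat_lit 96) .nil)))))) (.g (nat_lit 5) .nil .nil))))) (.nd (nat_lit 5) (.nd (nat_lit 6) 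
(.lf (nat_lit 246813) (.g (nat_lit 2207) (.e (nat_lit 131127) (nat_lit 13) (.e (nat_lit 393260) (nat_lit 21) (.e (nat_lit 409645) (nat_lit 18) (.e (nat_lit 303115) (nat_lit 1) (.e (nat_lit 164160) (nat_lit 152) (.e (nat_lit 1296) (nat_lit 96) .nil)))))) (.g (nat_lit 4) .nil .nil))) 
(.lf (nat_lit 246877) (.g (nat_lit 2614) (.e (nat_lit 131127) (nat_lit 13) (.e (nat_lit 393260) (nat_lit 21) (.e (nat_lit 409649) (nat_lit 18) (.e (nat_lit 303111) (nat_lit 0) (.e (nat_lit 3469) (nat_lit 217) (.e (nat_lit 696365) (nat_lit 20) .nil)))))) (.g (nat_lit 5) .nil .nil)))) (.nd (nat_lit 6) 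
(.lf (nat_lit 246845) (.g (nat_lit 1195) (.e (nat_lit 131127) (nat_lit 13) (.e (nat_lit 393260) (nat_lit 21) (.e (nat_lit 409648) (nat_lit 18) (.e (nat_lit 303104) (nat_lit 0) .nil)))) .nil)) 
(.lf (nat_lit 246909) (.g (nat_lit 2075) (.e (nat_lit 131127) (nat_lit 13) (.e (nat_lit 393271) (nat_lit 23) (.e (nat_lit 426449) (nat_lit 20) (.e (nat_lit 114712) (nat_lit 21) (.e (nat_lit 57830) (nat_lit 250) .nil))))) .nil))))))) (.nd (nat_lit 2) (.nd (nat_lit 3) (.nd (nat_lit 4) (.nd (nat_lit 5) (.nd (nat_lit 6) 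
(.lf (nat_lit 246787) (.g (nat_lit 1579) (.e (nat_lit 131127) (nat_lit 13) (.e (nat_lit 393260) (nat_lit 21) (.e (nat_lit 409643) (nat_lit 18) (.e (nat_lit 303115) (nat_lit 1) (.e (nat_lit 164153) (nat_lit 152) (.e (nat_lit 1294) (nat_lit 96) .nil)))))) (.g (nat_lit 4) .nil .nil))) 
(.lf (nat_lit 246851) (.g (nat_lit 1803) (.e (nat_lit 131127) (nat_lit 13) (.e (nat_lit 393260) (nat_lit 21) (.e (nat_lit 409648) (nat_lit 18) (.e (nat_lit 303110) (nat_lit 0) .nil)))) .nil))) (.nd (nat_lit 6) 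
(.lf (nat_lit 246819) (.g (nat_lit 1490) (.e (nat_lit 131127) (nat_lit 13) (.e (nat_lit 393260) (nat_lit 21) (.e (nat_lit 409646) (nat_lit 18) (.e (nat_lit 303114) (nat_lit 1) .nil)))) .nil)) 
(.lf (nat_lit 246883) (.g (nat_lit 1534) (.e (nat_lit 131127) (nat_lit 13) (.e (nat_lit 393260) (nat_lit 21) (.e (nat_lit 409649) (nat_lit 18) (.e (nat_lit 303115) (nat_lit 1) (.e (nat_lit 164148) (nat_lit 152) .nil))))) .nil)))) (.nd (nat_lit 5) (.nd (nat_lit 6) 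
(.lf (nat_lit 246803) (.g (nat_lit 2919) (.e (nat_lit 131127) (nat_lit 13) (.e (nat_lit 393260) (nat_lit 21) (.e (nat_lit 409645) (nat_lit 18) (.e (nat_lit 303115) (nat_lit 1) (.e (nat_lit 164148) (nat_lit 152) (.e (nat_lit 1294) (nat_lit 96) .nil)))))) (.g (nat_lit 5) .nil .nil))) 
(.lf (nat_lit 246867) (.g (nat_lit 1854) (.e (nat_lit 131127) (nat_lit 13) (.e (nat_lit 393260) (nat_lit 21) (.e (nat_lit 409648) (nat_lit 18) (.e (nat_lit 303120) (nat_lit 4) .nil)))) .nil))) (.nd (nat_lit 6) 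
(.lf (nat_lit 246835) (.g (nat_lit 2464) (.e (nat_lit 131127) (nat_lit 13) (.e (nat_lit 393260) (nat_lit 21) (.e (nat_lit 409646) (nat_lit 18) (.e (nat_lit 303115) (nat_lit 1) (.e (nat_lit 164162) (nat_lit 152) (.e (nat_lit 1294) (nat_lit 96) .nil)))))) (.g (nat_lit 5) .nil .nil))) 
(.lf (nat_lit 246899) (.g (nat_lit 1050) (.e (nat_lit 131127) (nat_lit 13) (.e (nat_lit 393267) (nat_lit 23) (.e (nat_lit 426448) (nat_lit 20) (.e (nat_lit 114712) (nat_lit 21) .nil)))) .nil))))) (.nd (nat_lit 4) (.nd (nat_lit 5) (.nd (nat_lit 6) 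
(.lf (nat_lit 246795) (.g (nat_lit 1867) (.e (nat_lit 131127) (nat_lit 13) (.e (nat_lit 393260) (nat_lit 21) (.e (nat_lit 409644) (nat_lit 18) (.e (nat_lit 303115) (nat_lit 1) (.e (nat_lit 164151) (nat_lit 152) (.e (nat_lit 7936) (nat_lit 96) .nil)))))) (.g (nat_lit 4) .nil .nil))) 
(.lf (nat_lit 246859) (.g (nat_lit 1880) (.e (nat_lit 131127) (nat_lit 13) (.e (nat_lit 393260) (nat_lit 21) (.e (nat_lit 409648) (nat_lit 18) (.e (nat_lit 303115) (nat_lit 1) (.e (nat_lit 164150) (nat_lit 152) (.e (nat_lit 1293) (nat_lit 96) .nil)))))) (.g (nat_lit 4) .nil .nil)))) (.nd (nat_lit 6) 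
(.lf (nat_lit 246827) (.g (nat_lit 2370) (.e (nat_lit 131127) (nat_lit 13) (.e (nat_lit 393260) (nat_lit 21) (.e (nat_lit 409646) (nat_lit 18) (.e (nat_lit 303115) (nat_lit 1) (.e (nat_lit 164151) (nat_lit 152) (.e (nat_lit 1293) (nat_lit 96) .nil)))))) (.g (nat_lit 5) .nil .nil))) 
(.lf (nat_lit 246891) (.g (nat_lit 1582) (.e (nat_lit 131127) (nat_lit 13) (.e (nat_lit 393260) (nat_lit 21) (.e (nat_lit 409649) (nat_lit 18) (.e (nat_lit 303115) (nat_lit 1) (.e (nat_lit 164158) (nat_lit 152) .nil))))) .nil)))) (.nd (nat_lit 5) (.nd (nat_lit 6) 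
(.lf (nat_lit 246811) (.g (nat_lit 2301) (.e (nat_lit 131127) (nat_lit 13) (.e (nat_lit 393260) (nat_lit 21) (.e (nat_lit 409645) (nat_lit 18) (.e (nat_lit 303115) (nat_lit 1) (.e (nat_lit 164155) (nat_lit 152) (.e (nat_lit 1294) (nat_lit 96) .nil)))))) (.g (nat_lit 4) .nil .nil))) 
(.lf (nat_lit 246875) (.g (nat_lit 3076) (.e (nat_lit 131127) (nat_lit 13) (.e (nat_lit 393260) (nat_lit 21) (.e (nat_lit 409649) (nat_lit 18) (.e (nat_lit 303111) (nat_lit 0) (.e (nat_lit 3468) (nat_lit 217) (.e (nat_lit 696365) (nat_lit 20) .nil)))))) (.g (nat_lit 6) .nil .nil)))) (.nd (nat_lit 6) 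
(.lf (nat_lit 246843) (.g (nat_lit 2600) (.e (nat_lit 131127) (nat_lit 13) (.e (nat_lit 393260) (nat_lit 21) (.e (nat_lit 409647) (nat_lit 18) (.e (nat_lit 303115) (nat_lit 1) (.e (nat_lit 164159) (nat_lit 152) (.e (nat_lit 1296) (nat_lit 96) .nil)))))) (.g (nat_lit 0) .nil .nil))) 
(.lf (nat_lit 246907) (.g (nat_lit 2122) (.e (nat_lit 131127) (nat_lit 13) (.e (nat_lit 393271) (nat_lit 23) (.e (nat_lit 426448) (nat_lit 20) (.e (nat_lit 114710) (nat_lit 21) .nil)))) .nil)))))) (.nd (nat_lit 3) (.nd (nat_lit 4) (.nd (nat_lit 5) (.nd (nat_lit 6) 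
(.lf (nat_lit 246791) (.g (nat_lit 845) (.e (nat_lit 131127) (nat_lit 13) (.e (nat_lit 393260) (nat_lit 21) (.e (nat_lit 409644) (nat_lit 18) (.e (nat_lit 303115) (nat_lit 1) .nil)))) .nil)) 
(.lf (nat_lit 246855) (.g (nat_lit 1893) (.e (nat_lit 131127) (nat_lit 13) (.e (nat_lit 393260) (nat_lit 21) (.e (nat_lit 409648) (nat_lit 18) (.e (nat_lit 303114) (nat_lit 1) (.e (nat_lit 164161) (nat_lit 152) (.e (nat_lit 7936) (nat_lit 96) .nil)))))) (.g (nat_lit 5) .nil .nil)))) (.nd (nat_lit 6) 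
(.lf (nat_lit 246823) (.g (nat_lit 2343) (.e (nat_lit 131127) (nat_lit 13) (.e (nat_lit 393260) (nat_lit 21) (.e (nat_lit 409646) (nat_lit 18) (.e (nat_lit 303115) (nat_lit 1) (.e (nat_lit 164148) (nat_lit 152) (.e (nat_lit 1295) (nat_lit 96) .nil)))))) (.g (nat_lit 6) .nil .nil))) 
(.lf (nat_lit 246887) (.g (nat_lit 2319) (.e (nat_lit 131127) (nat_lit 13) (.e (nat_lit 393260) (nat_lit 21) (.e (nat_lit 409649) (nat_lit 18) (.e (nat_lit 303115) (nat_lit 1) (.e (nat_lit 164151) (nat_lit 152) (.e (nat_lit 1293) (nat_lit 96) .nil)))))) (.g (nat_lit 5) .nil .nil))))) (.nd (nat_lit 5) (.nd (nat_lit 6) 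
(.lf (nat_lit 246807) (.g (nat_lit 1954) (.e (nat_lit 131127) (nat_lit 13) (.e (nat_lit 393260) (nat_lit 21) (.e (nat_lit 409645) (nat_lit 18) (.e (nat_lit 303115) (nat_lit 1) (.e (nat_lit 164150) (nat_lit 152) (.e (nat_lit 7936) (nat_lit 96) .nil)))))) (.g (nat_lit 4) .nil .nil))) 
(.lf (nat_lit 246871) (.g (nat_lit 2129) (.e (nat_lit 131127) (nat_lit 13) (.e (nat_lit 393260) (nat_lit 21) (.e (nat_lit 409649) (nat_lit 18) (.e (nat_lit 303111) (nat_lit 0) (.e (nat_lit 2438) (nat_lit 157) .nil))))) .nil))) (.nd (nat_lit 6) 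
(.lf (nat_lit 246839) (.g (nat_lit 1490) (.e (nat_lit 131127) (nat_lit 13) (.e (nat_lit 393260) (nat_lit 21) (.e (nat_lit 409647) (nat_lit 18) (.e (nat_lit 303115) (nat_lit 1) (.e (nat_lit 164148) (nat_lit 152) (.e (nat_lit 1295) (nat_lit 96) .nil)))))) (.g (nat_lit 4) .nil .nil))) 
(.lf (nat_lit 246903) (.g (nat_lit 2701) (.e (nat_lit 131127) (nat_lit 13) (.e (nat_lit 393271) (nat_lit 23) (.e (nat_lit 426354) (nat_lit 15) (.e (nat_lit 2203) (nat_lit 144) (.e (nat_lit 720934) (nat_lit 21) .nil))))) .nil))))) (.nd (nat_lit 4) (.nd (nat_lit 5) (.nd (nat_lit 6) 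
(.lf (nat_lit 246799) (.g (nat_lit 1964) (.e (nat_lit 131127) (nat_lit 13) (.e (nat_lit 393260) (nat_lit 21) (.e (nat_lit 409645) (nat_lit 18) (.e (nat_lit 303112) (nat_lit 0) (.e (nat_lit 2478) (nat_lit 157) .nil))))) .nil)) 
(.lf (nat_lit 246863) (.g (nat_lit 1994) (.e (nat_lit 131127) (nat_lit 13) (.e (nat_lit 393260) (nat_lit 21) (.e (nat_lit 409648) (nat_lit 18) (.e (nat_lit 303115) (nat_lit 1) (.e (nat_lit 164155) (nat_lit 152) (.e (nat_lit 1294) (nat_lit 96) .nil)))))) (.g (nat_lit 4) .nil .nil)))) (.nd (nat_lit 6) 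
(.lf (nat_lit 246831) (.g (nat_lit 1677) (.e (nat_lit 131127) (nat_lit 13) (.e (nat_lit 393260) (nat_lit 21) (.e (nat_lit 409646) (nat_lit 18) (.e (nat_lit 303115) (nat_lit 1) (.e (nat_lit 164158) (nat_lit 152) .nil))))) .nil)) 
(.lf (nat_lit 246895) (.g (nat_lit 372) (.e (nat_lit 131127) (nat_lit 13) (.e (nat_lit 393260) (nat_lit 21) (.e (nat_lit 417536) (nat_lit 18) .nil))) .nil)))) (.nd (nat_lit 5) (.nd (nat_lit 6) 
(.lf (nat_lit 246815) (.g (nat_lit 2818) (.e (nat_lit 131127) (nat_lit 13) (.e (nat_lit 393260) (nat_lit 21) (.e (nat_lit 409645) (nat_lit 18) (.e (nat_lit 303115) (nat_lit 1) (.e (nat_lit 164162) (nat_lit 152) (.e (nat_lit 1294) (nat_lit 96) .nil)))))) (.g (nat_lit 5) .nil .nil))) 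
(.lf (nat_lit 246879) (.g (nat_lit 1344) (.e (nat_lit 131127) (nat_lit 13) (.e (nat_lit 393260) (nat_lit 21) (.e (nat_lit 409649) (nat_lit 18) (.e (nat_lit 303112) (nat_lit 0) .nil)))) .nil))) (.nd (nat_lit 6) 
(.lf (nat_lit 246847) (.g (nat_lit 1972) (.e (nat_lit 131127) (nat_lit 13) (.e (nat_lit 393260) (nat_lit 21) (.e (nat_lit 409648) (nat_lit 18) (.e (nat_lit 303107) (nat_lit 0) (.e (nat_lit 3459) (nat_lit 216) (.e (nat_lit 696064) (nat_lit 20) .nil)))))) (.g (nat_lit 5) .nil .nil))) 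
(.lf (nat_lit 246911) (.g (nat_lit 2607) (.e (nat_lit 131127) (nat_lit 13) (.e (nat_lit 393291) (nat_lit 26) (.e (nat_lit 475214) (nat_lit 42) (.e (nat_lit 720932) (nat_lit 21) .nil)))) .nil)))))))))

noncomputable def tv3204 : DT := (.nd (nat_lit 0) (.nd (nat_lit 1) (.nd (nat_lit 2) (.nd (nat_lit 3) (.nd (nat_lit 4) (.nd (nat_lit 5) (.nd (nat_lit 6) 
(.lf (nat_lit 246912) (.g (nat_lit 1337) (.e (nat_lit 131127) (nat_lit 13) (.e (nat_lit 393294) (nat_lit 26) (.e (nat_lit 475213) (nat_lit 42) (.e (nat_lit 720931) (nat_lit 21) .nil)))) .nil)) 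
(.lf (nat_lit 246976) (.g (nat_lit 2875) (.e (nat_lit 131128) (nat_lit 13) (.e (nat_lit 393301) (nat_lit 27) (.e (nat_lit 491559) (nat_lit 10) (.e (nat_lit 344091) (nat_lit 18) (.e (nat_lit 7122) (nat_lit 382) .nil))))) .nil))) (.nd (nat_lit 6) 
(.lf (nat_lit 246944) (.g (nat_lit 1985) (.e (nat_lit 131128) (nat_lit 13) (.e (nat_lit 393299) (nat_lit 27) (.e (nat_lit 491560) (nat_lit 10) (.e (nat_lit 344091) (nat_lit 18) .nil)))) .nil)) 
(.lf (nat_lit 247008) (.g (nat_lit 3623) (.e (nat_lit 131129) (nat_lit 14) (.e (nat_lit 401459) (nat_lit 13) (.e (nat_lit 483372) (nat_lit 21) (.e (nat_lit 327424) (nat_lit 1) .nil)))) .nil)))) (.nd (nat_lit 5) (.nd (nat_lit 6) 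
(.lf (nat_lit 246928) (.g (nat_lit 1223) (.e (nat_lit 131128) (nat_lit 13) (.e (nat_lit 393234) (nat_lit 17) (.e (nat_lit 7591) (nat_lit 407) (.e (nat_lit 73731) (nat_lit 0) .nil)))) .nil)) 
(.lf (nat_lit 246992) (.g (nat_lit 2672) (.e (nat_lit 131128) (nat_lit 13) (.e (nat_lit 393301) (nat_lit 27) (.e (nat_lit 491560) (nat_lit 10) (.e (nat_lit 344095) (nat_lit 18) .nil)))) .nil))) (.nd (nat_lit 6) 
(.lf (nat_lit 246960) (.g (nat_lit 3247) (.e (nat_lit 131128) (nat_lit 13) (.e (nat_lit 393301) (nat_lit 27) (.e (nat_lit 491558) (nat_lit 10) (.e (nat_lit 344090) (nat_lit 18) (.e (nat_lit 7125) (nat_lit 382) (.e (nat_lit 1296) (nat_lit 96) .nil)))))) (.g (nat_lit 6) .nil .nil))) 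
(.lf (nat_lit 247024) (.g (nat_lit 1278) (.e (nat_lit 131133) (nat_lit 15) (.e (nat_lit 3632) (nat_lit 227) (.e (nat_lit 778323) (nat_lit 5) (.e (nat_lit 73781) (nat_lit 32) .nil)))) .nil))))) (.nd (nat_lit 4) (.nd (nat_lit 5) (.nd (nat_lit 6) 
(.lf (nat_lit 246920) (.g (nat_lit 2286) (.e (nat_lit 131127) (nat_lit 13) (.e (nat_lit 393299) (nat_lit 27) (.e (nat_lit 491560) (nat_lit 10) (.e (nat_lit 344177) (nat_lit 43) .nil)))) .nil)) 
(.lf (nat_lit 246984) (.g (nat_lit 1812) (.e (nat_lit 131128) (nat_lit 13) (.e (nat_lit 393301) (nat_lit 27) (.e (nat_lit 491560) (nat_lit 10) (.e (nat_lit 344090) (nat_lit 18) .nil)))) .nil))) (.nd (nat_lit 6) 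
(.lf (nat_lit 246952) (.g (nat_lit 2097) (.e (nat_lit 131128) (nat_lit 13) (.e (nat_lit 393300) (nat_lit 27) (.e (nat_lit 491558) (nat_lit 10) (.e (nat_lit 344176) (nat_lit 43) (.e (nat_lit 770076) (nat_lit 12) .nil))))) (.g (nat_lit 4) .nil .nil))) 
(.lf (nat_lit 247016) (.g (nat_lit 2787) (.e (nat_lit 131133) (nat_lit 15) (.e (nat_lit 3305) (nat_lit 202) (.e (nat_lit 573479) (nat_lit 13) (.e (nat_lit 65619) (nat_lit 10) (.e (nat_lit 344117) (nat_lit 21) (.e (nat_lit 516106) (nat_lit 0) (.e (nat_lit 7936) (nat_lit 409) .nil))))))) (.g (nat_lit 6) .nil .nil))))) (.nd (nat_lit 5) (.nd (nat_lit 6) 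
(.lf (nat_lit 246936) (.g (nat_lit 1461) (.e (nat_lit 131128) (nat_lit 13) (.e (nat_lit 393293) (nat_lit 26) (.e (nat_lit 475214) (nat_lit 42) (.e (nat_lit 720934) (nat_lit 21) (.e (nat_lit 57830) (nat_lit 250) .nil))))) .nil)) 
(.lf (nat_lit 247000) (.g (nat_lit 3936) (.e (nat_lit 131128) (nat_lit 13) (.e (nat_lit 393301) (nat_lit 27) (.e (nat_lit 491560) (nat_lit 10) (.e (nat_lit 344176) (nat_lit 43) (.e (nat_lit 770076) (nat_lit 12) .nil))))) (.g (nat_lit 0) .nil .nil)))) (.nd (nat_lit 6) 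
(.lf (nat_lit 246968) (.g (nat_lit 2207) (.e (nat_lit 131128) (nat_lit 13) (.e (nat_lit 393301) (nat_lit 27) (.e (nat_lit 491558) (nat_lit 10) (.e (nat_lit 344096) (nat_lit 18) (.e (nat_lit 7122) (nat_lit 382) .nil))))) .nil)) 
(.lf (nat_lit 247032) (.g (nat_lit 1123) (.e (nat_lit 139008) (nat_lit 26) (.e (nat_lit 417811) (nat_lit 6) (.e (nat_lit 286749) (nat_lit 9) (.e (nat_lit 336358) (nat_lit 25) .nil)))) .nil)))))) (.nd (nat_lit 3) (.nd (nat_lit 4) (.nd (nat_lit 5) (.nd (nat_lit 6) 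
(.lf (nat_lit 246916) (.g (nat_lit 2322) (.e (nat_lit 131127) (nat_lit 13) (.e (nat_lit 393294) (nat_lit 26) (.e (nat_lit 475214) (nat_lit 42) (.e (nat_lit 720934) (nat_lit 21) .nil)))) .nil)) 
(.lf (nat_lit 246980) (.g (nat_lit 4025) (.e (nat_lit 131128) (nat_lit 13) (.e (nat_lit 393301) (nat_lit 27) (.e (nat_lit 491559) (nat_lit 10) (.e (nat_lit 344177) (nat_lit 43) (.e (nat_lit 770076) (nat_lit 12) .nil))))) (.g (nat_lit 0) .nil .nil)))) (.nd (nat_lit 6) 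
(.lf (nat_lit 246948) (.g (nat_lit 1214) (.e (nat_lit 131128) (nat_lit 13) (.e (nat_lit 393300) (nat_lit 27) (.e (nat_lit 491558) (nat_lit 10) (.e (nat_lit 344095) (nat_lit 18) .nil)))) .nil)) 
(.lf (nat_lit 247012) (.g (nat_lit 815) (.e (nat_lit 131129) (nat_lit 14) (.e (nat_lit 401459) (nat_lit 13) (.e (nat_lit 483395) (nat_lit 24) .nil))) .nil)))) (.nd (nat_lit 5) (.nd (nat_lit 6) 
(.lf (nat_lit 246932) (.g (nat_lit 1192) (.e (nat_lit 131128) (nat_lit 13) (.e (nat_lit 393234) (nat_lit 17) (.e (nat_lit 7593) (nat_lit 407) (.e (nat_lit 73773) (nat_lit 25) .nil)))) .nil)) 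
(.lf (nat_lit 246996) (.g (nat_lit 2369) (.e (nat_lit 131128) (nat_lit 13) (.e (nat_lit 393301) (nat_lit 27) (.e (nat_lit 491560) (nat_lit 10) (.e (nat_lit 344097) (nat_lit 18) .nil)))) .nil))) (.nd (nat_lit 6) 
(.lf (nat_lit 246964) (.g (nat_lit 1655) (.e (nat_lit 131128) (nat_lit 13) (.e (nat_lit 393301) (nat_lit 27) (.e (nat_lit 491558) (nat_lit 10) (.e (nat_lit 344095) (nat_lit 18) .nil)))) .nil)) 
(.lf (nat_lit 247028) (.g (nat_lit 1171) (.e (nat_lit 139008) (nat_lit 15) (.e (nat_lit 6989) (nat_lit 377) (.e (nat_lit 1370) (nat_lit 103) (.e (nat_lit 294960) (nat_lit 13) .nil)))) .nil))))) (.nd (nat_lit 4) (.nd (nat_lit 5) (.nd (nat_lit 6) 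
(.lf (nat_lit 246924) (.g (nat_lit 623) (.e (nat_lit 131128) (nat_lit 13) (.e (nat_lit 393234) (nat_lit 17) (.e (nat_lit 7495) (nat_lit 402) .nil))) .nil)) 
(.lf (nat_lit 246988) (.g (nat_lit 2666) (.e (nat_lit 131128) (nat_lit 13) (.e (nat_lit 393301) (nat_lit 27) (.e (nat_lit 491560) (nat_lit 10) (.e (nat_lit 344093) (nat_lit 18) .nil)))) .nil))) (.nd (nat_lit 6) 
(.lf (nat_lit 246956) (.g (nat_lit 1051) (.e (nat_lit 131128) (nat_lit 13) (.e (nat_lit 393300) (nat_lit 27) (.e (nat_lit 491560) (nat_lit 10) (.e (nat_lit 344175) (nat_lit 43) .nil)))) .nil)) 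
(.lf (nat_lit 247020) (.g (nat_lit 616) (.e (nat_lit 131133) (nat_lit 15) (.e (nat_lit 3631) (nat_lit 227) (.e (nat_lit 778323) (nat_lit 5) .nil))) .nil)))) (.nd (nat_lit 5) (.nd (nat_lit 6) 
(.lf (nat_lit 246940) (.g (nat_lit 2037) (.e (nat_lit 131128) (nat_lit 13) (.e (nat_lit 393298) (nat_lit 27) (.e (nat_lit 491566) (nat_lit 12) (.e (nat_lit 385043) (nat_lit 21) .nil)))) .nil)) 
(.lf (nat_lit 247004) (.g (nat_lit 966) (.e (nat_lit 131129) (nat_lit 14) (.e (nat_lit 401456) (nat_lit 13) (.e (nat_lit 483378) (nat_lit 23) .nil))) .nil))) (.nd (nat_lit 6) 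
(.lf (nat_lit 246972) (.g (nat_lit 2067) (.e (nat_lit 131128) (nat_lit 13) (.e (nat_lit 393301) (nat_lit 27) (.e (nat_lit 491558) (nat_lit 10) (.e (nat_lit 344175) (nat_lit 43) .nil)))) .nil)) 
(.lf (nat_lit 247036) (.g (nat_lit 1697) (.e (nat_lit 131137) (nat_lit 27) (.e (nat_lit 426347) (nat_lit 14) (.e (nat_lit 491550) (nat_lit 9) (.e (nat_lit 336421) (nat_lit 28) (.e (nat_lit 442112) (nat_lit 7) .nil))))) .nil))))))) (.nd (nat_lit 2) (.nd (nat_lit 3) (.nd (nat_lit 4) (.nd (nat_lit 5) (.nd (nat_lit 6) 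
(.lf (nat_lit 246914) (.g (nat_lit 2259) (.e (nat_lit 131127) (nat_lit 13) (.e (nat_lit 393294) (nat_lit 26) (.e (nat_lit 475214) (nat_lit 42) (.e (nat_lit 720931) (nat_lit 21) .nil)))) .nil)) 
(.lf (nat_lit 246978) (.g (nat_lit 2262) (.e (nat_lit 131128) (nat_lit 13) (.e (nat_lit 393301) (nat_lit 27) (.e (nat_lit 491559) (nat_lit 10) (.e (nat_lit 344095) (nat_lit 18) .nil)))) .nil))) (.nd (nat_lit 6) 
(.lf (nat_lit 246946) (.g (nat_lit 2438) (.e (nat_lit 131128) (nat_lit 13) (.e (nat_lit 393299) (nat_lit 27) (.e (nat_lit 491560) (nat_lit 10) (.e (nat_lit 344176) (nat_lit 43) .nil)))) .nil)) 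
(.lf (nat_lit 247010) (.g (nat_lit 1701) (.e (nat_lit 131129) (nat_lit 14) (.e (nat_lit 401459) (nat_lit 13) (.e (nat_lit 483378) (nat_lit 23) (.e (nat_lit 336032) (nat_lit 4) .nil)))) .nil)))) (.nd (nat_lit 5) (.nd (nat_lit 6) 
(.lf (nat_lit 246930) (.g (nat_lit 1161) (.e (nat_lit 131128) (nat_lit 13) (.e (nat_lit 393234) (nat_lit 17) (.e (nat_lit 7593) (nat_lit 407) (.e (nat_lit 73729) (nat_lit 0) .nil)))) .nil)) 
(.lf (nat_lit 246994) (.g (nat_lit 2968) (.e (nat_lit 131128) (nat_lit 13) (.e (nat_lit 393301) (nat_lit 27) (.e (nat_lit 491560) (nat_lit 10) (.e (nat_lit 344096) (nat_lit 18) (.e (nat_lit 7122) (nat_lit 382) (.e (nat_lit 1296) (nat_lit 96) .nil)))))) (.g (nat_lit 4) .nil .nil)))) (.nd (nat_lit 6) 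
(.lf (nat_lit 246962) (.g (nat_lit 1453) (.e (nat_lit 131128) (nat_lit 13) (.e (nat_lit 393301) (nat_lit 27) (.e (nat_lit 491558) (nat_lit 10) (.e (nat_lit 344091) (nat_lit 18) .nil)))) .nil)) 
(.lf (nat_lit 247026) (.g (nat_lit 2636) (.e (nat_lit 131133) (nat_lit 15) (.e (nat_lit 7936) (nat_lit 392) (.e (nat_lit 172133) (nat_lit 15) (.e (nat_lit 2059) (nat_lit 142) (.e (nat_lit 704595) (nat_lit 5) (.e (nat_lit 188160) (nat_lit 39) .nil)))))) (.g (nat_lit 5) .nil .nil)))))) (.nd (nat_lit 4) (.nd (nat_lit 5) (.nd (nat_lit 6) 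
(.lf (nat_lit 246922) (.g (nat_lit 3006) (.e (nat_lit 131128) (nat_lit 13) (.e (nat_lit 393229) (nat_lit 9) (.e (nat_lit 335988) (nat_lit 1) (.e (nat_lit 57926) (nat_lit 282) (.e (nat_lit 163868) (nat_lit 2) (.e (nat_lit 196681) (nat_lit 17) .nil)))))) (.g (nat_lit 5) .nil .nil))) 
(.lf (nat_lit 246986) (.g (nat_lit 2524) (.e (nat_lit 131128) (nat_lit 13) (.e (nat_lit 393301) (nat_lit 27) (.e (nat_lit 491560) (nat_lit 10) (.e (nat_lit 344090) (nat_lit 18) (.e (nat_lit 7130) (nat_lit 382) (.e (nat_lit 1294) (nat_lit 96) .nil)))))) (.g (nat_lit 4) .nil .nil)))) (.nd (nat_lit 6) 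
(.lf (nat_lit 246954) (.g (nat_lit 1397) (.e (nat_lit 131128) (nat_lit 13) (.e (nat_lit 393300) (nat_lit 27) (.e (nat_lit 491560) (nat_lit 10) (.e (nat_lit 344089) (nat_lit 18) .nil)))) .nil)) 
(.lf (nat_lit 247018) (.g (nat_lit 1842) (.e (nat_lit 131133) (nat_lit 15) (.e (nat_lit 3631) (nat_lit 227) (.e (nat_lit 778317) (nat_lit 3) (.e (nat_lit 57476) (nat_lit 28) (.e (nat_lit 557108) (nat_lit 15) .nil))))) .nil)))) (.nd (nat_lit 5) (.nd (nat_lit 6) 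
(.lf (nat_lit 246938) (.g (nat_lit 1777) (.e (nat_lit 131128) (nat_lit 13) (.e (nat_lit 393298) (nat_lit 27) (.e (nat_lit 491560) (nat_lit 10) (.e (nat_lit 344090) (nat_lit 18) .nil)))) .nil)) 
(.lf (nat_lit 247002) (.g (nat_lit 2852) (.e (nat_lit 131128) (nat_lit 13) (.e (nat_lit 393301) (nat_lit 27) (.e (nat_lit 491563) (nat_lit 12) (.e (nat_lit 385077) (nat_lit 34) .nil)))) .nil))) (.nd (nat_lit 6) 
(.lf (nat_lit 246970) (.g (nat_lit 2304) (.e (nat_lit 131128) (nat_lit 13) (.e (nat_lit 393301) (nat_lit 27) (.e (nat_lit 491558) (nat_lit 10) (.e (nat_lit 344096) (nat_lit 18) (.e (nat_lit 7122) (nat_lit 382) (.e (nat_lit 1298) (nat_lit 96) .nil)))))) (.g (nat_lit 4) .nil .nil))) 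
(.lf (nat_lit 247034) (.g (nat_lit 2317) (.e (nat_lit 131136) (nat_lit 27) (.e (nat_lit 426343) (nat_lit 14) (.e (nat_lit 491570) (nat_lit 13) (.e (nat_lit 393238) (nat_lit 17) (.e (nat_lit 7600) (nat_lit 409) .nil))))) .nil)))))) (.nd (nat_lit 3) (.nd (nat_lit 4) (.nd (nat_lit 5) (.nd (nat_lit 6) 
(.lf (nat_lit 246918) (.g (nat_lit 2450) (.e (nat_lit 131127) (nat_lit 13) (.e (nat_lit 393297) (nat_lit 27) (.e (nat_lit 491566) (nat_lit 12) (.e (nat_lit 385077) (nat_lit 34) (.e (nat_lit 598043) (nat_lit 12) .nil))))) (.g (nat_lit 0) .nil .nil))) 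
(.lf (nat_lit 246982) (.g (nat_lit 2563) (.e (nat_lit 131128) (nat_lit 13) (.e (nat_lit 393301) (nat_lit 27) (.e (nat_lit 491560) (nat_lit 10) (.e (nat_lit 344088) (nat_lit 18) .nil)))) .nil))) (.nd (nat_lit 6) 
(.lf (nat_lit 246950) (.g (nat_lit 1094) (.e (nat_lit 131128) (nat_lit 13) (.e (nat_lit 393300) (nat_lit 27) (.e (nat_lit 491558) (nat_lit 10) (.e (nat_lit 344096) (nat_lit 18) .nil)))) .nil)) 
(.lf (nat_lit 247014) (.g (nat_lit 1851) (.e (nat_lit 131132) (nat_lit 15) (.e (nat_lit 3304) (nat_lit 202) (.e (nat_lit 573485) (nat_lit 13) (.e (nat_lit 65604) (nat_lit 9) (.e (nat_lit 336013) (nat_lit 2) .nil))))) .nil)))) (.nd (nat_lit 5) (.nd (nat_lit 6) 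
(.lf (nat_lit 246934) (.g (nat_lit 1483) (.e (nat_lit 131128) (nat_lit 13) (.e (nat_lit 393265) (nat_lit 22) (.e (nat_lit 417820) (nat_lit 10) (.e (nat_lit 5761) (nat_lit 315) (.e (nat_lit 163850) (nat_lit 0) (.e (nat_lit 6270) (nat_lit 337) (.e (nat_lit 1298) (nat_lit 96) .nil))))))) (.g (nat_lit 5) .nil .nil))) 
(.lf (nat_lit 246998) (.g (nat_lit 2273) (.e (nat_lit 131128) (nat_lit 13) (.e (nat_lit 393301) (nat_lit 27) (.e (nat_lit 491560) (nat_lit 10) (.e (nat_lit 352000) (nat_lit 18) .nil)))) .nil))) (.nd (nat_lit 6) 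
(.lf (nat_lit 246966) (.g (nat_lit 3003) (.e (nat_lit 131128) (nat_lit 13) (.e (nat_lit 393301) (nat_lit 27) (.e (nat_lit 491558) (nat_lit 10) (.e (nat_lit 344095) (nat_lit 18) (.e (nat_lit 7122) (nat_lit 382) (.e (nat_lit 1296) (nat_lit 96) .nil)))))) (.g (nat_lit 5) .nil .nil))) 
(.lf (nat_lit 247030) (.g (nat_lit 793) (.e (nat_lit 139008) (nat_lit 25) (.e (nat_lit 409603) (nat_lit 0) (.e (nat_lit 5293) (nat_lit 298) (.e (nat_lit 1423) (nat_lit 108) .nil)))) .nil))))) (.nd (nat_lit 4) (.nd (nat_lit 5) (.nd (nat_lit 6) 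
(.lf (nat_lit 246926) (.g (nat_lit 3101) (.e (nat_lit 131128) (nat_lit 13) (.e (nat_lit 393234) (nat_lit 17) (.e (nat_lit 7591) (nat_lit 407) (.e (nat_lit 73729) (nat_lit 0) (.e (nat_lit 7125) (nat_lit 382) (.e (nat_lit 1296) (nat_lit 96) .nil)))))) (.g (nat_lit 6) .nil .nil))) 
(.lf (nat_lit 246990) (.g (nat_lit 2050) (.e (nat_lit 131128) (nat_lit 13) (.e (nat_lit 393301) (nat_lit 27) (.e (nat_lit 491560) (nat_lit 10) (.e (nat_lit 344094) (nat_lit 18) (.e (nat_lit 7122) (nat_lit 382) .nil))))) .nil))) (.nd (nat_lit 6) 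
(.lf (nat_lit 246958) (.g (nat_lit 2042) (.e (nat_lit 131128) (nat_lit 13) (.e (nat_lit 393301) (nat_lit 27) (.e (nat_lit 491558) (nat_lit 10) (.e (nat_lit 344088) (nat_lit 18) .nil)))) .nil)) 
(.lf (nat_lit 247022) (.g (nat_lit 2058) (.e (nat_lit 131133) (nat_lit 15) (.e (nat_lit 3632) (nat_lit 227) (.e (nat_lit 778317) (nat_lit 3) (.e (nat_lit 57480) (nat_lit 28) (.e (nat_lit 557107) (nat_lit 15) .nil))))) .nil)))) (.nd (nat_lit 5) (.nd (nat_lit 6) 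
(.lf (nat_lit 246942) (.g (nat_lit 868) (.e (nat_lit 131128) (nat_lit 13) (.e (nat_lit 393299) (nat_lit 27) (.e (nat_lit 491560) (nat_lit 10) .nil))) .nil)) 
(.lf (nat_lit 247006) (.g (nat_lit 1213) (.e (nat_lit 131129) (nat_lit 14) (.e (nat_lit 401459) (nat_lit 13) (.e (nat_lit 483350) (nat_lit 17) .nil))) .nil))) (.nd (nat_lit 6) 
(.lf (nat_lit 246974) (.g (nat_lit 2255) (.e (nat_lit 131128) (nat_lit 13) (.e (nat_lit 393301) (nat_lit 27) (.e (nat_lit 491559) (nat_lit 10) (.e (nat_lit 344090) (nat_lit 18) .nil)))) .nil)) 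
(.lf (nat_lit 247038) (.g (nat_lit 1631) (.e (nat_lit 131138) (nat_lit 27) (.e (nat_lit 426163) (nat_lit 6) (.e (nat_lit 253962) (nat_lit 9) (.e (nat_lit 1277) (nat_lit 94) .nil)))) .nil)))))))) (.nd (nat_lit 1) (.nd (nat_lit 2) (.nd (nat_lit 3) (.nd (nat_lit 4) (.nd (nat_lit 5) (.nd (nat_lit 6) 
(.lf (nat_lit 246913) (.g (nat_lit 2261) (.e (nat_lit 131127) (nat_lit 13) (.e (nat_lit 393294) (nat_lit 26) (.e (nat_lit 475214) (nat_lit 42) (.e (nat_lit 720930) (nat_lit 21) .nil)))) .nil)) 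
(.lf (nat_lit 246977) (.g (nat_lit 2215) (.e (nat_lit 131128) (nat_lit 13) (.e (nat_lit 393301) (nat_lit 27) (.e (nat_lit 491559) (nat_lit 10) (.e (nat_lit 344094) (nat_lit 18) .nil)))) .nil))) (.nd (nat_lit 6) 
(.lf (nat_lit 246945) (.g (nat_lit 2107) (.e (nat_lit 131128) (nat_lit 13) (.e (nat_lit 393299) (nat_lit 27) (.e (nat_lit 491560) (nat_lit 10) (.e (nat_lit 344096) (nat_lit 18) .nil)))) .nil)) 
(.lf (nat_lit 247009) (.g (nat_lit 4793) (.e (nat_lit 131129) (nat_lit 14) (.e (nat_lit 401459) (nat_lit 13) (.e (nat_lit 483372) (nat_lit 21) (.e (nat_lit 319516) (nat_lit 11) .nil)))) .nil)))) (.nd (nat_lit 5) (.nd (nat_lit 6) 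
(.lf (nat_lit 246929) (.g (nat_lit 1254) (.e (nat_lit 131128) (nat_lit 13) (.e (nat_lit 393234) (nat_lit 17) (.e (nat_lit 7591) (nat_lit 407) (.e (nat_lit 73773) (nat_lit 25) .nil)))) .nil)) 
(.lf (nat_lit 246993) (.g (nat_lit 2072) (.e (nat_lit 131128) (nat_lit 13) (.e (nat_lit 393301) (nat_lit 27) (.e (nat_lit 491560) (nat_lit 10) (.e (nat_lit 344096) (nat_lit 18) .nil)))) .nil))) (.nd (nat_lit 6) 
(.lf (nat_lit 246961) (.g (nat_lit 2020) (.e (nat_lit 131128) (nat_lit 13) (.e (nat_lit 393301) (nat_lit 27) (.e (nat_lit 491558) (nat_lit 10) (.e (nat_lit 344090) (nat_lit 18) (.e (nat_lit 7130) (nat_lit 382) .nil))))) .nil)) 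
(.lf (nat_lit 247025) (.g (nat_lit 1291) (.e (nat_lit 131133) (nat_lit 15) (.e (nat_lit 3632) (nat_lit 227) (.e (nat_lit 778323) (nat_lit 5) (.e (nat_lit 73782) (nat_lit 32) .nil)))) .nil))))) (.nd (nat_lit 4) (.nd (nat_lit 5) (.nd (nat_lit 6) 
(.lf (nat_lit 246921) (.g (nat_lit 583) (.e (nat_lit 131128) (nat_lit 13) (.e (nat_lit 393225) (nat_lit 9) (.e (nat_lit 335994) (nat_lit 1) .nil))) .nil)) 
(.lf (nat_lit 246985) (.g (nat_lit 2351) (.e (nat_lit 131128) (nat_lit 13) (.e (nat_lit 393301) (nat_lit 27) (.e (nat_lit 491560) (nat_lit 10) (.e (nat_lit 344090) (nat_lit 18) (.e (nat_lit 7122) (nat_lit 382) .nil))))) .nil))) (.nd (nat_lit 6) 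
(.lf (nat_lit 246953) (.g (nat_lit 1495) (.e (nat_lit 131128) (nat_lit 13) (.e (nat_lit 393300) (nat_lit 27) (.e (nat_lit 491560) (nat_lit 10) (.e (nat_lit 344087) (nat_lit 18) .nil)))) .nil)) 
(.lf (nat_lit 247017) (.g (nat_lit 595) (.e (nat_lit 131133) (nat_lit 15) (.e (nat_lit 3631) (nat_lit 227) (.e (nat_lit 778317) (nat_lit 3) .nil))) .nil)))) (.nd (nat_lit 5) (.nd (nat_lit 6) 
(.lf (nat_lit 246937) (.g (nat_lit 966) (.e (nat_lit 131128) (nat_lit 13) (.e (nat_lit 393298) (nat_lit 27) (.e (nat_lit 491558) (nat_lit 10) .nil))) .nil)) 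
(.lf (nat_lit 247001) (.g (nat_lit 3061) (.e (nat_lit 131128) (nat_lit 13) (.e (nat_lit 393301) (nat_lit 27) (.e (nat_lit 491560) (nat_lit 10) (.e (nat_lit 344177) (nat_lit 43) (.e (nat_lit 770076) (nat_lit 12) .nil))))) (.g (nat_lit 4) .nil .nil)))) (.nd (nat_lit 6) 
(.lf (nat_lit 246969) (.g (nat_lit 3307) (.e (nat_lit 131128) (nat_lit 13) (.e (nat_lit 393301) (nat_lit 27) (.e (nat_lit 491558) (nat_lit 10) (.e (nat_lit 344096) (nat_lit 18) (.e (nat_lit 7122) (nat_lit 382) (.e (nat_lit 1296) (nat_lit 96) .nil)))))) (.g (nat_lit 5) .nil .nil))) 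
(.lf (nat_lit 247033) (.g (nat_lit 1686) (.e (nat_lit 131136) (nat_lit 27) (.e (nat_lit 426306) (nat_lit 12) (.e (nat_lit 475211) (nat_lit 41) (.e (nat_lit 712749) (nat_lit 28) .nil)))) .nil)))))) (.nd (nat_lit 3) (.nd (nat_lit 4) (.nd (nat_lit 5) (.nd (nat_lit 6) 
(.lf (nat_lit 246917) (.g (nat_lit 1735) (.e (nat_lit 131127) (nat_lit 13) (.e (nat_lit 393297) (nat_lit 27) (.e (nat_lit 491560) (nat_lit 10) (.e (nat_lit 344177) (nat_lit 43) .nil)))) .nil)) 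
(.lf (nat_lit 246981) (.g (nat_lit 2362) (.e (nat_lit 131128) (nat_lit 13) (.e (nat_lit 393301) (nat_lit 27) (.e (nat_lit 491560) (nat_lit 10) (.e (nat_lit 344087) (nat_lit 18) .nil)))) .nil))) (.nd (nat_lit 6) 
(.lf (nat_lit 246949) (.g (nat_lit 1535) (.e (nat_lit 131128) (nat_lit 13) (.e (nat_lit 393300) (nat_lit 27) (.e (nat_lit 491558) (nat_lit 10) (.e (nat_lit 344095) (nat_lit 18) (.e (nat_lit 7125) (nat_lit 382) .nil))))) .nil)) 
(.lf (nat_lit 247013) (.g (nat_lit 947) (.e (nat_lit 131129) (nat_lit 14) (.e (nat_lit 401459) (nat_lit 13) (.e (nat_lit 483403) (nat_lit 26) .nil))) .nil)))) (.nd (nat_lit 5) (.nd (nat_lit 6) 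
(.lf (nat_lit 246933) (.g (nat_lit 1748) (.e (nat_lit 131128) (nat_lit 13) (.e (nat_lit 393260) (nat_lit 21) (.e (nat_lit 409649) (nat_lit 18) (.e (nat_lit 303115) (nat_lit 1) .nil)))) .nil)) 
(.lf (nat_lit 246997) (.g (nat_lit 3228) (.e (nat_lit 131128) (nat_lit 13) (.e (nat_lit 393301) (nat_lit 27) (.e (nat_lit 491560) (nat_lit 10) (.e (nat_lit 344097) (nat_lit 18) (.e (nat_lit 7146) (nat_lit 382) .nil))))) .nil))) (.nd (nat_lit 6) 
(.lf (nat_lit 246965) (.g (nat_lit 1910) (.e (nat_lit 131128) (nat_lit 13) (.e (nat_lit 393301) (nat_lit 27) (.e (nat_lit 491558) (nat_lit 10) (.e (nat_lit 344095) (nat_lit 18) (.e (nat_lit 7122) (nat_lit 382) .nil))))) .nil)) 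
(.lf (nat_lit 247029) (.g (nat_lit 1067) (.e (nat_lit 139008) (nat_lit 25) (.e (nat_lit 409602) (nat_lit 0) (.e (nat_lit 5293) (nat_lit 298) (.e (nat_lit 1656) (nat_lit 115) .nil)))) .nil))))) (.nd (nat_lit 4) (.nd (nat_lit 5) (.nd (nat_lit 6) 
(.lf (nat_lit 246925) (.g (nat_lit 1343) (.e (nat_lit 131128) (nat_lit 13) (.e (nat_lit 393234) (nat_lit 17) (.e (nat_lit 7591) (nat_lit 407) (.e (nat_lit 73729) (nat_lit 0) .nil)))) .nil)) 
(.lf (nat_lit 246989) (.g (nat_lit 1718) (.e (nat_lit 131128) (nat_lit 13) (.e (nat_lit 393301) (nat_lit 27) (.e (nat_lit 491560) (nat_lit 10) (.e (nat_lit 344094) (nat_lit 18) .nil)))) .nil))) (.nd (nat_lit 6) 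
(.lf (nat_lit 246957) (.g (nat_lit 526) (.e (nat_lit 131128) (nat_lit 13) (.e (nat_lit 393301) (nat_lit 27) (.e (nat_lit 491558) (nat_lit 10) .nil))) .nil)) 
(.lf (nat_lit 247021) (.g (nat_lit 1554) (.e (nat_lit 131133) (nat_lit 15) (.e (nat_lit 3632) (nat_lit 227) (.e (nat_lit 778317) (nat_lit 3) (.e (nat_lit 57477) (nat_lit 28) .nil)))) .nil)))) (.nd (nat_lit 5) (.nd (nat_lit 6) 
(.lf (nat_lit 246941) (.g (nat_lit 2217) (.e (nat_lit 131128) (nat_lit 13) (.e (nat_lit 393298) (nat_lit 27) (.e (nat_lit 491566) (nat_lit 12) (.e (nat_lit 385077) (nat_lit 34) .nil)))) .nil)) 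
(.lf (nat_lit 247005) (.g (nat_lit 707) (.e (nat_lit 131129) (nat_lit 14) (.e (nat_lit 401458) (nat_lit 13) (.e (nat_lit 483395) (nat_lit 24) .nil))) .nil))) (.nd (nat_lit 6) 
(.lf (nat_lit 246973) (.g (nat_lit 2920) (.e (nat_lit 131128) (nat_lit 13) (.e (nat_lit 393301) (nat_lit 27) (.e (nat_lit 491558) (nat_lit 10) (.e (nat_lit 344176) (nat_lit 43) (.e (nat_lit 770076) (nat_lit 12) .nil))))) (.g (nat_lit 4) .nil .nil))) 
(.lf (nat_lit 247037) (.g (nat_lit 1713) (.e (nat_lit 131137) (nat_lit 27) (.e (nat_lit 433920) (nat_lit 30) (.e (nat_lit 360466) (nat_lit 3) (.e (nat_lit 516117) (nat_lit 1) (.e (nat_lit 164159) (nat_lit 152) (.e (nat_lit 1294) (nat_lit 96) .nil)))))) (.g (nat_lit 5) .nil .nil)))))))) (.nd (nat_lit 2) (.nd (nat_lit 3) (.nd (nat_lit 4) (.nd (nat_lit 5) (.nd (nat_lit 6) 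
(.lf (nat_lit 246915) (.g (nat_lit 1967) (.e (nat_lit 131127) (nat_lit 13) (.e (nat_lit 393294) (nat_lit 26) (.e (nat_lit 475214) (nat_lit 42) (.e (nat_lit 720932) (nat_lit 21) .nil)))) .nil)) 
(.lf (nat_lit 246979) (.g (nat_lit 2228) (.e (nat_lit 131128) (nat_lit 13) (.e (nat_lit 393301) (nat_lit 27) (.e (nat_lit 491559) (nat_lit 10) (.e (nat_lit 344175) (nat_lit 43) .nil)))) .nil))) (.nd (nat_lit 6) 
(.lf (nat_lit 246947) (.g (nat_lit 1056) (.e (nat_lit 131128) (nat_lit 13) (.e (nat_lit 393300) (nat_lit 27) (.e (nat_lit 491558) (nat_lit 10) (.e (nat_lit 344091) (nat_lit 18) .nil)))) .nil)) 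
(.lf (nat_lit 247011) (.g (nat_lit 1909) (.e (nat_lit 131129) (nat_lit 14) (.e (nat_lit 401459) (nat_lit 13) (.e (nat_lit 483386) (nat_lit 23) (.e (nat_lit 336030) (nat_lit 4) .nil)))) .nil)))) (.nd (nat_lit 5) (.nd (nat_lit 6) 
(.lf (nat_lit 246931) (.g (nat_lit 3023) (.e (nat_lit 131128) (nat_lit 13) (.e (nat_lit 393234) (nat_lit 17) (.e (nat_lit 7593) (nat_lit 407) (.e (nat_lit 73729) (nat_lit 0) (.e (nat_lit 7125) (nat_lit 382) (.e (nat_lit 1296) (nat_lit 96) .nil)))))) (.g (nat_lit 6) .nil .nil))) 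
(.lf (nat_lit 246995) (.g (nat_lit 3610) (.e (nat_lit 131128) (nat_lit 13) (.e (nat_lit 393301) (nat_lit 27) (.e (nat_lit 491560) (nat_lit 10) (.e (nat_lit 344096) (nat_lit 18) (.e (nat_lit 7124) (nat_lit 382) (.e (nat_lit 1296) (nat_lit 96) .nil)))))) (.g (nat_lit 5) .nil .nil)))) (.nd (nat_lit 6) 
(.lf (nat_lit 246963) (.g (nat_lit 2022) (.e (nat_lit 131128) (nat_lit 13) (.e (nat_lit 393301) (nat_lit 27) (.e (nat_lit 491558) (nat_lit 10) (.e (nat_lit 344093) (nat_lit 18) .nil)))) .nil)) 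
(.lf (nat_lit 247027) (.g (nat_lit 1735) (.e (nat_lit 139008) (nat_lit 15) (.e (nat_lit 3307) (nat_lit 202) (.e (nat_lit 573485) (nat_lit 13) (.e (nat_lit 65619) (nat_lit 10) (.e (nat_lit 344117) (nat_lit 21) .nil))))) .nil))))) (.nd (nat_lit 4) (.nd (nat_lit 5) (.nd (nat_lit 6) 
(.lf (nat_lit 246923) (.g (nat_lit 892) (.e (nat_lit 131128) (nat_lit 13) (.e (nat_lit 393233) (nat_lit 17) (.e (nat_lit 7591) (nat_lit 407) (.e (nat_lit 73729) (nat_lit 0) .nil)))) .nil)) 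
(.lf (nat_lit 246987) (.g (nat_lit 2081) (.e (nat_lit 131128) (nat_lit 13) (.e (nat_lit 393301) (nat_lit 27) (.e (nat_lit 491560) (nat_lit 10) (.e (nat_lit 344091) (nat_lit 18) .nil)))) .nil))) (.nd (nat_lit 6) 
(.lf (nat_lit 246955) (.g (nat_lit 1556) (.e (nat_lit 131128) (nat_lit 13) (.e (nat_lit 393300) (nat_lit 27) (.e (nat_lit 491560) (nat_lit 10) (.e (nat_lit 344090) (nat_lit 18) (.e (nat_lit 7130) (nat_lit 382) .nil))))) .nil)) 
(.lf (nat_lit 247019) (.g (nat_lit 1633) (.e (nat_lit 131133) (nat_lit 15) (.e (nat_lit 3631) (nat_lit 227) (.e (nat_lit 778317) (nat_lit 3) (.e (nat_lit 57477) (nat_lit 28) (.e (nat_lit 557108) (nat_lit 15) .nil))))) .nil)))) (.nd (nat_lit 5) (.nd (nat_lit 6) 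
(.lf (nat_lit 246939) (.g (nat_lit 632) (.e (nat_lit 131128) (nat_lit 13) (.e (nat_lit 393298) (nat_lit 27) (.e (nat_lit 491566) (nat_lit 12) .nil))) .nil)) 
(.lf (nat_lit 247003) (.g (nat_lit 2159) (.e (nat_lit 131129) (nat_lit 14) (.e (nat_lit 401424) (nat_lit 2) (.e (nat_lit 196666) (nat_lit 13) (.e (nat_lit 65628) (nat_lit 14) .nil)))) .nil))) (.nd (nat_lit 6) 
(.lf (nat_lit 246971) (.g (nat_lit 3718) (.e (nat_lit 131128) (nat_lit 13) (.e (nat_lit 393301) (nat_lit 27) (.e (nat_lit 491558) (nat_lit 10) (.e (nat_lit 344096) (nat_lit 18) (.e (nat_lit 7125) (nat_lit 382) (.e (nat_lit 1296) (nat_lit 96) .nil)))))) (.g (nat_lit 6) .nil .nil))) 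
(.lf (nat_lit 247035) (.g (nat_lit 1798) (.e (nat_lit 131137) (nat_lit 27) (.e (nat_lit 426163) (nat_lit 6) (.e (nat_lit 253991) (nat_lit 11) (.e (nat_lit 16416) (nat_lit 3) .nil)))) .nil)))))) (.nd (nat_lit 3) (.nd (nat_lit 4) (.nd (nat_lit 5) (.nd (nat_lit 6) 
(.lf (nat_lit 246919) (.g (nat_lit 991) (.e (nat_lit 131127) (nat_lit 13) (.e (nat_lit 393298) (nat_lit 27) (.e (nat_lit 491560) (nat_lit 10) .nil))) .nil)) 
(.lf (nat_lit 246983) (.g (nat_lit 2708) (.e (nat_lit 131128) (nat_lit 13) (.e (nat_lit 393301) (nat_lit 27) (.e (nat_lit 491560) (nat_lit 10) (.e (nat_lit 344089) (nat_lit 18) .nil)))) .nil))) (.nd (nat_lit 6) 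
(.lf (nat_lit 246951) (.g (nat_lit 2975) (.e (nat_lit 131128) (nat_lit 13) (.e (nat_lit 393300) (nat_lit 27) (.e (nat_lit 491558) (nat_lit 10) (.e (nat_lit 344096) (nat_lit 18) (.e (nat_lit 7125) (nat_lit 382) (.e (nat_lit 1296) (nat_lit 96) .nil)))))) (.g (nat_lit 6) .nil .nil))) 
(.lf (nat_lit 247015) (.g (nat_lit 1831) (.e (nat_lit 131132) (nat_lit 15) (.e (nat_lit 3304) (nat_lit 202) (.e (nat_lit 573485) (nat_lit 13) (.e (nat_lit 65619) (nat_lit 10) (.e (nat_lit 344117) (nat_lit 21) .nil))))) .nil)))) (.nd (nat_lit 5) (.nd (nat_lit 6) 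
(.lf (nat_lit 246935) (.g (nat_lit 1299) (.e (nat_lit 131128) (nat_lit 13) (.e (nat_lit 393271) (nat_lit 23) (.e (nat_lit 426448) (nat_lit 20) .nil))) .nil)) 
(.lf (nat_lit 246999) (.g (nat_lit 2350) (.e (nat_lit 131128) (nat_lit 13) (.e (nat_lit 393301) (nat_lit 27) (.e (nat_lit 491560) (nat_lit 10) (.e (nat_lit 344174) (nat_lit 42) .nil)))) .nil))) (.nd (nat_lit 6) 
(.lf (nat_lit 246967) (.g (nat_lit 1504) (.e (nat_lit 131128) (nat_lit 13) (.e (nat_lit 393301) (nat_lit 27) (.e (nat_lit 491558) (nat_lit 10) (.e (nat_lit 344096) (nat_lit 18) .nil)))) .nil)) 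
(.lf (nat_lit 247031) (.g (nat_lit 443) (.e (nat_lit 139008) (nat_lit 26) (.e (nat_lit 417796) (nat_lit 0) (.e (nat_lit 5405) (nat_lit 302) (.e (nat_lit 65647) (nat_lit 25) .nil)))) .nil))))) (.nd (nat_lit 4) (.nd (nat_lit 5) (.nd (nat_lit 6) 
(.lf (nat_lit 246927) (.g (nat_lit 1277) (.e (nat_lit 131128) (nat_lit 13) (.e (nat_lit 393234) (nat_lit 17) (.e (nat_lit 7591) (nat_lit 407) (.e (nat_lit 73730) (nat_lit 0) .nil)))) .nil)) 
(.lf (nat_lit 246991) (.g (nat_lit 3521) (.e (nat_lit 131128) (nat_lit 13) (.e (nat_lit 393301) (nat_lit 27) (.e (nat_lit 491560) (nat_lit 10) (.e (nat_lit 344094) (nat_lit 18) (.e (nat_lit 7124) (nat_lit 382) (.e (nat_lit 1296) (nat_lit 96) .nil)))))) (.g (nat_lit 6) .nil .nil)))) (.nd (nat_lit 6) 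
(.lf (nat_lit 246959) (.g (nat_lit 1459) (.e (nat_lit 131128) (nat_lit 13) (.e (nat_lit 393301) (nat_lit 27) (.e (nat_lit 491558) (nat_lit 10) (.e (nat_lit 344090) (nat_lit 18) .nil)))) .nil)) 
(.lf (nat_lit 247023) (.g (nat_lit 2752) (.e (nat_lit 131133) (nat_lit 15) (.e (nat_lit 3632) (nat_lit 227) (.e (nat_lit 778320) (nat_lit 4) (.e (nat_lit 65630) (nat_lit 14) (.e (nat_lit 401454) (nat_lit 12) (.e (nat_lit 483072) (nat_lit 15) .nil)))))) (.g (nat_lit 5) .nil .nil))))) (.nd (nat_lit 5) (.nd (nat_lit 6) 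
(.lf (nat_lit 246943) (.g (nat_lit 1779) (.e (nat_lit 131128) (nat_lit 13) (.e (nat_lit 393299) (nat_lit 27) (.e (nat_lit 491560) (nat_lit 10) (.e (nat_lit 344090) (nat_lit 18) .nil)))) .nil)) 
(.lf (nat_lit 247007) (.g (nat_lit 817) (.e (nat_lit 131129) (nat_lit 14) (.e (nat_lit 401459) (nat_lit 13) (.e (nat_lit 483372) (nat_lit 21) .nil))) .nil))) (.nd (nat_lit 6) 
(.lf (nat_lit 246975) (.g (nat_lit 2200) (.e (nat_lit 131128) (nat_lit 13) (.e (nat_lit 393301) (nat_lit 27) (.e (nat_lit 491559) (nat_lit 10) (.e (nat_lit 344091) (nat_lit 18) .nil)))) .nil)) 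
(.lf (nat_lit 247039) (.g (nat_lit 683) (.e (nat_lit 131138) (nat_lit 27) (.e (nat_lit 426228) (nat_lit 9) (.e (nat_lit 426443) (nat_lit 19) (.e (nat_lit 106556) (nat_lit 15) (.e (nat_lit 57811) (nat_lit 246) (.e (nat_lit 57902) (nat_lit 277) .nil)))))) (.g (nat_lit 5) .nil .nil))))))))))

noncomputable def tv3205 : DT := (.nd (nat_lit 0) (.nd (nat_lit 1) (.nd (nat_lit 2) (.nd (nat_lit 3) (.nd (nat_lit 4) (.nd (nat_lit 5) (.nd (nat_lit 6) 
(.lf (nat_lit 247040) (.g (nat_lit 1011) (.e (nat_lit 131138) (nat_lit 27) (.e (nat_lit 426230) (nat_lit 9) (.e (nat_lit 426443) (nat_lit 19) (.e (nat_lit 106556) (nat_lit 15) (.e (nat_lit 57810) (nat_lit 246) (.e (nat_lit 57902) (nat_lit 277) .nil)))))) (.g (nat_lit 0) .nil .nil))) 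
(.lf (nat_lit 247104) (.g (nat_lit 1968) (.e (nat_lit 131140) (nat_lit 27) (.e (nat_lit 426188) (nat_lit 9) (.e (nat_lit 426444) (nat_lit 19) (.e (nat_lit 106556) (nat_lit 15) (.e (nat_lit 57815) (nat_lit 246) (.e (nat_lit 57902) (nat_lit 277) .nil)))))) (.g (nat_lit 0) .nil .nil)))) (.nd (nat_lit 6) 
(.lf (nat_lit 247072) (.g (nat_lit 99) (.e (nat_lit 131140) (nat_lit 27) (.e (nat_lit 426009) (nat_lit 0) (.e (nat_lit 7936) (nat_lit 406) .nil))) .nil)) 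
(.lf (nat_lit 247136) (.g (nat_lit 457) (.e (nat_lit 131140) (nat_lit 27) (.e (nat_lit 426308) (nat_lit 12) (.e (nat_lit 475201) (nat_lit 40) .nil))) .nil)))) (.nd (nat_lit 5) (.nd (nat_lit 6) 
(.lf (nat_lit 247056) (.g (nat_lit 1034) (.e (nat_lit 131138) (nat_lit 27) (.e (nat_lit 426261) (nat_lit 9) (.e (nat_lit 426443) (nat_lit 19) (.e (nat_lit 106556) (nat_lit 15) (.e (nat_lit 57813) (nat_lit 246) (.e (nat_lit 57902) (nat_lit 277) .nil)))))) (.g (nat_lit 6) .nil .nil))) 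
(.lf (nat_lit 247120) (.g (nat_lit 1108) (.e (nat_lit 131140) (nat_lit 27) (.e (nat_lit 426200) (nat_lit 9) (.e (nat_lit 426444) (nat_lit 19) (.e (nat_lit 106500) (nat_lit 0) .nil)))) .nil))) (.nd (nat_lit 6) 
(.lf (nat_lit 247088) (.g (nat_lit 1465) (.e (nat_lit 131140) (nat_lit 27) (.e (nat_lit 426172) (nat_lit 7) (.e (nat_lit 409648) (nat_lit 18) (.e (nat_lit 303149) (nat_lit 15) .nil)))) .nil)) 
(.lf (nat_lit 247152) (.g (nat_lit 750) (.e (nat_lit 131140) (nat_lit 27) (.e (nat_lit 426315) (nat_lit 12) (.e (nat_lit 475196) (nat_lit 40) .nil))) .nil))))) (.nd (nat_lit 4) (.nd (nat_lit 5) (.nd (nat_lit 6) 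
(.lf (nat_lit 247048) (.g (nat_lit 170) (.e (nat_lit 131138) (nat_lit 27) (.e (nat_lit 426260) (nat_lit 9) (.e (nat_lit 426391) (nat_lit 15) .nil))) .nil)) 
(.lf (nat_lit 247112) (.g (nat_lit 1763) (.e (nat_lit 131140) (nat_lit 27) (.e (nat_lit 426198) (nat_lit 9) (.e (nat_lit 426444) (nat_lit 19) (.e (nat_lit 106556) (nat_lit 15) (.e (nat_lit 57815) (nat_lit 246) (.e (nat_lit 57902) (nat_lit 277) .nil)))))) (.g (nat_lit 0) .nil .nil)))) (.nd (nat_lit 6) 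
(.lf (nat_lit 247080) (.g (nat_lit 590) (.e (nat_lit 131140) (nat_lit 27) (.e (nat_lit 426098) (nat_lit 1) (.e (nat_lit 164179) (nat_lit 154) .nil))) .nil)) 
(.lf (nat_lit 247144) (.g (nat_lit 542) (.e (nat_lit 131140) (nat_lit 27) (.e (nat_lit 426308) (nat_lit 12) (.e (nat_lit 475218) (nat_lit 44) (.e (nat_lit 737286) (nat_lit 0) .nil)))) .nil)))) (.nd (nat_lit 5) (.nd (nat_lit 6) 
(.lf (nat_lit 247064) (.g (nat_lit 193) (.e (nat_lit 131138) (nat_lit 27) (.e (nat_lit 426262) (nat_lit 9) (.e (nat_lit 433920) (nat_lit 19) .nil))) .nil)) 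
(.lf (nat_lit 247128) (.g (nat_lit 890) (.e (nat_lit 131140) (nat_lit 27) (.e (nat_lit 426306) (nat_lit 12) (.e (nat_lit 475203) (nat_lit 40) (.e (nat_lit 712448) (nat_lit 5) .nil)))) .nil))) (.nd (nat_lit 6) 
(.lf (nat_lit 247096) (.g (nat_lit 1931) (.e (nat_lit 131140) (nat_lit 27) (.e (nat_lit 426188) (nat_lit 9) (.e (nat_lit 426377) (nat_lit 15) (.e (nat_lit 2175) (nat_lit 143) (.e (nat_lit 712747) (nat_lit 28) (.e (nat_lit 442112) (nat_lit 7) .nil)))))) (.g (nat_lit 5) .nil .nil))) 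
(.lf (nat_lit 247160) (.g (nat_lit 1539) (.e (nat_lit 131140) (nat_lit 27) (.e (nat_lit 426315) (nat_lit 12) (.e (nat_lit 475209) (nat_lit 41) (.e (nat_lit 712747) (nat_lit 28) (.e (nat_lit 442112) (nat_lit 7) .nil))))) (.g (nat_lit 4) .nil .nil))))))) (.nd (nat_lit 3) (.nd (nat_lit 4) (.nd (nat_lit 5) (.nd (nat_lit 6) 
(.lf (nat_lit 247044) (.g (nat_lit 1085) (.e (nat_lit 131138) (nat_lit 27) (.e (nat_lit 426234) (nat_lit 9) (.e (nat_lit 426443) (nat_lit 19) (.e (nat_lit 106556) (nat_lit 15) (.e (nat_lit 57814) (nat_lit 246) (.e (nat_lit 57902) (nat_lit 277) .nil)))))) (.g (nat_lit 0) .nil .nil))) 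
(.lf (nat_lit 247108) (.g (nat_lit 1228) (.e (nat_lit 131140) (nat_lit 27) (.e (nat_lit 426197) (nat_lit 9) (.e (nat_lit 426442) (nat_lit 19) (.e (nat_lit 106556) (nat_lit 15) (.e (nat_lit 57811) (nat_lit 246) (.e (nat_lit 57902) (nat_lit 277) .nil)))))) (.g (nat_lit 5) .nil .nil)))) (.nd (nat_lit 6) 
(.lf (nat_lit 247076) (.g (nat_lit 1456) (.e (nat_lit 131140) (nat_lit 27) (.e (nat_lit 426098) (nat_lit 1) (.e (nat_lit 164151) (nat_lit 152) (.e (nat_lit 1206) (nat_lit 89) .nil)))) .nil)) 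
(.lf (nat_lit 247140) (.g (nat_lit 1421) (.e (nat_lit 131140) (nat_lit 27) (.e (nat_lit 426308) (nat_lit 12) (.e (nat_lit 475207) (nat_lit 41) (.e (nat_lit 712749) (nat_lit 28) (.e (nat_lit 442112) (nat_lit 7) .nil))))) (.g (nat_lit 4) .nil .nil))))) (.nd (nat_lit 5) (.nd (nat_lit 6) 
(.lf (nat_lit 247060) (.g (nat_lit 744) (.e (nat_lit 131138) (nat_lit 27) (.e (nat_lit 426262) (nat_lit 9) (.e (nat_lit 426441) (nat_lit 19) (.e (nat_lit 106556) (nat_lit 15) (.e (nat_lit 57808) (nat_lit 246) (.e (nat_lit 57902) (nat_lit 277) .nil)))))) (.g (nat_lit 4) .nil .nil))) 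
(.lf (nat_lit 247124) (.g (nat_lit 1956) (.e (nat_lit 131140) (nat_lit 27) (.e (nat_lit 426306) (nat_lit 12) (.e (nat_lit 475198) (nat_lit 40) (.e (nat_lit 704595) (nat_lit 5) (.e (nat_lit 188160) (nat_lit 39) .nil))))) .nil))) (.nd (nat_lit 6) 
(.lf (nat_lit 247092) (.g (nat_lit 612) (.e (nat_lit 131140) (nat_lit 27) (.e (nat_lit 426188) (nat_lit 9) (.e (nat_lit 426369) (nat_lit 15) .nil))) .nil)) 
(.lf (nat_lit 247156) (.g (nat_lit 1096) (.e (nat_lit 131140) (nat_lit 27) (.e (nat_lit 426315) (nat_lit 12) (.e (nat_lit 475201) (nat_lit 40) (.e (nat_lit 704841) (nat_lit 15) .nil)))) .nil))))) (.nd (nat_lit 4) (.nd (nat_lit 5) (.nd (nat_lit 6) 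
(.lf (nat_lit 247052) (.g (nat_lit 1048) (.e (nat_lit 131138) (nat_lit 27) (.e (nat_lit 426261) (nat_lit 9) (.e (nat_lit 426443) (nat_lit 19) (.e (nat_lit 106556) (nat_lit 15) (.e (nat_lit 57808) (nat_lit 246) (.e (nat_lit 57902) (nat_lit 277) .nil)))))) (.g (nat_lit 6) .nil .nil))) 
(.lf (nat_lit 247116) (.g (nat_lit 1012) (.e (nat_lit 131140) (nat_lit 27) (.e (nat_lit 426200) (nat_lit 9) (.e (nat_lit 426439) (nat_lit 19) (.e (nat_lit 106556) (nat_lit 15) .nil)))) .nil))) (.nd (nat_lit 6) 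
(.lf (nat_lit 247084) (.g (nat_lit 1358) (.e (nat_lit 131140) (nat_lit 27) (.e (nat_lit 426100) (nat_lit 1) (.e (nat_lit 164161) (nat_lit 152) (.e (nat_lit 7936) (nat_lit 89) .nil)))) .nil)) 
(.lf (nat_lit 247148) (.g (nat_lit 1855) (.e (nat_lit 131140) (nat_lit 27) (.e (nat_lit 426314) (nat_lit 12) (.e (nat_lit 475211) (nat_lit 41) (.e (nat_lit 712749) (nat_lit 28) (.e (nat_lit 442112) (nat_lit 7) .nil))))) (.g (nat_lit 4) .nil .nil))))) (.nd (nat_lit 5) (.nd (nat_lit 6) 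
(.lf (nat_lit 247068) (.g (nat_lit 2092) (.e (nat_lit 131138) (nat_lit 27) (.e (nat_lit 426347) (nat_lit 14) (.e (nat_lit 491570) (nat_lit 13) (.e (nat_lit 393238) (nat_lit 17) (.e (nat_lit 7600) (nat_lit 409) .nil))))) .nil)) 
(.lf (nat_lit 247132) (.g (nat_lit 1699) (.e (nat_lit 131140) (nat_lit 27) (.e (nat_lit 426306) (nat_lit 12) (.e (nat_lit 475210) (nat_lit 41) (.e (nat_lit 712749) (nat_lit 28) (.e (nat_lit 442112) (nat_lit 7) .nil))))) (.g (nat_lit 4) .nil .nil)))) (.nd (nat_lit 6) 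
(.lf (nat_lit 247100) (.g (nat_lit 620) (.e (nat_lit 131140) (nat_lit 27) (.e (nat_lit 426188) (nat_lit 9) (.e (nat_lit 426418) (nat_lit 15) .nil))) .nil)) 
(.lf (nat_lit 247164) (.g (nat_lit 586) (.e (nat_lit 131140) (nat_lit 27) (.e (nat_lit 426315) (nat_lit 12) (.e (nat_lit 475218) (nat_lit 44) (.e (nat_lit 737286) (nat_lit 0) .nil)))) .nil))))))) (.nd (nat_lit 2) (.nd (nat_lit 3) (.nd (nat_lit 4) (.nd (nat_lit 5) (.nd (nat_lit 6) 
(.lf (nat_lit 247042) (.g (nat_lit 392) (.e (nat_lit 131138) (nat_lit 27) (.e (nat_lit 426234) (nat_lit 9) (.e (nat_lit 426441) (nat_lit 19) (.e (nat_lit 106556) (nat_lit 15) .nil)))) .nil)) 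
(.lf (nat_lit 247106) (.g (nat_lit 1747) (.e (nat_lit 131140) (nat_lit 27) (.e (nat_lit 426190) (nat_lit 9) (.e (nat_lit 426444) (nat_lit 19) (.e (nat_lit 106556) (nat_lit 15) (.e (nat_lit 57808) (nat_lit 246) (.e (nat_lit 57902) (nat_lit 277) .nil)))))) (.g (nat_lit 0) .nil .nil)))) (.nd (nat_lit 6) 
(.lf (nat_lit 247074) (.g (nat_lit 1055) (.e (nat_lit 131140) (nat_lit 27) (.e (nat_lit 426011) (nat_lit 0) (.e (nat_lit 7587) (nat_lit 406) (.e (nat_lit 73472) (nat_lit 15) .nil)))) .nil)) 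
(.lf (nat_lit 247138) (.g (nat_lit 652) (.e (nat_lit 131140) (nat_lit 27) (.e (nat_lit 426308) (nat_lit 12) (.e (nat_lit 475204) (nat_lit 40) (.e (nat_lit 712448) (nat_lit 5) .nil)))) .nil)))) (.nd (nat_lit 5) (.nd (nat_lit 6) 
(.lf (nat_lit 247058) (.g (nat_lit 1068) (.e (nat_lit 131138) (nat_lit 27) (.e (nat_lit 426261) (nat_lit 9) (.e (nat_lit 426443) (nat_lit 19) (.e (nat_lit 106556) (nat_lit 15) (.e (nat_lit 57815) (nat_lit 246) (.e (nat_lit 57902) (nat_lit 277) .nil)))))) (.g (nat_lit 6) .nil .nil))) 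
(.lf (nat_lit 247122) (.g (nat_lit 545) (.e (nat_lit 131140) (nat_lit 27) (.e (nat_lit 426305) (nat_lit 12) (.e (nat_lit 475220) (nat_lit 44) .nil))) .nil))) (.nd (nat_lit 6) 
(.lf (nat_lit 247090) (.g (nat_lit 572) (.e (nat_lit 131140) (nat_lit 27) (.e (nat_lit 426188) (nat_lit 9) (.e (nat_lit 426360) (nat_lit 15) .nil))) .nil)) 
(.lf (nat_lit 247154) (.g (nat_lit 999) (.e (nat_lit 131140) (nat_lit 27) (.e (nat_lit 426315) (nat_lit 12) (.e (nat_lit 475198) (nat_lit 40) (.e (nat_lit 704596) (nat_lit 5) .nil)))) .nil))))) (.nd (nat_lit 4) (.nd (nat_lit 5) (.nd (nat_lit 6) 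
(.lf (nat_lit 247050) (.g (nat_lit 907) (.e (nat_lit 131138) (nat_lit 27) (.e (nat_lit 426261) (nat_lit 9) (.e (nat_lit 426419) (nat_lit 15) (.e (nat_lit 2175) (nat_lit 143) (.e (nat_lit 712747) (nat_lit 28) .nil))))) .nil)) 
(.lf (nat_lit 247114) (.g (nat_lit 1492) (.e (nat_lit 131140) (nat_lit 27) (.e (nat_lit 426200) (nat_lit 9) (.e (nat_lit 426131) (nat_lit 3) (.e (nat_lit 204817) (nat_lit 17) (.e (nat_lit 7936) (nat_lit 153) (.e (nat_lit 794677) (nat_lit 24) (.e (nat_lit 220928) (nat_lit 8) .nil))))))) (.g (nat_lit 4) .nil .nil)))) (.nd (nat_lit 6) 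
(.lf (nat_lit 247082) (.g (nat_lit 731) (.e (nat_lit 131140) (nat_lit 27) (.e (nat_lit 426098) (nat_lit 1) (.e (nat_lit 164185) (nat_lit 155) .nil))) .nil)) 
(.lf (nat_lit 247146) (.g (nat_lit 1121) (.e (nat_lit 131140) (nat_lit 27) (.e (nat_lit 426314) (nat_lit 12) (.e (nat_lit 475210) (nat_lit 41) (.e (nat_lit 712747) (nat_lit 28) .nil)))) .nil)))) (.nd (nat_lit 5) (.nd (nat_lit 6) 
(.lf (nat_lit 247066) (.g (nat_lit 1738) (.e (nat_lit 131138) (nat_lit 27) (.e (nat_lit 426347) (nat_lit 14) (.e (nat_lit 491550) (nat_lit 9) (.e (nat_lit 336421) (nat_lit 28) (.e (nat_lit 442112) (nat_lit 7) .nil))))) (.g (nat_lit 4) .nil .nil))) 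
(.lf (nat_lit 247130) (.g (nat_lit 1017) (.e (nat_lit 131140) (nat_lit 27) (.e (nat_lit 426306) (nat_lit 12) (.e (nat_lit 475207) (nat_lit 41) (.e (nat_lit 712747) (nat_lit 28) (.e (nat_lit 442112) (nat_lit 7) .nil))))) (.g (nat_lit 4) .nil .nil)))) (.nd (nat_lit 6) 
(.lf (nat_lit 247098) (.g (nat_lit 579) (.e (nat_lit 131140) (nat_lit 27) (.e (nat_lit 426188) (nat_lit 9) (.e (nat_lit 426392) (nat_lit 15) .nil))) .nil)) 
(.lf (nat_lit 247162) (.g (nat_lit 1232) (.e (nat_lit 131140) (nat_lit 27) (.e (nat_lit 426315) (nat_lit 12) (.e (nat_lit 475210) (nat_lit 41) (.e (nat_lit 712747) (nat_lit 28) .nil)))) .nil)))))) (.nd (nat_lit 3) (.nd (nat_lit 4) (.nd (nat_lit 5) (.nd (nat_lit 6) 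
(.lf (nat_lit 247046) (.g (nat_lit 1211) (.e (nat_lit 131138) (nat_lit 27) (.e (nat_lit 426259) (nat_lit 9) (.e (nat_lit 426419) (nat_lit 15) (.e (nat_lit 2175) (nat_lit 143) (.e (nat_lit 712749) (nat_lit 28) (.e (nat_lit 442112) (nat_lit 7) .nil)))))) (.g (nat_lit 5) .nil .nil))) 
(.lf (nat_lit 247110) (.g (nat_lit 1756) (.e (nat_lit 131140) (nat_lit 27) (.e (nat_lit 426198) (nat_lit 9) (.e (nat_lit 426444) (nat_lit 19) (.e (nat_lit 106556) (nat_lit 15) (.e (nat_lit 57810) (nat_lit 246) (.e (nat_lit 57902) (nat_lit 277) .nil)))))) (.g (nat_lit 0) .nil .nil)))) (.nd (nat_lit 6) 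
(.lf (nat_lit 247078) (.g (nat_lit 2527) (.e (nat_lit 131140) (nat_lit 27) (.e (nat_lit 426098) (nat_lit 1) (.e (nat_lit 164151) (nat_lit 152) (.e (nat_lit 1207) (nat_lit 89) (.e (nat_lit 73754) (nat_lit 8) (.e (nat_lit 557094) (nat_lit 12) (.e (nat_lit 171776) (nat_lit 194) .nil))))))) (.g (nat_lit 5) .nil .nil))) 
(.lf (nat_lit 247142) (.g (nat_lit 1514) (.e (nat_lit 131140) (nat_lit 27) (.e (nat_lit 426308) (nat_lit 12) (.e (nat_lit 475209) (nat_lit 41) (.e (nat_lit 712747) (nat_lit 28) (.e (nat_lit 442112) (nat_lit 7) .nil))))) (.g (nat_lit 4) .nil .nil))))) (.nd (nat_lit 5) (.nd (nat_lit 6) 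
(.lf (nat_lit 247062) (.g (nat_lit 707) (.e (nat_lit 131138) (nat_lit 27) (.e (nat_lit 426262) (nat_lit 9) (.e (nat_lit 426441) (nat_lit 19) (.e (nat_lit 106556) (nat_lit 15) (.e (nat_lit 57813) (nat_lit 246) (.e (nat_lit 57902) (nat_lit 277) .nil)))))) (.g (nat_lit 4) .nil .nil))) 
(.lf (nat_lit 247126) (.g (nat_lit 1525) (.e (nat_lit 131140) (nat_lit 27) (.e (nat_lit 426306) (nat_lit 12) (.e (nat_lit 475199) (nat_lit 40) (.e (nat_lit 704846) (nat_lit 15) .nil)))) .nil))) (.nd (nat_lit 6) 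
(.lf (nat_lit 247094) (.g (nat_lit 1926) (.e (nat_lit 131140) (nat_lit 27) (.e (nat_lit 426188) (nat_lit 9) (.e (nat_lit 426377) (nat_lit 15) (.e (nat_lit 2059) (nat_lit 142) (.e (nat_lit 704595) (nat_lit 5) (.e (nat_lit 188160) (nat_lit 39) .nil)))))) (.g (nat_lit 4) .nil .nil))) 
(.lf (nat_lit 247158) (.g (nat_lit 1421) (.e (nat_lit 131140) (nat_lit 27) (.e (nat_lit 426315) (nat_lit 12) (.e (nat_lit 475207) (nat_lit 41) (.e (nat_lit 712749) (nat_lit 28) (.e (nat_lit 442112) (nat_lit 7) .nil))))) (.g (nat_lit 4) .nil .nil)))))) (.nd (nat_lit 4) (.nd (nat_lit 5) (.nd (nat_lit 6) 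
(.lf (nat_lit 247054) (.g (nat_lit 1061) (.e (nat_lit 131138) (nat_lit 27) (.e (nat_lit 426261) (nat_lit 9) (.e (nat_lit 426443) (nat_lit 19) (.e (nat_lit 106556) (nat_lit 15) (.e (nat_lit 57810) (nat_lit 246) (.e (nat_lit 57902) (nat_lit 277) .nil)))))) (.g (nat_lit 6) .nil .nil))) 
(.lf (nat_lit 247118) (.g (nat_lit 1667) (.e (nat_lit 131140) (nat_lit 27) (.e (nat_lit 426200) (nat_lit 9) (.e (nat_lit 426442) (nat_lit 19) (.e (nat_lit 106556) (nat_lit 15) (.e (nat_lit 57809) (nat_lit 246) (.e (nat_lit 57902) (nat_lit 277) .nil)))))) (.g (nat_lit 4) .nil .nil)))) (.nd (nat_lit 6) 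
(.lf (nat_lit 247086) (.g (nat_lit 1210) (.e (nat_lit 131140) (nat_lit 27) (.e (nat_lit 426107) (nat_lit 1) (.e (nat_lit 164150) (nat_lit 152) (.e (nat_lit 1207) (nat_lit 89) .nil)))) .nil)) 
(.lf (nat_lit 247150) (.g (nat_lit 263) (.e (nat_lit 131140) (nat_lit 27) (.e (nat_lit 426314) (nat_lit 12) (.e (nat_lit 475220) (nat_lit 44) .nil))) .nil)))) (.nd (nat_lit 5) (.nd (nat_lit 6) 
(.lf (nat_lit 247070) (.g (nat_lit 1767) (.e (nat_lit 131139) (nat_lit 27) (.e (nat_lit 426343) (nat_lit 14) (.e (nat_lit 491570) (nat_lit 13) (.e (nat_lit 393238) (nat_lit 17) .nil)))) .nil)) 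
(.lf (nat_lit 247134) (.g (nat_lit 444) (.e (nat_lit 131140) (nat_lit 27) (.e (nat_lit 426308) (nat_lit 12) (.e (nat_lit 475195) (nat_lit 40) .nil))) .nil))) (.nd (nat_lit 6) 
(.lf (nat_lit 247102) (.g (nat_lit 1176) (.e (nat_lit 131140) (nat_lit 27) (.e (nat_lit 426188) (nat_lit 9) (.e (nat_lit 426444) (nat_lit 19) (.e (nat_lit 106500) (nat_lit 0) .nil)))) .nil)) 
(.lf (nat_lit 247166) (.g (nat_lit 816) (.e (nat_lit 131140) (nat_lit 27) (.e (nat_lit 426315) (nat_lit 12) (.e (nat_lit 475219) (nat_lit 44) (.e (nat_lit 737286) (nat_lit 0) .nil)))) .nil)))))))) (.nd (nat_lit 1) (.nd (nat_lit 2) (.nd (nat_lit 3) (.nd (nat_lit 4) (.nd (nat_lit 5) (.nd (nat_lit 6) 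
(.lf (nat_lit 247041) (.g (nat_lit 975) (.e (nat_lit 131138) (nat_lit 27) (.e (nat_lit 426230) (nat_lit 9) (.e (nat_lit 426443) (nat_lit 19) (.e (nat_lit 106556) (nat_lit 15) (.e (nat_lit 57816) (nat_lit 246) (.e (nat_lit 57902) (nat_lit 277) .nil)))))) (.g (nat_lit 0) .nil .nil))) 
(.lf (nat_lit 247105) (.g (nat_lit 888) (.e (nat_lit 131140) (nat_lit 27) (.e (nat_lit 426190) (nat_lit 9) (.e (nat_lit 426444) (nat_lit 19) (.e (nat_lit 106500) (nat_lit 0) .nil)))) .nil))) (.nd (nat_lit 6) 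
(.lf (nat_lit 247073) (.g (nat_lit 531) (.e (nat_lit 131140) (nat_lit 27) (.e (nat_lit 426010) (nat_lit 0) (.e (nat_lit 7589) (nat_lit 406) (.e (nat_lit 65632) (nat_lit 15) .nil)))) .nil)) 
(.lf (nat_lit 247137) (.g (nat_lit 860) (.e (nat_lit 131140) (nat_lit 27) (.e (nat_lit 426308) (nat_lit 12) (.e (nat_lit 475201) (nat_lit 40) (.e (nat_lit 712448) (nat_lit 5) .nil)))) .nil)))) (.nd (nat_lit 5) (.nd (nat_lit 6) 
(.lf (nat_lit 247057) (.g (nat_lit 1072) (.e (nat_lit 131138) (nat_lit 27) (.e (nat_lit 426261) (nat_lit 9) (.e (nat_lit 426443) (nat_lit 19) (.e (nat_lit 106556) (nat_lit 15) (.e (nat_lit 57814) (nat_lit 246) (.e (nat_lit 57902) (nat_lit 277) .nil)))))) (.g (nat_lit 6) .nil .nil))) 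
(.lf (nat_lit 247121) (.g (nat_lit 1227) (.e (nat_lit 131140) (nat_lit 27) (.e (nat_lit 426258) (nat_lit 9) (.e (nat_lit 426443) (nat_lit 19) (.e (nat_lit 106556) (nat_lit 15) (.e (nat_lit 57809) (nat_lit 246) (.e (nat_lit 57902) (nat_lit 277) .nil)))))) (.g (nat_lit 6) .nil .nil)))) (.nd (nat_lit 6) 
(.lf (nat_lit 247089) (.g (nat_lit 1231) (.e (nat_lit 131140) (nat_lit 27) (.e (nat_lit 426186) (nat_lit 9) (.e (nat_lit 426442) (nat_lit 19) (.e (nat_lit 106556) (nat_lit 15) (.e (nat_lit 57810) (nat_lit 246) (.e (nat_lit 57902) (nat_lit 277) .nil)))))) (.g (nat_lit 6) .nil .nil))) 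
(.lf (nat_lit 247153) (.g (nat_lit 648) (.e (nat_lit 131140) (nat_lit 27) (.e (nat_lit 426315) (nat_lit 12) (.e (nat_lit 475197) (nat_lit 40) .nil))) .nil))))) (.nd (nat_lit 4) (.nd (nat_lit 5) (.nd (nat_lit 6) 
(.lf (nat_lit 247049) (.g (nat_lit 1114) (.e (nat_lit 131138) (nat_lit 27) (.e (nat_lit 426261) (nat_lit 9) (.e (nat_lit 426419) (nat_lit 15) (.e (nat_lit 2059) (nat_lit 142) (.e (nat_lit 704595) (nat_lit 5) .nil))))) .nil)) 
(.lf (nat_lit 247113) (.g (nat_lit 1310) (.e (nat_lit 131140) (nat_lit 27) (.e (nat_lit 426199) (nat_lit 9) (.e (nat_lit 426442) (nat_lit 19) (.e (nat_lit 106556) (nat_lit 15) (.e (nat_lit 57811) (nat_lit 246) (.e (nat_lit 57902) (nat_lit 277) .nil)))))) (.g (nat_lit 4) .nil .nil)))) (.nd (nat_lit 6) 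
(.lf (nat_lit 247081) (.g (nat_lit 1301) (.e (nat_lit 131140) (nat_lit 27) (.e (nat_lit 426098) (nat_lit 1) (.e (nat_lit 164183) (nat_lit 154) (.e (nat_lit 65280) (nat_lit 13) .nil)))) .nil)) 
(.lf (nat_lit 247145) (.g (nat_lit 1856) (.e (nat_lit 131140) (nat_lit 27) (.e (nat_lit 426313) (nat_lit 12) (.e (nat_lit 475211) (nat_lit 41) (.e (nat_lit 712749) (nat_lit 28) (.e (nat_lit 442112) (nat_lit 7) .nil))))) (.g (nat_lit 4) .nil .nil))))) (.nd (nat_lit 5) (.nd (nat_lit 6) 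
(.lf (nat_lit 247065) (.g (nat_lit 1282) (.e (nat_lit 131138) (nat_lit 27) (.e (nat_lit 426318) (nat_lit 12) (.e (nat_lit 475211) (nat_lit 41) (.e (nat_lit 712749) (nat_lit 28) (.e (nat_lit 442112) (nat_lit 7) .nil))))) (.g (nat_lit 4) .nil .nil))) 
(.lf (nat_lit 247129) (.g (nat_lit 407) (.e (nat_lit 131140) (nat_lit 27) (.e (nat_lit 426306) (nat_lit 12) (.e (nat_lit 475205) (nat_lit 40) .nil))) .nil))) (.nd (nat_lit 6) 
(.lf (nat_lit 247097) (.g (nat_lit 1928) (.e (nat_lit 131140) (nat_lit 27) (.e (nat_lit 426188) (nat_lit 9) (.e (nat_lit 426377) (nat_lit 15) (.e (nat_lit 2175) (nat_lit 143) (.e (nat_lit 712749) (nat_lit 28) (.e (nat_lit 442112) (nat_lit 7) .nil)))))) (.g (nat_lit 5) .nil .nil))) 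
(.lf (nat_lit 247161) (.g (nat_lit 1536) (.e (nat_lit 131140) (nat_lit 27) (.e (nat_lit 426315) (nat_lit 12) (.e (nat_lit 475209) (nat_lit 41) (.e (nat_lit 712749) (nat_lit 28) (.e (nat_lit 442112) (nat_lit 7) .nil))))) (.g (nat_lit 4) .nil .nil))))))) (.nd (nat_lit 3) (.nd (nat_lit 4) (.nd (nat_lit 5) (.nd (nat_lit 6) 
(.lf (nat_lit 247045) (.g (nat_lit 1214) (.e (nat_lit 131138) (nat_lit 27) (.e (nat_lit 426259) (nat_lit 9) (.e (nat_lit 426419) (nat_lit 15) (.e (nat_lit 2175) (nat_lit 143) (.e (nat_lit 712747) (nat_lit 28) (.e (nat_lit 442112) (nat_lit 7) .nil)))))) (.g (nat_lit 5) .nil .nil))) 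
(.lf (nat_lit 247109) (.g (nat_lit 1731) (.e (nat_lit 131140) (nat_lit 27) (.e (nat_lit 426198) (nat_lit 9) (.e (nat_lit 426444) (nat_lit 19) (.e (nat_lit 106556) (nat_lit 15) (.e (nat_lit 57809) (nat_lit 246) (.e (nat_lit 57902) (nat_lit 277) .nil)))))) (.g (nat_lit 0) .nil .nil)))) (.nd (nat_lit 6) 
(.lf (nat_lit 247077) (.g (nat_lit 3031) (.e (nat_lit 131140) (nat_lit 27) (.e (nat_lit 426098) (nat_lit 1) (.e (nat_lit 164151) (nat_lit 152) (.e (nat_lit 1207) (nat_lit 89) (.e (nat_lit 73753) (nat_lit 8) (.e (nat_lit 557089) (nat_lit 12) (.e (nat_lit 171776) (nat_lit 194) .nil))))))) (.g (nat_lit 5) .nil .nil))) 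
(.lf (nat_lit 247141) (.g (nat_lit 1373) (.e (nat_lit 131140) (nat_lit 27) (.e (nat_lit 426308) (nat_lit 12) (.e (nat_lit 475208) (nat_lit 41) (.e (nat_lit 712749) (nat_lit 28) (.e (nat_lit 442112) (nat_lit 7) .nil))))) (.g (nat_lit 4) .nil .nil))))) (.nd (nat_lit 5) (.nd (nat_lit 6) 
(.lf (nat_lit 247061) (.g (nat_lit 660) (.e (nat_lit 131138) (nat_lit 27) (.e (nat_lit 426262) (nat_lit 9) (.e (nat_lit 426441) (nat_lit 19) (.e (nat_lit 106556) (nat_lit 15) (.e (nat_lit 57811) (nat_lit 246) (.e (nat_lit 57902) (nat_lit 277) .nil)))))) (.g (nat_lit 4) .nil .nil))) 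
(.lf (nat_lit 247125) (.g (nat_lit 1634) (.e (nat_lit 131140) (nat_lit 27) (.e (nat_lit 426306) (nat_lit 12) (.e (nat_lit 475198) (nat_lit 40) (.e (nat_lit 704846) (nat_lit 15) .nil)))) .nil))) (.nd (nat_lit 6) 
(.lf (nat_lit 247093) (.g (nat_lit 1124) (.e (nat_lit 131140) (nat_lit 27) (.e (nat_lit 426188) (nat_lit 9) (.e (nat_lit 426374) (nat_lit 15) (.e (nat_lit 2175) (nat_lit 143) .nil)))) .nil)) 
(.lf (nat_lit 247157) (.g (nat_lit 1385) (.e (nat_lit 131140) (nat_lit 27) (.e (nat_lit 426315) (nat_lit 12) (.e (nat_lit 475207) (nat_lit 41) (.e (nat_lit 712747) (nat_lit 28) (.e (nat_lit 442112) (nat_lit 7) .nil))))) (.g (nat_lit 4) .nil .nil)))))) (.nd (nat_lit 4) (.nd (nat_lit 5) (.nd (nat_lit 6) 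
(.lf (nat_lit 247053) (.g (nat_lit 1061) (.e (nat_lit 131138) (nat_lit 27) (.e (nat_lit 426261) (nat_lit 9) (.e (nat_lit 426443) (nat_lit 19) (.e (nat_lit 106556) (nat_lit 15) (.e (nat_lit 57809) (nat_lit 246) (.e (nat_lit 57902) (nat_lit 277) .nil)))))) (.g (nat_lit 6) .nil .nil))) 
(.lf (nat_lit 247117) (.g (nat_lit 961) (.e (nat_lit 131140) (nat_lit 27) (.e (nat_lit 426200) (nat_lit 9) (.e (nat_lit 426442) (nat_lit 19) (.e (nat_lit 114432) (nat_lit 5) .nil)))) .nil))) (.nd (nat_lit 6) 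
(.lf (nat_lit 247085) (.g (nat_lit 928) (.e (nat_lit 131140) (nat_lit 27) (.e (nat_lit 426107) (nat_lit 1) (.e (nat_lit 164149) (nat_lit 152) .nil))) .nil)) 
(.lf (nat_lit 247149) (.g (nat_lit 263) (.e (nat_lit 131140) (nat_lit 27) (.e (nat_lit 426314) (nat_lit 12) (.e (nat_lit 475219) (nat_lit 44) .nil))) .nil)))) (.nd (nat_lit 5) (.nd (nat_lit 6) 
(.lf (nat_lit 247069) (.g (nat_lit 1813) (.e (nat_lit 131139) (nat_lit 27) (.e (nat_lit 426306) (nat_lit 12) (.e (nat_lit 475211) (nat_lit 41) (.e (nat_lit 712749) (nat_lit 28) .nil)))) .nil)) 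
(.lf (nat_lit 247133) (.g (nat_lit 2171) (.e (nat_lit 131140) (nat_lit 27) (.e (nat_lit 426306) (nat_lit 12) (.e (nat_lit 475211) (nat_lit 41) (.e (nat_lit 712749) (nat_lit 28) (.e (nat_lit 442112) (nat_lit 7) .nil))))) (.g (nat_lit 4) .nil .nil)))) (.nd (nat_lit 6) 
(.lf (nat_lit 247101) (.g (nat_lit 518) (.e (nat_lit 131140) (nat_lit 27) (.e (nat_lit 426188) (nat_lit 9) (.e (nat_lit 426439) (nat_lit 19) .nil))) .nil)) 
(.lf (nat_lit 247165) (.g (nat_lit 553) (.e (nat_lit 131140) (nat_lit 27) (.e (nat_lit 426315) (nat_lit 12) (.e (nat_lit 475219) (nat_lit 44) .nil))) .nil))))))) (.nd (nat_lit 2) (.nd (nat_lit 3) (.nd (nat_lit 4) (.nd (nat_lit 5) (.nd (nat_lit 6) 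
(.lf (nat_lit 247043) (.g (nat_lit 1060) (.e (nat_lit 131138) (nat_lit 27) (.e (nat_lit 426234) (nat_lit 9) (.e (nat_lit 426443) (nat_lit 19) (.e (nat_lit 106556) (nat_lit 15) (.e (nat_lit 57808) (nat_lit 246) (.e (nat_lit 57902) (nat_lit 277) .nil)))))) (.g (nat_lit 0) .nil .nil))) 
(.lf (nat_lit 247107) (.g (nat_lit 1253) (.e (nat_lit 131140) (nat_lit 27) (.e (nat_lit 426197) (nat_lit 9) (.e (nat_lit 426442) (nat_lit 19) (.e (nat_lit 106556) (nat_lit 15) (.e (nat_lit 57809) (nat_lit 246) (.e (nat_lit 57902) (nat_lit 277) .nil)))))) (.g (nat_lit 5) .nil .nil)))) (.nd (nat_lit 6) 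
(.lf (nat_lit 247075) (.g (nat_lit 1803) (.e (nat_lit 131140) (nat_lit 27) (.e (nat_lit 426098) (nat_lit 1) (.e (nat_lit 164150) (nat_lit 152) (.e (nat_lit 1207) (nat_lit 89) (.e (nat_lit 73753) (nat_lit 8) (.e (nat_lit 557089) (nat_lit 12) (.e (nat_lit 171776) (nat_lit 194) .nil))))))) (.g (nat_lit 4) .nil .nil))) 
(.lf (nat_lit 247139) (.g (nat_lit 1341) (.e (nat_lit 131140) (nat_lit 27) (.e (nat_lit 426308) (nat_lit 12) (.e (nat_lit 475207) (nat_lit 41) (.e (nat_lit 712747) (nat_lit 28) (.e (nat_lit 442112) (nat_lit 7) .nil))))) (.g (nat_lit 4) .nil .nil))))) (.nd (nat_lit 5) (.nd (nat_lit 6) 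
(.lf (nat_lit 247059) (.g (nat_lit 1023) (.e (nat_lit 131138) (nat_lit 27) (.e (nat_lit 426261) (nat_lit 9) (.e (nat_lit 426443) (nat_lit 19) (.e (nat_lit 106556) (nat_lit 15) (.e (nat_lit 57816) (nat_lit 246) (.e (nat_lit 57902) (nat_lit 277) .nil)))))) (.g (nat_lit 6) .nil .nil))) 
(.lf (nat_lit 247123) (.g (nat_lit 875) (.e (nat_lit 131140) (nat_lit 27) (.e (nat_lit 426305) (nat_lit 12) (.e (nat_lit 475220) (nat_lit 44) (.e (nat_lit 737286) (nat_lit 0) .nil)))) .nil))) (.nd (nat_lit 6) 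
(.lf (nat_lit 247091) (.g (nat_lit 1567) (.e (nat_lit 131140) (nat_lit 27) (.e (nat_lit 426188) (nat_lit 9) (.e (nat_lit 426366) (nat_lit 15) (.e (nat_lit 2146) (nat_lit 142) (.e (nat_lit 704845) (nat_lit 15) (.e (nat_lit 57811) (nat_lit 246) (.e (nat_lit 57902) (nat_lit 277) .nil))))))) (.g (nat_lit 4) .nil .nil))) 
(.lf (nat_lit 247155) (.g (nat_lit 745) (.e (nat_lit 131140) (nat_lit 27) (.e (nat_lit 426315) (nat_lit 12) (.e (nat_lit 475201) (nat_lit 40) .nil))) .nil))))) (.nd (nat_lit 4) (.nd (nat_lit 5) (.nd (nat_lit 6) 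
(.lf (nat_lit 247051) (.g (nat_lit 906) (.e (nat_lit 131138) (nat_lit 27) (.e (nat_lit 426261) (nat_lit 9) (.e (nat_lit 426419) (nat_lit 15) (.e (nat_lit 2175) (nat_lit 143) (.e (nat_lit 712749) (nat_lit 28) .nil))))) .nil)) 
(.lf (nat_lit 247115) (.g (nat_lit 555) (.e (nat_lit 131140) (nat_lit 27) (.e (nat_lit 426200) (nat_lit 9) (.e (nat_lit 426374) (nat_lit 15) .nil))) .nil))) (.nd (nat_lit 6) 
(.lf (nat_lit 247083) (.g (nat_lit 1056) (.e (nat_lit 131140) (nat_lit 27) (.e (nat_lit 426100) (nat_lit 1) (.e (nat_lit 164147) (nat_lit 152) .nil))) .nil)) 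
(.lf (nat_lit 247147) (.g (nat_lit 1758) (.e (nat_lit 131140) (nat_lit 27) (.e (nat_lit 426314) (nat_lit 12) (.e (nat_lit 475211) (nat_lit 41) (.e (nat_lit 712747) (nat_lit 28) (.e (nat_lit 442112) (nat_lit 7) .nil))))) (.g (nat_lit 4) .nil .nil))))) (.nd (nat_lit 5) (.nd (nat_lit 6) 
(.lf (nat_lit 247067) (.g (nat_lit 1572) (.e (nat_lit 131138) (nat_lit 27) (.e (nat_lit 426347) (nat_lit 14) (.e (nat_lit 491566) (nat_lit 12) (.e (nat_lit 392960) (nat_lit 17) .nil)))) .nil)) 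
(.lf (nat_lit 247131) (.g (nat_lit 1113) (.e (nat_lit 131140) (nat_lit 27) (.e (nat_lit 426306) (nat_lit 12) (.e (nat_lit 475207) (nat_lit 41) (.e (nat_lit 712749) (nat_lit 28) (.e (nat_lit 442112) (nat_lit 7) .nil))))) (.g (nat_lit 4) .nil .nil)))) (.nd (nat_lit 6) 
(.lf (nat_lit 247099) (.g (nat_lit 614) (.e (nat_lit 131140) (nat_lit 27) (.e (nat_lit 426188) (nat_lit 9) (.e (nat_lit 426402) (nat_lit 15) .nil))) .nil)) 
(.lf (nat_lit 247163) (.g (nat_lit 634) (.e (nat_lit 131140) (nat_lit 27) (.e (nat_lit 426315) (nat_lit 12) (.e (nat_lit 475216) (nat_lit 44) .nil))) .nil)))))) (.nd (nat_lit 3) (.nd (nat_lit 4) (.nd (nat_lit 5) (.nd (nat_lit 6) 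
(.lf (nat_lit 247047) (.g (nat_lit 137) (.e (nat_lit 131138) (nat_lit 27) (.e (nat_lit 426259) (nat_lit 9) (.e (nat_lit 426443) (nat_lit 19) .nil))) .nil)) 
(.lf (nat_lit 247111) (.g (nat_lit 1714) (.e (nat_lit 131140) (nat_lit 27) (.e (nat_lit 426198) (nat_lit 9) (.e (nat_lit 426444) (nat_lit 19) (.e (nat_lit 106556) (nat_lit 15) (.e (nat_lit 57811) (nat_lit 246) (.e (nat_lit 57902) (nat_lit 277) .nil)))))) (.g (nat_lit 0) .nil .nil)))) (.nd (nat_lit 6) 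
(.lf (nat_lit 247079) (.g (nat_lit 727) (.e (nat_lit 131140) (nat_lit 27) (.e (nat_lit 426098) (nat_lit 1) (.e (nat_lit 164161) (nat_lit 152) .nil))) .nil)) 
(.lf (nat_lit 247143) (.g (nat_lit 1507) (.e (nat_lit 131140) (nat_lit 27) (.e (nat_lit 426308) (nat_lit 12) (.e (nat_lit 475209) (nat_lit 41) (.e (nat_lit 712749) (nat_lit 28) (.e (nat_lit 442112) (nat_lit 7) .nil))))) (.g (nat_lit 4) .nil .nil))))) (.nd (nat_lit 5) (.nd (nat_lit 6) 
(.lf (nat_lit 247063) (.g (nat_lit 731) (.e (nat_lit 131138) (nat_lit 27) (.e (nat_lit 426262) (nat_lit 9) (.e (nat_lit 426441) (nat_lit 19) (.e (nat_lit 106556) (nat_lit 15) (.e (nat_lit 57815) (nat_lit 246) (.e (nat_lit 57902) (nat_lit 277) .nil)))))) (.g (nat_lit 4) .nil .nil))) 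
(.lf (nat_lit 247127) (.g (nat_lit 603) (.e (nat_lit 131140) (nat_lit 27) (.e (nat_lit 426306) (nat_lit 12) (.e (nat_lit 475201) (nat_lit 40) .nil))) .nil))) (.nd (nat_lit 6) 
(.lf (nat_lit 247095) (.g (nat_lit 848) (.e (nat_lit 131140) (nat_lit 27) (.e (nat_lit 426188) (nat_lit 9) (.e (nat_lit 426377) (nat_lit 15) (.e (nat_lit 2172) (nat_lit 143) .nil)))) .nil)) 
(.lf (nat_lit 247159) (.g (nat_lit 1330) (.e (nat_lit 131140) (nat_lit 27) (.e (nat_lit 426315) (nat_lit 12) (.e (nat_lit 475208) (nat_lit 41) (.e (nat_lit 712749) (nat_lit 28) (.e (nat_lit 442112) (nat_lit 7) .nil))))) (.g (nat_lit 4) .nil .nil)))))) (.nd (nat_lit 4) (.nd (nat_lit 5) (.nd (nat_lit 6) 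
(.lf (nat_lit 247055) (.g (nat_lit 1058) (.e (nat_lit 131138) (nat_lit 27) (.e (nat_lit 426261) (nat_lit 9) (.e (nat_lit 426443) (nat_lit 19) (.e (nat_lit 106556) (nat_lit 15) (.e (nat_lit 57811) (nat_lit 246) (.e (nat_lit 57902) (nat_lit 277) .nil)))))) (.g (nat_lit 6) .nil .nil))) 
(.lf (nat_lit 247119) (.g (nat_lit 1645) (.e (nat_lit 131140) (nat_lit 27) (.e (nat_lit 426200) (nat_lit 9) (.e (nat_lit 426442) (nat_lit 19) (.e (nat_lit 106556) (nat_lit 15) (.e (nat_lit 57811) (nat_lit 246) (.e (nat_lit 57902) (nat_lit 277) .nil)))))) (.g (nat_lit 4) .nil .nil)))) (.nd (nat_lit 6) 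
(.lf (nat_lit 247087) (.g (nat_lit 1155) (.e (nat_lit 131140) (nat_lit 27) (.e (nat_lit 426108) (nat_lit 1) (.e (nat_lit 164147) (nat_lit 152) .nil))) .nil)) 
(.lf (nat_lit 247151) (.g (nat_lit 724) (.e (nat_lit 131140) (nat_lit 27) (.e (nat_lit 426315) (nat_lit 12) (.e (nat_lit 475195) (nat_lit 40) .nil))) .nil)))) (.nd (nat_lit 5) (.nd (nat_lit 6) 
(.lf (nat_lit 247071) (.g (nat_lit 1848) (.e (nat_lit 131139) (nat_lit 27) (.e (nat_lit 426500) (nat_lit 27) (.e (nat_lit 336088) (nat_lit 9) (.e (nat_lit 336019) (nat_lit 3) (.e (nat_lit 98334) (nat_lit 18) .nil))))) .nil)) 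
(.lf (nat_lit 247135) (.g (nat_lit 597) (.e (nat_lit 131140) (nat_lit 27) (.e (nat_lit 426308) (nat_lit 12) (.e (nat_lit 475196) (nat_lit 40) (.e (nat_lit 704596) (nat_lit 5) .nil)))) .nil))) (.nd (nat_lit 6) 
(.lf (nat_lit 247103) (.g (nat_lit 1963) (.e (nat_lit 131140) (nat_lit 27) (.e (nat_lit 426188) (nat_lit 9) (.e (nat_lit 426444) (nat_lit 19) (.e (nat_lit 106556) (nat_lit 15) (.e (nat_lit 57810) (nat_lit 246) (.e (nat_lit 57902) (nat_lit 277) .nil)))))) (.g (nat_lit 0) .nil .nil))) 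
(.lf (nat_lit 247167) (.g (nat_lit 998) (.e (nat_lit 131140) (nat_lit 27) (.e (nat_lit 426316) (nat_lit 12) (.e (nat_lit 475195) (nat_lit 40) .nil))) .nil)))))))))

noncomputable def tv3206 : DT := (.nd (nat_lit 0) (.nd (nat_lit 1) (.nd (nat_lit 2) (.nd (nat_lit 3) (.nd (nat_lit 4) (.nd (nat_lit 5) (.nd (nat_lit 6) 
(.lf (nat_lit 247168) (.g (nat_lit 911) (.e (nat_lit 131140) (nat_lit 27) (.e (nat_lit 426316) (nat_lit 12) (.e (nat_lit 475196) (nat_lit 40) (.e (nat_lit 704596) (nat_lit 5) .nil)))) .nil)) 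
(.lf (nat_lit 247232) (.g (nat_lit 1028) (.e (nat_lit 139264) (nat_lit 0) (.e (nat_lit 469) (nat_lit 35) (.e (nat_lit 450564) (nat_lit 0) (.e (nat_lit 6792) (nat_lit 365) .nil)))) .nil))) (.nd (nat_lit 6) 
(.lf (nat_lit 247200) (.g (nat_lit 1731) (.e (nat_lit 131140) (nat_lit 27) (.e (nat_lit 426343) (nat_lit 14) (.e (nat_lit 491570) (nat_lit 13) (.e (nat_lit 401152) (nat_lit 17) .nil)))) .nil)) 
(.lf (nat_lit 247264) (.g (nat_lit 1643) (.e (nat_lit 139273) (nat_lit 0) (.e (nat_lit 1181) (nat_lit 87) (.e (nat_lit 57666) (nat_lit 152) (.e (nat_lit 1077) (nat_lit 81) (.e (nat_lit 1656) (nat_lit 115) (.e (nat_lit 401152) (nat_lit 11) (.e (nat_lit 352321) (nat_lit 25) .nil))))))) (.g (nat_lit 4) .nil .nil))))) (.nd (nat_lit 5) (.nd (nat_lit 6) 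
(.lf (nat_lit 247184) (.g (nat_lit 1959) (.e (nat_lit 131140) (nat_lit 27) (.e (nat_lit 426341) (nat_lit 14) (.e (nat_lit 491549) (nat_lit 9) (.e (nat_lit 336421) (nat_lit 28) (.e (nat_lit 442112) (nat_lit 7) .nil))))) (.g (nat_lit 4) .nil .nil))) 
(.lf (nat_lit 247248) (.g (nat_lit 2032) (.e (nat_lit 139266) (nat_lit 0) (.e (nat_lit 1669) (nat_lit 116) (.e (nat_lit 401437) (nat_lit 9) (.e (nat_lit 426566) (nat_lit 34) .nil)))) .nil))) (.nd (nat_lit 6) 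
(.lf (nat_lit 247216) (.g (nat_lit 1566) (.e (nat_lit 139008) (nat_lit 28) (.e (nat_lit 434180) (nat_lit 0) (.e (nat_lit 1661) (nat_lit 115) (.e (nat_lit 393238) (nat_lit 17) (.e (nat_lit 7600) (nat_lit 409) .nil))))) .nil)) 
(.lf (nat_lit 247280) (.g (nat_lit 588) (.e (nat_lit 139276) (nat_lit 2) (.e (nat_lit 16436) (nat_lit 9) (.e (nat_lit 425986) (nat_lit 0) .nil))) .nil))))) (.nd (nat_lit 4) (.nd (nat_lit 5) (.nd (nat_lit 6) 
(.lf (nat_lit 247176) (.g (nat_lit 1757) (.e (nat_lit 131140) (nat_lit 27) (.e (nat_lit 426316) (nat_lit 12) (.e (nat_lit 475209) (nat_lit 41) (.e (nat_lit 712749) (nat_lit 28) (.e (nat_lit 442112) (nat_lit 7) .nil))))) (.g (nat_lit 4) .nil .nil))) 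
(.lf (nat_lit 247240) (.g (nat_lit 757) (.e (nat_lit 139266) (nat_lit 0) (.e (nat_lit 1586) (nat_lit 111) (.e (nat_lit 360493) (nat_lit 27) (.e (nat_lit 819221) (nat_lit 6) (.e (nat_lit 196352) (nat_lit 7) .nil))))) (.g (nat_lit 4) .nil .nil)))) (.nd (nat_lit 6) 
(.lf (nat_lit 247208) (.g (nat_lit 2288) (.e (nat_lit 131140) (nat_lit 27) (.e (nat_lit 426500) (nat_lit 27) (.e (nat_lit 336204) (nat_lit 12) (.e (nat_lit 385074) (nat_lit 31) (.e (nat_lit 573473) (nat_lit 12) (.e (nat_lit 57521) (nat_lit 44) (.e (nat_lit 688190) (nat_lit 20) .nil))))))) (.g (nat_lit 4) .nil .nil))) 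
(.lf (nat_lit 247272) (.g (nat_lit 563) (.e (nat_lit 139276) (nat_lit 2) (.e (nat_lit 16388) (nat_lit 0) (.e (nat_lit 7574) (nat_lit 404) .nil))) .nil)))) (.nd (nat_lit 5) (.nd (nat_lit 6) 
(.lf (nat_lit 247192) (.g (nat_lit 2064) (.e (nat_lit 131140) (nat_lit 27) (.e (nat_lit 426341) (nat_lit 14) (.e (nat_lit 491571) (nat_lit 13) (.e (nat_lit 393242) (nat_lit 17) (.e (nat_lit 7936) (nat_lit 409) .nil))))) (.g (nat_lit 4) .nil .nil))) 
(.lf (nat_lit 247256) (.g (nat_lit 499) (.e (nat_lit 139271) (nat_lit 0) (.e (nat_lit 1181) (nat_lit 87) (.e (nat_lit 57681) (nat_lit 155) .nil))) .nil))) (.nd (nat_lit 6) 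
(.lf (nat_lit 247224) (.g (nat_lit 1128) (.e (nat_lit 139008) (nat_lit 29) (.e (nat_lit 442374) (nat_lit 0) (.e (nat_lit 2175) (nat_lit 143) (.e (nat_lit 712749) (nat_lit 28) (.e (nat_lit 442112) (nat_lit 7) .nil))))) .nil)) 
(.lf (nat_lit 247288) (.g (nat_lit 1104) (.e (nat_lit 139276) (nat_lit 2) (.e (nat_lit 16438) (nat_lit 9) (.e (nat_lit 426571) (nat_lit 35) (.e (nat_lit 401473) (nat_lit 29) (.e (nat_lit 352319) (nat_lit 25) .nil))))) .nil)))))) (.nd (nat_lit 3) (.nd (nat_lit 4) (.nd (nat_lit 5) (.nd (nat_lit 6) 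
(.lf (nat_lit 247172) (.g (nat_lit 791) (.e (nat_lit 131140) (nat_lit 27) (.e (nat_lit 426316) (nat_lit 12) (.e (nat_lit 475207) (nat_lit 41) .nil))) .nil)) 
(.lf (nat_lit 247236) (.g (nat_lit 1160) (.e (nat_lit 139265) (nat_lit 0) (.e (nat_lit 425) (nat_lit 32) (.e (nat_lit 426343) (nat_lit 14) (.e (nat_lit 491580) (nat_lit 27) .nil)))) .nil))) (.nd (nat_lit 6) 
(.lf (nat_lit 247204) (.g (nat_lit 2576) (.e (nat_lit 131140) (nat_lit 27) (.e (nat_lit 426500) (nat_lit 27) (.e (nat_lit 336088) (nat_lit 9) (.e (nat_lit 336019) (nat_lit 3) (.e (nat_lit 98334) (nat_lit 18) (.e (nat_lit 164159) (nat_lit 152) (.e (nat_lit 1295) (nat_lit 96) .nil))))))) (.g (nat_lit 5) .nil .nil))) 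
(.lf (nat_lit 247268) (.g (nat_lit 4722) (.e (nat_lit 139273) (nat_lit 0) (.e (nat_lit 1181) (nat_lit 87) (.e (nat_lit 57848) (nat_lit 252) (.e (nat_lit 57368) (nat_lit 1) (.e (nat_lit 57854) (nat_lit 252) (.e (nat_lit 57373) (nat_lit 2) (.e (nat_lit 98048) (nat_lit 6) (.e (nat_lit 81960) (nat_lit 25) .nil)))))))) (.g (nat_lit 6) .nil .nil))))) (.nd (nat_lit 5) (.nd (nat_lit 6) 
(.lf (nat_lit 247188) (.g (nat_lit 2350) (.e (nat_lit 131140) (nat_lit 27) (.e (nat_lit 426341) (nat_lit 14) (.e (nat_lit 491570) (nat_lit 13) (.e (nat_lit 393238) (nat_lit 17) (.e (nat_lit 7936) (nat_lit 409) .nil))))) (.g (nat_lit 4) .nil .nil))) 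
(.lf (nat_lit 247252) (.g (nat_lit 1016) (.e (nat_lit 139271) (nat_lit 0) (.e (nat_lit 1181) (nat_lit 87) (.e (nat_lit 57653) (nat_lit 152) (.e (nat_lit 1062) (nat_lit 81) .nil)))) .nil))) (.nd (nat_lit 6) 
(.lf (nat_lit 247220) (.g (nat_lit 1543) (.e (nat_lit 139008) (nat_lit 28) (.e (nat_lit 434181) (nat_lit 0) (.e (nat_lit 1427) (nat_lit 108) (.e (nat_lit 336421) (nat_lit 28) (.e (nat_lit 442112) (nat_lit 7) .nil))))) .nil)) 
(.lf (nat_lit 247284) (.g (nat_lit 2612) (.e (nat_lit 139276) (nat_lit 2) (.e (nat_lit 16436) (nat_lit 9) (.e (nat_lit 426131) (nat_lit 3) (.e (nat_lit 204862) (nat_lit 27) (.e (nat_lit 344160) (nat_lit 37) (.e (nat_lit 647190) (nat_lit 9) (.e (nat_lit 1304) (nat_lit 97) .nil))))))) (.g (nat_lit 4) .nil .nil)))))) (.nd (nat_lit 4) (.nd (nat_lit 5) (.nd (nat_lit 6) 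
(.lf (nat_lit 247180) (.g (nat_lit 916) (.e (nat_lit 131140) (nat_lit 27) (.e (nat_lit 426316) (nat_lit 12) (.e (nat_lit 475219) (nat_lit 44) .nil))) .nil)) 
(.lf (nat_lit 247244) (.g (nat_lit 2143) (.e (nat_lit 139266) (nat_lit 0) (.e (nat_lit 1634) (nat_lit 114) (.e (nat_lit 385068) (nat_lit 26) (.e (nat_lit 532545) (nat_lit 10) (.e (nat_lit 344133) (nat_lit 26) .nil))))) .nil))) (.nd (nat_lit 6) 
(.lf (nat_lit 247212) (.g (nat_lit 1646) (.e (nat_lit 139008) (nat_lit 27) (.e (nat_lit 426347) (nat_lit 14) (.e (nat_lit 491550) (nat_lit 9) (.e (nat_lit 336421) (nat_lit 28) (.e (nat_lit 442112) (nat_lit 7) .nil))))) .nil)) 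
(.lf (nat_lit 247276) (.g (nat_lit 1041) (.e (nat_lit 139276) (nat_lit 2) (.e (nat_lit 16425) (nat_lit 7) (.e (nat_lit 409632) (nat_lit 13) (.e (nat_lit 48896) (nat_lit 6) .nil)))) .nil)))) (.nd (nat_lit 5) (.nd (nat_lit 6) 
(.lf (nat_lit 247196) (.g (nat_lit 512) (.e (nat_lit 131140) (nat_lit 27) (.e (nat_lit 426343) (nat_lit 14) (.e (nat_lit 491570) (nat_lit 13) .nil))) .nil)) 
(.lf (nat_lit 247260) (.g (nat_lit 1238) (.e (nat_lit 139271) (nat_lit 0) (.e (nat_lit 1425) (nat_lit 108) (.e (nat_lit 336324) (nat_lit 18) (.e (nat_lit 204864) (nat_lit 27) .nil)))) .nil))) (.nd (nat_lit 6) 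
(.lf (nat_lit 247228) (.g (nat_lit 1705) (.e (nat_lit 139008) (nat_lit 32) (.e (nat_lit 466947) (nat_lit 0) (.e (nat_lit 2059) (nat_lit 142) (.e (nat_lit 704595) (nat_lit 5) (.e (nat_lit 188160) (nat_lit 39) .nil))))) .nil)) 
(.lf (nat_lit 247292) (.g (nat_lit 2510) (.e (nat_lit 139276) (nat_lit 2) (.e (nat_lit 16446) (nat_lit 9) (.e (nat_lit 426100) (nat_lit 1) (.e (nat_lit 164195) (nat_lit 158) (.e (nat_lit 1221) (nat_lit 90) (.e (nat_lit 81962) (nat_lit 25) .nil)))))) (.g (nat_lit 6) .nil .nil)))))))) (.nd (nat_lit 2) (.nd (nat_lit 3) (.nd (nat_lit 4) (.nd (nat_lit 5) (.nd (nat_lit 6) 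
(.lf (nat_lit 247170) (.g (nat_lit 1022) (.e (nat_lit 131140) (nat_lit 27) (.e (nat_lit 426316) (nat_lit 12) (.e (nat_lit 475200) (nat_lit 40) .nil))) .nil)) 
(.lf (nat_lit 247234) (.g (nat_lit 1112) (.e (nat_lit 139264) (nat_lit 0) (.e (nat_lit 479) (nat_lit 37) (.e (nat_lit 466971) (nat_lit 21) (.e (nat_lit 164195) (nat_lit 158) .nil)))) .nil))) (.nd (nat_lit 6) 
(.lf (nat_lit 247202) (.g (nat_lit 2171) (.e (nat_lit 131140) (nat_lit 27) (.e (nat_lit 426500) (nat_lit 27) (.e (nat_lit 336087) (nat_lit 9) (.e (nat_lit 336019) (nat_lit 3) (.e (nat_lit 98334) (nat_lit 18) (.e (nat_lit 164159) (nat_lit 152) (.e (nat_lit 1295) (nat_lit 96) .nil))))))) (.g (nat_lit 5) .nil .nil))) 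
(.lf (nat_lit 247266) (.g (nat_lit 1532) (.e (nat_lit 139273) (nat_lit 0) (.e (nat_lit 1181) (nat_lit 87) (.e (nat_lit 57681) (nat_lit 155) (.e (nat_lit 122925) (nat_lit 19) .nil)))) .nil)))) (.nd (nat_lit 5) (.nd (nat_lit 6) 
(.lf (nat_lit 247186) (.g (nat_lit 1566) (.e (nat_lit 131140) (nat_lit 27) (.e (nat_lit 426341) (nat_lit 14) (.e (nat_lit 491569) (nat_lit 13) (.e (nat_lit 401152) (nat_lit 17) .nil)))) .nil)) 
(.lf (nat_lit 247250) (.g (nat_lit 2770) (.e (nat_lit 139266) (nat_lit 0) (.e (nat_lit 1669) (nat_lit 116) (.e (nat_lit 401454) (nat_lit 12) (.e (nat_lit 475178) (nat_lit 24) .nil)))) .nil))) (.nd (nat_lit 6) 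
(.lf (nat_lit 247218) (.g (nat_lit 615) (.e (nat_lit 139008) (nat_lit 28) (.e (nat_lit 434181) (nat_lit 0) (.e (nat_lit 1425) (nat_lit 108) (.e (nat_lit 336421) (nat_lit 28) (.e (nat_lit 442112) (nat_lit 7) .nil))))) .nil)) 
(.lf (nat_lit 247282) (.g (nat_lit 1576) (.e (nat_lit 139276) (nat_lit 2) (.e (nat_lit 16436) (nat_lit 9) (.e (nat_lit 426111) (nat_lit 1) (.e (nat_lit 164196) (nat_lit 158) (.e (nat_lit 1221) (nat_lit 90) .nil))))) .nil))))) (.nd (nat_lit 4) (.nd (nat_lit 5) (.nd (nat_lit 6) 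
(.lf (nat_lit 247178) (.g (nat_lit 1015) (.e (nat_lit 131140) (nat_lit 27) (.e (nat_lit 426316) (nat_lit 12) (.e (nat_lit 475216) (nat_lit 44) .nil))) .nil)) 
(.lf (nat_lit 247242) (.g (nat_lit 679) (.e (nat_lit 139266) (nat_lit 0) (.e (nat_lit 1589) (nat_lit 111) (.e (nat_lit 360493) (nat_lit 27) (.e (nat_lit 819221) (nat_lit 6) .nil)))) .nil))) (.nd (nat_lit 6) 
(.lf (nat_lit 247210) (.g (nat_lit 992) (.e (nat_lit 139008) (nat_lit 27) (.e (nat_lit 426340) (nat_lit 14) (.e (nat_lit 491549) (nat_lit 9) (.e (nat_lit 336421) (nat_lit 28) (.e (nat_lit 442112) (nat_lit 7) .nil))))) .nil)) 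
(.lf (nat_lit 247274) (.g (nat_lit 935) (.e (nat_lit 139276) (nat_lit 2) (.e (nat_lit 16392) (nat_lit 0) (.e (nat_lit 7573) (nat_lit 404) .nil))) .nil)))) (.nd (nat_lit 5) (.nd (nat_lit 6) 
(.lf (nat_lit 247194) (.g (nat_lit 1459) (.e (nat_lit 131140) (nat_lit 27) (.e (nat_lit 426343) (nat_lit 14) (.e (nat_lit 491568) (nat_lit 13) (.e (nat_lit 393238) (nat_lit 17) .nil)))) .nil)) 
(.lf (nat_lit 247258) (.g (nat_lit 973) (.e (nat_lit 139271) (nat_lit 0) (.e (nat_lit 1181) (nat_lit 87) (.e (nat_lit 57682) (nat_lit 155) (.e (nat_lit 122925) (nat_lit 19) .nil)))) .nil))) (.nd (nat_lit 6) 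
(.lf (nat_lit 247226) (.g (nat_lit 1040) (.e (nat_lit 139008) (nat_lit 29) (.e (nat_lit 442379) (nat_lit 0) (.e (nat_lit 2175) (nat_lit 143) (.e (nat_lit 712747) (nat_lit 28) (.e (nat_lit 442112) (nat_lit 7) .nil))))) .nil)) 
(.lf (nat_lit 247290) (.g (nat_lit 2928) (.e (nat_lit 139276) (nat_lit 2) (.e (nat_lit 16446) (nat_lit 9) (.e (nat_lit 426098) (nat_lit 1) (.e (nat_lit 164196) (nat_lit 158) (.e (nat_lit 1221) (nat_lit 90) (.e (nat_lit 81962) (nat_lit 25) .nil)))))) (.g (nat_lit 6) .nil .nil))))))) (.nd (nat_lit 3) (.nd (nat_lit 4) (.nd (nat_lit 5) (.nd (nat_lit 6) 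
(.lf (nat_lit 247174) (.g (nat_lit 1035) (.e (nat_lit 131140) (nat_lit 27) (.e (nat_lit 426316) (nat_lit 12) (.e (nat_lit 475208) (nat_lit 41) (.e (nat_lit 712749) (nat_lit 28) .nil)))) .nil)) 
(.lf (nat_lit 247238) (.g (nat_lit 217) (.e (nat_lit 139265) (nat_lit 0) (.e (nat_lit 1315) (nat_lit 98) (.e (nat_lit 147495) (nat_lit 11) .nil))) .nil))) (.nd (nat_lit 6) 
(.lf (nat_lit 247206) (.g (nat_lit 1602) (.e (nat_lit 131140) (nat_lit 27) (.e (nat_lit 426500) (nat_lit 27) (.e (nat_lit 336184) (nat_lit 11) (.e (nat_lit 368676) (nat_lit 21) (.e (nat_lit 516117) (nat_lit 1) (.e (nat_lit 164159) (nat_lit 152) (.e (nat_lit 1295) (nat_lit 96) .nil))))))) (.g (nat_lit 4) .nil .nil))) 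
(.lf (nat_lit 247270) (.g (nat_lit 288) (.e (nat_lit 139273) (nat_lit 0) (.e (nat_lit 1587) (nat_lit 111) (.e (nat_lit 360493) (nat_lit 27) .nil))) .nil)))) (.nd (nat_lit 5) (.nd (nat_lit 6) 
(.lf (nat_lit 247190) (.g (nat_lit 2469) (.e (nat_lit 131140) (nat_lit 27) (.e (nat_lit 426341) (nat_lit 14) (.e (nat_lit 491571) (nat_lit 13) (.e (nat_lit 393238) (nat_lit 17) (.e (nat_lit 7600) (nat_lit 409) .nil))))) (.g (nat_lit 4) .nil .nil))) 
(.lf (nat_lit 247254) (.g (nat_lit 499) (.e (nat_lit 139271) (nat_lit 0) (.e (nat_lit 1181) (nat_lit 87) (.e (nat_lit 57660) (nat_lit 152) .nil))) .nil))) (.nd (nat_lit 6) 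
(.lf (nat_lit 247222) (.g (nat_lit 1318) (.e (nat_lit 139008) (nat_lit 28) (.e (nat_lit 434181) (nat_lit 0) (.e (nat_lit 1661) (nat_lit 115) (.e (nat_lit 393242) (nat_lit 17) (.e (nat_lit 7936) (nat_lit 409) .nil))))) .nil)) 
(.lf (nat_lit 247286) (.g (nat_lit 588) (.e (nat_lit 139276) (nat_lit 2) (.e (nat_lit 16437) (nat_lit 9) (.e (nat_lit 426571) (nat_lit 35) (.e (nat_lit 401473) (nat_lit 29) (.e (nat_lit 352321) (nat_lit 25) .nil))))) .nil))))) (.nd (nat_lit 4) (.nd (nat_lit 5) (.nd (nat_lit 6) 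
(.lf (nat_lit 247182) (.g (nat_lit 1942) (.e (nat_lit 131140) (nat_lit 27) (.e (nat_lit 426338) (nat_lit 14) (.e (nat_lit 491549) (nat_lit 9) (.e (nat_lit 336421) (nat_lit 28) (.e (nat_lit 442112) (nat_lit 7) .nil))))) (.g (nat_lit 4) .nil .nil))) 
(.lf (nat_lit 247246) (.g (nat_lit 2839) (.e (nat_lit 139266) (nat_lit 0) (.e (nat_lit 1642) (nat_lit 114) (.e (nat_lit 385068) (nat_lit 26) (.e (nat_lit 532544) (nat_lit 10) (.e (nat_lit 344133) (nat_lit 26) .nil))))) .nil))) (.nd (nat_lit 6) 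
(.lf (nat_lit 247214) (.g (nat_lit 1580) (.e (nat_lit 139008) (nat_lit 28) (.e (nat_lit 434180) (nat_lit 0) (.e (nat_lit 1427) (nat_lit 108) (.e (nat_lit 336421) (nat_lit 28) (.e (nat_lit 442112) (nat_lit 7) .nil))))) .nil)) 
(.lf (nat_lit 247278) (.g (nat_lit 841) (.e (nat_lit 139276) (nat_lit 2) (.e (nat_lit 16433) (nat_lit 9) (.e (nat_lit 426558) (nat_lit 33) .nil))) .nil)))) (.nd (nat_lit 5) (.nd (nat_lit 6) 
(.lf (nat_lit 247198) (.g (nat_lit 2895) (.e (nat_lit 131140) (nat_lit 27) (.e (nat_lit 426343) (nat_lit 14) (.e (nat_lit 491570) (nat_lit 13) (.e (nat_lit 393238) (nat_lit 17) (.e (nat_lit 7936) (nat_lit 409) .nil))))) (.g (nat_lit 4) .nil .nil))) 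
(.lf (nat_lit 247262) (.g (nat_lit 630) (.e (nat_lit 139273) (nat_lit 0) (.e (nat_lit 1023) (nat_lit 81) (.e (nat_lit 2270) (nat_lit 149) (.e (nat_lit 761866) (nat_lit 5) .nil)))) .nil))) (.nd (nat_lit 6) 
(.lf (nat_lit 247230) (.g (nat_lit 1043) (.e (nat_lit 139008) (nat_lit 32) (.e (nat_lit 466947) (nat_lit 0) (.e (nat_lit 2175) (nat_lit 143) (.e (nat_lit 712749) (nat_lit 28) (.e (nat_lit 442112) (nat_lit 7) .nil))))) .nil)) 
(.lf (nat_lit 247294) (.g (nat_lit 2770) (.e (nat_lit 139276) (nat_lit 2) (.e (nat_lit 16446) (nat_lit 9) (.e (nat_lit 426108) (nat_lit 1) (.e (nat_lit 164195) (nat_lit 158) (.e (nat_lit 1221) (nat_lit 90) (.e (nat_lit 81962) (nat_lit 25) .nil)))))) (.g (nat_lit 6) .nil .nil))))))))) (.nd (nat_lit 1) (.nd (nat_lit 2) (.nd (nat_lit 3) (.nd (nat_lit 4) (.nd (nat_lit 5) (.nd (nat_lit 6) 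
(.lf (nat_lit 247169) (.g (nat_lit 1288) (.e (nat_lit 131140) (nat_lit 27) (.e (nat_lit 426316) (nat_lit 12) (.e (nat_lit 475199) (nat_lit 40) (.e (nat_lit 704846) (nat_lit 15) .nil)))) .nil)) 
(.lf (nat_lit 247233) (.g (nat_lit 847) (.e (nat_lit 139264) (nat_lit 0) (.e (nat_lit 478) (nat_lit 37) (.e (nat_lit 466969) (nat_lit 21) (.e (nat_lit 164195) (nat_lit 158) (.e (nat_lit 1221) (nat_lit 90) .nil))))) .nil))) (.nd (nat_lit 6) 
(.lf (nat_lit 247201) (.g (nat_lit 2700) (.e (nat_lit 131140) (nat_lit 27) (.e (nat_lit 426500) (nat_lit 27) (.e (nat_lit 336087) (nat_lit 9) (.e (nat_lit 336019) (nat_lit 3) (.e (nat_lit 98334) (nat_lit 18) (.e (nat_lit 164159) (nat_lit 152) (.e (nat_lit 1294) (nat_lit 96) .nil))))))) (.g (nat_lit 6) .nil .nil))) 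
(.lf (nat_lit 247265) (.g (nat_lit 527) (.e (nat_lit 139273) (nat_lit 0) (.e (nat_lit 1181) (nat_lit 87) (.e (nat_lit 57680) (nat_lit 155) .nil))) .nil)))) (.nd (nat_lit 5) (.nd (nat_lit 6) 
(.lf (nat_lit 247185) (.g (nat_lit 2208) (.e (nat_lit 131140) (nat_lit 27) (.e (nat_lit 426341) (nat_lit 14) (.e (nat_lit 491550) (nat_lit 9) (.e (nat_lit 336421) (nat_lit 28) (.e (nat_lit 442112) (nat_lit 7) .nil))))) (.g (nat_lit 4) .nil .nil))) 
(.lf (nat_lit 247249) (.g (nat_lit 1805) (.e (nat_lit 139266) (nat_lit 0) (.e (nat_lit 1669) (nat_lit 116) (.e (nat_lit 401438) (nat_lit 9) (.e (nat_lit 426568) (nat_lit 34) .nil)))) .nil))) (.nd (nat_lit 6) 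
(.lf (nat_lit 247217) (.g (nat_lit 858) (.e (nat_lit 139008) (nat_lit 28) (.e (nat_lit 434180) (nat_lit 0) (.e (nat_lit 1661) (nat_lit 115) (.e (nat_lit 393242) (nat_lit 17) .nil)))) .nil)) 
(.lf (nat_lit 247281) (.g (nat_lit 808) (.e (nat_lit 139276) (nat_lit 2) (.e (nat_lit 16436) (nat_lit 9) (.e (nat_lit 426111) (nat_lit 1) .nil))) .nil))))) (.nd (nat_lit 4) (.nd (nat_lit 5) (.nd (nat_lit 6) 
(.lf (nat_lit 247177) (.g (nat_lit 2564) (.e (nat_lit 131140) (nat_lit 27) (.e (nat_lit 426316) (nat_lit 12) (.e (nat_lit 475211) (nat_lit 41) (.e (nat_lit 712749) (nat_lit 28) (.e (nat_lit 442112) (nat_lit 7) .nil))))) (.g (nat_lit 4) .nil .nil))) 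
(.lf (nat_lit 247241) (.g (nat_lit 1754) (.e (nat_lit 139266) (nat_lit 0) (.e (nat_lit 1589) (nat_lit 111) (.e (nat_lit 360451) (nat_lit 0) (.e (nat_lit 7710) (nat_lit 414) (.e (nat_lit 163919) (nat_lit 14) .nil))))) .nil))) (.nd (nat_lit 6) 
(.lf (nat_lit 247209) (.g (nat_lit 1276) (.e (nat_lit 139008) (nat_lit 27) (.e (nat_lit 426318) (nat_lit 12) (.e (nat_lit 475211) (nat_lit 41) (.e (nat_lit 712749) (nat_lit 28) (.e (nat_lit 442112) (nat_lit 7) .nil))))) .nil)) 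
(.lf (nat_lit 247273) (.g (nat_lit 1662) (.e (nat_lit 139276) (nat_lit 2) (.e (nat_lit 16392) (nat_lit 0) (.e (nat_lit 7107) (nat_lit 380) (.e (nat_lit 164108) (nat_lit 116) .nil)))) .nil)))) (.nd (nat_lit 5) (.nd (nat_lit 6) 
(.lf (nat_lit 247193) (.g (nat_lit 2350) (.e (nat_lit 131140) (nat_lit 27) (.e (nat_lit 426343) (nat_lit 14) (.e (nat_lit 491549) (nat_lit 9) (.e (nat_lit 336421) (nat_lit 28) (.e (nat_lit 442112) (nat_lit 7) .nil))))) (.g (nat_lit 4) .nil .nil))) 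
(.lf (nat_lit 247257) (.g (nat_lit 1589) (.e (nat_lit 139271) (nat_lit 0) (.e (nat_lit 1181) (nat_lit 87) (.e (nat_lit 57681) (nat_lit 155) (.e (nat_lit 122925) (nat_lit 19) .nil)))) .nil))) (.nd (nat_lit 6) 
(.lf (nat_lit 247225) (.g (nat_lit 1837) (.e (nat_lit 139008) (nat_lit 29) (.e (nat_lit 442379) (nat_lit 0) (.e (nat_lit 2059) (nat_lit 142) (.e (nat_lit 704595) (nat_lit 5) (.e (nat_lit 188160) (nat_lit 39) .nil))))) .nil)) 
(.lf (nat_lit 247289) (.g (nat_lit 745) (.e (nat_lit 139276) (nat_lit 2) (.e (nat_lit 16444) (nat_lit 9) (.e (nat_lit 426110) (nat_lit 1) (.e (nat_lit 164195) (nat_lit 158) .nil)))) .nil)))))) (.nd (nat_lit 3) (.nd (nat_lit 4) (.nd (nat_lit 5) (.nd (nat_lit 6) 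
(.lf (nat_lit 247173) (.g (nat_lit 862) (.e (nat_lit 131140) (nat_lit 27) (.e (nat_lit 426316) (nat_lit 12) (.e (nat_lit 475208) (nat_lit 41) .nil))) .nil)) 
(.lf (nat_lit 247237) (.g (nat_lit 947) (.e (nat_lit 139265) (nat_lit 0) (.e (nat_lit 1315) (nat_lit 98) (.e (nat_lit 147467) (nat_lit 9) (.e (nat_lit 348) (nat_lit 28) .nil)))) .nil))) (.nd (nat_lit 6) 
(.lf (nat_lit 247205) (.g (nat_lit 2071) (.e (nat_lit 131140) (nat_lit 27) (.e (nat_lit 426500) (nat_lit 27) (.e (nat_lit 336184) (nat_lit 11) (.e (nat_lit 368676) (nat_lit 21) (.e (nat_lit 516117) (nat_lit 1) (.e (nat_lit 164159) (nat_lit 152) (.e (nat_lit 1294) (nat_lit 96) .nil))))))) (.g (nat_lit 5) .nil .nil))) 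
(.lf (nat_lit 247269) (.g (nat_lit 1131) (.e (nat_lit 139273) (nat_lit 0) (.e (nat_lit 1587) (nat_lit 111) (.e (nat_lit 360451) (nat_lit 0) (.e (nat_lit 7710) (nat_lit 414) .nil)))) .nil)))) (.nd (nat_lit 5) (.nd (nat_lit 6) 
(.lf (nat_lit 247189) (.g (nat_lit 1422) (.e (nat_lit 131140) (nat_lit 27) (.e (nat_lit 426341) (nat_lit 14) (.e (nat_lit 491571) (nat_lit 13) (.e (nat_lit 393235) (nat_lit 17) .nil)))) .nil)) 
(.lf (nat_lit 247253) (.g (nat_lit 1015) (.e (nat_lit 139271) (nat_lit 0) (.e (nat_lit 1181) (nat_lit 87) (.e (nat_lit 57653) (nat_lit 152) (.e (nat_lit 1089) (nat_lit 81) .nil)))) .nil))) (.nd (nat_lit 6) 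
(.lf (nat_lit 247221) (.g (nat_lit 1525) (.e (nat_lit 139008) (nat_lit 28) (.e (nat_lit 434181) (nat_lit 0) (.e (nat_lit 1428) (nat_lit 108) (.e (nat_lit 336421) (nat_lit 28) (.e (nat_lit 442112) (nat_lit 7) .nil))))) .nil)) 
(.lf (nat_lit 247285) (.g (nat_lit 1909) (.e (nat_lit 139276) (nat_lit 2) (.e (nat_lit 16437) (nat_lit 9) (.e (nat_lit 426112) (nat_lit 1) (.e (nat_lit 164196) (nat_lit 158) (.e (nat_lit 1221) (nat_lit 90) (.e (nat_lit 81962) (nat_lit 25) .nil)))))) (.g (nat_lit 6) .nil .nil)))))) (.nd (nat_lit 4) (.nd (nat_lit 5) (.nd (nat_lit 6) 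
(.lf (nat_lit 247181) (.g (nat_lit 1223) (.e (nat_lit 131140) (nat_lit 27) (.e (nat_lit 426316) (nat_lit 12) (.e (nat_lit 475219) (nat_lit 44) (.e (nat_lit 737286) (nat_lit 0) .nil)))) .nil)) 
(.lf (nat_lit 247245) (.g (nat_lit 2159) (.e (nat_lit 139266) (nat_lit 0) (.e (nat_lit 1642) (nat_lit 114) (.e (nat_lit 385068) (nat_lit 26) (.e (nat_lit 532543) (nat_lit 10) .nil)))) .nil))) (.nd (nat_lit 6) 
(.lf (nat_lit 247213) (.g (nat_lit 477) (.e (nat_lit 139008) (nat_lit 28) (.e (nat_lit 434180) (nat_lit 0) (.e (nat_lit 1426) (nat_lit 108) (.e (nat_lit 336421) (nat_lit 28) .nil)))) .nil)) 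
(.lf (nat_lit 247277) (.g (nat_lit 1485) (.e (nat_lit 139276) (nat_lit 2) (.e (nat_lit 16431) (nat_lit 9) (.e (nat_lit 426109) (nat_lit 1) (.e (nat_lit 164195) (nat_lit 158) .nil)))) .nil)))) (.nd (nat_lit 5) (.nd (nat_lit 6) 
(.lf (nat_lit 247197) (.g (nat_lit 2871) (.e (nat_lit 131140) (nat_lit 27) (.e (nat_lit 426343) (nat_lit 14) (.e (nat_lit 491570) (nat_lit 13) (.e (nat_lit 393238) (nat_lit 17) (.e (nat_lit 7600) (nat_lit 409) .nil))))) (.g (nat_lit 5) .nil .nil))) 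
(.lf (nat_lit 247261) (.g (nat_lit 1820) (.e (nat_lit 139272) (nat_lit 0) (.e (nat_lit 1524) (nat_lit 108) (.e (nat_lit 336076) (nat_lit 9) (.e (nat_lit 336456) (nat_lit 34) (.e (nat_lit 483350) (nat_lit 17) .nil))))) .nil))) (.nd (nat_lit 6) 
(.lf (nat_lit 247229) (.g (nat_lit 1032) (.e (nat_lit 139008) (nat_lit 32) (.e (nat_lit 466947) (nat_lit 0) (.e (nat_lit 2175) (nat_lit 143) (.e (nat_lit 712747) (nat_lit 28) (.e (nat_lit 442112) (nat_lit 7) .nil))))) .nil)) 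
(.lf (nat_lit 247293) (.g (nat_lit 1553) (.e (nat_lit 139276) (nat_lit 2) (.e (nat_lit 16446) (nat_lit 9) (.e (nat_lit 426108) (nat_lit 1) (.e (nat_lit 164195) (nat_lit 158) .nil)))) .nil))))))) (.nd (nat_lit 2) (.nd (nat_lit 3) (.nd (nat_lit 4) (.nd (nat_lit 5) (.nd (nat_lit 6) 
(.lf (nat_lit 247171) (.g (nat_lit 757) (.e (nat_lit 131140) (nat_lit 27) (.e (nat_lit 426316) (nat_lit 12) (.e (nat_lit 475201) (nat_lit 40) (.e (nat_lit 704839) (nat_lit 15) .nil)))) .nil)) 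
(.lf (nat_lit 247235) (.g (nat_lit 474) (.e (nat_lit 139264) (nat_lit 0) (.e (nat_lit 1183) (nat_lit 87) (.e (nat_lit 57857) (nat_lit 254) .nil))) .nil))) (.nd (nat_lit 6) 
(.lf (nat_lit 247203) (.g (nat_lit 3095) (.e (nat_lit 131140) (nat_lit 27) (.e (nat_lit 426500) (nat_lit 27) (.e (nat_lit 336088) (nat_lit 9) (.e (nat_lit 336019) (nat_lit 3) (.e (nat_lit 98334) (nat_lit 18) (.e (nat_lit 164159) (nat_lit 152) (.e (nat_lit 1294) (nat_lit 96) .nil))))))) (.g (nat_lit 6) .nil .nil))) 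
(.lf (nat_lit 247267) (.g (nat_lit 903) (.e (nat_lit 139273) (nat_lit 0) (.e (nat_lit 1181) (nat_lit 87) (.e (nat_lit 57682) (nat_lit 155) (.e (nat_lit 122925) (nat_lit 19) .nil)))) .nil)))) (.nd (nat_lit 5) (.nd (nat_lit 6) 
(.lf (nat_lit 247187) (.g (nat_lit 2603) (.e (nat_lit 131140) (nat_lit 27) (.e (nat_lit 426341) (nat_lit 14) (.e (nat_lit 491570) (nat_lit 13) (.e (nat_lit 393238) (nat_lit 17) (.e (nat_lit 7600) (nat_lit 409) .nil))))) (.g (nat_lit 5) .nil .nil))) 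
(.lf (nat_lit 247251) (.g (nat_lit 132) (.e (nat_lit 139268) (nat_lit 0) (.e (nat_lit 991) (nat_lit 81) (.e (nat_lit 2363) (nat_lit 153) .nil))) .nil))) (.nd (nat_lit 6) 
(.lf (nat_lit 247219) (.g (nat_lit 757) (.e (nat_lit 139008) (nat_lit 28) (.e (nat_lit 434181) (nat_lit 0) (.e (nat_lit 1426) (nat_lit 108) (.e (nat_lit 336421) (nat_lit 28) (.e (nat_lit 442112) (nat_lit 7) .nil))))) .nil)) 
(.lf (nat_lit 247283) (.g (nat_lit 2115) (.e (nat_lit 139276) (nat_lit 2) (.e (nat_lit 16436) (nat_lit 9) (.e (nat_lit 426112) (nat_lit 1) (.e (nat_lit 164195) (nat_lit 158) (.e (nat_lit 1221) (nat_lit 90) (.e (nat_lit 81962) (nat_lit 25) .nil)))))) (.g (nat_lit 6) .nil .nil)))))) (.nd (nat_lit 4) (.nd (nat_lit 5) (.nd (nat_lit 6) 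
(.lf (nat_lit 247179) (.g (nat_lit 1019) (.e (nat_lit 131140) (nat_lit 27) (.e (nat_lit 426316) (nat_lit 12) (.e (nat_lit 475217) (nat_lit 44) .nil))) .nil)) 
(.lf (nat_lit 247243) (.g (nat_lit 464) (.e (nat_lit 139266) (nat_lit 0) (.e (nat_lit 1595) (nat_lit 111) (.e (nat_lit 360493) (nat_lit 27) .nil))) .nil))) (.nd (nat_lit 6) 
(.lf (nat_lit 247211) (.g (nat_lit 1113) (.e (nat_lit 139008) (nat_lit 27) (.e (nat_lit 426340) (nat_lit 14) (.e (nat_lit 491550) (nat_lit 9) (.e (nat_lit 336421) (nat_lit 28) (.e (nat_lit 442112) (nat_lit 7) .nil))))) .nil)) 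
(.lf (nat_lit 247275) (.g (nat_lit 389) (.e (nat_lit 139276) (nat_lit 2) (.e (nat_lit 16396) (nat_lit 0) (.e (nat_lit 7095) (nat_lit 380) .nil))) .nil)))) (.nd (nat_lit 5) (.nd (nat_lit 6) 
(.lf (nat_lit 247195) (.g (nat_lit 1491) (.e (nat_lit 131140) (nat_lit 27) (.e (nat_lit 426343) (nat_lit 14) (.e (nat_lit 491569) (nat_lit 13) (.e (nat_lit 401152) (nat_lit 17) .nil)))) .nil)) 
(.lf (nat_lit 247259) (.g (nat_lit 2171) (.e (nat_lit 139271) (nat_lit 0) (.e (nat_lit 1425) (nat_lit 108) (.e (nat_lit 336324) (nat_lit 18) (.e (nat_lit 204863) (nat_lit 27) (.e (nat_lit 344133) (nat_lit 26) .nil))))) .nil))) (.nd (nat_lit 6) 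
(.lf (nat_lit 247227) (.g (nat_lit 1052) (.e (nat_lit 139008) (nat_lit 29) (.e (nat_lit 442379) (nat_lit 0) (.e (nat_lit 2175) (nat_lit 143) (.e (nat_lit 712749) (nat_lit 28) (.e (nat_lit 442112) (nat_lit 7) .nil))))) .nil)) 
(.lf (nat_lit 247291) (.g (nat_lit 1296) (.e (nat_lit 139276) (nat_lit 2) (.e (nat_lit 16446) (nat_lit 9) (.e (nat_lit 426099) (nat_lit 1) (.e (nat_lit 164195) (nat_lit 158) (.e (nat_lit 1221) (nat_lit 90) .nil))))) .nil)))))) (.nd (nat_lit 3) (.nd (nat_lit 4) (.nd (nat_lit 5) (.nd (nat_lit 6) 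
(.lf (nat_lit 247175) (.g (nat_lit 1740) (.e (nat_lit 131140) (nat_lit 27) (.e (nat_lit 426316) (nat_lit 12) (.e (nat_lit 475209) (nat_lit 41) (.e (nat_lit 712747) (nat_lit 28) (.e (nat_lit 442112) (nat_lit 7) .nil))))) (.g (nat_lit 4) .nil .nil))) 
(.lf (nat_lit 247239) (.g (nat_lit 823) (.e (nat_lit 139266) (nat_lit 0) (.e (nat_lit 1312) (nat_lit 98) (.e (nat_lit 147494) (nat_lit 11) (.e (nat_lit 24675) (nat_lit 27) (.e (nat_lit 433920) (nat_lit 29) .nil))))) .nil))) (.nd (nat_lit 6) 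
(.lf (nat_lit 247207) (.g (nat_lit 2352) (.e (nat_lit 131140) (nat_lit 27) (.e (nat_lit 426500) (nat_lit 27) (.e (nat_lit 336204) (nat_lit 12) (.e (nat_lit 385074) (nat_lit 31) (.e (nat_lit 573473) (nat_lit 12) (.e (nat_lit 57521) (nat_lit 44) (.e (nat_lit 688189) (nat_lit 20) .nil))))))) (.g (nat_lit 4) .nil .nil))) 
(.lf (nat_lit 247271) (.g (nat_lit 917) (.e (nat_lit 139276) (nat_lit 2) (.e (nat_lit 16384) (nat_lit 0) (.e (nat_lit 7107) (nat_lit 380) (.e (nat_lit 164108) (nat_lit 116) .nil)))) .nil)))) (.nd (nat_lit 5) (.nd (nat_lit 6) 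
(.lf (nat_lit 247191) (.g (nat_lit 2596) (.e (nat_lit 131140) (nat_lit 27) (.e (nat_lit 426341) (nat_lit 14) (.e (nat_lit 491571) (nat_lit 13) (.e (nat_lit 393238) (nat_lit 17) (.e (nat_lit 7936) (nat_lit 409) .nil))))) (.g (nat_lit 4) .nil .nil))) 
(.lf (nat_lit 247255) (.g (nat_lit 499) (.e (nat_lit 139271) (nat_lit 0) (.e (nat_lit 1181) (nat_lit 87) (.e (nat_lit 57680) (nat_lit 155) .nil))) .nil))) (.nd (nat_lit 6) 
(.lf (nat_lit 247223) (.g (nat_lit 1957) (.e (nat_lit 139008) (nat_lit 29) (.e (nat_lit 442374) (nat_lit 0) (.e (nat_lit 2059) (nat_lit 142) (.e (nat_lit 704595) (nat_lit 5) (.e (nat_lit 188160) (nat_lit 39) .nil))))) .nil)) 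
(.lf (nat_lit 247287) (.g (nat_lit 916) (.e (nat_lit 139276) (nat_lit 2) (.e (nat_lit 16438) (nat_lit 9) (.e (nat_lit 426558) (nat_lit 33) (.e (nat_lit 392960) (nat_lit 4) .nil)))) .nil))))) (.nd (nat_lit 4) (.nd (nat_lit 5) (.nd (nat_lit 6) 
(.lf (nat_lit 247183) (.g (nat_lit 1249) (.e (nat_lit 131140) (nat_lit 27) (.e (nat_lit 426338) (nat_lit 14) (.e (nat_lit 491566) (nat_lit 12) (.e (nat_lit 392960) (nat_lit 17) .nil)))) .nil)) 
(.lf (nat_lit 247247) (.g (nat_lit 546) (.e (nat_lit 139266) (nat_lit 0) (.e (nat_lit 1669) (nat_lit 116) (.e (nat_lit 401435) (nat_lit 9) .nil))) .nil))) (.nd (nat_lit 6) 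
(.lf (nat_lit 247215) (.g (nat_lit 1303) (.e (nat_lit 139008) (nat_lit 28) (.e (nat_lit 434180) (nat_lit 0) (.e (nat_lit 1428) (nat_lit 108) (.e (nat_lit 336421) (nat_lit 28) (.e (nat_lit 442112) (nat_lit 7) .nil))))) .nil)) 
(.lf (nat_lit 247279) (.g (nat_lit 886) (.e (nat_lit 139276) (nat_lit 2) (.e (nat_lit 16433) (nat_lit 9) (.e (nat_lit 426571) (nat_lit 35) .nil))) .nil)))) (.nd (nat_lit 5) (.nd (nat_lit 6) 
(.lf (nat_lit 247199) (.g (nat_lit 1925) (.e (nat_lit 131140) (nat_lit 27) (.e (nat_lit 426343) (nat_lit 14) (.e (nat_lit 491570) (nat_lit 13) (.e (nat_lit 393242) (nat_lit 17) .nil)))) .nil)) 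
(.lf (nat_lit 247263) (.g (nat_lit 950) (.e (nat_lit 139273) (nat_lit 0) (.e (nat_lit 1181) (nat_lit 87) (.e (nat_lit 57653) (nat_lit 152) (.e (nat_lit 1089) (nat_lit 81) .nil)))) .nil))) (.nd (nat_lit 6) 
(.lf (nat_lit 247231) (.g (nat_lit 2182) (.e (nat_lit 139264) (nat_lit 0) (.e (nat_lit 459) (nat_lit 34) (.e (nat_lit 442421) (nat_lit 21) (.e (nat_lit 164196) (nat_lit 158) (.e (nat_lit 1221) (nat_lit 90) .nil))))) .nil)) 
(.lf (nat_lit 247295) (.g (nat_lit 1476) (.e (nat_lit 139276) (nat_lit 2) (.e (nat_lit 16448) (nat_lit 10) (.e (nat_lit 434209) (nat_lit 18) (.e (nat_lit 6792) (nat_lit 365) .nil)))) .nil)))))))))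

noncomputable def tv3207 : DT := (.nd (nat_lit 0) (.nd (nat_lit 1) (.nd (nat_lit 2) (.nd (nat_lit 3) (.nd (nat_lit 4) (.nd (nat_lit 5) (.nd (nat_lit 6) 
(.lf (nat_lit 247296) (.g (nat_lit 1301) (.e (nat_lit 139276) (nat_lit 2) (.e (nat_lit 16448) (nat_lit 10) (.e (nat_lit 434295) (nat_lit 49) (.e (nat_lit 745493) (nat_lit 6) (.e (nat_lit 81960) (nat_lit 25) .nil))))) .nil)) 
(.lf (nat_lit 247360) (.g (nat_lit 2738) (.e (nat_lit 139280) (nat_lit 4) (.e (nat_lit 65569) (nat_lit 3) (.e (nat_lit 98342) (nat_lit 20) (.e (nat_lit 221215) (nat_lit 23) (.e (nat_lit 204819) (nat_lit 17) (.e (nat_lit 1994) (nat_lit 137) (.e (nat_lit 663554) (nat_lit 0) (.e (nat_lit 1304) (nat_lit 97) .nil)))))))) (.g (nat_lit 5) .nil .nil)))) (.nd (nat_lit 6) 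
(.lf (nat_lit 247328) (.g (nat_lit 1435) (.e (nat_lit 139277) (nat_lit 3) (.e (nat_lit 57348) (nat_lit 0) (.e (nat_lit 7265) (nat_lit 384) (.e (nat_lit 57445) (nat_lit 19) (.e (nat_lit 401152) (nat_lit 11) (.e (nat_lit 352321) (nat_lit 25) .nil)))))) (.g (nat_lit 4) .nil .nil))) 
(.lf (nat_lit 247392) (.g (nat_lit 4017) (.e (nat_lit 139280) (nat_lit 4) (.e (nat_lit 65610) (nat_lit 10) (.e (nat_lit 344117) (nat_lit 21) (.e (nat_lit 516160) (nat_lit 10) (.e (nat_lit 434268) (nat_lit 36) (.e (nat_lit 639007) (nat_lit 13) (.e (nat_lit 1304) (nat_lit 97) .nil))))))) (.g (nat_lit 7) .nil .nil))))) (.nd (nat_lit 5) (.nd (nat_lit 6) 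
(.lf (nat_lit 247312) (.g (nat_lit 2047) (.e (nat_lit 139276) (nat_lit 2) (.e (nat_lit 16473) (nat_lit 14) (.e (nat_lit 491526) (nat_lit 0) (.e (nat_lit 7936) (nat_lit 152) .nil)))) .nil)) 
(.lf (nat_lit 247376) (.g (nat_lit 1798) (.e (nat_lit 139280) (nat_lit 4) (.e (nat_lit 65591) (nat_lit 9) (.e (nat_lit 336456) (nat_lit 34) (.e (nat_lit 483350) (nat_lit 17) (.e (nat_lit 1996) (nat_lit 137) (.e (nat_lit 663554) (nat_lit 0) (.e (nat_lit 1304) (nat_lit 97) .nil))))))) (.g (nat_lit 4) .nil .nil)))) (.nd (nat_lit 6) 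
(.lf (nat_lit 247344) (.g (nat_lit 2420) (.e (nat_lit 139279) (nat_lit 4) (.e (nat_lit 65571) (nat_lit 3) (.e (nat_lit 98342) (nat_lit 20) (.e (nat_lit 221215) (nat_lit 23) (.e (nat_lit 204819) (nat_lit 17) .nil))))) .nil)) 
(.lf (nat_lit 247408) (.g (nat_lit 744) (.e (nat_lit 139281) (nat_lit 5) (.e (nat_lit 73729) (nat_lit 0) (.e (nat_lit 4017) (nat_lit 244) .nil))) .nil))))) (.nd (nat_lit 4) (.nd (nat_lit 5) (.nd (nat_lit 6) 
(.lf (nat_lit 247304) (.g (nat_lit 1167) (.e (nat_lit 139276) (nat_lit 2) (.e (nat_lit 16471) (nat_lit 14) (.e (nat_lit 491579) (nat_lit 27) (.e (nat_lit 433920) (nat_lit 29) .nil)))) .nil)) 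
(.lf (nat_lit 247368) (.g (nat_lit 1431) (.e (nat_lit 139280) (nat_lit 4) (.e (nat_lit 65571) (nat_lit 3) (.e (nat_lit 98342) (nat_lit 20) (.e (nat_lit 221215) (nat_lit 23) .nil)))) .nil))) (.nd (nat_lit 6) 
(.lf (nat_lit 247336) (.g (nat_lit 2109) (.e (nat_lit 139277) (nat_lit 3) (.e (nat_lit 57521) (nat_lit 44) (.e (nat_lit 688177) (nat_lit 16) (.e (nat_lit 65566) (nat_lit 2) (.e (nat_lit 90176) (nat_lit 15) (.e (nat_lit 196352) (nat_lit 7) .nil)))))) (.g (nat_lit 5) .nil .nil))) 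
(.lf (nat_lit 247400) (.g (nat_lit 939) (.e (nat_lit 139280) (nat_lit 4) (.e (nat_lit 65626) (nat_lit 13) (.e (nat_lit 393221) (nat_lit 0) (.e (nat_lit 7936) (nat_lit 361) .nil)))) .nil)))) (.nd (nat_lit 5) (.nd (nat_lit 6) 
(.lf (nat_lit 247320) (.g (nat_lit 946) (.e (nat_lit 139276) (nat_lit 2) (.e (nat_lit 16473) (nat_lit 14) (.e (nat_lit 499456) (nat_lit 27) (.e (nat_lit 426538) (nat_lit 29) (.e (nat_lit 352321) (nat_lit 25) .nil))))) .nil)) 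
(.lf (nat_lit 247384) (.g (nat_lit 2309) (.e (nat_lit 139280) (nat_lit 4) (.e (nat_lit 65610) (nat_lit 10) (.e (nat_lit 344117) (nat_lit 21) (.e (nat_lit 516159) (nat_lit 10) (.e (nat_lit 434269) (nat_lit 36) (.e (nat_lit 639007) (nat_lit 13) (.e (nat_lit 1304) (nat_lit 97) .nil))))))) (.g (nat_lit 4) .nil .nil)))) (.nd (nat_lit 6) 
(.lf (nat_lit 247352) (.g (nat_lit 1017) (.e (nat_lit 139279) (nat_lit 4) (.e (nat_lit 65637) (nat_lit 15) (.e (nat_lit 3253) (nat_lit 197) (.e (nat_lit 540416) (nat_lit 10) .nil)))) .nil)) 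
(.lf (nat_lit 247416) (.g (nat_lit 2518) (.e (nat_lit 139281) (nat_lit 5) (.e (nat_lit 73746) (nat_lit 3) (.e (nat_lit 516129) (nat_lit 3) (.e (nat_lit 221215) (nat_lit 23) (.e (nat_lit 204814) (nat_lit 17) (.e (nat_lit 1996) (nat_lit 137) (.e (nat_lit 663554) (nat_lit 0) (.e (nat_lit 1304) (nat_lit 97) .nil)))))))) (.g (nat_lit 4) .nil .nil))))))) 
(.nd (nat_lit 3) (.nd (nat_lit 4) (.nd (nat_lit 5) (.nd (nat_lit 6) 
(.lf (nat_lit 247300) (.g (nat_lit 1093) (.e (nat_lit 139276) (nat_lit 2) (.e (nat_lit 16465) (nat_lit 13) (.e (nat_lit 491264) (nat_lit 15) (.e (nat_lit 475210) (nat_lit 41) (.e (nat_lit 720640) (nat_lit 5) .nil))))) .nil)) 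
(.lf (nat_lit 247364) (.g (nat_lit 1906) (.e (nat_lit 139280) (nat_lit 4) (.e (nat_lit 65571) (nat_lit 3) (.e (nat_lit 98341) (nat_lit 20) (.e (nat_lit 221198) (nat_lit 20) .nil)))) .nil))) (.nd (nat_lit 6) 
(.lf (nat_lit 247332) (.g (nat_lit 475) (.e (nat_lit 139277) (nat_lit 3) (.e (nat_lit 57354) (nat_lit 0) (.e (nat_lit 7270) (nat_lit 385) .nil))) .nil)) 
(.lf (nat_lit 247396) (.g (nat_lit 2762) (.e (nat_lit 139280) (nat_lit 4) (.e (nat_lit 65610) (nat_lit 10) (.e (nat_lit 344117) (nat_lit 21) (.e (nat_lit 516160) (nat_lit 10) (.e (nat_lit 434275) (nat_lit 39) (.e (nat_lit 663580) (nat_lit 9) (.e (nat_lit 7936) (nat_lit 7) .nil))))))) (.g (nat_lit 4) .nil .nil))))) (.nd (nat_lit 5) (.nd (nat_lit 6) 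
(.lf (nat_lit 247316) (.g (nat_lit 1391) (.e (nat_lit 139276) (nat_lit 2) (.e (nat_lit 16473) (nat_lit 14) (.e (nat_lit 491581) (nat_lit 27) (.e (nat_lit 433920) (nat_lit 29) .nil)))) .nil)) 
(.lf (nat_lit 247380) (.g (nat_lit 2316) (.e (nat_lit 139280) (nat_lit 4) (.e (nat_lit 65598) (nat_lit 9) (.e (nat_lit 336028) (nat_lit 3) (.e (nat_lit 98367) (nat_lit 27) (.e (nat_lit 434278) (nat_lit 39) .nil))))) .nil))) (.nd (nat_lit 6) 
(.lf (nat_lit 247348) (.g (nat_lit 1555) (.e (nat_lit 139279) (nat_lit 4) (.e (nat_lit 65630) (nat_lit 14) (.e (nat_lit 401428) (nat_lit 3) (.e (nat_lit 204852) (nat_lit 26) .nil)))) .nil)) 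
(.lf (nat_lit 247412) (.g (nat_lit 1985) (.e (nat_lit 139281) (nat_lit 5) (.e (nat_lit 73746) (nat_lit 3) (.e (nat_lit 516129) (nat_lit 3) (.e (nat_lit 221210) (nat_lit 22) (.e (nat_lit 196660) (nat_lit 12) .nil))))) .nil))))) (.nd (nat_lit 4) (.nd (nat_lit 5) (.nd (nat_lit 6) 
(.lf (nat_lit 247308) (.g (nat_lit 713) (.e (nat_lit 139276) (nat_lit 2) (.e (nat_lit 16473) (nat_lit 14) (.e (nat_lit 491526) (nat_lit 0) .nil))) .nil)) 
(.lf (nat_lit 247372) (.g (nat_lit 1510) (.e (nat_lit 139280) (nat_lit 4) (.e (nat_lit 65583) (nat_lit 7) (.e (nat_lit 319506) (nat_lit 10) (.e (nat_lit 784) (nat_lit 66) (.e (nat_lit 704597) (nat_lit 6) (.e (nat_lit 196352) (nat_lit 7) .nil)))))) (.g (nat_lit 5) .nil .nil)))) (.nd (nat_lit 6) 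
(.lf (nat_lit 247340) (.g (nat_lit 1446) (.e (nat_lit 139278) (nat_lit 3) (.e (nat_lit 57520) (nat_lit 44) (.e (nat_lit 688177) (nat_lit 16) (.e (nat_lit 65566) (nat_lit 2) (.e (nat_lit 90176) (nat_lit 15) .nil))))) .nil)) 
(.lf (nat_lit 247404) (.g (nat_lit 1032) (.e (nat_lit 139280) (nat_lit 4) (.e (nat_lit 65630) (nat_lit 14) (.e (nat_lit 401408) (nat_lit 0) .nil))) .nil)))) (.nd (nat_lit 5) (.nd (nat_lit 6) 
(.lf (nat_lit 247324) (.g (nat_lit 1366) (.e (nat_lit 139277) (nat_lit 3) (.e (nat_lit 57347) (nat_lit 0) (.e (nat_lit 7266) (nat_lit 384) (.e (nat_lit 57445) (nat_lit 19) .nil)))) .nil)) 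
(.lf (nat_lit 247388) (.g (nat_lit 3060) (.e (nat_lit 139280) (nat_lit 4) (.e (nat_lit 65610) (nat_lit 10) (.e (nat_lit 344117) (nat_lit 21) (.e (nat_lit 516159) (nat_lit 10) (.e (nat_lit 434275) (nat_lit 39) (.e (nat_lit 663580) (nat_lit 9) (.e (nat_lit 7936) (nat_lit 7) .nil))))))) (.g (nat_lit 6) .nil .nil)))) (.nd (nat_lit 6) 
(.lf (nat_lit 247356) (.g (nat_lit 1428) (.e (nat_lit 139280) (nat_lit 4) (.e (nat_lit 65569) (nat_lit 3) (.e (nat_lit 98342) (nat_lit 20) (.e (nat_lit 221198) (nat_lit 20) .nil)))) .nil)) 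
(.lf (nat_lit 247420) (.g (nat_lit 1304) (.e (nat_lit 139281) (nat_lit 5) (.e (nat_lit 73746) (nat_lit 3) (.e (nat_lit 516131) (nat_lit 3) (.e (nat_lit 221211) (nat_lit 22) (.e (nat_lit 204544) (nat_lit 4) .nil))))) .nil))))))) (.nd (nat_lit 2) (.nd (nat_lit 3) (.nd (nat_lit 4) (.nd (nat_lit 5) (.nd (nat_lit 6) 
(.lf (nat_lit 247298) (.g (nat_lit 811) (.e (nat_lit 139276) (nat_lit 2) (.e (nat_lit 16454) (nat_lit 11) (.e (nat_lit 458774) (nat_lit 18) (.e (nat_lit 6791) (nat_lit 365) .nil)))) .nil)) 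
(.lf (nat_lit 247362) (.g (nat_lit 2832) (.e (nat_lit 139280) (nat_lit 4) (.e (nat_lit 65571) (nat_lit 3) (.e (nat_lit 98313) (nat_lit 9) (.e (nat_lit 336027) (nat_lit 3) (.e (nat_lit 98323) (nat_lit 17) .nil))))) .nil))) (.nd (nat_lit 6) 
(.lf (nat_lit 247330) (.g (nat_lit 1282) (.e (nat_lit 139277) (nat_lit 3) (.e (nat_lit 57352) (nat_lit 0) (.e (nat_lit 7261) (nat_lit 384) (.e (nat_lit 57445) (nat_lit 19) (.e (nat_lit 401152) (nat_lit 11) .nil))))) .nil)) 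
(.lf (nat_lit 247394) (.g (nat_lit 3675) (.e (nat_lit 139280) (nat_lit 4) (.e (nat_lit 65610) (nat_lit 10) (.e (nat_lit 344117) (nat_lit 21) (.e (nat_lit 516160) (nat_lit 10) (.e (nat_lit 434269) (nat_lit 36) (.e (nat_lit 639008) (nat_lit 13) (.e (nat_lit 1304) (nat_lit 97) .nil))))))) (.g (nat_lit 7) .nil .nil))))) (.nd (nat_lit 5) (.nd (nat_lit 6) 
(.lf (nat_lit 247314) (.g (nat_lit 1700) (.e (nat_lit 139276) (nat_lit 2) (.e (nat_lit 16473) (nat_lit 14) (.e (nat_lit 491579) (nat_lit 27) (.e (nat_lit 433920) (nat_lit 29) .nil)))) .nil)) 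
(.lf (nat_lit 247378) (.g (nat_lit 1387) (.e (nat_lit 139280) (nat_lit 4) (.e (nat_lit 65598) (nat_lit 9) (.e (nat_lit 336028) (nat_lit 3) (.e (nat_lit 98366) (nat_lit 27) .nil)))) .nil))) (.nd (nat_lit 6) 
(.lf (nat_lit 247346) (.g (nat_lit 499) (.e (nat_lit 139279) (nat_lit 4) (.e (nat_lit 65627) (nat_lit 13) (.e (nat_lit 401152) (nat_lit 15) .nil))) .nil)) 
(.lf (nat_lit 247410) (.g (nat_lit 1138) (.e (nat_lit 139281) (nat_lit 5) (.e (nat_lit 73746) (nat_lit 3) (.e (nat_lit 516129) (nat_lit 3) (.e (nat_lit 221210) (nat_lit 22) .nil)))) .nil))))) (.nd (nat_lit 4) (.nd (nat_lit 5) (.nd (nat_lit 6) 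
(.lf (nat_lit 247306) (.g (nat_lit 1491) (.e (nat_lit 139276) (nat_lit 2) (.e (nat_lit 16472) (nat_lit 14) (.e (nat_lit 491579) (nat_lit 27) (.e (nat_lit 433920) (nat_lit 29) .nil)))) .nil)) 
(.lf (nat_lit 247370) (.g (nat_lit 1141) (.e (nat_lit 139280) (nat_lit 4) (.e (nat_lit 65583) (nat_lit 7) (.e (nat_lit 319499) (nat_lit 10) (.e (nat_lit 730) (nat_lit 66) (.e (nat_lit 704598) (nat_lit 6) (.e (nat_lit 196352) (nat_lit 7) .nil)))))) (.g (nat_lit 5) .nil .nil)))) (.nd (nat_lit 6) 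
(.lf (nat_lit 247338) (.g (nat_lit 1619) (.e (nat_lit 139277) (nat_lit 3) (.e (nat_lit 57569) (nat_lit 53) (.e (nat_lit 761866) (nat_lit 5) (.e (nat_lit 1656) (nat_lit 115) (.e (nat_lit 401152) (nat_lit 11) .nil))))) .nil)) 
(.lf (nat_lit 247402) (.g (nat_lit 501) (.e (nat_lit 139280) (nat_lit 4) (.e (nat_lit 65627) (nat_lit 13) (.e (nat_lit 393223) (nat_lit 0) .nil))) .nil)))) (.nd (nat_lit 5) (.nd (nat_lit 6) 
(.lf (nat_lit 247322) (.g (nat_lit 805) (.e (nat_lit 139277) (nat_lit 3) (.e (nat_lit 57347) (nat_lit 0) (.e (nat_lit 7261) (nat_lit 384) (.e (nat_lit 57446) (nat_lit 19) .nil)))) .nil)) 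
(.lf (nat_lit 247386) (.g (nat_lit 3738) (.e (nat_lit 139280) (nat_lit 4) (.e (nat_lit 65610) (nat_lit 10) (.e (nat_lit 344117) (nat_lit 21) (.e (nat_lit 516159) (nat_lit 10) (.e (nat_lit 434275) (nat_lit 39) (.e (nat_lit 663574) (nat_lit 9) (.e (nat_lit 134) (nat_lit 7) .nil))))))) (.g (nat_lit 7) .nil .nil)))) (.nd (nat_lit 6) 
(.lf (nat_lit 247354) (.g (nat_lit 529) (.e (nat_lit 139280) (nat_lit 4) (.e (nat_lit 65568) (nat_lit 2) (.e (nat_lit 98048) (nat_lit 2) .nil))) .nil)) 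
(.lf (nat_lit 247418) (.g (nat_lit 1229) (.e (nat_lit 139281) (nat_lit 5) (.e (nat_lit 73746) (nat_lit 3) (.e (nat_lit 516131) (nat_lit 3) (.e (nat_lit 221196) (nat_lit 20) .nil)))) .nil)))))) (.nd (nat_lit 3) (.nd (nat_lit 4) (.nd (nat_lit 5) (.nd (nat_lit 6) 
(.lf (nat_lit 247302) (.g (nat_lit 1361) (.e (nat_lit 139276) (nat_lit 2) (.e (nat_lit 16470) (nat_lit 14) (.e (nat_lit 491579) (nat_lit 27) .nil))) .nil)) 
(.lf (nat_lit 247366) (.g (nat_lit 732) (.e (nat_lit 139280) (nat_lit 4) (.e (nat_lit 65571) (nat_lit 3) (.e (nat_lit 98342) (nat_lit 20) .nil))) .nil))) (.nd (nat_lit 6) 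
(.lf (nat_lit 247334) (.g (nat_lit 1287) (.e (nat_lit 139277) (nat_lit 3) (.e (nat_lit 57520) (nat_lit 44) (.e (nat_lit 688177) (nat_lit 16) (.e (nat_lit 65569) (nat_lit 3) .nil)))) .nil)) 
(.lf (nat_lit 247398) (.g (nat_lit 427) (.e (nat_lit 139280) (nat_lit 4) (.e (nat_lit 65625) (nat_lit 13) (.e (nat_lit 393223) (nat_lit 0) .nil))) .nil)))) (.nd (nat_lit 5) (.nd (nat_lit 6) 
(.lf (nat_lit 247318) (.g (nat_lit 1345) (.e (nat_lit 139276) (nat_lit 2) (.e (nat_lit 16473) (nat_lit 14) (.e (nat_lit 491583) (nat_lit 27) .nil))) .nil)) 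
(.lf (nat_lit 247382) (.g (nat_lit 1473) (.e (nat_lit 139280) (nat_lit 4) (.e (nat_lit 65610) (nat_lit 10) (.e (nat_lit 344117) (nat_lit 21) (.e (nat_lit 516159) (nat_lit 10) .nil)))) .nil))) (.nd (nat_lit 6) 
(.lf (nat_lit 247350) (.g (nat_lit 1328) (.e (nat_lit 139279) (nat_lit 4) (.e (nat_lit 65637) (nat_lit 15) (.e (nat_lit 3253) (nat_lit 197) (.e (nat_lit 532543) (nat_lit 10) .nil)))) .nil)) 
(.lf (nat_lit 247414) (.g (nat_lit 3913) (.e (nat_lit 139281) (nat_lit 5) (.e (nat_lit 73746) (nat_lit 3) (.e (nat_lit 516129) (nat_lit 3) (.e (nat_lit 221214) (nat_lit 23) (.e (nat_lit 204819) (nat_lit 17) (.e (nat_lit 1996) (nat_lit 137) (.e (nat_lit 663554) (nat_lit 0) (.e (nat_lit 1304) (nat_lit 97) .nil)))))))) (.g (nat_lit 0) .nil .nil)))))) 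
(.nd (nat_lit 4) (.nd (nat_lit 5) (.nd (nat_lit 6) 
(.lf (nat_lit 247310) (.g (nat_lit 2380) (.e (nat_lit 139276) (nat_lit 2) (.e (nat_lit 16473) (nat_lit 14) (.e (nat_lit 491526) (nat_lit 0) (.e (nat_lit 2346) (nat_lit 151) .nil)))) .nil)) 
(.lf (nat_lit 247374) (.g (nat_lit 908) (.e (nat_lit 139280) (nat_lit 4) (.e (nat_lit 65589) (nat_lit 9) (.e (nat_lit 336450) (nat_lit 33) (.e (nat_lit 483072) (nat_lit 4) .nil)))) .nil))) (.nd (nat_lit 6) 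
(.lf (nat_lit 247342) (.g (nat_lit 2163) (.e (nat_lit 139278) (nat_lit 3) (.e (nat_lit 57520) (nat_lit 44) (.e (nat_lit 688178) (nat_lit 16) (.e (nat_lit 65571) (nat_lit 3) (.e (nat_lit 98369) (nat_lit 28) .nil))))) .nil)) 
(.lf (nat_lit 247406) (.g (nat_lit 1790) (.e (nat_lit 139280) (nat_lit 4) (.e (nat_lit 65630) (nat_lit 14) (.e (nat_lit 401428) (nat_lit 3) (.e (nat_lit 204863) (nat_lit 27) .nil)))) .nil)))) (.nd (nat_lit 5) (.nd (nat_lit 6) 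
(.lf (nat_lit 247326) (.g (nat_lit 2337) (.e (nat_lit 139277) (nat_lit 3) (.e (nat_lit 57347) (nat_lit 0) (.e (nat_lit 7266) (nat_lit 384) (.e (nat_lit 57447) (nat_lit 19) (.e (nat_lit 401152) (nat_lit 11) .nil))))) .nil)) 
(.lf (nat_lit 247390) (.g (nat_lit 2796) (.e (nat_lit 139280) (nat_lit 4) (.e (nat_lit 65610) (nat_lit 10) (.e (nat_lit 344117) (nat_lit 21) (.e (nat_lit 516160) (nat_lit 10) (.e (nat_lit 434266) (nat_lit 35) .nil))))) .nil))) (.nd (nat_lit 6) 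
(.lf (nat_lit 247358) (.g (nat_lit 958) (.e (nat_lit 139280) (nat_lit 4) (.e (nat_lit 65569) (nat_lit 3) (.e (nat_lit 98342) (nat_lit 20) (.e (nat_lit 221212) (nat_lit 22) .nil)))) .nil)) 
(.lf (nat_lit 247422) (.g (nat_lit 1576) (.e (nat_lit 139281) (nat_lit 5) (.e (nat_lit 73746) (nat_lit 3) (.e (nat_lit 516131) (nat_lit 3) (.e (nat_lit 221212) (nat_lit 22) (.e (nat_lit 196625) (nat_lit 9) (.e (nat_lit 1004) (nat_lit 81) (.e (nat_lit 1996) (nat_lit 137) (.e (nat_lit 663554) (nat_lit 0) (.e (nat_lit 1303) (nat_lit 97) .nil))))))))) (.g (nat_lit 4) .nil .nil))))))))) 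
(.nd (nat_lit 1) (.nd (nat_lit 2) (.nd (nat_lit 3) (.nd (nat_lit 4) (.nd (nat_lit 5) 
(.nd (nat_lit 6) 
(.lf (nat_lit 247297) (.g (nat_lit 827) (.e (nat_lit 139276) (nat_lit 2) (.e (nat_lit 16449) (nat_lit 10) (.e (nat_lit 434295) (nat_lit 49) (.e (nat_lit 745493) (nat_lit 6) .nil)))) .nil)) 
(.lf (nat_lit 247361) (.g (nat_lit 2556) (.e (nat_lit 139280) (nat_lit 4) (.e (nat_lit 65569) (nat_lit 3) (.e (nat_lit 98342) (nat_lit 20) (.e (nat_lit 221215) (nat_lit 23) (.e (nat_lit 204819) (nat_lit 17) (.e (nat_lit 1996) (nat_lit 137) (.e (nat_lit 663554) (nat_lit 0) (.e (nat_lit 1304) (nat_lit 97) .nil)))))))) (.g (nat_lit 5) .nil .nil)))) (.nd (nat_lit 6) 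
(.lf (nat_lit 247329) (.g (nat_lit 966) (.e (nat_lit 139277) (nat_lit 3) (.e (nat_lit 57348) (nat_lit 0) (.e (nat_lit 7265) (nat_lit 384) (.e (nat_lit 57446) (nat_lit 19) (.e (nat_lit 401152) (nat_lit 11) .nil))))) .nil)) 
(.lf (nat_lit 247393) (.g (nat_lit 2953) (.e (nat_lit 139280) (nat_lit 4) (.e (nat_lit 65610) (nat_lit 10) (.e (nat_lit 344117) (nat_lit 21) (.e (nat_lit 516160) (nat_lit 10) (.e (nat_lit 434269) (nat_lit 36) (.e (nat_lit 639007) (nat_lit 13) (.e (nat_lit 1304) (nat_lit 97) .nil))))))) (.g (nat_lit 4) .nil .nil))))) (.nd (nat_lit 5) (.nd (nat_lit 6) 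
(.lf (nat_lit 247313) (.g (nat_lit 992) (.e (nat_lit 139276) (nat_lit 2) (.e (nat_lit 16473) (nat_lit 14) (.e (nat_lit 491543) (nat_lit 6) .nil))) .nil)) 
(.lf (nat_lit 247377) (.g (nat_lit 4068) (.e (nat_lit 139280) (nat_lit 4) (.e (nat_lit 65598) (nat_lit 9) (.e (nat_lit 336013) (nat_lit 2) (.e (nat_lit 90134) (nat_lit 9) (.e (nat_lit 2978) (nat_lit 185) .nil))))) .nil))) (.nd (nat_lit 6) 
(.lf (nat_lit 247345) (.g (nat_lit 2042) (.e (nat_lit 139279) (nat_lit 4) (.e (nat_lit 65610) (nat_lit 10) (.e (nat_lit 344117) (nat_lit 21) (.e (nat_lit 516160) (nat_lit 10) .nil)))) .nil)) 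
(.lf (nat_lit 247409) (.g (nat_lit 440) (.e (nat_lit 139281) (nat_lit 5) (.e (nat_lit 73746) (nat_lit 3) (.e (nat_lit 516124) (nat_lit 2) .nil))) .nil))))) (.nd (nat_lit 4) (.nd (nat_lit 5) (.nd (nat_lit 6) 
(.lf (nat_lit 247305) (.g (nat_lit 590) (.e (nat_lit 139276) (nat_lit 2) (.e (nat_lit 16471) (nat_lit 14) (.e (nat_lit 491580) (nat_lit 27) .nil))) .nil)) 
(.lf (nat_lit 247369) (.g (nat_lit 2420) (.e (nat_lit 139280) (nat_lit 4) (.e (nat_lit 65571) (nat_lit 3) (.e (nat_lit 98342) (nat_lit 20) (.e (nat_lit 221215) (nat_lit 23) (.e (nat_lit 204819) (nat_lit 17) .nil))))) .nil))) (.nd (nat_lit 6) 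
(.lf (nat_lit 247337) (.g (nat_lit 1569) (.e (nat_lit 139277) (nat_lit 3) (.e (nat_lit 57521) (nat_lit 44) (.e (nat_lit 688178) (nat_lit 16) (.e (nat_lit 65569) (nat_lit 3) (.e (nat_lit 98369) (nat_lit 28) .nil))))) .nil)) 
(.lf (nat_lit 247401) (.g (nat_lit 408) (.e (nat_lit 139280) (nat_lit 4) (.e (nat_lit 65626) (nat_lit 13) (.e (nat_lit 393222) (nat_lit 0) .nil))) .nil)))) (.nd (nat_lit 5) (.nd (nat_lit 6) 
(.lf (nat_lit 247321) (.g (nat_lit 1271) (.e (nat_lit 139276) (nat_lit 2) (.e (nat_lit 16473) (nat_lit 14) (.e (nat_lit 499456) (nat_lit 27) (.e (nat_lit 426542) (nat_lit 29) (.e (nat_lit 352321) (nat_lit 25) .nil))))) .nil)) 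
(.lf (nat_lit 247385) (.g (nat_lit 3092) (.e (nat_lit 139280) (nat_lit 4) (.e (nat_lit 65610) (nat_lit 10) (.e (nat_lit 344117) (nat_lit 21) (.e (nat_lit 516159) (nat_lit 10) (.e (nat_lit 434269) (nat_lit 36) (.e (nat_lit 639008) (nat_lit 13) (.e (nat_lit 1304) (nat_lit 97) .nil))))))) (.g (nat_lit 7) .nil .nil)))) (.nd (nat_lit 6) 
(.lf (nat_lit 247353) (.g (nat_lit 529) (.e (nat_lit 139280) (nat_lit 4) (.e (nat_lit 65568) (nat_lit 2) (.e (nat_lit 98048) (nat_lit 0) .nil))) .nil)) 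
(.lf (nat_lit 247417) (.g (nat_lit 2476) (.e (nat_lit 139281) (nat_lit 5) (.e (nat_lit 73746) (nat_lit 3) (.e (nat_lit 516129) (nat_lit 3) (.e (nat_lit 221215) (nat_lit 23) (.e (nat_lit 204819) (nat_lit 17) .nil))))) .nil)))))) (.nd (nat_lit 3) (.nd (nat_lit 4) (.nd (nat_lit 5) (.nd (nat_lit 6) 
(.lf (nat_lit 247301) (.g (nat_lit 824) (.e (nat_lit 139276) (nat_lit 2) (.e (nat_lit 16468) (nat_lit 13) (.e (nat_lit 491264) (nat_lit 15) (.e (nat_lit 475210) (nat_lit 41) (.e (nat_lit 720640) (nat_lit 5) .nil))))) .nil)) 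
(.lf (nat_lit 247365) (.g (nat_lit 1669) (.e (nat_lit 139280) (nat_lit 4) (.e (nat_lit 65571) (nat_lit 3) (.e (nat_lit 98341) (nat_lit 20) (.e (nat_lit 221215) (nat_lit 23) .nil)))) .nil))) (.nd (nat_lit 6) 
(.lf (nat_lit 247333) (.g (nat_lit 1741) (.e (nat_lit 139277) (nat_lit 3) (.e (nat_lit 57354) (nat_lit 0) (.e (nat_lit 7270) (nat_lit 385) (.e (nat_lit 122892) (nat_lit 3) .nil)))) .nil)) 
(.lf (nat_lit 247397) (.g (nat_lit 2567) (.e (nat_lit 139280) (nat_lit 4) (.e (nat_lit 65610) (nat_lit 10) (.e (nat_lit 344117) (nat_lit 21) (.e (nat_lit 516160) (nat_lit 10) (.e (nat_lit 434276) (nat_lit 39) .nil))))) .nil)))) (.nd (nat_lit 5) (.nd (nat_lit 6) 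
(.lf (nat_lit 247317) (.g (nat_lit 1159) (.e (nat_lit 139276) (nat_lit 2) (.e (nat_lit 16473) (nat_lit 14) (.e (nat_lit 491582) (nat_lit 27) .nil))) .nil)) 
(.lf (nat_lit 247381) (.g (nat_lit 361) (.e (nat_lit 139280) (nat_lit 4) (.e (nat_lit 65610) (nat_lit 10) (.e (nat_lit 344117) (nat_lit 21) .nil))) .nil))) (.nd (nat_lit 6) 
(.lf (nat_lit 247349) (.g (nat_lit 2684) (.e (nat_lit 139279) (nat_lit 4) (.e (nat_lit 65630) (nat_lit 14) (.e (nat_lit 401428) (nat_lit 3) (.e (nat_lit 204863) (nat_lit 27) (.e (nat_lit 344144) (nat_lit 31) .nil))))) .nil)) 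
(.lf (nat_lit 247413) (.g (nat_lit 2744) (.e (nat_lit 139281) (nat_lit 5) (.e (nat_lit 73746) (nat_lit 3) (.e (nat_lit 516129) (nat_lit 3) (.e (nat_lit 221214) (nat_lit 23) (.e (nat_lit 204819) (nat_lit 17) (.e (nat_lit 1996) (nat_lit 137) (.e (nat_lit 663554) (nat_lit 0) (.e (nat_lit 1303) (nat_lit 97) .nil)))))))) (.g (nat_lit 5) .nil .nil)))))) 
(.nd (nat_lit 4) (.nd (nat_lit 5) (.nd (nat_lit 6) 
(.lf (nat_lit 247309) (.g (nat_lit 2382) (.e (nat_lit 139276) (nat_lit 2) (.e (nat_lit 16473) (nat_lit 14) (.e (nat_lit 491526) (nat_lit 0) (.e (nat_lit 992) (nat_lit 81) .nil)))) .nil)) 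
(.lf (nat_lit 247373) (.g (nat_lit 941) (.e (nat_lit 139280) (nat_lit 4) (.e (nat_lit 65586) (nat_lit 7) (.e (nat_lit 319500) (nat_lit 10) (.e (nat_lit 728) (nat_lit 66) .nil)))) .nil))) (.nd (nat_lit 6) 
(.lf (nat_lit 247341) (.g (nat_lit 1029) (.e (nat_lit 139278) (nat_lit 3) (.e (nat_lit 57520) (nat_lit 44) (.e (nat_lit 688178) (nat_lit 16) (.e (nat_lit 65570) (nat_lit 3) .nil)))) .nil)) 
(.lf (nat_lit 247405) (.g (nat_lit 1502) (.e (nat_lit 139280) (nat_lit 4) (.e (nat_lit 65630) (nat_lit 14) (.e (nat_lit 401410) (nat_lit 0) (.e (nat_lit 7936) (nat_lit 219) .nil)))) .nil)))) (.nd (nat_lit 5) (.nd (nat_lit 6) 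
(.lf (nat_lit 247325) (.g (nat_lit 1413) (.e (nat_lit 139277) (nat_lit 3) (.e (nat_lit 57347) (nat_lit 0) (.e (nat_lit 7266) (nat_lit 384) (.e (nat_lit 57446) (nat_lit 19) .nil)))) .nil)) 
(.lf (nat_lit 247389) (.g (nat_lit 1740) (.e (nat_lit 139280) (nat_lit 4) (.e (nat_lit 65610) (nat_lit 10) (.e (nat_lit 344117) (nat_lit 21) (.e (nat_lit 516160) (nat_lit 10) .nil)))) .nil))) (.nd (nat_lit 6) 
(.lf (nat_lit 247357) (.g (nat_lit 1702) (.e (nat_lit 139280) (nat_lit 4) (.e (nat_lit 65569) (nat_lit 3) (.e (nat_lit 98342) (nat_lit 20) (.e (nat_lit 221211) (nat_lit 22) (.e (nat_lit 204544) (nat_lit 4) .nil))))) .nil)) 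
(.lf (nat_lit 247421) (.g (nat_lit 1105) (.e (nat_lit 139281) (nat_lit 5) (.e (nat_lit 73746) (nat_lit 3) (.e (nat_lit 516131) (nat_lit 3) (.e (nat_lit 221212) (nat_lit 22) .nil)))) .nil))))))) (.nd (nat_lit 2) (.nd (nat_lit 3) (.nd (nat_lit 4) (.nd (nat_lit 5) (.nd (nat_lit 6) 
(.lf (nat_lit 247299) (.g (nat_lit 444) (.e (nat_lit 139276) (nat_lit 2) (.e (nat_lit 16459) (nat_lit 12) (.e (nat_lit 475138) (nat_lit 0) .nil))) .nil)) 
(.lf (nat_lit 247363) (.g (nat_lit 960) (.e (nat_lit 139280) (nat_lit 4) (.e (nat_lit 65571) (nat_lit 3) (.e (nat_lit 98341) (nat_lit 20) .nil))) .nil))) (.nd (nat_lit 6) 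
(.lf (nat_lit 247331) (.g (nat_lit 1351) (.e (nat_lit 139277) (nat_lit 3) (.e (nat_lit 57353) (nat_lit 0) (.e (nat_lit 7261) (nat_lit 384) (.e (nat_lit 57445) (nat_lit 19) (.e (nat_lit 401152) (nat_lit 11) .nil))))) .nil)) 
(.lf (nat_lit 247395) (.g (nat_lit 2729) (.e (nat_lit 139280) (nat_lit 4) (.e (nat_lit 65610) (nat_lit 10) (.e (nat_lit 344117) (nat_lit 21) (.e (nat_lit 516160) (nat_lit 10) (.e (nat_lit 434275) (nat_lit 39) (.e (nat_lit 663574) (nat_lit 9) (.e (nat_lit 7936) (nat_lit 7) .nil))))))) (.g (nat_lit 4) .nil .nil))))) (.nd (nat_lit 5) (.nd (nat_lit 6) 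
(.lf (nat_lit 247315) (.g (nat_lit 759) (.e (nat_lit 139276) (nat_lit 2) (.e (nat_lit 16473) (nat_lit 14) (.e (nat_lit 491580) (nat_lit 27) .nil))) .nil)) 
(.lf (nat_lit 247379) (.g (nat_lit 2308) (.e (nat_lit 139280) (nat_lit 4) (.e (nat_lit 65598) (nat_lit 9) (.e (nat_lit 336028) (nat_lit 3) (.e (nat_lit 98367) (nat_lit 27) (.e (nat_lit 434269) (nat_lit 36) .nil))))) .nil))) (.nd (nat_lit 6) 
(.lf (nat_lit 247347) (.g (nat_lit 616) (.e (nat_lit 139279) (nat_lit 4) (.e (nat_lit 65630) (nat_lit 14) (.e (nat_lit 401412) (nat_lit 0) .nil))) .nil)) 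
(.lf (nat_lit 247411) (.g (nat_lit 1894) (.e (nat_lit 139281) (nat_lit 5) (.e (nat_lit 73746) (nat_lit 3) (.e (nat_lit 516129) (nat_lit 3) (.e (nat_lit 221210) (nat_lit 22) (.e (nat_lit 204544) (nat_lit 4) .nil))))) .nil))))) (.nd (nat_lit 4) (.nd (nat_lit 5) (.nd (nat_lit 6) 
(.lf (nat_lit 247307) (.g (nat_lit 1133) (.e (nat_lit 139276) (nat_lit 2) (.e (nat_lit 16473) (nat_lit 14) (.e (nat_lit 491520) (nat_lit 0) .nil))) .nil)) 
(.lf (nat_lit 247371) (.g (nat_lit 1816) (.e (nat_lit 139280) (nat_lit 4) (.e (nat_lit 65583) (nat_lit 7) (.e (nat_lit 319499) (nat_lit 10) (.e (nat_lit 806) (nat_lit 67) (.e (nat_lit 712752) (nat_lit 29) (.e (nat_lit 450304) (nat_lit 7) .nil)))))) (.g (nat_lit 5) .nil .nil)))) (.nd (nat_lit 6) 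
(.lf (nat_lit 247339) (.g (nat_lit 1292) (.e (nat_lit 139277) (nat_lit 3) (.e (nat_lit 57569) (nat_lit 53) (.e (nat_lit 761867) (nat_lit 5) (.e (nat_lit 1656) (nat_lit 115) (.e (nat_lit 401152) (nat_lit 11) .nil))))) .nil)) 
(.lf (nat_lit 247403) (.g (nat_lit 1263) (.e (nat_lit 139280) (nat_lit 4) (.e (nat_lit 65627) (nat_lit 13) (.e (nat_lit 393225) (nat_lit 9) (.e (nat_lit 335906) (nat_lit 0) .nil)))) .nil)))) (.nd (nat_lit 5) (.nd (nat_lit 6) 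
(.lf (nat_lit 247323) (.g (nat_lit 1141) (.e (nat_lit 139277) (nat_lit 3) (.e (nat_lit 57347) (nat_lit 0) (.e (nat_lit 7265) (nat_lit 384) (.e (nat_lit 57406) (nat_lit 12) (.e (nat_lit 336456) (nat_lit 34) .nil))))) .nil)) 
(.lf (nat_lit 247387) (.g (nat_lit 3033) (.e (nat_lit 139280) (nat_lit 4) (.e (nat_lit 65610) (nat_lit 10) (.e (nat_lit 344117) (nat_lit 21) (.e (nat_lit 516159) (nat_lit 10) (.e (nat_lit 434275) (nat_lit 39) (.e (nat_lit 663574) (nat_lit 9) (.e (nat_lit 7936) (nat_lit 7) .nil))))))) (.g (nat_lit 6) .nil .nil)))) (.nd (nat_lit 6) 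
(.lf (nat_lit 247355) (.g (nat_lit 721) (.e (nat_lit 139280) (nat_lit 4) (.e (nat_lit 65569) (nat_lit 3) (.e (nat_lit 98338) (nat_lit 19) (.e (nat_lit 213013) (nat_lit 9) .nil)))) .nil)) 
(.lf (nat_lit 247419) (.g (nat_lit 1447) (.e (nat_lit 139281) (nat_lit 5) (.e (nat_lit 73746) (nat_lit 3) (.e (nat_lit 516131) (nat_lit 3) (.e (nat_lit 221197) (nat_lit 20) (.e (nat_lit 7936) (nat_lit 195) .nil))))) .nil)))))) (.nd (nat_lit 3) (.nd (nat_lit 4) (.nd (nat_lit 5) (.nd (nat_lit 6) 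
(.lf (nat_lit 247303) (.g (nat_lit 2277) (.e (nat_lit 139276) (nat_lit 2) (.e (nat_lit 16470) (nat_lit 14) (.e (nat_lit 491580) (nat_lit 27) (.e (nat_lit 433920) (nat_lit 29) .nil)))) .nil)) 
(.lf (nat_lit 247367) (.g (nat_lit 1481) (.e (nat_lit 139280) (nat_lit 4) (.e (nat_lit 65571) (nat_lit 3) (.e (nat_lit 98342) (nat_lit 20) (.e (nat_lit 221211) (nat_lit 22) .nil)))) .nil))) (.nd (nat_lit 6) 
(.lf (nat_lit 247335) (.g (nat_lit 1242) (.e (nat_lit 139277) (nat_lit 3) (.e (nat_lit 57520) (nat_lit 44) (.e (nat_lit 688177) (nat_lit 16) (.e (nat_lit 65571) (nat_lit 3) .nil)))) .nil)) 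
(.lf (nat_lit 247399) (.g (nat_lit 587) (.e (nat_lit 139280) (nat_lit 4) (.e (nat_lit 65626) (nat_lit 13) (.e (nat_lit 393217) (nat_lit 0) (.e (nat_lit 7936) (nat_lit 361) .nil)))) .nil)))) (.nd (nat_lit 5) (.nd (nat_lit 6) 
(.lf (nat_lit 247319) (.g (nat_lit 750) (.e (nat_lit 139276) (nat_lit 2) (.e (nat_lit 16473) (nat_lit 14) (.e (nat_lit 499456) (nat_lit 27) .nil))) .nil)) 
(.lf (nat_lit 247383) (.g (nat_lit 2256) (.e (nat_lit 139280) (nat_lit 4) (.e (nat_lit 65610) (nat_lit 10) (.e (nat_lit 344117) (nat_lit 21) (.e (nat_lit 516159) (nat_lit 10) (.e (nat_lit 434266) (nat_lit 35) (.e (nat_lit 630809) (nat_lit 13) (.e (nat_lit 1304) (nat_lit 97) .nil))))))) (.g (nat_lit 4) .nil .nil)))) (.nd (nat_lit 6) 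
(.lf (nat_lit 247351) (.g (nat_lit 1321) (.e (nat_lit 139279) (nat_lit 4) (.e (nat_lit 65637) (nat_lit 15) (.e (nat_lit 3253) (nat_lit 197) (.e (nat_lit 532544) (nat_lit 10) .nil)))) .nil)) 
(.lf (nat_lit 247415) (.g (nat_lit 2503) (.e (nat_lit 139281) (nat_lit 5) (.e (nat_lit 73746) (nat_lit 3) (.e (nat_lit 516129) (nat_lit 3) (.e (nat_lit 221215) (nat_lit 23) (.e (nat_lit 204814) (nat_lit 17) .nil))))) .nil))))) (.nd (nat_lit 4) (.nd (nat_lit 5) (.nd (nat_lit 6) 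
(.lf (nat_lit 247311) (.g (nat_lit 2047) (.e (nat_lit 139276) (nat_lit 2) (.e (nat_lit 16473) (nat_lit 14) (.e (nat_lit 491526) (nat_lit 0) (.e (nat_lit 7936) (nat_lit 151) .nil)))) .nil)) 
(.lf (nat_lit 247375) (.g (nat_lit 1824) (.e (nat_lit 139280) (nat_lit 4) (.e (nat_lit 65589) (nat_lit 9) (.e (nat_lit 336456) (nat_lit 34) (.e (nat_lit 483350) (nat_lit 17) (.e (nat_lit 1996) (nat_lit 137) .nil))))) .nil))) (.nd (nat_lit 6) 
(.lf (nat_lit 247343) (.g (nat_lit 3747) (.e (nat_lit 139278) (nat_lit 3) (.e (nat_lit 57570) (nat_lit 54) (.e (nat_lit 770069) (nat_lit 7) (.e (nat_lit 57479) (nat_lit 28) (.e (nat_lit 557105) (nat_lit 14) (.e (nat_lit 180252) (nat_lit 10) (.e (nat_lit 573482) (nat_lit 13) (.e (nat_lit 73472) (nat_lit 5) .nil)))))))) (.g (nat_lit 7) .nil .nil))) 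
(.lf (nat_lit 247407) (.g (nat_lit 759) (.e (nat_lit 139280) (nat_lit 4) (.e (nat_lit 65630) (nat_lit 14) (.e (nat_lit 409344) (nat_lit 34) .nil))) .nil)))) (.nd (nat_lit 5) (.nd (nat_lit 6) 
(.lf (nat_lit 247327) (.g (nat_lit 1387) (.e (nat_lit 139277) (nat_lit 3) (.e (nat_lit 57348) (nat_lit 0) (.e (nat_lit 7261) (nat_lit 384) (.e (nat_lit 57445) (nat_lit 19) (.e (nat_lit 401152) (nat_lit 11) .nil))))) .nil)) 
(.lf (nat_lit 247391) (.g (nat_lit 2723) (.e (nat_lit 139280) (nat_lit 4) (.e (nat_lit 65610) (nat_lit 10) (.e (nat_lit 344117) (nat_lit 21) (.e (nat_lit 516160) (nat_lit 10) (.e (nat_lit 434268) (nat_lit 36) (.e (nat_lit 639005) (nat_lit 13) (.e (nat_lit 1304) (nat_lit 97) .nil))))))) (.g (nat_lit 4) .nil .nil)))) (.nd (nat_lit 6) 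
(.lf (nat_lit 247359) (.g (nat_lit 2253) (.e (nat_lit 139280) (nat_lit 4) (.e (nat_lit 65569) (nat_lit 3) (.e (nat_lit 98342) (nat_lit 20) (.e (nat_lit 221214) (nat_lit 23) (.e (nat_lit 204819) (nat_lit 17) .nil))))) .nil)) 
(.lf (nat_lit 247423) (.g (nat_lit 2080) (.e (nat_lit 139281) (nat_lit 5) (.e (nat_lit 73746) (nat_lit 3) (.e (nat_lit 516131) (nat_lit 3) (.e (nat_lit 221214) (nat_lit 23) (.e (nat_lit 204819) (nat_lit 17) .nil))))) .nil)))))))))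

noncomputable def tv3208 : DT := (.nd (nat_lit 0) (.nd (nat_lit 1) (.nd (nat_lit 2) (.nd (nat_lit 3) (.nd (nat_lit 4) (.nd (nat_lit 5) (.nd (nat_lit 6) 
(.lf (nat_lit 247424) (.g (nat_lit 2625) (.e (nat_lit 139281) (nat_lit 5) (.e (nat_lit 73746) (nat_lit 3) (.e (nat_lit 516131) (nat_lit 3) (.e (nat_lit 221214) (nat_lit 23) (.e (nat_lit 204819) (nat_lit 17) (.e (nat_lit 1996) (nat_lit 137) (.e (nat_lit 663554) (nat_lit 0) (.e (nat_lit 1304) (nat_lit 97) .nil)))))))) (.g (nat_lit 5) .nil .nil))) 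
(.lf (nat_lit 247488) (.g (nat_lit 1026) (.e (nat_lit 139282) (nat_lit 6) (.e (nat_lit 81943) (nat_lit 20) (.e (nat_lit 2391) (nat_lit 156) (.e (nat_lit 819221) (nat_lit 6) (.e (nat_lit 196352) (nat_lit 7) .nil))))) (.g (nat_lit 4) .nil .nil)))) (.nd (nat_lit 6) 
(.lf (nat_lit 247456) (.g (nat_lit 1976) (.e (nat_lit 139281) (nat_lit 5) (.e (nat_lit 73753) (nat_lit 8) (.e (nat_lit 557104) (nat_lit 14) (.e (nat_lit 180252) (nat_lit 10) .nil)))) .nil)) 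
(.lf (nat_lit 247520) (.g (nat_lit 1130) (.e (nat_lit 139286) (nat_lit 9) (.e (nat_lit 3099) (nat_lit 192) (.e (nat_lit 491566) (nat_lit 12) (.e (nat_lit 385072) (nat_lit 31) .nil)))) .nil)))) (.nd (nat_lit 5) (.nd (nat_lit 6) 
(.lf (nat_lit 247440) (.g (nat_lit 2351) (.e (nat_lit 139281) (nat_lit 5) (.e (nat_lit 73753) (nat_lit 8) (.e (nat_lit 557098) (nat_lit 13) (.e (nat_lit 172066) (nat_lit 3) (.e (nat_lit 204809) (nat_lit 9) .nil))))) .nil)) 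
(.lf (nat_lit 247504) (.g (nat_lit 743) (.e (nat_lit 139282) (nat_lit 6) (.e (nat_lit 81956) (nat_lit 23) (.e (nat_lit 98367) (nat_lit 27) .nil))) .nil))) (.nd (nat_lit 6) 
(.lf (nat_lit 247472) (.g (nat_lit 1630) (.e (nat_lit 139281) (nat_lit 5) (.e (nat_lit 73755) (nat_lit 8) (.e (nat_lit 557105) (nat_lit 14) (.e (nat_lit 180252) (nat_lit 10) .nil)))) .nil)) 
(.lf (nat_lit 247536) (.g (nat_lit 2920) (.e (nat_lit 139289) (nat_lit 9) (.e (nat_lit 3102) (nat_lit 192) (.e (nat_lit 491560) (nat_lit 10) (.e (nat_lit 344126) (nat_lit 25) (.e (nat_lit 548873) (nat_lit 5) (.e (nat_lit 1562) (nat_lit 110) (.e (nat_lit 352321) (nat_lit 25) .nil))))))) (.g (nat_lit 4) .nil .nil)))))) (.nd (nat_lit 4) (.nd (nat_lit 5) (.nd (nat_lit 6) 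
(.lf (nat_lit 247432) (.g (nat_lit 2447) (.e (nat_lit 139281) (nat_lit 5) (.e (nat_lit 73747) (nat_lit 3) (.e (nat_lit 516131) (nat_lit 3) (.e (nat_lit 221215) (nat_lit 23) (.e (nat_lit 204814) (nat_lit 17) .nil))))) .nil)) 
(.lf (nat_lit 247496) (.g (nat_lit 513) (.e (nat_lit 139282) (nat_lit 6) (.e (nat_lit 81954) (nat_lit 23) (.e (nat_lit 98367) (nat_lit 27) .nil))) .nil))) (.nd (nat_lit 6) 
(.lf (nat_lit 247464) (.g (nat_lit 1331) (.e (nat_lit 139281) (nat_lit 5) (.e (nat_lit 73754) (nat_lit 8) (.e (nat_lit 557101) (nat_lit 13) (.e (nat_lit 172066) (nat_lit 3) .nil)))) .nil)) 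
(.lf (nat_lit 247528) (.g (nat_lit 2172) (.e (nat_lit 139289) (nat_lit 9) (.e (nat_lit 3100) (nat_lit 192) (.e (nat_lit 491560) (nat_lit 10) (.e (nat_lit 344115) (nat_lit 20) (.e (nat_lit 507907) (nat_lit 0) (.e (nat_lit 5403) (nat_lit 302) (.e (nat_lit 65577) (nat_lit 5) .nil))))))) (.g (nat_lit 4) .nil .nil))))) (.nd (nat_lit 5) (.nd (nat_lit 6) 
(.lf (nat_lit 247448) (.g (nat_lit 2598) (.e (nat_lit 139281) (nat_lit 5) (.e (nat_lit 73753) (nat_lit 8) (.e (nat_lit 557101) (nat_lit 13) (.e (nat_lit 172067) (nat_lit 3) (.e (nat_lit 204809) (nat_lit 9) (.e (nat_lit 433920) (nat_lit 22) .nil)))))) (.g (nat_lit 4) .nil .nil))) 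
(.lf (nat_lit 247512) (.g (nat_lit 395) (.e (nat_lit 147200) (nat_lit 6) (.e (nat_lit 81946) (nat_lit 20) (.e (nat_lit 2390) (nat_lit 156) .nil))) .nil))) (.nd (nat_lit 6) 
(.lf (nat_lit 247480) (.g (nat_lit 940) (.e (nat_lit 139282) (nat_lit 6) (.e (nat_lit 81927) (nat_lit 11) (.e (nat_lit 426408) (nat_lit 15) (.e (nat_lit 6112) (nat_lit 332) .nil)))) .nil)) 
(.lf (nat_lit 247544) (.g (nat_lit 1936) (.e (nat_lit 139299) (nat_lit 18) (.e (nat_lit 1349) (nat_lit 102) (.e (nat_lit 286759) (nat_lit 12) (.e (nat_lit 385074) (nat_lit 31) (.e (nat_lit 573485) (nat_lit 13) .nil))))) .nil)))))) (.nd (nat_lit 3) (.nd (nat_lit 4) (.nd (nat_lit 5) (.nd (nat_lit 6) 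
(.lf (nat_lit 247428) (.g (nat_lit 1365) (.e (nat_lit 139281) (nat_lit 5) (.e (nat_lit 73747) (nat_lit 3) (.e (nat_lit 516129) (nat_lit 3) (.e (nat_lit 221215) (nat_lit 23) .nil)))) .nil)) 
(.lf (nat_lit 247492) (.g (nat_lit 1674) (.e (nat_lit 139282) (nat_lit 6) (.e (nat_lit 81951) (nat_lit 22) (.e (nat_lit 90170) (nat_lit 13) (.e (nat_lit 172049) (nat_lit 0) .nil)))) .nil))) (.nd (nat_lit 6) 
(.lf (nat_lit 247460) (.g (nat_lit 2170) (.e (nat_lit 139281) (nat_lit 5) (.e (nat_lit 73754) (nat_lit 8) (.e (nat_lit 557100) (nat_lit 13) (.e (nat_lit 172065) (nat_lit 3) .nil)))) .nil)) 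
(.lf (nat_lit 247524) (.g (nat_lit 685) (.e (nat_lit 139289) (nat_lit 9) (.e (nat_lit 2600) (nat_lit 163) (.e (nat_lit 164183) (nat_lit 154) (.e (nat_lit 57448) (nat_lit 19) .nil)))) .nil)))) (.nd (nat_lit 5) (.nd (nat_lit 6) 
(.lf (nat_lit 247444) (.g (nat_lit 637) (.e (nat_lit 139281) (nat_lit 5) (.e (nat_lit 73753) (nat_lit 8) (.e (nat_lit 557101) (nat_lit 13) .nil))) .nil)) 
(.lf (nat_lit 247508) (.g (nat_lit 849) (.e (nat_lit 147200) (nat_lit 6) (.e (nat_lit 81938) (nat_lit 20) (.e (nat_lit 2390) (nat_lit 156) (.e (nat_lit 819221) (nat_lit 6) (.e (nat_lit 196352) (nat_lit 7) .nil))))) .nil))) (.nd (nat_lit 6) 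
(.lf (nat_lit 247476) (.g (nat_lit 154) (.e (nat_lit 139281) (nat_lit 5) (.e (nat_lit 73757) (nat_lit 11) (.e (nat_lit 581659) (nat_lit 9) .nil))) .nil)) 
(.lf (nat_lit 247540) (.g (nat_lit 3946) (.e (nat_lit 139289) (nat_lit 9) (.e (nat_lit 3102) (nat_lit 192) (.e (nat_lit 491563) (nat_lit 12) (.e (nat_lit 385072) (nat_lit 31) (.e (nat_lit 573493) (nat_lit 15) .nil))))) .nil))))) (.nd (nat_lit 4) (.nd (nat_lit 5) (.nd (nat_lit 6) 
(.lf (nat_lit 247436) (.g (nat_lit 1473) (.e (nat_lit 139281) (nat_lit 5) (.e (nat_lit 73753) (nat_lit 8) (.e (nat_lit 557097) (nat_lit 13) (.e (nat_lit 172067) (nat_lit 3) .nil)))) .nil)) 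
(.lf (nat_lit 247500) (.g (nat_lit 1801) (.e (nat_lit 139282) (nat_lit 6) (.e (nat_lit 81954) (nat_lit 23) (.e (nat_lit 98367) (nat_lit 27) (.e (nat_lit 434269) (nat_lit 36) .nil)))) .nil))) (.nd (nat_lit 6) 
(.lf (nat_lit 247468) (.g (nat_lit 1897) (.e (nat_lit 139281) (nat_lit 5) (.e (nat_lit 73755) (nat_lit 8) (.e (nat_lit 557098) (nat_lit 13) (.e (nat_lit 172067) (nat_lit 3) .nil)))) .nil)) 
(.lf (nat_lit 247532) (.g (nat_lit 1273) (.e (nat_lit 139289) (nat_lit 9) (.e (nat_lit 3102) (nat_lit 192) (.e (nat_lit 491559) (nat_lit 10) (.e (nat_lit 344126) (nat_lit 25) (.e (nat_lit 556800) (nat_lit 11) (.e (nat_lit 81962) (nat_lit 25) .nil)))))) (.g (nat_lit 4) .nil .nil))))) (.nd (nat_lit 5) (.nd (nat_lit 6) 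
(.lf (nat_lit 247452) (.g (nat_lit 1699) (.e (nat_lit 139281) (nat_lit 5) (.e (nat_lit 73753) (nat_lit 8) (.e (nat_lit 557103) (nat_lit 14) (.e (nat_lit 180244) (nat_lit 5) .nil)))) .nil)) 
(.lf (nat_lit 247516) (.g (nat_lit 1631) (.e (nat_lit 139284) (nat_lit 8) (.e (nat_lit 131105) (nat_lit 9) (.e (nat_lit 336456) (nat_lit 34) (.e (nat_lit 483350) (nat_lit 17) (.e (nat_lit 1994) (nat_lit 137) .nil))))) .nil))) (.nd (nat_lit 6) 
(.lf (nat_lit 247484) (.g (nat_lit 978) (.e (nat_lit 139282) (nat_lit 6) (.e (nat_lit 81935) (nat_lit 20) (.e (nat_lit 2384) (nat_lit 155) (.e (nat_lit 811009) (nat_lit 0) (.e (nat_lit 5772) (nat_lit 316) .nil))))) .nil)) 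
(.lf (nat_lit 247548) (.g (nat_lit 2763) (.e (nat_lit 147456) (nat_lit 0) (.e (nat_lit 1581) (nat_lit 111) (.e (nat_lit 360474) (nat_lit 8) (.e (nat_lit 557091) (nat_lit 12) (.e (nat_lit 163999) (nat_lit 38) .nil))))) .nil))))))) (.nd (nat_lit 2) (.nd (nat_lit 3) (.nd (nat_lit 4) (.nd (nat_lit 5) (.nd (nat_lit 6) 
(.lf (nat_lit 247426) (.g (nat_lit 2557) (.e (nat_lit 139281) (nat_lit 5) (.e (nat_lit 73746) (nat_lit 3) (.e (nat_lit 516131) (nat_lit 3) (.e (nat_lit 221215) (nat_lit 23) (.e (nat_lit 204819) (nat_lit 17) (.e (nat_lit 1994) (nat_lit 137) (.e (nat_lit 663554) (nat_lit 0) (.e (nat_lit 1303) (nat_lit 97) .nil)))))))) (.g (nat_lit 5) .nil .nil))) 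
(.lf (nat_lit 247490) (.g (nat_lit 1122) (.e (nat_lit 139282) (nat_lit 6) (.e (nat_lit 81947) (nat_lit 20) (.e (nat_lit 2391) (nat_lit 156) (.e (nat_lit 819221) (nat_lit 6) (.e (nat_lit 196352) (nat_lit 7) .nil))))) (.g (nat_lit 4) .nil .nil)))) (.nd (nat_lit 6) 
(.lf (nat_lit 247458) (.g (nat_lit 4923) (.e (nat_lit 139281) (nat_lit 5) (.e (nat_lit 73753) (nat_lit 8) (.e (nat_lit 557105) (nat_lit 14) (.e (nat_lit 180252) (nat_lit 10) (.e (nat_lit 573474) (nat_lit 12) (.e (nat_lit 57516) (nat_lit 42) (.e (nat_lit 671748) (nat_lit 0) (.e (nat_lit 1304) (nat_lit 97) .nil)))))))) (.g (nat_lit 0) .nil .nil))) 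
(.lf (nat_lit 247522) (.g (nat_lit 1107) (.e (nat_lit 139287) (nat_lit 9) (.e (nat_lit 3102) (nat_lit 192) (.e (nat_lit 491563) (nat_lit 12) (.e (nat_lit 385073) (nat_lit 31) .nil)))) .nil)))) (.nd (nat_lit 5) (.nd (nat_lit 6) 
(.lf (nat_lit 247442) (.g (nat_lit 2012) (.e (nat_lit 139281) (nat_lit 5) (.e (nat_lit 73753) (nat_lit 8) (.e (nat_lit 557100) (nat_lit 13) (.e (nat_lit 172062) (nat_lit 2) .nil)))) .nil)) 
(.lf (nat_lit 247506) (.g (nat_lit 3201) (.e (nat_lit 139282) (nat_lit 6) (.e (nat_lit 81956) (nat_lit 23) (.e (nat_lit 98367) (nat_lit 27) (.e (nat_lit 434268) (nat_lit 36) (.e (nat_lit 639007) (nat_lit 13) .nil))))) .nil))) (.nd (nat_lit 6) 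
(.lf (nat_lit 247474) (.g (nat_lit 3886) (.e (nat_lit 139281) (nat_lit 5) (.e (nat_lit 73755) (nat_lit 8) (.e (nat_lit 557105) (nat_lit 14) (.e (nat_lit 180252) (nat_lit 10) (.e (nat_lit 573474) (nat_lit 12) (.e (nat_lit 57516) (nat_lit 42) (.e (nat_lit 671748) (nat_lit 0) (.e (nat_lit 1302) (nat_lit 97) .nil)))))))) (.g (nat_lit 7) .nil .nil))) 
(.lf (nat_lit 247538) (.g (nat_lit 2262) (.e (nat_lit 139289) (nat_lit 9) (.e (nat_lit 3102) (nat_lit 192) (.e (nat_lit 491560) (nat_lit 10) (.e (nat_lit 344126) (nat_lit 25) (.e (nat_lit 548874) (nat_lit 5) (.e (nat_lit 1559) (nat_lit 110) (.e (nat_lit 352321) (nat_lit 25) .nil))))))) (.g (nat_lit 4) .nil .nil)))))) (.nd (nat_lit 4) (.nd (nat_lit 5) (.nd (nat_lit 6) 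
(.lf (nat_lit 247434) (.g (nat_lit 1388) (.e (nat_lit 139281) (nat_lit 5) (.e (nat_lit 73753) (nat_lit 8) (.e (nat_lit 557089) (nat_lit 12) (.e (nat_lit 171776) (nat_lit 190) .nil)))) .nil)) 
(.lf (nat_lit 247498) (.g (nat_lit 2970) (.e (nat_lit 139282) (nat_lit 6) (.e (nat_lit 81954) (nat_lit 23) (.e (nat_lit 98367) (nat_lit 27) (.e (nat_lit 434268) (nat_lit 36) (.e (nat_lit 639005) (nat_lit 13) .nil))))) .nil))) (.nd (nat_lit 6) 
(.lf (nat_lit 247466) (.g (nat_lit 4241) (.e (nat_lit 139281) (nat_lit 5) (.e (nat_lit 73754) (nat_lit 8) (.e (nat_lit 557105) (nat_lit 14) (.e (nat_lit 180252) (nat_lit 10) (.e (nat_lit 573474) (nat_lit 12) (.e (nat_lit 57516) (nat_lit 42) (.e (nat_lit 671748) (nat_lit 0) (.e (nat_lit 1303) (nat_lit 97) .nil)))))))) (.g (nat_lit 6) .nil .nil))) 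
(.lf (nat_lit 247530) (.g (nat_lit 1811) (.e (nat_lit 139289) (nat_lit 9) (.e (nat_lit 3100) (nat_lit 192) (.e (nat_lit 491562) (nat_lit 12) (.e (nat_lit 385072) (nat_lit 31) .nil)))) .nil)))) (.nd (nat_lit 5) (.nd (nat_lit 6) 
(.lf (nat_lit 247450) (.g (nat_lit 2002) (.e (nat_lit 139281) (nat_lit 5) (.e (nat_lit 73753) (nat_lit 8) (.e (nat_lit 557103) (nat_lit 14) (.e (nat_lit 180236) (nat_lit 1) .nil)))) .nil)) 
(.lf (nat_lit 247514) (.g (nat_lit 401) (.e (nat_lit 147200) (nat_lit 6) (.e (nat_lit 81947) (nat_lit 20) (.e (nat_lit 2390) (nat_lit 156) .nil))) .nil))) (.nd (nat_lit 6) 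
(.lf (nat_lit 247482) (.g (nat_lit 323) (.e (nat_lit 139282) (nat_lit 6) (.e (nat_lit 81933) (nat_lit 20) (.e (nat_lit 2383) (nat_lit 155) (.e (nat_lit 811010) (nat_lit 0) (.e (nat_lit 5772) (nat_lit 316) .nil))))) .nil)) 
(.lf (nat_lit 247546) (.g (nat_lit 1806) (.e (nat_lit 147200) (nat_lit 18) (.e (nat_lit 1349) (nat_lit 102) (.e (nat_lit 286759) (nat_lit 12) (.e (nat_lit 385074) (nat_lit 31) (.e (nat_lit 573485) (nat_lit 13) .nil))))) .nil)))))) (.nd (nat_lit 3) (.nd (nat_lit 4) (.nd (nat_lit 5) (.nd (nat_lit 6) 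
(.lf (nat_lit 247430) (.g (nat_lit 525) (.e (nat_lit 139281) (nat_lit 5) (.e (nat_lit 73747) (nat_lit 3) (.e (nat_lit 516131) (nat_lit 3) .nil))) .nil)) 
(.lf (nat_lit 247494) (.g (nat_lit 1847) (.e (nat_lit 139282) (nat_lit 6) (.e (nat_lit 81953) (nat_lit 22) (.e (nat_lit 90170) (nat_lit 13) (.e (nat_lit 172049) (nat_lit 0) .nil)))) .nil))) (.nd (nat_lit 6) 
(.lf (nat_lit 247462) (.g (nat_lit 556) (.e (nat_lit 139281) (nat_lit 5) (.e (nat_lit 73754) (nat_lit 8) (.e (nat_lit 557101) (nat_lit 13) .nil))) .nil)) 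
(.lf (nat_lit 247526) (.g (nat_lit 2329) (.e (nat_lit 139289) (nat_lit 9) (.e (nat_lit 2709) (nat_lit 170) (.e (nat_lit 221194) (nat_lit 11) (.e (nat_lit 336012) (nat_lit 2) (.e (nat_lit 90176) (nat_lit 15) (.e (nat_lit 196352) (nat_lit 7) .nil)))))) (.g (nat_lit 5) .nil .nil))))) (.nd (nat_lit 5) (.nd (nat_lit 6) 
(.lf (nat_lit 247446) (.g (nat_lit 2040) (.e (nat_lit 139281) (nat_lit 5) (.e (nat_lit 73753) (nat_lit 8) (.e (nat_lit 557101) (nat_lit 13) (.e (nat_lit 172065) (nat_lit 3) (.e (nat_lit 204809) (nat_lit 9) .nil))))) .nil)) 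
(.lf (nat_lit 247510) (.g (nat_lit 181) (.e (nat_lit 147200) (nat_lit 6) (.e (nat_lit 81943) (nat_lit 20) (.e (nat_lit 2390) (nat_lit 156) .nil))) .nil))) (.nd (nat_lit 6) 
(.lf (nat_lit 247478) (.g (nat_lit 416) (.e (nat_lit 139281) (nat_lit 5) (.e (nat_lit 73794) (nat_lit 46) (.e (nat_lit 57606) (nat_lit 107) (.e (nat_lit 704597) (nat_lit 6) (.e (nat_lit 196352) (nat_lit 7) .nil))))) (.g (nat_lit 4) .nil .nil))) 
(.lf (nat_lit 247542) (.g (nat_lit 1843) (.e (nat_lit 139292) (nat_lit 11) (.e (nat_lit 24640) (nat_lit 10) (.e (nat_lit 344117) (nat_lit 21) (.e (nat_lit 516145) (nat_lit 9) .nil)))) .nil))))) (.nd (nat_lit 4) (.nd (nat_lit 5) (.nd (nat_lit 6) 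
(.lf (nat_lit 247438) (.g (nat_lit 1524) (.e (nat_lit 139281) (nat_lit 5) (.e (nat_lit 73753) (nat_lit 8) (.e (nat_lit 557098) (nat_lit 13) (.e (nat_lit 172062) (nat_lit 2) .nil)))) .nil)) 
(.lf (nat_lit 247502) (.g (nat_lit 1785) (.e (nat_lit 139282) (nat_lit 6) (.e (nat_lit 81954) (nat_lit 23) (.e (nat_lit 98367) (nat_lit 27) (.e (nat_lit 434278) (nat_lit 39) .nil)))) .nil))) (.nd (nat_lit 6) 
(.lf (nat_lit 247470) (.g (nat_lit 764) (.e (nat_lit 139281) (nat_lit 5) (.e (nat_lit 73755) (nat_lit 8) (.e (nat_lit 557104) (nat_lit 14) .nil))) .nil)) 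
(.lf (nat_lit 247534) (.g (nat_lit 1850) (.e (nat_lit 139289) (nat_lit 9) (.e (nat_lit 3102) (nat_lit 192) (.e (nat_lit 491560) (nat_lit 10) (.e (nat_lit 344089) (nat_lit 18) (.e (nat_lit 3975) (nat_lit 239) .nil))))) .nil)))) (.nd (nat_lit 5) (.nd (nat_lit 6) 
(.lf (nat_lit 247454) (.g (nat_lit 1721) (.e (nat_lit 139281) (nat_lit 5) (.e (nat_lit 73753) (nat_lit 8) (.e (nat_lit 557103) (nat_lit 14) (.e (nat_lit 180250) (nat_lit 10) .nil)))) .nil)) 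
(.lf (nat_lit 247518) (.g (nat_lit 989) (.e (nat_lit 139284) (nat_lit 8) (.e (nat_lit 131128) (nat_lit 13) (.e (nat_lit 393225) (nat_lit 9) (.e (nat_lit 335906) (nat_lit 0) .nil)))) .nil))) (.nd (nat_lit 6) 
(.lf (nat_lit 247486) (.g (nat_lit 820) (.e (nat_lit 139282) (nat_lit 6) (.e (nat_lit 81935) (nat_lit 20) (.e (nat_lit 2384) (nat_lit 155) (.e (nat_lit 811012) (nat_lit 0) .nil)))) .nil)) 
(.lf (nat_lit 247550) (.g (nat_lit 2763) (.e (nat_lit 147456) (nat_lit 0) (.e (nat_lit 1661) (nat_lit 115) (.e (nat_lit 393260) (nat_lit 21) (.e (nat_lit 409617) (nat_lit 10) (.e (nat_lit 604) (nat_lit 45) .nil))))) .nil)))))))) (.nd (nat_lit 1) (.nd (nat_lit 2) (.nd (nat_lit 3) (.nd (nat_lit 4) (.nd (nat_lit 5) (.nd (nat_lit 6) 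
(.lf (nat_lit 247425) (.g (nat_lit 2292) (.e (nat_lit 139281) (nat_lit 5) (.e (nat_lit 73746) (nat_lit 3) (.e (nat_lit 516131) (nat_lit 3) (.e (nat_lit 221215) (nat_lit 23) (.e (nat_lit 204814) (nat_lit 17) .nil))))) .nil)) 
(.lf (nat_lit 247489) (.g (nat_lit 1102) (.e (nat_lit 139282) (nat_lit 6) (.e (nat_lit 81946) (nat_lit 20) (.e (nat_lit 2391) (nat_lit 156) (.e (nat_lit 819221) (nat_lit 6) (.e (nat_lit 196352) (nat_lit 7) .nil))))) (.g (nat_lit 4) .nil .nil)))) (.nd (nat_lit 6) 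
(.lf (nat_lit 247457) (.g (nat_lit 3001) (.e (nat_lit 139281) (nat_lit 5) (.e (nat_lit 73753) (nat_lit 8) (.e (nat_lit 557104) (nat_lit 14) (.e (nat_lit 180252) (nat_lit 10) (.e (nat_lit 573474) (nat_lit 12) .nil))))) .nil)) 
(.lf (nat_lit 247521) (.g (nat_lit 772) (.e (nat_lit 139286) (nat_lit 9) (.e (nat_lit 3099) (nat_lit 192) (.e (nat_lit 491566) (nat_lit 12) (.e (nat_lit 385073) (nat_lit 31) .nil)))) .nil)))) (.nd (nat_lit 5) (.nd (nat_lit 6) 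
(.lf (nat_lit 247441) (.g (nat_lit 2816) (.e (nat_lit 139281) (nat_lit 5) (.e (nat_lit 73753) (nat_lit 8) (.e (nat_lit 557098) (nat_lit 13) (.e (nat_lit 172067) (nat_lit 3) (.e (nat_lit 204808) (nat_lit 9) .nil))))) .nil)) 
(.lf (nat_lit 247505) (.g (nat_lit 2295) (.e (nat_lit 139282) (nat_lit 6) (.e (nat_lit 81956) (nat_lit 23) (.e (nat_lit 98367) (nat_lit 27) (.e (nat_lit 434268) (nat_lit 36) .nil)))) .nil))) (.nd (nat_lit 6) 
(.lf (nat_lit 247473) (.g (nat_lit 2105) (.e (nat_lit 139281) (nat_lit 5) (.e (nat_lit 73755) (nat_lit 8) (.e (nat_lit 557105) (nat_lit 14) (.e (nat_lit 180252) (nat_lit 10) (.e (nat_lit 581376) (nat_lit 4) .nil))))) .nil)) 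
(.lf (nat_lit 247537) (.g (nat_lit 3523) (.e (nat_lit 139289) (nat_lit 9) (.e (nat_lit 3102) (nat_lit 192) (.e (nat_lit 491560) (nat_lit 10) (.e (nat_lit 344126) (nat_lit 25) (.e (nat_lit 548873) (nat_lit 5) (.e (nat_lit 1572) (nat_lit 110) (.e (nat_lit 352321) (nat_lit 25) .nil))))))) (.g (nat_lit 5) .nil .nil)))))) (.nd (nat_lit 4) (.nd (nat_lit 5) (.nd (nat_lit 6) 
(.lf (nat_lit 247433) (.g (nat_lit 2216) (.e (nat_lit 139281) (nat_lit 5) (.e (nat_lit 73747) (nat_lit 3) (.e (nat_lit 516131) (nat_lit 3) (.e (nat_lit 221215) (nat_lit 23) (.e (nat_lit 204819) (nat_lit 17) (.e (nat_lit 1996) (nat_lit 137) (.e (nat_lit 663554) (nat_lit 0) (.e (nat_lit 1304) (nat_lit 97) .nil)))))))) (.g (nat_lit 4) .nil .nil))) 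
(.lf (nat_lit 247497) (.g (nat_lit 1899) (.e (nat_lit 139282) (nat_lit 6) (.e (nat_lit 81954) (nat_lit 23) (.e (nat_lit 98367) (nat_lit 27) (.e (nat_lit 434268) (nat_lit 36) .nil)))) .nil))) (.nd (nat_lit 6) 
(.lf (nat_lit 247465) (.g (nat_lit 1225) (.e (nat_lit 139281) (nat_lit 5) (.e (nat_lit 73754) (nat_lit 8) (.e (nat_lit 557105) (nat_lit 14) (.e (nat_lit 180251) (nat_lit 10) .nil)))) .nil)) 
(.lf (nat_lit 247529) (.g (nat_lit 905) (.e (nat_lit 139289) (nat_lit 9) (.e (nat_lit 3100) (nat_lit 192) (.e (nat_lit 491560) (nat_lit 10) (.e (nat_lit 344126) (nat_lit 25) .nil)))) .nil)))) (.nd (nat_lit 5) (.nd (nat_lit 6) 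
(.lf (nat_lit 247449) (.g (nat_lit 2262) (.e (nat_lit 139281) (nat_lit 5) (.e (nat_lit 73753) (nat_lit 8) (.e (nat_lit 557103) (nat_lit 14) (.e (nat_lit 180235) (nat_lit 1) .nil)))) .nil)) 
(.lf (nat_lit 247513) (.g (nat_lit 941) (.e (nat_lit 147200) (nat_lit 6) (.e (nat_lit 81946) (nat_lit 20) (.e (nat_lit 2391) (nat_lit 156) (.e (nat_lit 819221) (nat_lit 6) .nil)))) .nil))) (.nd (nat_lit 6) 
(.lf (nat_lit 247481) (.g (nat_lit 839) (.e (nat_lit 139282) (nat_lit 6) (.e (nat_lit 81927) (nat_lit 11) (.e (nat_lit 426408) (nat_lit 15) (.e (nat_lit 7936) (nat_lit 361) .nil)))) .nil)) 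
(.lf (nat_lit 247545) (.g (nat_lit 1733) (.e (nat_lit 147200) (nat_lit 18) (.e (nat_lit 1348) (nat_lit 102) (.e (nat_lit 286759) (nat_lit 12) (.e (nat_lit 385074) (nat_lit 31) (.e (nat_lit 573485) (nat_lit 13) .nil))))) .nil)))))) (.nd (nat_lit 3) (.nd (nat_lit 4) (.nd (nat_lit 5) (.nd (nat_lit 6) 
(.lf (nat_lit 247429) (.g (nat_lit 2591) (.e (nat_lit 139281) (nat_lit 5) (.e (nat_lit 73747) (nat_lit 3) (.e (nat_lit 516129) (nat_lit 3) (.e (nat_lit 221215) (nat_lit 23) (.e (nat_lit 204819) (nat_lit 17) .nil))))) .nil)) 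
(.lf (nat_lit 247493) (.g (nat_lit 1942) (.e (nat_lit 139282) (nat_lit 6) (.e (nat_lit 81953) (nat_lit 22) (.e (nat_lit 90170) (nat_lit 13) (.e (nat_lit 172042) (nat_lit 0) .nil)))) .nil))) (.nd (nat_lit 6) 
(.lf (nat_lit 247461) (.g (nat_lit 2702) (.e (nat_lit 139281) (nat_lit 5) (.e (nat_lit 73754) (nat_lit 8) (.e (nat_lit 557100) (nat_lit 13) (.e (nat_lit 172067) (nat_lit 3) (.e (nat_lit 204809) (nat_lit 9) .nil))))) .nil)) 
(.lf (nat_lit 247525) (.g (nat_lit 1659) (.e (nat_lit 139289) (nat_lit 9) (.e (nat_lit 2709) (nat_lit 170) (.e (nat_lit 221194) (nat_lit 11) (.e (nat_lit 336011) (nat_lit 2) .nil)))) .nil)))) (.nd (nat_lit 5) (.nd (nat_lit 6) 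
(.lf (nat_lit 247445) (.g (nat_lit 1448) (.e (nat_lit 139281) (nat_lit 5) (.e (nat_lit 73753) (nat_lit 8) (.e (nat_lit 557101) (nat_lit 13) (.e (nat_lit 172063) (nat_lit 2) .nil)))) .nil)) 
(.lf (nat_lit 247509) (.g (nat_lit 1236) (.e (nat_lit 147200) (nat_lit 6) (.e (nat_lit 81938) (nat_lit 20) (.e (nat_lit 2391) (nat_lit 156) (.e (nat_lit 819221) (nat_lit 6) (.e (nat_lit 196352) (nat_lit 7) .nil))))) .nil))) (.nd (nat_lit 6) 
(.lf (nat_lit 247477) (.g (nat_lit 931) (.e (nat_lit 139281) (nat_lit 5) (.e (nat_lit 73781) (nat_lit 32) (.e (nat_lit 7936) (nat_lit 21) (.e (nat_lit 336428) (nat_lit 29) (.e (nat_lit 442381) (nat_lit 7) .nil))))) .nil)) 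
(.lf (nat_lit 247541) (.g (nat_lit 1650) (.e (nat_lit 139292) (nat_lit 11) (.e (nat_lit 24627) (nat_lit 9) (.e (nat_lit 336454) (nat_lit 34) (.e (nat_lit 483365) (nat_lit 18) .nil)))) .nil))))) (.nd (nat_lit 4) (.nd (nat_lit 5) (.nd (nat_lit 6) 
(.lf (nat_lit 247437) (.g (nat_lit 628) (.e (nat_lit 139281) (nat_lit 5) (.e (nat_lit 73753) (nat_lit 8) (.e (nat_lit 557098) (nat_lit 13) .nil))) .nil)) 
(.lf (nat_lit 247501) (.g (nat_lit 1820) (.e (nat_lit 139282) (nat_lit 6) (.e (nat_lit 81954) (nat_lit 23) (.e (nat_lit 98367) (nat_lit 27) (.e (nat_lit 434275) (nat_lit 39) .nil)))) .nil))) (.nd (nat_lit 6) 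
(.lf (nat_lit 247469) (.g (nat_lit 1752) (.e (nat_lit 139281) (nat_lit 5) (.e (nat_lit 73755) (nat_lit 8) (.e (nat_lit 557103) (nat_lit 14) (.e (nat_lit 180244) (nat_lit 5) .nil)))) .nil)) 
(.lf (nat_lit 247533) (.g (nat_lit 1446) (.e (nat_lit 139289) (nat_lit 9) (.e (nat_lit 3102) (nat_lit 192) (.e (nat_lit 491560) (nat_lit 10) (.e (nat_lit 344089) (nat_lit 18) .nil)))) .nil)))) (.nd (nat_lit 5) (.nd (nat_lit 6) 
(.lf (nat_lit 247453) (.g (nat_lit 2977) (.e (nat_lit 139281) (nat_lit 5) (.e (nat_lit 73753) (nat_lit 8) (.e (nat_lit 557103) (nat_lit 14) (.e (nat_lit 180244) (nat_lit 5) (.e (nat_lit 532579) (nat_lit 26) (.e (nat_lit 433920) (nat_lit 22) .nil)))))) (.g (nat_lit 5) .nil .nil))) 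
(.lf (nat_lit 247517) (.g (nat_lit 1837) (.e (nat_lit 139284) (nat_lit 8) (.e (nat_lit 131105) (nat_lit 9) (.e (nat_lit 336456) (nat_lit 34) (.e (nat_lit 483350) (nat_lit 17) (.e (nat_lit 1998) (nat_lit 137) .nil))))) .nil))) (.nd (nat_lit 6) 
(.lf (nat_lit 247485) (.g (nat_lit 827) (.e (nat_lit 139282) (nat_lit 6) (.e (nat_lit 81935) (nat_lit 20) (.e (nat_lit 2384) (nat_lit 155) (.e (nat_lit 811011) (nat_lit 0) .nil)))) .nil)) 
(.lf (nat_lit 247549) (.g (nat_lit 2674) (.e (nat_lit 147456) (nat_lit 0) (.e (nat_lit 1661) (nat_lit 115) (.e (nat_lit 393260) (nat_lit 21) (.e (nat_lit 409616) (nat_lit 10) .nil)))) .nil))))))) (.nd (nat_lit 2) (.nd (nat_lit 3) (.nd (nat_lit 4) (.nd (nat_lit 5) (.nd (nat_lit 6) 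
(.lf (nat_lit 247427) (.g (nat_lit 2492) (.e (nat_lit 139281) (nat_lit 5) (.e (nat_lit 73747) (nat_lit 3) (.e (nat_lit 516129) (nat_lit 3) (.e (nat_lit 221214) (nat_lit 23) (.e (nat_lit 204819) (nat_lit 17) .nil))))) .nil)) 
(.lf (nat_lit 247491) (.g (nat_lit 1806) (.e (nat_lit 139282) (nat_lit 6) (.e (nat_lit 81951) (nat_lit 22) (.e (nat_lit 90170) (nat_lit 13) (.e (nat_lit 172042) (nat_lit 0) .nil)))) .nil))) (.nd (nat_lit 6) 
(.lf (nat_lit 247459) (.g (nat_lit 2219) (.e (nat_lit 139281) (nat_lit 5) (.e (nat_lit 73754) (nat_lit 8) (.e (nat_lit 557100) (nat_lit 13) (.e (nat_lit 172062) (nat_lit 2) .nil)))) .nil)) 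
(.lf (nat_lit 247523) (.g (nat_lit 695) (.e (nat_lit 139289) (nat_lit 9) (.e (nat_lit 2423) (nat_lit 157) (.e (nat_lit 7593) (nat_lit 407) (.e (nat_lit 73754) (nat_lit 8) .nil)))) .nil)))) (.nd (nat_lit 5) (.nd (nat_lit 6) 
(.lf (nat_lit 247443) (.g (nat_lit 1857) (.e (nat_lit 139281) (nat_lit 5) (.e (nat_lit 73753) (nat_lit 8) (.e (nat_lit 557100) (nat_lit 13) (.e (nat_lit 172065) (nat_lit 3) .nil)))) .nil)) 
(.lf (nat_lit 247507) (.g (nat_lit 696) (.e (nat_lit 139282) (nat_lit 6) (.e (nat_lit 81965) (nat_lit 26) (.e (nat_lit 155392) (nat_lit 17) .nil))) .nil))) (.nd (nat_lit 6) 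
(.lf (nat_lit 247475) (.g (nat_lit 4270) (.e (nat_lit 139281) (nat_lit 5) (.e (nat_lit 73755) (nat_lit 8) (.e (nat_lit 557105) (nat_lit 14) (.e (nat_lit 180252) (nat_lit 10) (.e (nat_lit 573474) (nat_lit 12) (.e (nat_lit 57516) (nat_lit 42) (.e (nat_lit 671748) (nat_lit 0) (.e (nat_lit 1304) (nat_lit 97) .nil)))))))) (.g (nat_lit 0) .nil .nil))) 
(.lf (nat_lit 247539) (.g (nat_lit 2775) (.e (nat_lit 139289) (nat_lit 9) (.e (nat_lit 3102) (nat_lit 192) (.e (nat_lit 491563) (nat_lit 12) (.e (nat_lit 385072) (nat_lit 31) .nil)))) .nil))))) (.nd (nat_lit 4) (.nd (nat_lit 5) (.nd (nat_lit 6) 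
(.lf (nat_lit 247435) (.g (nat_lit 2654) (.e (nat_lit 139281) (nat_lit 5) (.e (nat_lit 73753) (nat_lit 8) (.e (nat_lit 557096) (nat_lit 13) (.e (nat_lit 172067) (nat_lit 3) (.e (nat_lit 204809) (nat_lit 9) .nil))))) .nil)) 
(.lf (nat_lit 247499) (.g (nat_lit 3498) (.e (nat_lit 139282) (nat_lit 6) (.e (nat_lit 81954) (nat_lit 23) (.e (nat_lit 98367) (nat_lit 27) (.e (nat_lit 434268) (nat_lit 36) (.e (nat_lit 639007) (nat_lit 13) (.e (nat_lit 1304) (nat_lit 97) .nil)))))) (.g (nat_lit 6) .nil .nil)))) (.nd (nat_lit 6) 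
(.lf (nat_lit 247467) (.g (nat_lit 5203) (.e (nat_lit 139281) (nat_lit 5) (.e (nat_lit 73754) (nat_lit 8) (.e (nat_lit 557105) (nat_lit 14) (.e (nat_lit 180252) (nat_lit 10) (.e (nat_lit 573474) (nat_lit 12) (.e (nat_lit 57516) (nat_lit 42) (.e (nat_lit 671748) (nat_lit 0) (.e (nat_lit 1304) (nat_lit 97) .nil)))))))) (.g (nat_lit 8) .nil .nil))) 
(.lf (nat_lit 247531) (.g (nat_lit 2647) (.e (nat_lit 139289) (nat_lit 9) (.e (nat_lit 3100) (nat_lit 192) (.e (nat_lit 491562) (nat_lit 12) (.e (nat_lit 385072) (nat_lit 31) (.e (nat_lit 573493) (nat_lit 15) .nil))))) .nil)))) (.nd (nat_lit 5) (.nd (nat_lit 6) 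
(.lf (nat_lit 247451) (.g (nat_lit 1898) (.e (nat_lit 139281) (nat_lit 5) (.e (nat_lit 73753) (nat_lit 8) (.e (nat_lit 557103) (nat_lit 14) (.e (nat_lit 180243) (nat_lit 5) .nil)))) .nil)) 
(.lf (nat_lit 247515) (.g (nat_lit 914) (.e (nat_lit 147200) (nat_lit 6) (.e (nat_lit 81947) (nat_lit 20) (.e (nat_lit 2391) (nat_lit 156) (.e (nat_lit 819221) (nat_lit 6) .nil)))) .nil))) (.nd (nat_lit 6) 
(.lf (nat_lit 247483) (.g (nat_lit 686) (.e (nat_lit 139282) (nat_lit 6) (.e (nat_lit 81935) (nat_lit 20) (.e (nat_lit 2383) (nat_lit 155) (.e (nat_lit 811010) (nat_lit 0) (.e (nat_lit 5772) (nat_lit 316) .nil))))) .nil)) 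
(.lf (nat_lit 247547) (.g (nat_lit 3033) (.e (nat_lit 147456) (nat_lit 0) (.e (nat_lit 1580) (nat_lit 111) (.e (nat_lit 360474) (nat_lit 8) (.e (nat_lit 557091) (nat_lit 12) (.e (nat_lit 163999) (nat_lit 38) .nil))))) .nil)))))) (.nd (nat_lit 3) (.nd (nat_lit 4) (.nd (nat_lit 5) (.nd (nat_lit 6) 
(.lf (nat_lit 247431) (.g (nat_lit 1465) (.e (nat_lit 139281) (nat_lit 5) (.e (nat_lit 73747) (nat_lit 3) (.e (nat_lit 516131) (nat_lit 3) (.e (nat_lit 221212) (nat_lit 22) (.e (nat_lit 196625) (nat_lit 9) .nil))))) .nil)) 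
(.lf (nat_lit 247495) (.g (nat_lit 537) (.e (nat_lit 139282) (nat_lit 6) (.e (nat_lit 81954) (nat_lit 23) (.e (nat_lit 98359) (nat_lit 26) .nil))) .nil))) (.nd (nat_lit 6) 
(.lf (nat_lit 247463) (.g (nat_lit 1317) (.e (nat_lit 139281) (nat_lit 5) (.e (nat_lit 73754) (nat_lit 8) (.e (nat_lit 557101) (nat_lit 13) (.e (nat_lit 172065) (nat_lit 3) .nil)))) .nil)) 
(.lf (nat_lit 247527) (.g (nat_lit 1015) (.e (nat_lit 139289) (nat_lit 9) (.e (nat_lit 3100) (nat_lit 192) (.e (nat_lit 491558) (nat_lit 10) (.e (nat_lit 344115) (nat_lit 20) .nil)))) .nil)))) (.nd (nat_lit 5) (.nd (nat_lit 6) 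
(.lf (nat_lit 247447) (.g (nat_lit 1987) (.e (nat_lit 139281) (nat_lit 5) (.e (nat_lit 73753) (nat_lit 8) (.e (nat_lit 557101) (nat_lit 13) (.e (nat_lit 172066) (nat_lit 3) (.e (nat_lit 204809) (nat_lit 9) .nil))))) .nil)) 
(.lf (nat_lit 247511) (.g (nat_lit 868) (.e (nat_lit 147200) (nat_lit 6) (.e (nat_lit 81943) (nat_lit 20) (.e (nat_lit 2391) (nat_lit 156) (.e (nat_lit 819221) (nat_lit 6) .nil)))) .nil))) (.nd (nat_lit 6) 
(.lf (nat_lit 247479) (.g (nat_lit 1191) (.e (nat_lit 139282) (nat_lit 6) (.e (nat_lit 81925) (nat_lit 11) (.e (nat_lit 426408) (nat_lit 15) (.e (nat_lit 6216) (nat_lit 333) (.e (nat_lit 57864) (nat_lit 256) .nil))))) .nil)) 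
(.lf (nat_lit 247543) (.g (nat_lit 2397) (.e (nat_lit 139299) (nat_lit 18) (.e (nat_lit 1346) (nat_lit 102) (.e (nat_lit 286759) (nat_lit 12) (.e (nat_lit 385074) (nat_lit 31) (.e (nat_lit 573491) (nat_lit 15) .nil))))) .nil))))) (.nd (nat_lit 4) (.nd (nat_lit 5) (.nd (nat_lit 6) 
(.lf (nat_lit 247439) (.g (nat_lit 1753) (.e (nat_lit 139281) (nat_lit 5) (.e (nat_lit 73753) (nat_lit 8) (.e (nat_lit 557098) (nat_lit 13) (.e (nat_lit 172063) (nat_lit 2) .nil)))) .nil)) 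
(.lf (nat_lit 247503) (.g (nat_lit 1018) (.e (nat_lit 139282) (nat_lit 6) (.e (nat_lit 81956) (nat_lit 23) (.e (nat_lit 98356) (nat_lit 26) .nil))) .nil))) (.nd (nat_lit 6) 
(.lf (nat_lit 247471) (.g (nat_lit 1842) (.e (nat_lit 139281) (nat_lit 5) (.e (nat_lit 73755) (nat_lit 8) (.e (nat_lit 557104) (nat_lit 14) (.e (nat_lit 180252) (nat_lit 10) .nil)))) .nil)) 
(.lf (nat_lit 247535) (.g (nat_lit 2538) (.e (nat_lit 139289) (nat_lit 9) (.e (nat_lit 3102) (nat_lit 192) (.e (nat_lit 491560) (nat_lit 10) (.e (nat_lit 344126) (nat_lit 25) (.e (nat_lit 548872) (nat_lit 5) .nil))))) .nil)))) (.nd (nat_lit 5) (.nd (nat_lit 6) 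
(.lf (nat_lit 247455) (.g (nat_lit 666) (.e (nat_lit 139281) (nat_lit 5) (.e (nat_lit 73753) (nat_lit 8) (.e (nat_lit 557104) (nat_lit 14) .nil))) .nil)) 
(.lf (nat_lit 247519) (.g (nat_lit 2282) (.e (nat_lit 139285) (nat_lit 9) (.e (nat_lit 2830) (nat_lit 182) (.e (nat_lit 409649) (nat_lit 18) (.e (nat_lit 303117) (nat_lit 2) (.e (nat_lit 196674) (nat_lit 15) .nil))))) .nil))) (.nd (nat_lit 6) 
(.lf (nat_lit 247487) (.g (nat_lit 696) (.e (nat_lit 139282) (nat_lit 6) (.e (nat_lit 81939) (nat_lit 20) (.e (nat_lit 2391) (nat_lit 156) (.e (nat_lit 819221) (nat_lit 6) (.e (nat_lit 196352) (nat_lit 7) .nil))))) (.g (nat_lit 4) .nil .nil))) 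
(.lf (nat_lit 247551) (.g (nat_lit 1674) (.e (nat_lit 147456) (nat_lit 0) (.e (nat_lit 1661) (nat_lit 115) (.e (nat_lit 393268) (nat_lit 23) (.e (nat_lit 426438) (nat_lit 18) (.e (nat_lit 106240) (nat_lit 3) .nil))))) .nil)))))))))

noncomputable def tv3209 : DT := (.nd (nat_lit 0) (.nd (nat_lit 1) (.nd (nat_lit 2) (.nd (nat_lit 3) (.nd (nat_lit 4) (.nd (nat_lit 5) (.nd (nat_lit 6) 
(.lf (nat_lit 247552) (.g (nat_lit 2230) (.e (nat_lit 147457) (nat_lit 0) (.e (nat_lit 1580) (nat_lit 111) (.e (nat_lit 360473) (nat_lit 8) (.e (nat_lit 557091) (nat_lit 12) (.e (nat_lit 163999) (nat_lit 38) .nil))))) .nil)) 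
(.lf (nat_lit 247616) (.g (nat_lit 1408) (.e (nat_lit 155392) (nat_lit 0) (.e (nat_lit 1239) (nat_lit 91) (.e (nat_lit 90174) (nat_lit 14) (.e (nat_lit 180243) (nat_lit 5) .nil)))) .nil))) (.nd (nat_lit 6) 
(.lf (nat_lit 247584) (.g (nat_lit 1728) (.e (nat_lit 147460) (nat_lit 0) (.e (nat_lit 1582) (nat_lit 111) (.e (nat_lit 360466) (nat_lit 3) (.e (nat_lit 516117) (nat_lit 1) (.e (nat_lit 164159) (nat_lit 152) .nil))))) .nil)) 
(.lf (nat_lit 247648) (.g (nat_lit 1382) (.e (nat_lit 155392) (nat_lit 4) (.e (nat_lit 65619) (nat_lit 10) (.e (nat_lit 344117) (nat_lit 21) (.e (nat_lit 516116) (nat_lit 1) .nil)))) .nil)))) (.nd (nat_lit 5) (.nd (nat_lit 6) 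
(.lf (nat_lit 247568) (.g (nat_lit 1932) (.e (nat_lit 147459) (nat_lit 0) (.e (nat_lit 1582) (nat_lit 111) (.e (nat_lit 360474) (nat_lit 8) (.e (nat_lit 557091) (nat_lit 12) .nil)))) .nil)) 
(.lf (nat_lit 247632) (.g (nat_lit 2199) (.e (nat_lit 155392) (nat_lit 0) (.e (nat_lit 1598) (nat_lit 111) (.e (nat_lit 360474) (nat_lit 8) (.e (nat_lit 557091) (nat_lit 12) .nil)))) .nil))) (.nd (nat_lit 6) 
(.lf (nat_lit 247600) (.g (nat_lit 1971) (.e (nat_lit 147460) (nat_lit 0) (.e (nat_lit 1597) (nat_lit 111) (.e (nat_lit 360466) (nat_lit 3) (.e (nat_lit 516120) (nat_lit 1) (.e (nat_lit 164166) (nat_lit 152) (.e (nat_lit 1200) (nat_lit 88) (.e (nat_lit 65579) (nat_lit 6) .nil))))))) (.g (nat_lit 5) .nil .nil))) 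
(.lf (nat_lit 247664) (.g (nat_lit 1022) (.e (nat_lit 155392) (nat_lit 6) (.e (nat_lit 81954) (nat_lit 23) (.e (nat_lit 98334) (nat_lit 18) (.e (nat_lit 164166) (nat_lit 152) .nil)))) .nil))))) (.nd (nat_lit 4) (.nd (nat_lit 5) (.nd (nat_lit 6) 
(.lf (nat_lit 247560) (.g (nat_lit 409) (.e (nat_lit 147458) (nat_lit 0) (.e (nat_lit 1597) (nat_lit 111) (.e (nat_lit 360466) (nat_lit 3) .nil))) .nil)) 
(.lf (nat_lit 247624) (.g (nat_lit 2650) (.e (nat_lit 155392) (nat_lit 0) (.e (nat_lit 1587) (nat_lit 111) (.e (nat_lit 360475) (nat_lit 8) (.e (nat_lit 557091) (nat_lit 12) (.e (nat_lit 163999) (nat_lit 38) .nil))))) .nil))) (.nd (nat_lit 6) 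
(.lf (nat_lit 247592) (.g (nat_lit 1665) (.e (nat_lit 147460) (nat_lit 0) (.e (nat_lit 1597) (nat_lit 111) (.e (nat_lit 360466) (nat_lit 3) (.e (nat_lit 516117) (nat_lit 1) (.e (nat_lit 164158) (nat_lit 152) .nil))))) .nil)) 
(.lf (nat_lit 247656) (.g (nat_lit 1608) (.e (nat_lit 155392) (nat_lit 6) (.e (nat_lit 81953) (nat_lit 22) (.e (nat_lit 98048) (nat_lit 2) (.e (nat_lit 16473) (nat_lit 14) (.e (nat_lit 491543) (nat_lit 6) .nil))))) .nil)))) (.nd (nat_lit 5) (.nd (nat_lit 6) 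
(.lf (nat_lit 247576) (.g (nat_lit 1568) (.e (nat_lit 147459) (nat_lit 0) (.e (nat_lit 1633) (nat_lit 114) (.e (nat_lit 385093) (nat_lit 49) (.e (nat_lit 778318) (nat_lit 3) .nil)))) .nil)) 
(.lf (nat_lit 247640) (.g (nat_lit 2047) (.e (nat_lit 155392) (nat_lit 0) (.e (nat_lit 1669) (nat_lit 116) (.e (nat_lit 401454) (nat_lit 12) (.e (nat_lit 475181) (nat_lit 27) .nil)))) .nil))) (.nd (nat_lit 6) 
(.lf (nat_lit 247608) (.g (nat_lit 3534) (.e (nat_lit 147461) (nat_lit 0) (.e (nat_lit 1661) (nat_lit 115) (.e (nat_lit 393260) (nat_lit 21) (.e (nat_lit 409616) (nat_lit 10) (.e (nat_lit 604) (nat_lit 45) (.e (nat_lit 532508) (nat_lit 2) (.e (nat_lit 106526) (nat_lit 9) (.e (nat_lit 1313) (nat_lit 98) .nil)))))))) (.g (nat_lit 4) .nil .nil))) 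
(.lf (nat_lit 247672) (.g (nat_lit 1705) (.e (nat_lit 155392) (nat_lit 6) (.e (nat_lit 81956) (nat_lit 23) (.e (nat_lit 98333) (nat_lit 18) (.e (nat_lit 164183) (nat_lit 154) .nil)))) .nil)))))) (.nd (nat_lit 3) (.nd (nat_lit 4) (.nd (nat_lit 5) (.nd (nat_lit 6) 
(.lf (nat_lit 247556) (.g (nat_lit 2253) (.e (nat_lit 147457) (nat_lit 0) (.e (nat_lit 1661) (nat_lit 115) (.e (nat_lit 393260) (nat_lit 21) (.e (nat_lit 409617) (nat_lit 10) .nil)))) .nil)) 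
(.lf (nat_lit 247620) (.g (nat_lit 2849) (.e (nat_lit 155392) (nat_lit 0) (.e (nat_lit 1585) (nat_lit 111) (.e (nat_lit 360474) (nat_lit 8) (.e (nat_lit 557091) (nat_lit 12) (.e (nat_lit 163999) (nat_lit 38) .nil))))) .nil))) (.nd (nat_lit 6) 
(.lf (nat_lit 247588) (.g (nat_lit 3288) (.e (nat_lit 147460) (nat_lit 0) (.e (nat_lit 1582) (nat_lit 111) (.e (nat_lit 360475) (nat_lit 8) (.e (nat_lit 557090) (nat_lit 12) (.e (nat_lit 163999) (nat_lit 38) .nil))))) .nil)) 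
(.lf (nat_lit 247652) (.g (nat_lit 3317) (.e (nat_lit 155392) (nat_lit 4) (.e (nat_lit 65629) (nat_lit 14) (.e (nat_lit 401459) (nat_lit 13) (.e (nat_lit 483411) (nat_lit 27) (.e (nat_lit 409344) (nat_lit 23) .nil))))) .nil)))) (.nd (nat_lit 5) (.nd (nat_lit 6) 
(.lf (nat_lit 247572) (.g (nat_lit 840) (.e (nat_lit 147459) (nat_lit 0) (.e (nat_lit 1597) (nat_lit 111) (.e (nat_lit 360466) (nat_lit 3) (.e (nat_lit 516117) (nat_lit 1) .nil)))) .nil)) 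
(.lf (nat_lit 247636) (.g (nat_lit 2996) (.e (nat_lit 155392) (nat_lit 0) (.e (nat_lit 1669) (nat_lit 116) (.e (nat_lit 401454) (nat_lit 12) (.e (nat_lit 475169) (nat_lit 22) .nil)))) .nil))) (.nd (nat_lit 6) 
(.lf (nat_lit 247604) (.g (nat_lit 2470) (.e (nat_lit 147460) (nat_lit 0) (.e (nat_lit 1597) (nat_lit 111) (.e (nat_lit 360474) (nat_lit 8) (.e (nat_lit 557091) (nat_lit 12) .nil)))) .nil)) 
(.lf (nat_lit 247668) (.g (nat_lit 1022) (.e (nat_lit 155392) (nat_lit 6) (.e (nat_lit 81956) (nat_lit 23) (.e (nat_lit 98321) (nat_lit 17) (.e (nat_lit 3458) (nat_lit 216) .nil)))) .nil))))) (.nd (nat_lit 4) (.nd (nat_lit 5) (.nd (nat_lit 6) 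
(.lf (nat_lit 247564) (.g (nat_lit 935) (.e (nat_lit 147458) (nat_lit 0) (.e (nat_lit 1633) (nat_lit 114) (.e (nat_lit 385093) (nat_lit 49) .nil))) .nil)) 
(.lf (nat_lit 247628) (.g (nat_lit 3106) (.e (nat_lit 155392) (nat_lit 0) (.e (nat_lit 1596) (nat_lit 111) (.e (nat_lit 360474) (nat_lit 8) (.e (nat_lit 557091) (nat_lit 12) (.e (nat_lit 163999) (nat_lit 38) .nil))))) .nil))) (.nd (nat_lit 6) 
(.lf (nat_lit 247596) (.g (nat_lit 1999) (.e (nat_lit 147460) (nat_lit 0) (.e (nat_lit 1597) (nat_lit 111) (.e (nat_lit 360466) (nat_lit 3) (.e (nat_lit 516117) (nat_lit 1) (.e (nat_lit 164166) (nat_lit 152) (.e (nat_lit 1200) (nat_lit 88) (.e (nat_lit 65579) (nat_lit 6) .nil))))))) (.g (nat_lit 5) .nil .nil))) 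
(.lf (nat_lit 247660) (.g (nat_lit 973) (.e (nat_lit 155392) (nat_lit 6) (.e (nat_lit 81954) (nat_lit 23) (.e (nat_lit 98321) (nat_lit 17) (.e (nat_lit 7936) (nat_lit 216) .nil)))) .nil)))) (.nd (nat_lit 5) (.nd (nat_lit 6) 
(.lf (nat_lit 247580) (.g (nat_lit 2558) (.e (nat_lit 147459) (nat_lit 0) (.e (nat_lit 1656) (nat_lit 115) (.e (nat_lit 393251) (nat_lit 18) (.e (nat_lit 164399) (nat_lit 256) (.e (nat_lit 57378) (nat_lit 3) .nil))))) .nil)) 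
(.lf (nat_lit 247644) (.g (nat_lit 1771) (.e (nat_lit 155392) (nat_lit 3) (.e (nat_lit 57480) (nat_lit 28) (.e (nat_lit 557108) (nat_lit 15) (.e (nat_lit 188452) (nat_lit 23) (.e (nat_lit 204885) (nat_lit 33) .nil))))) .nil))) (.nd (nat_lit 6) 
(.lf (nat_lit 247612) (.g (nat_lit 1319) (.e (nat_lit 147462) (nat_lit 0) (.e (nat_lit 1661) (nat_lit 115) (.e (nat_lit 393268) (nat_lit 23) (.e (nat_lit 426438) (nat_lit 18) .nil)))) .nil)) 
(.lf (nat_lit 247676) (.g (nat_lit 1290) (.e (nat_lit 155392) (nat_lit 6) (.e (nat_lit 81956) (nat_lit 23) (.e (nat_lit 98334) (nat_lit 18) (.e (nat_lit 164166) (nat_lit 152) .nil)))) .nil))))))) (.nd (nat_lit 2) (.nd (nat_lit 3) (.nd (nat_lit 4) (.nd (nat_lit 5) (.nd (nat_lit 6) 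
(.lf (nat_lit 247554) (.g (nat_lit 2420) (.e (nat_lit 147457) (nat_lit 0) (.e (nat_lit 1583) (nat_lit 111) (.e (nat_lit 360474) (nat_lit 8) (.e (nat_lit 557091) (nat_lit 12) (.e (nat_lit 163999) (nat_lit 38) .nil))))) .nil)) 
(.lf (nat_lit 247618) (.g (nat_lit 2361) (.e (nat_lit 155392) (nat_lit 0) (.e (nat_lit 1256) (nat_lit 92) (.e (nat_lit 98367) (nat_lit 27) (.e (nat_lit 434231) (nat_lit 23) (.e (nat_lit 532513) (nat_lit 3) .nil))))) .nil))) (.nd (nat_lit 6) 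
(.lf (nat_lit 247586) (.g (nat_lit 1745) (.e (nat_lit 147460) (nat_lit 0) (.e (nat_lit 1582) (nat_lit 111) (.e (nat_lit 360474) (nat_lit 8) (.e (nat_lit 557094) (nat_lit 12) (.e (nat_lit 164008) (nat_lit 41) .nil))))) .nil)) 
(.lf (nat_lit 247650) (.g (nat_lit 2437) (.e (nat_lit 155392) (nat_lit 4) (.e (nat_lit 65628) (nat_lit 14) (.e (nat_lit 401459) (nat_lit 13) (.e (nat_lit 483411) (nat_lit 27) (.e (nat_lit 409344) (nat_lit 23) .nil))))) .nil)))) (.nd (nat_lit 5) (.nd (nat_lit 6) 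
(.lf (nat_lit 247570) (.g (nat_lit 1232) (.e (nat_lit 147459) (nat_lit 0) (.e (nat_lit 1585) (nat_lit 111) (.e (nat_lit 360466) (nat_lit 3) (.e (nat_lit 516120) (nat_lit 1) (.e (nat_lit 164166) (nat_lit 152) .nil))))) .nil)) 
(.lf (nat_lit 247634) (.g (nat_lit 374) (.e (nat_lit 155392) (nat_lit 0) (.e (nat_lit 1669) (nat_lit 116) (.e (nat_lit 401454) (nat_lit 12) .nil))) .nil))) (.nd (nat_lit 6) 
(.lf (nat_lit 247602) (.g (nat_lit 483) (.e (nat_lit 147460) (nat_lit 0) (.e (nat_lit 1597) (nat_lit 111) (.e (nat_lit 360473) (nat_lit 8) .nil))) .nil)) 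
(.lf (nat_lit 247666) (.g (nat_lit 743) (.e (nat_lit 155392) (nat_lit 6) (.e (nat_lit 81956) (nat_lit 23) (.e (nat_lit 106240) (nat_lit 7) .nil))) .nil))))) (.nd (nat_lit 4) (.nd (nat_lit 5) (.nd (nat_lit 6) 
(.lf (nat_lit 247562) (.g (nat_lit 1851) (.e (nat_lit 147458) (nat_lit 0) (.e (nat_lit 1597) (nat_lit 111) (.e (nat_lit 360466) (nat_lit 3) (.e (nat_lit 516120) (nat_lit 1) (.e (nat_lit 164159) (nat_lit 152) (.e (nat_lit 1296) (nat_lit 96) (.e (nat_lit 131101) (nat_lit 6) .nil))))))) (.g (nat_lit 4) .nil .nil))) 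
(.lf (nat_lit 247626) (.g (nat_lit 3973) (.e (nat_lit 155392) (nat_lit 0) (.e (nat_lit 1589) (nat_lit 111) (.e (nat_lit 360474) (nat_lit 8) (.e (nat_lit 557091) (nat_lit 12) (.e (nat_lit 163999) (nat_lit 38) .nil))))) .nil))) (.nd (nat_lit 6) 
(.lf (nat_lit 247594) (.g (nat_lit 1400) (.e (nat_lit 147460) (nat_lit 0) (.e (nat_lit 1597) (nat_lit 111) (.e (nat_lit 360466) (nat_lit 3) (.e (nat_lit 516117) (nat_lit 1) (.e (nat_lit 164166) (nat_lit 152) .nil))))) .nil)) 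
(.lf (nat_lit 247658) (.g (nat_lit 514) (.e (nat_lit 155392) (nat_lit 6) (.e (nat_lit 81954) (nat_lit 23) (.e (nat_lit 106240) (nat_lit 7) .nil))) .nil)))) (.nd (nat_lit 5) (.nd (nat_lit 6) 
(.lf (nat_lit 247578) (.g (nat_lit 1570) (.e (nat_lit 147459) (nat_lit 0) (.e (nat_lit 1656) (nat_lit 115) (.e (nat_lit 393251) (nat_lit 18) (.e (nat_lit 164325) (nat_lit 230) .nil)))) .nil)) 
(.lf (nat_lit 247642) (.g (nat_lit 2181) (.e (nat_lit 155392) (nat_lit 3) (.e (nat_lit 57478) (nat_lit 28) (.e (nat_lit 557108) (nat_lit 15) (.e (nat_lit 188452) (nat_lit 23) (.e (nat_lit 204885) (nat_lit 33) .nil))))) .nil))) (.nd (nat_lit 6) 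
(.lf (nat_lit 247610) (.g (nat_lit 2101) (.e (nat_lit 147461) (nat_lit 0) (.e (nat_lit 1661) (nat_lit 115) (.e (nat_lit 393268) (nat_lit 23) (.e (nat_lit 426438) (nat_lit 18) (.e (nat_lit 106240) (nat_lit 3) (.e (nat_lit 114727) (nat_lit 28) .nil)))))) (.g (nat_lit 4) .nil .nil))) 
(.lf (nat_lit 247674) (.g (nat_lit 1504) (.e (nat_lit 155392) (nat_lit 6) (.e (nat_lit 81956) (nat_lit 23) (.e (nat_lit 98334) (nat_lit 18) (.e (nat_lit 164159) (nat_lit 152) .nil)))) .nil)))))) (.nd (nat_lit 3) (.nd (nat_lit 4) (.nd (nat_lit 5) (.nd (nat_lit 6) 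
(.lf (nat_lit 247558) (.g (nat_lit 2580) (.e (nat_lit 147458) (nat_lit 0) (.e (nat_lit 1250) (nat_lit 92) (.e (nat_lit 98368) (nat_lit 27) (.e (nat_lit 434248) (nat_lit 28) (.e (nat_lit 573487) (nat_lit 14) (.e (nat_lit 81664) (nat_lit 5) (.e (nat_lit 532519) (nat_lit 5) .nil))))))) (.g (nat_lit 5) .nil .nil))) 
(.lf (nat_lit 247622) (.g (nat_lit 3611) (.e (nat_lit 155392) (nat_lit 0) (.e (nat_lit 1586) (nat_lit 111) (.e (nat_lit 360475) (nat_lit 8) (.e (nat_lit 557089) (nat_lit 12) (.e (nat_lit 164000) (nat_lit 38) .nil))))) .nil))) (.nd (nat_lit 6) 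
(.lf (nat_lit 247590) (.g (nat_lit 1999) (.e (nat_lit 147460) (nat_lit 0) (.e (nat_lit 1585) (nat_lit 111) (.e (nat_lit 360475) (nat_lit 8) (.e (nat_lit 557089) (nat_lit 12) (.e (nat_lit 164007) (nat_lit 41) .nil))))) .nil)) 
(.lf (nat_lit 247654) (.g (nat_lit 2959) (.e (nat_lit 155392) (nat_lit 4) (.e (nat_lit 65630) (nat_lit 14) (.e (nat_lit 401459) (nat_lit 13) (.e (nat_lit 483410) (nat_lit 27) (.e (nat_lit 409344) (nat_lit 23) .nil))))) .nil)))) (.nd (nat_lit 5) (.nd (nat_lit 6) 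
(.lf (nat_lit 247574) (.g (nat_lit 1842) (.e (nat_lit 147459) (nat_lit 0) (.e (nat_lit 1597) (nat_lit 111) (.e (nat_lit 360466) (nat_lit 3) (.e (nat_lit 516120) (nat_lit 1) (.e (nat_lit 164159) (nat_lit 152) (.e (nat_lit 1201) (nat_lit 88) (.e (nat_lit 65578) (nat_lit 6) .nil))))))) (.g (nat_lit 4) .nil .nil))) 
(.lf (nat_lit 247638) (.g (nat_lit 2728) (.e (nat_lit 155392) (nat_lit 0) (.e (nat_lit 1669) (nat_lit 116) (.e (nat_lit 401454) (nat_lit 12) (.e (nat_lit 475173) (nat_lit 22) .nil)))) .nil))) (.nd (nat_lit 6) 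
(.lf (nat_lit 247606) (.g (nat_lit 1666) (.e (nat_lit 147461) (nat_lit 0) (.e (nat_lit 1661) (nat_lit 115) (.e (nat_lit 393252) (nat_lit 18) (.e (nat_lit 164403) (nat_lit 256) .nil)))) .nil)) 
(.lf (nat_lit 247670) (.g (nat_lit 836) (.e (nat_lit 155392) (nat_lit 6) (.e (nat_lit 81956) (nat_lit 23) (.e (nat_lit 98333) (nat_lit 18) .nil))) .nil))))) (.nd (nat_lit 4) (.nd (nat_lit 5) (.nd (nat_lit 6) 
(.lf (nat_lit 247566) (.g (nat_lit 290) (.e (nat_lit 147459) (nat_lit 0) (.e (nat_lit 1250) (nat_lit 92) (.e (nat_lit 98356) (nat_lit 26) .nil))) .nil)) 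
(.lf (nat_lit 247630) (.g (nat_lit 1580) (.e (nat_lit 155392) (nat_lit 0) (.e (nat_lit 1598) (nat_lit 111) (.e (nat_lit 360466) (nat_lit 3) (.e (nat_lit 516117) (nat_lit 1) (.e (nat_lit 164159) (nat_lit 152) .nil))))) .nil))) (.nd (nat_lit 6) 
(.lf (nat_lit 247598) (.g (nat_lit 1814) (.e (nat_lit 147460) (nat_lit 0) (.e (nat_lit 1597) (nat_lit 111) (.e (nat_lit 360466) (nat_lit 3) (.e (nat_lit 516120) (nat_lit 1) (.e (nat_lit 164159) (nat_lit 152) .nil))))) .nil)) 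
(.lf (nat_lit 247662) (.g (nat_lit 398) (.e (nat_lit 155392) (nat_lit 6) (.e (nat_lit 81954) (nat_lit 23) (.e (nat_lit 98334) (nat_lit 18) .nil))) .nil)))) (.nd (nat_lit 5) (.nd (nat_lit 6) 
(.lf (nat_lit 247582) (.g (nat_lit 837) (.e (nat_lit 147460) (nat_lit 0) (.e (nat_lit 1531) (nat_lit 109) (.e (nat_lit 344097) (nat_lit 18) (.e (nat_lit 5195) (nat_lit 294) .nil)))) .nil)) 
(.lf (nat_lit 247646) (.g (nat_lit 2163) (.e (nat_lit 155392) (nat_lit 4) (.e (nat_lit 65610) (nat_lit 10) (.e (nat_lit 344117) (nat_lit 21) (.e (nat_lit 516116) (nat_lit 1) .nil)))) .nil))) (.nd (nat_lit 6) 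
(.lf (nat_lit 247614) (.g (nat_lit 2219) (.e (nat_lit 155392) (nat_lit 0) (.e (nat_lit 1239) (nat_lit 91) (.e (nat_lit 90170) (nat_lit 13) (.e (nat_lit 172065) (nat_lit 3) (.e (nat_lit 204837) (nat_lit 20) .nil))))) .nil)) 
(.lf (nat_lit 247678) (.g (nat_lit 1996) (.e (nat_lit 147463) (nat_lit 9) (.e (nat_lit 232) (nat_lit 21) (.e (nat_lit 336013) (nat_lit 2) (.e (nat_lit 90170) (nat_lit 13) (.e (nat_lit 172106) (nat_lit 10) .nil))))) .nil)))))))) (.nd (nat_lit 1) (.nd (nat_lit 2) (.nd (nat_lit 3) (.nd (nat_lit 4) (.nd (nat_lit 5) (.nd (nat_lit 6) 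
(.lf (nat_lit 247553) (.g (nat_lit 2763) (.e (nat_lit 147457) (nat_lit 0) (.e (nat_lit 1581) (nat_lit 111) (.e (nat_lit 360474) (nat_lit 8) (.e (nat_lit 557091) (nat_lit 12) (.e (nat_lit 163999) (nat_lit 38) .nil))))) .nil)) 
(.lf (nat_lit 247617) (.g (nat_lit 913) (.e (nat_lit 155392) (nat_lit 0) (.e (nat_lit 1256) (nat_lit 92) (.e (nat_lit 98359) (nat_lit 26) (.e (nat_lit 426132) (nat_lit 3) .nil)))) .nil))) (.nd (nat_lit 6) 
(.lf (nat_lit 247585) (.g (nat_lit 2473) (.e (nat_lit 147460) (nat_lit 0) (.e (nat_lit 1582) (nat_lit 111) (.e (nat_lit 360474) (nat_lit 8) (.e (nat_lit 557091) (nat_lit 12) (.e (nat_lit 163999) (nat_lit 38) .nil))))) .nil)) 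
(.lf (nat_lit 247649) (.g (nat_lit 1671) (.e (nat_lit 155392) (nat_lit 4) (.e (nat_lit 65619) (nat_lit 10) (.e (nat_lit 344129) (nat_lit 26) (.e (nat_lit 557090) (nat_lit 12) .nil)))) .nil)))) (.nd (nat_lit 5) (.nd (nat_lit 6) 
(.lf (nat_lit 247569) (.g (nat_lit 973) (.e (nat_lit 147459) (nat_lit 0) (.e (nat_lit 1585) (nat_lit 111) (.e (nat_lit 360466) (nat_lit 3) (.e (nat_lit 516100) (nat_lit 0) (.e (nat_lit 7936) (nat_lit 216) .nil))))) .nil)) 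
(.lf (nat_lit 247633) (.g (nat_lit 458) (.e (nat_lit 155392) (nat_lit 0) (.e (nat_lit 1661) (nat_lit 115) (.e (nat_lit 393268) (nat_lit 23) .nil))) .nil))) (.nd (nat_lit 6) 
(.lf (nat_lit 247601) (.g (nat_lit 955) (.e (nat_lit 147460) (nat_lit 0) (.e (nat_lit 1597) (nat_lit 111) (.e (nat_lit 360466) (nat_lit 3) (.e (nat_lit 524032) (nat_lit 24) .nil)))) .nil)) 
(.lf (nat_lit 247665) (.g (nat_lit 1507) (.e (nat_lit 155392) (nat_lit 6) (.e (nat_lit 81954) (nat_lit 23) (.e (nat_lit 98334) (nat_lit 18) (.e (nat_lit 164170) (nat_lit 152) .nil)))) .nil))))) (.nd (nat_lit 4) (.nd (nat_lit 5) (.nd (nat_lit 6) 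
(.lf (nat_lit 247561) (.g (nat_lit 1270) (.e (nat_lit 147458) (nat_lit 0) (.e (nat_lit 1597) (nat_lit 111) (.e (nat_lit 360466) (nat_lit 3) (.e (nat_lit 516100) (nat_lit 0) (.e (nat_lit 7936) (nat_lit 216) .nil))))) .nil)) 
(.lf (nat_lit 247625) (.g (nat_lit 3063) (.e (nat_lit 155392) (nat_lit 0) (.e (nat_lit 1588) (nat_lit 111) (.e (nat_lit 360474) (nat_lit 8) (.e (nat_lit 557091) (nat_lit 12) (.e (nat_lit 163999) (nat_lit 38) .nil))))) .nil))) (.nd (nat_lit 6) 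
(.lf (nat_lit 247593) (.g (nat_lit 2756) (.e (nat_lit 147460) (nat_lit 0) (.e (nat_lit 1597) (nat_lit 111) (.e (nat_lit 360466) (nat_lit 3) (.e (nat_lit 516117) (nat_lit 1) (.e (nat_lit 164159) (nat_lit 152) (.e (nat_lit 1296) (nat_lit 96) (.e (nat_lit 131101) (nat_lit 6) .nil))))))) (.g (nat_lit 6) .nil .nil))) 
(.lf (nat_lit 247657) (.g (nat_lit 733) (.e (nat_lit 155392) (nat_lit 6) (.e (nat_lit 81953) (nat_lit 22) (.e (nat_lit 90187) (nat_lit 18) .nil))) .nil)))) (.nd (nat_lit 5) (.nd (nat_lit 6) 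
(.lf (nat_lit 247577) (.g (nat_lit 1977) (.e (nat_lit 147459) (nat_lit 0) (.e (nat_lit 1633) (nat_lit 114) (.e (nat_lit 385094) (nat_lit 49) (.e (nat_lit 778246) (nat_lit 0) .nil)))) .nil)) 
(.lf (nat_lit 247641) (.g (nat_lit 1502) (.e (nat_lit 155392) (nat_lit 0) (.e (nat_lit 1671) (nat_lit 116) (.e (nat_lit 401448) (nat_lit 10) (.e (nat_lit 434229) (nat_lit 22) .nil)))) .nil))) (.nd (nat_lit 6) 
(.lf (nat_lit 247609) (.g (nat_lit 2261) (.e (nat_lit 147461) (nat_lit 0) (.e (nat_lit 1661) (nat_lit 115) (.e (nat_lit 393260) (nat_lit 21) (.e (nat_lit 409617) (nat_lit 10) .nil)))) .nil)) 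
(.lf (nat_lit 247673) (.g (nat_lit 646) (.e (nat_lit 155392) (nat_lit 6) (.e (nat_lit 81956) (nat_lit 23) (.e (nat_lit 98334) (nat_lit 18) .nil))) .nil)))))) (.nd (nat_lit 3) (.nd (nat_lit 4) (.nd (nat_lit 5) (.nd (nat_lit 6) 
(.lf (nat_lit 247557) (.g (nat_lit 1674) (.e (nat_lit 147457) (nat_lit 0) (.e (nat_lit 1661) (nat_lit 115) (.e (nat_lit 393268) (nat_lit 23) (.e (nat_lit 426438) (nat_lit 18) (.e (nat_lit 106240) (nat_lit 3) .nil))))) .nil)) 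
(.lf (nat_lit 247621) (.g (nat_lit 3522) (.e (nat_lit 155392) (nat_lit 0) (.e (nat_lit 1586) (nat_lit 111) (.e (nat_lit 360475) (nat_lit 8) (.e (nat_lit 557089) (nat_lit 12) (.e (nat_lit 163999) (nat_lit 38) .nil))))) .nil))) (.nd (nat_lit 6) 
(.lf (nat_lit 247589) (.g (nat_lit 941) (.e (nat_lit 147460) (nat_lit 0) (.e (nat_lit 1582) (nat_lit 111) (.e (nat_lit 360475) (nat_lit 8) (.e (nat_lit 557091) (nat_lit 12) .nil)))) .nil)) 
(.lf (nat_lit 247653) (.g (nat_lit 1798) (.e (nat_lit 155392) (nat_lit 4) (.e (nat_lit 65630) (nat_lit 14) (.e (nat_lit 401459) (nat_lit 13) (.e (nat_lit 483344) (nat_lit 17) .nil)))) .nil)))) (.nd (nat_lit 5) (.nd (nat_lit 6) 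
(.lf (nat_lit 247573) (.g (nat_lit 1720) (.e (nat_lit 147459) (nat_lit 0) (.e (nat_lit 1597) (nat_lit 111) (.e (nat_lit 360466) (nat_lit 3) (.e (nat_lit 516117) (nat_lit 1) (.e (nat_lit 164159) (nat_lit 152) .nil))))) .nil)) 
(.lf (nat_lit 247637) (.g (nat_lit 2692) (.e (nat_lit 155392) (nat_lit 0) (.e (nat_lit 1669) (nat_lit 116) (.e (nat_lit 401454) (nat_lit 12) (.e (nat_lit 475171) (nat_lit 22) .nil)))) .nil))) (.nd (nat_lit 6) 
(.lf (nat_lit 247605) (.g (nat_lit 1587) (.e (nat_lit 147461) (nat_lit 0) (.e (nat_lit 1661) (nat_lit 115) (.e (nat_lit 393252) (nat_lit 18) (.e (nat_lit 164398) (nat_lit 256) .nil)))) .nil)) 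
(.lf (nat_lit 247669) (.g (nat_lit 887) (.e (nat_lit 155392) (nat_lit 6) (.e (nat_lit 81956) (nat_lit 23) (.e (nat_lit 98321) (nat_lit 17) (.e (nat_lit 7936) (nat_lit 216) .nil)))) .nil))))) (.nd (nat_lit 4) (.nd (nat_lit 5) (.nd (nat_lit 6) 
(.lf (nat_lit 247565) (.g (nat_lit 2201) (.e (nat_lit 147458) (nat_lit 0) (.e (nat_lit 1633) (nat_lit 114) (.e (nat_lit 385094) (nat_lit 49) (.e (nat_lit 778246) (nat_lit 0) .nil)))) .nil)) 
(.lf (nat_lit 247629) (.g (nat_lit 3713) (.e (nat_lit 155392) (nat_lit 0) (.e (nat_lit 1597) (nat_lit 111) (.e (nat_lit 360474) (nat_lit 8) (.e (nat_lit 557091) (nat_lit 12) (.e (nat_lit 163999) (nat_lit 38) .nil))))) .nil))) (.nd (nat_lit 6) 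
(.lf (nat_lit 247597) (.g (nat_lit 1561) (.e (nat_lit 147460) (nat_lit 0) (.e (nat_lit 1597) (nat_lit 111) (.e (nat_lit 360466) (nat_lit 3) (.e (nat_lit 516120) (nat_lit 1) (.e (nat_lit 164158) (nat_lit 152) .nil))))) .nil)) 
(.lf (nat_lit 247661) (.g (nat_lit 1666) (.e (nat_lit 155392) (nat_lit 6) (.e (nat_lit 81954) (nat_lit 23) (.e (nat_lit 98333) (nat_lit 18) (.e (nat_lit 164183) (nat_lit 154) .nil)))) .nil)))) (.nd (nat_lit 5) (.nd (nat_lit 6) 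
(.lf (nat_lit 247581) (.g (nat_lit 1372) (.e (nat_lit 147460) (nat_lit 0) (.e (nat_lit 1250) (nat_lit 92) (.e (nat_lit 98368) (nat_lit 27) (.e (nat_lit 434245) (nat_lit 28) (.e (nat_lit 573488) (nat_lit 14) .nil))))) .nil)) 
(.lf (nat_lit 247645) (.g (nat_lit 3036) (.e (nat_lit 155392) (nat_lit 4) (.e (nat_lit 65610) (nat_lit 10) (.e (nat_lit 344117) (nat_lit 21) (.e (nat_lit 516099) (nat_lit 0) .nil)))) .nil))) (.nd (nat_lit 6) 
(.lf (nat_lit 247613) (.g (nat_lit 1661) (.e (nat_lit 155392) (nat_lit 0) (.e (nat_lit 1239) (nat_lit 91) (.e (nat_lit 90170) (nat_lit 13) (.e (nat_lit 172065) (nat_lit 3) .nil)))) .nil)) 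
(.lf (nat_lit 247677) (.g (nat_lit 1688) (.e (nat_lit 155392) (nat_lit 6) (.e (nat_lit 81956) (nat_lit 23) (.e (nat_lit 98334) (nat_lit 18) (.e (nat_lit 164170) (nat_lit 152) .nil)))) .nil))))))) (.nd (nat_lit 2) (.nd (nat_lit 3) (.nd (nat_lit 4) (.nd (nat_lit 5) (.nd (nat_lit 6) 
(.lf (nat_lit 247555) (.g (nat_lit 2674) (.e (nat_lit 147457) (nat_lit 0) (.e (nat_lit 1661) (nat_lit 115) (.e (nat_lit 393260) (nat_lit 21) (.e (nat_lit 409616) (nat_lit 10) .nil)))) .nil)) 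
(.lf (nat_lit 247619) (.g (nat_lit 2184) (.e (nat_lit 155392) (nat_lit 0) (.e (nat_lit 1256) (nat_lit 92) (.e (nat_lit 98367) (nat_lit 27) (.e (nat_lit 434231) (nat_lit 23) (.e (nat_lit 532514) (nat_lit 3) .nil))))) .nil))) (.nd (nat_lit 6) 
(.lf (nat_lit 247587) (.g (nat_lit 1768) (.e (nat_lit 147460) (nat_lit 0) (.e (nat_lit 1582) (nat_lit 111) (.e (nat_lit 360475) (nat_lit 8) (.e (nat_lit 557090) (nat_lit 12) .nil)))) .nil)) 
(.lf (nat_lit 247651) (.g (nat_lit 461) (.e (nat_lit 155392) (nat_lit 4) (.e (nat_lit 65629) (nat_lit 14) (.e (nat_lit 401459) (nat_lit 13) .nil))) .nil)))) (.nd (nat_lit 5) (.nd (nat_lit 6) 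
(.lf (nat_lit 247571) (.g (nat_lit 1272) (.e (nat_lit 147459) (nat_lit 0) (.e (nat_lit 1597) (nat_lit 111) (.e (nat_lit 360466) (nat_lit 3) (.e (nat_lit 516100) (nat_lit 0) (.e (nat_lit 7936) (nat_lit 216) .nil))))) .nil)) 
(.lf (nat_lit 247635) (.g (nat_lit 2608) (.e (nat_lit 155392) (nat_lit 0) (.e (nat_lit 1669) (nat_lit 116) (.e (nat_lit 401454) (nat_lit 12) (.e (nat_lit 475167) (nat_lit 22) .nil)))) .nil))) (.nd (nat_lit 6) 
(.lf (nat_lit 247603) (.g (nat_lit 1696) (.e (nat_lit 147460) (nat_lit 0) (.e (nat_lit 1597) (nat_lit 111) (.e (nat_lit 360473) (nat_lit 8) (.e (nat_lit 557089) (nat_lit 12) (.e (nat_lit 164007) (nat_lit 41) .nil))))) .nil)) 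
(.lf (nat_lit 247667) (.g (nat_lit 628) (.e (nat_lit 155392) (nat_lit 6) (.e (nat_lit 81956) (nat_lit 23) (.e (nat_lit 98320) (nat_lit 17) .nil))) .nil))))) (.nd (nat_lit 4) (.nd (nat_lit 5) (.nd (nat_lit 6) 
(.lf (nat_lit 247563) (.g (nat_lit 3716) (.e (nat_lit 147458) (nat_lit 0) (.e (nat_lit 1597) (nat_lit 111) (.e (nat_lit 360474) (nat_lit 8) (.e (nat_lit 557091) (nat_lit 12) (.e (nat_lit 163999) (nat_lit 38) .nil))))) .nil)) 
(.lf (nat_lit 247627) (.g (nat_lit 3073) (.e (nat_lit 155392) (nat_lit 0) (.e (nat_lit 1589) (nat_lit 111) (.e (nat_lit 360475) (nat_lit 8) (.e (nat_lit 557089) (nat_lit 12) (.e (nat_lit 163999) (nat_lit 38) .nil))))) .nil))) (.nd (nat_lit 6) 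
(.lf (nat_lit 247595) (.g (nat_lit 2301) (.e (nat_lit 147460) (nat_lit 0) (.e (nat_lit 1597) (nat_lit 111) (.e (nat_lit 360466) (nat_lit 3) (.e (nat_lit 516117) (nat_lit 1) (.e (nat_lit 164166) (nat_lit 152) (.e (nat_lit 1200) (nat_lit 88) (.e (nat_lit 65578) (nat_lit 6) .nil))))))) (.g (nat_lit 6) .nil .nil))) 
(.lf (nat_lit 247659) (.g (nat_lit 1045) (.e (nat_lit 155392) (nat_lit 6) (.e (nat_lit 81954) (nat_lit 23) (.e (nat_lit 98321) (nat_lit 17) (.e (nat_lit 3458) (nat_lit 216) .nil)))) .nil)))) (.nd (nat_lit 5) (.nd (nat_lit 6) 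
(.lf (nat_lit 247579) (.g (nat_lit 1635) (.e (nat_lit 147459) (nat_lit 0) (.e (nat_lit 1656) (nat_lit 115) (.e (nat_lit 393251) (nat_lit 18) (.e (nat_lit 164398) (nat_lit 256) .nil)))) .nil)) 
(.lf (nat_lit 247643) (.g (nat_lit 2482) (.e (nat_lit 155392) (nat_lit 3) (.e (nat_lit 57479) (nat_lit 28) (.e (nat_lit 557109) (nat_lit 15) (.e (nat_lit 188452) (nat_lit 23) .nil)))) .nil))) (.nd (nat_lit 6) 
(.lf (nat_lit 247611) (.g (nat_lit 2253) (.e (nat_lit 147462) (nat_lit 0) (.e (nat_lit 1661) (nat_lit 115) (.e (nat_lit 393260) (nat_lit 21) (.e (nat_lit 409617) (nat_lit 10) .nil)))) .nil)) 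
(.lf (nat_lit 247675) (.g (nat_lit 1369) (.e (nat_lit 155392) (nat_lit 6) (.e (nat_lit 81956) (nat_lit 23) (.e (nat_lit 98334) (nat_lit 18) (.e (nat_lit 164164) (nat_lit 152) .nil)))) .nil)))))) (.nd (nat_lit 3) (.nd (nat_lit 4) (.nd (nat_lit 5) (.nd (nat_lit 6) 
(.lf (nat_lit 247559) (.g (nat_lit 2763) (.e (nat_lit 147458) (nat_lit 0) (.e (nat_lit 1581) (nat_lit 111) (.e (nat_lit 360474) (nat_lit 8) (.e (nat_lit 557091) (nat_lit 12) (.e (nat_lit 163999) (nat_lit 38) .nil))))) .nil)) 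
(.lf (nat_lit 247623) (.g (nat_lit 3419) (.e (nat_lit 155392) (nat_lit 0) (.e (nat_lit 1587) (nat_lit 111) (.e (nat_lit 360474) (nat_lit 8) (.e (nat_lit 557091) (nat_lit 12) (.e (nat_lit 163999) (nat_lit 38) .nil))))) .nil))) (.nd (nat_lit 6) 
(.lf (nat_lit 247591) (.g (nat_lit 409) (.e (nat_lit 147460) (nat_lit 0) (.e (nat_lit 1597) (nat_lit 111) (.e (nat_lit 360466) (nat_lit 3) .nil))) .nil)) 
(.lf (nat_lit 247655) (.g (nat_lit 811) (.e (nat_lit 155392) (nat_lit 5) (.e (nat_lit 73733) (nat_lit 0) (.e (nat_lit 5195) (nat_lit 294) (.e (nat_lit 57377) (nat_lit 3) .nil)))) .nil)))) (.nd (nat_lit 5) (.nd (nat_lit 6) 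
(.lf (nat_lit 247575) (.g (nat_lit 1527) (.e (nat_lit 147459) (nat_lit 0) (.e (nat_lit 1597) (nat_lit 111) (.e (nat_lit 360466) (nat_lit 3) (.e (nat_lit 516120) (nat_lit 1) (.e (nat_lit 164166) (nat_lit 152) (.e (nat_lit 1200) (nat_lit 88) (.e (nat_lit 65578) (nat_lit 6) .nil))))))) (.g (nat_lit 4) .nil .nil))) 
(.lf (nat_lit 247639) (.g (nat_lit 1159) (.e (nat_lit 155392) (nat_lit 0) (.e (nat_lit 1669) (nat_lit 116) (.e (nat_lit 401454) (nat_lit 12) (.e (nat_lit 483072) (nat_lit 22) .nil)))) .nil))) (.nd (nat_lit 6) 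
(.lf (nat_lit 247607) (.g (nat_lit 2680) (.e (nat_lit 147461) (nat_lit 0) (.e (nat_lit 1661) (nat_lit 115) (.e (nat_lit 393260) (nat_lit 21) (.e (nat_lit 409616) (nat_lit 10) .nil)))) .nil)) 
(.lf (nat_lit 247671) (.g (nat_lit 1893) (.e (nat_lit 155392) (nat_lit 6) (.e (nat_lit 81956) (nat_lit 23) (.e (nat_lit 98333) (nat_lit 18) (.e (nat_lit 164182) (nat_lit 154) .nil)))) .nil))))) (.nd (nat_lit 4) (.nd (nat_lit 5) (.nd (nat_lit 6) 
(.lf (nat_lit 247567) (.g (nat_lit 2552) (.e (nat_lit 147459) (nat_lit 0) (.e (nat_lit 1250) (nat_lit 92) (.e (nat_lit 98367) (nat_lit 27) (.e (nat_lit 434231) (nat_lit 23) (.e (nat_lit 532514) (nat_lit 3) .nil))))) .nil)) 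
(.lf (nat_lit 247631) (.g (nat_lit 1920) (.e (nat_lit 155392) (nat_lit 0) (.e (nat_lit 1598) (nat_lit 111) (.e (nat_lit 360473) (nat_lit 8) (.e (nat_lit 557091) (nat_lit 12) (.e (nat_lit 164000) (nat_lit 38) .nil))))) .nil))) (.nd (nat_lit 6) 
(.lf (nat_lit 247599) (.g (nat_lit 1466) (.e (nat_lit 147460) (nat_lit 0) (.e (nat_lit 1597) (nat_lit 111) (.e (nat_lit 360466) (nat_lit 3) (.e (nat_lit 516120) (nat_lit 1) (.e (nat_lit 164166) (nat_lit 152) .nil))))) .nil)) 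
(.lf (nat_lit 247663) (.g (nat_lit 1233) (.e (nat_lit 155392) (nat_lit 6) (.e (nat_lit 81954) (nat_lit 23) (.e (nat_lit 98334) (nat_lit 18) (.e (nat_lit 164164) (nat_lit 152) .nil)))) .nil)))) (.nd (nat_lit 5) (.nd (nat_lit 6) 
(.lf (nat_lit 247583) (.g (nat_lit 808) (.e (nat_lit 147460) (nat_lit 0) (.e (nat_lit 1582) (nat_lit 111) (.e (nat_lit 360466) (nat_lit 3) (.e (nat_lit 516100) (nat_lit 0) .nil)))) .nil)) 
(.lf (nat_lit 247647) (.g (nat_lit 520) (.e (nat_lit 155392) (nat_lit 4) (.e (nat_lit 65619) (nat_lit 10) (.e (nat_lit 344117) (nat_lit 21) .nil))) .nil))) (.nd (nat_lit 6) 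
(.lf (nat_lit 247615) (.g (nat_lit 2544) (.e (nat_lit 155392) (nat_lit 0) (.e (nat_lit 1239) (nat_lit 91) (.e (nat_lit 90170) (nat_lit 13) (.e (nat_lit 172067) (nat_lit 3) .nil)))) .nil)) 
(.lf (nat_lit 247679) (.g (nat_lit 1830) (.e (nat_lit 147463) (nat_lit 9) (.e (nat_lit 232) (nat_lit 21) (.e (nat_lit 336060) (nat_lit 7) (.e (nat_lit 319500) (nat_lit 10) .nil)))) .nil)))))))))

noncomputable def tv3210 : DT := (.nd (nat_lit 0) (.nd (nat_lit 1) (.nd (nat_lit 2) (.nd (nat_lit 3) (.nd (nat_lit 4) (.nd (nat_lit 5) (.nd (nat_lit 6) 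
(.lf (nat_lit 247680) (.g (nat_lit 1138) (.e (nat_lit 147463) (nat_lit 9) (.e (nat_lit 232) (nat_lit 21) (.e (nat_lit 336060) (nat_lit 7) (.e (nat_lit 319504) (nat_lit 10) .nil)))) .nil)) 
(.lf (nat_lit 247744) (.g (nat_lit 1043) (.e (nat_lit 147465) (nat_lit 9) (.e (nat_lit 321) (nat_lit 24) (.e (nat_lit 360489) (nat_lit 21) (.e (nat_lit 770074) (nat_lit 10) (.e (nat_lit 81965) (nat_lit 26) .nil))))) .nil))) (.nd (nat_lit 6) 
(.lf (nat_lit 247712) (.g (nat_lit 1474) (.e (nat_lit 147463) (nat_lit 9) (.e (nat_lit 312) (nat_lit 23) (.e (nat_lit 352262) (nat_lit 0) (.e (nat_lit 2445) (nat_lit 157) (.e (nat_lit 4491) (nat_lit 263) .nil))))) .nil)) 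
(.lf (nat_lit 247776) (.g (nat_lit 2119) (.e (nat_lit 147466) (nat_lit 9) (.e (nat_lit 298) (nat_lit 22) (.e (nat_lit 344133) (nat_lit 26) (.e (nat_lit 557105) (nat_lit 14) (.e (nat_lit 180265) (nat_lit 21) .nil))))) .nil)))) (.nd (nat_lit 5) (.nd (nat_lit 6) 
(.lf (nat_lit 247696) (.g (nat_lit 2523) (.e (nat_lit 147463) (nat_lit 9) (.e (nat_lit 249) (nat_lit 21) (.e (nat_lit 336213) (nat_lit 13) (.e (nat_lit 393234) (nat_lit 17) (.e (nat_lit 7587) (nat_lit 406) .nil))))) .nil)) 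
(.lf (nat_lit 247760) (.g (nat_lit 1722) (.e (nat_lit 147466) (nat_lit 9) (.e (nat_lit 232) (nat_lit 21) (.e (nat_lit 336060) (nat_lit 7) (.e (nat_lit 319505) (nat_lit 10) (.e (nat_lit 720) (nat_lit 64) .nil))))) .nil))) (.nd (nat_lit 6) 
(.lf (nat_lit 247728) (.g (nat_lit 1181) (.e (nat_lit 147463) (nat_lit 9) (.e (nat_lit 334) (nat_lit 26) (.e (nat_lit 376860) (nat_lit 21) (.e (nat_lit 57664) (nat_lit 152) (.e (nat_lit 7936) (nat_lit 90) .nil))))) .nil)) 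
(.lf (nat_lit 247792) (.g (nat_lit 875) (.e (nat_lit 147466) (nat_lit 9) (.e (nat_lit 321) (nat_lit 24) (.e (nat_lit 360452) (nat_lit 0) (.e (nat_lit 7147) (nat_lit 382) .nil)))) .nil))))) (.nd (nat_lit 4) (.nd (nat_lit 5) (.nd (nat_lit 6) 
(.lf (nat_lit 247688) (.g (nat_lit 975) (.e (nat_lit 147463) (nat_lit 9) (.e (nat_lit 249) (nat_lit 21) (.e (nat_lit 336087) (nat_lit 9) (.e (nat_lit 336000) (nat_lit 1) (.e (nat_lit 57655) (nat_lit 152) .nil))))) .nil)) 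
(.lf (nat_lit 247752) (.g (nat_lit 169) (.e (nat_lit 147465) (nat_lit 9) (.e (nat_lit 334) (nat_lit 26) (.e (nat_lit 376859) (nat_lit 21) .nil))) .nil))) (.nd (nat_lit 6) 
(.lf (nat_lit 247720) (.g (nat_lit 1558) (.e (nat_lit 147463) (nat_lit 9) (.e (nat_lit 314) (nat_lit 23) (.e (nat_lit 352324) (nat_lit 26) (.e (nat_lit 147467) (nat_lit 9) (.e (nat_lit 314) (nat_lit 23) .nil))))) .nil)) 
(.lf (nat_lit 247784) (.g (nat_lit 1009) (.e (nat_lit 147466) (nat_lit 9) (.e (nat_lit 314) (nat_lit 23) (.e (nat_lit 352309) (nat_lit 21) (.e (nat_lit 57655) (nat_lit 152) .nil)))) .nil)))) (.nd (nat_lit 5) (.nd (nat_lit 6) 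
(.lf (nat_lit 247704) (.g (nat_lit 1733) (.e (nat_lit 147463) (nat_lit 9) (.e (nat_lit 249) (nat_lit 21) (.e (nat_lit 336215) (nat_lit 13) (.e (nat_lit 393249) (nat_lit 17) (.e (nat_lit 7936) (nat_lit 406) (.e (nat_lit 65578) (nat_lit 6) .nil)))))) (.g (nat_lit 4) .nil .nil))) 
(.lf (nat_lit 247768) (.g (nat_lit 1687) (.e (nat_lit 147466) (nat_lit 9) (.e (nat_lit 268) (nat_lit 21) (.e (nat_lit 336212) (nat_lit 13) (.e (nat_lit 393301) (nat_lit 27) (.e (nat_lit 491556) (nat_lit 9) .nil))))) .nil))) (.nd (nat_lit 6) 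
(.lf (nat_lit 247736) (.g (nat_lit 1597) (.e (nat_lit 147464) (nat_lit 9) (.e (nat_lit 334) (nat_lit 26) (.e (nat_lit 376857) (nat_lit 21) (.e (nat_lit 57663) (nat_lit 152) (.e (nat_lit 7936) (nat_lit 90) .nil))))) .nil)) 
(.lf (nat_lit 247800) (.g (nat_lit 1112) (.e (nat_lit 147466) (nat_lit 9) (.e (nat_lit 324) (nat_lit 24) (.e (nat_lit 360452) (nat_lit 0) (.e (nat_lit 7255) (nat_lit 383) (.e (nat_lit 8192) (nat_lit 0) .nil))))) .nil)))))) (.nd (nat_lit 3) (.nd (nat_lit 4) (.nd (nat_lit 5) (.nd (nat_lit 6) 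
(.lf (nat_lit 247684) (.g (nat_lit 4841) (.e (nat_lit 147463) (nat_lit 9) (.e (nat_lit 249) (nat_lit 21) (.e (nat_lit 336011) (nat_lit 2) (.e (nat_lit 90170) (nat_lit 13) (.e (nat_lit 172106) (nat_lit 10) (.e (nat_lit 434244) (nat_lit 28) (.e (nat_lit 573449) (nat_lit 9) (.e (nat_lit 1312) (nat_lit 98) .nil)))))))) (.g (nat_lit 8) .nil .nil))) 
(.lf (nat_lit 247748) (.g (nat_lit 229) (.e (nat_lit 147465) (nat_lit 9) (.e (nat_lit 334) (nat_lit 26) (.e (nat_lit 376857) (nat_lit 21) .nil))) .nil))) (.nd (nat_lit 6) 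
(.lf (nat_lit 247716) (.g (nat_lit 1338) (.e (nat_lit 147463) (nat_lit 9) (.e (nat_lit 314) (nat_lit 23) (.e (nat_lit 352309) (nat_lit 21) (.e (nat_lit 57654) (nat_lit 152) .nil)))) .nil)) 
(.lf (nat_lit 247780) (.g (nat_lit 631) (.e (nat_lit 147466) (nat_lit 9) (.e (nat_lit 312) (nat_lit 23) (.e (nat_lit 352278) (nat_lit 11) .nil))) .nil)))) (.nd (nat_lit 5) (.nd (nat_lit 6) 
(.lf (nat_lit 247700) (.g (nat_lit 1045) (.e (nat_lit 147463) (nat_lit 9) (.e (nat_lit 249) (nat_lit 21) (.e (nat_lit 336215) (nat_lit 13) (.e (nat_lit 393230) (nat_lit 17) .nil)))) .nil)) 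
(.lf (nat_lit 247764) (.g (nat_lit 3845) (.e (nat_lit 147466) (nat_lit 9) (.e (nat_lit 232) (nat_lit 21) (.e (nat_lit 336060) (nat_lit 7) (.e (nat_lit 319534) (nat_lit 16) (.e (nat_lit 286756) (nat_lit 10) (.e (nat_lit 344160) (nat_lit 37) (.e (nat_lit 647190) (nat_lit 9) (.e (nat_lit 7936) (nat_lit 98) .nil)))))))) (.g (nat_lit 7) .nil .nil)))) (.nd (nat_lit 6) 
(.lf (nat_lit 247732) (.g (nat_lit 767) (.e (nat_lit 147464) (nat_lit 9) (.e (nat_lit 321) (nat_lit 24) (.e (nat_lit 360453) (nat_lit 0) (.e (nat_lit 7936) (nat_lit 382) .nil)))) .nil)) 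
(.lf (nat_lit 247796) (.g (nat_lit 1192) (.e (nat_lit 147466) (nat_lit 9) (.e (nat_lit 322) (nat_lit 24) (.e (nat_lit 360451) (nat_lit 0) (.e (nat_lit 7124) (nat_lit 382) (.e (nat_lit 1222) (nat_lit 90) .nil))))) .nil))))) (.nd (nat_lit 4) (.nd (nat_lit 5) (.nd (nat_lit 6) 
(.lf (nat_lit 247692) (.g (nat_lit 1679) (.e (nat_lit 147463) (nat_lit 9) (.e (nat_lit 249) (nat_lit 21) (.e (nat_lit 336212) (nat_lit 13) (.e (nat_lit 393301) (nat_lit 27) (.e (nat_lit 491546) (nat_lit 9) .nil))))) .nil)) 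
(.lf (nat_lit 247756) (.g (nat_lit 2279) (.e (nat_lit 147466) (nat_lit 9) (.e (nat_lit 232) (nat_lit 21) (.e (nat_lit 336013) (nat_lit 2) (.e (nat_lit 90170) (nat_lit 13) (.e (nat_lit 172106) (nat_lit 10) (.e (nat_lit 434244) (nat_lit 28) (.e (nat_lit 573449) (nat_lit 9) (.e (nat_lit 1314) (nat_lit 98) .nil)))))))) (.g (nat_lit 4) .nil .nil)))) (.nd (nat_lit 6) 
(.lf (nat_lit 247724) (.g (nat_lit 1730) (.e (nat_lit 147463) (nat_lit 9) (.e (nat_lit 324) (nat_lit 24) (.e (nat_lit 360452) (nat_lit 0) (.e (nat_lit 7270) (nat_lit 385) (.e (nat_lit 122916) (nat_lit 14) .nil))))) .nil)) 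
(.lf (nat_lit 247788) (.g (nat_lit 1845) (.e (nat_lit 147466) (nat_lit 9) (.e (nat_lit 314) (nat_lit 23) (.e (nat_lit 352324) (nat_lit 26) (.e (nat_lit 147496) (nat_lit 11) (.e (nat_lit 24631) (nat_lit 9) .nil))))) .nil)))) (.nd (nat_lit 5) (.nd (nat_lit 6) 
(.lf (nat_lit 247708) (.g (nat_lit 1683) (.e (nat_lit 147463) (nat_lit 9) (.e (nat_lit 249) (nat_lit 21) (.e (nat_lit 336223) (nat_lit 13) (.e (nat_lit 393300) (nat_lit 27) .nil)))) .nil)) 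
(.lf (nat_lit 247772) (.g (nat_lit 1907) (.e (nat_lit 147466) (nat_lit 9) (.e (nat_lit 275) (nat_lit 21) (.e (nat_lit 336213) (nat_lit 13) (.e (nat_lit 393300) (nat_lit 27) (.e (nat_lit 491556) (nat_lit 9) .nil))))) .nil))) (.nd (nat_lit 6) 
(.lf (nat_lit 247740) (.g (nat_lit 1868) (.e (nat_lit 147465) (nat_lit 9) (.e (nat_lit 232) (nat_lit 21) (.e (nat_lit 336013) (nat_lit 2) (.e (nat_lit 90170) (nat_lit 13) (.e (nat_lit 172106) (nat_lit 10) .nil))))) .nil)) 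
(.lf (nat_lit 247804) (.g (nat_lit 522) (.e (nat_lit 147467) (nat_lit 9) (.e (nat_lit 232) (nat_lit 21) (.e (nat_lit 336060) (nat_lit 7) .nil))) .nil))))))) (.nd (nat_lit 2) (.nd (nat_lit 3) (.nd (nat_lit 4) (.nd (nat_lit 5) (.nd (nat_lit 6) 
(.lf (nat_lit 247682) (.g (nat_lit 1931) (.e (nat_lit 147463) (nat_lit 9) (.e (nat_lit 232) (nat_lit 21) (.e (nat_lit 336060) (nat_lit 7) (.e (nat_lit 319516) (nat_lit 11) .nil)))) .nil)) 
(.lf (nat_lit 247746) (.g (nat_lit 339) (.e (nat_lit 147465) (nat_lit 9) (.e (nat_lit 334) (nat_lit 26) (.e (nat_lit 384768) (nat_lit 10) .nil))) .nil))) (.nd (nat_lit 6) 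
(.lf (nat_lit 247714) (.g (nat_lit 1800) (.e (nat_lit 147463) (nat_lit 9) (.e (nat_lit 314) (nat_lit 23) (.e (nat_lit 352307) (nat_lit 21) (.e (nat_lit 57654) (nat_lit 152) (.e (nat_lit 1216) (nat_lit 90) .nil))))) .nil)) 
(.lf (nat_lit 247778) (.g (nat_lit 2686) (.e (nat_lit 147466) (nat_lit 9) (.e (nat_lit 307) (nat_lit 22) (.e (nat_lit 344117) (nat_lit 21) (.e (nat_lit 516130) (nat_lit 3) (.e (nat_lit 221203) (nat_lit 20) .nil))))) .nil)))) (.nd (nat_lit 5) (.nd (nat_lit 6) 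
(.lf (nat_lit 247698) (.g (nat_lit 2602) (.e (nat_lit 147463) (nat_lit 9) (.e (nat_lit 249) (nat_lit 21) (.e (nat_lit 336213) (nat_lit 13) (.e (nat_lit 393298) (nat_lit 27) (.e (nat_lit 491546) (nat_lit 9) .nil))))) .nil)) 
(.lf (nat_lit 247762) (.g (nat_lit 3061) (.e (nat_lit 147466) (nat_lit 9) (.e (nat_lit 232) (nat_lit 21) (.e (nat_lit 336060) (nat_lit 7) (.e (nat_lit 319533) (nat_lit 16) (.e (nat_lit 286753) (nat_lit 10) (.e (nat_lit 344160) (nat_lit 37) (.e (nat_lit 647196) (nat_lit 9) (.e (nat_lit 1313) (nat_lit 98) .nil)))))))) (.g (nat_lit 5) .nil .nil)))) (.nd (nat_lit 6) 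
(.lf (nat_lit 247730) (.g (nat_lit 848) (.e (nat_lit 147464) (nat_lit 9) (.e (nat_lit 255) (nat_lit 21) (.e (nat_lit 336088) (nat_lit 9) (.e (nat_lit 336438) (nat_lit 31) .nil)))) .nil)) 
(.lf (nat_lit 247794) (.g (nat_lit 1379) (.e (nat_lit 147466) (nat_lit 9) (.e (nat_lit 321) (nat_lit 24) (.e (nat_lit 360491) (nat_lit 22) (.e (nat_lit 778466) (nat_lit 11) (.e (nat_lit 32512) (nat_lit 9) .nil))))) .nil))))) (.nd (nat_lit 4) (.nd (nat_lit 5) (.nd (nat_lit 6) 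
(.lf (nat_lit 247690) (.g (nat_lit 1289) (.e (nat_lit 147463) (nat_lit 9) (.e (nat_lit 249) (nat_lit 21) (.e (nat_lit 336088) (nat_lit 9) (.e (nat_lit 336438) (nat_lit 31) (.e (nat_lit 466688) (nat_lit 4) .nil))))) .nil)) 
(.lf (nat_lit 247754) (.g (nat_lit 1500) (.e (nat_lit 147465) (nat_lit 9) (.e (nat_lit 334) (nat_lit 26) (.e (nat_lit 376859) (nat_lit 21) (.e (nat_lit 57666) (nat_lit 152) (.e (nat_lit 1077) (nat_lit 81) .nil))))) .nil))) (.nd (nat_lit 6) 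
(.lf (nat_lit 247722) (.g (nat_lit 311) (.e (nat_lit 147463) (nat_lit 9) (.e (nat_lit 321) (nat_lit 24) (.e (nat_lit 360488) (nat_lit 20) .nil))) .nil)) 
(.lf (nat_lit 247786) (.g (nat_lit 1824) (.e (nat_lit 147466) (nat_lit 9) (.e (nat_lit 314) (nat_lit 23) (.e (nat_lit 352322) (nat_lit 26) (.e (nat_lit 147496) (nat_lit 11) (.e (nat_lit 24631) (nat_lit 9) .nil))))) .nil)))) (.nd (nat_lit 5) (.nd (nat_lit 6) 
(.lf (nat_lit 247706) (.g (nat_lit 907) (.e (nat_lit 147463) (nat_lit 9) (.e (nat_lit 249) (nat_lit 21) (.e (nat_lit 336215) (nat_lit 13) (.e (nat_lit 393297) (nat_lit 27) .nil)))) .nil)) 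
(.lf (nat_lit 247770) (.g (nat_lit 3101) (.e (nat_lit 147466) (nat_lit 9) (.e (nat_lit 271) (nat_lit 21) (.e (nat_lit 336213) (nat_lit 13) (.e (nat_lit 393301) (nat_lit 27) (.e (nat_lit 491556) (nat_lit 9) .nil))))) .nil))) (.nd (nat_lit 6) 
(.lf (nat_lit 247738) (.g (nat_lit 952) (.e (nat_lit 147464) (nat_lit 9) (.e (nat_lit 334) (nat_lit 26) (.e (nat_lit 376860) (nat_lit 21) (.e (nat_lit 65280) (nat_lit 154) .nil)))) .nil)) 
(.lf (nat_lit 247802) (.g (nat_lit 2410) (.e (nat_lit 147466) (nat_lit 9) (.e (nat_lit 324) (nat_lit 24) (.e (nat_lit 360491) (nat_lit 22) (.e (nat_lit 778466) (nat_lit 11) (.e (nat_lit 24631) (nat_lit 9) (.e (nat_lit 336046) (nat_lit 6) .nil)))))) (.g (nat_lit 5) .nil .nil))))))) (.nd (nat_lit 3) (.nd (nat_lit 4) (.nd (nat_lit 5) (.nd (nat_lit 6) 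
(.lf (nat_lit 247686) (.g (nat_lit 681) (.e (nat_lit 147463) (nat_lit 9) (.e (nat_lit 249) (nat_lit 21) (.e (nat_lit 336027) (nat_lit 3) (.e (nat_lit 98372) (nat_lit 29) .nil)))) .nil)) 
(.lf (nat_lit 247750) (.g (nat_lit 970) (.e (nat_lit 147465) (nat_lit 9) (.e (nat_lit 334) (nat_lit 26) (.e (nat_lit 376857) (nat_lit 21) (.e (nat_lit 57680) (nat_lit 155) .nil)))) .nil))) (.nd (nat_lit 6) 
(.lf (nat_lit 247718) (.g (nat_lit 1194) (.e (nat_lit 147463) (nat_lit 9) (.e (nat_lit 314) (nat_lit 23) (.e (nat_lit 352316) (nat_lit 24) (.e (nat_lit 130816) (nat_lit 152) .nil)))) .nil)) 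
(.lf (nat_lit 247782) (.g (nat_lit 1095) (.e (nat_lit 147466) (nat_lit 9) (.e (nat_lit 314) (nat_lit 23) (.e (nat_lit 352307) (nat_lit 21) (.e (nat_lit 57655) (nat_lit 152) .nil)))) .nil)))) (.nd (nat_lit 5) (.nd (nat_lit 6) 
(.lf (nat_lit 247702) (.g (nat_lit 1502) (.e (nat_lit 147463) (nat_lit 9) (.e (nat_lit 249) (nat_lit 21) (.e (nat_lit 336215) (nat_lit 13) (.e (nat_lit 393232) (nat_lit 17) (.e (nat_lit 7936) (nat_lit 406) .nil))))) .nil)) 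
(.lf (nat_lit 247766) (.g (nat_lit 3923) (.e (nat_lit 147466) (nat_lit 9) (.e (nat_lit 232) (nat_lit 21) (.e (nat_lit 336060) (nat_lit 7) (.e (nat_lit 319534) (nat_lit 16) (.e (nat_lit 286756) (nat_lit 10) (.e (nat_lit 344160) (nat_lit 37) (.e (nat_lit 647196) (nat_lit 9) (.e (nat_lit 1313) (nat_lit 98) .nil)))))))) (.g (nat_lit 7) .nil .nil)))) (.nd (nat_lit 6) 
(.lf (nat_lit 247734) (.g (nat_lit 285) (.e (nat_lit 147464) (nat_lit 9) (.e (nat_lit 321) (nat_lit 24) (.e (nat_lit 368384) (nat_lit 24) .nil))) .nil)) 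
(.lf (nat_lit 247798) (.g (nat_lit 1396) (.e (nat_lit 147466) (nat_lit 9) (.e (nat_lit 324) (nat_lit 24) (.e (nat_lit 360449) (nat_lit 0) (.e (nat_lit 7122) (nat_lit 382) (.e (nat_lit 1224) (nat_lit 90) .nil))))) .nil))))) (.nd (nat_lit 4) (.nd (nat_lit 5) (.nd (nat_lit 6) 
(.lf (nat_lit 247694) (.g (nat_lit 2339) (.e (nat_lit 147463) (nat_lit 9) (.e (nat_lit 249) (nat_lit 21) (.e (nat_lit 336213) (nat_lit 13) (.e (nat_lit 393232) (nat_lit 17) (.e (nat_lit 7587) (nat_lit 406) .nil))))) .nil)) 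
(.lf (nat_lit 247758) (.g (nat_lit 442) (.e (nat_lit 147466) (nat_lit 9) (.e (nat_lit 232) (nat_lit 21) (.e (nat_lit 336060) (nat_lit 7) .nil))) .nil))) (.nd (nat_lit 6) 
(.lf (nat_lit 247726) (.g (nat_lit 1593) (.e (nat_lit 147463) (nat_lit 9) (.e (nat_lit 334) (nat_lit 26) (.e (nat_lit 376857) (nat_lit 21) (.e (nat_lit 57663) (nat_lit 152) (.e (nat_lit 7936) (nat_lit 90) .nil))))) .nil)) 
(.lf (nat_lit 247790) (.g (nat_lit 1212) (.e (nat_lit 147466) (nat_lit 9) (.e (nat_lit 321) (nat_lit 24) (.e (nat_lit 360449) (nat_lit 0) (.e (nat_lit 7125) (nat_lit 382) (.e (nat_lit 7936) (nat_lit 90) .nil))))) .nil)))) (.nd (nat_lit 5) (.nd (nat_lit 6) 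
(.lf (nat_lit 247710) (.g (nat_lit 1698) (.e (nat_lit 147463) (nat_lit 9) (.e (nat_lit 309) (nat_lit 23) (.e (nat_lit 352309) (nat_lit 21) (.e (nat_lit 57655) (nat_lit 152) (.e (nat_lit 1216) (nat_lit 90) .nil))))) .nil)) 
(.lf (nat_lit 247774) (.g (nat_lit 2103) (.e (nat_lit 147466) (nat_lit 9) (.e (nat_lit 297) (nat_lit 22) (.e (nat_lit 344119) (nat_lit 21) (.e (nat_lit 516117) (nat_lit 1) (.e (nat_lit 164226) (nat_lit 181) .nil))))) .nil))) (.nd (nat_lit 6) 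
(.lf (nat_lit 247742) (.g (nat_lit 3386) (.e (nat_lit 147465) (nat_lit 9) (.e (nat_lit 232) (nat_lit 21) (.e (nat_lit 336060) (nat_lit 7) (.e (nat_lit 319534) (nat_lit 16) (.e (nat_lit 286756) (nat_lit 10) (.e (nat_lit 344160) (nat_lit 37) (.e (nat_lit 647195) (nat_lit 9) (.e (nat_lit 7936) (nat_lit 98) .nil)))))))) (.g (nat_lit 7) .nil .nil))) 
(.lf (nat_lit 247806) (.g (nat_lit 993) (.e (nat_lit 147467) (nat_lit 9) (.e (nat_lit 232) (nat_lit 21) (.e (nat_lit 336060) (nat_lit 7) (.e (nat_lit 319504) (nat_lit 10) .nil)))) .nil)))))))) (.nd (nat_lit 1) (.nd (nat_lit 2) (.nd (nat_lit 3) (.nd (nat_lit 4) (.nd (nat_lit 5) (.nd (nat_lit 6) 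
(.lf (nat_lit 247681) (.g (nat_lit 1222) (.e (nat_lit 147463) (nat_lit 9) (.e (nat_lit 232) (nat_lit 21) (.e (nat_lit 336060) (nat_lit 7) (.e (nat_lit 319505) (nat_lit 10) .nil)))) .nil)) 
(.lf (nat_lit 247745) (.g (nat_lit 1641) (.e (nat_lit 147465) (nat_lit 9) (.e (nat_lit 324) (nat_lit 24) (.e (nat_lit 360452) (nat_lit 0) (.e (nat_lit 7272) (nat_lit 385) (.e (nat_lit 122916) (nat_lit 14) .nil))))) .nil))) (.nd (nat_lit 6) 
(.lf (nat_lit 247713) (.g (nat_lit 640) (.e (nat_lit 147463) (nat_lit 9) (.e (nat_lit 312) (nat_lit 23) (.e (nat_lit 352268) (nat_lit 6) .nil))) .nil)) 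
(.lf (nat_lit 247777) (.g (nat_lit 1422) (.e (nat_lit 147466) (nat_lit 9) (.e (nat_lit 304) (nat_lit 22) (.e (nat_lit 344130) (nat_lit 26) (.e (nat_lit 557104) (nat_lit 14) (.e (nat_lit 180266) (nat_lit 22) .nil))))) .nil)))) (.nd (nat_lit 5) (.nd (nat_lit 6) 
(.lf (nat_lit 247697) (.g (nat_lit 1448) (.e (nat_lit 147463) (nat_lit 9) (.e (nat_lit 249) (nat_lit 21) (.e (nat_lit 336213) (nat_lit 13) (.e (nat_lit 393249) (nat_lit 17) .nil)))) .nil)) 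
(.lf (nat_lit 247761) (.g (nat_lit 2553) (.e (nat_lit 147466) (nat_lit 9) (.e (nat_lit 232) (nat_lit 21) (.e (nat_lit 336060) (nat_lit 7) (.e (nat_lit 319533) (nat_lit 16) (.e (nat_lit 286753) (nat_lit 10) (.e (nat_lit 344160) (nat_lit 37) (.e (nat_lit 647190) (nat_lit 9) (.e (nat_lit 7936) (nat_lit 98) .nil)))))))) (.g (nat_lit 4) .nil .nil)))) (.nd (nat_lit 6) 
(.lf (nat_lit 247729) (.g (nat_lit 1039) (.e (nat_lit 147463) (nat_lit 9) (.e (nat_lit 334) (nat_lit 26) (.e (nat_lit 376860) (nat_lit 21) (.e (nat_lit 57671) (nat_lit 152) .nil)))) .nil)) 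
(.lf (nat_lit 247793) (.g (nat_lit 1147) (.e (nat_lit 147466) (nat_lit 9) (.e (nat_lit 321) (nat_lit 24) (.e (nat_lit 360491) (nat_lit 22) (.e (nat_lit 778465) (nat_lit 11) (.e (nat_lit 24636) (nat_lit 9) .nil))))) .nil))))) (.nd (nat_lit 4) (.nd (nat_lit 5) (.nd (nat_lit 6) 
(.lf (nat_lit 247689) (.g (nat_lit 1629) (.e (nat_lit 147463) (nat_lit 9) (.e (nat_lit 249) (nat_lit 21) (.e (nat_lit 336088) (nat_lit 9) (.e (nat_lit 336000) (nat_lit 1) (.e (nat_lit 57655) (nat_lit 152) .nil))))) .nil)) 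
(.lf (nat_lit 247753) (.g (nat_lit 2387) (.e (nat_lit 147465) (nat_lit 9) (.e (nat_lit 334) (nat_lit 26) (.e (nat_lit 376859) (nat_lit 21) (.e (nat_lit 57655) (nat_lit 152) (.e (nat_lit 1217) (nat_lit 90) (.e (nat_lit 81963) (nat_lit 26) .nil)))))) (.g (nat_lit 0) .nil .nil)))) (.nd (nat_lit 6) 
(.lf (nat_lit 247721) (.g (nat_lit 1468) (.e (nat_lit 147463) (nat_lit 9) (.e (nat_lit 321) (nat_lit 24) (.e (nat_lit 360449) (nat_lit 0) (.e (nat_lit 7122) (nat_lit 382) (.e (nat_lit 1222) (nat_lit 90) .nil))))) .nil)) 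
(.lf (nat_lit 247785) (.g (nat_lit 1827) (.e (nat_lit 147466) (nat_lit 9) (.e (nat_lit 314) (nat_lit 23) (.e (nat_lit 352322) (nat_lit 26) (.e (nat_lit 147495) (nat_lit 11) (.e (nat_lit 24631) (nat_lit 9) .nil))))) .nil)))) (.nd (nat_lit 5) (.nd (nat_lit 6) 
(.lf (nat_lit 247705) (.g (nat_lit 889) (.e (nat_lit 147463) (nat_lit 9) (.e (nat_lit 249) (nat_lit 21) (.e (nat_lit 336215) (nat_lit 13) (.e (nat_lit 401152) (nat_lit 17) .nil)))) .nil)) 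
(.lf (nat_lit 247769) (.g (nat_lit 2964) (.e (nat_lit 147466) (nat_lit 9) (.e (nat_lit 271) (nat_lit 21) (.e (nat_lit 336213) (nat_lit 13) (.e (nat_lit 393299) (nat_lit 27) (.e (nat_lit 491556) (nat_lit 9) .nil))))) .nil))) (.nd (nat_lit 6) 
(.lf (nat_lit 247737) (.g (nat_lit 1243) (.e (nat_lit 147464) (nat_lit 9) (.e (nat_lit 334) (nat_lit 26) (.e (nat_lit 376860) (nat_lit 21) (.e (nat_lit 57671) (nat_lit 152) (.e (nat_lit 7936) (nat_lit 90) .nil))))) .nil)) 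
(.lf (nat_lit 247801) (.g (nat_lit 2097) (.e (nat_lit 147466) (nat_lit 9) (.e (nat_lit 324) (nat_lit 24) (.e (nat_lit 360491) (nat_lit 22) (.e (nat_lit 778465) (nat_lit 11) (.e (nat_lit 24631) (nat_lit 9) (.e (nat_lit 336046) (nat_lit 6) .nil)))))) (.g (nat_lit 5) .nil .nil))))))) (.nd (nat_lit 3) (.nd (nat_lit 4) (.nd (nat_lit 5) (.nd (nat_lit 6) 
(.lf (nat_lit 247685) (.g (nat_lit 1562) (.e (nat_lit 147463) (nat_lit 9) (.e (nat_lit 249) (nat_lit 21) (.e (nat_lit 336021) (nat_lit 3) (.e (nat_lit 98373) (nat_lit 29) .nil)))) .nil)) 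
(.lf (nat_lit 247749) (.g (nat_lit 1512) (.e (nat_lit 147465) (nat_lit 9) (.e (nat_lit 334) (nat_lit 26) (.e (nat_lit 376857) (nat_lit 21) (.e (nat_lit 57663) (nat_lit 152) (.e (nat_lit 7936) (nat_lit 90) .nil))))) .nil))) (.nd (nat_lit 6) 
(.lf (nat_lit 247717) (.g (nat_lit 1932) (.e (nat_lit 147463) (nat_lit 9) (.e (nat_lit 314) (nat_lit 23) (.e (nat_lit 352309) (nat_lit 21) (.e (nat_lit 57654) (nat_lit 152) (.e (nat_lit 1217) (nat_lit 90) .nil))))) .nil)) 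
(.lf (nat_lit 247781) (.g (nat_lit 372) (.e (nat_lit 147466) (nat_lit 9) (.e (nat_lit 314) (nat_lit 23) (.e (nat_lit 352283) (nat_lit 20) .nil))) .nil)))) (.nd (nat_lit 5) (.nd (nat_lit 6) 
(.lf (nat_lit 247701) (.g (nat_lit 1039) (.e (nat_lit 147463) (nat_lit 9) (.e (nat_lit 249) (nat_lit 21) (.e (nat_lit 336215) (nat_lit 13) (.e (nat_lit 393232) (nat_lit 17) .nil)))) .nil)) 
(.lf (nat_lit 247765) (.g (nat_lit 3169) (.e (nat_lit 147466) (nat_lit 9) (.e (nat_lit 232) (nat_lit 21) (.e (nat_lit 336060) (nat_lit 7) (.e (nat_lit 319534) (nat_lit 16) (.e (nat_lit 286756) (nat_lit 10) (.e (nat_lit 344160) (nat_lit 37) (.e (nat_lit 647195) (nat_lit 9) (.e (nat_lit 7936) (nat_lit 98) .nil)))))))) (.g (nat_lit 6) .nil .nil)))) (.nd (nat_lit 6) 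
(.lf (nat_lit 247733) (.g (nat_lit 352) (.e (nat_lit 147464) (nat_lit 9) (.e (nat_lit 321) (nat_lit 24) (.e (nat_lit 360489) (nat_lit 21) .nil))) .nil)) 
(.lf (nat_lit 247797) (.g (nat_lit 1425) (.e (nat_lit 147466) (nat_lit 9) (.e (nat_lit 322) (nat_lit 24) (.e (nat_lit 360451) (nat_lit 0) (.e (nat_lit 7124) (nat_lit 382) (.e (nat_lit 7936) (nat_lit 90) .nil))))) .nil))))) (.nd (nat_lit 4) (.nd (nat_lit 5) (.nd (nat_lit 6) 
(.lf (nat_lit 247693) (.g (nat_lit 1486) (.e (nat_lit 147463) (nat_lit 9) (.e (nat_lit 249) (nat_lit 21) (.e (nat_lit 336213) (nat_lit 13) (.e (nat_lit 393231) (nat_lit 17) .nil)))) .nil)) 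
(.lf (nat_lit 247757) (.g (nat_lit 1676) (.e (nat_lit 147466) (nat_lit 9) (.e (nat_lit 232) (nat_lit 21) (.e (nat_lit 336028) (nat_lit 3) (.e (nat_lit 98373) (nat_lit 29) (.e (nat_lit 450587) (nat_lit 10) .nil))))) .nil))) (.nd (nat_lit 6) 
(.lf (nat_lit 247725) (.g (nat_lit 1445) (.e (nat_lit 147463) (nat_lit 9) (.e (nat_lit 334) (nat_lit 26) (.e (nat_lit 376857) (nat_lit 21) (.e (nat_lit 57657) (nat_lit 152) (.e (nat_lit 7936) (nat_lit 90) .nil))))) .nil)) 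
(.lf (nat_lit 247789) (.g (nat_lit 1895) (.e (nat_lit 147466) (nat_lit 9) (.e (nat_lit 321) (nat_lit 24) (.e (nat_lit 360449) (nat_lit 0) (.e (nat_lit 7122) (nat_lit 382) (.e (nat_lit 7936) (nat_lit 90) (.e (nat_lit 81963) (nat_lit 26) .nil)))))) (.g (nat_lit 4) .nil .nil))))) (.nd (nat_lit 5) (.nd (nat_lit 6) 
(.lf (nat_lit 247709) (.g (nat_lit 2645) (.e (nat_lit 147463) (nat_lit 9) (.e (nat_lit 249) (nat_lit 21) (.e (nat_lit 336223) (nat_lit 13) (.e (nat_lit 393301) (nat_lit 27) (.e (nat_lit 491552) (nat_lit 9) (.e (nat_lit 336046) (nat_lit 6) .nil)))))) (.g (nat_lit 5) .nil .nil))) 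
(.lf (nat_lit 247773) (.g (nat_lit 1586) (.e (nat_lit 147466) (nat_lit 9) (.e (nat_lit 276) (nat_lit 21) (.e (nat_lit 336213) (nat_lit 13) (.e (nat_lit 393298) (nat_lit 27) .nil)))) .nil))) (.nd (nat_lit 6) 
(.lf (nat_lit 247741) (.g (nat_lit 3433) (.e (nat_lit 147465) (nat_lit 9) (.e (nat_lit 232) (nat_lit 21) (.e (nat_lit 336060) (nat_lit 7) (.e (nat_lit 319534) (nat_lit 16) (.e (nat_lit 286756) (nat_lit 10) (.e (nat_lit 344160) (nat_lit 37) (.e (nat_lit 647190) (nat_lit 9) (.e (nat_lit 7936) (nat_lit 98) .nil)))))))) (.g (nat_lit 7) .nil .nil))) 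
(.lf (nat_lit 247805) (.g (nat_lit 1864) (.e (nat_lit 147467) (nat_lit 9) (.e (nat_lit 232) (nat_lit 21) (.e (nat_lit 336060) (nat_lit 7) (.e (nat_lit 319500) (nat_lit 10) .nil)))) .nil))))))) (.nd (nat_lit 2) (.nd (nat_lit 3) (.nd (nat_lit 4) (.nd (nat_lit 5) (.nd (nat_lit 6) 
(.lf (nat_lit 247683) (.g (nat_lit 3746) (.e (nat_lit 147463) (nat_lit 9) (.e (nat_lit 232) (nat_lit 21) (.e (nat_lit 336060) (nat_lit 7) (.e (nat_lit 319534) (nat_lit 16) (.e (nat_lit 286756) (nat_lit 10) (.e (nat_lit 344160) (nat_lit 37) (.e (nat_lit 647190) (nat_lit 9) (.e (nat_lit 1311) (nat_lit 98) .nil)))))))) (.g (nat_lit 7) .nil .nil))) 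
(.lf (nat_lit 247747) (.g (nat_lit 2063) (.e (nat_lit 147465) (nat_lit 9) (.e (nat_lit 334) (nat_lit 26) (.e (nat_lit 376848) (nat_lit 20) (.e (nat_lit 2276) (nat_lit 150) (.e (nat_lit 770074) (nat_lit 10) (.e (nat_lit 81965) (nat_lit 26) .nil)))))) (.g (nat_lit 6) .nil .nil)))) (.nd (nat_lit 6) 
(.lf (nat_lit 247715) (.g (nat_lit 1745) (.e (nat_lit 147463) (nat_lit 9) (.e (nat_lit 314) (nat_lit 23) (.e (nat_lit 352307) (nat_lit 21) (.e (nat_lit 57654) (nat_lit 152) (.e (nat_lit 1217) (nat_lit 90) .nil))))) .nil)) 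
(.lf (nat_lit 247779) (.g (nat_lit 437) (.e (nat_lit 147466) (nat_lit 9) (.e (nat_lit 312) (nat_lit 23) (.e (nat_lit 352272) (nat_lit 10) .nil))) .nil)))) (.nd (nat_lit 5) (.nd (nat_lit 6) 
(.lf (nat_lit 247699) (.g (nat_lit 889) (.e (nat_lit 147463) (nat_lit 9) (.e (nat_lit 249) (nat_lit 21) (.e (nat_lit 336215) (nat_lit 13) (.e (nat_lit 401152) (nat_lit 1) .nil)))) .nil)) 
(.lf (nat_lit 247763) (.g (nat_lit 1555) (.e (nat_lit 147466) (nat_lit 9) (.e (nat_lit 232) (nat_lit 21) (.e (nat_lit 336060) (nat_lit 7) (.e (nat_lit 319534) (nat_lit 16) (.e (nat_lit 286756) (nat_lit 10) .nil))))) .nil))) (.nd (nat_lit 6) 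
(.lf (nat_lit 247731) (.g (nat_lit 1259) (.e (nat_lit 147464) (nat_lit 9) (.e (nat_lit 321) (nat_lit 24) (.e (nat_lit 360449) (nat_lit 0) (.e (nat_lit 7125) (nat_lit 382) (.e (nat_lit 1223) (nat_lit 90) .nil))))) .nil)) 
(.lf (nat_lit 247795) (.g (nat_lit 2363) (.e (nat_lit 147466) (nat_lit 9) (.e (nat_lit 321) (nat_lit 24) (.e (nat_lit 360492) (nat_lit 22) (.e (nat_lit 778465) (nat_lit 11) (.e (nat_lit 24631) (nat_lit 9) (.e (nat_lit 336046) (nat_lit 6) .nil)))))) (.g (nat_lit 5) .nil .nil)))))) (.nd (nat_lit 4) (.nd (nat_lit 5) (.nd (nat_lit 6) 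
(.lf (nat_lit 247691) (.g (nat_lit 612) (.e (nat_lit 147463) (nat_lit 9) (.e (nat_lit 249) (nat_lit 21) (.e (nat_lit 336212) (nat_lit 13) (.e (nat_lit 393300) (nat_lit 27) .nil)))) .nil)) 
(.lf (nat_lit 247755) (.g (nat_lit 1528) (.e (nat_lit 147465) (nat_lit 9) (.e (nat_lit 334) (nat_lit 26) (.e (nat_lit 376859) (nat_lit 21) (.e (nat_lit 57666) (nat_lit 152) (.e (nat_lit 7936) (nat_lit 90) .nil))))) .nil))) (.nd (nat_lit 6) 
(.lf (nat_lit 247723) (.g (nat_lit 964) (.e (nat_lit 147463) (nat_lit 9) (.e (nat_lit 324) (nat_lit 24) (.e (nat_lit 360452) (nat_lit 0) (.e (nat_lit 7936) (nat_lit 382) .nil)))) .nil)) 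
(.lf (nat_lit 247787) (.g (nat_lit 1878) (.e (nat_lit 147466) (nat_lit 9) (.e (nat_lit 314) (nat_lit 23) (.e (nat_lit 352324) (nat_lit 26) (.e (nat_lit 147495) (nat_lit 11) (.e (nat_lit 24631) (nat_lit 9) .nil))))) .nil)))) (.nd (nat_lit 5) (.nd (nat_lit 6) 
(.lf (nat_lit 247707) (.g (nat_lit 1573) (.e (nat_lit 147463) (nat_lit 9) (.e (nat_lit 249) (nat_lit 21) (.e (nat_lit 336223) (nat_lit 13) (.e (nat_lit 393234) (nat_lit 17) (.e (nat_lit 7589) (nat_lit 406) .nil))))) .nil)) 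
(.lf (nat_lit 247771) (.g (nat_lit 3416) (.e (nat_lit 147466) (nat_lit 9) (.e (nat_lit 275) (nat_lit 21) (.e (nat_lit 336027) (nat_lit 3) (.e (nat_lit 98373) (nat_lit 29) (.e (nat_lit 450587) (nat_lit 10) (.e (nat_lit 573454) (nat_lit 9) (.e (nat_lit 1315) (nat_lit 98) .nil))))))) (.g (nat_lit 5) .nil .nil)))) (.nd (nat_lit 6) 
(.lf (nat_lit 247739) (.g (nat_lit 880) (.e (nat_lit 147464) (nat_lit 9) (.e (nat_lit 2668) (nat_lit 167) (.e (nat_lit 196683) (nat_lit 18) .nil))) .nil)) 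
(.lf (nat_lit 247803) (.g (nat_lit 306) (.e (nat_lit 147466) (nat_lit 9) (.e (nat_lit 334) (nat_lit 26) (.e (nat_lit 384768) (nat_lit 12) .nil))) .nil)))))) (.nd (nat_lit 3) (.nd (nat_lit 4) (.nd (nat_lit 5) (.nd (nat_lit 6) 
(.lf (nat_lit 247687) (.g (nat_lit 1565) (.e (nat_lit 147463) (nat_lit 9) (.e (nat_lit 249) (nat_lit 21) (.e (nat_lit 336027) (nat_lit 3) (.e (nat_lit 98373) (nat_lit 29) (.e (nat_lit 450587) (nat_lit 10) .nil))))) .nil)) 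
(.lf (nat_lit 247751) (.g (nat_lit 641) (.e (nat_lit 147465) (nat_lit 9) (.e (nat_lit 334) (nat_lit 26) (.e (nat_lit 376857) (nat_lit 21) (.e (nat_lit 57684) (nat_lit 155) .nil)))) .nil))) (.nd (nat_lit 6) 
(.lf (nat_lit 247719) (.g (nat_lit 625) (.e (nat_lit 147463) (nat_lit 9) (.e (nat_lit 314) (nat_lit 23) (.e (nat_lit 352318) (nat_lit 24) .nil))) .nil)) 
(.lf (nat_lit 247783) (.g (nat_lit 813) (.e (nat_lit 147466) (nat_lit 9) (.e (nat_lit 314) (nat_lit 23) (.e (nat_lit 352307) (nat_lit 21) (.e (nat_lit 57683) (nat_lit 155) .nil)))) .nil)))) (.nd (nat_lit 5) (.nd (nat_lit 6) 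
(.lf (nat_lit 247703) (.g (nat_lit 1268) (.e (nat_lit 147463) (nat_lit 9) (.e (nat_lit 249) (nat_lit 21) (.e (nat_lit 336215) (nat_lit 13) (.e (nat_lit 393242) (nat_lit 17) (.e (nat_lit 7550) (nat_lit 402) .nil))))) .nil)) 
(.lf (nat_lit 247767) (.g (nat_lit 2656) (.e (nat_lit 147466) (nat_lit 9) (.e (nat_lit 252) (nat_lit 21) (.e (nat_lit 336223) (nat_lit 13) (.e (nat_lit 393301) (nat_lit 27) (.e (nat_lit 491556) (nat_lit 9) .nil))))) .nil))) (.nd (nat_lit 6) 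
(.lf (nat_lit 247735) (.g (nat_lit 1055) (.e (nat_lit 147464) (nat_lit 9) (.e (nat_lit 334) (nat_lit 26) (.e (nat_lit 376857) (nat_lit 21) (.e (nat_lit 57657) (nat_lit 152) .nil)))) .nil)) 
(.lf (nat_lit 247799) (.g (nat_lit 1276) (.e (nat_lit 147466) (nat_lit 9) (.e (nat_lit 324) (nat_lit 24) (.e (nat_lit 360449) (nat_lit 0) (.e (nat_lit 7125) (nat_lit 382) (.e (nat_lit 7936) (nat_lit 90) .nil))))) .nil))))) (.nd (nat_lit 4) (.nd (nat_lit 5) (.nd (nat_lit 6) 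
(.lf (nat_lit 247695) (.g (nat_lit 1164) (.e (nat_lit 147463) (nat_lit 9) (.e (nat_lit 249) (nat_lit 21) (.e (nat_lit 336213) (nat_lit 13) (.e (nat_lit 393233) (nat_lit 17) .nil)))) .nil)) 
(.lf (nat_lit 247759) (.g (nat_lit 1906) (.e (nat_lit 147466) (nat_lit 9) (.e (nat_lit 232) (nat_lit 21) (.e (nat_lit 336060) (nat_lit 7) (.e (nat_lit 319500) (nat_lit 10) .nil)))) .nil))) (.nd (nat_lit 6) 
(.lf (nat_lit 247727) (.g (nat_lit 1128) (.e (nat_lit 147463) (nat_lit 9) (.e (nat_lit 334) (nat_lit 26) (.e (nat_lit 376859) (nat_lit 21) (.e (nat_lit 65280) (nat_lit 152) .nil)))) .nil)) 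
(.lf (nat_lit 247791) (.g (nat_lit 690) (.e (nat_lit 147466) (nat_lit 9) (.e (nat_lit 321) (nat_lit 24) (.e (nat_lit 360451) (nat_lit 0) (.e (nat_lit 7122) (nat_lit 382) .nil)))) .nil)))) (.nd (nat_lit 5) (.nd (nat_lit 6) 
(.lf (nat_lit 247711) (.g (nat_lit 719) (.e (nat_lit 147463) (nat_lit 9) (.e (nat_lit 312) (nat_lit 23) (.e (nat_lit 352261) (nat_lit 0) (.e (nat_lit 2440) (nat_lit 157) .nil)))) .nil)) 
(.lf (nat_lit 247775) (.g (nat_lit 1464) (.e (nat_lit 147466) (nat_lit 9) (.e (nat_lit 297) (nat_lit 22) (.e (nat_lit 344131) (nat_lit 26) (.e (nat_lit 557105) (nat_lit 14) (.e (nat_lit 180265) (nat_lit 21) .nil))))) .nil))) (.nd (nat_lit 6) 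
(.lf (nat_lit 247743) (.g (nat_lit 1675) (.e (nat_lit 147465) (nat_lit 9) (.e (nat_lit 271) (nat_lit 21) (.e (nat_lit 336011) (nat_lit 2) (.e (nat_lit 90170) (nat_lit 13) (.e (nat_lit 172106) (nat_lit 10) .nil))))) .nil)) 
(.lf (nat_lit 247807) (.g (nat_lit 1420) (.e (nat_lit 147467) (nat_lit 9) (.e (nat_lit 232) (nat_lit 21) (.e (nat_lit 336060) (nat_lit 7) (.e (nat_lit 319504) (nat_lit 10) (.e (nat_lit 720) (nat_lit 64) .nil))))) .nil)))))))))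

noncomputable def tv3211 : DT := (.nd (nat_lit 0) (.nd (nat_lit 1) (.nd (nat_lit 2) (.nd (nat_lit 3) (.nd (nat_lit 4) (.nd (nat_lit 5) 
(.lf (nat_lit 247808) (.g (nat_lit 1239) (.e (nat_lit 147467) (nat_lit 9) (.e (nat_lit 232) (nat_lit 21) (.e (nat_lit 336060) (nat_lit 7) (.e (nat_lit 319505) (nat_lit 10) .nil)))) .nil)) 
(.lf (nat_lit 247840) (.g (nat_lit 1365) (.e (nat_lit 147467) (nat_lit 9) (.e (nat_lit 297) (nat_lit 22) (.e (nat_lit 344131) (nat_lit 26) (.e (nat_lit 557105) (nat_lit 14) (.e (nat_lit 180265) (nat_lit 21) .nil))))) .nil))) (.nd (nat_lit 5) 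
(.lf (nat_lit 247824) (.g (nat_lit 1403) (.e (nat_lit 147467) (nat_lit 9) (.e (nat_lit 293) (nat_lit 21) (.e (nat_lit 336209) (nat_lit 13) (.e (nat_lit 393234) (nat_lit 17) (.e (nat_lit 7587) (nat_lit 406) .nil))))) .nil)) 
(.lf (nat_lit 247856) (.g (nat_lit 330) (.e (nat_lit 147467) (nat_lit 9) (.e (nat_lit 297) (nat_lit 22) (.e (nat_lit 344133) (nat_lit 26) .nil))) .nil)))) (.nd (nat_lit 4) (.nd (nat_lit 5) 
(.lf (nat_lit 247816) (.g (nat_lit 1166) (.e (nat_lit 147467) (nat_lit 9) (.e (nat_lit 232) (nat_lit 21) (.e (nat_lit 336212) (nat_lit 13) (.e (nat_lit 393301) (nat_lit 27) .nil)))) .nil)) 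
(.lf (nat_lit 247848) (.g (nat_lit 1938) (.e (nat_lit 147467) (nat_lit 9) (.e (nat_lit 297) (nat_lit 22) (.e (nat_lit 344132) (nat_lit 26) (.e (nat_lit 557101) (nat_lit 13) (.e (nat_lit 172051) (nat_lit 0) (.e (nat_lit 3418) (nat_lit 213) (.e (nat_lit 663567) (nat_lit 4) (.e (nat_lit 65578) (nat_lit 6) .nil)))))))) (.g (nat_lit 4) .nil .nil)))) (.nd (nat_lit 5) 
(.lf (nat_lit 247832) (.g (nat_lit 1551) (.e (nat_lit 147467) (nat_lit 9) (.e (nat_lit 297) (nat_lit 22) (.e (nat_lit 344127) (nat_lit 26) (.e (nat_lit 557104) (nat_lit 14) (.e (nat_lit 180265) (nat_lit 21) .nil))))) .nil)) 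
(.lf (nat_lit 247864) (.g (nat_lit 2645) (.e (nat_lit 147467) (nat_lit 9) (.e (nat_lit 297) (nat_lit 22) (.e (nat_lit 344133) (nat_lit 26) (.e (nat_lit 557098) (nat_lit 13) (.e (nat_lit 172045) (nat_lit 0) (.e (nat_lit 3417) (nat_lit 213) (.e (nat_lit 663567) (nat_lit 4) (.e (nat_lit 65578) (nat_lit 6) .nil)))))))) (.g (nat_lit 4) .nil .nil)))))) (.nd (nat_lit 3) (.nd (nat_lit 4) (.nd (nat_lit 5) 
(.lf (nat_lit 247812) (.g (nat_lit 1788) (.e (nat_lit 147467) (nat_lit 9) (.e (nat_lit 232) (nat_lit 21) (.e (nat_lit 336060) (nat_lit 7) (.e (nat_lit 319533) (nat_lit 16) (.e (nat_lit 286753) (nat_lit 10) .nil))))) .nil)) 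
(.lf (nat_lit 247844) (.g (nat_lit 2329) (.e (nat_lit 147467) (nat_lit 9) (.e (nat_lit 297) (nat_lit 22) (.e (nat_lit 344132) (nat_lit 26) (.e (nat_lit 557100) (nat_lit 13) (.e (nat_lit 172049) (nat_lit 0) .nil))))) .nil))) (.nd (nat_lit 5) 
(.lf (nat_lit 247828) (.g (nat_lit 1982) (.e (nat_lit 147467) (nat_lit 9) (.e (nat_lit 297) (nat_lit 22) (.e (nat_lit 344119) (nat_lit 21) (.e (nat_lit 516117) (nat_lit 1) (.e (nat_lit 164226) (nat_lit 181) .nil))))) .nil)) 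
(.lf (nat_lit 247860) (.g (nat_lit 2579) (.e (nat_lit 147467) (nat_lit 9) (.e (nat_lit 297) (nat_lit 22) (.e (nat_lit 344133) (nat_lit 26) (.e (nat_lit 557098) (nat_lit 13) (.e (nat_lit 172032) (nat_lit 0) (.e (nat_lit 3437) (nat_lit 214) (.e (nat_lit 671762) (nat_lit 4) (.e (nat_lit 65580) (nat_lit 6) .nil)))))))) (.g (nat_lit 4) .nil .nil))))) (.nd (nat_lit 4) (.nd (nat_lit 5) 
(.lf (nat_lit 247820) (.g (nat_lit 2325) (.e (nat_lit 147467) (nat_lit 9) (.e (nat_lit 268) (nat_lit 21) (.e (nat_lit 336224) (nat_lit 13) (.e (nat_lit 393298) (nat_lit 27) (.e (nat_lit 491556) (nat_lit 9) .nil))))) .nil)) 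
(.lf (nat_lit 247852) (.g (nat_lit 1626) (.e (nat_lit 147467) (nat_lit 9) (.e (nat_lit 297) (nat_lit 22) (.e (nat_lit 344132) (nat_lit 26) (.e (nat_lit 557105) (nat_lit 14) (.e (nat_lit 180227) (nat_lit 0) .nil))))) .nil))) (.nd (nat_lit 5) 
(.lf (nat_lit 247836) (.g (nat_lit 1825) (.e (nat_lit 147467) (nat_lit 9) (.e (nat_lit 297) (nat_lit 22) (.e (nat_lit 344131) (nat_lit 26) (.e (nat_lit 557103) (nat_lit 14) (.e (nat_lit 180229) (nat_lit 0) .nil))))) .nil)) 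
(.lf (nat_lit 247868) (.g (nat_lit 2369) (.e (nat_lit 147467) (nat_lit 9) (.e (nat_lit 297) (nat_lit 22) (.e (nat_lit 344133) (nat_lit 26) (.e (nat_lit 557098) (nat_lit 13) (.e (nat_lit 172051) (nat_lit 0) (.e (nat_lit 3416) (nat_lit 213) (.e (nat_lit 663567) (nat_lit 4) (.e (nat_lit 65578) (nat_lit 6) .nil)))))))) (.g (nat_lit 4) .nil .nil))))))) 
(.nd (nat_lit 2) (.nd (nat_lit 3) (.nd (nat_lit 4) (.nd (nat_lit 5) 
(.lf (nat_lit 247810) (.g (nat_lit 2355) (.e (nat_lit 147467) (nat_lit 9) (.e (nat_lit 232) (nat_lit 21) (.e (nat_lit 336060) (nat_lit 7) (.e (nat_lit 319505) (nat_lit 10) (.e (nat_lit 720) (nat_lit 64) (.e (nat_lit 688177) (nat_lit 16) (.e (nat_lit 65598) (nat_lit 9) (.e (nat_lit 336048) (nat_lit 6) .nil)))))))) (.g (nat_lit 4) .nil .nil))) 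
(.lf (nat_lit 247842) (.g (nat_lit 933) (.e (nat_lit 147467) (nat_lit 9) (.e (nat_lit 297) (nat_lit 22) (.e (nat_lit 344132) (nat_lit 26) (.e (nat_lit 557100) (nat_lit 13) .nil)))) .nil))) (.nd (nat_lit 5) 
(.lf (nat_lit 247826) (.g (nat_lit 424) (.e (nat_lit 147467) (nat_lit 9) (.e (nat_lit 297) (nat_lit 22) (.e (nat_lit 344074) (nat_lit 13) .nil))) .nil)) 
(.lf (nat_lit 247858) (.g (nat_lit 2010) (.e (nat_lit 147467) (nat_lit 9) (.e (nat_lit 297) (nat_lit 22) (.e (nat_lit 344133) (nat_lit 26) (.e (nat_lit 557068) (nat_lit 9) (.e (nat_lit 2972) (nat_lit 185) .nil))))) .nil)))) (.nd (nat_lit 4) (.nd (nat_lit 5) 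
(.lf (nat_lit 247818) (.g (nat_lit 1798) (.e (nat_lit 147467) (nat_lit 9) (.e (nat_lit 268) (nat_lit 21) (.e (nat_lit 336173) (nat_lit 10) (.e (nat_lit 344177) (nat_lit 43) (.e (nat_lit 770074) (nat_lit 10) .nil))))) .nil)) 
(.lf (nat_lit 247850) (.g (nat_lit 1911) (.e (nat_lit 147467) (nat_lit 9) (.e (nat_lit 297) (nat_lit 22) (.e (nat_lit 344132) (nat_lit 26) (.e (nat_lit 557103) (nat_lit 14) (.e (nat_lit 180262) (nat_lit 21) .nil))))) .nil))) (.nd (nat_lit 5) 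
(.lf (nat_lit 247834) (.g (nat_lit 1782) (.e (nat_lit 147467) (nat_lit 9) (.e (nat_lit 297) (nat_lit 22) (.e (nat_lit 344131) (nat_lit 26) (.e (nat_lit 557098) (nat_lit 13) (.e (nat_lit 172045) (nat_lit 0) .nil))))) .nil)) 
(.lf (nat_lit 247866) (.g (nat_lit 2353) (.e (nat_lit 147467) (nat_lit 9) (.e (nat_lit 297) (nat_lit 22) (.e (nat_lit 344133) (nat_lit 26) (.e (nat_lit 557098) (nat_lit 13) (.e (nat_lit 172048) (nat_lit 0) .nil))))) .nil))))) (.nd (nat_lit 3) (.nd (nat_lit 4) (.nd (nat_lit 5) 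
(.lf (nat_lit 247814) (.g (nat_lit 3778) (.e (nat_lit 147467) (nat_lit 9) (.e (nat_lit 232) (nat_lit 21) (.e (nat_lit 336060) (nat_lit 7) (.e (nat_lit 319534) (nat_lit 16) (.e (nat_lit 286756) (nat_lit 10) (.e (nat_lit 344160) (nat_lit 37) (.e (nat_lit 647190) (nat_lit 9) (.e (nat_lit 7936) (nat_lit 98) .nil)))))))) (.g (nat_lit 7) .nil .nil))) 
(.lf (nat_lit 247846) (.g (nat_lit 1989) (.e (nat_lit 147467) (nat_lit 9) (.e (nat_lit 297) (nat_lit 22) (.e (nat_lit 344132) (nat_lit 26) (.e (nat_lit 557101) (nat_lit 13) (.e (nat_lit 172051) (nat_lit 0) (.e (nat_lit 3416) (nat_lit 213) (.e (nat_lit 663567) (nat_lit 4) (.e (nat_lit 65578) (nat_lit 6) .nil)))))))) (.g (nat_lit 4) .nil .nil)))) (.nd (nat_lit 5) 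
(.lf (nat_lit 247830) (.g (nat_lit 2147) (.e (nat_lit 147467) (nat_lit 9) (.e (nat_lit 297) (nat_lit 22) (.e (nat_lit 344119) (nat_lit 21) (.e (nat_lit 516120) (nat_lit 1) (.e (nat_lit 164226) (nat_lit 181) (.e (nat_lit 2617) (nat_lit 164) (.e (nat_lit 172149) (nat_lit 27) (.e (nat_lit 336051) (nat_lit 6) .nil)))))))) (.g (nat_lit 4) .nil .nil))) 
(.lf (nat_lit 247862) (.g (nat_lit 2353) (.e (nat_lit 147467) (nat_lit 9) (.e (nat_lit 297) (nat_lit 22) (.e (nat_lit 344133) (nat_lit 26) (.e (nat_lit 557098) (nat_lit 13) (.e (nat_lit 172044) (nat_lit 0) .nil))))) .nil)))) (.nd (nat_lit 4) (.nd (nat_lit 5) 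
(.lf (nat_lit 247822) (.g (nat_lit 1192) (.e (nat_lit 147467) (nat_lit 9) (.e (nat_lit 276) (nat_lit 21) (.e (nat_lit 336088) (nat_lit 9) (.e (nat_lit 336438) (nat_lit 31) (.e (nat_lit 466688) (nat_lit 4) .nil))))) .nil)) 
(.lf (nat_lit 247854) (.g (nat_lit 2000) (.e (nat_lit 147467) (nat_lit 9) (.e (nat_lit 297) (nat_lit 22) (.e (nat_lit 344132) (nat_lit 26) (.e (nat_lit 557105) (nat_lit 14) (.e (nat_lit 180230) (nat_lit 0) .nil))))) .nil))) (.nd (nat_lit 5) 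
(.lf (nat_lit 247838) (.g (nat_lit 2267) (.e (nat_lit 147467) (nat_lit 9) (.e (nat_lit 297) (nat_lit 22) (.e (nat_lit 344131) (nat_lit 26) (.e (nat_lit 557105) (nat_lit 14) (.e (nat_lit 180262) (nat_lit 21) (.e (nat_lit 663567) (nat_lit 4) (.e (nat_lit 65580) (nat_lit 6) .nil))))))) (.g (nat_lit 4) .nil .nil))) 
(.lf (nat_lit 247870) (.g (nat_lit 2318) (.e (nat_lit 147467) (nat_lit 9) (.e (nat_lit 297) (nat_lit 22) (.e (nat_lit 344133) (nat_lit 26) (.e (nat_lit 557098) (nat_lit 13) (.e (nat_lit 172051) (nat_lit 0) (.e (nat_lit 3418) (nat_lit 213) (.e (nat_lit 663567) (nat_lit 4) (.e (nat_lit 65578) (nat_lit 6) .nil)))))))) (.g (nat_lit 4) .nil .nil)))))))) 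
(.nd (nat_lit 1) (.nd (nat_lit 2) (.nd (nat_lit 3) (.nd (nat_lit 4) (.nd (nat_lit 5) 
(.lf (nat_lit 247809) (.g (nat_lit 1666) (.e (nat_lit 147467) (nat_lit 9) (.e (nat_lit 232) (nat_lit 21) (.e (nat_lit 336060) (nat_lit 7) (.e (nat_lit 319505) (nat_lit 10) (.e (nat_lit 720) (nat_lit 64) .nil))))) .nil)) 
(.lf (nat_lit 247841) (.g (nat_lit 2575) (.e (nat_lit 147467) (nat_lit 9) (.e (nat_lit 297) (nat_lit 22) (.e (nat_lit 344131) (nat_lit 26) (.e (nat_lit 557105) (nat_lit 14) (.e (nat_lit 180265) (nat_lit 21) (.e (nat_lit 663566) (nat_lit 4) (.e (nat_lit 65578) (nat_lit 6) .nil))))))) (.g (nat_lit 5) .nil .nil)))) (.nd (nat_lit 5) 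
(.lf (nat_lit 247825) (.g (nat_lit 1110) (.e (nat_lit 147467) (nat_lit 9) (.e (nat_lit 295) (nat_lit 21) (.e (nat_lit 336223) (nat_lit 13) (.e (nat_lit 393234) (nat_lit 17) .nil)))) .nil)) 
(.lf (nat_lit 247857) (.g (nat_lit 1184) (.e (nat_lit 147467) (nat_lit 9) (.e (nat_lit 297) (nat_lit 22) (.e (nat_lit 344133) (nat_lit 26) (.e (nat_lit 557068) (nat_lit 9) .nil)))) .nil)))) (.nd (nat_lit 4) (.nd (nat_lit 5) 
(.lf (nat_lit 247817) (.g (nat_lit 1739) (.e (nat_lit 147467) (nat_lit 9) (.e (nat_lit 243) (nat_lit 21) (.e (nat_lit 336086) (nat_lit 9) (.e (nat_lit 336421) (nat_lit 28) (.e (nat_lit 434178) (nat_lit 0) (.e (nat_lit 1512) (nat_lit 108) (.e (nat_lit 336051) (nat_lit 6) .nil))))))) (.g (nat_lit 4) .nil .nil))) 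
(.lf (nat_lit 247849) (.g (nat_lit 1674) (.e (nat_lit 147467) (nat_lit 9) (.e (nat_lit 297) (nat_lit 22) (.e (nat_lit 344132) (nat_lit 26) (.e (nat_lit 557101) (nat_lit 13) (.e (nat_lit 172070) (nat_lit 4) .nil))))) .nil))) (.nd (nat_lit 5) 
(.lf (nat_lit 247833) (.g (nat_lit 2000) (.e (nat_lit 147467) (nat_lit 9) (.e (nat_lit 297) (nat_lit 22) (.e (nat_lit 344131) (nat_lit 26) (.e (nat_lit 557098) (nat_lit 13) (.e (nat_lit 172041) (nat_lit 0) .nil))))) .nil)) 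
(.lf (nat_lit 247865) (.g (nat_lit 2353) (.e (nat_lit 147467) (nat_lit 9) (.e (nat_lit 297) (nat_lit 22) (.e (nat_lit 344133) (nat_lit 26) (.e (nat_lit 557098) (nat_lit 13) (.e (nat_lit 172047) (nat_lit 0) .nil))))) .nil))))) (.nd (nat_lit 3) (.nd (nat_lit 4) (.nd (nat_lit 5) 
(.lf (nat_lit 247813) (.g (nat_lit 1646) (.e (nat_lit 147467) (nat_lit 9) (.e (nat_lit 232) (nat_lit 21) (.e (nat_lit 336060) (nat_lit 7) (.e (nat_lit 319534) (nat_lit 16) (.e (nat_lit 286756) (nat_lit 10) .nil))))) .nil)) 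
(.lf (nat_lit 247845) (.g (nat_lit 2615) (.e (nat_lit 147467) (nat_lit 9) (.e (nat_lit 297) (nat_lit 22) (.e (nat_lit 344132) (nat_lit 26) (.e (nat_lit 557100) (nat_lit 13) (.e (nat_lit 172070) (nat_lit 4) .nil))))) .nil))) (.nd (nat_lit 5) 
(.lf (nat_lit 247829) (.g (nat_lit 2377) (.e (nat_lit 147467) (nat_lit 9) (.e (nat_lit 297) (nat_lit 22) (.e (nat_lit 344119) (nat_lit 21) (.e (nat_lit 516117) (nat_lit 1) (.e (nat_lit 164226) (nat_lit 181) (.e (nat_lit 2618) (nat_lit 164) (.e (nat_lit 172149) (nat_lit 27) (.e (nat_lit 336051) (nat_lit 6) .nil)))))))) (.g (nat_lit 4) .nil .nil))) 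
(.lf (nat_lit 247861) (.g (nat_lit 3255) (.e (nat_lit 147467) (nat_lit 9) (.e (nat_lit 297) (nat_lit 22) (.e (nat_lit 344133) (nat_lit 26) (.e (nat_lit 557098) (nat_lit 13) (.e (nat_lit 172041) (nat_lit 0) (.e (nat_lit 3434) (nat_lit 214) (.e (nat_lit 671762) (nat_lit 4) (.e (nat_lit 65580) (nat_lit 6) .nil)))))))) (.g (nat_lit 5) .nil .nil))))) (.nd (nat_lit 4) (.nd (nat_lit 5) 
(.lf (nat_lit 247821) (.g (nat_lit 1124) (.e (nat_lit 147467) (nat_lit 9) (.e (nat_lit 271) (nat_lit 21) (.e (nat_lit 336088) (nat_lit 9) (.e (nat_lit 336438) (nat_lit 31) .nil)))) .nil)) 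
(.lf (nat_lit 247853) (.g (nat_lit 2687) (.e (nat_lit 147467) (nat_lit 9) (.e (nat_lit 297) (nat_lit 22) (.e (nat_lit 344132) (nat_lit 26) (.e (nat_lit 557105) (nat_lit 14) (.e (nat_lit 180227) (nat_lit 0) (.e (nat_lit 5916) (nat_lit 320) (.e (nat_lit 1197) (nat_lit 88) (.e (nat_lit 65580) (nat_lit 6) .nil)))))))) (.g (nat_lit 5) .nil .nil)))) (.nd (nat_lit 5) 
(.lf (nat_lit 247837) (.g (nat_lit 1888) (.e (nat_lit 147467) (nat_lit 9) (.e (nat_lit 297) (nat_lit 22) (.e (nat_lit 344131) (nat_lit 26) (.e (nat_lit 557105) (nat_lit 14) (.e (nat_lit 180233) (nat_lit 0) .nil))))) .nil)) 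
(.lf (nat_lit 247869) (.g (nat_lit 2309) (.e (nat_lit 147467) (nat_lit 9) (.e (nat_lit 297) (nat_lit 22) (.e (nat_lit 344133) (nat_lit 26) (.e (nat_lit 557098) (nat_lit 13) (.e (nat_lit 172051) (nat_lit 0) (.e (nat_lit 3417) (nat_lit 213) (.e (nat_lit 663567) (nat_lit 4) (.e (nat_lit 65578) (nat_lit 6) .nil)))))))) (.g (nat_lit 4) .nil .nil))))))) 
(.nd (nat_lit 2) (.nd (nat_lit 3) (.nd (nat_lit 4) (.nd (nat_lit 5) 
(.lf (nat_lit 247811) (.g (nat_lit 3496) (.e (nat_lit 147467) (nat_lit 9) (.e (nat_lit 232) (nat_lit 21) (.e (nat_lit 336060) (nat_lit 7) (.e (nat_lit 319505) (nat_lit 10) (.e (nat_lit 720) (nat_lit 64) (.e (nat_lit 688177) (nat_lit 16) (.e (nat_lit 73472) (nat_lit 9) (.e (nat_lit 336051) (nat_lit 6) .nil)))))))) (.g (nat_lit 6) .nil .nil))) 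
(.lf (nat_lit 247843) (.g (nat_lit 1829) (.e (nat_lit 147467) (nat_lit 9) (.e (nat_lit 297) (nat_lit 22) (.e (nat_lit 344132) (nat_lit 26) (.e (nat_lit 557100) (nat_lit 13) (.e (nat_lit 172042) (nat_lit 0) .nil))))) .nil))) (.nd (nat_lit 5) 
(.lf (nat_lit 247827) (.g (nat_lit 480) (.e (nat_lit 147467) (nat_lit 9) (.e (nat_lit 297) (nat_lit 22) (.e (nat_lit 344086) (nat_lit 17) .nil))) .nil)) 
(.lf (nat_lit 247859) (.g (nat_lit 2194) (.e (nat_lit 147467) (nat_lit 9) (.e (nat_lit 297) (nat_lit 22) (.e (nat_lit 344133) (nat_lit 26) (.e (nat_lit 557098) (nat_lit 13) (.e (nat_lit 172032) (nat_lit 0) .nil))))) .nil)))) (.nd (nat_lit 4) (.nd (nat_lit 5) 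
(.lf (nat_lit 247819) (.g (nat_lit 2700) (.e (nat_lit 147467) (nat_lit 9) (.e (nat_lit 268) (nat_lit 21) (.e (nat_lit 336212) (nat_lit 13) (.e (nat_lit 393301) (nat_lit 27) (.e (nat_lit 491556) (nat_lit 9) (.e (nat_lit 336051) (nat_lit 6) .nil)))))) (.g (nat_lit 5) .nil .nil))) 
(.lf (nat_lit 247851) (.g (nat_lit 1827) (.e (nat_lit 147467) (nat_lit 9) (.e (nat_lit 297) (nat_lit 22) (.e (nat_lit 344132) (nat_lit 26) (.e (nat_lit 557105) (nat_lit 14) (.e (nat_lit 180226) (nat_lit 0) .nil))))) .nil))) (.nd (nat_lit 5) 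
(.lf (nat_lit 247835) (.g (nat_lit 2016) (.e (nat_lit 147467) (nat_lit 9) (.e (nat_lit 297) (nat_lit 22) (.e (nat_lit 344131) (nat_lit 26) (.e (nat_lit 557103) (nat_lit 14) (.e (nat_lit 180228) (nat_lit 0) .nil))))) .nil)) 
(.lf (nat_lit 247867) (.g (nat_lit 2219) (.e (nat_lit 147467) (nat_lit 9) (.e (nat_lit 297) (nat_lit 22) (.e (nat_lit 344133) (nat_lit 26) (.e (nat_lit 557098) (nat_lit 13) (.e (nat_lit 172051) (nat_lit 0) .nil))))) .nil))))) (.nd (nat_lit 3) (.nd (nat_lit 4) (.nd (nat_lit 5) 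
(.lf (nat_lit 247815) (.g (nat_lit 3750) (.e (nat_lit 147467) (nat_lit 9) (.e (nat_lit 232) (nat_lit 21) (.e (nat_lit 336060) (nat_lit 7) (.e (nat_lit 319534) (nat_lit 16) (.e (nat_lit 286756) (nat_lit 10) (.e (nat_lit 344160) (nat_lit 37) (.e (nat_lit 647195) (nat_lit 9) (.e (nat_lit 7936) (nat_lit 98) .nil)))))))) (.g (nat_lit 7) .nil .nil))) 
(.lf (nat_lit 247847) (.g (nat_lit 1929) (.e (nat_lit 147467) (nat_lit 9) (.e (nat_lit 297) (nat_lit 22) (.e (nat_lit 344132) (nat_lit 26) (.e (nat_lit 557101) (nat_lit 13) (.e (nat_lit 172051) (nat_lit 0) (.e (nat_lit 3417) (nat_lit 213) (.e (nat_lit 663567) (nat_lit 4) (.e (nat_lit 65578) (nat_lit 6) .nil)))))))) (.g (nat_lit 4) .nil .nil)))) (.nd (nat_lit 5) 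
(.lf (nat_lit 247831) (.g (nat_lit 1622) (.e (nat_lit 147467) (nat_lit 9) (.e (nat_lit 297) (nat_lit 22) (.e (nat_lit 344127) (nat_lit 26) (.e (nat_lit 557104) (nat_lit 14) (.e (nat_lit 180229) (nat_lit 0) .nil))))) .nil)) 
(.lf (nat_lit 247863) (.g (nat_lit 2286) (.e (nat_lit 147467) (nat_lit 9) (.e (nat_lit 297) (nat_lit 22) (.e (nat_lit 344133) (nat_lit 26) (.e (nat_lit 557098) (nat_lit 13) (.e (nat_lit 172045) (nat_lit 0) .nil))))) .nil)))) (.nd (nat_lit 4) (.nd (nat_lit 5) 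
(.lf (nat_lit 247823) (.g (nat_lit 1065) (.e (nat_lit 147467) (nat_lit 9) (.e (nat_lit 293) (nat_lit 21) (.e (nat_lit 336209) (nat_lit 13) (.e (nat_lit 393233) (nat_lit 17) (.e (nat_lit 7587) (nat_lit 406) .nil))))) .nil)) 
(.lf (nat_lit 247855) (.g (nat_lit 1891) (.e (nat_lit 147467) (nat_lit 9) (.e (nat_lit 297) (nat_lit 22) (.e (nat_lit 344132) (nat_lit 26) (.e (nat_lit 557105) (nat_lit 14) (.e (nat_lit 180233) (nat_lit 0) .nil))))) .nil))) (.nd (nat_lit 5) 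
(.lf (nat_lit 247839) (.g (nat_lit 1647) (.e (nat_lit 147467) (nat_lit 9) (.e (nat_lit 297) (nat_lit 22) (.e (nat_lit 344131) (nat_lit 26) (.e (nat_lit 557105) (nat_lit 14) (.e (nat_lit 180264) (nat_lit 21) .nil))))) .nil)) 
(.lf (nat_lit 247871) (.g (nat_lit 2353) (.e (nat_lit 147467) (nat_lit 9) (.e (nat_lit 297) (nat_lit 22) (.e (nat_lit 344133) (nat_lit 26) (.e (nat_lit 557098) (nat_lit 13) (.e (nat_lit 172054) (nat_lit 0) .nil))))) .nil))))))))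

noncomputable def tv3212 : DT := (.nd (nat_lit 0) (.nd (nat_lit 1) (.nd (nat_lit 2) (.nd (nat_lit 3) (.nd (nat_lit 4) 
(.lf (nat_lit 247872) (.g (nat_lit 1944) (.e (nat_lit 147467) (nat_lit 9) (.e (nat_lit 297) (nat_lit 22) (.e (nat_lit 344133) (nat_lit 26) (.e (nat_lit 557098) (nat_lit 13) (.e (nat_lit 179968) (nat_lit 4) .nil))))) .nil)) 
(.lf (nat_lit 247888) (.g (nat_lit 2183) (.e (nat_lit 147467) (nat_lit 9) (.e (nat_lit 297) (nat_lit 22) (.e (nat_lit 344133) (nat_lit 26) (.e (nat_lit 557105) (nat_lit 14) (.e (nat_lit 180266) (nat_lit 22) .nil))))) .nil))) (.nd (nat_lit 4) 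
(.lf (nat_lit 247880) (.g (nat_lit 2700) (.e (nat_lit 147467) (nat_lit 9) (.e (nat_lit 297) (nat_lit 22) (.e (nat_lit 344133) (nat_lit 26) (.e (nat_lit 557105) (nat_lit 14) (.e (nat_lit 180226) (nat_lit 0) (.e (nat_lit 5916) (nat_lit 320) (.e (nat_lit 1197) (nat_lit 88) (.e (nat_lit 65580) (nat_lit 6) .nil)))))))) (.g (nat_lit 4) .nil .nil))) 
(.lf (nat_lit 247896) (.g (nat_lit 3330) (.e (nat_lit 147467) (nat_lit 9) (.e (nat_lit 307) (nat_lit 22) (.e (nat_lit 344129) (nat_lit 26) (.e (nat_lit 557067) (nat_lit 9) (.e (nat_lit 2974) (nat_lit 185) .nil))))) .nil)))) (.nd (nat_lit 3) (.nd (nat_lit 4) 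
(.lf (nat_lit 247876) (.g (nat_lit 2294) (.e (nat_lit 147467) (nat_lit 9) (.e (nat_lit 297) (nat_lit 22) (.e (nat_lit 344133) (nat_lit 26) (.e (nat_lit 557103) (nat_lit 14) (.e (nat_lit 180228) (nat_lit 0) .nil))))) .nil)) 
(.lf (nat_lit 247892) (.g (nat_lit 1453) (.e (nat_lit 147467) (nat_lit 9) (.e (nat_lit 305) (nat_lit 22) (.e (nat_lit 344130) (nat_lit 26) (.e (nat_lit 557104) (nat_lit 14) (.e (nat_lit 180233) (nat_lit 0) .nil))))) .nil))) (.nd (nat_lit 4) 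
(.lf (nat_lit 247884) (.g (nat_lit 2324) (.e (nat_lit 147467) (nat_lit 9) (.e (nat_lit 297) (nat_lit 22) (.e (nat_lit 344133) (nat_lit 26) (.e (nat_lit 557105) (nat_lit 14) (.e (nat_lit 180264) (nat_lit 21) .nil))))) .nil)) 
(.lf (nat_lit 247900) (.g (nat_lit 2764) (.e (nat_lit 147467) (nat_lit 9) (.e (nat_lit 307) (nat_lit 22) (.e (nat_lit 344129) (nat_lit 26) (.e (nat_lit 557097) (nat_lit 13) (.e (nat_lit 172045) (nat_lit 0) (.e (nat_lit 3437) (nat_lit 214) (.e (nat_lit 671762) (nat_lit 4) (.e (nat_lit 65580) (nat_lit 6) .nil)))))))) (.g (nat_lit 4) .nil .nil)))))) (.nd (nat_lit 2) (.nd (nat_lit 3) (.nd (nat_lit 4) 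
(.lf (nat_lit 247874) (.g (nat_lit 1125) (.e (nat_lit 147467) (nat_lit 9) (.e (nat_lit 297) (nat_lit 22) (.e (nat_lit 344133) (nat_lit 26) (.e (nat_lit 557103) (nat_lit 14) .nil)))) .nil)) 
(.lf (nat_lit 247890) (.g (nat_lit 1758) (.e (nat_lit 147467) (nat_lit 9) (.e (nat_lit 304) (nat_lit 22) (.e (nat_lit 344133) (nat_lit 26) (.e (nat_lit 557098) (nat_lit 13) (.e (nat_lit 172051) (nat_lit 0) .nil))))) .nil))) (.nd (nat_lit 4) 
(.lf (nat_lit 247882) (.g (nat_lit 2424) (.e (nat_lit 147467) (nat_lit 9) (.e (nat_lit 297) (nat_lit 22) (.e (nat_lit 344133) (nat_lit 26) (.e (nat_lit 557105) (nat_lit 14) (.e (nat_lit 180230) (nat_lit 0) .nil))))) .nil)) 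
(.lf (nat_lit 247898) (.g (nat_lit 2561) (.e (nat_lit 147467) (nat_lit 9) (.e (nat_lit 307) (nat_lit 22) (.e (nat_lit 344129) (nat_lit 26) (.e (nat_lit 557097) (nat_lit 13) (.e (nat_lit 172045) (nat_lit 0) .nil))))) .nil)))) (.nd (nat_lit 3) (.nd (nat_lit 4) 
(.lf (nat_lit 247878) (.g (nat_lit 2611) (.e (nat_lit 147467) (nat_lit 9) (.e (nat_lit 297) (nat_lit 22) (.e (nat_lit 344133) (nat_lit 26) (.e (nat_lit 557103) (nat_lit 14) (.e (nat_lit 180233) (nat_lit 0) (.e (nat_lit 5815) (nat_lit 320) (.e (nat_lit 1201) (nat_lit 88) (.e (nat_lit 65578) (nat_lit 6) .nil)))))))) (.g (nat_lit 4) .nil .nil))) 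
(.lf (nat_lit 247894) (.g (nat_lit 1319) (.e (nat_lit 147467) (nat_lit 9) (.e (nat_lit 307) (nat_lit 22) (.e (nat_lit 344129) (nat_lit 26) (.e (nat_lit 557067) (nat_lit 9) .nil)))) .nil))) (.nd (nat_lit 4) 
(.lf (nat_lit 247886) (.g (nat_lit 3064) (.e (nat_lit 147467) (nat_lit 9) (.e (nat_lit 297) (nat_lit 22) (.e (nat_lit 344133) (nat_lit 26) (.e (nat_lit 557105) (nat_lit 14) (.e (nat_lit 180265) (nat_lit 21) (.e (nat_lit 663566) (nat_lit 4) (.e (nat_lit 65578) (nat_lit 6) .nil))))))) (.g (nat_lit 5) .nil .nil))) 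
(.lf (nat_lit 247902) (.g (nat_lit 2732) (.e (nat_lit 147467) (nat_lit 9) (.e (nat_lit 307) (nat_lit 22) (.e (nat_lit 344129) (nat_lit 26) (.e (nat_lit 557103) (nat_lit 14) (.e (nat_lit 180229) (nat_lit 0) .nil))))) .nil)))))) (.nd (nat_lit 1) (.nd (nat_lit 2) (.nd (nat_lit 3) (.nd (nat_lit 4) 
(.lf (nat_lit 247873) (.g (nat_lit 2150) (.e (nat_lit 147467) (nat_lit 9) (.e (nat_lit 297) (nat_lit 22) (.e (nat_lit 344133) (nat_lit 26) (.e (nat_lit 557098) (nat_lit 13) (.e (nat_lit 179968) (nat_lit 4) (.e (nat_lit 229704) (nat_lit 254) (.e (nat_lit 1199) (nat_lit 88) (.e (nat_lit 65578) (nat_lit 6) .nil)))))))) (.g (nat_lit 4) .nil .nil))) 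
(.lf (nat_lit 247889) (.g (nat_lit 1578) (.e (nat_lit 147467) (nat_lit 9) (.e (nat_lit 304) (nat_lit 22) (.e (nat_lit 344130) (nat_lit 26) (.e (nat_lit 557103) (nat_lit 14) (.e (nat_lit 180262) (nat_lit 21) .nil))))) .nil))) (.nd (nat_lit 4) 
(.lf (nat_lit 247881) (.g (nat_lit 2084) (.e (nat_lit 147467) (nat_lit 9) (.e (nat_lit 297) (nat_lit 22) (.e (nat_lit 344133) (nat_lit 26) (.e (nat_lit 557105) (nat_lit 14) (.e (nat_lit 180227) (nat_lit 0) .nil))))) .nil)) 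
(.lf (nat_lit 247897) (.g (nat_lit 3454) (.e (nat_lit 147467) (nat_lit 9) (.e (nat_lit 307) (nat_lit 22) (.e (nat_lit 344129) (nat_lit 26) (.e (nat_lit 557067) (nat_lit 9) (.e (nat_lit 2974) (nat_lit 185) (.e (nat_lit 434276) (nat_lit 39) (.e (nat_lit 663567) (nat_lit 4) (.e (nat_lit 65578) (nat_lit 6) .nil)))))))) (.g (nat_lit 4) .nil .nil))))) (.nd (nat_lit 3) (.nd (nat_lit 4) 
(.lf (nat_lit 247877) (.g (nat_lit 2251) (.e (nat_lit 147467) (nat_lit 9) (.e (nat_lit 297) (nat_lit 22) (.e (nat_lit 344133) (nat_lit 26) (.e (nat_lit 557103) (nat_lit 14) (.e (nat_lit 180229) (nat_lit 0) .nil))))) .nil)) 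
(.lf (nat_lit 247893) (.g (nat_lit 2790) (.e (nat_lit 147467) (nat_lit 9) (.e (nat_lit 307) (nat_lit 22) (.e (nat_lit 344117) (nat_lit 21) (.e (nat_lit 516129) (nat_lit 3) (.e (nat_lit 221204) (nat_lit 20) .nil))))) .nil))) (.nd (nat_lit 4) 
(.lf (nat_lit 247885) (.g (nat_lit 1896) (.e (nat_lit 147467) (nat_lit 9) (.e (nat_lit 297) (nat_lit 22) (.e (nat_lit 344133) (nat_lit 26) (.e (nat_lit 557105) (nat_lit 14) (.e (nat_lit 180265) (nat_lit 21) .nil))))) .nil)) 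
(.lf (nat_lit 247901) (.g (nat_lit 1151) (.e (nat_lit 147467) (nat_lit 9) (.e (nat_lit 307) (nat_lit 22) (.e (nat_lit 344129) (nat_lit 26) (.e (nat_lit 557103) (nat_lit 14) .nil)))) .nil))))) (.nd (nat_lit 2) (.nd (nat_lit 3) (.nd (nat_lit 4) 
(.lf (nat_lit 247875) (.g (nat_lit 2280) (.e (nat_lit 147467) (nat_lit 9) (.e (nat_lit 297) (nat_lit 22) (.e (nat_lit 344133) (nat_lit 26) (.e (nat_lit 557103) (nat_lit 14) (.e (nat_lit 180225) (nat_lit 0) .nil))))) .nil)) 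
(.lf (nat_lit 247891) (.g (nat_lit 1830) (.e (nat_lit 147467) (nat_lit 9) (.e (nat_lit 304) (nat_lit 22) (.e (nat_lit 344133) (nat_lit 26) (.e (nat_lit 557105) (nat_lit 14) (.e (nat_lit 180262) (nat_lit 21) .nil))))) .nil))) (.nd (nat_lit 4) 
(.lf (nat_lit 247883) (.g (nat_lit 2640) (.e (nat_lit 147467) (nat_lit 9) (.e (nat_lit 297) (nat_lit 22) (.e (nat_lit 344133) (nat_lit 26) (.e (nat_lit 557105) (nat_lit 14) (.e (nat_lit 180230) (nat_lit 0) (.e (nat_lit 5820) (nat_lit 320) (.e (nat_lit 1201) (nat_lit 88) (.e (nat_lit 65578) (nat_lit 6) .nil)))))))) (.g (nat_lit 4) .nil .nil))) 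
(.lf (nat_lit 247899) (.g (nat_lit 2839) (.e (nat_lit 147467) (nat_lit 9) (.e (nat_lit 307) (nat_lit 22) (.e (nat_lit 344129) (nat_lit 26) (.e (nat_lit 557097) (nat_lit 13) (.e (nat_lit 172045) (nat_lit 0) (.e (nat_lit 3434) (nat_lit 214) (.e (nat_lit 671762) (nat_lit 4) (.e (nat_lit 65580) (nat_lit 6) .nil)))))))) (.g (nat_lit 4) .nil .nil))))) (.nd (nat_lit 3) (.nd (nat_lit 4) 
(.lf (nat_lit 247879) (.g (nat_lit 2452) (.e (nat_lit 147467) (nat_lit 9) (.e (nat_lit 297) (nat_lit 22) (.e (nat_lit 344133) (nat_lit 26) (.e (nat_lit 557103) (nat_lit 14) (.e (nat_lit 180263) (nat_lit 21) (.e (nat_lit 663566) (nat_lit 4) (.e (nat_lit 65578) (nat_lit 6) .nil))))))) (.g (nat_lit 4) .nil .nil))) 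
(.lf (nat_lit 247895) (.g (nat_lit 3170) (.e (nat_lit 147467) (nat_lit 9) (.e (nat_lit 307) (nat_lit 22) (.e (nat_lit 344129) (nat_lit 26) (.e (nat_lit 557067) (nat_lit 9) (.e (nat_lit 2972) (nat_lit 185) .nil))))) .nil))) (.nd (nat_lit 4) 
(.lf (nat_lit 247887) (.g (nat_lit 3321) (.e (nat_lit 147467) (nat_lit 9) (.e (nat_lit 297) (nat_lit 22) (.e (nat_lit 344133) (nat_lit 26) (.e (nat_lit 557105) (nat_lit 14) (.e (nat_lit 180265) (nat_lit 21) (.e (nat_lit 663566) (nat_lit 4) (.e (nat_lit 65580) (nat_lit 6) .nil))))))) (.g (nat_lit 5) .nil .nil))) 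
(.lf (nat_lit 247903) (.g (nat_lit 2798) (.e (nat_lit 147467) (nat_lit 9) (.e (nat_lit 307) (nat_lit 22) (.e (nat_lit 344129) (nat_lit 26) (.e (nat_lit 557103) (nat_lit 14) (.e (nat_lit 180262) (nat_lit 21) .nil))))) .nil)))))))

noncomputable def tv3213 : DT := (.nd (nat_lit 0) (.nd (nat_lit 1) (.nd (nat_lit 2) (.nd (nat_lit 3) (.nd (nat_lit 4) 
(.lf (nat_lit 247904) (.g (nat_lit 2929) (.e (nat_lit 147467) (nat_lit 9) (.e (nat_lit 307) (nat_lit 22) (.e (nat_lit 344129) (nat_lit 26) (.e (nat_lit 557103) (nat_lit 14) (.e (nat_lit 180262) (nat_lit 21) (.e (nat_lit 663567) (nat_lit 4) (.e (nat_lit 65578) (nat_lit 6) .nil))))))) (.g (nat_lit 4) .nil .nil))) 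
(.lf (nat_lit 247920) (.g (nat_lit 1450) (.e (nat_lit 147467) (nat_lit 9) (.e (nat_lit 314) (nat_lit 23) (.e (nat_lit 352322) (nat_lit 26) (.e (nat_lit 147466) (nat_lit 9) (.e (nat_lit 314) (nat_lit 23) .nil))))) .nil))) (.nd (nat_lit 4) 
(.lf (nat_lit 247912) (.g (nat_lit 485) (.e (nat_lit 147467) (nat_lit 9) (.e (nat_lit 314) (nat_lit 23) (.e (nat_lit 352281) (nat_lit 20) .nil))) .nil)) 
(.lf (nat_lit 247928) (.g (nat_lit 2558) (.e (nat_lit 147467) (nat_lit 9) (.e (nat_lit 321) (nat_lit 24) (.e (nat_lit 360492) (nat_lit 22) (.e (nat_lit 778362) (nat_lit 9) (.e (nat_lit 314) (nat_lit 23) (.e (nat_lit 352322) (nat_lit 26) .nil)))))) (.g (nat_lit 0) .nil .nil))))) (.nd (nat_lit 3) (.nd (nat_lit 4) 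
(.lf (nat_lit 247908) (.g (nat_lit 1387) (.e (nat_lit 147467) (nat_lit 9) (.e (nat_lit 310) (nat_lit 23) (.e (nat_lit 352277) (nat_lit 11) (.e (nat_lit 426344) (nat_lit 14) (.e (nat_lit 491556) (nat_lit 9) .nil))))) .nil)) 
(.lf (nat_lit 247924) (.g (nat_lit 1687) (.e (nat_lit 147467) (nat_lit 9) (.e (nat_lit 321) (nat_lit 24) (.e (nat_lit 360449) (nat_lit 0) (.e (nat_lit 7122) (nat_lit 382) (.e (nat_lit 7936) (nat_lit 90) (.e (nat_lit 81963) (nat_lit 26) .nil)))))) (.g (nat_lit 4) .nil .nil)))) (.nd (nat_lit 4) 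
(.lf (nat_lit 247916) (.g (nat_lit 1723) (.e (nat_lit 147467) (nat_lit 9) (.e (nat_lit 314) (nat_lit 23) (.e (nat_lit 352309) (nat_lit 21) (.e (nat_lit 57654) (nat_lit 152) (.e (nat_lit 1216) (nat_lit 90) .nil))))) .nil)) 
(.lf (nat_lit 247932) (.g (nat_lit 1553) (.e (nat_lit 147467) (nat_lit 9) (.e (nat_lit 334) (nat_lit 26) (.e (nat_lit 376857) (nat_lit 21) (.e (nat_lit 57663) (nat_lit 152) (.e (nat_lit 7936) (nat_lit 90) .nil))))) .nil))))) (.nd (nat_lit 2) (.nd (nat_lit 3) (.nd (nat_lit 4) 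
(.lf (nat_lit 247906) (.g (nat_lit 2638) (.e (nat_lit 147467) (nat_lit 9) (.e (nat_lit 307) (nat_lit 22) (.e (nat_lit 344129) (nat_lit 26) (.e (nat_lit 557104) (nat_lit 14) (.e (nat_lit 180233) (nat_lit 0) .nil))))) .nil)) 
(.lf (nat_lit 247922) (.g (nat_lit 1611) (.e (nat_lit 147467) (nat_lit 9) (.e (nat_lit 314) (nat_lit 23) (.e (nat_lit 352322) (nat_lit 26) (.e (nat_lit 147495) (nat_lit 11) (.e (nat_lit 24632) (nat_lit 9) .nil))))) .nil))) (.nd (nat_lit 4) 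
(.lf (nat_lit 247914) (.g (nat_lit 2722) (.e (nat_lit 147467) (nat_lit 9) (.e (nat_lit 314) (nat_lit 23) (.e (nat_lit 352307) (nat_lit 21) (.e (nat_lit 57654) (nat_lit 152) (.e (nat_lit 1217) (nat_lit 90) (.e (nat_lit 81963) (nat_lit 26) .nil)))))) (.g (nat_lit 5) .nil .nil))) 
(.lf (nat_lit 247930) (.g (nat_lit 2599) (.e (nat_lit 147467) (nat_lit 9) (.e (nat_lit 324) (nat_lit 24) (.e (nat_lit 360452) (nat_lit 0) (.e (nat_lit 7147) (nat_lit 382) (.e (nat_lit 1216) (nat_lit 90) (.e (nat_lit 81965) (nat_lit 26) .nil)))))) (.g (nat_lit 0) .nil .nil))))) (.nd (nat_lit 3) (.nd (nat_lit 4) 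
(.lf (nat_lit 247910) (.g (nat_lit 2390) (.e (nat_lit 147467) (nat_lit 9) (.e (nat_lit 314) (nat_lit 23) (.e (nat_lit 352273) (nat_lit 11) (.e (nat_lit 426344) (nat_lit 14) (.e (nat_lit 491556) (nat_lit 9) (.e (nat_lit 336051) (nat_lit 6) .nil)))))) (.g (nat_lit 4) .nil .nil))) 
(.lf (nat_lit 247926) (.g (nat_lit 2605) (.e (nat_lit 147467) (nat_lit 9) (.e (nat_lit 321) (nat_lit 24) (.e (nat_lit 360453) (nat_lit 0) (.e (nat_lit 7147) (nat_lit 382) (.e (nat_lit 1217) (nat_lit 90) (.e (nat_lit 81965) (nat_lit 26) .nil)))))) (.g (nat_lit 0) .nil .nil)))) (.nd (nat_lit 4) 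
(.lf (nat_lit 247918) (.g (nat_lit 3371) (.e (nat_lit 147467) (nat_lit 9) (.e (nat_lit 314) (nat_lit 23) (.e (nat_lit 352309) (nat_lit 21) (.e (nat_lit 57655) (nat_lit 152) (.e (nat_lit 1217) (nat_lit 90) (.e (nat_lit 81965) (nat_lit 26) .nil)))))) (.g (nat_lit 0) .nil .nil))) 
(.lf (nat_lit 247934) (.g (nat_lit 1853) (.e (nat_lit 147470) (nat_lit 9) (.e (nat_lit 251) (nat_lit 21) (.e (nat_lit 336223) (nat_lit 13) (.e (nat_lit 393301) (nat_lit 27) (.e (nat_lit 491546) (nat_lit 9) .nil))))) .nil)))))) (.nd (nat_lit 1) (.nd (nat_lit 2) (.nd (nat_lit 3) (.nd (nat_lit 4) 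
(.lf (nat_lit 247905) (.g (nat_lit 2807) (.e (nat_lit 147467) (nat_lit 9) (.e (nat_lit 307) (nat_lit 22) (.e (nat_lit 344129) (nat_lit 26) (.e (nat_lit 557103) (nat_lit 14) (.e (nat_lit 180266) (nat_lit 22) .nil))))) .nil)) 
(.lf (nat_lit 247921) (.g (nat_lit 3364) (.e (nat_lit 147467) (nat_lit 9) (.e (nat_lit 314) (nat_lit 23) (.e (nat_lit 352322) (nat_lit 26) (.e (nat_lit 147467) (nat_lit 9) (.e (nat_lit 314) (nat_lit 23) (.e (nat_lit 352322) (nat_lit 26) .nil)))))) (.g (nat_lit 0) .nil .nil)))) (.nd (nat_lit 4) 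
(.lf (nat_lit 247913) (.g (nat_lit 3327) (.e (nat_lit 147467) (nat_lit 9) (.e (nat_lit 314) (nat_lit 23) (.e (nat_lit 352290) (nat_lit 20) (.e (nat_lit 2281) (nat_lit 150) (.e (nat_lit 770074) (nat_lit 10) (.e (nat_lit 81965) (nat_lit 26) .nil)))))) (.g (nat_lit 0) .nil .nil))) 
(.lf (nat_lit 247929) (.g (nat_lit 2561) (.e (nat_lit 147467) (nat_lit 9) (.e (nat_lit 324) (nat_lit 24) (.e (nat_lit 360449) (nat_lit 0) (.e (nat_lit 7125) (nat_lit 382) (.e (nat_lit 1224) (nat_lit 90) (.e (nat_lit 81963) (nat_lit 26) .nil)))))) (.g (nat_lit 0) .nil .nil))))) (.nd (nat_lit 3) (.nd (nat_lit 4) 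
(.lf (nat_lit 247909) (.g (nat_lit 686) (.e (nat_lit 147467) (nat_lit 9) (.e (nat_lit 312) (nat_lit 23) (.e (nat_lit 352287) (nat_lit 20) (.e (nat_lit 2375) (nat_lit 154) (.e (nat_lit 802828) (nat_lit 13) .nil))))) .nil)) 
(.lf (nat_lit 247925) (.g (nat_lit 2155) (.e (nat_lit 147467) (nat_lit 9) (.e (nat_lit 321) (nat_lit 24) (.e (nat_lit 360453) (nat_lit 0) (.e (nat_lit 7147) (nat_lit 382) (.e (nat_lit 1216) (nat_lit 90) (.e (nat_lit 81965) (nat_lit 26) .nil)))))) (.g (nat_lit 0) .nil .nil)))) (.nd (nat_lit 4) 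
(.lf (nat_lit 247917) (.g (nat_lit 2912) (.e (nat_lit 147467) (nat_lit 9) (.e (nat_lit 314) (nat_lit 23) (.e (nat_lit 352309) (nat_lit 21) (.e (nat_lit 57655) (nat_lit 152) (.e (nat_lit 1217) (nat_lit 90) (.e (nat_lit 81963) (nat_lit 26) .nil)))))) (.g (nat_lit 0) .nil .nil))) 
(.lf (nat_lit 247933) (.g (nat_lit 1615) (.e (nat_lit 147467) (nat_lit 9) (.e (nat_lit 334) (nat_lit 26) (.e (nat_lit 376860) (nat_lit 21) (.e (nat_lit 57663) (nat_lit 152) (.e (nat_lit 7936) (nat_lit 90) .nil))))) .nil))))) (.nd (nat_lit 2) (.nd (nat_lit 3) (.nd (nat_lit 4) 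
(.lf (nat_lit 247907) (.g (nat_lit 2573) (.e (nat_lit 147467) (nat_lit 9) (.e (nat_lit 307) (nat_lit 22) (.e (nat_lit 344129) (nat_lit 26) (.e (nat_lit 557104) (nat_lit 14) (.e (nat_lit 180265) (nat_lit 21) .nil))))) .nil)) 
(.lf (nat_lit 247923) (.g (nat_lit 1049) (.e (nat_lit 147467) (nat_lit 9) (.e (nat_lit 314) (nat_lit 23) (.e (nat_lit 352324) (nat_lit 26) (.e (nat_lit 147465) (nat_lit 9) .nil)))) .nil))) (.nd (nat_lit 4) 
(.lf (nat_lit 247915) (.g (nat_lit 2786) (.e (nat_lit 147467) (nat_lit 9) (.e (nat_lit 314) (nat_lit 23) (.e (nat_lit 352307) (nat_lit 21) (.e (nat_lit 57655) (nat_lit 152) (.e (nat_lit 1217) (nat_lit 90) (.e (nat_lit 81963) (nat_lit 26) .nil)))))) (.g (nat_lit 0) .nil .nil))) 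
(.lf (nat_lit 247931) (.g (nat_lit 2508) (.e (nat_lit 147467) (nat_lit 9) (.e (nat_lit 324) (nat_lit 24) (.e (nat_lit 360491) (nat_lit 22) (.e (nat_lit 778362) (nat_lit 9) (.e (nat_lit 314) (nat_lit 23) (.e (nat_lit 352322) (nat_lit 26) .nil)))))) (.g (nat_lit 0) .nil .nil))))) (.nd (nat_lit 3) (.nd (nat_lit 4) 
(.lf (nat_lit 247911) (.g (nat_lit 455) (.e (nat_lit 147467) (nat_lit 9) (.e (nat_lit 314) (nat_lit 23) (.e (nat_lit 352280) (nat_lit 20) .nil))) .nil)) 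
(.lf (nat_lit 247927) (.g (nat_lit 2084) (.e (nat_lit 147467) (nat_lit 9) (.e (nat_lit 321) (nat_lit 24) (.e (nat_lit 360491) (nat_lit 22) (.e (nat_lit 778362) (nat_lit 9) (.e (nat_lit 314) (nat_lit 23) (.e (nat_lit 352324) (nat_lit 26) .nil)))))) (.g (nat_lit 5) .nil .nil)))) (.nd (nat_lit 4) 
(.lf (nat_lit 247919) (.g (nat_lit 1461) (.e (nat_lit 147467) (nat_lit 9) (.e (nat_lit 314) (nat_lit 23) (.e (nat_lit 352322) (nat_lit 26) (.e (nat_lit 147466) (nat_lit 9) (.e (nat_lit 309) (nat_lit 23) .nil))))) .nil)) 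
(.lf (nat_lit 247935) (.g (nat_lit 2214) (.e (nat_lit 147472) (nat_lit 9) (.e (nat_lit 253) (nat_lit 21) (.e (nat_lit 336009) (nat_lit 2) (.e (nat_lit 90170) (nat_lit 13) (.e (nat_lit 172106) (nat_lit 10) (.e (nat_lit 434244) (nat_lit 28) (.e (nat_lit 573451) (nat_lit 9) (.e (nat_lit 7936) (nat_lit 98) .nil)))))))) (.g (nat_lit 7) .nil .nil))))))))

noncomputable def tv3214 : DT := (.nd (nat_lit 0) (.nd (nat_lit 1) (.nd (nat_lit 2) (.nd (nat_lit 3) (.nd (nat_lit 4) (.nd (nat_lit 5) (.nd (nat_lit 6) 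
(.lf (nat_lit 247936) (.g (nat_lit 3318) (.e (nat_lit 147472) (nat_lit 9) (.e (nat_lit 253) (nat_lit 21) (.e (nat_lit 336011) (nat_lit 2) (.e (nat_lit 90170) (nat_lit 13) (.e (nat_lit 172106) (nat_lit 10) (.e (nat_lit 434244) (nat_lit 28) (.e (nat_lit 573451) (nat_lit 9) (.e (nat_lit 7936) (nat_lit 98) .nil)))))))) (.g (nat_lit 7) .nil .nil))) 
(.lf (nat_lit 248000) (.g (nat_lit 2906) (.e (nat_lit 147492) (nat_lit 11) (.e (nat_lit 24608) (nat_lit 3) (.e (nat_lit 98372) (nat_lit 29) (.e (nat_lit 450586) (nat_lit 10) (.e (nat_lit 573449) (nat_lit 9) .nil))))) .nil))) (.nd (nat_lit 6) 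
(.lf (nat_lit 247968) (.g (nat_lit 3327) (.e (nat_lit 147487) (nat_lit 10) (.e (nat_lit 8326) (nat_lit 69) (.e (nat_lit 557103) (nat_lit 14) (.e (nat_lit 180250) (nat_lit 10) (.e (nat_lit 573487) (nat_lit 14) (.e (nat_lit 81664) (nat_lit 5) (.e (nat_lit 532519) (nat_lit 5) .nil))))))) (.g (nat_lit 5) .nil .nil))) 
(.lf (nat_lit 248032) (.g (nat_lit 1059) (.e (nat_lit 147492) (nat_lit 11) (.e (nat_lit 24636) (nat_lit 9) (.e (nat_lit 335998) (nat_lit 1) (.e (nat_lit 57654) (nat_lit 152) (.e (nat_lit 1216) (nat_lit 90) .nil))))) .nil)))) (.nd (nat_lit 5) (.nd (nat_lit 6) 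
(.lf (nat_lit 247952) (.g (nat_lit 1510) (.e (nat_lit 147476) (nat_lit 9) (.e (nat_lit 290) (nat_lit 21) (.e (nat_lit 336213) (nat_lit 13) (.e (nat_lit 393233) (nat_lit 17) .nil)))) .nil)) 
(.lf (nat_lit 248016) (.g (nat_lit 3557) (.e (nat_lit 147492) (nat_lit 11) (.e (nat_lit 24617) (nat_lit 7) (.e (nat_lit 319534) (nat_lit 16) (.e (nat_lit 286756) (nat_lit 10) (.e (nat_lit 344160) (nat_lit 37) (.e (nat_lit 647190) (nat_lit 9) (.e (nat_lit 1312) (nat_lit 98) .nil))))))) (.g (nat_lit 6) .nil .nil)))) (.nd (nat_lit 6) 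
(.lf (nat_lit 247984) (.g (nat_lit 1720) (.e (nat_lit 147492) (nat_lit 11) (.e (nat_lit 24580) (nat_lit 0) (.e (nat_lit 6712) (nat_lit 360) (.e (nat_lit 164016) (nat_lit 44) (.e (nat_lit 688185) (nat_lit 18) .nil))))) .nil)) 
(.lf (nat_lit 248048) (.g (nat_lit 2299) (.e (nat_lit 147492) (nat_lit 11) (.e (nat_lit 24640) (nat_lit 10) (.e (nat_lit 344090) (nat_lit 18) (.e (nat_lit 7236) (nat_lit 382) (.e (nat_lit 1221) (nat_lit 90) (.e (nat_lit 81965) (nat_lit 26) .nil)))))) (.g (nat_lit 4) .nil .nil)))))) (.nd (nat_lit 4) (.nd (nat_lit 5) (.nd (nat_lit 6) 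
(.lf (nat_lit 247944) (.g (nat_lit 2686) (.e (nat_lit 147472) (nat_lit 9) (.e (nat_lit 2744) (nat_lit 174) (.e (nat_lit 253991) (nat_lit 11) (.e (nat_lit 16388) (nat_lit 0) (.e (nat_lit 3461) (nat_lit 216) .nil))))) .nil)) 
(.lf (nat_lit 248008) (.g (nat_lit 1482) (.e (nat_lit 147492) (nat_lit 11) (.e (nat_lit 24617) (nat_lit 7) (.e (nat_lit 319503) (nat_lit 10) (.e (nat_lit 720) (nat_lit 64) (.e (nat_lit 688186) (nat_lit 18) .nil))))) .nil))) (.nd (nat_lit 6) 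
(.lf (nat_lit 247976) (.g (nat_lit 1913) (.e (nat_lit 147491) (nat_lit 10) (.e (nat_lit 8326) (nat_lit 69) (.e (nat_lit 557100) (nat_lit 13) (.e (nat_lit 172067) (nat_lit 3) .nil)))) .nil)) 
(.lf (nat_lit 248040) (.g (nat_lit 1560) (.e (nat_lit 147492) (nat_lit 11) (.e (nat_lit 24638) (nat_lit 9) (.e (nat_lit 335988) (nat_lit 1) (.e (nat_lit 57664) (nat_lit 152) .nil)))) .nil)))) (.nd (nat_lit 5) (.nd (nat_lit 6) 
(.lf (nat_lit 247960) (.g (nat_lit 1876) (.e (nat_lit 147476) (nat_lit 9) (.e (nat_lit 290) (nat_lit 21) (.e (nat_lit 336222) (nat_lit 13) (.e (nat_lit 393260) (nat_lit 21) (.e (nat_lit 409641) (nat_lit 17) .nil))))) .nil)) 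
(.lf (nat_lit 248024) (.g (nat_lit 2101) (.e (nat_lit 147492) (nat_lit 11) (.e (nat_lit 24627) (nat_lit 9) (.e (nat_lit 336000) (nat_lit 1) (.e (nat_lit 57655) (nat_lit 152) (.e (nat_lit 1217) (nat_lit 90) (.e (nat_lit 81963) (nat_lit 26) .nil)))))) (.g (nat_lit 0) .nil .nil)))) (.nd (nat_lit 6) 
(.lf (nat_lit 247992) (.g (nat_lit 1051) (.e (nat_lit 147492) (nat_lit 11) (.e (nat_lit 24584) (nat_lit 0) (.e (nat_lit 6218) (nat_lit 333) (.e (nat_lit 65280) (nat_lit 105) .nil)))) .nil)) 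
(.lf (nat_lit 248056) (.g (nat_lit 721) (.e (nat_lit 147492) (nat_lit 11) (.e (nat_lit 24641) (nat_lit 10) (.e (nat_lit 344089) (nat_lit 18) (.e (nat_lit 7233) (nat_lit 382) .nil)))) .nil)))))) (.nd (nat_lit 3) (.nd (nat_lit 4) (.nd (nat_lit 5) (.nd (nat_lit 6) 
(.lf (nat_lit 247940) (.g (nat_lit 1641) (.e (nat_lit 147472) (nat_lit 9) (.e (nat_lit 253) (nat_lit 21) (.e (nat_lit 336223) (nat_lit 13) (.e (nat_lit 393300) (nat_lit 27) .nil)))) .nil)) 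
(.lf (nat_lit 248004) (.g (nat_lit 3210) (.e (nat_lit 147492) (nat_lit 11) (.e (nat_lit 24608) (nat_lit 3) (.e (nat_lit 98373) (nat_lit 29) (.e (nat_lit 450587) (nat_lit 10) (.e (nat_lit 573454) (nat_lit 9) (.e (nat_lit 1315) (nat_lit 98) .nil)))))) (.g (nat_lit 4) .nil .nil)))) (.nd (nat_lit 6) 
(.lf (nat_lit 247972) (.g (nat_lit 3418) (.e (nat_lit 147489) (nat_lit 10) (.e (nat_lit 8326) (nat_lit 69) (.e (nat_lit 557105) (nat_lit 14) (.e (nat_lit 180252) (nat_lit 10) (.e (nat_lit 573481) (nat_lit 13) .nil))))) .nil)) 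
(.lf (nat_lit 248036) (.g (nat_lit 1462) (.e (nat_lit 147492) (nat_lit 11) (.e (nat_lit 24638) (nat_lit 9) (.e (nat_lit 335986) (nat_lit 1) (.e (nat_lit 57657) (nat_lit 152) .nil)))) .nil)))) (.nd (nat_lit 5) (.nd (nat_lit 6) 
(.lf (nat_lit 247956) (.g (nat_lit 1514) (.e (nat_lit 147476) (nat_lit 9) (.e (nat_lit 290) (nat_lit 21) (.e (nat_lit 336213) (nat_lit 13) (.e (nat_lit 393300) (nat_lit 27) .nil)))) .nil)) 
(.lf (nat_lit 248020) (.g (nat_lit 532) (.e (nat_lit 147492) (nat_lit 11) (.e (nat_lit 24623) (nat_lit 9) (.e (nat_lit 335907) (nat_lit 0) .nil))) .nil))) (.nd (nat_lit 6) 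
(.lf (nat_lit 247988) (.g (nat_lit 1772) (.e (nat_lit 147492) (nat_lit 11) (.e (nat_lit 24580) (nat_lit 0) (.e (nat_lit 6714) (nat_lit 360) (.e (nat_lit 163850) (nat_lit 0) (.e (nat_lit 6264) (nat_lit 337) .nil))))) .nil)) 
(.lf (nat_lit 248052) (.g (nat_lit 737) (.e (nat_lit 147492) (nat_lit 11) (.e (nat_lit 24640) (nat_lit 10) (.e (nat_lit 344175) (nat_lit 43) .nil))) .nil))))) (.nd (nat_lit 4) (.nd (nat_lit 5) (.nd (nat_lit 6) 
(.lf (nat_lit 247948) (.g (nat_lit 662) (.e (nat_lit 147476) (nat_lit 9) (.e (nat_lit 290) (nat_lit 21) (.e (nat_lit 336186) (nat_lit 11) (.e (nat_lit 368662) (nat_lit 18) .nil)))) .nil)) 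
(.lf (nat_lit 248012) (.g (nat_lit 1468) (.e (nat_lit 147492) (nat_lit 11) (.e (nat_lit 24617) (nat_lit 7) (.e (nat_lit 319504) (nat_lit 10) (.e (nat_lit 7936) (nat_lit 64) .nil)))) .nil))) (.nd (nat_lit 6) 
(.lf (nat_lit 247980) (.g (nat_lit 1090) (.e (nat_lit 147492) (nat_lit 11) (.e (nat_lit 24580) (nat_lit 0) (.e (nat_lit 6221) (nat_lit 333) (.e (nat_lit 65280) (nat_lit 105) .nil)))) .nil)) 
(.lf (nat_lit 248044) (.g (nat_lit 2367) (.e (nat_lit 147492) (nat_lit 11) (.e (nat_lit 24639) (nat_lit 10) (.e (nat_lit 344090) (nat_lit 18) (.e (nat_lit 7236) (nat_lit 382) (.e (nat_lit 1221) (nat_lit 90) (.e (nat_lit 81965) (nat_lit 26) .nil)))))) (.g (nat_lit 5) .nil .nil))))) (.nd (nat_lit 5) (.nd (nat_lit 6) 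
(.lf (nat_lit 247964) (.g (nat_lit 334) (.e (nat_lit 147483) (nat_lit 9) (.e (nat_lit 284) (nat_lit 21) (.e (nat_lit 336213) (nat_lit 13) .nil))) .nil)) 
(.lf (nat_lit 248028) (.g (nat_lit 1115) (.e (nat_lit 147492) (nat_lit 11) (.e (nat_lit 24628) (nat_lit 9) (.e (nat_lit 335878) (nat_lit 0) (.e (nat_lit 2271) (nat_lit 149) (.e (nat_lit 769792) (nat_lit 10) .nil))))) .nil))) (.nd (nat_lit 6) 
(.lf (nat_lit 247996) (.g (nat_lit 1943) (.e (nat_lit 147492) (nat_lit 11) (.e (nat_lit 24605) (nat_lit 2) (.e (nat_lit 90170) (nat_lit 13) (.e (nat_lit 172113) (nat_lit 10) (.e (nat_lit 434245) (nat_lit 28) (.e (nat_lit 573449) (nat_lit 9) (.e (nat_lit 1312) (nat_lit 98) .nil))))))) (.g (nat_lit 4) .nil .nil))) 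
(.lf (nat_lit 248060) (.g (nat_lit 2117) (.e (nat_lit 147492) (nat_lit 11) (.e (nat_lit 24641) (nat_lit 10) (.e (nat_lit 344177) (nat_lit 43) (.e (nat_lit 770074) (nat_lit 10) (.e (nat_lit 81965) (nat_lit 26) .nil))))) .nil))))))) (.nd (nat_lit 2) (.nd (nat_lit 3) (.nd (nat_lit 4) (.nd (nat_lit 5) (.nd (nat_lit 6) 
(.lf (nat_lit 247938) (.g (nat_lit 1432) (.e (nat_lit 147472) (nat_lit 9) (.e (nat_lit 253) (nat_lit 21) (.e (nat_lit 336213) (nat_lit 13) (.e (nat_lit 393299) (nat_lit 27) .nil)))) .nil)) 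
(.lf (nat_lit 248002) (.g (nat_lit 3604) (.e (nat_lit 147492) (nat_lit 11) (.e (nat_lit 24608) (nat_lit 3) (.e (nat_lit 98372) (nat_lit 29) (.e (nat_lit 450586) (nat_lit 10) (.e (nat_lit 573456) (nat_lit 9) (.e (nat_lit 1312) (nat_lit 98) .nil)))))) (.g (nat_lit 5) .nil .nil)))) (.nd (nat_lit 6) 
(.lf (nat_lit 247970) (.g (nat_lit 2494) (.e (nat_lit 147489) (nat_lit 10) (.e (nat_lit 8318) (nat_lit 64) (.e (nat_lit 516129) (nat_lit 3) (.e (nat_lit 221210) (nat_lit 22) (.e (nat_lit 196668) (nat_lit 14) (.e (nat_lit 81664) (nat_lit 5) (.e (nat_lit 532519) (nat_lit 5) .nil))))))) (.g (nat_lit 5) .nil .nil))) 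
(.lf (nat_lit 248034) (.g (nat_lit 909) (.e (nat_lit 147492) (nat_lit 11) (.e (nat_lit 24638) (nat_lit 9) (.e (nat_lit 335892) (nat_lit 0) (.e (nat_lit 2284) (nat_lit 150) .nil)))) .nil)))) (.nd (nat_lit 5) (.nd (nat_lit 6) 
(.lf (nat_lit 247954) (.g (nat_lit 1813) (.e (nat_lit 147476) (nat_lit 9) (.e (nat_lit 290) (nat_lit 21) (.e (nat_lit 336213) (nat_lit 13) (.e (nat_lit 393298) (nat_lit 27) .nil)))) .nil)) 
(.lf (nat_lit 248018) (.g (nat_lit 1195) (.e (nat_lit 147492) (nat_lit 11) (.e (nat_lit 24622) (nat_lit 8) (.e (nat_lit 327681) (nat_lit 0) (.e (nat_lit 848) (nat_lit 73) (.e (nat_lit 769792) (nat_lit 10) (.e (nat_lit 81963) (nat_lit 26) .nil)))))) (.g (nat_lit 4) .nil .nil)))) (.nd (nat_lit 6) 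
(.lf (nat_lit 247986) (.g (nat_lit 461) (.e (nat_lit 147492) (nat_lit 11) (.e (nat_lit 24580) (nat_lit 0) (.e (nat_lit 6714) (nat_lit 360) .nil))) .nil)) 
(.lf (nat_lit 248050) (.g (nat_lit 2138) (.e (nat_lit 147492) (nat_lit 11) (.e (nat_lit 24640) (nat_lit 10) (.e (nat_lit 344096) (nat_lit 18) (.e (nat_lit 7125) (nat_lit 382) (.e (nat_lit 1223) (nat_lit 90) .nil))))) .nil))))) (.nd (nat_lit 4) (.nd (nat_lit 5) (.nd (nat_lit 6) 
(.lf (nat_lit 247946) (.g (nat_lit 2966) (.e (nat_lit 147476) (nat_lit 9) (.e (nat_lit 290) (nat_lit 21) (.e (nat_lit 336009) (nat_lit 2) (.e (nat_lit 90170) (nat_lit 13) (.e (nat_lit 172106) (nat_lit 10) (.e (nat_lit 434244) (nat_lit 28) (.e (nat_lit 573458) (nat_lit 9) (.e (nat_lit 1313) (nat_lit 98) .nil)))))))) (.g (nat_lit 7) .nil .nil))) 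
(.lf (nat_lit 248010) (.g (nat_lit 1610) (.e (nat_lit 147492) (nat_lit 11) (.e (nat_lit 24617) (nat_lit 7) (.e (nat_lit 319504) (nat_lit 10) (.e (nat_lit 720) (nat_lit 64) .nil)))) .nil))) (.nd (nat_lit 6) 
(.lf (nat_lit 247978) (.g (nat_lit 540) (.e (nat_lit 147492) (nat_lit 11) (.e (nat_lit 24580) (nat_lit 0) (.e (nat_lit 6084) (nat_lit 332) .nil))) .nil)) 
(.lf (nat_lit 248042) (.g (nat_lit 1776) (.e (nat_lit 147492) (nat_lit 11) (.e (nat_lit 24638) (nat_lit 9) (.e (nat_lit 335996) (nat_lit 1) (.e (nat_lit 57665) (nat_lit 152) .nil)))) .nil)))) (.nd (nat_lit 5) (.nd (nat_lit 6) 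
(.lf (nat_lit 247962) (.g (nat_lit 1764) (.e (nat_lit 147478) (nat_lit 9) (.e (nat_lit 284) (nat_lit 21) (.e (nat_lit 336213) (nat_lit 13) (.e (nat_lit 393233) (nat_lit 17) (.e (nat_lit 7587) (nat_lit 406) .nil))))) .nil)) 
(.lf (nat_lit 248026) (.g (nat_lit 587) (.e (nat_lit 147492) (nat_lit 11) (.e (nat_lit 24627) (nat_lit 9) (.e (nat_lit 336436) (nat_lit 31) .nil))) .nil))) (.nd (nat_lit 6) 
(.lf (nat_lit 247994) (.g (nat_lit 4027) (.e (nat_lit 147492) (nat_lit 11) (.e (nat_lit 24604) (nat_lit 2) (.e (nat_lit 90170) (nat_lit 13) (.e (nat_lit 172113) (nat_lit 10) .nil)))) .nil)) 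
(.lf (nat_lit 248058) (.g (nat_lit 551) (.e (nat_lit 147492) (nat_lit 11) (.e (nat_lit 24641) (nat_lit 10) (.e (nat_lit 344096) (nat_lit 18) .nil))) .nil)))))) (.nd (nat_lit 3) (.nd (nat_lit 4) (.nd (nat_lit 5) (.nd (nat_lit 6) 
(.lf (nat_lit 247942) (.g (nat_lit 784) (.e (nat_lit 147472) (nat_lit 9) (.e (nat_lit 333) (nat_lit 26) (.e (nat_lit 376857) (nat_lit 21) (.e (nat_lit 57665) (nat_lit 152) (.e (nat_lit 7936) (nat_lit 90) .nil))))) .nil)) 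
(.lf (nat_lit 248006) (.g (nat_lit 4553) (.e (nat_lit 147492) (nat_lit 11) (.e (nat_lit 24608) (nat_lit 3) (.e (nat_lit 98373) (nat_lit 29) (.e (nat_lit 450588) (nat_lit 10) (.e (nat_lit 573452) (nat_lit 9) .nil))))) .nil))) (.nd (nat_lit 6) 
(.lf (nat_lit 247974) (.g (nat_lit 2588) (.e (nat_lit 147491) (nat_lit 10) (.e (nat_lit 8326) (nat_lit 69) (.e (nat_lit 557100) (nat_lit 13) (.e (nat_lit 172065) (nat_lit 3) (.e (nat_lit 204837) (nat_lit 20) .nil))))) .nil)) 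
(.lf (nat_lit 248038) (.g (nat_lit 1412) (.e (nat_lit 147492) (nat_lit 11) (.e (nat_lit 24638) (nat_lit 9) (.e (nat_lit 335986) (nat_lit 1) (.e (nat_lit 65280) (nat_lit 152) .nil)))) .nil)))) (.nd (nat_lit 5) (.nd (nat_lit 6) 
(.lf (nat_lit 247958) (.g (nat_lit 1354) (.e (nat_lit 147476) (nat_lit 9) (.e (nat_lit 290) (nat_lit 21) (.e (nat_lit 336222) (nat_lit 13) (.e (nat_lit 393238) (nat_lit 17) (.e (nat_lit 7936) (nat_lit 406) .nil))))) .nil)) 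
(.lf (nat_lit 248022) (.g (nat_lit 603) (.e (nat_lit 147492) (nat_lit 11) (.e (nat_lit 24627) (nat_lit 9) (.e (nat_lit 335939) (nat_lit 0) .nil))) .nil))) (.nd (nat_lit 6) 
(.lf (nat_lit 247990) (.g (nat_lit 821) (.e (nat_lit 147492) (nat_lit 11) (.e (nat_lit 24584) (nat_lit 0) (.e (nat_lit 6113) (nat_lit 332) .nil))) .nil)) 
(.lf (nat_lit 248054) (.g (nat_lit 2234) (.e (nat_lit 147492) (nat_lit 11) (.e (nat_lit 24640) (nat_lit 10) (.e (nat_lit 344176) (nat_lit 43) (.e (nat_lit 770074) (nat_lit 10) (.e (nat_lit 81965) (nat_lit 26) .nil))))) .nil))))) (.nd (nat_lit 4) (.nd (nat_lit 5) (.nd (nat_lit 6) 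
(.lf (nat_lit 247950) (.g (nat_lit 1037) (.e (nat_lit 147476) (nat_lit 9) (.e (nat_lit 290) (nat_lit 21) (.e (nat_lit 336188) (nat_lit 11) (.e (nat_lit 368662) (nat_lit 18) (.e (nat_lit 7147) (nat_lit 382) .nil))))) .nil)) 
(.lf (nat_lit 248014) (.g (nat_lit 1511) (.e (nat_lit 147492) (nat_lit 11) (.e (nat_lit 24617) (nat_lit 7) (.e (nat_lit 319505) (nat_lit 10) (.e (nat_lit 7936) (nat_lit 64) .nil)))) .nil))) (.nd (nat_lit 6) 
(.lf (nat_lit 247982) (.g (nat_lit 1350) (.e (nat_lit 147492) (nat_lit 11) (.e (nat_lit 24580) (nat_lit 0) (.e (nat_lit 6514) (nat_lit 346) (.e (nat_lit 57569) (nat_lit 53) (.e (nat_lit 769792) (nat_lit 10) .nil))))) .nil)) 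
(.lf (nat_lit 248046) (.g (nat_lit 1308) (.e (nat_lit 147492) (nat_lit 11) (.e (nat_lit 24640) (nat_lit 10) (.e (nat_lit 344088) (nat_lit 18) (.e (nat_lit 7936) (nat_lit 382) .nil)))) .nil)))) (.nd (nat_lit 5) (.nd (nat_lit 6) 
(.lf (nat_lit 247966) (.g (nat_lit 1354) (.e (nat_lit 147483) (nat_lit 9) (.e (nat_lit 284) (nat_lit 21) (.e (nat_lit 336213) (nat_lit 13) (.e (nat_lit 393249) (nat_lit 17) .nil)))) .nil)) 
(.lf (nat_lit 248030) (.g (nat_lit 1038) (.e (nat_lit 147492) (nat_lit 11) (.e (nat_lit 24631) (nat_lit 9) (.e (nat_lit 335907) (nat_lit 0) (.e (nat_lit 970) (nat_lit 81) .nil)))) .nil))) (.nd (nat_lit 6) 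
(.lf (nat_lit 247998) (.g (nat_lit 3383) (.e (nat_lit 147492) (nat_lit 11) (.e (nat_lit 24607) (nat_lit 3) (.e (nat_lit 98373) (nat_lit 29) (.e (nat_lit 450587) (nat_lit 10) (.e (nat_lit 573456) (nat_lit 9) .nil))))) .nil)) 
(.lf (nat_lit 248062) (.g (nat_lit 2238) (.e (nat_lit 147492) (nat_lit 11) (.e (nat_lit 24646) (nat_lit 11) (.e (nat_lit 368662) (nat_lit 18) (.e (nat_lit 7147) (nat_lit 382) (.e (nat_lit 1217) (nat_lit 90) (.e (nat_lit 81965) (nat_lit 26) .nil)))))) (.g (nat_lit 0) .nil .nil))))))))) (.nd (nat_lit 1) (.nd (nat_lit 2) (.nd (nat_lit 3) (.nd (nat_lit 4) (.nd (nat_lit 5) (.nd (nat_lit 6) 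
(.lf (nat_lit 247937) (.g (nat_lit 2806) (.e (nat_lit 147472) (nat_lit 9) (.e (nat_lit 253) (nat_lit 21) (.e (nat_lit 336011) (nat_lit 2) (.e (nat_lit 90170) (nat_lit 13) (.e (nat_lit 172113) (nat_lit 10) .nil))))) .nil)) 
(.lf (nat_lit 248001) (.g (nat_lit 2703) (.e (nat_lit 147492) (nat_lit 11) (.e (nat_lit 24608) (nat_lit 3) (.e (nat_lit 98372) (nat_lit 29) (.e (nat_lit 450586) (nat_lit 10) (.e (nat_lit 573452) (nat_lit 9) .nil))))) .nil))) (.nd (nat_lit 6) 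
(.lf (nat_lit 247969) (.g (nat_lit 1967) (.e (nat_lit 147487) (nat_lit 10) (.e (nat_lit 8326) (nat_lit 69) (.e (nat_lit 557103) (nat_lit 14) (.e (nat_lit 180250) (nat_lit 10) (.e (nat_lit 573488) (nat_lit 14) .nil))))) .nil)) 
(.lf (nat_lit 248033) (.g (nat_lit 991) (.e (nat_lit 147492) (nat_lit 11) (.e (nat_lit 24638) (nat_lit 9) (.e (nat_lit 335892) (nat_lit 0) (.e (nat_lit 2271) (nat_lit 149) .nil)))) .nil)))) (.nd (nat_lit 5) (.nd (nat_lit 6) 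
(.lf (nat_lit 247953) (.g (nat_lit 1643) (.e (nat_lit 147476) (nat_lit 9) (.e (nat_lit 290) (nat_lit 21) (.e (nat_lit 336213) (nat_lit 13) (.e (nat_lit 393249) (nat_lit 17) .nil)))) .nil)) 
(.lf (nat_lit 248017) (.g (nat_lit 3533) (.e (nat_lit 147492) (nat_lit 11) (.e (nat_lit 24617) (nat_lit 7) (.e (nat_lit 319534) (nat_lit 16) (.e (nat_lit 286756) (nat_lit 10) (.e (nat_lit 344160) (nat_lit 37) (.e (nat_lit 647195) (nat_lit 9) (.e (nat_lit 1310) (nat_lit 98) .nil))))))) (.g (nat_lit 6) .nil .nil)))) (.nd (nat_lit 6) 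
(.lf (nat_lit 247985) (.g (nat_lit 2260) (.e (nat_lit 147492) (nat_lit 11) (.e (nat_lit 24580) (nat_lit 0) (.e (nat_lit 6712) (nat_lit 360) (.e (nat_lit 164020) (nat_lit 45) (.e (nat_lit 696363) (nat_lit 18) .nil))))) .nil)) 
(.lf (nat_lit 248049) (.g (nat_lit 1412) (.e (nat_lit 147492) (nat_lit 11) (.e (nat_lit 24640) (nat_lit 10) (.e (nat_lit 344096) (nat_lit 18) (.e (nat_lit 7125) (nat_lit 382) .nil)))) .nil))))) (.nd (nat_lit 4) (.nd (nat_lit 5) (.nd (nat_lit 6) 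
(.lf (nat_lit 247945) (.g (nat_lit 1329) (.e (nat_lit 147475) (nat_lit 9) (.e (nat_lit 2741) (nat_lit 174) (.e (nat_lit 253990) (nat_lit 11) (.e (nat_lit 16388) (nat_lit 0) (.e (nat_lit 3461) (nat_lit 216) .nil))))) .nil)) 
(.lf (nat_lit 248009) (.g (nat_lit 1897) (.e (nat_lit 147492) (nat_lit 11) (.e (nat_lit 24617) (nat_lit 7) (.e (nat_lit 319504) (nat_lit 10) (.e (nat_lit 52) (nat_lit 0) .nil)))) .nil))) (.nd (nat_lit 6) 
(.lf (nat_lit 247977) (.g (nat_lit 687) (.e (nat_lit 147491) (nat_lit 10) (.e (nat_lit 8567) (nat_lit 250) (.e (nat_lit 1428) (nat_lit 108) (.e (nat_lit 336421) (nat_lit 28) .nil)))) .nil)) 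
(.lf (nat_lit 248041) (.g (nat_lit 1575) (.e (nat_lit 147492) (nat_lit 11) (.e (nat_lit 24638) (nat_lit 9) (.e (nat_lit 335988) (nat_lit 1) (.e (nat_lit 57674) (nat_lit 152) .nil)))) .nil)))) (.nd (nat_lit 5) (.nd (nat_lit 6) 
(.lf (nat_lit 247961) (.g (nat_lit 2097) (.e (nat_lit 147476) (nat_lit 9) (.e (nat_lit 290) (nat_lit 21) (.e (nat_lit 336223) (nat_lit 13) (.e (nat_lit 393301) (nat_lit 27) (.e (nat_lit 491552) (nat_lit 9) .nil))))) .nil)) 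
(.lf (nat_lit 248025) (.g (nat_lit 1598) (.e (nat_lit 147492) (nat_lit 11) (.e (nat_lit 24627) (nat_lit 9) (.e (nat_lit 336240) (nat_lit 15) (.e (nat_lit 3342) (nat_lit 205) (.e (nat_lit 598041) (nat_lit 10) .nil))))) .nil))) (.nd (nat_lit 6) 
(.lf (nat_lit 247993) (.g (nat_lit 2422) (.e (nat_lit 147492) (nat_lit 11) (.e (nat_lit 24604) (nat_lit 2) (.e (nat_lit 90170) (nat_lit 13) (.e (nat_lit 172106) (nat_lit 10) (.e (nat_lit 434244) (nat_lit 28) .nil))))) .nil)) 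
(.lf (nat_lit 248057) (.g (nat_lit 959) (.e (nat_lit 147492) (nat_lit 11) (.e (nat_lit 24641) (nat_lit 10) (.e (nat_lit 344091) (nat_lit 18) (.e (nat_lit 7125) (nat_lit 382) .nil)))) .nil)))))) (.nd (nat_lit 3) (.nd (nat_lit 4) (.nd (nat_lit 5) (.nd (nat_lit 6) 
(.lf (nat_lit 247941) (.g (nat_lit 2845) (.e (nat_lit 147472) (nat_lit 9) (.e (nat_lit 253) (nat_lit 21) (.e (nat_lit 336223) (nat_lit 13) (.e (nat_lit 393301) (nat_lit 27) (.e (nat_lit 491546) (nat_lit 9) (.e (nat_lit 336048) (nat_lit 6) .nil)))))) (.g (nat_lit 6) .nil .nil))) 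
(.lf (nat_lit 248005) (.g (nat_lit 4749) (.e (nat_lit 147492) (nat_lit 11) (.e (nat_lit 24608) (nat_lit 3) (.e (nat_lit 98373) (nat_lit 29) (.e (nat_lit 450588) (nat_lit 10) (.e (nat_lit 573449) (nat_lit 9) .nil))))) .nil))) (.nd (nat_lit 6) 
(.lf (nat_lit 247973) (.g (nat_lit 3933) (.e (nat_lit 147491) (nat_lit 10) (.e (nat_lit 8325) (nat_lit 69) (.e (nat_lit 557105) (nat_lit 14) (.e (nat_lit 180252) (nat_lit 10) (.e (nat_lit 573488) (nat_lit 14) (.e (nat_lit 81664) (nat_lit 5) (.e (nat_lit 532518) (nat_lit 5) .nil))))))) (.g (nat_lit 5) .nil .nil))) 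
(.lf (nat_lit 248037) (.g (nat_lit 1415) (.e (nat_lit 147492) (nat_lit 11) (.e (nat_lit 24638) (nat_lit 9) (.e (nat_lit 335986) (nat_lit 1) (.e (nat_lit 57664) (nat_lit 152) .nil)))) .nil)))) (.nd (nat_lit 5) (.nd (nat_lit 6) 
(.lf (nat_lit 247957) (.g (nat_lit 833) (.e (nat_lit 147476) (nat_lit 9) (.e (nat_lit 290) (nat_lit 21) (.e (nat_lit 336222) (nat_lit 13) (.e (nat_lit 393231) (nat_lit 17) .nil)))) .nil)) 
(.lf (nat_lit 248021) (.g (nat_lit 791) (.e (nat_lit 147492) (nat_lit 11) (.e (nat_lit 24625) (nat_lit 9) (.e (nat_lit 336438) (nat_lit 31) .nil))) .nil))) (.nd (nat_lit 6) 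
(.lf (nat_lit 247989) (.g (nat_lit 811) (.e (nat_lit 147492) (nat_lit 11) (.e (nat_lit 24584) (nat_lit 0) (.e (nat_lit 6109) (nat_lit 332) .nil))) .nil)) 
(.lf (nat_lit 248053) (.g (nat_lit 1700) (.e (nat_lit 147492) (nat_lit 11) (.e (nat_lit 24640) (nat_lit 10) (.e (nat_lit 344176) (nat_lit 43) (.e (nat_lit 770074) (nat_lit 10) .nil)))) .nil))))) (.nd (nat_lit 4) (.nd (nat_lit 5) (.nd (nat_lit 6) 
(.lf (nat_lit 247949) (.g (nat_lit 1154) (.e (nat_lit 147476) (nat_lit 9) (.e (nat_lit 290) (nat_lit 21) (.e (nat_lit 336186) (nat_lit 11) (.e (nat_lit 368662) (nat_lit 18) (.e (nat_lit 7272) (nat_lit 385) .nil))))) .nil)) 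
(.lf (nat_lit 248013) (.g (nat_lit 2383) (.e (nat_lit 147492) (nat_lit 11) (.e (nat_lit 24617) (nat_lit 7) (.e (nat_lit 319505) (nat_lit 10) (.e (nat_lit 52) (nat_lit 0) (.e (nat_lit 6264) (nat_lit 337) .nil))))) .nil))) (.nd (nat_lit 6) 
(.lf (nat_lit 247981) (.g (nat_lit 529) (.e (nat_lit 147492) (nat_lit 11) (.e (nat_lit 24580) (nat_lit 0) (.e (nat_lit 6508) (nat_lit 345) .nil))) .nil)) 
(.lf (nat_lit 248045) (.g (nat_lit 1858) (.e (nat_lit 147492) (nat_lit 11) (.e (nat_lit 24639) (nat_lit 10) (.e (nat_lit 344177) (nat_lit 43) (.e (nat_lit 770074) (nat_lit 10) (.e (nat_lit 81965) (nat_lit 26) .nil))))) .nil)))) (.nd (nat_lit 5) (.nd (nat_lit 6) 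
(.lf (nat_lit 247965) (.g (nat_lit 1754) (.e (nat_lit 147483) (nat_lit 9) (.e (nat_lit 284) (nat_lit 21) (.e (nat_lit 336213) (nat_lit 13) (.e (nat_lit 393233) (nat_lit 17) (.e (nat_lit 7587) (nat_lit 406) .nil))))) .nil)) 
(.lf (nat_lit 248029) (.g (nat_lit 2040) (.e (nat_lit 147492) (nat_lit 11) (.e (nat_lit 24630) (nat_lit 9) (.e (nat_lit 336369) (nat_lit 27) (.e (nat_lit 426173) (nat_lit 7) (.e (nat_lit 409617) (nat_lit 10) (.e (nat_lit 5355) (nat_lit 298) (.e (nat_lit 1310) (nat_lit 98) .nil))))))) (.g (nat_lit 4) .nil .nil)))) (.nd (nat_lit 6) 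
(.lf (nat_lit 247997) (.g (nat_lit 2400) (.e (nat_lit 147492) (nat_lit 11) (.e (nat_lit 24607) (nat_lit 3) (.e (nat_lit 98372) (nat_lit 29) (.e (nat_lit 450586) (nat_lit 10) (.e (nat_lit 573456) (nat_lit 9) (.e (nat_lit 1312) (nat_lit 98) .nil)))))) (.g (nat_lit 4) .nil .nil))) 
(.lf (nat_lit 248061) (.g (nat_lit 783) (.e (nat_lit 147492) (nat_lit 11) (.e (nat_lit 24645) (nat_lit 11) (.e (nat_lit 368662) (nat_lit 18) (.e (nat_lit 7160) (nat_lit 382) .nil)))) .nil))))))) (.nd (nat_lit 2) (.nd (nat_lit 3) (.nd (nat_lit 4) (.nd (nat_lit 5) (.nd (nat_lit 6) 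
(.lf (nat_lit 247939) (.g (nat_lit 1982) (.e (nat_lit 147472) (nat_lit 9) (.e (nat_lit 253) (nat_lit 21) (.e (nat_lit 336213) (nat_lit 13) (.e (nat_lit 393300) (nat_lit 27) (.e (nat_lit 491546) (nat_lit 9) .nil))))) .nil)) 
(.lf (nat_lit 248003) (.g (nat_lit 4447) (.e (nat_lit 147492) (nat_lit 11) (.e (nat_lit 24608) (nat_lit 3) (.e (nat_lit 98372) (nat_lit 29) (.e (nat_lit 450588) (nat_lit 10) (.e (nat_lit 573452) (nat_lit 9) .nil))))) .nil))) (.nd (nat_lit 6) 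
(.lf (nat_lit 247971) (.g (nat_lit 2493) (.e (nat_lit 147489) (nat_lit 10) (.e (nat_lit 8326) (nat_lit 69) (.e (nat_lit 557103) (nat_lit 14) (.e (nat_lit 180250) (nat_lit 10) (.e (nat_lit 573485) (nat_lit 13) .nil))))) .nil)) 
(.lf (nat_lit 248035) (.g (nat_lit 1677) (.e (nat_lit 147492) (nat_lit 11) (.e (nat_lit 24638) (nat_lit 9) (.e (nat_lit 335894) (nat_lit 0) (.e (nat_lit 974) (nat_lit 81) .nil)))) .nil)))) (.nd (nat_lit 5) (.nd (nat_lit 6) 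
(.lf (nat_lit 247955) (.g (nat_lit 2907) (.e (nat_lit 147476) (nat_lit 9) (.e (nat_lit 290) (nat_lit 21) (.e (nat_lit 336213) (nat_lit 13) (.e (nat_lit 393299) (nat_lit 27) (.e (nat_lit 491556) (nat_lit 9) .nil))))) .nil)) 
(.lf (nat_lit 248019) (.g (nat_lit 184) (.e (nat_lit 147492) (nat_lit 11) (.e (nat_lit 24622) (nat_lit 8) (.e (nat_lit 327690) (nat_lit 0) .nil))) .nil))) (.nd (nat_lit 6) 
(.lf (nat_lit 247987) (.g (nat_lit 970) (.e (nat_lit 147492) (nat_lit 11) (.e (nat_lit 24580) (nat_lit 0) (.e (nat_lit 6714) (nat_lit 360) (.e (nat_lit 163846) (nat_lit 0) .nil)))) .nil)) 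
(.lf (nat_lit 248051) (.g (nat_lit 2983) (.e (nat_lit 147492) (nat_lit 11) (.e (nat_lit 24640) (nat_lit 10) (.e (nat_lit 344096) (nat_lit 18) (.e (nat_lit 7236) (nat_lit 382) (.e (nat_lit 1221) (nat_lit 90) (.e (nat_lit 81965) (nat_lit 26) .nil)))))) (.g (nat_lit 5) .nil .nil)))))) (.nd (nat_lit 4) (.nd (nat_lit 5) (.nd (nat_lit 6) 
(.lf (nat_lit 247947) (.g (nat_lit 3883) (.e (nat_lit 147476) (nat_lit 9) (.e (nat_lit 290) (nat_lit 21) (.e (nat_lit 336011) (nat_lit 2) (.e (nat_lit 90170) (nat_lit 13) (.e (nat_lit 172106) (nat_lit 10) (.e (nat_lit 434244) (nat_lit 28) (.e (nat_lit 573458) (nat_lit 9) (.e (nat_lit 1313) (nat_lit 98) .nil)))))))) (.g (nat_lit 7) .nil .nil))) 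
(.lf (nat_lit 248011) (.g (nat_lit 2174) (.e (nat_lit 147492) (nat_lit 11) (.e (nat_lit 24617) (nat_lit 7) (.e (nat_lit 319504) (nat_lit 10) (.e (nat_lit 720) (nat_lit 64) (.e (nat_lit 688185) (nat_lit 18) .nil))))) .nil))) (.nd (nat_lit 6) 
(.lf (nat_lit 247979) (.g (nat_lit 1068) (.e (nat_lit 147492) (nat_lit 11) (.e (nat_lit 24580) (nat_lit 0) (.e (nat_lit 6203) (nat_lit 332) (.e (nat_lit 2578) (nat_lit 161) .nil)))) .nil)) 
(.lf (nat_lit 248043) (.g (nat_lit 879) (.e (nat_lit 147492) (nat_lit 11) (.e (nat_lit 24639) (nat_lit 10) (.e (nat_lit 344090) (nat_lit 18) (.e (nat_lit 7125) (nat_lit 382) .nil)))) .nil)))) (.nd (nat_lit 5) (.nd (nat_lit 6) 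
(.lf (nat_lit 247963) (.g (nat_lit 2791) (.e (nat_lit 147479) (nat_lit 9) (.e (nat_lit 250) (nat_lit 21) (.e (nat_lit 336223) (nat_lit 13) (.e (nat_lit 393301) (nat_lit 27) (.e (nat_lit 491546) (nat_lit 9) (.e (nat_lit 336048) (nat_lit 6) .nil)))))) (.g (nat_lit 6) .nil .nil))) 
(.lf (nat_lit 248027) (.g (nat_lit 1005) (.e (nat_lit 147492) (nat_lit 11) (.e (nat_lit 24628) (nat_lit 9) (.e (nat_lit 335878) (nat_lit 0) (.e (nat_lit 999) (nat_lit 81) .nil)))) .nil))) (.nd (nat_lit 6) 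
(.lf (nat_lit 247995) (.g (nat_lit 2606) (.e (nat_lit 147492) (nat_lit 11) (.e (nat_lit 24604) (nat_lit 2) (.e (nat_lit 90178) (nat_lit 15) (.e (nat_lit 188440) (nat_lit 20) (.e (nat_lit 3307) (nat_lit 202) .nil))))) .nil)) 
(.lf (nat_lit 248059) (.g (nat_lit 585) (.e (nat_lit 147492) (nat_lit 11) (.e (nat_lit 24641) (nat_lit 10) (.e (nat_lit 344177) (nat_lit 43) .nil))) .nil)))))) (.nd (nat_lit 3) (.nd (nat_lit 4) (.nd (nat_lit 5) (.nd (nat_lit 6) 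
(.lf (nat_lit 247943) (.g (nat_lit 1447) (.e (nat_lit 147472) (nat_lit 9) (.e (nat_lit 343) (nat_lit 27) (.e (nat_lit 385068) (nat_lit 26) (.e (nat_lit 532523) (nat_lit 7) .nil)))) .nil)) 
(.lf (nat_lit 248007) (.g (nat_lit 1638) (.e (nat_lit 147492) (nat_lit 11) (.e (nat_lit 24617) (nat_lit 7) (.e (nat_lit 319499) (nat_lit 10) (.e (nat_lit 720) (nat_lit 64) (.e (nat_lit 688186) (nat_lit 18) .nil))))) .nil))) (.nd (nat_lit 6) 
(.lf (nat_lit 247975) (.g (nat_lit 2566) (.e (nat_lit 147491) (nat_lit 10) (.e (nat_lit 8326) (nat_lit 69) (.e (nat_lit 557100) (nat_lit 13) (.e (nat_lit 172065) (nat_lit 3) (.e (nat_lit 204838) (nat_lit 20) .nil))))) .nil)) 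
(.lf (nat_lit 248039) (.g (nat_lit 960) (.e (nat_lit 147492) (nat_lit 11) (.e (nat_lit 24638) (nat_lit 9) (.e (nat_lit 335987) (nat_lit 1) (.e (nat_lit 65280) (nat_lit 152) .nil)))) .nil)))) (.nd (nat_lit 5) (.nd (nat_lit 6) 
(.lf (nat_lit 247959) (.g (nat_lit 1503) (.e (nat_lit 147476) (nat_lit 9) (.e (nat_lit 290) (nat_lit 21) (.e (nat_lit 336222) (nat_lit 13) (.e (nat_lit 393238) (nat_lit 17) (.e (nat_lit 7936) (nat_lit 406) (.e (nat_lit 65579) (nat_lit 6) .nil)))))) (.g (nat_lit 4) .nil .nil))) 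
(.lf (nat_lit 248023) (.g (nat_lit 1103) (.e (nat_lit 147492) (nat_lit 11) (.e (nat_lit 24627) (nat_lit 9) (.e (nat_lit 336000) (nat_lit 1) (.e (nat_lit 57654) (nat_lit 152) (.e (nat_lit 1216) (nat_lit 90) .nil))))) .nil))) (.nd (nat_lit 6) 
(.lf (nat_lit 247991) (.g (nat_lit 844) (.e (nat_lit 147492) (nat_lit 11) (.e (nat_lit 24584) (nat_lit 0) (.e (nat_lit 6212) (nat_lit 333) .nil))) .nil)) 
(.lf (nat_lit 248055) (.g (nat_lit 2124) (.e (nat_lit 147492) (nat_lit 11) (.e (nat_lit 24640) (nat_lit 10) (.e (nat_lit 344177) (nat_lit 43) (.e (nat_lit 770074) (nat_lit 10) (.e (nat_lit 81963) (nat_lit 26) .nil))))) .nil))))) (.nd (nat_lit 4) (.nd (nat_lit 5) (.nd (nat_lit 6) 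
(.lf (nat_lit 247951) (.g (nat_lit 1789) (.e (nat_lit 147476) (nat_lit 9) (.e (nat_lit 290) (nat_lit 21) (.e (nat_lit 336213) (nat_lit 13) (.e (nat_lit 393231) (nat_lit 17) .nil)))) .nil)) 
(.lf (nat_lit 248015) (.g (nat_lit 2737) (.e (nat_lit 147492) (nat_lit 11) (.e (nat_lit 24617) (nat_lit 7) (.e (nat_lit 319533) (nat_lit 16) (.e (nat_lit 286753) (nat_lit 10) (.e (nat_lit 344160) (nat_lit 37) (.e (nat_lit 647190) (nat_lit 9) (.e (nat_lit 1310) (nat_lit 98) .nil))))))) (.g (nat_lit 5) .nil .nil)))) (.nd (nat_lit 6) 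
(.lf (nat_lit 247983) (.g (nat_lit 1488) (.e (nat_lit 147492) (nat_lit 11) (.e (nat_lit 24580) (nat_lit 0) (.e (nat_lit 6712) (nat_lit 360) (.e (nat_lit 163846) (nat_lit 0) .nil)))) .nil)) 
(.lf (nat_lit 248047) (.g (nat_lit 1203) (.e (nat_lit 147492) (nat_lit 11) (.e (nat_lit 24640) (nat_lit 10) (.e (nat_lit 344089) (nat_lit 18) (.e (nat_lit 7133) (nat_lit 382) .nil)))) .nil)))) (.nd (nat_lit 5) (.nd (nat_lit 6) 
(.lf (nat_lit 247967) (.g (nat_lit 3011) (.e (nat_lit 147483) (nat_lit 9) (.e (nat_lit 284) (nat_lit 21) (.e (nat_lit 336213) (nat_lit 13) (.e (nat_lit 393299) (nat_lit 27) (.e (nat_lit 491546) (nat_lit 9) .nil))))) .nil)) 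
(.lf (nat_lit 248031) (.g (nat_lit 339) (.e (nat_lit 147492) (nat_lit 11) (.e (nat_lit 24631) (nat_lit 9) (.e (nat_lit 335985) (nat_lit 1) .nil))) .nil))) (.nd (nat_lit 6) 
(.lf (nat_lit 247999) (.g (nat_lit 2036) (.e (nat_lit 147492) (nat_lit 11) (.e (nat_lit 24608) (nat_lit 3) (.e (nat_lit 98372) (nat_lit 29) (.e (nat_lit 450586) (nat_lit 10) .nil)))) .nil)) 
(.lf (nat_lit 248063) (.g (nat_lit 779) (.e (nat_lit 147492) (nat_lit 11) (.e (nat_lit 24646) (nat_lit 11) (.e (nat_lit 368662) (nat_lit 18) (.e (nat_lit 7160) (nat_lit 382) (.e (nat_lit 7936) (nat_lit 90) .nil))))) .nil)))))))))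

noncomputable def tv3215 : DT := (.nd (nat_lit 0) (.nd (nat_lit 1) (.nd (nat_lit 2) (.nd (nat_lit 3) (.nd (nat_lit 4) (.nd (nat_lit 5) (.nd (nat_lit 6) 
(.lf (nat_lit 248064) (.g (nat_lit 2776) (.e (nat_lit 147492) (nat_lit 11) (.e (nat_lit 24646) (nat_lit 11) (.e (nat_lit 368662) (nat_lit 18) (.e (nat_lit 7272) (nat_lit 385) (.e (nat_lit 122916) (nat_lit 14) (.e (nat_lit 352324) (nat_lit 26) .nil)))))) (.g (nat_lit 6) .nil .nil))) 
(.lf (nat_lit 248128) (.g (nat_lit 1871) (.e (nat_lit 147492) (nat_lit 11) (.e (nat_lit 24665) (nat_lit 14) (.e (nat_lit 401414) (nat_lit 0) (.e (nat_lit 2438) (nat_lit 157) .nil)))) .nil))) (.nd (nat_lit 6) 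
(.lf (nat_lit 248096) (.g (nat_lit 3922) (.e (nat_lit 147492) (nat_lit 11) (.e (nat_lit 24662) (nat_lit 14) (.e (nat_lit 401410) (nat_lit 0) (.e (nat_lit 3454) (nat_lit 216) .nil)))) .nil)) 
(.lf (nat_lit 248160) (.g (nat_lit 794) (.e (nat_lit 147493) (nat_lit 11) (.e (nat_lit 24628) (nat_lit 9) (.e (nat_lit 336438) (nat_lit 31) (.e (nat_lit 466688) (nat_lit 4) .nil)))) .nil)))) (.nd (nat_lit 5) (.nd (nat_lit 6) 
(.lf (nat_lit 248080) (.g (nat_lit 1020) (.e (nat_lit 147492) (nat_lit 11) (.e (nat_lit 24657) (nat_lit 13) (.e (nat_lit 393252) (nat_lit 18) .nil))) .nil)) 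
(.lf (nat_lit 248144) (.g (nat_lit 2103) (.e (nat_lit 147493) (nat_lit 11) (.e (nat_lit 24605) (nat_lit 2) (.e (nat_lit 90170) (nat_lit 13) (.e (nat_lit 172106) (nat_lit 10) (.e (nat_lit 434244) (nat_lit 28) (.e (nat_lit 573458) (nat_lit 9) (.e (nat_lit 1310) (nat_lit 98) .nil))))))) (.g (nat_lit 4) .nil .nil)))) (.nd (nat_lit 6) 
(.lf (nat_lit 248112) (.g (nat_lit 4155) (.e (nat_lit 147492) (nat_lit 11) (.e (nat_lit 24662) (nat_lit 14) (.e (nat_lit 401454) (nat_lit 12) (.e (nat_lit 475213) (nat_lit 42) .nil)))) .nil)) 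
(.lf (nat_lit 248176) (.g (nat_lit 2084) (.e (nat_lit 147493) (nat_lit 11) (.e (nat_lit 24655) (nat_lit 13) (.e (nat_lit 393298) (nat_lit 27) (.e (nat_lit 491554) (nat_lit 9) .nil)))) .nil))))) (.nd (nat_lit 4) (.nd (nat_lit 5) (.nd (nat_lit 6) 
(.lf (nat_lit 248072) (.g (nat_lit 850) (.e (nat_lit 147492) (nat_lit 11) (.e (nat_lit 24655) (nat_lit 13) (.e (nat_lit 393301) (nat_lit 27) .nil))) .nil)) 
(.lf (nat_lit 248136) (.g (nat_lit 1029) (.e (nat_lit 147492) (nat_lit 11) (.e (nat_lit 24665) (nat_lit 14) (.e (nat_lit 401429) (nat_lit 4) .nil))) .nil))) (.nd (nat_lit 6) 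
(.lf (nat_lit 248104) (.g (nat_lit 1364) (.e (nat_lit 147492) (nat_lit 11) (.e (nat_lit 24662) (nat_lit 14) (.e (nat_lit 401415) (nat_lit 0) .nil))) .nil)) 
(.lf (nat_lit 248168) (.g (nat_lit 1539) (.e (nat_lit 147493) (nat_lit 11) (.e (nat_lit 24638) (nat_lit 9) (.e (nat_lit 335988) (nat_lit 1) (.e (nat_lit 57664) (nat_lit 152) .nil)))) .nil)))) (.nd (nat_lit 5) (.nd (nat_lit 6) 
(.lf (nat_lit 248088) (.g (nat_lit 2597) (.e (nat_lit 147492) (nat_lit 11) (.e (nat_lit 24660) (nat_lit 13) (.e (nat_lit 393260) (nat_lit 21) (.e (nat_lit 409623) (nat_lit 10) (.e (nat_lit 5293) (nat_lit 298) (.e (nat_lit 1310) (nat_lit 98) .nil)))))) (.g (nat_lit 5) .nil .nil))) 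
(.lf (nat_lit 248152) (.g (nat_lit 4872) (.e (nat_lit 147493) (nat_lit 11) (.e (nat_lit 24608) (nat_lit 3) (.e (nat_lit 98373) (nat_lit 29) (.e (nat_lit 450588) (nat_lit 10) (.e (nat_lit 573452) (nat_lit 9) .nil))))) .nil))) (.nd (nat_lit 6) 
(.lf (nat_lit 248120) (.g (nat_lit 878) (.e (nat_lit 147492) (nat_lit 11) (.e (nat_lit 24664) (nat_lit 14) (.e (nat_lit 401408) (nat_lit 0) (.e (nat_lit 3452) (nat_lit 216) .nil)))) .nil)) 
(.lf (nat_lit 248184) (.g (nat_lit 866) (.e (nat_lit 147493) (nat_lit 11) (.e (nat_lit 24657) (nat_lit 13) (.e (nat_lit 393239) (nat_lit 17) .nil))) .nil)))))) (.nd (nat_lit 3) (.nd (nat_lit 4) (.nd (nat_lit 5) (.nd (nat_lit 6) 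
(.lf (nat_lit 248068) (.g (nat_lit 956) (.e (nat_lit 147492) (nat_lit 11) (.e (nat_lit 24655) (nat_lit 13) (.e (nat_lit 393237) (nat_lit 17) .nil))) .nil)) 
(.lf (nat_lit 248132) (.g (nat_lit 1294) (.e (nat_lit 147492) (nat_lit 11) (.e (nat_lit 24665) (nat_lit 14) (.e (nat_lit 401417) (nat_lit 0) (.e (nat_lit 3452) (nat_lit 216) .nil)))) .nil))) (.nd (nat_lit 6) 
(.lf (nat_lit 248100) (.g (nat_lit 1003) (.e (nat_lit 147492) (nat_lit 11) (.e (nat_lit 24662) (nat_lit 14) (.e (nat_lit 401412) (nat_lit 0) .nil))) .nil)) 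
(.lf (nat_lit 248164) (.g (nat_lit 982) (.e (nat_lit 147493) (nat_lit 11) (.e (nat_lit 24638) (nat_lit 9) (.e (nat_lit 335892) (nat_lit 0) (.e (nat_lit 2271) (nat_lit 149) .nil)))) .nil)))) (.nd (nat_lit 5) (.nd (nat_lit 6) 
(.lf (nat_lit 248084) (.g (nat_lit 2758) (.e (nat_lit 147492) (nat_lit 11) (.e (nat_lit 24658) (nat_lit 13) (.e (nat_lit 393301) (nat_lit 27) (.e (nat_lit 491552) (nat_lit 9) (.e (nat_lit 336046) (nat_lit 6) .nil))))) .nil)) 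
(.lf (nat_lit 248148) (.g (nat_lit 2115) (.e (nat_lit 147493) (nat_lit 11) (.e (nat_lit 24608) (nat_lit 3) (.e (nat_lit 98372) (nat_lit 29) (.e (nat_lit 450586) (nat_lit 10) .nil)))) .nil))) (.nd (nat_lit 6) 
(.lf (nat_lit 248116) (.g (nat_lit 1364) (.e (nat_lit 147492) (nat_lit 11) (.e (nat_lit 24662) (nat_lit 14) (.e (nat_lit 401461) (nat_lit 15) .nil))) .nil)) 
(.lf (nat_lit 248180) (.g (nat_lit 874) (.e (nat_lit 147493) (nat_lit 11) (.e (nat_lit 24655) (nat_lit 13) (.e (nat_lit 393301) (nat_lit 27) .nil))) .nil))))) (.nd (nat_lit 4) (.nd (nat_lit 5) (.nd (nat_lit 6) 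
(.lf (nat_lit 248076) (.g (nat_lit 1029) (.e (nat_lit 147492) (nat_lit 11) (.e (nat_lit 24657) (nat_lit 13) (.e (nat_lit 393236) (nat_lit 17) .nil))) .nil)) 
(.lf (nat_lit 248140) (.g (nat_lit 225) (.e (nat_lit 147492) (nat_lit 11) (.e (nat_lit 24675) (nat_lit 27) (.e (nat_lit 433920) (nat_lit 30) .nil))) .nil))) (.nd (nat_lit 6) 
(.lf (nat_lit 248108) (.g (nat_lit 1189) (.e (nat_lit 147492) (nat_lit 11) (.e (nat_lit 24662) (nat_lit 14) (.e (nat_lit 401422) (nat_lit 1) .nil))) .nil)) 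
(.lf (nat_lit 248172) (.g (nat_lit 846) (.e (nat_lit 147493) (nat_lit 11) (.e (nat_lit 24655) (nat_lit 13) (.e (nat_lit 393233) (nat_lit 17) .nil))) .nil)))) (.nd (nat_lit 5) (.nd (nat_lit 6) 
(.lf (nat_lit 248092) (.g (nat_lit 1368) (.e (nat_lit 147492) (nat_lit 11) (.e (nat_lit 24662) (nat_lit 14) (.e (nat_lit 401409) (nat_lit 0) .nil))) .nil)) 
(.lf (nat_lit 248156) (.g (nat_lit 862) (.e (nat_lit 147493) (nat_lit 11) (.e (nat_lit 24625) (nat_lit 9) (.e (nat_lit 336438) (nat_lit 31) .nil))) .nil))) (.nd (nat_lit 6) 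
(.lf (nat_lit 248124) (.g (nat_lit 1429) (.e (nat_lit 147492) (nat_lit 11) (.e (nat_lit 24664) (nat_lit 14) (.e (nat_lit 401414) (nat_lit 0) (.e (nat_lit 2477) (nat_lit 157) .nil)))) .nil)) 
(.lf (nat_lit 248188) (.g (nat_lit 851) (.e (nat_lit 147493) (nat_lit 11) (.e (nat_lit 24657) (nat_lit 13) (.e (nat_lit 393248) (nat_lit 17) .nil))) .nil))))))) (.nd (nat_lit 2) (.nd (nat_lit 3) (.nd (nat_lit 4) (.nd (nat_lit 5) (.nd (nat_lit 6) 
(.lf (nat_lit 248066) (.g (nat_lit 1879) (.e (nat_lit 147492) (nat_lit 11) (.e (nat_lit 24655) (nat_lit 13) (.e (nat_lit 393232) (nat_lit 17) (.e (nat_lit 7587) (nat_lit 406) .nil)))) .nil)) 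
(.lf (nat_lit 248130) (.g (nat_lit 1706) (.e (nat_lit 147492) (nat_lit 11) (.e (nat_lit 24665) (nat_lit 14) (.e (nat_lit 401414) (nat_lit 0) (.e (nat_lit 3468) (nat_lit 217) .nil)))) .nil))) (.nd (nat_lit 6) 
(.lf (nat_lit 248098) (.g (nat_lit 1364) (.e (nat_lit 147492) (nat_lit 11) (.e (nat_lit 24662) (nat_lit 14) (.e (nat_lit 401411) (nat_lit 0) .nil))) .nil)) 
(.lf (nat_lit 248162) (.g (nat_lit 945) (.e (nat_lit 147493) (nat_lit 11) (.e (nat_lit 24630) (nat_lit 9) (.e (nat_lit 336438) (nat_lit 31) (.e (nat_lit 466688) (nat_lit 4) .nil)))) .nil)))) (.nd (nat_lit 5) (.nd (nat_lit 6) 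
(.lf (nat_lit 248082) (.g (nat_lit 1949) (.e (nat_lit 147492) (nat_lit 11) (.e (nat_lit 24657) (nat_lit 13) (.e (nat_lit 393271) (nat_lit 23) (.e (nat_lit 425986) (nat_lit 0) (.e (nat_lit 3368) (nat_lit 208) (.e (nat_lit 622602) (nat_lit 5) (.e (nat_lit 1312) (nat_lit 98) .nil))))))) (.g (nat_lit 7) .nil .nil))) 
(.lf (nat_lit 248146) (.g (nat_lit 2311) (.e (nat_lit 147493) (nat_lit 11) (.e (nat_lit 24607) (nat_lit 3) (.e (nat_lit 98372) (nat_lit 29) (.e (nat_lit 450586) (nat_lit 10) (.e (nat_lit 573456) (nat_lit 9) .nil))))) .nil))) (.nd (nat_lit 6) 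
(.lf (nat_lit 248114) (.g (nat_lit 5370) (.e (nat_lit 147492) (nat_lit 11) (.e (nat_lit 24662) (nat_lit 14) (.e (nat_lit 401454) (nat_lit 12) (.e (nat_lit 475214) (nat_lit 42) (.e (nat_lit 720955) (nat_lit 25) .nil))))) .nil)) 
(.lf (nat_lit 248178) (.g (nat_lit 1763) (.e (nat_lit 147493) (nat_lit 11) (.e (nat_lit 24655) (nat_lit 13) (.e (nat_lit 393299) (nat_lit 27) (.e (nat_lit 491556) (nat_lit 9) .nil)))) .nil))))) (.nd (nat_lit 4) (.nd (nat_lit 5) (.nd (nat_lit 6) 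
(.lf (nat_lit 248074) (.g (nat_lit 449) (.e (nat_lit 147492) (nat_lit 11) (.e (nat_lit 24657) (nat_lit 13) (.e (nat_lit 401152) (nat_lit 1) .nil))) .nil)) 
(.lf (nat_lit 248138) (.g (nat_lit 2777) (.e (nat_lit 147492) (nat_lit 11) (.e (nat_lit 24665) (nat_lit 14) (.e (nat_lit 401451) (nat_lit 12) (.e (nat_lit 475214) (nat_lit 42) .nil)))) .nil))) (.nd (nat_lit 6) 
(.lf (nat_lit 248106) (.g (nat_lit 1364) (.e (nat_lit 147492) (nat_lit 11) (.e (nat_lit 24662) (nat_lit 14) (.e (nat_lit 401417) (nat_lit 0) .nil))) .nil)) 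
(.lf (nat_lit 248170) (.g (nat_lit 908) (.e (nat_lit 147493) (nat_lit 11) (.e (nat_lit 24646) (nat_lit 11) (.e (nat_lit 368662) (nat_lit 18) (.e (nat_lit 7147) (nat_lit 382) (.e (nat_lit 1216) (nat_lit 90) .nil))))) .nil)))) (.nd (nat_lit 5) (.nd (nat_lit 6) 
(.lf (nat_lit 248090) (.g (nat_lit 1855) (.e (nat_lit 147492) (nat_lit 11) (.e (nat_lit 24660) (nat_lit 13) (.e (nat_lit 393260) (nat_lit 21) (.e (nat_lit 409640) (nat_lit 17) (.e (nat_lit 294934) (nat_lit 6) .nil))))) (.g (nat_lit 4) .nil .nil))) 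
(.lf (nat_lit 248154) (.g (nat_lit 1796) (.e (nat_lit 147493) (nat_lit 11) (.e (nat_lit 24617) (nat_lit 7) (.e (nat_lit 319533) (nat_lit 16) (.e (nat_lit 286753) (nat_lit 10) .nil)))) .nil))) (.nd (nat_lit 6) 
(.lf (nat_lit 248122) (.g (nat_lit 542) (.e (nat_lit 147492) (nat_lit 11) (.e (nat_lit 24664) (nat_lit 14) (.e (nat_lit 401414) (nat_lit 0) .nil))) .nil)) 
(.lf (nat_lit 248186) (.g (nat_lit 856) (.e (nat_lit 147493) (nat_lit 11) (.e (nat_lit 24657) (nat_lit 13) (.e (nat_lit 393244) (nat_lit 17) .nil))) .nil)))))) (.nd (nat_lit 3) (.nd (nat_lit 4) (.nd (nat_lit 5) (.nd (nat_lit 6) 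
(.lf (nat_lit 248070) (.g (nat_lit 2632) (.e (nat_lit 147492) (nat_lit 11) (.e (nat_lit 24655) (nat_lit 13) (.e (nat_lit 393299) (nat_lit 27) (.e (nat_lit 491546) (nat_lit 9) (.e (nat_lit 336048) (nat_lit 6) .nil))))) .nil)) 
(.lf (nat_lit 248134) (.g (nat_lit 570) (.e (nat_lit 147492) (nat_lit 11) (.e (nat_lit 24665) (nat_lit 14) (.e (nat_lit 401420) (nat_lit 1) .nil))) .nil))) (.nd (nat_lit 6) 
(.lf (nat_lit 248102) (.g (nat_lit 2462) (.e (nat_lit 147492) (nat_lit 11) (.e (nat_lit 24662) (nat_lit 14) (.e (nat_lit 401412) (nat_lit 0) (.e (nat_lit 3455) (nat_lit 216) .nil)))) .nil)) 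
(.lf (nat_lit 248166) (.g (nat_lit 1500) (.e (nat_lit 147493) (nat_lit 11) (.e (nat_lit 24638) (nat_lit 9) (.e (nat_lit 335986) (nat_lit 1) (.e (nat_lit 57657) (nat_lit 152) .nil)))) .nil)))) (.nd (nat_lit 5) (.nd (nat_lit 6) 
(.lf (nat_lit 248086) (.g (nat_lit 970) (.e (nat_lit 147492) (nat_lit 11) (.e (nat_lit 24660) (nat_lit 13) (.e (nat_lit 393238) (nat_lit 17) (.e (nat_lit 7936) (nat_lit 406) .nil)))) .nil)) 
(.lf (nat_lit 248150) (.g (nat_lit 3398) (.e (nat_lit 147493) (nat_lit 11) (.e (nat_lit 24608) (nat_lit 3) (.e (nat_lit 98373) (nat_lit 29) (.e (nat_lit 450587) (nat_lit 10) (.e (nat_lit 573454) (nat_lit 9) .nil))))) .nil))) (.nd (nat_lit 6) 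
(.lf (nat_lit 248118) (.g (nat_lit 2042) (.e (nat_lit 147492) (nat_lit 11) (.e (nat_lit 24662) (nat_lit 14) (.e (nat_lit 401463) (nat_lit 15) (.e (nat_lit 989) (nat_lit 81) .nil)))) .nil)) 
(.lf (nat_lit 248182) (.g (nat_lit 851) (.e (nat_lit 147493) (nat_lit 11) (.e (nat_lit 24657) (nat_lit 13) (.e (nat_lit 393230) (nat_lit 17) .nil))) .nil))))) (.nd (nat_lit 4) (.nd (nat_lit 5) (.nd (nat_lit 6) 
(.lf (nat_lit 248078) (.g (nat_lit 993) (.e (nat_lit 147492) (nat_lit 11) (.e (nat_lit 24657) (nat_lit 13) (.e (nat_lit 393245) (nat_lit 17) .nil))) .nil)) 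
(.lf (nat_lit 248142) (.g (nat_lit 2618) (.e (nat_lit 147493) (nat_lit 11) (.e (nat_lit 24604) (nat_lit 2) (.e (nat_lit 90178) (nat_lit 15) (.e (nat_lit 188440) (nat_lit 20) (.e (nat_lit 3307) (nat_lit 202) .nil))))) .nil))) (.nd (nat_lit 6) 
(.lf (nat_lit 248110) (.g (nat_lit 2015) (.e (nat_lit 147492) (nat_lit 11) (.e (nat_lit 24662) (nat_lit 14) (.e (nat_lit 401422) (nat_lit 1) (.e (nat_lit 164179) (nat_lit 154) .nil)))) .nil)) 
(.lf (nat_lit 248174) (.g (nat_lit 981) (.e (nat_lit 147493) (nat_lit 11) (.e (nat_lit 24655) (nat_lit 13) (.e (nat_lit 393249) (nat_lit 17) (.e (nat_lit 7936) (nat_lit 406) .nil)))) .nil)))) (.nd (nat_lit 5) (.nd (nat_lit 6) 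
(.lf (nat_lit 248094) (.g (nat_lit 3922) (.e (nat_lit 147492) (nat_lit 11) (.e (nat_lit 24662) (nat_lit 14) (.e (nat_lit 401410) (nat_lit 0) (.e (nat_lit 3452) (nat_lit 216) .nil)))) .nil)) 
(.lf (nat_lit 248158) (.g (nat_lit 618) (.e (nat_lit 147493) (nat_lit 11) (.e (nat_lit 24627) (nat_lit 9) (.e (nat_lit 336436) (nat_lit 31) .nil))) .nil))) (.nd (nat_lit 6) 
(.lf (nat_lit 248126) (.g (nat_lit 850) (.e (nat_lit 147492) (nat_lit 11) (.e (nat_lit 24664) (nat_lit 14) (.e (nat_lit 401429) (nat_lit 4) .nil))) .nil)) 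
(.lf (nat_lit 248190) (.g (nat_lit 391) (.e (nat_lit 147493) (nat_lit 11) (.e (nat_lit 24657) (nat_lit 13) (.e (nat_lit 401152) (nat_lit 17) .nil))) .nil)))))))) (.nd (nat_lit 1) (.nd (nat_lit 2) (.nd (nat_lit 3) (.nd (nat_lit 4) (.nd (nat_lit 5) (.nd (nat_lit 6) 
(.lf (nat_lit 248065) (.g (nat_lit 607) (.e (nat_lit 147492) (nat_lit 11) (.e (nat_lit 24648) (nat_lit 12) (.e (nat_lit 385049) (nat_lit 21) .nil))) .nil)) 
(.lf (nat_lit 248129) (.g (nat_lit 1715) (.e (nat_lit 147492) (nat_lit 11) (.e (nat_lit 24665) (nat_lit 14) (.e (nat_lit 401414) (nat_lit 0) (.e (nat_lit 7936) (nat_lit 216) .nil)))) .nil))) (.nd (nat_lit 6) 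
(.lf (nat_lit 248097) (.g (nat_lit 4207) (.e (nat_lit 147492) (nat_lit 11) (.e (nat_lit 24662) (nat_lit 14) (.e (nat_lit 401410) (nat_lit 0) (.e (nat_lit 3455) (nat_lit 216) (.e (nat_lit 688185) (nat_lit 18) .nil))))) .nil)) 
(.lf (nat_lit 248161) (.g (nat_lit 1157) (.e (nat_lit 147493) (nat_lit 11) (.e (nat_lit 24630) (nat_lit 9) (.e (nat_lit 336369) (nat_lit 27) (.e (nat_lit 426173) (nat_lit 7) .nil)))) .nil)))) (.nd (nat_lit 5) (.nd (nat_lit 6) 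
(.lf (nat_lit 248081) (.g (nat_lit 336) (.e (nat_lit 147492) (nat_lit 11) (.e (nat_lit 24657) (nat_lit 13) (.e (nat_lit 393253) (nat_lit 18) .nil))) .nil)) 
(.lf (nat_lit 248145) (.g (nat_lit 3725) (.e (nat_lit 147493) (nat_lit 11) (.e (nat_lit 24605) (nat_lit 2) (.e (nat_lit 90170) (nat_lit 13) (.e (nat_lit 172113) (nat_lit 10) (.e (nat_lit 434247) (nat_lit 28) (.e (nat_lit 573456) (nat_lit 9) (.e (nat_lit 1312) (nat_lit 98) .nil))))))) (.g (nat_lit 6) .nil .nil)))) (.nd (nat_lit 6) 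
(.lf (nat_lit 248113) (.g (nat_lit 5362) (.e (nat_lit 147492) (nat_lit 11) (.e (nat_lit 24662) (nat_lit 14) (.e (nat_lit 401454) (nat_lit 12) (.e (nat_lit 475214) (nat_lit 42) (.e (nat_lit 720954) (nat_lit 25) .nil))))) .nil)) 
(.lf (nat_lit 248177) (.g (nat_lit 2062) (.e (nat_lit 147493) (nat_lit 11) (.e (nat_lit 24655) (nat_lit 13) (.e (nat_lit 393298) (nat_lit 27) (.e (nat_lit 491556) (nat_lit 9) .nil)))) .nil))))) (.nd (nat_lit 4) (.nd (nat_lit 5) (.nd (nat_lit 6) 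
(.lf (nat_lit 248073) (.g (nat_lit 2208) (.e (nat_lit 147492) (nat_lit 11) (.e (nat_lit 24655) (nat_lit 13) (.e (nat_lit 393301) (nat_lit 27) (.e (nat_lit 491546) (nat_lit 9) .nil)))) .nil)) 
(.lf (nat_lit 248137) (.g (nat_lit 892) (.e (nat_lit 147492) (nat_lit 11) (.e (nat_lit 24665) (nat_lit 14) (.e (nat_lit 409344) (nat_lit 4) .nil))) .nil))) (.nd (nat_lit 6) 
(.lf (nat_lit 248105) (.g (nat_lit 2249) (.e (nat_lit 147492) (nat_lit 11) (.e (nat_lit 24662) (nat_lit 14) (.e (nat_lit 401416) (nat_lit 0) (.e (nat_lit 3452) (nat_lit 216) .nil)))) .nil)) 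
(.lf (nat_lit 248169) (.g (nat_lit 1572) (.e (nat_lit 147493) (nat_lit 11) (.e (nat_lit 24640) (nat_lit 10) (.e (nat_lit 344096) (nat_lit 18) (.e (nat_lit 7265) (nat_lit 384) .nil)))) .nil)))) (.nd (nat_lit 5) (.nd (nat_lit 6) 
(.lf (nat_lit 248089) (.g (nat_lit 1148) (.e (nat_lit 147492) (nat_lit 11) (.e (nat_lit 24660) (nat_lit 13) (.e (nat_lit 393260) (nat_lit 21) (.e (nat_lit 417536) (nat_lit 16) .nil)))) .nil)) 
(.lf (nat_lit 248153) (.g (nat_lit 2530) (.e (nat_lit 147493) (nat_lit 11) (.e (nat_lit 24609) (nat_lit 3) (.e (nat_lit 98373) (nat_lit 29) (.e (nat_lit 450587) (nat_lit 10) (.e (nat_lit 573454) (nat_lit 9) .nil))))) .nil))) (.nd (nat_lit 6) 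
(.lf (nat_lit 248121) (.g (nat_lit 873) (.e (nat_lit 147492) (nat_lit 11) (.e (nat_lit 24664) (nat_lit 14) (.e (nat_lit 401408) (nat_lit 0) (.e (nat_lit 7936) (nat_lit 216) .nil)))) .nil)) 
(.lf (nat_lit 248185) (.g (nat_lit 605) (.e (nat_lit 147493) (nat_lit 11) (.e (nat_lit 24657) (nat_lit 13) (.e (nat_lit 393242) (nat_lit 17) .nil))) .nil)))))) (.nd (nat_lit 3) (.nd (nat_lit 4) (.nd (nat_lit 5) (.nd (nat_lit 6) 
(.lf (nat_lit 248069) (.g (nat_lit 2209) (.e (nat_lit 147492) (nat_lit 11) (.e (nat_lit 24655) (nat_lit 13) (.e (nat_lit 393298) (nat_lit 27) (.e (nat_lit 491552) (nat_lit 9) .nil)))) .nil)) 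
(.lf (nat_lit 248133) (.g (nat_lit 1007) (.e (nat_lit 147492) (nat_lit 11) (.e (nat_lit 24665) (nat_lit 14) (.e (nat_lit 401418) (nat_lit 0) .nil))) .nil))) (.nd (nat_lit 6) 
(.lf (nat_lit 248101) (.g (nat_lit 2464) (.e (nat_lit 147492) (nat_lit 11) (.e (nat_lit 24662) (nat_lit 14) (.e (nat_lit 401412) (nat_lit 0) (.e (nat_lit 3454) (nat_lit 216) .nil)))) .nil)) 
(.lf (nat_lit 248165) (.g (nat_lit 901) (.e (nat_lit 147493) (nat_lit 11) (.e (nat_lit 24638) (nat_lit 9) (.e (nat_lit 335892) (nat_lit 0) (.e (nat_lit 2284) (nat_lit 150) .nil)))) .nil)))) (.nd (nat_lit 5) (.nd (nat_lit 6) 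
(.lf (nat_lit 248085) (.g (nat_lit 2223) (.e (nat_lit 147492) (nat_lit 11) (.e (nat_lit 24659) (nat_lit 13) (.e (nat_lit 393301) (nat_lit 27) (.e (nat_lit 491546) (nat_lit 9) (.e (nat_lit 336048) (nat_lit 6) .nil))))) .nil)) 
(.lf (nat_lit 248149) (.g (nat_lit 889) (.e (nat_lit 147493) (nat_lit 11) (.e (nat_lit 24608) (nat_lit 3) (.e (nat_lit 98373) (nat_lit 29) .nil))) .nil))) (.nd (nat_lit 6) 
(.lf (nat_lit 248117) (.g (nat_lit 1334) (.e (nat_lit 147492) (nat_lit 11) (.e (nat_lit 24662) (nat_lit 14) (.e (nat_lit 401463) (nat_lit 15) .nil))) .nil)) 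
(.lf (nat_lit 248181) (.g (nat_lit 3162) (.e (nat_lit 147493) (nat_lit 11) (.e (nat_lit 24655) (nat_lit 13) (.e (nat_lit 393301) (nat_lit 27) (.e (nat_lit 491546) (nat_lit 9) (.e (nat_lit 336048) (nat_lit 6) .nil))))) .nil))))) (.nd (nat_lit 4) (.nd (nat_lit 5) (.nd (nat_lit 6) 
(.lf (nat_lit 248077) (.g (nat_lit 1011) (.e (nat_lit 147492) (nat_lit 11) (.e (nat_lit 24657) (nat_lit 13) (.e (nat_lit 393243) (nat_lit 17) .nil))) .nil)) 
(.lf (nat_lit 248141) (.g (nat_lit 3898) (.e (nat_lit 147493) (nat_lit 11) (.e (nat_lit 24604) (nat_lit 2) (.e (nat_lit 90170) (nat_lit 13) (.e (nat_lit 172113) (nat_lit 10) .nil)))) .nil))) (.nd (nat_lit 6) 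
(.lf (nat_lit 248109) (.g (nat_lit 1963) (.e (nat_lit 147492) (nat_lit 11) (.e (nat_lit 24662) (nat_lit 14) (.e (nat_lit 401422) (nat_lit 1) (.e (nat_lit 164147) (nat_lit 152) .nil)))) .nil)) 
(.lf (nat_lit 248173) (.g (nat_lit 1749) (.e (nat_lit 147493) (nat_lit 11) (.e (nat_lit 24655) (nat_lit 13) (.e (nat_lit 393234) (nat_lit 17) (.e (nat_lit 7587) (nat_lit 406) .nil)))) .nil)))) (.nd (nat_lit 5) (.nd (nat_lit 6) 
(.lf (nat_lit 248093) (.g (nat_lit 2162) (.e (nat_lit 147492) (nat_lit 11) (.e (nat_lit 24662) (nat_lit 14) (.e (nat_lit 401410) (nat_lit 0) .nil))) .nil)) 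
(.lf (nat_lit 248157) (.g (nat_lit 263) (.e (nat_lit 147493) (nat_lit 11) (.e (nat_lit 24626) (nat_lit 9) (.e (nat_lit 336438) (nat_lit 31) .nil))) .nil))) (.nd (nat_lit 6) 
(.lf (nat_lit 248125) (.g (nat_lit 1387) (.e (nat_lit 147492) (nat_lit 11) (.e (nat_lit 24664) (nat_lit 14) (.e (nat_lit 401414) (nat_lit 0) (.e (nat_lit 3469) (nat_lit 217) .nil)))) .nil)) 
(.lf (nat_lit 248189) (.g (nat_lit 893) (.e (nat_lit 147493) (nat_lit 11) (.e (nat_lit 24657) (nat_lit 13) (.e (nat_lit 393249) (nat_lit 17) (.e (nat_lit 7936) (nat_lit 406) .nil)))) .nil))))))) (.nd (nat_lit 2) (.nd (nat_lit 3) (.nd (nat_lit 4) (.nd (nat_lit 5) (.nd (nat_lit 6) 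
(.lf (nat_lit 248067) (.g (nat_lit 873) (.e (nat_lit 147492) (nat_lit 11) (.e (nat_lit 24655) (nat_lit 13) (.e (nat_lit 393233) (nat_lit 17) .nil))) .nil)) 
(.lf (nat_lit 248131) (.g (nat_lit 1876) (.e (nat_lit 147492) (nat_lit 11) (.e (nat_lit 24665) (nat_lit 14) (.e (nat_lit 401414) (nat_lit 0) (.e (nat_lit 3469) (nat_lit 217) .nil)))) .nil))) (.nd (nat_lit 6) 
(.lf (nat_lit 248099) (.g (nat_lit 2174) (.e (nat_lit 147492) (nat_lit 11) (.e (nat_lit 24662) (nat_lit 14) (.e (nat_lit 401411) (nat_lit 0) (.e (nat_lit 3454) (nat_lit 216) .nil)))) .nil)) 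
(.lf (nat_lit 248163) (.g (nat_lit 1047) (.e (nat_lit 147493) (nat_lit 11) (.e (nat_lit 24631) (nat_lit 9) (.e (nat_lit 335907) (nat_lit 0) (.e (nat_lit 968) (nat_lit 81) .nil)))) .nil)))) (.nd (nat_lit 5) (.nd (nat_lit 6) 
(.lf (nat_lit 248083) (.g (nat_lit 2733) (.e (nat_lit 147492) (nat_lit 11) (.e (nat_lit 24658) (nat_lit 13) (.e (nat_lit 393301) (nat_lit 27) (.e (nat_lit 491546) (nat_lit 9) (.e (nat_lit 336048) (nat_lit 6) .nil))))) .nil)) 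
(.lf (nat_lit 248147) (.g (nat_lit 3405) (.e (nat_lit 147493) (nat_lit 11) (.e (nat_lit 24607) (nat_lit 3) (.e (nat_lit 98373) (nat_lit 29) (.e (nat_lit 450587) (nat_lit 10) (.e (nat_lit 573456) (nat_lit 9) .nil))))) .nil))) (.nd (nat_lit 6) 
(.lf (nat_lit 248115) (.g (nat_lit 3855) (.e (nat_lit 147492) (nat_lit 11) (.e (nat_lit 24662) (nat_lit 14) (.e (nat_lit 401454) (nat_lit 12) (.e (nat_lit 475215) (nat_lit 43) .nil)))) .nil)) 
(.lf (nat_lit 248179) (.g (nat_lit 2578) (.e (nat_lit 147493) (nat_lit 11) (.e (nat_lit 24655) (nat_lit 13) (.e (nat_lit 393300) (nat_lit 27) (.e (nat_lit 491556) (nat_lit 9) (.e (nat_lit 336051) (nat_lit 6) .nil))))) .nil))))) (.nd (nat_lit 4) (.nd (nat_lit 5) (.nd (nat_lit 6) 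
(.lf (nat_lit 248075) (.g (nat_lit 799) (.e (nat_lit 147492) (nat_lit 11) (.e (nat_lit 24657) (nat_lit 13) (.e (nat_lit 393230) (nat_lit 17) .nil))) .nil)) 
(.lf (nat_lit 248139) (.g (nat_lit 1556) (.e (nat_lit 147492) (nat_lit 11) (.e (nat_lit 24665) (nat_lit 14) (.e (nat_lit 401461) (nat_lit 15) (.e (nat_lit 1905) (nat_lit 129) (.e (nat_lit 598041) (nat_lit 10) .nil))))) .nil))) (.nd (nat_lit 6) 
(.lf (nat_lit 248107) (.g (nat_lit 1364) (.e (nat_lit 147492) (nat_lit 11) (.e (nat_lit 24662) (nat_lit 14) (.e (nat_lit 401420) (nat_lit 1) .nil))) .nil)) 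
(.lf (nat_lit 248171) (.g (nat_lit 1879) (.e (nat_lit 147493) (nat_lit 11) (.e (nat_lit 24655) (nat_lit 13) (.e (nat_lit 393232) (nat_lit 17) (.e (nat_lit 7587) (nat_lit 406) .nil)))) .nil)))) (.nd (nat_lit 5) (.nd (nat_lit 6) 
(.lf (nat_lit 248091) (.g (nat_lit 1364) (.e (nat_lit 147492) (nat_lit 11) (.e (nat_lit 24662) (nat_lit 14) (.e (nat_lit 401408) (nat_lit 0) .nil))) .nil)) 
(.lf (nat_lit 248155) (.g (nat_lit 2680) (.e (nat_lit 147493) (nat_lit 11) (.e (nat_lit 24617) (nat_lit 7) (.e (nat_lit 319534) (nat_lit 16) (.e (nat_lit 286756) (nat_lit 10) (.e (nat_lit 344160) (nat_lit 37) (.e (nat_lit 647190) (nat_lit 9) (.e (nat_lit 1312) (nat_lit 98) .nil))))))) (.g (nat_lit 5) .nil .nil)))) (.nd (nat_lit 6) 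
(.lf (nat_lit 248123) (.g (nat_lit 1429) (.e (nat_lit 147492) (nat_lit 11) (.e (nat_lit 24664) (nat_lit 14) (.e (nat_lit 401414) (nat_lit 0) (.e (nat_lit 2468) (nat_lit 157) .nil)))) .nil)) 
(.lf (nat_lit 248187) (.g (nat_lit 851) (.e (nat_lit 147493) (nat_lit 11) (.e (nat_lit 24657) (nat_lit 13) (.e (nat_lit 393247) (nat_lit 17) .nil))) .nil)))))) (.nd (nat_lit 3) (.nd (nat_lit 4) (.nd (nat_lit 5) (.nd (nat_lit 6) 
(.lf (nat_lit 248071) (.g (nat_lit 753) (.e (nat_lit 147492) (nat_lit 11) (.e (nat_lit 24655) (nat_lit 13) (.e (nat_lit 393300) (nat_lit 27) .nil))) .nil)) 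
(.lf (nat_lit 248135) (.g (nat_lit 718) (.e (nat_lit 147492) (nat_lit 11) (.e (nat_lit 24665) (nat_lit 14) (.e (nat_lit 401421) (nat_lit 1) .nil))) .nil))) (.nd (nat_lit 6) 
(.lf (nat_lit 248103) (.g (nat_lit 1364) (.e (nat_lit 147492) (nat_lit 11) (.e (nat_lit 24662) (nat_lit 14) (.e (nat_lit 401414) (nat_lit 0) .nil))) .nil)) 
(.lf (nat_lit 248167) (.g (nat_lit 1451) (.e (nat_lit 147493) (nat_lit 11) (.e (nat_lit 24638) (nat_lit 9) (.e (nat_lit 335986) (nat_lit 1) (.e (nat_lit 57665) (nat_lit 152) .nil)))) .nil)))) (.nd (nat_lit 5) (.nd (nat_lit 6) 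
(.lf (nat_lit 248087) (.g (nat_lit 1309) (.e (nat_lit 147492) (nat_lit 11) (.e (nat_lit 24660) (nat_lit 13) (.e (nat_lit 393260) (nat_lit 21) (.e (nat_lit 409616) (nat_lit 10) .nil)))) .nil)) 
(.lf (nat_lit 248151) (.g (nat_lit 5068) (.e (nat_lit 147493) (nat_lit 11) (.e (nat_lit 24608) (nat_lit 3) (.e (nat_lit 98373) (nat_lit 29) (.e (nat_lit 450588) (nat_lit 10) (.e (nat_lit 573449) (nat_lit 9) .nil))))) .nil))) (.nd (nat_lit 6) 
(.lf (nat_lit 248119) (.g (nat_lit 2042) (.e (nat_lit 147492) (nat_lit 11) (.e (nat_lit 24662) (nat_lit 14) (.e (nat_lit 401463) (nat_lit 15) (.e (nat_lit 1908) (nat_lit 129) .nil)))) .nil)) 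
(.lf (nat_lit 248183) (.g (nat_lit 852) (.e (nat_lit 147493) (nat_lit 11) (.e (nat_lit 24657) (nat_lit 13) (.e (nat_lit 393235) (nat_lit 17) .nil))) .nil))))) (.nd (nat_lit 4) (.nd (nat_lit 5) (.nd (nat_lit 6) 
(.lf (nat_lit 248079) (.g (nat_lit 449) (.e (nat_lit 147492) (nat_lit 11) (.e (nat_lit 24657) (nat_lit 13) (.e (nat_lit 401152) (nat_lit 17) .nil))) .nil)) 
(.lf (nat_lit 248143) (.g (nat_lit 3506) (.e (nat_lit 147493) (nat_lit 11) (.e (nat_lit 24605) (nat_lit 2) (.e (nat_lit 90170) (nat_lit 13) (.e (nat_lit 172106) (nat_lit 10) (.e (nat_lit 434244) (nat_lit 28) (.e (nat_lit 573449) (nat_lit 9) (.e (nat_lit 1312) (nat_lit 98) .nil))))))) (.g (nat_lit 6) .nil .nil)))) (.nd (nat_lit 6) 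
(.lf (nat_lit 248111) (.g (nat_lit 3441) (.e (nat_lit 147492) (nat_lit 11) (.e (nat_lit 24662) (nat_lit 14) (.e (nat_lit 401454) (nat_lit 12) (.e (nat_lit 475212) (nat_lit 42) .nil)))) .nil)) 
(.lf (nat_lit 248175) (.g (nat_lit 2037) (.e (nat_lit 147493) (nat_lit 11) (.e (nat_lit 24655) (nat_lit 13) (.e (nat_lit 393298) (nat_lit 27) (.e (nat_lit 491546) (nat_lit 9) .nil)))) .nil)))) (.nd (nat_lit 5) (.nd (nat_lit 6) 
(.lf (nat_lit 248095) (.g (nat_lit 3916) (.e (nat_lit 147492) (nat_lit 11) (.e (nat_lit 24662) (nat_lit 14) (.e (nat_lit 401410) (nat_lit 0) (.e (nat_lit 3453) (nat_lit 216) .nil)))) .nil)) 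
(.lf (nat_lit 248159) (.g (nat_lit 618) (.e (nat_lit 147493) (nat_lit 11) (.e (nat_lit 24628) (nat_lit 9) (.e (nat_lit 336000) (nat_lit 1) .nil))) .nil))) (.nd (nat_lit 6) 
(.lf (nat_lit 248127) (.g (nat_lit 610) (.e (nat_lit 147492) (nat_lit 11) (.e (nat_lit 24665) (nat_lit 14) (.e (nat_lit 401414) (nat_lit 0) .nil))) .nil)) 
(.lf (nat_lit 248191) (.g (nat_lit 765) (.e (nat_lit 147493) (nat_lit 11) (.e (nat_lit 24657) (nat_lit 13) (.e (nat_lit 393253) (nat_lit 18) .nil))) .nil)))))))))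

noncomputable def tv3216 : DT := (.nd (nat_lit 0) (.nd (nat_lit 1) (.nd (nat_lit 2) (.nd (nat_lit 3) (.nd (nat_lit 4) (.nd (nat_lit 5) (.nd (nat_lit 6) 
(.lf (nat_lit 248192) (.g (nat_lit 639) (.e (nat_lit 147493) (nat_lit 11) (.e (nat_lit 24657) (nat_lit 13) (.e (nat_lit 393271) (nat_lit 23) .nil))) .nil)) 
(.lf (nat_lit 248256) (.g (nat_lit 3326) (.e (nat_lit 147494) (nat_lit 11) (.e (nat_lit 24602) (nat_lit 2) (.e (nat_lit 90170) (nat_lit 13) (.e (nat_lit 172106) (nat_lit 10) (.e (nat_lit 434244) (nat_lit 28) (.e (nat_lit 573458) (nat_lit 9) (.e (nat_lit 1310) (nat_lit 98) .nil))))))) (.g (nat_lit 6) .nil .nil)))) (.nd (nat_lit 6) 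
(.lf (nat_lit 248224) (.g (nat_lit 2323) (.e (nat_lit 147493) (nat_lit 11) (.e (nat_lit 24665) (nat_lit 14) (.e (nat_lit 401414) (nat_lit 0) (.e (nat_lit 7936) (nat_lit 216) .nil)))) .nil)) 
(.lf (nat_lit 248288) (.g (nat_lit 3366) (.e (nat_lit 147494) (nat_lit 11) (.e (nat_lit 24607) (nat_lit 3) (.e (nat_lit 98372) (nat_lit 29) (.e (nat_lit 450588) (nat_lit 10) (.e (nat_lit 573452) (nat_lit 9) (.e (nat_lit 1310) (nat_lit 98) .nil)))))) (.g (nat_lit 4) .nil .nil))))) (.nd (nat_lit 5) (.nd (nat_lit 6) 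
(.lf (nat_lit 248208) (.g (nat_lit 487) (.e (nat_lit 147493) (nat_lit 11) (.e (nat_lit 24660) (nat_lit 13) (.e (nat_lit 393259) (nat_lit 21) .nil))) .nil)) 
(.lf (nat_lit 248272) (.g (nat_lit 2345) (.e (nat_lit 147494) (nat_lit 11) (.e (nat_lit 24604) (nat_lit 2) (.e (nat_lit 90176) (nat_lit 15) (.e (nat_lit 188420) (nat_lit 0) (.e (nat_lit 1856) (nat_lit 124) (.e (nat_lit 557072) (nat_lit 9) (.e (nat_lit 140) (nat_lit 8) .nil))))))) (.g (nat_lit 5) .nil .nil)))) (.nd (nat_lit 6) 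
(.lf (nat_lit 248240) (.g (nat_lit 1467) (.e (nat_lit 147493) (nat_lit 11) (.e (nat_lit 24665) (nat_lit 14) (.e (nat_lit 401429) (nat_lit 4) .nil))) .nil)) 
(.lf (nat_lit 248304) (.g (nat_lit 2333) (.e (nat_lit 147494) (nat_lit 11) (.e (nat_lit 24608) (nat_lit 3) (.e (nat_lit 98381) (nat_lit 31) (.e (nat_lit 466967) (nat_lit 20) (.e (nat_lit 3305) (nat_lit 202) (.e (nat_lit 573456) (nat_lit 9) (.e (nat_lit 1312) (nat_lit 98) .nil))))))) (.g (nat_lit 5) .nil .nil)))))) (.nd (nat_lit 4) (.nd (nat_lit 5) (.nd (nat_lit 6) 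
(.lf (nat_lit 248200) (.g (nat_lit 810) (.e (nat_lit 147493) (nat_lit 11) (.e (nat_lit 24658) (nat_lit 13) (.e (nat_lit 393300) (nat_lit 27) .nil))) .nil)) 
(.lf (nat_lit 248264) (.g (nat_lit 2307) (.e (nat_lit 147494) (nat_lit 11) (.e (nat_lit 24604) (nat_lit 2) (.e (nat_lit 90170) (nat_lit 13) (.e (nat_lit 172106) (nat_lit 10) (.e (nat_lit 434244) (nat_lit 28) (.e (nat_lit 573449) (nat_lit 9) (.e (nat_lit 1310) (nat_lit 98) .nil))))))) (.g (nat_lit 4) .nil .nil)))) (.nd (nat_lit 6) 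
(.lf (nat_lit 248232) (.g (nat_lit 2354) (.e (nat_lit 147493) (nat_lit 11) (.e (nat_lit 24665) (nat_lit 14) (.e (nat_lit 401420) (nat_lit 1) (.e (nat_lit 164162) (nat_lit 152) (.e (nat_lit 1220) (nat_lit 90) .nil))))) .nil)) 
(.lf (nat_lit 248296) (.g (nat_lit 3110) (.e (nat_lit 147494) (nat_lit 11) (.e (nat_lit 24608) (nat_lit 3) (.e (nat_lit 98372) (nat_lit 29) (.e (nat_lit 450586) (nat_lit 10) (.e (nat_lit 573449) (nat_lit 9) .nil))))) .nil)))) (.nd (nat_lit 5) (.nd (nat_lit 6) 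
(.lf (nat_lit 248216) (.g (nat_lit 860) (.e (nat_lit 147493) (nat_lit 11) (.e (nat_lit 24665) (nat_lit 14) (.e (nat_lit 401414) (nat_lit 0) .nil))) .nil)) 
(.lf (nat_lit 248280) (.g (nat_lit 2976) (.e (nat_lit 147494) (nat_lit 11) (.e (nat_lit 24605) (nat_lit 2) (.e (nat_lit 90170) (nat_lit 13) (.e (nat_lit 172113) (nat_lit 10) (.e (nat_lit 434248) (nat_lit 28) (.e (nat_lit 573452) (nat_lit 9) (.e (nat_lit 1310) (nat_lit 98) .nil))))))) (.g (nat_lit 5) .nil .nil)))) (.nd (nat_lit 6) 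
(.lf (nat_lit 248248) (.g (nat_lit 527) (.e (nat_lit 147494) (nat_lit 11) (.e (nat_lit 24580) (nat_lit 0) (.e (nat_lit 2354) (nat_lit 151) .nil))) .nil)) 
(.lf (nat_lit 248312) (.g (nat_lit 1666) (.e (nat_lit 147494) (nat_lit 11) (.e (nat_lit 24617) (nat_lit 7) (.e (nat_lit 319533) (nat_lit 16) (.e (nat_lit 286754) (nat_lit 10) .nil)))) .nil)))))) (.nd (nat_lit 3) (.nd (nat_lit 4) (.nd (nat_lit 5) (.nd (nat_lit 6) 
(.lf (nat_lit 248196) (.g (nat_lit 1898) (.e (nat_lit 147493) (nat_lit 11) (.e (nat_lit 24657) (nat_lit 13) (.e (nat_lit 393298) (nat_lit 27) (.e (nat_lit 491556) (nat_lit 9) .nil)))) .nil)) 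
(.lf (nat_lit 248260) (.g (nat_lit 3421) (.e (nat_lit 147494) (nat_lit 11) (.e (nat_lit 24603) (nat_lit 2) (.e (nat_lit 90178) (nat_lit 15) (.e (nat_lit 188440) (nat_lit 20) (.e (nat_lit 3307) (nat_lit 202) (.e (nat_lit 573456) (nat_lit 9) (.e (nat_lit 1312) (nat_lit 98) .nil))))))) (.g (nat_lit 6) .nil .nil)))) (.nd (nat_lit 6) 
(.lf (nat_lit 248228) (.g (nat_lit 1077) (.e (nat_lit 147493) (nat_lit 11) (.e (nat_lit 24665) (nat_lit 14) (.e (nat_lit 401418) (nat_lit 0) .nil))) .nil)) 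
(.lf (nat_lit 248292) (.g (nat_lit 826) (.e (nat_lit 147494) (nat_lit 11) (.e (nat_lit 24607) (nat_lit 3) (.e (nat_lit 98374) (nat_lit 29) .nil))) .nil)))) (.nd (nat_lit 5) (.nd (nat_lit 6) 
(.lf (nat_lit 248212) (.g (nat_lit 2049) (.e (nat_lit 147493) (nat_lit 11) (.e (nat_lit 24665) (nat_lit 14) (.e (nat_lit 401408) (nat_lit 0) (.e (nat_lit 3461) (nat_lit 216) .nil)))) .nil)) 
(.lf (nat_lit 248276) (.g (nat_lit 3697) (.e (nat_lit 147494) (nat_lit 11) (.e (nat_lit 24604) (nat_lit 2) (.e (nat_lit 90178) (nat_lit 15) (.e (nat_lit 188440) (nat_lit 20) (.e (nat_lit 3307) (nat_lit 202) (.e (nat_lit 573449) (nat_lit 9) (.e (nat_lit 1312) (nat_lit 98) .nil))))))) (.g (nat_lit 5) .nil .nil)))) (.nd (nat_lit 6) 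
(.lf (nat_lit 248244) (.g (nat_lit 1308) (.e (nat_lit 147493) (nat_lit 11) (.e (nat_lit 24665) (nat_lit 14) (.e (nat_lit 409344) (nat_lit 25) .nil))) .nil)) 
(.lf (nat_lit 248308) (.g (nat_lit 5019) (.e (nat_lit 147494) (nat_lit 11) (.e (nat_lit 24609) (nat_lit 3) (.e (nat_lit 98373) (nat_lit 29) (.e (nat_lit 450588) (nat_lit 10) (.e (nat_lit 573452) (nat_lit 9) (.e (nat_lit 1310) (nat_lit 98) .nil)))))) (.g (nat_lit 5) .nil .nil)))))) (.nd (nat_lit 4) (.nd (nat_lit 5) (.nd (nat_lit 6) 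
(.lf (nat_lit 248204) (.g (nat_lit 2223) (.e (nat_lit 147493) (nat_lit 11) (.e (nat_lit 24659) (nat_lit 13) (.e (nat_lit 393301) (nat_lit 27) (.e (nat_lit 491546) (nat_lit 9) (.e (nat_lit 336048) (nat_lit 6) .nil))))) .nil)) 
(.lf (nat_lit 248268) (.g (nat_lit 3858) (.e (nat_lit 147494) (nat_lit 11) (.e (nat_lit 24604) (nat_lit 2) (.e (nat_lit 90170) (nat_lit 13) (.e (nat_lit 172113) (nat_lit 10) .nil)))) .nil))) (.nd (nat_lit 6) 
(.lf (nat_lit 248236) (.g (nat_lit 2041) (.e (nat_lit 147493) (nat_lit 11) (.e (nat_lit 24665) (nat_lit 14) (.e (nat_lit 401421) (nat_lit 1) (.e (nat_lit 164149) (nat_lit 152) .nil)))) .nil)) 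
(.lf (nat_lit 248300) (.g (nat_lit 2477) (.e (nat_lit 147494) (nat_lit 11) (.e (nat_lit 24608) (nat_lit 3) (.e (nat_lit 98373) (nat_lit 29) (.e (nat_lit 450586) (nat_lit 10) .nil)))) .nil)))) (.nd (nat_lit 5) (.nd (nat_lit 6) 
(.lf (nat_lit 248220) (.g (nat_lit 2607) (.e (nat_lit 147493) (nat_lit 11) (.e (nat_lit 24665) (nat_lit 14) (.e (nat_lit 401414) (nat_lit 0) (.e (nat_lit 2468) (nat_lit 157) .nil)))) .nil)) 
(.lf (nat_lit 248284) (.g (nat_lit 2080) (.e (nat_lit 147494) (nat_lit 11) (.e (nat_lit 24607) (nat_lit 3) (.e (nat_lit 98359) (nat_lit 26) (.e (nat_lit 426286) (nat_lit 10) (.e (nat_lit 434248) (nat_lit 28) .nil))))) .nil))) (.nd (nat_lit 6) 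
(.lf (nat_lit 248252) (.g (nat_lit 4156) (.e (nat_lit 147494) (nat_lit 11) (.e (nat_lit 24580) (nat_lit 0) (.e (nat_lit 6508) (nat_lit 345) (.e (nat_lit 16473) (nat_lit 14) (.e (nat_lit 491546) (nat_lit 9) (.e (nat_lit 336048) (nat_lit 6) .nil)))))) (.g (nat_lit 6) .nil .nil))) 
(.lf (nat_lit 248316) (.g (nat_lit 726) (.e (nat_lit 147494) (nat_lit 11) (.e (nat_lit 24625) (nat_lit 9) (.e (nat_lit 336439) (nat_lit 31) .nil))) .nil))))))) (.nd (nat_lit 2) (.nd (nat_lit 3) (.nd (nat_lit 4) (.nd (nat_lit 5) (.nd (nat_lit 6) 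
(.lf (nat_lit 248194) (.g (nat_lit 1603) (.e (nat_lit 147493) (nat_lit 11) (.e (nat_lit 24657) (nat_lit 13) (.e (nat_lit 393297) (nat_lit 27) (.e (nat_lit 491556) (nat_lit 9) (.e (nat_lit 336051) (nat_lit 6) .nil))))) .nil)) 
(.lf (nat_lit 248258) (.g (nat_lit 2588) (.e (nat_lit 147494) (nat_lit 11) (.e (nat_lit 24603) (nat_lit 2) (.e (nat_lit 90167) (nat_lit 13) (.e (nat_lit 172126) (nat_lit 14) (.e (nat_lit 491540) (nat_lit 3) (.e (nat_lit 106240) (nat_lit 5) .nil)))))) (.g (nat_lit 5) .nil .nil)))) (.nd (nat_lit 6) 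
(.lf (nat_lit 248226) (.g (nat_lit 2392) (.e (nat_lit 147493) (nat_lit 11) (.e (nat_lit 24665) (nat_lit 14) (.e (nat_lit 401414) (nat_lit 0) (.e (nat_lit 3468) (nat_lit 217) .nil)))) .nil)) 
(.lf (nat_lit 248290) (.g (nat_lit 3751) (.e (nat_lit 147494) (nat_lit 11) (.e (nat_lit 24607) (nat_lit 3) (.e (nat_lit 98373) (nat_lit 29) (.e (nat_lit 450588) (nat_lit 10) (.e (nat_lit 573449) (nat_lit 9) (.e (nat_lit 1312) (nat_lit 98) .nil)))))) (.g (nat_lit 4) .nil .nil))))) (.nd (nat_lit 5) (.nd (nat_lit 6) 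
(.lf (nat_lit 248210) (.g (nat_lit 508) (.e (nat_lit 147493) (nat_lit 11) (.e (nat_lit 24660) (nat_lit 13) (.e (nat_lit 393298) (nat_lit 27) .nil))) .nil)) 
(.lf (nat_lit 248274) (.g (nat_lit 1792) (.e (nat_lit 147494) (nat_lit 11) (.e (nat_lit 24604) (nat_lit 2) (.e (nat_lit 90178) (nat_lit 15) (.e (nat_lit 188440) (nat_lit 20) .nil)))) .nil))) (.nd (nat_lit 6) 
(.lf (nat_lit 248242) (.g (nat_lit 1440) (.e (nat_lit 147493) (nat_lit 11) (.e (nat_lit 24665) (nat_lit 14) (.e (nat_lit 401461) (nat_lit 15) .nil))) .nil)) 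
(.lf (nat_lit 248306) (.g (nat_lit 2526) (.e (nat_lit 147494) (nat_lit 11) (.e (nat_lit 24609) (nat_lit 3) (.e (nat_lit 98373) (nat_lit 29) (.e (nat_lit 450587) (nat_lit 10) (.e (nat_lit 573454) (nat_lit 9) .nil))))) .nil))))) (.nd (nat_lit 4) (.nd (nat_lit 5) (.nd (nat_lit 6) 
(.lf (nat_lit 248202) (.g (nat_lit 2616) (.e (nat_lit 147493) (nat_lit 11) (.e (nat_lit 24658) (nat_lit 13) (.e (nat_lit 393301) (nat_lit 27) (.e (nat_lit 491552) (nat_lit 9) .nil)))) .nil)) 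
(.lf (nat_lit 248266) (.g (nat_lit 2654) (.e (nat_lit 147494) (nat_lit 11) (.e (nat_lit 24604) (nat_lit 2) (.e (nat_lit 90170) (nat_lit 13) (.e (nat_lit 172106) (nat_lit 10) (.e (nat_lit 434244) (nat_lit 28) (.e (nat_lit 573451) (nat_lit 9) (.e (nat_lit 1314) (nat_lit 98) .nil))))))) (.g (nat_lit 4) .nil .nil)))) (.nd (nat_lit 6) 
(.lf (nat_lit 248234) (.g (nat_lit 2843) (.e (nat_lit 147493) (nat_lit 11) (.e (nat_lit 24665) (nat_lit 14) (.e (nat_lit 401420) (nat_lit 1) (.e (nat_lit 164179) (nat_lit 154) (.e (nat_lit 57424) (nat_lit 14) .nil))))) .nil)) 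
(.lf (nat_lit 248298) (.g (nat_lit 4642) (.e (nat_lit 147494) (nat_lit 11) (.e (nat_lit 24608) (nat_lit 3) (.e (nat_lit 98372) (nat_lit 29) (.e (nat_lit 450588) (nat_lit 10) (.e (nat_lit 573452) (nat_lit 9) .nil))))) .nil)))) (.nd (nat_lit 5) (.nd (nat_lit 6) 
(.lf (nat_lit 248218) (.g (nat_lit 2450) (.e (nat_lit 147493) (nat_lit 11) (.e (nat_lit 24665) (nat_lit 14) (.e (nat_lit 401414) (nat_lit 0) (.e (nat_lit 2458) (nat_lit 157) .nil)))) .nil)) 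
(.lf (nat_lit 248282) (.g (nat_lit 2050) (.e (nat_lit 147494) (nat_lit 11) (.e (nat_lit 24607) (nat_lit 3) (.e (nat_lit 98359) (nat_lit 26) (.e (nat_lit 426286) (nat_lit 10) (.e (nat_lit 434245) (nat_lit 28) .nil))))) .nil))) (.nd (nat_lit 6) 
(.lf (nat_lit 248250) (.g (nat_lit 1489) (.e (nat_lit 147494) (nat_lit 11) (.e (nat_lit 24580) (nat_lit 0) (.e (nat_lit 6203) (nat_lit 332) (.e (nat_lit 2578) (nat_lit 161) (.e (nat_lit 40987) (nat_lit 9) .nil))))) .nil)) 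
(.lf (nat_lit 248314) (.g (nat_lit 2994) (.e (nat_lit 147494) (nat_lit 11) (.e (nat_lit 24617) (nat_lit 7) (.e (nat_lit 319534) (nat_lit 16) (.e (nat_lit 286756) (nat_lit 10) (.e (nat_lit 344160) (nat_lit 37) (.e (nat_lit 647190) (nat_lit 9) (.e (nat_lit 7936) (nat_lit 98) .nil))))))) (.g (nat_lit 6) .nil .nil))))))) (.nd (nat_lit 3) (.nd (nat_lit 4) (.nd (nat_lit 5) (.nd (nat_lit 6) 
(.lf (nat_lit 248198) (.g (nat_lit 2188) (.e (nat_lit 147493) (nat_lit 11) (.e (nat_lit 24657) (nat_lit 13) (.e (nat_lit 393299) (nat_lit 27) (.e (nat_lit 491556) (nat_lit 9) (.e (nat_lit 336051) (nat_lit 6) .nil))))) .nil)) 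
(.lf (nat_lit 248262) (.g (nat_lit 1393) (.e (nat_lit 147494) (nat_lit 11) (.e (nat_lit 24604) (nat_lit 2) (.e (nat_lit 90170) (nat_lit 13) (.e (nat_lit 172106) (nat_lit 10) .nil)))) .nil))) (.nd (nat_lit 6) 
(.lf (nat_lit 248230) (.g (nat_lit 1288) (.e (nat_lit 147493) (nat_lit 11) (.e (nat_lit 24665) (nat_lit 14) (.e (nat_lit 401420) (nat_lit 1) .nil))) .nil)) 
(.lf (nat_lit 248294) (.g (nat_lit 1552) (.e (nat_lit 147494) (nat_lit 11) (.e (nat_lit 24607) (nat_lit 3) (.e (nat_lit 106240) (nat_lit 29) (.e (nat_lit 450586) (nat_lit 10) (.e (nat_lit 573456) (nat_lit 9) (.e (nat_lit 1312) (nat_lit 98) .nil)))))) (.g (nat_lit 4) .nil .nil))))) (.nd (nat_lit 5) (.nd (nat_lit 6) 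
(.lf (nat_lit 248214) (.g (nat_lit 2462) (.e (nat_lit 147493) (nat_lit 11) (.e (nat_lit 24665) (nat_lit 14) (.e (nat_lit 401413) (nat_lit 0) (.e (nat_lit 3459) (nat_lit 216) (.e (nat_lit 688183) (nat_lit 18) .nil))))) .nil)) 
(.lf (nat_lit 248278) (.g (nat_lit 4242) (.e (nat_lit 147494) (nat_lit 11) (.e (nat_lit 24605) (nat_lit 2) (.e (nat_lit 90170) (nat_lit 13) (.e (nat_lit 172106) (nat_lit 10) (.e (nat_lit 434244) (nat_lit 28) (.e (nat_lit 573449) (nat_lit 9) (.e (nat_lit 1312) (nat_lit 98) .nil))))))) (.g (nat_lit 7) .nil .nil)))) (.nd (nat_lit 6) 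
(.lf (nat_lit 248246) (.g (nat_lit 1359) (.e (nat_lit 147493) (nat_lit 11) (.e (nat_lit 24665) (nat_lit 14) (.e (nat_lit 401472) (nat_lit 28) .nil))) .nil)) 
(.lf (nat_lit 248310) (.g (nat_lit 1367) (.e (nat_lit 147494) (nat_lit 11) (.e (nat_lit 24617) (nat_lit 7) (.e (nat_lit 319533) (nat_lit 16) (.e (nat_lit 286753) (nat_lit 10) .nil)))) .nil))))) (.nd (nat_lit 4) (.nd (nat_lit 5) (.nd (nat_lit 6) 
(.lf (nat_lit 248206) (.g (nat_lit 521) (.e (nat_lit 147493) (nat_lit 11) (.e (nat_lit 24660) (nat_lit 13) (.e (nat_lit 393235) (nat_lit 17) .nil))) .nil)) 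
(.lf (nat_lit 248270) (.g (nat_lit 1645) (.e (nat_lit 147494) (nat_lit 11) (.e (nat_lit 24604) (nat_lit 2) (.e (nat_lit 90172) (nat_lit 14) (.e (nat_lit 180285) (nat_lit 45) .nil)))) .nil))) (.nd (nat_lit 6) 
(.lf (nat_lit 248238) (.g (nat_lit 2590) (.e (nat_lit 147493) (nat_lit 11) (.e (nat_lit 24665) (nat_lit 14) (.e (nat_lit 401421) (nat_lit 1) (.e (nat_lit 164162) (nat_lit 152) (.e (nat_lit 1220) (nat_lit 90) .nil))))) .nil)) 
(.lf (nat_lit 248302) (.g (nat_lit 4872) (.e (nat_lit 147494) (nat_lit 11) (.e (nat_lit 24608) (nat_lit 3) (.e (nat_lit 98373) (nat_lit 29) (.e (nat_lit 450588) (nat_lit 10) (.e (nat_lit 573449) (nat_lit 9) .nil))))) .nil)))) (.nd (nat_lit 5) (.nd (nat_lit 6) 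
(.lf (nat_lit 248222) (.g (nat_lit 2322) (.e (nat_lit 147493) (nat_lit 11) (.e (nat_lit 24665) (nat_lit 14) (.e (nat_lit 401414) (nat_lit 0) (.e (nat_lit 3459) (nat_lit 216) .nil)))) .nil)) 
(.lf (nat_lit 248286) (.g (nat_lit 2259) (.e (nat_lit 147494) (nat_lit 11) (.e (nat_lit 24607) (nat_lit 3) (.e (nat_lit 98372) (nat_lit 29) (.e (nat_lit 450586) (nat_lit 10) (.e (nat_lit 573452) (nat_lit 9) .nil))))) .nil))) (.nd (nat_lit 6) 
(.lf (nat_lit 248254) (.g (nat_lit 3911) (.e (nat_lit 147494) (nat_lit 11) (.e (nat_lit 24602) (nat_lit 2) (.e (nat_lit 90170) (nat_lit 13) (.e (nat_lit 172106) (nat_lit 10) (.e (nat_lit 434244) (nat_lit 28) (.e (nat_lit 573449) (nat_lit 9) (.e (nat_lit 1312) (nat_lit 98) .nil))))))) (.g (nat_lit 6) .nil .nil))) 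
(.lf (nat_lit 248318) (.g (nat_lit 627) (.e (nat_lit 147494) (nat_lit 11) (.e (nat_lit 24627) (nat_lit 9) (.e (nat_lit 336436) (nat_lit 31) (.e (nat_lit 466688) (nat_lit 4) .nil)))) .nil)))))))) (.nd (nat_lit 1) (.nd (nat_lit 2) (.nd (nat_lit 3) (.nd (nat_lit 4) (.nd (nat_lit 5) (.nd (nat_lit 6) 
(.lf (nat_lit 248193) (.g (nat_lit 1120) (.e (nat_lit 147493) (nat_lit 11) (.e (nat_lit 24657) (nat_lit 13) (.e (nat_lit 393297) (nat_lit 27) (.e (nat_lit 491546) (nat_lit 9) .nil)))) .nil)) 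
(.lf (nat_lit 248257) (.g (nat_lit 2048) (.e (nat_lit 147494) (nat_lit 11) (.e (nat_lit 24602) (nat_lit 2) (.e (nat_lit 90170) (nat_lit 13) (.e (nat_lit 172113) (nat_lit 10) (.e (nat_lit 434248) (nat_lit 28) .nil))))) .nil))) (.nd (nat_lit 6) 
(.lf (nat_lit 248225) (.g (nat_lit 2617) (.e (nat_lit 147493) (nat_lit 11) (.e (nat_lit 24665) (nat_lit 14) (.e (nat_lit 401414) (nat_lit 0) (.e (nat_lit 3467) (nat_lit 217) .nil)))) .nil)) 
(.lf (nat_lit 248289) (.g (nat_lit 4211) (.e (nat_lit 147494) (nat_lit 11) (.e (nat_lit 24607) (nat_lit 3) (.e (nat_lit 98373) (nat_lit 29) (.e (nat_lit 450587) (nat_lit 10) (.e (nat_lit 573456) (nat_lit 9) (.e (nat_lit 1312) (nat_lit 98) .nil)))))) (.g (nat_lit 5) .nil .nil))))) (.nd (nat_lit 5) (.nd (nat_lit 6) 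
(.lf (nat_lit 248209) (.g (nat_lit 1803) (.e (nat_lit 147493) (nat_lit 11) (.e (nat_lit 24660) (nat_lit 13) (.e (nat_lit 393260) (nat_lit 21) (.e (nat_lit 409640) (nat_lit 17) (.e (nat_lit 294934) (nat_lit 6) .nil))))) (.g (nat_lit 4) .nil .nil))) 
(.lf (nat_lit 248273) (.g (nat_lit 2046) (.e (nat_lit 147494) (nat_lit 11) (.e (nat_lit 24604) (nat_lit 2) (.e (nat_lit 90176) (nat_lit 15) (.e (nat_lit 188439) (nat_lit 20) (.e (nat_lit 3272) (nat_lit 199) (.e (nat_lit 548896) (nat_lit 14) (.e (nat_lit 140) (nat_lit 8) .nil))))))) (.g (nat_lit 5) .nil .nil)))) (.nd (nat_lit 6) 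
(.lf (nat_lit 248241) (.g (nat_lit 3589) (.e (nat_lit 147493) (nat_lit 11) (.e (nat_lit 24665) (nat_lit 14) (.e (nat_lit 401451) (nat_lit 12) (.e (nat_lit 475214) (nat_lit 42) .nil)))) .nil)) 
(.lf (nat_lit 248305) (.g (nat_lit 2317) (.e (nat_lit 147494) (nat_lit 11) (.e (nat_lit 24609) (nat_lit 3) (.e (nat_lit 98372) (nat_lit 29) (.e (nat_lit 450586) (nat_lit 10) (.e (nat_lit 573456) (nat_lit 9) (.e (nat_lit 1312) (nat_lit 98) .nil)))))) (.g (nat_lit 5) .nil .nil)))))) (.nd (nat_lit 4) (.nd (nat_lit 5) (.nd (nat_lit 6) 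
(.lf (nat_lit 248201) (.g (nat_lit 3236) (.e (nat_lit 147493) (nat_lit 11) (.e (nat_lit 24658) (nat_lit 13) (.e (nat_lit 393301) (nat_lit 27) (.e (nat_lit 491546) (nat_lit 9) (.e (nat_lit 336048) (nat_lit 6) .nil))))) .nil)) 
(.lf (nat_lit 248265) (.g (nat_lit 2150) (.e (nat_lit 147494) (nat_lit 11) (.e (nat_lit 24604) (nat_lit 2) (.e (nat_lit 90170) (nat_lit 13) (.e (nat_lit 172106) (nat_lit 10) (.e (nat_lit 434244) (nat_lit 28) (.e (nat_lit 573450) (nat_lit 9) (.e (nat_lit 1309) (nat_lit 98) .nil))))))) (.g (nat_lit 4) .nil .nil)))) (.nd (nat_lit 6) 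
(.lf (nat_lit 248233) (.g (nat_lit 1867) (.e (nat_lit 147493) (nat_lit 11) (.e (nat_lit 24665) (nat_lit 14) (.e (nat_lit 401420) (nat_lit 1) (.e (nat_lit 164164) (nat_lit 152) .nil)))) .nil)) 
(.lf (nat_lit 248297) (.g (nat_lit 4912) (.e (nat_lit 147494) (nat_lit 11) (.e (nat_lit 24608) (nat_lit 3) (.e (nat_lit 98372) (nat_lit 29) (.e (nat_lit 450588) (nat_lit 10) (.e (nat_lit 573449) (nat_lit 9) .nil))))) .nil)))) (.nd (nat_lit 5) (.nd (nat_lit 6) 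
(.lf (nat_lit 248217) (.g (nat_lit 2550) (.e (nat_lit 147493) (nat_lit 11) (.e (nat_lit 24665) (nat_lit 14) (.e (nat_lit 401414) (nat_lit 0) (.e (nat_lit 2438) (nat_lit 157) .nil)))) .nil)) 
(.lf (nat_lit 248281) (.g (nat_lit 2506) (.e (nat_lit 147494) (nat_lit 11) (.e (nat_lit 24605) (nat_lit 2) (.e (nat_lit 90178) (nat_lit 15) (.e (nat_lit 188440) (nat_lit 20) (.e (nat_lit 3307) (nat_lit 202) (.e (nat_lit 573456) (nat_lit 9) (.e (nat_lit 1312) (nat_lit 98) .nil))))))) (.g (nat_lit 6) .nil .nil)))) (.nd (nat_lit 6) 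
(.lf (nat_lit 248249) (.g (nat_lit 1238) (.e (nat_lit 147494) (nat_lit 11) (.e (nat_lit 24580) (nat_lit 0) (.e (nat_lit 6203) (nat_lit 332) (.e (nat_lit 2423) (nat_lit 157) .nil)))) .nil)) 
(.lf (nat_lit 248313) (.g (nat_lit 3246) (.e (nat_lit 147494) (nat_lit 11) (.e (nat_lit 24617) (nat_lit 7) (.e (nat_lit 319534) (nat_lit 16) (.e (nat_lit 286756) (nat_lit 10) (.e (nat_lit 344160) (nat_lit 37) (.e (nat_lit 647190) (nat_lit 9) (.e (nat_lit 1310) (nat_lit 98) .nil))))))) (.g (nat_lit 6) .nil .nil))))))) (.nd (nat_lit 3) (.nd (nat_lit 4) (.nd (nat_lit 5) (.nd (nat_lit 6) 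
(.lf (nat_lit 248197) (.g (nat_lit 2059) (.e (nat_lit 147493) (nat_lit 11) (.e (nat_lit 24657) (nat_lit 13) (.e (nat_lit 393299) (nat_lit 27) (.e (nat_lit 491546) (nat_lit 9) (.e (nat_lit 336048) (nat_lit 6) .nil))))) .nil)) 
(.lf (nat_lit 248261) (.g (nat_lit 2039) (.e (nat_lit 147494) (nat_lit 11) (.e (nat_lit 24604) (nat_lit 2) (.e (nat_lit 90167) (nat_lit 13) (.e (nat_lit 172126) (nat_lit 14) (.e (nat_lit 491540) (nat_lit 3) .nil))))) .nil))) (.nd (nat_lit 6) 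
(.lf (nat_lit 248229) (.g (nat_lit 1900) (.e (nat_lit 147493) (nat_lit 11) (.e (nat_lit 24665) (nat_lit 14) (.e (nat_lit 401418) (nat_lit 0) (.e (nat_lit 3452) (nat_lit 216) .nil)))) .nil)) 
(.lf (nat_lit 248293) (.g (nat_lit 2026) (.e (nat_lit 147494) (nat_lit 11) (.e (nat_lit 24607) (nat_lit 3) (.e (nat_lit 98374) (nat_lit 29) (.e (nat_lit 450586) (nat_lit 10) (.e (nat_lit 573456) (nat_lit 9) .nil))))) .nil)))) (.nd (nat_lit 5) (.nd (nat_lit 6) 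
(.lf (nat_lit 248213) (.g (nat_lit 1090) (.e (nat_lit 147493) (nat_lit 11) (.e (nat_lit 24665) (nat_lit 14) (.e (nat_lit 401413) (nat_lit 0) .nil))) .nil)) 
(.lf (nat_lit 248277) (.g (nat_lit 1879) (.e (nat_lit 147494) (nat_lit 11) (.e (nat_lit 24604) (nat_lit 2) (.e (nat_lit 90178) (nat_lit 15) (.e (nat_lit 188441) (nat_lit 20) .nil)))) .nil))) (.nd (nat_lit 6) 
(.lf (nat_lit 248245) (.g (nat_lit 1870) (.e (nat_lit 147493) (nat_lit 11) (.e (nat_lit 24665) (nat_lit 14) (.e (nat_lit 409344) (nat_lit 25) (.e (nat_lit 319531) (nat_lit 16) (.e (nat_lit 286749) (nat_lit 9) .nil))))) .nil)) 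
(.lf (nat_lit 248309) (.g (nat_lit 1877) (.e (nat_lit 147494) (nat_lit 11) (.e (nat_lit 24617) (nat_lit 7) (.e (nat_lit 319505) (nat_lit 10) (.e (nat_lit 720) (nat_lit 64) .nil)))) .nil))))) (.nd (nat_lit 4) (.nd (nat_lit 5) (.nd (nat_lit 6) 
(.lf (nat_lit 248205) (.g (nat_lit 1288) (.e (nat_lit 147493) (nat_lit 11) (.e (nat_lit 24660) (nat_lit 13) (.e (nat_lit 393232) (nat_lit 17) (.e (nat_lit 7587) (nat_lit 406) .nil)))) .nil)) 
(.lf (nat_lit 248269) (.g (nat_lit 1799) (.e (nat_lit 147494) (nat_lit 11) (.e (nat_lit 24604) (nat_lit 2) (.e (nat_lit 90172) (nat_lit 14) (.e (nat_lit 180278) (nat_lit 32) .nil)))) .nil))) (.nd (nat_lit 6) 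
(.lf (nat_lit 248237) (.g (nat_lit 2041) (.e (nat_lit 147493) (nat_lit 11) (.e (nat_lit 24665) (nat_lit 14) (.e (nat_lit 401421) (nat_lit 1) (.e (nat_lit 164161) (nat_lit 152) .nil)))) .nil)) 
(.lf (nat_lit 248301) (.g (nat_lit 3166) (.e (nat_lit 147494) (nat_lit 11) (.e (nat_lit 24608) (nat_lit 3) (.e (nat_lit 98373) (nat_lit 29) (.e (nat_lit 450587) (nat_lit 10) (.e (nat_lit 573454) (nat_lit 9) .nil))))) .nil)))) (.nd (nat_lit 5) (.nd (nat_lit 6) 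
(.lf (nat_lit 248221) (.g (nat_lit 2607) (.e (nat_lit 147493) (nat_lit 11) (.e (nat_lit 24665) (nat_lit 14) (.e (nat_lit 401414) (nat_lit 0) (.e (nat_lit 2477) (nat_lit 157) .nil)))) .nil)) 
(.lf (nat_lit 248285) (.g (nat_lit 2429) (.e (nat_lit 147494) (nat_lit 11) (.e (nat_lit 24607) (nat_lit 3) (.e (nat_lit 98372) (nat_lit 29) (.e (nat_lit 450586) (nat_lit 10) (.e (nat_lit 573449) (nat_lit 9) .nil))))) .nil))) (.nd (nat_lit 6) 
(.lf (nat_lit 248253) (.g (nat_lit 1742) (.e (nat_lit 147494) (nat_lit 11) (.e (nat_lit 24601) (nat_lit 2) (.e (nat_lit 90170) (nat_lit 13) (.e (nat_lit 172106) (nat_lit 10) (.e (nat_lit 434244) (nat_lit 28) (.e (nat_lit 573458) (nat_lit 9) (.e (nat_lit 1310) (nat_lit 98) .nil))))))) (.g (nat_lit 4) .nil .nil))) 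
(.lf (nat_lit 248317) (.g (nat_lit 633) (.e (nat_lit 147494) (nat_lit 11) (.e (nat_lit 24627) (nat_lit 9) (.e (nat_lit 336432) (nat_lit 30) .nil))) .nil))))))) (.nd (nat_lit 2) (.nd (nat_lit 3) (.nd (nat_lit 4) (.nd (nat_lit 5) (.nd (nat_lit 6) 
(.lf (nat_lit 248195) (.g (nat_lit 2508) (.e (nat_lit 147493) (nat_lit 11) (.e (nat_lit 24657) (nat_lit 13) (.e (nat_lit 393298) (nat_lit 27) (.e (nat_lit 491546) (nat_lit 9) (.e (nat_lit 336048) (nat_lit 6) .nil))))) .nil)) 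
(.lf (nat_lit 248259) (.g (nat_lit 1216) (.e (nat_lit 147494) (nat_lit 11) (.e (nat_lit 24603) (nat_lit 2) (.e (nat_lit 90176) (nat_lit 15) (.e (nat_lit 188439) (nat_lit 20) (.e (nat_lit 3296) (nat_lit 202) (.e (nat_lit 573456) (nat_lit 9) (.e (nat_lit 1312) (nat_lit 98) .nil))))))) (.g (nat_lit 4) .nil .nil)))) (.nd (nat_lit 6) 
(.lf (nat_lit 248227) (.g (nat_lit 2537) (.e (nat_lit 147493) (nat_lit 11) (.e (nat_lit 24665) (nat_lit 14) (.e (nat_lit 401414) (nat_lit 0) (.e (nat_lit 3469) (nat_lit 217) .nil)))) .nil)) 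
(.lf (nat_lit 248291) (.g (nat_lit 4632) (.e (nat_lit 147494) (nat_lit 11) (.e (nat_lit 24607) (nat_lit 3) (.e (nat_lit 98373) (nat_lit 29) (.e (nat_lit 450588) (nat_lit 10) (.e (nat_lit 573452) (nat_lit 9) (.e (nat_lit 1310) (nat_lit 98) .nil)))))) (.g (nat_lit 4) .nil .nil))))) (.nd (nat_lit 5) (.nd (nat_lit 6) 
(.lf (nat_lit 248211) (.g (nat_lit 425) (.e (nat_lit 147493) (nat_lit 11) (.e (nat_lit 24660) (nat_lit 13) (.e (nat_lit 393299) (nat_lit 27) .nil))) .nil)) 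
(.lf (nat_lit 248275) (.g (nat_lit 2628) (.e (nat_lit 147494) (nat_lit 11) (.e (nat_lit 24604) (nat_lit 2) (.e (nat_lit 90178) (nat_lit 15) (.e (nat_lit 188440) (nat_lit 20) (.e (nat_lit 3307) (nat_lit 202) .nil))))) .nil))) (.nd (nat_lit 6) 
(.lf (nat_lit 248243) (.g (nat_lit 1308) (.e (nat_lit 147493) (nat_lit 11) (.e (nat_lit 24665) (nat_lit 14) (.e (nat_lit 409344) (nat_lit 21) .nil))) .nil)) 
(.lf (nat_lit 248307) (.g (nat_lit 4299) (.e (nat_lit 147494) (nat_lit 11) (.e (nat_lit 24609) (nat_lit 3) (.e (nat_lit 98373) (nat_lit 29) (.e (nat_lit 450588) (nat_lit 10) (.e (nat_lit 573449) (nat_lit 9) (.e (nat_lit 1312) (nat_lit 98) .nil)))))) (.g (nat_lit 4) .nil .nil)))))) (.nd (nat_lit 4) (.nd (nat_lit 5) (.nd (nat_lit 6) 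
(.lf (nat_lit 248203) (.g (nat_lit 2822) (.e (nat_lit 147493) (nat_lit 11) (.e (nat_lit 24658) (nat_lit 13) (.e (nat_lit 393301) (nat_lit 27) (.e (nat_lit 491556) (nat_lit 9) .nil)))) .nil)) 
(.lf (nat_lit 248267) (.g (nat_lit 2583) (.e (nat_lit 147494) (nat_lit 11) (.e (nat_lit 24604) (nat_lit 2) (.e (nat_lit 90170) (nat_lit 13) (.e (nat_lit 172106) (nat_lit 10) (.e (nat_lit 434244) (nat_lit 28) (.e (nat_lit 573451) (nat_lit 9) (.e (nat_lit 7936) (nat_lit 98) .nil))))))) (.g (nat_lit 5) .nil .nil)))) (.nd (nat_lit 6) 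
(.lf (nat_lit 248235) (.g (nat_lit 1451) (.e (nat_lit 147493) (nat_lit 11) (.e (nat_lit 24665) (nat_lit 14) (.e (nat_lit 401421) (nat_lit 1) .nil))) .nil)) 
(.lf (nat_lit 248299) (.g (nat_lit 799) (.e (nat_lit 147494) (nat_lit 11) (.e (nat_lit 24608) (nat_lit 3) (.e (nat_lit 98373) (nat_lit 29) .nil))) .nil)))) (.nd (nat_lit 5) (.nd (nat_lit 6) 
(.lf (nat_lit 248219) (.g (nat_lit 2614) (.e (nat_lit 147493) (nat_lit 11) (.e (nat_lit 24665) (nat_lit 14) (.e (nat_lit 401414) (nat_lit 0) (.e (nat_lit 2458) (nat_lit 157) (.e (nat_lit 6264) (nat_lit 337) .nil))))) .nil)) 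
(.lf (nat_lit 248283) (.g (nat_lit 3064) (.e (nat_lit 147494) (nat_lit 11) (.e (nat_lit 24607) (nat_lit 3) (.e (nat_lit 98359) (nat_lit 26) (.e (nat_lit 426286) (nat_lit 10) (.e (nat_lit 434247) (nat_lit 28) (.e (nat_lit 573456) (nat_lit 9) (.e (nat_lit 1312) (nat_lit 98) .nil))))))) (.g (nat_lit 5) .nil .nil)))) (.nd (nat_lit 6) 
(.lf (nat_lit 248251) (.g (nat_lit 533) (.e (nat_lit 147494) (nat_lit 11) (.e (nat_lit 24580) (nat_lit 0) (.e (nat_lit 6508) (nat_lit 345) .nil))) .nil)) 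
(.lf (nat_lit 248315) (.g (nat_lit 3740) (.e (nat_lit 147494) (nat_lit 11) (.e (nat_lit 24617) (nat_lit 7) (.e (nat_lit 319534) (nat_lit 16) (.e (nat_lit 286756) (nat_lit 10) (.e (nat_lit 344160) (nat_lit 37) (.e (nat_lit 647195) (nat_lit 9) (.e (nat_lit 1310) (nat_lit 98) .nil))))))) (.g (nat_lit 6) .nil .nil))))))) (.nd (nat_lit 3) (.nd (nat_lit 4) (.nd (nat_lit 5) (.nd (nat_lit 6) 
(.lf (nat_lit 248199) (.g (nat_lit 2634) (.e (nat_lit 147493) (nat_lit 11) (.e (nat_lit 24658) (nat_lit 13) (.e (nat_lit 393234) (nat_lit 17) (.e (nat_lit 7587) (nat_lit 406) (.e (nat_lit 65580) (nat_lit 6) .nil))))) .nil)) 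
(.lf (nat_lit 248263) (.g (nat_lit 2131) (.e (nat_lit 147494) (nat_lit 11) (.e (nat_lit 24604) (nat_lit 2) (.e (nat_lit 90170) (nat_lit 13) (.e (nat_lit 172106) (nat_lit 10) (.e (nat_lit 434244) (nat_lit 28) .nil))))) .nil))) (.nd (nat_lit 6) 
(.lf (nat_lit 248231) (.g (nat_lit 1867) (.e (nat_lit 147493) (nat_lit 11) (.e (nat_lit 24665) (nat_lit 14) (.e (nat_lit 401420) (nat_lit 1) (.e (nat_lit 164148) (nat_lit 152) .nil)))) .nil)) 
(.lf (nat_lit 248295) (.g (nat_lit 2240) (.e (nat_lit 147494) (nat_lit 11) (.e (nat_lit 24608) (nat_lit 3) (.e (nat_lit 98372) (nat_lit 29) (.e (nat_lit 450586) (nat_lit 10) .nil)))) .nil)))) (.nd (nat_lit 5) (.nd (nat_lit 6) 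
(.lf (nat_lit 248215) (.g (nat_lit 2509) (.e (nat_lit 147493) (nat_lit 11) (.e (nat_lit 24665) (nat_lit 14) (.e (nat_lit 401413) (nat_lit 0) (.e (nat_lit 3459) (nat_lit 216) (.e (nat_lit 696064) (nat_lit 18) .nil))))) .nil)) 
(.lf (nat_lit 248279) (.g (nat_lit 1609) (.e (nat_lit 147494) (nat_lit 11) (.e (nat_lit 24605) (nat_lit 2) (.e (nat_lit 90170) (nat_lit 13) (.e (nat_lit 172113) (nat_lit 10) (.e (nat_lit 434242) (nat_lit 28) (.e (nat_lit 573456) (nat_lit 9) (.e (nat_lit 1312) (nat_lit 98) .nil))))))) (.g (nat_lit 4) .nil .nil)))) (.nd (nat_lit 6) 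
(.lf (nat_lit 248247) (.g (nat_lit 1308) (.e (nat_lit 147493) (nat_lit 11) (.e (nat_lit 24665) (nat_lit 14) (.e (nat_lit 409344) (nat_lit 31) .nil))) .nil)) 
(.lf (nat_lit 248311) (.g (nat_lit 3474) (.e (nat_lit 147494) (nat_lit 11) (.e (nat_lit 24617) (nat_lit 7) (.e (nat_lit 319533) (nat_lit 16) (.e (nat_lit 286753) (nat_lit 10) (.e (nat_lit 344160) (nat_lit 37) (.e (nat_lit 647190) (nat_lit 9) (.e (nat_lit 1310) (nat_lit 98) .nil))))))) (.g (nat_lit 6) .nil .nil)))))) (.nd (nat_lit 4) (.nd (nat_lit 5) (.nd (nat_lit 6) 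
(.lf (nat_lit 248207) (.g (nat_lit 823) (.e (nat_lit 147493) (nat_lit 11) (.e (nat_lit 24660) (nat_lit 13) (.e (nat_lit 393238) (nat_lit 17) (.e (nat_lit 7936) (nat_lit 406) .nil)))) .nil)) 
(.lf (nat_lit 248271) (.g (nat_lit 1864) (.e (nat_lit 147494) (nat_lit 11) (.e (nat_lit 24604) (nat_lit 2) (.e (nat_lit 90174) (nat_lit 14) (.e (nat_lit 180277) (nat_lit 32) .nil)))) .nil))) (.nd (nat_lit 6) 
(.lf (nat_lit 248239) (.g (nat_lit 3068) (.e (nat_lit 147493) (nat_lit 11) (.e (nat_lit 24665) (nat_lit 14) (.e (nat_lit 401421) (nat_lit 1) (.e (nat_lit 164179) (nat_lit 154) (.e (nat_lit 57424) (nat_lit 14) .nil))))) .nil)) 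
(.lf (nat_lit 248303) (.g (nat_lit 4676) (.e (nat_lit 147494) (nat_lit 11) (.e (nat_lit 24608) (nat_lit 3) (.e (nat_lit 98373) (nat_lit 29) (.e (nat_lit 450588) (nat_lit 10) (.e (nat_lit 573452) (nat_lit 9) .nil))))) .nil)))) (.nd (nat_lit 5) (.nd (nat_lit 6) 
(.lf (nat_lit 248223) (.g (nat_lit 2952) (.e (nat_lit 147493) (nat_lit 11) (.e (nat_lit 24665) (nat_lit 14) (.e (nat_lit 401414) (nat_lit 0) (.e (nat_lit 3459) (nat_lit 216) (.e (nat_lit 688152) (nat_lit 13) .nil))))) .nil)) 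
(.lf (nat_lit 248287) (.g (nat_lit 3479) (.e (nat_lit 147494) (nat_lit 11) (.e (nat_lit 24607) (nat_lit 3) (.e (nat_lit 98372) (nat_lit 29) (.e (nat_lit 450588) (nat_lit 10) (.e (nat_lit 573449) (nat_lit 9) (.e (nat_lit 1312) (nat_lit 98) .nil)))))) (.g (nat_lit 4) .nil .nil)))) (.nd (nat_lit 6) 
(.lf (nat_lit 248255) (.g (nat_lit 3876) (.e (nat_lit 147494) (nat_lit 11) (.e (nat_lit 24602) (nat_lit 2) (.e (nat_lit 90170) (nat_lit 13) (.e (nat_lit 172106) (nat_lit 10) (.e (nat_lit 434244) (nat_lit 28) (.e (nat_lit 573451) (nat_lit 9) (.e (nat_lit 1310) (nat_lit 98) .nil))))))) (.g (nat_lit 6) .nil .nil))) 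
(.lf (nat_lit 248319) (.g (nat_lit 633) (.e (nat_lit 147494) (nat_lit 11) (.e (nat_lit 24627) (nat_lit 9) (.e (nat_lit 336439) (nat_lit 31) .nil))) .nil)))))))))

noncomputable def tv3217 : DT := (.nd (nat_lit 0) (.nd (nat_lit 1) (.nd (nat_lit 2) (.nd (nat_lit 3) (.nd (nat_lit 4) (.nd (nat_lit 5) (.nd (nat_lit 6) 
(.lf (nat_lit 248320) (.g (nat_lit 623) (.e (nat_lit 147494) (nat_lit 11) (.e (nat_lit 24628) (nat_lit 9) (.e (nat_lit 335878) (nat_lit 0) .nil))) .nil)) 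
(.lf (nat_lit 248384) (.g (nat_lit 1577) (.e (nat_lit 147494) (nat_lit 11) (.e (nat_lit 24657) (nat_lit 13) (.e (nat_lit 393298) (nat_lit 27) (.e (nat_lit 491554) (nat_lit 9) .nil)))) .nil))) (.nd (nat_lit 6) 
(.lf (nat_lit 248352) (.g (nat_lit 824) (.e (nat_lit 147494) (nat_lit 11) (.e (nat_lit 24655) (nat_lit 13) (.e (nat_lit 393232) (nat_lit 17) .nil))) .nil)) 
(.lf (nat_lit 248416) (.g (nat_lit 2196) (.e (nat_lit 147494) (nat_lit 11) (.e (nat_lit 24665) (nat_lit 14) (.e (nat_lit 401414) (nat_lit 0) (.e (nat_lit 3459) (nat_lit 216) (.e (nat_lit 688144) (nat_lit 13) .nil))))) .nil)))) (.nd (nat_lit 5) (.nd (nat_lit 6) 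
(.lf (nat_lit 248336) (.g (nat_lit 1459) (.e (nat_lit 147494) (nat_lit 11) (.e (nat_lit 24638) (nat_lit 9) (.e (nat_lit 335988) (nat_lit 1) (.e (nat_lit 57664) (nat_lit 152) .nil)))) .nil)) 
(.lf (nat_lit 248400) (.g (nat_lit 981) (.e (nat_lit 147494) (nat_lit 11) (.e (nat_lit 24660) (nat_lit 13) (.e (nat_lit 393259) (nat_lit 21) (.e (nat_lit 417536) (nat_lit 16) .nil)))) .nil))) (.nd (nat_lit 6) 
(.lf (nat_lit 248368) (.g (nat_lit 3265) (.e (nat_lit 147494) (nat_lit 11) (.e (nat_lit 24655) (nat_lit 13) (.e (nat_lit 393301) (nat_lit 27) (.e (nat_lit 491546) (nat_lit 9) (.e (nat_lit 336048) (nat_lit 6) .nil))))) (.g (nat_lit 4) .nil .nil))) 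
(.lf (nat_lit 248432) (.g (nat_lit 1969) (.e (nat_lit 147494) (nat_lit 11) (.e (nat_lit 24665) (nat_lit 14) (.e (nat_lit 401444) (nat_lit 9) (.e (nat_lit 426447) (nat_lit 20) .nil)))) .nil))))) (.nd (nat_lit 4) (.nd (nat_lit 5) (.nd (nat_lit 6) 
(.lf (nat_lit 248328) (.g (nat_lit 840) (.e (nat_lit 147494) (nat_lit 11) (.e (nat_lit 24638) (nat_lit 9) (.e (nat_lit 335914) (nat_lit 0) (.e (nat_lit 2276) (nat_lit 150) .nil)))) .nil)) 
(.lf (nat_lit 248392) (.g (nat_lit 2204) (.e (nat_lit 147494) (nat_lit 11) (.e (nat_lit 24658) (nat_lit 13) (.e (nat_lit 393300) (nat_lit 27) (.e (nat_lit 491546) (nat_lit 9) (.e (nat_lit 336048) (nat_lit 6) .nil))))) .nil))) (.nd (nat_lit 6) 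
(.lf (nat_lit 248360) (.g (nat_lit 2403) (.e (nat_lit 147494) (nat_lit 11) (.e (nat_lit 24655) (nat_lit 13) (.e (nat_lit 393298) (nat_lit 27) (.e (nat_lit 491546) (nat_lit 9) (.e (nat_lit 336048) (nat_lit 6) .nil))))) .nil)) 
(.lf (nat_lit 248424) (.g (nat_lit 2191) (.e (nat_lit 147494) (nat_lit 11) (.e (nat_lit 24665) (nat_lit 14) (.e (nat_lit 401414) (nat_lit 0) (.e (nat_lit 3469) (nat_lit 217) (.e (nat_lit 696363) (nat_lit 18) .nil))))) .nil)))) (.nd (nat_lit 5) (.nd (nat_lit 6) 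
(.lf (nat_lit 248344) (.g (nat_lit 2986) (.e (nat_lit 147494) (nat_lit 11) (.e (nat_lit 24640) (nat_lit 10) (.e (nat_lit 344097) (nat_lit 18) (.e (nat_lit 7270) (nat_lit 385) (.e (nat_lit 122916) (nat_lit 14) .nil))))) .nil)) 
(.lf (nat_lit 248408) (.g (nat_lit 1383) (.e (nat_lit 147494) (nat_lit 11) (.e (nat_lit 24662) (nat_lit 14) (.e (nat_lit 401422) (nat_lit 1) .nil))) .nil))) (.nd (nat_lit 6) 
(.lf (nat_lit 248376) (.g (nat_lit 1345) (.e (nat_lit 147494) (nat_lit 11) (.e (nat_lit 24657) (nat_lit 13) (.e (nat_lit 393271) (nat_lit 23) (.e (nat_lit 425986) (nat_lit 0) .nil)))) .nil)) 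
(.lf (nat_lit 248440) (.g (nat_lit 2440) (.e (nat_lit 147494) (nat_lit 11) (.e (nat_lit 24665) (nat_lit 14) (.e (nat_lit 401450) (nat_lit 12) (.e (nat_lit 475212) (nat_lit 42) .nil)))) .nil)))))) (.nd (nat_lit 3) (.nd (nat_lit 4) (.nd (nat_lit 5) (.nd (nat_lit 6) 
(.lf (nat_lit 248324) (.g (nat_lit 884) (.e (nat_lit 147494) (nat_lit 11) (.e (nat_lit 24638) (nat_lit 9) (.e (nat_lit 335892) (nat_lit 0) (.e (nat_lit 2271) (nat_lit 149) .nil)))) .nil)) 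
(.lf (nat_lit 248388) (.g (nat_lit 664) (.e (nat_lit 147494) (nat_lit 11) (.e (nat_lit 24658) (nat_lit 13) (.e (nat_lit 393233) (nat_lit 17) .nil))) .nil))) (.nd (nat_lit 6) 
(.lf (nat_lit 248356) (.g (nat_lit 621) (.e (nat_lit 147494) (nat_lit 11) (.e (nat_lit 24655) (nat_lit 13) (.e (nat_lit 393241) (nat_lit 17) .nil))) .nil)) 
(.lf (nat_lit 248420) (.g (nat_lit 2110) (.e (nat_lit 147494) (nat_lit 11) (.e (nat_lit 24665) (nat_lit 14) (.e (nat_lit 401414) (nat_lit 0) (.e (nat_lit 3459) (nat_lit 216) (.e (nat_lit 688178) (nat_lit 16) .nil))))) .nil)))) (.nd (nat_lit 5) (.nd (nat_lit 6) 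
(.lf (nat_lit 248340) (.g (nat_lit 978) (.e (nat_lit 147494) (nat_lit 11) (.e (nat_lit 24639) (nat_lit 10) (.e (nat_lit 344091) (nat_lit 18) (.e (nat_lit 7265) (nat_lit 384) .nil)))) .nil)) 
(.lf (nat_lit 248404) (.g (nat_lit 1859) (.e (nat_lit 147494) (nat_lit 11) (.e (nat_lit 24660) (nat_lit 13) (.e (nat_lit 393260) (nat_lit 21) (.e (nat_lit 409617) (nat_lit 10) (.e (nat_lit 7936) (nat_lit 298) .nil))))) .nil))) (.nd (nat_lit 6) 
(.lf (nat_lit 248372) (.g (nat_lit 851) (.e (nat_lit 147494) (nat_lit 11) (.e (nat_lit 24657) (nat_lit 13) (.e (nat_lit 393247) (nat_lit 17) .nil))) .nil)) 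
(.lf (nat_lit 248436) (.g (nat_lit 2200) (.e (nat_lit 147494) (nat_lit 11) (.e (nat_lit 24665) (nat_lit 14) (.e (nat_lit 401448) (nat_lit 10) (.e (nat_lit 434274) (nat_lit 39) .nil)))) .nil))))) (.nd (nat_lit 4) (.nd (nat_lit 5) (.nd (nat_lit 6) 
(.lf (nat_lit 248332) (.g (nat_lit 1328) (.e (nat_lit 147494) (nat_lit 11) (.e (nat_lit 24638) (nat_lit 9) (.e (nat_lit 335986) (nat_lit 1) (.e (nat_lit 57664) (nat_lit 152) (.e (nat_lit 7936) (nat_lit 90) .nil))))) .nil)) 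
(.lf (nat_lit 248396) (.g (nat_lit 2008) (.e (nat_lit 147494) (nat_lit 11) (.e (nat_lit 24659) (nat_lit 13) (.e (nat_lit 393234) (nat_lit 17) (.e (nat_lit 7587) (nat_lit 406) (.e (nat_lit 65580) (nat_lit 6) .nil))))) .nil))) (.nd (nat_lit 6) 
(.lf (nat_lit 248364) (.g (nat_lit 1834) (.e (nat_lit 147494) (nat_lit 11) (.e (nat_lit 24655) (nat_lit 13) (.e (nat_lit 393299) (nat_lit 27) (.e (nat_lit 491552) (nat_lit 9) .nil)))) .nil)) 
(.lf (nat_lit 248428) (.g (nat_lit 3882) (.e (nat_lit 147494) (nat_lit 11) (.e (nat_lit 24665) (nat_lit 14) (.e (nat_lit 401421) (nat_lit 1) (.e (nat_lit 164178) (nat_lit 154) (.e (nat_lit 57424) (nat_lit 14) (.e (nat_lit 352324) (nat_lit 26) .nil)))))) (.g (nat_lit 6) .nil .nil))))) (.nd (nat_lit 5) (.nd (nat_lit 6) 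
(.lf (nat_lit 248348) (.g (nat_lit 1580) (.e (nat_lit 147494) (nat_lit 11) (.e (nat_lit 24640) (nat_lit 10) (.e (nat_lit 344177) (nat_lit 43) (.e (nat_lit 770057) (nat_lit 5) .nil)))) .nil)) 
(.lf (nat_lit 248412) (.g (nat_lit 731) (.e (nat_lit 147494) (nat_lit 11) (.e (nat_lit 24665) (nat_lit 14) (.e (nat_lit 401413) (nat_lit 0) .nil))) .nil))) (.nd (nat_lit 6) 
(.lf (nat_lit 248380) (.g (nat_lit 755) (.e (nat_lit 147494) (nat_lit 11) (.e (nat_lit 24657) (nat_lit 13) (.e (nat_lit 393297) (nat_lit 27) .nil))) .nil)) 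
(.lf (nat_lit 248444) (.g (nat_lit 2972) (.e (nat_lit 147494) (nat_lit 11) (.e (nat_lit 24665) (nat_lit 14) (.e (nat_lit 401451) (nat_lit 12) (.e (nat_lit 475212) (nat_lit 42) .nil)))) .nil))))))) (.nd (nat_lit 2) (.nd (nat_lit 3) (.nd (nat_lit 4) (.nd (nat_lit 5) (.nd (nat_lit 6) 
(.lf (nat_lit 248322) (.g (nat_lit 416) (.e (nat_lit 147494) (nat_lit 11) (.e (nat_lit 24631) (nat_lit 9) (.e (nat_lit 336046) (nat_lit 6) .nil))) .nil)) 
(.lf (nat_lit 248386) (.g (nat_lit 2173) (.e (nat_lit 147494) (nat_lit 11) (.e (nat_lit 24657) (nat_lit 13) (.e (nat_lit 393299) (nat_lit 27) (.e (nat_lit 491546) (nat_lit 9) (.e (nat_lit 336048) (nat_lit 6) .nil))))) (.g (nat_lit 4) .nil .nil)))) (.nd (nat_lit 6) 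
(.lf (nat_lit 248354) (.g (nat_lit 420) (.e (nat_lit 147494) (nat_lit 11) (.e (nat_lit 24655) (nat_lit 13) (.e (nat_lit 393233) (nat_lit 17) .nil))) .nil)) 
(.lf (nat_lit 248418) (.g (nat_lit 2195) (.e (nat_lit 147494) (nat_lit 11) (.e (nat_lit 24665) (nat_lit 14) (.e (nat_lit 401414) (nat_lit 0) (.e (nat_lit 3459) (nat_lit 216) (.e (nat_lit 688153) (nat_lit 13) .nil))))) .nil)))) (.nd (nat_lit 5) (.nd (nat_lit 6) 
(.lf (nat_lit 248338) (.g (nat_lit 2186) (.e (nat_lit 147494) (nat_lit 11) (.e (nat_lit 24638) (nat_lit 9) (.e (nat_lit 335996) (nat_lit 1) (.e (nat_lit 57665) (nat_lit 152) (.e (nat_lit 7936) (nat_lit 90) .nil))))) .nil)) 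
(.lf (nat_lit 248402) (.g (nat_lit 2055) (.e (nat_lit 147494) (nat_lit 11) (.e (nat_lit 24660) (nat_lit 13) (.e (nat_lit 393260) (nat_lit 21) (.e (nat_lit 409616) (nat_lit 10) (.e (nat_lit 5355) (nat_lit 298) .nil))))) .nil))) (.nd (nat_lit 6) 
(.lf (nat_lit 248370) (.g (nat_lit 705) (.e (nat_lit 147494) (nat_lit 11) (.e (nat_lit 24657) (nat_lit 13) (.e (nat_lit 393244) (nat_lit 17) .nil))) .nil)) 
(.lf (nat_lit 248434) (.g (nat_lit 2200) (.e (nat_lit 147494) (nat_lit 11) (.e (nat_lit 24665) (nat_lit 14) (.e (nat_lit 401448) (nat_lit 10) (.e (nat_lit 434270) (nat_lit 38) .nil)))) .nil))))) (.nd (nat_lit 4) (.nd (nat_lit 5) (.nd (nat_lit 6) 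
(.lf (nat_lit 248330) (.g (nat_lit 1559) (.e (nat_lit 147494) (nat_lit 11) (.e (nat_lit 24638) (nat_lit 9) (.e (nat_lit 335986) (nat_lit 1) (.e (nat_lit 57655) (nat_lit 152) (.e (nat_lit 1217) (nat_lit 90) (.e (nat_lit 81964) (nat_lit 26) .nil)))))) (.g (nat_lit 4) .nil .nil))) 
(.lf (nat_lit 248394) (.g (nat_lit 2662) (.e (nat_lit 147494) (nat_lit 11) (.e (nat_lit 24658) (nat_lit 13) (.e (nat_lit 393301) (nat_lit 27) (.e (nat_lit 491552) (nat_lit 9) .nil)))) .nil))) (.nd (nat_lit 6) 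
(.lf (nat_lit 248362) (.g (nat_lit 2030) (.e (nat_lit 147494) (nat_lit 11) (.e (nat_lit 24655) (nat_lit 13) (.e (nat_lit 393298) (nat_lit 27) (.e (nat_lit 491554) (nat_lit 9) (.e (nat_lit 336048) (nat_lit 6) .nil))))) .nil)) 
(.lf (nat_lit 248426) (.g (nat_lit 784) (.e (nat_lit 147494) (nat_lit 11) (.e (nat_lit 24665) (nat_lit 14) (.e (nat_lit 401420) (nat_lit 1) .nil))) .nil)))) (.nd (nat_lit 5) (.nd (nat_lit 6) 
(.lf (nat_lit 248346) (.g (nat_lit 1154) (.e (nat_lit 147494) (nat_lit 11) (.e (nat_lit 24640) (nat_lit 10) (.e (nat_lit 344175) (nat_lit 43) (.e (nat_lit 770074) (nat_lit 10) .nil)))) .nil)) 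
(.lf (nat_lit 248410) (.g (nat_lit 837) (.e (nat_lit 147494) (nat_lit 11) (.e (nat_lit 24664) (nat_lit 14) (.e (nat_lit 401472) (nat_lit 28) .nil))) .nil))) (.nd (nat_lit 6) 
(.lf (nat_lit 248378) (.g (nat_lit 2524) (.e (nat_lit 147494) (nat_lit 11) (.e (nat_lit 24657) (nat_lit 13) (.e (nat_lit 393291) (nat_lit 26) (.e (nat_lit 475210) (nat_lit 41) (.e (nat_lit 720640) (nat_lit 6) .nil))))) .nil)) 
(.lf (nat_lit 248442) (.g (nat_lit 2366) (.e (nat_lit 147494) (nat_lit 11) (.e (nat_lit 24665) (nat_lit 14) (.e (nat_lit 401450) (nat_lit 12) (.e (nat_lit 475214) (nat_lit 42) .nil)))) .nil)))))) (.nd (nat_lit 3) (.nd (nat_lit 4) (.nd (nat_lit 5) (.nd (nat_lit 6) 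
(.lf (nat_lit 248326) (.g (nat_lit 1292) (.e (nat_lit 147494) (nat_lit 11) (.e (nat_lit 24638) (nat_lit 9) (.e (nat_lit 335895) (nat_lit 0) (.e (nat_lit 2363) (nat_lit 153) .nil)))) .nil)) 
(.lf (nat_lit 248390) (.g (nat_lit 3181) (.e (nat_lit 147494) (nat_lit 11) (.e (nat_lit 24658) (nat_lit 13) (.e (nat_lit 393234) (nat_lit 17) (.e (nat_lit 7587) (nat_lit 406) (.e (nat_lit 65580) (nat_lit 6) .nil))))) (.g (nat_lit 4) .nil .nil)))) (.nd (nat_lit 6) 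
(.lf (nat_lit 248358) (.g (nat_lit 1919) (.e (nat_lit 147494) (nat_lit 11) (.e (nat_lit 24655) (nat_lit 13) (.e (nat_lit 393296) (nat_lit 26) (.e (nat_lit 475209) (nat_lit 41) (.e (nat_lit 720640) (nat_lit 6) .nil))))) (.g (nat_lit 4) .nil .nil))) 
(.lf (nat_lit 248422) (.g (nat_lit 1407) (.e (nat_lit 147494) (nat_lit 11) (.e (nat_lit 24665) (nat_lit 14) (.e (nat_lit 401414) (nat_lit 0) (.e (nat_lit 3468) (nat_lit 217) .nil)))) .nil)))) (.nd (nat_lit 5) (.nd (nat_lit 6) 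
(.lf (nat_lit 248342) (.g (nat_lit 1251) (.e (nat_lit 147494) (nat_lit 11) (.e (nat_lit 24640) (nat_lit 10) (.e (nat_lit 344088) (nat_lit 18) (.e (nat_lit 7237) (nat_lit 382) .nil)))) .nil)) 
(.lf (nat_lit 248406) (.g (nat_lit 1872) (.e (nat_lit 147494) (nat_lit 11) (.e (nat_lit 24662) (nat_lit 14) (.e (nat_lit 401410) (nat_lit 0) .nil))) .nil))) (.nd (nat_lit 6) 
(.lf (nat_lit 248374) (.g (nat_lit 438) (.e (nat_lit 147494) (nat_lit 11) (.e (nat_lit 24657) (nat_lit 13) (.e (nat_lit 401152) (nat_lit 17) .nil))) .nil)) 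
(.lf (nat_lit 248438) (.g (nat_lit 2200) (.e (nat_lit 147494) (nat_lit 11) (.e (nat_lit 24665) (nat_lit 14) (.e (nat_lit 401448) (nat_lit 10) (.e (nat_lit 434276) (nat_lit 39) .nil)))) .nil))))) (.nd (nat_lit 4) (.nd (nat_lit 5) (.nd (nat_lit 6) 
(.lf (nat_lit 248334) (.g (nat_lit 1864) (.e (nat_lit 147494) (nat_lit 11) (.e (nat_lit 24638) (nat_lit 9) (.e (nat_lit 335986) (nat_lit 1) (.e (nat_lit 57683) (nat_lit 155) (.e (nat_lit 122916) (nat_lit 14) .nil))))) .nil)) 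
(.lf (nat_lit 248398) (.g (nat_lit 523) (.e (nat_lit 147494) (nat_lit 11) (.e (nat_lit 24660) (nat_lit 13) (.e (nat_lit 393230) (nat_lit 17) .nil))) .nil))) (.nd (nat_lit 6) 
(.lf (nat_lit 248366) (.g (nat_lit 2839) (.e (nat_lit 147494) (nat_lit 11) (.e (nat_lit 24655) (nat_lit 13) (.e (nat_lit 393300) (nat_lit 27) (.e (nat_lit 491546) (nat_lit 9) (.e (nat_lit 336048) (nat_lit 6) .nil))))) (.g (nat_lit 5) .nil .nil))) 
(.lf (nat_lit 248430) (.g (nat_lit 1034) (.e (nat_lit 147494) (nat_lit 11) (.e (nat_lit 24665) (nat_lit 14) (.e (nat_lit 401431) (nat_lit 6) .nil))) .nil)))) (.nd (nat_lit 5) (.nd (nat_lit 6) 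
(.lf (nat_lit 248350) (.g (nat_lit 1249) (.e (nat_lit 147494) (nat_lit 11) (.e (nat_lit 24654) (nat_lit 13) (.e (nat_lit 393299) (nat_lit 27) (.e (nat_lit 491546) (nat_lit 9) .nil)))) .nil)) 
(.lf (nat_lit 248414) (.g (nat_lit 1652) (.e (nat_lit 147494) (nat_lit 11) (.e (nat_lit 24665) (nat_lit 14) (.e (nat_lit 401414) (nat_lit 0) (.e (nat_lit 3452) (nat_lit 216) .nil)))) .nil))) (.nd (nat_lit 6) 
(.lf (nat_lit 248382) (.g (nat_lit 2225) (.e (nat_lit 147494) (nat_lit 11) (.e (nat_lit 24657) (nat_lit 13) (.e (nat_lit 393298) (nat_lit 27) (.e (nat_lit 491546) (nat_lit 9) (.e (nat_lit 336048) (nat_lit 6) .nil))))) .nil)) 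
(.lf (nat_lit 248446) (.g (nat_lit 4157) (.e (nat_lit 147494) (nat_lit 11) (.e (nat_lit 24665) (nat_lit 14) (.e (nat_lit 401451) (nat_lit 12) (.e (nat_lit 475214) (nat_lit 42) (.e (nat_lit 720949) (nat_lit 24) .nil))))) .nil)))))))) (.nd (nat_lit 1) (.nd (nat_lit 2) (.nd (nat_lit 3) (.nd (nat_lit 4) (.nd (nat_lit 5) (.nd (nat_lit 6) 
(.lf (nat_lit 248321) (.g (nat_lit 633) (.e (nat_lit 147494) (nat_lit 11) (.e (nat_lit 24628) (nat_lit 9) (.e (nat_lit 336000) (nat_lit 1) .nil))) .nil)) 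
(.lf (nat_lit 248385) (.g (nat_lit 511) (.e (nat_lit 147494) (nat_lit 11) (.e (nat_lit 24657) (nat_lit 13) (.e (nat_lit 393299) (nat_lit 27) .nil))) .nil))) (.nd (nat_lit 6) 
(.lf (nat_lit 248353) (.g (nat_lit 1292) (.e (nat_lit 147494) (nat_lit 11) (.e (nat_lit 24655) (nat_lit 13) (.e (nat_lit 393232) (nat_lit 17) (.e (nat_lit 7936) (nat_lit 406) .nil)))) .nil)) 
(.lf (nat_lit 248417) (.g (nat_lit 2194) (.e (nat_lit 147494) (nat_lit 11) (.e (nat_lit 24665) (nat_lit 14) (.e (nat_lit 401414) (nat_lit 0) (.e (nat_lit 3459) (nat_lit 216) (.e (nat_lit 688152) (nat_lit 13) .nil))))) .nil)))) (.nd (nat_lit 5) (.nd (nat_lit 6) 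
(.lf (nat_lit 248337) (.g (nat_lit 1999) (.e (nat_lit 147494) (nat_lit 11) (.e (nat_lit 24638) (nat_lit 9) (.e (nat_lit 335995) (nat_lit 1) (.e (nat_lit 57683) (nat_lit 155) (.e (nat_lit 122916) (nat_lit 14) .nil))))) .nil)) 
(.lf (nat_lit 248401) (.g (nat_lit 946) (.e (nat_lit 147494) (nat_lit 11) (.e (nat_lit 24660) (nat_lit 13) (.e (nat_lit 393259) (nat_lit 21) (.e (nat_lit 409641) (nat_lit 17) .nil)))) .nil))) (.nd (nat_lit 6) 
(.lf (nat_lit 248369) (.g (nat_lit 1938) (.e (nat_lit 147494) (nat_lit 11) (.e (nat_lit 24655) (nat_lit 13) (.e (nat_lit 393301) (nat_lit 27) (.e (nat_lit 491552) (nat_lit 9) .nil)))) .nil)) 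
(.lf (nat_lit 248433) (.g (nat_lit 997) (.e (nat_lit 147494) (nat_lit 11) (.e (nat_lit 24665) (nat_lit 14) (.e (nat_lit 401447) (nat_lit 10) .nil))) .nil))))) (.nd (nat_lit 4) (.nd (nat_lit 5) (.nd (nat_lit 6) 
(.lf (nat_lit 248329) (.g (nat_lit 2684) (.e (nat_lit 147494) (nat_lit 11) (.e (nat_lit 24638) (nat_lit 9) (.e (nat_lit 335986) (nat_lit 1) (.e (nat_lit 57655) (nat_lit 152) (.e (nat_lit 1217) (nat_lit 90) (.e (nat_lit 81963) (nat_lit 26) .nil)))))) (.g (nat_lit 0) .nil .nil))) 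
(.lf (nat_lit 248393) (.g (nat_lit 3352) (.e (nat_lit 147494) (nat_lit 11) (.e (nat_lit 24658) (nat_lit 13) (.e (nat_lit 393301) (nat_lit 27) (.e (nat_lit 491546) (nat_lit 9) (.e (nat_lit 336048) (nat_lit 6) .nil))))) .nil))) (.nd (nat_lit 6) 
(.lf (nat_lit 248361) (.g (nat_lit 1526) (.e (nat_lit 147494) (nat_lit 11) (.e (nat_lit 24655) (nat_lit 13) (.e (nat_lit 393298) (nat_lit 27) (.e (nat_lit 491550) (nat_lit 9) .nil)))) .nil)) 
(.lf (nat_lit 248425) (.g (nat_lit 997) (.e (nat_lit 147494) (nat_lit 11) (.e (nat_lit 24665) (nat_lit 14) (.e (nat_lit 401418) (nat_lit 0) .nil))) .nil)))) (.nd (nat_lit 5) (.nd (nat_lit 6) 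
(.lf (nat_lit 248345) (.g (nat_lit 2106) (.e (nat_lit 147494) (nat_lit 11) (.e (nat_lit 24640) (nat_lit 10) (.e (nat_lit 344097) (nat_lit 18) (.e (nat_lit 7272) (nat_lit 385) (.e (nat_lit 122916) (nat_lit 14) .nil))))) .nil)) 
(.lf (nat_lit 248409) (.g (nat_lit 4028) (.e (nat_lit 147494) (nat_lit 11) (.e (nat_lit 24662) (nat_lit 14) (.e (nat_lit 401454) (nat_lit 12) (.e (nat_lit 475214) (nat_lit 42) .nil)))) .nil))) (.nd (nat_lit 6) 
(.lf (nat_lit 248377) (.g (nat_lit 853) (.e (nat_lit 147494) (nat_lit 11) (.e (nat_lit 24657) (nat_lit 13) (.e (nat_lit 393290) (nat_lit 26) .nil))) .nil)) 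
(.lf (nat_lit 248441) (.g (nat_lit 3403) (.e (nat_lit 147494) (nat_lit 11) (.e (nat_lit 24665) (nat_lit 14) (.e (nat_lit 401450) (nat_lit 12) (.e (nat_lit 475212) (nat_lit 42) (.e (nat_lit 720956) (nat_lit 25) .nil))))) .nil)))))) (.nd (nat_lit 3) (.nd (nat_lit 4) (.nd (nat_lit 5) (.nd (nat_lit 6) 
(.lf (nat_lit 248325) (.g (nat_lit 923) (.e (nat_lit 147494) (nat_lit 11) (.e (nat_lit 24638) (nat_lit 9) (.e (nat_lit 335893) (nat_lit 0) (.e (nat_lit 2363) (nat_lit 153) .nil)))) .nil)) 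
(.lf (nat_lit 248389) (.g (nat_lit 929) (.e (nat_lit 147494) (nat_lit 11) (.e (nat_lit 24658) (nat_lit 13) (.e (nat_lit 393234) (nat_lit 17) .nil))) .nil))) (.nd (nat_lit 6) 
(.lf (nat_lit 248357) (.g (nat_lit 1539) (.e (nat_lit 147494) (nat_lit 11) (.e (nat_lit 24655) (nat_lit 13) (.e (nat_lit 393296) (nat_lit 26) (.e (nat_lit 475207) (nat_lit 41) (.e (nat_lit 720640) (nat_lit 6) .nil))))) (.g (nat_lit 4) .nil .nil))) 
(.lf (nat_lit 248421) (.g (nat_lit 3174) (.e (nat_lit 147494) (nat_lit 11) (.e (nat_lit 24665) (nat_lit 14) (.e (nat_lit 401414) (nat_lit 0) (.e (nat_lit 3459) (nat_lit 216) (.e (nat_lit 688178) (nat_lit 16) (.e (nat_lit 65595) (nat_lit 9) (.e (nat_lit 336048) (nat_lit 6) .nil))))))) (.g (nat_lit 5) .nil .nil))))) (.nd (nat_lit 5) (.nd (nat_lit 6) 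
(.lf (nat_lit 248341) (.g (nat_lit 1458) (.e (nat_lit 147494) (nat_lit 11) (.e (nat_lit 24639) (nat_lit 10) (.e (nat_lit 344096) (nat_lit 18) (.e (nat_lit 7261) (nat_lit 384) (.e (nat_lit 57424) (nat_lit 14) .nil))))) .nil)) 
(.lf (nat_lit 248405) (.g (nat_lit 1089) (.e (nat_lit 147494) (nat_lit 11) (.e (nat_lit 24660) (nat_lit 13) (.e (nat_lit 393260) (nat_lit 21) (.e (nat_lit 417536) (nat_lit 10) .nil)))) .nil))) (.nd (nat_lit 6) 
(.lf (nat_lit 248373) (.g (nat_lit 758) (.e (nat_lit 147494) (nat_lit 11) (.e (nat_lit 24657) (nat_lit 13) (.e (nat_lit 393248) (nat_lit 17) .nil))) .nil)) 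
(.lf (nat_lit 248437) (.g (nat_lit 2160) (.e (nat_lit 147494) (nat_lit 11) (.e (nat_lit 24665) (nat_lit 14) (.e (nat_lit 401448) (nat_lit 10) (.e (nat_lit 434275) (nat_lit 39) .nil)))) .nil))))) (.nd (nat_lit 4) (.nd (nat_lit 5) (.nd (nat_lit 6) 
(.lf (nat_lit 248333) (.g (nat_lit 1294) (.e (nat_lit 147494) (nat_lit 11) (.e (nat_lit 24638) (nat_lit 9) (.e (nat_lit 335986) (nat_lit 1) (.e (nat_lit 57665) (nat_lit 152) .nil)))) .nil)) 
(.lf (nat_lit 248397) (.g (nat_lit 2480) (.e (nat_lit 147494) (nat_lit 11) (.e (nat_lit 24659) (nat_lit 13) (.e (nat_lit 393301) (nat_lit 27) (.e (nat_lit 491546) (nat_lit 9) (.e (nat_lit 336048) (nat_lit 6) .nil))))) (.g (nat_lit 4) .nil .nil)))) (.nd (nat_lit 6) 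
(.lf (nat_lit 248365) (.g (nat_lit 1559) (.e (nat_lit 147494) (nat_lit 11) (.e (nat_lit 24655) (nat_lit 13) (.e (nat_lit 393299) (nat_lit 27) (.e (nat_lit 491556) (nat_lit 9) .nil)))) .nil)) 
(.lf (nat_lit 248429) (.g (nat_lit 934) (.e (nat_lit 147494) (nat_lit 11) (.e (nat_lit 24665) (nat_lit 14) (.e (nat_lit 401429) (nat_lit 4) .nil))) .nil)))) (.nd (nat_lit 5) (.nd (nat_lit 6) 
(.lf (nat_lit 248349) (.g (nat_lit 1918) (.e (nat_lit 147494) (nat_lit 11) (.e (nat_lit 24640) (nat_lit 10) (.e (nat_lit 344177) (nat_lit 43) (.e (nat_lit 770058) (nat_lit 5) (.e (nat_lit 1572) (nat_lit 110) .nil))))) .nil)) 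
(.lf (nat_lit 248413) (.g (nat_lit 1050) (.e (nat_lit 147494) (nat_lit 11) (.e (nat_lit 24665) (nat_lit 14) (.e (nat_lit 401413) (nat_lit 0) (.e (nat_lit 3459) (nat_lit 216) .nil)))) .nil))) (.nd (nat_lit 6) 
(.lf (nat_lit 248381) (.g (nat_lit 1659) (.e (nat_lit 147494) (nat_lit 11) (.e (nat_lit 24657) (nat_lit 13) (.e (nat_lit 393297) (nat_lit 27) (.e (nat_lit 491546) (nat_lit 9) (.e (nat_lit 336048) (nat_lit 6) .nil))))) .nil)) 
(.lf (nat_lit 248445) (.g (nat_lit 2604) (.e (nat_lit 147494) (nat_lit 11) (.e (nat_lit 24665) (nat_lit 14) (.e (nat_lit 401451) (nat_lit 12) (.e (nat_lit 475214) (nat_lit 42) .nil)))) .nil))))))) (.nd (nat_lit 2) (.nd (nat_lit 3) (.nd (nat_lit 4) (.nd (nat_lit 5) (.nd (nat_lit 6) 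
(.lf (nat_lit 248323) (.g (nat_lit 455) (.e (nat_lit 147494) (nat_lit 11) (.e (nat_lit 24638) (nat_lit 9) (.e (nat_lit 335892) (nat_lit 0) .nil))) .nil)) 
(.lf (nat_lit 248387) (.g (nat_lit 1154) (.e (nat_lit 147494) (nat_lit 11) (.e (nat_lit 24657) (nat_lit 13) (.e (nat_lit 393299) (nat_lit 27) (.e (nat_lit 491556) (nat_lit 9) .nil)))) .nil))) (.nd (nat_lit 6) 
(.lf (nat_lit 248355) (.g (nat_lit 2273) (.e (nat_lit 147494) (nat_lit 11) (.e (nat_lit 24655) (nat_lit 13) (.e (nat_lit 393234) (nat_lit 17) (.e (nat_lit 7587) (nat_lit 406) (.e (nat_lit 65580) (nat_lit 6) .nil))))) .nil)) 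
(.lf (nat_lit 248419) (.g (nat_lit 2083) (.e (nat_lit 147494) (nat_lit 11) (.e (nat_lit 24665) (nat_lit 14) (.e (nat_lit 401414) (nat_lit 0) (.e (nat_lit 3459) (nat_lit 216) (.e (nat_lit 688177) (nat_lit 16) .nil))))) .nil)))) (.nd (nat_lit 5) (.nd (nat_lit 6) 
(.lf (nat_lit 248339) (.g (nat_lit 739) (.e (nat_lit 147494) (nat_lit 11) (.e (nat_lit 24638) (nat_lit 9) (.e (nat_lit 336049) (nat_lit 6) (.e (nat_lit 147477) (nat_lit 9) .nil)))) .nil)) 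
(.lf (nat_lit 248403) (.g (nat_lit 1914) (.e (nat_lit 147494) (nat_lit 11) (.e (nat_lit 24660) (nat_lit 13) (.e (nat_lit 393260) (nat_lit 21) (.e (nat_lit 409616) (nat_lit 10) (.e (nat_lit 7936) (nat_lit 298) .nil))))) .nil))) (.nd (nat_lit 6) 
(.lf (nat_lit 248371) (.g (nat_lit 853) (.e (nat_lit 147494) (nat_lit 11) (.e (nat_lit 24657) (nat_lit 13) (.e (nat_lit 393245) (nat_lit 17) .nil))) .nil)) 
(.lf (nat_lit 248435) (.g (nat_lit 1562) (.e (nat_lit 147494) (nat_lit 11) (.e (nat_lit 24665) (nat_lit 14) (.e (nat_lit 401448) (nat_lit 10) (.e (nat_lit 434272) (nat_lit 38) .nil)))) .nil))))) (.nd (nat_lit 4) (.nd (nat_lit 5) (.nd (nat_lit 6) 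
(.lf (nat_lit 248331) (.g (nat_lit 1344) (.e (nat_lit 147494) (nat_lit 11) (.e (nat_lit 24638) (nat_lit 9) (.e (nat_lit 335986) (nat_lit 1) (.e (nat_lit 57657) (nat_lit 152) .nil)))) .nil)) 
(.lf (nat_lit 248395) (.g (nat_lit 2655) (.e (nat_lit 147494) (nat_lit 11) (.e (nat_lit 24658) (nat_lit 13) (.e (nat_lit 393301) (nat_lit 27) (.e (nat_lit 491556) (nat_lit 9) .nil)))) .nil))) (.nd (nat_lit 6) 
(.lf (nat_lit 248363) (.g (nat_lit 3119) (.e (nat_lit 147494) (nat_lit 11) (.e (nat_lit 24655) (nat_lit 13) (.e (nat_lit 393299) (nat_lit 27) (.e (nat_lit 491546) (nat_lit 9) (.e (nat_lit 336048) (nat_lit 6) .nil))))) (.g (nat_lit 5) .nil .nil))) 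
(.lf (nat_lit 248427) (.g (nat_lit 709) (.e (nat_lit 147494) (nat_lit 11) (.e (nat_lit 24665) (nat_lit 14) (.e (nat_lit 401421) (nat_lit 1) .nil))) .nil)))) (.nd (nat_lit 5) (.nd (nat_lit 6) 
(.lf (nat_lit 248347) (.g (nat_lit 2506) (.e (nat_lit 147494) (nat_lit 11) (.e (nat_lit 24640) (nat_lit 10) (.e (nat_lit 344176) (nat_lit 43) (.e (nat_lit 770074) (nat_lit 10) (.e (nat_lit 81965) (nat_lit 26) .nil))))) (.g (nat_lit 4) .nil .nil))) 
(.lf (nat_lit 248411) (.g (nat_lit 776) (.e (nat_lit 147494) (nat_lit 11) (.e (nat_lit 24665) (nat_lit 14) (.e (nat_lit 401409) (nat_lit 0) .nil))) .nil))) (.nd (nat_lit 6) 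
(.lf (nat_lit 248379) (.g (nat_lit 1966) (.e (nat_lit 147494) (nat_lit 11) (.e (nat_lit 24657) (nat_lit 13) (.e (nat_lit 393294) (nat_lit 26) (.e (nat_lit 475210) (nat_lit 41) (.e (nat_lit 720640) (nat_lit 6) .nil))))) .nil)) 
(.lf (nat_lit 248443) (.g (nat_lit 3996) (.e (nat_lit 147494) (nat_lit 11) (.e (nat_lit 24665) (nat_lit 14) (.e (nat_lit 401450) (nat_lit 12) (.e (nat_lit 475214) (nat_lit 42) (.e (nat_lit 720949) (nat_lit 24) .nil))))) .nil)))))) (.nd (nat_lit 3) (.nd (nat_lit 4) (.nd (nat_lit 5) (.nd (nat_lit 6) 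
(.lf (nat_lit 248327) (.g (nat_lit 418) (.e (nat_lit 147494) (nat_lit 11) (.e (nat_lit 24638) (nat_lit 9) (.e (nat_lit 335897) (nat_lit 0) .nil))) .nil)) 
(.lf (nat_lit 248391) (.g (nat_lit 988) (.e (nat_lit 147494) (nat_lit 11) (.e (nat_lit 24658) (nat_lit 13) (.e (nat_lit 393298) (nat_lit 27) .nil))) .nil))) (.nd (nat_lit 6) 
(.lf (nat_lit 248359) (.g (nat_lit 2096) (.e (nat_lit 147494) (nat_lit 11) (.e (nat_lit 24655) (nat_lit 13) (.e (nat_lit 393296) (nat_lit 26) (.e (nat_lit 475210) (nat_lit 41) (.e (nat_lit 720640) (nat_lit 6) .nil))))) (.g (nat_lit 4) .nil .nil))) 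
(.lf (nat_lit 248423) (.g (nat_lit 1554) (.e (nat_lit 147494) (nat_lit 11) (.e (nat_lit 24665) (nat_lit 14) (.e (nat_lit 401414) (nat_lit 0) (.e (nat_lit 3469) (nat_lit 217) .nil)))) .nil)))) (.nd (nat_lit 5) (.nd (nat_lit 6) 
(.lf (nat_lit 248343) (.g (nat_lit 2908) (.e (nat_lit 147494) (nat_lit 11) (.e (nat_lit 24640) (nat_lit 10) (.e (nat_lit 344091) (nat_lit 18) (.e (nat_lit 7265) (nat_lit 384) (.e (nat_lit 57424) (nat_lit 14) (.e (nat_lit 352324) (nat_lit 26) .nil)))))) (.g (nat_lit 5) .nil .nil))) 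
(.lf (nat_lit 248407) (.g (nat_lit 1548) (.e (nat_lit 147494) (nat_lit 11) (.e (nat_lit 24662) (nat_lit 14) (.e (nat_lit 401412) (nat_lit 0) .nil))) .nil))) (.nd (nat_lit 6) 
(.lf (nat_lit 248375) (.g (nat_lit 867) (.e (nat_lit 147494) (nat_lit 11) (.e (nat_lit 24657) (nat_lit 13) (.e (nat_lit 393259) (nat_lit 21) .nil))) .nil)) 
(.lf (nat_lit 248439) (.g (nat_lit 2731) (.e (nat_lit 147494) (nat_lit 11) (.e (nat_lit 24665) (nat_lit 14) (.e (nat_lit 401448) (nat_lit 10) (.e (nat_lit 434276) (nat_lit 39) (.e (nat_lit 663580) (nat_lit 9) .nil))))) .nil))))) (.nd (nat_lit 4) (.nd (nat_lit 5) (.nd (nat_lit 6) 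
(.lf (nat_lit 248335) (.g (nat_lit 1670) (.e (nat_lit 147494) (nat_lit 11) (.e (nat_lit 24638) (nat_lit 9) (.e (nat_lit 335988) (nat_lit 1) (.e (nat_lit 57663) (nat_lit 152) .nil)))) .nil)) 
(.lf (nat_lit 248399) (.g (nat_lit 522) (.e (nat_lit 147494) (nat_lit 11) (.e (nat_lit 24660) (nat_lit 13) (.e (nat_lit 393235) (nat_lit 17) .nil))) .nil))) (.nd (nat_lit 6) 
(.lf (nat_lit 248367) (.g (nat_lit 647) (.e (nat_lit 147494) (nat_lit 11) (.e (nat_lit 24655) (nat_lit 13) (.e (nat_lit 393301) (nat_lit 27) .nil))) .nil)) 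
(.lf (nat_lit 248431) (.g (nat_lit 1970) (.e (nat_lit 147494) (nat_lit 11) (.e (nat_lit 24665) (nat_lit 14) (.e (nat_lit 401444) (nat_lit 9) (.e (nat_lit 426445) (nat_lit 20) .nil)))) .nil)))) (.nd (nat_lit 5) (.nd (nat_lit 6) 
(.lf (nat_lit 248351) (.g (nat_lit 1293) (.e (nat_lit 147494) (nat_lit 11) (.e (nat_lit 24655) (nat_lit 13) (.e (nat_lit 393231) (nat_lit 17) (.e (nat_lit 7587) (nat_lit 406) .nil)))) .nil)) 
(.lf (nat_lit 248415) (.g (nat_lit 1600) (.e (nat_lit 147494) (nat_lit 11) (.e (nat_lit 24665) (nat_lit 14) (.e (nat_lit 401414) (nat_lit 0) (.e (nat_lit 3459) (nat_lit 216) .nil)))) .nil))) (.nd (nat_lit 6) 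
(.lf (nat_lit 248383) (.g (nat_lit 1380) (.e (nat_lit 147494) (nat_lit 11) (.e (nat_lit 24657) (nat_lit 13) (.e (nat_lit 393298) (nat_lit 27) (.e (nat_lit 491550) (nat_lit 9) .nil)))) .nil)) 
(.lf (nat_lit 248447) (.g (nat_lit 1008) (.e (nat_lit 147494) (nat_lit 11) (.e (nat_lit 24665) (nat_lit 14) (.e (nat_lit 401463) (nat_lit 15) .nil))) .nil)))))))))

noncomputable def tv3218 : DT := (.nd (nat_lit 0) (.nd (nat_lit 1) (.nd (nat_lit 2) (.nd (nat_lit 3) (.nd (nat_lit 4) (.nd (nat_lit 5) (.nd (nat_lit 6) 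
(.lf (nat_lit 248448) (.g (nat_lit 1016) (.e (nat_lit 147494) (nat_lit 11) (.e (nat_lit 24665) (nat_lit 14) (.e (nat_lit 401465) (nat_lit 15) .nil))) .nil)) 
(.lf (nat_lit 248512) (.g (nat_lit 2626) (.e (nat_lit 147495) (nat_lit 11) (.e (nat_lit 24617) (nat_lit 7) (.e (nat_lit 319534) (nat_lit 16) (.e (nat_lit 286756) (nat_lit 10) (.e (nat_lit 344090) (nat_lit 18) (.e (nat_lit 5566) (nat_lit 308) (.e (nat_lit 57395) (nat_lit 8) .nil))))))) (.g (nat_lit 4) .nil .nil)))) (.nd (nat_lit 6) 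
(.lf (nat_lit 248480) (.g (nat_lit 2269) (.e (nat_lit 147495) (nat_lit 11) (.e (nat_lit 24607) (nat_lit 3) (.e (nat_lit 98372) (nat_lit 29) (.e (nat_lit 450587) (nat_lit 10) (.e (nat_lit 573454) (nat_lit 9) .nil))))) .nil)) 
(.lf (nat_lit 248544) (.g (nat_lit 2591) (.e (nat_lit 147495) (nat_lit 11) (.e (nat_lit 24639) (nat_lit 10) (.e (nat_lit 344096) (nat_lit 18) (.e (nat_lit 7122) (nat_lit 382) (.e (nat_lit 7936) (nat_lit 90) (.e (nat_lit 81963) (nat_lit 26) .nil)))))) (.g (nat_lit 4) .nil .nil))))) (.nd (nat_lit 5) (.nd (nat_lit 6) 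
(.lf (nat_lit 248464) (.g (nat_lit 4056) (.e (nat_lit 147495) (nat_lit 11) (.e (nat_lit 24604) (nat_lit 2) (.e (nat_lit 90170) (nat_lit 13) (.e (nat_lit 172106) (nat_lit 10) (.e (nat_lit 434244) (nat_lit 28) (.e (nat_lit 573448) (nat_lit 9) (.e (nat_lit 1315) (nat_lit 98) .nil))))))) (.g (nat_lit 5) .nil .nil))) 
(.lf (nat_lit 248528) (.g (nat_lit 759) (.e (nat_lit 147495) (nat_lit 11) (.e (nat_lit 24628) (nat_lit 9) (.e (nat_lit 336374) (nat_lit 27) .nil))) .nil))) (.nd (nat_lit 6) 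
(.lf (nat_lit 248496) (.g (nat_lit 1970) (.e (nat_lit 147495) (nat_lit 11) (.e (nat_lit 24617) (nat_lit 7) (.e (nat_lit 319505) (nat_lit 10) (.e (nat_lit 52) (nat_lit 0) .nil)))) .nil)) 
(.lf (nat_lit 248560) (.g (nat_lit 1398) (.e (nat_lit 147495) (nat_lit 11) (.e (nat_lit 24640) (nat_lit 10) (.e (nat_lit 344097) (nat_lit 18) (.e (nat_lit 7151) (nat_lit 382) (.e (nat_lit 7936) (nat_lit 90) .nil))))) .nil))))) (.nd (nat_lit 4) (.nd (nat_lit 5) (.nd (nat_lit 6) 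
(.lf (nat_lit 248456) (.g (nat_lit 4804) (.e (nat_lit 147495) (nat_lit 11) (.e (nat_lit 24583) (nat_lit 0) (.e (nat_lit 1803) (nat_lit 119) (.e (nat_lit 516166) (nat_lit 12) (.e (nat_lit 450587) (nat_lit 10) (.e (nat_lit 573454) (nat_lit 9) (.e (nat_lit 1315) (nat_lit 98) .nil))))))) (.g (nat_lit 5) .nil .nil))) 
(.lf (nat_lit 248520) (.g (nat_lit 513) (.e (nat_lit 147495) (nat_lit 11) (.e (nat_lit 24623) (nat_lit 9) (.e (nat_lit 335928) (nat_lit 0) .nil))) .nil))) (.nd (nat_lit 6) 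
(.lf (nat_lit 248488) (.g (nat_lit 2856) (.e (nat_lit 147495) (nat_lit 11) (.e (nat_lit 24608) (nat_lit 3) (.e (nat_lit 98381) (nat_lit 31) (.e (nat_lit 466967) (nat_lit 20) (.e (nat_lit 3305) (nat_lit 202) (.e (nat_lit 573456) (nat_lit 9) (.e (nat_lit 1312) (nat_lit 98) .nil))))))) (.g (nat_lit 5) .nil .nil))) 
(.lf (nat_lit 248552) (.g (nat_lit 2655) (.e (nat_lit 147495) (nat_lit 11) (.e (nat_lit 24640) (nat_lit 10) (.e (nat_lit 344090) (nat_lit 18) (.e (nat_lit 7122) (nat_lit 382) (.e (nat_lit 1222) (nat_lit 90) (.e (nat_lit 81963) (nat_lit 26) .nil)))))) (.g (nat_lit 5) .nil .nil))))) (.nd (nat_lit 5) (.nd (nat_lit 6) 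
(.lf (nat_lit 248472) (.g (nat_lit 1865) (.e (nat_lit 147495) (nat_lit 11) (.e (nat_lit 24604) (nat_lit 2) (.e (nat_lit 90178) (nat_lit 15) (.e (nat_lit 188441) (nat_lit 20) .nil)))) .nil)) 
(.lf (nat_lit 248536) (.g (nat_lit 1479) (.e (nat_lit 147495) (nat_lit 11) (.e (nat_lit 24638) (nat_lit 9) (.e (nat_lit 335986) (nat_lit 1) (.e (nat_lit 65280) (nat_lit 152) .nil)))) .nil))) (.nd (nat_lit 6) 
(.lf (nat_lit 248504) (.g (nat_lit 3645) (.e (nat_lit 147495) (nat_lit 11) (.e (nat_lit 24617) (nat_lit 7) (.e (nat_lit 319533) (nat_lit 16) (.e (nat_lit 286753) (nat_lit 10) (.e (nat_lit 344088) (nat_lit 18) (.e (nat_lit 5573) (nat_lit 308) (.e (nat_lit 57395) (nat_lit 8) .nil))))))) (.g (nat_lit 7) .nil .nil))) 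
(.lf (nat_lit 248568) (.g (nat_lit 1188) (.e (nat_lit 147495) (nat_lit 11) (.e (nat_lit 24640) (nat_lit 10) (.e (nat_lit 344176) (nat_lit 43) (.e (nat_lit 770070) (nat_lit 8) .nil)))) .nil)))))) (.nd (nat_lit 3) (.nd (nat_lit 4) (.nd (nat_lit 5) (.nd (nat_lit 6) 
(.lf (nat_lit 248452) (.g (nat_lit 533) (.e (nat_lit 147495) (nat_lit 11) (.e (nat_lit 24580) (nat_lit 0) (.e (nat_lit 6203) (nat_lit 332) .nil))) .nil)) 
(.lf (nat_lit 248516) (.g (nat_lit 3908) (.e (nat_lit 147495) (nat_lit 11) (.e (nat_lit 24617) (nat_lit 7) (.e (nat_lit 319534) (nat_lit 16) (.e (nat_lit 286756) (nat_lit 10) (.e (nat_lit 344160) (nat_lit 37) (.e (nat_lit 647190) (nat_lit 9) (.e (nat_lit 7936) (nat_lit 98) .nil))))))) (.g (nat_lit 6) .nil .nil)))) (.nd (nat_lit 6) 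
(.lf (nat_lit 248484) (.g (nat_lit 2885) (.e (nat_lit 147495) (nat_lit 11) (.e (nat_lit 24608) (nat_lit 3) (.e (nat_lit 98370) (nat_lit 28) (.e (nat_lit 442430) (nat_lit 24) (.e (nat_lit 229529) (nat_lit 130) .nil))))) .nil)) 
(.lf (nat_lit 248548) (.g (nat_lit 1688) (.e (nat_lit 147495) (nat_lit 11) (.e (nat_lit 24639) (nat_lit 10) (.e (nat_lit 344097) (nat_lit 18) (.e (nat_lit 7272) (nat_lit 385) (.e (nat_lit 122915) (nat_lit 14) .nil))))) .nil)))) (.nd (nat_lit 5) (.nd (nat_lit 6) 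
(.lf (nat_lit 248468) (.g (nat_lit 3648) (.e (nat_lit 147495) (nat_lit 11) (.e (nat_lit 24604) (nat_lit 2) (.e (nat_lit 90172) (nat_lit 14) (.e (nat_lit 180278) (nat_lit 32) (.e (nat_lit 1253) (nat_lit 92) (.e (nat_lit 106240) (nat_lit 5) .nil)))))) (.g (nat_lit 5) .nil .nil))) 
(.lf (nat_lit 248532) (.g (nat_lit 1109) (.e (nat_lit 147495) (nat_lit 11) (.e (nat_lit 24631) (nat_lit 9) (.e (nat_lit 335886) (nat_lit 0) (.e (nat_lit 2270) (nat_lit 149) (.e (nat_lit 769792) (nat_lit 10) .nil))))) .nil))) (.nd (nat_lit 6) 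
(.lf (nat_lit 248500) (.g (nat_lit 1519) (.e (nat_lit 147495) (nat_lit 11) (.e (nat_lit 24617) (nat_lit 7) (.e (nat_lit 319533) (nat_lit 16) (.e (nat_lit 286752) (nat_lit 10) .nil)))) .nil)) 
(.lf (nat_lit 248564) (.g (nat_lit 666) (.e (nat_lit 147495) (nat_lit 11) (.e (nat_lit 24640) (nat_lit 10) (.e (nat_lit 344099) (nat_lit 18) .nil))) .nil))))) (.nd (nat_lit 4) (.nd (nat_lit 5) (.nd (nat_lit 6) 
(.lf (nat_lit 248460) (.g (nat_lit 2322) (.e (nat_lit 147495) (nat_lit 11) (.e (nat_lit 24601) (nat_lit 2) (.e (nat_lit 90172) (nat_lit 14) (.e (nat_lit 180278) (nat_lit 32) (.e (nat_lit 1253) (nat_lit 92) (.e (nat_lit 106240) (nat_lit 5) .nil)))))) (.g (nat_lit 5) .nil .nil))) 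
(.lf (nat_lit 248524) (.g (nat_lit 913) (.e (nat_lit 147495) (nat_lit 11) (.e (nat_lit 24625) (nat_lit 9) (.e (nat_lit 336439) (nat_lit 31) .nil))) .nil))) (.nd (nat_lit 6) 
(.lf (nat_lit 248492) (.g (nat_lit 2072) (.e (nat_lit 147495) (nat_lit 11) (.e (nat_lit 24616) (nat_lit 7) (.e (nat_lit 319534) (nat_lit 16) (.e (nat_lit 286756) (nat_lit 10) (.e (nat_lit 344160) (nat_lit 37) (.e (nat_lit 647190) (nat_lit 9) (.e (nat_lit 7936) (nat_lit 98) .nil))))))) (.g (nat_lit 4) .nil .nil))) 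
(.lf (nat_lit 248556) (.g (nat_lit 1589) (.e (nat_lit 147495) (nat_lit 11) (.e (nat_lit 24640) (nat_lit 10) (.e (nat_lit 344096) (nat_lit 18) (.e (nat_lit 7261) (nat_lit 384) (.e (nat_lit 57425) (nat_lit 14) .nil))))) .nil)))) (.nd (nat_lit 5) (.nd (nat_lit 6) 
(.lf (nat_lit 248476) (.g (nat_lit 3086) (.e (nat_lit 147495) (nat_lit 11) (.e (nat_lit 24605) (nat_lit 2) (.e (nat_lit 90170) (nat_lit 13) (.e (nat_lit 172113) (nat_lit 10) (.e (nat_lit 434247) (nat_lit 28) (.e (nat_lit 573456) (nat_lit 9) (.e (nat_lit 1312) (nat_lit 98) .nil))))))) (.g (nat_lit 5) .nil .nil))) 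
(.lf (nat_lit 248540) (.g (nat_lit 2737) (.e (nat_lit 147495) (nat_lit 11) (.e (nat_lit 24639) (nat_lit 10) (.e (nat_lit 344090) (nat_lit 18) (.e (nat_lit 7265) (nat_lit 384) (.e (nat_lit 57424) (nat_lit 14) (.e (nat_lit 352323) (nat_lit 26) .nil)))))) (.g (nat_lit 5) .nil .nil)))) (.nd (nat_lit 6) 
(.lf (nat_lit 248508) (.g (nat_lit 3820) (.e (nat_lit 147495) (nat_lit 11) (.e (nat_lit 24617) (nat_lit 7) (.e (nat_lit 319533) (nat_lit 16) (.e (nat_lit 286753) (nat_lit 10) (.e (nat_lit 344160) (nat_lit 37) (.e (nat_lit 647195) (nat_lit 9) (.e (nat_lit 7936) (nat_lit 98) .nil))))))) (.g (nat_lit 6) .nil .nil))) 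
(.lf (nat_lit 248572) (.g (nat_lit 1370) (.e (nat_lit 147495) (nat_lit 11) (.e (nat_lit 24641) (nat_lit 10) (.e (nat_lit 344095) (nat_lit 18) (.e (nat_lit 7122) (nat_lit 382) (.e (nat_lit 7936) (nat_lit 90) .nil))))) .nil))))))) (.nd (nat_lit 2) (.nd (nat_lit 3) (.nd (nat_lit 4) (.nd (nat_lit 5) (.nd (nat_lit 6) 
(.lf (nat_lit 248450) (.g (nat_lit 1132) (.e (nat_lit 147494) (nat_lit 11) (.e (nat_lit 24665) (nat_lit 14) (.e (nat_lit 401472) (nat_lit 28) (.e (nat_lit 344150) (nat_lit 34) .nil)))) .nil)) 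
(.lf (nat_lit 248514) (.g (nat_lit 3120) (.e (nat_lit 147495) (nat_lit 11) (.e (nat_lit 24617) (nat_lit 7) (.e (nat_lit 319534) (nat_lit 16) (.e (nat_lit 286756) (nat_lit 10) (.e (nat_lit 344160) (nat_lit 37) (.e (nat_lit 647190) (nat_lit 9) (.e (nat_lit 1311) (nat_lit 98) .nil))))))) (.g (nat_lit 4) .nil .nil)))) (.nd (nat_lit 6) 
(.lf (nat_lit 248482) (.g (nat_lit 928) (.e (nat_lit 147495) (nat_lit 11) (.e (nat_lit 24608) (nat_lit 3) (.e (nat_lit 98342) (nat_lit 20) .nil))) .nil)) 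
(.lf (nat_lit 248546) (.g (nat_lit 2956) (.e (nat_lit 147495) (nat_lit 11) (.e (nat_lit 24639) (nat_lit 10) (.e (nat_lit 344096) (nat_lit 18) (.e (nat_lit 7265) (nat_lit 384) (.e (nat_lit 57424) (nat_lit 14) (.e (nat_lit 352323) (nat_lit 26) .nil)))))) (.g (nat_lit 5) .nil .nil))))) (.nd (nat_lit 5) (.nd (nat_lit 6) 
(.lf (nat_lit 248466) (.g (nat_lit 2944) (.e (nat_lit 147495) (nat_lit 11) (.e (nat_lit 24604) (nat_lit 2) (.e (nat_lit 90170) (nat_lit 13) (.e (nat_lit 172106) (nat_lit 10) (.e (nat_lit 434244) (nat_lit 28) (.e (nat_lit 573453) (nat_lit 9) (.e (nat_lit 1312) (nat_lit 98) .nil))))))) (.g (nat_lit 4) .nil .nil))) 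
(.lf (nat_lit 248530) (.g (nat_lit 742) (.e (nat_lit 147495) (nat_lit 11) (.e (nat_lit 24628) (nat_lit 9) (.e (nat_lit 336422) (nat_lit 28) .nil))) .nil))) (.nd (nat_lit 6) 
(.lf (nat_lit 248498) (.g (nat_lit 1417) (.e (nat_lit 147495) (nat_lit 11) (.e (nat_lit 24617) (nat_lit 7) (.e (nat_lit 319505) (nat_lit 10) (.e (nat_lit 7936) (nat_lit 64) .nil)))) .nil)) 
(.lf (nat_lit 248562) (.g (nat_lit 2915) (.e (nat_lit 147495) (nat_lit 11) (.e (nat_lit 24640) (nat_lit 10) (.e (nat_lit 344097) (nat_lit 18) (.e (nat_lit 7273) (nat_lit 385) (.e (nat_lit 122916) (nat_lit 14) (.e (nat_lit 352322) (nat_lit 26) .nil)))))) (.g (nat_lit 5) .nil .nil)))))) (.nd (nat_lit 4) (.nd (nat_lit 5) (.nd (nat_lit 6) 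
(.lf (nat_lit 248458) (.g (nat_lit 3761) (.e (nat_lit 147495) (nat_lit 11) (.e (nat_lit 24601) (nat_lit 2) (.e (nat_lit 90170) (nat_lit 13) (.e (nat_lit 172106) (nat_lit 10) (.e (nat_lit 434244) (nat_lit 28) (.e (nat_lit 573449) (nat_lit 9) (.e (nat_lit 1312) (nat_lit 98) .nil))))))) (.g (nat_lit 6) .nil .nil))) 
(.lf (nat_lit 248522) (.g (nat_lit 493) (.e (nat_lit 147495) (nat_lit 11) (.e (nat_lit 24623) (nat_lit 9) (.e (nat_lit 336048) (nat_lit 6) .nil))) .nil))) (.nd (nat_lit 6) 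
(.lf (nat_lit 248490) (.g (nat_lit 2424) (.e (nat_lit 147495) (nat_lit 11) (.e (nat_lit 24616) (nat_lit 7) (.e (nat_lit 319533) (nat_lit 16) (.e (nat_lit 286753) (nat_lit 10) (.e (nat_lit 344160) (nat_lit 37) (.e (nat_lit 647190) (nat_lit 9) (.e (nat_lit 1312) (nat_lit 98) .nil))))))) (.g (nat_lit 4) .nil .nil))) 
(.lf (nat_lit 248554) (.g (nat_lit 2728) (.e (nat_lit 147495) (nat_lit 11) (.e (nat_lit 24640) (nat_lit 10) (.e (nat_lit 344091) (nat_lit 18) (.e (nat_lit 7125) (nat_lit 382) (.e (nat_lit 1224) (nat_lit 90) (.e (nat_lit 81963) (nat_lit 26) .nil)))))) (.g (nat_lit 5) .nil .nil))))) (.nd (nat_lit 5) (.nd (nat_lit 6) 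
(.lf (nat_lit 248474) (.g (nat_lit 3847) (.e (nat_lit 147495) (nat_lit 11) (.e (nat_lit 24605) (nat_lit 2) (.e (nat_lit 90170) (nat_lit 13) (.e (nat_lit 172106) (nat_lit 10) (.e (nat_lit 434244) (nat_lit 28) (.e (nat_lit 573451) (nat_lit 9) (.e (nat_lit 1310) (nat_lit 98) .nil))))))) (.g (nat_lit 6) .nil .nil))) 
(.lf (nat_lit 248538) (.g (nat_lit 1443) (.e (nat_lit 147495) (nat_lit 11) (.e (nat_lit 24638) (nat_lit 9) (.e (nat_lit 335988) (nat_lit 1) (.e (nat_lit 57664) (nat_lit 152) .nil)))) .nil))) (.nd (nat_lit 6) 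
(.lf (nat_lit 248506) (.g (nat_lit 4445) (.e (nat_lit 147495) (nat_lit 11) (.e (nat_lit 24617) (nat_lit 7) (.e (nat_lit 319533) (nat_lit 16) (.e (nat_lit 286753) (nat_lit 10) (.e (nat_lit 344160) (nat_lit 37) (.e (nat_lit 647190) (nat_lit 9) (.e (nat_lit 1312) (nat_lit 98) .nil))))))) (.g (nat_lit 0) .nil .nil))) 
(.lf (nat_lit 248570) (.g (nat_lit 1310) (.e (nat_lit 147495) (nat_lit 11) (.e (nat_lit 24640) (nat_lit 10) (.e (nat_lit 344177) (nat_lit 43) (.e (nat_lit 777984) (nat_lit 10) .nil)))) .nil)))))) (.nd (nat_lit 3) (.nd (nat_lit 4) (.nd (nat_lit 5) (.nd (nat_lit 6) 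
(.lf (nat_lit 248454) (.g (nat_lit 527) (.e (nat_lit 147495) (nat_lit 11) (.e (nat_lit 24580) (nat_lit 0) (.e (nat_lit 6514) (nat_lit 346) .nil))) .nil)) 
(.lf (nat_lit 248518) (.g (nat_lit 3886) (.e (nat_lit 147495) (nat_lit 11) (.e (nat_lit 24617) (nat_lit 7) (.e (nat_lit 319534) (nat_lit 16) (.e (nat_lit 286756) (nat_lit 10) (.e (nat_lit 344160) (nat_lit 37) (.e (nat_lit 647195) (nat_lit 9) (.e (nat_lit 7936) (nat_lit 98) .nil))))))) (.g (nat_lit 6) .nil .nil)))) (.nd (nat_lit 6) 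
(.lf (nat_lit 248486) (.g (nat_lit 4498) (.e (nat_lit 147495) (nat_lit 11) (.e (nat_lit 24608) (nat_lit 3) (.e (nat_lit 98372) (nat_lit 29) (.e (nat_lit 450588) (nat_lit 10) (.e (nat_lit 573454) (nat_lit 9) .nil))))) .nil)) 
(.lf (nat_lit 248550) (.g (nat_lit 1404) (.e (nat_lit 147495) (nat_lit 11) (.e (nat_lit 24640) (nat_lit 10) (.e (nat_lit 344088) (nat_lit 18) (.e (nat_lit 7122) (nat_lit 382) (.e (nat_lit 7936) (nat_lit 90) .nil))))) .nil)))) (.nd (nat_lit 5) (.nd (nat_lit 6) 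
(.lf (nat_lit 248470) (.g (nat_lit 2824) (.e (nat_lit 147495) (nat_lit 11) (.e (nat_lit 24604) (nat_lit 2) (.e (nat_lit 90176) (nat_lit 15) (.e (nat_lit 188440) (nat_lit 20) (.e (nat_lit 3307) (nat_lit 202) (.e (nat_lit 573456) (nat_lit 9) (.e (nat_lit 1312) (nat_lit 98) .nil))))))) (.g (nat_lit 4) .nil .nil))) 
(.lf (nat_lit 248534) (.g (nat_lit 1529) (.e (nat_lit 147495) (nat_lit 11) (.e (nat_lit 24638) (nat_lit 9) (.e (nat_lit 335986) (nat_lit 1) (.e (nat_lit 57657) (nat_lit 152) .nil)))) .nil))) (.nd (nat_lit 6) 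
(.lf (nat_lit 248502) (.g (nat_lit 3064) (.e (nat_lit 147495) (nat_lit 11) (.e (nat_lit 24617) (nat_lit 7) (.e (nat_lit 319533) (nat_lit 16) (.e (nat_lit 286753) (nat_lit 10) (.e (nat_lit 344088) (nat_lit 18) (.e (nat_lit 5567) (nat_lit 308) (.e (nat_lit 57395) (nat_lit 8) .nil))))))) (.g (nat_lit 4) .nil .nil))) 
(.lf (nat_lit 248566) (.g (nat_lit 678) (.e (nat_lit 147495) (nat_lit 11) (.e (nat_lit 24640) (nat_lit 10) (.e (nat_lit 344173) (nat_lit 42) (.e (nat_lit 761869) (nat_lit 5) .nil)))) .nil))))) (.nd (nat_lit 4) (.nd (nat_lit 5) (.nd (nat_lit 6) 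
(.lf (nat_lit 248462) (.g (nat_lit 814) (.e (nat_lit 147495) (nat_lit 11) (.e (nat_lit 24604) (nat_lit 2) (.e (nat_lit 90162) (nat_lit 12) .nil))) .nil)) 
(.lf (nat_lit 248526) (.g (nat_lit 742) (.e (nat_lit 147495) (nat_lit 11) (.e (nat_lit 24628) (nat_lit 9) (.e (nat_lit 335999) (nat_lit 1) .nil))) .nil))) (.nd (nat_lit 6) 
(.lf (nat_lit 248494) (.g (nat_lit 385) (.e (nat_lit 147495) (nat_lit 11) (.e (nat_lit 24617) (nat_lit 7) (.e (nat_lit 319490) (nat_lit 0) .nil))) .nil)) 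
(.lf (nat_lit 248558) (.g (nat_lit 1412) (.e (nat_lit 147495) (nat_lit 11) (.e (nat_lit 24640) (nat_lit 10) (.e (nat_lit 344097) (nat_lit 18) (.e (nat_lit 7144) (nat_lit 382) (.e (nat_lit 1217) (nat_lit 90) .nil))))) .nil)))) (.nd (nat_lit 5) (.nd (nat_lit 6) 
(.lf (nat_lit 248478) (.g (nat_lit 3616) (.e (nat_lit 147495) (nat_lit 11) (.e (nat_lit 24605) (nat_lit 2) (.e (nat_lit 90170) (nat_lit 13) (.e (nat_lit 172113) (nat_lit 10) (.e (nat_lit 434248) (nat_lit 28) (.e (nat_lit 573454) (nat_lit 9) (.e (nat_lit 1315) (nat_lit 98) .nil))))))) (.g (nat_lit 5) .nil .nil))) 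
(.lf (nat_lit 248542) (.g (nat_lit 2512) (.e (nat_lit 147495) (nat_lit 11) (.e (nat_lit 24639) (nat_lit 10) (.e (nat_lit 344095) (nat_lit 18) (.e (nat_lit 7122) (nat_lit 382) (.e (nat_lit 1222) (nat_lit 90) (.e (nat_lit 81963) (nat_lit 26) .nil)))))) (.g (nat_lit 5) .nil .nil)))) (.nd (nat_lit 6) 
(.lf (nat_lit 248510) (.g (nat_lit 2194) (.e (nat_lit 147495) (nat_lit 11) (.e (nat_lit 24617) (nat_lit 7) (.e (nat_lit 319533) (nat_lit 16) (.e (nat_lit 286754) (nat_lit 10) (.e (nat_lit 344091) (nat_lit 18) .nil))))) .nil)) 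
(.lf (nat_lit 248574) (.g (nat_lit 2043) (.e (nat_lit 147495) (nat_lit 11) (.e (nat_lit 24641) (nat_lit 10) (.e (nat_lit 344096) (nat_lit 18) (.e (nat_lit 7122) (nat_lit 382) (.e (nat_lit 7936) (nat_lit 90) .nil))))) .nil)))))))) (.nd (nat_lit 1) (.nd (nat_lit 2) (.nd (nat_lit 3) (.nd (nat_lit 4) (.nd (nat_lit 5) (.nd (nat_lit 6) 
(.lf (nat_lit 248449) (.g (nat_lit 1046) (.e (nat_lit 147494) (nat_lit 11) (.e (nat_lit 24665) (nat_lit 14) (.e (nat_lit 401467) (nat_lit 27) .nil))) .nil)) 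
(.lf (nat_lit 248513) (.g (nat_lit 2871) (.e (nat_lit 147495) (nat_lit 11) (.e (nat_lit 24617) (nat_lit 7) (.e (nat_lit 319534) (nat_lit 16) (.e (nat_lit 286756) (nat_lit 10) (.e (nat_lit 344090) (nat_lit 18) (.e (nat_lit 5569) (nat_lit 308) (.e (nat_lit 57395) (nat_lit 8) .nil))))))) (.g (nat_lit 4) .nil .nil)))) (.nd (nat_lit 6) 
(.lf (nat_lit 248481) (.g (nat_lit 4298) (.e (nat_lit 147495) (nat_lit 11) (.e (nat_lit 24607) (nat_lit 3) (.e (nat_lit 98373) (nat_lit 29) (.e (nat_lit 450588) (nat_lit 10) (.e (nat_lit 573454) (nat_lit 9) .nil))))) .nil)) 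
(.lf (nat_lit 248545) (.g (nat_lit 1166) (.e (nat_lit 147495) (nat_lit 11) (.e (nat_lit 24639) (nat_lit 10) (.e (nat_lit 344096) (nat_lit 18) (.e (nat_lit 7132) (nat_lit 382) (.e (nat_lit 7936) (nat_lit 90) .nil))))) .nil)))) (.nd (nat_lit 5) (.nd (nat_lit 6) 
(.lf (nat_lit 248465) (.g (nat_lit 4726) (.e (nat_lit 147495) (nat_lit 11) (.e (nat_lit 24604) (nat_lit 2) (.e (nat_lit 90170) (nat_lit 13) (.e (nat_lit 172106) (nat_lit 10) (.e (nat_lit 434244) (nat_lit 28) (.e (nat_lit 573449) (nat_lit 9) (.e (nat_lit 1312) (nat_lit 98) .nil))))))) (.g (nat_lit 7) .nil .nil))) 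
(.lf (nat_lit 248529) (.g (nat_lit 742) (.e (nat_lit 147495) (nat_lit 11) (.e (nat_lit 24628) (nat_lit 9) (.e (nat_lit 336395) (nat_lit 27) .nil))) .nil))) (.nd (nat_lit 6) 
(.lf (nat_lit 248497) (.g (nat_lit 1596) (.e (nat_lit 147495) (nat_lit 11) (.e (nat_lit 24617) (nat_lit 7) (.e (nat_lit 319505) (nat_lit 10) (.e (nat_lit 720) (nat_lit 64) .nil)))) .nil)) 
(.lf (nat_lit 248561) (.g (nat_lit 2702) (.e (nat_lit 147495) (nat_lit 11) (.e (nat_lit 24640) (nat_lit 10) (.e (nat_lit 344097) (nat_lit 18) (.e (nat_lit 7270) (nat_lit 385) (.e (nat_lit 122915) (nat_lit 14) (.e (nat_lit 352322) (nat_lit 26) .nil)))))) (.g (nat_lit 4) .nil .nil)))))) (.nd (nat_lit 4) (.nd (nat_lit 5) (.nd (nat_lit 6) 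
(.lf (nat_lit 248457) (.g (nat_lit 4537) (.e (nat_lit 147495) (nat_lit 11) (.e (nat_lit 24583) (nat_lit 0) (.e (nat_lit 1812) (nat_lit 120) (.e (nat_lit 524322) (nat_lit 12) (.e (nat_lit 450588) (nat_lit 10) (.e (nat_lit 573454) (nat_lit 9) (.e (nat_lit 1315) (nat_lit 98) .nil))))))) (.g (nat_lit 5) .nil .nil))) 
(.lf (nat_lit 248521) (.g (nat_lit 513) (.e (nat_lit 147495) (nat_lit 11) (.e (nat_lit 24623) (nat_lit 9) (.e (nat_lit 335985) (nat_lit 1) .nil))) .nil))) (.nd (nat_lit 6) 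
(.lf (nat_lit 248489) (.g (nat_lit 3948) (.e (nat_lit 147495) (nat_lit 11) (.e (nat_lit 24609) (nat_lit 3) (.e (nat_lit 98373) (nat_lit 29) (.e (nat_lit 450588) (nat_lit 10) (.e (nat_lit 573454) (nat_lit 9) .nil))))) .nil)) 
(.lf (nat_lit 248553) (.g (nat_lit 2963) (.e (nat_lit 147495) (nat_lit 11) (.e (nat_lit 24640) (nat_lit 10) (.e (nat_lit 344091) (nat_lit 18) (.e (nat_lit 7125) (nat_lit 382) (.e (nat_lit 1222) (nat_lit 90) (.e (nat_lit 81963) (nat_lit 26) .nil)))))) (.g (nat_lit 5) .nil .nil))))) (.nd (nat_lit 5) (.nd (nat_lit 6) 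
(.lf (nat_lit 248473) (.g (nat_lit 3373) (.e (nat_lit 147495) (nat_lit 11) (.e (nat_lit 24605) (nat_lit 2) (.e (nat_lit 90170) (nat_lit 13) (.e (nat_lit 172106) (nat_lit 10) (.e (nat_lit 434244) (nat_lit 28) (.e (nat_lit 573449) (nat_lit 9) (.e (nat_lit 1312) (nat_lit 98) .nil))))))) (.g (nat_lit 5) .nil .nil))) 
(.lf (nat_lit 248537) (.g (nat_lit 1742) (.e (nat_lit 147495) (nat_lit 11) (.e (nat_lit 24638) (nat_lit 9) (.e (nat_lit 335988) (nat_lit 1) (.e (nat_lit 57663) (nat_lit 152) .nil)))) .nil))) (.nd (nat_lit 6) 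
(.lf (nat_lit 248505) (.g (nat_lit 3721) (.e (nat_lit 147495) (nat_lit 11) (.e (nat_lit 24617) (nat_lit 7) (.e (nat_lit 319533) (nat_lit 16) (.e (nat_lit 286753) (nat_lit 10) (.e (nat_lit 344160) (nat_lit 37) (.e (nat_lit 647190) (nat_lit 9) (.e (nat_lit 1311) (nat_lit 98) .nil))))))) (.g (nat_lit 6) .nil .nil))) 
(.lf (nat_lit 248569) (.g (nat_lit 1984) (.e (nat_lit 147495) (nat_lit 11) (.e (nat_lit 24640) (nat_lit 10) (.e (nat_lit 344176) (nat_lit 43) (.e (nat_lit 770072) (nat_lit 8) (.e (nat_lit 73472) (nat_lit 9) .nil))))) .nil)))))) (.nd (nat_lit 3) (.nd (nat_lit 4) (.nd (nat_lit 5) (.nd (nat_lit 6) 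
(.lf (nat_lit 248453) (.g (nat_lit 515) (.e (nat_lit 147495) (nat_lit 11) (.e (nat_lit 24580) (nat_lit 0) (.e (nat_lit 6235) (nat_lit 335) .nil))) .nil)) 
(.lf (nat_lit 248517) (.g (nat_lit 4047) (.e (nat_lit 147495) (nat_lit 11) (.e (nat_lit 24617) (nat_lit 7) (.e (nat_lit 319534) (nat_lit 16) (.e (nat_lit 286756) (nat_lit 10) (.e (nat_lit 344160) (nat_lit 37) (.e (nat_lit 647195) (nat_lit 9) (.e (nat_lit 1310) (nat_lit 98) .nil))))))) (.g (nat_lit 6) .nil .nil)))) (.nd (nat_lit 6) 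
(.lf (nat_lit 248485) (.g (nat_lit 3970) (.e (nat_lit 147495) (nat_lit 11) (.e (nat_lit 24608) (nat_lit 3) (.e (nat_lit 98372) (nat_lit 29) (.e (nat_lit 450586) (nat_lit 10) (.e (nat_lit 573456) (nat_lit 9) (.e (nat_lit 1312) (nat_lit 98) .nil)))))) (.g (nat_lit 5) .nil .nil))) 
(.lf (nat_lit 248549) (.g (nat_lit 1583) (.e (nat_lit 147495) (nat_lit 11) (.e (nat_lit 24639) (nat_lit 10) (.e (nat_lit 344176) (nat_lit 43) (.e (nat_lit 770074) (nat_lit 10) (.e (nat_lit 81965) (nat_lit 26) .nil))))) .nil)))) (.nd (nat_lit 5) (.nd (nat_lit 6) 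
(.lf (nat_lit 248469) (.g (nat_lit 1737) (.e (nat_lit 147495) (nat_lit 11) (.e (nat_lit 24604) (nat_lit 2) (.e (nat_lit 90174) (nat_lit 14) (.e (nat_lit 180277) (nat_lit 32) .nil)))) .nil)) 
(.lf (nat_lit 248533) (.g (nat_lit 653) (.e (nat_lit 147495) (nat_lit 11) (.e (nat_lit 24631) (nat_lit 9) (.e (nat_lit 336412) (nat_lit 27) (.e (nat_lit 426344) (nat_lit 14) .nil)))) .nil))) (.nd (nat_lit 6) 
(.lf (nat_lit 248501) (.g (nat_lit 1453) (.e (nat_lit 147495) (nat_lit 11) (.e (nat_lit 24617) (nat_lit 7) (.e (nat_lit 319533) (nat_lit 16) (.e (nat_lit 286753) (nat_lit 10) .nil)))) .nil)) 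
(.lf (nat_lit 248565) (.g (nat_lit 539) (.e (nat_lit 147495) (nat_lit 11) (.e (nat_lit 24640) (nat_lit 10) (.e (nat_lit 344173) (nat_lit 42) .nil))) .nil))))) (.nd (nat_lit 4) (.nd (nat_lit 5) (.nd (nat_lit 6) 
(.lf (nat_lit 248461) (.g (nat_lit 2571) (.e (nat_lit 147495) (nat_lit 11) (.e (nat_lit 24603) (nat_lit 2) (.e (nat_lit 90167) (nat_lit 13) (.e (nat_lit 172126) (nat_lit 14) (.e (nat_lit 491540) (nat_lit 3) (.e (nat_lit 106240) (nat_lit 5) .nil)))))) (.g (nat_lit 5) .nil .nil))) 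
(.lf (nat_lit 248525) (.g (nat_lit 772) (.e (nat_lit 147495) (nat_lit 11) (.e (nat_lit 24627) (nat_lit 9) (.e (nat_lit 336436) (nat_lit 31) .nil))) .nil))) (.nd (nat_lit 6) 
(.lf (nat_lit 248493) (.g (nat_lit 2050) (.e (nat_lit 147495) (nat_lit 11) (.e (nat_lit 24616) (nat_lit 7) (.e (nat_lit 319534) (nat_lit 16) (.e (nat_lit 286756) (nat_lit 10) (.e (nat_lit 344160) (nat_lit 37) (.e (nat_lit 647195) (nat_lit 9) (.e (nat_lit 7936) (nat_lit 98) .nil))))))) (.g (nat_lit 4) .nil .nil))) 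
(.lf (nat_lit 248557) (.g (nat_lit 368) (.e (nat_lit 147495) (nat_lit 11) (.e (nat_lit 24640) (nat_lit 10) (.e (nat_lit 344097) (nat_lit 18) .nil))) .nil)))) (.nd (nat_lit 5) (.nd (nat_lit 6) 
(.lf (nat_lit 248477) (.g (nat_lit 2395) (.e (nat_lit 147495) (nat_lit 11) (.e (nat_lit 24605) (nat_lit 2) (.e (nat_lit 90170) (nat_lit 13) (.e (nat_lit 172113) (nat_lit 10) (.e (nat_lit 434248) (nat_lit 28) (.e (nat_lit 573452) (nat_lit 9) (.e (nat_lit 1310) (nat_lit 98) .nil))))))) (.g (nat_lit 4) .nil .nil))) 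
(.lf (nat_lit 248541) (.g (nat_lit 2034) (.e (nat_lit 147495) (nat_lit 11) (.e (nat_lit 24639) (nat_lit 10) (.e (nat_lit 344091) (nat_lit 18) (.e (nat_lit 7265) (nat_lit 384) (.e (nat_lit 57424) (nat_lit 14) (.e (nat_lit 352323) (nat_lit 26) .nil)))))) (.g (nat_lit 4) .nil .nil)))) (.nd (nat_lit 6) 
(.lf (nat_lit 248509) (.g (nat_lit 1840) (.e (nat_lit 147495) (nat_lit 11) (.e (nat_lit 24617) (nat_lit 7) (.e (nat_lit 319533) (nat_lit 16) (.e (nat_lit 286754) (nat_lit 10) .nil)))) .nil)) 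
(.lf (nat_lit 248573) (.g (nat_lit 1903) (.e (nat_lit 147495) (nat_lit 11) (.e (nat_lit 24641) (nat_lit 10) (.e (nat_lit 344096) (nat_lit 18) (.e (nat_lit 7122) (nat_lit 382) (.e (nat_lit 1222) (nat_lit 90) .nil))))) .nil))))))) (.nd (nat_lit 2) (.nd (nat_lit 3) (.nd (nat_lit 4) (.nd (nat_lit 5) (.nd (nat_lit 6) 
(.lf (nat_lit 248451) (.g (nat_lit 528) (.e (nat_lit 147495) (nat_lit 11) (.e (nat_lit 24580) (nat_lit 0) (.e (nat_lit 6079) (nat_lit 332) .nil))) .nil)) 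
(.lf (nat_lit 248515) (.g (nat_lit 3953) (.e (nat_lit 147495) (nat_lit 11) (.e (nat_lit 24617) (nat_lit 7) (.e (nat_lit 319534) (nat_lit 16) (.e (nat_lit 286756) (nat_lit 10) (.e (nat_lit 344160) (nat_lit 37) (.e (nat_lit 647190) (nat_lit 9) (.e (nat_lit 1312) (nat_lit 98) .nil))))))) (.g (nat_lit 6) .nil .nil)))) (.nd (nat_lit 6) 
(.lf (nat_lit 248483) (.g (nat_lit 930) (.e (nat_lit 147495) (nat_lit 11) (.e (nat_lit 24608) (nat_lit 3) (.e (nat_lit 98365) (nat_lit 26) (.e (nat_lit 426298) (nat_lit 11) .nil)))) .nil)) 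
(.lf (nat_lit 248547) (.g (nat_lit 2670) (.e (nat_lit 147495) (nat_lit 11) (.e (nat_lit 24639) (nat_lit 10) (.e (nat_lit 344097) (nat_lit 18) (.e (nat_lit 7270) (nat_lit 385) (.e (nat_lit 122915) (nat_lit 14) (.e (nat_lit 352322) (nat_lit 26) .nil)))))) (.g (nat_lit 4) .nil .nil))))) (.nd (nat_lit 5) (.nd (nat_lit 6) 
(.lf (nat_lit 248467) (.g (nat_lit 3311) (.e (nat_lit 147495) (nat_lit 11) (.e (nat_lit 24604) (nat_lit 2) (.e (nat_lit 90172) (nat_lit 14) (.e (nat_lit 180278) (nat_lit 32) (.e (nat_lit 1252) (nat_lit 92) (.e (nat_lit 106240) (nat_lit 5) .nil)))))) (.g (nat_lit 4) .nil .nil))) 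
(.lf (nat_lit 248531) (.g (nat_lit 742) (.e (nat_lit 147495) (nat_lit 11) (.e (nat_lit 24628) (nat_lit 9) (.e (nat_lit 336425) (nat_lit 28) .nil))) .nil))) (.nd (nat_lit 6) 
(.lf (nat_lit 248499) (.g (nat_lit 2064) (.e (nat_lit 147495) (nat_lit 11) (.e (nat_lit 24617) (nat_lit 7) (.e (nat_lit 319533) (nat_lit 16) (.e (nat_lit 286751) (nat_lit 10) .nil)))) .nil)) 
(.lf (nat_lit 248563) (.g (nat_lit 659) (.e (nat_lit 147495) (nat_lit 11) (.e (nat_lit 24640) (nat_lit 10) (.e (nat_lit 344098) (nat_lit 18) .nil))) .nil))))) (.nd (nat_lit 4) (.nd (nat_lit 5) (.nd (nat_lit 6) 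
(.lf (nat_lit 248459) (.g (nat_lit 1985) (.e (nat_lit 147495) (nat_lit 11) (.e (nat_lit 24601) (nat_lit 2) (.e (nat_lit 90172) (nat_lit 14) (.e (nat_lit 180278) (nat_lit 32) (.e (nat_lit 1252) (nat_lit 92) (.e (nat_lit 106240) (nat_lit 5) .nil)))))) (.g (nat_lit 4) .nil .nil))) 
(.lf (nat_lit 248523) (.g (nat_lit 852) (.e (nat_lit 147495) (nat_lit 11) (.e (nat_lit 24623) (nat_lit 9) (.e (nat_lit 336422) (nat_lit 28) (.e (nat_lit 434179) (nat_lit 0) .nil)))) .nil))) (.nd (nat_lit 6) 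
(.lf (nat_lit 248491) (.g (nat_lit 2487) (.e (nat_lit 147495) (nat_lit 11) (.e (nat_lit 24616) (nat_lit 7) (.e (nat_lit 319533) (nat_lit 16) (.e (nat_lit 286753) (nat_lit 10) (.e (nat_lit 344160) (nat_lit 37) (.e (nat_lit 647195) (nat_lit 9) (.e (nat_lit 1310) (nat_lit 98) .nil))))))) (.g (nat_lit 4) .nil .nil))) 
(.lf (nat_lit 248555) (.g (nat_lit 2774) (.e (nat_lit 147495) (nat_lit 11) (.e (nat_lit 24640) (nat_lit 10) (.e (nat_lit 344095) (nat_lit 18) (.e (nat_lit 7122) (nat_lit 382) (.e (nat_lit 1222) (nat_lit 90) (.e (nat_lit 81963) (nat_lit 26) .nil)))))) (.g (nat_lit 5) .nil .nil))))) (.nd (nat_lit 5) (.nd (nat_lit 6) 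
(.lf (nat_lit 248475) (.g (nat_lit 2878) (.e (nat_lit 147495) (nat_lit 11) (.e (nat_lit 24605) (nat_lit 2) (.e (nat_lit 90170) (nat_lit 13) (.e (nat_lit 172106) (nat_lit 10) (.e (nat_lit 434244) (nat_lit 28) (.e (nat_lit 573451) (nat_lit 9) (.e (nat_lit 7936) (nat_lit 98) .nil))))))) (.g (nat_lit 5) .nil .nil))) 
(.lf (nat_lit 248539) (.g (nat_lit 1550) (.e (nat_lit 147495) (nat_lit 11) (.e (nat_lit 24638) (nat_lit 9) (.e (nat_lit 335988) (nat_lit 1) (.e (nat_lit 57674) (nat_lit 152) .nil)))) .nil))) (.nd (nat_lit 6) 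
(.lf (nat_lit 248507) (.g (nat_lit 4315) (.e (nat_lit 147495) (nat_lit 11) (.e (nat_lit 24617) (nat_lit 7) (.e (nat_lit 319533) (nat_lit 16) (.e (nat_lit 286753) (nat_lit 10) (.e (nat_lit 344160) (nat_lit 37) (.e (nat_lit 647190) (nat_lit 9) (.e (nat_lit 7936) (nat_lit 98) .nil))))))) (.g (nat_lit 6) .nil .nil))) 
(.lf (nat_lit 248571) (.g (nat_lit 458) (.e (nat_lit 147495) (nat_lit 11) (.e (nat_lit 24640) (nat_lit 10) (.e (nat_lit 352000) (nat_lit 46) .nil))) .nil)))))) (.nd (nat_lit 3) (.nd (nat_lit 4) (.nd (nat_lit 5) (.nd (nat_lit 6) 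
(.lf (nat_lit 248455) (.g (nat_lit 1664) (.e (nat_lit 147495) (nat_lit 11) (.e (nat_lit 24580) (nat_lit 0) (.e (nat_lit 6712) (nat_lit 360) (.e (nat_lit 164020) (nat_lit 45) .nil)))) .nil)) 
(.lf (nat_lit 248519) (.g (nat_lit 1398) (.e (nat_lit 147495) (nat_lit 11) (.e (nat_lit 24623) (nat_lit 9) (.e (nat_lit 335886) (nat_lit 0) (.e (nat_lit 2270) (nat_lit 149) (.e (nat_lit 769792) (nat_lit 10) .nil))))) .nil))) (.nd (nat_lit 6) 
(.lf (nat_lit 248487) (.g (nat_lit 4465) (.e (nat_lit 147495) (nat_lit 11) (.e (nat_lit 24608) (nat_lit 3) (.e (nat_lit 98373) (nat_lit 29) (.e (nat_lit 450588) (nat_lit 10) (.e (nat_lit 573449) (nat_lit 9) .nil))))) .nil)) 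
(.lf (nat_lit 248551) (.g (nat_lit 2592) (.e (nat_lit 147495) (nat_lit 11) (.e (nat_lit 24640) (nat_lit 10) (.e (nat_lit 344088) (nat_lit 18) (.e (nat_lit 7125) (nat_lit 382) (.e (nat_lit 1222) (nat_lit 90) (.e (nat_lit 81963) (nat_lit 26) .nil)))))) (.g (nat_lit 5) .nil .nil))))) (.nd (nat_lit 5) (.nd (nat_lit 6) 
(.lf (nat_lit 248471) (.g (nat_lit 4923) (.e (nat_lit 147495) (nat_lit 11) (.e (nat_lit 24604) (nat_lit 2) (.e (nat_lit 90178) (nat_lit 15) (.e (nat_lit 188440) (nat_lit 20) (.e (nat_lit 3307) (nat_lit 202) (.e (nat_lit 573456) (nat_lit 9) (.e (nat_lit 1312) (nat_lit 98) .nil))))))) (.g (nat_lit 6) .nil .nil))) 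
(.lf (nat_lit 248535) (.g (nat_lit 1480) (.e (nat_lit 147495) (nat_lit 11) (.e (nat_lit 24638) (nat_lit 9) (.e (nat_lit 335986) (nat_lit 1) (.e (nat_lit 57664) (nat_lit 152) .nil)))) .nil))) (.nd (nat_lit 6) 
(.lf (nat_lit 248503) (.g (nat_lit 2883) (.e (nat_lit 147495) (nat_lit 11) (.e (nat_lit 24617) (nat_lit 7) (.e (nat_lit 319533) (nat_lit 16) (.e (nat_lit 286753) (nat_lit 10) (.e (nat_lit 344088) (nat_lit 18) (.e (nat_lit 5569) (nat_lit 308) (.e (nat_lit 57395) (nat_lit 8) .nil))))))) (.g (nat_lit 4) .nil .nil))) 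
(.lf (nat_lit 248567) (.g (nat_lit 1373) (.e (nat_lit 147495) (nat_lit 11) (.e (nat_lit 24640) (nat_lit 10) (.e (nat_lit 344176) (nat_lit 43) (.e (nat_lit 770054) (nat_lit 5) .nil)))) .nil))))) (.nd (nat_lit 4) (.nd (nat_lit 5) (.nd (nat_lit 6) 
(.lf (nat_lit 248463) (.g (nat_lit 3492) (.e (nat_lit 147495) (nat_lit 11) (.e (nat_lit 24604) (nat_lit 2) (.e (nat_lit 90167) (nat_lit 13) (.e (nat_lit 172126) (nat_lit 14) (.e (nat_lit 491537) (nat_lit 2) (.e (nat_lit 90133) (nat_lit 9) (.e (nat_lit 144) (nat_lit 8) .nil))))))) (.g (nat_lit 5) .nil .nil))) 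
(.lf (nat_lit 248527) (.g (nat_lit 493) (.e (nat_lit 147495) (nat_lit 11) (.e (nat_lit 24628) (nat_lit 9) (.e (nat_lit 336000) (nat_lit 1) .nil))) .nil))) (.nd (nat_lit 6) 
(.lf (nat_lit 248495) (.g (nat_lit 554) (.e (nat_lit 147495) (nat_lit 11) (.e (nat_lit 24617) (nat_lit 7) (.e (nat_lit 319503) (nat_lit 10) .nil))) .nil)) 
(.lf (nat_lit 248559) (.g (nat_lit 3228) (.e (nat_lit 147495) (nat_lit 11) (.e (nat_lit 24640) (nat_lit 10) (.e (nat_lit 344097) (nat_lit 18) (.e (nat_lit 7147) (nat_lit 382) (.e (nat_lit 1217) (nat_lit 90) (.e (nat_lit 81963) (nat_lit 26) .nil)))))) (.g (nat_lit 0) .nil .nil))))) (.nd (nat_lit 5) (.nd (nat_lit 6) 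
(.lf (nat_lit 248479) (.g (nat_lit 2194) (.e (nat_lit 147495) (nat_lit 11) (.e (nat_lit 24607) (nat_lit 3) (.e (nat_lit 98333) (nat_lit 18) (.e (nat_lit 164226) (nat_lit 181) (.e (nat_lit 2617) (nat_lit 164) .nil))))) .nil)) 
(.lf (nat_lit 248543) (.g (nat_lit 3180) (.e (nat_lit 147495) (nat_lit 11) (.e (nat_lit 24639) (nat_lit 10) (.e (nat_lit 344096) (nat_lit 18) (.e (nat_lit 7122) (nat_lit 382) (.e (nat_lit 1222) (nat_lit 90) (.e (nat_lit 81963) (nat_lit 26) .nil)))))) (.g (nat_lit 5) .nil .nil)))) (.nd (nat_lit 6) 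
(.lf (nat_lit 248511) (.g (nat_lit 2515) (.e (nat_lit 147495) (nat_lit 11) (.e (nat_lit 24617) (nat_lit 7) (.e (nat_lit 319534) (nat_lit 16) (.e (nat_lit 286756) (nat_lit 10) (.e (nat_lit 344088) (nat_lit 18) (.e (nat_lit 5573) (nat_lit 308) (.e (nat_lit 57395) (nat_lit 8) .nil))))))) (.g (nat_lit 4) .nil .nil))) 
(.lf (nat_lit 248575) (.g (nat_lit 1025) (.e (nat_lit 147495) (nat_lit 11) (.e (nat_lit 24641) (nat_lit 10) (.e (nat_lit 344174) (nat_lit 42) (.e (nat_lit 769792) (nat_lit 10) .nil)))) .nil)))))))))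

noncomputable def tv3219 : DT := (.nd (nat_lit 0) (.nd (nat_lit 1) (.nd (nat_lit 2) (.nd (nat_lit 3) (.nd (nat_lit 4) (.nd (nat_lit 5) (.nd (nat_lit 6) 
(.lf (nat_lit 248576) (.g (nat_lit 2053) (.e (nat_lit 147495) (nat_lit 11) (.e (nat_lit 24641) (nat_lit 10) (.e (nat_lit 344177) (nat_lit 43) (.e (nat_lit 770074) (nat_lit 10) (.e (nat_lit 81963) (nat_lit 26) .nil))))) .nil)) 
(.lf (nat_lit 248640) (.g (nat_lit 2541) (.e (nat_lit 147495) (nat_lit 11) (.e (nat_lit 24665) (nat_lit 14) (.e (nat_lit 401448) (nat_lit 10) (.e (nat_lit 434270) (nat_lit 38) .nil)))) .nil))) (.nd (nat_lit 6) 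
(.lf (nat_lit 248608) (.g (nat_lit 1618) (.e (nat_lit 147495) (nat_lit 11) (.e (nat_lit 24659) (nat_lit 13) (.e (nat_lit 393301) (nat_lit 27) (.e (nat_lit 491552) (nat_lit 9) .nil)))) .nil)) 
(.lf (nat_lit 248672) (.g (nat_lit 3343) (.e (nat_lit 147496) (nat_lit 11) (.e (nat_lit 24608) (nat_lit 3) (.e (nat_lit 98372) (nat_lit 29) (.e (nat_lit 450586) (nat_lit 10) (.e (nat_lit 573454) (nat_lit 9) (.e (nat_lit 1315) (nat_lit 98) .nil)))))) (.g (nat_lit 4) .nil .nil))))) (.nd (nat_lit 5) (.nd (nat_lit 6) 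
(.lf (nat_lit 248592) (.g (nat_lit 431) (.e (nat_lit 147495) (nat_lit 11) (.e (nat_lit 24655) (nat_lit 13) (.e (nat_lit 393273) (nat_lit 23) .nil))) .nil)) 
(.lf (nat_lit 248656) (.g (nat_lit 3547) (.e (nat_lit 147496) (nat_lit 11) (.e (nat_lit 24584) (nat_lit 0) (.e (nat_lit 6113) (nat_lit 332) (.e (nat_lit 968) (nat_lit 81) (.e (nat_lit 720) (nat_lit 64) (.e (nat_lit 688186) (nat_lit 18) (.e (nat_lit 81965) (nat_lit 26) .nil))))))) (.g (nat_lit 0) .nil .nil)))) (.nd (nat_lit 6) 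
(.lf (nat_lit 248624) (.g (nat_lit 1262) (.e (nat_lit 147495) (nat_lit 11) (.e (nat_lit 24665) (nat_lit 14) (.e (nat_lit 401413) (nat_lit 0) (.e (nat_lit 3459) (nat_lit 216) .nil)))) .nil)) 
(.lf (nat_lit 248688) (.g (nat_lit 3491) (.e (nat_lit 147496) (nat_lit 11) (.e (nat_lit 24617) (nat_lit 7) (.e (nat_lit 319505) (nat_lit 10) (.e (nat_lit 720) (nat_lit 64) (.e (nat_lit 688177) (nat_lit 16) (.e (nat_lit 65595) (nat_lit 9) (.e (nat_lit 336048) (nat_lit 6) .nil))))))) (.g (nat_lit 5) .nil .nil)))))) (.nd (nat_lit 4) (.nd (nat_lit 5) (.nd (nat_lit 6) 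
(.lf (nat_lit 248584) (.g (nat_lit 1918) (.e (nat_lit 147495) (nat_lit 11) (.e (nat_lit 24654) (nat_lit 13) (.e (nat_lit 393298) (nat_lit 27) (.e (nat_lit 491546) (nat_lit 9) (.e (nat_lit 336048) (nat_lit 6) .nil))))) .nil)) 
(.lf (nat_lit 248648) (.g (nat_lit 3334) (.e (nat_lit 147495) (nat_lit 11) (.e (nat_lit 24665) (nat_lit 14) (.e (nat_lit 401451) (nat_lit 12) (.e (nat_lit 475213) (nat_lit 42) .nil)))) .nil))) (.nd (nat_lit 6) 
(.lf (nat_lit 248616) (.g (nat_lit 1428) (.e (nat_lit 147495) (nat_lit 11) (.e (nat_lit 24662) (nat_lit 14) (.e (nat_lit 401412) (nat_lit 0) .nil))) .nil)) 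
(.lf (nat_lit 248680) (.g (nat_lit 586) (.e (nat_lit 147496) (nat_lit 11) (.e (nat_lit 24617) (nat_lit 7) (.e (nat_lit 319492) (nat_lit 0) .nil))) .nil)))) (.nd (nat_lit 5) (.nd (nat_lit 6) 
(.lf (nat_lit 248600) (.g (nat_lit 1495) (.e (nat_lit 147495) (nat_lit 11) (.e (nat_lit 24658) (nat_lit 13) (.e (nat_lit 393298) (nat_lit 27) (.e (nat_lit 491550) (nat_lit 9) .nil)))) .nil)) 
(.lf (nat_lit 248664) (.g (nat_lit 4798) (.e (nat_lit 147496) (nat_lit 11) (.e (nat_lit 24604) (nat_lit 2) (.e (nat_lit 90170) (nat_lit 13) (.e (nat_lit 172113) (nat_lit 10) (.e (nat_lit 434247) (nat_lit 28) .nil))))) .nil))) (.nd (nat_lit 6) 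
(.lf (nat_lit 248632) (.g (nat_lit 2145) (.e (nat_lit 147495) (nat_lit 11) (.e (nat_lit 24665) (nat_lit 14) (.e (nat_lit 401414) (nat_lit 0) (.e (nat_lit 3468) (nat_lit 217) (.e (nat_lit 696363) (nat_lit 18) .nil))))) .nil)) 
(.lf (nat_lit 248696) (.g (nat_lit 2704) (.e (nat_lit 147496) (nat_lit 11) (.e (nat_lit 24617) (nat_lit 7) (.e (nat_lit 319505) (nat_lit 10) (.e (nat_lit 720) (nat_lit 64) (.e (nat_lit 688177) (nat_lit 16) (.e (nat_lit 65601) (nat_lit 9) (.e (nat_lit 336046) (nat_lit 6) .nil))))))) (.g (nat_lit 4) .nil .nil))))))) (.nd (nat_lit 3) (.nd (nat_lit 4) (.nd (nat_lit 5) (.nd (nat_lit 6) 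
(.lf (nat_lit 248580) (.g (nat_lit 1608) (.e (nat_lit 147495) (nat_lit 11) (.e (nat_lit 24654) (nat_lit 13) (.e (nat_lit 393232) (nat_lit 17) (.e (nat_lit 7587) (nat_lit 406) (.e (nat_lit 65578) (nat_lit 6) .nil))))) .nil)) 
(.lf (nat_lit 248644) (.g (nat_lit 2651) (.e (nat_lit 147495) (nat_lit 11) (.e (nat_lit 24665) (nat_lit 14) (.e (nat_lit 401448) (nat_lit 10) (.e (nat_lit 434272) (nat_lit 38) (.e (nat_lit 655386) (nat_lit 9) .nil))))) .nil))) (.nd (nat_lit 6) 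
(.lf (nat_lit 248612) (.g (nat_lit 1390) (.e (nat_lit 147495) (nat_lit 11) (.e (nat_lit 24662) (nat_lit 14) (.e (nat_lit 401409) (nat_lit 0) .nil))) .nil)) 
(.lf (nat_lit 248676) (.g (nat_lit 266) (.e (nat_lit 147496) (nat_lit 11) (.e (nat_lit 24615) (nat_lit 6) (.e (nat_lit 147460) (nat_lit 0) .nil))) .nil)))) (.nd (nat_lit 5) (.nd (nat_lit 6) 
(.lf (nat_lit 248596) (.g (nat_lit 1556) (.e (nat_lit 147495) (nat_lit 11) (.e (nat_lit 24657) (nat_lit 13) (.e (nat_lit 393232) (nat_lit 17) (.e (nat_lit 7587) (nat_lit 406) .nil)))) .nil)) 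
(.lf (nat_lit 248660) (.g (nat_lit 4035) (.e (nat_lit 147496) (nat_lit 11) (.e (nat_lit 24603) (nat_lit 2) (.e (nat_lit 90167) (nat_lit 13) (.e (nat_lit 172126) (nat_lit 14) (.e (nat_lit 491537) (nat_lit 2) (.e (nat_lit 90134) (nat_lit 9) (.e (nat_lit 140) (nat_lit 8) .nil))))))) (.g (nat_lit 6) .nil .nil)))) (.nd (nat_lit 6) 
(.lf (nat_lit 248628) (.g (nat_lit 1749) (.e (nat_lit 147495) (nat_lit 11) (.e (nat_lit 24665) (nat_lit 14) (.e (nat_lit 401414) (nat_lit 0) (.e (nat_lit 3459) (nat_lit 216) .nil)))) .nil)) 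
(.lf (nat_lit 248692) (.g (nat_lit 3459) (.e (nat_lit 147496) (nat_lit 11) (.e (nat_lit 24617) (nat_lit 7) (.e (nat_lit 319505) (nat_lit 10) (.e (nat_lit 720) (nat_lit 64) (.e (nat_lit 688177) (nat_lit 16) (.e (nat_lit 65598) (nat_lit 9) (.e (nat_lit 336048) (nat_lit 6) .nil))))))) (.g (nat_lit 5) .nil .nil)))))) (.nd (nat_lit 4) (.nd (nat_lit 5) (.nd (nat_lit 6) 
(.lf (nat_lit 248588) (.g (nat_lit 1680) (.e (nat_lit 147495) (nat_lit 11) (.e (nat_lit 24655) (nat_lit 13) (.e (nat_lit 393233) (nat_lit 17) (.e (nat_lit 7585) (nat_lit 406) .nil)))) .nil)) 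
(.lf (nat_lit 248652) (.g (nat_lit 1083) (.e (nat_lit 147495) (nat_lit 11) (.e (nat_lit 24665) (nat_lit 14) (.e (nat_lit 401467) (nat_lit 27) .nil))) .nil))) (.nd (nat_lit 6) 
(.lf (nat_lit 248620) (.g (nat_lit 5367) (.e (nat_lit 147495) (nat_lit 11) (.e (nat_lit 24662) (nat_lit 14) (.e (nat_lit 401454) (nat_lit 12) (.e (nat_lit 475214) (nat_lit 42) (.e (nat_lit 720955) (nat_lit 25) .nil))))) .nil)) 
(.lf (nat_lit 248684) (.g (nat_lit 1881) (.e (nat_lit 147496) (nat_lit 11) (.e (nat_lit 24617) (nat_lit 7) (.e (nat_lit 319505) (nat_lit 10) (.e (nat_lit 16) (nat_lit 0) .nil)))) .nil)))) (.nd (nat_lit 5) (.nd (nat_lit 6) 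
(.lf (nat_lit 248604) (.g (nat_lit 2481) (.e (nat_lit 147495) (nat_lit 11) (.e (nat_lit 24658) (nat_lit 13) (.e (nat_lit 393301) (nat_lit 27) (.e (nat_lit 491551) (nat_lit 9) (.e (nat_lit 336046) (nat_lit 6) .nil))))) .nil)) 
(.lf (nat_lit 248668) (.g (nat_lit 3160) (.e (nat_lit 147496) (nat_lit 11) (.e (nat_lit 24604) (nat_lit 2) (.e (nat_lit 90178) (nat_lit 15) (.e (nat_lit 188440) (nat_lit 20) (.e (nat_lit 3295) (nat_lit 202) (.e (nat_lit 573454) (nat_lit 9) (.e (nat_lit 1315) (nat_lit 98) .nil))))))) (.g (nat_lit 4) .nil .nil)))) (.nd (nat_lit 6) 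
(.lf (nat_lit 248636) (.g (nat_lit 959) (.e (nat_lit 147495) (nat_lit 11) (.e (nat_lit 24665) (nat_lit 14) (.e (nat_lit 401418) (nat_lit 0) .nil))) .nil)) 
(.lf (nat_lit 248700) (.g (nat_lit 2158) (.e (nat_lit 147496) (nat_lit 11) (.e (nat_lit 24617) (nat_lit 7) (.e (nat_lit 319505) (nat_lit 10) (.e (nat_lit 720) (nat_lit 64) (.e (nat_lit 688183) (nat_lit 18) .nil))))) .nil))))))) (.nd (nat_lit 2) (.nd (nat_lit 3) (.nd (nat_lit 4) (.nd (nat_lit 5) (.nd (nat_lit 6) 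
(.lf (nat_lit 248578) (.g (nat_lit 1026) (.e (nat_lit 147495) (nat_lit 11) (.e (nat_lit 24644) (nat_lit 11) (.e (nat_lit 368662) (nat_lit 18) (.e (nat_lit 7160) (nat_lit 382) .nil)))) .nil)) 
(.lf (nat_lit 248642) (.g (nat_lit 2359) (.e (nat_lit 147495) (nat_lit 11) (.e (nat_lit 24665) (nat_lit 14) (.e (nat_lit 401448) (nat_lit 10) (.e (nat_lit 434271) (nat_lit 38) (.e (nat_lit 655387) (nat_lit 9) .nil))))) .nil))) (.nd (nat_lit 6) 
(.lf (nat_lit 248610) (.g (nat_lit 1501) (.e (nat_lit 147495) (nat_lit 11) (.e (nat_lit 24661) (nat_lit 14) (.e (nat_lit 401412) (nat_lit 0) (.e (nat_lit 3453) (nat_lit 216) .nil)))) .nil)) 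
(.lf (nat_lit 248674) (.g (nat_lit 3184) (.e (nat_lit 147496) (nat_lit 11) (.e (nat_lit 24608) (nat_lit 3) (.e (nat_lit 98372) (nat_lit 29) (.e (nat_lit 450587) (nat_lit 10) (.e (nat_lit 573454) (nat_lit 9) .nil))))) .nil)))) (.nd (nat_lit 5) (.nd (nat_lit 6) 
(.lf (nat_lit 248594) (.g (nat_lit 2172) (.e (nat_lit 147495) (nat_lit 11) (.e (nat_lit 24655) (nat_lit 13) (.e (nat_lit 393296) (nat_lit 26) (.e (nat_lit 475210) (nat_lit 41) (.e (nat_lit 720640) (nat_lit 6) .nil))))) .nil)) 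
(.lf (nat_lit 248658) (.g (nat_lit 936) (.e (nat_lit 147496) (nat_lit 11) (.e (nat_lit 24584) (nat_lit 0) (.e (nat_lit 6113) (nat_lit 332) (.e (nat_lit 2584) (nat_lit 161) .nil)))) .nil))) (.nd (nat_lit 6) 
(.lf (nat_lit 248626) (.g (nat_lit 1962) (.e (nat_lit 147495) (nat_lit 11) (.e (nat_lit 24665) (nat_lit 14) (.e (nat_lit 401414) (nat_lit 0) (.e (nat_lit 2438) (nat_lit 157) .nil)))) .nil)) 
(.lf (nat_lit 248690) (.g (nat_lit 3746) (.e (nat_lit 147496) (nat_lit 11) (.e (nat_lit 24617) (nat_lit 7) (.e (nat_lit 319505) (nat_lit 10) (.e (nat_lit 720) (nat_lit 64) (.e (nat_lit 688177) (nat_lit 16) (.e (nat_lit 65598) (nat_lit 9) (.e (nat_lit 336046) (nat_lit 6) .nil))))))) (.g (nat_lit 5) .nil .nil)))))) (.nd (nat_lit 4) (.nd (nat_lit 5) (.nd (nat_lit 6) 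
(.lf (nat_lit 248586) (.g (nat_lit 2172) (.e (nat_lit 147495) (nat_lit 11) (.e (nat_lit 24654) (nat_lit 13) (.e (nat_lit 393301) (nat_lit 27) (.e (nat_lit 491552) (nat_lit 9) (.e (nat_lit 336050) (nat_lit 6) .nil))))) .nil)) 
(.lf (nat_lit 248650) (.g (nat_lit 1056) (.e (nat_lit 147495) (nat_lit 11) (.e (nat_lit 24665) (nat_lit 14) (.e (nat_lit 401463) (nat_lit 15) .nil))) .nil))) (.nd (nat_lit 6) 
(.lf (nat_lit 248618) (.g (nat_lit 2292) (.e (nat_lit 147495) (nat_lit 11) (.e (nat_lit 24662) (nat_lit 14) (.e (nat_lit 401422) (nat_lit 1) (.e (nat_lit 164149) (nat_lit 152) (.e (nat_lit 1217) (nat_lit 90) .nil))))) .nil)) 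
(.lf (nat_lit 248682) (.g (nat_lit 3220) (.e (nat_lit 147496) (nat_lit 11) (.e (nat_lit 24617) (nat_lit 7) (.e (nat_lit 319499) (nat_lit 10) (.e (nat_lit 720) (nat_lit 64) (.e (nat_lit 688186) (nat_lit 18) (.e (nat_lit 81965) (nat_lit 26) .nil)))))) (.g (nat_lit 0) .nil .nil))))) (.nd (nat_lit 5) (.nd (nat_lit 6) 
(.lf (nat_lit 248602) (.g (nat_lit 2524) (.e (nat_lit 147495) (nat_lit 11) (.e (nat_lit 24658) (nat_lit 13) (.e (nat_lit 393299) (nat_lit 27) (.e (nat_lit 491546) (nat_lit 9) (.e (nat_lit 336048) (nat_lit 6) .nil))))) .nil)) 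
(.lf (nat_lit 248666) (.g (nat_lit 2416) (.e (nat_lit 147496) (nat_lit 11) (.e (nat_lit 24604) (nat_lit 2) (.e (nat_lit 90174) (nat_lit 14) (.e (nat_lit 180277) (nat_lit 32) (.e (nat_lit 1235) (nat_lit 91) .nil))))) .nil))) (.nd (nat_lit 6) 
(.lf (nat_lit 248634) (.g (nat_lit 2455) (.e (nat_lit 147495) (nat_lit 11) (.e (nat_lit 24665) (nat_lit 14) (.e (nat_lit 401414) (nat_lit 0) (.e (nat_lit 3469) (nat_lit 217) (.e (nat_lit 704256) (nat_lit 18) .nil))))) .nil)) 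
(.lf (nat_lit 248698) (.g (nat_lit 2622) (.e (nat_lit 147496) (nat_lit 11) (.e (nat_lit 24617) (nat_lit 7) (.e (nat_lit 319505) (nat_lit 10) (.e (nat_lit 720) (nat_lit 64) (.e (nat_lit 688177) (nat_lit 16) (.e (nat_lit 65605) (nat_lit 9) (.e (nat_lit 336046) (nat_lit 6) .nil))))))) (.g (nat_lit 4) .nil .nil))))))) (.nd (nat_lit 3) (.nd (nat_lit 4) (.nd (nat_lit 5) (.nd (nat_lit 6) 
(.lf (nat_lit 248582) (.g (nat_lit 2135) (.e (nat_lit 147495) (nat_lit 11) (.e (nat_lit 24654) (nat_lit 13) (.e (nat_lit 393234) (nat_lit 17) (.e (nat_lit 7589) (nat_lit 406) (.e (nat_lit 65578) (nat_lit 6) .nil))))) (.g (nat_lit 4) .nil .nil))) 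
(.lf (nat_lit 248646) (.g (nat_lit 2803) (.e (nat_lit 147495) (nat_lit 11) (.e (nat_lit 24665) (nat_lit 14) (.e (nat_lit 401450) (nat_lit 12) (.e (nat_lit 475212) (nat_lit 42) .nil)))) .nil))) (.nd (nat_lit 6) 
(.lf (nat_lit 248614) (.g (nat_lit 3932) (.e (nat_lit 147495) (nat_lit 11) (.e (nat_lit 24662) (nat_lit 14) (.e (nat_lit 401410) (nat_lit 0) (.e (nat_lit 3453) (nat_lit 216) .nil)))) .nil)) 
(.lf (nat_lit 248678) (.g (nat_lit 2441) (.e (nat_lit 147496) (nat_lit 11) (.e (nat_lit 24616) (nat_lit 7) (.e (nat_lit 319534) (nat_lit 16) (.e (nat_lit 286756) (nat_lit 10) (.e (nat_lit 344160) (nat_lit 37) (.e (nat_lit 647190) (nat_lit 9) (.e (nat_lit 1312) (nat_lit 98) .nil))))))) (.g (nat_lit 4) .nil .nil))))) (.nd (nat_lit 5) (.nd (nat_lit 6) 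
(.lf (nat_lit 248598) (.g (nat_lit 753) (.e (nat_lit 147495) (nat_lit 11) (.e (nat_lit 24658) (nat_lit 13) (.e (nat_lit 393231) (nat_lit 17) .nil))) .nil)) 
(.lf (nat_lit 248662) (.g (nat_lit 2624) (.e (nat_lit 147496) (nat_lit 11) (.e (nat_lit 24603) (nat_lit 2) (.e (nat_lit 90174) (nat_lit 14) (.e (nat_lit 180277) (nat_lit 32) (.e (nat_lit 1235) (nat_lit 91) (.e (nat_lit 90134) (nat_lit 9) (.e (nat_lit 140) (nat_lit 8) .nil))))))) (.g (nat_lit 5) .nil .nil)))) (.nd (nat_lit 6) 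
(.lf (nat_lit 248630) (.g (nat_lit 2295) (.e (nat_lit 147495) (nat_lit 11) (.e (nat_lit 24665) (nat_lit 14) (.e (nat_lit 401414) (nat_lit 0) (.e (nat_lit 3459) (nat_lit 216) (.e (nat_lit 688178) (nat_lit 16) .nil))))) .nil)) 
(.lf (nat_lit 248694) (.g (nat_lit 3209) (.e (nat_lit 147496) (nat_lit 11) (.e (nat_lit 24617) (nat_lit 7) (.e (nat_lit 319505) (nat_lit 10) (.e (nat_lit 720) (nat_lit 64) (.e (nat_lit 688177) (nat_lit 16) (.e (nat_lit 65599) (nat_lit 9) (.e (nat_lit 336047) (nat_lit 6) .nil))))))) (.g (nat_lit 4) .nil .nil)))))) (.nd (nat_lit 4) (.nd (nat_lit 5) (.nd (nat_lit 6) 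
(.lf (nat_lit 248590) (.g (nat_lit 959) (.e (nat_lit 147495) (nat_lit 11) (.e (nat_lit 24655) (nat_lit 13) (.e (nat_lit 393237) (nat_lit 17) .nil))) .nil)) 
(.lf (nat_lit 248654) (.g (nat_lit 1486) (.e (nat_lit 147495) (nat_lit 11) (.e (nat_lit 24665) (nat_lit 14) (.e (nat_lit 401472) (nat_lit 28) (.e (nat_lit 344164) (nat_lit 37) .nil)))) .nil))) (.nd (nat_lit 6) 
(.lf (nat_lit 248622) (.g (nat_lit 1341) (.e (nat_lit 147495) (nat_lit 11) (.e (nat_lit 24662) (nat_lit 14) (.e (nat_lit 401472) (nat_lit 28) .nil))) .nil)) 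
(.lf (nat_lit 248686) (.g (nat_lit 3177) (.e (nat_lit 147496) (nat_lit 11) (.e (nat_lit 24617) (nat_lit 7) (.e (nat_lit 319505) (nat_lit 10) (.e (nat_lit 720) (nat_lit 64) (.e (nat_lit 688177) (nat_lit 16) (.e (nat_lit 65592) (nat_lit 9) (.e (nat_lit 336046) (nat_lit 6) .nil))))))) (.g (nat_lit 5) .nil .nil))))) (.nd (nat_lit 5) (.nd (nat_lit 6) 
(.lf (nat_lit 248606) (.g (nat_lit 1111) (.e (nat_lit 147495) (nat_lit 11) (.e (nat_lit 24659) (nat_lit 13) (.e (nat_lit 393299) (nat_lit 27) (.e (nat_lit 491556) (nat_lit 9) .nil)))) .nil)) 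
(.lf (nat_lit 248670) (.g (nat_lit 2832) (.e (nat_lit 147496) (nat_lit 11) (.e (nat_lit 24606) (nat_lit 3) (.e (nat_lit 98373) (nat_lit 29) (.e (nat_lit 450587) (nat_lit 10) (.e (nat_lit 573454) (nat_lit 9) (.e (nat_lit 1315) (nat_lit 98) .nil)))))) (.g (nat_lit 4) .nil .nil)))) (.nd (nat_lit 6) 
(.lf (nat_lit 248638) (.g (nat_lit 840) (.e (nat_lit 147495) (nat_lit 11) (.e (nat_lit 24665) (nat_lit 14) (.e (nat_lit 401421) (nat_lit 1) .nil))) .nil)) 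
(.lf (nat_lit 248702) (.g (nat_lit 1090) (.e (nat_lit 147496) (nat_lit 11) (.e (nat_lit 24617) (nat_lit 7) (.e (nat_lit 319532) (nat_lit 16) (.e (nat_lit 286756) (nat_lit 10) .nil)))) .nil)))))))) (.nd (nat_lit 1) (.nd (nat_lit 2) (.nd (nat_lit 3) (.nd (nat_lit 4) (.nd (nat_lit 5) (.nd (nat_lit 6) 
(.lf (nat_lit 248577) (.g (nat_lit 786) (.e (nat_lit 147495) (nat_lit 11) (.e (nat_lit 24643) (nat_lit 11) (.e (nat_lit 368662) (nat_lit 18) (.e (nat_lit 7160) (nat_lit 382) .nil)))) .nil)) 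
(.lf (nat_lit 248641) (.g (nat_lit 1819) (.e (nat_lit 147495) (nat_lit 11) (.e (nat_lit 24665) (nat_lit 14) (.e (nat_lit 401448) (nat_lit 10) (.e (nat_lit 434271) (nat_lit 38) .nil)))) .nil))) (.nd (nat_lit 6) 
(.lf (nat_lit 248609) (.g (nat_lit 1789) (.e (nat_lit 147495) (nat_lit 11) (.e (nat_lit 24660) (nat_lit 13) (.e (nat_lit 393260) (nat_lit 21) (.e (nat_lit 409617) (nat_lit 10) (.e (nat_lit 5355) (nat_lit 298) .nil))))) .nil)) 
(.lf (nat_lit 248673) (.g (nat_lit 2575) (.e (nat_lit 147496) (nat_lit 11) (.e (nat_lit 24608) (nat_lit 3) (.e (nat_lit 98372) (nat_lit 29) (.e (nat_lit 450586) (nat_lit 10) (.e (nat_lit 573456) (nat_lit 9) .nil))))) .nil)))) (.nd (nat_lit 5) (.nd (nat_lit 6) 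
(.lf (nat_lit 248593) (.g (nat_lit 1259) (.e (nat_lit 147495) (nat_lit 11) (.e (nat_lit 24655) (nat_lit 13) (.e (nat_lit 393296) (nat_lit 26) (.e (nat_lit 475207) (nat_lit 41) (.e (nat_lit 720640) (nat_lit 6) .nil))))) .nil)) 
(.lf (nat_lit 248657) (.g (nat_lit 1566) (.e (nat_lit 147496) (nat_lit 11) (.e (nat_lit 24584) (nat_lit 0) (.e (nat_lit 6113) (nat_lit 332) (.e (nat_lit 970) (nat_lit 81) (.e (nat_lit 718) (nat_lit 64) .nil))))) .nil))) (.nd (nat_lit 6) 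
(.lf (nat_lit 248625) (.g (nat_lit 532) (.e (nat_lit 147495) (nat_lit 11) (.e (nat_lit 24665) (nat_lit 14) (.e (nat_lit 401414) (nat_lit 0) .nil))) .nil)) 
(.lf (nat_lit 248689) (.g (nat_lit 2787) (.e (nat_lit 147496) (nat_lit 11) (.e (nat_lit 24617) (nat_lit 7) (.e (nat_lit 319505) (nat_lit 10) (.e (nat_lit 720) (nat_lit 64) (.e (nat_lit 688177) (nat_lit 16) (.e (nat_lit 65596) (nat_lit 9) (.e (nat_lit 336046) (nat_lit 6) .nil))))))) (.g (nat_lit 4) .nil .nil)))))) (.nd (nat_lit 4) (.nd (nat_lit 5) (.nd (nat_lit 6) 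
(.lf (nat_lit 248585) (.g (nat_lit 1609) (.e (nat_lit 147495) (nat_lit 11) (.e (nat_lit 24654) (nat_lit 13) (.e (nat_lit 393298) (nat_lit 27) (.e (nat_lit 491554) (nat_lit 9) (.e (nat_lit 336048) (nat_lit 6) .nil))))) .nil)) 
(.lf (nat_lit 248649) (.g (nat_lit 1045) (.e (nat_lit 147495) (nat_lit 11) (.e (nat_lit 24665) (nat_lit 14) (.e (nat_lit 401461) (nat_lit 15) .nil))) .nil))) (.nd (nat_lit 6) 
(.lf (nat_lit 248617) (.g (nat_lit 1383) (.e (nat_lit 147495) (nat_lit 11) (.e (nat_lit 24662) (nat_lit 14) (.e (nat_lit 401422) (nat_lit 1) .nil))) .nil)) 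
(.lf (nat_lit 248681) (.g (nat_lit 1257) (.e (nat_lit 147496) (nat_lit 11) (.e (nat_lit 24617) (nat_lit 7) (.e (nat_lit 319499) (nat_lit 10) (.e (nat_lit 720) (nat_lit 64) (.e (nat_lit 688185) (nat_lit 18) .nil))))) .nil)))) (.nd (nat_lit 5) (.nd (nat_lit 6) 
(.lf (nat_lit 248601) (.g (nat_lit 2112) (.e (nat_lit 147495) (nat_lit 11) (.e (nat_lit 24658) (nat_lit 13) (.e (nat_lit 393298) (nat_lit 27) (.e (nat_lit 491554) (nat_lit 9) (.e (nat_lit 336048) (nat_lit 6) .nil))))) .nil)) 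
(.lf (nat_lit 248665) (.g (nat_lit 1642) (.e (nat_lit 147496) (nat_lit 11) (.e (nat_lit 24604) (nat_lit 2) (.e (nat_lit 90172) (nat_lit 14) (.e (nat_lit 180285) (nat_lit 45) .nil)))) .nil))) (.nd (nat_lit 6) 
(.lf (nat_lit 248633) (.g (nat_lit 2586) (.e (nat_lit 147495) (nat_lit 11) (.e (nat_lit 24665) (nat_lit 14) (.e (nat_lit 401414) (nat_lit 0) (.e (nat_lit 3469) (nat_lit 217) (.e (nat_lit 696363) (nat_lit 18) .nil))))) .nil)) 
(.lf (nat_lit 248697) (.g (nat_lit 2593) (.e (nat_lit 147496) (nat_lit 11) (.e (nat_lit 24617) (nat_lit 7) (.e (nat_lit 319505) (nat_lit 10) (.e (nat_lit 720) (nat_lit 64) (.e (nat_lit 688177) (nat_lit 16) (.e (nat_lit 65604) (nat_lit 9) (.e (nat_lit 336048) (nat_lit 6) .nil))))))) (.g (nat_lit 4) .nil .nil))))))) (.nd (nat_lit 3) (.nd (nat_lit 4) (.nd (nat_lit 5) (.nd (nat_lit 6) 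
(.lf (nat_lit 248581) (.g (nat_lit 1327) (.e (nat_lit 147495) (nat_lit 11) (.e (nat_lit 24654) (nat_lit 13) (.e (nat_lit 393232) (nat_lit 17) (.e (nat_lit 7589) (nat_lit 406) (.e (nat_lit 65578) (nat_lit 6) .nil))))) .nil)) 
(.lf (nat_lit 248645) (.g (nat_lit 2541) (.e (nat_lit 147495) (nat_lit 11) (.e (nat_lit 24665) (nat_lit 14) (.e (nat_lit 401448) (nat_lit 10) (.e (nat_lit 434276) (nat_lit 39) .nil)))) .nil))) (.nd (nat_lit 6) 
(.lf (nat_lit 248613) (.g (nat_lit 2166) (.e (nat_lit 147495) (nat_lit 11) (.e (nat_lit 24662) (nat_lit 14) (.e (nat_lit 401410) (nat_lit 0) .nil))) .nil)) 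
(.lf (nat_lit 248677) (.g (nat_lit 2977) (.e (nat_lit 147496) (nat_lit 11) (.e (nat_lit 24616) (nat_lit 7) (.e (nat_lit 319533) (nat_lit 16) (.e (nat_lit 286753) (nat_lit 10) (.e (nat_lit 344160) (nat_lit 37) (.e (nat_lit 647195) (nat_lit 9) (.e (nat_lit 1310) (nat_lit 98) .nil))))))) (.g (nat_lit 5) .nil .nil))))) (.nd (nat_lit 5) (.nd (nat_lit 6) 
(.lf (nat_lit 248597) (.g (nat_lit 1001) (.e (nat_lit 147495) (nat_lit 11) (.e (nat_lit 24657) (nat_lit 13) (.e (nat_lit 393298) (nat_lit 27) .nil))) .nil)) 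
(.lf (nat_lit 248661) (.g (nat_lit 1872) (.e (nat_lit 147496) (nat_lit 11) (.e (nat_lit 24603) (nat_lit 2) (.e (nat_lit 90172) (nat_lit 14) (.e (nat_lit 180278) (nat_lit 32) (.e (nat_lit 1253) (nat_lit 92) (.e (nat_lit 106240) (nat_lit 5) .nil)))))) (.g (nat_lit 4) .nil .nil)))) (.nd (nat_lit 6) 
(.lf (nat_lit 248629) (.g (nat_lit 2380) (.e (nat_lit 147495) (nat_lit 11) (.e (nat_lit 24665) (nat_lit 14) (.e (nat_lit 401414) (nat_lit 0) (.e (nat_lit 3459) (nat_lit 216) (.e (nat_lit 688153) (nat_lit 13) .nil))))) .nil)) 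
(.lf (nat_lit 248693) (.g (nat_lit 3157) (.e (nat_lit 147496) (nat_lit 11) (.e (nat_lit 24617) (nat_lit 7) (.e (nat_lit 319505) (nat_lit 10) (.e (nat_lit 720) (nat_lit 64) (.e (nat_lit 688177) (nat_lit 16) (.e (nat_lit 65599) (nat_lit 9) (.e (nat_lit 336046) (nat_lit 6) .nil))))))) (.g (nat_lit 5) .nil .nil)))))) (.nd (nat_lit 4) (.nd (nat_lit 5) (.nd (nat_lit 6) 
(.lf (nat_lit 248589) (.g (nat_lit 1661) (.e (nat_lit 147495) (nat_lit 11) (.e (nat_lit 24655) (nat_lit 13) (.e (nat_lit 393233) (nat_lit 17) (.e (nat_lit 7589) (nat_lit 406) (.e (nat_lit 65578) (nat_lit 6) .nil))))) .nil)) 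
(.lf (nat_lit 248653) (.g (nat_lit 711) (.e (nat_lit 147495) (nat_lit 11) (.e (nat_lit 24665) (nat_lit 14) (.e (nat_lit 401472) (nat_lit 28) .nil))) .nil))) (.nd (nat_lit 6) 
(.lf (nat_lit 248621) (.g (nat_lit 3852) (.e (nat_lit 147495) (nat_lit 11) (.e (nat_lit 24662) (nat_lit 14) (.e (nat_lit 401454) (nat_lit 12) (.e (nat_lit 475215) (nat_lit 43) .nil)))) .nil)) 
(.lf (nat_lit 248685) (.g (nat_lit 1341) (.e (nat_lit 147496) (nat_lit 11) (.e (nat_lit 24617) (nat_lit 7) (.e (nat_lit 319505) (nat_lit 10) (.e (nat_lit 720) (nat_lit 64) .nil)))) .nil)))) (.nd (nat_lit 5) (.nd (nat_lit 6) 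
(.lf (nat_lit 248605) (.g (nat_lit 1485) (.e (nat_lit 147495) (nat_lit 11) (.e (nat_lit 24659) (nat_lit 13) (.e (nat_lit 393298) (nat_lit 27) (.e (nat_lit 491556) (nat_lit 9) .nil)))) .nil)) 
(.lf (nat_lit 248669) (.g (nat_lit 3536) (.e (nat_lit 147496) (nat_lit 11) (.e (nat_lit 24604) (nat_lit 2) (.e (nat_lit 90178) (nat_lit 15) (.e (nat_lit 188440) (nat_lit 20) (.e (nat_lit 3304) (nat_lit 202) (.e (nat_lit 573454) (nat_lit 9) (.e (nat_lit 1315) (nat_lit 98) .nil))))))) (.g (nat_lit 4) .nil .nil)))) (.nd (nat_lit 6) 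
(.lf (nat_lit 248637) (.g (nat_lit 769) (.e (nat_lit 147495) (nat_lit 11) (.e (nat_lit 24665) (nat_lit 14) (.e (nat_lit 401420) (nat_lit 1) .nil))) .nil)) 
(.lf (nat_lit 248701) (.g (nat_lit 669) (.e (nat_lit 147496) (nat_lit 11) (.e (nat_lit 24617) (nat_lit 7) (.e (nat_lit 319520) (nat_lit 13) .nil))) .nil))))))) (.nd (nat_lit 2) (.nd (nat_lit 3) (.nd (nat_lit 4) (.nd (nat_lit 5) (.nd (nat_lit 6) 
(.lf (nat_lit 248579) (.g (nat_lit 639) (.e (nat_lit 147495) (nat_lit 11) (.e (nat_lit 24651) (nat_lit 12) (.e (nat_lit 385039) (nat_lit 18) .nil))) .nil)) 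
(.lf (nat_lit 248643) (.g (nat_lit 1904) (.e (nat_lit 147495) (nat_lit 11) (.e (nat_lit 24665) (nat_lit 14) (.e (nat_lit 401448) (nat_lit 10) (.e (nat_lit 434272) (nat_lit 38) .nil)))) .nil))) (.nd (nat_lit 6) 
(.lf (nat_lit 248611) (.g (nat_lit 2983) (.e (nat_lit 147495) (nat_lit 11) (.e (nat_lit 24661) (nat_lit 14) (.e (nat_lit 401454) (nat_lit 12) (.e (nat_lit 475214) (nat_lit 42) .nil)))) .nil)) 
(.lf (nat_lit 248675) (.g (nat_lit 4849) (.e (nat_lit 147496) (nat_lit 11) (.e (nat_lit 24608) (nat_lit 3) (.e (nat_lit 98373) (nat_lit 29) (.e (nat_lit 450588) (nat_lit 10) (.e (nat_lit 573454) (nat_lit 9) (.e (nat_lit 1315) (nat_lit 98) .nil)))))) (.g (nat_lit 4) .nil .nil))))) (.nd (nat_lit 5) (.nd (nat_lit 6) 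
(.lf (nat_lit 248595) (.g (nat_lit 2088) (.e (nat_lit 147495) (nat_lit 11) (.e (nat_lit 24655) (nat_lit 13) (.e (nat_lit 393298) (nat_lit 27) (.e (nat_lit 491546) (nat_lit 9) .nil)))) .nil)) 
(.lf (nat_lit 248659) (.g (nat_lit 639) (.e (nat_lit 147496) (nat_lit 11) (.e (nat_lit 24584) (nat_lit 0) (.e (nat_lit 6240) (nat_lit 336) .nil))) .nil))) (.nd (nat_lit 6) 
(.lf (nat_lit 248627) (.g (nat_lit 1862) (.e (nat_lit 147495) (nat_lit 11) (.e (nat_lit 24665) (nat_lit 14) (.e (nat_lit 401414) (nat_lit 0) (.e (nat_lit 2458) (nat_lit 157) .nil)))) .nil)) 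
(.lf (nat_lit 248691) (.g (nat_lit 3955) (.e (nat_lit 147496) (nat_lit 11) (.e (nat_lit 24617) (nat_lit 7) (.e (nat_lit 319505) (nat_lit 10) (.e (nat_lit 720) (nat_lit 64) (.e (nat_lit 688177) (nat_lit 16) (.e (nat_lit 65598) (nat_lit 9) (.e (nat_lit 336047) (nat_lit 6) .nil))))))) (.g (nat_lit 5) .nil .nil)))))) (.nd (nat_lit 4) (.nd (nat_lit 5) (.nd (nat_lit 6) 
(.lf (nat_lit 248587) (.g (nat_lit 1255) (.e (nat_lit 147495) (nat_lit 11) (.e (nat_lit 24654) (nat_lit 13) (.e (nat_lit 393301) (nat_lit 27) (.e (nat_lit 499456) (nat_lit 9) .nil)))) .nil)) 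
(.lf (nat_lit 248651) (.g (nat_lit 1059) (.e (nat_lit 147495) (nat_lit 11) (.e (nat_lit 24665) (nat_lit 14) (.e (nat_lit 401465) (nat_lit 15) .nil))) .nil))) (.nd (nat_lit 6) 
(.lf (nat_lit 248619) (.g (nat_lit 4153) (.e (nat_lit 147495) (nat_lit 11) (.e (nat_lit 24662) (nat_lit 14) (.e (nat_lit 401454) (nat_lit 12) (.e (nat_lit 475213) (nat_lit 42) .nil)))) .nil)) 
(.lf (nat_lit 248683) (.g (nat_lit 3089) (.e (nat_lit 147496) (nat_lit 11) (.e (nat_lit 24617) (nat_lit 7) (.e (nat_lit 319503) (nat_lit 10) (.e (nat_lit 720) (nat_lit 64) (.e (nat_lit 688186) (nat_lit 18) (.e (nat_lit 81965) (nat_lit 26) .nil)))))) (.g (nat_lit 0) .nil .nil))))) (.nd (nat_lit 5) (.nd (nat_lit 6) 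
(.lf (nat_lit 248603) (.g (nat_lit 1563) (.e (nat_lit 147495) (nat_lit 11) (.e (nat_lit 24658) (nat_lit 13) (.e (nat_lit 393301) (nat_lit 27) (.e (nat_lit 491546) (nat_lit 9) .nil)))) .nil)) 
(.lf (nat_lit 248667) (.g (nat_lit 3499) (.e (nat_lit 147496) (nat_lit 11) (.e (nat_lit 24604) (nat_lit 2) (.e (nat_lit 90176) (nat_lit 15) (.e (nat_lit 188440) (nat_lit 20) (.e (nat_lit 3307) (nat_lit 202) (.e (nat_lit 573454) (nat_lit 9) (.e (nat_lit 1315) (nat_lit 98) .nil))))))) (.g (nat_lit 5) .nil .nil)))) (.nd (nat_lit 6) 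
(.lf (nat_lit 248635) (.g (nat_lit 1534) (.e (nat_lit 147495) (nat_lit 11) (.e (nat_lit 24665) (nat_lit 14) (.e (nat_lit 401417) (nat_lit 0) (.e (nat_lit 3452) (nat_lit 216) .nil)))) .nil)) 
(.lf (nat_lit 248699) (.g (nat_lit 2813) (.e (nat_lit 147496) (nat_lit 11) (.e (nat_lit 24617) (nat_lit 7) (.e (nat_lit 319505) (nat_lit 10) (.e (nat_lit 720) (nat_lit 64) (.e (nat_lit 688178) (nat_lit 16) (.e (nat_lit 65604) (nat_lit 9) (.e (nat_lit 336046) (nat_lit 6) .nil))))))) (.g (nat_lit 4) .nil .nil))))))) (.nd (nat_lit 3) (.nd (nat_lit 4) (.nd (nat_lit 5) (.nd (nat_lit 6) 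
(.lf (nat_lit 248583) (.g (nat_lit 946) (.e (nat_lit 147495) (nat_lit 11) (.e (nat_lit 24654) (nat_lit 13) (.e (nat_lit 393234) (nat_lit 17) (.e (nat_lit 7936) (nat_lit 406) .nil)))) .nil)) 
(.lf (nat_lit 248647) (.g (nat_lit 4149) (.e (nat_lit 147495) (nat_lit 11) (.e (nat_lit 24665) (nat_lit 14) (.e (nat_lit 401450) (nat_lit 12) (.e (nat_lit 475214) (nat_lit 42) (.e (nat_lit 720954) (nat_lit 25) .nil))))) .nil))) (.nd (nat_lit 6) 
(.lf (nat_lit 248615) (.g (nat_lit 1361) (.e (nat_lit 147495) (nat_lit 11) (.e (nat_lit 24662) (nat_lit 14) (.e (nat_lit 401411) (nat_lit 0) .nil))) .nil)) 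
(.lf (nat_lit 248679) (.g (nat_lit 2564) (.e (nat_lit 147496) (nat_lit 11) (.e (nat_lit 24616) (nat_lit 7) (.e (nat_lit 319534) (nat_lit 16) (.e (nat_lit 286756) (nat_lit 10) (.e (nat_lit 344160) (nat_lit 37) (.e (nat_lit 647195) (nat_lit 9) (.e (nat_lit 1310) (nat_lit 98) .nil))))))) (.g (nat_lit 4) .nil .nil))))) (.nd (nat_lit 5) (.nd (nat_lit 6) 
(.lf (nat_lit 248599) (.g (nat_lit 2873) (.e (nat_lit 147495) (nat_lit 11) (.e (nat_lit 24658) (nat_lit 13) (.e (nat_lit 393234) (nat_lit 17) (.e (nat_lit 7587) (nat_lit 406) (.e (nat_lit 65578) (nat_lit 6) .nil))))) (.g (nat_lit 4) .nil .nil))) 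
(.lf (nat_lit 248663) (.g (nat_lit 4873) (.e (nat_lit 147496) (nat_lit 11) (.e (nat_lit 24604) (nat_lit 2) (.e (nat_lit 90170) (nat_lit 13) (.e (nat_lit 172113) (nat_lit 10) (.e (nat_lit 434245) (nat_lit 28) .nil))))) .nil))) (.nd (nat_lit 6) 
(.lf (nat_lit 248631) (.g (nat_lit 2029) (.e (nat_lit 147495) (nat_lit 11) (.e (nat_lit 24665) (nat_lit 14) (.e (nat_lit 401414) (nat_lit 0) (.e (nat_lit 3467) (nat_lit 217) .nil)))) .nil)) 
(.lf (nat_lit 248695) (.g (nat_lit 2652) (.e (nat_lit 147496) (nat_lit 11) (.e (nat_lit 24617) (nat_lit 7) (.e (nat_lit 319505) (nat_lit 10) (.e (nat_lit 720) (nat_lit 64) (.e (nat_lit 688177) (nat_lit 16) (.e (nat_lit 65599) (nat_lit 9) (.e (nat_lit 336048) (nat_lit 6) .nil))))))) (.g (nat_lit 4) .nil .nil)))))) (.nd (nat_lit 4) (.nd (nat_lit 5) (.nd (nat_lit 6) 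
(.lf (nat_lit 248591) (.g (nat_lit 959) (.e (nat_lit 147495) (nat_lit 11) (.e (nat_lit 24655) (nat_lit 13) (.e (nat_lit 393242) (nat_lit 17) .nil))) .nil)) 
(.lf (nat_lit 248655) (.g (nat_lit 698) (.e (nat_lit 147495) (nat_lit 11) (.e (nat_lit 24665) (nat_lit 14) (.e (nat_lit 409344) (nat_lit 31) .nil))) .nil))) (.nd (nat_lit 6) 
(.lf (nat_lit 248623) (.g (nat_lit 856) (.e (nat_lit 147495) (nat_lit 11) (.e (nat_lit 24664) (nat_lit 14) (.e (nat_lit 401472) (nat_lit 28) .nil))) .nil)) 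
(.lf (nat_lit 248687) (.g (nat_lit 3073) (.e (nat_lit 147496) (nat_lit 11) (.e (nat_lit 24617) (nat_lit 7) (.e (nat_lit 319505) (nat_lit 10) (.e (nat_lit 720) (nat_lit 64) (.e (nat_lit 688177) (nat_lit 16) (.e (nat_lit 65593) (nat_lit 9) (.e (nat_lit 336046) (nat_lit 6) .nil))))))) (.g (nat_lit 5) .nil .nil))))) (.nd (nat_lit 5) (.nd (nat_lit 6) 
(.lf (nat_lit 248607) (.g (nat_lit 2380) (.e (nat_lit 147495) (nat_lit 11) (.e (nat_lit 24659) (nat_lit 13) (.e (nat_lit 393300) (nat_lit 27) (.e (nat_lit 491556) (nat_lit 9) (.e (nat_lit 336051) (nat_lit 6) .nil))))) .nil)) 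
(.lf (nat_lit 248671) (.g (nat_lit 1786) (.e (nat_lit 147496) (nat_lit 11) (.e (nat_lit 24608) (nat_lit 3) (.e (nat_lit 98341) (nat_lit 20) (.e (nat_lit 221203) (nat_lit 20) .nil)))) .nil))) (.nd (nat_lit 6) 
(.lf (nat_lit 248639) (.g (nat_lit 2194) (.e (nat_lit 147495) (nat_lit 11) (.e (nat_lit 24665) (nat_lit 14) (.e (nat_lit 401444) (nat_lit 9) (.e (nat_lit 426445) (nat_lit 20) .nil)))) .nil)) 
(.lf (nat_lit 248703) (.g (nat_lit 1347) (.e (nat_lit 147496) (nat_lit 11) (.e (nat_lit 24617) (nat_lit 7) (.e (nat_lit 319533) (nat_lit 16) (.e (nat_lit 286752) (nat_lit 10) .nil)))) .nil)))))))))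

noncomputable def tv3220 : DT := (.nd (nat_lit 0) (.nd (nat_lit 1) (.nd (nat_lit 2) (.nd (nat_lit 3) (.nd (nat_lit 4) (.nd (nat_lit 5) (.nd (nat_lit 6) 
(.lf (nat_lit 248704) (.g (nat_lit 1285) (.e (nat_lit 147496) (nat_lit 11) (.e (nat_lit 24617) (nat_lit 7) (.e (nat_lit 319533) (nat_lit 16) (.e (nat_lit 286753) (nat_lit 10) .nil)))) .nil)) 
(.lf (nat_lit 248768) (.g (nat_lit 837) (.e (nat_lit 147496) (nat_lit 11) (.e (nat_lit 24640) (nat_lit 10) (.e (nat_lit 344088) (nat_lit 18) (.e (nat_lit 7219) (nat_lit 382) .nil)))) .nil))) (.nd (nat_lit 6) 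
(.lf (nat_lit 248736) (.g (nat_lit 1312) (.e (nat_lit 147496) (nat_lit 11) (.e (nat_lit 24623) (nat_lit 9) (.e (nat_lit 336438) (nat_lit 31) (.e (nat_lit 466688) (nat_lit 4) .nil)))) .nil)) 
(.lf (nat_lit 248800) (.g (nat_lit 845) (.e (nat_lit 147496) (nat_lit 11) (.e (nat_lit 24654) (nat_lit 13) (.e (nat_lit 393234) (nat_lit 17) (.e (nat_lit 7589) (nat_lit 406) .nil)))) .nil)))) (.nd (nat_lit 5) (.nd (nat_lit 6) 
(.lf (nat_lit 248720) (.g (nat_lit 3707) (.e (nat_lit 147496) (nat_lit 11) (.e (nat_lit 24617) (nat_lit 7) (.e (nat_lit 319534) (nat_lit 16) (.e (nat_lit 286756) (nat_lit 10) (.e (nat_lit 344090) (nat_lit 18) (.e (nat_lit 5569) (nat_lit 308) (.e (nat_lit 57395) (nat_lit 8) .nil))))))) (.g (nat_lit 5) .nil .nil))) 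
(.lf (nat_lit 248784) (.g (nat_lit 2529) (.e (nat_lit 147496) (nat_lit 11) (.e (nat_lit 24640) (nat_lit 10) (.e (nat_lit 344097) (nat_lit 18) (.e (nat_lit 7270) (nat_lit 385) (.e (nat_lit 122915) (nat_lit 14) .nil))))) .nil))) (.nd (nat_lit 6) 
(.lf (nat_lit 248752) (.g (nat_lit 3367) (.e (nat_lit 147496) (nat_lit 11) (.e (nat_lit 24638) (nat_lit 9) (.e (nat_lit 335986) (nat_lit 1) (.e (nat_lit 57655) (nat_lit 152) (.e (nat_lit 1217) (nat_lit 90) (.e (nat_lit 81965) (nat_lit 26) .nil)))))) (.g (nat_lit 0) .nil .nil))) 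
(.lf (nat_lit 248816) (.g (nat_lit 2130) (.e (nat_lit 147496) (nat_lit 11) (.e (nat_lit 24658) (nat_lit 13) (.e (nat_lit 393301) (nat_lit 27) (.e (nat_lit 491552) (nat_lit 9) .nil)))) .nil))))) (.nd (nat_lit 4) (.nd (nat_lit 5) (.nd (nat_lit 6) 
(.lf (nat_lit 248712) (.g (nat_lit 3984) (.e (nat_lit 147496) (nat_lit 11) (.e (nat_lit 24617) (nat_lit 7) (.e (nat_lit 319533) (nat_lit 16) (.e (nat_lit 286753) (nat_lit 10) (.e (nat_lit 344160) (nat_lit 37) (.e (nat_lit 647196) (nat_lit 9) (.e (nat_lit 1313) (nat_lit 98) .nil))))))) (.g (nat_lit 7) .nil .nil))) 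
(.lf (nat_lit 248776) (.g (nat_lit 2771) (.e (nat_lit 147496) (nat_lit 11) (.e (nat_lit 24640) (nat_lit 10) (.e (nat_lit 344095) (nat_lit 18) (.e (nat_lit 7122) (nat_lit 382) (.e (nat_lit 1222) (nat_lit 90) (.e (nat_lit 81963) (nat_lit 26) .nil)))))) (.g (nat_lit 5) .nil .nil)))) (.nd (nat_lit 6) 
(.lf (nat_lit 248744) (.g (nat_lit 867) (.e (nat_lit 147496) (nat_lit 11) (.e (nat_lit 24628) (nat_lit 9) (.e (nat_lit 336395) (nat_lit 27) .nil))) .nil)) 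
(.lf (nat_lit 248808) (.g (nat_lit 2526) (.e (nat_lit 147496) (nat_lit 11) (.e (nat_lit 24658) (nat_lit 13) (.e (nat_lit 393234) (nat_lit 17) (.e (nat_lit 7589) (nat_lit 406) (.e (nat_lit 65578) (nat_lit 6) .nil))))) .nil)))) (.nd (nat_lit 5) (.nd (nat_lit 6) 
(.lf (nat_lit 248728) (.g (nat_lit 3539) (.e (nat_lit 147496) (nat_lit 11) (.e (nat_lit 24617) (nat_lit 7) (.e (nat_lit 319534) (nat_lit 16) (.e (nat_lit 286756) (nat_lit 10) (.e (nat_lit 344160) (nat_lit 37) (.e (nat_lit 647195) (nat_lit 9) (.e (nat_lit 7936) (nat_lit 98) .nil))))))) (.g (nat_lit 6) .nil .nil))) 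
(.lf (nat_lit 248792) (.g (nat_lit 637) (.e (nat_lit 147496) (nat_lit 11) (.e (nat_lit 24640) (nat_lit 10) (.e (nat_lit 344179) (nat_lit 44) .nil))) .nil))) (.nd (nat_lit 6) 
(.lf (nat_lit 248760) (.g (nat_lit 1177) (.e (nat_lit 147496) (nat_lit 11) (.e (nat_lit 24639) (nat_lit 10) (.e (nat_lit 344096) (nat_lit 18) (.e (nat_lit 7132) (nat_lit 382) (.e (nat_lit 7936) (nat_lit 90) .nil))))) .nil)) 
(.lf (nat_lit 248824) (.g (nat_lit 1506) (.e (nat_lit 147496) (nat_lit 11) (.e (nat_lit 24662) (nat_lit 14) (.e (nat_lit 401412) (nat_lit 0) .nil))) .nil)))))) (.nd (nat_lit 3) (.nd (nat_lit 4) (.nd (nat_lit 5) (.nd (nat_lit 6) 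
(.lf (nat_lit 248708) (.g (nat_lit 4141) (.e (nat_lit 147496) (nat_lit 11) (.e (nat_lit 24617) (nat_lit 7) (.e (nat_lit 319533) (nat_lit 16) (.e (nat_lit 286753) (nat_lit 10) (.e (nat_lit 344088) (nat_lit 18) (.e (nat_lit 5573) (nat_lit 308) (.e (nat_lit 57395) (nat_lit 8) .nil))))))) (.g (nat_lit 6) .nil .nil))) 
(.lf (nat_lit 248772) (.g (nat_lit 2903) (.e (nat_lit 147496) (nat_lit 11) (.e (nat_lit 24640) (nat_lit 10) (.e (nat_lit 344091) (nat_lit 18) (.e (nat_lit 7125) (nat_lit 382) (.e (nat_lit 1222) (nat_lit 90) (.e (nat_lit 81963) (nat_lit 26) .nil)))))) (.g (nat_lit 5) .nil .nil)))) (.nd (nat_lit 6) 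
(.lf (nat_lit 248740) (.g (nat_lit 2616) (.e (nat_lit 147496) (nat_lit 11) (.e (nat_lit 24628) (nat_lit 9) (.e (nat_lit 336000) (nat_lit 1) (.e (nat_lit 57655) (nat_lit 152) (.e (nat_lit 1216) (nat_lit 90) (.e (nat_lit 81963) (nat_lit 26) .nil)))))) (.g (nat_lit 0) .nil .nil))) 
(.lf (nat_lit 248804) (.g (nat_lit 596) (.e (nat_lit 147496) (nat_lit 11) (.e (nat_lit 24655) (nat_lit 13) (.e (nat_lit 393234) (nat_lit 17) .nil))) .nil)))) (.nd (nat_lit 5) (.nd (nat_lit 6) 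
(.lf (nat_lit 248724) (.g (nat_lit 2560) (.e (nat_lit 147496) (nat_lit 11) (.e (nat_lit 24617) (nat_lit 7) (.e (nat_lit 319534) (nat_lit 16) (.e (nat_lit 286756) (nat_lit 10) (.e (nat_lit 344157) (nat_lit 36) (.e (nat_lit 638982) (nat_lit 5) (.e (nat_lit 140) (nat_lit 8) .nil))))))) (.g (nat_lit 4) .nil .nil))) 
(.lf (nat_lit 248788) (.g (nat_lit 550) (.e (nat_lit 147496) (nat_lit 11) (.e (nat_lit 24640) (nat_lit 10) (.e (nat_lit 344176) (nat_lit 43) .nil))) .nil))) (.nd (nat_lit 6) 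
(.lf (nat_lit 248756) (.g (nat_lit 1424) (.e (nat_lit 147496) (nat_lit 11) (.e (nat_lit 24638) (nat_lit 9) (.e (nat_lit 335988) (nat_lit 1) (.e (nat_lit 57674) (nat_lit 152) .nil)))) .nil)) 
(.lf (nat_lit 248820) (.g (nat_lit 2637) (.e (nat_lit 147496) (nat_lit 11) (.e (nat_lit 24661) (nat_lit 14) (.e (nat_lit 401454) (nat_lit 12) (.e (nat_lit 475212) (nat_lit 42) .nil)))) .nil))))) (.nd (nat_lit 4) (.nd (nat_lit 5) (.nd (nat_lit 6) 
(.lf (nat_lit 248716) (.g (nat_lit 2743) (.e (nat_lit 147496) (nat_lit 11) (.e (nat_lit 24617) (nat_lit 7) (.e (nat_lit 319534) (nat_lit 16) (.e (nat_lit 286756) (nat_lit 10) (.e (nat_lit 344088) (nat_lit 18) (.e (nat_lit 5568) (nat_lit 308) (.e (nat_lit 57395) (nat_lit 8) .nil))))))) (.g (nat_lit 4) .nil .nil))) 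
(.lf (nat_lit 248780) (.g (nat_lit 1377) (.e (nat_lit 147496) (nat_lit 11) (.e (nat_lit 24640) (nat_lit 10) (.e (nat_lit 344097) (nat_lit 18) (.e (nat_lit 7144) (nat_lit 382) (.e (nat_lit 1217) (nat_lit 90) .nil))))) .nil))) (.nd (nat_lit 6) 
(.lf (nat_lit 248748) (.g (nat_lit 2537) (.e (nat_lit 147496) (nat_lit 11) (.e (nat_lit 24636) (nat_lit 9) (.e (nat_lit 335998) (nat_lit 1) (.e (nat_lit 57655) (nat_lit 152) (.e (nat_lit 1216) (nat_lit 90) (.e (nat_lit 81963) (nat_lit 26) .nil)))))) (.g (nat_lit 0) .nil .nil))) 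
(.lf (nat_lit 248812) (.g (nat_lit 812) (.e (nat_lit 147496) (nat_lit 11) (.e (nat_lit 24658) (nat_lit 13) (.e (nat_lit 393298) (nat_lit 27) .nil))) .nil)))) (.nd (nat_lit 5) (.nd (nat_lit 6) 
(.lf (nat_lit 248732) (.g (nat_lit 420) (.e (nat_lit 147496) (nat_lit 11) (.e (nat_lit 24623) (nat_lit 9) (.e (nat_lit 335997) (nat_lit 1) .nil))) .nil)) 
(.lf (nat_lit 248796) (.g (nat_lit 1200) (.e (nat_lit 147496) (nat_lit 11) (.e (nat_lit 24641) (nat_lit 10) (.e (nat_lit 344100) (nat_lit 18) (.e (nat_lit 7147) (nat_lit 382) (.e (nat_lit 1216) (nat_lit 90) .nil))))) .nil))) (.nd (nat_lit 6) 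
(.lf (nat_lit 248764) (.g (nat_lit 1098) (.e (nat_lit 147496) (nat_lit 11) (.e (nat_lit 24639) (nat_lit 10) (.e (nat_lit 344175) (nat_lit 43) (.e (nat_lit 770074) (nat_lit 10) (.e (nat_lit 81963) (nat_lit 26) .nil))))) .nil)) 
(.lf (nat_lit 248828) (.g (nat_lit 2174) (.e (nat_lit 147496) (nat_lit 11) (.e (nat_lit 24662) (nat_lit 14) (.e (nat_lit 401422) (nat_lit 1) (.e (nat_lit 164163) (nat_lit 152) .nil)))) .nil))))))) (.nd (nat_lit 2) (.nd (nat_lit 3) (.nd (nat_lit 4) (.nd (nat_lit 5) (.nd (nat_lit 6) 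
(.lf (nat_lit 248706) (.g (nat_lit 3641) (.e (nat_lit 147496) (nat_lit 11) (.e (nat_lit 24617) (nat_lit 7) (.e (nat_lit 319533) (nat_lit 16) (.e (nat_lit 286753) (nat_lit 10) (.e (nat_lit 344088) (nat_lit 18) (.e (nat_lit 5568) (nat_lit 308) (.e (nat_lit 57395) (nat_lit 8) .nil))))))) (.g (nat_lit 4) .nil .nil))) 
(.lf (nat_lit 248770) (.g (nat_lit 1554) (.e (nat_lit 147496) (nat_lit 11) (.e (nat_lit 24640) (nat_lit 10) (.e (nat_lit 344090) (nat_lit 18) (.e (nat_lit 7122) (nat_lit 382) (.e (nat_lit 1224) (nat_lit 90) .nil))))) .nil))) (.nd (nat_lit 6) 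
(.lf (nat_lit 248738) (.g (nat_lit 829) (.e (nat_lit 147496) (nat_lit 11) (.e (nat_lit 24628) (nat_lit 9) (.e (nat_lit 335999) (nat_lit 1) .nil))) .nil)) 
(.lf (nat_lit 248802) (.g (nat_lit 1003) (.e (nat_lit 147496) (nat_lit 11) (.e (nat_lit 24654) (nat_lit 13) (.e (nat_lit 393300) (nat_lit 27) (.e (nat_lit 491546) (nat_lit 9) .nil)))) .nil)))) (.nd (nat_lit 5) (.nd (nat_lit 6) 
(.lf (nat_lit 248722) (.g (nat_lit 2646) (.e (nat_lit 147496) (nat_lit 11) (.e (nat_lit 24617) (nat_lit 7) (.e (nat_lit 319534) (nat_lit 16) (.e (nat_lit 286756) (nat_lit 10) (.e (nat_lit 344154) (nat_lit 35) (.e (nat_lit 630790) (nat_lit 5) (.e (nat_lit 140) (nat_lit 8) .nil))))))) (.g (nat_lit 4) .nil .nil))) 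
(.lf (nat_lit 248786) (.g (nat_lit 4532) (.e (nat_lit 147496) (nat_lit 11) (.e (nat_lit 24640) (nat_lit 10) (.e (nat_lit 344097) (nat_lit 18) (.e (nat_lit 7270) (nat_lit 385) (.e (nat_lit 122916) (nat_lit 14) (.e (nat_lit 352324) (nat_lit 26) .nil)))))) (.g (nat_lit 0) .nil .nil)))) (.nd (nat_lit 6) 
(.lf (nat_lit 248754) (.g (nat_lit 1406) (.e (nat_lit 147496) (nat_lit 11) (.e (nat_lit 24638) (nat_lit 9) (.e (nat_lit 335986) (nat_lit 1) (.e (nat_lit 57664) (nat_lit 152) .nil)))) .nil)) 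
(.lf (nat_lit 248818) (.g (nat_lit 851) (.e (nat_lit 147496) (nat_lit 11) (.e (nat_lit 24661) (nat_lit 14) (.e (nat_lit 401414) (nat_lit 0) .nil))) .nil))))) (.nd (nat_lit 4) (.nd (nat_lit 5) (.nd (nat_lit 6) 
(.lf (nat_lit 248714) (.g (nat_lit 2026) (.e (nat_lit 147496) (nat_lit 11) (.e (nat_lit 24617) (nat_lit 7) (.e (nat_lit 319533) (nat_lit 16) (.e (nat_lit 286754) (nat_lit 10) (.e (nat_lit 344161) (nat_lit 37) .nil))))) .nil)) 
(.lf (nat_lit 248778) (.g (nat_lit 2835) (.e (nat_lit 147496) (nat_lit 11) (.e (nat_lit 24640) (nat_lit 10) (.e (nat_lit 344096) (nat_lit 18) (.e (nat_lit 7263) (nat_lit 384) (.e (nat_lit 57424) (nat_lit 14) (.e (nat_lit 352323) (nat_lit 26) .nil)))))) (.g (nat_lit 4) .nil .nil)))) (.nd (nat_lit 6) 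
(.lf (nat_lit 248746) (.g (nat_lit 1145) (.e (nat_lit 147496) (nat_lit 11) (.e (nat_lit 24628) (nat_lit 9) (.e (nat_lit 336423) (nat_lit 28) (.e (nat_lit 442112) (nat_lit 4) .nil)))) .nil)) 
(.lf (nat_lit 248810) (.g (nat_lit 1511) (.e (nat_lit 147496) (nat_lit 11) (.e (nat_lit 24658) (nat_lit 13) (.e (nat_lit 393238) (nat_lit 17) (.e (nat_lit 7936) (nat_lit 406) .nil)))) .nil)))) (.nd (nat_lit 5) (.nd (nat_lit 6) 
(.lf (nat_lit 248730) (.g (nat_lit 1493) (.e (nat_lit 147496) (nat_lit 11) (.e (nat_lit 24623) (nat_lit 9) (.e (nat_lit 335907) (nat_lit 0) (.e (nat_lit 968) (nat_lit 81) .nil)))) .nil)) 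
(.lf (nat_lit 248794) (.g (nat_lit 1571) (.e (nat_lit 147496) (nat_lit 11) (.e (nat_lit 24641) (nat_lit 10) (.e (nat_lit 344096) (nat_lit 18) (.e (nat_lit 7125) (nat_lit 382) (.e (nat_lit 7936) (nat_lit 90) .nil))))) .nil))) (.nd (nat_lit 6) 
(.lf (nat_lit 248762) (.g (nat_lit 3097) (.e (nat_lit 147496) (nat_lit 11) (.e (nat_lit 24639) (nat_lit 10) (.e (nat_lit 344097) (nat_lit 18) (.e (nat_lit 7147) (nat_lit 382) (.e (nat_lit 1217) (nat_lit 90) (.e (nat_lit 81965) (nat_lit 26) .nil)))))) (.g (nat_lit 0) .nil .nil))) 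
(.lf (nat_lit 248826) (.g (nat_lit 1346) (.e (nat_lit 147496) (nat_lit 11) (.e (nat_lit 24662) (nat_lit 14) (.e (nat_lit 401422) (nat_lit 1) .nil))) .nil)))))) (.nd (nat_lit 3) (.nd (nat_lit 4) (.nd (nat_lit 5) (.nd (nat_lit 6) 
(.lf (nat_lit 248710) (.g (nat_lit 3639) (.e (nat_lit 147496) (nat_lit 11) (.e (nat_lit 24617) (nat_lit 7) (.e (nat_lit 319533) (nat_lit 16) (.e (nat_lit 286753) (nat_lit 10) (.e (nat_lit 344160) (nat_lit 37) (.e (nat_lit 647188) (nat_lit 9) (.e (nat_lit 1309) (nat_lit 98) .nil))))))) (.g (nat_lit 5) .nil .nil))) 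
(.lf (nat_lit 248774) (.g (nat_lit 665) (.e (nat_lit 147496) (nat_lit 11) (.e (nat_lit 24640) (nat_lit 10) (.e (nat_lit 344092) (nat_lit 18) .nil))) .nil))) (.nd (nat_lit 6) 
(.lf (nat_lit 248742) (.g (nat_lit 1843) (.e (nat_lit 147496) (nat_lit 11) (.e (nat_lit 24628) (nat_lit 9) (.e (nat_lit 336369) (nat_lit 27) (.e (nat_lit 426025) (nat_lit 0) .nil)))) .nil)) 
(.lf (nat_lit 248806) (.g (nat_lit 1787) (.e (nat_lit 147496) (nat_lit 11) (.e (nat_lit 24658) (nat_lit 13) (.e (nat_lit 393232) (nat_lit 17) (.e (nat_lit 7587) (nat_lit 406) .nil)))) .nil)))) (.nd (nat_lit 5) (.nd (nat_lit 6) 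
(.lf (nat_lit 248726) (.g (nat_lit 3318) (.e (nat_lit 147496) (nat_lit 11) (.e (nat_lit 24617) (nat_lit 7) (.e (nat_lit 319534) (nat_lit 16) (.e (nat_lit 286756) (nat_lit 10) (.e (nat_lit 344160) (nat_lit 37) (.e (nat_lit 647188) (nat_lit 9) (.e (nat_lit 1309) (nat_lit 98) .nil))))))) (.g (nat_lit 4) .nil .nil))) 
(.lf (nat_lit 248790) (.g (nat_lit 1278) (.e (nat_lit 147496) (nat_lit 11) (.e (nat_lit 24640) (nat_lit 10) (.e (nat_lit 344177) (nat_lit 43) (.e (nat_lit 777984) (nat_lit 10) .nil)))) .nil))) (.nd (nat_lit 6) 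
(.lf (nat_lit 248758) (.g (nat_lit 2524) (.e (nat_lit 147496) (nat_lit 11) (.e (nat_lit 24639) (nat_lit 10) (.e (nat_lit 344095) (nat_lit 18) (.e (nat_lit 7122) (nat_lit 382) (.e (nat_lit 1222) (nat_lit 90) (.e (nat_lit 81963) (nat_lit 26) .nil)))))) (.g (nat_lit 5) .nil .nil))) 
(.lf (nat_lit 248822) (.g (nat_lit 2130) (.e (nat_lit 147496) (nat_lit 11) (.e (nat_lit 24662) (nat_lit 14) (.e (nat_lit 401410) (nat_lit 0) .nil))) .nil))))) (.nd (nat_lit 4) (.nd (nat_lit 5) (.nd (nat_lit 6) 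
(.lf (nat_lit 248718) (.g (nat_lit 3462) (.e (nat_lit 147496) (nat_lit 11) (.e (nat_lit 24617) (nat_lit 7) (.e (nat_lit 319534) (nat_lit 16) (.e (nat_lit 286756) (nat_lit 10) (.e (nat_lit 344090) (nat_lit 18) (.e (nat_lit 5566) (nat_lit 308) (.e (nat_lit 57395) (nat_lit 8) .nil))))))) (.g (nat_lit 4) .nil .nil))) 
(.lf (nat_lit 248782) (.g (nat_lit 1363) (.e (nat_lit 147496) (nat_lit 11) (.e (nat_lit 24640) (nat_lit 10) (.e (nat_lit 344097) (nat_lit 18) (.e (nat_lit 7151) (nat_lit 382) (.e (nat_lit 7936) (nat_lit 90) .nil))))) .nil))) (.nd (nat_lit 6) 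
(.lf (nat_lit 248750) (.g (nat_lit 631) (.e (nat_lit 147496) (nat_lit 11) (.e (nat_lit 24638) (nat_lit 9) (.e (nat_lit 335897) (nat_lit 0) (.e (nat_lit 2271) (nat_lit 149) .nil)))) .nil)) 
(.lf (nat_lit 248814) (.g (nat_lit 1293) (.e (nat_lit 147496) (nat_lit 11) (.e (nat_lit 24658) (nat_lit 13) (.e (nat_lit 393300) (nat_lit 27) (.e (nat_lit 491546) (nat_lit 9) .nil)))) .nil)))) (.nd (nat_lit 5) (.nd (nat_lit 6) 
(.lf (nat_lit 248734) (.g (nat_lit 541) (.e (nat_lit 147496) (nat_lit 11) (.e (nat_lit 24623) (nat_lit 9) (.e (nat_lit 336048) (nat_lit 6) .nil))) .nil)) 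
(.lf (nat_lit 248798) (.g (nat_lit 570) (.e (nat_lit 147496) (nat_lit 11) (.e (nat_lit 24654) (nat_lit 13) (.e (nat_lit 393232) (nat_lit 17) (.e (nat_lit 7936) (nat_lit 406) .nil)))) .nil))) (.nd (nat_lit 6) 
(.lf (nat_lit 248766) (.g (nat_lit 1421) (.e (nat_lit 147496) (nat_lit 11) (.e (nat_lit 24640) (nat_lit 10) (.e (nat_lit 344088) (nat_lit 18) (.e (nat_lit 7122) (nat_lit 382) (.e (nat_lit 7936) (nat_lit 90) .nil))))) .nil)) 
(.lf (nat_lit 248830) (.g (nat_lit 4116) (.e (nat_lit 147496) (nat_lit 11) (.e (nat_lit 24662) (nat_lit 14) (.e (nat_lit 401454) (nat_lit 12) (.e (nat_lit 475213) (nat_lit 42) .nil)))) .nil)))))))) (.nd (nat_lit 1) (.nd (nat_lit 2) (.nd (nat_lit 3) (.nd (nat_lit 4) (.nd (nat_lit 5) (.nd (nat_lit 6) 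
(.lf (nat_lit 248705) (.g (nat_lit 3613) (.e (nat_lit 147496) (nat_lit 11) (.e (nat_lit 24617) (nat_lit 7) (.e (nat_lit 319533) (nat_lit 16) (.e (nat_lit 286753) (nat_lit 10) (.e (nat_lit 344088) (nat_lit 18) (.e (nat_lit 5567) (nat_lit 308) (.e (nat_lit 57395) (nat_lit 8) .nil))))))) (.g (nat_lit 4) .nil .nil))) 
(.lf (nat_lit 248769) (.g (nat_lit 2640) (.e (nat_lit 147496) (nat_lit 11) (.e (nat_lit 24640) (nat_lit 10) (.e (nat_lit 344090) (nat_lit 18) (.e (nat_lit 7122) (nat_lit 382) (.e (nat_lit 1222) (nat_lit 90) (.e (nat_lit 81963) (nat_lit 26) .nil)))))) (.g (nat_lit 5) .nil .nil)))) (.nd (nat_lit 6) 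
(.lf (nat_lit 248737) (.g (nat_lit 603) (.e (nat_lit 147496) (nat_lit 11) (.e (nat_lit 24628) (nat_lit 9) (.e (nat_lit 335878) (nat_lit 0) (.e (nat_lit 2267) (nat_lit 149) .nil)))) .nil)) 
(.lf (nat_lit 248801) (.g (nat_lit 1800) (.e (nat_lit 147496) (nat_lit 11) (.e (nat_lit 24654) (nat_lit 13) (.e (nat_lit 393299) (nat_lit 27) (.e (nat_lit 491546) (nat_lit 9) (.e (nat_lit 336048) (nat_lit 6) .nil))))) .nil)))) (.nd (nat_lit 5) (.nd (nat_lit 6) 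
(.lf (nat_lit 248721) (.g (nat_lit 3132) (.e (nat_lit 147496) (nat_lit 11) (.e (nat_lit 24617) (nat_lit 7) (.e (nat_lit 319534) (nat_lit 16) (.e (nat_lit 286756) (nat_lit 10) (.e (nat_lit 344090) (nat_lit 18) (.e (nat_lit 5570) (nat_lit 308) (.e (nat_lit 57395) (nat_lit 8) .nil))))))) (.g (nat_lit 4) .nil .nil))) 
(.lf (nat_lit 248785) (.g (nat_lit 2895) (.e (nat_lit 147496) (nat_lit 11) (.e (nat_lit 24640) (nat_lit 10) (.e (nat_lit 344097) (nat_lit 18) (.e (nat_lit 7270) (nat_lit 385) (.e (nat_lit 122916) (nat_lit 14) (.e (nat_lit 352323) (nat_lit 26) .nil)))))) (.g (nat_lit 4) .nil .nil)))) (.nd (nat_lit 6) 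
(.lf (nat_lit 248753) (.g (nat_lit 1456) (.e (nat_lit 147496) (nat_lit 11) (.e (nat_lit 24638) (nat_lit 9) (.e (nat_lit 335986) (nat_lit 1) (.e (nat_lit 57657) (nat_lit 152) .nil)))) .nil)) 
(.lf (nat_lit 248817) (.g (nat_lit 864) (.e (nat_lit 147496) (nat_lit 11) (.e (nat_lit 24661) (nat_lit 14) (.e (nat_lit 401412) (nat_lit 0) .nil))) .nil))))) (.nd (nat_lit 4) (.nd (nat_lit 5) (.nd (nat_lit 6) 
(.lf (nat_lit 248713) (.g (nat_lit 2021) (.e (nat_lit 147496) (nat_lit 11) (.e (nat_lit 24617) (nat_lit 7) (.e (nat_lit 319533) (nat_lit 16) (.e (nat_lit 286754) (nat_lit 10) (.e (nat_lit 344160) (nat_lit 37) .nil))))) .nil)) 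
(.lf (nat_lit 248777) (.g (nat_lit 2557) (.e (nat_lit 147496) (nat_lit 11) (.e (nat_lit 24640) (nat_lit 10) (.e (nat_lit 344096) (nat_lit 18) (.e (nat_lit 7261) (nat_lit 384) (.e (nat_lit 57424) (nat_lit 14) (.e (nat_lit 352323) (nat_lit 26) .nil)))))) (.g (nat_lit 4) .nil .nil)))) (.nd (nat_lit 6) 
(.lf (nat_lit 248745) (.g (nat_lit 867) (.e (nat_lit 147496) (nat_lit 11) (.e (nat_lit 24628) (nat_lit 9) (.e (nat_lit 336422) (nat_lit 28) .nil))) .nil)) 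
(.lf (nat_lit 248809) (.g (nat_lit 2008) (.e (nat_lit 147496) (nat_lit 11) (.e (nat_lit 24658) (nat_lit 13) (.e (nat_lit 393234) (nat_lit 17) (.e (nat_lit 7936) (nat_lit 406) .nil)))) .nil)))) (.nd (nat_lit 5) (.nd (nat_lit 6) 
(.lf (nat_lit 248729) (.g (nat_lit 3517) (.e (nat_lit 147496) (nat_lit 11) (.e (nat_lit 24617) (nat_lit 7) (.e (nat_lit 319534) (nat_lit 16) (.e (nat_lit 286756) (nat_lit 10) (.e (nat_lit 344160) (nat_lit 37) (.e (nat_lit 647196) (nat_lit 9) (.e (nat_lit 1313) (nat_lit 98) .nil))))))) (.g (nat_lit 5) .nil .nil))) 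
(.lf (nat_lit 248793) (.g (nat_lit 1763) (.e (nat_lit 147496) (nat_lit 11) (.e (nat_lit 24640) (nat_lit 10) (.e (nat_lit 344179) (nat_lit 44) (.e (nat_lit 778362) (nat_lit 9) (.e (nat_lit 314) (nat_lit 23) .nil))))) .nil))) (.nd (nat_lit 6) 
(.lf (nat_lit 248761) (.g (nat_lit 2852) (.e (nat_lit 147496) (nat_lit 11) (.e (nat_lit 24639) (nat_lit 10) (.e (nat_lit 344096) (nat_lit 18) (.e (nat_lit 7265) (nat_lit 384) (.e (nat_lit 57424) (nat_lit 14) (.e (nat_lit 352323) (nat_lit 26) .nil)))))) (.g (nat_lit 5) .nil .nil))) 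
(.lf (nat_lit 248825) (.g (nat_lit 2836) (.e (nat_lit 147496) (nat_lit 11) (.e (nat_lit 24662) (nat_lit 14) (.e (nat_lit 401412) (nat_lit 0) (.e (nat_lit 3453) (nat_lit 216) .nil)))) .nil)))))) (.nd (nat_lit 3) (.nd (nat_lit 4) (.nd (nat_lit 5) (.nd (nat_lit 6) 
(.lf (nat_lit 248709) (.g (nat_lit 3270) (.e (nat_lit 147496) (nat_lit 11) (.e (nat_lit 24617) (nat_lit 7) (.e (nat_lit 319533) (nat_lit 16) (.e (nat_lit 286753) (nat_lit 10) (.e (nat_lit 344088) (nat_lit 18) (.e (nat_lit 5573) (nat_lit 308) (.e (nat_lit 57396) (nat_lit 8) .nil))))))) (.g (nat_lit 4) .nil .nil))) 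
(.lf (nat_lit 248773) (.g (nat_lit 2678) (.e (nat_lit 147496) (nat_lit 11) (.e (nat_lit 24640) (nat_lit 10) (.e (nat_lit 344091) (nat_lit 18) (.e (nat_lit 7125) (nat_lit 382) (.e (nat_lit 1224) (nat_lit 90) (.e (nat_lit 81963) (nat_lit 26) .nil)))))) (.g (nat_lit 5) .nil .nil)))) (.nd (nat_lit 6) 
(.lf (nat_lit 248741) (.g (nat_lit 867) (.e (nat_lit 147496) (nat_lit 11) (.e (nat_lit 24628) (nat_lit 9) (.e (nat_lit 336369) (nat_lit 27) .nil))) .nil)) 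
(.lf (nat_lit 248805) (.g (nat_lit 1763) (.e (nat_lit 147496) (nat_lit 11) (.e (nat_lit 24658) (nat_lit 13) (.e (nat_lit 393231) (nat_lit 17) (.e (nat_lit 7587) (nat_lit 406) (.e (nat_lit 65580) (nat_lit 6) .nil))))) .nil)))) (.nd (nat_lit 5) (.nd (nat_lit 6) 
(.lf (nat_lit 248725) (.g (nat_lit 2454) (.e (nat_lit 147496) (nat_lit 11) (.e (nat_lit 24617) (nat_lit 7) (.e (nat_lit 319534) (nat_lit 16) (.e (nat_lit 286756) (nat_lit 10) (.e (nat_lit 344157) (nat_lit 36) (.e (nat_lit 638983) (nat_lit 5) (.e (nat_lit 140) (nat_lit 8) .nil))))))) (.g (nat_lit 4) .nil .nil))) 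
(.lf (nat_lit 248789) (.g (nat_lit 1170) (.e (nat_lit 147496) (nat_lit 11) (.e (nat_lit 24640) (nat_lit 10) (.e (nat_lit 344176) (nat_lit 43) (.e (nat_lit 770070) (nat_lit 8) .nil)))) .nil))) (.nd (nat_lit 6) 
(.lf (nat_lit 248757) (.g (nat_lit 2566) (.e (nat_lit 147496) (nat_lit 11) (.e (nat_lit 24639) (nat_lit 10) (.e (nat_lit 344090) (nat_lit 18) (.e (nat_lit 7265) (nat_lit 384) (.e (nat_lit 57424) (nat_lit 14) (.e (nat_lit 352323) (nat_lit 26) .nil)))))) (.g (nat_lit 5) .nil .nil))) 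
(.lf (nat_lit 248821) (.g (nat_lit 3153) (.e (nat_lit 147496) (nat_lit 11) (.e (nat_lit 24661) (nat_lit 14) (.e (nat_lit 401454) (nat_lit 12) (.e (nat_lit 475213) (nat_lit 42) .nil)))) .nil))))) (.nd (nat_lit 4) (.nd (nat_lit 5) (.nd (nat_lit 6) 
(.lf (nat_lit 248717) (.g (nat_lit 3298) (.e (nat_lit 147496) (nat_lit 11) (.e (nat_lit 24617) (nat_lit 7) (.e (nat_lit 319534) (nat_lit 16) (.e (nat_lit 286756) (nat_lit 10) (.e (nat_lit 344088) (nat_lit 18) (.e (nat_lit 5573) (nat_lit 308) (.e (nat_lit 57395) (nat_lit 8) .nil))))))) (.g (nat_lit 4) .nil .nil))) 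
(.lf (nat_lit 248781) (.g (nat_lit 3564) (.e (nat_lit 147496) (nat_lit 11) (.e (nat_lit 24640) (nat_lit 10) (.e (nat_lit 344097) (nat_lit 18) (.e (nat_lit 7147) (nat_lit 382) (.e (nat_lit 1217) (nat_lit 90) (.e (nat_lit 81965) (nat_lit 26) .nil)))))) (.g (nat_lit 0) .nil .nil)))) (.nd (nat_lit 6) 
(.lf (nat_lit 248749) (.g (nat_lit 2697) (.e (nat_lit 147496) (nat_lit 11) (.e (nat_lit 24636) (nat_lit 9) (.e (nat_lit 335998) (nat_lit 1) (.e (nat_lit 57655) (nat_lit 152) (.e (nat_lit 1216) (nat_lit 90) (.e (nat_lit 81965) (nat_lit 26) .nil)))))) (.g (nat_lit 0) .nil .nil))) 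
(.lf (nat_lit 248813) (.g (nat_lit 2161) (.e (nat_lit 147496) (nat_lit 11) (.e (nat_lit 24658) (nat_lit 13) (.e (nat_lit 393298) (nat_lit 27) (.e (nat_lit 491552) (nat_lit 9) .nil)))) .nil)))) (.nd (nat_lit 5) (.nd (nat_lit 6) 
(.lf (nat_lit 248733) (.g (nat_lit 1340) (.e (nat_lit 147496) (nat_lit 11) (.e (nat_lit 24623) (nat_lit 9) (.e (nat_lit 335997) (nat_lit 1) (.e (nat_lit 57684) (nat_lit 155) .nil)))) .nil)) 
(.lf (nat_lit 248797) (.g (nat_lit 639) (.e (nat_lit 147496) (nat_lit 11) (.e (nat_lit 24651) (nat_lit 12) (.e (nat_lit 385047) (nat_lit 21) .nil))) .nil))) (.nd (nat_lit 6) 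
(.lf (nat_lit 248765) (.g (nat_lit 665) (.e (nat_lit 147496) (nat_lit 11) (.e (nat_lit 24640) (nat_lit 10) (.e (nat_lit 344087) (nat_lit 18) .nil))) .nil)) 
(.lf (nat_lit 248829) (.g (nat_lit 3402) (.e (nat_lit 147496) (nat_lit 11) (.e (nat_lit 24662) (nat_lit 14) (.e (nat_lit 401454) (nat_lit 12) (.e (nat_lit 475212) (nat_lit 42) .nil)))) .nil))))))) (.nd (nat_lit 2) (.nd (nat_lit 3) (.nd (nat_lit 4) (.nd (nat_lit 5) (.nd (nat_lit 6) 
(.lf (nat_lit 248707) (.g (nat_lit 3432) (.e (nat_lit 147496) (nat_lit 11) (.e (nat_lit 24617) (nat_lit 7) (.e (nat_lit 319533) (nat_lit 16) (.e (nat_lit 286753) (nat_lit 10) (.e (nat_lit 344088) (nat_lit 18) (.e (nat_lit 5569) (nat_lit 308) (.e (nat_lit 57395) (nat_lit 8) .nil))))))) (.g (nat_lit 4) .nil .nil))) 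
(.lf (nat_lit 248771) (.g (nat_lit 2593) (.e (nat_lit 147496) (nat_lit 11) (.e (nat_lit 24640) (nat_lit 10) (.e (nat_lit 344090) (nat_lit 18) (.e (nat_lit 7266) (nat_lit 384) (.e (nat_lit 57424) (nat_lit 14) (.e (nat_lit 352323) (nat_lit 26) .nil)))))) (.g (nat_lit 4) .nil .nil)))) (.nd (nat_lit 6) 
(.lf (nat_lit 248739) (.g (nat_lit 1036) (.e (nat_lit 147496) (nat_lit 11) (.e (nat_lit 24628) (nat_lit 9) (.e (nat_lit 335999) (nat_lit 1) (.e (nat_lit 57655) (nat_lit 152) .nil)))) .nil)) 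
(.lf (nat_lit 248803) (.g (nat_lit 1332) (.e (nat_lit 147496) (nat_lit 11) (.e (nat_lit 24654) (nat_lit 13) (.e (nat_lit 393301) (nat_lit 27) (.e (nat_lit 491552) (nat_lit 9) .nil)))) .nil)))) (.nd (nat_lit 5) (.nd (nat_lit 6) 
(.lf (nat_lit 248723) (.g (nat_lit 2869) (.e (nat_lit 147496) (nat_lit 11) (.e (nat_lit 24617) (nat_lit 7) (.e (nat_lit 319534) (nat_lit 16) (.e (nat_lit 286756) (nat_lit 10) (.e (nat_lit 344156) (nat_lit 36) (.e (nat_lit 638983) (nat_lit 5) (.e (nat_lit 140) (nat_lit 8) .nil))))))) (.g (nat_lit 4) .nil .nil))) 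
(.lf (nat_lit 248787) (.g (nat_lit 661) (.e (nat_lit 147496) (nat_lit 11) (.e (nat_lit 24640) (nat_lit 10) (.e (nat_lit 344101) (nat_lit 18) .nil))) .nil))) (.nd (nat_lit 6) 
(.lf (nat_lit 248755) (.g (nat_lit 1616) (.e (nat_lit 147496) (nat_lit 11) (.e (nat_lit 24638) (nat_lit 9) (.e (nat_lit 335988) (nat_lit 1) (.e (nat_lit 57663) (nat_lit 152) .nil)))) .nil)) 
(.lf (nat_lit 248819) (.g (nat_lit 1789) (.e (nat_lit 147496) (nat_lit 11) (.e (nat_lit 24661) (nat_lit 14) (.e (nat_lit 401414) (nat_lit 0) (.e (nat_lit 3459) (nat_lit 216) .nil)))) .nil))))) (.nd (nat_lit 4) (.nd (nat_lit 5) (.nd (nat_lit 6) 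
(.lf (nat_lit 248715) (.g (nat_lit 2715) (.e (nat_lit 147496) (nat_lit 11) (.e (nat_lit 24617) (nat_lit 7) (.e (nat_lit 319534) (nat_lit 16) (.e (nat_lit 286756) (nat_lit 10) (.e (nat_lit 344088) (nat_lit 18) (.e (nat_lit 5567) (nat_lit 308) (.e (nat_lit 57395) (nat_lit 8) .nil))))))) (.g (nat_lit 4) .nil .nil))) 
(.lf (nat_lit 248779) (.g (nat_lit 3582) (.e (nat_lit 147496) (nat_lit 11) (.e (nat_lit 24640) (nat_lit 10) (.e (nat_lit 344096) (nat_lit 18) (.e (nat_lit 7265) (nat_lit 384) (.e (nat_lit 57424) (nat_lit 14) (.e (nat_lit 352323) (nat_lit 26) .nil)))))) (.g (nat_lit 5) .nil .nil)))) (.nd (nat_lit 6) 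
(.lf (nat_lit 248747) (.g (nat_lit 905) (.e (nat_lit 147496) (nat_lit 11) (.e (nat_lit 24628) (nat_lit 9) (.e (nat_lit 336439) (nat_lit 31) (.e (nat_lit 466688) (nat_lit 4) .nil)))) .nil)) 
(.lf (nat_lit 248811) (.g (nat_lit 898) (.e (nat_lit 147496) (nat_lit 11) (.e (nat_lit 24658) (nat_lit 13) (.e (nat_lit 393240) (nat_lit 17) .nil))) .nil)))) (.nd (nat_lit 5) (.nd (nat_lit 6) 
(.lf (nat_lit 248731) (.g (nat_lit 1484) (.e (nat_lit 147496) (nat_lit 11) (.e (nat_lit 24623) (nat_lit 9) (.e (nat_lit 335907) (nat_lit 0) (.e (nat_lit 970) (nat_lit 81) .nil)))) .nil)) 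
(.lf (nat_lit 248795) (.g (nat_lit 2056) (.e (nat_lit 147496) (nat_lit 11) (.e (nat_lit 24641) (nat_lit 10) (.e (nat_lit 344096) (nat_lit 18) (.e (nat_lit 7265) (nat_lit 384) (.e (nat_lit 57424) (nat_lit 14) (.e (nat_lit 352323) (nat_lit 26) .nil)))))) (.g (nat_lit 4) .nil .nil)))) (.nd (nat_lit 6) 
(.lf (nat_lit 248763) (.g (nat_lit 1270) (.e (nat_lit 147496) (nat_lit 11) (.e (nat_lit 24639) (nat_lit 10) (.e (nat_lit 344097) (nat_lit 18) (.e (nat_lit 7160) (nat_lit 382) (.e (nat_lit 7936) (nat_lit 90) .nil))))) .nil)) 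
(.lf (nat_lit 248827) (.g (nat_lit 2171) (.e (nat_lit 147496) (nat_lit 11) (.e (nat_lit 24662) (nat_lit 14) (.e (nat_lit 401422) (nat_lit 1) (.e (nat_lit 164149) (nat_lit 152) .nil)))) .nil)))))) (.nd (nat_lit 3) (.nd (nat_lit 4) (.nd (nat_lit 5) (.nd (nat_lit 6) 
(.lf (nat_lit 248711) (.g (nat_lit 3771) (.e (nat_lit 147496) (nat_lit 11) (.e (nat_lit 24617) (nat_lit 7) (.e (nat_lit 319533) (nat_lit 16) (.e (nat_lit 286753) (nat_lit 10) (.e (nat_lit 344160) (nat_lit 37) (.e (nat_lit 647190) (nat_lit 9) (.e (nat_lit 7936) (nat_lit 98) .nil))))))) (.g (nat_lit 6) .nil .nil))) 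
(.lf (nat_lit 248775) (.g (nat_lit 686) (.e (nat_lit 147496) (nat_lit 11) (.e (nat_lit 24640) (nat_lit 10) (.e (nat_lit 344093) (nat_lit 18) .nil))) .nil))) (.nd (nat_lit 6) 
(.lf (nat_lit 248743) (.g (nat_lit 884) (.e (nat_lit 147496) (nat_lit 11) (.e (nat_lit 24628) (nat_lit 9) (.e (nat_lit 336374) (nat_lit 27) .nil))) .nil)) 
(.lf (nat_lit 248807) (.g (nat_lit 1816) (.e (nat_lit 147496) (nat_lit 11) (.e (nat_lit 24658) (nat_lit 13) (.e (nat_lit 393234) (nat_lit 17) (.e (nat_lit 7587) (nat_lit 406) .nil)))) .nil)))) (.nd (nat_lit 5) (.nd (nat_lit 6) 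
(.lf (nat_lit 248727) (.g (nat_lit 3567) (.e (nat_lit 147496) (nat_lit 11) (.e (nat_lit 24617) (nat_lit 7) (.e (nat_lit 319534) (nat_lit 16) (.e (nat_lit 286756) (nat_lit 10) (.e (nat_lit 344160) (nat_lit 37) (.e (nat_lit 647190) (nat_lit 9) (.e (nat_lit 7936) (nat_lit 98) .nil))))))) (.g (nat_lit 6) .nil .nil))) 
(.lf (nat_lit 248791) (.g (nat_lit 635) (.e (nat_lit 147496) (nat_lit 11) (.e (nat_lit 24640) (nat_lit 10) (.e (nat_lit 344178) (nat_lit 44) .nil))) .nil))) (.nd (nat_lit 6) 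
(.lf (nat_lit 248759) (.g (nat_lit 3136) (.e (nat_lit 147496) (nat_lit 11) (.e (nat_lit 24639) (nat_lit 10) (.e (nat_lit 344096) (nat_lit 18) (.e (nat_lit 7122) (nat_lit 382) (.e (nat_lit 1222) (nat_lit 90) (.e (nat_lit 81963) (nat_lit 26) .nil)))))) (.g (nat_lit 5) .nil .nil))) 
(.lf (nat_lit 248823) (.g (nat_lit 3895) (.e (nat_lit 147496) (nat_lit 11) (.e (nat_lit 24662) (nat_lit 14) (.e (nat_lit 401410) (nat_lit 0) (.e (nat_lit 3453) (nat_lit 216) .nil)))) .nil))))) (.nd (nat_lit 4) (.nd (nat_lit 5) (.nd (nat_lit 6) 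
(.lf (nat_lit 248719) (.g (nat_lit 2990) (.e (nat_lit 147496) (nat_lit 11) (.e (nat_lit 24617) (nat_lit 7) (.e (nat_lit 319534) (nat_lit 16) (.e (nat_lit 286756) (nat_lit 10) (.e (nat_lit 344090) (nat_lit 18) (.e (nat_lit 5566) (nat_lit 308) (.e (nat_lit 57396) (nat_lit 8) .nil))))))) (.g (nat_lit 4) .nil .nil))) 
(.lf (nat_lit 248783) (.g (nat_lit 2379) (.e (nat_lit 147496) (nat_lit 11) (.e (nat_lit 24640) (nat_lit 10) (.e (nat_lit 344097) (nat_lit 18) (.e (nat_lit 7270) (nat_lit 385) (.e (nat_lit 122914) (nat_lit 14) .nil))))) .nil))) (.nd (nat_lit 6) 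
(.lf (nat_lit 248751) (.g (nat_lit 3000) (.e (nat_lit 147496) (nat_lit 11) (.e (nat_lit 24638) (nat_lit 9) (.e (nat_lit 335986) (nat_lit 1) (.e (nat_lit 57655) (nat_lit 152) (.e (nat_lit 1217) (nat_lit 90) (.e (nat_lit 81963) (nat_lit 26) .nil)))))) (.g (nat_lit 0) .nil .nil))) 
(.lf (nat_lit 248815) (.g (nat_lit 2055) (.e (nat_lit 147496) (nat_lit 11) (.e (nat_lit 24658) (nat_lit 13) (.e (nat_lit 393301) (nat_lit 27) (.e (nat_lit 491546) (nat_lit 9) .nil)))) .nil)))) (.nd (nat_lit 5) (.nd (nat_lit 6) 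
(.lf (nat_lit 248735) (.g (nat_lit 1727) (.e (nat_lit 147496) (nat_lit 11) (.e (nat_lit 24623) (nat_lit 9) (.e (nat_lit 336389) (nat_lit 27) (.e (nat_lit 426344) (nat_lit 14) .nil)))) .nil)) 
(.lf (nat_lit 248799) (.g (nat_lit 1079) (.e (nat_lit 147496) (nat_lit 11) (.e (nat_lit 24654) (nat_lit 13) (.e (nat_lit 393234) (nat_lit 17) (.e (nat_lit 7587) (nat_lit 406) .nil)))) .nil))) (.nd (nat_lit 6) 
(.lf (nat_lit 248767) (.g (nat_lit 2490) (.e (nat_lit 147496) (nat_lit 11) (.e (nat_lit 24640) (nat_lit 10) (.e (nat_lit 344088) (nat_lit 18) (.e (nat_lit 7125) (nat_lit 382) (.e (nat_lit 1222) (nat_lit 90) (.e (nat_lit 81963) (nat_lit 26) .nil)))))) (.g (nat_lit 5) .nil .nil))) 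
(.lf (nat_lit 248831) (.g (nat_lit 3992) (.e (nat_lit 147496) (nat_lit 11) (.e (nat_lit 24662) (nat_lit 14) (.e (nat_lit 401454) (nat_lit 12) (.e (nat_lit 475214) (nat_lit 42) .nil)))) .nil)))))))))

noncomputable def tv3221 : DT := (.nd (nat_lit 0) (.nd (nat_lit 1) (.nd (nat_lit 2) (.nd (nat_lit 3) (.nd (nat_lit 4) (.nd (nat_lit 5) (.nd (nat_lit 6) 
(.lf (nat_lit 248832) (.g (nat_lit 3815) (.e (nat_lit 147496) (nat_lit 11) (.e (nat_lit 24662) (nat_lit 14) (.e (nat_lit 401454) (nat_lit 12) (.e (nat_lit 475215) (nat_lit 43) .nil)))) .nil)) 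
(.lf (nat_lit 248896) (.g (nat_lit 2178) (.e (nat_lit 147500) (nat_lit 12) (.e (nat_lit 163977) (nat_lit 30) (.e (nat_lit 573475) (nat_lit 12) (.e (nat_lit 57549) (nat_lit 48) (.e (nat_lit 720945) (nat_lit 23) .nil))))) .nil))) (.nd (nat_lit 6) 
(.lf (nat_lit 248864) (.g (nat_lit 1187) (.e (nat_lit 147498) (nat_lit 12) (.e (nat_lit 164058) (nat_lit 56) (.e (nat_lit 786489) (nat_lit 34) (.e (nat_lit 393271) (nat_lit 23) (.e (nat_lit 426131) (nat_lit 3) (.e (nat_lit 204842) (nat_lit 22) .nil)))))) (.g (nat_lit 5) .nil .nil))) 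
(.lf (nat_lit 248928) (.g (nat_lit 2039) (.e (nat_lit 147503) (nat_lit 12) (.e (nat_lit 163979) (nat_lit 30) (.e (nat_lit 573475) (nat_lit 12) (.e (nat_lit 57549) (nat_lit 48) .nil)))) .nil)))) (.nd (nat_lit 5) (.nd (nat_lit 6) 
(.lf (nat_lit 248848) (.g (nat_lit 1994) (.e (nat_lit 147498) (nat_lit 12) (.e (nat_lit 163976) (nat_lit 30) (.e (nat_lit 573474) (nat_lit 12) (.e (nat_lit 57555) (nat_lit 49) .nil)))) .nil)) 
(.lf (nat_lit 248912) (.g (nat_lit 652) (.e (nat_lit 147503) (nat_lit 12) (.e (nat_lit 163979) (nat_lit 30) (.e (nat_lit 573452) (nat_lit 9) .nil))) .nil))) (.nd (nat_lit 6) 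
(.lf (nat_lit 248880) (.g (nat_lit 2218) (.e (nat_lit 147500) (nat_lit 12) (.e (nat_lit 163975) (nat_lit 30) (.e (nat_lit 573474) (nat_lit 12) (.e (nat_lit 57550) (nat_lit 48) .nil)))) .nil)) 
(.lf (nat_lit 248944) (.g (nat_lit 1650) (.e (nat_lit 147504) (nat_lit 12) (.e (nat_lit 163977) (nat_lit 30) (.e (nat_lit 573473) (nat_lit 12) (.e (nat_lit 57549) (nat_lit 48) .nil)))) .nil))))) (.nd (nat_lit 4) (.nd (nat_lit 5) (.nd (nat_lit 6) 
(.lf (nat_lit 248840) (.g (nat_lit 2609) (.e (nat_lit 147498) (nat_lit 12) (.e (nat_lit 163976) (nat_lit 30) (.e (nat_lit 573474) (nat_lit 12) (.e (nat_lit 57528) (nat_lit 46) (.e (nat_lit 704612) (nat_lit 9) .nil))))) .nil)) 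
(.lf (nat_lit 248904) (.g (nat_lit 1382) (.e (nat_lit 147500) (nat_lit 12) (.e (nat_lit 164020) (nat_lit 45) (.e (nat_lit 696344) (nat_lit 8) (.e (nat_lit 172061) (nat_lit 1) .nil)))) .nil))) (.nd (nat_lit 6) 
(.lf (nat_lit 248872) (.g (nat_lit 1770) (.e (nat_lit 147500) (nat_lit 12) (.e (nat_lit 163975) (nat_lit 30) (.e (nat_lit 573451) (nat_lit 9) (.e (nat_lit 1284) (nat_lit 94) .nil)))) .nil)) 
(.lf (nat_lit 248936) (.g (nat_lit 1589) (.e (nat_lit 147503) (nat_lit 12) (.e (nat_lit 164023) (nat_lit 46) (.e (nat_lit 704735) (nat_lit 11) (.e (nat_lit 16388) (nat_lit 0) (.e (nat_lit 3461) (nat_lit 216) .nil))))) .nil)))) (.nd (nat_lit 5) (.nd (nat_lit 6) 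
(.lf (nat_lit 248856) (.g (nat_lit 3017) (.e (nat_lit 147498) (nat_lit 12) (.e (nat_lit 163979) (nat_lit 30) (.e (nat_lit 573474) (nat_lit 12) (.e (nat_lit 57528) (nat_lit 46) .nil)))) .nil)) 
(.lf (nat_lit 248920) (.g (nat_lit 3575) (.e (nat_lit 147503) (nat_lit 12) (.e (nat_lit 163979) (nat_lit 30) (.e (nat_lit 573474) (nat_lit 12) (.e (nat_lit 57549) (nat_lit 48) (.e (nat_lit 720945) (nat_lit 23) .nil))))) .nil))) (.nd (nat_lit 6) 
(.lf (nat_lit 248888) (.g (nat_lit 2138) (.e (nat_lit 147500) (nat_lit 12) (.e (nat_lit 163976) (nat_lit 30) (.e (nat_lit 573474) (nat_lit 12) (.e (nat_lit 57550) (nat_lit 48) .nil)))) .nil)) 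
(.lf (nat_lit 248952) (.g (nat_lit 1976) (.e (nat_lit 147504) (nat_lit 12) (.e (nat_lit 163977) (nat_lit 30) (.e (nat_lit 573475) (nat_lit 12) (.e (nat_lit 57550) (nat_lit 48) .nil)))) .nil)))))) (.nd (nat_lit 3) (.nd (nat_lit 4) (.nd (nat_lit 5) (.nd (nat_lit 6) 
(.lf (nat_lit 248836) (.g (nat_lit 2229) (.e (nat_lit 147498) (nat_lit 12) (.e (nat_lit 163975) (nat_lit 30) (.e (nat_lit 573474) (nat_lit 12) (.e (nat_lit 57549) (nat_lit 48) (.e (nat_lit 720945) (nat_lit 23) .nil))))) .nil)) 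
(.lf (nat_lit 248900) (.g (nat_lit 2096) (.e (nat_lit 147500) (nat_lit 12) (.e (nat_lit 163978) (nat_lit 30) (.e (nat_lit 573478) (nat_lit 12) (.e (nat_lit 57549) (nat_lit 48) .nil)))) .nil))) (.nd (nat_lit 6) 
(.lf (nat_lit 248868) (.g (nat_lit 1456) (.e (nat_lit 147500) (nat_lit 12) (.e (nat_lit 163975) (nat_lit 30) (.e (nat_lit 573450) (nat_lit 9) (.e (nat_lit 1276) (nat_lit 94) .nil)))) .nil)) 
(.lf (nat_lit 248932) (.g (nat_lit 2118) (.e (nat_lit 147503) (nat_lit 12) (.e (nat_lit 163979) (nat_lit 30) (.e (nat_lit 573475) (nat_lit 12) (.e (nat_lit 57551) (nat_lit 48) .nil)))) .nil)))) (.nd (nat_lit 5) (.nd (nat_lit 6) 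
(.lf (nat_lit 248852) (.g (nat_lit 3099) (.e (nat_lit 147498) (nat_lit 12) (.e (nat_lit 163978) (nat_lit 30) (.e (nat_lit 573475) (nat_lit 12) (.e (nat_lit 57550) (nat_lit 48) .nil)))) .nil)) 
(.lf (nat_lit 248916) (.g (nat_lit 2362) (.e (nat_lit 147503) (nat_lit 12) (.e (nat_lit 163979) (nat_lit 30) (.e (nat_lit 573473) (nat_lit 12) (.e (nat_lit 57551) (nat_lit 48) (.e (nat_lit 720941) (nat_lit 22) .nil))))) .nil))) (.nd (nat_lit 6) 
(.lf (nat_lit 248884) (.g (nat_lit 2239) (.e (nat_lit 147500) (nat_lit 12) (.e (nat_lit 163975) (nat_lit 30) (.e (nat_lit 573474) (nat_lit 12) (.e (nat_lit 57555) (nat_lit 49) .nil)))) .nil)) 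
(.lf (nat_lit 248948) (.g (nat_lit 2528) (.e (nat_lit 147504) (nat_lit 12) (.e (nat_lit 163977) (nat_lit 30) (.e (nat_lit 573474) (nat_lit 12) (.e (nat_lit 57549) (nat_lit 48) .nil)))) .nil))))) (.nd (nat_lit 4) (.nd (nat_lit 5) (.nd (nat_lit 6) 
(.lf (nat_lit 248844) (.g (nat_lit 2313) (.e (nat_lit 147498) (nat_lit 12) (.e (nat_lit 163976) (nat_lit 30) (.e (nat_lit 573474) (nat_lit 12) (.e (nat_lit 57550) (nat_lit 48) (.e (nat_lit 720939) (nat_lit 22) .nil))))) .nil)) 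
(.lf (nat_lit 248908) (.g (nat_lit 2857) (.e (nat_lit 147503) (nat_lit 12) (.e (nat_lit 163978) (nat_lit 30) (.e (nat_lit 573473) (nat_lit 12) (.e (nat_lit 57551) (nat_lit 48) .nil)))) .nil))) (.nd (nat_lit 6) 
(.lf (nat_lit 248876) (.g (nat_lit 351) (.e (nat_lit 147500) (nat_lit 12) (.e (nat_lit 163975) (nat_lit 30) (.e (nat_lit 573474) (nat_lit 12) .nil))) .nil)) 
(.lf (nat_lit 248940) (.g (nat_lit 3140) (.e (nat_lit 147503) (nat_lit 12) (.e (nat_lit 164042) (nat_lit 55) (.e (nat_lit 778486) (nat_lit 12) (.e (nat_lit 164003) (nat_lit 40) (.e (nat_lit 655380) (nat_lit 6) (.e (nat_lit 188452) (nat_lit 23) (.e (nat_lit 204842) (nat_lit 22) .nil))))))) (.g (nat_lit 7) .nil .nil))))) (.nd (nat_lit 5) (.nd (nat_lit 6) 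
(.lf (nat_lit 248860) (.g (nat_lit 2012) (.e (nat_lit 147498) (nat_lit 12) (.e (nat_lit 163979) (nat_lit 30) (.e (nat_lit 573475) (nat_lit 12) (.e (nat_lit 57549) (nat_lit 48) .nil)))) .nil)) 
(.lf (nat_lit 248924) (.g (nat_lit 3479) (.e (nat_lit 147503) (nat_lit 12) (.e (nat_lit 163979) (nat_lit 30) (.e (nat_lit 573474) (nat_lit 12) (.e (nat_lit 57550) (nat_lit 48) (.e (nat_lit 720941) (nat_lit 22) .nil))))) .nil))) (.nd (nat_lit 6) 
(.lf (nat_lit 248892) (.g (nat_lit 1694) (.e (nat_lit 147500) (nat_lit 12) (.e (nat_lit 163977) (nat_lit 30) (.e (nat_lit 573473) (nat_lit 12) (.e (nat_lit 57551) (nat_lit 48) .nil)))) .nil)) 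
(.lf (nat_lit 248956) (.g (nat_lit 4219) (.e (nat_lit 147504) (nat_lit 12) (.e (nat_lit 163978) (nat_lit 30) (.e (nat_lit 573474) (nat_lit 12) (.e (nat_lit 57550) (nat_lit 48) .nil)))) .nil))))))) (.nd (nat_lit 2) (.nd (nat_lit 3) (.nd (nat_lit 4) (.nd (nat_lit 5) (.nd (nat_lit 6) 
(.lf (nat_lit 248834) (.g (nat_lit 1442) (.e (nat_lit 147498) (nat_lit 12) (.e (nat_lit 163975) (nat_lit 30) (.e (nat_lit 573450) (nat_lit 9) (.e (nat_lit 1277) (nat_lit 94) .nil)))) .nil)) 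
(.lf (nat_lit 248898) (.g (nat_lit 2145) (.e (nat_lit 147500) (nat_lit 12) (.e (nat_lit 163977) (nat_lit 30) (.e (nat_lit 573475) (nat_lit 12) (.e (nat_lit 57550) (nat_lit 48) (.e (nat_lit 720945) (nat_lit 23) .nil))))) .nil))) (.nd (nat_lit 6) 
(.lf (nat_lit 248866) (.g (nat_lit 1202) (.e (nat_lit 147499) (nat_lit 12) (.e (nat_lit 163843) (nat_lit 0) (.e (nat_lit 6830) (nat_lit 367) (.e (nat_lit 57389) (nat_lit 5) .nil)))) .nil)) 
(.lf (nat_lit 248930) (.g (nat_lit 2038) (.e (nat_lit 147503) (nat_lit 12) (.e (nat_lit 163979) (nat_lit 30) (.e (nat_lit 573475) (nat_lit 12) (.e (nat_lit 57550) (nat_lit 48) .nil)))) .nil)))) (.nd (nat_lit 5) (.nd (nat_lit 6) 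
(.lf (nat_lit 248850) (.g (nat_lit 3099) (.e (nat_lit 147498) (nat_lit 12) (.e (nat_lit 163978) (nat_lit 30) (.e (nat_lit 573475) (nat_lit 12) (.e (nat_lit 57549) (nat_lit 48) .nil)))) .nil)) 
(.lf (nat_lit 248914) (.g (nat_lit 2035) (.e (nat_lit 147503) (nat_lit 12) (.e (nat_lit 163979) (nat_lit 30) (.e (nat_lit 573473) (nat_lit 12) (.e (nat_lit 57550) (nat_lit 48) .nil)))) .nil))) (.nd (nat_lit 6) 
(.lf (nat_lit 248882) (.g (nat_lit 2790) (.e (nat_lit 147500) (nat_lit 12) (.e (nat_lit 163975) (nat_lit 30) (.e (nat_lit 573474) (nat_lit 12) (.e (nat_lit 57551) (nat_lit 48) (.e (nat_lit 720937) (nat_lit 22) .nil))))) .nil)) 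
(.lf (nat_lit 248946) (.g (nat_lit 1752) (.e (nat_lit 147504) (nat_lit 12) (.e (nat_lit 163977) (nat_lit 30) (.e (nat_lit 573473) (nat_lit 12) (.e (nat_lit 57550) (nat_lit 48) (.e (nat_lit 720945) (nat_lit 23) .nil))))) .nil))))) (.nd (nat_lit 4) (.nd (nat_lit 5) (.nd (nat_lit 6) 
(.lf (nat_lit 248842) (.g (nat_lit 2032) (.e (nat_lit 147498) (nat_lit 12) (.e (nat_lit 163976) (nat_lit 30) (.e (nat_lit 573474) (nat_lit 12) (.e (nat_lit 57549) (nat_lit 48) (.e (nat_lit 720940) (nat_lit 22) .nil))))) .nil)) 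
(.lf (nat_lit 248906) (.g (nat_lit 1514) (.e (nat_lit 147500) (nat_lit 12) (.e (nat_lit 164038) (nat_lit 55) (.e (nat_lit 778246) (nat_lit 0) (.e (nat_lit 1256) (nat_lit 92) (.e (nat_lit 98369) (nat_lit 28) (.e (nat_lit 442390) (nat_lit 11) (.e (nat_lit 336049) (nat_lit 6) .nil))))))) (.g (nat_lit 6) .nil .nil)))) (.nd (nat_lit 6) 
(.lf (nat_lit 248874) (.g (nat_lit 413) (.e (nat_lit 147500) (nat_lit 12) (.e (nat_lit 163975) (nat_lit 30) (.e (nat_lit 573459) (nat_lit 9) .nil))) .nil)) 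
(.lf (nat_lit 248938) (.g (nat_lit 542) (.e (nat_lit 147503) (nat_lit 12) (.e (nat_lit 164023) (nat_lit 46) (.e (nat_lit 704738) (nat_lit 11) .nil))) .nil)))) (.nd (nat_lit 5) (.nd (nat_lit 6) 
(.lf (nat_lit 248858) (.g (nat_lit 3081) (.e (nat_lit 147498) (nat_lit 12) (.e (nat_lit 163979) (nat_lit 30) (.e (nat_lit 573474) (nat_lit 12) (.e (nat_lit 57550) (nat_lit 48) .nil)))) .nil)) 
(.lf (nat_lit 248922) (.g (nat_lit 3480) (.e (nat_lit 147503) (nat_lit 12) (.e (nat_lit 163979) (nat_lit 30) (.e (nat_lit 573474) (nat_lit 12) (.e (nat_lit 57550) (nat_lit 48) (.e (nat_lit 720937) (nat_lit 22) .nil))))) .nil))) (.nd (nat_lit 6) 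
(.lf (nat_lit 248890) (.g (nat_lit 2766) (.e (nat_lit 147500) (nat_lit 12) (.e (nat_lit 163976) (nat_lit 30) (.e (nat_lit 573474) (nat_lit 12) (.e (nat_lit 57551) (nat_lit 48) (.e (nat_lit 720941) (nat_lit 22) .nil))))) .nil)) 
(.lf (nat_lit 248954) (.g (nat_lit 2938) (.e (nat_lit 147504) (nat_lit 12) (.e (nat_lit 163978) (nat_lit 30) (.e (nat_lit 573473) (nat_lit 12) (.e (nat_lit 57551) (nat_lit 48) .nil)))) .nil)))))) (.nd (nat_lit 3) (.nd (nat_lit 4) (.nd (nat_lit 5) (.nd (nat_lit 6) 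
(.lf (nat_lit 248838) (.g (nat_lit 2489) (.e (nat_lit 147498) (nat_lit 12) (.e (nat_lit 163975) (nat_lit 30) (.e (nat_lit 573474) (nat_lit 12) (.e (nat_lit 57550) (nat_lit 48) (.e (nat_lit 720945) (nat_lit 23) .nil))))) .nil)) 
(.lf (nat_lit 248902) (.g (nat_lit 2267) (.e (nat_lit 147500) (nat_lit 12) (.e (nat_lit 163979) (nat_lit 30) (.e (nat_lit 573475) (nat_lit 12) (.e (nat_lit 57549) (nat_lit 48) (.e (nat_lit 720945) (nat_lit 23) .nil))))) .nil))) (.nd (nat_lit 6) 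
(.lf (nat_lit 248870) (.g (nat_lit 1768) (.e (nat_lit 147500) (nat_lit 12) (.e (nat_lit 163975) (nat_lit 30) (.e (nat_lit 573451) (nat_lit 9) (.e (nat_lit 1278) (nat_lit 94) .nil)))) .nil)) 
(.lf (nat_lit 248934) (.g (nat_lit 2766) (.e (nat_lit 147503) (nat_lit 12) (.e (nat_lit 164022) (nat_lit 46) (.e (nat_lit 704738) (nat_lit 11) (.e (nat_lit 16406) (nat_lit 1) .nil)))) .nil)))) (.nd (nat_lit 5) (.nd (nat_lit 6) 
(.lf (nat_lit 248854) (.g (nat_lit 1497) (.e (nat_lit 147498) (nat_lit 12) (.e (nat_lit 163978) (nat_lit 30) (.e (nat_lit 573478) (nat_lit 12) (.e (nat_lit 57549) (nat_lit 48) .nil)))) .nil)) 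
(.lf (nat_lit 248918) (.g (nat_lit 3669) (.e (nat_lit 147503) (nat_lit 12) (.e (nat_lit 163979) (nat_lit 30) (.e (nat_lit 573474) (nat_lit 12) (.e (nat_lit 57528) (nat_lit 46) (.e (nat_lit 704612) (nat_lit 9) (.e (nat_lit 1239) (nat_lit 91) (.e (nat_lit 90170) (nat_lit 13) (.e (nat_lit 172067) (nat_lit 3) (.e (nat_lit 204842) (nat_lit 22) .nil))))))))) (.g (nat_lit 4) .nil .nil)))) 
(.nd (nat_lit 6) 
(.lf (nat_lit 248886) (.g (nat_lit 2232) (.e (nat_lit 147500) (nat_lit 12) (.e (nat_lit 163976) (nat_lit 30) (.e (nat_lit 573474) (nat_lit 12) (.e (nat_lit 57528) (nat_lit 46) .nil)))) .nil)) 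
(.lf (nat_lit 248950) (.g (nat_lit 2971) (.e (nat_lit 147504) (nat_lit 12) (.e (nat_lit 163977) (nat_lit 30) (.e (nat_lit 573474) (nat_lit 12) (.e (nat_lit 57551) (nat_lit 48) .nil)))) .nil))))) (.nd (nat_lit 4) (.nd (nat_lit 5) (.nd (nat_lit 6) 
(.lf (nat_lit 248846) (.g (nat_lit 2638) (.e (nat_lit 147498) (nat_lit 12) (.e (nat_lit 163976) (nat_lit 30) (.e (nat_lit 573474) (nat_lit 12) (.e (nat_lit 57551) (nat_lit 48) (.e (nat_lit 720938) (nat_lit 22) .nil))))) .nil)) 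
(.lf (nat_lit 248910) (.g (nat_lit 3090) (.e (nat_lit 147503) (nat_lit 12) (.e (nat_lit 163978) (nat_lit 30) (.e (nat_lit 573475) (nat_lit 12) (.e (nat_lit 57550) (nat_lit 48) .nil)))) .nil))) (.nd (nat_lit 6) 
(.lf (nat_lit 248878) (.g (nat_lit 2837) (.e (nat_lit 147500) (nat_lit 12) (.e (nat_lit 163975) (nat_lit 30) (.e (nat_lit 573474) (nat_lit 12) (.e (nat_lit 57528) (nat_lit 46) (.e (nat_lit 704612) (nat_lit 9) (.e (nat_lit 1256) (nat_lit 92) (.e (nat_lit 98366) (nat_lit 27) (.e (nat_lit 434231) (nat_lit 23) (.e (nat_lit 532519) (nat_lit 5) .nil))))))))) (.g (nat_lit 4) .nil .nil))) 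
(.lf (nat_lit 248942) (.g (nat_lit 2252) (.e (nat_lit 147503) (nat_lit 12) (.e (nat_lit 164051) (nat_lit 56) (.e (nat_lit 786465) (nat_lit 25) (.e (nat_lit 319531) (nat_lit 16) (.e (nat_lit 286748) (nat_lit 9) (.e (nat_lit 336389) (nat_lit 27) (.e (nat_lit 433920) (nat_lit 23) .nil))))))) (.g (nat_lit 6) .nil .nil))))) (.nd (nat_lit 5) (.nd (nat_lit 6) 
(.lf (nat_lit 248862) (.g (nat_lit 2106) (.e (nat_lit 147498) (nat_lit 12) (.e (nat_lit 163979) (nat_lit 30) (.e (nat_lit 573475) (nat_lit 12) (.e (nat_lit 57551) (nat_lit 48) .nil)))) .nil)) 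
(.lf (nat_lit 248926) (.g (nat_lit 3098) (.e (nat_lit 147503) (nat_lit 12) (.e (nat_lit 163979) (nat_lit 30) (.e (nat_lit 573474) (nat_lit 12) (.e (nat_lit 57551) (nat_lit 48) .nil)))) .nil))) (.nd (nat_lit 6) 
(.lf (nat_lit 248894) (.g (nat_lit 2978) (.e (nat_lit 147500) (nat_lit 12) (.e (nat_lit 163977) (nat_lit 30) (.e (nat_lit 573474) (nat_lit 12) (.e (nat_lit 57550) (nat_lit 48) .nil)))) .nil)) 
(.lf (nat_lit 248958) (.g (nat_lit 3604) (.e (nat_lit 147504) (nat_lit 12) (.e (nat_lit 163978) (nat_lit 30) (.e (nat_lit 573475) (nat_lit 12) (.e (nat_lit 57549) (nat_lit 48) (.e (nat_lit 720945) (nat_lit 23) (.e (nat_lit 98367) (nat_lit 27) (.e (nat_lit 434231) (nat_lit 23) (.e (nat_lit 532519) (nat_lit 5) .nil)))))))) (.g (nat_lit 4) .nil .nil))))))))) 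
(.nd (nat_lit 1) (.nd (nat_lit 2) (.nd (nat_lit 3) (.nd (nat_lit 4) (.nd (nat_lit 5) 
(.nd (nat_lit 6) 
(.lf (nat_lit 248833) (.g (nat_lit 1325) (.e (nat_lit 147496) (nat_lit 11) (.e (nat_lit 24662) (nat_lit 14) (.e (nat_lit 401472) (nat_lit 28) .nil))) .nil)) 
(.lf (nat_lit 248897) (.g (nat_lit 2034) (.e (nat_lit 147500) (nat_lit 12) (.e (nat_lit 163977) (nat_lit 30) (.e (nat_lit 573475) (nat_lit 12) (.e (nat_lit 57550) (nat_lit 48) .nil)))) .nil))) (.nd (nat_lit 6) 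
(.lf (nat_lit 248865) (.g (nat_lit 590) (.e (nat_lit 147498) (nat_lit 12) (.e (nat_lit 164058) (nat_lit 56) (.e (nat_lit 786489) (nat_lit 34) (.e (nat_lit 393279) (nat_lit 23) (.e (nat_lit 426129) (nat_lit 3) (.e (nat_lit 204842) (nat_lit 22) .nil)))))) (.g (nat_lit 5) .nil .nil))) 
(.lf (nat_lit 248929) (.g (nat_lit 4078) (.e (nat_lit 147503) (nat_lit 12) (.e (nat_lit 163979) (nat_lit 30) (.e (nat_lit 573475) (nat_lit 12) (.e (nat_lit 57549) (nat_lit 48) (.e (nat_lit 720945) (nat_lit 23) (.e (nat_lit 98366) (nat_lit 27) (.e (nat_lit 434231) (nat_lit 23) (.e (nat_lit 532519) (nat_lit 5) .nil)))))))) (.g (nat_lit 8) .nil .nil))))) (.nd (nat_lit 5) (.nd (nat_lit 6) 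
(.lf (nat_lit 248849) (.g (nat_lit 2527) (.e (nat_lit 147498) (nat_lit 12) (.e (nat_lit 163978) (nat_lit 30) (.e (nat_lit 573473) (nat_lit 12) (.e (nat_lit 57551) (nat_lit 48) .nil)))) .nil)) 
(.lf (nat_lit 248913) (.g (nat_lit 2035) (.e (nat_lit 147503) (nat_lit 12) (.e (nat_lit 163979) (nat_lit 30) (.e (nat_lit 573473) (nat_lit 12) (.e (nat_lit 57549) (nat_lit 48) .nil)))) .nil))) (.nd (nat_lit 6) 
(.lf (nat_lit 248881) (.g (nat_lit 2291) (.e (nat_lit 147500) (nat_lit 12) (.e (nat_lit 163975) (nat_lit 30) (.e (nat_lit 573474) (nat_lit 12) (.e (nat_lit 57551) (nat_lit 48) .nil)))) .nil)) 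
(.lf (nat_lit 248945) (.g (nat_lit 1651) (.e (nat_lit 147504) (nat_lit 12) (.e (nat_lit 163977) (nat_lit 30) (.e (nat_lit 573473) (nat_lit 12) (.e (nat_lit 57550) (nat_lit 48) .nil)))) .nil))))) (.nd (nat_lit 4) (.nd (nat_lit 5) (.nd (nat_lit 6) 
(.lf (nat_lit 248841) (.g (nat_lit 1620) (.e (nat_lit 147498) (nat_lit 12) (.e (nat_lit 163976) (nat_lit 30) (.e (nat_lit 573474) (nat_lit 12) (.e (nat_lit 57549) (nat_lit 48) .nil)))) .nil)) 
(.lf (nat_lit 248905) (.g (nat_lit 2046) (.e (nat_lit 147500) (nat_lit 12) (.e (nat_lit 164038) (nat_lit 55) (.e (nat_lit 778246) (nat_lit 0) (.e (nat_lit 1239) (nat_lit 91) (.e (nat_lit 90170) (nat_lit 13) (.e (nat_lit 172121) (nat_lit 13) (.e (nat_lit 483370) (nat_lit 20) .nil))))))) (.g (nat_lit 6) .nil .nil)))) (.nd (nat_lit 6) 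
(.lf (nat_lit 248873) (.g (nat_lit 1244) (.e (nat_lit 147500) (nat_lit 12) (.e (nat_lit 163975) (nat_lit 30) (.e (nat_lit 573458) (nat_lit 9) (.e (nat_lit 1280) (nat_lit 94) .nil)))) .nil)) 
(.lf (nat_lit 248937) (.g (nat_lit 2329) (.e (nat_lit 147503) (nat_lit 12) (.e (nat_lit 164023) (nat_lit 46) (.e (nat_lit 704737) (nat_lit 11) (.e (nat_lit 16388) (nat_lit 0) (.e (nat_lit 3461) (nat_lit 216) .nil))))) .nil)))) (.nd (nat_lit 5) (.nd (nat_lit 6) 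
(.lf (nat_lit 248857) (.g (nat_lit 3044) (.e (nat_lit 147498) (nat_lit 12) (.e (nat_lit 163979) (nat_lit 30) (.e (nat_lit 573474) (nat_lit 12) (.e (nat_lit 57549) (nat_lit 48) .nil)))) .nil)) 
(.lf (nat_lit 248921) (.g (nat_lit 3083) (.e (nat_lit 147503) (nat_lit 12) (.e (nat_lit 163979) (nat_lit 30) (.e (nat_lit 573474) (nat_lit 12) (.e (nat_lit 57550) (nat_lit 48) .nil)))) .nil))) (.nd (nat_lit 6) 
(.lf (nat_lit 248889) (.g (nat_lit 2227) (.e (nat_lit 147500) (nat_lit 12) (.e (nat_lit 163976) (nat_lit 30) (.e (nat_lit 573474) (nat_lit 12) (.e (nat_lit 57551) (nat_lit 48) .nil)))) .nil)) 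
(.lf (nat_lit 248953) (.g (nat_lit 1976) (.e (nat_lit 147504) (nat_lit 12) (.e (nat_lit 163977) (nat_lit 30) (.e (nat_lit 573475) (nat_lit 12) (.e (nat_lit 57551) (nat_lit 48) .nil)))) .nil)))))) (.nd (nat_lit 3) (.nd (nat_lit 4) (.nd (nat_lit 5) (.nd (nat_lit 6) 
(.lf (nat_lit 248837) (.g (nat_lit 2263) (.e (nat_lit 147498) (nat_lit 12) (.e (nat_lit 163975) (nat_lit 30) (.e (nat_lit 573474) (nat_lit 12) (.e (nat_lit 57550) (nat_lit 48) .nil)))) .nil)) 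
(.lf (nat_lit 248901) (.g (nat_lit 2121) (.e (nat_lit 147500) (nat_lit 12) (.e (nat_lit 163979) (nat_lit 30) (.e (nat_lit 573475) (nat_lit 12) (.e (nat_lit 57549) (nat_lit 48) .nil)))) .nil))) (.nd (nat_lit 6) 
(.lf (nat_lit 248869) (.g (nat_lit 1449) (.e (nat_lit 147500) (nat_lit 12) (.e (nat_lit 163975) (nat_lit 30) (.e (nat_lit 573450) (nat_lit 9) (.e (nat_lit 1277) (nat_lit 94) .nil)))) .nil)) 
(.lf (nat_lit 248933) (.g (nat_lit 3450) (.e (nat_lit 147503) (nat_lit 12) (.e (nat_lit 164022) (nat_lit 46) (.e (nat_lit 704629) (nat_lit 9) (.e (nat_lit 442) (nat_lit 33) (.e (nat_lit 434285) (nat_lit 42) .nil))))) .nil)))) (.nd (nat_lit 5) (.nd (nat_lit 6) 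
(.lf (nat_lit 248853) (.g (nat_lit 3099) (.e (nat_lit 147498) (nat_lit 12) (.e (nat_lit 163978) (nat_lit 30) (.e (nat_lit 573475) (nat_lit 12) (.e (nat_lit 57551) (nat_lit 48) .nil)))) .nil)) 
(.lf (nat_lit 248917) (.g (nat_lit 3630) (.e (nat_lit 147503) (nat_lit 12) (.e (nat_lit 163979) (nat_lit 30) (.e (nat_lit 573474) (nat_lit 12) (.e (nat_lit 57528) (nat_lit 46) (.e (nat_lit 704612) (nat_lit 9) .nil))))) .nil))) (.nd (nat_lit 6) 
(.lf (nat_lit 248885) (.g (nat_lit 2711) (.e (nat_lit 147500) (nat_lit 12) (.e (nat_lit 163975) (nat_lit 30) (.e (nat_lit 573474) (nat_lit 12) (.e (nat_lit 57555) (nat_lit 49) (.e (nat_lit 729112) (nat_lit 22) .nil))))) .nil)) 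
(.lf (nat_lit 248949) (.g (nat_lit 2935) (.e (nat_lit 147504) (nat_lit 12) (.e (nat_lit 163977) (nat_lit 30) (.e (nat_lit 573474) (nat_lit 12) (.e (nat_lit 57550) (nat_lit 48) .nil)))) .nil))))) (.nd (nat_lit 4) (.nd (nat_lit 5) (.nd (nat_lit 6) 
(.lf (nat_lit 248845) (.g (nat_lit 2311) (.e (nat_lit 147498) (nat_lit 12) (.e (nat_lit 163976) (nat_lit 30) (.e (nat_lit 573474) (nat_lit 12) (.e (nat_lit 57550) (nat_lit 48) (.e (nat_lit 720941) (nat_lit 22) .nil))))) .nil)) 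
(.lf (nat_lit 248909) (.g (nat_lit 3090) (.e (nat_lit 147503) (nat_lit 12) (.e (nat_lit 163978) (nat_lit 30) (.e (nat_lit 573475) (nat_lit 12) (.e (nat_lit 57549) (nat_lit 48) .nil)))) .nil))) (.nd (nat_lit 6) 
(.lf (nat_lit 248877) (.g (nat_lit 2760) (.e (nat_lit 147500) (nat_lit 12) (.e (nat_lit 163975) (nat_lit 30) (.e (nat_lit 573474) (nat_lit 12) (.e (nat_lit 57528) (nat_lit 46) (.e (nat_lit 704612) (nat_lit 9) .nil))))) .nil)) 
(.lf (nat_lit 248941) (.g (nat_lit 1633) (.e (nat_lit 147503) (nat_lit 12) (.e (nat_lit 164051) (nat_lit 56) (.e (nat_lit 786465) (nat_lit 25) (.e (nat_lit 319530) (nat_lit 16) (.e (nat_lit 286761) (nat_lit 13) (.e (nat_lit 401152) (nat_lit 5) .nil)))))) (.g (nat_lit 5) .nil .nil))))) (.nd (nat_lit 5) (.nd (nat_lit 6) 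
(.lf (nat_lit 248861) (.g (nat_lit 2025) (.e (nat_lit 147498) (nat_lit 12) (.e (nat_lit 163979) (nat_lit 30) (.e (nat_lit 573475) (nat_lit 12) (.e (nat_lit 57550) (nat_lit 48) .nil)))) .nil)) 
(.lf (nat_lit 248925) (.g (nat_lit 3479) (.e (nat_lit 147503) (nat_lit 12) (.e (nat_lit 163979) (nat_lit 30) (.e (nat_lit 573474) (nat_lit 12) (.e (nat_lit 57550) (nat_lit 48) (.e (nat_lit 720945) (nat_lit 23) .nil))))) .nil))) (.nd (nat_lit 6) 
(.lf (nat_lit 248893) (.g (nat_lit 2571) (.e (nat_lit 147500) (nat_lit 12) (.e (nat_lit 163977) (nat_lit 30) (.e (nat_lit 573474) (nat_lit 12) (.e (nat_lit 57549) (nat_lit 48) .nil)))) .nil)) 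
(.lf (nat_lit 248957) (.g (nat_lit 3015) (.e (nat_lit 147504) (nat_lit 12) (.e (nat_lit 163978) (nat_lit 30) (.e (nat_lit 573475) (nat_lit 12) (.e (nat_lit 57549) (nat_lit 48) .nil)))) .nil))))))) (.nd (nat_lit 2) (.nd (nat_lit 3) (.nd (nat_lit 4) (.nd (nat_lit 5) (.nd (nat_lit 6) 
(.lf (nat_lit 248835) (.g (nat_lit 1850) (.e (nat_lit 147498) (nat_lit 12) (.e (nat_lit 163975) (nat_lit 30) (.e (nat_lit 573474) (nat_lit 12) (.e (nat_lit 57549) (nat_lit 48) .nil)))) .nil)) 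
(.lf (nat_lit 248899) (.g (nat_lit 3097) (.e (nat_lit 147500) (nat_lit 12) (.e (nat_lit 163978) (nat_lit 30) (.e (nat_lit 573475) (nat_lit 12) (.e (nat_lit 57549) (nat_lit 48) .nil)))) .nil))) (.nd (nat_lit 6) 
(.lf (nat_lit 248867) (.g (nat_lit 2370) (.e (nat_lit 147500) (nat_lit 12) (.e (nat_lit 163842) (nat_lit 0) (.e (nat_lit 7472) (nat_lit 398) (.e (nat_lit 57375) (nat_lit 2) (.e (nat_lit 90176) (nat_lit 15) (.e (nat_lit 188423) (nat_lit 11) (.e (nat_lit 336049) (nat_lit 6) .nil))))))) (.g (nat_lit 6) .nil .nil))) 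
(.lf (nat_lit 248931) (.g (nat_lit 2153) (.e (nat_lit 147503) (nat_lit 12) (.e (nat_lit 163979) (nat_lit 30) (.e (nat_lit 573475) (nat_lit 12) (.e (nat_lit 57550) (nat_lit 48) (.e (nat_lit 720941) (nat_lit 22) .nil))))) .nil)))) (.nd (nat_lit 5) (.nd (nat_lit 6) 
(.lf (nat_lit 248851) (.g (nat_lit 3261) (.e (nat_lit 147498) (nat_lit 12) (.e (nat_lit 163978) (nat_lit 30) (.e (nat_lit 573475) (nat_lit 12) (.e (nat_lit 57549) (nat_lit 48) (.e (nat_lit 720945) (nat_lit 23) .nil))))) .nil)) 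
(.lf (nat_lit 248915) (.g (nat_lit 2035) (.e (nat_lit 147503) (nat_lit 12) (.e (nat_lit 163979) (nat_lit 30) (.e (nat_lit 573473) (nat_lit 12) (.e (nat_lit 57551) (nat_lit 48) .nil)))) .nil))) (.nd (nat_lit 6) 
(.lf (nat_lit 248883) (.g (nat_lit 2790) (.e (nat_lit 147500) (nat_lit 12) (.e (nat_lit 163975) (nat_lit 30) (.e (nat_lit 573474) (nat_lit 12) (.e (nat_lit 57551) (nat_lit 48) (.e (nat_lit 720941) (nat_lit 22) .nil))))) .nil)) 
(.lf (nat_lit 248947) (.g (nat_lit 1977) (.e (nat_lit 147504) (nat_lit 12) (.e (nat_lit 163977) (nat_lit 30) (.e (nat_lit 573473) (nat_lit 12) (.e (nat_lit 57551) (nat_lit 48) (.e (nat_lit 720945) (nat_lit 23) .nil))))) .nil))))) (.nd (nat_lit 4) (.nd (nat_lit 5) (.nd (nat_lit 6) 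
(.lf (nat_lit 248843) (.g (nat_lit 2025) (.e (nat_lit 147498) (nat_lit 12) (.e (nat_lit 163976) (nat_lit 30) (.e (nat_lit 573474) (nat_lit 12) (.e (nat_lit 57550) (nat_lit 48) .nil)))) .nil)) 
(.lf (nat_lit 248907) (.g (nat_lit 2034) (.e (nat_lit 147503) (nat_lit 12) (.e (nat_lit 163977) (nat_lit 30) (.e (nat_lit 573475) (nat_lit 12) (.e (nat_lit 57549) (nat_lit 48) .nil)))) .nil))) (.nd (nat_lit 6) 
(.lf (nat_lit 248875) (.g (nat_lit 1379) (.e (nat_lit 147500) (nat_lit 12) (.e (nat_lit 163975) (nat_lit 30) (.e (nat_lit 573473) (nat_lit 12) (.e (nat_lit 57551) (nat_lit 48) .nil)))) .nil)) 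
(.lf (nat_lit 248939) (.g (nat_lit 1979) (.e (nat_lit 147503) (nat_lit 12) (.e (nat_lit 164042) (nat_lit 55) (.e (nat_lit 778246) (nat_lit 0) (.e (nat_lit 1239) (nat_lit 91) (.e (nat_lit 90170) (nat_lit 13) (.e (nat_lit 172121) (nat_lit 13) (.e (nat_lit 483370) (nat_lit 20) .nil))))))) (.g (nat_lit 6) .nil .nil))))) (.nd (nat_lit 5) (.nd (nat_lit 6) 
(.lf (nat_lit 248859) (.g (nat_lit 3097) (.e (nat_lit 147498) (nat_lit 12) (.e (nat_lit 163979) (nat_lit 30) (.e (nat_lit 573474) (nat_lit 12) (.e (nat_lit 57551) (nat_lit 48) .nil)))) .nil)) 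
(.lf (nat_lit 248923) (.g (nat_lit 3482) (.e (nat_lit 147503) (nat_lit 12) (.e (nat_lit 163979) (nat_lit 30) (.e (nat_lit 573474) (nat_lit 12) (.e (nat_lit 57550) (nat_lit 48) (.e (nat_lit 720938) (nat_lit 22) .nil))))) .nil))) (.nd (nat_lit 6) 
(.lf (nat_lit 248891) (.g (nat_lit 2766) (.e (nat_lit 147500) (nat_lit 12) (.e (nat_lit 163976) (nat_lit 30) (.e (nat_lit 573474) (nat_lit 12) (.e (nat_lit 57551) (nat_lit 48) (.e (nat_lit 720945) (nat_lit 23) .nil))))) .nil)) 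
(.lf (nat_lit 248955) (.g (nat_lit 1364) (.e (nat_lit 147504) (nat_lit 12) (.e (nat_lit 163978) (nat_lit 30) (.e (nat_lit 573474) (nat_lit 12) .nil))) .nil)))))) (.nd (nat_lit 3) (.nd (nat_lit 4) (.nd (nat_lit 5) (.nd (nat_lit 6) 
(.lf (nat_lit 248839) (.g (nat_lit 2329) (.e (nat_lit 147498) (nat_lit 12) (.e (nat_lit 163975) (nat_lit 30) (.e (nat_lit 573474) (nat_lit 12) (.e (nat_lit 57551) (nat_lit 48) .nil)))) .nil)) 
(.lf (nat_lit 248903) (.g (nat_lit 2216) (.e (nat_lit 147500) (nat_lit 12) (.e (nat_lit 163979) (nat_lit 30) (.e (nat_lit 573475) (nat_lit 12) (.e (nat_lit 57551) (nat_lit 48) .nil)))) .nil))) (.nd (nat_lit 6) 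
(.lf (nat_lit 248871) (.g (nat_lit 1768) (.e (nat_lit 147500) (nat_lit 12) (.e (nat_lit 163975) (nat_lit 30) (.e (nat_lit 573451) (nat_lit 9) (.e (nat_lit 1283) (nat_lit 94) .nil)))) .nil)) 
(.lf (nat_lit 248935) (.g (nat_lit 2474) (.e (nat_lit 147503) (nat_lit 12) (.e (nat_lit 164023) (nat_lit 46) (.e (nat_lit 704629) (nat_lit 9) (.e (nat_lit 442) (nat_lit 33) (.e (nat_lit 434285) (nat_lit 42) .nil))))) .nil)))) (.nd (nat_lit 5) (.nd (nat_lit 6) 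
(.lf (nat_lit 248855) (.g (nat_lit 991) (.e (nat_lit 147498) (nat_lit 12) (.e (nat_lit 163979) (nat_lit 30) (.e (nat_lit 573474) (nat_lit 12) .nil))) .nil)) 
(.lf (nat_lit 248919) (.g (nat_lit 3046) (.e (nat_lit 147503) (nat_lit 12) (.e (nat_lit 163979) (nat_lit 30) (.e (nat_lit 573474) (nat_lit 12) (.e (nat_lit 57549) (nat_lit 48) .nil)))) .nil))) (.nd (nat_lit 6) 
(.lf (nat_lit 248887) (.g (nat_lit 2167) (.e (nat_lit 147500) (nat_lit 12) (.e (nat_lit 163976) (nat_lit 30) (.e (nat_lit 573474) (nat_lit 12) (.e (nat_lit 57549) (nat_lit 48) (.e (nat_lit 720938) (nat_lit 22) .nil))))) .nil)) 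
(.lf (nat_lit 248951) (.g (nat_lit 1976) (.e (nat_lit 147504) (nat_lit 12) (.e (nat_lit 163977) (nat_lit 30) (.e (nat_lit 573475) (nat_lit 12) (.e (nat_lit 57549) (nat_lit 48) .nil)))) .nil))))) (.nd (nat_lit 4) (.nd (nat_lit 5) (.nd (nat_lit 6) 
(.lf (nat_lit 248847) (.g (nat_lit 2638) (.e (nat_lit 147498) (nat_lit 12) (.e (nat_lit 163976) (nat_lit 30) (.e (nat_lit 573474) (nat_lit 12) (.e (nat_lit 57551) (nat_lit 48) (.e (nat_lit 720945) (nat_lit 23) .nil))))) .nil)) 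
(.lf (nat_lit 248911) (.g (nat_lit 3090) (.e (nat_lit 147503) (nat_lit 12) (.e (nat_lit 163978) (nat_lit 30) (.e (nat_lit 573475) (nat_lit 12) (.e (nat_lit 57551) (nat_lit 48) .nil)))) .nil))) (.nd (nat_lit 6) 
(.lf (nat_lit 248879) (.g (nat_lit 1812) (.e (nat_lit 147500) (nat_lit 12) (.e (nat_lit 163975) (nat_lit 30) (.e (nat_lit 573474) (nat_lit 12) (.e (nat_lit 57549) (nat_lit 48) .nil)))) .nil)) 
(.lf (nat_lit 248943) (.g (nat_lit 1798) (.e (nat_lit 147503) (nat_lit 12) (.e (nat_lit 164051) (nat_lit 56) (.e (nat_lit 786465) (nat_lit 25) (.e (nat_lit 319531) (nat_lit 16) (.e (nat_lit 286761) (nat_lit 13) (.e (nat_lit 401152) (nat_lit 5) .nil)))))) (.g (nat_lit 5) .nil .nil))))) (.nd (nat_lit 5) (.nd (nat_lit 6) 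
(.lf (nat_lit 248863) (.g (nat_lit 2470) (.e (nat_lit 147498) (nat_lit 12) (.e (nat_lit 163979) (nat_lit 30) (.e (nat_lit 573475) (nat_lit 12) (.e (nat_lit 57551) (nat_lit 48) (.e (nat_lit 720937) (nat_lit 22) .nil))))) .nil)) 
(.lf (nat_lit 248927) (.g (nat_lit 2627) (.e (nat_lit 147503) (nat_lit 12) (.e (nat_lit 163979) (nat_lit 30) (.e (nat_lit 573474) (nat_lit 12) (.e (nat_lit 57555) (nat_lit 49) .nil)))) .nil))) (.nd (nat_lit 6) 
(.lf (nat_lit 248895) (.g (nat_lit 2034) (.e (nat_lit 147500) (nat_lit 12) (.e (nat_lit 163977) (nat_lit 30) (.e (nat_lit 573475) (nat_lit 12) (.e (nat_lit 57549) (nat_lit 48) .nil)))) .nil)) 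
(.lf (nat_lit 248959) (.g (nat_lit 3015) (.e (nat_lit 147504) (nat_lit 12) (.e (nat_lit 163978) (nat_lit 30) (.e (nat_lit 573475) (nat_lit 12) (.e (nat_lit 57550) (nat_lit 48) .nil)))) .nil)))))))))

noncomputable def tv3222 : DT := (.nd (nat_lit 0) (.nd (nat_lit 1) (.nd (nat_lit 2) (.nd (nat_lit 3) (.nd (nat_lit 4) (.nd (nat_lit 5) (.nd (nat_lit 6) 
(.lf (nat_lit 248960) (.g (nat_lit 3584) (.e (nat_lit 147504) (nat_lit 12) (.e (nat_lit 163978) (nat_lit 30) (.e (nat_lit 573475) (nat_lit 12) (.e (nat_lit 57550) (nat_lit 48) (.e (nat_lit 720945) (nat_lit 23) (.e (nat_lit 98366) (nat_lit 27) (.e (nat_lit 434231) (nat_lit 23) (.e (nat_lit 532519) (nat_lit 5) .nil)))))))) (.g (nat_lit 4) .nil .nil))) 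
(.lf (nat_lit 249024) (.g (nat_lit 525) (.e (nat_lit 155669) (nat_lit 11) (.e (nat_lit 16435) (nat_lit 9) (.e (nat_lit 426555) (nat_lit 32) .nil))) .nil))) (.nd (nat_lit 6) 
(.lf (nat_lit 248992) (.g (nat_lit 915) (.e (nat_lit 163584) (nat_lit 6) (.e (nat_lit 188420) (nat_lit 0) (.e (nat_lit 2059) (nat_lit 142) (.e (nat_lit 704599) (nat_lit 6) (.e (nat_lit 196352) (nat_lit 8) .nil))))) .nil)) 
(.lf (nat_lit 249056) (.g (nat_lit 2413) (.e (nat_lit 155674) (nat_lit 12) (.e (nat_lit 57479) (nat_lit 28) (.e (nat_lit 557059) (nat_lit 0) (.e (nat_lit 1597) (nat_lit 111) (.e (nat_lit 360466) (nat_lit 3) .nil))))) .nil)))) (.nd (nat_lit 5) (.nd (nat_lit 6) 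
(.lf (nat_lit 248976) (.g (nat_lit 708) (.e (nat_lit 147512) (nat_lit 14) (.e (nat_lit 2808) (nat_lit 180) (.e (nat_lit 303139) (nat_lit 10) (.e (nat_lit 434241) (nat_lit 27) (.e (nat_lit 565269) (nat_lit 6) .nil))))) .nil)) 
(.lf (nat_lit 249040) (.g (nat_lit 1091) (.e (nat_lit 155669) (nat_lit 11) (.e (nat_lit 16473) (nat_lit 14) (.e (nat_lit 491560) (nat_lit 10) .nil))) .nil))) (.nd (nat_lit 6) 
(.lf (nat_lit 249008) (.g (nat_lit 193) (.e (nat_lit 155667) (nat_lit 9) (.e (nat_lit 1252) (nat_lit 92) (.e (nat_lit 106240) (nat_lit 11) .nil))) .nil)) 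
(.lf (nat_lit 249072) (.g (nat_lit 3683) (.e (nat_lit 163841) (nat_lit 0) (.e (nat_lit 4598) (nat_lit 269) (.e (nat_lit 1200) (nat_lit 88) (.e (nat_lit 65628) (nat_lit 14) (.e (nat_lit 401459) (nat_lit 13) (.e (nat_lit 483344) (nat_lit 17) (.e (nat_lit 6714) (nat_lit 360) .nil))))))) (.g (nat_lit 7) .nil .nil)))))) (.nd (nat_lit 4) (.nd (nat_lit 5) (.nd (nat_lit 6) 
(.lf (nat_lit 248968) (.g (nat_lit 2135) (.e (nat_lit 147504) (nat_lit 12) (.e (nat_lit 163979) (nat_lit 30) (.e (nat_lit 573475) (nat_lit 12) (.e (nat_lit 57550) (nat_lit 48) .nil)))) .nil)) 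
(.lf (nat_lit 249032) (.g (nat_lit 850) (.e (nat_lit 155669) (nat_lit 11) (.e (nat_lit 16465) (nat_lit 13) (.e (nat_lit 483393) (nat_lit 23) .nil))) .nil))) (.nd (nat_lit 6) 
(.lf (nat_lit 249000) (.g (nat_lit 481) (.e (nat_lit 155667) (nat_lit 9) (.e (nat_lit 1234) (nat_lit 91) (.e (nat_lit 90158) (nat_lit 11) .nil))) .nil)) 
(.lf (nat_lit 249064) (.g (nat_lit 1994) (.e (nat_lit 155674) (nat_lit 12) (.e (nat_lit 57479) (nat_lit 28) (.e (nat_lit 557094) (nat_lit 12) (.e (nat_lit 164056) (nat_lit 56) .nil)))) .nil)))) (.nd (nat_lit 5) (.nd (nat_lit 6) 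
(.lf (nat_lit 248984) (.g (nat_lit 212) (.e (nat_lit 163584) (nat_lit 6) (.e (nat_lit 188418) (nat_lit 0) (.e (nat_lit 2056) (nat_lit 142) .nil))) .nil)) 
(.lf (nat_lit 249048) (.g (nat_lit 1492) (.e (nat_lit 155671) (nat_lit 12) (.e (nat_lit 57480) (nat_lit 28) (.e (nat_lit 564992) (nat_lit 6) (.e (nat_lit 81956) (nat_lit 23) (.e (nat_lit 98356) (nat_lit 26) .nil))))) .nil))) (.nd (nat_lit 6) 
(.lf (nat_lit 249016) (.g (nat_lit 3114) (.e (nat_lit 155669) (nat_lit 11) (.e (nat_lit 16425) (nat_lit 7) (.e (nat_lit 409648) (nat_lit 18) (.e (nat_lit 303137) (nat_lit 10) (.e (nat_lit 434272) (nat_lit 38) (.e (nat_lit 655386) (nat_lit 9) (.e (nat_lit 1320) (nat_lit 99) .nil))))))) (.g (nat_lit 7) .nil .nil))) 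
(.lf (nat_lit 249080) (.g (nat_lit 2807) (.e (nat_lit 163842) (nat_lit 0) (.e (nat_lit 7065) (nat_lit 377) (.e (nat_lit 1349) (nat_lit 102) (.e (nat_lit 286748) (nat_lit 9) (.e (nat_lit 336389) (nat_lit 27) (.e (nat_lit 426223) (nat_lit 9) (.e (nat_lit 426142) (nat_lit 4) (.e (nat_lit 229678) (nat_lit 244) .nil)))))))) (.g (nat_lit 5) .nil .nil))))))) 
(.nd (nat_lit 3) (.nd (nat_lit 4) (.nd (nat_lit 5) (.nd (nat_lit 6) 
(.lf (nat_lit 248964) (.g (nat_lit 2018) (.e (nat_lit 147504) (nat_lit 12) (.e (nat_lit 163978) (nat_lit 30) (.e (nat_lit 573478) (nat_lit 12) (.e (nat_lit 57549) (nat_lit 48) .nil)))) .nil)) 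
(.lf (nat_lit 249028) (.g (nat_lit 764) (.e (nat_lit 155669) (nat_lit 11) (.e (nat_lit 16465) (nat_lit 13) (.e (nat_lit 483380) (nat_lit 23) .nil))) .nil))) (.nd (nat_lit 6) 
(.lf (nat_lit 248996) (.g (nat_lit 965) (.e (nat_lit 163584) (nat_lit 8) (.e (nat_lit 237618) (nat_lit 12) (.e (nat_lit 475208) (nat_lit 41) (.e (nat_lit 712752) (nat_lit 29) (.e (nat_lit 442382) (nat_lit 8) .nil))))) .nil)) 
(.lf (nat_lit 249060) (.g (nat_lit 2627) (.e (nat_lit 155674) (nat_lit 12) (.e (nat_lit 57479) (nat_lit 28) (.e (nat_lit 557091) (nat_lit 12) (.e (nat_lit 164053) (nat_lit 56) .nil)))) .nil)))) (.nd (nat_lit 5) (.nd (nat_lit 6) 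
(.lf (nat_lit 248980) (.g (nat_lit 1605) (.e (nat_lit 155651) (nat_lit 0) (.e (nat_lit 2984) (nat_lit 186) (.e (nat_lit 442374) (nat_lit 0) (.e (nat_lit 2059) (nat_lit 142) (.e (nat_lit 704599) (nat_lit 6) .nil))))) .nil)) 
(.lf (nat_lit 249044) (.g (nat_lit 3852) (.e (nat_lit 155669) (nat_lit 11) (.e (nat_lit 16473) (nat_lit 14) (.e (nat_lit 491563) (nat_lit 12) (.e (nat_lit 385105) (nat_lit 50) .nil)))) .nil))) (.nd (nat_lit 6) 
(.lf (nat_lit 249012) (.g (nat_lit 2029) (.e (nat_lit 155669) (nat_lit 11) (.e (nat_lit 16425) (nat_lit 7) (.e (nat_lit 409648) (nat_lit 18) (.e (nat_lit 303135) (nat_lit 10) .nil)))) .nil)) 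
(.lf (nat_lit 249076) (.g (nat_lit 1030) (.e (nat_lit 163842) (nat_lit 0) (.e (nat_lit 7065) (nat_lit 377) (.e (nat_lit 1349) (nat_lit 102) (.e (nat_lit 286748) (nat_lit 9) .nil)))) .nil))))) (.nd (nat_lit 4) (.nd (nat_lit 5) (.nd (nat_lit 6) 
(.lf (nat_lit 248972) (.g (nat_lit 522) (.e (nat_lit 147511) (nat_lit 14) (.e (nat_lit 2798) (nat_lit 180) (.e (nat_lit 303127) (nat_lit 9) .nil))) .nil)) 
(.lf (nat_lit 249036) (.g (nat_lit 1380) (.e (nat_lit 155669) (nat_lit 11) (.e (nat_lit 16465) (nat_lit 13) (.e (nat_lit 483406) (nat_lit 26) (.e (nat_lit 385107) (nat_lit 51) .nil)))) .nil))) (.nd (nat_lit 6) 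
(.lf (nat_lit 249004) (.g (nat_lit 5331) (.e (nat_lit 155667) (nat_lit 9) (.e (nat_lit 1234) (nat_lit 91) (.e (nat_lit 90158) (nat_lit 11) (.e (nat_lit 24665) (nat_lit 14) (.e (nat_lit 401414) (nat_lit 0) (.e (nat_lit 3205) (nat_lit 194) (.e (nat_lit 507946) (nat_lit 18) (.e (nat_lit 311040) (nat_lit 24) .nil)))))))) (.g (nat_lit 7) .nil .nil))) 
(.lf (nat_lit 249068) (.g (nat_lit 898) (.e (nat_lit 155674) (nat_lit 12) (.e (nat_lit 57480) (nat_lit 28) (.e (nat_lit 557058) (nat_lit 0) .nil))) .nil)))) (.nd (nat_lit 5) (.nd (nat_lit 6) 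
(.lf (nat_lit 248988) (.g (nat_lit 117) (.e (nat_lit 163584) (nat_lit 6) (.e (nat_lit 188419) (nat_lit 0) (.e (nat_lit 2059) (nat_lit 142) .nil))) .nil)) 
(.lf (nat_lit 249052) (.g (nat_lit 1252) (.e (nat_lit 155674) (nat_lit 12) (.e (nat_lit 57479) (nat_lit 28) (.e (nat_lit 557058) (nat_lit 0) .nil))) .nil))) (.nd (nat_lit 6) 
(.lf (nat_lit 249020) (.g (nat_lit 1852) (.e (nat_lit 155669) (nat_lit 11) (.e (nat_lit 16425) (nat_lit 7) (.e (nat_lit 409649) (nat_lit 18) (.e (nat_lit 303140) (nat_lit 10) (.e (nat_lit 434272) (nat_lit 38) .nil))))) .nil)) 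
(.lf (nat_lit 249084) (.g (nat_lit 2703) (.e (nat_lit 163842) (nat_lit 0) (.e (nat_lit 7065) (nat_lit 377) (.e (nat_lit 1349) (nat_lit 102) (.e (nat_lit 286761) (nat_lit 13) (.e (nat_lit 393275) (nat_lit 23) (.e (nat_lit 426144) (nat_lit 4) (.e (nat_lit 229680) (nat_lit 244) .nil))))))) (.g (nat_lit 4) .nil .nil)))))))) 
(.nd (nat_lit 2) (.nd (nat_lit 3) (.nd (nat_lit 4) (.nd (nat_lit 5) (.nd (nat_lit 6) 
(.lf (nat_lit 248962) (.g (nat_lit 1048) (.e (nat_lit 147504) (nat_lit 12) (.e (nat_lit 163978) (nat_lit 30) (.e (nat_lit 573477) (nat_lit 12) .nil))) .nil)) 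
(.lf (nat_lit 249026) (.g (nat_lit 2255) (.e (nat_lit 155669) (nat_lit 11) (.e (nat_lit 16436) (nat_lit 9) (.e (nat_lit 426555) (nat_lit 32) (.e (nat_lit 376857) (nat_lit 21) (.e (nat_lit 57854) (nat_lit 252) .nil))))) .nil))) (.nd (nat_lit 6) 
(.lf (nat_lit 248994) (.g (nat_lit 1989) (.e (nat_lit 163584) (nat_lit 6) (.e (nat_lit 188455) (nat_lit 24) (.e (nat_lit 229663) (nat_lit 240) (.e (nat_lit 2612) (nat_lit 163) .nil)))) .nil)) 
(.lf (nat_lit 249058) (.g (nat_lit 684) (.e (nat_lit 155674) (nat_lit 12) (.e (nat_lit 57479) (nat_lit 28) (.e (nat_lit 564992) (nat_lit 6) .nil))) .nil)))) (.nd (nat_lit 5) (.nd (nat_lit 6) 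
(.lf (nat_lit 248978) (.g (nat_lit 934) (.e (nat_lit 155650) (nat_lit 0) (.e (nat_lit 3062) (nat_lit 190) (.e (nat_lit 475189) (nat_lit 34) .nil))) .nil)) 
(.lf (nat_lit 249042) (.g (nat_lit 1450) (.e (nat_lit 155669) (nat_lit 11) (.e (nat_lit 16473) (nat_lit 14) (.e (nat_lit 491562) (nat_lit 12) .nil))) .nil))) (.nd (nat_lit 6) 
(.lf (nat_lit 249010) (.g (nat_lit 676) (.e (nat_lit 155667) (nat_lit 9) (.e (nat_lit 1252) (nat_lit 92) (.e (nat_lit 106240) (nat_lit 14) (.e (nat_lit 376865) (nat_lit 22) (.e (nat_lit 90168) (nat_lit 13) (.e (nat_lit 179968) (nat_lit 24) .nil)))))) (.g (nat_lit 4) .nil .nil))) 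
(.lf (nat_lit 249074) (.g (nat_lit 3870) (.e (nat_lit 163841) (nat_lit 0) (.e (nat_lit 4598) (nat_lit 269) (.e (nat_lit 1200) (nat_lit 88) (.e (nat_lit 65630) (nat_lit 14) (.e (nat_lit 401459) (nat_lit 13) (.e (nat_lit 483344) (nat_lit 17) (.e (nat_lit 6714) (nat_lit 360) .nil))))))) (.g (nat_lit 7) .nil .nil)))))) (.nd (nat_lit 4) (.nd (nat_lit 5) (.nd (nat_lit 6) 
(.lf (nat_lit 248970) (.g (nat_lit 2408) (.e (nat_lit 147511) (nat_lit 14) (.e (nat_lit 2797) (nat_lit 180) (.e (nat_lit 303127) (nat_lit 9) (.e (nat_lit 426428) (nat_lit 17) (.e (nat_lit 98048) (nat_lit 6) .nil))))) .nil)) 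
(.lf (nat_lit 249034) (.g (nat_lit 1779) (.e (nat_lit 155669) (nat_lit 11) (.e (nat_lit 16465) (nat_lit 13) (.e (nat_lit 483395) (nat_lit 24) (.e (nat_lit 344156) (nat_lit 36) (.e (nat_lit 639007) (nat_lit 13) .nil))))) .nil))) (.nd (nat_lit 6) 
(.lf (nat_lit 249002) (.g (nat_lit 1498) (.e (nat_lit 155667) (nat_lit 9) (.e (nat_lit 1234) (nat_lit 91) (.e (nat_lit 90158) (nat_lit 11) (.e (nat_lit 24636) (nat_lit 9) .nil)))) .nil)) 
(.lf (nat_lit 249066) (.g (nat_lit 898) (.e (nat_lit 155674) (nat_lit 12) (.e (nat_lit 57480) (nat_lit 28) (.e (nat_lit 557057) (nat_lit 0) .nil))) .nil)))) (.nd (nat_lit 5) (.nd (nat_lit 6) 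
(.lf (nat_lit 248986) (.g (nat_lit 992) (.e (nat_lit 163584) (nat_lit 6) (.e (nat_lit 188418) (nat_lit 0) (.e (nat_lit 2059) (nat_lit 142) (.e (nat_lit 704599) (nat_lit 6) (.e (nat_lit 196352) (nat_lit 8) .nil))))) .nil)) 
(.lf (nat_lit 249050) (.g (nat_lit 1490) (.e (nat_lit 155673) (nat_lit 12) (.e (nat_lit 57480) (nat_lit 28) (.e (nat_lit 564992) (nat_lit 6) (.e (nat_lit 81956) (nat_lit 23) (.e (nat_lit 98356) (nat_lit 26) .nil))))) .nil))) (.nd (nat_lit 6) 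
(.lf (nat_lit 249018) (.g (nat_lit 2158) (.e (nat_lit 155669) (nat_lit 11) (.e (nat_lit 16425) (nat_lit 7) (.e (nat_lit 409648) (nat_lit 18) (.e (nat_lit 303138) (nat_lit 10) (.e (nat_lit 442112) (nat_lit 37) .nil))))) .nil)) 
(.lf (nat_lit 249082) (.g (nat_lit 2933) (.e (nat_lit 163842) (nat_lit 0) (.e (nat_lit 7065) (nat_lit 377) (.e (nat_lit 1349) (nat_lit 102) (.e (nat_lit 286761) (nat_lit 13) (.e (nat_lit 393234) (nat_lit 17) (.e (nat_lit 7065) (nat_lit 377) (.e (nat_lit 1112) (nat_lit 82) (.e (nat_lit 8469) (nat_lit 148) .nil)))))))) (.g (nat_lit 5) .nil .nil))))))) 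
(.nd (nat_lit 3) (.nd (nat_lit 4) (.nd (nat_lit 5) (.nd (nat_lit 6) 
(.lf (nat_lit 248966) (.g (nat_lit 3044) (.e (nat_lit 147504) (nat_lit 12) (.e (nat_lit 163979) (nat_lit 30) (.e (nat_lit 573474) (nat_lit 12) (.e (nat_lit 57549) (nat_lit 48) .nil)))) .nil)) 
(.lf (nat_lit 249030) (.g (nat_lit 2248) (.e (nat_lit 155669) (nat_lit 11) (.e (nat_lit 16465) (nat_lit 13) (.e (nat_lit 483383) (nat_lit 23) (.e (nat_lit 336334) (nat_lit 20) (.e (nat_lit 229120) (nat_lit 8) .nil))))) .nil))) (.nd (nat_lit 6) 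
(.lf (nat_lit 248998) (.g (nat_lit 954) (.e (nat_lit 155665) (nat_lit 9) (.e (nat_lit 1250) (nat_lit 92) (.e (nat_lit 98313) (nat_lit 9) (.e (nat_lit 336186) (nat_lit 11) .nil)))) .nil)) 
(.lf (nat_lit 249062) (.g (nat_lit 2239) (.e (nat_lit 155674) (nat_lit 12) (.e (nat_lit 57479) (nat_lit 28) (.e (nat_lit 557093) (nat_lit 12) (.e (nat_lit 164058) (nat_lit 56) .nil)))) .nil)))) (.nd (nat_lit 5) (.nd (nat_lit 6) 
(.lf (nat_lit 248982) (.g (nat_lit 451) (.e (nat_lit 163584) (nat_lit 0) (.e (nat_lit 2668) (nat_lit 167) (.e (nat_lit 196686) (nat_lit 18) .nil))) .nil)) 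
(.lf (nat_lit 249046) (.g (nat_lit 1346) (.e (nat_lit 155669) (nat_lit 11) (.e (nat_lit 16473) (nat_lit 14) (.e (nat_lit 491572) (nat_lit 14) .nil))) .nil))) (.nd (nat_lit 6) 
(.lf (nat_lit 249014) (.g (nat_lit 1415) (.e (nat_lit 155669) (nat_lit 11) (.e (nat_lit 16425) (nat_lit 7) (.e (nat_lit 409648) (nat_lit 18) (.e (nat_lit 303137) (nat_lit 10) .nil)))) .nil)) 
(.lf (nat_lit 249078) (.g (nat_lit 2862) (.e (nat_lit 163842) (nat_lit 0) (.e (nat_lit 7065) (nat_lit 377) (.e (nat_lit 1349) (nat_lit 102) (.e (nat_lit 286748) (nat_lit 9) (.e (nat_lit 336389) (nat_lit 27) (.e (nat_lit 426213) (nat_lit 9) (.e (nat_lit 426142) (nat_lit 4) (.e (nat_lit 229678) (nat_lit 244) .nil)))))))) (.g (nat_lit 5) .nil .nil)))))) 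
(.nd (nat_lit 4) (.nd (nat_lit 5) (.nd (nat_lit 6) 
(.lf (nat_lit 248974) (.g (nat_lit 1643) (.e (nat_lit 147511) (nat_lit 14) (.e (nat_lit 2798) (nat_lit 180) (.e (nat_lit 303133) (nat_lit 9) (.e (nat_lit 426412) (nat_lit 15) (.e (nat_lit 7936) (nat_lit 117) .nil))))) .nil)) 
(.lf (nat_lit 249038) (.g (nat_lit 500) (.e (nat_lit 155669) (nat_lit 11) (.e (nat_lit 16468) (nat_lit 13) (.e (nat_lit 483395) (nat_lit 24) .nil))) .nil))) (.nd (nat_lit 6) 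
(.lf (nat_lit 249006) (.g (nat_lit 3208) (.e (nat_lit 155667) (nat_lit 9) (.e (nat_lit 1234) (nat_lit 91) (.e (nat_lit 90160) (nat_lit 11) (.e (nat_lit 24665) (nat_lit 14) (.e (nat_lit 401414) (nat_lit 0) .nil))))) .nil)) 
(.lf (nat_lit 249070) (.g (nat_lit 2981) (.e (nat_lit 163840) (nat_lit 0) (.e (nat_lit 3307) (nat_lit 202) (.e (nat_lit 573489) (nat_lit 14) (.e (nat_lit 73755) (nat_lit 8) (.e (nat_lit 557096) (nat_lit 13) (.e (nat_lit 172133) (nat_lit 15) (.e (nat_lit 1800) (nat_lit 119) (.e (nat_lit 516117) (nat_lit 1) (.e (nat_lit 164330) (nat_lit 230) .nil))))))))) (.g (nat_lit 4) .nil .nil))))) 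
(.nd (nat_lit 5) (.nd (nat_lit 6) 
(.lf (nat_lit 248990) (.g (nat_lit 462) (.e (nat_lit 163584) (nat_lit 6) (.e (nat_lit 188420) (nat_lit 0) (.e (nat_lit 2056) (nat_lit 142) (.e (nat_lit 704599) (nat_lit 6) (.e (nat_lit 196352) (nat_lit 8) .nil))))) .nil)) 
(.lf (nat_lit 249054) (.g (nat_lit 1292) (.e (nat_lit 155674) (nat_lit 12) (.e (nat_lit 57479) (nat_lit 28) (.e (nat_lit 557059) (nat_lit 0) .nil))) .nil))) (.nd (nat_lit 6) 
(.lf (nat_lit 249022) (.g (nat_lit 2685) (.e (nat_lit 155669) (nat_lit 11) (.e (nat_lit 16425) (nat_lit 7) (.e (nat_lit 409649) (nat_lit 18) (.e (nat_lit 303140) (nat_lit 10) (.e (nat_lit 434272) (nat_lit 38) (.e (nat_lit 655386) (nat_lit 9) (.e (nat_lit 1320) (nat_lit 99) .nil))))))) (.g (nat_lit 7) .nil .nil))) 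
(.lf (nat_lit 249086) (.g (nat_lit 2260) (.e (nat_lit 163843) (nat_lit 0) (.e (nat_lit 3605) (nat_lit 225) (.e (nat_lit 761905) (nat_lit 16) (.e (nat_lit 172138) (nat_lit 15) (.e (nat_lit 1800) (nat_lit 119) .nil))))) .nil)))))))) (.nd (nat_lit 1) (.nd (nat_lit 2) (.nd (nat_lit 3) (.nd (nat_lit 4) (.nd (nat_lit 5) (.nd (nat_lit 6) 
(.lf (nat_lit 248961) (.g (nat_lit 3015) (.e (nat_lit 147504) (nat_lit 12) (.e (nat_lit 163978) (nat_lit 30) (.e (nat_lit 573475) (nat_lit 12) (.e (nat_lit 57551) (nat_lit 48) .nil)))) .nil)) 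
(.lf (nat_lit 249025) (.g (nat_lit 1494) (.e (nat_lit 155669) (nat_lit 11) (.e (nat_lit 16436) (nat_lit 9) (.e (nat_lit 426555) (nat_lit 32) (.e (nat_lit 376857) (nat_lit 21) .nil)))) .nil))) (.nd (nat_lit 6) 
(.lf (nat_lit 248993) (.g (nat_lit 692) (.e (nat_lit 163584) (nat_lit 6) (.e (nat_lit 188453) (nat_lit 24) (.e (nat_lit 229678) (nat_lit 244) (.e (nat_lit 163850) (nat_lit 0) .nil)))) .nil)) 
(.lf (nat_lit 249057) (.g (nat_lit 1233) (.e (nat_lit 155674) (nat_lit 12) (.e (nat_lit 57479) (nat_lit 28) (.e (nat_lit 557060) (nat_lit 0) .nil))) .nil)))) (.nd (nat_lit 5) (.nd (nat_lit 6) 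
(.lf (nat_lit 248977) (.g (nat_lit 934) (.e (nat_lit 155649) (nat_lit 0) (.e (nat_lit 3062) (nat_lit 190) (.e (nat_lit 475189) (nat_lit 34) .nil))) .nil)) 
(.lf (nat_lit 249041) (.g (nat_lit 2722) (.e (nat_lit 155669) (nat_lit 11) (.e (nat_lit 16473) (nat_lit 14) (.e (nat_lit 491560) (nat_lit 10) (.e (nat_lit 344168) (nat_lit 40) .nil)))) .nil))) (.nd (nat_lit 6) 
(.lf (nat_lit 249009) (.g (nat_lit 193) (.e (nat_lit 155667) (nat_lit 9) (.e (nat_lit 1252) (nat_lit 92) (.e (nat_lit 106240) (nat_lit 14) .nil))) .nil)) 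
(.lf (nat_lit 249073) (.g (nat_lit 4022) (.e (nat_lit 163841) (nat_lit 0) (.e (nat_lit 4598) (nat_lit 269) (.e (nat_lit 1200) (nat_lit 88) (.e (nat_lit 65629) (nat_lit 14) (.e (nat_lit 401459) (nat_lit 13) (.e (nat_lit 483344) (nat_lit 17) (.e (nat_lit 6714) (nat_lit 360) .nil))))))) (.g (nat_lit 7) .nil .nil)))))) (.nd (nat_lit 4) (.nd (nat_lit 5) (.nd (nat_lit 6) 
(.lf (nat_lit 248969) (.g (nat_lit 2216) (.e (nat_lit 147504) (nat_lit 12) (.e (nat_lit 163979) (nat_lit 30) (.e (nat_lit 573475) (nat_lit 12) (.e (nat_lit 57551) (nat_lit 48) .nil)))) .nil)) 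
(.lf (nat_lit 249033) (.g (nat_lit 1863) (.e (nat_lit 155669) (nat_lit 11) (.e (nat_lit 16465) (nat_lit 13) (.e (nat_lit 483393) (nat_lit 23) (.e (nat_lit 335986) (nat_lit 1) (.e (nat_lit 57847) (nat_lit 252) .nil))))) .nil))) (.nd (nat_lit 6) 
(.lf (nat_lit 249001) (.g (nat_lit 1470) (.e (nat_lit 155667) (nat_lit 9) (.e (nat_lit 1234) (nat_lit 91) (.e (nat_lit 90158) (nat_lit 11) (.e (nat_lit 24623) (nat_lit 9) .nil)))) .nil)) 
(.lf (nat_lit 249065) (.g (nat_lit 2227) (.e (nat_lit 155674) (nat_lit 12) (.e (nat_lit 57479) (nat_lit 28) (.e (nat_lit 557094) (nat_lit 12) (.e (nat_lit 164058) (nat_lit 56) (.e (nat_lit 786455) (nat_lit 17) .nil))))) .nil)))) (.nd (nat_lit 5) (.nd (nat_lit 6) 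
(.lf (nat_lit 248985) (.g (nat_lit 970) (.e (nat_lit 163584) (nat_lit 6) (.e (nat_lit 188418) (nat_lit 0) (.e (nat_lit 2059) (nat_lit 142) (.e (nat_lit 704598) (nat_lit 6) (.e (nat_lit 196352) (nat_lit 8) .nil))))) .nil)) 
(.lf (nat_lit 249049) (.g (nat_lit 1009) (.e (nat_lit 155673) (nat_lit 12) (.e (nat_lit 57479) (nat_lit 28) (.e (nat_lit 564992) (nat_lit 6) .nil))) .nil))) (.nd (nat_lit 6) 
(.lf (nat_lit 249017) (.g (nat_lit 1805) (.e (nat_lit 155669) (nat_lit 11) (.e (nat_lit 16425) (nat_lit 7) (.e (nat_lit 409648) (nat_lit 18) (.e (nat_lit 303138) (nat_lit 10) .nil)))) .nil)) 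
(.lf (nat_lit 249081) (.g (nat_lit 2928) (.e (nat_lit 163842) (nat_lit 0) (.e (nat_lit 7065) (nat_lit 377) (.e (nat_lit 1349) (nat_lit 102) (.e (nat_lit 286748) (nat_lit 9) (.e (nat_lit 336389) (nat_lit 27) (.e (nat_lit 426223) (nat_lit 9) (.e (nat_lit 426144) (nat_lit 4) (.e (nat_lit 229680) (nat_lit 244) .nil)))))))) (.g (nat_lit 5) .nil .nil))))))) 
(.nd (nat_lit 3) (.nd (nat_lit 4) (.nd (nat_lit 5) (.nd (nat_lit 6) 
(.lf (nat_lit 248965) (.g (nat_lit 4143) (.e (nat_lit 147504) (nat_lit 12) (.e (nat_lit 163978) (nat_lit 30) (.e (nat_lit 573478) (nat_lit 12) (.e (nat_lit 57549) (nat_lit 48) (.e (nat_lit 720945) (nat_lit 23) (.e (nat_lit 98366) (nat_lit 27) (.e (nat_lit 434231) (nat_lit 23) (.e (nat_lit 532519) (nat_lit 5) .nil)))))))) (.g (nat_lit 8) .nil .nil))) 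
(.lf (nat_lit 249029) (.g (nat_lit 1734) (.e (nat_lit 155669) (nat_lit 11) (.e (nat_lit 16465) (nat_lit 13) (.e (nat_lit 483383) (nat_lit 23) (.e (nat_lit 335878) (nat_lit 0) (.e (nat_lit 1949) (nat_lit 133) .nil))))) .nil))) (.nd (nat_lit 6) 
(.lf (nat_lit 248997) (.g (nat_lit 1709) (.e (nat_lit 155665) (nat_lit 9) (.e (nat_lit 1232) (nat_lit 91) (.e (nat_lit 90160) (nat_lit 11) (.e (nat_lit 24628) (nat_lit 9) (.e (nat_lit 336019) (nat_lit 3) .nil))))) .nil)) 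
(.lf (nat_lit 249061) (.g (nat_lit 1052) (.e (nat_lit 155674) (nat_lit 12) (.e (nat_lit 57479) (nat_lit 28) (.e (nat_lit 557093) (nat_lit 12) .nil))) .nil)))) (.nd (nat_lit 5) (.nd (nat_lit 6) 
(.lf (nat_lit 248981) (.g (nat_lit 704) (.e (nat_lit 155651) (nat_lit 0) (.e (nat_lit 3003) (nat_lit 186) (.e (nat_lit 442374) (nat_lit 0) (.e (nat_lit 2059) (nat_lit 142) .nil)))) .nil)) 
(.lf (nat_lit 249045) (.g (nat_lit 3815) (.e (nat_lit 155669) (nat_lit 11) (.e (nat_lit 16473) (nat_lit 14) (.e (nat_lit 491563) (nat_lit 12) (.e (nat_lit 385106) (nat_lit 50) .nil)))) .nil))) (.nd (nat_lit 6) 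
(.lf (nat_lit 249013) (.g (nat_lit 1484) (.e (nat_lit 155669) (nat_lit 11) (.e (nat_lit 16425) (nat_lit 7) (.e (nat_lit 409648) (nat_lit 18) (.e (nat_lit 303136) (nat_lit 10) .nil)))) .nil)) 
(.lf (nat_lit 249077) (.g (nat_lit 1344) (.e (nat_lit 163842) (nat_lit 0) (.e (nat_lit 7065) (nat_lit 377) (.e (nat_lit 1349) (nat_lit 102) (.e (nat_lit 286748) (nat_lit 9) (.e (nat_lit 336389) (nat_lit 27) .nil))))) .nil))))) (.nd (nat_lit 4) (.nd (nat_lit 5) (.nd (nat_lit 6) 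
(.lf (nat_lit 248973) (.g (nat_lit 1005) (.e (nat_lit 147511) (nat_lit 14) (.e (nat_lit 2798) (nat_lit 180) (.e (nat_lit 303133) (nat_lit 9) (.e (nat_lit 426412) (nat_lit 15) .nil)))) .nil)) 
(.lf (nat_lit 249037) (.g (nat_lit 2354) (.e (nat_lit 155669) (nat_lit 11) (.e (nat_lit 16465) (nat_lit 13) (.e (nat_lit 483406) (nat_lit 26) (.e (nat_lit 385109) (nat_lit 51) (.e (nat_lit 802560) (nat_lit 8) .nil))))) .nil))) (.nd (nat_lit 6) 
(.lf (nat_lit 249005) (.g (nat_lit 3075) (.e (nat_lit 155667) (nat_lit 9) (.e (nat_lit 1234) (nat_lit 91) (.e (nat_lit 90158) (nat_lit 11) (.e (nat_lit 24665) (nat_lit 14) (.e (nat_lit 401463) (nat_lit 15) .nil))))) .nil)) 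
(.lf (nat_lit 249069) (.g (nat_lit 2142) (.e (nat_lit 163840) (nat_lit 0) (.e (nat_lit 3307) (nat_lit 202) (.e (nat_lit 573485) (nat_lit 13) (.e (nat_lit 65604) (nat_lit 9) (.e (nat_lit 336013) (nat_lit 2) .nil))))) .nil)))) (.nd (nat_lit 5) (.nd (nat_lit 6) 
(.lf (nat_lit 248989) (.g (nat_lit 298) (.e (nat_lit 163584) (nat_lit 6) (.e (nat_lit 188420) (nat_lit 0) (.e (nat_lit 2056) (nat_lit 142) (.e (nat_lit 704598) (nat_lit 6) (.e (nat_lit 196352) (nat_lit 8) .nil))))) .nil)) 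
(.lf (nat_lit 249053) (.g (nat_lit 1810) (.e (nat_lit 155674) (nat_lit 12) (.e (nat_lit 57479) (nat_lit 28) (.e (nat_lit 557058) (nat_lit 0) (.e (nat_lit 1558) (nat_lit 110) (.e (nat_lit 352315) (nat_lit 23) .nil))))) .nil))) (.nd (nat_lit 6) 
(.lf (nat_lit 249021) (.g (nat_lit 2461) (.e (nat_lit 155669) (nat_lit 11) (.e (nat_lit 16425) (nat_lit 7) (.e (nat_lit 409649) (nat_lit 18) (.e (nat_lit 303140) (nat_lit 10) (.e (nat_lit 434272) (nat_lit 38) (.e (nat_lit 655386) (nat_lit 9) (.e (nat_lit 1318) (nat_lit 99) .nil))))))) (.g (nat_lit 5) .nil .nil))) 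
(.lf (nat_lit 249085) (.g (nat_lit 549) (.e (nat_lit 163843) (nat_lit 0) (.e (nat_lit 3605) (nat_lit 225) (.e (nat_lit 769792) (nat_lit 10) .nil))) .nil))))))) (.nd (nat_lit 2) (.nd (nat_lit 3) (.nd (nat_lit 4) (.nd (nat_lit 5) (.nd (nat_lit 6) 
(.lf (nat_lit 248963) (.g (nat_lit 1105) (.e (nat_lit 147504) (nat_lit 12) (.e (nat_lit 163978) (nat_lit 30) (.e (nat_lit 573478) (nat_lit 12) .nil))) .nil)) 
(.lf (nat_lit 249027) (.g (nat_lit 2297) (.e (nat_lit 155669) (nat_lit 11) (.e (nat_lit 16436) (nat_lit 9) (.e (nat_lit 426555) (nat_lit 32) (.e (nat_lit 376860) (nat_lit 21) (.e (nat_lit 57854) (nat_lit 252) .nil))))) .nil))) (.nd (nat_lit 6) 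
(.lf (nat_lit 248995) (.g (nat_lit 1737) (.e (nat_lit 163584) (nat_lit 6) (.e (nat_lit 188455) (nat_lit 24) (.e (nat_lit 229678) (nat_lit 244) (.e (nat_lit 163846) (nat_lit 0) .nil)))) .nil)) 
(.lf (nat_lit 249059) (.g (nat_lit 1292) (.e (nat_lit 155674) (nat_lit 12) (.e (nat_lit 57479) (nat_lit 28) (.e (nat_lit 557089) (nat_lit 12) .nil))) .nil)))) (.nd (nat_lit 5) (.nd (nat_lit 6) 
(.lf (nat_lit 248979) (.g (nat_lit 1914) (.e (nat_lit 155651) (nat_lit 0) (.e (nat_lit 2984) (nat_lit 186) (.e (nat_lit 442374) (nat_lit 0) (.e (nat_lit 2059) (nat_lit 142) (.e (nat_lit 704598) (nat_lit 6) (.e (nat_lit 196352) (nat_lit 8) .nil)))))) (.g (nat_lit 5) .nil .nil))) 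
(.lf (nat_lit 249043) (.g (nat_lit 3855) (.e (nat_lit 155669) (nat_lit 11) (.e (nat_lit 16473) (nat_lit 14) (.e (nat_lit 491563) (nat_lit 12) (.e (nat_lit 385102) (nat_lit 50) .nil)))) .nil))) (.nd (nat_lit 6) 
(.lf (nat_lit 249011) (.g (nat_lit 320) (.e (nat_lit 155667) (nat_lit 9) (.e (nat_lit 1253) (nat_lit 92) (.e (nat_lit 106240) (nat_lit 14) .nil))) .nil)) 
(.lf (nat_lit 249075) (.g (nat_lit 3179) (.e (nat_lit 163842) (nat_lit 0) (.e (nat_lit 5150) (nat_lit 292) (.e (nat_lit 1172) (nat_lit 87) (.e (nat_lit 57479) (nat_lit 28) (.e (nat_lit 557105) (nat_lit 14) (.e (nat_lit 180252) (nat_lit 10) (.e (nat_lit 573489) (nat_lit 14) (.e (nat_lit 73755) (nat_lit 8) (.e (nat_lit 557090) (nat_lit 12) .nil))))))))) (.g (nat_lit 5) .nil .nil)))))) 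
(.nd (nat_lit 4) (.nd (nat_lit 5) (.nd (nat_lit 6) 
(.lf (nat_lit 248971) (.g (nat_lit 743) (.e (nat_lit 147511) (nat_lit 14) (.e (nat_lit 2797) (nat_lit 180) (.e (nat_lit 303133) (nat_lit 9) .nil))) .nil)) 
(.lf (nat_lit 249035) (.g (nat_lit 1471) (.e (nat_lit 155669) (nat_lit 11) (.e (nat_lit 16465) (nat_lit 13) (.e (nat_lit 483403) (nat_lit 26) (.e (nat_lit 385109) (nat_lit 51) .nil)))) .nil))) (.nd (nat_lit 6) 
(.lf (nat_lit 249003) (.g (nat_lit 1659) (.e (nat_lit 155667) (nat_lit 9) (.e (nat_lit 1234) (nat_lit 91) (.e (nat_lit 90158) (nat_lit 11) (.e (nat_lit 24643) (nat_lit 11) (.e (nat_lit 368676) (nat_lit 21) .nil))))) .nil)) 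
(.lf (nat_lit 249067) (.g (nat_lit 1277) (.e (nat_lit 155674) (nat_lit 12) (.e (nat_lit 57480) (nat_lit 28) (.e (nat_lit 557057) (nat_lit 0) (.e (nat_lit 1556) (nat_lit 110) .nil)))) .nil)))) (.nd (nat_lit 5) (.nd (nat_lit 6) 
(.lf (nat_lit 248987) (.g (nat_lit 1353) (.e (nat_lit 163584) (nat_lit 6) (.e (nat_lit 188418) (nat_lit 0) (.e (nat_lit 2174) (nat_lit 143) (.e (nat_lit 712752) (nat_lit 29) (.e (nat_lit 442382) (nat_lit 8) .nil))))) .nil)) 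
(.lf (nat_lit 249051) (.g (nat_lit 1292) (.e (nat_lit 155674) (nat_lit 12) (.e (nat_lit 57479) (nat_lit 28) (.e (nat_lit 557057) (nat_lit 0) .nil))) .nil))) (.nd (nat_lit 6) 
(.lf (nat_lit 249019) (.g (nat_lit 2062) (.e (nat_lit 155669) (nat_lit 11) (.e (nat_lit 16425) (nat_lit 7) (.e (nat_lit 409649) (nat_lit 18) (.e (nat_lit 303140) (nat_lit 10) (.e (nat_lit 442112) (nat_lit 37) .nil))))) .nil)) 
(.lf (nat_lit 249083) (.g (nat_lit 3733) (.e (nat_lit 163842) (nat_lit 0) (.e (nat_lit 7065) (nat_lit 377) (.e (nat_lit 1349) (nat_lit 102) (.e (nat_lit 286761) (nat_lit 13) (.e (nat_lit 393234) (nat_lit 17) (.e (nat_lit 7303) (nat_lit 388) (.e (nat_lit 2717) (nat_lit 171) (.e (nat_lit 229678) (nat_lit 244) .nil)))))))) (.g (nat_lit 5) .nil .nil))))))) 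
(.nd (nat_lit 3) (.nd (nat_lit 4) (.nd (nat_lit 5) (.nd (nat_lit 6) 
(.lf (nat_lit 248967) (.g (nat_lit 3081) (.e (nat_lit 147504) (nat_lit 12) (.e (nat_lit 163979) (nat_lit 30) (.e (nat_lit 573474) (nat_lit 12) (.e (nat_lit 57550) (nat_lit 48) .nil)))) .nil)) 
(.lf (nat_lit 249031) (.g (nat_lit 1339) (.e (nat_lit 155669) (nat_lit 11) (.e (nat_lit 16465) (nat_lit 13) (.e (nat_lit 483383) (nat_lit 23) (.e (nat_lit 336336) (nat_lit 20) .nil)))) .nil))) (.nd (nat_lit 6) 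
(.lf (nat_lit 248999) (.g (nat_lit 1759) (.e (nat_lit 155667) (nat_lit 9) (.e (nat_lit 1179) (nat_lit 87) (.e (nat_lit 57847) (nat_lit 252) (.e (nat_lit 57411) (nat_lit 12) (.e (nat_lit 336211) (nat_lit 13) .nil))))) .nil)) 
(.lf (nat_lit 249063) (.g (nat_lit 1109) (.e (nat_lit 155674) (nat_lit 12) (.e (nat_lit 57479) (nat_lit 28) (.e (nat_lit 557094) (nat_lit 12) .nil))) .nil)))) (.nd (nat_lit 5) (.nd (nat_lit 6) 
(.lf (nat_lit 248983) (.g (nat_lit 342) (.e (nat_lit 163584) (nat_lit 5) (.e (nat_lit 180268) (nat_lit 24) (.e (nat_lit 688180) (nat_lit 17) .nil))) .nil)) 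
(.lf (nat_lit 249047) (.g (nat_lit 3781) (.e (nat_lit 155669) (nat_lit 11) (.e (nat_lit 16473) (nat_lit 14) (.e (nat_lit 491572) (nat_lit 14) (.e (nat_lit 401454) (nat_lit 12) (.e (nat_lit 475214) (nat_lit 42) .nil))))) .nil))) (.nd (nat_lit 6) 
(.lf (nat_lit 249015) (.g (nat_lit 2103) (.e (nat_lit 155669) (nat_lit 11) (.e (nat_lit 16425) (nat_lit 7) (.e (nat_lit 409648) (nat_lit 18) (.e (nat_lit 303137) (nat_lit 10) (.e (nat_lit 434272) (nat_lit 38) .nil))))) .nil)) 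
(.lf (nat_lit 249079) (.g (nat_lit 2831) (.e (nat_lit 163842) (nat_lit 0) (.e (nat_lit 7065) (nat_lit 377) (.e (nat_lit 1349) (nat_lit 102) (.e (nat_lit 286748) (nat_lit 9) (.e (nat_lit 336389) (nat_lit 27) (.e (nat_lit 426221) (nat_lit 9) (.e (nat_lit 426144) (nat_lit 4) (.e (nat_lit 229678) (nat_lit 244) .nil)))))))) (.g (nat_lit 5) .nil .nil)))))) 
(.nd (nat_lit 4) (.nd (nat_lit 5) (.nd (nat_lit 6) 
(.lf (nat_lit 248975) (.g (nat_lit 885) (.e (nat_lit 147511) (nat_lit 14) (.e (nat_lit 2808) (nat_lit 180) (.e (nat_lit 303127) (nat_lit 9) (.e (nat_lit 426428) (nat_lit 17) .nil)))) .nil)) 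
(.lf (nat_lit 249039) (.g (nat_lit 1492) (.e (nat_lit 155669) (nat_lit 11) (.e (nat_lit 16468) (nat_lit 13) (.e (nat_lit 483395) (nat_lit 24) (.e (nat_lit 344156) (nat_lit 36) (.e (nat_lit 639008) (nat_lit 13) .nil))))) .nil))) (.nd (nat_lit 6) 
(.lf (nat_lit 249007) (.g (nat_lit 2020) (.e (nat_lit 155667) (nat_lit 9) (.e (nat_lit 1235) (nat_lit 91) (.e (nat_lit 90158) (nat_lit 11) (.e (nat_lit 24628) (nat_lit 9) (.e (nat_lit 336019) (nat_lit 3) .nil))))) .nil)) 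
(.lf (nat_lit 249071) (.g (nat_lit 3148) (.e (nat_lit 163840) (nat_lit 0) (.e (nat_lit 3307) (nat_lit 202) (.e (nat_lit 573489) (nat_lit 14) (.e (nat_lit 73755) (nat_lit 8) (.e (nat_lit 557098) (nat_lit 13) (.e (nat_lit 179968) (nat_lit 15) (.e (nat_lit 1800) (nat_lit 119) (.e (nat_lit 516120) (nat_lit 1) (.e (nat_lit 164330) (nat_lit 230) .nil))))))))) (.g (nat_lit 4) .nil .nil))))) 
(.nd (nat_lit 5) (.nd (nat_lit 6) 
(.lf (nat_lit 248991) (.g (nat_lit 887) (.e (nat_lit 163584) (nat_lit 6) (.e (nat_lit 188420) (nat_lit 0) (.e (nat_lit 2059) (nat_lit 142) (.e (nat_lit 704598) (nat_lit 6) (.e (nat_lit 196352) (nat_lit 8) .nil))))) .nil)) 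
(.lf (nat_lit 249055) (.g (nat_lit 1811) (.e (nat_lit 155674) (nat_lit 12) (.e (nat_lit 57479) (nat_lit 28) (.e (nat_lit 557059) (nat_lit 0) (.e (nat_lit 1582) (nat_lit 111) .nil)))) .nil))) (.nd (nat_lit 6) 
(.lf (nat_lit 249023) (.g (nat_lit 812) (.e (nat_lit 155669) (nat_lit 11) (.e (nat_lit 16433) (nat_lit 9) (.e (nat_lit 426555) (nat_lit 32) .nil))) .nil)) 
(.lf (nat_lit 249087) (.g (nat_lit 1432) (.e (nat_lit 163843) (nat_lit 0) (.e (nat_lit 3774) (nat_lit 229) (.e (nat_lit 794633) (nat_lit 11) (.e (nat_lit 336076) (nat_lit 9) (.e (nat_lit 336443) (nat_lit 32) .nil))))) .nil)))))))))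

noncomputable def tv3223 : DT := (.nd (nat_lit 0) (.nd (nat_lit 1) (.nd (nat_lit 2) (.nd (nat_lit 3) (.nd (nat_lit 4) (.nd (nat_lit 5) 
(.lf (nat_lit 249088) (.g (nat_lit 5163) (.e (nat_lit 163843) (nat_lit 0) (.e (nat_lit 4598) (nat_lit 269) (.e (nat_lit 1200) (nat_lit 88) (.e (nat_lit 65628) (nat_lit 14) (.e (nat_lit 401459) (nat_lit 13) (.e (nat_lit 483344) (nat_lit 17) (.e (nat_lit 6714) (nat_lit 360) .nil))))))) (.g (nat_lit 0) .nil .nil))) 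
(.lf (nat_lit 249120) (.g (nat_lit 2012) (.e (nat_lit 163850) (nat_lit 0) (.e (nat_lit 6264) (nat_lit 337) (.e (nat_lit 1190) (nat_lit 88) (.e (nat_lit 65627) (nat_lit 13) (.e (nat_lit 393265) (nat_lit 22) (.e (nat_lit 417820) (nat_lit 10) (.e (nat_lit 5761) (nat_lit 315) .nil))))))) (.g (nat_lit 4) .nil .nil)))) (.nd (nat_lit 5) 
(.lf (nat_lit 249104) (.g (nat_lit 1472) (.e (nat_lit 163846) (nat_lit 0) (.e (nat_lit 5206) (nat_lit 294) (.e (nat_lit 57406) (nat_lit 12) (.e (nat_lit 336367) (nat_lit 27) (.e (nat_lit 426546) (nat_lit 30) .nil))))) .nil)) 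
(.lf (nat_lit 249136) (.g (nat_lit 3221) (.e (nat_lit 163853) (nat_lit 0) (.e (nat_lit 3307) (nat_lit 202) (.e (nat_lit 573489) (nat_lit 14) (.e (nat_lit 73755) (nat_lit 8) (.e (nat_lit 557096) (nat_lit 13) (.e (nat_lit 172133) (nat_lit 15) (.e (nat_lit 1800) (nat_lit 119) (.e (nat_lit 516117) (nat_lit 1) (.e (nat_lit 164330) (nat_lit 230) .nil))))))))) (.g (nat_lit 4) .nil .nil))))) 
(.nd (nat_lit 4) (.nd (nat_lit 5) 
(.lf (nat_lit 249096) (.g (nat_lit 1183) (.e (nat_lit 163844) (nat_lit 0) (.e (nat_lit 3471) (nat_lit 217) (.e (nat_lit 696344) (nat_lit 8) (.e (nat_lit 172081) (nat_lit 7) .nil)))) .nil)) 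
(.lf (nat_lit 249128) (.g (nat_lit 586) (.e (nat_lit 163850) (nat_lit 0) (.e (nat_lit 6425) (nat_lit 342) (.e (nat_lit 229412) (nat_lit 14) .nil))) .nil))) (.nd (nat_lit 5) 
(.lf (nat_lit 249112) (.g (nat_lit 540) (.e (nat_lit 163850) (nat_lit 0) (.e (nat_lit 3272) (nat_lit 199) (.e (nat_lit 548870) (nat_lit 5) .nil))) .nil)) 
(.lf (nat_lit 249144) (.g (nat_lit 1542) (.e (nat_lit 163857) (nat_lit 0) (.e (nat_lit 5948) (nat_lit 322) (.e (nat_lit 57378) (nat_lit 3) (.e (nat_lit 98376) (nat_lit 30) (.e (nat_lit 458789) (nat_lit 23) .nil))))) .nil))))) (.nd (nat_lit 3) (.nd (nat_lit 4) (.nd (nat_lit 5) 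
(.lf (nat_lit 249092) (.g (nat_lit 3462) (.e (nat_lit 163843) (nat_lit 0) (.e (nat_lit 7562) (nat_lit 402) (.e (nat_lit 1659) (nat_lit 115) (.e (nat_lit 393301) (nat_lit 27) (.e (nat_lit 491560) (nat_lit 10) (.e (nat_lit 344087) (nat_lit 18) (.e (nat_lit 6942) (nat_lit 375) .nil))))))) (.g (nat_lit 5) .nil .nil))) 
(.lf (nat_lit 249124) (.g (nat_lit 2089) (.e (nat_lit 163850) (nat_lit 0) (.e (nat_lit 6391) (nat_lit 339) (.e (nat_lit 57411) (nat_lit 12) (.e (nat_lit 336211) (nat_lit 13) (.e (nat_lit 393265) (nat_lit 22) (.e (nat_lit 417820) (nat_lit 10) (.e (nat_lit 5761) (nat_lit 315) .nil))))))) (.g (nat_lit 4) .nil .nil)))) (.nd (nat_lit 5) 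
(.lf (nat_lit 249108) (.g (nat_lit 1901) (.e (nat_lit 163849) (nat_lit 0) (.e (nat_lit 6063) (nat_lit 328) (.e (nat_lit 57445) (nat_lit 19) (.e (nat_lit 393225) (nat_lit 9) (.e (nat_lit 335995) (nat_lit 1) .nil))))) .nil)) 
(.lf (nat_lit 249140) (.g (nat_lit 1352) (.e (nat_lit 163856) (nat_lit 0) (.e (nat_lit 5949) (nat_lit 322) (.e (nat_lit 57378) (nat_lit 3) (.e (nat_lit 98368) (nat_lit 27) .nil)))) .nil)))) (.nd (nat_lit 4) (.nd (nat_lit 5) 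
(.lf (nat_lit 249100) (.g (nat_lit 1983) (.e (nat_lit 163844) (nat_lit 0) (.e (nat_lit 6068) (nat_lit 328) (.e (nat_lit 57445) (nat_lit 19) (.e (nat_lit 393225) (nat_lit 9) (.e (nat_lit 335995) (nat_lit 1) .nil))))) .nil)) 
(.lf (nat_lit 249132) (.g (nat_lit 215) (.e (nat_lit 163850) (nat_lit 0) (.e (nat_lit 7556) (nat_lit 402) (.e (nat_lit 1638) (nat_lit 114) .nil))) .nil))) (.nd (nat_lit 5) 
(.lf (nat_lit 249116) (.g (nat_lit 1875) (.e (nat_lit 163850) (nat_lit 0) (.e (nat_lit 3469) (nat_lit 217) (.e (nat_lit 696344) (nat_lit 8) (.e (nat_lit 172079) (nat_lit 7) (.e (nat_lit 409645) (nat_lit 18) .nil))))) .nil)) 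
(.lf (nat_lit 249148) (.g (nat_lit 587) (.e (nat_lit 171776) (nat_lit 0) (.e (nat_lit 5193) (nat_lit 294) (.e (nat_lit 57435) (nat_lit 17) (.e (nat_lit 384768) (nat_lit 14) .nil)))) .nil)))))) (.nd (nat_lit 2) (.nd (nat_lit 3) (.nd (nat_lit 4) (.nd (nat_lit 5) 
(.lf (nat_lit 249090) (.g (nat_lit 2602) (.e (nat_lit 163843) (nat_lit 0) (.e (nat_lit 5943) (nat_lit 322) (.e (nat_lit 57372) (nat_lit 2) (.e (nat_lit 90172) (nat_lit 14) (.e (nat_lit 180244) (nat_lit 5) (.e (nat_lit 532515) (nat_lit 3) (.e (nat_lit 114716) (nat_lit 22) (.e (nat_lit 90163) (nat_lit 12) .nil)))))))) (.g (nat_lit 5) .nil .nil))) 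
(.lf (nat_lit 249122) (.g (nat_lit 2193) (.e (nat_lit 163850) (nat_lit 0) (.e (nat_lit 6270) (nat_lit 337) (.e (nat_lit 1296) (nat_lit 96) (.e (nat_lit 131128) (nat_lit 13) (.e (nat_lit 393265) (nat_lit 22) (.e (nat_lit 417820) (nat_lit 10) (.e (nat_lit 5761) (nat_lit 315) .nil))))))) (.g (nat_lit 5) .nil .nil)))) (.nd (nat_lit 5) 
(.lf (nat_lit 249106) (.g (nat_lit 1449) (.e (nat_lit 163846) (nat_lit 0) (.e (nat_lit 6989) (nat_lit 377) (.e (nat_lit 1361) (nat_lit 102) (.e (nat_lit 286761) (nat_lit 13) (.e (nat_lit 393275) (nat_lit 23) .nil))))) .nil)) 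
(.lf (nat_lit 249138) (.g (nat_lit 297) (.e (nat_lit 163853) (nat_lit 0) (.e (nat_lit 6393) (nat_lit 339) (.e (nat_lit 57446) (nat_lit 19) (.e (nat_lit 401152) (nat_lit 11) .nil)))) .nil)))) (.nd (nat_lit 4) (.nd (nat_lit 5) 
(.lf (nat_lit 249098) (.g (nat_lit 2577) (.e (nat_lit 163844) (nat_lit 0) (.e (nat_lit 5177) (nat_lit 292) (.e (nat_lit 1178) (nat_lit 87) (.e (nat_lit 57479) (nat_lit 28) (.e (nat_lit 557105) (nat_lit 14) (.e (nat_lit 180252) (nat_lit 10) (.e (nat_lit 573489) (nat_lit 14) (.e (nat_lit 73755) (nat_lit 8) (.e (nat_lit 557090) (nat_lit 12) .nil))))))))) (.g (nat_lit 5) .nil .nil))) 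
(.lf (nat_lit 249130) (.g (nat_lit 868) (.e (nat_lit 163850) (nat_lit 0) (.e (nat_lit 6986) (nat_lit 377) (.e (nat_lit 1376) (nat_lit 104) .nil))) .nil))) (.nd (nat_lit 5) 
(.lf (nat_lit 249114) (.g (nat_lit 2670) (.e (nat_lit 163850) (nat_lit 0) (.e (nat_lit 3304) (nat_lit 202) (.e (nat_lit 573491) (nat_lit 15) (.e (nat_lit 81951) (nat_lit 22) (.e (nat_lit 90167) (nat_lit 13) .nil))))) .nil)) 
(.lf (nat_lit 249146) (.g (nat_lit 1397) (.e (nat_lit 163857) (nat_lit 0) (.e (nat_lit 5949) (nat_lit 322) (.e (nat_lit 57378) (nat_lit 3) (.e (nat_lit 98368) (nat_lit 27) .nil)))) .nil))))) (.nd (nat_lit 3) (.nd (nat_lit 4) (.nd (nat_lit 5) 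
(.lf (nat_lit 249094) (.g (nat_lit 1231) (.e (nat_lit 163844) (nat_lit 0) (.e (nat_lit 3471) (nat_lit 217) (.e (nat_lit 696344) (nat_lit 8) (.e (nat_lit 172078) (nat_lit 7) .nil)))) .nil)) 
(.lf (nat_lit 249126) (.g (nat_lit 2333) (.e (nat_lit 163850) (nat_lit 0) (.e (nat_lit 6410) (nat_lit 340) (.e (nat_lit 122916) (nat_lit 14) (.e (nat_lit 352277) (nat_lit 11) (.e (nat_lit 426182) (nat_lit 8) (.e (nat_lit 417820) (nat_lit 10) (.e (nat_lit 5761) (nat_lit 315) .nil))))))) (.g (nat_lit 5) .nil .nil)))) (.nd (nat_lit 5) 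
(.lf (nat_lit 249110) (.g (nat_lit 2964) (.e (nat_lit 163849) (nat_lit 0) (.e (nat_lit 6830) (nat_lit 367) (.e (nat_lit 57373) (nat_lit 2) (.e (nat_lit 90174) (nat_lit 14) (.e (nat_lit 180251) (nat_lit 10) .nil))))) .nil)) 
(.lf (nat_lit 249142) (.g (nat_lit 2466) (.e (nat_lit 163857) (nat_lit 0) (.e (nat_lit 3304) (nat_lit 202) (.e (nat_lit 573489) (nat_lit 14) (.e (nat_lit 73755) (nat_lit 8) (.e (nat_lit 557096) (nat_lit 13) .nil))))) .nil)))) (.nd (nat_lit 4) (.nd (nat_lit 5) 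
(.lf (nat_lit 249102) (.g (nat_lit 1619) (.e (nat_lit 163846) (nat_lit 0) (.e (nat_lit 3686) (nat_lit 227) (.e (nat_lit 778466) (nat_lit 11) (.e (nat_lit 24658) (nat_lit 13) (.e (nat_lit 393281) (nat_lit 23) .nil))))) .nil)) 
(.lf (nat_lit 249134) (.g (nat_lit 3394) (.e (nat_lit 163850) (nat_lit 0) (.e (nat_lit 7556) (nat_lit 402) (.e (nat_lit 1659) (nat_lit 115) (.e (nat_lit 393301) (nat_lit 27) (.e (nat_lit 491559) (nat_lit 10) (.e (nat_lit 344091) (nat_lit 18) (.e (nat_lit 6942) (nat_lit 375) .nil))))))) (.g (nat_lit 5) .nil .nil)))) (.nd (nat_lit 5) 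
(.lf (nat_lit 249118) (.g (nat_lit 3238) (.e (nat_lit 163850) (nat_lit 0) (.e (nat_lit 3537) (nat_lit 218) (.e (nat_lit 704738) (nat_lit 11) (.e (nat_lit 16425) (nat_lit 7) (.e (nat_lit 409649) (nat_lit 18) (.e (nat_lit 303140) (nat_lit 10) (.e (nat_lit 434206) (nat_lit 18) (.e (nat_lit 5970) (nat_lit 324) .nil)))))))) (.g (nat_lit 6) .nil .nil))) 
(.lf (nat_lit 249150) (.g (nat_lit 2022) (.e (nat_lit 171776) (nat_lit 0) (.e (nat_lit 5195) (nat_lit 294) (.e (nat_lit 57407) (nat_lit 12) (.e (nat_lit 336367) (nat_lit 27) (.e (nat_lit 426544) (nat_lit 30) .nil))))) .nil))))))) (.nd (nat_lit 1) (.nd (nat_lit 2) (.nd (nat_lit 3) (.nd (nat_lit 4) (.nd (nat_lit 5) 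
(.lf (nat_lit 249089) (.g (nat_lit 2407) (.e (nat_lit 163843) (nat_lit 0) (.e (nat_lit 4598) (nat_lit 269) (.e (nat_lit 1221) (nat_lit 90) (.e (nat_lit 81959) (nat_lit 24) (.e (nat_lit 123182) (nat_lit 264) (.e (nat_lit 1214) (nat_lit 89) (.e (nat_lit 81664) (nat_lit 35) .nil))))))) (.g (nat_lit 4) .nil .nil))) 
(.lf (nat_lit 249121) (.g (nat_lit 1999) (.e (nat_lit 163850) (nat_lit 0) (.e (nat_lit 6270) (nat_lit 337) (.e (nat_lit 1201) (nat_lit 88) (.e (nat_lit 65625) (nat_lit 13) (.e (nat_lit 393265) (nat_lit 22) (.e (nat_lit 417820) (nat_lit 10) (.e (nat_lit 5761) (nat_lit 315) .nil))))))) (.g (nat_lit 4) .nil .nil)))) (.nd (nat_lit 5) 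
(.lf (nat_lit 249105) (.g (nat_lit 1936) (.e (nat_lit 163846) (nat_lit 0) (.e (nat_lit 6989) (nat_lit 377) (.e (nat_lit 1361) (nat_lit 102) (.e (nat_lit 286761) (nat_lit 13) (.e (nat_lit 393265) (nat_lit 22) (.e (nat_lit 417804) (nat_lit 1) (.e (nat_lit 8467) (nat_lit 148) .nil))))))) (.g (nat_lit 6) .nil .nil))) 
(.lf (nat_lit 249137) (.g (nat_lit 2319) (.e (nat_lit 163853) (nat_lit 0) (.e (nat_lit 5951) (nat_lit 322) (.e (nat_lit 57373) (nat_lit 2) (.e (nat_lit 90172) (nat_lit 14) (.e (nat_lit 180243) (nat_lit 5) .nil))))) .nil)))) (.nd (nat_lit 4) (.nd (nat_lit 5) 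
(.lf (nat_lit 249097) (.g (nat_lit 437) (.e (nat_lit 163844) (nat_lit 0) (.e (nat_lit 3605) (nat_lit 225) (.e (nat_lit 769792) (nat_lit 10) .nil))) .nil)) 
(.lf (nat_lit 249129) (.g (nat_lit 941) (.e (nat_lit 163850) (nat_lit 0) (.e (nat_lit 6986) (nat_lit 377) (.e (nat_lit 1361) (nat_lit 102) .nil))) .nil))) (.nd (nat_lit 5) 
(.lf (nat_lit 249113) (.g (nat_lit 2809) (.e (nat_lit 163850) (nat_lit 0) (.e (nat_lit 3304) (nat_lit 202) (.e (nat_lit 573489) (nat_lit 14) (.e (nat_lit 73755) (nat_lit 8) (.e (nat_lit 557097) (nat_lit 13) (.e (nat_lit 172133) (nat_lit 15) (.e (nat_lit 1800) (nat_lit 119) (.e (nat_lit 516119) (nat_lit 1) (.e (nat_lit 164322) (nat_lit 230) .nil))))))))) (.g (nat_lit 4) .nil .nil))) 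
(.lf (nat_lit 249145) (.g (nat_lit 1406) (.e (nat_lit 163857) (nat_lit 0) (.e (nat_lit 5949) (nat_lit 322) (.e (nat_lit 57373) (nat_lit 2) (.e (nat_lit 90168) (nat_lit 13) .nil)))) .nil))))) (.nd (nat_lit 3) (.nd (nat_lit 4) (.nd (nat_lit 5) 
(.lf (nat_lit 249093) (.g (nat_lit 3886) (.e (nat_lit 163843) (nat_lit 0) (.e (nat_lit 7562) (nat_lit 402) (.e (nat_lit 1659) (nat_lit 115) (.e (nat_lit 393301) (nat_lit 27) (.e (nat_lit 491560) (nat_lit 10) (.e (nat_lit 344088) (nat_lit 18) (.e (nat_lit 6942) (nat_lit 375) .nil))))))) (.g (nat_lit 5) .nil .nil))) 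
(.lf (nat_lit 249125) (.g (nat_lit 2216) (.e (nat_lit 163850) (nat_lit 0) (.e (nat_lit 6398) (nat_lit 339) (.e (nat_lit 57411) (nat_lit 12) (.e (nat_lit 336211) (nat_lit 13) (.e (nat_lit 393265) (nat_lit 22) (.e (nat_lit 417820) (nat_lit 10) (.e (nat_lit 5761) (nat_lit 315) .nil))))))) (.g (nat_lit 4) .nil .nil)))) (.nd (nat_lit 5) 
(.lf (nat_lit 249109) (.g (nat_lit 1473) (.e (nat_lit 163849) (nat_lit 0) (.e (nat_lit 6830) (nat_lit 367) (.e (nat_lit 57371) (nat_lit 2) (.e (nat_lit 90173) (nat_lit 14) .nil)))) .nil)) 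
(.lf (nat_lit 249141) (.g (nat_lit 1385) (.e (nat_lit 163856) (nat_lit 0) (.e (nat_lit 5949) (nat_lit 322) (.e (nat_lit 57378) (nat_lit 3) (.e (nat_lit 98376) (nat_lit 30) .nil)))) .nil)))) (.nd (nat_lit 4) (.nd (nat_lit 5) 
(.lf (nat_lit 249101) (.g (nat_lit 1293) (.e (nat_lit 163844) (nat_lit 0) (.e (nat_lit 6830) (nat_lit 367) (.e (nat_lit 57389) (nat_lit 5) (.e (nat_lit 114716) (nat_lit 22) .nil)))) .nil)) 
(.lf (nat_lit 249133) (.g (nat_lit 4014) (.e (nat_lit 163850) (nat_lit 0) (.e (nat_lit 7556) (nat_lit 402) (.e (nat_lit 1659) (nat_lit 115) (.e (nat_lit 393301) (nat_lit 27) (.e (nat_lit 491559) (nat_lit 10) (.e (nat_lit 344091) (nat_lit 18) (.e (nat_lit 6940) (nat_lit 375) .nil))))))) (.g (nat_lit 6) .nil .nil)))) (.nd (nat_lit 5) 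
(.lf (nat_lit 249117) (.g (nat_lit 1794) (.e (nat_lit 163850) (nat_lit 0) (.e (nat_lit 3469) (nat_lit 217) (.e (nat_lit 696344) (nat_lit 8) (.e (nat_lit 172082) (nat_lit 7) (.e (nat_lit 409646) (nat_lit 18) .nil))))) .nil)) 
(.lf (nat_lit 249149) (.g (nat_lit 611) (.e (nat_lit 171776) (nat_lit 0) (.e (nat_lit 5193) (nat_lit 294) (.e (nat_lit 57437) (nat_lit 17) (.e (nat_lit 384768) (nat_lit 14) .nil)))) .nil)))))) (.nd (nat_lit 2) (.nd (nat_lit 3) (.nd (nat_lit 4) (.nd (nat_lit 5) 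
(.lf (nat_lit 249091) (.g (nat_lit 2799) (.e (nat_lit 163843) (nat_lit 0) (.e (nat_lit 6420) (nat_lit 341) (.e (nat_lit 163902) (nat_lit 12) (.e (nat_lit 426568) (nat_lit 34) (.e (nat_lit 393275) (nat_lit 23) (.e (nat_lit 426125) (nat_lit 2) (.e (nat_lit 204544) (nat_lit 3) .nil))))))) (.g (nat_lit 6) .nil .nil))) 
(.lf (nat_lit 249123) (.g (nat_lit 1931) (.e (nat_lit 163850) (nat_lit 0) (.e (nat_lit 6277) (nat_lit 337) (.e (nat_lit 1296) (nat_lit 96) (.e (nat_lit 131126) (nat_lit 13) (.e (nat_lit 393265) (nat_lit 22) (.e (nat_lit 417820) (nat_lit 10) (.e (nat_lit 5761) (nat_lit 315) .nil))))))) (.g (nat_lit 5) .nil .nil)))) (.nd (nat_lit 5) 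
(.lf (nat_lit 249107) (.g (nat_lit 1773) (.e (nat_lit 163846) (nat_lit 0) (.e (nat_lit 6989) (nat_lit 377) (.e (nat_lit 1361) (nat_lit 102) (.e (nat_lit 286761) (nat_lit 13) (.e (nat_lit 393284) (nat_lit 24) (.e (nat_lit 434215) (nat_lit 18) (.e (nat_lit 5599) (nat_lit 310) .nil))))))) (.g (nat_lit 5) .nil .nil))) 
(.lf (nat_lit 249139) (.g (nat_lit 1579) (.e (nat_lit 163855) (nat_lit 0) (.e (nat_lit 3302) (nat_lit 202) (.e (nat_lit 573450) (nat_lit 9) (.e (nat_lit 1615) (nat_lit 113) .nil)))) .nil)))) (.nd (nat_lit 4) (.nd (nat_lit 5) 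
(.lf (nat_lit 249099) (.g (nat_lit 1309) (.e (nat_lit 163844) (nat_lit 0) (.e (nat_lit 6047) (nat_lit 326) (.e (nat_lit 1199) (nat_lit 88) (.e (nat_lit 65546) (nat_lit 0) (.e (nat_lit 1841) (nat_lit 123) .nil))))) .nil)) 
(.lf (nat_lit 249131) (.g (nat_lit 2011) (.e (nat_lit 163850) (nat_lit 0) (.e (nat_lit 6986) (nat_lit 377) (.e (nat_lit 2777) (nat_lit 178) (.e (nat_lit 286731) (nat_lit 1) .nil)))) .nil))) (.nd (nat_lit 5) 
(.lf (nat_lit 249115) (.g (nat_lit 450) (.e (nat_lit 163850) (nat_lit 0) (.e (nat_lit 3469) (nat_lit 217) (.e (nat_lit 696344) (nat_lit 8) .nil))) .nil)) 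
(.lf (nat_lit 249147) (.g (nat_lit 668) (.e (nat_lit 171776) (nat_lit 0) (.e (nat_lit 5193) (nat_lit 294) (.e (nat_lit 57407) (nat_lit 12) (.e (nat_lit 336456) (nat_lit 34) .nil)))) .nil))))) (.nd (nat_lit 3) (.nd (nat_lit 4) (.nd (nat_lit 5) 
(.lf (nat_lit 249095) (.g (nat_lit 1740) (.e (nat_lit 163844) (nat_lit 0) (.e (nat_lit 3471) (nat_lit 217) (.e (nat_lit 696344) (nat_lit 8) (.e (nat_lit 172079) (nat_lit 7) (.e (nat_lit 409645) (nat_lit 18) .nil))))) .nil)) 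
(.lf (nat_lit 249127) (.g (nat_lit 530) (.e (nat_lit 163850) (nat_lit 0) (.e (nat_lit 6425) (nat_lit 342) (.e (nat_lit 229409) (nat_lit 13) .nil))) .nil))) (.nd (nat_lit 5) 
(.lf (nat_lit 249111) (.g (nat_lit 3058) (.e (nat_lit 163849) (nat_lit 0) (.e (nat_lit 7460) (nat_lit 396) (.e (nat_lit 2423) (nat_lit 157) (.e (nat_lit 232) (nat_lit 21) (.e (nat_lit 336060) (nat_lit 7) (.e (nat_lit 319534) (nat_lit 16) (.e (nat_lit 286756) (nat_lit 10) (.e (nat_lit 344168) (nat_lit 40) (.e (nat_lit 671782) (nat_lit 12) .nil))))))))) (.g (nat_lit 9) .nil .nil))) 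
(.lf (nat_lit 249143) (.g (nat_lit 3887) (.e (nat_lit 163857) (nat_lit 0) (.e (nat_lit 3304) (nat_lit 202) (.e (nat_lit 573489) (nat_lit 14) (.e (nat_lit 73755) (nat_lit 8) (.e (nat_lit 557098) (nat_lit 13) (.e (nat_lit 172133) (nat_lit 15) (.e (nat_lit 1800) (nat_lit 119) (.e (nat_lit 516120) (nat_lit 1) (.e (nat_lit 164330) (nat_lit 230) .nil))))))))) (.g (nat_lit 5) .nil .nil))))) 
(.nd (nat_lit 4) (.nd (nat_lit 5) 
(.lf (nat_lit 249103) (.g (nat_lit 1991) (.e (nat_lit 163846) (nat_lit 0) (.e (nat_lit 3720) (nat_lit 227) (.e (nat_lit 778466) (nat_lit 11) (.e (nat_lit 24658) (nat_lit 13) (.e (nat_lit 393281) (nat_lit 23) .nil))))) .nil)) 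
(.lf (nat_lit 249135) (.g (nat_lit 3675) (.e (nat_lit 163853) (nat_lit 0) (.e (nat_lit 3304) (nat_lit 202) (.e (nat_lit 573489) (nat_lit 14) (.e (nat_lit 73755) (nat_lit 8) (.e (nat_lit 557098) (nat_lit 13) (.e (nat_lit 172133) (nat_lit 15) (.e (nat_lit 1800) (nat_lit 119) (.e (nat_lit 516120) (nat_lit 1) (.e (nat_lit 164330) (nat_lit 230) .nil))))))))) (.g (nat_lit 5) .nil .nil)))) 
(.nd (nat_lit 5) 
(.lf (nat_lit 249119) (.g (nat_lit 3647) (.e (nat_lit 163850) (nat_lit 0) (.e (nat_lit 5939) (nat_lit 322) (.e (nat_lit 57372) (nat_lit 2) (.e (nat_lit 90172) (nat_lit 14) (.e (nat_lit 180244) (nat_lit 5) (.e (nat_lit 532515) (nat_lit 3) (.e (nat_lit 114716) (nat_lit 22) (.e (nat_lit 90163) (nat_lit 12) .nil)))))))) (.g (nat_lit 7) .nil .nil))) 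
(.lf (nat_lit 249151) (.g (nat_lit 2100) (.e (nat_lit 171776) (nat_lit 0) (.e (nat_lit 5195) (nat_lit 294) (.e (nat_lit 57407) (nat_lit 12) (.e (nat_lit 336367) (nat_lit 27) (.e (nat_lit 426545) (nat_lit 30) .nil))))) .nil))))))))

noncomputable def tv3224 : DT := (.nd (nat_lit 0) (.nd (nat_lit 1) (.nd (nat_lit 2) (.nd (nat_lit 3) (.nd (nat_lit 4) (.nd (nat_lit 5) 
(.lf (nat_lit 249152) (.g (nat_lit 1376) (.e (nat_lit 171776) (nat_lit 0) (.e (nat_lit 5195) (nat_lit 294) (.e (nat_lit 57407) (nat_lit 12) (.e (nat_lit 336456) (nat_lit 34) .nil)))) .nil)) 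
(.lf (nat_lit 249184) (.g (nat_lit 4090) (.e (nat_lit 163861) (nat_lit 1) (.e (nat_lit 164332) (nat_lit 230) (.e (nat_lit 163905) (nat_lit 12) (.e (nat_lit 426428) (nat_lit 17) (.e (nat_lit 90170) (nat_lit 13) (.e (nat_lit 172113) (nat_lit 10) (.e (nat_lit 434203) (nat_lit 18) (.e (nat_lit 6839) (nat_lit 369) .nil)))))))) (.g (nat_lit 8) .nil .nil)))) (.nd (nat_lit 5) 
(.lf (nat_lit 249168) (.g (nat_lit 3398) (.e (nat_lit 163860) (nat_lit 1) (.e (nat_lit 164329) (nat_lit 230) (.e (nat_lit 163902) (nat_lit 12) (.e (nat_lit 426428) (nat_lit 17) (.e (nat_lit 90170) (nat_lit 13) (.e (nat_lit 172113) (nat_lit 10) (.e (nat_lit 434208) (nat_lit 18) (.e (nat_lit 6839) (nat_lit 369) .nil)))))))) (.g (nat_lit 6) .nil .nil))) 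
(.lf (nat_lit 249200) (.g (nat_lit 407) (.e (nat_lit 163863) (nat_lit 1) (.e (nat_lit 164326) (nat_lit 230) (.e (nat_lit 163886) (nat_lit 5) .nil))) .nil)))) (.nd (nat_lit 4) (.nd (nat_lit 5) 
(.lf (nat_lit 249160) (.g (nat_lit 1998) (.e (nat_lit 163858) (nat_lit 1) (.e (nat_lit 164325) (nat_lit 230) (.e (nat_lit 163903) (nat_lit 12) (.e (nat_lit 426428) (nat_lit 17) (.e (nat_lit 90170) (nat_lit 13) (.e (nat_lit 172113) (nat_lit 10) (.e (nat_lit 434203) (nat_lit 18) (.e (nat_lit 6839) (nat_lit 369) .nil)))))))) (.g (nat_lit 4) .nil .nil))) 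
(.lf (nat_lit 249192) (.g (nat_lit 2497) (.e (nat_lit 163862) (nat_lit 1) (.e (nat_lit 164332) (nat_lit 230) (.e (nat_lit 163885) (nat_lit 5) (.e (nat_lit 221207) (nat_lit 21) (.e (nat_lit 164221) (nat_lit 181) .nil))))) .nil))) (.nd (nat_lit 5) 
(.lf (nat_lit 249176) (.g (nat_lit 1175) (.e (nat_lit 163861) (nat_lit 1) (.e (nat_lit 164231) (nat_lit 184) (.e (nat_lit 122919) (nat_lit 15) (.e (nat_lit 360451) (nat_lit 0) .nil)))) .nil)) 
(.lf (nat_lit 249208) (.g (nat_lit 2818) (.e (nat_lit 163863) (nat_lit 1) (.e (nat_lit 164403) (nat_lit 256) (.e (nat_lit 57447) (nat_lit 19) (.e (nat_lit 393252) (nat_lit 18) (.e (nat_lit 164332) (nat_lit 230) .nil))))) .nil))))) (.nd (nat_lit 3) (.nd (nat_lit 4) (.nd (nat_lit 5) 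
(.lf (nat_lit 249156) (.g (nat_lit 1150) (.e (nat_lit 171776) (nat_lit 0) (.e (nat_lit 5195) (nat_lit 294) (.e (nat_lit 57445) (nat_lit 19) (.e (nat_lit 401152) (nat_lit 12) .nil)))) .nil)) 
(.lf (nat_lit 249188) (.g (nat_lit 3665) (.e (nat_lit 163862) (nat_lit 1) (.e (nat_lit 164325) (nat_lit 230) (.e (nat_lit 163903) (nat_lit 12) (.e (nat_lit 426428) (nat_lit 17) (.e (nat_lit 90170) (nat_lit 13) (.e (nat_lit 172113) (nat_lit 10) (.e (nat_lit 434203) (nat_lit 18) (.e (nat_lit 6841) (nat_lit 369) .nil)))))))) (.g (nat_lit 7) .nil .nil)))) (.nd (nat_lit 5) 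
(.lf (nat_lit 249172) (.g (nat_lit 1299) (.e (nat_lit 163860) (nat_lit 1) (.e (nat_lit 164399) (nat_lit 256) (.e (nat_lit 57437) (nat_lit 17) (.e (nat_lit 376859) (nat_lit 21) .nil)))) .nil)) 
(.lf (nat_lit 249204) (.g (nat_lit 3100) (.e (nat_lit 163863) (nat_lit 1) (.e (nat_lit 164401) (nat_lit 256) (.e (nat_lit 57412) (nat_lit 12) (.e (nat_lit 336061) (nat_lit 7) (.e (nat_lit 319531) (nat_lit 16) (.e (nat_lit 286767) (nat_lit 27) (.e (nat_lit 426107) (nat_lit 1) (.e (nat_lit 164325) (nat_lit 230) .nil)))))))) (.g (nat_lit 5) .nil .nil))))) (.nd (nat_lit 4) (.nd (nat_lit 5) 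
(.lf (nat_lit 249164) (.g (nat_lit 3125) (.e (nat_lit 163859) (nat_lit 1) (.e (nat_lit 164325) (nat_lit 230) (.e (nat_lit 163903) (nat_lit 12) (.e (nat_lit 426428) (nat_lit 17) (.e (nat_lit 90170) (nat_lit 13) (.e (nat_lit 172113) (nat_lit 10) (.e (nat_lit 434203) (nat_lit 18) (.e (nat_lit 6841) (nat_lit 369) .nil)))))))) (.g (nat_lit 6) .nil .nil))) 
(.lf (nat_lit 249196) (.g (nat_lit 3072) (.e (nat_lit 163862) (nat_lit 1) (.e (nat_lit 164332) (nat_lit 230) (.e (nat_lit 163905) (nat_lit 12) (.e (nat_lit 426428) (nat_lit 17) (.e (nat_lit 90170) (nat_lit 13) (.e (nat_lit 172113) (nat_lit 10) (.e (nat_lit 434208) (nat_lit 18) (.e (nat_lit 6841) (nat_lit 369) .nil)))))))) (.g (nat_lit 6) .nil .nil)))) (.nd (nat_lit 5) 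
(.lf (nat_lit 249180) (.g (nat_lit 2860) (.e (nat_lit 163861) (nat_lit 1) (.e (nat_lit 164330) (nat_lit 230) (.e (nat_lit 163902) (nat_lit 12) (.e (nat_lit 426428) (nat_lit 17) (.e (nat_lit 90170) (nat_lit 13) (.e (nat_lit 172113) (nat_lit 10) (.e (nat_lit 434203) (nat_lit 18) (.e (nat_lit 6839) (nat_lit 369) .nil)))))))) (.g (nat_lit 4) .nil .nil))) 
(.lf (nat_lit 249212) (.g (nat_lit 3824) (.e (nat_lit 163864) (nat_lit 1) (.e (nat_lit 164330) (nat_lit 230) (.e (nat_lit 163902) (nat_lit 12) (.e (nat_lit 426428) (nat_lit 17) (.e (nat_lit 90170) (nat_lit 13) (.e (nat_lit 172113) (nat_lit 10) (.e (nat_lit 434203) (nat_lit 18) (.e (nat_lit 6839) (nat_lit 369) .nil)))))))) (.g (nat_lit 6) .nil .nil))))))) 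
(.nd (nat_lit 2) (.nd (nat_lit 3) (.nd (nat_lit 4) (.nd (nat_lit 5) 
(.lf (nat_lit 249154) (.g (nat_lit 972) (.e (nat_lit 171776) (nat_lit 0) (.e (nat_lit 5195) (nat_lit 294) (.e (nat_lit 57435) (nat_lit 17) (.e (nat_lit 384768) (nat_lit 14) .nil)))) .nil)) 
(.lf (nat_lit 249186) (.g (nat_lit 3637) (.e (nat_lit 163861) (nat_lit 1) (.e (nat_lit 164398) (nat_lit 256) (.e (nat_lit 57412) (nat_lit 12) (.e (nat_lit 336061) (nat_lit 7) (.e (nat_lit 319531) (nat_lit 16) (.e (nat_lit 286767) (nat_lit 27) (.e (nat_lit 426107) (nat_lit 1) (.e (nat_lit 164326) (nat_lit 230) .nil)))))))) (.g (nat_lit 6) .nil .nil)))) (.nd (nat_lit 5) 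
(.lf (nat_lit 249170) (.g (nat_lit 3414) (.e (nat_lit 163860) (nat_lit 1) (.e (nat_lit 164330) (nat_lit 230) (.e (nat_lit 163902) (nat_lit 12) (.e (nat_lit 426428) (nat_lit 17) (.e (nat_lit 90170) (nat_lit 13) (.e (nat_lit 172113) (nat_lit 10) (.e (nat_lit 434208) (nat_lit 18) (.e (nat_lit 6839) (nat_lit 369) .nil)))))))) (.g (nat_lit 5) .nil .nil))) 
(.lf (nat_lit 249202) (.g (nat_lit 3779) (.e (nat_lit 163863) (nat_lit 1) (.e (nat_lit 164326) (nat_lit 230) (.e (nat_lit 163903) (nat_lit 12) (.e (nat_lit 426428) (nat_lit 17) (.e (nat_lit 90170) (nat_lit 13) (.e (nat_lit 172113) (nat_lit 10) (.e (nat_lit 434203) (nat_lit 18) (.e (nat_lit 6839) (nat_lit 369) .nil)))))))) (.g (nat_lit 6) .nil .nil))))) (.nd (nat_lit 4) (.nd (nat_lit 5) 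
(.lf (nat_lit 249162) (.g (nat_lit 513) (.e (nat_lit 163859) (nat_lit 1) (.e (nat_lit 164325) (nat_lit 230) (.e (nat_lit 163886) (nat_lit 5) .nil))) .nil)) 
(.lf (nat_lit 249194) (.g (nat_lit 2099) (.e (nat_lit 163862) (nat_lit 1) (.e (nat_lit 164332) (nat_lit 230) (.e (nat_lit 163905) (nat_lit 12) (.e (nat_lit 426112) (nat_lit 1) .nil)))) .nil))) (.nd (nat_lit 5) 
(.lf (nat_lit 249178) (.g (nat_lit 3318) (.e (nat_lit 163861) (nat_lit 1) (.e (nat_lit 164329) (nat_lit 230) (.e (nat_lit 163902) (nat_lit 12) (.e (nat_lit 426428) (nat_lit 17) (.e (nat_lit 90170) (nat_lit 13) (.e (nat_lit 172113) (nat_lit 10) (.e (nat_lit 434208) (nat_lit 18) (.e (nat_lit 6839) (nat_lit 369) .nil)))))))) (.g (nat_lit 6) .nil .nil))) 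
(.lf (nat_lit 249210) (.g (nat_lit 3305) (.e (nat_lit 163864) (nat_lit 1) (.e (nat_lit 164329) (nat_lit 230) (.e (nat_lit 163902) (nat_lit 12) (.e (nat_lit 426428) (nat_lit 17) (.e (nat_lit 90170) (nat_lit 13) (.e (nat_lit 172113) (nat_lit 10) (.e (nat_lit 434203) (nat_lit 18) (.e (nat_lit 6839) (nat_lit 369) .nil)))))))) (.g (nat_lit 6) .nil .nil)))))) 
(.nd (nat_lit 3) (.nd (nat_lit 4) (.nd (nat_lit 5) 
(.lf (nat_lit 249158) (.g (nat_lit 1845) (.e (nat_lit 171776) (nat_lit 0) (.e (nat_lit 5199) (nat_lit 294) (.e (nat_lit 57407) (nat_lit 12) (.e (nat_lit 336456) (nat_lit 34) (.e (nat_lit 483396) (nat_lit 24) .nil))))) .nil)) 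
(.lf (nat_lit 249190) (.g (nat_lit 4149) (.e (nat_lit 163862) (nat_lit 1) (.e (nat_lit 164330) (nat_lit 230) (.e (nat_lit 163902) (nat_lit 12) (.e (nat_lit 426428) (nat_lit 17) (.e (nat_lit 90170) (nat_lit 13) (.e (nat_lit 172113) (nat_lit 10) (.e (nat_lit 434208) (nat_lit 18) (.e (nat_lit 6839) (nat_lit 369) .nil)))))))) (.g (nat_lit 6) .nil .nil)))) (.nd (nat_lit 5) 
(.lf (nat_lit 249174) (.g (nat_lit 1559) (.e (nat_lit 163860) (nat_lit 1) (.e (nat_lit 164401) (nat_lit 256) (.e (nat_lit 57447) (nat_lit 19) (.e (nat_lit 393238) (nat_lit 17) .nil)))) .nil)) 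
(.lf (nat_lit 249206) (.g (nat_lit 2226) (.e (nat_lit 163863) (nat_lit 1) (.e (nat_lit 164403) (nat_lit 256) (.e (nat_lit 57378) (nat_lit 3) (.e (nat_lit 98368) (nat_lit 27) .nil)))) .nil)))) (.nd (nat_lit 4) (.nd (nat_lit 5) 
(.lf (nat_lit 249166) (.g (nat_lit 3756) (.e (nat_lit 163860) (nat_lit 1) (.e (nat_lit 164329) (nat_lit 230) (.e (nat_lit 163902) (nat_lit 12) (.e (nat_lit 426428) (nat_lit 17) (.e (nat_lit 90170) (nat_lit 13) (.e (nat_lit 172106) (nat_lit 10) (.e (nat_lit 434202) (nat_lit 18) (.e (nat_lit 6841) (nat_lit 369) .nil)))))))) (.g (nat_lit 6) .nil .nil))) 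
(.lf (nat_lit 249198) (.g (nat_lit 4500) (.e (nat_lit 163863) (nat_lit 1) (.e (nat_lit 164325) (nat_lit 230) (.e (nat_lit 163903) (nat_lit 12) (.e (nat_lit 426428) (nat_lit 17) (.e (nat_lit 90170) (nat_lit 13) (.e (nat_lit 172106) (nat_lit 10) (.e (nat_lit 434202) (nat_lit 18) (.e (nat_lit 6839) (nat_lit 369) .nil)))))))) (.g (nat_lit 8) .nil .nil)))) (.nd (nat_lit 5) 
(.lf (nat_lit 249182) (.g (nat_lit 2617) (.e (nat_lit 163861) (nat_lit 1) (.e (nat_lit 164332) (nat_lit 230) (.e (nat_lit 163885) (nat_lit 5) (.e (nat_lit 221207) (nat_lit 21) (.e (nat_lit 164231) (nat_lit 184) .nil))))) .nil)) 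
(.lf (nat_lit 249214) (.g (nat_lit 2272) (.e (nat_lit 163864) (nat_lit 1) (.e (nat_lit 164331) (nat_lit 230) (.e (nat_lit 163902) (nat_lit 12) (.e (nat_lit 426428) (nat_lit 17) (.e (nat_lit 90170) (nat_lit 13) (.e (nat_lit 172113) (nat_lit 10) (.e (nat_lit 434203) (nat_lit 18) (.e (nat_lit 6839) (nat_lit 369) .nil)))))))) (.g (nat_lit 4) .nil .nil)))))))) 
(.nd (nat_lit 1) (.nd (nat_lit 2) (.nd (nat_lit 3) (.nd (nat_lit 4) (.nd (nat_lit 5) 
(.lf (nat_lit 249153) (.g (nat_lit 2210) (.e (nat_lit 171776) (nat_lit 0) (.e (nat_lit 5195) (nat_lit 294) (.e (nat_lit 57407) (nat_lit 12) (.e (nat_lit 336456) (nat_lit 34) (.e (nat_lit 483395) (nat_lit 24) .nil))))) .nil)) 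
(.lf (nat_lit 249185) (.g (nat_lit 4107) (.e (nat_lit 163861) (nat_lit 1) (.e (nat_lit 164332) (nat_lit 230) (.e (nat_lit 163905) (nat_lit 12) (.e (nat_lit 426428) (nat_lit 17) (.e (nat_lit 90170) (nat_lit 13) (.e (nat_lit 172113) (nat_lit 10) (.e (nat_lit 434208) (nat_lit 18) (.e (nat_lit 6839) (nat_lit 369) .nil)))))))) (.g (nat_lit 8) .nil .nil)))) (.nd (nat_lit 5) 
(.lf (nat_lit 249169) (.g (nat_lit 3397) (.e (nat_lit 163860) (nat_lit 1) (.e (nat_lit 164330) (nat_lit 230) (.e (nat_lit 163902) (nat_lit 12) (.e (nat_lit 426428) (nat_lit 17) (.e (nat_lit 90170) (nat_lit 13) (.e (nat_lit 172113) (nat_lit 10) (.e (nat_lit 434203) (nat_lit 18) (.e (nat_lit 6839) (nat_lit 369) .nil)))))))) (.g (nat_lit 5) .nil .nil))) 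
(.lf (nat_lit 249201) (.g (nat_lit 2090) (.e (nat_lit 163863) (nat_lit 1) (.e (nat_lit 164326) (nat_lit 230) (.e (nat_lit 163903) (nat_lit 12) (.e (nat_lit 426428) (nat_lit 17) (.e (nat_lit 90170) (nat_lit 13) (.e (nat_lit 172113) (nat_lit 10) (.e (nat_lit 434199) (nat_lit 18) (.e (nat_lit 6839) (nat_lit 369) .nil)))))))) (.g (nat_lit 4) .nil .nil))))) (.nd (nat_lit 4) (.nd (nat_lit 5) 
(.lf (nat_lit 249161) (.g (nat_lit 2015) (.e (nat_lit 163858) (nat_lit 1) (.e (nat_lit 164325) (nat_lit 230) (.e (nat_lit 163903) (nat_lit 12) (.e (nat_lit 426428) (nat_lit 17) (.e (nat_lit 90170) (nat_lit 13) (.e (nat_lit 172113) (nat_lit 10) (.e (nat_lit 434208) (nat_lit 18) (.e (nat_lit 6839) (nat_lit 369) .nil)))))))) (.g (nat_lit 4) .nil .nil))) 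
(.lf (nat_lit 249193) (.g (nat_lit 4149) (.e (nat_lit 163862) (nat_lit 1) (.e (nat_lit 164332) (nat_lit 230) (.e (nat_lit 163902) (nat_lit 12) (.e (nat_lit 426428) (nat_lit 17) (.e (nat_lit 90170) (nat_lit 13) (.e (nat_lit 172113) (nat_lit 10) (.e (nat_lit 434203) (nat_lit 18) (.e (nat_lit 6839) (nat_lit 369) .nil)))))))) (.g (nat_lit 8) .nil .nil)))) (.nd (nat_lit 5) 
(.lf (nat_lit 249177) (.g (nat_lit 3301) (.e (nat_lit 163861) (nat_lit 1) (.e (nat_lit 164329) (nat_lit 230) (.e (nat_lit 163902) (nat_lit 12) (.e (nat_lit 426428) (nat_lit 17) (.e (nat_lit 90170) (nat_lit 13) (.e (nat_lit 172113) (nat_lit 10) (.e (nat_lit 434203) (nat_lit 18) (.e (nat_lit 6839) (nat_lit 369) .nil)))))))) (.g (nat_lit 6) .nil .nil))) 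
(.lf (nat_lit 249209) (.g (nat_lit 2833) (.e (nat_lit 163863) (nat_lit 1) (.e (nat_lit 164403) (nat_lit 256) (.e (nat_lit 57447) (nat_lit 19) (.e (nat_lit 393252) (nat_lit 18) (.e (nat_lit 164332) (nat_lit 230) (.e (nat_lit 163874) (nat_lit 3) (.e (nat_lit 204829) (nat_lit 18) (.e (nat_lit 57692) (nat_lit 156) .nil)))))))) (.g (nat_lit 4) .nil .nil)))))) 
(.nd (nat_lit 3) (.nd (nat_lit 4) (.nd (nat_lit 5) 
(.lf (nat_lit 249157) (.g (nat_lit 1083) (.e (nat_lit 171776) (nat_lit 0) (.e (nat_lit 5195) (nat_lit 294) (.e (nat_lit 57448) (nat_lit 19) (.e (nat_lit 401152) (nat_lit 12) .nil)))) .nil)) 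
(.lf (nat_lit 249189) (.g (nat_lit 4110) (.e (nat_lit 163862) (nat_lit 1) (.e (nat_lit 164330) (nat_lit 230) (.e (nat_lit 163902) (nat_lit 12) (.e (nat_lit 426428) (nat_lit 17) (.e (nat_lit 90170) (nat_lit 13) (.e (nat_lit 172113) (nat_lit 10) (.e (nat_lit 434203) (nat_lit 18) (.e (nat_lit 6839) (nat_lit 369) .nil)))))))) (.g (nat_lit 6) .nil .nil)))) (.nd (nat_lit 5) 
(.lf (nat_lit 249173) (.g (nat_lit 2895) (.e (nat_lit 163860) (nat_lit 1) (.e (nat_lit 164401) (nat_lit 256) (.e (nat_lit 57412) (nat_lit 12) (.e (nat_lit 336061) (nat_lit 7) (.e (nat_lit 319531) (nat_lit 16) (.e (nat_lit 286767) (nat_lit 27) (.e (nat_lit 426108) (nat_lit 1) (.e (nat_lit 164332) (nat_lit 230) .nil)))))))) (.g (nat_lit 5) .nil .nil))) 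
(.lf (nat_lit 249205) (.g (nat_lit 1918) (.e (nat_lit 163863) (nat_lit 1) (.e (nat_lit 164403) (nat_lit 256) (.e (nat_lit 57373) (nat_lit 2) (.e (nat_lit 90174) (nat_lit 14) .nil)))) .nil)))) (.nd (nat_lit 4) (.nd (nat_lit 5) 
(.lf (nat_lit 249165) (.g (nat_lit 512) (.e (nat_lit 163859) (nat_lit 1) (.e (nat_lit 164398) (nat_lit 256) (.e (nat_lit 57446) (nat_lit 19) .nil))) .nil)) 
(.lf (nat_lit 249197) (.g (nat_lit 3825) (.e (nat_lit 163863) (nat_lit 1) (.e (nat_lit 164325) (nat_lit 230) (.e (nat_lit 163903) (nat_lit 12) (.e (nat_lit 426428) (nat_lit 17) (.e (nat_lit 90170) (nat_lit 13) (.e (nat_lit 172106) (nat_lit 10) (.e (nat_lit 434200) (nat_lit 18) (.e (nat_lit 6839) (nat_lit 369) .nil)))))))) (.g (nat_lit 6) .nil .nil)))) (.nd (nat_lit 5) 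
(.lf (nat_lit 249181) (.g (nat_lit 2877) (.e (nat_lit 163861) (nat_lit 1) (.e (nat_lit 164330) (nat_lit 230) (.e (nat_lit 163902) (nat_lit 12) (.e (nat_lit 426428) (nat_lit 17) (.e (nat_lit 90170) (nat_lit 13) (.e (nat_lit 172113) (nat_lit 10) (.e (nat_lit 434208) (nat_lit 18) (.e (nat_lit 6839) (nat_lit 369) .nil)))))))) (.g (nat_lit 4) .nil .nil))) 
(.lf (nat_lit 249213) (.g (nat_lit 3912) (.e (nat_lit 163864) (nat_lit 1) (.e (nat_lit 164330) (nat_lit 230) (.e (nat_lit 163902) (nat_lit 12) (.e (nat_lit 426428) (nat_lit 17) (.e (nat_lit 90170) (nat_lit 13) (.e (nat_lit 172113) (nat_lit 10) (.e (nat_lit 434208) (nat_lit 18) (.e (nat_lit 6839) (nat_lit 369) .nil)))))))) (.g (nat_lit 6) .nil .nil))))))) 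
(.nd (nat_lit 2) (.nd (nat_lit 3) (.nd (nat_lit 4) (.nd (nat_lit 5) 
(.lf (nat_lit 249155) (.g (nat_lit 1017) (.e (nat_lit 171776) (nat_lit 0) (.e (nat_lit 5195) (nat_lit 294) (.e (nat_lit 57445) (nat_lit 19) (.e (nat_lit 393229) (nat_lit 9) .nil)))) .nil)) 
(.lf (nat_lit 249187) (.g (nat_lit 2910) (.e (nat_lit 163861) (nat_lit 1) (.e (nat_lit 164400) (nat_lit 256) (.e (nat_lit 57412) (nat_lit 12) (.e (nat_lit 336061) (nat_lit 7) (.e (nat_lit 319531) (nat_lit 16) (.e (nat_lit 286767) (nat_lit 27) (.e (nat_lit 426107) (nat_lit 1) (.e (nat_lit 164325) (nat_lit 230) .nil)))))))) (.g (nat_lit 5) .nil .nil)))) (.nd (nat_lit 5) 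
(.lf (nat_lit 249171) (.g (nat_lit 3568) (.e (nat_lit 163860) (nat_lit 1) (.e (nat_lit 164332) (nat_lit 230) (.e (nat_lit 163905) (nat_lit 12) (.e (nat_lit 426428) (nat_lit 17) (.e (nat_lit 90170) (nat_lit 13) (.e (nat_lit 172106) (nat_lit 10) (.e (nat_lit 434202) (nat_lit 18) (.e (nat_lit 6839) (nat_lit 369) .nil)))))))) (.g (nat_lit 6) .nil .nil))) 
(.lf (nat_lit 249203) (.g (nat_lit 3796) (.e (nat_lit 163863) (nat_lit 1) (.e (nat_lit 164326) (nat_lit 230) (.e (nat_lit 163903) (nat_lit 12) (.e (nat_lit 426428) (nat_lit 17) (.e (nat_lit 90170) (nat_lit 13) (.e (nat_lit 172113) (nat_lit 10) (.e (nat_lit 434208) (nat_lit 18) (.e (nat_lit 6839) (nat_lit 369) .nil)))))))) (.g (nat_lit 6) .nil .nil))))) (.nd (nat_lit 4) (.nd (nat_lit 5) 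
(.lf (nat_lit 249163) (.g (nat_lit 1264) (.e (nat_lit 163859) (nat_lit 1) (.e (nat_lit 164325) (nat_lit 230) (.e (nat_lit 163886) (nat_lit 5) (.e (nat_lit 221218) (nat_lit 24) (.e (nat_lit 213003) (nat_lit 9) .nil))))) .nil)) 
(.lf (nat_lit 249195) (.g (nat_lit 4326) (.e (nat_lit 163862) (nat_lit 1) (.e (nat_lit 164332) (nat_lit 230) (.e (nat_lit 163905) (nat_lit 12) (.e (nat_lit 426428) (nat_lit 17) (.e (nat_lit 90170) (nat_lit 13) (.e (nat_lit 172113) (nat_lit 10) (.e (nat_lit 434203) (nat_lit 18) (.e (nat_lit 6839) (nat_lit 369) .nil)))))))) (.g (nat_lit 8) .nil .nil)))) (.nd (nat_lit 5) 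
(.lf (nat_lit 249179) (.g (nat_lit 2866) (.e (nat_lit 163861) (nat_lit 1) (.e (nat_lit 164330) (nat_lit 230) (.e (nat_lit 163902) (nat_lit 12) (.e (nat_lit 426428) (nat_lit 17) (.e (nat_lit 90170) (nat_lit 13) (.e (nat_lit 172106) (nat_lit 10) (.e (nat_lit 434202) (nat_lit 18) (.e (nat_lit 6839) (nat_lit 369) .nil)))))))) (.g (nat_lit 4) .nil .nil))) 
(.lf (nat_lit 249211) (.g (nat_lit 3393) (.e (nat_lit 163864) (nat_lit 1) (.e (nat_lit 164329) (nat_lit 230) (.e (nat_lit 163902) (nat_lit 12) (.e (nat_lit 426428) (nat_lit 17) (.e (nat_lit 90170) (nat_lit 13) (.e (nat_lit 172113) (nat_lit 10) (.e (nat_lit 434208) (nat_lit 18) (.e (nat_lit 6839) (nat_lit 369) .nil)))))))) (.g (nat_lit 6) .nil .nil)))))) 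
(.nd (nat_lit 3) (.nd (nat_lit 4) (.nd (nat_lit 5) 
(.lf (nat_lit 249159) (.g (nat_lit 927) (.e (nat_lit 171776) (nat_lit 0) (.e (nat_lit 5205) (nat_lit 294) (.e (nat_lit 57447) (nat_lit 19) (.e (nat_lit 401152) (nat_lit 12) .nil)))) .nil)) 
(.lf (nat_lit 249191) (.g (nat_lit 450) (.e (nat_lit 163862) (nat_lit 1) (.e (nat_lit 164332) (nat_lit 230) (.e (nat_lit 163885) (nat_lit 5) .nil))) .nil))) (.nd (nat_lit 5) 
(.lf (nat_lit 249175) (.g (nat_lit 2716) (.e (nat_lit 163861) (nat_lit 1) (.e (nat_lit 171776) (nat_lit 136) (.e (nat_lit 57437) (nat_lit 17) (.e (nat_lit 376865) (nat_lit 22) (.e (nat_lit 90185) (nat_lit 17) (.e (nat_lit 237584) (nat_lit 1) (.e (nat_lit 164325) (nat_lit 230) .nil))))))) (.g (nat_lit 5) .nil .nil))) 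
(.lf (nat_lit 249207) (.g (nat_lit 1237) (.e (nat_lit 163863) (nat_lit 1) (.e (nat_lit 164403) (nat_lit 256) (.e (nat_lit 57389) (nat_lit 5) (.e (nat_lit 114712) (nat_lit 21) .nil)))) .nil)))) (.nd (nat_lit 4) (.nd (nat_lit 5) 
(.lf (nat_lit 249167) (.g (nat_lit 3381) (.e (nat_lit 163860) (nat_lit 1) (.e (nat_lit 164329) (nat_lit 230) (.e (nat_lit 163902) (nat_lit 12) (.e (nat_lit 426428) (nat_lit 17) (.e (nat_lit 90170) (nat_lit 13) (.e (nat_lit 172113) (nat_lit 10) (.e (nat_lit 434203) (nat_lit 18) (.e (nat_lit 6839) (nat_lit 369) .nil)))))))) (.g (nat_lit 6) .nil .nil))) 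
(.lf (nat_lit 249199) (.g (nat_lit 3161) (.e (nat_lit 163863) (nat_lit 1) (.e (nat_lit 164325) (nat_lit 230) (.e (nat_lit 163903) (nat_lit 12) (.e (nat_lit 426428) (nat_lit 17) (.e (nat_lit 90170) (nat_lit 13) (.e (nat_lit 172113) (nat_lit 10) (.e (nat_lit 434200) (nat_lit 18) (.e (nat_lit 6839) (nat_lit 369) .nil)))))))) (.g (nat_lit 6) .nil .nil)))) (.nd (nat_lit 5) 
(.lf (nat_lit 249183) (.g (nat_lit 4011) (.e (nat_lit 163861) (nat_lit 1) (.e (nat_lit 164332) (nat_lit 230) (.e (nat_lit 163902) (nat_lit 12) (.e (nat_lit 426428) (nat_lit 17) (.e (nat_lit 90170) (nat_lit 13) (.e (nat_lit 172106) (nat_lit 10) (.e (nat_lit 434202) (nat_lit 18) (.e (nat_lit 6839) (nat_lit 369) .nil)))))))) (.g (nat_lit 7) .nil .nil))) 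
(.lf (nat_lit 249215) (.g (nat_lit 2360) (.e (nat_lit 163864) (nat_lit 1) (.e (nat_lit 164331) (nat_lit 230) (.e (nat_lit 163902) (nat_lit 12) (.e (nat_lit 426428) (nat_lit 17) (.e (nat_lit 90170) (nat_lit 13) (.e (nat_lit 172113) (nat_lit 10) (.e (nat_lit 434208) (nat_lit 18) (.e (nat_lit 6839) (nat_lit 369) .nil)))))))) (.g (nat_lit 4) .nil .nil)))))))))

noncomputable def tv3225 : DT := (.nd (nat_lit 0) (.nd (nat_lit 1) (.nd (nat_lit 2) (.nd (nat_lit 3) (.nd (nat_lit 4) (.nd (nat_lit 5) 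
(.lf (nat_lit 249216) (.g (nat_lit 3998) (.e (nat_lit 163864) (nat_lit 1) (.e (nat_lit 164332) (nat_lit 230) (.e (nat_lit 163884) (nat_lit 5) (.e (nat_lit 229120) (nat_lit 12) (.e (nat_lit 344129) (nat_lit 26) (.e (nat_lit 557103) (nat_lit 14) (.e (nat_lit 180225) (nat_lit 0) (.e (nat_lit 5968) (nat_lit 324) .nil)))))))) (.g (nat_lit 7) .nil .nil))) 
(.lf (nat_lit 249248) (.g (nat_lit 2882) (.e (nat_lit 163864) (nat_lit 1) (.e (nat_lit 164332) (nat_lit 230) (.e (nat_lit 163905) (nat_lit 12) (.e (nat_lit 426438) (nat_lit 18) (.e (nat_lit 98373) (nat_lit 29) (.e (nat_lit 450560) (nat_lit 0) (.e (nat_lit 6839) (nat_lit 369) .nil))))))) (.g (nat_lit 5) .nil .nil)))) (.nd (nat_lit 5) 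
(.lf (nat_lit 249232) (.g (nat_lit 3967) (.e (nat_lit 163864) (nat_lit 1) (.e (nat_lit 164332) (nat_lit 230) (.e (nat_lit 163902) (nat_lit 12) (.e (nat_lit 426428) (nat_lit 17) (.e (nat_lit 90170) (nat_lit 13) (.e (nat_lit 172106) (nat_lit 10) (.e (nat_lit 434200) (nat_lit 18) (.e (nat_lit 6839) (nat_lit 369) .nil)))))))) (.g (nat_lit 6) .nil .nil))) 
(.lf (nat_lit 249264) (.g (nat_lit 1440) (.e (nat_lit 163866) (nat_lit 2) (.e (nat_lit 196630) (nat_lit 9) (.e (nat_lit 1504) (nat_lit 108) (.e (nat_lit 336215) (nat_lit 13) (.e (nat_lit 393229) (nat_lit 9) .nil))))) .nil)))) (.nd (nat_lit 4) (.nd (nat_lit 5) 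
(.lf (nat_lit 249224) (.g (nat_lit 3144) (.e (nat_lit 163864) (nat_lit 1) (.e (nat_lit 164332) (nat_lit 230) (.e (nat_lit 163885) (nat_lit 5) (.e (nat_lit 229120) (nat_lit 12) (.e (nat_lit 344129) (nat_lit 26) (.e (nat_lit 557104) (nat_lit 14) (.e (nat_lit 180226) (nat_lit 0) (.e (nat_lit 5967) (nat_lit 324) .nil)))))))) (.g (nat_lit 6) .nil .nil))) 
(.lf (nat_lit 249256) (.g (nat_lit 1237) (.e (nat_lit 163864) (nat_lit 1) (.e (nat_lit 164403) (nat_lit 256) (.e (nat_lit 57389) (nat_lit 5) (.e (nat_lit 114712) (nat_lit 21) .nil)))) .nil))) (.nd (nat_lit 5) 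
(.lf (nat_lit 249240) (.g (nat_lit 4070) (.e (nat_lit 163864) (nat_lit 1) (.e (nat_lit 164332) (nat_lit 230) (.e (nat_lit 163905) (nat_lit 12) (.e (nat_lit 426428) (nat_lit 17) (.e (nat_lit 90170) (nat_lit 13) (.e (nat_lit 172106) (nat_lit 10) (.e (nat_lit 434200) (nat_lit 18) (.e (nat_lit 6839) (nat_lit 369) .nil)))))))) (.g (nat_lit 6) .nil .nil))) 
(.lf (nat_lit 249272) (.g (nat_lit 2651) (.e (nat_lit 163866) (nat_lit 2) (.e (nat_lit 196654) (nat_lit 11) (.e (nat_lit 16436) (nat_lit 9) (.e (nat_lit 426482) (nat_lit 27) (.e (nat_lit 336388) (nat_lit 27) .nil))))) .nil))))) (.nd (nat_lit 3) (.nd (nat_lit 4) (.nd (nat_lit 5) 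
(.lf (nat_lit 249220) (.g (nat_lit 2257) (.e (nat_lit 163864) (nat_lit 1) (.e (nat_lit 164332) (nat_lit 230) (.e (nat_lit 163884) (nat_lit 5) (.e (nat_lit 229120) (nat_lit 12) (.e (nat_lit 344130) (nat_lit 26) (.e (nat_lit 557104) (nat_lit 14) (.e (nat_lit 180226) (nat_lit 0) (.e (nat_lit 5967) (nat_lit 324) .nil)))))))) (.g (nat_lit 7) .nil .nil))) 
(.lf (nat_lit 249252) (.g (nat_lit 1792) (.e (nat_lit 163864) (nat_lit 1) (.e (nat_lit 164332) (nat_lit 230) (.e (nat_lit 163905) (nat_lit 12) (.e (nat_lit 426438) (nat_lit 18) (.e (nat_lit 98374) (nat_lit 29) (.e (nat_lit 450569) (nat_lit 0) (.e (nat_lit 7936) (nat_lit 369) .nil))))))) (.g (nat_lit 4) .nil .nil)))) (.nd (nat_lit 5) 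
(.lf (nat_lit 249236) (.g (nat_lit 4558) (.e (nat_lit 163864) (nat_lit 1) (.e (nat_lit 164332) (nat_lit 230) (.e (nat_lit 163902) (nat_lit 12) (.e (nat_lit 426428) (nat_lit 17) (.e (nat_lit 90170) (nat_lit 13) (.e (nat_lit 172113) (nat_lit 10) (.e (nat_lit 434203) (nat_lit 18) (.e (nat_lit 6839) (nat_lit 369) .nil)))))))) (.g (nat_lit 8) .nil .nil))) 
(.lf (nat_lit 249268) (.g (nat_lit 1876) (.e (nat_lit 163866) (nat_lit 2) (.e (nat_lit 196654) (nat_lit 11) (.e (nat_lit 16416) (nat_lit 3) (.e (nat_lit 204838) (nat_lit 20) (.e (nat_lit 114718) (nat_lit 23) .nil))))) .nil)))) (.nd (nat_lit 4) (.nd (nat_lit 5) 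
(.lf (nat_lit 249228) (.g (nat_lit 3579) (.e (nat_lit 163864) (nat_lit 1) (.e (nat_lit 164332) (nat_lit 230) (.e (nat_lit 163885) (nat_lit 5) (.e (nat_lit 229120) (nat_lit 12) (.e (nat_lit 344133) (nat_lit 26) (.e (nat_lit 557105) (nat_lit 14) (.e (nat_lit 180227) (nat_lit 0) (.e (nat_lit 5966) (nat_lit 324) .nil)))))))) (.g (nat_lit 7) .nil .nil))) 
(.lf (nat_lit 249260) (.g (nat_lit 845) (.e (nat_lit 163865) (nat_lit 2) (.e (nat_lit 196666) (nat_lit 13) (.e (nat_lit 65625) (nat_lit 13) .nil))) .nil))) (.nd (nat_lit 5) 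
(.lf (nat_lit 249244) (.g (nat_lit 4660) (.e (nat_lit 163864) (nat_lit 1) (.e (nat_lit 164332) (nat_lit 230) (.e (nat_lit 163905) (nat_lit 12) (.e (nat_lit 426428) (nat_lit 17) (.e (nat_lit 90170) (nat_lit 13) (.e (nat_lit 172113) (nat_lit 10) (.e (nat_lit 434203) (nat_lit 18) (.e (nat_lit 6839) (nat_lit 369) .nil)))))))) (.g (nat_lit 8) .nil .nil))) 
(.lf (nat_lit 249276) (.g (nat_lit 2956) (.e (nat_lit 163866) (nat_lit 2) (.e (nat_lit 196654) (nat_lit 11) (.e (nat_lit 16436) (nat_lit 9) (.e (nat_lit 426568) (nat_lit 34) (.e (nat_lit 393252) (nat_lit 18) (.e (nat_lit 164332) (nat_lit 230) .nil)))))) (.g (nat_lit 0) .nil .nil))))))) (.nd (nat_lit 2) (.nd (nat_lit 3) (.nd (nat_lit 4) (.nd (nat_lit 5) 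
(.lf (nat_lit 249218) (.g (nat_lit 2852) (.e (nat_lit 163864) (nat_lit 1) (.e (nat_lit 164332) (nat_lit 230) (.e (nat_lit 163884) (nat_lit 5) (.e (nat_lit 229120) (nat_lit 12) (.e (nat_lit 344129) (nat_lit 26) (.e (nat_lit 557104) (nat_lit 14) (.e (nat_lit 180226) (nat_lit 0) (.e (nat_lit 5967) (nat_lit 324) .nil)))))))) (.g (nat_lit 6) .nil .nil))) 
(.lf (nat_lit 249250) (.g (nat_lit 4632) (.e (nat_lit 163864) (nat_lit 1) (.e (nat_lit 164332) (nat_lit 230) (.e (nat_lit 163905) (nat_lit 12) (.e (nat_lit 426438) (nat_lit 18) (.e (nat_lit 98373) (nat_lit 29) (.e (nat_lit 450563) (nat_lit 0) (.e (nat_lit 6839) (nat_lit 369) .nil))))))) (.g (nat_lit 6) .nil .nil)))) (.nd (nat_lit 5) 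
(.lf (nat_lit 249234) (.g (nat_lit 2947) (.e (nat_lit 163864) (nat_lit 1) (.e (nat_lit 164332) (nat_lit 230) (.e (nat_lit 163902) (nat_lit 12) (.e (nat_lit 426428) (nat_lit 17) (.e (nat_lit 90170) (nat_lit 13) (.e (nat_lit 172113) (nat_lit 10) (.e (nat_lit 434199) (nat_lit 18) (.e (nat_lit 6839) (nat_lit 369) .nil)))))))) (.g (nat_lit 6) .nil .nil))) 
(.lf (nat_lit 249266) (.g (nat_lit 484) (.e (nat_lit 163866) (nat_lit 2) (.e (nat_lit 196630) (nat_lit 9) (.e (nat_lit 1573) (nat_lit 110) .nil))) .nil)))) (.nd (nat_lit 4) (.nd (nat_lit 5) 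
(.lf (nat_lit 249226) (.g (nat_lit 1953) (.e (nat_lit 163864) (nat_lit 1) (.e (nat_lit 164332) (nat_lit 230) (.e (nat_lit 163885) (nat_lit 5) (.e (nat_lit 229120) (nat_lit 12) (.e (nat_lit 344130) (nat_lit 26) (.e (nat_lit 557104) (nat_lit 14) (.e (nat_lit 180226) (nat_lit 0) (.e (nat_lit 5967) (nat_lit 324) .nil)))))))) (.g (nat_lit 6) .nil .nil))) 
(.lf (nat_lit 249258) (.g (nat_lit 1930) (.e (nat_lit 163865) (nat_lit 2) (.e (nat_lit 196656) (nat_lit 11) (.e (nat_lit 16435) (nat_lit 9) (.e (nat_lit 426566) (nat_lit 34) .nil)))) .nil))) (.nd (nat_lit 5) 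
(.lf (nat_lit 249242) (.g (nat_lit 3049) (.e (nat_lit 163864) (nat_lit 1) (.e (nat_lit 164332) (nat_lit 230) (.e (nat_lit 163905) (nat_lit 12) (.e (nat_lit 426428) (nat_lit 17) (.e (nat_lit 90170) (nat_lit 13) (.e (nat_lit 172113) (nat_lit 10) (.e (nat_lit 434199) (nat_lit 18) (.e (nat_lit 6839) (nat_lit 369) .nil)))))))) (.g (nat_lit 6) .nil .nil))) 
(.lf (nat_lit 249274) (.g (nat_lit 1484) (.e (nat_lit 163866) (nat_lit 2) (.e (nat_lit 196654) (nat_lit 11) (.e (nat_lit 16436) (nat_lit 9) (.e (nat_lit 426487) (nat_lit 27) .nil)))) .nil))))) (.nd (nat_lit 3) (.nd (nat_lit 4) (.nd (nat_lit 5) 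
(.lf (nat_lit 249222) (.g (nat_lit 4297) (.e (nat_lit 163864) (nat_lit 1) (.e (nat_lit 164332) (nat_lit 230) (.e (nat_lit 163885) (nat_lit 5) (.e (nat_lit 229120) (nat_lit 12) (.e (nat_lit 344129) (nat_lit 26) (.e (nat_lit 557103) (nat_lit 14) (.e (nat_lit 180225) (nat_lit 0) (.e (nat_lit 5968) (nat_lit 324) .nil)))))))) (.g (nat_lit 7) .nil .nil))) 
(.lf (nat_lit 249254) (.g (nat_lit 4724) (.e (nat_lit 163864) (nat_lit 1) (.e (nat_lit 164401) (nat_lit 256) (.e (nat_lit 57412) (nat_lit 12) (.e (nat_lit 336061) (nat_lit 7) (.e (nat_lit 319531) (nat_lit 16) (.e (nat_lit 286767) (nat_lit 27) (.e (nat_lit 426098) (nat_lit 1) (.e (nat_lit 164325) (nat_lit 230) .nil)))))))) (.g (nat_lit 0) .nil .nil)))) (.nd (nat_lit 5) 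
(.lf (nat_lit 249238) (.g (nat_lit 1348) (.e (nat_lit 163864) (nat_lit 1) (.e (nat_lit 164332) (nat_lit 230) (.e (nat_lit 163902) (nat_lit 12) (.e (nat_lit 426472) (nat_lit 25) .nil)))) .nil)) 
(.lf (nat_lit 249270) (.g (nat_lit 1501) (.e (nat_lit 163866) (nat_lit 2) (.e (nat_lit 196654) (nat_lit 11) (.e (nat_lit 16436) (nat_lit 9) (.e (nat_lit 426480) (nat_lit 27) .nil)))) .nil)))) (.nd (nat_lit 4) (.nd (nat_lit 5) 
(.lf (nat_lit 249230) (.g (nat_lit 1914) (.e (nat_lit 163864) (nat_lit 1) (.e (nat_lit 164332) (nat_lit 230) (.e (nat_lit 163885) (nat_lit 5) (.e (nat_lit 221206) (nat_lit 21) (.e (nat_lit 164220) (nat_lit 181) .nil))))) .nil)) 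
(.lf (nat_lit 249262) (.g (nat_lit 380) (.e (nat_lit 163865) (nat_lit 2) (.e (nat_lit 196672) (nat_lit 15) (.e (nat_lit 81925) (nat_lit 11) .nil))) .nil))) (.nd (nat_lit 5) 
(.lf (nat_lit 249246) (.g (nat_lit 2504) (.e (nat_lit 163864) (nat_lit 1) (.e (nat_lit 164332) (nat_lit 230) (.e (nat_lit 163905) (nat_lit 12) (.e (nat_lit 426438) (nat_lit 18) (.e (nat_lit 98372) (nat_lit 29) (.e (nat_lit 450564) (nat_lit 0) (.e (nat_lit 7936) (nat_lit 369) .nil))))))) (.g (nat_lit 5) .nil .nil))) 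
(.lf (nat_lit 249278) (.g (nat_lit 1442) (.e (nat_lit 163866) (nat_lit 2) (.e (nat_lit 196655) (nat_lit 11) (.e (nat_lit 16435) (nat_lit 9) (.e (nat_lit 426566) (nat_lit 34) (.e (nat_lit 393253) (nat_lit 18) .nil))))) .nil))))))) (.nd (nat_lit 1) (.nd (nat_lit 2) (.nd (nat_lit 3) (.nd (nat_lit 4) (.nd (nat_lit 5) 
(.lf (nat_lit 249217) (.g (nat_lit 2618) (.e (nat_lit 163864) (nat_lit 1) (.e (nat_lit 164332) (nat_lit 230) (.e (nat_lit 163884) (nat_lit 5) (.e (nat_lit 229120) (nat_lit 12) (.e (nat_lit 344129) (nat_lit 26) (.e (nat_lit 557104) (nat_lit 14) (.e (nat_lit 180226) (nat_lit 0) (.e (nat_lit 5966) (nat_lit 324) .nil)))))))) (.g (nat_lit 6) .nil .nil))) 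
(.lf (nat_lit 249249) (.g (nat_lit 4720) (.e (nat_lit 163864) (nat_lit 1) (.e (nat_lit 164332) (nat_lit 230) (.e (nat_lit 163905) (nat_lit 12) (.e (nat_lit 426438) (nat_lit 18) (.e (nat_lit 98373) (nat_lit 29) (.e (nat_lit 450562) (nat_lit 0) (.e (nat_lit 6839) (nat_lit 369) .nil))))))) (.g (nat_lit 6) .nil .nil)))) (.nd (nat_lit 5) 
(.lf (nat_lit 249233) (.g (nat_lit 3596) (.e (nat_lit 163864) (nat_lit 1) (.e (nat_lit 164332) (nat_lit 230) (.e (nat_lit 163902) (nat_lit 12) (.e (nat_lit 426428) (nat_lit 17) (.e (nat_lit 90170) (nat_lit 13) (.e (nat_lit 172106) (nat_lit 10) (.e (nat_lit 434201) (nat_lit 18) (.e (nat_lit 6838) (nat_lit 369) .nil)))))))) (.g (nat_lit 6) .nil .nil))) 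
(.lf (nat_lit 249265) (.g (nat_lit 1620) (.e (nat_lit 163866) (nat_lit 2) (.e (nat_lit 196630) (nat_lit 9) (.e (nat_lit 1549) (nat_lit 109) (.e (nat_lit 344117) (nat_lit 21) (.e (nat_lit 516123) (nat_lit 2) .nil))))) .nil)))) (.nd (nat_lit 4) (.nd (nat_lit 5) 
(.lf (nat_lit 249225) (.g (nat_lit 3476) (.e (nat_lit 163864) (nat_lit 1) (.e (nat_lit 164332) (nat_lit 230) (.e (nat_lit 163885) (nat_lit 5) (.e (nat_lit 229120) (nat_lit 12) (.e (nat_lit 344129) (nat_lit 26) (.e (nat_lit 557104) (nat_lit 14) (.e (nat_lit 180227) (nat_lit 0) (.e (nat_lit 5967) (nat_lit 324) .nil)))))))) (.g (nat_lit 7) .nil .nil))) 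
(.lf (nat_lit 249257) (.g (nat_lit 2818) (.e (nat_lit 163864) (nat_lit 1) (.e (nat_lit 164403) (nat_lit 256) (.e (nat_lit 57447) (nat_lit 19) (.e (nat_lit 393252) (nat_lit 18) (.e (nat_lit 164332) (nat_lit 230) .nil))))) .nil))) (.nd (nat_lit 5) 
(.lf (nat_lit 249241) (.g (nat_lit 3752) (.e (nat_lit 163864) (nat_lit 1) (.e (nat_lit 164332) (nat_lit 230) (.e (nat_lit 163905) (nat_lit 12) (.e (nat_lit 426428) (nat_lit 17) (.e (nat_lit 90170) (nat_lit 13) (.e (nat_lit 172106) (nat_lit 10) (.e (nat_lit 434201) (nat_lit 18) (.e (nat_lit 6838) (nat_lit 369) .nil)))))))) (.g (nat_lit 6) .nil .nil))) 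
(.lf (nat_lit 249273) (.g (nat_lit 1611) (.e (nat_lit 163866) (nat_lit 2) (.e (nat_lit 196654) (nat_lit 11) (.e (nat_lit 16436) (nat_lit 9) (.e (nat_lit 426484) (nat_lit 27) .nil)))) .nil))))) (.nd (nat_lit 3) (.nd (nat_lit 4) (.nd (nat_lit 5) 
(.lf (nat_lit 249221) (.g (nat_lit 718) (.e (nat_lit 163864) (nat_lit 1) (.e (nat_lit 164332) (nat_lit 230) (.e (nat_lit 163885) (nat_lit 5) (.e (nat_lit 229120) (nat_lit 12) .nil)))) .nil)) 
(.lf (nat_lit 249253) (.g (nat_lit 1255) (.e (nat_lit 163864) (nat_lit 1) (.e (nat_lit 164332) (nat_lit 230) (.e (nat_lit 163905) (nat_lit 12) (.e (nat_lit 426472) (nat_lit 25) .nil)))) .nil))) (.nd (nat_lit 5) 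
(.lf (nat_lit 249237) (.g (nat_lit 2795) (.e (nat_lit 163864) (nat_lit 1) (.e (nat_lit 164332) (nat_lit 230) (.e (nat_lit 163902) (nat_lit 12) (.e (nat_lit 426428) (nat_lit 17) (.e (nat_lit 90170) (nat_lit 13) (.e (nat_lit 172113) (nat_lit 10) (.e (nat_lit 434207) (nat_lit 18) (.e (nat_lit 6839) (nat_lit 369) .nil)))))))) (.g (nat_lit 6) .nil .nil))) 
(.lf (nat_lit 249269) (.g (nat_lit 1496) (.e (nat_lit 163866) (nat_lit 2) (.e (nat_lit 196654) (nat_lit 11) (.e (nat_lit 16436) (nat_lit 9) (.e (nat_lit 426478) (nat_lit 27) .nil)))) .nil)))) (.nd (nat_lit 4) (.nd (nat_lit 5) 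
(.lf (nat_lit 249229) (.g (nat_lit 2946) (.e (nat_lit 163864) (nat_lit 1) (.e (nat_lit 164332) (nat_lit 230) (.e (nat_lit 163885) (nat_lit 5) (.e (nat_lit 229120) (nat_lit 12) (.e (nat_lit 344133) (nat_lit 26) (.e (nat_lit 557105) (nat_lit 14) (.e (nat_lit 180227) (nat_lit 0) (.e (nat_lit 5968) (nat_lit 324) .nil)))))))) (.g (nat_lit 6) .nil .nil))) 
(.lf (nat_lit 249261) (.g (nat_lit 1992) (.e (nat_lit 163865) (nat_lit 2) (.e (nat_lit 196668) (nat_lit 14) (.e (nat_lit 73747) (nat_lit 3) (.e (nat_lit 516129) (nat_lit 3) (.e (nat_lit 221215) (nat_lit 23) .nil))))) .nil))) (.nd (nat_lit 5) 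
(.lf (nat_lit 249245) (.g (nat_lit 2897) (.e (nat_lit 163864) (nat_lit 1) (.e (nat_lit 164332) (nat_lit 230) (.e (nat_lit 163905) (nat_lit 12) (.e (nat_lit 426428) (nat_lit 17) (.e (nat_lit 90170) (nat_lit 13) (.e (nat_lit 172113) (nat_lit 10) (.e (nat_lit 434207) (nat_lit 18) (.e (nat_lit 6839) (nat_lit 369) .nil)))))))) (.g (nat_lit 6) .nil .nil))) 
(.lf (nat_lit 249277) (.g (nat_lit 1210) (.e (nat_lit 163866) (nat_lit 2) (.e (nat_lit 196655) (nat_lit 11) (.e (nat_lit 16435) (nat_lit 9) (.e (nat_lit 426566) (nat_lit 34) (.e (nat_lit 393252) (nat_lit 18) .nil))))) .nil)))))) (.nd (nat_lit 2) (.nd (nat_lit 3) (.nd (nat_lit 4) (.nd (nat_lit 5) 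
(.lf (nat_lit 249219) (.g (nat_lit 2023) (.e (nat_lit 163864) (nat_lit 1) (.e (nat_lit 164332) (nat_lit 230) (.e (nat_lit 163884) (nat_lit 5) (.e (nat_lit 229120) (nat_lit 12) (.e (nat_lit 344130) (nat_lit 26) (.e (nat_lit 557104) (nat_lit 14) (.e (nat_lit 180226) (nat_lit 0) (.e (nat_lit 5966) (nat_lit 324) .nil)))))))) (.g (nat_lit 6) .nil .nil))) 
(.lf (nat_lit 249251) (.g (nat_lit 2147) (.e (nat_lit 163864) (nat_lit 1) (.e (nat_lit 164332) (nat_lit 230) (.e (nat_lit 163905) (nat_lit 12) (.e (nat_lit 426438) (nat_lit 18) (.e (nat_lit 98374) (nat_lit 29) (.e (nat_lit 450565) (nat_lit 0) (.e (nat_lit 7936) (nat_lit 369) .nil))))))) (.g (nat_lit 5) .nil .nil)))) (.nd (nat_lit 5) 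
(.lf (nat_lit 249235) (.g (nat_lit 3302) (.e (nat_lit 163864) (nat_lit 1) (.e (nat_lit 164332) (nat_lit 230) (.e (nat_lit 163902) (nat_lit 12) (.e (nat_lit 426428) (nat_lit 17) (.e (nat_lit 90170) (nat_lit 13) (.e (nat_lit 172113) (nat_lit 10) (.e (nat_lit 434200) (nat_lit 18) (.e (nat_lit 6839) (nat_lit 369) .nil)))))))) (.g (nat_lit 6) .nil .nil))) 
(.lf (nat_lit 249267) (.g (nat_lit 1133) (.e (nat_lit 163866) (nat_lit 2) (.e (nat_lit 196630) (nat_lit 9) (.e (nat_lit 1573) (nat_lit 110) (.e (nat_lit 352277) (nat_lit 11) (.e (nat_lit 426500) (nat_lit 27) .nil))))) .nil)))) (.nd (nat_lit 4) (.nd (nat_lit 5) 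
(.lf (nat_lit 249227) (.g (nat_lit 3600) (.e (nat_lit 163864) (nat_lit 1) (.e (nat_lit 164332) (nat_lit 230) (.e (nat_lit 163885) (nat_lit 5) (.e (nat_lit 229120) (nat_lit 12) (.e (nat_lit 344133) (nat_lit 26) (.e (nat_lit 557105) (nat_lit 14) (.e (nat_lit 180227) (nat_lit 0) (.e (nat_lit 5964) (nat_lit 324) .nil)))))))) (.g (nat_lit 7) .nil .nil))) 
(.lf (nat_lit 249259) (.g (nat_lit 2457) (.e (nat_lit 163865) (nat_lit 2) (.e (nat_lit 196666) (nat_lit 13) (.e (nat_lit 65610) (nat_lit 10) (.e (nat_lit 344117) (nat_lit 21) (.e (nat_lit 516151) (nat_lit 9) .nil))))) .nil))) (.nd (nat_lit 5) 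
(.lf (nat_lit 249243) (.g (nat_lit 3404) (.e (nat_lit 163864) (nat_lit 1) (.e (nat_lit 164332) (nat_lit 230) (.e (nat_lit 163905) (nat_lit 12) (.e (nat_lit 426428) (nat_lit 17) (.e (nat_lit 90170) (nat_lit 13) (.e (nat_lit 172113) (nat_lit 10) (.e (nat_lit 434200) (nat_lit 18) (.e (nat_lit 6839) (nat_lit 369) .nil)))))))) (.g (nat_lit 6) .nil .nil))) 
(.lf (nat_lit 249275) (.g (nat_lit 1264) (.e (nat_lit 163866) (nat_lit 2) (.e (nat_lit 196654) (nat_lit 11) (.e (nat_lit 16436) (nat_lit 9) (.e (nat_lit 426564) (nat_lit 34) .nil)))) .nil))))) (.nd (nat_lit 3) (.nd (nat_lit 4) (.nd (nat_lit 5) 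
(.lf (nat_lit 249223) (.g (nat_lit 2911) (.e (nat_lit 163864) (nat_lit 1) (.e (nat_lit 164332) (nat_lit 230) (.e (nat_lit 163885) (nat_lit 5) (.e (nat_lit 229120) (nat_lit 12) (.e (nat_lit 344129) (nat_lit 26) (.e (nat_lit 557104) (nat_lit 14) (.e (nat_lit 180226) (nat_lit 0) (.e (nat_lit 5966) (nat_lit 324) .nil)))))))) (.g (nat_lit 6) .nil .nil))) 
(.lf (nat_lit 249255) (.g (nat_lit 2226) (.e (nat_lit 163864) (nat_lit 1) (.e (nat_lit 164403) (nat_lit 256) (.e (nat_lit 57378) (nat_lit 3) (.e (nat_lit 98368) (nat_lit 27) .nil)))) .nil))) (.nd (nat_lit 5) 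
(.lf (nat_lit 249239) (.g (nat_lit 815) (.e (nat_lit 163864) (nat_lit 1) (.e (nat_lit 164332) (nat_lit 230) (.e (nat_lit 163905) (nat_lit 12) (.e (nat_lit 426428) (nat_lit 17) .nil)))) .nil)) 
(.lf (nat_lit 249271) (.g (nat_lit 1422) (.e (nat_lit 163866) (nat_lit 2) (.e (nat_lit 196654) (nat_lit 11) (.e (nat_lit 16436) (nat_lit 9) (.e (nat_lit 426481) (nat_lit 27) .nil)))) .nil)))) (.nd (nat_lit 4) (.nd (nat_lit 5) 
(.lf (nat_lit 249231) (.g (nat_lit 2500) (.e (nat_lit 163864) (nat_lit 1) (.e (nat_lit 164332) (nat_lit 230) (.e (nat_lit 163885) (nat_lit 5) (.e (nat_lit 221207) (nat_lit 21) (.e (nat_lit 164231) (nat_lit 184) (.e (nat_lit 122925) (nat_lit 19) (.e (nat_lit 393251) (nat_lit 18) (.e (nat_lit 164325) (nat_lit 230) .nil)))))))) (.g (nat_lit 4) .nil .nil))) 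
(.lf (nat_lit 249263) (.g (nat_lit 478) (.e (nat_lit 163866) (nat_lit 2) (.e (nat_lit 196630) (nat_lit 9) (.e (nat_lit 1462) (nat_lit 108) .nil))) .nil))) (.nd (nat_lit 5) 
(.lf (nat_lit 249247) (.g (nat_lit 2515) (.e (nat_lit 163864) (nat_lit 1) (.e (nat_lit 164332) (nat_lit 230) (.e (nat_lit 163905) (nat_lit 12) (.e (nat_lit 426438) (nat_lit 18) (.e (nat_lit 98372) (nat_lit 29) (.e (nat_lit 450568) (nat_lit 0) (.e (nat_lit 7936) (nat_lit 369) .nil))))))) (.g (nat_lit 5) .nil .nil))) 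
(.lf (nat_lit 249279) (.g (nat_lit 1852) (.e (nat_lit 163866) (nat_lit 2) (.e (nat_lit 196656) (nat_lit 11) (.e (nat_lit 16435) (nat_lit 9) (.e (nat_lit 426566) (nat_lit 34) .nil)))) .nil))))))))

noncomputable def tv3226 : DT := (.nd (nat_lit 0) (.nd (nat_lit 1) (.nd (nat_lit 2) (.nd (nat_lit 3) (.nd (nat_lit 4) (.nd (nat_lit 5) 
(.lf (nat_lit 249280) (.g (nat_lit 1961) (.e (nat_lit 163866) (nat_lit 2) (.e (nat_lit 196663) (nat_lit 13) (.e (nat_lit 65571) (nat_lit 3) (.e (nat_lit 98341) (nat_lit 20) (.e (nat_lit 221215) (nat_lit 23) .nil))))) .nil)) 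
(.lf (nat_lit 249312) (.g (nat_lit 1037) (.e (nat_lit 163866) (nat_lit 2) (.e (nat_lit 196681) (nat_lit 17) (.e (nat_lit 131104) (nat_lit 9) .nil))) .nil))) (.nd (nat_lit 5) 
(.lf (nat_lit 249296) (.g (nat_lit 1763) (.e (nat_lit 163866) (nat_lit 2) (.e (nat_lit 196668) (nat_lit 14) (.e (nat_lit 73747) (nat_lit 3) (.e (nat_lit 516131) (nat_lit 3) (.e (nat_lit 221203) (nat_lit 20) .nil))))) .nil)) 
(.lf (nat_lit 249328) (.g (nat_lit 3375) (.e (nat_lit 163867) (nat_lit 2) (.e (nat_lit 196656) (nat_lit 11) (.e (nat_lit 16431) (nat_lit 9) (.e (nat_lit 426568) (nat_lit 34) (.e (nat_lit 393252) (nat_lit 18) (.e (nat_lit 164332) (nat_lit 230) .nil)))))) (.g (nat_lit 5) .nil .nil))))) (.nd (nat_lit 4) (.nd (nat_lit 5) 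
(.lf (nat_lit 249288) (.g (nat_lit 3040) (.e (nat_lit 163866) (nat_lit 2) (.e (nat_lit 196666) (nat_lit 13) (.e (nat_lit 65627) (nat_lit 13) (.e (nat_lit 393225) (nat_lit 9) (.e (nat_lit 335995) (nat_lit 1) (.e (nat_lit 57931) (nat_lit 282) .nil)))))) (.g (nat_lit 5) .nil .nil))) 
(.lf (nat_lit 249320) (.g (nat_lit 2759) (.e (nat_lit 163867) (nat_lit 2) (.e (nat_lit 196624) (nat_lit 9) (.e (nat_lit 1615) (nat_lit 113) (.e (nat_lit 376865) (nat_lit 22) (.e (nat_lit 90185) (nat_lit 17) (.e (nat_lit 237585) (nat_lit 1) (.e (nat_lit 171776) (nat_lit 219) .nil))))))) (.g (nat_lit 6) .nil .nil)))) (.nd (nat_lit 5) 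
(.lf (nat_lit 249304) (.g (nat_lit 1224) (.e (nat_lit 163866) (nat_lit 2) (.e (nat_lit 196670) (nat_lit 14) (.e (nat_lit 73746) (nat_lit 3) (.e (nat_lit 516131) (nat_lit 3) .nil)))) .nil)) 
(.lf (nat_lit 249336) (.g (nat_lit 3875) (.e (nat_lit 163867) (nat_lit 2) (.e (nat_lit 196656) (nat_lit 11) (.e (nat_lit 16438) (nat_lit 9) (.e (nat_lit 426566) (nat_lit 34) (.e (nat_lit 393253) (nat_lit 18) (.e (nat_lit 164332) (nat_lit 230) .nil)))))) (.g (nat_lit 6) .nil .nil)))))) (.nd (nat_lit 3) (.nd (nat_lit 4) (.nd (nat_lit 5) 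
(.lf (nat_lit 249284) (.g (nat_lit 2617) (.e (nat_lit 163866) (nat_lit 2) (.e (nat_lit 196666) (nat_lit 13) (.e (nat_lit 65571) (nat_lit 3) (.e (nat_lit 98342) (nat_lit 20) (.e (nat_lit 221213) (nat_lit 23) .nil))))) .nil)) 
(.lf (nat_lit 249316) (.g (nat_lit 656) (.e (nat_lit 163867) (nat_lit 2) (.e (nat_lit 196624) (nat_lit 9) (.e (nat_lit 1526) (nat_lit 109) .nil))) .nil))) (.nd (nat_lit 5) 
(.lf (nat_lit 249300) (.g (nat_lit 1835) (.e (nat_lit 163866) (nat_lit 2) (.e (nat_lit 196670) (nat_lit 14) (.e (nat_lit 73746) (nat_lit 3) (.e (nat_lit 516127) (nat_lit 2) (.e (nat_lit 213035) (nat_lit 12) .nil))))) .nil)) 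
(.lf (nat_lit 249332) (.g (nat_lit 3250) (.e (nat_lit 163867) (nat_lit 2) (.e (nat_lit 196656) (nat_lit 11) (.e (nat_lit 16436) (nat_lit 9) (.e (nat_lit 426566) (nat_lit 34) (.e (nat_lit 393252) (nat_lit 18) (.e (nat_lit 164332) (nat_lit 230) .nil)))))) (.g (nat_lit 0) .nil .nil))))) (.nd (nat_lit 4) (.nd (nat_lit 5) 
(.lf (nat_lit 249292) (.g (nat_lit 2262) (.e (nat_lit 163866) (nat_lit 2) (.e (nat_lit 196668) (nat_lit 14) (.e (nat_lit 73746) (nat_lit 3) (.e (nat_lit 516129) (nat_lit 3) (.e (nat_lit 221213) (nat_lit 23) .nil))))) .nil)) 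
(.lf (nat_lit 249324) (.g (nat_lit 1916) (.e (nat_lit 163867) (nat_lit 2) (.e (nat_lit 196654) (nat_lit 11) (.e (nat_lit 16473) (nat_lit 14) (.e (nat_lit 499456) (nat_lit 27) .nil)))) .nil))) (.nd (nat_lit 5) 
(.lf (nat_lit 249308) (.g (nat_lit 675) (.e (nat_lit 163866) (nat_lit 2) (.e (nat_lit 196672) (nat_lit 15) (.e (nat_lit 81927) (nat_lit 11) .nil))) .nil)) 
(.lf (nat_lit 249340) (.g (nat_lit 1712) (.e (nat_lit 163867) (nat_lit 2) (.e (nat_lit 196656) (nat_lit 11) (.e (nat_lit 16439) (nat_lit 9) (.e (nat_lit 426528) (nat_lit 27) (.e (nat_lit 336387) (nat_lit 27) .nil))))) .nil)))))) (.nd (nat_lit 2) (.nd (nat_lit 3) (.nd (nat_lit 4) (.nd (nat_lit 5) 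
(.lf (nat_lit 249282) (.g (nat_lit 2397) (.e (nat_lit 163866) (nat_lit 2) (.e (nat_lit 196666) (nat_lit 13) (.e (nat_lit 65571) (nat_lit 3) (.e (nat_lit 98341) (nat_lit 20) (.e (nat_lit 221214) (nat_lit 23) .nil))))) .nil)) 
(.lf (nat_lit 249314) (.g (nat_lit 1545) (.e (nat_lit 163867) (nat_lit 2) (.e (nat_lit 196624) (nat_lit 9) (.e (nat_lit 1484) (nat_lit 108) (.e (nat_lit 336215) (nat_lit 13) (.e (nat_lit 393229) (nat_lit 9) .nil))))) .nil))) (.nd (nat_lit 5) 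
(.lf (nat_lit 249298) (.g (nat_lit 1971) (.e (nat_lit 163866) (nat_lit 2) (.e (nat_lit 196669) (nat_lit 14) (.e (nat_lit 73755) (nat_lit 8) (.e (nat_lit 557105) (nat_lit 14) (.e (nat_lit 180252) (nat_lit 10) .nil))))) .nil)) 
(.lf (nat_lit 249330) (.g (nat_lit 3738) (.e (nat_lit 163867) (nat_lit 2) (.e (nat_lit 196656) (nat_lit 11) (.e (nat_lit 16432) (nat_lit 9) (.e (nat_lit 426566) (nat_lit 34) (.e (nat_lit 393253) (nat_lit 18) (.e (nat_lit 164332) (nat_lit 230) .nil)))))) (.g (nat_lit 6) .nil .nil))))) (.nd (nat_lit 4) (.nd (nat_lit 5) 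
(.lf (nat_lit 249290) (.g (nat_lit 2791) (.e (nat_lit 163866) (nat_lit 2) (.e (nat_lit 196666) (nat_lit 13) (.e (nat_lit 65627) (nat_lit 13) (.e (nat_lit 393225) (nat_lit 9) (.e (nat_lit 335996) (nat_lit 1) (.e (nat_lit 57931) (nat_lit 282) .nil)))))) (.g (nat_lit 5) .nil .nil))) 
(.lf (nat_lit 249322) (.g (nat_lit 3190) (.e (nat_lit 163867) (nat_lit 2) (.e (nat_lit 196654) (nat_lit 11) (.e (nat_lit 16436) (nat_lit 9) (.e (nat_lit 426568) (nat_lit 34) (.e (nat_lit 393252) (nat_lit 18) (.e (nat_lit 164332) (nat_lit 230) .nil)))))) (.g (nat_lit 0) .nil .nil)))) (.nd (nat_lit 5) 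
(.lf (nat_lit 249306) (.g (nat_lit 1726) (.e (nat_lit 163866) (nat_lit 2) (.e (nat_lit 196670) (nat_lit 14) (.e (nat_lit 73746) (nat_lit 3) (.e (nat_lit 516131) (nat_lit 3) (.e (nat_lit 221212) (nat_lit 22) .nil))))) .nil)) 
(.lf (nat_lit 249338) (.g (nat_lit 3852) (.e (nat_lit 163867) (nat_lit 2) (.e (nat_lit 196656) (nat_lit 11) (.e (nat_lit 16438) (nat_lit 9) (.e (nat_lit 426568) (nat_lit 34) (.e (nat_lit 393252) (nat_lit 18) (.e (nat_lit 164332) (nat_lit 230) .nil)))))) (.g (nat_lit 6) .nil .nil)))))) (.nd (nat_lit 3) (.nd (nat_lit 4) (.nd (nat_lit 5) 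
(.lf (nat_lit 249286) (.g (nat_lit 2308) (.e (nat_lit 163866) (nat_lit 2) (.e (nat_lit 196666) (nat_lit 13) (.e (nat_lit 65627) (nat_lit 13) (.e (nat_lit 393225) (nat_lit 9) (.e (nat_lit 335986) (nat_lit 1) (.e (nat_lit 57927) (nat_lit 282) .nil)))))) (.g (nat_lit 5) .nil .nil))) 
(.lf (nat_lit 249318) (.g (nat_lit 1695) (.e (nat_lit 163867) (nat_lit 2) (.e (nat_lit 196624) (nat_lit 9) (.e (nat_lit 1615) (nat_lit 113) (.e (nat_lit 376862) (nat_lit 22) (.e (nat_lit 90185) (nat_lit 17) (.e (nat_lit 237585) (nat_lit 1) (.e (nat_lit 171776) (nat_lit 219) .nil))))))) (.g (nat_lit 4) .nil .nil)))) (.nd (nat_lit 5) 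
(.lf (nat_lit 249302) (.g (nat_lit 2154) (.e (nat_lit 163866) (nat_lit 2) (.e (nat_lit 196670) (nat_lit 14) (.e (nat_lit 73746) (nat_lit 3) (.e (nat_lit 516129) (nat_lit 3) (.e (nat_lit 221196) (nat_lit 20) .nil))))) .nil)) 
(.lf (nat_lit 249334) (.g (nat_lit 1717) (.e (nat_lit 163867) (nat_lit 2) (.e (nat_lit 196656) (nat_lit 11) (.e (nat_lit 16437) (nat_lit 9) (.e (nat_lit 426568) (nat_lit 34) (.e (nat_lit 393253) (nat_lit 18) .nil))))) .nil)))) (.nd (nat_lit 4) (.nd (nat_lit 5) 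
(.lf (nat_lit 249294) (.g (nat_lit 2083) (.e (nat_lit 163866) (nat_lit 2) (.e (nat_lit 196668) (nat_lit 14) (.e (nat_lit 73747) (nat_lit 3) (.e (nat_lit 516129) (nat_lit 3) (.e (nat_lit 221204) (nat_lit 20) .nil))))) .nil)) 
(.lf (nat_lit 249326) (.g (nat_lit 2915) (.e (nat_lit 163867) (nat_lit 2) (.e (nat_lit 196656) (nat_lit 11) (.e (nat_lit 16431) (nat_lit 9) (.e (nat_lit 426566) (nat_lit 34) (.e (nat_lit 393252) (nat_lit 18) (.e (nat_lit 164332) (nat_lit 230) .nil)))))) (.g (nat_lit 5) .nil .nil)))) (.nd (nat_lit 5) 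
(.lf (nat_lit 249310) (.g (nat_lit 688) (.e (nat_lit 163866) (nat_lit 2) (.e (nat_lit 196672) (nat_lit 15) (.e (nat_lit 89856) (nat_lit 18) .nil))) .nil)) 
(.lf (nat_lit 249342) (.g (nat_lit 2147) (.e (nat_lit 163867) (nat_lit 2) (.e (nat_lit 196663) (nat_lit 13) (.e (nat_lit 65571) (nat_lit 3) (.e (nat_lit 98341) (nat_lit 20) (.e (nat_lit 221213) (nat_lit 23) .nil))))) .nil))))))) (.nd (nat_lit 1) (.nd (nat_lit 2) (.nd (nat_lit 3) (.nd (nat_lit 4) (.nd (nat_lit 5) 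
(.lf (nat_lit 249281) (.g (nat_lit 2266) (.e (nat_lit 163866) (nat_lit 2) (.e (nat_lit 196666) (nat_lit 13) (.e (nat_lit 65569) (nat_lit 3) (.e (nat_lit 98341) (nat_lit 20) (.e (nat_lit 221214) (nat_lit 23) .nil))))) .nil)) 
(.lf (nat_lit 249313) (.g (nat_lit 3278) (.e (nat_lit 163867) (nat_lit 2) (.e (nat_lit 196624) (nat_lit 9) (.e (nat_lit 1277) (nat_lit 94) (.e (nat_lit 114719) (nat_lit 23) (.e (nat_lit 98367) (nat_lit 27) (.e (nat_lit 434232) (nat_lit 23) (.e (nat_lit 532503) (nat_lit 1) (.e (nat_lit 57685) (nat_lit 156) .nil)))))))) (.g (nat_lit 5) .nil .nil)))) (.nd (nat_lit 5) 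
(.lf (nat_lit 249297) (.g (nat_lit 1688) (.e (nat_lit 163866) (nat_lit 2) (.e (nat_lit 196668) (nat_lit 14) (.e (nat_lit 73747) (nat_lit 3) (.e (nat_lit 516131) (nat_lit 3) (.e (nat_lit 221213) (nat_lit 23) .nil))))) .nil)) 
(.lf (nat_lit 249329) (.g (nat_lit 3839) (.e (nat_lit 163867) (nat_lit 2) (.e (nat_lit 196656) (nat_lit 11) (.e (nat_lit 16431) (nat_lit 9) (.e (nat_lit 426568) (nat_lit 34) (.e (nat_lit 393253) (nat_lit 18) (.e (nat_lit 164332) (nat_lit 230) .nil)))))) (.g (nat_lit 6) .nil .nil))))) (.nd (nat_lit 4) (.nd (nat_lit 5) 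
(.lf (nat_lit 249289) (.g (nat_lit 2415) (.e (nat_lit 163866) (nat_lit 2) (.e (nat_lit 196666) (nat_lit 13) (.e (nat_lit 65627) (nat_lit 13) (.e (nat_lit 393225) (nat_lit 9) (.e (nat_lit 335996) (nat_lit 1) (.e (nat_lit 57929) (nat_lit 282) .nil)))))) (.g (nat_lit 5) .nil .nil))) 
(.lf (nat_lit 249321) (.g (nat_lit 2062) (.e (nat_lit 163867) (nat_lit 2) (.e (nat_lit 196654) (nat_lit 11) (.e (nat_lit 16416) (nat_lit 3) (.e (nat_lit 204836) (nat_lit 20) .nil)))) .nil))) (.nd (nat_lit 5) 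
(.lf (nat_lit 249305) (.g (nat_lit 1962) (.e (nat_lit 163866) (nat_lit 2) (.e (nat_lit 196670) (nat_lit 14) (.e (nat_lit 73746) (nat_lit 3) (.e (nat_lit 516131) (nat_lit 3) (.e (nat_lit 221195) (nat_lit 20) .nil))))) .nil)) 
(.lf (nat_lit 249337) (.g (nat_lit 2722) (.e (nat_lit 163867) (nat_lit 2) (.e (nat_lit 196656) (nat_lit 11) (.e (nat_lit 16438) (nat_lit 9) (.e (nat_lit 426566) (nat_lit 34) (.e (nat_lit 393254) (nat_lit 18) .nil))))) .nil))))) (.nd (nat_lit 3) (.nd (nat_lit 4) (.nd (nat_lit 5) 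
(.lf (nat_lit 249285) (.g (nat_lit 761) (.e (nat_lit 163866) (nat_lit 2) (.e (nat_lit 196666) (nat_lit 13) (.e (nat_lit 65627) (nat_lit 13) .nil))) .nil)) 
(.lf (nat_lit 249317) (.g (nat_lit 1500) (.e (nat_lit 163867) (nat_lit 2) (.e (nat_lit 196624) (nat_lit 9) (.e (nat_lit 1526) (nat_lit 109) (.e (nat_lit 344119) (nat_lit 21) (.e (nat_lit 516131) (nat_lit 3) .nil))))) .nil))) (.nd (nat_lit 5) 
(.lf (nat_lit 249301) (.g (nat_lit 1175) (.e (nat_lit 163866) (nat_lit 2) (.e (nat_lit 196670) (nat_lit 14) (.e (nat_lit 73746) (nat_lit 3) (.e (nat_lit 516129) (nat_lit 3) .nil)))) .nil)) 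
(.lf (nat_lit 249333) (.g (nat_lit 3535) (.e (nat_lit 163867) (nat_lit 2) (.e (nat_lit 196656) (nat_lit 11) (.e (nat_lit 16436) (nat_lit 9) (.e (nat_lit 426568) (nat_lit 34) (.e (nat_lit 393253) (nat_lit 18) (.e (nat_lit 164332) (nat_lit 230) .nil)))))) (.g (nat_lit 6) .nil .nil))))) (.nd (nat_lit 4) (.nd (nat_lit 5) 
(.lf (nat_lit 249293) (.g (nat_lit 2148) (.e (nat_lit 163866) (nat_lit 2) (.e (nat_lit 196668) (nat_lit 14) (.e (nat_lit 73747) (nat_lit 3) (.e (nat_lit 516129) (nat_lit 3) (.e (nat_lit 221196) (nat_lit 20) .nil))))) .nil)) 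
(.lf (nat_lit 249325) (.g (nat_lit 2355) (.e (nat_lit 163867) (nat_lit 2) (.e (nat_lit 196656) (nat_lit 11) (.e (nat_lit 16416) (nat_lit 3) (.e (nat_lit 204838) (nat_lit 20) (.e (nat_lit 114708) (nat_lit 20) .nil))))) .nil))) (.nd (nat_lit 5) 
(.lf (nat_lit 249309) (.g (nat_lit 688) (.e (nat_lit 163866) (nat_lit 2) (.e (nat_lit 196672) (nat_lit 15) (.e (nat_lit 89856) (nat_lit 11) .nil))) .nil)) 
(.lf (nat_lit 249341) (.g (nat_lit 1801) (.e (nat_lit 163867) (nat_lit 2) (.e (nat_lit 196663) (nat_lit 13) (.e (nat_lit 65569) (nat_lit 3) (.e (nat_lit 98342) (nat_lit 20) (.e (nat_lit 221204) (nat_lit 20) .nil))))) .nil)))))) (.nd (nat_lit 2) (.nd (nat_lit 3) (.nd (nat_lit 4) (.nd (nat_lit 5) 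
(.lf (nat_lit 249283) (.g (nat_lit 2286) (.e (nat_lit 163866) (nat_lit 2) (.e (nat_lit 196666) (nat_lit 13) (.e (nat_lit 65571) (nat_lit 3) (.e (nat_lit 98341) (nat_lit 20) (.e (nat_lit 221215) (nat_lit 23) .nil))))) .nil)) 
(.lf (nat_lit 249315) (.g (nat_lit 656) (.e (nat_lit 163867) (nat_lit 2) (.e (nat_lit 196624) (nat_lit 9) (.e (nat_lit 1488) (nat_lit 108) .nil))) .nil))) (.nd (nat_lit 5) 
(.lf (nat_lit 249299) (.g (nat_lit 1335) (.e (nat_lit 163866) (nat_lit 2) (.e (nat_lit 196670) (nat_lit 14) (.e (nat_lit 73746) (nat_lit 3) (.e (nat_lit 516126) (nat_lit 2) .nil)))) .nil)) 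
(.lf (nat_lit 249331) (.g (nat_lit 3552) (.e (nat_lit 163867) (nat_lit 2) (.e (nat_lit 196656) (nat_lit 11) (.e (nat_lit 16432) (nat_lit 9) (.e (nat_lit 426568) (nat_lit 34) (.e (nat_lit 393253) (nat_lit 18) (.e (nat_lit 164332) (nat_lit 230) .nil)))))) (.g (nat_lit 6) .nil .nil))))) (.nd (nat_lit 4) (.nd (nat_lit 5) 
(.lf (nat_lit 249291) (.g (nat_lit 2269) (.e (nat_lit 163866) (nat_lit 2) (.e (nat_lit 196668) (nat_lit 14) (.e (nat_lit 73746) (nat_lit 3) (.e (nat_lit 516129) (nat_lit 3) (.e (nat_lit 221204) (nat_lit 20) .nil))))) .nil)) 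
(.lf (nat_lit 249323) (.g (nat_lit 3085) (.e (nat_lit 163867) (nat_lit 2) (.e (nat_lit 196654) (nat_lit 11) (.e (nat_lit 16438) (nat_lit 9) (.e (nat_lit 426568) (nat_lit 34) (.e (nat_lit 393253) (nat_lit 18) (.e (nat_lit 164330) (nat_lit 230) .nil)))))) (.g (nat_lit 5) .nil .nil)))) (.nd (nat_lit 5) 
(.lf (nat_lit 249307) (.g (nat_lit 2202) (.e (nat_lit 163866) (nat_lit 2) (.e (nat_lit 196670) (nat_lit 14) (.e (nat_lit 73754) (nat_lit 8) (.e (nat_lit 557105) (nat_lit 14) (.e (nat_lit 180252) (nat_lit 10) (.e (nat_lit 573475) (nat_lit 12) (.e (nat_lit 57344) (nat_lit 0) (.e (nat_lit 5587) (nat_lit 310) .nil)))))))) (.g (nat_lit 4) .nil .nil))) 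
(.lf (nat_lit 249339) (.g (nat_lit 4022) (.e (nat_lit 163867) (nat_lit 2) (.e (nat_lit 196656) (nat_lit 11) (.e (nat_lit 16438) (nat_lit 9) (.e (nat_lit 426568) (nat_lit 34) (.e (nat_lit 393253) (nat_lit 18) (.e (nat_lit 164332) (nat_lit 230) .nil)))))) (.g (nat_lit 6) .nil .nil)))))) (.nd (nat_lit 3) (.nd (nat_lit 4) (.nd (nat_lit 5) 
(.lf (nat_lit 249287) (.g (nat_lit 1987) (.e (nat_lit 163866) (nat_lit 2) (.e (nat_lit 196666) (nat_lit 13) (.e (nat_lit 65627) (nat_lit 13) (.e (nat_lit 393225) (nat_lit 9) (.e (nat_lit 335988) (nat_lit 1) (.e (nat_lit 57926) (nat_lit 282) .nil)))))) (.g (nat_lit 4) .nil .nil))) 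
(.lf (nat_lit 249319) (.g (nat_lit 1655) (.e (nat_lit 163867) (nat_lit 2) (.e (nat_lit 196624) (nat_lit 9) (.e (nat_lit 1615) (nat_lit 113) (.e (nat_lit 376865) (nat_lit 22) (.e (nat_lit 90185) (nat_lit 17) (.e (nat_lit 237584) (nat_lit 1) (.e (nat_lit 171776) (nat_lit 219) .nil))))))) (.g (nat_lit 4) .nil .nil)))) (.nd (nat_lit 5) 
(.lf (nat_lit 249303) (.g (nat_lit 2035) (.e (nat_lit 163866) (nat_lit 2) (.e (nat_lit 196670) (nat_lit 14) (.e (nat_lit 73746) (nat_lit 3) (.e (nat_lit 516129) (nat_lit 3) (.e (nat_lit 221204) (nat_lit 20) .nil))))) .nil)) 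
(.lf (nat_lit 249335) (.g (nat_lit 3098) (.e (nat_lit 163867) (nat_lit 2) (.e (nat_lit 196656) (nat_lit 11) (.e (nat_lit 16438) (nat_lit 9) (.e (nat_lit 426482) (nat_lit 27) (.e (nat_lit 336385) (nat_lit 27) (.e (nat_lit 426108) (nat_lit 1) (.e (nat_lit 164329) (nat_lit 230) .nil))))))) (.g (nat_lit 4) .nil .nil))))) (.nd (nat_lit 4) (.nd (nat_lit 5) 
(.lf (nat_lit 249295) (.g (nat_lit 1419) (.e (nat_lit 163866) (nat_lit 2) (.e (nat_lit 196668) (nat_lit 14) (.e (nat_lit 73747) (nat_lit 3) (.e (nat_lit 516130) (nat_lit 3) .nil)))) .nil)) 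
(.lf (nat_lit 249327) (.g (nat_lit 4122) (.e (nat_lit 163867) (nat_lit 2) (.e (nat_lit 196656) (nat_lit 11) (.e (nat_lit 16431) (nat_lit 9) (.e (nat_lit 426566) (nat_lit 34) (.e (nat_lit 393253) (nat_lit 18) (.e (nat_lit 164332) (nat_lit 230) .nil)))))) (.g (nat_lit 6) .nil .nil)))) (.nd (nat_lit 5) 
(.lf (nat_lit 249311) (.g (nat_lit 549) (.e (nat_lit 163866) (nat_lit 2) (.e (nat_lit 196674) (nat_lit 15) (.e (nat_lit 81925) (nat_lit 11) .nil))) .nil)) 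
(.lf (nat_lit 249343) (.g (nat_lit 1793) (.e (nat_lit 163867) (nat_lit 2) (.e (nat_lit 196663) (nat_lit 13) (.e (nat_lit 65627) (nat_lit 13) (.e (nat_lit 393225) (nat_lit 9) (.e (nat_lit 335986) (nat_lit 1) (.e (nat_lit 57924) (nat_lit 282) .nil)))))) (.g (nat_lit 4) .nil .nil)))))))))

noncomputable def tv3227 : DT := (.nd (nat_lit 0) (.nd (nat_lit 1) (.nd (nat_lit 2) (.nd (nat_lit 3) (.nd (nat_lit 4) (.nd (nat_lit 5) 
(.lf (nat_lit 249344) (.g (nat_lit 1781) (.e (nat_lit 163867) (nat_lit 2) (.e (nat_lit 196663) (nat_lit 13) (.e (nat_lit 65627) (nat_lit 13) (.e (nat_lit 393225) (nat_lit 9) (.e (nat_lit 335995) (nat_lit 1) (.e (nat_lit 57929) (nat_lit 282) .nil)))))) (.g (nat_lit 4) .nil .nil))) 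
(.lf (nat_lit 249376) (.g (nat_lit 3707) (.e (nat_lit 163867) (nat_lit 2) (.e (nat_lit 196669) (nat_lit 14) (.e (nat_lit 73755) (nat_lit 8) (.e (nat_lit 557105) (nat_lit 14) (.e (nat_lit 180252) (nat_lit 10) (.e (nat_lit 573474) (nat_lit 12) (.e (nat_lit 57346) (nat_lit 0) (.e (nat_lit 5582) (nat_lit 310) .nil)))))))) (.g (nat_lit 6) .nil .nil)))) (.nd (nat_lit 5) 
(.lf (nat_lit 249360) (.g (nat_lit 1971) (.e (nat_lit 163867) (nat_lit 2) (.e (nat_lit 196668) (nat_lit 14) (.e (nat_lit 73746) (nat_lit 3) (.e (nat_lit 516129) (nat_lit 3) (.e (nat_lit 221204) (nat_lit 20) .nil))))) .nil)) 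
(.lf (nat_lit 249392) (.g (nat_lit 2716) (.e (nat_lit 163867) (nat_lit 2) (.e (nat_lit 196669) (nat_lit 14) (.e (nat_lit 73755) (nat_lit 8) (.e (nat_lit 557105) (nat_lit 14) (.e (nat_lit 180252) (nat_lit 10) (.e (nat_lit 573474) (nat_lit 12) (.e (nat_lit 57358) (nat_lit 0) (.e (nat_lit 5596) (nat_lit 310) .nil)))))))) (.g (nat_lit 4) .nil .nil))))) (.nd (nat_lit 4) (.nd (nat_lit 5) 
(.lf (nat_lit 249352) (.g (nat_lit 2767) (.e (nat_lit 163867) (nat_lit 2) (.e (nat_lit 196667) (nat_lit 14) (.e (nat_lit 73755) (nat_lit 8) (.e (nat_lit 557105) (nat_lit 14) (.e (nat_lit 180252) (nat_lit 10) (.e (nat_lit 573474) (nat_lit 12) (.e (nat_lit 57347) (nat_lit 0) (.e (nat_lit 5595) (nat_lit 310) .nil)))))))) (.g (nat_lit 4) .nil .nil))) 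
(.lf (nat_lit 249384) (.g (nat_lit 3211) (.e (nat_lit 163867) (nat_lit 2) (.e (nat_lit 196669) (nat_lit 14) (.e (nat_lit 73755) (nat_lit 8) (.e (nat_lit 557105) (nat_lit 14) (.e (nat_lit 180252) (nat_lit 10) (.e (nat_lit 573474) (nat_lit 12) (.e (nat_lit 57349) (nat_lit 0) (.e (nat_lit 5590) (nat_lit 310) .nil)))))))) (.g (nat_lit 5) .nil .nil)))) (.nd (nat_lit 5) 
(.lf (nat_lit 249368) (.g (nat_lit 3428) (.e (nat_lit 163867) (nat_lit 2) (.e (nat_lit 196668) (nat_lit 14) (.e (nat_lit 73753) (nat_lit 8) (.e (nat_lit 557105) (nat_lit 14) (.e (nat_lit 180252) (nat_lit 10) (.e (nat_lit 573474) (nat_lit 12) (.e (nat_lit 57348) (nat_lit 0) (.e (nat_lit 5590) (nat_lit 310) .nil)))))))) (.g (nat_lit 4) .nil .nil))) 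
(.lf (nat_lit 249400) (.g (nat_lit 2107) (.e (nat_lit 163867) (nat_lit 2) (.e (nat_lit 196670) (nat_lit 14) (.e (nat_lit 73746) (nat_lit 3) (.e (nat_lit 516129) (nat_lit 3) (.e (nat_lit 221200) (nat_lit 20) .nil))))) .nil))))) (.nd (nat_lit 3) (.nd (nat_lit 4) (.nd (nat_lit 5) 
(.lf (nat_lit 249348) (.g (nat_lit 2695) (.e (nat_lit 163867) (nat_lit 2) (.e (nat_lit 196665) (nat_lit 13) (.e (nat_lit 65625) (nat_lit 13) (.e (nat_lit 393229) (nat_lit 9) (.e (nat_lit 335996) (nat_lit 1) (.e (nat_lit 57931) (nat_lit 282) .nil)))))) (.g (nat_lit 5) .nil .nil))) 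
(.lf (nat_lit 249380) (.g (nat_lit 4293) (.e (nat_lit 163867) (nat_lit 2) (.e (nat_lit 196669) (nat_lit 14) (.e (nat_lit 73755) (nat_lit 8) (.e (nat_lit 557105) (nat_lit 14) (.e (nat_lit 180252) (nat_lit 10) (.e (nat_lit 573474) (nat_lit 12) (.e (nat_lit 57347) (nat_lit 0) (.e (nat_lit 5595) (nat_lit 310) .nil)))))))) (.g (nat_lit 7) .nil .nil)))) (.nd (nat_lit 5) 
(.lf (nat_lit 249364) (.g (nat_lit 3217) (.e (nat_lit 163867) (nat_lit 2) (.e (nat_lit 196668) (nat_lit 14) (.e (nat_lit 73753) (nat_lit 8) (.e (nat_lit 557103) (nat_lit 14) (.e (nat_lit 180250) (nat_lit 10) (.e (nat_lit 573477) (nat_lit 12) (.e (nat_lit 57361) (nat_lit 0) (.e (nat_lit 5598) (nat_lit 310) .nil)))))))) (.g (nat_lit 4) .nil .nil))) 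
(.lf (nat_lit 249396) (.g (nat_lit 2498) (.e (nat_lit 163867) (nat_lit 2) (.e (nat_lit 196669) (nat_lit 14) (.e (nat_lit 73755) (nat_lit 8) (.e (nat_lit 557105) (nat_lit 14) (.e (nat_lit 180252) (nat_lit 10) (.e (nat_lit 573474) (nat_lit 12) (.e (nat_lit 57360) (nat_lit 0) (.e (nat_lit 5598) (nat_lit 310) .nil)))))))) (.g (nat_lit 4) .nil .nil))))) (.nd (nat_lit 4) (.nd (nat_lit 5) 
(.lf (nat_lit 249356) (.g (nat_lit 2292) (.e (nat_lit 163867) (nat_lit 2) (.e (nat_lit 196667) (nat_lit 14) (.e (nat_lit 73755) (nat_lit 8) (.e (nat_lit 557105) (nat_lit 14) (.e (nat_lit 180252) (nat_lit 10) (.e (nat_lit 573474) (nat_lit 12) (.e (nat_lit 57349) (nat_lit 0) (.e (nat_lit 5584) (nat_lit 310) .nil)))))))) (.g (nat_lit 4) .nil .nil))) 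
(.lf (nat_lit 249388) (.g (nat_lit 2429) (.e (nat_lit 163867) (nat_lit 2) (.e (nat_lit 196669) (nat_lit 14) (.e (nat_lit 73755) (nat_lit 8) (.e (nat_lit 557105) (nat_lit 14) (.e (nat_lit 180252) (nat_lit 10) (.e (nat_lit 573474) (nat_lit 12) (.e (nat_lit 57354) (nat_lit 0) (.e (nat_lit 5596) (nat_lit 310) .nil)))))))) (.g (nat_lit 4) .nil .nil)))) (.nd (nat_lit 5) 
(.lf (nat_lit 249372) (.g (nat_lit 2681) (.e (nat_lit 163867) (nat_lit 2) (.e (nat_lit 196669) (nat_lit 14) (.e (nat_lit 73755) (nat_lit 8) (.e (nat_lit 557105) (nat_lit 14) (.e (nat_lit 180252) (nat_lit 10) (.e (nat_lit 573474) (nat_lit 12) (.e (nat_lit 57344) (nat_lit 0) (.e (nat_lit 5585) (nat_lit 310) .nil)))))))) (.g (nat_lit 4) .nil .nil))) 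
(.lf (nat_lit 249404) (.g (nat_lit 1983) (.e (nat_lit 163867) (nat_lit 2) (.e (nat_lit 196670) (nat_lit 14) (.e (nat_lit 73746) (nat_lit 3) (.e (nat_lit 516129) (nat_lit 3) (.e (nat_lit 229120) (nat_lit 20) .nil))))) .nil)))))) (.nd (nat_lit 2) (.nd (nat_lit 3) (.nd (nat_lit 4) (.nd (nat_lit 5) 
(.lf (nat_lit 249346) (.g (nat_lit 3189) (.e (nat_lit 163867) (nat_lit 2) (.e (nat_lit 196664) (nat_lit 13) (.e (nat_lit 65627) (nat_lit 13) (.e (nat_lit 393225) (nat_lit 9) (.e (nat_lit 335996) (nat_lit 1) (.e (nat_lit 57931) (nat_lit 282) .nil)))))) (.g (nat_lit 6) .nil .nil))) 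
(.lf (nat_lit 249378) (.g (nat_lit 4784) (.e (nat_lit 163867) (nat_lit 2) (.e (nat_lit 196669) (nat_lit 14) (.e (nat_lit 73755) (nat_lit 8) (.e (nat_lit 557105) (nat_lit 14) (.e (nat_lit 180252) (nat_lit 10) (.e (nat_lit 573474) (nat_lit 12) (.e (nat_lit 57347) (nat_lit 0) (.e (nat_lit 5584) (nat_lit 310) .nil)))))))) (.g (nat_lit 7) .nil .nil)))) (.nd (nat_lit 5) 
(.lf (nat_lit 249362) (.g (nat_lit 2078) (.e (nat_lit 163867) (nat_lit 2) (.e (nat_lit 196668) (nat_lit 14) (.e (nat_lit 73747) (nat_lit 3) (.e (nat_lit 516129) (nat_lit 3) (.e (nat_lit 221203) (nat_lit 20) .nil))))) .nil)) 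
(.lf (nat_lit 249394) (.g (nat_lit 2545) (.e (nat_lit 163867) (nat_lit 2) (.e (nat_lit 196669) (nat_lit 14) (.e (nat_lit 73755) (nat_lit 8) (.e (nat_lit 557105) (nat_lit 14) (.e (nat_lit 180252) (nat_lit 10) (.e (nat_lit 573474) (nat_lit 12) (.e (nat_lit 57359) (nat_lit 0) (.e (nat_lit 5594) (nat_lit 310) .nil)))))))) (.g (nat_lit 4) .nil .nil))))) (.nd (nat_lit 4) (.nd (nat_lit 5) 
(.lf (nat_lit 249354) (.g (nat_lit 2378) (.e (nat_lit 163867) (nat_lit 2) (.e (nat_lit 196667) (nat_lit 14) (.e (nat_lit 73755) (nat_lit 8) (.e (nat_lit 557105) (nat_lit 14) (.e (nat_lit 180252) (nat_lit 10) (.e (nat_lit 573474) (nat_lit 12) (.e (nat_lit 57348) (nat_lit 0) (.e (nat_lit 5591) (nat_lit 310) .nil)))))))) (.g (nat_lit 4) .nil .nil))) 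
(.lf (nat_lit 249386) (.g (nat_lit 3907) (.e (nat_lit 163867) (nat_lit 2) (.e (nat_lit 196669) (nat_lit 14) (.e (nat_lit 73755) (nat_lit 8) (.e (nat_lit 557105) (nat_lit 14) (.e (nat_lit 180252) (nat_lit 10) (.e (nat_lit 573474) (nat_lit 12) (.e (nat_lit 57351) (nat_lit 0) (.e (nat_lit 5584) (nat_lit 310) .nil)))))))) (.g (nat_lit 6) .nil .nil)))) (.nd (nat_lit 5) 
(.lf (nat_lit 249370) (.g (nat_lit 3567) (.e (nat_lit 163867) (nat_lit 2) (.e (nat_lit 196669) (nat_lit 14) (.e (nat_lit 73755) (nat_lit 8) (.e (nat_lit 557105) (nat_lit 14) (.e (nat_lit 180252) (nat_lit 10) (.e (nat_lit 573451) (nat_lit 9) (.e (nat_lit 1177) (nat_lit 87) (.e (nat_lit 57924) (nat_lit 282) .nil)))))))) (.g (nat_lit 5) .nil .nil))) 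
(.lf (nat_lit 249402) (.g (nat_lit 2169) (.e (nat_lit 163867) (nat_lit 2) (.e (nat_lit 196670) (nat_lit 14) (.e (nat_lit 73746) (nat_lit 3) (.e (nat_lit 516129) (nat_lit 3) (.e (nat_lit 221203) (nat_lit 20) .nil))))) .nil))))) (.nd (nat_lit 3) (.nd (nat_lit 4) (.nd (nat_lit 5) 
(.lf (nat_lit 249350) (.g (nat_lit 2181) (.e (nat_lit 163867) (nat_lit 2) (.e (nat_lit 196667) (nat_lit 14) (.e (nat_lit 73755) (nat_lit 8) (.e (nat_lit 557105) (nat_lit 14) (.e (nat_lit 180252) (nat_lit 10) (.e (nat_lit 573474) (nat_lit 12) (.e (nat_lit 57346) (nat_lit 0) (.e (nat_lit 5582) (nat_lit 310) .nil)))))))) (.g (nat_lit 4) .nil .nil))) 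
(.lf (nat_lit 249382) (.g (nat_lit 2714) (.e (nat_lit 163867) (nat_lit 2) (.e (nat_lit 196669) (nat_lit 14) (.e (nat_lit 73755) (nat_lit 8) (.e (nat_lit 557105) (nat_lit 14) (.e (nat_lit 180252) (nat_lit 10) (.e (nat_lit 573474) (nat_lit 12) (.e (nat_lit 57348) (nat_lit 0) (.e (nat_lit 5593) (nat_lit 310) .nil)))))))) (.g (nat_lit 4) .nil .nil)))) (.nd (nat_lit 5) 
(.lf (nat_lit 249366) (.g (nat_lit 3819) (.e (nat_lit 163867) (nat_lit 2) (.e (nat_lit 196668) (nat_lit 14) (.e (nat_lit 73753) (nat_lit 8) (.e (nat_lit 557105) (nat_lit 14) (.e (nat_lit 180252) (nat_lit 10) (.e (nat_lit 573474) (nat_lit 12) (.e (nat_lit 57347) (nat_lit 0) (.e (nat_lit 5590) (nat_lit 310) .nil)))))))) (.g (nat_lit 4) .nil .nil))) 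
(.lf (nat_lit 249398) (.g (nat_lit 2135) (.e (nat_lit 163867) (nat_lit 2) (.e (nat_lit 196670) (nat_lit 14) (.e (nat_lit 73746) (nat_lit 3) (.e (nat_lit 516129) (nat_lit 3) (.e (nat_lit 221196) (nat_lit 20) .nil))))) .nil)))) (.nd (nat_lit 4) (.nd (nat_lit 5) 
(.lf (nat_lit 249358) (.g (nat_lit 2710) (.e (nat_lit 163867) (nat_lit 2) (.e (nat_lit 196667) (nat_lit 14) (.e (nat_lit 73755) (nat_lit 8) (.e (nat_lit 557105) (nat_lit 14) (.e (nat_lit 180252) (nat_lit 10) (.e (nat_lit 573474) (nat_lit 12) (.e (nat_lit 57353) (nat_lit 0) (.e (nat_lit 5584) (nat_lit 310) .nil)))))))) (.g (nat_lit 4) .nil .nil))) 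
(.lf (nat_lit 249390) (.g (nat_lit 2328) (.e (nat_lit 163867) (nat_lit 2) (.e (nat_lit 196669) (nat_lit 14) (.e (nat_lit 73755) (nat_lit 8) (.e (nat_lit 557105) (nat_lit 14) (.e (nat_lit 180252) (nat_lit 10) (.e (nat_lit 573474) (nat_lit 12) (.e (nat_lit 57355) (nat_lit 0) (.e (nat_lit 5596) (nat_lit 310) .nil)))))))) (.g (nat_lit 4) .nil .nil)))) (.nd (nat_lit 5) 
(.lf (nat_lit 249374) (.g (nat_lit 2702) (.e (nat_lit 163867) (nat_lit 2) (.e (nat_lit 196669) (nat_lit 14) (.e (nat_lit 73755) (nat_lit 8) (.e (nat_lit 557105) (nat_lit 14) (.e (nat_lit 180252) (nat_lit 10) (.e (nat_lit 573474) (nat_lit 12) (.e (nat_lit 57344) (nat_lit 0) (.e (nat_lit 5596) (nat_lit 310) .nil)))))))) (.g (nat_lit 4) .nil .nil))) 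
(.lf (nat_lit 249406) (.g (nat_lit 3033) (.e (nat_lit 163867) (nat_lit 2) (.e (nat_lit 196670) (nat_lit 14) (.e (nat_lit 73746) (nat_lit 3) (.e (nat_lit 516129) (nat_lit 3) (.e (nat_lit 221210) (nat_lit 22) (.e (nat_lit 196635) (nat_lit 9) (.e (nat_lit 1182) (nat_lit 87) (.e (nat_lit 57924) (nat_lit 282) .nil)))))))) (.g (nat_lit 5) .nil .nil)))))))) 
(.nd (nat_lit 1) (.nd (nat_lit 2) (.nd (nat_lit 3) (.nd (nat_lit 4) (.nd (nat_lit 5) 
(.lf (nat_lit 249345) (.g (nat_lit 3393) (.e (nat_lit 163867) (nat_lit 2) (.e (nat_lit 196664) (nat_lit 13) (.e (nat_lit 65627) (nat_lit 13) (.e (nat_lit 393225) (nat_lit 9) (.e (nat_lit 335995) (nat_lit 1) (.e (nat_lit 57931) (nat_lit 282) .nil)))))) (.g (nat_lit 6) .nil .nil))) 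
(.lf (nat_lit 249377) (.g (nat_lit 2585) (.e (nat_lit 163867) (nat_lit 2) (.e (nat_lit 196669) (nat_lit 14) (.e (nat_lit 73755) (nat_lit 8) (.e (nat_lit 557105) (nat_lit 14) (.e (nat_lit 180252) (nat_lit 10) (.e (nat_lit 573474) (nat_lit 12) (.e (nat_lit 57346) (nat_lit 0) (.e (nat_lit 7936) (nat_lit 310) .nil)))))))) (.g (nat_lit 4) .nil .nil)))) (.nd (nat_lit 5) 
(.lf (nat_lit 249361) (.g (nat_lit 1983) (.e (nat_lit 163867) (nat_lit 2) (.e (nat_lit 196668) (nat_lit 14) (.e (nat_lit 73747) (nat_lit 3) (.e (nat_lit 516129) (nat_lit 3) (.e (nat_lit 221202) (nat_lit 20) .nil))))) .nil)) 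
(.lf (nat_lit 249393) (.g (nat_lit 2525) (.e (nat_lit 163867) (nat_lit 2) (.e (nat_lit 196669) (nat_lit 14) (.e (nat_lit 73755) (nat_lit 8) (.e (nat_lit 557105) (nat_lit 14) (.e (nat_lit 180252) (nat_lit 10) (.e (nat_lit 573474) (nat_lit 12) (.e (nat_lit 57358) (nat_lit 0) (.e (nat_lit 5601) (nat_lit 310) .nil)))))))) (.g (nat_lit 4) .nil .nil))))) (.nd (nat_lit 4) (.nd (nat_lit 5) 
(.lf (nat_lit 249353) (.g (nat_lit 3247) (.e (nat_lit 163867) (nat_lit 2) (.e (nat_lit 196667) (nat_lit 14) (.e (nat_lit 73755) (nat_lit 8) (.e (nat_lit 557105) (nat_lit 14) (.e (nat_lit 180252) (nat_lit 10) (.e (nat_lit 573474) (nat_lit 12) (.e (nat_lit 57348) (nat_lit 0) (.e (nat_lit 5584) (nat_lit 310) .nil)))))))) (.g (nat_lit 5) .nil .nil))) 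
(.lf (nat_lit 249385) (.g (nat_lit 2061) (.e (nat_lit 163867) (nat_lit 2) (.e (nat_lit 196669) (nat_lit 14) (.e (nat_lit 73755) (nat_lit 8) (.e (nat_lit 557105) (nat_lit 14) (.e (nat_lit 180252) (nat_lit 10) (.e (nat_lit 573474) (nat_lit 12) (.e (nat_lit 57349) (nat_lit 0) (.e (nat_lit 5591) (nat_lit 310) .nil)))))))) (.g (nat_lit 4) .nil .nil)))) (.nd (nat_lit 5) 
(.lf (nat_lit 249369) (.g (nat_lit 2677) (.e (nat_lit 163867) (nat_lit 2) (.e (nat_lit 196669) (nat_lit 14) (.e (nat_lit 73755) (nat_lit 8) (.e (nat_lit 557105) (nat_lit 14) (.e (nat_lit 180252) (nat_lit 10) (.e (nat_lit 573451) (nat_lit 9) (.e (nat_lit 1174) (nat_lit 87) (.e (nat_lit 57925) (nat_lit 282) .nil)))))))) (.g (nat_lit 4) .nil .nil))) 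
(.lf (nat_lit 249401) (.g (nat_lit 1979) (.e (nat_lit 163867) (nat_lit 2) (.e (nat_lit 196670) (nat_lit 14) (.e (nat_lit 73746) (nat_lit 3) (.e (nat_lit 516129) (nat_lit 3) (.e (nat_lit 221202) (nat_lit 20) .nil))))) .nil))))) (.nd (nat_lit 3) (.nd (nat_lit 4) (.nd (nat_lit 5) 
(.lf (nat_lit 249349) (.g (nat_lit 2487) (.e (nat_lit 163867) (nat_lit 2) (.e (nat_lit 196667) (nat_lit 14) (.e (nat_lit 73754) (nat_lit 8) (.e (nat_lit 557105) (nat_lit 14) (.e (nat_lit 180252) (nat_lit 10) (.e (nat_lit 573475) (nat_lit 12) (.e (nat_lit 57351) (nat_lit 0) (.e (nat_lit 5584) (nat_lit 310) .nil)))))))) (.g (nat_lit 4) .nil .nil))) 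
(.lf (nat_lit 249381) (.g (nat_lit 3904) (.e (nat_lit 163867) (nat_lit 2) (.e (nat_lit 196669) (nat_lit 14) (.e (nat_lit 73755) (nat_lit 8) (.e (nat_lit 557105) (nat_lit 14) (.e (nat_lit 180252) (nat_lit 10) (.e (nat_lit 573474) (nat_lit 12) (.e (nat_lit 57348) (nat_lit 0) (.e (nat_lit 5591) (nat_lit 310) .nil)))))))) (.g (nat_lit 7) .nil .nil)))) (.nd (nat_lit 5) 
(.lf (nat_lit 249365) (.g (nat_lit 3123) (.e (nat_lit 163867) (nat_lit 2) (.e (nat_lit 196668) (nat_lit 14) (.e (nat_lit 73753) (nat_lit 8) (.e (nat_lit 557104) (nat_lit 14) (.e (nat_lit 180252) (nat_lit 10) (.e (nat_lit 573474) (nat_lit 12) (.e (nat_lit 57347) (nat_lit 0) (.e (nat_lit 5584) (nat_lit 310) .nil)))))))) (.g (nat_lit 4) .nil .nil))) 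
(.lf (nat_lit 249397) (.g (nat_lit 2643) (.e (nat_lit 163867) (nat_lit 2) (.e (nat_lit 196669) (nat_lit 14) (.e (nat_lit 73755) (nat_lit 8) (.e (nat_lit 557105) (nat_lit 14) (.e (nat_lit 180252) (nat_lit 10) (.e (nat_lit 573474) (nat_lit 12) (.e (nat_lit 57360) (nat_lit 0) (.e (nat_lit 5599) (nat_lit 310) .nil)))))))) (.g (nat_lit 4) .nil .nil))))) (.nd (nat_lit 4) (.nd (nat_lit 5) 
(.lf (nat_lit 249357) (.g (nat_lit 2761) (.e (nat_lit 163867) (nat_lit 2) (.e (nat_lit 196667) (nat_lit 14) (.e (nat_lit 73755) (nat_lit 8) (.e (nat_lit 557105) (nat_lit 14) (.e (nat_lit 180252) (nat_lit 10) (.e (nat_lit 573474) (nat_lit 12) (.e (nat_lit 57351) (nat_lit 0) (.e (nat_lit 5584) (nat_lit 310) .nil)))))))) (.g (nat_lit 4) .nil .nil))) 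
(.lf (nat_lit 249389) (.g (nat_lit 3956) (.e (nat_lit 163867) (nat_lit 2) (.e (nat_lit 196669) (nat_lit 14) (.e (nat_lit 73755) (nat_lit 8) (.e (nat_lit 557105) (nat_lit 14) (.e (nat_lit 180252) (nat_lit 10) (.e (nat_lit 573474) (nat_lit 12) (.e (nat_lit 57354) (nat_lit 0) (.e (nat_lit 5601) (nat_lit 310) .nil)))))))) (.g (nat_lit 6) .nil .nil)))) (.nd (nat_lit 5) 
(.lf (nat_lit 249373) (.g (nat_lit 2256) (.e (nat_lit 163867) (nat_lit 2) (.e (nat_lit 196669) (nat_lit 14) (.e (nat_lit 73755) (nat_lit 8) (.e (nat_lit 557105) (nat_lit 14) (.e (nat_lit 180252) (nat_lit 10) (.e (nat_lit 573474) (nat_lit 12) (.e (nat_lit 57344) (nat_lit 0) (.e (nat_lit 5595) (nat_lit 310) .nil)))))))) (.g (nat_lit 4) .nil .nil))) 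
(.lf (nat_lit 249405) (.g (nat_lit 2290) (.e (nat_lit 163867) (nat_lit 2) (.e (nat_lit 196670) (nat_lit 14) (.e (nat_lit 73746) (nat_lit 3) (.e (nat_lit 516129) (nat_lit 3) (.e (nat_lit 221210) (nat_lit 22) (.e (nat_lit 196630) (nat_lit 9) (.e (nat_lit 1183) (nat_lit 87) (.e (nat_lit 57924) (nat_lit 282) .nil)))))))) (.g (nat_lit 4) .nil .nil))))))) 
(.nd (nat_lit 2) (.nd (nat_lit 3) (.nd (nat_lit 4) (.nd (nat_lit 5) 
(.lf (nat_lit 249347) (.g (nat_lit 2667) (.e (nat_lit 163867) (nat_lit 2) (.e (nat_lit 196665) (nat_lit 13) (.e (nat_lit 65625) (nat_lit 13) (.e (nat_lit 393229) (nat_lit 9) (.e (nat_lit 335995) (nat_lit 1) (.e (nat_lit 57931) (nat_lit 282) .nil)))))) (.g (nat_lit 5) .nil .nil))) 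
(.lf (nat_lit 249379) (.g (nat_lit 4782) (.e (nat_lit 163867) (nat_lit 2) (.e (nat_lit 196669) (nat_lit 14) (.e (nat_lit 73755) (nat_lit 8) (.e (nat_lit 557105) (nat_lit 14) (.e (nat_lit 180252) (nat_lit 10) (.e (nat_lit 573474) (nat_lit 12) (.e (nat_lit 57347) (nat_lit 0) (.e (nat_lit 5590) (nat_lit 310) .nil)))))))) (.g (nat_lit 7) .nil .nil)))) (.nd (nat_lit 5) 
(.lf (nat_lit 249363) (.g (nat_lit 3039) (.e (nat_lit 163867) (nat_lit 2) (.e (nat_lit 196668) (nat_lit 14) (.e (nat_lit 73753) (nat_lit 8) (.e (nat_lit 557103) (nat_lit 14) (.e (nat_lit 180250) (nat_lit 10) (.e (nat_lit 573474) (nat_lit 12) (.e (nat_lit 57348) (nat_lit 0) (.e (nat_lit 5584) (nat_lit 310) .nil)))))))) (.g (nat_lit 4) .nil .nil))) 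
(.lf (nat_lit 249395) (.g (nat_lit 2309) (.e (nat_lit 163867) (nat_lit 2) (.e (nat_lit 196669) (nat_lit 14) (.e (nat_lit 73755) (nat_lit 8) (.e (nat_lit 557105) (nat_lit 14) (.e (nat_lit 180252) (nat_lit 10) (.e (nat_lit 573474) (nat_lit 12) (.e (nat_lit 57360) (nat_lit 0) (.e (nat_lit 5596) (nat_lit 310) .nil)))))))) (.g (nat_lit 4) .nil .nil))))) (.nd (nat_lit 4) (.nd (nat_lit 5) 
(.lf (nat_lit 249355) (.g (nat_lit 2505) (.e (nat_lit 163867) (nat_lit 2) (.e (nat_lit 196667) (nat_lit 14) (.e (nat_lit 73755) (nat_lit 8) (.e (nat_lit 557105) (nat_lit 14) (.e (nat_lit 180252) (nat_lit 10) (.e (nat_lit 573474) (nat_lit 12) (.e (nat_lit 57348) (nat_lit 0) (.e (nat_lit 5595) (nat_lit 310) .nil)))))))) (.g (nat_lit 4) .nil .nil))) 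
(.lf (nat_lit 249387) (.g (nat_lit 3856) (.e (nat_lit 163867) (nat_lit 2) (.e (nat_lit 196669) (nat_lit 14) (.e (nat_lit 73755) (nat_lit 8) (.e (nat_lit 557105) (nat_lit 14) (.e (nat_lit 180252) (nat_lit 10) (.e (nat_lit 573474) (nat_lit 12) (.e (nat_lit 57353) (nat_lit 0) (.e (nat_lit 5584) (nat_lit 310) .nil)))))))) (.g (nat_lit 6) .nil .nil)))) (.nd (nat_lit 5) 
(.lf (nat_lit 249371) (.g (nat_lit 2649) (.e (nat_lit 163867) (nat_lit 2) (.e (nat_lit 196669) (nat_lit 14) (.e (nat_lit 73755) (nat_lit 8) (.e (nat_lit 557105) (nat_lit 14) (.e (nat_lit 180252) (nat_lit 10) (.e (nat_lit 573474) (nat_lit 12) (.e (nat_lit 57344) (nat_lit 0) (.e (nat_lit 5584) (nat_lit 310) .nil)))))))) (.g (nat_lit 4) .nil .nil))) 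
(.lf (nat_lit 249403) (.g (nat_lit 2016) (.e (nat_lit 163867) (nat_lit 2) (.e (nat_lit 196670) (nat_lit 14) (.e (nat_lit 73746) (nat_lit 3) (.e (nat_lit 516129) (nat_lit 3) (.e (nat_lit 221204) (nat_lit 20) .nil))))) .nil))))) (.nd (nat_lit 3) (.nd (nat_lit 4) (.nd (nat_lit 5) 
(.lf (nat_lit 249351) (.g (nat_lit 2470) (.e (nat_lit 163867) (nat_lit 2) (.e (nat_lit 196667) (nat_lit 14) (.e (nat_lit 73755) (nat_lit 8) (.e (nat_lit 557105) (nat_lit 14) (.e (nat_lit 180252) (nat_lit 10) (.e (nat_lit 573474) (nat_lit 12) (.e (nat_lit 57347) (nat_lit 0) (.e (nat_lit 5591) (nat_lit 310) .nil)))))))) (.g (nat_lit 4) .nil .nil))) 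
(.lf (nat_lit 249383) (.g (nat_lit 4031) (.e (nat_lit 163867) (nat_lit 2) (.e (nat_lit 196669) (nat_lit 14) (.e (nat_lit 73755) (nat_lit 8) (.e (nat_lit 557105) (nat_lit 14) (.e (nat_lit 180252) (nat_lit 10) (.e (nat_lit 573474) (nat_lit 12) (.e (nat_lit 57348) (nat_lit 0) (.e (nat_lit 5595) (nat_lit 310) .nil)))))))) (.g (nat_lit 7) .nil .nil)))) (.nd (nat_lit 5) 
(.lf (nat_lit 249367) (.g (nat_lit 3694) (.e (nat_lit 163867) (nat_lit 2) (.e (nat_lit 196668) (nat_lit 14) (.e (nat_lit 73753) (nat_lit 8) (.e (nat_lit 557105) (nat_lit 14) (.e (nat_lit 180252) (nat_lit 10) (.e (nat_lit 573474) (nat_lit 12) (.e (nat_lit 57348) (nat_lit 0) (.e (nat_lit 5584) (nat_lit 310) .nil)))))))) (.g (nat_lit 4) .nil .nil))) 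
(.lf (nat_lit 249399) (.g (nat_lit 2169) (.e (nat_lit 163867) (nat_lit 2) (.e (nat_lit 196670) (nat_lit 14) (.e (nat_lit 73746) (nat_lit 3) (.e (nat_lit 516129) (nat_lit 3) (.e (nat_lit 221199) (nat_lit 20) .nil))))) .nil)))) (.nd (nat_lit 4) (.nd (nat_lit 5) 
(.lf (nat_lit 249359) (.g (nat_lit 2430) (.e (nat_lit 163867) (nat_lit 2) (.e (nat_lit 196667) (nat_lit 14) (.e (nat_lit 73755) (nat_lit 8) (.e (nat_lit 557105) (nat_lit 14) (.e (nat_lit 180252) (nat_lit 10) (.e (nat_lit 573474) (nat_lit 12) (.e (nat_lit 57354) (nat_lit 0) (.e (nat_lit 5601) (nat_lit 310) .nil)))))))) (.g (nat_lit 4) .nil .nil))) 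
(.lf (nat_lit 249391) (.g (nat_lit 2327) (.e (nat_lit 163867) (nat_lit 2) (.e (nat_lit 196669) (nat_lit 14) (.e (nat_lit 73755) (nat_lit 8) (.e (nat_lit 557105) (nat_lit 14) (.e (nat_lit 180252) (nat_lit 10) (.e (nat_lit 573474) (nat_lit 12) (.e (nat_lit 57355) (nat_lit 0) (.e (nat_lit 5601) (nat_lit 310) .nil)))))))) (.g (nat_lit 4) .nil .nil)))) (.nd (nat_lit 5) 
(.lf (nat_lit 249375) (.g (nat_lit 2686) (.e (nat_lit 163867) (nat_lit 2) (.e (nat_lit 196669) (nat_lit 14) (.e (nat_lit 73755) (nat_lit 8) (.e (nat_lit 557105) (nat_lit 14) (.e (nat_lit 180252) (nat_lit 10) (.e (nat_lit 573474) (nat_lit 12) (.e (nat_lit 57344) (nat_lit 0) (.e (nat_lit 5603) (nat_lit 310) .nil)))))))) (.g (nat_lit 4) .nil .nil))) 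
(.lf (nat_lit 249407) (.g (nat_lit 3406) (.e (nat_lit 163867) (nat_lit 2) (.e (nat_lit 196670) (nat_lit 14) (.e (nat_lit 73746) (nat_lit 3) (.e (nat_lit 516129) (nat_lit 3) (.e (nat_lit 221210) (nat_lit 22) (.e (nat_lit 196635) (nat_lit 9) (.e (nat_lit 1182) (nat_lit 87) (.e (nat_lit 57930) (nat_lit 282) .nil)))))))) (.g (nat_lit 5) .nil .nil)))))))))


end

end Pool.Agent.Lib.MP_5854e1_co.Cz
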