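import Pool.Agent.Lib.MP_5854e1_co.DtD

/-!
# Windows and cells of the rings
-/

set_option autoImplicit false
set_option maxRecDepth 100000
set_option deprecated.oldSectionVars true

namespace Pool.Agent.Lib.MP_5854e1_co.Cz

open Pool.Agent.Lib.MP_5854e1_co

noncomputable section

noncomputable def tv3228 : DT := (.nd (nat_lit 0) (.nd (nat_lit 1) (.nd (nat_lit 2) (.nd (nat_lit 3) (.nd (nat_lit 4) (.nd (nat_lit 5) 
(.lf (nat_lit 249408) (.g (nat_lit 3435) (.e (nat_lit 163867) (nat_lit 2) (.e (nat_lit 196670) (nat_lit 14) (.e (nat_lit 73746) (nat_lit 3) (.e (nat_lit 516129) (nat_lit 3) (.e (nat_lit 221210) (nat_lit 22) (.e (nat_lit 196658) (nat_lit 12) (.e (nat_lit 57353) (nat_lit 0) (.e (nat_lit 5584) (nat_lit 310) .nil)))))))) (.g (nat_lit 5) .nil .nil))) 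
(.lf (nat_lit 249440) (.g (nat_lit 2748) (.e (nat_lit 163867) (nat_lit 2) (.e (nat_lit 196670) (nat_lit 14) (.e (nat_lit 73753) (nat_lit 8) (.e (nat_lit 557103) (nat_lit 14) (.e (nat_lit 180250) (nat_lit 10) (.e (nat_lit 573474) (nat_lit 12) (.e (nat_lit 57348) (nat_lit 0) (.e (nat_lit 5591) (nat_lit 310) .nil)))))))) (.g (nat_lit 4) .nil .nil)))) (.nd (nat_lit 5) 
(.lf (nat_lit 249424) (.g (nat_lit 2873) (.e (nat_lit 163867) (nat_lit 2) (.e (nat_lit 196670) (nat_lit 14) (.e (nat_lit 73746) (nat_lit 3) (.e (nat_lit 516129) (nat_lit 3) (.e (nat_lit 221214) (nat_lit 23) (.e (nat_lit 204821) (nat_lit 17) (.e (nat_lit 1086) (nat_lit 81) (.e (nat_lit 5584) (nat_lit 310) .nil)))))))) (.g (nat_lit 4) .nil .nil))) 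
(.lf (nat_lit 249456) (.g (nat_lit 2797) (.e (nat_lit 163867) (nat_lit 2) (.e (nat_lit 196670) (nat_lit 14) (.e (nat_lit 73753) (nat_lit 8) (.e (nat_lit 557105) (nat_lit 14) (.e (nat_lit 180252) (nat_lit 10) (.e (nat_lit 573473) (nat_lit 12) (.e (nat_lit 57350) (nat_lit 0) (.e (nat_lit 5581) (nat_lit 310) .nil)))))))) (.g (nat_lit 4) .nil .nil))))) (.nd (nat_lit 4) (.nd (nat_lit 5) 
(.lf (nat_lit 249416) (.g (nat_lit 3658) (.e (nat_lit 163867) (nat_lit 2) (.e (nat_lit 196670) (nat_lit 14) (.e (nat_lit 73746) (nat_lit 3) (.e (nat_lit 516129) (nat_lit 3) (.e (nat_lit 221210) (nat_lit 22) (.e (nat_lit 196661) (nat_lit 12) (.e (nat_lit 57359) (nat_lit 0) (.e (nat_lit 5594) (nat_lit 310) .nil)))))))) (.g (nat_lit 5) .nil .nil))) 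
(.lf (nat_lit 249448) (.g (nat_lit 3898) (.e (nat_lit 163867) (nat_lit 2) (.e (nat_lit 196670) (nat_lit 14) (.e (nat_lit 73753) (nat_lit 8) (.e (nat_lit 557105) (nat_lit 14) (.e (nat_lit 180251) (nat_lit 10) (.e (nat_lit 573477) (nat_lit 12) (.e (nat_lit 57361) (nat_lit 0) (.e (nat_lit 5597) (nat_lit 310) .nil)))))))) (.g (nat_lit 5) .nil .nil)))) (.nd (nat_lit 5) 
(.lf (nat_lit 249432) (.g (nat_lit 3386) (.e (nat_lit 163867) (nat_lit 2) (.e (nat_lit 196670) (nat_lit 14) (.e (nat_lit 73746) (nat_lit 3) (.e (nat_lit 516131) (nat_lit 3) (.e (nat_lit 221214) (nat_lit 23) (.e (nat_lit 204821) (nat_lit 17) (.e (nat_lit 1086) (nat_lit 81) (.e (nat_lit 5597) (nat_lit 310) .nil)))))))) (.g (nat_lit 5) .nil .nil))) 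
(.lf (nat_lit 249464) (.g (nat_lit 3941) (.e (nat_lit 163867) (nat_lit 2) (.e (nat_lit 196670) (nat_lit 14) (.e (nat_lit 73753) (nat_lit 8) (.e (nat_lit 557105) (nat_lit 14) (.e (nat_lit 180252) (nat_lit 10) (.e (nat_lit 573474) (nat_lit 12) (.e (nat_lit 57344) (nat_lit 0) (.e (nat_lit 5603) (nat_lit 310) .nil)))))))) (.g (nat_lit 5) .nil .nil)))))) 
(.nd (nat_lit 3) (.nd (nat_lit 4) (.nd (nat_lit 5) 
(.lf (nat_lit 249412) (.g (nat_lit 3306) (.e (nat_lit 163867) (nat_lit 2) (.e (nat_lit 196670) (nat_lit 14) (.e (nat_lit 73746) (nat_lit 3) (.e (nat_lit 516129) (nat_lit 3) (.e (nat_lit 221210) (nat_lit 22) (.e (nat_lit 196661) (nat_lit 12) (.e (nat_lit 57353) (nat_lit 0) (.e (nat_lit 5584) (nat_lit 310) .nil)))))))) (.g (nat_lit 5) .nil .nil))) 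
(.lf (nat_lit 249444) (.g (nat_lit 3976) (.e (nat_lit 163867) (nat_lit 2) (.e (nat_lit 196670) (nat_lit 14) (.e (nat_lit 73753) (nat_lit 8) (.e (nat_lit 557103) (nat_lit 14) (.e (nat_lit 180250) (nat_lit 10) (.e (nat_lit 573477) (nat_lit 12) (.e (nat_lit 57361) (nat_lit 0) (.e (nat_lit 5598) (nat_lit 310) .nil)))))))) (.g (nat_lit 5) .nil .nil)))) (.nd (nat_lit 5) 
(.lf (nat_lit 249428) (.g (nat_lit 1422) (.e (nat_lit 163867) (nat_lit 2) (.e (nat_lit 196670) (nat_lit 14) (.e (nat_lit 73746) (nat_lit 3) (.e (nat_lit 516130) (nat_lit 3) .nil)))) .nil)) 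
(.lf (nat_lit 249460) (.g (nat_lit 3468) (.e (nat_lit 163867) (nat_lit 2) (.e (nat_lit 196670) (nat_lit 14) (.e (nat_lit 73753) (nat_lit 8) (.e (nat_lit 557105) (nat_lit 14) (.e (nat_lit 180252) (nat_lit 10) (.e (nat_lit 573474) (nat_lit 12) (.e (nat_lit 57344) (nat_lit 0) (.e (nat_lit 5595) (nat_lit 310) .nil)))))))) (.g (nat_lit 5) .nil .nil))))) (.nd (nat_lit 4) (.nd (nat_lit 5) 
(.lf (nat_lit 249420) (.g (nat_lit 2780) (.e (nat_lit 163867) (nat_lit 2) (.e (nat_lit 196670) (nat_lit 14) (.e (nat_lit 73746) (nat_lit 3) (.e (nat_lit 516129) (nat_lit 3) (.e (nat_lit 221210) (nat_lit 22) (.e (nat_lit 196661) (nat_lit 12) (.e (nat_lit 65280) (nat_lit 0) (.e (nat_lit 5587) (nat_lit 310) .nil)))))))) (.g (nat_lit 4) .nil .nil))) 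
(.lf (nat_lit 249452) (.g (nat_lit 2516) (.e (nat_lit 163867) (nat_lit 2) (.e (nat_lit 196670) (nat_lit 14) (.e (nat_lit 73753) (nat_lit 8) (.e (nat_lit 557105) (nat_lit 14) (.e (nat_lit 180251) (nat_lit 10) (.e (nat_lit 573478) (nat_lit 12) (.e (nat_lit 57351) (nat_lit 0) (.e (nat_lit 5584) (nat_lit 310) .nil)))))))) (.g (nat_lit 4) .nil .nil)))) (.nd (nat_lit 5) 
(.lf (nat_lit 249436) (.g (nat_lit 2832) (.e (nat_lit 163867) (nat_lit 2) (.e (nat_lit 196670) (nat_lit 14) (.e (nat_lit 73753) (nat_lit 8) (.e (nat_lit 557103) (nat_lit 14) (.e (nat_lit 180250) (nat_lit 10) (.e (nat_lit 573474) (nat_lit 12) (.e (nat_lit 57347) (nat_lit 0) (.e (nat_lit 5590) (nat_lit 310) .nil)))))))) (.g (nat_lit 4) .nil .nil))) 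
(.lf (nat_lit 249468) (.g (nat_lit 3942) (.e (nat_lit 163867) (nat_lit 2) (.e (nat_lit 196670) (nat_lit 14) (.e (nat_lit 73753) (nat_lit 8) (.e (nat_lit 557105) (nat_lit 14) (.e (nat_lit 180252) (nat_lit 10) (.e (nat_lit 573474) (nat_lit 12) (.e (nat_lit 57345) (nat_lit 0) (.e (nat_lit 5591) (nat_lit 310) .nil)))))))) (.g (nat_lit 5) .nil .nil))))))) 
(.nd (nat_lit 2) (.nd (nat_lit 3) (.nd (nat_lit 4) (.nd (nat_lit 5) 
(.lf (nat_lit 249410) (.g (nat_lit 2778) (.e (nat_lit 163867) (nat_lit 2) (.e (nat_lit 196670) (nat_lit 14) (.e (nat_lit 73746) (nat_lit 3) (.e (nat_lit 516129) (nat_lit 3) (.e (nat_lit 221210) (nat_lit 22) (.e (nat_lit 196660) (nat_lit 12) (.e (nat_lit 57354) (nat_lit 0) (.e (nat_lit 5596) (nat_lit 310) .nil)))))))) (.g (nat_lit 4) .nil .nil))) 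
(.lf (nat_lit 249442) (.g (nat_lit 2801) (.e (nat_lit 163867) (nat_lit 2) (.e (nat_lit 196670) (nat_lit 14) (.e (nat_lit 73753) (nat_lit 8) (.e (nat_lit 557103) (nat_lit 14) (.e (nat_lit 180250) (nat_lit 10) (.e (nat_lit 573475) (nat_lit 12) (.e (nat_lit 57360) (nat_lit 0) (.e (nat_lit 5597) (nat_lit 310) .nil)))))))) (.g (nat_lit 4) .nil .nil)))) (.nd (nat_lit 5) 
(.lf (nat_lit 249426) (.g (nat_lit 2691) (.e (nat_lit 163867) (nat_lit 2) (.e (nat_lit 196670) (nat_lit 14) (.e (nat_lit 73746) (nat_lit 3) (.e (nat_lit 516129) (nat_lit 3) (.e (nat_lit 221215) (nat_lit 23) (.e (nat_lit 204821) (nat_lit 17) (.e (nat_lit 1040) (nat_lit 81) (.e (nat_lit 5603) (nat_lit 310) .nil)))))))) (.g (nat_lit 4) .nil .nil))) 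
(.lf (nat_lit 249458) (.g (nat_lit 3936) (.e (nat_lit 163867) (nat_lit 2) (.e (nat_lit 196670) (nat_lit 14) (.e (nat_lit 73753) (nat_lit 8) (.e (nat_lit 557105) (nat_lit 14) (.e (nat_lit 180252) (nat_lit 10) (.e (nat_lit 573474) (nat_lit 12) (.e (nat_lit 57344) (nat_lit 0) (.e (nat_lit 5585) (nat_lit 310) .nil)))))))) (.g (nat_lit 5) .nil .nil))))) (.nd (nat_lit 4) (.nd (nat_lit 5) 
(.lf (nat_lit 249418) (.g (nat_lit 2825) (.e (nat_lit 163867) (nat_lit 2) (.e (nat_lit 196670) (nat_lit 14) (.e (nat_lit 73746) (nat_lit 3) (.e (nat_lit 516129) (nat_lit 3) (.e (nat_lit 221210) (nat_lit 22) (.e (nat_lit 196661) (nat_lit 12) (.e (nat_lit 57361) (nat_lit 0) (.e (nat_lit 5596) (nat_lit 310) .nil)))))))) (.g (nat_lit 4) .nil .nil))) 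
(.lf (nat_lit 249450) (.g (nat_lit 2894) (.e (nat_lit 163867) (nat_lit 2) (.e (nat_lit 196670) (nat_lit 14) (.e (nat_lit 73753) (nat_lit 8) (.e (nat_lit 557105) (nat_lit 14) (.e (nat_lit 180251) (nat_lit 10) (.e (nat_lit 573477) (nat_lit 12) (.e (nat_lit 57361) (nat_lit 0) (.e (nat_lit 5599) (nat_lit 310) .nil)))))))) (.g (nat_lit 4) .nil .nil)))) (.nd (nat_lit 5) 
(.lf (nat_lit 249434) (.g (nat_lit 2612) (.e (nat_lit 163867) (nat_lit 2) (.e (nat_lit 196670) (nat_lit 14) (.e (nat_lit 73753) (nat_lit 8) (.e (nat_lit 557103) (nat_lit 14) (.e (nat_lit 180250) (nat_lit 10) (.e (nat_lit 573474) (nat_lit 12) (.e (nat_lit 57346) (nat_lit 0) (.e (nat_lit 5582) (nat_lit 310) .nil)))))))) (.g (nat_lit 4) .nil .nil))) 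
(.lf (nat_lit 249466) (.g (nat_lit 4157) (.e (nat_lit 163867) (nat_lit 2) (.e (nat_lit 196670) (nat_lit 14) (.e (nat_lit 73753) (nat_lit 8) (.e (nat_lit 557105) (nat_lit 14) (.e (nat_lit 180252) (nat_lit 10) (.e (nat_lit 573474) (nat_lit 12) (.e (nat_lit 57345) (nat_lit 0) (.e (nat_lit 5584) (nat_lit 310) .nil)))))))) (.g (nat_lit 5) .nil .nil)))))) 
(.nd (nat_lit 3) (.nd (nat_lit 4) (.nd (nat_lit 5) 
(.lf (nat_lit 249414) (.g (nat_lit 3111) (.e (nat_lit 163867) (nat_lit 2) (.e (nat_lit 196670) (nat_lit 14) (.e (nat_lit 73746) (nat_lit 3) (.e (nat_lit 516129) (nat_lit 3) (.e (nat_lit 221210) (nat_lit 22) (.e (nat_lit 196661) (nat_lit 12) (.e (nat_lit 57357) (nat_lit 0) (.e (nat_lit 5601) (nat_lit 310) .nil)))))))) (.g (nat_lit 5) .nil .nil))) 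
(.lf (nat_lit 249446) (.g (nat_lit 2939) (.e (nat_lit 163867) (nat_lit 2) (.e (nat_lit 196670) (nat_lit 14) (.e (nat_lit 73753) (nat_lit 8) (.e (nat_lit 557105) (nat_lit 14) (.e (nat_lit 180251) (nat_lit 10) (.e (nat_lit 573477) (nat_lit 12) (.e (nat_lit 57360) (nat_lit 0) (.e (nat_lit 5597) (nat_lit 310) .nil)))))))) (.g (nat_lit 4) .nil .nil)))) (.nd (nat_lit 5) 
(.lf (nat_lit 249430) (.g (nat_lit 2771) (.e (nat_lit 163867) (nat_lit 2) (.e (nat_lit 196670) (nat_lit 14) (.e (nat_lit 73746) (nat_lit 3) (.e (nat_lit 516131) (nat_lit 3) (.e (nat_lit 221211) (nat_lit 22) (.e (nat_lit 196661) (nat_lit 12) (.e (nat_lit 57359) (nat_lit 0) (.e (nat_lit 5594) (nat_lit 310) .nil)))))))) (.g (nat_lit 4) .nil .nil))) 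
(.lf (nat_lit 249462) (.g (nat_lit 4527) (.e (nat_lit 163867) (nat_lit 2) (.e (nat_lit 196670) (nat_lit 14) (.e (nat_lit 73753) (nat_lit 8) (.e (nat_lit 557105) (nat_lit 14) (.e (nat_lit 180252) (nat_lit 10) (.e (nat_lit 573474) (nat_lit 12) (.e (nat_lit 57344) (nat_lit 0) (.e (nat_lit 5600) (nat_lit 310) .nil)))))))) (.g (nat_lit 6) .nil .nil))))) (.nd (nat_lit 4) (.nd (nat_lit 5) 
(.lf (nat_lit 249422) (.g (nat_lit 2634) (.e (nat_lit 163867) (nat_lit 2) (.e (nat_lit 196670) (nat_lit 14) (.e (nat_lit 73746) (nat_lit 3) (.e (nat_lit 516129) (nat_lit 3) (.e (nat_lit 221214) (nat_lit 23) (.e (nat_lit 204821) (nat_lit 17) (.e (nat_lit 1040) (nat_lit 81) (.e (nat_lit 5600) (nat_lit 310) .nil)))))))) (.g (nat_lit 4) .nil .nil))) 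
(.lf (nat_lit 249454) (.g (nat_lit 4588) (.e (nat_lit 163867) (nat_lit 2) (.e (nat_lit 196670) (nat_lit 14) (.e (nat_lit 73753) (nat_lit 8) (.e (nat_lit 557105) (nat_lit 14) (.e (nat_lit 180252) (nat_lit 10) (.e (nat_lit 573451) (nat_lit 9) (.e (nat_lit 1175) (nat_lit 87) (.e (nat_lit 57924) (nat_lit 282) .nil)))))))) (.g (nat_lit 6) .nil .nil)))) (.nd (nat_lit 5) 
(.lf (nat_lit 249438) (.g (nat_lit 3122) (.e (nat_lit 163867) (nat_lit 2) (.e (nat_lit 196670) (nat_lit 14) (.e (nat_lit 73753) (nat_lit 8) (.e (nat_lit 557103) (nat_lit 14) (.e (nat_lit 180250) (nat_lit 10) (.e (nat_lit 573474) (nat_lit 12) (.e (nat_lit 57348) (nat_lit 0) (.e (nat_lit 5584) (nat_lit 310) .nil)))))))) (.g (nat_lit 4) .nil .nil))) 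
(.lf (nat_lit 249470) (.g (nat_lit 4962) (.e (nat_lit 163867) (nat_lit 2) (.e (nat_lit 196670) (nat_lit 14) (.e (nat_lit 73753) (nat_lit 8) (.e (nat_lit 557105) (nat_lit 14) (.e (nat_lit 180252) (nat_lit 10) (.e (nat_lit 573474) (nat_lit 12) (.e (nat_lit 57346) (nat_lit 0) (.e (nat_lit 5582) (nat_lit 310) .nil)))))))) (.g (nat_lit 6) .nil .nil)))))))) 
(.nd (nat_lit 1) (.nd (nat_lit 2) (.nd (nat_lit 3) (.nd (nat_lit 4) (.nd (nat_lit 5) 
(.lf (nat_lit 249409) (.g (nat_lit 2851) (.e (nat_lit 163867) (nat_lit 2) (.e (nat_lit 196670) (nat_lit 14) (.e (nat_lit 73746) (nat_lit 3) (.e (nat_lit 516129) (nat_lit 3) (.e (nat_lit 221210) (nat_lit 22) (.e (nat_lit 196658) (nat_lit 12) (.e (nat_lit 57353) (nat_lit 0) (.e (nat_lit 5595) (nat_lit 310) .nil)))))))) (.g (nat_lit 4) .nil .nil))) 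
(.lf (nat_lit 249441) (.g (nat_lit 2953) (.e (nat_lit 163867) (nat_lit 2) (.e (nat_lit 196670) (nat_lit 14) (.e (nat_lit 73753) (nat_lit 8) (.e (nat_lit 557103) (nat_lit 14) (.e (nat_lit 180250) (nat_lit 10) (.e (nat_lit 573474) (nat_lit 12) (.e (nat_lit 57348) (nat_lit 0) (.e (nat_lit 5595) (nat_lit 310) .nil)))))))) (.g (nat_lit 4) .nil .nil)))) (.nd (nat_lit 5) 
(.lf (nat_lit 249425) (.g (nat_lit 2615) (.e (nat_lit 163867) (nat_lit 2) (.e (nat_lit 196670) (nat_lit 14) (.e (nat_lit 73746) (nat_lit 3) (.e (nat_lit 516129) (nat_lit 3) (.e (nat_lit 221215) (nat_lit 23) (.e (nat_lit 204821) (nat_lit 17) (.e (nat_lit 1040) (nat_lit 81) (.e (nat_lit 5600) (nat_lit 310) .nil)))))))) (.g (nat_lit 4) .nil .nil))) 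
(.lf (nat_lit 249457) (.g (nat_lit 3496) (.e (nat_lit 163867) (nat_lit 2) (.e (nat_lit 196670) (nat_lit 14) (.e (nat_lit 73753) (nat_lit 8) (.e (nat_lit 557105) (nat_lit 14) (.e (nat_lit 180252) (nat_lit 10) (.e (nat_lit 573474) (nat_lit 12) (.e (nat_lit 57344) (nat_lit 0) (.e (nat_lit 5584) (nat_lit 310) .nil)))))))) (.g (nat_lit 5) .nil .nil))))) (.nd (nat_lit 4) (.nd (nat_lit 5) 
(.lf (nat_lit 249417) (.g (nat_lit 2649) (.e (nat_lit 163867) (nat_lit 2) (.e (nat_lit 196670) (nat_lit 14) (.e (nat_lit 73746) (nat_lit 3) (.e (nat_lit 516129) (nat_lit 3) (.e (nat_lit 221210) (nat_lit 22) (.e (nat_lit 196661) (nat_lit 12) (.e (nat_lit 57360) (nat_lit 0) (.e (nat_lit 5597) (nat_lit 310) .nil)))))))) (.g (nat_lit 4) .nil .nil))) 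
(.lf (nat_lit 249449) (.g (nat_lit 4050) (.e (nat_lit 163867) (nat_lit 2) (.e (nat_lit 196670) (nat_lit 14) (.e (nat_lit 73753) (nat_lit 8) (.e (nat_lit 557105) (nat_lit 14) (.e (nat_lit 180251) (nat_lit 10) (.e (nat_lit 573477) (nat_lit 12) (.e (nat_lit 57361) (nat_lit 0) (.e (nat_lit 5598) (nat_lit 310) .nil)))))))) (.g (nat_lit 5) .nil .nil)))) (.nd (nat_lit 5) 
(.lf (nat_lit 249433) (.g (nat_lit 3458) (.e (nat_lit 163867) (nat_lit 2) (.e (nat_lit 196670) (nat_lit 14) (.e (nat_lit 73746) (nat_lit 3) (.e (nat_lit 516131) (nat_lit 3) (.e (nat_lit 221214) (nat_lit 23) (.e (nat_lit 204821) (nat_lit 17) (.e (nat_lit 1086) (nat_lit 81) (.e (nat_lit 5598) (nat_lit 310) .nil)))))))) (.g (nat_lit 5) .nil .nil))) 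
(.lf (nat_lit 249465) (.g (nat_lit 2930) (.e (nat_lit 163867) (nat_lit 2) (.e (nat_lit 196670) (nat_lit 14) (.e (nat_lit 73753) (nat_lit 8) (.e (nat_lit 557105) (nat_lit 14) (.e (nat_lit 180252) (nat_lit 10) (.e (nat_lit 573474) (nat_lit 12) (.e (nat_lit 57345) (nat_lit 0) (.e (nat_lit 5582) (nat_lit 310) .nil)))))))) (.g (nat_lit 4) .nil .nil)))))) 
(.nd (nat_lit 3) (.nd (nat_lit 4) (.nd (nat_lit 5) 
(.lf (nat_lit 249413) (.g (nat_lit 2747) (.e (nat_lit 163867) (nat_lit 2) (.e (nat_lit 196670) (nat_lit 14) (.e (nat_lit 73746) (nat_lit 3) (.e (nat_lit 516129) (nat_lit 3) (.e (nat_lit 221210) (nat_lit 22) (.e (nat_lit 196661) (nat_lit 12) (.e (nat_lit 57353) (nat_lit 0) (.e (nat_lit 5595) (nat_lit 310) .nil)))))))) (.g (nat_lit 4) .nil .nil))) 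
(.lf (nat_lit 249445) (.g (nat_lit 2782) (.e (nat_lit 163867) (nat_lit 2) (.e (nat_lit 196670) (nat_lit 14) (.e (nat_lit 73753) (nat_lit 8) (.e (nat_lit 557103) (nat_lit 14) (.e (nat_lit 180250) (nat_lit 10) (.e (nat_lit 573478) (nat_lit 12) (.e (nat_lit 57360) (nat_lit 0) (.e (nat_lit 5597) (nat_lit 310) .nil)))))))) (.g (nat_lit 4) .nil .nil)))) (.nd (nat_lit 5) 
(.lf (nat_lit 249429) (.g (nat_lit 2351) (.e (nat_lit 163867) (nat_lit 2) (.e (nat_lit 196670) (nat_lit 14) (.e (nat_lit 73746) (nat_lit 3) (.e (nat_lit 516131) (nat_lit 3) (.e (nat_lit 221211) (nat_lit 22) (.e (nat_lit 196617) (nat_lit 9) (.e (nat_lit 1182) (nat_lit 87) (.e (nat_lit 57924) (nat_lit 282) .nil)))))))) (.g (nat_lit 4) .nil .nil))) 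
(.lf (nat_lit 249461) (.g (nat_lit 3957) (.e (nat_lit 163867) (nat_lit 2) (.e (nat_lit 196670) (nat_lit 14) (.e (nat_lit 73753) (nat_lit 8) (.e (nat_lit 557105) (nat_lit 14) (.e (nat_lit 180252) (nat_lit 10) (.e (nat_lit 573474) (nat_lit 12) (.e (nat_lit 57344) (nat_lit 0) (.e (nat_lit 5596) (nat_lit 310) .nil)))))))) (.g (nat_lit 5) .nil .nil))))) (.nd (nat_lit 4) (.nd (nat_lit 5) 
(.lf (nat_lit 249421) (.g (nat_lit 2815) (.e (nat_lit 163867) (nat_lit 2) (.e (nat_lit 196670) (nat_lit 14) (.e (nat_lit 73746) (nat_lit 3) (.e (nat_lit 516129) (nat_lit 3) (.e (nat_lit 221210) (nat_lit 22) (.e (nat_lit 196661) (nat_lit 12) (.e (nat_lit 65280) (nat_lit 0) (.e (nat_lit 5603) (nat_lit 310) .nil)))))))) (.g (nat_lit 4) .nil .nil))) 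
(.lf (nat_lit 249453) (.g (nat_lit 2818) (.e (nat_lit 163867) (nat_lit 2) (.e (nat_lit 196670) (nat_lit 14) (.e (nat_lit 73753) (nat_lit 8) (.e (nat_lit 557105) (nat_lit 14) (.e (nat_lit 180251) (nat_lit 10) (.e (nat_lit 573478) (nat_lit 12) (.e (nat_lit 57360) (nat_lit 0) (.e (nat_lit 5597) (nat_lit 310) .nil)))))))) (.g (nat_lit 4) .nil .nil)))) (.nd (nat_lit 5) 
(.lf (nat_lit 249437) (.g (nat_lit 2662) (.e (nat_lit 163867) (nat_lit 2) (.e (nat_lit 196670) (nat_lit 14) (.e (nat_lit 73753) (nat_lit 8) (.e (nat_lit 557103) (nat_lit 14) (.e (nat_lit 180250) (nat_lit 10) (.e (nat_lit 573474) (nat_lit 12) (.e (nat_lit 57347) (nat_lit 0) (.e (nat_lit 5595) (nat_lit 310) .nil)))))))) (.g (nat_lit 4) .nil .nil))) 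
(.lf (nat_lit 249469) (.g (nat_lit 4188) (.e (nat_lit 163867) (nat_lit 2) (.e (nat_lit 196670) (nat_lit 14) (.e (nat_lit 73753) (nat_lit 8) (.e (nat_lit 557105) (nat_lit 14) (.e (nat_lit 180252) (nat_lit 10) (.e (nat_lit 573474) (nat_lit 12) (.e (nat_lit 57345) (nat_lit 0) (.e (nat_lit 5595) (nat_lit 310) .nil)))))))) (.g (nat_lit 5) .nil .nil))))))) 
(.nd (nat_lit 2) (.nd (nat_lit 3) (.nd (nat_lit 4) (.nd (nat_lit 5) 
(.lf (nat_lit 249411) (.g (nat_lit 4305) (.e (nat_lit 163867) (nat_lit 2) (.e (nat_lit 196670) (nat_lit 14) (.e (nat_lit 73746) (nat_lit 3) (.e (nat_lit 516129) (nat_lit 3) (.e (nat_lit 221210) (nat_lit 22) (.e (nat_lit 196660) (nat_lit 12) (.e (nat_lit 57354) (nat_lit 0) (.e (nat_lit 5601) (nat_lit 310) .nil)))))))) (.g (nat_lit 7) .nil .nil))) 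
(.lf (nat_lit 249443) (.g (nat_lit 2865) (.e (nat_lit 163867) (nat_lit 2) (.e (nat_lit 196670) (nat_lit 14) (.e (nat_lit 73753) (nat_lit 8) (.e (nat_lit 557103) (nat_lit 14) (.e (nat_lit 180250) (nat_lit 10) (.e (nat_lit 573477) (nat_lit 12) (.e (nat_lit 57360) (nat_lit 0) (.e (nat_lit 5597) (nat_lit 310) .nil)))))))) (.g (nat_lit 4) .nil .nil)))) (.nd (nat_lit 5) 
(.lf (nat_lit 249427) (.g (nat_lit 2847) (.e (nat_lit 163867) (nat_lit 2) (.e (nat_lit 196670) (nat_lit 14) (.e (nat_lit 73746) (nat_lit 3) (.e (nat_lit 516129) (nat_lit 3) (.e (nat_lit 221215) (nat_lit 23) (.e (nat_lit 204821) (nat_lit 17) (.e (nat_lit 1086) (nat_lit 81) (.e (nat_lit 5584) (nat_lit 310) .nil)))))))) (.g (nat_lit 4) .nil .nil))) 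
(.lf (nat_lit 249459) (.g (nat_lit 3987) (.e (nat_lit 163867) (nat_lit 2) (.e (nat_lit 196670) (nat_lit 14) (.e (nat_lit 73753) (nat_lit 8) (.e (nat_lit 557105) (nat_lit 14) (.e (nat_lit 180252) (nat_lit 10) (.e (nat_lit 573474) (nat_lit 12) (.e (nat_lit 57344) (nat_lit 0) (.e (nat_lit 5587) (nat_lit 310) .nil)))))))) (.g (nat_lit 5) .nil .nil))))) (.nd (nat_lit 4) (.nd (nat_lit 5) 
(.lf (nat_lit 249419) (.g (nat_lit 3682) (.e (nat_lit 163867) (nat_lit 2) (.e (nat_lit 196670) (nat_lit 14) (.e (nat_lit 73746) (nat_lit 3) (.e (nat_lit 516129) (nat_lit 3) (.e (nat_lit 221210) (nat_lit 22) (.e (nat_lit 196661) (nat_lit 12) (.e (nat_lit 57361) (nat_lit 0) (.e (nat_lit 5599) (nat_lit 310) .nil)))))))) (.g (nat_lit 5) .nil .nil))) 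
(.lf (nat_lit 249451) (.g (nat_lit 2463) (.e (nat_lit 163867) (nat_lit 2) (.e (nat_lit 196670) (nat_lit 14) (.e (nat_lit 73753) (nat_lit 8) (.e (nat_lit 557105) (nat_lit 14) (.e (nat_lit 180251) (nat_lit 10) (.e (nat_lit 573478) (nat_lit 12) (.e (nat_lit 57344) (nat_lit 0) (.e (nat_lit 5600) (nat_lit 310) .nil)))))))) (.g (nat_lit 4) .nil .nil)))) (.nd (nat_lit 5) 
(.lf (nat_lit 249435) (.g (nat_lit 2788) (.e (nat_lit 163867) (nat_lit 2) (.e (nat_lit 196670) (nat_lit 14) (.e (nat_lit 73753) (nat_lit 8) (.e (nat_lit 557103) (nat_lit 14) (.e (nat_lit 180250) (nat_lit 10) (.e (nat_lit 573474) (nat_lit 12) (.e (nat_lit 57347) (nat_lit 0) (.e (nat_lit 5584) (nat_lit 310) .nil)))))))) (.g (nat_lit 4) .nil .nil))) 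
(.lf (nat_lit 249467) (.g (nat_lit 4223) (.e (nat_lit 163867) (nat_lit 2) (.e (nat_lit 196670) (nat_lit 14) (.e (nat_lit 73753) (nat_lit 8) (.e (nat_lit 557105) (nat_lit 14) (.e (nat_lit 180252) (nat_lit 10) (.e (nat_lit 573474) (nat_lit 12) (.e (nat_lit 57345) (nat_lit 0) (.e (nat_lit 5590) (nat_lit 310) .nil)))))))) (.g (nat_lit 5) .nil .nil)))))) 
(.nd (nat_lit 3) (.nd (nat_lit 4) (.nd (nat_lit 5) 
(.lf (nat_lit 249415) (.g (nat_lit 2495) (.e (nat_lit 163867) (nat_lit 2) (.e (nat_lit 196670) (nat_lit 14) (.e (nat_lit 73746) (nat_lit 3) (.e (nat_lit 516129) (nat_lit 3) (.e (nat_lit 221210) (nat_lit 22) (.e (nat_lit 196661) (nat_lit 12) (.e (nat_lit 57357) (nat_lit 0) (.e (nat_lit 5602) (nat_lit 310) .nil)))))))) (.g (nat_lit 4) .nil .nil))) 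
(.lf (nat_lit 249447) (.g (nat_lit 2941) (.e (nat_lit 163867) (nat_lit 2) (.e (nat_lit 196670) (nat_lit 14) (.e (nat_lit 73753) (nat_lit 8) (.e (nat_lit 557105) (nat_lit 14) (.e (nat_lit 180251) (nat_lit 10) (.e (nat_lit 573477) (nat_lit 12) (.e (nat_lit 57360) (nat_lit 0) (.e (nat_lit 5599) (nat_lit 310) .nil)))))))) (.g (nat_lit 4) .nil .nil)))) (.nd (nat_lit 5) 
(.lf (nat_lit 249431) (.g (nat_lit 2903) (.e (nat_lit 163867) (nat_lit 2) (.e (nat_lit 196670) (nat_lit 14) (.e (nat_lit 73746) (nat_lit 3) (.e (nat_lit 516131) (nat_lit 3) (.e (nat_lit 221212) (nat_lit 22) (.e (nat_lit 196661) (nat_lit 12) (.e (nat_lit 57361) (nat_lit 0) (.e (nat_lit 5597) (nat_lit 310) .nil)))))))) (.g (nat_lit 5) .nil .nil))) 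
(.lf (nat_lit 249463) (.g (nat_lit 4054) (.e (nat_lit 163867) (nat_lit 2) (.e (nat_lit 196670) (nat_lit 14) (.e (nat_lit 73753) (nat_lit 8) (.e (nat_lit 557105) (nat_lit 14) (.e (nat_lit 180252) (nat_lit 10) (.e (nat_lit 573474) (nat_lit 12) (.e (nat_lit 57344) (nat_lit 0) (.e (nat_lit 5601) (nat_lit 310) .nil)))))))) (.g (nat_lit 5) .nil .nil))))) (.nd (nat_lit 4) (.nd (nat_lit 5) 
(.lf (nat_lit 249423) (.g (nat_lit 2710) (.e (nat_lit 163867) (nat_lit 2) (.e (nat_lit 196670) (nat_lit 14) (.e (nat_lit 73746) (nat_lit 3) (.e (nat_lit 516129) (nat_lit 3) (.e (nat_lit 221214) (nat_lit 23) (.e (nat_lit 204821) (nat_lit 17) (.e (nat_lit 1040) (nat_lit 81) (.e (nat_lit 5603) (nat_lit 310) .nil)))))))) (.g (nat_lit 4) .nil .nil))) 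
(.lf (nat_lit 249455) (.g (nat_lit 4352) (.e (nat_lit 163867) (nat_lit 2) (.e (nat_lit 196670) (nat_lit 14) (.e (nat_lit 73753) (nat_lit 8) (.e (nat_lit 557105) (nat_lit 14) (.e (nat_lit 180252) (nat_lit 10) (.e (nat_lit 573451) (nat_lit 9) (.e (nat_lit 1175) (nat_lit 87) (.e (nat_lit 57925) (nat_lit 282) .nil)))))))) (.g (nat_lit 6) .nil .nil)))) (.nd (nat_lit 5) 
(.lf (nat_lit 249439) (.g (nat_lit 2998) (.e (nat_lit 163867) (nat_lit 2) (.e (nat_lit 196670) (nat_lit 14) (.e (nat_lit 73753) (nat_lit 8) (.e (nat_lit 557103) (nat_lit 14) (.e (nat_lit 180250) (nat_lit 10) (.e (nat_lit 573474) (nat_lit 12) (.e (nat_lit 57348) (nat_lit 0) (.e (nat_lit 5590) (nat_lit 310) .nil)))))))) (.g (nat_lit 4) .nil .nil))) 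
(.lf (nat_lit 249471) (.g (nat_lit 3448) (.e (nat_lit 163867) (nat_lit 2) (.e (nat_lit 196670) (nat_lit 14) (.e (nat_lit 73753) (nat_lit 8) (.e (nat_lit 557105) (nat_lit 14) (.e (nat_lit 180252) (nat_lit 10) (.e (nat_lit 573474) (nat_lit 12) (.e (nat_lit 57346) (nat_lit 0) (.e (nat_lit 7936) (nat_lit 310) .nil)))))))) (.g (nat_lit 5) .nil .nil)))))))))

noncomputable def tv3229 : DT := (.nd (nat_lit 0) (.nd (nat_lit 1) (.nd (nat_lit 2) (.nd (nat_lit 3) (.nd (nat_lit 4) (.nd (nat_lit 5) 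
(.lf (nat_lit 249472) (.g (nat_lit 5631) (.e (nat_lit 163867) (nat_lit 2) (.e (nat_lit 196670) (nat_lit 14) (.e (nat_lit 73753) (nat_lit 8) (.e (nat_lit 557105) (nat_lit 14) (.e (nat_lit 180252) (nat_lit 10) (.e (nat_lit 573474) (nat_lit 12) (.e (nat_lit 57347) (nat_lit 0) (.e (nat_lit 5584) (nat_lit 310) .nil)))))))) (.g (nat_lit 7) .nil .nil))) 
(.lf (nat_lit 249504) (.g (nat_lit 2870) (.e (nat_lit 163867) (nat_lit 2) (.e (nat_lit 196670) (nat_lit 14) (.e (nat_lit 73753) (nat_lit 8) (.e (nat_lit 557105) (nat_lit 14) (.e (nat_lit 180252) (nat_lit 10) (.e (nat_lit 573475) (nat_lit 12) (.e (nat_lit 57345) (nat_lit 0) (.e (nat_lit 5591) (nat_lit 310) .nil)))))))) (.g (nat_lit 4) .nil .nil)))) (.nd (nat_lit 5) 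
(.lf (nat_lit 249488) (.g (nat_lit 4166) (.e (nat_lit 163867) (nat_lit 2) (.e (nat_lit 196670) (nat_lit 14) (.e (nat_lit 73753) (nat_lit 8) (.e (nat_lit 557105) (nat_lit 14) (.e (nat_lit 180252) (nat_lit 10) (.e (nat_lit 573474) (nat_lit 12) (.e (nat_lit 57355) (nat_lit 0) (.e (nat_lit 5603) (nat_lit 310) .nil)))))))) (.g (nat_lit 5) .nil .nil))) 
(.lf (nat_lit 249520) (.g (nat_lit 3210) (.e (nat_lit 163867) (nat_lit 2) (.e (nat_lit 196670) (nat_lit 14) (.e (nat_lit 73754) (nat_lit 8) (.e (nat_lit 557105) (nat_lit 14) (.e (nat_lit 180251) (nat_lit 10) (.e (nat_lit 573477) (nat_lit 12) (.e (nat_lit 57361) (nat_lit 0) (.e (nat_lit 5599) (nat_lit 310) .nil)))))))) (.g (nat_lit 5) .nil .nil))))) (.nd (nat_lit 4) (.nd (nat_lit 5) 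
(.lf (nat_lit 249480) (.g (nat_lit 3982) (.e (nat_lit 163867) (nat_lit 2) (.e (nat_lit 196670) (nat_lit 14) (.e (nat_lit 73753) (nat_lit 8) (.e (nat_lit 557105) (nat_lit 14) (.e (nat_lit 180252) (nat_lit 10) (.e (nat_lit 573474) (nat_lit 12) (.e (nat_lit 57349) (nat_lit 0) (.e (nat_lit 5595) (nat_lit 310) .nil)))))))) (.g (nat_lit 5) .nil .nil))) 
(.lf (nat_lit 249512) (.g (nat_lit 2952) (.e (nat_lit 163867) (nat_lit 2) (.e (nat_lit 196670) (nat_lit 14) (.e (nat_lit 73753) (nat_lit 8) (.e (nat_lit 557105) (nat_lit 14) (.e (nat_lit 180252) (nat_lit 10) (.e (nat_lit 573475) (nat_lit 12) (.e (nat_lit 57360) (nat_lit 0) (.e (nat_lit 5596) (nat_lit 310) .nil)))))))) (.g (nat_lit 4) .nil .nil)))) (.nd (nat_lit 5) 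
(.lf (nat_lit 249496) (.g (nat_lit 3940) (.e (nat_lit 163867) (nat_lit 2) (.e (nat_lit 196670) (nat_lit 14) (.e (nat_lit 73753) (nat_lit 8) (.e (nat_lit 557105) (nat_lit 14) (.e (nat_lit 180252) (nat_lit 10) (.e (nat_lit 573474) (nat_lit 12) (.e (nat_lit 57360) (nat_lit 0) (.e (nat_lit 5597) (nat_lit 310) .nil)))))))) (.g (nat_lit 5) .nil .nil))) 
(.lf (nat_lit 249528) (.g (nat_lit 2839) (.e (nat_lit 163867) (nat_lit 2) (.e (nat_lit 196670) (nat_lit 14) (.e (nat_lit 73754) (nat_lit 8) (.e (nat_lit 557105) (nat_lit 14) (.e (nat_lit 180251) (nat_lit 10) (.e (nat_lit 573478) (nat_lit 12) (.e (nat_lit 57351) (nat_lit 0) (.e (nat_lit 5584) (nat_lit 310) .nil)))))))) (.g (nat_lit 5) .nil .nil)))))) 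
(.nd (nat_lit 3) (.nd (nat_lit 4) (.nd (nat_lit 5) 
(.lf (nat_lit 249476) (.g (nat_lit 5079) (.e (nat_lit 163867) (nat_lit 2) (.e (nat_lit 196670) (nat_lit 14) (.e (nat_lit 73753) (nat_lit 8) (.e (nat_lit 557105) (nat_lit 14) (.e (nat_lit 180252) (nat_lit 10) (.e (nat_lit 573474) (nat_lit 12) (.e (nat_lit 57348) (nat_lit 0) (.e (nat_lit 5591) (nat_lit 310) .nil)))))))) (.g (nat_lit 7) .nil .nil))) 
(.lf (nat_lit 249508) (.g (nat_lit 3366) (.e (nat_lit 163867) (nat_lit 2) (.e (nat_lit 196670) (nat_lit 14) (.e (nat_lit 73753) (nat_lit 8) (.e (nat_lit 557105) (nat_lit 14) (.e (nat_lit 180252) (nat_lit 10) (.e (nat_lit 573475) (nat_lit 12) (.e (nat_lit 57351) (nat_lit 0) (.e (nat_lit 5584) (nat_lit 310) .nil)))))))) (.g (nat_lit 5) .nil .nil)))) (.nd (nat_lit 5) 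
(.lf (nat_lit 249492) (.g (nat_lit 3971) (.e (nat_lit 163867) (nat_lit 2) (.e (nat_lit 196670) (nat_lit 14) (.e (nat_lit 73753) (nat_lit 8) (.e (nat_lit 557105) (nat_lit 14) (.e (nat_lit 180252) (nat_lit 10) (.e (nat_lit 573474) (nat_lit 12) (.e (nat_lit 57358) (nat_lit 0) (.e (nat_lit 5596) (nat_lit 310) .nil)))))))) (.g (nat_lit 5) .nil .nil))) 
(.lf (nat_lit 249524) (.g (nat_lit 2278) (.e (nat_lit 163867) (nat_lit 2) (.e (nat_lit 196670) (nat_lit 14) (.e (nat_lit 73754) (nat_lit 8) (.e (nat_lit 557105) (nat_lit 14) (.e (nat_lit 180251) (nat_lit 10) (.e (nat_lit 573478) (nat_lit 12) (.e (nat_lit 57344) (nat_lit 0) (.e (nat_lit 5596) (nat_lit 310) .nil)))))))) (.g (nat_lit 4) .nil .nil))))) (.nd (nat_lit 4) (.nd (nat_lit 5) 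
(.lf (nat_lit 249484) (.g (nat_lit 4124) (.e (nat_lit 163867) (nat_lit 2) (.e (nat_lit 196670) (nat_lit 14) (.e (nat_lit 73753) (nat_lit 8) (.e (nat_lit 557105) (nat_lit 14) (.e (nat_lit 180252) (nat_lit 10) (.e (nat_lit 573474) (nat_lit 12) (.e (nat_lit 57353) (nat_lit 0) (.e (nat_lit 5595) (nat_lit 310) .nil)))))))) (.g (nat_lit 5) .nil .nil))) 
(.lf (nat_lit 249516) (.g (nat_lit 2879) (.e (nat_lit 163867) (nat_lit 2) (.e (nat_lit 196670) (nat_lit 14) (.e (nat_lit 73754) (nat_lit 8) (.e (nat_lit 557105) (nat_lit 14) (.e (nat_lit 180251) (nat_lit 10) (.e (nat_lit 573477) (nat_lit 12) (.e (nat_lit 57360) (nat_lit 0) (.e (nat_lit 5596) (nat_lit 310) .nil)))))))) (.g (nat_lit 5) .nil .nil)))) (.nd (nat_lit 5) 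
(.lf (nat_lit 249500) (.g (nat_lit 2701) (.e (nat_lit 163867) (nat_lit 2) (.e (nat_lit 196670) (nat_lit 14) (.e (nat_lit 73753) (nat_lit 8) (.e (nat_lit 557105) (nat_lit 14) (.e (nat_lit 180252) (nat_lit 10) (.e (nat_lit 573475) (nat_lit 12) (.e (nat_lit 57344) (nat_lit 0) (.e (nat_lit 5585) (nat_lit 310) .nil)))))))) (.g (nat_lit 4) .nil .nil))) 
(.lf (nat_lit 249532) (.g (nat_lit 2354) (.e (nat_lit 163867) (nat_lit 2) (.e (nat_lit 196670) (nat_lit 14) (.e (nat_lit 73754) (nat_lit 8) (.e (nat_lit 557105) (nat_lit 14) (.e (nat_lit 180251) (nat_lit 10) (.e (nat_lit 573478) (nat_lit 12) (.e (nat_lit 57356) (nat_lit 0) (.e (nat_lit 5601) (nat_lit 310) .nil)))))))) (.g (nat_lit 4) .nil .nil))))))) 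
(.nd (nat_lit 2) (.nd (nat_lit 3) (.nd (nat_lit 4) (.nd (nat_lit 5) 
(.lf (nat_lit 249474) (.g (nat_lit 5187) (.e (nat_lit 163867) (nat_lit 2) (.e (nat_lit 196670) (nat_lit 14) (.e (nat_lit 73753) (nat_lit 8) (.e (nat_lit 557105) (nat_lit 14) (.e (nat_lit 180252) (nat_lit 10) (.e (nat_lit 573474) (nat_lit 12) (.e (nat_lit 57347) (nat_lit 0) (.e (nat_lit 5591) (nat_lit 310) .nil)))))))) (.g (nat_lit 7) .nil .nil))) 
(.lf (nat_lit 249506) (.g (nat_lit 2723) (.e (nat_lit 163867) (nat_lit 2) (.e (nat_lit 196670) (nat_lit 14) (.e (nat_lit 73753) (nat_lit 8) (.e (nat_lit 557105) (nat_lit 14) (.e (nat_lit 180252) (nat_lit 10) (.e (nat_lit 573475) (nat_lit 12) (.e (nat_lit 57349) (nat_lit 0) (.e (nat_lit 5584) (nat_lit 310) .nil)))))))) (.g (nat_lit 4) .nil .nil)))) (.nd (nat_lit 5) 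
(.lf (nat_lit 249490) (.g (nat_lit 4290) (.e (nat_lit 163867) (nat_lit 2) (.e (nat_lit 196670) (nat_lit 14) (.e (nat_lit 73753) (nat_lit 8) (.e (nat_lit 557105) (nat_lit 14) (.e (nat_lit 180252) (nat_lit 10) (.e (nat_lit 573474) (nat_lit 12) (.e (nat_lit 57356) (nat_lit 0) (.e (nat_lit 5603) (nat_lit 310) .nil)))))))) (.g (nat_lit 5) .nil .nil))) 
(.lf (nat_lit 249522) (.g (nat_lit 2142) (.e (nat_lit 163867) (nat_lit 2) (.e (nat_lit 196670) (nat_lit 14) (.e (nat_lit 73754) (nat_lit 8) (.e (nat_lit 557105) (nat_lit 14) (.e (nat_lit 180251) (nat_lit 10) (.e (nat_lit 573478) (nat_lit 12) (.e (nat_lit 57344) (nat_lit 0) (.e (nat_lit 5585) (nat_lit 310) .nil)))))))) (.g (nat_lit 4) .nil .nil))))) (.nd (nat_lit 4) (.nd (nat_lit 5) 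
(.lf (nat_lit 249482) (.g (nat_lit 4170) (.e (nat_lit 163867) (nat_lit 2) (.e (nat_lit 196670) (nat_lit 14) (.e (nat_lit 73753) (nat_lit 8) (.e (nat_lit 557105) (nat_lit 14) (.e (nat_lit 180252) (nat_lit 10) (.e (nat_lit 573474) (nat_lit 12) (.e (nat_lit 57351) (nat_lit 0) (.e (nat_lit 5595) (nat_lit 310) .nil)))))))) (.g (nat_lit 5) .nil .nil))) 
(.lf (nat_lit 249514) (.g (nat_lit 2228) (.e (nat_lit 163867) (nat_lit 2) (.e (nat_lit 196670) (nat_lit 14) (.e (nat_lit 73754) (nat_lit 8) (.e (nat_lit 557105) (nat_lit 14) (.e (nat_lit 180251) (nat_lit 10) (.e (nat_lit 573477) (nat_lit 12) (.e (nat_lit 57353) (nat_lit 0) (.e (nat_lit 5584) (nat_lit 310) .nil)))))))) (.g (nat_lit 4) .nil .nil)))) (.nd (nat_lit 5) 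
(.lf (nat_lit 249498) (.g (nat_lit 3898) (.e (nat_lit 163867) (nat_lit 2) (.e (nat_lit 196670) (nat_lit 14) (.e (nat_lit 73753) (nat_lit 8) (.e (nat_lit 557105) (nat_lit 14) (.e (nat_lit 180252) (nat_lit 10) (.e (nat_lit 573474) (nat_lit 12) (.e (nat_lit 57360) (nat_lit 0) (.e (nat_lit 5599) (nat_lit 310) .nil)))))))) (.g (nat_lit 5) .nil .nil))) 
(.lf (nat_lit 249530) (.g (nat_lit 2288) (.e (nat_lit 163867) (nat_lit 2) (.e (nat_lit 196670) (nat_lit 14) (.e (nat_lit 73754) (nat_lit 8) (.e (nat_lit 557105) (nat_lit 14) (.e (nat_lit 180251) (nat_lit 10) (.e (nat_lit 573478) (nat_lit 12) (.e (nat_lit 57353) (nat_lit 0) (.e (nat_lit 5584) (nat_lit 310) .nil)))))))) (.g (nat_lit 4) .nil .nil)))))) 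
(.nd (nat_lit 3) (.nd (nat_lit 4) (.nd (nat_lit 5) 
(.lf (nat_lit 249478) (.g (nat_lit 2699) (.e (nat_lit 163867) (nat_lit 2) (.e (nat_lit 196670) (nat_lit 14) (.e (nat_lit 73753) (nat_lit 8) (.e (nat_lit 557105) (nat_lit 14) (.e (nat_lit 180252) (nat_lit 10) (.e (nat_lit 573474) (nat_lit 12) (.e (nat_lit 57348) (nat_lit 0) (.e (nat_lit 7936) (nat_lit 310) .nil)))))))) (.g (nat_lit 4) .nil .nil))) 
(.lf (nat_lit 249510) (.g (nat_lit 2561) (.e (nat_lit 163867) (nat_lit 2) (.e (nat_lit 196670) (nat_lit 14) (.e (nat_lit 73753) (nat_lit 8) (.e (nat_lit 557105) (nat_lit 14) (.e (nat_lit 180252) (nat_lit 10) (.e (nat_lit 573475) (nat_lit 12) (.e (nat_lit 57355) (nat_lit 0) (.e (nat_lit 5585) (nat_lit 310) .nil)))))))) (.g (nat_lit 4) .nil .nil)))) (.nd (nat_lit 5) 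
(.lf (nat_lit 249494) (.g (nat_lit 4113) (.e (nat_lit 163867) (nat_lit 2) (.e (nat_lit 196670) (nat_lit 14) (.e (nat_lit 73753) (nat_lit 8) (.e (nat_lit 557105) (nat_lit 14) (.e (nat_lit 180252) (nat_lit 10) (.e (nat_lit 573474) (nat_lit 12) (.e (nat_lit 57358) (nat_lit 0) (.e (nat_lit 5603) (nat_lit 310) .nil)))))))) (.g (nat_lit 5) .nil .nil))) 
(.lf (nat_lit 249526) (.g (nat_lit 2330) (.e (nat_lit 163867) (nat_lit 2) (.e (nat_lit 196670) (nat_lit 14) (.e (nat_lit 73754) (nat_lit 8) (.e (nat_lit 557105) (nat_lit 14) (.e (nat_lit 180251) (nat_lit 10) (.e (nat_lit 573478) (nat_lit 12) (.e (nat_lit 57344) (nat_lit 0) (.e (nat_lit 5601) (nat_lit 310) .nil)))))))) (.g (nat_lit 4) .nil .nil))))) (.nd (nat_lit 4) (.nd (nat_lit 5) 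
(.lf (nat_lit 249486) (.g (nat_lit 4755) (.e (nat_lit 163867) (nat_lit 2) (.e (nat_lit 196670) (nat_lit 14) (.e (nat_lit 73753) (nat_lit 8) (.e (nat_lit 557105) (nat_lit 14) (.e (nat_lit 180252) (nat_lit 10) (.e (nat_lit 573474) (nat_lit 12) (.e (nat_lit 57355) (nat_lit 0) (.e (nat_lit 5585) (nat_lit 310) .nil)))))))) (.g (nat_lit 6) .nil .nil))) 
(.lf (nat_lit 249518) (.g (nat_lit 3257) (.e (nat_lit 163867) (nat_lit 2) (.e (nat_lit 196670) (nat_lit 14) (.e (nat_lit 73754) (nat_lit 8) (.e (nat_lit 557105) (nat_lit 14) (.e (nat_lit 180251) (nat_lit 10) (.e (nat_lit 573477) (nat_lit 12) (.e (nat_lit 57360) (nat_lit 0) (.e (nat_lit 5599) (nat_lit 310) .nil)))))))) (.g (nat_lit 5) .nil .nil)))) (.nd (nat_lit 5) 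
(.lf (nat_lit 249502) (.g (nat_lit 2837) (.e (nat_lit 163867) (nat_lit 2) (.e (nat_lit 196670) (nat_lit 14) (.e (nat_lit 73753) (nat_lit 8) (.e (nat_lit 557105) (nat_lit 14) (.e (nat_lit 180252) (nat_lit 10) (.e (nat_lit 573475) (nat_lit 12) (.e (nat_lit 57344) (nat_lit 0) (.e (nat_lit 5596) (nat_lit 310) .nil)))))))) (.g (nat_lit 4) .nil .nil))) 
(.lf (nat_lit 249534) (.g (nat_lit 2113) (.e (nat_lit 163867) (nat_lit 2) (.e (nat_lit 196670) (nat_lit 14) (.e (nat_lit 73754) (nat_lit 8) (.e (nat_lit 557105) (nat_lit 14) (.e (nat_lit 180251) (nat_lit 10) (.e (nat_lit 573478) (nat_lit 12) (.e (nat_lit 57360) (nat_lit 0) (.e (nat_lit 5584) (nat_lit 310) .nil)))))))) (.g (nat_lit 4) .nil .nil)))))))) 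
(.nd (nat_lit 1) (.nd (nat_lit 2) (.nd (nat_lit 3) (.nd (nat_lit 4) (.nd (nat_lit 5) 
(.lf (nat_lit 249473) (.g (nat_lit 5663) (.e (nat_lit 163867) (nat_lit 2) (.e (nat_lit 196670) (nat_lit 14) (.e (nat_lit 73753) (nat_lit 8) (.e (nat_lit 557105) (nat_lit 14) (.e (nat_lit 180252) (nat_lit 10) (.e (nat_lit 573474) (nat_lit 12) (.e (nat_lit 57347) (nat_lit 0) (.e (nat_lit 5590) (nat_lit 310) .nil)))))))) (.g (nat_lit 7) .nil .nil))) 
(.lf (nat_lit 249505) (.g (nat_lit 2921) (.e (nat_lit 163867) (nat_lit 2) (.e (nat_lit 196670) (nat_lit 14) (.e (nat_lit 73753) (nat_lit 8) (.e (nat_lit 557105) (nat_lit 14) (.e (nat_lit 180252) (nat_lit 10) (.e (nat_lit 573475) (nat_lit 12) (.e (nat_lit 57347) (nat_lit 0) (.e (nat_lit 5590) (nat_lit 310) .nil)))))))) (.g (nat_lit 4) .nil .nil)))) (.nd (nat_lit 5) 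
(.lf (nat_lit 249489) (.g (nat_lit 3833) (.e (nat_lit 163867) (nat_lit 2) (.e (nat_lit 196670) (nat_lit 14) (.e (nat_lit 73753) (nat_lit 8) (.e (nat_lit 557105) (nat_lit 14) (.e (nat_lit 180252) (nat_lit 10) (.e (nat_lit 573474) (nat_lit 12) (.e (nat_lit 57356) (nat_lit 0) (.e (nat_lit 5600) (nat_lit 310) .nil)))))))) (.g (nat_lit 5) .nil .nil))) 
(.lf (nat_lit 249521) (.g (nat_lit 2424) (.e (nat_lit 163867) (nat_lit 2) (.e (nat_lit 196670) (nat_lit 14) (.e (nat_lit 73754) (nat_lit 8) (.e (nat_lit 557105) (nat_lit 14) (.e (nat_lit 180251) (nat_lit 10) (.e (nat_lit 573477) (nat_lit 12) (.e (nat_lit 65280) (nat_lit 0) (.e (nat_lit 5587) (nat_lit 310) .nil)))))))) (.g (nat_lit 4) .nil .nil))))) (.nd (nat_lit 4) (.nd (nat_lit 5) 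
(.lf (nat_lit 249481) (.g (nat_lit 4750) (.e (nat_lit 163867) (nat_lit 2) (.e (nat_lit 196670) (nat_lit 14) (.e (nat_lit 73753) (nat_lit 8) (.e (nat_lit 557105) (nat_lit 14) (.e (nat_lit 180252) (nat_lit 10) (.e (nat_lit 573474) (nat_lit 12) (.e (nat_lit 57351) (nat_lit 0) (.e (nat_lit 5584) (nat_lit 310) .nil)))))))) (.g (nat_lit 6) .nil .nil))) 
(.lf (nat_lit 249513) (.g (nat_lit 3325) (.e (nat_lit 163867) (nat_lit 2) (.e (nat_lit 196670) (nat_lit 14) (.e (nat_lit 73753) (nat_lit 8) (.e (nat_lit 557105) (nat_lit 14) (.e (nat_lit 180252) (nat_lit 10) (.e (nat_lit 573475) (nat_lit 12) (.e (nat_lit 57360) (nat_lit 0) (.e (nat_lit 5597) (nat_lit 310) .nil)))))))) (.g (nat_lit 5) .nil .nil)))) (.nd (nat_lit 5) 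
(.lf (nat_lit 249497) (.g (nat_lit 3668) (.e (nat_lit 163867) (nat_lit 2) (.e (nat_lit 196670) (nat_lit 14) (.e (nat_lit 73753) (nat_lit 8) (.e (nat_lit 557105) (nat_lit 14) (.e (nat_lit 180252) (nat_lit 10) (.e (nat_lit 573474) (nat_lit 12) (.e (nat_lit 57360) (nat_lit 0) (.e (nat_lit 5598) (nat_lit 310) .nil)))))))) (.g (nat_lit 5) .nil .nil))) 
(.lf (nat_lit 249529) (.g (nat_lit 1979) (.e (nat_lit 163867) (nat_lit 2) (.e (nat_lit 196670) (nat_lit 14) (.e (nat_lit 73754) (nat_lit 8) (.e (nat_lit 557105) (nat_lit 14) (.e (nat_lit 180251) (nat_lit 10) (.e (nat_lit 573478) (nat_lit 12) (.e (nat_lit 57351) (nat_lit 0) (.e (nat_lit 5595) (nat_lit 310) .nil)))))))) (.g (nat_lit 4) .nil .nil)))))) 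
(.nd (nat_lit 3) (.nd (nat_lit 4) (.nd (nat_lit 5) 
(.lf (nat_lit 249477) (.g (nat_lit 3969) (.e (nat_lit 163867) (nat_lit 2) (.e (nat_lit 196670) (nat_lit 14) (.e (nat_lit 73753) (nat_lit 8) (.e (nat_lit 557105) (nat_lit 14) (.e (nat_lit 180252) (nat_lit 10) (.e (nat_lit 573474) (nat_lit 12) (.e (nat_lit 57348) (nat_lit 0) (.e (nat_lit 5593) (nat_lit 310) .nil)))))))) (.g (nat_lit 5) .nil .nil))) 
(.lf (nat_lit 249509) (.g (nat_lit 2510) (.e (nat_lit 163867) (nat_lit 2) (.e (nat_lit 196670) (nat_lit 14) (.e (nat_lit 73753) (nat_lit 8) (.e (nat_lit 557105) (nat_lit 14) (.e (nat_lit 180252) (nat_lit 10) (.e (nat_lit 573475) (nat_lit 12) (.e (nat_lit 57351) (nat_lit 0) (.e (nat_lit 5595) (nat_lit 310) .nil)))))))) (.g (nat_lit 4) .nil .nil)))) (.nd (nat_lit 5) 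
(.lf (nat_lit 249493) (.g (nat_lit 3780) (.e (nat_lit 163867) (nat_lit 2) (.e (nat_lit 196670) (nat_lit 14) (.e (nat_lit 73753) (nat_lit 8) (.e (nat_lit 557105) (nat_lit 14) (.e (nat_lit 180252) (nat_lit 10) (.e (nat_lit 573474) (nat_lit 12) (.e (nat_lit 57358) (nat_lit 0) (.e (nat_lit 5601) (nat_lit 310) .nil)))))))) (.g (nat_lit 5) .nil .nil))) 
(.lf (nat_lit 249525) (.g (nat_lit 2747) (.e (nat_lit 163867) (nat_lit 2) (.e (nat_lit 196670) (nat_lit 14) (.e (nat_lit 73754) (nat_lit 8) (.e (nat_lit 557105) (nat_lit 14) (.e (nat_lit 180251) (nat_lit 10) (.e (nat_lit 573478) (nat_lit 12) (.e (nat_lit 57344) (nat_lit 0) (.e (nat_lit 5600) (nat_lit 310) .nil)))))))) (.g (nat_lit 5) .nil .nil))))) (.nd (nat_lit 4) (.nd (nat_lit 5) 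
(.lf (nat_lit 249485) (.g (nat_lit 3907) (.e (nat_lit 163867) (nat_lit 2) (.e (nat_lit 196670) (nat_lit 14) (.e (nat_lit 73753) (nat_lit 8) (.e (nat_lit 557105) (nat_lit 14) (.e (nat_lit 180252) (nat_lit 10) (.e (nat_lit 573474) (nat_lit 12) (.e (nat_lit 57355) (nat_lit 0) (.e (nat_lit 5584) (nat_lit 310) .nil)))))))) (.g (nat_lit 5) .nil .nil))) 
(.lf (nat_lit 249517) (.g (nat_lit 3005) (.e (nat_lit 163867) (nat_lit 2) (.e (nat_lit 196670) (nat_lit 14) (.e (nat_lit 73754) (nat_lit 8) (.e (nat_lit 557105) (nat_lit 14) (.e (nat_lit 180251) (nat_lit 10) (.e (nat_lit 573477) (nat_lit 12) (.e (nat_lit 57360) (nat_lit 0) (.e (nat_lit 5598) (nat_lit 310) .nil)))))))) (.g (nat_lit 5) .nil .nil)))) (.nd (nat_lit 5) 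
(.lf (nat_lit 249501) (.g (nat_lit 2857) (.e (nat_lit 163867) (nat_lit 2) (.e (nat_lit 196670) (nat_lit 14) (.e (nat_lit 73753) (nat_lit 8) (.e (nat_lit 557105) (nat_lit 14) (.e (nat_lit 180252) (nat_lit 10) (.e (nat_lit 573475) (nat_lit 12) (.e (nat_lit 57344) (nat_lit 0) (.e (nat_lit 5587) (nat_lit 310) .nil)))))))) (.g (nat_lit 4) .nil .nil))) 
(.lf (nat_lit 249533) (.g (nat_lit 2449) (.e (nat_lit 163867) (nat_lit 2) (.e (nat_lit 196670) (nat_lit 14) (.e (nat_lit 73754) (nat_lit 8) (.e (nat_lit 557105) (nat_lit 14) (.e (nat_lit 180251) (nat_lit 10) (.e (nat_lit 573478) (nat_lit 12) (.e (nat_lit 57356) (nat_lit 0) (.e (nat_lit 5603) (nat_lit 310) .nil)))))))) (.g (nat_lit 4) .nil .nil))))))) 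
(.nd (nat_lit 2) (.nd (nat_lit 3) (.nd (nat_lit 4) (.nd (nat_lit 5) 
(.lf (nat_lit 249475) (.g (nat_lit 5505) (.e (nat_lit 163867) (nat_lit 2) (.e (nat_lit 196670) (nat_lit 14) (.e (nat_lit 73753) (nat_lit 8) (.e (nat_lit 557105) (nat_lit 14) (.e (nat_lit 180252) (nat_lit 10) (.e (nat_lit 573474) (nat_lit 12) (.e (nat_lit 57347) (nat_lit 0) (.e (nat_lit 5595) (nat_lit 310) .nil)))))))) (.g (nat_lit 7) .nil .nil))) 
(.lf (nat_lit 249507) (.g (nat_lit 2977) (.e (nat_lit 163867) (nat_lit 2) (.e (nat_lit 196670) (nat_lit 14) (.e (nat_lit 73753) (nat_lit 8) (.e (nat_lit 557105) (nat_lit 14) (.e (nat_lit 180252) (nat_lit 10) (.e (nat_lit 573475) (nat_lit 12) (.e (nat_lit 57349) (nat_lit 0) (.e (nat_lit 5604) (nat_lit 310) .nil)))))))) (.g (nat_lit 4) .nil .nil)))) (.nd (nat_lit 5) 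
(.lf (nat_lit 249491) (.g (nat_lit 3831) (.e (nat_lit 163867) (nat_lit 2) (.e (nat_lit 196670) (nat_lit 14) (.e (nat_lit 73753) (nat_lit 8) (.e (nat_lit 557105) (nat_lit 14) (.e (nat_lit 180252) (nat_lit 10) (.e (nat_lit 573474) (nat_lit 12) (.e (nat_lit 57358) (nat_lit 0) (.e (nat_lit 5584) (nat_lit 310) .nil)))))))) (.g (nat_lit 5) .nil .nil))) 
(.lf (nat_lit 249523) (.g (nat_lit 2298) (.e (nat_lit 163867) (nat_lit 2) (.e (nat_lit 196670) (nat_lit 14) (.e (nat_lit 73754) (nat_lit 8) (.e (nat_lit 557105) (nat_lit 14) (.e (nat_lit 180251) (nat_lit 10) (.e (nat_lit 573478) (nat_lit 12) (.e (nat_lit 57344) (nat_lit 0) (.e (nat_lit 5587) (nat_lit 310) .nil)))))))) (.g (nat_lit 4) .nil .nil))))) (.nd (nat_lit 4) (.nd (nat_lit 5) 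
(.lf (nat_lit 249483) (.g (nat_lit 4699) (.e (nat_lit 163867) (nat_lit 2) (.e (nat_lit 196670) (nat_lit 14) (.e (nat_lit 73753) (nat_lit 8) (.e (nat_lit 557105) (nat_lit 14) (.e (nat_lit 180252) (nat_lit 10) (.e (nat_lit 573474) (nat_lit 12) (.e (nat_lit 57353) (nat_lit 0) (.e (nat_lit 5584) (nat_lit 310) .nil)))))))) (.g (nat_lit 6) .nil .nil))) 
(.lf (nat_lit 249515) (.g (nat_lit 2273) (.e (nat_lit 163867) (nat_lit 2) (.e (nat_lit 196670) (nat_lit 14) (.e (nat_lit 73754) (nat_lit 8) (.e (nat_lit 557105) (nat_lit 14) (.e (nat_lit 180251) (nat_lit 10) (.e (nat_lit 573477) (nat_lit 12) (.e (nat_lit 57360) (nat_lit 0) (.e (nat_lit 5584) (nat_lit 310) .nil)))))))) (.g (nat_lit 4) .nil .nil)))) (.nd (nat_lit 5) 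
(.lf (nat_lit 249499) (.g (nat_lit 4271) (.e (nat_lit 163867) (nat_lit 2) (.e (nat_lit 196670) (nat_lit 14) (.e (nat_lit 73753) (nat_lit 8) (.e (nat_lit 557105) (nat_lit 14) (.e (nat_lit 180252) (nat_lit 10) (.e (nat_lit 573474) (nat_lit 12) (.e (nat_lit 65280) (nat_lit 0) (.e (nat_lit 5587) (nat_lit 310) .nil)))))))) (.g (nat_lit 5) .nil .nil))) 
(.lf (nat_lit 249531) (.g (nat_lit 1838) (.e (nat_lit 163867) (nat_lit 2) (.e (nat_lit 196670) (nat_lit 14) (.e (nat_lit 73754) (nat_lit 8) (.e (nat_lit 557105) (nat_lit 14) (.e (nat_lit 180251) (nat_lit 10) (.e (nat_lit 573478) (nat_lit 12) (.e (nat_lit 57356) (nat_lit 0) (.e (nat_lit 5600) (nat_lit 310) .nil)))))))) (.g (nat_lit 4) .nil .nil)))))) 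
(.nd (nat_lit 3) (.nd (nat_lit 4) (.nd (nat_lit 5) 
(.lf (nat_lit 249479) (.g (nat_lit 4092) (.e (nat_lit 163867) (nat_lit 2) (.e (nat_lit 196670) (nat_lit 14) (.e (nat_lit 73753) (nat_lit 8) (.e (nat_lit 557105) (nat_lit 14) (.e (nat_lit 180252) (nat_lit 10) (.e (nat_lit 573474) (nat_lit 12) (.e (nat_lit 57349) (nat_lit 0) (.e (nat_lit 5590) (nat_lit 310) .nil)))))))) (.g (nat_lit 5) .nil .nil))) 
(.lf (nat_lit 249511) (.g (nat_lit 2738) (.e (nat_lit 163867) (nat_lit 2) (.e (nat_lit 196670) (nat_lit 14) (.e (nat_lit 73753) (nat_lit 8) (.e (nat_lit 557105) (nat_lit 14) (.e (nat_lit 180252) (nat_lit 10) (.e (nat_lit 573475) (nat_lit 12) (.e (nat_lit 57359) (nat_lit 0) (.e (nat_lit 5594) (nat_lit 310) .nil)))))))) (.g (nat_lit 4) .nil .nil)))) (.nd (nat_lit 5) 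
(.lf (nat_lit 249495) (.g (nat_lit 3800) (.e (nat_lit 163867) (nat_lit 2) (.e (nat_lit 196670) (nat_lit 14) (.e (nat_lit 73753) (nat_lit 8) (.e (nat_lit 557105) (nat_lit 14) (.e (nat_lit 180252) (nat_lit 10) (.e (nat_lit 573474) (nat_lit 12) (.e (nat_lit 57359) (nat_lit 0) (.e (nat_lit 5594) (nat_lit 310) .nil)))))))) (.g (nat_lit 5) .nil .nil))) 
(.lf (nat_lit 249527) (.g (nat_lit 2455) (.e (nat_lit 163867) (nat_lit 2) (.e (nat_lit 196670) (nat_lit 14) (.e (nat_lit 73754) (nat_lit 8) (.e (nat_lit 557105) (nat_lit 14) (.e (nat_lit 180251) (nat_lit 10) (.e (nat_lit 573478) (nat_lit 12) (.e (nat_lit 57344) (nat_lit 0) (.e (nat_lit 5603) (nat_lit 310) .nil)))))))) (.g (nat_lit 4) .nil .nil))))) (.nd (nat_lit 4) (.nd (nat_lit 5) 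
(.lf (nat_lit 249487) (.g (nat_lit 3931) (.e (nat_lit 163867) (nat_lit 2) (.e (nat_lit 196670) (nat_lit 14) (.e (nat_lit 73753) (nat_lit 8) (.e (nat_lit 557105) (nat_lit 14) (.e (nat_lit 180252) (nat_lit 10) (.e (nat_lit 573474) (nat_lit 12) (.e (nat_lit 57355) (nat_lit 0) (.e (nat_lit 5600) (nat_lit 310) .nil)))))))) (.g (nat_lit 5) .nil .nil))) 
(.lf (nat_lit 249519) (.g (nat_lit 2290) (.e (nat_lit 163867) (nat_lit 2) (.e (nat_lit 196670) (nat_lit 14) (.e (nat_lit 73754) (nat_lit 8) (.e (nat_lit 557105) (nat_lit 14) (.e (nat_lit 180251) (nat_lit 10) (.e (nat_lit 573477) (nat_lit 12) (.e (nat_lit 57361) (nat_lit 0) (.e (nat_lit 5596) (nat_lit 310) .nil)))))))) (.g (nat_lit 4) .nil .nil)))) (.nd (nat_lit 5) 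
(.lf (nat_lit 249503) (.g (nat_lit 3271) (.e (nat_lit 163867) (nat_lit 2) (.e (nat_lit 196670) (nat_lit 14) (.e (nat_lit 73753) (nat_lit 8) (.e (nat_lit 557105) (nat_lit 14) (.e (nat_lit 180252) (nat_lit 10) (.e (nat_lit 573475) (nat_lit 12) (.e (nat_lit 57344) (nat_lit 0) (.e (nat_lit 5600) (nat_lit 310) .nil)))))))) (.g (nat_lit 5) .nil .nil))) 
(.lf (nat_lit 249535) (.g (nat_lit 3097) (.e (nat_lit 163867) (nat_lit 2) (.e (nat_lit 196670) (nat_lit 14) (.e (nat_lit 73754) (nat_lit 8) (.e (nat_lit 557105) (nat_lit 14) (.e (nat_lit 180251) (nat_lit 10) (.e (nat_lit 573478) (nat_lit 12) (.e (nat_lit 57360) (nat_lit 0) (.e (nat_lit 5599) (nat_lit 310) .nil)))))))) (.g (nat_lit 5) .nil .nil)))))))))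

noncomputable def tv3230 : DT := (.nd (nat_lit 0) (.nd (nat_lit 1) (.nd (nat_lit 2) (.nd (nat_lit 3) (.nd (nat_lit 4) (.nd (nat_lit 5) 
(.lf (nat_lit 249536) (.g (nat_lit 3248) (.e (nat_lit 163867) (nat_lit 2) (.e (nat_lit 196670) (nat_lit 14) (.e (nat_lit 73754) (nat_lit 8) (.e (nat_lit 557105) (nat_lit 14) (.e (nat_lit 180252) (nat_lit 10) (.e (nat_lit 573449) (nat_lit 9) (.e (nat_lit 1175) (nat_lit 87) (.e (nat_lit 57924) (nat_lit 282) .nil)))))))) (.g (nat_lit 5) .nil .nil))) 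
(.lf (nat_lit 249568) (.g (nat_lit 4887) (.e (nat_lit 163867) (nat_lit 2) (.e (nat_lit 196670) (nat_lit 14) (.e (nat_lit 73754) (nat_lit 8) (.e (nat_lit 557105) (nat_lit 14) (.e (nat_lit 180252) (nat_lit 10) (.e (nat_lit 573474) (nat_lit 12) (.e (nat_lit 57355) (nat_lit 0) (.e (nat_lit 5585) (nat_lit 310) .nil)))))))) (.g (nat_lit 6) .nil .nil)))) (.nd (nat_lit 5) 
(.lf (nat_lit 249552) (.g (nat_lit 4089) (.e (nat_lit 163867) (nat_lit 2) (.e (nat_lit 196670) (nat_lit 14) (.e (nat_lit 73754) (nat_lit 8) (.e (nat_lit 557105) (nat_lit 14) (.e (nat_lit 180252) (nat_lit 10) (.e (nat_lit 573474) (nat_lit 12) (.e (nat_lit 57344) (nat_lit 0) (.e (nat_lit 5596) (nat_lit 310) .nil)))))))) (.g (nat_lit 5) .nil .nil))) 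
(.lf (nat_lit 249584) (.g (nat_lit 3844) (.e (nat_lit 163867) (nat_lit 2) (.e (nat_lit 196670) (nat_lit 14) (.e (nat_lit 73754) (nat_lit 8) (.e (nat_lit 557105) (nat_lit 14) (.e (nat_lit 180252) (nat_lit 10) (.e (nat_lit 573475) (nat_lit 12) (.e (nat_lit 57349) (nat_lit 0) (.e (nat_lit 5604) (nat_lit 310) .nil)))))))) (.g (nat_lit 6) .nil .nil))))) (.nd (nat_lit 4) (.nd (nat_lit 5) 
(.lf (nat_lit 249544) (.g (nat_lit 2948) (.e (nat_lit 163867) (nat_lit 2) (.e (nat_lit 196670) (nat_lit 14) (.e (nat_lit 73754) (nat_lit 8) (.e (nat_lit 557105) (nat_lit 14) (.e (nat_lit 180252) (nat_lit 10) (.e (nat_lit 573473) (nat_lit 12) (.e (nat_lit 57348) (nat_lit 0) (.e (nat_lit 5584) (nat_lit 310) .nil)))))))) (.g (nat_lit 5) .nil .nil))) 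
(.lf (nat_lit 249576) (.g (nat_lit 3862) (.e (nat_lit 163867) (nat_lit 2) (.e (nat_lit 196670) (nat_lit 14) (.e (nat_lit 73754) (nat_lit 8) (.e (nat_lit 557105) (nat_lit 14) (.e (nat_lit 180252) (nat_lit 10) (.e (nat_lit 573475) (nat_lit 12) (.e (nat_lit 57344) (nat_lit 0) (.e (nat_lit 5603) (nat_lit 310) .nil)))))))) (.g (nat_lit 6) .nil .nil)))) (.nd (nat_lit 5) 
(.lf (nat_lit 249560) (.g (nat_lit 5815) (.e (nat_lit 163867) (nat_lit 2) (.e (nat_lit 196670) (nat_lit 14) (.e (nat_lit 73754) (nat_lit 8) (.e (nat_lit 557105) (nat_lit 14) (.e (nat_lit 180252) (nat_lit 10) (.e (nat_lit 573474) (nat_lit 12) (.e (nat_lit 57347) (nat_lit 0) (.e (nat_lit 5590) (nat_lit 310) .nil)))))))) (.g (nat_lit 7) .nil .nil))) 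
(.lf (nat_lit 249592) (.g (nat_lit 3333) (.e (nat_lit 163867) (nat_lit 2) (.e (nat_lit 196670) (nat_lit 14) (.e (nat_lit 73754) (nat_lit 8) (.e (nat_lit 557105) (nat_lit 14) (.e (nat_lit 180252) (nat_lit 10) (.e (nat_lit 573475) (nat_lit 12) (.e (nat_lit 57356) (nat_lit 0) (.e (nat_lit 5600) (nat_lit 310) .nil)))))))) (.g (nat_lit 6) .nil .nil)))))) 
(.nd (nat_lit 3) (.nd (nat_lit 4) (.nd (nat_lit 5) 
(.lf (nat_lit 249540) (.g (nat_lit 3630) (.e (nat_lit 163867) (nat_lit 2) (.e (nat_lit 196670) (nat_lit 14) (.e (nat_lit 73754) (nat_lit 8) (.e (nat_lit 557105) (nat_lit 14) (.e (nat_lit 180252) (nat_lit 10) (.e (nat_lit 573458) (nat_lit 9) (.e (nat_lit 1178) (nat_lit 87) (.e (nat_lit 57931) (nat_lit 282) .nil)))))))) (.g (nat_lit 5) .nil .nil))) 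
(.lf (nat_lit 249572) (.g (nat_lit 3724) (.e (nat_lit 163867) (nat_lit 2) (.e (nat_lit 196670) (nat_lit 14) (.e (nat_lit 73754) (nat_lit 8) (.e (nat_lit 557105) (nat_lit 14) (.e (nat_lit 180252) (nat_lit 10) (.e (nat_lit 573475) (nat_lit 12) (.e (nat_lit 57344) (nat_lit 0) (.e (nat_lit 5587) (nat_lit 310) .nil)))))))) (.g (nat_lit 6) .nil .nil)))) (.nd (nat_lit 5) 
(.lf (nat_lit 249556) (.g (nat_lit 4073) (.e (nat_lit 163867) (nat_lit 2) (.e (nat_lit 196670) (nat_lit 14) (.e (nat_lit 73754) (nat_lit 8) (.e (nat_lit 557105) (nat_lit 14) (.e (nat_lit 180252) (nat_lit 10) (.e (nat_lit 573474) (nat_lit 12) (.e (nat_lit 57345) (nat_lit 0) (.e (nat_lit 5591) (nat_lit 310) .nil)))))))) (.g (nat_lit 5) .nil .nil))) 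
(.lf (nat_lit 249588) (.g (nat_lit 3428) (.e (nat_lit 163867) (nat_lit 2) (.e (nat_lit 196670) (nat_lit 14) (.e (nat_lit 73754) (nat_lit 8) (.e (nat_lit 557105) (nat_lit 14) (.e (nat_lit 180252) (nat_lit 10) (.e (nat_lit 573475) (nat_lit 12) (.e (nat_lit 57355) (nat_lit 0) (.e (nat_lit 5585) (nat_lit 310) .nil)))))))) (.g (nat_lit 6) .nil .nil))))) (.nd (nat_lit 4) (.nd (nat_lit 5) 
(.lf (nat_lit 249548) (.g (nat_lit 3243) (.e (nat_lit 163867) (nat_lit 2) (.e (nat_lit 196670) (nat_lit 14) (.e (nat_lit 73754) (nat_lit 8) (.e (nat_lit 557105) (nat_lit 14) (.e (nat_lit 180252) (nat_lit 10) (.e (nat_lit 573473) (nat_lit 12) (.e (nat_lit 57353) (nat_lit 0) (.e (nat_lit 5595) (nat_lit 310) .nil)))))))) (.g (nat_lit 5) .nil .nil))) 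
(.lf (nat_lit 249580) (.g (nat_lit 2918) (.e (nat_lit 163867) (nat_lit 2) (.e (nat_lit 196670) (nat_lit 14) (.e (nat_lit 73754) (nat_lit 8) (.e (nat_lit 557105) (nat_lit 14) (.e (nat_lit 180252) (nat_lit 10) (.e (nat_lit 573475) (nat_lit 12) (.e (nat_lit 57348) (nat_lit 0) (.e (nat_lit 5595) (nat_lit 310) .nil)))))))) (.g (nat_lit 5) .nil .nil)))) (.nd (nat_lit 5) 
(.lf (nat_lit 249564) (.g (nat_lit 4101) (.e (nat_lit 163867) (nat_lit 2) (.e (nat_lit 196670) (nat_lit 14) (.e (nat_lit 73754) (nat_lit 8) (.e (nat_lit 557105) (nat_lit 14) (.e (nat_lit 180252) (nat_lit 10) (.e (nat_lit 573474) (nat_lit 12) (.e (nat_lit 57348) (nat_lit 0) (.e (nat_lit 5593) (nat_lit 310) .nil)))))))) (.g (nat_lit 5) .nil .nil))) 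
(.lf (nat_lit 249596) (.g (nat_lit 3257) (.e (nat_lit 163867) (nat_lit 2) (.e (nat_lit 196670) (nat_lit 14) (.e (nat_lit 73754) (nat_lit 8) (.e (nat_lit 557105) (nat_lit 14) (.e (nat_lit 180252) (nat_lit 10) (.e (nat_lit 573475) (nat_lit 12) (.e (nat_lit 57360) (nat_lit 0) (.e (nat_lit 5584) (nat_lit 310) .nil)))))))) (.g (nat_lit 6) .nil .nil))))))) 
(.nd (nat_lit 2) (.nd (nat_lit 3) (.nd (nat_lit 4) (.nd (nat_lit 5) 
(.lf (nat_lit 249538) (.g (nat_lit 4278) (.e (nat_lit 163867) (nat_lit 2) (.e (nat_lit 196670) (nat_lit 14) (.e (nat_lit 73754) (nat_lit 8) (.e (nat_lit 557105) (nat_lit 14) (.e (nat_lit 180252) (nat_lit 10) (.e (nat_lit 573451) (nat_lit 9) (.e (nat_lit 1169) (nat_lit 87) (.e (nat_lit 57924) (nat_lit 282) .nil)))))))) (.g (nat_lit 6) .nil .nil))) 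
(.lf (nat_lit 249570) (.g (nat_lit 3174) (.e (nat_lit 163867) (nat_lit 2) (.e (nat_lit 196670) (nat_lit 14) (.e (nat_lit 73754) (nat_lit 8) (.e (nat_lit 557105) (nat_lit 14) (.e (nat_lit 180252) (nat_lit 10) (.e (nat_lit 573475) (nat_lit 12) (.e (nat_lit 57344) (nat_lit 0) (.e (nat_lit 5584) (nat_lit 310) .nil)))))))) (.g (nat_lit 6) .nil .nil)))) (.nd (nat_lit 5) 
(.lf (nat_lit 249554) (.g (nat_lit 4186) (.e (nat_lit 163867) (nat_lit 2) (.e (nat_lit 196670) (nat_lit 14) (.e (nat_lit 73754) (nat_lit 8) (.e (nat_lit 557105) (nat_lit 14) (.e (nat_lit 180252) (nat_lit 10) (.e (nat_lit 573474) (nat_lit 12) (.e (nat_lit 57344) (nat_lit 0) (.e (nat_lit 5601) (nat_lit 310) .nil)))))))) (.g (nat_lit 5) .nil .nil))) 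
(.lf (nat_lit 249586) (.g (nat_lit 2320) (.e (nat_lit 163867) (nat_lit 2) (.e (nat_lit 196670) (nat_lit 14) (.e (nat_lit 73754) (nat_lit 8) (.e (nat_lit 557105) (nat_lit 14) (.e (nat_lit 180252) (nat_lit 10) (.e (nat_lit 573475) (nat_lit 12) (.e (nat_lit 57351) (nat_lit 0) (.e (nat_lit 5604) (nat_lit 310) .nil)))))))) (.g (nat_lit 4) .nil .nil))))) (.nd (nat_lit 4) (.nd (nat_lit 5) 
(.lf (nat_lit 249546) (.g (nat_lit 3135) (.e (nat_lit 163867) (nat_lit 2) (.e (nat_lit 196670) (nat_lit 14) (.e (nat_lit 73754) (nat_lit 8) (.e (nat_lit 557105) (nat_lit 14) (.e (nat_lit 180252) (nat_lit 10) (.e (nat_lit 573473) (nat_lit 12) (.e (nat_lit 57352) (nat_lit 0) (.e (nat_lit 5595) (nat_lit 310) .nil)))))))) (.g (nat_lit 5) .nil .nil))) 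
(.lf (nat_lit 249578) (.g (nat_lit 2293) (.e (nat_lit 163867) (nat_lit 2) (.e (nat_lit 196670) (nat_lit 14) (.e (nat_lit 73754) (nat_lit 8) (.e (nat_lit 557105) (nat_lit 14) (.e (nat_lit 180252) (nat_lit 10) (.e (nat_lit 573475) (nat_lit 12) (.e (nat_lit 57345) (nat_lit 0) (.e (nat_lit 5593) (nat_lit 310) .nil)))))))) (.g (nat_lit 4) .nil .nil)))) (.nd (nat_lit 5) 
(.lf (nat_lit 249562) (.g (nat_lit 5680) (.e (nat_lit 163867) (nat_lit 2) (.e (nat_lit 196670) (nat_lit 14) (.e (nat_lit 73754) (nat_lit 8) (.e (nat_lit 557105) (nat_lit 14) (.e (nat_lit 180252) (nat_lit 10) (.e (nat_lit 573474) (nat_lit 12) (.e (nat_lit 57347) (nat_lit 0) (.e (nat_lit 5595) (nat_lit 310) .nil)))))))) (.g (nat_lit 7) .nil .nil))) 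
(.lf (nat_lit 249594) (.g (nat_lit 1968) (.e (nat_lit 163867) (nat_lit 2) (.e (nat_lit 196670) (nat_lit 14) (.e (nat_lit 73754) (nat_lit 8) (.e (nat_lit 557105) (nat_lit 14) (.e (nat_lit 180252) (nat_lit 10) (.e (nat_lit 573475) (nat_lit 12) (.e (nat_lit 57356) (nat_lit 0) (.e (nat_lit 5602) (nat_lit 310) .nil)))))))) (.g (nat_lit 4) .nil .nil)))))) 
(.nd (nat_lit 3) (.nd (nat_lit 4) (.nd (nat_lit 5) 
(.lf (nat_lit 249542) (.g (nat_lit 2305) (.e (nat_lit 163867) (nat_lit 2) (.e (nat_lit 196670) (nat_lit 14) (.e (nat_lit 73754) (nat_lit 8) (.e (nat_lit 557105) (nat_lit 14) (.e (nat_lit 180252) (nat_lit 10) (.e (nat_lit 573473) (nat_lit 12) (.e (nat_lit 57345) (nat_lit 0) (.e (nat_lit 5590) (nat_lit 310) .nil)))))))) (.g (nat_lit 4) .nil .nil))) 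
(.lf (nat_lit 249574) (.g (nat_lit 3704) (.e (nat_lit 163867) (nat_lit 2) (.e (nat_lit 196670) (nat_lit 14) (.e (nat_lit 73754) (nat_lit 8) (.e (nat_lit 557105) (nat_lit 14) (.e (nat_lit 180252) (nat_lit 10) (.e (nat_lit 573475) (nat_lit 12) (.e (nat_lit 57344) (nat_lit 0) (.e (nat_lit 5596) (nat_lit 310) .nil)))))))) (.g (nat_lit 6) .nil .nil)))) (.nd (nat_lit 5) 
(.lf (nat_lit 249558) (.g (nat_lit 5094) (.e (nat_lit 163867) (nat_lit 2) (.e (nat_lit 196670) (nat_lit 14) (.e (nat_lit 73754) (nat_lit 8) (.e (nat_lit 557105) (nat_lit 14) (.e (nat_lit 180252) (nat_lit 10) (.e (nat_lit 573474) (nat_lit 12) (.e (nat_lit 57346) (nat_lit 0) (.e (nat_lit 5582) (nat_lit 310) .nil)))))))) (.g (nat_lit 6) .nil .nil))) 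
(.lf (nat_lit 249590) (.g (nat_lit 2255) (.e (nat_lit 163867) (nat_lit 2) (.e (nat_lit 196670) (nat_lit 14) (.e (nat_lit 73754) (nat_lit 8) (.e (nat_lit 557105) (nat_lit 14) (.e (nat_lit 180252) (nat_lit 10) (.e (nat_lit 573475) (nat_lit 12) (.e (nat_lit 57355) (nat_lit 0) (.e (nat_lit 5601) (nat_lit 310) .nil)))))))) (.g (nat_lit 4) .nil .nil))))) (.nd (nat_lit 4) (.nd (nat_lit 5) 
(.lf (nat_lit 249550) (.g (nat_lit 4068) (.e (nat_lit 163867) (nat_lit 2) (.e (nat_lit 196670) (nat_lit 14) (.e (nat_lit 73754) (nat_lit 8) (.e (nat_lit 557105) (nat_lit 14) (.e (nat_lit 180252) (nat_lit 10) (.e (nat_lit 573474) (nat_lit 12) (.e (nat_lit 57344) (nat_lit 0) (.e (nat_lit 5585) (nat_lit 310) .nil)))))))) (.g (nat_lit 5) .nil .nil))) 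
(.lf (nat_lit 249582) (.g (nat_lit 3338) (.e (nat_lit 163867) (nat_lit 2) (.e (nat_lit 196670) (nat_lit 14) (.e (nat_lit 73754) (nat_lit 8) (.e (nat_lit 557105) (nat_lit 14) (.e (nat_lit 180252) (nat_lit 10) (.e (nat_lit 573475) (nat_lit 12) (.e (nat_lit 57349) (nat_lit 0) (.e (nat_lit 5590) (nat_lit 310) .nil)))))))) (.g (nat_lit 6) .nil .nil)))) (.nd (nat_lit 5) 
(.lf (nat_lit 249566) (.g (nat_lit 4345) (.e (nat_lit 163867) (nat_lit 2) (.e (nat_lit 196670) (nat_lit 14) (.e (nat_lit 73754) (nat_lit 8) (.e (nat_lit 557105) (nat_lit 14) (.e (nat_lit 180252) (nat_lit 10) (.e (nat_lit 573474) (nat_lit 12) (.e (nat_lit 57351) (nat_lit 0) (.e (nat_lit 5595) (nat_lit 310) .nil)))))))) (.g (nat_lit 5) .nil .nil))) 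
(.lf (nat_lit 249598) (.g (nat_lit 3980) (.e (nat_lit 163867) (nat_lit 2) (.e (nat_lit 196670) (nat_lit 14) (.e (nat_lit 73754) (nat_lit 8) (.e (nat_lit 557105) (nat_lit 14) (.e (nat_lit 180252) (nat_lit 10) (.e (nat_lit 573475) (nat_lit 12) (.e (nat_lit 57360) (nat_lit 0) (.e (nat_lit 5598) (nat_lit 310) .nil)))))))) (.g (nat_lit 6) .nil .nil)))))))) 
(.nd (nat_lit 1) (.nd (nat_lit 2) (.nd (nat_lit 3) (.nd (nat_lit 4) (.nd (nat_lit 5) 
(.lf (nat_lit 249537) (.g (nat_lit 3353) (.e (nat_lit 163867) (nat_lit 2) (.e (nat_lit 196670) (nat_lit 14) (.e (nat_lit 73754) (nat_lit 8) (.e (nat_lit 557105) (nat_lit 14) (.e (nat_lit 180252) (nat_lit 10) (.e (nat_lit 573449) (nat_lit 9) (.e (nat_lit 1183) (nat_lit 87) (.e (nat_lit 57924) (nat_lit 282) .nil)))))))) (.g (nat_lit 5) .nil .nil))) 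
(.lf (nat_lit 249569) (.g (nat_lit 2782) (.e (nat_lit 163867) (nat_lit 2) (.e (nat_lit 196670) (nat_lit 14) (.e (nat_lit 73754) (nat_lit 8) (.e (nat_lit 557105) (nat_lit 14) (.e (nat_lit 180252) (nat_lit 10) (.e (nat_lit 573475) (nat_lit 12) (.e (nat_lit 57344) (nat_lit 0) (.e (nat_lit 5581) (nat_lit 310) .nil)))))))) (.g (nat_lit 5) .nil .nil)))) (.nd (nat_lit 5) 
(.lf (nat_lit 249553) (.g (nat_lit 4666) (.e (nat_lit 163867) (nat_lit 2) (.e (nat_lit 196670) (nat_lit 14) (.e (nat_lit 73754) (nat_lit 8) (.e (nat_lit 557105) (nat_lit 14) (.e (nat_lit 180252) (nat_lit 10) (.e (nat_lit 573474) (nat_lit 12) (.e (nat_lit 57344) (nat_lit 0) (.e (nat_lit 5600) (nat_lit 310) .nil)))))))) (.g (nat_lit 6) .nil .nil))) 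
(.lf (nat_lit 249585) (.g (nat_lit 3420) (.e (nat_lit 163867) (nat_lit 2) (.e (nat_lit 196670) (nat_lit 14) (.e (nat_lit 73754) (nat_lit 8) (.e (nat_lit 557105) (nat_lit 14) (.e (nat_lit 180252) (nat_lit 10) (.e (nat_lit 573475) (nat_lit 12) (.e (nat_lit 57351) (nat_lit 0) (.e (nat_lit 5595) (nat_lit 310) .nil)))))))) (.g (nat_lit 6) .nil .nil))))) (.nd (nat_lit 4) (.nd (nat_lit 5) 
(.lf (nat_lit 249545) (.g (nat_lit 3542) (.e (nat_lit 163867) (nat_lit 2) (.e (nat_lit 196670) (nat_lit 14) (.e (nat_lit 73754) (nat_lit 8) (.e (nat_lit 557105) (nat_lit 14) (.e (nat_lit 180252) (nat_lit 10) (.e (nat_lit 573473) (nat_lit 12) (.e (nat_lit 57350) (nat_lit 0) (.e (nat_lit 5581) (nat_lit 310) .nil)))))))) (.g (nat_lit 6) .nil .nil))) 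
(.lf (nat_lit 249577) (.g (nat_lit 2725) (.e (nat_lit 163867) (nat_lit 2) (.e (nat_lit 196670) (nat_lit 14) (.e (nat_lit 73754) (nat_lit 8) (.e (nat_lit 557105) (nat_lit 14) (.e (nat_lit 180252) (nat_lit 10) (.e (nat_lit 573475) (nat_lit 12) (.e (nat_lit 57345) (nat_lit 0) (.e (nat_lit 5582) (nat_lit 310) .nil)))))))) (.g (nat_lit 5) .nil .nil)))) (.nd (nat_lit 5) 
(.lf (nat_lit 249561) (.g (nat_lit 5318) (.e (nat_lit 163867) (nat_lit 2) (.e (nat_lit 196670) (nat_lit 14) (.e (nat_lit 73754) (nat_lit 8) (.e (nat_lit 557105) (nat_lit 14) (.e (nat_lit 180252) (nat_lit 10) (.e (nat_lit 573474) (nat_lit 12) (.e (nat_lit 57347) (nat_lit 0) (.e (nat_lit 5591) (nat_lit 310) .nil)))))))) (.g (nat_lit 7) .nil .nil))) 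
(.lf (nat_lit 249593) (.g (nat_lit 3849) (.e (nat_lit 163867) (nat_lit 2) (.e (nat_lit 196670) (nat_lit 14) (.e (nat_lit 73754) (nat_lit 8) (.e (nat_lit 557105) (nat_lit 14) (.e (nat_lit 180252) (nat_lit 10) (.e (nat_lit 573475) (nat_lit 12) (.e (nat_lit 57356) (nat_lit 0) (.e (nat_lit 5601) (nat_lit 310) .nil)))))))) (.g (nat_lit 6) .nil .nil)))))) 
(.nd (nat_lit 3) (.nd (nat_lit 4) (.nd (nat_lit 5) 
(.lf (nat_lit 249541) (.g (nat_lit 3673) (.e (nat_lit 163867) (nat_lit 2) (.e (nat_lit 196670) (nat_lit 14) (.e (nat_lit 73754) (nat_lit 8) (.e (nat_lit 557105) (nat_lit 14) (.e (nat_lit 180252) (nat_lit 10) (.e (nat_lit 573459) (nat_lit 9) (.e (nat_lit 1181) (nat_lit 87) (.e (nat_lit 57931) (nat_lit 282) .nil)))))))) (.g (nat_lit 5) .nil .nil))) 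
(.lf (nat_lit 249573) (.g (nat_lit 1942) (.e (nat_lit 163867) (nat_lit 2) (.e (nat_lit 196670) (nat_lit 14) (.e (nat_lit 73754) (nat_lit 8) (.e (nat_lit 557105) (nat_lit 14) (.e (nat_lit 180252) (nat_lit 10) (.e (nat_lit 573475) (nat_lit 12) (.e (nat_lit 57344) (nat_lit 0) (.e (nat_lit 5591) (nat_lit 310) .nil)))))))) (.g (nat_lit 4) .nil .nil)))) (.nd (nat_lit 5) 
(.lf (nat_lit 249557) (.g (nat_lit 4363) (.e (nat_lit 163867) (nat_lit 2) (.e (nat_lit 196670) (nat_lit 14) (.e (nat_lit 73754) (nat_lit 8) (.e (nat_lit 557105) (nat_lit 14) (.e (nat_lit 180252) (nat_lit 10) (.e (nat_lit 573474) (nat_lit 12) (.e (nat_lit 57345) (nat_lit 0) (.e (nat_lit 5595) (nat_lit 310) .nil)))))))) (.g (nat_lit 5) .nil .nil))) 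
(.lf (nat_lit 249589) (.g (nat_lit 2256) (.e (nat_lit 163867) (nat_lit 2) (.e (nat_lit 196670) (nat_lit 14) (.e (nat_lit 73754) (nat_lit 8) (.e (nat_lit 557105) (nat_lit 14) (.e (nat_lit 180252) (nat_lit 10) (.e (nat_lit 573475) (nat_lit 12) (.e (nat_lit 57355) (nat_lit 0) (.e (nat_lit 5596) (nat_lit 310) .nil)))))))) (.g (nat_lit 4) .nil .nil))))) (.nd (nat_lit 4) (.nd (nat_lit 5) 
(.lf (nat_lit 249549) (.g (nat_lit 3163) (.e (nat_lit 163867) (nat_lit 2) (.e (nat_lit 196670) (nat_lit 14) (.e (nat_lit 73754) (nat_lit 8) (.e (nat_lit 557105) (nat_lit 14) (.e (nat_lit 180252) (nat_lit 10) (.e (nat_lit 573473) (nat_lit 12) (.e (nat_lit 65280) (nat_lit 0) (.e (nat_lit 5587) (nat_lit 310) .nil)))))))) (.g (nat_lit 5) .nil .nil))) 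
(.lf (nat_lit 249581) (.g (nat_lit 3636) (.e (nat_lit 163867) (nat_lit 2) (.e (nat_lit 196670) (nat_lit 14) (.e (nat_lit 73754) (nat_lit 8) (.e (nat_lit 557105) (nat_lit 14) (.e (nat_lit 180252) (nat_lit 10) (.e (nat_lit 573475) (nat_lit 12) (.e (nat_lit 57349) (nat_lit 0) (.e (nat_lit 5584) (nat_lit 310) .nil)))))))) (.g (nat_lit 6) .nil .nil)))) (.nd (nat_lit 5) 
(.lf (nat_lit 249565) (.g (nat_lit 4928) (.e (nat_lit 163867) (nat_lit 2) (.e (nat_lit 196670) (nat_lit 14) (.e (nat_lit 73754) (nat_lit 8) (.e (nat_lit 557105) (nat_lit 14) (.e (nat_lit 180252) (nat_lit 10) (.e (nat_lit 573474) (nat_lit 12) (.e (nat_lit 57351) (nat_lit 0) (.e (nat_lit 5584) (nat_lit 310) .nil)))))))) (.g (nat_lit 6) .nil .nil))) 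
(.lf (nat_lit 249597) (.g (nat_lit 3819) (.e (nat_lit 163867) (nat_lit 2) (.e (nat_lit 196670) (nat_lit 14) (.e (nat_lit 73754) (nat_lit 8) (.e (nat_lit 557105) (nat_lit 14) (.e (nat_lit 180252) (nat_lit 10) (.e (nat_lit 573475) (nat_lit 12) (.e (nat_lit 57360) (nat_lit 0) (.e (nat_lit 5596) (nat_lit 310) .nil)))))))) (.g (nat_lit 6) .nil .nil))))))) 
(.nd (nat_lit 2) (.nd (nat_lit 3) (.nd (nat_lit 4) (.nd (nat_lit 5) 
(.lf (nat_lit 249539) (.g (nat_lit 4469) (.e (nat_lit 163867) (nat_lit 2) (.e (nat_lit 196670) (nat_lit 14) (.e (nat_lit 73754) (nat_lit 8) (.e (nat_lit 557105) (nat_lit 14) (.e (nat_lit 180252) (nat_lit 10) (.e (nat_lit 573451) (nat_lit 9) (.e (nat_lit 1175) (nat_lit 87) (.e (nat_lit 57925) (nat_lit 282) .nil)))))))) (.g (nat_lit 6) .nil .nil))) 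
(.lf (nat_lit 249571) (.g (nat_lit 3568) (.e (nat_lit 163867) (nat_lit 2) (.e (nat_lit 196670) (nat_lit 14) (.e (nat_lit 73754) (nat_lit 8) (.e (nat_lit 557105) (nat_lit 14) (.e (nat_lit 180252) (nat_lit 10) (.e (nat_lit 573475) (nat_lit 12) (.e (nat_lit 57344) (nat_lit 0) (.e (nat_lit 5585) (nat_lit 310) .nil)))))))) (.g (nat_lit 6) .nil .nil)))) (.nd (nat_lit 5) 
(.lf (nat_lit 249555) (.g (nat_lit 4073) (.e (nat_lit 163867) (nat_lit 2) (.e (nat_lit 196670) (nat_lit 14) (.e (nat_lit 73754) (nat_lit 8) (.e (nat_lit 557105) (nat_lit 14) (.e (nat_lit 180252) (nat_lit 10) (.e (nat_lit 573474) (nat_lit 12) (.e (nat_lit 57344) (nat_lit 0) (.e (nat_lit 5603) (nat_lit 310) .nil)))))))) (.g (nat_lit 5) .nil .nil))) 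
(.lf (nat_lit 249587) (.g (nat_lit 2282) (.e (nat_lit 163867) (nat_lit 2) (.e (nat_lit 196670) (nat_lit 14) (.e (nat_lit 73754) (nat_lit 8) (.e (nat_lit 557105) (nat_lit 14) (.e (nat_lit 180252) (nat_lit 10) (.e (nat_lit 573475) (nat_lit 12) (.e (nat_lit 57353) (nat_lit 0) (.e (nat_lit 5595) (nat_lit 310) .nil)))))))) (.g (nat_lit 4) .nil .nil))))) (.nd (nat_lit 4) (.nd (nat_lit 5) 
(.lf (nat_lit 249547) (.g (nat_lit 3830) (.e (nat_lit 163867) (nat_lit 2) (.e (nat_lit 196670) (nat_lit 14) (.e (nat_lit 73754) (nat_lit 8) (.e (nat_lit 557105) (nat_lit 14) (.e (nat_lit 180252) (nat_lit 10) (.e (nat_lit 573473) (nat_lit 12) (.e (nat_lit 57353) (nat_lit 0) (.e (nat_lit 5584) (nat_lit 310) .nil)))))))) (.g (nat_lit 6) .nil .nil))) 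
(.lf (nat_lit 249579) (.g (nat_lit 3965) (.e (nat_lit 163867) (nat_lit 2) (.e (nat_lit 196670) (nat_lit 14) (.e (nat_lit 73754) (nat_lit 8) (.e (nat_lit 557105) (nat_lit 14) (.e (nat_lit 180252) (nat_lit 10) (.e (nat_lit 573475) (nat_lit 12) (.e (nat_lit 57346) (nat_lit 0) (.e (nat_lit 5582) (nat_lit 310) .nil)))))))) (.g (nat_lit 6) .nil .nil)))) (.nd (nat_lit 5) 
(.lf (nat_lit 249563) (.g (nat_lit 5210) (.e (nat_lit 163867) (nat_lit 2) (.e (nat_lit 196670) (nat_lit 14) (.e (nat_lit 73754) (nat_lit 8) (.e (nat_lit 557105) (nat_lit 14) (.e (nat_lit 180252) (nat_lit 10) (.e (nat_lit 573474) (nat_lit 12) (.e (nat_lit 57348) (nat_lit 0) (.e (nat_lit 5591) (nat_lit 310) .nil)))))))) (.g (nat_lit 7) .nil .nil))) 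
(.lf (nat_lit 249595) (.g (nat_lit 3605) (.e (nat_lit 163867) (nat_lit 2) (.e (nat_lit 196670) (nat_lit 14) (.e (nat_lit 73754) (nat_lit 8) (.e (nat_lit 557105) (nat_lit 14) (.e (nat_lit 180252) (nat_lit 10) (.e (nat_lit 573475) (nat_lit 12) (.e (nat_lit 57359) (nat_lit 0) (.e (nat_lit 5594) (nat_lit 310) .nil)))))))) (.g (nat_lit 6) .nil .nil)))))) 
(.nd (nat_lit 3) (.nd (nat_lit 4) (.nd (nat_lit 5) 
(.lf (nat_lit 249543) (.g (nat_lit 2293) (.e (nat_lit 163867) (nat_lit 2) (.e (nat_lit 196670) (nat_lit 14) (.e (nat_lit 73754) (nat_lit 8) (.e (nat_lit 557105) (nat_lit 14) (.e (nat_lit 180252) (nat_lit 10) (.e (nat_lit 573473) (nat_lit 12) (.e (nat_lit 57345) (nat_lit 0) (.e (nat_lit 5595) (nat_lit 310) .nil)))))))) (.g (nat_lit 4) .nil .nil))) 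
(.lf (nat_lit 249575) (.g (nat_lit 3756) (.e (nat_lit 163867) (nat_lit 2) (.e (nat_lit 196670) (nat_lit 14) (.e (nat_lit 73754) (nat_lit 8) (.e (nat_lit 557105) (nat_lit 14) (.e (nat_lit 180252) (nat_lit 10) (.e (nat_lit 573475) (nat_lit 12) (.e (nat_lit 57344) (nat_lit 0) (.e (nat_lit 5601) (nat_lit 310) .nil)))))))) (.g (nat_lit 6) .nil .nil)))) (.nd (nat_lit 5) 
(.lf (nat_lit 249559) (.g (nat_lit 5809) (.e (nat_lit 163867) (nat_lit 2) (.e (nat_lit 196670) (nat_lit 14) (.e (nat_lit 73754) (nat_lit 8) (.e (nat_lit 557105) (nat_lit 14) (.e (nat_lit 180252) (nat_lit 10) (.e (nat_lit 573474) (nat_lit 12) (.e (nat_lit 57347) (nat_lit 0) (.e (nat_lit 5584) (nat_lit 310) .nil)))))))) (.g (nat_lit 7) .nil .nil))) 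
(.lf (nat_lit 249591) (.g (nat_lit 2839) (.e (nat_lit 163867) (nat_lit 2) (.e (nat_lit 196670) (nat_lit 14) (.e (nat_lit 73754) (nat_lit 8) (.e (nat_lit 557105) (nat_lit 14) (.e (nat_lit 180252) (nat_lit 10) (.e (nat_lit 573475) (nat_lit 12) (.e (nat_lit 57355) (nat_lit 0) (.e (nat_lit 5603) (nat_lit 310) .nil)))))))) (.g (nat_lit 5) .nil .nil))))) (.nd (nat_lit 4) (.nd (nat_lit 5) 
(.lf (nat_lit 249551) (.g (nat_lit 4119) (.e (nat_lit 163867) (nat_lit 2) (.e (nat_lit 196670) (nat_lit 14) (.e (nat_lit 73754) (nat_lit 8) (.e (nat_lit 557105) (nat_lit 14) (.e (nat_lit 180252) (nat_lit 10) (.e (nat_lit 573474) (nat_lit 12) (.e (nat_lit 57344) (nat_lit 0) (.e (nat_lit 5587) (nat_lit 310) .nil)))))))) (.g (nat_lit 5) .nil .nil))) 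
(.lf (nat_lit 249583) (.g (nat_lit 3206) (.e (nat_lit 163867) (nat_lit 2) (.e (nat_lit 196670) (nat_lit 14) (.e (nat_lit 73754) (nat_lit 8) (.e (nat_lit 557105) (nat_lit 14) (.e (nat_lit 180252) (nat_lit 10) (.e (nat_lit 573475) (nat_lit 12) (.e (nat_lit 57349) (nat_lit 0) (.e (nat_lit 5595) (nat_lit 310) .nil)))))))) (.g (nat_lit 6) .nil .nil)))) (.nd (nat_lit 5) 
(.lf (nat_lit 249567) (.g (nat_lit 4877) (.e (nat_lit 163867) (nat_lit 2) (.e (nat_lit 196670) (nat_lit 14) (.e (nat_lit 73754) (nat_lit 8) (.e (nat_lit 557105) (nat_lit 14) (.e (nat_lit 180252) (nat_lit 10) (.e (nat_lit 573474) (nat_lit 12) (.e (nat_lit 57353) (nat_lit 0) (.e (nat_lit 5584) (nat_lit 310) .nil)))))))) (.g (nat_lit 6) .nil .nil))) 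
(.lf (nat_lit 249599) (.g (nat_lit 2864) (.e (nat_lit 163867) (nat_lit 2) (.e (nat_lit 196670) (nat_lit 14) (.e (nat_lit 73755) (nat_lit 8) (.e (nat_lit 557105) (nat_lit 14) (.e (nat_lit 180252) (nat_lit 10) (.e (nat_lit 573451) (nat_lit 9) (.e (nat_lit 1169) (nat_lit 87) (.e (nat_lit 57924) (nat_lit 282) .nil)))))))) (.g (nat_lit 4) .nil .nil)))))))))

noncomputable def tv3231 : DT := (.nd (nat_lit 0) (.nd (nat_lit 1) (.nd (nat_lit 2) (.nd (nat_lit 3) (.nd (nat_lit 4) (.nd (nat_lit 5) 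
(.lf (nat_lit 249600) (.g (nat_lit 3291) (.e (nat_lit 163867) (nat_lit 2) (.e (nat_lit 196670) (nat_lit 14) (.e (nat_lit 73755) (nat_lit 8) (.e (nat_lit 557105) (nat_lit 14) (.e (nat_lit 180252) (nat_lit 10) (.e (nat_lit 573451) (nat_lit 9) (.e (nat_lit 1175) (nat_lit 87) (.e (nat_lit 57924) (nat_lit 282) .nil)))))))) (.g (nat_lit 4) .nil .nil))) 
(.lf (nat_lit 249632) (.g (nat_lit 1980) (.e (nat_lit 163868) (nat_lit 2) (.e (nat_lit 196654) (nat_lit 11) (.e (nat_lit 16436) (nat_lit 9) (.e (nat_lit 426489) (nat_lit 27) (.e (nat_lit 336409) (nat_lit 27) .nil))))) .nil))) (.nd (nat_lit 5) 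
(.lf (nat_lit 249616) (.g (nat_lit 3597) (.e (nat_lit 163867) (nat_lit 2) (.e (nat_lit 196670) (nat_lit 14) (.e (nat_lit 73755) (nat_lit 8) (.e (nat_lit 557105) (nat_lit 14) (.e (nat_lit 180252) (nat_lit 10) (.e (nat_lit 573474) (nat_lit 12) (.e (nat_lit 57353) (nat_lit 0) (.e (nat_lit 5584) (nat_lit 310) .nil)))))))) (.g (nat_lit 4) .nil .nil))) 
(.lf (nat_lit 249648) (.g (nat_lit 2335) (.e (nat_lit 163868) (nat_lit 2) (.e (nat_lit 196663) (nat_lit 13) (.e (nat_lit 65574) (nat_lit 4) (.e (nat_lit 123197) (nat_lit 266) (.e (nat_lit 57445) (nat_lit 19) (.e (nat_lit 393237) (nat_lit 17) (.e (nat_lit 2450) (nat_lit 157) (.e (nat_lit 5968) (nat_lit 324) .nil)))))))) (.g (nat_lit 5) .nil .nil))))) (.nd (nat_lit 4) (.nd (nat_lit 5) 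
(.lf (nat_lit 249608) (.g (nat_lit 4529) (.e (nat_lit 163867) (nat_lit 2) (.e (nat_lit 196670) (nat_lit 14) (.e (nat_lit 73755) (nat_lit 8) (.e (nat_lit 557105) (nat_lit 14) (.e (nat_lit 180252) (nat_lit 10) (.e (nat_lit 573474) (nat_lit 12) (.e (nat_lit 57347) (nat_lit 0) (.e (nat_lit 5584) (nat_lit 310) .nil)))))))) (.g (nat_lit 6) .nil .nil))) 
(.lf (nat_lit 249640) (.g (nat_lit 3674) (.e (nat_lit 163868) (nat_lit 2) (.e (nat_lit 196656) (nat_lit 11) (.e (nat_lit 16432) (nat_lit 9) (.e (nat_lit 426566) (nat_lit 34) (.e (nat_lit 393253) (nat_lit 18) (.e (nat_lit 164325) (nat_lit 230) .nil)))))) (.g (nat_lit 6) .nil .nil)))) (.nd (nat_lit 5) 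
(.lf (nat_lit 249624) (.g (nat_lit 3120) (.e (nat_lit 163867) (nat_lit 2) (.e (nat_lit 196670) (nat_lit 14) (.e (nat_lit 73755) (nat_lit 8) (.e (nat_lit 557105) (nat_lit 14) (.e (nat_lit 180252) (nat_lit 10) (.e (nat_lit 573474) (nat_lit 12) (.e (nat_lit 65280) (nat_lit 0) (.e (nat_lit 5587) (nat_lit 310) .nil)))))))) (.g (nat_lit 4) .nil .nil))) 
(.lf (nat_lit 249656) (.g (nat_lit 3904) (.e (nat_lit 163868) (nat_lit 2) (.e (nat_lit 196668) (nat_lit 14) (.e (nat_lit 73753) (nat_lit 8) (.e (nat_lit 557103) (nat_lit 14) (.e (nat_lit 180250) (nat_lit 10) (.e (nat_lit 573473) (nat_lit 12) (.e (nat_lit 57348) (nat_lit 0) (.e (nat_lit 5593) (nat_lit 310) .nil)))))))) (.g (nat_lit 5) .nil .nil)))))) 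
(.nd (nat_lit 3) (.nd (nat_lit 4) (.nd (nat_lit 5) 
(.lf (nat_lit 249604) (.g (nat_lit 3055) (.e (nat_lit 163867) (nat_lit 2) (.e (nat_lit 196670) (nat_lit 14) (.e (nat_lit 73755) (nat_lit 8) (.e (nat_lit 557105) (nat_lit 14) (.e (nat_lit 180252) (nat_lit 10) (.e (nat_lit 573474) (nat_lit 12) (.e (nat_lit 57345) (nat_lit 0) (.e (nat_lit 5584) (nat_lit 310) .nil)))))))) (.g (nat_lit 4) .nil .nil))) 
(.lf (nat_lit 249636) (.g (nat_lit 1950) (.e (nat_lit 163868) (nat_lit 2) (.e (nat_lit 196655) (nat_lit 11) (.e (nat_lit 16465) (nat_lit 13) (.e (nat_lit 483341) (nat_lit 9) (.e (nat_lit 433920) (nat_lit 1) (.e (nat_lit 164326) (nat_lit 230) .nil)))))) (.g (nat_lit 4) .nil .nil)))) (.nd (nat_lit 5) 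
(.lf (nat_lit 249620) (.g (nat_lit 3205) (.e (nat_lit 163867) (nat_lit 2) (.e (nat_lit 196670) (nat_lit 14) (.e (nat_lit 73755) (nat_lit 8) (.e (nat_lit 557105) (nat_lit 14) (.e (nat_lit 180252) (nat_lit 10) (.e (nat_lit 573474) (nat_lit 12) (.e (nat_lit 57356) (nat_lit 0) (.e (nat_lit 5601) (nat_lit 310) .nil)))))))) (.g (nat_lit 4) .nil .nil))) 
(.lf (nat_lit 249652) (.g (nat_lit 1896) (.e (nat_lit 163868) (nat_lit 2) (.e (nat_lit 196665) (nat_lit 13) (.e (nat_lit 65625) (nat_lit 13) (.e (nat_lit 393229) (nat_lit 9) (.e (nat_lit 335986) (nat_lit 1) (.e (nat_lit 57927) (nat_lit 282) .nil)))))) (.g (nat_lit 4) .nil .nil))))) (.nd (nat_lit 4) (.nd (nat_lit 5) 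
(.lf (nat_lit 249612) (.g (nat_lit 4135) (.e (nat_lit 163867) (nat_lit 2) (.e (nat_lit 196670) (nat_lit 14) (.e (nat_lit 73755) (nat_lit 8) (.e (nat_lit 557105) (nat_lit 14) (.e (nat_lit 180252) (nat_lit 10) (.e (nat_lit 573474) (nat_lit 12) (.e (nat_lit 57348) (nat_lit 0) (.e (nat_lit 5595) (nat_lit 310) .nil)))))))) (.g (nat_lit 5) .nil .nil))) 
(.lf (nat_lit 249644) (.g (nat_lit 3154) (.e (nat_lit 163868) (nat_lit 2) (.e (nat_lit 196656) (nat_lit 11) (.e (nat_lit 16436) (nat_lit 9) (.e (nat_lit 426566) (nat_lit 34) (.e (nat_lit 393254) (nat_lit 18) (.e (nat_lit 164325) (nat_lit 230) .nil)))))) (.g (nat_lit 0) .nil .nil)))) (.nd (nat_lit 5) 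
(.lf (nat_lit 249628) (.g (nat_lit 2196) (.e (nat_lit 163868) (nat_lit 2) (.e (nat_lit 196624) (nat_lit 9) (.e (nat_lit 1615) (nat_lit 113) (.e (nat_lit 376865) (nat_lit 22) (.e (nat_lit 90185) (nat_lit 17) (.e (nat_lit 237582) (nat_lit 1) (.e (nat_lit 171776) (nat_lit 219) .nil))))))) (.g (nat_lit 4) .nil .nil))) 
(.lf (nat_lit 249660) (.g (nat_lit 3073) (.e (nat_lit 163868) (nat_lit 2) (.e (nat_lit 196668) (nat_lit 14) (.e (nat_lit 73753) (nat_lit 8) (.e (nat_lit 557103) (nat_lit 14) (.e (nat_lit 180250) (nat_lit 10) (.e (nat_lit 573474) (nat_lit 12) (.e (nat_lit 57348) (nat_lit 0) (.e (nat_lit 5584) (nat_lit 310) .nil)))))))) (.g (nat_lit 4) .nil .nil))))))) 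
(.nd (nat_lit 2) (.nd (nat_lit 3) (.nd (nat_lit 4) (.nd (nat_lit 5) 
(.lf (nat_lit 249602) (.g (nat_lit 3383) (.e (nat_lit 163867) (nat_lit 2) (.e (nat_lit 196670) (nat_lit 14) (.e (nat_lit 73755) (nat_lit 8) (.e (nat_lit 557105) (nat_lit 14) (.e (nat_lit 180252) (nat_lit 10) (.e (nat_lit 573474) (nat_lit 12) (.e (nat_lit 57344) (nat_lit 0) (.e (nat_lit 5600) (nat_lit 310) .nil)))))))) (.g (nat_lit 4) .nil .nil))) 
(.lf (nat_lit 249634) (.g (nat_lit 3812) (.e (nat_lit 163868) (nat_lit 2) (.e (nat_lit 196654) (nat_lit 11) (.e (nat_lit 16438) (nat_lit 9) (.e (nat_lit 426568) (nat_lit 34) (.e (nat_lit 393253) (nat_lit 18) (.e (nat_lit 164327) (nat_lit 230) .nil)))))) (.g (nat_lit 6) .nil .nil)))) (.nd (nat_lit 5) 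
(.lf (nat_lit 249618) (.g (nat_lit 4060) (.e (nat_lit 163867) (nat_lit 2) (.e (nat_lit 196670) (nat_lit 14) (.e (nat_lit 73755) (nat_lit 8) (.e (nat_lit 557105) (nat_lit 14) (.e (nat_lit 180252) (nat_lit 10) (.e (nat_lit 573474) (nat_lit 12) (.e (nat_lit 57354) (nat_lit 0) (.e (nat_lit 5601) (nat_lit 310) .nil)))))))) (.g (nat_lit 5) .nil .nil))) 
(.lf (nat_lit 249650) (.g (nat_lit 3092) (.e (nat_lit 163868) (nat_lit 2) (.e (nat_lit 196663) (nat_lit 13) (.e (nat_lit 65627) (nat_lit 13) (.e (nat_lit 393225) (nat_lit 9) (.e (nat_lit 335988) (nat_lit 1) (.e (nat_lit 57927) (nat_lit 282) .nil)))))) (.g (nat_lit 0) .nil .nil))))) (.nd (nat_lit 4) (.nd (nat_lit 5) 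
(.lf (nat_lit 249610) (.g (nat_lit 4141) (.e (nat_lit 163867) (nat_lit 2) (.e (nat_lit 196670) (nat_lit 14) (.e (nat_lit 73755) (nat_lit 8) (.e (nat_lit 557105) (nat_lit 14) (.e (nat_lit 180252) (nat_lit 10) (.e (nat_lit 573474) (nat_lit 12) (.e (nat_lit 57348) (nat_lit 0) (.e (nat_lit 5590) (nat_lit 310) .nil)))))))) (.g (nat_lit 5) .nil .nil))) 
(.lf (nat_lit 249642) (.g (nat_lit 3686) (.e (nat_lit 163868) (nat_lit 2) (.e (nat_lit 196656) (nat_lit 11) (.e (nat_lit 16436) (nat_lit 9) (.e (nat_lit 426566) (nat_lit 34) (.e (nat_lit 393251) (nat_lit 18) (.e (nat_lit 164325) (nat_lit 230) .nil)))))) (.g (nat_lit 0) .nil .nil)))) (.nd (nat_lit 5) 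
(.lf (nat_lit 249626) (.g (nat_lit 1550) (.e (nat_lit 163868) (nat_lit 2) (.e (nat_lit 196624) (nat_lit 9) (.e (nat_lit 1484) (nat_lit 108) (.e (nat_lit 336215) (nat_lit 13) (.e (nat_lit 393229) (nat_lit 9) .nil))))) .nil)) 
(.lf (nat_lit 249658) (.g (nat_lit 3199) (.e (nat_lit 163868) (nat_lit 2) (.e (nat_lit 196668) (nat_lit 14) (.e (nat_lit 73753) (nat_lit 8) (.e (nat_lit 557103) (nat_lit 14) (.e (nat_lit 180250) (nat_lit 10) (.e (nat_lit 573474) (nat_lit 12) (.e (nat_lit 57344) (nat_lit 0) (.e (nat_lit 5589) (nat_lit 310) .nil)))))))) (.g (nat_lit 4) .nil .nil)))))) 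
(.nd (nat_lit 3) (.nd (nat_lit 4) (.nd (nat_lit 5) 
(.lf (nat_lit 249606) (.g (nat_lit 3080) (.e (nat_lit 163867) (nat_lit 2) (.e (nat_lit 196670) (nat_lit 14) (.e (nat_lit 73755) (nat_lit 8) (.e (nat_lit 557105) (nat_lit 14) (.e (nat_lit 180252) (nat_lit 10) (.e (nat_lit 573474) (nat_lit 12) (.e (nat_lit 57345) (nat_lit 0) (.e (nat_lit 5595) (nat_lit 310) .nil)))))))) (.g (nat_lit 4) .nil .nil))) 
(.lf (nat_lit 249638) (.g (nat_lit 2102) (.e (nat_lit 163868) (nat_lit 2) (.e (nat_lit 196656) (nat_lit 11) (.e (nat_lit 16416) (nat_lit 3) (.e (nat_lit 204836) (nat_lit 20) .nil)))) .nil))) (.nd (nat_lit 5) 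
(.lf (nat_lit 249622) (.g (nat_lit 3409) (.e (nat_lit 163867) (nat_lit 2) (.e (nat_lit 196670) (nat_lit 14) (.e (nat_lit 73755) (nat_lit 8) (.e (nat_lit 557105) (nat_lit 14) (.e (nat_lit 180252) (nat_lit 10) (.e (nat_lit 573474) (nat_lit 12) (.e (nat_lit 57358) (nat_lit 0) (.e (nat_lit 5600) (nat_lit 310) .nil)))))))) (.g (nat_lit 4) .nil .nil))) 
(.lf (nat_lit 249654) (.g (nat_lit 2697) (.e (nat_lit 163868) (nat_lit 2) (.e (nat_lit 196665) (nat_lit 13) (.e (nat_lit 65626) (nat_lit 13) (.e (nat_lit 393225) (nat_lit 9) (.e (nat_lit 335988) (nat_lit 1) (.e (nat_lit 57927) (nat_lit 282) .nil)))))) (.g (nat_lit 5) .nil .nil))))) (.nd (nat_lit 4) (.nd (nat_lit 5) 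
(.lf (nat_lit 249614) (.g (nat_lit 3479) (.e (nat_lit 163867) (nat_lit 2) (.e (nat_lit 196670) (nat_lit 14) (.e (nat_lit 73755) (nat_lit 8) (.e (nat_lit 557105) (nat_lit 14) (.e (nat_lit 180252) (nat_lit 10) (.e (nat_lit 573474) (nat_lit 12) (.e (nat_lit 57349) (nat_lit 0) (.e (nat_lit 5604) (nat_lit 310) .nil)))))))) (.g (nat_lit 4) .nil .nil))) 
(.lf (nat_lit 249646) (.g (nat_lit 3075) (.e (nat_lit 163868) (nat_lit 2) (.e (nat_lit 196656) (nat_lit 11) (.e (nat_lit 16438) (nat_lit 9) (.e (nat_lit 426568) (nat_lit 34) (.e (nat_lit 393253) (nat_lit 18) (.e (nat_lit 164326) (nat_lit 230) .nil)))))) (.g (nat_lit 4) .nil .nil)))) (.nd (nat_lit 5) 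
(.lf (nat_lit 249630) (.g (nat_lit 1894) (.e (nat_lit 163868) (nat_lit 2) (.e (nat_lit 196651) (nat_lit 10) (.e (nat_lit 16128) (nat_lit 196) (.e (nat_lit 73746) (nat_lit 3) (.e (nat_lit 516172) (nat_lit 13) (.e (nat_lit 458771) (nat_lit 18) (.e (nat_lit 5968) (nat_lit 324) .nil))))))) (.g (nat_lit 4) .nil .nil))) 
(.lf (nat_lit 249662) (.g (nat_lit 2653) (.e (nat_lit 163868) (nat_lit 2) (.e (nat_lit 196668) (nat_lit 14) (.e (nat_lit 73753) (nat_lit 8) (.e (nat_lit 557103) (nat_lit 14) (.e (nat_lit 180250) (nat_lit 10) (.e (nat_lit 573475) (nat_lit 12) (.e (nat_lit 57344) (nat_lit 0) (.e (nat_lit 5588) (nat_lit 310) .nil)))))))) (.g (nat_lit 4) .nil .nil)))))))) 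
(.nd (nat_lit 1) (.nd (nat_lit 2) (.nd (nat_lit 3) (.nd (nat_lit 4) (.nd (nat_lit 5) 
(.lf (nat_lit 249601) (.g (nat_lit 3055) (.e (nat_lit 163867) (nat_lit 2) (.e (nat_lit 196670) (nat_lit 14) (.e (nat_lit 73755) (nat_lit 8) (.e (nat_lit 557105) (nat_lit 14) (.e (nat_lit 180252) (nat_lit 10) (.e (nat_lit 573451) (nat_lit 9) (.e (nat_lit 1175) (nat_lit 87) (.e (nat_lit 57925) (nat_lit 282) .nil)))))))) (.g (nat_lit 4) .nil .nil))) 
(.lf (nat_lit 249633) (.g (nat_lit 3408) (.e (nat_lit 163868) (nat_lit 2) (.e (nat_lit 196654) (nat_lit 11) (.e (nat_lit 16436) (nat_lit 9) (.e (nat_lit 426568) (nat_lit 34) (.e (nat_lit 393253) (nat_lit 18) (.e (nat_lit 164327) (nat_lit 230) .nil)))))) (.g (nat_lit 6) .nil .nil)))) (.nd (nat_lit 5) 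
(.lf (nat_lit 249617) (.g (nat_lit 3016) (.e (nat_lit 163867) (nat_lit 2) (.e (nat_lit 196670) (nat_lit 14) (.e (nat_lit 73755) (nat_lit 8) (.e (nat_lit 557105) (nat_lit 14) (.e (nat_lit 180252) (nat_lit 10) (.e (nat_lit 573474) (nat_lit 12) (.e (nat_lit 57353) (nat_lit 0) (.e (nat_lit 5595) (nat_lit 310) .nil)))))))) (.g (nat_lit 4) .nil .nil))) 
(.lf (nat_lit 249649) (.g (nat_lit 3700) (.e (nat_lit 163868) (nat_lit 2) (.e (nat_lit 196663) (nat_lit 13) (.e (nat_lit 65627) (nat_lit 13) (.e (nat_lit 393225) (nat_lit 9) (.e (nat_lit 335986) (nat_lit 1) (.e (nat_lit 57926) (nat_lit 282) .nil)))))) (.g (nat_lit 0) .nil .nil))))) (.nd (nat_lit 4) (.nd (nat_lit 5) 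
(.lf (nat_lit 249609) (.g (nat_lit 4036) (.e (nat_lit 163867) (nat_lit 2) (.e (nat_lit 196670) (nat_lit 14) (.e (nat_lit 73755) (nat_lit 8) (.e (nat_lit 557105) (nat_lit 14) (.e (nat_lit 180252) (nat_lit 10) (.e (nat_lit 573474) (nat_lit 12) (.e (nat_lit 57347) (nat_lit 0) (.e (nat_lit 5591) (nat_lit 310) .nil)))))))) (.g (nat_lit 5) .nil .nil))) 
(.lf (nat_lit 249641) (.g (nat_lit 3909) (.e (nat_lit 163868) (nat_lit 2) (.e (nat_lit 196656) (nat_lit 11) (.e (nat_lit 16435) (nat_lit 9) (.e (nat_lit 426566) (nat_lit 34) (.e (nat_lit 393253) (nat_lit 18) (.e (nat_lit 164325) (nat_lit 230) .nil)))))) (.g (nat_lit 0) .nil .nil)))) (.nd (nat_lit 5) 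
(.lf (nat_lit 249625) (.g (nat_lit 970) (.e (nat_lit 163868) (nat_lit 2) (.e (nat_lit 196624) (nat_lit 9) (.e (nat_lit 433) (nat_lit 32) (.e (nat_lit 426230) (nat_lit 9) .nil)))) .nil)) 
(.lf (nat_lit 249657) (.g (nat_lit 2574) (.e (nat_lit 163868) (nat_lit 2) (.e (nat_lit 196668) (nat_lit 14) (.e (nat_lit 73753) (nat_lit 8) (.e (nat_lit 557103) (nat_lit 14) (.e (nat_lit 180250) (nat_lit 10) (.e (nat_lit 573474) (nat_lit 12) (.e (nat_lit 57344) (nat_lit 0) (.e (nat_lit 5588) (nat_lit 310) .nil)))))))) (.g (nat_lit 4) .nil .nil)))))) 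
(.nd (nat_lit 3) (.nd (nat_lit 4) (.nd (nat_lit 5) 
(.lf (nat_lit 249605) (.g (nat_lit 3092) (.e (nat_lit 163867) (nat_lit 2) (.e (nat_lit 196670) (nat_lit 14) (.e (nat_lit 73755) (nat_lit 8) (.e (nat_lit 557105) (nat_lit 14) (.e (nat_lit 180252) (nat_lit 10) (.e (nat_lit 573474) (nat_lit 12) (.e (nat_lit 57345) (nat_lit 0) (.e (nat_lit 5590) (nat_lit 310) .nil)))))))) (.g (nat_lit 4) .nil .nil))) 
(.lf (nat_lit 249637) (.g (nat_lit 1833) (.e (nat_lit 163868) (nat_lit 2) (.e (nat_lit 196656) (nat_lit 11) (.e (nat_lit 16415) (nat_lit 3) (.e (nat_lit 204817) (nat_lit 17) .nil)))) .nil))) (.nd (nat_lit 5) 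
(.lf (nat_lit 249621) (.g (nat_lit 3139) (.e (nat_lit 163867) (nat_lit 2) (.e (nat_lit 196670) (nat_lit 14) (.e (nat_lit 73755) (nat_lit 8) (.e (nat_lit 557105) (nat_lit 14) (.e (nat_lit 180252) (nat_lit 10) (.e (nat_lit 573474) (nat_lit 12) (.e (nat_lit 57356) (nat_lit 0) (.e (nat_lit 5603) (nat_lit 310) .nil)))))))) (.g (nat_lit 4) .nil .nil))) 
(.lf (nat_lit 249653) (.g (nat_lit 2718) (.e (nat_lit 163868) (nat_lit 2) (.e (nat_lit 196665) (nat_lit 13) (.e (nat_lit 65626) (nat_lit 13) (.e (nat_lit 393225) (nat_lit 9) (.e (nat_lit 335986) (nat_lit 1) (.e (nat_lit 57927) (nat_lit 282) .nil)))))) (.g (nat_lit 5) .nil .nil))))) (.nd (nat_lit 4) (.nd (nat_lit 5) 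
(.lf (nat_lit 249613) (.g (nat_lit 3183) (.e (nat_lit 163867) (nat_lit 2) (.e (nat_lit 196670) (nat_lit 14) (.e (nat_lit 73755) (nat_lit 8) (.e (nat_lit 557105) (nat_lit 14) (.e (nat_lit 180252) (nat_lit 10) (.e (nat_lit 573474) (nat_lit 12) (.e (nat_lit 57349) (nat_lit 0) (.e (nat_lit 5584) (nat_lit 310) .nil)))))))) (.g (nat_lit 4) .nil .nil))) 
(.lf (nat_lit 249645) (.g (nat_lit 2679) (.e (nat_lit 163868) (nat_lit 2) (.e (nat_lit 196656) (nat_lit 11) (.e (nat_lit 16438) (nat_lit 9) (.e (nat_lit 426566) (nat_lit 34) (.e (nat_lit 393254) (nat_lit 18) .nil))))) .nil))) (.nd (nat_lit 5) 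
(.lf (nat_lit 249629) (.g (nat_lit 2873) (.e (nat_lit 163868) (nat_lit 2) (.e (nat_lit 196624) (nat_lit 9) (.e (nat_lit 1615) (nat_lit 113) (.e (nat_lit 376865) (nat_lit 22) (.e (nat_lit 90185) (nat_lit 17) (.e (nat_lit 237585) (nat_lit 1) (.e (nat_lit 171776) (nat_lit 219) .nil))))))) (.g (nat_lit 5) .nil .nil))) 
(.lf (nat_lit 249661) (.g (nat_lit 3778) (.e (nat_lit 163868) (nat_lit 2) (.e (nat_lit 196668) (nat_lit 14) (.e (nat_lit 73753) (nat_lit 8) (.e (nat_lit 557103) (nat_lit 14) (.e (nat_lit 180250) (nat_lit 10) (.e (nat_lit 573474) (nat_lit 12) (.e (nat_lit 57348) (nat_lit 0) (.e (nat_lit 5591) (nat_lit 310) .nil)))))))) (.g (nat_lit 5) .nil .nil))))))) 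
(.nd (nat_lit 2) (.nd (nat_lit 3) (.nd (nat_lit 4) (.nd (nat_lit 5) 
(.lf (nat_lit 249603) (.g (nat_lit 2903) (.e (nat_lit 163867) (nat_lit 2) (.e (nat_lit 196670) (nat_lit 14) (.e (nat_lit 73755) (nat_lit 8) (.e (nat_lit 557105) (nat_lit 14) (.e (nat_lit 180252) (nat_lit 10) (.e (nat_lit 573474) (nat_lit 12) (.e (nat_lit 57344) (nat_lit 0) (.e (nat_lit 5601) (nat_lit 310) .nil)))))))) (.g (nat_lit 4) .nil .nil))) 
(.lf (nat_lit 249635) (.g (nat_lit 614) (.e (nat_lit 163868) (nat_lit 2) (.e (nat_lit 196655) (nat_lit 11) (.e (nat_lit 16444) (nat_lit 9) (.e (nat_lit 426565) (nat_lit 34) .nil)))) .nil))) (.nd (nat_lit 5) 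
(.lf (nat_lit 249619) (.g (nat_lit 3604) (.e (nat_lit 163867) (nat_lit 2) (.e (nat_lit 196670) (nat_lit 14) (.e (nat_lit 73755) (nat_lit 8) (.e (nat_lit 557105) (nat_lit 14) (.e (nat_lit 180252) (nat_lit 10) (.e (nat_lit 573474) (nat_lit 12) (.e (nat_lit 57355) (nat_lit 0) (.e (nat_lit 5585) (nat_lit 310) .nil)))))))) (.g (nat_lit 4) .nil .nil))) 
(.lf (nat_lit 249651) (.g (nat_lit 1972) (.e (nat_lit 163868) (nat_lit 2) (.e (nat_lit 196665) (nat_lit 13) (.e (nat_lit 65569) (nat_lit 3) (.e (nat_lit 98342) (nat_lit 20) (.e (nat_lit 221213) (nat_lit 23) .nil))))) .nil)))) (.nd (nat_lit 4) (.nd (nat_lit 5) 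
(.lf (nat_lit 249611) (.g (nat_lit 3928) (.e (nat_lit 163867) (nat_lit 2) (.e (nat_lit 196670) (nat_lit 14) (.e (nat_lit 73755) (nat_lit 8) (.e (nat_lit 557105) (nat_lit 14) (.e (nat_lit 180252) (nat_lit 10) (.e (nat_lit 573474) (nat_lit 12) (.e (nat_lit 57348) (nat_lit 0) (.e (nat_lit 5591) (nat_lit 310) .nil)))))))) (.g (nat_lit 5) .nil .nil))) 
(.lf (nat_lit 249643) (.g (nat_lit 3719) (.e (nat_lit 163868) (nat_lit 2) (.e (nat_lit 196656) (nat_lit 11) (.e (nat_lit 16436) (nat_lit 9) (.e (nat_lit 426566) (nat_lit 34) (.e (nat_lit 393253) (nat_lit 18) (.e (nat_lit 164325) (nat_lit 230) .nil)))))) (.g (nat_lit 0) .nil .nil)))) (.nd (nat_lit 5) 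
(.lf (nat_lit 249627) (.g (nat_lit 665) (.e (nat_lit 163868) (nat_lit 2) (.e (nat_lit 196624) (nat_lit 9) (.e (nat_lit 1511) (nat_lit 108) .nil))) .nil)) 
(.lf (nat_lit 249659) (.g (nat_lit 3327) (.e (nat_lit 163868) (nat_lit 2) (.e (nat_lit 196668) (nat_lit 14) (.e (nat_lit 73753) (nat_lit 8) (.e (nat_lit 557103) (nat_lit 14) (.e (nat_lit 180250) (nat_lit 10) (.e (nat_lit 573474) (nat_lit 12) (.e (nat_lit 57347) (nat_lit 0) (.e (nat_lit 5591) (nat_lit 310) .nil)))))))) (.g (nat_lit 4) .nil .nil)))))) 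
(.nd (nat_lit 3) (.nd (nat_lit 4) (.nd (nat_lit 5) 
(.lf (nat_lit 249607) (.g (nat_lit 3323) (.e (nat_lit 163867) (nat_lit 2) (.e (nat_lit 196670) (nat_lit 14) (.e (nat_lit 73755) (nat_lit 8) (.e (nat_lit 557105) (nat_lit 14) (.e (nat_lit 180252) (nat_lit 10) (.e (nat_lit 573474) (nat_lit 12) (.e (nat_lit 57345) (nat_lit 0) (.e (nat_lit 5604) (nat_lit 310) .nil)))))))) (.g (nat_lit 4) .nil .nil))) 
(.lf (nat_lit 249639) (.g (nat_lit 4019) (.e (nat_lit 163868) (nat_lit 2) (.e (nat_lit 196656) (nat_lit 11) (.e (nat_lit 16431) (nat_lit 9) (.e (nat_lit 426566) (nat_lit 34) (.e (nat_lit 393253) (nat_lit 18) (.e (nat_lit 164325) (nat_lit 230) .nil)))))) (.g (nat_lit 6) .nil .nil)))) (.nd (nat_lit 5) 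
(.lf (nat_lit 249623) (.g (nat_lit 2797) (.e (nat_lit 163867) (nat_lit 2) (.e (nat_lit 196670) (nat_lit 14) (.e (nat_lit 73755) (nat_lit 8) (.e (nat_lit 557105) (nat_lit 14) (.e (nat_lit 180252) (nat_lit 10) (.e (nat_lit 573474) (nat_lit 12) (.e (nat_lit 57360) (nat_lit 0) (.e (nat_lit 5597) (nat_lit 310) .nil)))))))) (.g (nat_lit 4) .nil .nil))) 
(.lf (nat_lit 249655) (.g (nat_lit 2090) (.e (nat_lit 163868) (nat_lit 2) (.e (nat_lit 196668) (nat_lit 14) (.e (nat_lit 73747) (nat_lit 3) (.e (nat_lit 516129) (nat_lit 3) (.e (nat_lit 221203) (nat_lit 20) .nil))))) .nil)))) (.nd (nat_lit 4) (.nd (nat_lit 5) 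
(.lf (nat_lit 249615) (.g (nat_lit 3062) (.e (nat_lit 163867) (nat_lit 2) (.e (nat_lit 196670) (nat_lit 14) (.e (nat_lit 73755) (nat_lit 8) (.e (nat_lit 557105) (nat_lit 14) (.e (nat_lit 180252) (nat_lit 10) (.e (nat_lit 573474) (nat_lit 12) (.e (nat_lit 57351) (nat_lit 0) (.e (nat_lit 5595) (nat_lit 310) .nil)))))))) (.g (nat_lit 4) .nil .nil))) 
(.lf (nat_lit 249647) (.g (nat_lit 2264) (.e (nat_lit 163868) (nat_lit 2) (.e (nat_lit 196656) (nat_lit 11) (.e (nat_lit 16444) (nat_lit 9) (.e (nat_lit 426565) (nat_lit 34) (.e (nat_lit 393254) (nat_lit 18) (.e (nat_lit 164325) (nat_lit 230) .nil)))))) (.g (nat_lit 0) .nil .nil)))) (.nd (nat_lit 5) 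
(.lf (nat_lit 249631) (.g (nat_lit 4032) (.e (nat_lit 163868) (nat_lit 2) (.e (nat_lit 196654) (nat_lit 11) (.e (nat_lit 16436) (nat_lit 9) (.e (nat_lit 426478) (nat_lit 27) (.e (nat_lit 336389) (nat_lit 27) (.e (nat_lit 426098) (nat_lit 1) (.e (nat_lit 164327) (nat_lit 230) .nil))))))) (.g (nat_lit 6) .nil .nil))) 
(.lf (nat_lit 249663) (.g (nat_lit 3255) (.e (nat_lit 163868) (nat_lit 2) (.e (nat_lit 196668) (nat_lit 14) (.e (nat_lit 73753) (nat_lit 8) (.e (nat_lit 557103) (nat_lit 14) (.e (nat_lit 180250) (nat_lit 10) (.e (nat_lit 573475) (nat_lit 12) (.e (nat_lit 57344) (nat_lit 0) (.e (nat_lit 5589) (nat_lit 310) .nil)))))))) (.g (nat_lit 4) .nil .nil)))))))))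

noncomputable def tv3232 : DT := (.nd (nat_lit 0) (.nd (nat_lit 1) (.nd (nat_lit 2) (.nd (nat_lit 3) (.nd (nat_lit 4) (.nd (nat_lit 5) 
(.lf (nat_lit 249664) (.g (nat_lit 3076) (.e (nat_lit 163868) (nat_lit 2) (.e (nat_lit 196668) (nat_lit 14) (.e (nat_lit 73753) (nat_lit 8) (.e (nat_lit 557103) (nat_lit 14) (.e (nat_lit 180250) (nat_lit 10) (.e (nat_lit 573475) (nat_lit 12) (.e (nat_lit 57345) (nat_lit 0) (.e (nat_lit 5591) (nat_lit 310) .nil)))))))) (.g (nat_lit 4) .nil .nil))) 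
(.lf (nat_lit 249696) (.g (nat_lit 2546) (.e (nat_lit 163868) (nat_lit 2) (.e (nat_lit 196670) (nat_lit 14) (.e (nat_lit 73753) (nat_lit 8) (.e (nat_lit 557105) (nat_lit 14) (.e (nat_lit 180251) (nat_lit 10) .nil))))) .nil))) (.nd (nat_lit 5) 
(.lf (nat_lit 249680) (.g (nat_lit 3122) (.e (nat_lit 163868) (nat_lit 2) (.e (nat_lit 196668) (nat_lit 14) (.e (nat_lit 73755) (nat_lit 8) (.e (nat_lit 557105) (nat_lit 14) (.e (nat_lit 180252) (nat_lit 10) (.e (nat_lit 573474) (nat_lit 12) (.e (nat_lit 57345) (nat_lit 0) (.e (nat_lit 5593) (nat_lit 310) .nil)))))))) (.g (nat_lit 4) .nil .nil))) 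
(.lf (nat_lit 249712) (.g (nat_lit 4308) (.e (nat_lit 163868) (nat_lit 2) (.e (nat_lit 196670) (nat_lit 14) (.e (nat_lit 73754) (nat_lit 8) (.e (nat_lit 557105) (nat_lit 14) (.e (nat_lit 180252) (nat_lit 10) (.e (nat_lit 573474) (nat_lit 12) (.e (nat_lit 57345) (nat_lit 0) (.e (nat_lit 5591) (nat_lit 310) .nil)))))))) (.g (nat_lit 5) .nil .nil))))) (.nd (nat_lit 4) (.nd (nat_lit 5) 
(.lf (nat_lit 249672) (.g (nat_lit 3729) (.e (nat_lit 163868) (nat_lit 2) (.e (nat_lit 196668) (nat_lit 14) (.e (nat_lit 73753) (nat_lit 8) (.e (nat_lit 557104) (nat_lit 14) (.e (nat_lit 180252) (nat_lit 10) (.e (nat_lit 573474) (nat_lit 12) (.e (nat_lit 57348) (nat_lit 0) (.e (nat_lit 5591) (nat_lit 310) .nil)))))))) (.g (nat_lit 4) .nil .nil))) 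
(.lf (nat_lit 249704) (.g (nat_lit 3205) (.e (nat_lit 163868) (nat_lit 2) (.e (nat_lit 196670) (nat_lit 14) (.e (nat_lit 73753) (nat_lit 8) (.e (nat_lit 557105) (nat_lit 14) (.e (nat_lit 180252) (nat_lit 10) (.e (nat_lit 573474) (nat_lit 12) (.e (nat_lit 57349) (nat_lit 0) (.e (nat_lit 5593) (nat_lit 310) .nil)))))))) (.g (nat_lit 4) .nil .nil)))) (.nd (nat_lit 5) 
(.lf (nat_lit 249688) (.g (nat_lit 2758) (.e (nat_lit 163868) (nat_lit 2) (.e (nat_lit 196670) (nat_lit 14) (.e (nat_lit 73746) (nat_lit 3) (.e (nat_lit 516129) (nat_lit 3) (.e (nat_lit 221210) (nat_lit 22) (.e (nat_lit 196658) (nat_lit 12) (.e (nat_lit 57354) (nat_lit 0) (.e (nat_lit 5589) (nat_lit 310) .nil)))))))) (.g (nat_lit 4) .nil .nil))) 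
(.lf (nat_lit 249720) (.g (nat_lit 4539) (.e (nat_lit 163868) (nat_lit 2) (.e (nat_lit 196670) (nat_lit 14) (.e (nat_lit 73754) (nat_lit 8) (.e (nat_lit 557105) (nat_lit 14) (.e (nat_lit 180252) (nat_lit 10) (.e (nat_lit 573474) (nat_lit 12) (.e (nat_lit 57355) (nat_lit 0) (.e (nat_lit 5589) (nat_lit 310) .nil)))))))) (.g (nat_lit 5) .nil .nil)))))) 
(.nd (nat_lit 3) (.nd (nat_lit 4) (.nd (nat_lit 5) 
(.lf (nat_lit 249668) (.g (nat_lit 3207) (.e (nat_lit 163868) (nat_lit 2) (.e (nat_lit 196668) (nat_lit 14) (.e (nat_lit 73753) (nat_lit 8) (.e (nat_lit 557103) (nat_lit 14) (.e (nat_lit 180250) (nat_lit 10) (.e (nat_lit 573478) (nat_lit 12) (.e (nat_lit 57344) (nat_lit 0) (.e (nat_lit 5589) (nat_lit 310) .nil)))))))) (.g (nat_lit 4) .nil .nil))) 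
(.lf (nat_lit 249700) (.g (nat_lit 4529) (.e (nat_lit 163868) (nat_lit 2) (.e (nat_lit 196670) (nat_lit 14) (.e (nat_lit 73753) (nat_lit 8) (.e (nat_lit 557105) (nat_lit 14) (.e (nat_lit 180252) (nat_lit 10) (.e (nat_lit 573474) (nat_lit 12) (.e (nat_lit 57347) (nat_lit 0) (.e (nat_lit 5584) (nat_lit 310) .nil)))))))) (.g (nat_lit 5) .nil .nil)))) (.nd (nat_lit 5) 
(.lf (nat_lit 249684) (.g (nat_lit 3950) (.e (nat_lit 163868) (nat_lit 2) (.e (nat_lit 196669) (nat_lit 14) (.e (nat_lit 73755) (nat_lit 8) (.e (nat_lit 557105) (nat_lit 14) (.e (nat_lit 180252) (nat_lit 10) (.e (nat_lit 573474) (nat_lit 12) (.e (nat_lit 57354) (nat_lit 0) (.e (nat_lit 5589) (nat_lit 310) .nil)))))))) (.g (nat_lit 6) .nil .nil))) 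
(.lf (nat_lit 249716) (.g (nat_lit 3380) (.e (nat_lit 163868) (nat_lit 2) (.e (nat_lit 196670) (nat_lit 14) (.e (nat_lit 73754) (nat_lit 8) (.e (nat_lit 557105) (nat_lit 14) (.e (nat_lit 180252) (nat_lit 10) (.e (nat_lit 573474) (nat_lit 12) (.e (nat_lit 57347) (nat_lit 0) (.e (nat_lit 5590) (nat_lit 310) .nil)))))))) (.g (nat_lit 4) .nil .nil))))) (.nd (nat_lit 4) (.nd (nat_lit 5) 
(.lf (nat_lit 249676) (.g (nat_lit 3354) (.e (nat_lit 163868) (nat_lit 2) (.e (nat_lit 196668) (nat_lit 14) (.e (nat_lit 73753) (nat_lit 8) (.e (nat_lit 557105) (nat_lit 14) (.e (nat_lit 180252) (nat_lit 10) (.e (nat_lit 573474) (nat_lit 12) (.e (nat_lit 57348) (nat_lit 0) (.e (nat_lit 5584) (nat_lit 310) .nil)))))))) (.g (nat_lit 4) .nil .nil))) 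
(.lf (nat_lit 249708) (.g (nat_lit 2902) (.e (nat_lit 163868) (nat_lit 2) (.e (nat_lit 196670) (nat_lit 14) (.e (nat_lit 73754) (nat_lit 8) (.e (nat_lit 557105) (nat_lit 14) (.e (nat_lit 180251) (nat_lit 10) (.e (nat_lit 573478) (nat_lit 12) (.e (nat_lit 57344) (nat_lit 0) (.e (nat_lit 5589) (nat_lit 310) .nil)))))))) (.g (nat_lit 4) .nil .nil)))) (.nd (nat_lit 5) 
(.lf (nat_lit 249692) (.g (nat_lit 2756) (.e (nat_lit 163868) (nat_lit 2) (.e (nat_lit 196670) (nat_lit 14) (.e (nat_lit 73746) (nat_lit 3) (.e (nat_lit 516129) (nat_lit 3) (.e (nat_lit 221210) (nat_lit 22) (.e (nat_lit 196661) (nat_lit 12) (.e (nat_lit 57361) (nat_lit 0) (.e (nat_lit 5584) (nat_lit 310) .nil)))))))) (.g (nat_lit 4) .nil .nil))) 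
(.lf (nat_lit 249724) (.g (nat_lit 2938) (.e (nat_lit 163868) (nat_lit 2) (.e (nat_lit 196670) (nat_lit 14) (.e (nat_lit 73754) (nat_lit 8) (.e (nat_lit 557105) (nat_lit 14) (.e (nat_lit 180252) (nat_lit 10) (.e (nat_lit 573475) (nat_lit 12) (.e (nat_lit 57348) (nat_lit 0) (.e (nat_lit 5591) (nat_lit 310) .nil)))))))) (.g (nat_lit 4) .nil .nil))))))) 
(.nd (nat_lit 2) (.nd (nat_lit 3) (.nd (nat_lit 4) (.nd (nat_lit 5) 
(.lf (nat_lit 249666) (.g (nat_lit 3675) (.e (nat_lit 163868) (nat_lit 2) (.e (nat_lit 196668) (nat_lit 14) (.e (nat_lit 73753) (nat_lit 8) (.e (nat_lit 557103) (nat_lit 14) (.e (nat_lit 180250) (nat_lit 10) (.e (nat_lit 573475) (nat_lit 12) (.e (nat_lit 57348) (nat_lit 0) (.e (nat_lit 5593) (nat_lit 310) .nil)))))))) (.g (nat_lit 5) .nil .nil))) 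
(.lf (nat_lit 249698) (.g (nat_lit 4001) (.e (nat_lit 163868) (nat_lit 2) (.e (nat_lit 196670) (nat_lit 14) (.e (nat_lit 73753) (nat_lit 8) (.e (nat_lit 557105) (nat_lit 14) (.e (nat_lit 180252) (nat_lit 10) (.e (nat_lit 573474) (nat_lit 12) (.e (nat_lit 57345) (nat_lit 0) (.e (nat_lit 5591) (nat_lit 310) .nil)))))))) (.g (nat_lit 5) .nil .nil)))) (.nd (nat_lit 5) 
(.lf (nat_lit 249682) (.g (nat_lit 3096) (.e (nat_lit 163868) (nat_lit 2) (.e (nat_lit 196669) (nat_lit 14) (.e (nat_lit 73755) (nat_lit 8) (.e (nat_lit 557105) (nat_lit 14) (.e (nat_lit 180252) (nat_lit 10) (.e (nat_lit 573474) (nat_lit 12) (.e (nat_lit 57348) (nat_lit 0) (.e (nat_lit 5584) (nat_lit 310) .nil)))))))) (.g (nat_lit 4) .nil .nil))) 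
(.lf (nat_lit 249714) (.g (nat_lit 3426) (.e (nat_lit 163868) (nat_lit 2) (.e (nat_lit 196670) (nat_lit 14) (.e (nat_lit 73754) (nat_lit 8) (.e (nat_lit 557105) (nat_lit 14) (.e (nat_lit 180252) (nat_lit 10) (.e (nat_lit 573474) (nat_lit 12) (.e (nat_lit 57346) (nat_lit 0) (.e (nat_lit 5582) (nat_lit 310) .nil)))))))) (.g (nat_lit 4) .nil .nil))))) (.nd (nat_lit 4) (.nd (nat_lit 5) 
(.lf (nat_lit 249674) (.g (nat_lit 2709) (.e (nat_lit 163868) (nat_lit 2) (.e (nat_lit 196668) (nat_lit 14) (.e (nat_lit 73753) (nat_lit 8) (.e (nat_lit 557105) (nat_lit 14) (.e (nat_lit 180252) (nat_lit 10) (.e (nat_lit 573473) (nat_lit 12) (.e (nat_lit 57348) (nat_lit 0) (.e (nat_lit 5593) (nat_lit 310) .nil)))))))) (.g (nat_lit 4) .nil .nil))) 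
(.lf (nat_lit 249706) (.g (nat_lit 4232) (.e (nat_lit 163868) (nat_lit 2) (.e (nat_lit 196670) (nat_lit 14) (.e (nat_lit 73753) (nat_lit 8) (.e (nat_lit 557105) (nat_lit 14) (.e (nat_lit 180252) (nat_lit 10) (.e (nat_lit 573474) (nat_lit 12) (.e (nat_lit 57355) (nat_lit 0) (.e (nat_lit 5589) (nat_lit 310) .nil)))))))) (.g (nat_lit 5) .nil .nil)))) (.nd (nat_lit 5) 
(.lf (nat_lit 249690) (.g (nat_lit 4257) (.e (nat_lit 163868) (nat_lit 2) (.e (nat_lit 196670) (nat_lit 14) (.e (nat_lit 73746) (nat_lit 3) (.e (nat_lit 516129) (nat_lit 3) (.e (nat_lit 221210) (nat_lit 22) (.e (nat_lit 196660) (nat_lit 12) (.e (nat_lit 57354) (nat_lit 0) (.e (nat_lit 5589) (nat_lit 310) .nil)))))))) (.g (nat_lit 7) .nil .nil))) 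
(.lf (nat_lit 249722) (.g (nat_lit 3034) (.e (nat_lit 163868) (nat_lit 2) (.e (nat_lit 196670) (nat_lit 14) (.e (nat_lit 73754) (nat_lit 8) (.e (nat_lit 557105) (nat_lit 14) (.e (nat_lit 180252) (nat_lit 10) (.e (nat_lit 573475) (nat_lit 12) (.e (nat_lit 57344) (nat_lit 0) (.e (nat_lit 5593) (nat_lit 310) .nil)))))))) (.g (nat_lit 4) .nil .nil)))))) 
(.nd (nat_lit 3) (.nd (nat_lit 4) (.nd (nat_lit 5) 
(.lf (nat_lit 249670) (.g (nat_lit 3856) (.e (nat_lit 163868) (nat_lit 2) (.e (nat_lit 196668) (nat_lit 14) (.e (nat_lit 73753) (nat_lit 8) (.e (nat_lit 557104) (nat_lit 14) (.e (nat_lit 180252) (nat_lit 10) (.e (nat_lit 573474) (nat_lit 12) (.e (nat_lit 57347) (nat_lit 0) (.e (nat_lit 5591) (nat_lit 310) .nil)))))))) (.g (nat_lit 4) .nil .nil))) 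
(.lf (nat_lit 249702) (.g (nat_lit 4232) (.e (nat_lit 163868) (nat_lit 2) (.e (nat_lit 196670) (nat_lit 14) (.e (nat_lit 73753) (nat_lit 8) (.e (nat_lit 557105) (nat_lit 14) (.e (nat_lit 180252) (nat_lit 10) (.e (nat_lit 573474) (nat_lit 12) (.e (nat_lit 57348) (nat_lit 0) (.e (nat_lit 5584) (nat_lit 310) .nil)))))))) (.g (nat_lit 5) .nil .nil)))) (.nd (nat_lit 5) 
(.lf (nat_lit 249686) (.g (nat_lit 1940) (.e (nat_lit 163868) (nat_lit 2) (.e (nat_lit 196670) (nat_lit 14) (.e (nat_lit 73746) (nat_lit 3) (.e (nat_lit 516129) (nat_lit 3) (.e (nat_lit 221198) (nat_lit 20) .nil))))) .nil)) 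
(.lf (nat_lit 249718) (.g (nat_lit 4539) (.e (nat_lit 163868) (nat_lit 2) (.e (nat_lit 196670) (nat_lit 14) (.e (nat_lit 73754) (nat_lit 8) (.e (nat_lit 557105) (nat_lit 14) (.e (nat_lit 180252) (nat_lit 10) (.e (nat_lit 573474) (nat_lit 12) (.e (nat_lit 57348) (nat_lit 0) (.e (nat_lit 5584) (nat_lit 310) .nil)))))))) (.g (nat_lit 5) .nil .nil))))) (.nd (nat_lit 4) (.nd (nat_lit 5) 
(.lf (nat_lit 249678) (.g (nat_lit 2894) (.e (nat_lit 163868) (nat_lit 2) (.e (nat_lit 196668) (nat_lit 14) (.e (nat_lit 73753) (nat_lit 8) (.e (nat_lit 557105) (nat_lit 14) (.e (nat_lit 180252) (nat_lit 10) (.e (nat_lit 573475) (nat_lit 12) (.e (nat_lit 57348) (nat_lit 0) (.e (nat_lit 5593) (nat_lit 310) .nil)))))))) (.g (nat_lit 4) .nil .nil))) 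
(.lf (nat_lit 249710) (.g (nat_lit 4490) (.e (nat_lit 163868) (nat_lit 2) (.e (nat_lit 196670) (nat_lit 14) (.e (nat_lit 73754) (nat_lit 8) (.e (nat_lit 557105) (nat_lit 14) (.e (nat_lit 180252) (nat_lit 10) (.e (nat_lit 573474) (nat_lit 12) (.e (nat_lit 57344) (nat_lit 0) (.e (nat_lit 5589) (nat_lit 310) .nil)))))))) (.g (nat_lit 5) .nil .nil)))) (.nd (nat_lit 5) 
(.lf (nat_lit 249694) (.g (nat_lit 3227) (.e (nat_lit 163868) (nat_lit 2) (.e (nat_lit 196670) (nat_lit 14) (.e (nat_lit 73746) (nat_lit 3) (.e (nat_lit 516131) (nat_lit 3) (.e (nat_lit 221212) (nat_lit 22) (.e (nat_lit 196677) (nat_lit 16) (.e (nat_lit 122880) (nat_lit 0) (.e (nat_lit 5589) (nat_lit 310) .nil)))))))) (.g (nat_lit 5) .nil .nil))) 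
(.lf (nat_lit 249726) (.g (nat_lit 4381) (.e (nat_lit 163868) (nat_lit 2) (.e (nat_lit 196670) (nat_lit 14) (.e (nat_lit 73754) (nat_lit 8) (.e (nat_lit 557105) (nat_lit 14) (.e (nat_lit 180252) (nat_lit 10) (.e (nat_lit 573495) (nat_lit 16) (.e (nat_lit 122883) (nat_lit 0) (.e (nat_lit 5589) (nat_lit 310) .nil)))))))) (.g (nat_lit 5) .nil .nil)))))))) 
(.nd (nat_lit 1) (.nd (nat_lit 2) (.nd (nat_lit 3) (.nd (nat_lit 4) (.nd (nat_lit 5) 
(.lf (nat_lit 249665) (.g (nat_lit 2980) (.e (nat_lit 163868) (nat_lit 2) (.e (nat_lit 196668) (nat_lit 14) (.e (nat_lit 73753) (nat_lit 8) (.e (nat_lit 557103) (nat_lit 14) (.e (nat_lit 180250) (nat_lit 10) (.e (nat_lit 573475) (nat_lit 12) (.e (nat_lit 57347) (nat_lit 0) (.e (nat_lit 5593) (nat_lit 310) .nil)))))))) (.g (nat_lit 4) .nil .nil))) 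
(.lf (nat_lit 249697) (.g (nat_lit 4183) (.e (nat_lit 163868) (nat_lit 2) (.e (nat_lit 196670) (nat_lit 14) (.e (nat_lit 73753) (nat_lit 8) (.e (nat_lit 557105) (nat_lit 14) (.e (nat_lit 180252) (nat_lit 10) (.e (nat_lit 573474) (nat_lit 12) (.e (nat_lit 57344) (nat_lit 0) (.e (nat_lit 5589) (nat_lit 310) .nil)))))))) (.g (nat_lit 5) .nil .nil)))) (.nd (nat_lit 5) 
(.lf (nat_lit 249681) (.g (nat_lit 4029) (.e (nat_lit 163868) (nat_lit 2) (.e (nat_lit 196668) (nat_lit 14) (.e (nat_lit 73755) (nat_lit 8) (.e (nat_lit 557105) (nat_lit 14) (.e (nat_lit 180252) (nat_lit 10) (.e (nat_lit 573474) (nat_lit 12) (.e (nat_lit 57347) (nat_lit 0) (.e (nat_lit 5593) (nat_lit 310) .nil)))))))) (.g (nat_lit 5) .nil .nil))) 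
(.lf (nat_lit 249713) (.g (nat_lit 4312) (.e (nat_lit 163868) (nat_lit 2) (.e (nat_lit 196670) (nat_lit 14) (.e (nat_lit 73754) (nat_lit 8) (.e (nat_lit 557105) (nat_lit 14) (.e (nat_lit 180252) (nat_lit 10) (.e (nat_lit 573474) (nat_lit 12) (.e (nat_lit 57345) (nat_lit 0) (.e (nat_lit 5593) (nat_lit 310) .nil)))))))) (.g (nat_lit 5) .nil .nil))))) (.nd (nat_lit 4) (.nd (nat_lit 5) 
(.lf (nat_lit 249673) (.g (nat_lit 3527) (.e (nat_lit 163868) (nat_lit 2) (.e (nat_lit 196668) (nat_lit 14) (.e (nat_lit 73753) (nat_lit 8) (.e (nat_lit 557104) (nat_lit 14) (.e (nat_lit 180252) (nat_lit 10) (.e (nat_lit 573474) (nat_lit 12) (.e (nat_lit 57354) (nat_lit 0) (.e (nat_lit 5589) (nat_lit 310) .nil)))))))) (.g (nat_lit 4) .nil .nil))) 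
(.lf (nat_lit 249705) (.g (nat_lit 5081) (.e (nat_lit 163868) (nat_lit 2) (.e (nat_lit 196670) (nat_lit 14) (.e (nat_lit 73753) (nat_lit 8) (.e (nat_lit 557105) (nat_lit 14) (.e (nat_lit 180252) (nat_lit 10) (.e (nat_lit 573474) (nat_lit 12) (.e (nat_lit 57354) (nat_lit 0) (.e (nat_lit 5589) (nat_lit 310) .nil)))))))) (.g (nat_lit 6) .nil .nil)))) (.nd (nat_lit 5) 
(.lf (nat_lit 249689) (.g (nat_lit 2602) (.e (nat_lit 163868) (nat_lit 2) (.e (nat_lit 196670) (nat_lit 14) (.e (nat_lit 73746) (nat_lit 3) (.e (nat_lit 516129) (nat_lit 3) (.e (nat_lit 221210) (nat_lit 22) (.e (nat_lit 196659) (nat_lit 12) (.e (nat_lit 57354) (nat_lit 0) (.e (nat_lit 5589) (nat_lit 310) .nil)))))))) (.g (nat_lit 4) .nil .nil))) 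
(.lf (nat_lit 249721) (.g (nat_lit 4272) (.e (nat_lit 163868) (nat_lit 2) (.e (nat_lit 196670) (nat_lit 14) (.e (nat_lit 73754) (nat_lit 8) (.e (nat_lit 557105) (nat_lit 14) (.e (nat_lit 180252) (nat_lit 10) (.e (nat_lit 573475) (nat_lit 12) (.e (nat_lit 57344) (nat_lit 0) (.e (nat_lit 5589) (nat_lit 310) .nil)))))))) (.g (nat_lit 6) .nil .nil)))))) 
(.nd (nat_lit 3) (.nd (nat_lit 4) (.nd (nat_lit 5) 
(.lf (nat_lit 249669) (.g (nat_lit 3163) (.e (nat_lit 163868) (nat_lit 2) (.e (nat_lit 196668) (nat_lit 14) (.e (nat_lit 73753) (nat_lit 8) (.e (nat_lit 557104) (nat_lit 14) (.e (nat_lit 180252) (nat_lit 10) (.e (nat_lit 573474) (nat_lit 12) (.e (nat_lit 57347) (nat_lit 0) (.e (nat_lit 5584) (nat_lit 310) .nil)))))))) (.g (nat_lit 4) .nil .nil))) 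
(.lf (nat_lit 249701) (.g (nat_lit 5176) (.e (nat_lit 163868) (nat_lit 2) (.e (nat_lit 196670) (nat_lit 14) (.e (nat_lit 73753) (nat_lit 8) (.e (nat_lit 557105) (nat_lit 14) (.e (nat_lit 180252) (nat_lit 10) (.e (nat_lit 573474) (nat_lit 12) (.e (nat_lit 57347) (nat_lit 0) (.e (nat_lit 5591) (nat_lit 310) .nil)))))))) (.g (nat_lit 6) .nil .nil)))) (.nd (nat_lit 5) 
(.lf (nat_lit 249685) (.g (nat_lit 1940) (.e (nat_lit 163868) (nat_lit 2) (.e (nat_lit 196670) (nat_lit 14) (.e (nat_lit 73746) (nat_lit 3) (.e (nat_lit 516129) (nat_lit 3) (.e (nat_lit 221197) (nat_lit 20) .nil))))) .nil)) 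
(.lf (nat_lit 249717) (.g (nat_lit 5483) (.e (nat_lit 163868) (nat_lit 2) (.e (nat_lit 196670) (nat_lit 14) (.e (nat_lit 73754) (nat_lit 8) (.e (nat_lit 557105) (nat_lit 14) (.e (nat_lit 180252) (nat_lit 10) (.e (nat_lit 573474) (nat_lit 12) (.e (nat_lit 57347) (nat_lit 0) (.e (nat_lit 5591) (nat_lit 310) .nil)))))))) (.g (nat_lit 6) .nil .nil))))) (.nd (nat_lit 4) (.nd (nat_lit 5) 
(.lf (nat_lit 249677) (.g (nat_lit 3260) (.e (nat_lit 163868) (nat_lit 2) (.e (nat_lit 196668) (nat_lit 14) (.e (nat_lit 73753) (nat_lit 8) (.e (nat_lit 557105) (nat_lit 14) (.e (nat_lit 180252) (nat_lit 10) (.e (nat_lit 573475) (nat_lit 12) (.e (nat_lit 57345) (nat_lit 0) (.e (nat_lit 5593) (nat_lit 310) .nil)))))))) (.g (nat_lit 4) .nil .nil))) 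
(.lf (nat_lit 249709) (.g (nat_lit 2692) (.e (nat_lit 163868) (nat_lit 2) (.e (nat_lit 196670) (nat_lit 14) (.e (nat_lit 73754) (nat_lit 8) (.e (nat_lit 557105) (nat_lit 14) (.e (nat_lit 180252) (nat_lit 10) (.e (nat_lit 573473) (nat_lit 12) (.e (nat_lit 57354) (nat_lit 0) (.e (nat_lit 5589) (nat_lit 310) .nil)))))))) (.g (nat_lit 4) .nil .nil)))) (.nd (nat_lit 5) 
(.lf (nat_lit 249693) (.g (nat_lit 3312) (.e (nat_lit 163868) (nat_lit 2) (.e (nat_lit 196670) (nat_lit 14) (.e (nat_lit 73746) (nat_lit 3) (.e (nat_lit 516129) (nat_lit 3) (.e (nat_lit 221210) (nat_lit 22) (.e (nat_lit 196677) (nat_lit 16) (.e (nat_lit 122880) (nat_lit 0) (.e (nat_lit 5589) (nat_lit 310) .nil)))))))) (.g (nat_lit 5) .nil .nil))) 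
(.lf (nat_lit 249725) (.g (nat_lit 3311) (.e (nat_lit 163868) (nat_lit 2) (.e (nat_lit 196670) (nat_lit 14) (.e (nat_lit 73754) (nat_lit 8) (.e (nat_lit 557105) (nat_lit 14) (.e (nat_lit 180252) (nat_lit 10) (.e (nat_lit 573475) (nat_lit 12) (.e (nat_lit 57351) (nat_lit 0) (.e (nat_lit 5584) (nat_lit 310) .nil)))))))) (.g (nat_lit 4) .nil .nil))))))) 
(.nd (nat_lit 2) (.nd (nat_lit 3) (.nd (nat_lit 4) (.nd (nat_lit 5) 
(.lf (nat_lit 249667) (.g (nat_lit 2577) (.e (nat_lit 163868) (nat_lit 2) (.e (nat_lit 196668) (nat_lit 14) (.e (nat_lit 73753) (nat_lit 8) (.e (nat_lit 557103) (nat_lit 14) (.e (nat_lit 180250) (nat_lit 10) (.e (nat_lit 573478) (nat_lit 12) (.e (nat_lit 57344) (nat_lit 0) (.e (nat_lit 5588) (nat_lit 310) .nil)))))))) (.g (nat_lit 4) .nil .nil))) 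
(.lf (nat_lit 249699) (.g (nat_lit 3945) (.e (nat_lit 163868) (nat_lit 2) (.e (nat_lit 196670) (nat_lit 14) (.e (nat_lit 73753) (nat_lit 8) (.e (nat_lit 557105) (nat_lit 14) (.e (nat_lit 180252) (nat_lit 10) (.e (nat_lit 573474) (nat_lit 12) (.e (nat_lit 57345) (nat_lit 0) (.e (nat_lit 5593) (nat_lit 310) .nil)))))))) (.g (nat_lit 5) .nil .nil)))) (.nd (nat_lit 5) 
(.lf (nat_lit 249683) (.g (nat_lit 4048) (.e (nat_lit 163868) (nat_lit 2) (.e (nat_lit 196669) (nat_lit 14) (.e (nat_lit 73755) (nat_lit 8) (.e (nat_lit 557105) (nat_lit 14) (.e (nat_lit 180252) (nat_lit 10) (.e (nat_lit 573474) (nat_lit 12) (.e (nat_lit 57348) (nat_lit 0) (.e (nat_lit 5591) (nat_lit 310) .nil)))))))) (.g (nat_lit 7) .nil .nil))) 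
(.lf (nat_lit 249715) (.g (nat_lit 4836) (.e (nat_lit 163868) (nat_lit 2) (.e (nat_lit 196670) (nat_lit 14) (.e (nat_lit 73754) (nat_lit 8) (.e (nat_lit 557105) (nat_lit 14) (.e (nat_lit 180252) (nat_lit 10) (.e (nat_lit 573474) (nat_lit 12) (.e (nat_lit 57347) (nat_lit 0) (.e (nat_lit 5584) (nat_lit 310) .nil)))))))) (.g (nat_lit 5) .nil .nil))))) (.nd (nat_lit 4) (.nd (nat_lit 5) 
(.lf (nat_lit 249675) (.g (nat_lit 5125) (.e (nat_lit 163868) (nat_lit 2) (.e (nat_lit 196668) (nat_lit 14) (.e (nat_lit 73753) (nat_lit 8) (.e (nat_lit 557105) (nat_lit 14) (.e (nat_lit 180252) (nat_lit 10) (.e (nat_lit 573474) (nat_lit 12) (.e (nat_lit 57347) (nat_lit 0) (.e (nat_lit 5593) (nat_lit 310) .nil)))))))) (.g (nat_lit 5) .nil .nil))) 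
(.lf (nat_lit 249707) (.g (nat_lit 2929) (.e (nat_lit 163868) (nat_lit 2) (.e (nat_lit 196670) (nat_lit 14) (.e (nat_lit 73753) (nat_lit 8) (.e (nat_lit 557105) (nat_lit 14) (.e (nat_lit 180252) (nat_lit 10) (.e (nat_lit 573475) (nat_lit 12) (.e (nat_lit 57345) (nat_lit 0) (.e (nat_lit 5591) (nat_lit 310) .nil)))))))) (.g (nat_lit 4) .nil .nil)))) (.nd (nat_lit 5) 
(.lf (nat_lit 249691) (.g (nat_lit 2914) (.e (nat_lit 163868) (nat_lit 2) (.e (nat_lit 196670) (nat_lit 14) (.e (nat_lit 73746) (nat_lit 3) (.e (nat_lit 516129) (nat_lit 3) (.e (nat_lit 221210) (nat_lit 22) (.e (nat_lit 196661) (nat_lit 12) (.e (nat_lit 57353) (nat_lit 0) (.e (nat_lit 5584) (nat_lit 310) .nil)))))))) (.g (nat_lit 4) .nil .nil))) 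
(.lf (nat_lit 249723) (.g (nat_lit 3971) (.e (nat_lit 163868) (nat_lit 2) (.e (nat_lit 196670) (nat_lit 14) (.e (nat_lit 73754) (nat_lit 8) (.e (nat_lit 557105) (nat_lit 14) (.e (nat_lit 180252) (nat_lit 10) (.e (nat_lit 573475) (nat_lit 12) (.e (nat_lit 57345) (nat_lit 0) (.e (nat_lit 5591) (nat_lit 310) .nil)))))))) (.g (nat_lit 6) .nil .nil)))))) 
(.nd (nat_lit 3) (.nd (nat_lit 4) (.nd (nat_lit 5) 
(.lf (nat_lit 249671) (.g (nat_lit 2800) (.e (nat_lit 163868) (nat_lit 2) (.e (nat_lit 196668) (nat_lit 14) (.e (nat_lit 73753) (nat_lit 8) (.e (nat_lit 557104) (nat_lit 14) (.e (nat_lit 180252) (nat_lit 10) (.e (nat_lit 573474) (nat_lit 12) (.e (nat_lit 57348) (nat_lit 0) (.e (nat_lit 5584) (nat_lit 310) .nil)))))))) (.g (nat_lit 4) .nil .nil))) 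
(.lf (nat_lit 249703) (.g (nat_lit 5168) (.e (nat_lit 163868) (nat_lit 2) (.e (nat_lit 196670) (nat_lit 14) (.e (nat_lit 73753) (nat_lit 8) (.e (nat_lit 557105) (nat_lit 14) (.e (nat_lit 180252) (nat_lit 10) (.e (nat_lit 573474) (nat_lit 12) (.e (nat_lit 57348) (nat_lit 0) (.e (nat_lit 5591) (nat_lit 310) .nil)))))))) (.g (nat_lit 7) .nil .nil)))) (.nd (nat_lit 5) 
(.lf (nat_lit 249687) (.g (nat_lit 3043) (.e (nat_lit 163868) (nat_lit 2) (.e (nat_lit 196670) (nat_lit 14) (.e (nat_lit 73746) (nat_lit 3) (.e (nat_lit 516129) (nat_lit 3) (.e (nat_lit 221210) (nat_lit 22) (.e (nat_lit 196658) (nat_lit 12) (.e (nat_lit 57353) (nat_lit 0) (.e (nat_lit 5584) (nat_lit 310) .nil)))))))) (.g (nat_lit 4) .nil .nil))) 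
(.lf (nat_lit 249719) (.g (nat_lit 5388) (.e (nat_lit 163868) (nat_lit 2) (.e (nat_lit 196670) (nat_lit 14) (.e (nat_lit 73754) (nat_lit 8) (.e (nat_lit 557105) (nat_lit 14) (.e (nat_lit 180252) (nat_lit 10) (.e (nat_lit 573474) (nat_lit 12) (.e (nat_lit 57354) (nat_lit 0) (.e (nat_lit 5589) (nat_lit 310) .nil)))))))) (.g (nat_lit 6) .nil .nil))))) (.nd (nat_lit 4) (.nd (nat_lit 5) 
(.lf (nat_lit 249679) (.g (nat_lit 4215) (.e (nat_lit 163868) (nat_lit 2) (.e (nat_lit 196668) (nat_lit 14) (.e (nat_lit 73754) (nat_lit 8) (.e (nat_lit 557105) (nat_lit 14) (.e (nat_lit 180252) (nat_lit 10) (.e (nat_lit 573474) (nat_lit 12) (.e (nat_lit 57347) (nat_lit 0) (.e (nat_lit 5593) (nat_lit 310) .nil)))))))) (.g (nat_lit 5) .nil .nil))) 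
(.lf (nat_lit 249711) (.g (nat_lit 3361) (.e (nat_lit 163868) (nat_lit 2) (.e (nat_lit 196670) (nat_lit 14) (.e (nat_lit 73754) (nat_lit 8) (.e (nat_lit 557105) (nat_lit 14) (.e (nat_lit 180252) (nat_lit 10) (.e (nat_lit 573474) (nat_lit 12) (.e (nat_lit 57345) (nat_lit 0) (.e (nat_lit 5584) (nat_lit 310) .nil)))))))) (.g (nat_lit 4) .nil .nil)))) (.nd (nat_lit 5) 
(.lf (nat_lit 249695) (.g (nat_lit 2177) (.e (nat_lit 163868) (nat_lit 2) (.e (nat_lit 196670) (nat_lit 14) (.e (nat_lit 73753) (nat_lit 8) (.e (nat_lit 557103) (nat_lit 14) (.e (nat_lit 180250) (nat_lit 10) .nil))))) .nil)) 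
(.lf (nat_lit 249727) (.g (nat_lit 2246) (.e (nat_lit 163868) (nat_lit 2) (.e (nat_lit 196670) (nat_lit 14) (.e (nat_lit 73755) (nat_lit 8) (.e (nat_lit 557105) (nat_lit 14) (.e (nat_lit 180252) (nat_lit 10) .nil))))) .nil))))))))

noncomputable def tv3233 : DT := (.nd (nat_lit 0) (.nd (nat_lit 1) (.nd (nat_lit 2) (.nd (nat_lit 3) (.nd (nat_lit 4) (.nd (nat_lit 5) 
(.lf (nat_lit 249728) (.g (nat_lit 3221) (.e (nat_lit 163868) (nat_lit 2) (.e (nat_lit 196670) (nat_lit 14) (.e (nat_lit 73755) (nat_lit 8) (.e (nat_lit 557105) (nat_lit 14) (.e (nat_lit 180252) (nat_lit 10) (.e (nat_lit 573474) (nat_lit 12) (.e (nat_lit 57344) (nat_lit 0) (.e (nat_lit 5589) (nat_lit 310) .nil)))))))) (.g (nat_lit 4) .nil .nil))) 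
(.lf (nat_lit 249760) (.g (nat_lit 3613) (.e (nat_lit 163869) (nat_lit 2) (.e (nat_lit 196656) (nat_lit 11) (.e (nat_lit 16436) (nat_lit 9) (.e (nat_lit 426566) (nat_lit 34) (.e (nat_lit 393252) (nat_lit 18) (.e (nat_lit 164332) (nat_lit 230) .nil)))))) (.g (nat_lit 0) .nil .nil)))) (.nd (nat_lit 5) 
(.lf (nat_lit 249744) (.g (nat_lit 447) (.e (nat_lit 163869) (nat_lit 2) (.e (nat_lit 196654) (nat_lit 11) (.e (nat_lit 16432) (nat_lit 9) .nil))) .nil)) 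
(.lf (nat_lit 249776) (.g (nat_lit 821) (.e (nat_lit 163869) (nat_lit 2) (.e (nat_lit 196666) (nat_lit 13) (.e (nat_lit 65625) (nat_lit 13) (.e (nat_lit 393225) (nat_lit 9) .nil)))) .nil)))) (.nd (nat_lit 4) (.nd (nat_lit 5) 
(.lf (nat_lit 249736) (.g (nat_lit 2587) (.e (nat_lit 163868) (nat_lit 2) (.e (nat_lit 196681) (nat_lit 17) (.e (nat_lit 131125) (nat_lit 13) (.e (nat_lit 393229) (nat_lit 9) (.e (nat_lit 335986) (nat_lit 1) (.e (nat_lit 57927) (nat_lit 282) .nil)))))) (.g (nat_lit 0) .nil .nil))) 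
(.lf (nat_lit 249768) (.g (nat_lit 2362) (.e (nat_lit 163869) (nat_lit 2) (.e (nat_lit 196666) (nat_lit 13) (.e (nat_lit 65610) (nat_lit 10) (.e (nat_lit 344117) (nat_lit 21) (.e (nat_lit 516151) (nat_lit 9) .nil))))) .nil))) (.nd (nat_lit 5) 
(.lf (nat_lit 249752) (.g (nat_lit 3259) (.e (nat_lit 163869) (nat_lit 2) (.e (nat_lit 196654) (nat_lit 11) (.e (nat_lit 16436) (nat_lit 9) (.e (nat_lit 426568) (nat_lit 34) (.e (nat_lit 393253) (nat_lit 18) (.e (nat_lit 164325) (nat_lit 230) .nil)))))) (.g (nat_lit 0) .nil .nil))) 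
(.lf (nat_lit 249784) (.g (nat_lit 3464) (.e (nat_lit 163869) (nat_lit 2) (.e (nat_lit 196666) (nat_lit 13) (.e (nat_lit 65625) (nat_lit 13) (.e (nat_lit 393225) (nat_lit 9) (.e (nat_lit 335996) (nat_lit 1) (.e (nat_lit 57929) (nat_lit 282) .nil)))))) (.g (nat_lit 0) .nil .nil)))))) (.nd (nat_lit 3) (.nd (nat_lit 4) (.nd (nat_lit 5) 
(.lf (nat_lit 249732) (.g (nat_lit 3270) (.e (nat_lit 163868) (nat_lit 2) (.e (nat_lit 196670) (nat_lit 14) (.e (nat_lit 73755) (nat_lit 8) (.e (nat_lit 557105) (nat_lit 14) (.e (nat_lit 180252) (nat_lit 10) (.e (nat_lit 573474) (nat_lit 12) (.e (nat_lit 57348) (nat_lit 0) (.e (nat_lit 5584) (nat_lit 310) .nil)))))))) (.g (nat_lit 4) .nil .nil))) 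
(.lf (nat_lit 249764) (.g (nat_lit 4325) (.e (nat_lit 163869) (nat_lit 2) (.e (nat_lit 196659) (nat_lit 12) (.e (nat_lit 57550) (nat_lit 48) (.e (nat_lit 720938) (nat_lit 22) (.e (nat_lit 90172) (nat_lit 14) (.e (nat_lit 180244) (nat_lit 5) (.e (nat_lit 532499) (nat_lit 1) (.e (nat_lit 57692) (nat_lit 156) .nil)))))))) (.g (nat_lit 0) .nil .nil)))) (.nd (nat_lit 5) 
(.lf (nat_lit 249748) (.g (nat_lit 1540) (.e (nat_lit 163869) (nat_lit 2) (.e (nat_lit 196654) (nat_lit 11) (.e (nat_lit 16436) (nat_lit 9) (.e (nat_lit 426480) (nat_lit 27) .nil)))) .nil)) 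
(.lf (nat_lit 249780) (.g (nat_lit 3282) (.e (nat_lit 163869) (nat_lit 2) (.e (nat_lit 196666) (nat_lit 13) (.e (nat_lit 65625) (nat_lit 13) (.e (nat_lit 393225) (nat_lit 9) (.e (nat_lit 335988) (nat_lit 1) (.e (nat_lit 57927) (nat_lit 282) .nil)))))) (.g (nat_lit 0) .nil .nil))))) (.nd (nat_lit 4) (.nd (nat_lit 5) 
(.lf (nat_lit 249740) (.g (nat_lit 2595) (.e (nat_lit 163868) (nat_lit 2) (.e (nat_lit 196681) (nat_lit 17) (.e (nat_lit 131128) (nat_lit 13) (.e (nat_lit 393229) (nat_lit 9) (.e (nat_lit 335986) (nat_lit 1) (.e (nat_lit 57927) (nat_lit 282) .nil)))))) (.g (nat_lit 0) .nil .nil))) 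
(.lf (nat_lit 249772) (.g (nat_lit 2643) (.e (nat_lit 163869) (nat_lit 2) (.e (nat_lit 196666) (nat_lit 13) (.e (nat_lit 65610) (nat_lit 10) (.e (nat_lit 344129) (nat_lit 26) (.e (nat_lit 557087) (nat_lit 11) (.e (nat_lit 24584) (nat_lit 0) (.e (nat_lit 968) (nat_lit 81) (.e (nat_lit 4427) (nat_lit 261) .nil)))))))) (.g (nat_lit 4) .nil .nil)))) (.nd (nat_lit 5) 
(.lf (nat_lit 249756) (.g (nat_lit 1513) (.e (nat_lit 163869) (nat_lit 2) (.e (nat_lit 196656) (nat_lit 11) (.e (nat_lit 16388) (nat_lit 0) (.e (nat_lit 7309) (nat_lit 388) .nil)))) .nil)) 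
(.lf (nat_lit 249788) (.g (nat_lit 3158) (.e (nat_lit 163869) (nat_lit 2) (.e (nat_lit 196666) (nat_lit 13) (.e (nat_lit 65625) (nat_lit 13) (.e (nat_lit 393229) (nat_lit 9) (.e (nat_lit 335988) (nat_lit 1) (.e (nat_lit 57927) (nat_lit 282) .nil)))))) (.g (nat_lit 6) .nil .nil))))))) (.nd (nat_lit 2) (.nd (nat_lit 3) (.nd (nat_lit 4) (.nd (nat_lit 5) 
(.lf (nat_lit 249730) (.g (nat_lit 3043) (.e (nat_lit 163868) (nat_lit 2) (.e (nat_lit 196670) (nat_lit 14) (.e (nat_lit 73755) (nat_lit 8) (.e (nat_lit 557105) (nat_lit 14) (.e (nat_lit 180252) (nat_lit 10) (.e (nat_lit 573474) (nat_lit 12) (.e (nat_lit 57345) (nat_lit 0) (.e (nat_lit 5593) (nat_lit 310) .nil)))))))) (.g (nat_lit 4) .nil .nil))) 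
(.lf (nat_lit 249762) (.g (nat_lit 3195) (.e (nat_lit 163869) (nat_lit 2) (.e (nat_lit 196656) (nat_lit 11) (.e (nat_lit 16438) (nat_lit 9) (.e (nat_lit 426568) (nat_lit 34) (.e (nat_lit 393253) (nat_lit 18) (.e (nat_lit 164330) (nat_lit 230) .nil)))))) (.g (nat_lit 4) .nil .nil)))) (.nd (nat_lit 5) 
(.lf (nat_lit 249746) (.g (nat_lit 1584) (.e (nat_lit 163869) (nat_lit 2) (.e (nat_lit 196654) (nat_lit 11) (.e (nat_lit 16433) (nat_lit 9) (.e (nat_lit 426571) (nat_lit 35) .nil)))) .nil)) 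
(.lf (nat_lit 249778) (.g (nat_lit 3205) (.e (nat_lit 163869) (nat_lit 2) (.e (nat_lit 196666) (nat_lit 13) (.e (nat_lit 65625) (nat_lit 13) (.e (nat_lit 393225) (nat_lit 9) (.e (nat_lit 335986) (nat_lit 1) (.e (nat_lit 57927) (nat_lit 282) .nil)))))) (.g (nat_lit 0) .nil .nil))))) (.nd (nat_lit 4) (.nd (nat_lit 5) 
(.lf (nat_lit 249738) (.g (nat_lit 2733) (.e (nat_lit 163868) (nat_lit 2) (.e (nat_lit 196681) (nat_lit 17) (.e (nat_lit 131128) (nat_lit 13) (.e (nat_lit 393225) (nat_lit 9) (.e (nat_lit 335986) (nat_lit 1) (.e (nat_lit 57927) (nat_lit 282) .nil)))))) (.g (nat_lit 0) .nil .nil))) 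
(.lf (nat_lit 249770) (.g (nat_lit 2794) (.e (nat_lit 163869) (nat_lit 2) (.e (nat_lit 196666) (nat_lit 13) (.e (nat_lit 65610) (nat_lit 10) (.e (nat_lit 344129) (nat_lit 26) (.e (nat_lit 557087) (nat_lit 11) (.e (nat_lit 24584) (nat_lit 0) (.e (nat_lit 968) (nat_lit 81) (.e (nat_lit 4423) (nat_lit 261) .nil)))))))) (.g (nat_lit 5) .nil .nil)))) (.nd (nat_lit 5) 
(.lf (nat_lit 249754) (.g (nat_lit 2505) (.e (nat_lit 163869) (nat_lit 2) (.e (nat_lit 196654) (nat_lit 11) (.e (nat_lit 16438) (nat_lit 9) (.e (nat_lit 426566) (nat_lit 34) (.e (nat_lit 393254) (nat_lit 18) .nil))))) .nil)) 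
(.lf (nat_lit 249786) (.g (nat_lit 2975) (.e (nat_lit 163869) (nat_lit 2) (.e (nat_lit 196666) (nat_lit 13) (.e (nat_lit 65625) (nat_lit 13) (.e (nat_lit 393229) (nat_lit 9) (.e (nat_lit 335986) (nat_lit 1) (.e (nat_lit 57927) (nat_lit 282) .nil)))))) (.g (nat_lit 6) .nil .nil)))))) (.nd (nat_lit 3) (.nd (nat_lit 4) (.nd (nat_lit 5) 
(.lf (nat_lit 249734) (.g (nat_lit 2774) (.e (nat_lit 163868) (nat_lit 2) (.e (nat_lit 196681) (nat_lit 17) (.e (nat_lit 131125) (nat_lit 13) (.e (nat_lit 393225) (nat_lit 9) (.e (nat_lit 335986) (nat_lit 1) (.e (nat_lit 57927) (nat_lit 282) .nil)))))) (.g (nat_lit 0) .nil .nil))) 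
(.lf (nat_lit 249766) (.g (nat_lit 1826) (.e (nat_lit 163869) (nat_lit 2) (.e (nat_lit 196666) (nat_lit 13) (.e (nat_lit 65569) (nat_lit 3) (.e (nat_lit 98342) (nat_lit 20) (.e (nat_lit 221198) (nat_lit 20) .nil))))) .nil))) (.nd (nat_lit 5) 
(.lf (nat_lit 249750) (.g (nat_lit 1527) (.e (nat_lit 163869) (nat_lit 2) (.e (nat_lit 196654) (nat_lit 11) (.e (nat_lit 16436) (nat_lit 9) (.e (nat_lit 426487) (nat_lit 27) .nil)))) .nil)) 
(.lf (nat_lit 249782) (.g (nat_lit 2657) (.e (nat_lit 163869) (nat_lit 2) (.e (nat_lit 196666) (nat_lit 13) (.e (nat_lit 65625) (nat_lit 13) (.e (nat_lit 393225) (nat_lit 9) (.e (nat_lit 335995) (nat_lit 1) (.e (nat_lit 57930) (nat_lit 282) .nil)))))) (.g (nat_lit 4) .nil .nil))))) (.nd (nat_lit 4) (.nd (nat_lit 5) 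
(.lf (nat_lit 249742) (.g (nat_lit 566) (.e (nat_lit 163869) (nat_lit 2) (.e (nat_lit 196624) (nat_lit 9) (.e (nat_lit 1615) (nat_lit 113) .nil))) .nil)) 
(.lf (nat_lit 249774) (.g (nat_lit 3486) (.e (nat_lit 163869) (nat_lit 2) (.e (nat_lit 196666) (nat_lit 13) (.e (nat_lit 65610) (nat_lit 10) (.e (nat_lit 344129) (nat_lit 26) (.e (nat_lit 557087) (nat_lit 11) (.e (nat_lit 24584) (nat_lit 0) (.e (nat_lit 970) (nat_lit 81) (.e (nat_lit 4425) (nat_lit 261) .nil)))))))) (.g (nat_lit 6) .nil .nil)))) (.nd (nat_lit 5) 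
(.lf (nat_lit 249758) (.g (nat_lit 2756) (.e (nat_lit 163869) (nat_lit 2) (.e (nat_lit 196656) (nat_lit 11) (.e (nat_lit 16425) (nat_lit 7) (.e (nat_lit 409617) (nat_lit 10) (.e (nat_lit 858) (nat_lit 75) .nil))))) .nil)) 
(.lf (nat_lit 249790) (.g (nat_lit 3620) (.e (nat_lit 163869) (nat_lit 2) (.e (nat_lit 196666) (nat_lit 13) (.e (nat_lit 65625) (nat_lit 13) (.e (nat_lit 393229) (nat_lit 9) (.e (nat_lit 335995) (nat_lit 1) (.e (nat_lit 57931) (nat_lit 282) .nil)))))) (.g (nat_lit 0) .nil .nil)))))))) (.nd (nat_lit 1) (.nd (nat_lit 2) (.nd (nat_lit 3) (.nd (nat_lit 4) (.nd (nat_lit 5) 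
(.lf (nat_lit 249729) (.g (nat_lit 3039) (.e (nat_lit 163868) (nat_lit 2) (.e (nat_lit 196670) (nat_lit 14) (.e (nat_lit 73755) (nat_lit 8) (.e (nat_lit 557105) (nat_lit 14) (.e (nat_lit 180252) (nat_lit 10) (.e (nat_lit 573474) (nat_lit 12) (.e (nat_lit 57345) (nat_lit 0) (.e (nat_lit 5591) (nat_lit 310) .nil)))))))) (.g (nat_lit 4) .nil .nil))) 
(.lf (nat_lit 249761) (.g (nat_lit 4180) (.e (nat_lit 163869) (nat_lit 2) (.e (nat_lit 196656) (nat_lit 11) (.e (nat_lit 16436) (nat_lit 9) (.e (nat_lit 426566) (nat_lit 34) (.e (nat_lit 393253) (nat_lit 18) (.e (nat_lit 164332) (nat_lit 230) .nil)))))) (.g (nat_lit 0) .nil .nil)))) (.nd (nat_lit 5) 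
(.lf (nat_lit 249745) (.g (nat_lit 1584) (.e (nat_lit 163869) (nat_lit 2) (.e (nat_lit 196654) (nat_lit 11) (.e (nat_lit 16433) (nat_lit 9) (.e (nat_lit 426564) (nat_lit 34) .nil)))) .nil)) 
(.lf (nat_lit 249777) (.g (nat_lit 3546) (.e (nat_lit 163869) (nat_lit 2) (.e (nat_lit 196666) (nat_lit 13) (.e (nat_lit 65625) (nat_lit 13) (.e (nat_lit 393225) (nat_lit 9) (.e (nat_lit 335986) (nat_lit 1) (.e (nat_lit 57926) (nat_lit 282) .nil)))))) (.g (nat_lit 0) .nil .nil))))) (.nd (nat_lit 4) (.nd (nat_lit 5) 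
(.lf (nat_lit 249737) (.g (nat_lit 2850) (.e (nat_lit 163868) (nat_lit 2) (.e (nat_lit 196681) (nat_lit 17) (.e (nat_lit 131125) (nat_lit 13) (.e (nat_lit 393229) (nat_lit 9) (.e (nat_lit 335988) (nat_lit 1) (.e (nat_lit 57927) (nat_lit 282) .nil)))))) (.g (nat_lit 0) .nil .nil))) 
(.lf (nat_lit 249769) (.g (nat_lit 1443) (.e (nat_lit 163869) (nat_lit 2) (.e (nat_lit 196666) (nat_lit 13) (.e (nat_lit 65610) (nat_lit 10) (.e (nat_lit 344129) (nat_lit 26) (.e (nat_lit 557087) (nat_lit 11) .nil))))) .nil))) (.nd (nat_lit 5) 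
(.lf (nat_lit 249753) (.g (nat_lit 3521) (.e (nat_lit 163869) (nat_lit 2) (.e (nat_lit 196654) (nat_lit 11) (.e (nat_lit 16438) (nat_lit 9) (.e (nat_lit 426566) (nat_lit 34) (.e (nat_lit 393252) (nat_lit 18) (.e (nat_lit 164332) (nat_lit 230) .nil)))))) (.g (nat_lit 0) .nil .nil))) 
(.lf (nat_lit 249785) (.g (nat_lit 3569) (.e (nat_lit 163869) (nat_lit 2) (.e (nat_lit 196666) (nat_lit 13) (.e (nat_lit 65625) (nat_lit 13) (.e (nat_lit 393225) (nat_lit 9) (.e (nat_lit 335996) (nat_lit 1) (.e (nat_lit 57931) (nat_lit 282) .nil)))))) (.g (nat_lit 0) .nil .nil)))))) (.nd (nat_lit 3) (.nd (nat_lit 4) (.nd (nat_lit 5) 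
(.lf (nat_lit 249733) (.g (nat_lit 3270) (.e (nat_lit 163868) (nat_lit 2) (.e (nat_lit 196670) (nat_lit 14) (.e (nat_lit 73755) (nat_lit 8) (.e (nat_lit 557105) (nat_lit 14) (.e (nat_lit 180252) (nat_lit 10) (.e (nat_lit 573474) (nat_lit 12) (.e (nat_lit 57355) (nat_lit 0) (.e (nat_lit 5589) (nat_lit 310) .nil)))))))) (.g (nat_lit 4) .nil .nil))) 
(.lf (nat_lit 249765) (.g (nat_lit 1888) (.e (nat_lit 163869) (nat_lit 2) (.e (nat_lit 196665) (nat_lit 13) (.e (nat_lit 65625) (nat_lit 13) (.e (nat_lit 393225) (nat_lit 9) (.e (nat_lit 335995) (nat_lit 1) (.e (nat_lit 57929) (nat_lit 282) .nil)))))) (.g (nat_lit 4) .nil .nil)))) (.nd (nat_lit 5) 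
(.lf (nat_lit 249749) (.g (nat_lit 1410) (.e (nat_lit 163869) (nat_lit 2) (.e (nat_lit 196654) (nat_lit 11) (.e (nat_lit 16436) (nat_lit 9) (.e (nat_lit 426481) (nat_lit 27) .nil)))) .nil)) 
(.lf (nat_lit 249781) (.g (nat_lit 3324) (.e (nat_lit 163869) (nat_lit 2) (.e (nat_lit 196666) (nat_lit 13) (.e (nat_lit 65625) (nat_lit 13) (.e (nat_lit 393225) (nat_lit 9) (.e (nat_lit 335995) (nat_lit 1) (.e (nat_lit 57929) (nat_lit 282) .nil)))))) (.g (nat_lit 0) .nil .nil))))) (.nd (nat_lit 4) (.nd (nat_lit 5) 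
(.lf (nat_lit 249741) (.g (nat_lit 2861) (.e (nat_lit 163868) (nat_lit 2) (.e (nat_lit 196681) (nat_lit 17) (.e (nat_lit 131128) (nat_lit 13) (.e (nat_lit 393229) (nat_lit 9) (.e (nat_lit 335988) (nat_lit 1) (.e (nat_lit 57927) (nat_lit 282) .nil)))))) (.g (nat_lit 0) .nil .nil))) 
(.lf (nat_lit 249773) (.g (nat_lit 2980) (.e (nat_lit 163869) (nat_lit 2) (.e (nat_lit 196666) (nat_lit 13) (.e (nat_lit 65610) (nat_lit 10) (.e (nat_lit 344129) (nat_lit 26) (.e (nat_lit 557087) (nat_lit 11) (.e (nat_lit 24584) (nat_lit 0) (.e (nat_lit 970) (nat_lit 81) (.e (nat_lit 4423) (nat_lit 261) .nil)))))))) (.g (nat_lit 5) .nil .nil)))) (.nd (nat_lit 5) 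
(.lf (nat_lit 249757) (.g (nat_lit 1939) (.e (nat_lit 163869) (nat_lit 2) (.e (nat_lit 196656) (nat_lit 11) (.e (nat_lit 16416) (nat_lit 3) (.e (nat_lit 204817) (nat_lit 17) .nil)))) .nil)) 
(.lf (nat_lit 249789) (.g (nat_lit 2569) (.e (nat_lit 163869) (nat_lit 2) (.e (nat_lit 196666) (nat_lit 13) (.e (nat_lit 65625) (nat_lit 13) (.e (nat_lit 393229) (nat_lit 9) (.e (nat_lit 335994) (nat_lit 1) (.e (nat_lit 57931) (nat_lit 282) .nil)))))) (.g (nat_lit 4) .nil .nil))))))) (.nd (nat_lit 2) (.nd (nat_lit 3) (.nd (nat_lit 4) (.nd (nat_lit 5) 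
(.lf (nat_lit 249731) (.g (nat_lit 3567) (.e (nat_lit 163868) (nat_lit 2) (.e (nat_lit 196670) (nat_lit 14) (.e (nat_lit 73755) (nat_lit 8) (.e (nat_lit 557105) (nat_lit 14) (.e (nat_lit 180252) (nat_lit 10) (.e (nat_lit 573474) (nat_lit 12) (.e (nat_lit 57347) (nat_lit 0) (.e (nat_lit 5584) (nat_lit 310) .nil)))))))) (.g (nat_lit 4) .nil .nil))) 
(.lf (nat_lit 249763) (.g (nat_lit 1627) (.e (nat_lit 163869) (nat_lit 2) (.e (nat_lit 196656) (nat_lit 11) (.e (nat_lit 16465) (nat_lit 13) (.e (nat_lit 491264) (nat_lit 10) .nil)))) .nil))) (.nd (nat_lit 5) 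
(.lf (nat_lit 249747) (.g (nat_lit 1527) (.e (nat_lit 163869) (nat_lit 2) (.e (nat_lit 196654) (nat_lit 11) (.e (nat_lit 16436) (nat_lit 9) (.e (nat_lit 426478) (nat_lit 27) .nil)))) .nil)) 
(.lf (nat_lit 249779) (.g (nat_lit 3577) (.e (nat_lit 163869) (nat_lit 2) (.e (nat_lit 196666) (nat_lit 13) (.e (nat_lit 65625) (nat_lit 13) (.e (nat_lit 393225) (nat_lit 9) (.e (nat_lit 335988) (nat_lit 1) (.e (nat_lit 57926) (nat_lit 282) .nil)))))) (.g (nat_lit 0) .nil .nil))))) (.nd (nat_lit 4) (.nd (nat_lit 5) 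
(.lf (nat_lit 249739) (.g (nat_lit 2800) (.e (nat_lit 163868) (nat_lit 2) (.e (nat_lit 196681) (nat_lit 17) (.e (nat_lit 131128) (nat_lit 13) (.e (nat_lit 393225) (nat_lit 9) (.e (nat_lit 335988) (nat_lit 1) (.e (nat_lit 57927) (nat_lit 282) .nil)))))) (.g (nat_lit 0) .nil .nil))) 
(.lf (nat_lit 249771) (.g (nat_lit 2838) (.e (nat_lit 163869) (nat_lit 2) (.e (nat_lit 196666) (nat_lit 13) (.e (nat_lit 65610) (nat_lit 10) (.e (nat_lit 344129) (nat_lit 26) (.e (nat_lit 557087) (nat_lit 11) (.e (nat_lit 24584) (nat_lit 0) (.e (nat_lit 968) (nat_lit 81) (.e (nat_lit 4424) (nat_lit 261) .nil)))))))) (.g (nat_lit 5) .nil .nil)))) (.nd (nat_lit 5) 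
(.lf (nat_lit 249755) (.g (nat_lit 3511) (.e (nat_lit 163869) (nat_lit 2) (.e (nat_lit 196655) (nat_lit 11) (.e (nat_lit 16435) (nat_lit 9) (.e (nat_lit 426566) (nat_lit 34) (.e (nat_lit 393254) (nat_lit 18) (.e (nat_lit 164332) (nat_lit 230) .nil)))))) (.g (nat_lit 6) .nil .nil))) 
(.lf (nat_lit 249787) (.g (nat_lit 1986) (.e (nat_lit 163869) (nat_lit 2) (.e (nat_lit 196666) (nat_lit 13) (.e (nat_lit 65625) (nat_lit 13) (.e (nat_lit 393229) (nat_lit 9) (.e (nat_lit 335987) (nat_lit 1) .nil))))) .nil))))) (.nd (nat_lit 3) (.nd (nat_lit 4) (.nd (nat_lit 5) 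
(.lf (nat_lit 249735) (.g (nat_lit 2841) (.e (nat_lit 163868) (nat_lit 2) (.e (nat_lit 196681) (nat_lit 17) (.e (nat_lit 131125) (nat_lit 13) (.e (nat_lit 393225) (nat_lit 9) (.e (nat_lit 335988) (nat_lit 1) (.e (nat_lit 57927) (nat_lit 282) .nil)))))) (.g (nat_lit 0) .nil .nil))) 
(.lf (nat_lit 249767) (.g (nat_lit 2228) (.e (nat_lit 163869) (nat_lit 2) (.e (nat_lit 196666) (nat_lit 13) (.e (nat_lit 65571) (nat_lit 3) (.e (nat_lit 98342) (nat_lit 20) (.e (nat_lit 221197) (nat_lit 20) .nil))))) .nil))) (.nd (nat_lit 5) 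
(.lf (nat_lit 249751) (.g (nat_lit 2457) (.e (nat_lit 163869) (nat_lit 2) (.e (nat_lit 196654) (nat_lit 11) (.e (nat_lit 16436) (nat_lit 9) (.e (nat_lit 426530) (nat_lit 27) (.e (nat_lit 336390) (nat_lit 27) .nil))))) .nil)) 
(.lf (nat_lit 249783) (.g (nat_lit 3773) (.e (nat_lit 163869) (nat_lit 2) (.e (nat_lit 196666) (nat_lit 13) (.e (nat_lit 65625) (nat_lit 13) (.e (nat_lit 393225) (nat_lit 9) (.e (nat_lit 335995) (nat_lit 1) (.e (nat_lit 57931) (nat_lit 282) .nil)))))) (.g (nat_lit 0) .nil .nil))))) (.nd (nat_lit 4) (.nd (nat_lit 5) 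
(.lf (nat_lit 249743) (.g (nat_lit 1999) (.e (nat_lit 163869) (nat_lit 2) (.e (nat_lit 196649) (nat_lit 10) (.e (nat_lit 16128) (nat_lit 196) (.e (nat_lit 73746) (nat_lit 3) (.e (nat_lit 516171) (nat_lit 13) (.e (nat_lit 458774) (nat_lit 18) (.e (nat_lit 5964) (nat_lit 324) .nil))))))) (.g (nat_lit 4) .nil .nil))) 
(.lf (nat_lit 249775) (.g (nat_lit 437) (.e (nat_lit 163869) (nat_lit 2) (.e (nat_lit 196666) (nat_lit 13) (.e (nat_lit 65625) (nat_lit 13) .nil))) .nil))) (.nd (nat_lit 5) 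
(.lf (nat_lit 249759) (.g (nat_lit 4454) (.e (nat_lit 163869) (nat_lit 2) (.e (nat_lit 196656) (nat_lit 11) (.e (nat_lit 16431) (nat_lit 9) (.e (nat_lit 426566) (nat_lit 34) (.e (nat_lit 393253) (nat_lit 18) (.e (nat_lit 164332) (nat_lit 230) .nil)))))) (.g (nat_lit 6) .nil .nil))) 
(.lf (nat_lit 249791) (.g (nat_lit 903) (.e (nat_lit 163869) (nat_lit 2) (.e (nat_lit 196666) (nat_lit 13) (.e (nat_lit 65627) (nat_lit 13) (.e (nat_lit 393225) (nat_lit 9) .nil)))) .nil))))))))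

noncomputable def tv3234 : DT := (.nd (nat_lit 0) (.nd (nat_lit 1) (.nd (nat_lit 2) (.nd (nat_lit 3) (.nd (nat_lit 4) (.nd (nat_lit 5) 
(.lf (nat_lit 249792) (.g (nat_lit 3334) (.e (nat_lit 163869) (nat_lit 2) (.e (nat_lit 196666) (nat_lit 13) (.e (nat_lit 65627) (nat_lit 13) (.e (nat_lit 393225) (nat_lit 9) (.e (nat_lit 335986) (nat_lit 1) (.e (nat_lit 57927) (nat_lit 282) .nil)))))) (.g (nat_lit 0) .nil .nil))) 
(.lf (nat_lit 249824) (.g (nat_lit 2313) (.e (nat_lit 163869) (nat_lit 2) (.e (nat_lit 196669) (nat_lit 14) (.e (nat_lit 73755) (nat_lit 8) (.e (nat_lit 557105) (nat_lit 14) (.e (nat_lit 180252) (nat_lit 10) (.e (nat_lit 573474) (nat_lit 12) (.e (nat_lit 57347) (nat_lit 0) (.e (nat_lit 5584) (nat_lit 310) .nil)))))))) (.g (nat_lit 4) .nil .nil)))) (.nd (nat_lit 5) 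
(.lf (nat_lit 249808) (.g (nat_lit 3531) (.e (nat_lit 163869) (nat_lit 2) (.e (nat_lit 196669) (nat_lit 14) (.e (nat_lit 73754) (nat_lit 8) (.e (nat_lit 557105) (nat_lit 14) (.e (nat_lit 180252) (nat_lit 10) (.e (nat_lit 573475) (nat_lit 12) (.e (nat_lit 57360) (nat_lit 0) (.e (nat_lit 5599) (nat_lit 310) .nil)))))))) (.g (nat_lit 6) .nil .nil))) 
(.lf (nat_lit 249840) (.g (nat_lit 2423) (.e (nat_lit 163869) (nat_lit 2) (.e (nat_lit 196669) (nat_lit 14) (.e (nat_lit 73755) (nat_lit 8) (.e (nat_lit 557105) (nat_lit 14) (.e (nat_lit 180252) (nat_lit 10) (.e (nat_lit 573474) (nat_lit 12) (.e (nat_lit 57356) (nat_lit 0) (.e (nat_lit 5596) (nat_lit 310) .nil)))))))) (.g (nat_lit 4) .nil .nil))))) (.nd (nat_lit 4) (.nd (nat_lit 5) 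
(.lf (nat_lit 249800) (.g (nat_lit 1491) (.e (nat_lit 163869) (nat_lit 2) (.e (nat_lit 196668) (nat_lit 14) (.e (nat_lit 73747) (nat_lit 3) (.e (nat_lit 516130) (nat_lit 3) (.e (nat_lit 221213) (nat_lit 23) .nil))))) .nil)) 
(.lf (nat_lit 249832) (.g (nat_lit 2257) (.e (nat_lit 163869) (nat_lit 2) (.e (nat_lit 196669) (nat_lit 14) (.e (nat_lit 73755) (nat_lit 8) (.e (nat_lit 557105) (nat_lit 14) (.e (nat_lit 180252) (nat_lit 10) (.e (nat_lit 573474) (nat_lit 12) (.e (nat_lit 57348) (nat_lit 0) (.e (nat_lit 7936) (nat_lit 310) .nil)))))))) (.g (nat_lit 5) .nil .nil)))) (.nd (nat_lit 5) 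
(.lf (nat_lit 249816) (.g (nat_lit 4125) (.e (nat_lit 163869) (nat_lit 2) (.e (nat_lit 196669) (nat_lit 14) (.e (nat_lit 73755) (nat_lit 8) (.e (nat_lit 557105) (nat_lit 14) (.e (nat_lit 180252) (nat_lit 10) (.e (nat_lit 573474) (nat_lit 12) (.e (nat_lit 57344) (nat_lit 0) (.e (nat_lit 5603) (nat_lit 310) .nil)))))))) (.g (nat_lit 6) .nil .nil))) 
(.lf (nat_lit 249848) (.g (nat_lit 1961) (.e (nat_lit 163869) (nat_lit 2) (.e (nat_lit 196670) (nat_lit 14) (.e (nat_lit 73746) (nat_lit 3) (.e (nat_lit 516129) (nat_lit 3) (.e (nat_lit 221197) (nat_lit 20) .nil))))) .nil))))) (.nd (nat_lit 3) (.nd (nat_lit 4) (.nd (nat_lit 5) 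
(.lf (nat_lit 249796) (.g (nat_lit 3936) (.e (nat_lit 163869) (nat_lit 2) (.e (nat_lit 196666) (nat_lit 13) (.e (nat_lit 65627) (nat_lit 13) (.e (nat_lit 393225) (nat_lit 9) (.e (nat_lit 335995) (nat_lit 1) (.e (nat_lit 57931) (nat_lit 282) .nil)))))) (.g (nat_lit 0) .nil .nil))) 
(.lf (nat_lit 249828) (.g (nat_lit 3779) (.e (nat_lit 163869) (nat_lit 2) (.e (nat_lit 196669) (nat_lit 14) (.e (nat_lit 73755) (nat_lit 8) (.e (nat_lit 557105) (nat_lit 14) (.e (nat_lit 180252) (nat_lit 10) (.e (nat_lit 573474) (nat_lit 12) (.e (nat_lit 57347) (nat_lit 0) (.e (nat_lit 5595) (nat_lit 310) .nil)))))))) (.g (nat_lit 6) .nil .nil)))) (.nd (nat_lit 5) 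
(.lf (nat_lit 249812) (.g (nat_lit 3974) (.e (nat_lit 163869) (nat_lit 2) (.e (nat_lit 196669) (nat_lit 14) (.e (nat_lit 73755) (nat_lit 8) (.e (nat_lit 557105) (nat_lit 14) (.e (nat_lit 180252) (nat_lit 10) (.e (nat_lit 573474) (nat_lit 12) (.e (nat_lit 57344) (nat_lit 0) (.e (nat_lit 5587) (nat_lit 310) .nil)))))))) (.g (nat_lit 6) .nil .nil))) 
(.lf (nat_lit 249844) (.g (nat_lit 2669) (.e (nat_lit 163869) (nat_lit 2) (.e (nat_lit 196669) (nat_lit 14) (.e (nat_lit 73755) (nat_lit 8) (.e (nat_lit 557105) (nat_lit 14) (.e (nat_lit 180252) (nat_lit 10) (.e (nat_lit 573474) (nat_lit 12) (.e (nat_lit 57360) (nat_lit 0) (.e (nat_lit 5598) (nat_lit 310) .nil)))))))) (.g (nat_lit 4) .nil .nil))))) (.nd (nat_lit 4) (.nd (nat_lit 5) 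
(.lf (nat_lit 249804) (.g (nat_lit 3419) (.e (nat_lit 163869) (nat_lit 2) (.e (nat_lit 196668) (nat_lit 14) (.e (nat_lit 73753) (nat_lit 8) (.e (nat_lit 557105) (nat_lit 14) (.e (nat_lit 180252) (nat_lit 10) (.e (nat_lit 573474) (nat_lit 12) (.e (nat_lit 57348) (nat_lit 0) (.e (nat_lit 5592) (nat_lit 310) .nil)))))))) (.g (nat_lit 4) .nil .nil))) 
(.lf (nat_lit 249836) (.g (nat_lit 2398) (.e (nat_lit 163869) (nat_lit 2) (.e (nat_lit 196669) (nat_lit 14) (.e (nat_lit 73755) (nat_lit 8) (.e (nat_lit 557105) (nat_lit 14) (.e (nat_lit 180252) (nat_lit 10) (.e (nat_lit 573474) (nat_lit 12) (.e (nat_lit 57353) (nat_lit 0) (.e (nat_lit 5595) (nat_lit 310) .nil)))))))) (.g (nat_lit 4) .nil .nil)))) (.nd (nat_lit 5) 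
(.lf (nat_lit 249820) (.g (nat_lit 3168) (.e (nat_lit 163869) (nat_lit 2) (.e (nat_lit 196669) (nat_lit 14) (.e (nat_lit 73755) (nat_lit 8) (.e (nat_lit 557105) (nat_lit 14) (.e (nat_lit 180252) (nat_lit 10) (.e (nat_lit 573474) (nat_lit 12) (.e (nat_lit 57345) (nat_lit 0) (.e (nat_lit 5592) (nat_lit 310) .nil)))))))) (.g (nat_lit 5) .nil .nil))) 
(.lf (nat_lit 249852) (.g (nat_lit 3339) (.e (nat_lit 163869) (nat_lit 2) (.e (nat_lit 196670) (nat_lit 14) (.e (nat_lit 73746) (nat_lit 3) (.e (nat_lit 516129) (nat_lit 3) (.e (nat_lit 221210) (nat_lit 22) (.e (nat_lit 196626) (nat_lit 9) (.e (nat_lit 1183) (nat_lit 87) (.e (nat_lit 57930) (nat_lit 282) .nil)))))))) (.g (nat_lit 5) .nil .nil))))))) 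
(.nd (nat_lit 2) (.nd (nat_lit 3) (.nd (nat_lit 4) (.nd (nat_lit 5) 
(.lf (nat_lit 249794) (.g (nat_lit 3486) (.e (nat_lit 163869) (nat_lit 2) (.e (nat_lit 196666) (nat_lit 13) (.e (nat_lit 65627) (nat_lit 13) (.e (nat_lit 393225) (nat_lit 9) (.e (nat_lit 335995) (nat_lit 1) (.e (nat_lit 57929) (nat_lit 282) .nil)))))) (.g (nat_lit 0) .nil .nil))) 
(.lf (nat_lit 249826) (.g (nat_lit 4320) (.e (nat_lit 163869) (nat_lit 2) (.e (nat_lit 196669) (nat_lit 14) (.e (nat_lit 73755) (nat_lit 8) (.e (nat_lit 557105) (nat_lit 14) (.e (nat_lit 180252) (nat_lit 10) (.e (nat_lit 573474) (nat_lit 12) (.e (nat_lit 57347) (nat_lit 0) (.e (nat_lit 5591) (nat_lit 310) .nil)))))))) (.g (nat_lit 7) .nil .nil)))) (.nd (nat_lit 5) 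
(.lf (nat_lit 249810) (.g (nat_lit 2293) (.e (nat_lit 163869) (nat_lit 2) (.e (nat_lit 196669) (nat_lit 14) (.e (nat_lit 73755) (nat_lit 8) (.e (nat_lit 557103) (nat_lit 14) (.e (nat_lit 180250) (nat_lit 10) .nil))))) .nil)) 
(.lf (nat_lit 249842) (.g (nat_lit 4297) (.e (nat_lit 163869) (nat_lit 2) (.e (nat_lit 196669) (nat_lit 14) (.e (nat_lit 73755) (nat_lit 8) (.e (nat_lit 557105) (nat_lit 14) (.e (nat_lit 180252) (nat_lit 10) (.e (nat_lit 573474) (nat_lit 12) (.e (nat_lit 57358) (nat_lit 0) (.e (nat_lit 5603) (nat_lit 310) .nil)))))))) (.g (nat_lit 6) .nil .nil))))) (.nd (nat_lit 4) (.nd (nat_lit 5) 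
(.lf (nat_lit 249802) (.g (nat_lit 3398) (.e (nat_lit 163869) (nat_lit 2) (.e (nat_lit 196668) (nat_lit 14) (.e (nat_lit 73753) (nat_lit 8) (.e (nat_lit 557105) (nat_lit 14) (.e (nat_lit 180252) (nat_lit 10) (.e (nat_lit 573474) (nat_lit 12) (.e (nat_lit 57347) (nat_lit 0) (.e (nat_lit 5591) (nat_lit 310) .nil)))))))) (.g (nat_lit 4) .nil .nil))) 
(.lf (nat_lit 249834) (.g (nat_lit 2256) (.e (nat_lit 163869) (nat_lit 2) (.e (nat_lit 196669) (nat_lit 14) (.e (nat_lit 73755) (nat_lit 8) (.e (nat_lit 557105) (nat_lit 14) (.e (nat_lit 180252) (nat_lit 10) (.e (nat_lit 573474) (nat_lit 12) (.e (nat_lit 57349) (nat_lit 0) (.e (nat_lit 5595) (nat_lit 310) .nil)))))))) (.g (nat_lit 4) .nil .nil)))) (.nd (nat_lit 5) 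
(.lf (nat_lit 249818) (.g (nat_lit 2349) (.e (nat_lit 163869) (nat_lit 2) (.e (nat_lit 196669) (nat_lit 14) (.e (nat_lit 73755) (nat_lit 8) (.e (nat_lit 557105) (nat_lit 14) (.e (nat_lit 180252) (nat_lit 10) (.e (nat_lit 573474) (nat_lit 12) (.e (nat_lit 57345) (nat_lit 0) (.e (nat_lit 5590) (nat_lit 310) .nil)))))))) (.g (nat_lit 4) .nil .nil))) 
(.lf (nat_lit 249850) (.g (nat_lit 2682) (.e (nat_lit 163869) (nat_lit 2) (.e (nat_lit 196670) (nat_lit 14) (.e (nat_lit 73746) (nat_lit 3) (.e (nat_lit 516129) (nat_lit 3) (.e (nat_lit 221210) (nat_lit 22) (.e (nat_lit 196617) (nat_lit 9) (.e (nat_lit 1182) (nat_lit 87) (.e (nat_lit 57930) (nat_lit 282) .nil)))))))) (.g (nat_lit 4) .nil .nil)))))) 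
(.nd (nat_lit 3) (.nd (nat_lit 4) (.nd (nat_lit 5) 
(.lf (nat_lit 249798) (.g (nat_lit 3353) (.e (nat_lit 163869) (nat_lit 2) (.e (nat_lit 196666) (nat_lit 13) (.e (nat_lit 65627) (nat_lit 13) (.e (nat_lit 393225) (nat_lit 9) (.e (nat_lit 335996) (nat_lit 1) (.e (nat_lit 57930) (nat_lit 282) .nil)))))) (.g (nat_lit 5) .nil .nil))) 
(.lf (nat_lit 249830) (.g (nat_lit 3860) (.e (nat_lit 163869) (nat_lit 2) (.e (nat_lit 196669) (nat_lit 14) (.e (nat_lit 73755) (nat_lit 8) (.e (nat_lit 557105) (nat_lit 14) (.e (nat_lit 180252) (nat_lit 10) (.e (nat_lit 573474) (nat_lit 12) (.e (nat_lit 57348) (nat_lit 0) (.e (nat_lit 5593) (nat_lit 310) .nil)))))))) (.g (nat_lit 8) .nil .nil)))) (.nd (nat_lit 5) 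
(.lf (nat_lit 249814) (.g (nat_lit 3286) (.e (nat_lit 163869) (nat_lit 2) (.e (nat_lit 196669) (nat_lit 14) (.e (nat_lit 73755) (nat_lit 8) (.e (nat_lit 557105) (nat_lit 14) (.e (nat_lit 180252) (nat_lit 10) (.e (nat_lit 573474) (nat_lit 12) (.e (nat_lit 57344) (nat_lit 0) (.e (nat_lit 5601) (nat_lit 310) .nil)))))))) (.g (nat_lit 5) .nil .nil))) 
(.lf (nat_lit 249846) (.g (nat_lit 2488) (.e (nat_lit 163869) (nat_lit 2) (.e (nat_lit 196669) (nat_lit 14) (.e (nat_lit 73755) (nat_lit 8) (.e (nat_lit 557105) (nat_lit 14) (.e (nat_lit 180252) (nat_lit 10) (.e (nat_lit 573474) (nat_lit 12) (.e (nat_lit 65280) (nat_lit 0) (.e (nat_lit 5603) (nat_lit 310) .nil)))))))) (.g (nat_lit 4) .nil .nil))))) (.nd (nat_lit 4) (.nd (nat_lit 5) 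
(.lf (nat_lit 249806) (.g (nat_lit 2558) (.e (nat_lit 163869) (nat_lit 2) (.e (nat_lit 196669) (nat_lit 14) (.e (nat_lit 73754) (nat_lit 8) (.e (nat_lit 557105) (nat_lit 14) (.e (nat_lit 180252) (nat_lit 10) (.e (nat_lit 573475) (nat_lit 12) (.e (nat_lit 57345) (nat_lit 0) (.e (nat_lit 5583) (nat_lit 310) .nil)))))))) (.g (nat_lit 4) .nil .nil))) 
(.lf (nat_lit 249838) (.g (nat_lit 2814) (.e (nat_lit 163869) (nat_lit 2) (.e (nat_lit 196669) (nat_lit 14) (.e (nat_lit 73755) (nat_lit 8) (.e (nat_lit 557105) (nat_lit 14) (.e (nat_lit 180252) (nat_lit 10) (.e (nat_lit 573474) (nat_lit 12) (.e (nat_lit 57355) (nat_lit 0) (.e (nat_lit 5601) (nat_lit 310) .nil)))))))) (.g (nat_lit 4) .nil .nil)))) (.nd (nat_lit 5) 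
(.lf (nat_lit 249822) (.g (nat_lit 2462) (.e (nat_lit 163869) (nat_lit 2) (.e (nat_lit 196669) (nat_lit 14) (.e (nat_lit 73755) (nat_lit 8) (.e (nat_lit 557105) (nat_lit 14) (.e (nat_lit 180252) (nat_lit 10) (.e (nat_lit 573474) (nat_lit 12) (.e (nat_lit 57345) (nat_lit 0) (.e (nat_lit 5595) (nat_lit 310) .nil)))))))) (.g (nat_lit 4) .nil .nil))) 
(.lf (nat_lit 249854) (.g (nat_lit 2784) (.e (nat_lit 163869) (nat_lit 2) (.e (nat_lit 196670) (nat_lit 14) (.e (nat_lit 73746) (nat_lit 3) (.e (nat_lit 516129) (nat_lit 3) (.e (nat_lit 221210) (nat_lit 22) (.e (nat_lit 196658) (nat_lit 12) (.e (nat_lit 57353) (nat_lit 0) (.e (nat_lit 5595) (nat_lit 310) .nil)))))))) (.g (nat_lit 4) .nil .nil)))))))) 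
(.nd (nat_lit 1) (.nd (nat_lit 2) (.nd (nat_lit 3) (.nd (nat_lit 4) (.nd (nat_lit 5) 
(.lf (nat_lit 249793) (.g (nat_lit 3410) (.e (nat_lit 163869) (nat_lit 2) (.e (nat_lit 196666) (nat_lit 13) (.e (nat_lit 65627) (nat_lit 13) (.e (nat_lit 393225) (nat_lit 9) (.e (nat_lit 335988) (nat_lit 1) (.e (nat_lit 57927) (nat_lit 282) .nil)))))) (.g (nat_lit 0) .nil .nil))) 
(.lf (nat_lit 249825) (.g (nat_lit 3792) (.e (nat_lit 163869) (nat_lit 2) (.e (nat_lit 196669) (nat_lit 14) (.e (nat_lit 73755) (nat_lit 8) (.e (nat_lit 557105) (nat_lit 14) (.e (nat_lit 180252) (nat_lit 10) (.e (nat_lit 573474) (nat_lit 12) (.e (nat_lit 57347) (nat_lit 0) (.e (nat_lit 5590) (nat_lit 310) .nil)))))))) (.g (nat_lit 6) .nil .nil)))) (.nd (nat_lit 5) 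
(.lf (nat_lit 249809) (.g (nat_lit 2532) (.e (nat_lit 163869) (nat_lit 2) (.e (nat_lit 196669) (nat_lit 14) (.e (nat_lit 73754) (nat_lit 8) (.e (nat_lit 557105) (nat_lit 14) (.e (nat_lit 180252) (nat_lit 10) (.e (nat_lit 573475) (nat_lit 12) (.e (nat_lit 65280) (nat_lit 0) (.e (nat_lit 5587) (nat_lit 310) .nil)))))))) (.g (nat_lit 4) .nil .nil))) 
(.lf (nat_lit 249841) (.g (nat_lit 3588) (.e (nat_lit 163869) (nat_lit 2) (.e (nat_lit 196669) (nat_lit 14) (.e (nat_lit 73755) (nat_lit 8) (.e (nat_lit 557105) (nat_lit 14) (.e (nat_lit 180252) (nat_lit 10) (.e (nat_lit 573474) (nat_lit 12) (.e (nat_lit 57356) (nat_lit 0) (.e (nat_lit 5601) (nat_lit 310) .nil)))))))) (.g (nat_lit 6) .nil .nil))))) (.nd (nat_lit 4) (.nd (nat_lit 5) 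
(.lf (nat_lit 249801) (.g (nat_lit 3345) (.e (nat_lit 163869) (nat_lit 2) (.e (nat_lit 196668) (nat_lit 14) (.e (nat_lit 73753) (nat_lit 8) (.e (nat_lit 557103) (nat_lit 14) (.e (nat_lit 180250) (nat_lit 10) (.e (nat_lit 573477) (nat_lit 12) (.e (nat_lit 57360) (nat_lit 0) (.e (nat_lit 5599) (nat_lit 310) .nil)))))))) (.g (nat_lit 4) .nil .nil))) 
(.lf (nat_lit 249833) (.g (nat_lit 2385) (.e (nat_lit 163869) (nat_lit 2) (.e (nat_lit 196669) (nat_lit 14) (.e (nat_lit 73755) (nat_lit 8) (.e (nat_lit 557105) (nat_lit 14) (.e (nat_lit 180252) (nat_lit 10) (.e (nat_lit 573474) (nat_lit 12) (.e (nat_lit 57349) (nat_lit 0) (.e (nat_lit 5591) (nat_lit 310) .nil)))))))) (.g (nat_lit 4) .nil .nil)))) (.nd (nat_lit 5) 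
(.lf (nat_lit 249817) (.g (nat_lit 3995) (.e (nat_lit 163869) (nat_lit 2) (.e (nat_lit 196669) (nat_lit 14) (.e (nat_lit 73755) (nat_lit 8) (.e (nat_lit 557105) (nat_lit 14) (.e (nat_lit 180252) (nat_lit 10) (.e (nat_lit 573474) (nat_lit 12) (.e (nat_lit 57345) (nat_lit 0) (.e (nat_lit 5583) (nat_lit 310) .nil)))))))) (.g (nat_lit 6) .nil .nil))) 
(.lf (nat_lit 249849) (.g (nat_lit 1961) (.e (nat_lit 163869) (nat_lit 2) (.e (nat_lit 196670) (nat_lit 14) (.e (nat_lit 73746) (nat_lit 3) (.e (nat_lit 516129) (nat_lit 3) (.e (nat_lit 221198) (nat_lit 20) .nil))))) .nil))))) (.nd (nat_lit 3) (.nd (nat_lit 4) (.nd (nat_lit 5) 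
(.lf (nat_lit 249797) (.g (nat_lit 3632) (.e (nat_lit 163869) (nat_lit 2) (.e (nat_lit 196666) (nat_lit 13) (.e (nat_lit 65627) (nat_lit 13) (.e (nat_lit 393225) (nat_lit 9) (.e (nat_lit 335996) (nat_lit 1) (.e (nat_lit 57929) (nat_lit 282) .nil)))))) (.g (nat_lit 0) .nil .nil))) 
(.lf (nat_lit 249829) (.g (nat_lit 1980) (.e (nat_lit 163869) (nat_lit 2) (.e (nat_lit 196669) (nat_lit 14) (.e (nat_lit 73755) (nat_lit 8) (.e (nat_lit 557105) (nat_lit 14) (.e (nat_lit 180252) (nat_lit 10) (.e (nat_lit 573474) (nat_lit 12) (.e (nat_lit 57347) (nat_lit 0) (.e (nat_lit 7936) (nat_lit 310) .nil)))))))) (.g (nat_lit 4) .nil .nil)))) (.nd (nat_lit 5) 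
(.lf (nat_lit 249813) (.g (nat_lit 2366) (.e (nat_lit 163869) (nat_lit 2) (.e (nat_lit 196669) (nat_lit 14) (.e (nat_lit 73755) (nat_lit 8) (.e (nat_lit 557105) (nat_lit 14) (.e (nat_lit 180252) (nat_lit 10) (.e (nat_lit 573474) (nat_lit 12) (.e (nat_lit 57344) (nat_lit 0) (.e (nat_lit 5592) (nat_lit 310) .nil)))))))) (.g (nat_lit 4) .nil .nil))) 
(.lf (nat_lit 249845) (.g (nat_lit 4269) (.e (nat_lit 163869) (nat_lit 2) (.e (nat_lit 196669) (nat_lit 14) (.e (nat_lit 73755) (nat_lit 8) (.e (nat_lit 557105) (nat_lit 14) (.e (nat_lit 180252) (nat_lit 10) (.e (nat_lit 573474) (nat_lit 12) (.e (nat_lit 65280) (nat_lit 0) (.e (nat_lit 5587) (nat_lit 310) .nil)))))))) (.g (nat_lit 6) .nil .nil))))) (.nd (nat_lit 4) (.nd (nat_lit 5) 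
(.lf (nat_lit 249805) (.g (nat_lit 2376) (.e (nat_lit 163869) (nat_lit 2) (.e (nat_lit 196669) (nat_lit 14) (.e (nat_lit 73754) (nat_lit 8) (.e (nat_lit 557105) (nat_lit 14) (.e (nat_lit 180252) (nat_lit 10) (.e (nat_lit 573475) (nat_lit 12) (.e (nat_lit 57344) (nat_lit 0) (.e (nat_lit 5587) (nat_lit 310) .nil)))))))) (.g (nat_lit 4) .nil .nil))) 
(.lf (nat_lit 249837) (.g (nat_lit 2421) (.e (nat_lit 163869) (nat_lit 2) (.e (nat_lit 196669) (nat_lit 14) (.e (nat_lit 73755) (nat_lit 8) (.e (nat_lit 557105) (nat_lit 14) (.e (nat_lit 180252) (nat_lit 10) (.e (nat_lit 573474) (nat_lit 12) (.e (nat_lit 57355) (nat_lit 0) (.e (nat_lit 5585) (nat_lit 310) .nil)))))))) (.g (nat_lit 4) .nil .nil)))) (.nd (nat_lit 5) 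
(.lf (nat_lit 249821) (.g (nat_lit 2484) (.e (nat_lit 163869) (nat_lit 2) (.e (nat_lit 196669) (nat_lit 14) (.e (nat_lit 73755) (nat_lit 8) (.e (nat_lit 557105) (nat_lit 14) (.e (nat_lit 180252) (nat_lit 10) (.e (nat_lit 573474) (nat_lit 12) (.e (nat_lit 57345) (nat_lit 0) (.e (nat_lit 5593) (nat_lit 310) .nil)))))))) (.g (nat_lit 4) .nil .nil))) 
(.lf (nat_lit 249853) (.g (nat_lit 2790) (.e (nat_lit 163869) (nat_lit 2) (.e (nat_lit 196670) (nat_lit 14) (.e (nat_lit 73746) (nat_lit 3) (.e (nat_lit 516129) (nat_lit 3) (.e (nat_lit 221210) (nat_lit 22) (.e (nat_lit 196635) (nat_lit 9) (.e (nat_lit 1181) (nat_lit 87) (.e (nat_lit 57930) (nat_lit 282) .nil)))))))) (.g (nat_lit 4) .nil .nil))))))) 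
(.nd (nat_lit 2) (.nd (nat_lit 3) (.nd (nat_lit 4) (.nd (nat_lit 5) 
(.lf (nat_lit 249795) (.g (nat_lit 2477) (.e (nat_lit 163869) (nat_lit 2) (.e (nat_lit 196666) (nat_lit 13) (.e (nat_lit 65627) (nat_lit 13) (.e (nat_lit 393225) (nat_lit 9) (.e (nat_lit 335995) (nat_lit 1) (.e (nat_lit 57930) (nat_lit 282) .nil)))))) (.g (nat_lit 4) .nil .nil))) 
(.lf (nat_lit 249827) (.g (nat_lit 4413) (.e (nat_lit 163869) (nat_lit 2) (.e (nat_lit 196669) (nat_lit 14) (.e (nat_lit 73755) (nat_lit 8) (.e (nat_lit 557105) (nat_lit 14) (.e (nat_lit 180252) (nat_lit 10) (.e (nat_lit 573474) (nat_lit 12) (.e (nat_lit 57347) (nat_lit 0) (.e (nat_lit 5592) (nat_lit 310) .nil)))))))) (.g (nat_lit 7) .nil .nil)))) (.nd (nat_lit 5) 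
(.lf (nat_lit 249811) (.g (nat_lit 2666) (.e (nat_lit 163869) (nat_lit 2) (.e (nat_lit 196669) (nat_lit 14) (.e (nat_lit 73755) (nat_lit 8) (.e (nat_lit 557105) (nat_lit 14) (.e (nat_lit 180252) (nat_lit 10) (.e (nat_lit 573474) (nat_lit 12) (.e (nat_lit 57344) (nat_lit 0) (.e (nat_lit 5586) (nat_lit 310) .nil)))))))) (.g (nat_lit 4) .nil .nil))) 
(.lf (nat_lit 249843) (.g (nat_lit 3904) (.e (nat_lit 163869) (nat_lit 2) (.e (nat_lit 196669) (nat_lit 14) (.e (nat_lit 73755) (nat_lit 8) (.e (nat_lit 557105) (nat_lit 14) (.e (nat_lit 180252) (nat_lit 10) (.e (nat_lit 573474) (nat_lit 12) (.e (nat_lit 57359) (nat_lit 0) (.e (nat_lit 5594) (nat_lit 310) .nil)))))))) (.g (nat_lit 6) .nil .nil))))) (.nd (nat_lit 4) (.nd (nat_lit 5) 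
(.lf (nat_lit 249803) (.g (nat_lit 3491) (.e (nat_lit 163869) (nat_lit 2) (.e (nat_lit 196668) (nat_lit 14) (.e (nat_lit 73753) (nat_lit 8) (.e (nat_lit 557105) (nat_lit 14) (.e (nat_lit 180252) (nat_lit 10) (.e (nat_lit 573474) (nat_lit 12) (.e (nat_lit 57347) (nat_lit 0) (.e (nat_lit 5592) (nat_lit 310) .nil)))))))) (.g (nat_lit 4) .nil .nil))) 
(.lf (nat_lit 249835) (.g (nat_lit 2444) (.e (nat_lit 163869) (nat_lit 2) (.e (nat_lit 196669) (nat_lit 14) (.e (nat_lit 73755) (nat_lit 8) (.e (nat_lit 557105) (nat_lit 14) (.e (nat_lit 180252) (nat_lit 10) (.e (nat_lit 573474) (nat_lit 12) (.e (nat_lit 57351) (nat_lit 0) (.e (nat_lit 5595) (nat_lit 310) .nil)))))))) (.g (nat_lit 4) .nil .nil)))) (.nd (nat_lit 5) 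
(.lf (nat_lit 249819) (.g (nat_lit 3075) (.e (nat_lit 163869) (nat_lit 2) (.e (nat_lit 196669) (nat_lit 14) (.e (nat_lit 73755) (nat_lit 8) (.e (nat_lit 557105) (nat_lit 14) (.e (nat_lit 180252) (nat_lit 10) (.e (nat_lit 573474) (nat_lit 12) (.e (nat_lit 57345) (nat_lit 0) (.e (nat_lit 5591) (nat_lit 310) .nil)))))))) (.g (nat_lit 5) .nil .nil))) 
(.lf (nat_lit 249851) (.g (nat_lit 2535) (.e (nat_lit 163869) (nat_lit 2) (.e (nat_lit 196670) (nat_lit 14) (.e (nat_lit 73746) (nat_lit 3) (.e (nat_lit 516129) (nat_lit 3) (.e (nat_lit 221210) (nat_lit 22) (.e (nat_lit 196626) (nat_lit 9) (.e (nat_lit 1183) (nat_lit 87) (.e (nat_lit 57929) (nat_lit 282) .nil)))))))) (.g (nat_lit 4) .nil .nil)))))) 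
(.nd (nat_lit 3) (.nd (nat_lit 4) (.nd (nat_lit 5) 
(.lf (nat_lit 249799) (.g (nat_lit 3741) (.e (nat_lit 163869) (nat_lit 2) (.e (nat_lit 196666) (nat_lit 13) (.e (nat_lit 65627) (nat_lit 13) (.e (nat_lit 393225) (nat_lit 9) (.e (nat_lit 335996) (nat_lit 1) (.e (nat_lit 57931) (nat_lit 282) .nil)))))) (.g (nat_lit 0) .nil .nil))) 
(.lf (nat_lit 249831) (.g (nat_lit 3517) (.e (nat_lit 163869) (nat_lit 2) (.e (nat_lit 196669) (nat_lit 14) (.e (nat_lit 73755) (nat_lit 8) (.e (nat_lit 557105) (nat_lit 14) (.e (nat_lit 180252) (nat_lit 10) (.e (nat_lit 573474) (nat_lit 12) (.e (nat_lit 57348) (nat_lit 0) (.e (nat_lit 5595) (nat_lit 310) .nil)))))))) (.g (nat_lit 6) .nil .nil)))) (.nd (nat_lit 5) 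
(.lf (nat_lit 249815) (.g (nat_lit 2149) (.e (nat_lit 163869) (nat_lit 2) (.e (nat_lit 196669) (nat_lit 14) (.e (nat_lit 73755) (nat_lit 8) (.e (nat_lit 557105) (nat_lit 14) (.e (nat_lit 180252) (nat_lit 10) (.e (nat_lit 573474) (nat_lit 12) (.e (nat_lit 57344) (nat_lit 0) (.e (nat_lit 5602) (nat_lit 310) .nil)))))))) (.g (nat_lit 4) .nil .nil))) 
(.lf (nat_lit 249847) (.g (nat_lit 1908) (.e (nat_lit 163869) (nat_lit 2) (.e (nat_lit 196670) (nat_lit 14) (.e (nat_lit 73746) (nat_lit 3) (.e (nat_lit 516129) (nat_lit 3) (.e (nat_lit 221196) (nat_lit 20) .nil))))) .nil)))) (.nd (nat_lit 4) (.nd (nat_lit 5) 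
(.lf (nat_lit 249807) (.g (nat_lit 2374) (.e (nat_lit 163869) (nat_lit 2) (.e (nat_lit 196669) (nat_lit 14) (.e (nat_lit 73754) (nat_lit 8) (.e (nat_lit 557105) (nat_lit 14) (.e (nat_lit 180252) (nat_lit 10) (.e (nat_lit 573475) (nat_lit 12) (.e (nat_lit 57359) (nat_lit 0) (.e (nat_lit 5594) (nat_lit 310) .nil)))))))) (.g (nat_lit 4) .nil .nil))) 
(.lf (nat_lit 249839) (.g (nat_lit 4350) (.e (nat_lit 163869) (nat_lit 2) (.e (nat_lit 196669) (nat_lit 14) (.e (nat_lit 73755) (nat_lit 8) (.e (nat_lit 557105) (nat_lit 14) (.e (nat_lit 180252) (nat_lit 10) (.e (nat_lit 573474) (nat_lit 12) (.e (nat_lit 57355) (nat_lit 0) (.e (nat_lit 5603) (nat_lit 310) .nil)))))))) (.g (nat_lit 6) .nil .nil)))) (.nd (nat_lit 5) 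
(.lf (nat_lit 249823) (.g (nat_lit 3972) (.e (nat_lit 163869) (nat_lit 2) (.e (nat_lit 196669) (nat_lit 14) (.e (nat_lit 73755) (nat_lit 8) (.e (nat_lit 557105) (nat_lit 14) (.e (nat_lit 180252) (nat_lit 10) (.e (nat_lit 573474) (nat_lit 12) (.e (nat_lit 57346) (nat_lit 0) (.e (nat_lit 5583) (nat_lit 310) .nil)))))))) (.g (nat_lit 6) .nil .nil))) 
(.lf (nat_lit 249855) (.g (nat_lit 2053) (.e (nat_lit 163869) (nat_lit 2) (.e (nat_lit 196670) (nat_lit 14) (.e (nat_lit 73746) (nat_lit 3) (.e (nat_lit 516129) (nat_lit 3) (.e (nat_lit 221210) (nat_lit 22) (.e (nat_lit 196658) (nat_lit 12) (.e (nat_lit 57355) (nat_lit 0) (.e (nat_lit 5603) (nat_lit 310) .nil)))))))) (.g (nat_lit 4) .nil .nil)))))))))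

noncomputable def tv3235 : DT := (.nd (nat_lit 0) (.nd (nat_lit 1) (.nd (nat_lit 2) (.nd (nat_lit 3) (.nd (nat_lit 4) (.nd (nat_lit 5) 
(.lf (nat_lit 249856) (.g (nat_lit 2722) (.e (nat_lit 163869) (nat_lit 2) (.e (nat_lit 196670) (nat_lit 14) (.e (nat_lit 73746) (nat_lit 3) (.e (nat_lit 516129) (nat_lit 3) (.e (nat_lit 221210) (nat_lit 22) (.e (nat_lit 196658) (nat_lit 12) (.e (nat_lit 65280) (nat_lit 0) (.e (nat_lit 5587) (nat_lit 310) .nil)))))))) (.g (nat_lit 4) .nil .nil))) 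
(.lf (nat_lit 249888) (.g (nat_lit 2341) (.e (nat_lit 163869) (nat_lit 2) (.e (nat_lit 196670) (nat_lit 14) (.e (nat_lit 73746) (nat_lit 3) (.e (nat_lit 516131) (nat_lit 3) (.e (nat_lit 221212) (nat_lit 22) (.e (nat_lit 196661) (nat_lit 12) (.e (nat_lit 57359) (nat_lit 0) (.e (nat_lit 5594) (nat_lit 310) .nil)))))))) (.g (nat_lit 4) .nil .nil)))) (.nd (nat_lit 5) 
(.lf (nat_lit 249872) (.g (nat_lit 3468) (.e (nat_lit 163869) (nat_lit 2) (.e (nat_lit 196670) (nat_lit 14) (.e (nat_lit 73746) (nat_lit 3) (.e (nat_lit 516129) (nat_lit 3) (.e (nat_lit 221214) (nat_lit 23) (.e (nat_lit 204821) (nat_lit 17) (.e (nat_lit 1086) (nat_lit 81) (.e (nat_lit 5599) (nat_lit 310) .nil)))))))) (.g (nat_lit 5) .nil .nil))) 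
(.lf (nat_lit 249904) (.g (nat_lit 3084) (.e (nat_lit 163869) (nat_lit 2) (.e (nat_lit 196670) (nat_lit 14) (.e (nat_lit 73753) (nat_lit 8) (.e (nat_lit 557103) (nat_lit 14) (.e (nat_lit 180250) (nat_lit 10) (.e (nat_lit 573474) (nat_lit 12) (.e (nat_lit 57348) (nat_lit 0) (.e (nat_lit 5593) (nat_lit 310) .nil)))))))) (.g (nat_lit 4) .nil .nil))))) (.nd (nat_lit 4) (.nd (nat_lit 5) 
(.lf (nat_lit 249864) (.g (nat_lit 2873) (.e (nat_lit 163869) (nat_lit 2) (.e (nat_lit 196670) (nat_lit 14) (.e (nat_lit 73746) (nat_lit 3) (.e (nat_lit 516129) (nat_lit 3) (.e (nat_lit 221210) (nat_lit 22) (.e (nat_lit 196661) (nat_lit 12) (.e (nat_lit 57358) (nat_lit 0) (.e (nat_lit 5596) (nat_lit 310) .nil)))))))) (.g (nat_lit 4) .nil .nil))) 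
(.lf (nat_lit 249896) (.g (nat_lit 3414) (.e (nat_lit 163869) (nat_lit 2) (.e (nat_lit 196670) (nat_lit 14) (.e (nat_lit 73746) (nat_lit 3) (.e (nat_lit 516131) (nat_lit 3) (.e (nat_lit 221215) (nat_lit 23) (.e (nat_lit 204821) (nat_lit 17) (.e (nat_lit 1040) (nat_lit 81) (.e (nat_lit 5603) (nat_lit 310) .nil)))))))) (.g (nat_lit 7) .nil .nil)))) (.nd (nat_lit 5) 
(.lf (nat_lit 249880) (.g (nat_lit 1963) (.e (nat_lit 163869) (nat_lit 2) (.e (nat_lit 196670) (nat_lit 14) (.e (nat_lit 73746) (nat_lit 3) (.e (nat_lit 516131) (nat_lit 3) (.e (nat_lit 221211) (nat_lit 22) (.e (nat_lit 196661) (nat_lit 12) (.e (nat_lit 57358) (nat_lit 0) (.e (nat_lit 5603) (nat_lit 310) .nil)))))))) (.g (nat_lit 4) .nil .nil))) 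
(.lf (nat_lit 249912) (.g (nat_lit 3895) (.e (nat_lit 163869) (nat_lit 2) (.e (nat_lit 196670) (nat_lit 14) (.e (nat_lit 73753) (nat_lit 8) (.e (nat_lit 557103) (nat_lit 14) (.e (nat_lit 180250) (nat_lit 10) (.e (nat_lit 573477) (nat_lit 12) (.e (nat_lit 57361) (nat_lit 0) (.e (nat_lit 5598) (nat_lit 310) .nil)))))))) (.g (nat_lit 5) .nil .nil)))))) 
(.nd (nat_lit 3) (.nd (nat_lit 4) (.nd (nat_lit 5) 
(.lf (nat_lit 249860) (.g (nat_lit 3676) (.e (nat_lit 163869) (nat_lit 2) (.e (nat_lit 196670) (nat_lit 14) (.e (nat_lit 73746) (nat_lit 3) (.e (nat_lit 516129) (nat_lit 3) (.e (nat_lit 221210) (nat_lit 22) (.e (nat_lit 196661) (nat_lit 12) (.e (nat_lit 57357) (nat_lit 0) (.e (nat_lit 5596) (nat_lit 310) .nil)))))))) (.g (nat_lit 5) .nil .nil))) 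
(.lf (nat_lit 249892) (.g (nat_lit 2450) (.e (nat_lit 163869) (nat_lit 2) (.e (nat_lit 196670) (nat_lit 14) (.e (nat_lit 73746) (nat_lit 3) (.e (nat_lit 516131) (nat_lit 3) (.e (nat_lit 221214) (nat_lit 23) (.e (nat_lit 204821) (nat_lit 17) (.e (nat_lit 1086) (nat_lit 81) (.e (nat_lit 5596) (nat_lit 310) .nil)))))))) (.g (nat_lit 4) .nil .nil)))) (.nd (nat_lit 5) 
(.lf (nat_lit 249876) (.g (nat_lit 3696) (.e (nat_lit 163869) (nat_lit 2) (.e (nat_lit 196670) (nat_lit 14) (.e (nat_lit 73746) (nat_lit 3) (.e (nat_lit 516129) (nat_lit 3) (.e (nat_lit 221215) (nat_lit 23) (.e (nat_lit 204821) (nat_lit 17) (.e (nat_lit 1086) (nat_lit 81) (.e (nat_lit 5597) (nat_lit 310) .nil)))))))) (.g (nat_lit 5) .nil .nil))) 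
(.lf (nat_lit 249908) (.g (nat_lit 2816) (.e (nat_lit 163869) (nat_lit 2) (.e (nat_lit 196670) (nat_lit 14) (.e (nat_lit 73753) (nat_lit 8) (.e (nat_lit 557103) (nat_lit 14) (.e (nat_lit 180250) (nat_lit 10) (.e (nat_lit 573475) (nat_lit 12) (.e (nat_lit 57356) (nat_lit 0) (.e (nat_lit 5603) (nat_lit 310) .nil)))))))) (.g (nat_lit 4) .nil .nil))))) (.nd (nat_lit 4) (.nd (nat_lit 5) 
(.lf (nat_lit 249868) (.g (nat_lit 2969) (.e (nat_lit 163869) (nat_lit 2) (.e (nat_lit 196670) (nat_lit 14) (.e (nat_lit 73746) (nat_lit 3) (.e (nat_lit 516129) (nat_lit 3) (.e (nat_lit 221210) (nat_lit 22) (.e (nat_lit 196661) (nat_lit 12) (.e (nat_lit 65280) (nat_lit 0) (.e (nat_lit 5586) (nat_lit 310) .nil)))))))) (.g (nat_lit 4) .nil .nil))) 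
(.lf (nat_lit 249900) (.g (nat_lit 2891) (.e (nat_lit 163869) (nat_lit 2) (.e (nat_lit 196670) (nat_lit 14) (.e (nat_lit 73753) (nat_lit 8) (.e (nat_lit 557103) (nat_lit 14) (.e (nat_lit 180250) (nat_lit 10) (.e (nat_lit 573474) (nat_lit 12) (.e (nat_lit 57344) (nat_lit 0) (.e (nat_lit 5603) (nat_lit 310) .nil)))))))) (.g (nat_lit 4) .nil .nil)))) (.nd (nat_lit 5) 
(.lf (nat_lit 249884) (.g (nat_lit 2507) (.e (nat_lit 163869) (nat_lit 2) (.e (nat_lit 196670) (nat_lit 14) (.e (nat_lit 73746) (nat_lit 3) (.e (nat_lit 516131) (nat_lit 3) (.e (nat_lit 221212) (nat_lit 22) (.e (nat_lit 196625) (nat_lit 9) (.e (nat_lit 1174) (nat_lit 87) (.e (nat_lit 57930) (nat_lit 282) .nil)))))))) (.g (nat_lit 4) .nil .nil))) 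
(.lf (nat_lit 249916) (.g (nat_lit 3705) (.e (nat_lit 163869) (nat_lit 2) (.e (nat_lit 196670) (nat_lit 14) (.e (nat_lit 73753) (nat_lit 8) (.e (nat_lit 557103) (nat_lit 14) (.e (nat_lit 180250) (nat_lit 10) (.e (nat_lit 573478) (nat_lit 12) (.e (nat_lit 57360) (nat_lit 0) (.e (nat_lit 5599) (nat_lit 310) .nil)))))))) (.g (nat_lit 5) .nil .nil))))))) 
(.nd (nat_lit 2) (.nd (nat_lit 3) (.nd (nat_lit 4) (.nd (nat_lit 5) 
(.lf (nat_lit 249858) (.g (nat_lit 4374) (.e (nat_lit 163869) (nat_lit 2) (.e (nat_lit 196670) (nat_lit 14) (.e (nat_lit 73746) (nat_lit 3) (.e (nat_lit 516129) (nat_lit 3) (.e (nat_lit 221210) (nat_lit 22) (.e (nat_lit 196660) (nat_lit 12) (.e (nat_lit 57354) (nat_lit 0) (.e (nat_lit 5601) (nat_lit 310) .nil)))))))) (.g (nat_lit 7) .nil .nil))) 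
(.lf (nat_lit 249890) (.g (nat_lit 3126) (.e (nat_lit 163869) (nat_lit 2) (.e (nat_lit 196670) (nat_lit 14) (.e (nat_lit 73746) (nat_lit 3) (.e (nat_lit 516131) (nat_lit 3) (.e (nat_lit 221212) (nat_lit 22) (.e (nat_lit 196661) (nat_lit 12) (.e (nat_lit 57361) (nat_lit 0) (.e (nat_lit 5599) (nat_lit 310) .nil)))))))) (.g (nat_lit 5) .nil .nil)))) (.nd (nat_lit 5) 
(.lf (nat_lit 249874) (.g (nat_lit 3727) (.e (nat_lit 163869) (nat_lit 2) (.e (nat_lit 196670) (nat_lit 14) (.e (nat_lit 73746) (nat_lit 3) (.e (nat_lit 516129) (nat_lit 3) (.e (nat_lit 221215) (nat_lit 23) (.e (nat_lit 204821) (nat_lit 17) (.e (nat_lit 1040) (nat_lit 81) (.e (nat_lit 5603) (nat_lit 310) .nil)))))))) (.g (nat_lit 5) .nil .nil))) 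
(.lf (nat_lit 249906) (.g (nat_lit 2970) (.e (nat_lit 163869) (nat_lit 2) (.e (nat_lit 196670) (nat_lit 14) (.e (nat_lit 73753) (nat_lit 8) (.e (nat_lit 557103) (nat_lit 14) (.e (nat_lit 180250) (nat_lit 10) (.e (nat_lit 573475) (nat_lit 12) (.e (nat_lit 57344) (nat_lit 0) (.e (nat_lit 5603) (nat_lit 310) .nil)))))))) (.g (nat_lit 4) .nil .nil))))) (.nd (nat_lit 4) (.nd (nat_lit 5) 
(.lf (nat_lit 249866) (.g (nat_lit 3280) (.e (nat_lit 163869) (nat_lit 2) (.e (nat_lit 196670) (nat_lit 14) (.e (nat_lit 73746) (nat_lit 3) (.e (nat_lit 516129) (nat_lit 3) (.e (nat_lit 221210) (nat_lit 22) (.e (nat_lit 196661) (nat_lit 12) (.e (nat_lit 57360) (nat_lit 0) (.e (nat_lit 5596) (nat_lit 310) .nil)))))))) (.g (nat_lit 5) .nil .nil))) 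
(.lf (nat_lit 249898) (.g (nat_lit 3380) (.e (nat_lit 163869) (nat_lit 2) (.e (nat_lit 196670) (nat_lit 14) (.e (nat_lit 73746) (nat_lit 3) (.e (nat_lit 516131) (nat_lit 3) (.e (nat_lit 221215) (nat_lit 23) (.e (nat_lit 204821) (nat_lit 17) (.e (nat_lit 1086) (nat_lit 81) (.e (nat_lit 5597) (nat_lit 310) .nil)))))))) (.g (nat_lit 5) .nil .nil)))) (.nd (nat_lit 5) 
(.lf (nat_lit 249882) (.g (nat_lit 3011) (.e (nat_lit 163869) (nat_lit 2) (.e (nat_lit 196670) (nat_lit 14) (.e (nat_lit 73746) (nat_lit 3) (.e (nat_lit 516131) (nat_lit 3) (.e (nat_lit 221211) (nat_lit 22) (.e (nat_lit 196661) (nat_lit 12) (.e (nat_lit 57361) (nat_lit 0) (.e (nat_lit 5597) (nat_lit 310) .nil)))))))) (.g (nat_lit 5) .nil .nil))) 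
(.lf (nat_lit 249914) (.g (nat_lit 2853) (.e (nat_lit 163869) (nat_lit 2) (.e (nat_lit 196670) (nat_lit 14) (.e (nat_lit 73753) (nat_lit 8) (.e (nat_lit 557103) (nat_lit 14) (.e (nat_lit 180250) (nat_lit 10) (.e (nat_lit 573478) (nat_lit 12) (.e (nat_lit 57356) (nat_lit 0) (.e (nat_lit 5603) (nat_lit 310) .nil)))))))) (.g (nat_lit 4) .nil .nil)))))) 
(.nd (nat_lit 3) (.nd (nat_lit 4) (.nd (nat_lit 5) 
(.lf (nat_lit 249862) (.g (nat_lit 3234) (.e (nat_lit 163869) (nat_lit 2) (.e (nat_lit 196670) (nat_lit 14) (.e (nat_lit 73746) (nat_lit 3) (.e (nat_lit 516129) (nat_lit 3) (.e (nat_lit 221210) (nat_lit 22) (.e (nat_lit 196661) (nat_lit 12) (.e (nat_lit 57357) (nat_lit 0) (.e (nat_lit 5601) (nat_lit 310) .nil)))))))) (.g (nat_lit 5) .nil .nil))) 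
(.lf (nat_lit 249894) (.g (nat_lit 3227) (.e (nat_lit 163869) (nat_lit 2) (.e (nat_lit 196670) (nat_lit 14) (.e (nat_lit 73746) (nat_lit 3) (.e (nat_lit 516131) (nat_lit 3) (.e (nat_lit 221214) (nat_lit 23) (.e (nat_lit 204821) (nat_lit 17) (.e (nat_lit 1086) (nat_lit 81) (.e (nat_lit 5598) (nat_lit 310) .nil)))))))) (.g (nat_lit 5) .nil .nil)))) (.nd (nat_lit 5) 
(.lf (nat_lit 249878) (.g (nat_lit 2303) (.e (nat_lit 163869) (nat_lit 2) (.e (nat_lit 196670) (nat_lit 14) (.e (nat_lit 73746) (nat_lit 3) (.e (nat_lit 516131) (nat_lit 3) (.e (nat_lit 221211) (nat_lit 22) (.e (nat_lit 196661) (nat_lit 12) (.e (nat_lit 57357) (nat_lit 0) (.e (nat_lit 5601) (nat_lit 310) .nil)))))))) (.g (nat_lit 4) .nil .nil))) 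
(.lf (nat_lit 249910) (.g (nat_lit 3097) (.e (nat_lit 163869) (nat_lit 2) (.e (nat_lit 196670) (nat_lit 14) (.e (nat_lit 73753) (nat_lit 8) (.e (nat_lit 557103) (nat_lit 14) (.e (nat_lit 180250) (nat_lit 10) (.e (nat_lit 573477) (nat_lit 12) (.e (nat_lit 57360) (nat_lit 0) (.e (nat_lit 5596) (nat_lit 310) .nil)))))))) (.g (nat_lit 4) .nil .nil))))) (.nd (nat_lit 4) (.nd (nat_lit 5) 
(.lf (nat_lit 249870) (.g (nat_lit 3552) (.e (nat_lit 163869) (nat_lit 2) (.e (nat_lit 196670) (nat_lit 14) (.e (nat_lit 73746) (nat_lit 3) (.e (nat_lit 516129) (nat_lit 3) (.e (nat_lit 221214) (nat_lit 23) (.e (nat_lit 204821) (nat_lit 17) (.e (nat_lit 1086) (nat_lit 81) (.e (nat_lit 5596) (nat_lit 310) .nil)))))))) (.g (nat_lit 5) .nil .nil))) 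
(.lf (nat_lit 249902) (.g (nat_lit 2924) (.e (nat_lit 163869) (nat_lit 2) (.e (nat_lit 196670) (nat_lit 14) (.e (nat_lit 73753) (nat_lit 8) (.e (nat_lit 557103) (nat_lit 14) (.e (nat_lit 180250) (nat_lit 10) (.e (nat_lit 573474) (nat_lit 12) (.e (nat_lit 57348) (nat_lit 0) (.e (nat_lit 5591) (nat_lit 310) .nil)))))))) (.g (nat_lit 4) .nil .nil)))) (.nd (nat_lit 5) 
(.lf (nat_lit 249886) (.g (nat_lit 2936) (.e (nat_lit 163869) (nat_lit 2) (.e (nat_lit 196670) (nat_lit 14) (.e (nat_lit 73746) (nat_lit 3) (.e (nat_lit 516131) (nat_lit 3) (.e (nat_lit 221212) (nat_lit 22) (.e (nat_lit 196660) (nat_lit 12) (.e (nat_lit 57354) (nat_lit 0) (.e (nat_lit 5596) (nat_lit 310) .nil)))))))) (.g (nat_lit 5) .nil .nil))) 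
(.lf (nat_lit 249918) (.g (nat_lit 3896) (.e (nat_lit 163869) (nat_lit 2) (.e (nat_lit 196670) (nat_lit 14) (.e (nat_lit 73753) (nat_lit 8) (.e (nat_lit 557105) (nat_lit 14) (.e (nat_lit 180251) (nat_lit 10) (.e (nat_lit 573477) (nat_lit 12) (.e (nat_lit 57360) (nat_lit 0) (.e (nat_lit 5599) (nat_lit 310) .nil)))))))) (.g (nat_lit 5) .nil .nil)))))))) 
(.nd (nat_lit 1) (.nd (nat_lit 2) (.nd (nat_lit 3) (.nd (nat_lit 4) (.nd (nat_lit 5) 
(.lf (nat_lit 249857) (.g (nat_lit 3788) (.e (nat_lit 163869) (nat_lit 2) (.e (nat_lit 196670) (nat_lit 14) (.e (nat_lit 73746) (nat_lit 3) (.e (nat_lit 516129) (nat_lit 3) (.e (nat_lit 221210) (nat_lit 22) (.e (nat_lit 196660) (nat_lit 12) (.e (nat_lit 57354) (nat_lit 0) (.e (nat_lit 5596) (nat_lit 310) .nil)))))))) (.g (nat_lit 5) .nil .nil))) 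
(.lf (nat_lit 249889) (.g (nat_lit 2892) (.e (nat_lit 163869) (nat_lit 2) (.e (nat_lit 196670) (nat_lit 14) (.e (nat_lit 73746) (nat_lit 3) (.e (nat_lit 516131) (nat_lit 3) (.e (nat_lit 221212) (nat_lit 22) (.e (nat_lit 196661) (nat_lit 12) (.e (nat_lit 57361) (nat_lit 0) (.e (nat_lit 5598) (nat_lit 310) .nil)))))))) (.g (nat_lit 5) .nil .nil)))) (.nd (nat_lit 5) 
(.lf (nat_lit 249873) (.g (nat_lit 2770) (.e (nat_lit 163869) (nat_lit 2) (.e (nat_lit 196670) (nat_lit 14) (.e (nat_lit 73746) (nat_lit 3) (.e (nat_lit 516129) (nat_lit 3) (.e (nat_lit 221215) (nat_lit 23) (.e (nat_lit 204821) (nat_lit 17) (.e (nat_lit 1040) (nat_lit 81) (.e (nat_lit 5596) (nat_lit 310) .nil)))))))) (.g (nat_lit 4) .nil .nil))) 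
(.lf (nat_lit 249905) (.g (nat_lit 2744) (.e (nat_lit 163869) (nat_lit 2) (.e (nat_lit 196670) (nat_lit 14) (.e (nat_lit 73753) (nat_lit 8) (.e (nat_lit 557103) (nat_lit 14) (.e (nat_lit 180250) (nat_lit 10) (.e (nat_lit 573475) (nat_lit 12) (.e (nat_lit 57344) (nat_lit 0) (.e (nat_lit 5587) (nat_lit 310) .nil)))))))) (.g (nat_lit 4) .nil .nil))))) (.nd (nat_lit 4) (.nd (nat_lit 5) 
(.lf (nat_lit 249865) (.g (nat_lit 3041) (.e (nat_lit 163869) (nat_lit 2) (.e (nat_lit 196670) (nat_lit 14) (.e (nat_lit 73746) (nat_lit 3) (.e (nat_lit 516129) (nat_lit 3) (.e (nat_lit 221210) (nat_lit 22) (.e (nat_lit 196661) (nat_lit 12) (.e (nat_lit 57358) (nat_lit 0) (.e (nat_lit 5603) (nat_lit 310) .nil)))))))) (.g (nat_lit 5) .nil .nil))) 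
(.lf (nat_lit 249897) (.g (nat_lit 3209) (.e (nat_lit 163869) (nat_lit 2) (.e (nat_lit 196670) (nat_lit 14) (.e (nat_lit 73746) (nat_lit 3) (.e (nat_lit 516131) (nat_lit 3) (.e (nat_lit 221215) (nat_lit 23) (.e (nat_lit 204821) (nat_lit 17) (.e (nat_lit 1086) (nat_lit 81) (.e (nat_lit 5596) (nat_lit 310) .nil)))))))) (.g (nat_lit 5) .nil .nil)))) (.nd (nat_lit 5) 
(.lf (nat_lit 249881) (.g (nat_lit 2457) (.e (nat_lit 163869) (nat_lit 2) (.e (nat_lit 196670) (nat_lit 14) (.e (nat_lit 73746) (nat_lit 3) (.e (nat_lit 516131) (nat_lit 3) (.e (nat_lit 221211) (nat_lit 22) (.e (nat_lit 196661) (nat_lit 12) (.e (nat_lit 57360) (nat_lit 0) (.e (nat_lit 5596) (nat_lit 310) .nil)))))))) (.g (nat_lit 4) .nil .nil))) 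
(.lf (nat_lit 249913) (.g (nat_lit 2894) (.e (nat_lit 163869) (nat_lit 2) (.e (nat_lit 196670) (nat_lit 14) (.e (nat_lit 73753) (nat_lit 8) (.e (nat_lit 557103) (nat_lit 14) (.e (nat_lit 180250) (nat_lit 10) (.e (nat_lit 573478) (nat_lit 12) (.e (nat_lit 57344) (nat_lit 0) (.e (nat_lit 5603) (nat_lit 310) .nil)))))))) (.g (nat_lit 4) .nil .nil)))))) 
(.nd (nat_lit 3) (.nd (nat_lit 4) (.nd (nat_lit 5) 
(.lf (nat_lit 249861) (.g (nat_lit 2966) (.e (nat_lit 163869) (nat_lit 2) (.e (nat_lit 196670) (nat_lit 14) (.e (nat_lit 73746) (nat_lit 3) (.e (nat_lit 516129) (nat_lit 3) (.e (nat_lit 221210) (nat_lit 22) (.e (nat_lit 196661) (nat_lit 12) (.e (nat_lit 57357) (nat_lit 0) (.e (nat_lit 5600) (nat_lit 310) .nil)))))))) (.g (nat_lit 4) .nil .nil))) 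
(.lf (nat_lit 249893) (.g (nat_lit 2621) (.e (nat_lit 163869) (nat_lit 2) (.e (nat_lit 196670) (nat_lit 14) (.e (nat_lit 73746) (nat_lit 3) (.e (nat_lit 516131) (nat_lit 3) (.e (nat_lit 221214) (nat_lit 23) (.e (nat_lit 204821) (nat_lit 17) (.e (nat_lit 1086) (nat_lit 81) (.e (nat_lit 5597) (nat_lit 310) .nil)))))))) (.g (nat_lit 4) .nil .nil)))) (.nd (nat_lit 5) 
(.lf (nat_lit 249877) (.g (nat_lit 2395) (.e (nat_lit 163869) (nat_lit 2) (.e (nat_lit 196670) (nat_lit 14) (.e (nat_lit 73746) (nat_lit 3) (.e (nat_lit 516131) (nat_lit 3) (.e (nat_lit 221211) (nat_lit 22) (.e (nat_lit 196617) (nat_lit 9) (.e (nat_lit 1182) (nat_lit 87) (.e (nat_lit 57930) (nat_lit 282) .nil)))))))) (.g (nat_lit 4) .nil .nil))) 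
(.lf (nat_lit 249909) (.g (nat_lit 3033) (.e (nat_lit 163869) (nat_lit 2) (.e (nat_lit 196670) (nat_lit 14) (.e (nat_lit 73753) (nat_lit 8) (.e (nat_lit 557103) (nat_lit 14) (.e (nat_lit 180250) (nat_lit 10) (.e (nat_lit 573475) (nat_lit 12) (.e (nat_lit 57360) (nat_lit 0) (.e (nat_lit 5596) (nat_lit 310) .nil)))))))) (.g (nat_lit 4) .nil .nil))))) (.nd (nat_lit 4) (.nd (nat_lit 5) 
(.lf (nat_lit 249869) (.g (nat_lit 2789) (.e (nat_lit 163869) (nat_lit 2) (.e (nat_lit 196670) (nat_lit 14) (.e (nat_lit 73746) (nat_lit 3) (.e (nat_lit 516129) (nat_lit 3) (.e (nat_lit 221214) (nat_lit 23) (.e (nat_lit 204821) (nat_lit 17) (.e (nat_lit 1040) (nat_lit 81) (.e (nat_lit 5596) (nat_lit 310) .nil)))))))) (.g (nat_lit 4) .nil .nil))) 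
(.lf (nat_lit 249901) (.g (nat_lit 2662) (.e (nat_lit 163869) (nat_lit 2) (.e (nat_lit 196670) (nat_lit 14) (.e (nat_lit 73753) (nat_lit 8) (.e (nat_lit 557103) (nat_lit 14) (.e (nat_lit 180250) (nat_lit 10) (.e (nat_lit 573474) (nat_lit 12) (.e (nat_lit 57346) (nat_lit 0) (.e (nat_lit 5583) (nat_lit 310) .nil)))))))) (.g (nat_lit 4) .nil .nil)))) (.nd (nat_lit 5) 
(.lf (nat_lit 249885) (.g (nat_lit 2472) (.e (nat_lit 163869) (nat_lit 2) (.e (nat_lit 196670) (nat_lit 14) (.e (nat_lit 73746) (nat_lit 3) (.e (nat_lit 516131) (nat_lit 3) (.e (nat_lit 221212) (nat_lit 22) (.e (nat_lit 196659) (nat_lit 12) (.e (nat_lit 57354) (nat_lit 0) (.e (nat_lit 5601) (nat_lit 310) .nil)))))))) (.g (nat_lit 4) .nil .nil))) 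
(.lf (nat_lit 249917) (.g (nat_lit 3205) (.e (nat_lit 163869) (nat_lit 2) (.e (nat_lit 196670) (nat_lit 14) (.e (nat_lit 73753) (nat_lit 8) (.e (nat_lit 557105) (nat_lit 14) (.e (nat_lit 180251) (nat_lit 10) (.e (nat_lit 573477) (nat_lit 12) (.e (nat_lit 57360) (nat_lit 0) (.e (nat_lit 5596) (nat_lit 310) .nil)))))))) (.g (nat_lit 4) .nil .nil))))))) 
(.nd (nat_lit 2) (.nd (nat_lit 3) (.nd (nat_lit 4) (.nd (nat_lit 5) 
(.lf (nat_lit 249859) (.g (nat_lit 2680) (.e (nat_lit 163869) (nat_lit 2) (.e (nat_lit 196670) (nat_lit 14) (.e (nat_lit 73746) (nat_lit 3) (.e (nat_lit 516129) (nat_lit 3) (.e (nat_lit 221210) (nat_lit 22) (.e (nat_lit 196661) (nat_lit 12) (.e (nat_lit 57353) (nat_lit 0) (.e (nat_lit 5595) (nat_lit 310) .nil)))))))) (.g (nat_lit 4) .nil .nil))) 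
(.lf (nat_lit 249891) (.g (nat_lit 2644) (.e (nat_lit 163869) (nat_lit 2) (.e (nat_lit 196670) (nat_lit 14) (.e (nat_lit 73746) (nat_lit 3) (.e (nat_lit 516131) (nat_lit 3) (.e (nat_lit 221214) (nat_lit 23) (.e (nat_lit 204821) (nat_lit 17) (.e (nat_lit 1040) (nat_lit 81) (.e (nat_lit 5603) (nat_lit 310) .nil)))))))) (.g (nat_lit 5) .nil .nil)))) (.nd (nat_lit 5) 
(.lf (nat_lit 249875) (.g (nat_lit 3525) (.e (nat_lit 163869) (nat_lit 2) (.e (nat_lit 196670) (nat_lit 14) (.e (nat_lit 73746) (nat_lit 3) (.e (nat_lit 516129) (nat_lit 3) (.e (nat_lit 221215) (nat_lit 23) (.e (nat_lit 204821) (nat_lit 17) (.e (nat_lit 1086) (nat_lit 81) (.e (nat_lit 5596) (nat_lit 310) .nil)))))))) (.g (nat_lit 5) .nil .nil))) 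
(.lf (nat_lit 249907) (.g (nat_lit 3076) (.e (nat_lit 163869) (nat_lit 2) (.e (nat_lit 196670) (nat_lit 14) (.e (nat_lit 73753) (nat_lit 8) (.e (nat_lit 557103) (nat_lit 14) (.e (nat_lit 180250) (nat_lit 10) (.e (nat_lit 573475) (nat_lit 12) (.e (nat_lit 57345) (nat_lit 0) (.e (nat_lit 5583) (nat_lit 310) .nil)))))))) (.g (nat_lit 4) .nil .nil))))) (.nd (nat_lit 4) (.nd (nat_lit 5) 
(.lf (nat_lit 249867) (.g (nat_lit 3881) (.e (nat_lit 163869) (nat_lit 2) (.e (nat_lit 196670) (nat_lit 14) (.e (nat_lit 73746) (nat_lit 3) (.e (nat_lit 516129) (nat_lit 3) (.e (nat_lit 221210) (nat_lit 22) (.e (nat_lit 196661) (nat_lit 12) (.e (nat_lit 57361) (nat_lit 0) (.e (nat_lit 5597) (nat_lit 310) .nil)))))))) (.g (nat_lit 5) .nil .nil))) 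
(.lf (nat_lit 249899) (.g (nat_lit 3125) (.e (nat_lit 163869) (nat_lit 2) (.e (nat_lit 196670) (nat_lit 14) (.e (nat_lit 73746) (nat_lit 3) (.e (nat_lit 516131) (nat_lit 3) (.e (nat_lit 221215) (nat_lit 23) (.e (nat_lit 204821) (nat_lit 17) (.e (nat_lit 1086) (nat_lit 81) (.e (nat_lit 5599) (nat_lit 310) .nil)))))))) (.g (nat_lit 5) .nil .nil)))) (.nd (nat_lit 5) 
(.lf (nat_lit 249883) (.g (nat_lit 3777) (.e (nat_lit 163869) (nat_lit 2) (.e (nat_lit 196670) (nat_lit 14) (.e (nat_lit 73746) (nat_lit 3) (.e (nat_lit 516131) (nat_lit 3) (.e (nat_lit 221212) (nat_lit 22) (.e (nat_lit 196624) (nat_lit 9) (.e (nat_lit 1186) (nat_lit 87) (.e (nat_lit 57926) (nat_lit 282) .nil)))))))) (.g (nat_lit 6) .nil .nil))) 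
(.lf (nat_lit 249915) (.g (nat_lit 3014) (.e (nat_lit 163869) (nat_lit 2) (.e (nat_lit 196670) (nat_lit 14) (.e (nat_lit 73753) (nat_lit 8) (.e (nat_lit 557103) (nat_lit 14) (.e (nat_lit 180250) (nat_lit 10) (.e (nat_lit 573478) (nat_lit 12) (.e (nat_lit 57360) (nat_lit 0) (.e (nat_lit 5596) (nat_lit 310) .nil)))))))) (.g (nat_lit 4) .nil .nil)))))) 
(.nd (nat_lit 3) (.nd (nat_lit 4) (.nd (nat_lit 5) 
(.lf (nat_lit 249863) (.g (nat_lit 3341) (.e (nat_lit 163869) (nat_lit 2) (.e (nat_lit 196670) (nat_lit 14) (.e (nat_lit 73746) (nat_lit 3) (.e (nat_lit 516129) (nat_lit 3) (.e (nat_lit 221210) (nat_lit 22) (.e (nat_lit 196661) (nat_lit 12) (.e (nat_lit 57357) (nat_lit 0) (.e (nat_lit 5602) (nat_lit 310) .nil)))))))) (.g (nat_lit 5) .nil .nil))) 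
(.lf (nat_lit 249895) (.g (nat_lit 2457) (.e (nat_lit 163869) (nat_lit 2) (.e (nat_lit 196670) (nat_lit 14) (.e (nat_lit 73746) (nat_lit 3) (.e (nat_lit 516131) (nat_lit 3) (.e (nat_lit 221215) (nat_lit 23) (.e (nat_lit 204821) (nat_lit 17) (.e (nat_lit 1040) (nat_lit 81) (.e (nat_lit 5596) (nat_lit 310) .nil)))))))) (.g (nat_lit 4) .nil .nil)))) (.nd (nat_lit 5) 
(.lf (nat_lit 249879) (.g (nat_lit 2410) (.e (nat_lit 163869) (nat_lit 2) (.e (nat_lit 196670) (nat_lit 14) (.e (nat_lit 73746) (nat_lit 3) (.e (nat_lit 516131) (nat_lit 3) (.e (nat_lit 221211) (nat_lit 22) (.e (nat_lit 196661) (nat_lit 12) (.e (nat_lit 57357) (nat_lit 0) (.e (nat_lit 5602) (nat_lit 310) .nil)))))))) (.g (nat_lit 4) .nil .nil))) 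
(.lf (nat_lit 249911) (.g (nat_lit 3788) (.e (nat_lit 163869) (nat_lit 2) (.e (nat_lit 196670) (nat_lit 14) (.e (nat_lit 73753) (nat_lit 8) (.e (nat_lit 557103) (nat_lit 14) (.e (nat_lit 180250) (nat_lit 10) (.e (nat_lit 573477) (nat_lit 12) (.e (nat_lit 57360) (nat_lit 0) (.e (nat_lit 5599) (nat_lit 310) .nil)))))))) (.g (nat_lit 5) .nil .nil))))) (.nd (nat_lit 4) (.nd (nat_lit 5) 
(.lf (nat_lit 249871) (.g (nat_lit 3723) (.e (nat_lit 163869) (nat_lit 2) (.e (nat_lit 196670) (nat_lit 14) (.e (nat_lit 73746) (nat_lit 3) (.e (nat_lit 516129) (nat_lit 3) (.e (nat_lit 221214) (nat_lit 23) (.e (nat_lit 204821) (nat_lit 17) (.e (nat_lit 1086) (nat_lit 81) (.e (nat_lit 5597) (nat_lit 310) .nil)))))))) (.g (nat_lit 5) .nil .nil))) 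
(.lf (nat_lit 249903) (.g (nat_lit 2870) (.e (nat_lit 163869) (nat_lit 2) (.e (nat_lit 196670) (nat_lit 14) (.e (nat_lit 73753) (nat_lit 8) (.e (nat_lit 557103) (nat_lit 14) (.e (nat_lit 180250) (nat_lit 10) (.e (nat_lit 573474) (nat_lit 12) (.e (nat_lit 57348) (nat_lit 0) (.e (nat_lit 5592) (nat_lit 310) .nil)))))))) (.g (nat_lit 4) .nil .nil)))) (.nd (nat_lit 5) 
(.lf (nat_lit 249887) (.g (nat_lit 3522) (.e (nat_lit 163869) (nat_lit 2) (.e (nat_lit 196670) (nat_lit 14) (.e (nat_lit 73746) (nat_lit 3) (.e (nat_lit 516131) (nat_lit 3) (.e (nat_lit 221212) (nat_lit 22) (.e (nat_lit 196660) (nat_lit 12) (.e (nat_lit 57354) (nat_lit 0) (.e (nat_lit 5601) (nat_lit 310) .nil)))))))) (.g (nat_lit 7) .nil .nil))) 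
(.lf (nat_lit 249919) (.g (nat_lit 2957) (.e (nat_lit 163869) (nat_lit 2) (.e (nat_lit 196670) (nat_lit 14) (.e (nat_lit 73753) (nat_lit 8) (.e (nat_lit 557105) (nat_lit 14) (.e (nat_lit 180251) (nat_lit 10) (.e (nat_lit 573477) (nat_lit 12) (.e (nat_lit 57361) (nat_lit 0) (.e (nat_lit 5597) (nat_lit 310) .nil)))))))) (.g (nat_lit 4) .nil .nil)))))))))

noncomputable def tv3236 : DT := (.nd (nat_lit 0) (.nd (nat_lit 1) (.nd (nat_lit 2) (.nd (nat_lit 3) (.nd (nat_lit 4) (.nd (nat_lit 5) 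
(.lf (nat_lit 249920) (.g (nat_lit 4003) (.e (nat_lit 163869) (nat_lit 2) (.e (nat_lit 196670) (nat_lit 14) (.e (nat_lit 73753) (nat_lit 8) (.e (nat_lit 557105) (nat_lit 14) (.e (nat_lit 180251) (nat_lit 10) (.e (nat_lit 573477) (nat_lit 12) (.e (nat_lit 57361) (nat_lit 0) (.e (nat_lit 5598) (nat_lit 310) .nil)))))))) (.g (nat_lit 5) .nil .nil))) 
(.lf (nat_lit 249952) (.g (nat_lit 5305) (.e (nat_lit 163869) (nat_lit 2) (.e (nat_lit 196670) (nat_lit 14) (.e (nat_lit 73753) (nat_lit 8) (.e (nat_lit 557105) (nat_lit 14) (.e (nat_lit 180252) (nat_lit 10) (.e (nat_lit 573474) (nat_lit 12) (.e (nat_lit 57347) (nat_lit 0) (.e (nat_lit 5591) (nat_lit 310) .nil)))))))) (.g (nat_lit 7) .nil .nil)))) (.nd (nat_lit 5) 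
(.lf (nat_lit 249936) (.g (nat_lit 3489) (.e (nat_lit 163869) (nat_lit 2) (.e (nat_lit 196670) (nat_lit 14) (.e (nat_lit 73753) (nat_lit 8) (.e (nat_lit 557105) (nat_lit 14) (.e (nat_lit 180252) (nat_lit 10) (.e (nat_lit 573474) (nat_lit 12) (.e (nat_lit 57344) (nat_lit 0) (.e (nat_lit 5600) (nat_lit 310) .nil)))))))) (.g (nat_lit 5) .nil .nil))) 
(.lf (nat_lit 249968) (.g (nat_lit 4141) (.e (nat_lit 163869) (nat_lit 2) (.e (nat_lit 196670) (nat_lit 14) (.e (nat_lit 73753) (nat_lit 8) (.e (nat_lit 557105) (nat_lit 14) (.e (nat_lit 180252) (nat_lit 10) (.e (nat_lit 573474) (nat_lit 12) (.e (nat_lit 57355) (nat_lit 0) (.e (nat_lit 5586) (nat_lit 310) .nil)))))))) (.g (nat_lit 5) .nil .nil))))) (.nd (nat_lit 4) (.nd (nat_lit 5) 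
(.lf (nat_lit 249928) (.g (nat_lit 2990) (.e (nat_lit 163869) (nat_lit 2) (.e (nat_lit 196670) (nat_lit 14) (.e (nat_lit 73753) (nat_lit 8) (.e (nat_lit 557105) (nat_lit 14) (.e (nat_lit 180251) (nat_lit 10) (.e (nat_lit 573478) (nat_lit 12) (.e (nat_lit 65280) (nat_lit 0) (.e (nat_lit 5587) (nat_lit 310) .nil)))))))) (.g (nat_lit 4) .nil .nil))) 
(.lf (nat_lit 249960) (.g (nat_lit 5114) (.e (nat_lit 163869) (nat_lit 2) (.e (nat_lit 196670) (nat_lit 14) (.e (nat_lit 73753) (nat_lit 8) (.e (nat_lit 557105) (nat_lit 14) (.e (nat_lit 180252) (nat_lit 10) (.e (nat_lit 573474) (nat_lit 12) (.e (nat_lit 57348) (nat_lit 0) (.e (nat_lit 5593) (nat_lit 310) .nil)))))))) (.g (nat_lit 8) .nil .nil)))) (.nd (nat_lit 5) 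
(.lf (nat_lit 249944) (.g (nat_lit 3611) (.e (nat_lit 163869) (nat_lit 2) (.e (nat_lit 196670) (nat_lit 14) (.e (nat_lit 73753) (nat_lit 8) (.e (nat_lit 557105) (nat_lit 14) (.e (nat_lit 180252) (nat_lit 10) (.e (nat_lit 573474) (nat_lit 12) (.e (nat_lit 57345) (nat_lit 0) (.e (nat_lit 5593) (nat_lit 310) .nil)))))))) (.g (nat_lit 5) .nil .nil))) 
(.lf (nat_lit 249976) (.g (nat_lit 3789) (.e (nat_lit 163869) (nat_lit 2) (.e (nat_lit 196670) (nat_lit 14) (.e (nat_lit 73753) (nat_lit 8) (.e (nat_lit 557105) (nat_lit 14) (.e (nat_lit 180252) (nat_lit 10) (.e (nat_lit 573474) (nat_lit 12) (.e (nat_lit 57358) (nat_lit 0) (.e (nat_lit 5602) (nat_lit 310) .nil)))))))) (.g (nat_lit 5) .nil .nil)))))) 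
(.nd (nat_lit 3) (.nd (nat_lit 4) (.nd (nat_lit 5) 
(.lf (nat_lit 249924) (.g (nat_lit 2969) (.e (nat_lit 163869) (nat_lit 2) (.e (nat_lit 196670) (nat_lit 14) (.e (nat_lit 73753) (nat_lit 8) (.e (nat_lit 557105) (nat_lit 14) (.e (nat_lit 180251) (nat_lit 10) (.e (nat_lit 573478) (nat_lit 12) (.e (nat_lit 57344) (nat_lit 0) (.e (nat_lit 5603) (nat_lit 310) .nil)))))))) (.g (nat_lit 4) .nil .nil))) 
(.lf (nat_lit 249956) (.g (nat_lit 3007) (.e (nat_lit 163869) (nat_lit 2) (.e (nat_lit 196670) (nat_lit 14) (.e (nat_lit 73753) (nat_lit 8) (.e (nat_lit 557105) (nat_lit 14) (.e (nat_lit 180252) (nat_lit 10) (.e (nat_lit 573474) (nat_lit 12) (.e (nat_lit 57347) (nat_lit 0) (.e (nat_lit 7936) (nat_lit 310) .nil)))))))) (.g (nat_lit 5) .nil .nil)))) (.nd (nat_lit 5) 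
(.lf (nat_lit 249940) (.g (nat_lit 4840) (.e (nat_lit 163869) (nat_lit 2) (.e (nat_lit 196670) (nat_lit 14) (.e (nat_lit 73753) (nat_lit 8) (.e (nat_lit 557105) (nat_lit 14) (.e (nat_lit 180252) (nat_lit 10) (.e (nat_lit 573474) (nat_lit 12) (.e (nat_lit 57345) (nat_lit 0) (.e (nat_lit 5583) (nat_lit 310) .nil)))))))) (.g (nat_lit 6) .nil .nil))) 
(.lf (nat_lit 249972) (.g (nat_lit 3662) (.e (nat_lit 163869) (nat_lit 2) (.e (nat_lit 196670) (nat_lit 14) (.e (nat_lit 73753) (nat_lit 8) (.e (nat_lit 557105) (nat_lit 14) (.e (nat_lit 180252) (nat_lit 10) (.e (nat_lit 573474) (nat_lit 12) (.e (nat_lit 57356) (nat_lit 0) (.e (nat_lit 5596) (nat_lit 310) .nil)))))))) (.g (nat_lit 5) .nil .nil))))) (.nd (nat_lit 4) (.nd (nat_lit 5) 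
(.lf (nat_lit 249932) (.g (nat_lit 3095) (.e (nat_lit 163869) (nat_lit 2) (.e (nat_lit 196670) (nat_lit 14) (.e (nat_lit 73753) (nat_lit 8) (.e (nat_lit 557105) (nat_lit 14) (.e (nat_lit 180252) (nat_lit 10) (.e (nat_lit 573474) (nat_lit 12) (.e (nat_lit 57344) (nat_lit 0) (.e (nat_lit 5585) (nat_lit 310) .nil)))))))) (.g (nat_lit 4) .nil .nil))) 
(.lf (nat_lit 249964) (.g (nat_lit 3209) (.e (nat_lit 163869) (nat_lit 2) (.e (nat_lit 196670) (nat_lit 14) (.e (nat_lit 73753) (nat_lit 8) (.e (nat_lit 557105) (nat_lit 14) (.e (nat_lit 180252) (nat_lit 10) (.e (nat_lit 573474) (nat_lit 12) (.e (nat_lit 57351) (nat_lit 0) (.e (nat_lit 5584) (nat_lit 310) .nil)))))))) (.g (nat_lit 4) .nil .nil)))) (.nd (nat_lit 5) 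
(.lf (nat_lit 249948) (.g (nat_lit 4817) (.e (nat_lit 163869) (nat_lit 2) (.e (nat_lit 196670) (nat_lit 14) (.e (nat_lit 73753) (nat_lit 8) (.e (nat_lit 557105) (nat_lit 14) (.e (nat_lit 180252) (nat_lit 10) (.e (nat_lit 573474) (nat_lit 12) (.e (nat_lit 57346) (nat_lit 0) (.e (nat_lit 5583) (nat_lit 310) .nil)))))))) (.g (nat_lit 6) .nil .nil))) 
(.lf (nat_lit 249980) (.g (nat_lit 4853) (.e (nat_lit 163869) (nat_lit 2) (.e (nat_lit 196670) (nat_lit 14) (.e (nat_lit 73753) (nat_lit 8) (.e (nat_lit 557105) (nat_lit 14) (.e (nat_lit 180252) (nat_lit 10) (.e (nat_lit 573474) (nat_lit 12) (.e (nat_lit 57360) (nat_lit 0) (.e (nat_lit 5599) (nat_lit 310) .nil)))))))) (.g (nat_lit 6) .nil .nil))))))) 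
(.nd (nat_lit 2) (.nd (nat_lit 3) (.nd (nat_lit 4) (.nd (nat_lit 5) 
(.lf (nat_lit 249922) (.g (nat_lit 2841) (.e (nat_lit 163869) (nat_lit 2) (.e (nat_lit 196670) (nat_lit 14) (.e (nat_lit 73753) (nat_lit 8) (.e (nat_lit 557105) (nat_lit 14) (.e (nat_lit 180251) (nat_lit 10) (.e (nat_lit 573477) (nat_lit 12) (.e (nat_lit 65280) (nat_lit 0) (.e (nat_lit 5587) (nat_lit 310) .nil)))))))) (.g (nat_lit 4) .nil .nil))) 
(.lf (nat_lit 249954) (.g (nat_lit 4529) (.e (nat_lit 163869) (nat_lit 2) (.e (nat_lit 196670) (nat_lit 14) (.e (nat_lit 73753) (nat_lit 8) (.e (nat_lit 557105) (nat_lit 14) (.e (nat_lit 180252) (nat_lit 10) (.e (nat_lit 573474) (nat_lit 12) (.e (nat_lit 57347) (nat_lit 0) (.e (nat_lit 5593) (nat_lit 310) .nil)))))))) (.g (nat_lit 5) .nil .nil)))) (.nd (nat_lit 5) 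
(.lf (nat_lit 249938) (.g (nat_lit 3811) (.e (nat_lit 163869) (nat_lit 2) (.e (nat_lit 196670) (nat_lit 14) (.e (nat_lit 73753) (nat_lit 8) (.e (nat_lit 557105) (nat_lit 14) (.e (nat_lit 180252) (nat_lit 10) (.e (nat_lit 573474) (nat_lit 12) (.e (nat_lit 57344) (nat_lit 0) (.e (nat_lit 5602) (nat_lit 310) .nil)))))))) (.g (nat_lit 5) .nil .nil))) 
(.lf (nat_lit 249970) (.g (nat_lit 4256) (.e (nat_lit 163869) (nat_lit 2) (.e (nat_lit 196670) (nat_lit 14) (.e (nat_lit 73753) (nat_lit 8) (.e (nat_lit 557105) (nat_lit 14) (.e (nat_lit 180252) (nat_lit 10) (.e (nat_lit 573474) (nat_lit 12) (.e (nat_lit 57355) (nat_lit 0) (.e (nat_lit 5596) (nat_lit 310) .nil)))))))) (.g (nat_lit 5) .nil .nil))))) (.nd (nat_lit 4) (.nd (nat_lit 5) 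
(.lf (nat_lit 249930) (.g (nat_lit 3640) (.e (nat_lit 163869) (nat_lit 2) (.e (nat_lit 196670) (nat_lit 14) (.e (nat_lit 73753) (nat_lit 8) (.e (nat_lit 557105) (nat_lit 14) (.e (nat_lit 180252) (nat_lit 10) (.e (nat_lit 573451) (nat_lit 9) (.e (nat_lit 1174) (nat_lit 87) (.e (nat_lit 57930) (nat_lit 282) .nil)))))))) (.g (nat_lit 5) .nil .nil))) 
(.lf (nat_lit 249962) (.g (nat_lit 3284) (.e (nat_lit 163869) (nat_lit 2) (.e (nat_lit 196670) (nat_lit 14) (.e (nat_lit 73753) (nat_lit 8) (.e (nat_lit 557105) (nat_lit 14) (.e (nat_lit 180252) (nat_lit 10) (.e (nat_lit 573474) (nat_lit 12) (.e (nat_lit 57348) (nat_lit 0) (.e (nat_lit 7936) (nat_lit 310) .nil)))))))) (.g (nat_lit 5) .nil .nil)))) (.nd (nat_lit 5) 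
(.lf (nat_lit 249946) (.g (nat_lit 4402) (.e (nat_lit 163869) (nat_lit 2) (.e (nat_lit 196670) (nat_lit 14) (.e (nat_lit 73753) (nat_lit 8) (.e (nat_lit 557105) (nat_lit 14) (.e (nat_lit 180252) (nat_lit 10) (.e (nat_lit 573474) (nat_lit 12) (.e (nat_lit 57345) (nat_lit 0) (.e (nat_lit 5604) (nat_lit 310) .nil)))))))) (.g (nat_lit 5) .nil .nil))) 
(.lf (nat_lit 249978) (.g (nat_lit 4427) (.e (nat_lit 163869) (nat_lit 2) (.e (nat_lit 196670) (nat_lit 14) (.e (nat_lit 73753) (nat_lit 8) (.e (nat_lit 557105) (nat_lit 14) (.e (nat_lit 180252) (nat_lit 10) (.e (nat_lit 573474) (nat_lit 12) (.e (nat_lit 57359) (nat_lit 0) (.e (nat_lit 5594) (nat_lit 310) .nil)))))))) (.g (nat_lit 5) .nil .nil)))))) 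
(.nd (nat_lit 3) (.nd (nat_lit 4) (.nd (nat_lit 5) 
(.lf (nat_lit 249926) (.g (nat_lit 3084) (.e (nat_lit 163869) (nat_lit 2) (.e (nat_lit 196670) (nat_lit 14) (.e (nat_lit 73753) (nat_lit 8) (.e (nat_lit 557105) (nat_lit 14) (.e (nat_lit 180251) (nat_lit 10) (.e (nat_lit 573478) (nat_lit 12) (.e (nat_lit 57360) (nat_lit 0) (.e (nat_lit 5596) (nat_lit 310) .nil)))))))) (.g (nat_lit 4) .nil .nil))) 
(.lf (nat_lit 249958) (.g (nat_lit 5289) (.e (nat_lit 163869) (nat_lit 2) (.e (nat_lit 196670) (nat_lit 14) (.e (nat_lit 73753) (nat_lit 8) (.e (nat_lit 557105) (nat_lit 14) (.e (nat_lit 180252) (nat_lit 10) (.e (nat_lit 573474) (nat_lit 12) (.e (nat_lit 57348) (nat_lit 0) (.e (nat_lit 5591) (nat_lit 310) .nil)))))))) (.g (nat_lit 7) .nil .nil)))) (.nd (nat_lit 5) 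
(.lf (nat_lit 249942) (.g (nat_lit 4106) (.e (nat_lit 163869) (nat_lit 2) (.e (nat_lit 196670) (nat_lit 14) (.e (nat_lit 73753) (nat_lit 8) (.e (nat_lit 557105) (nat_lit 14) (.e (nat_lit 180252) (nat_lit 10) (.e (nat_lit 573474) (nat_lit 12) (.e (nat_lit 57345) (nat_lit 0) (.e (nat_lit 5591) (nat_lit 310) .nil)))))))) (.g (nat_lit 5) .nil .nil))) 
(.lf (nat_lit 249974) (.g (nat_lit 3083) (.e (nat_lit 163869) (nat_lit 2) (.e (nat_lit 196670) (nat_lit 14) (.e (nat_lit 73753) (nat_lit 8) (.e (nat_lit 557105) (nat_lit 14) (.e (nat_lit 180252) (nat_lit 10) (.e (nat_lit 573474) (nat_lit 12) (.e (nat_lit 57356) (nat_lit 0) (.e (nat_lit 5602) (nat_lit 310) .nil)))))))) (.g (nat_lit 4) .nil .nil))))) (.nd (nat_lit 4) (.nd (nat_lit 5) 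
(.lf (nat_lit 249934) (.g (nat_lit 4709) (.e (nat_lit 163869) (nat_lit 2) (.e (nat_lit 196670) (nat_lit 14) (.e (nat_lit 73753) (nat_lit 8) (.e (nat_lit 557105) (nat_lit 14) (.e (nat_lit 180252) (nat_lit 10) (.e (nat_lit 573474) (nat_lit 12) (.e (nat_lit 57344) (nat_lit 0) (.e (nat_lit 5587) (nat_lit 310) .nil)))))))) (.g (nat_lit 6) .nil .nil))) 
(.lf (nat_lit 249966) (.g (nat_lit 5027) (.e (nat_lit 163869) (nat_lit 2) (.e (nat_lit 196670) (nat_lit 14) (.e (nat_lit 73753) (nat_lit 8) (.e (nat_lit 557105) (nat_lit 14) (.e (nat_lit 180252) (nat_lit 10) (.e (nat_lit 573474) (nat_lit 12) (.e (nat_lit 57354) (nat_lit 0) (.e (nat_lit 5601) (nat_lit 310) .nil)))))))) (.g (nat_lit 6) .nil .nil)))) (.nd (nat_lit 5) 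
(.lf (nat_lit 249950) (.g (nat_lit 4084) (.e (nat_lit 163869) (nat_lit 2) (.e (nat_lit 196670) (nat_lit 14) (.e (nat_lit 73753) (nat_lit 8) (.e (nat_lit 557105) (nat_lit 14) (.e (nat_lit 180252) (nat_lit 10) (.e (nat_lit 573474) (nat_lit 12) (.e (nat_lit 57347) (nat_lit 0) (.e (nat_lit 5584) (nat_lit 310) .nil)))))))) (.g (nat_lit 5) .nil .nil))) 
(.lf (nat_lit 249982) (.g (nat_lit 3579) (.e (nat_lit 163869) (nat_lit 2) (.e (nat_lit 196670) (nat_lit 14) (.e (nat_lit 73753) (nat_lit 8) (.e (nat_lit 557105) (nat_lit 14) (.e (nat_lit 180252) (nat_lit 10) (.e (nat_lit 573475) (nat_lit 12) (.e (nat_lit 57344) (nat_lit 0) (.e (nat_lit 5587) (nat_lit 310) .nil)))))))) (.g (nat_lit 5) .nil .nil)))))))) 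
(.nd (nat_lit 1) (.nd (nat_lit 2) (.nd (nat_lit 3) (.nd (nat_lit 4) (.nd (nat_lit 5) 
(.lf (nat_lit 249921) (.g (nat_lit 3911) (.e (nat_lit 163869) (nat_lit 2) (.e (nat_lit 196670) (nat_lit 14) (.e (nat_lit 73753) (nat_lit 8) (.e (nat_lit 557105) (nat_lit 14) (.e (nat_lit 180251) (nat_lit 10) (.e (nat_lit 573477) (nat_lit 12) (.e (nat_lit 57361) (nat_lit 0) (.e (nat_lit 5599) (nat_lit 310) .nil)))))))) (.g (nat_lit 5) .nil .nil))) 
(.lf (nat_lit 249953) (.g (nat_lit 5204) (.e (nat_lit 163869) (nat_lit 2) (.e (nat_lit 196670) (nat_lit 14) (.e (nat_lit 73753) (nat_lit 8) (.e (nat_lit 557105) (nat_lit 14) (.e (nat_lit 180252) (nat_lit 10) (.e (nat_lit 573474) (nat_lit 12) (.e (nat_lit 57347) (nat_lit 0) (.e (nat_lit 5592) (nat_lit 310) .nil)))))))) (.g (nat_lit 7) .nil .nil)))) (.nd (nat_lit 5) 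
(.lf (nat_lit 249937) (.g (nat_lit 3924) (.e (nat_lit 163869) (nat_lit 2) (.e (nat_lit 196670) (nat_lit 14) (.e (nat_lit 73753) (nat_lit 8) (.e (nat_lit 557105) (nat_lit 14) (.e (nat_lit 180252) (nat_lit 10) (.e (nat_lit 573474) (nat_lit 12) (.e (nat_lit 57344) (nat_lit 0) (.e (nat_lit 5601) (nat_lit 310) .nil)))))))) (.g (nat_lit 5) .nil .nil))) 
(.lf (nat_lit 249969) (.g (nat_lit 3780) (.e (nat_lit 163869) (nat_lit 2) (.e (nat_lit 196670) (nat_lit 14) (.e (nat_lit 73753) (nat_lit 8) (.e (nat_lit 557105) (nat_lit 14) (.e (nat_lit 180252) (nat_lit 10) (.e (nat_lit 573474) (nat_lit 12) (.e (nat_lit 57355) (nat_lit 0) (.e (nat_lit 5587) (nat_lit 310) .nil)))))))) (.g (nat_lit 5) .nil .nil))))) (.nd (nat_lit 4) (.nd (nat_lit 5) 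
(.lf (nat_lit 249929) (.g (nat_lit 4658) (.e (nat_lit 163869) (nat_lit 2) (.e (nat_lit 196670) (nat_lit 14) (.e (nat_lit 73753) (nat_lit 8) (.e (nat_lit 557105) (nat_lit 14) (.e (nat_lit 180252) (nat_lit 10) (.e (nat_lit 573451) (nat_lit 9) (.e (nat_lit 1174) (nat_lit 87) (.e (nat_lit 57926) (nat_lit 282) .nil)))))))) (.g (nat_lit 6) .nil .nil))) 
(.lf (nat_lit 249961) (.g (nat_lit 4579) (.e (nat_lit 163869) (nat_lit 2) (.e (nat_lit 196670) (nat_lit 14) (.e (nat_lit 73753) (nat_lit 8) (.e (nat_lit 557105) (nat_lit 14) (.e (nat_lit 180252) (nat_lit 10) (.e (nat_lit 573474) (nat_lit 12) (.e (nat_lit 57348) (nat_lit 0) (.e (nat_lit 5595) (nat_lit 310) .nil)))))))) (.g (nat_lit 6) .nil .nil)))) (.nd (nat_lit 5) 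
(.lf (nat_lit 249945) (.g (nat_lit 3524) (.e (nat_lit 163869) (nat_lit 2) (.e (nat_lit 196670) (nat_lit 14) (.e (nat_lit 73753) (nat_lit 8) (.e (nat_lit 557105) (nat_lit 14) (.e (nat_lit 180252) (nat_lit 10) (.e (nat_lit 573474) (nat_lit 12) (.e (nat_lit 57345) (nat_lit 0) (.e (nat_lit 5595) (nat_lit 310) .nil)))))))) (.g (nat_lit 5) .nil .nil))) 
(.lf (nat_lit 249977) (.g (nat_lit 4904) (.e (nat_lit 163869) (nat_lit 2) (.e (nat_lit 196670) (nat_lit 14) (.e (nat_lit 73753) (nat_lit 8) (.e (nat_lit 557105) (nat_lit 14) (.e (nat_lit 180252) (nat_lit 10) (.e (nat_lit 573474) (nat_lit 12) (.e (nat_lit 57358) (nat_lit 0) (.e (nat_lit 5603) (nat_lit 310) .nil)))))))) (.g (nat_lit 6) .nil .nil)))))) 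
(.nd (nat_lit 3) (.nd (nat_lit 4) (.nd (nat_lit 5) 
(.lf (nat_lit 249925) (.g (nat_lit 2936) (.e (nat_lit 163869) (nat_lit 2) (.e (nat_lit 196670) (nat_lit 14) (.e (nat_lit 73753) (nat_lit 8) (.e (nat_lit 557105) (nat_lit 14) (.e (nat_lit 180251) (nat_lit 10) (.e (nat_lit 573478) (nat_lit 12) (.e (nat_lit 57356) (nat_lit 0) (.e (nat_lit 5603) (nat_lit 310) .nil)))))))) (.g (nat_lit 4) .nil .nil))) 
(.lf (nat_lit 249957) (.g (nat_lit 3787) (.e (nat_lit 163869) (nat_lit 2) (.e (nat_lit 196670) (nat_lit 14) (.e (nat_lit 73753) (nat_lit 8) (.e (nat_lit 557105) (nat_lit 14) (.e (nat_lit 180252) (nat_lit 10) (.e (nat_lit 573474) (nat_lit 12) (.e (nat_lit 57348) (nat_lit 0) (.e (nat_lit 5584) (nat_lit 310) .nil)))))))) (.g (nat_lit 5) .nil .nil)))) (.nd (nat_lit 5) 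
(.lf (nat_lit 249941) (.g (nat_lit 3531) (.e (nat_lit 163869) (nat_lit 2) (.e (nat_lit 196670) (nat_lit 14) (.e (nat_lit 73753) (nat_lit 8) (.e (nat_lit 557105) (nat_lit 14) (.e (nat_lit 180252) (nat_lit 10) (.e (nat_lit 573474) (nat_lit 12) (.e (nat_lit 57345) (nat_lit 0) (.e (nat_lit 5590) (nat_lit 310) .nil)))))))) (.g (nat_lit 5) .nil .nil))) 
(.lf (nat_lit 249973) (.g (nat_lit 4226) (.e (nat_lit 163869) (nat_lit 2) (.e (nat_lit 196670) (nat_lit 14) (.e (nat_lit 73753) (nat_lit 8) (.e (nat_lit 557105) (nat_lit 14) (.e (nat_lit 180252) (nat_lit 10) (.e (nat_lit 573474) (nat_lit 12) (.e (nat_lit 57356) (nat_lit 0) (.e (nat_lit 5601) (nat_lit 310) .nil)))))))) (.g (nat_lit 5) .nil .nil))))) (.nd (nat_lit 4) (.nd (nat_lit 5) 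
(.lf (nat_lit 249933) (.g (nat_lit 3644) (.e (nat_lit 163869) (nat_lit 2) (.e (nat_lit 196670) (nat_lit 14) (.e (nat_lit 73753) (nat_lit 8) (.e (nat_lit 557105) (nat_lit 14) (.e (nat_lit 180252) (nat_lit 10) (.e (nat_lit 573474) (nat_lit 12) (.e (nat_lit 57344) (nat_lit 0) (.e (nat_lit 5586) (nat_lit 310) .nil)))))))) (.g (nat_lit 5) .nil .nil))) 
(.lf (nat_lit 249965) (.g (nat_lit 4357) (.e (nat_lit 163869) (nat_lit 2) (.e (nat_lit 196670) (nat_lit 14) (.e (nat_lit 73753) (nat_lit 8) (.e (nat_lit 557105) (nat_lit 14) (.e (nat_lit 180252) (nat_lit 10) (.e (nat_lit 573474) (nat_lit 12) (.e (nat_lit 57354) (nat_lit 0) (.e (nat_lit 5596) (nat_lit 310) .nil)))))))) (.g (nat_lit 5) .nil .nil)))) (.nd (nat_lit 5) 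
(.lf (nat_lit 249949) (.g (nat_lit 4033) (.e (nat_lit 163869) (nat_lit 2) (.e (nat_lit 196670) (nat_lit 14) (.e (nat_lit 73753) (nat_lit 8) (.e (nat_lit 557105) (nat_lit 14) (.e (nat_lit 180252) (nat_lit 10) (.e (nat_lit 573474) (nat_lit 12) (.e (nat_lit 57346) (nat_lit 0) (.e (nat_lit 7936) (nat_lit 310) .nil)))))))) (.g (nat_lit 5) .nil .nil))) 
(.lf (nat_lit 249981) (.g (nat_lit 5004) (.e (nat_lit 163869) (nat_lit 2) (.e (nat_lit 196670) (nat_lit 14) (.e (nat_lit 73753) (nat_lit 8) (.e (nat_lit 557105) (nat_lit 14) (.e (nat_lit 180252) (nat_lit 10) (.e (nat_lit 573474) (nat_lit 12) (.e (nat_lit 65280) (nat_lit 0) (.e (nat_lit 5587) (nat_lit 310) .nil)))))))) (.g (nat_lit 6) .nil .nil))))))) 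
(.nd (nat_lit 2) (.nd (nat_lit 3) (.nd (nat_lit 4) (.nd (nat_lit 5) 
(.lf (nat_lit 249923) (.g (nat_lit 2743) (.e (nat_lit 163869) (nat_lit 2) (.e (nat_lit 196670) (nat_lit 14) (.e (nat_lit 73753) (nat_lit 8) (.e (nat_lit 557105) (nat_lit 14) (.e (nat_lit 180251) (nat_lit 10) (.e (nat_lit 573478) (nat_lit 12) (.e (nat_lit 57344) (nat_lit 0) (.e (nat_lit 5587) (nat_lit 310) .nil)))))))) (.g (nat_lit 4) .nil .nil))) 
(.lf (nat_lit 249955) (.g (nat_lit 4841) (.e (nat_lit 163869) (nat_lit 2) (.e (nat_lit 196670) (nat_lit 14) (.e (nat_lit 73753) (nat_lit 8) (.e (nat_lit 557105) (nat_lit 14) (.e (nat_lit 180252) (nat_lit 10) (.e (nat_lit 573474) (nat_lit 12) (.e (nat_lit 57347) (nat_lit 0) (.e (nat_lit 5595) (nat_lit 310) .nil)))))))) (.g (nat_lit 6) .nil .nil)))) (.nd (nat_lit 5) 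
(.lf (nat_lit 249939) (.g (nat_lit 4732) (.e (nat_lit 163869) (nat_lit 2) (.e (nat_lit 196670) (nat_lit 14) (.e (nat_lit 73753) (nat_lit 8) (.e (nat_lit 557105) (nat_lit 14) (.e (nat_lit 180252) (nat_lit 10) (.e (nat_lit 573474) (nat_lit 12) (.e (nat_lit 57344) (nat_lit 0) (.e (nat_lit 5603) (nat_lit 310) .nil)))))))) (.g (nat_lit 6) .nil .nil))) 
(.lf (nat_lit 249971) (.g (nat_lit 4957) (.e (nat_lit 163869) (nat_lit 2) (.e (nat_lit 196670) (nat_lit 14) (.e (nat_lit 73753) (nat_lit 8) (.e (nat_lit 557105) (nat_lit 14) (.e (nat_lit 180252) (nat_lit 10) (.e (nat_lit 573474) (nat_lit 12) (.e (nat_lit 57355) (nat_lit 0) (.e (nat_lit 5603) (nat_lit 310) .nil)))))))) (.g (nat_lit 6) .nil .nil))))) (.nd (nat_lit 4) (.nd (nat_lit 5) 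
(.lf (nat_lit 249931) (.g (nat_lit 4729) (.e (nat_lit 163869) (nat_lit 2) (.e (nat_lit 196670) (nat_lit 14) (.e (nat_lit 73753) (nat_lit 8) (.e (nat_lit 557105) (nat_lit 14) (.e (nat_lit 180252) (nat_lit 10) (.e (nat_lit 573451) (nat_lit 9) (.e (nat_lit 1174) (nat_lit 87) (.e (nat_lit 57931) (nat_lit 282) .nil)))))))) (.g (nat_lit 6) .nil .nil))) 
(.lf (nat_lit 249963) (.g (nat_lit 3922) (.e (nat_lit 163869) (nat_lit 2) (.e (nat_lit 196670) (nat_lit 14) (.e (nat_lit 73753) (nat_lit 8) (.e (nat_lit 557105) (nat_lit 14) (.e (nat_lit 180252) (nat_lit 10) (.e (nat_lit 573474) (nat_lit 12) (.e (nat_lit 57349) (nat_lit 0) (.e (nat_lit 5592) (nat_lit 310) .nil)))))))) (.g (nat_lit 5) .nil .nil)))) (.nd (nat_lit 5) 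
(.lf (nat_lit 249947) (.g (nat_lit 3728) (.e (nat_lit 163869) (nat_lit 2) (.e (nat_lit 196670) (nat_lit 14) (.e (nat_lit 73753) (nat_lit 8) (.e (nat_lit 557105) (nat_lit 14) (.e (nat_lit 180252) (nat_lit 10) (.e (nat_lit 573474) (nat_lit 12) (.e (nat_lit 57346) (nat_lit 0) (.e (nat_lit 5582) (nat_lit 310) .nil)))))))) (.g (nat_lit 5) .nil .nil))) 
(.lf (nat_lit 249979) (.g (nat_lit 4206) (.e (nat_lit 163869) (nat_lit 2) (.e (nat_lit 196670) (nat_lit 14) (.e (nat_lit 73753) (nat_lit 8) (.e (nat_lit 557105) (nat_lit 14) (.e (nat_lit 180252) (nat_lit 10) (.e (nat_lit 573474) (nat_lit 12) (.e (nat_lit 57360) (nat_lit 0) (.e (nat_lit 5596) (nat_lit 310) .nil)))))))) (.g (nat_lit 5) .nil .nil)))))) 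
(.nd (nat_lit 3) (.nd (nat_lit 4) (.nd (nat_lit 5) 
(.lf (nat_lit 249927) (.g (nat_lit 3775) (.e (nat_lit 163869) (nat_lit 2) (.e (nat_lit 196670) (nat_lit 14) (.e (nat_lit 73753) (nat_lit 8) (.e (nat_lit 557105) (nat_lit 14) (.e (nat_lit 180251) (nat_lit 10) (.e (nat_lit 573478) (nat_lit 12) (.e (nat_lit 57360) (nat_lit 0) (.e (nat_lit 5599) (nat_lit 310) .nil)))))))) (.g (nat_lit 5) .nil .nil))) 
(.lf (nat_lit 249959) (.g (nat_lit 5137) (.e (nat_lit 163869) (nat_lit 2) (.e (nat_lit 196670) (nat_lit 14) (.e (nat_lit 73753) (nat_lit 8) (.e (nat_lit 557105) (nat_lit 14) (.e (nat_lit 180252) (nat_lit 10) (.e (nat_lit 573474) (nat_lit 12) (.e (nat_lit 57348) (nat_lit 0) (.e (nat_lit 5592) (nat_lit 310) .nil)))))))) (.g (nat_lit 7) .nil .nil)))) (.nd (nat_lit 5) 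
(.lf (nat_lit 249943) (.g (nat_lit 3995) (.e (nat_lit 163869) (nat_lit 2) (.e (nat_lit 196670) (nat_lit 14) (.e (nat_lit 73753) (nat_lit 8) (.e (nat_lit 557105) (nat_lit 14) (.e (nat_lit 180252) (nat_lit 10) (.e (nat_lit 573474) (nat_lit 12) (.e (nat_lit 57345) (nat_lit 0) (.e (nat_lit 5592) (nat_lit 310) .nil)))))))) (.g (nat_lit 5) .nil .nil))) 
(.lf (nat_lit 249975) (.g (nat_lit 5054) (.e (nat_lit 163869) (nat_lit 2) (.e (nat_lit 196670) (nat_lit 14) (.e (nat_lit 73753) (nat_lit 8) (.e (nat_lit 557105) (nat_lit 14) (.e (nat_lit 180252) (nat_lit 10) (.e (nat_lit 573474) (nat_lit 12) (.e (nat_lit 57356) (nat_lit 0) (.e (nat_lit 5603) (nat_lit 310) .nil)))))))) (.g (nat_lit 6) .nil .nil))))) (.nd (nat_lit 4) (.nd (nat_lit 5) 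
(.lf (nat_lit 249935) (.g (nat_lit 3135) (.e (nat_lit 163869) (nat_lit 2) (.e (nat_lit 196670) (nat_lit 14) (.e (nat_lit 73753) (nat_lit 8) (.e (nat_lit 557105) (nat_lit 14) (.e (nat_lit 180252) (nat_lit 10) (.e (nat_lit 573474) (nat_lit 12) (.e (nat_lit 57344) (nat_lit 0) (.e (nat_lit 5588) (nat_lit 310) .nil)))))))) (.g (nat_lit 4) .nil .nil))) 
(.lf (nat_lit 249967) (.g (nat_lit 3859) (.e (nat_lit 163869) (nat_lit 2) (.e (nat_lit 196670) (nat_lit 14) (.e (nat_lit 73753) (nat_lit 8) (.e (nat_lit 557105) (nat_lit 14) (.e (nat_lit 180252) (nat_lit 10) (.e (nat_lit 573474) (nat_lit 12) (.e (nat_lit 57355) (nat_lit 0) (.e (nat_lit 5585) (nat_lit 310) .nil)))))))) (.g (nat_lit 5) .nil .nil)))) (.nd (nat_lit 5) 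
(.lf (nat_lit 249951) (.g (nat_lit 4864) (.e (nat_lit 163869) (nat_lit 2) (.e (nat_lit 196670) (nat_lit 14) (.e (nat_lit 73753) (nat_lit 8) (.e (nat_lit 557105) (nat_lit 14) (.e (nat_lit 180252) (nat_lit 10) (.e (nat_lit 573474) (nat_lit 12) (.e (nat_lit 57347) (nat_lit 0) (.e (nat_lit 5590) (nat_lit 310) .nil)))))))) (.g (nat_lit 6) .nil .nil))) 
(.lf (nat_lit 249983) (.g (nat_lit 3479) (.e (nat_lit 163869) (nat_lit 2) (.e (nat_lit 196670) (nat_lit 14) (.e (nat_lit 73753) (nat_lit 8) (.e (nat_lit 557105) (nat_lit 14) (.e (nat_lit 180252) (nat_lit 10) (.e (nat_lit 573475) (nat_lit 12) (.e (nat_lit 57344) (nat_lit 0) (.e (nat_lit 5596) (nat_lit 310) .nil)))))))) (.g (nat_lit 5) .nil .nil)))))))))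

noncomputable def tv3237 : DT := (.nd (nat_lit 0) (.nd (nat_lit 1) (.nd (nat_lit 2) (.nd (nat_lit 3) (.nd (nat_lit 4) (.nd (nat_lit 5) 
(.lf (nat_lit 249984) (.g (nat_lit 2759) (.e (nat_lit 163869) (nat_lit 2) (.e (nat_lit 196670) (nat_lit 14) (.e (nat_lit 73753) (nat_lit 8) (.e (nat_lit 557105) (nat_lit 14) (.e (nat_lit 180252) (nat_lit 10) (.e (nat_lit 573475) (nat_lit 12) (.e (nat_lit 57344) (nat_lit 0) (.e (nat_lit 5601) (nat_lit 310) .nil)))))))) (.g (nat_lit 4) .nil .nil))) 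
(.lf (nat_lit 250016) (.g (nat_lit 4006) (.e (nat_lit 163869) (nat_lit 2) (.e (nat_lit 196670) (nat_lit 14) (.e (nat_lit 73754) (nat_lit 8) (.e (nat_lit 557105) (nat_lit 14) (.e (nat_lit 180252) (nat_lit 10) (.e (nat_lit 573474) (nat_lit 12) (.e (nat_lit 57345) (nat_lit 0) (.e (nat_lit 5590) (nat_lit 310) .nil)))))))) (.g (nat_lit 5) .nil .nil)))) (.nd (nat_lit 5) 
(.lf (nat_lit 250000) (.g (nat_lit 4385) (.e (nat_lit 163869) (nat_lit 2) (.e (nat_lit 196670) (nat_lit 14) (.e (nat_lit 73754) (nat_lit 8) (.e (nat_lit 557105) (nat_lit 14) (.e (nat_lit 180252) (nat_lit 10) (.e (nat_lit 573449) (nat_lit 9) (.e (nat_lit 1183) (nat_lit 87) (.e (nat_lit 57931) (nat_lit 282) .nil)))))))) (.g (nat_lit 5) .nil .nil))) 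
(.lf (nat_lit 250032) (.g (nat_lit 4367) (.e (nat_lit 163869) (nat_lit 2) (.e (nat_lit 196670) (nat_lit 14) (.e (nat_lit 73754) (nat_lit 8) (.e (nat_lit 557105) (nat_lit 14) (.e (nat_lit 180252) (nat_lit 10) (.e (nat_lit 573474) (nat_lit 12) (.e (nat_lit 57349) (nat_lit 0) (.e (nat_lit 5592) (nat_lit 310) .nil)))))))) (.g (nat_lit 5) .nil .nil))))) (.nd (nat_lit 4) (.nd (nat_lit 5) 
(.lf (nat_lit 249992) (.g (nat_lit 3008) (.e (nat_lit 163869) (nat_lit 2) (.e (nat_lit 196670) (nat_lit 14) (.e (nat_lit 73753) (nat_lit 8) (.e (nat_lit 557105) (nat_lit 14) (.e (nat_lit 180252) (nat_lit 10) (.e (nat_lit 573475) (nat_lit 12) (.e (nat_lit 57360) (nat_lit 0) (.e (nat_lit 5598) (nat_lit 310) .nil)))))))) (.g (nat_lit 4) .nil .nil))) 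
(.lf (nat_lit 250024) (.g (nat_lit 5339) (.e (nat_lit 163869) (nat_lit 2) (.e (nat_lit 196670) (nat_lit 14) (.e (nat_lit 73754) (nat_lit 8) (.e (nat_lit 557105) (nat_lit 14) (.e (nat_lit 180252) (nat_lit 10) (.e (nat_lit 573474) (nat_lit 12) (.e (nat_lit 57347) (nat_lit 0) (.e (nat_lit 5590) (nat_lit 310) .nil)))))))) (.g (nat_lit 5) .nil .nil)))) (.nd (nat_lit 5) 
(.lf (nat_lit 250008) (.g (nat_lit 3228) (.e (nat_lit 163869) (nat_lit 2) (.e (nat_lit 196670) (nat_lit 14) (.e (nat_lit 73754) (nat_lit 8) (.e (nat_lit 557105) (nat_lit 14) (.e (nat_lit 180252) (nat_lit 10) (.e (nat_lit 573474) (nat_lit 12) (.e (nat_lit 57344) (nat_lit 0) (.e (nat_lit 5585) (nat_lit 310) .nil)))))))) (.g (nat_lit 4) .nil .nil))) 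
(.lf (nat_lit 250040) (.g (nat_lit 4813) (.e (nat_lit 163869) (nat_lit 2) (.e (nat_lit 196670) (nat_lit 14) (.e (nat_lit 73754) (nat_lit 8) (.e (nat_lit 557105) (nat_lit 14) (.e (nat_lit 180252) (nat_lit 10) (.e (nat_lit 573474) (nat_lit 12) (.e (nat_lit 57358) (nat_lit 0) (.e (nat_lit 5596) (nat_lit 310) .nil)))))))) (.g (nat_lit 5) .nil .nil)))))) 
(.nd (nat_lit 3) (.nd (nat_lit 4) (.nd (nat_lit 5) 
(.lf (nat_lit 249988) (.g (nat_lit 2923) (.e (nat_lit 163869) (nat_lit 2) (.e (nat_lit 196670) (nat_lit 14) (.e (nat_lit 73753) (nat_lit 8) (.e (nat_lit 557105) (nat_lit 14) (.e (nat_lit 180252) (nat_lit 10) (.e (nat_lit 573475) (nat_lit 12) (.e (nat_lit 57345) (nat_lit 0) (.e (nat_lit 5592) (nat_lit 310) .nil)))))))) (.g (nat_lit 4) .nil .nil))) 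
(.lf (nat_lit 250020) (.g (nat_lit 4851) (.e (nat_lit 163869) (nat_lit 2) (.e (nat_lit 196670) (nat_lit 14) (.e (nat_lit 73754) (nat_lit 8) (.e (nat_lit 557105) (nat_lit 14) (.e (nat_lit 180252) (nat_lit 10) (.e (nat_lit 573474) (nat_lit 12) (.e (nat_lit 57345) (nat_lit 0) (.e (nat_lit 5604) (nat_lit 310) .nil)))))))) (.g (nat_lit 5) .nil .nil)))) (.nd (nat_lit 5) 
(.lf (nat_lit 250004) (.g (nat_lit 3300) (.e (nat_lit 163869) (nat_lit 2) (.e (nat_lit 196670) (nat_lit 14) (.e (nat_lit 73754) (nat_lit 8) (.e (nat_lit 557105) (nat_lit 14) (.e (nat_lit 180252) (nat_lit 10) (.e (nat_lit 573458) (nat_lit 9) (.e (nat_lit 1178) (nat_lit 87) (.e (nat_lit 57930) (nat_lit 282) .nil)))))))) (.g (nat_lit 4) .nil .nil))) 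
(.lf (nat_lit 250036) (.g (nat_lit 5470) (.e (nat_lit 163869) (nat_lit 2) (.e (nat_lit 196670) (nat_lit 14) (.e (nat_lit 73754) (nat_lit 8) (.e (nat_lit 557105) (nat_lit 14) (.e (nat_lit 180252) (nat_lit 10) (.e (nat_lit 573474) (nat_lit 12) (.e (nat_lit 57354) (nat_lit 0) (.e (nat_lit 5601) (nat_lit 310) .nil)))))))) (.g (nat_lit 5) .nil .nil))))) (.nd (nat_lit 4) (.nd (nat_lit 5) 
(.lf (nat_lit 249996) (.g (nat_lit 3298) (.e (nat_lit 163869) (nat_lit 2) (.e (nat_lit 196670) (nat_lit 14) (.e (nat_lit 73754) (nat_lit 8) (.e (nat_lit 557105) (nat_lit 14) (.e (nat_lit 180251) (nat_lit 10) (.e (nat_lit 573477) (nat_lit 12) (.e (nat_lit 65280) (nat_lit 0) (.e (nat_lit 5587) (nat_lit 310) .nil)))))))) (.g (nat_lit 4) .nil .nil))) 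
(.lf (nat_lit 250028) (.g (nat_lit 5055) (.e (nat_lit 163869) (nat_lit 2) (.e (nat_lit 196670) (nat_lit 14) (.e (nat_lit 73754) (nat_lit 8) (.e (nat_lit 557105) (nat_lit 14) (.e (nat_lit 180252) (nat_lit 10) (.e (nat_lit 573474) (nat_lit 12) (.e (nat_lit 57348) (nat_lit 0) (.e (nat_lit 5590) (nat_lit 310) .nil)))))))) (.g (nat_lit 5) .nil .nil)))) (.nd (nat_lit 5) 
(.lf (nat_lit 250012) (.g (nat_lit 3532) (.e (nat_lit 163869) (nat_lit 2) (.e (nat_lit 196670) (nat_lit 14) (.e (nat_lit 73754) (nat_lit 8) (.e (nat_lit 557105) (nat_lit 14) (.e (nat_lit 180252) (nat_lit 10) (.e (nat_lit 573474) (nat_lit 12) (.e (nat_lit 57344) (nat_lit 0) (.e (nat_lit 5600) (nat_lit 310) .nil)))))))) (.g (nat_lit 4) .nil .nil))) 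
(.lf (nat_lit 250044) (.g (nat_lit 5277) (.e (nat_lit 163869) (nat_lit 2) (.e (nat_lit 196670) (nat_lit 14) (.e (nat_lit 73754) (nat_lit 8) (.e (nat_lit 557105) (nat_lit 14) (.e (nat_lit 180252) (nat_lit 10) (.e (nat_lit 573474) (nat_lit 12) (.e (nat_lit 65280) (nat_lit 0) (.e (nat_lit 5587) (nat_lit 310) .nil)))))))) (.g (nat_lit 5) .nil .nil))))))) 
(.nd (nat_lit 2) (.nd (nat_lit 3) (.nd (nat_lit 4) (.nd (nat_lit 5) 
(.lf (nat_lit 249986) (.g (nat_lit 3871) (.e (nat_lit 163869) (nat_lit 2) (.e (nat_lit 196670) (nat_lit 14) (.e (nat_lit 73753) (nat_lit 8) (.e (nat_lit 557105) (nat_lit 14) (.e (nat_lit 180252) (nat_lit 10) (.e (nat_lit 573475) (nat_lit 12) (.e (nat_lit 57345) (nat_lit 0) (.e (nat_lit 5583) (nat_lit 310) .nil)))))))) (.g (nat_lit 5) .nil .nil))) 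
(.lf (nat_lit 250018) (.g (nat_lit 4440) (.e (nat_lit 163869) (nat_lit 2) (.e (nat_lit 196670) (nat_lit 14) (.e (nat_lit 73754) (nat_lit 8) (.e (nat_lit 557105) (nat_lit 14) (.e (nat_lit 180252) (nat_lit 10) (.e (nat_lit 573474) (nat_lit 12) (.e (nat_lit 57345) (nat_lit 0) (.e (nat_lit 5592) (nat_lit 310) .nil)))))))) (.g (nat_lit 5) .nil .nil)))) (.nd (nat_lit 5) 
(.lf (nat_lit 250002) (.g (nat_lit 4421) (.e (nat_lit 163869) (nat_lit 2) (.e (nat_lit 196670) (nat_lit 14) (.e (nat_lit 73754) (nat_lit 8) (.e (nat_lit 557105) (nat_lit 14) (.e (nat_lit 180252) (nat_lit 10) (.e (nat_lit 573451) (nat_lit 9) (.e (nat_lit 1173) (nat_lit 87) (.e (nat_lit 57931) (nat_lit 282) .nil)))))))) (.g (nat_lit 5) .nil .nil))) 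
(.lf (nat_lit 250034) (.g (nat_lit 3490) (.e (nat_lit 163869) (nat_lit 2) (.e (nat_lit 196670) (nat_lit 14) (.e (nat_lit 73754) (nat_lit 8) (.e (nat_lit 557105) (nat_lit 14) (.e (nat_lit 180252) (nat_lit 10) (.e (nat_lit 573474) (nat_lit 12) (.e (nat_lit 57351) (nat_lit 0) (.e (nat_lit 5604) (nat_lit 310) .nil)))))))) (.g (nat_lit 4) .nil .nil))))) (.nd (nat_lit 4) (.nd (nat_lit 5) 
(.lf (nat_lit 249994) (.g (nat_lit 3558) (.e (nat_lit 163869) (nat_lit 2) (.e (nat_lit 196670) (nat_lit 14) (.e (nat_lit 73754) (nat_lit 8) (.e (nat_lit 557105) (nat_lit 14) (.e (nat_lit 180251) (nat_lit 10) (.e (nat_lit 573477) (nat_lit 12) (.e (nat_lit 57360) (nat_lit 0) (.e (nat_lit 5596) (nat_lit 310) .nil)))))))) (.g (nat_lit 4) .nil .nil))) 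
(.lf (nat_lit 250026) (.g (nat_lit 4572) (.e (nat_lit 163869) (nat_lit 2) (.e (nat_lit 196670) (nat_lit 14) (.e (nat_lit 73754) (nat_lit 8) (.e (nat_lit 557105) (nat_lit 14) (.e (nat_lit 180252) (nat_lit 10) (.e (nat_lit 573474) (nat_lit 12) (.e (nat_lit 57347) (nat_lit 0) (.e (nat_lit 5593) (nat_lit 310) .nil)))))))) (.g (nat_lit 5) .nil .nil)))) (.nd (nat_lit 5) 
(.lf (nat_lit 250010) (.g (nat_lit 3256) (.e (nat_lit 163869) (nat_lit 2) (.e (nat_lit 196670) (nat_lit 14) (.e (nat_lit 73754) (nat_lit 8) (.e (nat_lit 557105) (nat_lit 14) (.e (nat_lit 180252) (nat_lit 10) (.e (nat_lit 573474) (nat_lit 12) (.e (nat_lit 57344) (nat_lit 0) (.e (nat_lit 5595) (nat_lit 310) .nil)))))))) (.g (nat_lit 4) .nil .nil))) 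
(.lf (nat_lit 250042) (.g (nat_lit 4508) (.e (nat_lit 163869) (nat_lit 2) (.e (nat_lit 196670) (nat_lit 14) (.e (nat_lit 73754) (nat_lit 8) (.e (nat_lit 557105) (nat_lit 14) (.e (nat_lit 180252) (nat_lit 10) (.e (nat_lit 573474) (nat_lit 12) (.e (nat_lit 57359) (nat_lit 0) (.e (nat_lit 5594) (nat_lit 310) .nil)))))))) (.g (nat_lit 5) .nil .nil)))))) 
(.nd (nat_lit 3) (.nd (nat_lit 4) (.nd (nat_lit 5) 
(.lf (nat_lit 249990) (.g (nat_lit 3841) (.e (nat_lit 163869) (nat_lit 2) (.e (nat_lit 196670) (nat_lit 14) (.e (nat_lit 73753) (nat_lit 8) (.e (nat_lit 557105) (nat_lit 14) (.e (nat_lit 180252) (nat_lit 10) (.e (nat_lit 573475) (nat_lit 12) (.e (nat_lit 57356) (nat_lit 0) (.e (nat_lit 5603) (nat_lit 310) .nil)))))))) (.g (nat_lit 5) .nil .nil))) 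
(.lf (nat_lit 250022) (.g (nat_lit 4467) (.e (nat_lit 163869) (nat_lit 2) (.e (nat_lit 196670) (nat_lit 14) (.e (nat_lit 73754) (nat_lit 8) (.e (nat_lit 557105) (nat_lit 14) (.e (nat_lit 180252) (nat_lit 10) (.e (nat_lit 573474) (nat_lit 12) (.e (nat_lit 57346) (nat_lit 0) (.e (nat_lit 7936) (nat_lit 310) .nil)))))))) (.g (nat_lit 5) .nil .nil)))) (.nd (nat_lit 5) 
(.lf (nat_lit 250006) (.g (nat_lit 2813) (.e (nat_lit 163869) (nat_lit 2) (.e (nat_lit 196670) (nat_lit 14) (.e (nat_lit 73754) (nat_lit 8) (.e (nat_lit 557105) (nat_lit 14) (.e (nat_lit 180252) (nat_lit 10) (.e (nat_lit 573473) (nat_lit 12) (.e (nat_lit 57355) (nat_lit 0) (.e (nat_lit 5603) (nat_lit 310) .nil)))))))) (.g (nat_lit 4) .nil .nil))) 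
(.lf (nat_lit 250038) (.g (nat_lit 4669) (.e (nat_lit 163869) (nat_lit 2) (.e (nat_lit 196670) (nat_lit 14) (.e (nat_lit 73754) (nat_lit 8) (.e (nat_lit 557105) (nat_lit 14) (.e (nat_lit 180252) (nat_lit 10) (.e (nat_lit 573474) (nat_lit 12) (.e (nat_lit 57356) (nat_lit 0) (.e (nat_lit 5601) (nat_lit 310) .nil)))))))) (.g (nat_lit 5) .nil .nil))))) (.nd (nat_lit 4) (.nd (nat_lit 5) 
(.lf (nat_lit 249998) (.g (nat_lit 3398) (.e (nat_lit 163869) (nat_lit 2) (.e (nat_lit 196670) (nat_lit 14) (.e (nat_lit 73754) (nat_lit 8) (.e (nat_lit 557105) (nat_lit 14) (.e (nat_lit 180251) (nat_lit 10) (.e (nat_lit 573478) (nat_lit 12) (.e (nat_lit 57360) (nat_lit 0) (.e (nat_lit 5596) (nat_lit 310) .nil)))))))) (.g (nat_lit 4) .nil .nil))) 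
(.lf (nat_lit 250030) (.g (nat_lit 5157) (.e (nat_lit 163869) (nat_lit 2) (.e (nat_lit 196670) (nat_lit 14) (.e (nat_lit 73754) (nat_lit 8) (.e (nat_lit 557105) (nat_lit 14) (.e (nat_lit 180252) (nat_lit 10) (.e (nat_lit 573474) (nat_lit 12) (.e (nat_lit 57348) (nat_lit 0) (.e (nat_lit 5593) (nat_lit 310) .nil)))))))) (.g (nat_lit 5) .nil .nil)))) (.nd (nat_lit 5) 
(.lf (nat_lit 250014) (.g (nat_lit 5152) (.e (nat_lit 163869) (nat_lit 2) (.e (nat_lit 196670) (nat_lit 14) (.e (nat_lit 73754) (nat_lit 8) (.e (nat_lit 557105) (nat_lit 14) (.e (nat_lit 180252) (nat_lit 10) (.e (nat_lit 573474) (nat_lit 12) (.e (nat_lit 57344) (nat_lit 0) (.e (nat_lit 5603) (nat_lit 310) .nil)))))))) (.g (nat_lit 5) .nil .nil))) 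
(.lf (nat_lit 250046) (.g (nat_lit 4587) (.e (nat_lit 163869) (nat_lit 2) (.e (nat_lit 196670) (nat_lit 14) (.e (nat_lit 73754) (nat_lit 8) (.e (nat_lit 557105) (nat_lit 14) (.e (nat_lit 180252) (nat_lit 10) (.e (nat_lit 573475) (nat_lit 12) (.e (nat_lit 57344) (nat_lit 0) (.e (nat_lit 5587) (nat_lit 310) .nil)))))))) (.g (nat_lit 6) .nil .nil)))))))) 
(.nd (nat_lit 1) (.nd (nat_lit 2) (.nd (nat_lit 3) (.nd (nat_lit 4) (.nd (nat_lit 5) 
(.lf (nat_lit 249985) (.g (nat_lit 3786) (.e (nat_lit 163869) (nat_lit 2) (.e (nat_lit 196670) (nat_lit 14) (.e (nat_lit 73753) (nat_lit 8) (.e (nat_lit 557105) (nat_lit 14) (.e (nat_lit 180252) (nat_lit 10) (.e (nat_lit 573475) (nat_lit 12) (.e (nat_lit 57344) (nat_lit 0) (.e (nat_lit 5603) (nat_lit 310) .nil)))))))) (.g (nat_lit 5) .nil .nil))) 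
(.lf (nat_lit 250017) (.g (nat_lit 4552) (.e (nat_lit 163869) (nat_lit 2) (.e (nat_lit 196670) (nat_lit 14) (.e (nat_lit 73754) (nat_lit 8) (.e (nat_lit 557105) (nat_lit 14) (.e (nat_lit 180252) (nat_lit 10) (.e (nat_lit 573474) (nat_lit 12) (.e (nat_lit 57345) (nat_lit 0) (.e (nat_lit 5591) (nat_lit 310) .nil)))))))) (.g (nat_lit 5) .nil .nil)))) (.nd (nat_lit 5) 
(.lf (nat_lit 250001) (.g (nat_lit 4377) (.e (nat_lit 163869) (nat_lit 2) (.e (nat_lit 196670) (nat_lit 14) (.e (nat_lit 73754) (nat_lit 8) (.e (nat_lit 557105) (nat_lit 14) (.e (nat_lit 180252) (nat_lit 10) (.e (nat_lit 573451) (nat_lit 9) (.e (nat_lit 1169) (nat_lit 87) (.e (nat_lit 57927) (nat_lit 282) .nil)))))))) (.g (nat_lit 5) .nil .nil))) 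
(.lf (nat_lit 250033) (.g (nat_lit 5007) (.e (nat_lit 163869) (nat_lit 2) (.e (nat_lit 196670) (nat_lit 14) (.e (nat_lit 73754) (nat_lit 8) (.e (nat_lit 557105) (nat_lit 14) (.e (nat_lit 180252) (nat_lit 10) (.e (nat_lit 573474) (nat_lit 12) (.e (nat_lit 57349) (nat_lit 0) (.e (nat_lit 5604) (nat_lit 310) .nil)))))))) (.g (nat_lit 5) .nil .nil))))) (.nd (nat_lit 4) (.nd (nat_lit 5) 
(.lf (nat_lit 249993) (.g (nat_lit 3735) (.e (nat_lit 163869) (nat_lit 2) (.e (nat_lit 196670) (nat_lit 14) (.e (nat_lit 73753) (nat_lit 8) (.e (nat_lit 557105) (nat_lit 14) (.e (nat_lit 180252) (nat_lit 10) (.e (nat_lit 573475) (nat_lit 12) (.e (nat_lit 65280) (nat_lit 0) (.e (nat_lit 5587) (nat_lit 310) .nil)))))))) (.g (nat_lit 5) .nil .nil))) 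
(.lf (nat_lit 250025) (.g (nat_lit 5751) (.e (nat_lit 163869) (nat_lit 2) (.e (nat_lit 196670) (nat_lit 14) (.e (nat_lit 73754) (nat_lit 8) (.e (nat_lit 557105) (nat_lit 14) (.e (nat_lit 180252) (nat_lit 10) (.e (nat_lit 573474) (nat_lit 12) (.e (nat_lit 57347) (nat_lit 0) (.e (nat_lit 5591) (nat_lit 310) .nil)))))))) (.g (nat_lit 6) .nil .nil)))) (.nd (nat_lit 5) 
(.lf (nat_lit 250009) (.g (nat_lit 4982) (.e (nat_lit 163869) (nat_lit 2) (.e (nat_lit 196670) (nat_lit 14) (.e (nat_lit 73754) (nat_lit 8) (.e (nat_lit 557105) (nat_lit 14) (.e (nat_lit 180252) (nat_lit 10) (.e (nat_lit 573474) (nat_lit 12) (.e (nat_lit 57344) (nat_lit 0) (.e (nat_lit 5587) (nat_lit 310) .nil)))))))) (.g (nat_lit 5) .nil .nil))) 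
(.lf (nat_lit 250041) (.g (nat_lit 3609) (.e (nat_lit 163869) (nat_lit 2) (.e (nat_lit 196670) (nat_lit 14) (.e (nat_lit 73754) (nat_lit 8) (.e (nat_lit 557105) (nat_lit 14) (.e (nat_lit 180252) (nat_lit 10) (.e (nat_lit 573474) (nat_lit 12) (.e (nat_lit 57358) (nat_lit 0) (.e (nat_lit 5600) (nat_lit 310) .nil)))))))) (.g (nat_lit 4) .nil .nil)))))) 
(.nd (nat_lit 3) (.nd (nat_lit 4) (.nd (nat_lit 5) 
(.lf (nat_lit 249989) (.g (nat_lit 2852) (.e (nat_lit 163869) (nat_lit 2) (.e (nat_lit 196670) (nat_lit 14) (.e (nat_lit 73753) (nat_lit 8) (.e (nat_lit 557105) (nat_lit 14) (.e (nat_lit 180252) (nat_lit 10) (.e (nat_lit 573475) (nat_lit 12) (.e (nat_lit 57356) (nat_lit 0) (.e (nat_lit 5601) (nat_lit 310) .nil)))))))) (.g (nat_lit 4) .nil .nil))) 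
(.lf (nat_lit 250021) (.g (nat_lit 5134) (.e (nat_lit 163869) (nat_lit 2) (.e (nat_lit 196670) (nat_lit 14) (.e (nat_lit 73754) (nat_lit 8) (.e (nat_lit 557105) (nat_lit 14) (.e (nat_lit 180252) (nat_lit 10) (.e (nat_lit 573474) (nat_lit 12) (.e (nat_lit 57346) (nat_lit 0) (.e (nat_lit 5583) (nat_lit 310) .nil)))))))) (.g (nat_lit 5) .nil .nil)))) (.nd (nat_lit 5) 
(.lf (nat_lit 250005) (.g (nat_lit 3224) (.e (nat_lit 163869) (nat_lit 2) (.e (nat_lit 196670) (nat_lit 14) (.e (nat_lit 73754) (nat_lit 8) (.e (nat_lit 557105) (nat_lit 14) (.e (nat_lit 180252) (nat_lit 10) (.e (nat_lit 573473) (nat_lit 12) (.e (nat_lit 57345) (nat_lit 0) (.e (nat_lit 5583) (nat_lit 310) .nil)))))))) (.g (nat_lit 4) .nil .nil))) 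
(.lf (nat_lit 250037) (.g (nat_lit 4425) (.e (nat_lit 163869) (nat_lit 2) (.e (nat_lit 196670) (nat_lit 14) (.e (nat_lit 73754) (nat_lit 8) (.e (nat_lit 557105) (nat_lit 14) (.e (nat_lit 180252) (nat_lit 10) (.e (nat_lit 573474) (nat_lit 12) (.e (nat_lit 57355) (nat_lit 0) (.e (nat_lit 5596) (nat_lit 310) .nil)))))))) (.g (nat_lit 5) .nil .nil))))) (.nd (nat_lit 4) (.nd (nat_lit 5) 
(.lf (nat_lit 249997) (.g (nat_lit 3161) (.e (nat_lit 163869) (nat_lit 2) (.e (nat_lit 196670) (nat_lit 14) (.e (nat_lit 73754) (nat_lit 8) (.e (nat_lit 557105) (nat_lit 14) (.e (nat_lit 180251) (nat_lit 10) (.e (nat_lit 573478) (nat_lit 12) (.e (nat_lit 57344) (nat_lit 0) (.e (nat_lit 5587) (nat_lit 310) .nil)))))))) (.g (nat_lit 4) .nil .nil))) 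
(.lf (nat_lit 250029) (.g (nat_lit 5735) (.e (nat_lit 163869) (nat_lit 2) (.e (nat_lit 196670) (nat_lit 14) (.e (nat_lit 73754) (nat_lit 8) (.e (nat_lit 557105) (nat_lit 14) (.e (nat_lit 180252) (nat_lit 10) (.e (nat_lit 573474) (nat_lit 12) (.e (nat_lit 57348) (nat_lit 0) (.e (nat_lit 5591) (nat_lit 310) .nil)))))))) (.g (nat_lit 6) .nil .nil)))) (.nd (nat_lit 5) 
(.lf (nat_lit 250013) (.g (nat_lit 4367) (.e (nat_lit 163869) (nat_lit 2) (.e (nat_lit 196670) (nat_lit 14) (.e (nat_lit 73754) (nat_lit 8) (.e (nat_lit 557105) (nat_lit 14) (.e (nat_lit 180252) (nat_lit 10) (.e (nat_lit 573474) (nat_lit 12) (.e (nat_lit 57344) (nat_lit 0) (.e (nat_lit 5601) (nat_lit 310) .nil)))))))) (.g (nat_lit 5) .nil .nil))) 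
(.lf (nat_lit 250045) (.g (nat_lit 3313) (.e (nat_lit 163869) (nat_lit 2) (.e (nat_lit 196670) (nat_lit 14) (.e (nat_lit 73754) (nat_lit 8) (.e (nat_lit 557105) (nat_lit 14) (.e (nat_lit 180252) (nat_lit 10) (.e (nat_lit 573475) (nat_lit 12) (.e (nat_lit 57344) (nat_lit 0) (.e (nat_lit 5586) (nat_lit 310) .nil)))))))) (.g (nat_lit 4) .nil .nil))))))) 
(.nd (nat_lit 2) (.nd (nat_lit 3) (.nd (nat_lit 4) (.nd (nat_lit 5) 
(.lf (nat_lit 249987) (.g (nat_lit 3034) (.e (nat_lit 163869) (nat_lit 2) (.e (nat_lit 196670) (nat_lit 14) (.e (nat_lit 73753) (nat_lit 8) (.e (nat_lit 557105) (nat_lit 14) (.e (nat_lit 180252) (nat_lit 10) (.e (nat_lit 573475) (nat_lit 12) (.e (nat_lit 57345) (nat_lit 0) (.e (nat_lit 5591) (nat_lit 310) .nil)))))))) (.g (nat_lit 4) .nil .nil))) 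
(.lf (nat_lit 250019) (.g (nat_lit 3976) (.e (nat_lit 163869) (nat_lit 2) (.e (nat_lit 196670) (nat_lit 14) (.e (nat_lit 73754) (nat_lit 8) (.e (nat_lit 557105) (nat_lit 14) (.e (nat_lit 180252) (nat_lit 10) (.e (nat_lit 573474) (nat_lit 12) (.e (nat_lit 57345) (nat_lit 0) (.e (nat_lit 5595) (nat_lit 310) .nil)))))))) (.g (nat_lit 5) .nil .nil)))) (.nd (nat_lit 5) 
(.lf (nat_lit 250003) (.g (nat_lit 4367) (.e (nat_lit 163869) (nat_lit 2) (.e (nat_lit 196670) (nat_lit 14) (.e (nat_lit 73754) (nat_lit 8) (.e (nat_lit 557105) (nat_lit 14) (.e (nat_lit 180252) (nat_lit 10) (.e (nat_lit 573451) (nat_lit 9) (.e (nat_lit 1177) (nat_lit 87) (.e (nat_lit 57930) (nat_lit 282) .nil)))))))) (.g (nat_lit 5) .nil .nil))) 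
(.lf (nat_lit 250035) (.g (nat_lit 4526) (.e (nat_lit 163869) (nat_lit 2) (.e (nat_lit 196670) (nat_lit 14) (.e (nat_lit 73754) (nat_lit 8) (.e (nat_lit 557105) (nat_lit 14) (.e (nat_lit 180252) (nat_lit 10) (.e (nat_lit 573474) (nat_lit 12) (.e (nat_lit 57354) (nat_lit 0) (.e (nat_lit 5596) (nat_lit 310) .nil)))))))) (.g (nat_lit 5) .nil .nil))))) (.nd (nat_lit 4) (.nd (nat_lit 5) 
(.lf (nat_lit 249995) (.g (nat_lit 4251) (.e (nat_lit 163869) (nat_lit 2) (.e (nat_lit 196670) (nat_lit 14) (.e (nat_lit 73754) (nat_lit 8) (.e (nat_lit 557105) (nat_lit 14) (.e (nat_lit 180251) (nat_lit 10) (.e (nat_lit 573477) (nat_lit 12) (.e (nat_lit 57361) (nat_lit 0) (.e (nat_lit 5598) (nat_lit 310) .nil)))))))) (.g (nat_lit 5) .nil .nil))) 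
(.lf (nat_lit 250027) (.g (nat_lit 5293) (.e (nat_lit 163869) (nat_lit 2) (.e (nat_lit 196670) (nat_lit 14) (.e (nat_lit 73754) (nat_lit 8) (.e (nat_lit 557105) (nat_lit 14) (.e (nat_lit 180252) (nat_lit 10) (.e (nat_lit 573474) (nat_lit 12) (.e (nat_lit 57347) (nat_lit 0) (.e (nat_lit 5595) (nat_lit 310) .nil)))))))) (.g (nat_lit 5) .nil .nil)))) (.nd (nat_lit 5) 
(.lf (nat_lit 250011) (.g (nat_lit 4768) (.e (nat_lit 163869) (nat_lit 2) (.e (nat_lit 196670) (nat_lit 14) (.e (nat_lit 73754) (nat_lit 8) (.e (nat_lit 557105) (nat_lit 14) (.e (nat_lit 180252) (nat_lit 10) (.e (nat_lit 573474) (nat_lit 12) (.e (nat_lit 57344) (nat_lit 0) (.e (nat_lit 5596) (nat_lit 310) .nil)))))))) (.g (nat_lit 5) .nil .nil))) 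
(.lf (nat_lit 250043) (.g (nat_lit 4375) (.e (nat_lit 163869) (nat_lit 2) (.e (nat_lit 196670) (nat_lit 14) (.e (nat_lit 73754) (nat_lit 8) (.e (nat_lit 557105) (nat_lit 14) (.e (nat_lit 180252) (nat_lit 10) (.e (nat_lit 573474) (nat_lit 12) (.e (nat_lit 57360) (nat_lit 0) (.e (nat_lit 5596) (nat_lit 310) .nil)))))))) (.g (nat_lit 5) .nil .nil)))))) 
(.nd (nat_lit 3) (.nd (nat_lit 4) (.nd (nat_lit 5) 
(.lf (nat_lit 249991) (.g (nat_lit 3594) (.e (nat_lit 163869) (nat_lit 2) (.e (nat_lit 196670) (nat_lit 14) (.e (nat_lit 73753) (nat_lit 8) (.e (nat_lit 557105) (nat_lit 14) (.e (nat_lit 180252) (nat_lit 10) (.e (nat_lit 573475) (nat_lit 12) (.e (nat_lit 57360) (nat_lit 0) (.e (nat_lit 5596) (nat_lit 310) .nil)))))))) (.g (nat_lit 5) .nil .nil))) 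
(.lf (nat_lit 250023) (.g (nat_lit 4127) (.e (nat_lit 163869) (nat_lit 2) (.e (nat_lit 196670) (nat_lit 14) (.e (nat_lit 73754) (nat_lit 8) (.e (nat_lit 557105) (nat_lit 14) (.e (nat_lit 180252) (nat_lit 10) (.e (nat_lit 573474) (nat_lit 12) (.e (nat_lit 57347) (nat_lit 0) (.e (nat_lit 5584) (nat_lit 310) .nil)))))))) (.g (nat_lit 5) .nil .nil)))) (.nd (nat_lit 5) 
(.lf (nat_lit 250007) (.g (nat_lit 4037) (.e (nat_lit 163869) (nat_lit 2) (.e (nat_lit 196670) (nat_lit 14) (.e (nat_lit 73754) (nat_lit 8) (.e (nat_lit 557105) (nat_lit 14) (.e (nat_lit 180252) (nat_lit 10) (.e (nat_lit 573473) (nat_lit 12) (.e (nat_lit 65280) (nat_lit 0) (.e (nat_lit 5587) (nat_lit 310) .nil)))))))) (.g (nat_lit 5) .nil .nil))) 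
(.lf (nat_lit 250039) (.g (nat_lit 5474) (.e (nat_lit 163869) (nat_lit 2) (.e (nat_lit 196670) (nat_lit 14) (.e (nat_lit 73754) (nat_lit 8) (.e (nat_lit 557105) (nat_lit 14) (.e (nat_lit 180252) (nat_lit 10) (.e (nat_lit 573474) (nat_lit 12) (.e (nat_lit 57356) (nat_lit 0) (.e (nat_lit 5603) (nat_lit 310) .nil)))))))) (.g (nat_lit 6) .nil .nil))))) (.nd (nat_lit 4) (.nd (nat_lit 5) 
(.lf (nat_lit 249999) (.g (nat_lit 3408) (.e (nat_lit 163869) (nat_lit 2) (.e (nat_lit 196670) (nat_lit 14) (.e (nat_lit 73754) (nat_lit 8) (.e (nat_lit 557105) (nat_lit 14) (.e (nat_lit 180251) (nat_lit 10) (.e (nat_lit 573478) (nat_lit 12) (.e (nat_lit 65280) (nat_lit 0) (.e (nat_lit 5587) (nat_lit 310) .nil)))))))) (.g (nat_lit 4) .nil .nil))) 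
(.lf (nat_lit 250031) (.g (nat_lit 5031) (.e (nat_lit 163869) (nat_lit 2) (.e (nat_lit 196670) (nat_lit 14) (.e (nat_lit 73754) (nat_lit 8) (.e (nat_lit 557105) (nat_lit 14) (.e (nat_lit 180252) (nat_lit 10) (.e (nat_lit 573474) (nat_lit 12) (.e (nat_lit 57348) (nat_lit 0) (.e (nat_lit 5595) (nat_lit 310) .nil)))))))) (.g (nat_lit 5) .nil .nil)))) (.nd (nat_lit 5) 
(.lf (nat_lit 250015) (.g (nat_lit 5157) (.e (nat_lit 163869) (nat_lit 2) (.e (nat_lit 196670) (nat_lit 14) (.e (nat_lit 73754) (nat_lit 8) (.e (nat_lit 557105) (nat_lit 14) (.e (nat_lit 180252) (nat_lit 10) (.e (nat_lit 573474) (nat_lit 12) (.e (nat_lit 57345) (nat_lit 0) (.e (nat_lit 5583) (nat_lit 310) .nil)))))))) (.g (nat_lit 5) .nil .nil))) 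
(.lf (nat_lit 250047) (.g (nat_lit 3138) (.e (nat_lit 163869) (nat_lit 2) (.e (nat_lit 196670) (nat_lit 14) (.e (nat_lit 73754) (nat_lit 8) (.e (nat_lit 557105) (nat_lit 14) (.e (nat_lit 180252) (nat_lit 10) (.e (nat_lit 573475) (nat_lit 12) (.e (nat_lit 57344) (nat_lit 0) (.e (nat_lit 5592) (nat_lit 310) .nil)))))))) (.g (nat_lit 4) .nil .nil)))))))))

noncomputable def tv3238 : DT := (.nd (nat_lit 0) (.nd (nat_lit 1) (.nd (nat_lit 2) (.nd (nat_lit 3) (.nd (nat_lit 4) (.nd (nat_lit 5) 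
(.lf (nat_lit 250048) (.g (nat_lit 4383) (.e (nat_lit 163869) (nat_lit 2) (.e (nat_lit 196670) (nat_lit 14) (.e (nat_lit 73754) (nat_lit 8) (.e (nat_lit 557105) (nat_lit 14) (.e (nat_lit 180252) (nat_lit 10) (.e (nat_lit 573475) (nat_lit 12) (.e (nat_lit 57344) (nat_lit 0) (.e (nat_lit 5596) (nat_lit 310) .nil)))))))) (.g (nat_lit 6) .nil .nil))) 
(.lf (nat_lit 250080) (.g (nat_lit 3959) (.e (nat_lit 163869) (nat_lit 2) (.e (nat_lit 196670) (nat_lit 14) (.e (nat_lit 73755) (nat_lit 8) (.e (nat_lit 557105) (nat_lit 14) (.e (nat_lit 180252) (nat_lit 10) (.e (nat_lit 573474) (nat_lit 12) (.e (nat_lit 57347) (nat_lit 0) (.e (nat_lit 5595) (nat_lit 310) .nil)))))))) (.g (nat_lit 4) .nil .nil)))) (.nd (nat_lit 5) 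
(.lf (nat_lit 250064) (.g (nat_lit 2406) (.e (nat_lit 163869) (nat_lit 2) (.e (nat_lit 196670) (nat_lit 14) (.e (nat_lit 73754) (nat_lit 8) (.e (nat_lit 557105) (nat_lit 14) (.e (nat_lit 180252) (nat_lit 10) (.e (nat_lit 573475) (nat_lit 12) (.e (nat_lit 57356) (nat_lit 0) (.e (nat_lit 7936) (nat_lit 310) .nil)))))))) (.g (nat_lit 4) .nil .nil))) 
(.lf (nat_lit 250096) (.g (nat_lit 351) (.e (nat_lit 163870) (nat_lit 2) (.e (nat_lit 196653) (nat_lit 11) (.e (nat_lit 16438) (nat_lit 9) .nil))) .nil)))) (.nd (nat_lit 4) (.nd (nat_lit 5) 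
(.lf (nat_lit 250056) (.g (nat_lit 3558) (.e (nat_lit 163869) (nat_lit 2) (.e (nat_lit 196670) (nat_lit 14) (.e (nat_lit 73754) (nat_lit 8) (.e (nat_lit 557105) (nat_lit 14) (.e (nat_lit 180252) (nat_lit 10) (.e (nat_lit 573475) (nat_lit 12) (.e (nat_lit 57347) (nat_lit 0) (.e (nat_lit 5592) (nat_lit 310) .nil)))))))) (.g (nat_lit 4) .nil .nil))) 
(.lf (nat_lit 250088) (.g (nat_lit 4174) (.e (nat_lit 163869) (nat_lit 2) (.e (nat_lit 196670) (nat_lit 14) (.e (nat_lit 73755) (nat_lit 8) (.e (nat_lit 557105) (nat_lit 14) (.e (nat_lit 180252) (nat_lit 10) (.e (nat_lit 573474) (nat_lit 12) (.e (nat_lit 57356) (nat_lit 0) (.e (nat_lit 5603) (nat_lit 310) .nil)))))))) (.g (nat_lit 5) .nil .nil)))) (.nd (nat_lit 5) 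
(.lf (nat_lit 250072) (.g (nat_lit 3654) (.e (nat_lit 163869) (nat_lit 2) (.e (nat_lit 196670) (nat_lit 14) (.e (nat_lit 73755) (nat_lit 8) (.e (nat_lit 557105) (nat_lit 14) (.e (nat_lit 180252) (nat_lit 10) (.e (nat_lit 573474) (nat_lit 12) (.e (nat_lit 57344) (nat_lit 0) (.e (nat_lit 5587) (nat_lit 310) .nil)))))))) (.g (nat_lit 4) .nil .nil))) 
(.lf (nat_lit 250104) (.g (nat_lit 3323) (.e (nat_lit 163870) (nat_lit 2) (.e (nat_lit 196666) (nat_lit 13) (.e (nat_lit 65610) (nat_lit 10) (.e (nat_lit 344129) (nat_lit 26) (.e (nat_lit 557087) (nat_lit 11) (.e (nat_lit 24584) (nat_lit 0) (.e (nat_lit 968) (nat_lit 81) (.e (nat_lit 4422) (nat_lit 261) .nil)))))))) (.g (nat_lit 6) .nil .nil)))))) 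
(.nd (nat_lit 3) (.nd (nat_lit 4) (.nd (nat_lit 5) 
(.lf (nat_lit 250052) (.g (nat_lit 4274) (.e (nat_lit 163869) (nat_lit 2) (.e (nat_lit 196670) (nat_lit 14) (.e (nat_lit 73754) (nat_lit 8) (.e (nat_lit 557105) (nat_lit 14) (.e (nat_lit 180252) (nat_lit 10) (.e (nat_lit 573475) (nat_lit 12) (.e (nat_lit 57346) (nat_lit 0) (.e (nat_lit 5583) (nat_lit 310) .nil)))))))) (.g (nat_lit 6) .nil .nil))) 
(.lf (nat_lit 250084) (.g (nat_lit 3697) (.e (nat_lit 163869) (nat_lit 2) (.e (nat_lit 196670) (nat_lit 14) (.e (nat_lit 73755) (nat_lit 8) (.e (nat_lit 557105) (nat_lit 14) (.e (nat_lit 180252) (nat_lit 10) (.e (nat_lit 573474) (nat_lit 12) (.e (nat_lit 57348) (nat_lit 0) (.e (nat_lit 5595) (nat_lit 310) .nil)))))))) (.g (nat_lit 4) .nil .nil)))) (.nd (nat_lit 5) 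
(.lf (nat_lit 250068) (.g (nat_lit 3005) (.e (nat_lit 163869) (nat_lit 2) (.e (nat_lit 196670) (nat_lit 14) (.e (nat_lit 73754) (nat_lit 8) (.e (nat_lit 557105) (nat_lit 14) (.e (nat_lit 180252) (nat_lit 10) (.e (nat_lit 573475) (nat_lit 12) (.e (nat_lit 65280) (nat_lit 0) (.e (nat_lit 5603) (nat_lit 310) .nil)))))))) (.g (nat_lit 4) .nil .nil))) 
(.lf (nat_lit 250100) (.g (nat_lit 754) (.e (nat_lit 163870) (nat_lit 2) (.e (nat_lit 196666) (nat_lit 13) (.e (nat_lit 65574) (nat_lit 4) .nil))) .nil)))) (.nd (nat_lit 4) (.nd (nat_lit 5) 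
(.lf (nat_lit 250060) (.g (nat_lit 3429) (.e (nat_lit 163869) (nat_lit 2) (.e (nat_lit 196670) (nat_lit 14) (.e (nat_lit 73754) (nat_lit 8) (.e (nat_lit 557105) (nat_lit 14) (.e (nat_lit 180252) (nat_lit 10) (.e (nat_lit 573475) (nat_lit 12) (.e (nat_lit 57349) (nat_lit 0) (.e (nat_lit 5592) (nat_lit 310) .nil)))))))) (.g (nat_lit 4) .nil .nil))) 
(.lf (nat_lit 250092) (.g (nat_lit 3949) (.e (nat_lit 163869) (nat_lit 2) (.e (nat_lit 196670) (nat_lit 14) (.e (nat_lit 73755) (nat_lit 8) (.e (nat_lit 557105) (nat_lit 14) (.e (nat_lit 180252) (nat_lit 10) (.e (nat_lit 573474) (nat_lit 12) (.e (nat_lit 65280) (nat_lit 0) (.e (nat_lit 5587) (nat_lit 310) .nil)))))))) (.g (nat_lit 4) .nil .nil)))) (.nd (nat_lit 5) 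
(.lf (nat_lit 250076) (.g (nat_lit 3069) (.e (nat_lit 163869) (nat_lit 2) (.e (nat_lit 196670) (nat_lit 14) (.e (nat_lit 73755) (nat_lit 8) (.e (nat_lit 557105) (nat_lit 14) (.e (nat_lit 180252) (nat_lit 10) (.e (nat_lit 573474) (nat_lit 12) (.e (nat_lit 57346) (nat_lit 0) (.e (nat_lit 7936) (nat_lit 310) .nil)))))))) (.g (nat_lit 4) .nil .nil))) 
(.lf (nat_lit 250108) (.g (nat_lit 3519) (.e (nat_lit 163870) (nat_lit 2) (.e (nat_lit 196666) (nat_lit 13) (.e (nat_lit 65610) (nat_lit 10) (.e (nat_lit 344129) (nat_lit 26) (.e (nat_lit 557087) (nat_lit 11) (.e (nat_lit 24584) (nat_lit 0) (.e (nat_lit 970) (nat_lit 81) (.e (nat_lit 4423) (nat_lit 261) .nil)))))))) (.g (nat_lit 7) .nil .nil))))))) 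
(.nd (nat_lit 2) (.nd (nat_lit 3) (.nd (nat_lit 4) (.nd (nat_lit 5) 
(.lf (nat_lit 250050) (.g (nat_lit 3414) (.e (nat_lit 163869) (nat_lit 2) (.e (nat_lit 196670) (nat_lit 14) (.e (nat_lit 73754) (nat_lit 8) (.e (nat_lit 557105) (nat_lit 14) (.e (nat_lit 180252) (nat_lit 10) (.e (nat_lit 573475) (nat_lit 12) (.e (nat_lit 57344) (nat_lit 0) (.e (nat_lit 5602) (nat_lit 310) .nil)))))))) (.g (nat_lit 4) .nil .nil))) 
(.lf (nat_lit 250082) (.g (nat_lit 4408) (.e (nat_lit 163869) (nat_lit 2) (.e (nat_lit 196670) (nat_lit 14) (.e (nat_lit 73755) (nat_lit 8) (.e (nat_lit 557105) (nat_lit 14) (.e (nat_lit 180252) (nat_lit 10) (.e (nat_lit 573474) (nat_lit 12) (.e (nat_lit 57348) (nat_lit 0) (.e (nat_lit 5591) (nat_lit 310) .nil)))))))) (.g (nat_lit 5) .nil .nil)))) (.nd (nat_lit 5) 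
(.lf (nat_lit 250066) (.g (nat_lit 2318) (.e (nat_lit 163869) (nat_lit 2) (.e (nat_lit 196670) (nat_lit 14) (.e (nat_lit 73754) (nat_lit 8) (.e (nat_lit 557105) (nat_lit 14) (.e (nat_lit 180252) (nat_lit 10) (.e (nat_lit 573475) (nat_lit 12) (.e (nat_lit 57360) (nat_lit 0) (.e (nat_lit 7936) (nat_lit 310) .nil)))))))) (.g (nat_lit 4) .nil .nil))) 
(.lf (nat_lit 250098) (.g (nat_lit 1094) (.e (nat_lit 163870) (nat_lit 2) (.e (nat_lit 196654) (nat_lit 11) (.e (nat_lit 16466) (nat_lit 13) (.e (nat_lit 483341) (nat_lit 9) .nil)))) .nil)))) (.nd (nat_lit 4) (.nd (nat_lit 5) 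
(.lf (nat_lit 250058) (.g (nat_lit 3198) (.e (nat_lit 163869) (nat_lit 2) (.e (nat_lit 196670) (nat_lit 14) (.e (nat_lit 73754) (nat_lit 8) (.e (nat_lit 557105) (nat_lit 14) (.e (nat_lit 180252) (nat_lit 10) (.e (nat_lit 573475) (nat_lit 12) (.e (nat_lit 57348) (nat_lit 0) (.e (nat_lit 5591) (nat_lit 310) .nil)))))))) (.g (nat_lit 4) .nil .nil))) 
(.lf (nat_lit 250090) (.g (nat_lit 4024) (.e (nat_lit 163869) (nat_lit 2) (.e (nat_lit 196670) (nat_lit 14) (.e (nat_lit 73755) (nat_lit 8) (.e (nat_lit 557105) (nat_lit 14) (.e (nat_lit 180252) (nat_lit 10) (.e (nat_lit 573474) (nat_lit 12) (.e (nat_lit 57358) (nat_lit 0) (.e (nat_lit 5603) (nat_lit 310) .nil)))))))) (.g (nat_lit 5) .nil .nil)))) (.nd (nat_lit 5) 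
(.lf (nat_lit 250074) (.g (nat_lit 3884) (.e (nat_lit 163869) (nat_lit 2) (.e (nat_lit 196670) (nat_lit 14) (.e (nat_lit 73755) (nat_lit 8) (.e (nat_lit 557105) (nat_lit 14) (.e (nat_lit 180252) (nat_lit 10) (.e (nat_lit 573474) (nat_lit 12) (.e (nat_lit 57345) (nat_lit 0) (.e (nat_lit 5583) (nat_lit 310) .nil)))))))) (.g (nat_lit 4) .nil .nil))) 
(.lf (nat_lit 250106) (.g (nat_lit 3359) (.e (nat_lit 163870) (nat_lit 2) (.e (nat_lit 196666) (nat_lit 13) (.e (nat_lit 65610) (nat_lit 10) (.e (nat_lit 344129) (nat_lit 26) (.e (nat_lit 557087) (nat_lit 11) (.e (nat_lit 24584) (nat_lit 0) (.e (nat_lit 968) (nat_lit 81) (.e (nat_lit 4424) (nat_lit 261) .nil)))))))) (.g (nat_lit 6) .nil .nil)))))) 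
(.nd (nat_lit 3) (.nd (nat_lit 4) (.nd (nat_lit 5) 
(.lf (nat_lit 250054) (.g (nat_lit 3329) (.e (nat_lit 163869) (nat_lit 2) (.e (nat_lit 196670) (nat_lit 14) (.e (nat_lit 73754) (nat_lit 8) (.e (nat_lit 557105) (nat_lit 14) (.e (nat_lit 180252) (nat_lit 10) (.e (nat_lit 573475) (nat_lit 12) (.e (nat_lit 57347) (nat_lit 0) (.e (nat_lit 5590) (nat_lit 310) .nil)))))))) (.g (nat_lit 4) .nil .nil))) 
(.lf (nat_lit 250086) (.g (nat_lit 4077) (.e (nat_lit 163869) (nat_lit 2) (.e (nat_lit 196670) (nat_lit 14) (.e (nat_lit 73755) (nat_lit 8) (.e (nat_lit 557105) (nat_lit 14) (.e (nat_lit 180252) (nat_lit 10) (.e (nat_lit 573474) (nat_lit 12) (.e (nat_lit 57355) (nat_lit 0) (.e (nat_lit 5603) (nat_lit 310) .nil)))))))) (.g (nat_lit 5) .nil .nil)))) (.nd (nat_lit 5) 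
(.lf (nat_lit 250070) (.g (nat_lit 3198) (.e (nat_lit 163869) (nat_lit 2) (.e (nat_lit 196670) (nat_lit 14) (.e (nat_lit 73755) (nat_lit 8) (.e (nat_lit 557105) (nat_lit 14) (.e (nat_lit 180252) (nat_lit 10) (.e (nat_lit 573451) (nat_lit 9) (.e (nat_lit 1174) (nat_lit 87) (.e (nat_lit 57926) (nat_lit 282) .nil)))))))) (.g (nat_lit 4) .nil .nil))) 
(.lf (nat_lit 250102) (.g (nat_lit 2505) (.e (nat_lit 163870) (nat_lit 2) (.e (nat_lit 196666) (nat_lit 13) (.e (nat_lit 65610) (nat_lit 10) (.e (nat_lit 344117) (nat_lit 21) (.e (nat_lit 516159) (nat_lit 10) .nil))))) .nil)))) (.nd (nat_lit 4) (.nd (nat_lit 5) 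
(.lf (nat_lit 250062) (.g (nat_lit 3192) (.e (nat_lit 163869) (nat_lit 2) (.e (nat_lit 196670) (nat_lit 14) (.e (nat_lit 73754) (nat_lit 8) (.e (nat_lit 557105) (nat_lit 14) (.e (nat_lit 180252) (nat_lit 10) (.e (nat_lit 573475) (nat_lit 12) (.e (nat_lit 57356) (nat_lit 0) (.e (nat_lit 5596) (nat_lit 310) .nil)))))))) (.g (nat_lit 4) .nil .nil))) 
(.lf (nat_lit 250094) (.g (nat_lit 1049) (.e (nat_lit 163869) (nat_lit 2) (.e (nat_lit 196674) (nat_lit 15) (.e (nat_lit 81925) (nat_lit 11) (.e (nat_lit 426500) (nat_lit 27) .nil)))) .nil))) (.nd (nat_lit 5) 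
(.lf (nat_lit 250078) (.g (nat_lit 4424) (.e (nat_lit 163869) (nat_lit 2) (.e (nat_lit 196670) (nat_lit 14) (.e (nat_lit 73755) (nat_lit 8) (.e (nat_lit 557105) (nat_lit 14) (.e (nat_lit 180252) (nat_lit 10) (.e (nat_lit 573474) (nat_lit 12) (.e (nat_lit 57347) (nat_lit 0) (.e (nat_lit 5591) (nat_lit 310) .nil)))))))) (.g (nat_lit 5) .nil .nil))) 
(.lf (nat_lit 250110) (.g (nat_lit 2934) (.e (nat_lit 163870) (nat_lit 2) (.e (nat_lit 196666) (nat_lit 13) (.e (nat_lit 65610) (nat_lit 10) (.e (nat_lit 344129) (nat_lit 26) (.e (nat_lit 557087) (nat_lit 11) (.e (nat_lit 24584) (nat_lit 0) (.e (nat_lit 972) (nat_lit 81) (.e (nat_lit 4421) (nat_lit 261) .nil)))))))) (.g (nat_lit 5) .nil .nil)))))))) 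
(.nd (nat_lit 1) (.nd (nat_lit 2) (.nd (nat_lit 3) (.nd (nat_lit 4) (.nd (nat_lit 5) 
(.lf (nat_lit 250049) (.g (nat_lit 3937) (.e (nat_lit 163869) (nat_lit 2) (.e (nat_lit 196670) (nat_lit 14) (.e (nat_lit 73754) (nat_lit 8) (.e (nat_lit 557105) (nat_lit 14) (.e (nat_lit 180252) (nat_lit 10) (.e (nat_lit 573475) (nat_lit 12) (.e (nat_lit 57344) (nat_lit 0) (.e (nat_lit 5601) (nat_lit 310) .nil)))))))) (.g (nat_lit 5) .nil .nil))) 
(.lf (nat_lit 250081) (.g (nat_lit 3698) (.e (nat_lit 163869) (nat_lit 2) (.e (nat_lit 196670) (nat_lit 14) (.e (nat_lit 73755) (nat_lit 8) (.e (nat_lit 557105) (nat_lit 14) (.e (nat_lit 180252) (nat_lit 10) (.e (nat_lit 573474) (nat_lit 12) (.e (nat_lit 57348) (nat_lit 0) (.e (nat_lit 5590) (nat_lit 310) .nil)))))))) (.g (nat_lit 4) .nil .nil)))) (.nd (nat_lit 5) 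
(.lf (nat_lit 250065) (.g (nat_lit 4498) (.e (nat_lit 163869) (nat_lit 2) (.e (nat_lit 196670) (nat_lit 14) (.e (nat_lit 73754) (nat_lit 8) (.e (nat_lit 557105) (nat_lit 14) (.e (nat_lit 180252) (nat_lit 10) (.e (nat_lit 573475) (nat_lit 12) (.e (nat_lit 57360) (nat_lit 0) (.e (nat_lit 5596) (nat_lit 310) .nil)))))))) (.g (nat_lit 6) .nil .nil))) 
(.lf (nat_lit 250097) (.g (nat_lit 1689) (.e (nat_lit 163870) (nat_lit 2) (.e (nat_lit 196654) (nat_lit 11) (.e (nat_lit 16433) (nat_lit 9) (.e (nat_lit 426568) (nat_lit 34) .nil)))) .nil)))) (.nd (nat_lit 4) (.nd (nat_lit 5) 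
(.lf (nat_lit 250057) (.g (nat_lit 3248) (.e (nat_lit 163869) (nat_lit 2) (.e (nat_lit 196670) (nat_lit 14) (.e (nat_lit 73754) (nat_lit 8) (.e (nat_lit 557105) (nat_lit 14) (.e (nat_lit 180252) (nat_lit 10) (.e (nat_lit 573475) (nat_lit 12) (.e (nat_lit 57347) (nat_lit 0) (.e (nat_lit 5595) (nat_lit 310) .nil)))))))) (.g (nat_lit 4) .nil .nil))) 
(.lf (nat_lit 250089) (.g (nat_lit 3459) (.e (nat_lit 163869) (nat_lit 2) (.e (nat_lit 196670) (nat_lit 14) (.e (nat_lit 73755) (nat_lit 8) (.e (nat_lit 557105) (nat_lit 14) (.e (nat_lit 180252) (nat_lit 10) (.e (nat_lit 573474) (nat_lit 12) (.e (nat_lit 57358) (nat_lit 0) (.e (nat_lit 5596) (nat_lit 310) .nil)))))))) (.g (nat_lit 4) .nil .nil)))) (.nd (nat_lit 5) 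
(.lf (nat_lit 250073) (.g (nat_lit 3414) (.e (nat_lit 163869) (nat_lit 2) (.e (nat_lit 196670) (nat_lit 14) (.e (nat_lit 73755) (nat_lit 8) (.e (nat_lit 557105) (nat_lit 14) (.e (nat_lit 180252) (nat_lit 10) (.e (nat_lit 573474) (nat_lit 12) (.e (nat_lit 57344) (nat_lit 0) (.e (nat_lit 5596) (nat_lit 310) .nil)))))))) (.g (nat_lit 4) .nil .nil))) 
(.lf (nat_lit 250105) (.g (nat_lit 3354) (.e (nat_lit 163870) (nat_lit 2) (.e (nat_lit 196666) (nat_lit 13) (.e (nat_lit 65610) (nat_lit 10) (.e (nat_lit 344129) (nat_lit 26) (.e (nat_lit 557087) (nat_lit 11) (.e (nat_lit 24584) (nat_lit 0) (.e (nat_lit 968) (nat_lit 81) (.e (nat_lit 4423) (nat_lit 261) .nil)))))))) (.g (nat_lit 6) .nil .nil)))))) 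
(.nd (nat_lit 3) (.nd (nat_lit 4) (.nd (nat_lit 5) 
(.lf (nat_lit 250053) (.g (nat_lit 3338) (.e (nat_lit 163869) (nat_lit 2) (.e (nat_lit 196670) (nat_lit 14) (.e (nat_lit 73754) (nat_lit 8) (.e (nat_lit 557105) (nat_lit 14) (.e (nat_lit 180252) (nat_lit 10) (.e (nat_lit 573475) (nat_lit 12) (.e (nat_lit 57346) (nat_lit 0) (.e (nat_lit 7936) (nat_lit 310) .nil)))))))) (.g (nat_lit 5) .nil .nil))) 
(.lf (nat_lit 250085) (.g (nat_lit 4144) (.e (nat_lit 163869) (nat_lit 2) (.e (nat_lit 196670) (nat_lit 14) (.e (nat_lit 73755) (nat_lit 8) (.e (nat_lit 557105) (nat_lit 14) (.e (nat_lit 180252) (nat_lit 10) (.e (nat_lit 573474) (nat_lit 12) (.e (nat_lit 57354) (nat_lit 0) (.e (nat_lit 5601) (nat_lit 310) .nil)))))))) (.g (nat_lit 4) .nil .nil)))) (.nd (nat_lit 5) 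
(.lf (nat_lit 250069) (.g (nat_lit 3296) (.e (nat_lit 163869) (nat_lit 2) (.e (nat_lit 196670) (nat_lit 14) (.e (nat_lit 73755) (nat_lit 8) (.e (nat_lit 557105) (nat_lit 14) (.e (nat_lit 180252) (nat_lit 10) (.e (nat_lit 573451) (nat_lit 9) (.e (nat_lit 1169) (nat_lit 87) (.e (nat_lit 57926) (nat_lit 282) .nil)))))))) (.g (nat_lit 4) .nil .nil))) 
(.lf (nat_lit 250101) (.g (nat_lit 2749) (.e (nat_lit 163870) (nat_lit 2) (.e (nat_lit 196666) (nat_lit 13) (.e (nat_lit 65610) (nat_lit 10) (.e (nat_lit 344117) (nat_lit 21) (.e (nat_lit 516151) (nat_lit 9) .nil))))) .nil)))) (.nd (nat_lit 4) (.nd (nat_lit 5) 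
(.lf (nat_lit 250061) (.g (nat_lit 3038) (.e (nat_lit 163869) (nat_lit 2) (.e (nat_lit 196670) (nat_lit 14) (.e (nat_lit 73754) (nat_lit 8) (.e (nat_lit 557105) (nat_lit 14) (.e (nat_lit 180252) (nat_lit 10) (.e (nat_lit 573475) (nat_lit 12) (.e (nat_lit 57354) (nat_lit 0) (.e (nat_lit 5601) (nat_lit 310) .nil)))))))) (.g (nat_lit 4) .nil .nil))) 
(.lf (nat_lit 250093) (.g (nat_lit 506) (.e (nat_lit 163869) (nat_lit 2) (.e (nat_lit 196672) (nat_lit 15) (.e (nat_lit 81925) (nat_lit 11) .nil))) .nil))) (.nd (nat_lit 5) 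
(.lf (nat_lit 250077) (.g (nat_lit 3982) (.e (nat_lit 163869) (nat_lit 2) (.e (nat_lit 196670) (nat_lit 14) (.e (nat_lit 73755) (nat_lit 8) (.e (nat_lit 557105) (nat_lit 14) (.e (nat_lit 180252) (nat_lit 10) (.e (nat_lit 573474) (nat_lit 12) (.e (nat_lit 57347) (nat_lit 0) (.e (nat_lit 5590) (nat_lit 310) .nil)))))))) (.g (nat_lit 4) .nil .nil))) 
(.lf (nat_lit 250109) (.g (nat_lit 3178) (.e (nat_lit 163870) (nat_lit 2) (.e (nat_lit 196666) (nat_lit 13) (.e (nat_lit 65610) (nat_lit 10) (.e (nat_lit 344129) (nat_lit 26) (.e (nat_lit 557087) (nat_lit 11) (.e (nat_lit 24584) (nat_lit 0) (.e (nat_lit 970) (nat_lit 81) (.e (nat_lit 4425) (nat_lit 261) .nil)))))))) (.g (nat_lit 6) .nil .nil))))))) 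
(.nd (nat_lit 2) (.nd (nat_lit 3) (.nd (nat_lit 4) (.nd (nat_lit 5) 
(.lf (nat_lit 250051) (.g (nat_lit 3431) (.e (nat_lit 163869) (nat_lit 2) (.e (nat_lit 196670) (nat_lit 14) (.e (nat_lit 73754) (nat_lit 8) (.e (nat_lit 557105) (nat_lit 14) (.e (nat_lit 180252) (nat_lit 10) (.e (nat_lit 573475) (nat_lit 12) (.e (nat_lit 57345) (nat_lit 0) (.e (nat_lit 5593) (nat_lit 310) .nil)))))))) (.g (nat_lit 4) .nil .nil))) 
(.lf (nat_lit 250083) (.g (nat_lit 3800) (.e (nat_lit 163869) (nat_lit 2) (.e (nat_lit 196670) (nat_lit 14) (.e (nat_lit 73755) (nat_lit 8) (.e (nat_lit 557105) (nat_lit 14) (.e (nat_lit 180252) (nat_lit 10) (.e (nat_lit 573474) (nat_lit 12) (.e (nat_lit 57348) (nat_lit 0) (.e (nat_lit 5593) (nat_lit 310) .nil)))))))) (.g (nat_lit 4) .nil .nil)))) (.nd (nat_lit 5) 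
(.lf (nat_lit 250067) (.g (nat_lit 4743) (.e (nat_lit 163869) (nat_lit 2) (.e (nat_lit 196670) (nat_lit 14) (.e (nat_lit 73754) (nat_lit 8) (.e (nat_lit 557105) (nat_lit 14) (.e (nat_lit 180252) (nat_lit 10) (.e (nat_lit 573475) (nat_lit 12) (.e (nat_lit 65280) (nat_lit 0) (.e (nat_lit 5587) (nat_lit 310) .nil)))))))) (.g (nat_lit 6) .nil .nil))) 
(.lf (nat_lit 250099) (.g (nat_lit 947) (.e (nat_lit 163870) (nat_lit 2) (.e (nat_lit 196666) (nat_lit 13) (.e (nat_lit 65572) (nat_lit 4) .nil))) .nil)))) (.nd (nat_lit 4) (.nd (nat_lit 5) 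
(.lf (nat_lit 250059) (.g (nat_lit 3187) (.e (nat_lit 163869) (nat_lit 2) (.e (nat_lit 196670) (nat_lit 14) (.e (nat_lit 73754) (nat_lit 8) (.e (nat_lit 557105) (nat_lit 14) (.e (nat_lit 180252) (nat_lit 10) (.e (nat_lit 573475) (nat_lit 12) (.e (nat_lit 57348) (nat_lit 0) (.e (nat_lit 5592) (nat_lit 310) .nil)))))))) (.g (nat_lit 4) .nil .nil))) 
(.lf (nat_lit 250091) (.g (nat_lit 3821) (.e (nat_lit 163869) (nat_lit 2) (.e (nat_lit 196670) (nat_lit 14) (.e (nat_lit 73755) (nat_lit 8) (.e (nat_lit 557105) (nat_lit 14) (.e (nat_lit 180252) (nat_lit 10) (.e (nat_lit 573474) (nat_lit 12) (.e (nat_lit 57360) (nat_lit 0) (.e (nat_lit 5599) (nat_lit 310) .nil)))))))) (.g (nat_lit 4) .nil .nil)))) (.nd (nat_lit 5) 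
(.lf (nat_lit 250075) (.g (nat_lit 3861) (.e (nat_lit 163869) (nat_lit 2) (.e (nat_lit 196670) (nat_lit 14) (.e (nat_lit 73755) (nat_lit 8) (.e (nat_lit 557105) (nat_lit 14) (.e (nat_lit 180252) (nat_lit 10) (.e (nat_lit 573474) (nat_lit 12) (.e (nat_lit 57346) (nat_lit 0) (.e (nat_lit 5583) (nat_lit 310) .nil)))))))) (.g (nat_lit 4) .nil .nil))) 
(.lf (nat_lit 250107) (.g (nat_lit 3292) (.e (nat_lit 163870) (nat_lit 2) (.e (nat_lit 196666) (nat_lit 13) (.e (nat_lit 65610) (nat_lit 10) (.e (nat_lit 344129) (nat_lit 26) (.e (nat_lit 557087) (nat_lit 11) (.e (nat_lit 24584) (nat_lit 0) (.e (nat_lit 968) (nat_lit 81) (.e (nat_lit 4426) (nat_lit 261) .nil)))))))) (.g (nat_lit 6) .nil .nil)))))) 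
(.nd (nat_lit 3) (.nd (nat_lit 4) (.nd (nat_lit 5) 
(.lf (nat_lit 250055) (.g (nat_lit 3703) (.e (nat_lit 163869) (nat_lit 2) (.e (nat_lit 196670) (nat_lit 14) (.e (nat_lit 73754) (nat_lit 8) (.e (nat_lit 557105) (nat_lit 14) (.e (nat_lit 180252) (nat_lit 10) (.e (nat_lit 573475) (nat_lit 12) (.e (nat_lit 57347) (nat_lit 0) (.e (nat_lit 5591) (nat_lit 310) .nil)))))))) (.g (nat_lit 5) .nil .nil))) 
(.lf (nat_lit 250087) (.g (nat_lit 3343) (.e (nat_lit 163869) (nat_lit 2) (.e (nat_lit 196670) (nat_lit 14) (.e (nat_lit 73755) (nat_lit 8) (.e (nat_lit 557105) (nat_lit 14) (.e (nat_lit 180252) (nat_lit 10) (.e (nat_lit 573474) (nat_lit 12) (.e (nat_lit 57356) (nat_lit 0) (.e (nat_lit 5601) (nat_lit 310) .nil)))))))) (.g (nat_lit 4) .nil .nil)))) (.nd (nat_lit 5) 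
(.lf (nat_lit 250071) (.g (nat_lit 3267) (.e (nat_lit 163869) (nat_lit 2) (.e (nat_lit 196670) (nat_lit 14) (.e (nat_lit 73755) (nat_lit 8) (.e (nat_lit 557105) (nat_lit 14) (.e (nat_lit 180252) (nat_lit 10) (.e (nat_lit 573451) (nat_lit 9) (.e (nat_lit 1175) (nat_lit 87) (.e (nat_lit 57926) (nat_lit 282) .nil)))))))) (.g (nat_lit 4) .nil .nil))) 
(.lf (nat_lit 250103) (.g (nat_lit 3100) (.e (nat_lit 163870) (nat_lit 2) (.e (nat_lit 196666) (nat_lit 13) (.e (nat_lit 65610) (nat_lit 10) (.e (nat_lit 344117) (nat_lit 21) (.e (nat_lit 516161) (nat_lit 10) .nil))))) .nil)))) (.nd (nat_lit 4) (.nd (nat_lit 5) 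
(.lf (nat_lit 250063) (.g (nat_lit 4030) (.e (nat_lit 163869) (nat_lit 2) (.e (nat_lit 196670) (nat_lit 14) (.e (nat_lit 73754) (nat_lit 8) (.e (nat_lit 557105) (nat_lit 14) (.e (nat_lit 180252) (nat_lit 10) (.e (nat_lit 573475) (nat_lit 12) (.e (nat_lit 57356) (nat_lit 0) (.e (nat_lit 5601) (nat_lit 310) .nil)))))))) (.g (nat_lit 5) .nil .nil))) 
(.lf (nat_lit 250095) (.g (nat_lit 2466) (.e (nat_lit 163870) (nat_lit 2) (.e (nat_lit 196653) (nat_lit 11) (.e (nat_lit 16435) (nat_lit 9) (.e (nat_lit 426566) (nat_lit 34) (.e (nat_lit 393253) (nat_lit 18) (.e (nat_lit 164325) (nat_lit 230) .nil)))))) (.g (nat_lit 4) .nil .nil)))) (.nd (nat_lit 5) 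
(.lf (nat_lit 250079) (.g (nat_lit 4322) (.e (nat_lit 163869) (nat_lit 2) (.e (nat_lit 196670) (nat_lit 14) (.e (nat_lit 73755) (nat_lit 8) (.e (nat_lit 557105) (nat_lit 14) (.e (nat_lit 180252) (nat_lit 10) (.e (nat_lit 573474) (nat_lit 12) (.e (nat_lit 57347) (nat_lit 0) (.e (nat_lit 5592) (nat_lit 310) .nil)))))))) (.g (nat_lit 5) .nil .nil))) 
(.lf (nat_lit 250111) (.g (nat_lit 2737) (.e (nat_lit 163870) (nat_lit 2) (.e (nat_lit 196666) (nat_lit 13) (.e (nat_lit 65610) (nat_lit 10) (.e (nat_lit 344129) (nat_lit 26) (.e (nat_lit 557087) (nat_lit 11) (.e (nat_lit 24584) (nat_lit 0) (.e (nat_lit 972) (nat_lit 81) (.e (nat_lit 4423) (nat_lit 261) .nil)))))))) (.g (nat_lit 5) .nil .nil)))))))))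

noncomputable def tv3239 : DT := (.nd (nat_lit 0) (.nd (nat_lit 1) (.nd (nat_lit 2) (.nd (nat_lit 3) (.nd (nat_lit 4) (.nd (nat_lit 5) 
(.lf (nat_lit 250112) (.g (nat_lit 2250) (.e (nat_lit 163870) (nat_lit 2) (.e (nat_lit 196666) (nat_lit 13) (.e (nat_lit 65610) (nat_lit 10) (.e (nat_lit 344129) (nat_lit 26) (.e (nat_lit 557087) (nat_lit 11) (.e (nat_lit 24584) (nat_lit 0) (.e (nat_lit 972) (nat_lit 81) (.e (nat_lit 4425) (nat_lit 261) .nil)))))))) (.g (nat_lit 4) .nil .nil))) 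
(.lf (nat_lit 250144) (.g (nat_lit 3390) (.e (nat_lit 163870) (nat_lit 2) (.e (nat_lit 196670) (nat_lit 14) (.e (nat_lit 73755) (nat_lit 8) (.e (nat_lit 557105) (nat_lit 14) (.e (nat_lit 180252) (nat_lit 10) (.e (nat_lit 573474) (nat_lit 12) (.e (nat_lit 57348) (nat_lit 0) (.e (nat_lit 5593) (nat_lit 310) .nil)))))))) (.g (nat_lit 4) .nil .nil)))) (.nd (nat_lit 5) 
(.lf (nat_lit 250128) (.g (nat_lit 2261) (.e (nat_lit 163870) (nat_lit 2) (.e (nat_lit 196667) (nat_lit 14) (.e (nat_lit 73755) (nat_lit 8) (.e (nat_lit 557105) (nat_lit 14) (.e (nat_lit 180252) (nat_lit 10) (.e (nat_lit 573474) (nat_lit 12) (.e (nat_lit 57349) (nat_lit 0) (.e (nat_lit 5590) (nat_lit 310) .nil)))))))) (.g (nat_lit 4) .nil .nil))) 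
(.lf (nat_lit 250160) (.g (nat_lit 856) (.e (nat_lit 163871) (nat_lit 2) (.e (nat_lit 196655) (nat_lit 11) (.e (nat_lit 16465) (nat_lit 13) (.e (nat_lit 483339) (nat_lit 9) .nil)))) .nil)))) (.nd (nat_lit 4) (.nd (nat_lit 5) 
(.lf (nat_lit 250120) (.g (nat_lit 4283) (.e (nat_lit 163870) (nat_lit 2) (.e (nat_lit 196667) (nat_lit 14) (.e (nat_lit 73754) (nat_lit 8) (.e (nat_lit 557105) (nat_lit 14) (.e (nat_lit 180252) (nat_lit 10) (.e (nat_lit 573474) (nat_lit 12) (.e (nat_lit 57347) (nat_lit 0) (.e (nat_lit 5590) (nat_lit 310) .nil)))))))) (.g (nat_lit 5) .nil .nil))) 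
(.lf (nat_lit 250152) (.g (nat_lit 1476) (.e (nat_lit 163871) (nat_lit 2) (.e (nat_lit 196651) (nat_lit 10) (.e (nat_lit 16128) (nat_lit 196) (.e (nat_lit 73747) (nat_lit 3) (.e (nat_lit 516171) (nat_lit 13) (.e (nat_lit 458771) (nat_lit 18) (.e (nat_lit 5968) (nat_lit 324) .nil))))))) (.g (nat_lit 4) .nil .nil)))) (.nd (nat_lit 5) 
(.lf (nat_lit 250136) (.g (nat_lit 1981) (.e (nat_lit 163870) (nat_lit 2) (.e (nat_lit 196670) (nat_lit 14) (.e (nat_lit 73754) (nat_lit 8) (.e (nat_lit 557105) (nat_lit 14) (.e (nat_lit 180252) (nat_lit 10) .nil))))) .nil)) 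
(.lf (nat_lit 250168) (.g (nat_lit 3691) (.e (nat_lit 163871) (nat_lit 2) (.e (nat_lit 196656) (nat_lit 11) (.e (nat_lit 16436) (nat_lit 9) (.e (nat_lit 426566) (nat_lit 34) (.e (nat_lit 393251) (nat_lit 18) (.e (nat_lit 164325) (nat_lit 230) .nil)))))) (.g (nat_lit 0) .nil .nil)))))) (.nd (nat_lit 3) (.nd (nat_lit 4) (.nd (nat_lit 5) 
(.lf (nat_lit 250116) (.g (nat_lit 3494) (.e (nat_lit 163870) (nat_lit 2) (.e (nat_lit 196666) (nat_lit 13) (.e (nat_lit 65627) (nat_lit 13) (.e (nat_lit 393225) (nat_lit 9) (.e (nat_lit 335988) (nat_lit 1) (.e (nat_lit 57925) (nat_lit 282) .nil)))))) (.g (nat_lit 0) .nil .nil))) 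
(.lf (nat_lit 250148) (.g (nat_lit 2214) (.e (nat_lit 163871) (nat_lit 2) (.e (nat_lit 196624) (nat_lit 9) (.e (nat_lit 1615) (nat_lit 113) (.e (nat_lit 376865) (nat_lit 22) (.e (nat_lit 90185) (nat_lit 17) (.e (nat_lit 237582) (nat_lit 1) (.e (nat_lit 171776) (nat_lit 219) .nil))))))) (.g (nat_lit 4) .nil .nil)))) (.nd (nat_lit 5) 
(.lf (nat_lit 250132) (.g (nat_lit 2576) (.e (nat_lit 163870) (nat_lit 2) (.e (nat_lit 196670) (nat_lit 14) (.e (nat_lit 73753) (nat_lit 8) (.e (nat_lit 557105) (nat_lit 14) (.e (nat_lit 180252) (nat_lit 10) (.e (nat_lit 573474) (nat_lit 12) (.e (nat_lit 57347) (nat_lit 0) (.e (nat_lit 5584) (nat_lit 310) .nil)))))))) (.g (nat_lit 4) .nil .nil))) 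
(.lf (nat_lit 250164) (.g (nat_lit 2517) (.e (nat_lit 163871) (nat_lit 2) (.e (nat_lit 196656) (nat_lit 11) (.e (nat_lit 16425) (nat_lit 7) (.e (nat_lit 409617) (nat_lit 10) (.e (nat_lit 858) (nat_lit 75) .nil))))) .nil)))) (.nd (nat_lit 4) (.nd (nat_lit 5) 
(.lf (nat_lit 250124) (.g (nat_lit 2253) (.e (nat_lit 163870) (nat_lit 2) (.e (nat_lit 196667) (nat_lit 14) (.e (nat_lit 73755) (nat_lit 8) (.e (nat_lit 557105) (nat_lit 14) (.e (nat_lit 180252) (nat_lit 10) (.e (nat_lit 573474) (nat_lit 12) (.e (nat_lit 57345) (nat_lit 0) (.e (nat_lit 5593) (nat_lit 310) .nil)))))))) (.g (nat_lit 4) .nil .nil))) 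
(.lf (nat_lit 250156) (.g (nat_lit 1410) (.e (nat_lit 163871) (nat_lit 2) (.e (nat_lit 196654) (nat_lit 11) (.e (nat_lit 16436) (nat_lit 9) (.e (nat_lit 426481) (nat_lit 27) .nil)))) .nil))) (.nd (nat_lit 5) 
(.lf (nat_lit 250140) (.g (nat_lit 4490) (.e (nat_lit 163870) (nat_lit 2) (.e (nat_lit 196670) (nat_lit 14) (.e (nat_lit 73754) (nat_lit 8) (.e (nat_lit 557105) (nat_lit 14) (.e (nat_lit 180252) (nat_lit 10) (.e (nat_lit 573474) (nat_lit 12) (.e (nat_lit 57348) (nat_lit 0) (.e (nat_lit 5590) (nat_lit 310) .nil)))))))) (.g (nat_lit 5) .nil .nil))) 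
(.lf (nat_lit 250172) (.g (nat_lit 2910) (.e (nat_lit 163871) (nat_lit 2) (.e (nat_lit 196663) (nat_lit 13) (.e (nat_lit 65574) (nat_lit 4) (.e (nat_lit 123197) (nat_lit 266) (.e (nat_lit 57445) (nat_lit 19) (.e (nat_lit 393233) (nat_lit 17) (.e (nat_lit 2399) (nat_lit 157) (.e (nat_lit 5968) (nat_lit 324) .nil)))))))) (.g (nat_lit 6) .nil .nil))))))) 
(.nd (nat_lit 2) (.nd (nat_lit 3) (.nd (nat_lit 4) (.nd (nat_lit 5) 
(.lf (nat_lit 250114) (.g (nat_lit 2829) (.e (nat_lit 163870) (nat_lit 2) (.e (nat_lit 196666) (nat_lit 13) (.e (nat_lit 65627) (nat_lit 13) (.e (nat_lit 393225) (nat_lit 9) (.e (nat_lit 335986) (nat_lit 1) (.e (nat_lit 57924) (nat_lit 282) .nil)))))) (.g (nat_lit 5) .nil .nil))) 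
(.lf (nat_lit 250146) (.g (nat_lit 4456) (.e (nat_lit 163871) (nat_lit 2) (.e (nat_lit 196624) (nat_lit 9) (.e (nat_lit 1277) (nat_lit 94) (.e (nat_lit 114715) (nat_lit 22) (.e (nat_lit 90170) (nat_lit 13) (.e (nat_lit 172065) (nat_lit 3) (.e (nat_lit 204830) (nat_lit 18) (.e (nat_lit 57690) (nat_lit 156) .nil)))))))) (.g (nat_lit 8) .nil .nil)))) (.nd (nat_lit 5) 
(.lf (nat_lit 250130) (.g (nat_lit 2783) (.e (nat_lit 163870) (nat_lit 2) (.e (nat_lit 196670) (nat_lit 14) (.e (nat_lit 73753) (nat_lit 8) (.e (nat_lit 557103) (nat_lit 14) (.e (nat_lit 180250) (nat_lit 10) (.e (nat_lit 573474) (nat_lit 12) (.e (nat_lit 57348) (nat_lit 0) (.e (nat_lit 5593) (nat_lit 310) .nil)))))))) (.g (nat_lit 4) .nil .nil))) 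
(.lf (nat_lit 250162) (.g (nat_lit 768) (.e (nat_lit 163871) (nat_lit 2) (.e (nat_lit 196655) (nat_lit 11) (.e (nat_lit 16465) (nat_lit 13) (.e (nat_lit 491264) (nat_lit 10) .nil)))) .nil)))) (.nd (nat_lit 4) (.nd (nat_lit 5) 
(.lf (nat_lit 250122) (.g (nat_lit 4245) (.e (nat_lit 163870) (nat_lit 2) (.e (nat_lit 196667) (nat_lit 14) (.e (nat_lit 73754) (nat_lit 8) (.e (nat_lit 557105) (nat_lit 14) (.e (nat_lit 180252) (nat_lit 10) (.e (nat_lit 573474) (nat_lit 12) (.e (nat_lit 57348) (nat_lit 0) (.e (nat_lit 5593) (nat_lit 310) .nil)))))))) (.g (nat_lit 5) .nil .nil))) 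
(.lf (nat_lit 250154) (.g (nat_lit 2183) (.e (nat_lit 163871) (nat_lit 2) (.e (nat_lit 196653) (nat_lit 11) (.e (nat_lit 16463) (nat_lit 13) (.e (nat_lit 483337) (nat_lit 9) (.e (nat_lit 426098) (nat_lit 1) (.e (nat_lit 164325) (nat_lit 230) .nil)))))) (.g (nat_lit 4) .nil .nil)))) (.nd (nat_lit 5) 
(.lf (nat_lit 250138) (.g (nat_lit 4105) (.e (nat_lit 163870) (nat_lit 2) (.e (nat_lit 196670) (nat_lit 14) (.e (nat_lit 73754) (nat_lit 8) (.e (nat_lit 557105) (nat_lit 14) (.e (nat_lit 180252) (nat_lit 10) (.e (nat_lit 573474) (nat_lit 12) (.e (nat_lit 57347) (nat_lit 0) (.e (nat_lit 5591) (nat_lit 310) .nil)))))))) (.g (nat_lit 5) .nil .nil))) 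
(.lf (nat_lit 250170) (.g (nat_lit 3874) (.e (nat_lit 163871) (nat_lit 2) (.e (nat_lit 196656) (nat_lit 11) (.e (nat_lit 16438) (nat_lit 9) (.e (nat_lit 426568) (nat_lit 34) (.e (nat_lit 393253) (nat_lit 18) (.e (nat_lit 164325) (nat_lit 230) .nil)))))) (.g (nat_lit 6) .nil .nil)))))) (.nd (nat_lit 3) (.nd (nat_lit 4) (.nd (nat_lit 5) 
(.lf (nat_lit 250118) (.g (nat_lit 3455) (.e (nat_lit 163870) (nat_lit 2) (.e (nat_lit 196666) (nat_lit 13) (.e (nat_lit 65627) (nat_lit 13) (.e (nat_lit 393225) (nat_lit 9) (.e (nat_lit 335995) (nat_lit 1) (.e (nat_lit 57924) (nat_lit 282) .nil)))))) (.g (nat_lit 6) .nil .nil))) 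
(.lf (nat_lit 250150) (.g (nat_lit 1452) (.e (nat_lit 163871) (nat_lit 2) (.e (nat_lit 196651) (nat_lit 10) (.e (nat_lit 16128) (nat_lit 196) (.e (nat_lit 73746) (nat_lit 3) (.e (nat_lit 516170) (nat_lit 13) (.e (nat_lit 458772) (nat_lit 18) (.e (nat_lit 5968) (nat_lit 324) .nil))))))) (.g (nat_lit 4) .nil .nil)))) (.nd (nat_lit 5) 
(.lf (nat_lit 250134) (.g (nat_lit 3991) (.e (nat_lit 163870) (nat_lit 2) (.e (nat_lit 196670) (nat_lit 14) (.e (nat_lit 73753) (nat_lit 8) (.e (nat_lit 557105) (nat_lit 14) (.e (nat_lit 180252) (nat_lit 10) (.e (nat_lit 573474) (nat_lit 12) (.e (nat_lit 57347) (nat_lit 0) (.e (nat_lit 5591) (nat_lit 310) .nil)))))))) (.g (nat_lit 5) .nil .nil))) 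
(.lf (nat_lit 250166) (.g (nat_lit 3682) (.e (nat_lit 163871) (nat_lit 2) (.e (nat_lit 196656) (nat_lit 11) (.e (nat_lit 16432) (nat_lit 9) (.e (nat_lit 426566) (nat_lit 34) (.e (nat_lit 393253) (nat_lit 18) (.e (nat_lit 164325) (nat_lit 230) .nil)))))) (.g (nat_lit 6) .nil .nil))))) (.nd (nat_lit 4) (.nd (nat_lit 5) 
(.lf (nat_lit 250126) (.g (nat_lit 2994) (.e (nat_lit 163870) (nat_lit 2) (.e (nat_lit 196667) (nat_lit 14) (.e (nat_lit 73755) (nat_lit 8) (.e (nat_lit 557105) (nat_lit 14) (.e (nat_lit 180252) (nat_lit 10) (.e (nat_lit 573474) (nat_lit 12) (.e (nat_lit 57348) (nat_lit 0) (.e (nat_lit 5591) (nat_lit 310) .nil)))))))) (.g (nat_lit 5) .nil .nil))) 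
(.lf (nat_lit 250158) (.g (nat_lit 2359) (.e (nat_lit 163871) (nat_lit 2) (.e (nat_lit 196655) (nat_lit 11) (.e (nat_lit 16435) (nat_lit 9) (.e (nat_lit 426496) (nat_lit 27) (.e (nat_lit 336387) (nat_lit 27) (.e (nat_lit 426107) (nat_lit 1) (.e (nat_lit 164326) (nat_lit 230) .nil))))))) (.g (nat_lit 7) .nil .nil)))) (.nd (nat_lit 5) 
(.lf (nat_lit 250142) (.g (nat_lit 2523) (.e (nat_lit 163870) (nat_lit 2) (.e (nat_lit 196670) (nat_lit 14) (.e (nat_lit 73754) (nat_lit 8) (.e (nat_lit 557105) (nat_lit 14) (.e (nat_lit 180252) (nat_lit 10) (.e (nat_lit 573475) (nat_lit 12) (.e (nat_lit 57345) (nat_lit 0) (.e (nat_lit 5591) (nat_lit 310) .nil)))))))) (.g (nat_lit 4) .nil .nil))) 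
(.lf (nat_lit 250174) (.g (nat_lit 2719) (.e (nat_lit 163871) (nat_lit 2) (.e (nat_lit 196663) (nat_lit 13) (.e (nat_lit 65574) (nat_lit 4) (.e (nat_lit 123198) (nat_lit 266) (.e (nat_lit 57447) (nat_lit 19) (.e (nat_lit 393234) (nat_lit 17) (.e (nat_lit 2399) (nat_lit 157) (.e (nat_lit 5968) (nat_lit 324) .nil)))))))) (.g (nat_lit 6) .nil .nil)))))))) 
(.nd (nat_lit 1) (.nd (nat_lit 2) (.nd (nat_lit 3) (.nd (nat_lit 4) (.nd (nat_lit 5) 
(.lf (nat_lit 250113) (.g (nat_lit 1996) (.e (nat_lit 163870) (nat_lit 2) (.e (nat_lit 196666) (nat_lit 13) (.e (nat_lit 65627) (nat_lit 13) (.e (nat_lit 393225) (nat_lit 9) (.e (nat_lit 335985) (nat_lit 1) (.e (nat_lit 57925) (nat_lit 282) .nil)))))) (.g (nat_lit 4) .nil .nil))) 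
(.lf (nat_lit 250145) (.g (nat_lit 407) (.e (nat_lit 163871) (nat_lit 2) (.e (nat_lit 196624) (nat_lit 9) (.e (nat_lit 1277) (nat_lit 94) .nil))) .nil))) (.nd (nat_lit 5) 
(.lf (nat_lit 250129) (.g (nat_lit 3319) (.e (nat_lit 163870) (nat_lit 2) (.e (nat_lit 196669) (nat_lit 14) (.e (nat_lit 73755) (nat_lit 8) (.e (nat_lit 557105) (nat_lit 14) (.e (nat_lit 180252) (nat_lit 10) (.e (nat_lit 573474) (nat_lit 12) (.e (nat_lit 57348) (nat_lit 0) (.e (nat_lit 5590) (nat_lit 310) .nil)))))))) (.g (nat_lit 5) .nil .nil))) 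
(.lf (nat_lit 250161) (.g (nat_lit 1778) (.e (nat_lit 163871) (nat_lit 2) (.e (nat_lit 196655) (nat_lit 11) (.e (nat_lit 16465) (nat_lit 13) (.e (nat_lit 483341) (nat_lit 9) (.e (nat_lit 433920) (nat_lit 1) (.e (nat_lit 164326) (nat_lit 230) .nil)))))) (.g (nat_lit 4) .nil .nil))))) (.nd (nat_lit 4) (.nd (nat_lit 5) 
(.lf (nat_lit 250121) (.g (nat_lit 3890) (.e (nat_lit 163870) (nat_lit 2) (.e (nat_lit 196667) (nat_lit 14) (.e (nat_lit 73754) (nat_lit 8) (.e (nat_lit 557105) (nat_lit 14) (.e (nat_lit 180252) (nat_lit 10) (.e (nat_lit 573474) (nat_lit 12) (.e (nat_lit 57348) (nat_lit 0) (.e (nat_lit 5590) (nat_lit 310) .nil)))))))) (.g (nat_lit 5) .nil .nil))) 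
(.lf (nat_lit 250153) (.g (nat_lit 1497) (.e (nat_lit 163871) (nat_lit 2) (.e (nat_lit 196651) (nat_lit 10) (.e (nat_lit 16128) (nat_lit 196) (.e (nat_lit 73747) (nat_lit 3) (.e (nat_lit 516171) (nat_lit 13) (.e (nat_lit 458772) (nat_lit 18) (.e (nat_lit 5968) (nat_lit 324) .nil))))))) (.g (nat_lit 4) .nil .nil)))) (.nd (nat_lit 5) 
(.lf (nat_lit 250137) (.g (nat_lit 2565) (.e (nat_lit 163870) (nat_lit 2) (.e (nat_lit 196670) (nat_lit 14) (.e (nat_lit 73754) (nat_lit 8) (.e (nat_lit 557105) (nat_lit 14) (.e (nat_lit 180252) (nat_lit 10) (.e (nat_lit 573473) (nat_lit 12) (.e (nat_lit 57348) (nat_lit 0) (.e (nat_lit 5593) (nat_lit 310) .nil)))))))) (.g (nat_lit 4) .nil .nil))) 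
(.lf (nat_lit 250169) (.g (nat_lit 3737) (.e (nat_lit 163871) (nat_lit 2) (.e (nat_lit 196656) (nat_lit 11) (.e (nat_lit 16436) (nat_lit 9) (.e (nat_lit 426566) (nat_lit 34) (.e (nat_lit 393253) (nat_lit 18) (.e (nat_lit 164325) (nat_lit 230) .nil)))))) (.g (nat_lit 0) .nil .nil)))))) (.nd (nat_lit 3) (.nd (nat_lit 4) (.nd (nat_lit 5) 
(.lf (nat_lit 250117) (.g (nat_lit 3596) (.e (nat_lit 163870) (nat_lit 2) (.e (nat_lit 196666) (nat_lit 13) (.e (nat_lit 65627) (nat_lit 13) (.e (nat_lit 393225) (nat_lit 9) (.e (nat_lit 335988) (nat_lit 1) (.e (nat_lit 57927) (nat_lit 282) .nil)))))) (.g (nat_lit 0) .nil .nil))) 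
(.lf (nat_lit 250149) (.g (nat_lit 2891) (.e (nat_lit 163871) (nat_lit 2) (.e (nat_lit 196624) (nat_lit 9) (.e (nat_lit 1615) (nat_lit 113) (.e (nat_lit 376865) (nat_lit 22) (.e (nat_lit 90185) (nat_lit 17) (.e (nat_lit 237585) (nat_lit 1) (.e (nat_lit 171776) (nat_lit 219) .nil))))))) (.g (nat_lit 5) .nil .nil)))) (.nd (nat_lit 5) 
(.lf (nat_lit 250133) (.g (nat_lit 4769) (.e (nat_lit 163870) (nat_lit 2) (.e (nat_lit 196670) (nat_lit 14) (.e (nat_lit 73753) (nat_lit 8) (.e (nat_lit 557105) (nat_lit 14) (.e (nat_lit 180252) (nat_lit 10) (.e (nat_lit 573474) (nat_lit 12) (.e (nat_lit 57347) (nat_lit 0) (.e (nat_lit 5590) (nat_lit 310) .nil)))))))) (.g (nat_lit 6) .nil .nil))) 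
(.lf (nat_lit 250165) (.g (nat_lit 3403) (.e (nat_lit 163871) (nat_lit 2) (.e (nat_lit 196656) (nat_lit 11) (.e (nat_lit 16431) (nat_lit 9) (.e (nat_lit 426566) (nat_lit 34) (.e (nat_lit 393251) (nat_lit 18) (.e (nat_lit 164325) (nat_lit 230) .nil)))))) (.g (nat_lit 5) .nil .nil))))) (.nd (nat_lit 4) (.nd (nat_lit 5) 
(.lf (nat_lit 250125) (.g (nat_lit 3056) (.e (nat_lit 163870) (nat_lit 2) (.e (nat_lit 196667) (nat_lit 14) (.e (nat_lit 73755) (nat_lit 8) (.e (nat_lit 557105) (nat_lit 14) (.e (nat_lit 180252) (nat_lit 10) (.e (nat_lit 573474) (nat_lit 12) (.e (nat_lit 57347) (nat_lit 0) (.e (nat_lit 5591) (nat_lit 310) .nil)))))))) (.g (nat_lit 5) .nil .nil))) 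
(.lf (nat_lit 250157) (.g (nat_lit 3562) (.e (nat_lit 163871) (nat_lit 2) (.e (nat_lit 196654) (nat_lit 11) (.e (nat_lit 16436) (nat_lit 9) (.e (nat_lit 426568) (nat_lit 34) (.e (nat_lit 393253) (nat_lit 18) (.e (nat_lit 164327) (nat_lit 230) .nil)))))) (.g (nat_lit 0) .nil .nil)))) (.nd (nat_lit 5) 
(.lf (nat_lit 250141) (.g (nat_lit 4043) (.e (nat_lit 163870) (nat_lit 2) (.e (nat_lit 196670) (nat_lit 14) (.e (nat_lit 73754) (nat_lit 8) (.e (nat_lit 557105) (nat_lit 14) (.e (nat_lit 180252) (nat_lit 10) (.e (nat_lit 573474) (nat_lit 12) (.e (nat_lit 57348) (nat_lit 0) (.e (nat_lit 5591) (nat_lit 310) .nil)))))))) (.g (nat_lit 5) .nil .nil))) 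
(.lf (nat_lit 250173) (.g (nat_lit 2611) (.e (nat_lit 163871) (nat_lit 2) (.e (nat_lit 196663) (nat_lit 13) (.e (nat_lit 65574) (nat_lit 4) (.e (nat_lit 123197) (nat_lit 266) (.e (nat_lit 57445) (nat_lit 19) (.e (nat_lit 393237) (nat_lit 17) (.e (nat_lit 2450) (nat_lit 157) (.e (nat_lit 5968) (nat_lit 324) .nil)))))))) (.g (nat_lit 5) .nil .nil))))))) 
(.nd (nat_lit 2) (.nd (nat_lit 3) (.nd (nat_lit 4) (.nd (nat_lit 5) 
(.lf (nat_lit 250115) (.g (nat_lit 2977) (.e (nat_lit 163870) (nat_lit 2) (.e (nat_lit 196666) (nat_lit 13) (.e (nat_lit 65627) (nat_lit 13) (.e (nat_lit 393225) (nat_lit 9) (.e (nat_lit 335986) (nat_lit 1) (.e (nat_lit 57925) (nat_lit 282) .nil)))))) (.g (nat_lit 5) .nil .nil))) 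
(.lf (nat_lit 250147) (.g (nat_lit 2629) (.e (nat_lit 163871) (nat_lit 2) (.e (nat_lit 196624) (nat_lit 9) (.e (nat_lit 1277) (nat_lit 94) (.e (nat_lit 114718) (nat_lit 23) (.e (nat_lit 98365) (nat_lit 26) (.e (nat_lit 426133) (nat_lit 3) (.e (nat_lit 204829) (nat_lit 18) (.e (nat_lit 57686) (nat_lit 156) .nil)))))))) (.g (nat_lit 5) .nil .nil)))) (.nd (nat_lit 5) 
(.lf (nat_lit 250131) (.g (nat_lit 3327) (.e (nat_lit 163870) (nat_lit 2) (.e (nat_lit 196670) (nat_lit 14) (.e (nat_lit 73753) (nat_lit 8) (.e (nat_lit 557105) (nat_lit 14) (.e (nat_lit 180252) (nat_lit 10) (.e (nat_lit 573474) (nat_lit 12) (.e (nat_lit 57345) (nat_lit 0) (.e (nat_lit 5590) (nat_lit 310) .nil)))))))) (.g (nat_lit 5) .nil .nil))) 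
(.lf (nat_lit 250163) (.g (nat_lit 654) (.e (nat_lit 163871) (nat_lit 2) (.e (nat_lit 196656) (nat_lit 11) (.e (nat_lit 16392) (nat_lit 0) .nil))) .nil)))) (.nd (nat_lit 4) (.nd (nat_lit 5) 
(.lf (nat_lit 250123) (.g (nat_lit 2392) (.e (nat_lit 163870) (nat_lit 2) (.e (nat_lit 196667) (nat_lit 14) (.e (nat_lit 73755) (nat_lit 8) (.e (nat_lit 557105) (nat_lit 14) (.e (nat_lit 180252) (nat_lit 10) (.e (nat_lit 573474) (nat_lit 12) (.e (nat_lit 57345) (nat_lit 0) (.e (nat_lit 5590) (nat_lit 310) .nil)))))))) (.g (nat_lit 4) .nil .nil))) 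
(.lf (nat_lit 250155) (.g (nat_lit 1492) (.e (nat_lit 163871) (nat_lit 2) (.e (nat_lit 196654) (nat_lit 11) (.e (nat_lit 16436) (nat_lit 9) (.e (nat_lit 426480) (nat_lit 27) .nil)))) .nil))) (.nd (nat_lit 5) 
(.lf (nat_lit 250139) (.g (nat_lit 4307) (.e (nat_lit 163870) (nat_lit 2) (.e (nat_lit 196670) (nat_lit 14) (.e (nat_lit 73754) (nat_lit 8) (.e (nat_lit 557105) (nat_lit 14) (.e (nat_lit 180252) (nat_lit 10) (.e (nat_lit 573474) (nat_lit 12) (.e (nat_lit 57347) (nat_lit 0) (.e (nat_lit 5593) (nat_lit 310) .nil)))))))) (.g (nat_lit 5) .nil .nil))) 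
(.lf (nat_lit 250171) (.g (nat_lit 3342) (.e (nat_lit 163871) (nat_lit 2) (.e (nat_lit 196656) (nat_lit 11) (.e (nat_lit 16438) (nat_lit 9) (.e (nat_lit 426568) (nat_lit 34) (.e (nat_lit 393253) (nat_lit 18) (.e (nat_lit 164326) (nat_lit 230) .nil)))))) (.g (nat_lit 4) .nil .nil)))))) (.nd (nat_lit 3) (.nd (nat_lit 4) (.nd (nat_lit 5) 
(.lf (nat_lit 250119) (.g (nat_lit 3175) (.e (nat_lit 163870) (nat_lit 2) (.e (nat_lit 196666) (nat_lit 13) (.e (nat_lit 65627) (nat_lit 13) (.e (nat_lit 393225) (nat_lit 9) (.e (nat_lit 335996) (nat_lit 1) (.e (nat_lit 57924) (nat_lit 282) .nil)))))) (.g (nat_lit 5) .nil .nil))) 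
(.lf (nat_lit 250151) (.g (nat_lit 1757) (.e (nat_lit 163871) (nat_lit 2) (.e (nat_lit 196651) (nat_lit 10) (.e (nat_lit 16128) (nat_lit 196) (.e (nat_lit 73746) (nat_lit 3) (.e (nat_lit 516172) (nat_lit 13) (.e (nat_lit 458771) (nat_lit 18) (.e (nat_lit 5968) (nat_lit 324) .nil))))))) (.g (nat_lit 4) .nil .nil)))) (.nd (nat_lit 5) 
(.lf (nat_lit 250135) (.g (nat_lit 3929) (.e (nat_lit 163870) (nat_lit 2) (.e (nat_lit 196670) (nat_lit 14) (.e (nat_lit 73753) (nat_lit 8) (.e (nat_lit 557105) (nat_lit 14) (.e (nat_lit 180252) (nat_lit 10) (.e (nat_lit 573474) (nat_lit 12) (.e (nat_lit 57348) (nat_lit 0) (.e (nat_lit 5591) (nat_lit 310) .nil)))))))) (.g (nat_lit 5) .nil .nil))) 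
(.lf (nat_lit 250167) (.g (nat_lit 1020) (.e (nat_lit 163871) (nat_lit 2) (.e (nat_lit 196656) (nat_lit 11) (.e (nat_lit 16435) (nat_lit 9) (.e (nat_lit 426566) (nat_lit 34) .nil)))) .nil)))) (.nd (nat_lit 4) (.nd (nat_lit 5) 
(.lf (nat_lit 250127) (.g (nat_lit 2130) (.e (nat_lit 163870) (nat_lit 2) (.e (nat_lit 196667) (nat_lit 14) (.e (nat_lit 73755) (nat_lit 8) (.e (nat_lit 557105) (nat_lit 14) (.e (nat_lit 180252) (nat_lit 10) (.e (nat_lit 573474) (nat_lit 12) (.e (nat_lit 57348) (nat_lit 0) (.e (nat_lit 5592) (nat_lit 310) .nil)))))))) (.g (nat_lit 4) .nil .nil))) 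
(.lf (nat_lit 250159) (.g (nat_lit 610) (.e (nat_lit 163871) (nat_lit 2) (.e (nat_lit 196655) (nat_lit 11) (.e (nat_lit 16444) (nat_lit 9) (.e (nat_lit 426565) (nat_lit 34) .nil)))) .nil))) (.nd (nat_lit 5) 
(.lf (nat_lit 250143) (.g (nat_lit 3319) (.e (nat_lit 163870) (nat_lit 2) (.e (nat_lit 196670) (nat_lit 14) (.e (nat_lit 73755) (nat_lit 8) (.e (nat_lit 557105) (nat_lit 14) (.e (nat_lit 180252) (nat_lit 10) (.e (nat_lit 573474) (nat_lit 12) (.e (nat_lit 57347) (nat_lit 0) (.e (nat_lit 5590) (nat_lit 310) .nil)))))))) (.g (nat_lit 4) .nil .nil))) 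
(.lf (nat_lit 250175) (.g (nat_lit 2122) (.e (nat_lit 163871) (nat_lit 2) (.e (nat_lit 196668) (nat_lit 14) (.e (nat_lit 73752) (nat_lit 8) (.e (nat_lit 557104) (nat_lit 14) (.e (nat_lit 180252) (nat_lit 10) (.e (nat_lit 573474) (nat_lit 12) (.e (nat_lit 57348) (nat_lit 0) (.e (nat_lit 5593) (nat_lit 310) .nil)))))))) (.g (nat_lit 5) .nil .nil)))))))))

noncomputable def tv3240 : DT := (.nd (nat_lit 0) (.nd (nat_lit 1) (.nd (nat_lit 2) (.nd (nat_lit 3) (.nd (nat_lit 4) (.nd (nat_lit 5) 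
(.lf (nat_lit 250176) (.g (nat_lit 2529) (.e (nat_lit 163871) (nat_lit 2) (.e (nat_lit 196668) (nat_lit 14) (.e (nat_lit 73753) (nat_lit 8) (.e (nat_lit 557103) (nat_lit 14) (.e (nat_lit 180250) (nat_lit 10) (.e (nat_lit 573473) (nat_lit 12) (.e (nat_lit 57348) (nat_lit 0) (.e (nat_lit 5590) (nat_lit 310) .nil)))))))) (.g (nat_lit 4) .nil .nil))) 
(.lf (nat_lit 250208) (.g (nat_lit 3772) (.e (nat_lit 163871) (nat_lit 2) (.e (nat_lit 196668) (nat_lit 14) (.e (nat_lit 73753) (nat_lit 8) (.e (nat_lit 557104) (nat_lit 14) (.e (nat_lit 180252) (nat_lit 10) (.e (nat_lit 573474) (nat_lit 12) (.e (nat_lit 57348) (nat_lit 0) (.e (nat_lit 5592) (nat_lit 310) .nil)))))))) (.g (nat_lit 4) .nil .nil)))) (.nd (nat_lit 5) 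
(.lf (nat_lit 250192) (.g (nat_lit 2961) (.e (nat_lit 163871) (nat_lit 2) (.e (nat_lit 196668) (nat_lit 14) (.e (nat_lit 73753) (nat_lit 8) (.e (nat_lit 557103) (nat_lit 14) (.e (nat_lit 180250) (nat_lit 10) (.e (nat_lit 573475) (nat_lit 12) (.e (nat_lit 57347) (nat_lit 0) (.e (nat_lit 5590) (nat_lit 310) .nil)))))))) (.g (nat_lit 4) .nil .nil))) 
(.lf (nat_lit 250224) (.g (nat_lit 3196) (.e (nat_lit 163871) (nat_lit 2) (.e (nat_lit 196668) (nat_lit 14) (.e (nat_lit 73755) (nat_lit 8) (.e (nat_lit 557105) (nat_lit 14) (.e (nat_lit 180252) (nat_lit 10) (.e (nat_lit 573474) (nat_lit 12) (.e (nat_lit 57347) (nat_lit 0) (.e (nat_lit 5592) (nat_lit 310) .nil)))))))) (.g (nat_lit 4) .nil .nil))))) (.nd (nat_lit 4) (.nd (nat_lit 5) 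
(.lf (nat_lit 250184) (.g (nat_lit 3179) (.e (nat_lit 163871) (nat_lit 2) (.e (nat_lit 196668) (nat_lit 14) (.e (nat_lit 73753) (nat_lit 8) (.e (nat_lit 557103) (nat_lit 14) (.e (nat_lit 180250) (nat_lit 10) (.e (nat_lit 573474) (nat_lit 12) (.e (nat_lit 57348) (nat_lit 0) (.e (nat_lit 5591) (nat_lit 310) .nil)))))))) (.g (nat_lit 4) .nil .nil))) 
(.lf (nat_lit 250216) (.g (nat_lit 2922) (.e (nat_lit 163871) (nat_lit 2) (.e (nat_lit 196668) (nat_lit 14) (.e (nat_lit 73753) (nat_lit 8) (.e (nat_lit 557105) (nat_lit 14) (.e (nat_lit 180252) (nat_lit 10) (.e (nat_lit 573475) (nat_lit 12) (.e (nat_lit 57348) (nat_lit 0) (.e (nat_lit 5593) (nat_lit 310) .nil)))))))) (.g (nat_lit 4) .nil .nil)))) (.nd (nat_lit 5) 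
(.lf (nat_lit 250200) (.g (nat_lit 3824) (.e (nat_lit 163871) (nat_lit 2) (.e (nat_lit 196668) (nat_lit 14) (.e (nat_lit 73753) (nat_lit 8) (.e (nat_lit 557104) (nat_lit 14) (.e (nat_lit 180252) (nat_lit 10) (.e (nat_lit 573474) (nat_lit 12) (.e (nat_lit 57345) (nat_lit 0) (.e (nat_lit 5593) (nat_lit 310) .nil)))))))) (.g (nat_lit 5) .nil .nil))) 
(.lf (nat_lit 250232) (.g (nat_lit 3210) (.e (nat_lit 163871) (nat_lit 2) (.e (nat_lit 196669) (nat_lit 14) (.e (nat_lit 73755) (nat_lit 8) (.e (nat_lit 557105) (nat_lit 14) (.e (nat_lit 180252) (nat_lit 10) (.e (nat_lit 573474) (nat_lit 12) (.e (nat_lit 57347) (nat_lit 0) (.e (nat_lit 5584) (nat_lit 310) .nil)))))))) (.g (nat_lit 5) .nil .nil)))))) 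
(.nd (nat_lit 3) (.nd (nat_lit 4) (.nd (nat_lit 5) 
(.lf (nat_lit 250180) (.g (nat_lit 2765) (.e (nat_lit 163871) (nat_lit 2) (.e (nat_lit 196668) (nat_lit 14) (.e (nat_lit 73753) (nat_lit 8) (.e (nat_lit 557103) (nat_lit 14) (.e (nat_lit 180250) (nat_lit 10) (.e (nat_lit 573474) (nat_lit 12) (.e (nat_lit 57347) (nat_lit 0) (.e (nat_lit 5584) (nat_lit 310) .nil)))))))) (.g (nat_lit 4) .nil .nil))) 
(.lf (nat_lit 250212) (.g (nat_lit 3744) (.e (nat_lit 163871) (nat_lit 2) (.e (nat_lit 196668) (nat_lit 14) (.e (nat_lit 73753) (nat_lit 8) (.e (nat_lit 557105) (nat_lit 14) (.e (nat_lit 180252) (nat_lit 10) (.e (nat_lit 573474) (nat_lit 12) (.e (nat_lit 57347) (nat_lit 0) (.e (nat_lit 5591) (nat_lit 310) .nil)))))))) (.g (nat_lit 4) .nil .nil)))) (.nd (nat_lit 5) 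
(.lf (nat_lit 250196) (.g (nat_lit 2634) (.e (nat_lit 163871) (nat_lit 2) (.e (nat_lit 196668) (nat_lit 14) (.e (nat_lit 73753) (nat_lit 8) (.e (nat_lit 557103) (nat_lit 14) (.e (nat_lit 180250) (nat_lit 10) (.e (nat_lit 573478) (nat_lit 12) (.e (nat_lit 57344) (nat_lit 0) (.e (nat_lit 5588) (nat_lit 310) .nil)))))))) (.g (nat_lit 4) .nil .nil))) 
(.lf (nat_lit 250228) (.g (nat_lit 2762) (.e (nat_lit 163871) (nat_lit 2) (.e (nat_lit 196669) (nat_lit 14) (.e (nat_lit 73755) (nat_lit 8) (.e (nat_lit 557105) (nat_lit 14) (.e (nat_lit 180252) (nat_lit 10) (.e (nat_lit 573474) (nat_lit 12) (.e (nat_lit 57345) (nat_lit 0) (.e (nat_lit 5590) (nat_lit 310) .nil)))))))) (.g (nat_lit 4) .nil .nil))))) (.nd (nat_lit 4) (.nd (nat_lit 5) 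
(.lf (nat_lit 250188) (.g (nat_lit 3998) (.e (nat_lit 163871) (nat_lit 2) (.e (nat_lit 196668) (nat_lit 14) (.e (nat_lit 73753) (nat_lit 8) (.e (nat_lit 557103) (nat_lit 14) (.e (nat_lit 180250) (nat_lit 10) (.e (nat_lit 573475) (nat_lit 12) (.e (nat_lit 57345) (nat_lit 0) (.e (nat_lit 5583) (nat_lit 310) .nil)))))))) (.g (nat_lit 5) .nil .nil))) 
(.lf (nat_lit 250220) (.g (nat_lit 2660) (.e (nat_lit 163871) (nat_lit 2) (.e (nat_lit 196668) (nat_lit 14) (.e (nat_lit 73754) (nat_lit 8) (.e (nat_lit 557105) (nat_lit 14) (.e (nat_lit 180252) (nat_lit 10) (.e (nat_lit 573475) (nat_lit 12) (.e (nat_lit 57345) (nat_lit 0) (.e (nat_lit 5583) (nat_lit 310) .nil)))))))) (.g (nat_lit 4) .nil .nil)))) (.nd (nat_lit 5) 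
(.lf (nat_lit 250204) (.g (nat_lit 3260) (.e (nat_lit 163871) (nat_lit 2) (.e (nat_lit 196668) (nat_lit 14) (.e (nat_lit 73753) (nat_lit 8) (.e (nat_lit 557104) (nat_lit 14) (.e (nat_lit 180252) (nat_lit 10) (.e (nat_lit 573474) (nat_lit 12) (.e (nat_lit 57347) (nat_lit 0) (.e (nat_lit 5591) (nat_lit 310) .nil)))))))) (.g (nat_lit 4) .nil .nil))) 
(.lf (nat_lit 250236) (.g (nat_lit 2622) (.e (nat_lit 163871) (nat_lit 2) (.e (nat_lit 196669) (nat_lit 14) (.e (nat_lit 73755) (nat_lit 8) (.e (nat_lit 557105) (nat_lit 14) (.e (nat_lit 180252) (nat_lit 10) (.e (nat_lit 573474) (nat_lit 12) (.e (nat_lit 57349) (nat_lit 0) (.e (nat_lit 5590) (nat_lit 310) .nil)))))))) (.g (nat_lit 4) .nil .nil))))))) 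
(.nd (nat_lit 2) (.nd (nat_lit 3) (.nd (nat_lit 4) (.nd (nat_lit 5) 
(.lf (nat_lit 250178) (.g (nat_lit 2726) (.e (nat_lit 163871) (nat_lit 2) (.e (nat_lit 196668) (nat_lit 14) (.e (nat_lit 73753) (nat_lit 8) (.e (nat_lit 557103) (nat_lit 14) (.e (nat_lit 180250) (nat_lit 10) (.e (nat_lit 573474) (nat_lit 12) (.e (nat_lit 57346) (nat_lit 0) (.e (nat_lit 5582) (nat_lit 310) .nil)))))))) (.g (nat_lit 4) .nil .nil))) 
(.lf (nat_lit 250210) (.g (nat_lit 2735) (.e (nat_lit 163871) (nat_lit 2) (.e (nat_lit 196668) (nat_lit 14) (.e (nat_lit 73753) (nat_lit 8) (.e (nat_lit 557105) (nat_lit 14) (.e (nat_lit 180252) (nat_lit 10) (.e (nat_lit 573473) (nat_lit 12) (.e (nat_lit 57348) (nat_lit 0) (.e (nat_lit 5593) (nat_lit 310) .nil)))))))) (.g (nat_lit 4) .nil .nil)))) (.nd (nat_lit 5) 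
(.lf (nat_lit 250194) (.g (nat_lit 2491) (.e (nat_lit 163871) (nat_lit 2) (.e (nat_lit 196668) (nat_lit 14) (.e (nat_lit 73753) (nat_lit 8) (.e (nat_lit 557103) (nat_lit 14) (.e (nat_lit 180250) (nat_lit 10) (.e (nat_lit 573475) (nat_lit 12) (.e (nat_lit 57349) (nat_lit 0) (.e (nat_lit 5590) (nat_lit 310) .nil)))))))) (.g (nat_lit 4) .nil .nil))) 
(.lf (nat_lit 250226) (.g (nat_lit 1467) (.e (nat_lit 163871) (nat_lit 2) (.e (nat_lit 196668) (nat_lit 14) (.e (nat_lit 73770) (nat_lit 22) (.e (nat_lit 671748) (nat_lit 0) (.e (nat_lit 1665) (nat_lit 115) .nil))))) .nil)))) (.nd (nat_lit 4) (.nd (nat_lit 5) 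
(.lf (nat_lit 250186) (.g (nat_lit 2480) (.e (nat_lit 163871) (nat_lit 2) (.e (nat_lit 196668) (nat_lit 14) (.e (nat_lit 73753) (nat_lit 8) (.e (nat_lit 557103) (nat_lit 14) (.e (nat_lit 180250) (nat_lit 10) (.e (nat_lit 573474) (nat_lit 12) (.e (nat_lit 57349) (nat_lit 0) (.e (nat_lit 5593) (nat_lit 310) .nil)))))))) (.g (nat_lit 4) .nil .nil))) 
(.lf (nat_lit 250218) (.g (nat_lit 4246) (.e (nat_lit 163871) (nat_lit 2) (.e (nat_lit 196668) (nat_lit 14) (.e (nat_lit 73754) (nat_lit 8) (.e (nat_lit 557105) (nat_lit 14) (.e (nat_lit 180252) (nat_lit 10) (.e (nat_lit 573474) (nat_lit 12) (.e (nat_lit 57347) (nat_lit 0) (.e (nat_lit 5593) (nat_lit 310) .nil)))))))) (.g (nat_lit 5) .nil .nil)))) (.nd (nat_lit 5) 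
(.lf (nat_lit 250202) (.g (nat_lit 3428) (.e (nat_lit 163871) (nat_lit 2) (.e (nat_lit 196668) (nat_lit 14) (.e (nat_lit 73753) (nat_lit 8) (.e (nat_lit 557104) (nat_lit 14) (.e (nat_lit 180252) (nat_lit 10) (.e (nat_lit 573474) (nat_lit 12) (.e (nat_lit 57346) (nat_lit 0) (.e (nat_lit 5583) (nat_lit 310) .nil)))))))) (.g (nat_lit 4) .nil .nil))) 
(.lf (nat_lit 250234) (.g (nat_lit 2654) (.e (nat_lit 163871) (nat_lit 2) (.e (nat_lit 196669) (nat_lit 14) (.e (nat_lit 73755) (nat_lit 8) (.e (nat_lit 557105) (nat_lit 14) (.e (nat_lit 180252) (nat_lit 10) (.e (nat_lit 573474) (nat_lit 12) (.e (nat_lit 57348) (nat_lit 0) (.e (nat_lit 5591) (nat_lit 310) .nil)))))))) (.g (nat_lit 4) .nil .nil)))))) 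
(.nd (nat_lit 3) (.nd (nat_lit 4) (.nd (nat_lit 5) 
(.lf (nat_lit 250182) (.g (nat_lit 3366) (.e (nat_lit 163871) (nat_lit 2) (.e (nat_lit 196668) (nat_lit 14) (.e (nat_lit 73753) (nat_lit 8) (.e (nat_lit 557103) (nat_lit 14) (.e (nat_lit 180250) (nat_lit 10) (.e (nat_lit 573474) (nat_lit 12) (.e (nat_lit 57347) (nat_lit 0) (.e (nat_lit 5592) (nat_lit 310) .nil)))))))) (.g (nat_lit 4) .nil .nil))) 
(.lf (nat_lit 250214) (.g (nat_lit 3682) (.e (nat_lit 163871) (nat_lit 2) (.e (nat_lit 196668) (nat_lit 14) (.e (nat_lit 73753) (nat_lit 8) (.e (nat_lit 557105) (nat_lit 14) (.e (nat_lit 180252) (nat_lit 10) (.e (nat_lit 573474) (nat_lit 12) (.e (nat_lit 57348) (nat_lit 0) (.e (nat_lit 5591) (nat_lit 310) .nil)))))))) (.g (nat_lit 4) .nil .nil)))) (.nd (nat_lit 5) 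
(.lf (nat_lit 250198) (.g (nat_lit 3507) (.e (nat_lit 163871) (nat_lit 2) (.e (nat_lit 196668) (nat_lit 14) (.e (nat_lit 73753) (nat_lit 8) (.e (nat_lit 557104) (nat_lit 14) (.e (nat_lit 180252) (nat_lit 10) (.e (nat_lit 573474) (nat_lit 12) (.e (nat_lit 57345) (nat_lit 0) (.e (nat_lit 5583) (nat_lit 310) .nil)))))))) (.g (nat_lit 4) .nil .nil))) 
(.lf (nat_lit 250230) (.g (nat_lit 2220) (.e (nat_lit 163871) (nat_lit 2) (.e (nat_lit 196669) (nat_lit 14) (.e (nat_lit 73755) (nat_lit 8) (.e (nat_lit 557105) (nat_lit 14) (.e (nat_lit 180252) (nat_lit 10) (.e (nat_lit 573474) (nat_lit 12) (.e (nat_lit 57346) (nat_lit 0) (.e (nat_lit 5582) (nat_lit 310) .nil)))))))) (.g (nat_lit 4) .nil .nil))))) (.nd (nat_lit 4) (.nd (nat_lit 5) 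
(.lf (nat_lit 250190) (.g (nat_lit 3127) (.e (nat_lit 163871) (nat_lit 2) (.e (nat_lit 196668) (nat_lit 14) (.e (nat_lit 73753) (nat_lit 8) (.e (nat_lit 557103) (nat_lit 14) (.e (nat_lit 180250) (nat_lit 10) (.e (nat_lit 573475) (nat_lit 12) (.e (nat_lit 57345) (nat_lit 0) (.e (nat_lit 5592) (nat_lit 310) .nil)))))))) (.g (nat_lit 4) .nil .nil))) 
(.lf (nat_lit 250222) (.g (nat_lit 3153) (.e (nat_lit 163871) (nat_lit 2) (.e (nat_lit 196668) (nat_lit 14) (.e (nat_lit 73755) (nat_lit 8) (.e (nat_lit 557105) (nat_lit 14) (.e (nat_lit 180252) (nat_lit 10) (.e (nat_lit 573474) (nat_lit 12) (.e (nat_lit 57345) (nat_lit 0) (.e (nat_lit 5593) (nat_lit 310) .nil)))))))) (.g (nat_lit 4) .nil .nil)))) (.nd (nat_lit 5) 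
(.lf (nat_lit 250206) (.g (nat_lit 4160) (.e (nat_lit 163871) (nat_lit 2) (.e (nat_lit 196668) (nat_lit 14) (.e (nat_lit 73753) (nat_lit 8) (.e (nat_lit 557104) (nat_lit 14) (.e (nat_lit 180252) (nat_lit 10) (.e (nat_lit 573474) (nat_lit 12) (.e (nat_lit 57348) (nat_lit 0) (.e (nat_lit 5590) (nat_lit 310) .nil)))))))) (.g (nat_lit 5) .nil .nil))) 
(.lf (nat_lit 250238) (.g (nat_lit 2275) (.e (nat_lit 163871) (nat_lit 2) (.e (nat_lit 196669) (nat_lit 14) (.e (nat_lit 73755) (nat_lit 8) (.e (nat_lit 557105) (nat_lit 14) (.e (nat_lit 180252) (nat_lit 10) (.e (nat_lit 573474) (nat_lit 12) (.e (nat_lit 57353) (nat_lit 0) (.e (nat_lit 5584) (nat_lit 310) .nil)))))))) (.g (nat_lit 4) .nil .nil)))))))) 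
(.nd (nat_lit 1) (.nd (nat_lit 2) (.nd (nat_lit 3) (.nd (nat_lit 4) (.nd (nat_lit 5) 
(.lf (nat_lit 250177) (.g (nat_lit 2631) (.e (nat_lit 163871) (nat_lit 2) (.e (nat_lit 196668) (nat_lit 14) (.e (nat_lit 73753) (nat_lit 8) (.e (nat_lit 557103) (nat_lit 14) (.e (nat_lit 180250) (nat_lit 10) (.e (nat_lit 573474) (nat_lit 12) (.e (nat_lit 57344) (nat_lit 0) (.e (nat_lit 5588) (nat_lit 310) .nil)))))))) (.g (nat_lit 4) .nil .nil))) 
(.lf (nat_lit 250209) (.g (nat_lit 3136) (.e (nat_lit 163871) (nat_lit 2) (.e (nat_lit 196668) (nat_lit 14) (.e (nat_lit 73753) (nat_lit 8) (.e (nat_lit 557104) (nat_lit 14) (.e (nat_lit 180252) (nat_lit 10) (.e (nat_lit 573475) (nat_lit 12) (.e (nat_lit 57345) (nat_lit 0) (.e (nat_lit 5583) (nat_lit 310) .nil)))))))) (.g (nat_lit 4) .nil .nil)))) (.nd (nat_lit 5) 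
(.lf (nat_lit 250193) (.g (nat_lit 3705) (.e (nat_lit 163871) (nat_lit 2) (.e (nat_lit 196668) (nat_lit 14) (.e (nat_lit 73753) (nat_lit 8) (.e (nat_lit 557103) (nat_lit 14) (.e (nat_lit 180250) (nat_lit 10) (.e (nat_lit 573475) (nat_lit 12) (.e (nat_lit 57348) (nat_lit 0) (.e (nat_lit 5593) (nat_lit 310) .nil)))))))) (.g (nat_lit 5) .nil .nil))) 
(.lf (nat_lit 250225) (.g (nat_lit 3124) (.e (nat_lit 163871) (nat_lit 2) (.e (nat_lit 196668) (nat_lit 14) (.e (nat_lit 73755) (nat_lit 8) (.e (nat_lit 557105) (nat_lit 14) (.e (nat_lit 180252) (nat_lit 10) (.e (nat_lit 573474) (nat_lit 12) (.e (nat_lit 57348) (nat_lit 0) (.e (nat_lit 5592) (nat_lit 310) .nil)))))))) (.g (nat_lit 4) .nil .nil))))) (.nd (nat_lit 4) (.nd (nat_lit 5) 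
(.lf (nat_lit 250185) (.g (nat_lit 2536) (.e (nat_lit 163871) (nat_lit 2) (.e (nat_lit 196668) (nat_lit 14) (.e (nat_lit 73753) (nat_lit 8) (.e (nat_lit 557103) (nat_lit 14) (.e (nat_lit 180250) (nat_lit 10) (.e (nat_lit 573474) (nat_lit 12) (.e (nat_lit 57349) (nat_lit 0) (.e (nat_lit 5590) (nat_lit 310) .nil)))))))) (.g (nat_lit 4) .nil .nil))) 
(.lf (nat_lit 250217) (.g (nat_lit 4095) (.e (nat_lit 163871) (nat_lit 2) (.e (nat_lit 196668) (nat_lit 14) (.e (nat_lit 73754) (nat_lit 8) (.e (nat_lit 557105) (nat_lit 14) (.e (nat_lit 180252) (nat_lit 10) (.e (nat_lit 573474) (nat_lit 12) (.e (nat_lit 57347) (nat_lit 0) (.e (nat_lit 5590) (nat_lit 310) .nil)))))))) (.g (nat_lit 5) .nil .nil)))) (.nd (nat_lit 5) 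
(.lf (nat_lit 250201) (.g (nat_lit 2835) (.e (nat_lit 163871) (nat_lit 2) (.e (nat_lit 196668) (nat_lit 14) (.e (nat_lit 73753) (nat_lit 8) (.e (nat_lit 557104) (nat_lit 14) (.e (nat_lit 180252) (nat_lit 10) (.e (nat_lit 573474) (nat_lit 12) (.e (nat_lit 57346) (nat_lit 0) (.e (nat_lit 5582) (nat_lit 310) .nil)))))))) (.g (nat_lit 4) .nil .nil))) 
(.lf (nat_lit 250233) (.g (nat_lit 2716) (.e (nat_lit 163871) (nat_lit 2) (.e (nat_lit 196669) (nat_lit 14) (.e (nat_lit 73755) (nat_lit 8) (.e (nat_lit 557105) (nat_lit 14) (.e (nat_lit 180252) (nat_lit 10) (.e (nat_lit 573474) (nat_lit 12) (.e (nat_lit 57347) (nat_lit 0) (.e (nat_lit 5591) (nat_lit 310) .nil)))))))) (.g (nat_lit 4) .nil .nil)))))) 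
(.nd (nat_lit 3) (.nd (nat_lit 4) (.nd (nat_lit 5) 
(.lf (nat_lit 250181) (.g (nat_lit 2729) (.e (nat_lit 163871) (nat_lit 2) (.e (nat_lit 196668) (nat_lit 14) (.e (nat_lit 73753) (nat_lit 8) (.e (nat_lit 557103) (nat_lit 14) (.e (nat_lit 180250) (nat_lit 10) (.e (nat_lit 573474) (nat_lit 12) (.e (nat_lit 57347) (nat_lit 0) (.e (nat_lit 5591) (nat_lit 310) .nil)))))))) (.g (nat_lit 4) .nil .nil))) 
(.lf (nat_lit 250213) (.g (nat_lit 4710) (.e (nat_lit 163871) (nat_lit 2) (.e (nat_lit 196668) (nat_lit 14) (.e (nat_lit 73753) (nat_lit 8) (.e (nat_lit 557105) (nat_lit 14) (.e (nat_lit 180252) (nat_lit 10) (.e (nat_lit 573474) (nat_lit 12) (.e (nat_lit 57348) (nat_lit 0) (.e (nat_lit 5590) (nat_lit 310) .nil)))))))) (.g (nat_lit 5) .nil .nil)))) (.nd (nat_lit 5) 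
(.lf (nat_lit 250197) (.g (nat_lit 2462) (.e (nat_lit 163871) (nat_lit 2) (.e (nat_lit 196668) (nat_lit 14) (.e (nat_lit 73753) (nat_lit 8) (.e (nat_lit 557103) (nat_lit 14) (.e (nat_lit 180250) (nat_lit 10) (.e (nat_lit 573478) (nat_lit 12) (.e (nat_lit 57351) (nat_lit 0) (.e (nat_lit 5584) (nat_lit 310) .nil)))))))) (.g (nat_lit 4) .nil .nil))) 
(.lf (nat_lit 250229) (.g (nat_lit 2793) (.e (nat_lit 163871) (nat_lit 2) (.e (nat_lit 196669) (nat_lit 14) (.e (nat_lit 73755) (nat_lit 8) (.e (nat_lit 557105) (nat_lit 14) (.e (nat_lit 180252) (nat_lit 10) (.e (nat_lit 573474) (nat_lit 12) (.e (nat_lit 57345) (nat_lit 0) (.e (nat_lit 5593) (nat_lit 310) .nil)))))))) (.g (nat_lit 4) .nil .nil))))) (.nd (nat_lit 4) (.nd (nat_lit 5) 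
(.lf (nat_lit 250189) (.g (nat_lit 3639) (.e (nat_lit 163871) (nat_lit 2) (.e (nat_lit 196668) (nat_lit 14) (.e (nat_lit 73753) (nat_lit 8) (.e (nat_lit 557103) (nat_lit 14) (.e (nat_lit 180250) (nat_lit 10) (.e (nat_lit 573475) (nat_lit 12) (.e (nat_lit 57345) (nat_lit 0) (.e (nat_lit 5590) (nat_lit 310) .nil)))))))) (.g (nat_lit 5) .nil .nil))) 
(.lf (nat_lit 250221) (.g (nat_lit 2324) (.e (nat_lit 163871) (nat_lit 2) (.e (nat_lit 196668) (nat_lit 14) (.e (nat_lit 73754) (nat_lit 8) (.e (nat_lit 557105) (nat_lit 14) (.e (nat_lit 180252) (nat_lit 10) (.e (nat_lit 573475) (nat_lit 12) (.e (nat_lit 57345) (nat_lit 0) (.e (nat_lit 5590) (nat_lit 310) .nil)))))))) (.g (nat_lit 4) .nil .nil)))) (.nd (nat_lit 5) 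
(.lf (nat_lit 250205) (.g (nat_lit 2939) (.e (nat_lit 163871) (nat_lit 2) (.e (nat_lit 196668) (nat_lit 14) (.e (nat_lit 73753) (nat_lit 8) (.e (nat_lit 557104) (nat_lit 14) (.e (nat_lit 180252) (nat_lit 10) (.e (nat_lit 573474) (nat_lit 12) (.e (nat_lit 57348) (nat_lit 0) (.e (nat_lit 5584) (nat_lit 310) .nil)))))))) (.g (nat_lit 4) .nil .nil))) 
(.lf (nat_lit 250237) (.g (nat_lit 2339) (.e (nat_lit 163871) (nat_lit 2) (.e (nat_lit 196669) (nat_lit 14) (.e (nat_lit 73755) (nat_lit 8) (.e (nat_lit 557105) (nat_lit 14) (.e (nat_lit 180252) (nat_lit 10) (.e (nat_lit 573474) (nat_lit 12) (.e (nat_lit 57351) (nat_lit 0) (.e (nat_lit 5584) (nat_lit 310) .nil)))))))) (.g (nat_lit 4) .nil .nil))))))) 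
(.nd (nat_lit 2) (.nd (nat_lit 3) (.nd (nat_lit 4) (.nd (nat_lit 5) 
(.lf (nat_lit 250179) (.g (nat_lit 3548) (.e (nat_lit 163871) (nat_lit 2) (.e (nat_lit 196668) (nat_lit 14) (.e (nat_lit 73753) (nat_lit 8) (.e (nat_lit 557103) (nat_lit 14) (.e (nat_lit 180250) (nat_lit 10) (.e (nat_lit 573474) (nat_lit 12) (.e (nat_lit 57346) (nat_lit 0) (.e (nat_lit 5583) (nat_lit 310) .nil)))))))) (.g (nat_lit 5) .nil .nil))) 
(.lf (nat_lit 250211) (.g (nat_lit 5095) (.e (nat_lit 163871) (nat_lit 2) (.e (nat_lit 196668) (nat_lit 14) (.e (nat_lit 73753) (nat_lit 8) (.e (nat_lit 557105) (nat_lit 14) (.e (nat_lit 180252) (nat_lit 10) (.e (nat_lit 573474) (nat_lit 12) (.e (nat_lit 57347) (nat_lit 0) (.e (nat_lit 5590) (nat_lit 310) .nil)))))))) (.g (nat_lit 5) .nil .nil)))) (.nd (nat_lit 5) 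
(.lf (nat_lit 250195) (.g (nat_lit 2732) (.e (nat_lit 163871) (nat_lit 2) (.e (nat_lit 196668) (nat_lit 14) (.e (nat_lit 73753) (nat_lit 8) (.e (nat_lit 557103) (nat_lit 14) (.e (nat_lit 180250) (nat_lit 10) (.e (nat_lit 573475) (nat_lit 12) (.e (nat_lit 57354) (nat_lit 0) (.e (nat_lit 5589) (nat_lit 310) .nil)))))))) (.g (nat_lit 4) .nil .nil))) 
(.lf (nat_lit 250227) (.g (nat_lit 1985) (.e (nat_lit 163871) (nat_lit 2) (.e (nat_lit 196669) (nat_lit 14) (.e (nat_lit 73754) (nat_lit 8) (.e (nat_lit 557105) (nat_lit 14) (.e (nat_lit 180252) (nat_lit 10) (.e (nat_lit 573475) (nat_lit 12) (.e (nat_lit 57345) (nat_lit 0) (.e (nat_lit 5583) (nat_lit 310) .nil)))))))) (.g (nat_lit 4) .nil .nil))))) (.nd (nat_lit 4) (.nd (nat_lit 5) 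
(.lf (nat_lit 250187) (.g (nat_lit 2710) (.e (nat_lit 163871) (nat_lit 2) (.e (nat_lit 196668) (nat_lit 14) (.e (nat_lit 73753) (nat_lit 8) (.e (nat_lit 557103) (nat_lit 14) (.e (nat_lit 180250) (nat_lit 10) (.e (nat_lit 573475) (nat_lit 12) (.e (nat_lit 57344) (nat_lit 0) (.e (nat_lit 5588) (nat_lit 310) .nil)))))))) (.g (nat_lit 4) .nil .nil))) 
(.lf (nat_lit 250219) (.g (nat_lit 2063) (.e (nat_lit 163871) (nat_lit 2) (.e (nat_lit 196668) (nat_lit 14) (.e (nat_lit 73754) (nat_lit 8) (.e (nat_lit 557105) (nat_lit 14) (.e (nat_lit 180252) (nat_lit 10) (.e (nat_lit 573475) (nat_lit 12) (.e (nat_lit 57344) (nat_lit 0) (.e (nat_lit 5593) (nat_lit 310) .nil)))))))) (.g (nat_lit 4) .nil .nil)))) (.nd (nat_lit 5) 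
(.lf (nat_lit 250203) (.g (nat_lit 3296) (.e (nat_lit 163871) (nat_lit 2) (.e (nat_lit 196668) (nat_lit 14) (.e (nat_lit 73753) (nat_lit 8) (.e (nat_lit 557104) (nat_lit 14) (.e (nat_lit 180252) (nat_lit 10) (.e (nat_lit 573474) (nat_lit 12) (.e (nat_lit 57347) (nat_lit 0) (.e (nat_lit 5584) (nat_lit 310) .nil)))))))) (.g (nat_lit 4) .nil .nil))) 
(.lf (nat_lit 250235) (.g (nat_lit 3418) (.e (nat_lit 163871) (nat_lit 2) (.e (nat_lit 196669) (nat_lit 14) (.e (nat_lit 73755) (nat_lit 8) (.e (nat_lit 557105) (nat_lit 14) (.e (nat_lit 180252) (nat_lit 10) (.e (nat_lit 573474) (nat_lit 12) (.e (nat_lit 57348) (nat_lit 0) (.e (nat_lit 5592) (nat_lit 310) .nil)))))))) (.g (nat_lit 5) .nil .nil)))))) 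
(.nd (nat_lit 3) (.nd (nat_lit 4) (.nd (nat_lit 5) 
(.lf (nat_lit 250183) (.g (nat_lit 4264) (.e (nat_lit 163871) (nat_lit 2) (.e (nat_lit 196668) (nat_lit 14) (.e (nat_lit 73753) (nat_lit 8) (.e (nat_lit 557103) (nat_lit 14) (.e (nat_lit 180250) (nat_lit 10) (.e (nat_lit 573474) (nat_lit 12) (.e (nat_lit 57348) (nat_lit 0) (.e (nat_lit 5590) (nat_lit 310) .nil)))))))) (.g (nat_lit 6) .nil .nil))) 
(.lf (nat_lit 250215) (.g (nat_lit 2931) (.e (nat_lit 163871) (nat_lit 2) (.e (nat_lit 196668) (nat_lit 14) (.e (nat_lit 73753) (nat_lit 8) (.e (nat_lit 557105) (nat_lit 14) (.e (nat_lit 180252) (nat_lit 10) (.e (nat_lit 573475) (nat_lit 12) (.e (nat_lit 57345) (nat_lit 0) (.e (nat_lit 5583) (nat_lit 310) .nil)))))))) (.g (nat_lit 4) .nil .nil)))) (.nd (nat_lit 5) 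
(.lf (nat_lit 250199) (.g (nat_lit 3265) (.e (nat_lit 163871) (nat_lit 2) (.e (nat_lit 196668) (nat_lit 14) (.e (nat_lit 73753) (nat_lit 8) (.e (nat_lit 557104) (nat_lit 14) (.e (nat_lit 180252) (nat_lit 10) (.e (nat_lit 573474) (nat_lit 12) (.e (nat_lit 57345) (nat_lit 0) (.e (nat_lit 5590) (nat_lit 310) .nil)))))))) (.g (nat_lit 4) .nil .nil))) 
(.lf (nat_lit 250231) (.g (nat_lit 3221) (.e (nat_lit 163871) (nat_lit 2) (.e (nat_lit 196669) (nat_lit 14) (.e (nat_lit 73755) (nat_lit 8) (.e (nat_lit 557105) (nat_lit 14) (.e (nat_lit 180252) (nat_lit 10) (.e (nat_lit 573474) (nat_lit 12) (.e (nat_lit 57346) (nat_lit 0) (.e (nat_lit 5583) (nat_lit 310) .nil)))))))) (.g (nat_lit 5) .nil .nil))))) (.nd (nat_lit 4) (.nd (nat_lit 5) 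
(.lf (nat_lit 250191) (.g (nat_lit 2961) (.e (nat_lit 163871) (nat_lit 2) (.e (nat_lit 196668) (nat_lit 14) (.e (nat_lit 73753) (nat_lit 8) (.e (nat_lit 557103) (nat_lit 14) (.e (nat_lit 180250) (nat_lit 10) (.e (nat_lit 573475) (nat_lit 12) (.e (nat_lit 57346) (nat_lit 0) (.e (nat_lit 5583) (nat_lit 310) .nil)))))))) (.g (nat_lit 4) .nil .nil))) 
(.lf (nat_lit 250223) (.g (nat_lit 3903) (.e (nat_lit 163871) (nat_lit 2) (.e (nat_lit 196668) (nat_lit 14) (.e (nat_lit 73755) (nat_lit 8) (.e (nat_lit 557105) (nat_lit 14) (.e (nat_lit 180252) (nat_lit 10) (.e (nat_lit 573474) (nat_lit 12) (.e (nat_lit 57347) (nat_lit 0) (.e (nat_lit 5590) (nat_lit 310) .nil)))))))) (.g (nat_lit 5) .nil .nil)))) (.nd (nat_lit 5) 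
(.lf (nat_lit 250207) (.g (nat_lit 3132) (.e (nat_lit 163871) (nat_lit 2) (.e (nat_lit 196668) (nat_lit 14) (.e (nat_lit 73753) (nat_lit 8) (.e (nat_lit 557104) (nat_lit 14) (.e (nat_lit 180252) (nat_lit 10) (.e (nat_lit 573474) (nat_lit 12) (.e (nat_lit 57348) (nat_lit 0) (.e (nat_lit 5591) (nat_lit 310) .nil)))))))) (.g (nat_lit 4) .nil .nil))) 
(.lf (nat_lit 250239) (.g (nat_lit 3934) (.e (nat_lit 163871) (nat_lit 2) (.e (nat_lit 196669) (nat_lit 14) (.e (nat_lit 73755) (nat_lit 8) (.e (nat_lit 557105) (nat_lit 14) (.e (nat_lit 180252) (nat_lit 10) (.e (nat_lit 573474) (nat_lit 12) (.e (nat_lit 57354) (nat_lit 0) (.e (nat_lit 5589) (nat_lit 310) .nil)))))))) (.g (nat_lit 6) .nil .nil)))))))))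

noncomputable def tv3241 : DT := (.nd (nat_lit 0) (.nd (nat_lit 1) (.nd (nat_lit 2) (.nd (nat_lit 3) (.nd (nat_lit 4) (.nd (nat_lit 5) 
(.lf (nat_lit 250240) (.g (nat_lit 2354) (.e (nat_lit 163871) (nat_lit 2) (.e (nat_lit 196669) (nat_lit 14) (.e (nat_lit 73755) (nat_lit 8) (.e (nat_lit 557105) (nat_lit 14) (.e (nat_lit 180252) (nat_lit 10) (.e (nat_lit 573474) (nat_lit 12) (.e (nat_lit 65280) (nat_lit 0) (.e (nat_lit 5587) (nat_lit 310) .nil)))))))) (.g (nat_lit 4) .nil .nil))) 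
(.lf (nat_lit 250272) (.g (nat_lit 2302) (.e (nat_lit 163871) (nat_lit 2) (.e (nat_lit 196670) (nat_lit 14) (.e (nat_lit 73746) (nat_lit 3) (.e (nat_lit 516131) (nat_lit 3) (.e (nat_lit 221212) (nat_lit 22) (.e (nat_lit 196677) (nat_lit 16) (.e (nat_lit 122882) (nat_lit 0) (.e (nat_lit 5585) (nat_lit 310) .nil)))))))) (.g (nat_lit 4) .nil .nil)))) (.nd (nat_lit 5) 
(.lf (nat_lit 250256) (.g (nat_lit 2578) (.e (nat_lit 163871) (nat_lit 2) (.e (nat_lit 196670) (nat_lit 14) (.e (nat_lit 73746) (nat_lit 3) (.e (nat_lit 516129) (nat_lit 3) (.e (nat_lit 221210) (nat_lit 22) (.e (nat_lit 196677) (nat_lit 16) (.e (nat_lit 122882) (nat_lit 0) (.e (nat_lit 5588) (nat_lit 310) .nil)))))))) (.g (nat_lit 4) .nil .nil))) 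
(.lf (nat_lit 250288) (.g (nat_lit 4072) (.e (nat_lit 163871) (nat_lit 2) (.e (nat_lit 196670) (nat_lit 14) (.e (nat_lit 73753) (nat_lit 8) (.e (nat_lit 557105) (nat_lit 14) (.e (nat_lit 180252) (nat_lit 10) (.e (nat_lit 573474) (nat_lit 12) (.e (nat_lit 57345) (nat_lit 0) (.e (nat_lit 5593) (nat_lit 310) .nil)))))))) (.g (nat_lit 5) .nil .nil))))) (.nd (nat_lit 4) (.nd (nat_lit 5) 
(.lf (nat_lit 250248) (.g (nat_lit 2397) (.e (nat_lit 163871) (nat_lit 2) (.e (nat_lit 196670) (nat_lit 14) (.e (nat_lit 73746) (nat_lit 3) (.e (nat_lit 516129) (nat_lit 3) (.e (nat_lit 221210) (nat_lit 22) (.e (nat_lit 196661) (nat_lit 12) (.e (nat_lit 65280) (nat_lit 0) (.e (nat_lit 5583) (nat_lit 310) .nil)))))))) (.g (nat_lit 4) .nil .nil))) 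
(.lf (nat_lit 250280) (.g (nat_lit 2520) (.e (nat_lit 163871) (nat_lit 2) (.e (nat_lit 196670) (nat_lit 14) (.e (nat_lit 73753) (nat_lit 8) (.e (nat_lit 557105) (nat_lit 14) (.e (nat_lit 180251) (nat_lit 10) .nil))))) .nil))) (.nd (nat_lit 5) 
(.lf (nat_lit 250264) (.g (nat_lit 2491) (.e (nat_lit 163871) (nat_lit 2) (.e (nat_lit 196670) (nat_lit 14) (.e (nat_lit 73746) (nat_lit 3) (.e (nat_lit 516131) (nat_lit 3) (.e (nat_lit 221211) (nat_lit 22) (.e (nat_lit 196661) (nat_lit 12) (.e (nat_lit 65280) (nat_lit 0) (.e (nat_lit 5587) (nat_lit 310) .nil)))))))) (.g (nat_lit 5) .nil .nil))) 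
(.lf (nat_lit 250296) (.g (nat_lit 3849) (.e (nat_lit 163871) (nat_lit 2) (.e (nat_lit 196670) (nat_lit 14) (.e (nat_lit 73753) (nat_lit 8) (.e (nat_lit 557105) (nat_lit 14) (.e (nat_lit 180252) (nat_lit 10) (.e (nat_lit 573474) (nat_lit 12) (.e (nat_lit 57349) (nat_lit 0) (.e (nat_lit 5590) (nat_lit 310) .nil)))))))) (.g (nat_lit 5) .nil .nil)))))) 
(.nd (nat_lit 3) (.nd (nat_lit 4) (.nd (nat_lit 5) 
(.lf (nat_lit 250244) (.g (nat_lit 2222) (.e (nat_lit 163871) (nat_lit 2) (.e (nat_lit 196670) (nat_lit 14) (.e (nat_lit 73746) (nat_lit 3) (.e (nat_lit 516129) (nat_lit 3) (.e (nat_lit 221210) (nat_lit 22) (.e (nat_lit 196658) (nat_lit 12) (.e (nat_lit 65280) (nat_lit 0) (.e (nat_lit 5587) (nat_lit 310) .nil)))))))) (.g (nat_lit 4) .nil .nil))) 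
(.lf (nat_lit 250276) (.g (nat_lit 2766) (.e (nat_lit 163871) (nat_lit 2) (.e (nat_lit 196670) (nat_lit 14) (.e (nat_lit 73746) (nat_lit 3) (.e (nat_lit 516131) (nat_lit 3) (.e (nat_lit 221215) (nat_lit 23) (.e (nat_lit 204821) (nat_lit 17) (.e (nat_lit 1086) (nat_lit 81) (.e (nat_lit 5584) (nat_lit 310) .nil)))))))) (.g (nat_lit 5) .nil .nil)))) (.nd (nat_lit 5) 
(.lf (nat_lit 250260) (.g (nat_lit 3020) (.e (nat_lit 163871) (nat_lit 2) (.e (nat_lit 196670) (nat_lit 14) (.e (nat_lit 73746) (nat_lit 3) (.e (nat_lit 516129) (nat_lit 3) (.e (nat_lit 221210) (nat_lit 22) (.e (nat_lit 196678) (nat_lit 16) (.e (nat_lit 122883) (nat_lit 0) (.e (nat_lit 5589) (nat_lit 310) .nil)))))))) (.g (nat_lit 5) .nil .nil))) 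
(.lf (nat_lit 250292) (.g (nat_lit 4919) (.e (nat_lit 163871) (nat_lit 2) (.e (nat_lit 196670) (nat_lit 14) (.e (nat_lit 73753) (nat_lit 8) (.e (nat_lit 557105) (nat_lit 14) (.e (nat_lit 180252) (nat_lit 10) (.e (nat_lit 573474) (nat_lit 12) (.e (nat_lit 57347) (nat_lit 0) (.e (nat_lit 5592) (nat_lit 310) .nil)))))))) (.g (nat_lit 6) .nil .nil))))) (.nd (nat_lit 4) (.nd (nat_lit 5) 
(.lf (nat_lit 250252) (.g (nat_lit 2961) (.e (nat_lit 163871) (nat_lit 2) (.e (nat_lit 196670) (nat_lit 14) (.e (nat_lit 73746) (nat_lit 3) (.e (nat_lit 516129) (nat_lit 3) (.e (nat_lit 221210) (nat_lit 22) (.e (nat_lit 196676) (nat_lit 16) (.e (nat_lit 122883) (nat_lit 0) (.e (nat_lit 5589) (nat_lit 310) .nil)))))))) (.g (nat_lit 5) .nil .nil))) 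
(.lf (nat_lit 250284) (.g (nat_lit 4266) (.e (nat_lit 163871) (nat_lit 2) (.e (nat_lit 196670) (nat_lit 14) (.e (nat_lit 73753) (nat_lit 8) (.e (nat_lit 557105) (nat_lit 14) (.e (nat_lit 180252) (nat_lit 10) (.e (nat_lit 573474) (nat_lit 12) (.e (nat_lit 57345) (nat_lit 0) (.e (nat_lit 5583) (nat_lit 310) .nil)))))))) (.g (nat_lit 5) .nil .nil)))) (.nd (nat_lit 5) 
(.lf (nat_lit 250268) (.g (nat_lit 2687) (.e (nat_lit 163871) (nat_lit 2) (.e (nat_lit 196670) (nat_lit 14) (.e (nat_lit 73746) (nat_lit 3) (.e (nat_lit 516131) (nat_lit 3) (.e (nat_lit 221212) (nat_lit 22) (.e (nat_lit 196677) (nat_lit 16) (.e (nat_lit 122880) (nat_lit 0) (.e (nat_lit 5584) (nat_lit 310) .nil)))))))) (.g (nat_lit 5) .nil .nil))) 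
(.lf (nat_lit 250300) (.g (nat_lit 4063) (.e (nat_lit 163871) (nat_lit 2) (.e (nat_lit 196670) (nat_lit 14) (.e (nat_lit 73753) (nat_lit 8) (.e (nat_lit 557105) (nat_lit 14) (.e (nat_lit 180252) (nat_lit 10) (.e (nat_lit 573474) (nat_lit 12) (.e (nat_lit 57355) (nat_lit 0) (.e (nat_lit 5589) (nat_lit 310) .nil)))))))) (.g (nat_lit 5) .nil .nil))))))) 
(.nd (nat_lit 2) (.nd (nat_lit 3) (.nd (nat_lit 4) (.nd (nat_lit 5) 
(.lf (nat_lit 250242) (.g (nat_lit 3210) (.e (nat_lit 163871) (nat_lit 2) (.e (nat_lit 196670) (nat_lit 14) (.e (nat_lit 73746) (nat_lit 3) (.e (nat_lit 516129) (nat_lit 3) (.e (nat_lit 221210) (nat_lit 22) (.e (nat_lit 196658) (nat_lit 12) (.e (nat_lit 57354) (nat_lit 0) (.e (nat_lit 5589) (nat_lit 310) .nil)))))))) (.g (nat_lit 5) .nil .nil))) 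
(.lf (nat_lit 250274) (.g (nat_lit 2562) (.e (nat_lit 163871) (nat_lit 2) (.e (nat_lit 196670) (nat_lit 14) (.e (nat_lit 73746) (nat_lit 3) (.e (nat_lit 516131) (nat_lit 3) (.e (nat_lit 221212) (nat_lit 22) (.e (nat_lit 196677) (nat_lit 16) (.e (nat_lit 122886) (nat_lit 0) (.e (nat_lit 5584) (nat_lit 310) .nil)))))))) (.g (nat_lit 5) .nil .nil)))) (.nd (nat_lit 5) 
(.lf (nat_lit 250258) (.g (nat_lit 2141) (.e (nat_lit 163871) (nat_lit 2) (.e (nat_lit 196670) (nat_lit 14) (.e (nat_lit 73746) (nat_lit 3) (.e (nat_lit 516129) (nat_lit 3) (.e (nat_lit 221210) (nat_lit 22) (.e (nat_lit 196677) (nat_lit 16) (.e (nat_lit 122886) (nat_lit 0) (.e (nat_lit 5584) (nat_lit 310) .nil)))))))) (.g (nat_lit 4) .nil .nil))) 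
(.lf (nat_lit 250290) (.g (nat_lit 4205) (.e (nat_lit 163871) (nat_lit 2) (.e (nat_lit 196670) (nat_lit 14) (.e (nat_lit 73753) (nat_lit 8) (.e (nat_lit 557105) (nat_lit 14) (.e (nat_lit 180252) (nat_lit 10) (.e (nat_lit 573474) (nat_lit 12) (.e (nat_lit 57346) (nat_lit 0) (.e (nat_lit 5583) (nat_lit 310) .nil)))))))) (.g (nat_lit 5) .nil .nil))))) (.nd (nat_lit 4) (.nd (nat_lit 5) 
(.lf (nat_lit 250250) (.g (nat_lit 2221) (.e (nat_lit 163871) (nat_lit 2) (.e (nat_lit 196670) (nat_lit 14) (.e (nat_lit 73746) (nat_lit 3) (.e (nat_lit 516129) (nat_lit 3) (.e (nat_lit 221210) (nat_lit 22) (.e (nat_lit 196661) (nat_lit 12) (.e (nat_lit 65280) (nat_lit 0) (.e (nat_lit 5588) (nat_lit 310) .nil)))))))) (.g (nat_lit 4) .nil .nil))) 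
(.lf (nat_lit 250282) (.g (nat_lit 3986) (.e (nat_lit 163871) (nat_lit 2) (.e (nat_lit 196670) (nat_lit 14) (.e (nat_lit 73753) (nat_lit 8) (.e (nat_lit 557105) (nat_lit 14) (.e (nat_lit 180252) (nat_lit 10) (.e (nat_lit 573474) (nat_lit 12) (.e (nat_lit 57344) (nat_lit 0) (.e (nat_lit 5589) (nat_lit 310) .nil)))))))) (.g (nat_lit 5) .nil .nil)))) (.nd (nat_lit 5) 
(.lf (nat_lit 250266) (.g (nat_lit 3113) (.e (nat_lit 163871) (nat_lit 2) (.e (nat_lit 196670) (nat_lit 14) (.e (nat_lit 73746) (nat_lit 3) (.e (nat_lit 516131) (nat_lit 3) (.e (nat_lit 221212) (nat_lit 22) (.e (nat_lit 196675) (nat_lit 16) (.e (nat_lit 122883) (nat_lit 0) (.e (nat_lit 5589) (nat_lit 310) .nil)))))))) (.g (nat_lit 5) .nil .nil))) 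
(.lf (nat_lit 250298) (.g (nat_lit 3685) (.e (nat_lit 163871) (nat_lit 2) (.e (nat_lit 196670) (nat_lit 14) (.e (nat_lit 73753) (nat_lit 8) (.e (nat_lit 557105) (nat_lit 14) (.e (nat_lit 180252) (nat_lit 10) (.e (nat_lit 573474) (nat_lit 12) (.e (nat_lit 57351) (nat_lit 0) (.e (nat_lit 5584) (nat_lit 310) .nil)))))))) (.g (nat_lit 5) .nil .nil)))))) 
(.nd (nat_lit 3) (.nd (nat_lit 4) (.nd (nat_lit 5) 
(.lf (nat_lit 250246) (.g (nat_lit 2373) (.e (nat_lit 163871) (nat_lit 2) (.e (nat_lit 196670) (nat_lit 14) (.e (nat_lit 73746) (nat_lit 3) (.e (nat_lit 516129) (nat_lit 3) (.e (nat_lit 221210) (nat_lit 22) (.e (nat_lit 196660) (nat_lit 12) (.e (nat_lit 57354) (nat_lit 0) (.e (nat_lit 5588) (nat_lit 310) .nil)))))))) (.g (nat_lit 4) .nil .nil))) 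
(.lf (nat_lit 250278) (.g (nat_lit 2892) (.e (nat_lit 163871) (nat_lit 2) (.e (nat_lit 196670) (nat_lit 14) (.e (nat_lit 73753) (nat_lit 8) (.e (nat_lit 557103) (nat_lit 14) (.e (nat_lit 180250) (nat_lit 10) (.e (nat_lit 573474) (nat_lit 12) (.e (nat_lit 57348) (nat_lit 0) (.e (nat_lit 5590) (nat_lit 310) .nil)))))))) (.g (nat_lit 4) .nil .nil)))) (.nd (nat_lit 5) 
(.lf (nat_lit 250262) (.g (nat_lit 2605) (.e (nat_lit 163871) (nat_lit 2) (.e (nat_lit 196670) (nat_lit 14) (.e (nat_lit 73746) (nat_lit 3) (.e (nat_lit 516129) (nat_lit 3) (.e (nat_lit 221215) (nat_lit 23) (.e (nat_lit 204821) (nat_lit 17) (.e (nat_lit 1023) (nat_lit 81) (.e (nat_lit 5589) (nat_lit 310) .nil)))))))) (.g (nat_lit 4) .nil .nil))) 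
(.lf (nat_lit 250294) (.g (nat_lit 4209) (.e (nat_lit 163871) (nat_lit 2) (.e (nat_lit 196670) (nat_lit 14) (.e (nat_lit 73753) (nat_lit 8) (.e (nat_lit 557105) (nat_lit 14) (.e (nat_lit 180252) (nat_lit 10) (.e (nat_lit 573474) (nat_lit 12) (.e (nat_lit 57348) (nat_lit 0) (.e (nat_lit 5591) (nat_lit 310) .nil)))))))) (.g (nat_lit 5) .nil .nil))))) (.nd (nat_lit 4) (.nd (nat_lit 5) 
(.lf (nat_lit 250254) (.g (nat_lit 2958) (.e (nat_lit 163871) (nat_lit 2) (.e (nat_lit 196670) (nat_lit 14) (.e (nat_lit 73746) (nat_lit 3) (.e (nat_lit 516129) (nat_lit 3) (.e (nat_lit 221210) (nat_lit 22) (.e (nat_lit 196677) (nat_lit 16) (.e (nat_lit 122880) (nat_lit 0) (.e (nat_lit 5588) (nat_lit 310) .nil)))))))) (.g (nat_lit 5) .nil .nil))) 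
(.lf (nat_lit 250286) (.g (nat_lit 3026) (.e (nat_lit 163871) (nat_lit 2) (.e (nat_lit 196670) (nat_lit 14) (.e (nat_lit 73753) (nat_lit 8) (.e (nat_lit 557105) (nat_lit 14) (.e (nat_lit 180252) (nat_lit 10) (.e (nat_lit 573474) (nat_lit 12) (.e (nat_lit 57345) (nat_lit 0) (.e (nat_lit 5591) (nat_lit 310) .nil)))))))) (.g (nat_lit 4) .nil .nil)))) (.nd (nat_lit 5) 
(.lf (nat_lit 250270) (.g (nat_lit 2436) (.e (nat_lit 163871) (nat_lit 2) (.e (nat_lit 196670) (nat_lit 14) (.e (nat_lit 73746) (nat_lit 3) (.e (nat_lit 516131) (nat_lit 3) (.e (nat_lit 221212) (nat_lit 22) (.e (nat_lit 196677) (nat_lit 16) (.e (nat_lit 122880) (nat_lit 0) (.e (nat_lit 5586) (nat_lit 310) .nil)))))))) (.g (nat_lit 5) .nil .nil))) 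
(.lf (nat_lit 250302) (.g (nat_lit 3067) (.e (nat_lit 163871) (nat_lit 2) (.e (nat_lit 196670) (nat_lit 14) (.e (nat_lit 73753) (nat_lit 8) (.e (nat_lit 557105) (nat_lit 14) (.e (nat_lit 180252) (nat_lit 10) (.e (nat_lit 573475) (nat_lit 12) (.e (nat_lit 57344) (nat_lit 0) (.e (nat_lit 5589) (nat_lit 310) .nil)))))))) (.g (nat_lit 4) .nil .nil)))))))) 
(.nd (nat_lit 1) (.nd (nat_lit 2) (.nd (nat_lit 3) (.nd (nat_lit 4) (.nd (nat_lit 5) 
(.lf (nat_lit 250241) (.g (nat_lit 1816) (.e (nat_lit 163871) (nat_lit 2) (.e (nat_lit 196670) (nat_lit 14) (.e (nat_lit 73746) (nat_lit 3) (.e (nat_lit 516129) (nat_lit 3) (.e (nat_lit 221196) (nat_lit 20) .nil))))) .nil)) 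
(.lf (nat_lit 250273) (.g (nat_lit 2783) (.e (nat_lit 163871) (nat_lit 2) (.e (nat_lit 196670) (nat_lit 14) (.e (nat_lit 73746) (nat_lit 3) (.e (nat_lit 516131) (nat_lit 3) (.e (nat_lit 221212) (nat_lit 22) (.e (nat_lit 196677) (nat_lit 16) (.e (nat_lit 122882) (nat_lit 0) (.e (nat_lit 5588) (nat_lit 310) .nil)))))))) (.g (nat_lit 5) .nil .nil)))) (.nd (nat_lit 5) 
(.lf (nat_lit 250257) (.g (nat_lit 3235) (.e (nat_lit 163871) (nat_lit 2) (.e (nat_lit 196670) (nat_lit 14) (.e (nat_lit 73746) (nat_lit 3) (.e (nat_lit 516129) (nat_lit 3) (.e (nat_lit 221210) (nat_lit 22) (.e (nat_lit 196677) (nat_lit 16) (.e (nat_lit 122882) (nat_lit 0) (.e (nat_lit 5589) (nat_lit 310) .nil)))))))) (.g (nat_lit 5) .nil .nil))) 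
(.lf (nat_lit 250289) (.g (nat_lit 3775) (.e (nat_lit 163871) (nat_lit 2) (.e (nat_lit 196670) (nat_lit 14) (.e (nat_lit 73753) (nat_lit 8) (.e (nat_lit 557105) (nat_lit 14) (.e (nat_lit 180252) (nat_lit 10) (.e (nat_lit 573474) (nat_lit 12) (.e (nat_lit 57346) (nat_lit 0) (.e (nat_lit 5582) (nat_lit 310) .nil)))))))) (.g (nat_lit 5) .nil .nil))))) (.nd (nat_lit 4) (.nd (nat_lit 5) 
(.lf (nat_lit 250249) (.g (nat_lit 2221) (.e (nat_lit 163871) (nat_lit 2) (.e (nat_lit 196670) (nat_lit 14) (.e (nat_lit 73746) (nat_lit 3) (.e (nat_lit 516129) (nat_lit 3) (.e (nat_lit 221210) (nat_lit 22) (.e (nat_lit 196661) (nat_lit 12) (.e (nat_lit 65280) (nat_lit 0) (.e (nat_lit 5586) (nat_lit 310) .nil)))))))) (.g (nat_lit 4) .nil .nil))) 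
(.lf (nat_lit 250281) (.g (nat_lit 3490) (.e (nat_lit 163871) (nat_lit 2) (.e (nat_lit 196670) (nat_lit 14) (.e (nat_lit 73753) (nat_lit 8) (.e (nat_lit 557105) (nat_lit 14) (.e (nat_lit 180252) (nat_lit 10) (.e (nat_lit 573474) (nat_lit 12) (.e (nat_lit 57344) (nat_lit 0) (.e (nat_lit 5588) (nat_lit 310) .nil)))))))) (.g (nat_lit 5) .nil .nil)))) (.nd (nat_lit 5) 
(.lf (nat_lit 250265) (.g (nat_lit 2078) (.e (nat_lit 163871) (nat_lit 2) (.e (nat_lit 196670) (nat_lit 14) (.e (nat_lit 73746) (nat_lit 3) (.e (nat_lit 516131) (nat_lit 3) (.e (nat_lit 221212) (nat_lit 22) (.e (nat_lit 196658) (nat_lit 12) (.e (nat_lit 57353) (nat_lit 0) (.e (nat_lit 5584) (nat_lit 310) .nil)))))))) (.g (nat_lit 4) .nil .nil))) 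
(.lf (nat_lit 250297) (.g (nat_lit 3600) (.e (nat_lit 163871) (nat_lit 2) (.e (nat_lit 196670) (nat_lit 14) (.e (nat_lit 73753) (nat_lit 8) (.e (nat_lit 557105) (nat_lit 14) (.e (nat_lit 180252) (nat_lit 10) (.e (nat_lit 573474) (nat_lit 12) (.e (nat_lit 57349) (nat_lit 0) (.e (nat_lit 5592) (nat_lit 310) .nil)))))))) (.g (nat_lit 5) .nil .nil)))))) 
(.nd (nat_lit 3) (.nd (nat_lit 4) (.nd (nat_lit 5) 
(.lf (nat_lit 250245) (.g (nat_lit 3054) (.e (nat_lit 163871) (nat_lit 2) (.e (nat_lit 196670) (nat_lit 14) (.e (nat_lit 73746) (nat_lit 3) (.e (nat_lit 516129) (nat_lit 3) (.e (nat_lit 221210) (nat_lit 22) (.e (nat_lit 196659) (nat_lit 12) (.e (nat_lit 57354) (nat_lit 0) (.e (nat_lit 5589) (nat_lit 310) .nil)))))))) (.g (nat_lit 5) .nil .nil))) 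
(.lf (nat_lit 250277) (.g (nat_lit 2114) (.e (nat_lit 163871) (nat_lit 2) (.e (nat_lit 196670) (nat_lit 14) (.e (nat_lit 73753) (nat_lit 8) (.e (nat_lit 557103) (nat_lit 14) (.e (nat_lit 180250) (nat_lit 10) .nil))))) .nil))) (.nd (nat_lit 5) 
(.lf (nat_lit 250261) (.g (nat_lit 3131) (.e (nat_lit 163871) (nat_lit 2) (.e (nat_lit 196670) (nat_lit 14) (.e (nat_lit 73746) (nat_lit 3) (.e (nat_lit 516129) (nat_lit 3) (.e (nat_lit 221214) (nat_lit 23) (.e (nat_lit 204821) (nat_lit 17) (.e (nat_lit 1086) (nat_lit 81) (.e (nat_lit 5584) (nat_lit 310) .nil)))))))) (.g (nat_lit 5) .nil .nil))) 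
(.lf (nat_lit 250293) (.g (nat_lit 4265) (.e (nat_lit 163871) (nat_lit 2) (.e (nat_lit 196670) (nat_lit 14) (.e (nat_lit 73753) (nat_lit 8) (.e (nat_lit 557105) (nat_lit 14) (.e (nat_lit 180252) (nat_lit 10) (.e (nat_lit 573474) (nat_lit 12) (.e (nat_lit 57348) (nat_lit 0) (.e (nat_lit 5584) (nat_lit 310) .nil)))))))) (.g (nat_lit 5) .nil .nil))))) (.nd (nat_lit 4) (.nd (nat_lit 5) 
(.lf (nat_lit 250253) (.g (nat_lit 2526) (.e (nat_lit 163871) (nat_lit 2) (.e (nat_lit 196670) (nat_lit 14) (.e (nat_lit 73746) (nat_lit 3) (.e (nat_lit 516129) (nat_lit 3) (.e (nat_lit 221210) (nat_lit 22) (.e (nat_lit 196677) (nat_lit 16) (.e (nat_lit 122880) (nat_lit 0) (.e (nat_lit 5586) (nat_lit 310) .nil)))))))) (.g (nat_lit 4) .nil .nil))) 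
(.lf (nat_lit 250285) (.g (nat_lit 3998) (.e (nat_lit 163871) (nat_lit 2) (.e (nat_lit 196670) (nat_lit 14) (.e (nat_lit 73753) (nat_lit 8) (.e (nat_lit 557105) (nat_lit 14) (.e (nat_lit 180252) (nat_lit 10) (.e (nat_lit 573474) (nat_lit 12) (.e (nat_lit 57345) (nat_lit 0) (.e (nat_lit 5590) (nat_lit 310) .nil)))))))) (.g (nat_lit 5) .nil .nil)))) (.nd (nat_lit 5) 
(.lf (nat_lit 250269) (.g (nat_lit 2692) (.e (nat_lit 163871) (nat_lit 2) (.e (nat_lit 196670) (nat_lit 14) (.e (nat_lit 73746) (nat_lit 3) (.e (nat_lit 516131) (nat_lit 3) (.e (nat_lit 221212) (nat_lit 22) (.e (nat_lit 196677) (nat_lit 16) (.e (nat_lit 122880) (nat_lit 0) (.e (nat_lit 5585) (nat_lit 310) .nil)))))))) (.g (nat_lit 5) .nil .nil))) 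
(.lf (nat_lit 250301) (.g (nat_lit 3707) (.e (nat_lit 163871) (nat_lit 2) (.e (nat_lit 196670) (nat_lit 14) (.e (nat_lit 73753) (nat_lit 8) (.e (nat_lit 557105) (nat_lit 14) (.e (nat_lit 180252) (nat_lit 10) (.e (nat_lit 573474) (nat_lit 12) (.e (nat_lit 65280) (nat_lit 0) (.e (nat_lit 5587) (nat_lit 310) .nil)))))))) (.g (nat_lit 5) .nil .nil))))))) 
(.nd (nat_lit 2) (.nd (nat_lit 3) (.nd (nat_lit 4) (.nd (nat_lit 5) 
(.lf (nat_lit 250243) (.g (nat_lit 2339) (.e (nat_lit 163871) (nat_lit 2) (.e (nat_lit 196670) (nat_lit 14) (.e (nat_lit 73746) (nat_lit 3) (.e (nat_lit 516129) (nat_lit 3) (.e (nat_lit 221210) (nat_lit 22) (.e (nat_lit 196658) (nat_lit 12) (.e (nat_lit 57355) (nat_lit 0) (.e (nat_lit 5589) (nat_lit 310) .nil)))))))) (.g (nat_lit 4) .nil .nil))) 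
(.lf (nat_lit 250275) (.g (nat_lit 2006) (.e (nat_lit 163871) (nat_lit 2) (.e (nat_lit 196670) (nat_lit 14) (.e (nat_lit 73746) (nat_lit 3) (.e (nat_lit 516131) (nat_lit 3) (.e (nat_lit 221214) (nat_lit 23) (.e (nat_lit 204821) (nat_lit 17) (.e (nat_lit 1086) (nat_lit 81) (.e (nat_lit 5584) (nat_lit 310) .nil)))))))) (.g (nat_lit 4) .nil .nil)))) (.nd (nat_lit 5) 
(.lf (nat_lit 250259) (.g (nat_lit 2353) (.e (nat_lit 163871) (nat_lit 2) (.e (nat_lit 196670) (nat_lit 14) (.e (nat_lit 73746) (nat_lit 3) (.e (nat_lit 516129) (nat_lit 3) (.e (nat_lit 221210) (nat_lit 22) (.e (nat_lit 196677) (nat_lit 16) (.e (nat_lit 130816) (nat_lit 0) (.e (nat_lit 5587) (nat_lit 310) .nil)))))))) (.g (nat_lit 4) .nil .nil))) 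
(.lf (nat_lit 250291) (.g (nat_lit 4271) (.e (nat_lit 163871) (nat_lit 2) (.e (nat_lit 196670) (nat_lit 14) (.e (nat_lit 73753) (nat_lit 8) (.e (nat_lit 557105) (nat_lit 14) (.e (nat_lit 180252) (nat_lit 10) (.e (nat_lit 573474) (nat_lit 12) (.e (nat_lit 57347) (nat_lit 0) (.e (nat_lit 5591) (nat_lit 310) .nil)))))))) (.g (nat_lit 5) .nil .nil))))) (.nd (nat_lit 4) (.nd (nat_lit 5) 
(.lf (nat_lit 250251) (.g (nat_lit 3648) (.e (nat_lit 163871) (nat_lit 2) (.e (nat_lit 196670) (nat_lit 14) (.e (nat_lit 73746) (nat_lit 3) (.e (nat_lit 516129) (nat_lit 3) (.e (nat_lit 221210) (nat_lit 22) (.e (nat_lit 196661) (nat_lit 12) (.e (nat_lit 65280) (nat_lit 0) (.e (nat_lit 5589) (nat_lit 310) .nil)))))))) (.g (nat_lit 6) .nil .nil))) 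
(.lf (nat_lit 250283) (.g (nat_lit 3206) (.e (nat_lit 163871) (nat_lit 2) (.e (nat_lit 196670) (nat_lit 14) (.e (nat_lit 73753) (nat_lit 8) (.e (nat_lit 557105) (nat_lit 14) (.e (nat_lit 180252) (nat_lit 10) (.e (nat_lit 573474) (nat_lit 12) (.e (nat_lit 57344) (nat_lit 0) (.e (nat_lit 5593) (nat_lit 310) .nil)))))))) (.g (nat_lit 4) .nil .nil)))) (.nd (nat_lit 5) 
(.lf (nat_lit 250267) (.g (nat_lit 3134) (.e (nat_lit 163871) (nat_lit 2) (.e (nat_lit 196670) (nat_lit 14) (.e (nat_lit 73746) (nat_lit 3) (.e (nat_lit 516131) (nat_lit 3) (.e (nat_lit 221212) (nat_lit 22) (.e (nat_lit 196676) (nat_lit 16) (.e (nat_lit 122883) (nat_lit 0) (.e (nat_lit 5589) (nat_lit 310) .nil)))))))) (.g (nat_lit 5) .nil .nil))) 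
(.lf (nat_lit 250299) (.g (nat_lit 4904) (.e (nat_lit 163871) (nat_lit 2) (.e (nat_lit 196670) (nat_lit 14) (.e (nat_lit 73753) (nat_lit 8) (.e (nat_lit 557105) (nat_lit 14) (.e (nat_lit 180252) (nat_lit 10) (.e (nat_lit 573474) (nat_lit 12) (.e (nat_lit 57354) (nat_lit 0) (.e (nat_lit 5589) (nat_lit 310) .nil)))))))) (.g (nat_lit 6) .nil .nil)))))) 
(.nd (nat_lit 3) (.nd (nat_lit 4) (.nd (nat_lit 5) 
(.lf (nat_lit 250247) (.g (nat_lit 3551) (.e (nat_lit 163871) (nat_lit 2) (.e (nat_lit 196670) (nat_lit 14) (.e (nat_lit 73746) (nat_lit 3) (.e (nat_lit 516129) (nat_lit 3) (.e (nat_lit 221210) (nat_lit 22) (.e (nat_lit 196661) (nat_lit 12) (.e (nat_lit 57353) (nat_lit 0) (.e (nat_lit 5584) (nat_lit 310) .nil)))))))) (.g (nat_lit 6) .nil .nil))) 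
(.lf (nat_lit 250279) (.g (nat_lit 2652) (.e (nat_lit 163871) (nat_lit 2) (.e (nat_lit 196670) (nat_lit 14) (.e (nat_lit 73753) (nat_lit 8) (.e (nat_lit 557103) (nat_lit 14) (.e (nat_lit 180250) (nat_lit 10) (.e (nat_lit 573475) (nat_lit 12) (.e (nat_lit 57345) (nat_lit 0) (.e (nat_lit 5583) (nat_lit 310) .nil)))))))) (.g (nat_lit 4) .nil .nil)))) (.nd (nat_lit 5) 
(.lf (nat_lit 250263) (.g (nat_lit 3105) (.e (nat_lit 163871) (nat_lit 2) (.e (nat_lit 196670) (nat_lit 14) (.e (nat_lit 73746) (nat_lit 3) (.e (nat_lit 516129) (nat_lit 3) (.e (nat_lit 221215) (nat_lit 23) (.e (nat_lit 204821) (nat_lit 17) (.e (nat_lit 1086) (nat_lit 81) (.e (nat_lit 5584) (nat_lit 310) .nil)))))))) (.g (nat_lit 5) .nil .nil))) 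
(.lf (nat_lit 250295) (.g (nat_lit 4847) (.e (nat_lit 163871) (nat_lit 2) (.e (nat_lit 196670) (nat_lit 14) (.e (nat_lit 73753) (nat_lit 8) (.e (nat_lit 557105) (nat_lit 14) (.e (nat_lit 180252) (nat_lit 10) (.e (nat_lit 573474) (nat_lit 12) (.e (nat_lit 57348) (nat_lit 0) (.e (nat_lit 5592) (nat_lit 310) .nil)))))))) (.g (nat_lit 6) .nil .nil))))) (.nd (nat_lit 4) (.nd (nat_lit 5) 
(.lf (nat_lit 250255) (.g (nat_lit 2363) (.e (nat_lit 163871) (nat_lit 2) (.e (nat_lit 196670) (nat_lit 14) (.e (nat_lit 73746) (nat_lit 3) (.e (nat_lit 516129) (nat_lit 3) (.e (nat_lit 221210) (nat_lit 22) (.e (nat_lit 196677) (nat_lit 16) (.e (nat_lit 122881) (nat_lit 0) (.e (nat_lit 5584) (nat_lit 310) .nil)))))))) (.g (nat_lit 4) .nil .nil))) 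
(.lf (nat_lit 250287) (.g (nat_lit 3674) (.e (nat_lit 163871) (nat_lit 2) (.e (nat_lit 196670) (nat_lit 14) (.e (nat_lit 73753) (nat_lit 8) (.e (nat_lit 557105) (nat_lit 14) (.e (nat_lit 180252) (nat_lit 10) (.e (nat_lit 573474) (nat_lit 12) (.e (nat_lit 57345) (nat_lit 0) (.e (nat_lit 5592) (nat_lit 310) .nil)))))))) (.g (nat_lit 5) .nil .nil)))) (.nd (nat_lit 5) 
(.lf (nat_lit 250271) (.g (nat_lit 2856) (.e (nat_lit 163871) (nat_lit 2) (.e (nat_lit 196670) (nat_lit 14) (.e (nat_lit 73746) (nat_lit 3) (.e (nat_lit 516131) (nat_lit 3) (.e (nat_lit 221212) (nat_lit 22) (.e (nat_lit 196677) (nat_lit 16) (.e (nat_lit 122880) (nat_lit 0) (.e (nat_lit 5588) (nat_lit 310) .nil)))))))) (.g (nat_lit 5) .nil .nil))) 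
(.lf (nat_lit 250303) (.g (nat_lit 2614) (.e (nat_lit 163871) (nat_lit 2) (.e (nat_lit 196670) (nat_lit 14) (.e (nat_lit 73753) (nat_lit 8) (.e (nat_lit 557105) (nat_lit 14) (.e (nat_lit 180252) (nat_lit 10) (.e (nat_lit 573475) (nat_lit 12) (.e (nat_lit 57346) (nat_lit 0) (.e (nat_lit 5583) (nat_lit 310) .nil)))))))) (.g (nat_lit 4) .nil .nil)))))))))

noncomputable def tv3242 : DT := (.nd (nat_lit 0) (.nd (nat_lit 1) (.nd (nat_lit 2) (.nd (nat_lit 3) (.nd (nat_lit 4) (.nd (nat_lit 5) 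
(.lf (nat_lit 250304) (.g (nat_lit 2053) (.e (nat_lit 163871) (nat_lit 2) (.e (nat_lit 196670) (nat_lit 14) (.e (nat_lit 73754) (nat_lit 8) (.e (nat_lit 557105) (nat_lit 14) (.e (nat_lit 180251) (nat_lit 10) .nil))))) .nil)) 
(.lf (nat_lit 250336) (.g (nat_lit 3064) (.e (nat_lit 163871) (nat_lit 2) (.e (nat_lit 196670) (nat_lit 14) (.e (nat_lit 73754) (nat_lit 8) (.e (nat_lit 557105) (nat_lit 14) (.e (nat_lit 180252) (nat_lit 10) (.e (nat_lit 573475) (nat_lit 12) (.e (nat_lit 57349) (nat_lit 0) (.e (nat_lit 5592) (nat_lit 310) .nil)))))))) (.g (nat_lit 4) .nil .nil)))) (.nd (nat_lit 5) 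
(.lf (nat_lit 250320) (.g (nat_lit 5248) (.e (nat_lit 163871) (nat_lit 2) (.e (nat_lit 196670) (nat_lit 14) (.e (nat_lit 73754) (nat_lit 8) (.e (nat_lit 557105) (nat_lit 14) (.e (nat_lit 180252) (nat_lit 10) (.e (nat_lit 573474) (nat_lit 12) (.e (nat_lit 57348) (nat_lit 0) (.e (nat_lit 5592) (nat_lit 310) .nil)))))))) (.g (nat_lit 5) .nil .nil))) 
(.lf (nat_lit 250352) (.g (nat_lit 3952) (.e (nat_lit 163871) (nat_lit 2) (.e (nat_lit 196670) (nat_lit 14) (.e (nat_lit 73755) (nat_lit 8) (.e (nat_lit 557105) (nat_lit 14) (.e (nat_lit 180252) (nat_lit 10) (.e (nat_lit 573474) (nat_lit 12) (.e (nat_lit 57347) (nat_lit 0) (.e (nat_lit 5592) (nat_lit 310) .nil)))))))) (.g (nat_lit 5) .nil .nil))))) (.nd (nat_lit 4) (.nd (nat_lit 5) 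
(.lf (nat_lit 250312) (.g (nat_lit 4075) (.e (nat_lit 163871) (nat_lit 2) (.e (nat_lit 196670) (nat_lit 14) (.e (nat_lit 73754) (nat_lit 8) (.e (nat_lit 557105) (nat_lit 14) (.e (nat_lit 180252) (nat_lit 10) (.e (nat_lit 573474) (nat_lit 12) (.e (nat_lit 57345) (nat_lit 0) (.e (nat_lit 5592) (nat_lit 310) .nil)))))))) (.g (nat_lit 5) .nil .nil))) 
(.lf (nat_lit 250344) (.g (nat_lit 3374) (.e (nat_lit 163871) (nat_lit 2) (.e (nat_lit 196670) (nat_lit 14) (.e (nat_lit 73755) (nat_lit 8) (.e (nat_lit 557105) (nat_lit 14) (.e (nat_lit 180252) (nat_lit 10) (.e (nat_lit 573474) (nat_lit 12) (.e (nat_lit 57345) (nat_lit 0) (.e (nat_lit 5583) (nat_lit 310) .nil)))))))) (.g (nat_lit 4) .nil .nil)))) (.nd (nat_lit 5) 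
(.lf (nat_lit 250328) (.g (nat_lit 3738) (.e (nat_lit 163871) (nat_lit 2) (.e (nat_lit 196670) (nat_lit 14) (.e (nat_lit 73754) (nat_lit 8) (.e (nat_lit 557105) (nat_lit 14) (.e (nat_lit 180252) (nat_lit 10) (.e (nat_lit 573475) (nat_lit 12) (.e (nat_lit 57345) (nat_lit 0) (.e (nat_lit 5592) (nat_lit 310) .nil)))))))) (.g (nat_lit 5) .nil .nil))) 
(.lf (nat_lit 250360) (.g (nat_lit 3153) (.e (nat_lit 163871) (nat_lit 2) (.e (nat_lit 196670) (nat_lit 14) (.e (nat_lit 73755) (nat_lit 8) (.e (nat_lit 557105) (nat_lit 14) (.e (nat_lit 180252) (nat_lit 10) (.e (nat_lit 573474) (nat_lit 12) (.e (nat_lit 57355) (nat_lit 0) (.e (nat_lit 5589) (nat_lit 310) .nil)))))))) (.g (nat_lit 4) .nil .nil)))))) 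
(.nd (nat_lit 3) (.nd (nat_lit 4) (.nd (nat_lit 5) 
(.lf (nat_lit 250308) (.g (nat_lit 4439) (.e (nat_lit 163871) (nat_lit 2) (.e (nat_lit 196670) (nat_lit 14) (.e (nat_lit 73754) (nat_lit 8) (.e (nat_lit 557105) (nat_lit 14) (.e (nat_lit 180252) (nat_lit 10) (.e (nat_lit 573474) (nat_lit 12) (.e (nat_lit 57344) (nat_lit 0) (.e (nat_lit 5589) (nat_lit 310) .nil)))))))) (.g (nat_lit 5) .nil .nil))) 
(.lf (nat_lit 250340) (.g (nat_lit 4271) (.e (nat_lit 163871) (nat_lit 2) (.e (nat_lit 196670) (nat_lit 14) (.e (nat_lit 73754) (nat_lit 8) (.e (nat_lit 557105) (nat_lit 14) (.e (nat_lit 180252) (nat_lit 10) (.e (nat_lit 573495) (nat_lit 16) (.e (nat_lit 122883) (nat_lit 0) (.e (nat_lit 5589) (nat_lit 310) .nil)))))))) (.g (nat_lit 5) .nil .nil)))) (.nd (nat_lit 5) 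
(.lf (nat_lit 250324) (.g (nat_lit 4255) (.e (nat_lit 163871) (nat_lit 2) (.e (nat_lit 196670) (nat_lit 14) (.e (nat_lit 73754) (nat_lit 8) (.e (nat_lit 557105) (nat_lit 14) (.e (nat_lit 180252) (nat_lit 10) (.e (nat_lit 573475) (nat_lit 12) (.e (nat_lit 57344) (nat_lit 0) (.e (nat_lit 5589) (nat_lit 310) .nil)))))))) (.g (nat_lit 6) .nil .nil))) 
(.lf (nat_lit 250356) (.g (nat_lit 2633) (.e (nat_lit 163871) (nat_lit 2) (.e (nat_lit 196670) (nat_lit 14) (.e (nat_lit 73755) (nat_lit 8) (.e (nat_lit 557105) (nat_lit 14) (.e (nat_lit 180252) (nat_lit 10) (.e (nat_lit 573474) (nat_lit 12) (.e (nat_lit 57349) (nat_lit 0) (.e (nat_lit 5592) (nat_lit 310) .nil)))))))) (.g (nat_lit 4) .nil .nil))))) (.nd (nat_lit 4) (.nd (nat_lit 5) 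
(.lf (nat_lit 250316) (.g (nat_lit 4985) (.e (nat_lit 163871) (nat_lit 2) (.e (nat_lit 196670) (nat_lit 14) (.e (nat_lit 73754) (nat_lit 8) (.e (nat_lit 557105) (nat_lit 14) (.e (nat_lit 180252) (nat_lit 10) (.e (nat_lit 573474) (nat_lit 12) (.e (nat_lit 57347) (nat_lit 0) (.e (nat_lit 5584) (nat_lit 310) .nil)))))))) (.g (nat_lit 5) .nil .nil))) 
(.lf (nat_lit 250348) (.g (nat_lit 2722) (.e (nat_lit 163871) (nat_lit 2) (.e (nat_lit 196670) (nat_lit 14) (.e (nat_lit 73755) (nat_lit 8) (.e (nat_lit 557105) (nat_lit 14) (.e (nat_lit 180252) (nat_lit 10) (.e (nat_lit 573474) (nat_lit 12) (.e (nat_lit 57346) (nat_lit 0) (.e (nat_lit 5582) (nat_lit 310) .nil)))))))) (.g (nat_lit 4) .nil .nil)))) (.nd (nat_lit 5) 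
(.lf (nat_lit 250332) (.g (nat_lit 3229) (.e (nat_lit 163871) (nat_lit 2) (.e (nat_lit 196670) (nat_lit 14) (.e (nat_lit 73754) (nat_lit 8) (.e (nat_lit 557105) (nat_lit 14) (.e (nat_lit 180252) (nat_lit 10) (.e (nat_lit 573475) (nat_lit 12) (.e (nat_lit 57347) (nat_lit 0) (.e (nat_lit 5592) (nat_lit 310) .nil)))))))) (.g (nat_lit 4) .nil .nil))) 
(.lf (nat_lit 250364) (.g (nat_lit 4634) (.e (nat_lit 163871) (nat_lit 2) (.e (nat_lit 196691) (nat_lit 18) (.e (nat_lit 1348) (nat_lit 102) (.e (nat_lit 286759) (nat_lit 12) (.e (nat_lit 385074) (nat_lit 31) (.e (nat_lit 573489) (nat_lit 14) (.e (nat_lit 73731) (nat_lit 0) (.e (nat_lit 4539) (nat_lit 267) .nil)))))))) (.g (nat_lit 6) .nil .nil))))))) 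
(.nd (nat_lit 2) (.nd (nat_lit 3) (.nd (nat_lit 4) (.nd (nat_lit 5) 
(.lf (nat_lit 250306) (.g (nat_lit 2750) (.e (nat_lit 163871) (nat_lit 2) (.e (nat_lit 196670) (nat_lit 14) (.e (nat_lit 73754) (nat_lit 8) (.e (nat_lit 557105) (nat_lit 14) (.e (nat_lit 180252) (nat_lit 10) (.e (nat_lit 573473) (nat_lit 12) (.e (nat_lit 57350) (nat_lit 0) (.e (nat_lit 5581) (nat_lit 310) .nil)))))))) (.g (nat_lit 4) .nil .nil))) 
(.lf (nat_lit 250338) (.g (nat_lit 2925) (.e (nat_lit 163871) (nat_lit 2) (.e (nat_lit 196670) (nat_lit 14) (.e (nat_lit 73754) (nat_lit 8) (.e (nat_lit 557105) (nat_lit 14) (.e (nat_lit 180252) (nat_lit 10) (.e (nat_lit 573475) (nat_lit 12) (.e (nat_lit 57354) (nat_lit 0) (.e (nat_lit 5589) (nat_lit 310) .nil)))))))) (.g (nat_lit 4) .nil .nil)))) (.nd (nat_lit 5) 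
(.lf (nat_lit 250322) (.g (nat_lit 4516) (.e (nat_lit 163871) (nat_lit 2) (.e (nat_lit 196670) (nat_lit 14) (.e (nat_lit 73754) (nat_lit 8) (.e (nat_lit 557105) (nat_lit 14) (.e (nat_lit 180252) (nat_lit 10) (.e (nat_lit 573474) (nat_lit 12) (.e (nat_lit 57355) (nat_lit 0) (.e (nat_lit 5589) (nat_lit 310) .nil)))))))) (.g (nat_lit 5) .nil .nil))) 
(.lf (nat_lit 250354) (.g (nat_lit 3880) (.e (nat_lit 163871) (nat_lit 2) (.e (nat_lit 196670) (nat_lit 14) (.e (nat_lit 73755) (nat_lit 8) (.e (nat_lit 557105) (nat_lit 14) (.e (nat_lit 180252) (nat_lit 10) (.e (nat_lit 573474) (nat_lit 12) (.e (nat_lit 57348) (nat_lit 0) (.e (nat_lit 5592) (nat_lit 310) .nil)))))))) (.g (nat_lit 5) .nil .nil))))) (.nd (nat_lit 4) (.nd (nat_lit 5) 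
(.lf (nat_lit 250314) (.g (nat_lit 4090) (.e (nat_lit 163871) (nat_lit 2) (.e (nat_lit 196670) (nat_lit 14) (.e (nat_lit 73754) (nat_lit 8) (.e (nat_lit 557105) (nat_lit 14) (.e (nat_lit 180252) (nat_lit 10) (.e (nat_lit 573474) (nat_lit 12) (.e (nat_lit 57346) (nat_lit 0) (.e (nat_lit 5582) (nat_lit 310) .nil)))))))) (.g (nat_lit 5) .nil .nil))) 
(.lf (nat_lit 250346) (.g (nat_lit 2707) (.e (nat_lit 163871) (nat_lit 2) (.e (nat_lit 196670) (nat_lit 14) (.e (nat_lit 73755) (nat_lit 8) (.e (nat_lit 557105) (nat_lit 14) (.e (nat_lit 180252) (nat_lit 10) (.e (nat_lit 573474) (nat_lit 12) (.e (nat_lit 57345) (nat_lit 0) (.e (nat_lit 5592) (nat_lit 310) .nil)))))))) (.g (nat_lit 4) .nil .nil)))) (.nd (nat_lit 5) 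
(.lf (nat_lit 250330) (.g (nat_lit 3811) (.e (nat_lit 163871) (nat_lit 2) (.e (nat_lit 196670) (nat_lit 14) (.e (nat_lit 73754) (nat_lit 8) (.e (nat_lit 557105) (nat_lit 14) (.e (nat_lit 180252) (nat_lit 10) (.e (nat_lit 573475) (nat_lit 12) (.e (nat_lit 57346) (nat_lit 0) (.e (nat_lit 5583) (nat_lit 310) .nil)))))))) (.g (nat_lit 6) .nil .nil))) 
(.lf (nat_lit 250362) (.g (nat_lit 3773) (.e (nat_lit 163871) (nat_lit 2) (.e (nat_lit 196677) (nat_lit 16) (.e (nat_lit 122969) (nat_lit 48) (.e (nat_lit 720938) (nat_lit 22) (.e (nat_lit 90172) (nat_lit 14) (.e (nat_lit 180244) (nat_lit 5) (.e (nat_lit 532501) (nat_lit 1) (.e (nat_lit 57690) (nat_lit 156) .nil)))))))) (.g (nat_lit 7) .nil .nil)))))) 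
(.nd (nat_lit 3) (.nd (nat_lit 4) (.nd (nat_lit 5) 
(.lf (nat_lit 250310) (.g (nat_lit 4728) (.e (nat_lit 163871) (nat_lit 2) (.e (nat_lit 196670) (nat_lit 14) (.e (nat_lit 73754) (nat_lit 8) (.e (nat_lit 557105) (nat_lit 14) (.e (nat_lit 180252) (nat_lit 10) (.e (nat_lit 573474) (nat_lit 12) (.e (nat_lit 57345) (nat_lit 0) (.e (nat_lit 5583) (nat_lit 310) .nil)))))))) (.g (nat_lit 5) .nil .nil))) 
(.lf (nat_lit 250342) (.g (nat_lit 2518) (.e (nat_lit 163871) (nat_lit 2) (.e (nat_lit 196670) (nat_lit 14) (.e (nat_lit 73755) (nat_lit 8) (.e (nat_lit 557105) (nat_lit 14) (.e (nat_lit 180252) (nat_lit 10) (.e (nat_lit 573474) (nat_lit 12) (.e (nat_lit 57344) (nat_lit 0) (.e (nat_lit 5588) (nat_lit 310) .nil)))))))) (.g (nat_lit 4) .nil .nil)))) (.nd (nat_lit 5) 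
(.lf (nat_lit 250326) (.g (nat_lit 4112) (.e (nat_lit 163871) (nat_lit 2) (.e (nat_lit 196670) (nat_lit 14) (.e (nat_lit 73754) (nat_lit 8) (.e (nat_lit 557105) (nat_lit 14) (.e (nat_lit 180252) (nat_lit 10) (.e (nat_lit 573475) (nat_lit 12) (.e (nat_lit 57345) (nat_lit 0) (.e (nat_lit 5590) (nat_lit 310) .nil)))))))) (.g (nat_lit 6) .nil .nil))) 
(.lf (nat_lit 250358) (.g (nat_lit 2682) (.e (nat_lit 163871) (nat_lit 2) (.e (nat_lit 196670) (nat_lit 14) (.e (nat_lit 73755) (nat_lit 8) (.e (nat_lit 557105) (nat_lit 14) (.e (nat_lit 180252) (nat_lit 10) (.e (nat_lit 573474) (nat_lit 12) (.e (nat_lit 57353) (nat_lit 0) (.e (nat_lit 5584) (nat_lit 310) .nil)))))))) (.g (nat_lit 4) .nil .nil))))) (.nd (nat_lit 4) (.nd (nat_lit 5) 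
(.lf (nat_lit 250318) (.g (nat_lit 4694) (.e (nat_lit 163871) (nat_lit 2) (.e (nat_lit 196670) (nat_lit 14) (.e (nat_lit 73754) (nat_lit 8) (.e (nat_lit 557105) (nat_lit 14) (.e (nat_lit 180252) (nat_lit 10) (.e (nat_lit 573474) (nat_lit 12) (.e (nat_lit 57348) (nat_lit 0) (.e (nat_lit 5584) (nat_lit 310) .nil)))))))) (.g (nat_lit 5) .nil .nil))) 
(.lf (nat_lit 250350) (.g (nat_lit 3617) (.e (nat_lit 163871) (nat_lit 2) (.e (nat_lit 196670) (nat_lit 14) (.e (nat_lit 73755) (nat_lit 8) (.e (nat_lit 557105) (nat_lit 14) (.e (nat_lit 180252) (nat_lit 10) (.e (nat_lit 573474) (nat_lit 12) (.e (nat_lit 57347) (nat_lit 0) (.e (nat_lit 5584) (nat_lit 310) .nil)))))))) (.g (nat_lit 5) .nil .nil)))) (.nd (nat_lit 5) 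
(.lf (nat_lit 250334) (.g (nat_lit 2853) (.e (nat_lit 163871) (nat_lit 2) (.e (nat_lit 196670) (nat_lit 14) (.e (nat_lit 73754) (nat_lit 8) (.e (nat_lit 557105) (nat_lit 14) (.e (nat_lit 180252) (nat_lit 10) (.e (nat_lit 573475) (nat_lit 12) (.e (nat_lit 57348) (nat_lit 0) (.e (nat_lit 5592) (nat_lit 310) .nil)))))))) (.g (nat_lit 4) .nil .nil))) 
(.lf (nat_lit 250366) (.g (nat_lit 3625) (.e (nat_lit 163871) (nat_lit 2) (.e (nat_lit 196691) (nat_lit 18) (.e (nat_lit 1358) (nat_lit 102) (.e (nat_lit 286753) (nat_lit 10) (.e (nat_lit 344117) (nat_lit 21) (.e (nat_lit 516160) (nat_lit 10) (.e (nat_lit 434209) (nat_lit 18) (.e (nat_lit 5223) (nat_lit 296) .nil)))))))) (.g (nat_lit 7) .nil .nil)))))))) 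
(.nd (nat_lit 1) (.nd (nat_lit 2) (.nd (nat_lit 3) (.nd (nat_lit 4) (.nd (nat_lit 5) 
(.lf (nat_lit 250305) (.g (nat_lit 2799) (.e (nat_lit 163871) (nat_lit 2) (.e (nat_lit 196670) (nat_lit 14) (.e (nat_lit 73754) (nat_lit 8) (.e (nat_lit 557105) (nat_lit 14) (.e (nat_lit 180252) (nat_lit 10) (.e (nat_lit 573473) (nat_lit 12) (.e (nat_lit 57345) (nat_lit 0) (.e (nat_lit 5583) (nat_lit 310) .nil)))))))) (.g (nat_lit 4) .nil .nil))) 
(.lf (nat_lit 250337) (.g (nat_lit 3466) (.e (nat_lit 163871) (nat_lit 2) (.e (nat_lit 196670) (nat_lit 14) (.e (nat_lit 73754) (nat_lit 8) (.e (nat_lit 557105) (nat_lit 14) (.e (nat_lit 180252) (nat_lit 10) (.e (nat_lit 573475) (nat_lit 12) (.e (nat_lit 57351) (nat_lit 0) (.e (nat_lit 5584) (nat_lit 310) .nil)))))))) (.g (nat_lit 5) .nil .nil)))) (.nd (nat_lit 5) 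
(.lf (nat_lit 250321) (.g (nat_lit 4300) (.e (nat_lit 163871) (nat_lit 2) (.e (nat_lit 196670) (nat_lit 14) (.e (nat_lit 73754) (nat_lit 8) (.e (nat_lit 557105) (nat_lit 14) (.e (nat_lit 180252) (nat_lit 10) (.e (nat_lit 573474) (nat_lit 12) (.e (nat_lit 57349) (nat_lit 0) (.e (nat_lit 5590) (nat_lit 310) .nil)))))))) (.g (nat_lit 5) .nil .nil))) 
(.lf (nat_lit 250353) (.g (nat_lit 3156) (.e (nat_lit 163871) (nat_lit 2) (.e (nat_lit 196670) (nat_lit 14) (.e (nat_lit 73755) (nat_lit 8) (.e (nat_lit 557105) (nat_lit 14) (.e (nat_lit 180252) (nat_lit 10) (.e (nat_lit 573474) (nat_lit 12) (.e (nat_lit 57348) (nat_lit 0) (.e (nat_lit 5591) (nat_lit 310) .nil)))))))) (.g (nat_lit 4) .nil .nil))))) (.nd (nat_lit 4) (.nd (nat_lit 5) 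
(.lf (nat_lit 250313) (.g (nat_lit 4592) (.e (nat_lit 163871) (nat_lit 2) (.e (nat_lit 196670) (nat_lit 14) (.e (nat_lit 73754) (nat_lit 8) (.e (nat_lit 557105) (nat_lit 14) (.e (nat_lit 180252) (nat_lit 10) (.e (nat_lit 573474) (nat_lit 12) (.e (nat_lit 57345) (nat_lit 0) (.e (nat_lit 5593) (nat_lit 310) .nil)))))))) (.g (nat_lit 5) .nil .nil))) 
(.lf (nat_lit 250345) (.g (nat_lit 3081) (.e (nat_lit 163871) (nat_lit 2) (.e (nat_lit 196670) (nat_lit 14) (.e (nat_lit 73755) (nat_lit 8) (.e (nat_lit 557105) (nat_lit 14) (.e (nat_lit 180252) (nat_lit 10) (.e (nat_lit 573474) (nat_lit 12) (.e (nat_lit 57345) (nat_lit 0) (.e (nat_lit 5590) (nat_lit 310) .nil)))))))) (.g (nat_lit 4) .nil .nil)))) (.nd (nat_lit 5) 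
(.lf (nat_lit 250329) (.g (nat_lit 2961) (.e (nat_lit 163871) (nat_lit 2) (.e (nat_lit 196670) (nat_lit 14) (.e (nat_lit 73754) (nat_lit 8) (.e (nat_lit 557105) (nat_lit 14) (.e (nat_lit 180252) (nat_lit 10) (.e (nat_lit 573475) (nat_lit 12) (.e (nat_lit 57346) (nat_lit 0) (.e (nat_lit 5582) (nat_lit 310) .nil)))))))) (.g (nat_lit 4) .nil .nil))) 
(.lf (nat_lit 250361) (.g (nat_lit 3741) (.e (nat_lit 163871) (nat_lit 2) (.e (nat_lit 196677) (nat_lit 16) (.e (nat_lit 122969) (nat_lit 48) (.e (nat_lit 720937) (nat_lit 22) (.e (nat_lit 90172) (nat_lit 14) (.e (nat_lit 180244) (nat_lit 5) (.e (nat_lit 532501) (nat_lit 1) (.e (nat_lit 57690) (nat_lit 156) .nil)))))))) (.g (nat_lit 7) .nil .nil)))))) 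
(.nd (nat_lit 3) (.nd (nat_lit 4) (.nd (nat_lit 5) 
(.lf (nat_lit 250309) (.g (nat_lit 3273) (.e (nat_lit 163871) (nat_lit 2) (.e (nat_lit 196670) (nat_lit 14) (.e (nat_lit 73754) (nat_lit 8) (.e (nat_lit 557105) (nat_lit 14) (.e (nat_lit 180252) (nat_lit 10) (.e (nat_lit 573474) (nat_lit 12) (.e (nat_lit 57344) (nat_lit 0) (.e (nat_lit 5592) (nat_lit 310) .nil)))))))) (.g (nat_lit 4) .nil .nil))) 
(.lf (nat_lit 250341) (.g (nat_lit 2215) (.e (nat_lit 163871) (nat_lit 2) (.e (nat_lit 196670) (nat_lit 14) (.e (nat_lit 73755) (nat_lit 8) (.e (nat_lit 557105) (nat_lit 14) (.e (nat_lit 180252) (nat_lit 10) .nil))))) .nil))) (.nd (nat_lit 5) 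
(.lf (nat_lit 250325) (.g (nat_lit 2773) (.e (nat_lit 163871) (nat_lit 2) (.e (nat_lit 196670) (nat_lit 14) (.e (nat_lit 73754) (nat_lit 8) (.e (nat_lit 557105) (nat_lit 14) (.e (nat_lit 180252) (nat_lit 10) (.e (nat_lit 573475) (nat_lit 12) (.e (nat_lit 57344) (nat_lit 0) (.e (nat_lit 5592) (nat_lit 310) .nil)))))))) (.g (nat_lit 4) .nil .nil))) 
(.lf (nat_lit 250357) (.g (nat_lit 2746) (.e (nat_lit 163871) (nat_lit 2) (.e (nat_lit 196670) (nat_lit 14) (.e (nat_lit 73755) (nat_lit 8) (.e (nat_lit 557105) (nat_lit 14) (.e (nat_lit 180252) (nat_lit 10) (.e (nat_lit 573474) (nat_lit 12) (.e (nat_lit 57351) (nat_lit 0) (.e (nat_lit 5584) (nat_lit 310) .nil)))))))) (.g (nat_lit 4) .nil .nil))))) (.nd (nat_lit 4) (.nd (nat_lit 5) 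
(.lf (nat_lit 250317) (.g (nat_lit 4586) (.e (nat_lit 163871) (nat_lit 2) (.e (nat_lit 196670) (nat_lit 14) (.e (nat_lit 73754) (nat_lit 8) (.e (nat_lit 557105) (nat_lit 14) (.e (nat_lit 180252) (nat_lit 10) (.e (nat_lit 573474) (nat_lit 12) (.e (nat_lit 57347) (nat_lit 0) (.e (nat_lit 5591) (nat_lit 310) .nil)))))))) (.g (nat_lit 5) .nil .nil))) 
(.lf (nat_lit 250349) (.g (nat_lit 3313) (.e (nat_lit 163871) (nat_lit 2) (.e (nat_lit 196670) (nat_lit 14) (.e (nat_lit 73755) (nat_lit 8) (.e (nat_lit 557105) (nat_lit 14) (.e (nat_lit 180252) (nat_lit 10) (.e (nat_lit 573474) (nat_lit 12) (.e (nat_lit 57346) (nat_lit 0) (.e (nat_lit 5583) (nat_lit 310) .nil)))))))) (.g (nat_lit 4) .nil .nil)))) (.nd (nat_lit 5) 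
(.lf (nat_lit 250333) (.g (nat_lit 3014) (.e (nat_lit 163871) (nat_lit 2) (.e (nat_lit 196670) (nat_lit 14) (.e (nat_lit 73754) (nat_lit 8) (.e (nat_lit 557105) (nat_lit 14) (.e (nat_lit 180252) (nat_lit 10) (.e (nat_lit 573475) (nat_lit 12) (.e (nat_lit 57348) (nat_lit 0) (.e (nat_lit 5590) (nat_lit 310) .nil)))))))) (.g (nat_lit 4) .nil .nil))) 
(.lf (nat_lit 250365) (.g (nat_lit 1161) (.e (nat_lit 163871) (nat_lit 2) (.e (nat_lit 196691) (nat_lit 18) (.e (nat_lit 1349) (nat_lit 102) (.e (nat_lit 286748) (nat_lit 9) (.e (nat_lit 336008) (nat_lit 2) .nil))))) .nil)))))) (.nd (nat_lit 2) (.nd (nat_lit 3) (.nd (nat_lit 4) (.nd (nat_lit 5) 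
(.lf (nat_lit 250307) (.g (nat_lit 2782) (.e (nat_lit 163871) (nat_lit 2) (.e (nat_lit 196670) (nat_lit 14) (.e (nat_lit 73754) (nat_lit 8) (.e (nat_lit 557105) (nat_lit 14) (.e (nat_lit 180252) (nat_lit 10) (.e (nat_lit 573473) (nat_lit 12) (.e (nat_lit 65280) (nat_lit 0) (.e (nat_lit 5587) (nat_lit 310) .nil)))))))) (.g (nat_lit 4) .nil .nil))) 
(.lf (nat_lit 250339) (.g (nat_lit 3488) (.e (nat_lit 163871) (nat_lit 2) (.e (nat_lit 196670) (nat_lit 14) (.e (nat_lit 73754) (nat_lit 8) (.e (nat_lit 557105) (nat_lit 14) (.e (nat_lit 180252) (nat_lit 10) (.e (nat_lit 573475) (nat_lit 12) (.e (nat_lit 65280) (nat_lit 0) (.e (nat_lit 5587) (nat_lit 310) .nil)))))))) (.g (nat_lit 5) .nil .nil)))) (.nd (nat_lit 5) 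
(.lf (nat_lit 250323) (.g (nat_lit 3501) (.e (nat_lit 163871) (nat_lit 2) (.e (nat_lit 196670) (nat_lit 14) (.e (nat_lit 73754) (nat_lit 8) (.e (nat_lit 557105) (nat_lit 14) (.e (nat_lit 180252) (nat_lit 10) (.e (nat_lit 573475) (nat_lit 12) (.e (nat_lit 57344) (nat_lit 0) (.e (nat_lit 5588) (nat_lit 310) .nil)))))))) (.g (nat_lit 5) .nil .nil))) 
(.lf (nat_lit 250355) (.g (nat_lit 2932) (.e (nat_lit 163871) (nat_lit 2) (.e (nat_lit 196670) (nat_lit 14) (.e (nat_lit 73755) (nat_lit 8) (.e (nat_lit 557105) (nat_lit 14) (.e (nat_lit 180252) (nat_lit 10) (.e (nat_lit 573474) (nat_lit 12) (.e (nat_lit 57349) (nat_lit 0) (.e (nat_lit 5590) (nat_lit 310) .nil)))))))) (.g (nat_lit 4) .nil .nil))))) (.nd (nat_lit 4) (.nd (nat_lit 5) 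
(.lf (nat_lit 250315) (.g (nat_lit 4667) (.e (nat_lit 163871) (nat_lit 2) (.e (nat_lit 196670) (nat_lit 14) (.e (nat_lit 73754) (nat_lit 8) (.e (nat_lit 557105) (nat_lit 14) (.e (nat_lit 180252) (nat_lit 10) (.e (nat_lit 573474) (nat_lit 12) (.e (nat_lit 57346) (nat_lit 0) (.e (nat_lit 5583) (nat_lit 310) .nil)))))))) (.g (nat_lit 5) .nil .nil))) 
(.lf (nat_lit 250347) (.g (nat_lit 3277) (.e (nat_lit 163871) (nat_lit 2) (.e (nat_lit 196670) (nat_lit 14) (.e (nat_lit 73755) (nat_lit 8) (.e (nat_lit 557105) (nat_lit 14) (.e (nat_lit 180252) (nat_lit 10) (.e (nat_lit 573474) (nat_lit 12) (.e (nat_lit 57345) (nat_lit 0) (.e (nat_lit 5593) (nat_lit 310) .nil)))))))) (.g (nat_lit 4) .nil .nil)))) (.nd (nat_lit 5) 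
(.lf (nat_lit 250331) (.g (nat_lit 2943) (.e (nat_lit 163871) (nat_lit 2) (.e (nat_lit 196670) (nat_lit 14) (.e (nat_lit 73754) (nat_lit 8) (.e (nat_lit 557105) (nat_lit 14) (.e (nat_lit 180252) (nat_lit 10) (.e (nat_lit 573475) (nat_lit 12) (.e (nat_lit 57347) (nat_lit 0) (.e (nat_lit 5584) (nat_lit 310) .nil)))))))) (.g (nat_lit 4) .nil .nil))) 
(.lf (nat_lit 250363) (.g (nat_lit 3708) (.e (nat_lit 163871) (nat_lit 2) (.e (nat_lit 196677) (nat_lit 16) (.e (nat_lit 122969) (nat_lit 48) (.e (nat_lit 720941) (nat_lit 22) (.e (nat_lit 90172) (nat_lit 14) (.e (nat_lit 180244) (nat_lit 5) (.e (nat_lit 532501) (nat_lit 1) (.e (nat_lit 57690) (nat_lit 156) .nil)))))))) (.g (nat_lit 7) .nil .nil)))))) 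
(.nd (nat_lit 3) (.nd (nat_lit 4) (.nd (nat_lit 5) 
(.lf (nat_lit 250311) (.g (nat_lit 4449) (.e (nat_lit 163871) (nat_lit 2) (.e (nat_lit 196670) (nat_lit 14) (.e (nat_lit 73754) (nat_lit 8) (.e (nat_lit 557105) (nat_lit 14) (.e (nat_lit 180252) (nat_lit 10) (.e (nat_lit 573474) (nat_lit 12) (.e (nat_lit 57345) (nat_lit 0) (.e (nat_lit 5590) (nat_lit 310) .nil)))))))) (.g (nat_lit 5) .nil .nil))) 
(.lf (nat_lit 250343) (.g (nat_lit 3076) (.e (nat_lit 163871) (nat_lit 2) (.e (nat_lit 196670) (nat_lit 14) (.e (nat_lit 73755) (nat_lit 8) (.e (nat_lit 557105) (nat_lit 14) (.e (nat_lit 180252) (nat_lit 10) (.e (nat_lit 573474) (nat_lit 12) (.e (nat_lit 57344) (nat_lit 0) (.e (nat_lit 5589) (nat_lit 310) .nil)))))))) (.g (nat_lit 4) .nil .nil)))) (.nd (nat_lit 5) 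
(.lf (nat_lit 250327) (.g (nat_lit 3004) (.e (nat_lit 163871) (nat_lit 2) (.e (nat_lit 196670) (nat_lit 14) (.e (nat_lit 73754) (nat_lit 8) (.e (nat_lit 557105) (nat_lit 14) (.e (nat_lit 180252) (nat_lit 10) (.e (nat_lit 573475) (nat_lit 12) (.e (nat_lit 57345) (nat_lit 0) (.e (nat_lit 5591) (nat_lit 310) .nil)))))))) (.g (nat_lit 4) .nil .nil))) 
(.lf (nat_lit 250359) (.g (nat_lit 2627) (.e (nat_lit 163871) (nat_lit 2) (.e (nat_lit 196670) (nat_lit 14) (.e (nat_lit 73755) (nat_lit 8) (.e (nat_lit 557105) (nat_lit 14) (.e (nat_lit 180252) (nat_lit 10) (.e (nat_lit 573474) (nat_lit 12) (.e (nat_lit 57355) (nat_lit 0) (.e (nat_lit 5588) (nat_lit 310) .nil)))))))) (.g (nat_lit 4) .nil .nil))))) (.nd (nat_lit 4) (.nd (nat_lit 5) 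
(.lf (nat_lit 250319) (.g (nat_lit 4524) (.e (nat_lit 163871) (nat_lit 2) (.e (nat_lit 196670) (nat_lit 14) (.e (nat_lit 73754) (nat_lit 8) (.e (nat_lit 557105) (nat_lit 14) (.e (nat_lit 180252) (nat_lit 10) (.e (nat_lit 573474) (nat_lit 12) (.e (nat_lit 57348) (nat_lit 0) (.e (nat_lit 5591) (nat_lit 310) .nil)))))))) (.g (nat_lit 5) .nil .nil))) 
(.lf (nat_lit 250351) (.g (nat_lit 3218) (.e (nat_lit 163871) (nat_lit 2) (.e (nat_lit 196670) (nat_lit 14) (.e (nat_lit 73755) (nat_lit 8) (.e (nat_lit 557105) (nat_lit 14) (.e (nat_lit 180252) (nat_lit 10) (.e (nat_lit 573474) (nat_lit 12) (.e (nat_lit 57347) (nat_lit 0) (.e (nat_lit 5591) (nat_lit 310) .nil)))))))) (.g (nat_lit 4) .nil .nil)))) (.nd (nat_lit 5) 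
(.lf (nat_lit 250335) (.g (nat_lit 2817) (.e (nat_lit 163871) (nat_lit 2) (.e (nat_lit 196670) (nat_lit 14) (.e (nat_lit 73754) (nat_lit 8) (.e (nat_lit 557105) (nat_lit 14) (.e (nat_lit 180252) (nat_lit 10) (.e (nat_lit 573475) (nat_lit 12) (.e (nat_lit 57349) (nat_lit 0) (.e (nat_lit 5584) (nat_lit 310) .nil)))))))) (.g (nat_lit 4) .nil .nil))) 
(.lf (nat_lit 250367) (.g (nat_lit 663) (.e (nat_lit 163872) (nat_lit 3) (.e (nat_lit 204813) (nat_lit 9) (.e (nat_lit 426200) (nat_lit 9) .nil))) .nil))))))))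

noncomputable def tv3243 : DT := (.nd (nat_lit 0) (.nd (nat_lit 1) (.nd (nat_lit 2) (.nd (nat_lit 3) (.nd (nat_lit 4) (.nd (nat_lit 5) 
(.lf (nat_lit 250368) (.g (nat_lit 2308) (.e (nat_lit 163872) (nat_lit 3) (.e (nat_lit 204837) (nat_lit 20) (.e (nat_lit 114715) (nat_lit 22) (.e (nat_lit 90170) (nat_lit 13) (.e (nat_lit 172065) (nat_lit 3) .nil))))) .nil)) 
(.lf (nat_lit 250400) (.g (nat_lit 2706) (.e (nat_lit 163873) (nat_lit 3) (.e (nat_lit 204830) (nat_lit 18) (.e (nat_lit 57852) (nat_lit 252) (.e (nat_lit 57431) (nat_lit 16) (.e (nat_lit 368676) (nat_lit 21) (.e (nat_lit 516146) (nat_lit 9) (.e (nat_lit 426422) (nat_lit 16) (.e (nat_lit 57688) (nat_lit 156) .nil)))))))) (.g (nat_lit 4) .nil .nil)))) (.nd (nat_lit 5) 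
(.lf (nat_lit 250384) (.g (nat_lit 3198) (.e (nat_lit 163873) (nat_lit 3) (.e (nat_lit 204829) (nat_lit 18) (.e (nat_lit 57847) (nat_lit 252) (.e (nat_lit 57411) (nat_lit 12) (.e (nat_lit 336019) (nat_lit 3) (.e (nat_lit 98356) (nat_lit 26) (.e (nat_lit 426422) (nat_lit 16) (.e (nat_lit 57687) (nat_lit 156) .nil)))))))) (.g (nat_lit 4) .nil .nil))) 
(.lf (nat_lit 250416) (.g (nat_lit 2358) (.e (nat_lit 163873) (nat_lit 3) (.e (nat_lit 204837) (nat_lit 20) (.e (nat_lit 114714) (nat_lit 22) (.e (nat_lit 90174) (nat_lit 14) (.e (nat_lit 180243) (nat_lit 5) (.e (nat_lit 532504) (nat_lit 1) (.e (nat_lit 57685) (nat_lit 156) .nil))))))) (.g (nat_lit 4) .nil .nil))))) (.nd (nat_lit 4) (.nd (nat_lit 5) 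
(.lf (nat_lit 250376) (.g (nat_lit 1477) (.e (nat_lit 163873) (nat_lit 3) (.e (nat_lit 204809) (nat_lit 9) (.e (nat_lit 426186) (nat_lit 9) (.e (nat_lit 426568) (nat_lit 34) (.e (nat_lit 393253) (nat_lit 18) .nil))))) .nil)) 
(.lf (nat_lit 250408) (.g (nat_lit 5025) (.e (nat_lit 163873) (nat_lit 3) (.e (nat_lit 204837) (nat_lit 20) (.e (nat_lit 114714) (nat_lit 22) (.e (nat_lit 90172) (nat_lit 14) (.e (nat_lit 180243) (nat_lit 5) (.e (nat_lit 532503) (nat_lit 1) (.e (nat_lit 57688) (nat_lit 156) .nil))))))) (.g (nat_lit 7) .nil .nil)))) (.nd (nat_lit 5) 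
(.lf (nat_lit 250392) (.g (nat_lit 3622) (.e (nat_lit 163873) (nat_lit 3) (.e (nat_lit 204829) (nat_lit 18) (.e (nat_lit 57927) (nat_lit 282) (.e (nat_lit 164084) (nat_lit 73) (.e (nat_lit 336027) (nat_lit 3) (.e (nat_lit 98365) (nat_lit 26) (.e (nat_lit 426098) (nat_lit 1) (.e (nat_lit 164327) (nat_lit 230) .nil)))))))) (.g (nat_lit 6) .nil .nil))) 
(.lf (nat_lit 250424) (.g (nat_lit 2379) (.e (nat_lit 163873) (nat_lit 3) (.e (nat_lit 204837) (nat_lit 20) (.e (nat_lit 114716) (nat_lit 22) (.e (nat_lit 90174) (nat_lit 14) (.e (nat_lit 180243) (nat_lit 5) (.e (nat_lit 532503) (nat_lit 1) (.e (nat_lit 57685) (nat_lit 156) .nil))))))) (.g (nat_lit 4) .nil .nil)))))) (.nd (nat_lit 3) (.nd (nat_lit 4) (.nd (nat_lit 5) 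
(.lf (nat_lit 250372) (.g (nat_lit 2346) (.e (nat_lit 163872) (nat_lit 3) (.e (nat_lit 204838) (nat_lit 20) (.e (nat_lit 114719) (nat_lit 23) (.e (nat_lit 98365) (nat_lit 26) (.e (nat_lit 426138) (nat_lit 3) .nil))))) .nil)) 
(.lf (nat_lit 250404) (.g (nat_lit 2416) (.e (nat_lit 163873) (nat_lit 3) (.e (nat_lit 204837) (nat_lit 20) (.e (nat_lit 114714) (nat_lit 22) (.e (nat_lit 90172) (nat_lit 14) (.e (nat_lit 180242) (nat_lit 5) (.e (nat_lit 532503) (nat_lit 1) (.e (nat_lit 57688) (nat_lit 156) .nil))))))) (.g (nat_lit 4) .nil .nil)))) (.nd (nat_lit 5) 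
(.lf (nat_lit 250388) (.g (nat_lit 2055) (.e (nat_lit 163873) (nat_lit 3) (.e (nat_lit 204829) (nat_lit 18) (.e (nat_lit 57847) (nat_lit 252) (.e (nat_lit 57432) (nat_lit 16) .nil)))) .nil)) 
(.lf (nat_lit 250420) (.g (nat_lit 2899) (.e (nat_lit 163873) (nat_lit 3) (.e (nat_lit 204837) (nat_lit 20) (.e (nat_lit 114716) (nat_lit 22) (.e (nat_lit 90172) (nat_lit 14) (.e (nat_lit 180244) (nat_lit 5) (.e (nat_lit 532503) (nat_lit 1) (.e (nat_lit 57685) (nat_lit 156) .nil))))))) (.g (nat_lit 5) .nil .nil))))) (.nd (nat_lit 4) (.nd (nat_lit 5) 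
(.lf (nat_lit 250380) (.g (nat_lit 1948) (.e (nat_lit 163873) (nat_lit 3) (.e (nat_lit 204813) (nat_lit 9) (.e (nat_lit 426108) (nat_lit 1) (.e (nat_lit 164421) (nat_lit 272) .nil)))) .nil)) 
(.lf (nat_lit 250412) (.g (nat_lit 2459) (.e (nat_lit 163873) (nat_lit 3) (.e (nat_lit 204837) (nat_lit 20) (.e (nat_lit 114714) (nat_lit 22) (.e (nat_lit 90172) (nat_lit 14) (.e (nat_lit 180244) (nat_lit 5) (.e (nat_lit 532503) (nat_lit 1) (.e (nat_lit 57687) (nat_lit 156) .nil))))))) (.g (nat_lit 4) .nil .nil)))) (.nd (nat_lit 5) 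
(.lf (nat_lit 250396) (.g (nat_lit 1151) (.e (nat_lit 163873) (nat_lit 3) (.e (nat_lit 204829) (nat_lit 18) (.e (nat_lit 57930) (nat_lit 282) .nil))) .nil)) 
(.lf (nat_lit 250428) (.g (nat_lit 2755) (.e (nat_lit 163873) (nat_lit 3) (.e (nat_lit 204838) (nat_lit 20) (.e (nat_lit 114714) (nat_lit 22) (.e (nat_lit 90170) (nat_lit 13) (.e (nat_lit 172065) (nat_lit 3) (.e (nat_lit 204831) (nat_lit 18) (.e (nat_lit 57688) (nat_lit 156) .nil))))))) (.g (nat_lit 4) .nil .nil))))))) (.nd (nat_lit 2) (.nd (nat_lit 3) (.nd (nat_lit 4) (.nd (nat_lit 5) 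
(.lf (nat_lit 250370) (.g (nat_lit 2084) (.e (nat_lit 163872) (nat_lit 3) (.e (nat_lit 204838) (nat_lit 20) (.e (nat_lit 114719) (nat_lit 23) (.e (nat_lit 98358) (nat_lit 26) (.e (nat_lit 426436) (nat_lit 18) .nil))))) .nil)) 
(.lf (nat_lit 250402) (.g (nat_lit 4419) (.e (nat_lit 163873) (nat_lit 3) (.e (nat_lit 204837) (nat_lit 20) (.e (nat_lit 114714) (nat_lit 22) (.e (nat_lit 90170) (nat_lit 13) (.e (nat_lit 172065) (nat_lit 3) (.e (nat_lit 204829) (nat_lit 18) (.e (nat_lit 57688) (nat_lit 156) .nil))))))) (.g (nat_lit 6) .nil .nil)))) (.nd (nat_lit 5) 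
(.lf (nat_lit 250386) (.g (nat_lit 3085) (.e (nat_lit 163873) (nat_lit 3) (.e (nat_lit 204829) (nat_lit 18) (.e (nat_lit 57847) (nat_lit 252) (.e (nat_lit 57411) (nat_lit 12) (.e (nat_lit 336019) (nat_lit 3) (.e (nat_lit 98384) (nat_lit 32) (.e (nat_lit 475161) (nat_lit 21) (.e (nat_lit 7280) (nat_lit 386) .nil)))))))) (.g (nat_lit 4) .nil .nil))) 
(.lf (nat_lit 250418) (.g (nat_lit 2771) (.e (nat_lit 163873) (nat_lit 3) (.e (nat_lit 204837) (nat_lit 20) (.e (nat_lit 114714) (nat_lit 22) (.e (nat_lit 90185) (nat_lit 17) (.e (nat_lit 237594) (nat_lit 3) (.e (nat_lit 204829) (nat_lit 18) (.e (nat_lit 57688) (nat_lit 156) .nil))))))) (.g (nat_lit 4) .nil .nil))))) (.nd (nat_lit 4) (.nd (nat_lit 5) 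
(.lf (nat_lit 250378) (.g (nat_lit 1145) (.e (nat_lit 163873) (nat_lit 3) (.e (nat_lit 204809) (nat_lit 9) (.e (nat_lit 426200) (nat_lit 9) (.e (nat_lit 426564) (nat_lit 34) .nil)))) .nil)) 
(.lf (nat_lit 250410) (.g (nat_lit 3734) (.e (nat_lit 163873) (nat_lit 3) (.e (nat_lit 204837) (nat_lit 20) (.e (nat_lit 114714) (nat_lit 22) (.e (nat_lit 90172) (nat_lit 14) (.e (nat_lit 180244) (nat_lit 5) (.e (nat_lit 532502) (nat_lit 1) (.e (nat_lit 57688) (nat_lit 156) .nil))))))) (.g (nat_lit 6) .nil .nil)))) (.nd (nat_lit 5) 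
(.lf (nat_lit 250394) (.g (nat_lit 4016) (.e (nat_lit 163873) (nat_lit 3) (.e (nat_lit 204829) (nat_lit 18) (.e (nat_lit 57927) (nat_lit 282) (.e (nat_lit 164084) (nat_lit 73) (.e (nat_lit 336027) (nat_lit 3) (.e (nat_lit 98366) (nat_lit 27) (.e (nat_lit 434209) (nat_lit 18) (.e (nat_lit 5224) (nat_lit 296) .nil)))))))) (.g (nat_lit 6) .nil .nil))) 
(.lf (nat_lit 250426) (.g (nat_lit 2008) (.e (nat_lit 163873) (nat_lit 3) (.e (nat_lit 204837) (nat_lit 20) (.e (nat_lit 114718) (nat_lit 23) (.e (nat_lit 98384) (nat_lit 32) (.e (nat_lit 475177) (nat_lit 24) .nil))))) .nil))))) (.nd (nat_lit 3) (.nd (nat_lit 4) (.nd (nat_lit 5) 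
(.lf (nat_lit 250374) (.g (nat_lit 1544) (.e (nat_lit 163872) (nat_lit 3) (.e (nat_lit 204861) (nat_lit 26) (.e (nat_lit 336076) (nat_lit 9) (.e (nat_lit 336454) (nat_lit 34) .nil)))) .nil)) 
(.lf (nat_lit 250406) (.g (nat_lit 2869) (.e (nat_lit 163873) (nat_lit 3) (.e (nat_lit 204837) (nat_lit 20) (.e (nat_lit 114714) (nat_lit 22) (.e (nat_lit 90172) (nat_lit 14) (.e (nat_lit 180243) (nat_lit 5) (.e (nat_lit 532502) (nat_lit 1) (.e (nat_lit 57688) (nat_lit 156) .nil))))))) (.g (nat_lit 4) .nil .nil)))) (.nd (nat_lit 5) 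
(.lf (nat_lit 250390) (.g (nat_lit 1605) (.e (nat_lit 163873) (nat_lit 3) (.e (nat_lit 204829) (nat_lit 18) (.e (nat_lit 57927) (nat_lit 282) (.e (nat_lit 164084) (nat_lit 73) .nil)))) .nil)) 
(.lf (nat_lit 250422) (.g (nat_lit 4800) (.e (nat_lit 163873) (nat_lit 3) (.e (nat_lit 204837) (nat_lit 20) (.e (nat_lit 114716) (nat_lit 22) (.e (nat_lit 90174) (nat_lit 14) (.e (nat_lit 180243) (nat_lit 5) (.e (nat_lit 532499) (nat_lit 1) (.e (nat_lit 57688) (nat_lit 156) .nil))))))) (.g (nat_lit 7) .nil .nil))))) (.nd (nat_lit 4) (.nd (nat_lit 5) 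
(.lf (nat_lit 250382) (.g (nat_lit 4474) (.e (nat_lit 163873) (nat_lit 3) (.e (nat_lit 204813) (nat_lit 9) (.e (nat_lit 426139) (nat_lit 3) (.e (nat_lit 204833) (nat_lit 19) (.e (nat_lit 106541) (nat_lit 13) (.e (nat_lit 122936) (nat_lit 23) (.e (nat_lit 516117) (nat_lit 1) (.e (nat_lit 164329) (nat_lit 230) .nil)))))))) (.g (nat_lit 4) .nil .nil))) 
(.lf (nat_lit 250414) (.g (nat_lit 2475) (.e (nat_lit 163873) (nat_lit 3) (.e (nat_lit 204837) (nat_lit 20) (.e (nat_lit 114714) (nat_lit 22) (.e (nat_lit 90174) (nat_lit 14) (.e (nat_lit 180243) (nat_lit 5) (.e (nat_lit 532501) (nat_lit 1) (.e (nat_lit 57685) (nat_lit 156) .nil))))))) (.g (nat_lit 4) .nil .nil)))) (.nd (nat_lit 5) 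
(.lf (nat_lit 250398) (.g (nat_lit 2477) (.e (nat_lit 163873) (nat_lit 3) (.e (nat_lit 204829) (nat_lit 18) (.e (nat_lit 57931) (nat_lit 282) (.e (nat_lit 164084) (nat_lit 73) (.e (nat_lit 336012) (nat_lit 2) .nil))))) .nil)) 
(.lf (nat_lit 250430) (.g (nat_lit 2565) (.e (nat_lit 163873) (nat_lit 3) (.e (nat_lit 204838) (nat_lit 20) (.e (nat_lit 114714) (nat_lit 22) (.e (nat_lit 90172) (nat_lit 14) (.e (nat_lit 180243) (nat_lit 5) .nil))))) .nil))))))) (.nd (nat_lit 1) (.nd (nat_lit 2) (.nd (nat_lit 3) (.nd (nat_lit 4) (.nd (nat_lit 5) 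
(.lf (nat_lit 250369) (.g (nat_lit 1896) (.e (nat_lit 163872) (nat_lit 3) (.e (nat_lit 204838) (nat_lit 20) (.e (nat_lit 114715) (nat_lit 22) (.e (nat_lit 90174) (nat_lit 14) (.e (nat_lit 180243) (nat_lit 5) .nil))))) .nil)) 
(.lf (nat_lit 250401) (.g (nat_lit 2626) (.e (nat_lit 163873) (nat_lit 3) (.e (nat_lit 204836) (nat_lit 20) (.e (nat_lit 114719) (nat_lit 23) (.e (nat_lit 98365) (nat_lit 26) (.e (nat_lit 426133) (nat_lit 3) (.e (nat_lit 204829) (nat_lit 18) (.e (nat_lit 57688) (nat_lit 156) .nil))))))) (.g (nat_lit 5) .nil .nil)))) (.nd (nat_lit 5) 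
(.lf (nat_lit 250385) (.g (nat_lit 3085) (.e (nat_lit 163873) (nat_lit 3) (.e (nat_lit 204829) (nat_lit 18) (.e (nat_lit 57847) (nat_lit 252) (.e (nat_lit 57411) (nat_lit 12) (.e (nat_lit 336019) (nat_lit 3) (.e (nat_lit 98358) (nat_lit 26) (.e (nat_lit 426422) (nat_lit 16) (.e (nat_lit 57688) (nat_lit 156) .nil)))))))) (.g (nat_lit 4) .nil .nil))) 
(.lf (nat_lit 250417) (.g (nat_lit 2851) (.e (nat_lit 163873) (nat_lit 3) (.e (nat_lit 204837) (nat_lit 20) (.e (nat_lit 114714) (nat_lit 22) (.e (nat_lit 90185) (nat_lit 17) (.e (nat_lit 237592) (nat_lit 3) (.e (nat_lit 204829) (nat_lit 18) (.e (nat_lit 57688) (nat_lit 156) .nil))))))) (.g (nat_lit 4) .nil .nil))))) (.nd (nat_lit 4) (.nd (nat_lit 5) 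
(.lf (nat_lit 250377) (.g (nat_lit 1471) (.e (nat_lit 163873) (nat_lit 3) (.e (nat_lit 204809) (nat_lit 9) (.e (nat_lit 426198) (nat_lit 9) (.e (nat_lit 426568) (nat_lit 34) .nil)))) .nil)) 
(.lf (nat_lit 250409) (.g (nat_lit 2982) (.e (nat_lit 163873) (nat_lit 3) (.e (nat_lit 204837) (nat_lit 20) (.e (nat_lit 114714) (nat_lit 22) (.e (nat_lit 90172) (nat_lit 14) (.e (nat_lit 180244) (nat_lit 5) (.e (nat_lit 532499) (nat_lit 1) (.e (nat_lit 57686) (nat_lit 156) .nil))))))) (.g (nat_lit 4) .nil .nil)))) (.nd (nat_lit 5) 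
(.lf (nat_lit 250393) (.g (nat_lit 3256) (.e (nat_lit 163873) (nat_lit 3) (.e (nat_lit 204829) (nat_lit 18) (.e (nat_lit 57927) (nat_lit 282) (.e (nat_lit 164084) (nat_lit 73) (.e (nat_lit 336027) (nat_lit 3) (.e (nat_lit 98365) (nat_lit 26) (.e (nat_lit 426100) (nat_lit 1) (.e (nat_lit 164332) (nat_lit 230) .nil)))))))) (.g (nat_lit 5) .nil .nil))) 
(.lf (nat_lit 250425) (.g (nat_lit 4242) (.e (nat_lit 163873) (nat_lit 3) (.e (nat_lit 204837) (nat_lit 20) (.e (nat_lit 114716) (nat_lit 22) (.e (nat_lit 90174) (nat_lit 14) (.e (nat_lit 180243) (nat_lit 5) (.e (nat_lit 532503) (nat_lit 1) (.e (nat_lit 57688) (nat_lit 156) .nil))))))) (.g (nat_lit 7) .nil .nil)))))) (.nd (nat_lit 3) (.nd (nat_lit 4) (.nd (nat_lit 5) 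
(.lf (nat_lit 250373) (.g (nat_lit 769) (.e (nat_lit 163872) (nat_lit 3) (.e (nat_lit 204861) (nat_lit 26) (.e (nat_lit 336076) (nat_lit 9) .nil))) .nil)) 
(.lf (nat_lit 250405) (.g (nat_lit 4898) (.e (nat_lit 163873) (nat_lit 3) (.e (nat_lit 204837) (nat_lit 20) (.e (nat_lit 114714) (nat_lit 22) (.e (nat_lit 90172) (nat_lit 14) (.e (nat_lit 180243) (nat_lit 5) (.e (nat_lit 532499) (nat_lit 1) (.e (nat_lit 57688) (nat_lit 156) .nil))))))) (.g (nat_lit 6) .nil .nil)))) (.nd (nat_lit 5) 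
(.lf (nat_lit 250389) (.g (nat_lit 1158) (.e (nat_lit 163873) (nat_lit 3) (.e (nat_lit 204829) (nat_lit 18) (.e (nat_lit 57854) (nat_lit 252) .nil))) .nil)) 
(.lf (nat_lit 250421) (.g (nat_lit 4446) (.e (nat_lit 163873) (nat_lit 3) (.e (nat_lit 204837) (nat_lit 20) (.e (nat_lit 114716) (nat_lit 22) (.e (nat_lit 90172) (nat_lit 14) (.e (nat_lit 180244) (nat_lit 5) (.e (nat_lit 532503) (nat_lit 1) (.e (nat_lit 57688) (nat_lit 156) .nil))))))) (.g (nat_lit 7) .nil .nil))))) (.nd (nat_lit 4) (.nd (nat_lit 5) 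
(.lf (nat_lit 250381) (.g (nat_lit 554) (.e (nat_lit 163873) (nat_lit 3) (.e (nat_lit 204813) (nat_lit 9) (.e (nat_lit 426124) (nat_lit 2) .nil))) .nil)) 
(.lf (nat_lit 250413) (.g (nat_lit 2604) (.e (nat_lit 163873) (nat_lit 3) (.e (nat_lit 204837) (nat_lit 20) (.e (nat_lit 114714) (nat_lit 22) (.e (nat_lit 90174) (nat_lit 14) (.e (nat_lit 180243) (nat_lit 5) (.e (nat_lit 532499) (nat_lit 1) (.e (nat_lit 57686) (nat_lit 156) .nil))))))) (.g (nat_lit 4) .nil .nil)))) (.nd (nat_lit 5) 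
(.lf (nat_lit 250397) (.g (nat_lit 2187) (.e (nat_lit 163873) (nat_lit 3) (.e (nat_lit 204829) (nat_lit 18) (.e (nat_lit 57931) (nat_lit 282) (.e (nat_lit 164084) (nat_lit 73) .nil)))) .nil)) 
(.lf (nat_lit 250429) (.g (nat_lit 3701) (.e (nat_lit 163873) (nat_lit 3) (.e (nat_lit 204838) (nat_lit 20) (.e (nat_lit 114714) (nat_lit 22) (.e (nat_lit 90170) (nat_lit 13) (.e (nat_lit 172067) (nat_lit 3) (.e (nat_lit 204829) (nat_lit 18) (.e (nat_lit 57688) (nat_lit 156) .nil))))))) (.g (nat_lit 5) .nil .nil))))))) (.nd (nat_lit 2) (.nd (nat_lit 3) (.nd (nat_lit 4) (.nd (nat_lit 5) 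
(.lf (nat_lit 250371) (.g (nat_lit 1631) (.e (nat_lit 163872) (nat_lit 3) (.e (nat_lit 204838) (nat_lit 20) (.e (nat_lit 114719) (nat_lit 23) (.e (nat_lit 98363) (nat_lit 26) .nil)))) .nil)) 
(.lf (nat_lit 250403) (.g (nat_lit 3155) (.e (nat_lit 163873) (nat_lit 3) (.e (nat_lit 204837) (nat_lit 20) (.e (nat_lit 114714) (nat_lit 22) (.e (nat_lit 90170) (nat_lit 13) (.e (nat_lit 172065) (nat_lit 3) (.e (nat_lit 204831) (nat_lit 18) (.e (nat_lit 57688) (nat_lit 156) .nil))))))) (.g (nat_lit 4) .nil .nil)))) (.nd (nat_lit 5) 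
(.lf (nat_lit 250387) (.g (nat_lit 2054) (.e (nat_lit 163873) (nat_lit 3) (.e (nat_lit 204829) (nat_lit 18) (.e (nat_lit 57847) (nat_lit 252) (.e (nat_lit 57430) (nat_lit 16) .nil)))) .nil)) 
(.lf (nat_lit 250419) (.g (nat_lit 4867) (.e (nat_lit 163873) (nat_lit 3) (.e (nat_lit 204837) (nat_lit 20) (.e (nat_lit 114716) (nat_lit 22) (.e (nat_lit 90172) (nat_lit 14) (.e (nat_lit 180244) (nat_lit 5) (.e (nat_lit 532499) (nat_lit 1) (.e (nat_lit 57688) (nat_lit 156) .nil))))))) (.g (nat_lit 7) .nil .nil))))) (.nd (nat_lit 4) (.nd (nat_lit 5) 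
(.lf (nat_lit 250379) (.g (nat_lit 1207) (.e (nat_lit 163873) (nat_lit 3) (.e (nat_lit 204813) (nat_lit 9) (.e (nat_lit 426012) (nat_lit 0) (.e (nat_lit 7309) (nat_lit 388) .nil)))) .nil)) 
(.lf (nat_lit 250411) (.g (nat_lit 3890) (.e (nat_lit 163873) (nat_lit 3) (.e (nat_lit 204837) (nat_lit 20) (.e (nat_lit 114714) (nat_lit 22) (.e (nat_lit 90172) (nat_lit 14) (.e (nat_lit 180244) (nat_lit 5) (.e (nat_lit 532503) (nat_lit 1) (.e (nat_lit 57685) (nat_lit 156) .nil))))))) (.g (nat_lit 6) .nil .nil)))) (.nd (nat_lit 5) 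
(.lf (nat_lit 250395) (.g (nat_lit 3291) (.e (nat_lit 163873) (nat_lit 3) (.e (nat_lit 204829) (nat_lit 18) (.e (nat_lit 57927) (nat_lit 282) (.e (nat_lit 164084) (nat_lit 73) (.e (nat_lit 336027) (nat_lit 3) (.e (nat_lit 98367) (nat_lit 27) (.e (nat_lit 434209) (nat_lit 18) (.e (nat_lit 5224) (nat_lit 296) .nil)))))))) (.g (nat_lit 5) .nil .nil))) 
(.lf (nat_lit 250427) (.g (nat_lit 3899) (.e (nat_lit 163873) (nat_lit 3) (.e (nat_lit 204838) (nat_lit 20) (.e (nat_lit 114714) (nat_lit 22) (.e (nat_lit 90170) (nat_lit 13) (.e (nat_lit 172065) (nat_lit 3) (.e (nat_lit 204829) (nat_lit 18) (.e (nat_lit 57688) (nat_lit 156) .nil))))))) (.g (nat_lit 5) .nil .nil)))))) (.nd (nat_lit 3) (.nd (nat_lit 4) (.nd (nat_lit 5) 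
(.lf (nat_lit 250375) (.g (nat_lit 2520) (.e (nat_lit 163872) (nat_lit 3) (.e (nat_lit 204863) (nat_lit 27) (.e (nat_lit 344117) (nat_lit 21) (.e (nat_lit 516130) (nat_lit 3) (.e (nat_lit 221204) (nat_lit 20) .nil))))) .nil)) 
(.lf (nat_lit 250407) (.g (nat_lit 2573) (.e (nat_lit 163873) (nat_lit 3) (.e (nat_lit 204837) (nat_lit 20) (.e (nat_lit 114714) (nat_lit 22) (.e (nat_lit 90172) (nat_lit 14) (.e (nat_lit 180243) (nat_lit 5) (.e (nat_lit 532503) (nat_lit 1) (.e (nat_lit 57685) (nat_lit 156) .nil))))))) (.g (nat_lit 4) .nil .nil)))) (.nd (nat_lit 5) 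
(.lf (nat_lit 250391) (.g (nat_lit 3917) (.e (nat_lit 163873) (nat_lit 3) (.e (nat_lit 204829) (nat_lit 18) (.e (nat_lit 57927) (nat_lit 282) (.e (nat_lit 164084) (nat_lit 73) (.e (nat_lit 336012) (nat_lit 2) (.e (nat_lit 90185) (nat_lit 17) (.e (nat_lit 237582) (nat_lit 1) (.e (nat_lit 164327) (nat_lit 230) .nil)))))))) (.g (nat_lit 6) .nil .nil))) 
(.lf (nat_lit 250423) (.g (nat_lit 3144) (.e (nat_lit 163873) (nat_lit 3) (.e (nat_lit 204837) (nat_lit 20) (.e (nat_lit 114716) (nat_lit 22) (.e (nat_lit 90174) (nat_lit 14) (.e (nat_lit 180243) (nat_lit 5) (.e (nat_lit 532502) (nat_lit 1) (.e (nat_lit 57688) (nat_lit 156) .nil))))))) (.g (nat_lit 5) .nil .nil))))) (.nd (nat_lit 4) (.nd (nat_lit 5) 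
(.lf (nat_lit 250383) (.g (nat_lit 2343) (.e (nat_lit 163873) (nat_lit 3) (.e (nat_lit 204829) (nat_lit 18) (.e (nat_lit 57847) (nat_lit 252) (.e (nat_lit 57410) (nat_lit 12) (.e (nat_lit 336019) (nat_lit 3) .nil))))) .nil)) 
(.lf (nat_lit 250415) (.g (nat_lit 3334) (.e (nat_lit 163873) (nat_lit 3) (.e (nat_lit 204837) (nat_lit 20) (.e (nat_lit 114714) (nat_lit 22) (.e (nat_lit 90174) (nat_lit 14) (.e (nat_lit 180243) (nat_lit 5) (.e (nat_lit 532503) (nat_lit 1) (.e (nat_lit 57685) (nat_lit 156) .nil))))))) (.g (nat_lit 5) .nil .nil)))) (.nd (nat_lit 5) 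
(.lf (nat_lit 250399) (.g (nat_lit 3024) (.e (nat_lit 163873) (nat_lit 3) (.e (nat_lit 204829) (nat_lit 18) (.e (nat_lit 57931) (nat_lit 282) (.e (nat_lit 164084) (nat_lit 73) (.e (nat_lit 336012) (nat_lit 2) (.e (nat_lit 90185) (nat_lit 17) (.e (nat_lit 237584) (nat_lit 1) (.e (nat_lit 164327) (nat_lit 230) .nil)))))))) (.g (nat_lit 4) .nil .nil))) 
(.lf (nat_lit 250431) (.g (nat_lit 2837) (.e (nat_lit 163873) (nat_lit 3) (.e (nat_lit 204838) (nat_lit 20) (.e (nat_lit 114714) (nat_lit 22) (.e (nat_lit 90172) (nat_lit 14) (.e (nat_lit 180243) (nat_lit 5) (.e (nat_lit 532503) (nat_lit 1) (.e (nat_lit 57685) (nat_lit 156) .nil))))))) (.g (nat_lit 4) .nil .nil)))))))))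

noncomputable def tv3244 : DT := (.nd (nat_lit 0) (.nd (nat_lit 1) (.nd (nat_lit 2) (.nd (nat_lit 3) (.nd (nat_lit 4) (.nd (nat_lit 5) 
(.lf (nat_lit 250432) (.g (nat_lit 4593) (.e (nat_lit 163873) (nat_lit 3) (.e (nat_lit 204838) (nat_lit 20) (.e (nat_lit 114714) (nat_lit 22) (.e (nat_lit 90172) (nat_lit 14) (.e (nat_lit 180243) (nat_lit 5) (.e (nat_lit 532503) (nat_lit 1) (.e (nat_lit 57688) (nat_lit 156) .nil))))))) (.g (nat_lit 6) .nil .nil))) 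
(.lf (nat_lit 250464) (.g (nat_lit 1660) (.e (nat_lit 163873) (nat_lit 3) (.e (nat_lit 204838) (nat_lit 20) (.e (nat_lit 114719) (nat_lit 23) (.e (nat_lit 98363) (nat_lit 26) .nil)))) .nil))) (.nd (nat_lit 5) 
(.lf (nat_lit 250448) (.g (nat_lit 2529) (.e (nat_lit 163873) (nat_lit 3) (.e (nat_lit 204838) (nat_lit 20) (.e (nat_lit 114714) (nat_lit 22) (.e (nat_lit 90185) (nat_lit 17) (.e (nat_lit 237592) (nat_lit 3) (.e (nat_lit 204829) (nat_lit 18) (.e (nat_lit 57688) (nat_lit 156) .nil))))))) (.g (nat_lit 4) .nil .nil))) 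
(.lf (nat_lit 250480) (.g (nat_lit 2148) (.e (nat_lit 163873) (nat_lit 3) (.e (nat_lit 204854) (nat_lit 26) (.e (nat_lit 336211) (nat_lit 13) (.e (nat_lit 393225) (nat_lit 9) (.e (nat_lit 335995) (nat_lit 1) .nil))))) .nil)))) (.nd (nat_lit 4) (.nd (nat_lit 5) 
(.lf (nat_lit 250440) (.g (nat_lit 2913) (.e (nat_lit 163873) (nat_lit 3) (.e (nat_lit 204838) (nat_lit 20) (.e (nat_lit 114714) (nat_lit 22) (.e (nat_lit 90174) (nat_lit 14) (.e (nat_lit 180243) (nat_lit 5) (.e (nat_lit 532499) (nat_lit 1) (.e (nat_lit 57686) (nat_lit 156) .nil))))))) (.g (nat_lit 4) .nil .nil))) 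
(.lf (nat_lit 250472) (.g (nat_lit 3218) (.e (nat_lit 163873) (nat_lit 3) (.e (nat_lit 204853) (nat_lit 26) (.e (nat_lit 336019) (nat_lit 3) (.e (nat_lit 98342) (nat_lit 20) (.e (nat_lit 221215) (nat_lit 23) (.e (nat_lit 204821) (nat_lit 17) (.e (nat_lit 1086) (nat_lit 81) (.e (nat_lit 5598) (nat_lit 310) .nil)))))))) (.g (nat_lit 5) .nil .nil)))) (.nd (nat_lit 5) 
(.lf (nat_lit 250456) (.g (nat_lit 3148) (.e (nat_lit 163873) (nat_lit 3) (.e (nat_lit 204838) (nat_lit 20) (.e (nat_lit 114716) (nat_lit 22) (.e (nat_lit 90172) (nat_lit 14) (.e (nat_lit 180244) (nat_lit 5) (.e (nat_lit 532502) (nat_lit 1) (.e (nat_lit 57688) (nat_lit 156) .nil))))))) (.g (nat_lit 5) .nil .nil))) 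
(.lf (nat_lit 250488) (.g (nat_lit 2920) (.e (nat_lit 163873) (nat_lit 3) (.e (nat_lit 204861) (nat_lit 26) (.e (nat_lit 336075) (nat_lit 9) (.e (nat_lit 336456) (nat_lit 34) (.e (nat_lit 483364) (nat_lit 18) (.e (nat_lit 57927) (nat_lit 282) .nil)))))) (.g (nat_lit 0) .nil .nil)))))) (.nd (nat_lit 3) (.nd (nat_lit 4) (.nd (nat_lit 5) 
(.lf (nat_lit 250436) (.g (nat_lit 3408) (.e (nat_lit 163873) (nat_lit 3) (.e (nat_lit 204838) (nat_lit 20) (.e (nat_lit 114714) (nat_lit 22) (.e (nat_lit 90172) (nat_lit 14) (.e (nat_lit 180244) (nat_lit 5) (.e (nat_lit 532502) (nat_lit 1) (.e (nat_lit 57688) (nat_lit 156) .nil))))))) (.g (nat_lit 5) .nil .nil))) 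
(.lf (nat_lit 250468) (.g (nat_lit 1788) (.e (nat_lit 163873) (nat_lit 3) (.e (nat_lit 204853) (nat_lit 26) (.e (nat_lit 336019) (nat_lit 3) (.e (nat_lit 98342) (nat_lit 20) (.e (nat_lit 221198) (nat_lit 20) .nil))))) .nil))) (.nd (nat_lit 5) 
(.lf (nat_lit 250452) (.g (nat_lit 2451) (.e (nat_lit 163873) (nat_lit 3) (.e (nat_lit 204838) (nat_lit 20) (.e (nat_lit 114716) (nat_lit 22) (.e (nat_lit 90172) (nat_lit 14) (.e (nat_lit 180243) (nat_lit 5) (.e (nat_lit 532503) (nat_lit 1) (.e (nat_lit 57685) (nat_lit 156) .nil))))))) (.g (nat_lit 4) .nil .nil))) 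
(.lf (nat_lit 250484) (.g (nat_lit 2544) (.e (nat_lit 163873) (nat_lit 3) (.e (nat_lit 204861) (nat_lit 26) (.e (nat_lit 336075) (nat_lit 9) (.e (nat_lit 336454) (nat_lit 34) (.e (nat_lit 483364) (nat_lit 18) (.e (nat_lit 57924) (nat_lit 282) .nil)))))) (.g (nat_lit 5) .nil .nil))))) (.nd (nat_lit 4) (.nd (nat_lit 5) 
(.lf (nat_lit 250444) (.g (nat_lit 3694) (.e (nat_lit 163873) (nat_lit 3) (.e (nat_lit 204838) (nat_lit 20) (.e (nat_lit 114714) (nat_lit 22) (.e (nat_lit 90174) (nat_lit 14) (.e (nat_lit 180243) (nat_lit 5) (.e (nat_lit 532503) (nat_lit 1) (.e (nat_lit 57685) (nat_lit 156) .nil))))))) (.g (nat_lit 5) .nil .nil))) 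
(.lf (nat_lit 250476) (.g (nat_lit 3265) (.e (nat_lit 163873) (nat_lit 3) (.e (nat_lit 204854) (nat_lit 26) (.e (nat_lit 336019) (nat_lit 3) (.e (nat_lit 98342) (nat_lit 20) (.e (nat_lit 221213) (nat_lit 23) .nil))))) .nil))) (.nd (nat_lit 5) 
(.lf (nat_lit 250460) (.g (nat_lit 3498) (.e (nat_lit 163873) (nat_lit 3) (.e (nat_lit 204838) (nat_lit 20) (.e (nat_lit 114716) (nat_lit 22) (.e (nat_lit 90174) (nat_lit 14) (.e (nat_lit 180243) (nat_lit 5) (.e (nat_lit 532503) (nat_lit 1) (.e (nat_lit 57685) (nat_lit 156) .nil))))))) (.g (nat_lit 6) .nil .nil))) 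
(.lf (nat_lit 250492) (.g (nat_lit 1248) (.e (nat_lit 163873) (nat_lit 3) (.e (nat_lit 204861) (nat_lit 26) (.e (nat_lit 336076) (nat_lit 9) (.e (nat_lit 336377) (nat_lit 27) .nil)))) .nil)))))) (.nd (nat_lit 2) (.nd (nat_lit 3) (.nd (nat_lit 4) (.nd (nat_lit 5) 
(.lf (nat_lit 250434) (.g (nat_lit 5256) (.e (nat_lit 163873) (nat_lit 3) (.e (nat_lit 204838) (nat_lit 20) (.e (nat_lit 114714) (nat_lit 22) (.e (nat_lit 90172) (nat_lit 14) (.e (nat_lit 180244) (nat_lit 5) (.e (nat_lit 532499) (nat_lit 1) (.e (nat_lit 57688) (nat_lit 156) .nil))))))) (.g (nat_lit 7) .nil .nil))) 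
(.lf (nat_lit 250466) (.g (nat_lit 2314) (.e (nat_lit 163873) (nat_lit 3) (.e (nat_lit 204838) (nat_lit 20) (.e (nat_lit 114719) (nat_lit 23) (.e (nat_lit 98384) (nat_lit 32) (.e (nat_lit 475177) (nat_lit 24) .nil))))) .nil))) (.nd (nat_lit 5) 
(.lf (nat_lit 250450) (.g (nat_lit 2538) (.e (nat_lit 163873) (nat_lit 3) (.e (nat_lit 204838) (nat_lit 20) (.e (nat_lit 114715) (nat_lit 22) (.e (nat_lit 90170) (nat_lit 13) (.e (nat_lit 172046) (nat_lit 0) .nil))))) .nil)) 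
(.lf (nat_lit 250482) (.g (nat_lit 2082) (.e (nat_lit 163873) (nat_lit 3) (.e (nat_lit 204861) (nat_lit 26) (.e (nat_lit 336075) (nat_lit 9) (.e (nat_lit 336367) (nat_lit 27) (.e (nat_lit 426533) (nat_lit 28) (.e (nat_lit 344104) (nat_lit 18) (.e (nat_lit 5597) (nat_lit 310) .nil))))))) (.g (nat_lit 4) .nil .nil))))) (.nd (nat_lit 4) (.nd (nat_lit 5) 
(.lf (nat_lit 250442) (.g (nat_lit 2835) (.e (nat_lit 163873) (nat_lit 3) (.e (nat_lit 204838) (nat_lit 20) (.e (nat_lit 114714) (nat_lit 22) (.e (nat_lit 90174) (nat_lit 14) (.e (nat_lit 180243) (nat_lit 5) (.e (nat_lit 532501) (nat_lit 1) (.e (nat_lit 57685) (nat_lit 156) .nil))))))) (.g (nat_lit 4) .nil .nil))) 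
(.lf (nat_lit 250474) (.g (nat_lit 2112) (.e (nat_lit 163873) (nat_lit 3) (.e (nat_lit 204853) (nat_lit 26) (.e (nat_lit 336211) (nat_lit 13) (.e (nat_lit 393225) (nat_lit 9) (.e (nat_lit 335996) (nat_lit 1) (.e (nat_lit 57929) (nat_lit 282) .nil)))))) (.g (nat_lit 4) .nil .nil)))) (.nd (nat_lit 5) 
(.lf (nat_lit 250458) (.g (nat_lit 2501) (.e (nat_lit 163873) (nat_lit 3) (.e (nat_lit 204838) (nat_lit 20) (.e (nat_lit 114716) (nat_lit 22) (.e (nat_lit 90172) (nat_lit 14) (.e (nat_lit 180244) (nat_lit 5) (.e (nat_lit 532503) (nat_lit 1) (.e (nat_lit 57687) (nat_lit 156) .nil))))))) (.g (nat_lit 4) .nil .nil))) 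
(.lf (nat_lit 250490) (.g (nat_lit 2545) (.e (nat_lit 163873) (nat_lit 3) (.e (nat_lit 204861) (nat_lit 26) (.e (nat_lit 336076) (nat_lit 9) (.e (nat_lit 336367) (nat_lit 27) (.e (nat_lit 426533) (nat_lit 28) (.e (nat_lit 344104) (nat_lit 18) (.e (nat_lit 5597) (nat_lit 310) .nil))))))) (.g (nat_lit 4) .nil .nil)))))) (.nd (nat_lit 3) (.nd (nat_lit 4) (.nd (nat_lit 5) 
(.lf (nat_lit 250438) (.g (nat_lit 2713) (.e (nat_lit 163873) (nat_lit 3) (.e (nat_lit 204838) (nat_lit 20) (.e (nat_lit 114714) (nat_lit 22) (.e (nat_lit 90172) (nat_lit 14) (.e (nat_lit 180244) (nat_lit 5) (.e (nat_lit 532503) (nat_lit 1) (.e (nat_lit 57687) (nat_lit 156) .nil))))))) (.g (nat_lit 4) .nil .nil))) 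
(.lf (nat_lit 250470) (.g (nat_lit 2267) (.e (nat_lit 163873) (nat_lit 3) (.e (nat_lit 204853) (nat_lit 26) (.e (nat_lit 336019) (nat_lit 3) (.e (nat_lit 98342) (nat_lit 20) (.e (nat_lit 221211) (nat_lit 22) (.e (nat_lit 196661) (nat_lit 12) (.e (nat_lit 57361) (nat_lit 0) (.e (nat_lit 5598) (nat_lit 310) .nil)))))))) (.g (nat_lit 4) .nil .nil)))) (.nd (nat_lit 5) 
(.lf (nat_lit 250454) (.g (nat_lit 2202) (.e (nat_lit 163873) (nat_lit 3) (.e (nat_lit 204838) (nat_lit 20) (.e (nat_lit 114716) (nat_lit 22) (.e (nat_lit 90172) (nat_lit 14) (.e (nat_lit 180244) (nat_lit 5) (.e (nat_lit 532499) (nat_lit 1) (.e (nat_lit 57687) (nat_lit 156) .nil))))))) (.g (nat_lit 4) .nil .nil))) 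
(.lf (nat_lit 250486) (.g (nat_lit 2704) (.e (nat_lit 163873) (nat_lit 3) (.e (nat_lit 204861) (nat_lit 26) (.e (nat_lit 336075) (nat_lit 9) (.e (nat_lit 336454) (nat_lit 34) (.e (nat_lit 483365) (nat_lit 18) (.e (nat_lit 57924) (nat_lit 282) .nil)))))) (.g (nat_lit 5) .nil .nil))))) (.nd (nat_lit 4) (.nd (nat_lit 5) 
(.lf (nat_lit 250446) (.g (nat_lit 4856) (.e (nat_lit 163873) (nat_lit 3) (.e (nat_lit 204838) (nat_lit 20) (.e (nat_lit 114714) (nat_lit 22) (.e (nat_lit 90174) (nat_lit 14) (.e (nat_lit 180243) (nat_lit 5) (.e (nat_lit 532503) (nat_lit 1) (.e (nat_lit 57688) (nat_lit 156) .nil))))))) (.g (nat_lit 7) .nil .nil))) 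
(.lf (nat_lit 250478) (.g (nat_lit 1013) (.e (nat_lit 163873) (nat_lit 3) (.e (nat_lit 204854) (nat_lit 26) (.e (nat_lit 336211) (nat_lit 13) .nil))) .nil))) (.nd (nat_lit 5) 
(.lf (nat_lit 250462) (.g (nat_lit 2915) (.e (nat_lit 163873) (nat_lit 3) (.e (nat_lit 204838) (nat_lit 20) (.e (nat_lit 114716) (nat_lit 22) (.e (nat_lit 90185) (nat_lit 17) (.e (nat_lit 237593) (nat_lit 3) .nil))))) .nil)) 
(.lf (nat_lit 250494) (.g (nat_lit 2739) (.e (nat_lit 163873) (nat_lit 3) (.e (nat_lit 204861) (nat_lit 26) (.e (nat_lit 336076) (nat_lit 9) (.e (nat_lit 336454) (nat_lit 34) (.e (nat_lit 483364) (nat_lit 18) (.e (nat_lit 57924) (nat_lit 282) .nil)))))) (.g (nat_lit 6) .nil .nil)))))))) (.nd (nat_lit 1) (.nd (nat_lit 2) (.nd (nat_lit 3) (.nd (nat_lit 4) (.nd (nat_lit 5) 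
(.lf (nat_lit 250433) (.g (nat_lit 3185) (.e (nat_lit 163873) (nat_lit 3) (.e (nat_lit 204838) (nat_lit 20) (.e (nat_lit 114714) (nat_lit 22) (.e (nat_lit 90172) (nat_lit 14) (.e (nat_lit 180244) (nat_lit 5) (.e (nat_lit 532499) (nat_lit 1) (.e (nat_lit 57686) (nat_lit 156) .nil))))))) (.g (nat_lit 5) .nil .nil))) 
(.lf (nat_lit 250465) (.g (nat_lit 2375) (.e (nat_lit 163873) (nat_lit 3) (.e (nat_lit 204838) (nat_lit 20) (.e (nat_lit 114719) (nat_lit 23) (.e (nat_lit 98365) (nat_lit 26) (.e (nat_lit 426138) (nat_lit 3) .nil))))) .nil))) (.nd (nat_lit 5) 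
(.lf (nat_lit 250449) (.g (nat_lit 2449) (.e (nat_lit 163873) (nat_lit 3) (.e (nat_lit 204838) (nat_lit 20) (.e (nat_lit 114714) (nat_lit 22) (.e (nat_lit 90185) (nat_lit 17) (.e (nat_lit 237594) (nat_lit 3) (.e (nat_lit 204829) (nat_lit 18) (.e (nat_lit 57688) (nat_lit 156) .nil))))))) (.g (nat_lit 4) .nil .nil))) 
(.lf (nat_lit 250481) (.g (nat_lit 2199) (.e (nat_lit 163873) (nat_lit 3) (.e (nat_lit 204854) (nat_lit 26) (.e (nat_lit 336211) (nat_lit 13) (.e (nat_lit 393225) (nat_lit 9) (.e (nat_lit 335996) (nat_lit 1) .nil))))) .nil)))) (.nd (nat_lit 4) (.nd (nat_lit 5) 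
(.lf (nat_lit 250441) (.g (nat_lit 5203) (.e (nat_lit 163873) (nat_lit 3) (.e (nat_lit 204838) (nat_lit 20) (.e (nat_lit 114714) (nat_lit 22) (.e (nat_lit 90174) (nat_lit 14) (.e (nat_lit 180243) (nat_lit 5) (.e (nat_lit 532499) (nat_lit 1) (.e (nat_lit 57688) (nat_lit 156) .nil))))))) (.g (nat_lit 7) .nil .nil))) 
(.lf (nat_lit 250473) (.g (nat_lit 1978) (.e (nat_lit 163873) (nat_lit 3) (.e (nat_lit 204853) (nat_lit 26) (.e (nat_lit 336211) (nat_lit 13) (.e (nat_lit 393225) (nat_lit 9) (.e (nat_lit 335995) (nat_lit 1) (.e (nat_lit 57929) (nat_lit 282) .nil)))))) (.g (nat_lit 4) .nil .nil)))) (.nd (nat_lit 5) 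
(.lf (nat_lit 250457) (.g (nat_lit 3932) (.e (nat_lit 163873) (nat_lit 3) (.e (nat_lit 204838) (nat_lit 20) (.e (nat_lit 114716) (nat_lit 22) (.e (nat_lit 90172) (nat_lit 14) (.e (nat_lit 180244) (nat_lit 5) (.e (nat_lit 532503) (nat_lit 1) (.e (nat_lit 57685) (nat_lit 156) .nil))))))) (.g (nat_lit 6) .nil .nil))) 
(.lf (nat_lit 250489) (.g (nat_lit 1454) (.e (nat_lit 163873) (nat_lit 3) (.e (nat_lit 204861) (nat_lit 26) (.e (nat_lit 336076) (nat_lit 9) (.e (nat_lit 336366) (nat_lit 27) .nil)))) .nil))))) (.nd (nat_lit 3) (.nd (nat_lit 4) (.nd (nat_lit 5) 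
(.lf (nat_lit 250437) (.g (nat_lit 4144) (.e (nat_lit 163873) (nat_lit 3) (.e (nat_lit 204838) (nat_lit 20) (.e (nat_lit 114714) (nat_lit 22) (.e (nat_lit 90172) (nat_lit 14) (.e (nat_lit 180244) (nat_lit 5) (.e (nat_lit 532503) (nat_lit 1) (.e (nat_lit 57685) (nat_lit 156) .nil))))))) (.g (nat_lit 6) .nil .nil))) 
(.lf (nat_lit 250469) (.g (nat_lit 1881) (.e (nat_lit 163873) (nat_lit 3) (.e (nat_lit 204853) (nat_lit 26) (.e (nat_lit 336019) (nat_lit 3) (.e (nat_lit 98342) (nat_lit 20) (.e (nat_lit 221204) (nat_lit 20) .nil))))) .nil))) (.nd (nat_lit 5) 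
(.lf (nat_lit 250453) (.g (nat_lit 4180) (.e (nat_lit 163873) (nat_lit 3) (.e (nat_lit 204838) (nat_lit 20) (.e (nat_lit 114716) (nat_lit 22) (.e (nat_lit 90172) (nat_lit 14) (.e (nat_lit 180243) (nat_lit 5) (.e (nat_lit 532503) (nat_lit 1) (.e (nat_lit 57688) (nat_lit 156) .nil))))))) (.g (nat_lit 6) .nil .nil))) 
(.lf (nat_lit 250485) (.g (nat_lit 3158) (.e (nat_lit 163873) (nat_lit 3) (.e (nat_lit 204861) (nat_lit 26) (.e (nat_lit 336075) (nat_lit 9) (.e (nat_lit 336454) (nat_lit 34) (.e (nat_lit 483364) (nat_lit 18) (.e (nat_lit 57926) (nat_lit 282) .nil)))))) (.g (nat_lit 0) .nil .nil))))) (.nd (nat_lit 4) (.nd (nat_lit 5) 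
(.lf (nat_lit 250445) (.g (nat_lit 2536) (.e (nat_lit 163873) (nat_lit 3) (.e (nat_lit 204838) (nat_lit 20) (.e (nat_lit 114714) (nat_lit 22) (.e (nat_lit 90174) (nat_lit 14) (.e (nat_lit 180243) (nat_lit 5) (.e (nat_lit 532503) (nat_lit 1) (.e (nat_lit 57687) (nat_lit 156) .nil))))))) (.g (nat_lit 4) .nil .nil))) 
(.lf (nat_lit 250477) (.g (nat_lit 1086) (.e (nat_lit 163873) (nat_lit 3) (.e (nat_lit 204854) (nat_lit 26) (.e (nat_lit 336115) (nat_lit 9) .nil))) .nil))) (.nd (nat_lit 5) 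
(.lf (nat_lit 250461) (.g (nat_lit 2340) (.e (nat_lit 163873) (nat_lit 3) (.e (nat_lit 204838) (nat_lit 20) (.e (nat_lit 114716) (nat_lit 22) (.e (nat_lit 90174) (nat_lit 14) (.e (nat_lit 180243) (nat_lit 5) (.e (nat_lit 532503) (nat_lit 1) (.e (nat_lit 57687) (nat_lit 156) .nil))))))) (.g (nat_lit 4) .nil .nil))) 
(.lf (nat_lit 250493) (.g (nat_lit 2035) (.e (nat_lit 163873) (nat_lit 3) (.e (nat_lit 204861) (nat_lit 26) (.e (nat_lit 336076) (nat_lit 9) (.e (nat_lit 336454) (nat_lit 34) (.e (nat_lit 483362) (nat_lit 18) (.e (nat_lit 57926) (nat_lit 282) .nil)))))) (.g (nat_lit 4) .nil .nil))))))) (.nd (nat_lit 2) (.nd (nat_lit 3) (.nd (nat_lit 4) (.nd (nat_lit 5) 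
(.lf (nat_lit 250435) (.g (nat_lit 2477) (.e (nat_lit 163873) (nat_lit 3) (.e (nat_lit 204838) (nat_lit 20) (.e (nat_lit 114714) (nat_lit 22) (.e (nat_lit 90172) (nat_lit 14) (.e (nat_lit 180244) (nat_lit 5) (.e (nat_lit 532501) (nat_lit 1) (.e (nat_lit 57685) (nat_lit 156) .nil))))))) (.g (nat_lit 4) .nil .nil))) 
(.lf (nat_lit 250467) (.g (nat_lit 1740) (.e (nat_lit 163873) (nat_lit 3) (.e (nat_lit 204853) (nat_lit 26) (.e (nat_lit 336019) (nat_lit 3) (.e (nat_lit 98341) (nat_lit 20) (.e (nat_lit 221204) (nat_lit 20) .nil))))) .nil))) (.nd (nat_lit 5) 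
(.lf (nat_lit 250451) (.g (nat_lit 2140) (.e (nat_lit 163873) (nat_lit 3) (.e (nat_lit 204838) (nat_lit 20) (.e (nat_lit 114716) (nat_lit 22) (.e (nat_lit 90172) (nat_lit 14) (.e (nat_lit 180243) (nat_lit 5) (.e (nat_lit 532502) (nat_lit 1) (.e (nat_lit 57688) (nat_lit 156) .nil))))))) (.g (nat_lit 4) .nil .nil))) 
(.lf (nat_lit 250483) (.g (nat_lit 1871) (.e (nat_lit 163873) (nat_lit 3) (.e (nat_lit 204861) (nat_lit 26) (.e (nat_lit 336075) (nat_lit 9) (.e (nat_lit 336454) (nat_lit 34) (.e (nat_lit 483362) (nat_lit 18) (.e (nat_lit 57926) (nat_lit 282) .nil)))))) (.g (nat_lit 4) .nil .nil))))) (.nd (nat_lit 4) (.nd (nat_lit 5) 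
(.lf (nat_lit 250443) (.g (nat_lit 3921) (.e (nat_lit 163873) (nat_lit 3) (.e (nat_lit 204838) (nat_lit 20) (.e (nat_lit 114714) (nat_lit 22) (.e (nat_lit 90174) (nat_lit 14) (.e (nat_lit 180243) (nat_lit 5) (.e (nat_lit 532502) (nat_lit 1) (.e (nat_lit 57688) (nat_lit 156) .nil))))))) (.g (nat_lit 6) .nil .nil))) 
(.lf (nat_lit 250475) (.g (nat_lit 3353) (.e (nat_lit 163873) (nat_lit 3) (.e (nat_lit 204854) (nat_lit 26) (.e (nat_lit 336019) (nat_lit 3) (.e (nat_lit 98342) (nat_lit 20) (.e (nat_lit 221204) (nat_lit 20) .nil))))) .nil))) (.nd (nat_lit 5) 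
(.lf (nat_lit 250459) (.g (nat_lit 2755) (.e (nat_lit 163873) (nat_lit 3) (.e (nat_lit 204838) (nat_lit 20) (.e (nat_lit 114716) (nat_lit 22) (.e (nat_lit 90174) (nat_lit 14) (.e (nat_lit 180243) (nat_lit 5) (.e (nat_lit 532499) (nat_lit 1) (.e (nat_lit 57686) (nat_lit 156) .nil))))))) (.g (nat_lit 5) .nil .nil))) 
(.lf (nat_lit 250491) (.g (nat_lit 1391) (.e (nat_lit 163873) (nat_lit 3) (.e (nat_lit 204861) (nat_lit 26) (.e (nat_lit 336076) (nat_lit 9) (.e (nat_lit 336370) (nat_lit 27) .nil)))) .nil))))) (.nd (nat_lit 3) (.nd (nat_lit 4) (.nd (nat_lit 5) 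
(.lf (nat_lit 250439) (.g (nat_lit 4990) (.e (nat_lit 163873) (nat_lit 3) (.e (nat_lit 204838) (nat_lit 20) (.e (nat_lit 114714) (nat_lit 22) (.e (nat_lit 90172) (nat_lit 14) (.e (nat_lit 180244) (nat_lit 5) (.e (nat_lit 532503) (nat_lit 1) (.e (nat_lit 57688) (nat_lit 156) .nil))))))) (.g (nat_lit 7) .nil .nil))) 
(.lf (nat_lit 250471) (.g (nat_lit 2503) (.e (nat_lit 163873) (nat_lit 3) (.e (nat_lit 204853) (nat_lit 26) (.e (nat_lit 336019) (nat_lit 3) (.e (nat_lit 98342) (nat_lit 20) (.e (nat_lit 221214) (nat_lit 23) (.e (nat_lit 204821) (nat_lit 17) (.e (nat_lit 1086) (nat_lit 81) (.e (nat_lit 5598) (nat_lit 310) .nil)))))))) (.g (nat_lit 4) .nil .nil)))) (.nd (nat_lit 5) 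
(.lf (nat_lit 250455) (.g (nat_lit 2224) (.e (nat_lit 163873) (nat_lit 3) (.e (nat_lit 204838) (nat_lit 20) (.e (nat_lit 114716) (nat_lit 22) (.e (nat_lit 90172) (nat_lit 14) (.e (nat_lit 180244) (nat_lit 5) (.e (nat_lit 532501) (nat_lit 1) (.e (nat_lit 57685) (nat_lit 156) .nil))))))) (.g (nat_lit 4) .nil .nil))) 
(.lf (nat_lit 250487) (.g (nat_lit 1651) (.e (nat_lit 163873) (nat_lit 3) (.e (nat_lit 204861) (nat_lit 26) (.e (nat_lit 336075) (nat_lit 9) (.e (nat_lit 336454) (nat_lit 34) (.e (nat_lit 483366) (nat_lit 18) (.e (nat_lit 57924) (nat_lit 282) .nil)))))) (.g (nat_lit 4) .nil .nil))))) (.nd (nat_lit 4) (.nd (nat_lit 5) 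
(.lf (nat_lit 250447) (.g (nat_lit 2718) (.e (nat_lit 163873) (nat_lit 3) (.e (nat_lit 204838) (nat_lit 20) (.e (nat_lit 114714) (nat_lit 22) (.e (nat_lit 90174) (nat_lit 14) (.e (nat_lit 180243) (nat_lit 5) (.e (nat_lit 532504) (nat_lit 1) (.e (nat_lit 57685) (nat_lit 156) .nil))))))) (.g (nat_lit 4) .nil .nil))) 
(.lf (nat_lit 250479) (.g (nat_lit 1824) (.e (nat_lit 163873) (nat_lit 3) (.e (nat_lit 204854) (nat_lit 26) (.e (nat_lit 336211) (nat_lit 13) (.e (nat_lit 393224) (nat_lit 9) .nil)))) .nil))) (.nd (nat_lit 5) 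
(.lf (nat_lit 250463) (.g (nat_lit 4147) (.e (nat_lit 163873) (nat_lit 3) (.e (nat_lit 204838) (nat_lit 20) (.e (nat_lit 114716) (nat_lit 22) (.e (nat_lit 90185) (nat_lit 17) (.e (nat_lit 237594) (nat_lit 3) (.e (nat_lit 204829) (nat_lit 18) (.e (nat_lit 57688) (nat_lit 156) .nil))))))) (.g (nat_lit 7) .nil .nil))) 
(.lf (nat_lit 250495) (.g (nat_lit 3361) (.e (nat_lit 163873) (nat_lit 3) (.e (nat_lit 204861) (nat_lit 26) (.e (nat_lit 336076) (nat_lit 9) (.e (nat_lit 336454) (nat_lit 34) (.e (nat_lit 483364) (nat_lit 18) (.e (nat_lit 57926) (nat_lit 282) .nil)))))) (.g (nat_lit 0) .nil .nil)))))))))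

noncomputable def tv3245 : DT := (.nd (nat_lit 0) (.nd (nat_lit 1) (.nd (nat_lit 2) (.nd (nat_lit 3) (.nd (nat_lit 4) (.nd (nat_lit 5) 
(.lf (nat_lit 250496) (.g (nat_lit 2912) (.e (nat_lit 163873) (nat_lit 3) (.e (nat_lit 204861) (nat_lit 26) (.e (nat_lit 336076) (nat_lit 9) (.e (nat_lit 336454) (nat_lit 34) (.e (nat_lit 483365) (nat_lit 18) (.e (nat_lit 57924) (nat_lit 282) .nil)))))) (.g (nat_lit 5) .nil .nil))) 
(.lf (nat_lit 250528) (.g (nat_lit 2702) (.e (nat_lit 163873) (nat_lit 3) (.e (nat_lit 204861) (nat_lit 26) (.e (nat_lit 336213) (nat_lit 13) (.e (nat_lit 393229) (nat_lit 9) (.e (nat_lit 335996) (nat_lit 1) (.e (nat_lit 57930) (nat_lit 282) .nil)))))) (.g (nat_lit 0) .nil .nil)))) (.nd (nat_lit 5) 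
(.lf (nat_lit 250512) (.g (nat_lit 3902) (.e (nat_lit 163873) (nat_lit 3) (.e (nat_lit 204861) (nat_lit 26) (.e (nat_lit 336213) (nat_lit 13) (.e (nat_lit 393225) (nat_lit 9) (.e (nat_lit 335988) (nat_lit 1) (.e (nat_lit 57931) (nat_lit 282) .nil)))))) (.g (nat_lit 6) .nil .nil))) 
(.lf (nat_lit 250544) (.g (nat_lit 3030) (.e (nat_lit 163873) (nat_lit 3) (.e (nat_lit 204862) (nat_lit 27) (.e (nat_lit 344117) (nat_lit 21) (.e (nat_lit 516130) (nat_lit 3) (.e (nat_lit 221214) (nat_lit 23) (.e (nat_lit 204830) (nat_lit 18) (.e (nat_lit 57931) (nat_lit 282) .nil))))))) (.g (nat_lit 4) .nil .nil))))) (.nd (nat_lit 4) (.nd (nat_lit 5) 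
(.lf (nat_lit 250504) (.g (nat_lit 2327) (.e (nat_lit 163873) (nat_lit 3) (.e (nat_lit 204861) (nat_lit 26) (.e (nat_lit 336213) (nat_lit 13) (.e (nat_lit 393224) (nat_lit 9) .nil)))) .nil)) 
(.lf (nat_lit 250536) (.g (nat_lit 3212) (.e (nat_lit 163873) (nat_lit 3) (.e (nat_lit 204862) (nat_lit 27) (.e (nat_lit 344117) (nat_lit 21) (.e (nat_lit 516129) (nat_lit 3) (.e (nat_lit 221214) (nat_lit 23) (.e (nat_lit 204830) (nat_lit 18) (.e (nat_lit 57927) (nat_lit 282) .nil))))))) (.g (nat_lit 4) .nil .nil)))) (.nd (nat_lit 5) 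
(.lf (nat_lit 250520) (.g (nat_lit 3849) (.e (nat_lit 163873) (nat_lit 3) (.e (nat_lit 204861) (nat_lit 26) (.e (nat_lit 336213) (nat_lit 13) (.e (nat_lit 393225) (nat_lit 9) (.e (nat_lit 335996) (nat_lit 1) (.e (nat_lit 57930) (nat_lit 282) .nil)))))) (.g (nat_lit 0) .nil .nil))) 
(.lf (nat_lit 250552) (.g (nat_lit 2886) (.e (nat_lit 163873) (nat_lit 3) (.e (nat_lit 204863) (nat_lit 27) (.e (nat_lit 344117) (nat_lit 21) (.e (nat_lit 516099) (nat_lit 0) .nil)))) .nil))))) (.nd (nat_lit 3) (.nd (nat_lit 4) (.nd (nat_lit 5) 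
(.lf (nat_lit 250500) (.g (nat_lit 3453) (.e (nat_lit 163873) (nat_lit 3) (.e (nat_lit 204861) (nat_lit 26) (.e (nat_lit 336076) (nat_lit 9) (.e (nat_lit 336456) (nat_lit 34) (.e (nat_lit 483365) (nat_lit 18) (.e (nat_lit 57931) (nat_lit 282) .nil)))))) (.g (nat_lit 0) .nil .nil))) 
(.lf (nat_lit 250532) (.g (nat_lit 2350) (.e (nat_lit 163873) (nat_lit 3) (.e (nat_lit 204862) (nat_lit 27) (.e (nat_lit 344117) (nat_lit 21) (.e (nat_lit 516129) (nat_lit 3) (.e (nat_lit 221204) (nat_lit 20) .nil))))) .nil))) (.nd (nat_lit 5) 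
(.lf (nat_lit 250516) (.g (nat_lit 2903) (.e (nat_lit 163873) (nat_lit 3) (.e (nat_lit 204861) (nat_lit 26) (.e (nat_lit 336213) (nat_lit 13) (.e (nat_lit 393225) (nat_lit 9) (.e (nat_lit 335995) (nat_lit 1) (.e (nat_lit 57924) (nat_lit 282) .nil)))))) (.g (nat_lit 5) .nil .nil))) 
(.lf (nat_lit 250548) (.g (nat_lit 2875) (.e (nat_lit 163873) (nat_lit 3) (.e (nat_lit 204862) (nat_lit 27) (.e (nat_lit 344117) (nat_lit 21) (.e (nat_lit 516130) (nat_lit 3) (.e (nat_lit 221215) (nat_lit 23) (.e (nat_lit 204830) (nat_lit 18) (.e (nat_lit 57931) (nat_lit 282) .nil))))))) (.g (nat_lit 4) .nil .nil))))) (.nd (nat_lit 4) (.nd (nat_lit 5) 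
(.lf (nat_lit 250508) (.g (nat_lit 3426) (.e (nat_lit 163873) (nat_lit 3) (.e (nat_lit 204861) (nat_lit 26) (.e (nat_lit 336213) (nat_lit 13) (.e (nat_lit 393225) (nat_lit 9) (.e (nat_lit 335986) (nat_lit 1) (.e (nat_lit 57927) (nat_lit 282) .nil)))))) (.g (nat_lit 0) .nil .nil))) 
(.lf (nat_lit 250540) (.g (nat_lit 2755) (.e (nat_lit 163873) (nat_lit 3) (.e (nat_lit 204862) (nat_lit 27) (.e (nat_lit 344117) (nat_lit 21) (.e (nat_lit 516129) (nat_lit 3) (.e (nat_lit 221215) (nat_lit 23) (.e (nat_lit 204831) (nat_lit 18) (.e (nat_lit 57931) (nat_lit 282) .nil))))))) (.g (nat_lit 4) .nil .nil)))) (.nd (nat_lit 5) 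
(.lf (nat_lit 250524) (.g (nat_lit 3045) (.e (nat_lit 163873) (nat_lit 3) (.e (nat_lit 204861) (nat_lit 26) (.e (nat_lit 336213) (nat_lit 13) (.e (nat_lit 393229) (nat_lit 9) (.e (nat_lit 335986) (nat_lit 1) (.e (nat_lit 57927) (nat_lit 282) .nil)))))) (.g (nat_lit 0) .nil .nil))) 
(.lf (nat_lit 250556) (.g (nat_lit 2916) (.e (nat_lit 163873) (nat_lit 3) (.e (nat_lit 204863) (nat_lit 27) (.e (nat_lit 344117) (nat_lit 21) (.e (nat_lit 516129) (nat_lit 3) (.e (nat_lit 221214) (nat_lit 23) .nil))))) .nil)))))) (.nd (nat_lit 2) (.nd (nat_lit 3) (.nd (nat_lit 4) (.nd (nat_lit 5) 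
(.lf (nat_lit 250498) (.g (nat_lit 2008) (.e (nat_lit 163873) (nat_lit 3) (.e (nat_lit 204861) (nat_lit 26) (.e (nat_lit 336076) (nat_lit 9) (.e (nat_lit 336456) (nat_lit 34) (.e (nat_lit 483364) (nat_lit 18) (.e (nat_lit 57924) (nat_lit 282) .nil)))))) (.g (nat_lit 4) .nil .nil))) 
(.lf (nat_lit 250530) (.g (nat_lit 3287) (.e (nat_lit 163873) (nat_lit 3) (.e (nat_lit 204862) (nat_lit 27) (.e (nat_lit 344117) (nat_lit 21) (.e (nat_lit 516099) (nat_lit 0) (.e (nat_lit 3771) (nat_lit 229) .nil))))) .nil))) (.nd (nat_lit 5) 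
(.lf (nat_lit 250514) (.g (nat_lit 2516) (.e (nat_lit 163873) (nat_lit 3) (.e (nat_lit 204861) (nat_lit 26) (.e (nat_lit 336213) (nat_lit 13) (.e (nat_lit 393225) (nat_lit 9) (.e (nat_lit 335993) (nat_lit 1) (.e (nat_lit 57931) (nat_lit 282) .nil)))))) (.g (nat_lit 4) .nil .nil))) 
(.lf (nat_lit 250546) (.g (nat_lit 3943) (.e (nat_lit 163873) (nat_lit 3) (.e (nat_lit 204862) (nat_lit 27) (.e (nat_lit 344117) (nat_lit 21) (.e (nat_lit 516130) (nat_lit 3) (.e (nat_lit 221215) (nat_lit 23) (.e (nat_lit 204829) (nat_lit 18) (.e (nat_lit 57927) (nat_lit 282) .nil))))))) (.g (nat_lit 6) .nil .nil))))) (.nd (nat_lit 4) (.nd (nat_lit 5) 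
(.lf (nat_lit 250506) (.g (nat_lit 2511) (.e (nat_lit 163873) (nat_lit 3) (.e (nat_lit 204861) (nat_lit 26) (.e (nat_lit 336213) (nat_lit 13) (.e (nat_lit 393225) (nat_lit 9) (.e (nat_lit 335986) (nat_lit 1) (.e (nat_lit 57924) (nat_lit 282) .nil)))))) (.g (nat_lit 5) .nil .nil))) 
(.lf (nat_lit 250538) (.g (nat_lit 2873) (.e (nat_lit 163873) (nat_lit 3) (.e (nat_lit 204862) (nat_lit 27) (.e (nat_lit 344117) (nat_lit 21) (.e (nat_lit 516129) (nat_lit 3) (.e (nat_lit 221215) (nat_lit 23) (.e (nat_lit 204829) (nat_lit 18) (.e (nat_lit 57927) (nat_lit 282) .nil))))))) (.g (nat_lit 4) .nil .nil)))) (.nd (nat_lit 5) 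
(.lf (nat_lit 250522) (.g (nat_lit 2284) (.e (nat_lit 163873) (nat_lit 3) (.e (nat_lit 204861) (nat_lit 26) (.e (nat_lit 336213) (nat_lit 13) (.e (nat_lit 393228) (nat_lit 9) .nil)))) .nil)) 
(.lf (nat_lit 250554) (.g (nat_lit 2105) (.e (nat_lit 163873) (nat_lit 3) (.e (nat_lit 204863) (nat_lit 27) (.e (nat_lit 344117) (nat_lit 21) (.e (nat_lit 516123) (nat_lit 2) .nil)))) .nil))))) (.nd (nat_lit 3) (.nd (nat_lit 4) (.nd (nat_lit 5) 
(.lf (nat_lit 250502) (.g (nat_lit 1797) (.e (nat_lit 163873) (nat_lit 3) (.e (nat_lit 204861) (nat_lit 26) (.e (nat_lit 336078) (nat_lit 9) (.e (nat_lit 336454) (nat_lit 34) (.e (nat_lit 483364) (nat_lit 18) .nil))))) .nil)) 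
(.lf (nat_lit 250534) (.g (nat_lit 3167) (.e (nat_lit 163873) (nat_lit 3) (.e (nat_lit 204862) (nat_lit 27) (.e (nat_lit 344117) (nat_lit 21) (.e (nat_lit 516129) (nat_lit 3) (.e (nat_lit 221214) (nat_lit 23) (.e (nat_lit 204829) (nat_lit 18) (.e (nat_lit 57927) (nat_lit 282) .nil))))))) (.g (nat_lit 4) .nil .nil)))) (.nd (nat_lit 5) 
(.lf (nat_lit 250518) (.g (nat_lit 3634) (.e (nat_lit 163873) (nat_lit 3) (.e (nat_lit 204861) (nat_lit 26) (.e (nat_lit 336213) (nat_lit 13) (.e (nat_lit 393225) (nat_lit 9) (.e (nat_lit 335995) (nat_lit 1) (.e (nat_lit 57930) (nat_lit 282) .nil)))))) (.g (nat_lit 0) .nil .nil))) 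
(.lf (nat_lit 250550) (.g (nat_lit 2684) (.e (nat_lit 163873) (nat_lit 3) (.e (nat_lit 204862) (nat_lit 27) (.e (nat_lit 344129) (nat_lit 26) (.e (nat_lit 557097) (nat_lit 13) (.e (nat_lit 179968) (nat_lit 18) .nil))))) .nil)))) (.nd (nat_lit 4) (.nd (nat_lit 5) 
(.lf (nat_lit 250510) (.g (nat_lit 1947) (.e (nat_lit 163873) (nat_lit 3) (.e (nat_lit 204861) (nat_lit 26) (.e (nat_lit 336213) (nat_lit 13) (.e (nat_lit 393225) (nat_lit 9) (.e (nat_lit 335987) (nat_lit 1) .nil))))) .nil)) 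
(.lf (nat_lit 250542) (.g (nat_lit 3062) (.e (nat_lit 163873) (nat_lit 3) (.e (nat_lit 204862) (nat_lit 27) (.e (nat_lit 344117) (nat_lit 21) (.e (nat_lit 516130) (nat_lit 3) (.e (nat_lit 221214) (nat_lit 23) (.e (nat_lit 204830) (nat_lit 18) (.e (nat_lit 57926) (nat_lit 282) .nil))))))) (.g (nat_lit 4) .nil .nil)))) (.nd (nat_lit 5) 
(.lf (nat_lit 250526) (.g (nat_lit 3086) (.e (nat_lit 163873) (nat_lit 3) (.e (nat_lit 204861) (nat_lit 26) (.e (nat_lit 336213) (nat_lit 13) (.e (nat_lit 393229) (nat_lit 9) (.e (nat_lit 335988) (nat_lit 1) (.e (nat_lit 57926) (nat_lit 282) .nil)))))) (.g (nat_lit 6) .nil .nil))) 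
(.lf (nat_lit 250558) (.g (nat_lit 1809) (.e (nat_lit 163873) (nat_lit 3) (.e (nat_lit 204863) (nat_lit 27) (.e (nat_lit 344117) (nat_lit 21) (.e (nat_lit 516130) (nat_lit 3) .nil)))) .nil))))))) (.nd (nat_lit 1) (.nd (nat_lit 2) (.nd (nat_lit 3) (.nd (nat_lit 4) (.nd (nat_lit 5) 
(.lf (nat_lit 250497) (.g (nat_lit 1889) (.e (nat_lit 163873) (nat_lit 3) (.e (nat_lit 204861) (nat_lit 26) (.e (nat_lit 336076) (nat_lit 9) (.e (nat_lit 336454) (nat_lit 34) (.e (nat_lit 483366) (nat_lit 18) (.e (nat_lit 57924) (nat_lit 282) .nil)))))) (.g (nat_lit 4) .nil .nil))) 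
(.lf (nat_lit 250529) (.g (nat_lit 2194) (.e (nat_lit 163873) (nat_lit 3) (.e (nat_lit 204861) (nat_lit 26) (.e (nat_lit 336214) (nat_lit 13) (.e (nat_lit 393229) (nat_lit 9) (.e (nat_lit 335996) (nat_lit 1) (.e (nat_lit 57930) (nat_lit 282) .nil)))))) (.g (nat_lit 0) .nil .nil)))) (.nd (nat_lit 5) 
(.lf (nat_lit 250513) (.g (nat_lit 2106) (.e (nat_lit 163873) (nat_lit 3) (.e (nat_lit 204861) (nat_lit 26) (.e (nat_lit 336213) (nat_lit 13) (.e (nat_lit 393225) (nat_lit 9) (.e (nat_lit 335993) (nat_lit 1) .nil))))) .nil)) 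
(.lf (nat_lit 250545) (.g (nat_lit 2728) (.e (nat_lit 163873) (nat_lit 3) (.e (nat_lit 204862) (nat_lit 27) (.e (nat_lit 344117) (nat_lit 21) (.e (nat_lit 516130) (nat_lit 3) (.e (nat_lit 221215) (nat_lit 23) (.e (nat_lit 204828) (nat_lit 18) (.e (nat_lit 57927) (nat_lit 282) .nil))))))) (.g (nat_lit 4) .nil .nil))))) (.nd (nat_lit 4) (.nd (nat_lit 5) 
(.lf (nat_lit 250505) (.g (nat_lit 2164) (.e (nat_lit 163873) (nat_lit 3) (.e (nat_lit 204861) (nat_lit 26) (.e (nat_lit 336213) (nat_lit 13) (.e (nat_lit 393225) (nat_lit 9) (.e (nat_lit 335985) (nat_lit 1) .nil))))) .nil)) 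
(.lf (nat_lit 250537) (.g (nat_lit 3155) (.e (nat_lit 163873) (nat_lit 3) (.e (nat_lit 204862) (nat_lit 27) (.e (nat_lit 344117) (nat_lit 21) (.e (nat_lit 516129) (nat_lit 3) (.e (nat_lit 221214) (nat_lit 23) (.e (nat_lit 204831) (nat_lit 18) (.e (nat_lit 57931) (nat_lit 282) .nil))))))) (.g (nat_lit 4) .nil .nil)))) (.nd (nat_lit 5) 
(.lf (nat_lit 250521) (.g (nat_lit 2321) (.e (nat_lit 163873) (nat_lit 3) (.e (nat_lit 204861) (nat_lit 26) (.e (nat_lit 336213) (nat_lit 13) (.e (nat_lit 393226) (nat_lit 9) .nil)))) .nil)) 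
(.lf (nat_lit 250553) (.g (nat_lit 2041) (.e (nat_lit 163873) (nat_lit 3) (.e (nat_lit 204863) (nat_lit 27) (.e (nat_lit 344117) (nat_lit 21) (.e (nat_lit 516122) (nat_lit 2) .nil)))) .nil))))) (.nd (nat_lit 3) (.nd (nat_lit 4) (.nd (nat_lit 5) 
(.lf (nat_lit 250501) (.g (nat_lit 2118) (.e (nat_lit 163873) (nat_lit 3) (.e (nat_lit 204861) (nat_lit 26) (.e (nat_lit 336078) (nat_lit 9) (.e (nat_lit 336454) (nat_lit 34) (.e (nat_lit 483363) (nat_lit 18) (.e (nat_lit 57926) (nat_lit 282) .nil)))))) (.g (nat_lit 4) .nil .nil))) 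
(.lf (nat_lit 250533) (.g (nat_lit 2287) (.e (nat_lit 163873) (nat_lit 3) (.e (nat_lit 204862) (nat_lit 27) (.e (nat_lit 344117) (nat_lit 21) (.e (nat_lit 516129) (nat_lit 3) (.e (nat_lit 221214) (nat_lit 23) .nil))))) .nil))) (.nd (nat_lit 5) 
(.lf (nat_lit 250517) (.g (nat_lit 3479) (.e (nat_lit 163873) (nat_lit 3) (.e (nat_lit 204861) (nat_lit 26) (.e (nat_lit 336213) (nat_lit 13) (.e (nat_lit 393225) (nat_lit 9) (.e (nat_lit 335995) (nat_lit 1) (.e (nat_lit 57929) (nat_lit 282) .nil)))))) (.g (nat_lit 0) .nil .nil))) 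
(.lf (nat_lit 250549) (.g (nat_lit 3780) (.e (nat_lit 163873) (nat_lit 3) (.e (nat_lit 204862) (nat_lit 27) (.e (nat_lit 344117) (nat_lit 21) (.e (nat_lit 516130) (nat_lit 3) (.e (nat_lit 221215) (nat_lit 23) (.e (nat_lit 204831) (nat_lit 18) (.e (nat_lit 57931) (nat_lit 282) .nil))))))) (.g (nat_lit 5) .nil .nil))))) (.nd (nat_lit 4) (.nd (nat_lit 5) 
(.lf (nat_lit 250509) (.g (nat_lit 3526) (.e (nat_lit 163873) (nat_lit 3) (.e (nat_lit 204861) (nat_lit 26) (.e (nat_lit 336213) (nat_lit 13) (.e (nat_lit 393225) (nat_lit 9) (.e (nat_lit 335986) (nat_lit 1) (.e (nat_lit 57931) (nat_lit 282) .nil)))))) (.g (nat_lit 6) .nil .nil))) 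
(.lf (nat_lit 250541) (.g (nat_lit 3008) (.e (nat_lit 163873) (nat_lit 3) (.e (nat_lit 204862) (nat_lit 27) (.e (nat_lit 344117) (nat_lit 21) (.e (nat_lit 516130) (nat_lit 3) (.e (nat_lit 221213) (nat_lit 23) (.e (nat_lit 204830) (nat_lit 18) (.e (nat_lit 57927) (nat_lit 282) .nil))))))) (.g (nat_lit 4) .nil .nil)))) (.nd (nat_lit 5) 
(.lf (nat_lit 250525) (.g (nat_lit 2902) (.e (nat_lit 163873) (nat_lit 3) (.e (nat_lit 204861) (nat_lit 26) (.e (nat_lit 336213) (nat_lit 13) (.e (nat_lit 393229) (nat_lit 9) (.e (nat_lit 335987) (nat_lit 1) (.e (nat_lit 57927) (nat_lit 282) .nil)))))) (.g (nat_lit 5) .nil .nil))) 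
(.lf (nat_lit 250557) (.g (nat_lit 2920) (.e (nat_lit 163873) (nat_lit 3) (.e (nat_lit 204863) (nat_lit 27) (.e (nat_lit 344117) (nat_lit 21) (.e (nat_lit 516129) (nat_lit 3) (.e (nat_lit 221215) (nat_lit 23) .nil))))) .nil)))))) (.nd (nat_lit 2) (.nd (nat_lit 3) (.nd (nat_lit 4) (.nd (nat_lit 5) 
(.lf (nat_lit 250499) (.g (nat_lit 1834) (.e (nat_lit 163873) (nat_lit 3) (.e (nat_lit 204861) (nat_lit 26) (.e (nat_lit 336076) (nat_lit 9) (.e (nat_lit 336456) (nat_lit 34) (.e (nat_lit 483365) (nat_lit 18) (.e (nat_lit 57930) (nat_lit 282) .nil)))))) (.g (nat_lit 4) .nil .nil))) 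
(.lf (nat_lit 250531) (.g (nat_lit 1213) (.e (nat_lit 163873) (nat_lit 3) (.e (nat_lit 204862) (nat_lit 27) (.e (nat_lit 344117) (nat_lit 21) (.e (nat_lit 516123) (nat_lit 2) .nil)))) .nil))) (.nd (nat_lit 5) 
(.lf (nat_lit 250515) (.g (nat_lit 2215) (.e (nat_lit 163873) (nat_lit 3) (.e (nat_lit 204861) (nat_lit 26) (.e (nat_lit 336213) (nat_lit 13) (.e (nat_lit 393225) (nat_lit 9) (.e (nat_lit 335994) (nat_lit 1) .nil))))) .nil)) 
(.lf (nat_lit 250547) (.g (nat_lit 3559) (.e (nat_lit 163873) (nat_lit 3) (.e (nat_lit 204862) (nat_lit 27) (.e (nat_lit 344117) (nat_lit 21) (.e (nat_lit 516130) (nat_lit 3) (.e (nat_lit 221215) (nat_lit 23) (.e (nat_lit 204829) (nat_lit 18) (.e (nat_lit 57931) (nat_lit 282) .nil))))))) (.g (nat_lit 5) .nil .nil))))) (.nd (nat_lit 4) (.nd (nat_lit 5) 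
(.lf (nat_lit 250507) (.g (nat_lit 3547) (.e (nat_lit 163873) (nat_lit 3) (.e (nat_lit 204861) (nat_lit 26) (.e (nat_lit 336213) (nat_lit 13) (.e (nat_lit 393225) (nat_lit 9) (.e (nat_lit 335986) (nat_lit 1) (.e (nat_lit 57926) (nat_lit 282) .nil)))))) (.g (nat_lit 0) .nil .nil))) 
(.lf (nat_lit 250539) (.g (nat_lit 3003) (.e (nat_lit 163873) (nat_lit 3) (.e (nat_lit 204862) (nat_lit 27) (.e (nat_lit 344117) (nat_lit 21) (.e (nat_lit 516129) (nat_lit 3) (.e (nat_lit 221215) (nat_lit 23) (.e (nat_lit 204830) (nat_lit 18) (.e (nat_lit 57927) (nat_lit 282) .nil))))))) (.g (nat_lit 4) .nil .nil)))) (.nd (nat_lit 5) 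
(.lf (nat_lit 250523) (.g (nat_lit 2823) (.e (nat_lit 163873) (nat_lit 3) (.e (nat_lit 204861) (nat_lit 26) (.e (nat_lit 336213) (nat_lit 13) (.e (nat_lit 393229) (nat_lit 9) (.e (nat_lit 335914) (nat_lit 0) (.e (nat_lit 1032) (nat_lit 81) (.e (nat_lit 5587) (nat_lit 310) .nil))))))) (.g (nat_lit 4) .nil .nil))) 
(.lf (nat_lit 250555) (.g (nat_lit 2046) (.e (nat_lit 163873) (nat_lit 3) (.e (nat_lit 204863) (nat_lit 27) (.e (nat_lit 344117) (nat_lit 21) (.e (nat_lit 516129) (nat_lit 3) .nil)))) .nil))))) (.nd (nat_lit 3) (.nd (nat_lit 4) (.nd (nat_lit 5) 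
(.lf (nat_lit 250503) (.g (nat_lit 390) (.e (nat_lit 163873) (nat_lit 3) (.e (nat_lit 204861) (nat_lit 26) (.e (nat_lit 336213) (nat_lit 13) .nil))) .nil)) 
(.lf (nat_lit 250535) (.g (nat_lit 2840) (.e (nat_lit 163873) (nat_lit 3) (.e (nat_lit 204862) (nat_lit 27) (.e (nat_lit 344117) (nat_lit 21) (.e (nat_lit 516129) (nat_lit 3) (.e (nat_lit 221214) (nat_lit 23) (.e (nat_lit 204829) (nat_lit 18) (.e (nat_lit 57931) (nat_lit 282) .nil))))))) (.g (nat_lit 4) .nil .nil)))) (.nd (nat_lit 5) 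
(.lf (nat_lit 250519) (.g (nat_lit 2546) (.e (nat_lit 163873) (nat_lit 3) (.e (nat_lit 204861) (nat_lit 26) (.e (nat_lit 336213) (nat_lit 13) (.e (nat_lit 393225) (nat_lit 9) (.e (nat_lit 335996) (nat_lit 1) (.e (nat_lit 57924) (nat_lit 282) .nil)))))) (.g (nat_lit 5) .nil .nil))) 
(.lf (nat_lit 250551) (.g (nat_lit 2244) (.e (nat_lit 163873) (nat_lit 3) (.e (nat_lit 204862) (nat_lit 27) (.e (nat_lit 344133) (nat_lit 26) (.e (nat_lit 557098) (nat_lit 13) (.e (nat_lit 179968) (nat_lit 18) .nil))))) .nil)))) (.nd (nat_lit 4) (.nd (nat_lit 5) 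
(.lf (nat_lit 250511) (.g (nat_lit 3468) (.e (nat_lit 163873) (nat_lit 3) (.e (nat_lit 204861) (nat_lit 26) (.e (nat_lit 336213) (nat_lit 13) (.e (nat_lit 393225) (nat_lit 9) (.e (nat_lit 335988) (nat_lit 1) (.e (nat_lit 57927) (nat_lit 282) .nil)))))) (.g (nat_lit 0) .nil .nil))) 
(.lf (nat_lit 250543) (.g (nat_lit 2426) (.e (nat_lit 163873) (nat_lit 3) (.e (nat_lit 204862) (nat_lit 27) (.e (nat_lit 344117) (nat_lit 21) (.e (nat_lit 516130) (nat_lit 3) (.e (nat_lit 221214) (nat_lit 23) (.e (nat_lit 204830) (nat_lit 18) (.e (nat_lit 57929) (nat_lit 282) .nil))))))) (.g (nat_lit 4) .nil .nil)))) (.nd (nat_lit 5) 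
(.lf (nat_lit 250527) (.g (nat_lit 1662) (.e (nat_lit 163873) (nat_lit 3) (.e (nat_lit 204861) (nat_lit 26) (.e (nat_lit 336213) (nat_lit 13) (.e (nat_lit 393229) (nat_lit 9) (.e (nat_lit 335994) (nat_lit 1) (.e (nat_lit 57924) (nat_lit 282) .nil)))))) (.g (nat_lit 4) .nil .nil))) 
(.lf (nat_lit 250559) (.g (nat_lit 2450) (.e (nat_lit 163873) (nat_lit 3) (.e (nat_lit 204863) (nat_lit 27) (.e (nat_lit 344117) (nat_lit 21) (.e (nat_lit 516130) (nat_lit 3) (.e (nat_lit 221204) (nat_lit 20) .nil))))) .nil))))))))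

noncomputable def tv3246 : DT := (.nd (nat_lit 0) (.nd (nat_lit 1) (.nd (nat_lit 2) (.nd (nat_lit 3) (.nd (nat_lit 4) (.nd (nat_lit 5) 
(.lf (nat_lit 250560) (.g (nat_lit 2906) (.e (nat_lit 163873) (nat_lit 3) (.e (nat_lit 204863) (nat_lit 27) (.e (nat_lit 344117) (nat_lit 21) (.e (nat_lit 516130) (nat_lit 3) (.e (nat_lit 221213) (nat_lit 23) (.e (nat_lit 204829) (nat_lit 18) (.e (nat_lit 57927) (nat_lit 282) .nil))))))) (.g (nat_lit 4) .nil .nil))) 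
(.lf (nat_lit 250592) (.g (nat_lit 1681) (.e (nat_lit 163874) (nat_lit 3) (.e (nat_lit 204829) (nat_lit 18) (.e (nat_lit 57849) (nat_lit 252) (.e (nat_lit 57432) (nat_lit 16) .nil)))) .nil))) (.nd (nat_lit 5) 
(.lf (nat_lit 250576) (.g (nat_lit 2135) (.e (nat_lit 163873) (nat_lit 3) (.e (nat_lit 204864) (nat_lit 27) (.e (nat_lit 344133) (nat_lit 26) (.e (nat_lit 557096) (nat_lit 13) (.e (nat_lit 179968) (nat_lit 18) (.e (nat_lit 98344) (nat_lit 21) (.e (nat_lit 229678) (nat_lit 244) .nil))))))) (.g (nat_lit 4) .nil .nil))) 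
(.lf (nat_lit 250608) (.g (nat_lit 3900) (.e (nat_lit 163874) (nat_lit 3) (.e (nat_lit 204830) (nat_lit 18) (.e (nat_lit 57926) (nat_lit 282) (.e (nat_lit 164084) (nat_lit 73) (.e (nat_lit 336012) (nat_lit 2) (.e (nat_lit 90185) (nat_lit 17) (.e (nat_lit 237585) (nat_lit 1) (.e (nat_lit 164332) (nat_lit 230) .nil)))))))) (.g (nat_lit 6) .nil .nil))))) (.nd (nat_lit 4) (.nd (nat_lit 5) 
(.lf (nat_lit 250568) (.g (nat_lit 1067) (.e (nat_lit 163873) (nat_lit 3) (.e (nat_lit 204863) (nat_lit 27) (.e (nat_lit 344130) (nat_lit 26) .nil))) .nil)) 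
(.lf (nat_lit 250600) (.g (nat_lit 3133) (.e (nat_lit 163874) (nat_lit 3) (.e (nat_lit 204830) (nat_lit 18) (.e (nat_lit 57852) (nat_lit 252) (.e (nat_lit 57417) (nat_lit 12) (.e (nat_lit 336017) (nat_lit 3) (.e (nat_lit 98356) (nat_lit 26) (.e (nat_lit 426422) (nat_lit 16) (.e (nat_lit 57692) (nat_lit 156) .nil)))))))) (.g (nat_lit 4) .nil .nil)))) (.nd (nat_lit 5) 
(.lf (nat_lit 250584) (.g (nat_lit 663) (.e (nat_lit 163874) (nat_lit 3) (.e (nat_lit 204813) (nat_lit 9) (.e (nat_lit 426187) (nat_lit 9) .nil))) .nil)) 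
(.lf (nat_lit 250616) (.g (nat_lit 3162) (.e (nat_lit 163874) (nat_lit 3) (.e (nat_lit 204831) (nat_lit 18) (.e (nat_lit 57849) (nat_lit 252) (.e (nat_lit 57411) (nat_lit 12) (.e (nat_lit 336019) (nat_lit 3) (.e (nat_lit 98356) (nat_lit 26) (.e (nat_lit 426422) (nat_lit 16) (.e (nat_lit 57692) (nat_lit 156) .nil)))))))) (.g (nat_lit 4) .nil .nil)))))) 
(.nd (nat_lit 3) (.nd (nat_lit 4) (.nd (nat_lit 5) 
(.lf (nat_lit 250564) (.g (nat_lit 3591) (.e (nat_lit 163873) (nat_lit 3) (.e (nat_lit 204863) (nat_lit 27) (.e (nat_lit 344117) (nat_lit 21) (.e (nat_lit 516130) (nat_lit 3) (.e (nat_lit 221215) (nat_lit 23) (.e (nat_lit 204829) (nat_lit 18) (.e (nat_lit 57927) (nat_lit 282) .nil))))))) (.g (nat_lit 5) .nil .nil))) 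
(.lf (nat_lit 250596) (.g (nat_lit 4048) (.e (nat_lit 163874) (nat_lit 3) (.e (nat_lit 204829) (nat_lit 18) (.e (nat_lit 57931) (nat_lit 282) (.e (nat_lit 164084) (nat_lit 73) (.e (nat_lit 336027) (nat_lit 3) (.e (nat_lit 98365) (nat_lit 26) (.e (nat_lit 426099) (nat_lit 1) (.e (nat_lit 164332) (nat_lit 230) .nil)))))))) (.g (nat_lit 5) .nil .nil)))) (.nd (nat_lit 5) 
(.lf (nat_lit 250580) (.g (nat_lit 2811) (.e (nat_lit 163873) (nat_lit 3) (.e (nat_lit 204864) (nat_lit 27) (.e (nat_lit 344133) (nat_lit 26) (.e (nat_lit 557105) (nat_lit 14) (.e (nat_lit 180252) (nat_lit 10) (.e (nat_lit 573474) (nat_lit 12) (.e (nat_lit 57347) (nat_lit 0) (.e (nat_lit 5593) (nat_lit 310) .nil)))))))) (.g (nat_lit 4) .nil .nil))) 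
(.lf (nat_lit 250612) (.g (nat_lit 3371) (.e (nat_lit 163874) (nat_lit 3) (.e (nat_lit 204830) (nat_lit 18) (.e (nat_lit 57929) (nat_lit 282) (.e (nat_lit 164084) (nat_lit 73) (.e (nat_lit 336027) (nat_lit 3) (.e (nat_lit 98365) (nat_lit 26) (.e (nat_lit 426099) (nat_lit 1) (.e (nat_lit 164332) (nat_lit 230) .nil)))))))) (.g (nat_lit 6) .nil .nil))))) (.nd (nat_lit 4) (.nd (nat_lit 5) 
(.lf (nat_lit 250572) (.g (nat_lit 1568) (.e (nat_lit 163873) (nat_lit 3) (.e (nat_lit 204864) (nat_lit 27) (.e (nat_lit 344117) (nat_lit 21) (.e (nat_lit 516130) (nat_lit 3) .nil)))) .nil)) 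
(.lf (nat_lit 250604) (.g (nat_lit 3133) (.e (nat_lit 163874) (nat_lit 3) (.e (nat_lit 204830) (nat_lit 18) (.e (nat_lit 57854) (nat_lit 252) (.e (nat_lit 57409) (nat_lit 12) (.e (nat_lit 336019) (nat_lit 3) (.e (nat_lit 98356) (nat_lit 26) (.e (nat_lit 426422) (nat_lit 16) (.e (nat_lit 57688) (nat_lit 156) .nil)))))))) (.g (nat_lit 4) .nil .nil)))) (.nd (nat_lit 5) 
(.lf (nat_lit 250588) (.g (nat_lit 3585) (.e (nat_lit 163874) (nat_lit 3) (.e (nat_lit 204829) (nat_lit 18) (.e (nat_lit 57847) (nat_lit 252) (.e (nat_lit 57411) (nat_lit 12) (.e (nat_lit 336019) (nat_lit 3) (.e (nat_lit 98384) (nat_lit 32) (.e (nat_lit 475161) (nat_lit 21) (.e (nat_lit 7280) (nat_lit 386) .nil)))))))) (.g (nat_lit 5) .nil .nil))) 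
(.lf (nat_lit 250620) (.g (nat_lit 3844) (.e (nat_lit 163874) (nat_lit 3) (.e (nat_lit 204831) (nat_lit 18) (.e (nat_lit 57854) (nat_lit 252) (.e (nat_lit 57409) (nat_lit 12) (.e (nat_lit 336019) (nat_lit 3) .nil))))) .nil)))))) (.nd (nat_lit 2) (.nd (nat_lit 3) (.nd (nat_lit 4) (.nd (nat_lit 5) 
(.lf (nat_lit 250562) (.g (nat_lit 2987) (.e (nat_lit 163873) (nat_lit 3) (.e (nat_lit 204863) (nat_lit 27) (.e (nat_lit 344117) (nat_lit 21) (.e (nat_lit 516130) (nat_lit 3) (.e (nat_lit 221214) (nat_lit 23) (.e (nat_lit 204829) (nat_lit 18) (.e (nat_lit 57931) (nat_lit 282) .nil))))))) (.g (nat_lit 4) .nil .nil))) 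
(.lf (nat_lit 250594) (.g (nat_lit 5880) (.e (nat_lit 163874) (nat_lit 3) (.e (nat_lit 204829) (nat_lit 18) (.e (nat_lit 57927) (nat_lit 282) (.e (nat_lit 164084) (nat_lit 73) (.e (nat_lit 336027) (nat_lit 3) (.e (nat_lit 98365) (nat_lit 26) (.e (nat_lit 426100) (nat_lit 1) (.e (nat_lit 164332) (nat_lit 230) .nil)))))))) (.g (nat_lit 0) .nil .nil)))) (.nd (nat_lit 5) 
(.lf (nat_lit 250578) (.g (nat_lit 2802) (.e (nat_lit 163873) (nat_lit 3) (.e (nat_lit 204864) (nat_lit 27) (.e (nat_lit 344133) (nat_lit 26) (.e (nat_lit 557098) (nat_lit 13) (.e (nat_lit 179968) (nat_lit 18) (.e (nat_lit 98343) (nat_lit 21) (.e (nat_lit 229680) (nat_lit 244) .nil))))))) (.g (nat_lit 4) .nil .nil))) 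
(.lf (nat_lit 250610) (.g (nat_lit 1546) (.e (nat_lit 163874) (nat_lit 3) (.e (nat_lit 204830) (nat_lit 18) (.e (nat_lit 57927) (nat_lit 282) (.e (nat_lit 164084) (nat_lit 73) .nil)))) .nil)))) (.nd (nat_lit 4) (.nd (nat_lit 5) 
(.lf (nat_lit 250570) (.g (nat_lit 2669) (.e (nat_lit 163873) (nat_lit 3) (.e (nat_lit 204863) (nat_lit 27) (.e (nat_lit 344133) (nat_lit 26) (.e (nat_lit 557098) (nat_lit 13) (.e (nat_lit 179968) (nat_lit 18) .nil))))) .nil)) 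
(.lf (nat_lit 250602) (.g (nat_lit 4372) (.e (nat_lit 163874) (nat_lit 3) (.e (nat_lit 204830) (nat_lit 18) (.e (nat_lit 57852) (nat_lit 252) (.e (nat_lit 57430) (nat_lit 16) (.e (nat_lit 368676) (nat_lit 21) (.e (nat_lit 516146) (nat_lit 9) (.e (nat_lit 426422) (nat_lit 16) (.e (nat_lit 57692) (nat_lit 156) .nil)))))))) (.g (nat_lit 6) .nil .nil)))) (.nd (nat_lit 5) 
(.lf (nat_lit 250586) (.g (nat_lit 3066) (.e (nat_lit 163874) (nat_lit 3) (.e (nat_lit 204829) (nat_lit 18) (.e (nat_lit 57847) (nat_lit 252) (.e (nat_lit 57411) (nat_lit 12) (.e (nat_lit 336019) (nat_lit 3) (.e (nat_lit 98356) (nat_lit 26) (.e (nat_lit 426422) (nat_lit 16) (.e (nat_lit 57691) (nat_lit 156) .nil)))))))) (.g (nat_lit 4) .nil .nil))) 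
(.lf (nat_lit 250618) (.g (nat_lit 2634) (.e (nat_lit 163874) (nat_lit 3) (.e (nat_lit 204831) (nat_lit 18) (.e (nat_lit 57852) (nat_lit 252) (.e (nat_lit 57417) (nat_lit 12) (.e (nat_lit 336017) (nat_lit 3) (.e (nat_lit 98356) (nat_lit 26) (.e (nat_lit 426422) (nat_lit 16) (.e (nat_lit 57692) (nat_lit 156) .nil)))))))) (.g (nat_lit 4) .nil .nil)))))) 
(.nd (nat_lit 3) (.nd (nat_lit 4) (.nd (nat_lit 5) 
(.lf (nat_lit 250566) (.g (nat_lit 1018) (.e (nat_lit 163873) (nat_lit 3) (.e (nat_lit 204863) (nat_lit 27) (.e (nat_lit 344120) (nat_lit 21) .nil))) .nil)) 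
(.lf (nat_lit 250598) (.g (nat_lit 699) (.e (nat_lit 163874) (nat_lit 3) (.e (nat_lit 204830) (nat_lit 18) (.e (nat_lit 57830) (nat_lit 250) .nil))) .nil))) (.nd (nat_lit 5) 
(.lf (nat_lit 250582) (.g (nat_lit 2249) (.e (nat_lit 163874) (nat_lit 3) (.e (nat_lit 204809) (nat_lit 9) (.e (nat_lit 426139) (nat_lit 3) (.e (nat_lit 204834) (nat_lit 19) (.e (nat_lit 106540) (nat_lit 13) (.e (nat_lit 122936) (nat_lit 23) (.e (nat_lit 516117) (nat_lit 1) (.e (nat_lit 164330) (nat_lit 230) .nil)))))))) (.g (nat_lit 4) .nil .nil))) 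
(.lf (nat_lit 250614) (.g (nat_lit 3256) (.e (nat_lit 163874) (nat_lit 3) (.e (nat_lit 204831) (nat_lit 18) (.e (nat_lit 57847) (nat_lit 252) (.e (nat_lit 57411) (nat_lit 12) (.e (nat_lit 336019) (nat_lit 3) (.e (nat_lit 98356) (nat_lit 26) (.e (nat_lit 426422) (nat_lit 16) (.e (nat_lit 57692) (nat_lit 156) .nil)))))))) (.g (nat_lit 5) .nil .nil))))) (.nd (nat_lit 4) (.nd (nat_lit 5) 
(.lf (nat_lit 250574) (.g (nat_lit 2591) (.e (nat_lit 163873) (nat_lit 3) (.e (nat_lit 204864) (nat_lit 27) (.e (nat_lit 344130) (nat_lit 26) (.e (nat_lit 557097) (nat_lit 13) (.e (nat_lit 179968) (nat_lit 18) (.e (nat_lit 98343) (nat_lit 21) (.e (nat_lit 229680) (nat_lit 244) .nil))))))) (.g (nat_lit 4) .nil .nil))) 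
(.lf (nat_lit 250606) (.g (nat_lit 2223) (.e (nat_lit 163874) (nat_lit 3) (.e (nat_lit 204830) (nat_lit 18) (.e (nat_lit 57854) (nat_lit 252) (.e (nat_lit 57430) (nat_lit 16) (.e (nat_lit 368676) (nat_lit 21) (.e (nat_lit 516146) (nat_lit 9) (.e (nat_lit 426422) (nat_lit 16) (.e (nat_lit 57692) (nat_lit 156) .nil)))))))) (.g (nat_lit 4) .nil .nil)))) (.nd (nat_lit 5) 
(.lf (nat_lit 250590) (.g (nat_lit 2811) (.e (nat_lit 163874) (nat_lit 3) (.e (nat_lit 204829) (nat_lit 18) (.e (nat_lit 57847) (nat_lit 252) (.e (nat_lit 57411) (nat_lit 12) (.e (nat_lit 336019) (nat_lit 3) (.e (nat_lit 98384) (nat_lit 32) (.e (nat_lit 475163) (nat_lit 21) (.e (nat_lit 7282) (nat_lit 386) .nil)))))))) (.g (nat_lit 4) .nil .nil))) 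
(.lf (nat_lit 250622) (.g (nat_lit 3349) (.e (nat_lit 163874) (nat_lit 3) (.e (nat_lit 204831) (nat_lit 18) (.e (nat_lit 57854) (nat_lit 252) (.e (nat_lit 57431) (nat_lit 16) (.e (nat_lit 368676) (nat_lit 21) (.e (nat_lit 516146) (nat_lit 9) (.e (nat_lit 426422) (nat_lit 16) (.e (nat_lit 57688) (nat_lit 156) .nil)))))))) (.g (nat_lit 4) .nil .nil)))))))) 
(.nd (nat_lit 1) (.nd (nat_lit 2) (.nd (nat_lit 3) (.nd (nat_lit 4) (.nd (nat_lit 5) 
(.lf (nat_lit 250561) (.g (nat_lit 3485) (.e (nat_lit 163873) (nat_lit 3) (.e (nat_lit 204863) (nat_lit 27) (.e (nat_lit 344117) (nat_lit 21) (.e (nat_lit 516130) (nat_lit 3) (.e (nat_lit 221214) (nat_lit 23) (.e (nat_lit 204829) (nat_lit 18) (.e (nat_lit 57927) (nat_lit 282) .nil))))))) (.g (nat_lit 5) .nil .nil))) 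
(.lf (nat_lit 250593) (.g (nat_lit 1464) (.e (nat_lit 163874) (nat_lit 3) (.e (nat_lit 204829) (nat_lit 18) (.e (nat_lit 57927) (nat_lit 282) (.e (nat_lit 164084) (nat_lit 73) .nil)))) .nil))) (.nd (nat_lit 5) 
(.lf (nat_lit 250577) (.g (nat_lit 2782) (.e (nat_lit 163873) (nat_lit 3) (.e (nat_lit 204864) (nat_lit 27) (.e (nat_lit 344133) (nat_lit 26) (.e (nat_lit 557098) (nat_lit 13) (.e (nat_lit 179968) (nat_lit 18) (.e (nat_lit 98343) (nat_lit 21) (.e (nat_lit 229678) (nat_lit 244) .nil))))))) (.g (nat_lit 4) .nil .nil))) 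
(.lf (nat_lit 250609) (.g (nat_lit 3568) (.e (nat_lit 163874) (nat_lit 3) (.e (nat_lit 204830) (nat_lit 18) (.e (nat_lit 57926) (nat_lit 282) (.e (nat_lit 164084) (nat_lit 73) (.e (nat_lit 336027) (nat_lit 3) (.e (nat_lit 98365) (nat_lit 26) (.e (nat_lit 426099) (nat_lit 1) (.e (nat_lit 164332) (nat_lit 230) .nil)))))))) (.g (nat_lit 5) .nil .nil))))) (.nd (nat_lit 4) (.nd (nat_lit 5) 
(.lf (nat_lit 250569) (.g (nat_lit 2092) (.e (nat_lit 163873) (nat_lit 3) (.e (nat_lit 204863) (nat_lit 27) (.e (nat_lit 344133) (nat_lit 26) (.e (nat_lit 557096) (nat_lit 13) .nil)))) .nil)) 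
(.lf (nat_lit 250601) (.g (nat_lit 3565) (.e (nat_lit 163874) (nat_lit 3) (.e (nat_lit 204830) (nat_lit 18) (.e (nat_lit 57852) (nat_lit 252) (.e (nat_lit 57419) (nat_lit 12) (.e (nat_lit 336021) (nat_lit 3) (.e (nat_lit 98356) (nat_lit 26) (.e (nat_lit 426422) (nat_lit 16) (.e (nat_lit 57692) (nat_lit 156) .nil)))))))) (.g (nat_lit 5) .nil .nil)))) (.nd (nat_lit 5) 
(.lf (nat_lit 250585) (.g (nat_lit 3354) (.e (nat_lit 163874) (nat_lit 3) (.e (nat_lit 204829) (nat_lit 18) (.e (nat_lit 57847) (nat_lit 252) (.e (nat_lit 57411) (nat_lit 12) (.e (nat_lit 336019) (nat_lit 3) (.e (nat_lit 98356) (nat_lit 26) (.e (nat_lit 426422) (nat_lit 16) (.e (nat_lit 57687) (nat_lit 156) .nil)))))))) (.g (nat_lit 4) .nil .nil))) 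
(.lf (nat_lit 250617) (.g (nat_lit 3622) (.e (nat_lit 163874) (nat_lit 3) (.e (nat_lit 204831) (nat_lit 18) (.e (nat_lit 57852) (nat_lit 252) (.e (nat_lit 57409) (nat_lit 12) (.e (nat_lit 336019) (nat_lit 3) (.e (nat_lit 98356) (nat_lit 26) (.e (nat_lit 426422) (nat_lit 16) (.e (nat_lit 57692) (nat_lit 156) .nil)))))))) (.g (nat_lit 6) .nil .nil)))))) 
(.nd (nat_lit 3) (.nd (nat_lit 4) (.nd (nat_lit 5) 
(.lf (nat_lit 250565) (.g (nat_lit 3078) (.e (nat_lit 163873) (nat_lit 3) (.e (nat_lit 204863) (nat_lit 27) (.e (nat_lit 344117) (nat_lit 21) (.e (nat_lit 516130) (nat_lit 3) (.e (nat_lit 221215) (nat_lit 23) (.e (nat_lit 204829) (nat_lit 18) (.e (nat_lit 57931) (nat_lit 282) .nil))))))) (.g (nat_lit 4) .nil .nil))) 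
(.lf (nat_lit 250597) (.g (nat_lit 977) (.e (nat_lit 163874) (nat_lit 3) (.e (nat_lit 204830) (nat_lit 18) (.e (nat_lit 57829) (nat_lit 250) .nil))) .nil))) (.nd (nat_lit 5) 
(.lf (nat_lit 250581) (.g (nat_lit 3478) (.e (nat_lit 163873) (nat_lit 3) (.e (nat_lit 204864) (nat_lit 27) (.e (nat_lit 344133) (nat_lit 26) (.e (nat_lit 557105) (nat_lit 14) (.e (nat_lit 180252) (nat_lit 10) (.e (nat_lit 573474) (nat_lit 12) (.e (nat_lit 57348) (nat_lit 0) (.e (nat_lit 5593) (nat_lit 310) .nil)))))))) (.g (nat_lit 5) .nil .nil))) 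
(.lf (nat_lit 250613) (.g (nat_lit 2793) (.e (nat_lit 163874) (nat_lit 3) (.e (nat_lit 204830) (nat_lit 18) (.e (nat_lit 57931) (nat_lit 282) (.e (nat_lit 164084) (nat_lit 73) (.e (nat_lit 336027) (nat_lit 3) (.e (nat_lit 98365) (nat_lit 26) (.e (nat_lit 426099) (nat_lit 1) (.e (nat_lit 164332) (nat_lit 230) .nil)))))))) (.g (nat_lit 4) .nil .nil))))) (.nd (nat_lit 4) (.nd (nat_lit 5) 
(.lf (nat_lit 250573) (.g (nat_lit 2547) (.e (nat_lit 163873) (nat_lit 3) (.e (nat_lit 204864) (nat_lit 27) (.e (nat_lit 344130) (nat_lit 26) (.e (nat_lit 557097) (nat_lit 13) (.e (nat_lit 179968) (nat_lit 18) (.e (nat_lit 98343) (nat_lit 21) (.e (nat_lit 229678) (nat_lit 244) .nil))))))) (.g (nat_lit 4) .nil .nil))) 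
(.lf (nat_lit 250605) (.g (nat_lit 3919) (.e (nat_lit 163874) (nat_lit 3) (.e (nat_lit 204830) (nat_lit 18) (.e (nat_lit 57854) (nat_lit 252) (.e (nat_lit 57409) (nat_lit 12) (.e (nat_lit 336019) (nat_lit 3) (.e (nat_lit 98356) (nat_lit 26) (.e (nat_lit 426422) (nat_lit 16) (.e (nat_lit 57692) (nat_lit 156) .nil)))))))) (.g (nat_lit 5) .nil .nil)))) (.nd (nat_lit 5) 
(.lf (nat_lit 250589) (.g (nat_lit 3427) (.e (nat_lit 163874) (nat_lit 3) (.e (nat_lit 204829) (nat_lit 18) (.e (nat_lit 57847) (nat_lit 252) (.e (nat_lit 57411) (nat_lit 12) (.e (nat_lit 336019) (nat_lit 3) (.e (nat_lit 98384) (nat_lit 32) (.e (nat_lit 475161) (nat_lit 21) (.e (nat_lit 7281) (nat_lit 386) .nil)))))))) (.g (nat_lit 4) .nil .nil))) 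
(.lf (nat_lit 250621) (.g (nat_lit 3758) (.e (nat_lit 163874) (nat_lit 3) (.e (nat_lit 204831) (nat_lit 18) (.e (nat_lit 57854) (nat_lit 252) (.e (nat_lit 57430) (nat_lit 16) (.e (nat_lit 368676) (nat_lit 21) (.e (nat_lit 516146) (nat_lit 9) (.e (nat_lit 426422) (nat_lit 16) (.e (nat_lit 57692) (nat_lit 156) .nil)))))))) (.g (nat_lit 5) .nil .nil))))))) 
(.nd (nat_lit 2) (.nd (nat_lit 3) (.nd (nat_lit 4) (.nd (nat_lit 5) 
(.lf (nat_lit 250563) (.g (nat_lit 3023) (.e (nat_lit 163873) (nat_lit 3) (.e (nat_lit 204863) (nat_lit 27) (.e (nat_lit 344117) (nat_lit 21) (.e (nat_lit 516130) (nat_lit 3) (.e (nat_lit 221214) (nat_lit 23) (.e (nat_lit 204831) (nat_lit 18) (.e (nat_lit 57931) (nat_lit 282) .nil))))))) (.g (nat_lit 4) .nil .nil))) 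
(.lf (nat_lit 250595) (.g (nat_lit 4451) (.e (nat_lit 163874) (nat_lit 3) (.e (nat_lit 204829) (nat_lit 18) (.e (nat_lit 57931) (nat_lit 282) (.e (nat_lit 164084) (nat_lit 73) (.e (nat_lit 336012) (nat_lit 2) (.e (nat_lit 90185) (nat_lit 17) (.e (nat_lit 237585) (nat_lit 1) (.e (nat_lit 164332) (nat_lit 230) .nil)))))))) (.g (nat_lit 6) .nil .nil)))) (.nd (nat_lit 5) 
(.lf (nat_lit 250579) (.g (nat_lit 2720) (.e (nat_lit 163873) (nat_lit 3) (.e (nat_lit 204864) (nat_lit 27) (.e (nat_lit 344133) (nat_lit 26) (.e (nat_lit 557105) (nat_lit 14) (.e (nat_lit 180252) (nat_lit 10) (.e (nat_lit 573474) (nat_lit 12) (.e (nat_lit 57347) (nat_lit 0) (.e (nat_lit 5591) (nat_lit 310) .nil)))))))) (.g (nat_lit 4) .nil .nil))) 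
(.lf (nat_lit 250611) (.g (nat_lit 3538) (.e (nat_lit 163874) (nat_lit 3) (.e (nat_lit 204830) (nat_lit 18) (.e (nat_lit 57929) (nat_lit 282) (.e (nat_lit 164084) (nat_lit 73) (.e (nat_lit 336012) (nat_lit 2) (.e (nat_lit 90185) (nat_lit 17) (.e (nat_lit 237582) (nat_lit 1) (.e (nat_lit 164332) (nat_lit 230) .nil)))))))) (.g (nat_lit 6) .nil .nil))))) (.nd (nat_lit 4) (.nd (nat_lit 5) 
(.lf (nat_lit 250571) (.g (nat_lit 2752) (.e (nat_lit 163873) (nat_lit 3) (.e (nat_lit 204863) (nat_lit 27) (.e (nat_lit 344133) (nat_lit 26) (.e (nat_lit 557098) (nat_lit 13) (.e (nat_lit 179968) (nat_lit 18) (.e (nat_lit 98344) (nat_lit 21) (.e (nat_lit 229678) (nat_lit 244) .nil))))))) (.g (nat_lit 4) .nil .nil))) 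
(.lf (nat_lit 250603) (.g (nat_lit 2659) (.e (nat_lit 163874) (nat_lit 3) (.e (nat_lit 204830) (nat_lit 18) (.e (nat_lit 57852) (nat_lit 252) (.e (nat_lit 57431) (nat_lit 16) (.e (nat_lit 368676) (nat_lit 21) (.e (nat_lit 516150) (nat_lit 9) (.e (nat_lit 426422) (nat_lit 16) (.e (nat_lit 57692) (nat_lit 156) .nil)))))))) (.g (nat_lit 4) .nil .nil)))) (.nd (nat_lit 5) 
(.lf (nat_lit 250587) (.g (nat_lit 3346) (.e (nat_lit 163874) (nat_lit 3) (.e (nat_lit 204829) (nat_lit 18) (.e (nat_lit 57847) (nat_lit 252) (.e (nat_lit 57411) (nat_lit 12) (.e (nat_lit 336019) (nat_lit 3) (.e (nat_lit 98358) (nat_lit 26) (.e (nat_lit 426422) (nat_lit 16) (.e (nat_lit 57692) (nat_lit 156) .nil)))))))) (.g (nat_lit 5) .nil .nil))) 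
(.lf (nat_lit 250619) (.g (nat_lit 3917) (.e (nat_lit 163874) (nat_lit 3) (.e (nat_lit 204831) (nat_lit 18) (.e (nat_lit 57852) (nat_lit 252) (.e (nat_lit 57430) (nat_lit 16) (.e (nat_lit 368676) (nat_lit 21) (.e (nat_lit 516146) (nat_lit 9) (.e (nat_lit 426422) (nat_lit 16) (.e (nat_lit 57692) (nat_lit 156) .nil)))))))) (.g (nat_lit 6) .nil .nil)))))) 
(.nd (nat_lit 3) (.nd (nat_lit 4) (.nd (nat_lit 5) 
(.lf (nat_lit 250567) (.g (nat_lit 2694) (.e (nat_lit 163873) (nat_lit 3) (.e (nat_lit 204863) (nat_lit 27) (.e (nat_lit 344129) (nat_lit 26) (.e (nat_lit 557097) (nat_lit 13) (.e (nat_lit 179968) (nat_lit 18) .nil))))) .nil)) 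
(.lf (nat_lit 250599) (.g (nat_lit 731) (.e (nat_lit 163874) (nat_lit 3) (.e (nat_lit 204830) (nat_lit 18) (.e (nat_lit 57852) (nat_lit 252) .nil))) .nil))) (.nd (nat_lit 5) 
(.lf (nat_lit 250583) (.g (nat_lit 1462) (.e (nat_lit 163874) (nat_lit 3) (.e (nat_lit 204809) (nat_lit 9) (.e (nat_lit 426198) (nat_lit 9) (.e (nat_lit 426568) (nat_lit 34) .nil)))) .nil)) 
(.lf (nat_lit 250615) (.g (nat_lit 2518) (.e (nat_lit 163874) (nat_lit 3) (.e (nat_lit 204831) (nat_lit 18) (.e (nat_lit 57847) (nat_lit 252) (.e (nat_lit 57432) (nat_lit 16) (.e (nat_lit 368676) (nat_lit 21) (.e (nat_lit 516146) (nat_lit 9) (.e (nat_lit 426422) (nat_lit 16) (.e (nat_lit 57692) (nat_lit 156) .nil)))))))) (.g (nat_lit 4) .nil .nil))))) (.nd (nat_lit 4) (.nd (nat_lit 5) 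
(.lf (nat_lit 250575) (.g (nat_lit 1237) (.e (nat_lit 163873) (nat_lit 3) (.e (nat_lit 204864) (nat_lit 27) (.e (nat_lit 344133) (nat_lit 26) (.e (nat_lit 557096) (nat_lit 13) .nil)))) .nil)) 
(.lf (nat_lit 250607) (.g (nat_lit 778) (.e (nat_lit 163874) (nat_lit 3) (.e (nat_lit 204830) (nat_lit 18) (.e (nat_lit 57926) (nat_lit 282) .nil))) .nil))) (.nd (nat_lit 5) 
(.lf (nat_lit 250591) (.g (nat_lit 2179) (.e (nat_lit 163874) (nat_lit 3) (.e (nat_lit 204829) (nat_lit 18) (.e (nat_lit 57847) (nat_lit 252) (.e (nat_lit 57430) (nat_lit 16) (.e (nat_lit 368676) (nat_lit 21) (.e (nat_lit 516150) (nat_lit 9) (.e (nat_lit 426422) (nat_lit 16) (.e (nat_lit 57692) (nat_lit 156) .nil)))))))) (.g (nat_lit 4) .nil .nil))) 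
(.lf (nat_lit 250623) (.g (nat_lit 2256) (.e (nat_lit 163874) (nat_lit 3) (.e (nat_lit 204836) (nat_lit 20) (.e (nat_lit 114714) (nat_lit 22) (.e (nat_lit 90172) (nat_lit 14) (.e (nat_lit 180243) (nat_lit 5) (.e (nat_lit 532504) (nat_lit 1) (.e (nat_lit 57690) (nat_lit 156) .nil))))))) (.g (nat_lit 4) .nil .nil)))))))))

noncomputable def tv3247 : DT := (.nd (nat_lit 0) (.nd (nat_lit 1) (.nd (nat_lit 2) (.nd (nat_lit 3) (.nd (nat_lit 4) (.nd (nat_lit 5) 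
(.lf (nat_lit 250624) (.g (nat_lit 2494) (.e (nat_lit 163874) (nat_lit 3) (.e (nat_lit 204836) (nat_lit 20) (.e (nat_lit 114714) (nat_lit 22) (.e (nat_lit 90172) (nat_lit 14) (.e (nat_lit 180244) (nat_lit 5) (.e (nat_lit 532501) (nat_lit 1) (.e (nat_lit 57690) (nat_lit 156) .nil))))))) (.g (nat_lit 4) .nil .nil))) 
(.lf (nat_lit 250656) (.g (nat_lit 2954) (.e (nat_lit 163874) (nat_lit 3) (.e (nat_lit 204837) (nat_lit 20) (.e (nat_lit 114714) (nat_lit 22) (.e (nat_lit 90172) (nat_lit 14) (.e (nat_lit 180243) (nat_lit 5) (.e (nat_lit 532503) (nat_lit 1) (.e (nat_lit 57692) (nat_lit 156) .nil))))))) (.g (nat_lit 4) .nil .nil)))) (.nd (nat_lit 5) 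
(.lf (nat_lit 250640) (.g (nat_lit 3266) (.e (nat_lit 163874) (nat_lit 3) (.e (nat_lit 204837) (nat_lit 20) (.e (nat_lit 114714) (nat_lit 22) (.e (nat_lit 90170) (nat_lit 13) (.e (nat_lit 172067) (nat_lit 3) (.e (nat_lit 204830) (nat_lit 18) (.e (nat_lit 57692) (nat_lit 156) .nil))))))) (.g (nat_lit 5) .nil .nil))) 
(.lf (nat_lit 250672) (.g (nat_lit 3204) (.e (nat_lit 163874) (nat_lit 3) (.e (nat_lit 204837) (nat_lit 20) (.e (nat_lit 114714) (nat_lit 22) (.e (nat_lit 90172) (nat_lit 14) (.e (nat_lit 180244) (nat_lit 5) (.e (nat_lit 532502) (nat_lit 1) (.e (nat_lit 57688) (nat_lit 156) .nil))))))) (.g (nat_lit 5) .nil .nil))))) (.nd (nat_lit 4) (.nd (nat_lit 5) 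
(.lf (nat_lit 250632) (.g (nat_lit 3375) (.e (nat_lit 163874) (nat_lit 3) (.e (nat_lit 204837) (nat_lit 20) (.e (nat_lit 114714) (nat_lit 22) (.e (nat_lit 90170) (nat_lit 13) (.e (nat_lit 172065) (nat_lit 3) (.e (nat_lit 204830) (nat_lit 18) (.e (nat_lit 57690) (nat_lit 156) .nil))))))) (.g (nat_lit 4) .nil .nil))) 
(.lf (nat_lit 250664) (.g (nat_lit 2766) (.e (nat_lit 163874) (nat_lit 3) (.e (nat_lit 204837) (nat_lit 20) (.e (nat_lit 114714) (nat_lit 22) (.e (nat_lit 90172) (nat_lit 14) (.e (nat_lit 180244) (nat_lit 5) (.e (nat_lit 532499) (nat_lit 1) (.e (nat_lit 57690) (nat_lit 156) .nil))))))) (.g (nat_lit 4) .nil .nil)))) (.nd (nat_lit 5) 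
(.lf (nat_lit 250648) (.g (nat_lit 3516) (.e (nat_lit 163874) (nat_lit 3) (.e (nat_lit 204837) (nat_lit 20) (.e (nat_lit 114714) (nat_lit 22) (.e (nat_lit 90172) (nat_lit 14) (.e (nat_lit 180243) (nat_lit 5) (.e (nat_lit 532501) (nat_lit 1) (.e (nat_lit 57691) (nat_lit 156) .nil))))))) (.g (nat_lit 5) .nil .nil))) 
(.lf (nat_lit 250680) (.g (nat_lit 4678) (.e (nat_lit 163874) (nat_lit 3) (.e (nat_lit 204837) (nat_lit 20) (.e (nat_lit 114714) (nat_lit 22) (.e (nat_lit 90172) (nat_lit 14) (.e (nat_lit 180244) (nat_lit 5) (.e (nat_lit 532504) (nat_lit 1) (.e (nat_lit 57692) (nat_lit 156) .nil))))))) (.g (nat_lit 7) .nil .nil)))))) (.nd (nat_lit 3) (.nd (nat_lit 4) (.nd (nat_lit 5) 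
(.lf (nat_lit 250628) (.g (nat_lit 1441) (.e (nat_lit 163874) (nat_lit 3) (.e (nat_lit 204837) (nat_lit 20) (.e (nat_lit 114714) (nat_lit 22) (.e (nat_lit 90168) (nat_lit 13) .nil)))) .nil)) 
(.lf (nat_lit 250660) (.g (nat_lit 4825) (.e (nat_lit 163874) (nat_lit 3) (.e (nat_lit 204837) (nat_lit 20) (.e (nat_lit 114714) (nat_lit 22) (.e (nat_lit 90172) (nat_lit 14) (.e (nat_lit 180243) (nat_lit 5) (.e (nat_lit 532504) (nat_lit 1) (.e (nat_lit 57692) (nat_lit 156) .nil))))))) (.g (nat_lit 7) .nil .nil)))) (.nd (nat_lit 5) 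
(.lf (nat_lit 250644) (.g (nat_lit 3745) (.e (nat_lit 163874) (nat_lit 3) (.e (nat_lit 204837) (nat_lit 20) (.e (nat_lit 114714) (nat_lit 22) (.e (nat_lit 90172) (nat_lit 14) (.e (nat_lit 180243) (nat_lit 5) (.e (nat_lit 532499) (nat_lit 1) (.e (nat_lit 57691) (nat_lit 156) .nil))))))) (.g (nat_lit 5) .nil .nil))) 
(.lf (nat_lit 250676) (.g (nat_lit 3955) (.e (nat_lit 163874) (nat_lit 3) (.e (nat_lit 204837) (nat_lit 20) (.e (nat_lit 114714) (nat_lit 22) (.e (nat_lit 90172) (nat_lit 14) (.e (nat_lit 180244) (nat_lit 5) (.e (nat_lit 532503) (nat_lit 1) (.e (nat_lit 57689) (nat_lit 156) .nil))))))) (.g (nat_lit 6) .nil .nil))))) (.nd (nat_lit 4) (.nd (nat_lit 5) 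
(.lf (nat_lit 250636) (.g (nat_lit 3831) (.e (nat_lit 163874) (nat_lit 3) (.e (nat_lit 204837) (nat_lit 20) (.e (nat_lit 114714) (nat_lit 22) (.e (nat_lit 90170) (nat_lit 13) (.e (nat_lit 172067) (nat_lit 3) (.e (nat_lit 204829) (nat_lit 18) (.e (nat_lit 57692) (nat_lit 156) .nil))))))) (.g (nat_lit 5) .nil .nil))) 
(.lf (nat_lit 250668) (.g (nat_lit 2555) (.e (nat_lit 163874) (nat_lit 3) (.e (nat_lit 204837) (nat_lit 20) (.e (nat_lit 114714) (nat_lit 22) (.e (nat_lit 90172) (nat_lit 14) (.e (nat_lit 180244) (nat_lit 5) (.e (nat_lit 532501) (nat_lit 1) (.e (nat_lit 57685) (nat_lit 156) .nil))))))) (.g (nat_lit 4) .nil .nil)))) (.nd (nat_lit 5) 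
(.lf (nat_lit 250652) (.g (nat_lit 2935) (.e (nat_lit 163874) (nat_lit 3) (.e (nat_lit 204837) (nat_lit 20) (.e (nat_lit 114714) (nat_lit 22) (.e (nat_lit 90172) (nat_lit 14) (.e (nat_lit 180243) (nat_lit 5) (.e (nat_lit 532503) (nat_lit 1) (.e (nat_lit 57687) (nat_lit 156) .nil))))))) (.g (nat_lit 4) .nil .nil))) 
(.lf (nat_lit 250684) (.g (nat_lit 3748) (.e (nat_lit 163874) (nat_lit 3) (.e (nat_lit 204837) (nat_lit 20) (.e (nat_lit 114714) (nat_lit 22) (.e (nat_lit 90174) (nat_lit 14) (.e (nat_lit 180243) (nat_lit 5) (.e (nat_lit 532503) (nat_lit 1) (.e (nat_lit 57687) (nat_lit 156) .nil))))))) (.g (nat_lit 5) .nil .nil))))))) (.nd (nat_lit 2) (.nd (nat_lit 3) (.nd (nat_lit 4) (.nd (nat_lit 5) 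
(.lf (nat_lit 250626) (.g (nat_lit 1445) (.e (nat_lit 163874) (nat_lit 3) (.e (nat_lit 204837) (nat_lit 20) (.e (nat_lit 114714) (nat_lit 22) (.e (nat_lit 90167) (nat_lit 13) .nil)))) .nil)) 
(.lf (nat_lit 250658) (.g (nat_lit 3915) (.e (nat_lit 163874) (nat_lit 3) (.e (nat_lit 204837) (nat_lit 20) (.e (nat_lit 114714) (nat_lit 22) (.e (nat_lit 90172) (nat_lit 14) (.e (nat_lit 180243) (nat_lit 5) (.e (nat_lit 532504) (nat_lit 1) (.e (nat_lit 57690) (nat_lit 156) .nil))))))) (.g (nat_lit 6) .nil .nil)))) (.nd (nat_lit 5) 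
(.lf (nat_lit 250642) (.g (nat_lit 1295) (.e (nat_lit 163874) (nat_lit 3) (.e (nat_lit 204837) (nat_lit 20) (.e (nat_lit 114714) (nat_lit 22) (.e (nat_lit 90172) (nat_lit 14) .nil)))) .nil)) 
(.lf (nat_lit 250674) (.g (nat_lit 3992) (.e (nat_lit 163874) (nat_lit 3) (.e (nat_lit 204837) (nat_lit 20) (.e (nat_lit 114714) (nat_lit 22) (.e (nat_lit 90172) (nat_lit 14) (.e (nat_lit 180244) (nat_lit 5) (.e (nat_lit 532503) (nat_lit 1) (.e (nat_lit 57687) (nat_lit 156) .nil))))))) (.g (nat_lit 5) .nil .nil))))) (.nd (nat_lit 4) (.nd (nat_lit 5) 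
(.lf (nat_lit 250634) (.g (nat_lit 3167) (.e (nat_lit 163874) (nat_lit 3) (.e (nat_lit 204837) (nat_lit 20) (.e (nat_lit 114714) (nat_lit 22) (.e (nat_lit 90170) (nat_lit 13) (.e (nat_lit 172065) (nat_lit 3) (.e (nat_lit 204831) (nat_lit 18) (.e (nat_lit 57692) (nat_lit 156) .nil))))))) (.g (nat_lit 4) .nil .nil))) 
(.lf (nat_lit 250666) (.g (nat_lit 2747) (.e (nat_lit 163874) (nat_lit 3) (.e (nat_lit 204837) (nat_lit 20) (.e (nat_lit 114714) (nat_lit 22) (.e (nat_lit 90172) (nat_lit 14) (.e (nat_lit 180244) (nat_lit 5) (.e (nat_lit 532500) (nat_lit 1) (.e (nat_lit 57691) (nat_lit 156) .nil))))))) (.g (nat_lit 4) .nil .nil)))) (.nd (nat_lit 5) 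
(.lf (nat_lit 250650) (.g (nat_lit 2339) (.e (nat_lit 163874) (nat_lit 3) (.e (nat_lit 204837) (nat_lit 20) (.e (nat_lit 114714) (nat_lit 22) (.e (nat_lit 90172) (nat_lit 14) (.e (nat_lit 180243) (nat_lit 5) (.e (nat_lit 532502) (nat_lit 1) (.e (nat_lit 57688) (nat_lit 156) .nil))))))) (.g (nat_lit 4) .nil .nil))) 
(.lf (nat_lit 250682) (.g (nat_lit 3470) (.e (nat_lit 163874) (nat_lit 3) (.e (nat_lit 204837) (nat_lit 20) (.e (nat_lit 114714) (nat_lit 22) (.e (nat_lit 90174) (nat_lit 14) (.e (nat_lit 180243) (nat_lit 5) (.e (nat_lit 532499) (nat_lit 1) (.e (nat_lit 57687) (nat_lit 156) .nil))))))) (.g (nat_lit 5) .nil .nil)))))) (.nd (nat_lit 3) (.nd (nat_lit 4) (.nd (nat_lit 5) 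
(.lf (nat_lit 250630) (.g (nat_lit 3789) (.e (nat_lit 163874) (nat_lit 3) (.e (nat_lit 204837) (nat_lit 20) (.e (nat_lit 114714) (nat_lit 22) (.e (nat_lit 90170) (nat_lit 13) (.e (nat_lit 172065) (nat_lit 3) (.e (nat_lit 204829) (nat_lit 18) (.e (nat_lit 57692) (nat_lit 156) .nil))))))) (.g (nat_lit 5) .nil .nil))) 
(.lf (nat_lit 250662) (.g (nat_lit 5976) (.e (nat_lit 163874) (nat_lit 3) (.e (nat_lit 204837) (nat_lit 20) (.e (nat_lit 114714) (nat_lit 22) (.e (nat_lit 90172) (nat_lit 14) (.e (nat_lit 180244) (nat_lit 5) (.e (nat_lit 532499) (nat_lit 1) (.e (nat_lit 57688) (nat_lit 156) .nil))))))) (.g (nat_lit 0) .nil .nil)))) (.nd (nat_lit 5) 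
(.lf (nat_lit 250646) (.g (nat_lit 3459) (.e (nat_lit 163874) (nat_lit 3) (.e (nat_lit 204837) (nat_lit 20) (.e (nat_lit 114714) (nat_lit 22) (.e (nat_lit 90172) (nat_lit 14) (.e (nat_lit 180243) (nat_lit 5) (.e (nat_lit 532501) (nat_lit 1) (.e (nat_lit 57689) (nat_lit 156) .nil))))))) (.g (nat_lit 5) .nil .nil))) 
(.lf (nat_lit 250678) (.g (nat_lit 3655) (.e (nat_lit 163874) (nat_lit 3) (.e (nat_lit 204837) (nat_lit 20) (.e (nat_lit 114714) (nat_lit 22) (.e (nat_lit 90172) (nat_lit 14) (.e (nat_lit 180244) (nat_lit 5) (.e (nat_lit 532504) (nat_lit 1) (.e (nat_lit 57690) (nat_lit 156) .nil))))))) (.g (nat_lit 5) .nil .nil))))) (.nd (nat_lit 4) (.nd (nat_lit 5) 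
(.lf (nat_lit 250638) (.g (nat_lit 2512) (.e (nat_lit 163874) (nat_lit 3) (.e (nat_lit 204837) (nat_lit 20) (.e (nat_lit 114714) (nat_lit 22) (.e (nat_lit 90170) (nat_lit 13) (.e (nat_lit 172067) (nat_lit 3) (.e (nat_lit 204830) (nat_lit 18) (.e (nat_lit 57690) (nat_lit 156) .nil))))))) (.g (nat_lit 4) .nil .nil))) 
(.lf (nat_lit 250670) (.g (nat_lit 3932) (.e (nat_lit 163874) (nat_lit 3) (.e (nat_lit 204837) (nat_lit 20) (.e (nat_lit 114714) (nat_lit 22) (.e (nat_lit 90172) (nat_lit 14) (.e (nat_lit 180244) (nat_lit 5) (.e (nat_lit 532501) (nat_lit 1) (.e (nat_lit 57691) (nat_lit 156) .nil))))))) (.g (nat_lit 6) .nil .nil)))) (.nd (nat_lit 5) 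
(.lf (nat_lit 250654) (.g (nat_lit 2949) (.e (nat_lit 163874) (nat_lit 3) (.e (nat_lit 204837) (nat_lit 20) (.e (nat_lit 114714) (nat_lit 22) (.e (nat_lit 90172) (nat_lit 14) (.e (nat_lit 180243) (nat_lit 5) (.e (nat_lit 532503) (nat_lit 1) (.e (nat_lit 57689) (nat_lit 156) .nil))))))) (.g (nat_lit 4) .nil .nil))) 
(.lf (nat_lit 250686) (.g (nat_lit 3702) (.e (nat_lit 163874) (nat_lit 3) (.e (nat_lit 204837) (nat_lit 20) (.e (nat_lit 114714) (nat_lit 22) (.e (nat_lit 90174) (nat_lit 14) (.e (nat_lit 180243) (nat_lit 5) (.e (nat_lit 532504) (nat_lit 1) (.e (nat_lit 57689) (nat_lit 156) .nil))))))) (.g (nat_lit 5) .nil .nil)))))))) 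
(.nd (nat_lit 1) (.nd (nat_lit 2) (.nd (nat_lit 3) (.nd (nat_lit 4) (.nd (nat_lit 5) 
(.lf (nat_lit 250625) (.g (nat_lit 3452) (.e (nat_lit 163874) (nat_lit 3) (.e (nat_lit 204836) (nat_lit 20) (.e (nat_lit 114719) (nat_lit 23) (.e (nat_lit 98365) (nat_lit 26) (.e (nat_lit 426139) (nat_lit 3) (.e (nat_lit 204830) (nat_lit 18) (.e (nat_lit 57692) (nat_lit 156) .nil))))))) (.g (nat_lit 6) .nil .nil))) 
(.lf (nat_lit 250657) (.g (nat_lit 2916) (.e (nat_lit 163874) (nat_lit 3) (.e (nat_lit 204837) (nat_lit 20) (.e (nat_lit 114714) (nat_lit 22) (.e (nat_lit 90172) (nat_lit 14) (.e (nat_lit 180243) (nat_lit 5) (.e (nat_lit 532504) (nat_lit 1) (.e (nat_lit 57689) (nat_lit 156) .nil))))))) (.g (nat_lit 4) .nil .nil)))) (.nd (nat_lit 5) 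
(.lf (nat_lit 250641) (.g (nat_lit 2902) (.e (nat_lit 163874) (nat_lit 3) (.e (nat_lit 204837) (nat_lit 20) (.e (nat_lit 114714) (nat_lit 22) (.e (nat_lit 90170) (nat_lit 13) (.e (nat_lit 172138) (nat_lit 15) .nil))))) .nil)) 
(.lf (nat_lit 250673) (.g (nat_lit 4222) (.e (nat_lit 163874) (nat_lit 3) (.e (nat_lit 204837) (nat_lit 20) (.e (nat_lit 114714) (nat_lit 22) (.e (nat_lit 90172) (nat_lit 14) (.e (nat_lit 180244) (nat_lit 5) (.e (nat_lit 532503) (nat_lit 1) (.e (nat_lit 57685) (nat_lit 156) .nil))))))) (.g (nat_lit 6) .nil .nil))))) (.nd (nat_lit 4) (.nd (nat_lit 5) 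
(.lf (nat_lit 250633) (.g (nat_lit 2840) (.e (nat_lit 163874) (nat_lit 3) (.e (nat_lit 204837) (nat_lit 20) (.e (nat_lit 114714) (nat_lit 22) (.e (nat_lit 90170) (nat_lit 13) (.e (nat_lit 172065) (nat_lit 3) (.e (nat_lit 204831) (nat_lit 18) (.e (nat_lit 57688) (nat_lit 156) .nil))))))) (.g (nat_lit 4) .nil .nil))) 
(.lf (nat_lit 250665) (.g (nat_lit 5222) (.e (nat_lit 163874) (nat_lit 3) (.e (nat_lit 204837) (nat_lit 20) (.e (nat_lit 114714) (nat_lit 22) (.e (nat_lit 90172) (nat_lit 14) (.e (nat_lit 180244) (nat_lit 5) (.e (nat_lit 532499) (nat_lit 1) (.e (nat_lit 57691) (nat_lit 156) .nil))))))) (.g (nat_lit 0) .nil .nil)))) (.nd (nat_lit 5) 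
(.lf (nat_lit 250649) (.g (nat_lit 4035) (.e (nat_lit 163874) (nat_lit 3) (.e (nat_lit 204837) (nat_lit 20) (.e (nat_lit 114714) (nat_lit 22) (.e (nat_lit 90172) (nat_lit 14) (.e (nat_lit 180243) (nat_lit 5) (.e (nat_lit 532501) (nat_lit 1) (.e (nat_lit 57692) (nat_lit 156) .nil))))))) (.g (nat_lit 6) .nil .nil))) 
(.lf (nat_lit 250681) (.g (nat_lit 1444) (.e (nat_lit 163874) (nat_lit 3) (.e (nat_lit 204837) (nat_lit 20) (.e (nat_lit 114714) (nat_lit 22) (.e (nat_lit 90173) (nat_lit 14) .nil)))) .nil))))) (.nd (nat_lit 3) (.nd (nat_lit 4) (.nd (nat_lit 5) 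
(.lf (nat_lit 250629) (.g (nat_lit 3333) (.e (nat_lit 163874) (nat_lit 3) (.e (nat_lit 204837) (nat_lit 20) (.e (nat_lit 114714) (nat_lit 22) (.e (nat_lit 90170) (nat_lit 13) (.e (nat_lit 172065) (nat_lit 3) (.e (nat_lit 204829) (nat_lit 18) (.e (nat_lit 57691) (nat_lit 156) .nil))))))) (.g (nat_lit 4) .nil .nil))) 
(.lf (nat_lit 250661) (.g (nat_lit 3711) (.e (nat_lit 163874) (nat_lit 3) (.e (nat_lit 204837) (nat_lit 20) (.e (nat_lit 114714) (nat_lit 22) (.e (nat_lit 90172) (nat_lit 14) (.e (nat_lit 180244) (nat_lit 5) (.e (nat_lit 532499) (nat_lit 1) (.e (nat_lit 57687) (nat_lit 156) .nil))))))) (.g (nat_lit 5) .nil .nil)))) (.nd (nat_lit 5) 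
(.lf (nat_lit 250645) (.g (nat_lit 4177) (.e (nat_lit 163874) (nat_lit 3) (.e (nat_lit 204837) (nat_lit 20) (.e (nat_lit 114714) (nat_lit 22) (.e (nat_lit 90172) (nat_lit 14) (.e (nat_lit 180243) (nat_lit 5) (.e (nat_lit 532499) (nat_lit 1) (.e (nat_lit 57692) (nat_lit 156) .nil))))))) (.g (nat_lit 6) .nil .nil))) 
(.lf (nat_lit 250677) (.g (nat_lit 3627) (.e (nat_lit 163874) (nat_lit 3) (.e (nat_lit 204837) (nat_lit 20) (.e (nat_lit 114714) (nat_lit 22) (.e (nat_lit 90172) (nat_lit 14) (.e (nat_lit 180244) (nat_lit 5) (.e (nat_lit 532503) (nat_lit 1) (.e (nat_lit 57691) (nat_lit 156) .nil))))))) (.g (nat_lit 5) .nil .nil))))) (.nd (nat_lit 4) (.nd (nat_lit 5) 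
(.lf (nat_lit 250637) (.g (nat_lit 2663) (.e (nat_lit 163874) (nat_lit 3) (.e (nat_lit 204837) (nat_lit 20) (.e (nat_lit 114714) (nat_lit 22) (.e (nat_lit 90170) (nat_lit 13) (.e (nat_lit 172067) (nat_lit 3) (.e (nat_lit 204830) (nat_lit 18) (.e (nat_lit 57689) (nat_lit 156) .nil))))))) (.g (nat_lit 4) .nil .nil))) 
(.lf (nat_lit 250669) (.g (nat_lit 4112) (.e (nat_lit 163874) (nat_lit 3) (.e (nat_lit 204837) (nat_lit 20) (.e (nat_lit 114714) (nat_lit 22) (.e (nat_lit 90172) (nat_lit 14) (.e (nat_lit 180244) (nat_lit 5) (.e (nat_lit 532501) (nat_lit 1) (.e (nat_lit 57690) (nat_lit 156) .nil))))))) (.g (nat_lit 6) .nil .nil)))) (.nd (nat_lit 5) 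
(.lf (nat_lit 250653) (.g (nat_lit 4775) (.e (nat_lit 163874) (nat_lit 3) (.e (nat_lit 204837) (nat_lit 20) (.e (nat_lit 114714) (nat_lit 22) (.e (nat_lit 90172) (nat_lit 14) (.e (nat_lit 180243) (nat_lit 5) (.e (nat_lit 532503) (nat_lit 1) (.e (nat_lit 57688) (nat_lit 156) .nil))))))) (.g (nat_lit 6) .nil .nil))) 
(.lf (nat_lit 250685) (.g (nat_lit 3772) (.e (nat_lit 163874) (nat_lit 3) (.e (nat_lit 204837) (nat_lit 20) (.e (nat_lit 114714) (nat_lit 22) (.e (nat_lit 90174) (nat_lit 14) (.e (nat_lit 180243) (nat_lit 5) (.e (nat_lit 532503) (nat_lit 1) (.e (nat_lit 57689) (nat_lit 156) .nil))))))) (.g (nat_lit 6) .nil .nil))))))) (.nd (nat_lit 2) (.nd (nat_lit 3) (.nd (nat_lit 4) (.nd (nat_lit 5) 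
(.lf (nat_lit 250627) (.g (nat_lit 2731) (.e (nat_lit 163874) (nat_lit 3) (.e (nat_lit 204837) (nat_lit 20) (.e (nat_lit 114714) (nat_lit 22) (.e (nat_lit 90167) (nat_lit 13) (.e (nat_lit 172067) (nat_lit 3) (.e (nat_lit 204829) (nat_lit 18) (.e (nat_lit 57692) (nat_lit 156) .nil))))))) (.g (nat_lit 4) .nil .nil))) 
(.lf (nat_lit 250659) (.g (nat_lit 4501) (.e (nat_lit 163874) (nat_lit 3) (.e (nat_lit 204837) (nat_lit 20) (.e (nat_lit 114714) (nat_lit 22) (.e (nat_lit 90172) (nat_lit 14) (.e (nat_lit 180243) (nat_lit 5) (.e (nat_lit 532504) (nat_lit 1) (.e (nat_lit 57691) (nat_lit 156) .nil))))))) (.g (nat_lit 6) .nil .nil)))) (.nd (nat_lit 5) 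
(.lf (nat_lit 250643) (.g (nat_lit 5000) (.e (nat_lit 163874) (nat_lit 3) (.e (nat_lit 204837) (nat_lit 20) (.e (nat_lit 114714) (nat_lit 22) (.e (nat_lit 90172) (nat_lit 14) (.e (nat_lit 180243) (nat_lit 5) (.e (nat_lit 532499) (nat_lit 1) (.e (nat_lit 57688) (nat_lit 156) .nil))))))) (.g (nat_lit 6) .nil .nil))) 
(.lf (nat_lit 250675) (.g (nat_lit 5197) (.e (nat_lit 163874) (nat_lit 3) (.e (nat_lit 204837) (nat_lit 20) (.e (nat_lit 114714) (nat_lit 22) (.e (nat_lit 90172) (nat_lit 14) (.e (nat_lit 180244) (nat_lit 5) (.e (nat_lit 532503) (nat_lit 1) (.e (nat_lit 57688) (nat_lit 156) .nil))))))) (.g (nat_lit 7) .nil .nil))))) (.nd (nat_lit 4) (.nd (nat_lit 5) 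
(.lf (nat_lit 250635) (.g (nat_lit 3936) (.e (nat_lit 163874) (nat_lit 3) (.e (nat_lit 204837) (nat_lit 20) (.e (nat_lit 114714) (nat_lit 22) (.e (nat_lit 90170) (nat_lit 13) (.e (nat_lit 172067) (nat_lit 3) (.e (nat_lit 204829) (nat_lit 18) (.e (nat_lit 57688) (nat_lit 156) .nil))))))) (.g (nat_lit 5) .nil .nil))) 
(.lf (nat_lit 250667) (.g (nat_lit 3131) (.e (nat_lit 163874) (nat_lit 3) (.e (nat_lit 204837) (nat_lit 20) (.e (nat_lit 114714) (nat_lit 22) (.e (nat_lit 90172) (nat_lit 14) (.e (nat_lit 180244) (nat_lit 5) (.e (nat_lit 532500) (nat_lit 1) (.e (nat_lit 57692) (nat_lit 156) .nil))))))) (.g (nat_lit 5) .nil .nil)))) (.nd (nat_lit 5) 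
(.lf (nat_lit 250651) (.g (nat_lit 2905) (.e (nat_lit 163874) (nat_lit 3) (.e (nat_lit 204837) (nat_lit 20) (.e (nat_lit 114714) (nat_lit 22) (.e (nat_lit 90172) (nat_lit 14) (.e (nat_lit 180243) (nat_lit 5) (.e (nat_lit 532503) (nat_lit 1) (.e (nat_lit 57685) (nat_lit 156) .nil))))))) (.g (nat_lit 4) .nil .nil))) 
(.lf (nat_lit 250683) (.g (nat_lit 4344) (.e (nat_lit 163874) (nat_lit 3) (.e (nat_lit 204837) (nat_lit 20) (.e (nat_lit 114714) (nat_lit 22) (.e (nat_lit 90174) (nat_lit 14) (.e (nat_lit 180243) (nat_lit 5) (.e (nat_lit 532501) (nat_lit 1) (.e (nat_lit 57689) (nat_lit 156) .nil))))))) (.g (nat_lit 6) .nil .nil)))))) (.nd (nat_lit 3) (.nd (nat_lit 4) (.nd (nat_lit 5) 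
(.lf (nat_lit 250631) (.g (nat_lit 3398) (.e (nat_lit 163874) (nat_lit 3) (.e (nat_lit 204837) (nat_lit 20) (.e (nat_lit 114714) (nat_lit 22) (.e (nat_lit 90170) (nat_lit 13) (.e (nat_lit 172065) (nat_lit 3) (.e (nat_lit 204830) (nat_lit 18) (.e (nat_lit 57689) (nat_lit 156) .nil))))))) (.g (nat_lit 4) .nil .nil))) 
(.lf (nat_lit 250663) (.g (nat_lit 2708) (.e (nat_lit 163874) (nat_lit 3) (.e (nat_lit 204837) (nat_lit 20) (.e (nat_lit 114714) (nat_lit 22) (.e (nat_lit 90172) (nat_lit 14) (.e (nat_lit 180244) (nat_lit 5) (.e (nat_lit 532499) (nat_lit 1) (.e (nat_lit 57689) (nat_lit 156) .nil))))))) (.g (nat_lit 4) .nil .nil)))) (.nd (nat_lit 5) 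
(.lf (nat_lit 250647) (.g (nat_lit 3712) (.e (nat_lit 163874) (nat_lit 3) (.e (nat_lit 204837) (nat_lit 20) (.e (nat_lit 114714) (nat_lit 22) (.e (nat_lit 90172) (nat_lit 14) (.e (nat_lit 180243) (nat_lit 5) (.e (nat_lit 532501) (nat_lit 1) (.e (nat_lit 57690) (nat_lit 156) .nil))))))) (.g (nat_lit 5) .nil .nil))) 
(.lf (nat_lit 250679) (.g (nat_lit 4268) (.e (nat_lit 163874) (nat_lit 3) (.e (nat_lit 204837) (nat_lit 20) (.e (nat_lit 114714) (nat_lit 22) (.e (nat_lit 90172) (nat_lit 14) (.e (nat_lit 180244) (nat_lit 5) (.e (nat_lit 532504) (nat_lit 1) (.e (nat_lit 57691) (nat_lit 156) .nil))))))) (.g (nat_lit 6) .nil .nil))))) (.nd (nat_lit 4) (.nd (nat_lit 5) 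
(.lf (nat_lit 250639) (.g (nat_lit 3471) (.e (nat_lit 163874) (nat_lit 3) (.e (nat_lit 204837) (nat_lit 20) (.e (nat_lit 114714) (nat_lit 22) (.e (nat_lit 90170) (nat_lit 13) (.e (nat_lit 172067) (nat_lit 3) (.e (nat_lit 204830) (nat_lit 18) (.e (nat_lit 57691) (nat_lit 156) .nil))))))) (.g (nat_lit 5) .nil .nil))) 
(.lf (nat_lit 250671) (.g (nat_lit 4165) (.e (nat_lit 163874) (nat_lit 3) (.e (nat_lit 204837) (nat_lit 20) (.e (nat_lit 114714) (nat_lit 22) (.e (nat_lit 90172) (nat_lit 14) (.e (nat_lit 180244) (nat_lit 5) (.e (nat_lit 532501) (nat_lit 1) (.e (nat_lit 57692) (nat_lit 156) .nil))))))) (.g (nat_lit 7) .nil .nil)))) (.nd (nat_lit 5) 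
(.lf (nat_lit 250655) (.g (nat_lit 2621) (.e (nat_lit 163874) (nat_lit 3) (.e (nat_lit 204837) (nat_lit 20) (.e (nat_lit 114714) (nat_lit 22) (.e (nat_lit 90172) (nat_lit 14) (.e (nat_lit 180243) (nat_lit 5) (.e (nat_lit 532503) (nat_lit 1) (.e (nat_lit 57691) (nat_lit 156) .nil))))))) (.g (nat_lit 4) .nil .nil))) 
(.lf (nat_lit 250687) (.g (nat_lit 2810) (.e (nat_lit 163874) (nat_lit 3) (.e (nat_lit 204837) (nat_lit 20) (.e (nat_lit 114714) (nat_lit 22) (.e (nat_lit 90185) (nat_lit 17) (.e (nat_lit 237592) (nat_lit 3) (.e (nat_lit 204829) (nat_lit 18) (.e (nat_lit 57688) (nat_lit 156) .nil))))))) (.g (nat_lit 4) .nil .nil)))))))))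

noncomputable def tv3248 : DT := (.nd (nat_lit 0) (.nd (nat_lit 1) (.nd (nat_lit 2) (.nd (nat_lit 3) (.nd (nat_lit 4) (.nd (nat_lit 5) 
(.lf (nat_lit 250688) (.g (nat_lit 2449) (.e (nat_lit 163874) (nat_lit 3) (.e (nat_lit 204837) (nat_lit 20) (.e (nat_lit 114714) (nat_lit 22) (.e (nat_lit 90185) (nat_lit 17) (.e (nat_lit 237592) (nat_lit 3) (.e (nat_lit 204829) (nat_lit 18) (.e (nat_lit 57692) (nat_lit 156) .nil))))))) (.g (nat_lit 4) .nil .nil))) 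
(.lf (nat_lit 250720) (.g (nat_lit 3374) (.e (nat_lit 163874) (nat_lit 3) (.e (nat_lit 204837) (nat_lit 20) (.e (nat_lit 114718) (nat_lit 23) (.e (nat_lit 98365) (nat_lit 26) (.e (nat_lit 426139) (nat_lit 3) (.e (nat_lit 204830) (nat_lit 18) (.e (nat_lit 57692) (nat_lit 156) .nil))))))) (.g (nat_lit 5) .nil .nil)))) (.nd (nat_lit 5) 
(.lf (nat_lit 250704) (.g (nat_lit 3227) (.e (nat_lit 163874) (nat_lit 3) (.e (nat_lit 204837) (nat_lit 20) (.e (nat_lit 114716) (nat_lit 22) (.e (nat_lit 90172) (nat_lit 14) (.e (nat_lit 180244) (nat_lit 5) (.e (nat_lit 532502) (nat_lit 1) (.e (nat_lit 57692) (nat_lit 156) .nil))))))) (.g (nat_lit 6) .nil .nil))) 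
(.lf (nat_lit 250736) (.g (nat_lit 1240) (.e (nat_lit 163874) (nat_lit 3) (.e (nat_lit 204838) (nat_lit 20) (.e (nat_lit 114714) (nat_lit 22) (.e (nat_lit 90167) (nat_lit 13) .nil)))) .nil)))) (.nd (nat_lit 4) (.nd (nat_lit 5) 
(.lf (nat_lit 250696) (.g (nat_lit 2423) (.e (nat_lit 163874) (nat_lit 3) (.e (nat_lit 204837) (nat_lit 20) (.e (nat_lit 114716) (nat_lit 22) (.e (nat_lit 90172) (nat_lit 14) (.e (nat_lit 180243) (nat_lit 5) (.e (nat_lit 532501) (nat_lit 1) (.e (nat_lit 57691) (nat_lit 156) .nil))))))) (.g (nat_lit 4) .nil .nil))) 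
(.lf (nat_lit 250728) (.g (nat_lit 4180) (.e (nat_lit 163874) (nat_lit 3) (.e (nat_lit 204837) (nat_lit 20) (.e (nat_lit 114719) (nat_lit 23) (.e (nat_lit 98365) (nat_lit 26) (.e (nat_lit 426137) (nat_lit 3) (.e (nat_lit 204829) (nat_lit 18) (.e (nat_lit 57692) (nat_lit 156) .nil))))))) (.g (nat_lit 6) .nil .nil)))) (.nd (nat_lit 5) 
(.lf (nat_lit 250712) (.g (nat_lit 4327) (.e (nat_lit 163874) (nat_lit 3) (.e (nat_lit 204837) (nat_lit 20) (.e (nat_lit 114718) (nat_lit 23) (.e (nat_lit 98356) (nat_lit 26) (.e (nat_lit 426438) (nat_lit 18) (.e (nat_lit 98334) (nat_lit 18) (.e (nat_lit 164330) (nat_lit 230) .nil))))))) (.g (nat_lit 7) .nil .nil))) 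
(.lf (nat_lit 250744) (.g (nat_lit 3307) (.e (nat_lit 163874) (nat_lit 3) (.e (nat_lit 204838) (nat_lit 20) (.e (nat_lit 114714) (nat_lit 22) (.e (nat_lit 90170) (nat_lit 13) (.e (nat_lit 172067) (nat_lit 3) (.e (nat_lit 204830) (nat_lit 18) (.e (nat_lit 57691) (nat_lit 156) .nil))))))) (.g (nat_lit 5) .nil .nil)))))) (.nd (nat_lit 3) (.nd (nat_lit 4) (.nd (nat_lit 5) 
(.lf (nat_lit 250692) (.g (nat_lit 2501) (.e (nat_lit 163874) (nat_lit 3) (.e (nat_lit 204837) (nat_lit 20) (.e (nat_lit 114714) (nat_lit 22) (.e (nat_lit 90185) (nat_lit 17) (.e (nat_lit 237594) (nat_lit 3) (.e (nat_lit 204830) (nat_lit 18) (.e (nat_lit 57691) (nat_lit 156) .nil))))))) (.g (nat_lit 4) .nil .nil))) 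
(.lf (nat_lit 250724) (.g (nat_lit 2632) (.e (nat_lit 163874) (nat_lit 3) (.e (nat_lit 204837) (nat_lit 20) (.e (nat_lit 114719) (nat_lit 23) (.e (nat_lit 98359) (nat_lit 26) (.e (nat_lit 426132) (nat_lit 3) (.e (nat_lit 204830) (nat_lit 18) (.e (nat_lit 57691) (nat_lit 156) .nil))))))) (.g (nat_lit 4) .nil .nil)))) (.nd (nat_lit 5) 
(.lf (nat_lit 250708) (.g (nat_lit 2815) (.e (nat_lit 163874) (nat_lit 3) (.e (nat_lit 204837) (nat_lit 20) (.e (nat_lit 114716) (nat_lit 22) (.e (nat_lit 90174) (nat_lit 14) (.e (nat_lit 180243) (nat_lit 5) (.e (nat_lit 532499) (nat_lit 1) (.e (nat_lit 57687) (nat_lit 156) .nil))))))) (.g (nat_lit 5) .nil .nil))) 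
(.lf (nat_lit 250740) (.g (nat_lit 3493) (.e (nat_lit 163874) (nat_lit 3) (.e (nat_lit 204838) (nat_lit 20) (.e (nat_lit 114714) (nat_lit 22) (.e (nat_lit 90170) (nat_lit 13) (.e (nat_lit 172065) (nat_lit 3) (.e (nat_lit 204830) (nat_lit 18) (.e (nat_lit 57692) (nat_lit 156) .nil))))))) (.g (nat_lit 6) .nil .nil))))) (.nd (nat_lit 4) (.nd (nat_lit 5) 
(.lf (nat_lit 250700) (.g (nat_lit 2868) (.e (nat_lit 163874) (nat_lit 3) (.e (nat_lit 204837) (nat_lit 20) (.e (nat_lit 114716) (nat_lit 22) (.e (nat_lit 90172) (nat_lit 14) (.e (nat_lit 180244) (nat_lit 5) (.e (nat_lit 532499) (nat_lit 1) (.e (nat_lit 57687) (nat_lit 156) .nil))))))) (.g (nat_lit 5) .nil .nil))) 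
(.lf (nat_lit 250732) (.g (nat_lit 4369) (.e (nat_lit 163874) (nat_lit 3) (.e (nat_lit 204837) (nat_lit 20) (.e (nat_lit 114719) (nat_lit 23) (.e (nat_lit 98365) (nat_lit 26) (.e (nat_lit 426139) (nat_lit 3) (.e (nat_lit 204829) (nat_lit 18) (.e (nat_lit 57688) (nat_lit 156) .nil))))))) (.g (nat_lit 6) .nil .nil)))) (.nd (nat_lit 5) 
(.lf (nat_lit 250716) (.g (nat_lit 2555) (.e (nat_lit 163874) (nat_lit 3) (.e (nat_lit 204837) (nat_lit 20) (.e (nat_lit 114718) (nat_lit 23) (.e (nat_lit 98365) (nat_lit 26) (.e (nat_lit 426137) (nat_lit 3) (.e (nat_lit 204831) (nat_lit 18) (.e (nat_lit 57692) (nat_lit 156) .nil))))))) (.g (nat_lit 4) .nil .nil))) 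
(.lf (nat_lit 250748) (.g (nat_lit 3966) (.e (nat_lit 163874) (nat_lit 3) (.e (nat_lit 204838) (nat_lit 20) (.e (nat_lit 114714) (nat_lit 22) (.e (nat_lit 90172) (nat_lit 14) (.e (nat_lit 180243) (nat_lit 5) (.e (nat_lit 532499) (nat_lit 1) (.e (nat_lit 57692) (nat_lit 156) .nil))))))) (.g (nat_lit 6) .nil .nil))))))) (.nd (nat_lit 2) (.nd (nat_lit 3) (.nd (nat_lit 4) (.nd (nat_lit 5) 
(.lf (nat_lit 250690) (.g (nat_lit 2731) (.e (nat_lit 163874) (nat_lit 3) (.e (nat_lit 204837) (nat_lit 20) (.e (nat_lit 114714) (nat_lit 22) (.e (nat_lit 90185) (nat_lit 17) (.e (nat_lit 237594) (nat_lit 3) (.e (nat_lit 204829) (nat_lit 18) (.e (nat_lit 57688) (nat_lit 156) .nil))))))) (.g (nat_lit 4) .nil .nil))) 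
(.lf (nat_lit 250722) (.g (nat_lit 1391) (.e (nat_lit 163874) (nat_lit 3) (.e (nat_lit 204837) (nat_lit 20) (.e (nat_lit 114719) (nat_lit 23) (.e (nat_lit 98358) (nat_lit 26) .nil)))) .nil))) (.nd (nat_lit 5) 
(.lf (nat_lit 250706) (.g (nat_lit 3167) (.e (nat_lit 163874) (nat_lit 3) (.e (nat_lit 204837) (nat_lit 20) (.e (nat_lit 114716) (nat_lit 22) (.e (nat_lit 90172) (nat_lit 14) (.e (nat_lit 180244) (nat_lit 5) (.e (nat_lit 532503) (nat_lit 1) (.e (nat_lit 57687) (nat_lit 156) .nil))))))) (.g (nat_lit 5) .nil .nil))) 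
(.lf (nat_lit 250738) (.g (nat_lit 3034) (.e (nat_lit 163874) (nat_lit 3) (.e (nat_lit 204838) (nat_lit 20) (.e (nat_lit 114714) (nat_lit 22) (.e (nat_lit 90170) (nat_lit 13) (.e (nat_lit 172065) (nat_lit 3) (.e (nat_lit 204830) (nat_lit 18) (.e (nat_lit 57690) (nat_lit 156) .nil))))))) (.g (nat_lit 4) .nil .nil))))) (.nd (nat_lit 4) (.nd (nat_lit 5) 
(.lf (nat_lit 250698) (.g (nat_lit 2822) (.e (nat_lit 163874) (nat_lit 3) (.e (nat_lit 204837) (nat_lit 20) (.e (nat_lit 114716) (nat_lit 22) (.e (nat_lit 90172) (nat_lit 14) (.e (nat_lit 180243) (nat_lit 5) (.e (nat_lit 532504) (nat_lit 1) (.e (nat_lit 57690) (nat_lit 156) .nil))))))) (.g (nat_lit 5) .nil .nil))) 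
(.lf (nat_lit 250730) (.g (nat_lit 2633) (.e (nat_lit 163874) (nat_lit 3) (.e (nat_lit 204837) (nat_lit 20) (.e (nat_lit 114719) (nat_lit 23) (.e (nat_lit 98365) (nat_lit 26) (.e (nat_lit 426137) (nat_lit 3) (.e (nat_lit 204830) (nat_lit 18) (.e (nat_lit 57692) (nat_lit 156) .nil))))))) (.g (nat_lit 4) .nil .nil)))) (.nd (nat_lit 5) 
(.lf (nat_lit 250714) (.g (nat_lit 2776) (.e (nat_lit 163874) (nat_lit 3) (.e (nat_lit 204837) (nat_lit 20) (.e (nat_lit 114718) (nat_lit 23) (.e (nat_lit 98365) (nat_lit 26) (.e (nat_lit 426133) (nat_lit 3) (.e (nat_lit 204829) (nat_lit 18) (.e (nat_lit 57691) (nat_lit 156) .nil))))))) (.g (nat_lit 4) .nil .nil))) 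
(.lf (nat_lit 250746) (.g (nat_lit 4728) (.e (nat_lit 163874) (nat_lit 3) (.e (nat_lit 204838) (nat_lit 20) (.e (nat_lit 114714) (nat_lit 22) (.e (nat_lit 90172) (nat_lit 14) (.e (nat_lit 180243) (nat_lit 5) (.e (nat_lit 532499) (nat_lit 1) (.e (nat_lit 57688) (nat_lit 156) .nil))))))) (.g (nat_lit 6) .nil .nil)))))) (.nd (nat_lit 3) (.nd (nat_lit 4) (.nd (nat_lit 5) 
(.lf (nat_lit 250694) (.g (nat_lit 2382) (.e (nat_lit 163874) (nat_lit 3) (.e (nat_lit 204837) (nat_lit 20) (.e (nat_lit 114716) (nat_lit 22) (.e (nat_lit 90172) (nat_lit 14) (.e (nat_lit 180243) (nat_lit 5) (.e (nat_lit 532501) (nat_lit 1) (.e (nat_lit 57689) (nat_lit 156) .nil))))))) (.g (nat_lit 4) .nil .nil))) 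
(.lf (nat_lit 250726) (.g (nat_lit 2427) (.e (nat_lit 163874) (nat_lit 3) (.e (nat_lit 204837) (nat_lit 20) (.e (nat_lit 114719) (nat_lit 23) (.e (nat_lit 98365) (nat_lit 26) (.e (nat_lit 426132) (nat_lit 3) (.e (nat_lit 204830) (nat_lit 18) (.e (nat_lit 57692) (nat_lit 156) .nil))))))) (.g (nat_lit 4) .nil .nil)))) (.nd (nat_lit 5) 
(.lf (nat_lit 250710) (.g (nat_lit 3055) (.e (nat_lit 163874) (nat_lit 3) (.e (nat_lit 204837) (nat_lit 20) (.e (nat_lit 114716) (nat_lit 22) (.e (nat_lit 90174) (nat_lit 14) (.e (nat_lit 180243) (nat_lit 5) (.e (nat_lit 532503) (nat_lit 1) (.e (nat_lit 57687) (nat_lit 156) .nil))))))) (.g (nat_lit 5) .nil .nil))) 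
(.lf (nat_lit 250742) (.g (nat_lit 3628) (.e (nat_lit 163874) (nat_lit 3) (.e (nat_lit 204838) (nat_lit 20) (.e (nat_lit 114714) (nat_lit 22) (.e (nat_lit 90170) (nat_lit 13) (.e (nat_lit 172067) (nat_lit 3) (.e (nat_lit 204829) (nat_lit 18) (.e (nat_lit 57692) (nat_lit 156) .nil))))))) (.g (nat_lit 5) .nil .nil))))) (.nd (nat_lit 4) (.nd (nat_lit 5) 
(.lf (nat_lit 250702) (.g (nat_lit 3257) (.e (nat_lit 163874) (nat_lit 3) (.e (nat_lit 204837) (nat_lit 20) (.e (nat_lit 114716) (nat_lit 22) (.e (nat_lit 90172) (nat_lit 14) (.e (nat_lit 180244) (nat_lit 5) (.e (nat_lit 532501) (nat_lit 1) (.e (nat_lit 57690) (nat_lit 156) .nil))))))) (.g (nat_lit 6) .nil .nil))) 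
(.lf (nat_lit 250734) (.g (nat_lit 4154) (.e (nat_lit 163874) (nat_lit 3) (.e (nat_lit 204837) (nat_lit 20) (.e (nat_lit 114719) (nat_lit 23) (.e (nat_lit 98365) (nat_lit 26) (.e (nat_lit 426139) (nat_lit 3) (.e (nat_lit 204830) (nat_lit 18) (.e (nat_lit 57692) (nat_lit 156) .nil))))))) (.g (nat_lit 6) .nil .nil)))) (.nd (nat_lit 5) 
(.lf (nat_lit 250718) (.g (nat_lit 3576) (.e (nat_lit 163874) (nat_lit 3) (.e (nat_lit 204837) (nat_lit 20) (.e (nat_lit 114718) (nat_lit 23) (.e (nat_lit 98365) (nat_lit 26) (.e (nat_lit 426139) (nat_lit 3) (.e (nat_lit 204829) (nat_lit 18) (.e (nat_lit 57688) (nat_lit 156) .nil))))))) (.g (nat_lit 5) .nil .nil))) 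
(.lf (nat_lit 250750) (.g (nat_lit 3421) (.e (nat_lit 163874) (nat_lit 3) (.e (nat_lit 204838) (nat_lit 20) (.e (nat_lit 114714) (nat_lit 22) (.e (nat_lit 90172) (nat_lit 14) (.e (nat_lit 180243) (nat_lit 5) (.e (nat_lit 532501) (nat_lit 1) (.e (nat_lit 57690) (nat_lit 156) .nil))))))) (.g (nat_lit 5) .nil .nil)))))))) 
(.nd (nat_lit 1) (.nd (nat_lit 2) (.nd (nat_lit 3) (.nd (nat_lit 4) (.nd (nat_lit 5) 
(.lf (nat_lit 250689) (.g (nat_lit 2385) (.e (nat_lit 163874) (nat_lit 3) (.e (nat_lit 204837) (nat_lit 20) (.e (nat_lit 114714) (nat_lit 22) (.e (nat_lit 90185) (nat_lit 17) (.e (nat_lit 237592) (nat_lit 3) (.e (nat_lit 204830) (nat_lit 18) (.e (nat_lit 57692) (nat_lit 156) .nil))))))) (.g (nat_lit 4) .nil .nil))) 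
(.lf (nat_lit 250721) (.g (nat_lit 4744) (.e (nat_lit 163874) (nat_lit 3) (.e (nat_lit 204837) (nat_lit 20) (.e (nat_lit 114719) (nat_lit 23) (.e (nat_lit 98356) (nat_lit 26) (.e (nat_lit 426436) (nat_lit 18) (.e (nat_lit 98335) (nat_lit 18) (.e (nat_lit 164330) (nat_lit 230) .nil))))))) (.g (nat_lit 6) .nil .nil)))) (.nd (nat_lit 5) 
(.lf (nat_lit 250705) (.g (nat_lit 3397) (.e (nat_lit 163874) (nat_lit 3) (.e (nat_lit 204837) (nat_lit 20) (.e (nat_lit 114716) (nat_lit 22) (.e (nat_lit 90172) (nat_lit 14) (.e (nat_lit 180244) (nat_lit 5) (.e (nat_lit 532503) (nat_lit 1) (.e (nat_lit 57685) (nat_lit 156) .nil))))))) (.g (nat_lit 5) .nil .nil))) 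
(.lf (nat_lit 250737) (.g (nat_lit 3227) (.e (nat_lit 163874) (nat_lit 3) (.e (nat_lit 204838) (nat_lit 20) (.e (nat_lit 114714) (nat_lit 22) (.e (nat_lit 90170) (nat_lit 13) (.e (nat_lit 172065) (nat_lit 3) (.e (nat_lit 204830) (nat_lit 18) (.e (nat_lit 57689) (nat_lit 156) .nil))))))) (.g (nat_lit 5) .nil .nil))))) (.nd (nat_lit 4) (.nd (nat_lit 5) 
(.lf (nat_lit 250697) (.g (nat_lit 2112) (.e (nat_lit 163874) (nat_lit 3) (.e (nat_lit 204837) (nat_lit 20) (.e (nat_lit 114716) (nat_lit 22) (.e (nat_lit 90172) (nat_lit 14) (.e (nat_lit 180243) (nat_lit 5) (.e (nat_lit 532502) (nat_lit 1) (.e (nat_lit 57692) (nat_lit 156) .nil))))))) (.g (nat_lit 4) .nil .nil))) 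
(.lf (nat_lit 250729) (.g (nat_lit 2480) (.e (nat_lit 163874) (nat_lit 3) (.e (nat_lit 204837) (nat_lit 20) (.e (nat_lit 114719) (nat_lit 23) (.e (nat_lit 98365) (nat_lit 26) (.e (nat_lit 426137) (nat_lit 3) (.e (nat_lit 204830) (nat_lit 18) (.e (nat_lit 57691) (nat_lit 156) .nil))))))) (.g (nat_lit 4) .nil .nil)))) (.nd (nat_lit 5) 
(.lf (nat_lit 250713) (.g (nat_lit 4380) (.e (nat_lit 163874) (nat_lit 3) (.e (nat_lit 204837) (nat_lit 20) (.e (nat_lit 114718) (nat_lit 23) (.e (nat_lit 98356) (nat_lit 26) (.e (nat_lit 426438) (nat_lit 18) (.e (nat_lit 98335) (nat_lit 18) (.e (nat_lit 164330) (nat_lit 230) .nil))))))) (.g (nat_lit 7) .nil .nil))) 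
(.lf (nat_lit 250745) (.g (nat_lit 3068) (.e (nat_lit 163874) (nat_lit 3) (.e (nat_lit 204838) (nat_lit 20) (.e (nat_lit 114714) (nat_lit 22) (.e (nat_lit 90170) (nat_lit 13) (.e (nat_lit 172067) (nat_lit 3) (.e (nat_lit 204830) (nat_lit 18) (.e (nat_lit 57692) (nat_lit 156) .nil))))))) (.g (nat_lit 5) .nil .nil)))))) (.nd (nat_lit 3) (.nd (nat_lit 4) (.nd (nat_lit 5) 
(.lf (nat_lit 250693) (.g (nat_lit 2683) (.e (nat_lit 163874) (nat_lit 3) (.e (nat_lit 204837) (nat_lit 20) (.e (nat_lit 114714) (nat_lit 22) (.e (nat_lit 90185) (nat_lit 17) (.e (nat_lit 237594) (nat_lit 3) (.e (nat_lit 204830) (nat_lit 18) (.e (nat_lit 57692) (nat_lit 156) .nil))))))) (.g (nat_lit 4) .nil .nil))) 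
(.lf (nat_lit 250725) (.g (nat_lit 2667) (.e (nat_lit 163874) (nat_lit 3) (.e (nat_lit 204837) (nat_lit 20) (.e (nat_lit 114719) (nat_lit 23) (.e (nat_lit 98359) (nat_lit 26) (.e (nat_lit 426132) (nat_lit 3) (.e (nat_lit 204830) (nat_lit 18) (.e (nat_lit 57692) (nat_lit 156) .nil))))))) (.g (nat_lit 4) .nil .nil)))) (.nd (nat_lit 5) 
(.lf (nat_lit 250709) (.g (nat_lit 3675) (.e (nat_lit 163874) (nat_lit 3) (.e (nat_lit 204837) (nat_lit 20) (.e (nat_lit 114716) (nat_lit 22) (.e (nat_lit 90174) (nat_lit 14) (.e (nat_lit 180243) (nat_lit 5) (.e (nat_lit 532501) (nat_lit 1) (.e (nat_lit 57689) (nat_lit 156) .nil))))))) (.g (nat_lit 6) .nil .nil))) 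
(.lf (nat_lit 250741) (.g (nat_lit 3731) (.e (nat_lit 163874) (nat_lit 3) (.e (nat_lit 204838) (nat_lit 20) (.e (nat_lit 114714) (nat_lit 22) (.e (nat_lit 90170) (nat_lit 13) (.e (nat_lit 172067) (nat_lit 3) (.e (nat_lit 204829) (nat_lit 18) (.e (nat_lit 57688) (nat_lit 156) .nil))))))) (.g (nat_lit 5) .nil .nil))))) (.nd (nat_lit 4) (.nd (nat_lit 5) 
(.lf (nat_lit 250701) (.g (nat_lit 4389) (.e (nat_lit 163874) (nat_lit 3) (.e (nat_lit 204837) (nat_lit 20) (.e (nat_lit 114716) (nat_lit 22) (.e (nat_lit 90172) (nat_lit 14) (.e (nat_lit 180244) (nat_lit 5) (.e (nat_lit 532499) (nat_lit 1) (.e (nat_lit 57691) (nat_lit 156) .nil))))))) (.g (nat_lit 7) .nil .nil))) 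
(.lf (nat_lit 250733) (.g (nat_lit 4030) (.e (nat_lit 163874) (nat_lit 3) (.e (nat_lit 204837) (nat_lit 20) (.e (nat_lit 114719) (nat_lit 23) (.e (nat_lit 98365) (nat_lit 26) (.e (nat_lit 426139) (nat_lit 3) (.e (nat_lit 204830) (nat_lit 18) (.e (nat_lit 57691) (nat_lit 156) .nil))))))) (.g (nat_lit 6) .nil .nil)))) (.nd (nat_lit 5) 
(.lf (nat_lit 250717) (.g (nat_lit 2967) (.e (nat_lit 163874) (nat_lit 3) (.e (nat_lit 204837) (nat_lit 20) (.e (nat_lit 114718) (nat_lit 23) (.e (nat_lit 98365) (nat_lit 26) (.e (nat_lit 426138) (nat_lit 3) (.e (nat_lit 204831) (nat_lit 18) (.e (nat_lit 57688) (nat_lit 156) .nil))))))) (.g (nat_lit 4) .nil .nil))) 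
(.lf (nat_lit 250749) (.g (nat_lit 3332) (.e (nat_lit 163874) (nat_lit 3) (.e (nat_lit 204838) (nat_lit 20) (.e (nat_lit 114714) (nat_lit 22) (.e (nat_lit 90172) (nat_lit 14) (.e (nat_lit 180243) (nat_lit 5) (.e (nat_lit 532501) (nat_lit 1) (.e (nat_lit 57689) (nat_lit 156) .nil))))))) (.g (nat_lit 5) .nil .nil))))))) (.nd (nat_lit 2) (.nd (nat_lit 3) (.nd (nat_lit 4) (.nd (nat_lit 5) 
(.lf (nat_lit 250691) (.g (nat_lit 2770) (.e (nat_lit 163874) (nat_lit 3) (.e (nat_lit 204837) (nat_lit 20) (.e (nat_lit 114714) (nat_lit 22) (.e (nat_lit 90185) (nat_lit 17) (.e (nat_lit 237594) (nat_lit 3) (.e (nat_lit 204829) (nat_lit 18) (.e (nat_lit 57692) (nat_lit 156) .nil))))))) (.g (nat_lit 4) .nil .nil))) 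
(.lf (nat_lit 250723) (.g (nat_lit 2245) (.e (nat_lit 163874) (nat_lit 3) (.e (nat_lit 204837) (nat_lit 20) (.e (nat_lit 114719) (nat_lit 23) (.e (nat_lit 98359) (nat_lit 26) (.e (nat_lit 426132) (nat_lit 3) .nil))))) .nil))) (.nd (nat_lit 5) 
(.lf (nat_lit 250707) (.g (nat_lit 3156) (.e (nat_lit 163874) (nat_lit 3) (.e (nat_lit 204837) (nat_lit 20) (.e (nat_lit 114716) (nat_lit 22) (.e (nat_lit 90172) (nat_lit 14) (.e (nat_lit 180244) (nat_lit 5) (.e (nat_lit 532503) (nat_lit 1) (.e (nat_lit 57689) (nat_lit 156) .nil))))))) (.g (nat_lit 5) .nil .nil))) 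
(.lf (nat_lit 250739) (.g (nat_lit 3730) (.e (nat_lit 163874) (nat_lit 3) (.e (nat_lit 204838) (nat_lit 20) (.e (nat_lit 114714) (nat_lit 22) (.e (nat_lit 90170) (nat_lit 13) (.e (nat_lit 172065) (nat_lit 3) (.e (nat_lit 204830) (nat_lit 18) (.e (nat_lit 57691) (nat_lit 156) .nil))))))) (.g (nat_lit 6) .nil .nil))))) (.nd (nat_lit 4) (.nd (nat_lit 5) 
(.lf (nat_lit 250699) (.g (nat_lit 3782) (.e (nat_lit 163874) (nat_lit 3) (.e (nat_lit 204837) (nat_lit 20) (.e (nat_lit 114716) (nat_lit 22) (.e (nat_lit 90172) (nat_lit 14) (.e (nat_lit 180243) (nat_lit 5) (.e (nat_lit 532504) (nat_lit 1) (.e (nat_lit 57692) (nat_lit 156) .nil))))))) (.g (nat_lit 6) .nil .nil))) 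
(.lf (nat_lit 250731) (.g (nat_lit 2682) (.e (nat_lit 163874) (nat_lit 3) (.e (nat_lit 204837) (nat_lit 20) (.e (nat_lit 114719) (nat_lit 23) (.e (nat_lit 98365) (nat_lit 26) (.e (nat_lit 426138) (nat_lit 3) (.e (nat_lit 204831) (nat_lit 18) (.e (nat_lit 57691) (nat_lit 156) .nil))))))) (.g (nat_lit 4) .nil .nil)))) (.nd (nat_lit 5) 
(.lf (nat_lit 250715) (.g (nat_lit 1988) (.e (nat_lit 163874) (nat_lit 3) (.e (nat_lit 204837) (nat_lit 20) (.e (nat_lit 114718) (nat_lit 23) (.e (nat_lit 98365) (nat_lit 26) (.e (nat_lit 426137) (nat_lit 3) .nil))))) .nil)) 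
(.lf (nat_lit 250747) (.g (nat_lit 3554) (.e (nat_lit 163874) (nat_lit 3) (.e (nat_lit 204838) (nat_lit 20) (.e (nat_lit 114714) (nat_lit 22) (.e (nat_lit 90172) (nat_lit 14) (.e (nat_lit 180243) (nat_lit 5) (.e (nat_lit 532499) (nat_lit 1) (.e (nat_lit 57691) (nat_lit 156) .nil))))))) (.g (nat_lit 5) .nil .nil)))))) (.nd (nat_lit 3) (.nd (nat_lit 4) (.nd (nat_lit 5) 
(.lf (nat_lit 250695) (.g (nat_lit 2620) (.e (nat_lit 163874) (nat_lit 3) (.e (nat_lit 204837) (nat_lit 20) (.e (nat_lit 114716) (nat_lit 22) (.e (nat_lit 90172) (nat_lit 14) (.e (nat_lit 180243) (nat_lit 5) (.e (nat_lit 532501) (nat_lit 1) (.e (nat_lit 57690) (nat_lit 156) .nil))))))) (.g (nat_lit 4) .nil .nil))) 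
(.lf (nat_lit 250727) (.g (nat_lit 4789) (.e (nat_lit 163874) (nat_lit 3) (.e (nat_lit 204837) (nat_lit 20) (.e (nat_lit 114719) (nat_lit 23) (.e (nat_lit 98365) (nat_lit 26) (.e (nat_lit 426133) (nat_lit 3) (.e (nat_lit 204829) (nat_lit 18) (.e (nat_lit 57688) (nat_lit 156) .nil))))))) (.g (nat_lit 7) .nil .nil)))) (.nd (nat_lit 5) 
(.lf (nat_lit 250711) (.g (nat_lit 3687) (.e (nat_lit 163874) (nat_lit 3) (.e (nat_lit 204837) (nat_lit 20) (.e (nat_lit 114716) (nat_lit 22) (.e (nat_lit 90185) (nat_lit 17) (.e (nat_lit 237594) (nat_lit 3) (.e (nat_lit 204830) (nat_lit 18) (.e (nat_lit 57692) (nat_lit 156) .nil))))))) (.g (nat_lit 7) .nil .nil))) 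
(.lf (nat_lit 250743) (.g (nat_lit 2590) (.e (nat_lit 163874) (nat_lit 3) (.e (nat_lit 204838) (nat_lit 20) (.e (nat_lit 114714) (nat_lit 22) (.e (nat_lit 90170) (nat_lit 13) (.e (nat_lit 172067) (nat_lit 3) (.e (nat_lit 204830) (nat_lit 18) (.e (nat_lit 57689) (nat_lit 156) .nil))))))) (.g (nat_lit 4) .nil .nil))))) (.nd (nat_lit 4) (.nd (nat_lit 5) 
(.lf (nat_lit 250703) (.g (nat_lit 2373) (.e (nat_lit 163874) (nat_lit 3) (.e (nat_lit 204837) (nat_lit 20) (.e (nat_lit 114716) (nat_lit 22) (.e (nat_lit 90172) (nat_lit 14) (.e (nat_lit 180244) (nat_lit 5) (.e (nat_lit 532502) (nat_lit 1) (.e (nat_lit 57688) (nat_lit 156) .nil))))))) (.g (nat_lit 4) .nil .nil))) 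
(.lf (nat_lit 250735) (.g (nat_lit 2857) (.e (nat_lit 163874) (nat_lit 3) (.e (nat_lit 204837) (nat_lit 20) (.e (nat_lit 114719) (nat_lit 23) (.e (nat_lit 98366) (nat_lit 27) (.e (nat_lit 434231) (nat_lit 23) (.e (nat_lit 532490) (nat_lit 0) (.e (nat_lit 1040) (nat_lit 81) (.e (nat_lit 7290) (nat_lit 386) .nil)))))))) (.g (nat_lit 4) .nil .nil)))) (.nd (nat_lit 5) 
(.lf (nat_lit 250719) (.g (nat_lit 3205) (.e (nat_lit 163874) (nat_lit 3) (.e (nat_lit 204837) (nat_lit 20) (.e (nat_lit 114718) (nat_lit 23) (.e (nat_lit 98365) (nat_lit 26) (.e (nat_lit 426139) (nat_lit 3) (.e (nat_lit 204830) (nat_lit 18) (.e (nat_lit 57691) (nat_lit 156) .nil))))))) (.g (nat_lit 5) .nil .nil))) 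
(.lf (nat_lit 250751) (.g (nat_lit 3324) (.e (nat_lit 163874) (nat_lit 3) (.e (nat_lit 204838) (nat_lit 20) (.e (nat_lit 114714) (nat_lit 22) (.e (nat_lit 90172) (nat_lit 14) (.e (nat_lit 180243) (nat_lit 5) (.e (nat_lit 532501) (nat_lit 1) (.e (nat_lit 57691) (nat_lit 156) .nil))))))) (.g (nat_lit 5) .nil .nil)))))))))

noncomputable def tv3249 : DT := (.nd (nat_lit 0) (.nd (nat_lit 1) (.nd (nat_lit 2) (.nd (nat_lit 3) (.nd (nat_lit 4) (.nd (nat_lit 5) 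
(.lf (nat_lit 250752) (.g (nat_lit 3805) (.e (nat_lit 163874) (nat_lit 3) (.e (nat_lit 204838) (nat_lit 20) (.e (nat_lit 114714) (nat_lit 22) (.e (nat_lit 90172) (nat_lit 14) (.e (nat_lit 180243) (nat_lit 5) (.e (nat_lit 532501) (nat_lit 1) (.e (nat_lit 57692) (nat_lit 156) .nil))))))) (.g (nat_lit 6) .nil .nil))) 
(.lf (nat_lit 250784) (.g (nat_lit 2105) (.e (nat_lit 163874) (nat_lit 3) (.e (nat_lit 204838) (nat_lit 20) (.e (nat_lit 114714) (nat_lit 22) (.e (nat_lit 90185) (nat_lit 17) (.e (nat_lit 237592) (nat_lit 3) (.e (nat_lit 204830) (nat_lit 18) (.e (nat_lit 57691) (nat_lit 156) .nil))))))) (.g (nat_lit 4) .nil .nil)))) (.nd (nat_lit 5) 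
(.lf (nat_lit 250768) (.g (nat_lit 3730) (.e (nat_lit 163874) (nat_lit 3) (.e (nat_lit 204838) (nat_lit 20) (.e (nat_lit 114714) (nat_lit 22) (.e (nat_lit 90172) (nat_lit 14) (.e (nat_lit 180244) (nat_lit 5) (.e (nat_lit 532501) (nat_lit 1) (.e (nat_lit 57691) (nat_lit 156) .nil))))))) (.g (nat_lit 6) .nil .nil))) 
(.lf (nat_lit 250800) (.g (nat_lit 3139) (.e (nat_lit 163874) (nat_lit 3) (.e (nat_lit 204838) (nat_lit 20) (.e (nat_lit 114716) (nat_lit 22) (.e (nat_lit 90172) (nat_lit 14) (.e (nat_lit 180244) (nat_lit 5) (.e (nat_lit 532499) (nat_lit 1) (.e (nat_lit 57687) (nat_lit 156) .nil))))))) (.g (nat_lit 5) .nil .nil))))) (.nd (nat_lit 4) (.nd (nat_lit 5) 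
(.lf (nat_lit 250760) (.g (nat_lit 4586) (.e (nat_lit 163874) (nat_lit 3) (.e (nat_lit 204838) (nat_lit 20) (.e (nat_lit 114714) (nat_lit 22) (.e (nat_lit 90172) (nat_lit 14) (.e (nat_lit 180243) (nat_lit 5) (.e (nat_lit 532504) (nat_lit 1) (.e (nat_lit 57692) (nat_lit 156) .nil))))))) (.g (nat_lit 7) .nil .nil))) 
(.lf (nat_lit 250792) (.g (nat_lit 2681) (.e (nat_lit 163874) (nat_lit 3) (.e (nat_lit 204838) (nat_lit 20) (.e (nat_lit 114716) (nat_lit 22) (.e (nat_lit 90170) (nat_lit 13) (.e (nat_lit 172065) (nat_lit 3) .nil))))) .nil))) (.nd (nat_lit 5) 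
(.lf (nat_lit 250776) (.g (nat_lit 4066) (.e (nat_lit 163874) (nat_lit 3) (.e (nat_lit 204838) (nat_lit 20) (.e (nat_lit 114714) (nat_lit 22) (.e (nat_lit 90172) (nat_lit 14) (.e (nat_lit 180244) (nat_lit 5) (.e (nat_lit 532504) (nat_lit 1) (.e (nat_lit 57691) (nat_lit 156) .nil))))))) (.g (nat_lit 6) .nil .nil))) 
(.lf (nat_lit 250808) (.g (nat_lit 3376) (.e (nat_lit 163874) (nat_lit 3) (.e (nat_lit 204838) (nat_lit 20) (.e (nat_lit 114716) (nat_lit 22) (.e (nat_lit 90172) (nat_lit 14) (.e (nat_lit 180244) (nat_lit 5) (.e (nat_lit 532503) (nat_lit 1) (.e (nat_lit 57689) (nat_lit 156) .nil))))))) (.g (nat_lit 5) .nil .nil)))))) (.nd (nat_lit 3) (.nd (nat_lit 4) (.nd (nat_lit 5) 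
(.lf (nat_lit 250756) (.g (nat_lit 2842) (.e (nat_lit 163874) (nat_lit 3) (.e (nat_lit 204838) (nat_lit 20) (.e (nat_lit 114714) (nat_lit 22) (.e (nat_lit 90172) (nat_lit 14) (.e (nat_lit 180243) (nat_lit 5) (.e (nat_lit 532503) (nat_lit 1) (.e (nat_lit 57689) (nat_lit 156) .nil))))))) (.g (nat_lit 4) .nil .nil))) 
(.lf (nat_lit 250788) (.g (nat_lit 2513) (.e (nat_lit 163874) (nat_lit 3) (.e (nat_lit 204838) (nat_lit 20) (.e (nat_lit 114714) (nat_lit 22) (.e (nat_lit 90185) (nat_lit 17) (.e (nat_lit 237594) (nat_lit 3) (.e (nat_lit 204830) (nat_lit 18) (.e (nat_lit 57692) (nat_lit 156) .nil))))))) (.g (nat_lit 4) .nil .nil)))) (.nd (nat_lit 5) 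
(.lf (nat_lit 250772) (.g (nat_lit 3720) (.e (nat_lit 163874) (nat_lit 3) (.e (nat_lit 204838) (nat_lit 20) (.e (nat_lit 114714) (nat_lit 22) (.e (nat_lit 90172) (nat_lit 14) (.e (nat_lit 180244) (nat_lit 5) (.e (nat_lit 532503) (nat_lit 1) (.e (nat_lit 57687) (nat_lit 156) .nil))))))) (.g (nat_lit 5) .nil .nil))) 
(.lf (nat_lit 250804) (.g (nat_lit 3569) (.e (nat_lit 163874) (nat_lit 3) (.e (nat_lit 204838) (nat_lit 20) (.e (nat_lit 114716) (nat_lit 22) (.e (nat_lit 90172) (nat_lit 14) (.e (nat_lit 180244) (nat_lit 5) (.e (nat_lit 532501) (nat_lit 1) (.e (nat_lit 57692) (nat_lit 156) .nil))))))) (.g (nat_lit 7) .nil .nil))))) (.nd (nat_lit 4) (.nd (nat_lit 5) 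
(.lf (nat_lit 250764) (.g (nat_lit 2559) (.e (nat_lit 163874) (nat_lit 3) (.e (nat_lit 204838) (nat_lit 20) (.e (nat_lit 114714) (nat_lit 22) (.e (nat_lit 90172) (nat_lit 14) (.e (nat_lit 180244) (nat_lit 5) (.e (nat_lit 532500) (nat_lit 1) (.e (nat_lit 57691) (nat_lit 156) .nil))))))) (.g (nat_lit 4) .nil .nil))) 
(.lf (nat_lit 250796) (.g (nat_lit 2434) (.e (nat_lit 163874) (nat_lit 3) (.e (nat_lit 204838) (nat_lit 20) (.e (nat_lit 114716) (nat_lit 22) (.e (nat_lit 90172) (nat_lit 14) (.e (nat_lit 180243) (nat_lit 5) (.e (nat_lit 532502) (nat_lit 1) (.e (nat_lit 57692) (nat_lit 156) .nil))))))) (.g (nat_lit 4) .nil .nil)))) (.nd (nat_lit 5) 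
(.lf (nat_lit 250780) (.g (nat_lit 3578) (.e (nat_lit 163874) (nat_lit 3) (.e (nat_lit 204838) (nat_lit 20) (.e (nat_lit 114714) (nat_lit 22) (.e (nat_lit 90174) (nat_lit 14) (.e (nat_lit 180243) (nat_lit 5) (.e (nat_lit 532503) (nat_lit 1) (.e (nat_lit 57687) (nat_lit 156) .nil))))))) (.g (nat_lit 5) .nil .nil))) 
(.lf (nat_lit 250812) (.g (nat_lit 2520) (.e (nat_lit 163874) (nat_lit 3) (.e (nat_lit 204838) (nat_lit 20) (.e (nat_lit 114716) (nat_lit 22) (.e (nat_lit 90173) (nat_lit 14) (.e (nat_lit 180244) (nat_lit 5) (.e (nat_lit 532499) (nat_lit 1) (.e (nat_lit 57691) (nat_lit 156) .nil))))))) (.g (nat_lit 4) .nil .nil))))))) (.nd (nat_lit 2) (.nd (nat_lit 3) (.nd (nat_lit 4) (.nd (nat_lit 5) 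
(.lf (nat_lit 250754) (.g (nat_lit 2673) (.e (nat_lit 163874) (nat_lit 3) (.e (nat_lit 204838) (nat_lit 20) (.e (nat_lit 114714) (nat_lit 22) (.e (nat_lit 90172) (nat_lit 14) (.e (nat_lit 180243) (nat_lit 5) (.e (nat_lit 532503) (nat_lit 1) (.e (nat_lit 57687) (nat_lit 156) .nil))))))) (.g (nat_lit 4) .nil .nil))) 
(.lf (nat_lit 250786) (.g (nat_lit 2554) (.e (nat_lit 163874) (nat_lit 3) (.e (nat_lit 204838) (nat_lit 20) (.e (nat_lit 114714) (nat_lit 22) (.e (nat_lit 90185) (nat_lit 17) (.e (nat_lit 237594) (nat_lit 3) (.e (nat_lit 204829) (nat_lit 18) (.e (nat_lit 57688) (nat_lit 156) .nil))))))) (.g (nat_lit 4) .nil .nil)))) (.nd (nat_lit 5) 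
(.lf (nat_lit 250770) (.g (nat_lit 2969) (.e (nat_lit 163874) (nat_lit 3) (.e (nat_lit 204838) (nat_lit 20) (.e (nat_lit 114714) (nat_lit 22) (.e (nat_lit 90172) (nat_lit 14) (.e (nat_lit 180244) (nat_lit 5) (.e (nat_lit 532502) (nat_lit 1) (.e (nat_lit 57688) (nat_lit 156) .nil))))))) (.g (nat_lit 5) .nil .nil))) 
(.lf (nat_lit 250802) (.g (nat_lit 3409) (.e (nat_lit 163874) (nat_lit 3) (.e (nat_lit 204838) (nat_lit 20) (.e (nat_lit 114716) (nat_lit 22) (.e (nat_lit 90172) (nat_lit 14) (.e (nat_lit 180244) (nat_lit 5) (.e (nat_lit 532501) (nat_lit 1) (.e (nat_lit 57690) (nat_lit 156) .nil))))))) (.g (nat_lit 6) .nil .nil))))) (.nd (nat_lit 4) (.nd (nat_lit 5) 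
(.lf (nat_lit 250762) (.g (nat_lit 2591) (.e (nat_lit 163874) (nat_lit 3) (.e (nat_lit 204838) (nat_lit 20) (.e (nat_lit 114714) (nat_lit 22) (.e (nat_lit 90172) (nat_lit 14) (.e (nat_lit 180244) (nat_lit 5) (.e (nat_lit 532499) (nat_lit 1) (.e (nat_lit 57689) (nat_lit 156) .nil))))))) (.g (nat_lit 4) .nil .nil))) 
(.lf (nat_lit 250794) (.g (nat_lit 2886) (.e (nat_lit 163874) (nat_lit 3) (.e (nat_lit 204838) (nat_lit 20) (.e (nat_lit 114716) (nat_lit 22) (.e (nat_lit 90172) (nat_lit 14) (.e (nat_lit 180243) (nat_lit 5) (.e (nat_lit 532501) (nat_lit 1) (.e (nat_lit 57690) (nat_lit 156) .nil))))))) (.g (nat_lit 5) .nil .nil)))) (.nd (nat_lit 5) 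
(.lf (nat_lit 250778) (.g (nat_lit 3300) (.e (nat_lit 163874) (nat_lit 3) (.e (nat_lit 204838) (nat_lit 20) (.e (nat_lit 114714) (nat_lit 22) (.e (nat_lit 90174) (nat_lit 14) (.e (nat_lit 180243) (nat_lit 5) (.e (nat_lit 532499) (nat_lit 1) (.e (nat_lit 57687) (nat_lit 156) .nil))))))) (.g (nat_lit 5) .nil .nil))) 
(.lf (nat_lit 250810) (.g (nat_lit 4092) (.e (nat_lit 163874) (nat_lit 3) (.e (nat_lit 204838) (nat_lit 20) (.e (nat_lit 114716) (nat_lit 22) (.e (nat_lit 90172) (nat_lit 14) (.e (nat_lit 180244) (nat_lit 5) (.e (nat_lit 532504) (nat_lit 1) (.e (nat_lit 57692) (nat_lit 156) .nil))))))) (.g (nat_lit 7) .nil .nil)))))) (.nd (nat_lit 3) (.nd (nat_lit 4) (.nd (nat_lit 5) 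
(.lf (nat_lit 250758) (.g (nat_lit 2809) (.e (nat_lit 163874) (nat_lit 3) (.e (nat_lit 204838) (nat_lit 20) (.e (nat_lit 114714) (nat_lit 22) (.e (nat_lit 90172) (nat_lit 14) (.e (nat_lit 180243) (nat_lit 5) (.e (nat_lit 532504) (nat_lit 1) (.e (nat_lit 57689) (nat_lit 156) .nil))))))) (.g (nat_lit 4) .nil .nil))) 
(.lf (nat_lit 250790) (.g (nat_lit 2427) (.e (nat_lit 163874) (nat_lit 3) (.e (nat_lit 204838) (nat_lit 20) (.e (nat_lit 114715) (nat_lit 22) (.e (nat_lit 90170) (nat_lit 13) (.e (nat_lit 172138) (nat_lit 15) (.e (nat_lit 1800) (nat_lit 119) (.e (nat_lit 516117) (nat_lit 1) (.e (nat_lit 164332) (nat_lit 230) .nil)))))))) (.g (nat_lit 4) .nil .nil)))) (.nd (nat_lit 5) 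
(.lf (nat_lit 250774) (.g (nat_lit 3838) (.e (nat_lit 163874) (nat_lit 3) (.e (nat_lit 204838) (nat_lit 20) (.e (nat_lit 114714) (nat_lit 22) (.e (nat_lit 90172) (nat_lit 14) (.e (nat_lit 180244) (nat_lit 5) (.e (nat_lit 532503) (nat_lit 1) (.e (nat_lit 57689) (nat_lit 156) .nil))))))) (.g (nat_lit 6) .nil .nil))) 
(.lf (nat_lit 250806) (.g (nat_lit 3438) (.e (nat_lit 163874) (nat_lit 3) (.e (nat_lit 204838) (nat_lit 20) (.e (nat_lit 114716) (nat_lit 22) (.e (nat_lit 90172) (nat_lit 14) (.e (nat_lit 180244) (nat_lit 5) (.e (nat_lit 532503) (nat_lit 1) (.e (nat_lit 57687) (nat_lit 156) .nil))))))) (.g (nat_lit 5) .nil .nil))))) (.nd (nat_lit 4) (.nd (nat_lit 5) 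
(.lf (nat_lit 250766) (.g (nat_lit 2283) (.e (nat_lit 163874) (nat_lit 3) (.e (nat_lit 204838) (nat_lit 20) (.e (nat_lit 114714) (nat_lit 22) (.e (nat_lit 90172) (nat_lit 14) (.e (nat_lit 180244) (nat_lit 5) (.e (nat_lit 532501) (nat_lit 1) (.e (nat_lit 57685) (nat_lit 156) .nil))))))) (.g (nat_lit 4) .nil .nil))) 
(.lf (nat_lit 250798) (.g (nat_lit 2206) (.e (nat_lit 163874) (nat_lit 3) (.e (nat_lit 204838) (nat_lit 20) (.e (nat_lit 114716) (nat_lit 22) (.e (nat_lit 90172) (nat_lit 14) (.e (nat_lit 180243) (nat_lit 5) (.e (nat_lit 532503) (nat_lit 1) (.e (nat_lit 57689) (nat_lit 156) .nil))))))) (.g (nat_lit 4) .nil .nil)))) (.nd (nat_lit 5) 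
(.lf (nat_lit 250782) (.g (nat_lit 2633) (.e (nat_lit 163874) (nat_lit 3) (.e (nat_lit 204838) (nat_lit 20) (.e (nat_lit 114714) (nat_lit 22) (.e (nat_lit 90185) (nat_lit 17) (.e (nat_lit 237592) (nat_lit 3) (.e (nat_lit 204829) (nat_lit 18) (.e (nat_lit 57688) (nat_lit 156) .nil))))))) (.g (nat_lit 4) .nil .nil))) 
(.lf (nat_lit 250814) (.g (nat_lit 3039) (.e (nat_lit 163874) (nat_lit 3) (.e (nat_lit 204838) (nat_lit 20) (.e (nat_lit 114716) (nat_lit 22) (.e (nat_lit 90174) (nat_lit 14) (.e (nat_lit 180243) (nat_lit 5) (.e (nat_lit 532499) (nat_lit 1) (.e (nat_lit 57687) (nat_lit 156) .nil))))))) (.g (nat_lit 5) .nil .nil)))))))) 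
(.nd (nat_lit 1) (.nd (nat_lit 2) (.nd (nat_lit 3) (.nd (nat_lit 4) (.nd (nat_lit 5) 
(.lf (nat_lit 250753) (.g (nat_lit 2643) (.e (nat_lit 163874) (nat_lit 3) (.e (nat_lit 204838) (nat_lit 20) (.e (nat_lit 114714) (nat_lit 22) (.e (nat_lit 90172) (nat_lit 14) (.e (nat_lit 180243) (nat_lit 5) (.e (nat_lit 532503) (nat_lit 1) (.e (nat_lit 57685) (nat_lit 156) .nil))))))) (.g (nat_lit 4) .nil .nil))) 
(.lf (nat_lit 250785) (.g (nat_lit 2215) (.e (nat_lit 163874) (nat_lit 3) (.e (nat_lit 204838) (nat_lit 20) (.e (nat_lit 114714) (nat_lit 22) (.e (nat_lit 90185) (nat_lit 17) (.e (nat_lit 237592) (nat_lit 3) (.e (nat_lit 204830) (nat_lit 18) (.e (nat_lit 57692) (nat_lit 156) .nil))))))) (.g (nat_lit 4) .nil .nil)))) (.nd (nat_lit 5) 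
(.lf (nat_lit 250769) (.g (nat_lit 3925) (.e (nat_lit 163874) (nat_lit 3) (.e (nat_lit 204838) (nat_lit 20) (.e (nat_lit 114714) (nat_lit 22) (.e (nat_lit 90172) (nat_lit 14) (.e (nat_lit 180244) (nat_lit 5) (.e (nat_lit 532501) (nat_lit 1) (.e (nat_lit 57692) (nat_lit 156) .nil))))))) (.g (nat_lit 7) .nil .nil))) 
(.lf (nat_lit 250801) (.g (nat_lit 4658) (.e (nat_lit 163874) (nat_lit 3) (.e (nat_lit 204838) (nat_lit 20) (.e (nat_lit 114716) (nat_lit 22) (.e (nat_lit 90172) (nat_lit 14) (.e (nat_lit 180244) (nat_lit 5) (.e (nat_lit 532499) (nat_lit 1) (.e (nat_lit 57691) (nat_lit 156) .nil))))))) (.g (nat_lit 0) .nil .nil))))) (.nd (nat_lit 4) (.nd (nat_lit 5) 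
(.lf (nat_lit 250761) (.g (nat_lit 3439) (.e (nat_lit 163874) (nat_lit 3) (.e (nat_lit 204838) (nat_lit 20) (.e (nat_lit 114714) (nat_lit 22) (.e (nat_lit 90172) (nat_lit 14) (.e (nat_lit 180244) (nat_lit 5) (.e (nat_lit 532499) (nat_lit 1) (.e (nat_lit 57687) (nat_lit 156) .nil))))))) (.g (nat_lit 5) .nil .nil))) 
(.lf (nat_lit 250793) (.g (nat_lit 2696) (.e (nat_lit 163874) (nat_lit 3) (.e (nat_lit 204838) (nat_lit 20) (.e (nat_lit 114716) (nat_lit 22) (.e (nat_lit 90172) (nat_lit 14) (.e (nat_lit 180243) (nat_lit 5) (.e (nat_lit 532501) (nat_lit 1) (.e (nat_lit 57689) (nat_lit 156) .nil))))))) (.g (nat_lit 4) .nil .nil)))) (.nd (nat_lit 5) 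
(.lf (nat_lit 250777) (.g (nat_lit 4429) (.e (nat_lit 163874) (nat_lit 3) (.e (nat_lit 204838) (nat_lit 20) (.e (nat_lit 114714) (nat_lit 22) (.e (nat_lit 90172) (nat_lit 14) (.e (nat_lit 180244) (nat_lit 5) (.e (nat_lit 532504) (nat_lit 1) (.e (nat_lit 57692) (nat_lit 156) .nil))))))) (.g (nat_lit 7) .nil .nil))) 
(.lf (nat_lit 250809) (.g (nat_lit 3094) (.e (nat_lit 163874) (nat_lit 3) (.e (nat_lit 204838) (nat_lit 20) (.e (nat_lit 114716) (nat_lit 22) (.e (nat_lit 90172) (nat_lit 14) (.e (nat_lit 180244) (nat_lit 5) (.e (nat_lit 532503) (nat_lit 1) (.e (nat_lit 57691) (nat_lit 156) .nil))))))) (.g (nat_lit 5) .nil .nil)))))) (.nd (nat_lit 3) (.nd (nat_lit 4) (.nd (nat_lit 5) 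
(.lf (nat_lit 250757) (.g (nat_lit 2443) (.e (nat_lit 163874) (nat_lit 3) (.e (nat_lit 204838) (nat_lit 20) (.e (nat_lit 114714) (nat_lit 22) (.e (nat_lit 90172) (nat_lit 14) (.e (nat_lit 180243) (nat_lit 5) (.e (nat_lit 532503) (nat_lit 1) (.e (nat_lit 57691) (nat_lit 156) .nil))))))) (.g (nat_lit 4) .nil .nil))) 
(.lf (nat_lit 250789) (.g (nat_lit 2254) (.e (nat_lit 163874) (nat_lit 3) (.e (nat_lit 204838) (nat_lit 20) (.e (nat_lit 114715) (nat_lit 22) (.e (nat_lit 90170) (nat_lit 13) (.e (nat_lit 172046) (nat_lit 0) .nil))))) .nil))) (.nd (nat_lit 5) 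
(.lf (nat_lit 250773) (.g (nat_lit 4949) (.e (nat_lit 163874) (nat_lit 3) (.e (nat_lit 204838) (nat_lit 20) (.e (nat_lit 114714) (nat_lit 22) (.e (nat_lit 90172) (nat_lit 14) (.e (nat_lit 180244) (nat_lit 5) (.e (nat_lit 532503) (nat_lit 1) (.e (nat_lit 57688) (nat_lit 156) .nil))))))) (.g (nat_lit 7) .nil .nil))) 
(.lf (nat_lit 250805) (.g (nat_lit 3568) (.e (nat_lit 163874) (nat_lit 3) (.e (nat_lit 204838) (nat_lit 20) (.e (nat_lit 114716) (nat_lit 22) (.e (nat_lit 90172) (nat_lit 14) (.e (nat_lit 180244) (nat_lit 5) (.e (nat_lit 532503) (nat_lit 1) (.e (nat_lit 57685) (nat_lit 156) .nil))))))) (.g (nat_lit 6) .nil .nil))))) (.nd (nat_lit 4) (.nd (nat_lit 5) 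
(.lf (nat_lit 250765) (.g (nat_lit 2888) (.e (nat_lit 163874) (nat_lit 3) (.e (nat_lit 204838) (nat_lit 20) (.e (nat_lit 114714) (nat_lit 22) (.e (nat_lit 90172) (nat_lit 14) (.e (nat_lit 180244) (nat_lit 5) (.e (nat_lit 532500) (nat_lit 1) (.e (nat_lit 57692) (nat_lit 156) .nil))))))) (.g (nat_lit 5) .nil .nil))) 
(.lf (nat_lit 250797) (.g (nat_lit 2217) (.e (nat_lit 163874) (nat_lit 3) (.e (nat_lit 204838) (nat_lit 20) (.e (nat_lit 114716) (nat_lit 22) (.e (nat_lit 90172) (nat_lit 14) (.e (nat_lit 180243) (nat_lit 5) (.e (nat_lit 532503) (nat_lit 1) (.e (nat_lit 57687) (nat_lit 156) .nil))))))) (.g (nat_lit 4) .nil .nil)))) (.nd (nat_lit 5) 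
(.lf (nat_lit 250781) (.g (nat_lit 3757) (.e (nat_lit 163874) (nat_lit 3) (.e (nat_lit 204838) (nat_lit 20) (.e (nat_lit 114714) (nat_lit 22) (.e (nat_lit 90174) (nat_lit 14) (.e (nat_lit 180243) (nat_lit 5) (.e (nat_lit 532503) (nat_lit 1) (.e (nat_lit 57689) (nat_lit 156) .nil))))))) (.g (nat_lit 6) .nil .nil))) 
(.lf (nat_lit 250813) (.g (nat_lit 2092) (.e (nat_lit 163874) (nat_lit 3) (.e (nat_lit 204838) (nat_lit 20) (.e (nat_lit 114716) (nat_lit 22) (.e (nat_lit 90173) (nat_lit 14) (.e (nat_lit 180244) (nat_lit 5) (.e (nat_lit 532504) (nat_lit 1) (.e (nat_lit 57692) (nat_lit 156) .nil))))))) (.g (nat_lit 4) .nil .nil))))))) (.nd (nat_lit 2) (.nd (nat_lit 3) (.nd (nat_lit 4) (.nd (nat_lit 5) 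
(.lf (nat_lit 250755) (.g (nat_lit 4537) (.e (nat_lit 163874) (nat_lit 3) (.e (nat_lit 204838) (nat_lit 20) (.e (nat_lit 114714) (nat_lit 22) (.e (nat_lit 90172) (nat_lit 14) (.e (nat_lit 180243) (nat_lit 5) (.e (nat_lit 532503) (nat_lit 1) (.e (nat_lit 57688) (nat_lit 156) .nil))))))) (.g (nat_lit 6) .nil .nil))) 
(.lf (nat_lit 250787) (.g (nat_lit 2365) (.e (nat_lit 163874) (nat_lit 3) (.e (nat_lit 204838) (nat_lit 20) (.e (nat_lit 114714) (nat_lit 22) (.e (nat_lit 90185) (nat_lit 17) (.e (nat_lit 237594) (nat_lit 3) (.e (nat_lit 204830) (nat_lit 18) (.e (nat_lit 57691) (nat_lit 156) .nil))))))) (.g (nat_lit 4) .nil .nil)))) (.nd (nat_lit 5) 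
(.lf (nat_lit 250771) (.g (nat_lit 3950) (.e (nat_lit 163874) (nat_lit 3) (.e (nat_lit 204838) (nat_lit 20) (.e (nat_lit 114714) (nat_lit 22) (.e (nat_lit 90172) (nat_lit 14) (.e (nat_lit 180244) (nat_lit 5) (.e (nat_lit 532503) (nat_lit 1) (.e (nat_lit 57685) (nat_lit 156) .nil))))))) (.g (nat_lit 6) .nil .nil))) 
(.lf (nat_lit 250803) (.g (nat_lit 3344) (.e (nat_lit 163874) (nat_lit 3) (.e (nat_lit 204838) (nat_lit 20) (.e (nat_lit 114716) (nat_lit 22) (.e (nat_lit 90172) (nat_lit 14) (.e (nat_lit 180244) (nat_lit 5) (.e (nat_lit 532501) (nat_lit 1) (.e (nat_lit 57691) (nat_lit 156) .nil))))))) (.g (nat_lit 6) .nil .nil))))) (.nd (nat_lit 4) (.nd (nat_lit 5) 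
(.lf (nat_lit 250763) (.g (nat_lit 5021) (.e (nat_lit 163874) (nat_lit 3) (.e (nat_lit 204838) (nat_lit 20) (.e (nat_lit 114714) (nat_lit 22) (.e (nat_lit 90172) (nat_lit 14) (.e (nat_lit 180244) (nat_lit 5) (.e (nat_lit 532499) (nat_lit 1) (.e (nat_lit 57691) (nat_lit 156) .nil))))))) (.g (nat_lit 0) .nil .nil))) 
(.lf (nat_lit 250795) (.g (nat_lit 2805) (.e (nat_lit 163874) (nat_lit 3) (.e (nat_lit 204838) (nat_lit 20) (.e (nat_lit 114716) (nat_lit 22) (.e (nat_lit 90172) (nat_lit 14) (.e (nat_lit 180243) (nat_lit 5) (.e (nat_lit 532501) (nat_lit 1) (.e (nat_lit 57691) (nat_lit 156) .nil))))))) (.g (nat_lit 4) .nil .nil)))) (.nd (nat_lit 5) 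
(.lf (nat_lit 250779) (.g (nat_lit 4309) (.e (nat_lit 163874) (nat_lit 3) (.e (nat_lit 204838) (nat_lit 20) (.e (nat_lit 114714) (nat_lit 22) (.e (nat_lit 90174) (nat_lit 14) (.e (nat_lit 180243) (nat_lit 5) (.e (nat_lit 532501) (nat_lit 1) (.e (nat_lit 57689) (nat_lit 156) .nil))))))) (.g (nat_lit 6) .nil .nil))) 
(.lf (nat_lit 250811) (.g (nat_lit 1394) (.e (nat_lit 163874) (nat_lit 3) (.e (nat_lit 204838) (nat_lit 20) (.e (nat_lit 114716) (nat_lit 22) (.e (nat_lit 90173) (nat_lit 14) .nil)))) .nil))))) (.nd (nat_lit 3) (.nd (nat_lit 4) (.nd (nat_lit 5) 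
(.lf (nat_lit 250759) (.g (nat_lit 4309) (.e (nat_lit 163874) (nat_lit 3) (.e (nat_lit 204838) (nat_lit 20) (.e (nat_lit 114714) (nat_lit 22) (.e (nat_lit 90172) (nat_lit 14) (.e (nat_lit 180243) (nat_lit 5) (.e (nat_lit 532504) (nat_lit 1) (.e (nat_lit 57691) (nat_lit 156) .nil))))))) (.g (nat_lit 6) .nil .nil))) 
(.lf (nat_lit 250791) (.g (nat_lit 1424) (.e (nat_lit 163874) (nat_lit 3) (.e (nat_lit 204838) (nat_lit 20) (.e (nat_lit 114716) (nat_lit 22) (.e (nat_lit 90167) (nat_lit 13) .nil)))) .nil))) (.nd (nat_lit 5) 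
(.lf (nat_lit 250775) (.g (nat_lit 3439) (.e (nat_lit 163874) (nat_lit 3) (.e (nat_lit 204838) (nat_lit 20) (.e (nat_lit 114714) (nat_lit 22) (.e (nat_lit 90172) (nat_lit 14) (.e (nat_lit 180244) (nat_lit 5) (.e (nat_lit 532503) (nat_lit 1) (.e (nat_lit 57691) (nat_lit 156) .nil))))))) (.g (nat_lit 5) .nil .nil))) 
(.lf (nat_lit 250807) (.g (nat_lit 4584) (.e (nat_lit 163874) (nat_lit 3) (.e (nat_lit 204838) (nat_lit 20) (.e (nat_lit 114716) (nat_lit 22) (.e (nat_lit 90172) (nat_lit 14) (.e (nat_lit 180244) (nat_lit 5) (.e (nat_lit 532503) (nat_lit 1) (.e (nat_lit 57688) (nat_lit 156) .nil))))))) (.g (nat_lit 7) .nil .nil))))) (.nd (nat_lit 4) (.nd (nat_lit 5) 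
(.lf (nat_lit 250767) (.g (nat_lit 3811) (.e (nat_lit 163874) (nat_lit 3) (.e (nat_lit 204838) (nat_lit 20) (.e (nat_lit 114714) (nat_lit 22) (.e (nat_lit 90172) (nat_lit 14) (.e (nat_lit 180244) (nat_lit 5) (.e (nat_lit 532501) (nat_lit 1) (.e (nat_lit 57690) (nat_lit 156) .nil))))))) (.g (nat_lit 6) .nil .nil))) 
(.lf (nat_lit 250799) (.g (nat_lit 3091) (.e (nat_lit 163874) (nat_lit 3) (.e (nat_lit 204838) (nat_lit 20) (.e (nat_lit 114716) (nat_lit 22) (.e (nat_lit 90172) (nat_lit 14) (.e (nat_lit 180243) (nat_lit 5) (.e (nat_lit 532504) (nat_lit 1) (.e (nat_lit 57690) (nat_lit 156) .nil))))))) (.g (nat_lit 5) .nil .nil)))) (.nd (nat_lit 5) 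
(.lf (nat_lit 250783) (.g (nat_lit 2274) (.e (nat_lit 163874) (nat_lit 3) (.e (nat_lit 204838) (nat_lit 20) (.e (nat_lit 114714) (nat_lit 22) (.e (nat_lit 90185) (nat_lit 17) (.e (nat_lit 237592) (nat_lit 3) (.e (nat_lit 204829) (nat_lit 18) (.e (nat_lit 57692) (nat_lit 156) .nil))))))) (.g (nat_lit 4) .nil .nil))) 
(.lf (nat_lit 250815) (.g (nat_lit 3828) (.e (nat_lit 163874) (nat_lit 3) (.e (nat_lit 204838) (nat_lit 20) (.e (nat_lit 114716) (nat_lit 22) (.e (nat_lit 90174) (nat_lit 14) (.e (nat_lit 180243) (nat_lit 5) (.e (nat_lit 532501) (nat_lit 1) (.e (nat_lit 57689) (nat_lit 156) .nil))))))) (.g (nat_lit 6) .nil .nil)))))))))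

noncomputable def tv3250 : DT := (.nd (nat_lit 0) (.nd (nat_lit 1) (.nd (nat_lit 2) (.nd (nat_lit 3) (.nd (nat_lit 4) (.nd (nat_lit 5) 
(.lf (nat_lit 250816) (.g (nat_lit 3279) (.e (nat_lit 163874) (nat_lit 3) (.e (nat_lit 204838) (nat_lit 20) (.e (nat_lit 114716) (nat_lit 22) (.e (nat_lit 90174) (nat_lit 14) (.e (nat_lit 180243) (nat_lit 5) (.e (nat_lit 532503) (nat_lit 1) (.e (nat_lit 57687) (nat_lit 156) .nil))))))) (.g (nat_lit 5) .nil .nil))) 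
(.lf (nat_lit 250848) (.g (nat_lit 2015) (.e (nat_lit 163874) (nat_lit 3) (.e (nat_lit 204854) (nat_lit 26) (.e (nat_lit 336019) (nat_lit 3) (.e (nat_lit 98342) (nat_lit 20) (.e (nat_lit 221202) (nat_lit 20) .nil))))) .nil))) (.nd (nat_lit 5) 
(.lf (nat_lit 250832) (.g (nat_lit 2330) (.e (nat_lit 163874) (nat_lit 3) (.e (nat_lit 204838) (nat_lit 20) (.e (nat_lit 114719) (nat_lit 23) (.e (nat_lit 98365) (nat_lit 26) (.e (nat_lit 426132) (nat_lit 3) (.e (nat_lit 204830) (nat_lit 18) (.e (nat_lit 57692) (nat_lit 156) .nil))))))) (.g (nat_lit 4) .nil .nil))) 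
(.lf (nat_lit 250864) (.g (nat_lit 2267) (.e (nat_lit 163874) (nat_lit 3) (.e (nat_lit 204858) (nat_lit 26) (.e (nat_lit 336217) (nat_lit 13) (.e (nat_lit 393225) (nat_lit 9) (.e (nat_lit 335986) (nat_lit 1) (.e (nat_lit 57927) (nat_lit 282) .nil)))))) (.g (nat_lit 0) .nil .nil))))) (.nd (nat_lit 4) (.nd (nat_lit 5) 
(.lf (nat_lit 250824) (.g (nat_lit 3383) (.e (nat_lit 163874) (nat_lit 3) (.e (nat_lit 204838) (nat_lit 20) (.e (nat_lit 114718) (nat_lit 23) (.e (nat_lit 98365) (nat_lit 26) (.e (nat_lit 426133) (nat_lit 3) (.e (nat_lit 204829) (nat_lit 18) (.e (nat_lit 57688) (nat_lit 156) .nil))))))) (.g (nat_lit 6) .nil .nil))) 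
(.lf (nat_lit 250856) (.g (nat_lit 3348) (.e (nat_lit 163874) (nat_lit 3) (.e (nat_lit 204854) (nat_lit 26) (.e (nat_lit 336211) (nat_lit 13) (.e (nat_lit 393225) (nat_lit 9) (.e (nat_lit 335988) (nat_lit 1) (.e (nat_lit 57927) (nat_lit 282) .nil)))))) (.g (nat_lit 0) .nil .nil)))) (.nd (nat_lit 5) 
(.lf (nat_lit 250840) (.g (nat_lit 4057) (.e (nat_lit 163874) (nat_lit 3) (.e (nat_lit 204838) (nat_lit 20) (.e (nat_lit 114719) (nat_lit 23) (.e (nat_lit 98365) (nat_lit 26) (.e (nat_lit 426139) (nat_lit 3) (.e (nat_lit 204830) (nat_lit 18) (.e (nat_lit 57692) (nat_lit 156) .nil))))))) (.g (nat_lit 6) .nil .nil))) 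
(.lf (nat_lit 250872) (.g (nat_lit 1790) (.e (nat_lit 163874) (nat_lit 3) (.e (nat_lit 204859) (nat_lit 26) (.e (nat_lit 336017) (nat_lit 3) (.e (nat_lit 98341) (nat_lit 20) (.e (nat_lit 221215) (nat_lit 23) .nil))))) .nil))))) (.nd (nat_lit 3) (.nd (nat_lit 4) (.nd (nat_lit 5) 
(.lf (nat_lit 250820) (.g (nat_lit 3618) (.e (nat_lit 163874) (nat_lit 3) (.e (nat_lit 204838) (nat_lit 20) (.e (nat_lit 114716) (nat_lit 22) (.e (nat_lit 90185) (nat_lit 17) (.e (nat_lit 237594) (nat_lit 3) (.e (nat_lit 204829) (nat_lit 18) (.e (nat_lit 57691) (nat_lit 156) .nil))))))) (.g (nat_lit 6) .nil .nil))) 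
(.lf (nat_lit 250852) (.g (nat_lit 3052) (.e (nat_lit 163874) (nat_lit 3) (.e (nat_lit 204854) (nat_lit 26) (.e (nat_lit 336211) (nat_lit 13) (.e (nat_lit 393224) (nat_lit 9) (.e (nat_lit 335988) (nat_lit 1) (.e (nat_lit 57927) (nat_lit 282) .nil)))))) (.g (nat_lit 6) .nil .nil)))) (.nd (nat_lit 5) 
(.lf (nat_lit 250836) (.g (nat_lit 2536) (.e (nat_lit 163874) (nat_lit 3) (.e (nat_lit 204838) (nat_lit 20) (.e (nat_lit 114719) (nat_lit 23) (.e (nat_lit 98365) (nat_lit 26) (.e (nat_lit 426137) (nat_lit 3) (.e (nat_lit 204830) (nat_lit 18) (.e (nat_lit 57692) (nat_lit 156) .nil))))))) (.g (nat_lit 4) .nil .nil))) 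
(.lf (nat_lit 250868) (.g (nat_lit 2707) (.e (nat_lit 163874) (nat_lit 3) (.e (nat_lit 204858) (nat_lit 26) (.e (nat_lit 336217) (nat_lit 13) (.e (nat_lit 393225) (nat_lit 9) (.e (nat_lit 335995) (nat_lit 1) (.e (nat_lit 57931) (nat_lit 282) .nil)))))) (.g (nat_lit 0) .nil .nil))))) (.nd (nat_lit 4) (.nd (nat_lit 5) 
(.lf (nat_lit 250828) (.g (nat_lit 2885) (.e (nat_lit 163874) (nat_lit 3) (.e (nat_lit 204838) (nat_lit 20) (.e (nat_lit 114718) (nat_lit 23) (.e (nat_lit 98365) (nat_lit 26) (.e (nat_lit 426139) (nat_lit 3) (.e (nat_lit 204830) (nat_lit 18) (.e (nat_lit 57692) (nat_lit 156) .nil))))))) (.g (nat_lit 5) .nil .nil))) 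
(.lf (nat_lit 250860) (.g (nat_lit 3477) (.e (nat_lit 163874) (nat_lit 3) (.e (nat_lit 204854) (nat_lit 26) (.e (nat_lit 336211) (nat_lit 13) (.e (nat_lit 393225) (nat_lit 9) (.e (nat_lit 335996) (nat_lit 1) (.e (nat_lit 57929) (nat_lit 282) .nil)))))) (.g (nat_lit 0) .nil .nil)))) (.nd (nat_lit 5) 
(.lf (nat_lit 250844) (.g (nat_lit 3069) (.e (nat_lit 163874) (nat_lit 3) (.e (nat_lit 204851) (nat_lit 26) (.e (nat_lit 336211) (nat_lit 13) (.e (nat_lit 393225) (nat_lit 9) (.e (nat_lit 335995) (nat_lit 1) (.e (nat_lit 57929) (nat_lit 282) .nil)))))) (.g (nat_lit 5) .nil .nil))) 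
(.lf (nat_lit 250876) (.g (nat_lit 2371) (.e (nat_lit 163874) (nat_lit 3) (.e (nat_lit 204859) (nat_lit 26) (.e (nat_lit 336118) (nat_lit 9) (.e (nat_lit 336453) (nat_lit 34) (.e (nat_lit 483364) (nat_lit 18) (.e (nat_lit 57927) (nat_lit 282) .nil)))))) (.g (nat_lit 0) .nil .nil))))))) (.nd (nat_lit 2) (.nd (nat_lit 3) (.nd (nat_lit 4) (.nd (nat_lit 5) 
(.lf (nat_lit 250818) (.g (nat_lit 2746) (.e (nat_lit 163874) (nat_lit 3) (.e (nat_lit 204838) (nat_lit 20) (.e (nat_lit 114716) (nat_lit 22) (.e (nat_lit 90185) (nat_lit 17) (.e (nat_lit 237591) (nat_lit 3) .nil))))) .nil)) 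
(.lf (nat_lit 250850) (.g (nat_lit 2330) (.e (nat_lit 163874) (nat_lit 3) (.e (nat_lit 204854) (nat_lit 26) (.e (nat_lit 336019) (nat_lit 3) (.e (nat_lit 98342) (nat_lit 20) (.e (nat_lit 221212) (nat_lit 22) .nil))))) .nil))) (.nd (nat_lit 5) 
(.lf (nat_lit 250834) (.g (nat_lit 4078) (.e (nat_lit 163874) (nat_lit 3) (.e (nat_lit 204838) (nat_lit 20) (.e (nat_lit 114719) (nat_lit 23) (.e (nat_lit 98365) (nat_lit 26) (.e (nat_lit 426137) (nat_lit 3) (.e (nat_lit 204829) (nat_lit 18) (.e (nat_lit 57692) (nat_lit 156) .nil))))))) (.g (nat_lit 6) .nil .nil))) 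
(.lf (nat_lit 250866) (.g (nat_lit 2338) (.e (nat_lit 163874) (nat_lit 3) (.e (nat_lit 204858) (nat_lit 26) (.e (nat_lit 336217) (nat_lit 13) (.e (nat_lit 393225) (nat_lit 9) (.e (nat_lit 335988) (nat_lit 1) (.e (nat_lit 57927) (nat_lit 282) .nil)))))) (.g (nat_lit 0) .nil .nil))))) (.nd (nat_lit 4) (.nd (nat_lit 5) 
(.lf (nat_lit 250826) (.g (nat_lit 2815) (.e (nat_lit 163874) (nat_lit 3) (.e (nat_lit 204838) (nat_lit 20) (.e (nat_lit 114718) (nat_lit 23) (.e (nat_lit 98365) (nat_lit 26) (.e (nat_lit 426139) (nat_lit 3) (.e (nat_lit 204829) (nat_lit 18) (.e (nat_lit 57691) (nat_lit 156) .nil))))))) (.g (nat_lit 4) .nil .nil))) 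
(.lf (nat_lit 250858) (.g (nat_lit 3334) (.e (nat_lit 163874) (nat_lit 3) (.e (nat_lit 204854) (nat_lit 26) (.e (nat_lit 336211) (nat_lit 13) (.e (nat_lit 393225) (nat_lit 9) (.e (nat_lit 335995) (nat_lit 1) (.e (nat_lit 57929) (nat_lit 282) .nil)))))) (.g (nat_lit 0) .nil .nil)))) (.nd (nat_lit 5) 
(.lf (nat_lit 250842) (.g (nat_lit 1511) (.e (nat_lit 163874) (nat_lit 3) (.e (nat_lit 204838) (nat_lit 20) (.e (nat_lit 114719) (nat_lit 23) (.e (nat_lit 98376) (nat_lit 30) .nil)))) .nil)) 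
(.lf (nat_lit 250874) (.g (nat_lit 2329) (.e (nat_lit 163874) (nat_lit 3) (.e (nat_lit 204859) (nat_lit 26) (.e (nat_lit 336116) (nat_lit 9) (.e (nat_lit 336453) (nat_lit 34) (.e (nat_lit 483366) (nat_lit 18) (.e (nat_lit 57931) (nat_lit 282) .nil)))))) (.g (nat_lit 0) .nil .nil)))))) (.nd (nat_lit 3) (.nd (nat_lit 4) (.nd (nat_lit 5) 
(.lf (nat_lit 250822) (.g (nat_lit 4030) (.e (nat_lit 163874) (nat_lit 3) (.e (nat_lit 204838) (nat_lit 20) (.e (nat_lit 114718) (nat_lit 23) (.e (nat_lit 98356) (nat_lit 26) (.e (nat_lit 426438) (nat_lit 18) (.e (nat_lit 98334) (nat_lit 18) (.e (nat_lit 164330) (nat_lit 230) .nil))))))) (.g (nat_lit 7) .nil .nil))) 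
(.lf (nat_lit 250854) (.g (nat_lit 3282) (.e (nat_lit 163874) (nat_lit 3) (.e (nat_lit 204854) (nat_lit 26) (.e (nat_lit 336211) (nat_lit 13) (.e (nat_lit 393225) (nat_lit 9) (.e (nat_lit 335986) (nat_lit 1) (.e (nat_lit 57927) (nat_lit 282) .nil)))))) (.g (nat_lit 0) .nil .nil)))) (.nd (nat_lit 5) 
(.lf (nat_lit 250838) (.g (nat_lit 4248) (.e (nat_lit 163874) (nat_lit 3) (.e (nat_lit 204838) (nat_lit 20) (.e (nat_lit 114719) (nat_lit 23) (.e (nat_lit 98365) (nat_lit 26) (.e (nat_lit 426139) (nat_lit 3) (.e (nat_lit 204829) (nat_lit 18) (.e (nat_lit 57688) (nat_lit 156) .nil))))))) (.g (nat_lit 6) .nil .nil))) 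
(.lf (nat_lit 250870) (.g (nat_lit 2498) (.e (nat_lit 163874) (nat_lit 3) (.e (nat_lit 204858) (nat_lit 26) (.e (nat_lit 336217) (nat_lit 13) (.e (nat_lit 393225) (nat_lit 9) (.e (nat_lit 335996) (nat_lit 1) (.e (nat_lit 57931) (nat_lit 282) .nil)))))) (.g (nat_lit 0) .nil .nil))))) (.nd (nat_lit 4) (.nd (nat_lit 5) 
(.lf (nat_lit 250830) (.g (nat_lit 2582) (.e (nat_lit 163874) (nat_lit 3) (.e (nat_lit 204838) (nat_lit 20) (.e (nat_lit 114719) (nat_lit 23) (.e (nat_lit 98359) (nat_lit 26) (.e (nat_lit 426132) (nat_lit 3) (.e (nat_lit 204830) (nat_lit 18) (.e (nat_lit 57691) (nat_lit 156) .nil))))))) (.g (nat_lit 4) .nil .nil))) 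
(.lf (nat_lit 250862) (.g (nat_lit 956) (.e (nat_lit 163874) (nat_lit 3) (.e (nat_lit 204854) (nat_lit 26) (.e (nat_lit 336211) (nat_lit 13) (.e (nat_lit 393228) (nat_lit 9) .nil)))) .nil))) (.nd (nat_lit 5) 
(.lf (nat_lit 250846) (.g (nat_lit 2091) (.e (nat_lit 163874) (nat_lit 3) (.e (nat_lit 204853) (nat_lit 26) (.e (nat_lit 336211) (nat_lit 13) (.e (nat_lit 393225) (nat_lit 9) (.e (nat_lit 335995) (nat_lit 1) (.e (nat_lit 57929) (nat_lit 282) .nil)))))) (.g (nat_lit 4) .nil .nil))) 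
(.lf (nat_lit 250878) (.g (nat_lit 2399) (.e (nat_lit 163874) (nat_lit 3) (.e (nat_lit 204859) (nat_lit 26) (.e (nat_lit 336118) (nat_lit 9) (.e (nat_lit 336453) (nat_lit 34) (.e (nat_lit 483366) (nat_lit 18) (.e (nat_lit 57931) (nat_lit 282) .nil)))))) (.g (nat_lit 0) .nil .nil)))))))) (.nd (nat_lit 1) (.nd (nat_lit 2) (.nd (nat_lit 3) (.nd (nat_lit 4) (.nd (nat_lit 5) 
(.lf (nat_lit 250817) (.g (nat_lit 3278) (.e (nat_lit 163874) (nat_lit 3) (.e (nat_lit 204838) (nat_lit 20) (.e (nat_lit 114716) (nat_lit 22) (.e (nat_lit 90174) (nat_lit 14) (.e (nat_lit 180243) (nat_lit 5) (.e (nat_lit 532503) (nat_lit 1) (.e (nat_lit 57689) (nat_lit 156) .nil))))))) (.g (nat_lit 6) .nil .nil))) 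
(.lf (nat_lit 250849) (.g (nat_lit 2683) (.e (nat_lit 163874) (nat_lit 3) (.e (nat_lit 204854) (nat_lit 26) (.e (nat_lit 336019) (nat_lit 3) (.e (nat_lit 98342) (nat_lit 20) (.e (nat_lit 221211) (nat_lit 22) (.e (nat_lit 196661) (nat_lit 12) (.e (nat_lit 57361) (nat_lit 0) (.e (nat_lit 5599) (nat_lit 310) .nil)))))))) (.g (nat_lit 4) .nil .nil)))) (.nd (nat_lit 5) 
(.lf (nat_lit 250833) (.g (nat_lit 4680) (.e (nat_lit 163874) (nat_lit 3) (.e (nat_lit 204838) (nat_lit 20) (.e (nat_lit 114719) (nat_lit 23) (.e (nat_lit 98365) (nat_lit 26) (.e (nat_lit 426133) (nat_lit 3) (.e (nat_lit 204829) (nat_lit 18) (.e (nat_lit 57688) (nat_lit 156) .nil))))))) (.g (nat_lit 7) .nil .nil))) 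
(.lf (nat_lit 250865) (.g (nat_lit 2585) (.e (nat_lit 163874) (nat_lit 3) (.e (nat_lit 204858) (nat_lit 26) (.e (nat_lit 336217) (nat_lit 13) (.e (nat_lit 393225) (nat_lit 9) (.e (nat_lit 335988) (nat_lit 1) (.e (nat_lit 57926) (nat_lit 282) .nil)))))) (.g (nat_lit 0) .nil .nil))))) (.nd (nat_lit 4) (.nd (nat_lit 5) 
(.lf (nat_lit 250825) (.g (nat_lit 2351) (.e (nat_lit 163874) (nat_lit 3) (.e (nat_lit 204838) (nat_lit 20) (.e (nat_lit 114718) (nat_lit 23) (.e (nat_lit 98365) (nat_lit 26) (.e (nat_lit 426133) (nat_lit 3) (.e (nat_lit 204829) (nat_lit 18) (.e (nat_lit 57691) (nat_lit 156) .nil))))))) (.g (nat_lit 4) .nil .nil))) 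
(.lf (nat_lit 250857) (.g (nat_lit 1904) (.e (nat_lit 163874) (nat_lit 3) (.e (nat_lit 204854) (nat_lit 26) (.e (nat_lit 336211) (nat_lit 13) (.e (nat_lit 393225) (nat_lit 9) (.e (nat_lit 335993) (nat_lit 1) (.e (nat_lit 57931) (nat_lit 282) .nil)))))) (.g (nat_lit 4) .nil .nil)))) (.nd (nat_lit 5) 
(.lf (nat_lit 250841) (.g (nat_lit 2491) (.e (nat_lit 163874) (nat_lit 3) (.e (nat_lit 204838) (nat_lit 20) (.e (nat_lit 114719) (nat_lit 23) (.e (nat_lit 98366) (nat_lit 27) (.e (nat_lit 434231) (nat_lit 23) (.e (nat_lit 532490) (nat_lit 0) (.e (nat_lit 1040) (nat_lit 81) (.e (nat_lit 7290) (nat_lit 386) .nil)))))))) (.g (nat_lit 4) .nil .nil))) 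
(.lf (nat_lit 250873) (.g (nat_lit 2196) (.e (nat_lit 163874) (nat_lit 3) (.e (nat_lit 204859) (nat_lit 26) (.e (nat_lit 336017) (nat_lit 3) (.e (nat_lit 98342) (nat_lit 20) (.e (nat_lit 221204) (nat_lit 20) .nil))))) .nil))))) (.nd (nat_lit 3) (.nd (nat_lit 4) (.nd (nat_lit 5) 
(.lf (nat_lit 250821) (.g (nat_lit 4160) (.e (nat_lit 163874) (nat_lit 3) (.e (nat_lit 204838) (nat_lit 20) (.e (nat_lit 114716) (nat_lit 22) (.e (nat_lit 90185) (nat_lit 17) (.e (nat_lit 237594) (nat_lit 3) (.e (nat_lit 204829) (nat_lit 18) (.e (nat_lit 57692) (nat_lit 156) .nil))))))) (.g (nat_lit 7) .nil .nil))) 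
(.lf (nat_lit 250853) (.g (nat_lit 3577) (.e (nat_lit 163874) (nat_lit 3) (.e (nat_lit 204854) (nat_lit 26) (.e (nat_lit 336211) (nat_lit 13) (.e (nat_lit 393225) (nat_lit 9) (.e (nat_lit 335986) (nat_lit 1) (.e (nat_lit 57926) (nat_lit 282) .nil)))))) (.g (nat_lit 0) .nil .nil)))) (.nd (nat_lit 5) 
(.lf (nat_lit 250837) (.g (nat_lit 2604) (.e (nat_lit 163874) (nat_lit 3) (.e (nat_lit 204838) (nat_lit 20) (.e (nat_lit 114719) (nat_lit 23) (.e (nat_lit 98365) (nat_lit 26) (.e (nat_lit 426138) (nat_lit 3) (.e (nat_lit 204831) (nat_lit 18) (.e (nat_lit 57691) (nat_lit 156) .nil))))))) (.g (nat_lit 4) .nil .nil))) 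
(.lf (nat_lit 250869) (.g (nat_lit 2460) (.e (nat_lit 163874) (nat_lit 3) (.e (nat_lit 204858) (nat_lit 26) (.e (nat_lit 336217) (nat_lit 13) (.e (nat_lit 393225) (nat_lit 9) (.e (nat_lit 335996) (nat_lit 1) (.e (nat_lit 57929) (nat_lit 282) .nil)))))) (.g (nat_lit 0) .nil .nil))))) (.nd (nat_lit 4) (.nd (nat_lit 5) 
(.lf (nat_lit 250829) (.g (nat_lit 2352) (.e (nat_lit 163874) (nat_lit 3) (.e (nat_lit 204838) (nat_lit 20) (.e (nat_lit 114719) (nat_lit 23) (.e (nat_lit 98359) (nat_lit 26) (.e (nat_lit 426132) (nat_lit 3) .nil))))) .nil)) 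
(.lf (nat_lit 250861) (.g (nat_lit 3503) (.e (nat_lit 163874) (nat_lit 3) (.e (nat_lit 204854) (nat_lit 26) (.e (nat_lit 336211) (nat_lit 13) (.e (nat_lit 393225) (nat_lit 9) (.e (nat_lit 335996) (nat_lit 1) (.e (nat_lit 57931) (nat_lit 282) .nil)))))) (.g (nat_lit 0) .nil .nil)))) (.nd (nat_lit 5) 
(.lf (nat_lit 250845) (.g (nat_lit 3221) (.e (nat_lit 163874) (nat_lit 3) (.e (nat_lit 204851) (nat_lit 26) (.e (nat_lit 336211) (nat_lit 13) (.e (nat_lit 393225) (nat_lit 9) (.e (nat_lit 335996) (nat_lit 1) (.e (nat_lit 57929) (nat_lit 282) .nil)))))) (.g (nat_lit 5) .nil .nil))) 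
(.lf (nat_lit 250877) (.g (nat_lit 2660) (.e (nat_lit 163874) (nat_lit 3) (.e (nat_lit 204859) (nat_lit 26) (.e (nat_lit 336118) (nat_lit 9) (.e (nat_lit 336453) (nat_lit 34) (.e (nat_lit 483365) (nat_lit 18) (.e (nat_lit 57931) (nat_lit 282) .nil)))))) (.g (nat_lit 0) .nil .nil))))))) (.nd (nat_lit 2) (.nd (nat_lit 3) (.nd (nat_lit 4) (.nd (nat_lit 5) 
(.lf (nat_lit 250819) (.g (nat_lit 2867) (.e (nat_lit 163874) (nat_lit 3) (.e (nat_lit 204838) (nat_lit 20) (.e (nat_lit 114716) (nat_lit 22) (.e (nat_lit 90185) (nat_lit 17) (.e (nat_lit 237593) (nat_lit 3) .nil))))) .nil)) 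
(.lf (nat_lit 250851) (.g (nat_lit 1044) (.e (nat_lit 163874) (nat_lit 3) (.e (nat_lit 204854) (nat_lit 26) (.e (nat_lit 336114) (nat_lit 9) .nil))) .nil))) (.nd (nat_lit 5) 
(.lf (nat_lit 250835) (.g (nat_lit 2382) (.e (nat_lit 163874) (nat_lit 3) (.e (nat_lit 204838) (nat_lit 20) (.e (nat_lit 114719) (nat_lit 23) (.e (nat_lit 98365) (nat_lit 26) (.e (nat_lit 426137) (nat_lit 3) (.e (nat_lit 204830) (nat_lit 18) (.e (nat_lit 57691) (nat_lit 156) .nil))))))) (.g (nat_lit 4) .nil .nil))) 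
(.lf (nat_lit 250867) (.g (nat_lit 2312) (.e (nat_lit 163874) (nat_lit 3) (.e (nat_lit 204858) (nat_lit 26) (.e (nat_lit 336217) (nat_lit 13) (.e (nat_lit 393225) (nat_lit 9) (.e (nat_lit 335995) (nat_lit 1) (.e (nat_lit 57929) (nat_lit 282) .nil)))))) (.g (nat_lit 0) .nil .nil))))) (.nd (nat_lit 4) (.nd (nat_lit 5) 
(.lf (nat_lit 250827) (.g (nat_lit 2774) (.e (nat_lit 163874) (nat_lit 3) (.e (nat_lit 204838) (nat_lit 20) (.e (nat_lit 114718) (nat_lit 23) (.e (nat_lit 98365) (nat_lit 26) (.e (nat_lit 426139) (nat_lit 3) (.e (nat_lit 204830) (nat_lit 18) (.e (nat_lit 57691) (nat_lit 156) .nil))))))) (.g (nat_lit 4) .nil .nil))) 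
(.lf (nat_lit 250859) (.g (nat_lit 3719) (.e (nat_lit 163874) (nat_lit 3) (.e (nat_lit 204854) (nat_lit 26) (.e (nat_lit 336211) (nat_lit 13) (.e (nat_lit 393225) (nat_lit 9) (.e (nat_lit 335995) (nat_lit 1) (.e (nat_lit 57931) (nat_lit 282) .nil)))))) (.g (nat_lit 0) .nil .nil)))) (.nd (nat_lit 5) 
(.lf (nat_lit 250843) (.g (nat_lit 1961) (.e (nat_lit 163874) (nat_lit 3) (.e (nat_lit 204850) (nat_lit 26) (.e (nat_lit 336028) (nat_lit 3) (.e (nat_lit 98342) (nat_lit 20) (.e (nat_lit 221214) (nat_lit 23) .nil))))) .nil)) 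
(.lf (nat_lit 250875) (.g (nat_lit 2387) (.e (nat_lit 163874) (nat_lit 3) (.e (nat_lit 204859) (nat_lit 26) (.e (nat_lit 336118) (nat_lit 9) (.e (nat_lit 336453) (nat_lit 34) (.e (nat_lit 483363) (nat_lit 18) (.e (nat_lit 57927) (nat_lit 282) .nil)))))) (.g (nat_lit 0) .nil .nil)))))) (.nd (nat_lit 3) (.nd (nat_lit 4) (.nd (nat_lit 5) 
(.lf (nat_lit 250823) (.g (nat_lit 4069) (.e (nat_lit 163874) (nat_lit 3) (.e (nat_lit 204838) (nat_lit 20) (.e (nat_lit 114718) (nat_lit 23) (.e (nat_lit 98356) (nat_lit 26) (.e (nat_lit 426438) (nat_lit 18) (.e (nat_lit 98335) (nat_lit 18) (.e (nat_lit 164330) (nat_lit 230) .nil))))))) (.g (nat_lit 7) .nil .nil))) 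
(.lf (nat_lit 250855) (.g (nat_lit 3607) (.e (nat_lit 163874) (nat_lit 3) (.e (nat_lit 204854) (nat_lit 26) (.e (nat_lit 336211) (nat_lit 13) (.e (nat_lit 393225) (nat_lit 9) (.e (nat_lit 335988) (nat_lit 1) (.e (nat_lit 57926) (nat_lit 282) .nil)))))) (.g (nat_lit 0) .nil .nil)))) (.nd (nat_lit 5) 
(.lf (nat_lit 250839) (.g (nat_lit 3932) (.e (nat_lit 163874) (nat_lit 3) (.e (nat_lit 204838) (nat_lit 20) (.e (nat_lit 114719) (nat_lit 23) (.e (nat_lit 98365) (nat_lit 26) (.e (nat_lit 426139) (nat_lit 3) (.e (nat_lit 204830) (nat_lit 18) (.e (nat_lit 57691) (nat_lit 156) .nil))))))) (.g (nat_lit 6) .nil .nil))) 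
(.lf (nat_lit 250871) (.g (nat_lit 1922) (.e (nat_lit 163874) (nat_lit 3) (.e (nat_lit 204859) (nat_lit 26) (.e (nat_lit 336017) (nat_lit 3) (.e (nat_lit 98341) (nat_lit 20) (.e (nat_lit 221214) (nat_lit 23) .nil))))) .nil)))) (.nd (nat_lit 4) (.nd (nat_lit 5) 
(.lf (nat_lit 250831) (.g (nat_lit 2618) (.e (nat_lit 163874) (nat_lit 3) (.e (nat_lit 204838) (nat_lit 20) (.e (nat_lit 114719) (nat_lit 23) (.e (nat_lit 98359) (nat_lit 26) (.e (nat_lit 426132) (nat_lit 3) (.e (nat_lit 204830) (nat_lit 18) (.e (nat_lit 57692) (nat_lit 156) .nil))))))) (.g (nat_lit 4) .nil .nil))) 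
(.lf (nat_lit 250863) (.g (nat_lit 2554) (.e (nat_lit 163874) (nat_lit 3) (.e (nat_lit 204858) (nat_lit 26) (.e (nat_lit 336217) (nat_lit 13) (.e (nat_lit 393225) (nat_lit 9) (.e (nat_lit 335986) (nat_lit 1) (.e (nat_lit 57926) (nat_lit 282) .nil)))))) (.g (nat_lit 0) .nil .nil)))) (.nd (nat_lit 5) 
(.lf (nat_lit 250847) (.g (nat_lit 2015) (.e (nat_lit 163874) (nat_lit 3) (.e (nat_lit 204854) (nat_lit 26) (.e (nat_lit 336019) (nat_lit 3) (.e (nat_lit 98342) (nat_lit 20) (.e (nat_lit 221197) (nat_lit 20) .nil))))) .nil)) 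
(.lf (nat_lit 250879) (.g (nat_lit 2810) (.e (nat_lit 163874) (nat_lit 3) (.e (nat_lit 204859) (nat_lit 26) (.e (nat_lit 336209) (nat_lit 13) (.e (nat_lit 393225) (nat_lit 9) (.e (nat_lit 335986) (nat_lit 1) (.e (nat_lit 57927) (nat_lit 282) .nil)))))) (.g (nat_lit 0) .nil .nil)))))))))

noncomputable def tv3251 : DT := (.nd (nat_lit 0) (.nd (nat_lit 1) (.nd (nat_lit 2) (.nd (nat_lit 3) (.nd (nat_lit 4) (.nd (nat_lit 5) 
(.lf (nat_lit 250880) (.g (nat_lit 2887) (.e (nat_lit 163874) (nat_lit 3) (.e (nat_lit 204859) (nat_lit 26) (.e (nat_lit 336209) (nat_lit 13) (.e (nat_lit 393225) (nat_lit 9) (.e (nat_lit 335988) (nat_lit 1) (.e (nat_lit 57927) (nat_lit 282) .nil)))))) (.g (nat_lit 0) .nil .nil))) 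
(.lf (nat_lit 250912) (.g (nat_lit 2419) (.e (nat_lit 163874) (nat_lit 3) (.e (nat_lit 204861) (nat_lit 26) (.e (nat_lit 336213) (nat_lit 13) (.e (nat_lit 393229) (nat_lit 9) (.e (nat_lit 335894) (nat_lit 0) .nil))))) .nil))) (.nd (nat_lit 5) 
(.lf (nat_lit 250896) (.g (nat_lit 2495) (.e (nat_lit 163874) (nat_lit 3) (.e (nat_lit 204861) (nat_lit 26) (.e (nat_lit 336213) (nat_lit 13) (.e (nat_lit 393225) (nat_lit 9) (.e (nat_lit 335906) (nat_lit 0) (.e (nat_lit 1055) (nat_lit 81) (.e (nat_lit 5599) (nat_lit 310) .nil))))))) (.g (nat_lit 4) .nil .nil))) 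
(.lf (nat_lit 250928) (.g (nat_lit 3768) (.e (nat_lit 163874) (nat_lit 3) (.e (nat_lit 204862) (nat_lit 27) (.e (nat_lit 344117) (nat_lit 21) (.e (nat_lit 516129) (nat_lit 3) (.e (nat_lit 221214) (nat_lit 23) (.e (nat_lit 204830) (nat_lit 18) (.e (nat_lit 57927) (nat_lit 282) .nil))))))) (.g (nat_lit 5) .nil .nil))))) (.nd (nat_lit 4) (.nd (nat_lit 5) 
(.lf (nat_lit 250888) (.g (nat_lit 2773) (.e (nat_lit 163874) (nat_lit 3) (.e (nat_lit 204861) (nat_lit 26) (.e (nat_lit 336078) (nat_lit 9) (.e (nat_lit 336454) (nat_lit 34) (.e (nat_lit 483363) (nat_lit 18) (.e (nat_lit 57926) (nat_lit 282) .nil)))))) (.g (nat_lit 4) .nil .nil))) 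
(.lf (nat_lit 250920) (.g (nat_lit 3156) (.e (nat_lit 163874) (nat_lit 3) (.e (nat_lit 204861) (nat_lit 26) (.e (nat_lit 336215) (nat_lit 13) (.e (nat_lit 393229) (nat_lit 9) (.e (nat_lit 335988) (nat_lit 1) (.e (nat_lit 57926) (nat_lit 282) .nil)))))) (.g (nat_lit 5) .nil .nil)))) (.nd (nat_lit 5) 
(.lf (nat_lit 250904) (.g (nat_lit 3165) (.e (nat_lit 163874) (nat_lit 3) (.e (nat_lit 204861) (nat_lit 26) (.e (nat_lit 336213) (nat_lit 13) (.e (nat_lit 393225) (nat_lit 9) (.e (nat_lit 335995) (nat_lit 1) (.e (nat_lit 57930) (nat_lit 282) .nil)))))) (.g (nat_lit 5) .nil .nil))) 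
(.lf (nat_lit 250936) (.g (nat_lit 3427) (.e (nat_lit 163874) (nat_lit 3) (.e (nat_lit 204862) (nat_lit 27) (.e (nat_lit 344117) (nat_lit 21) (.e (nat_lit 516129) (nat_lit 3) (.e (nat_lit 221215) (nat_lit 23) (.e (nat_lit 204830) (nat_lit 18) (.e (nat_lit 57929) (nat_lit 282) .nil))))))) (.g (nat_lit 5) .nil .nil)))))) (.nd (nat_lit 3) (.nd (nat_lit 4) (.nd (nat_lit 5) 
(.lf (nat_lit 250884) (.g (nat_lit 1655) (.e (nat_lit 163874) (nat_lit 3) (.e (nat_lit 204861) (nat_lit 26) (.e (nat_lit 336076) (nat_lit 9) (.e (nat_lit 336452) (nat_lit 34) (.e (nat_lit 483362) (nat_lit 18) .nil))))) .nil)) 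
(.lf (nat_lit 250916) (.g (nat_lit 3281) (.e (nat_lit 163874) (nat_lit 3) (.e (nat_lit 204861) (nat_lit 26) (.e (nat_lit 336213) (nat_lit 13) (.e (nat_lit 393229) (nat_lit 9) (.e (nat_lit 335988) (nat_lit 1) (.e (nat_lit 57926) (nat_lit 282) .nil)))))) (.g (nat_lit 5) .nil .nil)))) (.nd (nat_lit 5) 
(.lf (nat_lit 250900) (.g (nat_lit 2270) (.e (nat_lit 163874) (nat_lit 3) (.e (nat_lit 204861) (nat_lit 26) (.e (nat_lit 336213) (nat_lit 13) (.e (nat_lit 393225) (nat_lit 9) (.e (nat_lit 335985) (nat_lit 1) (.e (nat_lit 57927) (nat_lit 282) .nil)))))) (.g (nat_lit 4) .nil .nil))) 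
(.lf (nat_lit 250932) (.g (nat_lit 2738) (.e (nat_lit 163874) (nat_lit 3) (.e (nat_lit 204862) (nat_lit 27) (.e (nat_lit 344117) (nat_lit 21) (.e (nat_lit 516129) (nat_lit 3) (.e (nat_lit 221215) (nat_lit 23) (.e (nat_lit 204828) (nat_lit 18) (.e (nat_lit 57931) (nat_lit 282) .nil))))))) (.g (nat_lit 4) .nil .nil))))) (.nd (nat_lit 4) (.nd (nat_lit 5) 
(.lf (nat_lit 250892) (.g (nat_lit 3071) (.e (nat_lit 163874) (nat_lit 3) (.e (nat_lit 204861) (nat_lit 26) (.e (nat_lit 336213) (nat_lit 13) (.e (nat_lit 393224) (nat_lit 9) (.e (nat_lit 335996) (nat_lit 1) (.e (nat_lit 57931) (nat_lit 282) .nil)))))) (.g (nat_lit 4) .nil .nil))) 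
(.lf (nat_lit 250924) (.g (nat_lit 2544) (.e (nat_lit 163874) (nat_lit 3) (.e (nat_lit 204862) (nat_lit 27) (.e (nat_lit 344117) (nat_lit 21) (.e (nat_lit 516129) (nat_lit 3) (.e (nat_lit 221213) (nat_lit 23) (.e (nat_lit 204829) (nat_lit 18) (.e (nat_lit 57927) (nat_lit 282) .nil))))))) (.g (nat_lit 4) .nil .nil)))) (.nd (nat_lit 5) 
(.lf (nat_lit 250908) (.g (nat_lit 2298) (.e (nat_lit 163874) (nat_lit 3) (.e (nat_lit 204861) (nat_lit 26) (.e (nat_lit 336213) (nat_lit 13) (.e (nat_lit 393228) (nat_lit 9) .nil)))) .nil)) 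
(.lf (nat_lit 250940) (.g (nat_lit 4460) (.e (nat_lit 163874) (nat_lit 3) (.e (nat_lit 204862) (nat_lit 27) (.e (nat_lit 344117) (nat_lit 21) (.e (nat_lit 516130) (nat_lit 3) (.e (nat_lit 221214) (nat_lit 23) (.e (nat_lit 204829) (nat_lit 18) (.e (nat_lit 57927) (nat_lit 282) .nil))))))) (.g (nat_lit 7) .nil .nil))))))) (.nd (nat_lit 2) (.nd (nat_lit 3) (.nd (nat_lit 4) (.nd (nat_lit 5) 
(.lf (nat_lit 250882) (.g (nat_lit 1965) (.e (nat_lit 163874) (nat_lit 3) (.e (nat_lit 204861) (nat_lit 26) (.e (nat_lit 336075) (nat_lit 9) (.e (nat_lit 336456) (nat_lit 34) (.e (nat_lit 483362) (nat_lit 18) .nil))))) .nil)) 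
(.lf (nat_lit 250914) (.g (nat_lit 3683) (.e (nat_lit 163874) (nat_lit 3) (.e (nat_lit 204861) (nat_lit 26) (.e (nat_lit 336213) (nat_lit 13) (.e (nat_lit 393229) (nat_lit 9) (.e (nat_lit 335986) (nat_lit 1) (.e (nat_lit 57931) (nat_lit 282) .nil)))))) (.g (nat_lit 5) .nil .nil)))) (.nd (nat_lit 5) 
(.lf (nat_lit 250898) (.g (nat_lit 2216) (.e (nat_lit 163874) (nat_lit 3) (.e (nat_lit 204861) (nat_lit 26) (.e (nat_lit 336213) (nat_lit 13) (.e (nat_lit 393225) (nat_lit 9) (.e (nat_lit 335917) (nat_lit 0) .nil))))) .nil)) 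
(.lf (nat_lit 250930) (.g (nat_lit 3799) (.e (nat_lit 163874) (nat_lit 3) (.e (nat_lit 204862) (nat_lit 27) (.e (nat_lit 344117) (nat_lit 21) (.e (nat_lit 516129) (nat_lit 3) (.e (nat_lit 221214) (nat_lit 23) (.e (nat_lit 204830) (nat_lit 18) (.e (nat_lit 57931) (nat_lit 282) .nil))))))) (.g (nat_lit 5) .nil .nil))))) (.nd (nat_lit 4) (.nd (nat_lit 5) 
(.lf (nat_lit 250890) (.g (nat_lit 2313) (.e (nat_lit 163874) (nat_lit 3) (.e (nat_lit 204861) (nat_lit 26) (.e (nat_lit 336213) (nat_lit 13) (.e (nat_lit 393224) (nat_lit 9) .nil)))) .nil)) 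
(.lf (nat_lit 250922) (.g (nat_lit 2306) (.e (nat_lit 163874) (nat_lit 3) (.e (nat_lit 204862) (nat_lit 27) (.e (nat_lit 344117) (nat_lit 21) (.e (nat_lit 516129) (nat_lit 3) (.e (nat_lit 221204) (nat_lit 20) .nil))))) .nil))) (.nd (nat_lit 5) 
(.lf (nat_lit 250906) (.g (nat_lit 2121) (.e (nat_lit 163874) (nat_lit 3) (.e (nat_lit 204861) (nat_lit 26) (.e (nat_lit 336213) (nat_lit 13) (.e (nat_lit 393225) (nat_lit 9) (.e (nat_lit 343808) (nat_lit 1) (.e (nat_lit 57931) (nat_lit 282) .nil)))))) (.g (nat_lit 4) .nil .nil))) 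
(.lf (nat_lit 250938) (.g (nat_lit 3899) (.e (nat_lit 163874) (nat_lit 3) (.e (nat_lit 204862) (nat_lit 27) (.e (nat_lit 344117) (nat_lit 21) (.e (nat_lit 516129) (nat_lit 3) (.e (nat_lit 221215) (nat_lit 23) (.e (nat_lit 204831) (nat_lit 18) (.e (nat_lit 57931) (nat_lit 282) .nil))))))) (.g (nat_lit 5) .nil .nil)))))) (.nd (nat_lit 3) (.nd (nat_lit 4) (.nd (nat_lit 5) 
(.lf (nat_lit 250886) (.g (nat_lit 3063) (.e (nat_lit 163874) (nat_lit 3) (.e (nat_lit 204861) (nat_lit 26) (.e (nat_lit 336076) (nat_lit 9) (.e (nat_lit 336456) (nat_lit 34) (.e (nat_lit 483364) (nat_lit 18) (.e (nat_lit 57929) (nat_lit 282) .nil)))))) (.g (nat_lit 5) .nil .nil))) 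
(.lf (nat_lit 250918) (.g (nat_lit 2125) (.e (nat_lit 163874) (nat_lit 3) (.e (nat_lit 204861) (nat_lit 26) (.e (nat_lit 336213) (nat_lit 13) (.e (nat_lit 393229) (nat_lit 9) (.e (nat_lit 335996) (nat_lit 1) (.e (nat_lit 57930) (nat_lit 282) .nil)))))) (.g (nat_lit 4) .nil .nil)))) (.nd (nat_lit 5) 
(.lf (nat_lit 250902) (.g (nat_lit 2590) (.e (nat_lit 163874) (nat_lit 3) (.e (nat_lit 204861) (nat_lit 26) (.e (nat_lit 336213) (nat_lit 13) (.e (nat_lit 393225) (nat_lit 9) (.e (nat_lit 335987) (nat_lit 1) (.e (nat_lit 57926) (nat_lit 282) .nil)))))) (.g (nat_lit 4) .nil .nil))) 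
(.lf (nat_lit 250934) (.g (nat_lit 3486) (.e (nat_lit 163874) (nat_lit 3) (.e (nat_lit 204862) (nat_lit 27) (.e (nat_lit 344117) (nat_lit 21) (.e (nat_lit 516129) (nat_lit 3) (.e (nat_lit 221215) (nat_lit 23) (.e (nat_lit 204830) (nat_lit 18) (.e (nat_lit 57926) (nat_lit 282) .nil))))))) (.g (nat_lit 5) .nil .nil))))) (.nd (nat_lit 4) (.nd (nat_lit 5) 
(.lf (nat_lit 250894) (.g (nat_lit 2810) (.e (nat_lit 163874) (nat_lit 3) (.e (nat_lit 204861) (nat_lit 26) (.e (nat_lit 336213) (nat_lit 13) (.e (nat_lit 393225) (nat_lit 9) (.e (nat_lit 335895) (nat_lit 0) (.e (nat_lit 1062) (nat_lit 81) (.e (nat_lit 5599) (nat_lit 310) .nil))))))) (.g (nat_lit 4) .nil .nil))) 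
(.lf (nat_lit 250926) (.g (nat_lit 3789) (.e (nat_lit 163874) (nat_lit 3) (.e (nat_lit 204862) (nat_lit 27) (.e (nat_lit 344117) (nat_lit 21) (.e (nat_lit 516129) (nat_lit 3) (.e (nat_lit 221214) (nat_lit 23) (.e (nat_lit 204829) (nat_lit 18) (.e (nat_lit 57927) (nat_lit 282) .nil))))))) (.g (nat_lit 5) .nil .nil)))) (.nd (nat_lit 5) 
(.lf (nat_lit 250910) (.g (nat_lit 2800) (.e (nat_lit 163874) (nat_lit 3) (.e (nat_lit 204861) (nat_lit 26) (.e (nat_lit 336213) (nat_lit 13) (.e (nat_lit 393229) (nat_lit 9) (.e (nat_lit 335892) (nat_lit 0) (.e (nat_lit 1032) (nat_lit 81) (.e (nat_lit 5587) (nat_lit 310) .nil))))))) (.g (nat_lit 4) .nil .nil))) 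
(.lf (nat_lit 250942) (.g (nat_lit 4487) (.e (nat_lit 163874) (nat_lit 3) (.e (nat_lit 204862) (nat_lit 27) (.e (nat_lit 344117) (nat_lit 21) (.e (nat_lit 516130) (nat_lit 3) (.e (nat_lit 221214) (nat_lit 23) (.e (nat_lit 204830) (nat_lit 18) (.e (nat_lit 57929) (nat_lit 282) .nil))))))) (.g (nat_lit 6) .nil .nil)))))))) 
(.nd (nat_lit 1) (.nd (nat_lit 2) (.nd (nat_lit 3) (.nd (nat_lit 4) (.nd (nat_lit 5) 
(.lf (nat_lit 250881) (.g (nat_lit 1720) (.e (nat_lit 163874) (nat_lit 3) (.e (nat_lit 204859) (nat_lit 26) (.e (nat_lit 336209) (nat_lit 13) (.e (nat_lit 393225) (nat_lit 9) (.e (nat_lit 335993) (nat_lit 1) (.e (nat_lit 57931) (nat_lit 282) .nil)))))) (.g (nat_lit 4) .nil .nil))) 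
(.lf (nat_lit 250913) (.g (nat_lit 3711) (.e (nat_lit 163874) (nat_lit 3) (.e (nat_lit 204861) (nat_lit 26) (.e (nat_lit 336213) (nat_lit 13) (.e (nat_lit 393229) (nat_lit 9) (.e (nat_lit 335914) (nat_lit 0) (.e (nat_lit 1032) (nat_lit 81) (.e (nat_lit 5587) (nat_lit 310) .nil))))))) (.g (nat_lit 4) .nil .nil)))) (.nd (nat_lit 5) 
(.lf (nat_lit 250897) (.g (nat_lit 2202) (.e (nat_lit 163874) (nat_lit 3) (.e (nat_lit 204861) (nat_lit 26) (.e (nat_lit 336213) (nat_lit 13) (.e (nat_lit 393225) (nat_lit 9) (.e (nat_lit 335913) (nat_lit 0) .nil))))) .nil)) 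
(.lf (nat_lit 250929) (.g (nat_lit 3802) (.e (nat_lit 163874) (nat_lit 3) (.e (nat_lit 204862) (nat_lit 27) (.e (nat_lit 344117) (nat_lit 21) (.e (nat_lit 516129) (nat_lit 3) (.e (nat_lit 221214) (nat_lit 23) (.e (nat_lit 204830) (nat_lit 18) (.e (nat_lit 57929) (nat_lit 282) .nil))))))) (.g (nat_lit 5) .nil .nil))))) (.nd (nat_lit 4) (.nd (nat_lit 5) 
(.lf (nat_lit 250889) (.g (nat_lit 396) (.e (nat_lit 163874) (nat_lit 3) (.e (nat_lit 204861) (nat_lit 26) (.e (nat_lit 336213) (nat_lit 13) .nil))) .nil)) 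
(.lf (nat_lit 250921) (.g (nat_lit 1725) (.e (nat_lit 163874) (nat_lit 3) (.e (nat_lit 204861) (nat_lit 26) (.e (nat_lit 336223) (nat_lit 13) (.e (nat_lit 393229) (nat_lit 9) .nil)))) .nil))) (.nd (nat_lit 5) 
(.lf (nat_lit 250905) (.g (nat_lit 3761) (.e (nat_lit 163874) (nat_lit 3) (.e (nat_lit 204861) (nat_lit 26) (.e (nat_lit 336213) (nat_lit 13) (.e (nat_lit 393225) (nat_lit 9) (.e (nat_lit 335996) (nat_lit 1) (.e (nat_lit 57930) (nat_lit 282) .nil)))))) (.g (nat_lit 6) .nil .nil))) 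
(.lf (nat_lit 250937) (.g (nat_lit 3405) (.e (nat_lit 163874) (nat_lit 3) (.e (nat_lit 204862) (nat_lit 27) (.e (nat_lit 344117) (nat_lit 21) (.e (nat_lit 516129) (nat_lit 3) (.e (nat_lit 221215) (nat_lit 23) (.e (nat_lit 204830) (nat_lit 18) (.e (nat_lit 57931) (nat_lit 282) .nil))))))) (.g (nat_lit 5) .nil .nil)))))) (.nd (nat_lit 3) (.nd (nat_lit 4) (.nd (nat_lit 5) 
(.lf (nat_lit 250885) (.g (nat_lit 2419) (.e (nat_lit 163874) (nat_lit 3) (.e (nat_lit 204861) (nat_lit 26) (.e (nat_lit 336076) (nat_lit 9) (.e (nat_lit 336456) (nat_lit 34) (.e (nat_lit 483363) (nat_lit 18) (.e (nat_lit 57926) (nat_lit 282) .nil)))))) (.g (nat_lit 4) .nil .nil))) 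
(.lf (nat_lit 250917) (.g (nat_lit 3896) (.e (nat_lit 163874) (nat_lit 3) (.e (nat_lit 204861) (nat_lit 26) (.e (nat_lit 336213) (nat_lit 13) (.e (nat_lit 393229) (nat_lit 9) (.e (nat_lit 335988) (nat_lit 1) (.e (nat_lit 57931) (nat_lit 282) .nil)))))) (.g (nat_lit 6) .nil .nil)))) (.nd (nat_lit 5) 
(.lf (nat_lit 250901) (.g (nat_lit 3792) (.e (nat_lit 163874) (nat_lit 3) (.e (nat_lit 204861) (nat_lit 26) (.e (nat_lit 336213) (nat_lit 13) (.e (nat_lit 393225) (nat_lit 9) (.e (nat_lit 335986) (nat_lit 1) (.e (nat_lit 57927) (nat_lit 282) .nil)))))) (.g (nat_lit 0) .nil .nil))) 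
(.lf (nat_lit 250933) (.g (nat_lit 3488) (.e (nat_lit 163874) (nat_lit 3) (.e (nat_lit 204862) (nat_lit 27) (.e (nat_lit 344117) (nat_lit 21) (.e (nat_lit 516129) (nat_lit 3) (.e (nat_lit 221215) (nat_lit 23) (.e (nat_lit 204829) (nat_lit 18) (.e (nat_lit 57927) (nat_lit 282) .nil))))))) (.g (nat_lit 5) .nil .nil))))) (.nd (nat_lit 4) (.nd (nat_lit 5) 
(.lf (nat_lit 250893) (.g (nat_lit 2762) (.e (nat_lit 163874) (nat_lit 3) (.e (nat_lit 204861) (nat_lit 26) (.e (nat_lit 336213) (nat_lit 13) (.e (nat_lit 393225) (nat_lit 9) (.e (nat_lit 335895) (nat_lit 0) (.e (nat_lit 1056) (nat_lit 81) (.e (nat_lit 5599) (nat_lit 310) .nil))))))) (.g (nat_lit 4) .nil .nil))) 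
(.lf (nat_lit 250925) (.g (nat_lit 2243) (.e (nat_lit 163874) (nat_lit 3) (.e (nat_lit 204862) (nat_lit 27) (.e (nat_lit 344117) (nat_lit 21) (.e (nat_lit 516129) (nat_lit 3) (.e (nat_lit 221214) (nat_lit 23) .nil))))) .nil))) (.nd (nat_lit 5) 
(.lf (nat_lit 250909) (.g (nat_lit 2604) (.e (nat_lit 163874) (nat_lit 3) (.e (nat_lit 204861) (nat_lit 26) (.e (nat_lit 336213) (nat_lit 13) (.e (nat_lit 393228) (nat_lit 9) (.e (nat_lit 335988) (nat_lit 1) .nil))))) .nil)) 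
(.lf (nat_lit 250941) (.g (nat_lit 4521) (.e (nat_lit 163874) (nat_lit 3) (.e (nat_lit 204862) (nat_lit 27) (.e (nat_lit 344117) (nat_lit 21) (.e (nat_lit 516130) (nat_lit 3) (.e (nat_lit 221214) (nat_lit 23) (.e (nat_lit 204830) (nat_lit 18) (.e (nat_lit 57927) (nat_lit 282) .nil))))))) (.g (nat_lit 7) .nil .nil))))))) (.nd (nat_lit 2) (.nd (nat_lit 3) (.nd (nat_lit 4) (.nd (nat_lit 5) 
(.lf (nat_lit 250883) (.g (nat_lit 2722) (.e (nat_lit 163874) (nat_lit 3) (.e (nat_lit 204861) (nat_lit 26) (.e (nat_lit 336075) (nat_lit 9) (.e (nat_lit 336456) (nat_lit 34) (.e (nat_lit 483364) (nat_lit 18) (.e (nat_lit 57929) (nat_lit 282) .nil)))))) (.g (nat_lit 5) .nil .nil))) 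
(.lf (nat_lit 250915) (.g (nat_lit 3200) (.e (nat_lit 163874) (nat_lit 3) (.e (nat_lit 204861) (nat_lit 26) (.e (nat_lit 336213) (nat_lit 13) (.e (nat_lit 393229) (nat_lit 9) (.e (nat_lit 335987) (nat_lit 1) (.e (nat_lit 57927) (nat_lit 282) .nil)))))) (.g (nat_lit 5) .nil .nil)))) (.nd (nat_lit 5) 
(.lf (nat_lit 250899) (.g (nat_lit 2454) (.e (nat_lit 163874) (nat_lit 3) (.e (nat_lit 204861) (nat_lit 26) (.e (nat_lit 336213) (nat_lit 13) (.e (nat_lit 393225) (nat_lit 9) (.e (nat_lit 335917) (nat_lit 0) (.e (nat_lit 1086) (nat_lit 81) (.e (nat_lit 5599) (nat_lit 310) .nil))))))) (.g (nat_lit 4) .nil .nil))) 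
(.lf (nat_lit 250931) (.g (nat_lit 4419) (.e (nat_lit 163874) (nat_lit 3) (.e (nat_lit 204862) (nat_lit 27) (.e (nat_lit 344117) (nat_lit 21) (.e (nat_lit 516129) (nat_lit 3) (.e (nat_lit 221214) (nat_lit 23) (.e (nat_lit 204831) (nat_lit 18) (.e (nat_lit 57931) (nat_lit 282) .nil))))))) (.g (nat_lit 6) .nil .nil))))) (.nd (nat_lit 4) (.nd (nat_lit 5) 
(.lf (nat_lit 250891) (.g (nat_lit 3354) (.e (nat_lit 163874) (nat_lit 3) (.e (nat_lit 204861) (nat_lit 26) (.e (nat_lit 336213) (nat_lit 13) (.e (nat_lit 393224) (nat_lit 9) (.e (nat_lit 335988) (nat_lit 1) (.e (nat_lit 57926) (nat_lit 282) .nil)))))) (.g (nat_lit 4) .nil .nil))) 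
(.lf (nat_lit 250923) (.g (nat_lit 2490) (.e (nat_lit 163874) (nat_lit 3) (.e (nat_lit 204862) (nat_lit 27) (.e (nat_lit 344117) (nat_lit 21) (.e (nat_lit 516129) (nat_lit 3) (.e (nat_lit 221213) (nat_lit 23) .nil))))) .nil))) (.nd (nat_lit 5) 
(.lf (nat_lit 250907) (.g (nat_lit 1811) (.e (nat_lit 163874) (nat_lit 3) (.e (nat_lit 204861) (nat_lit 26) (.e (nat_lit 336213) (nat_lit 13) (.e (nat_lit 393227) (nat_lit 9) .nil)))) .nil)) 
(.lf (nat_lit 250939) (.g (nat_lit 3953) (.e (nat_lit 163874) (nat_lit 3) (.e (nat_lit 204862) (nat_lit 27) (.e (nat_lit 344117) (nat_lit 21) (.e (nat_lit 516130) (nat_lit 3) (.e (nat_lit 221214) (nat_lit 23) (.e (nat_lit 204829) (nat_lit 18) (.e (nat_lit 57926) (nat_lit 282) .nil))))))) (.g (nat_lit 6) .nil .nil)))))) (.nd (nat_lit 3) (.nd (nat_lit 4) (.nd (nat_lit 5) 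
(.lf (nat_lit 250887) (.g (nat_lit 1741) (.e (nat_lit 163874) (nat_lit 3) (.e (nat_lit 204861) (nat_lit 26) (.e (nat_lit 336076) (nat_lit 9) (.e (nat_lit 336456) (nat_lit 34) (.e (nat_lit 483365) (nat_lit 18) .nil))))) .nil)) 
(.lf (nat_lit 250919) (.g (nat_lit 1801) (.e (nat_lit 163874) (nat_lit 3) (.e (nat_lit 204861) (nat_lit 26) (.e (nat_lit 336213) (nat_lit 13) (.e (nat_lit 393229) (nat_lit 9) (.e (nat_lit 343808) (nat_lit 1) .nil))))) .nil))) (.nd (nat_lit 5) 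
(.lf (nat_lit 250903) (.g (nat_lit 2357) (.e (nat_lit 163874) (nat_lit 3) (.e (nat_lit 204861) (nat_lit 26) (.e (nat_lit 336213) (nat_lit 13) (.e (nat_lit 393225) (nat_lit 9) (.e (nat_lit 335994) (nat_lit 1) (.e (nat_lit 57931) (nat_lit 282) .nil)))))) (.g (nat_lit 4) .nil .nil))) 
(.lf (nat_lit 250935) (.g (nat_lit 3518) (.e (nat_lit 163874) (nat_lit 3) (.e (nat_lit 204862) (nat_lit 27) (.e (nat_lit 344117) (nat_lit 21) (.e (nat_lit 516129) (nat_lit 3) (.e (nat_lit 221215) (nat_lit 23) (.e (nat_lit 204830) (nat_lit 18) (.e (nat_lit 57927) (nat_lit 282) .nil))))))) (.g (nat_lit 5) .nil .nil))))) (.nd (nat_lit 4) (.nd (nat_lit 5) 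
(.lf (nat_lit 250895) (.g (nat_lit 2212) (.e (nat_lit 163874) (nat_lit 3) (.e (nat_lit 204861) (nat_lit 26) (.e (nat_lit 336213) (nat_lit 13) (.e (nat_lit 393225) (nat_lit 9) (.e (nat_lit 335906) (nat_lit 0) .nil))))) .nil)) 
(.lf (nat_lit 250927) (.g (nat_lit 3743) (.e (nat_lit 163874) (nat_lit 3) (.e (nat_lit 204862) (nat_lit 27) (.e (nat_lit 344117) (nat_lit 21) (.e (nat_lit 516129) (nat_lit 3) (.e (nat_lit 221214) (nat_lit 23) (.e (nat_lit 204830) (nat_lit 18) (.e (nat_lit 57926) (nat_lit 282) .nil))))))) (.g (nat_lit 5) .nil .nil)))) (.nd (nat_lit 5) 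
(.lf (nat_lit 250911) (.g (nat_lit 2588) (.e (nat_lit 163874) (nat_lit 3) (.e (nat_lit 204861) (nat_lit 26) (.e (nat_lit 336213) (nat_lit 13) (.e (nat_lit 393229) (nat_lit 9) (.e (nat_lit 335892) (nat_lit 0) (.e (nat_lit 1034) (nat_lit 81) (.e (nat_lit 5601) (nat_lit 310) .nil))))))) (.g (nat_lit 4) .nil .nil))) 
(.lf (nat_lit 250943) (.g (nat_lit 4769) (.e (nat_lit 163874) (nat_lit 3) (.e (nat_lit 204862) (nat_lit 27) (.e (nat_lit 344117) (nat_lit 21) (.e (nat_lit 516130) (nat_lit 3) (.e (nat_lit 221214) (nat_lit 23) (.e (nat_lit 204831) (nat_lit 18) (.e (nat_lit 57931) (nat_lit 282) .nil))))))) (.g (nat_lit 6) .nil .nil)))))))))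

noncomputable def tv3252 : DT := (.nd (nat_lit 0) (.nd (nat_lit 1) (.nd (nat_lit 2) (.nd (nat_lit 3) (.nd (nat_lit 4) (.nd (nat_lit 5) 
(.lf (nat_lit 250944) (.g (nat_lit 2811) (.e (nat_lit 163874) (nat_lit 3) (.e (nat_lit 204862) (nat_lit 27) (.e (nat_lit 344117) (nat_lit 21) (.e (nat_lit 516130) (nat_lit 3) (.e (nat_lit 221215) (nat_lit 23) (.e (nat_lit 204821) (nat_lit 17) (.e (nat_lit 1086) (nat_lit 81) (.e (nat_lit 5598) (nat_lit 310) .nil)))))))) (.g (nat_lit 4) .nil .nil))) 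
(.lf (nat_lit 250976) (.g (nat_lit 3280) (.e (nat_lit 163874) (nat_lit 3) (.e (nat_lit 204863) (nat_lit 27) (.e (nat_lit 344117) (nat_lit 21) (.e (nat_lit 516129) (nat_lit 3) (.e (nat_lit 221215) (nat_lit 23) (.e (nat_lit 204830) (nat_lit 18) (.e (nat_lit 57929) (nat_lit 282) .nil))))))) (.g (nat_lit 5) .nil .nil)))) (.nd (nat_lit 5) 
(.lf (nat_lit 250960) (.g (nat_lit 1589) (.e (nat_lit 163874) (nat_lit 3) (.e (nat_lit 204863) (nat_lit 27) (.e (nat_lit 344117) (nat_lit 21) (.e (nat_lit 516129) (nat_lit 3) .nil)))) .nil)) 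
(.lf (nat_lit 250992) (.g (nat_lit 3817) (.e (nat_lit 163874) (nat_lit 3) (.e (nat_lit 204863) (nat_lit 27) (.e (nat_lit 344133) (nat_lit 26) (.e (nat_lit 557105) (nat_lit 14) (.e (nat_lit 180252) (nat_lit 10) (.e (nat_lit 573474) (nat_lit 12) (.e (nat_lit 57347) (nat_lit 0) (.e (nat_lit 5591) (nat_lit 310) .nil)))))))) (.g (nat_lit 4) .nil .nil))))) (.nd (nat_lit 4) (.nd (nat_lit 5) 
(.lf (nat_lit 250952) (.g (nat_lit 4256) (.e (nat_lit 163874) (nat_lit 3) (.e (nat_lit 204862) (nat_lit 27) (.e (nat_lit 344117) (nat_lit 21) (.e (nat_lit 516130) (nat_lit 3) (.e (nat_lit 221215) (nat_lit 23) (.e (nat_lit 204830) (nat_lit 18) (.e (nat_lit 57929) (nat_lit 282) .nil))))))) (.g (nat_lit 6) .nil .nil))) 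
(.lf (nat_lit 250984) (.g (nat_lit 4498) (.e (nat_lit 163874) (nat_lit 3) (.e (nat_lit 204863) (nat_lit 27) (.e (nat_lit 344117) (nat_lit 21) (.e (nat_lit 516130) (nat_lit 3) (.e (nat_lit 221214) (nat_lit 23) (.e (nat_lit 204830) (nat_lit 18) (.e (nat_lit 57926) (nat_lit 282) .nil))))))) (.g (nat_lit 7) .nil .nil)))) (.nd (nat_lit 5) 
(.lf (nat_lit 250968) (.g (nat_lit 3557) (.e (nat_lit 163874) (nat_lit 3) (.e (nat_lit 204863) (nat_lit 27) (.e (nat_lit 344117) (nat_lit 21) (.e (nat_lit 516129) (nat_lit 3) (.e (nat_lit 221214) (nat_lit 23) (.e (nat_lit 204830) (nat_lit 18) (.e (nat_lit 57929) (nat_lit 282) .nil))))))) (.g (nat_lit 5) .nil .nil))) 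
(.lf (nat_lit 251000) (.g (nat_lit 2608) (.e (nat_lit 163874) (nat_lit 3) (.e (nat_lit 204864) (nat_lit 27) (.e (nat_lit 344117) (nat_lit 21) (.e (nat_lit 516130) (nat_lit 3) (.e (nat_lit 221214) (nat_lit 23) (.e (nat_lit 204829) (nat_lit 18) (.e (nat_lit 57927) (nat_lit 282) .nil))))))) (.g (nat_lit 4) .nil .nil)))))) (.nd (nat_lit 3) (.nd (nat_lit 4) (.nd (nat_lit 5) 
(.lf (nat_lit 250948) (.g (nat_lit 4089) (.e (nat_lit 163874) (nat_lit 3) (.e (nat_lit 204862) (nat_lit 27) (.e (nat_lit 344117) (nat_lit 21) (.e (nat_lit 516130) (nat_lit 3) (.e (nat_lit 221215) (nat_lit 23) (.e (nat_lit 204829) (nat_lit 18) (.e (nat_lit 57926) (nat_lit 282) .nil))))))) (.g (nat_lit 6) .nil .nil))) 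
(.lf (nat_lit 250980) (.g (nat_lit 1974) (.e (nat_lit 163874) (nat_lit 3) (.e (nat_lit 204863) (nat_lit 27) (.e (nat_lit 344117) (nat_lit 21) (.e (nat_lit 516130) (nat_lit 3) (.e (nat_lit 221212) (nat_lit 22) .nil))))) .nil))) (.nd (nat_lit 5) 
(.lf (nat_lit 250964) (.g (nat_lit 2536) (.e (nat_lit 163874) (nat_lit 3) (.e (nat_lit 204863) (nat_lit 27) (.e (nat_lit 344117) (nat_lit 21) (.e (nat_lit 516129) (nat_lit 3) (.e (nat_lit 221213) (nat_lit 23) (.e (nat_lit 204829) (nat_lit 18) (.e (nat_lit 57927) (nat_lit 282) .nil))))))) (.g (nat_lit 4) .nil .nil))) 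
(.lf (nat_lit 250996) (.g (nat_lit 3875) (.e (nat_lit 163874) (nat_lit 3) (.e (nat_lit 204863) (nat_lit 27) (.e (nat_lit 344133) (nat_lit 26) (.e (nat_lit 557105) (nat_lit 14) (.e (nat_lit 180252) (nat_lit 10) (.e (nat_lit 573474) (nat_lit 12) (.e (nat_lit 57354) (nat_lit 0) (.e (nat_lit 5601) (nat_lit 310) .nil)))))))) (.g (nat_lit 4) .nil .nil))))) (.nd (nat_lit 4) (.nd (nat_lit 5) 
(.lf (nat_lit 250956) (.g (nat_lit 2615) (.e (nat_lit 163874) (nat_lit 3) (.e (nat_lit 204862) (nat_lit 27) (.e (nat_lit 344129) (nat_lit 26) (.e (nat_lit 557097) (nat_lit 13) (.e (nat_lit 179968) (nat_lit 18) .nil))))) .nil)) 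
(.lf (nat_lit 250988) (.g (nat_lit 4358) (.e (nat_lit 163874) (nat_lit 3) (.e (nat_lit 204863) (nat_lit 27) (.e (nat_lit 344117) (nat_lit 21) (.e (nat_lit 516130) (nat_lit 3) (.e (nat_lit 221215) (nat_lit 23) (.e (nat_lit 204830) (nat_lit 18) (.e (nat_lit 57926) (nat_lit 282) .nil))))))) (.g (nat_lit 7) .nil .nil)))) (.nd (nat_lit 5) 
(.lf (nat_lit 250972) (.g (nat_lit 3628) (.e (nat_lit 163874) (nat_lit 3) (.e (nat_lit 204863) (nat_lit 27) (.e (nat_lit 344117) (nat_lit 21) (.e (nat_lit 516129) (nat_lit 3) (.e (nat_lit 221215) (nat_lit 23) (.e (nat_lit 204829) (nat_lit 18) (.e (nat_lit 57927) (nat_lit 282) .nil))))))) (.g (nat_lit 5) .nil .nil))) 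
(.lf (nat_lit 251004) (.g (nat_lit 2935) (.e (nat_lit 163874) (nat_lit 3) (.e (nat_lit 204864) (nat_lit 27) (.e (nat_lit 344117) (nat_lit 21) (.e (nat_lit 516130) (nat_lit 3) (.e (nat_lit 221214) (nat_lit 23) (.e (nat_lit 204830) (nat_lit 18) (.e (nat_lit 57929) (nat_lit 282) .nil))))))) (.g (nat_lit 4) .nil .nil))))))) (.nd (nat_lit 2) (.nd (nat_lit 3) (.nd (nat_lit 4) (.nd (nat_lit 5) 
(.lf (nat_lit 250946) (.g (nat_lit 3537) (.e (nat_lit 163874) (nat_lit 3) (.e (nat_lit 204862) (nat_lit 27) (.e (nat_lit 344117) (nat_lit 21) (.e (nat_lit 516130) (nat_lit 3) (.e (nat_lit 221215) (nat_lit 23) (.e (nat_lit 204828) (nat_lit 18) (.e (nat_lit 57927) (nat_lit 282) .nil))))))) (.g (nat_lit 5) .nil .nil))) 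
(.lf (nat_lit 250978) (.g (nat_lit 3701) (.e (nat_lit 163874) (nat_lit 3) (.e (nat_lit 204863) (nat_lit 27) (.e (nat_lit 344117) (nat_lit 21) (.e (nat_lit 516129) (nat_lit 3) (.e (nat_lit 221215) (nat_lit 23) (.e (nat_lit 204831) (nat_lit 18) (.e (nat_lit 57931) (nat_lit 282) .nil))))))) (.g (nat_lit 5) .nil .nil)))) (.nd (nat_lit 5) 
(.lf (nat_lit 250962) (.g (nat_lit 2453) (.e (nat_lit 163874) (nat_lit 3) (.e (nat_lit 204863) (nat_lit 27) (.e (nat_lit 344117) (nat_lit 21) (.e (nat_lit 516129) (nat_lit 3) (.e (nat_lit 221204) (nat_lit 20) .nil))))) .nil)) 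
(.lf (nat_lit 250994) (.g (nat_lit 3755) (.e (nat_lit 163874) (nat_lit 3) (.e (nat_lit 204863) (nat_lit 27) (.e (nat_lit 344133) (nat_lit 26) (.e (nat_lit 557105) (nat_lit 14) (.e (nat_lit 180252) (nat_lit 10) (.e (nat_lit 573474) (nat_lit 12) (.e (nat_lit 57348) (nat_lit 0) (.e (nat_lit 5591) (nat_lit 310) .nil)))))))) (.g (nat_lit 4) .nil .nil))))) (.nd (nat_lit 4) (.nd (nat_lit 5) 
(.lf (nat_lit 250954) (.g (nat_lit 4924) (.e (nat_lit 163874) (nat_lit 3) (.e (nat_lit 204862) (nat_lit 27) (.e (nat_lit 344117) (nat_lit 21) (.e (nat_lit 516130) (nat_lit 3) (.e (nat_lit 221215) (nat_lit 23) (.e (nat_lit 204831) (nat_lit 18) (.e (nat_lit 57931) (nat_lit 282) .nil))))))) (.g (nat_lit 7) .nil .nil))) 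
(.lf (nat_lit 250986) (.g (nat_lit 3453) (.e (nat_lit 163874) (nat_lit 3) (.e (nat_lit 204863) (nat_lit 27) (.e (nat_lit 344117) (nat_lit 21) (.e (nat_lit 516130) (nat_lit 3) (.e (nat_lit 221215) (nat_lit 23) (.e (nat_lit 204821) (nat_lit 17) (.e (nat_lit 1086) (nat_lit 81) (.e (nat_lit 5598) (nat_lit 310) .nil)))))))) (.g (nat_lit 5) .nil .nil)))) (.nd (nat_lit 5) 
(.lf (nat_lit 250970) (.g (nat_lit 2462) (.e (nat_lit 163874) (nat_lit 3) (.e (nat_lit 204863) (nat_lit 27) (.e (nat_lit 344117) (nat_lit 21) (.e (nat_lit 516129) (nat_lit 3) (.e (nat_lit 221215) (nat_lit 23) .nil))))) .nil)) 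
(.lf (nat_lit 251002) (.g (nat_lit 2897) (.e (nat_lit 163874) (nat_lit 3) (.e (nat_lit 204864) (nat_lit 27) (.e (nat_lit 344117) (nat_lit 21) (.e (nat_lit 516130) (nat_lit 3) (.e (nat_lit 221214) (nat_lit 23) (.e (nat_lit 204830) (nat_lit 18) (.e (nat_lit 57926) (nat_lit 282) .nil))))))) (.g (nat_lit 4) .nil .nil)))))) (.nd (nat_lit 3) (.nd (nat_lit 4) (.nd (nat_lit 5) 
(.lf (nat_lit 250950) (.g (nat_lit 4939) (.e (nat_lit 163874) (nat_lit 3) (.e (nat_lit 204862) (nat_lit 27) (.e (nat_lit 344117) (nat_lit 21) (.e (nat_lit 516130) (nat_lit 3) (.e (nat_lit 221215) (nat_lit 23) (.e (nat_lit 204829) (nat_lit 18) (.e (nat_lit 57931) (nat_lit 282) .nil))))))) (.g (nat_lit 7) .nil .nil))) 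
(.lf (nat_lit 250982) (.g (nat_lit 1976) (.e (nat_lit 163874) (nat_lit 3) (.e (nat_lit 204863) (nat_lit 27) (.e (nat_lit 344117) (nat_lit 21) (.e (nat_lit 516130) (nat_lit 3) (.e (nat_lit 221214) (nat_lit 23) .nil))))) .nil))) (.nd (nat_lit 5) 
(.lf (nat_lit 250966) (.g (nat_lit 3585) (.e (nat_lit 163874) (nat_lit 3) (.e (nat_lit 204863) (nat_lit 27) (.e (nat_lit 344117) (nat_lit 21) (.e (nat_lit 516129) (nat_lit 3) (.e (nat_lit 221214) (nat_lit 23) (.e (nat_lit 204830) (nat_lit 18) (.e (nat_lit 57926) (nat_lit 282) .nil))))))) (.g (nat_lit 5) .nil .nil))) 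
(.lf (nat_lit 250998) (.g (nat_lit 3237) (.e (nat_lit 163874) (nat_lit 3) (.e (nat_lit 204863) (nat_lit 27) (.e (nat_lit 344133) (nat_lit 26) (.e (nat_lit 557105) (nat_lit 14) (.e (nat_lit 180252) (nat_lit 10) (.e (nat_lit 573475) (nat_lit 12) (.e (nat_lit 65280) (nat_lit 0) (.e (nat_lit 5587) (nat_lit 310) .nil)))))))) (.g (nat_lit 4) .nil .nil))))) (.nd (nat_lit 4) (.nd (nat_lit 5) 
(.lf (nat_lit 250958) (.g (nat_lit 2045) (.e (nat_lit 163874) (nat_lit 3) (.e (nat_lit 204863) (nat_lit 27) (.e (nat_lit 344117) (nat_lit 21) (.e (nat_lit 516122) (nat_lit 2) (.e (nat_lit 213036) (nat_lit 13) .nil))))) .nil)) 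
(.lf (nat_lit 250990) (.g (nat_lit 2389) (.e (nat_lit 163874) (nat_lit 3) (.e (nat_lit 204863) (nat_lit 27) (.e (nat_lit 344118) (nat_lit 21) (.e (nat_lit 516129) (nat_lit 3) (.e (nat_lit 221204) (nat_lit 20) .nil))))) .nil))) (.nd (nat_lit 5) 
(.lf (nat_lit 250974) (.g (nat_lit 3426) (.e (nat_lit 163874) (nat_lit 3) (.e (nat_lit 204863) (nat_lit 27) (.e (nat_lit 344117) (nat_lit 21) (.e (nat_lit 516129) (nat_lit 3) (.e (nat_lit 221215) (nat_lit 23) (.e (nat_lit 204830) (nat_lit 18) (.e (nat_lit 57926) (nat_lit 282) .nil))))))) (.g (nat_lit 5) .nil .nil))) 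
(.lf (nat_lit 251006) (.g (nat_lit 3143) (.e (nat_lit 163874) (nat_lit 3) (.e (nat_lit 204864) (nat_lit 27) (.e (nat_lit 344117) (nat_lit 21) (.e (nat_lit 516130) (nat_lit 3) (.e (nat_lit 221215) (nat_lit 23) (.e (nat_lit 204829) (nat_lit 18) (.e (nat_lit 57931) (nat_lit 282) .nil))))))) (.g (nat_lit 4) .nil .nil)))))))) 
(.nd (nat_lit 1) (.nd (nat_lit 2) (.nd (nat_lit 3) (.nd (nat_lit 4) (.nd (nat_lit 5) 
(.lf (nat_lit 250945) (.g (nat_lit 3059) (.e (nat_lit 163874) (nat_lit 3) (.e (nat_lit 204862) (nat_lit 27) (.e (nat_lit 344117) (nat_lit 21) (.e (nat_lit 516130) (nat_lit 3) (.e (nat_lit 221215) (nat_lit 23) (.e (nat_lit 204828) (nat_lit 18) (.e (nat_lit 57926) (nat_lit 282) .nil))))))) (.g (nat_lit 5) .nil .nil))) 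
(.lf (nat_lit 250977) (.g (nat_lit 3126) (.e (nat_lit 163874) (nat_lit 3) (.e (nat_lit 204863) (nat_lit 27) (.e (nat_lit 344117) (nat_lit 21) (.e (nat_lit 516129) (nat_lit 3) (.e (nat_lit 221215) (nat_lit 23) (.e (nat_lit 204830) (nat_lit 18) (.e (nat_lit 57931) (nat_lit 282) .nil))))))) (.g (nat_lit 4) .nil .nil)))) (.nd (nat_lit 5) 
(.lf (nat_lit 250961) (.g (nat_lit 2497) (.e (nat_lit 163874) (nat_lit 3) (.e (nat_lit 204863) (nat_lit 27) (.e (nat_lit 344117) (nat_lit 21) (.e (nat_lit 516129) (nat_lit 3) (.e (nat_lit 221203) (nat_lit 20) .nil))))) .nil)) 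
(.lf (nat_lit 250993) (.g (nat_lit 3181) (.e (nat_lit 163874) (nat_lit 3) (.e (nat_lit 204863) (nat_lit 27) (.e (nat_lit 344133) (nat_lit 26) (.e (nat_lit 557105) (nat_lit 14) (.e (nat_lit 180252) (nat_lit 10) (.e (nat_lit 573474) (nat_lit 12) (.e (nat_lit 57347) (nat_lit 0) (.e (nat_lit 5592) (nat_lit 310) .nil)))))))) (.g (nat_lit 4) .nil .nil))))) (.nd (nat_lit 4) (.nd (nat_lit 5) 
(.lf (nat_lit 250953) (.g (nat_lit 2645) (.e (nat_lit 163874) (nat_lit 3) (.e (nat_lit 204862) (nat_lit 27) (.e (nat_lit 344117) (nat_lit 21) (.e (nat_lit 516130) (nat_lit 3) (.e (nat_lit 221215) (nat_lit 23) (.e (nat_lit 204831) (nat_lit 18) (.e (nat_lit 57929) (nat_lit 282) .nil))))))) (.g (nat_lit 4) .nil .nil))) 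
(.lf (nat_lit 250985) (.g (nat_lit 4318) (.e (nat_lit 163874) (nat_lit 3) (.e (nat_lit 204863) (nat_lit 27) (.e (nat_lit 344117) (nat_lit 21) (.e (nat_lit 516130) (nat_lit 3) (.e (nat_lit 221214) (nat_lit 23) (.e (nat_lit 204830) (nat_lit 18) (.e (nat_lit 57929) (nat_lit 282) .nil))))))) (.g (nat_lit 7) .nil .nil)))) (.nd (nat_lit 5) 
(.lf (nat_lit 250969) (.g (nat_lit 3422) (.e (nat_lit 163874) (nat_lit 3) (.e (nat_lit 204863) (nat_lit 27) (.e (nat_lit 344117) (nat_lit 21) (.e (nat_lit 516129) (nat_lit 3) (.e (nat_lit 221214) (nat_lit 23) (.e (nat_lit 204830) (nat_lit 18) (.e (nat_lit 57931) (nat_lit 282) .nil))))))) (.g (nat_lit 5) .nil .nil))) 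
(.lf (nat_lit 251001) (.g (nat_lit 3149) (.e (nat_lit 163874) (nat_lit 3) (.e (nat_lit 204864) (nat_lit 27) (.e (nat_lit 344117) (nat_lit 21) (.e (nat_lit 516130) (nat_lit 3) (.e (nat_lit 221214) (nat_lit 23) (.e (nat_lit 204829) (nat_lit 18) (.e (nat_lit 57931) (nat_lit 282) .nil))))))) (.g (nat_lit 4) .nil .nil)))))) (.nd (nat_lit 3) (.nd (nat_lit 4) (.nd (nat_lit 5) 
(.lf (nat_lit 250949) (.g (nat_lit 4558) (.e (nat_lit 163874) (nat_lit 3) (.e (nat_lit 204862) (nat_lit 27) (.e (nat_lit 344117) (nat_lit 21) (.e (nat_lit 516130) (nat_lit 3) (.e (nat_lit 221215) (nat_lit 23) (.e (nat_lit 204829) (nat_lit 18) (.e (nat_lit 57927) (nat_lit 282) .nil))))))) (.g (nat_lit 7) .nil .nil))) 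
(.lf (nat_lit 250981) (.g (nat_lit 2639) (.e (nat_lit 163874) (nat_lit 3) (.e (nat_lit 204863) (nat_lit 27) (.e (nat_lit 344117) (nat_lit 21) (.e (nat_lit 516130) (nat_lit 3) (.e (nat_lit 221213) (nat_lit 23) (.e (nat_lit 204831) (nat_lit 18) (.e (nat_lit 57931) (nat_lit 282) .nil))))))) (.g (nat_lit 4) .nil .nil)))) (.nd (nat_lit 5) 
(.lf (nat_lit 250965) (.g (nat_lit 2458) (.e (nat_lit 163874) (nat_lit 3) (.e (nat_lit 204863) (nat_lit 27) (.e (nat_lit 344117) (nat_lit 21) (.e (nat_lit 516129) (nat_lit 3) (.e (nat_lit 221214) (nat_lit 23) .nil))))) .nil)) 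
(.lf (nat_lit 250997) (.g (nat_lit 3020) (.e (nat_lit 163874) (nat_lit 3) (.e (nat_lit 204863) (nat_lit 27) (.e (nat_lit 344133) (nat_lit 26) (.e (nat_lit 557105) (nat_lit 14) (.e (nat_lit 180252) (nat_lit 10) (.e (nat_lit 573474) (nat_lit 12) (.e (nat_lit 57356) (nat_lit 0) (.e (nat_lit 5601) (nat_lit 310) .nil)))))))) (.g (nat_lit 4) .nil .nil))))) (.nd (nat_lit 4) (.nd (nat_lit 5) 
(.lf (nat_lit 250957) (.g (nat_lit 2252) (.e (nat_lit 163874) (nat_lit 3) (.e (nat_lit 204862) (nat_lit 27) (.e (nat_lit 344133) (nat_lit 26) (.e (nat_lit 557098) (nat_lit 13) (.e (nat_lit 179968) (nat_lit 18) .nil))))) .nil)) 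
(.lf (nat_lit 250989) (.g (nat_lit 2098) (.e (nat_lit 163874) (nat_lit 3) (.e (nat_lit 204863) (nat_lit 27) (.e (nat_lit 344117) (nat_lit 21) (.e (nat_lit 516131) (nat_lit 3) .nil)))) .nil))) (.nd (nat_lit 5) 
(.lf (nat_lit 250973) (.g (nat_lit 3731) (.e (nat_lit 163874) (nat_lit 3) (.e (nat_lit 204863) (nat_lit 27) (.e (nat_lit 344117) (nat_lit 21) (.e (nat_lit 516129) (nat_lit 3) (.e (nat_lit 221215) (nat_lit 23) (.e (nat_lit 204829) (nat_lit 18) (.e (nat_lit 57931) (nat_lit 282) .nil))))))) (.g (nat_lit 5) .nil .nil))) 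
(.lf (nat_lit 251005) (.g (nat_lit 2624) (.e (nat_lit 163874) (nat_lit 3) (.e (nat_lit 204864) (nat_lit 27) (.e (nat_lit 344117) (nat_lit 21) (.e (nat_lit 516130) (nat_lit 3) (.e (nat_lit 221215) (nat_lit 23) (.e (nat_lit 204829) (nat_lit 18) (.e (nat_lit 57927) (nat_lit 282) .nil))))))) (.g (nat_lit 4) .nil .nil))))))) (.nd (nat_lit 2) (.nd (nat_lit 3) (.nd (nat_lit 4) (.nd (nat_lit 5) 
(.lf (nat_lit 250947) (.g (nat_lit 2527) (.e (nat_lit 163874) (nat_lit 3) (.e (nat_lit 204862) (nat_lit 27) (.e (nat_lit 344117) (nat_lit 21) (.e (nat_lit 516130) (nat_lit 3) (.e (nat_lit 221215) (nat_lit 23) (.e (nat_lit 204828) (nat_lit 18) (.e (nat_lit 57929) (nat_lit 282) .nil))))))) (.g (nat_lit 4) .nil .nil))) 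
(.lf (nat_lit 250979) (.g (nat_lit 2017) (.e (nat_lit 163874) (nat_lit 3) (.e (nat_lit 204863) (nat_lit 27) (.e (nat_lit 344117) (nat_lit 21) (.e (nat_lit 516130) (nat_lit 3) (.e (nat_lit 221211) (nat_lit 22) .nil))))) .nil))) (.nd (nat_lit 5) 
(.lf (nat_lit 250963) (.g (nat_lit 2534) (.e (nat_lit 163874) (nat_lit 3) (.e (nat_lit 204863) (nat_lit 27) (.e (nat_lit 344117) (nat_lit 21) (.e (nat_lit 516129) (nat_lit 3) (.e (nat_lit 221213) (nat_lit 23) .nil))))) .nil)) 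
(.lf (nat_lit 250995) (.g (nat_lit 3109) (.e (nat_lit 163874) (nat_lit 3) (.e (nat_lit 204863) (nat_lit 27) (.e (nat_lit 344133) (nat_lit 26) (.e (nat_lit 557105) (nat_lit 14) (.e (nat_lit 180252) (nat_lit 10) (.e (nat_lit 573474) (nat_lit 12) (.e (nat_lit 57348) (nat_lit 0) (.e (nat_lit 5592) (nat_lit 310) .nil)))))))) (.g (nat_lit 4) .nil .nil))))) (.nd (nat_lit 4) (.nd (nat_lit 5) 
(.lf (nat_lit 250955) (.g (nat_lit 3217) (.e (nat_lit 163874) (nat_lit 3) (.e (nat_lit 204862) (nat_lit 27) (.e (nat_lit 344129) (nat_lit 26) (.e (nat_lit 557067) (nat_lit 9) (.e (nat_lit 2878) (nat_lit 184) .nil))))) .nil)) 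
(.lf (nat_lit 250987) (.g (nat_lit 2968) (.e (nat_lit 163874) (nat_lit 3) (.e (nat_lit 204863) (nat_lit 27) (.e (nat_lit 344117) (nat_lit 21) (.e (nat_lit 516130) (nat_lit 3) (.e (nat_lit 221215) (nat_lit 23) (.e (nat_lit 204828) (nat_lit 18) (.e (nat_lit 57926) (nat_lit 282) .nil))))))) (.g (nat_lit 5) .nil .nil)))) (.nd (nat_lit 5) 
(.lf (nat_lit 250971) (.g (nat_lit 2538) (.e (nat_lit 163874) (nat_lit 3) (.e (nat_lit 204863) (nat_lit 27) (.e (nat_lit 344117) (nat_lit 21) (.e (nat_lit 516129) (nat_lit 3) (.e (nat_lit 221215) (nat_lit 23) (.e (nat_lit 204828) (nat_lit 18) (.e (nat_lit 57931) (nat_lit 282) .nil))))))) (.g (nat_lit 4) .nil .nil))) 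
(.lf (nat_lit 251003) (.g (nat_lit 2629) (.e (nat_lit 163874) (nat_lit 3) (.e (nat_lit 204864) (nat_lit 27) (.e (nat_lit 344117) (nat_lit 21) (.e (nat_lit 516130) (nat_lit 3) (.e (nat_lit 221214) (nat_lit 23) (.e (nat_lit 204830) (nat_lit 18) (.e (nat_lit 57927) (nat_lit 282) .nil))))))) (.g (nat_lit 4) .nil .nil)))))) (.nd (nat_lit 3) (.nd (nat_lit 4) (.nd (nat_lit 5) 
(.lf (nat_lit 250951) (.g (nat_lit 4238) (.e (nat_lit 163874) (nat_lit 3) (.e (nat_lit 204862) (nat_lit 27) (.e (nat_lit 344117) (nat_lit 21) (.e (nat_lit 516130) (nat_lit 3) (.e (nat_lit 221215) (nat_lit 23) (.e (nat_lit 204830) (nat_lit 18) (.e (nat_lit 57927) (nat_lit 282) .nil))))))) (.g (nat_lit 7) .nil .nil))) 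
(.lf (nat_lit 250983) (.g (nat_lit 3872) (.e (nat_lit 163874) (nat_lit 3) (.e (nat_lit 204863) (nat_lit 27) (.e (nat_lit 344117) (nat_lit 21) (.e (nat_lit 516130) (nat_lit 3) (.e (nat_lit 221214) (nat_lit 23) (.e (nat_lit 204829) (nat_lit 18) (.e (nat_lit 57926) (nat_lit 282) .nil))))))) (.g (nat_lit 6) .nil .nil)))) (.nd (nat_lit 5) 
(.lf (nat_lit 250967) (.g (nat_lit 3772) (.e (nat_lit 163874) (nat_lit 3) (.e (nat_lit 204863) (nat_lit 27) (.e (nat_lit 344117) (nat_lit 21) (.e (nat_lit 516129) (nat_lit 3) (.e (nat_lit 221214) (nat_lit 23) (.e (nat_lit 204830) (nat_lit 18) (.e (nat_lit 57927) (nat_lit 282) .nil))))))) (.g (nat_lit 5) .nil .nil))) 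
(.lf (nat_lit 250999) (.g (nat_lit 1548) (.e (nat_lit 163874) (nat_lit 3) (.e (nat_lit 204864) (nat_lit 27) (.e (nat_lit 344117) (nat_lit 21) (.e (nat_lit 516129) (nat_lit 3) .nil)))) .nil)))) (.nd (nat_lit 4) (.nd (nat_lit 5) 
(.lf (nat_lit 250959) (.g (nat_lit 2108) (.e (nat_lit 163874) (nat_lit 3) (.e (nat_lit 204863) (nat_lit 27) (.e (nat_lit 344117) (nat_lit 21) (.e (nat_lit 516123) (nat_lit 2) (.e (nat_lit 220928) (nat_lit 13) .nil))))) .nil)) 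
(.lf (nat_lit 250991) (.g (nat_lit 3634) (.e (nat_lit 163874) (nat_lit 3) (.e (nat_lit 204863) (nat_lit 27) (.e (nat_lit 344133) (nat_lit 26) (.e (nat_lit 557105) (nat_lit 14) (.e (nat_lit 180252) (nat_lit 10) (.e (nat_lit 573474) (nat_lit 12) (.e (nat_lit 57344) (nat_lit 0) (.e (nat_lit 5587) (nat_lit 310) .nil)))))))) (.g (nat_lit 4) .nil .nil)))) (.nd (nat_lit 5) 
(.lf (nat_lit 250975) (.g (nat_lit 3620) (.e (nat_lit 163874) (nat_lit 3) (.e (nat_lit 204863) (nat_lit 27) (.e (nat_lit 344117) (nat_lit 21) (.e (nat_lit 516129) (nat_lit 3) (.e (nat_lit 221215) (nat_lit 23) (.e (nat_lit 204830) (nat_lit 18) (.e (nat_lit 57927) (nat_lit 282) .nil))))))) (.g (nat_lit 5) .nil .nil))) 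
(.lf (nat_lit 251007) (.g (nat_lit 3191) (.e (nat_lit 163874) (nat_lit 3) (.e (nat_lit 204864) (nat_lit 27) (.e (nat_lit 344117) (nat_lit 21) (.e (nat_lit 516130) (nat_lit 3) (.e (nat_lit 221215) (nat_lit 23) (.e (nat_lit 204831) (nat_lit 18) (.e (nat_lit 57931) (nat_lit 282) .nil))))))) (.g (nat_lit 4) .nil .nil)))))))))

noncomputable def tv3253 : DT := (.nd (nat_lit 0) (.nd (nat_lit 1) (.nd (nat_lit 2) (.nd (nat_lit 3) (.nd (nat_lit 4) (.nd (nat_lit 5) 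
(.lf (nat_lit 251008) (.g (nat_lit 1913) (.e (nat_lit 163874) (nat_lit 3) (.e (nat_lit 204864) (nat_lit 27) (.e (nat_lit 344130) (nat_lit 26) (.e (nat_lit 557103) (nat_lit 14) (.e (nat_lit 180250) (nat_lit 10) .nil))))) .nil)) 
(.lf (nat_lit 251040) (.g (nat_lit 2928) (.e (nat_lit 163874) (nat_lit 3) (.e (nat_lit 204864) (nat_lit 27) (.e (nat_lit 344133) (nat_lit 26) (.e (nat_lit 557105) (nat_lit 14) (.e (nat_lit 180251) (nat_lit 10) (.e (nat_lit 573478) (nat_lit 12) (.e (nat_lit 65280) (nat_lit 0) (.e (nat_lit 5587) (nat_lit 310) .nil)))))))) (.g (nat_lit 4) .nil .nil)))) (.nd (nat_lit 5) 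
(.lf (nat_lit 251024) (.g (nat_lit 3698) (.e (nat_lit 163874) (nat_lit 3) (.e (nat_lit 204864) (nat_lit 27) (.e (nat_lit 344132) (nat_lit 26) (.e (nat_lit 557105) (nat_lit 14) (.e (nat_lit 180252) (nat_lit 10) (.e (nat_lit 573451) (nat_lit 9) (.e (nat_lit 1177) (nat_lit 87) (.e (nat_lit 57929) (nat_lit 282) .nil)))))))) (.g (nat_lit 5) .nil .nil))) 
(.lf (nat_lit 251056) (.g (nat_lit 3044) (.e (nat_lit 163874) (nat_lit 3) (.e (nat_lit 204864) (nat_lit 27) (.e (nat_lit 344133) (nat_lit 26) (.e (nat_lit 557105) (nat_lit 14) (.e (nat_lit 180252) (nat_lit 10) (.e (nat_lit 573474) (nat_lit 12) (.e (nat_lit 57355) (nat_lit 0) (.e (nat_lit 5587) (nat_lit 310) .nil)))))))) (.g (nat_lit 4) .nil .nil))))) (.nd (nat_lit 4) (.nd (nat_lit 5) 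
(.lf (nat_lit 251016) (.g (nat_lit 3186) (.e (nat_lit 163874) (nat_lit 3) (.e (nat_lit 204864) (nat_lit 27) (.e (nat_lit 344130) (nat_lit 26) (.e (nat_lit 557104) (nat_lit 14) (.e (nat_lit 180252) (nat_lit 10) (.e (nat_lit 573474) (nat_lit 12) (.e (nat_lit 57354) (nat_lit 0) (.e (nat_lit 5601) (nat_lit 310) .nil)))))))) (.g (nat_lit 5) .nil .nil))) 
(.lf (nat_lit 251048) (.g (nat_lit 2758) (.e (nat_lit 163874) (nat_lit 3) (.e (nat_lit 204864) (nat_lit 27) (.e (nat_lit 344133) (nat_lit 26) (.e (nat_lit 557105) (nat_lit 14) (.e (nat_lit 180252) (nat_lit 10) (.e (nat_lit 573474) (nat_lit 12) (.e (nat_lit 57345) (nat_lit 0) (.e (nat_lit 5591) (nat_lit 310) .nil)))))))) (.g (nat_lit 4) .nil .nil)))) (.nd (nat_lit 5) 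
(.lf (nat_lit 251032) (.g (nat_lit 2015) (.e (nat_lit 163874) (nat_lit 3) (.e (nat_lit 204864) (nat_lit 27) (.e (nat_lit 344133) (nat_lit 26) (.e (nat_lit 557103) (nat_lit 14) (.e (nat_lit 180250) (nat_lit 10) .nil))))) .nil)) 
(.lf (nat_lit 251064) (.g (nat_lit 1077) (.e (nat_lit 163875) (nat_lit 3) (.e (nat_lit 204808) (nat_lit 9) (.e (nat_lit 426188) (nat_lit 9) (.e (nat_lit 426566) (nat_lit 34) .nil)))) .nil))))) (.nd (nat_lit 3) (.nd (nat_lit 4) (.nd (nat_lit 5) 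
(.lf (nat_lit 251012) (.g (nat_lit 3222) (.e (nat_lit 163874) (nat_lit 3) (.e (nat_lit 204864) (nat_lit 27) (.e (nat_lit 344130) (nat_lit 26) (.e (nat_lit 557104) (nat_lit 14) (.e (nat_lit 180252) (nat_lit 10) (.e (nat_lit 573474) (nat_lit 12) (.e (nat_lit 57344) (nat_lit 0) (.e (nat_lit 5587) (nat_lit 310) .nil)))))))) (.g (nat_lit 5) .nil .nil))) 
(.lf (nat_lit 251044) (.g (nat_lit 3973) (.e (nat_lit 163874) (nat_lit 3) (.e (nat_lit 204864) (nat_lit 27) (.e (nat_lit 344133) (nat_lit 26) (.e (nat_lit 557105) (nat_lit 14) (.e (nat_lit 180252) (nat_lit 10) (.e (nat_lit 573474) (nat_lit 12) (.e (nat_lit 57344) (nat_lit 0) (.e (nat_lit 5587) (nat_lit 310) .nil)))))))) (.g (nat_lit 5) .nil .nil)))) (.nd (nat_lit 5) 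
(.lf (nat_lit 251028) (.g (nat_lit 3986) (.e (nat_lit 163874) (nat_lit 3) (.e (nat_lit 204864) (nat_lit 27) (.e (nat_lit 344132) (nat_lit 26) (.e (nat_lit 557105) (nat_lit 14) (.e (nat_lit 180252) (nat_lit 10) (.e (nat_lit 573474) (nat_lit 12) (.e (nat_lit 57354) (nat_lit 0) (.e (nat_lit 5601) (nat_lit 310) .nil)))))))) (.g (nat_lit 5) .nil .nil))) 
(.lf (nat_lit 251060) (.g (nat_lit 2231) (.e (nat_lit 163874) (nat_lit 3) (.e (nat_lit 204871) (nat_lit 30) (.e (nat_lit 368676) (nat_lit 21) (.e (nat_lit 516100) (nat_lit 0) (.e (nat_lit 3771) (nat_lit 229) .nil))))) .nil)))) (.nd (nat_lit 4) (.nd (nat_lit 5) 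
(.lf (nat_lit 251020) (.g (nat_lit 2664) (.e (nat_lit 163874) (nat_lit 3) (.e (nat_lit 204864) (nat_lit 27) (.e (nat_lit 344130) (nat_lit 26) (.e (nat_lit 557104) (nat_lit 14) (.e (nat_lit 180252) (nat_lit 10) (.e (nat_lit 573475) (nat_lit 12) (.e (nat_lit 57344) (nat_lit 0) (.e (nat_lit 5587) (nat_lit 310) .nil)))))))) (.g (nat_lit 4) .nil .nil))) 
(.lf (nat_lit 251052) (.g (nat_lit 3295) (.e (nat_lit 163874) (nat_lit 3) (.e (nat_lit 204864) (nat_lit 27) (.e (nat_lit 344133) (nat_lit 26) (.e (nat_lit 557105) (nat_lit 14) (.e (nat_lit 180252) (nat_lit 10) (.e (nat_lit 573474) (nat_lit 12) (.e (nat_lit 57348) (nat_lit 0) (.e (nat_lit 5592) (nat_lit 310) .nil)))))))) (.g (nat_lit 4) .nil .nil)))) (.nd (nat_lit 5) 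
(.lf (nat_lit 251036) (.g (nat_lit 2767) (.e (nat_lit 163874) (nat_lit 3) (.e (nat_lit 204864) (nat_lit 27) (.e (nat_lit 344133) (nat_lit 26) (.e (nat_lit 557103) (nat_lit 14) (.e (nat_lit 180250) (nat_lit 10) (.e (nat_lit 573478) (nat_lit 12) (.e (nat_lit 57360) (nat_lit 0) (.e (nat_lit 5599) (nat_lit 310) .nil)))))))) (.g (nat_lit 4) .nil .nil))) 
(.lf (nat_lit 251068) (.g (nat_lit 3055) (.e (nat_lit 163875) (nat_lit 3) (.e (nat_lit 204829) (nat_lit 18) (.e (nat_lit 57847) (nat_lit 252) (.e (nat_lit 57411) (nat_lit 12) (.e (nat_lit 336019) (nat_lit 3) (.e (nat_lit 98356) (nat_lit 26) (.e (nat_lit 426422) (nat_lit 16) (.e (nat_lit 57687) (nat_lit 156) .nil)))))))) (.g (nat_lit 4) .nil .nil))))))) 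
(.nd (nat_lit 2) (.nd (nat_lit 3) (.nd (nat_lit 4) (.nd (nat_lit 5) 
(.lf (nat_lit 251010) (.g (nat_lit 2717) (.e (nat_lit 163874) (nat_lit 3) (.e (nat_lit 204864) (nat_lit 27) (.e (nat_lit 344130) (nat_lit 26) (.e (nat_lit 557103) (nat_lit 14) (.e (nat_lit 180250) (nat_lit 10) (.e (nat_lit 573475) (nat_lit 12) (.e (nat_lit 57360) (nat_lit 0) (.e (nat_lit 5599) (nat_lit 310) .nil)))))))) (.g (nat_lit 4) .nil .nil))) 
(.lf (nat_lit 251042) (.g (nat_lit 3181) (.e (nat_lit 163874) (nat_lit 3) (.e (nat_lit 204864) (nat_lit 27) (.e (nat_lit 344133) (nat_lit 26) (.e (nat_lit 557105) (nat_lit 14) (.e (nat_lit 180252) (nat_lit 10) (.e (nat_lit 573451) (nat_lit 9) (.e (nat_lit 1169) (nat_lit 87) (.e (nat_lit 57929) (nat_lit 282) .nil)))))))) (.g (nat_lit 4) .nil .nil)))) (.nd (nat_lit 5) 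
(.lf (nat_lit 251026) (.g (nat_lit 3928) (.e (nat_lit 163874) (nat_lit 3) (.e (nat_lit 204864) (nat_lit 27) (.e (nat_lit 344132) (nat_lit 26) (.e (nat_lit 557105) (nat_lit 14) (.e (nat_lit 180252) (nat_lit 10) (.e (nat_lit 573474) (nat_lit 12) (.e (nat_lit 57347) (nat_lit 0) (.e (nat_lit 5591) (nat_lit 310) .nil)))))))) (.g (nat_lit 5) .nil .nil))) 
(.lf (nat_lit 251058) (.g (nat_lit 3128) (.e (nat_lit 163874) (nat_lit 3) (.e (nat_lit 204864) (nat_lit 27) (.e (nat_lit 344133) (nat_lit 26) (.e (nat_lit 557105) (nat_lit 14) (.e (nat_lit 180252) (nat_lit 10) (.e (nat_lit 573474) (nat_lit 12) (.e (nat_lit 57356) (nat_lit 0) (.e (nat_lit 5603) (nat_lit 310) .nil)))))))) (.g (nat_lit 4) .nil .nil))))) (.nd (nat_lit 4) (.nd (nat_lit 5) 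
(.lf (nat_lit 251018) (.g (nat_lit 2656) (.e (nat_lit 163874) (nat_lit 3) (.e (nat_lit 204864) (nat_lit 27) (.e (nat_lit 344130) (nat_lit 26) (.e (nat_lit 557104) (nat_lit 14) (.e (nat_lit 180252) (nat_lit 10) (.e (nat_lit 573474) (nat_lit 12) (.e (nat_lit 57359) (nat_lit 0) (.e (nat_lit 5594) (nat_lit 310) .nil)))))))) (.g (nat_lit 4) .nil .nil))) 
(.lf (nat_lit 251050) (.g (nat_lit 4003) (.e (nat_lit 163874) (nat_lit 3) (.e (nat_lit 204864) (nat_lit 27) (.e (nat_lit 344133) (nat_lit 26) (.e (nat_lit 557105) (nat_lit 14) (.e (nat_lit 180252) (nat_lit 10) (.e (nat_lit 573474) (nat_lit 12) (.e (nat_lit 57347) (nat_lit 0) (.e (nat_lit 5591) (nat_lit 310) .nil)))))))) (.g (nat_lit 5) .nil .nil)))) (.nd (nat_lit 5) 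
(.lf (nat_lit 251034) (.g (nat_lit 2786) (.e (nat_lit 163874) (nat_lit 3) (.e (nat_lit 204864) (nat_lit 27) (.e (nat_lit 344133) (nat_lit 26) (.e (nat_lit 557103) (nat_lit 14) (.e (nat_lit 180250) (nat_lit 10) (.e (nat_lit 573475) (nat_lit 12) (.e (nat_lit 57360) (nat_lit 0) (.e (nat_lit 5599) (nat_lit 310) .nil)))))))) (.g (nat_lit 4) .nil .nil))) 
(.lf (nat_lit 251066) (.g (nat_lit 2160) (.e (nat_lit 163875) (nat_lit 3) (.e (nat_lit 204829) (nat_lit 18) (.e (nat_lit 57847) (nat_lit 252) (.e (nat_lit 57411) (nat_lit 12) (.e (nat_lit 336019) (nat_lit 3) .nil))))) .nil))))) (.nd (nat_lit 3) (.nd (nat_lit 4) (.nd (nat_lit 5) 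
(.lf (nat_lit 251014) (.g (nat_lit 2479) (.e (nat_lit 163874) (nat_lit 3) (.e (nat_lit 204864) (nat_lit 27) (.e (nat_lit 344130) (nat_lit 26) (.e (nat_lit 557104) (nat_lit 14) (.e (nat_lit 180252) (nat_lit 10) (.e (nat_lit 573474) (nat_lit 12) (.e (nat_lit 57347) (nat_lit 0) (.e (nat_lit 5592) (nat_lit 310) .nil)))))))) (.g (nat_lit 4) .nil .nil))) 
(.lf (nat_lit 251046) (.g (nat_lit 2904) (.e (nat_lit 163874) (nat_lit 3) (.e (nat_lit 204864) (nat_lit 27) (.e (nat_lit 344133) (nat_lit 26) (.e (nat_lit 557105) (nat_lit 14) (.e (nat_lit 180252) (nat_lit 10) (.e (nat_lit 573474) (nat_lit 12) (.e (nat_lit 57344) (nat_lit 0) (.e (nat_lit 5601) (nat_lit 310) .nil)))))))) (.g (nat_lit 4) .nil .nil)))) (.nd (nat_lit 5) 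
(.lf (nat_lit 251030) (.g (nat_lit 2551) (.e (nat_lit 163874) (nat_lit 3) (.e (nat_lit 204864) (nat_lit 27) (.e (nat_lit 344132) (nat_lit 26) (.e (nat_lit 557105) (nat_lit 14) (.e (nat_lit 180252) (nat_lit 10) (.e (nat_lit 573475) (nat_lit 12) (.e (nat_lit 57356) (nat_lit 0) (.e (nat_lit 5601) (nat_lit 310) .nil)))))))) (.g (nat_lit 4) .nil .nil))) 
(.lf (nat_lit 251062) (.g (nat_lit 769) (.e (nat_lit 163874) (nat_lit 3) (.e (nat_lit 204880) (nat_lit 32) (.e (nat_lit 385096) (nat_lit 49) .nil))) .nil)))) (.nd (nat_lit 4) (.nd (nat_lit 5) 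
(.lf (nat_lit 251022) (.g (nat_lit 2777) (.e (nat_lit 163874) (nat_lit 3) (.e (nat_lit 204864) (nat_lit 27) (.e (nat_lit 344132) (nat_lit 26) (.e (nat_lit 557100) (nat_lit 13) (.e (nat_lit 172065) (nat_lit 3) (.e (nat_lit 204815) (nat_lit 17) (.e (nat_lit 974) (nat_lit 81) (.e (nat_lit 7710) (nat_lit 414) .nil)))))))) (.g (nat_lit 4) .nil .nil))) 
(.lf (nat_lit 251054) (.g (nat_lit 4061) (.e (nat_lit 163874) (nat_lit 3) (.e (nat_lit 204864) (nat_lit 27) (.e (nat_lit 344133) (nat_lit 26) (.e (nat_lit 557105) (nat_lit 14) (.e (nat_lit 180252) (nat_lit 10) (.e (nat_lit 573474) (nat_lit 12) (.e (nat_lit 57354) (nat_lit 0) (.e (nat_lit 5601) (nat_lit 310) .nil)))))))) (.g (nat_lit 5) .nil .nil)))) (.nd (nat_lit 5) 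
(.lf (nat_lit 251038) (.g (nat_lit 2675) (.e (nat_lit 163874) (nat_lit 3) (.e (nat_lit 204864) (nat_lit 27) (.e (nat_lit 344133) (nat_lit 26) (.e (nat_lit 557105) (nat_lit 14) (.e (nat_lit 180251) (nat_lit 10) (.e (nat_lit 573478) (nat_lit 12) (.e (nat_lit 57344) (nat_lit 0) (.e (nat_lit 5587) (nat_lit 310) .nil)))))))) (.g (nat_lit 4) .nil .nil))) 
(.lf (nat_lit 251070) (.g (nat_lit 3159) (.e (nat_lit 163875) (nat_lit 3) (.e (nat_lit 204829) (nat_lit 18) (.e (nat_lit 57847) (nat_lit 252) (.e (nat_lit 57411) (nat_lit 12) (.e (nat_lit 336019) (nat_lit 3) (.e (nat_lit 98358) (nat_lit 26) (.e (nat_lit 426422) (nat_lit 16) (.e (nat_lit 57692) (nat_lit 156) .nil)))))))) (.g (nat_lit 4) .nil .nil)))))))) 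
(.nd (nat_lit 1) (.nd (nat_lit 2) (.nd (nat_lit 3) (.nd (nat_lit 4) (.nd (nat_lit 5) 
(.lf (nat_lit 251009) (.g (nat_lit 2773) (.e (nat_lit 163874) (nat_lit 3) (.e (nat_lit 204864) (nat_lit 27) (.e (nat_lit 344130) (nat_lit 26) (.e (nat_lit 557103) (nat_lit 14) (.e (nat_lit 180250) (nat_lit 10) (.e (nat_lit 573474) (nat_lit 12) (.e (nat_lit 57354) (nat_lit 0) (.e (nat_lit 5601) (nat_lit 310) .nil)))))))) (.g (nat_lit 4) .nil .nil))) 
(.lf (nat_lit 251041) (.g (nat_lit 4119) (.e (nat_lit 163874) (nat_lit 3) (.e (nat_lit 204864) (nat_lit 27) (.e (nat_lit 344133) (nat_lit 26) (.e (nat_lit 557105) (nat_lit 14) (.e (nat_lit 180252) (nat_lit 10) (.e (nat_lit 573451) (nat_lit 9) (.e (nat_lit 1169) (nat_lit 87) (.e (nat_lit 57927) (nat_lit 282) .nil)))))))) (.g (nat_lit 5) .nil .nil)))) (.nd (nat_lit 5) 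
(.lf (nat_lit 251025) (.g (nat_lit 3917) (.e (nat_lit 163874) (nat_lit 3) (.e (nat_lit 204864) (nat_lit 27) (.e (nat_lit 344132) (nat_lit 26) (.e (nat_lit 557105) (nat_lit 14) (.e (nat_lit 180252) (nat_lit 10) (.e (nat_lit 573458) (nat_lit 9) (.e (nat_lit 1178) (nat_lit 87) (.e (nat_lit 57931) (nat_lit 282) .nil)))))))) (.g (nat_lit 5) .nil .nil))) 
(.lf (nat_lit 251057) (.g (nat_lit 3206) (.e (nat_lit 163874) (nat_lit 3) (.e (nat_lit 204864) (nat_lit 27) (.e (nat_lit 344133) (nat_lit 26) (.e (nat_lit 557105) (nat_lit 14) (.e (nat_lit 180252) (nat_lit 10) (.e (nat_lit 573474) (nat_lit 12) (.e (nat_lit 57356) (nat_lit 0) (.e (nat_lit 5601) (nat_lit 310) .nil)))))))) (.g (nat_lit 4) .nil .nil))))) (.nd (nat_lit 4) (.nd (nat_lit 5) 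
(.lf (nat_lit 251017) (.g (nat_lit 2455) (.e (nat_lit 163874) (nat_lit 3) (.e (nat_lit 204864) (nat_lit 27) (.e (nat_lit 344130) (nat_lit 26) (.e (nat_lit 557104) (nat_lit 14) (.e (nat_lit 180252) (nat_lit 10) (.e (nat_lit 573474) (nat_lit 12) (.e (nat_lit 57356) (nat_lit 0) (.e (nat_lit 5601) (nat_lit 310) .nil)))))))) (.g (nat_lit 4) .nil .nil))) 
(.lf (nat_lit 251049) (.g (nat_lit 2770) (.e (nat_lit 163874) (nat_lit 3) (.e (nat_lit 204864) (nat_lit 27) (.e (nat_lit 344133) (nat_lit 26) (.e (nat_lit 557105) (nat_lit 14) (.e (nat_lit 180252) (nat_lit 10) (.e (nat_lit 573474) (nat_lit 12) (.e (nat_lit 57347) (nat_lit 0) (.e (nat_lit 5590) (nat_lit 310) .nil)))))))) (.g (nat_lit 4) .nil .nil)))) (.nd (nat_lit 5) 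
(.lf (nat_lit 251033) (.g (nat_lit 2842) (.e (nat_lit 163874) (nat_lit 3) (.e (nat_lit 204864) (nat_lit 27) (.e (nat_lit 344133) (nat_lit 26) (.e (nat_lit 557103) (nat_lit 14) (.e (nat_lit 180250) (nat_lit 10) (.e (nat_lit 573474) (nat_lit 12) (.e (nat_lit 57354) (nat_lit 0) (.e (nat_lit 5601) (nat_lit 310) .nil)))))))) (.g (nat_lit 4) .nil .nil))) 
(.lf (nat_lit 251065) (.g (nat_lit 1110) (.e (nat_lit 163875) (nat_lit 3) (.e (nat_lit 204813) (nat_lit 9) (.e (nat_lit 426187) (nat_lit 9) (.e (nat_lit 426566) (nat_lit 34) .nil)))) .nil))))) (.nd (nat_lit 3) (.nd (nat_lit 4) (.nd (nat_lit 5) 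
(.lf (nat_lit 251013) (.g (nat_lit 3115) (.e (nat_lit 163874) (nat_lit 3) (.e (nat_lit 204864) (nat_lit 27) (.e (nat_lit 344130) (nat_lit 26) (.e (nat_lit 557104) (nat_lit 14) (.e (nat_lit 180252) (nat_lit 10) (.e (nat_lit 573474) (nat_lit 12) (.e (nat_lit 57347) (nat_lit 0) (.e (nat_lit 5591) (nat_lit 310) .nil)))))))) (.g (nat_lit 5) .nil .nil))) 
(.lf (nat_lit 251045) (.g (nat_lit 2759) (.e (nat_lit 163874) (nat_lit 3) (.e (nat_lit 204864) (nat_lit 27) (.e (nat_lit 344133) (nat_lit 26) (.e (nat_lit 557105) (nat_lit 14) (.e (nat_lit 180252) (nat_lit 10) (.e (nat_lit 573474) (nat_lit 12) (.e (nat_lit 57344) (nat_lit 0) (.e (nat_lit 5596) (nat_lit 310) .nil)))))))) (.g (nat_lit 4) .nil .nil)))) (.nd (nat_lit 5) 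
(.lf (nat_lit 251029) (.g (nat_lit 4199) (.e (nat_lit 163874) (nat_lit 3) (.e (nat_lit 204864) (nat_lit 27) (.e (nat_lit 344132) (nat_lit 26) (.e (nat_lit 557105) (nat_lit 14) (.e (nat_lit 180252) (nat_lit 10) (.e (nat_lit 573474) (nat_lit 12) (.e (nat_lit 65280) (nat_lit 0) (.e (nat_lit 5587) (nat_lit 310) .nil)))))))) (.g (nat_lit 5) .nil .nil))) 
(.lf (nat_lit 251061) (.g (nat_lit 3351) (.e (nat_lit 163874) (nat_lit 3) (.e (nat_lit 204880) (nat_lit 32) (.e (nat_lit 385094) (nat_lit 49) (.e (nat_lit 778291) (nat_lit 0) .nil)))) .nil)))) (.nd (nat_lit 4) (.nd (nat_lit 5) 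
(.lf (nat_lit 251021) (.g (nat_lit 2787) (.e (nat_lit 163874) (nat_lit 3) (.e (nat_lit 204864) (nat_lit 27) (.e (nat_lit 344130) (nat_lit 26) (.e (nat_lit 557104) (nat_lit 14) (.e (nat_lit 180252) (nat_lit 10) (.e (nat_lit 573475) (nat_lit 12) (.e (nat_lit 65280) (nat_lit 0) (.e (nat_lit 5587) (nat_lit 310) .nil)))))))) (.g (nat_lit 4) .nil .nil))) 
(.lf (nat_lit 251053) (.g (nat_lit 2818) (.e (nat_lit 163874) (nat_lit 3) (.e (nat_lit 204864) (nat_lit 27) (.e (nat_lit 344133) (nat_lit 26) (.e (nat_lit 557105) (nat_lit 14) (.e (nat_lit 180252) (nat_lit 10) (.e (nat_lit 573474) (nat_lit 12) (.e (nat_lit 57348) (nat_lit 0) (.e (nat_lit 5593) (nat_lit 310) .nil)))))))) (.g (nat_lit 4) .nil .nil)))) (.nd (nat_lit 5) 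
(.lf (nat_lit 251037) (.g (nat_lit 2794) (.e (nat_lit 163874) (nat_lit 3) (.e (nat_lit 204864) (nat_lit 27) (.e (nat_lit 344133) (nat_lit 26) (.e (nat_lit 557105) (nat_lit 14) (.e (nat_lit 180251) (nat_lit 10) (.e (nat_lit 573477) (nat_lit 12) (.e (nat_lit 65280) (nat_lit 0) (.e (nat_lit 5587) (nat_lit 310) .nil)))))))) (.g (nat_lit 4) .nil .nil))) 
(.lf (nat_lit 251069) (.g (nat_lit 2662) (.e (nat_lit 163875) (nat_lit 3) (.e (nat_lit 204829) (nat_lit 18) (.e (nat_lit 57847) (nat_lit 252) (.e (nat_lit 57411) (nat_lit 12) (.e (nat_lit 336019) (nat_lit 3) (.e (nat_lit 98356) (nat_lit 26) (.e (nat_lit 426426) (nat_lit 16) (.e (nat_lit 57686) (nat_lit 156) .nil)))))))) (.g (nat_lit 4) .nil .nil))))))) 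
(.nd (nat_lit 2) (.nd (nat_lit 3) (.nd (nat_lit 4) (.nd (nat_lit 5) 
(.lf (nat_lit 251011) (.g (nat_lit 2698) (.e (nat_lit 163874) (nat_lit 3) (.e (nat_lit 204864) (nat_lit 27) (.e (nat_lit 344130) (nat_lit 26) (.e (nat_lit 557103) (nat_lit 14) (.e (nat_lit 180250) (nat_lit 10) (.e (nat_lit 573478) (nat_lit 12) (.e (nat_lit 57360) (nat_lit 0) (.e (nat_lit 5599) (nat_lit 310) .nil)))))))) (.g (nat_lit 4) .nil .nil))) 
(.lf (nat_lit 251043) (.g (nat_lit 3193) (.e (nat_lit 163874) (nat_lit 3) (.e (nat_lit 204864) (nat_lit 27) (.e (nat_lit 344133) (nat_lit 26) (.e (nat_lit 557105) (nat_lit 14) (.e (nat_lit 180252) (nat_lit 10) (.e (nat_lit 573451) (nat_lit 9) (.e (nat_lit 1174) (nat_lit 87) (.e (nat_lit 57929) (nat_lit 282) .nil)))))))) (.g (nat_lit 4) .nil .nil)))) (.nd (nat_lit 5) 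
(.lf (nat_lit 251027) (.g (nat_lit 3866) (.e (nat_lit 163874) (nat_lit 3) (.e (nat_lit 204864) (nat_lit 27) (.e (nat_lit 344132) (nat_lit 26) (.e (nat_lit 557105) (nat_lit 14) (.e (nat_lit 180252) (nat_lit 10) (.e (nat_lit 573474) (nat_lit 12) (.e (nat_lit 57348) (nat_lit 0) (.e (nat_lit 5591) (nat_lit 310) .nil)))))))) (.g (nat_lit 5) .nil .nil))) 
(.lf (nat_lit 251059) (.g (nat_lit 4274) (.e (nat_lit 163874) (nat_lit 3) (.e (nat_lit 204864) (nat_lit 27) (.e (nat_lit 344133) (nat_lit 26) (.e (nat_lit 557105) (nat_lit 14) (.e (nat_lit 180252) (nat_lit 10) (.e (nat_lit 573474) (nat_lit 12) (.e (nat_lit 65280) (nat_lit 0) (.e (nat_lit 5587) (nat_lit 310) .nil)))))))) (.g (nat_lit 5) .nil .nil))))) (.nd (nat_lit 4) (.nd (nat_lit 5) 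
(.lf (nat_lit 251019) (.g (nat_lit 3395) (.e (nat_lit 163874) (nat_lit 3) (.e (nat_lit 204864) (nat_lit 27) (.e (nat_lit 344130) (nat_lit 26) (.e (nat_lit 557104) (nat_lit 14) (.e (nat_lit 180252) (nat_lit 10) (.e (nat_lit 573474) (nat_lit 12) (.e (nat_lit 65280) (nat_lit 0) (.e (nat_lit 5587) (nat_lit 310) .nil)))))))) (.g (nat_lit 5) .nil .nil))) 
(.lf (nat_lit 251051) (.g (nat_lit 3941) (.e (nat_lit 163874) (nat_lit 3) (.e (nat_lit 204864) (nat_lit 27) (.e (nat_lit 344133) (nat_lit 26) (.e (nat_lit 557105) (nat_lit 14) (.e (nat_lit 180252) (nat_lit 10) (.e (nat_lit 573474) (nat_lit 12) (.e (nat_lit 57348) (nat_lit 0) (.e (nat_lit 5591) (nat_lit 310) .nil)))))))) (.g (nat_lit 5) .nil .nil)))) (.nd (nat_lit 5) 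
(.lf (nat_lit 251035) (.g (nat_lit 2850) (.e (nat_lit 163874) (nat_lit 3) (.e (nat_lit 204864) (nat_lit 27) (.e (nat_lit 344133) (nat_lit 26) (.e (nat_lit 557103) (nat_lit 14) (.e (nat_lit 180250) (nat_lit 10) (.e (nat_lit 573477) (nat_lit 12) (.e (nat_lit 57360) (nat_lit 0) (.e (nat_lit 5599) (nat_lit 310) .nil)))))))) (.g (nat_lit 4) .nil .nil))) 
(.lf (nat_lit 251067) (.g (nat_lit 4625) (.e (nat_lit 163875) (nat_lit 3) (.e (nat_lit 204829) (nat_lit 18) (.e (nat_lit 57847) (nat_lit 252) (.e (nat_lit 57411) (nat_lit 12) (.e (nat_lit 336019) (nat_lit 3) (.e (nat_lit 98356) (nat_lit 26) (.e (nat_lit 426422) (nat_lit 16) (.e (nat_lit 57686) (nat_lit 156) .nil)))))))) (.g (nat_lit 6) .nil .nil)))))) 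
(.nd (nat_lit 3) (.nd (nat_lit 4) (.nd (nat_lit 5) 
(.lf (nat_lit 251015) (.g (nat_lit 2987) (.e (nat_lit 163874) (nat_lit 3) (.e (nat_lit 204864) (nat_lit 27) (.e (nat_lit 344130) (nat_lit 26) (.e (nat_lit 557104) (nat_lit 14) (.e (nat_lit 180252) (nat_lit 10) (.e (nat_lit 573474) (nat_lit 12) (.e (nat_lit 57348) (nat_lit 0) (.e (nat_lit 5591) (nat_lit 310) .nil)))))))) (.g (nat_lit 5) .nil .nil))) 
(.lf (nat_lit 251047) (.g (nat_lit 2779) (.e (nat_lit 163874) (nat_lit 3) (.e (nat_lit 204864) (nat_lit 27) (.e (nat_lit 344133) (nat_lit 26) (.e (nat_lit 557105) (nat_lit 14) (.e (nat_lit 180252) (nat_lit 10) (.e (nat_lit 573474) (nat_lit 12) (.e (nat_lit 57344) (nat_lit 0) (.e (nat_lit 5603) (nat_lit 310) .nil)))))))) (.g (nat_lit 4) .nil .nil)))) (.nd (nat_lit 5) 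
(.lf (nat_lit 251031) (.g (nat_lit 3557) (.e (nat_lit 163874) (nat_lit 3) (.e (nat_lit 204864) (nat_lit 27) (.e (nat_lit 344132) (nat_lit 26) (.e (nat_lit 557105) (nat_lit 14) (.e (nat_lit 180252) (nat_lit 10) (.e (nat_lit 573475) (nat_lit 12) (.e (nat_lit 57360) (nat_lit 0) (.e (nat_lit 5599) (nat_lit 310) .nil)))))))) (.g (nat_lit 6) .nil .nil))) 
(.lf (nat_lit 251063) (.g (nat_lit 1790) (.e (nat_lit 163874) (nat_lit 3) (.e (nat_lit 204882) (nat_lit 32) (.e (nat_lit 385106) (nat_lit 50) (.e (nat_lit 786473) (nat_lit 27) .nil)))) .nil)))) (.nd (nat_lit 4) (.nd (nat_lit 5) 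
(.lf (nat_lit 251023) (.g (nat_lit 2772) (.e (nat_lit 163874) (nat_lit 3) (.e (nat_lit 204864) (nat_lit 27) (.e (nat_lit 344132) (nat_lit 26) (.e (nat_lit 557100) (nat_lit 13) (.e (nat_lit 172067) (nat_lit 3) (.e (nat_lit 204815) (nat_lit 17) (.e (nat_lit 974) (nat_lit 81) (.e (nat_lit 7710) (nat_lit 414) .nil)))))))) (.g (nat_lit 4) .nil .nil))) 
(.lf (nat_lit 251055) (.g (nat_lit 3120) (.e (nat_lit 163874) (nat_lit 3) (.e (nat_lit 204864) (nat_lit 27) (.e (nat_lit 344133) (nat_lit 26) (.e (nat_lit 557105) (nat_lit 14) (.e (nat_lit 180252) (nat_lit 10) (.e (nat_lit 573474) (nat_lit 12) (.e (nat_lit 57355) (nat_lit 0) (.e (nat_lit 5586) (nat_lit 310) .nil)))))))) (.g (nat_lit 4) .nil .nil)))) (.nd (nat_lit 5) 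
(.lf (nat_lit 251039) (.g (nat_lit 2996) (.e (nat_lit 163874) (nat_lit 3) (.e (nat_lit 204864) (nat_lit 27) (.e (nat_lit 344133) (nat_lit 26) (.e (nat_lit 557105) (nat_lit 14) (.e (nat_lit 180251) (nat_lit 10) (.e (nat_lit 573478) (nat_lit 12) (.e (nat_lit 57360) (nat_lit 0) (.e (nat_lit 5599) (nat_lit 310) .nil)))))))) (.g (nat_lit 4) .nil .nil))) 
(.lf (nat_lit 251071) (.g (nat_lit 2975) (.e (nat_lit 163875) (nat_lit 3) (.e (nat_lit 204829) (nat_lit 18) (.e (nat_lit 57847) (nat_lit 252) (.e (nat_lit 57411) (nat_lit 12) (.e (nat_lit 336019) (nat_lit 3) (.e (nat_lit 98358) (nat_lit 26) (.e (nat_lit 426426) (nat_lit 16) (.e (nat_lit 57686) (nat_lit 156) .nil)))))))) (.g (nat_lit 4) .nil .nil)))))))))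

noncomputable def tv3254 : DT := (.nd (nat_lit 0) (.nd (nat_lit 1) (.nd (nat_lit 2) (.nd (nat_lit 3) (.nd (nat_lit 4) (.nd (nat_lit 5) 
(.lf (nat_lit 251072) (.g (nat_lit 3579) (.e (nat_lit 163875) (nat_lit 3) (.e (nat_lit 204829) (nat_lit 18) (.e (nat_lit 57847) (nat_lit 252) (.e (nat_lit 57411) (nat_lit 12) (.e (nat_lit 336019) (nat_lit 3) (.e (nat_lit 98384) (nat_lit 32) (.e (nat_lit 475161) (nat_lit 21) (.e (nat_lit 7287) (nat_lit 386) .nil)))))))) (.g (nat_lit 5) .nil .nil))) 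
(.lf (nat_lit 251104) (.g (nat_lit 3464) (.e (nat_lit 163875) (nat_lit 3) (.e (nat_lit 204830) (nat_lit 18) (.e (nat_lit 57929) (nat_lit 282) (.e (nat_lit 164084) (nat_lit 73) (.e (nat_lit 336027) (nat_lit 3) (.e (nat_lit 98367) (nat_lit 27) (.e (nat_lit 434209) (nat_lit 18) (.e (nat_lit 5224) (nat_lit 296) .nil)))))))) (.g (nat_lit 5) .nil .nil)))) (.nd (nat_lit 5) 
(.lf (nat_lit 251088) (.g (nat_lit 1977) (.e (nat_lit 163875) (nat_lit 3) (.e (nat_lit 204830) (nat_lit 18) (.e (nat_lit 57830) (nat_lit 250) (.e (nat_lit 1296) (nat_lit 96) (.e (nat_lit 131098) (nat_lit 3) .nil))))) .nil)) 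
(.lf (nat_lit 251120) (.g (nat_lit 2107) (.e (nat_lit 163875) (nat_lit 3) (.e (nat_lit 204836) (nat_lit 20) (.e (nat_lit 114716) (nat_lit 22) (.e (nat_lit 90172) (nat_lit 14) (.e (nat_lit 180243) (nat_lit 5) (.e (nat_lit 532501) (nat_lit 1) (.e (nat_lit 57689) (nat_lit 156) .nil))))))) (.g (nat_lit 4) .nil .nil))))) (.nd (nat_lit 4) (.nd (nat_lit 5) 
(.lf (nat_lit 251080) (.g (nat_lit 4144) (.e (nat_lit 163875) (nat_lit 3) (.e (nat_lit 204829) (nat_lit 18) (.e (nat_lit 57927) (nat_lit 282) (.e (nat_lit 164084) (nat_lit 73) (.e (nat_lit 336027) (nat_lit 3) (.e (nat_lit 98367) (nat_lit 27) (.e (nat_lit 434209) (nat_lit 18) (.e (nat_lit 5224) (nat_lit 296) .nil)))))))) (.g (nat_lit 6) .nil .nil))) 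
(.lf (nat_lit 251112) (.g (nat_lit 2204) (.e (nat_lit 163875) (nat_lit 3) (.e (nat_lit 204836) (nat_lit 20) (.e (nat_lit 114714) (nat_lit 22) (.e (nat_lit 90172) (nat_lit 14) (.e (nat_lit 180243) (nat_lit 5) (.e (nat_lit 532501) (nat_lit 1) (.e (nat_lit 57690) (nat_lit 156) .nil))))))) (.g (nat_lit 4) .nil .nil)))) (.nd (nat_lit 5) 
(.lf (nat_lit 251096) (.g (nat_lit 866) (.e (nat_lit 163875) (nat_lit 3) (.e (nat_lit 204830) (nat_lit 18) (.e (nat_lit 57927) (nat_lit 282) .nil))) .nil)) 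
(.lf (nat_lit 251128) (.g (nat_lit 3360) (.e (nat_lit 163875) (nat_lit 3) (.e (nat_lit 204836) (nat_lit 20) (.e (nat_lit 114716) (nat_lit 22) (.e (nat_lit 90174) (nat_lit 14) (.e (nat_lit 180243) (nat_lit 5) (.e (nat_lit 532504) (nat_lit 1) (.e (nat_lit 57690) (nat_lit 156) .nil))))))) (.g (nat_lit 6) .nil .nil)))))) (.nd (nat_lit 3) (.nd (nat_lit 4) (.nd (nat_lit 5) 
(.lf (nat_lit 251076) (.g (nat_lit 2223) (.e (nat_lit 163875) (nat_lit 3) (.e (nat_lit 204829) (nat_lit 18) (.e (nat_lit 57927) (nat_lit 282) (.e (nat_lit 164084) (nat_lit 73) (.e (nat_lit 336012) (nat_lit 2) (.e (nat_lit 90185) (nat_lit 17) (.e (nat_lit 237582) (nat_lit 1) (.e (nat_lit 164325) (nat_lit 230) .nil)))))))) (.g (nat_lit 4) .nil .nil))) 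
(.lf (nat_lit 251108) (.g (nat_lit 3575) (.e (nat_lit 163875) (nat_lit 3) (.e (nat_lit 204830) (nat_lit 18) (.e (nat_lit 57931) (nat_lit 282) (.e (nat_lit 164084) (nat_lit 73) (.e (nat_lit 336027) (nat_lit 3) (.e (nat_lit 98366) (nat_lit 27) (.e (nat_lit 434209) (nat_lit 18) (.e (nat_lit 5224) (nat_lit 296) .nil)))))))) (.g (nat_lit 5) .nil .nil)))) (.nd (nat_lit 5) 
(.lf (nat_lit 251092) (.g (nat_lit 4199) (.e (nat_lit 163875) (nat_lit 3) (.e (nat_lit 204830) (nat_lit 18) (.e (nat_lit 57926) (nat_lit 282) (.e (nat_lit 164084) (nat_lit 73) (.e (nat_lit 336012) (nat_lit 2) (.e (nat_lit 90185) (nat_lit 17) (.e (nat_lit 237584) (nat_lit 1) (.e (nat_lit 164327) (nat_lit 230) .nil)))))))) (.g (nat_lit 6) .nil .nil))) 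
(.lf (nat_lit 251124) (.g (nat_lit 2908) (.e (nat_lit 163875) (nat_lit 3) (.e (nat_lit 204836) (nat_lit 20) (.e (nat_lit 114716) (nat_lit 22) (.e (nat_lit 90172) (nat_lit 14) (.e (nat_lit 180244) (nat_lit 5) (.e (nat_lit 532503) (nat_lit 1) (.e (nat_lit 57689) (nat_lit 156) .nil))))))) (.g (nat_lit 5) .nil .nil))))) (.nd (nat_lit 4) (.nd (nat_lit 5) 
(.lf (nat_lit 251084) (.g (nat_lit 4189) (.e (nat_lit 163875) (nat_lit 3) (.e (nat_lit 204830) (nat_lit 18) (.e (nat_lit 57830) (nat_lit 250) (.e (nat_lit 1201) (nat_lit 88) (.e (nat_lit 65569) (nat_lit 3) (.e (nat_lit 98356) (nat_lit 26) (.e (nat_lit 426422) (nat_lit 16) (.e (nat_lit 57686) (nat_lit 156) .nil)))))))) (.g (nat_lit 6) .nil .nil))) 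
(.lf (nat_lit 251116) (.g (nat_lit 3221) (.e (nat_lit 163875) (nat_lit 3) (.e (nat_lit 204836) (nat_lit 20) (.e (nat_lit 114714) (nat_lit 22) (.e (nat_lit 90174) (nat_lit 14) (.e (nat_lit 180243) (nat_lit 5) (.e (nat_lit 532499) (nat_lit 1) (.e (nat_lit 57686) (nat_lit 156) .nil))))))) (.g (nat_lit 6) .nil .nil)))) (.nd (nat_lit 5) 
(.lf (nat_lit 251100) (.g (nat_lit 5019) (.e (nat_lit 163875) (nat_lit 3) (.e (nat_lit 204830) (nat_lit 18) (.e (nat_lit 57927) (nat_lit 282) (.e (nat_lit 164084) (nat_lit 73) (.e (nat_lit 336027) (nat_lit 3) (.e (nat_lit 98366) (nat_lit 27) (.e (nat_lit 434209) (nat_lit 18) (.e (nat_lit 5224) (nat_lit 296) .nil)))))))) (.g (nat_lit 7) .nil .nil))) 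
(.lf (nat_lit 251132) (.g (nat_lit 3211) (.e (nat_lit 163875) (nat_lit 3) (.e (nat_lit 204836) (nat_lit 20) (.e (nat_lit 114719) (nat_lit 23) (.e (nat_lit 98365) (nat_lit 26) (.e (nat_lit 426139) (nat_lit 3) (.e (nat_lit 204830) (nat_lit 18) (.e (nat_lit 57692) (nat_lit 156) .nil))))))) (.g (nat_lit 5) .nil .nil))))))) (.nd (nat_lit 2) (.nd (nat_lit 3) (.nd (nat_lit 4) (.nd (nat_lit 5) 
(.lf (nat_lit 251074) (.g (nat_lit 1747) (.e (nat_lit 163875) (nat_lit 3) (.e (nat_lit 204829) (nat_lit 18) (.e (nat_lit 57926) (nat_lit 282) (.e (nat_lit 164084) (nat_lit 73) .nil)))) .nil)) 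
(.lf (nat_lit 251106) (.g (nat_lit 1936) (.e (nat_lit 163875) (nat_lit 3) (.e (nat_lit 204830) (nat_lit 18) (.e (nat_lit 57931) (nat_lit 282) (.e (nat_lit 164084) (nat_lit 73) .nil)))) .nil))) (.nd (nat_lit 5) 
(.lf (nat_lit 251090) (.g (nat_lit 1873) (.e (nat_lit 163875) (nat_lit 3) (.e (nat_lit 204830) (nat_lit 18) (.e (nat_lit 57926) (nat_lit 282) (.e (nat_lit 164084) (nat_lit 73) .nil)))) .nil)) 
(.lf (nat_lit 251122) (.g (nat_lit 1974) (.e (nat_lit 163875) (nat_lit 3) (.e (nat_lit 204836) (nat_lit 20) (.e (nat_lit 114716) (nat_lit 22) (.e (nat_lit 90172) (nat_lit 14) (.e (nat_lit 180243) (nat_lit 5) (.e (nat_lit 532503) (nat_lit 1) (.e (nat_lit 57685) (nat_lit 156) .nil))))))) (.g (nat_lit 4) .nil .nil))))) (.nd (nat_lit 4) (.nd (nat_lit 5) 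
(.lf (nat_lit 251082) (.g (nat_lit 4099) (.e (nat_lit 163875) (nat_lit 3) (.e (nat_lit 204829) (nat_lit 18) (.e (nat_lit 57931) (nat_lit 282) (.e (nat_lit 164084) (nat_lit 73) (.e (nat_lit 336027) (nat_lit 3) (.e (nat_lit 98366) (nat_lit 27) (.e (nat_lit 434209) (nat_lit 18) (.e (nat_lit 5224) (nat_lit 296) .nil)))))))) (.g (nat_lit 5) .nil .nil))) 
(.lf (nat_lit 251114) (.g (nat_lit 2418) (.e (nat_lit 163875) (nat_lit 3) (.e (nat_lit 204836) (nat_lit 20) (.e (nat_lit 114714) (nat_lit 22) (.e (nat_lit 90172) (nat_lit 14) (.e (nat_lit 180243) (nat_lit 5) (.e (nat_lit 532504) (nat_lit 1) (.e (nat_lit 57690) (nat_lit 156) .nil))))))) (.g (nat_lit 4) .nil .nil)))) (.nd (nat_lit 5) 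
(.lf (nat_lit 251098) (.g (nat_lit 4606) (.e (nat_lit 163875) (nat_lit 3) (.e (nat_lit 204830) (nat_lit 18) (.e (nat_lit 57927) (nat_lit 282) (.e (nat_lit 164084) (nat_lit 73) (.e (nat_lit 336012) (nat_lit 2) (.e (nat_lit 90185) (nat_lit 17) (.e (nat_lit 237582) (nat_lit 1) (.e (nat_lit 164327) (nat_lit 230) .nil)))))))) (.g (nat_lit 6) .nil .nil))) 
(.lf (nat_lit 251130) (.g (nat_lit 2919) (.e (nat_lit 163875) (nat_lit 3) (.e (nat_lit 204836) (nat_lit 20) (.e (nat_lit 114719) (nat_lit 23) (.e (nat_lit 98365) (nat_lit 26) (.e (nat_lit 426133) (nat_lit 3) (.e (nat_lit 204829) (nat_lit 18) (.e (nat_lit 57686) (nat_lit 156) .nil))))))) (.g (nat_lit 6) .nil .nil)))))) (.nd (nat_lit 3) (.nd (nat_lit 4) (.nd (nat_lit 5) 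
(.lf (nat_lit 251078) (.g (nat_lit 4067) (.e (nat_lit 163875) (nat_lit 3) (.e (nat_lit 204829) (nat_lit 18) (.e (nat_lit 57927) (nat_lit 282) (.e (nat_lit 164084) (nat_lit 73) (.e (nat_lit 336027) (nat_lit 3) (.e (nat_lit 98365) (nat_lit 26) (.e (nat_lit 426098) (nat_lit 1) (.e (nat_lit 164327) (nat_lit 230) .nil)))))))) (.g (nat_lit 6) .nil .nil))) 
(.lf (nat_lit 251110) (.g (nat_lit 2706) (.e (nat_lit 163875) (nat_lit 3) (.e (nat_lit 204831) (nat_lit 18) (.e (nat_lit 57931) (nat_lit 282) (.e (nat_lit 164084) (nat_lit 73) (.e (nat_lit 336012) (nat_lit 2) (.e (nat_lit 90185) (nat_lit 17) (.e (nat_lit 237584) (nat_lit 1) (.e (nat_lit 164327) (nat_lit 230) .nil)))))))) (.g (nat_lit 4) .nil .nil)))) (.nd (nat_lit 5) 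
(.lf (nat_lit 251094) (.g (nat_lit 4433) (.e (nat_lit 163875) (nat_lit 3) (.e (nat_lit 204830) (nat_lit 18) (.e (nat_lit 57926) (nat_lit 282) (.e (nat_lit 164084) (nat_lit 73) (.e (nat_lit 336027) (nat_lit 3) (.e (nat_lit 98366) (nat_lit 27) (.e (nat_lit 434209) (nat_lit 18) (.e (nat_lit 5224) (nat_lit 296) .nil)))))))) (.g (nat_lit 6) .nil .nil))) 
(.lf (nat_lit 251126) (.g (nat_lit 3565) (.e (nat_lit 163875) (nat_lit 3) (.e (nat_lit 204836) (nat_lit 20) (.e (nat_lit 114716) (nat_lit 22) (.e (nat_lit 90174) (nat_lit 14) (.e (nat_lit 180243) (nat_lit 5) (.e (nat_lit 532501) (nat_lit 1) (.e (nat_lit 57689) (nat_lit 156) .nil))))))) (.g (nat_lit 6) .nil .nil))))) (.nd (nat_lit 4) (.nd (nat_lit 5) 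
(.lf (nat_lit 251086) (.g (nat_lit 3219) (.e (nat_lit 163875) (nat_lit 3) (.e (nat_lit 204830) (nat_lit 18) (.e (nat_lit 57830) (nat_lit 250) (.e (nat_lit 1214) (nat_lit 89) (.e (nat_lit 73746) (nat_lit 3) (.e (nat_lit 516146) (nat_lit 9) (.e (nat_lit 426426) (nat_lit 16) (.e (nat_lit 57686) (nat_lit 156) .nil)))))))) (.g (nat_lit 5) .nil .nil))) 
(.lf (nat_lit 251118) (.g (nat_lit 2893) (.e (nat_lit 163875) (nat_lit 3) (.e (nat_lit 204836) (nat_lit 20) (.e (nat_lit 114714) (nat_lit 22) (.e (nat_lit 90174) (nat_lit 14) (.e (nat_lit 180243) (nat_lit 5) (.e (nat_lit 532504) (nat_lit 1) (.e (nat_lit 57690) (nat_lit 156) .nil))))))) (.g (nat_lit 5) .nil .nil)))) (.nd (nat_lit 5) 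
(.lf (nat_lit 251102) (.g (nat_lit 3991) (.e (nat_lit 163875) (nat_lit 3) (.e (nat_lit 204830) (nat_lit 18) (.e (nat_lit 57929) (nat_lit 282) (.e (nat_lit 164084) (nat_lit 73) (.e (nat_lit 336012) (nat_lit 2) (.e (nat_lit 90185) (nat_lit 17) (.e (nat_lit 237584) (nat_lit 1) (.e (nat_lit 164327) (nat_lit 230) .nil)))))))) (.g (nat_lit 6) .nil .nil))) 
(.lf (nat_lit 251134) (.g (nat_lit 2399) (.e (nat_lit 163875) (nat_lit 3) (.e (nat_lit 204837) (nat_lit 20) (.e (nat_lit 114714) (nat_lit 22) (.e (nat_lit 90167) (nat_lit 13) (.e (nat_lit 172067) (nat_lit 3) (.e (nat_lit 204829) (nat_lit 18) (.e (nat_lit 57691) (nat_lit 156) .nil))))))) (.g (nat_lit 4) .nil .nil)))))))) 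
(.nd (nat_lit 1) (.nd (nat_lit 2) (.nd (nat_lit 3) (.nd (nat_lit 4) (.nd (nat_lit 5) 
(.lf (nat_lit 251073) (.g (nat_lit 2689) (.e (nat_lit 163875) (nat_lit 3) (.e (nat_lit 204829) (nat_lit 18) (.e (nat_lit 57847) (nat_lit 252) (.e (nat_lit 57411) (nat_lit 12) (.e (nat_lit 336019) (nat_lit 3) (.e (nat_lit 98384) (nat_lit 32) (.e (nat_lit 475163) (nat_lit 21) (.e (nat_lit 7282) (nat_lit 386) .nil)))))))) (.g (nat_lit 4) .nil .nil))) 
(.lf (nat_lit 251105) (.g (nat_lit 3190) (.e (nat_lit 163875) (nat_lit 3) (.e (nat_lit 204830) (nat_lit 18) (.e (nat_lit 57930) (nat_lit 282) (.e (nat_lit 164084) (nat_lit 73) (.e (nat_lit 336012) (nat_lit 2) (.e (nat_lit 90172) (nat_lit 14) (.e (nat_lit 180229) (nat_lit 0) (.e (nat_lit 5224) (nat_lit 296) .nil)))))))) (.g (nat_lit 5) .nil .nil)))) (.nd (nat_lit 5) 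
(.lf (nat_lit 251089) (.g (nat_lit 3326) (.e (nat_lit 163875) (nat_lit 3) (.e (nat_lit 204830) (nat_lit 18) (.e (nat_lit 57852) (nat_lit 252) (.e (nat_lit 57417) (nat_lit 12) (.e (nat_lit 336017) (nat_lit 3) (.e (nat_lit 98356) (nat_lit 26) (.e (nat_lit 426422) (nat_lit 16) (.e (nat_lit 57692) (nat_lit 156) .nil)))))))) (.g (nat_lit 4) .nil .nil))) 
(.lf (nat_lit 251121) (.g (nat_lit 2169) (.e (nat_lit 163875) (nat_lit 3) (.e (nat_lit 204836) (nat_lit 20) (.e (nat_lit 114716) (nat_lit 22) (.e (nat_lit 90172) (nat_lit 14) (.e (nat_lit 180243) (nat_lit 5) (.e (nat_lit 532501) (nat_lit 1) (.e (nat_lit 57692) (nat_lit 156) .nil))))))) (.g (nat_lit 4) .nil .nil))))) (.nd (nat_lit 4) (.nd (nat_lit 5) 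
(.lf (nat_lit 251081) (.g (nat_lit 3306) (.e (nat_lit 163875) (nat_lit 3) (.e (nat_lit 204829) (nat_lit 18) (.e (nat_lit 57931) (nat_lit 282) (.e (nat_lit 164084) (nat_lit 73) (.e (nat_lit 336027) (nat_lit 3) (.e (nat_lit 98365) (nat_lit 26) (.e (nat_lit 426098) (nat_lit 1) (.e (nat_lit 164327) (nat_lit 230) .nil)))))))) (.g (nat_lit 4) .nil .nil))) 
(.lf (nat_lit 251113) (.g (nat_lit 2480) (.e (nat_lit 163875) (nat_lit 3) (.e (nat_lit 204836) (nat_lit 20) (.e (nat_lit 114714) (nat_lit 22) (.e (nat_lit 90172) (nat_lit 14) (.e (nat_lit 180243) (nat_lit 5) (.e (nat_lit 532501) (nat_lit 1) (.e (nat_lit 57692) (nat_lit 156) .nil))))))) (.g (nat_lit 4) .nil .nil)))) (.nd (nat_lit 5) 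
(.lf (nat_lit 251097) (.g (nat_lit 4652) (.e (nat_lit 163875) (nat_lit 3) (.e (nat_lit 204830) (nat_lit 18) (.e (nat_lit 57927) (nat_lit 282) (.e (nat_lit 164084) (nat_lit 73) (.e (nat_lit 336012) (nat_lit 2) (.e (nat_lit 90174) (nat_lit 14) (.e (nat_lit 180228) (nat_lit 0) (.e (nat_lit 5224) (nat_lit 296) .nil)))))))) (.g (nat_lit 6) .nil .nil))) 
(.lf (nat_lit 251129) (.g (nat_lit 3077) (.e (nat_lit 163875) (nat_lit 3) (.e (nat_lit 204836) (nat_lit 20) (.e (nat_lit 114716) (nat_lit 22) (.e (nat_lit 90185) (nat_lit 17) (.e (nat_lit 237594) (nat_lit 3) (.e (nat_lit 204830) (nat_lit 18) (.e (nat_lit 57692) (nat_lit 156) .nil))))))) (.g (nat_lit 6) .nil .nil)))))) (.nd (nat_lit 3) (.nd (nat_lit 4) (.nd (nat_lit 5) 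
(.lf (nat_lit 251077) (.g (nat_lit 4372) (.e (nat_lit 163875) (nat_lit 3) (.e (nat_lit 204829) (nat_lit 18) (.e (nat_lit 57927) (nat_lit 282) (.e (nat_lit 164084) (nat_lit 73) (.e (nat_lit 336012) (nat_lit 2) (.e (nat_lit 90185) (nat_lit 17) (.e (nat_lit 237582) (nat_lit 1) (.e (nat_lit 164327) (nat_lit 230) .nil)))))))) (.g (nat_lit 6) .nil .nil))) 
(.lf (nat_lit 251109) (.g (nat_lit 1657) (.e (nat_lit 163875) (nat_lit 3) (.e (nat_lit 204831) (nat_lit 18) (.e (nat_lit 57931) (nat_lit 282) (.e (nat_lit 164084) (nat_lit 73) .nil)))) .nil))) (.nd (nat_lit 5) 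
(.lf (nat_lit 251093) (.g (nat_lit 3669) (.e (nat_lit 163875) (nat_lit 3) (.e (nat_lit 204830) (nat_lit 18) (.e (nat_lit 57926) (nat_lit 282) (.e (nat_lit 164084) (nat_lit 73) (.e (nat_lit 336027) (nat_lit 3) (.e (nat_lit 98365) (nat_lit 26) (.e (nat_lit 426098) (nat_lit 1) (.e (nat_lit 164327) (nat_lit 230) .nil)))))))) (.g (nat_lit 5) .nil .nil))) 
(.lf (nat_lit 251125) (.g (nat_lit 3692) (.e (nat_lit 163875) (nat_lit 3) (.e (nat_lit 204836) (nat_lit 20) (.e (nat_lit 114716) (nat_lit 22) (.e (nat_lit 90174) (nat_lit 14) (.e (nat_lit 180243) (nat_lit 5) (.e (nat_lit 532499) (nat_lit 1) (.e (nat_lit 57686) (nat_lit 156) .nil))))))) (.g (nat_lit 0) .nil .nil))))) (.nd (nat_lit 4) (.nd (nat_lit 5) 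
(.lf (nat_lit 251085) (.g (nat_lit 4796) (.e (nat_lit 163875) (nat_lit 3) (.e (nat_lit 204830) (nat_lit 18) (.e (nat_lit 57830) (nat_lit 250) (.e (nat_lit 1214) (nat_lit 89) (.e (nat_lit 73746) (nat_lit 3) (.e (nat_lit 516146) (nat_lit 9) (.e (nat_lit 426422) (nat_lit 16) (.e (nat_lit 57686) (nat_lit 156) .nil)))))))) (.g (nat_lit 7) .nil .nil))) 
(.lf (nat_lit 251117) (.g (nat_lit 2527) (.e (nat_lit 163875) (nat_lit 3) (.e (nat_lit 204836) (nat_lit 20) (.e (nat_lit 114714) (nat_lit 22) (.e (nat_lit 90174) (nat_lit 14) (.e (nat_lit 180243) (nat_lit 5) (.e (nat_lit 532502) (nat_lit 1) (.e (nat_lit 57692) (nat_lit 156) .nil))))))) (.g (nat_lit 5) .nil .nil)))) (.nd (nat_lit 5) 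
(.lf (nat_lit 251101) (.g (nat_lit 4294) (.e (nat_lit 163875) (nat_lit 3) (.e (nat_lit 204830) (nat_lit 18) (.e (nat_lit 57927) (nat_lit 282) (.e (nat_lit 164084) (nat_lit 73) (.e (nat_lit 336027) (nat_lit 3) (.e (nat_lit 98367) (nat_lit 27) (.e (nat_lit 434209) (nat_lit 18) (.e (nat_lit 5224) (nat_lit 296) .nil)))))))) (.g (nat_lit 6) .nil .nil))) 
(.lf (nat_lit 251133) (.g (nat_lit 1463) (.e (nat_lit 163875) (nat_lit 3) (.e (nat_lit 204837) (nat_lit 20) (.e (nat_lit 114714) (nat_lit 22) (.e (nat_lit 90167) (nat_lit 13) .nil)))) .nil)))))) (.nd (nat_lit 2) (.nd (nat_lit 3) (.nd (nat_lit 4) (.nd (nat_lit 5) 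
(.lf (nat_lit 251075) (.g (nat_lit 4462) (.e (nat_lit 163875) (nat_lit 3) (.e (nat_lit 204829) (nat_lit 18) (.e (nat_lit 57927) (nat_lit 282) (.e (nat_lit 164084) (nat_lit 73) (.e (nat_lit 336012) (nat_lit 2) (.e (nat_lit 90174) (nat_lit 14) (.e (nat_lit 180228) (nat_lit 0) (.e (nat_lit 5224) (nat_lit 296) .nil)))))))) (.g (nat_lit 6) .nil .nil))) 
(.lf (nat_lit 251107) (.g (nat_lit 3148) (.e (nat_lit 163875) (nat_lit 3) (.e (nat_lit 204830) (nat_lit 18) (.e (nat_lit 57931) (nat_lit 282) (.e (nat_lit 164084) (nat_lit 73) (.e (nat_lit 336012) (nat_lit 2) (.e (nat_lit 90185) (nat_lit 17) (.e (nat_lit 237582) (nat_lit 1) (.e (nat_lit 164327) (nat_lit 230) .nil)))))))) (.g (nat_lit 4) .nil .nil)))) (.nd (nat_lit 5) 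
(.lf (nat_lit 251091) (.g (nat_lit 3986) (.e (nat_lit 163875) (nat_lit 3) (.e (nat_lit 204830) (nat_lit 18) (.e (nat_lit 57926) (nat_lit 282) (.e (nat_lit 164084) (nat_lit 73) (.e (nat_lit 336012) (nat_lit 2) (.e (nat_lit 90174) (nat_lit 14) (.e (nat_lit 180228) (nat_lit 0) (.e (nat_lit 5224) (nat_lit 296) .nil)))))))) (.g (nat_lit 5) .nil .nil))) 
(.lf (nat_lit 251123) (.g (nat_lit 2106) (.e (nat_lit 163875) (nat_lit 3) (.e (nat_lit 204836) (nat_lit 20) (.e (nat_lit 114716) (nat_lit 22) (.e (nat_lit 90172) (nat_lit 14) (.e (nat_lit 180243) (nat_lit 5) (.e (nat_lit 532504) (nat_lit 1) (.e (nat_lit 57690) (nat_lit 156) .nil))))))) (.g (nat_lit 4) .nil .nil))))) (.nd (nat_lit 4) (.nd (nat_lit 5) 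
(.lf (nat_lit 251083) (.g (nat_lit 747) (.e (nat_lit 163875) (nat_lit 3) (.e (nat_lit 204830) (nat_lit 18) (.e (nat_lit 57830) (nat_lit 250) .nil))) .nil)) 
(.lf (nat_lit 251115) (.g (nat_lit 2650) (.e (nat_lit 163875) (nat_lit 3) (.e (nat_lit 204836) (nat_lit 20) (.e (nat_lit 114714) (nat_lit 22) (.e (nat_lit 90172) (nat_lit 14) (.e (nat_lit 180244) (nat_lit 5) (.e (nat_lit 532501) (nat_lit 1) (.e (nat_lit 57692) (nat_lit 156) .nil))))))) (.g (nat_lit 5) .nil .nil)))) (.nd (nat_lit 5) 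
(.lf (nat_lit 251099) (.g (nat_lit 4260) (.e (nat_lit 163875) (nat_lit 3) (.e (nat_lit 204830) (nat_lit 18) (.e (nat_lit 57927) (nat_lit 282) (.e (nat_lit 164084) (nat_lit 73) (.e (nat_lit 336027) (nat_lit 3) (.e (nat_lit 98365) (nat_lit 26) (.e (nat_lit 426098) (nat_lit 1) (.e (nat_lit 164327) (nat_lit 230) .nil)))))))) (.g (nat_lit 6) .nil .nil))) 
(.lf (nat_lit 251131) (.g (nat_lit 2279) (.e (nat_lit 163875) (nat_lit 3) (.e (nat_lit 204836) (nat_lit 20) (.e (nat_lit 114719) (nat_lit 23) (.e (nat_lit 98365) (nat_lit 26) (.e (nat_lit 426133) (nat_lit 3) (.e (nat_lit 204829) (nat_lit 18) (.e (nat_lit 57688) (nat_lit 156) .nil))))))) (.g (nat_lit 4) .nil .nil)))))) (.nd (nat_lit 3) (.nd (nat_lit 4) (.nd (nat_lit 5) 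
(.lf (nat_lit 251079) (.g (nat_lit 4869) (.e (nat_lit 163875) (nat_lit 3) (.e (nat_lit 204829) (nat_lit 18) (.e (nat_lit 57927) (nat_lit 282) (.e (nat_lit 164084) (nat_lit 73) (.e (nat_lit 336027) (nat_lit 3) (.e (nat_lit 98366) (nat_lit 27) (.e (nat_lit 434209) (nat_lit 18) (.e (nat_lit 5224) (nat_lit 296) .nil)))))))) (.g (nat_lit 7) .nil .nil))) 
(.lf (nat_lit 251111) (.g (nat_lit 2418) (.e (nat_lit 163875) (nat_lit 3) (.e (nat_lit 204836) (nat_lit 20) (.e (nat_lit 114714) (nat_lit 22) (.e (nat_lit 90172) (nat_lit 14) (.e (nat_lit 180243) (nat_lit 5) (.e (nat_lit 532501) (nat_lit 1) (.e (nat_lit 57689) (nat_lit 156) .nil))))))) (.g (nat_lit 4) .nil .nil)))) (.nd (nat_lit 5) 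
(.lf (nat_lit 251095) (.g (nat_lit 3708) (.e (nat_lit 163875) (nat_lit 3) (.e (nat_lit 204830) (nat_lit 18) (.e (nat_lit 57926) (nat_lit 282) (.e (nat_lit 164084) (nat_lit 73) (.e (nat_lit 336027) (nat_lit 3) (.e (nat_lit 98367) (nat_lit 27) (.e (nat_lit 434209) (nat_lit 18) (.e (nat_lit 5224) (nat_lit 296) .nil)))))))) (.g (nat_lit 5) .nil .nil))) 
(.lf (nat_lit 251127) (.g (nat_lit 3231) (.e (nat_lit 163875) (nat_lit 3) (.e (nat_lit 204836) (nat_lit 20) (.e (nat_lit 114716) (nat_lit 22) (.e (nat_lit 90174) (nat_lit 14) (.e (nat_lit 180243) (nat_lit 5) (.e (nat_lit 532501) (nat_lit 1) (.e (nat_lit 57690) (nat_lit 156) .nil))))))) (.g (nat_lit 6) .nil .nil))))) (.nd (nat_lit 4) (.nd (nat_lit 5) 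
(.lf (nat_lit 251087) (.g (nat_lit 1156) (.e (nat_lit 163875) (nat_lit 3) (.e (nat_lit 204830) (nat_lit 18) (.e (nat_lit 57830) (nat_lit 250) (.e (nat_lit 1296) (nat_lit 96) .nil)))) .nil)) 
(.lf (nat_lit 251119) (.g (nat_lit 3494) (.e (nat_lit 163875) (nat_lit 3) (.e (nat_lit 204836) (nat_lit 20) (.e (nat_lit 114714) (nat_lit 22) (.e (nat_lit 90174) (nat_lit 14) (.e (nat_lit 180243) (nat_lit 5) (.e (nat_lit 532504) (nat_lit 1) (.e (nat_lit 57692) (nat_lit 156) .nil))))))) (.g (nat_lit 6) .nil .nil)))) (.nd (nat_lit 5) 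
(.lf (nat_lit 251103) (.g (nat_lit 3423) (.e (nat_lit 163875) (nat_lit 3) (.e (nat_lit 204830) (nat_lit 18) (.e (nat_lit 57929) (nat_lit 282) (.e (nat_lit 164084) (nat_lit 73) (.e (nat_lit 336027) (nat_lit 3) (.e (nat_lit 98365) (nat_lit 26) (.e (nat_lit 426098) (nat_lit 1) (.e (nat_lit 164327) (nat_lit 230) .nil)))))))) (.g (nat_lit 6) .nil .nil))) 
(.lf (nat_lit 251135) (.g (nat_lit 2671) (.e (nat_lit 163875) (nat_lit 3) (.e (nat_lit 204837) (nat_lit 20) (.e (nat_lit 114714) (nat_lit 22) (.e (nat_lit 90167) (nat_lit 13) (.e (nat_lit 172067) (nat_lit 3) (.e (nat_lit 204829) (nat_lit 18) (.e (nat_lit 57692) (nat_lit 156) .nil))))))) (.g (nat_lit 4) .nil .nil)))))))))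

noncomputable def tv3255 : DT := (.nd (nat_lit 0) (.nd (nat_lit 1) (.nd (nat_lit 2) (.nd (nat_lit 3) (.nd (nat_lit 4) (.nd (nat_lit 5) 
(.lf (nat_lit 251136) (.g (nat_lit 2641) (.e (nat_lit 163875) (nat_lit 3) (.e (nat_lit 204837) (nat_lit 20) (.e (nat_lit 114714) (nat_lit 22) (.e (nat_lit 90167) (nat_lit 13) (.e (nat_lit 172067) (nat_lit 3) (.e (nat_lit 204830) (nat_lit 18) (.e (nat_lit 57691) (nat_lit 156) .nil))))))) (.g (nat_lit 4) .nil .nil))) 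
(.lf (nat_lit 251168) (.g (nat_lit 3400) (.e (nat_lit 163875) (nat_lit 3) (.e (nat_lit 204837) (nat_lit 20) (.e (nat_lit 114714) (nat_lit 22) (.e (nat_lit 90172) (nat_lit 14) (.e (nat_lit 180243) (nat_lit 5) (.e (nat_lit 532503) (nat_lit 1) (.e (nat_lit 57689) (nat_lit 156) .nil))))))) (.g (nat_lit 5) .nil .nil)))) (.nd (nat_lit 5) 
(.lf (nat_lit 251152) (.g (nat_lit 2688) (.e (nat_lit 163875) (nat_lit 3) (.e (nat_lit 204837) (nat_lit 20) (.e (nat_lit 114714) (nat_lit 22) (.e (nat_lit 90170) (nat_lit 13) (.e (nat_lit 172067) (nat_lit 3) (.e (nat_lit 204830) (nat_lit 18) (.e (nat_lit 57690) (nat_lit 156) .nil))))))) (.g (nat_lit 4) .nil .nil))) 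
(.lf (nat_lit 251184) (.g (nat_lit 3783) (.e (nat_lit 163875) (nat_lit 3) (.e (nat_lit 204837) (nat_lit 20) (.e (nat_lit 114714) (nat_lit 22) (.e (nat_lit 90172) (nat_lit 14) (.e (nat_lit 180244) (nat_lit 5) (.e (nat_lit 532502) (nat_lit 1) (.e (nat_lit 57692) (nat_lit 156) .nil))))))) (.g (nat_lit 5) .nil .nil))))) (.nd (nat_lit 4) (.nd (nat_lit 5) 
(.lf (nat_lit 251144) (.g (nat_lit 3875) (.e (nat_lit 163875) (nat_lit 3) (.e (nat_lit 204837) (nat_lit 20) (.e (nat_lit 114714) (nat_lit 22) (.e (nat_lit 90170) (nat_lit 13) (.e (nat_lit 172065) (nat_lit 3) (.e (nat_lit 204830) (nat_lit 18) (.e (nat_lit 57692) (nat_lit 156) .nil))))))) (.g (nat_lit 5) .nil .nil))) 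
(.lf (nat_lit 251176) (.g (nat_lit 5809) (.e (nat_lit 163875) (nat_lit 3) (.e (nat_lit 204837) (nat_lit 20) (.e (nat_lit 114714) (nat_lit 22) (.e (nat_lit 90172) (nat_lit 14) (.e (nat_lit 180244) (nat_lit 5) (.e (nat_lit 532499) (nat_lit 1) (.e (nat_lit 57688) (nat_lit 156) .nil))))))) (.g (nat_lit 0) .nil .nil)))) (.nd (nat_lit 5) 
(.lf (nat_lit 251160) (.g (nat_lit 3041) (.e (nat_lit 163875) (nat_lit 3) (.e (nat_lit 204837) (nat_lit 20) (.e (nat_lit 114714) (nat_lit 22) (.e (nat_lit 90172) (nat_lit 14) (.e (nat_lit 180243) (nat_lit 5) (.e (nat_lit 532501) (nat_lit 1) (.e (nat_lit 57685) (nat_lit 156) .nil))))))) (.g (nat_lit 4) .nil .nil))) 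
(.lf (nat_lit 251192) (.g (nat_lit 4664) (.e (nat_lit 163875) (nat_lit 3) (.e (nat_lit 204837) (nat_lit 20) (.e (nat_lit 114714) (nat_lit 22) (.e (nat_lit 90172) (nat_lit 14) (.e (nat_lit 180244) (nat_lit 5) (.e (nat_lit 532504) (nat_lit 1) (.e (nat_lit 57692) (nat_lit 156) .nil))))))) (.g (nat_lit 7) .nil .nil)))))) (.nd (nat_lit 3) (.nd (nat_lit 4) (.nd (nat_lit 5) 
(.lf (nat_lit 251140) (.g (nat_lit 3768) (.e (nat_lit 163875) (nat_lit 3) (.e (nat_lit 204837) (nat_lit 20) (.e (nat_lit 114714) (nat_lit 22) (.e (nat_lit 90170) (nat_lit 13) (.e (nat_lit 172065) (nat_lit 3) (.e (nat_lit 204829) (nat_lit 18) (.e (nat_lit 57692) (nat_lit 156) .nil))))))) (.g (nat_lit 5) .nil .nil))) 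
(.lf (nat_lit 251172) (.g (nat_lit 4072) (.e (nat_lit 163875) (nat_lit 3) (.e (nat_lit 204837) (nat_lit 20) (.e (nat_lit 114714) (nat_lit 22) (.e (nat_lit 90172) (nat_lit 14) (.e (nat_lit 180243) (nat_lit 5) (.e (nat_lit 532504) (nat_lit 1) (.e (nat_lit 57690) (nat_lit 156) .nil))))))) (.g (nat_lit 6) .nil .nil)))) (.nd (nat_lit 5) 
(.lf (nat_lit 251156) (.g (nat_lit 2359) (.e (nat_lit 163875) (nat_lit 3) (.e (nat_lit 204837) (nat_lit 20) (.e (nat_lit 114714) (nat_lit 22) (.e (nat_lit 90172) (nat_lit 14) (.e (nat_lit 180243) (nat_lit 5) .nil))))) .nil)) 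
(.lf (nat_lit 251188) (.g (nat_lit 4406) (.e (nat_lit 163875) (nat_lit 3) (.e (nat_lit 204837) (nat_lit 20) (.e (nat_lit 114714) (nat_lit 22) (.e (nat_lit 90172) (nat_lit 14) (.e (nat_lit 180244) (nat_lit 5) (.e (nat_lit 532503) (nat_lit 1) (.e (nat_lit 57689) (nat_lit 156) .nil))))))) (.g (nat_lit 6) .nil .nil))))) (.nd (nat_lit 4) (.nd (nat_lit 5) 
(.lf (nat_lit 251148) (.g (nat_lit 3585) (.e (nat_lit 163875) (nat_lit 3) (.e (nat_lit 204837) (nat_lit 20) (.e (nat_lit 114714) (nat_lit 22) (.e (nat_lit 90170) (nat_lit 13) (.e (nat_lit 172067) (nat_lit 3) (.e (nat_lit 204829) (nat_lit 18) (.e (nat_lit 57691) (nat_lit 156) .nil))))))) (.g (nat_lit 5) .nil .nil))) 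
(.lf (nat_lit 251180) (.g (nat_lit 3952) (.e (nat_lit 163875) (nat_lit 3) (.e (nat_lit 204837) (nat_lit 20) (.e (nat_lit 114714) (nat_lit 22) (.e (nat_lit 90172) (nat_lit 14) (.e (nat_lit 180244) (nat_lit 5) (.e (nat_lit 532501) (nat_lit 1) (.e (nat_lit 57689) (nat_lit 156) .nil))))))) (.g (nat_lit 6) .nil .nil)))) (.nd (nat_lit 5) 
(.lf (nat_lit 251164) (.g (nat_lit 3823) (.e (nat_lit 163875) (nat_lit 3) (.e (nat_lit 204837) (nat_lit 20) (.e (nat_lit 114714) (nat_lit 22) (.e (nat_lit 90172) (nat_lit 14) (.e (nat_lit 180243) (nat_lit 5) (.e (nat_lit 532503) (nat_lit 1) (.e (nat_lit 57685) (nat_lit 156) .nil))))))) (.g (nat_lit 5) .nil .nil))) 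
(.lf (nat_lit 251196) (.g (nat_lit 3734) (.e (nat_lit 163875) (nat_lit 3) (.e (nat_lit 204837) (nat_lit 20) (.e (nat_lit 114714) (nat_lit 22) (.e (nat_lit 90174) (nat_lit 14) (.e (nat_lit 180243) (nat_lit 5) (.e (nat_lit 532499) (nat_lit 1) (.e (nat_lit 57687) (nat_lit 156) .nil))))))) (.g (nat_lit 5) .nil .nil))))))) (.nd (nat_lit 2) (.nd (nat_lit 3) (.nd (nat_lit 4) (.nd (nat_lit 5) 
(.lf (nat_lit 251138) (.g (nat_lit 3799) (.e (nat_lit 163875) (nat_lit 3) (.e (nat_lit 204837) (nat_lit 20) (.e (nat_lit 114714) (nat_lit 22) (.e (nat_lit 90170) (nat_lit 13) (.e (nat_lit 172065) (nat_lit 3) (.e (nat_lit 204829) (nat_lit 18) (.e (nat_lit 57688) (nat_lit 156) .nil))))))) (.g (nat_lit 5) .nil .nil))) 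
(.lf (nat_lit 251170) (.g (nat_lit 3077) (.e (nat_lit 163875) (nat_lit 3) (.e (nat_lit 204837) (nat_lit 20) (.e (nat_lit 114714) (nat_lit 22) (.e (nat_lit 90172) (nat_lit 14) (.e (nat_lit 180243) (nat_lit 5) (.e (nat_lit 532504) (nat_lit 1) (.e (nat_lit 57685) (nat_lit 156) .nil))))))) (.g (nat_lit 4) .nil .nil)))) (.nd (nat_lit 5) 
(.lf (nat_lit 251154) (.g (nat_lit 3350) (.e (nat_lit 163875) (nat_lit 3) (.e (nat_lit 204837) (nat_lit 20) (.e (nat_lit 114714) (nat_lit 22) (.e (nat_lit 90170) (nat_lit 13) (.e (nat_lit 172067) (nat_lit 3) (.e (nat_lit 204830) (nat_lit 18) (.e (nat_lit 57692) (nat_lit 156) .nil))))))) (.g (nat_lit 5) .nil .nil))) 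
(.lf (nat_lit 251186) (.g (nat_lit 3788) (.e (nat_lit 163875) (nat_lit 3) (.e (nat_lit 204837) (nat_lit 20) (.e (nat_lit 114714) (nat_lit 22) (.e (nat_lit 90172) (nat_lit 14) (.e (nat_lit 180244) (nat_lit 5) (.e (nat_lit 532503) (nat_lit 1) (.e (nat_lit 57686) (nat_lit 156) .nil))))))) (.g (nat_lit 5) .nil .nil))))) (.nd (nat_lit 4) (.nd (nat_lit 5) 
(.lf (nat_lit 251146) (.g (nat_lit 3557) (.e (nat_lit 163875) (nat_lit 3) (.e (nat_lit 204837) (nat_lit 20) (.e (nat_lit 114714) (nat_lit 22) (.e (nat_lit 90170) (nat_lit 13) (.e (nat_lit 172067) (nat_lit 3) (.e (nat_lit 204829) (nat_lit 18) (.e (nat_lit 57686) (nat_lit 156) .nil))))))) (.g (nat_lit 5) .nil .nil))) 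
(.lf (nat_lit 251178) (.g (nat_lit 5381) (.e (nat_lit 163875) (nat_lit 3) (.e (nat_lit 204837) (nat_lit 20) (.e (nat_lit 114714) (nat_lit 22) (.e (nat_lit 90172) (nat_lit 14) (.e (nat_lit 180244) (nat_lit 5) (.e (nat_lit 532499) (nat_lit 1) (.e (nat_lit 57692) (nat_lit 156) .nil))))))) (.g (nat_lit 0) .nil .nil)))) (.nd (nat_lit 5) 
(.lf (nat_lit 251162) (.g (nat_lit 3909) (.e (nat_lit 163875) (nat_lit 3) (.e (nat_lit 204837) (nat_lit 20) (.e (nat_lit 114714) (nat_lit 22) (.e (nat_lit 90172) (nat_lit 14) (.e (nat_lit 180243) (nat_lit 5) (.e (nat_lit 532501) (nat_lit 1) (.e (nat_lit 57692) (nat_lit 156) .nil))))))) (.g (nat_lit 6) .nil .nil))) 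
(.lf (nat_lit 251194) (.g (nat_lit 1952) (.e (nat_lit 163875) (nat_lit 3) (.e (nat_lit 204837) (nat_lit 20) (.e (nat_lit 114714) (nat_lit 22) (.e (nat_lit 90174) (nat_lit 14) (.e (nat_lit 180243) (nat_lit 5) .nil))))) .nil))))) (.nd (nat_lit 3) (.nd (nat_lit 4) (.nd (nat_lit 5) 
(.lf (nat_lit 251142) (.g (nat_lit 3872) (.e (nat_lit 163875) (nat_lit 3) (.e (nat_lit 204837) (nat_lit 20) (.e (nat_lit 114714) (nat_lit 22) (.e (nat_lit 90170) (nat_lit 13) (.e (nat_lit 172065) (nat_lit 3) (.e (nat_lit 204830) (nat_lit 18) (.e (nat_lit 57689) (nat_lit 156) .nil))))))) (.g (nat_lit 5) .nil .nil))) 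
(.lf (nat_lit 251174) (.g (nat_lit 2036) (.e (nat_lit 163875) (nat_lit 3) (.e (nat_lit 204837) (nat_lit 20) (.e (nat_lit 114714) (nat_lit 22) (.e (nat_lit 90172) (nat_lit 14) (.e (nat_lit 180244) (nat_lit 5) .nil))))) .nil))) (.nd (nat_lit 5) 
(.lf (nat_lit 251158) (.g (nat_lit 4826) (.e (nat_lit 163875) (nat_lit 3) (.e (nat_lit 204837) (nat_lit 20) (.e (nat_lit 114714) (nat_lit 22) (.e (nat_lit 90172) (nat_lit 14) (.e (nat_lit 180243) (nat_lit 5) (.e (nat_lit 532499) (nat_lit 1) (.e (nat_lit 57688) (nat_lit 156) .nil))))))) (.g (nat_lit 6) .nil .nil))) 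
(.lf (nat_lit 251190) (.g (nat_lit 3563) (.e (nat_lit 163875) (nat_lit 3) (.e (nat_lit 204837) (nat_lit 20) (.e (nat_lit 114714) (nat_lit 22) (.e (nat_lit 90172) (nat_lit 14) (.e (nat_lit 180244) (nat_lit 5) (.e (nat_lit 532503) (nat_lit 1) (.e (nat_lit 57692) (nat_lit 156) .nil))))))) (.g (nat_lit 5) .nil .nil))))) (.nd (nat_lit 4) (.nd (nat_lit 5) 
(.lf (nat_lit 251150) (.g (nat_lit 2537) (.e (nat_lit 163875) (nat_lit 3) (.e (nat_lit 204837) (nat_lit 20) (.e (nat_lit 114714) (nat_lit 22) (.e (nat_lit 90170) (nat_lit 13) (.e (nat_lit 172067) (nat_lit 3) (.e (nat_lit 204830) (nat_lit 18) (.e (nat_lit 57685) (nat_lit 156) .nil))))))) (.g (nat_lit 4) .nil .nil))) 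
(.lf (nat_lit 251182) (.g (nat_lit 4038) (.e (nat_lit 163875) (nat_lit 3) (.e (nat_lit 204837) (nat_lit 20) (.e (nat_lit 114714) (nat_lit 22) (.e (nat_lit 90172) (nat_lit 14) (.e (nat_lit 180244) (nat_lit 5) (.e (nat_lit 532501) (nat_lit 1) (.e (nat_lit 57692) (nat_lit 156) .nil))))))) (.g (nat_lit 6) .nil .nil)))) (.nd (nat_lit 5) 
(.lf (nat_lit 251166) (.g (nat_lit 3165) (.e (nat_lit 163875) (nat_lit 3) (.e (nat_lit 204837) (nat_lit 20) (.e (nat_lit 114714) (nat_lit 22) (.e (nat_lit 90172) (nat_lit 14) (.e (nat_lit 180243) (nat_lit 5) (.e (nat_lit 532503) (nat_lit 1) (.e (nat_lit 57687) (nat_lit 156) .nil))))))) (.g (nat_lit 4) .nil .nil))) 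
(.lf (nat_lit 251198) (.g (nat_lit 2647) (.e (nat_lit 163875) (nat_lit 3) (.e (nat_lit 204837) (nat_lit 20) (.e (nat_lit 114714) (nat_lit 22) (.e (nat_lit 90174) (nat_lit 14) (.e (nat_lit 180243) (nat_lit 5) (.e (nat_lit 532499) (nat_lit 1) (.e (nat_lit 57689) (nat_lit 156) .nil))))))) (.g (nat_lit 4) .nil .nil)))))))) 
(.nd (nat_lit 1) (.nd (nat_lit 2) (.nd (nat_lit 3) (.nd (nat_lit 4) (.nd (nat_lit 5) 
(.lf (nat_lit 251137) (.g (nat_lit 3802) (.e (nat_lit 163875) (nat_lit 3) (.e (nat_lit 204837) (nat_lit 20) (.e (nat_lit 114714) (nat_lit 22) (.e (nat_lit 90170) (nat_lit 13) (.e (nat_lit 172065) (nat_lit 3) (.e (nat_lit 204829) (nat_lit 18) (.e (nat_lit 57686) (nat_lit 156) .nil))))))) (.g (nat_lit 5) .nil .nil))) 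
(.lf (nat_lit 251169) (.g (nat_lit 2557) (.e (nat_lit 163875) (nat_lit 3) (.e (nat_lit 204837) (nat_lit 20) (.e (nat_lit 114714) (nat_lit 22) (.e (nat_lit 90172) (nat_lit 14) (.e (nat_lit 180243) (nat_lit 5) (.e (nat_lit 532503) (nat_lit 1) (.e (nat_lit 57692) (nat_lit 156) .nil))))))) (.g (nat_lit 4) .nil .nil)))) (.nd (nat_lit 5) 
(.lf (nat_lit 251153) (.g (nat_lit 3898) (.e (nat_lit 163875) (nat_lit 3) (.e (nat_lit 204837) (nat_lit 20) (.e (nat_lit 114714) (nat_lit 22) (.e (nat_lit 90170) (nat_lit 13) (.e (nat_lit 172067) (nat_lit 3) (.e (nat_lit 204830) (nat_lit 18) (.e (nat_lit 57691) (nat_lit 156) .nil))))))) (.g (nat_lit 6) .nil .nil))) 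
(.lf (nat_lit 251185) (.g (nat_lit 5138) (.e (nat_lit 163875) (nat_lit 3) (.e (nat_lit 204837) (nat_lit 20) (.e (nat_lit 114714) (nat_lit 22) (.e (nat_lit 90172) (nat_lit 14) (.e (nat_lit 180244) (nat_lit 5) (.e (nat_lit 532503) (nat_lit 1) (.e (nat_lit 57685) (nat_lit 156) .nil))))))) (.g (nat_lit 0) .nil .nil))))) (.nd (nat_lit 4) (.nd (nat_lit 5) 
(.lf (nat_lit 251145) (.g (nat_lit 3212) (.e (nat_lit 163875) (nat_lit 3) (.e (nat_lit 204837) (nat_lit 20) (.e (nat_lit 114714) (nat_lit 22) (.e (nat_lit 90170) (nat_lit 13) (.e (nat_lit 172065) (nat_lit 3) (.e (nat_lit 204831) (nat_lit 18) (.e (nat_lit 57692) (nat_lit 156) .nil))))))) (.g (nat_lit 4) .nil .nil))) 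
(.lf (nat_lit 251177) (.g (nat_lit 2923) (.e (nat_lit 163875) (nat_lit 3) (.e (nat_lit 204837) (nat_lit 20) (.e (nat_lit 114714) (nat_lit 22) (.e (nat_lit 90172) (nat_lit 14) (.e (nat_lit 180244) (nat_lit 5) (.e (nat_lit 532499) (nat_lit 1) (.e (nat_lit 57690) (nat_lit 156) .nil))))))) (.g (nat_lit 4) .nil .nil)))) (.nd (nat_lit 5) 
(.lf (nat_lit 251161) (.g (nat_lit 3836) (.e (nat_lit 163875) (nat_lit 3) (.e (nat_lit 204837) (nat_lit 20) (.e (nat_lit 114714) (nat_lit 22) (.e (nat_lit 90172) (nat_lit 14) (.e (nat_lit 180243) (nat_lit 5) (.e (nat_lit 532501) (nat_lit 1) (.e (nat_lit 57689) (nat_lit 156) .nil))))))) (.g (nat_lit 5) .nil .nil))) 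
(.lf (nat_lit 251193) (.g (nat_lit 1463) (.e (nat_lit 163875) (nat_lit 3) (.e (nat_lit 204837) (nat_lit 20) (.e (nat_lit 114714) (nat_lit 22) (.e (nat_lit 90173) (nat_lit 14) .nil)))) .nil))))) (.nd (nat_lit 3) (.nd (nat_lit 4) (.nd (nat_lit 5) 
(.lf (nat_lit 251141) (.g (nat_lit 3419) (.e (nat_lit 163875) (nat_lit 3) (.e (nat_lit 204837) (nat_lit 20) (.e (nat_lit 114714) (nat_lit 22) (.e (nat_lit 90170) (nat_lit 13) (.e (nat_lit 172065) (nat_lit 3) (.e (nat_lit 204830) (nat_lit 18) (.e (nat_lit 57685) (nat_lit 156) .nil))))))) (.g (nat_lit 4) .nil .nil))) 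
(.lf (nat_lit 251173) (.g (nat_lit 4872) (.e (nat_lit 163875) (nat_lit 3) (.e (nat_lit 204837) (nat_lit 20) (.e (nat_lit 114714) (nat_lit 22) (.e (nat_lit 90172) (nat_lit 14) (.e (nat_lit 180243) (nat_lit 5) (.e (nat_lit 532504) (nat_lit 1) (.e (nat_lit 57692) (nat_lit 156) .nil))))))) (.g (nat_lit 7) .nil .nil)))) (.nd (nat_lit 5) 
(.lf (nat_lit 251157) (.g (nat_lit 3925) (.e (nat_lit 163875) (nat_lit 3) (.e (nat_lit 204837) (nat_lit 20) (.e (nat_lit 114714) (nat_lit 22) (.e (nat_lit 90172) (nat_lit 14) (.e (nat_lit 180243) (nat_lit 5) (.e (nat_lit 532499) (nat_lit 1) (.e (nat_lit 57686) (nat_lit 156) .nil))))))) (.g (nat_lit 5) .nil .nil))) 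
(.lf (nat_lit 251189) (.g (nat_lit 4429) (.e (nat_lit 163875) (nat_lit 3) (.e (nat_lit 204837) (nat_lit 20) (.e (nat_lit 114714) (nat_lit 22) (.e (nat_lit 90172) (nat_lit 14) (.e (nat_lit 180244) (nat_lit 5) (.e (nat_lit 532503) (nat_lit 1) (.e (nat_lit 57691) (nat_lit 156) .nil))))))) (.g (nat_lit 6) .nil .nil))))) (.nd (nat_lit 4) (.nd (nat_lit 5) 
(.lf (nat_lit 251149) (.g (nat_lit 3772) (.e (nat_lit 163875) (nat_lit 3) (.e (nat_lit 204837) (nat_lit 20) (.e (nat_lit 114714) (nat_lit 22) (.e (nat_lit 90170) (nat_lit 13) (.e (nat_lit 172067) (nat_lit 3) (.e (nat_lit 204829) (nat_lit 18) (.e (nat_lit 57692) (nat_lit 156) .nil))))))) (.g (nat_lit 5) .nil .nil))) 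
(.lf (nat_lit 251181) (.g (nat_lit 4211) (.e (nat_lit 163875) (nat_lit 3) (.e (nat_lit 204837) (nat_lit 20) (.e (nat_lit 114714) (nat_lit 22) (.e (nat_lit 90172) (nat_lit 14) (.e (nat_lit 180244) (nat_lit 5) (.e (nat_lit 532501) (nat_lit 1) (.e (nat_lit 57690) (nat_lit 156) .nil))))))) (.g (nat_lit 6) .nil .nil)))) (.nd (nat_lit 5) 
(.lf (nat_lit 251165) (.g (nat_lit 2782) (.e (nat_lit 163875) (nat_lit 3) (.e (nat_lit 204837) (nat_lit 20) (.e (nat_lit 114714) (nat_lit 22) (.e (nat_lit 90172) (nat_lit 14) (.e (nat_lit 180243) (nat_lit 5) (.e (nat_lit 532503) (nat_lit 1) (.e (nat_lit 57686) (nat_lit 156) .nil))))))) (.g (nat_lit 4) .nil .nil))) 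
(.lf (nat_lit 251197) (.g (nat_lit 5713) (.e (nat_lit 163875) (nat_lit 3) (.e (nat_lit 204837) (nat_lit 20) (.e (nat_lit 114714) (nat_lit 22) (.e (nat_lit 90174) (nat_lit 14) (.e (nat_lit 180243) (nat_lit 5) (.e (nat_lit 532499) (nat_lit 1) (.e (nat_lit 57688) (nat_lit 156) .nil))))))) (.g (nat_lit 7) .nil .nil))))))) (.nd (nat_lit 2) (.nd (nat_lit 3) (.nd (nat_lit 4) (.nd (nat_lit 5) 
(.lf (nat_lit 251139) (.g (nat_lit 3743) (.e (nat_lit 163875) (nat_lit 3) (.e (nat_lit 204837) (nat_lit 20) (.e (nat_lit 114714) (nat_lit 22) (.e (nat_lit 90170) (nat_lit 13) (.e (nat_lit 172065) (nat_lit 3) (.e (nat_lit 204829) (nat_lit 18) (.e (nat_lit 57691) (nat_lit 156) .nil))))))) (.g (nat_lit 5) .nil .nil))) 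
(.lf (nat_lit 251171) (.g (nat_lit 3367) (.e (nat_lit 163875) (nat_lit 3) (.e (nat_lit 204837) (nat_lit 20) (.e (nat_lit 114714) (nat_lit 22) (.e (nat_lit 90172) (nat_lit 14) (.e (nat_lit 180243) (nat_lit 5) (.e (nat_lit 532504) (nat_lit 1) (.e (nat_lit 57689) (nat_lit 156) .nil))))))) (.g (nat_lit 4) .nil .nil)))) (.nd (nat_lit 5) 
(.lf (nat_lit 251155) (.g (nat_lit 1281) (.e (nat_lit 163875) (nat_lit 3) (.e (nat_lit 204837) (nat_lit 20) (.e (nat_lit 114714) (nat_lit 22) (.e (nat_lit 90172) (nat_lit 14) .nil)))) .nil)) 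
(.lf (nat_lit 251187) (.g (nat_lit 4222) (.e (nat_lit 163875) (nat_lit 3) (.e (nat_lit 204837) (nat_lit 20) (.e (nat_lit 114714) (nat_lit 22) (.e (nat_lit 90172) (nat_lit 14) (.e (nat_lit 180244) (nat_lit 5) (.e (nat_lit 532503) (nat_lit 1) (.e (nat_lit 57687) (nat_lit 156) .nil))))))) (.g (nat_lit 5) .nil .nil))))) (.nd (nat_lit 4) (.nd (nat_lit 5) 
(.lf (nat_lit 251147) (.g (nat_lit 3422) (.e (nat_lit 163875) (nat_lit 3) (.e (nat_lit 204837) (nat_lit 20) (.e (nat_lit 114714) (nat_lit 22) (.e (nat_lit 90170) (nat_lit 13) (.e (nat_lit 172067) (nat_lit 3) (.e (nat_lit 204829) (nat_lit 18) (.e (nat_lit 57688) (nat_lit 156) .nil))))))) (.g (nat_lit 5) .nil .nil))) 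
(.lf (nat_lit 251179) (.g (nat_lit 3006) (.e (nat_lit 163875) (nat_lit 3) (.e (nat_lit 204837) (nat_lit 20) (.e (nat_lit 114714) (nat_lit 22) (.e (nat_lit 90172) (nat_lit 14) (.e (nat_lit 180244) (nat_lit 5) (.e (nat_lit 532500) (nat_lit 1) (.e (nat_lit 57692) (nat_lit 156) .nil))))))) (.g (nat_lit 4) .nil .nil)))) (.nd (nat_lit 5) 
(.lf (nat_lit 251163) (.g (nat_lit 2925) (.e (nat_lit 163875) (nat_lit 3) (.e (nat_lit 204837) (nat_lit 20) (.e (nat_lit 114714) (nat_lit 22) (.e (nat_lit 90172) (nat_lit 14) (.e (nat_lit 180243) (nat_lit 5) (.e (nat_lit 532502) (nat_lit 1) (.e (nat_lit 57692) (nat_lit 156) .nil))))))) (.g (nat_lit 4) .nil .nil))) 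
(.lf (nat_lit 251195) (.g (nat_lit 4895) (.e (nat_lit 163875) (nat_lit 3) (.e (nat_lit 204837) (nat_lit 20) (.e (nat_lit 114714) (nat_lit 22) (.e (nat_lit 90174) (nat_lit 14) (.e (nat_lit 180243) (nat_lit 5) (.e (nat_lit 532499) (nat_lit 1) (.e (nat_lit 57686) (nat_lit 156) .nil))))))) (.g (nat_lit 0) .nil .nil)))))) (.nd (nat_lit 3) (.nd (nat_lit 4) (.nd (nat_lit 5) 
(.lf (nat_lit 251143) (.g (nat_lit 3547) (.e (nat_lit 163875) (nat_lit 3) (.e (nat_lit 204837) (nat_lit 20) (.e (nat_lit 114714) (nat_lit 22) (.e (nat_lit 90170) (nat_lit 13) (.e (nat_lit 172065) (nat_lit 3) (.e (nat_lit 204830) (nat_lit 18) (.e (nat_lit 57690) (nat_lit 156) .nil))))))) (.g (nat_lit 5) .nil .nil))) 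
(.lf (nat_lit 251175) (.g (nat_lit 3941) (.e (nat_lit 163875) (nat_lit 3) (.e (nat_lit 204837) (nat_lit 20) (.e (nat_lit 114714) (nat_lit 22) (.e (nat_lit 90172) (nat_lit 14) (.e (nat_lit 180244) (nat_lit 5) (.e (nat_lit 532499) (nat_lit 1) (.e (nat_lit 57687) (nat_lit 156) .nil))))))) (.g (nat_lit 5) .nil .nil)))) (.nd (nat_lit 5) 
(.lf (nat_lit 251159) (.g (nat_lit 4243) (.e (nat_lit 163875) (nat_lit 3) (.e (nat_lit 204837) (nat_lit 20) (.e (nat_lit 114714) (nat_lit 22) (.e (nat_lit 90172) (nat_lit 14) (.e (nat_lit 180243) (nat_lit 5) (.e (nat_lit 532499) (nat_lit 1) (.e (nat_lit 57692) (nat_lit 156) .nil))))))) (.g (nat_lit 6) .nil .nil))) 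
(.lf (nat_lit 251191) (.g (nat_lit 2488) (.e (nat_lit 163875) (nat_lit 3) (.e (nat_lit 204837) (nat_lit 20) (.e (nat_lit 114714) (nat_lit 22) (.e (nat_lit 90172) (nat_lit 14) (.e (nat_lit 180244) (nat_lit 5) (.e (nat_lit 532504) (nat_lit 1) (.e (nat_lit 57685) (nat_lit 156) .nil))))))) (.g (nat_lit 4) .nil .nil))))) (.nd (nat_lit 4) (.nd (nat_lit 5) 
(.lf (nat_lit 251151) (.g (nat_lit 3137) (.e (nat_lit 163875) (nat_lit 3) (.e (nat_lit 204837) (nat_lit 20) (.e (nat_lit 114714) (nat_lit 22) (.e (nat_lit 90170) (nat_lit 13) (.e (nat_lit 172067) (nat_lit 3) (.e (nat_lit 204830) (nat_lit 18) (.e (nat_lit 57689) (nat_lit 156) .nil))))))) (.g (nat_lit 4) .nil .nil))) 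
(.lf (nat_lit 251183) (.g (nat_lit 2670) (.e (nat_lit 163875) (nat_lit 3) (.e (nat_lit 204837) (nat_lit 20) (.e (nat_lit 114714) (nat_lit 22) (.e (nat_lit 90172) (nat_lit 14) (.e (nat_lit 180244) (nat_lit 5) (.e (nat_lit 532502) (nat_lit 1) (.e (nat_lit 57688) (nat_lit 156) .nil))))))) (.g (nat_lit 4) .nil .nil)))) (.nd (nat_lit 5) 
(.lf (nat_lit 251167) (.g (nat_lit 4254) (.e (nat_lit 163875) (nat_lit 3) (.e (nat_lit 204837) (nat_lit 20) (.e (nat_lit 114714) (nat_lit 22) (.e (nat_lit 90172) (nat_lit 14) (.e (nat_lit 180243) (nat_lit 5) (.e (nat_lit 532503) (nat_lit 1) (.e (nat_lit 57688) (nat_lit 156) .nil))))))) (.g (nat_lit 6) .nil .nil))) 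
(.lf (nat_lit 251199) (.g (nat_lit 5112) (.e (nat_lit 163875) (nat_lit 3) (.e (nat_lit 204837) (nat_lit 20) (.e (nat_lit 114714) (nat_lit 22) (.e (nat_lit 90174) (nat_lit 14) (.e (nat_lit 180243) (nat_lit 5) (.e (nat_lit 532499) (nat_lit 1) (.e (nat_lit 57692) (nat_lit 156) .nil))))))) (.g (nat_lit 7) .nil .nil)))))))))

noncomputable def tv3256 : DT := (.nd (nat_lit 0) (.nd (nat_lit 1) (.nd (nat_lit 2) (.nd (nat_lit 3) (.nd (nat_lit 4) (.nd (nat_lit 5) 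
(.lf (nat_lit 251200) (.g (nat_lit 2524) (.e (nat_lit 163875) (nat_lit 3) (.e (nat_lit 204837) (nat_lit 20) (.e (nat_lit 114714) (nat_lit 22) (.e (nat_lit 90174) (nat_lit 14) (.e (nat_lit 180243) (nat_lit 5) (.e (nat_lit 532500) (nat_lit 1) (.e (nat_lit 57692) (nat_lit 156) .nil))))))) (.g (nat_lit 4) .nil .nil))) 
(.lf (nat_lit 251232) (.g (nat_lit 2794) (.e (nat_lit 163875) (nat_lit 3) (.e (nat_lit 204837) (nat_lit 20) (.e (nat_lit 114716) (nat_lit 22) (.e (nat_lit 90172) (nat_lit 14) (.e (nat_lit 180243) (nat_lit 5) (.e (nat_lit 532503) (nat_lit 1) (.e (nat_lit 57685) (nat_lit 156) .nil))))))) (.g (nat_lit 5) .nil .nil)))) (.nd (nat_lit 5) 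
(.lf (nat_lit 251216) (.g (nat_lit 5107) (.e (nat_lit 163875) (nat_lit 3) (.e (nat_lit 204837) (nat_lit 20) (.e (nat_lit 114714) (nat_lit 22) (.e (nat_lit 90174) (nat_lit 14) (.e (nat_lit 180243) (nat_lit 5) (.e (nat_lit 532504) (nat_lit 1) (.e (nat_lit 57692) (nat_lit 156) .nil))))))) (.g (nat_lit 7) .nil .nil))) 
(.lf (nat_lit 251248) (.g (nat_lit 5097) (.e (nat_lit 163875) (nat_lit 3) (.e (nat_lit 204837) (nat_lit 20) (.e (nat_lit 114716) (nat_lit 22) (.e (nat_lit 90174) (nat_lit 14) (.e (nat_lit 180243) (nat_lit 5) (.e (nat_lit 532499) (nat_lit 1) (.e (nat_lit 57688) (nat_lit 156) .nil))))))) (.g (nat_lit 0) .nil .nil))))) (.nd (nat_lit 4) (.nd (nat_lit 5) 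
(.lf (nat_lit 251208) (.g (nat_lit 4657) (.e (nat_lit 163875) (nat_lit 3) (.e (nat_lit 204837) (nat_lit 20) (.e (nat_lit 114714) (nat_lit 22) (.e (nat_lit 90174) (nat_lit 14) (.e (nat_lit 180243) (nat_lit 5) (.e (nat_lit 532503) (nat_lit 1) (.e (nat_lit 57685) (nat_lit 156) .nil))))))) (.g (nat_lit 7) .nil .nil))) 
(.lf (nat_lit 251240) (.g (nat_lit 3382) (.e (nat_lit 163875) (nat_lit 3) (.e (nat_lit 204837) (nat_lit 20) (.e (nat_lit 114716) (nat_lit 22) (.e (nat_lit 90172) (nat_lit 14) (.e (nat_lit 180244) (nat_lit 5) (.e (nat_lit 532501) (nat_lit 1) (.e (nat_lit 57689) (nat_lit 156) .nil))))))) (.g (nat_lit 6) .nil .nil)))) (.nd (nat_lit 5) 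
(.lf (nat_lit 251224) (.g (nat_lit 2622) (.e (nat_lit 163875) (nat_lit 3) (.e (nat_lit 204837) (nat_lit 20) (.e (nat_lit 114714) (nat_lit 22) (.e (nat_lit 90185) (nat_lit 17) (.e (nat_lit 237594) (nat_lit 3) (.e (nat_lit 204829) (nat_lit 18) (.e (nat_lit 57691) (nat_lit 156) .nil))))))) (.g (nat_lit 4) .nil .nil))) 
(.lf (nat_lit 251256) (.g (nat_lit 4475) (.e (nat_lit 163875) (nat_lit 3) (.e (nat_lit 204837) (nat_lit 20) (.e (nat_lit 114716) (nat_lit 22) (.e (nat_lit 90174) (nat_lit 14) (.e (nat_lit 180243) (nat_lit 5) (.e (nat_lit 532504) (nat_lit 1) (.e (nat_lit 57692) (nat_lit 156) .nil))))))) (.g (nat_lit 7) .nil .nil)))))) (.nd (nat_lit 3) (.nd (nat_lit 4) (.nd (nat_lit 5) 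
(.lf (nat_lit 251204) (.g (nat_lit 4674) (.e (nat_lit 163875) (nat_lit 3) (.e (nat_lit 204837) (nat_lit 20) (.e (nat_lit 114714) (nat_lit 22) (.e (nat_lit 90174) (nat_lit 14) (.e (nat_lit 180243) (nat_lit 5) (.e (nat_lit 532501) (nat_lit 1) (.e (nat_lit 57692) (nat_lit 156) .nil))))))) (.g (nat_lit 7) .nil .nil))) 
(.lf (nat_lit 251236) (.g (nat_lit 3826) (.e (nat_lit 163875) (nat_lit 3) (.e (nat_lit 204837) (nat_lit 20) (.e (nat_lit 114716) (nat_lit 22) (.e (nat_lit 90172) (nat_lit 14) (.e (nat_lit 180243) (nat_lit 5) (.e (nat_lit 532504) (nat_lit 1) (.e (nat_lit 57692) (nat_lit 156) .nil))))))) (.g (nat_lit 6) .nil .nil)))) (.nd (nat_lit 5) 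
(.lf (nat_lit 251220) (.g (nat_lit 2387) (.e (nat_lit 163875) (nat_lit 3) (.e (nat_lit 204837) (nat_lit 20) (.e (nat_lit 114714) (nat_lit 22) (.e (nat_lit 90185) (nat_lit 17) (.e (nat_lit 237592) (nat_lit 3) (.e (nat_lit 204829) (nat_lit 18) (.e (nat_lit 57692) (nat_lit 156) .nil))))))) (.g (nat_lit 4) .nil .nil))) 
(.lf (nat_lit 251252) (.g (nat_lit 3345) (.e (nat_lit 163875) (nat_lit 3) (.e (nat_lit 204837) (nat_lit 20) (.e (nat_lit 114716) (nat_lit 22) (.e (nat_lit 90174) (nat_lit 14) (.e (nat_lit 180243) (nat_lit 5) (.e (nat_lit 532503) (nat_lit 1) (.e (nat_lit 57687) (nat_lit 156) .nil))))))) (.g (nat_lit 5) .nil .nil))))) (.nd (nat_lit 4) (.nd (nat_lit 5) 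
(.lf (nat_lit 251212) (.g (nat_lit 4257) (.e (nat_lit 163875) (nat_lit 3) (.e (nat_lit 204837) (nat_lit 20) (.e (nat_lit 114714) (nat_lit 22) (.e (nat_lit 90174) (nat_lit 14) (.e (nat_lit 180243) (nat_lit 5) (.e (nat_lit 532503) (nat_lit 1) (.e (nat_lit 57689) (nat_lit 156) .nil))))))) (.g (nat_lit 6) .nil .nil))) 
(.lf (nat_lit 251244) (.g (nat_lit 3012) (.e (nat_lit 163875) (nat_lit 3) (.e (nat_lit 204837) (nat_lit 20) (.e (nat_lit 114716) (nat_lit 22) (.e (nat_lit 90172) (nat_lit 14) (.e (nat_lit 180244) (nat_lit 5) (.e (nat_lit 532503) (nat_lit 1) (.e (nat_lit 57686) (nat_lit 156) .nil))))))) (.g (nat_lit 5) .nil .nil)))) (.nd (nat_lit 5) 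
(.lf (nat_lit 251228) (.g (nat_lit 3198) (.e (nat_lit 163875) (nat_lit 3) (.e (nat_lit 204837) (nat_lit 20) (.e (nat_lit 114716) (nat_lit 22) (.e (nat_lit 90172) (nat_lit 14) (.e (nat_lit 180243) (nat_lit 5) (.e (nat_lit 532499) (nat_lit 1) (.e (nat_lit 57692) (nat_lit 156) .nil))))))) (.g (nat_lit 5) .nil .nil))) 
(.lf (nat_lit 251260) (.g (nat_lit 3723) (.e (nat_lit 163875) (nat_lit 3) (.e (nat_lit 204837) (nat_lit 20) (.e (nat_lit 114718) (nat_lit 23) (.e (nat_lit 98367) (nat_lit 27) (.e (nat_lit 434231) (nat_lit 23) (.e (nat_lit 532483) (nat_lit 0) (.e (nat_lit 1036) (nat_lit 81) (.e (nat_lit 7287) (nat_lit 386) .nil)))))))) (.g (nat_lit 5) .nil .nil))))))) 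
(.nd (nat_lit 2) (.nd (nat_lit 3) (.nd (nat_lit 4) (.nd (nat_lit 5) 
(.lf (nat_lit 251202) (.g (nat_lit 4755) (.e (nat_lit 163875) (nat_lit 3) (.e (nat_lit 204837) (nat_lit 20) (.e (nat_lit 114714) (nat_lit 22) (.e (nat_lit 90174) (nat_lit 14) (.e (nat_lit 180243) (nat_lit 5) (.e (nat_lit 532501) (nat_lit 1) (.e (nat_lit 57689) (nat_lit 156) .nil))))))) (.g (nat_lit 7) .nil .nil))) 
(.lf (nat_lit 251234) (.g (nat_lit 2559) (.e (nat_lit 163875) (nat_lit 3) (.e (nat_lit 204837) (nat_lit 20) (.e (nat_lit 114716) (nat_lit 22) (.e (nat_lit 90172) (nat_lit 14) (.e (nat_lit 180243) (nat_lit 5) (.e (nat_lit 532504) (nat_lit 1) (.e (nat_lit 57689) (nat_lit 156) .nil))))))) (.g (nat_lit 4) .nil .nil)))) (.nd (nat_lit 5) 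
(.lf (nat_lit 251218) (.g (nat_lit 2350) (.e (nat_lit 163875) (nat_lit 3) (.e (nat_lit 204837) (nat_lit 20) (.e (nat_lit 114714) (nat_lit 22) (.e (nat_lit 90185) (nat_lit 17) (.e (nat_lit 237592) (nat_lit 3) (.e (nat_lit 204829) (nat_lit 18) (.e (nat_lit 57688) (nat_lit 156) .nil))))))) (.g (nat_lit 4) .nil .nil))) 
(.lf (nat_lit 251250) (.g (nat_lit 1963) (.e (nat_lit 163875) (nat_lit 3) (.e (nat_lit 204837) (nat_lit 20) (.e (nat_lit 114716) (nat_lit 22) (.e (nat_lit 90174) (nat_lit 14) (.e (nat_lit 180243) (nat_lit 5) (.e (nat_lit 532502) (nat_lit 1) (.e (nat_lit 57686) (nat_lit 156) .nil))))))) (.g (nat_lit 4) .nil .nil))))) (.nd (nat_lit 4) (.nd (nat_lit 5) 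
(.lf (nat_lit 251210) (.g (nat_lit 4012) (.e (nat_lit 163875) (nat_lit 3) (.e (nat_lit 204837) (nat_lit 20) (.e (nat_lit 114714) (nat_lit 22) (.e (nat_lit 90174) (nat_lit 14) (.e (nat_lit 180243) (nat_lit 5) (.e (nat_lit 532503) (nat_lit 1) (.e (nat_lit 57687) (nat_lit 156) .nil))))))) (.g (nat_lit 5) .nil .nil))) 
(.lf (nat_lit 251242) (.g (nat_lit 3230) (.e (nat_lit 163875) (nat_lit 3) (.e (nat_lit 204837) (nat_lit 20) (.e (nat_lit 114716) (nat_lit 22) (.e (nat_lit 90172) (nat_lit 14) (.e (nat_lit 180244) (nat_lit 5) (.e (nat_lit 532501) (nat_lit 1) (.e (nat_lit 57692) (nat_lit 156) .nil))))))) (.g (nat_lit 6) .nil .nil)))) (.nd (nat_lit 5) 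
(.lf (nat_lit 251226) (.g (nat_lit 2928) (.e (nat_lit 163875) (nat_lit 3) (.e (nat_lit 204837) (nat_lit 20) (.e (nat_lit 114714) (nat_lit 22) (.e (nat_lit 90185) (nat_lit 17) (.e (nat_lit 237594) (nat_lit 3) (.e (nat_lit 204830) (nat_lit 18) (.e (nat_lit 57691) (nat_lit 156) .nil))))))) (.g (nat_lit 4) .nil .nil))) 
(.lf (nat_lit 251258) (.g (nat_lit 1936) (.e (nat_lit 163875) (nat_lit 3) (.e (nat_lit 204837) (nat_lit 20) (.e (nat_lit 114718) (nat_lit 23) (.e (nat_lit 98365) (nat_lit 26) (.e (nat_lit 426138) (nat_lit 3) .nil))))) .nil))))) (.nd (nat_lit 3) (.nd (nat_lit 4) (.nd (nat_lit 5) 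
(.lf (nat_lit 251206) (.g (nat_lit 3150) (.e (nat_lit 163875) (nat_lit 3) (.e (nat_lit 204837) (nat_lit 20) (.e (nat_lit 114714) (nat_lit 22) (.e (nat_lit 90174) (nat_lit 14) (.e (nat_lit 180243) (nat_lit 5) (.e (nat_lit 532502) (nat_lit 1) (.e (nat_lit 57688) (nat_lit 156) .nil))))))) (.g (nat_lit 5) .nil .nil))) 
(.lf (nat_lit 251238) (.g (nat_lit 5036) (.e (nat_lit 163875) (nat_lit 3) (.e (nat_lit 204837) (nat_lit 20) (.e (nat_lit 114716) (nat_lit 22) (.e (nat_lit 90172) (nat_lit 14) (.e (nat_lit 180244) (nat_lit 5) (.e (nat_lit 532499) (nat_lit 1) (.e (nat_lit 57688) (nat_lit 156) .nil))))))) (.g (nat_lit 0) .nil .nil)))) (.nd (nat_lit 5) 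
(.lf (nat_lit 251222) (.g (nat_lit 2358) (.e (nat_lit 163875) (nat_lit 3) (.e (nat_lit 204837) (nat_lit 20) (.e (nat_lit 114714) (nat_lit 22) (.e (nat_lit 90185) (nat_lit 17) (.e (nat_lit 237592) (nat_lit 3) (.e (nat_lit 204830) (nat_lit 18) (.e (nat_lit 57692) (nat_lit 156) .nil))))))) (.g (nat_lit 4) .nil .nil))) 
(.lf (nat_lit 251254) (.g (nat_lit 3793) (.e (nat_lit 163875) (nat_lit 3) (.e (nat_lit 204837) (nat_lit 20) (.e (nat_lit 114716) (nat_lit 22) (.e (nat_lit 90174) (nat_lit 14) (.e (nat_lit 180243) (nat_lit 5) (.e (nat_lit 532504) (nat_lit 1) (.e (nat_lit 57689) (nat_lit 156) .nil))))))) (.g (nat_lit 6) .nil .nil))))) (.nd (nat_lit 4) (.nd (nat_lit 5) 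
(.lf (nat_lit 251214) (.g (nat_lit 4187) (.e (nat_lit 163875) (nat_lit 3) (.e (nat_lit 204837) (nat_lit 20) (.e (nat_lit 114714) (nat_lit 22) (.e (nat_lit 90174) (nat_lit 14) (.e (nat_lit 180243) (nat_lit 5) (.e (nat_lit 532504) (nat_lit 1) (.e (nat_lit 57689) (nat_lit 156) .nil))))))) (.g (nat_lit 6) .nil .nil))) 
(.lf (nat_lit 251246) (.g (nat_lit 3921) (.e (nat_lit 163875) (nat_lit 3) (.e (nat_lit 204837) (nat_lit 20) (.e (nat_lit 114716) (nat_lit 22) (.e (nat_lit 90172) (nat_lit 14) (.e (nat_lit 180244) (nat_lit 5) (.e (nat_lit 532503) (nat_lit 1) (.e (nat_lit 57688) (nat_lit 156) .nil))))))) (.g (nat_lit 6) .nil .nil)))) (.nd (nat_lit 5) 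
(.lf (nat_lit 251230) (.g (nat_lit 2778) (.e (nat_lit 163875) (nat_lit 3) (.e (nat_lit 204837) (nat_lit 20) (.e (nat_lit 114716) (nat_lit 22) (.e (nat_lit 90172) (nat_lit 14) (.e (nat_lit 180243) (nat_lit 5) (.e (nat_lit 532501) (nat_lit 1) (.e (nat_lit 57690) (nat_lit 156) .nil))))))) (.g (nat_lit 5) .nil .nil))) 
(.lf (nat_lit 251262) (.g (nat_lit 2191) (.e (nat_lit 163875) (nat_lit 3) (.e (nat_lit 204837) (nat_lit 20) (.e (nat_lit 114719) (nat_lit 23) (.e (nat_lit 98359) (nat_lit 26) (.e (nat_lit 426132) (nat_lit 3) .nil))))) .nil))))))) (.nd (nat_lit 1) (.nd (nat_lit 2) (.nd (nat_lit 3) (.nd (nat_lit 4) (.nd (nat_lit 5) 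
(.lf (nat_lit 251201) (.g (nat_lit 3868) (.e (nat_lit 163875) (nat_lit 3) (.e (nat_lit 204837) (nat_lit 20) (.e (nat_lit 114714) (nat_lit 22) (.e (nat_lit 90174) (nat_lit 14) (.e (nat_lit 180243) (nat_lit 5) (.e (nat_lit 532501) (nat_lit 1) (.e (nat_lit 57685) (nat_lit 156) .nil))))))) (.g (nat_lit 6) .nil .nil))) 
(.lf (nat_lit 251233) (.g (nat_lit 2593) (.e (nat_lit 163875) (nat_lit 3) (.e (nat_lit 204837) (nat_lit 20) (.e (nat_lit 114716) (nat_lit 22) (.e (nat_lit 90172) (nat_lit 14) (.e (nat_lit 180243) (nat_lit 5) (.e (nat_lit 532503) (nat_lit 1) (.e (nat_lit 57689) (nat_lit 156) .nil))))))) (.g (nat_lit 4) .nil .nil)))) (.nd (nat_lit 5) 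
(.lf (nat_lit 251217) (.g (nat_lit 2383) (.e (nat_lit 163875) (nat_lit 3) (.e (nat_lit 204837) (nat_lit 20) (.e (nat_lit 114714) (nat_lit 22) (.e (nat_lit 90185) (nat_lit 17) (.e (nat_lit 237592) (nat_lit 3) (.e (nat_lit 204829) (nat_lit 18) (.e (nat_lit 57686) (nat_lit 156) .nil))))))) (.g (nat_lit 4) .nil .nil))) 
(.lf (nat_lit 251249) (.g (nat_lit 3954) (.e (nat_lit 163875) (nat_lit 3) (.e (nat_lit 204837) (nat_lit 20) (.e (nat_lit 114716) (nat_lit 22) (.e (nat_lit 90174) (nat_lit 14) (.e (nat_lit 180243) (nat_lit 5) (.e (nat_lit 532501) (nat_lit 1) (.e (nat_lit 57690) (nat_lit 156) .nil))))))) (.g (nat_lit 7) .nil .nil))))) (.nd (nat_lit 4) (.nd (nat_lit 5) 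
(.lf (nat_lit 251209) (.g (nat_lit 3639) (.e (nat_lit 163875) (nat_lit 3) (.e (nat_lit 204837) (nat_lit 20) (.e (nat_lit 114714) (nat_lit 22) (.e (nat_lit 90174) (nat_lit 14) (.e (nat_lit 180243) (nat_lit 5) (.e (nat_lit 532503) (nat_lit 1) (.e (nat_lit 57686) (nat_lit 156) .nil))))))) (.g (nat_lit 5) .nil .nil))) 
(.lf (nat_lit 251241) (.g (nat_lit 3425) (.e (nat_lit 163875) (nat_lit 3) (.e (nat_lit 204837) (nat_lit 20) (.e (nat_lit 114716) (nat_lit 22) (.e (nat_lit 90172) (nat_lit 14) (.e (nat_lit 180244) (nat_lit 5) (.e (nat_lit 532501) (nat_lit 1) (.e (nat_lit 57690) (nat_lit 156) .nil))))))) (.g (nat_lit 6) .nil .nil)))) (.nd (nat_lit 5) 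
(.lf (nat_lit 251225) (.g (nat_lit 2708) (.e (nat_lit 163875) (nat_lit 3) (.e (nat_lit 204837) (nat_lit 20) (.e (nat_lit 114714) (nat_lit 22) (.e (nat_lit 90185) (nat_lit 17) (.e (nat_lit 237594) (nat_lit 3) (.e (nat_lit 204829) (nat_lit 18) (.e (nat_lit 57692) (nat_lit 156) .nil))))))) (.g (nat_lit 4) .nil .nil))) 
(.lf (nat_lit 251257) (.g (nat_lit 3496) (.e (nat_lit 163875) (nat_lit 3) (.e (nat_lit 204837) (nat_lit 20) (.e (nat_lit 114716) (nat_lit 22) (.e (nat_lit 90185) (nat_lit 17) (.e (nat_lit 237594) (nat_lit 3) (.e (nat_lit 204829) (nat_lit 18) (.e (nat_lit 57686) (nat_lit 156) .nil))))))) (.g (nat_lit 6) .nil .nil)))))) (.nd (nat_lit 3) (.nd (nat_lit 4) (.nd (nat_lit 5) 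
(.lf (nat_lit 251205) (.g (nat_lit 2685) (.e (nat_lit 163875) (nat_lit 3) (.e (nat_lit 204837) (nat_lit 20) (.e (nat_lit 114714) (nat_lit 22) (.e (nat_lit 90174) (nat_lit 14) (.e (nat_lit 180243) (nat_lit 5) (.e (nat_lit 532502) (nat_lit 1) (.e (nat_lit 57686) (nat_lit 156) .nil))))))) (.g (nat_lit 4) .nil .nil))) 
(.lf (nat_lit 251237) (.g (nat_lit 3155) (.e (nat_lit 163875) (nat_lit 3) (.e (nat_lit 204837) (nat_lit 20) (.e (nat_lit 114716) (nat_lit 22) (.e (nat_lit 90172) (nat_lit 14) (.e (nat_lit 180244) (nat_lit 5) (.e (nat_lit 532499) (nat_lit 1) (.e (nat_lit 57687) (nat_lit 156) .nil))))))) (.g (nat_lit 5) .nil .nil)))) (.nd (nat_lit 5) 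
(.lf (nat_lit 251221) (.g (nat_lit 2667) (.e (nat_lit 163875) (nat_lit 3) (.e (nat_lit 204837) (nat_lit 20) (.e (nat_lit 114714) (nat_lit 22) (.e (nat_lit 90185) (nat_lit 17) (.e (nat_lit 237592) (nat_lit 3) (.e (nat_lit 204830) (nat_lit 18) (.e (nat_lit 57691) (nat_lit 156) .nil))))))) (.g (nat_lit 4) .nil .nil))) 
(.lf (nat_lit 251253) (.g (nat_lit 3829) (.e (nat_lit 163875) (nat_lit 3) (.e (nat_lit 204837) (nat_lit 20) (.e (nat_lit 114716) (nat_lit 22) (.e (nat_lit 90174) (nat_lit 14) (.e (nat_lit 180243) (nat_lit 5) (.e (nat_lit 532503) (nat_lit 1) (.e (nat_lit 57689) (nat_lit 156) .nil))))))) (.g (nat_lit 6) .nil .nil))))) (.nd (nat_lit 4) (.nd (nat_lit 5) 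
(.lf (nat_lit 251213) (.g (nat_lit 3414) (.e (nat_lit 163875) (nat_lit 3) (.e (nat_lit 204837) (nat_lit 20) (.e (nat_lit 114714) (nat_lit 22) (.e (nat_lit 90174) (nat_lit 14) (.e (nat_lit 180243) (nat_lit 5) (.e (nat_lit 532503) (nat_lit 1) (.e (nat_lit 57692) (nat_lit 156) .nil))))))) (.g (nat_lit 5) .nil .nil))) 
(.lf (nat_lit 251245) (.g (nat_lit 3454) (.e (nat_lit 163875) (nat_lit 3) (.e (nat_lit 204837) (nat_lit 20) (.e (nat_lit 114716) (nat_lit 22) (.e (nat_lit 90172) (nat_lit 14) (.e (nat_lit 180244) (nat_lit 5) (.e (nat_lit 532503) (nat_lit 1) (.e (nat_lit 57687) (nat_lit 156) .nil))))))) (.g (nat_lit 5) .nil .nil)))) (.nd (nat_lit 5) 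
(.lf (nat_lit 251229) (.g (nat_lit 3029) (.e (nat_lit 163875) (nat_lit 3) (.e (nat_lit 204837) (nat_lit 20) (.e (nat_lit 114716) (nat_lit 22) (.e (nat_lit 90172) (nat_lit 14) (.e (nat_lit 180243) (nat_lit 5) (.e (nat_lit 532501) (nat_lit 1) (.e (nat_lit 57689) (nat_lit 156) .nil))))))) (.g (nat_lit 5) .nil .nil))) 
(.lf (nat_lit 251261) (.g (nat_lit 4052) (.e (nat_lit 163875) (nat_lit 3) (.e (nat_lit 204837) (nat_lit 20) (.e (nat_lit 114718) (nat_lit 23) (.e (nat_lit 98367) (nat_lit 27) (.e (nat_lit 434231) (nat_lit 23) (.e (nat_lit 532483) (nat_lit 0) (.e (nat_lit 1036) (nat_lit 81) (.e (nat_lit 7289) (nat_lit 386) .nil)))))))) (.g (nat_lit 5) .nil .nil))))))) 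
(.nd (nat_lit 2) (.nd (nat_lit 3) (.nd (nat_lit 4) (.nd (nat_lit 5) 
(.lf (nat_lit 251203) (.g (nat_lit 4600) (.e (nat_lit 163875) (nat_lit 3) (.e (nat_lit 204837) (nat_lit 20) (.e (nat_lit 114714) (nat_lit 22) (.e (nat_lit 90174) (nat_lit 14) (.e (nat_lit 180243) (nat_lit 5) (.e (nat_lit 532501) (nat_lit 1) (.e (nat_lit 57690) (nat_lit 156) .nil))))))) (.g (nat_lit 7) .nil .nil))) 
(.lf (nat_lit 251235) (.g (nat_lit 3048) (.e (nat_lit 163875) (nat_lit 3) (.e (nat_lit 204837) (nat_lit 20) (.e (nat_lit 114716) (nat_lit 22) (.e (nat_lit 90172) (nat_lit 14) (.e (nat_lit 180243) (nat_lit 5) (.e (nat_lit 532504) (nat_lit 1) (.e (nat_lit 57690) (nat_lit 156) .nil))))))) (.g (nat_lit 5) .nil .nil)))) (.nd (nat_lit 5) 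
(.lf (nat_lit 251219) (.g (nat_lit 2430) (.e (nat_lit 163875) (nat_lit 3) (.e (nat_lit 204837) (nat_lit 20) (.e (nat_lit 114714) (nat_lit 22) (.e (nat_lit 90185) (nat_lit 17) (.e (nat_lit 237592) (nat_lit 3) (.e (nat_lit 204829) (nat_lit 18) (.e (nat_lit 57691) (nat_lit 156) .nil))))))) (.g (nat_lit 4) .nil .nil))) 
(.lf (nat_lit 251251) (.g (nat_lit 4007) (.e (nat_lit 163875) (nat_lit 3) (.e (nat_lit 204837) (nat_lit 20) (.e (nat_lit 114716) (nat_lit 22) (.e (nat_lit 90174) (nat_lit 14) (.e (nat_lit 180243) (nat_lit 5) (.e (nat_lit 532503) (nat_lit 1) (.e (nat_lit 57685) (nat_lit 156) .nil))))))) (.g (nat_lit 7) .nil .nil))))) (.nd (nat_lit 4) (.nd (nat_lit 5) 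
(.lf (nat_lit 251211) (.g (nat_lit 4494) (.e (nat_lit 163875) (nat_lit 3) (.e (nat_lit 204837) (nat_lit 20) (.e (nat_lit 114714) (nat_lit 22) (.e (nat_lit 90174) (nat_lit 14) (.e (nat_lit 180243) (nat_lit 5) (.e (nat_lit 532503) (nat_lit 1) (.e (nat_lit 57688) (nat_lit 156) .nil))))))) (.g (nat_lit 7) .nil .nil))) 
(.lf (nat_lit 251243) (.g (nat_lit 2995) (.e (nat_lit 163875) (nat_lit 3) (.e (nat_lit 204837) (nat_lit 20) (.e (nat_lit 114716) (nat_lit 22) (.e (nat_lit 90172) (nat_lit 14) (.e (nat_lit 180244) (nat_lit 5) (.e (nat_lit 532502) (nat_lit 1) (.e (nat_lit 57692) (nat_lit 156) .nil))))))) (.g (nat_lit 5) .nil .nil)))) (.nd (nat_lit 5) 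
(.lf (nat_lit 251227) (.g (nat_lit 2647) (.e (nat_lit 163875) (nat_lit 3) (.e (nat_lit 204837) (nat_lit 20) (.e (nat_lit 114714) (nat_lit 22) (.e (nat_lit 90185) (nat_lit 17) (.e (nat_lit 237594) (nat_lit 3) (.e (nat_lit 204830) (nat_lit 18) (.e (nat_lit 57692) (nat_lit 156) .nil))))))) (.g (nat_lit 4) .nil .nil))) 
(.lf (nat_lit 251259) (.g (nat_lit 2692) (.e (nat_lit 163875) (nat_lit 3) (.e (nat_lit 204837) (nat_lit 20) (.e (nat_lit 114718) (nat_lit 23) (.e (nat_lit 98366) (nat_lit 27) (.e (nat_lit 434231) (nat_lit 23) (.e (nat_lit 532490) (nat_lit 0) (.e (nat_lit 1040) (nat_lit 81) (.e (nat_lit 7289) (nat_lit 386) .nil)))))))) (.g (nat_lit 4) .nil .nil)))))) 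
(.nd (nat_lit 3) (.nd (nat_lit 4) (.nd (nat_lit 5) 
(.lf (nat_lit 251207) (.g (nat_lit 4159) (.e (nat_lit 163875) (nat_lit 3) (.e (nat_lit 204837) (nat_lit 20) (.e (nat_lit 114714) (nat_lit 22) (.e (nat_lit 90174) (nat_lit 14) (.e (nat_lit 180243) (nat_lit 5) (.e (nat_lit 532502) (nat_lit 1) (.e (nat_lit 57692) (nat_lit 156) .nil))))))) (.g (nat_lit 6) .nil .nil))) 
(.lf (nat_lit 251239) (.g (nat_lit 2218) (.e (nat_lit 163875) (nat_lit 3) (.e (nat_lit 204837) (nat_lit 20) (.e (nat_lit 114716) (nat_lit 22) (.e (nat_lit 90172) (nat_lit 14) (.e (nat_lit 180244) (nat_lit 5) (.e (nat_lit 532500) (nat_lit 1) (.e (nat_lit 57692) (nat_lit 156) .nil))))))) (.g (nat_lit 4) .nil .nil)))) (.nd (nat_lit 5) 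
(.lf (nat_lit 251223) (.g (nat_lit 2520) (.e (nat_lit 163875) (nat_lit 3) (.e (nat_lit 204837) (nat_lit 20) (.e (nat_lit 114714) (nat_lit 22) (.e (nat_lit 90185) (nat_lit 17) (.e (nat_lit 237594) (nat_lit 3) (.e (nat_lit 204829) (nat_lit 18) (.e (nat_lit 57686) (nat_lit 156) .nil))))))) (.g (nat_lit 4) .nil .nil))) 
(.lf (nat_lit 251255) (.g (nat_lit 4140) (.e (nat_lit 163875) (nat_lit 3) (.e (nat_lit 204837) (nat_lit 20) (.e (nat_lit 114716) (nat_lit 22) (.e (nat_lit 90174) (nat_lit 14) (.e (nat_lit 180243) (nat_lit 5) (.e (nat_lit 532504) (nat_lit 1) (.e (nat_lit 57690) (nat_lit 156) .nil))))))) (.g (nat_lit 7) .nil .nil))))) (.nd (nat_lit 4) (.nd (nat_lit 5) 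
(.lf (nat_lit 251215) (.g (nat_lit 4750) (.e (nat_lit 163875) (nat_lit 3) (.e (nat_lit 204837) (nat_lit 20) (.e (nat_lit 114714) (nat_lit 22) (.e (nat_lit 90174) (nat_lit 14) (.e (nat_lit 180243) (nat_lit 5) (.e (nat_lit 532504) (nat_lit 1) (.e (nat_lit 57690) (nat_lit 156) .nil))))))) (.g (nat_lit 7) .nil .nil))) 
(.lf (nat_lit 251247) (.g (nat_lit 3877) (.e (nat_lit 163875) (nat_lit 3) (.e (nat_lit 204837) (nat_lit 20) (.e (nat_lit 114716) (nat_lit 22) (.e (nat_lit 90172) (nat_lit 14) (.e (nat_lit 180244) (nat_lit 5) (.e (nat_lit 532503) (nat_lit 1) (.e (nat_lit 57689) (nat_lit 156) .nil))))))) (.g (nat_lit 6) .nil .nil)))) (.nd (nat_lit 5) 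
(.lf (nat_lit 251231) (.g (nat_lit 2864) (.e (nat_lit 163875) (nat_lit 3) (.e (nat_lit 204837) (nat_lit 20) (.e (nat_lit 114716) (nat_lit 22) (.e (nat_lit 90172) (nat_lit 14) (.e (nat_lit 180243) (nat_lit 5) (.e (nat_lit 532501) (nat_lit 1) (.e (nat_lit 57692) (nat_lit 156) .nil))))))) (.g (nat_lit 5) .nil .nil))) 
(.lf (nat_lit 251263) (.g (nat_lit 2588) (.e (nat_lit 163875) (nat_lit 3) (.e (nat_lit 204837) (nat_lit 20) (.e (nat_lit 114719) (nat_lit 23) (.e (nat_lit 98359) (nat_lit 26) (.e (nat_lit 426132) (nat_lit 3) (.e (nat_lit 204830) (nat_lit 18) (.e (nat_lit 57692) (nat_lit 156) .nil))))))) (.g (nat_lit 4) .nil .nil)))))))))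

noncomputable def tv3257 : DT := (.nd (nat_lit 0) (.nd (nat_lit 1) (.nd (nat_lit 2) (.nd (nat_lit 3) (.nd (nat_lit 4) (.nd (nat_lit 5) 
(.lf (nat_lit 251264) (.g (nat_lit 2332) (.e (nat_lit 163875) (nat_lit 3) (.e (nat_lit 204837) (nat_lit 20) (.e (nat_lit 114719) (nat_lit 23) (.e (nat_lit 98365) (nat_lit 26) (.e (nat_lit 426132) (nat_lit 3) (.e (nat_lit 204830) (nat_lit 18) (.e (nat_lit 57692) (nat_lit 156) .nil))))))) (.g (nat_lit 4) .nil .nil))) 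
(.lf (nat_lit 251296) (.g (nat_lit 3280) (.e (nat_lit 163875) (nat_lit 3) (.e (nat_lit 204838) (nat_lit 20) (.e (nat_lit 114714) (nat_lit 22) (.e (nat_lit 90170) (nat_lit 13) (.e (nat_lit 172067) (nat_lit 3) (.e (nat_lit 204829) (nat_lit 18) (.e (nat_lit 57686) (nat_lit 156) .nil))))))) (.g (nat_lit 5) .nil .nil)))) (.nd (nat_lit 5) 
(.lf (nat_lit 251280) (.g (nat_lit 3293) (.e (nat_lit 163875) (nat_lit 3) (.e (nat_lit 204837) (nat_lit 20) (.e (nat_lit 114719) (nat_lit 23) (.e (nat_lit 98366) (nat_lit 27) (.e (nat_lit 434231) (nat_lit 23) (.e (nat_lit 532490) (nat_lit 0) (.e (nat_lit 1040) (nat_lit 81) (.e (nat_lit 7287) (nat_lit 386) .nil)))))))) (.g (nat_lit 4) .nil .nil))) 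
(.lf (nat_lit 251312) (.g (nat_lit 3394) (.e (nat_lit 163875) (nat_lit 3) (.e (nat_lit 204838) (nat_lit 20) (.e (nat_lit 114714) (nat_lit 22) (.e (nat_lit 90172) (nat_lit 14) (.e (nat_lit 180243) (nat_lit 5) (.e (nat_lit 532503) (nat_lit 1) (.e (nat_lit 57689) (nat_lit 156) .nil))))))) (.g (nat_lit 5) .nil .nil))))) (.nd (nat_lit 4) (.nd (nat_lit 5) 
(.lf (nat_lit 251272) (.g (nat_lit 2538) (.e (nat_lit 163875) (nat_lit 3) (.e (nat_lit 204837) (nat_lit 20) (.e (nat_lit 114719) (nat_lit 23) (.e (nat_lit 98365) (nat_lit 26) (.e (nat_lit 426137) (nat_lit 3) (.e (nat_lit 204830) (nat_lit 18) (.e (nat_lit 57692) (nat_lit 156) .nil))))))) (.g (nat_lit 4) .nil .nil))) 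
(.lf (nat_lit 251304) (.g (nat_lit 2762) (.e (nat_lit 163875) (nat_lit 3) (.e (nat_lit 204838) (nat_lit 20) (.e (nat_lit 114714) (nat_lit 22) (.e (nat_lit 90172) (nat_lit 14) (.e (nat_lit 180243) (nat_lit 5) (.e (nat_lit 532501) (nat_lit 1) (.e (nat_lit 57685) (nat_lit 156) .nil))))))) (.g (nat_lit 4) .nil .nil)))) (.nd (nat_lit 5) 
(.lf (nat_lit 251288) (.g (nat_lit 3405) (.e (nat_lit 163875) (nat_lit 3) (.e (nat_lit 204838) (nat_lit 20) (.e (nat_lit 114714) (nat_lit 22) (.e (nat_lit 90170) (nat_lit 13) (.e (nat_lit 172065) (nat_lit 3) (.e (nat_lit 204829) (nat_lit 18) (.e (nat_lit 57688) (nat_lit 156) .nil))))))) (.g (nat_lit 5) .nil .nil))) 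
(.lf (nat_lit 251320) (.g (nat_lit 5205) (.e (nat_lit 163875) (nat_lit 3) (.e (nat_lit 204838) (nat_lit 20) (.e (nat_lit 114714) (nat_lit 22) (.e (nat_lit 90172) (nat_lit 14) (.e (nat_lit 180244) (nat_lit 5) (.e (nat_lit 532499) (nat_lit 1) (.e (nat_lit 57692) (nat_lit 156) .nil))))))) (.g (nat_lit 0) .nil .nil)))))) (.nd (nat_lit 3) (.nd (nat_lit 4) (.nd (nat_lit 5) 
(.lf (nat_lit 251268) (.g (nat_lit 2089) (.e (nat_lit 163875) (nat_lit 3) (.e (nat_lit 204837) (nat_lit 20) (.e (nat_lit 114719) (nat_lit 23) (.e (nat_lit 98365) (nat_lit 26) (.e (nat_lit 426137) (nat_lit 3) .nil))))) .nil)) 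
(.lf (nat_lit 251300) (.g (nat_lit 3715) (.e (nat_lit 163875) (nat_lit 3) (.e (nat_lit 204838) (nat_lit 20) (.e (nat_lit 114714) (nat_lit 22) (.e (nat_lit 90170) (nat_lit 13) (.e (nat_lit 172067) (nat_lit 3) (.e (nat_lit 204830) (nat_lit 18) (.e (nat_lit 57691) (nat_lit 156) .nil))))))) (.g (nat_lit 5) .nil .nil)))) (.nd (nat_lit 5) 
(.lf (nat_lit 251284) (.g (nat_lit 4328) (.e (nat_lit 163875) (nat_lit 3) (.e (nat_lit 204837) (nat_lit 20) (.e (nat_lit 114719) (nat_lit 23) (.e (nat_lit 98367) (nat_lit 27) (.e (nat_lit 434231) (nat_lit 23) (.e (nat_lit 532483) (nat_lit 0) (.e (nat_lit 1036) (nat_lit 81) (.e (nat_lit 7289) (nat_lit 386) .nil)))))))) (.g (nat_lit 5) .nil .nil))) 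
(.lf (nat_lit 251316) (.g (nat_lit 4720) (.e (nat_lit 163875) (nat_lit 3) (.e (nat_lit 204838) (nat_lit 20) (.e (nat_lit 114714) (nat_lit 22) (.e (nat_lit 90172) (nat_lit 14) (.e (nat_lit 180243) (nat_lit 5) (.e (nat_lit 532504) (nat_lit 1) (.e (nat_lit 57692) (nat_lit 156) .nil))))))) (.g (nat_lit 7) .nil .nil))))) (.nd (nat_lit 4) (.nd (nat_lit 5) 
(.lf (nat_lit 251276) (.g (nat_lit 4622) (.e (nat_lit 163875) (nat_lit 3) (.e (nat_lit 204837) (nat_lit 20) (.e (nat_lit 114719) (nat_lit 23) (.e (nat_lit 98365) (nat_lit 26) (.e (nat_lit 426139) (nat_lit 3) (.e (nat_lit 204829) (nat_lit 18) (.e (nat_lit 57691) (nat_lit 156) .nil))))))) (.g (nat_lit 6) .nil .nil))) 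
(.lf (nat_lit 251308) (.g (nat_lit 2792) (.e (nat_lit 163875) (nat_lit 3) (.e (nat_lit 204838) (nat_lit 20) (.e (nat_lit 114714) (nat_lit 22) (.e (nat_lit 90172) (nat_lit 14) (.e (nat_lit 180243) (nat_lit 5) (.e (nat_lit 532502) (nat_lit 1) (.e (nat_lit 57692) (nat_lit 156) .nil))))))) (.g (nat_lit 4) .nil .nil)))) (.nd (nat_lit 5) 
(.lf (nat_lit 251292) (.g (nat_lit 3769) (.e (nat_lit 163875) (nat_lit 3) (.e (nat_lit 204838) (nat_lit 20) (.e (nat_lit 114714) (nat_lit 22) (.e (nat_lit 90170) (nat_lit 13) (.e (nat_lit 172065) (nat_lit 3) (.e (nat_lit 204830) (nat_lit 18) (.e (nat_lit 57689) (nat_lit 156) .nil))))))) (.g (nat_lit 6) .nil .nil))) 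
(.lf (nat_lit 251324) (.g (nat_lit 2354) (.e (nat_lit 163875) (nat_lit 3) (.e (nat_lit 204838) (nat_lit 20) (.e (nat_lit 114714) (nat_lit 22) (.e (nat_lit 90172) (nat_lit 14) (.e (nat_lit 180244) (nat_lit 5) (.e (nat_lit 532502) (nat_lit 1) (.e (nat_lit 57688) (nat_lit 156) .nil))))))) (.g (nat_lit 4) .nil .nil))))))) (.nd (nat_lit 2) (.nd (nat_lit 3) (.nd (nat_lit 4) (.nd (nat_lit 5) 
(.lf (nat_lit 251266) (.g (nat_lit 4340) (.e (nat_lit 163875) (nat_lit 3) (.e (nat_lit 204837) (nat_lit 20) (.e (nat_lit 114719) (nat_lit 23) (.e (nat_lit 98365) (nat_lit 26) (.e (nat_lit 426133) (nat_lit 3) (.e (nat_lit 204829) (nat_lit 18) (.e (nat_lit 57688) (nat_lit 156) .nil))))))) (.g (nat_lit 7) .nil .nil))) 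
(.lf (nat_lit 251298) (.g (nat_lit 3620) (.e (nat_lit 163875) (nat_lit 3) (.e (nat_lit 204838) (nat_lit 20) (.e (nat_lit 114714) (nat_lit 22) (.e (nat_lit 90170) (nat_lit 13) (.e (nat_lit 172067) (nat_lit 3) (.e (nat_lit 204829) (nat_lit 18) (.e (nat_lit 57692) (nat_lit 156) .nil))))))) (.g (nat_lit 5) .nil .nil)))) (.nd (nat_lit 5) 
(.lf (nat_lit 251282) (.g (nat_lit 4009) (.e (nat_lit 163875) (nat_lit 3) (.e (nat_lit 204837) (nat_lit 20) (.e (nat_lit 114719) (nat_lit 23) (.e (nat_lit 98367) (nat_lit 27) (.e (nat_lit 434231) (nat_lit 23) (.e (nat_lit 532483) (nat_lit 0) (.e (nat_lit 1030) (nat_lit 81) (.e (nat_lit 7289) (nat_lit 386) .nil)))))))) (.g (nat_lit 5) .nil .nil))) 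
(.lf (nat_lit 251314) (.g (nat_lit 3361) (.e (nat_lit 163875) (nat_lit 3) (.e (nat_lit 204838) (nat_lit 20) (.e (nat_lit 114714) (nat_lit 22) (.e (nat_lit 90172) (nat_lit 14) (.e (nat_lit 180243) (nat_lit 5) (.e (nat_lit 532504) (nat_lit 1) (.e (nat_lit 57689) (nat_lit 156) .nil))))))) (.g (nat_lit 5) .nil .nil))))) (.nd (nat_lit 4) (.nd (nat_lit 5) 
(.lf (nat_lit 251274) (.g (nat_lit 3343) (.e (nat_lit 163875) (nat_lit 3) (.e (nat_lit 204837) (nat_lit 20) (.e (nat_lit 114719) (nat_lit 23) (.e (nat_lit 98365) (nat_lit 26) (.e (nat_lit 426138) (nat_lit 3) (.e (nat_lit 204831) (nat_lit 18) (.e (nat_lit 57686) (nat_lit 156) .nil))))))) (.g (nat_lit 5) .nil .nil))) 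
(.lf (nat_lit 251306) (.g (nat_lit 3925) (.e (nat_lit 163875) (nat_lit 3) (.e (nat_lit 204838) (nat_lit 20) (.e (nat_lit 114714) (nat_lit 22) (.e (nat_lit 90172) (nat_lit 14) (.e (nat_lit 180243) (nat_lit 5) (.e (nat_lit 532501) (nat_lit 1) (.e (nat_lit 57691) (nat_lit 156) .nil))))))) (.g (nat_lit 6) .nil .nil)))) (.nd (nat_lit 5) 
(.lf (nat_lit 251290) (.g (nat_lit 3518) (.e (nat_lit 163875) (nat_lit 3) (.e (nat_lit 204838) (nat_lit 20) (.e (nat_lit 114714) (nat_lit 22) (.e (nat_lit 90170) (nat_lit 13) (.e (nat_lit 172065) (nat_lit 3) (.e (nat_lit 204829) (nat_lit 18) (.e (nat_lit 57692) (nat_lit 156) .nil))))))) (.g (nat_lit 5) .nil .nil))) 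
(.lf (nat_lit 251322) (.g (nat_lit 3833) (.e (nat_lit 163875) (nat_lit 3) (.e (nat_lit 204838) (nat_lit 20) (.e (nat_lit 114714) (nat_lit 22) (.e (nat_lit 90172) (nat_lit 14) (.e (nat_lit 180244) (nat_lit 5) (.e (nat_lit 532501) (nat_lit 1) (.e (nat_lit 57690) (nat_lit 156) .nil))))))) (.g (nat_lit 6) .nil .nil)))))) (.nd (nat_lit 3) (.nd (nat_lit 4) (.nd (nat_lit 5) 
(.lf (nat_lit 251270) (.g (nat_lit 4052) (.e (nat_lit 163875) (nat_lit 3) (.e (nat_lit 204837) (nat_lit 20) (.e (nat_lit 114719) (nat_lit 23) (.e (nat_lit 98365) (nat_lit 26) (.e (nat_lit 426137) (nat_lit 3) (.e (nat_lit 204829) (nat_lit 18) (.e (nat_lit 57692) (nat_lit 156) .nil))))))) (.g (nat_lit 6) .nil .nil))) 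
(.lf (nat_lit 251302) (.g (nat_lit 3632) (.e (nat_lit 163875) (nat_lit 3) (.e (nat_lit 204838) (nat_lit 20) (.e (nat_lit 114714) (nat_lit 22) (.e (nat_lit 90172) (nat_lit 14) (.e (nat_lit 180243) (nat_lit 5) (.e (nat_lit 532499) (nat_lit 1) (.e (nat_lit 57686) (nat_lit 156) .nil))))))) (.g (nat_lit 5) .nil .nil)))) (.nd (nat_lit 5) 
(.lf (nat_lit 251286) (.g (nat_lit 1359) (.e (nat_lit 163875) (nat_lit 3) (.e (nat_lit 204837) (nat_lit 20) (.e (nat_lit 114719) (nat_lit 23) (.e (nat_lit 98376) (nat_lit 30) .nil)))) .nil)) 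
(.lf (nat_lit 251318) (.g (nat_lit 5451) (.e (nat_lit 163875) (nat_lit 3) (.e (nat_lit 204838) (nat_lit 20) (.e (nat_lit 114714) (nat_lit 22) (.e (nat_lit 90172) (nat_lit 14) (.e (nat_lit 180244) (nat_lit 5) (.e (nat_lit 532499) (nat_lit 1) (.e (nat_lit 57688) (nat_lit 156) .nil))))))) (.g (nat_lit 7) .nil .nil))))) (.nd (nat_lit 4) (.nd (nat_lit 5) 
(.lf (nat_lit 251278) (.g (nat_lit 4599) (.e (nat_lit 163875) (nat_lit 3) (.e (nat_lit 204837) (nat_lit 20) (.e (nat_lit 114719) (nat_lit 23) (.e (nat_lit 98365) (nat_lit 26) (.e (nat_lit 426139) (nat_lit 3) (.e (nat_lit 204830) (nat_lit 18) (.e (nat_lit 57691) (nat_lit 156) .nil))))))) (.g (nat_lit 7) .nil .nil))) 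
(.lf (nat_lit 251310) (.g (nat_lit 2515) (.e (nat_lit 163875) (nat_lit 3) (.e (nat_lit 204838) (nat_lit 20) (.e (nat_lit 114714) (nat_lit 22) (.e (nat_lit 90172) (nat_lit 14) (.e (nat_lit 180243) (nat_lit 5) (.e (nat_lit 532503) (nat_lit 1) (.e (nat_lit 57686) (nat_lit 156) .nil))))))) (.g (nat_lit 4) .nil .nil)))) (.nd (nat_lit 5) 
(.lf (nat_lit 251294) (.g (nat_lit 3631) (.e (nat_lit 163875) (nat_lit 3) (.e (nat_lit 204838) (nat_lit 20) (.e (nat_lit 114714) (nat_lit 22) (.e (nat_lit 90170) (nat_lit 13) (.e (nat_lit 172065) (nat_lit 3) (.e (nat_lit 204830) (nat_lit 18) (.e (nat_lit 57692) (nat_lit 156) .nil))))))) (.g (nat_lit 6) .nil .nil))) 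
(.lf (nat_lit 251326) (.g (nat_lit 4851) (.e (nat_lit 163875) (nat_lit 3) (.e (nat_lit 204838) (nat_lit 20) (.e (nat_lit 114714) (nat_lit 22) (.e (nat_lit 90172) (nat_lit 14) (.e (nat_lit 180244) (nat_lit 5) (.e (nat_lit 532503) (nat_lit 1) (.e (nat_lit 57685) (nat_lit 156) .nil))))))) (.g (nat_lit 0) .nil .nil)))))))) 
(.nd (nat_lit 1) (.nd (nat_lit 2) (.nd (nat_lit 3) (.nd (nat_lit 4) (.nd (nat_lit 5) 
(.lf (nat_lit 251265) (.g (nat_lit 4187) (.e (nat_lit 163875) (nat_lit 3) (.e (nat_lit 204837) (nat_lit 20) (.e (nat_lit 114719) (nat_lit 23) (.e (nat_lit 98365) (nat_lit 26) (.e (nat_lit 426133) (nat_lit 3) (.e (nat_lit 204829) (nat_lit 18) (.e (nat_lit 57686) (nat_lit 156) .nil))))))) (.g (nat_lit 7) .nil .nil))) 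
(.lf (nat_lit 251297) (.g (nat_lit 3426) (.e (nat_lit 163875) (nat_lit 3) (.e (nat_lit 204838) (nat_lit 20) (.e (nat_lit 114714) (nat_lit 22) (.e (nat_lit 90170) (nat_lit 13) (.e (nat_lit 172067) (nat_lit 3) (.e (nat_lit 204829) (nat_lit 18) (.e (nat_lit 57691) (nat_lit 156) .nil))))))) (.g (nat_lit 5) .nil .nil)))) (.nd (nat_lit 5) 
(.lf (nat_lit 251281) (.g (nat_lit 3679) (.e (nat_lit 163875) (nat_lit 3) (.e (nat_lit 204837) (nat_lit 20) (.e (nat_lit 114719) (nat_lit 23) (.e (nat_lit 98366) (nat_lit 27) (.e (nat_lit 434231) (nat_lit 23) (.e (nat_lit 532490) (nat_lit 0) (.e (nat_lit 1040) (nat_lit 81) (.e (nat_lit 7289) (nat_lit 386) .nil)))))))) (.g (nat_lit 5) .nil .nil))) 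
(.lf (nat_lit 251313) (.g (nat_lit 2798) (.e (nat_lit 163875) (nat_lit 3) (.e (nat_lit 204838) (nat_lit 20) (.e (nat_lit 114714) (nat_lit 22) (.e (nat_lit 90172) (nat_lit 14) (.e (nat_lit 180243) (nat_lit 5) (.e (nat_lit 532504) (nat_lit 1) (.e (nat_lit 57685) (nat_lit 156) .nil))))))) (.g (nat_lit 4) .nil .nil))))) (.nd (nat_lit 4) (.nd (nat_lit 5) 
(.lf (nat_lit 251273) (.g (nat_lit 3033) (.e (nat_lit 163875) (nat_lit 3) (.e (nat_lit 204837) (nat_lit 20) (.e (nat_lit 114719) (nat_lit 23) (.e (nat_lit 98365) (nat_lit 26) (.e (nat_lit 426138) (nat_lit 3) (.e (nat_lit 204829) (nat_lit 18) (.e (nat_lit 57688) (nat_lit 156) .nil))))))) (.g (nat_lit 4) .nil .nil))) 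
(.lf (nat_lit 251305) (.g (nat_lit 3781) (.e (nat_lit 163875) (nat_lit 3) (.e (nat_lit 204838) (nat_lit 20) (.e (nat_lit 114714) (nat_lit 22) (.e (nat_lit 90172) (nat_lit 14) (.e (nat_lit 180243) (nat_lit 5) (.e (nat_lit 532501) (nat_lit 1) (.e (nat_lit 57689) (nat_lit 156) .nil))))))) (.g (nat_lit 6) .nil .nil)))) (.nd (nat_lit 5) 
(.lf (nat_lit 251289) (.g (nat_lit 3486) (.e (nat_lit 163875) (nat_lit 3) (.e (nat_lit 204838) (nat_lit 20) (.e (nat_lit 114714) (nat_lit 22) (.e (nat_lit 90170) (nat_lit 13) (.e (nat_lit 172065) (nat_lit 3) (.e (nat_lit 204829) (nat_lit 18) (.e (nat_lit 57691) (nat_lit 156) .nil))))))) (.g (nat_lit 5) .nil .nil))) 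
(.lf (nat_lit 251321) (.g (nat_lit 3887) (.e (nat_lit 163875) (nat_lit 3) (.e (nat_lit 204838) (nat_lit 20) (.e (nat_lit 114714) (nat_lit 22) (.e (nat_lit 90172) (nat_lit 14) (.e (nat_lit 180244) (nat_lit 5) (.e (nat_lit 532501) (nat_lit 1) (.e (nat_lit 57689) (nat_lit 156) .nil))))))) (.g (nat_lit 6) .nil .nil)))))) (.nd (nat_lit 3) (.nd (nat_lit 4) (.nd (nat_lit 5) 
(.lf (nat_lit 251269) (.g (nat_lit 3869) (.e (nat_lit 163875) (nat_lit 3) (.e (nat_lit 204837) (nat_lit 20) (.e (nat_lit 114719) (nat_lit 23) (.e (nat_lit 98365) (nat_lit 26) (.e (nat_lit 426137) (nat_lit 3) (.e (nat_lit 204829) (nat_lit 18) (.e (nat_lit 57686) (nat_lit 156) .nil))))))) (.g (nat_lit 6) .nil .nil))) 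
(.lf (nat_lit 251301) (.g (nat_lit 3204) (.e (nat_lit 163875) (nat_lit 3) (.e (nat_lit 204838) (nat_lit 20) (.e (nat_lit 114714) (nat_lit 22) (.e (nat_lit 90170) (nat_lit 13) (.e (nat_lit 172067) (nat_lit 3) (.e (nat_lit 204830) (nat_lit 18) (.e (nat_lit 57692) (nat_lit 156) .nil))))))) (.g (nat_lit 5) .nil .nil)))) (.nd (nat_lit 5) 
(.lf (nat_lit 251285) (.g (nat_lit 3180) (.e (nat_lit 163875) (nat_lit 3) (.e (nat_lit 204837) (nat_lit 20) (.e (nat_lit 114719) (nat_lit 23) (.e (nat_lit 98367) (nat_lit 27) (.e (nat_lit 434231) (nat_lit 23) (.e (nat_lit 532490) (nat_lit 0) (.e (nat_lit 1040) (nat_lit 81) (.e (nat_lit 7289) (nat_lit 386) .nil)))))))) (.g (nat_lit 4) .nil .nil))) 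
(.lf (nat_lit 251317) (.g (nat_lit 3809) (.e (nat_lit 163875) (nat_lit 3) (.e (nat_lit 204838) (nat_lit 20) (.e (nat_lit 114714) (nat_lit 22) (.e (nat_lit 90172) (nat_lit 14) (.e (nat_lit 180244) (nat_lit 5) (.e (nat_lit 532499) (nat_lit 1) (.e (nat_lit 57687) (nat_lit 156) .nil))))))) (.g (nat_lit 5) .nil .nil))))) (.nd (nat_lit 4) (.nd (nat_lit 5) 
(.lf (nat_lit 251277) (.g (nat_lit 4510) (.e (nat_lit 163875) (nat_lit 3) (.e (nat_lit 204837) (nat_lit 20) (.e (nat_lit 114719) (nat_lit 23) (.e (nat_lit 98365) (nat_lit 26) (.e (nat_lit 426139) (nat_lit 3) (.e (nat_lit 204829) (nat_lit 18) (.e (nat_lit 57692) (nat_lit 156) .nil))))))) (.g (nat_lit 6) .nil .nil))) 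
(.lf (nat_lit 251309) (.g (nat_lit 3546) (.e (nat_lit 163875) (nat_lit 3) (.e (nat_lit 204838) (nat_lit 20) (.e (nat_lit 114714) (nat_lit 22) (.e (nat_lit 90172) (nat_lit 14) (.e (nat_lit 180243) (nat_lit 5) (.e (nat_lit 532503) (nat_lit 1) (.e (nat_lit 57685) (nat_lit 156) .nil))))))) (.g (nat_lit 6) .nil .nil)))) (.nd (nat_lit 5) 
(.lf (nat_lit 251293) (.g (nat_lit 2963) (.e (nat_lit 163875) (nat_lit 3) (.e (nat_lit 204838) (nat_lit 20) (.e (nat_lit 114714) (nat_lit 22) (.e (nat_lit 90170) (nat_lit 13) (.e (nat_lit 172065) (nat_lit 3) (.e (nat_lit 204830) (nat_lit 18) (.e (nat_lit 57690) (nat_lit 156) .nil))))))) (.g (nat_lit 5) .nil .nil))) 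
(.lf (nat_lit 251325) (.g (nat_lit 3640) (.e (nat_lit 163875) (nat_lit 3) (.e (nat_lit 204838) (nat_lit 20) (.e (nat_lit 114714) (nat_lit 22) (.e (nat_lit 90172) (nat_lit 14) (.e (nat_lit 180244) (nat_lit 5) (.e (nat_lit 532502) (nat_lit 1) (.e (nat_lit 57692) (nat_lit 156) .nil))))))) (.g (nat_lit 5) .nil .nil))))))) (.nd (nat_lit 2) (.nd (nat_lit 3) (.nd (nat_lit 4) (.nd (nat_lit 5) 
(.lf (nat_lit 251267) (.g (nat_lit 4565) (.e (nat_lit 163875) (nat_lit 3) (.e (nat_lit 204837) (nat_lit 20) (.e (nat_lit 114719) (nat_lit 23) (.e (nat_lit 98365) (nat_lit 26) (.e (nat_lit 426133) (nat_lit 3) (.e (nat_lit 204829) (nat_lit 18) (.e (nat_lit 57692) (nat_lit 156) .nil))))))) (.g (nat_lit 0) .nil .nil))) 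
(.lf (nat_lit 251299) (.g (nat_lit 3132) (.e (nat_lit 163875) (nat_lit 3) (.e (nat_lit 204838) (nat_lit 20) (.e (nat_lit 114714) (nat_lit 22) (.e (nat_lit 90170) (nat_lit 13) (.e (nat_lit 172067) (nat_lit 3) (.e (nat_lit 204830) (nat_lit 18) (.e (nat_lit 57689) (nat_lit 156) .nil))))))) (.g (nat_lit 5) .nil .nil)))) (.nd (nat_lit 5) 
(.lf (nat_lit 251283) (.g (nat_lit 3992) (.e (nat_lit 163875) (nat_lit 3) (.e (nat_lit 204837) (nat_lit 20) (.e (nat_lit 114719) (nat_lit 23) (.e (nat_lit 98367) (nat_lit 27) (.e (nat_lit 434231) (nat_lit 23) (.e (nat_lit 532483) (nat_lit 0) (.e (nat_lit 1036) (nat_lit 81) (.e (nat_lit 7287) (nat_lit 386) .nil)))))))) (.g (nat_lit 5) .nil .nil))) 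
(.lf (nat_lit 251315) (.g (nat_lit 3653) (.e (nat_lit 163875) (nat_lit 3) (.e (nat_lit 204838) (nat_lit 20) (.e (nat_lit 114714) (nat_lit 22) (.e (nat_lit 90172) (nat_lit 14) (.e (nat_lit 180243) (nat_lit 5) (.e (nat_lit 532504) (nat_lit 1) (.e (nat_lit 57690) (nat_lit 156) .nil))))))) (.g (nat_lit 6) .nil .nil))))) (.nd (nat_lit 4) (.nd (nat_lit 5) 
(.lf (nat_lit 251275) (.g (nat_lit 4300) (.e (nat_lit 163875) (nat_lit 3) (.e (nat_lit 204837) (nat_lit 20) (.e (nat_lit 114719) (nat_lit 23) (.e (nat_lit 98365) (nat_lit 26) (.e (nat_lit 426139) (nat_lit 3) (.e (nat_lit 204829) (nat_lit 18) (.e (nat_lit 57686) (nat_lit 156) .nil))))))) (.g (nat_lit 6) .nil .nil))) 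
(.lf (nat_lit 251307) (.g (nat_lit 3776) (.e (nat_lit 163875) (nat_lit 3) (.e (nat_lit 204838) (nat_lit 20) (.e (nat_lit 114714) (nat_lit 22) (.e (nat_lit 90172) (nat_lit 14) (.e (nat_lit 180243) (nat_lit 5) (.e (nat_lit 532501) (nat_lit 1) (.e (nat_lit 57692) (nat_lit 156) .nil))))))) (.g (nat_lit 6) .nil .nil)))) (.nd (nat_lit 5) 
(.lf (nat_lit 251291) (.g (nat_lit 2955) (.e (nat_lit 163875) (nat_lit 3) (.e (nat_lit 204838) (nat_lit 20) (.e (nat_lit 114714) (nat_lit 22) (.e (nat_lit 90170) (nat_lit 13) (.e (nat_lit 172065) (nat_lit 3) (.e (nat_lit 204830) (nat_lit 18) (.e (nat_lit 57685) (nat_lit 156) .nil))))))) (.g (nat_lit 4) .nil .nil))) 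
(.lf (nat_lit 251323) (.g (nat_lit 3895) (.e (nat_lit 163875) (nat_lit 3) (.e (nat_lit 204838) (nat_lit 20) (.e (nat_lit 114714) (nat_lit 22) (.e (nat_lit 90172) (nat_lit 14) (.e (nat_lit 180244) (nat_lit 5) (.e (nat_lit 532501) (nat_lit 1) (.e (nat_lit 57692) (nat_lit 156) .nil))))))) (.g (nat_lit 6) .nil .nil)))))) (.nd (nat_lit 3) (.nd (nat_lit 4) (.nd (nat_lit 5) 
(.lf (nat_lit 251271) (.g (nat_lit 3049) (.e (nat_lit 163875) (nat_lit 3) (.e (nat_lit 204837) (nat_lit 20) (.e (nat_lit 114719) (nat_lit 23) (.e (nat_lit 98365) (nat_lit 26) (.e (nat_lit 426137) (nat_lit 3) (.e (nat_lit 204830) (nat_lit 18) (.e (nat_lit 57691) (nat_lit 156) .nil))))))) (.g (nat_lit 5) .nil .nil))) 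
(.lf (nat_lit 251303) (.g (nat_lit 4077) (.e (nat_lit 163875) (nat_lit 3) (.e (nat_lit 204838) (nat_lit 20) (.e (nat_lit 114714) (nat_lit 22) (.e (nat_lit 90172) (nat_lit 14) (.e (nat_lit 180243) (nat_lit 5) (.e (nat_lit 532499) (nat_lit 1) (.e (nat_lit 57692) (nat_lit 156) .nil))))))) (.g (nat_lit 6) .nil .nil)))) (.nd (nat_lit 5) 
(.lf (nat_lit 251287) (.g (nat_lit 3427) (.e (nat_lit 163875) (nat_lit 3) (.e (nat_lit 204838) (nat_lit 20) (.e (nat_lit 114714) (nat_lit 22) (.e (nat_lit 90170) (nat_lit 13) (.e (nat_lit 172065) (nat_lit 3) (.e (nat_lit 204829) (nat_lit 18) (.e (nat_lit 57686) (nat_lit 156) .nil))))))) (.g (nat_lit 5) .nil .nil))) 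
(.lf (nat_lit 251319) (.g (nat_lit 2569) (.e (nat_lit 163875) (nat_lit 3) (.e (nat_lit 204838) (nat_lit 20) (.e (nat_lit 114714) (nat_lit 22) (.e (nat_lit 90172) (nat_lit 14) (.e (nat_lit 180244) (nat_lit 5) (.e (nat_lit 532499) (nat_lit 1) (.e (nat_lit 57690) (nat_lit 156) .nil))))))) (.g (nat_lit 4) .nil .nil))))) (.nd (nat_lit 4) (.nd (nat_lit 5) 
(.lf (nat_lit 251279) (.g (nat_lit 4059) (.e (nat_lit 163875) (nat_lit 3) (.e (nat_lit 204837) (nat_lit 20) (.e (nat_lit 114719) (nat_lit 23) (.e (nat_lit 98365) (nat_lit 26) (.e (nat_lit 426139) (nat_lit 3) (.e (nat_lit 204830) (nat_lit 18) (.e (nat_lit 57692) (nat_lit 156) .nil))))))) (.g (nat_lit 6) .nil .nil))) 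
(.lf (nat_lit 251311) (.g (nat_lit 3043) (.e (nat_lit 163875) (nat_lit 3) (.e (nat_lit 204838) (nat_lit 20) (.e (nat_lit 114714) (nat_lit 22) (.e (nat_lit 90172) (nat_lit 14) (.e (nat_lit 180243) (nat_lit 5) (.e (nat_lit 532503) (nat_lit 1) (.e (nat_lit 57687) (nat_lit 156) .nil))))))) (.g (nat_lit 4) .nil .nil)))) (.nd (nat_lit 5) 
(.lf (nat_lit 251295) (.g (nat_lit 3003) (.e (nat_lit 163875) (nat_lit 3) (.e (nat_lit 204838) (nat_lit 20) (.e (nat_lit 114714) (nat_lit 22) (.e (nat_lit 90170) (nat_lit 13) (.e (nat_lit 172065) (nat_lit 3) (.e (nat_lit 204831) (nat_lit 18) (.e (nat_lit 57692) (nat_lit 156) .nil))))))) (.g (nat_lit 4) .nil .nil))) 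
(.lf (nat_lit 251327) (.g (nat_lit 3511) (.e (nat_lit 163875) (nat_lit 3) (.e (nat_lit 204838) (nat_lit 20) (.e (nat_lit 114714) (nat_lit 22) (.e (nat_lit 90172) (nat_lit 14) (.e (nat_lit 180244) (nat_lit 5) (.e (nat_lit 532503) (nat_lit 1) (.e (nat_lit 57686) (nat_lit 156) .nil))))))) (.g (nat_lit 5) .nil .nil)))))))))

noncomputable def tv3258 : DT := (.nd (nat_lit 0) (.nd (nat_lit 1) (.nd (nat_lit 2) (.nd (nat_lit 3) (.nd (nat_lit 4) (.nd (nat_lit 5) 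
(.lf (nat_lit 251328) (.g (nat_lit 4090) (.e (nat_lit 163875) (nat_lit 3) (.e (nat_lit 204838) (nat_lit 20) (.e (nat_lit 114714) (nat_lit 22) (.e (nat_lit 90172) (nat_lit 14) (.e (nat_lit 180244) (nat_lit 5) (.e (nat_lit 532503) (nat_lit 1) (.e (nat_lit 57687) (nat_lit 156) .nil))))))) (.g (nat_lit 5) .nil .nil))) 
(.lf (nat_lit 251360) (.g (nat_lit 2565) (.e (nat_lit 163875) (nat_lit 3) (.e (nat_lit 204838) (nat_lit 20) (.e (nat_lit 114714) (nat_lit 22) (.e (nat_lit 90185) (nat_lit 17) (.e (nat_lit 237594) (nat_lit 3) (.e (nat_lit 204830) (nat_lit 18) (.e (nat_lit 57692) (nat_lit 156) .nil))))))) (.g (nat_lit 4) .nil .nil)))) (.nd (nat_lit 5) 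
(.lf (nat_lit 251344) (.g (nat_lit 2910) (.e (nat_lit 163875) (nat_lit 3) (.e (nat_lit 204838) (nat_lit 20) (.e (nat_lit 114714) (nat_lit 22) (.e (nat_lit 90174) (nat_lit 14) (.e (nat_lit 180243) (nat_lit 5) (.e (nat_lit 532502) (nat_lit 1) (.e (nat_lit 57688) (nat_lit 156) .nil))))))) (.g (nat_lit 5) .nil .nil))) 
(.lf (nat_lit 251376) (.g (nat_lit 2528) (.e (nat_lit 163875) (nat_lit 3) (.e (nat_lit 204838) (nat_lit 20) (.e (nat_lit 114716) (nat_lit 22) (.e (nat_lit 90172) (nat_lit 14) (.e (nat_lit 180243) (nat_lit 5) (.e (nat_lit 532504) (nat_lit 1) (.e (nat_lit 57689) (nat_lit 156) .nil))))))) (.g (nat_lit 4) .nil .nil))))) (.nd (nat_lit 4) (.nd (nat_lit 5) 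
(.lf (nat_lit 251336) (.g (nat_lit 2707) (.e (nat_lit 163875) (nat_lit 3) (.e (nat_lit 204838) (nat_lit 20) (.e (nat_lit 114714) (nat_lit 22) (.e (nat_lit 90174) (nat_lit 14) (.e (nat_lit 180243) (nat_lit 5) (.e (nat_lit 532499) (nat_lit 1) (.e (nat_lit 57689) (nat_lit 156) .nil))))))) (.g (nat_lit 4) .nil .nil))) 
(.lf (nat_lit 251368) (.g (nat_lit 2949) (.e (nat_lit 163875) (nat_lit 3) (.e (nat_lit 204838) (nat_lit 20) (.e (nat_lit 114716) (nat_lit 22) (.e (nat_lit 90172) (nat_lit 14) (.e (nat_lit 180243) (nat_lit 5) (.e (nat_lit 532501) (nat_lit 1) (.e (nat_lit 57689) (nat_lit 156) .nil))))))) (.g (nat_lit 5) .nil .nil)))) (.nd (nat_lit 5) 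
(.lf (nat_lit 251352) (.g (nat_lit 2170) (.e (nat_lit 163875) (nat_lit 3) (.e (nat_lit 204838) (nat_lit 20) (.e (nat_lit 114714) (nat_lit 22) (.e (nat_lit 90185) (nat_lit 17) (.e (nat_lit 237592) (nat_lit 3) (.e (nat_lit 204829) (nat_lit 18) (.e (nat_lit 57686) (nat_lit 156) .nil))))))) (.g (nat_lit 4) .nil .nil))) 
(.lf (nat_lit 251384) (.g (nat_lit 3529) (.e (nat_lit 163875) (nat_lit 3) (.e (nat_lit 204838) (nat_lit 20) (.e (nat_lit 114716) (nat_lit 22) (.e (nat_lit 90172) (nat_lit 14) (.e (nat_lit 180244) (nat_lit 5) (.e (nat_lit 532501) (nat_lit 1) (.e (nat_lit 57690) (nat_lit 156) .nil))))))) (.g (nat_lit 6) .nil .nil)))))) (.nd (nat_lit 3) (.nd (nat_lit 4) (.nd (nat_lit 5) 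
(.lf (nat_lit 251332) (.g (nat_lit 4502) (.e (nat_lit 163875) (nat_lit 3) (.e (nat_lit 204838) (nat_lit 20) (.e (nat_lit 114714) (nat_lit 22) (.e (nat_lit 90172) (nat_lit 14) (.e (nat_lit 180244) (nat_lit 5) (.e (nat_lit 532504) (nat_lit 1) (.e (nat_lit 57692) (nat_lit 156) .nil))))))) (.g (nat_lit 7) .nil .nil))) 
(.lf (nat_lit 251364) (.g (nat_lit 2891) (.e (nat_lit 163875) (nat_lit 3) (.e (nat_lit 204838) (nat_lit 20) (.e (nat_lit 114716) (nat_lit 22) (.e (nat_lit 90170) (nat_lit 13) (.e (nat_lit 172065) (nat_lit 3) (.e (nat_lit 204830) (nat_lit 18) (.e (nat_lit 57691) (nat_lit 156) .nil))))))) (.g (nat_lit 4) .nil .nil)))) (.nd (nat_lit 5) 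
(.lf (nat_lit 251348) (.g (nat_lit 3347) (.e (nat_lit 163875) (nat_lit 3) (.e (nat_lit 204838) (nat_lit 20) (.e (nat_lit 114714) (nat_lit 22) (.e (nat_lit 90174) (nat_lit 14) (.e (nat_lit 180243) (nat_lit 5) (.e (nat_lit 532503) (nat_lit 1) (.e (nat_lit 57692) (nat_lit 156) .nil))))))) (.g (nat_lit 5) .nil .nil))) 
(.lf (nat_lit 251380) (.g (nat_lit 2467) (.e (nat_lit 163875) (nat_lit 3) (.e (nat_lit 204838) (nat_lit 20) (.e (nat_lit 114716) (nat_lit 22) (.e (nat_lit 90172) (nat_lit 14) (.e (nat_lit 180244) (nat_lit 5) (.e (nat_lit 532499) (nat_lit 1) (.e (nat_lit 57689) (nat_lit 156) .nil))))))) (.g (nat_lit 4) .nil .nil))))) (.nd (nat_lit 4) (.nd (nat_lit 5) 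
(.lf (nat_lit 251340) (.g (nat_lit 4766) (.e (nat_lit 163875) (nat_lit 3) (.e (nat_lit 204838) (nat_lit 20) (.e (nat_lit 114714) (nat_lit 22) (.e (nat_lit 90174) (nat_lit 14) (.e (nat_lit 180243) (nat_lit 5) (.e (nat_lit 532501) (nat_lit 1) (.e (nat_lit 57689) (nat_lit 156) .nil))))))) (.g (nat_lit 0) .nil .nil))) 
(.lf (nat_lit 251372) (.g (nat_lit 3075) (.e (nat_lit 163875) (nat_lit 3) (.e (nat_lit 204838) (nat_lit 20) (.e (nat_lit 114716) (nat_lit 22) (.e (nat_lit 90172) (nat_lit 14) (.e (nat_lit 180243) (nat_lit 5) (.e (nat_lit 532503) (nat_lit 1) (.e (nat_lit 57685) (nat_lit 156) .nil))))))) (.g (nat_lit 5) .nil .nil)))) (.nd (nat_lit 5) 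
(.lf (nat_lit 251356) (.g (nat_lit 2276) (.e (nat_lit 163875) (nat_lit 3) (.e (nat_lit 204838) (nat_lit 20) (.e (nat_lit 114714) (nat_lit 22) (.e (nat_lit 90185) (nat_lit 17) (.e (nat_lit 237592) (nat_lit 3) (.e (nat_lit 204830) (nat_lit 18) (.e (nat_lit 57692) (nat_lit 156) .nil))))))) (.g (nat_lit 4) .nil .nil))) 
(.lf (nat_lit 251388) (.g (nat_lit 4554) (.e (nat_lit 163875) (nat_lit 3) (.e (nat_lit 204838) (nat_lit 20) (.e (nat_lit 114716) (nat_lit 22) (.e (nat_lit 90172) (nat_lit 14) (.e (nat_lit 180244) (nat_lit 5) (.e (nat_lit 532503) (nat_lit 1) (.e (nat_lit 57685) (nat_lit 156) .nil))))))) (.g (nat_lit 0) .nil .nil))))))) (.nd (nat_lit 2) (.nd (nat_lit 3) (.nd (nat_lit 4) (.nd (nat_lit 5) 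
(.lf (nat_lit 251330) (.g (nat_lit 4271) (.e (nat_lit 163875) (nat_lit 3) (.e (nat_lit 204838) (nat_lit 20) (.e (nat_lit 114714) (nat_lit 22) (.e (nat_lit 90172) (nat_lit 14) (.e (nat_lit 180244) (nat_lit 5) (.e (nat_lit 532503) (nat_lit 1) (.e (nat_lit 57691) (nat_lit 156) .nil))))))) (.g (nat_lit 6) .nil .nil))) 
(.lf (nat_lit 251362) (.g (nat_lit 1429) (.e (nat_lit 163875) (nat_lit 3) (.e (nat_lit 204838) (nat_lit 20) (.e (nat_lit 114716) (nat_lit 22) (.e (nat_lit 90167) (nat_lit 13) .nil)))) .nil))) (.nd (nat_lit 5) 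
(.lf (nat_lit 251346) (.g (nat_lit 3956) (.e (nat_lit 163875) (nat_lit 3) (.e (nat_lit 204838) (nat_lit 20) (.e (nat_lit 114714) (nat_lit 22) (.e (nat_lit 90174) (nat_lit 14) (.e (nat_lit 180243) (nat_lit 5) (.e (nat_lit 532503) (nat_lit 1) (.e (nat_lit 57687) (nat_lit 156) .nil))))))) (.g (nat_lit 6) .nil .nil))) 
(.lf (nat_lit 251378) (.g (nat_lit 4120) (.e (nat_lit 163875) (nat_lit 3) (.e (nat_lit 204838) (nat_lit 20) (.e (nat_lit 114716) (nat_lit 22) (.e (nat_lit 90172) (nat_lit 14) (.e (nat_lit 180243) (nat_lit 5) (.e (nat_lit 532504) (nat_lit 1) (.e (nat_lit 57692) (nat_lit 156) .nil))))))) (.g (nat_lit 6) .nil .nil))))) (.nd (nat_lit 4) (.nd (nat_lit 5) 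
(.lf (nat_lit 251338) (.g (nat_lit 2423) (.e (nat_lit 163875) (nat_lit 3) (.e (nat_lit 204838) (nat_lit 20) (.e (nat_lit 114714) (nat_lit 22) (.e (nat_lit 90174) (nat_lit 14) (.e (nat_lit 180243) (nat_lit 5) (.e (nat_lit 532500) (nat_lit 1) (.e (nat_lit 57692) (nat_lit 156) .nil))))))) (.g (nat_lit 4) .nil .nil))) 
(.lf (nat_lit 251370) (.g (nat_lit 3177) (.e (nat_lit 163875) (nat_lit 3) (.e (nat_lit 204838) (nat_lit 20) (.e (nat_lit 114716) (nat_lit 22) (.e (nat_lit 90172) (nat_lit 14) (.e (nat_lit 180243) (nat_lit 5) (.e (nat_lit 532501) (nat_lit 1) (.e (nat_lit 57692) (nat_lit 156) .nil))))))) (.g (nat_lit 5) .nil .nil)))) (.nd (nat_lit 5) 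
(.lf (nat_lit 251354) (.g (nat_lit 2299) (.e (nat_lit 163875) (nat_lit 3) (.e (nat_lit 204838) (nat_lit 20) (.e (nat_lit 114714) (nat_lit 22) (.e (nat_lit 90185) (nat_lit 17) (.e (nat_lit 237592) (nat_lit 3) (.e (nat_lit 204829) (nat_lit 18) (.e (nat_lit 57692) (nat_lit 156) .nil))))))) (.g (nat_lit 4) .nil .nil))) 
(.lf (nat_lit 251386) (.g (nat_lit 2105) (.e (nat_lit 163875) (nat_lit 3) (.e (nat_lit 204838) (nat_lit 20) (.e (nat_lit 114716) (nat_lit 22) (.e (nat_lit 90172) (nat_lit 14) (.e (nat_lit 180244) (nat_lit 5) (.e (nat_lit 532502) (nat_lit 1) (.e (nat_lit 57688) (nat_lit 156) .nil))))))) (.g (nat_lit 4) .nil .nil)))))) (.nd (nat_lit 3) (.nd (nat_lit 4) (.nd (nat_lit 5) 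
(.lf (nat_lit 251334) (.g (nat_lit 3678) (.e (nat_lit 163875) (nat_lit 3) (.e (nat_lit 204838) (nat_lit 20) (.e (nat_lit 114714) (nat_lit 22) (.e (nat_lit 90174) (nat_lit 14) (.e (nat_lit 180243) (nat_lit 5) (.e (nat_lit 532499) (nat_lit 1) (.e (nat_lit 57687) (nat_lit 156) .nil))))))) (.g (nat_lit 5) .nil .nil))) 
(.lf (nat_lit 251366) (.g (nat_lit 3478) (.e (nat_lit 163875) (nat_lit 3) (.e (nat_lit 204838) (nat_lit 20) (.e (nat_lit 114716) (nat_lit 22) (.e (nat_lit 90172) (nat_lit 14) (.e (nat_lit 180243) (nat_lit 5) (.e (nat_lit 532499) (nat_lit 1) (.e (nat_lit 57692) (nat_lit 156) .nil))))))) (.g (nat_lit 5) .nil .nil)))) (.nd (nat_lit 5) 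
(.lf (nat_lit 251350) (.g (nat_lit 4397) (.e (nat_lit 163875) (nat_lit 3) (.e (nat_lit 204838) (nat_lit 20) (.e (nat_lit 114714) (nat_lit 22) (.e (nat_lit 90174) (nat_lit 14) (.e (nat_lit 180243) (nat_lit 5) (.e (nat_lit 532504) (nat_lit 1) (.e (nat_lit 57690) (nat_lit 156) .nil))))))) (.g (nat_lit 7) .nil .nil))) 
(.lf (nat_lit 251382) (.g (nat_lit 2383) (.e (nat_lit 163875) (nat_lit 3) (.e (nat_lit 204838) (nat_lit 20) (.e (nat_lit 114716) (nat_lit 22) (.e (nat_lit 90172) (nat_lit 14) (.e (nat_lit 180244) (nat_lit 5) (.e (nat_lit 532500) (nat_lit 1) (.e (nat_lit 57692) (nat_lit 156) .nil))))))) (.g (nat_lit 4) .nil .nil))))) (.nd (nat_lit 4) (.nd (nat_lit 5) 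
(.lf (nat_lit 251342) (.g (nat_lit 4607) (.e (nat_lit 163875) (nat_lit 3) (.e (nat_lit 204838) (nat_lit 20) (.e (nat_lit 114714) (nat_lit 22) (.e (nat_lit 90174) (nat_lit 14) (.e (nat_lit 180243) (nat_lit 5) (.e (nat_lit 532501) (nat_lit 1) (.e (nat_lit 57692) (nat_lit 156) .nil))))))) (.g (nat_lit 7) .nil .nil))) 
(.lf (nat_lit 251374) (.g (nat_lit 2562) (.e (nat_lit 163875) (nat_lit 3) (.e (nat_lit 204838) (nat_lit 20) (.e (nat_lit 114716) (nat_lit 22) (.e (nat_lit 90172) (nat_lit 14) (.e (nat_lit 180243) (nat_lit 5) (.e (nat_lit 532503) (nat_lit 1) (.e (nat_lit 57689) (nat_lit 156) .nil))))))) (.g (nat_lit 4) .nil .nil)))) (.nd (nat_lit 5) 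
(.lf (nat_lit 251358) (.g (nat_lit 2527) (.e (nat_lit 163875) (nat_lit 3) (.e (nat_lit 204838) (nat_lit 20) (.e (nat_lit 114714) (nat_lit 22) (.e (nat_lit 90185) (nat_lit 17) (.e (nat_lit 237594) (nat_lit 3) (.e (nat_lit 204829) (nat_lit 18) (.e (nat_lit 57691) (nat_lit 156) .nil))))))) (.g (nat_lit 4) .nil .nil))) 
(.lf (nat_lit 251390) (.g (nat_lit 3916) (.e (nat_lit 163875) (nat_lit 3) (.e (nat_lit 204838) (nat_lit 20) (.e (nat_lit 114716) (nat_lit 22) (.e (nat_lit 90172) (nat_lit 14) (.e (nat_lit 180244) (nat_lit 5) (.e (nat_lit 532503) (nat_lit 1) (.e (nat_lit 57687) (nat_lit 156) .nil))))))) (.g (nat_lit 5) .nil .nil)))))))) 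
(.nd (nat_lit 1) (.nd (nat_lit 2) (.nd (nat_lit 3) (.nd (nat_lit 4) (.nd (nat_lit 5) 
(.lf (nat_lit 251329) (.g (nat_lit 4390) (.e (nat_lit 163875) (nat_lit 3) (.e (nat_lit 204838) (nat_lit 20) (.e (nat_lit 114714) (nat_lit 22) (.e (nat_lit 90172) (nat_lit 14) (.e (nat_lit 180244) (nat_lit 5) (.e (nat_lit 532503) (nat_lit 1) (.e (nat_lit 57689) (nat_lit 156) .nil))))))) (.g (nat_lit 6) .nil .nil))) 
(.lf (nat_lit 251361) (.g (nat_lit 2532) (.e (nat_lit 163875) (nat_lit 3) (.e (nat_lit 204838) (nat_lit 20) (.e (nat_lit 114715) (nat_lit 22) (.e (nat_lit 90170) (nat_lit 13) (.e (nat_lit 172138) (nat_lit 15) (.e (nat_lit 1800) (nat_lit 119) (.e (nat_lit 516119) (nat_lit 1) (.e (nat_lit 164325) (nat_lit 230) .nil)))))))) (.g (nat_lit 4) .nil .nil)))) (.nd (nat_lit 5) 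
(.lf (nat_lit 251345) (.g (nat_lit 4446) (.e (nat_lit 163875) (nat_lit 3) (.e (nat_lit 204838) (nat_lit 20) (.e (nat_lit 114714) (nat_lit 22) (.e (nat_lit 90174) (nat_lit 14) (.e (nat_lit 180243) (nat_lit 5) (.e (nat_lit 532503) (nat_lit 1) (.e (nat_lit 57685) (nat_lit 156) .nil))))))) (.g (nat_lit 7) .nil .nil))) 
(.lf (nat_lit 251377) (.g (nat_lit 3215) (.e (nat_lit 163875) (nat_lit 3) (.e (nat_lit 204838) (nat_lit 20) (.e (nat_lit 114716) (nat_lit 22) (.e (nat_lit 90172) (nat_lit 14) (.e (nat_lit 180243) (nat_lit 5) (.e (nat_lit 532504) (nat_lit 1) (.e (nat_lit 57690) (nat_lit 156) .nil))))))) (.g (nat_lit 5) .nil .nil))))) (.nd (nat_lit 4) (.nd (nat_lit 5) 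
(.lf (nat_lit 251337) (.g (nat_lit 5012) (.e (nat_lit 163875) (nat_lit 3) (.e (nat_lit 204838) (nat_lit 20) (.e (nat_lit 114714) (nat_lit 22) (.e (nat_lit 90174) (nat_lit 14) (.e (nat_lit 180243) (nat_lit 5) (.e (nat_lit 532499) (nat_lit 1) (.e (nat_lit 57692) (nat_lit 156) .nil))))))) (.g (nat_lit 0) .nil .nil))) 
(.lf (nat_lit 251369) (.g (nat_lit 2996) (.e (nat_lit 163875) (nat_lit 3) (.e (nat_lit 204838) (nat_lit 20) (.e (nat_lit 114716) (nat_lit 22) (.e (nat_lit 90172) (nat_lit 14) (.e (nat_lit 180243) (nat_lit 5) (.e (nat_lit 532501) (nat_lit 1) (.e (nat_lit 57690) (nat_lit 156) .nil))))))) (.g (nat_lit 5) .nil .nil)))) (.nd (nat_lit 5) 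
(.lf (nat_lit 251353) (.g (nat_lit 2335) (.e (nat_lit 163875) (nat_lit 3) (.e (nat_lit 204838) (nat_lit 20) (.e (nat_lit 114714) (nat_lit 22) (.e (nat_lit 90185) (nat_lit 17) (.e (nat_lit 237592) (nat_lit 3) (.e (nat_lit 204829) (nat_lit 18) (.e (nat_lit 57691) (nat_lit 156) .nil))))))) (.g (nat_lit 4) .nil .nil))) 
(.lf (nat_lit 251385) (.g (nat_lit 3429) (.e (nat_lit 163875) (nat_lit 3) (.e (nat_lit 204838) (nat_lit 20) (.e (nat_lit 114716) (nat_lit 22) (.e (nat_lit 90172) (nat_lit 14) (.e (nat_lit 180244) (nat_lit 5) (.e (nat_lit 532501) (nat_lit 1) (.e (nat_lit 57692) (nat_lit 156) .nil))))))) (.g (nat_lit 6) .nil .nil)))))) (.nd (nat_lit 3) (.nd (nat_lit 4) (.nd (nat_lit 5) 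
(.lf (nat_lit 251333) (.g (nat_lit 4668) (.e (nat_lit 163875) (nat_lit 3) (.e (nat_lit 204838) (nat_lit 20) (.e (nat_lit 114714) (nat_lit 22) (.e (nat_lit 90174) (nat_lit 14) (.e (nat_lit 180243) (nat_lit 5) (.e (nat_lit 532499) (nat_lit 1) (.e (nat_lit 57686) (nat_lit 156) .nil))))))) (.g (nat_lit 0) .nil .nil))) 
(.lf (nat_lit 251365) (.g (nat_lit 3142) (.e (nat_lit 163875) (nat_lit 3) (.e (nat_lit 204838) (nat_lit 20) (.e (nat_lit 114716) (nat_lit 22) (.e (nat_lit 90172) (nat_lit 14) (.e (nat_lit 180243) (nat_lit 5) (.e (nat_lit 532499) (nat_lit 1) (.e (nat_lit 57686) (nat_lit 156) .nil))))))) (.g (nat_lit 5) .nil .nil)))) (.nd (nat_lit 5) 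
(.lf (nat_lit 251349) (.g (nat_lit 4247) (.e (nat_lit 163875) (nat_lit 3) (.e (nat_lit 204838) (nat_lit 20) (.e (nat_lit 114714) (nat_lit 22) (.e (nat_lit 90174) (nat_lit 14) (.e (nat_lit 180243) (nat_lit 5) (.e (nat_lit 532504) (nat_lit 1) (.e (nat_lit 57689) (nat_lit 156) .nil))))))) (.g (nat_lit 6) .nil .nil))) 
(.lf (nat_lit 251381) (.g (nat_lit 4762) (.e (nat_lit 163875) (nat_lit 3) (.e (nat_lit 204838) (nat_lit 20) (.e (nat_lit 114716) (nat_lit 22) (.e (nat_lit 90172) (nat_lit 14) (.e (nat_lit 180244) (nat_lit 5) (.e (nat_lit 532499) (nat_lit 1) (.e (nat_lit 57692) (nat_lit 156) .nil))))))) (.g (nat_lit 0) .nil .nil))))) (.nd (nat_lit 4) (.nd (nat_lit 5) 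
(.lf (nat_lit 251341) (.g (nat_lit 4298) (.e (nat_lit 163875) (nat_lit 3) (.e (nat_lit 204838) (nat_lit 20) (.e (nat_lit 114714) (nat_lit 22) (.e (nat_lit 90174) (nat_lit 14) (.e (nat_lit 180243) (nat_lit 5) (.e (nat_lit 532501) (nat_lit 1) (.e (nat_lit 57690) (nat_lit 156) .nil))))))) (.g (nat_lit 7) .nil .nil))) 
(.lf (nat_lit 251373) (.g (nat_lit 2695) (.e (nat_lit 163875) (nat_lit 3) (.e (nat_lit 204838) (nat_lit 20) (.e (nat_lit 114716) (nat_lit 22) (.e (nat_lit 90172) (nat_lit 14) (.e (nat_lit 180243) (nat_lit 5) (.e (nat_lit 532503) (nat_lit 1) (.e (nat_lit 57687) (nat_lit 156) .nil))))))) (.g (nat_lit 4) .nil .nil)))) (.nd (nat_lit 5) 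
(.lf (nat_lit 251357) (.g (nat_lit 2307) (.e (nat_lit 163875) (nat_lit 3) (.e (nat_lit 204838) (nat_lit 20) (.e (nat_lit 114714) (nat_lit 22) (.e (nat_lit 90185) (nat_lit 17) (.e (nat_lit 237594) (nat_lit 3) (.e (nat_lit 204829) (nat_lit 18) (.e (nat_lit 57686) (nat_lit 156) .nil))))))) (.g (nat_lit 4) .nil .nil))) 
(.lf (nat_lit 251389) (.g (nat_lit 3195) (.e (nat_lit 163875) (nat_lit 3) (.e (nat_lit 204838) (nat_lit 20) (.e (nat_lit 114716) (nat_lit 22) (.e (nat_lit 90172) (nat_lit 14) (.e (nat_lit 180244) (nat_lit 5) (.e (nat_lit 532503) (nat_lit 1) (.e (nat_lit 57686) (nat_lit 156) .nil))))))) (.g (nat_lit 5) .nil .nil))))))) (.nd (nat_lit 2) (.nd (nat_lit 3) (.nd (nat_lit 4) (.nd (nat_lit 5) 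
(.lf (nat_lit 251331) (.g (nat_lit 3420) (.e (nat_lit 163875) (nat_lit 3) (.e (nat_lit 204838) (nat_lit 20) (.e (nat_lit 114714) (nat_lit 22) (.e (nat_lit 90172) (nat_lit 14) (.e (nat_lit 180244) (nat_lit 5) (.e (nat_lit 532503) (nat_lit 1) (.e (nat_lit 57692) (nat_lit 156) .nil))))))) (.g (nat_lit 5) .nil .nil))) 
(.lf (nat_lit 251363) (.g (nat_lit 2686) (.e (nat_lit 163875) (nat_lit 3) (.e (nat_lit 204838) (nat_lit 20) (.e (nat_lit 114716) (nat_lit 22) (.e (nat_lit 90170) (nat_lit 13) (.e (nat_lit 172065) (nat_lit 3) .nil))))) .nil))) (.nd (nat_lit 5) 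
(.lf (nat_lit 251347) (.g (nat_lit 4317) (.e (nat_lit 163875) (nat_lit 3) (.e (nat_lit 204838) (nat_lit 20) (.e (nat_lit 114714) (nat_lit 22) (.e (nat_lit 90174) (nat_lit 14) (.e (nat_lit 180243) (nat_lit 5) (.e (nat_lit 532503) (nat_lit 1) (.e (nat_lit 57689) (nat_lit 156) .nil))))))) (.g (nat_lit 6) .nil .nil))) 
(.lf (nat_lit 251379) (.g (nat_lit 5205) (.e (nat_lit 163875) (nat_lit 3) (.e (nat_lit 204838) (nat_lit 20) (.e (nat_lit 114716) (nat_lit 22) (.e (nat_lit 90172) (nat_lit 14) (.e (nat_lit 180244) (nat_lit 5) (.e (nat_lit 532499) (nat_lit 1) (.e (nat_lit 57688) (nat_lit 156) .nil))))))) (.g (nat_lit 0) .nil .nil))))) (.nd (nat_lit 4) (.nd (nat_lit 5) 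
(.lf (nat_lit 251339) (.g (nat_lit 3655) (.e (nat_lit 163875) (nat_lit 3) (.e (nat_lit 204838) (nat_lit 20) (.e (nat_lit 114714) (nat_lit 22) (.e (nat_lit 90174) (nat_lit 14) (.e (nat_lit 180243) (nat_lit 5) (.e (nat_lit 532501) (nat_lit 1) (.e (nat_lit 57685) (nat_lit 156) .nil))))))) (.g (nat_lit 6) .nil .nil))) 
(.lf (nat_lit 251371) (.g (nat_lit 2193) (.e (nat_lit 163875) (nat_lit 3) (.e (nat_lit 204838) (nat_lit 20) (.e (nat_lit 114716) (nat_lit 22) (.e (nat_lit 90172) (nat_lit 14) (.e (nat_lit 180243) (nat_lit 5) (.e (nat_lit 532502) (nat_lit 1) (.e (nat_lit 57692) (nat_lit 156) .nil))))))) (.g (nat_lit 4) .nil .nil)))) (.nd (nat_lit 5) 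
(.lf (nat_lit 251355) (.g (nat_lit 2548) (.e (nat_lit 163875) (nat_lit 3) (.e (nat_lit 204838) (nat_lit 20) (.e (nat_lit 114714) (nat_lit 22) (.e (nat_lit 90185) (nat_lit 17) (.e (nat_lit 237592) (nat_lit 3) (.e (nat_lit 204830) (nat_lit 18) (.e (nat_lit 57691) (nat_lit 156) .nil))))))) (.g (nat_lit 4) .nil .nil))) 
(.lf (nat_lit 251387) (.g (nat_lit 3194) (.e (nat_lit 163875) (nat_lit 3) (.e (nat_lit 204838) (nat_lit 20) (.e (nat_lit 114716) (nat_lit 22) (.e (nat_lit 90172) (nat_lit 14) (.e (nat_lit 180244) (nat_lit 5) (.e (nat_lit 532502) (nat_lit 1) (.e (nat_lit 57692) (nat_lit 156) .nil))))))) (.g (nat_lit 5) .nil .nil)))))) (.nd (nat_lit 3) (.nd (nat_lit 4) (.nd (nat_lit 5) 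
(.lf (nat_lit 251335) (.g (nat_lit 5431) (.e (nat_lit 163875) (nat_lit 3) (.e (nat_lit 204838) (nat_lit 20) (.e (nat_lit 114714) (nat_lit 22) (.e (nat_lit 90174) (nat_lit 14) (.e (nat_lit 180243) (nat_lit 5) (.e (nat_lit 532499) (nat_lit 1) (.e (nat_lit 57688) (nat_lit 156) .nil))))))) (.g (nat_lit 7) .nil .nil))) 
(.lf (nat_lit 251367) (.g (nat_lit 2291) (.e (nat_lit 163875) (nat_lit 3) (.e (nat_lit 204838) (nat_lit 20) (.e (nat_lit 114716) (nat_lit 22) (.e (nat_lit 90172) (nat_lit 14) (.e (nat_lit 180243) (nat_lit 5) (.e (nat_lit 532501) (nat_lit 1) (.e (nat_lit 57685) (nat_lit 156) .nil))))))) (.g (nat_lit 4) .nil .nil)))) (.nd (nat_lit 5) 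
(.lf (nat_lit 251351) (.g (nat_lit 5021) (.e (nat_lit 163875) (nat_lit 3) (.e (nat_lit 204838) (nat_lit 20) (.e (nat_lit 114714) (nat_lit 22) (.e (nat_lit 90174) (nat_lit 14) (.e (nat_lit 180243) (nat_lit 5) (.e (nat_lit 532504) (nat_lit 1) (.e (nat_lit 57692) (nat_lit 156) .nil))))))) (.g (nat_lit 0) .nil .nil))) 
(.lf (nat_lit 251383) (.g (nat_lit 3188) (.e (nat_lit 163875) (nat_lit 3) (.e (nat_lit 204838) (nat_lit 20) (.e (nat_lit 114716) (nat_lit 22) (.e (nat_lit 90172) (nat_lit 14) (.e (nat_lit 180244) (nat_lit 5) (.e (nat_lit 532501) (nat_lit 1) (.e (nat_lit 57689) (nat_lit 156) .nil))))))) (.g (nat_lit 6) .nil .nil))))) (.nd (nat_lit 4) (.nd (nat_lit 5) 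
(.lf (nat_lit 251343) (.g (nat_lit 2484) (.e (nat_lit 163875) (nat_lit 3) (.e (nat_lit 204838) (nat_lit 20) (.e (nat_lit 114714) (nat_lit 22) (.e (nat_lit 90174) (nat_lit 14) (.e (nat_lit 180243) (nat_lit 5) (.e (nat_lit 532502) (nat_lit 1) (.e (nat_lit 57686) (nat_lit 156) .nil))))))) (.g (nat_lit 4) .nil .nil))) 
(.lf (nat_lit 251375) (.g (nat_lit 2326) (.e (nat_lit 163875) (nat_lit 3) (.e (nat_lit 204838) (nat_lit 20) (.e (nat_lit 114716) (nat_lit 22) (.e (nat_lit 90172) (nat_lit 14) (.e (nat_lit 180243) (nat_lit 5) (.e (nat_lit 532504) (nat_lit 1) (.e (nat_lit 57685) (nat_lit 156) .nil))))))) (.g (nat_lit 4) .nil .nil)))) (.nd (nat_lit 5) 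
(.lf (nat_lit 251359) (.g (nat_lit 2620) (.e (nat_lit 163875) (nat_lit 3) (.e (nat_lit 204838) (nat_lit 20) (.e (nat_lit 114714) (nat_lit 22) (.e (nat_lit 90185) (nat_lit 17) (.e (nat_lit 237594) (nat_lit 3) (.e (nat_lit 204829) (nat_lit 18) (.e (nat_lit 57692) (nat_lit 156) .nil))))))) (.g (nat_lit 4) .nil .nil))) 
(.lf (nat_lit 251391) (.g (nat_lit 4132) (.e (nat_lit 163875) (nat_lit 3) (.e (nat_lit 204838) (nat_lit 20) (.e (nat_lit 114716) (nat_lit 22) (.e (nat_lit 90172) (nat_lit 14) (.e (nat_lit 180244) (nat_lit 5) (.e (nat_lit 532503) (nat_lit 1) (.e (nat_lit 57688) (nat_lit 156) .nil))))))) (.g (nat_lit 6) .nil .nil)))))))))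

noncomputable def tv3259 : DT := (.nd (nat_lit 0) (.nd (nat_lit 1) (.nd (nat_lit 2) (.nd (nat_lit 3) (.nd (nat_lit 4) (.nd (nat_lit 5) 
(.lf (nat_lit 251392) (.g (nat_lit 3732) (.e (nat_lit 163875) (nat_lit 3) (.e (nat_lit 204838) (nat_lit 20) (.e (nat_lit 114716) (nat_lit 22) (.e (nat_lit 90172) (nat_lit 14) (.e (nat_lit 180244) (nat_lit 5) (.e (nat_lit 532503) (nat_lit 1) (.e (nat_lit 57689) (nat_lit 156) .nil))))))) (.g (nat_lit 6) .nil .nil))) 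
(.lf (nat_lit 251424) (.g (nat_lit 3992) (.e (nat_lit 163875) (nat_lit 3) (.e (nat_lit 204838) (nat_lit 20) (.e (nat_lit 114719) (nat_lit 23) (.e (nat_lit 98365) (nat_lit 26) (.e (nat_lit 426137) (nat_lit 3) (.e (nat_lit 204829) (nat_lit 18) (.e (nat_lit 57686) (nat_lit 156) .nil))))))) (.g (nat_lit 6) .nil .nil)))) (.nd (nat_lit 5) 
(.lf (nat_lit 251408) (.g (nat_lit 4130) (.e (nat_lit 163875) (nat_lit 3) (.e (nat_lit 204838) (nat_lit 20) (.e (nat_lit 114716) (nat_lit 22) (.e (nat_lit 90174) (nat_lit 14) (.e (nat_lit 180243) (nat_lit 5) (.e (nat_lit 532503) (nat_lit 1) (.e (nat_lit 57685) (nat_lit 156) .nil))))))) (.g (nat_lit 7) .nil .nil))) 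
(.lf (nat_lit 251440) (.g (nat_lit 3035) (.e (nat_lit 163875) (nat_lit 3) (.e (nat_lit 204846) (nat_lit 24) (.e (nat_lit 319531) (nat_lit 16) (.e (nat_lit 286735) (nat_lit 3) (.e (nat_lit 98367) (nat_lit 27) .nil))))) .nil)))) (.nd (nat_lit 4) (.nd (nat_lit 5) 
(.lf (nat_lit 251400) (.g (nat_lit 5222) (.e (nat_lit 163875) (nat_lit 3) (.e (nat_lit 204838) (nat_lit 20) (.e (nat_lit 114716) (nat_lit 22) (.e (nat_lit 90174) (nat_lit 14) (.e (nat_lit 180243) (nat_lit 5) (.e (nat_lit 532499) (nat_lit 1) (.e (nat_lit 57688) (nat_lit 156) .nil))))))) (.g (nat_lit 0) .nil .nil))) 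
(.lf (nat_lit 251432) (.g (nat_lit 3028) (.e (nat_lit 163875) (nat_lit 3) (.e (nat_lit 204838) (nat_lit 20) (.e (nat_lit 114719) (nat_lit 23) (.e (nat_lit 98366) (nat_lit 27) (.e (nat_lit 434231) (nat_lit 23) (.e (nat_lit 532490) (nat_lit 0) (.e (nat_lit 1040) (nat_lit 81) (.e (nat_lit 7287) (nat_lit 386) .nil)))))))) (.g (nat_lit 5) .nil .nil)))) (.nd (nat_lit 5) 
(.lf (nat_lit 251416) (.g (nat_lit 2279) (.e (nat_lit 163875) (nat_lit 3) (.e (nat_lit 204838) (nat_lit 20) (.e (nat_lit 114719) (nat_lit 23) (.e (nat_lit 98359) (nat_lit 26) (.e (nat_lit 426132) (nat_lit 3) .nil))))) .nil)) 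
(.lf (nat_lit 251448) (.g (nat_lit 2979) (.e (nat_lit 163875) (nat_lit 3) (.e (nat_lit 204854) (nat_lit 26) (.e (nat_lit 336211) (nat_lit 13) (.e (nat_lit 393225) (nat_lit 9) (.e (nat_lit 335986) (nat_lit 1) (.e (nat_lit 57926) (nat_lit 282) .nil)))))) (.g (nat_lit 4) .nil .nil)))))) (.nd (nat_lit 3) (.nd (nat_lit 4) (.nd (nat_lit 5) 
(.lf (nat_lit 251396) (.g (nat_lit 1337) (.e (nat_lit 163875) (nat_lit 3) (.e (nat_lit 204838) (nat_lit 20) (.e (nat_lit 114716) (nat_lit 22) (.e (nat_lit 90173) (nat_lit 14) .nil)))) .nil)) 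
(.lf (nat_lit 251428) (.g (nat_lit 2075) (.e (nat_lit 163875) (nat_lit 3) (.e (nat_lit 204838) (nat_lit 20) (.e (nat_lit 114719) (nat_lit 23) (.e (nat_lit 98365) (nat_lit 26) (.e (nat_lit 426138) (nat_lit 3) .nil))))) .nil))) (.nd (nat_lit 5) 
(.lf (nat_lit 251412) (.g (nat_lit 4611) (.e (nat_lit 163875) (nat_lit 3) (.e (nat_lit 204838) (nat_lit 20) (.e (nat_lit 114716) (nat_lit 22) (.e (nat_lit 90174) (nat_lit 14) (.e (nat_lit 180243) (nat_lit 5) (.e (nat_lit 532504) (nat_lit 1) (.e (nat_lit 57692) (nat_lit 156) .nil))))))) (.g (nat_lit 7) .nil .nil))) 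
(.lf (nat_lit 251444) (.g (nat_lit 1799) (.e (nat_lit 163875) (nat_lit 3) (.e (nat_lit 204851) (nat_lit 26) (.e (nat_lit 336019) (nat_lit 3) (.e (nat_lit 98342) (nat_lit 20) (.e (nat_lit 221213) (nat_lit 23) .nil))))) .nil)))) (.nd (nat_lit 4) (.nd (nat_lit 5) 
(.lf (nat_lit 251404) (.g (nat_lit 4014) (.e (nat_lit 163875) (nat_lit 3) (.e (nat_lit 204838) (nat_lit 20) (.e (nat_lit 114716) (nat_lit 22) (.e (nat_lit 90174) (nat_lit 14) (.e (nat_lit 180243) (nat_lit 5) (.e (nat_lit 532501) (nat_lit 1) (.e (nat_lit 57690) (nat_lit 156) .nil))))))) (.g (nat_lit 7) .nil .nil))) 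
(.lf (nat_lit 251436) (.g (nat_lit 3906) (.e (nat_lit 163875) (nat_lit 3) (.e (nat_lit 204838) (nat_lit 20) (.e (nat_lit 114719) (nat_lit 23) (.e (nat_lit 98367) (nat_lit 27) (.e (nat_lit 434231) (nat_lit 23) (.e (nat_lit 532483) (nat_lit 0) (.e (nat_lit 1036) (nat_lit 81) (.e (nat_lit 7289) (nat_lit 386) .nil)))))))) (.g (nat_lit 5) .nil .nil)))) (.nd (nat_lit 5) 
(.lf (nat_lit 251420) (.g (nat_lit 4322) (.e (nat_lit 163875) (nat_lit 3) (.e (nat_lit 204838) (nat_lit 20) (.e (nat_lit 114719) (nat_lit 23) (.e (nat_lit 98365) (nat_lit 26) (.e (nat_lit 426133) (nat_lit 3) (.e (nat_lit 204829) (nat_lit 18) (.e (nat_lit 57686) (nat_lit 156) .nil))))))) (.g (nat_lit 7) .nil .nil))) 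
(.lf (nat_lit 251452) (.g (nat_lit 2757) (.e (nat_lit 163875) (nat_lit 3) (.e (nat_lit 204859) (nat_lit 26) (.e (nat_lit 336209) (nat_lit 13) (.e (nat_lit 393225) (nat_lit 9) (.e (nat_lit 335988) (nat_lit 1) (.e (nat_lit 57927) (nat_lit 282) .nil)))))) (.g (nat_lit 0) .nil .nil))))))) (.nd (nat_lit 2) (.nd (nat_lit 3) (.nd (nat_lit 4) (.nd (nat_lit 5) 
(.lf (nat_lit 251394) (.g (nat_lit 3098) (.e (nat_lit 163875) (nat_lit 3) (.e (nat_lit 204838) (nat_lit 20) (.e (nat_lit 114716) (nat_lit 22) (.e (nat_lit 90172) (nat_lit 14) (.e (nat_lit 180244) (nat_lit 5) (.e (nat_lit 532504) (nat_lit 1) (.e (nat_lit 57690) (nat_lit 156) .nil))))))) (.g (nat_lit 5) .nil .nil))) 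
(.lf (nat_lit 251426) (.g (nat_lit 3981) (.e (nat_lit 163875) (nat_lit 3) (.e (nat_lit 204838) (nat_lit 20) (.e (nat_lit 114719) (nat_lit 23) (.e (nat_lit 98365) (nat_lit 26) (.e (nat_lit 426137) (nat_lit 3) (.e (nat_lit 204829) (nat_lit 18) (.e (nat_lit 57692) (nat_lit 156) .nil))))))) (.g (nat_lit 6) .nil .nil)))) (.nd (nat_lit 5) 
(.lf (nat_lit 251410) (.g (nat_lit 3604) (.e (nat_lit 163875) (nat_lit 3) (.e (nat_lit 204838) (nat_lit 20) (.e (nat_lit 114716) (nat_lit 22) (.e (nat_lit 90174) (nat_lit 14) (.e (nat_lit 180243) (nat_lit 5) (.e (nat_lit 532504) (nat_lit 1) (.e (nat_lit 57689) (nat_lit 156) .nil))))))) (.g (nat_lit 6) .nil .nil))) 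
(.lf (nat_lit 251442) (.g (nat_lit 2983) (.e (nat_lit 163875) (nat_lit 3) (.e (nat_lit 204846) (nat_lit 24) (.e (nat_lit 319534) (nat_lit 16) (.e (nat_lit 286735) (nat_lit 3) (.e (nat_lit 98367) (nat_lit 27) .nil))))) .nil)))) (.nd (nat_lit 4) (.nd (nat_lit 5) 
(.lf (nat_lit 251402) (.g (nat_lit 3337) (.e (nat_lit 163875) (nat_lit 3) (.e (nat_lit 204838) (nat_lit 20) (.e (nat_lit 114716) (nat_lit 22) (.e (nat_lit 90174) (nat_lit 14) (.e (nat_lit 180243) (nat_lit 5) (.e (nat_lit 532501) (nat_lit 1) (.e (nat_lit 57685) (nat_lit 156) .nil))))))) (.g (nat_lit 6) .nil .nil))) 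
(.lf (nat_lit 251434) (.g (nat_lit 3660) (.e (nat_lit 163875) (nat_lit 3) (.e (nat_lit 204838) (nat_lit 20) (.e (nat_lit 114719) (nat_lit 23) (.e (nat_lit 98367) (nat_lit 27) (.e (nat_lit 434231) (nat_lit 23) (.e (nat_lit 532483) (nat_lit 0) (.e (nat_lit 1030) (nat_lit 81) (.e (nat_lit 7289) (nat_lit 386) .nil)))))))) (.g (nat_lit 5) .nil .nil)))) (.nd (nat_lit 5) 
(.lf (nat_lit 251418) (.g (nat_lit 2583) (.e (nat_lit 163875) (nat_lit 3) (.e (nat_lit 204838) (nat_lit 20) (.e (nat_lit 114719) (nat_lit 23) (.e (nat_lit 98359) (nat_lit 26) (.e (nat_lit 426132) (nat_lit 3) (.e (nat_lit 204830) (nat_lit 18) (.e (nat_lit 57692) (nat_lit 156) .nil))))))) (.g (nat_lit 4) .nil .nil))) 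
(.lf (nat_lit 251450) (.g (nat_lit 1735) (.e (nat_lit 163875) (nat_lit 3) (.e (nat_lit 204859) (nat_lit 26) (.e (nat_lit 336017) (nat_lit 3) (.e (nat_lit 98341) (nat_lit 20) (.e (nat_lit 221215) (nat_lit 23) .nil))))) .nil))))) (.nd (nat_lit 3) (.nd (nat_lit 4) (.nd (nat_lit 5) 
(.lf (nat_lit 251398) (.g (nat_lit 2381) (.e (nat_lit 163875) (nat_lit 3) (.e (nat_lit 204838) (nat_lit 20) (.e (nat_lit 114716) (nat_lit 22) (.e (nat_lit 90173) (nat_lit 14) (.e (nat_lit 180244) (nat_lit 5) (.e (nat_lit 532503) (nat_lit 1) (.e (nat_lit 57685) (nat_lit 156) .nil))))))) (.g (nat_lit 4) .nil .nil))) 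
(.lf (nat_lit 251430) (.g (nat_lit 4439) (.e (nat_lit 163875) (nat_lit 3) (.e (nat_lit 204838) (nat_lit 20) (.e (nat_lit 114719) (nat_lit 23) (.e (nat_lit 98365) (nat_lit 26) (.e (nat_lit 426139) (nat_lit 3) (.e (nat_lit 204829) (nat_lit 18) (.e (nat_lit 57692) (nat_lit 156) .nil))))))) (.g (nat_lit 6) .nil .nil)))) (.nd (nat_lit 5) 
(.lf (nat_lit 251414) (.g (nat_lit 3637) (.e (nat_lit 163875) (nat_lit 3) (.e (nat_lit 204838) (nat_lit 20) (.e (nat_lit 114716) (nat_lit 22) (.e (nat_lit 90185) (nat_lit 17) (.e (nat_lit 237594) (nat_lit 3) (.e (nat_lit 204829) (nat_lit 18) (.e (nat_lit 57688) (nat_lit 156) .nil))))))) (.g (nat_lit 6) .nil .nil))) 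
(.lf (nat_lit 251446) (.g (nat_lit 1098) (.e (nat_lit 163875) (nat_lit 3) (.e (nat_lit 204854) (nat_lit 26) (.e (nat_lit 336211) (nat_lit 13) .nil))) .nil)))) (.nd (nat_lit 4) (.nd (nat_lit 5) 
(.lf (nat_lit 251406) (.g (nat_lit 2102) (.e (nat_lit 163875) (nat_lit 3) (.e (nat_lit 204838) (nat_lit 20) (.e (nat_lit 114716) (nat_lit 22) (.e (nat_lit 90174) (nat_lit 14) (.e (nat_lit 180243) (nat_lit 5) (.e (nat_lit 532502) (nat_lit 1) (.e (nat_lit 57686) (nat_lit 156) .nil))))))) (.g (nat_lit 4) .nil .nil))) 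
(.lf (nat_lit 251438) (.g (nat_lit 2836) (.e (nat_lit 163875) (nat_lit 3) (.e (nat_lit 204845) (nat_lit 24) (.e (nat_lit 319530) (nat_lit 16) (.e (nat_lit 286735) (nat_lit 3) (.e (nat_lit 98367) (nat_lit 27) .nil))))) .nil))) (.nd (nat_lit 5) 
(.lf (nat_lit 251422) (.g (nat_lit 4506) (.e (nat_lit 163875) (nat_lit 3) (.e (nat_lit 204838) (nat_lit 20) (.e (nat_lit 114719) (nat_lit 23) (.e (nat_lit 98365) (nat_lit 26) (.e (nat_lit 426133) (nat_lit 3) (.e (nat_lit 204829) (nat_lit 18) (.e (nat_lit 57692) (nat_lit 156) .nil))))))) (.g (nat_lit 0) .nil .nil))) 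
(.lf (nat_lit 251454) (.g (nat_lit 1275) (.e (nat_lit 163875) (nat_lit 3) (.e (nat_lit 204859) (nat_lit 26) (.e (nat_lit 336209) (nat_lit 13) (.e (nat_lit 393229) (nat_lit 9) (.e (nat_lit 343808) (nat_lit 1) (.e (nat_lit 57927) (nat_lit 282) .nil)))))) (.g (nat_lit 4) .nil .nil)))))))) (.nd (nat_lit 1) (.nd (nat_lit 2) (.nd (nat_lit 3) (.nd (nat_lit 4) (.nd (nat_lit 5) 
(.lf (nat_lit 251393) (.g (nat_lit 2995) (.e (nat_lit 163875) (nat_lit 3) (.e (nat_lit 204838) (nat_lit 20) (.e (nat_lit 114716) (nat_lit 22) (.e (nat_lit 90172) (nat_lit 14) (.e (nat_lit 180244) (nat_lit 5) (.e (nat_lit 532503) (nat_lit 1) (.e (nat_lit 57692) (nat_lit 156) .nil))))))) (.g (nat_lit 5) .nil .nil))) 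
(.lf (nat_lit 251425) (.g (nat_lit 3887) (.e (nat_lit 163875) (nat_lit 3) (.e (nat_lit 204838) (nat_lit 20) (.e (nat_lit 114719) (nat_lit 23) (.e (nat_lit 98365) (nat_lit 26) (.e (nat_lit 426137) (nat_lit 3) (.e (nat_lit 204829) (nat_lit 18) (.e (nat_lit 57691) (nat_lit 156) .nil))))))) (.g (nat_lit 6) .nil .nil)))) (.nd (nat_lit 5) 
(.lf (nat_lit 251409) (.g (nat_lit 3640) (.e (nat_lit 163875) (nat_lit 3) (.e (nat_lit 204838) (nat_lit 20) (.e (nat_lit 114716) (nat_lit 22) (.e (nat_lit 90174) (nat_lit 14) (.e (nat_lit 180243) (nat_lit 5) (.e (nat_lit 532503) (nat_lit 1) (.e (nat_lit 57689) (nat_lit 156) .nil))))))) (.g (nat_lit 6) .nil .nil))) 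
(.lf (nat_lit 251441) (.g (nat_lit 2757) (.e (nat_lit 163875) (nat_lit 3) (.e (nat_lit 204846) (nat_lit 24) (.e (nat_lit 319533) (nat_lit 16) (.e (nat_lit 286735) (nat_lit 3) (.e (nat_lit 98367) (nat_lit 27) .nil))))) .nil)))) (.nd (nat_lit 4) (.nd (nat_lit 5) 
(.lf (nat_lit 251401) (.g (nat_lit 4606) (.e (nat_lit 163875) (nat_lit 3) (.e (nat_lit 204838) (nat_lit 20) (.e (nat_lit 114716) (nat_lit 22) (.e (nat_lit 90174) (nat_lit 14) (.e (nat_lit 180243) (nat_lit 5) (.e (nat_lit 532499) (nat_lit 1) (.e (nat_lit 57692) (nat_lit 156) .nil))))))) (.g (nat_lit 0) .nil .nil))) 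
(.lf (nat_lit 251433) (.g (nat_lit 3182) (.e (nat_lit 163875) (nat_lit 3) (.e (nat_lit 204838) (nat_lit 20) (.e (nat_lit 114719) (nat_lit 23) (.e (nat_lit 98366) (nat_lit 27) (.e (nat_lit 434231) (nat_lit 23) (.e (nat_lit 532490) (nat_lit 0) (.e (nat_lit 1040) (nat_lit 81) (.e (nat_lit 7289) (nat_lit 386) .nil)))))))) (.g (nat_lit 5) .nil .nil)))) (.nd (nat_lit 5) 
(.lf (nat_lit 251417) (.g (nat_lit 3338) (.e (nat_lit 163875) (nat_lit 3) (.e (nat_lit 204838) (nat_lit 20) (.e (nat_lit 114719) (nat_lit 23) (.e (nat_lit 98359) (nat_lit 26) (.e (nat_lit 426132) (nat_lit 3) (.e (nat_lit 204830) (nat_lit 18) (.e (nat_lit 57691) (nat_lit 156) .nil))))))) (.g (nat_lit 5) .nil .nil))) 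
(.lf (nat_lit 251449) (.g (nat_lit 2994) (.e (nat_lit 163875) (nat_lit 3) (.e (nat_lit 204854) (nat_lit 26) (.e (nat_lit 336211) (nat_lit 13) (.e (nat_lit 393225) (nat_lit 9) (.e (nat_lit 335988) (nat_lit 1) (.e (nat_lit 57926) (nat_lit 282) .nil)))))) (.g (nat_lit 4) .nil .nil)))))) (.nd (nat_lit 3) (.nd (nat_lit 4) (.nd (nat_lit 5) 
(.lf (nat_lit 251397) (.g (nat_lit 2345) (.e (nat_lit 163875) (nat_lit 3) (.e (nat_lit 204838) (nat_lit 20) (.e (nat_lit 114716) (nat_lit 22) (.e (nat_lit 90173) (nat_lit 14) (.e (nat_lit 180244) (nat_lit 5) (.e (nat_lit 532499) (nat_lit 1) (.e (nat_lit 57686) (nat_lit 156) .nil))))))) (.g (nat_lit 4) .nil .nil))) 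
(.lf (nat_lit 251429) (.g (nat_lit 4423) (.e (nat_lit 163875) (nat_lit 3) (.e (nat_lit 204838) (nat_lit 20) (.e (nat_lit 114719) (nat_lit 23) (.e (nat_lit 98365) (nat_lit 26) (.e (nat_lit 426139) (nat_lit 3) (.e (nat_lit 204829) (nat_lit 18) (.e (nat_lit 57686) (nat_lit 156) .nil))))))) (.g (nat_lit 6) .nil .nil)))) (.nd (nat_lit 5) 
(.lf (nat_lit 251413) (.g (nat_lit 2872) (.e (nat_lit 163875) (nat_lit 3) (.e (nat_lit 204838) (nat_lit 20) (.e (nat_lit 114716) (nat_lit 22) (.e (nat_lit 90185) (nat_lit 17) (.e (nat_lit 237593) (nat_lit 3) .nil))))) .nil)) 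
(.lf (nat_lit 251445) (.g (nat_lit 2280) (.e (nat_lit 163875) (nat_lit 3) (.e (nat_lit 204854) (nat_lit 26) (.e (nat_lit 336019) (nat_lit 3) (.e (nat_lit 98341) (nat_lit 20) .nil)))) .nil)))) (.nd (nat_lit 4) (.nd (nat_lit 5) 
(.lf (nat_lit 251405) (.g (nat_lit 4161) (.e (nat_lit 163875) (nat_lit 3) (.e (nat_lit 204838) (nat_lit 20) (.e (nat_lit 114716) (nat_lit 22) (.e (nat_lit 90174) (nat_lit 14) (.e (nat_lit 180243) (nat_lit 5) (.e (nat_lit 532501) (nat_lit 1) (.e (nat_lit 57692) (nat_lit 156) .nil))))))) (.g (nat_lit 7) .nil .nil))) 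
(.lf (nat_lit 251437) (.g (nat_lit 1424) (.e (nat_lit 163875) (nat_lit 3) (.e (nat_lit 204838) (nat_lit 20) (.e (nat_lit 114719) (nat_lit 23) (.e (nat_lit 98376) (nat_lit 30) .nil)))) .nil))) (.nd (nat_lit 5) 
(.lf (nat_lit 251421) (.g (nat_lit 4321) (.e (nat_lit 163875) (nat_lit 3) (.e (nat_lit 204838) (nat_lit 20) (.e (nat_lit 114719) (nat_lit 23) (.e (nat_lit 98365) (nat_lit 26) (.e (nat_lit 426133) (nat_lit 3) (.e (nat_lit 204829) (nat_lit 18) (.e (nat_lit 57688) (nat_lit 156) .nil))))))) (.g (nat_lit 7) .nil .nil))) 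
(.lf (nat_lit 251453) (.g (nat_lit 1140) (.e (nat_lit 163875) (nat_lit 3) (.e (nat_lit 204859) (nat_lit 26) (.e (nat_lit 336209) (nat_lit 13) (.e (nat_lit 393225) (nat_lit 9) (.e (nat_lit 343808) (nat_lit 1) .nil))))) .nil)))))) (.nd (nat_lit 2) (.nd (nat_lit 3) (.nd (nat_lit 4) (.nd (nat_lit 5) 
(.lf (nat_lit 251395) (.g (nat_lit 4055) (.e (nat_lit 163875) (nat_lit 3) (.e (nat_lit 204838) (nat_lit 20) (.e (nat_lit 114716) (nat_lit 22) (.e (nat_lit 90172) (nat_lit 14) (.e (nat_lit 180244) (nat_lit 5) (.e (nat_lit 532504) (nat_lit 1) (.e (nat_lit 57692) (nat_lit 156) .nil))))))) (.g (nat_lit 7) .nil .nil))) 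
(.lf (nat_lit 251427) (.g (nat_lit 2473) (.e (nat_lit 163875) (nat_lit 3) (.e (nat_lit 204838) (nat_lit 20) (.e (nat_lit 114719) (nat_lit 23) (.e (nat_lit 98365) (nat_lit 26) (.e (nat_lit 426137) (nat_lit 3) (.e (nat_lit 204830) (nat_lit 18) (.e (nat_lit 57692) (nat_lit 156) .nil))))))) (.g (nat_lit 4) .nil .nil)))) (.nd (nat_lit 5) 
(.lf (nat_lit 251411) (.g (nat_lit 4149) (.e (nat_lit 163875) (nat_lit 3) (.e (nat_lit 204838) (nat_lit 20) (.e (nat_lit 114716) (nat_lit 22) (.e (nat_lit 90174) (nat_lit 14) (.e (nat_lit 180243) (nat_lit 5) (.e (nat_lit 532504) (nat_lit 1) (.e (nat_lit 57690) (nat_lit 156) .nil))))))) (.g (nat_lit 7) .nil .nil))) 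
(.lf (nat_lit 251443) (.g (nat_lit 1734) (.e (nat_lit 163875) (nat_lit 3) (.e (nat_lit 204850) (nat_lit 26) (.e (nat_lit 336019) (nat_lit 3) (.e (nat_lit 98341) (nat_lit 20) (.e (nat_lit 221214) (nat_lit 23) .nil))))) .nil)))) (.nd (nat_lit 4) (.nd (nat_lit 5) 
(.lf (nat_lit 251403) (.g (nat_lit 4087) (.e (nat_lit 163875) (nat_lit 3) (.e (nat_lit 204838) (nat_lit 20) (.e (nat_lit 114716) (nat_lit 22) (.e (nat_lit 90174) (nat_lit 14) (.e (nat_lit 180243) (nat_lit 5) (.e (nat_lit 532501) (nat_lit 1) (.e (nat_lit 57689) (nat_lit 156) .nil))))))) (.g (nat_lit 6) .nil .nil))) 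
(.lf (nat_lit 251435) (.g (nat_lit 3820) (.e (nat_lit 163875) (nat_lit 3) (.e (nat_lit 204838) (nat_lit 20) (.e (nat_lit 114719) (nat_lit 23) (.e (nat_lit 98367) (nat_lit 27) (.e (nat_lit 434231) (nat_lit 23) (.e (nat_lit 532483) (nat_lit 0) (.e (nat_lit 1036) (nat_lit 81) (.e (nat_lit 7287) (nat_lit 386) .nil)))))))) (.g (nat_lit 5) .nil .nil)))) (.nd (nat_lit 5) 
(.lf (nat_lit 251419) (.g (nat_lit 2267) (.e (nat_lit 163875) (nat_lit 3) (.e (nat_lit 204838) (nat_lit 20) (.e (nat_lit 114719) (nat_lit 23) (.e (nat_lit 98365) (nat_lit 26) (.e (nat_lit 426132) (nat_lit 3) (.e (nat_lit 204830) (nat_lit 18) (.e (nat_lit 57692) (nat_lit 156) .nil))))))) (.g (nat_lit 4) .nil .nil))) 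
(.lf (nat_lit 251451) (.g (nat_lit 2138) (.e (nat_lit 163875) (nat_lit 3) (.e (nat_lit 204859) (nat_lit 26) (.e (nat_lit 336017) (nat_lit 3) (.e (nat_lit 98342) (nat_lit 20) (.e (nat_lit 221204) (nat_lit 20) .nil))))) .nil))))) (.nd (nat_lit 3) (.nd (nat_lit 4) (.nd (nat_lit 5) 
(.lf (nat_lit 251399) (.g (nat_lit 4371) (.e (nat_lit 163875) (nat_lit 3) (.e (nat_lit 204838) (nat_lit 20) (.e (nat_lit 114716) (nat_lit 22) (.e (nat_lit 90174) (nat_lit 14) (.e (nat_lit 180243) (nat_lit 5) (.e (nat_lit 532499) (nat_lit 1) (.e (nat_lit 57686) (nat_lit 156) .nil))))))) (.g (nat_lit 0) .nil .nil))) 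
(.lf (nat_lit 251431) (.g (nat_lit 3994) (.e (nat_lit 163875) (nat_lit 3) (.e (nat_lit 204838) (nat_lit 20) (.e (nat_lit 114719) (nat_lit 23) (.e (nat_lit 98365) (nat_lit 26) (.e (nat_lit 426139) (nat_lit 3) (.e (nat_lit 204830) (nat_lit 18) (.e (nat_lit 57692) (nat_lit 156) .nil))))))) (.g (nat_lit 6) .nil .nil)))) (.nd (nat_lit 5) 
(.lf (nat_lit 251415) (.g (nat_lit 3966) (.e (nat_lit 163875) (nat_lit 3) (.e (nat_lit 204838) (nat_lit 20) (.e (nat_lit 114716) (nat_lit 22) (.e (nat_lit 90185) (nat_lit 17) (.e (nat_lit 237594) (nat_lit 3) (.e (nat_lit 204830) (nat_lit 18) (.e (nat_lit 57692) (nat_lit 156) .nil))))))) (.g (nat_lit 7) .nil .nil))) 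
(.lf (nat_lit 251447) (.g (nat_lit 1820) (.e (nat_lit 163875) (nat_lit 3) (.e (nat_lit 204854) (nat_lit 26) (.e (nat_lit 336211) (nat_lit 13) (.e (nat_lit 393225) (nat_lit 9) .nil)))) .nil)))) (.nd (nat_lit 4) (.nd (nat_lit 5) 
(.lf (nat_lit 251407) (.g (nat_lit 2616) (.e (nat_lit 163875) (nat_lit 3) (.e (nat_lit 204838) (nat_lit 20) (.e (nat_lit 114716) (nat_lit 22) (.e (nat_lit 90174) (nat_lit 14) (.e (nat_lit 180243) (nat_lit 5) (.e (nat_lit 532502) (nat_lit 1) (.e (nat_lit 57688) (nat_lit 156) .nil))))))) (.g (nat_lit 5) .nil .nil))) 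
(.lf (nat_lit 251439) (.g (nat_lit 2716) (.e (nat_lit 163875) (nat_lit 3) (.e (nat_lit 204845) (nat_lit 24) (.e (nat_lit 319531) (nat_lit 16) (.e (nat_lit 286735) (nat_lit 3) (.e (nat_lit 98367) (nat_lit 27) .nil))))) .nil))) (.nd (nat_lit 5) 
(.lf (nat_lit 251423) (.g (nat_lit 2075) (.e (nat_lit 163875) (nat_lit 3) (.e (nat_lit 204838) (nat_lit 20) (.e (nat_lit 114719) (nat_lit 23) (.e (nat_lit 98365) (nat_lit 26) (.e (nat_lit 426137) (nat_lit 3) .nil))))) .nil)) 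
(.lf (nat_lit 251455) (.g (nat_lit 2428) (.e (nat_lit 163875) (nat_lit 3) (.e (nat_lit 204861) (nat_lit 26) (.e (nat_lit 336076) (nat_lit 9) (.e (nat_lit 336452) (nat_lit 34) (.e (nat_lit 483364) (nat_lit 18) (.e (nat_lit 57927) (nat_lit 282) .nil)))))) (.g (nat_lit 4) .nil .nil)))))))))

noncomputable def tv3260 : DT := (.nd (nat_lit 0) (.nd (nat_lit 1) (.nd (nat_lit 2) (.nd (nat_lit 3) (.nd (nat_lit 4) (.nd (nat_lit 5) 
(.lf (nat_lit 251456) (.g (nat_lit 2162) (.e (nat_lit 163875) (nat_lit 3) (.e (nat_lit 204861) (nat_lit 26) (.e (nat_lit 336076) (nat_lit 9) (.e (nat_lit 336454) (nat_lit 34) (.e (nat_lit 483362) (nat_lit 18) (.e (nat_lit 57925) (nat_lit 282) .nil)))))) (.g (nat_lit 4) .nil .nil))) 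
(.lf (nat_lit 251488) (.g (nat_lit 3110) (.e (nat_lit 163875) (nat_lit 3) (.e (nat_lit 204861) (nat_lit 26) (.e (nat_lit 336213) (nat_lit 13) (.e (nat_lit 393225) (nat_lit 9) (.e (nat_lit 335986) (nat_lit 1) (.e (nat_lit 57925) (nat_lit 282) .nil)))))) (.g (nat_lit 5) .nil .nil)))) (.nd (nat_lit 5) 
(.lf (nat_lit 251472) (.g (nat_lit 2615) (.e (nat_lit 163875) (nat_lit 3) (.e (nat_lit 204861) (nat_lit 26) (.e (nat_lit 336213) (nat_lit 13) (.e (nat_lit 393225) (nat_lit 9) (.e (nat_lit 335892) (nat_lit 0) (.e (nat_lit 1034) (nat_lit 81) (.e (nat_lit 5589) (nat_lit 310) .nil))))))) (.g (nat_lit 4) .nil .nil))) 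
(.lf (nat_lit 251504) (.g (nat_lit 2518) (.e (nat_lit 163875) (nat_lit 3) (.e (nat_lit 204861) (nat_lit 26) (.e (nat_lit 336213) (nat_lit 13) (.e (nat_lit 393229) (nat_lit 9) (.e (nat_lit 335892) (nat_lit 0) (.e (nat_lit 1034) (nat_lit 81) (.e (nat_lit 5585) (nat_lit 310) .nil))))))) (.g (nat_lit 4) .nil .nil))))) (.nd (nat_lit 4) (.nd (nat_lit 5) 
(.lf (nat_lit 251464) (.g (nat_lit 2660) (.e (nat_lit 163875) (nat_lit 3) (.e (nat_lit 204861) (nat_lit 26) (.e (nat_lit 336076) (nat_lit 9) (.e (nat_lit 336456) (nat_lit 34) (.e (nat_lit 483364) (nat_lit 18) (.e (nat_lit 57924) (nat_lit 282) .nil)))))) (.g (nat_lit 4) .nil .nil))) 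
(.lf (nat_lit 251496) (.g (nat_lit 2250) (.e (nat_lit 163875) (nat_lit 3) (.e (nat_lit 204861) (nat_lit 26) (.e (nat_lit 336213) (nat_lit 13) (.e (nat_lit 393226) (nat_lit 9) .nil)))) .nil))) (.nd (nat_lit 5) 
(.lf (nat_lit 251480) (.g (nat_lit 2126) (.e (nat_lit 163875) (nat_lit 3) (.e (nat_lit 204861) (nat_lit 26) (.e (nat_lit 336213) (nat_lit 13) (.e (nat_lit 393225) (nat_lit 9) (.e (nat_lit 335914) (nat_lit 0) (.e (nat_lit 1032) (nat_lit 81) (.e (nat_lit 5585) (nat_lit 310) .nil))))))) (.g (nat_lit 4) .nil .nil))) 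
(.lf (nat_lit 251512) (.g (nat_lit 2348) (.e (nat_lit 163875) (nat_lit 3) (.e (nat_lit 204861) (nat_lit 26) (.e (nat_lit 336213) (nat_lit 13) (.e (nat_lit 393229) (nat_lit 9) (.e (nat_lit 335912) (nat_lit 0) (.e (nat_lit 1048) (nat_lit 81) (.e (nat_lit 5589) (nat_lit 310) .nil))))))) (.g (nat_lit 4) .nil .nil)))))) (.nd (nat_lit 3) (.nd (nat_lit 4) (.nd (nat_lit 5) 
(.lf (nat_lit 251460) (.g (nat_lit 3634) (.e (nat_lit 163875) (nat_lit 3) (.e (nat_lit 204861) (nat_lit 26) (.e (nat_lit 336076) (nat_lit 9) (.e (nat_lit 336454) (nat_lit 34) (.e (nat_lit 483365) (nat_lit 18) (.e (nat_lit 57924) (nat_lit 282) .nil)))))) (.g (nat_lit 6) .nil .nil))) 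
(.lf (nat_lit 251492) (.g (nat_lit 3750) (.e (nat_lit 163875) (nat_lit 3) (.e (nat_lit 204861) (nat_lit 26) (.e (nat_lit 336213) (nat_lit 13) (.e (nat_lit 393225) (nat_lit 9) (.e (nat_lit 335988) (nat_lit 1) (.e (nat_lit 57925) (nat_lit 282) .nil)))))) (.g (nat_lit 0) .nil .nil)))) (.nd (nat_lit 5) 
(.lf (nat_lit 251476) (.g (nat_lit 2158) (.e (nat_lit 163875) (nat_lit 3) (.e (nat_lit 204861) (nat_lit 26) (.e (nat_lit 336213) (nat_lit 13) (.e (nat_lit 393225) (nat_lit 9) (.e (nat_lit 335913) (nat_lit 0) (.e (nat_lit 1030) (nat_lit 81) (.e (nat_lit 5585) (nat_lit 310) .nil))))))) (.g (nat_lit 4) .nil .nil))) 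
(.lf (nat_lit 251508) (.g (nat_lit 2252) (.e (nat_lit 163875) (nat_lit 3) (.e (nat_lit 204861) (nat_lit 26) (.e (nat_lit 336213) (nat_lit 13) (.e (nat_lit 393229) (nat_lit 9) (.e (nat_lit 335911) (nat_lit 0) (.e (nat_lit 1048) (nat_lit 81) (.e (nat_lit 5589) (nat_lit 310) .nil))))))) (.g (nat_lit 4) .nil .nil))))) (.nd (nat_lit 4) (.nd (nat_lit 5) 
(.lf (nat_lit 251468) (.g (nat_lit 1800) (.e (nat_lit 163875) (nat_lit 3) (.e (nat_lit 204861) (nat_lit 26) (.e (nat_lit 336078) (nat_lit 9) (.e (nat_lit 336454) (nat_lit 34) (.e (nat_lit 483364) (nat_lit 18) .nil))))) .nil)) 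
(.lf (nat_lit 251500) (.g (nat_lit 2995) (.e (nat_lit 163875) (nat_lit 3) (.e (nat_lit 204861) (nat_lit 26) (.e (nat_lit 336213) (nat_lit 13) (.e (nat_lit 393229) (nat_lit 9) (.e (nat_lit 335892) (nat_lit 0) (.e (nat_lit 996) (nat_lit 81) (.e (nat_lit 5593) (nat_lit 310) .nil))))))) (.g (nat_lit 4) .nil .nil)))) (.nd (nat_lit 5) 
(.lf (nat_lit 251484) (.g (nat_lit 2805) (.e (nat_lit 163875) (nat_lit 3) (.e (nat_lit 204861) (nat_lit 26) (.e (nat_lit 336213) (nat_lit 13) (.e (nat_lit 393225) (nat_lit 9) (.e (nat_lit 335985) (nat_lit 1) (.e (nat_lit 57924) (nat_lit 282) .nil)))))) (.g (nat_lit 4) .nil .nil))) 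
(.lf (nat_lit 251516) (.g (nat_lit 2294) (.e (nat_lit 163875) (nat_lit 3) (.e (nat_lit 204861) (nat_lit 26) (.e (nat_lit 336213) (nat_lit 13) (.e (nat_lit 393229) (nat_lit 9) (.e (nat_lit 335988) (nat_lit 1) (.e (nat_lit 57925) (nat_lit 282) .nil)))))) (.g (nat_lit 4) .nil .nil))))))) (.nd (nat_lit 2) (.nd (nat_lit 3) (.nd (nat_lit 4) (.nd (nat_lit 5) 
(.lf (nat_lit 251458) (.g (nat_lit 2790) (.e (nat_lit 163875) (nat_lit 3) (.e (nat_lit 204861) (nat_lit 26) (.e (nat_lit 336076) (nat_lit 9) (.e (nat_lit 336454) (nat_lit 34) (.e (nat_lit 483363) (nat_lit 18) (.e (nat_lit 57925) (nat_lit 282) .nil)))))) (.g (nat_lit 5) .nil .nil))) 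
(.lf (nat_lit 251490) (.g (nat_lit 2820) (.e (nat_lit 163875) (nat_lit 3) (.e (nat_lit 204861) (nat_lit 26) (.e (nat_lit 336213) (nat_lit 13) (.e (nat_lit 393225) (nat_lit 9) (.e (nat_lit 335987) (nat_lit 1) (.e (nat_lit 57926) (nat_lit 282) .nil)))))) (.g (nat_lit 4) .nil .nil)))) (.nd (nat_lit 5) 
(.lf (nat_lit 251474) (.g (nat_lit 2491) (.e (nat_lit 163875) (nat_lit 3) (.e (nat_lit 204861) (nat_lit 26) (.e (nat_lit 336213) (nat_lit 13) (.e (nat_lit 393225) (nat_lit 9) (.e (nat_lit 335913) (nat_lit 0) (.e (nat_lit 1022) (nat_lit 81) (.e (nat_lit 5589) (nat_lit 310) .nil))))))) (.g (nat_lit 4) .nil .nil))) 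
(.lf (nat_lit 251506) (.g (nat_lit 2358) (.e (nat_lit 163875) (nat_lit 3) (.e (nat_lit 204861) (nat_lit 26) (.e (nat_lit 336213) (nat_lit 13) (.e (nat_lit 393229) (nat_lit 9) (.e (nat_lit 335894) (nat_lit 0) .nil))))) .nil)))) (.nd (nat_lit 4) (.nd (nat_lit 5) 
(.lf (nat_lit 251466) (.g (nat_lit 497) (.e (nat_lit 163875) (nat_lit 3) (.e (nat_lit 204861) (nat_lit 26) (.e (nat_lit 336078) (nat_lit 9) .nil))) .nil)) 
(.lf (nat_lit 251498) (.g (nat_lit 2564) (.e (nat_lit 163875) (nat_lit 3) (.e (nat_lit 204861) (nat_lit 26) (.e (nat_lit 336213) (nat_lit 13) (.e (nat_lit 393228) (nat_lit 9) (.e (nat_lit 335988) (nat_lit 1) .nil))))) .nil))) (.nd (nat_lit 5) 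
(.lf (nat_lit 251482) (.g (nat_lit 2543) (.e (nat_lit 163875) (nat_lit 3) (.e (nat_lit 204861) (nat_lit 26) (.e (nat_lit 336213) (nat_lit 13) (.e (nat_lit 393225) (nat_lit 9) (.e (nat_lit 335917) (nat_lit 0) (.e (nat_lit 1023) (nat_lit 81) (.e (nat_lit 5585) (nat_lit 310) .nil))))))) (.g (nat_lit 4) .nil .nil))) 
(.lf (nat_lit 251514) (.g (nat_lit 2321) (.e (nat_lit 163875) (nat_lit 3) (.e (nat_lit 204861) (nat_lit 26) (.e (nat_lit 336213) (nat_lit 13) (.e (nat_lit 393229) (nat_lit 9) (.e (nat_lit 335987) (nat_lit 1) .nil))))) .nil))))) (.nd (nat_lit 3) (.nd (nat_lit 4) (.nd (nat_lit 5) 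
(.lf (nat_lit 251462) (.g (nat_lit 1874) (.e (nat_lit 163875) (nat_lit 3) (.e (nat_lit 204861) (nat_lit 26) (.e (nat_lit 336076) (nat_lit 9) (.e (nat_lit 336454) (nat_lit 34) (.e (nat_lit 491264) (nat_lit 18) (.e (nat_lit 57927) (nat_lit 282) .nil)))))) (.g (nat_lit 4) .nil .nil))) 
(.lf (nat_lit 251494) (.g (nat_lit 3792) (.e (nat_lit 163875) (nat_lit 3) (.e (nat_lit 204861) (nat_lit 26) (.e (nat_lit 336213) (nat_lit 13) (.e (nat_lit 393225) (nat_lit 9) (.e (nat_lit 335995) (nat_lit 1) (.e (nat_lit 57924) (nat_lit 282) .nil)))))) (.g (nat_lit 0) .nil .nil)))) (.nd (nat_lit 5) 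
(.lf (nat_lit 251478) (.g (nat_lit 2194) (.e (nat_lit 163875) (nat_lit 3) (.e (nat_lit 204861) (nat_lit 26) (.e (nat_lit 336213) (nat_lit 13) (.e (nat_lit 393225) (nat_lit 9) (.e (nat_lit 335913) (nat_lit 0) (.e (nat_lit 1045) (nat_lit 81) (.e (nat_lit 5585) (nat_lit 310) .nil))))))) (.g (nat_lit 4) .nil .nil))) 
(.lf (nat_lit 251510) (.g (nat_lit 2651) (.e (nat_lit 163875) (nat_lit 3) (.e (nat_lit 204861) (nat_lit 26) (.e (nat_lit 336213) (nat_lit 13) (.e (nat_lit 393229) (nat_lit 9) (.e (nat_lit 335912) (nat_lit 0) (.e (nat_lit 1022) (nat_lit 81) (.e (nat_lit 5589) (nat_lit 310) .nil))))))) (.g (nat_lit 4) .nil .nil))))) (.nd (nat_lit 4) (.nd (nat_lit 5) 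
(.lf (nat_lit 251470) (.g (nat_lit 2800) (.e (nat_lit 163875) (nat_lit 3) (.e (nat_lit 204861) (nat_lit 26) (.e (nat_lit 336213) (nat_lit 13) (.e (nat_lit 393225) (nat_lit 9) (.e (nat_lit 335892) (nat_lit 0) (.e (nat_lit 996) (nat_lit 81) (.e (nat_lit 5590) (nat_lit 310) .nil))))))) (.g (nat_lit 4) .nil .nil))) 
(.lf (nat_lit 251502) (.g (nat_lit 2455) (.e (nat_lit 163875) (nat_lit 3) (.e (nat_lit 204861) (nat_lit 26) (.e (nat_lit 336213) (nat_lit 13) (.e (nat_lit 393229) (nat_lit 9) (.e (nat_lit 335892) (nat_lit 0) (.e (nat_lit 1024) (nat_lit 81) (.e (nat_lit 5589) (nat_lit 310) .nil))))))) (.g (nat_lit 4) .nil .nil)))) (.nd (nat_lit 5) 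
(.lf (nat_lit 251486) (.g (nat_lit 2422) (.e (nat_lit 163875) (nat_lit 3) (.e (nat_lit 204861) (nat_lit 26) (.e (nat_lit 336213) (nat_lit 13) (.e (nat_lit 393225) (nat_lit 9) (.e (nat_lit 335985) (nat_lit 1) (.e (nat_lit 57927) (nat_lit 282) .nil)))))) (.g (nat_lit 4) .nil .nil))) 
(.lf (nat_lit 251518) (.g (nat_lit 2357) (.e (nat_lit 163875) (nat_lit 3) (.e (nat_lit 204861) (nat_lit 26) (.e (nat_lit 336213) (nat_lit 13) (.e (nat_lit 393229) (nat_lit 9) (.e (nat_lit 343808) (nat_lit 1) (.e (nat_lit 57927) (nat_lit 282) .nil)))))) (.g (nat_lit 4) .nil .nil)))))))) (.nd (nat_lit 1) (.nd (nat_lit 2) (.nd (nat_lit 3) (.nd (nat_lit 4) (.nd (nat_lit 5) 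
(.lf (nat_lit 251457) (.g (nat_lit 2849) (.e (nat_lit 163875) (nat_lit 3) (.e (nat_lit 204861) (nat_lit 26) (.e (nat_lit 336076) (nat_lit 9) (.e (nat_lit 336454) (nat_lit 34) (.e (nat_lit 483363) (nat_lit 18) (.e (nat_lit 57924) (nat_lit 282) .nil)))))) (.g (nat_lit 5) .nil .nil))) 
(.lf (nat_lit 251489) (.g (nat_lit 1925) (.e (nat_lit 163875) (nat_lit 3) (.e (nat_lit 204861) (nat_lit 26) (.e (nat_lit 336213) (nat_lit 13) (.e (nat_lit 393225) (nat_lit 9) (.e (nat_lit 335987) (nat_lit 1) (.e (nat_lit 57925) (nat_lit 282) .nil)))))) (.g (nat_lit 4) .nil .nil)))) (.nd (nat_lit 5) 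
(.lf (nat_lit 251473) (.g (nat_lit 2174) (.e (nat_lit 163875) (nat_lit 3) (.e (nat_lit 204861) (nat_lit 26) (.e (nat_lit 336213) (nat_lit 13) (.e (nat_lit 393225) (nat_lit 9) (.e (nat_lit 335913) (nat_lit 0) (.e (nat_lit 982) (nat_lit 81) (.e (nat_lit 5589) (nat_lit 310) .nil))))))) (.g (nat_lit 4) .nil .nil))) 
(.lf (nat_lit 251505) (.g (nat_lit 2594) (.e (nat_lit 163875) (nat_lit 3) (.e (nat_lit 204861) (nat_lit 26) (.e (nat_lit 336213) (nat_lit 13) (.e (nat_lit 393229) (nat_lit 9) (.e (nat_lit 335892) (nat_lit 0) (.e (nat_lit 1048) (nat_lit 81) (.e (nat_lit 5589) (nat_lit 310) .nil))))))) (.g (nat_lit 4) .nil .nil))))) (.nd (nat_lit 4) (.nd (nat_lit 5) 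
(.lf (nat_lit 251465) (.g (nat_lit 2596) (.e (nat_lit 163875) (nat_lit 3) (.e (nat_lit 204861) (nat_lit 26) (.e (nat_lit 336076) (nat_lit 9) (.e (nat_lit 336456) (nat_lit 34) (.e (nat_lit 483364) (nat_lit 18) (.e (nat_lit 57925) (nat_lit 282) .nil)))))) (.g (nat_lit 4) .nil .nil))) 
(.lf (nat_lit 251497) (.g (nat_lit 2242) (.e (nat_lit 163875) (nat_lit 3) (.e (nat_lit 204861) (nat_lit 26) (.e (nat_lit 336213) (nat_lit 13) (.e (nat_lit 393228) (nat_lit 9) .nil)))) .nil))) (.nd (nat_lit 5) 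
(.lf (nat_lit 251481) (.g (nat_lit 2216) (.e (nat_lit 163875) (nat_lit 3) (.e (nat_lit 204861) (nat_lit 26) (.e (nat_lit 336213) (nat_lit 13) (.e (nat_lit 393225) (nat_lit 9) (.e (nat_lit 335914) (nat_lit 0) (.e (nat_lit 1032) (nat_lit 81) (.e (nat_lit 5588) (nat_lit 310) .nil))))))) (.g (nat_lit 4) .nil .nil))) 
(.lf (nat_lit 251513) (.g (nat_lit 3322) (.e (nat_lit 163875) (nat_lit 3) (.e (nat_lit 204861) (nat_lit 26) (.e (nat_lit 336213) (nat_lit 13) (.e (nat_lit 393229) (nat_lit 9) (.e (nat_lit 335986) (nat_lit 1) (.e (nat_lit 57927) (nat_lit 282) .nil)))))) (.g (nat_lit 0) .nil .nil)))))) (.nd (nat_lit 3) (.nd (nat_lit 4) (.nd (nat_lit 5) 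
(.lf (nat_lit 251461) (.g (nat_lit 2470) (.e (nat_lit 163875) (nat_lit 3) (.e (nat_lit 204861) (nat_lit 26) (.e (nat_lit 336076) (nat_lit 9) (.e (nat_lit 336454) (nat_lit 34) (.e (nat_lit 483366) (nat_lit 18) (.e (nat_lit 57924) (nat_lit 282) .nil)))))) (.g (nat_lit 5) .nil .nil))) 
(.lf (nat_lit 251493) (.g (nat_lit 2678) (.e (nat_lit 163875) (nat_lit 3) (.e (nat_lit 204861) (nat_lit 26) (.e (nat_lit 336213) (nat_lit 13) (.e (nat_lit 393225) (nat_lit 9) (.e (nat_lit 335993) (nat_lit 1) (.e (nat_lit 57924) (nat_lit 282) .nil)))))) (.g (nat_lit 4) .nil .nil)))) (.nd (nat_lit 5) 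
(.lf (nat_lit 251477) (.g (nat_lit 2692) (.e (nat_lit 163875) (nat_lit 3) (.e (nat_lit 204861) (nat_lit 26) (.e (nat_lit 336213) (nat_lit 13) (.e (nat_lit 393225) (nat_lit 9) (.e (nat_lit 335913) (nat_lit 0) (.e (nat_lit 1030) (nat_lit 81) (.e (nat_lit 5589) (nat_lit 310) .nil))))))) (.g (nat_lit 4) .nil .nil))) 
(.lf (nat_lit 251509) (.g (nat_lit 2021) (.e (nat_lit 163875) (nat_lit 3) (.e (nat_lit 204861) (nat_lit 26) (.e (nat_lit 336213) (nat_lit 13) (.e (nat_lit 393229) (nat_lit 9) (.e (nat_lit 335912) (nat_lit 0) .nil))))) .nil)))) (.nd (nat_lit 4) (.nd (nat_lit 5) 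
(.lf (nat_lit 251469) (.g (nat_lit 2257) (.e (nat_lit 163875) (nat_lit 3) (.e (nat_lit 204861) (nat_lit 26) (.e (nat_lit 336213) (nat_lit 13) (.e (nat_lit 393224) (nat_lit 9) .nil)))) .nil)) 
(.lf (nat_lit 251501) (.g (nat_lit 2710) (.e (nat_lit 163875) (nat_lit 3) (.e (nat_lit 204861) (nat_lit 26) (.e (nat_lit 336213) (nat_lit 13) (.e (nat_lit 393229) (nat_lit 9) (.e (nat_lit 335892) (nat_lit 0) (.e (nat_lit 1022) (nat_lit 81) (.e (nat_lit 5589) (nat_lit 310) .nil))))))) (.g (nat_lit 4) .nil .nil)))) (.nd (nat_lit 5) 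
(.lf (nat_lit 251485) (.g (nat_lit 3242) (.e (nat_lit 163875) (nat_lit 3) (.e (nat_lit 204861) (nat_lit 26) (.e (nat_lit 336213) (nat_lit 13) (.e (nat_lit 393225) (nat_lit 9) (.e (nat_lit 335985) (nat_lit 1) (.e (nat_lit 57925) (nat_lit 282) .nil)))))) (.g (nat_lit 5) .nil .nil))) 
(.lf (nat_lit 251517) (.g (nat_lit 2555) (.e (nat_lit 163875) (nat_lit 3) (.e (nat_lit 204861) (nat_lit 26) (.e (nat_lit 336213) (nat_lit 13) (.e (nat_lit 393229) (nat_lit 9) (.e (nat_lit 335994) (nat_lit 1) (.e (nat_lit 57924) (nat_lit 282) .nil)))))) (.g (nat_lit 5) .nil .nil))))))) (.nd (nat_lit 2) (.nd (nat_lit 3) (.nd (nat_lit 4) (.nd (nat_lit 5) 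
(.lf (nat_lit 251459) (.g (nat_lit 3382) (.e (nat_lit 163875) (nat_lit 3) (.e (nat_lit 204861) (nat_lit 26) (.e (nat_lit 336076) (nat_lit 9) (.e (nat_lit 336454) (nat_lit 34) (.e (nat_lit 483364) (nat_lit 18) (.e (nat_lit 57924) (nat_lit 282) .nil)))))) (.g (nat_lit 0) .nil .nil))) 
(.lf (nat_lit 251491) (.g (nat_lit 3092) (.e (nat_lit 163875) (nat_lit 3) (.e (nat_lit 204861) (nat_lit 26) (.e (nat_lit 336213) (nat_lit 13) (.e (nat_lit 393225) (nat_lit 9) (.e (nat_lit 335988) (nat_lit 1) (.e (nat_lit 57924) (nat_lit 282) .nil)))))) (.g (nat_lit 5) .nil .nil)))) (.nd (nat_lit 5) 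
(.lf (nat_lit 251475) (.g (nat_lit 2426) (.e (nat_lit 163875) (nat_lit 3) (.e (nat_lit 204861) (nat_lit 26) (.e (nat_lit 336213) (nat_lit 13) (.e (nat_lit 393225) (nat_lit 9) (.e (nat_lit 335913) (nat_lit 0) (.e (nat_lit 1025) (nat_lit 81) (.e (nat_lit 5589) (nat_lit 310) .nil))))))) (.g (nat_lit 4) .nil .nil))) 
(.lf (nat_lit 251507) (.g (nat_lit 2241) (.e (nat_lit 163875) (nat_lit 3) (.e (nat_lit 204861) (nat_lit 26) (.e (nat_lit 336213) (nat_lit 13) (.e (nat_lit 393229) (nat_lit 9) (.e (nat_lit 335911) (nat_lit 0) .nil))))) .nil)))) (.nd (nat_lit 4) (.nd (nat_lit 5) 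
(.lf (nat_lit 251467) (.g (nat_lit 2756) (.e (nat_lit 163875) (nat_lit 3) (.e (nat_lit 204861) (nat_lit 26) (.e (nat_lit 336078) (nat_lit 9) (.e (nat_lit 336454) (nat_lit 34) (.e (nat_lit 483363) (nat_lit 18) (.e (nat_lit 57926) (nat_lit 282) .nil)))))) (.g (nat_lit 4) .nil .nil))) 
(.lf (nat_lit 251499) (.g (nat_lit 3324) (.e (nat_lit 163875) (nat_lit 3) (.e (nat_lit 204861) (nat_lit 26) (.e (nat_lit 336213) (nat_lit 13) (.e (nat_lit 393229) (nat_lit 9) (.e (nat_lit 335892) (nat_lit 0) (.e (nat_lit 996) (nat_lit 81) (.e (nat_lit 5590) (nat_lit 310) .nil))))))) (.g (nat_lit 4) .nil .nil)))) (.nd (nat_lit 5) 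
(.lf (nat_lit 251483) (.g (nat_lit 2609) (.e (nat_lit 163875) (nat_lit 3) (.e (nat_lit 204861) (nat_lit 26) (.e (nat_lit 336213) (nat_lit 13) (.e (nat_lit 393225) (nat_lit 9) (.e (nat_lit 335917) (nat_lit 0) (.e (nat_lit 1033) (nat_lit 81) (.e (nat_lit 5589) (nat_lit 310) .nil))))))) (.g (nat_lit 4) .nil .nil))) 
(.lf (nat_lit 251515) (.g (nat_lit 2951) (.e (nat_lit 163875) (nat_lit 3) (.e (nat_lit 204861) (nat_lit 26) (.e (nat_lit 336213) (nat_lit 13) (.e (nat_lit 393229) (nat_lit 9) (.e (nat_lit 335987) (nat_lit 1) (.e (nat_lit 57927) (nat_lit 282) .nil)))))) (.g (nat_lit 4) .nil .nil)))))) (.nd (nat_lit 3) (.nd (nat_lit 4) (.nd (nat_lit 5) 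
(.lf (nat_lit 251463) (.g (nat_lit 2614) (.e (nat_lit 163875) (nat_lit 3) (.e (nat_lit 204861) (nat_lit 26) (.e (nat_lit 336076) (nat_lit 9) (.e (nat_lit 336456) (nat_lit 34) (.e (nat_lit 483363) (nat_lit 18) (.e (nat_lit 57926) (nat_lit 282) .nil)))))) (.g (nat_lit 4) .nil .nil))) 
(.lf (nat_lit 251495) (.g (nat_lit 3434) (.e (nat_lit 163875) (nat_lit 3) (.e (nat_lit 204861) (nat_lit 26) (.e (nat_lit 336213) (nat_lit 13) (.e (nat_lit 393225) (nat_lit 9) (.e (nat_lit 335996) (nat_lit 1) (.e (nat_lit 57924) (nat_lit 282) .nil)))))) (.g (nat_lit 6) .nil .nil)))) (.nd (nat_lit 5) 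
(.lf (nat_lit 251479) (.g (nat_lit 2642) (.e (nat_lit 163875) (nat_lit 3) (.e (nat_lit 204861) (nat_lit 26) (.e (nat_lit 336213) (nat_lit 13) (.e (nat_lit 393225) (nat_lit 9) (.e (nat_lit 335913) (nat_lit 0) (.e (nat_lit 1047) (nat_lit 81) (.e (nat_lit 5589) (nat_lit 310) .nil))))))) (.g (nat_lit 4) .nil .nil))) 
(.lf (nat_lit 251511) (.g (nat_lit 2394) (.e (nat_lit 163875) (nat_lit 3) (.e (nat_lit 204861) (nat_lit 26) (.e (nat_lit 336213) (nat_lit 13) (.e (nat_lit 393229) (nat_lit 9) (.e (nat_lit 335912) (nat_lit 0) (.e (nat_lit 1047) (nat_lit 81) (.e (nat_lit 5589) (nat_lit 310) .nil))))))) (.g (nat_lit 4) .nil .nil))))) (.nd (nat_lit 4) (.nd (nat_lit 5) 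
(.lf (nat_lit 251471) (.g (nat_lit 2471) (.e (nat_lit 163875) (nat_lit 3) (.e (nat_lit 204861) (nat_lit 26) (.e (nat_lit 336213) (nat_lit 13) (.e (nat_lit 393225) (nat_lit 9) (.e (nat_lit 335892) (nat_lit 0) (.e (nat_lit 996) (nat_lit 81) (.e (nat_lit 5593) (nat_lit 310) .nil))))))) (.g (nat_lit 4) .nil .nil))) 
(.lf (nat_lit 251503) (.g (nat_lit 2479) (.e (nat_lit 163875) (nat_lit 3) (.e (nat_lit 204861) (nat_lit 26) (.e (nat_lit 336213) (nat_lit 13) (.e (nat_lit 393229) (nat_lit 9) (.e (nat_lit 335892) (nat_lit 0) (.e (nat_lit 1032) (nat_lit 81) (.e (nat_lit 5587) (nat_lit 310) .nil))))))) (.g (nat_lit 4) .nil .nil)))) (.nd (nat_lit 5) 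
(.lf (nat_lit 251487) (.g (nat_lit 3392) (.e (nat_lit 163875) (nat_lit 3) (.e (nat_lit 204861) (nat_lit 26) (.e (nat_lit 336213) (nat_lit 13) (.e (nat_lit 393225) (nat_lit 9) (.e (nat_lit 335986) (nat_lit 1) (.e (nat_lit 57924) (nat_lit 282) .nil)))))) (.g (nat_lit 6) .nil .nil))) 
(.lf (nat_lit 251519) (.g (nat_lit 873) (.e (nat_lit 163875) (nat_lit 3) (.e (nat_lit 204861) (nat_lit 26) (.e (nat_lit 336214) (nat_lit 13) (.e (nat_lit 393229) (nat_lit 9) .nil)))) .nil))))))))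

noncomputable def tv3261 : DT := (.nd (nat_lit 0) (.nd (nat_lit 1) (.nd (nat_lit 2) (.nd (nat_lit 3) (.nd (nat_lit 4) (.nd (nat_lit 5) 
(.lf (nat_lit 251520) (.g (nat_lit 2041) (.e (nat_lit 163875) (nat_lit 3) (.e (nat_lit 204861) (nat_lit 26) (.e (nat_lit 336214) (nat_lit 13) (.e (nat_lit 393229) (nat_lit 9) (.e (nat_lit 335986) (nat_lit 1) (.e (nat_lit 57925) (nat_lit 282) .nil)))))) (.g (nat_lit 4) .nil .nil))) 
(.lf (nat_lit 251552) (.g (nat_lit 3586) (.e (nat_lit 163875) (nat_lit 3) (.e (nat_lit 204862) (nat_lit 27) (.e (nat_lit 344129) (nat_lit 26) (.e (nat_lit 557097) (nat_lit 13) (.e (nat_lit 172067) (nat_lit 3) (.e (nat_lit 204815) (nat_lit 17) (.e (nat_lit 974) (nat_lit 81) (.e (nat_lit 7708) (nat_lit 414) .nil)))))))) (.g (nat_lit 4) .nil .nil)))) (.nd (nat_lit 5) 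
(.lf (nat_lit 251536) (.g (nat_lit 2404) (.e (nat_lit 163875) (nat_lit 3) (.e (nat_lit 204862) (nat_lit 27) (.e (nat_lit 344117) (nat_lit 21) (.e (nat_lit 516130) (nat_lit 3) (.e (nat_lit 221212) (nat_lit 22) (.e (nat_lit 196677) (nat_lit 16) (.e (nat_lit 122880) (nat_lit 0) (.e (nat_lit 5585) (nat_lit 310) .nil)))))))) (.g (nat_lit 4) .nil .nil))) 
(.lf (nat_lit 251568) (.g (nat_lit 2932) (.e (nat_lit 163875) (nat_lit 3) (.e (nat_lit 204862) (nat_lit 27) (.e (nat_lit 344129) (nat_lit 26) (.e (nat_lit 557104) (nat_lit 14) (.e (nat_lit 180252) (nat_lit 10) (.e (nat_lit 573474) (nat_lit 12) (.e (nat_lit 57345) (nat_lit 0) (.e (nat_lit 5583) (nat_lit 310) .nil)))))))) (.g (nat_lit 4) .nil .nil))))) (.nd (nat_lit 4) (.nd (nat_lit 5) 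
(.lf (nat_lit 251528) (.g (nat_lit 2669) (.e (nat_lit 163875) (nat_lit 3) (.e (nat_lit 204862) (nat_lit 27) (.e (nat_lit 344117) (nat_lit 21) (.e (nat_lit 516129) (nat_lit 3) (.e (nat_lit 221210) (nat_lit 22) (.e (nat_lit 196676) (nat_lit 16) (.e (nat_lit 122883) (nat_lit 0) (.e (nat_lit 5589) (nat_lit 310) .nil)))))))) (.g (nat_lit 4) .nil .nil))) 
(.lf (nat_lit 251560) (.g (nat_lit 3785) (.e (nat_lit 163875) (nat_lit 3) (.e (nat_lit 204862) (nat_lit 27) (.e (nat_lit 344129) (nat_lit 26) (.e (nat_lit 557103) (nat_lit 14) (.e (nat_lit 180250) (nat_lit 10) (.e (nat_lit 573475) (nat_lit 12) (.e (nat_lit 57344) (nat_lit 0) (.e (nat_lit 5589) (nat_lit 310) .nil)))))))) (.g (nat_lit 5) .nil .nil)))) (.nd (nat_lit 5) 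
(.lf (nat_lit 251544) (.g (nat_lit 2816) (.e (nat_lit 163875) (nat_lit 3) (.e (nat_lit 204862) (nat_lit 27) (.e (nat_lit 344117) (nat_lit 21) (.e (nat_lit 516195) (nat_lit 26) (.e (nat_lit 336011) (nat_lit 2) (.e (nat_lit 90165) (nat_lit 12) (.e (nat_lit 163848) (nat_lit 0) (.e (nat_lit 6839) (nat_lit 369) .nil)))))))) (.g (nat_lit 4) .nil .nil))) 
(.lf (nat_lit 251576) (.g (nat_lit 4882) (.e (nat_lit 163875) (nat_lit 3) (.e (nat_lit 204862) (nat_lit 27) (.e (nat_lit 344129) (nat_lit 26) (.e (nat_lit 557104) (nat_lit 14) (.e (nat_lit 180252) (nat_lit 10) (.e (nat_lit 573474) (nat_lit 12) (.e (nat_lit 57354) (nat_lit 0) (.e (nat_lit 5589) (nat_lit 310) .nil)))))))) (.g (nat_lit 6) .nil .nil)))))) 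
(.nd (nat_lit 3) (.nd (nat_lit 4) (.nd (nat_lit 5) 
(.lf (nat_lit 251524) (.g (nat_lit 3044) (.e (nat_lit 163875) (nat_lit 3) (.e (nat_lit 204862) (nat_lit 27) (.e (nat_lit 344117) (nat_lit 21) (.e (nat_lit 516129) (nat_lit 3) (.e (nat_lit 221210) (nat_lit 22) (.e (nat_lit 196658) (nat_lit 12) (.e (nat_lit 57354) (nat_lit 0) (.e (nat_lit 5589) (nat_lit 310) .nil)))))))) (.g (nat_lit 5) .nil .nil))) 
(.lf (nat_lit 251556) (.g (nat_lit 4872) (.e (nat_lit 163875) (nat_lit 3) (.e (nat_lit 204862) (nat_lit 27) (.e (nat_lit 344129) (nat_lit 26) (.e (nat_lit 557103) (nat_lit 14) (.e (nat_lit 180250) (nat_lit 10) (.e (nat_lit 573474) (nat_lit 12) (.e (nat_lit 57348) (nat_lit 0) (.e (nat_lit 5593) (nat_lit 310) .nil)))))))) (.g (nat_lit 6) .nil .nil)))) (.nd (nat_lit 5) 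
(.lf (nat_lit 251540) (.g (nat_lit 3101) (.e (nat_lit 163875) (nat_lit 3) (.e (nat_lit 204862) (nat_lit 27) (.e (nat_lit 344117) (nat_lit 21) (.e (nat_lit 516130) (nat_lit 3) (.e (nat_lit 221215) (nat_lit 23) (.e (nat_lit 204821) (nat_lit 17) (.e (nat_lit 1023) (nat_lit 81) (.e (nat_lit 5585) (nat_lit 310) .nil)))))))) (.g (nat_lit 5) .nil .nil))) 
(.lf (nat_lit 251572) (.g (nat_lit 2970) (.e (nat_lit 163875) (nat_lit 3) (.e (nat_lit 204862) (nat_lit 27) (.e (nat_lit 344129) (nat_lit 26) (.e (nat_lit 557104) (nat_lit 14) (.e (nat_lit 180252) (nat_lit 10) (.e (nat_lit 573474) (nat_lit 12) (.e (nat_lit 57347) (nat_lit 0) (.e (nat_lit 5592) (nat_lit 310) .nil)))))))) (.g (nat_lit 4) .nil .nil))))) (.nd (nat_lit 4) (.nd (nat_lit 5) 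
(.lf (nat_lit 251532) (.g (nat_lit 2071) (.e (nat_lit 163875) (nat_lit 3) (.e (nat_lit 204862) (nat_lit 27) (.e (nat_lit 344117) (nat_lit 21) (.e (nat_lit 516130) (nat_lit 3) (.e (nat_lit 221195) (nat_lit 20) .nil))))) .nil)) 
(.lf (nat_lit 251564) (.g (nat_lit 3245) (.e (nat_lit 163875) (nat_lit 3) (.e (nat_lit 204862) (nat_lit 27) (.e (nat_lit 344129) (nat_lit 26) (.e (nat_lit 557103) (nat_lit 14) (.e (nat_lit 180250) (nat_lit 10) (.e (nat_lit 573495) (nat_lit 16) (.e (nat_lit 122883) (nat_lit 0) (.e (nat_lit 5589) (nat_lit 310) .nil)))))))) (.g (nat_lit 4) .nil .nil)))) (.nd (nat_lit 5) 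
(.lf (nat_lit 251548) (.g (nat_lit 2676) (.e (nat_lit 163875) (nat_lit 3) (.e (nat_lit 204862) (nat_lit 27) (.e (nat_lit 344117) (nat_lit 21) (.e (nat_lit 516195) (nat_lit 26) (.e (nat_lit 336012) (nat_lit 2) (.e (nat_lit 90162) (nat_lit 12) (.e (nat_lit 163849) (nat_lit 0) (.e (nat_lit 6839) (nat_lit 369) .nil)))))))) (.g (nat_lit 4) .nil .nil))) 
(.lf (nat_lit 251580) (.g (nat_lit 3049) (.e (nat_lit 163875) (nat_lit 3) (.e (nat_lit 204862) (nat_lit 27) (.e (nat_lit 344129) (nat_lit 26) (.e (nat_lit 557104) (nat_lit 14) (.e (nat_lit 180252) (nat_lit 10) (.e (nat_lit 573475) (nat_lit 12) (.e (nat_lit 57348) (nat_lit 0) (.e (nat_lit 5593) (nat_lit 310) .nil)))))))) (.g (nat_lit 4) .nil .nil))))))) 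
(.nd (nat_lit 2) (.nd (nat_lit 3) (.nd (nat_lit 4) (.nd (nat_lit 5) 
(.lf (nat_lit 251522) (.g (nat_lit 2266) (.e (nat_lit 163875) (nat_lit 3) (.e (nat_lit 204862) (nat_lit 27) (.e (nat_lit 344117) (nat_lit 21) (.e (nat_lit 516129) (nat_lit 3) (.e (nat_lit 221203) (nat_lit 20) .nil))))) .nil)) 
(.lf (nat_lit 251554) (.g (nat_lit 2825) (.e (nat_lit 163875) (nat_lit 3) (.e (nat_lit 204862) (nat_lit 27) (.e (nat_lit 344129) (nat_lit 26) (.e (nat_lit 557103) (nat_lit 14) (.e (nat_lit 180250) (nat_lit 10) (.e (nat_lit 573474) (nat_lit 12) (.e (nat_lit 57345) (nat_lit 0) (.e (nat_lit 5590) (nat_lit 310) .nil)))))))) (.g (nat_lit 4) .nil .nil)))) (.nd (nat_lit 5) 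
(.lf (nat_lit 251538) (.g (nat_lit 2866) (.e (nat_lit 163875) (nat_lit 3) (.e (nat_lit 204862) (nat_lit 27) (.e (nat_lit 344117) (nat_lit 21) (.e (nat_lit 516130) (nat_lit 3) (.e (nat_lit 221212) (nat_lit 22) (.e (nat_lit 196677) (nat_lit 16) (.e (nat_lit 130816) (nat_lit 0) (.e (nat_lit 5587) (nat_lit 310) .nil)))))))) (.g (nat_lit 4) .nil .nil))) 
(.lf (nat_lit 251570) (.g (nat_lit 4996) (.e (nat_lit 163875) (nat_lit 3) (.e (nat_lit 204862) (nat_lit 27) (.e (nat_lit 344129) (nat_lit 26) (.e (nat_lit 557104) (nat_lit 14) (.e (nat_lit 180252) (nat_lit 10) (.e (nat_lit 573474) (nat_lit 12) (.e (nat_lit 57347) (nat_lit 0) (.e (nat_lit 5590) (nat_lit 310) .nil)))))))) (.g (nat_lit 6) .nil .nil))))) (.nd (nat_lit 4) (.nd (nat_lit 5) 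
(.lf (nat_lit 251530) (.g (nat_lit 3441) (.e (nat_lit 163875) (nat_lit 3) (.e (nat_lit 204862) (nat_lit 27) (.e (nat_lit 344117) (nat_lit 21) (.e (nat_lit 516129) (nat_lit 3) (.e (nat_lit 221210) (nat_lit 22) (.e (nat_lit 196677) (nat_lit 16) (.e (nat_lit 122880) (nat_lit 0) (.e (nat_lit 5589) (nat_lit 310) .nil)))))))) (.g (nat_lit 5) .nil .nil))) 
(.lf (nat_lit 251562) (.g (nat_lit 3392) (.e (nat_lit 163875) (nat_lit 3) (.e (nat_lit 204862) (nat_lit 27) (.e (nat_lit 344129) (nat_lit 26) (.e (nat_lit 557103) (nat_lit 14) (.e (nat_lit 180250) (nat_lit 10) (.e (nat_lit 573475) (nat_lit 12) (.e (nat_lit 57345) (nat_lit 0) (.e (nat_lit 5590) (nat_lit 310) .nil)))))))) (.g (nat_lit 4) .nil .nil)))) (.nd (nat_lit 5) 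
(.lf (nat_lit 251546) (.g (nat_lit 2310) (.e (nat_lit 163875) (nat_lit 3) (.e (nat_lit 204862) (nat_lit 27) (.e (nat_lit 344117) (nat_lit 21) (.e (nat_lit 516195) (nat_lit 26) (.e (nat_lit 336012) (nat_lit 2) (.e (nat_lit 90162) (nat_lit 12) (.e (nat_lit 163843) (nat_lit 0) (.e (nat_lit 6839) (nat_lit 369) .nil)))))))) (.g (nat_lit 4) .nil .nil))) 
(.lf (nat_lit 251578) (.g (nat_lit 3163) (.e (nat_lit 163875) (nat_lit 3) (.e (nat_lit 204862) (nat_lit 27) (.e (nat_lit 344129) (nat_lit 26) (.e (nat_lit 557104) (nat_lit 14) (.e (nat_lit 180252) (nat_lit 10) (.e (nat_lit 573475) (nat_lit 12) (.e (nat_lit 57345) (nat_lit 0) (.e (nat_lit 5590) (nat_lit 310) .nil)))))))) (.g (nat_lit 4) .nil .nil)))))) 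
(.nd (nat_lit 3) (.nd (nat_lit 4) (.nd (nat_lit 5) 
(.lf (nat_lit 251526) (.g (nat_lit 2949) (.e (nat_lit 163875) (nat_lit 3) (.e (nat_lit 204862) (nat_lit 27) (.e (nat_lit 344117) (nat_lit 21) (.e (nat_lit 516129) (nat_lit 3) (.e (nat_lit 221210) (nat_lit 22) (.e (nat_lit 196661) (nat_lit 12) (.e (nat_lit 65280) (nat_lit 0) (.e (nat_lit 5587) (nat_lit 310) .nil)))))))) (.g (nat_lit 4) .nil .nil))) 
(.lf (nat_lit 251558) (.g (nat_lit 2996) (.e (nat_lit 163875) (nat_lit 3) (.e (nat_lit 204862) (nat_lit 27) (.e (nat_lit 344129) (nat_lit 26) (.e (nat_lit 557103) (nat_lit 14) (.e (nat_lit 180250) (nat_lit 10) (.e (nat_lit 573474) (nat_lit 12) (.e (nat_lit 57355) (nat_lit 0) (.e (nat_lit 5589) (nat_lit 310) .nil)))))))) (.g (nat_lit 4) .nil .nil)))) (.nd (nat_lit 5) 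
(.lf (nat_lit 251542) (.g (nat_lit 2598) (.e (nat_lit 163875) (nat_lit 3) (.e (nat_lit 204862) (nat_lit 27) (.e (nat_lit 344117) (nat_lit 21) (.e (nat_lit 516195) (nat_lit 26) (.e (nat_lit 336011) (nat_lit 2) (.e (nat_lit 90165) (nat_lit 12) (.e (nat_lit 163840) (nat_lit 0) (.e (nat_lit 6839) (nat_lit 369) .nil)))))))) (.g (nat_lit 4) .nil .nil))) 
(.lf (nat_lit 251574) (.g (nat_lit 2832) (.e (nat_lit 163875) (nat_lit 3) (.e (nat_lit 204862) (nat_lit 27) (.e (nat_lit 344129) (nat_lit 26) (.e (nat_lit 557104) (nat_lit 14) (.e (nat_lit 180252) (nat_lit 10) (.e (nat_lit 573474) (nat_lit 12) (.e (nat_lit 57348) (nat_lit 0) (.e (nat_lit 5592) (nat_lit 310) .nil)))))))) (.g (nat_lit 4) .nil .nil))))) (.nd (nat_lit 4) (.nd (nat_lit 5) 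
(.lf (nat_lit 251534) (.g (nat_lit 3168) (.e (nat_lit 163875) (nat_lit 3) (.e (nat_lit 204862) (nat_lit 27) (.e (nat_lit 344117) (nat_lit 21) (.e (nat_lit 516130) (nat_lit 3) (.e (nat_lit 221212) (nat_lit 22) (.e (nat_lit 196659) (nat_lit 12) (.e (nat_lit 57354) (nat_lit 0) (.e (nat_lit 5589) (nat_lit 310) .nil)))))))) (.g (nat_lit 5) .nil .nil))) 
(.lf (nat_lit 251566) (.g (nat_lit 3961) (.e (nat_lit 163875) (nat_lit 3) (.e (nat_lit 204862) (nat_lit 27) (.e (nat_lit 344129) (nat_lit 26) (.e (nat_lit 557104) (nat_lit 14) (.e (nat_lit 180252) (nat_lit 10) (.e (nat_lit 573474) (nat_lit 12) (.e (nat_lit 57344) (nat_lit 0) (.e (nat_lit 5589) (nat_lit 310) .nil)))))))) (.g (nat_lit 5) .nil .nil)))) (.nd (nat_lit 5) 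
(.lf (nat_lit 251550) (.g (nat_lit 2055) (.e (nat_lit 163875) (nat_lit 3) (.e (nat_lit 204862) (nat_lit 27) (.e (nat_lit 344127) (nat_lit 26) (.e (nat_lit 557104) (nat_lit 14) (.e (nat_lit 180252) (nat_lit 10) (.e (nat_lit 573474) (nat_lit 12) (.e (nat_lit 57348) (nat_lit 0) (.e (nat_lit 5590) (nat_lit 310) .nil)))))))) (.g (nat_lit 4) .nil .nil))) 
(.lf (nat_lit 251582) (.g (nat_lit 4644) (.e (nat_lit 163875) (nat_lit 3) (.e (nat_lit 204862) (nat_lit 27) (.e (nat_lit 344129) (nat_lit 26) (.e (nat_lit 557105) (nat_lit 14) (.e (nat_lit 180252) (nat_lit 10) (.e (nat_lit 573474) (nat_lit 12) (.e (nat_lit 57348) (nat_lit 0) (.e (nat_lit 5593) (nat_lit 310) .nil)))))))) (.g (nat_lit 5) .nil .nil)))))))) 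
(.nd (nat_lit 1) (.nd (nat_lit 2) (.nd (nat_lit 3) (.nd (nat_lit 4) (.nd (nat_lit 5) 
(.lf (nat_lit 251521) (.g (nat_lit 3287) (.e (nat_lit 163875) (nat_lit 3) (.e (nat_lit 204861) (nat_lit 26) (.e (nat_lit 336214) (nat_lit 13) (.e (nat_lit 393229) (nat_lit 9) (.e (nat_lit 335988) (nat_lit 1) (.e (nat_lit 57927) (nat_lit 282) .nil)))))) (.g (nat_lit 6) .nil .nil))) 
(.lf (nat_lit 251553) (.g (nat_lit 3196) (.e (nat_lit 163875) (nat_lit 3) (.e (nat_lit 204862) (nat_lit 27) (.e (nat_lit 344129) (nat_lit 26) (.e (nat_lit 557103) (nat_lit 14) (.e (nat_lit 180250) (nat_lit 10) (.e (nat_lit 573473) (nat_lit 12) (.e (nat_lit 57348) (nat_lit 0) (.e (nat_lit 5593) (nat_lit 310) .nil)))))))) (.g (nat_lit 4) .nil .nil)))) (.nd (nat_lit 5) 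
(.lf (nat_lit 251537) (.g (nat_lit 1989) (.e (nat_lit 163875) (nat_lit 3) (.e (nat_lit 204862) (nat_lit 27) (.e (nat_lit 344117) (nat_lit 21) (.e (nat_lit 516130) (nat_lit 3) (.e (nat_lit 221212) (nat_lit 22) (.e (nat_lit 196677) (nat_lit 16) (.e (nat_lit 122882) (nat_lit 0) (.e (nat_lit 5585) (nat_lit 310) .nil)))))))) (.g (nat_lit 4) .nil .nil))) 
(.lf (nat_lit 251569) (.g (nat_lit 2892) (.e (nat_lit 163875) (nat_lit 3) (.e (nat_lit 204862) (nat_lit 27) (.e (nat_lit 344129) (nat_lit 26) (.e (nat_lit 557104) (nat_lit 14) (.e (nat_lit 180252) (nat_lit 10) (.e (nat_lit 573474) (nat_lit 12) (.e (nat_lit 57346) (nat_lit 0) (.e (nat_lit 5583) (nat_lit 310) .nil)))))))) (.g (nat_lit 4) .nil .nil))))) (.nd (nat_lit 4) (.nd (nat_lit 5) 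
(.lf (nat_lit 251529) (.g (nat_lit 2865) (.e (nat_lit 163875) (nat_lit 3) (.e (nat_lit 204862) (nat_lit 27) (.e (nat_lit 344117) (nat_lit 21) (.e (nat_lit 516129) (nat_lit 3) (.e (nat_lit 221210) (nat_lit 22) (.e (nat_lit 196677) (nat_lit 16) (.e (nat_lit 122880) (nat_lit 0) (.e (nat_lit 5587) (nat_lit 310) .nil)))))))) (.g (nat_lit 4) .nil .nil))) 
(.lf (nat_lit 251561) (.g (nat_lit 2803) (.e (nat_lit 163875) (nat_lit 3) (.e (nat_lit 204862) (nat_lit 27) (.e (nat_lit 344129) (nat_lit 26) (.e (nat_lit 557103) (nat_lit 14) (.e (nat_lit 180250) (nat_lit 10) (.e (nat_lit 573475) (nat_lit 12) (.e (nat_lit 57345) (nat_lit 0) (.e (nat_lit 5583) (nat_lit 310) .nil)))))))) (.g (nat_lit 4) .nil .nil)))) (.nd (nat_lit 5) 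
(.lf (nat_lit 251545) (.g (nat_lit 3890) (.e (nat_lit 163875) (nat_lit 3) (.e (nat_lit 204862) (nat_lit 27) (.e (nat_lit 344117) (nat_lit 21) (.e (nat_lit 516195) (nat_lit 26) (.e (nat_lit 336011) (nat_lit 2) (.e (nat_lit 90165) (nat_lit 12) (.e (nat_lit 163849) (nat_lit 0) (.e (nat_lit 6839) (nat_lit 369) .nil)))))))) (.g (nat_lit 6) .nil .nil))) 
(.lf (nat_lit 251577) (.g (nat_lit 3221) (.e (nat_lit 163875) (nat_lit 3) (.e (nat_lit 204862) (nat_lit 27) (.e (nat_lit 344129) (nat_lit 26) (.e (nat_lit 557104) (nat_lit 14) (.e (nat_lit 180252) (nat_lit 10) (.e (nat_lit 573474) (nat_lit 12) (.e (nat_lit 65280) (nat_lit 0) (.e (nat_lit 5587) (nat_lit 310) .nil)))))))) (.g (nat_lit 4) .nil .nil)))))) 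
(.nd (nat_lit 3) (.nd (nat_lit 4) (.nd (nat_lit 5) 
(.lf (nat_lit 251525) (.g (nat_lit 4524) (.e (nat_lit 163875) (nat_lit 3) (.e (nat_lit 204862) (nat_lit 27) (.e (nat_lit 344117) (nat_lit 21) (.e (nat_lit 516129) (nat_lit 3) (.e (nat_lit 221210) (nat_lit 22) (.e (nat_lit 196660) (nat_lit 12) (.e (nat_lit 57354) (nat_lit 0) (.e (nat_lit 5589) (nat_lit 310) .nil)))))))) (.g (nat_lit 7) .nil .nil))) 
(.lf (nat_lit 251557) (.g (nat_lit 4864) (.e (nat_lit 163875) (nat_lit 3) (.e (nat_lit 204862) (nat_lit 27) (.e (nat_lit 344129) (nat_lit 26) (.e (nat_lit 557103) (nat_lit 14) (.e (nat_lit 180250) (nat_lit 10) (.e (nat_lit 573474) (nat_lit 12) (.e (nat_lit 57354) (nat_lit 0) (.e (nat_lit 5589) (nat_lit 310) .nil)))))))) (.g (nat_lit 6) .nil .nil)))) (.nd (nat_lit 5) 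
(.lf (nat_lit 251541) (.g (nat_lit 2913) (.e (nat_lit 163875) (nat_lit 3) (.e (nat_lit 204862) (nat_lit 27) (.e (nat_lit 344117) (nat_lit 21) (.e (nat_lit 516130) (nat_lit 3) (.e (nat_lit 221215) (nat_lit 23) (.e (nat_lit 204821) (nat_lit 17) (.e (nat_lit 1086) (nat_lit 81) (.e (nat_lit 5584) (nat_lit 310) .nil)))))))) (.g (nat_lit 5) .nil .nil))) 
(.lf (nat_lit 251573) (.g (nat_lit 2808) (.e (nat_lit 163875) (nat_lit 3) (.e (nat_lit 204862) (nat_lit 27) (.e (nat_lit 344129) (nat_lit 26) (.e (nat_lit 557104) (nat_lit 14) (.e (nat_lit 180252) (nat_lit 10) (.e (nat_lit 573474) (nat_lit 12) (.e (nat_lit 57348) (nat_lit 0) (.e (nat_lit 5591) (nat_lit 310) .nil)))))))) (.g (nat_lit 4) .nil .nil))))) (.nd (nat_lit 4) (.nd (nat_lit 5) 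
(.lf (nat_lit 251533) (.g (nat_lit 2071) (.e (nat_lit 163875) (nat_lit 3) (.e (nat_lit 204862) (nat_lit 27) (.e (nat_lit 344117) (nat_lit 21) (.e (nat_lit 516130) (nat_lit 3) (.e (nat_lit 221203) (nat_lit 20) .nil))))) .nil)) 
(.lf (nat_lit 251565) (.g (nat_lit 3048) (.e (nat_lit 163875) (nat_lit 3) (.e (nat_lit 204862) (nat_lit 27) (.e (nat_lit 344129) (nat_lit 26) (.e (nat_lit 557104) (nat_lit 14) (.e (nat_lit 180252) (nat_lit 10) (.e (nat_lit 573474) (nat_lit 12) (.e (nat_lit 57344) (nat_lit 0) (.e (nat_lit 5587) (nat_lit 310) .nil)))))))) (.g (nat_lit 4) .nil .nil)))) (.nd (nat_lit 5) 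
(.lf (nat_lit 251549) (.g (nat_lit 3115) (.e (nat_lit 163875) (nat_lit 3) (.e (nat_lit 204862) (nat_lit 27) (.e (nat_lit 344117) (nat_lit 21) (.e (nat_lit 516195) (nat_lit 26) (.e (nat_lit 336012) (nat_lit 2) (.e (nat_lit 90164) (nat_lit 12) (.e (nat_lit 163843) (nat_lit 0) (.e (nat_lit 6839) (nat_lit 369) .nil)))))))) (.g (nat_lit 5) .nil .nil))) 
(.lf (nat_lit 251581) (.g (nat_lit 4461) (.e (nat_lit 163875) (nat_lit 3) (.e (nat_lit 204862) (nat_lit 27) (.e (nat_lit 344129) (nat_lit 26) (.e (nat_lit 557105) (nat_lit 14) (.e (nat_lit 180252) (nat_lit 10) (.e (nat_lit 573474) (nat_lit 12) (.e (nat_lit 57347) (nat_lit 0) (.e (nat_lit 5590) (nat_lit 310) .nil)))))))) (.g (nat_lit 5) .nil .nil))))))) 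
(.nd (nat_lit 2) (.nd (nat_lit 3) (.nd (nat_lit 4) (.nd (nat_lit 5) 
(.lf (nat_lit 251523) (.g (nat_lit 2119) (.e (nat_lit 163875) (nat_lit 3) (.e (nat_lit 204862) (nat_lit 27) (.e (nat_lit 344117) (nat_lit 21) (.e (nat_lit 516129) (nat_lit 3) (.e (nat_lit 221204) (nat_lit 20) .nil))))) .nil)) 
(.lf (nat_lit 251555) (.g (nat_lit 3030) (.e (nat_lit 163875) (nat_lit 3) (.e (nat_lit 204862) (nat_lit 27) (.e (nat_lit 344129) (nat_lit 26) (.e (nat_lit 557103) (nat_lit 14) (.e (nat_lit 180250) (nat_lit 10) (.e (nat_lit 573474) (nat_lit 12) (.e (nat_lit 57345) (nat_lit 0) (.e (nat_lit 5593) (nat_lit 310) .nil)))))))) (.g (nat_lit 4) .nil .nil)))) (.nd (nat_lit 5) 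
(.lf (nat_lit 251539) (.g (nat_lit 3286) (.e (nat_lit 163875) (nat_lit 3) (.e (nat_lit 204862) (nat_lit 27) (.e (nat_lit 344117) (nat_lit 21) (.e (nat_lit 516130) (nat_lit 3) (.e (nat_lit 221214) (nat_lit 23) (.e (nat_lit 204821) (nat_lit 17) (.e (nat_lit 1023) (nat_lit 81) (.e (nat_lit 5589) (nat_lit 310) .nil)))))))) (.g (nat_lit 5) .nil .nil))) 
(.lf (nat_lit 251571) (.g (nat_lit 2936) (.e (nat_lit 163875) (nat_lit 3) (.e (nat_lit 204862) (nat_lit 27) (.e (nat_lit 344129) (nat_lit 26) (.e (nat_lit 557104) (nat_lit 14) (.e (nat_lit 180252) (nat_lit 10) (.e (nat_lit 573474) (nat_lit 12) (.e (nat_lit 57347) (nat_lit 0) (.e (nat_lit 5591) (nat_lit 310) .nil)))))))) (.g (nat_lit 4) .nil .nil))))) (.nd (nat_lit 4) (.nd (nat_lit 5) 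
(.lf (nat_lit 251531) (.g (nat_lit 2727) (.e (nat_lit 163875) (nat_lit 3) (.e (nat_lit 204862) (nat_lit 27) (.e (nat_lit 344117) (nat_lit 21) (.e (nat_lit 516129) (nat_lit 3) (.e (nat_lit 221210) (nat_lit 22) (.e (nat_lit 196678) (nat_lit 16) (.e (nat_lit 122883) (nat_lit 0) (.e (nat_lit 5589) (nat_lit 310) .nil)))))))) (.g (nat_lit 4) .nil .nil))) 
(.lf (nat_lit 251563) (.g (nat_lit 3014) (.e (nat_lit 163875) (nat_lit 3) (.e (nat_lit 204862) (nat_lit 27) (.e (nat_lit 344129) (nat_lit 26) (.e (nat_lit 557103) (nat_lit 14) (.e (nat_lit 180250) (nat_lit 10) (.e (nat_lit 573475) (nat_lit 12) (.e (nat_lit 57348) (nat_lit 0) (.e (nat_lit 5593) (nat_lit 310) .nil)))))))) (.g (nat_lit 4) .nil .nil)))) (.nd (nat_lit 5) 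
(.lf (nat_lit 251547) (.g (nat_lit 4044) (.e (nat_lit 163875) (nat_lit 3) (.e (nat_lit 204862) (nat_lit 27) (.e (nat_lit 344117) (nat_lit 21) (.e (nat_lit 516195) (nat_lit 26) (.e (nat_lit 336012) (nat_lit 2) (.e (nat_lit 90162) (nat_lit 12) (.e (nat_lit 163844) (nat_lit 0) (.e (nat_lit 6839) (nat_lit 369) .nil)))))))) (.g (nat_lit 6) .nil .nil))) 
(.lf (nat_lit 251579) (.g (nat_lit 3352) (.e (nat_lit 163875) (nat_lit 3) (.e (nat_lit 204862) (nat_lit 27) (.e (nat_lit 344129) (nat_lit 26) (.e (nat_lit 557104) (nat_lit 14) (.e (nat_lit 180252) (nat_lit 10) (.e (nat_lit 573475) (nat_lit 12) (.e (nat_lit 57345) (nat_lit 0) (.e (nat_lit 5593) (nat_lit 310) .nil)))))))) (.g (nat_lit 4) .nil .nil)))))) 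
(.nd (nat_lit 3) (.nd (nat_lit 4) (.nd (nat_lit 5) 
(.lf (nat_lit 251527) (.g (nat_lit 3372) (.e (nat_lit 163875) (nat_lit 3) (.e (nat_lit 204862) (nat_lit 27) (.e (nat_lit 344117) (nat_lit 21) (.e (nat_lit 516129) (nat_lit 3) (.e (nat_lit 221210) (nat_lit 22) (.e (nat_lit 196661) (nat_lit 12) (.e (nat_lit 65280) (nat_lit 0) (.e (nat_lit 5589) (nat_lit 310) .nil)))))))) (.g (nat_lit 5) .nil .nil))) 
(.lf (nat_lit 251559) (.g (nat_lit 2669) (.e (nat_lit 163875) (nat_lit 3) (.e (nat_lit 204862) (nat_lit 27) (.e (nat_lit 344129) (nat_lit 26) (.e (nat_lit 557103) (nat_lit 14) (.e (nat_lit 180250) (nat_lit 10) (.e (nat_lit 573475) (nat_lit 12) (.e (nat_lit 57344) (nat_lit 0) (.e (nat_lit 5587) (nat_lit 310) .nil)))))))) (.g (nat_lit 4) .nil .nil)))) (.nd (nat_lit 5) 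
(.lf (nat_lit 251543) (.g (nat_lit 3254) (.e (nat_lit 163875) (nat_lit 3) (.e (nat_lit 204862) (nat_lit 27) (.e (nat_lit 344117) (nat_lit 21) (.e (nat_lit 516195) (nat_lit 26) (.e (nat_lit 336011) (nat_lit 2) (.e (nat_lit 90165) (nat_lit 12) (.e (nat_lit 163847) (nat_lit 0) (.e (nat_lit 6839) (nat_lit 369) .nil)))))))) (.g (nat_lit 5) .nil .nil))) 
(.lf (nat_lit 251575) (.g (nat_lit 3007) (.e (nat_lit 163875) (nat_lit 3) (.e (nat_lit 204862) (nat_lit 27) (.e (nat_lit 344129) (nat_lit 26) (.e (nat_lit 557104) (nat_lit 14) (.e (nat_lit 180252) (nat_lit 10) (.e (nat_lit 573474) (nat_lit 12) (.e (nat_lit 57349) (nat_lit 0) (.e (nat_lit 5593) (nat_lit 310) .nil)))))))) (.g (nat_lit 4) .nil .nil))))) (.nd (nat_lit 4) (.nd (nat_lit 5) 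
(.lf (nat_lit 251535) (.g (nat_lit 3775) (.e (nat_lit 163875) (nat_lit 3) (.e (nat_lit 204862) (nat_lit 27) (.e (nat_lit 344117) (nat_lit 21) (.e (nat_lit 516130) (nat_lit 3) (.e (nat_lit 221212) (nat_lit 22) (.e (nat_lit 196660) (nat_lit 12) (.e (nat_lit 57354) (nat_lit 0) (.e (nat_lit 5589) (nat_lit 310) .nil)))))))) (.g (nat_lit 7) .nil .nil))) 
(.lf (nat_lit 251567) (.g (nat_lit 2899) (.e (nat_lit 163875) (nat_lit 3) (.e (nat_lit 204862) (nat_lit 27) (.e (nat_lit 344129) (nat_lit 26) (.e (nat_lit 557104) (nat_lit 14) (.e (nat_lit 180252) (nat_lit 10) (.e (nat_lit 573474) (nat_lit 12) (.e (nat_lit 57344) (nat_lit 0) (.e (nat_lit 5593) (nat_lit 310) .nil)))))))) (.g (nat_lit 4) .nil .nil)))) (.nd (nat_lit 5) 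
(.lf (nat_lit 251551) (.g (nat_lit 2633) (.e (nat_lit 163875) (nat_lit 3) (.e (nat_lit 204862) (nat_lit 27) (.e (nat_lit 344127) (nat_lit 26) (.e (nat_lit 557104) (nat_lit 14) (.e (nat_lit 180252) (nat_lit 10) (.e (nat_lit 573474) (nat_lit 12) (.e (nat_lit 57348) (nat_lit 0) (.e (nat_lit 5593) (nat_lit 310) .nil)))))))) (.g (nat_lit 5) .nil .nil))) 
(.lf (nat_lit 251583) (.g (nat_lit 2706) (.e (nat_lit 163875) (nat_lit 3) (.e (nat_lit 204862) (nat_lit 27) (.e (nat_lit 344130) (nat_lit 26) (.e (nat_lit 557103) (nat_lit 14) (.e (nat_lit 180250) (nat_lit 10) (.e (nat_lit 573474) (nat_lit 12) (.e (nat_lit 57344) (nat_lit 0) (.e (nat_lit 5589) (nat_lit 310) .nil)))))))) (.g (nat_lit 4) .nil .nil)))))))))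

noncomputable def tv3262 : DT := (.nd (nat_lit 0) (.nd (nat_lit 1) (.nd (nat_lit 2) (.nd (nat_lit 3) (.nd (nat_lit 4) (.nd (nat_lit 5) 
(.lf (nat_lit 251584) (.g (nat_lit 2818) (.e (nat_lit 163875) (nat_lit 3) (.e (nat_lit 204862) (nat_lit 27) (.e (nat_lit 344130) (nat_lit 26) (.e (nat_lit 557103) (nat_lit 14) (.e (nat_lit 180250) (nat_lit 10) (.e (nat_lit 573474) (nat_lit 12) (.e (nat_lit 57347) (nat_lit 0) (.e (nat_lit 5590) (nat_lit 310) .nil)))))))) (.g (nat_lit 4) .nil .nil))) 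
(.lf (nat_lit 251616) (.g (nat_lit 4071) (.e (nat_lit 163875) (nat_lit 3) (.e (nat_lit 204862) (nat_lit 27) (.e (nat_lit 344133) (nat_lit 26) (.e (nat_lit 557105) (nat_lit 14) (.e (nat_lit 180252) (nat_lit 10) (.e (nat_lit 573474) (nat_lit 12) (.e (nat_lit 57344) (nat_lit 0) (.e (nat_lit 5589) (nat_lit 310) .nil)))))))) (.g (nat_lit 5) .nil .nil)))) (.nd (nat_lit 5) 
(.lf (nat_lit 251600) (.g (nat_lit 4692) (.e (nat_lit 163875) (nat_lit 3) (.e (nat_lit 204862) (nat_lit 27) (.e (nat_lit 344132) (nat_lit 26) (.e (nat_lit 557105) (nat_lit 14) (.e (nat_lit 180252) (nat_lit 10) (.e (nat_lit 573474) (nat_lit 12) (.e (nat_lit 57354) (nat_lit 0) (.e (nat_lit 5589) (nat_lit 310) .nil)))))))) (.g (nat_lit 6) .nil .nil))) 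
(.lf (nat_lit 251632) (.g (nat_lit 2081) (.e (nat_lit 163875) (nat_lit 3) (.e (nat_lit 204863) (nat_lit 27) (.e (nat_lit 344117) (nat_lit 21) (.e (nat_lit 516123) (nat_lit 2) (.e (nat_lit 213036) (nat_lit 13) .nil))))) .nil)))) (.nd (nat_lit 4) (.nd (nat_lit 5) 
(.lf (nat_lit 251592) (.g (nat_lit 3556) (.e (nat_lit 163875) (nat_lit 3) (.e (nat_lit 204862) (nat_lit 27) (.e (nat_lit 344130) (nat_lit 26) (.e (nat_lit 557104) (nat_lit 14) (.e (nat_lit 180252) (nat_lit 10) (.e (nat_lit 573474) (nat_lit 12) (.e (nat_lit 57348) (nat_lit 0) (.e (nat_lit 5590) (nat_lit 310) .nil)))))))) (.g (nat_lit 6) .nil .nil))) 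
(.lf (nat_lit 251624) (.g (nat_lit 3134) (.e (nat_lit 163875) (nat_lit 3) (.e (nat_lit 204862) (nat_lit 27) (.e (nat_lit 344133) (nat_lit 26) (.e (nat_lit 557105) (nat_lit 14) (.e (nat_lit 180252) (nat_lit 10) (.e (nat_lit 573474) (nat_lit 12) (.e (nat_lit 57348) (nat_lit 0) (.e (nat_lit 5592) (nat_lit 310) .nil)))))))) (.g (nat_lit 4) .nil .nil)))) (.nd (nat_lit 5) 
(.lf (nat_lit 251608) (.g (nat_lit 4145) (.e (nat_lit 163875) (nat_lit 3) (.e (nat_lit 204862) (nat_lit 27) (.e (nat_lit 344133) (nat_lit 26) (.e (nat_lit 557103) (nat_lit 14) (.e (nat_lit 180250) (nat_lit 10) (.e (nat_lit 573474) (nat_lit 12) (.e (nat_lit 57348) (nat_lit 0) (.e (nat_lit 5593) (nat_lit 310) .nil)))))))) (.g (nat_lit 6) .nil .nil))) 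
(.lf (nat_lit 251640) (.g (nat_lit 2381) (.e (nat_lit 163875) (nat_lit 3) (.e (nat_lit 204863) (nat_lit 27) (.e (nat_lit 344117) (nat_lit 21) (.e (nat_lit 516129) (nat_lit 3) (.e (nat_lit 221215) (nat_lit 23) .nil))))) .nil))))) (.nd (nat_lit 3) (.nd (nat_lit 4) (.nd (nat_lit 5) 
(.lf (nat_lit 251588) (.g (nat_lit 2551) (.e (nat_lit 163875) (nat_lit 3) (.e (nat_lit 204862) (nat_lit 27) (.e (nat_lit 344130) (nat_lit 26) (.e (nat_lit 557103) (nat_lit 14) (.e (nat_lit 180250) (nat_lit 10) (.e (nat_lit 573475) (nat_lit 12) (.e (nat_lit 57345) (nat_lit 0) (.e (nat_lit 5593) (nat_lit 310) .nil)))))))) (.g (nat_lit 4) .nil .nil))) 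
(.lf (nat_lit 251620) (.g (nat_lit 3172) (.e (nat_lit 163875) (nat_lit 3) (.e (nat_lit 204862) (nat_lit 27) (.e (nat_lit 344133) (nat_lit 26) (.e (nat_lit 557105) (nat_lit 14) (.e (nat_lit 180252) (nat_lit 10) (.e (nat_lit 573474) (nat_lit 12) (.e (nat_lit 57347) (nat_lit 0) (.e (nat_lit 5591) (nat_lit 310) .nil)))))))) (.g (nat_lit 4) .nil .nil)))) (.nd (nat_lit 5) 
(.lf (nat_lit 251604) (.g (nat_lit 2387) (.e (nat_lit 163875) (nat_lit 3) (.e (nat_lit 204862) (nat_lit 27) (.e (nat_lit 344132) (nat_lit 26) (.e (nat_lit 557105) (nat_lit 14) (.e (nat_lit 180252) (nat_lit 10) (.e (nat_lit 573475) (nat_lit 12) (.e (nat_lit 57349) (nat_lit 0) (.e (nat_lit 5590) (nat_lit 310) .nil)))))))) (.g (nat_lit 4) .nil .nil))) 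
(.lf (nat_lit 251636) (.g (nat_lit 3795) (.e (nat_lit 163875) (nat_lit 3) (.e (nat_lit 204863) (nat_lit 27) (.e (nat_lit 344117) (nat_lit 21) (.e (nat_lit 516129) (nat_lit 3) (.e (nat_lit 221210) (nat_lit 22) (.e (nat_lit 196660) (nat_lit 12) (.e (nat_lit 57354) (nat_lit 0) (.e (nat_lit 5589) (nat_lit 310) .nil)))))))) (.g (nat_lit 5) .nil .nil))))) (.nd (nat_lit 4) (.nd (nat_lit 5) 
(.lf (nat_lit 251596) (.g (nat_lit 3238) (.e (nat_lit 163875) (nat_lit 3) (.e (nat_lit 204862) (nat_lit 27) (.e (nat_lit 344131) (nat_lit 26) (.e (nat_lit 557105) (nat_lit 14) (.e (nat_lit 180252) (nat_lit 10) (.e (nat_lit 573474) (nat_lit 12) (.e (nat_lit 57348) (nat_lit 0) (.e (nat_lit 5593) (nat_lit 310) .nil)))))))) (.g (nat_lit 5) .nil .nil))) 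
(.lf (nat_lit 251628) (.g (nat_lit 3288) (.e (nat_lit 163875) (nat_lit 3) (.e (nat_lit 204862) (nat_lit 27) (.e (nat_lit 344133) (nat_lit 26) (.e (nat_lit 557105) (nat_lit 14) (.e (nat_lit 180252) (nat_lit 10) (.e (nat_lit 573475) (nat_lit 12) (.e (nat_lit 57345) (nat_lit 0) (.e (nat_lit 5590) (nat_lit 310) .nil)))))))) (.g (nat_lit 4) .nil .nil)))) (.nd (nat_lit 5) 
(.lf (nat_lit 251612) (.g (nat_lit 2712) (.e (nat_lit 163875) (nat_lit 3) (.e (nat_lit 204862) (nat_lit 27) (.e (nat_lit 344133) (nat_lit 26) (.e (nat_lit 557103) (nat_lit 14) (.e (nat_lit 180250) (nat_lit 10) (.e (nat_lit 573475) (nat_lit 12) (.e (nat_lit 57354) (nat_lit 0) (.e (nat_lit 5589) (nat_lit 310) .nil)))))))) (.g (nat_lit 4) .nil .nil))) 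
(.lf (nat_lit 251644) (.g (nat_lit 932) (.e (nat_lit 163875) (nat_lit 3) (.e (nat_lit 204863) (nat_lit 27) (.e (nat_lit 344118) (nat_lit 21) .nil))) .nil)))))) (.nd (nat_lit 2) (.nd (nat_lit 3) (.nd (nat_lit 4) (.nd (nat_lit 5) 
(.lf (nat_lit 251586) (.g (nat_lit 3839) (.e (nat_lit 163875) (nat_lit 3) (.e (nat_lit 204862) (nat_lit 27) (.e (nat_lit 344130) (nat_lit 26) (.e (nat_lit 557103) (nat_lit 14) (.e (nat_lit 180250) (nat_lit 10) (.e (nat_lit 573474) (nat_lit 12) (.e (nat_lit 57354) (nat_lit 0) (.e (nat_lit 5589) (nat_lit 310) .nil)))))))) (.g (nat_lit 6) .nil .nil))) 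
(.lf (nat_lit 251618) (.g (nat_lit 3080) (.e (nat_lit 163875) (nat_lit 3) (.e (nat_lit 204862) (nat_lit 27) (.e (nat_lit 344133) (nat_lit 26) (.e (nat_lit 557105) (nat_lit 14) (.e (nat_lit 180252) (nat_lit 10) (.e (nat_lit 573474) (nat_lit 12) (.e (nat_lit 57345) (nat_lit 0) (.e (nat_lit 5583) (nat_lit 310) .nil)))))))) (.g (nat_lit 4) .nil .nil)))) (.nd (nat_lit 5) 
(.lf (nat_lit 251602) (.g (nat_lit 3087) (.e (nat_lit 163875) (nat_lit 3) (.e (nat_lit 204862) (nat_lit 27) (.e (nat_lit 344132) (nat_lit 26) (.e (nat_lit 557105) (nat_lit 14) (.e (nat_lit 180252) (nat_lit 10) (.e (nat_lit 573475) (nat_lit 12) (.e (nat_lit 57345) (nat_lit 0) (.e (nat_lit 5590) (nat_lit 310) .nil)))))))) (.g (nat_lit 5) .nil .nil))) 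
(.lf (nat_lit 251634) (.g (nat_lit 2371) (.e (nat_lit 163875) (nat_lit 3) (.e (nat_lit 204863) (nat_lit 27) (.e (nat_lit 344117) (nat_lit 21) (.e (nat_lit 516129) (nat_lit 3) (.e (nat_lit 221204) (nat_lit 20) .nil))))) .nil)))) (.nd (nat_lit 4) (.nd (nat_lit 5) 
(.lf (nat_lit 251594) (.g (nat_lit 2380) (.e (nat_lit 163875) (nat_lit 3) (.e (nat_lit 204862) (nat_lit 27) (.e (nat_lit 344130) (nat_lit 26) (.e (nat_lit 557104) (nat_lit 14) (.e (nat_lit 180252) (nat_lit 10) (.e (nat_lit 573475) (nat_lit 12) (.e (nat_lit 57345) (nat_lit 0) (.e (nat_lit 5593) (nat_lit 310) .nil)))))))) (.g (nat_lit 4) .nil .nil))) 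
(.lf (nat_lit 251626) (.g (nat_lit 5116) (.e (nat_lit 163875) (nat_lit 3) (.e (nat_lit 204862) (nat_lit 27) (.e (nat_lit 344133) (nat_lit 26) (.e (nat_lit 557105) (nat_lit 14) (.e (nat_lit 180252) (nat_lit 10) (.e (nat_lit 573474) (nat_lit 12) (.e (nat_lit 57354) (nat_lit 0) (.e (nat_lit 5589) (nat_lit 310) .nil)))))))) (.g (nat_lit 6) .nil .nil)))) (.nd (nat_lit 5) 
(.lf (nat_lit 251610) (.g (nat_lit 2664) (.e (nat_lit 163875) (nat_lit 3) (.e (nat_lit 204862) (nat_lit 27) (.e (nat_lit 344133) (nat_lit 26) (.e (nat_lit 557103) (nat_lit 14) (.e (nat_lit 180250) (nat_lit 10) (.e (nat_lit 573475) (nat_lit 12) (.e (nat_lit 57345) (nat_lit 0) (.e (nat_lit 5590) (nat_lit 310) .nil)))))))) (.g (nat_lit 4) .nil .nil))) 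
(.lf (nat_lit 251642) (.g (nat_lit 3151) (.e (nat_lit 163875) (nat_lit 3) (.e (nat_lit 204863) (nat_lit 27) (.e (nat_lit 344117) (nat_lit 21) (.e (nat_lit 516130) (nat_lit 3) (.e (nat_lit 221212) (nat_lit 22) (.e (nat_lit 196660) (nat_lit 12) (.e (nat_lit 57354) (nat_lit 0) (.e (nat_lit 5589) (nat_lit 310) .nil)))))))) (.g (nat_lit 6) .nil .nil)))))) 
(.nd (nat_lit 3) (.nd (nat_lit 4) (.nd (nat_lit 5) 
(.lf (nat_lit 251590) (.g (nat_lit 2992) (.e (nat_lit 163875) (nat_lit 3) (.e (nat_lit 204862) (nat_lit 27) (.e (nat_lit 344130) (nat_lit 26) (.e (nat_lit 557104) (nat_lit 14) (.e (nat_lit 180252) (nat_lit 10) (.e (nat_lit 573474) (nat_lit 12) (.e (nat_lit 57344) (nat_lit 0) (.e (nat_lit 5589) (nat_lit 310) .nil)))))))) (.g (nat_lit 5) .nil .nil))) 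
(.lf (nat_lit 251622) (.g (nat_lit 4838) (.e (nat_lit 163875) (nat_lit 3) (.e (nat_lit 204862) (nat_lit 27) (.e (nat_lit 344133) (nat_lit 26) (.e (nat_lit 557105) (nat_lit 14) (.e (nat_lit 180252) (nat_lit 10) (.e (nat_lit 573474) (nat_lit 12) (.e (nat_lit 57348) (nat_lit 0) (.e (nat_lit 5590) (nat_lit 310) .nil)))))))) (.g (nat_lit 6) .nil .nil)))) (.nd (nat_lit 5) 
(.lf (nat_lit 251606) (.g (nat_lit 2549) (.e (nat_lit 163875) (nat_lit 3) (.e (nat_lit 204862) (nat_lit 27) (.e (nat_lit 344132) (nat_lit 26) (.e (nat_lit 557105) (nat_lit 14) (.e (nat_lit 180252) (nat_lit 10) (.e (nat_lit 573475) (nat_lit 12) (.e (nat_lit 65280) (nat_lit 0) (.e (nat_lit 5587) (nat_lit 310) .nil)))))))) (.g (nat_lit 4) .nil .nil))) 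
(.lf (nat_lit 251638) (.g (nat_lit 2709) (.e (nat_lit 163875) (nat_lit 3) (.e (nat_lit 204863) (nat_lit 27) (.e (nat_lit 344117) (nat_lit 21) (.e (nat_lit 516129) (nat_lit 3) (.e (nat_lit 221210) (nat_lit 22) (.e (nat_lit 196677) (nat_lit 16) (.e (nat_lit 122880) (nat_lit 0) (.e (nat_lit 5589) (nat_lit 310) .nil)))))))) (.g (nat_lit 4) .nil .nil))))) (.nd (nat_lit 4) (.nd (nat_lit 5) 
(.lf (nat_lit 251598) (.g (nat_lit 4359) (.e (nat_lit 163875) (nat_lit 3) (.e (nat_lit 204862) (nat_lit 27) (.e (nat_lit 344132) (nat_lit 26) (.e (nat_lit 557105) (nat_lit 14) (.e (nat_lit 180252) (nat_lit 10) (.e (nat_lit 573474) (nat_lit 12) (.e (nat_lit 57347) (nat_lit 0) (.e (nat_lit 5593) (nat_lit 310) .nil)))))))) (.g (nat_lit 5) .nil .nil))) 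
(.lf (nat_lit 251630) (.g (nat_lit 3178) (.e (nat_lit 163875) (nat_lit 3) (.e (nat_lit 204862) (nat_lit 27) (.e (nat_lit 344133) (nat_lit 26) (.e (nat_lit 557105) (nat_lit 14) (.e (nat_lit 180252) (nat_lit 10) (.e (nat_lit 573475) (nat_lit 12) (.e (nat_lit 57348) (nat_lit 0) (.e (nat_lit 5593) (nat_lit 310) .nil)))))))) (.g (nat_lit 4) .nil .nil)))) (.nd (nat_lit 5) 
(.lf (nat_lit 251614) (.g (nat_lit 3030) (.e (nat_lit 163875) (nat_lit 3) (.e (nat_lit 204862) (nat_lit 27) (.e (nat_lit 344133) (nat_lit 26) (.e (nat_lit 557105) (nat_lit 14) (.e (nat_lit 180251) (nat_lit 10) (.e (nat_lit 573478) (nat_lit 12) (.e (nat_lit 57344) (nat_lit 0) (.e (nat_lit 5589) (nat_lit 310) .nil)))))))) (.g (nat_lit 4) .nil .nil))) 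
(.lf (nat_lit 251646) (.g (nat_lit 1109) (.e (nat_lit 163875) (nat_lit 3) (.e (nat_lit 204863) (nat_lit 27) (.e (nat_lit 344120) (nat_lit 21) (.e (nat_lit 516131) (nat_lit 3) .nil)))) .nil))))))) (.nd (nat_lit 1) (.nd (nat_lit 2) (.nd (nat_lit 3) (.nd (nat_lit 4) (.nd (nat_lit 5) 
(.lf (nat_lit 251585) (.g (nat_lit 3837) (.e (nat_lit 163875) (nat_lit 3) (.e (nat_lit 204862) (nat_lit 27) (.e (nat_lit 344130) (nat_lit 26) (.e (nat_lit 557103) (nat_lit 14) (.e (nat_lit 180250) (nat_lit 10) (.e (nat_lit 573474) (nat_lit 12) (.e (nat_lit 57348) (nat_lit 0) (.e (nat_lit 5593) (nat_lit 310) .nil)))))))) (.g (nat_lit 6) .nil .nil))) 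
(.lf (nat_lit 251617) (.g (nat_lit 2999) (.e (nat_lit 163875) (nat_lit 3) (.e (nat_lit 204862) (nat_lit 27) (.e (nat_lit 344133) (nat_lit 26) (.e (nat_lit 557105) (nat_lit 14) (.e (nat_lit 180252) (nat_lit 10) (.e (nat_lit 573474) (nat_lit 12) (.e (nat_lit 57344) (nat_lit 0) (.e (nat_lit 5593) (nat_lit 310) .nil)))))))) (.g (nat_lit 4) .nil .nil)))) (.nd (nat_lit 5) 
(.lf (nat_lit 251601) (.g (nat_lit 2481) (.e (nat_lit 163875) (nat_lit 3) (.e (nat_lit 204862) (nat_lit 27) (.e (nat_lit 344132) (nat_lit 26) (.e (nat_lit 557105) (nat_lit 14) (.e (nat_lit 180252) (nat_lit 10) (.e (nat_lit 573475) (nat_lit 12) (.e (nat_lit 57345) (nat_lit 0) (.e (nat_lit 5583) (nat_lit 310) .nil)))))))) (.g (nat_lit 4) .nil .nil))) 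
(.lf (nat_lit 251633) (.g (nat_lit 2033) (.e (nat_lit 163875) (nat_lit 3) (.e (nat_lit 204863) (nat_lit 27) (.e (nat_lit 344117) (nat_lit 21) (.e (nat_lit 516123) (nat_lit 2) (.e (nat_lit 220928) (nat_lit 13) .nil))))) .nil)))) (.nd (nat_lit 4) (.nd (nat_lit 5) 
(.lf (nat_lit 251593) (.g (nat_lit 3913) (.e (nat_lit 163875) (nat_lit 3) (.e (nat_lit 204862) (nat_lit 27) (.e (nat_lit 344130) (nat_lit 26) (.e (nat_lit 557104) (nat_lit 14) (.e (nat_lit 180252) (nat_lit 10) (.e (nat_lit 573474) (nat_lit 12) (.e (nat_lit 57354) (nat_lit 0) (.e (nat_lit 5589) (nat_lit 310) .nil)))))))) (.g (nat_lit 6) .nil .nil))) 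
(.lf (nat_lit 251625) (.g (nat_lit 3125) (.e (nat_lit 163875) (nat_lit 3) (.e (nat_lit 204862) (nat_lit 27) (.e (nat_lit 344133) (nat_lit 26) (.e (nat_lit 557105) (nat_lit 14) (.e (nat_lit 180252) (nat_lit 10) (.e (nat_lit 573474) (nat_lit 12) (.e (nat_lit 57349) (nat_lit 0) (.e (nat_lit 5593) (nat_lit 310) .nil)))))))) (.g (nat_lit 4) .nil .nil)))) (.nd (nat_lit 5) 
(.lf (nat_lit 251609) (.g (nat_lit 4147) (.e (nat_lit 163875) (nat_lit 3) (.e (nat_lit 204862) (nat_lit 27) (.e (nat_lit 344133) (nat_lit 26) (.e (nat_lit 557103) (nat_lit 14) (.e (nat_lit 180250) (nat_lit 10) (.e (nat_lit 573474) (nat_lit 12) (.e (nat_lit 57354) (nat_lit 0) (.e (nat_lit 5589) (nat_lit 310) .nil)))))))) (.g (nat_lit 6) .nil .nil))) 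
(.lf (nat_lit 251641) (.g (nat_lit 2608) (.e (nat_lit 163875) (nat_lit 3) (.e (nat_lit 204863) (nat_lit 27) (.e (nat_lit 344117) (nat_lit 21) (.e (nat_lit 516130) (nat_lit 3) (.e (nat_lit 221211) (nat_lit 22) (.e (nat_lit 196661) (nat_lit 12) (.e (nat_lit 65280) (nat_lit 0) (.e (nat_lit 5587) (nat_lit 310) .nil)))))))) (.g (nat_lit 4) .nil .nil)))))) 
(.nd (nat_lit 3) (.nd (nat_lit 4) (.nd (nat_lit 5) 
(.lf (nat_lit 251589) (.g (nat_lit 2742) (.e (nat_lit 163875) (nat_lit 3) (.e (nat_lit 204862) (nat_lit 27) (.e (nat_lit 344130) (nat_lit 26) (.e (nat_lit 557103) (nat_lit 14) (.e (nat_lit 180250) (nat_lit 10) (.e (nat_lit 573478) (nat_lit 12) (.e (nat_lit 57344) (nat_lit 0) (.e (nat_lit 5589) (nat_lit 310) .nil)))))))) (.g (nat_lit 4) .nil .nil))) 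
(.lf (nat_lit 251621) (.g (nat_lit 3206) (.e (nat_lit 163875) (nat_lit 3) (.e (nat_lit 204862) (nat_lit 27) (.e (nat_lit 344133) (nat_lit 26) (.e (nat_lit 557105) (nat_lit 14) (.e (nat_lit 180252) (nat_lit 10) (.e (nat_lit 573474) (nat_lit 12) (.e (nat_lit 57347) (nat_lit 0) (.e (nat_lit 5592) (nat_lit 310) .nil)))))))) (.g (nat_lit 4) .nil .nil)))) (.nd (nat_lit 5) 
(.lf (nat_lit 251605) (.g (nat_lit 2430) (.e (nat_lit 163875) (nat_lit 3) (.e (nat_lit 204862) (nat_lit 27) (.e (nat_lit 344132) (nat_lit 26) (.e (nat_lit 557105) (nat_lit 14) (.e (nat_lit 180252) (nat_lit 10) (.e (nat_lit 573475) (nat_lit 12) (.e (nat_lit 57355) (nat_lit 0) (.e (nat_lit 5589) (nat_lit 310) .nil)))))))) (.g (nat_lit 4) .nil .nil))) 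
(.lf (nat_lit 251637) (.g (nat_lit 2640) (.e (nat_lit 163875) (nat_lit 3) (.e (nat_lit 204863) (nat_lit 27) (.e (nat_lit 344117) (nat_lit 21) (.e (nat_lit 516129) (nat_lit 3) (.e (nat_lit 221210) (nat_lit 22) (.e (nat_lit 196661) (nat_lit 12) (.e (nat_lit 65280) (nat_lit 0) (.e (nat_lit 5589) (nat_lit 310) .nil)))))))) (.g (nat_lit 4) .nil .nil))))) (.nd (nat_lit 4) (.nd (nat_lit 5) 
(.lf (nat_lit 251597) (.g (nat_lit 4808) (.e (nat_lit 163875) (nat_lit 3) (.e (nat_lit 204862) (nat_lit 27) (.e (nat_lit 344132) (nat_lit 26) (.e (nat_lit 557105) (nat_lit 14) (.e (nat_lit 180252) (nat_lit 10) (.e (nat_lit 573474) (nat_lit 12) (.e (nat_lit 57347) (nat_lit 0) (.e (nat_lit 5590) (nat_lit 310) .nil)))))))) (.g (nat_lit 6) .nil .nil))) 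
(.lf (nat_lit 251629) (.g (nat_lit 3478) (.e (nat_lit 163875) (nat_lit 3) (.e (nat_lit 204862) (nat_lit 27) (.e (nat_lit 344133) (nat_lit 26) (.e (nat_lit 557105) (nat_lit 14) (.e (nat_lit 180252) (nat_lit 10) (.e (nat_lit 573475) (nat_lit 12) (.e (nat_lit 57345) (nat_lit 0) (.e (nat_lit 5593) (nat_lit 310) .nil)))))))) (.g (nat_lit 4) .nil .nil)))) (.nd (nat_lit 5) 
(.lf (nat_lit 251613) (.g (nat_lit 2528) (.e (nat_lit 163875) (nat_lit 3) (.e (nat_lit 204862) (nat_lit 27) (.e (nat_lit 344133) (nat_lit 26) (.e (nat_lit 557103) (nat_lit 14) (.e (nat_lit 180250) (nat_lit 10) (.e (nat_lit 573495) (nat_lit 16) (.e (nat_lit 122883) (nat_lit 0) (.e (nat_lit 5589) (nat_lit 310) .nil)))))))) (.g (nat_lit 4) .nil .nil))) 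
(.lf (nat_lit 251645) (.g (nat_lit 2466) (.e (nat_lit 163875) (nat_lit 3) (.e (nat_lit 204863) (nat_lit 27) (.e (nat_lit 344118) (nat_lit 21) (.e (nat_lit 516129) (nat_lit 3) (.e (nat_lit 221210) (nat_lit 22) (.e (nat_lit 196660) (nat_lit 12) (.e (nat_lit 57354) (nat_lit 0) (.e (nat_lit 5589) (nat_lit 310) .nil)))))))) (.g (nat_lit 4) .nil .nil))))))) 
(.nd (nat_lit 2) (.nd (nat_lit 3) (.nd (nat_lit 4) (.nd (nat_lit 5) 
(.lf (nat_lit 251587) (.g (nat_lit 2760) (.e (nat_lit 163875) (nat_lit 3) (.e (nat_lit 204862) (nat_lit 27) (.e (nat_lit 344130) (nat_lit 26) (.e (nat_lit 557103) (nat_lit 14) (.e (nat_lit 180250) (nat_lit 10) (.e (nat_lit 573475) (nat_lit 12) (.e (nat_lit 57344) (nat_lit 0) (.e (nat_lit 5589) (nat_lit 310) .nil)))))))) (.g (nat_lit 4) .nil .nil))) 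
(.lf (nat_lit 251619) (.g (nat_lit 3057) (.e (nat_lit 163875) (nat_lit 3) (.e (nat_lit 204862) (nat_lit 27) (.e (nat_lit 344133) (nat_lit 26) (.e (nat_lit 557105) (nat_lit 14) (.e (nat_lit 180252) (nat_lit 10) (.e (nat_lit 573474) (nat_lit 12) (.e (nat_lit 57346) (nat_lit 0) (.e (nat_lit 5583) (nat_lit 310) .nil)))))))) (.g (nat_lit 4) .nil .nil)))) (.nd (nat_lit 5) 
(.lf (nat_lit 251603) (.g (nat_lit 2977) (.e (nat_lit 163875) (nat_lit 3) (.e (nat_lit 204862) (nat_lit 27) (.e (nat_lit 344132) (nat_lit 26) (.e (nat_lit 557105) (nat_lit 14) (.e (nat_lit 180252) (nat_lit 10) (.e (nat_lit 573475) (nat_lit 12) (.e (nat_lit 57348) (nat_lit 0) (.e (nat_lit 5593) (nat_lit 310) .nil)))))))) (.g (nat_lit 5) .nil .nil))) 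
(.lf (nat_lit 251635) (.g (nat_lit 2315) (.e (nat_lit 163875) (nat_lit 3) (.e (nat_lit 204863) (nat_lit 27) (.e (nat_lit 344117) (nat_lit 21) (.e (nat_lit 516129) (nat_lit 3) (.e (nat_lit 221210) (nat_lit 22) (.e (nat_lit 196658) (nat_lit 12) (.e (nat_lit 57354) (nat_lit 0) (.e (nat_lit 5589) (nat_lit 310) .nil)))))))) (.g (nat_lit 4) .nil .nil))))) (.nd (nat_lit 4) (.nd (nat_lit 5) 
(.lf (nat_lit 251595) (.g (nat_lit 2660) (.e (nat_lit 163875) (nat_lit 3) (.e (nat_lit 204862) (nat_lit 27) (.e (nat_lit 344131) (nat_lit 26) (.e (nat_lit 557105) (nat_lit 14) (.e (nat_lit 180252) (nat_lit 10) (.e (nat_lit 573474) (nat_lit 12) (.e (nat_lit 57348) (nat_lit 0) (.e (nat_lit 5590) (nat_lit 310) .nil)))))))) (.g (nat_lit 5) .nil .nil))) 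
(.lf (nat_lit 251627) (.g (nat_lit 3448) (.e (nat_lit 163875) (nat_lit 3) (.e (nat_lit 204862) (nat_lit 27) (.e (nat_lit 344133) (nat_lit 26) (.e (nat_lit 557105) (nat_lit 14) (.e (nat_lit 180252) (nat_lit 10) (.e (nat_lit 573474) (nat_lit 12) (.e (nat_lit 65280) (nat_lit 0) (.e (nat_lit 5587) (nat_lit 310) .nil)))))))) (.g (nat_lit 4) .nil .nil)))) (.nd (nat_lit 5) 
(.lf (nat_lit 251611) (.g (nat_lit 2859) (.e (nat_lit 163875) (nat_lit 3) (.e (nat_lit 204862) (nat_lit 27) (.e (nat_lit 344133) (nat_lit 26) (.e (nat_lit 557103) (nat_lit 14) (.e (nat_lit 180250) (nat_lit 10) (.e (nat_lit 573475) (nat_lit 12) (.e (nat_lit 57345) (nat_lit 0) (.e (nat_lit 5593) (nat_lit 310) .nil)))))))) (.g (nat_lit 4) .nil .nil))) 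
(.lf (nat_lit 251643) (.g (nat_lit 2827) (.e (nat_lit 163875) (nat_lit 3) (.e (nat_lit 204863) (nat_lit 27) (.e (nat_lit 344117) (nat_lit 21) (.e (nat_lit 516195) (nat_lit 26) (.e (nat_lit 336012) (nat_lit 2) (.e (nat_lit 90162) (nat_lit 12) (.e (nat_lit 163844) (nat_lit 0) (.e (nat_lit 6839) (nat_lit 369) .nil)))))))) (.g (nat_lit 4) .nil .nil)))))) 
(.nd (nat_lit 3) (.nd (nat_lit 4) (.nd (nat_lit 5) 
(.lf (nat_lit 251591) (.g (nat_lit 4016) (.e (nat_lit 163875) (nat_lit 3) (.e (nat_lit 204862) (nat_lit 27) (.e (nat_lit 344130) (nat_lit 26) (.e (nat_lit 557104) (nat_lit 14) (.e (nat_lit 180252) (nat_lit 10) (.e (nat_lit 573474) (nat_lit 12) (.e (nat_lit 57347) (nat_lit 0) (.e (nat_lit 5590) (nat_lit 310) .nil)))))))) (.g (nat_lit 6) .nil .nil))) 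
(.lf (nat_lit 251623) (.g (nat_lit 3110) (.e (nat_lit 163875) (nat_lit 3) (.e (nat_lit 204862) (nat_lit 27) (.e (nat_lit 344133) (nat_lit 26) (.e (nat_lit 557105) (nat_lit 14) (.e (nat_lit 180252) (nat_lit 10) (.e (nat_lit 573474) (nat_lit 12) (.e (nat_lit 57348) (nat_lit 0) (.e (nat_lit 5591) (nat_lit 310) .nil)))))))) (.g (nat_lit 4) .nil .nil)))) (.nd (nat_lit 5) 
(.lf (nat_lit 251607) (.g (nat_lit 2673) (.e (nat_lit 163875) (nat_lit 3) (.e (nat_lit 204862) (nat_lit 27) (.e (nat_lit 344133) (nat_lit 26) (.e (nat_lit 557103) (nat_lit 14) (.e (nat_lit 180250) (nat_lit 10) (.e (nat_lit 573474) (nat_lit 12) (.e (nat_lit 57347) (nat_lit 0) (.e (nat_lit 5593) (nat_lit 310) .nil)))))))) (.g (nat_lit 4) .nil .nil))) 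
(.lf (nat_lit 251639) (.g (nat_lit 2376) (.e (nat_lit 163875) (nat_lit 3) (.e (nat_lit 204863) (nat_lit 27) (.e (nat_lit 344117) (nat_lit 21) (.e (nat_lit 516129) (nat_lit 3) (.e (nat_lit 221214) (nat_lit 23) .nil))))) .nil)))) (.nd (nat_lit 4) (.nd (nat_lit 5) 
(.lf (nat_lit 251599) (.g (nat_lit 4414) (.e (nat_lit 163875) (nat_lit 3) (.e (nat_lit 204862) (nat_lit 27) (.e (nat_lit 344132) (nat_lit 26) (.e (nat_lit 557105) (nat_lit 14) (.e (nat_lit 180252) (nat_lit 10) (.e (nat_lit 573474) (nat_lit 12) (.e (nat_lit 57348) (nat_lit 0) (.e (nat_lit 5590) (nat_lit 310) .nil)))))))) (.g (nat_lit 5) .nil .nil))) 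
(.lf (nat_lit 251631) (.g (nat_lit 1525) (.e (nat_lit 163875) (nat_lit 3) (.e (nat_lit 204863) (nat_lit 27) (.e (nat_lit 344117) (nat_lit 21) (.e (nat_lit 516122) (nat_lit 2) .nil)))) .nil))) (.nd (nat_lit 5) 
(.lf (nat_lit 251615) (.g (nat_lit 3147) (.e (nat_lit 163875) (nat_lit 3) (.e (nat_lit 204862) (nat_lit 27) (.e (nat_lit 344133) (nat_lit 26) (.e (nat_lit 557105) (nat_lit 14) (.e (nat_lit 180252) (nat_lit 10) (.e (nat_lit 573474) (nat_lit 12) (.e (nat_lit 57344) (nat_lit 0) (.e (nat_lit 5587) (nat_lit 310) .nil)))))))) (.g (nat_lit 4) .nil .nil))) 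
(.lf (nat_lit 251647) (.g (nat_lit 2735) (.e (nat_lit 163875) (nat_lit 3) (.e (nat_lit 204863) (nat_lit 27) (.e (nat_lit 344127) (nat_lit 26) (.e (nat_lit 557104) (nat_lit 14) (.e (nat_lit 180252) (nat_lit 10) (.e (nat_lit 573474) (nat_lit 12) (.e (nat_lit 57348) (nat_lit 0) (.e (nat_lit 5593) (nat_lit 310) .nil)))))))) (.g (nat_lit 4) .nil .nil)))))))))

noncomputable def tv3263 : DT := (.nd (nat_lit 0) (.nd (nat_lit 1) (.nd (nat_lit 2) (.nd (nat_lit 3) (.nd (nat_lit 4) (.nd (nat_lit 5) (.nd (nat_lit 6) 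
(.lf (nat_lit 251648) (.g (nat_lit 2638) (.e (nat_lit 163875) (nat_lit 3) (.e (nat_lit 204863) (nat_lit 27) (.e (nat_lit 344129) (nat_lit 26) (.e (nat_lit 557103) (nat_lit 14) (.e (nat_lit 180250) (nat_lit 10) (.e (nat_lit 573474) (nat_lit 12) (.e (nat_lit 57348) (nat_lit 0) (.e (nat_lit 5590) (nat_lit 310) .nil)))))))) (.g (nat_lit 4) .nil .nil))) 
(.lf (nat_lit 251712) (.g (nat_lit 5524) (.e (nat_lit 163878) (nat_lit 4) (.e (nat_lit 220928) (nat_lit 3) (.e (nat_lit 57480) (nat_lit 28) (.e (nat_lit 557109) (nat_lit 15) (.e (nat_lit 188452) (nat_lit 23) (.e (nat_lit 204830) (nat_lit 18) (.e (nat_lit 65280) (nat_lit 231) .nil))))))) (.g (nat_lit 6) .nil .nil)))) (.nd (nat_lit 6) 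
(.lf (nat_lit 251680) (.g (nat_lit 3224) (.e (nat_lit 163875) (nat_lit 3) (.e (nat_lit 204863) (nat_lit 27) (.e (nat_lit 344133) (nat_lit 26) (.e (nat_lit 557105) (nat_lit 14) (.e (nat_lit 180252) (nat_lit 10) (.e (nat_lit 573475) (nat_lit 12) (.e (nat_lit 57345) (nat_lit 0) (.e (nat_lit 5593) (nat_lit 310) .nil)))))))) (.g (nat_lit 4) .nil .nil))) 
(.lf (nat_lit 251744) (.g (nat_lit 2322) (.e (nat_lit 163879) (nat_lit 4) (.e (nat_lit 213030) (nat_lit 11) (.e (nat_lit 24654) (nat_lit 13) (.e (nat_lit 393271) (nat_lit 23) (.e (nat_lit 426112) (nat_lit 1) .nil))))) .nil)))) (.nd (nat_lit 5) (.nd (nat_lit 6) 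
(.lf (nat_lit 251664) (.g (nat_lit 2731) (.e (nat_lit 163875) (nat_lit 3) (.e (nat_lit 204863) (nat_lit 27) (.e (nat_lit 344131) (nat_lit 26) (.e (nat_lit 557105) (nat_lit 14) (.e (nat_lit 180252) (nat_lit 10) (.e (nat_lit 573475) (nat_lit 12) (.e (nat_lit 57344) (nat_lit 0) (.e (nat_lit 5589) (nat_lit 310) .nil)))))))) (.g (nat_lit 4) .nil .nil))) 
(.lf (nat_lit 251728) (.g (nat_lit 2102) (.e (nat_lit 163878) (nat_lit 4) (.e (nat_lit 213032) (nat_lit 11) (.e (nat_lit 24629) (nat_lit 9) (.e (nat_lit 336443) (nat_lit 32) (.e (nat_lit 466972) (nat_lit 21) .nil))))) .nil))) (.nd (nat_lit 6) 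
(.lf (nat_lit 251696) (.g (nat_lit 1981) (.e (nat_lit 163875) (nat_lit 3) (.e (nat_lit 204883) (nat_lit 33) (.e (nat_lit 401459) (nat_lit 13) (.e (nat_lit 483341) (nat_lit 9) .nil)))) .nil)) 
(.lf (nat_lit 251760) (.g (nat_lit 1746) (.e (nat_lit 163883) (nat_lit 5) (.e (nat_lit 221194) (nat_lit 11) (.e (nat_lit 336027) (nat_lit 3) .nil))) .nil))))) (.nd (nat_lit 4) (.nd (nat_lit 5) (.nd (nat_lit 6) 
(.lf (nat_lit 251656) (.g (nat_lit 3218) (.e (nat_lit 163875) (nat_lit 3) (.e (nat_lit 204863) (nat_lit 27) (.e (nat_lit 344130) (nat_lit 26) (.e (nat_lit 557104) (nat_lit 14) (.e (nat_lit 180252) (nat_lit 10) (.e (nat_lit 573474) (nat_lit 12) (.e (nat_lit 57347) (nat_lit 0) (.e (nat_lit 5590) (nat_lit 310) .nil)))))))) (.g (nat_lit 5) .nil .nil))) 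
(.lf (nat_lit 251720) (.g (nat_lit 1183) (.e (nat_lit 163878) (nat_lit 4) (.e (nat_lit 213030) (nat_lit 11) (.e (nat_lit 24654) (nat_lit 13) (.e (nat_lit 393281) (nat_lit 23) .nil)))) .nil))) (.nd (nat_lit 6) 
(.lf (nat_lit 251688) (.g (nat_lit 2844) (.e (nat_lit 163875) (nat_lit 3) (.e (nat_lit 204864) (nat_lit 27) (.e (nat_lit 344133) (nat_lit 26) (.e (nat_lit 557105) (nat_lit 14) (.e (nat_lit 180252) (nat_lit 10) (.e (nat_lit 573474) (nat_lit 12) (.e (nat_lit 57344) (nat_lit 0) (.e (nat_lit 5587) (nat_lit 310) .nil)))))))) (.g (nat_lit 4) .nil .nil))) 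
(.lf (nat_lit 251752) (.g (nat_lit 1038) (.e (nat_lit 163879) (nat_lit 4) (.e (nat_lit 213032) (nat_lit 11) (.e (nat_lit 24654) (nat_lit 13) .nil))) .nil)))) (.nd (nat_lit 5) (.nd (nat_lit 6) 
(.lf (nat_lit 251672) (.g (nat_lit 2907) (.e (nat_lit 163875) (nat_lit 3) (.e (nat_lit 204863) (nat_lit 27) (.e (nat_lit 344133) (nat_lit 26) (.e (nat_lit 557105) (nat_lit 14) (.e (nat_lit 180252) (nat_lit 10) (.e (nat_lit 573474) (nat_lit 12) (.e (nat_lit 57344) (nat_lit 0) (.e (nat_lit 5587) (nat_lit 310) .nil)))))))) (.g (nat_lit 4) .nil .nil))) 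
(.lf (nat_lit 251736) (.g (nat_lit 1588) (.e (nat_lit 163879) (nat_lit 4) (.e (nat_lit 213019) (nat_lit 9) (.e (nat_lit 284) (nat_lit 21) (.e (nat_lit 336076) (nat_lit 9) (.e (nat_lit 336443) (nat_lit 32) .nil))))) .nil))) (.nd (nat_lit 6) 
(.lf (nat_lit 251704) (.g (nat_lit 1409) (.e (nat_lit 163877) (nat_lit 4) (.e (nat_lit 213032) (nat_lit 11) (.e (nat_lit 24659) (nat_lit 13) (.e (nat_lit 393279) (nat_lit 23) .nil)))) .nil)) 
(.lf (nat_lit 251768) (.g (nat_lit 2372) (.e (nat_lit 163884) (nat_lit 5) (.e (nat_lit 221190) (nat_lit 11) (.e (nat_lit 336088) (nat_lit 9) (.e (nat_lit 336443) (nat_lit 32) (.e (nat_lit 466971) (nat_lit 21) (.e (nat_lit 164324) (nat_lit 230) .nil)))))) (.g (nat_lit 4) .nil .nil))))))) (.nd (nat_lit 3) (.nd (nat_lit 4) (.nd (nat_lit 5) (.nd (nat_lit 6) 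
(.lf (nat_lit 251652) (.g (nat_lit 2917) (.e (nat_lit 163875) (nat_lit 3) (.e (nat_lit 204863) (nat_lit 27) (.e (nat_lit 344129) (nat_lit 26) (.e (nat_lit 557104) (nat_lit 14) (.e (nat_lit 180252) (nat_lit 10) (.e (nat_lit 573475) (nat_lit 12) (.e (nat_lit 57344) (nat_lit 0) (.e (nat_lit 5589) (nat_lit 310) .nil)))))))) (.g (nat_lit 4) .nil .nil))) 
(.lf (nat_lit 251716) (.g (nat_lit 1223) (.e (nat_lit 163878) (nat_lit 4) (.e (nat_lit 213000) (nat_lit 9) (.e (nat_lit 284) (nat_lit 21) (.e (nat_lit 336076) (nat_lit 9) (.e (nat_lit 336443) (nat_lit 32) .nil))))) .nil))) (.nd (nat_lit 6) 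
(.lf (nat_lit 251684) (.g (nat_lit 4089) (.e (nat_lit 163875) (nat_lit 3) (.e (nat_lit 204864) (nat_lit 27) (.e (nat_lit 344132) (nat_lit 26) (.e (nat_lit 557105) (nat_lit 14) (.e (nat_lit 180252) (nat_lit 10) (.e (nat_lit 573474) (nat_lit 12) (.e (nat_lit 57347) (nat_lit 0) (.e (nat_lit 5593) (nat_lit 310) .nil)))))))) (.g (nat_lit 5) .nil .nil))) 
(.lf (nat_lit 251748) (.g (nat_lit 2672) (.e (nat_lit 163879) (nat_lit 4) (.e (nat_lit 213032) (nat_lit 11) (.e (nat_lit 24624) (nat_lit 9) (.e (nat_lit 336443) (nat_lit 32) (.e (nat_lit 466971) (nat_lit 21) .nil))))) .nil)))) (.nd (nat_lit 5) (.nd (nat_lit 6) 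
(.lf (nat_lit 251668) (.g (nat_lit 2826) (.e (nat_lit 163875) (nat_lit 3) (.e (nat_lit 204863) (nat_lit 27) (.e (nat_lit 344132) (nat_lit 26) (.e (nat_lit 557105) (nat_lit 14) (.e (nat_lit 180252) (nat_lit 10) (.e (nat_lit 573475) (nat_lit 12) (.e (nat_lit 57345) (nat_lit 0) (.e (nat_lit 5590) (nat_lit 310) .nil)))))))) (.g (nat_lit 5) .nil .nil))) 
(.lf (nat_lit 251732) (.g (nat_lit 997) (.e (nat_lit 163878) (nat_lit 4) (.e (nat_lit 213032) (nat_lit 11) (.e (nat_lit 24659) (nat_lit 13) .nil))) .nil))) (.nd (nat_lit 6) 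
(.lf (nat_lit 251700) (.g (nat_lit 934) (.e (nat_lit 163877) (nat_lit 4) (.e (nat_lit 213032) (nat_lit 11) (.e (nat_lit 24627) (nat_lit 9) .nil))) .nil)) 
(.lf (nat_lit 251764) (.g (nat_lit 2503) (.e (nat_lit 163884) (nat_lit 5) (.e (nat_lit 221190) (nat_lit 11) (.e (nat_lit 336088) (nat_lit 9) (.e (nat_lit 336443) (nat_lit 32) (.e (nat_lit 466969) (nat_lit 21) (.e (nat_lit 164324) (nat_lit 230) .nil)))))) (.g (nat_lit 4) .nil .nil)))))) (.nd (nat_lit 4) (.nd (nat_lit 5) (.nd (nat_lit 6) 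
(.lf (nat_lit 251660) (.g (nat_lit 2800) (.e (nat_lit 163875) (nat_lit 3) (.e (nat_lit 204863) (nat_lit 27) (.e (nat_lit 344131) (nat_lit 26) (.e (nat_lit 557103) (nat_lit 14) (.e (nat_lit 180250) (nat_lit 10) (.e (nat_lit 573474) (nat_lit 12) (.e (nat_lit 57354) (nat_lit 0) (.e (nat_lit 5589) (nat_lit 310) .nil)))))))) (.g (nat_lit 4) .nil .nil))) 
(.lf (nat_lit 251724) (.g (nat_lit 1297) (.e (nat_lit 163878) (nat_lit 4) (.e (nat_lit 213032) (nat_lit 11) (.e (nat_lit 24623) (nat_lit 9) .nil))) .nil))) (.nd (nat_lit 6) 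
(.lf (nat_lit 251692) (.g (nat_lit 3267) (.e (nat_lit 163875) (nat_lit 3) (.e (nat_lit 204880) (nat_lit 32) (.e (nat_lit 385094) (nat_lit 49) (.e (nat_lit 778291) (nat_lit 0) .nil)))) .nil)) 
(.lf (nat_lit 251756) (.g (nat_lit 1134) (.e (nat_lit 163880) (nat_lit 4) (.e (nat_lit 213032) (nat_lit 11) (.e (nat_lit 24654) (nat_lit 13) (.e (nat_lit 393281) (nat_lit 23) .nil)))) .nil)))) (.nd (nat_lit 5) (.nd (nat_lit 6) 
(.lf (nat_lit 251676) (.g (nat_lit 4291) (.e (nat_lit 163875) (nat_lit 3) (.e (nat_lit 204863) (nat_lit 27) (.e (nat_lit 344133) (nat_lit 26) (.e (nat_lit 557105) (nat_lit 14) (.e (nat_lit 180252) (nat_lit 10) (.e (nat_lit 573474) (nat_lit 12) (.e (nat_lit 57348) (nat_lit 0) (.e (nat_lit 5590) (nat_lit 310) .nil)))))))) (.g (nat_lit 5) .nil .nil))) 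
(.lf (nat_lit 251740) (.g (nat_lit 2099) (.e (nat_lit 163879) (nat_lit 4) (.e (nat_lit 213030) (nat_lit 11) (.e (nat_lit 24624) (nat_lit 9) (.e (nat_lit 336443) (nat_lit 32) (.e (nat_lit 466971) (nat_lit 21) .nil))))) .nil))) (.nd (nat_lit 6) 
(.lf (nat_lit 251708) (.g (nat_lit 1973) (.e (nat_lit 163877) (nat_lit 4) (.e (nat_lit 213032) (nat_lit 11) (.e (nat_lit 24659) (nat_lit 13) (.e (nat_lit 393281) (nat_lit 23) (.e (nat_lit 426108) (nat_lit 1) .nil))))) .nil)) 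
(.lf (nat_lit 251772) (.g (nat_lit 2251) (.e (nat_lit 163884) (nat_lit 5) (.e (nat_lit 221190) (nat_lit 11) (.e (nat_lit 336213) (nat_lit 13) (.e (nat_lit 393281) (nat_lit 23) (.e (nat_lit 426098) (nat_lit 1) .nil))))) .nil))))))) (.nd (nat_lit 2) (.nd (nat_lit 3) (.nd (nat_lit 4) (.nd (nat_lit 5) (.nd (nat_lit 6) 
(.lf (nat_lit 251650) (.g (nat_lit 3737) (.e (nat_lit 163875) (nat_lit 3) (.e (nat_lit 204863) (nat_lit 27) (.e (nat_lit 344129) (nat_lit 26) (.e (nat_lit 557104) (nat_lit 14) (.e (nat_lit 180252) (nat_lit 10) (.e (nat_lit 573474) (nat_lit 12) (.e (nat_lit 57348) (nat_lit 0) (.e (nat_lit 5590) (nat_lit 310) .nil)))))))) (.g (nat_lit 5) .nil .nil))) 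
(.lf (nat_lit 251714) (.g (nat_lit 3392) (.e (nat_lit 163878) (nat_lit 4) (.e (nat_lit 220928) (nat_lit 4) (.e (nat_lit 65630) (nat_lit 14) (.e (nat_lit 401459) (nat_lit 13) (.e (nat_lit 483363) (nat_lit 18) (.e (nat_lit 65280) (nat_lit 231) .nil)))))) (.g (nat_lit 5) .nil .nil)))) (.nd (nat_lit 6) 
(.lf (nat_lit 251682) (.g (nat_lit 2380) (.e (nat_lit 163875) (nat_lit 3) (.e (nat_lit 204864) (nat_lit 27) (.e (nat_lit 344132) (nat_lit 26) (.e (nat_lit 557105) (nat_lit 14) (.e (nat_lit 180252) (nat_lit 10) (.e (nat_lit 573473) (nat_lit 12) (.e (nat_lit 57348) (nat_lit 0) (.e (nat_lit 5593) (nat_lit 310) .nil)))))))) (.g (nat_lit 4) .nil .nil))) 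
(.lf (nat_lit 251746) (.g (nat_lit 1222) (.e (nat_lit 163879) (nat_lit 4) (.e (nat_lit 213032) (nat_lit 11) (.e (nat_lit 24624) (nat_lit 9) .nil))) .nil)))) (.nd (nat_lit 5) (.nd (nat_lit 6) 
(.lf (nat_lit 251666) (.g (nat_lit 4391) (.e (nat_lit 163875) (nat_lit 3) (.e (nat_lit 204863) (nat_lit 27) (.e (nat_lit 344132) (nat_lit 26) (.e (nat_lit 557105) (nat_lit 14) (.e (nat_lit 180252) (nat_lit 10) (.e (nat_lit 573474) (nat_lit 12) (.e (nat_lit 57347) (nat_lit 0) (.e (nat_lit 5593) (nat_lit 310) .nil)))))))) (.g (nat_lit 5) .nil .nil))) 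
(.lf (nat_lit 251730) (.g (nat_lit 2258) (.e (nat_lit 163878) (nat_lit 4) (.e (nat_lit 213032) (nat_lit 11) (.e (nat_lit 24656) (nat_lit 13) (.e (nat_lit 393281) (nat_lit 23) (.e (nat_lit 426099) (nat_lit 1) .nil))))) .nil))) (.nd (nat_lit 6) 
(.lf (nat_lit 251698) (.g (nat_lit 1614) (.e (nat_lit 163877) (nat_lit 4) (.e (nat_lit 213030) (nat_lit 11) (.e (nat_lit 24658) (nat_lit 13) (.e (nat_lit 393281) (nat_lit 23) .nil)))) .nil)) 
(.lf (nat_lit 251762) (.g (nat_lit 2134) (.e (nat_lit 163883) (nat_lit 5) (.e (nat_lit 221194) (nat_lit 11) (.e (nat_lit 336213) (nat_lit 13) (.e (nat_lit 393281) (nat_lit 23) .nil)))) .nil))))) (.nd (nat_lit 4) (.nd (nat_lit 5) (.nd (nat_lit 6) 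
(.lf (nat_lit 251658) (.g (nat_lit 3240) (.e (nat_lit 163875) (nat_lit 3) (.e (nat_lit 204863) (nat_lit 27) (.e (nat_lit 344130) (nat_lit 26) (.e (nat_lit 557104) (nat_lit 14) (.e (nat_lit 180252) (nat_lit 10) (.e (nat_lit 573474) (nat_lit 12) (.e (nat_lit 57354) (nat_lit 0) (.e (nat_lit 5589) (nat_lit 310) .nil)))))))) (.g (nat_lit 5) .nil .nil))) 
(.lf (nat_lit 251722) (.g (nat_lit 2275) (.e (nat_lit 163878) (nat_lit 4) (.e (nat_lit 213032) (nat_lit 11) (.e (nat_lit 24604) (nat_lit 2) (.e (nat_lit 90178) (nat_lit 15) .nil)))) .nil))) (.nd (nat_lit 6) 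
(.lf (nat_lit 251690) (.g (nat_lit 4025) (.e (nat_lit 163875) (nat_lit 3) (.e (nat_lit 204864) (nat_lit 27) (.e (nat_lit 344133) (nat_lit 26) (.e (nat_lit 557105) (nat_lit 14) (.e (nat_lit 180252) (nat_lit 10) (.e (nat_lit 573474) (nat_lit 12) (.e (nat_lit 57348) (nat_lit 0) (.e (nat_lit 5590) (nat_lit 310) .nil)))))))) (.g (nat_lit 5) .nil .nil))) 
(.lf (nat_lit 251754) (.g (nat_lit 2204) (.e (nat_lit 163879) (nat_lit 4) (.e (nat_lit 213032) (nat_lit 11) (.e (nat_lit 24656) (nat_lit 13) (.e (nat_lit 393281) (nat_lit 23) (.e (nat_lit 426098) (nat_lit 1) .nil))))) .nil)))) (.nd (nat_lit 5) (.nd (nat_lit 6) 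
(.lf (nat_lit 251674) (.g (nat_lit 3242) (.e (nat_lit 163875) (nat_lit 3) (.e (nat_lit 204863) (nat_lit 27) (.e (nat_lit 344133) (nat_lit 26) (.e (nat_lit 557105) (nat_lit 14) (.e (nat_lit 180252) (nat_lit 10) (.e (nat_lit 573474) (nat_lit 12) (.e (nat_lit 57345) (nat_lit 0) (.e (nat_lit 5590) (nat_lit 310) .nil)))))))) (.g (nat_lit 4) .nil .nil))) 
(.lf (nat_lit 251738) (.g (nat_lit 2701) (.e (nat_lit 163879) (nat_lit 4) (.e (nat_lit 213019) (nat_lit 9) (.e (nat_lit 284) (nat_lit 21) (.e (nat_lit 336213) (nat_lit 13) (.e (nat_lit 393289) (nat_lit 25) .nil))))) .nil))) (.nd (nat_lit 6) 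
(.lf (nat_lit 251706) (.g (nat_lit 1935) (.e (nat_lit 163877) (nat_lit 4) (.e (nat_lit 213032) (nat_lit 11) (.e (nat_lit 24659) (nat_lit 13) (.e (nat_lit 393281) (nat_lit 23) (.e (nat_lit 426099) (nat_lit 1) .nil))))) .nil)) 
(.lf (nat_lit 251770) (.g (nat_lit 2294) (.e (nat_lit 163884) (nat_lit 5) (.e (nat_lit 221190) (nat_lit 11) (.e (nat_lit 336088) (nat_lit 9) (.e (nat_lit 336443) (nat_lit 32) (.e (nat_lit 466972) (nat_lit 21) (.e (nat_lit 164331) (nat_lit 230) .nil)))))) (.g (nat_lit 4) .nil .nil))))))) (.nd (nat_lit 3) (.nd (nat_lit 4) (.nd (nat_lit 5) (.nd (nat_lit 6) 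
(.lf (nat_lit 251654) (.g (nat_lit 3057) (.e (nat_lit 163875) (nat_lit 3) (.e (nat_lit 204863) (nat_lit 27) (.e (nat_lit 344129) (nat_lit 26) (.e (nat_lit 557104) (nat_lit 14) (.e (nat_lit 180252) (nat_lit 10) (.e (nat_lit 573495) (nat_lit 16) (.e (nat_lit 122883) (nat_lit 0) (.e (nat_lit 5589) (nat_lit 310) .nil)))))))) (.g (nat_lit 4) .nil .nil))) 
(.lf (nat_lit 251718) (.g (nat_lit 1555) (.e (nat_lit 163878) (nat_lit 4) (.e (nat_lit 213013) (nat_lit 9) (.e (nat_lit 247) (nat_lit 21) (.e (nat_lit 336223) (nat_lit 13) (.e (nat_lit 393281) (nat_lit 23) .nil))))) .nil))) (.nd (nat_lit 6) 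
(.lf (nat_lit 251686) (.g (nat_lit 4355) (.e (nat_lit 163875) (nat_lit 3) (.e (nat_lit 204864) (nat_lit 27) (.e (nat_lit 344132) (nat_lit 26) (.e (nat_lit 557105) (nat_lit 14) (.e (nat_lit 180252) (nat_lit 10) (.e (nat_lit 573474) (nat_lit 12) (.e (nat_lit 57354) (nat_lit 0) (.e (nat_lit 5589) (nat_lit 310) .nil)))))))) (.g (nat_lit 5) .nil .nil))) 
(.lf (nat_lit 251750) (.g (nat_lit 2945) (.e (nat_lit 163879) (nat_lit 4) (.e (nat_lit 213032) (nat_lit 11) (.e (nat_lit 24626) (nat_lit 9) (.e (nat_lit 336443) (nat_lit 32) (.e (nat_lit 466969) (nat_lit 21) (.e (nat_lit 164326) (nat_lit 230) .nil)))))) (.g (nat_lit 4) .nil .nil))))) (.nd (nat_lit 5) (.nd (nat_lit 6) 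
(.lf (nat_lit 251670) (.g (nat_lit 2595) (.e (nat_lit 163875) (nat_lit 3) (.e (nat_lit 204863) (nat_lit 27) (.e (nat_lit 344132) (nat_lit 26) (.e (nat_lit 557105) (nat_lit 14) (.e (nat_lit 180252) (nat_lit 10) (.e (nat_lit 573475) (nat_lit 12) (.e (nat_lit 65280) (nat_lit 0) (.e (nat_lit 5587) (nat_lit 310) .nil)))))))) (.g (nat_lit 4) .nil .nil))) 
(.lf (nat_lit 251734) (.g (nat_lit 2039) (.e (nat_lit 163878) (nat_lit 4) (.e (nat_lit 213032) (nat_lit 11) (.e (nat_lit 24659) (nat_lit 13) (.e (nat_lit 393281) (nat_lit 23) (.e (nat_lit 426108) (nat_lit 1) .nil))))) .nil))) (.nd (nat_lit 6) 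
(.lf (nat_lit 251702) (.g (nat_lit 1629) (.e (nat_lit 163877) (nat_lit 4) (.e (nat_lit 213032) (nat_lit 11) (.e (nat_lit 24656) (nat_lit 13) (.e (nat_lit 393281) (nat_lit 23) .nil)))) .nil)) 
(.lf (nat_lit 251766) (.g (nat_lit 2197) (.e (nat_lit 163884) (nat_lit 5) (.e (nat_lit 221190) (nat_lit 11) (.e (nat_lit 336088) (nat_lit 9) (.e (nat_lit 336443) (nat_lit 32) (.e (nat_lit 466969) (nat_lit 21) (.e (nat_lit 164331) (nat_lit 230) .nil)))))) (.g (nat_lit 4) .nil .nil)))))) (.nd (nat_lit 4) (.nd (nat_lit 5) (.nd (nat_lit 6) 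
(.lf (nat_lit 251662) (.g (nat_lit 3961) (.e (nat_lit 163875) (nat_lit 3) (.e (nat_lit 204863) (nat_lit 27) (.e (nat_lit 344131) (nat_lit 26) (.e (nat_lit 557105) (nat_lit 14) (.e (nat_lit 180252) (nat_lit 10) (.e (nat_lit 573474) (nat_lit 12) (.e (nat_lit 57347) (nat_lit 0) (.e (nat_lit 5593) (nat_lit 310) .nil)))))))) (.g (nat_lit 5) .nil .nil))) 
(.lf (nat_lit 251726) (.g (nat_lit 1995) (.e (nat_lit 163878) (nat_lit 4) (.e (nat_lit 213032) (nat_lit 11) (.e (nat_lit 24626) (nat_lit 9) (.e (nat_lit 336443) (nat_lit 32) .nil)))) .nil))) (.nd (nat_lit 6) 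
(.lf (nat_lit 251694) (.g (nat_lit 182) (.e (nat_lit 163875) (nat_lit 3) (.e (nat_lit 204883) (nat_lit 33) (.e (nat_lit 401456) (nat_lit 13) .nil))) .nil)) 
(.lf (nat_lit 251758) (.g (nat_lit 1506) (.e (nat_lit 163882) (nat_lit 4) (.e (nat_lit 213019) (nat_lit 9) (.e (nat_lit 250) (nat_lit 21) (.e (nat_lit 336223) (nat_lit 13) (.e (nat_lit 393281) (nat_lit 23) .nil))))) .nil)))) (.nd (nat_lit 5) (.nd (nat_lit 6) 
(.lf (nat_lit 251678) (.g (nat_lit 3208) (.e (nat_lit 163875) (nat_lit 3) (.e (nat_lit 204863) (nat_lit 27) (.e (nat_lit 344133) (nat_lit 26) (.e (nat_lit 557105) (nat_lit 14) (.e (nat_lit 180252) (nat_lit 10) (.e (nat_lit 573474) (nat_lit 12) (.e (nat_lit 65280) (nat_lit 0) (.e (nat_lit 5587) (nat_lit 310) .nil)))))))) (.g (nat_lit 4) .nil .nil))) 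
(.lf (nat_lit 251742) (.g (nat_lit 2005) (.e (nat_lit 163879) (nat_lit 4) (.e (nat_lit 213030) (nat_lit 11) (.e (nat_lit 24625) (nat_lit 9) (.e (nat_lit 336432) (nat_lit 30) .nil)))) .nil))) (.nd (nat_lit 6) 
(.lf (nat_lit 251710) (.g (nat_lit 3484) (.e (nat_lit 163878) (nat_lit 4) (.e (nat_lit 220928) (nat_lit 3) (.e (nat_lit 57477) (nat_lit 28) (.e (nat_lit 557108) (nat_lit 15) (.e (nat_lit 188452) (nat_lit 23) (.e (nat_lit 204830) (nat_lit 18) (.e (nat_lit 65280) (nat_lit 231) .nil))))))) (.g (nat_lit 6) .nil .nil))) 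
(.lf (nat_lit 251774) (.g (nat_lit 2473) (.e (nat_lit 163884) (nat_lit 5) (.e (nat_lit 221190) (nat_lit 11) (.e (nat_lit 336215) (nat_lit 13) (.e (nat_lit 393271) (nat_lit 23) (.e (nat_lit 426112) (nat_lit 1) (.e (nat_lit 164327) (nat_lit 230) .nil)))))) (.g (nat_lit 5) .nil .nil))))))))) (.nd (nat_lit 1) (.nd (nat_lit 2) (.nd (nat_lit 3) (.nd (nat_lit 4) (.nd (nat_lit 5) (.nd (nat_lit 6) 
(.lf (nat_lit 251649) (.g (nat_lit 2842) (.e (nat_lit 163875) (nat_lit 3) (.e (nat_lit 204863) (nat_lit 27) (.e (nat_lit 344129) (nat_lit 26) (.e (nat_lit 557104) (nat_lit 14) (.e (nat_lit 180252) (nat_lit 10) (.e (nat_lit 573474) (nat_lit 12) (.e (nat_lit 57345) (nat_lit 0) (.e (nat_lit 5590) (nat_lit 310) .nil)))))))) (.g (nat_lit 4) .nil .nil))) 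
(.lf (nat_lit 251713) (.g (nat_lit 3026) (.e (nat_lit 163878) (nat_lit 4) (.e (nat_lit 220928) (nat_lit 4) (.e (nat_lit 65628) (nat_lit 14) (.e (nat_lit 401459) (nat_lit 13) (.e (nat_lit 483364) (nat_lit 18) (.e (nat_lit 65280) (nat_lit 231) .nil)))))) (.g (nat_lit 5) .nil .nil)))) (.nd (nat_lit 6) 
(.lf (nat_lit 251681) (.g (nat_lit 3078) (.e (nat_lit 163875) (nat_lit 3) (.e (nat_lit 204864) (nat_lit 27) (.e (nat_lit 344130) (nat_lit 26) (.e (nat_lit 557104) (nat_lit 14) (.e (nat_lit 180252) (nat_lit 10) (.e (nat_lit 573474) (nat_lit 12) (.e (nat_lit 57348) (nat_lit 0) (.e (nat_lit 5590) (nat_lit 310) .nil)))))))) (.g (nat_lit 5) .nil .nil))) 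
(.lf (nat_lit 251745) (.g (nat_lit 1809) (.e (nat_lit 163879) (nat_lit 4) (.e (nat_lit 213030) (nat_lit 11) (.e (nat_lit 24654) (nat_lit 13) (.e (nat_lit 393281) (nat_lit 23) (.e (nat_lit 426098) (nat_lit 1) .nil))))) .nil)))) (.nd (nat_lit 5) (.nd (nat_lit 6) 
(.lf (nat_lit 251665) (.g (nat_lit 2681) (.e (nat_lit 163875) (nat_lit 3) (.e (nat_lit 204863) (nat_lit 27) (.e (nat_lit 344131) (nat_lit 26) (.e (nat_lit 557105) (nat_lit 14) (.e (nat_lit 180252) (nat_lit 10) (.e (nat_lit 573475) (nat_lit 12) (.e (nat_lit 57345) (nat_lit 0) (.e (nat_lit 5593) (nat_lit 310) .nil)))))))) (.g (nat_lit 4) .nil .nil))) 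
(.lf (nat_lit 251729) (.g (nat_lit 1794) (.e (nat_lit 163878) (nat_lit 4) (.e (nat_lit 213032) (nat_lit 11) (.e (nat_lit 24656) (nat_lit 13) (.e (nat_lit 393281) (nat_lit 23) .nil)))) .nil))) (.nd (nat_lit 6) 
(.lf (nat_lit 251697) (.g (nat_lit 1333) (.e (nat_lit 163875) (nat_lit 3) (.e (nat_lit 204883) (nat_lit 33) (.e (nat_lit 401459) (nat_lit 13) (.e (nat_lit 491264) (nat_lit 10) .nil)))) .nil)) 
(.lf (nat_lit 251761) (.g (nat_lit 821) (.e (nat_lit 163883) (nat_lit 5) (.e (nat_lit 221194) (nat_lit 11) (.e (nat_lit 336076) (nat_lit 9) .nil))) .nil))))) (.nd (nat_lit 4) (.nd (nat_lit 5) (.nd (nat_lit 6) 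
(.lf (nat_lit 251657) (.g (nat_lit 2758) (.e (nat_lit 163875) (nat_lit 3) (.e (nat_lit 204863) (nat_lit 27) (.e (nat_lit 344130) (nat_lit 26) (.e (nat_lit 557104) (nat_lit 14) (.e (nat_lit 180252) (nat_lit 10) (.e (nat_lit 573474) (nat_lit 12) (.e (nat_lit 57348) (nat_lit 0) (.e (nat_lit 5590) (nat_lit 310) .nil)))))))) (.g (nat_lit 4) .nil .nil))) 
(.lf (nat_lit 251721) (.g (nat_lit 2405) (.e (nat_lit 163878) (nat_lit 4) (.e (nat_lit 213032) (nat_lit 11) (.e (nat_lit 24604) (nat_lit 2) (.e (nat_lit 90176) (nat_lit 15) .nil)))) .nil))) (.nd (nat_lit 6) 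
(.lf (nat_lit 251689) (.g (nat_lit 2976) (.e (nat_lit 163875) (nat_lit 3) (.e (nat_lit 204864) (nat_lit 27) (.e (nat_lit 344133) (nat_lit 26) (.e (nat_lit 557105) (nat_lit 14) (.e (nat_lit 180252) (nat_lit 10) (.e (nat_lit 573474) (nat_lit 12) (.e (nat_lit 57345) (nat_lit 0) (.e (nat_lit 5590) (nat_lit 310) .nil)))))))) (.g (nat_lit 4) .nil .nil))) 
(.lf (nat_lit 251753) (.g (nat_lit 2969) (.e (nat_lit 163879) (nat_lit 4) (.e (nat_lit 213032) (nat_lit 11) (.e (nat_lit 24656) (nat_lit 13) (.e (nat_lit 393271) (nat_lit 23) (.e (nat_lit 426112) (nat_lit 1) .nil))))) .nil)))) (.nd (nat_lit 5) (.nd (nat_lit 6) 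
(.lf (nat_lit 251673) (.g (nat_lit 2745) (.e (nat_lit 163875) (nat_lit 3) (.e (nat_lit 204863) (nat_lit 27) (.e (nat_lit 344133) (nat_lit 26) (.e (nat_lit 557105) (nat_lit 14) (.e (nat_lit 180252) (nat_lit 10) (.e (nat_lit 573474) (nat_lit 12) (.e (nat_lit 57344) (nat_lit 0) (.e (nat_lit 5593) (nat_lit 310) .nil)))))))) (.g (nat_lit 4) .nil .nil))) 
(.lf (nat_lit 251737) (.g (nat_lit 2076) (.e (nat_lit 163879) (nat_lit 4) (.e (nat_lit 213019) (nat_lit 9) (.e (nat_lit 284) (nat_lit 21) (.e (nat_lit 336213) (nat_lit 13) (.e (nat_lit 393281) (nat_lit 23) .nil))))) .nil))) (.nd (nat_lit 6) 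
(.lf (nat_lit 251705) (.g (nat_lit 1876) (.e (nat_lit 163877) (nat_lit 4) (.e (nat_lit 213032) (nat_lit 11) (.e (nat_lit 24659) (nat_lit 13) (.e (nat_lit 393281) (nat_lit 23) (.e (nat_lit 426098) (nat_lit 1) .nil))))) .nil)) 
(.lf (nat_lit 251769) (.g (nat_lit 2282) (.e (nat_lit 163884) (nat_lit 5) (.e (nat_lit 221190) (nat_lit 11) (.e (nat_lit 336088) (nat_lit 9) (.e (nat_lit 336443) (nat_lit 32) (.e (nat_lit 466971) (nat_lit 21) (.e (nat_lit 164325) (nat_lit 230) .nil)))))) (.g (nat_lit 4) .nil .nil))))))) (.nd (nat_lit 3) (.nd (nat_lit 4) (.nd (nat_lit 5) (.nd (nat_lit 6) 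
(.lf (nat_lit 251653) (.g (nat_lit 2847) (.e (nat_lit 163875) (nat_lit 3) (.e (nat_lit 204863) (nat_lit 27) (.e (nat_lit 344129) (nat_lit 26) (.e (nat_lit 557104) (nat_lit 14) (.e (nat_lit 180252) (nat_lit 10) (.e (nat_lit 573475) (nat_lit 12) (.e (nat_lit 57345) (nat_lit 0) (.e (nat_lit 5593) (nat_lit 310) .nil)))))))) (.g (nat_lit 4) .nil .nil))) 
(.lf (nat_lit 251717) (.g (nat_lit 1461) (.e (nat_lit 163878) (nat_lit 4) (.e (nat_lit 213000) (nat_lit 9) (.e (nat_lit 284) (nat_lit 21) (.e (nat_lit 336223) (nat_lit 13) (.e (nat_lit 393281) (nat_lit 23) .nil))))) .nil))) (.nd (nat_lit 6) 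
(.lf (nat_lit 251685) (.g (nat_lit 3944) (.e (nat_lit 163875) (nat_lit 3) (.e (nat_lit 204864) (nat_lit 27) (.e (nat_lit 344132) (nat_lit 26) (.e (nat_lit 557105) (nat_lit 14) (.e (nat_lit 180252) (nat_lit 10) (.e (nat_lit 573474) (nat_lit 12) (.e (nat_lit 57348) (nat_lit 0) (.e (nat_lit 5590) (nat_lit 310) .nil)))))))) (.g (nat_lit 5) .nil .nil))) 
(.lf (nat_lit 251749) (.g (nat_lit 2988) (.e (nat_lit 163879) (nat_lit 4) (.e (nat_lit 213032) (nat_lit 11) (.e (nat_lit 24626) (nat_lit 9) (.e (nat_lit 336443) (nat_lit 32) (.e (nat_lit 466969) (nat_lit 21) (.e (nat_lit 164325) (nat_lit 230) .nil)))))) (.g (nat_lit 4) .nil .nil))))) (.nd (nat_lit 5) (.nd (nat_lit 6) 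
(.lf (nat_lit 251669) (.g (nat_lit 3009) (.e (nat_lit 163875) (nat_lit 3) (.e (nat_lit 204863) (nat_lit 27) (.e (nat_lit 344132) (nat_lit 26) (.e (nat_lit 557105) (nat_lit 14) (.e (nat_lit 180252) (nat_lit 10) (.e (nat_lit 573475) (nat_lit 12) (.e (nat_lit 57348) (nat_lit 0) (.e (nat_lit 5593) (nat_lit 310) .nil)))))))) (.g (nat_lit 5) .nil .nil))) 
(.lf (nat_lit 251733) (.g (nat_lit 1487) (.e (nat_lit 163878) (nat_lit 4) (.e (nat_lit 213032) (nat_lit 11) (.e (nat_lit 24659) (nat_lit 13) (.e (nat_lit 393281) (nat_lit 23) .nil)))) .nil))) (.nd (nat_lit 6) 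
(.lf (nat_lit 251701) (.g (nat_lit 1020) (.e (nat_lit 163877) (nat_lit 4) (.e (nat_lit 213032) (nat_lit 11) (.e (nat_lit 24629) (nat_lit 9) .nil))) .nil)) 
(.lf (nat_lit 251765) (.g (nat_lit 2809) (.e (nat_lit 163884) (nat_lit 5) (.e (nat_lit 221190) (nat_lit 11) (.e (nat_lit 336088) (nat_lit 9) (.e (nat_lit 336443) (nat_lit 32) (.e (nat_lit 466969) (nat_lit 21) (.e (nat_lit 164327) (nat_lit 230) .nil)))))) (.g (nat_lit 5) .nil .nil)))))) (.nd (nat_lit 4) (.nd (nat_lit 5) (.nd (nat_lit 6) 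
(.lf (nat_lit 251661) (.g (nat_lit 2674) (.e (nat_lit 163875) (nat_lit 3) (.e (nat_lit 204863) (nat_lit 27) (.e (nat_lit 344131) (nat_lit 26) (.e (nat_lit 557105) (nat_lit 14) (.e (nat_lit 180252) (nat_lit 10) (.e (nat_lit 573474) (nat_lit 12) (.e (nat_lit 57345) (nat_lit 0) (.e (nat_lit 5590) (nat_lit 310) .nil)))))))) (.g (nat_lit 4) .nil .nil))) 
(.lf (nat_lit 251725) (.g (nat_lit 1222) (.e (nat_lit 163878) (nat_lit 4) (.e (nat_lit 213032) (nat_lit 11) (.e (nat_lit 24624) (nat_lit 9) .nil))) .nil))) (.nd (nat_lit 6) 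
(.lf (nat_lit 251693) (.g (nat_lit 616) (.e (nat_lit 163875) (nat_lit 3) (.e (nat_lit 204880) (nat_lit 32) (.e (nat_lit 385096) (nat_lit 49) .nil))) .nil)) 
(.lf (nat_lit 251757) (.g (nat_lit 509) (.e (nat_lit 163881) (nat_lit 4) (.e (nat_lit 213032) (nat_lit 11) (.e (nat_lit 24629) (nat_lit 9) .nil))) .nil)))) (.nd (nat_lit 5) (.nd (nat_lit 6) 
(.lf (nat_lit 251677) (.g (nat_lit 3111) (.e (nat_lit 163875) (nat_lit 3) (.e (nat_lit 204863) (nat_lit 27) (.e (nat_lit 344133) (nat_lit 26) (.e (nat_lit 557105) (nat_lit 14) (.e (nat_lit 180252) (nat_lit 10) (.e (nat_lit 573474) (nat_lit 12) (.e (nat_lit 57349) (nat_lit 0) (.e (nat_lit 5590) (nat_lit 310) .nil)))))))) (.g (nat_lit 4) .nil .nil))) 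
(.lf (nat_lit 251741) (.g (nat_lit 2432) (.e (nat_lit 163879) (nat_lit 4) (.e (nat_lit 213030) (nat_lit 11) (.e (nat_lit 24625) (nat_lit 9) (.e (nat_lit 336426) (nat_lit 29) (.e (nat_lit 442421) (nat_lit 21) .nil))))) .nil))) (.nd (nat_lit 6) 
(.lf (nat_lit 251709) (.g (nat_lit 1409) (.e (nat_lit 163877) (nat_lit 4) (.e (nat_lit 213032) (nat_lit 11) (.e (nat_lit 24659) (nat_lit 13) (.e (nat_lit 393282) (nat_lit 24) .nil)))) .nil)) 
(.lf (nat_lit 251773) (.g (nat_lit 2262) (.e (nat_lit 163884) (nat_lit 5) (.e (nat_lit 221190) (nat_lit 11) (.e (nat_lit 336213) (nat_lit 13) (.e (nat_lit 393289) (nat_lit 25) (.e (nat_lit 458774) (nat_lit 18) .nil))))) .nil))))))) (.nd (nat_lit 2) (.nd (nat_lit 3) (.nd (nat_lit 4) (.nd (nat_lit 5) (.nd (nat_lit 6) 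
(.lf (nat_lit 251651) (.g (nat_lit 2729) (.e (nat_lit 163875) (nat_lit 3) (.e (nat_lit 204863) (nat_lit 27) (.e (nat_lit 344129) (nat_lit 26) (.e (nat_lit 557104) (nat_lit 14) (.e (nat_lit 180252) (nat_lit 10) (.e (nat_lit 573474) (nat_lit 12) (.e (nat_lit 65280) (nat_lit 0) (.e (nat_lit 5587) (nat_lit 310) .nil)))))))) (.g (nat_lit 4) .nil .nil))) 
(.lf (nat_lit 251715) (.g (nat_lit 3178) (.e (nat_lit 163878) (nat_lit 4) (.e (nat_lit 220928) (nat_lit 4) (.e (nat_lit 65630) (nat_lit 14) (.e (nat_lit 401459) (nat_lit 13) (.e (nat_lit 483364) (nat_lit 18) (.e (nat_lit 65280) (nat_lit 231) .nil)))))) (.g (nat_lit 5) .nil .nil)))) (.nd (nat_lit 6) 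
(.lf (nat_lit 251683) (.g (nat_lit 4338) (.e (nat_lit 163875) (nat_lit 3) (.e (nat_lit 204864) (nat_lit 27) (.e (nat_lit 344132) (nat_lit 26) (.e (nat_lit 557105) (nat_lit 14) (.e (nat_lit 180252) (nat_lit 10) (.e (nat_lit 573474) (nat_lit 12) (.e (nat_lit 57347) (nat_lit 0) (.e (nat_lit 5590) (nat_lit 310) .nil)))))))) (.g (nat_lit 5) .nil .nil))) 
(.lf (nat_lit 251747) (.g (nat_lit 2674) (.e (nat_lit 163879) (nat_lit 4) (.e (nat_lit 213032) (nat_lit 11) (.e (nat_lit 24624) (nat_lit 9) (.e (nat_lit 336443) (nat_lit 32) (.e (nat_lit 466969) (nat_lit 21) .nil))))) .nil)))) (.nd (nat_lit 5) (.nd (nat_lit 6) 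
(.lf (nat_lit 251667) (.g (nat_lit 4153) (.e (nat_lit 163875) (nat_lit 3) (.e (nat_lit 204863) (nat_lit 27) (.e (nat_lit 344132) (nat_lit 26) (.e (nat_lit 557105) (nat_lit 14) (.e (nat_lit 180252) (nat_lit 10) (.e (nat_lit 573474) (nat_lit 12) (.e (nat_lit 57348) (nat_lit 0) (.e (nat_lit 5590) (nat_lit 310) .nil)))))))) (.g (nat_lit 5) .nil .nil))) 
(.lf (nat_lit 251731) (.g (nat_lit 1811) (.e (nat_lit 163878) (nat_lit 4) (.e (nat_lit 213032) (nat_lit 11) (.e (nat_lit 24658) (nat_lit 13) (.e (nat_lit 393281) (nat_lit 23) (.e (nat_lit 426099) (nat_lit 1) .nil))))) .nil))) (.nd (nat_lit 6) 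
(.lf (nat_lit 251699) (.g (nat_lit 2614) (.e (nat_lit 163877) (nat_lit 4) (.e (nat_lit 213032) (nat_lit 11) (.e (nat_lit 24626) (nat_lit 9) (.e (nat_lit 336443) (nat_lit 32) (.e (nat_lit 466969) (nat_lit 21) .nil))))) .nil)) 
(.lf (nat_lit 251763) (.g (nat_lit 1957) (.e (nat_lit 163883) (nat_lit 5) (.e (nat_lit 221194) (nat_lit 11) (.e (nat_lit 336223) (nat_lit 13) (.e (nat_lit 393281) (nat_lit 23) .nil)))) .nil))))) (.nd (nat_lit 4) (.nd (nat_lit 5) (.nd (nat_lit 6) 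
(.lf (nat_lit 251659) (.g (nat_lit 2966) (.e (nat_lit 163875) (nat_lit 3) (.e (nat_lit 204863) (nat_lit 27) (.e (nat_lit 344131) (nat_lit 26) (.e (nat_lit 557103) (nat_lit 14) (.e (nat_lit 180250) (nat_lit 10) (.e (nat_lit 573474) (nat_lit 12) (.e (nat_lit 57348) (nat_lit 0) (.e (nat_lit 5593) (nat_lit 310) .nil)))))))) (.g (nat_lit 4) .nil .nil))) 
(.lf (nat_lit 251723) (.g (nat_lit 1447) (.e (nat_lit 163878) (nat_lit 4) (.e (nat_lit 213032) (nat_lit 11) (.e (nat_lit 24608) (nat_lit 3) .nil))) .nil))) (.nd (nat_lit 6) 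
(.lf (nat_lit 251691) (.g (nat_lit 3016) (.e (nat_lit 163875) (nat_lit 3) (.e (nat_lit 204864) (nat_lit 27) (.e (nat_lit 344133) (nat_lit 26) (.e (nat_lit 557105) (nat_lit 14) (.e (nat_lit 180252) (nat_lit 10) (.e (nat_lit 573475) (nat_lit 12) (.e (nat_lit 57344) (nat_lit 0) (.e (nat_lit 5589) (nat_lit 310) .nil)))))))) (.g (nat_lit 4) .nil .nil))) 
(.lf (nat_lit 251755) (.g (nat_lit 1900) (.e (nat_lit 163880) (nat_lit 4) (.e (nat_lit 213030) (nat_lit 11) (.e (nat_lit 24654) (nat_lit 13) (.e (nat_lit 393281) (nat_lit 23) (.e (nat_lit 426108) (nat_lit 1) .nil))))) .nil)))) (.nd (nat_lit 5) (.nd (nat_lit 6) 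
(.lf (nat_lit 251675) (.g (nat_lit 4529) (.e (nat_lit 163875) (nat_lit 3) (.e (nat_lit 204863) (nat_lit 27) (.e (nat_lit 344133) (nat_lit 26) (.e (nat_lit 557105) (nat_lit 14) (.e (nat_lit 180252) (nat_lit 10) (.e (nat_lit 573474) (nat_lit 12) (.e (nat_lit 57347) (nat_lit 0) (.e (nat_lit 5593) (nat_lit 310) .nil)))))))) (.g (nat_lit 5) .nil .nil))) 
(.lf (nat_lit 251739) (.g (nat_lit 749) (.e (nat_lit 163879) (nat_lit 4) (.e (nat_lit 213030) (nat_lit 11) (.e (nat_lit 24623) (nat_lit 9) .nil))) .nil))) (.nd (nat_lit 6) 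
(.lf (nat_lit 251707) (.g (nat_lit 1922) (.e (nat_lit 163877) (nat_lit 4) (.e (nat_lit 213032) (nat_lit 11) (.e (nat_lit 24659) (nat_lit 13) (.e (nat_lit 393281) (nat_lit 23) (.e (nat_lit 426100) (nat_lit 1) .nil))))) .nil)) 
(.lf (nat_lit 251771) (.g (nat_lit 1680) (.e (nat_lit 163884) (nat_lit 5) (.e (nat_lit 221190) (nat_lit 11) (.e (nat_lit 336213) (nat_lit 13) (.e (nat_lit 393281) (nat_lit 23) .nil)))) .nil)))))) (.nd (nat_lit 3) (.nd (nat_lit 4) (.nd (nat_lit 5) (.nd (nat_lit 6) 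
(.lf (nat_lit 251655) (.g (nat_lit 3029) (.e (nat_lit 163875) (nat_lit 3) (.e (nat_lit 204863) (nat_lit 27) (.e (nat_lit 344130) (nat_lit 26) (.e (nat_lit 557103) (nat_lit 14) (.e (nat_lit 180250) (nat_lit 10) (.e (nat_lit 573474) (nat_lit 12) (.e (nat_lit 57354) (nat_lit 0) (.e (nat_lit 5589) (nat_lit 310) .nil)))))))) (.g (nat_lit 4) .nil .nil))) 
(.lf (nat_lit 251719) (.g (nat_lit 1661) (.e (nat_lit 163878) (nat_lit 4) (.e (nat_lit 213013) (nat_lit 9) (.e (nat_lit 284) (nat_lit 21) (.e (nat_lit 336213) (nat_lit 13) (.e (nat_lit 393281) (nat_lit 23) .nil))))) .nil))) (.nd (nat_lit 6) 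
(.lf (nat_lit 251687) (.g (nat_lit 3007) (.e (nat_lit 163875) (nat_lit 3) (.e (nat_lit 204864) (nat_lit 27) (.e (nat_lit 344132) (nat_lit 26) (.e (nat_lit 557105) (nat_lit 14) (.e (nat_lit 180252) (nat_lit 10) (.e (nat_lit 573475) (nat_lit 12) (.e (nat_lit 57345) (nat_lit 0) (.e (nat_lit 5593) (nat_lit 310) .nil)))))))) (.g (nat_lit 5) .nil .nil))) 
(.lf (nat_lit 251751) (.g (nat_lit 2779) (.e (nat_lit 163879) (nat_lit 4) (.e (nat_lit 213032) (nat_lit 11) (.e (nat_lit 24626) (nat_lit 9) (.e (nat_lit 336443) (nat_lit 32) (.e (nat_lit 466971) (nat_lit 21) .nil))))) .nil)))) (.nd (nat_lit 5) (.nd (nat_lit 6) 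
(.lf (nat_lit 251671) (.g (nat_lit 3298) (.e (nat_lit 163875) (nat_lit 3) (.e (nat_lit 204863) (nat_lit 27) (.e (nat_lit 344133) (nat_lit 26) (.e (nat_lit 557103) (nat_lit 14) (.e (nat_lit 180250) (nat_lit 10) (.e (nat_lit 573474) (nat_lit 12) (.e (nat_lit 57354) (nat_lit 0) (.e (nat_lit 5589) (nat_lit 310) .nil)))))))) (.g (nat_lit 4) .nil .nil))) 
(.lf (nat_lit 251735) (.g (nat_lit 902) (.e (nat_lit 163878) (nat_lit 4) (.e (nat_lit 213032) (nat_lit 11) (.e (nat_lit 24660) (nat_lit 13) .nil))) .nil))) (.nd (nat_lit 6) 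
(.lf (nat_lit 251703) (.g (nat_lit 929) (.e (nat_lit 163877) (nat_lit 4) (.e (nat_lit 213032) (nat_lit 11) (.e (nat_lit 24659) (nat_lit 13) .nil))) .nil)) 
(.lf (nat_lit 251767) (.g (nat_lit 1846) (.e (nat_lit 163884) (nat_lit 5) (.e (nat_lit 221190) (nat_lit 11) (.e (nat_lit 336088) (nat_lit 9) (.e (nat_lit 336443) (nat_lit 32) (.e (nat_lit 466971) (nat_lit 21) .nil))))) .nil))))) (.nd (nat_lit 4) (.nd (nat_lit 5) (.nd (nat_lit 6) 
(.lf (nat_lit 251663) (.g (nat_lit 3723) (.e (nat_lit 163875) (nat_lit 3) (.e (nat_lit 204863) (nat_lit 27) (.e (nat_lit 344131) (nat_lit 26) (.e (nat_lit 557105) (nat_lit 14) (.e (nat_lit 180252) (nat_lit 10) (.e (nat_lit 573474) (nat_lit 12) (.e (nat_lit 57348) (nat_lit 0) (.e (nat_lit 5590) (nat_lit 310) .nil)))))))) (.g (nat_lit 5) .nil .nil))) 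
(.lf (nat_lit 251727) (.g (nat_lit 2284) (.e (nat_lit 163878) (nat_lit 4) (.e (nat_lit 213032) (nat_lit 11) (.e (nat_lit 24627) (nat_lit 9) (.e (nat_lit 336443) (nat_lit 32) (.e (nat_lit 466969) (nat_lit 21) .nil))))) .nil))) (.nd (nat_lit 6) 
(.lf (nat_lit 251695) (.g (nat_lit 1576) (.e (nat_lit 163875) (nat_lit 3) (.e (nat_lit 204883) (nat_lit 33) (.e (nat_lit 401459) (nat_lit 13) (.e (nat_lit 483337) (nat_lit 9) .nil)))) .nil)) 
(.lf (nat_lit 251759) (.g (nat_lit 1736) (.e (nat_lit 163883) (nat_lit 5) (.e (nat_lit 221194) (nat_lit 11) (.e (nat_lit 336012) (nat_lit 2) .nil))) .nil)))) (.nd (nat_lit 5) (.nd (nat_lit 6) 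
(.lf (nat_lit 251679) (.g (nat_lit 3274) (.e (nat_lit 163875) (nat_lit 3) (.e (nat_lit 204863) (nat_lit 27) (.e (nat_lit 344133) (nat_lit 26) (.e (nat_lit 557105) (nat_lit 14) (.e (nat_lit 180252) (nat_lit 10) (.e (nat_lit 573475) (nat_lit 12) (.e (nat_lit 57344) (nat_lit 0) (.e (nat_lit 5589) (nat_lit 310) .nil)))))))) (.g (nat_lit 4) .nil .nil))) 
(.lf (nat_lit 251743) (.g (nat_lit 2964) (.e (nat_lit 163879) (nat_lit 4) (.e (nat_lit 213030) (nat_lit 11) (.e (nat_lit 24626) (nat_lit 9) (.e (nat_lit 336443) (nat_lit 32) (.e (nat_lit 466969) (nat_lit 21) (.e (nat_lit 164325) (nat_lit 230) .nil)))))) (.g (nat_lit 5) .nil .nil)))) (.nd (nat_lit 6) 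
(.lf (nat_lit 251711) (.g (nat_lit 5308) (.e (nat_lit 163878) (nat_lit 4) (.e (nat_lit 220928) (nat_lit 3) (.e (nat_lit 57478) (nat_lit 28) (.e (nat_lit 557109) (nat_lit 15) (.e (nat_lit 188452) (nat_lit 23) (.e (nat_lit 204830) (nat_lit 18) (.e (nat_lit 65280) (nat_lit 231) .nil))))))) (.g (nat_lit 6) .nil .nil))) 
(.lf (nat_lit 251775) (.g (nat_lit 1457) (.e (nat_lit 163884) (nat_lit 5) (.e (nat_lit 221190) (nat_lit 11) (.e (nat_lit 336215) (nat_lit 13) (.e (nat_lit 393281) (nat_lit 23) .nil)))) .nil)))))))))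

noncomputable def tv3264 : DT := (.nd (nat_lit 0) (.nd (nat_lit 1) (.nd (nat_lit 2) (.nd (nat_lit 3) (.nd (nat_lit 4) (.nd (nat_lit 5) 
(.lf (nat_lit 251776) (.g (nat_lit 2117) (.e (nat_lit 163884) (nat_lit 5) (.e (nat_lit 221190) (nat_lit 11) (.e (nat_lit 336215) (nat_lit 13) (.e (nat_lit 393281) (nat_lit 23) (.e (nat_lit 426098) (nat_lit 1) (.e (nat_lit 164325) (nat_lit 230) .nil)))))) (.g (nat_lit 4) .nil .nil))) 
(.lf (nat_lit 251808) (.g (nat_lit 2071) (.e (nat_lit 163884) (nat_lit 5) (.e (nat_lit 221192) (nat_lit 11) (.e (nat_lit 336154) (nat_lit 9) (.e (nat_lit 336442) (nat_lit 32) (.e (nat_lit 466969) (nat_lit 21) (.e (nat_lit 164331) (nat_lit 230) .nil)))))) (.g (nat_lit 0) .nil .nil)))) (.nd (nat_lit 5) 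
(.lf (nat_lit 251792) (.g (nat_lit 1736) (.e (nat_lit 163884) (nat_lit 5) (.e (nat_lit 221192) (nat_lit 11) (.e (nat_lit 336119) (nat_lit 9) (.e (nat_lit 336442) (nat_lit 32) (.e (nat_lit 466969) (nat_lit 21) (.e (nat_lit 164330) (nat_lit 230) .nil)))))) (.g (nat_lit 0) .nil .nil))) 
(.lf (nat_lit 251824) (.g (nat_lit 2736) (.e (nat_lit 163884) (nat_lit 5) (.e (nat_lit 221193) (nat_lit 11) (.e (nat_lit 336076) (nat_lit 9) (.e (nat_lit 336443) (nat_lit 32) (.e (nat_lit 466972) (nat_lit 21) (.e (nat_lit 164329) (nat_lit 230) .nil)))))) (.g (nat_lit 5) .nil .nil))))) (.nd (nat_lit 4) (.nd (nat_lit 5) 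
(.lf (nat_lit 251784) (.g (nat_lit 1696) (.e (nat_lit 163884) (nat_lit 5) (.e (nat_lit 221192) (nat_lit 11) (.e (nat_lit 336118) (nat_lit 9) (.e (nat_lit 336442) (nat_lit 32) (.e (nat_lit 466969) (nat_lit 21) (.e (nat_lit 164330) (nat_lit 230) .nil)))))) (.g (nat_lit 0) .nil .nil))) 
(.lf (nat_lit 251816) (.g (nat_lit 2724) (.e (nat_lit 163884) (nat_lit 5) (.e (nat_lit 221193) (nat_lit 11) (.e (nat_lit 336076) (nat_lit 9) (.e (nat_lit 336443) (nat_lit 32) (.e (nat_lit 466969) (nat_lit 21) (.e (nat_lit 164330) (nat_lit 230) .nil)))))) (.g (nat_lit 5) .nil .nil)))) (.nd (nat_lit 5) 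
(.lf (nat_lit 251800) (.g (nat_lit 1772) (.e (nat_lit 163884) (nat_lit 5) (.e (nat_lit 221192) (nat_lit 11) (.e (nat_lit 336121) (nat_lit 9) (.e (nat_lit 336442) (nat_lit 32) (.e (nat_lit 466971) (nat_lit 21) (.e (nat_lit 164326) (nat_lit 230) .nil)))))) (.g (nat_lit 0) .nil .nil))) 
(.lf (nat_lit 251832) (.g (nat_lit 2740) (.e (nat_lit 163884) (nat_lit 5) (.e (nat_lit 221193) (nat_lit 11) (.e (nat_lit 336078) (nat_lit 9) (.e (nat_lit 336443) (nat_lit 32) (.e (nat_lit 466969) (nat_lit 21) (.e (nat_lit 164326) (nat_lit 230) .nil)))))) (.g (nat_lit 5) .nil .nil)))))) (.nd (nat_lit 3) (.nd (nat_lit 4) (.nd (nat_lit 5) 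
(.lf (nat_lit 251780) (.g (nat_lit 1590) (.e (nat_lit 163884) (nat_lit 5) (.e (nat_lit 221190) (nat_lit 11) (.e (nat_lit 336223) (nat_lit 13) (.e (nat_lit 393281) (nat_lit 23) (.e (nat_lit 426099) (nat_lit 1) (.e (nat_lit 164332) (nat_lit 230) .nil)))))) (.g (nat_lit 4) .nil .nil))) 
(.lf (nat_lit 251812) (.g (nat_lit 3143) (.e (nat_lit 163884) (nat_lit 5) (.e (nat_lit 221193) (nat_lit 11) (.e (nat_lit 336076) (nat_lit 9) (.e (nat_lit 336443) (nat_lit 32) (.e (nat_lit 466969) (nat_lit 21) (.e (nat_lit 164324) (nat_lit 230) .nil)))))) (.g (nat_lit 6) .nil .nil)))) (.nd (nat_lit 5) 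
(.lf (nat_lit 251796) (.g (nat_lit 1811) (.e (nat_lit 163884) (nat_lit 5) (.e (nat_lit 221192) (nat_lit 11) (.e (nat_lit 336121) (nat_lit 9) (.e (nat_lit 336442) (nat_lit 32) (.e (nat_lit 466969) (nat_lit 21) (.e (nat_lit 164325) (nat_lit 230) .nil)))))) (.g (nat_lit 0) .nil .nil))) 
(.lf (nat_lit 251828) (.g (nat_lit 2410) (.e (nat_lit 163884) (nat_lit 5) (.e (nat_lit 221193) (nat_lit 11) (.e (nat_lit 336078) (nat_lit 9) (.e (nat_lit 336443) (nat_lit 32) (.e (nat_lit 466968) (nat_lit 21) (.e (nat_lit 164332) (nat_lit 230) .nil)))))) (.g (nat_lit 4) .nil .nil))))) (.nd (nat_lit 4) (.nd (nat_lit 5) 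
(.lf (nat_lit 251788) (.g (nat_lit 1912) (.e (nat_lit 163884) (nat_lit 5) (.e (nat_lit 221192) (nat_lit 11) (.e (nat_lit 336119) (nat_lit 9) (.e (nat_lit 336442) (nat_lit 32) (.e (nat_lit 466969) (nat_lit 21) (.e (nat_lit 164324) (nat_lit 230) .nil)))))) (.g (nat_lit 0) .nil .nil))) 
(.lf (nat_lit 251820) (.g (nat_lit 3001) (.e (nat_lit 163884) (nat_lit 5) (.e (nat_lit 221193) (nat_lit 11) (.e (nat_lit 336076) (nat_lit 9) (.e (nat_lit 336443) (nat_lit 32) (.e (nat_lit 466971) (nat_lit 21) (.e (nat_lit 164324) (nat_lit 230) .nil)))))) (.g (nat_lit 6) .nil .nil)))) (.nd (nat_lit 5) 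
(.lf (nat_lit 251804) (.g (nat_lit 2306) (.e (nat_lit 163884) (nat_lit 5) (.e (nat_lit 221192) (nat_lit 11) (.e (nat_lit 336154) (nat_lit 9) (.e (nat_lit 336429) (nat_lit 29) (.e (nat_lit 442421) (nat_lit 21) (.e (nat_lit 164326) (nat_lit 230) .nil)))))) (.g (nat_lit 0) .nil .nil))) 
(.lf (nat_lit 251836) (.g (nat_lit 3397) (.e (nat_lit 163884) (nat_lit 5) (.e (nat_lit 221193) (nat_lit 11) (.e (nat_lit 336078) (nat_lit 9) (.e (nat_lit 336443) (nat_lit 32) (.e (nat_lit 466969) (nat_lit 21) (.e (nat_lit 164332) (nat_lit 230) .nil)))))) (.g (nat_lit 0) .nil .nil))))))) (.nd (nat_lit 2) (.nd (nat_lit 3) (.nd (nat_lit 4) (.nd (nat_lit 5) 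
(.lf (nat_lit 251778) (.g (nat_lit 2218) (.e (nat_lit 163884) (nat_lit 5) (.e (nat_lit 221190) (nat_lit 11) (.e (nat_lit 336223) (nat_lit 13) (.e (nat_lit 393281) (nat_lit 23) (.e (nat_lit 426098) (nat_lit 1) (.e (nat_lit 164325) (nat_lit 230) .nil)))))) (.g (nat_lit 5) .nil .nil))) 
(.lf (nat_lit 251810) (.g (nat_lit 2171) (.e (nat_lit 163884) (nat_lit 5) (.e (nat_lit 221193) (nat_lit 11) (.e (nat_lit 336076) (nat_lit 9) (.e (nat_lit 336443) (nat_lit 32) (.e (nat_lit 466968) (nat_lit 21) .nil))))) .nil))) (.nd (nat_lit 5) 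
(.lf (nat_lit 251794) (.g (nat_lit 1744) (.e (nat_lit 163884) (nat_lit 5) (.e (nat_lit 221192) (nat_lit 11) (.e (nat_lit 336119) (nat_lit 9) (.e (nat_lit 336442) (nat_lit 32) (.e (nat_lit 466971) (nat_lit 21) (.e (nat_lit 164325) (nat_lit 230) .nil)))))) (.g (nat_lit 6) .nil .nil))) 
(.lf (nat_lit 251826) (.g (nat_lit 3314) (.e (nat_lit 163884) (nat_lit 5) (.e (nat_lit 221193) (nat_lit 11) (.e (nat_lit 336076) (nat_lit 9) (.e (nat_lit 336443) (nat_lit 32) (.e (nat_lit 466972) (nat_lit 21) (.e (nat_lit 164331) (nat_lit 230) .nil)))))) (.g (nat_lit 6) .nil .nil))))) (.nd (nat_lit 4) (.nd (nat_lit 5) 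
(.lf (nat_lit 251786) (.g (nat_lit 1890) (.e (nat_lit 163884) (nat_lit 5) (.e (nat_lit 221192) (nat_lit 11) (.e (nat_lit 336118) (nat_lit 9) (.e (nat_lit 336442) (nat_lit 32) (.e (nat_lit 466971) (nat_lit 21) (.e (nat_lit 164324) (nat_lit 230) .nil)))))) (.g (nat_lit 0) .nil .nil))) 
(.lf (nat_lit 251818) (.g (nat_lit 3343) (.e (nat_lit 163884) (nat_lit 5) (.e (nat_lit 221193) (nat_lit 11) (.e (nat_lit 336076) (nat_lit 9) (.e (nat_lit 336443) (nat_lit 32) (.e (nat_lit 466969) (nat_lit 21) (.e (nat_lit 164332) (nat_lit 230) .nil)))))) (.g (nat_lit 0) .nil .nil)))) (.nd (nat_lit 5) 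
(.lf (nat_lit 251802) (.g (nat_lit 1840) (.e (nat_lit 163884) (nat_lit 5) (.e (nat_lit 221192) (nat_lit 11) (.e (nat_lit 336154) (nat_lit 9) (.e (nat_lit 336429) (nat_lit 29) (.e (nat_lit 442419) (nat_lit 21) (.e (nat_lit 164326) (nat_lit 230) .nil)))))) (.g (nat_lit 0) .nil .nil))) 
(.lf (nat_lit 251834) (.g (nat_lit 2781) (.e (nat_lit 163884) (nat_lit 5) (.e (nat_lit 221193) (nat_lit 11) (.e (nat_lit 336078) (nat_lit 9) (.e (nat_lit 336443) (nat_lit 32) (.e (nat_lit 466969) (nat_lit 21) (.e (nat_lit 164330) (nat_lit 230) .nil)))))) (.g (nat_lit 5) .nil .nil)))))) (.nd (nat_lit 3) (.nd (nat_lit 4) (.nd (nat_lit 5) 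
(.lf (nat_lit 251782) (.g (nat_lit 1873) (.e (nat_lit 163884) (nat_lit 5) (.e (nat_lit 221192) (nat_lit 11) (.e (nat_lit 336118) (nat_lit 9) (.e (nat_lit 336442) (nat_lit 32) (.e (nat_lit 466969) (nat_lit 21) (.e (nat_lit 164324) (nat_lit 230) .nil)))))) (.g (nat_lit 0) .nil .nil))) 
(.lf (nat_lit 251814) (.g (nat_lit 2745) (.e (nat_lit 163884) (nat_lit 5) (.e (nat_lit 221193) (nat_lit 11) (.e (nat_lit 336076) (nat_lit 9) (.e (nat_lit 336443) (nat_lit 32) (.e (nat_lit 466969) (nat_lit 21) (.e (nat_lit 164326) (nat_lit 230) .nil)))))) (.g (nat_lit 5) .nil .nil)))) (.nd (nat_lit 5) 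
(.lf (nat_lit 251798) (.g (nat_lit 2063) (.e (nat_lit 163884) (nat_lit 5) (.e (nat_lit 221192) (nat_lit 11) (.e (nat_lit 336121) (nat_lit 9) (.e (nat_lit 336442) (nat_lit 32) (.e (nat_lit 466969) (nat_lit 21) (.e (nat_lit 164331) (nat_lit 230) .nil)))))) (.g (nat_lit 0) .nil .nil))) 
(.lf (nat_lit 251830) (.g (nat_lit 3070) (.e (nat_lit 163884) (nat_lit 5) (.e (nat_lit 221193) (nat_lit 11) (.e (nat_lit 336078) (nat_lit 9) (.e (nat_lit 336443) (nat_lit 32) (.e (nat_lit 466969) (nat_lit 21) (.e (nat_lit 164324) (nat_lit 230) .nil)))))) (.g (nat_lit 6) .nil .nil))))) (.nd (nat_lit 4) (.nd (nat_lit 5) 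
(.lf (nat_lit 251790) (.g (nat_lit 1619) (.e (nat_lit 163884) (nat_lit 5) (.e (nat_lit 221192) (nat_lit 11) (.e (nat_lit 336119) (nat_lit 9) (.e (nat_lit 336442) (nat_lit 32) (.e (nat_lit 466969) (nat_lit 21) (.e (nat_lit 164326) (nat_lit 230) .nil)))))) (.g (nat_lit 0) .nil .nil))) 
(.lf (nat_lit 251822) (.g (nat_lit 2589) (.e (nat_lit 163884) (nat_lit 5) (.e (nat_lit 221193) (nat_lit 11) (.e (nat_lit 336076) (nat_lit 9) (.e (nat_lit 336443) (nat_lit 32) (.e (nat_lit 466971) (nat_lit 21) (.e (nat_lit 164326) (nat_lit 230) .nil)))))) (.g (nat_lit 5) .nil .nil)))) (.nd (nat_lit 5) 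
(.lf (nat_lit 251806) (.g (nat_lit 1818) (.e (nat_lit 163884) (nat_lit 5) (.e (nat_lit 221192) (nat_lit 11) (.e (nat_lit 336154) (nat_lit 9) (.e (nat_lit 336442) (nat_lit 32) (.e (nat_lit 466969) (nat_lit 21) (.e (nat_lit 164325) (nat_lit 230) .nil)))))) (.g (nat_lit 0) .nil .nil))) 
(.lf (nat_lit 251838) (.g (nat_lit 2911) (.e (nat_lit 163884) (nat_lit 5) (.e (nat_lit 221193) (nat_lit 11) (.e (nat_lit 336078) (nat_lit 9) (.e (nat_lit 336443) (nat_lit 32) (.e (nat_lit 466971) (nat_lit 21) (.e (nat_lit 164324) (nat_lit 230) .nil)))))) (.g (nat_lit 5) .nil .nil)))))))) (.nd (nat_lit 1) (.nd (nat_lit 2) (.nd (nat_lit 3) (.nd (nat_lit 4) (.nd (nat_lit 5) 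
(.lf (nat_lit 251777) (.g (nat_lit 2015) (.e (nat_lit 163884) (nat_lit 5) (.e (nat_lit 221190) (nat_lit 11) (.e (nat_lit 336215) (nat_lit 13) (.e (nat_lit 393281) (nat_lit 23) (.e (nat_lit 426098) (nat_lit 1) (.e (nat_lit 164327) (nat_lit 230) .nil)))))) (.g (nat_lit 4) .nil .nil))) 
(.lf (nat_lit 251809) (.g (nat_lit 2052) (.e (nat_lit 163884) (nat_lit 5) (.e (nat_lit 221192) (nat_lit 11) (.e (nat_lit 336154) (nat_lit 9) (.e (nat_lit 336442) (nat_lit 32) (.e (nat_lit 466972) (nat_lit 21) (.e (nat_lit 164330) (nat_lit 230) .nil)))))) (.g (nat_lit 0) .nil .nil)))) (.nd (nat_lit 5) 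
(.lf (nat_lit 251793) (.g (nat_lit 2050) (.e (nat_lit 163884) (nat_lit 5) (.e (nat_lit 221192) (nat_lit 11) (.e (nat_lit 336119) (nat_lit 9) (.e (nat_lit 336442) (nat_lit 32) (.e (nat_lit 466969) (nat_lit 21) (.e (nat_lit 164331) (nat_lit 230) .nil)))))) (.g (nat_lit 0) .nil .nil))) 
(.lf (nat_lit 251825) (.g (nat_lit 2987) (.e (nat_lit 163884) (nat_lit 5) (.e (nat_lit 221193) (nat_lit 11) (.e (nat_lit 336076) (nat_lit 9) (.e (nat_lit 336443) (nat_lit 32) (.e (nat_lit 466972) (nat_lit 21) (.e (nat_lit 164330) (nat_lit 230) .nil)))))) (.g (nat_lit 5) .nil .nil))))) (.nd (nat_lit 4) (.nd (nat_lit 5) 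
(.lf (nat_lit 251785) (.g (nat_lit 2011) (.e (nat_lit 163884) (nat_lit 5) (.e (nat_lit 221192) (nat_lit 11) (.e (nat_lit 336118) (nat_lit 9) (.e (nat_lit 336442) (nat_lit 32) (.e (nat_lit 466969) (nat_lit 21) (.e (nat_lit 164331) (nat_lit 230) .nil)))))) (.g (nat_lit 0) .nil .nil))) 
(.lf (nat_lit 251817) (.g (nat_lit 3179) (.e (nat_lit 163884) (nat_lit 5) (.e (nat_lit 221193) (nat_lit 11) (.e (nat_lit 336076) (nat_lit 9) (.e (nat_lit 336443) (nat_lit 32) (.e (nat_lit 466969) (nat_lit 21) (.e (nat_lit 164331) (nat_lit 230) .nil)))))) (.g (nat_lit 6) .nil .nil)))) (.nd (nat_lit 5) 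
(.lf (nat_lit 251801) (.g (nat_lit 2012) (.e (nat_lit 163884) (nat_lit 5) (.e (nat_lit 221192) (nat_lit 11) (.e (nat_lit 336121) (nat_lit 9) (.e (nat_lit 336442) (nat_lit 32) (.e (nat_lit 466972) (nat_lit 21) (.e (nat_lit 164330) (nat_lit 230) .nil)))))) (.g (nat_lit 0) .nil .nil))) 
(.lf (nat_lit 251833) (.g (nat_lit 2731) (.e (nat_lit 163884) (nat_lit 5) (.e (nat_lit 221193) (nat_lit 11) (.e (nat_lit 336078) (nat_lit 9) (.e (nat_lit 336443) (nat_lit 32) (.e (nat_lit 466969) (nat_lit 21) (.e (nat_lit 164329) (nat_lit 230) .nil)))))) (.g (nat_lit 5) .nil .nil)))))) (.nd (nat_lit 3) (.nd (nat_lit 4) (.nd (nat_lit 5) 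
(.lf (nat_lit 251781) (.g (nat_lit 1493) (.e (nat_lit 163884) (nat_lit 5) (.e (nat_lit 221190) (nat_lit 11) (.e (nat_lit 336223) (nat_lit 13) (.e (nat_lit 393281) (nat_lit 23) (.e (nat_lit 426108) (nat_lit 1) .nil))))) .nil)) 
(.lf (nat_lit 251813) (.g (nat_lit 3133) (.e (nat_lit 163884) (nat_lit 5) (.e (nat_lit 221193) (nat_lit 11) (.e (nat_lit 336076) (nat_lit 9) (.e (nat_lit 336443) (nat_lit 32) (.e (nat_lit 466969) (nat_lit 21) (.e (nat_lit 164325) (nat_lit 230) .nil)))))) (.g (nat_lit 6) .nil .nil)))) (.nd (nat_lit 5) 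
(.lf (nat_lit 251797) (.g (nat_lit 1749) (.e (nat_lit 163884) (nat_lit 5) (.e (nat_lit 221192) (nat_lit 11) (.e (nat_lit 336121) (nat_lit 9) (.e (nat_lit 336442) (nat_lit 32) (.e (nat_lit 466969) (nat_lit 21) (.e (nat_lit 164330) (nat_lit 230) .nil)))))) (.g (nat_lit 0) .nil .nil))) 
(.lf (nat_lit 251829) (.g (nat_lit 2178) (.e (nat_lit 163884) (nat_lit 5) (.e (nat_lit 221193) (nat_lit 11) (.e (nat_lit 336078) (nat_lit 9) (.e (nat_lit 336443) (nat_lit 32) (.e (nat_lit 466969) (nat_lit 21) (.e (nat_lit 164322) (nat_lit 230) .nil)))))) (.g (nat_lit 4) .nil .nil))))) (.nd (nat_lit 4) (.nd (nat_lit 5) 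
(.lf (nat_lit 251789) (.g (nat_lit 1798) (.e (nat_lit 163884) (nat_lit 5) (.e (nat_lit 221192) (nat_lit 11) (.e (nat_lit 336119) (nat_lit 9) (.e (nat_lit 336442) (nat_lit 32) (.e (nat_lit 466969) (nat_lit 21) (.e (nat_lit 164325) (nat_lit 230) .nil)))))) (.g (nat_lit 0) .nil .nil))) 
(.lf (nat_lit 251821) (.g (nat_lit 2963) (.e (nat_lit 163884) (nat_lit 5) (.e (nat_lit 221193) (nat_lit 11) (.e (nat_lit 336076) (nat_lit 9) (.e (nat_lit 336443) (nat_lit 32) (.e (nat_lit 466971) (nat_lit 21) (.e (nat_lit 164325) (nat_lit 230) .nil)))))) (.g (nat_lit 6) .nil .nil)))) (.nd (nat_lit 5) 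
(.lf (nat_lit 251805) (.g (nat_lit 1933) (.e (nat_lit 163884) (nat_lit 5) (.e (nat_lit 221192) (nat_lit 11) (.e (nat_lit 336154) (nat_lit 9) (.e (nat_lit 336442) (nat_lit 32) (.e (nat_lit 466969) (nat_lit 21) (.e (nat_lit 164324) (nat_lit 230) .nil)))))) (.g (nat_lit 0) .nil .nil))) 
(.lf (nat_lit 251837) (.g (nat_lit 2912) (.e (nat_lit 163884) (nat_lit 5) (.e (nat_lit 221193) (nat_lit 11) (.e (nat_lit 336078) (nat_lit 9) (.e (nat_lit 336443) (nat_lit 32) (.e (nat_lit 466971) (nat_lit 21) (.e (nat_lit 164322) (nat_lit 230) .nil)))))) (.g (nat_lit 5) .nil .nil))))))) (.nd (nat_lit 2) (.nd (nat_lit 3) (.nd (nat_lit 4) (.nd (nat_lit 5) 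
(.lf (nat_lit 251779) (.g (nat_lit 2110) (.e (nat_lit 163884) (nat_lit 5) (.e (nat_lit 221190) (nat_lit 11) (.e (nat_lit 336223) (nat_lit 13) (.e (nat_lit 393281) (nat_lit 23) (.e (nat_lit 426098) (nat_lit 1) (.e (nat_lit 164327) (nat_lit 230) .nil)))))) (.g (nat_lit 5) .nil .nil))) 
(.lf (nat_lit 251811) (.g (nat_lit 2170) (.e (nat_lit 163884) (nat_lit 5) (.e (nat_lit 221193) (nat_lit 11) (.e (nat_lit 336076) (nat_lit 9) (.e (nat_lit 336443) (nat_lit 32) (.e (nat_lit 466969) (nat_lit 21) (.e (nat_lit 164322) (nat_lit 230) .nil)))))) (.g (nat_lit 4) .nil .nil)))) (.nd (nat_lit 5) 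
(.lf (nat_lit 251795) (.g (nat_lit 1927) (.e (nat_lit 163884) (nat_lit 5) (.e (nat_lit 221192) (nat_lit 11) (.e (nat_lit 336121) (nat_lit 9) (.e (nat_lit 336442) (nat_lit 32) (.e (nat_lit 466969) (nat_lit 21) (.e (nat_lit 164324) (nat_lit 230) .nil)))))) (.g (nat_lit 0) .nil .nil))) 
(.lf (nat_lit 251827) (.g (nat_lit 3437) (.e (nat_lit 163884) (nat_lit 5) (.e (nat_lit 221193) (nat_lit 11) (.e (nat_lit 336076) (nat_lit 9) (.e (nat_lit 336443) (nat_lit 32) (.e (nat_lit 466972) (nat_lit 21) (.e (nat_lit 164332) (nat_lit 230) .nil)))))) (.g (nat_lit 0) .nil .nil))))) (.nd (nat_lit 4) (.nd (nat_lit 5) 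
(.lf (nat_lit 251787) (.g (nat_lit 1962) (.e (nat_lit 163884) (nat_lit 5) (.e (nat_lit 221192) (nat_lit 11) (.e (nat_lit 336118) (nat_lit 9) (.e (nat_lit 336442) (nat_lit 32) (.e (nat_lit 466972) (nat_lit 21) (.e (nat_lit 164330) (nat_lit 230) .nil)))))) (.g (nat_lit 0) .nil .nil))) 
(.lf (nat_lit 251819) (.g (nat_lit 2854) (.e (nat_lit 163884) (nat_lit 5) (.e (nat_lit 221193) (nat_lit 11) (.e (nat_lit 336076) (nat_lit 9) (.e (nat_lit 336443) (nat_lit 32) (.e (nat_lit 466971) (nat_lit 21) (.e (nat_lit 164322) (nat_lit 230) .nil)))))) (.g (nat_lit 6) .nil .nil)))) (.nd (nat_lit 5) 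
(.lf (nat_lit 251803) (.g (nat_lit 2295) (.e (nat_lit 163884) (nat_lit 5) (.e (nat_lit 221192) (nat_lit 11) (.e (nat_lit 336154) (nat_lit 9) (.e (nat_lit 336429) (nat_lit 29) (.e (nat_lit 442421) (nat_lit 21) (.e (nat_lit 164324) (nat_lit 230) .nil)))))) (.g (nat_lit 0) .nil .nil))) 
(.lf (nat_lit 251835) (.g (nat_lit 3081) (.e (nat_lit 163884) (nat_lit 5) (.e (nat_lit 221193) (nat_lit 11) (.e (nat_lit 336078) (nat_lit 9) (.e (nat_lit 336443) (nat_lit 32) (.e (nat_lit 466969) (nat_lit 21) (.e (nat_lit 164331) (nat_lit 230) .nil)))))) (.g (nat_lit 5) .nil .nil)))))) (.nd (nat_lit 3) (.nd (nat_lit 4) (.nd (nat_lit 5) 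
(.lf (nat_lit 251783) (.g (nat_lit 1760) (.e (nat_lit 163884) (nat_lit 5) (.e (nat_lit 221192) (nat_lit 11) (.e (nat_lit 336118) (nat_lit 9) (.e (nat_lit 336442) (nat_lit 32) (.e (nat_lit 466969) (nat_lit 21) (.e (nat_lit 164325) (nat_lit 230) .nil)))))) (.g (nat_lit 0) .nil .nil))) 
(.lf (nat_lit 251815) (.g (nat_lit 2723) (.e (nat_lit 163884) (nat_lit 5) (.e (nat_lit 221193) (nat_lit 11) (.e (nat_lit 336076) (nat_lit 9) (.e (nat_lit 336443) (nat_lit 32) (.e (nat_lit 466969) (nat_lit 21) (.e (nat_lit 164329) (nat_lit 230) .nil)))))) (.g (nat_lit 5) .nil .nil)))) (.nd (nat_lit 5) 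
(.lf (nat_lit 251799) (.g (nat_lit 1956) (.e (nat_lit 163884) (nat_lit 5) (.e (nat_lit 221192) (nat_lit 11) (.e (nat_lit 336121) (nat_lit 9) (.e (nat_lit 336442) (nat_lit 32) (.e (nat_lit 466971) (nat_lit 21) (.e (nat_lit 164324) (nat_lit 230) .nil)))))) (.g (nat_lit 0) .nil .nil))) 
(.lf (nat_lit 251831) (.g (nat_lit 3189) (.e (nat_lit 163884) (nat_lit 5) (.e (nat_lit 221193) (nat_lit 11) (.e (nat_lit 336078) (nat_lit 9) (.e (nat_lit 336443) (nat_lit 32) (.e (nat_lit 466969) (nat_lit 21) (.e (nat_lit 164325) (nat_lit 230) .nil)))))) (.g (nat_lit 6) .nil .nil))))) (.nd (nat_lit 4) (.nd (nat_lit 5) 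
(.lf (nat_lit 251791) (.g (nat_lit 1571) (.e (nat_lit 163884) (nat_lit 5) (.e (nat_lit 221192) (nat_lit 11) (.e (nat_lit 336119) (nat_lit 9) (.e (nat_lit 336442) (nat_lit 32) (.e (nat_lit 466969) (nat_lit 21) (.e (nat_lit 164329) (nat_lit 230) .nil)))))) (.g (nat_lit 0) .nil .nil))) 
(.lf (nat_lit 251823) (.g (nat_lit 3101) (.e (nat_lit 163884) (nat_lit 5) (.e (nat_lit 221193) (nat_lit 11) (.e (nat_lit 336076) (nat_lit 9) (.e (nat_lit 336443) (nat_lit 32) (.e (nat_lit 466971) (nat_lit 21) (.e (nat_lit 164332) (nat_lit 230) .nil)))))) (.g (nat_lit 6) .nil .nil)))) (.nd (nat_lit 5) 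
(.lf (nat_lit 251807) (.g (nat_lit 1756) (.e (nat_lit 163884) (nat_lit 5) (.e (nat_lit 221192) (nat_lit 11) (.e (nat_lit 336154) (nat_lit 9) (.e (nat_lit 336442) (nat_lit 32) (.e (nat_lit 466969) (nat_lit 21) (.e (nat_lit 164330) (nat_lit 230) .nil)))))) (.g (nat_lit 0) .nil .nil))) 
(.lf (nat_lit 251839) (.g (nat_lit 3007) (.e (nat_lit 163884) (nat_lit 5) (.e (nat_lit 221193) (nat_lit 11) (.e (nat_lit 336078) (nat_lit 9) (.e (nat_lit 336443) (nat_lit 32) (.e (nat_lit 466971) (nat_lit 21) (.e (nat_lit 164325) (nat_lit 230) .nil)))))) (.g (nat_lit 6) .nil .nil)))))))))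

noncomputable def tv3265 : DT := (.nd (nat_lit 0) (.nd (nat_lit 1) (.nd (nat_lit 2) (.nd (nat_lit 3) (.nd (nat_lit 4) (.nd (nat_lit 5) 
(.lf (nat_lit 251840) (.g (nat_lit 2598) (.e (nat_lit 163884) (nat_lit 5) (.e (nat_lit 221193) (nat_lit 11) (.e (nat_lit 336078) (nat_lit 9) (.e (nat_lit 336443) (nat_lit 32) (.e (nat_lit 466971) (nat_lit 21) (.e (nat_lit 164326) (nat_lit 230) .nil)))))) (.g (nat_lit 5) .nil .nil))) 
(.lf (nat_lit 251872) (.g (nat_lit 2555) (.e (nat_lit 163884) (nat_lit 5) (.e (nat_lit 221193) (nat_lit 11) (.e (nat_lit 336086) (nat_lit 9) (.e (nat_lit 336443) (nat_lit 32) (.e (nat_lit 466971) (nat_lit 21) (.e (nat_lit 164326) (nat_lit 230) .nil)))))) (.g (nat_lit 5) .nil .nil)))) (.nd (nat_lit 5) 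
(.lf (nat_lit 251856) (.g (nat_lit 3366) (.e (nat_lit 163884) (nat_lit 5) (.e (nat_lit 221193) (nat_lit 11) (.e (nat_lit 336086) (nat_lit 9) (.e (nat_lit 336430) (nat_lit 29) (.e (nat_lit 442419) (nat_lit 21) (.e (nat_lit 164331) (nat_lit 230) .nil)))))) (.g (nat_lit 6) .nil .nil))) 
(.lf (nat_lit 251888) (.g (nat_lit 3278) (.e (nat_lit 163884) (nat_lit 5) (.e (nat_lit 221193) (nat_lit 11) (.e (nat_lit 336087) (nat_lit 9) (.e (nat_lit 336443) (nat_lit 32) (.e (nat_lit 466969) (nat_lit 21) (.e (nat_lit 164332) (nat_lit 230) .nil)))))) (.g (nat_lit 0) .nil .nil))))) (.nd (nat_lit 4) (.nd (nat_lit 5) 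
(.lf (nat_lit 251848) (.g (nat_lit 2696) (.e (nat_lit 163884) (nat_lit 5) (.e (nat_lit 221193) (nat_lit 11) (.e (nat_lit 336085) (nat_lit 9) (.e (nat_lit 336443) (nat_lit 32) (.e (nat_lit 466969) (nat_lit 21) (.e (nat_lit 164325) (nat_lit 230) .nil)))))) (.g (nat_lit 5) .nil .nil))) 
(.lf (nat_lit 251880) (.g (nat_lit 1204) (.e (nat_lit 163884) (nat_lit 5) (.e (nat_lit 221193) (nat_lit 11) (.e (nat_lit 336087) (nat_lit 9) (.e (nat_lit 336434) (nat_lit 30) (.e (nat_lit 450564) (nat_lit 0) .nil))))) .nil))) (.nd (nat_lit 5) 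
(.lf (nat_lit 251864) (.g (nat_lit 3055) (.e (nat_lit 163884) (nat_lit 5) (.e (nat_lit 221193) (nat_lit 11) (.e (nat_lit 336086) (nat_lit 9) (.e (nat_lit 336443) (nat_lit 32) (.e (nat_lit 466969) (nat_lit 21) (.e (nat_lit 164325) (nat_lit 230) .nil)))))) (.g (nat_lit 6) .nil .nil))) 
(.lf (nat_lit 251896) (.g (nat_lit 2225) (.e (nat_lit 163884) (nat_lit 5) (.e (nat_lit 221193) (nat_lit 11) (.e (nat_lit 336088) (nat_lit 9) (.e (nat_lit 336443) (nat_lit 32) (.e (nat_lit 466969) (nat_lit 21) (.e (nat_lit 164322) (nat_lit 230) .nil)))))) (.g (nat_lit 4) .nil .nil)))))) (.nd (nat_lit 3) (.nd (nat_lit 4) (.nd (nat_lit 5) 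
(.lf (nat_lit 251844) (.g (nat_lit 3454) (.e (nat_lit 163884) (nat_lit 5) (.e (nat_lit 221193) (nat_lit 11) (.e (nat_lit 336078) (nat_lit 9) (.e (nat_lit 336443) (nat_lit 32) (.e (nat_lit 466972) (nat_lit 21) (.e (nat_lit 164332) (nat_lit 230) .nil)))))) (.g (nat_lit 6) .nil .nil))) 
(.lf (nat_lit 251876) (.g (nat_lit 2729) (.e (nat_lit 163884) (nat_lit 5) (.e (nat_lit 221193) (nat_lit 11) (.e (nat_lit 336086) (nat_lit 9) (.e (nat_lit 336443) (nat_lit 32) (.e (nat_lit 466972) (nat_lit 21) (.e (nat_lit 164329) (nat_lit 230) .nil)))))) (.g (nat_lit 6) .nil .nil)))) (.nd (nat_lit 5) 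
(.lf (nat_lit 251860) (.g (nat_lit 3427) (.e (nat_lit 163884) (nat_lit 5) (.e (nat_lit 221193) (nat_lit 11) (.e (nat_lit 336086) (nat_lit 9) (.e (nat_lit 336430) (nat_lit 29) (.e (nat_lit 442421) (nat_lit 21) (.e (nat_lit 164332) (nat_lit 230) .nil)))))) (.g (nat_lit 6) .nil .nil))) 
(.lf (nat_lit 251892) (.g (nat_lit 2534) (.e (nat_lit 163884) (nat_lit 5) (.e (nat_lit 221193) (nat_lit 11) (.e (nat_lit 336087) (nat_lit 9) (.e (nat_lit 336443) (nat_lit 32) (.e (nat_lit 466971) (nat_lit 21) (.e (nat_lit 164326) (nat_lit 230) .nil)))))) (.g (nat_lit 5) .nil .nil))))) (.nd (nat_lit 4) (.nd (nat_lit 5) 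
(.lf (nat_lit 251852) (.g (nat_lit 2547) (.e (nat_lit 163884) (nat_lit 5) (.e (nat_lit 221193) (nat_lit 11) (.e (nat_lit 336086) (nat_lit 9) (.e (nat_lit 336426) (nat_lit 29) (.e (nat_lit 442421) (nat_lit 21) (.e (nat_lit 164322) (nat_lit 230) .nil)))))) (.g (nat_lit 5) .nil .nil))) 
(.lf (nat_lit 251884) (.g (nat_lit 3132) (.e (nat_lit 163884) (nat_lit 5) (.e (nat_lit 221193) (nat_lit 11) (.e (nat_lit 336087) (nat_lit 9) (.e (nat_lit 336443) (nat_lit 32) (.e (nat_lit 466969) (nat_lit 21) (.e (nat_lit 164325) (nat_lit 230) .nil)))))) (.g (nat_lit 6) .nil .nil)))) (.nd (nat_lit 5) 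
(.lf (nat_lit 251868) (.g (nat_lit 3206) (.e (nat_lit 163884) (nat_lit 5) (.e (nat_lit 221193) (nat_lit 11) (.e (nat_lit 336086) (nat_lit 9) (.e (nat_lit 336443) (nat_lit 32) (.e (nat_lit 466969) (nat_lit 21) (.e (nat_lit 164332) (nat_lit 230) .nil)))))) (.g (nat_lit 0) .nil .nil))) 
(.lf (nat_lit 251900) (.g (nat_lit 2687) (.e (nat_lit 163884) (nat_lit 5) (.e (nat_lit 221193) (nat_lit 11) (.e (nat_lit 336088) (nat_lit 9) (.e (nat_lit 336443) (nat_lit 32) (.e (nat_lit 466969) (nat_lit 21) (.e (nat_lit 164329) (nat_lit 230) .nil)))))) (.g (nat_lit 5) .nil .nil))))))) (.nd (nat_lit 2) (.nd (nat_lit 3) (.nd (nat_lit 4) (.nd (nat_lit 5) 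
(.lf (nat_lit 251842) (.g (nat_lit 3015) (.e (nat_lit 163884) (nat_lit 5) (.e (nat_lit 221193) (nat_lit 11) (.e (nat_lit 336078) (nat_lit 9) (.e (nat_lit 336443) (nat_lit 32) (.e (nat_lit 466972) (nat_lit 21) (.e (nat_lit 164330) (nat_lit 230) .nil)))))) (.g (nat_lit 5) .nil .nil))) 
(.lf (nat_lit 251874) (.g (nat_lit 2608) (.e (nat_lit 163884) (nat_lit 5) (.e (nat_lit 221193) (nat_lit 11) (.e (nat_lit 336086) (nat_lit 9) (.e (nat_lit 336443) (nat_lit 32) (.e (nat_lit 466971) (nat_lit 21) (.e (nat_lit 164331) (nat_lit 230) .nil)))))) (.g (nat_lit 5) .nil .nil)))) (.nd (nat_lit 5) 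
(.lf (nat_lit 251858) (.g (nat_lit 2801) (.e (nat_lit 163884) (nat_lit 5) (.e (nat_lit 221193) (nat_lit 11) (.e (nat_lit 336086) (nat_lit 9) (.e (nat_lit 336430) (nat_lit 29) (.e (nat_lit 442421) (nat_lit 21) (.e (nat_lit 164322) (nat_lit 230) .nil)))))) (.g (nat_lit 6) .nil .nil))) 
(.lf (nat_lit 251890) (.g (nat_lit 2952) (.e (nat_lit 163884) (nat_lit 5) (.e (nat_lit 221193) (nat_lit 11) (.e (nat_lit 336087) (nat_lit 9) (.e (nat_lit 336443) (nat_lit 32) (.e (nat_lit 466971) (nat_lit 21) (.e (nat_lit 164324) (nat_lit 230) .nil)))))) (.g (nat_lit 6) .nil .nil))))) (.nd (nat_lit 4) (.nd (nat_lit 5) 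
(.lf (nat_lit 251850) (.g (nat_lit 2576) (.e (nat_lit 163884) (nat_lit 5) (.e (nat_lit 221193) (nat_lit 11) (.e (nat_lit 336085) (nat_lit 9) (.e (nat_lit 336443) (nat_lit 32) (.e (nat_lit 466971) (nat_lit 21) (.e (nat_lit 164332) (nat_lit 230) .nil)))))) (.g (nat_lit 5) .nil .nil))) 
(.lf (nat_lit 251882) (.g (nat_lit 2142) (.e (nat_lit 163884) (nat_lit 5) (.e (nat_lit 221193) (nat_lit 11) (.e (nat_lit 336087) (nat_lit 9) (.e (nat_lit 336443) (nat_lit 32) (.e (nat_lit 466969) (nat_lit 21) (.e (nat_lit 164322) (nat_lit 230) .nil)))))) (.g (nat_lit 4) .nil .nil)))) (.nd (nat_lit 5) 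
(.lf (nat_lit 251866) (.g (nat_lit 2619) (.e (nat_lit 163884) (nat_lit 5) (.e (nat_lit 221193) (nat_lit 11) (.e (nat_lit 336086) (nat_lit 9) (.e (nat_lit 336443) (nat_lit 32) (.e (nat_lit 466969) (nat_lit 21) (.e (nat_lit 164329) (nat_lit 230) .nil)))))) (.g (nat_lit 6) .nil .nil))) 
(.lf (nat_lit 251898) (.g (nat_lit 3212) (.e (nat_lit 163884) (nat_lit 5) (.e (nat_lit 221193) (nat_lit 11) (.e (nat_lit 336088) (nat_lit 9) (.e (nat_lit 336443) (nat_lit 32) (.e (nat_lit 466969) (nat_lit 21) (.e (nat_lit 164325) (nat_lit 230) .nil)))))) (.g (nat_lit 6) .nil .nil)))))) (.nd (nat_lit 3) (.nd (nat_lit 4) (.nd (nat_lit 5) 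
(.lf (nat_lit 251846) (.g (nat_lit 345) (.e (nat_lit 163884) (nat_lit 5) (.e (nat_lit 221193) (nat_lit 11) (.e (nat_lit 336085) (nat_lit 9) .nil))) .nil)) 
(.lf (nat_lit 251878) (.g (nat_lit 3355) (.e (nat_lit 163884) (nat_lit 5) (.e (nat_lit 221193) (nat_lit 11) (.e (nat_lit 336086) (nat_lit 9) (.e (nat_lit 336443) (nat_lit 32) (.e (nat_lit 466972) (nat_lit 21) (.e (nat_lit 164332) (nat_lit 230) .nil)))))) (.g (nat_lit 0) .nil .nil)))) (.nd (nat_lit 5) 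
(.lf (nat_lit 251862) (.g (nat_lit 1669) (.e (nat_lit 163884) (nat_lit 5) (.e (nat_lit 221193) (nat_lit 11) (.e (nat_lit 336086) (nat_lit 9) (.e (nat_lit 336443) (nat_lit 32) (.e (nat_lit 466968) (nat_lit 21) .nil))))) .nil)) 
(.lf (nat_lit 251894) (.g (nat_lit 2948) (.e (nat_lit 163884) (nat_lit 5) (.e (nat_lit 221193) (nat_lit 11) (.e (nat_lit 336087) (nat_lit 9) (.e (nat_lit 336443) (nat_lit 32) (.e (nat_lit 466972) (nat_lit 21) (.e (nat_lit 164330) (nat_lit 230) .nil)))))) (.g (nat_lit 5) .nil .nil))))) (.nd (nat_lit 4) (.nd (nat_lit 5) 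
(.lf (nat_lit 251854) (.g (nat_lit 2643) (.e (nat_lit 163884) (nat_lit 5) (.e (nat_lit 221193) (nat_lit 11) (.e (nat_lit 336086) (nat_lit 9) (.e (nat_lit 336430) (nat_lit 29) (.e (nat_lit 442419) (nat_lit 21) (.e (nat_lit 164322) (nat_lit 230) .nil)))))) (.g (nat_lit 5) .nil .nil))) 
(.lf (nat_lit 251886) (.g (nat_lit 2655) (.e (nat_lit 163884) (nat_lit 5) (.e (nat_lit 221193) (nat_lit 11) (.e (nat_lit 336087) (nat_lit 9) (.e (nat_lit 336443) (nat_lit 32) (.e (nat_lit 466969) (nat_lit 21) (.e (nat_lit 164329) (nat_lit 230) .nil)))))) (.g (nat_lit 5) .nil .nil)))) (.nd (nat_lit 5) 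
(.lf (nat_lit 251870) (.g (nat_lit 3004) (.e (nat_lit 163884) (nat_lit 5) (.e (nat_lit 221193) (nat_lit 11) (.e (nat_lit 336086) (nat_lit 9) (.e (nat_lit 336443) (nat_lit 32) (.e (nat_lit 466971) (nat_lit 21) (.e (nat_lit 164324) (nat_lit 230) .nil)))))) (.g (nat_lit 6) .nil .nil))) 
(.lf (nat_lit 251902) (.g (nat_lit 3294) (.e (nat_lit 163884) (nat_lit 5) (.e (nat_lit 221193) (nat_lit 11) (.e (nat_lit 336088) (nat_lit 9) (.e (nat_lit 336443) (nat_lit 32) (.e (nat_lit 466969) (nat_lit 21) (.e (nat_lit 164331) (nat_lit 230) .nil)))))) (.g (nat_lit 6) .nil .nil)))))))) (.nd (nat_lit 1) (.nd (nat_lit 2) (.nd (nat_lit 3) (.nd (nat_lit 4) (.nd (nat_lit 5) 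
(.lf (nat_lit 251841) (.g (nat_lit 2759) (.e (nat_lit 163884) (nat_lit 5) (.e (nat_lit 221193) (nat_lit 11) (.e (nat_lit 336078) (nat_lit 9) (.e (nat_lit 336443) (nat_lit 32) (.e (nat_lit 466972) (nat_lit 21) (.e (nat_lit 164329) (nat_lit 230) .nil)))))) (.g (nat_lit 5) .nil .nil))) 
(.lf (nat_lit 251873) (.g (nat_lit 2295) (.e (nat_lit 163884) (nat_lit 5) (.e (nat_lit 221193) (nat_lit 11) (.e (nat_lit 336086) (nat_lit 9) (.e (nat_lit 336443) (nat_lit 32) (.e (nat_lit 466971) (nat_lit 21) (.e (nat_lit 164329) (nat_lit 230) .nil)))))) (.g (nat_lit 5) .nil .nil)))) (.nd (nat_lit 5) 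
(.lf (nat_lit 251857) (.g (nat_lit 3471) (.e (nat_lit 163884) (nat_lit 5) (.e (nat_lit 221193) (nat_lit 11) (.e (nat_lit 336086) (nat_lit 9) (.e (nat_lit 336430) (nat_lit 29) (.e (nat_lit 442419) (nat_lit 21) (.e (nat_lit 164332) (nat_lit 230) .nil)))))) (.g (nat_lit 6) .nil .nil))) 
(.lf (nat_lit 251889) (.g (nat_lit 2817) (.e (nat_lit 163884) (nat_lit 5) (.e (nat_lit 221193) (nat_lit 11) (.e (nat_lit 336087) (nat_lit 9) (.e (nat_lit 336443) (nat_lit 32) (.e (nat_lit 466971) (nat_lit 21) (.e (nat_lit 164322) (nat_lit 230) .nil)))))) (.g (nat_lit 5) .nil .nil))))) (.nd (nat_lit 4) (.nd (nat_lit 5) 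
(.lf (nat_lit 251849) (.g (nat_lit 2464) (.e (nat_lit 163884) (nat_lit 5) (.e (nat_lit 221193) (nat_lit 11) (.e (nat_lit 336085) (nat_lit 9) (.e (nat_lit 336443) (nat_lit 32) (.e (nat_lit 466971) (nat_lit 21) (.e (nat_lit 164325) (nat_lit 230) .nil)))))) (.g (nat_lit 5) .nil .nil))) 
(.lf (nat_lit 251881) (.g (nat_lit 2387) (.e (nat_lit 163884) (nat_lit 5) (.e (nat_lit 221193) (nat_lit 11) (.e (nat_lit 336087) (nat_lit 9) (.e (nat_lit 336443) (nat_lit 32) (.e (nat_lit 466968) (nat_lit 21) .nil))))) .nil))) (.nd (nat_lit 5) 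
(.lf (nat_lit 251865) (.g (nat_lit 2677) (.e (nat_lit 163884) (nat_lit 5) (.e (nat_lit 221193) (nat_lit 11) (.e (nat_lit 336086) (nat_lit 9) (.e (nat_lit 336443) (nat_lit 32) (.e (nat_lit 466969) (nat_lit 21) (.e (nat_lit 164326) (nat_lit 230) .nil)))))) (.g (nat_lit 6) .nil .nil))) 
(.lf (nat_lit 251897) (.g (nat_lit 3230) (.e (nat_lit 163884) (nat_lit 5) (.e (nat_lit 221193) (nat_lit 11) (.e (nat_lit 336088) (nat_lit 9) (.e (nat_lit 336443) (nat_lit 32) (.e (nat_lit 466969) (nat_lit 21) (.e (nat_lit 164324) (nat_lit 230) .nil)))))) (.g (nat_lit 6) .nil .nil)))))) (.nd (nat_lit 3) (.nd (nat_lit 4) (.nd (nat_lit 5) 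
(.lf (nat_lit 251845) (.g (nat_lit 303) (.e (nat_lit 163884) (nat_lit 5) (.e (nat_lit 221193) (nat_lit 11) (.e (nat_lit 336084) (nat_lit 9) .nil))) .nil)) 
(.lf (nat_lit 251877) (.g (nat_lit 2950) (.e (nat_lit 163884) (nat_lit 5) (.e (nat_lit 221193) (nat_lit 11) (.e (nat_lit 336086) (nat_lit 9) (.e (nat_lit 336443) (nat_lit 32) (.e (nat_lit 466972) (nat_lit 21) (.e (nat_lit 164330) (nat_lit 230) .nil)))))) (.g (nat_lit 6) .nil .nil)))) (.nd (nat_lit 5) 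
(.lf (nat_lit 251861) (.g (nat_lit 794) (.e (nat_lit 163884) (nat_lit 5) (.e (nat_lit 221193) (nat_lit 11) (.e (nat_lit 336086) (nat_lit 9) (.e (nat_lit 336432) (nat_lit 30) .nil)))) .nil)) 
(.lf (nat_lit 251893) (.g (nat_lit 2691) (.e (nat_lit 163884) (nat_lit 5) (.e (nat_lit 221193) (nat_lit 11) (.e (nat_lit 336087) (nat_lit 9) (.e (nat_lit 336443) (nat_lit 32) (.e (nat_lit 466972) (nat_lit 21) (.e (nat_lit 164329) (nat_lit 230) .nil)))))) (.g (nat_lit 5) .nil .nil))))) (.nd (nat_lit 4) (.nd (nat_lit 5) 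
(.lf (nat_lit 251853) (.g (nat_lit 2791) (.e (nat_lit 163884) (nat_lit 5) (.e (nat_lit 221193) (nat_lit 11) (.e (nat_lit 336086) (nat_lit 9) (.e (nat_lit 336426) (nat_lit 29) (.e (nat_lit 442421) (nat_lit 21) (.e (nat_lit 164324) (nat_lit 230) .nil)))))) (.g (nat_lit 5) .nil .nil))) 
(.lf (nat_lit 251885) (.g (nat_lit 2713) (.e (nat_lit 163884) (nat_lit 5) (.e (nat_lit 221193) (nat_lit 11) (.e (nat_lit 336087) (nat_lit 9) (.e (nat_lit 336443) (nat_lit 32) (.e (nat_lit 466969) (nat_lit 21) (.e (nat_lit 164326) (nat_lit 230) .nil)))))) (.g (nat_lit 5) .nil .nil)))) (.nd (nat_lit 5) 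
(.lf (nat_lit 251869) (.g (nat_lit 2843) (.e (nat_lit 163884) (nat_lit 5) (.e (nat_lit 221193) (nat_lit 11) (.e (nat_lit 336086) (nat_lit 9) (.e (nat_lit 336443) (nat_lit 32) (.e (nat_lit 466971) (nat_lit 21) (.e (nat_lit 164322) (nat_lit 230) .nil)))))) (.g (nat_lit 6) .nil .nil))) 
(.lf (nat_lit 251901) (.g (nat_lit 2725) (.e (nat_lit 163884) (nat_lit 5) (.e (nat_lit 221193) (nat_lit 11) (.e (nat_lit 336088) (nat_lit 9) (.e (nat_lit 336443) (nat_lit 32) (.e (nat_lit 466969) (nat_lit 21) (.e (nat_lit 164330) (nat_lit 230) .nil)))))) (.g (nat_lit 5) .nil .nil))))))) (.nd (nat_lit 2) (.nd (nat_lit 3) (.nd (nat_lit 4) (.nd (nat_lit 5) 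
(.lf (nat_lit 251843) (.g (nat_lit 3181) (.e (nat_lit 163884) (nat_lit 5) (.e (nat_lit 221193) (nat_lit 11) (.e (nat_lit 336078) (nat_lit 9) (.e (nat_lit 336443) (nat_lit 32) (.e (nat_lit 466972) (nat_lit 21) (.e (nat_lit 164331) (nat_lit 230) .nil)))))) (.g (nat_lit 5) .nil .nil))) 
(.lf (nat_lit 251875) (.g (nat_lit 2991) (.e (nat_lit 163884) (nat_lit 5) (.e (nat_lit 221193) (nat_lit 11) (.e (nat_lit 336086) (nat_lit 9) (.e (nat_lit 336443) (nat_lit 32) (.e (nat_lit 466971) (nat_lit 21) (.e (nat_lit 164332) (nat_lit 230) .nil)))))) (.g (nat_lit 6) .nil .nil)))) (.nd (nat_lit 5) 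
(.lf (nat_lit 251859) (.g (nat_lit 3355) (.e (nat_lit 163884) (nat_lit 5) (.e (nat_lit 221193) (nat_lit 11) (.e (nat_lit 336086) (nat_lit 9) (.e (nat_lit 336430) (nat_lit 29) (.e (nat_lit 442421) (nat_lit 21) (.e (nat_lit 164324) (nat_lit 230) .nil)))))) (.g (nat_lit 6) .nil .nil))) 
(.lf (nat_lit 251891) (.g (nat_lit 2885) (.e (nat_lit 163884) (nat_lit 5) (.e (nat_lit 221193) (nat_lit 11) (.e (nat_lit 336087) (nat_lit 9) (.e (nat_lit 336443) (nat_lit 32) (.e (nat_lit 466971) (nat_lit 21) (.e (nat_lit 164325) (nat_lit 230) .nil)))))) (.g (nat_lit 6) .nil .nil))))) (.nd (nat_lit 4) (.nd (nat_lit 5) 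
(.lf (nat_lit 251851) (.g (nat_lit 280) (.e (nat_lit 163884) (nat_lit 5) (.e (nat_lit 221193) (nat_lit 11) (.e (nat_lit 336086) (nat_lit 9) .nil))) .nil)) 
(.lf (nat_lit 251883) (.g (nat_lit 3108) (.e (nat_lit 163884) (nat_lit 5) (.e (nat_lit 221193) (nat_lit 11) (.e (nat_lit 336087) (nat_lit 9) (.e (nat_lit 336443) (nat_lit 32) (.e (nat_lit 466969) (nat_lit 21) (.e (nat_lit 164324) (nat_lit 230) .nil)))))) (.g (nat_lit 6) .nil .nil)))) (.nd (nat_lit 5) 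
(.lf (nat_lit 251867) (.g (nat_lit 2646) (.e (nat_lit 163884) (nat_lit 5) (.e (nat_lit 221193) (nat_lit 11) (.e (nat_lit 336086) (nat_lit 9) (.e (nat_lit 336443) (nat_lit 32) (.e (nat_lit 466969) (nat_lit 21) (.e (nat_lit 164330) (nat_lit 230) .nil)))))) (.g (nat_lit 6) .nil .nil))) 
(.lf (nat_lit 251899) (.g (nat_lit 2797) (.e (nat_lit 163884) (nat_lit 5) (.e (nat_lit 221193) (nat_lit 11) (.e (nat_lit 336088) (nat_lit 9) (.e (nat_lit 336443) (nat_lit 32) (.e (nat_lit 466969) (nat_lit 21) (.e (nat_lit 164326) (nat_lit 230) .nil)))))) (.g (nat_lit 6) .nil .nil)))))) (.nd (nat_lit 3) (.nd (nat_lit 4) (.nd (nat_lit 5) 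
(.lf (nat_lit 251847) (.g (nat_lit 2688) (.e (nat_lit 163884) (nat_lit 5) (.e (nat_lit 221193) (nat_lit 11) (.e (nat_lit 336085) (nat_lit 9) (.e (nat_lit 336443) (nat_lit 32) (.e (nat_lit 466969) (nat_lit 21) (.e (nat_lit 164324) (nat_lit 230) .nil)))))) (.g (nat_lit 5) .nil .nil))) 
(.lf (nat_lit 251879) (.g (nat_lit 369) (.e (nat_lit 163884) (nat_lit 5) (.e (nat_lit 221193) (nat_lit 11) (.e (nat_lit 336087) (nat_lit 9) .nil))) .nil))) (.nd (nat_lit 5) 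
(.lf (nat_lit 251863) (.g (nat_lit 3126) (.e (nat_lit 163884) (nat_lit 5) (.e (nat_lit 221193) (nat_lit 11) (.e (nat_lit 336086) (nat_lit 9) (.e (nat_lit 336443) (nat_lit 32) (.e (nat_lit 466969) (nat_lit 21) (.e (nat_lit 164324) (nat_lit 230) .nil)))))) (.g (nat_lit 6) .nil .nil))) 
(.lf (nat_lit 251895) (.g (nat_lit 3376) (.e (nat_lit 163884) (nat_lit 5) (.e (nat_lit 221193) (nat_lit 11) (.e (nat_lit 336087) (nat_lit 9) (.e (nat_lit 336443) (nat_lit 32) (.e (nat_lit 466972) (nat_lit 21) (.e (nat_lit 164332) (nat_lit 230) .nil)))))) (.g (nat_lit 6) .nil .nil))))) (.nd (nat_lit 4) (.nd (nat_lit 5) 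
(.lf (nat_lit 251855) (.g (nat_lit 2663) (.e (nat_lit 163884) (nat_lit 5) (.e (nat_lit 221193) (nat_lit 11) (.e (nat_lit 336086) (nat_lit 9) (.e (nat_lit 336430) (nat_lit 29) (.e (nat_lit 442419) (nat_lit 21) (.e (nat_lit 164326) (nat_lit 230) .nil)))))) (.g (nat_lit 6) .nil .nil))) 
(.lf (nat_lit 251887) (.g (nat_lit 2697) (.e (nat_lit 163884) (nat_lit 5) (.e (nat_lit 221193) (nat_lit 11) (.e (nat_lit 336087) (nat_lit 9) (.e (nat_lit 336443) (nat_lit 32) (.e (nat_lit 466969) (nat_lit 21) (.e (nat_lit 164330) (nat_lit 230) .nil)))))) (.g (nat_lit 5) .nil .nil)))) (.nd (nat_lit 5) 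
(.lf (nat_lit 251871) (.g (nat_lit 2899) (.e (nat_lit 163884) (nat_lit 5) (.e (nat_lit 221193) (nat_lit 11) (.e (nat_lit 336086) (nat_lit 9) (.e (nat_lit 336443) (nat_lit 32) (.e (nat_lit 466971) (nat_lit 21) (.e (nat_lit 164325) (nat_lit 230) .nil)))))) (.g (nat_lit 6) .nil .nil))) 
(.lf (nat_lit 251903) (.g (nat_lit 3337) (.e (nat_lit 163884) (nat_lit 5) (.e (nat_lit 221193) (nat_lit 11) (.e (nat_lit 336088) (nat_lit 9) (.e (nat_lit 336443) (nat_lit 32) (.e (nat_lit 466969) (nat_lit 21) (.e (nat_lit 164332) (nat_lit 230) .nil)))))) (.g (nat_lit 0) .nil .nil)))))))))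

noncomputable def tv3266 : DT := (.nd (nat_lit 0) (.nd (nat_lit 1) (.nd (nat_lit 2) (.nd (nat_lit 3) (.nd (nat_lit 4) (.nd (nat_lit 5) 
(.lf (nat_lit 251904) (.g (nat_lit 3011) (.e (nat_lit 163884) (nat_lit 5) (.e (nat_lit 221193) (nat_lit 11) (.e (nat_lit 336088) (nat_lit 9) (.e (nat_lit 336443) (nat_lit 32) (.e (nat_lit 466971) (nat_lit 21) (.e (nat_lit 164322) (nat_lit 230) .nil)))))) (.g (nat_lit 6) .nil .nil))) 
(.lf (nat_lit 251936) (.g (nat_lit 320) (.e (nat_lit 163884) (nat_lit 5) (.e (nat_lit 221193) (nat_lit 11) (.e (nat_lit 336215) (nat_lit 13) .nil))) .nil))) (.nd (nat_lit 5) 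
(.lf (nat_lit 251920) (.g (nat_lit 1957) (.e (nat_lit 163884) (nat_lit 5) (.e (nat_lit 221193) (nat_lit 11) (.e (nat_lit 336213) (nat_lit 13) (.e (nat_lit 393281) (nat_lit 23) (.e (nat_lit 426099) (nat_lit 1) .nil))))) .nil)) 
(.lf (nat_lit 251952) (.g (nat_lit 2080) (.e (nat_lit 163884) (nat_lit 5) (.e (nat_lit 221193) (nat_lit 11) (.e (nat_lit 336220) (nat_lit 13) (.e (nat_lit 393271) (nat_lit 23) (.e (nat_lit 426112) (nat_lit 1) (.e (nat_lit 164326) (nat_lit 230) .nil)))))) (.g (nat_lit 4) .nil .nil))))) (.nd (nat_lit 4) (.nd (nat_lit 5) 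
(.lf (nat_lit 251912) (.g (nat_lit 3027) (.e (nat_lit 163884) (nat_lit 5) (.e (nat_lit 221193) (nat_lit 11) (.e (nat_lit 336088) (nat_lit 9) (.e (nat_lit 336443) (nat_lit 32) (.e (nat_lit 466972) (nat_lit 21) (.e (nat_lit 164330) (nat_lit 230) .nil)))))) (.g (nat_lit 5) .nil .nil))) 
(.lf (nat_lit 251944) (.g (nat_lit 1630) (.e (nat_lit 163884) (nat_lit 5) (.e (nat_lit 221193) (nat_lit 11) (.e (nat_lit 336215) (nat_lit 13) (.e (nat_lit 393281) (nat_lit 23) (.e (nat_lit 426099) (nat_lit 1) .nil))))) .nil))) (.nd (nat_lit 5) 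
(.lf (nat_lit 251928) (.g (nat_lit 1878) (.e (nat_lit 163884) (nat_lit 5) (.e (nat_lit 221193) (nat_lit 11) (.e (nat_lit 336213) (nat_lit 13) (.e (nat_lit 393289) (nat_lit 25) .nil)))) .nil)) 
(.lf (nat_lit 251960) (.g (nat_lit 2240) (.e (nat_lit 163884) (nat_lit 5) (.e (nat_lit 221193) (nat_lit 11) (.e (nat_lit 336220) (nat_lit 13) (.e (nat_lit 393281) (nat_lit 23) (.e (nat_lit 426100) (nat_lit 1) (.e (nat_lit 164330) (nat_lit 230) .nil)))))) (.g (nat_lit 5) .nil .nil)))))) (.nd (nat_lit 3) (.nd (nat_lit 4) (.nd (nat_lit 5) 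
(.lf (nat_lit 251908) (.g (nat_lit 2464) (.e (nat_lit 163884) (nat_lit 5) (.e (nat_lit 221193) (nat_lit 11) (.e (nat_lit 336088) (nat_lit 9) (.e (nat_lit 336443) (nat_lit 32) (.e (nat_lit 466971) (nat_lit 21) (.e (nat_lit 164329) (nat_lit 230) .nil)))))) (.g (nat_lit 5) .nil .nil))) 
(.lf (nat_lit 251940) (.g (nat_lit 1949) (.e (nat_lit 163884) (nat_lit 5) (.e (nat_lit 221193) (nat_lit 11) (.e (nat_lit 336215) (nat_lit 13) (.e (nat_lit 393274) (nat_lit 23) (.e (nat_lit 426097) (nat_lit 1) .nil))))) .nil))) (.nd (nat_lit 5) 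
(.lf (nat_lit 251924) (.g (nat_lit 2288) (.e (nat_lit 163884) (nat_lit 5) (.e (nat_lit 221193) (nat_lit 11) (.e (nat_lit 336213) (nat_lit 13) (.e (nat_lit 393281) (nat_lit 23) (.e (nat_lit 426100) (nat_lit 1) (.e (nat_lit 164331) (nat_lit 230) .nil)))))) (.g (nat_lit 4) .nil .nil))) 
(.lf (nat_lit 251956) (.g (nat_lit 2531) (.e (nat_lit 163884) (nat_lit 5) (.e (nat_lit 221193) (nat_lit 11) (.e (nat_lit 336220) (nat_lit 13) (.e (nat_lit 393281) (nat_lit 23) (.e (nat_lit 426098) (nat_lit 1) (.e (nat_lit 164327) (nat_lit 230) .nil)))))) (.g (nat_lit 6) .nil .nil))))) (.nd (nat_lit 4) (.nd (nat_lit 5) 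
(.lf (nat_lit 251916) (.g (nat_lit 1379) (.e (nat_lit 163884) (nat_lit 5) (.e (nat_lit 221193) (nat_lit 11) (.e (nat_lit 336213) (nat_lit 13) (.e (nat_lit 393281) (nat_lit 23) .nil)))) .nil)) 
(.lf (nat_lit 251948) (.g (nat_lit 2840) (.e (nat_lit 163884) (nat_lit 5) (.e (nat_lit 221193) (nat_lit 11) (.e (nat_lit 336215) (nat_lit 13) (.e (nat_lit 393281) (nat_lit 23) (.e (nat_lit 426108) (nat_lit 1) (.e (nat_lit 164329) (nat_lit 230) .nil)))))) (.g (nat_lit 5) .nil .nil)))) (.nd (nat_lit 5) 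
(.lf (nat_lit 251932) (.g (nat_lit 2273) (.e (nat_lit 163884) (nat_lit 5) (.e (nat_lit 221193) (nat_lit 11) (.e (nat_lit 336214) (nat_lit 13) (.e (nat_lit 393281) (nat_lit 23) (.e (nat_lit 426100) (nat_lit 1) (.e (nat_lit 164329) (nat_lit 230) .nil)))))) (.g (nat_lit 5) .nil .nil))) 
(.lf (nat_lit 251964) (.g (nat_lit 1953) (.e (nat_lit 163884) (nat_lit 5) (.e (nat_lit 221193) (nat_lit 11) (.e (nat_lit 336221) (nat_lit 13) (.e (nat_lit 393281) (nat_lit 23) (.e (nat_lit 426100) (nat_lit 1) (.e (nat_lit 164329) (nat_lit 230) .nil)))))) (.g (nat_lit 5) .nil .nil))))))) (.nd (nat_lit 2) (.nd (nat_lit 3) (.nd (nat_lit 4) (.nd (nat_lit 5) 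
(.lf (nat_lit 251906) (.g (nat_lit 3099) (.e (nat_lit 163884) (nat_lit 5) (.e (nat_lit 221193) (nat_lit 11) (.e (nat_lit 336088) (nat_lit 9) (.e (nat_lit 336443) (nat_lit 32) (.e (nat_lit 466971) (nat_lit 21) (.e (nat_lit 164325) (nat_lit 230) .nil)))))) (.g (nat_lit 6) .nil .nil))) 
(.lf (nat_lit 251938) (.g (nat_lit 2592) (.e (nat_lit 163884) (nat_lit 5) (.e (nat_lit 221193) (nat_lit 11) (.e (nat_lit 336215) (nat_lit 13) (.e (nat_lit 393271) (nat_lit 23) (.e (nat_lit 426112) (nat_lit 1) (.e (nat_lit 164324) (nat_lit 230) .nil)))))) (.g (nat_lit 5) .nil .nil)))) (.nd (nat_lit 5) 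
(.lf (nat_lit 251922) (.g (nat_lit 2506) (.e (nat_lit 163884) (nat_lit 5) (.e (nat_lit 221193) (nat_lit 11) (.e (nat_lit 336213) (nat_lit 13) (.e (nat_lit 393281) (nat_lit 23) (.e (nat_lit 426100) (nat_lit 1) (.e (nat_lit 164329) (nat_lit 230) .nil)))))) (.g (nat_lit 4) .nil .nil))) 
(.lf (nat_lit 251954) (.g (nat_lit 1736) (.e (nat_lit 163884) (nat_lit 5) (.e (nat_lit 221193) (nat_lit 11) (.e (nat_lit 336220) (nat_lit 13) (.e (nat_lit 393281) (nat_lit 23) (.e (nat_lit 426098) (nat_lit 1) (.e (nat_lit 164324) (nat_lit 230) .nil)))))) (.g (nat_lit 4) .nil .nil))))) (.nd (nat_lit 4) (.nd (nat_lit 5) 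
(.lf (nat_lit 251914) (.g (nat_lit 3472) (.e (nat_lit 163884) (nat_lit 5) (.e (nat_lit 221193) (nat_lit 11) (.e (nat_lit 336088) (nat_lit 9) (.e (nat_lit 336443) (nat_lit 32) (.e (nat_lit 466972) (nat_lit 21) (.e (nat_lit 164332) (nat_lit 230) .nil)))))) (.g (nat_lit 0) .nil .nil))) 
(.lf (nat_lit 251946) (.g (nat_lit 2613) (.e (nat_lit 163884) (nat_lit 5) (.e (nat_lit 221193) (nat_lit 11) (.e (nat_lit 336215) (nat_lit 13) (.e (nat_lit 393281) (nat_lit 23) (.e (nat_lit 426100) (nat_lit 1) (.e (nat_lit 164329) (nat_lit 230) .nil)))))) (.g (nat_lit 5) .nil .nil)))) (.nd (nat_lit 5) 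
(.lf (nat_lit 251930) (.g (nat_lit 1639) (.e (nat_lit 163884) (nat_lit 5) (.e (nat_lit 221193) (nat_lit 11) (.e (nat_lit 336214) (nat_lit 13) (.e (nat_lit 393281) (nat_lit 23) (.e (nat_lit 426099) (nat_lit 1) (.e (nat_lit 164329) (nat_lit 230) .nil)))))) (.g (nat_lit 4) .nil .nil))) 
(.lf (nat_lit 251962) (.g (nat_lit 2138) (.e (nat_lit 163884) (nat_lit 5) (.e (nat_lit 221193) (nat_lit 11) (.e (nat_lit 336220) (nat_lit 13) (.e (nat_lit 393281) (nat_lit 23) (.e (nat_lit 426108) (nat_lit 1) (.e (nat_lit 164329) (nat_lit 230) .nil)))))) (.g (nat_lit 5) .nil .nil)))))) (.nd (nat_lit 3) (.nd (nat_lit 4) (.nd (nat_lit 5) 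
(.lf (nat_lit 251910) (.g (nat_lit 3196) (.e (nat_lit 163884) (nat_lit 5) (.e (nat_lit 221193) (nat_lit 11) (.e (nat_lit 336088) (nat_lit 9) (.e (nat_lit 336443) (nat_lit 32) (.e (nat_lit 466971) (nat_lit 21) (.e (nat_lit 164332) (nat_lit 230) .nil)))))) (.g (nat_lit 6) .nil .nil))) 
(.lf (nat_lit 251942) (.g (nat_lit 3246) (.e (nat_lit 163884) (nat_lit 5) (.e (nat_lit 221193) (nat_lit 11) (.e (nat_lit 336215) (nat_lit 13) (.e (nat_lit 393281) (nat_lit 23) (.e (nat_lit 426098) (nat_lit 1) (.e (nat_lit 164327) (nat_lit 230) .nil)))))) (.g (nat_lit 0) .nil .nil)))) (.nd (nat_lit 5) 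
(.lf (nat_lit 251926) (.g (nat_lit 2063) (.e (nat_lit 163884) (nat_lit 5) (.e (nat_lit 221193) (nat_lit 11) (.e (nat_lit 336213) (nat_lit 13) (.e (nat_lit 393281) (nat_lit 23) (.e (nat_lit 426105) (nat_lit 1) .nil))))) .nil)) 
(.lf (nat_lit 251958) (.g (nat_lit 1699) (.e (nat_lit 163884) (nat_lit 5) (.e (nat_lit 221193) (nat_lit 11) (.e (nat_lit 336220) (nat_lit 13) (.e (nat_lit 393281) (nat_lit 23) (.e (nat_lit 426099) (nat_lit 1) (.e (nat_lit 164330) (nat_lit 230) .nil)))))) (.g (nat_lit 4) .nil .nil))))) (.nd (nat_lit 4) (.nd (nat_lit 5) 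
(.lf (nat_lit 251918) (.g (nat_lit 2998) (.e (nat_lit 163884) (nat_lit 5) (.e (nat_lit 221193) (nat_lit 11) (.e (nat_lit 336213) (nat_lit 13) (.e (nat_lit 393281) (nat_lit 23) (.e (nat_lit 426098) (nat_lit 1) (.e (nat_lit 164325) (nat_lit 230) .nil)))))) (.g (nat_lit 5) .nil .nil))) 
(.lf (nat_lit 251950) (.g (nat_lit 292) (.e (nat_lit 163884) (nat_lit 5) (.e (nat_lit 221193) (nat_lit 11) (.e (nat_lit 336220) (nat_lit 13) .nil))) .nil))) (.nd (nat_lit 5) 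
(.lf (nat_lit 251934) (.g (nat_lit 2548) (.e (nat_lit 163884) (nat_lit 5) (.e (nat_lit 221193) (nat_lit 11) (.e (nat_lit 336214) (nat_lit 13) (.e (nat_lit 393281) (nat_lit 23) (.e (nat_lit 426108) (nat_lit 1) (.e (nat_lit 164329) (nat_lit 230) .nil)))))) (.g (nat_lit 5) .nil .nil))) 
(.lf (nat_lit 251966) (.g (nat_lit 2233) (.e (nat_lit 163884) (nat_lit 5) (.e (nat_lit 221193) (nat_lit 11) (.e (nat_lit 336221) (nat_lit 13) (.e (nat_lit 393281) (nat_lit 23) (.e (nat_lit 426108) (nat_lit 1) (.e (nat_lit 164329) (nat_lit 230) .nil)))))) (.g (nat_lit 5) .nil .nil)))))))) (.nd (nat_lit 1) (.nd (nat_lit 2) (.nd (nat_lit 3) (.nd (nat_lit 4) (.nd (nat_lit 5) 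
(.lf (nat_lit 251905) (.g (nat_lit 3168) (.e (nat_lit 163884) (nat_lit 5) (.e (nat_lit 221193) (nat_lit 11) (.e (nat_lit 336088) (nat_lit 9) (.e (nat_lit 336443) (nat_lit 32) (.e (nat_lit 466971) (nat_lit 21) (.e (nat_lit 164324) (nat_lit 230) .nil)))))) (.g (nat_lit 6) .nil .nil))) 
(.lf (nat_lit 251937) (.g (nat_lit 2398) (.e (nat_lit 163884) (nat_lit 5) (.e (nat_lit 221193) (nat_lit 11) (.e (nat_lit 336215) (nat_lit 13) (.e (nat_lit 393271) (nat_lit 23) (.e (nat_lit 426111) (nat_lit 1) (.e (nat_lit 164332) (nat_lit 230) .nil)))))) (.g (nat_lit 4) .nil .nil)))) (.nd (nat_lit 5) 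
(.lf (nat_lit 251921) (.g (nat_lit 2222) (.e (nat_lit 163884) (nat_lit 5) (.e (nat_lit 221193) (nat_lit 11) (.e (nat_lit 336213) (nat_lit 13) (.e (nat_lit 393281) (nat_lit 23) (.e (nat_lit 426099) (nat_lit 1) (.e (nat_lit 164330) (nat_lit 230) .nil)))))) (.g (nat_lit 4) .nil .nil))) 
(.lf (nat_lit 251953) (.g (nat_lit 3161) (.e (nat_lit 163884) (nat_lit 5) (.e (nat_lit 221193) (nat_lit 11) (.e (nat_lit 336220) (nat_lit 13) (.e (nat_lit 393271) (nat_lit 23) (.e (nat_lit 426112) (nat_lit 1) (.e (nat_lit 164327) (nat_lit 230) .nil)))))) (.g (nat_lit 6) .nil .nil))))) (.nd (nat_lit 4) (.nd (nat_lit 5) 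
(.lf (nat_lit 251913) (.g (nat_lit 3489) (.e (nat_lit 163884) (nat_lit 5) (.e (nat_lit 221193) (nat_lit 11) (.e (nat_lit 336088) (nat_lit 9) (.e (nat_lit 336443) (nat_lit 32) (.e (nat_lit 466972) (nat_lit 21) (.e (nat_lit 164331) (nat_lit 230) .nil)))))) (.g (nat_lit 6) .nil .nil))) 
(.lf (nat_lit 251945) (.g (nat_lit 2037) (.e (nat_lit 163884) (nat_lit 5) (.e (nat_lit 221193) (nat_lit 11) (.e (nat_lit 336215) (nat_lit 13) (.e (nat_lit 393281) (nat_lit 23) (.e (nat_lit 426099) (nat_lit 1) (.e (nat_lit 164329) (nat_lit 230) .nil)))))) (.g (nat_lit 4) .nil .nil)))) (.nd (nat_lit 5) 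
(.lf (nat_lit 251929) (.g (nat_lit 2757) (.e (nat_lit 163884) (nat_lit 5) (.e (nat_lit 221193) (nat_lit 11) (.e (nat_lit 336214) (nat_lit 13) (.e (nat_lit 393281) (nat_lit 23) (.e (nat_lit 426098) (nat_lit 1) (.e (nat_lit 164325) (nat_lit 230) .nil)))))) (.g (nat_lit 6) .nil .nil))) 
(.lf (nat_lit 251961) (.g (nat_lit 2746) (.e (nat_lit 163884) (nat_lit 5) (.e (nat_lit 221193) (nat_lit 11) (.e (nat_lit 336220) (nat_lit 13) (.e (nat_lit 393281) (nat_lit 23) (.e (nat_lit 426100) (nat_lit 1) (.e (nat_lit 164332) (nat_lit 230) .nil)))))) (.g (nat_lit 6) .nil .nil)))))) (.nd (nat_lit 3) (.nd (nat_lit 4) (.nd (nat_lit 5) 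
(.lf (nat_lit 251909) (.g (nat_lit 2743) (.e (nat_lit 163884) (nat_lit 5) (.e (nat_lit 221193) (nat_lit 11) (.e (nat_lit 336088) (nat_lit 9) (.e (nat_lit 336443) (nat_lit 32) (.e (nat_lit 466971) (nat_lit 21) (.e (nat_lit 164331) (nat_lit 230) .nil)))))) (.g (nat_lit 5) .nil .nil))) 
(.lf (nat_lit 251941) (.g (nat_lit 3125) (.e (nat_lit 163884) (nat_lit 5) (.e (nat_lit 221193) (nat_lit 11) (.e (nat_lit 336215) (nat_lit 13) (.e (nat_lit 393281) (nat_lit 23) (.e (nat_lit 426098) (nat_lit 1) (.e (nat_lit 164325) (nat_lit 230) .nil)))))) (.g (nat_lit 6) .nil .nil)))) (.nd (nat_lit 5) 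
(.lf (nat_lit 251925) (.g (nat_lit 3268) (.e (nat_lit 163884) (nat_lit 5) (.e (nat_lit 221193) (nat_lit 11) (.e (nat_lit 336213) (nat_lit 13) (.e (nat_lit 393281) (nat_lit 23) (.e (nat_lit 426100) (nat_lit 1) (.e (nat_lit 164332) (nat_lit 230) .nil)))))) (.g (nat_lit 6) .nil .nil))) 
(.lf (nat_lit 251957) (.g (nat_lit 1360) (.e (nat_lit 163884) (nat_lit 5) (.e (nat_lit 221193) (nat_lit 11) (.e (nat_lit 336220) (nat_lit 13) (.e (nat_lit 393281) (nat_lit 23) (.e (nat_lit 426099) (nat_lit 1) (.e (nat_lit 164329) (nat_lit 230) .nil)))))) (.g (nat_lit 4) .nil .nil))))) (.nd (nat_lit 4) (.nd (nat_lit 5) 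
(.lf (nat_lit 251917) (.g (nat_lit 2331) (.e (nat_lit 163884) (nat_lit 5) (.e (nat_lit 221193) (nat_lit 11) (.e (nat_lit 336213) (nat_lit 13) (.e (nat_lit 393281) (nat_lit 23) (.e (nat_lit 426098) (nat_lit 1) (.e (nat_lit 164324) (nat_lit 230) .nil)))))) (.g (nat_lit 4) .nil .nil))) 
(.lf (nat_lit 251949) (.g (nat_lit 3636) (.e (nat_lit 163884) (nat_lit 5) (.e (nat_lit 221193) (nat_lit 11) (.e (nat_lit 336215) (nat_lit 13) (.e (nat_lit 393281) (nat_lit 23) (.e (nat_lit 426108) (nat_lit 1) (.e (nat_lit 164332) (nat_lit 230) .nil)))))) (.g (nat_lit 6) .nil .nil)))) (.nd (nat_lit 5) 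
(.lf (nat_lit 251933) (.g (nat_lit 2998) (.e (nat_lit 163884) (nat_lit 5) (.e (nat_lit 221193) (nat_lit 11) (.e (nat_lit 336214) (nat_lit 13) (.e (nat_lit 393281) (nat_lit 23) (.e (nat_lit 426100) (nat_lit 1) (.e (nat_lit 164332) (nat_lit 230) .nil)))))) (.g (nat_lit 0) .nil .nil))) 
(.lf (nat_lit 251965) (.g (nat_lit 2173) (.e (nat_lit 163884) (nat_lit 5) (.e (nat_lit 221193) (nat_lit 11) (.e (nat_lit 336221) (nat_lit 13) (.e (nat_lit 393281) (nat_lit 23) (.e (nat_lit 426100) (nat_lit 1) (.e (nat_lit 164330) (nat_lit 230) .nil)))))) (.g (nat_lit 5) .nil .nil))))))) (.nd (nat_lit 2) (.nd (nat_lit 3) (.nd (nat_lit 4) (.nd (nat_lit 5) 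
(.lf (nat_lit 251907) (.g (nat_lit 2713) (.e (nat_lit 163884) (nat_lit 5) (.e (nat_lit 221193) (nat_lit 11) (.e (nat_lit 336088) (nat_lit 9) (.e (nat_lit 336443) (nat_lit 32) (.e (nat_lit 466971) (nat_lit 21) (.e (nat_lit 164326) (nat_lit 230) .nil)))))) (.g (nat_lit 5) .nil .nil))) 
(.lf (nat_lit 251939) (.g (nat_lit 2303) (.e (nat_lit 163884) (nat_lit 5) (.e (nat_lit 221193) (nat_lit 11) (.e (nat_lit 336215) (nat_lit 13) (.e (nat_lit 393271) (nat_lit 23) (.e (nat_lit 426112) (nat_lit 1) (.e (nat_lit 164326) (nat_lit 230) .nil)))))) (.g (nat_lit 5) .nil .nil)))) (.nd (nat_lit 5) 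
(.lf (nat_lit 251923) (.g (nat_lit 2729) (.e (nat_lit 163884) (nat_lit 5) (.e (nat_lit 221193) (nat_lit 11) (.e (nat_lit 336213) (nat_lit 13) (.e (nat_lit 393281) (nat_lit 23) (.e (nat_lit 426100) (nat_lit 1) (.e (nat_lit 164330) (nat_lit 230) .nil)))))) (.g (nat_lit 5) .nil .nil))) 
(.lf (nat_lit 251955) (.g (nat_lit 2575) (.e (nat_lit 163884) (nat_lit 5) (.e (nat_lit 221193) (nat_lit 11) (.e (nat_lit 336220) (nat_lit 13) (.e (nat_lit 393281) (nat_lit 23) (.e (nat_lit 426098) (nat_lit 1) (.e (nat_lit 164325) (nat_lit 230) .nil)))))) (.g (nat_lit 6) .nil .nil))))) (.nd (nat_lit 4) (.nd (nat_lit 5) 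
(.lf (nat_lit 251915) (.g (nat_lit 828) (.e (nat_lit 163884) (nat_lit 5) (.e (nat_lit 221193) (nat_lit 11) (.e (nat_lit 336212) (nat_lit 13) (.e (nat_lit 393281) (nat_lit 23) .nil)))) .nil)) 
(.lf (nat_lit 251947) (.g (nat_lit 3417) (.e (nat_lit 163884) (nat_lit 5) (.e (nat_lit 221193) (nat_lit 11) (.e (nat_lit 336215) (nat_lit 13) (.e (nat_lit 393281) (nat_lit 23) (.e (nat_lit 426100) (nat_lit 1) (.e (nat_lit 164332) (nat_lit 230) .nil)))))) (.g (nat_lit 0) .nil .nil)))) (.nd (nat_lit 5) 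
(.lf (nat_lit 251931) (.g (nat_lit 2661) (.e (nat_lit 163884) (nat_lit 5) (.e (nat_lit 221193) (nat_lit 11) (.e (nat_lit 336214) (nat_lit 13) (.e (nat_lit 393281) (nat_lit 23) (.e (nat_lit 426099) (nat_lit 1) (.e (nat_lit 164332) (nat_lit 230) .nil)))))) (.g (nat_lit 0) .nil .nil))) 
(.lf (nat_lit 251963) (.g (nat_lit 2261) (.e (nat_lit 163884) (nat_lit 5) (.e (nat_lit 221193) (nat_lit 11) (.e (nat_lit 336221) (nat_lit 13) (.e (nat_lit 393281) (nat_lit 23) (.e (nat_lit 426099) (nat_lit 1) (.e (nat_lit 164332) (nat_lit 230) .nil)))))) (.g (nat_lit 6) .nil .nil)))))) (.nd (nat_lit 3) (.nd (nat_lit 4) (.nd (nat_lit 5) 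
(.lf (nat_lit 251911) (.g (nat_lit 2802) (.e (nat_lit 163884) (nat_lit 5) (.e (nat_lit 221193) (nat_lit 11) (.e (nat_lit 336088) (nat_lit 9) (.e (nat_lit 336443) (nat_lit 32) (.e (nat_lit 466972) (nat_lit 21) (.e (nat_lit 164329) (nat_lit 230) .nil)))))) (.g (nat_lit 5) .nil .nil))) 
(.lf (nat_lit 251943) (.g (nat_lit 3208) (.e (nat_lit 163884) (nat_lit 5) (.e (nat_lit 221193) (nat_lit 11) (.e (nat_lit 336215) (nat_lit 13) (.e (nat_lit 393281) (nat_lit 23) (.e (nat_lit 426098) (nat_lit 1) (.e (nat_lit 164332) (nat_lit 230) .nil)))))) (.g (nat_lit 6) .nil .nil)))) (.nd (nat_lit 5) 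
(.lf (nat_lit 251927) (.g (nat_lit 2761) (.e (nat_lit 163884) (nat_lit 5) (.e (nat_lit 221193) (nat_lit 11) (.e (nat_lit 336213) (nat_lit 13) (.e (nat_lit 393281) (nat_lit 23) (.e (nat_lit 426108) (nat_lit 1) (.e (nat_lit 164329) (nat_lit 230) .nil)))))) (.g (nat_lit 5) .nil .nil))) 
(.lf (nat_lit 251959) (.g (nat_lit 2373) (.e (nat_lit 163884) (nat_lit 5) (.e (nat_lit 221193) (nat_lit 11) (.e (nat_lit 336220) (nat_lit 13) (.e (nat_lit 393281) (nat_lit 23) (.e (nat_lit 426099) (nat_lit 1) (.e (nat_lit 164332) (nat_lit 230) .nil)))))) (.g (nat_lit 6) .nil .nil))))) (.nd (nat_lit 4) (.nd (nat_lit 5) 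
(.lf (nat_lit 251919) (.g (nat_lit 3126) (.e (nat_lit 163884) (nat_lit 5) (.e (nat_lit 221193) (nat_lit 11) (.e (nat_lit 336213) (nat_lit 13) (.e (nat_lit 393281) (nat_lit 23) (.e (nat_lit 426098) (nat_lit 1) (.e (nat_lit 164327) (nat_lit 230) .nil)))))) (.g (nat_lit 6) .nil .nil))) 
(.lf (nat_lit 251951) (.g (nat_lit 2308) (.e (nat_lit 163884) (nat_lit 5) (.e (nat_lit 221193) (nat_lit 11) (.e (nat_lit 336220) (nat_lit 13) (.e (nat_lit 393271) (nat_lit 23) (.e (nat_lit 426112) (nat_lit 1) (.e (nat_lit 164324) (nat_lit 230) .nil)))))) (.g (nat_lit 4) .nil .nil)))) (.nd (nat_lit 5) 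
(.lf (nat_lit 251935) (.g (nat_lit 3257) (.e (nat_lit 163884) (nat_lit 5) (.e (nat_lit 221193) (nat_lit 11) (.e (nat_lit 336214) (nat_lit 13) (.e (nat_lit 393281) (nat_lit 23) (.e (nat_lit 426108) (nat_lit 1) (.e (nat_lit 164332) (nat_lit 230) .nil)))))) (.g (nat_lit 6) .nil .nil))) 
(.lf (nat_lit 251967) (.g (nat_lit 2129) (.e (nat_lit 163884) (nat_lit 5) (.e (nat_lit 221193) (nat_lit 11) (.e (nat_lit 336221) (nat_lit 13) (.e (nat_lit 393283) (nat_lit 24) (.e (nat_lit 434209) (nat_lit 18) (.e (nat_lit 5223) (nat_lit 296) .nil)))))) (.g (nat_lit 5) .nil .nil)))))))))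

noncomputable def tv3267 : DT := (.nd (nat_lit 0) (.nd (nat_lit 1) (.nd (nat_lit 2) (.nd (nat_lit 3) (.nd (nat_lit 4) (.nd (nat_lit 5) 
(.lf (nat_lit 251968) (.g (nat_lit 286) (.e (nat_lit 163884) (nat_lit 5) (.e (nat_lit 221193) (nat_lit 11) (.e (nat_lit 336222) (nat_lit 13) .nil))) .nil)) 
(.lf (nat_lit 252000) (.g (nat_lit 3563) (.e (nat_lit 163884) (nat_lit 5) (.e (nat_lit 221194) (nat_lit 11) (.e (nat_lit 336012) (nat_lit 2) (.e (nat_lit 90178) (nat_lit 15) (.e (nat_lit 188453) (nat_lit 24) (.e (nat_lit 237312) (nat_lit 126) .nil)))))) (.g (nat_lit 4) .nil .nil)))) (.nd (nat_lit 5) 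
(.lf (nat_lit 251984) (.g (nat_lit 2027) (.e (nat_lit 163884) (nat_lit 5) (.e (nat_lit 221193) (nat_lit 11) (.e (nat_lit 336223) (nat_lit 13) (.e (nat_lit 393281) (nat_lit 23) (.e (nat_lit 426099) (nat_lit 1) (.e (nat_lit 164330) (nat_lit 230) .nil)))))) (.g (nat_lit 5) .nil .nil))) 
(.lf (nat_lit 252016) (.g (nat_lit 3516) (.e (nat_lit 163884) (nat_lit 5) (.e (nat_lit 221194) (nat_lit 11) (.e (nat_lit 336076) (nat_lit 9) (.e (nat_lit 336443) (nat_lit 32) (.e (nat_lit 466969) (nat_lit 21) (.e (nat_lit 164324) (nat_lit 230) .nil)))))) (.g (nat_lit 0) .nil .nil))))) (.nd (nat_lit 4) (.nd (nat_lit 5) 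
(.lf (nat_lit 251976) (.g (nat_lit 2714) (.e (nat_lit 163884) (nat_lit 5) (.e (nat_lit 221193) (nat_lit 11) (.e (nat_lit 336222) (nat_lit 13) (.e (nat_lit 393281) (nat_lit 23) (.e (nat_lit 426098) (nat_lit 1) (.e (nat_lit 164332) (nat_lit 230) .nil)))))) (.g (nat_lit 6) .nil .nil))) 
(.lf (nat_lit 252008) (.g (nat_lit 3914) (.e (nat_lit 163884) (nat_lit 5) (.e (nat_lit 221194) (nat_lit 11) (.e (nat_lit 336027) (nat_lit 3) (.e (nat_lit 98373) (nat_lit 29) (.e (nat_lit 450567) (nat_lit 0) .nil))))) .nil))) (.nd (nat_lit 5) 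
(.lf (nat_lit 251992) (.g (nat_lit 2278) (.e (nat_lit 163884) (nat_lit 5) (.e (nat_lit 221194) (nat_lit 11) (.e (nat_lit 336011) (nat_lit 2) (.e (nat_lit 90177) (nat_lit 15) .nil)))) .nil)) 
(.lf (nat_lit 252024) (.g (nat_lit 3116) (.e (nat_lit 163884) (nat_lit 5) (.e (nat_lit 221194) (nat_lit 11) (.e (nat_lit 336076) (nat_lit 9) (.e (nat_lit 336443) (nat_lit 32) (.e (nat_lit 466971) (nat_lit 21) (.e (nat_lit 164326) (nat_lit 230) .nil)))))) (.g (nat_lit 0) .nil .nil)))))) (.nd (nat_lit 3) (.nd (nat_lit 4) (.nd (nat_lit 5) 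
(.lf (nat_lit 251972) (.g (nat_lit 2143) (.e (nat_lit 163884) (nat_lit 5) (.e (nat_lit 221193) (nat_lit 11) (.e (nat_lit 336222) (nat_lit 13) (.e (nat_lit 393271) (nat_lit 23) (.e (nat_lit 426112) (nat_lit 1) (.e (nat_lit 164326) (nat_lit 230) .nil)))))) (.g (nat_lit 5) .nil .nil))) 
(.lf (nat_lit 252004) (.g (nat_lit 2534) (.e (nat_lit 163884) (nat_lit 5) (.e (nat_lit 221194) (nat_lit 11) (.e (nat_lit 336027) (nat_lit 3) (.e (nat_lit 98372) (nat_lit 29) .nil)))) .nil))) (.nd (nat_lit 5) 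
(.lf (nat_lit 251988) (.g (nat_lit 3244) (.e (nat_lit 163884) (nat_lit 5) (.e (nat_lit 221193) (nat_lit 11) (.e (nat_lit 336223) (nat_lit 13) (.e (nat_lit 393281) (nat_lit 23) (.e (nat_lit 426108) (nat_lit 1) (.e (nat_lit 164332) (nat_lit 230) .nil)))))) (.g (nat_lit 6) .nil .nil))) 
(.lf (nat_lit 252020) (.g (nat_lit 3293) (.e (nat_lit 163884) (nat_lit 5) (.e (nat_lit 221194) (nat_lit 11) (.e (nat_lit 336076) (nat_lit 9) (.e (nat_lit 336443) (nat_lit 32) (.e (nat_lit 466969) (nat_lit 21) (.e (nat_lit 164330) (nat_lit 230) .nil)))))) (.g (nat_lit 0) .nil .nil))))) (.nd (nat_lit 4) (.nd (nat_lit 5) 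
(.lf (nat_lit 251980) (.g (nat_lit 2369) (.e (nat_lit 163884) (nat_lit 5) (.e (nat_lit 221193) (nat_lit 11) (.e (nat_lit 336222) (nat_lit 13) (.e (nat_lit 393282) (nat_lit 24) (.e (nat_lit 434209) (nat_lit 18) (.e (nat_lit 5223) (nat_lit 296) .nil)))))) (.g (nat_lit 5) .nil .nil))) 
(.lf (nat_lit 252012) (.g (nat_lit 1568) (.e (nat_lit 163884) (nat_lit 5) (.e (nat_lit 221194) (nat_lit 11) (.e (nat_lit 336076) (nat_lit 9) (.e (nat_lit 336432) (nat_lit 30) .nil)))) .nil))) (.nd (nat_lit 5) 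
(.lf (nat_lit 251996) (.g (nat_lit 4815) (.e (nat_lit 163884) (nat_lit 5) (.e (nat_lit 221194) (nat_lit 11) (.e (nat_lit 336012) (nat_lit 2) (.e (nat_lit 90176) (nat_lit 15) (.e (nat_lit 188453) (nat_lit 24) (.e (nat_lit 237312) (nat_lit 126) .nil)))))) (.g (nat_lit 5) .nil .nil))) 
(.lf (nat_lit 252028) (.g (nat_lit 3242) (.e (nat_lit 163884) (nat_lit 5) (.e (nat_lit 221194) (nat_lit 11) (.e (nat_lit 336076) (nat_lit 9) (.e (nat_lit 336443) (nat_lit 32) (.e (nat_lit 466972) (nat_lit 21) (.e (nat_lit 164329) (nat_lit 230) .nil)))))) (.g (nat_lit 6) .nil .nil))))))) (.nd (nat_lit 2) (.nd (nat_lit 3) (.nd (nat_lit 4) (.nd (nat_lit 5) 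
(.lf (nat_lit 251970) (.g (nat_lit 2099) (.e (nat_lit 163884) (nat_lit 5) (.e (nat_lit 221193) (nat_lit 11) (.e (nat_lit 336222) (nat_lit 13) (.e (nat_lit 393266) (nat_lit 23) (.e (nat_lit 426109) (nat_lit 1) (.e (nat_lit 164326) (nat_lit 230) .nil)))))) (.g (nat_lit 6) .nil .nil))) 
(.lf (nat_lit 252002) (.g (nat_lit 4602) (.e (nat_lit 163884) (nat_lit 5) (.e (nat_lit 221194) (nat_lit 11) (.e (nat_lit 336012) (nat_lit 2) (.e (nat_lit 90178) (nat_lit 15) (.e (nat_lit 188455) (nat_lit 24) (.e (nat_lit 237312) (nat_lit 126) .nil)))))) (.g (nat_lit 5) .nil .nil)))) (.nd (nat_lit 5) 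
(.lf (nat_lit 251986) (.g (nat_lit 2513) (.e (nat_lit 163884) (nat_lit 5) (.e (nat_lit 221193) (nat_lit 11) (.e (nat_lit 336223) (nat_lit 13) (.e (nat_lit 393281) (nat_lit 23) (.e (nat_lit 426100) (nat_lit 1) (.e (nat_lit 164330) (nat_lit 230) .nil)))))) (.g (nat_lit 5) .nil .nil))) 
(.lf (nat_lit 252018) (.g (nat_lit 3222) (.e (nat_lit 163884) (nat_lit 5) (.e (nat_lit 221194) (nat_lit 11) (.e (nat_lit 336076) (nat_lit 9) (.e (nat_lit 336443) (nat_lit 32) (.e (nat_lit 466969) (nat_lit 21) (.e (nat_lit 164326) (nat_lit 230) .nil)))))) (.g (nat_lit 0) .nil .nil))))) (.nd (nat_lit 4) (.nd (nat_lit 5) 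
(.lf (nat_lit 251978) (.g (nat_lit 2199) (.e (nat_lit 163884) (nat_lit 5) (.e (nat_lit 221193) (nat_lit 11) (.e (nat_lit 336222) (nat_lit 13) (.e (nat_lit 393281) (nat_lit 23) (.e (nat_lit 426100) (nat_lit 1) (.e (nat_lit 164329) (nat_lit 230) .nil)))))) (.g (nat_lit 5) .nil .nil))) 
(.lf (nat_lit 252010) (.g (nat_lit 437) (.e (nat_lit 163884) (nat_lit 5) (.e (nat_lit 221194) (nat_lit 11) (.e (nat_lit 336076) (nat_lit 9) .nil))) .nil))) (.nd (nat_lit 5) 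
(.lf (nat_lit 251994) (.g (nat_lit 2559) (.e (nat_lit 163884) (nat_lit 5) (.e (nat_lit 221194) (nat_lit 11) (.e (nat_lit 336012) (nat_lit 2) (.e (nat_lit 90176) (nat_lit 15) .nil)))) .nil)) 
(.lf (nat_lit 252026) (.g (nat_lit 3200) (.e (nat_lit 163884) (nat_lit 5) (.e (nat_lit 221194) (nat_lit 11) (.e (nat_lit 336076) (nat_lit 9) (.e (nat_lit 336443) (nat_lit 32) (.e (nat_lit 466971) (nat_lit 21) (.e (nat_lit 164331) (nat_lit 230) .nil)))))) (.g (nat_lit 6) .nil .nil)))))) (.nd (nat_lit 3) (.nd (nat_lit 4) (.nd (nat_lit 5) 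
(.lf (nat_lit 251974) (.g (nat_lit 1939) (.e (nat_lit 163884) (nat_lit 5) (.e (nat_lit 221193) (nat_lit 11) (.e (nat_lit 336222) (nat_lit 13) (.e (nat_lit 393275) (nat_lit 23) (.e (nat_lit 426109) (nat_lit 1) (.e (nat_lit 164326) (nat_lit 230) .nil)))))) (.g (nat_lit 5) .nil .nil))) 
(.lf (nat_lit 252006) (.g (nat_lit 2145) (.e (nat_lit 163884) (nat_lit 5) (.e (nat_lit 221194) (nat_lit 11) (.e (nat_lit 336027) (nat_lit 3) (.e (nat_lit 98373) (nat_lit 29) .nil)))) .nil))) (.nd (nat_lit 5) 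
(.lf (nat_lit 251990) (.g (nat_lit 1062) (.e (nat_lit 163884) (nat_lit 5) (.e (nat_lit 221194) (nat_lit 11) (.e (nat_lit 336011) (nat_lit 2) .nil))) .nil)) 
(.lf (nat_lit 252022) (.g (nat_lit 3418) (.e (nat_lit 163884) (nat_lit 5) (.e (nat_lit 221194) (nat_lit 11) (.e (nat_lit 336076) (nat_lit 9) (.e (nat_lit 336443) (nat_lit 32) (.e (nat_lit 466971) (nat_lit 21) (.e (nat_lit 164324) (nat_lit 230) .nil)))))) (.g (nat_lit 0) .nil .nil))))) (.nd (nat_lit 4) (.nd (nat_lit 5) 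
(.lf (nat_lit 251982) (.g (nat_lit 1499) (.e (nat_lit 163884) (nat_lit 5) (.e (nat_lit 221193) (nat_lit 11) (.e (nat_lit 336222) (nat_lit 13) (.e (nat_lit 393284) (nat_lit 24) (.e (nat_lit 434209) (nat_lit 18) .nil))))) .nil)) 
(.lf (nat_lit 252014) (.g (nat_lit 2149) (.e (nat_lit 163884) (nat_lit 5) (.e (nat_lit 221194) (nat_lit 11) (.e (nat_lit 336076) (nat_lit 9) (.e (nat_lit 336443) (nat_lit 32) (.e (nat_lit 466968) (nat_lit 21) (.e (nat_lit 164332) (nat_lit 230) .nil)))))) (.g (nat_lit 4) .nil .nil)))) (.nd (nat_lit 5) 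
(.lf (nat_lit 251998) (.g (nat_lit 4070) (.e (nat_lit 163884) (nat_lit 5) (.e (nat_lit 221194) (nat_lit 11) (.e (nat_lit 336012) (nat_lit 2) (.e (nat_lit 90176) (nat_lit 15) (.e (nat_lit 188455) (nat_lit 24) (.e (nat_lit 237312) (nat_lit 126) .nil)))))) (.g (nat_lit 4) .nil .nil))) 
(.lf (nat_lit 252030) (.g (nat_lit 536) (.e (nat_lit 163884) (nat_lit 5) (.e (nat_lit 221194) (nat_lit 11) (.e (nat_lit 336077) (nat_lit 9) .nil))) .nil))))))) (.nd (nat_lit 1) (.nd (nat_lit 2) (.nd (nat_lit 3) (.nd (nat_lit 4) (.nd (nat_lit 5) 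
(.lf (nat_lit 251969) (.g (nat_lit 2070) (.e (nat_lit 163884) (nat_lit 5) (.e (nat_lit 221193) (nat_lit 11) (.e (nat_lit 336222) (nat_lit 13) (.e (nat_lit 393266) (nat_lit 23) (.e (nat_lit 426109) (nat_lit 1) (.e (nat_lit 164322) (nat_lit 230) .nil)))))) (.g (nat_lit 5) .nil .nil))) 
(.lf (nat_lit 252001) (.g (nat_lit 4062) (.e (nat_lit 163884) (nat_lit 5) (.e (nat_lit 221194) (nat_lit 11) (.e (nat_lit 336012) (nat_lit 2) (.e (nat_lit 90178) (nat_lit 15) (.e (nat_lit 188455) (nat_lit 24) (.e (nat_lit 229520) (nat_lit 126) .nil)))))) (.g (nat_lit 4) .nil .nil)))) (.nd (nat_lit 5) 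
(.lf (nat_lit 251985) (.g (nat_lit 2251) (.e (nat_lit 163884) (nat_lit 5) (.e (nat_lit 221193) (nat_lit 11) (.e (nat_lit 336223) (nat_lit 13) (.e (nat_lit 393281) (nat_lit 23) (.e (nat_lit 426100) (nat_lit 1) (.e (nat_lit 164329) (nat_lit 230) .nil)))))) (.g (nat_lit 5) .nil .nil))) 
(.lf (nat_lit 252017) (.g (nat_lit 3411) (.e (nat_lit 163884) (nat_lit 5) (.e (nat_lit 221194) (nat_lit 11) (.e (nat_lit 336076) (nat_lit 9) (.e (nat_lit 336443) (nat_lit 32) (.e (nat_lit 466969) (nat_lit 21) (.e (nat_lit 164325) (nat_lit 230) .nil)))))) (.g (nat_lit 0) .nil .nil))))) (.nd (nat_lit 4) (.nd (nat_lit 5) 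
(.lf (nat_lit 251977) (.g (nat_lit 1601) (.e (nat_lit 163884) (nat_lit 5) (.e (nat_lit 221193) (nat_lit 11) (.e (nat_lit 336222) (nat_lit 13) (.e (nat_lit 393281) (nat_lit 23) (.e (nat_lit 426099) (nat_lit 1) (.e (nat_lit 164329) (nat_lit 230) .nil)))))) (.g (nat_lit 4) .nil .nil))) 
(.lf (nat_lit 252009) (.g (nat_lit 739) (.e (nat_lit 163884) (nat_lit 5) (.e (nat_lit 221194) (nat_lit 11) (.e (nat_lit 336075) (nat_lit 9) .nil))) .nil))) (.nd (nat_lit 5) 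
(.lf (nat_lit 251993) (.g (nat_lit 1517) (.e (nat_lit 163884) (nat_lit 5) (.e (nat_lit 221194) (nat_lit 11) (.e (nat_lit 336012) (nat_lit 2) .nil))) .nil)) 
(.lf (nat_lit 252025) (.g (nat_lit 2872) (.e (nat_lit 163884) (nat_lit 5) (.e (nat_lit 221194) (nat_lit 11) (.e (nat_lit 336076) (nat_lit 9) (.e (nat_lit 336443) (nat_lit 32) (.e (nat_lit 466971) (nat_lit 21) (.e (nat_lit 164329) (nat_lit 230) .nil)))))) (.g (nat_lit 5) .nil .nil)))))) (.nd (nat_lit 3) (.nd (nat_lit 4) (.nd (nat_lit 5) 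
(.lf (nat_lit 251973) (.g (nat_lit 1674) (.e (nat_lit 163884) (nat_lit 5) (.e (nat_lit 221193) (nat_lit 11) (.e (nat_lit 336222) (nat_lit 13) (.e (nat_lit 393275) (nat_lit 23) (.e (nat_lit 426109) (nat_lit 1) (.e (nat_lit 164322) (nat_lit 230) .nil)))))) (.g (nat_lit 4) .nil .nil))) 
(.lf (nat_lit 252005) (.g (nat_lit 3705) (.e (nat_lit 163884) (nat_lit 5) (.e (nat_lit 221194) (nat_lit 11) (.e (nat_lit 336027) (nat_lit 3) (.e (nat_lit 98372) (nat_lit 29) (.e (nat_lit 450568) (nat_lit 0) .nil))))) .nil))) (.nd (nat_lit 5) 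
(.lf (nat_lit 251989) (.g (nat_lit 558) (.e (nat_lit 163884) (nat_lit 5) (.e (nat_lit 221194) (nat_lit 11) (.e (nat_lit 336010) (nat_lit 2) .nil))) .nil)) 
(.lf (nat_lit 252021) (.g (nat_lit 3174) (.e (nat_lit 163884) (nat_lit 5) (.e (nat_lit 221194) (nat_lit 11) (.e (nat_lit 336076) (nat_lit 9) (.e (nat_lit 336443) (nat_lit 32) (.e (nat_lit 466971) (nat_lit 21) (.e (nat_lit 164322) (nat_lit 230) .nil)))))) (.g (nat_lit 6) .nil .nil))))) (.nd (nat_lit 4) (.nd (nat_lit 5) 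
(.lf (nat_lit 251981) (.g (nat_lit 2147) (.e (nat_lit 163884) (nat_lit 5) (.e (nat_lit 221193) (nat_lit 11) (.e (nat_lit 336222) (nat_lit 13) (.e (nat_lit 393283) (nat_lit 24) (.e (nat_lit 434209) (nat_lit 18) (.e (nat_lit 5223) (nat_lit 296) .nil)))))) (.g (nat_lit 5) .nil .nil))) 
(.lf (nat_lit 252013) (.g (nat_lit 1574) (.e (nat_lit 163884) (nat_lit 5) (.e (nat_lit 221194) (nat_lit 11) (.e (nat_lit 336076) (nat_lit 9) (.e (nat_lit 336434) (nat_lit 30) .nil)))) .nil))) (.nd (nat_lit 5) 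
(.lf (nat_lit 251997) (.g (nat_lit 3529) (.e (nat_lit 163884) (nat_lit 5) (.e (nat_lit 221194) (nat_lit 11) (.e (nat_lit 336012) (nat_lit 2) (.e (nat_lit 90176) (nat_lit 15) (.e (nat_lit 188455) (nat_lit 24) (.e (nat_lit 229520) (nat_lit 126) .nil)))))) (.g (nat_lit 4) .nil .nil))) 
(.lf (nat_lit 252029) (.g (nat_lit 3600) (.e (nat_lit 163884) (nat_lit 5) (.e (nat_lit 221194) (nat_lit 11) (.e (nat_lit 336076) (nat_lit 9) (.e (nat_lit 336443) (nat_lit 32) (.e (nat_lit 466972) (nat_lit 21) (.e (nat_lit 164330) (nat_lit 230) .nil)))))) (.g (nat_lit 0) .nil .nil))))))) (.nd (nat_lit 2) (.nd (nat_lit 3) (.nd (nat_lit 4) (.nd (nat_lit 5) 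
(.lf (nat_lit 251971) (.g (nat_lit 2319) (.e (nat_lit 163884) (nat_lit 5) (.e (nat_lit 221193) (nat_lit 11) (.e (nat_lit 336222) (nat_lit 13) (.e (nat_lit 393271) (nat_lit 23) (.e (nat_lit 426112) (nat_lit 1) (.e (nat_lit 164324) (nat_lit 230) .nil)))))) (.g (nat_lit 5) .nil .nil))) 
(.lf (nat_lit 252003) (.g (nat_lit 1335) (.e (nat_lit 163884) (nat_lit 5) (.e (nat_lit 221194) (nat_lit 11) (.e (nat_lit 336027) (nat_lit 3) .nil))) .nil))) (.nd (nat_lit 5) 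
(.lf (nat_lit 251987) (.g (nat_lit 2456) (.e (nat_lit 163884) (nat_lit 5) (.e (nat_lit 221193) (nat_lit 11) (.e (nat_lit 336223) (nat_lit 13) (.e (nat_lit 393281) (nat_lit 23) (.e (nat_lit 426108) (nat_lit 1) (.e (nat_lit 164329) (nat_lit 230) .nil)))))) (.g (nat_lit 5) .nil .nil))) 
(.lf (nat_lit 252019) (.g (nat_lit 3180) (.e (nat_lit 163884) (nat_lit 5) (.e (nat_lit 221194) (nat_lit 11) (.e (nat_lit 336076) (nat_lit 9) (.e (nat_lit 336443) (nat_lit 32) (.e (nat_lit 466969) (nat_lit 21) (.e (nat_lit 164329) (nat_lit 230) .nil)))))) (.g (nat_lit 0) .nil .nil))))) (.nd (nat_lit 4) (.nd (nat_lit 5) 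
(.lf (nat_lit 251979) (.g (nat_lit 3195) (.e (nat_lit 163884) (nat_lit 5) (.e (nat_lit 221193) (nat_lit 11) (.e (nat_lit 336222) (nat_lit 13) (.e (nat_lit 393281) (nat_lit 23) (.e (nat_lit 426108) (nat_lit 1) (.e (nat_lit 164332) (nat_lit 230) .nil)))))) (.g (nat_lit 6) .nil .nil))) 
(.lf (nat_lit 252011) (.g (nat_lit 1924) (.e (nat_lit 163884) (nat_lit 5) (.e (nat_lit 221194) (nat_lit 11) (.e (nat_lit 336076) (nat_lit 9) (.e (nat_lit 336426) (nat_lit 29) (.e (nat_lit 442421) (nat_lit 21) (.e (nat_lit 164324) (nat_lit 230) .nil)))))) (.g (nat_lit 4) .nil .nil)))) (.nd (nat_lit 5) 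
(.lf (nat_lit 251995) (.g (nat_lit 4093) (.e (nat_lit 163884) (nat_lit 5) (.e (nat_lit 221194) (nat_lit 11) (.e (nat_lit 336012) (nat_lit 2) (.e (nat_lit 90176) (nat_lit 15) (.e (nat_lit 188453) (nat_lit 24) (.e (nat_lit 229520) (nat_lit 126) .nil)))))) (.g (nat_lit 4) .nil .nil))) 
(.lf (nat_lit 252027) (.g (nat_lit 3302) (.e (nat_lit 163884) (nat_lit 5) (.e (nat_lit 221194) (nat_lit 11) (.e (nat_lit 336076) (nat_lit 9) (.e (nat_lit 336443) (nat_lit 32) (.e (nat_lit 466971) (nat_lit 21) (.e (nat_lit 164332) (nat_lit 230) .nil)))))) (.g (nat_lit 6) .nil .nil)))))) (.nd (nat_lit 3) (.nd (nat_lit 4) (.nd (nat_lit 5) 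
(.lf (nat_lit 251975) (.g (nat_lit 2659) (.e (nat_lit 163884) (nat_lit 5) (.e (nat_lit 221193) (nat_lit 11) (.e (nat_lit 336222) (nat_lit 13) (.e (nat_lit 393281) (nat_lit 23) (.e (nat_lit 426098) (nat_lit 1) (.e (nat_lit 164325) (nat_lit 230) .nil)))))) (.g (nat_lit 6) .nil .nil))) 
(.lf (nat_lit 252007) (.g (nat_lit 3909) (.e (nat_lit 163884) (nat_lit 5) (.e (nat_lit 221194) (nat_lit 11) (.e (nat_lit 336027) (nat_lit 3) (.e (nat_lit 98373) (nat_lit 29) (.e (nat_lit 450562) (nat_lit 0) (.e (nat_lit 7936) (nat_lit 249) .nil)))))) (.g (nat_lit 4) .nil .nil)))) (.nd (nat_lit 5) 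
(.lf (nat_lit 251991) (.g (nat_lit 3006) (.e (nat_lit 163884) (nat_lit 5) (.e (nat_lit 221194) (nat_lit 11) (.e (nat_lit 336011) (nat_lit 2) (.e (nat_lit 90170) (nat_lit 13) (.e (nat_lit 172106) (nat_lit 10) .nil))))) .nil)) 
(.lf (nat_lit 252023) (.g (nat_lit 3284) (.e (nat_lit 163884) (nat_lit 5) (.e (nat_lit 221194) (nat_lit 11) (.e (nat_lit 336076) (nat_lit 9) (.e (nat_lit 336443) (nat_lit 32) (.e (nat_lit 466971) (nat_lit 21) (.e (nat_lit 164325) (nat_lit 230) .nil)))))) (.g (nat_lit 0) .nil .nil))))) (.nd (nat_lit 4) (.nd (nat_lit 5) 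
(.lf (nat_lit 251983) (.g (nat_lit 1686) (.e (nat_lit 163884) (nat_lit 5) (.e (nat_lit 221193) (nat_lit 11) (.e (nat_lit 336223) (nat_lit 13) (.e (nat_lit 393281) (nat_lit 23) (.e (nat_lit 426099) (nat_lit 1) (.e (nat_lit 164329) (nat_lit 230) .nil)))))) (.g (nat_lit 4) .nil .nil))) 
(.lf (nat_lit 252015) (.g (nat_lit 2477) (.e (nat_lit 163884) (nat_lit 5) (.e (nat_lit 221194) (nat_lit 11) (.e (nat_lit 336076) (nat_lit 9) (.e (nat_lit 336443) (nat_lit 32) (.e (nat_lit 466969) (nat_lit 21) (.e (nat_lit 164322) (nat_lit 230) .nil)))))) (.g (nat_lit 5) .nil .nil)))) (.nd (nat_lit 5) 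
(.lf (nat_lit 251999) (.g (nat_lit 3467) (.e (nat_lit 163884) (nat_lit 5) (.e (nat_lit 221194) (nat_lit 11) (.e (nat_lit 336012) (nat_lit 2) (.e (nat_lit 90177) (nat_lit 15) (.e (nat_lit 188455) (nat_lit 24) .nil))))) .nil)) 
(.lf (nat_lit 252031) (.g (nat_lit 373) (.e (nat_lit 163884) (nat_lit 5) (.e (nat_lit 221194) (nat_lit 11) (.e (nat_lit 336078) (nat_lit 9) .nil))) .nil))))))))

noncomputable def tv3268 : DT := (.nd (nat_lit 0) (.nd (nat_lit 1) (.nd (nat_lit 2) (.nd (nat_lit 3) (.nd (nat_lit 4) (.nd (nat_lit 5) 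
(.lf (nat_lit 252032) (.g (nat_lit 1865) (.e (nat_lit 163884) (nat_lit 5) (.e (nat_lit 221194) (nat_lit 11) (.e (nat_lit 336078) (nat_lit 9) (.e (nat_lit 336443) (nat_lit 32) (.e (nat_lit 466968) (nat_lit 21) .nil))))) .nil)) 
(.lf (nat_lit 252064) (.g (nat_lit 3385) (.e (nat_lit 163884) (nat_lit 5) (.e (nat_lit 221194) (nat_lit 11) (.e (nat_lit 336085) (nat_lit 9) (.e (nat_lit 336443) (nat_lit 32) (.e (nat_lit 466971) (nat_lit 21) (.e (nat_lit 164322) (nat_lit 230) .nil)))))) (.g (nat_lit 6) .nil .nil)))) (.nd (nat_lit 5) 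
(.lf (nat_lit 252048) (.g (nat_lit 2871) (.e (nat_lit 163884) (nat_lit 5) (.e (nat_lit 221194) (nat_lit 11) (.e (nat_lit 336085) (nat_lit 9) (.e (nat_lit 336426) (nat_lit 29) (.e (nat_lit 442421) (nat_lit 21) (.e (nat_lit 164326) (nat_lit 230) .nil)))))) (.g (nat_lit 6) .nil .nil))) 
(.lf (nat_lit 252080) (.g (nat_lit 3096) (.e (nat_lit 163884) (nat_lit 5) (.e (nat_lit 221194) (nat_lit 11) (.e (nat_lit 336086) (nat_lit 9) (.e (nat_lit 336430) (nat_lit 29) (.e (nat_lit 442419) (nat_lit 21) (.e (nat_lit 164322) (nat_lit 230) .nil)))))) (.g (nat_lit 6) .nil .nil))))) (.nd (nat_lit 4) (.nd (nat_lit 5) 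
(.lf (nat_lit 252040) (.g (nat_lit 3301) (.e (nat_lit 163884) (nat_lit 5) (.e (nat_lit 221194) (nat_lit 11) (.e (nat_lit 336078) (nat_lit 9) (.e (nat_lit 336443) (nat_lit 32) (.e (nat_lit 466971) (nat_lit 21) (.e (nat_lit 164324) (nat_lit 230) .nil)))))) (.g (nat_lit 0) .nil .nil))) 
(.lf (nat_lit 252072) (.g (nat_lit 3713) (.e (nat_lit 163884) (nat_lit 5) (.e (nat_lit 221194) (nat_lit 11) (.e (nat_lit 336085) (nat_lit 9) (.e (nat_lit 336443) (nat_lit 32) (.e (nat_lit 466972) (nat_lit 21) (.e (nat_lit 164332) (nat_lit 230) .nil)))))) (.g (nat_lit 0) .nil .nil)))) (.nd (nat_lit 5) 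
(.lf (nat_lit 252056) (.g (nat_lit 2341) (.e (nat_lit 163884) (nat_lit 5) (.e (nat_lit 221194) (nat_lit 11) (.e (nat_lit 336085) (nat_lit 9) (.e (nat_lit 336443) (nat_lit 32) (.e (nat_lit 466968) (nat_lit 21) (.e (nat_lit 164332) (nat_lit 230) .nil)))))) (.g (nat_lit 4) .nil .nil))) 
(.lf (nat_lit 252088) (.g (nat_lit 3426) (.e (nat_lit 163884) (nat_lit 5) (.e (nat_lit 221194) (nat_lit 11) (.e (nat_lit 336086) (nat_lit 9) (.e (nat_lit 336430) (nat_lit 29) (.e (nat_lit 442421) (nat_lit 21) (.e (nat_lit 164327) (nat_lit 230) .nil)))))) (.g (nat_lit 0) .nil .nil)))))) (.nd (nat_lit 3) (.nd (nat_lit 4) (.nd (nat_lit 5) 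
(.lf (nat_lit 252036) (.g (nat_lit 3160) (.e (nat_lit 163884) (nat_lit 5) (.e (nat_lit 221194) (nat_lit 11) (.e (nat_lit 336078) (nat_lit 9) (.e (nat_lit 336443) (nat_lit 32) (.e (nat_lit 466969) (nat_lit 21) (.e (nat_lit 164326) (nat_lit 230) .nil)))))) (.g (nat_lit 0) .nil .nil))) 
(.lf (nat_lit 252068) (.g (nat_lit 3011) (.e (nat_lit 163884) (nat_lit 5) (.e (nat_lit 221194) (nat_lit 11) (.e (nat_lit 336085) (nat_lit 9) (.e (nat_lit 336443) (nat_lit 32) (.e (nat_lit 466971) (nat_lit 21) (.e (nat_lit 164329) (nat_lit 230) .nil)))))) (.g (nat_lit 5) .nil .nil)))) (.nd (nat_lit 5) 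
(.lf (nat_lit 252052) (.g (nat_lit 2985) (.e (nat_lit 163884) (nat_lit 5) (.e (nat_lit 221194) (nat_lit 11) (.e (nat_lit 336085) (nat_lit 9) (.e (nat_lit 336432) (nat_lit 30) (.e (nat_lit 450565) (nat_lit 0) (.e (nat_lit 5224) (nat_lit 296) .nil)))))) (.g (nat_lit 0) .nil .nil))) 
(.lf (nat_lit 252084) (.g (nat_lit 3778) (.e (nat_lit 163884) (nat_lit 5) (.e (nat_lit 221194) (nat_lit 11) (.e (nat_lit 336086) (nat_lit 9) (.e (nat_lit 336430) (nat_lit 29) (.e (nat_lit 442419) (nat_lit 21) (.e (nat_lit 164331) (nat_lit 230) .nil)))))) (.g (nat_lit 0) .nil .nil))))) (.nd (nat_lit 4) (.nd (nat_lit 5) 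
(.lf (nat_lit 252044) (.g (nat_lit 3150) (.e (nat_lit 163884) (nat_lit 5) (.e (nat_lit 221194) (nat_lit 11) (.e (nat_lit 336078) (nat_lit 9) (.e (nat_lit 336443) (nat_lit 32) (.e (nat_lit 466972) (nat_lit 21) (.e (nat_lit 164329) (nat_lit 230) .nil)))))) (.g (nat_lit 6) .nil .nil))) 
(.lf (nat_lit 252076) (.g (nat_lit 1034) (.e (nat_lit 163884) (nat_lit 5) (.e (nat_lit 221194) (nat_lit 11) (.e (nat_lit 336086) (nat_lit 9) (.e (nat_lit 336426) (nat_lit 29) .nil)))) .nil))) (.nd (nat_lit 5) 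
(.lf (nat_lit 252060) (.g (nat_lit 3471) (.e (nat_lit 163884) (nat_lit 5) (.e (nat_lit 221194) (nat_lit 11) (.e (nat_lit 336085) (nat_lit 9) (.e (nat_lit 336443) (nat_lit 32) (.e (nat_lit 466969) (nat_lit 21) (.e (nat_lit 164326) (nat_lit 230) .nil)))))) (.g (nat_lit 0) .nil .nil))) 
(.lf (nat_lit 252092) (.g (nat_lit 3506) (.e (nat_lit 163884) (nat_lit 5) (.e (nat_lit 221194) (nat_lit 11) (.e (nat_lit 336086) (nat_lit 9) (.e (nat_lit 336443) (nat_lit 32) (.e (nat_lit 466969) (nat_lit 21) (.e (nat_lit 164324) (nat_lit 230) .nil)))))) (.g (nat_lit 0) .nil .nil))))))) (.nd (nat_lit 2) (.nd (nat_lit 3) (.nd (nat_lit 4) (.nd (nat_lit 5) 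
(.lf (nat_lit 252034) (.g (nat_lit 2426) (.e (nat_lit 163884) (nat_lit 5) (.e (nat_lit 221194) (nat_lit 11) (.e (nat_lit 336078) (nat_lit 9) (.e (nat_lit 336443) (nat_lit 32) (.e (nat_lit 466969) (nat_lit 21) (.e (nat_lit 164322) (nat_lit 230) .nil)))))) (.g (nat_lit 5) .nil .nil))) 
(.lf (nat_lit 252066) (.g (nat_lit 3423) (.e (nat_lit 163884) (nat_lit 5) (.e (nat_lit 221194) (nat_lit 11) (.e (nat_lit 336085) (nat_lit 9) (.e (nat_lit 336443) (nat_lit 32) (.e (nat_lit 466971) (nat_lit 21) (.e (nat_lit 164325) (nat_lit 230) .nil)))))) (.g (nat_lit 0) .nil .nil)))) (.nd (nat_lit 5) 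
(.lf (nat_lit 252050) (.g (nat_lit 2030) (.e (nat_lit 163884) (nat_lit 5) (.e (nat_lit 221194) (nat_lit 11) (.e (nat_lit 336085) (nat_lit 9) (.e (nat_lit 336430) (nat_lit 29) (.e (nat_lit 442421) (nat_lit 21) (.e (nat_lit 164322) (nat_lit 230) .nil)))))) (.g (nat_lit 4) .nil .nil))) 
(.lf (nat_lit 252082) (.g (nat_lit 3183) (.e (nat_lit 163884) (nat_lit 5) (.e (nat_lit 221194) (nat_lit 11) (.e (nat_lit 336086) (nat_lit 9) (.e (nat_lit 336430) (nat_lit 29) (.e (nat_lit 442419) (nat_lit 21) (.e (nat_lit 164326) (nat_lit 230) .nil)))))) (.g (nat_lit 0) .nil .nil))))) (.nd (nat_lit 4) (.nd (nat_lit 5) 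
(.lf (nat_lit 252042) (.g (nat_lit 2795) (.e (nat_lit 163884) (nat_lit 5) (.e (nat_lit 221194) (nat_lit 11) (.e (nat_lit 336078) (nat_lit 9) (.e (nat_lit 336443) (nat_lit 32) (.e (nat_lit 466971) (nat_lit 21) (.e (nat_lit 164329) (nat_lit 230) .nil)))))) (.g (nat_lit 6) .nil .nil))) 
(.lf (nat_lit 252074) (.g (nat_lit 2445) (.e (nat_lit 163884) (nat_lit 5) (.e (nat_lit 221194) (nat_lit 11) (.e (nat_lit 336085) (nat_lit 9) (.e (nat_lit 336444) (nat_lit 32) (.e (nat_lit 466971) (nat_lit 21) (.e (nat_lit 164326) (nat_lit 230) .nil)))))) (.g (nat_lit 0) .nil .nil)))) (.nd (nat_lit 5) 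
(.lf (nat_lit 252058) (.g (nat_lit 3769) (.e (nat_lit 163884) (nat_lit 5) (.e (nat_lit 221194) (nat_lit 11) (.e (nat_lit 336085) (nat_lit 9) (.e (nat_lit 336443) (nat_lit 32) (.e (nat_lit 466969) (nat_lit 21) (.e (nat_lit 164324) (nat_lit 230) .nil)))))) (.g (nat_lit 0) .nil .nil))) 
(.lf (nat_lit 252090) (.g (nat_lit 1940) (.e (nat_lit 163884) (nat_lit 5) (.e (nat_lit 221194) (nat_lit 11) (.e (nat_lit 336086) (nat_lit 9) (.e (nat_lit 336443) (nat_lit 32) (.e (nat_lit 466968) (nat_lit 21) (.e (nat_lit 164329) (nat_lit 230) .nil)))))) (.g (nat_lit 4) .nil .nil)))))) (.nd (nat_lit 3) (.nd (nat_lit 4) (.nd (nat_lit 5) 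
(.lf (nat_lit 252038) (.g (nat_lit 3240) (.e (nat_lit 163884) (nat_lit 5) (.e (nat_lit 221194) (nat_lit 11) (.e (nat_lit 336078) (nat_lit 9) (.e (nat_lit 336443) (nat_lit 32) (.e (nat_lit 466969) (nat_lit 21) (.e (nat_lit 164330) (nat_lit 230) .nil)))))) (.g (nat_lit 0) .nil .nil))) 
(.lf (nat_lit 252070) (.g (nat_lit 3385) (.e (nat_lit 163884) (nat_lit 5) (.e (nat_lit 221194) (nat_lit 11) (.e (nat_lit 336085) (nat_lit 9) (.e (nat_lit 336443) (nat_lit 32) (.e (nat_lit 466972) (nat_lit 21) (.e (nat_lit 164329) (nat_lit 230) .nil)))))) (.g (nat_lit 6) .nil .nil)))) (.nd (nat_lit 5) 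
(.lf (nat_lit 252054) (.g (nat_lit 725) (.e (nat_lit 163884) (nat_lit 5) (.e (nat_lit 221194) (nat_lit 11) (.e (nat_lit 336085) (nat_lit 9) (.e (nat_lit 336441) (nat_lit 32) .nil)))) .nil)) 
(.lf (nat_lit 252086) (.g (nat_lit 3641) (.e (nat_lit 163884) (nat_lit 5) (.e (nat_lit 221194) (nat_lit 11) (.e (nat_lit 336086) (nat_lit 9) (.e (nat_lit 336430) (nat_lit 29) (.e (nat_lit 442421) (nat_lit 21) (.e (nat_lit 164324) (nat_lit 230) .nil)))))) (.g (nat_lit 0) .nil .nil))))) (.nd (nat_lit 4) (.nd (nat_lit 5) 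
(.lf (nat_lit 252046) (.g (nat_lit 726) (.e (nat_lit 163884) (nat_lit 5) (.e (nat_lit 221194) (nat_lit 11) (.e (nat_lit 336084) (nat_lit 9) .nil))) .nil)) 
(.lf (nat_lit 252078) (.g (nat_lit 3481) (.e (nat_lit 163884) (nat_lit 5) (.e (nat_lit 221194) (nat_lit 11) (.e (nat_lit 336086) (nat_lit 9) (.e (nat_lit 336426) (nat_lit 29) (.e (nat_lit 442421) (nat_lit 21) (.e (nat_lit 164326) (nat_lit 230) .nil)))))) (.g (nat_lit 0) .nil .nil)))) (.nd (nat_lit 5) 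
(.lf (nat_lit 252062) (.g (nat_lit 3551) (.e (nat_lit 163884) (nat_lit 5) (.e (nat_lit 221194) (nat_lit 11) (.e (nat_lit 336085) (nat_lit 9) (.e (nat_lit 336443) (nat_lit 32) (.e (nat_lit 466969) (nat_lit 21) (.e (nat_lit 164330) (nat_lit 230) .nil)))))) (.g (nat_lit 6) .nil .nil))) 
(.lf (nat_lit 252094) (.g (nat_lit 3207) (.e (nat_lit 163884) (nat_lit 5) (.e (nat_lit 221194) (nat_lit 11) (.e (nat_lit 336086) (nat_lit 9) (.e (nat_lit 336443) (nat_lit 32) (.e (nat_lit 466969) (nat_lit 21) (.e (nat_lit 164326) (nat_lit 230) .nil)))))) (.g (nat_lit 0) .nil .nil)))))))) (.nd (nat_lit 1) (.nd (nat_lit 2) (.nd (nat_lit 3) (.nd (nat_lit 4) (.nd (nat_lit 5) 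
(.lf (nat_lit 252033) (.g (nat_lit 2371) (.e (nat_lit 163884) (nat_lit 5) (.e (nat_lit 221194) (nat_lit 11) (.e (nat_lit 336078) (nat_lit 9) (.e (nat_lit 336443) (nat_lit 32) (.e (nat_lit 466968) (nat_lit 21) (.e (nat_lit 164332) (nat_lit 230) .nil)))))) (.g (nat_lit 4) .nil .nil))) 
(.lf (nat_lit 252065) (.g (nat_lit 3601) (.e (nat_lit 163884) (nat_lit 5) (.e (nat_lit 221194) (nat_lit 11) (.e (nat_lit 336085) (nat_lit 9) (.e (nat_lit 336443) (nat_lit 32) (.e (nat_lit 466971) (nat_lit 21) (.e (nat_lit 164324) (nat_lit 230) .nil)))))) (.g (nat_lit 0) .nil .nil)))) (.nd (nat_lit 5) 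
(.lf (nat_lit 252049) (.g (nat_lit 1946) (.e (nat_lit 163884) (nat_lit 5) (.e (nat_lit 221194) (nat_lit 11) (.e (nat_lit 336085) (nat_lit 9) (.e (nat_lit 336430) (nat_lit 29) (.e (nat_lit 442419) (nat_lit 21) (.e (nat_lit 164322) (nat_lit 230) .nil)))))) (.g (nat_lit 4) .nil .nil))) 
(.lf (nat_lit 252081) (.g (nat_lit 2908) (.e (nat_lit 163884) (nat_lit 5) (.e (nat_lit 221194) (nat_lit 11) (.e (nat_lit 336086) (nat_lit 9) (.e (nat_lit 336430) (nat_lit 29) (.e (nat_lit 442419) (nat_lit 21) (.e (nat_lit 164324) (nat_lit 230) .nil)))))) (.g (nat_lit 5) .nil .nil))))) (.nd (nat_lit 4) (.nd (nat_lit 5) 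
(.lf (nat_lit 252041) (.g (nat_lit 3031) (.e (nat_lit 163884) (nat_lit 5) (.e (nat_lit 221194) (nat_lit 11) (.e (nat_lit 336078) (nat_lit 9) (.e (nat_lit 336443) (nat_lit 32) (.e (nat_lit 466971) (nat_lit 21) (.e (nat_lit 164326) (nat_lit 230) .nil)))))) (.g (nat_lit 0) .nil .nil))) 
(.lf (nat_lit 252073) (.g (nat_lit 720) (.e (nat_lit 163884) (nat_lit 5) (.e (nat_lit 221194) (nat_lit 11) (.e (nat_lit 336085) (nat_lit 9) (.e (nat_lit 336444) (nat_lit 32) .nil)))) .nil))) (.nd (nat_lit 5) 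
(.lf (nat_lit 252057) (.g (nat_lit 2752) (.e (nat_lit 163884) (nat_lit 5) (.e (nat_lit 221194) (nat_lit 11) (.e (nat_lit 336085) (nat_lit 9) (.e (nat_lit 336443) (nat_lit 32) (.e (nat_lit 466969) (nat_lit 21) (.e (nat_lit 164322) (nat_lit 230) .nil)))))) (.g (nat_lit 5) .nil .nil))) 
(.lf (nat_lit 252089) (.g (nat_lit 3718) (.e (nat_lit 163884) (nat_lit 5) (.e (nat_lit 221194) (nat_lit 11) (.e (nat_lit 336086) (nat_lit 9) (.e (nat_lit 336430) (nat_lit 29) (.e (nat_lit 442421) (nat_lit 21) (.e (nat_lit 164332) (nat_lit 230) .nil)))))) (.g (nat_lit 6) .nil .nil)))))) (.nd (nat_lit 3) (.nd (nat_lit 4) (.nd (nat_lit 5) 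
(.lf (nat_lit 252037) (.g (nat_lit 3113) (.e (nat_lit 163884) (nat_lit 5) (.e (nat_lit 221194) (nat_lit 11) (.e (nat_lit 336078) (nat_lit 9) (.e (nat_lit 336443) (nat_lit 32) (.e (nat_lit 466969) (nat_lit 21) (.e (nat_lit 164329) (nat_lit 230) .nil)))))) (.g (nat_lit 0) .nil .nil))) 
(.lf (nat_lit 252069) (.g (nat_lit 3443) (.e (nat_lit 163884) (nat_lit 5) (.e (nat_lit 221194) (nat_lit 11) (.e (nat_lit 336085) (nat_lit 9) (.e (nat_lit 336443) (nat_lit 32) (.e (nat_lit 466971) (nat_lit 21) (.e (nat_lit 164332) (nat_lit 230) .nil)))))) (.g (nat_lit 6) .nil .nil)))) (.nd (nat_lit 5) 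
(.lf (nat_lit 252053) (.g (nat_lit 1936) (.e (nat_lit 163884) (nat_lit 5) (.e (nat_lit 221194) (nat_lit 11) (.e (nat_lit 336085) (nat_lit 9) (.e (nat_lit 336434) (nat_lit 30) (.e (nat_lit 450564) (nat_lit 0) (.e (nat_lit 5223) (nat_lit 296) .nil)))))) (.g (nat_lit 5) .nil .nil))) 
(.lf (nat_lit 252085) (.g (nat_lit 3776) (.e (nat_lit 163884) (nat_lit 5) (.e (nat_lit 221194) (nat_lit 11) (.e (nat_lit 336086) (nat_lit 9) (.e (nat_lit 336430) (nat_lit 29) (.e (nat_lit 442419) (nat_lit 21) (.e (nat_lit 164332) (nat_lit 230) .nil)))))) (.g (nat_lit 0) .nil .nil))))) (.nd (nat_lit 4) (.nd (nat_lit 5) 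
(.lf (nat_lit 252045) (.g (nat_lit 3478) (.e (nat_lit 163884) (nat_lit 5) (.e (nat_lit 221194) (nat_lit 11) (.e (nat_lit 336078) (nat_lit 9) (.e (nat_lit 336443) (nat_lit 32) (.e (nat_lit 466972) (nat_lit 21) (.e (nat_lit 164330) (nat_lit 230) .nil)))))) (.g (nat_lit 0) .nil .nil))) 
(.lf (nat_lit 252077) (.g (nat_lit 1856) (.e (nat_lit 163884) (nat_lit 5) (.e (nat_lit 221194) (nat_lit 11) (.e (nat_lit 336086) (nat_lit 9) (.e (nat_lit 336426) (nat_lit 29) (.e (nat_lit 442419) (nat_lit 21) (.e (nat_lit 164326) (nat_lit 230) .nil)))))) (.g (nat_lit 4) .nil .nil)))) (.nd (nat_lit 5) 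
(.lf (nat_lit 252061) (.g (nat_lit 3427) (.e (nat_lit 163884) (nat_lit 5) (.e (nat_lit 221194) (nat_lit 11) (.e (nat_lit 336085) (nat_lit 9) (.e (nat_lit 336443) (nat_lit 32) (.e (nat_lit 466969) (nat_lit 21) (.e (nat_lit 164329) (nat_lit 230) .nil)))))) (.g (nat_lit 0) .nil .nil))) 
(.lf (nat_lit 252093) (.g (nat_lit 3404) (.e (nat_lit 163884) (nat_lit 5) (.e (nat_lit 221194) (nat_lit 11) (.e (nat_lit 336086) (nat_lit 9) (.e (nat_lit 336443) (nat_lit 32) (.e (nat_lit 466969) (nat_lit 21) (.e (nat_lit 164325) (nat_lit 230) .nil)))))) (.g (nat_lit 0) .nil .nil))))))) (.nd (nat_lit 2) (.nd (nat_lit 3) (.nd (nat_lit 4) (.nd (nat_lit 5) 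
(.lf (nat_lit 252035) (.g (nat_lit 3453) (.e (nat_lit 163884) (nat_lit 5) (.e (nat_lit 221194) (nat_lit 11) (.e (nat_lit 336078) (nat_lit 9) (.e (nat_lit 336443) (nat_lit 32) (.e (nat_lit 466969) (nat_lit 21) (.e (nat_lit 164324) (nat_lit 230) .nil)))))) (.g (nat_lit 0) .nil .nil))) 
(.lf (nat_lit 252067) (.g (nat_lit 3265) (.e (nat_lit 163884) (nat_lit 5) (.e (nat_lit 221194) (nat_lit 11) (.e (nat_lit 336085) (nat_lit 9) (.e (nat_lit 336443) (nat_lit 32) (.e (nat_lit 466971) (nat_lit 21) (.e (nat_lit 164326) (nat_lit 230) .nil)))))) (.g (nat_lit 6) .nil .nil)))) (.nd (nat_lit 5) 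
(.lf (nat_lit 252051) (.g (nat_lit 2320) (.e (nat_lit 163884) (nat_lit 5) (.e (nat_lit 221194) (nat_lit 11) (.e (nat_lit 336085) (nat_lit 9) (.e (nat_lit 336430) (nat_lit 29) (.e (nat_lit 442421) (nat_lit 21) (.e (nat_lit 164326) (nat_lit 230) .nil)))))) (.g (nat_lit 5) .nil .nil))) 
(.lf (nat_lit 252083) (.g (nat_lit 3494) (.e (nat_lit 163884) (nat_lit 5) (.e (nat_lit 221194) (nat_lit 11) (.e (nat_lit 336086) (nat_lit 9) (.e (nat_lit 336430) (nat_lit 29) (.e (nat_lit 442419) (nat_lit 21) (.e (nat_lit 164327) (nat_lit 230) .nil)))))) (.g (nat_lit 0) .nil .nil))))) (.nd (nat_lit 4) (.nd (nat_lit 5) 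
(.lf (nat_lit 252043) (.g (nat_lit 3195) (.e (nat_lit 163884) (nat_lit 5) (.e (nat_lit 221194) (nat_lit 11) (.e (nat_lit 336078) (nat_lit 9) (.e (nat_lit 336443) (nat_lit 32) (.e (nat_lit 466971) (nat_lit 21) (.e (nat_lit 164332) (nat_lit 230) .nil)))))) (.g (nat_lit 6) .nil .nil))) 
(.lf (nat_lit 252075) (.g (nat_lit 339) (.e (nat_lit 163884) (nat_lit 5) (.e (nat_lit 221194) (nat_lit 11) (.e (nat_lit 336086) (nat_lit 9) .nil))) .nil))) (.nd (nat_lit 5) 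
(.lf (nat_lit 252059) (.g (nat_lit 3667) (.e (nat_lit 163884) (nat_lit 5) (.e (nat_lit 221194) (nat_lit 11) (.e (nat_lit 336085) (nat_lit 9) (.e (nat_lit 336443) (nat_lit 32) (.e (nat_lit 466969) (nat_lit 21) (.e (nat_lit 164325) (nat_lit 230) .nil)))))) (.g (nat_lit 0) .nil .nil))) 
(.lf (nat_lit 252091) (.g (nat_lit 2551) (.e (nat_lit 163884) (nat_lit 5) (.e (nat_lit 221194) (nat_lit 11) (.e (nat_lit 336086) (nat_lit 9) (.e (nat_lit 336443) (nat_lit 32) (.e (nat_lit 466969) (nat_lit 21) (.e (nat_lit 164322) (nat_lit 230) .nil)))))) (.g (nat_lit 5) .nil .nil)))))) (.nd (nat_lit 3) (.nd (nat_lit 4) (.nd (nat_lit 5) 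
(.lf (nat_lit 252039) (.g (nat_lit 3136) (.e (nat_lit 163884) (nat_lit 5) (.e (nat_lit 221194) (nat_lit 11) (.e (nat_lit 336078) (nat_lit 9) (.e (nat_lit 336443) (nat_lit 32) (.e (nat_lit 466971) (nat_lit 21) (.e (nat_lit 164322) (nat_lit 230) .nil)))))) (.g (nat_lit 6) .nil .nil))) 
(.lf (nat_lit 252071) (.g (nat_lit 3726) (.e (nat_lit 163884) (nat_lit 5) (.e (nat_lit 221194) (nat_lit 11) (.e (nat_lit 336085) (nat_lit 9) (.e (nat_lit 336443) (nat_lit 32) (.e (nat_lit 466972) (nat_lit 21) (.e (nat_lit 164330) (nat_lit 230) .nil)))))) (.g (nat_lit 6) .nil .nil)))) (.nd (nat_lit 5) 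
(.lf (nat_lit 252055) (.g (nat_lit 2065) (.e (nat_lit 163884) (nat_lit 5) (.e (nat_lit 221194) (nat_lit 11) (.e (nat_lit 336085) (nat_lit 9) (.e (nat_lit 336443) (nat_lit 32) (.e (nat_lit 466968) (nat_lit 21) .nil))))) .nil)) 
(.lf (nat_lit 252087) (.g (nat_lit 3447) (.e (nat_lit 163884) (nat_lit 5) (.e (nat_lit 221194) (nat_lit 11) (.e (nat_lit 336086) (nat_lit 9) (.e (nat_lit 336430) (nat_lit 29) (.e (nat_lit 442421) (nat_lit 21) (.e (nat_lit 164326) (nat_lit 230) .nil)))))) (.g (nat_lit 0) .nil .nil))))) (.nd (nat_lit 4) (.nd (nat_lit 5) 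
(.lf (nat_lit 252047) (.g (nat_lit 497) (.e (nat_lit 163884) (nat_lit 5) (.e (nat_lit 221194) (nat_lit 11) (.e (nat_lit 336085) (nat_lit 9) .nil))) .nil)) 
(.lf (nat_lit 252079) (.g (nat_lit 1785) (.e (nat_lit 163884) (nat_lit 5) (.e (nat_lit 221194) (nat_lit 11) (.e (nat_lit 336086) (nat_lit 9) (.e (nat_lit 336428) (nat_lit 29) (.e (nat_lit 442419) (nat_lit 21) .nil))))) .nil))) (.nd (nat_lit 5) 
(.lf (nat_lit 252063) (.g (nat_lit 3702) (.e (nat_lit 163884) (nat_lit 5) (.e (nat_lit 221194) (nat_lit 11) (.e (nat_lit 336085) (nat_lit 9) (.e (nat_lit 336443) (nat_lit 32) (.e (nat_lit 466969) (nat_lit 21) (.e (nat_lit 164332) (nat_lit 230) .nil)))))) (.g (nat_lit 0) .nil .nil))) 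
(.lf (nat_lit 252095) (.g (nat_lit 3496) (.e (nat_lit 163884) (nat_lit 5) (.e (nat_lit 221194) (nat_lit 11) (.e (nat_lit 336086) (nat_lit 9) (.e (nat_lit 336443) (nat_lit 32) (.e (nat_lit 466969) (nat_lit 21) (.e (nat_lit 164327) (nat_lit 230) .nil)))))) (.g (nat_lit 0) .nil .nil)))))))))

noncomputable def tv3269 : DT := (.nd (nat_lit 0) (.nd (nat_lit 1) (.nd (nat_lit 2) (.nd (nat_lit 3) (.nd (nat_lit 4) (.nd (nat_lit 5) 
(.lf (nat_lit 252096) (.g (nat_lit 3160) (.e (nat_lit 163884) (nat_lit 5) (.e (nat_lit 221194) (nat_lit 11) (.e (nat_lit 336086) (nat_lit 9) (.e (nat_lit 336443) (nat_lit 32) (.e (nat_lit 466969) (nat_lit 21) (.e (nat_lit 164329) (nat_lit 230) .nil)))))) (.g (nat_lit 0) .nil .nil))) 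
(.lf (nat_lit 252128) (.g (nat_lit 3927) (.e (nat_lit 163884) (nat_lit 5) (.e (nat_lit 221194) (nat_lit 11) (.e (nat_lit 336088) (nat_lit 9) (.e (nat_lit 336443) (nat_lit 32) (.e (nat_lit 466969) (nat_lit 21) (.e (nat_lit 164324) (nat_lit 230) .nil)))))) (.g (nat_lit 0) .nil .nil)))) (.nd (nat_lit 5) 
(.lf (nat_lit 252112) (.g (nat_lit 3694) (.e (nat_lit 163884) (nat_lit 5) (.e (nat_lit 221194) (nat_lit 11) (.e (nat_lit 336087) (nat_lit 9) (.e (nat_lit 336443) (nat_lit 32) (.e (nat_lit 466969) (nat_lit 21) (.e (nat_lit 164324) (nat_lit 230) .nil)))))) (.g (nat_lit 0) .nil .nil))) 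
(.lf (nat_lit 252144) (.g (nat_lit 1651) (.e (nat_lit 163884) (nat_lit 5) (.e (nat_lit 221194) (nat_lit 11) (.e (nat_lit 336212) (nat_lit 13) (.e (nat_lit 393281) (nat_lit 23) (.e (nat_lit 426098) (nat_lit 1) .nil))))) .nil)))) (.nd (nat_lit 4) (.nd (nat_lit 5) 
(.lf (nat_lit 252104) (.g (nat_lit 3279) (.e (nat_lit 163884) (nat_lit 5) (.e (nat_lit 221194) (nat_lit 11) (.e (nat_lit 336086) (nat_lit 9) (.e (nat_lit 336443) (nat_lit 32) (.e (nat_lit 466971) (nat_lit 21) (.e (nat_lit 164332) (nat_lit 230) .nil)))))) (.g (nat_lit 6) .nil .nil))) 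
(.lf (nat_lit 252136) (.g (nat_lit 3560) (.e (nat_lit 163884) (nat_lit 5) (.e (nat_lit 221194) (nat_lit 11) (.e (nat_lit 336088) (nat_lit 9) (.e (nat_lit 336443) (nat_lit 32) (.e (nat_lit 466971) (nat_lit 21) (.e (nat_lit 164326) (nat_lit 230) .nil)))))) (.g (nat_lit 0) .nil .nil)))) (.nd (nat_lit 5) 
(.lf (nat_lit 252120) (.g (nat_lit 3189) (.e (nat_lit 163884) (nat_lit 5) (.e (nat_lit 221194) (nat_lit 11) (.e (nat_lit 336087) (nat_lit 9) (.e (nat_lit 336443) (nat_lit 32) (.e (nat_lit 466971) (nat_lit 21) (.e (nat_lit 164326) (nat_lit 230) .nil)))))) (.g (nat_lit 6) .nil .nil))) 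
(.lf (nat_lit 252152) (.g (nat_lit 2708) (.e (nat_lit 163884) (nat_lit 5) (.e (nat_lit 221194) (nat_lit 11) (.e (nat_lit 336213) (nat_lit 13) (.e (nat_lit 393281) (nat_lit 23) (.e (nat_lit 426099) (nat_lit 1) (.e (nat_lit 164329) (nat_lit 230) .nil)))))) (.g (nat_lit 6) .nil .nil)))))) (.nd (nat_lit 3) (.nd (nat_lit 4) (.nd (nat_lit 5) 
(.lf (nat_lit 252100) (.g (nat_lit 3247) (.e (nat_lit 163884) (nat_lit 5) (.e (nat_lit 221194) (nat_lit 11) (.e (nat_lit 336086) (nat_lit 9) (.e (nat_lit 336443) (nat_lit 32) (.e (nat_lit 466971) (nat_lit 21) (.e (nat_lit 164325) (nat_lit 230) .nil)))))) (.g (nat_lit 0) .nil .nil))) 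
(.lf (nat_lit 252132) (.g (nat_lit 3712) (.e (nat_lit 163884) (nat_lit 5) (.e (nat_lit 221194) (nat_lit 11) (.e (nat_lit 336088) (nat_lit 9) (.e (nat_lit 336443) (nat_lit 32) (.e (nat_lit 466969) (nat_lit 21) (.e (nat_lit 164330) (nat_lit 230) .nil)))))) (.g (nat_lit 0) .nil .nil)))) (.nd (nat_lit 5) 
(.lf (nat_lit 252116) (.g (nat_lit 3476) (.e (nat_lit 163884) (nat_lit 5) (.e (nat_lit 221194) (nat_lit 11) (.e (nat_lit 336087) (nat_lit 9) (.e (nat_lit 336443) (nat_lit 32) (.e (nat_lit 466969) (nat_lit 21) (.e (nat_lit 164330) (nat_lit 230) .nil)))))) (.g (nat_lit 6) .nil .nil))) 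
(.lf (nat_lit 252148) (.g (nat_lit 1309) (.e (nat_lit 163884) (nat_lit 5) (.e (nat_lit 221194) (nat_lit 11) (.e (nat_lit 336213) (nat_lit 13) (.e (nat_lit 393281) (nat_lit 23) .nil)))) .nil)))) (.nd (nat_lit 4) (.nd (nat_lit 5) 
(.lf (nat_lit 252108) (.g (nat_lit 549) (.e (nat_lit 163884) (nat_lit 5) (.e (nat_lit 221194) (nat_lit 11) (.e (nat_lit 336087) (nat_lit 9) .nil))) .nil)) 
(.lf (nat_lit 252140) (.g (nat_lit 3702) (.e (nat_lit 163884) (nat_lit 5) (.e (nat_lit 221194) (nat_lit 11) (.e (nat_lit 336088) (nat_lit 9) (.e (nat_lit 336443) (nat_lit 32) (.e (nat_lit 466972) (nat_lit 21) (.e (nat_lit 164329) (nat_lit 230) .nil)))))) (.g (nat_lit 0) .nil .nil)))) (.nd (nat_lit 5) 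
(.lf (nat_lit 252124) (.g (nat_lit 3714) (.e (nat_lit 163884) (nat_lit 5) (.e (nat_lit 221194) (nat_lit 11) (.e (nat_lit 336087) (nat_lit 9) (.e (nat_lit 336443) (nat_lit 32) (.e (nat_lit 466972) (nat_lit 21) (.e (nat_lit 164330) (nat_lit 230) .nil)))))) (.g (nat_lit 6) .nil .nil))) 
(.lf (nat_lit 252156) (.g (nat_lit 3509) (.e (nat_lit 163884) (nat_lit 5) (.e (nat_lit 221194) (nat_lit 11) (.e (nat_lit 336213) (nat_lit 13) (.e (nat_lit 393281) (nat_lit 23) (.e (nat_lit 426100) (nat_lit 1) (.e (nat_lit 164330) (nat_lit 230) .nil)))))) (.g (nat_lit 0) .nil .nil))))))) (.nd (nat_lit 2) (.nd (nat_lit 3) (.nd (nat_lit 4) (.nd (nat_lit 5) 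
(.lf (nat_lit 252098) (.g (nat_lit 1980) (.e (nat_lit 163884) (nat_lit 5) (.e (nat_lit 221194) (nat_lit 11) (.e (nat_lit 336086) (nat_lit 9) (.e (nat_lit 336443) (nat_lit 32) (.e (nat_lit 466970) (nat_lit 21) .nil))))) .nil)) 
(.lf (nat_lit 252130) (.g (nat_lit 3638) (.e (nat_lit 163884) (nat_lit 5) (.e (nat_lit 221194) (nat_lit 11) (.e (nat_lit 336088) (nat_lit 9) (.e (nat_lit 336443) (nat_lit 32) (.e (nat_lit 466969) (nat_lit 21) (.e (nat_lit 164326) (nat_lit 230) .nil)))))) (.g (nat_lit 0) .nil .nil)))) (.nd (nat_lit 5) 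
(.lf (nat_lit 252114) (.g (nat_lit 3375) (.e (nat_lit 163884) (nat_lit 5) (.e (nat_lit 221194) (nat_lit 11) (.e (nat_lit 336087) (nat_lit 9) (.e (nat_lit 336443) (nat_lit 32) (.e (nat_lit 466969) (nat_lit 21) (.e (nat_lit 164326) (nat_lit 230) .nil)))))) (.g (nat_lit 0) .nil .nil))) 
(.lf (nat_lit 252146) (.g (nat_lit 405) (.e (nat_lit 163884) (nat_lit 5) (.e (nat_lit 221194) (nat_lit 11) (.e (nat_lit 336213) (nat_lit 13) .nil))) .nil)))) (.nd (nat_lit 4) (.nd (nat_lit 5) 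
(.lf (nat_lit 252106) (.g (nat_lit 3269) (.e (nat_lit 163884) (nat_lit 5) (.e (nat_lit 221194) (nat_lit 11) (.e (nat_lit 336086) (nat_lit 9) (.e (nat_lit 336443) (nat_lit 32) (.e (nat_lit 466972) (nat_lit 21) (.e (nat_lit 164329) (nat_lit 230) .nil)))))) (.g (nat_lit 0) .nil .nil))) 
(.lf (nat_lit 252138) (.g (nat_lit 3604) (.e (nat_lit 163884) (nat_lit 5) (.e (nat_lit 221194) (nat_lit 11) (.e (nat_lit 336088) (nat_lit 9) (.e (nat_lit 336443) (nat_lit 32) (.e (nat_lit 466971) (nat_lit 21) (.e (nat_lit 164331) (nat_lit 230) .nil)))))) (.g (nat_lit 6) .nil .nil)))) (.nd (nat_lit 5) 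
(.lf (nat_lit 252122) (.g (nat_lit 3369) (.e (nat_lit 163884) (nat_lit 5) (.e (nat_lit 221194) (nat_lit 11) (.e (nat_lit 336087) (nat_lit 9) (.e (nat_lit 336443) (nat_lit 32) (.e (nat_lit 466971) (nat_lit 21) (.e (nat_lit 164332) (nat_lit 230) .nil)))))) (.g (nat_lit 6) .nil .nil))) 
(.lf (nat_lit 252154) (.g (nat_lit 2213) (.e (nat_lit 163884) (nat_lit 5) (.e (nat_lit 221194) (nat_lit 11) (.e (nat_lit 336213) (nat_lit 13) (.e (nat_lit 393281) (nat_lit 23) (.e (nat_lit 426100) (nat_lit 1) (.e (nat_lit 164322) (nat_lit 230) .nil)))))) (.g (nat_lit 4) .nil .nil)))))) (.nd (nat_lit 3) (.nd (nat_lit 4) (.nd (nat_lit 5) 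
(.lf (nat_lit 252102) (.g (nat_lit 3455) (.e (nat_lit 163884) (nat_lit 5) (.e (nat_lit 221194) (nat_lit 11) (.e (nat_lit 336086) (nat_lit 9) (.e (nat_lit 336443) (nat_lit 32) (.e (nat_lit 466971) (nat_lit 21) (.e (nat_lit 164327) (nat_lit 230) .nil)))))) (.g (nat_lit 0) .nil .nil))) 
(.lf (nat_lit 252134) (.g (nat_lit 3865) (.e (nat_lit 163884) (nat_lit 5) (.e (nat_lit 221194) (nat_lit 11) (.e (nat_lit 336088) (nat_lit 9) (.e (nat_lit 336443) (nat_lit 32) (.e (nat_lit 466971) (nat_lit 21) (.e (nat_lit 164324) (nat_lit 230) .nil)))))) (.g (nat_lit 0) .nil .nil)))) (.nd (nat_lit 5) 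
(.lf (nat_lit 252118) (.g (nat_lit 3303) (.e (nat_lit 163884) (nat_lit 5) (.e (nat_lit 221194) (nat_lit 11) (.e (nat_lit 336087) (nat_lit 9) (.e (nat_lit 336443) (nat_lit 32) (.e (nat_lit 466971) (nat_lit 21) (.e (nat_lit 164322) (nat_lit 230) .nil)))))) (.g (nat_lit 6) .nil .nil))) 
(.lf (nat_lit 252150) (.g (nat_lit 3577) (.e (nat_lit 163884) (nat_lit 5) (.e (nat_lit 221194) (nat_lit 11) (.e (nat_lit 336213) (nat_lit 13) (.e (nat_lit 393281) (nat_lit 23) (.e (nat_lit 426098) (nat_lit 1) (.e (nat_lit 164325) (nat_lit 230) .nil)))))) (.g (nat_lit 0) .nil .nil))))) (.nd (nat_lit 4) (.nd (nat_lit 5) 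
(.lf (nat_lit 252110) (.g (nat_lit 2733) (.e (nat_lit 163884) (nat_lit 5) (.e (nat_lit 221194) (nat_lit 11) (.e (nat_lit 336087) (nat_lit 9) (.e (nat_lit 336443) (nat_lit 32) (.e (nat_lit 466968) (nat_lit 21) (.e (nat_lit 164332) (nat_lit 230) .nil)))))) (.g (nat_lit 4) .nil .nil))) 
(.lf (nat_lit 252142) (.g (nat_lit 775) (.e (nat_lit 163884) (nat_lit 5) (.e (nat_lit 221194) (nat_lit 11) (.e (nat_lit 336203) (nat_lit 12) .nil))) .nil))) (.nd (nat_lit 5) 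
(.lf (nat_lit 252126) (.g (nat_lit 2452) (.e (nat_lit 163884) (nat_lit 5) (.e (nat_lit 221194) (nat_lit 11) (.e (nat_lit 336088) (nat_lit 9) (.e (nat_lit 336443) (nat_lit 32) (.e (nat_lit 466968) (nat_lit 21) (.e (nat_lit 164332) (nat_lit 230) .nil)))))) (.g (nat_lit 4) .nil .nil))) 
(.lf (nat_lit 252158) (.g (nat_lit 2134) (.e (nat_lit 163884) (nat_lit 5) (.e (nat_lit 221194) (nat_lit 11) (.e (nat_lit 336213) (nat_lit 13) (.e (nat_lit 393281) (nat_lit 23) (.e (nat_lit 426105) (nat_lit 1) (.e (nat_lit 164332) (nat_lit 230) .nil)))))) (.g (nat_lit 4) .nil .nil)))))))) (.nd (nat_lit 1) (.nd (nat_lit 2) (.nd (nat_lit 3) (.nd (nat_lit 4) (.nd (nat_lit 5) 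
(.lf (nat_lit 252097) (.g (nat_lit 3288) (.e (nat_lit 163884) (nat_lit 5) (.e (nat_lit 221194) (nat_lit 11) (.e (nat_lit 336086) (nat_lit 9) (.e (nat_lit 336443) (nat_lit 32) (.e (nat_lit 466969) (nat_lit 21) (.e (nat_lit 164330) (nat_lit 230) .nil)))))) (.g (nat_lit 0) .nil .nil))) 
(.lf (nat_lit 252129) (.g (nat_lit 3831) (.e (nat_lit 163884) (nat_lit 5) (.e (nat_lit 221194) (nat_lit 11) (.e (nat_lit 336088) (nat_lit 9) (.e (nat_lit 336443) (nat_lit 32) (.e (nat_lit 466969) (nat_lit 21) (.e (nat_lit 164325) (nat_lit 230) .nil)))))) (.g (nat_lit 0) .nil .nil)))) (.nd (nat_lit 5) 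
(.lf (nat_lit 252113) (.g (nat_lit 3608) (.e (nat_lit 163884) (nat_lit 5) (.e (nat_lit 221194) (nat_lit 11) (.e (nat_lit 336087) (nat_lit 9) (.e (nat_lit 336443) (nat_lit 32) (.e (nat_lit 466969) (nat_lit 21) (.e (nat_lit 164325) (nat_lit 230) .nil)))))) (.g (nat_lit 0) .nil .nil))) 
(.lf (nat_lit 252145) (.g (nat_lit 1722) (.e (nat_lit 163884) (nat_lit 5) (.e (nat_lit 221194) (nat_lit 11) (.e (nat_lit 336212) (nat_lit 13) (.e (nat_lit 393281) (nat_lit 23) (.e (nat_lit 426100) (nat_lit 1) .nil))))) .nil)))) (.nd (nat_lit 4) (.nd (nat_lit 5) 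
(.lf (nat_lit 252105) (.g (nat_lit 2626) (.e (nat_lit 163884) (nat_lit 5) (.e (nat_lit 221194) (nat_lit 11) (.e (nat_lit 336086) (nat_lit 9) (.e (nat_lit 336443) (nat_lit 32) (.e (nat_lit 466972) (nat_lit 21) (.e (nat_lit 164322) (nat_lit 230) .nil)))))) (.g (nat_lit 5) .nil .nil))) 
(.lf (nat_lit 252137) (.g (nat_lit 3367) (.e (nat_lit 163884) (nat_lit 5) (.e (nat_lit 221194) (nat_lit 11) (.e (nat_lit 336088) (nat_lit 9) (.e (nat_lit 336443) (nat_lit 32) (.e (nat_lit 466971) (nat_lit 21) (.e (nat_lit 164329) (nat_lit 230) .nil)))))) (.g (nat_lit 6) .nil .nil)))) (.nd (nat_lit 5) 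
(.lf (nat_lit 252121) (.g (nat_lit 2935) (.e (nat_lit 163884) (nat_lit 5) (.e (nat_lit 221194) (nat_lit 11) (.e (nat_lit 336087) (nat_lit 9) (.e (nat_lit 336443) (nat_lit 32) (.e (nat_lit 466971) (nat_lit 21) (.e (nat_lit 164329) (nat_lit 230) .nil)))))) (.g (nat_lit 5) .nil .nil))) 
(.lf (nat_lit 252153) (.g (nat_lit 2990) (.e (nat_lit 163884) (nat_lit 5) (.e (nat_lit 221194) (nat_lit 11) (.e (nat_lit 336213) (nat_lit 13) (.e (nat_lit 393281) (nat_lit 23) (.e (nat_lit 426099) (nat_lit 1) (.e (nat_lit 164330) (nat_lit 230) .nil)))))) (.g (nat_lit 0) .nil .nil)))))) (.nd (nat_lit 3) (.nd (nat_lit 4) (.nd (nat_lit 5) 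
(.lf (nat_lit 252101) (.g (nat_lit 3091) (.e (nat_lit 163884) (nat_lit 5) (.e (nat_lit 221194) (nat_lit 11) (.e (nat_lit 336086) (nat_lit 9) (.e (nat_lit 336443) (nat_lit 32) (.e (nat_lit 466971) (nat_lit 21) (.e (nat_lit 164326) (nat_lit 230) .nil)))))) (.g (nat_lit 0) .nil .nil))) 
(.lf (nat_lit 252133) (.g (nat_lit 3676) (.e (nat_lit 163884) (nat_lit 5) (.e (nat_lit 221194) (nat_lit 11) (.e (nat_lit 336088) (nat_lit 9) (.e (nat_lit 336443) (nat_lit 32) (.e (nat_lit 466971) (nat_lit 21) (.e (nat_lit 164322) (nat_lit 230) .nil)))))) (.g (nat_lit 6) .nil .nil)))) (.nd (nat_lit 5) 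
(.lf (nat_lit 252117) (.g (nat_lit 3613) (.e (nat_lit 163884) (nat_lit 5) (.e (nat_lit 221194) (nat_lit 11) (.e (nat_lit 336087) (nat_lit 9) (.e (nat_lit 336443) (nat_lit 32) (.e (nat_lit 466969) (nat_lit 21) (.e (nat_lit 164332) (nat_lit 230) .nil)))))) (.g (nat_lit 0) .nil .nil))) 
(.lf (nat_lit 252149) (.g (nat_lit 1909) (.e (nat_lit 163884) (nat_lit 5) (.e (nat_lit 221194) (nat_lit 11) (.e (nat_lit 336213) (nat_lit 13) (.e (nat_lit 393281) (nat_lit 23) (.e (nat_lit 426097) (nat_lit 1) .nil))))) .nil)))) (.nd (nat_lit 4) (.nd (nat_lit 5) 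
(.lf (nat_lit 252109) (.g (nat_lit 2492) (.e (nat_lit 163884) (nat_lit 5) (.e (nat_lit 221194) (nat_lit 11) (.e (nat_lit 336087) (nat_lit 9) (.e (nat_lit 336443) (nat_lit 32) (.e (nat_lit 466968) (nat_lit 21) .nil))))) .nil)) 
(.lf (nat_lit 252141) (.g (nat_lit 4003) (.e (nat_lit 163884) (nat_lit 5) (.e (nat_lit 221194) (nat_lit 11) (.e (nat_lit 336088) (nat_lit 9) (.e (nat_lit 336443) (nat_lit 32) (.e (nat_lit 466972) (nat_lit 21) (.e (nat_lit 164330) (nat_lit 230) .nil)))))) (.g (nat_lit 0) .nil .nil)))) (.nd (nat_lit 5) 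
(.lf (nat_lit 252125) (.g (nat_lit 3950) (.e (nat_lit 163884) (nat_lit 5) (.e (nat_lit 221194) (nat_lit 11) (.e (nat_lit 336087) (nat_lit 9) (.e (nat_lit 336443) (nat_lit 32) (.e (nat_lit 466972) (nat_lit 21) (.e (nat_lit 164331) (nat_lit 230) .nil)))))) (.g (nat_lit 0) .nil .nil))) 
(.lf (nat_lit 252157) (.g (nat_lit 3308) (.e (nat_lit 163884) (nat_lit 5) (.e (nat_lit 221194) (nat_lit 11) (.e (nat_lit 336213) (nat_lit 13) (.e (nat_lit 393281) (nat_lit 23) (.e (nat_lit 426100) (nat_lit 1) (.e (nat_lit 164331) (nat_lit 230) .nil)))))) (.g (nat_lit 6) .nil .nil))))))) (.nd (nat_lit 2) (.nd (nat_lit 3) (.nd (nat_lit 4) (.nd (nat_lit 5) 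
(.lf (nat_lit 252099) (.g (nat_lit 3384) (.e (nat_lit 163884) (nat_lit 5) (.e (nat_lit 221194) (nat_lit 11) (.e (nat_lit 336086) (nat_lit 9) (.e (nat_lit 336443) (nat_lit 32) (.e (nat_lit 466971) (nat_lit 21) (.e (nat_lit 164324) (nat_lit 230) .nil)))))) (.g (nat_lit 0) .nil .nil))) 
(.lf (nat_lit 252131) (.g (nat_lit 3593) (.e (nat_lit 163884) (nat_lit 5) (.e (nat_lit 221194) (nat_lit 11) (.e (nat_lit 336088) (nat_lit 9) (.e (nat_lit 336443) (nat_lit 32) (.e (nat_lit 466969) (nat_lit 21) (.e (nat_lit 164329) (nat_lit 230) .nil)))))) (.g (nat_lit 0) .nil .nil)))) (.nd (nat_lit 5) 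
(.lf (nat_lit 252115) (.g (nat_lit 3345) (.e (nat_lit 163884) (nat_lit 5) (.e (nat_lit 221194) (nat_lit 11) (.e (nat_lit 336087) (nat_lit 9) (.e (nat_lit 336443) (nat_lit 32) (.e (nat_lit 466969) (nat_lit 21) (.e (nat_lit 164329) (nat_lit 230) .nil)))))) (.g (nat_lit 0) .nil .nil))) 
(.lf (nat_lit 252147) (.g (nat_lit 2715) (.e (nat_lit 163884) (nat_lit 5) (.e (nat_lit 221194) (nat_lit 11) (.e (nat_lit 336213) (nat_lit 13) (.e (nat_lit 393280) (nat_lit 23) .nil)))) .nil)))) (.nd (nat_lit 4) (.nd (nat_lit 5) 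
(.lf (nat_lit 252107) (.g (nat_lit 3586) (.e (nat_lit 163884) (nat_lit 5) (.e (nat_lit 221194) (nat_lit 11) (.e (nat_lit 336086) (nat_lit 9) (.e (nat_lit 336443) (nat_lit 32) (.e (nat_lit 466972) (nat_lit 21) (.e (nat_lit 164330) (nat_lit 230) .nil)))))) (.g (nat_lit 0) .nil .nil))) 
(.lf (nat_lit 252139) (.g (nat_lit 3782) (.e (nat_lit 163884) (nat_lit 5) (.e (nat_lit 221194) (nat_lit 11) (.e (nat_lit 336088) (nat_lit 9) (.e (nat_lit 336443) (nat_lit 32) (.e (nat_lit 466971) (nat_lit 21) (.e (nat_lit 164332) (nat_lit 230) .nil)))))) (.g (nat_lit 0) .nil .nil)))) (.nd (nat_lit 5) 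
(.lf (nat_lit 252123) (.g (nat_lit 3373) (.e (nat_lit 163884) (nat_lit 5) (.e (nat_lit 221194) (nat_lit 11) (.e (nat_lit 336087) (nat_lit 9) (.e (nat_lit 336443) (nat_lit 32) (.e (nat_lit 466972) (nat_lit 21) (.e (nat_lit 164329) (nat_lit 230) .nil)))))) (.g (nat_lit 6) .nil .nil))) 
(.lf (nat_lit 252155) (.g (nat_lit 3310) (.e (nat_lit 163884) (nat_lit 5) (.e (nat_lit 221194) (nat_lit 11) (.e (nat_lit 336213) (nat_lit 13) (.e (nat_lit 393281) (nat_lit 23) (.e (nat_lit 426100) (nat_lit 1) (.e (nat_lit 164329) (nat_lit 230) .nil)))))) (.g (nat_lit 0) .nil .nil)))))) (.nd (nat_lit 3) (.nd (nat_lit 4) (.nd (nat_lit 5) 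
(.lf (nat_lit 252103) (.g (nat_lit 2833) (.e (nat_lit 163884) (nat_lit 5) (.e (nat_lit 221194) (nat_lit 11) (.e (nat_lit 336086) (nat_lit 9) (.e (nat_lit 336443) (nat_lit 32) (.e (nat_lit 466971) (nat_lit 21) (.e (nat_lit 164329) (nat_lit 230) .nil)))))) (.g (nat_lit 5) .nil .nil))) 
(.lf (nat_lit 252135) (.g (nat_lit 3717) (.e (nat_lit 163884) (nat_lit 5) (.e (nat_lit 221194) (nat_lit 11) (.e (nat_lit 336088) (nat_lit 9) (.e (nat_lit 336443) (nat_lit 32) (.e (nat_lit 466971) (nat_lit 21) (.e (nat_lit 164325) (nat_lit 230) .nil)))))) (.g (nat_lit 0) .nil .nil)))) (.nd (nat_lit 5) 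
(.lf (nat_lit 252119) (.g (nat_lit 3347) (.e (nat_lit 163884) (nat_lit 5) (.e (nat_lit 221194) (nat_lit 11) (.e (nat_lit 336087) (nat_lit 9) (.e (nat_lit 336443) (nat_lit 32) (.e (nat_lit 466971) (nat_lit 21) (.e (nat_lit 164325) (nat_lit 230) .nil)))))) (.g (nat_lit 6) .nil .nil))) 
(.lf (nat_lit 252151) (.g (nat_lit 2020) (.e (nat_lit 163884) (nat_lit 5) (.e (nat_lit 221194) (nat_lit 11) (.e (nat_lit 336213) (nat_lit 13) (.e (nat_lit 393281) (nat_lit 23) (.e (nat_lit 426098) (nat_lit 1) (.e (nat_lit 164329) (nat_lit 230) .nil)))))) (.g (nat_lit 4) .nil .nil))))) (.nd (nat_lit 4) (.nd (nat_lit 5) 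
(.lf (nat_lit 252111) (.g (nat_lit 2672) (.e (nat_lit 163884) (nat_lit 5) (.e (nat_lit 221194) (nat_lit 11) (.e (nat_lit 336087) (nat_lit 9) (.e (nat_lit 336443) (nat_lit 32) (.e (nat_lit 466969) (nat_lit 21) (.e (nat_lit 164322) (nat_lit 230) .nil)))))) (.g (nat_lit 5) .nil .nil))) 
(.lf (nat_lit 252143) (.g (nat_lit 1220) (.e (nat_lit 163884) (nat_lit 5) (.e (nat_lit 221194) (nat_lit 11) (.e (nat_lit 336212) (nat_lit 13) (.e (nat_lit 393281) (nat_lit 23) .nil)))) .nil))) (.nd (nat_lit 5) 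
(.lf (nat_lit 252127) (.g (nat_lit 2921) (.e (nat_lit 163884) (nat_lit 5) (.e (nat_lit 221194) (nat_lit 11) (.e (nat_lit 336088) (nat_lit 9) (.e (nat_lit 336443) (nat_lit 32) (.e (nat_lit 466969) (nat_lit 21) (.e (nat_lit 164322) (nat_lit 230) .nil)))))) (.g (nat_lit 5) .nil .nil))) 
(.lf (nat_lit 252159) (.g (nat_lit 2156) (.e (nat_lit 163884) (nat_lit 5) (.e (nat_lit 221194) (nat_lit 11) (.e (nat_lit 336213) (nat_lit 13) (.e (nat_lit 393281) (nat_lit 23) (.e (nat_lit 426107) (nat_lit 1) (.e (nat_lit 164327) (nat_lit 230) .nil)))))) (.g (nat_lit 4) .nil .nil)))))))))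

noncomputable def tv3270 : DT := (.nd (nat_lit 0) (.nd (nat_lit 1) (.nd (nat_lit 2) (.nd (nat_lit 3) (.nd (nat_lit 4) (.nd (nat_lit 5) 
(.lf (nat_lit 252160) (.g (nat_lit 3589) (.e (nat_lit 163884) (nat_lit 5) (.e (nat_lit 221194) (nat_lit 11) (.e (nat_lit 336213) (nat_lit 13) (.e (nat_lit 393281) (nat_lit 23) (.e (nat_lit 426108) (nat_lit 1) (.e (nat_lit 164329) (nat_lit 230) .nil)))))) (.g (nat_lit 0) .nil .nil))) 
(.lf (nat_lit 252192) (.g (nat_lit 2237) (.e (nat_lit 163884) (nat_lit 5) (.e (nat_lit 221194) (nat_lit 11) (.e (nat_lit 336220) (nat_lit 13) (.e (nat_lit 393271) (nat_lit 23) (.e (nat_lit 426112) (nat_lit 1) .nil))))) .nil))) (.nd (nat_lit 5) 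
(.lf (nat_lit 252176) (.g (nat_lit 2316) (.e (nat_lit 163884) (nat_lit 5) (.e (nat_lit 221194) (nat_lit 11) (.e (nat_lit 336215) (nat_lit 13) (.e (nat_lit 393271) (nat_lit 23) (.e (nat_lit 426111) (nat_lit 1) .nil))))) .nil)) 
(.lf (nat_lit 252208) (.g (nat_lit 2131) (.e (nat_lit 163884) (nat_lit 5) (.e (nat_lit 221194) (nat_lit 11) (.e (nat_lit 336222) (nat_lit 13) (.e (nat_lit 393271) (nat_lit 23) (.e (nat_lit 426111) (nat_lit 1) (.e (nat_lit 164332) (nat_lit 230) .nil)))))) (.g (nat_lit 4) .nil .nil))))) (.nd (nat_lit 4) (.nd (nat_lit 5) 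
(.lf (nat_lit 252168) (.g (nat_lit 841) (.e (nat_lit 163884) (nat_lit 5) (.e (nat_lit 221194) (nat_lit 11) (.e (nat_lit 336214) (nat_lit 13) (.e (nat_lit 393281) (nat_lit 23) .nil)))) .nil)) 
(.lf (nat_lit 252200) (.g (nat_lit 1491) (.e (nat_lit 163884) (nat_lit 5) (.e (nat_lit 221194) (nat_lit 11) (.e (nat_lit 336221) (nat_lit 13) (.e (nat_lit 393266) (nat_lit 23) (.e (nat_lit 426109) (nat_lit 1) (.e (nat_lit 164326) (nat_lit 230) .nil)))))) (.g (nat_lit 4) .nil .nil)))) (.nd (nat_lit 5) 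
(.lf (nat_lit 252184) (.g (nat_lit 2604) (.e (nat_lit 163884) (nat_lit 5) (.e (nat_lit 221194) (nat_lit 11) (.e (nat_lit 336215) (nat_lit 13) (.e (nat_lit 393281) (nat_lit 23) (.e (nat_lit 426099) (nat_lit 1) (.e (nat_lit 164330) (nat_lit 230) .nil)))))) (.g (nat_lit 0) .nil .nil))) 
(.lf (nat_lit 252216) (.g (nat_lit 2960) (.e (nat_lit 163884) (nat_lit 5) (.e (nat_lit 221194) (nat_lit 11) (.e (nat_lit 336222) (nat_lit 13) (.e (nat_lit 393281) (nat_lit 23) (.e (nat_lit 426098) (nat_lit 1) (.e (nat_lit 164325) (nat_lit 230) .nil)))))) (.g (nat_lit 0) .nil .nil)))))) (.nd (nat_lit 3) (.nd (nat_lit 4) (.nd (nat_lit 5) 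
(.lf (nat_lit 252164) (.g (nat_lit 2715) (.e (nat_lit 163884) (nat_lit 5) (.e (nat_lit 221194) (nat_lit 11) (.e (nat_lit 336213) (nat_lit 13) (.e (nat_lit 393283) (nat_lit 24) .nil)))) .nil)) 
(.lf (nat_lit 252196) (.g (nat_lit 2072) (.e (nat_lit 163884) (nat_lit 5) (.e (nat_lit 221194) (nat_lit 11) (.e (nat_lit 336220) (nat_lit 13) (.e (nat_lit 393281) (nat_lit 23) (.e (nat_lit 426100) (nat_lit 1) (.e (nat_lit 164332) (nat_lit 230) .nil)))))) (.g (nat_lit 4) .nil .nil)))) (.nd (nat_lit 5) 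
(.lf (nat_lit 252180) (.g (nat_lit 1354) (.e (nat_lit 163884) (nat_lit 5) (.e (nat_lit 221194) (nat_lit 11) (.e (nat_lit 336215) (nat_lit 13) (.e (nat_lit 393279) (nat_lit 23) (.e (nat_lit 426110) (nat_lit 1) .nil))))) .nil)) 
(.lf (nat_lit 252212) (.g (nat_lit 677) (.e (nat_lit 163884) (nat_lit 5) (.e (nat_lit 221194) (nat_lit 11) (.e (nat_lit 336222) (nat_lit 13) (.e (nat_lit 393277) (nat_lit 23) .nil)))) .nil)))) (.nd (nat_lit 4) (.nd (nat_lit 5) 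
(.lf (nat_lit 252172) (.g (nat_lit 3076) (.e (nat_lit 163884) (nat_lit 5) (.e (nat_lit 221194) (nat_lit 11) (.e (nat_lit 336214) (nat_lit 13) (.e (nat_lit 393281) (nat_lit 23) (.e (nat_lit 426100) (nat_lit 1) (.e (nat_lit 164330) (nat_lit 230) .nil)))))) (.g (nat_lit 0) .nil .nil))) 
(.lf (nat_lit 252204) (.g (nat_lit 2466) (.e (nat_lit 163884) (nat_lit 5) (.e (nat_lit 221194) (nat_lit 11) (.e (nat_lit 336221) (nat_lit 13) (.e (nat_lit 393281) (nat_lit 23) (.e (nat_lit 426100) (nat_lit 1) (.e (nat_lit 164331) (nat_lit 230) .nil)))))) (.g (nat_lit 5) .nil .nil)))) (.nd (nat_lit 5) 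
(.lf (nat_lit 252188) (.g (nat_lit 3152) (.e (nat_lit 163884) (nat_lit 5) (.e (nat_lit 221194) (nat_lit 11) (.e (nat_lit 336215) (nat_lit 13) (.e (nat_lit 393281) (nat_lit 23) (.e (nat_lit 426108) (nat_lit 1) (.e (nat_lit 164329) (nat_lit 230) .nil)))))) (.g (nat_lit 0) .nil .nil))) 
(.lf (nat_lit 252220) (.g (nat_lit 1674) (.e (nat_lit 163884) (nat_lit 5) (.e (nat_lit 221194) (nat_lit 11) (.e (nat_lit 336222) (nat_lit 13) (.e (nat_lit 393281) (nat_lit 23) (.e (nat_lit 426100) (nat_lit 1) (.e (nat_lit 164322) (nat_lit 230) .nil)))))) (.g (nat_lit 4) .nil .nil))))))) (.nd (nat_lit 2) (.nd (nat_lit 3) (.nd (nat_lit 4) (.nd (nat_lit 5) 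
(.lf (nat_lit 252162) (.g (nat_lit 4020) (.e (nat_lit 163884) (nat_lit 5) (.e (nat_lit 221194) (nat_lit 11) (.e (nat_lit 336213) (nat_lit 13) (.e (nat_lit 393281) (nat_lit 23) (.e (nat_lit 426108) (nat_lit 1) (.e (nat_lit 164332) (nat_lit 230) .nil)))))) (.g (nat_lit 0) .nil .nil))) 
(.lf (nat_lit 252194) (.g (nat_lit 1666) (.e (nat_lit 163884) (nat_lit 5) (.e (nat_lit 221194) (nat_lit 11) (.e (nat_lit 336220) (nat_lit 13) (.e (nat_lit 393281) (nat_lit 23) (.e (nat_lit 426099) (nat_lit 1) .nil))))) .nil))) (.nd (nat_lit 5) 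
(.lf (nat_lit 252178) (.g (nat_lit 2116) (.e (nat_lit 163884) (nat_lit 5) (.e (nat_lit 221194) (nat_lit 11) (.e (nat_lit 336215) (nat_lit 13) (.e (nat_lit 393271) (nat_lit 23) (.e (nat_lit 426112) (nat_lit 1) (.e (nat_lit 164326) (nat_lit 230) .nil)))))) (.g (nat_lit 4) .nil .nil))) 
(.lf (nat_lit 252210) (.g (nat_lit 3275) (.e (nat_lit 163884) (nat_lit 5) (.e (nat_lit 221194) (nat_lit 11) (.e (nat_lit 336222) (nat_lit 13) (.e (nat_lit 393271) (nat_lit 23) (.e (nat_lit 426112) (nat_lit 1) (.e (nat_lit 164327) (nat_lit 230) .nil)))))) (.g (nat_lit 0) .nil .nil))))) (.nd (nat_lit 4) (.nd (nat_lit 5) 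
(.lf (nat_lit 252170) (.g (nat_lit 1798) (.e (nat_lit 163884) (nat_lit 5) (.e (nat_lit 221194) (nat_lit 11) (.e (nat_lit 336214) (nat_lit 13) (.e (nat_lit 393281) (nat_lit 23) (.e (nat_lit 426100) (nat_lit 1) (.e (nat_lit 164322) (nat_lit 230) .nil)))))) (.g (nat_lit 4) .nil .nil))) 
(.lf (nat_lit 252202) (.g (nat_lit 1979) (.e (nat_lit 163884) (nat_lit 5) (.e (nat_lit 221194) (nat_lit 11) (.e (nat_lit 336221) (nat_lit 13) (.e (nat_lit 393281) (nat_lit 23) (.e (nat_lit 426099) (nat_lit 1) (.e (nat_lit 164329) (nat_lit 230) .nil)))))) (.g (nat_lit 5) .nil .nil)))) (.nd (nat_lit 5) 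
(.lf (nat_lit 252186) (.g (nat_lit 2903) (.e (nat_lit 163884) (nat_lit 5) (.e (nat_lit 221194) (nat_lit 11) (.e (nat_lit 336215) (nat_lit 13) (.e (nat_lit 393281) (nat_lit 23) (.e (nat_lit 426100) (nat_lit 1) (.e (nat_lit 164329) (nat_lit 230) .nil)))))) (.g (nat_lit 0) .nil .nil))) 
(.lf (nat_lit 252218) (.g (nat_lit 2150) (.e (nat_lit 163884) (nat_lit 5) (.e (nat_lit 221194) (nat_lit 11) (.e (nat_lit 336222) (nat_lit 13) (.e (nat_lit 393281) (nat_lit 23) (.e (nat_lit 426099) (nat_lit 1) (.e (nat_lit 164329) (nat_lit 230) .nil)))))) (.g (nat_lit 6) .nil .nil)))))) (.nd (nat_lit 3) (.nd (nat_lit 4) (.nd (nat_lit 5) 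
(.lf (nat_lit 252166) (.g (nat_lit 2122) (.e (nat_lit 163884) (nat_lit 5) (.e (nat_lit 221194) (nat_lit 11) (.e (nat_lit 336213) (nat_lit 13) (.e (nat_lit 393289) (nat_lit 25) .nil)))) .nil)) 
(.lf (nat_lit 252198) (.g (nat_lit 2303) (.e (nat_lit 163884) (nat_lit 5) (.e (nat_lit 221194) (nat_lit 11) (.e (nat_lit 336220) (nat_lit 13) (.e (nat_lit 393281) (nat_lit 23) (.e (nat_lit 426108) (nat_lit 1) (.e (nat_lit 164332) (nat_lit 230) .nil)))))) (.g (nat_lit 4) .nil .nil)))) (.nd (nat_lit 5) 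
(.lf (nat_lit 252182) (.g (nat_lit 1619) (.e (nat_lit 163884) (nat_lit 5) (.e (nat_lit 221194) (nat_lit 11) (.e (nat_lit 336215) (nat_lit 13) (.e (nat_lit 393281) (nat_lit 23) (.e (nat_lit 426098) (nat_lit 1) (.e (nat_lit 164329) (nat_lit 230) .nil)))))) (.g (nat_lit 4) .nil .nil))) 
(.lf (nat_lit 252214) (.g (nat_lit 3059) (.e (nat_lit 163884) (nat_lit 5) (.e (nat_lit 221194) (nat_lit 11) (.e (nat_lit 336222) (nat_lit 13) (.e (nat_lit 393279) (nat_lit 23) (.e (nat_lit 426110) (nat_lit 1) (.e (nat_lit 164332) (nat_lit 230) .nil)))))) (.g (nat_lit 0) .nil .nil))))) (.nd (nat_lit 4) (.nd (nat_lit 5) 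
(.lf (nat_lit 252174) (.g (nat_lit 3614) (.e (nat_lit 163884) (nat_lit 5) (.e (nat_lit 221194) (nat_lit 11) (.e (nat_lit 336214) (nat_lit 13) (.e (nat_lit 393281) (nat_lit 23) (.e (nat_lit 426108) (nat_lit 1) (.e (nat_lit 164332) (nat_lit 230) .nil)))))) (.g (nat_lit 0) .nil .nil))) 
(.lf (nat_lit 252206) (.g (nat_lit 3341) (.e (nat_lit 163884) (nat_lit 5) (.e (nat_lit 221194) (nat_lit 11) (.e (nat_lit 336221) (nat_lit 13) (.e (nat_lit 393281) (nat_lit 23) (.e (nat_lit 426108) (nat_lit 1) (.e (nat_lit 164332) (nat_lit 230) .nil)))))) (.g (nat_lit 6) .nil .nil)))) (.nd (nat_lit 5) 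
(.lf (nat_lit 252190) (.g (nat_lit 3626) (.e (nat_lit 163884) (nat_lit 5) (.e (nat_lit 221194) (nat_lit 11) (.e (nat_lit 336215) (nat_lit 13) (.e (nat_lit 393281) (nat_lit 23) (.e (nat_lit 426108) (nat_lit 1) (.e (nat_lit 164332) (nat_lit 230) .nil)))))) (.g (nat_lit 0) .nil .nil))) 
(.lf (nat_lit 252222) (.g (nat_lit 2949) (.e (nat_lit 163884) (nat_lit 5) (.e (nat_lit 221194) (nat_lit 11) (.e (nat_lit 336222) (nat_lit 13) (.e (nat_lit 393281) (nat_lit 23) (.e (nat_lit 426100) (nat_lit 1) (.e (nat_lit 164330) (nat_lit 230) .nil)))))) (.g (nat_lit 0) .nil .nil)))))))) (.nd (nat_lit 1) (.nd (nat_lit 2) (.nd (nat_lit 3) (.nd (nat_lit 4) (.nd (nat_lit 5) 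
(.lf (nat_lit 252161) (.g (nat_lit 3480) (.e (nat_lit 163884) (nat_lit 5) (.e (nat_lit 221194) (nat_lit 11) (.e (nat_lit 336213) (nat_lit 13) (.e (nat_lit 393281) (nat_lit 23) (.e (nat_lit 426108) (nat_lit 1) (.e (nat_lit 164330) (nat_lit 230) .nil)))))) (.g (nat_lit 6) .nil .nil))) 
(.lf (nat_lit 252193) (.g (nat_lit 2046) (.e (nat_lit 163884) (nat_lit 5) (.e (nat_lit 221194) (nat_lit 11) (.e (nat_lit 336220) (nat_lit 13) (.e (nat_lit 393281) (nat_lit 23) (.e (nat_lit 426098) (nat_lit 1) (.e (nat_lit 164325) (nat_lit 230) .nil)))))) (.g (nat_lit 4) .nil .nil)))) (.nd (nat_lit 5) 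
(.lf (nat_lit 252177) (.g (nat_lit 2300) (.e (nat_lit 163884) (nat_lit 5) (.e (nat_lit 221194) (nat_lit 11) (.e (nat_lit 336215) (nat_lit 13) (.e (nat_lit 393271) (nat_lit 23) (.e (nat_lit 426112) (nat_lit 1) (.e (nat_lit 164324) (nat_lit 230) .nil)))))) (.g (nat_lit 4) .nil .nil))) 
(.lf (nat_lit 252209) (.g (nat_lit 2628) (.e (nat_lit 163884) (nat_lit 5) (.e (nat_lit 221194) (nat_lit 11) (.e (nat_lit 336222) (nat_lit 13) (.e (nat_lit 393271) (nat_lit 23) (.e (nat_lit 426112) (nat_lit 1) (.e (nat_lit 164326) (nat_lit 230) .nil)))))) (.g (nat_lit 6) .nil .nil))))) (.nd (nat_lit 4) (.nd (nat_lit 5) 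
(.lf (nat_lit 252169) (.g (nat_lit 3123) (.e (nat_lit 163884) (nat_lit 5) (.e (nat_lit 221194) (nat_lit 11) (.e (nat_lit 336214) (nat_lit 13) (.e (nat_lit 393281) (nat_lit 23) (.e (nat_lit 426098) (nat_lit 1) (.e (nat_lit 164325) (nat_lit 230) .nil)))))) (.g (nat_lit 0) .nil .nil))) 
(.lf (nat_lit 252201) (.g (nat_lit 2971) (.e (nat_lit 163884) (nat_lit 5) (.e (nat_lit 221194) (nat_lit 11) (.e (nat_lit 336221) (nat_lit 13) (.e (nat_lit 393281) (nat_lit 23) (.e (nat_lit 426098) (nat_lit 1) (.e (nat_lit 164325) (nat_lit 230) .nil)))))) (.g (nat_lit 0) .nil .nil)))) (.nd (nat_lit 5) 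
(.lf (nat_lit 252185) (.g (nat_lit 1859) (.e (nat_lit 163884) (nat_lit 5) (.e (nat_lit 221194) (nat_lit 11) (.e (nat_lit 336215) (nat_lit 13) (.e (nat_lit 393281) (nat_lit 23) (.e (nat_lit 426100) (nat_lit 1) (.e (nat_lit 164322) (nat_lit 230) .nil)))))) (.g (nat_lit 4) .nil .nil))) 
(.lf (nat_lit 252217) (.g (nat_lit 2983) (.e (nat_lit 163884) (nat_lit 5) (.e (nat_lit 221194) (nat_lit 11) (.e (nat_lit 336222) (nat_lit 13) (.e (nat_lit 393281) (nat_lit 23) (.e (nat_lit 426098) (nat_lit 1) (.e (nat_lit 164327) (nat_lit 230) .nil)))))) (.g (nat_lit 0) .nil .nil)))))) (.nd (nat_lit 3) (.nd (nat_lit 4) (.nd (nat_lit 5) 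
(.lf (nat_lit 252165) (.g (nat_lit 2715) (.e (nat_lit 163884) (nat_lit 5) (.e (nat_lit 221194) (nat_lit 11) (.e (nat_lit 336213) (nat_lit 13) (.e (nat_lit 393286) (nat_lit 25) .nil)))) .nil)) 
(.lf (nat_lit 252197) (.g (nat_lit 1845) (.e (nat_lit 163884) (nat_lit 5) (.e (nat_lit 221194) (nat_lit 11) (.e (nat_lit 336220) (nat_lit 13) (.e (nat_lit 393281) (nat_lit 23) (.e (nat_lit 426108) (nat_lit 1) (.e (nat_lit 164329) (nat_lit 230) .nil)))))) (.g (nat_lit 4) .nil .nil)))) (.nd (nat_lit 5) 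
(.lf (nat_lit 252181) (.g (nat_lit 881) (.e (nat_lit 163884) (nat_lit 5) (.e (nat_lit 221194) (nat_lit 11) (.e (nat_lit 336215) (nat_lit 13) (.e (nat_lit 393281) (nat_lit 23) .nil)))) .nil)) 
(.lf (nat_lit 252213) (.g (nat_lit 2891) (.e (nat_lit 163884) (nat_lit 5) (.e (nat_lit 221194) (nat_lit 11) (.e (nat_lit 336222) (nat_lit 13) (.e (nat_lit 393279) (nat_lit 23) (.e (nat_lit 426110) (nat_lit 1) (.e (nat_lit 164327) (nat_lit 230) .nil)))))) (.g (nat_lit 0) .nil .nil))))) (.nd (nat_lit 4) (.nd (nat_lit 5) 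
(.lf (nat_lit 252173) (.g (nat_lit 3202) (.e (nat_lit 163884) (nat_lit 5) (.e (nat_lit 221194) (nat_lit 11) (.e (nat_lit 336214) (nat_lit 13) (.e (nat_lit 393281) (nat_lit 23) (.e (nat_lit 426108) (nat_lit 1) (.e (nat_lit 164329) (nat_lit 230) .nil)))))) (.g (nat_lit 0) .nil .nil))) 
(.lf (nat_lit 252205) (.g (nat_lit 2957) (.e (nat_lit 163884) (nat_lit 5) (.e (nat_lit 221194) (nat_lit 11) (.e (nat_lit 336221) (nat_lit 13) (.e (nat_lit 393281) (nat_lit 23) (.e (nat_lit 426108) (nat_lit 1) (.e (nat_lit 164329) (nat_lit 230) .nil)))))) (.g (nat_lit 6) .nil .nil)))) (.nd (nat_lit 5) 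
(.lf (nat_lit 252189) (.g (nat_lit 3037) (.e (nat_lit 163884) (nat_lit 5) (.e (nat_lit 221194) (nat_lit 11) (.e (nat_lit 336215) (nat_lit 13) (.e (nat_lit 393281) (nat_lit 23) (.e (nat_lit 426108) (nat_lit 1) (.e (nat_lit 164330) (nat_lit 230) .nil)))))) (.g (nat_lit 6) .nil .nil))) 
(.lf (nat_lit 252221) (.g (nat_lit 2752) (.e (nat_lit 163884) (nat_lit 5) (.e (nat_lit 221194) (nat_lit 11) (.e (nat_lit 336222) (nat_lit 13) (.e (nat_lit 393281) (nat_lit 23) (.e (nat_lit 426100) (nat_lit 1) (.e (nat_lit 164329) (nat_lit 230) .nil)))))) (.g (nat_lit 0) .nil .nil))))))) (.nd (nat_lit 2) (.nd (nat_lit 3) (.nd (nat_lit 4) (.nd (nat_lit 5) 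
(.lf (nat_lit 252163) (.g (nat_lit 1272) (.e (nat_lit 163884) (nat_lit 5) (.e (nat_lit 221194) (nat_lit 11) (.e (nat_lit 336213) (nat_lit 13) (.e (nat_lit 401152) (nat_lit 23) .nil)))) .nil)) 
(.lf (nat_lit 252195) (.g (nat_lit 1888) (.e (nat_lit 163884) (nat_lit 5) (.e (nat_lit 221194) (nat_lit 11) (.e (nat_lit 336220) (nat_lit 13) (.e (nat_lit 393281) (nat_lit 23) (.e (nat_lit 426100) (nat_lit 1) (.e (nat_lit 164330) (nat_lit 230) .nil)))))) (.g (nat_lit 4) .nil .nil)))) (.nd (nat_lit 5) 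
(.lf (nat_lit 252179) (.g (nat_lit 2665) (.e (nat_lit 163884) (nat_lit 5) (.e (nat_lit 221194) (nat_lit 11) (.e (nat_lit 336215) (nat_lit 13) (.e (nat_lit 393271) (nat_lit 23) (.e (nat_lit 426112) (nat_lit 1) (.e (nat_lit 164327) (nat_lit 230) .nil)))))) (.g (nat_lit 5) .nil .nil))) 
(.lf (nat_lit 252211) (.g (nat_lit 2229) (.e (nat_lit 163884) (nat_lit 5) (.e (nat_lit 221194) (nat_lit 11) (.e (nat_lit 336222) (nat_lit 13) (.e (nat_lit 393275) (nat_lit 23) (.e (nat_lit 426109) (nat_lit 1) (.e (nat_lit 164326) (nat_lit 230) .nil)))))) (.g (nat_lit 6) .nil .nil))))) (.nd (nat_lit 4) (.nd (nat_lit 5) 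
(.lf (nat_lit 252171) (.g (nat_lit 2895) (.e (nat_lit 163884) (nat_lit 5) (.e (nat_lit 221194) (nat_lit 11) (.e (nat_lit 336214) (nat_lit 13) (.e (nat_lit 393281) (nat_lit 23) (.e (nat_lit 426100) (nat_lit 1) (.e (nat_lit 164329) (nat_lit 230) .nil)))))) (.g (nat_lit 6) .nil .nil))) 
(.lf (nat_lit 252203) (.g (nat_lit 2667) (.e (nat_lit 163884) (nat_lit 5) (.e (nat_lit 221194) (nat_lit 11) (.e (nat_lit 336221) (nat_lit 13) (.e (nat_lit 393281) (nat_lit 23) (.e (nat_lit 426100) (nat_lit 1) (.e (nat_lit 164329) (nat_lit 230) .nil)))))) (.g (nat_lit 6) .nil .nil)))) (.nd (nat_lit 5) 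
(.lf (nat_lit 252187) (.g (nat_lit 3127) (.e (nat_lit 163884) (nat_lit 5) (.e (nat_lit 221194) (nat_lit 11) (.e (nat_lit 336215) (nat_lit 13) (.e (nat_lit 393281) (nat_lit 23) (.e (nat_lit 426100) (nat_lit 1) (.e (nat_lit 164330) (nat_lit 230) .nil)))))) (.g (nat_lit 0) .nil .nil))) 
(.lf (nat_lit 252219) (.g (nat_lit 2438) (.e (nat_lit 163884) (nat_lit 5) (.e (nat_lit 221194) (nat_lit 11) (.e (nat_lit 336222) (nat_lit 13) (.e (nat_lit 393281) (nat_lit 23) (.e (nat_lit 426099) (nat_lit 1) (.e (nat_lit 164330) (nat_lit 230) .nil)))))) (.g (nat_lit 0) .nil .nil)))))) (.nd (nat_lit 3) (.nd (nat_lit 4) (.nd (nat_lit 5) 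
(.lf (nat_lit 252167) (.g (nat_lit 563) (.e (nat_lit 163884) (nat_lit 5) (.e (nat_lit 221194) (nat_lit 11) (.e (nat_lit 336214) (nat_lit 13) .nil))) .nil)) 
(.lf (nat_lit 252199) (.g (nat_lit 463) (.e (nat_lit 163884) (nat_lit 5) (.e (nat_lit 221194) (nat_lit 11) (.e (nat_lit 336221) (nat_lit 13) .nil))) .nil))) (.nd (nat_lit 5) 
(.lf (nat_lit 252183) (.g (nat_lit 2340) (.e (nat_lit 163884) (nat_lit 5) (.e (nat_lit 221194) (nat_lit 11) (.e (nat_lit 336215) (nat_lit 13) (.e (nat_lit 393281) (nat_lit 23) (.e (nat_lit 426099) (nat_lit 1) (.e (nat_lit 164329) (nat_lit 230) .nil)))))) (.g (nat_lit 6) .nil .nil))) 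
(.lf (nat_lit 252215) (.g (nat_lit 2409) (.e (nat_lit 163884) (nat_lit 5) (.e (nat_lit 221194) (nat_lit 11) (.e (nat_lit 336222) (nat_lit 13) (.e (nat_lit 393281) (nat_lit 23) (.e (nat_lit 426098) (nat_lit 1) (.e (nat_lit 164324) (nat_lit 230) .nil)))))) (.g (nat_lit 5) .nil .nil))))) (.nd (nat_lit 4) (.nd (nat_lit 5) 
(.lf (nat_lit 252175) (.g (nat_lit 370) (.e (nat_lit 163884) (nat_lit 5) (.e (nat_lit 221194) (nat_lit 11) (.e (nat_lit 336215) (nat_lit 13) .nil))) .nil)) 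
(.lf (nat_lit 252207) (.g (nat_lit 347) (.e (nat_lit 163884) (nat_lit 5) (.e (nat_lit 221194) (nat_lit 11) (.e (nat_lit 336222) (nat_lit 13) .nil))) .nil))) (.nd (nat_lit 5) 
(.lf (nat_lit 252191) (.g (nat_lit 761) (.e (nat_lit 163884) (nat_lit 5) (.e (nat_lit 221194) (nat_lit 11) (.e (nat_lit 336220) (nat_lit 13) .nil))) .nil)) 
(.lf (nat_lit 252223) (.g (nat_lit 3044) (.e (nat_lit 163884) (nat_lit 5) (.e (nat_lit 221194) (nat_lit 11) (.e (nat_lit 336222) (nat_lit 13) (.e (nat_lit 393281) (nat_lit 23) (.e (nat_lit 426108) (nat_lit 1) (.e (nat_lit 164329) (nat_lit 230) .nil)))))) (.g (nat_lit 0) .nil .nil)))))))))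

noncomputable def tv3271 : DT := (.nd (nat_lit 0) (.nd (nat_lit 1) (.nd (nat_lit 2) (.nd (nat_lit 3) (.nd (nat_lit 4) (.nd (nat_lit 5) 
(.lf (nat_lit 252224) (.g (nat_lit 2922) (.e (nat_lit 163884) (nat_lit 5) (.e (nat_lit 221194) (nat_lit 11) (.e (nat_lit 336222) (nat_lit 13) (.e (nat_lit 393281) (nat_lit 23) (.e (nat_lit 426108) (nat_lit 1) (.e (nat_lit 164330) (nat_lit 230) .nil)))))) (.g (nat_lit 6) .nil .nil))) 
(.lf (nat_lit 252256) (.g (nat_lit 4865) (.e (nat_lit 163884) (nat_lit 5) (.e (nat_lit 221207) (nat_lit 21) (.e (nat_lit 164401) (nat_lit 256) (.e (nat_lit 57427) (nat_lit 15) (.e (nat_lit 360474) (nat_lit 8) (.e (nat_lit 557091) (nat_lit 12) (.e (nat_lit 163856) (nat_lit 0) (.e (nat_lit 5599) (nat_lit 310) .nil)))))))) (.g (nat_lit 6) .nil .nil)))) (.nd (nat_lit 5) 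
(.lf (nat_lit 252240) (.g (nat_lit 3293) (.e (nat_lit 163884) (nat_lit 5) (.e (nat_lit 221194) (nat_lit 11) (.e (nat_lit 336223) (nat_lit 13) (.e (nat_lit 393281) (nat_lit 23) (.e (nat_lit 426108) (nat_lit 1) (.e (nat_lit 164329) (nat_lit 230) .nil)))))) (.g (nat_lit 6) .nil .nil))) 
(.lf (nat_lit 252272) (.g (nat_lit 1928) (.e (nat_lit 163885) (nat_lit 5) (.e (nat_lit 221190) (nat_lit 11) (.e (nat_lit 336088) (nat_lit 9) (.e (nat_lit 336443) (nat_lit 32) (.e (nat_lit 466969) (nat_lit 21) .nil))))) .nil)))) (.nd (nat_lit 4) (.nd (nat_lit 5) 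
(.lf (nat_lit 252232) (.g (nat_lit 3517) (.e (nat_lit 163884) (nat_lit 5) (.e (nat_lit 221194) (nat_lit 11) (.e (nat_lit 336223) (nat_lit 13) (.e (nat_lit 393281) (nat_lit 23) (.e (nat_lit 426098) (nat_lit 1) (.e (nat_lit 164332) (nat_lit 230) .nil)))))) (.g (nat_lit 0) .nil .nil))) 
(.lf (nat_lit 252264) (.g (nat_lit 4156) (.e (nat_lit 163884) (nat_lit 5) (.e (nat_lit 221208) (nat_lit 21) (.e (nat_lit 164402) (nat_lit 256) (.e (nat_lit 57427) (nat_lit 15) (.e (nat_lit 360474) (nat_lit 8) (.e (nat_lit 557094) (nat_lit 12) (.e (nat_lit 163856) (nat_lit 0) (.e (nat_lit 5599) (nat_lit 310) .nil)))))))) (.g (nat_lit 6) .nil .nil)))) (.nd (nat_lit 5) 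
(.lf (nat_lit 252248) (.g (nat_lit 2416) (.e (nat_lit 163884) (nat_lit 5) (.e (nat_lit 229120) (nat_lit 12) (.e (nat_lit 344129) (nat_lit 26) (.e (nat_lit 557103) (nat_lit 14) (.e (nat_lit 180263) (nat_lit 21) (.e (nat_lit 663579) (nat_lit 9) (.e (nat_lit 2610) (nat_lit 163) (.e (nat_lit 164332) (nat_lit 230) .nil)))))))) (.g (nat_lit 4) .nil .nil))) 
(.lf (nat_lit 252280) (.g (nat_lit 2432) (.e (nat_lit 163885) (nat_lit 5) (.e (nat_lit 221190) (nat_lit 11) (.e (nat_lit 336213) (nat_lit 13) (.e (nat_lit 393281) (nat_lit 23) (.e (nat_lit 426098) (nat_lit 1) (.e (nat_lit 164332) (nat_lit 230) .nil)))))) (.g (nat_lit 4) .nil .nil)))))) (.nd (nat_lit 3) (.nd (nat_lit 4) (.nd (nat_lit 5) 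
(.lf (nat_lit 252228) (.g (nat_lit 3018) (.e (nat_lit 163884) (nat_lit 5) (.e (nat_lit 221194) (nat_lit 11) (.e (nat_lit 336222) (nat_lit 13) (.e (nat_lit 393283) (nat_lit 24) (.e (nat_lit 434209) (nat_lit 18) (.e (nat_lit 5224) (nat_lit 296) .nil)))))) (.g (nat_lit 0) .nil .nil))) 
(.lf (nat_lit 252260) (.g (nat_lit 4233) (.e (nat_lit 163884) (nat_lit 5) (.e (nat_lit 221208) (nat_lit 21) (.e (nat_lit 164401) (nat_lit 256) (.e (nat_lit 57427) (nat_lit 15) (.e (nat_lit 360474) (nat_lit 8) (.e (nat_lit 557091) (nat_lit 12) (.e (nat_lit 163856) (nat_lit 0) (.e (nat_lit 5599) (nat_lit 310) .nil)))))))) (.g (nat_lit 6) .nil .nil)))) (.nd (nat_lit 5) 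
(.lf (nat_lit 252244) (.g (nat_lit 1396) (.e (nat_lit 163884) (nat_lit 5) (.e (nat_lit 229120) (nat_lit 12) (.e (nat_lit 344117) (nat_lit 21) (.e (nat_lit 516122) (nat_lit 2) (.e (nat_lit 213016) (nat_lit 9) (.e (nat_lit 2710) (nat_lit 170) (.e (nat_lit 221208) (nat_lit 21) (.e (nat_lit 164332) (nat_lit 230) .nil)))))))) (.g (nat_lit 4) .nil .nil))) 
(.lf (nat_lit 252276) (.g (nat_lit 2376) (.e (nat_lit 163885) (nat_lit 5) (.e (nat_lit 221190) (nat_lit 11) (.e (nat_lit 336088) (nat_lit 9) (.e (nat_lit 336443) (nat_lit 32) (.e (nat_lit 466971) (nat_lit 21) (.e (nat_lit 164322) (nat_lit 230) .nil)))))) (.g (nat_lit 4) .nil .nil))))) (.nd (nat_lit 4) (.nd (nat_lit 5) 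
(.lf (nat_lit 252236) (.g (nat_lit 2007) (.e (nat_lit 163884) (nat_lit 5) (.e (nat_lit 221194) (nat_lit 11) (.e (nat_lit 336223) (nat_lit 13) (.e (nat_lit 393281) (nat_lit 23) (.e (nat_lit 426100) (nat_lit 1) (.e (nat_lit 164322) (nat_lit 230) .nil)))))) (.g (nat_lit 4) .nil .nil))) 
(.lf (nat_lit 252268) (.g (nat_lit 2503) (.e (nat_lit 163884) (nat_lit 5) (.e (nat_lit 221212) (nat_lit 22) (.e (nat_lit 196654) (nat_lit 11) (.e (nat_lit 16459) (nat_lit 12) (.e (nat_lit 475177) (nat_lit 24) (.e (nat_lit 524032) (nat_lit 18) (.e (nat_lit 57927) (nat_lit 282) .nil))))))) (.g (nat_lit 4) .nil .nil)))) (.nd (nat_lit 5) 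
(.lf (nat_lit 252252) (.g (nat_lit 1730) (.e (nat_lit 163884) (nat_lit 5) (.e (nat_lit 221206) (nat_lit 21) (.e (nat_lit 164330) (nat_lit 230) (.e (nat_lit 171776) (nat_lit 66) .nil)))) .nil)) 
(.lf (nat_lit 252284) (.g (nat_lit 2900) (.e (nat_lit 163885) (nat_lit 5) (.e (nat_lit 221190) (nat_lit 11) (.e (nat_lit 336213) (nat_lit 13) (.e (nat_lit 393281) (nat_lit 23) (.e (nat_lit 426108) (nat_lit 1) (.e (nat_lit 164332) (nat_lit 230) .nil)))))) (.g (nat_lit 4) .nil .nil))))))) (.nd (nat_lit 2) (.nd (nat_lit 3) (.nd (nat_lit 4) (.nd (nat_lit 5) 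
(.lf (nat_lit 252226) (.g (nat_lit 2849) (.e (nat_lit 163884) (nat_lit 5) (.e (nat_lit 221194) (nat_lit 11) (.e (nat_lit 336222) (nat_lit 13) (.e (nat_lit 393282) (nat_lit 24) (.e (nat_lit 434209) (nat_lit 18) (.e (nat_lit 5223) (nat_lit 296) .nil)))))) (.g (nat_lit 0) .nil .nil))) 
(.lf (nat_lit 252258) (.g (nat_lit 3712) (.e (nat_lit 163884) (nat_lit 5) (.e (nat_lit 221207) (nat_lit 21) (.e (nat_lit 164401) (nat_lit 256) (.e (nat_lit 57427) (nat_lit 15) (.e (nat_lit 360474) (nat_lit 8) (.e (nat_lit 557094) (nat_lit 12) (.e (nat_lit 163856) (nat_lit 0) (.e (nat_lit 5599) (nat_lit 310) .nil)))))))) (.g (nat_lit 6) .nil .nil)))) (.nd (nat_lit 5) 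
(.lf (nat_lit 252242) (.g (nat_lit 3759) (.e (nat_lit 163884) (nat_lit 5) (.e (nat_lit 221194) (nat_lit 11) (.e (nat_lit 336223) (nat_lit 13) (.e (nat_lit 393281) (nat_lit 23) (.e (nat_lit 426108) (nat_lit 1) (.e (nat_lit 164332) (nat_lit 230) .nil)))))) (.g (nat_lit 6) .nil .nil))) 
(.lf (nat_lit 252274) (.g (nat_lit 3255) (.e (nat_lit 163885) (nat_lit 5) (.e (nat_lit 221190) (nat_lit 11) (.e (nat_lit 336088) (nat_lit 9) (.e (nat_lit 336443) (nat_lit 32) (.e (nat_lit 466969) (nat_lit 21) (.e (nat_lit 164332) (nat_lit 230) .nil)))))) (.g (nat_lit 5) .nil .nil))))) (.nd (nat_lit 4) (.nd (nat_lit 5) 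
(.lf (nat_lit 252234) (.g (nat_lit 2857) (.e (nat_lit 163884) (nat_lit 5) (.e (nat_lit 221194) (nat_lit 11) (.e (nat_lit 336223) (nat_lit 13) (.e (nat_lit 393281) (nat_lit 23) (.e (nat_lit 426099) (nat_lit 1) (.e (nat_lit 164330) (nat_lit 230) .nil)))))) (.g (nat_lit 0) .nil .nil))) 
(.lf (nat_lit 252266) (.g (nat_lit 3040) (.e (nat_lit 163884) (nat_lit 5) (.e (nat_lit 221210) (nat_lit 22) (.e (nat_lit 196656) (nat_lit 11) (.e (nat_lit 16456) (nat_lit 12) (.e (nat_lit 475177) (nat_lit 24) (.e (nat_lit 524032) (nat_lit 18) (.e (nat_lit 57927) (nat_lit 282) .nil))))))) (.g (nat_lit 4) .nil .nil)))) (.nd (nat_lit 5) 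
(.lf (nat_lit 252250) (.g (nat_lit 1682) (.e (nat_lit 163884) (nat_lit 5) (.e (nat_lit 229120) (nat_lit 12) (.e (nat_lit 344130) (nat_lit 26) (.e (nat_lit 557103) (nat_lit 14) (.e (nat_lit 180263) (nat_lit 21) (.e (nat_lit 663580) (nat_lit 9) (.e (nat_lit 2611) (nat_lit 163) (.e (nat_lit 164329) (nat_lit 230) .nil)))))))) (.g (nat_lit 4) .nil .nil))) 
(.lf (nat_lit 252282) (.g (nat_lit 2770) (.e (nat_lit 163885) (nat_lit 5) (.e (nat_lit 221190) (nat_lit 11) (.e (nat_lit 336213) (nat_lit 13) (.e (nat_lit 393281) (nat_lit 23) (.e (nat_lit 426100) (nat_lit 1) (.e (nat_lit 164332) (nat_lit 230) .nil)))))) (.g (nat_lit 4) .nil .nil)))))) (.nd (nat_lit 3) (.nd (nat_lit 4) (.nd (nat_lit 5) 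
(.lf (nat_lit 252230) (.g (nat_lit 3480) (.e (nat_lit 163884) (nat_lit 5) (.e (nat_lit 221194) (nat_lit 11) (.e (nat_lit 336223) (nat_lit 13) (.e (nat_lit 393281) (nat_lit 23) (.e (nat_lit 426098) (nat_lit 1) (.e (nat_lit 164325) (nat_lit 230) .nil)))))) (.g (nat_lit 0) .nil .nil))) 
(.lf (nat_lit 252262) (.g (nat_lit 4478) (.e (nat_lit 163884) (nat_lit 5) (.e (nat_lit 221208) (nat_lit 21) (.e (nat_lit 164402) (nat_lit 256) (.e (nat_lit 57427) (nat_lit 15) (.e (nat_lit 360474) (nat_lit 8) (.e (nat_lit 557093) (nat_lit 12) (.e (nat_lit 163856) (nat_lit 0) (.e (nat_lit 5599) (nat_lit 310) .nil)))))))) (.g (nat_lit 6) .nil .nil)))) (.nd (nat_lit 5) 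
(.lf (nat_lit 252246) (.g (nat_lit 1825) (.e (nat_lit 163884) (nat_lit 5) (.e (nat_lit 229120) (nat_lit 12) (.e (nat_lit 344117) (nat_lit 21) (.e (nat_lit 516130) (nat_lit 3) (.e (nat_lit 221220) (nat_lit 25) (.e (nat_lit 221207) (nat_lit 21) (.e (nat_lit 164326) (nat_lit 230) .nil))))))) (.g (nat_lit 4) .nil .nil))) 
(.lf (nat_lit 252278) (.g (nat_lit 2986) (.e (nat_lit 163885) (nat_lit 5) (.e (nat_lit 221190) (nat_lit 11) (.e (nat_lit 336088) (nat_lit 9) (.e (nat_lit 336443) (nat_lit 32) (.e (nat_lit 466971) (nat_lit 21) (.e (nat_lit 164332) (nat_lit 230) .nil)))))) (.g (nat_lit 5) .nil .nil))))) (.nd (nat_lit 4) (.nd (nat_lit 5) 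
(.lf (nat_lit 252238) (.g (nat_lit 3360) (.e (nat_lit 163884) (nat_lit 5) (.e (nat_lit 221194) (nat_lit 11) (.e (nat_lit 336223) (nat_lit 13) (.e (nat_lit 393281) (nat_lit 23) (.e (nat_lit 426100) (nat_lit 1) (.e (nat_lit 164330) (nat_lit 230) .nil)))))) (.g (nat_lit 0) .nil .nil))) 
(.lf (nat_lit 252270) (.g (nat_lit 2401) (.e (nat_lit 163884) (nat_lit 5) (.e (nat_lit 221215) (nat_lit 23) (.e (nat_lit 204813) (nat_lit 9) (.e (nat_lit 426188) (nat_lit 9) (.e (nat_lit 426436) (nat_lit 18) (.e (nat_lit 106240) (nat_lit 1) (.e (nat_lit 57927) (nat_lit 282) .nil))))))) (.g (nat_lit 4) .nil .nil)))) (.nd (nat_lit 5) 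
(.lf (nat_lit 252254) (.g (nat_lit 3717) (.e (nat_lit 163884) (nat_lit 5) (.e (nat_lit 221206) (nat_lit 21) (.e (nat_lit 164401) (nat_lit 256) (.e (nat_lit 57427) (nat_lit 15) (.e (nat_lit 360474) (nat_lit 8) (.e (nat_lit 557093) (nat_lit 12) (.e (nat_lit 163856) (nat_lit 0) (.e (nat_lit 5599) (nat_lit 310) .nil)))))))) (.g (nat_lit 6) .nil .nil))) 
(.lf (nat_lit 252286) (.g (nat_lit 898) (.e (nat_lit 163885) (nat_lit 5) (.e (nat_lit 221190) (nat_lit 11) (.e (nat_lit 336223) (nat_lit 13) (.e (nat_lit 393281) (nat_lit 23) .nil)))) .nil))))))) (.nd (nat_lit 1) (.nd (nat_lit 2) (.nd (nat_lit 3) (.nd (nat_lit 4) (.nd (nat_lit 5) 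
(.lf (nat_lit 252225) (.g (nat_lit 3487) (.e (nat_lit 163884) (nat_lit 5) (.e (nat_lit 221194) (nat_lit 11) (.e (nat_lit 336222) (nat_lit 13) (.e (nat_lit 393281) (nat_lit 23) (.e (nat_lit 426108) (nat_lit 1) (.e (nat_lit 164332) (nat_lit 230) .nil)))))) (.g (nat_lit 0) .nil .nil))) 
(.lf (nat_lit 252257) (.g (nat_lit 4034) (.e (nat_lit 163884) (nat_lit 5) (.e (nat_lit 221207) (nat_lit 21) (.e (nat_lit 164401) (nat_lit 256) (.e (nat_lit 57427) (nat_lit 15) (.e (nat_lit 360474) (nat_lit 8) (.e (nat_lit 557093) (nat_lit 12) (.e (nat_lit 163856) (nat_lit 0) (.e (nat_lit 5599) (nat_lit 310) .nil)))))))) (.g (nat_lit 6) .nil .nil)))) (.nd (nat_lit 5) 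
(.lf (nat_lit 252241) (.g (nat_lit 3158) (.e (nat_lit 163884) (nat_lit 5) (.e (nat_lit 221194) (nat_lit 11) (.e (nat_lit 336223) (nat_lit 13) (.e (nat_lit 393281) (nat_lit 23) (.e (nat_lit 426108) (nat_lit 1) (.e (nat_lit 164330) (nat_lit 230) .nil)))))) (.g (nat_lit 6) .nil .nil))) 
(.lf (nat_lit 252273) (.g (nat_lit 2122) (.e (nat_lit 163885) (nat_lit 5) (.e (nat_lit 221190) (nat_lit 11) (.e (nat_lit 336088) (nat_lit 9) (.e (nat_lit 336443) (nat_lit 32) (.e (nat_lit 466969) (nat_lit 21) (.e (nat_lit 164324) (nat_lit 230) .nil)))))) (.g (nat_lit 4) .nil .nil))))) (.nd (nat_lit 4) (.nd (nat_lit 5) 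
(.lf (nat_lit 252233) (.g (nat_lit 2575) (.e (nat_lit 163884) (nat_lit 5) (.e (nat_lit 221194) (nat_lit 11) (.e (nat_lit 336223) (nat_lit 13) (.e (nat_lit 393281) (nat_lit 23) (.e (nat_lit 426099) (nat_lit 1) (.e (nat_lit 164329) (nat_lit 230) .nil)))))) (.g (nat_lit 6) .nil .nil))) 
(.lf (nat_lit 252265) (.g (nat_lit 2904) (.e (nat_lit 163884) (nat_lit 5) (.e (nat_lit 221210) (nat_lit 22) (.e (nat_lit 196654) (nat_lit 11) (.e (nat_lit 16436) (nat_lit 9) (.e (nat_lit 426438) (nat_lit 18) (.e (nat_lit 106240) (nat_lit 1) (.e (nat_lit 57927) (nat_lit 282) .nil))))))) (.g (nat_lit 4) .nil .nil)))) (.nd (nat_lit 5) 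
(.lf (nat_lit 252249) (.g (nat_lit 2388) (.e (nat_lit 163884) (nat_lit 5) (.e (nat_lit 229120) (nat_lit 12) (.e (nat_lit 344130) (nat_lit 26) (.e (nat_lit 557103) (nat_lit 14) (.e (nat_lit 180225) (nat_lit 0) (.e (nat_lit 5967) (nat_lit 324) (.e (nat_lit 163864) (nat_lit 1) (.e (nat_lit 164332) (nat_lit 230) .nil)))))))) (.g (nat_lit 5) .nil .nil))) 
(.lf (nat_lit 252281) (.g (nat_lit 2530) (.e (nat_lit 163885) (nat_lit 5) (.e (nat_lit 221190) (nat_lit 11) (.e (nat_lit 336213) (nat_lit 13) (.e (nat_lit 393281) (nat_lit 23) (.e (nat_lit 426099) (nat_lit 1) (.e (nat_lit 164332) (nat_lit 230) .nil)))))) (.g (nat_lit 4) .nil .nil)))))) (.nd (nat_lit 3) (.nd (nat_lit 4) (.nd (nat_lit 5) 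
(.lf (nat_lit 252229) (.g (nat_lit 1210) (.e (nat_lit 163884) (nat_lit 5) (.e (nat_lit 221194) (nat_lit 11) (.e (nat_lit 336223) (nat_lit 13) (.e (nat_lit 393281) (nat_lit 23) .nil)))) .nil)) 
(.lf (nat_lit 252261) (.g (nat_lit 5304) (.e (nat_lit 163884) (nat_lit 5) (.e (nat_lit 221208) (nat_lit 21) (.e (nat_lit 164402) (nat_lit 256) (.e (nat_lit 57427) (nat_lit 15) (.e (nat_lit 360474) (nat_lit 8) (.e (nat_lit 557091) (nat_lit 12) (.e (nat_lit 163856) (nat_lit 0) (.e (nat_lit 5599) (nat_lit 310) .nil)))))))) (.g (nat_lit 6) .nil .nil)))) (.nd (nat_lit 5) 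
(.lf (nat_lit 252245) (.g (nat_lit 1936) (.e (nat_lit 163884) (nat_lit 5) (.e (nat_lit 229120) (nat_lit 12) (.e (nat_lit 344117) (nat_lit 21) (.e (nat_lit 516129) (nat_lit 3) (.e (nat_lit 221220) (nat_lit 25) (.e (nat_lit 221207) (nat_lit 21) (.e (nat_lit 164325) (nat_lit 230) .nil))))))) (.g (nat_lit 4) .nil .nil))) 
(.lf (nat_lit 252277) (.g (nat_lit 1968) (.e (nat_lit 163885) (nat_lit 5) (.e (nat_lit 221190) (nat_lit 11) (.e (nat_lit 336088) (nat_lit 9) (.e (nat_lit 336443) (nat_lit 32) (.e (nat_lit 466971) (nat_lit 21) (.e (nat_lit 164324) (nat_lit 230) .nil)))))) (.g (nat_lit 4) .nil .nil))))) (.nd (nat_lit 4) (.nd (nat_lit 5) 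
(.lf (nat_lit 252237) (.g (nat_lit 3143) (.e (nat_lit 163884) (nat_lit 5) (.e (nat_lit 221194) (nat_lit 11) (.e (nat_lit 336223) (nat_lit 13) (.e (nat_lit 393281) (nat_lit 23) (.e (nat_lit 426100) (nat_lit 1) (.e (nat_lit 164329) (nat_lit 230) .nil)))))) (.g (nat_lit 0) .nil .nil))) 
(.lf (nat_lit 252269) (.g (nat_lit 2044) (.e (nat_lit 163884) (nat_lit 5) (.e (nat_lit 221214) (nat_lit 23) (.e (nat_lit 204829) (nat_lit 18) (.e (nat_lit 57847) (nat_lit 252) (.e (nat_lit 57368) (nat_lit 1) .nil))))) .nil))) (.nd (nat_lit 5) 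
(.lf (nat_lit 252253) (.g (nat_lit 4548) (.e (nat_lit 163884) (nat_lit 5) (.e (nat_lit 221206) (nat_lit 21) (.e (nat_lit 164401) (nat_lit 256) (.e (nat_lit 57427) (nat_lit 15) (.e (nat_lit 360474) (nat_lit 8) (.e (nat_lit 557091) (nat_lit 12) (.e (nat_lit 163856) (nat_lit 0) (.e (nat_lit 5599) (nat_lit 310) .nil)))))))) (.g (nat_lit 6) .nil .nil))) 
(.lf (nat_lit 252285) (.g (nat_lit 1396) (.e (nat_lit 163885) (nat_lit 5) (.e (nat_lit 221190) (nat_lit 11) (.e (nat_lit 336215) (nat_lit 13) (.e (nat_lit 393281) (nat_lit 23) .nil)))) .nil)))))) (.nd (nat_lit 2) (.nd (nat_lit 3) (.nd (nat_lit 4) (.nd (nat_lit 5) 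
(.lf (nat_lit 252227) (.g (nat_lit 3220) (.e (nat_lit 163884) (nat_lit 5) (.e (nat_lit 221194) (nat_lit 11) (.e (nat_lit 336222) (nat_lit 13) (.e (nat_lit 393282) (nat_lit 24) (.e (nat_lit 434209) (nat_lit 18) (.e (nat_lit 5224) (nat_lit 296) .nil)))))) (.g (nat_lit 0) .nil .nil))) 
(.lf (nat_lit 252259) (.g (nat_lit 1781) (.e (nat_lit 163884) (nat_lit 5) (.e (nat_lit 221208) (nat_lit 21) (.e (nat_lit 164330) (nat_lit 230) (.e (nat_lit 171776) (nat_lit 66) .nil)))) .nil))) (.nd (nat_lit 5) 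
(.lf (nat_lit 252243) (.g (nat_lit 1874) (.e (nat_lit 163884) (nat_lit 5) (.e (nat_lit 229120) (nat_lit 11) (.e (nat_lit 336223) (nat_lit 13) (.e (nat_lit 393281) (nat_lit 23) (.e (nat_lit 426099) (nat_lit 1) (.e (nat_lit 164332) (nat_lit 230) .nil)))))) (.g (nat_lit 4) .nil .nil))) 
(.lf (nat_lit 252275) (.g (nat_lit 1851) (.e (nat_lit 163885) (nat_lit 5) (.e (nat_lit 221190) (nat_lit 11) (.e (nat_lit 336088) (nat_lit 9) (.e (nat_lit 336443) (nat_lit 32) (.e (nat_lit 466971) (nat_lit 21) .nil))))) .nil)))) (.nd (nat_lit 4) (.nd (nat_lit 5) 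
(.lf (nat_lit 252235) (.g (nat_lit 1978) (.e (nat_lit 163884) (nat_lit 5) (.e (nat_lit 221194) (nat_lit 11) (.e (nat_lit 336223) (nat_lit 13) (.e (nat_lit 393281) (nat_lit 23) (.e (nat_lit 426099) (nat_lit 1) (.e (nat_lit 164331) (nat_lit 230) .nil)))))) (.g (nat_lit 4) .nil .nil))) 
(.lf (nat_lit 252267) (.g (nat_lit 2530) (.e (nat_lit 163884) (nat_lit 5) (.e (nat_lit 221212) (nat_lit 22) (.e (nat_lit 196654) (nat_lit 11) (.e (nat_lit 16456) (nat_lit 12) (.e (nat_lit 475177) (nat_lit 24) (.e (nat_lit 524032) (nat_lit 18) (.e (nat_lit 57927) (nat_lit 282) .nil))))))) (.g (nat_lit 4) .nil .nil)))) (.nd (nat_lit 5) 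
(.lf (nat_lit 252251) (.g (nat_lit 2671) (.e (nat_lit 163884) (nat_lit 5) (.e (nat_lit 229120) (nat_lit 12) (.e (nat_lit 344133) (nat_lit 26) (.e (nat_lit 557103) (nat_lit 14) (.e (nat_lit 180225) (nat_lit 0) (.e (nat_lit 5968) (nat_lit 324) (.e (nat_lit 163864) (nat_lit 1) (.e (nat_lit 164332) (nat_lit 230) .nil)))))))) (.g (nat_lit 5) .nil .nil))) 
(.lf (nat_lit 252283) (.g (nat_lit 2371) (.e (nat_lit 163885) (nat_lit 5) (.e (nat_lit 221190) (nat_lit 11) (.e (nat_lit 336213) (nat_lit 13) (.e (nat_lit 393281) (nat_lit 23) (.e (nat_lit 426108) (nat_lit 1) .nil))))) .nil))))) (.nd (nat_lit 3) (.nd (nat_lit 4) (.nd (nat_lit 5) 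
(.lf (nat_lit 252231) (.g (nat_lit 1897) (.e (nat_lit 163884) (nat_lit 5) (.e (nat_lit 221194) (nat_lit 11) (.e (nat_lit 336223) (nat_lit 13) (.e (nat_lit 393281) (nat_lit 23) (.e (nat_lit 426098) (nat_lit 1) (.e (nat_lit 164329) (nat_lit 230) .nil)))))) (.g (nat_lit 4) .nil .nil))) 
(.lf (nat_lit 252263) (.g (nat_lit 3177) (.e (nat_lit 163884) (nat_lit 5) (.e (nat_lit 221208) (nat_lit 21) (.e (nat_lit 164402) (nat_lit 256) (.e (nat_lit 57427) (nat_lit 15) (.e (nat_lit 360474) (nat_lit 8) (.e (nat_lit 557093) (nat_lit 12) (.e (nat_lit 163857) (nat_lit 0) (.e (nat_lit 5599) (nat_lit 310) .nil)))))))) (.g (nat_lit 5) .nil .nil)))) (.nd (nat_lit 5) 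
(.lf (nat_lit 252247) (.g (nat_lit 1729) (.e (nat_lit 163884) (nat_lit 5) (.e (nat_lit 229120) (nat_lit 12) (.e (nat_lit 344117) (nat_lit 21) (.e (nat_lit 516130) (nat_lit 3) (.e (nat_lit 221220) (nat_lit 25) (.e (nat_lit 221208) (nat_lit 21) (.e (nat_lit 164329) (nat_lit 230) .nil))))))) (.g (nat_lit 4) .nil .nil))) 
(.lf (nat_lit 252279) (.g (nat_lit 1715) (.e (nat_lit 163885) (nat_lit 5) (.e (nat_lit 221190) (nat_lit 11) (.e (nat_lit 336213) (nat_lit 13) (.e (nat_lit 393281) (nat_lit 23) .nil)))) .nil)))) (.nd (nat_lit 4) (.nd (nat_lit 5) 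
(.lf (nat_lit 252239) (.g (nat_lit 2223) (.e (nat_lit 163884) (nat_lit 5) (.e (nat_lit 221194) (nat_lit 11) (.e (nat_lit 336223) (nat_lit 13) (.e (nat_lit 393281) (nat_lit 23) (.e (nat_lit 426105) (nat_lit 1) .nil))))) .nil)) 
(.lf (nat_lit 252271) (.g (nat_lit 2103) (.e (nat_lit 163884) (nat_lit 5) (.e (nat_lit 221215) (nat_lit 23) (.e (nat_lit 204813) (nat_lit 9) (.e (nat_lit 426188) (nat_lit 9) (.e (nat_lit 426438) (nat_lit 18) (.e (nat_lit 106240) (nat_lit 1) (.e (nat_lit 57927) (nat_lit 282) .nil))))))) (.g (nat_lit 4) .nil .nil)))) (.nd (nat_lit 5) 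
(.lf (nat_lit 252255) (.g (nat_lit 1968) (.e (nat_lit 163884) (nat_lit 5) (.e (nat_lit 221207) (nat_lit 21) (.e (nat_lit 164325) (nat_lit 230) (.e (nat_lit 171776) (nat_lit 66) .nil)))) .nil)) 
(.lf (nat_lit 252287) (.g (nat_lit 1542) (.e (nat_lit 163885) (nat_lit 5) (.e (nat_lit 221190) (nat_lit 11) (.e (nat_lit 336223) (nat_lit 13) (.e (nat_lit 393281) (nat_lit 23) (.e (nat_lit 426099) (nat_lit 1) (.e (nat_lit 164330) (nat_lit 230) .nil)))))) (.g (nat_lit 4) .nil .nil)))))))))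

noncomputable def tv3272 : DT := (.nd (nat_lit 0) (.nd (nat_lit 1) (.nd (nat_lit 2) (.nd (nat_lit 3) (.nd (nat_lit 4) (.nd (nat_lit 5) 
(.lf (nat_lit 252288) (.g (nat_lit 1730) (.e (nat_lit 163885) (nat_lit 5) (.e (nat_lit 221190) (nat_lit 11) (.e (nat_lit 336223) (nat_lit 13) (.e (nat_lit 393281) (nat_lit 23) (.e (nat_lit 426100) (nat_lit 1) (.e (nat_lit 164329) (nat_lit 230) .nil)))))) (.g (nat_lit 4) .nil .nil))) 
(.lf (nat_lit 252320) (.g (nat_lit 2842) (.e (nat_lit 163885) (nat_lit 5) (.e (nat_lit 221193) (nat_lit 11) (.e (nat_lit 336078) (nat_lit 9) (.e (nat_lit 336443) (nat_lit 32) (.e (nat_lit 466971) (nat_lit 21) (.e (nat_lit 164329) (nat_lit 230) .nil)))))) (.g (nat_lit 5) .nil .nil)))) (.nd (nat_lit 5) 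
(.lf (nat_lit 252304) (.g (nat_lit 3402) (.e (nat_lit 163885) (nat_lit 5) (.e (nat_lit 221193) (nat_lit 11) (.e (nat_lit 336076) (nat_lit 9) (.e (nat_lit 336443) (nat_lit 32) (.e (nat_lit 466969) (nat_lit 21) (.e (nat_lit 164331) (nat_lit 230) .nil)))))) (.g (nat_lit 6) .nil .nil))) 
(.lf (nat_lit 252336) (.g (nat_lit 2865) (.e (nat_lit 163885) (nat_lit 5) (.e (nat_lit 221193) (nat_lit 11) (.e (nat_lit 336086) (nat_lit 9) (.e (nat_lit 336443) (nat_lit 32) (.e (nat_lit 466969) (nat_lit 21) (.e (nat_lit 164330) (nat_lit 230) .nil)))))) (.g (nat_lit 6) .nil .nil))))) (.nd (nat_lit 4) (.nd (nat_lit 5) 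
(.lf (nat_lit 252296) (.g (nat_lit 2254) (.e (nat_lit 163885) (nat_lit 5) (.e (nat_lit 221191) (nat_lit 11) (.e (nat_lit 336154) (nat_lit 9) (.e (nat_lit 336442) (nat_lit 32) (.e (nat_lit 466969) (nat_lit 21) (.e (nat_lit 164332) (nat_lit 230) .nil)))))) (.g (nat_lit 0) .nil .nil))) 
(.lf (nat_lit 252328) (.g (nat_lit 294) (.e (nat_lit 163885) (nat_lit 5) (.e (nat_lit 221193) (nat_lit 11) (.e (nat_lit 336086) (nat_lit 9) .nil))) .nil))) (.nd (nat_lit 5) 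
(.lf (nat_lit 252312) (.g (nat_lit 2185) (.e (nat_lit 163885) (nat_lit 5) (.e (nat_lit 221193) (nat_lit 11) (.e (nat_lit 336078) (nat_lit 9) (.e (nat_lit 336443) (nat_lit 32) (.e (nat_lit 466968) (nat_lit 21) .nil))))) .nil)) 
(.lf (nat_lit 252344) (.g (nat_lit 2626) (.e (nat_lit 163885) (nat_lit 5) (.e (nat_lit 221193) (nat_lit 11) (.e (nat_lit 336087) (nat_lit 9) (.e (nat_lit 336443) (nat_lit 32) (.e (nat_lit 466968) (nat_lit 21) (.e (nat_lit 164332) (nat_lit 230) .nil)))))) (.g (nat_lit 4) .nil .nil)))))) (.nd (nat_lit 3) (.nd (nat_lit 4) (.nd (nat_lit 5) 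
(.lf (nat_lit 252292) (.g (nat_lit 2281) (.e (nat_lit 163885) (nat_lit 5) (.e (nat_lit 221191) (nat_lit 11) (.e (nat_lit 336118) (nat_lit 9) (.e (nat_lit 336442) (nat_lit 32) (.e (nat_lit 466972) (nat_lit 21) (.e (nat_lit 164332) (nat_lit 230) .nil)))))) (.g (nat_lit 0) .nil .nil))) 
(.lf (nat_lit 252324) (.g (nat_lit 3325) (.e (nat_lit 163885) (nat_lit 5) (.e (nat_lit 221193) (nat_lit 11) (.e (nat_lit 336078) (nat_lit 9) (.e (nat_lit 336443) (nat_lit 32) (.e (nat_lit 466972) (nat_lit 21) (.e (nat_lit 164330) (nat_lit 230) .nil)))))) (.g (nat_lit 6) .nil .nil)))) (.nd (nat_lit 5) 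
(.lf (nat_lit 252308) (.g (nat_lit 2833) (.e (nat_lit 163885) (nat_lit 5) (.e (nat_lit 221193) (nat_lit 11) (.e (nat_lit 336076) (nat_lit 9) (.e (nat_lit 336443) (nat_lit 32) (.e (nat_lit 466972) (nat_lit 21) (.e (nat_lit 164322) (nat_lit 230) .nil)))))) (.g (nat_lit 5) .nil .nil))) 
(.lf (nat_lit 252340) (.g (nat_lit 2741) (.e (nat_lit 163885) (nat_lit 5) (.e (nat_lit 221193) (nat_lit 11) (.e (nat_lit 336086) (nat_lit 9) (.e (nat_lit 336443) (nat_lit 32) (.e (nat_lit 466971) (nat_lit 21) (.e (nat_lit 164331) (nat_lit 230) .nil)))))) (.g (nat_lit 5) .nil .nil))))) (.nd (nat_lit 4) (.nd (nat_lit 5) 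
(.lf (nat_lit 252300) (.g (nat_lit 2889) (.e (nat_lit 163885) (nat_lit 5) (.e (nat_lit 221193) (nat_lit 11) (.e (nat_lit 336076) (nat_lit 9) (.e (nat_lit 336443) (nat_lit 32) (.e (nat_lit 466969) (nat_lit 21) (.e (nat_lit 164322) (nat_lit 230) .nil)))))) (.g (nat_lit 6) .nil .nil))) 
(.lf (nat_lit 252332) (.g (nat_lit 3134) (.e (nat_lit 163885) (nat_lit 5) (.e (nat_lit 221193) (nat_lit 11) (.e (nat_lit 336086) (nat_lit 9) (.e (nat_lit 336430) (nat_lit 29) (.e (nat_lit 442421) (nat_lit 21) (.e (nat_lit 164322) (nat_lit 230) .nil)))))) (.g (nat_lit 0) .nil .nil)))) (.nd (nat_lit 5) 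
(.lf (nat_lit 252316) (.g (nat_lit 3105) (.e (nat_lit 163885) (nat_lit 5) (.e (nat_lit 221193) (nat_lit 11) (.e (nat_lit 336078) (nat_lit 9) (.e (nat_lit 336443) (nat_lit 32) (.e (nat_lit 466969) (nat_lit 21) (.e (nat_lit 164330) (nat_lit 230) .nil)))))) (.g (nat_lit 6) .nil .nil))) 
(.lf (nat_lit 252348) (.g (nat_lit 3366) (.e (nat_lit 163885) (nat_lit 5) (.e (nat_lit 221193) (nat_lit 11) (.e (nat_lit 336087) (nat_lit 9) (.e (nat_lit 336443) (nat_lit 32) (.e (nat_lit 466969) (nat_lit 21) (.e (nat_lit 164331) (nat_lit 230) .nil)))))) (.g (nat_lit 6) .nil .nil))))))) (.nd (nat_lit 2) (.nd (nat_lit 3) (.nd (nat_lit 4) (.nd (nat_lit 5) 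
(.lf (nat_lit 252290) (.g (nat_lit 1933) (.e (nat_lit 163885) (nat_lit 5) (.e (nat_lit 221190) (nat_lit 11) (.e (nat_lit 336223) (nat_lit 13) (.e (nat_lit 393281) (nat_lit 23) (.e (nat_lit 426108) (nat_lit 1) (.e (nat_lit 164329) (nat_lit 230) .nil)))))) (.g (nat_lit 4) .nil .nil))) 
(.lf (nat_lit 252322) (.g (nat_lit 3577) (.e (nat_lit 163885) (nat_lit 5) (.e (nat_lit 221193) (nat_lit 11) (.e (nat_lit 336078) (nat_lit 9) (.e (nat_lit 336443) (nat_lit 32) (.e (nat_lit 466971) (nat_lit 21) (.e (nat_lit 164332) (nat_lit 230) .nil)))))) (.g (nat_lit 6) .nil .nil)))) (.nd (nat_lit 5) 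
(.lf (nat_lit 252306) (.g (nat_lit 2777) (.e (nat_lit 163885) (nat_lit 5) (.e (nat_lit 221193) (nat_lit 11) (.e (nat_lit 336076) (nat_lit 9) (.e (nat_lit 336443) (nat_lit 32) (.e (nat_lit 466971) (nat_lit 21) (.e (nat_lit 164329) (nat_lit 230) .nil)))))) (.g (nat_lit 5) .nil .nil))) 
(.lf (nat_lit 252338) (.g (nat_lit 2178) (.e (nat_lit 163885) (nat_lit 5) (.e (nat_lit 221193) (nat_lit 11) (.e (nat_lit 336086) (nat_lit 9) (.e (nat_lit 336443) (nat_lit 32) (.e (nat_lit 466970) (nat_lit 21) (.e (nat_lit 164332) (nat_lit 230) .nil)))))) (.g (nat_lit 4) .nil .nil))))) (.nd (nat_lit 4) (.nd (nat_lit 5) 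
(.lf (nat_lit 252298) (.g (nat_lit 2396) (.e (nat_lit 163885) (nat_lit 5) (.e (nat_lit 221191) (nat_lit 11) (.e (nat_lit 336154) (nat_lit 9) (.e (nat_lit 336442) (nat_lit 32) (.e (nat_lit 466972) (nat_lit 21) (.e (nat_lit 164332) (nat_lit 230) .nil)))))) (.g (nat_lit 0) .nil .nil))) 
(.lf (nat_lit 252330) (.g (nat_lit 3497) (.e (nat_lit 163885) (nat_lit 5) (.e (nat_lit 221193) (nat_lit 11) (.e (nat_lit 336086) (nat_lit 9) (.e (nat_lit 336430) (nat_lit 29) (.e (nat_lit 442419) (nat_lit 21) (.e (nat_lit 164331) (nat_lit 230) .nil)))))) (.g (nat_lit 6) .nil .nil)))) (.nd (nat_lit 5) 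
(.lf (nat_lit 252314) (.g (nat_lit 2746) (.e (nat_lit 163885) (nat_lit 5) (.e (nat_lit 221193) (nat_lit 11) (.e (nat_lit 336078) (nat_lit 9) (.e (nat_lit 336443) (nat_lit 32) (.e (nat_lit 466969) (nat_lit 21) (.e (nat_lit 164325) (nat_lit 230) .nil)))))) (.g (nat_lit 5) .nil .nil))) 
(.lf (nat_lit 252346) (.g (nat_lit 3055) (.e (nat_lit 163885) (nat_lit 5) (.e (nat_lit 221193) (nat_lit 11) (.e (nat_lit 336087) (nat_lit 9) (.e (nat_lit 336443) (nat_lit 32) (.e (nat_lit 466969) (nat_lit 21) (.e (nat_lit 164329) (nat_lit 230) .nil)))))) (.g (nat_lit 0) .nil .nil)))))) (.nd (nat_lit 3) (.nd (nat_lit 4) (.nd (nat_lit 5) 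
(.lf (nat_lit 252294) (.g (nat_lit 2359) (.e (nat_lit 163885) (nat_lit 5) (.e (nat_lit 221191) (nat_lit 11) (.e (nat_lit 336121) (nat_lit 9) (.e (nat_lit 336442) (nat_lit 32) (.e (nat_lit 466972) (nat_lit 21) (.e (nat_lit 164332) (nat_lit 230) .nil)))))) (.g (nat_lit 0) .nil .nil))) 
(.lf (nat_lit 252326) (.g (nat_lit 2689) (.e (nat_lit 163885) (nat_lit 5) (.e (nat_lit 221193) (nat_lit 11) (.e (nat_lit 336085) (nat_lit 9) (.e (nat_lit 336443) (nat_lit 32) (.e (nat_lit 466969) (nat_lit 21) (.e (nat_lit 164329) (nat_lit 230) .nil)))))) (.g (nat_lit 5) .nil .nil)))) (.nd (nat_lit 5) 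
(.lf (nat_lit 252310) (.g (nat_lit 3268) (.e (nat_lit 163885) (nat_lit 5) (.e (nat_lit 221193) (nat_lit 11) (.e (nat_lit 336076) (nat_lit 9) (.e (nat_lit 336443) (nat_lit 32) (.e (nat_lit 466972) (nat_lit 21) (.e (nat_lit 164330) (nat_lit 230) .nil)))))) (.g (nat_lit 6) .nil .nil))) 
(.lf (nat_lit 252342) (.g (nat_lit 3155) (.e (nat_lit 163885) (nat_lit 5) (.e (nat_lit 221193) (nat_lit 11) (.e (nat_lit 336086) (nat_lit 9) (.e (nat_lit 336443) (nat_lit 32) (.e (nat_lit 466972) (nat_lit 21) (.e (nat_lit 164330) (nat_lit 230) .nil)))))) (.g (nat_lit 6) .nil .nil))))) (.nd (nat_lit 4) (.nd (nat_lit 5) 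
(.lf (nat_lit 252302) (.g (nat_lit 3133) (.e (nat_lit 163885) (nat_lit 5) (.e (nat_lit 221193) (nat_lit 11) (.e (nat_lit 336076) (nat_lit 9) (.e (nat_lit 336443) (nat_lit 32) (.e (nat_lit 466969) (nat_lit 21) (.e (nat_lit 164329) (nat_lit 230) .nil)))))) (.g (nat_lit 0) .nil .nil))) 
(.lf (nat_lit 252334) (.g (nat_lit 1748) (.e (nat_lit 163885) (nat_lit 5) (.e (nat_lit 221193) (nat_lit 11) (.e (nat_lit 336086) (nat_lit 9) (.e (nat_lit 336443) (nat_lit 32) (.e (nat_lit 466968) (nat_lit 21) (.e (nat_lit 164329) (nat_lit 230) .nil)))))) (.g (nat_lit 4) .nil .nil)))) (.nd (nat_lit 5) 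
(.lf (nat_lit 252318) (.g (nat_lit 2801) (.e (nat_lit 163885) (nat_lit 5) (.e (nat_lit 221193) (nat_lit 11) (.e (nat_lit 336078) (nat_lit 9) (.e (nat_lit 336443) (nat_lit 32) (.e (nat_lit 466971) (nat_lit 21) (.e (nat_lit 164324) (nat_lit 230) .nil)))))) (.g (nat_lit 5) .nil .nil))) 
(.lf (nat_lit 252350) (.g (nat_lit 2654) (.e (nat_lit 163885) (nat_lit 5) (.e (nat_lit 221193) (nat_lit 11) (.e (nat_lit 336087) (nat_lit 9) (.e (nat_lit 336443) (nat_lit 32) (.e (nat_lit 466971) (nat_lit 21) (.e (nat_lit 164329) (nat_lit 230) .nil)))))) (.g (nat_lit 5) .nil .nil)))))))) (.nd (nat_lit 1) (.nd (nat_lit 2) (.nd (nat_lit 3) (.nd (nat_lit 4) (.nd (nat_lit 5) 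
(.lf (nat_lit 252289) (.g (nat_lit 2057) (.e (nat_lit 163885) (nat_lit 5) (.e (nat_lit 221190) (nat_lit 11) (.e (nat_lit 336223) (nat_lit 13) (.e (nat_lit 393281) (nat_lit 23) (.e (nat_lit 426100) (nat_lit 1) (.e (nat_lit 164330) (nat_lit 230) .nil)))))) (.g (nat_lit 4) .nil .nil))) 
(.lf (nat_lit 252321) (.g (nat_lit 2813) (.e (nat_lit 163885) (nat_lit 5) (.e (nat_lit 221193) (nat_lit 11) (.e (nat_lit 336078) (nat_lit 9) (.e (nat_lit 336443) (nat_lit 32) (.e (nat_lit 466971) (nat_lit 21) (.e (nat_lit 164331) (nat_lit 230) .nil)))))) (.g (nat_lit 5) .nil .nil)))) (.nd (nat_lit 5) 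
(.lf (nat_lit 252305) (.g (nat_lit 3111) (.e (nat_lit 163885) (nat_lit 5) (.e (nat_lit 221193) (nat_lit 11) (.e (nat_lit 336076) (nat_lit 9) (.e (nat_lit 336443) (nat_lit 32) (.e (nat_lit 466971) (nat_lit 21) (.e (nat_lit 164322) (nat_lit 230) .nil)))))) (.g (nat_lit 6) .nil .nil))) 
(.lf (nat_lit 252337) (.g (nat_lit 3404) (.e (nat_lit 163885) (nat_lit 5) (.e (nat_lit 221193) (nat_lit 11) (.e (nat_lit 336086) (nat_lit 9) (.e (nat_lit 336443) (nat_lit 32) (.e (nat_lit 466969) (nat_lit 21) (.e (nat_lit 164331) (nat_lit 230) .nil)))))) (.g (nat_lit 0) .nil .nil))))) (.nd (nat_lit 4) (.nd (nat_lit 5) 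
(.lf (nat_lit 252297) (.g (nat_lit 2181) (.e (nat_lit 163885) (nat_lit 5) (.e (nat_lit 221191) (nat_lit 11) (.e (nat_lit 336154) (nat_lit 9) (.e (nat_lit 336442) (nat_lit 32) (.e (nat_lit 466972) (nat_lit 21) (.e (nat_lit 164330) (nat_lit 230) .nil)))))) (.g (nat_lit 6) .nil .nil))) 
(.lf (nat_lit 252329) (.g (nat_lit 3169) (.e (nat_lit 163885) (nat_lit 5) (.e (nat_lit 221193) (nat_lit 11) (.e (nat_lit 336086) (nat_lit 9) (.e (nat_lit 336430) (nat_lit 29) (.e (nat_lit 442419) (nat_lit 21) (.e (nat_lit 164322) (nat_lit 230) .nil)))))) (.g (nat_lit 6) .nil .nil)))) (.nd (nat_lit 5) 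
(.lf (nat_lit 252313) (.g (nat_lit 2926) (.e (nat_lit 163885) (nat_lit 5) (.e (nat_lit 221193) (nat_lit 11) (.e (nat_lit 336078) (nat_lit 9) (.e (nat_lit 336443) (nat_lit 32) (.e (nat_lit 466969) (nat_lit 21) (.e (nat_lit 164322) (nat_lit 230) .nil)))))) (.g (nat_lit 5) .nil .nil))) 
(.lf (nat_lit 252345) (.g (nat_lit 2855) (.e (nat_lit 163885) (nat_lit 5) (.e (nat_lit 221193) (nat_lit 11) (.e (nat_lit 336087) (nat_lit 9) (.e (nat_lit 336443) (nat_lit 32) (.e (nat_lit 466969) (nat_lit 21) (.e (nat_lit 164322) (nat_lit 230) .nil)))))) (.g (nat_lit 6) .nil .nil)))))) (.nd (nat_lit 3) (.nd (nat_lit 4) (.nd (nat_lit 5) 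
(.lf (nat_lit 252293) (.g (nat_lit 2229) (.e (nat_lit 163885) (nat_lit 5) (.e (nat_lit 221191) (nat_lit 11) (.e (nat_lit 336121) (nat_lit 9) (.e (nat_lit 336442) (nat_lit 32) (.e (nat_lit 466969) (nat_lit 21) (.e (nat_lit 164332) (nat_lit 230) .nil)))))) (.g (nat_lit 0) .nil .nil))) 
(.lf (nat_lit 252325) (.g (nat_lit 1925) (.e (nat_lit 163885) (nat_lit 5) (.e (nat_lit 221193) (nat_lit 11) (.e (nat_lit 336085) (nat_lit 9) (.e (nat_lit 336443) (nat_lit 32) (.e (nat_lit 466968) (nat_lit 21) .nil))))) .nil))) (.nd (nat_lit 5) 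
(.lf (nat_lit 252309) (.g (nat_lit 3149) (.e (nat_lit 163885) (nat_lit 5) (.e (nat_lit 221193) (nat_lit 11) (.e (nat_lit 336076) (nat_lit 9) (.e (nat_lit 336443) (nat_lit 32) (.e (nat_lit 466972) (nat_lit 21) (.e (nat_lit 164329) (nat_lit 230) .nil)))))) (.g (nat_lit 6) .nil .nil))) 
(.lf (nat_lit 252341) (.g (nat_lit 2837) (.e (nat_lit 163885) (nat_lit 5) (.e (nat_lit 221193) (nat_lit 11) (.e (nat_lit 336086) (nat_lit 9) (.e (nat_lit 336443) (nat_lit 32) (.e (nat_lit 466972) (nat_lit 21) (.e (nat_lit 164322) (nat_lit 230) .nil)))))) (.g (nat_lit 5) .nil .nil))))) (.nd (nat_lit 4) (.nd (nat_lit 5) 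
(.lf (nat_lit 252301) (.g (nat_lit 3027) (.e (nat_lit 163885) (nat_lit 5) (.e (nat_lit 221193) (nat_lit 11) (.e (nat_lit 336076) (nat_lit 9) (.e (nat_lit 336443) (nat_lit 32) (.e (nat_lit 466969) (nat_lit 21) (.e (nat_lit 164324) (nat_lit 230) .nil)))))) (.g (nat_lit 6) .nil .nil))) 
(.lf (nat_lit 252333) (.g (nat_lit 3155) (.e (nat_lit 163885) (nat_lit 5) (.e (nat_lit 221193) (nat_lit 11) (.e (nat_lit 336086) (nat_lit 9) (.e (nat_lit 336430) (nat_lit 29) (.e (nat_lit 442421) (nat_lit 21) (.e (nat_lit 164324) (nat_lit 230) .nil)))))) (.g (nat_lit 6) .nil .nil)))) (.nd (nat_lit 5) 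
(.lf (nat_lit 252317) (.g (nat_lit 3198) (.e (nat_lit 163885) (nat_lit 5) (.e (nat_lit 221193) (nat_lit 11) (.e (nat_lit 336078) (nat_lit 9) (.e (nat_lit 336443) (nat_lit 32) (.e (nat_lit 466971) (nat_lit 21) (.e (nat_lit 164322) (nat_lit 230) .nil)))))) (.g (nat_lit 6) .nil .nil))) 
(.lf (nat_lit 252349) (.g (nat_lit 3068) (.e (nat_lit 163885) (nat_lit 5) (.e (nat_lit 221193) (nat_lit 11) (.e (nat_lit 336087) (nat_lit 9) (.e (nat_lit 336443) (nat_lit 32) (.e (nat_lit 466971) (nat_lit 21) (.e (nat_lit 164322) (nat_lit 230) .nil)))))) (.g (nat_lit 6) .nil .nil))))))) (.nd (nat_lit 2) (.nd (nat_lit 3) (.nd (nat_lit 4) (.nd (nat_lit 5) 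
(.lf (nat_lit 252291) (.g (nat_lit 2152) (.e (nat_lit 163885) (nat_lit 5) (.e (nat_lit 221191) (nat_lit 11) (.e (nat_lit 336118) (nat_lit 9) (.e (nat_lit 336442) (nat_lit 32) (.e (nat_lit 466969) (nat_lit 21) (.e (nat_lit 164332) (nat_lit 230) .nil)))))) (.g (nat_lit 0) .nil .nil))) 
(.lf (nat_lit 252323) (.g (nat_lit 3202) (.e (nat_lit 163885) (nat_lit 5) (.e (nat_lit 221193) (nat_lit 11) (.e (nat_lit 336078) (nat_lit 9) (.e (nat_lit 336443) (nat_lit 32) (.e (nat_lit 466972) (nat_lit 21) (.e (nat_lit 164329) (nat_lit 230) .nil)))))) (.g (nat_lit 6) .nil .nil)))) (.nd (nat_lit 5) 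
(.lf (nat_lit 252307) (.g (nat_lit 2799) (.e (nat_lit 163885) (nat_lit 5) (.e (nat_lit 221193) (nat_lit 11) (.e (nat_lit 336076) (nat_lit 9) (.e (nat_lit 336443) (nat_lit 32) (.e (nat_lit 466971) (nat_lit 21) (.e (nat_lit 164331) (nat_lit 230) .nil)))))) (.g (nat_lit 5) .nil .nil))) 
(.lf (nat_lit 252339) (.g (nat_lit 2626) (.e (nat_lit 163885) (nat_lit 5) (.e (nat_lit 221193) (nat_lit 11) (.e (nat_lit 336086) (nat_lit 9) (.e (nat_lit 336443) (nat_lit 32) (.e (nat_lit 466971) (nat_lit 21) (.e (nat_lit 164329) (nat_lit 230) .nil)))))) (.g (nat_lit 5) .nil .nil))))) (.nd (nat_lit 4) (.nd (nat_lit 5) 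
(.lf (nat_lit 252299) (.g (nat_lit 2168) (.e (nat_lit 163885) (nat_lit 5) (.e (nat_lit 221193) (nat_lit 11) (.e (nat_lit 336076) (nat_lit 9) (.e (nat_lit 336443) (nat_lit 32) (.e (nat_lit 466968) (nat_lit 21) (.e (nat_lit 164332) (nat_lit 230) .nil)))))) (.g (nat_lit 4) .nil .nil))) 
(.lf (nat_lit 252331) (.g (nat_lit 3378) (.e (nat_lit 163885) (nat_lit 5) (.e (nat_lit 221193) (nat_lit 11) (.e (nat_lit 336086) (nat_lit 9) (.e (nat_lit 336430) (nat_lit 29) (.e (nat_lit 442419) (nat_lit 21) (.e (nat_lit 164332) (nat_lit 230) .nil)))))) (.g (nat_lit 6) .nil .nil)))) (.nd (nat_lit 5) 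
(.lf (nat_lit 252315) (.g (nat_lit 3171) (.e (nat_lit 163885) (nat_lit 5) (.e (nat_lit 221193) (nat_lit 11) (.e (nat_lit 336078) (nat_lit 9) (.e (nat_lit 336443) (nat_lit 32) (.e (nat_lit 466969) (nat_lit 21) (.e (nat_lit 164329) (nat_lit 230) .nil)))))) (.g (nat_lit 0) .nil .nil))) 
(.lf (nat_lit 252347) (.g (nat_lit 2986) (.e (nat_lit 163885) (nat_lit 5) (.e (nat_lit 221193) (nat_lit 11) (.e (nat_lit 336087) (nat_lit 9) (.e (nat_lit 336443) (nat_lit 32) (.e (nat_lit 466969) (nat_lit 21) (.e (nat_lit 164330) (nat_lit 230) .nil)))))) (.g (nat_lit 6) .nil .nil)))))) (.nd (nat_lit 3) (.nd (nat_lit 4) (.nd (nat_lit 5) 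
(.lf (nat_lit 252295) (.g (nat_lit 1719) (.e (nat_lit 163885) (nat_lit 5) (.e (nat_lit 221191) (nat_lit 11) (.e (nat_lit 336154) (nat_lit 9) (.e (nat_lit 336442) (nat_lit 32) (.e (nat_lit 466969) (nat_lit 21) (.e (nat_lit 164329) (nat_lit 230) .nil)))))) (.g (nat_lit 0) .nil .nil))) 
(.lf (nat_lit 252327) (.g (nat_lit 2649) (.e (nat_lit 163885) (nat_lit 5) (.e (nat_lit 221193) (nat_lit 11) (.e (nat_lit 336085) (nat_lit 9) (.e (nat_lit 336443) (nat_lit 32) (.e (nat_lit 466972) (nat_lit 21) (.e (nat_lit 164329) (nat_lit 230) .nil)))))) (.g (nat_lit 5) .nil .nil)))) (.nd (nat_lit 5) 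
(.lf (nat_lit 252311) (.g (nat_lit 3552) (.e (nat_lit 163885) (nat_lit 5) (.e (nat_lit 221193) (nat_lit 11) (.e (nat_lit 336076) (nat_lit 9) (.e (nat_lit 336443) (nat_lit 32) (.e (nat_lit 466972) (nat_lit 21) (.e (nat_lit 164331) (nat_lit 230) .nil)))))) (.g (nat_lit 6) .nil .nil))) 
(.lf (nat_lit 252343) (.g (nat_lit 3600) (.e (nat_lit 163885) (nat_lit 5) (.e (nat_lit 221193) (nat_lit 11) (.e (nat_lit 336086) (nat_lit 9) (.e (nat_lit 336443) (nat_lit 32) (.e (nat_lit 466972) (nat_lit 21) (.e (nat_lit 164331) (nat_lit 230) .nil)))))) (.g (nat_lit 0) .nil .nil))))) (.nd (nat_lit 4) (.nd (nat_lit 5) 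
(.lf (nat_lit 252303) (.g (nat_lit 3019) (.e (nat_lit 163885) (nat_lit 5) (.e (nat_lit 221193) (nat_lit 11) (.e (nat_lit 336076) (nat_lit 9) (.e (nat_lit 336443) (nat_lit 32) (.e (nat_lit 466969) (nat_lit 21) (.e (nat_lit 164330) (nat_lit 230) .nil)))))) (.g (nat_lit 6) .nil .nil))) 
(.lf (nat_lit 252335) (.g (nat_lit 2780) (.e (nat_lit 163885) (nat_lit 5) (.e (nat_lit 221193) (nat_lit 11) (.e (nat_lit 336086) (nat_lit 9) (.e (nat_lit 336443) (nat_lit 32) (.e (nat_lit 466969) (nat_lit 21) (.e (nat_lit 164322) (nat_lit 230) .nil)))))) (.g (nat_lit 6) .nil .nil)))) (.nd (nat_lit 5) 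
(.lf (nat_lit 252319) (.g (nat_lit 2679) (.e (nat_lit 163885) (nat_lit 5) (.e (nat_lit 221193) (nat_lit 11) (.e (nat_lit 336078) (nat_lit 9) (.e (nat_lit 336443) (nat_lit 32) (.e (nat_lit 466971) (nat_lit 21) (.e (nat_lit 164325) (nat_lit 230) .nil)))))) (.g (nat_lit 5) .nil .nil))) 
(.lf (nat_lit 252351) (.g (nat_lit 3398) (.e (nat_lit 163885) (nat_lit 5) (.e (nat_lit 221193) (nat_lit 11) (.e (nat_lit 336087) (nat_lit 9) (.e (nat_lit 336443) (nat_lit 32) (.e (nat_lit 466971) (nat_lit 21) (.e (nat_lit 164332) (nat_lit 230) .nil)))))) (.g (nat_lit 6) .nil .nil)))))))))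

noncomputable def tv3273 : DT := (.nd (nat_lit 0) (.nd (nat_lit 1) (.nd (nat_lit 2) (.nd (nat_lit 3) (.nd (nat_lit 4) (.nd (nat_lit 5) 
(.lf (nat_lit 252352) (.g (nat_lit 3094) (.e (nat_lit 163885) (nat_lit 5) (.e (nat_lit 221193) (nat_lit 11) (.e (nat_lit 336087) (nat_lit 9) (.e (nat_lit 336443) (nat_lit 32) (.e (nat_lit 466972) (nat_lit 21) (.e (nat_lit 164329) (nat_lit 230) .nil)))))) (.g (nat_lit 6) .nil .nil))) 
(.lf (nat_lit 252384) (.g (nat_lit 3291) (.e (nat_lit 163885) (nat_lit 5) (.e (nat_lit 221193) (nat_lit 11) (.e (nat_lit 336215) (nat_lit 13) (.e (nat_lit 393281) (nat_lit 23) (.e (nat_lit 426108) (nat_lit 1) (.e (nat_lit 164329) (nat_lit 230) .nil)))))) (.g (nat_lit 6) .nil .nil)))) (.nd (nat_lit 5) 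
(.lf (nat_lit 252368) (.g (nat_lit 2039) (.e (nat_lit 163885) (nat_lit 5) (.e (nat_lit 221193) (nat_lit 11) (.e (nat_lit 336213) (nat_lit 13) (.e (nat_lit 393281) (nat_lit 23) (.e (nat_lit 426105) (nat_lit 1) .nil))))) .nil)) 
(.lf (nat_lit 252400) (.g (nat_lit 1413) (.e (nat_lit 163885) (nat_lit 5) (.e (nat_lit 221193) (nat_lit 11) (.e (nat_lit 336222) (nat_lit 13) (.e (nat_lit 393281) (nat_lit 23) (.e (nat_lit 426099) (nat_lit 1) (.e (nat_lit 164322) (nat_lit 230) .nil)))))) (.g (nat_lit 4) .nil .nil))))) (.nd (nat_lit 4) (.nd (nat_lit 5) 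
(.lf (nat_lit 252360) (.g (nat_lit 3834) (.e (nat_lit 163885) (nat_lit 5) (.e (nat_lit 221193) (nat_lit 11) (.e (nat_lit 336088) (nat_lit 9) (.e (nat_lit 336443) (nat_lit 32) (.e (nat_lit 466972) (nat_lit 21) (.e (nat_lit 164331) (nat_lit 230) .nil)))))) (.g (nat_lit 0) .nil .nil))) 
(.lf (nat_lit 252392) (.g (nat_lit 2750) (.e (nat_lit 163885) (nat_lit 5) (.e (nat_lit 221193) (nat_lit 11) (.e (nat_lit 336220) (nat_lit 13) (.e (nat_lit 393281) (nat_lit 23) (.e (nat_lit 426108) (nat_lit 1) (.e (nat_lit 164329) (nat_lit 230) .nil)))))) (.g (nat_lit 6) .nil .nil)))) (.nd (nat_lit 5) 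
(.lf (nat_lit 252376) (.g (nat_lit 1943) (.e (nat_lit 163885) (nat_lit 5) (.e (nat_lit 221193) (nat_lit 11) (.e (nat_lit 336215) (nat_lit 13) (.e (nat_lit 393271) (nat_lit 23) (.e (nat_lit 426112) (nat_lit 1) (.e (nat_lit 164324) (nat_lit 230) .nil)))))) (.g (nat_lit 4) .nil .nil))) 
(.lf (nat_lit 252408) (.g (nat_lit 2221) (.e (nat_lit 163885) (nat_lit 5) (.e (nat_lit 221193) (nat_lit 11) (.e (nat_lit 336223) (nat_lit 13) (.e (nat_lit 393281) (nat_lit 23) (.e (nat_lit 426100) (nat_lit 1) (.e (nat_lit 164322) (nat_lit 230) .nil)))))) (.g (nat_lit 5) .nil .nil)))))) (.nd (nat_lit 3) (.nd (nat_lit 4) (.nd (nat_lit 5) 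
(.lf (nat_lit 252356) (.g (nat_lit 3624) (.e (nat_lit 163885) (nat_lit 5) (.e (nat_lit 221193) (nat_lit 11) (.e (nat_lit 336088) (nat_lit 9) (.e (nat_lit 336443) (nat_lit 32) (.e (nat_lit 466969) (nat_lit 21) (.e (nat_lit 164331) (nat_lit 230) .nil)))))) (.g (nat_lit 0) .nil .nil))) 
(.lf (nat_lit 252388) (.g (nat_lit 1395) (.e (nat_lit 163885) (nat_lit 5) (.e (nat_lit 221193) (nat_lit 11) (.e (nat_lit 336220) (nat_lit 13) (.e (nat_lit 393281) (nat_lit 23) (.e (nat_lit 426099) (nat_lit 1) (.e (nat_lit 164322) (nat_lit 230) .nil)))))) (.g (nat_lit 4) .nil .nil)))) (.nd (nat_lit 5) 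
(.lf (nat_lit 252372) (.g (nat_lit 2013) (.e (nat_lit 163885) (nat_lit 5) (.e (nat_lit 221193) (nat_lit 11) (.e (nat_lit 336214) (nat_lit 13) (.e (nat_lit 393281) (nat_lit 23) (.e (nat_lit 426099) (nat_lit 1) (.e (nat_lit 164329) (nat_lit 230) .nil)))))) (.g (nat_lit 6) .nil .nil))) 
(.lf (nat_lit 252404) (.g (nat_lit 2864) (.e (nat_lit 163885) (nat_lit 5) (.e (nat_lit 221193) (nat_lit 11) (.e (nat_lit 336222) (nat_lit 13) (.e (nat_lit 393281) (nat_lit 23) (.e (nat_lit 426108) (nat_lit 1) (.e (nat_lit 164329) (nat_lit 230) .nil)))))) (.g (nat_lit 0) .nil .nil))))) (.nd (nat_lit 4) (.nd (nat_lit 5) 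
(.lf (nat_lit 252364) (.g (nat_lit 2350) (.e (nat_lit 163885) (nat_lit 5) (.e (nat_lit 221193) (nat_lit 11) (.e (nat_lit 336213) (nat_lit 13) (.e (nat_lit 393281) (nat_lit 23) (.e (nat_lit 426099) (nat_lit 1) (.e (nat_lit 164329) (nat_lit 230) .nil)))))) (.g (nat_lit 4) .nil .nil))) 
(.lf (nat_lit 252396) (.g (nat_lit 2734) (.e (nat_lit 163885) (nat_lit 5) (.e (nat_lit 221193) (nat_lit 11) (.e (nat_lit 336221) (nat_lit 13) (.e (nat_lit 393281) (nat_lit 23) (.e (nat_lit 426108) (nat_lit 1) (.e (nat_lit 164329) (nat_lit 230) .nil)))))) (.g (nat_lit 6) .nil .nil)))) (.nd (nat_lit 5) 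
(.lf (nat_lit 252380) (.g (nat_lit 2520) (.e (nat_lit 163885) (nat_lit 5) (.e (nat_lit 221193) (nat_lit 11) (.e (nat_lit 336215) (nat_lit 13) (.e (nat_lit 393281) (nat_lit 23) (.e (nat_lit 426100) (nat_lit 1) (.e (nat_lit 164322) (nat_lit 230) .nil)))))) (.g (nat_lit 5) .nil .nil))) 
(.lf (nat_lit 252412) (.g (nat_lit 2980) (.e (nat_lit 163885) (nat_lit 5) (.e (nat_lit 221194) (nat_lit 11) (.e (nat_lit 336011) (nat_lit 2) (.e (nat_lit 90170) (nat_lit 13) (.e (nat_lit 172106) (nat_lit 10) .nil))))) .nil)))))) (.nd (nat_lit 2) (.nd (nat_lit 3) (.nd (nat_lit 4) (.nd (nat_lit 5) 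
(.lf (nat_lit 252354) (.g (nat_lit 2367) (.e (nat_lit 163885) (nat_lit 5) (.e (nat_lit 221193) (nat_lit 11) (.e (nat_lit 336088) (nat_lit 9) (.e (nat_lit 336443) (nat_lit 32) (.e (nat_lit 466968) (nat_lit 21) .nil))))) .nil)) 
(.lf (nat_lit 252386) (.g (nat_lit 1074) (.e (nat_lit 163885) (nat_lit 5) (.e (nat_lit 221193) (nat_lit 11) (.e (nat_lit 336220) (nat_lit 13) (.e (nat_lit 393275) (nat_lit 23) (.e (nat_lit 426109) (nat_lit 1) (.e (nat_lit 164322) (nat_lit 230) .nil)))))) (.g (nat_lit 4) .nil .nil)))) (.nd (nat_lit 5) 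
(.lf (nat_lit 252370) (.g (nat_lit 3752) (.e (nat_lit 163885) (nat_lit 5) (.e (nat_lit 221193) (nat_lit 11) (.e (nat_lit 336213) (nat_lit 13) (.e (nat_lit 393281) (nat_lit 23) (.e (nat_lit 426108) (nat_lit 1) (.e (nat_lit 164332) (nat_lit 230) .nil)))))) (.g (nat_lit 6) .nil .nil))) 
(.lf (nat_lit 252402) (.g (nat_lit 2574) (.e (nat_lit 163885) (nat_lit 5) (.e (nat_lit 221193) (nat_lit 11) (.e (nat_lit 336222) (nat_lit 13) (.e (nat_lit 393281) (nat_lit 23) (.e (nat_lit 426100) (nat_lit 1) (.e (nat_lit 164329) (nat_lit 230) .nil)))))) (.g (nat_lit 0) .nil .nil))))) (.nd (nat_lit 4) (.nd (nat_lit 5) 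
(.lf (nat_lit 252362) (.g (nat_lit 1355) (.e (nat_lit 163885) (nat_lit 5) (.e (nat_lit 221193) (nat_lit 11) (.e (nat_lit 336213) (nat_lit 13) (.e (nat_lit 393281) (nat_lit 23) .nil)))) .nil)) 
(.lf (nat_lit 252394) (.g (nat_lit 1801) (.e (nat_lit 163885) (nat_lit 5) (.e (nat_lit 221193) (nat_lit 11) (.e (nat_lit 336221) (nat_lit 13) (.e (nat_lit 393281) (nat_lit 23) (.e (nat_lit 426099) (nat_lit 1) (.e (nat_lit 164330) (nat_lit 230) .nil)))))) (.g (nat_lit 5) .nil .nil)))) (.nd (nat_lit 5) 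
(.lf (nat_lit 252378) (.g (nat_lit 1908) (.e (nat_lit 163885) (nat_lit 5) (.e (nat_lit 221193) (nat_lit 11) (.e (nat_lit 336215) (nat_lit 13) (.e (nat_lit 393281) (nat_lit 23) (.e (nat_lit 426099) (nat_lit 1) (.e (nat_lit 164322) (nat_lit 230) .nil)))))) (.g (nat_lit 4) .nil .nil))) 
(.lf (nat_lit 252410) (.g (nat_lit 1850) (.e (nat_lit 163885) (nat_lit 5) (.e (nat_lit 221193) (nat_lit 11) (.e (nat_lit 336223) (nat_lit 13) (.e (nat_lit 393281) (nat_lit 23) (.e (nat_lit 426105) (nat_lit 1) .nil))))) .nil))))) (.nd (nat_lit 3) (.nd (nat_lit 4) (.nd (nat_lit 5) 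
(.lf (nat_lit 252358) (.g (nat_lit 3030) (.e (nat_lit 163885) (nat_lit 5) (.e (nat_lit 221193) (nat_lit 11) (.e (nat_lit 336088) (nat_lit 9) (.e (nat_lit 336443) (nat_lit 32) (.e (nat_lit 466972) (nat_lit 21) (.e (nat_lit 164322) (nat_lit 230) .nil)))))) (.g (nat_lit 5) .nil .nil))) 
(.lf (nat_lit 252390) (.g (nat_lit 2579) (.e (nat_lit 163885) (nat_lit 5) (.e (nat_lit 221193) (nat_lit 11) (.e (nat_lit 336220) (nat_lit 13) (.e (nat_lit 393281) (nat_lit 23) (.e (nat_lit 426100) (nat_lit 1) (.e (nat_lit 164329) (nat_lit 230) .nil)))))) (.g (nat_lit 6) .nil .nil)))) (.nd (nat_lit 5) 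
(.lf (nat_lit 252374) (.g (nat_lit 2962) (.e (nat_lit 163885) (nat_lit 5) (.e (nat_lit 221193) (nat_lit 11) (.e (nat_lit 336214) (nat_lit 13) (.e (nat_lit 393281) (nat_lit 23) (.e (nat_lit 426108) (nat_lit 1) (.e (nat_lit 164329) (nat_lit 230) .nil)))))) (.g (nat_lit 0) .nil .nil))) 
(.lf (nat_lit 252406) (.g (nat_lit 1651) (.e (nat_lit 163885) (nat_lit 5) (.e (nat_lit 221193) (nat_lit 11) (.e (nat_lit 336223) (nat_lit 13) (.e (nat_lit 393281) (nat_lit 23) (.e (nat_lit 426099) (nat_lit 1) (.e (nat_lit 164322) (nat_lit 230) .nil)))))) (.g (nat_lit 4) .nil .nil))))) (.nd (nat_lit 4) (.nd (nat_lit 5) 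
(.lf (nat_lit 252366) (.g (nat_lit 2980) (.e (nat_lit 163885) (nat_lit 5) (.e (nat_lit 221193) (nat_lit 11) (.e (nat_lit 336213) (nat_lit 13) (.e (nat_lit 393281) (nat_lit 23) (.e (nat_lit 426100) (nat_lit 1) (.e (nat_lit 164329) (nat_lit 230) .nil)))))) (.g (nat_lit 5) .nil .nil))) 
(.lf (nat_lit 252398) (.g (nat_lit 1900) (.e (nat_lit 163885) (nat_lit 5) (.e (nat_lit 221193) (nat_lit 11) (.e (nat_lit 336222) (nat_lit 13) (.e (nat_lit 393275) (nat_lit 23) (.e (nat_lit 426109) (nat_lit 1) (.e (nat_lit 164322) (nat_lit 230) .nil)))))) (.g (nat_lit 5) .nil .nil)))) (.nd (nat_lit 5) 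
(.lf (nat_lit 252382) (.g (nat_lit 2649) (.e (nat_lit 163885) (nat_lit 5) (.e (nat_lit 221193) (nat_lit 11) (.e (nat_lit 336215) (nat_lit 13) (.e (nat_lit 393281) (nat_lit 23) (.e (nat_lit 426100) (nat_lit 1) (.e (nat_lit 164331) (nat_lit 230) .nil)))))) (.g (nat_lit 5) .nil .nil))) 
(.lf (nat_lit 252414) (.g (nat_lit 2583) (.e (nat_lit 163885) (nat_lit 5) (.e (nat_lit 221194) (nat_lit 11) (.e (nat_lit 336012) (nat_lit 2) (.e (nat_lit 90176) (nat_lit 15) .nil)))) .nil))))))) (.nd (nat_lit 1) (.nd (nat_lit 2) (.nd (nat_lit 3) (.nd (nat_lit 4) (.nd (nat_lit 5) 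
(.lf (nat_lit 252353) (.g (nat_lit 3567) (.e (nat_lit 163885) (nat_lit 5) (.e (nat_lit 221193) (nat_lit 11) (.e (nat_lit 336087) (nat_lit 9) (.e (nat_lit 336443) (nat_lit 32) (.e (nat_lit 466972) (nat_lit 21) (.e (nat_lit 164331) (nat_lit 230) .nil)))))) (.g (nat_lit 6) .nil .nil))) 
(.lf (nat_lit 252385) (.g (nat_lit 3860) (.e (nat_lit 163885) (nat_lit 5) (.e (nat_lit 221193) (nat_lit 11) (.e (nat_lit 336215) (nat_lit 13) (.e (nat_lit 393281) (nat_lit 23) (.e (nat_lit 426108) (nat_lit 1) (.e (nat_lit 164332) (nat_lit 230) .nil)))))) (.g (nat_lit 0) .nil .nil)))) (.nd (nat_lit 5) 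
(.lf (nat_lit 252369) (.g (nat_lit 3249) (.e (nat_lit 163885) (nat_lit 5) (.e (nat_lit 221193) (nat_lit 11) (.e (nat_lit 336213) (nat_lit 13) (.e (nat_lit 393281) (nat_lit 23) (.e (nat_lit 426108) (nat_lit 1) (.e (nat_lit 164329) (nat_lit 230) .nil)))))) (.g (nat_lit 6) .nil .nil))) 
(.lf (nat_lit 252401) (.g (nat_lit 1950) (.e (nat_lit 163885) (nat_lit 5) (.e (nat_lit 221193) (nat_lit 11) (.e (nat_lit 336222) (nat_lit 13) (.e (nat_lit 393281) (nat_lit 23) (.e (nat_lit 426099) (nat_lit 1) (.e (nat_lit 164329) (nat_lit 230) .nil)))))) (.g (nat_lit 6) .nil .nil))))) (.nd (nat_lit 4) (.nd (nat_lit 5) 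
(.lf (nat_lit 252361) (.g (nat_lit 807) (.e (nat_lit 163885) (nat_lit 5) (.e (nat_lit 221193) (nat_lit 11) (.e (nat_lit 336212) (nat_lit 13) (.e (nat_lit 393281) (nat_lit 23) .nil)))) .nil)) 
(.lf (nat_lit 252393) (.g (nat_lit 1737) (.e (nat_lit 163885) (nat_lit 5) (.e (nat_lit 221193) (nat_lit 11) (.e (nat_lit 336221) (nat_lit 13) (.e (nat_lit 393281) (nat_lit 23) (.e (nat_lit 426099) (nat_lit 1) (.e (nat_lit 164329) (nat_lit 230) .nil)))))) (.g (nat_lit 5) .nil .nil)))) (.nd (nat_lit 5) 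
(.lf (nat_lit 252377) (.g (nat_lit 1140) (.e (nat_lit 163885) (nat_lit 5) (.e (nat_lit 221193) (nat_lit 11) (.e (nat_lit 336215) (nat_lit 13) (.e (nat_lit 393281) (nat_lit 23) .nil)))) .nil)) 
(.lf (nat_lit 252409) (.g (nat_lit 2777) (.e (nat_lit 163885) (nat_lit 5) (.e (nat_lit 221193) (nat_lit 11) (.e (nat_lit 336223) (nat_lit 13) (.e (nat_lit 393281) (nat_lit 23) (.e (nat_lit 426100) (nat_lit 1) (.e (nat_lit 164329) (nat_lit 230) .nil)))))) (.g (nat_lit 0) .nil .nil)))))) (.nd (nat_lit 3) (.nd (nat_lit 4) (.nd (nat_lit 5) 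
(.lf (nat_lit 252357) (.g (nat_lit 2967) (.e (nat_lit 163885) (nat_lit 5) (.e (nat_lit 221193) (nat_lit 11) (.e (nat_lit 336088) (nat_lit 9) (.e (nat_lit 336443) (nat_lit 32) (.e (nat_lit 466971) (nat_lit 21) (.e (nat_lit 164329) (nat_lit 230) .nil)))))) (.g (nat_lit 6) .nil .nil))) 
(.lf (nat_lit 252389) (.g (nat_lit 1932) (.e (nat_lit 163885) (nat_lit 5) (.e (nat_lit 221193) (nat_lit 11) (.e (nat_lit 336220) (nat_lit 13) (.e (nat_lit 393281) (nat_lit 23) (.e (nat_lit 426099) (nat_lit 1) (.e (nat_lit 164329) (nat_lit 230) .nil)))))) (.g (nat_lit 6) .nil .nil)))) (.nd (nat_lit 5) 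
(.lf (nat_lit 252373) (.g (nat_lit 2673) (.e (nat_lit 163885) (nat_lit 5) (.e (nat_lit 221193) (nat_lit 11) (.e (nat_lit 336214) (nat_lit 13) (.e (nat_lit 393281) (nat_lit 23) (.e (nat_lit 426100) (nat_lit 1) (.e (nat_lit 164329) (nat_lit 230) .nil)))))) (.g (nat_lit 6) .nil .nil))) 
(.lf (nat_lit 252405) (.g (nat_lit 3374) (.e (nat_lit 163885) (nat_lit 5) (.e (nat_lit 221193) (nat_lit 11) (.e (nat_lit 336222) (nat_lit 13) (.e (nat_lit 393281) (nat_lit 23) (.e (nat_lit 426108) (nat_lit 1) (.e (nat_lit 164332) (nat_lit 230) .nil)))))) (.g (nat_lit 0) .nil .nil))))) (.nd (nat_lit 4) (.nd (nat_lit 5) 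
(.lf (nat_lit 252365) (.g (nat_lit 2397) (.e (nat_lit 163885) (nat_lit 5) (.e (nat_lit 221193) (nat_lit 11) (.e (nat_lit 336213) (nat_lit 13) (.e (nat_lit 393281) (nat_lit 23) (.e (nat_lit 426099) (nat_lit 1) (.e (nat_lit 164330) (nat_lit 230) .nil)))))) (.g (nat_lit 4) .nil .nil))) 
(.lf (nat_lit 252397) (.g (nat_lit 2243) (.e (nat_lit 163885) (nat_lit 5) (.e (nat_lit 221193) (nat_lit 11) (.e (nat_lit 336222) (nat_lit 13) (.e (nat_lit 393266) (nat_lit 23) (.e (nat_lit 426109) (nat_lit 1) (.e (nat_lit 164322) (nat_lit 230) .nil)))))) (.g (nat_lit 0) .nil .nil)))) (.nd (nat_lit 5) 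
(.lf (nat_lit 252381) (.g (nat_lit 3037) (.e (nat_lit 163885) (nat_lit 5) (.e (nat_lit 221193) (nat_lit 11) (.e (nat_lit 336215) (nat_lit 13) (.e (nat_lit 393281) (nat_lit 23) (.e (nat_lit 426100) (nat_lit 1) (.e (nat_lit 164330) (nat_lit 230) .nil)))))) (.g (nat_lit 6) .nil .nil))) 
(.lf (nat_lit 252413) (.g (nat_lit 1573) (.e (nat_lit 163885) (nat_lit 5) (.e (nat_lit 221194) (nat_lit 11) (.e (nat_lit 336012) (nat_lit 2) .nil))) .nil)))))) (.nd (nat_lit 2) (.nd (nat_lit 3) (.nd (nat_lit 4) (.nd (nat_lit 5) 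
(.lf (nat_lit 252355) (.g (nat_lit 3042) (.e (nat_lit 163885) (nat_lit 5) (.e (nat_lit 221193) (nat_lit 11) (.e (nat_lit 336088) (nat_lit 9) (.e (nat_lit 336443) (nat_lit 32) (.e (nat_lit 466969) (nat_lit 21) (.e (nat_lit 164322) (nat_lit 230) .nil)))))) (.g (nat_lit 6) .nil .nil))) 
(.lf (nat_lit 252387) (.g (nat_lit 2843) (.e (nat_lit 163885) (nat_lit 5) (.e (nat_lit 221193) (nat_lit 11) (.e (nat_lit 336220) (nat_lit 13) (.e (nat_lit 393280) (nat_lit 23) (.e (nat_lit 426108) (nat_lit 1) (.e (nat_lit 164332) (nat_lit 230) .nil)))))) (.g (nat_lit 6) .nil .nil)))) (.nd (nat_lit 5) 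
(.lf (nat_lit 252371) (.g (nat_lit 1467) (.e (nat_lit 163885) (nat_lit 5) (.e (nat_lit 221193) (nat_lit 11) (.e (nat_lit 336214) (nat_lit 13) (.e (nat_lit 393281) (nat_lit 23) (.e (nat_lit 426099) (nat_lit 1) (.e (nat_lit 164322) (nat_lit 230) .nil)))))) (.g (nat_lit 4) .nil .nil))) 
(.lf (nat_lit 252403) (.g (nat_lit 2512) (.e (nat_lit 163885) (nat_lit 5) (.e (nat_lit 221193) (nat_lit 11) (.e (nat_lit 336222) (nat_lit 13) (.e (nat_lit 393281) (nat_lit 23) (.e (nat_lit 426100) (nat_lit 1) (.e (nat_lit 164330) (nat_lit 230) .nil)))))) (.g (nat_lit 6) .nil .nil))))) (.nd (nat_lit 4) (.nd (nat_lit 5) 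
(.lf (nat_lit 252363) (.g (nat_lit 1934) (.e (nat_lit 163885) (nat_lit 5) (.e (nat_lit 221193) (nat_lit 11) (.e (nat_lit 336213) (nat_lit 13) (.e (nat_lit 393281) (nat_lit 23) (.e (nat_lit 426099) (nat_lit 1) .nil))))) .nil)) 
(.lf (nat_lit 252395) (.g (nat_lit 2440) (.e (nat_lit 163885) (nat_lit 5) (.e (nat_lit 221193) (nat_lit 11) (.e (nat_lit 336221) (nat_lit 13) (.e (nat_lit 393281) (nat_lit 23) (.e (nat_lit 426100) (nat_lit 1) (.e (nat_lit 164329) (nat_lit 230) .nil)))))) (.g (nat_lit 6) .nil .nil)))) (.nd (nat_lit 5) 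
(.lf (nat_lit 252379) (.g (nat_lit 2448) (.e (nat_lit 163885) (nat_lit 5) (.e (nat_lit 221193) (nat_lit 11) (.e (nat_lit 336215) (nat_lit 13) (.e (nat_lit 393281) (nat_lit 23) (.e (nat_lit 426099) (nat_lit 1) (.e (nat_lit 164329) (nat_lit 230) .nil)))))) (.g (nat_lit 6) .nil .nil))) 
(.lf (nat_lit 252411) (.g (nat_lit 1059) (.e (nat_lit 163885) (nat_lit 5) (.e (nat_lit 221194) (nat_lit 11) (.e (nat_lit 336011) (nat_lit 2) .nil))) .nil))))) (.nd (nat_lit 3) (.nd (nat_lit 4) (.nd (nat_lit 5) 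
(.lf (nat_lit 252359) (.g (nat_lit 3407) (.e (nat_lit 163885) (nat_lit 5) (.e (nat_lit 221193) (nat_lit 11) (.e (nat_lit 336088) (nat_lit 9) (.e (nat_lit 336443) (nat_lit 32) (.e (nat_lit 466972) (nat_lit 21) (.e (nat_lit 164330) (nat_lit 230) .nil)))))) (.g (nat_lit 6) .nil .nil))) 
(.lf (nat_lit 252391) (.g (nat_lit 1340) (.e (nat_lit 163885) (nat_lit 5) (.e (nat_lit 221193) (nat_lit 11) (.e (nat_lit 336220) (nat_lit 13) (.e (nat_lit 393281) (nat_lit 23) (.e (nat_lit 426105) (nat_lit 1) .nil))))) .nil))) (.nd (nat_lit 5) 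
(.lf (nat_lit 252375) (.g (nat_lit 3436) (.e (nat_lit 163885) (nat_lit 5) (.e (nat_lit 221193) (nat_lit 11) (.e (nat_lit 336214) (nat_lit 13) (.e (nat_lit 393281) (nat_lit 23) (.e (nat_lit 426108) (nat_lit 1) (.e (nat_lit 164332) (nat_lit 230) .nil)))))) (.g (nat_lit 0) .nil .nil))) 
(.lf (nat_lit 252407) (.g (nat_lit 2186) (.e (nat_lit 163885) (nat_lit 5) (.e (nat_lit 221193) (nat_lit 11) (.e (nat_lit 336223) (nat_lit 13) (.e (nat_lit 393281) (nat_lit 23) (.e (nat_lit 426099) (nat_lit 1) (.e (nat_lit 164329) (nat_lit 230) .nil)))))) (.g (nat_lit 6) .nil .nil))))) (.nd (nat_lit 4) (.nd (nat_lit 5) 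
(.lf (nat_lit 252367) (.g (nat_lit 2909) (.e (nat_lit 163885) (nat_lit 5) (.e (nat_lit 221193) (nat_lit 11) (.e (nat_lit 336213) (nat_lit 13) (.e (nat_lit 393281) (nat_lit 23) (.e (nat_lit 426100) (nat_lit 1) (.e (nat_lit 164330) (nat_lit 230) .nil)))))) (.g (nat_lit 5) .nil .nil))) 
(.lf (nat_lit 252399) (.g (nat_lit 637) (.e (nat_lit 163885) (nat_lit 5) (.e (nat_lit 221193) (nat_lit 11) (.e (nat_lit 336222) (nat_lit 13) (.e (nat_lit 393277) (nat_lit 23) .nil)))) .nil))) (.nd (nat_lit 5) 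
(.lf (nat_lit 252383) (.g (nat_lit 1869) (.e (nat_lit 163885) (nat_lit 5) (.e (nat_lit 221193) (nat_lit 11) (.e (nat_lit 336215) (nat_lit 13) (.e (nat_lit 393281) (nat_lit 23) (.e (nat_lit 426105) (nat_lit 1) (.e (nat_lit 164332) (nat_lit 230) .nil)))))) (.g (nat_lit 4) .nil .nil))) 
(.lf (nat_lit 252415) (.g (nat_lit 3240) (.e (nat_lit 163885) (nat_lit 5) (.e (nat_lit 221194) (nat_lit 11) (.e (nat_lit 336012) (nat_lit 2) (.e (nat_lit 90176) (nat_lit 15) (.e (nat_lit 188431) (nat_lit 20) .nil))))) .nil))))))))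

noncomputable def tv3274 : DT := (.nd (nat_lit 0) (.nd (nat_lit 1) (.nd (nat_lit 2) (.nd (nat_lit 3) (.nd (nat_lit 4) (.nd (nat_lit 5) 
(.lf (nat_lit 252416) (.g (nat_lit 4476) (.e (nat_lit 163885) (nat_lit 5) (.e (nat_lit 221194) (nat_lit 11) (.e (nat_lit 336012) (nat_lit 2) (.e (nat_lit 90176) (nat_lit 15) (.e (nat_lit 188453) (nat_lit 24) (.e (nat_lit 229520) (nat_lit 126) .nil)))))) (.g (nat_lit 5) .nil .nil))) 
(.lf (nat_lit 252448) (.g (nat_lit 3050) (.e (nat_lit 163885) (nat_lit 5) (.e (nat_lit 221194) (nat_lit 11) (.e (nat_lit 336078) (nat_lit 9) (.e (nat_lit 336443) (nat_lit 32) (.e (nat_lit 466969) (nat_lit 21) (.e (nat_lit 164329) (nat_lit 230) .nil)))))) (.g (nat_lit 6) .nil .nil)))) (.nd (nat_lit 5) 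
(.lf (nat_lit 252432) (.g (nat_lit 2982) (.e (nat_lit 163885) (nat_lit 5) (.e (nat_lit 221194) (nat_lit 11) (.e (nat_lit 336076) (nat_lit 9) (.e (nat_lit 336443) (nat_lit 32) (.e (nat_lit 466969) (nat_lit 21) (.e (nat_lit 164325) (nat_lit 230) .nil)))))) (.g (nat_lit 6) .nil .nil))) 
(.lf (nat_lit 252464) (.g (nat_lit 3247) (.e (nat_lit 163885) (nat_lit 5) (.e (nat_lit 221194) (nat_lit 11) (.e (nat_lit 336085) (nat_lit 9) (.e (nat_lit 336443) (nat_lit 32) (.e (nat_lit 466969) (nat_lit 21) (.e (nat_lit 164329) (nat_lit 230) .nil)))))) (.g (nat_lit 5) .nil .nil))))) (.nd (nat_lit 4) (.nd (nat_lit 5) 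
(.lf (nat_lit 252424) (.g (nat_lit 4203) (.e (nat_lit 163885) (nat_lit 5) (.e (nat_lit 221194) (nat_lit 11) (.e (nat_lit 336027) (nat_lit 3) (.e (nat_lit 98370) (nat_lit 28) (.e (nat_lit 442430) (nat_lit 24) (.e (nat_lit 229520) (nat_lit 126) .nil)))))) (.g (nat_lit 4) .nil .nil))) 
(.lf (nat_lit 252456) (.g (nat_lit 3578) (.e (nat_lit 163885) (nat_lit 5) (.e (nat_lit 221194) (nat_lit 11) (.e (nat_lit 336078) (nat_lit 9) (.e (nat_lit 336443) (nat_lit 32) (.e (nat_lit 466971) (nat_lit 21) (.e (nat_lit 164332) (nat_lit 230) .nil)))))) (.g (nat_lit 6) .nil .nil)))) (.nd (nat_lit 5) 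
(.lf (nat_lit 252440) (.g (nat_lit 3066) (.e (nat_lit 163885) (nat_lit 5) (.e (nat_lit 221194) (nat_lit 11) (.e (nat_lit 336076) (nat_lit 9) (.e (nat_lit 336443) (nat_lit 32) (.e (nat_lit 466971) (nat_lit 21) (.e (nat_lit 164331) (nat_lit 230) .nil)))))) (.g (nat_lit 6) .nil .nil))) 
(.lf (nat_lit 252472) (.g (nat_lit 3480) (.e (nat_lit 163885) (nat_lit 5) (.e (nat_lit 221194) (nat_lit 11) (.e (nat_lit 336086) (nat_lit 9) (.e (nat_lit 336430) (nat_lit 29) (.e (nat_lit 442419) (nat_lit 21) (.e (nat_lit 164322) (nat_lit 230) .nil)))))) (.g (nat_lit 6) .nil .nil)))))) (.nd (nat_lit 3) (.nd (nat_lit 4) (.nd (nat_lit 5) 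
(.lf (nat_lit 252420) (.g (nat_lit 3499) (.e (nat_lit 163885) (nat_lit 5) (.e (nat_lit 221194) (nat_lit 11) (.e (nat_lit 336012) (nat_lit 2) (.e (nat_lit 90177) (nat_lit 15) (.e (nat_lit 188455) (nat_lit 24) .nil))))) .nil)) 
(.lf (nat_lit 252452) (.g (nat_lit 2839) (.e (nat_lit 163885) (nat_lit 5) (.e (nat_lit 221194) (nat_lit 11) (.e (nat_lit 336078) (nat_lit 9) (.e (nat_lit 336443) (nat_lit 32) (.e (nat_lit 466971) (nat_lit 21) (.e (nat_lit 164324) (nat_lit 230) .nil)))))) (.g (nat_lit 6) .nil .nil)))) (.nd (nat_lit 5) 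
(.lf (nat_lit 252436) (.g (nat_lit 3479) (.e (nat_lit 163885) (nat_lit 5) (.e (nat_lit 221194) (nat_lit 11) (.e (nat_lit 336076) (nat_lit 9) (.e (nat_lit 336443) (nat_lit 32) (.e (nat_lit 466971) (nat_lit 21) (.e (nat_lit 164322) (nat_lit 230) .nil)))))) (.g (nat_lit 6) .nil .nil))) 
(.lf (nat_lit 252468) (.g (nat_lit 3230) (.e (nat_lit 163885) (nat_lit 5) (.e (nat_lit 221194) (nat_lit 11) (.e (nat_lit 336085) (nat_lit 9) (.e (nat_lit 336443) (nat_lit 32) (.e (nat_lit 466972) (nat_lit 21) (.e (nat_lit 164329) (nat_lit 230) .nil)))))) (.g (nat_lit 5) .nil .nil))))) (.nd (nat_lit 4) (.nd (nat_lit 5) 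
(.lf (nat_lit 252428) (.g (nat_lit 3575) (.e (nat_lit 163885) (nat_lit 5) (.e (nat_lit 221194) (nat_lit 11) (.e (nat_lit 336027) (nat_lit 3) (.e (nat_lit 98373) (nat_lit 29) (.e (nat_lit 450563) (nat_lit 0) .nil))))) .nil)) 
(.lf (nat_lit 252460) (.g (nat_lit 2239) (.e (nat_lit 163885) (nat_lit 5) (.e (nat_lit 221194) (nat_lit 11) (.e (nat_lit 336085) (nat_lit 9) (.e (nat_lit 336430) (nat_lit 29) (.e (nat_lit 442419) (nat_lit 21) (.e (nat_lit 164322) (nat_lit 230) .nil)))))) (.g (nat_lit 4) .nil .nil)))) (.nd (nat_lit 5) 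
(.lf (nat_lit 252444) (.g (nat_lit 2625) (.e (nat_lit 163885) (nat_lit 5) (.e (nat_lit 221194) (nat_lit 11) (.e (nat_lit 336078) (nat_lit 9) (.e (nat_lit 336443) (nat_lit 32) (.e (nat_lit 466968) (nat_lit 21) (.e (nat_lit 164332) (nat_lit 230) .nil)))))) (.g (nat_lit 5) .nil .nil))) 
(.lf (nat_lit 252476) (.g (nat_lit 2091) (.e (nat_lit 163885) (nat_lit 5) (.e (nat_lit 221194) (nat_lit 11) (.e (nat_lit 336086) (nat_lit 9) (.e (nat_lit 336430) (nat_lit 29) (.e (nat_lit 442421) (nat_lit 21) (.e (nat_lit 164323) (nat_lit 230) .nil)))))) (.g (nat_lit 4) .nil .nil))))))) (.nd (nat_lit 2) (.nd (nat_lit 3) (.nd (nat_lit 4) (.nd (nat_lit 5) 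
(.lf (nat_lit 252418) (.g (nat_lit 3912) (.e (nat_lit 163885) (nat_lit 5) (.e (nat_lit 221194) (nat_lit 11) (.e (nat_lit 336012) (nat_lit 2) (.e (nat_lit 90176) (nat_lit 15) (.e (nat_lit 188455) (nat_lit 24) (.e (nat_lit 229520) (nat_lit 126) .nil)))))) (.g (nat_lit 4) .nil .nil))) 
(.lf (nat_lit 252450) (.g (nat_lit 2000) (.e (nat_lit 163885) (nat_lit 5) (.e (nat_lit 221194) (nat_lit 11) (.e (nat_lit 336078) (nat_lit 9) (.e (nat_lit 336443) (nat_lit 32) (.e (nat_lit 466970) (nat_lit 21) .nil))))) .nil))) (.nd (nat_lit 5) 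
(.lf (nat_lit 252434) (.g (nat_lit 3378) (.e (nat_lit 163885) (nat_lit 5) (.e (nat_lit 221194) (nat_lit 11) (.e (nat_lit 336076) (nat_lit 9) (.e (nat_lit 336443) (nat_lit 32) (.e (nat_lit 466969) (nat_lit 21) (.e (nat_lit 164330) (nat_lit 230) .nil)))))) (.g (nat_lit 0) .nil .nil))) 
(.lf (nat_lit 252466) (.g (nat_lit 3968) (.e (nat_lit 163885) (nat_lit 5) (.e (nat_lit 221194) (nat_lit 11) (.e (nat_lit 336085) (nat_lit 9) (.e (nat_lit 336443) (nat_lit 32) (.e (nat_lit 466969) (nat_lit 21) (.e (nat_lit 164332) (nat_lit 230) .nil)))))) (.g (nat_lit 0) .nil .nil))))) (.nd (nat_lit 4) (.nd (nat_lit 5) 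
(.lf (nat_lit 252426) (.g (nat_lit 2261) (.e (nat_lit 163885) (nat_lit 5) (.e (nat_lit 221194) (nat_lit 11) (.e (nat_lit 336027) (nat_lit 3) (.e (nat_lit 98373) (nat_lit 29) .nil)))) .nil)) 
(.lf (nat_lit 252458) (.g (nat_lit 3594) (.e (nat_lit 163885) (nat_lit 5) (.e (nat_lit 221194) (nat_lit 11) (.e (nat_lit 336078) (nat_lit 9) (.e (nat_lit 336443) (nat_lit 32) (.e (nat_lit 466972) (nat_lit 21) (.e (nat_lit 164330) (nat_lit 230) .nil)))))) (.g (nat_lit 0) .nil .nil)))) (.nd (nat_lit 5) 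
(.lf (nat_lit 252442) (.g (nat_lit 3202) (.e (nat_lit 163885) (nat_lit 5) (.e (nat_lit 221194) (nat_lit 11) (.e (nat_lit 336076) (nat_lit 9) (.e (nat_lit 336443) (nat_lit 32) (.e (nat_lit 466972) (nat_lit 21) (.e (nat_lit 164329) (nat_lit 230) .nil)))))) (.g (nat_lit 6) .nil .nil))) 
(.lf (nat_lit 252474) (.g (nat_lit 3741) (.e (nat_lit 163885) (nat_lit 5) (.e (nat_lit 221194) (nat_lit 11) (.e (nat_lit 336086) (nat_lit 9) (.e (nat_lit 336430) (nat_lit 29) (.e (nat_lit 442419) (nat_lit 21) (.e (nat_lit 164331) (nat_lit 230) .nil)))))) (.g (nat_lit 0) .nil .nil)))))) (.nd (nat_lit 3) (.nd (nat_lit 4) (.nd (nat_lit 5) 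
(.lf (nat_lit 252422) (.g (nat_lit 4575) (.e (nat_lit 163885) (nat_lit 5) (.e (nat_lit 221194) (nat_lit 11) (.e (nat_lit 336012) (nat_lit 2) (.e (nat_lit 90178) (nat_lit 15) (.e (nat_lit 188455) (nat_lit 24) (.e (nat_lit 237312) (nat_lit 126) .nil)))))) (.g (nat_lit 5) .nil .nil))) 
(.lf (nat_lit 252454) (.g (nat_lit 2740) (.e (nat_lit 163885) (nat_lit 5) (.e (nat_lit 221194) (nat_lit 11) (.e (nat_lit 336078) (nat_lit 9) (.e (nat_lit 336443) (nat_lit 32) (.e (nat_lit 466971) (nat_lit 21) (.e (nat_lit 164329) (nat_lit 230) .nil)))))) (.g (nat_lit 5) .nil .nil)))) (.nd (nat_lit 5) 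
(.lf (nat_lit 252438) (.g (nat_lit 2971) (.e (nat_lit 163885) (nat_lit 5) (.e (nat_lit 221194) (nat_lit 11) (.e (nat_lit 336076) (nat_lit 9) (.e (nat_lit 336443) (nat_lit 32) (.e (nat_lit 466971) (nat_lit 21) (.e (nat_lit 164325) (nat_lit 230) .nil)))))) (.g (nat_lit 6) .nil .nil))) 
(.lf (nat_lit 252470) (.g (nat_lit 373) (.e (nat_lit 163885) (nat_lit 5) (.e (nat_lit 221194) (nat_lit 11) (.e (nat_lit 336086) (nat_lit 9) .nil))) .nil)))) (.nd (nat_lit 4) (.nd (nat_lit 5) 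
(.lf (nat_lit 252430) (.g (nat_lit 3111) (.e (nat_lit 163885) (nat_lit 5) (.e (nat_lit 221194) (nat_lit 11) (.e (nat_lit 336076) (nat_lit 9) (.e (nat_lit 336443) (nat_lit 32) (.e (nat_lit 466969) (nat_lit 21) (.e (nat_lit 164322) (nat_lit 230) .nil)))))) (.g (nat_lit 5) .nil .nil))) 
(.lf (nat_lit 252462) (.g (nat_lit 2518) (.e (nat_lit 163885) (nat_lit 5) (.e (nat_lit 221194) (nat_lit 11) (.e (nat_lit 336085) (nat_lit 9) (.e (nat_lit 336443) (nat_lit 32) (.e (nat_lit 466968) (nat_lit 21) (.e (nat_lit 164332) (nat_lit 230) .nil)))))) (.g (nat_lit 4) .nil .nil)))) (.nd (nat_lit 5) 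
(.lf (nat_lit 252446) (.g (nat_lit 3014) (.e (nat_lit 163885) (nat_lit 5) (.e (nat_lit 221194) (nat_lit 11) (.e (nat_lit 336078) (nat_lit 9) (.e (nat_lit 336443) (nat_lit 32) (.e (nat_lit 466969) (nat_lit 21) (.e (nat_lit 164324) (nat_lit 230) .nil)))))) (.g (nat_lit 6) .nil .nil))) 
(.lf (nat_lit 252478) (.g (nat_lit 3817) (.e (nat_lit 163885) (nat_lit 5) (.e (nat_lit 221194) (nat_lit 11) (.e (nat_lit 336086) (nat_lit 9) (.e (nat_lit 336430) (nat_lit 29) (.e (nat_lit 442421) (nat_lit 21) (.e (nat_lit 164332) (nat_lit 230) .nil)))))) (.g (nat_lit 6) .nil .nil)))))))) (.nd (nat_lit 1) (.nd (nat_lit 2) (.nd (nat_lit 3) (.nd (nat_lit 4) (.nd (nat_lit 5) 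
(.lf (nat_lit 252417) (.g (nat_lit 4770) (.e (nat_lit 163885) (nat_lit 5) (.e (nat_lit 221194) (nat_lit 11) (.e (nat_lit 336012) (nat_lit 2) (.e (nat_lit 90176) (nat_lit 15) (.e (nat_lit 188453) (nat_lit 24) (.e (nat_lit 237312) (nat_lit 126) .nil)))))) (.g (nat_lit 5) .nil .nil))) 
(.lf (nat_lit 252449) (.g (nat_lit 3355) (.e (nat_lit 163885) (nat_lit 5) (.e (nat_lit 221194) (nat_lit 11) (.e (nat_lit 336078) (nat_lit 9) (.e (nat_lit 336443) (nat_lit 32) (.e (nat_lit 466969) (nat_lit 21) (.e (nat_lit 164330) (nat_lit 230) .nil)))))) (.g (nat_lit 0) .nil .nil)))) (.nd (nat_lit 5) 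
(.lf (nat_lit 252433) (.g (nat_lit 3115) (.e (nat_lit 163885) (nat_lit 5) (.e (nat_lit 221194) (nat_lit 11) (.e (nat_lit 336076) (nat_lit 9) (.e (nat_lit 336443) (nat_lit 32) (.e (nat_lit 466969) (nat_lit 21) (.e (nat_lit 164329) (nat_lit 230) .nil)))))) (.g (nat_lit 6) .nil .nil))) 
(.lf (nat_lit 252465) (.g (nat_lit 3596) (.e (nat_lit 163885) (nat_lit 5) (.e (nat_lit 221194) (nat_lit 11) (.e (nat_lit 336085) (nat_lit 9) (.e (nat_lit 336443) (nat_lit 32) (.e (nat_lit 466969) (nat_lit 21) (.e (nat_lit 164330) (nat_lit 230) .nil)))))) (.g (nat_lit 6) .nil .nil))))) (.nd (nat_lit 4) (.nd (nat_lit 5) 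
(.lf (nat_lit 252425) (.g (nat_lit 3748) (.e (nat_lit 163885) (nat_lit 5) (.e (nat_lit 221194) (nat_lit 11) (.e (nat_lit 336027) (nat_lit 3) (.e (nat_lit 98372) (nat_lit 29) (.e (nat_lit 450568) (nat_lit 0) .nil))))) .nil)) 
(.lf (nat_lit 252457) (.g (nat_lit 3112) (.e (nat_lit 163885) (nat_lit 5) (.e (nat_lit 221194) (nat_lit 11) (.e (nat_lit 336078) (nat_lit 9) (.e (nat_lit 336443) (nat_lit 32) (.e (nat_lit 466972) (nat_lit 21) (.e (nat_lit 164329) (nat_lit 230) .nil)))))) (.g (nat_lit 6) .nil .nil)))) (.nd (nat_lit 5) 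
(.lf (nat_lit 252441) (.g (nat_lit 3080) (.e (nat_lit 163885) (nat_lit 5) (.e (nat_lit 221194) (nat_lit 11) (.e (nat_lit 336076) (nat_lit 9) (.e (nat_lit 336443) (nat_lit 32) (.e (nat_lit 466972) (nat_lit 21) (.e (nat_lit 164322) (nat_lit 230) .nil)))))) (.g (nat_lit 5) .nil .nil))) 
(.lf (nat_lit 252473) (.g (nat_lit 1847) (.e (nat_lit 163885) (nat_lit 5) (.e (nat_lit 221194) (nat_lit 11) (.e (nat_lit 336086) (nat_lit 9) (.e (nat_lit 336430) (nat_lit 29) (.e (nat_lit 442419) (nat_lit 21) (.e (nat_lit 164323) (nat_lit 230) .nil)))))) (.g (nat_lit 4) .nil .nil)))))) (.nd (nat_lit 3) (.nd (nat_lit 4) (.nd (nat_lit 5) 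
(.lf (nat_lit 252421) (.g (nat_lit 4482) (.e (nat_lit 163885) (nat_lit 5) (.e (nat_lit 221194) (nat_lit 11) (.e (nat_lit 336012) (nat_lit 2) (.e (nat_lit 90178) (nat_lit 15) (.e (nat_lit 188455) (nat_lit 24) (.e (nat_lit 229520) (nat_lit 126) .nil)))))) (.g (nat_lit 5) .nil .nil))) 
(.lf (nat_lit 252453) (.g (nat_lit 2904) (.e (nat_lit 163885) (nat_lit 5) (.e (nat_lit 221194) (nat_lit 11) (.e (nat_lit 336078) (nat_lit 9) (.e (nat_lit 336443) (nat_lit 32) (.e (nat_lit 466971) (nat_lit 21) (.e (nat_lit 164325) (nat_lit 230) .nil)))))) (.g (nat_lit 6) .nil .nil)))) (.nd (nat_lit 5) 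
(.lf (nat_lit 252437) (.g (nat_lit 3039) (.e (nat_lit 163885) (nat_lit 5) (.e (nat_lit 221194) (nat_lit 11) (.e (nat_lit 336076) (nat_lit 9) (.e (nat_lit 336443) (nat_lit 32) (.e (nat_lit 466971) (nat_lit 21) (.e (nat_lit 164324) (nat_lit 230) .nil)))))) (.g (nat_lit 6) .nil .nil))) 
(.lf (nat_lit 252469) (.g (nat_lit 3772) (.e (nat_lit 163885) (nat_lit 5) (.e (nat_lit 221194) (nat_lit 11) (.e (nat_lit 336085) (nat_lit 9) (.e (nat_lit 336443) (nat_lit 32) (.e (nat_lit 466972) (nat_lit 21) (.e (nat_lit 164330) (nat_lit 230) .nil)))))) (.g (nat_lit 6) .nil .nil))))) (.nd (nat_lit 4) (.nd (nat_lit 5) 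
(.lf (nat_lit 252429) (.g (nat_lit 2374) (.e (nat_lit 163885) (nat_lit 5) (.e (nat_lit 221194) (nat_lit 11) (.e (nat_lit 336076) (nat_lit 9) (.e (nat_lit 336443) (nat_lit 32) (.e (nat_lit 466968) (nat_lit 21) (.e (nat_lit 164332) (nat_lit 230) .nil)))))) (.g (nat_lit 4) .nil .nil))) 
(.lf (nat_lit 252461) (.g (nat_lit 2243) (.e (nat_lit 163885) (nat_lit 5) (.e (nat_lit 221194) (nat_lit 11) (.e (nat_lit 336085) (nat_lit 9) (.e (nat_lit 336430) (nat_lit 29) (.e (nat_lit 442421) (nat_lit 21) (.e (nat_lit 164322) (nat_lit 230) .nil)))))) (.g (nat_lit 4) .nil .nil)))) (.nd (nat_lit 5) 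
(.lf (nat_lit 252445) (.g (nat_lit 3045) (.e (nat_lit 163885) (nat_lit 5) (.e (nat_lit 221194) (nat_lit 11) (.e (nat_lit 336078) (nat_lit 9) (.e (nat_lit 336443) (nat_lit 32) (.e (nat_lit 466969) (nat_lit 21) (.e (nat_lit 164322) (nat_lit 230) .nil)))))) (.g (nat_lit 5) .nil .nil))) 
(.lf (nat_lit 252477) (.g (nat_lit 3404) (.e (nat_lit 163885) (nat_lit 5) (.e (nat_lit 221194) (nat_lit 11) (.e (nat_lit 336086) (nat_lit 9) (.e (nat_lit 336430) (nat_lit 29) (.e (nat_lit 442421) (nat_lit 21) (.e (nat_lit 164324) (nat_lit 230) .nil)))))) (.g (nat_lit 6) .nil .nil))))))) (.nd (nat_lit 2) (.nd (nat_lit 3) (.nd (nat_lit 4) (.nd (nat_lit 5) 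
(.lf (nat_lit 252419) (.g (nat_lit 4031) (.e (nat_lit 163885) (nat_lit 5) (.e (nat_lit 221194) (nat_lit 11) (.e (nat_lit 336012) (nat_lit 2) (.e (nat_lit 90176) (nat_lit 15) (.e (nat_lit 188455) (nat_lit 24) (.e (nat_lit 237312) (nat_lit 126) .nil)))))) (.g (nat_lit 4) .nil .nil))) 
(.lf (nat_lit 252451) (.g (nat_lit 3426) (.e (nat_lit 163885) (nat_lit 5) (.e (nat_lit 221194) (nat_lit 11) (.e (nat_lit 336078) (nat_lit 9) (.e (nat_lit 336443) (nat_lit 32) (.e (nat_lit 466971) (nat_lit 21) (.e (nat_lit 164322) (nat_lit 230) .nil)))))) (.g (nat_lit 0) .nil .nil)))) (.nd (nat_lit 5) 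
(.lf (nat_lit 252435) (.g (nat_lit 3764) (.e (nat_lit 163885) (nat_lit 5) (.e (nat_lit 221194) (nat_lit 11) (.e (nat_lit 336076) (nat_lit 9) (.e (nat_lit 336443) (nat_lit 32) (.e (nat_lit 466969) (nat_lit 21) (.e (nat_lit 164332) (nat_lit 230) .nil)))))) (.g (nat_lit 0) .nil .nil))) 
(.lf (nat_lit 252467) (.g (nat_lit 2839) (.e (nat_lit 163885) (nat_lit 5) (.e (nat_lit 221194) (nat_lit 11) (.e (nat_lit 336085) (nat_lit 9) (.e (nat_lit 336443) (nat_lit 32) (.e (nat_lit 466971) (nat_lit 21) (.e (nat_lit 164329) (nat_lit 230) .nil)))))) (.g (nat_lit 5) .nil .nil))))) (.nd (nat_lit 4) (.nd (nat_lit 5) 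
(.lf (nat_lit 252427) (.g (nat_lit 4235) (.e (nat_lit 163885) (nat_lit 5) (.e (nat_lit 221194) (nat_lit 11) (.e (nat_lit 336027) (nat_lit 3) (.e (nat_lit 98373) (nat_lit 29) (.e (nat_lit 450562) (nat_lit 0) (.e (nat_lit 7936) (nat_lit 249) .nil)))))) (.g (nat_lit 4) .nil .nil))) 
(.lf (nat_lit 252459) (.g (nat_lit 516) (.e (nat_lit 163885) (nat_lit 5) (.e (nat_lit 221194) (nat_lit 11) (.e (nat_lit 336085) (nat_lit 9) .nil))) .nil))) (.nd (nat_lit 5) 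
(.lf (nat_lit 252443) (.g (nat_lit 3686) (.e (nat_lit 163885) (nat_lit 5) (.e (nat_lit 221194) (nat_lit 11) (.e (nat_lit 336076) (nat_lit 9) (.e (nat_lit 336443) (nat_lit 32) (.e (nat_lit 466972) (nat_lit 21) (.e (nat_lit 164330) (nat_lit 230) .nil)))))) (.g (nat_lit 0) .nil .nil))) 
(.lf (nat_lit 252475) (.g (nat_lit 3664) (.e (nat_lit 163885) (nat_lit 5) (.e (nat_lit 221194) (nat_lit 11) (.e (nat_lit 336086) (nat_lit 9) (.e (nat_lit 336430) (nat_lit 29) (.e (nat_lit 442419) (nat_lit 21) (.e (nat_lit 164332) (nat_lit 230) .nil)))))) (.g (nat_lit 6) .nil .nil)))))) (.nd (nat_lit 3) (.nd (nat_lit 4) (.nd (nat_lit 5) 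
(.lf (nat_lit 252423) (.g (nat_lit 1418) (.e (nat_lit 163885) (nat_lit 5) (.e (nat_lit 221194) (nat_lit 11) (.e (nat_lit 336027) (nat_lit 3) .nil))) .nil)) 
(.lf (nat_lit 252455) (.g (nat_lit 2975) (.e (nat_lit 163885) (nat_lit 5) (.e (nat_lit 221194) (nat_lit 11) (.e (nat_lit 336078) (nat_lit 9) (.e (nat_lit 336443) (nat_lit 32) (.e (nat_lit 466971) (nat_lit 21) (.e (nat_lit 164331) (nat_lit 230) .nil)))))) (.g (nat_lit 6) .nil .nil)))) (.nd (nat_lit 5) 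
(.lf (nat_lit 252439) (.g (nat_lit 2815) (.e (nat_lit 163885) (nat_lit 5) (.e (nat_lit 221194) (nat_lit 11) (.e (nat_lit 336076) (nat_lit 9) (.e (nat_lit 336443) (nat_lit 32) (.e (nat_lit 466971) (nat_lit 21) (.e (nat_lit 164329) (nat_lit 230) .nil)))))) (.g (nat_lit 5) .nil .nil))) 
(.lf (nat_lit 252471) (.g (nat_lit 2736) (.e (nat_lit 163885) (nat_lit 5) (.e (nat_lit 221194) (nat_lit 11) (.e (nat_lit 336086) (nat_lit 9) (.e (nat_lit 336426) (nat_lit 29) (.e (nat_lit 442421) (nat_lit 21) (.e (nat_lit 164324) (nat_lit 230) .nil)))))) (.g (nat_lit 5) .nil .nil))))) (.nd (nat_lit 4) (.nd (nat_lit 5) 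
(.lf (nat_lit 252431) (.g (nat_lit 3160) (.e (nat_lit 163885) (nat_lit 5) (.e (nat_lit 221194) (nat_lit 11) (.e (nat_lit 336076) (nat_lit 9) (.e (nat_lit 336443) (nat_lit 32) (.e (nat_lit 466969) (nat_lit 21) (.e (nat_lit 164324) (nat_lit 230) .nil)))))) (.g (nat_lit 6) .nil .nil))) 
(.lf (nat_lit 252463) (.g (nat_lit 3266) (.e (nat_lit 163885) (nat_lit 5) (.e (nat_lit 221194) (nat_lit 11) (.e (nat_lit 336085) (nat_lit 9) (.e (nat_lit 336443) (nat_lit 32) (.e (nat_lit 466969) (nat_lit 21) (.e (nat_lit 164322) (nat_lit 230) .nil)))))) (.g (nat_lit 5) .nil .nil)))) (.nd (nat_lit 5) 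
(.lf (nat_lit 252447) (.g (nat_lit 2964) (.e (nat_lit 163885) (nat_lit 5) (.e (nat_lit 221194) (nat_lit 11) (.e (nat_lit 336078) (nat_lit 9) (.e (nat_lit 336443) (nat_lit 32) (.e (nat_lit 466969) (nat_lit 21) (.e (nat_lit 164325) (nat_lit 230) .nil)))))) (.g (nat_lit 6) .nil .nil))) 
(.lf (nat_lit 252479) (.g (nat_lit 1850) (.e (nat_lit 163885) (nat_lit 5) (.e (nat_lit 221194) (nat_lit 11) (.e (nat_lit 336086) (nat_lit 9) (.e (nat_lit 336443) (nat_lit 32) (.e (nat_lit 466968) (nat_lit 21) (.e (nat_lit 164329) (nat_lit 230) .nil)))))) (.g (nat_lit 4) .nil .nil)))))))))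

noncomputable def tv3275 : DT := (.nd (nat_lit 0) (.nd (nat_lit 1) (.nd (nat_lit 2) (.nd (nat_lit 3) (.nd (nat_lit 4) (.nd (nat_lit 5) 
(.lf (nat_lit 252480) (.g (nat_lit 3114) (.e (nat_lit 163885) (nat_lit 5) (.e (nat_lit 221194) (nat_lit 11) (.e (nat_lit 336086) (nat_lit 9) (.e (nat_lit 336443) (nat_lit 32) (.e (nat_lit 466969) (nat_lit 21) (.e (nat_lit 164322) (nat_lit 230) .nil)))))) (.g (nat_lit 5) .nil .nil))) 
(.lf (nat_lit 252512) (.g (nat_lit 3504) (.e (nat_lit 163885) (nat_lit 5) (.e (nat_lit 221194) (nat_lit 11) (.e (nat_lit 336088) (nat_lit 9) (.e (nat_lit 336443) (nat_lit 32) (.e (nat_lit 466971) (nat_lit 21) (.e (nat_lit 164324) (nat_lit 230) .nil)))))) (.g (nat_lit 6) .nil .nil)))) (.nd (nat_lit 5) 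
(.lf (nat_lit 252496) (.g (nat_lit 3309) (.e (nat_lit 163885) (nat_lit 5) (.e (nat_lit 221194) (nat_lit 11) (.e (nat_lit 336087) (nat_lit 9) (.e (nat_lit 336443) (nat_lit 32) (.e (nat_lit 466969) (nat_lit 21) (.e (nat_lit 164324) (nat_lit 230) .nil)))))) (.g (nat_lit 6) .nil .nil))) 
(.lf (nat_lit 252528) (.g (nat_lit 2895) (.e (nat_lit 163885) (nat_lit 5) (.e (nat_lit 221194) (nat_lit 11) (.e (nat_lit 336213) (nat_lit 13) (.e (nat_lit 393281) (nat_lit 23) (.e (nat_lit 426100) (nat_lit 1) (.e (nat_lit 164322) (nat_lit 230) .nil)))))) (.g (nat_lit 5) .nil .nil))))) (.nd (nat_lit 4) (.nd (nat_lit 5) 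
(.lf (nat_lit 252488) (.g (nat_lit 2955) (.e (nat_lit 163885) (nat_lit 5) (.e (nat_lit 221194) (nat_lit 11) (.e (nat_lit 336086) (nat_lit 9) (.e (nat_lit 336443) (nat_lit 32) (.e (nat_lit 466971) (nat_lit 21) (.e (nat_lit 164331) (nat_lit 230) .nil)))))) (.g (nat_lit 6) .nil .nil))) 
(.lf (nat_lit 252520) (.g (nat_lit 1741) (.e (nat_lit 163885) (nat_lit 5) (.e (nat_lit 221194) (nat_lit 11) (.e (nat_lit 336212) (nat_lit 13) (.e (nat_lit 393281) (nat_lit 23) (.e (nat_lit 426108) (nat_lit 1) .nil))))) .nil))) (.nd (nat_lit 5) 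
(.lf (nat_lit 252504) (.g (nat_lit 3783) (.e (nat_lit 163885) (nat_lit 5) (.e (nat_lit 221194) (nat_lit 11) (.e (nat_lit 336087) (nat_lit 9) (.e (nat_lit 336443) (nat_lit 32) (.e (nat_lit 466972) (nat_lit 21) (.e (nat_lit 164330) (nat_lit 230) .nil)))))) (.g (nat_lit 6) .nil .nil))) 
(.lf (nat_lit 252536) (.g (nat_lit 1919) (.e (nat_lit 163885) (nat_lit 5) (.e (nat_lit 221194) (nat_lit 11) (.e (nat_lit 336215) (nat_lit 13) (.e (nat_lit 393281) (nat_lit 23) (.e (nat_lit 426099) (nat_lit 1) (.e (nat_lit 164322) (nat_lit 230) .nil)))))) (.g (nat_lit 4) .nil .nil)))))) (.nd (nat_lit 3) (.nd (nat_lit 4) (.nd (nat_lit 5) 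
(.lf (nat_lit 252484) (.g (nat_lit 2513) (.e (nat_lit 163885) (nat_lit 5) (.e (nat_lit 221194) (nat_lit 11) (.e (nat_lit 336086) (nat_lit 9) (.e (nat_lit 336443) (nat_lit 32) (.e (nat_lit 466970) (nat_lit 21) (.e (nat_lit 164332) (nat_lit 230) .nil)))))) (.g (nat_lit 4) .nil .nil))) 
(.lf (nat_lit 252516) (.g (nat_lit 3489) (.e (nat_lit 163885) (nat_lit 5) (.e (nat_lit 221194) (nat_lit 11) (.e (nat_lit 336088) (nat_lit 9) (.e (nat_lit 336443) (nat_lit 32) (.e (nat_lit 466972) (nat_lit 21) (.e (nat_lit 164322) (nat_lit 230) .nil)))))) (.g (nat_lit 5) .nil .nil)))) (.nd (nat_lit 5) 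
(.lf (nat_lit 252500) (.g (nat_lit 3117) (.e (nat_lit 163885) (nat_lit 5) (.e (nat_lit 221194) (nat_lit 11) (.e (nat_lit 336087) (nat_lit 9) (.e (nat_lit 336443) (nat_lit 32) (.e (nat_lit 466971) (nat_lit 21) (.e (nat_lit 164324) (nat_lit 230) .nil)))))) (.g (nat_lit 6) .nil .nil))) 
(.lf (nat_lit 252532) (.g (nat_lit 3508) (.e (nat_lit 163885) (nat_lit 5) (.e (nat_lit 221194) (nat_lit 11) (.e (nat_lit 336213) (nat_lit 13) (.e (nat_lit 393281) (nat_lit 23) (.e (nat_lit 426108) (nat_lit 1) (.e (nat_lit 164329) (nat_lit 230) .nil)))))) (.g (nat_lit 6) .nil .nil))))) (.nd (nat_lit 4) (.nd (nat_lit 5) 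
(.lf (nat_lit 252492) (.g (nat_lit 3933) (.e (nat_lit 163885) (nat_lit 5) (.e (nat_lit 221194) (nat_lit 11) (.e (nat_lit 336086) (nat_lit 9) (.e (nat_lit 336443) (nat_lit 32) (.e (nat_lit 466972) (nat_lit 21) (.e (nat_lit 164332) (nat_lit 230) .nil)))))) (.g (nat_lit 0) .nil .nil))) 
(.lf (nat_lit 252524) (.g (nat_lit 2328) (.e (nat_lit 163885) (nat_lit 5) (.e (nat_lit 221194) (nat_lit 11) (.e (nat_lit 336213) (nat_lit 13) (.e (nat_lit 393281) (nat_lit 23) (.e (nat_lit 426099) (nat_lit 1) (.e (nat_lit 164322) (nat_lit 230) .nil)))))) (.g (nat_lit 4) .nil .nil)))) (.nd (nat_lit 5) 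
(.lf (nat_lit 252508) (.g (nat_lit 3476) (.e (nat_lit 163885) (nat_lit 5) (.e (nat_lit 221194) (nat_lit 11) (.e (nat_lit 336088) (nat_lit 9) (.e (nat_lit 336443) (nat_lit 32) (.e (nat_lit 466969) (nat_lit 21) (.e (nat_lit 164325) (nat_lit 230) .nil)))))) (.g (nat_lit 6) .nil .nil))) 
(.lf (nat_lit 252540) (.g (nat_lit 2819) (.e (nat_lit 163885) (nat_lit 5) (.e (nat_lit 221194) (nat_lit 11) (.e (nat_lit 336215) (nat_lit 13) (.e (nat_lit 393281) (nat_lit 23) (.e (nat_lit 426100) (nat_lit 1) (.e (nat_lit 164329) (nat_lit 230) .nil)))))) (.g (nat_lit 6) .nil .nil))))))) (.nd (nat_lit 2) (.nd (nat_lit 3) (.nd (nat_lit 4) (.nd (nat_lit 5) 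
(.lf (nat_lit 252482) (.g (nat_lit 3058) (.e (nat_lit 163885) (nat_lit 5) (.e (nat_lit 221194) (nat_lit 11) (.e (nat_lit 336086) (nat_lit 9) (.e (nat_lit 336443) (nat_lit 32) (.e (nat_lit 466969) (nat_lit 21) (.e (nat_lit 164329) (nat_lit 230) .nil)))))) (.g (nat_lit 6) .nil .nil))) 
(.lf (nat_lit 252514) (.g (nat_lit 3233) (.e (nat_lit 163885) (nat_lit 5) (.e (nat_lit 221194) (nat_lit 11) (.e (nat_lit 336088) (nat_lit 9) (.e (nat_lit 336443) (nat_lit 32) (.e (nat_lit 466971) (nat_lit 21) (.e (nat_lit 164329) (nat_lit 230) .nil)))))) (.g (nat_lit 5) .nil .nil)))) (.nd (nat_lit 5) 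
(.lf (nat_lit 252498) (.g (nat_lit 3916) (.e (nat_lit 163885) (nat_lit 5) (.e (nat_lit 221194) (nat_lit 11) (.e (nat_lit 336087) (nat_lit 9) (.e (nat_lit 336443) (nat_lit 32) (.e (nat_lit 466969) (nat_lit 21) (.e (nat_lit 164332) (nat_lit 230) .nil)))))) (.g (nat_lit 0) .nil .nil))) 
(.lf (nat_lit 252530) (.g (nat_lit 3554) (.e (nat_lit 163885) (nat_lit 5) (.e (nat_lit 221194) (nat_lit 11) (.e (nat_lit 336213) (nat_lit 13) (.e (nat_lit 393281) (nat_lit 23) (.e (nat_lit 426100) (nat_lit 1) (.e (nat_lit 164330) (nat_lit 230) .nil)))))) (.g (nat_lit 0) .nil .nil))))) (.nd (nat_lit 4) (.nd (nat_lit 5) 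
(.lf (nat_lit 252490) (.g (nat_lit 3192) (.e (nat_lit 163885) (nat_lit 5) (.e (nat_lit 221194) (nat_lit 11) (.e (nat_lit 336086) (nat_lit 9) (.e (nat_lit 336443) (nat_lit 32) (.e (nat_lit 466972) (nat_lit 21) (.e (nat_lit 164329) (nat_lit 230) .nil)))))) (.g (nat_lit 6) .nil .nil))) 
(.lf (nat_lit 252522) (.g (nat_lit 1923) (.e (nat_lit 163885) (nat_lit 5) (.e (nat_lit 221194) (nat_lit 11) (.e (nat_lit 336213) (nat_lit 13) (.e (nat_lit 393281) (nat_lit 23) (.e (nat_lit 426098) (nat_lit 1) (.e (nat_lit 164324) (nat_lit 230) .nil)))))) (.g (nat_lit 4) .nil .nil)))) (.nd (nat_lit 5) 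
(.lf (nat_lit 252506) (.g (nat_lit 3531) (.e (nat_lit 163885) (nat_lit 5) (.e (nat_lit 221194) (nat_lit 11) (.e (nat_lit 336088) (nat_lit 9) (.e (nat_lit 336443) (nat_lit 32) (.e (nat_lit 466969) (nat_lit 21) (.e (nat_lit 164322) (nat_lit 230) .nil)))))) (.g (nat_lit 6) .nil .nil))) 
(.lf (nat_lit 252538) (.g (nat_lit 2683) (.e (nat_lit 163885) (nat_lit 5) (.e (nat_lit 221194) (nat_lit 11) (.e (nat_lit 336215) (nat_lit 13) (.e (nat_lit 393281) (nat_lit 23) (.e (nat_lit 426099) (nat_lit 1) (.e (nat_lit 164330) (nat_lit 230) .nil)))))) (.g (nat_lit 0) .nil .nil)))))) (.nd (nat_lit 3) (.nd (nat_lit 4) (.nd (nat_lit 5) 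
(.lf (nat_lit 252486) (.g (nat_lit 3039) (.e (nat_lit 163885) (nat_lit 5) (.e (nat_lit 221194) (nat_lit 11) (.e (nat_lit 336086) (nat_lit 9) (.e (nat_lit 336443) (nat_lit 32) (.e (nat_lit 466971) (nat_lit 21) (.e (nat_lit 164324) (nat_lit 230) .nil)))))) (.g (nat_lit 6) .nil .nil))) 
(.lf (nat_lit 252518) (.g (nat_lit 4089) (.e (nat_lit 163885) (nat_lit 5) (.e (nat_lit 221194) (nat_lit 11) (.e (nat_lit 336088) (nat_lit 9) (.e (nat_lit 336443) (nat_lit 32) (.e (nat_lit 466972) (nat_lit 21) (.e (nat_lit 164330) (nat_lit 230) .nil)))))) (.g (nat_lit 0) .nil .nil)))) (.nd (nat_lit 5) 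
(.lf (nat_lit 252502) (.g (nat_lit 3150) (.e (nat_lit 163885) (nat_lit 5) (.e (nat_lit 221194) (nat_lit 11) (.e (nat_lit 336087) (nat_lit 9) (.e (nat_lit 336443) (nat_lit 32) (.e (nat_lit 466972) (nat_lit 21) (.e (nat_lit 164322) (nat_lit 230) .nil)))))) (.g (nat_lit 5) .nil .nil))) 
(.lf (nat_lit 252534) (.g (nat_lit 2546) (.e (nat_lit 163885) (nat_lit 5) (.e (nat_lit 221194) (nat_lit 11) (.e (nat_lit 336214) (nat_lit 13) (.e (nat_lit 393281) (nat_lit 23) (.e (nat_lit 426100) (nat_lit 1) (.e (nat_lit 164322) (nat_lit 230) .nil)))))) (.g (nat_lit 5) .nil .nil))))) (.nd (nat_lit 4) (.nd (nat_lit 5) 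
(.lf (nat_lit 252494) (.g (nat_lit 2947) (.e (nat_lit 163885) (nat_lit 5) (.e (nat_lit 221194) (nat_lit 11) (.e (nat_lit 336087) (nat_lit 9) (.e (nat_lit 336443) (nat_lit 32) (.e (nat_lit 466968) (nat_lit 21) (.e (nat_lit 164332) (nat_lit 230) .nil)))))) (.g (nat_lit 4) .nil .nil))) 
(.lf (nat_lit 252526) (.g (nat_lit 3033) (.e (nat_lit 163885) (nat_lit 5) (.e (nat_lit 221194) (nat_lit 11) (.e (nat_lit 336213) (nat_lit 13) (.e (nat_lit 393281) (nat_lit 23) (.e (nat_lit 426099) (nat_lit 1) (.e (nat_lit 164330) (nat_lit 230) .nil)))))) (.g (nat_lit 0) .nil .nil)))) (.nd (nat_lit 5) 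
(.lf (nat_lit 252510) (.g (nat_lit 3797) (.e (nat_lit 163885) (nat_lit 5) (.e (nat_lit 221194) (nat_lit 11) (.e (nat_lit 336088) (nat_lit 9) (.e (nat_lit 336443) (nat_lit 32) (.e (nat_lit 466969) (nat_lit 21) (.e (nat_lit 164330) (nat_lit 230) .nil)))))) (.g (nat_lit 0) .nil .nil))) 
(.lf (nat_lit 252542) (.g (nat_lit 2712) (.e (nat_lit 163885) (nat_lit 5) (.e (nat_lit 221194) (nat_lit 11) (.e (nat_lit 336215) (nat_lit 13) (.e (nat_lit 393281) (nat_lit 23) (.e (nat_lit 426100) (nat_lit 1) (.e (nat_lit 164331) (nat_lit 230) .nil)))))) (.g (nat_lit 6) .nil .nil)))))))) (.nd (nat_lit 1) (.nd (nat_lit 2) (.nd (nat_lit 3) (.nd (nat_lit 4) (.nd (nat_lit 5) 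
(.lf (nat_lit 252481) (.g (nat_lit 3184) (.e (nat_lit 163885) (nat_lit 5) (.e (nat_lit 221194) (nat_lit 11) (.e (nat_lit 336086) (nat_lit 9) (.e (nat_lit 336443) (nat_lit 32) (.e (nat_lit 466969) (nat_lit 21) (.e (nat_lit 164324) (nat_lit 230) .nil)))))) (.g (nat_lit 6) .nil .nil))) 
(.lf (nat_lit 252513) (.g (nat_lit 3478) (.e (nat_lit 163885) (nat_lit 5) (.e (nat_lit 221194) (nat_lit 11) (.e (nat_lit 336088) (nat_lit 9) (.e (nat_lit 336443) (nat_lit 32) (.e (nat_lit 466971) (nat_lit 21) (.e (nat_lit 164325) (nat_lit 230) .nil)))))) (.g (nat_lit 6) .nil .nil)))) (.nd (nat_lit 5) 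
(.lf (nat_lit 252497) (.g (nat_lit 3544) (.e (nat_lit 163885) (nat_lit 5) (.e (nat_lit 221194) (nat_lit 11) (.e (nat_lit 336087) (nat_lit 9) (.e (nat_lit 336443) (nat_lit 32) (.e (nat_lit 466969) (nat_lit 21) (.e (nat_lit 164330) (nat_lit 230) .nil)))))) (.g (nat_lit 0) .nil .nil))) 
(.lf (nat_lit 252529) (.g (nat_lit 3230) (.e (nat_lit 163885) (nat_lit 5) (.e (nat_lit 221194) (nat_lit 11) (.e (nat_lit 336213) (nat_lit 13) (.e (nat_lit 393281) (nat_lit 23) (.e (nat_lit 426100) (nat_lit 1) (.e (nat_lit 164329) (nat_lit 230) .nil)))))) (.g (nat_lit 6) .nil .nil))))) (.nd (nat_lit 4) (.nd (nat_lit 5) 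
(.lf (nat_lit 252489) (.g (nat_lit 3146) (.e (nat_lit 163885) (nat_lit 5) (.e (nat_lit 221194) (nat_lit 11) (.e (nat_lit 336086) (nat_lit 9) (.e (nat_lit 336443) (nat_lit 32) (.e (nat_lit 466972) (nat_lit 21) (.e (nat_lit 164322) (nat_lit 230) .nil)))))) (.g (nat_lit 5) .nil .nil))) 
(.lf (nat_lit 252521) (.g (nat_lit 2971) (.e (nat_lit 163885) (nat_lit 5) (.e (nat_lit 221194) (nat_lit 11) (.e (nat_lit 336213) (nat_lit 13) (.e (nat_lit 393280) (nat_lit 23) (.e (nat_lit 426108) (nat_lit 1) .nil))))) .nil))) (.nd (nat_lit 5) 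
(.lf (nat_lit 252505) (.g (nat_lit 2744) (.e (nat_lit 163885) (nat_lit 5) (.e (nat_lit 221194) (nat_lit 11) (.e (nat_lit 336088) (nat_lit 9) (.e (nat_lit 336443) (nat_lit 32) (.e (nat_lit 466968) (nat_lit 21) .nil))))) .nil)) 
(.lf (nat_lit 252537) (.g (nat_lit 2251) (.e (nat_lit 163885) (nat_lit 5) (.e (nat_lit 221194) (nat_lit 11) (.e (nat_lit 336215) (nat_lit 13) (.e (nat_lit 393281) (nat_lit 23) (.e (nat_lit 426099) (nat_lit 1) (.e (nat_lit 164329) (nat_lit 230) .nil)))))) (.g (nat_lit 5) .nil .nil)))))) (.nd (nat_lit 3) (.nd (nat_lit 4) (.nd (nat_lit 5) 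
(.lf (nat_lit 252485) (.g (nat_lit 3475) (.e (nat_lit 163885) (nat_lit 5) (.e (nat_lit 221194) (nat_lit 11) (.e (nat_lit 336086) (nat_lit 9) (.e (nat_lit 336443) (nat_lit 32) (.e (nat_lit 466971) (nat_lit 21) (.e (nat_lit 164322) (nat_lit 230) .nil)))))) (.g (nat_lit 6) .nil .nil))) 
(.lf (nat_lit 252517) (.g (nat_lit 3585) (.e (nat_lit 163885) (nat_lit 5) (.e (nat_lit 221194) (nat_lit 11) (.e (nat_lit 336088) (nat_lit 9) (.e (nat_lit 336443) (nat_lit 32) (.e (nat_lit 466972) (nat_lit 21) (.e (nat_lit 164329) (nat_lit 230) .nil)))))) (.g (nat_lit 6) .nil .nil)))) (.nd (nat_lit 5) 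
(.lf (nat_lit 252501) (.g (nat_lit 2837) (.e (nat_lit 163885) (nat_lit 5) (.e (nat_lit 221194) (nat_lit 11) (.e (nat_lit 336087) (nat_lit 9) (.e (nat_lit 336443) (nat_lit 32) (.e (nat_lit 466971) (nat_lit 21) (.e (nat_lit 164329) (nat_lit 230) .nil)))))) (.g (nat_lit 5) .nil .nil))) 
(.lf (nat_lit 252533) (.g (nat_lit 3350) (.e (nat_lit 163885) (nat_lit 5) (.e (nat_lit 221194) (nat_lit 11) (.e (nat_lit 336213) (nat_lit 13) (.e (nat_lit 393281) (nat_lit 23) (.e (nat_lit 426108) (nat_lit 1) (.e (nat_lit 164330) (nat_lit 230) .nil)))))) (.g (nat_lit 6) .nil .nil))))) (.nd (nat_lit 4) (.nd (nat_lit 5) 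
(.lf (nat_lit 252493) (.g (nat_lit 578) (.e (nat_lit 163885) (nat_lit 5) (.e (nat_lit 221194) (nat_lit 11) (.e (nat_lit 336087) (nat_lit 9) .nil))) .nil)) 
(.lf (nat_lit 252525) (.g (nat_lit 2623) (.e (nat_lit 163885) (nat_lit 5) (.e (nat_lit 221194) (nat_lit 11) (.e (nat_lit 336213) (nat_lit 13) (.e (nat_lit 393281) (nat_lit 23) (.e (nat_lit 426099) (nat_lit 1) (.e (nat_lit 164329) (nat_lit 230) .nil)))))) (.g (nat_lit 5) .nil .nil)))) (.nd (nat_lit 5) 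
(.lf (nat_lit 252509) (.g (nat_lit 3451) (.e (nat_lit 163885) (nat_lit 5) (.e (nat_lit 221194) (nat_lit 11) (.e (nat_lit 336088) (nat_lit 9) (.e (nat_lit 336443) (nat_lit 32) (.e (nat_lit 466969) (nat_lit 21) (.e (nat_lit 164329) (nat_lit 230) .nil)))))) (.g (nat_lit 6) .nil .nil))) 
(.lf (nat_lit 252541) (.g (nat_lit 3208) (.e (nat_lit 163885) (nat_lit 5) (.e (nat_lit 221194) (nat_lit 11) (.e (nat_lit 336215) (nat_lit 13) (.e (nat_lit 393281) (nat_lit 23) (.e (nat_lit 426100) (nat_lit 1) (.e (nat_lit 164330) (nat_lit 230) .nil)))))) (.g (nat_lit 0) .nil .nil))))))) (.nd (nat_lit 2) (.nd (nat_lit 3) (.nd (nat_lit 4) (.nd (nat_lit 5) 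
(.lf (nat_lit 252483) (.g (nat_lit 3399) (.e (nat_lit 163885) (nat_lit 5) (.e (nat_lit 221194) (nat_lit 11) (.e (nat_lit 336086) (nat_lit 9) (.e (nat_lit 336443) (nat_lit 32) (.e (nat_lit 466969) (nat_lit 21) (.e (nat_lit 164330) (nat_lit 230) .nil)))))) (.g (nat_lit 0) .nil .nil))) 
(.lf (nat_lit 252515) (.g (nat_lit 3468) (.e (nat_lit 163885) (nat_lit 5) (.e (nat_lit 221194) (nat_lit 11) (.e (nat_lit 336088) (nat_lit 9) (.e (nat_lit 336443) (nat_lit 32) (.e (nat_lit 466971) (nat_lit 21) (.e (nat_lit 164331) (nat_lit 230) .nil)))))) (.g (nat_lit 6) .nil .nil)))) (.nd (nat_lit 5) 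
(.lf (nat_lit 252499) (.g (nat_lit 3568) (.e (nat_lit 163885) (nat_lit 5) (.e (nat_lit 221194) (nat_lit 11) (.e (nat_lit 336087) (nat_lit 9) (.e (nat_lit 336443) (nat_lit 32) (.e (nat_lit 466971) (nat_lit 21) (.e (nat_lit 164322) (nat_lit 230) .nil)))))) (.g (nat_lit 6) .nil .nil))) 
(.lf (nat_lit 252531) (.g (nat_lit 2377) (.e (nat_lit 163885) (nat_lit 5) (.e (nat_lit 221194) (nat_lit 11) (.e (nat_lit 336213) (nat_lit 13) (.e (nat_lit 393281) (nat_lit 23) (.e (nat_lit 426105) (nat_lit 1) (.e (nat_lit 164332) (nat_lit 230) .nil)))))) (.g (nat_lit 4) .nil .nil))))) (.nd (nat_lit 4) (.nd (nat_lit 5) 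
(.lf (nat_lit 252491) (.g (nat_lit 3698) (.e (nat_lit 163885) (nat_lit 5) (.e (nat_lit 221194) (nat_lit 11) (.e (nat_lit 336086) (nat_lit 9) (.e (nat_lit 336443) (nat_lit 32) (.e (nat_lit 466972) (nat_lit 21) (.e (nat_lit 164330) (nat_lit 230) .nil)))))) (.g (nat_lit 0) .nil .nil))) 
(.lf (nat_lit 252523) (.g (nat_lit 2133) (.e (nat_lit 163885) (nat_lit 5) (.e (nat_lit 221194) (nat_lit 11) (.e (nat_lit 336213) (nat_lit 13) (.e (nat_lit 393281) (nat_lit 23) (.e (nat_lit 426098) (nat_lit 1) (.e (nat_lit 164331) (nat_lit 230) .nil)))))) (.g (nat_lit 4) .nil .nil)))) (.nd (nat_lit 5) 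
(.lf (nat_lit 252507) (.g (nat_lit 3589) (.e (nat_lit 163885) (nat_lit 5) (.e (nat_lit 221194) (nat_lit 11) (.e (nat_lit 336088) (nat_lit 9) (.e (nat_lit 336443) (nat_lit 32) (.e (nat_lit 466969) (nat_lit 21) (.e (nat_lit 164324) (nat_lit 230) .nil)))))) (.g (nat_lit 0) .nil .nil))) 
(.lf (nat_lit 252539) (.g (nat_lit 2520) (.e (nat_lit 163885) (nat_lit 5) (.e (nat_lit 221194) (nat_lit 11) (.e (nat_lit 336215) (nat_lit 13) (.e (nat_lit 393281) (nat_lit 23) (.e (nat_lit 426100) (nat_lit 1) (.e (nat_lit 164322) (nat_lit 230) .nil)))))) (.g (nat_lit 5) .nil .nil)))))) (.nd (nat_lit 3) (.nd (nat_lit 4) (.nd (nat_lit 5) 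
(.lf (nat_lit 252487) (.g (nat_lit 2739) (.e (nat_lit 163885) (nat_lit 5) (.e (nat_lit 221194) (nat_lit 11) (.e (nat_lit 336086) (nat_lit 9) (.e (nat_lit 336443) (nat_lit 32) (.e (nat_lit 466971) (nat_lit 21) (.e (nat_lit 164329) (nat_lit 230) .nil)))))) (.g (nat_lit 5) .nil .nil))) 
(.lf (nat_lit 252519) (.g (nat_lit 783) (.e (nat_lit 163885) (nat_lit 5) (.e (nat_lit 221194) (nat_lit 11) (.e (nat_lit 336212) (nat_lit 13) .nil))) .nil))) (.nd (nat_lit 5) 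
(.lf (nat_lit 252503) (.g (nat_lit 3292) (.e (nat_lit 163885) (nat_lit 5) (.e (nat_lit 221194) (nat_lit 11) (.e (nat_lit 336087) (nat_lit 9) (.e (nat_lit 336443) (nat_lit 32) (.e (nat_lit 466972) (nat_lit 21) (.e (nat_lit 164329) (nat_lit 230) .nil)))))) (.g (nat_lit 5) .nil .nil))) 
(.lf (nat_lit 252535) (.g (nat_lit 3150) (.e (nat_lit 163885) (nat_lit 5) (.e (nat_lit 221194) (nat_lit 11) (.e (nat_lit 336215) (nat_lit 13) (.e (nat_lit 393281) (nat_lit 23) (.e (nat_lit 426098) (nat_lit 1) (.e (nat_lit 164325) (nat_lit 230) .nil)))))) (.g (nat_lit 6) .nil .nil))))) (.nd (nat_lit 4) (.nd (nat_lit 5) 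
(.lf (nat_lit 252495) (.g (nat_lit 3266) (.e (nat_lit 163885) (nat_lit 5) (.e (nat_lit 221194) (nat_lit 11) (.e (nat_lit 336087) (nat_lit 9) (.e (nat_lit 336443) (nat_lit 32) (.e (nat_lit 466969) (nat_lit 21) (.e (nat_lit 164322) (nat_lit 230) .nil)))))) (.g (nat_lit 5) .nil .nil))) 
(.lf (nat_lit 252527) (.g (nat_lit 2028) (.e (nat_lit 163885) (nat_lit 5) (.e (nat_lit 221194) (nat_lit 11) (.e (nat_lit 336213) (nat_lit 13) (.e (nat_lit 393281) (nat_lit 23) (.e (nat_lit 426099) (nat_lit 1) (.e (nat_lit 164331) (nat_lit 230) .nil)))))) (.g (nat_lit 4) .nil .nil)))) (.nd (nat_lit 5) 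
(.lf (nat_lit 252511) (.g (nat_lit 3957) (.e (nat_lit 163885) (nat_lit 5) (.e (nat_lit 221194) (nat_lit 11) (.e (nat_lit 336088) (nat_lit 9) (.e (nat_lit 336443) (nat_lit 32) (.e (nat_lit 466971) (nat_lit 21) (.e (nat_lit 164322) (nat_lit 230) .nil)))))) (.g (nat_lit 0) .nil .nil))) 
(.lf (nat_lit 252543) (.g (nat_lit 3067) (.e (nat_lit 163885) (nat_lit 5) (.e (nat_lit 221194) (nat_lit 11) (.e (nat_lit 336215) (nat_lit 13) (.e (nat_lit 393281) (nat_lit 23) (.e (nat_lit 426108) (nat_lit 1) (.e (nat_lit 164329) (nat_lit 230) .nil)))))) (.g (nat_lit 6) .nil .nil)))))))))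

noncomputable def tv3276 : DT := (.nd (nat_lit 0) (.nd (nat_lit 1) (.nd (nat_lit 2) (.nd (nat_lit 3) (.nd (nat_lit 4) (.nd (nat_lit 5) 
(.lf (nat_lit 252544) (.g (nat_lit 775) (.e (nat_lit 163885) (nat_lit 5) (.e (nat_lit 221194) (nat_lit 11) (.e (nat_lit 336220) (nat_lit 13) .nil))) .nil)) 
(.lf (nat_lit 252576) (.g (nat_lit 1385) (.e (nat_lit 163885) (nat_lit 5) (.e (nat_lit 229120) (nat_lit 17) (.e (nat_lit 385068) (nat_lit 26) (.e (nat_lit 532551) (nat_lit 12) (.e (nat_lit 368384) (nat_lit 0) (.e (nat_lit 7282) (nat_lit 386) .nil)))))) (.g (nat_lit 4) .nil .nil)))) (.nd (nat_lit 5) 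
(.lf (nat_lit 252560) (.g (nat_lit 2941) (.e (nat_lit 163885) (nat_lit 5) (.e (nat_lit 221194) (nat_lit 11) (.e (nat_lit 336223) (nat_lit 13) (.e (nat_lit 393281) (nat_lit 23) (.e (nat_lit 426099) (nat_lit 1) (.e (nat_lit 164330) (nat_lit 230) .nil)))))) (.g (nat_lit 0) .nil .nil))) 
(.lf (nat_lit 252592) (.g (nat_lit 4648) (.e (nat_lit 163885) (nat_lit 5) (.e (nat_lit 221208) (nat_lit 21) (.e (nat_lit 164402) (nat_lit 256) (.e (nat_lit 57427) (nat_lit 15) (.e (nat_lit 360474) (nat_lit 8) (.e (nat_lit 557091) (nat_lit 12) (.e (nat_lit 163856) (nat_lit 0) (.e (nat_lit 5597) (nat_lit 310) .nil)))))))) (.g (nat_lit 6) .nil .nil))))) (.nd (nat_lit 4) (.nd (nat_lit 5) 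
(.lf (nat_lit 252552) (.g (nat_lit 2542) (.e (nat_lit 163885) (nat_lit 5) (.e (nat_lit 221194) (nat_lit 11) (.e (nat_lit 336222) (nat_lit 13) (.e (nat_lit 393281) (nat_lit 23) (.e (nat_lit 426099) (nat_lit 1) (.e (nat_lit 164330) (nat_lit 230) .nil)))))) (.g (nat_lit 0) .nil .nil))) 
(.lf (nat_lit 252584) (.g (nat_lit 4852) (.e (nat_lit 163885) (nat_lit 5) (.e (nat_lit 221207) (nat_lit 21) (.e (nat_lit 164401) (nat_lit 256) (.e (nat_lit 57427) (nat_lit 15) (.e (nat_lit 360474) (nat_lit 8) (.e (nat_lit 557091) (nat_lit 12) (.e (nat_lit 163856) (nat_lit 0) (.e (nat_lit 5599) (nat_lit 310) .nil)))))))) (.g (nat_lit 6) .nil .nil)))) (.nd (nat_lit 5) 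
(.lf (nat_lit 252568) (.g (nat_lit 1746) (.e (nat_lit 163885) (nat_lit 5) (.e (nat_lit 229120) (nat_lit 12) (.e (nat_lit 344117) (nat_lit 21) (.e (nat_lit 516130) (nat_lit 3) (.e (nat_lit 221220) (nat_lit 25) (.e (nat_lit 221208) (nat_lit 21) (.e (nat_lit 164329) (nat_lit 230) .nil))))))) (.g (nat_lit 4) .nil .nil))) 
(.lf (nat_lit 252600) (.g (nat_lit 4387) (.e (nat_lit 163885) (nat_lit 5) (.e (nat_lit 221219) (nat_lit 24) (.e (nat_lit 213029) (nat_lit 10) (.e (nat_lit 8326) (nat_lit 69) (.e (nat_lit 557100) (nat_lit 13) (.e (nat_lit 172113) (nat_lit 10) (.e (nat_lit 434208) (nat_lit 18) (.e (nat_lit 6416) (nat_lit 341) .nil)))))))) (.g (nat_lit 7) .nil .nil)))))) 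
(.nd (nat_lit 3) (.nd (nat_lit 4) (.nd (nat_lit 5) 
(.lf (nat_lit 252548) (.g (nat_lit 2525) (.e (nat_lit 163885) (nat_lit 5) (.e (nat_lit 221194) (nat_lit 11) (.e (nat_lit 336222) (nat_lit 13) (.e (nat_lit 393266) (nat_lit 23) (.e (nat_lit 426109) (nat_lit 1) (.e (nat_lit 164322) (nat_lit 230) .nil)))))) (.g (nat_lit 5) .nil .nil))) 
(.lf (nat_lit 252580) (.g (nat_lit 798) (.e (nat_lit 163885) (nat_lit 5) (.e (nat_lit 221207) (nat_lit 21) (.e (nat_lit 171776) (nat_lit 211) .nil))) .nil))) (.nd (nat_lit 5) 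
(.lf (nat_lit 252564) (.g (nat_lit 3446) (.e (nat_lit 163885) (nat_lit 5) (.e (nat_lit 221194) (nat_lit 11) (.e (nat_lit 336223) (nat_lit 13) (.e (nat_lit 393281) (nat_lit 23) (.e (nat_lit 426100) (nat_lit 1) (.e (nat_lit 164330) (nat_lit 230) .nil)))))) (.g (nat_lit 0) .nil .nil))) 
(.lf (nat_lit 252596) (.g (nat_lit 4141) (.e (nat_lit 163885) (nat_lit 5) (.e (nat_lit 221208) (nat_lit 21) (.e (nat_lit 164402) (nat_lit 256) (.e (nat_lit 57427) (nat_lit 15) (.e (nat_lit 360475) (nat_lit 8) (.e (nat_lit 557091) (nat_lit 12) (.e (nat_lit 163856) (nat_lit 0) (.e (nat_lit 5599) (nat_lit 310) .nil)))))))) (.g (nat_lit 6) .nil .nil))))) (.nd (nat_lit 4) (.nd (nat_lit 5) 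
(.lf (nat_lit 252556) (.g (nat_lit 1929) (.e (nat_lit 163885) (nat_lit 5) (.e (nat_lit 221194) (nat_lit 11) (.e (nat_lit 336223) (nat_lit 13) (.e (nat_lit 393281) (nat_lit 23) (.e (nat_lit 426098) (nat_lit 1) (.e (nat_lit 164324) (nat_lit 230) .nil)))))) (.g (nat_lit 4) .nil .nil))) 
(.lf (nat_lit 252588) (.g (nat_lit 1652) (.e (nat_lit 163885) (nat_lit 5) (.e (nat_lit 221208) (nat_lit 21) (.e (nat_lit 164330) (nat_lit 230) (.e (nat_lit 171776) (nat_lit 66) .nil)))) .nil))) (.nd (nat_lit 5) 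
(.lf (nat_lit 252572) (.g (nat_lit 1944) (.e (nat_lit 163885) (nat_lit 5) (.e (nat_lit 229120) (nat_lit 12) (.e (nat_lit 344130) (nat_lit 26) (.e (nat_lit 557104) (nat_lit 14) (.e (nat_lit 180227) (nat_lit 0) (.e (nat_lit 5967) (nat_lit 324) (.e (nat_lit 163864) (nat_lit 1) (.e (nat_lit 164332) (nat_lit 230) .nil)))))))) (.g (nat_lit 5) .nil .nil))) 
(.lf (nat_lit 252604) (.g (nat_lit 2711) (.e (nat_lit 163886) (nat_lit 5) (.e (nat_lit 221190) (nat_lit 11) (.e (nat_lit 336088) (nat_lit 9) (.e (nat_lit 336443) (nat_lit 32) (.e (nat_lit 466971) (nat_lit 21) (.e (nat_lit 164324) (nat_lit 230) .nil)))))) (.g (nat_lit 5) .nil .nil))))))) (.nd (nat_lit 2) (.nd (nat_lit 3) (.nd (nat_lit 4) (.nd (nat_lit 5) 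
(.lf (nat_lit 252546) (.g (nat_lit 1809) (.e (nat_lit 163885) (nat_lit 5) (.e (nat_lit 221194) (nat_lit 11) (.e (nat_lit 336221) (nat_lit 13) (.e (nat_lit 393281) (nat_lit 23) (.e (nat_lit 426099) (nat_lit 1) (.e (nat_lit 164329) (nat_lit 230) .nil)))))) (.g (nat_lit 4) .nil .nil))) 
(.lf (nat_lit 252578) (.g (nat_lit 2466) (.e (nat_lit 163885) (nat_lit 5) (.e (nat_lit 221206) (nat_lit 21) (.e (nat_lit 164401) (nat_lit 256) (.e (nat_lit 57427) (nat_lit 15) (.e (nat_lit 360474) (nat_lit 8) (.e (nat_lit 557094) (nat_lit 12) (.e (nat_lit 163856) (nat_lit 0) (.e (nat_lit 5599) (nat_lit 310) .nil)))))))) (.g (nat_lit 4) .nil .nil)))) (.nd (nat_lit 5) 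
(.lf (nat_lit 252562) (.g (nat_lit 2778) (.e (nat_lit 163885) (nat_lit 5) (.e (nat_lit 221194) (nat_lit 11) (.e (nat_lit 336223) (nat_lit 13) (.e (nat_lit 393281) (nat_lit 23) (.e (nat_lit 426100) (nat_lit 1) (.e (nat_lit 164322) (nat_lit 230) .nil)))))) (.g (nat_lit 5) .nil .nil))) 
(.lf (nat_lit 252594) (.g (nat_lit 3608) (.e (nat_lit 163885) (nat_lit 5) (.e (nat_lit 221208) (nat_lit 21) (.e (nat_lit 164402) (nat_lit 256) (.e (nat_lit 57427) (nat_lit 15) (.e (nat_lit 360474) (nat_lit 8) (.e (nat_lit 557093) (nat_lit 12) (.e (nat_lit 163857) (nat_lit 0) (.e (nat_lit 5599) (nat_lit 310) .nil)))))))) (.g (nat_lit 6) .nil .nil))))) (.nd (nat_lit 4) (.nd (nat_lit 5) 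
(.lf (nat_lit 252554) (.g (nat_lit 3496) (.e (nat_lit 163885) (nat_lit 5) (.e (nat_lit 221194) (nat_lit 11) (.e (nat_lit 336222) (nat_lit 13) (.e (nat_lit 393281) (nat_lit 23) (.e (nat_lit 426100) (nat_lit 1) (.e (nat_lit 164332) (nat_lit 230) .nil)))))) (.g (nat_lit 0) .nil .nil))) 
(.lf (nat_lit 252586) (.g (nat_lit 2345) (.e (nat_lit 163885) (nat_lit 5) (.e (nat_lit 221207) (nat_lit 21) (.e (nat_lit 164401) (nat_lit 256) (.e (nat_lit 57427) (nat_lit 15) (.e (nat_lit 360474) (nat_lit 8) (.e (nat_lit 557094) (nat_lit 12) (.e (nat_lit 163856) (nat_lit 0) (.e (nat_lit 5597) (nat_lit 310) .nil)))))))) (.g (nat_lit 4) .nil .nil)))) (.nd (nat_lit 5) 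
(.lf (nat_lit 252570) (.g (nat_lit 2426) (.e (nat_lit 163885) (nat_lit 5) (.e (nat_lit 229120) (nat_lit 12) (.e (nat_lit 344129) (nat_lit 26) (.e (nat_lit 557103) (nat_lit 14) (.e (nat_lit 180263) (nat_lit 21) (.e (nat_lit 663578) (nat_lit 9) (.e (nat_lit 2610) (nat_lit 163) (.e (nat_lit 164332) (nat_lit 230) .nil)))))))) (.g (nat_lit 4) .nil .nil))) 
(.lf (nat_lit 252602) (.g (nat_lit 2842) (.e (nat_lit 163886) (nat_lit 5) (.e (nat_lit 221190) (nat_lit 11) (.e (nat_lit 336088) (nat_lit 9) (.e (nat_lit 336443) (nat_lit 32) (.e (nat_lit 466969) (nat_lit 21) (.e (nat_lit 164324) (nat_lit 230) .nil)))))) (.g (nat_lit 5) .nil .nil)))))) (.nd (nat_lit 3) (.nd (nat_lit 4) (.nd (nat_lit 5) 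
(.lf (nat_lit 252550) (.g (nat_lit 2004) (.e (nat_lit 163885) (nat_lit 5) (.e (nat_lit 221194) (nat_lit 11) (.e (nat_lit 336222) (nat_lit 13) (.e (nat_lit 393275) (nat_lit 23) (.e (nat_lit 426109) (nat_lit 1) (.e (nat_lit 164322) (nat_lit 230) .nil)))))) (.g (nat_lit 4) .nil .nil))) 
(.lf (nat_lit 252582) (.g (nat_lit 2061) (.e (nat_lit 163885) (nat_lit 5) (.e (nat_lit 221207) (nat_lit 21) (.e (nat_lit 164325) (nat_lit 230) (.e (nat_lit 171776) (nat_lit 66) .nil)))) .nil))) (.nd (nat_lit 5) 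
(.lf (nat_lit 252566) (.g (nat_lit 3069) (.e (nat_lit 163885) (nat_lit 5) (.e (nat_lit 221194) (nat_lit 11) (.e (nat_lit 336223) (nat_lit 13) (.e (nat_lit 393281) (nat_lit 23) (.e (nat_lit 426108) (nat_lit 1) (.e (nat_lit 164330) (nat_lit 230) .nil)))))) (.g (nat_lit 6) .nil .nil))) 
(.lf (nat_lit 252598) (.g (nat_lit 2309) (.e (nat_lit 163885) (nat_lit 5) (.e (nat_lit 221212) (nat_lit 22) (.e (nat_lit 196654) (nat_lit 11) (.e (nat_lit 16459) (nat_lit 12) (.e (nat_lit 475177) (nat_lit 24) (.e (nat_lit 524032) (nat_lit 18) (.e (nat_lit 57927) (nat_lit 282) .nil))))))) (.g (nat_lit 4) .nil .nil))))) (.nd (nat_lit 4) (.nd (nat_lit 5) 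
(.lf (nat_lit 252558) (.g (nat_lit 2203) (.e (nat_lit 163885) (nat_lit 5) (.e (nat_lit 221194) (nat_lit 11) (.e (nat_lit 336223) (nat_lit 13) (.e (nat_lit 393281) (nat_lit 23) (.e (nat_lit 426099) (nat_lit 1) (.e (nat_lit 164322) (nat_lit 230) .nil)))))) (.g (nat_lit 4) .nil .nil))) 
(.lf (nat_lit 252590) (.g (nat_lit 3813) (.e (nat_lit 163885) (nat_lit 5) (.e (nat_lit 221208) (nat_lit 21) (.e (nat_lit 164401) (nat_lit 256) (.e (nat_lit 57427) (nat_lit 15) (.e (nat_lit 360474) (nat_lit 8) (.e (nat_lit 557093) (nat_lit 12) (.e (nat_lit 163856) (nat_lit 0) (.e (nat_lit 5599) (nat_lit 310) .nil)))))))) (.g (nat_lit 6) .nil .nil)))) (.nd (nat_lit 5) 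
(.lf (nat_lit 252574) (.g (nat_lit 2070) (.e (nat_lit 163885) (nat_lit 5) (.e (nat_lit 229120) (nat_lit 12) (.e (nat_lit 344132) (nat_lit 26) (.e (nat_lit 557105) (nat_lit 14) (.e (nat_lit 180227) (nat_lit 0) (.e (nat_lit 5968) (nat_lit 324) (.e (nat_lit 163864) (nat_lit 1) (.e (nat_lit 164332) (nat_lit 230) .nil)))))))) (.g (nat_lit 5) .nil .nil))) 
(.lf (nat_lit 252606) (.g (nat_lit 2141) (.e (nat_lit 163886) (nat_lit 5) (.e (nat_lit 221190) (nat_lit 11) (.e (nat_lit 336213) (nat_lit 13) (.e (nat_lit 393281) (nat_lit 23) (.e (nat_lit 426098) (nat_lit 1) .nil))))) .nil))))))) (.nd (nat_lit 1) (.nd (nat_lit 2) (.nd (nat_lit 3) (.nd (nat_lit 4) (.nd (nat_lit 5) 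
(.lf (nat_lit 252545) (.g (nat_lit 2360) (.e (nat_lit 163885) (nat_lit 5) (.e (nat_lit 221194) (nat_lit 11) (.e (nat_lit 336220) (nat_lit 13) (.e (nat_lit 393281) (nat_lit 23) (.e (nat_lit 426108) (nat_lit 1) (.e (nat_lit 164332) (nat_lit 230) .nil)))))) (.g (nat_lit 4) .nil .nil))) 
(.lf (nat_lit 252577) (.g (nat_lit 1093) (.e (nat_lit 163885) (nat_lit 5) (.e (nat_lit 221206) (nat_lit 21) (.e (nat_lit 164401) (nat_lit 256) (.e (nat_lit 57423) (nat_lit 14) .nil)))) .nil))) (.nd (nat_lit 5) 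
(.lf (nat_lit 252561) (.g (nat_lit 1902) (.e (nat_lit 163885) (nat_lit 5) (.e (nat_lit 221194) (nat_lit 11) (.e (nat_lit 336223) (nat_lit 13) (.e (nat_lit 393281) (nat_lit 23) (.e (nat_lit 426099) (nat_lit 1) (.e (nat_lit 164331) (nat_lit 230) .nil)))))) (.g (nat_lit 4) .nil .nil))) 
(.lf (nat_lit 252593) (.g (nat_lit 3804) (.e (nat_lit 163885) (nat_lit 5) (.e (nat_lit 221208) (nat_lit 21) (.e (nat_lit 164402) (nat_lit 256) (.e (nat_lit 57427) (nat_lit 15) (.e (nat_lit 360474) (nat_lit 8) (.e (nat_lit 557093) (nat_lit 12) (.e (nat_lit 163856) (nat_lit 0) (.e (nat_lit 5597) (nat_lit 310) .nil)))))))) (.g (nat_lit 6) .nil .nil))))) (.nd (nat_lit 4) (.nd (nat_lit 5) 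
(.lf (nat_lit 252553) (.g (nat_lit 3055) (.e (nat_lit 163885) (nat_lit 5) (.e (nat_lit 221194) (nat_lit 11) (.e (nat_lit 336222) (nat_lit 13) (.e (nat_lit 393281) (nat_lit 23) (.e (nat_lit 426100) (nat_lit 1) (.e (nat_lit 164330) (nat_lit 230) .nil)))))) (.g (nat_lit 0) .nil .nil))) 
(.lf (nat_lit 252585) (.g (nat_lit 4018) (.e (nat_lit 163885) (nat_lit 5) (.e (nat_lit 221207) (nat_lit 21) (.e (nat_lit 164401) (nat_lit 256) (.e (nat_lit 57427) (nat_lit 15) (.e (nat_lit 360474) (nat_lit 8) (.e (nat_lit 557093) (nat_lit 12) (.e (nat_lit 163856) (nat_lit 0) (.e (nat_lit 5599) (nat_lit 310) .nil)))))))) (.g (nat_lit 6) .nil .nil)))) (.nd (nat_lit 5) 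
(.lf (nat_lit 252569) (.g (nat_lit 3341) (.e (nat_lit 163885) (nat_lit 5) (.e (nat_lit 229120) (nat_lit 12) (.e (nat_lit 344129) (nat_lit 26) (.e (nat_lit 557103) (nat_lit 14) (.e (nat_lit 180225) (nat_lit 0) (.e (nat_lit 5967) (nat_lit 324) (.e (nat_lit 163864) (nat_lit 1) (.e (nat_lit 164332) (nat_lit 230) .nil)))))))) (.g (nat_lit 5) .nil .nil))) 
(.lf (nat_lit 252601) (.g (nat_lit 852) (.e (nat_lit 163886) (nat_lit 5) (.e (nat_lit 221190) (nat_lit 11) (.e (nat_lit 336087) (nat_lit 9) (.e (nat_lit 336443) (nat_lit 32) .nil)))) .nil))))) (.nd (nat_lit 3) (.nd (nat_lit 4) (.nd (nat_lit 5) 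
(.lf (nat_lit 252549) (.g (nat_lit 1883) (.e (nat_lit 163885) (nat_lit 5) (.e (nat_lit 221194) (nat_lit 11) (.e (nat_lit 336222) (nat_lit 13) (.e (nat_lit 393271) (nat_lit 23) (.e (nat_lit 426112) (nat_lit 1) (.e (nat_lit 164324) (nat_lit 230) .nil)))))) (.g (nat_lit 4) .nil .nil))) 
(.lf (nat_lit 252581) (.g (nat_lit 798) (.e (nat_lit 163885) (nat_lit 5) (.e (nat_lit 221207) (nat_lit 21) (.e (nat_lit 164319) (nat_lit 228) .nil))) .nil))) (.nd (nat_lit 5) 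
(.lf (nat_lit 252565) (.g (nat_lit 3247) (.e (nat_lit 163885) (nat_lit 5) (.e (nat_lit 221194) (nat_lit 11) (.e (nat_lit 336223) (nat_lit 13) (.e (nat_lit 393281) (nat_lit 23) (.e (nat_lit 426108) (nat_lit 1) (.e (nat_lit 164329) (nat_lit 230) .nil)))))) (.g (nat_lit 6) .nil .nil))) 
(.lf (nat_lit 252597) (.g (nat_lit 2336) (.e (nat_lit 163885) (nat_lit 5) (.e (nat_lit 221212) (nat_lit 22) (.e (nat_lit 196654) (nat_lit 11) (.e (nat_lit 16456) (nat_lit 12) (.e (nat_lit 475177) (nat_lit 24) (.e (nat_lit 524032) (nat_lit 18) (.e (nat_lit 57927) (nat_lit 282) .nil))))))) (.g (nat_lit 4) .nil .nil))))) (.nd (nat_lit 4) (.nd (nat_lit 5) 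
(.lf (nat_lit 252557) (.g (nat_lit 3582) (.e (nat_lit 163885) (nat_lit 5) (.e (nat_lit 221194) (nat_lit 11) (.e (nat_lit 336223) (nat_lit 13) (.e (nat_lit 393281) (nat_lit 23) (.e (nat_lit 426098) (nat_lit 1) (.e (nat_lit 164325) (nat_lit 230) .nil)))))) (.g (nat_lit 6) .nil .nil))) 
(.lf (nat_lit 252589) (.g (nat_lit 4647) (.e (nat_lit 163885) (nat_lit 5) (.e (nat_lit 221208) (nat_lit 21) (.e (nat_lit 164401) (nat_lit 256) (.e (nat_lit 57427) (nat_lit 15) (.e (nat_lit 360474) (nat_lit 8) (.e (nat_lit 557091) (nat_lit 12) (.e (nat_lit 163856) (nat_lit 0) (.e (nat_lit 5599) (nat_lit 310) .nil)))))))) (.g (nat_lit 6) .nil .nil)))) (.nd (nat_lit 5) 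
(.lf (nat_lit 252573) (.g (nat_lit 2117) (.e (nat_lit 163885) (nat_lit 5) (.e (nat_lit 229120) (nat_lit 12) (.e (nat_lit 344132) (nat_lit 26) (.e (nat_lit 557105) (nat_lit 14) (.e (nat_lit 180227) (nat_lit 0) (.e (nat_lit 5967) (nat_lit 324) (.e (nat_lit 163864) (nat_lit 1) (.e (nat_lit 164332) (nat_lit 230) .nil)))))))) (.g (nat_lit 5) .nil .nil))) 
(.lf (nat_lit 252605) (.g (nat_lit 2536) (.e (nat_lit 163886) (nat_lit 5) (.e (nat_lit 221190) (nat_lit 11) (.e (nat_lit 336088) (nat_lit 9) (.e (nat_lit 336443) (nat_lit 32) (.e (nat_lit 466971) (nat_lit 21) (.e (nat_lit 164325) (nat_lit 230) .nil)))))) (.g (nat_lit 5) .nil .nil))))))) (.nd (nat_lit 2) (.nd (nat_lit 3) (.nd (nat_lit 4) (.nd (nat_lit 5) 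
(.lf (nat_lit 252547) (.g (nat_lit 2502) (.e (nat_lit 163885) (nat_lit 5) (.e (nat_lit 221194) (nat_lit 11) (.e (nat_lit 336221) (nat_lit 13) (.e (nat_lit 393281) (nat_lit 23) (.e (nat_lit 426100) (nat_lit 1) (.e (nat_lit 164329) (nat_lit 230) .nil)))))) (.g (nat_lit 5) .nil .nil))) 
(.lf (nat_lit 252579) (.g (nat_lit 1905) (.e (nat_lit 163885) (nat_lit 5) (.e (nat_lit 221207) (nat_lit 21) (.e (nat_lit 164179) (nat_lit 154) (.e (nat_lit 57377) (nat_lit 3) (.e (nat_lit 106240) (nat_lit 11) .nil))))) .nil))) (.nd (nat_lit 5) 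
(.lf (nat_lit 252563) (.g (nat_lit 3098) (.e (nat_lit 163885) (nat_lit 5) (.e (nat_lit 221194) (nat_lit 11) (.e (nat_lit 336223) (nat_lit 13) (.e (nat_lit 393281) (nat_lit 23) (.e (nat_lit 426100) (nat_lit 1) (.e (nat_lit 164329) (nat_lit 230) .nil)))))) (.g (nat_lit 6) .nil .nil))) 
(.lf (nat_lit 252595) (.g (nat_lit 3466) (.e (nat_lit 163885) (nat_lit 5) (.e (nat_lit 221208) (nat_lit 21) (.e (nat_lit 164402) (nat_lit 256) (.e (nat_lit 57427) (nat_lit 15) (.e (nat_lit 360474) (nat_lit 8) (.e (nat_lit 557094) (nat_lit 12) (.e (nat_lit 163856) (nat_lit 0) (.e (nat_lit 5597) (nat_lit 310) .nil)))))))) (.g (nat_lit 6) .nil .nil))))) (.nd (nat_lit 4) (.nd (nat_lit 5) 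
(.lf (nat_lit 252555) (.g (nat_lit 2853) (.e (nat_lit 163885) (nat_lit 5) (.e (nat_lit 221194) (nat_lit 11) (.e (nat_lit 336222) (nat_lit 13) (.e (nat_lit 393281) (nat_lit 23) (.e (nat_lit 426108) (nat_lit 1) (.e (nat_lit 164330) (nat_lit 230) .nil)))))) (.g (nat_lit 6) .nil .nil))) 
(.lf (nat_lit 252587) (.g (nat_lit 3692) (.e (nat_lit 163885) (nat_lit 5) (.e (nat_lit 221207) (nat_lit 21) (.e (nat_lit 164401) (nat_lit 256) (.e (nat_lit 57427) (nat_lit 15) (.e (nat_lit 360474) (nat_lit 8) (.e (nat_lit 557094) (nat_lit 12) (.e (nat_lit 163856) (nat_lit 0) (.e (nat_lit 5599) (nat_lit 310) .nil)))))))) (.g (nat_lit 6) .nil .nil)))) (.nd (nat_lit 5) 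
(.lf (nat_lit 252571) (.g (nat_lit 2491) (.e (nat_lit 163885) (nat_lit 5) (.e (nat_lit 229120) (nat_lit 12) (.e (nat_lit 344129) (nat_lit 26) (.e (nat_lit 557103) (nat_lit 14) (.e (nat_lit 180263) (nat_lit 21) (.e (nat_lit 663579) (nat_lit 9) (.e (nat_lit 2610) (nat_lit 163) (.e (nat_lit 164332) (nat_lit 230) .nil)))))))) (.g (nat_lit 4) .nil .nil))) 
(.lf (nat_lit 252603) (.g (nat_lit 2720) (.e (nat_lit 163886) (nat_lit 5) (.e (nat_lit 221190) (nat_lit 11) (.e (nat_lit 336088) (nat_lit 9) (.e (nat_lit 336443) (nat_lit 32) (.e (nat_lit 466969) (nat_lit 21) (.e (nat_lit 164325) (nat_lit 230) .nil)))))) (.g (nat_lit 5) .nil .nil)))))) (.nd (nat_lit 3) (.nd (nat_lit 4) (.nd (nat_lit 5) 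
(.lf (nat_lit 252551) (.g (nat_lit 2047) (.e (nat_lit 163885) (nat_lit 5) (.e (nat_lit 221194) (nat_lit 11) (.e (nat_lit 336222) (nat_lit 13) (.e (nat_lit 393281) (nat_lit 23) (.e (nat_lit 426099) (nat_lit 1) (.e (nat_lit 164329) (nat_lit 230) .nil)))))) (.g (nat_lit 4) .nil .nil))) 
(.lf (nat_lit 252583) (.g (nat_lit 2070) (.e (nat_lit 163885) (nat_lit 5) (.e (nat_lit 221207) (nat_lit 21) (.e (nat_lit 164401) (nat_lit 256) (.e (nat_lit 57423) (nat_lit 14) (.e (nat_lit 360192) (nat_lit 3) (.e (nat_lit 204831) (nat_lit 18) (.e (nat_lit 57931) (nat_lit 282) .nil))))))) (.g (nat_lit 4) .nil .nil)))) (.nd (nat_lit 5) 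
(.lf (nat_lit 252567) (.g (nat_lit 3916) (.e (nat_lit 163885) (nat_lit 5) (.e (nat_lit 221194) (nat_lit 11) (.e (nat_lit 336223) (nat_lit 13) (.e (nat_lit 393281) (nat_lit 23) (.e (nat_lit 426108) (nat_lit 1) (.e (nat_lit 164332) (nat_lit 230) .nil)))))) (.g (nat_lit 6) .nil .nil))) 
(.lf (nat_lit 252599) (.g (nat_lit 2051) (.e (nat_lit 163885) (nat_lit 5) (.e (nat_lit 221215) (nat_lit 23) (.e (nat_lit 204829) (nat_lit 18) (.e (nat_lit 57847) (nat_lit 252) (.e (nat_lit 57368) (nat_lit 1) .nil))))) .nil)))) (.nd (nat_lit 4) (.nd (nat_lit 5) 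
(.lf (nat_lit 252559) (.g (nat_lit 2525) (.e (nat_lit 163885) (nat_lit 5) (.e (nat_lit 221194) (nat_lit 11) (.e (nat_lit 336223) (nat_lit 13) (.e (nat_lit 393281) (nat_lit 23) (.e (nat_lit 426099) (nat_lit 1) (.e (nat_lit 164329) (nat_lit 230) .nil)))))) (.g (nat_lit 5) .nil .nil))) 
(.lf (nat_lit 252591) (.g (nat_lit 3487) (.e (nat_lit 163885) (nat_lit 5) (.e (nat_lit 221208) (nat_lit 21) (.e (nat_lit 164401) (nat_lit 256) (.e (nat_lit 57427) (nat_lit 15) (.e (nat_lit 360474) (nat_lit 8) (.e (nat_lit 557094) (nat_lit 12) (.e (nat_lit 163856) (nat_lit 0) (.e (nat_lit 5599) (nat_lit 310) .nil)))))))) (.g (nat_lit 6) .nil .nil)))) (.nd (nat_lit 5) 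
(.lf (nat_lit 252575) (.g (nat_lit 2225) (.e (nat_lit 163885) (nat_lit 5) (.e (nat_lit 229120) (nat_lit 12) (.e (nat_lit 344133) (nat_lit 26) (.e (nat_lit 557105) (nat_lit 14) (.e (nat_lit 180226) (nat_lit 0) (.e (nat_lit 5966) (nat_lit 324) (.e (nat_lit 163864) (nat_lit 1) (.e (nat_lit 164332) (nat_lit 230) .nil)))))))) (.g (nat_lit 4) .nil .nil))) 
(.lf (nat_lit 252607) (.g (nat_lit 2152) (.e (nat_lit 163886) (nat_lit 5) (.e (nat_lit 221190) (nat_lit 11) (.e (nat_lit 336213) (nat_lit 13) (.e (nat_lit 393289) (nat_lit 25) (.e (nat_lit 458774) (nat_lit 18) .nil))))) .nil))))))))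

noncomputable def tv3277 : DT := (.nd (nat_lit 0) (.nd (nat_lit 1) (.nd (nat_lit 2) (.nd (nat_lit 3) (.nd (nat_lit 4) (.nd (nat_lit 5) 
(.lf (nat_lit 252608) (.g (nat_lit 1989) (.e (nat_lit 163886) (nat_lit 5) (.e (nat_lit 221190) (nat_lit 11) (.e (nat_lit 336215) (nat_lit 13) (.e (nat_lit 393271) (nat_lit 23) (.e (nat_lit 426112) (nat_lit 1) .nil))))) .nil)) 
(.lf (nat_lit 252640) (.g (nat_lit 3043) (.e (nat_lit 163886) (nat_lit 5) (.e (nat_lit 221193) (nat_lit 11) (.e (nat_lit 336088) (nat_lit 9) (.e (nat_lit 336443) (nat_lit 32) (.e (nat_lit 466971) (nat_lit 21) (.e (nat_lit 164324) (nat_lit 230) .nil)))))) (.g (nat_lit 0) .nil .nil)))) (.nd (nat_lit 5) 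
(.lf (nat_lit 252624) (.g (nat_lit 1695) (.e (nat_lit 163886) (nat_lit 5) (.e (nat_lit 221193) (nat_lit 11) (.e (nat_lit 336085) (nat_lit 9) (.e (nat_lit 336434) (nat_lit 30) (.e (nat_lit 450564) (nat_lit 0) (.e (nat_lit 5224) (nat_lit 296) .nil)))))) (.g (nat_lit 5) .nil .nil))) 
(.lf (nat_lit 252656) (.g (nat_lit 2386) (.e (nat_lit 163886) (nat_lit 5) (.e (nat_lit 221194) (nat_lit 11) (.e (nat_lit 336027) (nat_lit 3) (.e (nat_lit 98373) (nat_lit 29) .nil)))) .nil)))) (.nd (nat_lit 4) (.nd (nat_lit 5) 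
(.lf (nat_lit 252616) (.g (nat_lit 2945) (.e (nat_lit 163886) (nat_lit 5) (.e (nat_lit 221193) (nat_lit 11) (.e (nat_lit 336076) (nat_lit 9) (.e (nat_lit 336443) (nat_lit 32) (.e (nat_lit 466969) (nat_lit 21) (.e (nat_lit 164325) (nat_lit 230) .nil)))))) (.g (nat_lit 6) .nil .nil))) 
(.lf (nat_lit 252648) (.g (nat_lit 2989) (.e (nat_lit 163886) (nat_lit 5) (.e (nat_lit 221193) (nat_lit 11) (.e (nat_lit 336215) (nat_lit 13) (.e (nat_lit 393281) (nat_lit 23) (.e (nat_lit 426098) (nat_lit 1) (.e (nat_lit 164327) (nat_lit 230) .nil)))))) (.g (nat_lit 0) .nil .nil)))) (.nd (nat_lit 5) 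
(.lf (nat_lit 252632) (.g (nat_lit 1701) (.e (nat_lit 163886) (nat_lit 5) (.e (nat_lit 221193) (nat_lit 11) (.e (nat_lit 336086) (nat_lit 9) (.e (nat_lit 336443) (nat_lit 32) (.e (nat_lit 466971) (nat_lit 21) (.e (nat_lit 164326) (nat_lit 230) .nil)))))) (.g (nat_lit 4) .nil .nil))) 
(.lf (nat_lit 252664) (.g (nat_lit 3024) (.e (nat_lit 163886) (nat_lit 5) (.e (nat_lit 221194) (nat_lit 11) (.e (nat_lit 336086) (nat_lit 9) (.e (nat_lit 336430) (nat_lit 29) (.e (nat_lit 442421) (nat_lit 21) (.e (nat_lit 164324) (nat_lit 230) .nil)))))) (.g (nat_lit 6) .nil .nil)))))) (.nd (nat_lit 3) (.nd (nat_lit 4) (.nd (nat_lit 5) 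
(.lf (nat_lit 252612) (.g (nat_lit 1844) (.e (nat_lit 163886) (nat_lit 5) (.e (nat_lit 221191) (nat_lit 11) (.e (nat_lit 336121) (nat_lit 9) (.e (nat_lit 336442) (nat_lit 32) (.e (nat_lit 466969) (nat_lit 21) (.e (nat_lit 164324) (nat_lit 230) .nil)))))) (.g (nat_lit 0) .nil .nil))) 
(.lf (nat_lit 252644) (.g (nat_lit 2053) (.e (nat_lit 163886) (nat_lit 5) (.e (nat_lit 221193) (nat_lit 11) (.e (nat_lit 336214) (nat_lit 13) (.e (nat_lit 393281) (nat_lit 23) (.e (nat_lit 426098) (nat_lit 1) (.e (nat_lit 164324) (nat_lit 230) .nil)))))) (.g (nat_lit 5) .nil .nil)))) (.nd (nat_lit 5) 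
(.lf (nat_lit 252628) (.g (nat_lit 2980) (.e (nat_lit 163886) (nat_lit 5) (.e (nat_lit 221193) (nat_lit 11) (.e (nat_lit 336086) (nat_lit 9) (.e (nat_lit 336443) (nat_lit 32) (.e (nat_lit 466969) (nat_lit 21) (.e (nat_lit 164324) (nat_lit 230) .nil)))))) (.g (nat_lit 0) .nil .nil))) 
(.lf (nat_lit 252660) (.g (nat_lit 2703) (.e (nat_lit 163886) (nat_lit 5) (.e (nat_lit 221194) (nat_lit 11) (.e (nat_lit 336076) (nat_lit 9) (.e (nat_lit 336443) (nat_lit 32) (.e (nat_lit 466971) (nat_lit 21) (.e (nat_lit 164324) (nat_lit 230) .nil)))))) (.g (nat_lit 6) .nil .nil))))) (.nd (nat_lit 4) (.nd (nat_lit 5) 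
(.lf (nat_lit 252620) (.g (nat_lit 2980) (.e (nat_lit 163886) (nat_lit 5) (.e (nat_lit 221193) (nat_lit 11) (.e (nat_lit 336078) (nat_lit 9) (.e (nat_lit 336443) (nat_lit 32) (.e (nat_lit 466969) (nat_lit 21) (.e (nat_lit 164324) (nat_lit 230) .nil)))))) (.g (nat_lit 6) .nil .nil))) 
(.lf (nat_lit 252652) (.g (nat_lit 1441) (.e (nat_lit 163886) (nat_lit 5) (.e (nat_lit 221194) (nat_lit 11) (.e (nat_lit 336012) (nat_lit 2) .nil))) .nil))) (.nd (nat_lit 5) 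
(.lf (nat_lit 252636) (.g (nat_lit 2845) (.e (nat_lit 163886) (nat_lit 5) (.e (nat_lit 221193) (nat_lit 11) (.e (nat_lit 336087) (nat_lit 9) (.e (nat_lit 336443) (nat_lit 32) (.e (nat_lit 466971) (nat_lit 21) (.e (nat_lit 164324) (nat_lit 230) .nil)))))) (.g (nat_lit 6) .nil .nil))) 
(.lf (nat_lit 252668) (.g (nat_lit 553) (.e (nat_lit 163886) (nat_lit 5) (.e (nat_lit 221194) (nat_lit 11) (.e (nat_lit 336087) (nat_lit 9) .nil))) .nil)))))) (.nd (nat_lit 2) (.nd (nat_lit 3) (.nd (nat_lit 4) (.nd (nat_lit 5) 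
(.lf (nat_lit 252610) (.g (nat_lit 1764) (.e (nat_lit 163886) (nat_lit 5) (.e (nat_lit 221191) (nat_lit 11) (.e (nat_lit 336118) (nat_lit 9) (.e (nat_lit 336442) (nat_lit 32) (.e (nat_lit 466969) (nat_lit 21) (.e (nat_lit 164324) (nat_lit 230) .nil)))))) (.g (nat_lit 0) .nil .nil))) 
(.lf (nat_lit 252642) (.g (nat_lit 1875) (.e (nat_lit 163886) (nat_lit 5) (.e (nat_lit 221193) (nat_lit 11) (.e (nat_lit 336088) (nat_lit 9) (.e (nat_lit 336443) (nat_lit 32) (.e (nat_lit 466971) (nat_lit 21) (.e (nat_lit 164326) (nat_lit 230) .nil)))))) (.g (nat_lit 4) .nil .nil)))) (.nd (nat_lit 5) 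
(.lf (nat_lit 252626) (.g (nat_lit 2058) (.e (nat_lit 163886) (nat_lit 5) (.e (nat_lit 221193) (nat_lit 11) (.e (nat_lit 336086) (nat_lit 9) (.e (nat_lit 336430) (nat_lit 29) (.e (nat_lit 442419) (nat_lit 21) (.e (nat_lit 164326) (nat_lit 230) .nil)))))) (.g (nat_lit 5) .nil .nil))) 
(.lf (nat_lit 252658) (.g (nat_lit 1550) (.e (nat_lit 163886) (nat_lit 5) (.e (nat_lit 221194) (nat_lit 11) (.e (nat_lit 336076) (nat_lit 9) (.e (nat_lit 336434) (nat_lit 30) .nil)))) .nil)))) (.nd (nat_lit 4) (.nd (nat_lit 5) 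
(.lf (nat_lit 252618) (.g (nat_lit 2773) (.e (nat_lit 163886) (nat_lit 5) (.e (nat_lit 221193) (nat_lit 11) (.e (nat_lit 336076) (nat_lit 9) (.e (nat_lit 336443) (nat_lit 32) (.e (nat_lit 466971) (nat_lit 21) (.e (nat_lit 164325) (nat_lit 230) .nil)))))) (.g (nat_lit 6) .nil .nil))) 
(.lf (nat_lit 252650) (.g (nat_lit 2303) (.e (nat_lit 163886) (nat_lit 5) (.e (nat_lit 221193) (nat_lit 11) (.e (nat_lit 336221) (nat_lit 13) (.e (nat_lit 393281) (nat_lit 23) (.e (nat_lit 426098) (nat_lit 1) (.e (nat_lit 164325) (nat_lit 230) .nil)))))) (.g (nat_lit 6) .nil .nil)))) (.nd (nat_lit 5) 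
(.lf (nat_lit 252634) (.g (nat_lit 3001) (.e (nat_lit 163886) (nat_lit 5) (.e (nat_lit 221193) (nat_lit 11) (.e (nat_lit 336087) (nat_lit 9) (.e (nat_lit 336443) (nat_lit 32) (.e (nat_lit 466969) (nat_lit 21) (.e (nat_lit 164324) (nat_lit 230) .nil)))))) (.g (nat_lit 0) .nil .nil))) 
(.lf (nat_lit 252666) (.g (nat_lit 2760) (.e (nat_lit 163886) (nat_lit 5) (.e (nat_lit 221194) (nat_lit 11) (.e (nat_lit 336086) (nat_lit 9) (.e (nat_lit 336443) (nat_lit 32) (.e (nat_lit 466971) (nat_lit 21) (.e (nat_lit 164324) (nat_lit 230) .nil)))))) (.g (nat_lit 6) .nil .nil)))))) (.nd (nat_lit 3) (.nd (nat_lit 4) (.nd (nat_lit 5) 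
(.lf (nat_lit 252614) (.g (nat_lit 2071) (.e (nat_lit 163886) (nat_lit 5) (.e (nat_lit 221192) (nat_lit 11) (.e (nat_lit 336154) (nat_lit 9) (.e (nat_lit 336429) (nat_lit 29) (.e (nat_lit 442419) (nat_lit 21) (.e (nat_lit 164327) (nat_lit 230) .nil)))))) (.g (nat_lit 0) .nil .nil))) 
(.lf (nat_lit 252646) (.g (nat_lit 2460) (.e (nat_lit 163886) (nat_lit 5) (.e (nat_lit 221193) (nat_lit 11) (.e (nat_lit 336215) (nat_lit 13) (.e (nat_lit 393271) (nat_lit 23) (.e (nat_lit 426112) (nat_lit 1) (.e (nat_lit 164324) (nat_lit 230) .nil)))))) (.g (nat_lit 5) .nil .nil)))) (.nd (nat_lit 5) 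
(.lf (nat_lit 252630) (.g (nat_lit 2858) (.e (nat_lit 163886) (nat_lit 5) (.e (nat_lit 221193) (nat_lit 11) (.e (nat_lit 336086) (nat_lit 9) (.e (nat_lit 336443) (nat_lit 32) (.e (nat_lit 466971) (nat_lit 21) (.e (nat_lit 164324) (nat_lit 230) .nil)))))) (.g (nat_lit 0) .nil .nil))) 
(.lf (nat_lit 252662) (.g (nat_lit 529) (.e (nat_lit 163886) (nat_lit 5) (.e (nat_lit 221194) (nat_lit 11) (.e (nat_lit 336085) (nat_lit 9) .nil))) .nil)))) (.nd (nat_lit 4) (.nd (nat_lit 5) 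
(.lf (nat_lit 252622) (.g (nat_lit 2816) (.e (nat_lit 163886) (nat_lit 5) (.e (nat_lit 221193) (nat_lit 11) (.e (nat_lit 336078) (nat_lit 9) (.e (nat_lit 336443) (nat_lit 32) (.e (nat_lit 466971) (nat_lit 21) (.e (nat_lit 164325) (nat_lit 230) .nil)))))) (.g (nat_lit 6) .nil .nil))) 
(.lf (nat_lit 252654) (.g (nat_lit 3354) (.e (nat_lit 163886) (nat_lit 5) (.e (nat_lit 221194) (nat_lit 11) (.e (nat_lit 336012) (nat_lit 2) (.e (nat_lit 90178) (nat_lit 15) (.e (nat_lit 188455) (nat_lit 24) .nil))))) .nil))) (.nd (nat_lit 5) 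
(.lf (nat_lit 252638) (.g (nat_lit 3105) (.e (nat_lit 163886) (nat_lit 5) (.e (nat_lit 221193) (nat_lit 11) (.e (nat_lit 336088) (nat_lit 9) (.e (nat_lit 336443) (nat_lit 32) (.e (nat_lit 466969) (nat_lit 21) (.e (nat_lit 164324) (nat_lit 230) .nil)))))) (.g (nat_lit 0) .nil .nil))) 
(.lf (nat_lit 252670) (.g (nat_lit 1174) (.e (nat_lit 163886) (nat_lit 5) (.e (nat_lit 221194) (nat_lit 11) (.e (nat_lit 336088) (nat_lit 9) (.e (nat_lit 336443) (nat_lit 32) .nil)))) .nil))))))) (.nd (nat_lit 1) (.nd (nat_lit 2) (.nd (nat_lit 3) (.nd (nat_lit 4) (.nd (nat_lit 5) 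
(.lf (nat_lit 252609) (.g (nat_lit 2665) (.e (nat_lit 163886) (nat_lit 5) (.e (nat_lit 221190) (nat_lit 11) (.e (nat_lit 336223) (nat_lit 13) (.e (nat_lit 393281) (nat_lit 23) (.e (nat_lit 426098) (nat_lit 1) (.e (nat_lit 164327) (nat_lit 230) .nil)))))) (.g (nat_lit 0) .nil .nil))) 
(.lf (nat_lit 252641) (.g (nat_lit 2884) (.e (nat_lit 163886) (nat_lit 5) (.e (nat_lit 221193) (nat_lit 11) (.e (nat_lit 336088) (nat_lit 9) (.e (nat_lit 336443) (nat_lit 32) (.e (nat_lit 466971) (nat_lit 21) (.e (nat_lit 164325) (nat_lit 230) .nil)))))) (.g (nat_lit 0) .nil .nil)))) (.nd (nat_lit 5) 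
(.lf (nat_lit 252625) (.g (nat_lit 2298) (.e (nat_lit 163886) (nat_lit 5) (.e (nat_lit 221193) (nat_lit 11) (.e (nat_lit 336085) (nat_lit 9) (.e (nat_lit 336443) (nat_lit 32) (.e (nat_lit 466971) (nat_lit 21) (.e (nat_lit 164325) (nat_lit 230) .nil)))))) (.g (nat_lit 5) .nil .nil))) 
(.lf (nat_lit 252657) (.g (nat_lit 2230) (.e (nat_lit 163886) (nat_lit 5) (.e (nat_lit 221194) (nat_lit 11) (.e (nat_lit 336076) (nat_lit 9) (.e (nat_lit 336432) (nat_lit 30) (.e (nat_lit 450565) (nat_lit 0) .nil))))) .nil)))) (.nd (nat_lit 4) (.nd (nat_lit 5) 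
(.lf (nat_lit 252617) (.g (nat_lit 2912) (.e (nat_lit 163886) (nat_lit 5) (.e (nat_lit 221193) (nat_lit 11) (.e (nat_lit 336076) (nat_lit 9) (.e (nat_lit 336443) (nat_lit 32) (.e (nat_lit 466971) (nat_lit 21) (.e (nat_lit 164324) (nat_lit 230) .nil)))))) (.g (nat_lit 6) .nil .nil))) 
(.lf (nat_lit 252649) (.g (nat_lit 2460) (.e (nat_lit 163886) (nat_lit 5) (.e (nat_lit 221193) (nat_lit 11) (.e (nat_lit 336220) (nat_lit 13) (.e (nat_lit 393281) (nat_lit 23) (.e (nat_lit 426098) (nat_lit 1) (.e (nat_lit 164327) (nat_lit 230) .nil)))))) (.g (nat_lit 0) .nil .nil)))) (.nd (nat_lit 5) 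
(.lf (nat_lit 252633) (.g (nat_lit 376) (.e (nat_lit 163886) (nat_lit 5) (.e (nat_lit 221193) (nat_lit 11) (.e (nat_lit 336087) (nat_lit 9) .nil))) .nil)) 
(.lf (nat_lit 252665) (.g (nat_lit 2881) (.e (nat_lit 163886) (nat_lit 5) (.e (nat_lit 221194) (nat_lit 11) (.e (nat_lit 336086) (nat_lit 9) (.e (nat_lit 336443) (nat_lit 32) (.e (nat_lit 466969) (nat_lit 21) (.e (nat_lit 164324) (nat_lit 230) .nil)))))) (.g (nat_lit 6) .nil .nil)))))) (.nd (nat_lit 3) (.nd (nat_lit 4) (.nd (nat_lit 5) 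
(.lf (nat_lit 252613) (.g (nat_lit 1874) (.e (nat_lit 163886) (nat_lit 5) (.e (nat_lit 221191) (nat_lit 11) (.e (nat_lit 336121) (nat_lit 9) (.e (nat_lit 336442) (nat_lit 32) (.e (nat_lit 466971) (nat_lit 21) (.e (nat_lit 164324) (nat_lit 230) .nil)))))) (.g (nat_lit 0) .nil .nil))) 
(.lf (nat_lit 252645) (.g (nat_lit 2606) (.e (nat_lit 163886) (nat_lit 5) (.e (nat_lit 221193) (nat_lit 11) (.e (nat_lit 336214) (nat_lit 13) (.e (nat_lit 393281) (nat_lit 23) (.e (nat_lit 426098) (nat_lit 1) (.e (nat_lit 164327) (nat_lit 230) .nil)))))) (.g (nat_lit 0) .nil .nil)))) (.nd (nat_lit 5) 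
(.lf (nat_lit 252629) (.g (nat_lit 2827) (.e (nat_lit 163886) (nat_lit 5) (.e (nat_lit 221193) (nat_lit 11) (.e (nat_lit 336086) (nat_lit 9) (.e (nat_lit 336443) (nat_lit 32) (.e (nat_lit 466969) (nat_lit 21) (.e (nat_lit 164325) (nat_lit 230) .nil)))))) (.g (nat_lit 6) .nil .nil))) 
(.lf (nat_lit 252661) (.g (nat_lit 1597) (.e (nat_lit 163886) (nat_lit 5) (.e (nat_lit 221194) (nat_lit 11) (.e (nat_lit 336076) (nat_lit 9) (.e (nat_lit 336443) (nat_lit 32) (.e (nat_lit 466971) (nat_lit 21) (.e (nat_lit 164326) (nat_lit 230) .nil)))))) (.g (nat_lit 4) .nil .nil))))) (.nd (nat_lit 4) (.nd (nat_lit 5) 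
(.lf (nat_lit 252621) (.g (nat_lit 3000) (.e (nat_lit 163886) (nat_lit 5) (.e (nat_lit 221193) (nat_lit 11) (.e (nat_lit 336078) (nat_lit 9) (.e (nat_lit 336443) (nat_lit 32) (.e (nat_lit 466969) (nat_lit 21) (.e (nat_lit 164325) (nat_lit 230) .nil)))))) (.g (nat_lit 6) .nil .nil))) 
(.lf (nat_lit 252653) (.g (nat_lit 2462) (.e (nat_lit 163886) (nat_lit 5) (.e (nat_lit 221194) (nat_lit 11) (.e (nat_lit 336012) (nat_lit 2) (.e (nat_lit 90176) (nat_lit 15) .nil)))) .nil))) (.nd (nat_lit 5) 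
(.lf (nat_lit 252637) (.g (nat_lit 2677) (.e (nat_lit 163886) (nat_lit 5) (.e (nat_lit 221193) (nat_lit 11) (.e (nat_lit 336087) (nat_lit 9) (.e (nat_lit 336443) (nat_lit 32) (.e (nat_lit 466971) (nat_lit 21) (.e (nat_lit 164325) (nat_lit 230) .nil)))))) (.g (nat_lit 6) .nil .nil))) 
(.lf (nat_lit 252669) (.g (nat_lit 2818) (.e (nat_lit 163886) (nat_lit 5) (.e (nat_lit 221194) (nat_lit 11) (.e (nat_lit 336087) (nat_lit 9) (.e (nat_lit 336443) (nat_lit 32) (.e (nat_lit 466971) (nat_lit 21) (.e (nat_lit 164325) (nat_lit 230) .nil)))))) (.g (nat_lit 6) .nil .nil))))))) (.nd (nat_lit 2) (.nd (nat_lit 3) (.nd (nat_lit 4) (.nd (nat_lit 5) 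
(.lf (nat_lit 252611) (.g (nat_lit 1783) (.e (nat_lit 163886) (nat_lit 5) (.e (nat_lit 221191) (nat_lit 11) (.e (nat_lit 336118) (nat_lit 9) (.e (nat_lit 336442) (nat_lit 32) (.e (nat_lit 466971) (nat_lit 21) (.e (nat_lit 164324) (nat_lit 230) .nil)))))) (.g (nat_lit 0) .nil .nil))) 
(.lf (nat_lit 252643) (.g (nat_lit 1361) (.e (nat_lit 163886) (nat_lit 5) (.e (nat_lit 221193) (nat_lit 11) (.e (nat_lit 336213) (nat_lit 13) (.e (nat_lit 393281) (nat_lit 23) .nil)))) .nil))) (.nd (nat_lit 5) 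
(.lf (nat_lit 252627) (.g (nat_lit 3109) (.e (nat_lit 163886) (nat_lit 5) (.e (nat_lit 221193) (nat_lit 11) (.e (nat_lit 336086) (nat_lit 9) (.e (nat_lit 336430) (nat_lit 29) (.e (nat_lit 442421) (nat_lit 21) (.e (nat_lit 164324) (nat_lit 230) .nil)))))) (.g (nat_lit 0) .nil .nil))) 
(.lf (nat_lit 252659) (.g (nat_lit 2800) (.e (nat_lit 163886) (nat_lit 5) (.e (nat_lit 221194) (nat_lit 11) (.e (nat_lit 336076) (nat_lit 9) (.e (nat_lit 336443) (nat_lit 32) (.e (nat_lit 466969) (nat_lit 21) (.e (nat_lit 164324) (nat_lit 230) .nil)))))) (.g (nat_lit 6) .nil .nil))))) (.nd (nat_lit 4) (.nd (nat_lit 5) 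
(.lf (nat_lit 252619) (.g (nat_lit 1780) (.e (nat_lit 163886) (nat_lit 5) (.e (nat_lit 221193) (nat_lit 11) (.e (nat_lit 336076) (nat_lit 9) (.e (nat_lit 336443) (nat_lit 32) (.e (nat_lit 466971) (nat_lit 21) (.e (nat_lit 164326) (nat_lit 230) .nil)))))) (.g (nat_lit 4) .nil .nil))) 
(.lf (nat_lit 252651) (.g (nat_lit 2271) (.e (nat_lit 163886) (nat_lit 5) (.e (nat_lit 221193) (nat_lit 11) (.e (nat_lit 336221) (nat_lit 13) (.e (nat_lit 393281) (nat_lit 23) (.e (nat_lit 426098) (nat_lit 1) (.e (nat_lit 164327) (nat_lit 230) .nil)))))) (.g (nat_lit 0) .nil .nil)))) (.nd (nat_lit 5) 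
(.lf (nat_lit 252635) (.g (nat_lit 2926) (.e (nat_lit 163886) (nat_lit 5) (.e (nat_lit 221193) (nat_lit 11) (.e (nat_lit 336087) (nat_lit 9) (.e (nat_lit 336443) (nat_lit 32) (.e (nat_lit 466969) (nat_lit 21) (.e (nat_lit 164325) (nat_lit 230) .nil)))))) (.g (nat_lit 0) .nil .nil))) 
(.lf (nat_lit 252667) (.g (nat_lit 1620) (.e (nat_lit 163886) (nat_lit 5) (.e (nat_lit 221194) (nat_lit 11) (.e (nat_lit 336086) (nat_lit 9) (.e (nat_lit 336443) (nat_lit 32) (.e (nat_lit 466971) (nat_lit 21) (.e (nat_lit 164326) (nat_lit 230) .nil)))))) (.g (nat_lit 4) .nil .nil)))))) (.nd (nat_lit 3) (.nd (nat_lit 4) (.nd (nat_lit 5) 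
(.lf (nat_lit 252615) (.g (nat_lit 3054) (.e (nat_lit 163886) (nat_lit 5) (.e (nat_lit 221193) (nat_lit 11) (.e (nat_lit 336076) (nat_lit 9) (.e (nat_lit 336443) (nat_lit 32) (.e (nat_lit 466969) (nat_lit 21) (.e (nat_lit 164324) (nat_lit 230) .nil)))))) (.g (nat_lit 6) .nil .nil))) 
(.lf (nat_lit 252647) (.g (nat_lit 2894) (.e (nat_lit 163886) (nat_lit 5) (.e (nat_lit 221193) (nat_lit 11) (.e (nat_lit 336215) (nat_lit 13) (.e (nat_lit 393281) (nat_lit 23) (.e (nat_lit 426098) (nat_lit 1) (.e (nat_lit 164325) (nat_lit 230) .nil)))))) (.g (nat_lit 6) .nil .nil)))) (.nd (nat_lit 5) 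
(.lf (nat_lit 252631) (.g (nat_lit 2669) (.e (nat_lit 163886) (nat_lit 5) (.e (nat_lit 221193) (nat_lit 11) (.e (nat_lit 336086) (nat_lit 9) (.e (nat_lit 336443) (nat_lit 32) (.e (nat_lit 466971) (nat_lit 21) (.e (nat_lit 164325) (nat_lit 230) .nil)))))) (.g (nat_lit 6) .nil .nil))) 
(.lf (nat_lit 252663) (.g (nat_lit 323) (.e (nat_lit 163886) (nat_lit 5) (.e (nat_lit 221194) (nat_lit 11) (.e (nat_lit 336086) (nat_lit 9) .nil))) .nil)))) (.nd (nat_lit 4) (.nd (nat_lit 5) 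
(.lf (nat_lit 252623) (.g (nat_lit 1788) (.e (nat_lit 163886) (nat_lit 5) (.e (nat_lit 221193) (nat_lit 11) (.e (nat_lit 336078) (nat_lit 9) (.e (nat_lit 336443) (nat_lit 32) (.e (nat_lit 466971) (nat_lit 21) (.e (nat_lit 164326) (nat_lit 230) .nil)))))) (.g (nat_lit 4) .nil .nil))) 
(.lf (nat_lit 252655) (.g (nat_lit 2493) (.e (nat_lit 163886) (nat_lit 5) (.e (nat_lit 221194) (nat_lit 11) (.e (nat_lit 336027) (nat_lit 3) (.e (nat_lit 98370) (nat_lit 28) .nil)))) .nil))) (.nd (nat_lit 5) 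
(.lf (nat_lit 252639) (.g (nat_lit 2999) (.e (nat_lit 163886) (nat_lit 5) (.e (nat_lit 221193) (nat_lit 11) (.e (nat_lit 336088) (nat_lit 9) (.e (nat_lit 336443) (nat_lit 32) (.e (nat_lit 466969) (nat_lit 21) (.e (nat_lit 164325) (nat_lit 230) .nil)))))) (.g (nat_lit 0) .nil .nil))) 
(.lf (nat_lit 252671) (.g (nat_lit 3225) (.e (nat_lit 163886) (nat_lit 5) (.e (nat_lit 221194) (nat_lit 11) (.e (nat_lit 336088) (nat_lit 9) (.e (nat_lit 336443) (nat_lit 32) (.e (nat_lit 466969) (nat_lit 21) (.e (nat_lit 164324) (nat_lit 230) .nil)))))) (.g (nat_lit 6) .nil .nil)))))))))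

noncomputable def tv3278 : DT := (.nd (nat_lit 0) (.nd (nat_lit 1) (.nd (nat_lit 2) (.nd (nat_lit 3) (.nd (nat_lit 4) (.nd (nat_lit 5) (.nd (nat_lit 6) 
(.lf (nat_lit 252672) (.g (nat_lit 3164) (.e (nat_lit 163886) (nat_lit 5) (.e (nat_lit 221194) (nat_lit 11) (.e (nat_lit 336088) (nat_lit 9) (.e (nat_lit 336443) (nat_lit 32) (.e (nat_lit 466971) (nat_lit 21) (.e (nat_lit 164324) (nat_lit 230) .nil)))))) (.g (nat_lit 6) .nil .nil))) 
(.lf (nat_lit 252736) (.g (nat_lit 1377) (.e (nat_lit 163896) (nat_lit 10) (.e (nat_lit 409646) (nat_lit 18) (.e (nat_lit 303133) (nat_lit 9) (.e (nat_lit 433920) (nat_lit 32) .nil)))) .nil))) (.nd (nat_lit 6) 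
(.lf (nat_lit 252704) (.g (nat_lit 2107) (.e (nat_lit 163892) (nat_lit 8) (.e (nat_lit 253992) (nat_lit 11) (.e (nat_lit 16425) (nat_lit 7) (.e (nat_lit 409648) (nat_lit 18) .nil)))) .nil)) 
(.lf (nat_lit 252768) (.g (nat_lit 684) (.e (nat_lit 163900) (nat_lit 12) (.e (nat_lit 426568) (nat_lit 34) (.e (nat_lit 393281) (nat_lit 23) .nil))) .nil)))) (.nd (nat_lit 5) (.nd (nat_lit 6) 
(.lf (nat_lit 252688) (.g (nat_lit 2949) (.e (nat_lit 163886) (nat_lit 5) (.e (nat_lit 221194) (nat_lit 11) (.e (nat_lit 336223) (nat_lit 13) (.e (nat_lit 393281) (nat_lit 23) (.e (nat_lit 426098) (nat_lit 1) (.e (nat_lit 164327) (nat_lit 230) .nil)))))) (.g (nat_lit 0) .nil .nil))) 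
(.lf (nat_lit 252752) (.g (nat_lit 3107) (.e (nat_lit 163900) (nat_lit 12) (.e (nat_lit 426566) (nat_lit 34) (.e (nat_lit 393268) (nat_lit 23) (.e (nat_lit 426436) (nat_lit 18) (.e (nat_lit 98335) (nat_lit 18) (.e (nat_lit 164330) (nat_lit 230) .nil)))))) (.g (nat_lit 0) .nil .nil)))) (.nd (nat_lit 6) 
(.lf (nat_lit 252720) (.g (nat_lit 2011) (.e (nat_lit 163896) (nat_lit 10) (.e (nat_lit 409602) (nat_lit 0) (.e (nat_lit 5293) (nat_lit 298) (.e (nat_lit 1656) (nat_lit 115) (.e (nat_lit 393270) (nat_lit 23) (.e (nat_lit 426148) (nat_lit 4) (.e (nat_lit 229681) (nat_lit 244) .nil))))))) (.g (nat_lit 4) .nil .nil))) 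
(.lf (nat_lit 252784) (.g (nat_lit 1451) (.e (nat_lit 163901) (nat_lit 12) (.e (nat_lit 426428) (nat_lit 17) (.e (nat_lit 90185) (nat_lit 17) (.e (nat_lit 237623) (nat_lit 13) .nil)))) .nil))))) (.nd (nat_lit 4) (.nd (nat_lit 5) (.nd (nat_lit 6) 
(.lf (nat_lit 252680) (.g (nat_lit 2665) (.e (nat_lit 163886) (nat_lit 5) (.e (nat_lit 221194) (nat_lit 11) (.e (nat_lit 336215) (nat_lit 13) (.e (nat_lit 393281) (nat_lit 23) (.e (nat_lit 426098) (nat_lit 1) (.e (nat_lit 164325) (nat_lit 230) .nil)))))) (.g (nat_lit 0) .nil .nil))) 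
(.lf (nat_lit 252744) (.g (nat_lit 2548) (.e (nat_lit 163900) (nat_lit 12) (.e (nat_lit 426340) (nat_lit 14) (.e (nat_lit 491549) (nat_lit 9) (.e (nat_lit 336430) (nat_lit 29) (.e (nat_lit 442428) (nat_lit 24) .nil))))) .nil))) (.nd (nat_lit 6) 
(.lf (nat_lit 252712) (.g (nat_lit 2118) (.e (nat_lit 163896) (nat_lit 10) (.e (nat_lit 409602) (nat_lit 0) (.e (nat_lit 5293) (nat_lit 298) (.e (nat_lit 1423) (nat_lit 108) (.e (nat_lit 336427) (nat_lit 29) (.e (nat_lit 442430) (nat_lit 24) (.e (nat_lit 229681) (nat_lit 244) .nil))))))) (.g (nat_lit 4) .nil .nil))) 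
(.lf (nat_lit 252776) (.g (nat_lit 1585) (.e (nat_lit 163901) (nat_lit 12) (.e (nat_lit 426131) (nat_lit 3) (.e (nat_lit 204868) (nat_lit 29) (.e (nat_lit 360473) (nat_lit 8) .nil)))) .nil)))) (.nd (nat_lit 5) (.nd (nat_lit 6) 
(.lf (nat_lit 252696) (.g (nat_lit 2359) (.e (nat_lit 163886) (nat_lit 5) (.e (nat_lit 221208) (nat_lit 21) (.e (nat_lit 164330) (nat_lit 230) (.e (nat_lit 171776) (nat_lit 66) (.e (nat_lit 114714) (nat_lit 22) (.e (nat_lit 90172) (nat_lit 14) (.e (nat_lit 180229) (nat_lit 0) (.e (nat_lit 5223) (nat_lit 296) .nil)))))))) (.g (nat_lit 5) .nil .nil))) 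
(.lf (nat_lit 252760) (.g (nat_lit 2270) (.e (nat_lit 163900) (nat_lit 12) (.e (nat_lit 426568) (nat_lit 34) (.e (nat_lit 393271) (nat_lit 23) (.e (nat_lit 426131) (nat_lit 3) (.e (nat_lit 204829) (nat_lit 18) (.e (nat_lit 57692) (nat_lit 156) .nil)))))) (.g (nat_lit 4) .nil .nil)))) (.nd (nat_lit 6) 
(.lf (nat_lit 252728) (.g (nat_lit 1190) (.e (nat_lit 163896) (nat_lit 10) (.e (nat_lit 417536) (nat_lit 6) (.e (nat_lit 286761) (nat_lit 13) (.e (nat_lit 393265) (nat_lit 22) (.e (nat_lit 417792) (nat_lit 0) (.e (nat_lit 67) (nat_lit 0) (.e (nat_lit 5596) (nat_lit 310) .nil))))))) (.g (nat_lit 4) .nil .nil))) 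
(.lf (nat_lit 252792) (.g (nat_lit 1874) (.e (nat_lit 163901) (nat_lit 12) (.e (nat_lit 426555) (nat_lit 32) (.e (nat_lit 376869) (nat_lit 23) (.e (nat_lit 98317) (nat_lit 9) (.e (nat_lit 335986) (nat_lit 1) .nil))))) .nil)))))) (.nd (nat_lit 3) (.nd (nat_lit 4) (.nd (nat_lit 5) (.nd (nat_lit 6) 
(.lf (nat_lit 252676) (.g (nat_lit 3034) (.e (nat_lit 163886) (nat_lit 5) (.e (nat_lit 221194) (nat_lit 11) (.e (nat_lit 336213) (nat_lit 13) (.e (nat_lit 393281) (nat_lit 23) (.e (nat_lit 426098) (nat_lit 1) (.e (nat_lit 164325) (nat_lit 230) .nil)))))) (.g (nat_lit 0) .nil .nil))) 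
(.lf (nat_lit 252740) (.g (nat_lit 1139) (.e (nat_lit 163900) (nat_lit 12) (.e (nat_lit 426109) (nat_lit 1) (.e (nat_lit 164163) (nat_lit 152) (.e (nat_lit 1211) (nat_lit 89) (.e (nat_lit 73755) (nat_lit 8) .nil))))) .nil))) (.nd (nat_lit 6) 
(.lf (nat_lit 252708) (.g (nat_lit 2007) (.e (nat_lit 163896) (nat_lit 10) (.e (nat_lit 409602) (nat_lit 0) (.e (nat_lit 5270) (nat_lit 298) (.e (nat_lit 1433) (nat_lit 108) .nil)))) .nil)) 
(.lf (nat_lit 252772) (.g (nat_lit 571) (.e (nat_lit 163900) (nat_lit 12) (.e (nat_lit 426568) (nat_lit 34) (.e (nat_lit 393287) (nat_lit 25) .nil))) .nil)))) (.nd (nat_lit 5) (.nd (nat_lit 6) 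
(.lf (nat_lit 252692) (.g (nat_lit 1956) (.e (nat_lit 163886) (nat_lit 5) (.e (nat_lit 221207) (nat_lit 21) (.e (nat_lit 164179) (nat_lit 154) (.e (nat_lit 57377) (nat_lit 3) (.e (nat_lit 106240) (nat_lit 11) (.e (nat_lit 352307) (nat_lit 21) (.e (nat_lit 57686) (nat_lit 156) .nil))))))) (.g (nat_lit 4) .nil .nil))) 
(.lf (nat_lit 252756) (.g (nat_lit 3232) (.e (nat_lit 163900) (nat_lit 12) (.e (nat_lit 426566) (nat_lit 34) (.e (nat_lit 393294) (nat_lit 26) (.e (nat_lit 475177) (nat_lit 24) (.e (nat_lit 516117) (nat_lit 1) (.e (nat_lit 164330) (nat_lit 230) .nil)))))) (.g (nat_lit 0) .nil .nil)))) (.nd (nat_lit 6) 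
(.lf (nat_lit 252724) (.g (nat_lit 961) (.e (nat_lit 163896) (nat_lit 10) (.e (nat_lit 409602) (nat_lit 0) (.e (nat_lit 5740) (nat_lit 313) .nil))) .nil)) 
(.lf (nat_lit 252788) (.g (nat_lit 1429) (.e (nat_lit 163901) (nat_lit 12) (.e (nat_lit 426438) (nat_lit 18) (.e (nat_lit 98370) (nat_lit 28) (.e (nat_lit 442385) (nat_lit 11) .nil)))) .nil))))) (.nd (nat_lit 4) (.nd (nat_lit 5) (.nd (nat_lit 6) 
(.lf (nat_lit 252684) (.g (nat_lit 328) (.e (nat_lit 163886) (nat_lit 5) (.e (nat_lit 221194) (nat_lit 11) (.e (nat_lit 336222) (nat_lit 13) .nil))) .nil)) 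
(.lf (nat_lit 252748) (.g (nat_lit 805) (.e (nat_lit 163900) (nat_lit 12) (.e (nat_lit 426555) (nat_lit 32) (.e (nat_lit 376869) (nat_lit 23) .nil))) .nil))) (.nd (nat_lit 6) 
(.lf (nat_lit 252716) (.g (nat_lit 2577) (.e (nat_lit 163896) (nat_lit 10) (.e (nat_lit 409602) (nat_lit 0) (.e (nat_lit 5293) (nat_lit 298) (.e (nat_lit 1656) (nat_lit 115) (.e (nat_lit 393266) (nat_lit 23) (.e (nat_lit 426144) (nat_lit 4) (.e (nat_lit 229678) (nat_lit 244) .nil))))))) (.g (nat_lit 4) .nil .nil))) 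
(.lf (nat_lit 252780) (.g (nat_lit 4502) (.e (nat_lit 163901) (nat_lit 12) (.e (nat_lit 426131) (nat_lit 3) (.e (nat_lit 204869) (nat_lit 29) (.e (nat_lit 360474) (nat_lit 8) (.e (nat_lit 557094) (nat_lit 12) .nil))))) .nil)))) (.nd (nat_lit 5) (.nd (nat_lit 6) 
(.lf (nat_lit 252700) (.g (nat_lit 3298) (.e (nat_lit 163886) (nat_lit 5) (.e (nat_lit 221212) (nat_lit 22) (.e (nat_lit 196656) (nat_lit 11) (.e (nat_lit 16456) (nat_lit 12) (.e (nat_lit 475177) (nat_lit 24) (.e (nat_lit 524032) (nat_lit 18) (.e (nat_lit 57927) (nat_lit 282) .nil))))))) (.g (nat_lit 5) .nil .nil))) 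
(.lf (nat_lit 252764) (.g (nat_lit 3012) (.e (nat_lit 163900) (nat_lit 12) (.e (nat_lit 426568) (nat_lit 34) (.e (nat_lit 393271) (nat_lit 23) (.e (nat_lit 426436) (nat_lit 18) (.e (nat_lit 98334) (nat_lit 18) (.e (nat_lit 164330) (nat_lit 230) .nil)))))) (.g (nat_lit 4) .nil .nil)))) (.nd (nat_lit 6) 
(.lf (nat_lit 252732) (.g (nat_lit 1124) (.e (nat_lit 163896) (nat_lit 10) (.e (nat_lit 417536) (nat_lit 6) (.e (nat_lit 286761) (nat_lit 13) (.e (nat_lit 393275) (nat_lit 23) (.e (nat_lit 426144) (nat_lit 4) (.e (nat_lit 229681) (nat_lit 244) .nil)))))) (.g (nat_lit 5) .nil .nil))) 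
(.lf (nat_lit 252796) (.g (nat_lit 1230) (.e (nat_lit 163901) (nat_lit 12) (.e (nat_lit 426566) (nat_lit 34) (.e (nat_lit 393271) (nat_lit 23) (.e (nat_lit 426438) (nat_lit 18) .nil)))) .nil))))))) (.nd (nat_lit 2) (.nd (nat_lit 3) (.nd (nat_lit 4) (.nd (nat_lit 5) (.nd (nat_lit 6) 
(.lf (nat_lit 252674) (.g (nat_lit 2694) (.e (nat_lit 163886) (nat_lit 5) (.e (nat_lit 221194) (nat_lit 11) (.e (nat_lit 336213) (nat_lit 13) (.e (nat_lit 393280) (nat_lit 23) .nil)))) .nil)) 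
(.lf (nat_lit 252738) (.g (nat_lit 38) (.e (nat_lit 163898) (nat_lit 11) (.e (nat_lit 417793) (nat_lit 0) (.e (nat_lit 5405) (nat_lit 302) .nil))) .nil))) (.nd (nat_lit 6) 
(.lf (nat_lit 252706) (.g (nat_lit 1266) (.e (nat_lit 163894) (nat_lit 9) (.e (nat_lit 262165) (nat_lit 11) (.e (nat_lit 24627) (nat_lit 9) (.e (nat_lit 336443) (nat_lit 32) (.e (nat_lit 466969) (nat_lit 21) .nil))))) .nil)) 
(.lf (nat_lit 252770) (.g (nat_lit 1621) (.e (nat_lit 163900) (nat_lit 12) (.e (nat_lit 426568) (nat_lit 34) (.e (nat_lit 393283) (nat_lit 24) (.e (nat_lit 434231) (nat_lit 23) (.e (nat_lit 532500) (nat_lit 1) .nil))))) .nil)))) (.nd (nat_lit 5) (.nd (nat_lit 6) 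
(.lf (nat_lit 252690) (.g (nat_lit 1989) (.e (nat_lit 163886) (nat_lit 5) (.e (nat_lit 229120) (nat_lit 12) (.e (nat_lit 344117) (nat_lit 21) (.e (nat_lit 516129) (nat_lit 3) (.e (nat_lit 221220) (nat_lit 25) (.e (nat_lit 221207) (nat_lit 21) (.e (nat_lit 164325) (nat_lit 230) .nil))))))) (.g (nat_lit 4) .nil .nil))) 
(.lf (nat_lit 252754) (.g (nat_lit 3374) (.e (nat_lit 163900) (nat_lit 12) (.e (nat_lit 426566) (nat_lit 34) (.e (nat_lit 393271) (nat_lit 23) (.e (nat_lit 426436) (nat_lit 18) (.e (nat_lit 98335) (nat_lit 18) (.e (nat_lit 164330) (nat_lit 230) .nil)))))) (.g (nat_lit 0) .nil .nil)))) (.nd (nat_lit 6) 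
(.lf (nat_lit 252722) (.g (nat_lit 2312) (.e (nat_lit 163896) (nat_lit 10) (.e (nat_lit 409602) (nat_lit 0) (.e (nat_lit 5293) (nat_lit 298) (.e (nat_lit 1656) (nat_lit 115) (.e (nat_lit 393279) (nat_lit 23) (.e (nat_lit 426147) (nat_lit 4) (.e (nat_lit 229681) (nat_lit 244) .nil))))))) (.g (nat_lit 4) .nil .nil))) 
(.lf (nat_lit 252786) (.g (nat_lit 835) (.e (nat_lit 163901) (nat_lit 12) (.e (nat_lit 426436) (nat_lit 18) (.e (nat_lit 98381) (nat_lit 31) .nil))) .nil))))) (.nd (nat_lit 4) (.nd (nat_lit 5) (.nd (nat_lit 6) 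
(.lf (nat_lit 252682) (.g (nat_lit 1050) (.e (nat_lit 163886) (nat_lit 5) (.e (nat_lit 221194) (nat_lit 11) (.e (nat_lit 336220) (nat_lit 13) (.e (nat_lit 393289) (nat_lit 25) .nil)))) .nil)) 
(.lf (nat_lit 252746) (.g (nat_lit 1099) (.e (nat_lit 163900) (nat_lit 12) (.e (nat_lit 426544) (nat_lit 30) (.e (nat_lit 360467) (nat_lit 3) (.e (nat_lit 516195) (nat_lit 26) .nil)))) .nil))) (.nd (nat_lit 6) 
(.lf (nat_lit 252714) (.g (nat_lit 2342) (.e (nat_lit 163896) (nat_lit 10) (.e (nat_lit 409602) (nat_lit 0) (.e (nat_lit 5293) (nat_lit 298) (.e (nat_lit 1423) (nat_lit 108) (.e (nat_lit 336444) (nat_lit 32) (.e (nat_lit 466982) (nat_lit 24) (.e (nat_lit 229681) (nat_lit 244) .nil))))))) (.g (nat_lit 4) .nil .nil))) 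
(.lf (nat_lit 252778) (.g (nat_lit 2495) (.e (nat_lit 163901) (nat_lit 12) (.e (nat_lit 426131) (nat_lit 3) (.e (nat_lit 204868) (nat_lit 29) (.e (nat_lit 360473) (nat_lit 8) (.e (nat_lit 557091) (nat_lit 12) (.e (nat_lit 163843) (nat_lit 0) (.e (nat_lit 6416) (nat_lit 341) .nil))))))) (.g (nat_lit 4) .nil .nil))))) (.nd (nat_lit 5) (.nd (nat_lit 6) 
(.lf (nat_lit 252698) (.g (nat_lit 2843) (.e (nat_lit 163886) (nat_lit 5) (.e (nat_lit 221212) (nat_lit 22) (.e (nat_lit 196653) (nat_lit 11) (.e (nat_lit 16456) (nat_lit 12) (.e (nat_lit 475177) (nat_lit 24) (.e (nat_lit 524032) (nat_lit 18) (.e (nat_lit 57927) (nat_lit 282) .nil))))))) (.g (nat_lit 5) .nil .nil))) 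
(.lf (nat_lit 252762) (.g (nat_lit 2230) (.e (nat_lit 163900) (nat_lit 12) (.e (nat_lit 426568) (nat_lit 34) (.e (nat_lit 393271) (nat_lit 23) (.e (nat_lit 426131) (nat_lit 3) (.e (nat_lit 204830) (nat_lit 18) (.e (nat_lit 57690) (nat_lit 156) .nil)))))) (.g (nat_lit 4) .nil .nil)))) (.nd (nat_lit 6) 
(.lf (nat_lit 252730) (.g (nat_lit 1405) (.e (nat_lit 163896) (nat_lit 10) (.e (nat_lit 417536) (nat_lit 6) (.e (nat_lit 286761) (nat_lit 13) (.e (nat_lit 393270) (nat_lit 23) (.e (nat_lit 426141) (nat_lit 4) (.e (nat_lit 229681) (nat_lit 244) .nil)))))) (.g (nat_lit 5) .nil .nil))) 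
(.lf (nat_lit 252794) (.g (nat_lit 3347) (.e (nat_lit 163901) (nat_lit 12) (.e (nat_lit 426566) (nat_lit 34) (.e (nat_lit 393268) (nat_lit 23) (.e (nat_lit 426436) (nat_lit 18) (.e (nat_lit 98335) (nat_lit 18) (.e (nat_lit 164330) (nat_lit 230) .nil)))))) (.g (nat_lit 0) .nil .nil))))))) (.nd (nat_lit 3) (.nd (nat_lit 4) (.nd (nat_lit 5) (.nd (nat_lit 6) 
(.lf (nat_lit 252678) (.g (nat_lit 664) (.e (nat_lit 163886) (nat_lit 5) (.e (nat_lit 221194) (nat_lit 11) (.e (nat_lit 336214) (nat_lit 13) (.e (nat_lit 401152) (nat_lit 23) .nil)))) .nil)) 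
(.lf (nat_lit 252742) (.g (nat_lit 825) (.e (nat_lit 163900) (nat_lit 12) (.e (nat_lit 426317) (nat_lit 12) (.e (nat_lit 475207) (nat_lit 41) (.e (nat_lit 712755) (nat_lit 30) .nil)))) .nil))) (.nd (nat_lit 6) 
(.lf (nat_lit 252710) (.g (nat_lit 2064) (.e (nat_lit 163896) (nat_lit 10) (.e (nat_lit 409602) (nat_lit 0) (.e (nat_lit 5293) (nat_lit 298) (.e (nat_lit 1397) (nat_lit 106) .nil)))) .nil)) 
(.lf (nat_lit 252774) (.g (nat_lit 2592) (.e (nat_lit 163900) (nat_lit 12) (.e (nat_lit 426568) (nat_lit 34) (.e (nat_lit 393294) (nat_lit 26) (.e (nat_lit 475177) (nat_lit 24) (.e (nat_lit 516117) (nat_lit 1) .nil))))) .nil)))) (.nd (nat_lit 5) (.nd (nat_lit 6) 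
(.lf (nat_lit 252694) (.g (nat_lit 3832) (.e (nat_lit 163886) (nat_lit 5) (.e (nat_lit 221207) (nat_lit 21) (.e (nat_lit 164325) (nat_lit 230) (.e (nat_lit 171776) (nat_lit 66) (.e (nat_lit 114714) (nat_lit 22) (.e (nat_lit 90170) (nat_lit 13) (.e (nat_lit 172059) (nat_lit 1) (.e (nat_lit 164327) (nat_lit 230) .nil)))))))) (.g (nat_lit 6) .nil .nil))) 
(.lf (nat_lit 252758) (.g (nat_lit 1863) (.e (nat_lit 163900) (nat_lit 12) (.e (nat_lit 426566) (nat_lit 34) (.e (nat_lit 393295) (nat_lit 26) (.e (nat_lit 475177) (nat_lit 24) (.e (nat_lit 516117) (nat_lit 1) (.e (nat_lit 164330) (nat_lit 230) .nil)))))) (.g (nat_lit 4) .nil .nil)))) (.nd (nat_lit 6) 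
(.lf (nat_lit 252726) (.g (nat_lit 1258) (.e (nat_lit 163896) (nat_lit 10) (.e (nat_lit 409602) (nat_lit 0) (.e (nat_lit 5761) (nat_lit 315) (.e (nat_lit 164003) (nat_lit 40) .nil)))) .nil)) 
(.lf (nat_lit 252790) (.g (nat_lit 1195) (.e (nat_lit 163901) (nat_lit 12) (.e (nat_lit 426555) (nat_lit 32) (.e (nat_lit 376869) (nat_lit 23) (.e (nat_lit 98313) (nat_lit 9) .nil)))) .nil))))) (.nd (nat_lit 4) (.nd (nat_lit 5) (.nd (nat_lit 6) 
(.lf (nat_lit 252686) (.g (nat_lit 1020) (.e (nat_lit 163886) (nat_lit 5) (.e (nat_lit 221194) (nat_lit 11) (.e (nat_lit 336222) (nat_lit 13) (.e (nat_lit 393285) (nat_lit 25) .nil)))) .nil)) 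
(.lf (nat_lit 252750) (.g (nat_lit 2636) (.e (nat_lit 163900) (nat_lit 12) (.e (nat_lit 426564) (nat_lit 34) (.e (nat_lit 393291) (nat_lit 26) (.e (nat_lit 475177) (nat_lit 24) (.e (nat_lit 516120) (nat_lit 1) (.e (nat_lit 164330) (nat_lit 230) .nil)))))) (.g (nat_lit 6) .nil .nil)))) (.nd (nat_lit 6) 
(.lf (nat_lit 252718) (.g (nat_lit 2542) (.e (nat_lit 163896) (nat_lit 10) (.e (nat_lit 409602) (nat_lit 0) (.e (nat_lit 5293) (nat_lit 298) (.e (nat_lit 1656) (nat_lit 115) (.e (nat_lit 393267) (nat_lit 23) (.e (nat_lit 426141) (nat_lit 4) (.e (nat_lit 229681) (nat_lit 244) .nil))))))) (.g (nat_lit 4) .nil .nil))) 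
(.lf (nat_lit 252782) (.g (nat_lit 5038) (.e (nat_lit 163901) (nat_lit 12) (.e (nat_lit 426131) (nat_lit 3) (.e (nat_lit 204869) (nat_lit 29) (.e (nat_lit 360475) (nat_lit 8) (.e (nat_lit 557091) (nat_lit 12) .nil))))) .nil)))) (.nd (nat_lit 5) (.nd (nat_lit 6) 
(.lf (nat_lit 252702) (.g (nat_lit 1332) (.e (nat_lit 171776) (nat_lit 5) (.e (nat_lit 221194) (nat_lit 11) (.e (nat_lit 336223) (nat_lit 13) (.e (nat_lit 393281) (nat_lit 23) (.e (nat_lit 426099) (nat_lit 1) .nil))))) .nil)) 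
(.lf (nat_lit 252766) (.g (nat_lit 2009) (.e (nat_lit 163900) (nat_lit 12) (.e (nat_lit 426568) (nat_lit 34) (.e (nat_lit 393271) (nat_lit 23) (.e (nat_lit 426438) (nat_lit 18) .nil)))) .nil))) (.nd (nat_lit 6) 
(.lf (nat_lit 252734) (.g (nat_lit 776) (.e (nat_lit 163896) (nat_lit 10) (.e (nat_lit 409616) (nat_lit 10) (.e (nat_lit 5763) (nat_lit 315) .nil))) .nil)) 
(.lf (nat_lit 252798) (.g (nat_lit 1180) (.e (nat_lit 163901) (nat_lit 12) (.e (nat_lit 426566) (nat_lit 34) (.e (nat_lit 393272) (nat_lit 23) (.e (nat_lit 426438) (nat_lit 18) .nil)))) .nil)))))))) (.nd (nat_lit 1) (.nd (nat_lit 2) (.nd (nat_lit 3) (.nd (nat_lit 4) (.nd (nat_lit 5) (.nd (nat_lit 6) 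
(.lf (nat_lit 252673) (.g (nat_lit 2028) (.e (nat_lit 163886) (nat_lit 5) (.e (nat_lit 221194) (nat_lit 11) (.e (nat_lit 336088) (nat_lit 9) (.e (nat_lit 336443) (nat_lit 32) (.e (nat_lit 466971) (nat_lit 21) (.e (nat_lit 164326) (nat_lit 230) .nil)))))) (.g (nat_lit 4) .nil .nil))) 
(.lf (nat_lit 252737) (.g (nat_lit 927) (.e (nat_lit 163896) (nat_lit 10) (.e (nat_lit 409648) (nat_lit 18) (.e (nat_lit 303131) (nat_lit 9) (.e (nat_lit 433920) (nat_lit 32) .nil)))) .nil))) (.nd (nat_lit 6) 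
(.lf (nat_lit 252705) (.g (nat_lit 2203) (.e (nat_lit 163892) (nat_lit 8) (.e (nat_lit 253992) (nat_lit 11) (.e (nat_lit 16425) (nat_lit 7) (.e (nat_lit 409649) (nat_lit 18) .nil)))) .nil)) 
(.lf (nat_lit 252769) (.g (nat_lit 600) (.e (nat_lit 163900) (nat_lit 12) (.e (nat_lit 426568) (nat_lit 34) (.e (nat_lit 393282) (nat_lit 24) .nil))) .nil)))) (.nd (nat_lit 5) (.nd (nat_lit 6) 
(.lf (nat_lit 252689) (.g (nat_lit 1802) (.e (nat_lit 163886) (nat_lit 5) (.e (nat_lit 229120) (nat_lit 12) (.e (nat_lit 344117) (nat_lit 21) (.e (nat_lit 516123) (nat_lit 2) (.e (nat_lit 213019) (nat_lit 9) (.e (nat_lit 2710) (nat_lit 170) (.e (nat_lit 221207) (nat_lit 21) (.e (nat_lit 164325) (nat_lit 230) .nil)))))))) (.g (nat_lit 5) .nil .nil))) 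
(.lf (nat_lit 252753) (.g (nat_lit 3226) (.e (nat_lit 163900) (nat_lit 12) (.e (nat_lit 426566) (nat_lit 34) (.e (nat_lit 393271) (nat_lit 23) (.e (nat_lit 426436) (nat_lit 18) (.e (nat_lit 98334) (nat_lit 18) (.e (nat_lit 164330) (nat_lit 230) .nil)))))) (.g (nat_lit 0) .nil .nil)))) (.nd (nat_lit 6) 
(.lf (nat_lit 252721) (.g (nat_lit 2168) (.e (nat_lit 163896) (nat_lit 10) (.e (nat_lit 409602) (nat_lit 0) (.e (nat_lit 5293) (nat_lit 298) (.e (nat_lit 1656) (nat_lit 115) (.e (nat_lit 393278) (nat_lit 23) (.e (nat_lit 426142) (nat_lit 4) (.e (nat_lit 229678) (nat_lit 244) .nil))))))) (.g (nat_lit 4) .nil .nil))) 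
(.lf (nat_lit 252785) (.g (nat_lit 1242) (.e (nat_lit 163901) (nat_lit 12) (.e (nat_lit 426428) (nat_lit 17) (.e (nat_lit 90185) (nat_lit 17) (.e (nat_lit 237624) (nat_lit 13) .nil)))) .nil))))) (.nd (nat_lit 4) (.nd (nat_lit 5) (.nd (nat_lit 6) 
(.lf (nat_lit 252681) (.g (nat_lit 678) (.e (nat_lit 163886) (nat_lit 5) (.e (nat_lit 221194) (nat_lit 11) (.e (nat_lit 336220) (nat_lit 13) .nil))) .nil)) 
(.lf (nat_lit 252745) (.g (nat_lit 2091) (.e (nat_lit 163900) (nat_lit 12) (.e (nat_lit 426340) (nat_lit 14) (.e (nat_lit 491549) (nat_lit 9) (.e (nat_lit 336434) (nat_lit 30) (.e (nat_lit 450568) (nat_lit 0) .nil))))) .nil))) (.nd (nat_lit 6) 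
(.lf (nat_lit 252713) (.g (nat_lit 2291) (.e (nat_lit 163896) (nat_lit 10) (.e (nat_lit 409602) (nat_lit 0) (.e (nat_lit 5293) (nat_lit 298) (.e (nat_lit 1423) (nat_lit 108) (.e (nat_lit 336430) (nat_lit 29) (.e (nat_lit 442430) (nat_lit 24) (.e (nat_lit 229681) (nat_lit 244) .nil))))))) (.g (nat_lit 4) .nil .nil))) 
(.lf (nat_lit 252777) (.g (nat_lit 2413) (.e (nat_lit 163901) (nat_lit 12) (.e (nat_lit 426131) (nat_lit 3) (.e (nat_lit 204868) (nat_lit 29) (.e (nat_lit 360473) (nat_lit 8) (.e (nat_lit 557091) (nat_lit 12) .nil))))) .nil)))) (.nd (nat_lit 5) (.nd (nat_lit 6) 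
(.lf (nat_lit 252697) (.g (nat_lit 3154) (.e (nat_lit 163886) (nat_lit 5) (.e (nat_lit 221208) (nat_lit 21) (.e (nat_lit 164330) (nat_lit 230) (.e (nat_lit 171776) (nat_lit 66) (.e (nat_lit 114715) (nat_lit 22) (.e (nat_lit 90170) (nat_lit 13) (.e (nat_lit 172061) (nat_lit 1) (.e (nat_lit 164327) (nat_lit 230) .nil)))))))) (.g (nat_lit 6) .nil .nil))) 
(.lf (nat_lit 252761) (.g (nat_lit 3242) (.e (nat_lit 163900) (nat_lit 12) (.e (nat_lit 426568) (nat_lit 34) (.e (nat_lit 393271) (nat_lit 23) (.e (nat_lit 426131) (nat_lit 3) (.e (nat_lit 204830) (nat_lit 18) (.e (nat_lit 57689) (nat_lit 156) .nil)))))) (.g (nat_lit 5) .nil .nil)))) (.nd (nat_lit 6) 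
(.lf (nat_lit 252729) (.g (nat_lit 1026) (.e (nat_lit 163896) (nat_lit 10) (.e (nat_lit 417536) (nat_lit 6) (.e (nat_lit 286761) (nat_lit 13) (.e (nat_lit 393265) (nat_lit 22) (.e (nat_lit 417804) (nat_lit 1) (.e (nat_lit 8466) (nat_lit 148) .nil)))))) (.g (nat_lit 4) .nil .nil))) 
(.lf (nat_lit 252793) (.g (nat_lit 3146) (.e (nat_lit 163901) (nat_lit 12) (.e (nat_lit 426566) (nat_lit 34) (.e (nat_lit 393268) (nat_lit 23) (.e (nat_lit 426436) (nat_lit 18) (.e (nat_lit 98334) (nat_lit 18) (.e (nat_lit 164330) (nat_lit 230) .nil)))))) (.g (nat_lit 0) .nil .nil))))))) (.nd (nat_lit 3) (.nd (nat_lit 4) (.nd (nat_lit 5) (.nd (nat_lit 6) 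
(.lf (nat_lit 252677) (.g (nat_lit 2589) (.e (nat_lit 163886) (nat_lit 5) (.e (nat_lit 221194) (nat_lit 11) (.e (nat_lit 336214) (nat_lit 13) (.e (nat_lit 393281) (nat_lit 23) (.e (nat_lit 426098) (nat_lit 1) (.e (nat_lit 164325) (nat_lit 230) .nil)))))) (.g (nat_lit 0) .nil .nil))) 
(.lf (nat_lit 252741) (.g (nat_lit 339) (.e (nat_lit 163900) (nat_lit 12) (.e (nat_lit 426317) (nat_lit 12) (.e (nat_lit 475207) (nat_lit 41) .nil))) .nil))) (.nd (nat_lit 6) 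
(.lf (nat_lit 252709) (.g (nat_lit 2148) (.e (nat_lit 163896) (nat_lit 10) (.e (nat_lit 409602) (nat_lit 0) (.e (nat_lit 5293) (nat_lit 298) (.e (nat_lit 1393) (nat_lit 106) .nil)))) .nil)) 
(.lf (nat_lit 252773) (.g (nat_lit 829) (.e (nat_lit 163900) (nat_lit 12) (.e (nat_lit 426568) (nat_lit 34) (.e (nat_lit 393294) (nat_lit 26) .nil))) .nil)))) (.nd (nat_lit 5) (.nd (nat_lit 6) 
(.lf (nat_lit 252693) (.g (nat_lit 1975) (.e (nat_lit 163886) (nat_lit 5) (.e (nat_lit 221207) (nat_lit 21) (.e (nat_lit 164325) (nat_lit 230) (.e (nat_lit 171776) (nat_lit 66) .nil)))) .nil)) 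
(.lf (nat_lit 252757) (.g (nat_lit 743) (.e (nat_lit 163900) (nat_lit 12) (.e (nat_lit 426566) (nat_lit 34) (.e (nat_lit 393295) (nat_lit 26) .nil))) .nil))) (.nd (nat_lit 6) 
(.lf (nat_lit 252725) (.g (nat_lit 961) (.e (nat_lit 163896) (nat_lit 10) (.e (nat_lit 409602) (nat_lit 0) (.e (nat_lit 5756) (nat_lit 315) .nil))) .nil)) 
(.lf (nat_lit 252789) (.g (nat_lit 1496) (.e (nat_lit 163901) (nat_lit 12) (.e (nat_lit 426555) (nat_lit 32) (.e (nat_lit 376869) (nat_lit 23) (.e (nat_lit 98312) (nat_lit 9) .nil)))) .nil))))) (.nd (nat_lit 4) (.nd (nat_lit 5) (.nd (nat_lit 6) 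
(.lf (nat_lit 252685) (.g (nat_lit 2499) (.e (nat_lit 163886) (nat_lit 5) (.e (nat_lit 221194) (nat_lit 11) (.e (nat_lit 336222) (nat_lit 13) (.e (nat_lit 393281) (nat_lit 23) (.e (nat_lit 426098) (nat_lit 1) (.e (nat_lit 164325) (nat_lit 230) .nil)))))) (.g (nat_lit 0) .nil .nil))) 
(.lf (nat_lit 252749) (.g (nat_lit 2732) (.e (nat_lit 163900) (nat_lit 12) (.e (nat_lit 426564) (nat_lit 34) (.e (nat_lit 393291) (nat_lit 26) (.e (nat_lit 475177) (nat_lit 24) (.e (nat_lit 516117) (nat_lit 1) (.e (nat_lit 164330) (nat_lit 230) .nil)))))) (.g (nat_lit 6) .nil .nil)))) (.nd (nat_lit 6) 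
(.lf (nat_lit 252717) (.g (nat_lit 2574) (.e (nat_lit 163896) (nat_lit 10) (.e (nat_lit 409602) (nat_lit 0) (.e (nat_lit 5293) (nat_lit 298) (.e (nat_lit 1656) (nat_lit 115) (.e (nat_lit 393267) (nat_lit 23) (.e (nat_lit 426141) (nat_lit 4) (.e (nat_lit 229678) (nat_lit 244) .nil))))))) (.g (nat_lit 4) .nil .nil))) 
(.lf (nat_lit 252781) (.g (nat_lit 5066) (.e (nat_lit 163901) (nat_lit 12) (.e (nat_lit 426131) (nat_lit 3) (.e (nat_lit 204869) (nat_lit 29) (.e (nat_lit 360475) (nat_lit 8) (.e (nat_lit 557089) (nat_lit 12) .nil))))) .nil)))) (.nd (nat_lit 5) (.nd (nat_lit 6) 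
(.lf (nat_lit 252701) (.g (nat_lit 1487) (.e (nat_lit 163886) (nat_lit 5) (.e (nat_lit 221218) (nat_lit 24) (.e (nat_lit 213032) (nat_lit 11) (.e (nat_lit 24628) (nat_lit 9) .nil)))) .nil)) 
(.lf (nat_lit 252765) (.g (nat_lit 3153) (.e (nat_lit 163900) (nat_lit 12) (.e (nat_lit 426568) (nat_lit 34) (.e (nat_lit 393271) (nat_lit 23) (.e (nat_lit 426436) (nat_lit 18) (.e (nat_lit 98335) (nat_lit 18) (.e (nat_lit 164330) (nat_lit 230) .nil)))))) (.g (nat_lit 4) .nil .nil)))) (.nd (nat_lit 6) 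
(.lf (nat_lit 252733) (.g (nat_lit 824) (.e (nat_lit 163896) (nat_lit 10) (.e (nat_lit 409616) (nat_lit 10) (.e (nat_lit 5630) (nat_lit 312) .nil))) .nil)) 
(.lf (nat_lit 252797) (.g (nat_lit 758) (.e (nat_lit 163901) (nat_lit 12) (.e (nat_lit 426566) (nat_lit 34) (.e (nat_lit 393272) (nat_lit 23) .nil))) .nil))))))) (.nd (nat_lit 2) (.nd (nat_lit 3) (.nd (nat_lit 4) (.nd (nat_lit 5) (.nd (nat_lit 6) 
(.lf (nat_lit 252675) (.g (nat_lit 1267) (.e (nat_lit 163886) (nat_lit 5) (.e (nat_lit 221194) (nat_lit 11) (.e (nat_lit 336213) (nat_lit 13) (.e (nat_lit 393281) (nat_lit 23) .nil)))) .nil)) 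
(.lf (nat_lit 252739) (.g (nat_lit 1991) (.e (nat_lit 163899) (nat_lit 11) (.e (nat_lit 417793) (nat_lit 0) (.e (nat_lit 618) (nat_lit 48) (.e (nat_lit 557109) (nat_lit 15) (.e (nat_lit 188422) (nat_lit 11) .nil))))) .nil))) (.nd (nat_lit 6) 
(.lf (nat_lit 252707) (.g (nat_lit 979) (.e (nat_lit 163896) (nat_lit 10) (.e (nat_lit 409602) (nat_lit 0) (.e (nat_lit 5245) (nat_lit 298) .nil))) .nil)) 
(.lf (nat_lit 252771) (.g (nat_lit 903) (.e (nat_lit 163900) (nat_lit 12) (.e (nat_lit 426568) (nat_lit 34) (.e (nat_lit 393284) (nat_lit 24) .nil))) .nil)))) (.nd (nat_lit 5) (.nd (nat_lit 6) 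
(.lf (nat_lit 252691) (.g (nat_lit 1827) (.e (nat_lit 163886) (nat_lit 5) (.e (nat_lit 221207) (nat_lit 21) (.e (nat_lit 164179) (nat_lit 154) (.e (nat_lit 57377) (nat_lit 3) (.e (nat_lit 106240) (nat_lit 11) .nil))))) .nil)) 
(.lf (nat_lit 252755) (.g (nat_lit 2971) (.e (nat_lit 163900) (nat_lit 12) (.e (nat_lit 426566) (nat_lit 34) (.e (nat_lit 393291) (nat_lit 26) (.e (nat_lit 475177) (nat_lit 24) (.e (nat_lit 516117) (nat_lit 1) (.e (nat_lit 164330) (nat_lit 230) .nil)))))) (.g (nat_lit 0) .nil .nil)))) (.nd (nat_lit 6) 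
(.lf (nat_lit 252723) (.g (nat_lit 2598) (.e (nat_lit 163896) (nat_lit 10) (.e (nat_lit 409602) (nat_lit 0) (.e (nat_lit 5293) (nat_lit 298) (.e (nat_lit 1656) (nat_lit 115) (.e (nat_lit 393282) (nat_lit 24) (.e (nat_lit 434216) (nat_lit 18) (.e (nat_lit 5599) (nat_lit 310) .nil))))))) (.g (nat_lit 4) .nil .nil))) 
(.lf (nat_lit 252787) (.g (nat_lit 1177) (.e (nat_lit 163901) (nat_lit 12) (.e (nat_lit 426438) (nat_lit 18) (.e (nat_lit 98358) (nat_lit 26) (.e (nat_lit 426323) (nat_lit 13) .nil)))) .nil))))) (.nd (nat_lit 4) (.nd (nat_lit 5) (.nd (nat_lit 6) 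
(.lf (nat_lit 252683) (.g (nat_lit 2502) (.e (nat_lit 163886) (nat_lit 5) (.e (nat_lit 221194) (nat_lit 11) (.e (nat_lit 336221) (nat_lit 13) (.e (nat_lit 393281) (nat_lit 23) (.e (nat_lit 426098) (nat_lit 1) (.e (nat_lit 164325) (nat_lit 230) .nil)))))) (.g (nat_lit 0) .nil .nil))) 
(.lf (nat_lit 252747) (.g (nat_lit 799) (.e (nat_lit 163900) (nat_lit 12) (.e (nat_lit 426555) (nat_lit 32) (.e (nat_lit 376867) (nat_lit 23) .nil))) .nil))) (.nd (nat_lit 6) 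
(.lf (nat_lit 252715) (.g (nat_lit 2463) (.e (nat_lit 163896) (nat_lit 10) (.e (nat_lit 409602) (nat_lit 0) (.e (nat_lit 5293) (nat_lit 298) (.e (nat_lit 1656) (nat_lit 115) (.e (nat_lit 393265) (nat_lit 22) (.e (nat_lit 417804) (nat_lit 1) (.e (nat_lit 8466) (nat_lit 148) .nil))))))) (.g (nat_lit 5) .nil .nil))) 
(.lf (nat_lit 252779) (.g (nat_lit 4583) (.e (nat_lit 163901) (nat_lit 12) (.e (nat_lit 426131) (nat_lit 3) (.e (nat_lit 204869) (nat_lit 29) (.e (nat_lit 360474) (nat_lit 8) (.e (nat_lit 557093) (nat_lit 12) .nil))))) .nil)))) (.nd (nat_lit 5) (.nd (nat_lit 6) 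
(.lf (nat_lit 252699) (.g (nat_lit 3157) (.e (nat_lit 163886) (nat_lit 5) (.e (nat_lit 221212) (nat_lit 22) (.e (nat_lit 196654) (nat_lit 11) (.e (nat_lit 16436) (nat_lit 9) (.e (nat_lit 426438) (nat_lit 18) (.e (nat_lit 106240) (nat_lit 1) (.e (nat_lit 57927) (nat_lit 282) .nil))))))) (.g (nat_lit 5) .nil .nil))) 
(.lf (nat_lit 252763) (.g (nat_lit 2164) (.e (nat_lit 163900) (nat_lit 12) (.e (nat_lit 426568) (nat_lit 34) (.e (nat_lit 393271) (nat_lit 23) (.e (nat_lit 426131) (nat_lit 3) (.e (nat_lit 204831) (nat_lit 18) .nil))))) .nil))) (.nd (nat_lit 6) 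
(.lf (nat_lit 252731) (.g (nat_lit 1265) (.e (nat_lit 163896) (nat_lit 10) (.e (nat_lit 417536) (nat_lit 6) (.e (nat_lit 286761) (nat_lit 13) (.e (nat_lit 393270) (nat_lit 23) (.e (nat_lit 426148) (nat_lit 4) (.e (nat_lit 229678) (nat_lit 244) .nil)))))) (.g (nat_lit 4) .nil .nil))) 
(.lf (nat_lit 252795) (.g (nat_lit 1986) (.e (nat_lit 163901) (nat_lit 12) (.e (nat_lit 426566) (nat_lit 34) (.e (nat_lit 393271) (nat_lit 23) (.e (nat_lit 426436) (nat_lit 18) (.e (nat_lit 98333) (nat_lit 18) .nil))))) .nil)))))) (.nd (nat_lit 3) (.nd (nat_lit 4) (.nd (nat_lit 5) (.nd (nat_lit 6) 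
(.lf (nat_lit 252679) (.g (nat_lit 1394) (.e (nat_lit 163886) (nat_lit 5) (.e (nat_lit 221194) (nat_lit 11) (.e (nat_lit 336215) (nat_lit 13) (.e (nat_lit 393274) (nat_lit 23) .nil)))) .nil)) 
(.lf (nat_lit 252743) (.g (nat_lit 339) (.e (nat_lit 163900) (nat_lit 12) (.e (nat_lit 426317) (nat_lit 12) (.e (nat_lit 475208) (nat_lit 41) .nil))) .nil))) (.nd (nat_lit 6) 
(.lf (nat_lit 252711) (.g (nat_lit 2825) (.e (nat_lit 163896) (nat_lit 10) (.e (nat_lit 409602) (nat_lit 0) (.e (nat_lit 5293) (nat_lit 298) (.e (nat_lit 1397) (nat_lit 106) (.e (nat_lit 319534) (nat_lit 16) (.e (nat_lit 286749) (nat_lit 9) (.e (nat_lit 335997) (nat_lit 1) (.e (nat_lit 57857) (nat_lit 254) .nil)))))))) (.g (nat_lit 4) .nil .nil))) 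
(.lf (nat_lit 252775) (.g (nat_lit 2449) (.e (nat_lit 163900) (nat_lit 12) (.e (nat_lit 426568) (nat_lit 34) (.e (nat_lit 393294) (nat_lit 26) (.e (nat_lit 475177) (nat_lit 24) (.e (nat_lit 516120) (nat_lit 1) .nil))))) .nil)))) (.nd (nat_lit 5) (.nd (nat_lit 6) 
(.lf (nat_lit 252695) (.g (nat_lit 1664) (.e (nat_lit 163886) (nat_lit 5) (.e (nat_lit 221208) (nat_lit 21) (.e (nat_lit 164330) (nat_lit 230) (.e (nat_lit 171776) (nat_lit 66) .nil)))) .nil)) 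
(.lf (nat_lit 252759) (.g (nat_lit 1636) (.e (nat_lit 163900) (nat_lit 12) (.e (nat_lit 426568) (nat_lit 34) (.e (nat_lit 393271) (nat_lit 23) (.e (nat_lit 426131) (nat_lit 3) .nil)))) .nil))) (.nd (nat_lit 6) 
(.lf (nat_lit 252727) (.g (nat_lit 1664) (.e (nat_lit 163896) (nat_lit 10) (.e (nat_lit 417536) (nat_lit 6) (.e (nat_lit 286748) (nat_lit 9) (.e (nat_lit 336295) (nat_lit 15) (.e (nat_lit 7936) (nat_lit 392) (.e (nat_lit 172070) (nat_lit 4) (.e (nat_lit 229678) (nat_lit 244) .nil))))))) (.g (nat_lit 4) .nil .nil))) 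
(.lf (nat_lit 252791) (.g (nat_lit 1512) (.e (nat_lit 163901) (nat_lit 12) (.e (nat_lit 426555) (nat_lit 32) (.e (nat_lit 376869) (nat_lit 23) (.e (nat_lit 98316) (nat_lit 9) .nil)))) .nil))))) (.nd (nat_lit 4) (.nd (nat_lit 5) (.nd (nat_lit 6) 
(.lf (nat_lit 252687) (.g (nat_lit 2930) (.e (nat_lit 163886) (nat_lit 5) (.e (nat_lit 221194) (nat_lit 11) (.e (nat_lit 336223) (nat_lit 13) (.e (nat_lit 393281) (nat_lit 23) (.e (nat_lit 426098) (nat_lit 1) (.e (nat_lit 164325) (nat_lit 230) .nil)))))) (.g (nat_lit 0) .nil .nil))) 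
(.lf (nat_lit 252751) (.g (nat_lit 2950) (.e (nat_lit 163900) (nat_lit 12) (.e (nat_lit 426566) (nat_lit 34) (.e (nat_lit 393268) (nat_lit 23) (.e (nat_lit 426436) (nat_lit 18) (.e (nat_lit 98334) (nat_lit 18) (.e (nat_lit 164330) (nat_lit 230) .nil)))))) (.g (nat_lit 0) .nil .nil)))) (.nd (nat_lit 6) 
(.lf (nat_lit 252719) (.g (nat_lit 2609) (.e (nat_lit 163896) (nat_lit 10) (.e (nat_lit 409602) (nat_lit 0) (.e (nat_lit 5293) (nat_lit 298) (.e (nat_lit 1656) (nat_lit 115) (.e (nat_lit 393267) (nat_lit 23) (.e (nat_lit 426148) (nat_lit 4) (.e (nat_lit 229678) (nat_lit 244) .nil))))))) (.g (nat_lit 4) .nil .nil))) 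
(.lf (nat_lit 252783) (.g (nat_lit 1309) (.e (nat_lit 163901) (nat_lit 12) (.e (nat_lit 426428) (nat_lit 17) (.e (nat_lit 90185) (nat_lit 17) (.e (nat_lit 237621) (nat_lit 13) .nil)))) .nil)))) (.nd (nat_lit 5) (.nd (nat_lit 6) 
(.lf (nat_lit 252703) (.g (nat_lit 3208) (.e (nat_lit 163891) (nat_lit 8) (.e (nat_lit 253992) (nat_lit 11) (.e (nat_lit 16425) (nat_lit 7) (.e (nat_lit 409649) (nat_lit 18) (.e (nat_lit 303132) (nat_lit 9) .nil))))) .nil)) 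
(.lf (nat_lit 252767) (.g (nat_lit 672) (.e (nat_lit 163900) (nat_lit 12) (.e (nat_lit 426568) (nat_lit 34) (.e (nat_lit 393279) (nat_lit 23) .nil))) .nil))) (.nd (nat_lit 6) 
(.lf (nat_lit 252735) (.g (nat_lit 871) (.e (nat_lit 163896) (nat_lit 10) (.e (nat_lit 409616) (nat_lit 10) (.e (nat_lit 5770) (nat_lit 316) .nil))) .nil)) 
(.lf (nat_lit 252799) (.g (nat_lit 2010) (.e (nat_lit 163901) (nat_lit 12) (.e (nat_lit 426566) (nat_lit 34) (.e (nat_lit 393290) (nat_lit 26) (.e (nat_lit 475179) (nat_lit 24) (.e (nat_lit 516117) (nat_lit 1) .nil))))) .nil)))))))))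

noncomputable def tv3279 : DT := (.nd (nat_lit 0) (.nd (nat_lit 1) (.nd (nat_lit 2) (.nd (nat_lit 3) (.nd (nat_lit 4) (.nd (nat_lit 5) (.nd (nat_lit 6) 
(.lf (nat_lit 252800) (.g (nat_lit 2109) (.e (nat_lit 163901) (nat_lit 12) (.e (nat_lit 426566) (nat_lit 34) (.e (nat_lit 393290) (nat_lit 26) (.e (nat_lit 475179) (nat_lit 24) (.e (nat_lit 516119) (nat_lit 1) (.e (nat_lit 164325) (nat_lit 230) .nil)))))) (.g (nat_lit 4) .nil .nil))) 
(.lf (nat_lit 252864) (.g (nat_lit 1380) (.e (nat_lit 163902) (nat_lit 12) (.e (nat_lit 426428) (nat_lit 17) (.e (nat_lit 90170) (nat_lit 13) (.e (nat_lit 172079) (nat_lit 7) .nil)))) .nil))) (.nd (nat_lit 6) 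
(.lf (nat_lit 252832) (.g (nat_lit 3361) (.e (nat_lit 163902) (nat_lit 12) (.e (nat_lit 426131) (nat_lit 3) (.e (nat_lit 204855) (nat_lit 26) (.e (nat_lit 336176) (nat_lit 10) (.e (nat_lit 344133) (nat_lit 26) (.e (nat_lit 557091) (nat_lit 12) (.e (nat_lit 163847) (nat_lit 0) (.e (nat_lit 6420) (nat_lit 341) .nil)))))))) (.g (nat_lit 4) .nil .nil))) 
(.lf (nat_lit 252896) (.g (nat_lit 2903) (.e (nat_lit 163902) (nat_lit 12) (.e (nat_lit 426448) (nat_lit 20) (.e (nat_lit 114710) (nat_lit 21) (.e (nat_lit 57851) (nat_lit 252) (.e (nat_lit 57427) (nat_lit 15) (.e (nat_lit 360450) (nat_lit 0) (.e (nat_lit 6940) (nat_lit 375) .nil))))))) (.g (nat_lit 4) .nil .nil))))) (.nd (nat_lit 5) (.nd (nat_lit 6) 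
(.lf (nat_lit 252816) (.g (nat_lit 2968) (.e (nat_lit 163902) (nat_lit 12) (.e (nat_lit 426130) (nat_lit 3) (.e (nat_lit 204868) (nat_lit 29) (.e (nat_lit 360473) (nat_lit 8) (.e (nat_lit 557089) (nat_lit 12) (.e (nat_lit 163844) (nat_lit 0) (.e (nat_lit 6420) (nat_lit 341) .nil))))))) (.g (nat_lit 5) .nil .nil))) 
(.lf (nat_lit 252880) (.g (nat_lit 1994) (.e (nat_lit 163902) (nat_lit 12) (.e (nat_lit 426428) (nat_lit 17) (.e (nat_lit 90170) (nat_lit 13) (.e (nat_lit 172113) (nat_lit 10) (.e (nat_lit 434207) (nat_lit 18) (.e (nat_lit 6841) (nat_lit 369) (.e (nat_lit 163862) (nat_lit 1) (.e (nat_lit 164332) (nat_lit 230) .nil)))))))) (.g (nat_lit 4) .nil .nil)))) (.nd (nat_lit 6) 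
(.lf (nat_lit 252848) (.g (nat_lit 4831) (.e (nat_lit 163902) (nat_lit 12) (.e (nat_lit 426131) (nat_lit 3) (.e (nat_lit 204869) (nat_lit 29) (.e (nat_lit 360475) (nat_lit 8) (.e (nat_lit 557089) (nat_lit 12) .nil))))) .nil)) 
(.lf (nat_lit 252912) (.g (nat_lit 2922) (.e (nat_lit 163902) (nat_lit 12) (.e (nat_lit 426472) (nat_lit 25) (.e (nat_lit 319533) (nat_lit 16) (.e (nat_lit 286760) (nat_lit 13) (.e (nat_lit 401152) (nat_lit 1) (.e (nat_lit 57688) (nat_lit 156) .nil)))))) (.g (nat_lit 4) .nil .nil)))))) (.nd (nat_lit 4) (.nd (nat_lit 5) (.nd (nat_lit 6) 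
(.lf (nat_lit 252808) (.g (nat_lit 3019) (.e (nat_lit 163901) (nat_lit 12) (.e (nat_lit 426568) (nat_lit 34) (.e (nat_lit 393271) (nat_lit 23) (.e (nat_lit 426436) (nat_lit 18) (.e (nat_lit 98335) (nat_lit 18) .nil))))) .nil)) 
(.lf (nat_lit 252872) (.g (nat_lit 3403) (.e (nat_lit 163902) (nat_lit 12) (.e (nat_lit 426428) (nat_lit 17) (.e (nat_lit 90170) (nat_lit 13) (.e (nat_lit 172106) (nat_lit 10) (.e (nat_lit 434202) (nat_lit 18) (.e (nat_lit 6839) (nat_lit 369) (.e (nat_lit 163860) (nat_lit 1) (.e (nat_lit 164330) (nat_lit 230) .nil)))))))) (.g (nat_lit 4) .nil .nil)))) (.nd (nat_lit 6) 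
(.lf (nat_lit 252840) (.g (nat_lit 4949) (.e (nat_lit 163902) (nat_lit 12) (.e (nat_lit 426131) (nat_lit 3) (.e (nat_lit 204868) (nat_lit 29) (.e (nat_lit 360475) (nat_lit 8) (.e (nat_lit 557091) (nat_lit 12) (.e (nat_lit 163847) (nat_lit 0) (.e (nat_lit 6420) (nat_lit 341) .nil))))))) (.g (nat_lit 5) .nil .nil))) 
(.lf (nat_lit 252904) (.g (nat_lit 2845) (.e (nat_lit 163902) (nat_lit 12) (.e (nat_lit 426472) (nat_lit 25) (.e (nat_lit 319530) (nat_lit 16) (.e (nat_lit 286735) (nat_lit 3) (.e (nat_lit 98342) (nat_lit 20) (.e (nat_lit 229120) (nat_lit 1) (.e (nat_lit 57931) (nat_lit 282) .nil))))))) (.g (nat_lit 5) .nil .nil))))) (.nd (nat_lit 5) (.nd (nat_lit 6) 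
(.lf (nat_lit 252824) (.g (nat_lit 4382) (.e (nat_lit 163902) (nat_lit 12) (.e (nat_lit 426130) (nat_lit 3) (.e (nat_lit 204869) (nat_lit 29) (.e (nat_lit 360475) (nat_lit 8) (.e (nat_lit 557089) (nat_lit 12) (.e (nat_lit 163849) (nat_lit 0) (.e (nat_lit 6416) (nat_lit 341) .nil))))))) (.g (nat_lit 4) .nil .nil))) 
(.lf (nat_lit 252888) (.g (nat_lit 2408) (.e (nat_lit 163902) (nat_lit 12) (.e (nat_lit 426428) (nat_lit 17) (.e (nat_lit 90174) (nat_lit 14) (.e (nat_lit 180243) (nat_lit 5) (.e (nat_lit 532513) (nat_lit 3) (.e (nat_lit 114710) (nat_lit 21) (.e (nat_lit 65280) (nat_lit 144) .nil))))))) (.g (nat_lit 4) .nil .nil)))) (.nd (nat_lit 6) 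
(.lf (nat_lit 252856) (.g (nat_lit 2122) (.e (nat_lit 163902) (nat_lit 12) (.e (nat_lit 433920) (nat_lit 3) (.e (nat_lit 204869) (nat_lit 29) (.e (nat_lit 360474) (nat_lit 8) (.e (nat_lit 557093) (nat_lit 12) (.e (nat_lit 163849) (nat_lit 0) (.e (nat_lit 6420) (nat_lit 341) .nil))))))) (.g (nat_lit 4) .nil .nil))) 
(.lf (nat_lit 252920) (.g (nat_lit 1363) (.e (nat_lit 163902) (nat_lit 12) (.e (nat_lit 426545) (nat_lit 30) (.e (nat_lit 360475) (nat_lit 8) (.e (nat_lit 564992) (nat_lit 5) .nil)))) .nil)))))) (.nd (nat_lit 3) (.nd (nat_lit 4) (.nd (nat_lit 5) (.nd (nat_lit 6) 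
(.lf (nat_lit 252804) (.g (nat_lit 1862) (.e (nat_lit 163901) (nat_lit 12) (.e (nat_lit 426566) (nat_lit 34) (.e (nat_lit 393295) (nat_lit 26) (.e (nat_lit 475177) (nat_lit 24) (.e (nat_lit 516120) (nat_lit 1) .nil))))) .nil)) 
(.lf (nat_lit 252868) (.g (nat_lit 2753) (.e (nat_lit 163902) (nat_lit 12) (.e (nat_lit 426428) (nat_lit 17) (.e (nat_lit 90170) (nat_lit 13) (.e (nat_lit 172106) (nat_lit 10) (.e (nat_lit 434200) (nat_lit 18) .nil))))) .nil))) (.nd (nat_lit 6) 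
(.lf (nat_lit 252836) (.g (nat_lit 4982) (.e (nat_lit 163902) (nat_lit 12) (.e (nat_lit 426131) (nat_lit 3) (.e (nat_lit 204868) (nat_lit 29) (.e (nat_lit 360475) (nat_lit 8) (.e (nat_lit 557089) (nat_lit 12) (.e (nat_lit 163844) (nat_lit 0) (.e (nat_lit 6420) (nat_lit 341) .nil))))))) (.g (nat_lit 5) .nil .nil))) 
(.lf (nat_lit 252900) (.g (nat_lit 2435) (.e (nat_lit 163902) (nat_lit 12) (.e (nat_lit 426448) (nat_lit 20) (.e (nat_lit 114710) (nat_lit 21) (.e (nat_lit 57853) (nat_lit 252) (.e (nat_lit 57427) (nat_lit 15) .nil))))) .nil)))) (.nd (nat_lit 5) (.nd (nat_lit 6) 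
(.lf (nat_lit 252820) (.g (nat_lit 2373) (.e (nat_lit 163902) (nat_lit 12) (.e (nat_lit 426130) (nat_lit 3) (.e (nat_lit 204868) (nat_lit 29) (.e (nat_lit 360473) (nat_lit 8) (.e (nat_lit 557094) (nat_lit 12) (.e (nat_lit 163849) (nat_lit 0) (.e (nat_lit 6420) (nat_lit 341) .nil))))))) (.g (nat_lit 4) .nil .nil))) 
(.lf (nat_lit 252884) (.g (nat_lit 4707) (.e (nat_lit 163902) (nat_lit 12) (.e (nat_lit 426428) (nat_lit 17) (.e (nat_lit 90170) (nat_lit 13) (.e (nat_lit 172126) (nat_lit 14) (.e (nat_lit 491584) (nat_lit 28) (.e (nat_lit 434208) (nat_lit 18) (.e (nat_lit 6420) (nat_lit 341) .nil))))))) (.g (nat_lit 0) .nil .nil)))) (.nd (nat_lit 6) 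
(.lf (nat_lit 252852) (.g (nat_lit 4803) (.e (nat_lit 163902) (nat_lit 12) (.e (nat_lit 426131) (nat_lit 3) (.e (nat_lit 204869) (nat_lit 29) (.e (nat_lit 360475) (nat_lit 8) (.e (nat_lit 557091) (nat_lit 12) .nil))))) .nil)) 
(.lf (nat_lit 252916) (.g (nat_lit 1851) (.e (nat_lit 163902) (nat_lit 12) (.e (nat_lit 426491) (nat_lit 27) (.e (nat_lit 336409) (nat_lit 27) (.e (nat_lit 426198) (nat_lit 9) (.e (nat_lit 426436) (nat_lit 18) (.e (nat_lit 98335) (nat_lit 18) (.e (nat_lit 164329) (nat_lit 230) .nil))))))) (.g (nat_lit 4) .nil .nil)))))) (.nd (nat_lit 4) (.nd (nat_lit 5) (.nd (nat_lit 6) 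
(.lf (nat_lit 252812) (.g (nat_lit 878) (.e (nat_lit 163901) (nat_lit 12) (.e (nat_lit 426568) (nat_lit 34) (.e (nat_lit 393287) (nat_lit 25) (.e (nat_lit 458789) (nat_lit 23) .nil)))) .nil)) 
(.lf (nat_lit 252876) (.g (nat_lit 1952) (.e (nat_lit 163902) (nat_lit 12) (.e (nat_lit 426428) (nat_lit 17) (.e (nat_lit 90170) (nat_lit 13) (.e (nat_lit 172113) (nat_lit 10) (.e (nat_lit 434199) (nat_lit 18) .nil))))) .nil))) (.nd (nat_lit 6) 
(.lf (nat_lit 252844) (.g (nat_lit 5406) (.e (nat_lit 163902) (nat_lit 12) (.e (nat_lit 426131) (nat_lit 3) (.e (nat_lit 204869) (nat_lit 29) (.e (nat_lit 360474) (nat_lit 8) (.e (nat_lit 557091) (nat_lit 12) (.e (nat_lit 163843) (nat_lit 0) (.e (nat_lit 6420) (nat_lit 341) .nil))))))) (.g (nat_lit 4) .nil .nil))) 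
(.lf (nat_lit 252908) (.g (nat_lit 3303) (.e (nat_lit 163902) (nat_lit 12) (.e (nat_lit 426472) (nat_lit 25) (.e (nat_lit 319531) (nat_lit 16) (.e (nat_lit 286735) (nat_lit 3) (.e (nat_lit 98342) (nat_lit 20) (.e (nat_lit 229120) (nat_lit 1) (.e (nat_lit 57931) (nat_lit 282) .nil))))))) (.g (nat_lit 5) .nil .nil))))) (.nd (nat_lit 5) (.nd (nat_lit 6) 
(.lf (nat_lit 252828) (.g (nat_lit 3206) (.e (nat_lit 163902) (nat_lit 12) (.e (nat_lit 426131) (nat_lit 3) (.e (nat_lit 204855) (nat_lit 26) (.e (nat_lit 336176) (nat_lit 10) (.e (nat_lit 344133) (nat_lit 26) (.e (nat_lit 557089) (nat_lit 12) (.e (nat_lit 163844) (nat_lit 0) (.e (nat_lit 6420) (nat_lit 341) .nil)))))))) (.g (nat_lit 4) .nil .nil))) 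
(.lf (nat_lit 252892) (.g (nat_lit 1123) (.e (nat_lit 163902) (nat_lit 12) (.e (nat_lit 426428) (nat_lit 17) (.e (nat_lit 90174) (nat_lit 14) (.e (nat_lit 180275) (nat_lit 32) .nil)))) .nil))) (.nd (nat_lit 6) 
(.lf (nat_lit 252860) (.g (nat_lit 3023) (.e (nat_lit 163902) (nat_lit 12) (.e (nat_lit 426233) (nat_lit 9) (.e (nat_lit 426525) (nat_lit 27) (.e (nat_lit 336231) (nat_lit 14) (.e (nat_lit 401448) (nat_lit 10) (.e (nat_lit 434202) (nat_lit 18) (.e (nat_lit 6420) (nat_lit 341) .nil))))))) (.g (nat_lit 5) .nil .nil))) 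
(.lf (nat_lit 252924) (.g (nat_lit 2312) (.e (nat_lit 163902) (nat_lit 12) (.e (nat_lit 426555) (nat_lit 32) (.e (nat_lit 376865) (nat_lit 22) (.e (nat_lit 90160) (nat_lit 11) (.e (nat_lit 24596) (nat_lit 1) .nil))))) .nil))))))) (.nd (nat_lit 2) (.nd (nat_lit 3) (.nd (nat_lit 4) (.nd (nat_lit 5) (.nd (nat_lit 6) 
(.lf (nat_lit 252802) (.g (nat_lit 1122) (.e (nat_lit 163901) (nat_lit 12) (.e (nat_lit 426566) (nat_lit 34) (.e (nat_lit 393295) (nat_lit 26) (.e (nat_lit 475177) (nat_lit 24) .nil)))) .nil)) 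
(.lf (nat_lit 252866) (.g (nat_lit 1685) (.e (nat_lit 163902) (nat_lit 12) (.e (nat_lit 426428) (nat_lit 17) (.e (nat_lit 90170) (nat_lit 13) (.e (nat_lit 172092) (nat_lit 9) .nil)))) .nil))) (.nd (nat_lit 6) 
(.lf (nat_lit 252834) (.g (nat_lit 3781) (.e (nat_lit 163902) (nat_lit 12) (.e (nat_lit 426131) (nat_lit 3) (.e (nat_lit 204868) (nat_lit 29) (.e (nat_lit 360473) (nat_lit 8) (.e (nat_lit 557091) (nat_lit 12) (.e (nat_lit 163844) (nat_lit 0) (.e (nat_lit 6420) (nat_lit 341) .nil))))))) (.g (nat_lit 5) .nil .nil))) 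
(.lf (nat_lit 252898) (.g (nat_lit 2886) (.e (nat_lit 163902) (nat_lit 12) (.e (nat_lit 426448) (nat_lit 20) (.e (nat_lit 114710) (nat_lit 21) (.e (nat_lit 57851) (nat_lit 252) (.e (nat_lit 57427) (nat_lit 15) (.e (nat_lit 360451) (nat_lit 0) (.e (nat_lit 6940) (nat_lit 375) .nil))))))) (.g (nat_lit 4) .nil .nil))))) (.nd (nat_lit 5) (.nd (nat_lit 6) 
(.lf (nat_lit 252818) (.g (nat_lit 2587) (.e (nat_lit 163902) (nat_lit 12) (.e (nat_lit 426130) (nat_lit 3) (.e (nat_lit 204868) (nat_lit 29) (.e (nat_lit 360473) (nat_lit 8) (.e (nat_lit 557093) (nat_lit 12) (.e (nat_lit 163849) (nat_lit 0) (.e (nat_lit 6420) (nat_lit 341) .nil))))))) (.g (nat_lit 4) .nil .nil))) 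
(.lf (nat_lit 252882) (.g (nat_lit 2392) (.e (nat_lit 163902) (nat_lit 12) (.e (nat_lit 426428) (nat_lit 17) (.e (nat_lit 90170) (nat_lit 13) (.e (nat_lit 172113) (nat_lit 10) (.e (nat_lit 434208) (nat_lit 18) (.e (nat_lit 6841) (nat_lit 369) (.e (nat_lit 163860) (nat_lit 1) (.e (nat_lit 164329) (nat_lit 230) .nil)))))))) (.g (nat_lit 4) .nil .nil)))) (.nd (nat_lit 6) 
(.lf (nat_lit 252850) (.g (nat_lit 5160) (.e (nat_lit 163902) (nat_lit 12) (.e (nat_lit 426131) (nat_lit 3) (.e (nat_lit 204869) (nat_lit 29) (.e (nat_lit 360475) (nat_lit 8) (.e (nat_lit 557089) (nat_lit 12) (.e (nat_lit 163848) (nat_lit 0) (.e (nat_lit 6416) (nat_lit 341) .nil))))))) (.g (nat_lit 4) .nil .nil))) 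
(.lf (nat_lit 252914) (.g (nat_lit 1496) (.e (nat_lit 163902) (nat_lit 12) (.e (nat_lit 426479) (nat_lit 27) (.e (nat_lit 336443) (nat_lit 32) (.e (nat_lit 466946) (nat_lit 0) .nil)))) .nil))))) (.nd (nat_lit 4) (.nd (nat_lit 5) (.nd (nat_lit 6) 
(.lf (nat_lit 252810) (.g (nat_lit 1448) (.e (nat_lit 163901) (nat_lit 12) (.e (nat_lit 426568) (nat_lit 34) (.e (nat_lit 393284) (nat_lit 24) (.e (nat_lit 434233) (nat_lit 23) .nil)))) .nil)) 
(.lf (nat_lit 252874) (.g (nat_lit 2992) (.e (nat_lit 163902) (nat_lit 12) (.e (nat_lit 426428) (nat_lit 17) (.e (nat_lit 90170) (nat_lit 13) (.e (nat_lit 172106) (nat_lit 10) (.e (nat_lit 434202) (nat_lit 18) (.e (nat_lit 6841) (nat_lit 369) (.e (nat_lit 163862) (nat_lit 1) (.e (nat_lit 164329) (nat_lit 230) .nil)))))))) (.g (nat_lit 4) .nil .nil)))) (.nd (nat_lit 6) 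
(.lf (nat_lit 252842) (.g (nat_lit 4757) (.e (nat_lit 163902) (nat_lit 12) (.e (nat_lit 426131) (nat_lit 3) (.e (nat_lit 204869) (nat_lit 29) (.e (nat_lit 360474) (nat_lit 8) (.e (nat_lit 557089) (nat_lit 12) (.e (nat_lit 163843) (nat_lit 0) (.e (nat_lit 6420) (nat_lit 341) .nil))))))) (.g (nat_lit 4) .nil .nil))) 
(.lf (nat_lit 252906) (.g (nat_lit 2782) (.e (nat_lit 163902) (nat_lit 12) (.e (nat_lit 426472) (nat_lit 25) (.e (nat_lit 319530) (nat_lit 16) (.e (nat_lit 286761) (nat_lit 13) (.e (nat_lit 393237) (nat_lit 17) (.e (nat_lit 2418) (nat_lit 157) (.e (nat_lit 4541) (nat_lit 267) .nil))))))) (.g (nat_lit 5) .nil .nil))))) (.nd (nat_lit 5) (.nd (nat_lit 6) 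
(.lf (nat_lit 252826) (.g (nat_lit 3378) (.e (nat_lit 163902) (nat_lit 12) (.e (nat_lit 426131) (nat_lit 3) (.e (nat_lit 204855) (nat_lit 26) (.e (nat_lit 336176) (nat_lit 10) (.e (nat_lit 344130) (nat_lit 26) (.e (nat_lit 557090) (nat_lit 12) (.e (nat_lit 163847) (nat_lit 0) (.e (nat_lit 6420) (nat_lit 341) .nil)))))))) (.g (nat_lit 4) .nil .nil))) 
(.lf (nat_lit 252890) (.g (nat_lit 3767) (.e (nat_lit 163902) (nat_lit 12) (.e (nat_lit 426428) (nat_lit 17) (.e (nat_lit 90174) (nat_lit 14) (.e (nat_lit 180250) (nat_lit 10) (.e (nat_lit 573489) (nat_lit 14) (.e (nat_lit 73731) (nat_lit 0) (.e (nat_lit 7936) (nat_lit 255) .nil))))))) (.g (nat_lit 6) .nil .nil)))) (.nd (nat_lit 6) 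
(.lf (nat_lit 252858) (.g (nat_lit 3103) (.e (nat_lit 163902) (nat_lit 12) (.e (nat_lit 426233) (nat_lit 9) (.e (nat_lit 426525) (nat_lit 27) (.e (nat_lit 336231) (nat_lit 14) (.e (nat_lit 401446) (nat_lit 10) (.e (nat_lit 434203) (nat_lit 18) (.e (nat_lit 6420) (nat_lit 341) .nil))))))) (.g (nat_lit 5) .nil .nil))) 
(.lf (nat_lit 252922) (.g (nat_lit 1016) (.e (nat_lit 163902) (nat_lit 12) (.e (nat_lit 426546) (nat_lit 30) (.e (nat_lit 360466) (nat_lit 3) (.e (nat_lit 516198) (nat_lit 26) .nil)))) .nil)))))) (.nd (nat_lit 3) (.nd (nat_lit 4) (.nd (nat_lit 5) (.nd (nat_lit 6) 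
(.lf (nat_lit 252806) (.g (nat_lit 2106) (.e (nat_lit 163901) (nat_lit 12) (.e (nat_lit 426568) (nat_lit 34) (.e (nat_lit 393271) (nat_lit 23) (.e (nat_lit 426131) (nat_lit 3) (.e (nat_lit 204831) (nat_lit 18) .nil))))) .nil)) 
(.lf (nat_lit 252870) (.g (nat_lit 3226) (.e (nat_lit 163902) (nat_lit 12) (.e (nat_lit 426428) (nat_lit 17) (.e (nat_lit 90170) (nat_lit 13) (.e (nat_lit 172106) (nat_lit 10) (.e (nat_lit 434200) (nat_lit 18) (.e (nat_lit 6839) (nat_lit 369) (.e (nat_lit 163864) (nat_lit 1) (.e (nat_lit 164330) (nat_lit 230) .nil)))))))) (.g (nat_lit 4) .nil .nil)))) (.nd (nat_lit 6) 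
(.lf (nat_lit 252838) (.g (nat_lit 4179) (.e (nat_lit 163902) (nat_lit 12) (.e (nat_lit 426131) (nat_lit 3) (.e (nat_lit 204868) (nat_lit 29) (.e (nat_lit 360475) (nat_lit 8) (.e (nat_lit 557091) (nat_lit 12) (.e (nat_lit 163843) (nat_lit 0) (.e (nat_lit 6416) (nat_lit 341) .nil))))))) (.g (nat_lit 4) .nil .nil))) 
(.lf (nat_lit 252902) (.g (nat_lit 2684) (.e (nat_lit 163902) (nat_lit 12) (.e (nat_lit 426448) (nat_lit 20) (.e (nat_lit 114711) (nat_lit 21) (.e (nat_lit 57847) (nat_lit 252) (.e (nat_lit 57427) (nat_lit 15) .nil))))) .nil)))) (.nd (nat_lit 5) (.nd (nat_lit 6) 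
(.lf (nat_lit 252822) (.g (nat_lit 3996) (.e (nat_lit 163902) (nat_lit 12) (.e (nat_lit 426130) (nat_lit 3) (.e (nat_lit 204869) (nat_lit 29) (.e (nat_lit 360474) (nat_lit 8) (.e (nat_lit 557093) (nat_lit 12) (.e (nat_lit 163847) (nat_lit 0) (.e (nat_lit 6420) (nat_lit 341) .nil))))))) (.g (nat_lit 4) .nil .nil))) 
(.lf (nat_lit 252886) (.g (nat_lit 1934) (.e (nat_lit 163902) (nat_lit 12) (.e (nat_lit 426428) (nat_lit 17) (.e (nat_lit 90172) (nat_lit 14) (.e (nat_lit 180278) (nat_lit 32) (.e (nat_lit 444) (nat_lit 33) .nil))))) .nil))) (.nd (nat_lit 6) 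
(.lf (nat_lit 252854) (.g (nat_lit 5202) (.e (nat_lit 163902) (nat_lit 12) (.e (nat_lit 426131) (nat_lit 3) (.e (nat_lit 204869) (nat_lit 29) (.e (nat_lit 360475) (nat_lit 8) (.e (nat_lit 557091) (nat_lit 12) (.e (nat_lit 163844) (nat_lit 0) (.e (nat_lit 6416) (nat_lit 341) .nil))))))) (.g (nat_lit 4) .nil .nil))) 
(.lf (nat_lit 252918) (.g (nat_lit 3936) (.e (nat_lit 163902) (nat_lit 12) (.e (nat_lit 426506) (nat_lit 27) (.e (nat_lit 336178) (nat_lit 10) (.e (nat_lit 344117) (nat_lit 21) (.e (nat_lit 516195) (nat_lit 26) (.e (nat_lit 335995) (nat_lit 1) (.e (nat_lit 57931) (nat_lit 282) .nil))))))) (.g (nat_lit 0) .nil .nil)))))) (.nd (nat_lit 4) (.nd (nat_lit 5) (.nd (nat_lit 6) 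
(.lf (nat_lit 252814) (.g (nat_lit 2395) (.e (nat_lit 163902) (nat_lit 12) (.e (nat_lit 426130) (nat_lit 3) (.e (nat_lit 204855) (nat_lit 26) (.e (nat_lit 336176) (nat_lit 10) (.e (nat_lit 344130) (nat_lit 26) (.e (nat_lit 557090) (nat_lit 12) (.e (nat_lit 163844) (nat_lit 0) (.e (nat_lit 6420) (nat_lit 341) .nil)))))))) (.g (nat_lit 4) .nil .nil))) 
(.lf (nat_lit 252878) (.g (nat_lit 2198) (.e (nat_lit 163902) (nat_lit 12) (.e (nat_lit 426428) (nat_lit 17) (.e (nat_lit 90170) (nat_lit 13) (.e (nat_lit 172113) (nat_lit 10) (.e (nat_lit 434201) (nat_lit 18) (.e (nat_lit 6837) (nat_lit 369) (.e (nat_lit 163864) (nat_lit 1) (.e (nat_lit 164332) (nat_lit 230) .nil)))))))) (.g (nat_lit 4) .nil .nil)))) (.nd (nat_lit 6) 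
(.lf (nat_lit 252846) (.g (nat_lit 4768) (.e (nat_lit 163902) (nat_lit 12) (.e (nat_lit 426131) (nat_lit 3) (.e (nat_lit 204869) (nat_lit 29) (.e (nat_lit 360474) (nat_lit 8) (.e (nat_lit 557093) (nat_lit 12) (.e (nat_lit 163847) (nat_lit 0) (.e (nat_lit 6420) (nat_lit 341) .nil))))))) (.g (nat_lit 4) .nil .nil))) 
(.lf (nat_lit 252910) (.g (nat_lit 3179) (.e (nat_lit 163902) (nat_lit 12) (.e (nat_lit 426472) (nat_lit 25) (.e (nat_lit 319531) (nat_lit 16) (.e (nat_lit 286761) (nat_lit 13) (.e (nat_lit 401152) (nat_lit 1) (.e (nat_lit 57688) (nat_lit 156) .nil)))))) (.g (nat_lit 4) .nil .nil))))) (.nd (nat_lit 5) (.nd (nat_lit 6) 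
(.lf (nat_lit 252830) (.g (nat_lit 4101) (.e (nat_lit 163902) (nat_lit 12) (.e (nat_lit 426131) (nat_lit 3) (.e (nat_lit 204855) (nat_lit 26) (.e (nat_lit 336176) (nat_lit 10) (.e (nat_lit 344133) (nat_lit 26) (.e (nat_lit 557091) (nat_lit 12) (.e (nat_lit 163843) (nat_lit 0) (.e (nat_lit 6420) (nat_lit 341) .nil)))))))) (.g (nat_lit 5) .nil .nil))) 
(.lf (nat_lit 252894) (.g (nat_lit 1690) (.e (nat_lit 163902) (nat_lit 12) (.e (nat_lit 426428) (nat_lit 17) (.e (nat_lit 90185) (nat_lit 17) (.e (nat_lit 237622) (nat_lit 13) .nil)))) .nil))) (.nd (nat_lit 6) 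
(.lf (nat_lit 252862) (.g (nat_lit 1912) (.e (nat_lit 163902) (nat_lit 12) (.e (nat_lit 426427) (nat_lit 17) (.e (nat_lit 90170) (nat_lit 13) (.e (nat_lit 172123) (nat_lit 13) (.e (nat_lit 483363) (nat_lit 18) (.e (nat_lit 57686) (nat_lit 156) .nil)))))) (.g (nat_lit 4) .nil .nil))) 
(.lf (nat_lit 252926) (.g (nat_lit 3037) (.e (nat_lit 163902) (nat_lit 12) (.e (nat_lit 426564) (nat_lit 34) (.e (nat_lit 393271) (nat_lit 23) (.e (nat_lit 426436) (nat_lit 18) (.e (nat_lit 98334) (nat_lit 18) (.e (nat_lit 164330) (nat_lit 230) .nil)))))) (.g (nat_lit 4) .nil .nil))))))))) (.nd (nat_lit 1) (.nd (nat_lit 2) (.nd (nat_lit 3) (.nd (nat_lit 4) (.nd (nat_lit 5) (.nd (nat_lit 6) 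
(.lf (nat_lit 252801) (.g (nat_lit 907) (.e (nat_lit 163901) (nat_lit 12) (.e (nat_lit 426566) (nat_lit 34) (.e (nat_lit 393293) (nat_lit 26) (.e (nat_lit 475177) (nat_lit 24) .nil)))) .nil)) 
(.lf (nat_lit 252865) (.g (nat_lit 2012) (.e (nat_lit 163902) (nat_lit 12) (.e (nat_lit 426428) (nat_lit 17) (.e (nat_lit 90170) (nat_lit 13) (.e (nat_lit 172082) (nat_lit 7) (.e (nat_lit 409612) (nat_lit 10) .nil))))) .nil))) (.nd (nat_lit 6) 
(.lf (nat_lit 252833) (.g (nat_lit 4536) (.e (nat_lit 163902) (nat_lit 12) (.e (nat_lit 426131) (nat_lit 3) (.e (nat_lit 204868) (nat_lit 29) (.e (nat_lit 360473) (nat_lit 8) (.e (nat_lit 557091) (nat_lit 12) (.e (nat_lit 163843) (nat_lit 0) (.e (nat_lit 6420) (nat_lit 341) .nil))))))) (.g (nat_lit 6) .nil .nil))) 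
(.lf (nat_lit 252897) (.g (nat_lit 3543) (.e (nat_lit 163902) (nat_lit 12) (.e (nat_lit 426448) (nat_lit 20) (.e (nat_lit 114710) (nat_lit 21) (.e (nat_lit 57851) (nat_lit 252) (.e (nat_lit 57427) (nat_lit 15) (.e (nat_lit 360451) (nat_lit 0) (.e (nat_lit 6938) (nat_lit 375) .nil))))))) (.g (nat_lit 5) .nil .nil))))) (.nd (nat_lit 5) (.nd (nat_lit 6) 
(.lf (nat_lit 252817) (.g (nat_lit 3492) (.e (nat_lit 163902) (nat_lit 12) (.e (nat_lit 426130) (nat_lit 3) (.e (nat_lit 204868) (nat_lit 29) (.e (nat_lit 360473) (nat_lit 8) (.e (nat_lit 557091) (nat_lit 12) (.e (nat_lit 163843) (nat_lit 0) (.e (nat_lit 6420) (nat_lit 341) .nil))))))) (.g (nat_lit 5) .nil .nil))) 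
(.lf (nat_lit 252881) (.g (nat_lit 1907) (.e (nat_lit 163902) (nat_lit 12) (.e (nat_lit 426428) (nat_lit 17) (.e (nat_lit 90170) (nat_lit 13) (.e (nat_lit 172113) (nat_lit 10) (.e (nat_lit 434208) (nat_lit 18) .nil))))) .nil))) (.nd (nat_lit 6) 
(.lf (nat_lit 252849) (.g (nat_lit 5422) (.e (nat_lit 163902) (nat_lit 12) (.e (nat_lit 426131) (nat_lit 3) (.e (nat_lit 204869) (nat_lit 29) (.e (nat_lit 360475) (nat_lit 8) (.e (nat_lit 557089) (nat_lit 12) (.e (nat_lit 163844) (nat_lit 0) (.e (nat_lit 6416) (nat_lit 341) .nil))))))) (.g (nat_lit 4) .nil .nil))) 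
(.lf (nat_lit 252913) (.g (nat_lit 2423) (.e (nat_lit 163902) (nat_lit 12) (.e (nat_lit 426472) (nat_lit 25) (.e (nat_lit 319534) (nat_lit 16) (.e (nat_lit 286728) (nat_lit 0) (.e (nat_lit 1858) (nat_lit 124) (.e (nat_lit 557101) (nat_lit 13) (.e (nat_lit 172068) (nat_lit 4) (.e (nat_lit 229680) (nat_lit 244) .nil)))))))) (.g (nat_lit 4) .nil .nil)))))) 
(.nd (nat_lit 4) (.nd (nat_lit 5) (.nd (nat_lit 6) 
(.lf (nat_lit 252809) (.g (nat_lit 1904) (.e (nat_lit 163901) (nat_lit 12) (.e (nat_lit 426568) (nat_lit 34) (.e (nat_lit 393281) (nat_lit 23) (.e (nat_lit 426133) (nat_lit 3) (.e (nat_lit 204829) (nat_lit 18) (.e (nat_lit 57688) (nat_lit 156) .nil)))))) (.g (nat_lit 4) .nil .nil))) 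
(.lf (nat_lit 252873) (.g (nat_lit 2965) (.e (nat_lit 163902) (nat_lit 12) (.e (nat_lit 426428) (nat_lit 17) (.e (nat_lit 90170) (nat_lit 13) (.e (nat_lit 172106) (nat_lit 10) (.e (nat_lit 434202) (nat_lit 18) (.e (nat_lit 6839) (nat_lit 369) (.e (nat_lit 163862) (nat_lit 1) (.e (nat_lit 164329) (nat_lit 230) .nil)))))))) (.g (nat_lit 4) .nil .nil)))) (.nd (nat_lit 6) 
(.lf (nat_lit 252841) (.g (nat_lit 4648) (.e (nat_lit 163902) (nat_lit 12) (.e (nat_lit 426131) (nat_lit 3) (.e (nat_lit 204869) (nat_lit 29) (.e (nat_lit 360474) (nat_lit 8) (.e (nat_lit 557089) (nat_lit 12) .nil))))) .nil)) 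
(.lf (nat_lit 252905) (.g (nat_lit 2633) (.e (nat_lit 163902) (nat_lit 12) (.e (nat_lit 426472) (nat_lit 25) (.e (nat_lit 319530) (nat_lit 16) (.e (nat_lit 286761) (nat_lit 13) (.e (nat_lit 401152) (nat_lit 1) (.e (nat_lit 57688) (nat_lit 156) .nil)))))) (.g (nat_lit 4) .nil .nil))))) (.nd (nat_lit 5) (.nd (nat_lit 6) 
(.lf (nat_lit 252825) (.g (nat_lit 5265) (.e (nat_lit 163902) (nat_lit 12) (.e (nat_lit 426130) (nat_lit 3) (.e (nat_lit 204869) (nat_lit 29) (.e (nat_lit 360475) (nat_lit 8) (.e (nat_lit 557091) (nat_lit 12) (.e (nat_lit 163849) (nat_lit 0) (.e (nat_lit 6420) (nat_lit 341) .nil))))))) (.g (nat_lit 5) .nil .nil))) 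
(.lf (nat_lit 252889) (.g (nat_lit 4102) (.e (nat_lit 163902) (nat_lit 12) (.e (nat_lit 426428) (nat_lit 17) (.e (nat_lit 90174) (nat_lit 14) (.e (nat_lit 180250) (nat_lit 10) (.e (nat_lit 573487) (nat_lit 14) (.e (nat_lit 73729) (nat_lit 0) (.e (nat_lit 7936) (nat_lit 255) .nil))))))) (.g (nat_lit 6) .nil .nil)))) (.nd (nat_lit 6) 
(.lf (nat_lit 252857) (.g (nat_lit 1918) (.e (nat_lit 163902) (nat_lit 12) (.e (nat_lit 433920) (nat_lit 3) (.e (nat_lit 204869) (nat_lit 29) (.e (nat_lit 360474) (nat_lit 8) (.e (nat_lit 557094) (nat_lit 12) (.e (nat_lit 163847) (nat_lit 0) (.e (nat_lit 6420) (nat_lit 341) .nil))))))) (.g (nat_lit 4) .nil .nil))) 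
(.lf (nat_lit 252921) (.g (nat_lit 2573) (.e (nat_lit 163902) (nat_lit 12) (.e (nat_lit 426545) (nat_lit 30) (.e (nat_lit 360475) (nat_lit 8) (.e (nat_lit 557119) (nat_lit 18) (.e (nat_lit 2787) (nat_lit 179) (.e (nat_lit 294925) (nat_lit 1) (.e (nat_lit 57931) (nat_lit 282) .nil))))))) (.g (nat_lit 4) .nil .nil))))))) (.nd (nat_lit 3) (.nd (nat_lit 4) (.nd (nat_lit 5) (.nd (nat_lit 6) 
(.lf (nat_lit 252805) (.g (nat_lit 818) (.e (nat_lit 163901) (nat_lit 12) (.e (nat_lit 426568) (nat_lit 34) (.e (nat_lit 393271) (nat_lit 23) .nil))) .nil)) 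
(.lf (nat_lit 252869) (.g (nat_lit 3463) (.e (nat_lit 163902) (nat_lit 12) (.e (nat_lit 426428) (nat_lit 17) (.e (nat_lit 90170) (nat_lit 13) (.e (nat_lit 172106) (nat_lit 10) (.e (nat_lit 434200) (nat_lit 18) (.e (nat_lit 6839) (nat_lit 369) (.e (nat_lit 163862) (nat_lit 1) (.e (nat_lit 164330) (nat_lit 230) .nil)))))))) (.g (nat_lit 4) .nil .nil)))) (.nd (nat_lit 6) 
(.lf (nat_lit 252837) (.g (nat_lit 4966) (.e (nat_lit 163902) (nat_lit 12) (.e (nat_lit 426131) (nat_lit 3) (.e (nat_lit 204868) (nat_lit 29) (.e (nat_lit 360475) (nat_lit 8) (.e (nat_lit 557089) (nat_lit 12) (.e (nat_lit 163849) (nat_lit 0) (.e (nat_lit 6420) (nat_lit 341) .nil))))))) (.g (nat_lit 5) .nil .nil))) 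
(.lf (nat_lit 252901) (.g (nat_lit 2487) (.e (nat_lit 163902) (nat_lit 12) (.e (nat_lit 426448) (nat_lit 20) (.e (nat_lit 114711) (nat_lit 21) (.e (nat_lit 57844) (nat_lit 252) (.e (nat_lit 57427) (nat_lit 15) .nil))))) .nil)))) (.nd (nat_lit 5) (.nd (nat_lit 6) 
(.lf (nat_lit 252821) (.g (nat_lit 3504) (.e (nat_lit 163902) (nat_lit 12) (.e (nat_lit 426130) (nat_lit 3) (.e (nat_lit 204869) (nat_lit 29) (.e (nat_lit 360474) (nat_lit 8) (.e (nat_lit 557093) (nat_lit 12) .nil))))) .nil)) 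
(.lf (nat_lit 252885) (.g (nat_lit 442) (.e (nat_lit 163902) (nat_lit 12) (.e (nat_lit 426428) (nat_lit 17) (.e (nat_lit 90172) (nat_lit 14) .nil))) .nil))) (.nd (nat_lit 6) 
(.lf (nat_lit 252853) (.g (nat_lit 4973) (.e (nat_lit 163902) (nat_lit 12) (.e (nat_lit 426131) (nat_lit 3) (.e (nat_lit 204869) (nat_lit 29) (.e (nat_lit 360475) (nat_lit 8) (.e (nat_lit 557091) (nat_lit 12) (.e (nat_lit 163843) (nat_lit 0) (.e (nat_lit 6421) (nat_lit 341) .nil))))))) (.g (nat_lit 4) .nil .nil))) 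
(.lf (nat_lit 252917) (.g (nat_lit 1977) (.e (nat_lit 163902) (nat_lit 12) (.e (nat_lit 426506) (nat_lit 27) (.e (nat_lit 336178) (nat_lit 10) (.e (nat_lit 344117) (nat_lit 21) (.e (nat_lit 516195) (nat_lit 26) (.e (nat_lit 335993) (nat_lit 1) (.e (nat_lit 57931) (nat_lit 282) .nil))))))) (.g (nat_lit 4) .nil .nil)))))) (.nd (nat_lit 4) (.nd (nat_lit 5) (.nd (nat_lit 6) 
(.lf (nat_lit 252813) (.g (nat_lit 1543) (.e (nat_lit 163901) (nat_lit 12) (.e (nat_lit 426568) (nat_lit 34) (.e (nat_lit 393294) (nat_lit 26) (.e (nat_lit 475177) (nat_lit 24) .nil)))) .nil)) 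
(.lf (nat_lit 252877) (.g (nat_lit 1992) (.e (nat_lit 163902) (nat_lit 12) (.e (nat_lit 426428) (nat_lit 17) (.e (nat_lit 90170) (nat_lit 13) (.e (nat_lit 172113) (nat_lit 10) (.e (nat_lit 434199) (nat_lit 18) (.e (nat_lit 6838) (nat_lit 369) (.e (nat_lit 163864) (nat_lit 1) (.e (nat_lit 164332) (nat_lit 230) .nil)))))))) (.g (nat_lit 4) .nil .nil)))) (.nd (nat_lit 6) 
(.lf (nat_lit 252845) (.g (nat_lit 4346) (.e (nat_lit 163902) (nat_lit 12) (.e (nat_lit 426131) (nat_lit 3) (.e (nat_lit 204869) (nat_lit 29) (.e (nat_lit 360474) (nat_lit 8) (.e (nat_lit 557093) (nat_lit 12) .nil))))) .nil)) 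
(.lf (nat_lit 252909) (.g (nat_lit 2541) (.e (nat_lit 163902) (nat_lit 12) (.e (nat_lit 426472) (nat_lit 25) (.e (nat_lit 319531) (nat_lit 16) (.e (nat_lit 286760) (nat_lit 13) (.e (nat_lit 401152) (nat_lit 1) (.e (nat_lit 57688) (nat_lit 156) .nil)))))) (.g (nat_lit 4) .nil .nil))))) (.nd (nat_lit 5) (.nd (nat_lit 6) 
(.lf (nat_lit 252829) (.g (nat_lit 3169) (.e (nat_lit 163902) (nat_lit 12) (.e (nat_lit 426131) (nat_lit 3) (.e (nat_lit 204855) (nat_lit 26) (.e (nat_lit 336176) (nat_lit 10) (.e (nat_lit 344133) (nat_lit 26) (.e (nat_lit 557089) (nat_lit 12) (.e (nat_lit 163849) (nat_lit 0) (.e (nat_lit 6420) (nat_lit 341) .nil)))))))) (.g (nat_lit 4) .nil .nil))) 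
(.lf (nat_lit 252893) (.g (nat_lit 1856) (.e (nat_lit 163902) (nat_lit 12) (.e (nat_lit 426428) (nat_lit 17) (.e (nat_lit 90174) (nat_lit 14) (.e (nat_lit 180277) (nat_lit 32) (.e (nat_lit 444) (nat_lit 33) .nil))))) .nil))) (.nd (nat_lit 6) 
(.lf (nat_lit 252861) (.g (nat_lit 2410) (.e (nat_lit 163902) (nat_lit 12) (.e (nat_lit 426254) (nat_lit 9) (.e (nat_lit 426503) (nat_lit 27) (.e (nat_lit 335894) (nat_lit 0) (.e (nat_lit 6724) (nat_lit 362) (.e (nat_lit 180225) (nat_lit 0) (.e (nat_lit 6420) (nat_lit 341) .nil))))))) (.g (nat_lit 4) .nil .nil))) 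
(.lf (nat_lit 252925) (.g (nat_lit 983) (.e (nat_lit 163902) (nat_lit 12) (.e (nat_lit 426555) (nat_lit 32) (.e (nat_lit 376869) (nat_lit 23) (.e (nat_lit 98316) (nat_lit 9) .nil)))) .nil))))))) (.nd (nat_lit 2) (.nd (nat_lit 3) (.nd (nat_lit 4) (.nd (nat_lit 5) (.nd (nat_lit 6) 
(.lf (nat_lit 252803) (.g (nat_lit 2011) (.e (nat_lit 163901) (nat_lit 12) (.e (nat_lit 426566) (nat_lit 34) (.e (nat_lit 393295) (nat_lit 26) (.e (nat_lit 475177) (nat_lit 24) (.e (nat_lit 516117) (nat_lit 1) (.e (nat_lit 164330) (nat_lit 230) .nil)))))) (.g (nat_lit 4) .nil .nil))) 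
(.lf (nat_lit 252867) (.g (nat_lit 2472) (.e (nat_lit 163902) (nat_lit 12) (.e (nat_lit 426428) (nat_lit 17) (.e (nat_lit 90170) (nat_lit 13) (.e (nat_lit 172095) (nat_lit 9) (.e (nat_lit 426513) (nat_lit 27) (.e (nat_lit 335995) (nat_lit 1) (.e (nat_lit 57687) (nat_lit 156) .nil))))))) (.g (nat_lit 4) .nil .nil)))) (.nd (nat_lit 6) 
(.lf (nat_lit 252835) (.g (nat_lit 2774) (.e (nat_lit 163902) (nat_lit 12) (.e (nat_lit 426131) (nat_lit 3) (.e (nat_lit 204868) (nat_lit 29) (.e (nat_lit 360473) (nat_lit 8) (.e (nat_lit 557093) (nat_lit 12) (.e (nat_lit 163847) (nat_lit 0) (.e (nat_lit 6420) (nat_lit 341) .nil))))))) (.g (nat_lit 4) .nil .nil))) 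
(.lf (nat_lit 252899) (.g (nat_lit 2734) (.e (nat_lit 163902) (nat_lit 12) (.e (nat_lit 426448) (nat_lit 20) (.e (nat_lit 114710) (nat_lit 21) (.e (nat_lit 57852) (nat_lit 252) (.e (nat_lit 57427) (nat_lit 15) .nil))))) .nil)))) (.nd (nat_lit 5) (.nd (nat_lit 6) 
(.lf (nat_lit 252819) (.g (nat_lit 2421) (.e (nat_lit 163902) (nat_lit 12) (.e (nat_lit 426130) (nat_lit 3) (.e (nat_lit 204868) (nat_lit 29) (.e (nat_lit 360473) (nat_lit 8) (.e (nat_lit 557094) (nat_lit 12) (.e (nat_lit 163847) (nat_lit 0) (.e (nat_lit 6420) (nat_lit 341) .nil))))))) (.g (nat_lit 4) .nil .nil))) 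
(.lf (nat_lit 252883) (.g (nat_lit 3348) (.e (nat_lit 163902) (nat_lit 12) (.e (nat_lit 426428) (nat_lit 17) (.e (nat_lit 90170) (nat_lit 13) (.e (nat_lit 172126) (nat_lit 14) (.e (nat_lit 491584) (nat_lit 28) (.e (nat_lit 434208) (nat_lit 18) (.e (nat_lit 6416) (nat_lit 341) .nil))))))) (.g (nat_lit 4) .nil .nil)))) (.nd (nat_lit 6) 
(.lf (nat_lit 252851) (.g (nat_lit 5272) (.e (nat_lit 163902) (nat_lit 12) (.e (nat_lit 426131) (nat_lit 3) (.e (nat_lit 204869) (nat_lit 29) (.e (nat_lit 360475) (nat_lit 8) (.e (nat_lit 557089) (nat_lit 12) (.e (nat_lit 163849) (nat_lit 0) (.e (nat_lit 6416) (nat_lit 341) .nil))))))) (.g (nat_lit 4) .nil .nil))) 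
(.lf (nat_lit 252915) (.g (nat_lit 1496) (.e (nat_lit 163902) (nat_lit 12) (.e (nat_lit 426479) (nat_lit 27) (.e (nat_lit 336443) (nat_lit 32) (.e (nat_lit 466949) (nat_lit 0) .nil)))) .nil))))) (.nd (nat_lit 4) (.nd (nat_lit 5) (.nd (nat_lit 6) 
(.lf (nat_lit 252811) (.g (nat_lit 840) (.e (nat_lit 163901) (nat_lit 12) (.e (nat_lit 426568) (nat_lit 34) (.e (nat_lit 393286) (nat_lit 25) (.e (nat_lit 458789) (nat_lit 23) .nil)))) .nil)) 
(.lf (nat_lit 252875) (.g (nat_lit 3829) (.e (nat_lit 163902) (nat_lit 12) (.e (nat_lit 426428) (nat_lit 17) (.e (nat_lit 90170) (nat_lit 13) (.e (nat_lit 172106) (nat_lit 10) (.e (nat_lit 434209) (nat_lit 18) (.e (nat_lit 7936) (nat_lit 369) (.e (nat_lit 163864) (nat_lit 1) (.e (nat_lit 164332) (nat_lit 230) .nil)))))))) (.g (nat_lit 5) .nil .nil)))) (.nd (nat_lit 6) 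
(.lf (nat_lit 252843) (.g (nat_lit 5098) (.e (nat_lit 163902) (nat_lit 12) (.e (nat_lit 426131) (nat_lit 3) (.e (nat_lit 204869) (nat_lit 29) (.e (nat_lit 360474) (nat_lit 8) (.e (nat_lit 557091) (nat_lit 12) .nil))))) .nil)) 
(.lf (nat_lit 252907) (.g (nat_lit 3162) (.e (nat_lit 163902) (nat_lit 12) (.e (nat_lit 426472) (nat_lit 25) (.e (nat_lit 319531) (nat_lit 16) (.e (nat_lit 286735) (nat_lit 3) (.e (nat_lit 98341) (nat_lit 20) (.e (nat_lit 229120) (nat_lit 1) (.e (nat_lit 57931) (nat_lit 282) .nil))))))) (.g (nat_lit 5) .nil .nil))))) (.nd (nat_lit 5) (.nd (nat_lit 6) 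
(.lf (nat_lit 252827) (.g (nat_lit 2622) (.e (nat_lit 163902) (nat_lit 12) (.e (nat_lit 426131) (nat_lit 3) (.e (nat_lit 204855) (nat_lit 26) (.e (nat_lit 336176) (nat_lit 10) (.e (nat_lit 344133) (nat_lit 26) .nil))))) .nil)) 
(.lf (nat_lit 252891) (.g (nat_lit 3595) (.e (nat_lit 163902) (nat_lit 12) (.e (nat_lit 426428) (nat_lit 17) (.e (nat_lit 90174) (nat_lit 14) (.e (nat_lit 180251) (nat_lit 10) (.e (nat_lit 573489) (nat_lit 14) (.e (nat_lit 73731) (nat_lit 0) (.e (nat_lit 7936) (nat_lit 255) .nil))))))) (.g (nat_lit 6) .nil .nil)))) (.nd (nat_lit 6) 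
(.lf (nat_lit 252859) (.g (nat_lit 3138) (.e (nat_lit 163902) (nat_lit 12) (.e (nat_lit 426233) (nat_lit 9) (.e (nat_lit 426525) (nat_lit 27) (.e (nat_lit 336231) (nat_lit 14) (.e (nat_lit 401446) (nat_lit 10) (.e (nat_lit 434208) (nat_lit 18) (.e (nat_lit 6420) (nat_lit 341) .nil))))))) (.g (nat_lit 5) .nil .nil))) 
(.lf (nat_lit 252923) (.g (nat_lit 1992) (.e (nat_lit 163902) (nat_lit 12) (.e (nat_lit 426555) (nat_lit 32) (.e (nat_lit 376865) (nat_lit 22) (.e (nat_lit 90159) (nat_lit 11) (.e (nat_lit 24597) (nat_lit 1) .nil))))) .nil)))))) (.nd (nat_lit 3) (.nd (nat_lit 4) (.nd (nat_lit 5) (.nd (nat_lit 6) 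
(.lf (nat_lit 252807) (.g (nat_lit 2215) (.e (nat_lit 163901) (nat_lit 12) (.e (nat_lit 426568) (nat_lit 34) (.e (nat_lit 393271) (nat_lit 23) (.e (nat_lit 426436) (nat_lit 18) .nil)))) .nil)) 
(.lf (nat_lit 252871) (.g (nat_lit 3211) (.e (nat_lit 163902) (nat_lit 12) (.e (nat_lit 426428) (nat_lit 17) (.e (nat_lit 90170) (nat_lit 13) (.e (nat_lit 172106) (nat_lit 10) (.e (nat_lit 434200) (nat_lit 18) (.e (nat_lit 6841) (nat_lit 369) (.e (nat_lit 163862) (nat_lit 1) (.e (nat_lit 164330) (nat_lit 230) .nil)))))))) (.g (nat_lit 4) .nil .nil)))) (.nd (nat_lit 6) 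
(.lf (nat_lit 252839) (.g (nat_lit 3448) (.e (nat_lit 163902) (nat_lit 12) (.e (nat_lit 426131) (nat_lit 3) (.e (nat_lit 204868) (nat_lit 29) (.e (nat_lit 360475) (nat_lit 8) (.e (nat_lit 557091) (nat_lit 12) (.e (nat_lit 163847) (nat_lit 0) (.e (nat_lit 6416) (nat_lit 341) .nil))))))) (.g (nat_lit 4) .nil .nil))) 
(.lf (nat_lit 252903) (.g (nat_lit 2952) (.e (nat_lit 163902) (nat_lit 12) (.e (nat_lit 426472) (nat_lit 25) (.e (nat_lit 319530) (nat_lit 16) (.e (nat_lit 286735) (nat_lit 3) (.e (nat_lit 98341) (nat_lit 20) (.e (nat_lit 229120) (nat_lit 1) (.e (nat_lit 57931) (nat_lit 282) .nil))))))) (.g (nat_lit 5) .nil .nil))))) (.nd (nat_lit 5) (.nd (nat_lit 6) 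
(.lf (nat_lit 252823) (.g (nat_lit 4532) (.e (nat_lit 163902) (nat_lit 12) (.e (nat_lit 426130) (nat_lit 3) (.e (nat_lit 204869) (nat_lit 29) (.e (nat_lit 360475) (nat_lit 8) (.e (nat_lit 557089) (nat_lit 12) (.e (nat_lit 163844) (nat_lit 0) (.e (nat_lit 6416) (nat_lit 341) .nil))))))) (.g (nat_lit 4) .nil .nil))) 
(.lf (nat_lit 252887) (.g (nat_lit 370) (.e (nat_lit 163902) (nat_lit 12) (.e (nat_lit 426428) (nat_lit 17) (.e (nat_lit 90174) (nat_lit 14) .nil))) .nil))) (.nd (nat_lit 6) 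
(.lf (nat_lit 252855) (.g (nat_lit 5068) (.e (nat_lit 163902) (nat_lit 12) (.e (nat_lit 426131) (nat_lit 3) (.e (nat_lit 204869) (nat_lit 29) (.e (nat_lit 360475) (nat_lit 8) (.e (nat_lit 557091) (nat_lit 12) (.e (nat_lit 163847) (nat_lit 0) (.e (nat_lit 6416) (nat_lit 341) .nil))))))) (.g (nat_lit 4) .nil .nil))) 
(.lf (nat_lit 252919) (.g (nat_lit 3987) (.e (nat_lit 163902) (nat_lit 12) (.e (nat_lit 426506) (nat_lit 27) (.e (nat_lit 336178) (nat_lit 10) (.e (nat_lit 344117) (nat_lit 21) (.e (nat_lit 516195) (nat_lit 26) (.e (nat_lit 335996) (nat_lit 1) (.e (nat_lit 57931) (nat_lit 282) .nil))))))) (.g (nat_lit 0) .nil .nil)))))) (.nd (nat_lit 4) (.nd (nat_lit 5) (.nd (nat_lit 6) 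
(.lf (nat_lit 252815) (.g (nat_lit 2281) (.e (nat_lit 163902) (nat_lit 12) (.e (nat_lit 426130) (nat_lit 3) (.e (nat_lit 204868) (nat_lit 29) (.e (nat_lit 360473) (nat_lit 8) (.e (nat_lit 557089) (nat_lit 12) (.e (nat_lit 163843) (nat_lit 0) (.e (nat_lit 6420) (nat_lit 341) .nil))))))) (.g (nat_lit 4) .nil .nil))) 
(.lf (nat_lit 252879) (.g (nat_lit 1908) (.e (nat_lit 163902) (nat_lit 12) (.e (nat_lit 426428) (nat_lit 17) (.e (nat_lit 90170) (nat_lit 13) (.e (nat_lit 172113) (nat_lit 10) (.e (nat_lit 434207) (nat_lit 18) .nil))))) .nil))) (.nd (nat_lit 6) 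
(.lf (nat_lit 252847) (.g (nat_lit 4264) (.e (nat_lit 163902) (nat_lit 12) (.e (nat_lit 426131) (nat_lit 3) (.e (nat_lit 204869) (nat_lit 29) (.e (nat_lit 360474) (nat_lit 8) (.e (nat_lit 557094) (nat_lit 12) .nil))))) .nil)) 
(.lf (nat_lit 252911) (.g (nat_lit 2492) (.e (nat_lit 163902) (nat_lit 12) (.e (nat_lit 426472) (nat_lit 25) (.e (nat_lit 319531) (nat_lit 16) (.e (nat_lit 286761) (nat_lit 13) (.e (nat_lit 393237) (nat_lit 17) (.e (nat_lit 2418) (nat_lit 157) (.e (nat_lit 4540) (nat_lit 267) .nil))))))) (.g (nat_lit 4) .nil .nil))))) (.nd (nat_lit 5) (.nd (nat_lit 6) 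
(.lf (nat_lit 252831) (.g (nat_lit 3357) (.e (nat_lit 163902) (nat_lit 12) (.e (nat_lit 426131) (nat_lit 3) (.e (nat_lit 204855) (nat_lit 26) (.e (nat_lit 336176) (nat_lit 10) (.e (nat_lit 344133) (nat_lit 26) (.e (nat_lit 557091) (nat_lit 12) (.e (nat_lit 163844) (nat_lit 0) (.e (nat_lit 6420) (nat_lit 341) .nil)))))))) (.g (nat_lit 4) .nil .nil))) 
(.lf (nat_lit 252895) (.g (nat_lit 4413) (.e (nat_lit 163902) (nat_lit 12) (.e (nat_lit 426436) (nat_lit 18) (.e (nat_lit 98335) (nat_lit 18) (.e (nat_lit 164327) (nat_lit 230) .nil)))) .nil))) (.nd (nat_lit 6) 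
(.lf (nat_lit 252863) (.g (nat_lit 364) (.e (nat_lit 163902) (nat_lit 12) (.e (nat_lit 426428) (nat_lit 17) (.e (nat_lit 90170) (nat_lit 13) .nil))) .nil)) 
(.lf (nat_lit 252927) (.g (nat_lit 1909) (.e (nat_lit 163902) (nat_lit 12) (.e (nat_lit 426566) (nat_lit 34) (.e (nat_lit 393268) (nat_lit 23) (.e (nat_lit 426361) (nat_lit 15) (.e (nat_lit 1795) (nat_lit 119) .nil))))) .nil)))))))))

noncomputable def tv3280 : DT := (.nd (nat_lit 0) (.nd (nat_lit 1) (.nd (nat_lit 2) (.nd (nat_lit 3) (.nd (nat_lit 4) (.nd (nat_lit 5) (.nd (nat_lit 6) 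
(.lf (nat_lit 252928) (.g (nat_lit 3193) (.e (nat_lit 163902) (nat_lit 12) (.e (nat_lit 426566) (nat_lit 34) (.e (nat_lit 393268) (nat_lit 23) (.e (nat_lit 426436) (nat_lit 18) (.e (nat_lit 98335) (nat_lit 18) (.e (nat_lit 164329) (nat_lit 230) .nil)))))) (.g (nat_lit 0) .nil .nil))) 
(.lf (nat_lit 252992) (.g (nat_lit 1018) (.e (nat_lit 163903) (nat_lit 12) (.e (nat_lit 426428) (nat_lit 17) (.e (nat_lit 90170) (nat_lit 13) (.e (nat_lit 172113) (nat_lit 10) .nil)))) .nil))) (.nd (nat_lit 6) 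
(.lf (nat_lit 252960) (.g (nat_lit 1912) (.e (nat_lit 163902) (nat_lit 12) (.e (nat_lit 426568) (nat_lit 34) (.e (nat_lit 393271) (nat_lit 23) (.e (nat_lit 426416) (nat_lit 15) .nil)))) .nil)) 
(.lf (nat_lit 253024) (.g (nat_lit 3650) (.e (nat_lit 163903) (nat_lit 12) (.e (nat_lit 426568) (nat_lit 34) (.e (nat_lit 393268) (nat_lit 23) (.e (nat_lit 426436) (nat_lit 18) (.e (nat_lit 98335) (nat_lit 18) (.e (nat_lit 164324) (nat_lit 230) .nil)))))) (.g (nat_lit 0) .nil .nil))))) (.nd (nat_lit 5) (.nd (nat_lit 6) 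
(.lf (nat_lit 252944) (.g (nat_lit 4029) (.e (nat_lit 163902) (nat_lit 12) (.e (nat_lit 426568) (nat_lit 34) (.e (nat_lit 393266) (nat_lit 23) (.e (nat_lit 426436) (nat_lit 18) (.e (nat_lit 98335) (nat_lit 18) (.e (nat_lit 164332) (nat_lit 230) .nil)))))) (.g (nat_lit 5) .nil .nil))) 
(.lf (nat_lit 253008) (.g (nat_lit 2615) (.e (nat_lit 163903) (nat_lit 12) (.e (nat_lit 426472) (nat_lit 25) (.e (nat_lit 319531) (nat_lit 16) (.e (nat_lit 286761) (nat_lit 13) (.e (nat_lit 393237) (nat_lit 17) (.e (nat_lit 2418) (nat_lit 157) (.e (nat_lit 4540) (nat_lit 267) .nil))))))) (.g (nat_lit 4) .nil .nil)))) (.nd (nat_lit 6) 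
(.lf (nat_lit 252976) (.g (nat_lit 4225) (.e (nat_lit 163903) (nat_lit 12) (.e (nat_lit 426131) (nat_lit 3) (.e (nat_lit 204868) (nat_lit 29) (.e (nat_lit 360475) (nat_lit 8) (.e (nat_lit 557091) (nat_lit 12) (.e (nat_lit 163847) (nat_lit 0) (.e (nat_lit 6416) (nat_lit 341) .nil))))))) (.g (nat_lit 4) .nil .nil))) 
(.lf (nat_lit 253040) (.g (nat_lit 1585) (.e (nat_lit 163904) (nat_lit 12) (.e (nat_lit 426131) (nat_lit 3) (.e (nat_lit 204868) (nat_lit 29) (.e (nat_lit 360473) (nat_lit 8) .nil)))) .nil))))) (.nd (nat_lit 4) (.nd (nat_lit 5) (.nd (nat_lit 6) 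
(.lf (nat_lit 252936) (.g (nat_lit 1843) (.e (nat_lit 163902) (nat_lit 12) (.e (nat_lit 426566) (nat_lit 34) (.e (nat_lit 393273) (nat_lit 23) (.e (nat_lit 426364) (nat_lit 15) (.e (nat_lit 1788) (nat_lit 119) .nil))))) .nil)) 
(.lf (nat_lit 253000) (.g (nat_lit 386) (.e (nat_lit 163903) (nat_lit 12) (.e (nat_lit 426428) (nat_lit 17) (.e (nat_lit 90178) (nat_lit 15) .nil))) .nil))) (.nd (nat_lit 6) 
(.lf (nat_lit 252968) (.g (nat_lit 761) (.e (nat_lit 163902) (nat_lit 12) (.e (nat_lit 426568) (nat_lit 34) (.e (nat_lit 393288) (nat_lit 25) .nil))) .nil)) 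
(.lf (nat_lit 253032) (.g (nat_lit 1746) (.e (nat_lit 163903) (nat_lit 12) (.e (nat_lit 426568) (nat_lit 34) (.e (nat_lit 393271) (nat_lit 23) (.e (nat_lit 433920) (nat_lit 18) .nil)))) .nil)))) (.nd (nat_lit 5) (.nd (nat_lit 6) 
(.lf (nat_lit 252952) (.g (nat_lit 3911) (.e (nat_lit 163902) (nat_lit 12) (.e (nat_lit 426568) (nat_lit 34) (.e (nat_lit 393268) (nat_lit 23) (.e (nat_lit 426436) (nat_lit 18) (.e (nat_lit 98335) (nat_lit 18) (.e (nat_lit 164332) (nat_lit 230) .nil)))))) (.g (nat_lit 0) .nil .nil))) 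
(.lf (nat_lit 253016) (.g (nat_lit 712) (.e (nat_lit 163903) (nat_lit 12) (.e (nat_lit 426566) (nat_lit 34) (.e (nat_lit 393267) (nat_lit 23) .nil))) .nil))) (.nd (nat_lit 6) 
(.lf (nat_lit 252984) (.g (nat_lit 4858) (.e (nat_lit 163903) (nat_lit 12) (.e (nat_lit 426131) (nat_lit 3) (.e (nat_lit 204869) (nat_lit 29) (.e (nat_lit 360475) (nat_lit 8) (.e (nat_lit 557089) (nat_lit 12) .nil))))) .nil)) 
(.lf (nat_lit 253048) (.g (nat_lit 924) (.e (nat_lit 163904) (nat_lit 12) (.e (nat_lit 426566) (nat_lit 34) (.e (nat_lit 393271) (nat_lit 23) (.e (nat_lit 426354) (nat_lit 15) .nil)))) .nil)))))) (.nd (nat_lit 3) (.nd (nat_lit 4) (.nd (nat_lit 5) (.nd (nat_lit 6) 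
(.lf (nat_lit 252932) (.g (nat_lit 3723) (.e (nat_lit 163902) (nat_lit 12) (.e (nat_lit 426566) (nat_lit 34) (.e (nat_lit 393272) (nat_lit 23) (.e (nat_lit 426436) (nat_lit 18) (.e (nat_lit 98335) (nat_lit 18) (.e (nat_lit 164332) (nat_lit 230) .nil)))))) (.g (nat_lit 0) .nil .nil))) 
(.lf (nat_lit 252996) (.g (nat_lit 3720) (.e (nat_lit 163903) (nat_lit 12) (.e (nat_lit 426428) (nat_lit 17) (.e (nat_lit 90174) (nat_lit 14) (.e (nat_lit 180250) (nat_lit 10) (.e (nat_lit 573487) (nat_lit 14) (.e (nat_lit 73729) (nat_lit 0) (.e (nat_lit 7936) (nat_lit 255) .nil))))))) (.g (nat_lit 6) .nil .nil)))) (.nd (nat_lit 6) 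
(.lf (nat_lit 252964) (.g (nat_lit 3361) (.e (nat_lit 163902) (nat_lit 12) (.e (nat_lit 426568) (nat_lit 34) (.e (nat_lit 393275) (nat_lit 23) (.e (nat_lit 426396) (nat_lit 15) (.e (nat_lit 1800) (nat_lit 119) (.e (nat_lit 516120) (nat_lit 1) (.e (nat_lit 164329) (nat_lit 230) .nil))))))) (.g (nat_lit 6) .nil .nil))) 
(.lf (nat_lit 253028) (.g (nat_lit 2035) (.e (nat_lit 163903) (nat_lit 12) (.e (nat_lit 426568) (nat_lit 34) (.e (nat_lit 393271) (nat_lit 23) (.e (nat_lit 426375) (nat_lit 15) .nil)))) .nil)))) (.nd (nat_lit 5) (.nd (nat_lit 6) 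
(.lf (nat_lit 252948) (.g (nat_lit 3632) (.e (nat_lit 163902) (nat_lit 12) (.e (nat_lit 426568) (nat_lit 34) (.e (nat_lit 393268) (nat_lit 23) (.e (nat_lit 426436) (nat_lit 18) (.e (nat_lit 98335) (nat_lit 18) (.e (nat_lit 164322) (nat_lit 230) .nil)))))) (.g (nat_lit 5) .nil .nil))) 
(.lf (nat_lit 253012) (.g (nat_lit 2313) (.e (nat_lit 163903) (nat_lit 12) (.e (nat_lit 426555) (nat_lit 32) (.e (nat_lit 376865) (nat_lit 22) (.e (nat_lit 90160) (nat_lit 11) (.e (nat_lit 24596) (nat_lit 1) .nil))))) .nil))) (.nd (nat_lit 6) 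
(.lf (nat_lit 252980) (.g (nat_lit 5004) (.e (nat_lit 163903) (nat_lit 12) (.e (nat_lit 426131) (nat_lit 3) (.e (nat_lit 204869) (nat_lit 29) (.e (nat_lit 360474) (nat_lit 8) (.e (nat_lit 557093) (nat_lit 12) (.e (nat_lit 163849) (nat_lit 0) (.e (nat_lit 6416) (nat_lit 341) .nil))))))) (.g (nat_lit 4) .nil .nil))) 
(.lf (nat_lit 253044) (.g (nat_lit 5172) (.e (nat_lit 163904) (nat_lit 12) (.e (nat_lit 426131) (nat_lit 3) (.e (nat_lit 204869) (nat_lit 29) (.e (nat_lit 360475) (nat_lit 8) (.e (nat_lit 557091) (nat_lit 12) (.e (nat_lit 163843) (nat_lit 0) (.e (nat_lit 6416) (nat_lit 341) .nil))))))) (.g (nat_lit 4) .nil .nil)))))) (.nd (nat_lit 4) (.nd (nat_lit 5) (.nd (nat_lit 6) 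
(.lf (nat_lit 252940) (.g (nat_lit 3647) (.e (nat_lit 163902) (nat_lit 12) (.e (nat_lit 426566) (nat_lit 34) (.e (nat_lit 393273) (nat_lit 23) (.e (nat_lit 426436) (nat_lit 18) (.e (nat_lit 98335) (nat_lit 18) (.e (nat_lit 164322) (nat_lit 230) .nil)))))) (.g (nat_lit 5) .nil .nil))) 
(.lf (nat_lit 253004) (.g (nat_lit 1808) (.e (nat_lit 163903) (nat_lit 12) (.e (nat_lit 426438) (nat_lit 18) (.e (nat_lit 98373) (nat_lit 29) (.e (nat_lit 450604) (nat_lit 22) .nil)))) .nil))) (.nd (nat_lit 6) 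
(.lf (nat_lit 252972) (.g (nat_lit 4434) (.e (nat_lit 163903) (nat_lit 12) (.e (nat_lit 426131) (nat_lit 3) (.e (nat_lit 204868) (nat_lit 29) (.e (nat_lit 360475) (nat_lit 8) (.e (nat_lit 557089) (nat_lit 12) (.e (nat_lit 163844) (nat_lit 0) (.e (nat_lit 6416) (nat_lit 341) .nil))))))) (.g (nat_lit 4) .nil .nil))) 
(.lf (nat_lit 253036) (.g (nat_lit 2590) (.e (nat_lit 163903) (nat_lit 12) (.e (nat_lit 426568) (nat_lit 34) (.e (nat_lit 393279) (nat_lit 23) (.e (nat_lit 426435) (nat_lit 18) (.e (nat_lit 98335) (nat_lit 18) (.e (nat_lit 164326) (nat_lit 230) .nil)))))) (.g (nat_lit 0) .nil .nil))))) (.nd (nat_lit 5) (.nd (nat_lit 6) 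
(.lf (nat_lit 252956) (.g (nat_lit 1909) (.e (nat_lit 163902) (nat_lit 12) (.e (nat_lit 426568) (nat_lit 34) (.e (nat_lit 393271) (nat_lit 23) (.e (nat_lit 426376) (nat_lit 15) .nil)))) .nil)) 
(.lf (nat_lit 253020) (.g (nat_lit 3646) (.e (nat_lit 163903) (nat_lit 12) (.e (nat_lit 426568) (nat_lit 34) (.e (nat_lit 393267) (nat_lit 23) (.e (nat_lit 426436) (nat_lit 18) (.e (nat_lit 98335) (nat_lit 18) (.e (nat_lit 164324) (nat_lit 230) .nil)))))) (.g (nat_lit 6) .nil .nil)))) (.nd (nat_lit 6) 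
(.lf (nat_lit 252988) (.g (nat_lit 2290) (.e (nat_lit 163903) (nat_lit 12) (.e (nat_lit 426427) (nat_lit 17) (.e (nat_lit 90170) (nat_lit 13) (.e (nat_lit 172123) (nat_lit 13) (.e (nat_lit 483363) (nat_lit 18) (.e (nat_lit 57686) (nat_lit 156) .nil)))))) (.g (nat_lit 5) .nil .nil))) 
(.lf (nat_lit 253052) (.g (nat_lit 3422) (.e (nat_lit 163905) (nat_lit 12) (.e (nat_lit 426131) (nat_lit 3) (.e (nat_lit 204868) (nat_lit 29) (.e (nat_lit 360473) (nat_lit 8) (.e (nat_lit 557091) (nat_lit 12) (.e (nat_lit 163843) (nat_lit 0) (.e (nat_lit 6421) (nat_lit 341) .nil))))))) (.g (nat_lit 5) .nil .nil)))))))) 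
(.nd (nat_lit 2) (.nd (nat_lit 3) (.nd (nat_lit 4) (.nd (nat_lit 5) (.nd (nat_lit 6) 
(.lf (nat_lit 252930) (.g (nat_lit 1213) (.e (nat_lit 163902) (nat_lit 12) (.e (nat_lit 426566) (nat_lit 34) (.e (nat_lit 393271) (nat_lit 23) (.e (nat_lit 426354) (nat_lit 15) .nil)))) .nil)) 
(.lf (nat_lit 252994) (.g (nat_lit 1971) (.e (nat_lit 163903) (nat_lit 12) (.e (nat_lit 426428) (nat_lit 17) (.e (nat_lit 90170) (nat_lit 13) (.e (nat_lit 172113) (nat_lit 10) (.e (nat_lit 434207) (nat_lit 18) (.e (nat_lit 6839) (nat_lit 369) (.e (nat_lit 163862) (nat_lit 1) (.e (nat_lit 164325) (nat_lit 230) .nil)))))))) (.g (nat_lit 4) .nil .nil)))) (.nd (nat_lit 6) 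
(.lf (nat_lit 252962) (.g (nat_lit 1744) (.e (nat_lit 163902) (nat_lit 12) (.e (nat_lit 426568) (nat_lit 34) (.e (nat_lit 393271) (nat_lit 23) (.e (nat_lit 433920) (nat_lit 18) .nil)))) .nil)) 
(.lf (nat_lit 253026) (.g (nat_lit 2406) (.e (nat_lit 163903) (nat_lit 12) (.e (nat_lit 426568) (nat_lit 34) (.e (nat_lit 393271) (nat_lit 23) (.e (nat_lit 426354) (nat_lit 15) (.e (nat_lit 1781) (nat_lit 119) (.e (nat_lit 516119) (nat_lit 1) (.e (nat_lit 164326) (nat_lit 230) .nil))))))) (.g (nat_lit 4) .nil .nil))))) (.nd (nat_lit 5) (.nd (nat_lit 6) 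
(.lf (nat_lit 252946) (.g (nat_lit 4200) (.e (nat_lit 163902) (nat_lit 12) (.e (nat_lit 426568) (nat_lit 34) (.e (nat_lit 393267) (nat_lit 23) (.e (nat_lit 426436) (nat_lit 18) (.e (nat_lit 98335) (nat_lit 18) (.e (nat_lit 164331) (nat_lit 230) .nil)))))) (.g (nat_lit 5) .nil .nil))) 
(.lf (nat_lit 253010) (.g (nat_lit 1313) (.e (nat_lit 163903) (nat_lit 12) (.e (nat_lit 426479) (nat_lit 27) (.e (nat_lit 336369) (nat_lit 27) (.e (nat_lit 426201) (nat_lit 9) (.e (nat_lit 426438) (nat_lit 18) .nil))))) .nil))) (.nd (nat_lit 6) 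
(.lf (nat_lit 252978) (.g (nat_lit 5097) (.e (nat_lit 163903) (nat_lit 12) (.e (nat_lit 426131) (nat_lit 3) (.e (nat_lit 204869) (nat_lit 29) (.e (nat_lit 360474) (nat_lit 8) (.e (nat_lit 557091) (nat_lit 12) .nil))))) .nil)) 
(.lf (nat_lit 253042) (.g (nat_lit 5127) (.e (nat_lit 163904) (nat_lit 12) (.e (nat_lit 426131) (nat_lit 3) (.e (nat_lit 204869) (nat_lit 29) (.e (nat_lit 360475) (nat_lit 8) (.e (nat_lit 557089) (nat_lit 12) .nil))))) .nil))))) (.nd (nat_lit 4) (.nd (nat_lit 5) (.nd (nat_lit 6) 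
(.lf (nat_lit 252938) (.g (nat_lit 1331) (.e (nat_lit 163902) (nat_lit 12) (.e (nat_lit 426566) (nat_lit 34) (.e (nat_lit 393273) (nat_lit 23) (.e (nat_lit 426392) (nat_lit 15) .nil)))) .nil)) 
(.lf (nat_lit 253002) (.g (nat_lit 1092) (.e (nat_lit 163903) (nat_lit 12) (.e (nat_lit 426437) (nat_lit 18) (.e (nat_lit 98370) (nat_lit 28) (.e (nat_lit 442385) (nat_lit 11) .nil)))) .nil))) (.nd (nat_lit 6) 
(.lf (nat_lit 252970) (.g (nat_lit 1527) (.e (nat_lit 163903) (nat_lit 12) (.e (nat_lit 426131) (nat_lit 3) (.e (nat_lit 204868) (nat_lit 29) (.e (nat_lit 360474) (nat_lit 8) .nil)))) .nil)) 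
(.lf (nat_lit 253034) (.g (nat_lit 3009) (.e (nat_lit 163903) (nat_lit 12) (.e (nat_lit 426568) (nat_lit 34) (.e (nat_lit 393279) (nat_lit 23) (.e (nat_lit 426435) (nat_lit 18) (.e (nat_lit 98333) (nat_lit 18) (.e (nat_lit 164325) (nat_lit 230) .nil)))))) (.g (nat_lit 0) .nil .nil))))) (.nd (nat_lit 5) (.nd (nat_lit 6) 
(.lf (nat_lit 252954) (.g (nat_lit 2499) (.e (nat_lit 163902) (nat_lit 12) (.e (nat_lit 426568) (nat_lit 34) (.e (nat_lit 393271) (nat_lit 23) (.e (nat_lit 426364) (nat_lit 15) (.e (nat_lit 1781) (nat_lit 119) .nil))))) .nil)) 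
(.lf (nat_lit 253018) (.g (nat_lit 1623) (.e (nat_lit 163903) (nat_lit 12) (.e (nat_lit 426568) (nat_lit 34) (.e (nat_lit 393234) (nat_lit 17) (.e (nat_lit 7309) (nat_lit 388) .nil)))) .nil))) (.nd (nat_lit 6) 
(.lf (nat_lit 252986) (.g (nat_lit 4830) (.e (nat_lit 163903) (nat_lit 12) (.e (nat_lit 426131) (nat_lit 3) (.e (nat_lit 204869) (nat_lit 29) (.e (nat_lit 360475) (nat_lit 8) (.e (nat_lit 557091) (nat_lit 12) .nil))))) .nil)) 
(.lf (nat_lit 253050) (.g (nat_lit 1819) (.e (nat_lit 163905) (nat_lit 12) (.e (nat_lit 426131) (nat_lit 3) (.e (nat_lit 204855) (nat_lit 26) (.e (nat_lit 336061) (nat_lit 7) .nil)))) .nil)))))) (.nd (nat_lit 3) (.nd (nat_lit 4) (.nd (nat_lit 5) (.nd (nat_lit 6) 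
(.lf (nat_lit 252934) (.g (nat_lit 1922) (.e (nat_lit 163902) (nat_lit 12) (.e (nat_lit 426566) (nat_lit 34) (.e (nat_lit 393273) (nat_lit 23) (.e (nat_lit 426361) (nat_lit 15) (.e (nat_lit 1792) (nat_lit 119) .nil))))) .nil)) 
(.lf (nat_lit 252998) (.g (nat_lit 3211) (.e (nat_lit 163903) (nat_lit 12) (.e (nat_lit 426428) (nat_lit 17) (.e (nat_lit 90174) (nat_lit 14) (.e (nat_lit 180251) (nat_lit 10) (.e (nat_lit 573489) (nat_lit 14) (.e (nat_lit 73731) (nat_lit 0) (.e (nat_lit 7936) (nat_lit 255) .nil))))))) (.g (nat_lit 5) .nil .nil)))) (.nd (nat_lit 6) 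
(.lf (nat_lit 252966) (.g (nat_lit 2773) (.e (nat_lit 163902) (nat_lit 12) (.e (nat_lit 426568) (nat_lit 34) (.e (nat_lit 393279) (nat_lit 23) (.e (nat_lit 426435) (nat_lit 18) (.e (nat_lit 98334) (nat_lit 18) (.e (nat_lit 164332) (nat_lit 230) .nil)))))) (.g (nat_lit 0) .nil .nil))) 
(.lf (nat_lit 253030) (.g (nat_lit 1968) (.e (nat_lit 163903) (nat_lit 12) (.e (nat_lit 426568) (nat_lit 34) (.e (nat_lit 393271) (nat_lit 23) (.e (nat_lit 426405) (nat_lit 15) .nil)))) .nil)))) (.nd (nat_lit 5) (.nd (nat_lit 6) 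
(.lf (nat_lit 252950) (.g (nat_lit 4002) (.e (nat_lit 163902) (nat_lit 12) (.e (nat_lit 426568) (nat_lit 34) (.e (nat_lit 393268) (nat_lit 23) (.e (nat_lit 426436) (nat_lit 18) (.e (nat_lit 98335) (nat_lit 18) (.e (nat_lit 164330) (nat_lit 230) .nil)))))) (.g (nat_lit 6) .nil .nil))) 
(.lf (nat_lit 253014) (.g (nat_lit 2355) (.e (nat_lit 163903) (nat_lit 12) (.e (nat_lit 426564) (nat_lit 34) (.e (nat_lit 393268) (nat_lit 23) (.e (nat_lit 426438) (nat_lit 18) (.e (nat_lit 98335) (nat_lit 18) (.e (nat_lit 164327) (nat_lit 230) .nil)))))) (.g (nat_lit 4) .nil .nil)))) (.nd (nat_lit 6) 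
(.lf (nat_lit 252982) (.g (nat_lit 4535) (.e (nat_lit 163903) (nat_lit 12) (.e (nat_lit 426131) (nat_lit 3) (.e (nat_lit 204869) (nat_lit 29) (.e (nat_lit 360474) (nat_lit 8) (.e (nat_lit 557094) (nat_lit 12) (.e (nat_lit 163848) (nat_lit 0) (.e (nat_lit 6416) (nat_lit 341) .nil))))))) (.g (nat_lit 4) .nil .nil))) 
(.lf (nat_lit 253046) (.g (nat_lit 1099) (.e (nat_lit 163904) (nat_lit 12) (.e (nat_lit 426544) (nat_lit 30) (.e (nat_lit 360467) (nat_lit 3) (.e (nat_lit 516195) (nat_lit 26) .nil)))) .nil))))) (.nd (nat_lit 4) (.nd (nat_lit 5) (.nd (nat_lit 6) 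
(.lf (nat_lit 252942) (.g (nat_lit 1581) (.e (nat_lit 163902) (nat_lit 12) (.e (nat_lit 426566) (nat_lit 34) (.e (nat_lit 393296) (nat_lit 26) (.e (nat_lit 475178) (nat_lit 24) (.e (nat_lit 516118) (nat_lit 1) .nil))))) .nil)) 
(.lf (nat_lit 253006) (.g (nat_lit 2235) (.e (nat_lit 163903) (nat_lit 12) (.e (nat_lit 426472) (nat_lit 25) (.e (nat_lit 319531) (nat_lit 16) (.e (nat_lit 286761) (nat_lit 13) (.e (nat_lit 401152) (nat_lit 1) (.e (nat_lit 57686) (nat_lit 156) .nil)))))) (.g (nat_lit 4) .nil .nil)))) (.nd (nat_lit 6) 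
(.lf (nat_lit 252974) (.g (nat_lit 4195) (.e (nat_lit 163903) (nat_lit 12) (.e (nat_lit 426131) (nat_lit 3) (.e (nat_lit 204868) (nat_lit 29) (.e (nat_lit 360475) (nat_lit 8) (.e (nat_lit 557089) (nat_lit 12) (.e (nat_lit 163849) (nat_lit 0) (.e (nat_lit 6416) (nat_lit 341) .nil))))))) (.g (nat_lit 4) .nil .nil))) 
(.lf (nat_lit 253038) (.g (nat_lit 2527) (.e (nat_lit 163903) (nat_lit 12) (.e (nat_lit 426568) (nat_lit 34) (.e (nat_lit 393283) (nat_lit 24) (.e (nat_lit 434231) (nat_lit 23) (.e (nat_lit 532483) (nat_lit 0) (.e (nat_lit 1036) (nat_lit 81) (.e (nat_lit 7282) (nat_lit 386) .nil))))))) (.g (nat_lit 4) .nil .nil))))) (.nd (nat_lit 5) (.nd (nat_lit 6) 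
(.lf (nat_lit 252958) (.g (nat_lit 2138) (.e (nat_lit 163902) (nat_lit 12) (.e (nat_lit 426568) (nat_lit 34) (.e (nat_lit 393271) (nat_lit 23) (.e (nat_lit 426398) (nat_lit 15) (.e (nat_lit 1784) (nat_lit 119) .nil))))) .nil)) 
(.lf (nat_lit 253022) (.g (nat_lit 3671) (.e (nat_lit 163903) (nat_lit 12) (.e (nat_lit 426568) (nat_lit 34) (.e (nat_lit 393267) (nat_lit 23) (.e (nat_lit 426436) (nat_lit 18) (.e (nat_lit 98335) (nat_lit 18) (.e (nat_lit 164326) (nat_lit 230) .nil)))))) (.g (nat_lit 6) .nil .nil)))) (.nd (nat_lit 6) 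
(.lf (nat_lit 252990) (.g (nat_lit 1688) (.e (nat_lit 163903) (nat_lit 12) (.e (nat_lit 426428) (nat_lit 17) (.e (nat_lit 90170) (nat_lit 13) (.e (nat_lit 172092) (nat_lit 9) .nil)))) .nil)) 
(.lf (nat_lit 253054) (.g (nat_lit 2186) (.e (nat_lit 163905) (nat_lit 12) (.e (nat_lit 426131) (nat_lit 3) (.e (nat_lit 204868) (nat_lit 29) (.e (nat_lit 360473) (nat_lit 8) (.e (nat_lit 557094) (nat_lit 12) .nil))))) .nil)))))))) (.nd (nat_lit 1) (.nd (nat_lit 2) (.nd (nat_lit 3) (.nd (nat_lit 4) (.nd (nat_lit 5) (.nd (nat_lit 6) 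
(.lf (nat_lit 252929) (.g (nat_lit 1506) (.e (nat_lit 163902) (nat_lit 12) (.e (nat_lit 426566) (nat_lit 34) (.e (nat_lit 393271) (nat_lit 23) (.e (nat_lit 425986) (nat_lit 0) .nil)))) .nil)) 
(.lf (nat_lit 252993) (.g (nat_lit 2222) (.e (nat_lit 163903) (nat_lit 12) (.e (nat_lit 426428) (nat_lit 17) (.e (nat_lit 90170) (nat_lit 13) (.e (nat_lit 172113) (nat_lit 10) (.e (nat_lit 434200) (nat_lit 18) (.e (nat_lit 6841) (nat_lit 369) (.e (nat_lit 163862) (nat_lit 1) (.e (nat_lit 164325) (nat_lit 230) .nil)))))))) (.g (nat_lit 4) .nil .nil)))) (.nd (nat_lit 6) 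
(.lf (nat_lit 252961) (.g (nat_lit 1952) (.e (nat_lit 163902) (nat_lit 12) (.e (nat_lit 426568) (nat_lit 34) (.e (nat_lit 393271) (nat_lit 23) (.e (nat_lit 426420) (nat_lit 15) .nil)))) .nil)) 
(.lf (nat_lit 253025) (.g (nat_lit 3606) (.e (nat_lit 163903) (nat_lit 12) (.e (nat_lit 426568) (nat_lit 34) (.e (nat_lit 393268) (nat_lit 23) (.e (nat_lit 426436) (nat_lit 18) (.e (nat_lit 98335) (nat_lit 18) (.e (nat_lit 164326) (nat_lit 230) .nil)))))) (.g (nat_lit 0) .nil .nil))))) (.nd (nat_lit 5) (.nd (nat_lit 6) 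
(.lf (nat_lit 252945) (.g (nat_lit 3732) (.e (nat_lit 163902) (nat_lit 12) (.e (nat_lit 426568) (nat_lit 34) (.e (nat_lit 393267) (nat_lit 23) (.e (nat_lit 426436) (nat_lit 18) (.e (nat_lit 98335) (nat_lit 18) (.e (nat_lit 164329) (nat_lit 230) .nil)))))) (.g (nat_lit 0) .nil .nil))) 
(.lf (nat_lit 253009) (.g (nat_lit 1926) (.e (nat_lit 163903) (nat_lit 12) (.e (nat_lit 426472) (nat_lit 25) (.e (nat_lit 319533) (nat_lit 16) (.e (nat_lit 286760) (nat_lit 13) (.e (nat_lit 401152) (nat_lit 1) (.e (nat_lit 57688) (nat_lit 156) .nil)))))) (.g (nat_lit 4) .nil .nil)))) (.nd (nat_lit 6) 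
(.lf (nat_lit 252977) (.g (nat_lit 4646) (.e (nat_lit 163903) (nat_lit 12) (.e (nat_lit 426131) (nat_lit 3) (.e (nat_lit 204869) (nat_lit 29) (.e (nat_lit 360474) (nat_lit 8) (.e (nat_lit 557089) (nat_lit 12) .nil))))) .nil)) 
(.lf (nat_lit 253041) (.g (nat_lit 4617) (.e (nat_lit 163904) (nat_lit 12) (.e (nat_lit 426131) (nat_lit 3) (.e (nat_lit 204869) (nat_lit 29) (.e (nat_lit 360474) (nat_lit 8) (.e (nat_lit 557093) (nat_lit 12) .nil))))) .nil))))) (.nd (nat_lit 4) (.nd (nat_lit 5) (.nd (nat_lit 6) 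
(.lf (nat_lit 252937) (.g (nat_lit 1588) (.e (nat_lit 163902) (nat_lit 12) (.e (nat_lit 426566) (nat_lit 34) (.e (nat_lit 393273) (nat_lit 23) (.e (nat_lit 426376) (nat_lit 15) .nil)))) .nil)) 
(.lf (nat_lit 253001) (.g (nat_lit 2584) (.e (nat_lit 163903) (nat_lit 12) (.e (nat_lit 426428) (nat_lit 17) (.e (nat_lit 90185) (nat_lit 17) (.e (nat_lit 237624) (nat_lit 13) (.e (nat_lit 483365) (nat_lit 18) (.e (nat_lit 57687) (nat_lit 156) .nil)))))) (.g (nat_lit 4) .nil .nil)))) (.nd (nat_lit 6) 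
(.lf (nat_lit 252969) (.g (nat_lit 3230) (.e (nat_lit 163903) (nat_lit 12) (.e (nat_lit 426131) (nat_lit 3) (.e (nat_lit 204868) (nat_lit 29) (.e (nat_lit 360473) (nat_lit 8) (.e (nat_lit 557091) (nat_lit 12) (.e (nat_lit 163844) (nat_lit 0) (.e (nat_lit 6416) (nat_lit 341) .nil))))))) (.g (nat_lit 4) .nil .nil))) 
(.lf (nat_lit 253033) (.g (nat_lit 404) (.e (nat_lit 163903) (nat_lit 12) (.e (nat_lit 426568) (nat_lit 34) (.e (nat_lit 393277) (nat_lit 23) .nil))) .nil)))) (.nd (nat_lit 5) (.nd (nat_lit 6) 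
(.lf (nat_lit 252953) (.g (nat_lit 1867) (.e (nat_lit 163902) (nat_lit 12) (.e (nat_lit 426568) (nat_lit 34) (.e (nat_lit 393271) (nat_lit 23) (.e (nat_lit 426357) (nat_lit 15) (.e (nat_lit 1796) (nat_lit 119) .nil))))) .nil)) 
(.lf (nat_lit 253017) (.g (nat_lit 3302) (.e (nat_lit 163903) (nat_lit 12) (.e (nat_lit 426566) (nat_lit 34) (.e (nat_lit 393272) (nat_lit 23) (.e (nat_lit 426436) (nat_lit 18) (.e (nat_lit 98335) (nat_lit 18) (.e (nat_lit 164326) (nat_lit 230) .nil)))))) (.g (nat_lit 5) .nil .nil)))) (.nd (nat_lit 6) 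
(.lf (nat_lit 252985) (.g (nat_lit 5812) (.e (nat_lit 163903) (nat_lit 12) (.e (nat_lit 426131) (nat_lit 3) (.e (nat_lit 204869) (nat_lit 29) (.e (nat_lit 360475) (nat_lit 8) (.e (nat_lit 557089) (nat_lit 12) (.e (nat_lit 163843) (nat_lit 0) (.e (nat_lit 6416) (nat_lit 341) .nil))))))) (.g (nat_lit 4) .nil .nil))) 
(.lf (nat_lit 253049) (.g (nat_lit 2017) (.e (nat_lit 163904) (nat_lit 12) (.e (nat_lit 426566) (nat_lit 34) (.e (nat_lit 393290) (nat_lit 26) (.e (nat_lit 475179) (nat_lit 24) (.e (nat_lit 516119) (nat_lit 1) .nil))))) .nil)))))) (.nd (nat_lit 3) (.nd (nat_lit 4) (.nd (nat_lit 5) (.nd (nat_lit 6) 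
(.lf (nat_lit 252933) (.g (nat_lit 2253) (.e (nat_lit 163902) (nat_lit 12) (.e (nat_lit 426566) (nat_lit 34) (.e (nat_lit 393273) (nat_lit 23) (.e (nat_lit 426354) (nat_lit 15) (.e (nat_lit 1795) (nat_lit 119) .nil))))) .nil)) 
(.lf (nat_lit 252997) (.g (nat_lit 3383) (.e (nat_lit 163903) (nat_lit 12) (.e (nat_lit 426428) (nat_lit 17) (.e (nat_lit 90174) (nat_lit 14) (.e (nat_lit 180250) (nat_lit 10) (.e (nat_lit 573489) (nat_lit 14) (.e (nat_lit 73731) (nat_lit 0) (.e (nat_lit 7936) (nat_lit 255) .nil))))))) (.g (nat_lit 6) .nil .nil)))) (.nd (nat_lit 6) 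
(.lf (nat_lit 252965) (.g (nat_lit 391) (.e (nat_lit 163902) (nat_lit 12) (.e (nat_lit 426568) (nat_lit 34) (.e (nat_lit 393277) (nat_lit 23) .nil))) .nil)) 
(.lf (nat_lit 253029) (.g (nat_lit 2000) (.e (nat_lit 163903) (nat_lit 12) (.e (nat_lit 426568) (nat_lit 34) (.e (nat_lit 393271) (nat_lit 23) (.e (nat_lit 426376) (nat_lit 15) .nil)))) .nil)))) (.nd (nat_lit 5) (.nd (nat_lit 6) 
(.lf (nat_lit 252949) (.g (nat_lit 3298) (.e (nat_lit 163902) (nat_lit 12) (.e (nat_lit 426568) (nat_lit 34) (.e (nat_lit 393268) (nat_lit 23) (.e (nat_lit 426436) (nat_lit 18) (.e (nat_lit 98335) (nat_lit 18) (.e (nat_lit 164324) (nat_lit 230) .nil)))))) (.g (nat_lit 5) .nil .nil))) 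
(.lf (nat_lit 253013) (.g (nat_lit 855) (.e (nat_lit 163903) (nat_lit 12) (.e (nat_lit 426555) (nat_lit 32) (.e (nat_lit 376866) (nat_lit 23) .nil))) .nil))) (.nd (nat_lit 6) 
(.lf (nat_lit 252981) (.g (nat_lit 4748) (.e (nat_lit 163903) (nat_lit 12) (.e (nat_lit 426131) (nat_lit 3) (.e (nat_lit 204869) (nat_lit 29) (.e (nat_lit 360474) (nat_lit 8) (.e (nat_lit 557094) (nat_lit 12) (.e (nat_lit 163847) (nat_lit 0) (.e (nat_lit 6416) (nat_lit 341) .nil))))))) (.g (nat_lit 4) .nil .nil))) 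
(.lf (nat_lit 253045) (.g (nat_lit 1245) (.e (nat_lit 163904) (nat_lit 12) (.e (nat_lit 426438) (nat_lit 18) (.e (nat_lit 98358) (nat_lit 26) (.e (nat_lit 426323) (nat_lit 13) .nil)))) .nil))))) (.nd (nat_lit 4) (.nd (nat_lit 5) (.nd (nat_lit 6) 
(.lf (nat_lit 252941) (.g (nat_lit 1669) (.e (nat_lit 163902) (nat_lit 12) (.e (nat_lit 426566) (nat_lit 34) (.e (nat_lit 393294) (nat_lit 26) (.e (nat_lit 475175) (nat_lit 24) .nil)))) .nil)) 
(.lf (nat_lit 253005) (.g (nat_lit 1665) (.e (nat_lit 163903) (nat_lit 12) (.e (nat_lit 426472) (nat_lit 25) (.e (nat_lit 319530) (nat_lit 16) (.e (nat_lit 286761) (nat_lit 13) (.e (nat_lit 401152) (nat_lit 1) (.e (nat_lit 57686) (nat_lit 156) .nil)))))) (.g (nat_lit 4) .nil .nil)))) (.nd (nat_lit 6) 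
(.lf (nat_lit 252973) (.g (nat_lit 4083) (.e (nat_lit 163903) (nat_lit 12) (.e (nat_lit 426131) (nat_lit 3) (.e (nat_lit 204868) (nat_lit 29) (.e (nat_lit 360475) (nat_lit 8) (.e (nat_lit 557089) (nat_lit 12) (.e (nat_lit 163848) (nat_lit 0) (.e (nat_lit 6416) (nat_lit 341) .nil))))))) (.g (nat_lit 4) .nil .nil))) 
(.lf (nat_lit 253037) (.g (nat_lit 2345) (.e (nat_lit 163903) (nat_lit 12) (.e (nat_lit 426568) (nat_lit 34) (.e (nat_lit 393283) (nat_lit 24) (.e (nat_lit 434231) (nat_lit 23) (.e (nat_lit 532483) (nat_lit 0) .nil))))) .nil)))) (.nd (nat_lit 5) (.nd (nat_lit 6) 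
(.lf (nat_lit 252957) (.g (nat_lit 2044) (.e (nat_lit 163902) (nat_lit 12) (.e (nat_lit 426568) (nat_lit 34) (.e (nat_lit 393271) (nat_lit 23) (.e (nat_lit 426382) (nat_lit 15) (.e (nat_lit 1800) (nat_lit 119) .nil))))) .nil)) 
(.lf (nat_lit 253021) (.g (nat_lit 3689) (.e (nat_lit 163903) (nat_lit 12) (.e (nat_lit 426568) (nat_lit 34) (.e (nat_lit 393267) (nat_lit 23) (.e (nat_lit 426436) (nat_lit 18) (.e (nat_lit 98335) (nat_lit 18) (.e (nat_lit 164325) (nat_lit 230) .nil)))))) (.g (nat_lit 6) .nil .nil)))) (.nd (nat_lit 6) 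
(.lf (nat_lit 252989) (.g (nat_lit 2597) (.e (nat_lit 163903) (nat_lit 12) (.e (nat_lit 426427) (nat_lit 17) (.e (nat_lit 90170) (nat_lit 13) (.e (nat_lit 172123) (nat_lit 13) (.e (nat_lit 483363) (nat_lit 18) (.e (nat_lit 57688) (nat_lit 156) .nil)))))) (.g (nat_lit 5) .nil .nil))) 
(.lf (nat_lit 253053) (.g (nat_lit 2280) (.e (nat_lit 163905) (nat_lit 12) (.e (nat_lit 426131) (nat_lit 3) (.e (nat_lit 204868) (nat_lit 29) (.e (nat_lit 360473) (nat_lit 8) (.e (nat_lit 557093) (nat_lit 12) .nil))))) .nil))))))) (.nd (nat_lit 2) (.nd (nat_lit 3) (.nd (nat_lit 4) (.nd (nat_lit 5) (.nd (nat_lit 6) 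
(.lf (nat_lit 252931) (.g (nat_lit 3750) (.e (nat_lit 163902) (nat_lit 12) (.e (nat_lit 426566) (nat_lit 34) (.e (nat_lit 393272) (nat_lit 23) (.e (nat_lit 426436) (nat_lit 18) (.e (nat_lit 98335) (nat_lit 18) (.e (nat_lit 164331) (nat_lit 230) .nil)))))) (.g (nat_lit 5) .nil .nil))) 
(.lf (nat_lit 252995) (.g (nat_lit 1314) (.e (nat_lit 163903) (nat_lit 12) (.e (nat_lit 426428) (nat_lit 17) (.e (nat_lit 90172) (nat_lit 14) (.e (nat_lit 180291) (nat_lit 48) .nil)))) .nil))) (.nd (nat_lit 6) 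
(.lf (nat_lit 252963) (.g (nat_lit 3559) (.e (nat_lit 163902) (nat_lit 12) (.e (nat_lit 426568) (nat_lit 34) (.e (nat_lit 393275) (nat_lit 23) (.e (nat_lit 426396) (nat_lit 15) (.e (nat_lit 1800) (nat_lit 119) (.e (nat_lit 516117) (nat_lit 1) (.e (nat_lit 164329) (nat_lit 230) .nil))))))) (.g (nat_lit 6) .nil .nil))) 
(.lf (nat_lit 253027) (.g (nat_lit 2417) (.e (nat_lit 163903) (nat_lit 12) (.e (nat_lit 426568) (nat_lit 34) (.e (nat_lit 393271) (nat_lit 23) (.e (nat_lit 426361) (nat_lit 15) (.e (nat_lit 1795) (nat_lit 119) .nil))))) .nil)))) (.nd (nat_lit 5) (.nd (nat_lit 6) 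
(.lf (nat_lit 252947) (.g (nat_lit 3889) (.e (nat_lit 163902) (nat_lit 12) (.e (nat_lit 426568) (nat_lit 34) (.e (nat_lit 393267) (nat_lit 23) (.e (nat_lit 426436) (nat_lit 18) (.e (nat_lit 98335) (nat_lit 18) (.e (nat_lit 164332) (nat_lit 230) .nil)))))) (.g (nat_lit 6) .nil .nil))) 
(.lf (nat_lit 253011) (.g (nat_lit 1439) (.e (nat_lit 163903) (nat_lit 12) (.e (nat_lit 426479) (nat_lit 27) (.e (nat_lit 336434) (nat_lit 30) (.e (nat_lit 450588) (nat_lit 10) (.e (nat_lit 573475) (nat_lit 12) .nil))))) .nil))) (.nd (nat_lit 6) 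
(.lf (nat_lit 252979) (.g (nat_lit 4945) (.e (nat_lit 163903) (nat_lit 12) (.e (nat_lit 426131) (nat_lit 3) (.e (nat_lit 204869) (nat_lit 29) (.e (nat_lit 360474) (nat_lit 8) (.e (nat_lit 557093) (nat_lit 12) (.e (nat_lit 163848) (nat_lit 0) (.e (nat_lit 6416) (nat_lit 341) .nil))))))) (.g (nat_lit 4) .nil .nil))) 
(.lf (nat_lit 253043) (.g (nat_lit 5099) (.e (nat_lit 163904) (nat_lit 12) (.e (nat_lit 426131) (nat_lit 3) (.e (nat_lit 204869) (nat_lit 29) (.e (nat_lit 360475) (nat_lit 8) (.e (nat_lit 557091) (nat_lit 12) .nil))))) .nil))))) (.nd (nat_lit 4) (.nd (nat_lit 5) (.nd (nat_lit 6) 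
(.lf (nat_lit 252939) (.g (nat_lit 1652) (.e (nat_lit 163902) (nat_lit 12) (.e (nat_lit 426566) (nat_lit 34) (.e (nat_lit 393273) (nat_lit 23) (.e (nat_lit 426402) (nat_lit 15) (.e (nat_lit 1788) (nat_lit 119) .nil))))) .nil)) 
(.lf (nat_lit 253003) (.g (nat_lit 2447) (.e (nat_lit 163903) (nat_lit 12) (.e (nat_lit 426437) (nat_lit 18) (.e (nat_lit 98370) (nat_lit 28) (.e (nat_lit 442385) (nat_lit 11) (.e (nat_lit 335995) (nat_lit 1) (.e (nat_lit 57688) (nat_lit 156) .nil)))))) (.g (nat_lit 5) .nil .nil)))) (.nd (nat_lit 6) 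
(.lf (nat_lit 252971) (.g (nat_lit 3867) (.e (nat_lit 163903) (nat_lit 12) (.e (nat_lit 426131) (nat_lit 3) (.e (nat_lit 204868) (nat_lit 29) (.e (nat_lit 360475) (nat_lit 8) (.e (nat_lit 557089) (nat_lit 12) (.e (nat_lit 163843) (nat_lit 0) (.e (nat_lit 6416) (nat_lit 341) .nil))))))) (.g (nat_lit 4) .nil .nil))) 
(.lf (nat_lit 253035) (.g (nat_lit 2649) (.e (nat_lit 163903) (nat_lit 12) (.e (nat_lit 426568) (nat_lit 34) (.e (nat_lit 393279) (nat_lit 23) (.e (nat_lit 426435) (nat_lit 18) (.e (nat_lit 98335) (nat_lit 18) (.e (nat_lit 164324) (nat_lit 230) .nil)))))) (.g (nat_lit 0) .nil .nil))))) (.nd (nat_lit 5) (.nd (nat_lit 6) 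
(.lf (nat_lit 252955) (.g (nat_lit 1983) (.e (nat_lit 163902) (nat_lit 12) (.e (nat_lit 426568) (nat_lit 34) (.e (nat_lit 393271) (nat_lit 23) (.e (nat_lit 426375) (nat_lit 15) .nil)))) .nil)) 
(.lf (nat_lit 253019) (.g (nat_lit 3822) (.e (nat_lit 163903) (nat_lit 12) (.e (nat_lit 426568) (nat_lit 34) (.e (nat_lit 393266) (nat_lit 23) (.e (nat_lit 426436) (nat_lit 18) (.e (nat_lit 98335) (nat_lit 18) (.e (nat_lit 164326) (nat_lit 230) .nil)))))) (.g (nat_lit 5) .nil .nil)))) (.nd (nat_lit 6) 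
(.lf (nat_lit 252987) (.g (nat_lit 5460) (.e (nat_lit 163903) (nat_lit 12) (.e (nat_lit 426131) (nat_lit 3) (.e (nat_lit 204869) (nat_lit 29) (.e (nat_lit 360475) (nat_lit 8) (.e (nat_lit 557091) (nat_lit 12) (.e (nat_lit 163849) (nat_lit 0) (.e (nat_lit 6416) (nat_lit 341) .nil))))))) (.g (nat_lit 4) .nil .nil))) 
(.lf (nat_lit 253051) (.g (nat_lit 2592) (.e (nat_lit 163905) (nat_lit 12) (.e (nat_lit 426131) (nat_lit 3) (.e (nat_lit 204868) (nat_lit 29) (.e (nat_lit 360473) (nat_lit 8) (.e (nat_lit 557089) (nat_lit 12) (.e (nat_lit 163844) (nat_lit 0) (.e (nat_lit 6421) (nat_lit 341) .nil))))))) (.g (nat_lit 4) .nil .nil))))))) (.nd (nat_lit 3) (.nd (nat_lit 4) (.nd (nat_lit 5) (.nd (nat_lit 6) 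
(.lf (nat_lit 252935) (.g (nat_lit 1233) (.e (nat_lit 163902) (nat_lit 12) (.e (nat_lit 426566) (nat_lit 34) (.e (nat_lit 393273) (nat_lit 23) (.e (nat_lit 426364) (nat_lit 15) .nil)))) .nil)) 
(.lf (nat_lit 252999) (.g (nat_lit 1290) (.e (nat_lit 163903) (nat_lit 12) (.e (nat_lit 426428) (nat_lit 17) (.e (nat_lit 90174) (nat_lit 14) (.e (nat_lit 180252) (nat_lit 10) .nil)))) .nil))) (.nd (nat_lit 6) 
(.lf (nat_lit 252967) (.g (nat_lit 2854) (.e (nat_lit 163902) (nat_lit 12) (.e (nat_lit 426568) (nat_lit 34) (.e (nat_lit 393279) (nat_lit 23) (.e (nat_lit 426435) (nat_lit 18) (.e (nat_lit 98335) (nat_lit 18) (.e (nat_lit 164332) (nat_lit 230) .nil)))))) (.g (nat_lit 0) .nil .nil))) 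
(.lf (nat_lit 253031) (.g (nat_lit 2001) (.e (nat_lit 163903) (nat_lit 12) (.e (nat_lit 426568) (nat_lit 34) (.e (nat_lit 393271) (nat_lit 23) (.e (nat_lit 426416) (nat_lit 15) .nil)))) .nil)))) (.nd (nat_lit 5) (.nd (nat_lit 6) 
(.lf (nat_lit 252951) (.g (nat_lit 2673) (.e (nat_lit 163902) (nat_lit 12) (.e (nat_lit 426568) (nat_lit 34) (.e (nat_lit 393268) (nat_lit 23) (.e (nat_lit 426436) (nat_lit 18) (.e (nat_lit 98335) (nat_lit 18) (.e (nat_lit 164331) (nat_lit 230) .nil)))))) (.g (nat_lit 4) .nil .nil))) 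
(.lf (nat_lit 253015) (.g (nat_lit 505) (.e (nat_lit 163903) (nat_lit 12) (.e (nat_lit 426566) (nat_lit 34) (.e (nat_lit 393266) (nat_lit 23) .nil))) .nil))) (.nd (nat_lit 6) 
(.lf (nat_lit 252983) (.g (nat_lit 4614) (.e (nat_lit 163903) (nat_lit 12) (.e (nat_lit 426131) (nat_lit 3) (.e (nat_lit 204869) (nat_lit 29) (.e (nat_lit 360474) (nat_lit 8) (.e (nat_lit 557094) (nat_lit 12) (.e (nat_lit 163849) (nat_lit 0) (.e (nat_lit 6416) (nat_lit 341) .nil))))))) (.g (nat_lit 4) .nil .nil))) 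
(.lf (nat_lit 253047) (.g (nat_lit 715) (.e (nat_lit 163904) (nat_lit 12) (.e (nat_lit 426564) (nat_lit 34) (.e (nat_lit 393273) (nat_lit 23) (.e (nat_lit 426436) (nat_lit 18) .nil)))) .nil))))) (.nd (nat_lit 4) (.nd (nat_lit 5) (.nd (nat_lit 6) 
(.lf (nat_lit 252943) (.g (nat_lit 1901) (.e (nat_lit 163902) (nat_lit 12) (.e (nat_lit 426568) (nat_lit 34) (.e (nat_lit 393253) (nat_lit 18) (.e (nat_lit 164421) (nat_lit 272) (.e (nat_lit 1172) (nat_lit 87) .nil))))) .nil)) 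
(.lf (nat_lit 253007) (.g (nat_lit 2244) (.e (nat_lit 163903) (nat_lit 12) (.e (nat_lit 426472) (nat_lit 25) (.e (nat_lit 319531) (nat_lit 16) (.e (nat_lit 286761) (nat_lit 13) (.e (nat_lit 401152) (nat_lit 1) (.e (nat_lit 57688) (nat_lit 156) .nil)))))) (.g (nat_lit 4) .nil .nil)))) (.nd (nat_lit 6) 
(.lf (nat_lit 252975) (.g (nat_lit 4455) (.e (nat_lit 163903) (nat_lit 12) (.e (nat_lit 426131) (nat_lit 3) (.e (nat_lit 204868) (nat_lit 29) (.e (nat_lit 360475) (nat_lit 8) (.e (nat_lit 557091) (nat_lit 12) (.e (nat_lit 163844) (nat_lit 0) (.e (nat_lit 6416) (nat_lit 341) .nil))))))) (.g (nat_lit 4) .nil .nil))) 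
(.lf (nat_lit 253039) (.g (nat_lit 1832) (.e (nat_lit 163903) (nat_lit 12) (.e (nat_lit 426568) (nat_lit 34) (.e (nat_lit 393295) (nat_lit 26) (.e (nat_lit 475177) (nat_lit 24) (.e (nat_lit 516118) (nat_lit 1) .nil))))) .nil)))) (.nd (nat_lit 5) (.nd (nat_lit 6) 
(.lf (nat_lit 252959) (.g (nat_lit 1848) (.e (nat_lit 163902) (nat_lit 12) (.e (nat_lit 426568) (nat_lit 34) (.e (nat_lit 393271) (nat_lit 23) (.e (nat_lit 426405) (nat_lit 15) .nil)))) .nil)) 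
(.lf (nat_lit 253023) (.g (nat_lit 3732) (.e (nat_lit 163903) (nat_lit 12) (.e (nat_lit 426568) (nat_lit 34) (.e (nat_lit 393267) (nat_lit 23) (.e (nat_lit 426436) (nat_lit 18) (.e (nat_lit 98335) (nat_lit 18) (.e (nat_lit 164327) (nat_lit 230) .nil)))))) (.g (nat_lit 6) .nil .nil)))) (.nd (nat_lit 6) 
(.lf (nat_lit 252991) (.g (nat_lit 3109) (.e (nat_lit 163903) (nat_lit 12) (.e (nat_lit 426428) (nat_lit 17) (.e (nat_lit 90170) (nat_lit 13) (.e (nat_lit 172106) (nat_lit 10) (.e (nat_lit 434200) (nat_lit 18) (.e (nat_lit 6839) (nat_lit 369) (.e (nat_lit 163863) (nat_lit 1) (.e (nat_lit 164326) (nat_lit 230) .nil)))))))) (.g (nat_lit 4) .nil .nil))) 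
(.lf (nat_lit 253055) (.g (nat_lit 3829) (.e (nat_lit 163905) (nat_lit 12) (.e (nat_lit 426131) (nat_lit 3) (.e (nat_lit 204868) (nat_lit 29) (.e (nat_lit 360475) (nat_lit 8) (.e (nat_lit 557089) (nat_lit 12) (.e (nat_lit 163843) (nat_lit 0) (.e (nat_lit 6421) (nat_lit 341) .nil))))))) (.g (nat_lit 4) .nil .nil))))))))))

noncomputable def tv3281 : DT := (.nd (nat_lit 0) (.nd (nat_lit 1) (.nd (nat_lit 2) (.nd (nat_lit 3) (.nd (nat_lit 4) (.nd (nat_lit 5) (.nd (nat_lit 6) 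
(.lf (nat_lit 253056) (.g (nat_lit 4672) (.e (nat_lit 163905) (nat_lit 12) (.e (nat_lit 426131) (nat_lit 3) (.e (nat_lit 204869) (nat_lit 29) (.e (nat_lit 360474) (nat_lit 8) (.e (nat_lit 557089) (nat_lit 12) .nil))))) .nil)) 
(.lf (nat_lit 253120) (.g (nat_lit 3272) (.e (nat_lit 163905) (nat_lit 12) (.e (nat_lit 426564) (nat_lit 34) (.e (nat_lit 393271) (nat_lit 23) (.e (nat_lit 426436) (nat_lit 18) (.e (nat_lit 98335) (nat_lit 18) (.e (nat_lit 164332) (nat_lit 230) .nil)))))) (.g (nat_lit 4) .nil .nil)))) (.nd (nat_lit 6) 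
(.lf (nat_lit 253088) (.g (nat_lit 2596) (.e (nat_lit 163905) (nat_lit 12) (.e (nat_lit 426437) (nat_lit 18) (.e (nat_lit 98370) (nat_lit 28) (.e (nat_lit 442385) (nat_lit 11) (.e (nat_lit 335996) (nat_lit 1) (.e (nat_lit 57692) (nat_lit 156) .nil)))))) (.g (nat_lit 5) .nil .nil))) 
(.lf (nat_lit 253152) (.g (nat_lit 3864) (.e (nat_lit 163906) (nat_lit 12) (.e (nat_lit 426506) (nat_lit 27) (.e (nat_lit 336178) (nat_lit 10) (.e (nat_lit 344117) (nat_lit 21) (.e (nat_lit 516195) (nat_lit 26) (.e (nat_lit 335988) (nat_lit 1) (.e (nat_lit 57927) (nat_lit 282) .nil))))))) (.g (nat_lit 0) .nil .nil))))) (.nd (nat_lit 5) (.nd (nat_lit 6) 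
(.lf (nat_lit 253072) (.g (nat_lit 2864) (.e (nat_lit 163905) (nat_lit 12) (.e (nat_lit 426320) (nat_lit 12) (.e (nat_lit 475207) (nat_lit 41) (.e (nat_lit 712755) (nat_lit 30) (.e (nat_lit 450568) (nat_lit 0) (.e (nat_lit 5599) (nat_lit 310) .nil)))))) (.g (nat_lit 6) .nil .nil))) 
(.lf (nat_lit 253136) (.g (nat_lit 41) (.e (nat_lit 163905) (nat_lit 12) (.e (nat_lit 426567) (nat_lit 34) (.e (nat_lit 393284) (nat_lit 24) .nil))) .nil))) (.nd (nat_lit 6) 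
(.lf (nat_lit 253104) (.g (nat_lit 191) (.e (nat_lit 163905) (nat_lit 12) (.e (nat_lit 426544) (nat_lit 30) (.e (nat_lit 360467) (nat_lit 3) .nil))) .nil)) 
(.lf (nat_lit 253168) (.g (nat_lit 2446) (.e (nat_lit 163906) (nat_lit 12) (.e (nat_lit 426566) (nat_lit 34) (.e (nat_lit 393273) (nat_lit 23) (.e (nat_lit 426364) (nat_lit 15) (.e (nat_lit 1781) (nat_lit 119) .nil))))) .nil))))) (.nd (nat_lit 4) (.nd (nat_lit 5) (.nd (nat_lit 6) 
(.lf (nat_lit 253064) (.g (nat_lit 2046) (.e (nat_lit 163905) (nat_lit 12) (.e (nat_lit 426294) (nat_lit 11) (.e (nat_lit 458810) (nat_lit 43) (.e (nat_lit 696344) (nat_lit 8) (.e (nat_lit 172106) (nat_lit 10) (.e (nat_lit 434202) (nat_lit 18) (.e (nat_lit 6420) (nat_lit 341) .nil))))))) (.g (nat_lit 5) .nil .nil))) 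
(.lf (nat_lit 253128) (.g (nat_lit 1072) (.e (nat_lit 163905) (nat_lit 12) (.e (nat_lit 426566) (nat_lit 34) (.e (nat_lit 393273) (nat_lit 23) (.e (nat_lit 426402) (nat_lit 15) .nil)))) .nil))) (.nd (nat_lit 6) 
(.lf (nat_lit 253096) (.g (nat_lit 3505) (.e (nat_lit 163905) (nat_lit 12) (.e (nat_lit 426438) (nat_lit 18) (.e (nat_lit 98373) (nat_lit 29) (.e (nat_lit 450563) (nat_lit 0) (.e (nat_lit 6839) (nat_lit 369) (.e (nat_lit 163860) (nat_lit 1) (.e (nat_lit 164332) (nat_lit 230) .nil))))))) (.g (nat_lit 4) .nil .nil))) 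
(.lf (nat_lit 253160) (.g (nat_lit 2321) (.e (nat_lit 163906) (nat_lit 12) (.e (nat_lit 426566) (nat_lit 34) (.e (nat_lit 393271) (nat_lit 23) (.e (nat_lit 426131) (nat_lit 3) (.e (nat_lit 204830) (nat_lit 18) .nil))))) .nil)))) (.nd (nat_lit 5) (.nd (nat_lit 6) 
(.lf (nat_lit 253080) (.g (nat_lit 1669) (.e (nat_lit 163905) (nat_lit 12) (.e (nat_lit 426428) (nat_lit 17) (.e (nat_lit 90185) (nat_lit 17) (.e (nat_lit 237622) (nat_lit 13) .nil)))) .nil)) 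
(.lf (nat_lit 253144) (.g (nat_lit 3497) (.e (nat_lit 163906) (nat_lit 12) (.e (nat_lit 426320) (nat_lit 12) (.e (nat_lit 475185) (nat_lit 29) (.e (nat_lit 557109) (nat_lit 15) (.e (nat_lit 188455) (nat_lit 24) (.e (nat_lit 237312) (nat_lit 138) .nil)))))) (.g (nat_lit 4) .nil .nil)))) (.nd (nat_lit 6) 
(.lf (nat_lit 253112) (.g (nat_lit 1952) (.e (nat_lit 163905) (nat_lit 12) (.e (nat_lit 426555) (nat_lit 32) (.e (nat_lit 376865) (nat_lit 22) (.e (nat_lit 90159) (nat_lit 11) (.e (nat_lit 24597) (nat_lit 1) .nil))))) .nil)) 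
(.lf (nat_lit 253176) (.g (nat_lit 2202) (.e (nat_lit 163906) (nat_lit 12) (.e (nat_lit 426566) (nat_lit 34) (.e (nat_lit 393286) (nat_lit 25) (.e (nat_lit 458789) (nat_lit 23) (.e (nat_lit 532502) (nat_lit 1) (.e (nat_lit 57692) (nat_lit 156) .nil)))))) (.g (nat_lit 5) .nil .nil))))))) (.nd (nat_lit 3) (.nd (nat_lit 4) (.nd (nat_lit 5) (.nd (nat_lit 6) 
(.lf (nat_lit 253060) (.g (nat_lit 4889) (.e (nat_lit 163905) (nat_lit 12) (.e (nat_lit 426131) (nat_lit 3) (.e (nat_lit 204869) (nat_lit 29) (.e (nat_lit 360475) (nat_lit 8) (.e (nat_lit 557091) (nat_lit 12) (.e (nat_lit 163843) (nat_lit 0) (.e (nat_lit 6418) (nat_lit 341) .nil))))))) (.g (nat_lit 4) .nil .nil))) 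
(.lf (nat_lit 253124) (.g (nat_lit 1860) (.e (nat_lit 163905) (nat_lit 12) (.e (nat_lit 426566) (nat_lit 34) (.e (nat_lit 393271) (nat_lit 23) (.e (nat_lit 426434) (nat_lit 18) .nil)))) .nil))) (.nd (nat_lit 6) 
(.lf (nat_lit 253092) (.g (nat_lit 1774) (.e (nat_lit 163905) (nat_lit 12) (.e (nat_lit 426438) (nat_lit 18) (.e (nat_lit 98373) (nat_lit 29) (.e (nat_lit 450560) (nat_lit 0) .nil)))) .nil)) 
(.lf (nat_lit 253156) (.g (nat_lit 728) (.e (nat_lit 163906) (nat_lit 12) (.e (nat_lit 426555) (nat_lit 32) (.e (nat_lit 376869) (nat_lit 23) .nil))) .nil)))) (.nd (nat_lit 5) (.nd (nat_lit 6) 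
(.lf (nat_lit 253076) (.g (nat_lit 2227) (.e (nat_lit 163905) (nat_lit 12) (.e (nat_lit 426428) (nat_lit 17) (.e (nat_lit 90170) (nat_lit 13) (.e (nat_lit 172113) (nat_lit 10) (.e (nat_lit 434200) (nat_lit 18) (.e (nat_lit 6839) (nat_lit 369) (.e (nat_lit 163860) (nat_lit 1) (.e (nat_lit 164332) (nat_lit 230) .nil)))))))) (.g (nat_lit 4) .nil .nil))) 
(.lf (nat_lit 253140) (.g (nat_lit 2947) (.e (nat_lit 163905) (nat_lit 12) (.e (nat_lit 426568) (nat_lit 34) (.e (nat_lit 393283) (nat_lit 24) (.e (nat_lit 434231) (nat_lit 23) (.e (nat_lit 532483) (nat_lit 0) (.e (nat_lit 1030) (nat_lit 81) (.e (nat_lit 7290) (nat_lit 386) .nil))))))) (.g (nat_lit 4) .nil .nil)))) (.nd (nat_lit 6) 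
(.lf (nat_lit 253108) (.g (nat_lit 2808) (.e (nat_lit 163905) (nat_lit 12) (.e (nat_lit 426555) (nat_lit 32) (.e (nat_lit 376862) (nat_lit 22) (.e (nat_lit 90160) (nat_lit 11) (.e (nat_lit 24580) (nat_lit 0) (.e (nat_lit 1089) (nat_lit 81) (.e (nat_lit 5599) (nat_lit 310) .nil))))))) (.g (nat_lit 4) .nil .nil))) 
(.lf (nat_lit 253172) (.g (nat_lit 2686) (.e (nat_lit 163906) (nat_lit 12) (.e (nat_lit 426566) (nat_lit 34) (.e (nat_lit 393273) (nat_lit 23) (.e (nat_lit 426438) (nat_lit 18) (.e (nat_lit 98333) (nat_lit 18) (.e (nat_lit 164325) (nat_lit 230) .nil)))))) (.g (nat_lit 4) .nil .nil)))))) (.nd (nat_lit 4) (.nd (nat_lit 5) (.nd (nat_lit 6) 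
(.lf (nat_lit 253068) (.g (nat_lit 3630) (.e (nat_lit 163905) (nat_lit 12) (.e (nat_lit 426320) (nat_lit 12) (.e (nat_lit 475185) (nat_lit 29) (.e (nat_lit 557109) (nat_lit 15) (.e (nat_lit 188455) (nat_lit 24) (.e (nat_lit 237312) (nat_lit 138) .nil)))))) (.g (nat_lit 4) .nil .nil))) 
(.lf (nat_lit 253132) (.g (nat_lit 3569) (.e (nat_lit 163905) (nat_lit 12) (.e (nat_lit 426567) (nat_lit 34) (.e (nat_lit 393268) (nat_lit 23) (.e (nat_lit 426436) (nat_lit 18) (.e (nat_lit 98335) (nat_lit 18) (.e (nat_lit 164330) (nat_lit 230) .nil)))))) (.g (nat_lit 5) .nil .nil)))) (.nd (nat_lit 6) 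
(.lf (nat_lit 253100) (.g (nat_lit 2001) (.e (nat_lit 163905) (nat_lit 12) (.e (nat_lit 426472) (nat_lit 25) (.e (nat_lit 319531) (nat_lit 16) (.e (nat_lit 286761) (nat_lit 13) (.e (nat_lit 401152) (nat_lit 1) (.e (nat_lit 57691) (nat_lit 156) .nil)))))) (.g (nat_lit 4) .nil .nil))) 
(.lf (nat_lit 253164) (.g (nat_lit 1204) (.e (nat_lit 163906) (nat_lit 12) (.e (nat_lit 426566) (nat_lit 34) (.e (nat_lit 393272) (nat_lit 23) (.e (nat_lit 426131) (nat_lit 3) .nil)))) .nil)))) (.nd (nat_lit 5) (.nd (nat_lit 6) 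
(.lf (nat_lit 253084) (.g (nat_lit 1467) (.e (nat_lit 163905) (nat_lit 12) (.e (nat_lit 426436) (nat_lit 18) (.e (nat_lit 98358) (nat_lit 26) (.e (nat_lit 433920) (nat_lit 13) .nil)))) .nil)) 
(.lf (nat_lit 253148) (.g (nat_lit 1354) (.e (nat_lit 163906) (nat_lit 12) (.e (nat_lit 426428) (nat_lit 17) (.e (nat_lit 90170) (nat_lit 13) (.e (nat_lit 172095) (nat_lit 9) .nil)))) .nil))) (.nd (nat_lit 6) 
(.lf (nat_lit 253116) (.g (nat_lit 2494) (.e (nat_lit 163905) (nat_lit 12) (.e (nat_lit 426555) (nat_lit 32) (.e (nat_lit 376865) (nat_lit 22) (.e (nat_lit 90160) (nat_lit 11) (.e (nat_lit 24584) (nat_lit 0) (.e (nat_lit 1076) (nat_lit 81) (.e (nat_lit 5594) (nat_lit 310) .nil))))))) (.g (nat_lit 4) .nil .nil))) 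
(.lf (nat_lit 253180) (.g (nat_lit 2057) (.e (nat_lit 163906) (nat_lit 12) (.e (nat_lit 426566) (nat_lit 34) (.e (nat_lit 393290) (nat_lit 26) (.e (nat_lit 475179) (nat_lit 24) (.e (nat_lit 516119) (nat_lit 1) (.e (nat_lit 164325) (nat_lit 230) .nil)))))) (.g (nat_lit 4) .nil .nil)))))))) (.nd (nat_lit 2) (.nd (nat_lit 3) (.nd (nat_lit 4) (.nd (nat_lit 5) (.nd (nat_lit 6) 
(.lf (nat_lit 253058) (.g (nat_lit 5818) (.e (nat_lit 163905) (nat_lit 12) (.e (nat_lit 426131) (nat_lit 3) (.e (nat_lit 204869) (nat_lit 29) (.e (nat_lit 360475) (nat_lit 8) (.e (nat_lit 557089) (nat_lit 12) (.e (nat_lit 163843) (nat_lit 0) (.e (nat_lit 6421) (nat_lit 341) .nil))))))) (.g (nat_lit 5) .nil .nil))) 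
(.lf (nat_lit 253122) (.g (nat_lit 3122) (.e (nat_lit 163905) (nat_lit 12) (.e (nat_lit 426566) (nat_lit 34) (.e (nat_lit 393268) (nat_lit 23) (.e (nat_lit 426436) (nat_lit 18) (.e (nat_lit 98335) (nat_lit 18) (.e (nat_lit 164325) (nat_lit 230) .nil)))))) (.g (nat_lit 0) .nil .nil)))) (.nd (nat_lit 6) 
(.lf (nat_lit 253090) (.g (nat_lit 1040) (.e (nat_lit 163905) (nat_lit 12) (.e (nat_lit 426438) (nat_lit 18) (.e (nat_lit 98365) (nat_lit 26) (.e (nat_lit 426334) (nat_lit 13) .nil)))) .nil)) 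
(.lf (nat_lit 253154) (.g (nat_lit 570) (.e (nat_lit 163906) (nat_lit 12) (.e (nat_lit 426555) (nat_lit 32) (.e (nat_lit 376862) (nat_lit 22) .nil))) .nil)))) (.nd (nat_lit 5) (.nd (nat_lit 6) 
(.lf (nat_lit 253074) (.g (nat_lit 1662) (.e (nat_lit 163905) (nat_lit 12) (.e (nat_lit 426428) (nat_lit 17) (.e (nat_lit 90170) (nat_lit 13) (.e (nat_lit 172092) (nat_lit 9) .nil)))) .nil)) 
(.lf (nat_lit 253138) (.g (nat_lit 2345) (.e (nat_lit 163905) (nat_lit 12) (.e (nat_lit 426568) (nat_lit 34) (.e (nat_lit 393279) (nat_lit 23) (.e (nat_lit 426435) (nat_lit 18) (.e (nat_lit 98334) (nat_lit 18) (.e (nat_lit 164332) (nat_lit 230) .nil)))))) (.g (nat_lit 0) .nil .nil)))) (.nd (nat_lit 6) 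
(.lf (nat_lit 253106) (.g (nat_lit 1977) (.e (nat_lit 163905) (nat_lit 12) (.e (nat_lit 426545) (nat_lit 30) (.e (nat_lit 360475) (nat_lit 8) (.e (nat_lit 557119) (nat_lit 18) (.e (nat_lit 2787) (nat_lit 179) .nil))))) .nil)) 
(.lf (nat_lit 253170) (.g (nat_lit 1721) (.e (nat_lit 163906) (nat_lit 12) (.e (nat_lit 426566) (nat_lit 34) (.e (nat_lit 393273) (nat_lit 23) (.e (nat_lit 426402) (nat_lit 15) .nil)))) .nil))))) (.nd (nat_lit 4) (.nd (nat_lit 5) (.nd (nat_lit 6) 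
(.lf (nat_lit 253066) (.g (nat_lit 2812) (.e (nat_lit 163905) (nat_lit 12) (.e (nat_lit 426294) (nat_lit 11) (.e (nat_lit 458810) (nat_lit 43) (.e (nat_lit 696344) (nat_lit 8) (.e (nat_lit 172115) (nat_lit 10) (.e (nat_lit 434202) (nat_lit 18) (.e (nat_lit 6421) (nat_lit 341) .nil))))))) (.g (nat_lit 0) .nil .nil))) 
(.lf (nat_lit 253130) (.g (nat_lit 457) (.e (nat_lit 163905) (nat_lit 12) (.e (nat_lit 426566) (nat_lit 34) (.e (nat_lit 393278) (nat_lit 23) .nil))) .nil))) (.nd (nat_lit 6) 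
(.lf (nat_lit 253098) (.g (nat_lit 2564) (.e (nat_lit 163905) (nat_lit 12) (.e (nat_lit 426438) (nat_lit 18) (.e (nat_lit 98373) (nat_lit 29) (.e (nat_lit 450568) (nat_lit 0) (.e (nat_lit 7936) (nat_lit 369) .nil))))) .nil)) 
(.lf (nat_lit 253162) (.g (nat_lit 3646) (.e (nat_lit 163906) (nat_lit 12) (.e (nat_lit 426566) (nat_lit 34) (.e (nat_lit 393271) (nat_lit 23) (.e (nat_lit 426436) (nat_lit 18) (.e (nat_lit 98333) (nat_lit 18) (.e (nat_lit 164325) (nat_lit 230) .nil)))))) (.g (nat_lit 6) .nil .nil))))) (.nd (nat_lit 5) (.nd (nat_lit 6) 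
(.lf (nat_lit 253082) (.g (nat_lit 2112) (.e (nat_lit 163905) (nat_lit 12) (.e (nat_lit 426434) (nat_lit 18) (.e (nat_lit 98370) (nat_lit 28) (.e (nat_lit 442390) (nat_lit 11) (.e (nat_lit 335986) (nat_lit 1) (.e (nat_lit 57692) (nat_lit 156) .nil)))))) (.g (nat_lit 4) .nil .nil))) 
(.lf (nat_lit 253146) (.g (nat_lit 1523) (.e (nat_lit 163906) (nat_lit 12) (.e (nat_lit 426320) (nat_lit 12) (.e (nat_lit 475207) (nat_lit 41) (.e (nat_lit 712755) (nat_lit 30) (.e (nat_lit 458496) (nat_lit 0) (.e (nat_lit 5587) (nat_lit 310) .nil)))))) (.g (nat_lit 4) .nil .nil)))) (.nd (nat_lit 6) 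
(.lf (nat_lit 253114) (.g (nat_lit 2598) (.e (nat_lit 163905) (nat_lit 12) (.e (nat_lit 426555) (nat_lit 32) (.e (nat_lit 376865) (nat_lit 22) (.e (nat_lit 90160) (nat_lit 11) (.e (nat_lit 24584) (nat_lit 0) (.e (nat_lit 975) (nat_lit 81) (.e (nat_lit 5594) (nat_lit 310) .nil))))))) (.g (nat_lit 4) .nil .nil))) 
(.lf (nat_lit 253178) (.g (nat_lit 2183) (.e (nat_lit 163906) (nat_lit 12) (.e (nat_lit 426566) (nat_lit 34) (.e (nat_lit 393287) (nat_lit 25) (.e (nat_lit 458789) (nat_lit 23) (.e (nat_lit 532502) (nat_lit 1) (.e (nat_lit 57692) (nat_lit 156) .nil)))))) (.g (nat_lit 5) .nil .nil))))))) (.nd (nat_lit 3) (.nd (nat_lit 4) (.nd (nat_lit 5) (.nd (nat_lit 6) 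
(.lf (nat_lit 253062) (.g (nat_lit 5243) (.e (nat_lit 163905) (nat_lit 12) (.e (nat_lit 426131) (nat_lit 3) (.e (nat_lit 204869) (nat_lit 29) (.e (nat_lit 360475) (nat_lit 8) (.e (nat_lit 557091) (nat_lit 12) (.e (nat_lit 163847) (nat_lit 0) (.e (nat_lit 6421) (nat_lit 341) .nil))))))) (.g (nat_lit 4) .nil .nil))) 
(.lf (nat_lit 253126) (.g (nat_lit 2883) (.e (nat_lit 163905) (nat_lit 12) (.e (nat_lit 426566) (nat_lit 34) (.e (nat_lit 393272) (nat_lit 23) (.e (nat_lit 426436) (nat_lit 18) (.e (nat_lit 98335) (nat_lit 18) (.e (nat_lit 164325) (nat_lit 230) .nil)))))) (.g (nat_lit 5) .nil .nil)))) (.nd (nat_lit 6) 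
(.lf (nat_lit 253094) (.g (nat_lit 3598) (.e (nat_lit 163905) (nat_lit 12) (.e (nat_lit 426438) (nat_lit 18) (.e (nat_lit 98373) (nat_lit 29) (.e (nat_lit 450562) (nat_lit 0) (.e (nat_lit 6839) (nat_lit 369) (.e (nat_lit 163860) (nat_lit 1) (.e (nat_lit 164332) (nat_lit 230) .nil))))))) (.g (nat_lit 4) .nil .nil))) 
(.lf (nat_lit 253158) (.g (nat_lit 1805) (.e (nat_lit 163906) (nat_lit 12) (.e (nat_lit 426566) (nat_lit 34) (.e (nat_lit 393271) (nat_lit 23) (.e (nat_lit 426131) (nat_lit 3) .nil)))) .nil)))) (.nd (nat_lit 5) (.nd (nat_lit 6) 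
(.lf (nat_lit 253078) (.g (nat_lit 2153) (.e (nat_lit 163905) (nat_lit 12) (.e (nat_lit 426428) (nat_lit 17) (.e (nat_lit 90174) (nat_lit 14) (.e (nat_lit 180250) (nat_lit 10) (.e (nat_lit 573489) (nat_lit 14) (.e (nat_lit 73731) (nat_lit 0) (.e (nat_lit 7936) (nat_lit 255) .nil))))))) (.g (nat_lit 4) .nil .nil))) 
(.lf (nat_lit 253142) (.g (nat_lit 2658) (.e (nat_lit 163905) (nat_lit 12) (.e (nat_lit 426568) (nat_lit 34) (.e (nat_lit 393283) (nat_lit 24) (.e (nat_lit 434231) (nat_lit 23) (.e (nat_lit 532483) (nat_lit 0) (.e (nat_lit 1036) (nat_lit 81) (.e (nat_lit 7289) (nat_lit 386) .nil))))))) (.g (nat_lit 4) .nil .nil)))) (.nd (nat_lit 6) 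
(.lf (nat_lit 253110) (.g (nat_lit 2799) (.e (nat_lit 163905) (nat_lit 12) (.e (nat_lit 426555) (nat_lit 32) (.e (nat_lit 376862) (nat_lit 22) (.e (nat_lit 90160) (nat_lit 11) (.e (nat_lit 24584) (nat_lit 0) (.e (nat_lit 1075) (nat_lit 81) (.e (nat_lit 5594) (nat_lit 310) .nil))))))) (.g (nat_lit 4) .nil .nil))) 
(.lf (nat_lit 253174) (.g (nat_lit 936) (.e (nat_lit 163906) (nat_lit 12) (.e (nat_lit 426566) (nat_lit 34) (.e (nat_lit 393279) (nat_lit 23) .nil))) .nil))))) (.nd (nat_lit 4) (.nd (nat_lit 5) (.nd (nat_lit 6) 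
(.lf (nat_lit 253070) (.g (nat_lit 1925) (.e (nat_lit 163905) (nat_lit 12) (.e (nat_lit 426320) (nat_lit 12) (.e (nat_lit 475207) (nat_lit 41) (.e (nat_lit 712753) (nat_lit 30) (.e (nat_lit 458496) (nat_lit 0) (.e (nat_lit 5587) (nat_lit 310) .nil)))))) (.g (nat_lit 4) .nil .nil))) 
(.lf (nat_lit 253134) (.g (nat_lit 2622) (.e (nat_lit 163905) (nat_lit 12) (.e (nat_lit 426567) (nat_lit 34) (.e (nat_lit 393270) (nat_lit 23) (.e (nat_lit 426438) (nat_lit 18) (.e (nat_lit 98334) (nat_lit 18) (.e (nat_lit 164330) (nat_lit 230) .nil)))))) (.g (nat_lit 5) .nil .nil)))) (.nd (nat_lit 6) 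
(.lf (nat_lit 253102) (.g (nat_lit 1176) (.e (nat_lit 163905) (nat_lit 12) (.e (nat_lit 426538) (nat_lit 29) (.e (nat_lit 352315) (nat_lit 23) (.e (nat_lit 98317) (nat_lit 9) .nil)))) .nil)) 
(.lf (nat_lit 253166) (.g (nat_lit 1691) (.e (nat_lit 163906) (nat_lit 12) (.e (nat_lit 426566) (nat_lit 34) (.e (nat_lit 393273) (nat_lit 23) (.e (nat_lit 426131) (nat_lit 3) .nil)))) .nil)))) (.nd (nat_lit 5) (.nd (nat_lit 6) 
(.lf (nat_lit 253086) (.g (nat_lit 1874) (.e (nat_lit 163905) (nat_lit 12) (.e (nat_lit 426436) (nat_lit 18) (.e (nat_lit 98381) (nat_lit 31) (.e (nat_lit 466954) (nat_lit 11) (.e (nat_lit 335993) (nat_lit 1) .nil))))) .nil)) 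
(.lf (nat_lit 253150) (.g (nat_lit 1257) (.e (nat_lit 163906) (nat_lit 12) (.e (nat_lit 426437) (nat_lit 18) (.e (nat_lit 98370) (nat_lit 28) (.e (nat_lit 442388) (nat_lit 11) .nil)))) .nil))) (.nd (nat_lit 6) 
(.lf (nat_lit 253118) (.g (nat_lit 2016) (.e (nat_lit 163905) (nat_lit 12) (.e (nat_lit 426564) (nat_lit 34) (.e (nat_lit 393268) (nat_lit 23) (.e (nat_lit 426438) (nat_lit 18) (.e (nat_lit 98335) (nat_lit 18) (.e (nat_lit 164330) (nat_lit 230) .nil)))))) (.g (nat_lit 4) .nil .nil))) 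
(.lf (nat_lit 253182) (.g (nat_lit 2201) (.e (nat_lit 163906) (nat_lit 12) (.e (nat_lit 426566) (nat_lit 34) (.e (nat_lit 393293) (nat_lit 26) (.e (nat_lit 475177) (nat_lit 24) (.e (nat_lit 516119) (nat_lit 1) (.e (nat_lit 164325) (nat_lit 230) .nil)))))) (.g (nat_lit 5) .nil .nil))))))))) (.nd (nat_lit 1) (.nd (nat_lit 2) (.nd (nat_lit 3) (.nd (nat_lit 4) (.nd (nat_lit 5) (.nd (nat_lit 6) 
(.lf (nat_lit 253057) (.g (nat_lit 4289) (.e (nat_lit 163905) (nat_lit 12) (.e (nat_lit 426131) (nat_lit 3) (.e (nat_lit 204869) (nat_lit 29) (.e (nat_lit 360474) (nat_lit 8) (.e (nat_lit 557094) (nat_lit 12) .nil))))) .nil)) 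
(.lf (nat_lit 253121) (.g (nat_lit 3432) (.e (nat_lit 163905) (nat_lit 12) (.e (nat_lit 426566) (nat_lit 34) (.e (nat_lit 393268) (nat_lit 23) (.e (nat_lit 426436) (nat_lit 18) (.e (nat_lit 98335) (nat_lit 18) (.e (nat_lit 164324) (nat_lit 230) .nil)))))) (.g (nat_lit 6) .nil .nil)))) (.nd (nat_lit 6) 
(.lf (nat_lit 253089) (.g (nat_lit 2341) (.e (nat_lit 163905) (nat_lit 12) (.e (nat_lit 426437) (nat_lit 18) (.e (nat_lit 98370) (nat_lit 28) (.e (nat_lit 442390) (nat_lit 11) (.e (nat_lit 335986) (nat_lit 1) (.e (nat_lit 57688) (nat_lit 156) .nil)))))) (.g (nat_lit 4) .nil .nil))) 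
(.lf (nat_lit 253153) (.g (nat_lit 1561) (.e (nat_lit 163906) (nat_lit 12) (.e (nat_lit 426544) (nat_lit 30) (.e (nat_lit 360467) (nat_lit 3) (.e (nat_lit 516195) (nat_lit 26) (.e (nat_lit 335986) (nat_lit 1) .nil))))) .nil)))) (.nd (nat_lit 5) (.nd (nat_lit 6) 
(.lf (nat_lit 253073) (.g (nat_lit 2685) (.e (nat_lit 163905) (nat_lit 12) (.e (nat_lit 426320) (nat_lit 12) (.e (nat_lit 475207) (nat_lit 41) (.e (nat_lit 712755) (nat_lit 30) (.e (nat_lit 450569) (nat_lit 0) (.e (nat_lit 5599) (nat_lit 310) .nil)))))) (.g (nat_lit 5) .nil .nil))) 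
(.lf (nat_lit 253137) (.g (nat_lit 1792) (.e (nat_lit 163905) (nat_lit 12) (.e (nat_lit 426568) (nat_lit 34) (.e (nat_lit 393271) (nat_lit 23) (.e (nat_lit 433920) (nat_lit 18) .nil)))) .nil))) (.nd (nat_lit 6) 
(.lf (nat_lit 253105) (.g (nat_lit 1370) (.e (nat_lit 163905) (nat_lit 12) (.e (nat_lit 426545) (nat_lit 30) (.e (nat_lit 360475) (nat_lit 8) (.e (nat_lit 564992) (nat_lit 4) .nil)))) .nil)) 
(.lf (nat_lit 253169) (.g (nat_lit 1780) (.e (nat_lit 163906) (nat_lit 12) (.e (nat_lit 426566) (nat_lit 34) (.e (nat_lit 393273) (nat_lit 23) (.e (nat_lit 426392) (nat_lit 15) .nil)))) .nil))))) (.nd (nat_lit 4) (.nd (nat_lit 5) (.nd (nat_lit 6) 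
(.lf (nat_lit 253065) (.g (nat_lit 1988) (.e (nat_lit 163905) (nat_lit 12) (.e (nat_lit 426294) (nat_lit 11) (.e (nat_lit 458810) (nat_lit 43) (.e (nat_lit 696344) (nat_lit 8) (.e (nat_lit 172113) (nat_lit 10) (.e (nat_lit 434207) (nat_lit 18) (.e (nat_lit 6418) (nat_lit 341) .nil))))))) (.g (nat_lit 5) .nil .nil))) 
(.lf (nat_lit 253129) (.g (nat_lit 3504) (.e (nat_lit 163905) (nat_lit 12) (.e (nat_lit 426566) (nat_lit 34) (.e (nat_lit 393273) (nat_lit 23) (.e (nat_lit 426436) (nat_lit 18) (.e (nat_lit 98335) (nat_lit 18) (.e (nat_lit 164324) (nat_lit 230) .nil)))))) (.g (nat_lit 5) .nil .nil)))) (.nd (nat_lit 6) 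
(.lf (nat_lit 253097) (.g (nat_lit 2827) (.e (nat_lit 163905) (nat_lit 12) (.e (nat_lit 426438) (nat_lit 18) (.e (nat_lit 98373) (nat_lit 29) (.e (nat_lit 450565) (nat_lit 0) (.e (nat_lit 7936) (nat_lit 369) .nil))))) .nil)) 
(.lf (nat_lit 253161) (.g (nat_lit 2902) (.e (nat_lit 163906) (nat_lit 12) (.e (nat_lit 426566) (nat_lit 34) (.e (nat_lit 393271) (nat_lit 23) (.e (nat_lit 426131) (nat_lit 3) (.e (nat_lit 204831) (nat_lit 18) (.e (nat_lit 57692) (nat_lit 156) .nil)))))) (.g (nat_lit 5) .nil .nil))))) (.nd (nat_lit 5) (.nd (nat_lit 6) 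
(.lf (nat_lit 253081) (.g (nat_lit 3629) (.e (nat_lit 163905) (nat_lit 12) (.e (nat_lit 426428) (nat_lit 17) (.e (nat_lit 90185) (nat_lit 17) (.e (nat_lit 237624) (nat_lit 13) (.e (nat_lit 483363) (nat_lit 18) (.e (nat_lit 57688) (nat_lit 156) .nil)))))) (.g (nat_lit 0) .nil .nil))) 
(.lf (nat_lit 253145) (.g (nat_lit 1591) (.e (nat_lit 163906) (nat_lit 12) (.e (nat_lit 426320) (nat_lit 12) (.e (nat_lit 475207) (nat_lit 41) (.e (nat_lit 712755) (nat_lit 30) (.e (nat_lit 450563) (nat_lit 0) (.e (nat_lit 7936) (nat_lit 310) .nil)))))) (.g (nat_lit 4) .nil .nil)))) (.nd (nat_lit 6) 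
(.lf (nat_lit 253113) (.g (nat_lit 3122) (.e (nat_lit 163905) (nat_lit 12) (.e (nat_lit 426555) (nat_lit 32) (.e (nat_lit 376865) (nat_lit 22) (.e (nat_lit 90160) (nat_lit 11) (.e (nat_lit 24584) (nat_lit 0) (.e (nat_lit 968) (nat_lit 81) (.e (nat_lit 5591) (nat_lit 310) .nil))))))) (.g (nat_lit 4) .nil .nil))) 
(.lf (nat_lit 253177) (.g (nat_lit 758) (.e (nat_lit 163906) (nat_lit 12) (.e (nat_lit 426566) (nat_lit 34) (.e (nat_lit 393287) (nat_lit 25) .nil))) .nil)))))) (.nd (nat_lit 3) (.nd (nat_lit 4) (.nd (nat_lit 5) (.nd (nat_lit 6) 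
(.lf (nat_lit 253061) (.g (nat_lit 5169) (.e (nat_lit 163905) (nat_lit 12) (.e (nat_lit 426131) (nat_lit 3) (.e (nat_lit 204869) (nat_lit 29) (.e (nat_lit 360475) (nat_lit 8) (.e (nat_lit 557091) (nat_lit 12) (.e (nat_lit 163843) (nat_lit 0) (.e (nat_lit 6420) (nat_lit 341) .nil))))))) (.g (nat_lit 4) .nil .nil))) 
(.lf (nat_lit 253125) (.g (nat_lit 3198) (.e (nat_lit 163905) (nat_lit 12) (.e (nat_lit 426566) (nat_lit 34) (.e (nat_lit 393272) (nat_lit 23) (.e (nat_lit 426436) (nat_lit 18) (.e (nat_lit 98335) (nat_lit 18) (.e (nat_lit 164324) (nat_lit 230) .nil)))))) (.g (nat_lit 5) .nil .nil)))) (.nd (nat_lit 6) 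
(.lf (nat_lit 253093) (.g (nat_lit 2890) (.e (nat_lit 163905) (nat_lit 12) (.e (nat_lit 426438) (nat_lit 18) (.e (nat_lit 98373) (nat_lit 29) (.e (nat_lit 450561) (nat_lit 0) (.e (nat_lit 6839) (nat_lit 369) .nil))))) .nil)) 
(.lf (nat_lit 253157) (.g (nat_lit 867) (.e (nat_lit 163906) (nat_lit 12) (.e (nat_lit 426566) (nat_lit 34) (.e (nat_lit 393266) (nat_lit 23) .nil))) .nil)))) (.nd (nat_lit 5) (.nd (nat_lit 6) 
(.lf (nat_lit 253077) (.g (nat_lit 2202) (.e (nat_lit 163905) (nat_lit 12) (.e (nat_lit 426428) (nat_lit 17) (.e (nat_lit 90170) (nat_lit 13) (.e (nat_lit 172113) (nat_lit 10) (.e (nat_lit 434200) (nat_lit 18) (.e (nat_lit 6841) (nat_lit 369) (.e (nat_lit 163860) (nat_lit 1) (.e (nat_lit 164332) (nat_lit 230) .nil)))))))) (.g (nat_lit 4) .nil .nil))) 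
(.lf (nat_lit 253141) (.g (nat_lit 2404) (.e (nat_lit 163905) (nat_lit 12) (.e (nat_lit 426568) (nat_lit 34) (.e (nat_lit 393283) (nat_lit 24) (.e (nat_lit 434231) (nat_lit 23) (.e (nat_lit 532483) (nat_lit 0) (.e (nat_lit 1036) (nat_lit 81) (.e (nat_lit 7287) (nat_lit 386) .nil))))))) (.g (nat_lit 4) .nil .nil)))) (.nd (nat_lit 6) 
(.lf (nat_lit 253109) (.g (nat_lit 3581) (.e (nat_lit 163905) (nat_lit 12) (.e (nat_lit 426555) (nat_lit 32) (.e (nat_lit 376862) (nat_lit 22) (.e (nat_lit 90160) (nat_lit 11) (.e (nat_lit 24584) (nat_lit 0) (.e (nat_lit 1055) (nat_lit 81) (.e (nat_lit 5599) (nat_lit 310) .nil))))))) (.g (nat_lit 5) .nil .nil))) 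
(.lf (nat_lit 253173) (.g (nat_lit 2540) (.e (nat_lit 163906) (nat_lit 12) (.e (nat_lit 426566) (nat_lit 34) (.e (nat_lit 393273) (nat_lit 23) (.e (nat_lit 426438) (nat_lit 18) (.e (nat_lit 98335) (nat_lit 18) .nil))))) .nil))))) (.nd (nat_lit 4) (.nd (nat_lit 5) (.nd (nat_lit 6) 
(.lf (nat_lit 253069) (.g (nat_lit 2572) (.e (nat_lit 163905) (nat_lit 12) (.e (nat_lit 426320) (nat_lit 12) (.e (nat_lit 475207) (nat_lit 41) (.e (nat_lit 712753) (nat_lit 30) (.e (nat_lit 450568) (nat_lit 0) (.e (nat_lit 5599) (nat_lit 310) .nil)))))) (.g (nat_lit 6) .nil .nil))) 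
(.lf (nat_lit 253133) (.g (nat_lit 3746) (.e (nat_lit 163905) (nat_lit 12) (.e (nat_lit 426567) (nat_lit 34) (.e (nat_lit 393268) (nat_lit 23) (.e (nat_lit 426438) (nat_lit 18) (.e (nat_lit 98334) (nat_lit 18) (.e (nat_lit 164330) (nat_lit 230) .nil)))))) (.g (nat_lit 6) .nil .nil)))) (.nd (nat_lit 6) 
(.lf (nat_lit 253101) (.g (nat_lit 2328) (.e (nat_lit 163905) (nat_lit 12) (.e (nat_lit 426479) (nat_lit 27) (.e (nat_lit 336430) (nat_lit 29) (.e (nat_lit 442427) (nat_lit 23) (.e (nat_lit 204821) (nat_lit 17) (.e (nat_lit 1040) (nat_lit 81) (.e (nat_lit 7290) (nat_lit 386) .nil))))))) (.g (nat_lit 4) .nil .nil))) 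
(.lf (nat_lit 253165) (.g (nat_lit 2012) (.e (nat_lit 163906) (nat_lit 12) (.e (nat_lit 426566) (nat_lit 34) (.e (nat_lit 393272) (nat_lit 23) (.e (nat_lit 426436) (nat_lit 18) (.e (nat_lit 98333) (nat_lit 18) (.e (nat_lit 164325) (nat_lit 230) .nil)))))) (.g (nat_lit 4) .nil .nil))))) (.nd (nat_lit 5) (.nd (nat_lit 6) 
(.lf (nat_lit 253085) (.g (nat_lit 1684) (.e (nat_lit 163905) (nat_lit 12) (.e (nat_lit 426436) (nat_lit 18) (.e (nat_lit 98370) (nat_lit 28) (.e (nat_lit 442386) (nat_lit 11) .nil)))) .nil)) 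
(.lf (nat_lit 253149) (.g (nat_lit 480) (.e (nat_lit 163906) (nat_lit 12) (.e (nat_lit 426428) (nat_lit 17) (.e (nat_lit 90185) (nat_lit 17) .nil))) .nil))) (.nd (nat_lit 6) 
(.lf (nat_lit 253117) (.g (nat_lit 2216) (.e (nat_lit 163905) (nat_lit 12) (.e (nat_lit 426555) (nat_lit 32) (.e (nat_lit 376865) (nat_lit 22) (.e (nat_lit 90160) (nat_lit 11) (.e (nat_lit 24596) (nat_lit 1) .nil))))) .nil)) 
(.lf (nat_lit 253181) (.g (nat_lit 1999) (.e (nat_lit 163906) (nat_lit 12) (.e (nat_lit 426566) (nat_lit 34) (.e (nat_lit 393293) (nat_lit 26) (.e (nat_lit 475177) (nat_lit 24) (.e (nat_lit 516118) (nat_lit 1) (.e (nat_lit 164325) (nat_lit 230) .nil)))))) (.g (nat_lit 5) .nil .nil)))))))) (.nd (nat_lit 2) (.nd (nat_lit 3) (.nd (nat_lit 4) (.nd (nat_lit 5) (.nd (nat_lit 6) 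
(.lf (nat_lit 253059) (.g (nat_lit 5210) (.e (nat_lit 163905) (nat_lit 12) (.e (nat_lit 426131) (nat_lit 3) (.e (nat_lit 204869) (nat_lit 29) (.e (nat_lit 360475) (nat_lit 8) (.e (nat_lit 557089) (nat_lit 12) (.e (nat_lit 163849) (nat_lit 0) (.e (nat_lit 6421) (nat_lit 341) .nil))))))) (.g (nat_lit 4) .nil .nil))) 
(.lf (nat_lit 253123) (.g (nat_lit 1718) (.e (nat_lit 163905) (nat_lit 12) (.e (nat_lit 426566) (nat_lit 34) (.e (nat_lit 393271) (nat_lit 23) (.e (nat_lit 425986) (nat_lit 0) .nil)))) .nil))) (.nd (nat_lit 6) 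
(.lf (nat_lit 253091) (.g (nat_lit 2071) (.e (nat_lit 163905) (nat_lit 12) (.e (nat_lit 426438) (nat_lit 18) (.e (nat_lit 98372) (nat_lit 29) (.e (nat_lit 450561) (nat_lit 0) (.e (nat_lit 6839) (nat_lit 369) .nil))))) .nil)) 
(.lf (nat_lit 253155) (.g (nat_lit 549) (.e (nat_lit 163906) (nat_lit 12) (.e (nat_lit 426555) (nat_lit 32) (.e (nat_lit 376867) (nat_lit 23) .nil))) .nil)))) (.nd (nat_lit 5) (.nd (nat_lit 6) 
(.lf (nat_lit 253075) (.g (nat_lit 4355) (.e (nat_lit 163905) (nat_lit 12) (.e (nat_lit 426428) (nat_lit 17) (.e (nat_lit 90170) (nat_lit 13) (.e (nat_lit 172095) (nat_lit 9) (.e (nat_lit 426513) (nat_lit 27) (.e (nat_lit 335996) (nat_lit 1) (.e (nat_lit 57692) (nat_lit 156) .nil))))))) (.g (nat_lit 7) .nil .nil))) 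
(.lf (nat_lit 253139) (.g (nat_lit 1553) (.e (nat_lit 163905) (nat_lit 12) (.e (nat_lit 426568) (nat_lit 34) (.e (nat_lit 393281) (nat_lit 23) (.e (nat_lit 426116) (nat_lit 2) (.e (nat_lit 196635) (nat_lit 9) .nil))))) .nil))) (.nd (nat_lit 6) 
(.lf (nat_lit 253107) (.g (nat_lit 2925) (.e (nat_lit 163905) (nat_lit 12) (.e (nat_lit 426555) (nat_lit 32) (.e (nat_lit 376862) (nat_lit 22) (.e (nat_lit 90160) (nat_lit 11) (.e (nat_lit 24580) (nat_lit 0) (.e (nat_lit 1056) (nat_lit 81) (.e (nat_lit 5599) (nat_lit 310) .nil))))))) (.g (nat_lit 4) .nil .nil))) 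
(.lf (nat_lit 253171) (.g (nat_lit 2601) (.e (nat_lit 163906) (nat_lit 12) (.e (nat_lit 426566) (nat_lit 34) (.e (nat_lit 393273) (nat_lit 23) (.e (nat_lit 426436) (nat_lit 18) (.e (nat_lit 98333) (nat_lit 18) (.e (nat_lit 164325) (nat_lit 230) .nil)))))) (.g (nat_lit 4) .nil .nil)))))) (.nd (nat_lit 4) (.nd (nat_lit 5) (.nd (nat_lit 6) 
(.lf (nat_lit 253067) (.g (nat_lit 3272) (.e (nat_lit 163905) (nat_lit 12) (.e (nat_lit 426320) (nat_lit 12) (.e (nat_lit 475184) (nat_lit 29) (.e (nat_lit 557109) (nat_lit 15) (.e (nat_lit 188455) (nat_lit 24) (.e (nat_lit 237312) (nat_lit 138) .nil)))))) (.g (nat_lit 5) .nil .nil))) 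
(.lf (nat_lit 253131) (.g (nat_lit 1973) (.e (nat_lit 163905) (nat_lit 12) (.e (nat_lit 426566) (nat_lit 34) (.e (nat_lit 393283) (nat_lit 24) (.e (nat_lit 434231) (nat_lit 23) (.e (nat_lit 532499) (nat_lit 1) .nil))))) .nil))) (.nd (nat_lit 6) 
(.lf (nat_lit 253099) (.g (nat_lit 2826) (.e (nat_lit 163905) (nat_lit 12) (.e (nat_lit 426438) (nat_lit 18) (.e (nat_lit 98373) (nat_lit 29) (.e (nat_lit 450569) (nat_lit 0) (.e (nat_lit 7936) (nat_lit 369) .nil))))) .nil)) 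
(.lf (nat_lit 253163) (.g (nat_lit 2196) (.e (nat_lit 163906) (nat_lit 12) (.e (nat_lit 426566) (nat_lit 34) (.e (nat_lit 393271) (nat_lit 23) (.e (nat_lit 426438) (nat_lit 18) (.e (nat_lit 98335) (nat_lit 18) (.e (nat_lit 164327) (nat_lit 230) .nil)))))) (.g (nat_lit 4) .nil .nil))))) (.nd (nat_lit 5) (.nd (nat_lit 6) 
(.lf (nat_lit 253083) (.g (nat_lit 2046) (.e (nat_lit 163905) (nat_lit 12) (.e (nat_lit 426436) (nat_lit 18) (.e (nat_lit 98358) (nat_lit 26) (.e (nat_lit 426227) (nat_lit 9) .nil)))) .nil)) 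
(.lf (nat_lit 253147) (.g (nat_lit 1495) (.e (nat_lit 163906) (nat_lit 12) (.e (nat_lit 426320) (nat_lit 12) (.e (nat_lit 475208) (nat_lit 41) (.e (nat_lit 712755) (nat_lit 30) (.e (nat_lit 458496) (nat_lit 0) (.e (nat_lit 5587) (nat_lit 310) .nil)))))) (.g (nat_lit 4) .nil .nil)))) (.nd (nat_lit 6) 
(.lf (nat_lit 253115) (.g (nat_lit 3101) (.e (nat_lit 163905) (nat_lit 12) (.e (nat_lit 426555) (nat_lit 32) (.e (nat_lit 376865) (nat_lit 22) (.e (nat_lit 90160) (nat_lit 11) (.e (nat_lit 24584) (nat_lit 0) (.e (nat_lit 1075) (nat_lit 81) (.e (nat_lit 5594) (nat_lit 310) .nil))))))) (.g (nat_lit 5) .nil .nil))) 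
(.lf (nat_lit 253179) (.g (nat_lit 1225) (.e (nat_lit 163906) (nat_lit 12) (.e (nat_lit 426566) (nat_lit 34) (.e (nat_lit 393289) (nat_lit 25) (.e (nat_lit 458789) (nat_lit 23) .nil)))) .nil)))))) (.nd (nat_lit 3) (.nd (nat_lit 4) (.nd (nat_lit 5) (.nd (nat_lit 6) 
(.lf (nat_lit 253063) (.g (nat_lit 2051) (.e (nat_lit 163905) (nat_lit 12) (.e (nat_lit 426294) (nat_lit 11) (.e (nat_lit 458810) (nat_lit 43) (.e (nat_lit 696343) (nat_lit 8) (.e (nat_lit 172113) (nat_lit 10) (.e (nat_lit 434207) (nat_lit 18) (.e (nat_lit 6418) (nat_lit 341) .nil))))))) (.g (nat_lit 5) .nil .nil))) 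
(.lf (nat_lit 253127) (.g (nat_lit 1148) (.e (nat_lit 163905) (nat_lit 12) (.e (nat_lit 426566) (nat_lit 34) (.e (nat_lit 393273) (nat_lit 23) (.e (nat_lit 426364) (nat_lit 15) .nil)))) .nil))) (.nd (nat_lit 6) 
(.lf (nat_lit 253095) (.g (nat_lit 3069) (.e (nat_lit 163905) (nat_lit 12) (.e (nat_lit 426438) (nat_lit 18) (.e (nat_lit 98373) (nat_lit 29) (.e (nat_lit 450562) (nat_lit 0) (.e (nat_lit 7936) (nat_lit 369) .nil))))) .nil)) 
(.lf (nat_lit 253159) (.g (nat_lit 3200) (.e (nat_lit 163906) (nat_lit 12) (.e (nat_lit 426566) (nat_lit 34) (.e (nat_lit 393271) (nat_lit 23) (.e (nat_lit 426131) (nat_lit 3) (.e (nat_lit 204829) (nat_lit 18) (.e (nat_lit 57692) (nat_lit 156) .nil)))))) (.g (nat_lit 5) .nil .nil))))) (.nd (nat_lit 5) (.nd (nat_lit 6) 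
(.lf (nat_lit 253079) (.g (nat_lit 3730) (.e (nat_lit 163905) (nat_lit 12) (.e (nat_lit 426428) (nat_lit 17) (.e (nat_lit 90185) (nat_lit 17) (.e (nat_lit 237621) (nat_lit 13) (.e (nat_lit 483363) (nat_lit 18) (.e (nat_lit 57688) (nat_lit 156) .nil)))))) (.g (nat_lit 0) .nil .nil))) 
(.lf (nat_lit 253143) (.g (nat_lit 3209) (.e (nat_lit 163905) (nat_lit 12) (.e (nat_lit 426568) (nat_lit 34) (.e (nat_lit 393283) (nat_lit 24) (.e (nat_lit 434231) (nat_lit 23) (.e (nat_lit 532483) (nat_lit 0) (.e (nat_lit 1036) (nat_lit 81) (.e (nat_lit 7290) (nat_lit 386) .nil))))))) (.g (nat_lit 4) .nil .nil)))) (.nd (nat_lit 6) 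
(.lf (nat_lit 253111) (.g (nat_lit 1998) (.e (nat_lit 163905) (nat_lit 12) (.e (nat_lit 426555) (nat_lit 32) (.e (nat_lit 376865) (nat_lit 22) (.e (nat_lit 90159) (nat_lit 11) (.e (nat_lit 24580) (nat_lit 0) .nil))))) .nil)) 
(.lf (nat_lit 253175) (.g (nat_lit 747) (.e (nat_lit 163906) (nat_lit 12) (.e (nat_lit 426566) (nat_lit 34) (.e (nat_lit 393286) (nat_lit 25) .nil))) .nil))))) (.nd (nat_lit 4) (.nd (nat_lit 5) (.nd (nat_lit 6) 
(.lf (nat_lit 253071) (.g (nat_lit 2000) (.e (nat_lit 163905) (nat_lit 12) (.e (nat_lit 426320) (nat_lit 12) (.e (nat_lit 475207) (nat_lit 41) (.e (nat_lit 712755) (nat_lit 30) (.e (nat_lit 450563) (nat_lit 0) (.e (nat_lit 7936) (nat_lit 310) .nil)))))) (.g (nat_lit 4) .nil .nil))) 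
(.lf (nat_lit 253135) (.g (nat_lit 3437) (.e (nat_lit 163905) (nat_lit 12) (.e (nat_lit 426567) (nat_lit 34) (.e (nat_lit 393271) (nat_lit 23) (.e (nat_lit 426436) (nat_lit 18) (.e (nat_lit 98334) (nat_lit 18) (.e (nat_lit 164330) (nat_lit 230) .nil)))))) (.g (nat_lit 5) .nil .nil)))) (.nd (nat_lit 6) 
(.lf (nat_lit 253103) (.g (nat_lit 894) (.e (nat_lit 163905) (nat_lit 12) (.e (nat_lit 426540) (nat_lit 29) (.e (nat_lit 352313) (nat_lit 23) (.e (nat_lit 98313) (nat_lit 9) .nil)))) .nil)) 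
(.lf (nat_lit 253167) (.g (nat_lit 1778) (.e (nat_lit 163906) (nat_lit 12) (.e (nat_lit 426566) (nat_lit 34) (.e (nat_lit 393273) (nat_lit 23) (.e (nat_lit 426364) (nat_lit 15) .nil)))) .nil)))) (.nd (nat_lit 5) (.nd (nat_lit 6) 
(.lf (nat_lit 253087) (.g (nat_lit 1255) (.e (nat_lit 163905) (nat_lit 12) (.e (nat_lit 426437) (nat_lit 18) (.e (nat_lit 98359) (nat_lit 26) (.e (nat_lit 426329) (nat_lit 13) .nil)))) .nil)) 
(.lf (nat_lit 253151) (.g (nat_lit 3575) (.e (nat_lit 163906) (nat_lit 12) (.e (nat_lit 426506) (nat_lit 27) (.e (nat_lit 336178) (nat_lit 10) (.e (nat_lit 344117) (nat_lit 21) (.e (nat_lit 516195) (nat_lit 26) (.e (nat_lit 335986) (nat_lit 1) (.e (nat_lit 57927) (nat_lit 282) .nil))))))) (.g (nat_lit 0) .nil .nil)))) (.nd (nat_lit 6) 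
(.lf (nat_lit 253119) (.g (nat_lit 2700) (.e (nat_lit 163905) (nat_lit 12) (.e (nat_lit 426564) (nat_lit 34) (.e (nat_lit 393270) (nat_lit 23) (.e (nat_lit 426436) (nat_lit 18) (.e (nat_lit 98335) (nat_lit 18) (.e (nat_lit 164330) (nat_lit 230) .nil)))))) (.g (nat_lit 5) .nil .nil))) 
(.lf (nat_lit 253183) (.g (nat_lit 1555) (.e (nat_lit 163906) (nat_lit 12) (.e (nat_lit 426566) (nat_lit 34) (.e (nat_lit 393296) (nat_lit 26) (.e (nat_lit 475177) (nat_lit 24) .nil)))) .nil)))))))))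

noncomputable def tv3282 : DT := (.nd (nat_lit 0) (.nd (nat_lit 1) (.nd (nat_lit 2) (.nd (nat_lit 3) (.nd (nat_lit 4) (.nd (nat_lit 5) 
(.lf (nat_lit 253184) (.g (nat_lit 1419) (.e (nat_lit 163906) (nat_lit 12) (.e (nat_lit 426568) (nat_lit 34) (.e (nat_lit 393271) (nat_lit 23) (.e (nat_lit 426131) (nat_lit 3) .nil)))) .nil)) 
(.lf (nat_lit 253216) (.g (nat_lit 1616) (.e (nat_lit 163907) (nat_lit 12) (.e (nat_lit 426320) (nat_lit 12) (.e (nat_lit 475208) (nat_lit 41) (.e (nat_lit 712755) (nat_lit 30) (.e (nat_lit 450563) (nat_lit 0) (.e (nat_lit 7936) (nat_lit 310) .nil)))))) (.g (nat_lit 4) .nil .nil)))) (.nd (nat_lit 5) 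
(.lf (nat_lit 253200) (.g (nat_lit 4160) (.e (nat_lit 163907) (nat_lit 12) (.e (nat_lit 426131) (nat_lit 3) (.e (nat_lit 204869) (nat_lit 29) (.e (nat_lit 360474) (nat_lit 8) (.e (nat_lit 557094) (nat_lit 12) (.e (nat_lit 163849) (nat_lit 0) (.e (nat_lit 6416) (nat_lit 341) .nil))))))) (.g (nat_lit 4) .nil .nil))) 
(.lf (nat_lit 253232) (.g (nat_lit 2028) (.e (nat_lit 163907) (nat_lit 12) (.e (nat_lit 426437) (nat_lit 18) (.e (nat_lit 98370) (nat_lit 28) (.e (nat_lit 442388) (nat_lit 11) (.e (nat_lit 335987) (nat_lit 1) (.e (nat_lit 57692) (nat_lit 156) .nil)))))) (.g (nat_lit 4) .nil .nil))))) (.nd (nat_lit 4) (.nd (nat_lit 5) 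
(.lf (nat_lit 253192) (.g (nat_lit 1447) (.e (nat_lit 163906) (nat_lit 12) (.e (nat_lit 426568) (nat_lit 34) (.e (nat_lit 393284) (nat_lit 24) (.e (nat_lit 434233) (nat_lit 23) .nil)))) .nil)) 
(.lf (nat_lit 253224) (.g (nat_lit 1672) (.e (nat_lit 163907) (nat_lit 12) (.e (nat_lit 426428) (nat_lit 17) (.e (nat_lit 90185) (nat_lit 17) (.e (nat_lit 237622) (nat_lit 13) .nil)))) .nil))) (.nd (nat_lit 5) 
(.lf (nat_lit 253208) (.g (nat_lit 3956) (.e (nat_lit 163907) (nat_lit 12) (.e (nat_lit 426320) (nat_lit 12) (.e (nat_lit 475184) (nat_lit 29) (.e (nat_lit 557109) (nat_lit 15) (.e (nat_lit 188455) (nat_lit 24) (.e (nat_lit 237312) (nat_lit 138) .nil)))))) (.g (nat_lit 5) .nil .nil))) 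
(.lf (nat_lit 253240) (.g (nat_lit 3435) (.e (nat_lit 163907) (nat_lit 12) (.e (nat_lit 426472) (nat_lit 25) (.e (nat_lit 319531) (nat_lit 16) (.e (nat_lit 286761) (nat_lit 13) (.e (nat_lit 393234) (nat_lit 17) (.e (nat_lit 2411) (nat_lit 157) (.e (nat_lit 4539) (nat_lit 267) .nil))))))) (.g (nat_lit 5) .nil .nil)))))) (.nd (nat_lit 3) (.nd (nat_lit 4) (.nd (nat_lit 5) 
(.lf (nat_lit 253188) (.g (nat_lit 3657) (.e (nat_lit 163906) (nat_lit 12) (.e (nat_lit 426568) (nat_lit 34) (.e (nat_lit 393271) (nat_lit 23) (.e (nat_lit 426131) (nat_lit 3) (.e (nat_lit 204831) (nat_lit 18) (.e (nat_lit 57692) (nat_lit 156) .nil)))))) (.g (nat_lit 0) .nil .nil))) 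
(.lf (nat_lit 253220) (.g (nat_lit 4458) (.e (nat_lit 163907) (nat_lit 12) (.e (nat_lit 426428) (nat_lit 17) (.e (nat_lit 90170) (nat_lit 13) (.e (nat_lit 172095) (nat_lit 9) (.e (nat_lit 426513) (nat_lit 27) (.e (nat_lit 335996) (nat_lit 1) (.e (nat_lit 57692) (nat_lit 156) .nil))))))) (.g (nat_lit 7) .nil .nil)))) (.nd (nat_lit 5) 
(.lf (nat_lit 253204) (.g (nat_lit 6446) (.e (nat_lit 163907) (nat_lit 12) (.e (nat_lit 426131) (nat_lit 3) (.e (nat_lit 204869) (nat_lit 29) (.e (nat_lit 360475) (nat_lit 8) (.e (nat_lit 557091) (nat_lit 12) (.e (nat_lit 163843) (nat_lit 0) (.e (nat_lit 6416) (nat_lit 341) .nil))))))) (.g (nat_lit 5) .nil .nil))) 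
(.lf (nat_lit 253236) (.g (nat_lit 2422) (.e (nat_lit 163907) (nat_lit 12) (.e (nat_lit 426472) (nat_lit 25) (.e (nat_lit 319530) (nat_lit 16) (.e (nat_lit 286761) (nat_lit 13) (.e (nat_lit 401152) (nat_lit 1) (.e (nat_lit 57691) (nat_lit 156) .nil)))))) (.g (nat_lit 4) .nil .nil))))) (.nd (nat_lit 4) (.nd (nat_lit 5) 
(.lf (nat_lit 253196) (.g (nat_lit 1768) (.e (nat_lit 163906) (nat_lit 12) (.e (nat_lit 426568) (nat_lit 34) (.e (nat_lit 393287) (nat_lit 25) (.e (nat_lit 458789) (nat_lit 23) (.e (nat_lit 532502) (nat_lit 1) (.e (nat_lit 57692) (nat_lit 156) .nil)))))) (.g (nat_lit 5) .nil .nil))) 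
(.lf (nat_lit 253228) (.g (nat_lit 1465) (.e (nat_lit 163907) (nat_lit 12) (.e (nat_lit 426436) (nat_lit 18) (.e (nat_lit 98356) (nat_lit 26) (.e (nat_lit 433920) (nat_lit 13) .nil)))) .nil))) (.nd (nat_lit 5) 
(.lf (nat_lit 253212) (.g (nat_lit 2044) (.e (nat_lit 163907) (nat_lit 12) (.e (nat_lit 426320) (nat_lit 12) (.e (nat_lit 475193) (nat_lit 38) (.e (nat_lit 688186) (nat_lit 18) (.e (nat_lit 81959) (nat_lit 24) (.e (nat_lit 130816) (nat_lit 254) .nil)))))) (.g (nat_lit 4) .nil .nil))) 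
(.lf (nat_lit 253244) (.g (nat_lit 3068) (.e (nat_lit 163907) (nat_lit 12) (.e (nat_lit 426479) (nat_lit 27) (.e (nat_lit 336430) (nat_lit 29) (.e (nat_lit 442427) (nat_lit 23) (.e (nat_lit 204821) (nat_lit 17) (.e (nat_lit 1040) (nat_lit 81) (.e (nat_lit 7289) (nat_lit 386) .nil))))))) (.g (nat_lit 5) .nil .nil))))))) (.nd (nat_lit 2) (.nd (nat_lit 3) (.nd (nat_lit 4) (.nd (nat_lit 5) 
(.lf (nat_lit 253186) (.g (nat_lit 3696) (.e (nat_lit 163906) (nat_lit 12) (.e (nat_lit 426568) (nat_lit 34) (.e (nat_lit 393271) (nat_lit 23) (.e (nat_lit 426131) (nat_lit 3) (.e (nat_lit 204830) (nat_lit 18) (.e (nat_lit 57692) (nat_lit 156) .nil)))))) (.g (nat_lit 0) .nil .nil))) 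
(.lf (nat_lit 253218) (.g (nat_lit 2494) (.e (nat_lit 163907) (nat_lit 12) (.e (nat_lit 426427) (nat_lit 17) (.e (nat_lit 90170) (nat_lit 13) (.e (nat_lit 172123) (nat_lit 13) (.e (nat_lit 483363) (nat_lit 18) (.e (nat_lit 57692) (nat_lit 156) .nil)))))) (.g (nat_lit 5) .nil .nil)))) (.nd (nat_lit 5) 
(.lf (nat_lit 253202) (.g (nat_lit 5663) (.e (nat_lit 163907) (nat_lit 12) (.e (nat_lit 426131) (nat_lit 3) (.e (nat_lit 204869) (nat_lit 29) (.e (nat_lit 360475) (nat_lit 8) (.e (nat_lit 557089) (nat_lit 12) (.e (nat_lit 163848) (nat_lit 0) (.e (nat_lit 6416) (nat_lit 341) .nil))))))) (.g (nat_lit 4) .nil .nil))) 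
(.lf (nat_lit 253234) (.g (nat_lit 3502) (.e (nat_lit 163907) (nat_lit 12) (.e (nat_lit 426438) (nat_lit 18) (.e (nat_lit 98373) (nat_lit 29) (.e (nat_lit 450563) (nat_lit 0) (.e (nat_lit 6839) (nat_lit 369) .nil))))) .nil)))) (.nd (nat_lit 4) (.nd (nat_lit 5) 
(.lf (nat_lit 253194) (.g (nat_lit 1822) (.e (nat_lit 163906) (nat_lit 12) (.e (nat_lit 426568) (nat_lit 34) (.e (nat_lit 393286) (nat_lit 25) (.e (nat_lit 458789) (nat_lit 23) (.e (nat_lit 532502) (nat_lit 1) (.e (nat_lit 57692) (nat_lit 156) .nil)))))) (.g (nat_lit 5) .nil .nil))) 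
(.lf (nat_lit 253226) (.g (nat_lit 2642) (.e (nat_lit 163907) (nat_lit 12) (.e (nat_lit 426434) (nat_lit 18) (.e (nat_lit 98370) (nat_lit 28) (.e (nat_lit 442385) (nat_lit 11) (.e (nat_lit 335996) (nat_lit 1) (.e (nat_lit 57692) (nat_lit 156) .nil)))))) (.g (nat_lit 5) .nil .nil)))) (.nd (nat_lit 5) 
(.lf (nat_lit 253210) (.g (nat_lit 2091) (.e (nat_lit 163907) (nat_lit 12) (.e (nat_lit 426320) (nat_lit 12) (.e (nat_lit 475193) (nat_lit 38) (.e (nat_lit 688185) (nat_lit 18) (.e (nat_lit 81959) (nat_lit 24) (.e (nat_lit 123159) (nat_lit 254) .nil)))))) (.g (nat_lit 4) .nil .nil))) 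
(.lf (nat_lit 253242) (.g (nat_lit 2538) (.e (nat_lit 163907) (nat_lit 12) (.e (nat_lit 426479) (nat_lit 27) (.e (nat_lit 336430) (nat_lit 29) (.e (nat_lit 442425) (nat_lit 23) (.e (nat_lit 204817) (nat_lit 17) (.e (nat_lit 1030) (nat_lit 81) (.e (nat_lit 7289) (nat_lit 386) .nil))))))) (.g (nat_lit 4) .nil .nil)))))) (.nd (nat_lit 3) (.nd (nat_lit 4) (.nd (nat_lit 5) 
(.lf (nat_lit 253190) (.g (nat_lit 2053) (.e (nat_lit 163906) (nat_lit 12) (.e (nat_lit 426568) (nat_lit 34) (.e (nat_lit 393281) (nat_lit 23) (.e (nat_lit 426139) (nat_lit 3) (.e (nat_lit 204830) (nat_lit 18) .nil))))) .nil)) 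
(.lf (nat_lit 253222) (.g (nat_lit 2634) (.e (nat_lit 163907) (nat_lit 12) (.e (nat_lit 426428) (nat_lit 17) (.e (nat_lit 90170) (nat_lit 13) (.e (nat_lit 172106) (nat_lit 10) (.e (nat_lit 434202) (nat_lit 18) (.e (nat_lit 6839) (nat_lit 369) (.e (nat_lit 163862) (nat_lit 1) (.e (nat_lit 164325) (nat_lit 230) .nil)))))))) (.g (nat_lit 4) .nil .nil)))) (.nd (nat_lit 5) 
(.lf (nat_lit 253206) (.g (nat_lit 5578) (.e (nat_lit 163907) (nat_lit 12) (.e (nat_lit 426131) (nat_lit 3) (.e (nat_lit 204869) (nat_lit 29) (.e (nat_lit 360475) (nat_lit 8) (.e (nat_lit 557091) (nat_lit 12) (.e (nat_lit 163847) (nat_lit 0) (.e (nat_lit 6416) (nat_lit 341) .nil))))))) (.g (nat_lit 4) .nil .nil))) 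
(.lf (nat_lit 253238) (.g (nat_lit 2570) (.e (nat_lit 163907) (nat_lit 12) (.e (nat_lit 426472) (nat_lit 25) (.e (nat_lit 319531) (nat_lit 16) (.e (nat_lit 286761) (nat_lit 13) (.e (nat_lit 401152) (nat_lit 1) (.e (nat_lit 57688) (nat_lit 156) .nil)))))) (.g (nat_lit 4) .nil .nil))))) (.nd (nat_lit 4) (.nd (nat_lit 5) 
(.lf (nat_lit 253198) (.g (nat_lit 4550) (.e (nat_lit 163907) (nat_lit 12) (.e (nat_lit 426131) (nat_lit 3) (.e (nat_lit 204869) (nat_lit 29) (.e (nat_lit 360474) (nat_lit 8) (.e (nat_lit 557093) (nat_lit 12) (.e (nat_lit 163849) (nat_lit 0) (.e (nat_lit 6416) (nat_lit 341) .nil))))))) (.g (nat_lit 4) .nil .nil))) 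
(.lf (nat_lit 253230) (.g (nat_lit 1070) (.e (nat_lit 163907) (nat_lit 12) (.e (nat_lit 426437) (nat_lit 18) (.e (nat_lit 98370) (nat_lit 28) (.e (nat_lit 442385) (nat_lit 11) .nil)))) .nil))) (.nd (nat_lit 5) 
(.lf (nat_lit 253214) (.g (nat_lit 2563) (.e (nat_lit 163907) (nat_lit 12) (.e (nat_lit 426320) (nat_lit 12) (.e (nat_lit 475207) (nat_lit 41) (.e (nat_lit 712755) (nat_lit 30) (.e (nat_lit 450563) (nat_lit 0) (.e (nat_lit 7936) (nat_lit 310) .nil)))))) (.g (nat_lit 5) .nil .nil))) 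
(.lf (nat_lit 253246) (.g (nat_lit 2332) (.e (nat_lit 163907) (nat_lit 12) (.e (nat_lit 426555) (nat_lit 32) (.e (nat_lit 376865) (nat_lit 22) (.e (nat_lit 90160) (nat_lit 11) (.e (nat_lit 24596) (nat_lit 1) .nil))))) .nil))))))) (.nd (nat_lit 1) (.nd (nat_lit 2) (.nd (nat_lit 3) (.nd (nat_lit 4) (.nd (nat_lit 5) 
(.lf (nat_lit 253185) (.g (nat_lit 1925) (.e (nat_lit 163906) (nat_lit 12) (.e (nat_lit 426568) (nat_lit 34) (.e (nat_lit 393271) (nat_lit 23) (.e (nat_lit 426131) (nat_lit 3) (.e (nat_lit 204830) (nat_lit 18) (.e (nat_lit 57689) (nat_lit 156) .nil)))))) (.g (nat_lit 4) .nil .nil))) 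
(.lf (nat_lit 253217) (.g (nat_lit 2749) (.e (nat_lit 163907) (nat_lit 12) (.e (nat_lit 426427) (nat_lit 17) (.e (nat_lit 90170) (nat_lit 13) (.e (nat_lit 172123) (nat_lit 13) (.e (nat_lit 483363) (nat_lit 18) (.e (nat_lit 57691) (nat_lit 156) .nil)))))) (.g (nat_lit 5) .nil .nil)))) (.nd (nat_lit 5) 
(.lf (nat_lit 253201) (.g (nat_lit 5216) (.e (nat_lit 163907) (nat_lit 12) (.e (nat_lit 426131) (nat_lit 3) (.e (nat_lit 204869) (nat_lit 29) (.e (nat_lit 360475) (nat_lit 8) (.e (nat_lit 557089) (nat_lit 12) (.e (nat_lit 163843) (nat_lit 0) (.e (nat_lit 6416) (nat_lit 341) .nil))))))) (.g (nat_lit 4) .nil .nil))) 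
(.lf (nat_lit 253233) (.g (nat_lit 3546) (.e (nat_lit 163907) (nat_lit 12) (.e (nat_lit 426438) (nat_lit 18) (.e (nat_lit 98373) (nat_lit 29) (.e (nat_lit 450562) (nat_lit 0) (.e (nat_lit 6839) (nat_lit 369) .nil))))) .nil)))) (.nd (nat_lit 4) (.nd (nat_lit 5) 
(.lf (nat_lit 253193) (.g (nat_lit 2489) (.e (nat_lit 163906) (nat_lit 12) (.e (nat_lit 426568) (nat_lit 34) (.e (nat_lit 393286) (nat_lit 25) (.e (nat_lit 458789) (nat_lit 23) (.e (nat_lit 532501) (nat_lit 1) (.e (nat_lit 57692) (nat_lit 156) .nil)))))) (.g (nat_lit 6) .nil .nil))) 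
(.lf (nat_lit 253225) (.g (nat_lit 4125) (.e (nat_lit 163907) (nat_lit 12) (.e (nat_lit 426428) (nat_lit 17) (.e (nat_lit 90185) (nat_lit 17) (.e (nat_lit 237624) (nat_lit 13) (.e (nat_lit 483363) (nat_lit 18) (.e (nat_lit 57688) (nat_lit 156) .nil)))))) (.g (nat_lit 0) .nil .nil)))) (.nd (nat_lit 5) 
(.lf (nat_lit 253209) (.g (nat_lit 2472) (.e (nat_lit 163907) (nat_lit 12) (.e (nat_lit 426320) (nat_lit 12) (.e (nat_lit 475193) (nat_lit 38) (.e (nat_lit 688185) (nat_lit 18) (.e (nat_lit 81950) (nat_lit 21) (.e (nat_lit 57857) (nat_lit 254) .nil)))))) (.g (nat_lit 5) .nil .nil))) 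
(.lf (nat_lit 253241) (.g (nat_lit 2376) (.e (nat_lit 163907) (nat_lit 12) (.e (nat_lit 426472) (nat_lit 25) (.e (nat_lit 319534) (nat_lit 16) (.e (nat_lit 286760) (nat_lit 13) (.e (nat_lit 401152) (nat_lit 1) (.e (nat_lit 57691) (nat_lit 156) .nil)))))) (.g (nat_lit 4) .nil .nil)))))) (.nd (nat_lit 3) (.nd (nat_lit 4) (.nd (nat_lit 5) 
(.lf (nat_lit 253189) (.g (nat_lit 1324) (.e (nat_lit 163906) (nat_lit 12) (.e (nat_lit 426568) (nat_lit 34) (.e (nat_lit 393281) (nat_lit 23) (.e (nat_lit 426137) (nat_lit 3) .nil)))) .nil)) 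
(.lf (nat_lit 253221) (.g (nat_lit 2399) (.e (nat_lit 163907) (nat_lit 12) (.e (nat_lit 426428) (nat_lit 17) (.e (nat_lit 90170) (nat_lit 13) (.e (nat_lit 172106) (nat_lit 10) (.e (nat_lit 434202) (nat_lit 18) .nil))))) .nil))) (.nd (nat_lit 5) 
(.lf (nat_lit 253205) (.g (nat_lit 5743) (.e (nat_lit 163907) (nat_lit 12) (.e (nat_lit 426131) (nat_lit 3) (.e (nat_lit 204869) (nat_lit 29) (.e (nat_lit 360475) (nat_lit 8) (.e (nat_lit 557091) (nat_lit 12) (.e (nat_lit 163844) (nat_lit 0) (.e (nat_lit 6416) (nat_lit 341) .nil))))))) (.g (nat_lit 4) .nil .nil))) 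
(.lf (nat_lit 253237) (.g (nat_lit 2372) (.e (nat_lit 163907) (nat_lit 12) (.e (nat_lit 426472) (nat_lit 25) (.e (nat_lit 319531) (nat_lit 16) (.e (nat_lit 286760) (nat_lit 13) (.e (nat_lit 401152) (nat_lit 1) (.e (nat_lit 57691) (nat_lit 156) .nil)))))) (.g (nat_lit 4) .nil .nil))))) (.nd (nat_lit 4) (.nd (nat_lit 5) 
(.lf (nat_lit 253197) (.g (nat_lit 4467) (.e (nat_lit 163907) (nat_lit 12) (.e (nat_lit 426131) (nat_lit 3) (.e (nat_lit 204869) (nat_lit 29) (.e (nat_lit 360474) (nat_lit 8) (.e (nat_lit 557093) (nat_lit 12) (.e (nat_lit 163848) (nat_lit 0) (.e (nat_lit 6416) (nat_lit 341) .nil))))))) (.g (nat_lit 4) .nil .nil))) 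
(.lf (nat_lit 253229) (.g (nat_lit 1458) (.e (nat_lit 163907) (nat_lit 12) (.e (nat_lit 426436) (nat_lit 18) (.e (nat_lit 98358) (nat_lit 26) (.e (nat_lit 433920) (nat_lit 13) .nil)))) .nil))) (.nd (nat_lit 5) 
(.lf (nat_lit 253213) (.g (nat_lit 2150) (.e (nat_lit 163907) (nat_lit 12) (.e (nat_lit 426320) (nat_lit 12) (.e (nat_lit 475207) (nat_lit 41) (.e (nat_lit 712755) (nat_lit 30) (.e (nat_lit 450562) (nat_lit 0) (.e (nat_lit 7936) (nat_lit 310) .nil)))))) (.g (nat_lit 5) .nil .nil))) 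
(.lf (nat_lit 253245) (.g (nat_lit 1605) (.e (nat_lit 163907) (nat_lit 12) (.e (nat_lit 426555) (nat_lit 32) (.e (nat_lit 376862) (nat_lit 22) (.e (nat_lit 90158) (nat_lit 11) (.e (nat_lit 24597) (nat_lit 1) .nil))))) .nil)))))) (.nd (nat_lit 2) (.nd (nat_lit 3) (.nd (nat_lit 4) (.nd (nat_lit 5) 
(.lf (nat_lit 253187) (.g (nat_lit 1947) (.e (nat_lit 163906) (nat_lit 12) (.e (nat_lit 426568) (nat_lit 34) (.e (nat_lit 393271) (nat_lit 23) (.e (nat_lit 426131) (nat_lit 3) (.e (nat_lit 204831) (nat_lit 18) .nil))))) .nil)) 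
(.lf (nat_lit 253219) (.g (nat_lit 1665) (.e (nat_lit 163907) (nat_lit 12) (.e (nat_lit 426428) (nat_lit 17) (.e (nat_lit 90170) (nat_lit 13) (.e (nat_lit 172092) (nat_lit 9) .nil)))) .nil))) (.nd (nat_lit 5) 
(.lf (nat_lit 253203) (.g (nat_lit 5787) (.e (nat_lit 163907) (nat_lit 12) (.e (nat_lit 426131) (nat_lit 3) (.e (nat_lit 204869) (nat_lit 29) (.e (nat_lit 360475) (nat_lit 8) (.e (nat_lit 557089) (nat_lit 12) (.e (nat_lit 163849) (nat_lit 0) (.e (nat_lit 6416) (nat_lit 341) .nil))))))) (.g (nat_lit 4) .nil .nil))) 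
(.lf (nat_lit 253235) (.g (nat_lit 1613) (.e (nat_lit 163907) (nat_lit 12) (.e (nat_lit 426472) (nat_lit 25) (.e (nat_lit 319530) (nat_lit 16) (.e (nat_lit 286761) (nat_lit 13) (.e (nat_lit 401152) (nat_lit 1) .nil))))) .nil)))) (.nd (nat_lit 4) (.nd (nat_lit 5) 
(.lf (nat_lit 253195) (.g (nat_lit 2422) (.e (nat_lit 163906) (nat_lit 12) (.e (nat_lit 426568) (nat_lit 34) (.e (nat_lit 393287) (nat_lit 25) (.e (nat_lit 458789) (nat_lit 23) (.e (nat_lit 532501) (nat_lit 1) (.e (nat_lit 57692) (nat_lit 156) .nil)))))) (.g (nat_lit 6) .nil .nil))) 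
(.lf (nat_lit 253227) (.g (nat_lit 1537) (.e (nat_lit 163907) (nat_lit 12) (.e (nat_lit 426436) (nat_lit 18) (.e (nat_lit 98356) (nat_lit 26) (.e (nat_lit 426323) (nat_lit 13) .nil)))) .nil))) (.nd (nat_lit 5) 
(.lf (nat_lit 253211) (.g (nat_lit 3148) (.e (nat_lit 163907) (nat_lit 12) (.e (nat_lit 426320) (nat_lit 12) (.e (nat_lit 475193) (nat_lit 38) (.e (nat_lit 688186) (nat_lit 18) (.e (nat_lit 81959) (nat_lit 24) (.e (nat_lit 123159) (nat_lit 254) .nil)))))) (.g (nat_lit 6) .nil .nil))) 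
(.lf (nat_lit 253243) (.g (nat_lit 2476) (.e (nat_lit 163907) (nat_lit 12) (.e (nat_lit 426479) (nat_lit 27) (.e (nat_lit 336430) (nat_lit 29) (.e (nat_lit 442425) (nat_lit 23) (.e (nat_lit 204821) (nat_lit 17) (.e (nat_lit 1040) (nat_lit 81) (.e (nat_lit 7289) (nat_lit 386) .nil))))))) (.g (nat_lit 4) .nil .nil)))))) (.nd (nat_lit 3) (.nd (nat_lit 4) (.nd (nat_lit 5) 
(.lf (nat_lit 253191) (.g (nat_lit 978) (.e (nat_lit 163906) (nat_lit 12) (.e (nat_lit 426568) (nat_lit 34) (.e (nat_lit 393283) (nat_lit 24) (.e (nat_lit 434234) (nat_lit 23) .nil)))) .nil)) 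
(.lf (nat_lit 253223) (.g (nat_lit 2657) (.e (nat_lit 163907) (nat_lit 12) (.e (nat_lit 426428) (nat_lit 17) (.e (nat_lit 90170) (nat_lit 13) (.e (nat_lit 172106) (nat_lit 10) (.e (nat_lit 434202) (nat_lit 18) (.e (nat_lit 6841) (nat_lit 369) (.e (nat_lit 163862) (nat_lit 1) (.e (nat_lit 164325) (nat_lit 230) .nil)))))))) (.g (nat_lit 4) .nil .nil)))) (.nd (nat_lit 5) 
(.lf (nat_lit 253207) (.g (nat_lit 4998) (.e (nat_lit 163907) (nat_lit 12) (.e (nat_lit 426131) (nat_lit 3) (.e (nat_lit 204869) (nat_lit 29) (.e (nat_lit 360475) (nat_lit 8) (.e (nat_lit 557091) (nat_lit 12) (.e (nat_lit 163849) (nat_lit 0) (.e (nat_lit 6416) (nat_lit 341) .nil))))))) (.g (nat_lit 4) .nil .nil))) 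
(.lf (nat_lit 253239) (.g (nat_lit 2090) (.e (nat_lit 163907) (nat_lit 12) (.e (nat_lit 426472) (nat_lit 25) (.e (nat_lit 319531) (nat_lit 16) (.e (nat_lit 286761) (nat_lit 13) (.e (nat_lit 401152) (nat_lit 1) (.e (nat_lit 57692) (nat_lit 156) .nil)))))) (.g (nat_lit 4) .nil .nil))))) (.nd (nat_lit 4) (.nd (nat_lit 5) 
(.lf (nat_lit 253199) (.g (nat_lit 4275) (.e (nat_lit 163907) (nat_lit 12) (.e (nat_lit 426131) (nat_lit 3) (.e (nat_lit 204869) (nat_lit 29) (.e (nat_lit 360474) (nat_lit 8) (.e (nat_lit 557094) (nat_lit 12) (.e (nat_lit 163847) (nat_lit 0) (.e (nat_lit 6416) (nat_lit 341) .nil))))))) (.g (nat_lit 4) .nil .nil))) 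
(.lf (nat_lit 253231) (.g (nat_lit 3088) (.e (nat_lit 163907) (nat_lit 12) (.e (nat_lit 426437) (nat_lit 18) (.e (nat_lit 98370) (nat_lit 28) (.e (nat_lit 442385) (nat_lit 11) (.e (nat_lit 335996) (nat_lit 1) (.e (nat_lit 57692) (nat_lit 156) .nil)))))) (.g (nat_lit 5) .nil .nil)))) (.nd (nat_lit 5) 
(.lf (nat_lit 253215) (.g (nat_lit 1743) (.e (nat_lit 163907) (nat_lit 12) (.e (nat_lit 426320) (nat_lit 12) (.e (nat_lit 475208) (nat_lit 41) (.e (nat_lit 712755) (nat_lit 30) (.e (nat_lit 450562) (nat_lit 0) (.e (nat_lit 7936) (nat_lit 310) .nil)))))) (.g (nat_lit 4) .nil .nil))) 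
(.lf (nat_lit 253247) (.g (nat_lit 3233) (.e (nat_lit 163907) (nat_lit 12) (.e (nat_lit 426564) (nat_lit 34) (.e (nat_lit 393268) (nat_lit 23) (.e (nat_lit 426438) (nat_lit 18) (.e (nat_lit 98333) (nat_lit 18) (.e (nat_lit 164325) (nat_lit 230) .nil)))))) (.g (nat_lit 5) .nil .nil)))))))))

noncomputable def tv3283 : DT := (.nd (nat_lit 0) (.nd (nat_lit 1) (.nd (nat_lit 2) (.nd (nat_lit 3) (.nd (nat_lit 4) (.nd (nat_lit 5) 
(.lf (nat_lit 253248) (.g (nat_lit 2285) (.e (nat_lit 163907) (nat_lit 12) (.e (nat_lit 426564) (nat_lit 34) (.e (nat_lit 393270) (nat_lit 23) (.e (nat_lit 426438) (nat_lit 18) (.e (nat_lit 98335) (nat_lit 18) (.e (nat_lit 164325) (nat_lit 230) .nil)))))) (.g (nat_lit 4) .nil .nil))) 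
(.lf (nat_lit 253280) (.g (nat_lit 2268) (.e (nat_lit 163907) (nat_lit 12) (.e (nat_lit 426568) (nat_lit 34) (.e (nat_lit 393282) (nat_lit 24) (.e (nat_lit 434231) (nat_lit 23) (.e (nat_lit 532490) (nat_lit 0) (.e (nat_lit 1040) (nat_lit 81) (.e (nat_lit 7289) (nat_lit 386) .nil))))))) (.g (nat_lit 4) .nil .nil)))) (.nd (nat_lit 5) 
(.lf (nat_lit 253264) (.g (nat_lit 2968) (.e (nat_lit 163907) (nat_lit 12) (.e (nat_lit 426567) (nat_lit 34) (.e (nat_lit 393271) (nat_lit 23) (.e (nat_lit 426131) (nat_lit 3) (.e (nat_lit 204831) (nat_lit 18) (.e (nat_lit 57688) (nat_lit 156) .nil)))))) (.g (nat_lit 4) .nil .nil))) 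
(.lf (nat_lit 253296) (.g (nat_lit 4527) (.e (nat_lit 163908) (nat_lit 12) (.e (nat_lit 426113) (nat_lit 2) (.e (nat_lit 196666) (nat_lit 13) (.e (nat_lit 65617) (nat_lit 10) (.e (nat_lit 344127) (nat_lit 26) (.e (nat_lit 557090) (nat_lit 12) (.e (nat_lit 163843) (nat_lit 0) (.e (nat_lit 6416) (nat_lit 341) .nil)))))))) (.g (nat_lit 7) .nil .nil))))) (.nd (nat_lit 4) (.nd (nat_lit 5) 
(.lf (nat_lit 253256) (.g (nat_lit 3737) (.e (nat_lit 163907) (nat_lit 12) (.e (nat_lit 426566) (nat_lit 34) (.e (nat_lit 393273) (nat_lit 23) (.e (nat_lit 426436) (nat_lit 18) (.e (nat_lit 98335) (nat_lit 18) (.e (nat_lit 164327) (nat_lit 230) .nil)))))) (.g (nat_lit 0) .nil .nil))) 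
(.lf (nat_lit 253288) (.g (nat_lit 4251) (.e (nat_lit 163908) (nat_lit 12) (.e (nat_lit 426113) (nat_lit 2) (.e (nat_lit 196666) (nat_lit 13) (.e (nat_lit 65610) (nat_lit 10) (.e (nat_lit 344129) (nat_lit 26) (.e (nat_lit 557089) (nat_lit 12) (.e (nat_lit 163848) (nat_lit 0) (.e (nat_lit 6416) (nat_lit 341) .nil)))))))) (.g (nat_lit 0) .nil .nil)))) (.nd (nat_lit 5) 
(.lf (nat_lit 253272) (.g (nat_lit 453) (.e (nat_lit 163907) (nat_lit 12) (.e (nat_lit 426568) (nat_lit 34) (.e (nat_lit 393266) (nat_lit 23) .nil))) .nil)) 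
(.lf (nat_lit 253304) (.g (nat_lit 2794) (.e (nat_lit 163908) (nat_lit 12) (.e (nat_lit 426113) (nat_lit 2) (.e (nat_lit 196666) (nat_lit 13) (.e (nat_lit 65617) (nat_lit 10) (.e (nat_lit 344132) (nat_lit 26) (.e (nat_lit 557093) (nat_lit 12) (.e (nat_lit 163849) (nat_lit 0) (.e (nat_lit 6418) (nat_lit 341) .nil)))))))) (.g (nat_lit 5) .nil .nil)))))) 
(.nd (nat_lit 3) (.nd (nat_lit 4) (.nd (nat_lit 5) 
(.lf (nat_lit 253252) (.g (nat_lit 3381) (.e (nat_lit 163907) (nat_lit 12) (.e (nat_lit 426566) (nat_lit 34) (.e (nat_lit 393268) (nat_lit 23) (.e (nat_lit 426436) (nat_lit 18) (.e (nat_lit 98335) (nat_lit 18) (.e (nat_lit 164327) (nat_lit 230) .nil)))))) (.g (nat_lit 0) .nil .nil))) 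
(.lf (nat_lit 253284) (.g (nat_lit 2697) (.e (nat_lit 163907) (nat_lit 12) (.e (nat_lit 426568) (nat_lit 34) (.e (nat_lit 393283) (nat_lit 24) (.e (nat_lit 434231) (nat_lit 23) (.e (nat_lit 532483) (nat_lit 0) (.e (nat_lit 1036) (nat_lit 81) (.e (nat_lit 7287) (nat_lit 386) .nil))))))) (.g (nat_lit 4) .nil .nil)))) (.nd (nat_lit 5) 
(.lf (nat_lit 253268) (.g (nat_lit 3052) (.e (nat_lit 163907) (nat_lit 12) (.e (nat_lit 426567) (nat_lit 34) (.e (nat_lit 393281) (nat_lit 23) (.e (nat_lit 426133) (nat_lit 3) (.e (nat_lit 204829) (nat_lit 18) (.e (nat_lit 57692) (nat_lit 156) .nil)))))) (.g (nat_lit 6) .nil .nil))) 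
(.lf (nat_lit 253300) (.g (nat_lit 4327) (.e (nat_lit 163908) (nat_lit 12) (.e (nat_lit 426113) (nat_lit 2) (.e (nat_lit 196666) (nat_lit 13) (.e (nat_lit 65617) (nat_lit 10) (.e (nat_lit 344130) (nat_lit 26) (.e (nat_lit 557090) (nat_lit 12) (.e (nat_lit 163843) (nat_lit 0) (.e (nat_lit 6418) (nat_lit 341) .nil)))))))) (.g (nat_lit 7) .nil .nil))))) (.nd (nat_lit 4) (.nd (nat_lit 5) 
(.lf (nat_lit 253260) (.g (nat_lit 2857) (.e (nat_lit 163907) (nat_lit 12) (.e (nat_lit 426567) (nat_lit 34) (.e (nat_lit 393270) (nat_lit 23) (.e (nat_lit 426436) (nat_lit 18) (.e (nat_lit 98335) (nat_lit 18) (.e (nat_lit 164325) (nat_lit 230) .nil)))))) (.g (nat_lit 5) .nil .nil))) 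
(.lf (nat_lit 253292) (.g (nat_lit 4194) (.e (nat_lit 163908) (nat_lit 12) (.e (nat_lit 426113) (nat_lit 2) (.e (nat_lit 196666) (nat_lit 13) (.e (nat_lit 65610) (nat_lit 10) (.e (nat_lit 344129) (nat_lit 26) (.e (nat_lit 557090) (nat_lit 12) (.e (nat_lit 163844) (nat_lit 0) (.e (nat_lit 6416) (nat_lit 341) .nil)))))))) (.g (nat_lit 7) .nil .nil)))) (.nd (nat_lit 5) 
(.lf (nat_lit 253276) (.g (nat_lit 693) (.e (nat_lit 163907) (nat_lit 12) (.e (nat_lit 426568) (nat_lit 34) (.e (nat_lit 393275) (nat_lit 23) .nil))) .nil)) 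
(.lf (nat_lit 253308) (.g (nat_lit 3921) (.e (nat_lit 163908) (nat_lit 12) (.e (nat_lit 426113) (nat_lit 2) (.e (nat_lit 196666) (nat_lit 13) (.e (nat_lit 65617) (nat_lit 10) (.e (nat_lit 344133) (nat_lit 26) (.e (nat_lit 557089) (nat_lit 12) (.e (nat_lit 163849) (nat_lit 0) (.e (nat_lit 6416) (nat_lit 341) .nil)))))))) (.g (nat_lit 0) .nil .nil))))))) 
(.nd (nat_lit 2) (.nd (nat_lit 3) (.nd (nat_lit 4) (.nd (nat_lit 5) 
(.lf (nat_lit 253250) (.g (nat_lit 1836) (.e (nat_lit 163907) (nat_lit 12) (.e (nat_lit 426564) (nat_lit 34) (.e (nat_lit 393293) (nat_lit 26) (.e (nat_lit 475177) (nat_lit 24) (.e (nat_lit 516119) (nat_lit 1) (.e (nat_lit 164325) (nat_lit 230) .nil)))))) (.g (nat_lit 4) .nil .nil))) 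
(.lf (nat_lit 253282) (.g (nat_lit 3160) (.e (nat_lit 163907) (nat_lit 12) (.e (nat_lit 426568) (nat_lit 34) (.e (nat_lit 393283) (nat_lit 24) (.e (nat_lit 434231) (nat_lit 23) (.e (nat_lit 532483) (nat_lit 0) (.e (nat_lit 1030) (nat_lit 81) (.e (nat_lit 7289) (nat_lit 386) .nil))))))) (.g (nat_lit 4) .nil .nil)))) (.nd (nat_lit 5) 
(.lf (nat_lit 253266) (.g (nat_lit 3209) (.e (nat_lit 163907) (nat_lit 12) (.e (nat_lit 426567) (nat_lit 34) (.e (nat_lit 393271) (nat_lit 23) (.e (nat_lit 426131) (nat_lit 3) (.e (nat_lit 204831) (nat_lit 18) (.e (nat_lit 57692) (nat_lit 156) .nil)))))) (.g (nat_lit 4) .nil .nil))) 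
(.lf (nat_lit 253298) (.g (nat_lit 4605) (.e (nat_lit 163908) (nat_lit 12) (.e (nat_lit 426113) (nat_lit 2) (.e (nat_lit 196666) (nat_lit 13) (.e (nat_lit 65617) (nat_lit 10) (.e (nat_lit 344127) (nat_lit 26) (.e (nat_lit 557090) (nat_lit 12) (.e (nat_lit 163844) (nat_lit 0) (.e (nat_lit 6420) (nat_lit 341) .nil)))))))) (.g (nat_lit 7) .nil .nil))))) (.nd (nat_lit 4) (.nd (nat_lit 5) 
(.lf (nat_lit 253258) (.g (nat_lit 2718) (.e (nat_lit 163907) (nat_lit 12) (.e (nat_lit 426567) (nat_lit 34) (.e (nat_lit 393268) (nat_lit 23) (.e (nat_lit 426436) (nat_lit 18) (.e (nat_lit 98333) (nat_lit 18) (.e (nat_lit 164325) (nat_lit 230) .nil)))))) (.g (nat_lit 4) .nil .nil))) 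
(.lf (nat_lit 253290) (.g (nat_lit 4490) (.e (nat_lit 163908) (nat_lit 12) (.e (nat_lit 426113) (nat_lit 2) (.e (nat_lit 196666) (nat_lit 13) (.e (nat_lit 65610) (nat_lit 10) (.e (nat_lit 344129) (nat_lit 26) (.e (nat_lit 557089) (nat_lit 12) (.e (nat_lit 163849) (nat_lit 0) (.e (nat_lit 6420) (nat_lit 341) .nil)))))))) (.g (nat_lit 0) .nil .nil)))) (.nd (nat_lit 5) 
(.lf (nat_lit 253274) (.g (nat_lit 1758) (.e (nat_lit 163907) (nat_lit 12) (.e (nat_lit 426568) (nat_lit 34) (.e (nat_lit 393271) (nat_lit 23) (.e (nat_lit 433920) (nat_lit 18) .nil)))) .nil)) 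
(.lf (nat_lit 253306) (.g (nat_lit 3301) (.e (nat_lit 163908) (nat_lit 12) (.e (nat_lit 426113) (nat_lit 2) (.e (nat_lit 196666) (nat_lit 13) (.e (nat_lit 65617) (nat_lit 10) (.e (nat_lit 344132) (nat_lit 26) (.e (nat_lit 557094) (nat_lit 12) (.e (nat_lit 163848) (nat_lit 0) (.e (nat_lit 6418) (nat_lit 341) .nil)))))))) (.g (nat_lit 6) .nil .nil)))))) 
(.nd (nat_lit 3) (.nd (nat_lit 4) (.nd (nat_lit 5) 
(.lf (nat_lit 253254) (.g (nat_lit 1444) (.e (nat_lit 163907) (nat_lit 12) (.e (nat_lit 426566) (nat_lit 34) (.e (nat_lit 393271) (nat_lit 23) (.e (nat_lit 433920) (nat_lit 3) .nil)))) .nil)) 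
(.lf (nat_lit 253286) (.g (nat_lit 3113) (.e (nat_lit 163907) (nat_lit 12) (.e (nat_lit 426568) (nat_lit 34) (.e (nat_lit 393283) (nat_lit 24) (.e (nat_lit 434231) (nat_lit 23) (.e (nat_lit 532483) (nat_lit 0) (.e (nat_lit 1036) (nat_lit 81) (.e (nat_lit 7290) (nat_lit 386) .nil))))))) (.g (nat_lit 4) .nil .nil)))) (.nd (nat_lit 5) 
(.lf (nat_lit 253270) (.g (nat_lit 2180) (.e (nat_lit 163907) (nat_lit 12) (.e (nat_lit 426567) (nat_lit 34) (.e (nat_lit 393293) (nat_lit 26) (.e (nat_lit 475177) (nat_lit 24) (.e (nat_lit 516118) (nat_lit 1) (.e (nat_lit 164325) (nat_lit 230) .nil)))))) (.g (nat_lit 5) .nil .nil))) 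
(.lf (nat_lit 253302) (.g (nat_lit 4246) (.e (nat_lit 163908) (nat_lit 12) (.e (nat_lit 426113) (nat_lit 2) (.e (nat_lit 196666) (nat_lit 13) (.e (nat_lit 65617) (nat_lit 10) (.e (nat_lit 344130) (nat_lit 26) (.e (nat_lit 557090) (nat_lit 12) (.e (nat_lit 163844) (nat_lit 0) (.e (nat_lit 6418) (nat_lit 341) .nil)))))))) (.g (nat_lit 7) .nil .nil))))) (.nd (nat_lit 4) (.nd (nat_lit 5) 
(.lf (nat_lit 253262) (.g (nat_lit 2864) (.e (nat_lit 163907) (nat_lit 12) (.e (nat_lit 426567) (nat_lit 34) (.e (nat_lit 393270) (nat_lit 23) (.e (nat_lit 426438) (nat_lit 18) (.e (nat_lit 98335) (nat_lit 18) (.e (nat_lit 164325) (nat_lit 230) .nil)))))) (.g (nat_lit 6) .nil .nil))) 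
(.lf (nat_lit 253294) (.g (nat_lit 3703) (.e (nat_lit 163908) (nat_lit 12) (.e (nat_lit 426113) (nat_lit 2) (.e (nat_lit 196666) (nat_lit 13) (.e (nat_lit 65610) (nat_lit 10) (.e (nat_lit 344129) (nat_lit 26) (.e (nat_lit 557090) (nat_lit 12) (.e (nat_lit 163849) (nat_lit 0) (.e (nat_lit 6420) (nat_lit 341) .nil)))))))) (.g (nat_lit 6) .nil .nil)))) (.nd (nat_lit 5) 
(.lf (nat_lit 253278) (.g (nat_lit 1571) (.e (nat_lit 163907) (nat_lit 12) (.e (nat_lit 426568) (nat_lit 34) (.e (nat_lit 393281) (nat_lit 23) (.e (nat_lit 426116) (nat_lit 2) (.e (nat_lit 196635) (nat_lit 9) .nil))))) .nil)) 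
(.lf (nat_lit 253310) (.g (nat_lit 4073) (.e (nat_lit 163908) (nat_lit 12) (.e (nat_lit 426113) (nat_lit 2) (.e (nat_lit 196666) (nat_lit 13) (.e (nat_lit 65617) (nat_lit 10) (.e (nat_lit 344133) (nat_lit 26) (.e (nat_lit 557089) (nat_lit 12) (.e (nat_lit 163849) (nat_lit 0) (.e (nat_lit 6420) (nat_lit 341) .nil)))))))) (.g (nat_lit 0) .nil .nil)))))))) 
(.nd (nat_lit 1) (.nd (nat_lit 2) (.nd (nat_lit 3) (.nd (nat_lit 4) (.nd (nat_lit 5) 
(.lf (nat_lit 253249) (.g (nat_lit 2564) (.e (nat_lit 163907) (nat_lit 12) (.e (nat_lit 426564) (nat_lit 34) (.e (nat_lit 393271) (nat_lit 23) (.e (nat_lit 426131) (nat_lit 3) (.e (nat_lit 204830) (nat_lit 18) .nil))))) .nil)) 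
(.lf (nat_lit 253281) (.g (nat_lit 2375) (.e (nat_lit 163907) (nat_lit 12) (.e (nat_lit 426568) (nat_lit 34) (.e (nat_lit 393283) (nat_lit 24) (.e (nat_lit 434231) (nat_lit 23) (.e (nat_lit 532483) (nat_lit 0) .nil))))) .nil))) (.nd (nat_lit 5) 
(.lf (nat_lit 253265) (.g (nat_lit 3195) (.e (nat_lit 163907) (nat_lit 12) (.e (nat_lit 426567) (nat_lit 34) (.e (nat_lit 393271) (nat_lit 23) (.e (nat_lit 426131) (nat_lit 3) (.e (nat_lit 204831) (nat_lit 18) (.e (nat_lit 57691) (nat_lit 156) .nil)))))) (.g (nat_lit 4) .nil .nil))) 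
(.lf (nat_lit 253297) (.g (nat_lit 4475) (.e (nat_lit 163908) (nat_lit 12) (.e (nat_lit 426113) (nat_lit 2) (.e (nat_lit 196666) (nat_lit 13) (.e (nat_lit 65617) (nat_lit 10) (.e (nat_lit 344127) (nat_lit 26) (.e (nat_lit 557090) (nat_lit 12) (.e (nat_lit 163844) (nat_lit 0) (.e (nat_lit 6416) (nat_lit 341) .nil)))))))) (.g (nat_lit 7) .nil .nil))))) (.nd (nat_lit 4) (.nd (nat_lit 5) 
(.lf (nat_lit 253257) (.g (nat_lit 743) (.e (nat_lit 163907) (nat_lit 12) (.e (nat_lit 426566) (nat_lit 34) (.e (nat_lit 393283) (nat_lit 24) .nil))) .nil)) 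
(.lf (nat_lit 253289) (.g (nat_lit 4340) (.e (nat_lit 163908) (nat_lit 12) (.e (nat_lit 426113) (nat_lit 2) (.e (nat_lit 196666) (nat_lit 13) (.e (nat_lit 65610) (nat_lit 10) (.e (nat_lit 344129) (nat_lit 26) (.e (nat_lit 557089) (nat_lit 12) (.e (nat_lit 163849) (nat_lit 0) (.e (nat_lit 6416) (nat_lit 341) .nil)))))))) (.g (nat_lit 0) .nil .nil)))) (.nd (nat_lit 5) 
(.lf (nat_lit 253273) (.g (nat_lit 3306) (.e (nat_lit 163907) (nat_lit 12) (.e (nat_lit 426568) (nat_lit 34) (.e (nat_lit 393267) (nat_lit 23) (.e (nat_lit 426436) (nat_lit 18) (.e (nat_lit 98335) (nat_lit 18) (.e (nat_lit 164325) (nat_lit 230) .nil)))))) (.g (nat_lit 6) .nil .nil))) 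
(.lf (nat_lit 253305) (.g (nat_lit 3413) (.e (nat_lit 163908) (nat_lit 12) (.e (nat_lit 426113) (nat_lit 2) (.e (nat_lit 196666) (nat_lit 13) (.e (nat_lit 65617) (nat_lit 10) (.e (nat_lit 344132) (nat_lit 26) (.e (nat_lit 557094) (nat_lit 12) (.e (nat_lit 163848) (nat_lit 0) (.e (nat_lit 6416) (nat_lit 341) .nil)))))))) (.g (nat_lit 6) .nil .nil)))))) 
(.nd (nat_lit 3) (.nd (nat_lit 4) (.nd (nat_lit 5) 
(.lf (nat_lit 253253) (.g (nat_lit 1657) (.e (nat_lit 163907) (nat_lit 12) (.e (nat_lit 426566) (nat_lit 34) (.e (nat_lit 393271) (nat_lit 23) (.e (nat_lit 425986) (nat_lit 0) .nil)))) .nil)) 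
(.lf (nat_lit 253285) (.g (nat_lit 3482) (.e (nat_lit 163907) (nat_lit 12) (.e (nat_lit 426568) (nat_lit 34) (.e (nat_lit 393283) (nat_lit 24) (.e (nat_lit 434231) (nat_lit 23) (.e (nat_lit 532483) (nat_lit 0) (.e (nat_lit 1036) (nat_lit 81) (.e (nat_lit 7289) (nat_lit 386) .nil))))))) (.g (nat_lit 4) .nil .nil)))) (.nd (nat_lit 5) 
(.lf (nat_lit 253269) (.g (nat_lit 2078) (.e (nat_lit 163907) (nat_lit 12) (.e (nat_lit 426567) (nat_lit 34) (.e (nat_lit 393290) (nat_lit 26) (.e (nat_lit 475179) (nat_lit 24) (.e (nat_lit 516119) (nat_lit 1) (.e (nat_lit 164325) (nat_lit 230) .nil)))))) (.g (nat_lit 4) .nil .nil))) 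
(.lf (nat_lit 253301) (.g (nat_lit 4552) (.e (nat_lit 163908) (nat_lit 12) (.e (nat_lit 426113) (nat_lit 2) (.e (nat_lit 196666) (nat_lit 13) (.e (nat_lit 65617) (nat_lit 10) (.e (nat_lit 344130) (nat_lit 26) (.e (nat_lit 557090) (nat_lit 12) (.e (nat_lit 163844) (nat_lit 0) (.e (nat_lit 6416) (nat_lit 341) .nil)))))))) (.g (nat_lit 7) .nil .nil))))) (.nd (nat_lit 4) (.nd (nat_lit 5) 
(.lf (nat_lit 253261) (.g (nat_lit 3145) (.e (nat_lit 163907) (nat_lit 12) (.e (nat_lit 426567) (nat_lit 34) (.e (nat_lit 393270) (nat_lit 23) (.e (nat_lit 426438) (nat_lit 18) (.e (nat_lit 98333) (nat_lit 18) (.e (nat_lit 164325) (nat_lit 230) .nil)))))) (.g (nat_lit 6) .nil .nil))) 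
(.lf (nat_lit 253293) (.g (nat_lit 3565) (.e (nat_lit 163908) (nat_lit 12) (.e (nat_lit 426113) (nat_lit 2) (.e (nat_lit 196666) (nat_lit 13) (.e (nat_lit 65610) (nat_lit 10) (.e (nat_lit 344129) (nat_lit 26) (.e (nat_lit 557090) (nat_lit 12) (.e (nat_lit 163849) (nat_lit 0) (.e (nat_lit 6416) (nat_lit 341) .nil)))))))) (.g (nat_lit 6) .nil .nil)))) (.nd (nat_lit 5) 
(.lf (nat_lit 253277) (.g (nat_lit 2180) (.e (nat_lit 163907) (nat_lit 12) (.e (nat_lit 426568) (nat_lit 34) (.e (nat_lit 393275) (nat_lit 23) (.e (nat_lit 426396) (nat_lit 15) (.e (nat_lit 1800) (nat_lit 119) (.e (nat_lit 516119) (nat_lit 1) (.e (nat_lit 164325) (nat_lit 230) .nil))))))) (.g (nat_lit 4) .nil .nil))) 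
(.lf (nat_lit 253309) (.g (nat_lit 2850) (.e (nat_lit 163908) (nat_lit 12) (.e (nat_lit 426113) (nat_lit 2) (.e (nat_lit 196666) (nat_lit 13) (.e (nat_lit 65617) (nat_lit 10) (.e (nat_lit 344133) (nat_lit 26) (.e (nat_lit 557089) (nat_lit 12) (.e (nat_lit 163849) (nat_lit 0) (.e (nat_lit 6418) (nat_lit 341) .nil)))))))) (.g (nat_lit 5) .nil .nil))))))) 
(.nd (nat_lit 2) (.nd (nat_lit 3) (.nd (nat_lit 4) (.nd (nat_lit 5) 
(.lf (nat_lit 253251) (.g (nat_lit 2681) (.e (nat_lit 163907) (nat_lit 12) (.e (nat_lit 426566) (nat_lit 34) (.e (nat_lit 393268) (nat_lit 23) (.e (nat_lit 426436) (nat_lit 18) (.e (nat_lit 98335) (nat_lit 18) (.e (nat_lit 164324) (nat_lit 230) .nil)))))) (.g (nat_lit 4) .nil .nil))) 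
(.lf (nat_lit 253283) (.g (nat_lit 2856) (.e (nat_lit 163907) (nat_lit 12) (.e (nat_lit 426568) (nat_lit 34) (.e (nat_lit 393283) (nat_lit 24) (.e (nat_lit 434231) (nat_lit 23) (.e (nat_lit 532483) (nat_lit 0) (.e (nat_lit 1030) (nat_lit 81) (.e (nat_lit 7290) (nat_lit 386) .nil))))))) (.g (nat_lit 4) .nil .nil)))) (.nd (nat_lit 5) 
(.lf (nat_lit 253267) (.g (nat_lit 3409) (.e (nat_lit 163907) (nat_lit 12) (.e (nat_lit 426567) (nat_lit 34) (.e (nat_lit 393271) (nat_lit 23) (.e (nat_lit 426436) (nat_lit 18) (.e (nat_lit 98333) (nat_lit 18) (.e (nat_lit 164325) (nat_lit 230) .nil)))))) (.g (nat_lit 4) .nil .nil))) 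
(.lf (nat_lit 253299) (.g (nat_lit 2739) (.e (nat_lit 163908) (nat_lit 12) (.e (nat_lit 426113) (nat_lit 2) (.e (nat_lit 196666) (nat_lit 13) (.e (nat_lit 65617) (nat_lit 10) (.e (nat_lit 344130) (nat_lit 26) (.e (nat_lit 557089) (nat_lit 12) (.e (nat_lit 163849) (nat_lit 0) (.e (nat_lit 6418) (nat_lit 341) .nil)))))))) (.g (nat_lit 5) .nil .nil))))) (.nd (nat_lit 4) (.nd (nat_lit 5) 
(.lf (nat_lit 253259) (.g (nat_lit 3930) (.e (nat_lit 163907) (nat_lit 12) (.e (nat_lit 426567) (nat_lit 34) (.e (nat_lit 393268) (nat_lit 23) (.e (nat_lit 426438) (nat_lit 18) (.e (nat_lit 98333) (nat_lit 18) (.e (nat_lit 164325) (nat_lit 230) .nil)))))) (.g (nat_lit 0) .nil .nil))) 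
(.lf (nat_lit 253291) (.g (nat_lit 4531) (.e (nat_lit 163908) (nat_lit 12) (.e (nat_lit 426113) (nat_lit 2) (.e (nat_lit 196666) (nat_lit 13) (.e (nat_lit 65610) (nat_lit 10) (.e (nat_lit 344129) (nat_lit 26) (.e (nat_lit 557090) (nat_lit 12) (.e (nat_lit 163843) (nat_lit 0) (.e (nat_lit 6418) (nat_lit 341) .nil)))))))) (.g (nat_lit 7) .nil .nil)))) (.nd (nat_lit 5) 
(.lf (nat_lit 253275) (.g (nat_lit 1947) (.e (nat_lit 163907) (nat_lit 12) (.e (nat_lit 426568) (nat_lit 34) (.e (nat_lit 393272) (nat_lit 23) (.e (nat_lit 426436) (nat_lit 18) (.e (nat_lit 98335) (nat_lit 18) (.e (nat_lit 164325) (nat_lit 230) .nil)))))) (.g (nat_lit 4) .nil .nil))) 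
(.lf (nat_lit 253307) (.g (nat_lit 3814) (.e (nat_lit 163908) (nat_lit 12) (.e (nat_lit 426113) (nat_lit 2) (.e (nat_lit 196666) (nat_lit 13) (.e (nat_lit 65617) (nat_lit 10) (.e (nat_lit 344133) (nat_lit 26) (.e (nat_lit 557089) (nat_lit 12) (.e (nat_lit 163848) (nat_lit 0) (.e (nat_lit 6416) (nat_lit 341) .nil)))))))) (.g (nat_lit 0) .nil .nil)))))) 
(.nd (nat_lit 3) (.nd (nat_lit 4) (.nd (nat_lit 5) 
(.lf (nat_lit 253255) (.g (nat_lit 2112) (.e (nat_lit 163907) (nat_lit 12) (.e (nat_lit 426566) (nat_lit 34) (.e (nat_lit 393273) (nat_lit 23) (.e (nat_lit 426402) (nat_lit 15) (.e (nat_lit 1788) (nat_lit 119) (.e (nat_lit 516118) (nat_lit 1) (.e (nat_lit 164325) (nat_lit 230) .nil))))))) (.g (nat_lit 4) .nil .nil))) 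
(.lf (nat_lit 253287) (.g (nat_lit 935) (.e (nat_lit 163907) (nat_lit 12) (.e (nat_lit 426568) (nat_lit 34) (.e (nat_lit 393283) (nat_lit 24) (.e (nat_lit 434247) (nat_lit 28) .nil)))) .nil))) (.nd (nat_lit 5) 
(.lf (nat_lit 253271) (.g (nat_lit 2436) (.e (nat_lit 163907) (nat_lit 12) (.e (nat_lit 426567) (nat_lit 34) (.e (nat_lit 393293) (nat_lit 26) (.e (nat_lit 475177) (nat_lit 24) (.e (nat_lit 516119) (nat_lit 1) (.e (nat_lit 164325) (nat_lit 230) .nil)))))) (.g (nat_lit 5) .nil .nil))) 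
(.lf (nat_lit 253303) (.g (nat_lit 3041) (.e (nat_lit 163908) (nat_lit 12) (.e (nat_lit 426113) (nat_lit 2) (.e (nat_lit 196666) (nat_lit 13) (.e (nat_lit 65617) (nat_lit 10) (.e (nat_lit 344132) (nat_lit 26) (.e (nat_lit 557093) (nat_lit 12) (.e (nat_lit 163847) (nat_lit 0) (.e (nat_lit 6420) (nat_lit 341) .nil)))))))) (.g (nat_lit 5) .nil .nil))))) (.nd (nat_lit 4) (.nd (nat_lit 5) 
(.lf (nat_lit 253263) (.g (nat_lit 3354) (.e (nat_lit 163907) (nat_lit 12) (.e (nat_lit 426567) (nat_lit 34) (.e (nat_lit 393271) (nat_lit 23) (.e (nat_lit 426131) (nat_lit 3) (.e (nat_lit 204829) (nat_lit 18) (.e (nat_lit 57691) (nat_lit 156) .nil)))))) (.g (nat_lit 4) .nil .nil))) 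
(.lf (nat_lit 253295) (.g (nat_lit 1645) (.e (nat_lit 163908) (nat_lit 12) (.e (nat_lit 426113) (nat_lit 2) (.e (nat_lit 196666) (nat_lit 13) (.e (nat_lit 65617) (nat_lit 10) (.e (nat_lit 344127) (nat_lit 26) .nil))))) .nil))) (.nd (nat_lit 5) 
(.lf (nat_lit 253279) (.g (nat_lit 2686) (.e (nat_lit 163907) (nat_lit 12) (.e (nat_lit 426568) (nat_lit 34) (.e (nat_lit 393282) (nat_lit 24) (.e (nat_lit 434231) (nat_lit 23) (.e (nat_lit 532483) (nat_lit 0) .nil))))) .nil)) 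
(.lf (nat_lit 253311) (.g (nat_lit 4495) (.e (nat_lit 163908) (nat_lit 12) (.e (nat_lit 426113) (nat_lit 2) (.e (nat_lit 196666) (nat_lit 13) (.e (nat_lit 65617) (nat_lit 10) (.e (nat_lit 344133) (nat_lit 26) (.e (nat_lit 557091) (nat_lit 12) (.e (nat_lit 163843) (nat_lit 0) (.e (nat_lit 6418) (nat_lit 341) .nil)))))))) (.g (nat_lit 7) .nil .nil)))))))))

noncomputable def tv3284 : DT := (.nd (nat_lit 0) (.nd (nat_lit 1) (.nd (nat_lit 2) (.nd (nat_lit 3) (.nd (nat_lit 4) (.nd (nat_lit 5) 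
(.lf (nat_lit 253312) (.g (nat_lit 3945) (.e (nat_lit 163908) (nat_lit 12) (.e (nat_lit 426113) (nat_lit 2) (.e (nat_lit 196666) (nat_lit 13) (.e (nat_lit 65617) (nat_lit 10) (.e (nat_lit 344133) (nat_lit 26) (.e (nat_lit 557091) (nat_lit 12) (.e (nat_lit 163844) (nat_lit 0) (.e (nat_lit 6418) (nat_lit 341) .nil)))))))) (.g (nat_lit 7) .nil .nil))) 
(.lf (nat_lit 253344) (.g (nat_lit 3316) (.e (nat_lit 163908) (nat_lit 12) (.e (nat_lit 426134) (nat_lit 3) (.e (nat_lit 204869) (nat_lit 29) (.e (nat_lit 360474) (nat_lit 8) (.e (nat_lit 557093) (nat_lit 12) (.e (nat_lit 163849) (nat_lit 0) (.e (nat_lit 6416) (nat_lit 341) .nil))))))) (.g (nat_lit 4) .nil .nil)))) (.nd (nat_lit 5) 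
(.lf (nat_lit 253328) (.g (nat_lit 2422) (.e (nat_lit 163908) (nat_lit 12) (.e (nat_lit 426120) (nat_lit 2) (.e (nat_lit 196666) (nat_lit 13) (.e (nat_lit 65617) (nat_lit 10) (.e (nat_lit 344130) (nat_lit 26) (.e (nat_lit 557089) (nat_lit 12) (.e (nat_lit 163844) (nat_lit 0) (.e (nat_lit 6418) (nat_lit 341) .nil)))))))) (.g (nat_lit 4) .nil .nil))) 
(.lf (nat_lit 253360) (.g (nat_lit 4408) (.e (nat_lit 163908) (nat_lit 12) (.e (nat_lit 426135) (nat_lit 3) (.e (nat_lit 204869) (nat_lit 29) (.e (nat_lit 360475) (nat_lit 8) (.e (nat_lit 557091) (nat_lit 12) (.e (nat_lit 163847) (nat_lit 0) (.e (nat_lit 6420) (nat_lit 341) .nil))))))) (.g (nat_lit 4) .nil .nil))))) (.nd (nat_lit 4) (.nd (nat_lit 5) 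
(.lf (nat_lit 253320) (.g (nat_lit 3272) (.e (nat_lit 163908) (nat_lit 12) (.e (nat_lit 426117) (nat_lit 2) (.e (nat_lit 196666) (nat_lit 13) (.e (nat_lit 65617) (nat_lit 10) (.e (nat_lit 344133) (nat_lit 26) (.e (nat_lit 557091) (nat_lit 12) (.e (nat_lit 163843) (nat_lit 0) (.e (nat_lit 6420) (nat_lit 341) .nil)))))))) (.g (nat_lit 5) .nil .nil))) 
(.lf (nat_lit 253352) (.g (nat_lit 5140) (.e (nat_lit 163908) (nat_lit 12) (.e (nat_lit 426134) (nat_lit 3) (.e (nat_lit 204869) (nat_lit 29) (.e (nat_lit 360475) (nat_lit 8) (.e (nat_lit 557091) (nat_lit 12) (.e (nat_lit 163843) (nat_lit 0) (.e (nat_lit 6416) (nat_lit 341) .nil))))))) (.g (nat_lit 6) .nil .nil)))) (.nd (nat_lit 5) 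
(.lf (nat_lit 253336) (.g (nat_lit 2355) (.e (nat_lit 163908) (nat_lit 12) (.e (nat_lit 426120) (nat_lit 2) (.e (nat_lit 196666) (nat_lit 13) (.e (nat_lit 65617) (nat_lit 10) (.e (nat_lit 344132) (nat_lit 26) (.e (nat_lit 557094) (nat_lit 12) (.e (nat_lit 163849) (nat_lit 0) (.e (nat_lit 6416) (nat_lit 341) .nil)))))))) (.g (nat_lit 4) .nil .nil))) 
(.lf (nat_lit 253368) (.g (nat_lit 363) (.e (nat_lit 163908) (nat_lit 12) (.e (nat_lit 426286) (nat_lit 10) (.e (nat_lit 434241) (nat_lit 27) .nil))) .nil))))) (.nd (nat_lit 3) (.nd (nat_lit 4) (.nd (nat_lit 5) 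
(.lf (nat_lit 253316) (.g (nat_lit 2458) (.e (nat_lit 163908) (nat_lit 12) (.e (nat_lit 426117) (nat_lit 2) (.e (nat_lit 196666) (nat_lit 13) (.e (nat_lit 65617) (nat_lit 10) (.e (nat_lit 344130) (nat_lit 26) (.e (nat_lit 557090) (nat_lit 12) (.e (nat_lit 163847) (nat_lit 0) (.e (nat_lit 6416) (nat_lit 341) .nil)))))))) (.g (nat_lit 4) .nil .nil))) 
(.lf (nat_lit 253348) (.g (nat_lit 2740) (.e (nat_lit 163908) (nat_lit 12) (.e (nat_lit 426134) (nat_lit 3) (.e (nat_lit 204869) (nat_lit 29) (.e (nat_lit 360474) (nat_lit 8) (.e (nat_lit 557094) (nat_lit 12) (.e (nat_lit 163847) (nat_lit 0) (.e (nat_lit 6420) (nat_lit 341) .nil))))))) (.g (nat_lit 4) .nil .nil)))) (.nd (nat_lit 5) 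
(.lf (nat_lit 253332) (.g (nat_lit 3038) (.e (nat_lit 163908) (nat_lit 12) (.e (nat_lit 426120) (nat_lit 2) (.e (nat_lit 196666) (nat_lit 13) (.e (nat_lit 65617) (nat_lit 10) (.e (nat_lit 344130) (nat_lit 26) (.e (nat_lit 557090) (nat_lit 12) (.e (nat_lit 163843) (nat_lit 0) (.e (nat_lit 6418) (nat_lit 341) .nil)))))))) (.g (nat_lit 5) .nil .nil))) 
(.lf (nat_lit 253364) (.g (nat_lit 402) (.e (nat_lit 163908) (nat_lit 12) (.e (nat_lit 426285) (nat_lit 10) (.e (nat_lit 434241) (nat_lit 27) .nil))) .nil)))) (.nd (nat_lit 4) (.nd (nat_lit 5) 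
(.lf (nat_lit 253324) (.g (nat_lit 2605) (.e (nat_lit 163908) (nat_lit 12) (.e (nat_lit 426117) (nat_lit 2) (.e (nat_lit 196666) (nat_lit 13) (.e (nat_lit 65617) (nat_lit 10) (.e (nat_lit 344133) (nat_lit 26) (.e (nat_lit 557091) (nat_lit 12) (.e (nat_lit 163847) (nat_lit 0) (.e (nat_lit 6420) (nat_lit 341) .nil)))))))) (.g (nat_lit 4) .nil .nil))) 
(.lf (nat_lit 253356) (.g (nat_lit 4287) (.e (nat_lit 163908) (nat_lit 12) (.e (nat_lit 426135) (nat_lit 3) (.e (nat_lit 204869) (nat_lit 29) (.e (nat_lit 360475) (nat_lit 8) (.e (nat_lit 557089) (nat_lit 12) (.e (nat_lit 163844) (nat_lit 0) (.e (nat_lit 6418) (nat_lit 341) .nil))))))) (.g (nat_lit 4) .nil .nil)))) (.nd (nat_lit 5) 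
(.lf (nat_lit 253340) (.g (nat_lit 3092) (.e (nat_lit 163908) (nat_lit 12) (.e (nat_lit 426120) (nat_lit 2) (.e (nat_lit 196666) (nat_lit 13) (.e (nat_lit 65617) (nat_lit 10) (.e (nat_lit 344133) (nat_lit 26) (.e (nat_lit 557091) (nat_lit 12) (.e (nat_lit 163844) (nat_lit 0) (.e (nat_lit 6416) (nat_lit 341) .nil)))))))) (.g (nat_lit 5) .nil .nil))) 
(.lf (nat_lit 253372) (.g (nat_lit 1851) (.e (nat_lit 163908) (nat_lit 12) (.e (nat_lit 426286) (nat_lit 10) (.e (nat_lit 434269) (nat_lit 36) (.e (nat_lit 639007) (nat_lit 13) (.e (nat_lit 1586) (nat_lit 111) (.e (nat_lit 368384) (nat_lit 0) (.e (nat_lit 5229) (nat_lit 296) .nil))))))) (.g (nat_lit 5) .nil .nil))))))) (.nd (nat_lit 2) (.nd (nat_lit 3) (.nd (nat_lit 4) (.nd (nat_lit 5) 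
(.lf (nat_lit 253314) (.g (nat_lit 2541) (.e (nat_lit 163908) (nat_lit 12) (.e (nat_lit 426117) (nat_lit 2) (.e (nat_lit 196666) (nat_lit 13) (.e (nat_lit 65617) (nat_lit 10) (.e (nat_lit 344130) (nat_lit 26) (.e (nat_lit 557090) (nat_lit 12) (.e (nat_lit 163843) (nat_lit 0) (.e (nat_lit 6418) (nat_lit 341) .nil)))))))) (.g (nat_lit 4) .nil .nil))) 
(.lf (nat_lit 253346) (.g (nat_lit 2663) (.e (nat_lit 163908) (nat_lit 12) (.e (nat_lit 426134) (nat_lit 3) (.e (nat_lit 204869) (nat_lit 29) (.e (nat_lit 360474) (nat_lit 8) (.e (nat_lit 557094) (nat_lit 12) .nil))))) .nil))) (.nd (nat_lit 5) 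
(.lf (nat_lit 253330) (.g (nat_lit 2406) (.e (nat_lit 163908) (nat_lit 12) (.e (nat_lit 426120) (nat_lit 2) (.e (nat_lit 196666) (nat_lit 13) (.e (nat_lit 65617) (nat_lit 10) (.e (nat_lit 344130) (nat_lit 26) (.e (nat_lit 557089) (nat_lit 12) (.e (nat_lit 163848) (nat_lit 0) (.e (nat_lit 6418) (nat_lit 341) .nil)))))))) (.g (nat_lit 4) .nil .nil))) 
(.lf (nat_lit 253362) (.g (nat_lit 1186) (.e (nat_lit 163908) (nat_lit 12) (.e (nat_lit 426170) (nat_lit 7) (.e (nat_lit 409639) (nat_lit 15) (.e (nat_lit 278567) (nat_lit 16) (.e (nat_lit 286747) (nat_lit 9) (.e (nat_lit 335997) (nat_lit 1) (.e (nat_lit 57857) (nat_lit 254) .nil))))))) (.g (nat_lit 0) .nil .nil))))) (.nd (nat_lit 4) (.nd (nat_lit 5) 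
(.lf (nat_lit 253322) (.g (nat_lit 2660) (.e (nat_lit 163908) (nat_lit 12) (.e (nat_lit 426117) (nat_lit 2) (.e (nat_lit 196666) (nat_lit 13) (.e (nat_lit 65617) (nat_lit 10) (.e (nat_lit 344133) (nat_lit 26) (.e (nat_lit 557091) (nat_lit 12) (.e (nat_lit 163844) (nat_lit 0) (.e (nat_lit 6420) (nat_lit 341) .nil)))))))) (.g (nat_lit 4) .nil .nil))) 
(.lf (nat_lit 253354) (.g (nat_lit 4252) (.e (nat_lit 163908) (nat_lit 12) (.e (nat_lit 426134) (nat_lit 3) (.e (nat_lit 204869) (nat_lit 29) (.e (nat_lit 360475) (nat_lit 8) (.e (nat_lit 557091) (nat_lit 12) (.e (nat_lit 163847) (nat_lit 0) (.e (nat_lit 6420) (nat_lit 341) .nil))))))) (.g (nat_lit 5) .nil .nil)))) (.nd (nat_lit 5) 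
(.lf (nat_lit 253338) (.g (nat_lit 2346) (.e (nat_lit 163908) (nat_lit 12) (.e (nat_lit 426120) (nat_lit 2) (.e (nat_lit 196666) (nat_lit 13) (.e (nat_lit 65617) (nat_lit 10) (.e (nat_lit 344133) (nat_lit 26) (.e (nat_lit 557089) (nat_lit 12) (.e (nat_lit 163843) (nat_lit 0) (.e (nat_lit 6416) (nat_lit 341) .nil)))))))) (.g (nat_lit 4) .nil .nil))) 
(.lf (nat_lit 253370) (.g (nat_lit 1029) (.e (nat_lit 163908) (nat_lit 12) (.e (nat_lit 426286) (nat_lit 10) (.e (nat_lit 434268) (nat_lit 36) (.e (nat_lit 639007) (nat_lit 13) (.e (nat_lit 1586) (nat_lit 111) .nil))))) .nil))))) (.nd (nat_lit 3) (.nd (nat_lit 4) (.nd (nat_lit 5) 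
(.lf (nat_lit 253318) (.g (nat_lit 2499) (.e (nat_lit 163908) (nat_lit 12) (.e (nat_lit 426117) (nat_lit 2) (.e (nat_lit 196666) (nat_lit 13) (.e (nat_lit 65617) (nat_lit 10) (.e (nat_lit 344130) (nat_lit 26) (.e (nat_lit 557090) (nat_lit 12) (.e (nat_lit 163847) (nat_lit 0) (.e (nat_lit 6420) (nat_lit 341) .nil)))))))) (.g (nat_lit 4) .nil .nil))) 
(.lf (nat_lit 253350) (.g (nat_lit 4240) (.e (nat_lit 163908) (nat_lit 12) (.e (nat_lit 426134) (nat_lit 3) (.e (nat_lit 204869) (nat_lit 29) (.e (nat_lit 360475) (nat_lit 8) (.e (nat_lit 557089) (nat_lit 12) (.e (nat_lit 163848) (nat_lit 0) (.e (nat_lit 6418) (nat_lit 341) .nil))))))) (.g (nat_lit 5) .nil .nil)))) (.nd (nat_lit 5) 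
(.lf (nat_lit 253334) (.g (nat_lit 2335) (.e (nat_lit 163908) (nat_lit 12) (.e (nat_lit 426120) (nat_lit 2) (.e (nat_lit 196666) (nat_lit 13) (.e (nat_lit 65617) (nat_lit 10) (.e (nat_lit 344132) (nat_lit 26) (.e (nat_lit 557094) (nat_lit 12) (.e (nat_lit 163847) (nat_lit 0) (.e (nat_lit 6418) (nat_lit 341) .nil)))))))) (.g (nat_lit 4) .nil .nil))) 
(.lf (nat_lit 253366) (.g (nat_lit 2604) (.e (nat_lit 163908) (nat_lit 12) (.e (nat_lit 426285) (nat_lit 10) (.e (nat_lit 434269) (nat_lit 36) (.e (nat_lit 639021) (nat_lit 16) (.e (nat_lit 65598) (nat_lit 9) (.e (nat_lit 335997) (nat_lit 1) (.e (nat_lit 57857) (nat_lit 254) .nil))))))) (.g (nat_lit 0) .nil .nil))))) (.nd (nat_lit 4) (.nd (nat_lit 5) 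
(.lf (nat_lit 253326) (.g (nat_lit 2467) (.e (nat_lit 163908) (nat_lit 12) (.e (nat_lit 426120) (nat_lit 2) (.e (nat_lit 196666) (nat_lit 13) (.e (nat_lit 65610) (nat_lit 10) (.e (nat_lit 344129) (nat_lit 26) (.e (nat_lit 557090) (nat_lit 12) (.e (nat_lit 163843) (nat_lit 0) (.e (nat_lit 6420) (nat_lit 341) .nil)))))))) (.g (nat_lit 4) .nil .nil))) 
(.lf (nat_lit 253358) (.g (nat_lit 5189) (.e (nat_lit 163908) (nat_lit 12) (.e (nat_lit 426135) (nat_lit 3) (.e (nat_lit 204869) (nat_lit 29) (.e (nat_lit 360475) (nat_lit 8) (.e (nat_lit 557091) (nat_lit 12) (.e (nat_lit 163843) (nat_lit 0) (.e (nat_lit 6420) (nat_lit 341) .nil))))))) (.g (nat_lit 5) .nil .nil)))) (.nd (nat_lit 5) 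
(.lf (nat_lit 253342) (.g (nat_lit 3230) (.e (nat_lit 163908) (nat_lit 12) (.e (nat_lit 426134) (nat_lit 3) (.e (nat_lit 204869) (nat_lit 29) (.e (nat_lit 360474) (nat_lit 8) (.e (nat_lit 557093) (nat_lit 12) (.e (nat_lit 163848) (nat_lit 0) (.e (nat_lit 6416) (nat_lit 341) .nil))))))) (.g (nat_lit 4) .nil .nil))) 
(.lf (nat_lit 253374) (.g (nat_lit 1424) (.e (nat_lit 163908) (nat_lit 12) (.e (nat_lit 426286) (nat_lit 10) (.e (nat_lit 434269) (nat_lit 36) (.e (nat_lit 639007) (nat_lit 13) (.e (nat_lit 1595) (nat_lit 111) (.e (nat_lit 368384) (nat_lit 0) (.e (nat_lit 5231) (nat_lit 296) .nil))))))) (.g (nat_lit 4) .nil .nil)))))))) 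
(.nd (nat_lit 1) (.nd (nat_lit 2) (.nd (nat_lit 3) (.nd (nat_lit 4) (.nd (nat_lit 5) 
(.lf (nat_lit 253313) (.g (nat_lit 4182) (.e (nat_lit 163908) (nat_lit 12) (.e (nat_lit 426113) (nat_lit 2) (.e (nat_lit 196666) (nat_lit 13) (.e (nat_lit 65617) (nat_lit 10) (.e (nat_lit 344133) (nat_lit 26) (.e (nat_lit 557091) (nat_lit 12) (.e (nat_lit 163847) (nat_lit 0) (.e (nat_lit 6416) (nat_lit 341) .nil)))))))) (.g (nat_lit 0) .nil .nil))) 
(.lf (nat_lit 253345) (.g (nat_lit 3166) (.e (nat_lit 163908) (nat_lit 12) (.e (nat_lit 426134) (nat_lit 3) (.e (nat_lit 204869) (nat_lit 29) (.e (nat_lit 360474) (nat_lit 8) (.e (nat_lit 557093) (nat_lit 12) (.e (nat_lit 163849) (nat_lit 0) (.e (nat_lit 6420) (nat_lit 341) .nil))))))) (.g (nat_lit 4) .nil .nil)))) (.nd (nat_lit 5) 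
(.lf (nat_lit 253329) (.g (nat_lit 2485) (.e (nat_lit 163908) (nat_lit 12) (.e (nat_lit 426120) (nat_lit 2) (.e (nat_lit 196666) (nat_lit 13) (.e (nat_lit 65617) (nat_lit 10) (.e (nat_lit 344130) (nat_lit 26) (.e (nat_lit 557089) (nat_lit 12) (.e (nat_lit 163848) (nat_lit 0) (.e (nat_lit 6416) (nat_lit 341) .nil)))))))) (.g (nat_lit 4) .nil .nil))) 
(.lf (nat_lit 253361) (.g (nat_lit 941) (.e (nat_lit 163908) (nat_lit 12) (.e (nat_lit 426170) (nat_lit 7) (.e (nat_lit 409638) (nat_lit 15) (.e (nat_lit 278567) (nat_lit 16) (.e (nat_lit 286747) (nat_lit 9) (.e (nat_lit 335997) (nat_lit 1) (.e (nat_lit 57857) (nat_lit 254) .nil))))))) (.g (nat_lit 5) .nil .nil))))) (.nd (nat_lit 4) (.nd (nat_lit 5) 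
(.lf (nat_lit 253321) (.g (nat_lit 2619) (.e (nat_lit 163908) (nat_lit 12) (.e (nat_lit 426117) (nat_lit 2) (.e (nat_lit 196666) (nat_lit 13) (.e (nat_lit 65617) (nat_lit 10) (.e (nat_lit 344133) (nat_lit 26) (.e (nat_lit 557091) (nat_lit 12) (.e (nat_lit 163844) (nat_lit 0) (.e (nat_lit 6416) (nat_lit 341) .nil)))))))) (.g (nat_lit 4) .nil .nil))) 
(.lf (nat_lit 253353) (.g (nat_lit 4332) (.e (nat_lit 163908) (nat_lit 12) (.e (nat_lit 426134) (nat_lit 3) (.e (nat_lit 204869) (nat_lit 29) (.e (nat_lit 360475) (nat_lit 8) (.e (nat_lit 557091) (nat_lit 12) (.e (nat_lit 163847) (nat_lit 0) (.e (nat_lit 6416) (nat_lit 341) .nil))))))) (.g (nat_lit 5) .nil .nil)))) (.nd (nat_lit 5) 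
(.lf (nat_lit 253337) (.g (nat_lit 2422) (.e (nat_lit 163908) (nat_lit 12) (.e (nat_lit 426120) (nat_lit 2) (.e (nat_lit 196666) (nat_lit 13) (.e (nat_lit 65617) (nat_lit 10) (.e (nat_lit 344132) (nat_lit 26) (.e (nat_lit 557094) (nat_lit 12) (.e (nat_lit 163849) (nat_lit 0) (.e (nat_lit 6420) (nat_lit 341) .nil)))))))) (.g (nat_lit 4) .nil .nil))) 
(.lf (nat_lit 253369) (.g (nat_lit 818) (.e (nat_lit 163908) (nat_lit 12) (.e (nat_lit 426286) (nat_lit 10) (.e (nat_lit 434268) (nat_lit 36) (.e (nat_lit 639007) (nat_lit 13) .nil)))) .nil))))) (.nd (nat_lit 3) (.nd (nat_lit 4) (.nd (nat_lit 5) 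
(.lf (nat_lit 253317) (.g (nat_lit 2371) (.e (nat_lit 163908) (nat_lit 12) (.e (nat_lit 426117) (nat_lit 2) (.e (nat_lit 196666) (nat_lit 13) (.e (nat_lit 65617) (nat_lit 10) (.e (nat_lit 344130) (nat_lit 26) (.e (nat_lit 557090) (nat_lit 12) (.e (nat_lit 163847) (nat_lit 0) (.e (nat_lit 6418) (nat_lit 341) .nil)))))))) (.g (nat_lit 4) .nil .nil))) 
(.lf (nat_lit 253349) (.g (nat_lit 4572) (.e (nat_lit 163908) (nat_lit 12) (.e (nat_lit 426134) (nat_lit 3) (.e (nat_lit 204869) (nat_lit 29) (.e (nat_lit 360475) (nat_lit 8) (.e (nat_lit 557089) (nat_lit 12) (.e (nat_lit 163848) (nat_lit 0) (.e (nat_lit 6416) (nat_lit 341) .nil))))))) (.g (nat_lit 5) .nil .nil)))) (.nd (nat_lit 5) 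
(.lf (nat_lit 253333) (.g (nat_lit 2445) (.e (nat_lit 163908) (nat_lit 12) (.e (nat_lit 426120) (nat_lit 2) (.e (nat_lit 196666) (nat_lit 13) (.e (nat_lit 65617) (nat_lit 10) (.e (nat_lit 344132) (nat_lit 26) (.e (nat_lit 557094) (nat_lit 12) (.e (nat_lit 163847) (nat_lit 0) (.e (nat_lit 6416) (nat_lit 341) .nil)))))))) (.g (nat_lit 4) .nil .nil))) 
(.lf (nat_lit 253365) (.g (nat_lit 441) (.e (nat_lit 163908) (nat_lit 12) (.e (nat_lit 426285) (nat_lit 10) (.e (nat_lit 434267) (nat_lit 36) .nil))) .nil)))) (.nd (nat_lit 4) (.nd (nat_lit 5) 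
(.lf (nat_lit 253325) (.g (nat_lit 2464) (.e (nat_lit 163908) (nat_lit 12) (.e (nat_lit 426120) (nat_lit 2) (.e (nat_lit 196666) (nat_lit 13) (.e (nat_lit 65610) (nat_lit 10) (.e (nat_lit 344129) (nat_lit 26) (.e (nat_lit 557090) (nat_lit 12) (.e (nat_lit 163843) (nat_lit 0) (.e (nat_lit 6416) (nat_lit 341) .nil)))))))) (.g (nat_lit 4) .nil .nil))) 
(.lf (nat_lit 253357) (.g (nat_lit 4383) (.e (nat_lit 163908) (nat_lit 12) (.e (nat_lit 426135) (nat_lit 3) (.e (nat_lit 204869) (nat_lit 29) (.e (nat_lit 360475) (nat_lit 8) (.e (nat_lit 557089) (nat_lit 12) (.e (nat_lit 163848) (nat_lit 0) (.e (nat_lit 6416) (nat_lit 341) .nil))))))) (.g (nat_lit 4) .nil .nil)))) (.nd (nat_lit 5) 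
(.lf (nat_lit 253341) (.g (nat_lit 3160) (.e (nat_lit 163908) (nat_lit 12) (.e (nat_lit 426120) (nat_lit 2) (.e (nat_lit 196666) (nat_lit 13) (.e (nat_lit 65617) (nat_lit 10) (.e (nat_lit 344133) (nat_lit 26) (.e (nat_lit 557091) (nat_lit 12) (.e (nat_lit 163844) (nat_lit 0) (.e (nat_lit 6420) (nat_lit 341) .nil)))))))) (.g (nat_lit 5) .nil .nil))) 
(.lf (nat_lit 253373) (.g (nat_lit 1750) (.e (nat_lit 163908) (nat_lit 12) (.e (nat_lit 426286) (nat_lit 10) (.e (nat_lit 434269) (nat_lit 36) (.e (nat_lit 639007) (nat_lit 13) (.e (nat_lit 1595) (nat_lit 111) (.e (nat_lit 368384) (nat_lit 0) (.e (nat_lit 5229) (nat_lit 296) .nil))))))) (.g (nat_lit 5) .nil .nil))))))) (.nd (nat_lit 2) (.nd (nat_lit 3) (.nd (nat_lit 4) (.nd (nat_lit 5) 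
(.lf (nat_lit 253315) (.g (nat_lit 2460) (.e (nat_lit 163908) (nat_lit 12) (.e (nat_lit 426117) (nat_lit 2) (.e (nat_lit 196666) (nat_lit 13) (.e (nat_lit 65617) (nat_lit 10) (.e (nat_lit 344130) (nat_lit 26) (.e (nat_lit 557090) (nat_lit 12) (.e (nat_lit 163844) (nat_lit 0) (.e (nat_lit 6418) (nat_lit 341) .nil)))))))) (.g (nat_lit 4) .nil .nil))) 
(.lf (nat_lit 253347) (.g (nat_lit 2804) (.e (nat_lit 163908) (nat_lit 12) (.e (nat_lit 426134) (nat_lit 3) (.e (nat_lit 204869) (nat_lit 29) (.e (nat_lit 360474) (nat_lit 8) (.e (nat_lit 557094) (nat_lit 12) (.e (nat_lit 163847) (nat_lit 0) (.e (nat_lit 6416) (nat_lit 341) .nil))))))) (.g (nat_lit 4) .nil .nil)))) (.nd (nat_lit 5) 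
(.lf (nat_lit 253331) (.g (nat_lit 2588) (.e (nat_lit 163908) (nat_lit 12) (.e (nat_lit 426120) (nat_lit 2) (.e (nat_lit 196666) (nat_lit 13) (.e (nat_lit 65617) (nat_lit 10) (.e (nat_lit 344130) (nat_lit 26) (.e (nat_lit 557089) (nat_lit 12) (.e (nat_lit 163849) (nat_lit 0) (.e (nat_lit 6416) (nat_lit 341) .nil)))))))) (.g (nat_lit 4) .nil .nil))) 
(.lf (nat_lit 253363) (.g (nat_lit 1529) (.e (nat_lit 163908) (nat_lit 12) (.e (nat_lit 426171) (nat_lit 7) (.e (nat_lit 409638) (nat_lit 15) (.e (nat_lit 278567) (nat_lit 16) (.e (nat_lit 286747) (nat_lit 9) (.e (nat_lit 335997) (nat_lit 1) (.e (nat_lit 57857) (nat_lit 254) .nil))))))) (.g (nat_lit 4) .nil .nil))))) (.nd (nat_lit 4) (.nd (nat_lit 5) 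
(.lf (nat_lit 253323) (.g (nat_lit 2571) (.e (nat_lit 163908) (nat_lit 12) (.e (nat_lit 426117) (nat_lit 2) (.e (nat_lit 196666) (nat_lit 13) (.e (nat_lit 65617) (nat_lit 10) (.e (nat_lit 344133) (nat_lit 26) (.e (nat_lit 557091) (nat_lit 12) (.e (nat_lit 163847) (nat_lit 0) (.e (nat_lit 6416) (nat_lit 341) .nil)))))))) (.g (nat_lit 4) .nil .nil))) 
(.lf (nat_lit 253355) (.g (nat_lit 3941) (.e (nat_lit 163908) (nat_lit 12) (.e (nat_lit 426135) (nat_lit 3) (.e (nat_lit 204869) (nat_lit 29) (.e (nat_lit 360475) (nat_lit 8) (.e (nat_lit 557089) (nat_lit 12) .nil))))) .nil))) (.nd (nat_lit 5) 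
(.lf (nat_lit 253339) (.g (nat_lit 3263) (.e (nat_lit 163908) (nat_lit 12) (.e (nat_lit 426120) (nat_lit 2) (.e (nat_lit 196666) (nat_lit 13) (.e (nat_lit 65617) (nat_lit 10) (.e (nat_lit 344133) (nat_lit 26) (.e (nat_lit 557091) (nat_lit 12) (.e (nat_lit 163843) (nat_lit 0) (.e (nat_lit 6418) (nat_lit 341) .nil)))))))) (.g (nat_lit 5) .nil .nil))) 
(.lf (nat_lit 253371) (.g (nat_lit 1692) (.e (nat_lit 163908) (nat_lit 12) (.e (nat_lit 426286) (nat_lit 10) (.e (nat_lit 434269) (nat_lit 36) (.e (nat_lit 639007) (nat_lit 13) (.e (nat_lit 1586) (nat_lit 111) (.e (nat_lit 368384) (nat_lit 0) (.e (nat_lit 5219) (nat_lit 296) .nil))))))) (.g (nat_lit 5) .nil .nil)))))) (.nd (nat_lit 3) (.nd (nat_lit 4) (.nd (nat_lit 5) 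
(.lf (nat_lit 253319) (.g (nat_lit 3222) (.e (nat_lit 163908) (nat_lit 12) (.e (nat_lit 426117) (nat_lit 2) (.e (nat_lit 196666) (nat_lit 13) (.e (nat_lit 65617) (nat_lit 10) (.e (nat_lit 344133) (nat_lit 26) (.e (nat_lit 557091) (nat_lit 12) (.e (nat_lit 163843) (nat_lit 0) (.e (nat_lit 6416) (nat_lit 341) .nil)))))))) (.g (nat_lit 5) .nil .nil))) 
(.lf (nat_lit 253351) (.g (nat_lit 4624) (.e (nat_lit 163908) (nat_lit 12) (.e (nat_lit 426134) (nat_lit 3) (.e (nat_lit 204869) (nat_lit 29) (.e (nat_lit 360475) (nat_lit 8) (.e (nat_lit 557089) (nat_lit 12) (.e (nat_lit 163849) (nat_lit 0) (.e (nat_lit 6420) (nat_lit 341) .nil))))))) (.g (nat_lit 5) .nil .nil)))) (.nd (nat_lit 5) 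
(.lf (nat_lit 253335) (.g (nat_lit 2488) (.e (nat_lit 163908) (nat_lit 12) (.e (nat_lit 426120) (nat_lit 2) (.e (nat_lit 196666) (nat_lit 13) (.e (nat_lit 65617) (nat_lit 10) (.e (nat_lit 344132) (nat_lit 26) (.e (nat_lit 557094) (nat_lit 12) (.e (nat_lit 163847) (nat_lit 0) (.e (nat_lit 6420) (nat_lit 341) .nil)))))))) (.g (nat_lit 4) .nil .nil))) 
(.lf (nat_lit 253367) (.g (nat_lit 2621) (.e (nat_lit 163908) (nat_lit 12) (.e (nat_lit 426285) (nat_lit 10) (.e (nat_lit 434269) (nat_lit 36) (.e (nat_lit 639021) (nat_lit 16) (.e (nat_lit 65604) (nat_lit 9) (.e (nat_lit 335997) (nat_lit 1) (.e (nat_lit 57857) (nat_lit 254) .nil))))))) (.g (nat_lit 0) .nil .nil))))) (.nd (nat_lit 4) (.nd (nat_lit 5) 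
(.lf (nat_lit 253327) (.g (nat_lit 2233) (.e (nat_lit 163908) (nat_lit 12) (.e (nat_lit 426120) (nat_lit 2) (.e (nat_lit 196666) (nat_lit 13) (.e (nat_lit 65617) (nat_lit 10) (.e (nat_lit 344130) (nat_lit 26) (.e (nat_lit 557089) (nat_lit 12) (.e (nat_lit 163843) (nat_lit 0) (.e (nat_lit 6416) (nat_lit 341) .nil)))))))) (.g (nat_lit 4) .nil .nil))) 
(.lf (nat_lit 253359) (.g (nat_lit 4347) (.e (nat_lit 163908) (nat_lit 12) (.e (nat_lit 426135) (nat_lit 3) (.e (nat_lit 204869) (nat_lit 29) (.e (nat_lit 360475) (nat_lit 8) (.e (nat_lit 557091) (nat_lit 12) (.e (nat_lit 163847) (nat_lit 0) (.e (nat_lit 6416) (nat_lit 341) .nil))))))) (.g (nat_lit 4) .nil .nil)))) (.nd (nat_lit 5) 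
(.lf (nat_lit 253343) (.g (nat_lit 2925) (.e (nat_lit 163908) (nat_lit 12) (.e (nat_lit 426134) (nat_lit 3) (.e (nat_lit 204869) (nat_lit 29) (.e (nat_lit 360474) (nat_lit 8) (.e (nat_lit 557093) (nat_lit 12) (.e (nat_lit 163848) (nat_lit 0) (.e (nat_lit 6418) (nat_lit 341) .nil))))))) (.g (nat_lit 4) .nil .nil))) 
(.lf (nat_lit 253375) (.g (nat_lit 1597) (.e (nat_lit 163908) (nat_lit 12) (.e (nat_lit 426286) (nat_lit 10) (.e (nat_lit 434269) (nat_lit 36) (.e (nat_lit 639007) (nat_lit 13) (.e (nat_lit 1598) (nat_lit 111) (.e (nat_lit 368384) (nat_lit 0) (.e (nat_lit 5229) (nat_lit 296) .nil))))))) (.g (nat_lit 5) .nil .nil)))))))))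

noncomputable def tv3285 : DT := (.nd (nat_lit 0) (.nd (nat_lit 1) (.nd (nat_lit 2) (.nd (nat_lit 3) (.nd (nat_lit 4) (.nd (nat_lit 5) 
(.lf (nat_lit 253376) (.g (nat_lit 1536) (.e (nat_lit 163908) (nat_lit 12) (.e (nat_lit 426286) (nat_lit 10) (.e (nat_lit 434269) (nat_lit 36) (.e (nat_lit 639007) (nat_lit 13) (.e (nat_lit 1598) (nat_lit 111) (.e (nat_lit 368384) (nat_lit 0) (.e (nat_lit 5231) (nat_lit 296) .nil))))))) (.g (nat_lit 5) .nil .nil))) 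
(.lf (nat_lit 253408) (.g (nat_lit 2432) (.e (nat_lit 163908) (nat_lit 12) (.e (nat_lit 426338) (nat_lit 14) (.e (nat_lit 491550) (nat_lit 9) (.e (nat_lit 336430) (nat_lit 29) (.e (nat_lit 442429) (nat_lit 24) .nil))))) .nil))) (.nd (nat_lit 5) 
(.lf (nat_lit 253392) (.g (nat_lit 449) (.e (nat_lit 163908) (nat_lit 12) (.e (nat_lit 426338) (nat_lit 14) (.e (nat_lit 491544) (nat_lit 7) .nil))) .nil)) 
(.lf (nat_lit 253424) (.g (nat_lit 2827) (.e (nat_lit 163910) (nat_lit 12) (.e (nat_lit 426140) (nat_lit 3) (.e (nat_lit 204869) (nat_lit 29) (.e (nat_lit 360475) (nat_lit 8) (.e (nat_lit 557091) (nat_lit 12) .nil))))) .nil)))) (.nd (nat_lit 4) (.nd (nat_lit 5) 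
(.lf (nat_lit 253384) (.g (nat_lit 2478) (.e (nat_lit 163908) (nat_lit 12) (.e (nat_lit 426305) (nat_lit 12) (.e (nat_lit 475185) (nat_lit 29) (.e (nat_lit 557107) (nat_lit 15) .nil)))) .nil)) 
(.lf (nat_lit 253416) (.g (nat_lit 2784) (.e (nat_lit 163908) (nat_lit 12) (.e (nat_lit 426412) (nat_lit 15) (.e (nat_lit 1856) (nat_lit 124) (.e (nat_lit 557100) (nat_lit 13) (.e (nat_lit 172113) (nat_lit 10) (.e (nat_lit 434248) (nat_lit 28) (.e (nat_lit 573475) (nat_lit 12) (.e (nat_lit 57344) (nat_lit 0) (.e (nat_lit 6940) (nat_lit 375) .nil))))))))) (.g (nat_lit 4) .nil .nil)))) 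
(.nd (nat_lit 5) 
(.lf (nat_lit 253400) (.g (nat_lit 2547) (.e (nat_lit 163908) (nat_lit 12) (.e (nat_lit 426338) (nat_lit 14) (.e (nat_lit 491549) (nat_lit 9) (.e (nat_lit 336432) (nat_lit 30) (.e (nat_lit 450568) (nat_lit 0) (.e (nat_lit 5584) (nat_lit 310) .nil)))))) (.g (nat_lit 4) .nil .nil))) 
(.lf (nat_lit 253432) (.g (nat_lit 1767) (.e (nat_lit 163914) (nat_lit 12) (.e (nat_lit 426306) (nat_lit 12) (.e (nat_lit 475211) (nat_lit 41) (.e (nat_lit 712753) (nat_lit 30) .nil)))) .nil))))) (.nd (nat_lit 3) (.nd (nat_lit 4) (.nd (nat_lit 5) 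
(.lf (nat_lit 253380) (.g (nat_lit 1592) (.e (nat_lit 163908) (nat_lit 12) (.e (nat_lit 426286) (nat_lit 10) (.e (nat_lit 434269) (nat_lit 36) (.e (nat_lit 639008) (nat_lit 13) (.e (nat_lit 1598) (nat_lit 111) (.e (nat_lit 368384) (nat_lit 0) (.e (nat_lit 5229) (nat_lit 296) .nil))))))) (.g (nat_lit 5) .nil .nil))) 
(.lf (nat_lit 253412) (.g (nat_lit 3807) (.e (nat_lit 163908) (nat_lit 12) (.e (nat_lit 426412) (nat_lit 15) (.e (nat_lit 1856) (nat_lit 124) (.e (nat_lit 557100) (nat_lit 13) (.e (nat_lit 172113) (nat_lit 10) (.e (nat_lit 434245) (nat_lit 28) (.e (nat_lit 573473) (nat_lit 12) (.e (nat_lit 57348) (nat_lit 0) (.e (nat_lit 6940) (nat_lit 375) .nil))))))))) (.g (nat_lit 6) .nil .nil)))) 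
(.nd (nat_lit 5) 
(.lf (nat_lit 253396) (.g (nat_lit 4655) (.e (nat_lit 163908) (nat_lit 12) (.e (nat_lit 426338) (nat_lit 14) (.e (nat_lit 491544) (nat_lit 7) (.e (nat_lit 319531) (nat_lit 16) (.e (nat_lit 286749) (nat_lit 9) (.e (nat_lit 335997) (nat_lit 1) (.e (nat_lit 57857) (nat_lit 254) .nil))))))) (.g (nat_lit 7) .nil .nil))) 
(.lf (nat_lit 253428) (.g (nat_lit 2200) (.e (nat_lit 163913) (nat_lit 12) (.e (nat_lit 426429) (nat_lit 17) (.e (nat_lit 90185) (nat_lit 17) (.e (nat_lit 237624) (nat_lit 13) (.e (nat_lit 483363) (nat_lit 18) (.e (nat_lit 57692) (nat_lit 156) .nil)))))) (.g (nat_lit 4) .nil .nil))))) (.nd (nat_lit 4) (.nd (nat_lit 5) 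
(.lf (nat_lit 253388) (.g (nat_lit 2359) (.e (nat_lit 163908) (nat_lit 12) (.e (nat_lit 426305) (nat_lit 12) (.e (nat_lit 475207) (nat_lit 41) (.e (nat_lit 712755) (nat_lit 30) (.e (nat_lit 450563) (nat_lit 0) (.e (nat_lit 7936) (nat_lit 310) .nil)))))) (.g (nat_lit 5) .nil .nil))) 
(.lf (nat_lit 253420) (.g (nat_lit 2486) (.e (nat_lit 163909) (nat_lit 12) (.e (nat_lit 426113) (nat_lit 2) (.e (nat_lit 196666) (nat_lit 13) (.e (nat_lit 65617) (nat_lit 10) (.e (nat_lit 344130) (nat_lit 26) (.e (nat_lit 557090) (nat_lit 12) (.e (nat_lit 163843) (nat_lit 0) (.e (nat_lit 6416) (nat_lit 341) .nil)))))))) (.g (nat_lit 4) .nil .nil)))) (.nd (nat_lit 5) 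
(.lf (nat_lit 253404) (.g (nat_lit 3259) (.e (nat_lit 163908) (nat_lit 12) (.e (nat_lit 426338) (nat_lit 14) (.e (nat_lit 491549) (nat_lit 9) (.e (nat_lit 336434) (nat_lit 30) (.e (nat_lit 450568) (nat_lit 0) (.e (nat_lit 5584) (nat_lit 310) .nil)))))) (.g (nat_lit 5) .nil .nil))) 
(.lf (nat_lit 253436) (.g (nat_lit 2765) (.e (nat_lit 163915) (nat_lit 12) (.e (nat_lit 426098) (nat_lit 1) (.e (nat_lit 164325) (nat_lit 230) (.e (nat_lit 163861) (nat_lit 1) (.e (nat_lit 164398) (nat_lit 256) (.e (nat_lit 57437) (nat_lit 17) (.e (nat_lit 376859) (nat_lit 21) (.e (nat_lit 57929) (nat_lit 282) .nil)))))))) (.g (nat_lit 4) .nil .nil))))))) 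
(.nd (nat_lit 2) (.nd (nat_lit 3) (.nd (nat_lit 4) (.nd (nat_lit 5) 
(.lf (nat_lit 253378) (.g (nat_lit 1675) (.e (nat_lit 163908) (nat_lit 12) (.e (nat_lit 426286) (nat_lit 10) (.e (nat_lit 434269) (nat_lit 36) (.e (nat_lit 639008) (nat_lit 13) (.e (nat_lit 1595) (nat_lit 111) (.e (nat_lit 368384) (nat_lit 0) (.e (nat_lit 5219) (nat_lit 296) .nil))))))) (.g (nat_lit 5) .nil .nil))) 
(.lf (nat_lit 253410) (.g (nat_lit 2198) (.e (nat_lit 163908) (nat_lit 12) (.e (nat_lit 426412) (nat_lit 15) (.e (nat_lit 1856) (nat_lit 124) (.e (nat_lit 557100) (nat_lit 13) (.e (nat_lit 172113) (nat_lit 10) .nil))))) .nil))) (.nd (nat_lit 5) 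
(.lf (nat_lit 253394) (.g (nat_lit 2686) (.e (nat_lit 163908) (nat_lit 12) (.e (nat_lit 426338) (nat_lit 14) (.e (nat_lit 491544) (nat_lit 7) (.e (nat_lit 319531) (nat_lit 16) (.e (nat_lit 286747) (nat_lit 9) .nil))))) .nil)) 
(.lf (nat_lit 253426) (.g (nat_lit 2676) (.e (nat_lit 163911) (nat_lit 12) (.e (nat_lit 426140) (nat_lit 3) (.e (nat_lit 204869) (nat_lit 29) (.e (nat_lit 360475) (nat_lit 8) (.e (nat_lit 557089) (nat_lit 12) .nil))))) .nil)))) (.nd (nat_lit 4) (.nd (nat_lit 5) 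
(.lf (nat_lit 253386) (.g (nat_lit 3005) (.e (nat_lit 163908) (nat_lit 12) (.e (nat_lit 426305) (nat_lit 12) (.e (nat_lit 475193) (nat_lit 38) (.e (nat_lit 688185) (nat_lit 18) (.e (nat_lit 81950) (nat_lit 21) (.e (nat_lit 57857) (nat_lit 254) .nil)))))) (.g (nat_lit 0) .nil .nil))) 
(.lf (nat_lit 253418) (.g (nat_lit 4020) (.e (nat_lit 163908) (nat_lit 12) (.e (nat_lit 426412) (nat_lit 15) (.e (nat_lit 1856) (nat_lit 124) (.e (nat_lit 557100) (nat_lit 13) (.e (nat_lit 172113) (nat_lit 10) (.e (nat_lit 434248) (nat_lit 28) (.e (nat_lit 573475) (nat_lit 12) (.e (nat_lit 57348) (nat_lit 0) (.e (nat_lit 6940) (nat_lit 375) .nil))))))))) (.g (nat_lit 6) .nil .nil)))) 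
(.nd (nat_lit 5) 
(.lf (nat_lit 253402) (.g (nat_lit 2577) (.e (nat_lit 163908) (nat_lit 12) (.e (nat_lit 426338) (nat_lit 14) (.e (nat_lit 491549) (nat_lit 9) (.e (nat_lit 336432) (nat_lit 30) (.e (nat_lit 458496) (nat_lit 0) (.e (nat_lit 5586) (nat_lit 310) .nil)))))) (.g (nat_lit 4) .nil .nil))) 
(.lf (nat_lit 253434) (.g (nat_lit 2337) (.e (nat_lit 163914) (nat_lit 12) (.e (nat_lit 426315) (nat_lit 12) (.e (nat_lit 475207) (nat_lit 41) (.e (nat_lit 712755) (nat_lit 30) (.e (nat_lit 450568) (nat_lit 0) (.e (nat_lit 5599) (nat_lit 310) .nil)))))) (.g (nat_lit 6) .nil .nil)))))) (.nd (nat_lit 3) (.nd (nat_lit 4) (.nd (nat_lit 5) 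
(.lf (nat_lit 253382) (.g (nat_lit 2031) (.e (nat_lit 163908) (nat_lit 12) (.e (nat_lit 426286) (nat_lit 10) (.e (nat_lit 434276) (nat_lit 39) (.e (nat_lit 663580) (nat_lit 9) (.e (nat_lit 7936) (nat_lit 24) (.e (nat_lit 360457) (nat_lit 0) (.e (nat_lit 5219) (nat_lit 296) .nil))))))) (.g (nat_lit 4) .nil .nil))) 
(.lf (nat_lit 253414) (.g (nat_lit 2730) (.e (nat_lit 163908) (nat_lit 12) (.e (nat_lit 426412) (nat_lit 15) (.e (nat_lit 1856) (nat_lit 124) (.e (nat_lit 557100) (nat_lit 13) (.e (nat_lit 172113) (nat_lit 10) (.e (nat_lit 434248) (nat_lit 28) (.e (nat_lit 573473) (nat_lit 12) (.e (nat_lit 57347) (nat_lit 0) (.e (nat_lit 6942) (nat_lit 375) .nil))))))))) (.g (nat_lit 4) .nil .nil)))) 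
(.nd (nat_lit 5) 
(.lf (nat_lit 253398) (.g (nat_lit 2928) (.e (nat_lit 163908) (nat_lit 12) (.e (nat_lit 426338) (nat_lit 14) (.e (nat_lit 491549) (nat_lit 9) (.e (nat_lit 336430) (nat_lit 29) (.e (nat_lit 442429) (nat_lit 24) .nil))))) .nil)) 
(.lf (nat_lit 253430) (.g (nat_lit 2023) (.e (nat_lit 163913) (nat_lit 12) (.e (nat_lit 426565) (nat_lit 34) (.e (nat_lit 393296) (nat_lit 26) (.e (nat_lit 475178) (nat_lit 24) (.e (nat_lit 516120) (nat_lit 1) (.e (nat_lit 164329) (nat_lit 230) .nil)))))) (.g (nat_lit 5) .nil .nil))))) (.nd (nat_lit 4) (.nd (nat_lit 5) 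
(.lf (nat_lit 253390) (.g (nat_lit 2469) (.e (nat_lit 163908) (nat_lit 12) (.e (nat_lit 426312) (nat_lit 12) (.e (nat_lit 475193) (nat_lit 38) (.e (nat_lit 688185) (nat_lit 18) (.e (nat_lit 81950) (nat_lit 21) (.e (nat_lit 57857) (nat_lit 254) .nil)))))) (.g (nat_lit 0) .nil .nil))) 
(.lf (nat_lit 253422) (.g (nat_lit 2492) (.e (nat_lit 163909) (nat_lit 12) (.e (nat_lit 426140) (nat_lit 3) (.e (nat_lit 204869) (nat_lit 29) (.e (nat_lit 360475) (nat_lit 8) (.e (nat_lit 557091) (nat_lit 12) .nil))))) .nil))) (.nd (nat_lit 5) 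
(.lf (nat_lit 253406) (.g (nat_lit 2725) (.e (nat_lit 163908) (nat_lit 12) (.e (nat_lit 426338) (nat_lit 14) (.e (nat_lit 491549) (nat_lit 9) (.e (nat_lit 336434) (nat_lit 30) (.e (nat_lit 450568) (nat_lit 0) (.e (nat_lit 5598) (nat_lit 310) .nil)))))) (.g (nat_lit 4) .nil .nil))) 
(.lf (nat_lit 253438) (.g (nat_lit 3320) (.e (nat_lit 163915) (nat_lit 12) (.e (nat_lit 426123) (nat_lit 2) (.e (nat_lit 196666) (nat_lit 13) (.e (nat_lit 65617) (nat_lit 10) (.e (nat_lit 344133) (nat_lit 26) .nil))))) .nil))))))) (.nd (nat_lit 1) (.nd (nat_lit 2) (.nd (nat_lit 3) (.nd (nat_lit 4) (.nd (nat_lit 5) 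
(.lf (nat_lit 253377) (.g (nat_lit 1719) (.e (nat_lit 163908) (nat_lit 12) (.e (nat_lit 426286) (nat_lit 10) (.e (nat_lit 434269) (nat_lit 36) (.e (nat_lit 639008) (nat_lit 13) (.e (nat_lit 1586) (nat_lit 111) (.e (nat_lit 368384) (nat_lit 0) (.e (nat_lit 5219) (nat_lit 296) .nil))))))) (.g (nat_lit 5) .nil .nil))) 
(.lf (nat_lit 253409) (.g (nat_lit 3623) (.e (nat_lit 163908) (nat_lit 12) (.e (nat_lit 426412) (nat_lit 15) (.e (nat_lit 1800) (nat_lit 119) (.e (nat_lit 516176) (nat_lit 14) (.e (nat_lit 466954) (nat_lit 11) (.e (nat_lit 335986) (nat_lit 1) (.e (nat_lit 57688) (nat_lit 156) .nil))))))) (.g (nat_lit 5) .nil .nil)))) (.nd (nat_lit 5) 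
(.lf (nat_lit 253393) (.g (nat_lit 2900) (.e (nat_lit 163908) (nat_lit 12) (.e (nat_lit 426338) (nat_lit 14) (.e (nat_lit 491544) (nat_lit 7) (.e (nat_lit 319530) (nat_lit 16) (.e (nat_lit 286749) (nat_lit 9) (.e (nat_lit 335997) (nat_lit 1) (.e (nat_lit 57857) (nat_lit 254) .nil))))))) (.g (nat_lit 4) .nil .nil))) 
(.lf (nat_lit 253425) (.g (nat_lit 3021) (.e (nat_lit 163911) (nat_lit 12) (.e (nat_lit 426125) (nat_lit 2) (.e (nat_lit 196666) (nat_lit 13) (.e (nat_lit 65617) (nat_lit 10) .nil)))) .nil)))) (.nd (nat_lit 4) (.nd (nat_lit 5) 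
(.lf (nat_lit 253385) (.g (nat_lit 4077) (.e (nat_lit 163908) (nat_lit 12) (.e (nat_lit 426305) (nat_lit 12) (.e (nat_lit 475185) (nat_lit 29) (.e (nat_lit 557109) (nat_lit 15) (.e (nat_lit 188455) (nat_lit 24) (.e (nat_lit 237312) (nat_lit 138) .nil)))))) (.g (nat_lit 4) .nil .nil))) 
(.lf (nat_lit 253417) (.g (nat_lit 3376) (.e (nat_lit 163908) (nat_lit 12) (.e (nat_lit 426412) (nat_lit 15) (.e (nat_lit 1856) (nat_lit 124) (.e (nat_lit 557100) (nat_lit 13) (.e (nat_lit 172113) (nat_lit 10) (.e (nat_lit 434248) (nat_lit 28) (.e (nat_lit 573475) (nat_lit 12) (.e (nat_lit 57344) (nat_lit 0) (.e (nat_lit 6942) (nat_lit 375) .nil))))))))) (.g (nat_lit 5) .nil .nil)))) 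
(.nd (nat_lit 5) 
(.lf (nat_lit 253401) (.g (nat_lit 2906) (.e (nat_lit 163908) (nat_lit 12) (.e (nat_lit 426338) (nat_lit 14) (.e (nat_lit 491549) (nat_lit 9) (.e (nat_lit 336432) (nat_lit 30) (.e (nat_lit 450568) (nat_lit 0) (.e (nat_lit 5599) (nat_lit 310) .nil)))))) (.g (nat_lit 4) .nil .nil))) 
(.lf (nat_lit 253433) (.g (nat_lit 2110) (.e (nat_lit 163914) (nat_lit 12) (.e (nat_lit 426315) (nat_lit 12) (.e (nat_lit 475207) (nat_lit 41) (.e (nat_lit 712753) (nat_lit 30) (.e (nat_lit 450568) (nat_lit 0) (.e (nat_lit 5599) (nat_lit 310) .nil)))))) (.g (nat_lit 6) .nil .nil)))))) (.nd (nat_lit 3) (.nd (nat_lit 4) (.nd (nat_lit 5) 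
(.lf (nat_lit 253381) (.g (nat_lit 1531) (.e (nat_lit 163908) (nat_lit 12) (.e (nat_lit 426286) (nat_lit 10) (.e (nat_lit 434269) (nat_lit 36) (.e (nat_lit 639008) (nat_lit 13) (.e (nat_lit 1598) (nat_lit 111) (.e (nat_lit 368384) (nat_lit 0) (.e (nat_lit 5231) (nat_lit 296) .nil))))))) (.g (nat_lit 5) .nil .nil))) 
(.lf (nat_lit 253413) (.g (nat_lit 3983) (.e (nat_lit 163908) (nat_lit 12) (.e (nat_lit 426412) (nat_lit 15) (.e (nat_lit 1856) (nat_lit 124) (.e (nat_lit 557100) (nat_lit 13) (.e (nat_lit 172113) (nat_lit 10) (.e (nat_lit 434245) (nat_lit 28) (.e (nat_lit 573474) (nat_lit 12) (.e (nat_lit 57348) (nat_lit 0) (.e (nat_lit 6942) (nat_lit 375) .nil))))))))) (.g (nat_lit 6) .nil .nil)))) 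
(.nd (nat_lit 5) 
(.lf (nat_lit 253397) (.g (nat_lit 4692) (.e (nat_lit 163908) (nat_lit 12) (.e (nat_lit 426338) (nat_lit 14) (.e (nat_lit 491544) (nat_lit 7) (.e (nat_lit 319534) (nat_lit 16) (.e (nat_lit 286749) (nat_lit 9) (.e (nat_lit 335997) (nat_lit 1) (.e (nat_lit 57857) (nat_lit 254) .nil))))))) (.g (nat_lit 7) .nil .nil))) 
(.lf (nat_lit 253429) (.g (nat_lit 1949) (.e (nat_lit 163913) (nat_lit 12) (.e (nat_lit 426565) (nat_lit 34) (.e (nat_lit 393296) (nat_lit 26) (.e (nat_lit 475178) (nat_lit 24) (.e (nat_lit 516117) (nat_lit 1) (.e (nat_lit 164329) (nat_lit 230) .nil)))))) (.g (nat_lit 5) .nil .nil))))) (.nd (nat_lit 4) (.nd (nat_lit 5) 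
(.lf (nat_lit 253389) (.g (nat_lit 4049) (.e (nat_lit 163908) (nat_lit 12) (.e (nat_lit 426312) (nat_lit 12) (.e (nat_lit 475185) (nat_lit 29) (.e (nat_lit 557109) (nat_lit 15) (.e (nat_lit 188455) (nat_lit 24) .nil))))) .nil)) 
(.lf (nat_lit 253421) (.g (nat_lit 3187) (.e (nat_lit 163909) (nat_lit 12) (.e (nat_lit 426140) (nat_lit 3) (.e (nat_lit 204868) (nat_lit 29) (.e (nat_lit 360475) (nat_lit 8) (.e (nat_lit 557089) (nat_lit 12) .nil))))) .nil))) (.nd (nat_lit 5) 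
(.lf (nat_lit 253405) (.g (nat_lit 2947) (.e (nat_lit 163908) (nat_lit 12) (.e (nat_lit 426338) (nat_lit 14) (.e (nat_lit 491549) (nat_lit 9) (.e (nat_lit 336434) (nat_lit 30) (.e (nat_lit 450568) (nat_lit 0) (.e (nat_lit 5597) (nat_lit 310) .nil)))))) (.g (nat_lit 4) .nil .nil))) 
(.lf (nat_lit 253437) (.g (nat_lit 2576) (.e (nat_lit 163915) (nat_lit 12) (.e (nat_lit 426098) (nat_lit 1) (.e (nat_lit 164325) (nat_lit 230) (.e (nat_lit 163861) (nat_lit 1) (.e (nat_lit 164399) (nat_lit 256) .nil))))) .nil)))))) (.nd (nat_lit 2) (.nd (nat_lit 3) (.nd (nat_lit 4) (.nd (nat_lit 5) 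
(.lf (nat_lit 253379) (.g (nat_lit 1793) (.e (nat_lit 163908) (nat_lit 12) (.e (nat_lit 426286) (nat_lit 10) (.e (nat_lit 434269) (nat_lit 36) (.e (nat_lit 639008) (nat_lit 13) (.e (nat_lit 1595) (nat_lit 111) (.e (nat_lit 368384) (nat_lit 0) (.e (nat_lit 5229) (nat_lit 296) .nil))))))) (.g (nat_lit 5) .nil .nil))) 
(.lf (nat_lit 253411) (.g (nat_lit 2720) (.e (nat_lit 163908) (nat_lit 12) (.e (nat_lit 426412) (nat_lit 15) (.e (nat_lit 1856) (nat_lit 124) (.e (nat_lit 557100) (nat_lit 13) (.e (nat_lit 172113) (nat_lit 10) (.e (nat_lit 434245) (nat_lit 28) (.e (nat_lit 573473) (nat_lit 12) (.e (nat_lit 57347) (nat_lit 0) (.e (nat_lit 6942) (nat_lit 375) .nil))))))))) (.g (nat_lit 4) .nil .nil)))) 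
(.nd (nat_lit 5) 
(.lf (nat_lit 253395) (.g (nat_lit 2257) (.e (nat_lit 163908) (nat_lit 12) (.e (nat_lit 426338) (nat_lit 14) (.e (nat_lit 491544) (nat_lit 7) (.e (nat_lit 319531) (nat_lit 16) (.e (nat_lit 286748) (nat_lit 9) (.e (nat_lit 335997) (nat_lit 1) (.e (nat_lit 57857) (nat_lit 254) .nil))))))) (.g (nat_lit 4) .nil .nil))) 
(.lf (nat_lit 253427) (.g (nat_lit 2311) (.e (nat_lit 163913) (nat_lit 12) (.e (nat_lit 426318) (nat_lit 12) (.e (nat_lit 475207) (nat_lit 41) (.e (nat_lit 712755) (nat_lit 30) (.e (nat_lit 450569) (nat_lit 0) (.e (nat_lit 5599) (nat_lit 310) .nil)))))) (.g (nat_lit 5) .nil .nil))))) (.nd (nat_lit 4) (.nd (nat_lit 5) 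
(.lf (nat_lit 253387) (.g (nat_lit 1983) (.e (nat_lit 163908) (nat_lit 12) (.e (nat_lit 426305) (nat_lit 12) (.e (nat_lit 475193) (nat_lit 38) (.e (nat_lit 688186) (nat_lit 18) (.e (nat_lit 81950) (nat_lit 21) (.e (nat_lit 57857) (nat_lit 254) .nil)))))) (.g (nat_lit 4) .nil .nil))) 
(.lf (nat_lit 253419) (.g (nat_lit 2296) (.e (nat_lit 163909) (nat_lit 12) (.e (nat_lit 426113) (nat_lit 2) (.e (nat_lit 196666) (nat_lit 13) (.e (nat_lit 65617) (nat_lit 10) (.e (nat_lit 344130) (nat_lit 26) .nil))))) .nil))) (.nd (nat_lit 5) 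
(.lf (nat_lit 253403) (.g (nat_lit 3325) (.e (nat_lit 163908) (nat_lit 12) (.e (nat_lit 426338) (nat_lit 14) (.e (nat_lit 491549) (nat_lit 9) (.e (nat_lit 336434) (nat_lit 30) (.e (nat_lit 450567) (nat_lit 0) (.e (nat_lit 5594) (nat_lit 310) .nil)))))) (.g (nat_lit 6) .nil .nil))) 
(.lf (nat_lit 253435) (.g (nat_lit 2584) (.e (nat_lit 163915) (nat_lit 12) (.e (nat_lit 426098) (nat_lit 1) (.e (nat_lit 164325) (nat_lit 230) (.e (nat_lit 163861) (nat_lit 1) (.e (nat_lit 164398) (nat_lit 256) .nil))))) .nil))))) (.nd (nat_lit 3) (.nd (nat_lit 4) (.nd (nat_lit 5) 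
(.lf (nat_lit 253383) (.g (nat_lit 2068) (.e (nat_lit 163908) (nat_lit 12) (.e (nat_lit 426286) (nat_lit 10) (.e (nat_lit 434276) (nat_lit 39) (.e (nat_lit 663580) (nat_lit 9) (.e (nat_lit 7936) (nat_lit 26) (.e (nat_lit 376860) (nat_lit 21) (.e (nat_lit 57857) (nat_lit 254) .nil))))))) (.g (nat_lit 4) .nil .nil))) 
(.lf (nat_lit 253415) (.g (nat_lit 3899) (.e (nat_lit 163908) (nat_lit 12) (.e (nat_lit 426412) (nat_lit 15) (.e (nat_lit 1856) (nat_lit 124) (.e (nat_lit 557100) (nat_lit 13) (.e (nat_lit 172113) (nat_lit 10) (.e (nat_lit 434248) (nat_lit 28) (.e (nat_lit 573473) (nat_lit 12) (.e (nat_lit 57348) (nat_lit 0) (.e (nat_lit 6940) (nat_lit 375) .nil))))))))) (.g (nat_lit 6) .nil .nil)))) 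
(.nd (nat_lit 5) 
(.lf (nat_lit 253399) (.g (nat_lit 3010) (.e (nat_lit 163908) (nat_lit 12) (.e (nat_lit 426338) (nat_lit 14) (.e (nat_lit 491549) (nat_lit 9) (.e (nat_lit 336432) (nat_lit 30) (.e (nat_lit 450567) (nat_lit 0) (.e (nat_lit 5594) (nat_lit 310) .nil)))))) (.g (nat_lit 4) .nil .nil))) 
(.lf (nat_lit 253431) (.g (nat_lit 3140) (.e (nat_lit 163914) (nat_lit 12) (.e (nat_lit 426139) (nat_lit 3) (.e (nat_lit 204869) (nat_lit 29) (.e (nat_lit 360474) (nat_lit 8) (.e (nat_lit 557091) (nat_lit 12) .nil))))) .nil)))) (.nd (nat_lit 4) (.nd (nat_lit 5) 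
(.lf (nat_lit 253391) (.g (nat_lit 1469) (.e (nat_lit 163908) (nat_lit 12) (.e (nat_lit 426312) (nat_lit 12) (.e (nat_lit 475193) (nat_lit 38) (.e (nat_lit 688186) (nat_lit 18) (.e (nat_lit 81950) (nat_lit 21) (.e (nat_lit 57857) (nat_lit 254) .nil)))))) (.g (nat_lit 4) .nil .nil))) 
(.lf (nat_lit 253423) (.g (nat_lit 2826) (.e (nat_lit 163910) (nat_lit 12) (.e (nat_lit 426140) (nat_lit 3) (.e (nat_lit 204869) (nat_lit 29) (.e (nat_lit 360475) (nat_lit 8) (.e (nat_lit 557089) (nat_lit 12) .nil))))) .nil))) (.nd (nat_lit 5) 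
(.lf (nat_lit 253407) (.g (nat_lit 2658) (.e (nat_lit 163908) (nat_lit 12) (.e (nat_lit 426338) (nat_lit 14) (.e (nat_lit 491549) (nat_lit 9) (.e (nat_lit 336434) (nat_lit 30) (.e (nat_lit 458496) (nat_lit 0) (.e (nat_lit 5586) (nat_lit 310) .nil)))))) (.g (nat_lit 4) .nil .nil))) 
(.lf (nat_lit 253439) (.g (nat_lit 1640) (.e (nat_lit 163915) (nat_lit 12) (.e (nat_lit 426139) (nat_lit 3) (.e (nat_lit 204868) (nat_lit 29) (.e (nat_lit 360473) (nat_lit 8) .nil)))) .nil))))))))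

noncomputable def tv3286 : DT := (.nd (nat_lit 0) (.nd (nat_lit 1) (.nd (nat_lit 2) (.nd (nat_lit 3) (.nd (nat_lit 4) (.nd (nat_lit 5) 
(.lf (nat_lit 253440) (.g (nat_lit 3111) (.e (nat_lit 163915) (nat_lit 12) (.e (nat_lit 426139) (nat_lit 3) (.e (nat_lit 204869) (nat_lit 29) (.e (nat_lit 360475) (nat_lit 8) (.e (nat_lit 557089) (nat_lit 12) .nil))))) .nil)) 
(.lf (nat_lit 253472) (.g (nat_lit 812) (.e (nat_lit 163915) (nat_lit 12) (.e (nat_lit 426344) (nat_lit 14) (.e (nat_lit 491544) (nat_lit 7) .nil))) .nil))) (.nd (nat_lit 5) 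
(.lf (nat_lit 253456) (.g (nat_lit 2714) (.e (nat_lit 163915) (nat_lit 12) (.e (nat_lit 426306) (nat_lit 12) (.e (nat_lit 475210) (nat_lit 41) (.e (nat_lit 712753) (nat_lit 30) (.e (nat_lit 450569) (nat_lit 0) (.e (nat_lit 5598) (nat_lit 310) .nil)))))) (.g (nat_lit 5) .nil .nil))) 
(.lf (nat_lit 253488) (.g (nat_lit 2566) (.e (nat_lit 163917) (nat_lit 13) (.e (nat_lit 434180) (nat_lit 0) (.e (nat_lit 1427) (nat_lit 108) (.e (nat_lit 336430) (nat_lit 29) (.e (nat_lit 442428) (nat_lit 24) (.e (nat_lit 229680) (nat_lit 244) .nil)))))) (.g (nat_lit 4) .nil .nil))))) (.nd (nat_lit 4) (.nd (nat_lit 5) 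
(.lf (nat_lit 253448) (.g (nat_lit 1812) (.e (nat_lit 163915) (nat_lit 12) (.e (nat_lit 426306) (nat_lit 12) (.e (nat_lit 475207) (nat_lit 41) (.e (nat_lit 712755) (nat_lit 30) (.e (nat_lit 450568) (nat_lit 0) (.e (nat_lit 5598) (nat_lit 310) .nil)))))) (.g (nat_lit 4) .nil .nil))) 
(.lf (nat_lit 253480) (.g (nat_lit 796) (.e (nat_lit 163916) (nat_lit 13) (.e (nat_lit 434209) (nat_lit 18) (.e (nat_lit 6410) (nat_lit 340) .nil))) .nil))) (.nd (nat_lit 5) 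
(.lf (nat_lit 253464) (.g (nat_lit 1580) (.e (nat_lit 163915) (nat_lit 12) (.e (nat_lit 426315) (nat_lit 12) (.e (nat_lit 475207) (nat_lit 41) (.e (nat_lit 712753) (nat_lit 30) (.e (nat_lit 450569) (nat_lit 0) (.e (nat_lit 5598) (nat_lit 310) .nil)))))) (.g (nat_lit 4) .nil .nil))) 
(.lf (nat_lit 253496) (.g (nat_lit 499) (.e (nat_lit 163917) (nat_lit 13) (.e (nat_lit 434286) (nat_lit 42) (.e (nat_lit 688179) (nat_lit 17) .nil))) .nil))))) (.nd (nat_lit 3) (.nd (nat_lit 4) (.nd (nat_lit 5) 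
(.lf (nat_lit 253444) (.g (nat_lit 1370) (.e (nat_lit 163915) (nat_lit 12) (.e (nat_lit 426306) (nat_lit 12) (.e (nat_lit 475193) (nat_lit 38) (.e (nat_lit 688186) (nat_lit 18) (.e (nat_lit 81950) (nat_lit 21) (.e (nat_lit 57857) (nat_lit 254) .nil)))))) (.g (nat_lit 4) .nil .nil))) 
(.lf (nat_lit 253476) (.g (nat_lit 1017) (.e (nat_lit 171776) (nat_lit 12) (.e (nat_lit 426563) (nat_lit 34) (.e (nat_lit 393294) (nat_lit 26) (.e (nat_lit 475177) (nat_lit 24) .nil)))) .nil))) (.nd (nat_lit 5) 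
(.lf (nat_lit 253460) (.g (nat_lit 2372) (.e (nat_lit 163915) (nat_lit 12) (.e (nat_lit 426306) (nat_lit 12) (.e (nat_lit 475211) (nat_lit 41) (.e (nat_lit 712753) (nat_lit 30) (.e (nat_lit 450569) (nat_lit 0) (.e (nat_lit 5598) (nat_lit 310) .nil)))))) (.g (nat_lit 5) .nil .nil))) 
(.lf (nat_lit 253492) (.g (nat_lit 1601) (.e (nat_lit 163917) (nat_lit 13) (.e (nat_lit 434248) (nat_lit 28) (.e (nat_lit 573452) (nat_lit 9) (.e (nat_lit 1675) (nat_lit 116) .nil)))) .nil)))) (.nd (nat_lit 4) (.nd (nat_lit 5) 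
(.lf (nat_lit 253452) (.g (nat_lit 1632) (.e (nat_lit 163915) (nat_lit 12) (.e (nat_lit 426306) (nat_lit 12) (.e (nat_lit 475208) (nat_lit 41) (.e (nat_lit 712755) (nat_lit 30) (.e (nat_lit 450568) (nat_lit 0) (.e (nat_lit 5599) (nat_lit 310) .nil)))))) (.g (nat_lit 4) .nil .nil))) 
(.lf (nat_lit 253484) (.g (nat_lit 1896) (.e (nat_lit 163916) (nat_lit 13) (.e (nat_lit 434244) (nat_lit 28) (.e (nat_lit 573458) (nat_lit 9) (.e (nat_lit 1667) (nat_lit 116) .nil)))) .nil))) (.nd (nat_lit 5) 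
(.lf (nat_lit 253468) (.g (nat_lit 1673) (.e (nat_lit 163915) (nat_lit 12) (.e (nat_lit 426338) (nat_lit 14) (.e (nat_lit 491549) (nat_lit 9) (.e (nat_lit 336432) (nat_lit 30) .nil)))) .nil)) 
(.lf (nat_lit 253500) (.g (nat_lit 1851) (.e (nat_lit 163917) (nat_lit 13) (.e (nat_lit 434289) (nat_lit 43) (.e (nat_lit 696362) (nat_lit 17) (.e (nat_lit 73755) (nat_lit 8) (.e (nat_lit 557103) (nat_lit 14) .nil))))) .nil)))))) (.nd (nat_lit 2) (.nd (nat_lit 3) (.nd (nat_lit 4) (.nd (nat_lit 5) 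
(.lf (nat_lit 253442) (.g (nat_lit 2490) (.e (nat_lit 163915) (nat_lit 12) (.e (nat_lit 426306) (nat_lit 12) (.e (nat_lit 475193) (nat_lit 38) (.e (nat_lit 688185) (nat_lit 18) (.e (nat_lit 81950) (nat_lit 21) (.e (nat_lit 57857) (nat_lit 254) .nil)))))) (.g (nat_lit 0) .nil .nil))) 
(.lf (nat_lit 253474) (.g (nat_lit 1344) (.e (nat_lit 171776) (nat_lit 12) (.e (nat_lit 426438) (nat_lit 18) (.e (nat_lit 98358) (nat_lit 26) (.e (nat_lit 426323) (nat_lit 13) .nil)))) .nil))) (.nd (nat_lit 5) 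
(.lf (nat_lit 253458) (.g (nat_lit 3149) (.e (nat_lit 163915) (nat_lit 12) (.e (nat_lit 426306) (nat_lit 12) (.e (nat_lit 475210) (nat_lit 41) (.e (nat_lit 712755) (nat_lit 30) (.e (nat_lit 450568) (nat_lit 0) (.e (nat_lit 5599) (nat_lit 310) .nil)))))) (.g (nat_lit 0) .nil .nil))) 
(.lf (nat_lit 253490) (.g (nat_lit 2405) (.e (nat_lit 163917) (nat_lit 13) (.e (nat_lit 434180) (nat_lit 0) (.e (nat_lit 1427) (nat_lit 108) (.e (nat_lit 336430) (nat_lit 29) (.e (nat_lit 442430) (nat_lit 24) .nil))))) .nil)))) (.nd (nat_lit 4) (.nd (nat_lit 5) 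
(.lf (nat_lit 253450) (.g (nat_lit 2534) (.e (nat_lit 163915) (nat_lit 12) (.e (nat_lit 426306) (nat_lit 12) (.e (nat_lit 475207) (nat_lit 41) (.e (nat_lit 712755) (nat_lit 30) (.e (nat_lit 450569) (nat_lit 0) (.e (nat_lit 5599) (nat_lit 310) .nil)))))) (.g (nat_lit 5) .nil .nil))) 
(.lf (nat_lit 253482) (.g (nat_lit 2553) (.e (nat_lit 163916) (nat_lit 13) (.e (nat_lit 434244) (nat_lit 28) (.e (nat_lit 573451) (nat_lit 9) (.e (nat_lit 1667) (nat_lit 116) .nil)))) .nil))) (.nd (nat_lit 5) 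
(.lf (nat_lit 253466) (.g (nat_lit 2352) (.e (nat_lit 163915) (nat_lit 12) (.e (nat_lit 426315) (nat_lit 12) (.e (nat_lit 475207) (nat_lit 41) (.e (nat_lit 712755) (nat_lit 30) (.e (nat_lit 450568) (nat_lit 0) (.e (nat_lit 5599) (nat_lit 310) .nil)))))) (.g (nat_lit 6) .nil .nil))) 
(.lf (nat_lit 253498) (.g (nat_lit 2418) (.e (nat_lit 163917) (nat_lit 13) (.e (nat_lit 434289) (nat_lit 43) (.e (nat_lit 696362) (nat_lit 17) (.e (nat_lit 73754) (nat_lit 8) (.e (nat_lit 557101) (nat_lit 13) (.e (nat_lit 172070) (nat_lit 4) (.e (nat_lit 229680) (nat_lit 244) .nil))))))) (.g (nat_lit 5) .nil .nil)))))) (.nd (nat_lit 3) (.nd (nat_lit 4) (.nd (nat_lit 5) 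
(.lf (nat_lit 253446) (.g (nat_lit 2238) (.e (nat_lit 163915) (nat_lit 12) (.e (nat_lit 426306) (nat_lit 12) (.e (nat_lit 475207) (nat_lit 41) (.e (nat_lit 712753) (nat_lit 30) (.e (nat_lit 450568) (nat_lit 0) (.e (nat_lit 5599) (nat_lit 310) .nil)))))) (.g (nat_lit 6) .nil .nil))) 
(.lf (nat_lit 253478) (.g (nat_lit 1451) (.e (nat_lit 171776) (nat_lit 12) (.e (nat_lit 426565) (nat_lit 34) (.e (nat_lit 393273) (nat_lit 23) (.e (nat_lit 426364) (nat_lit 15) (.e (nat_lit 1802) (nat_lit 119) .nil))))) .nil))) (.nd (nat_lit 5) 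
(.lf (nat_lit 253462) (.g (nat_lit 1024) (.e (nat_lit 163915) (nat_lit 12) (.e (nat_lit 426306) (nat_lit 12) (.e (nat_lit 475211) (nat_lit 41) (.e (nat_lit 712755) (nat_lit 30) .nil)))) .nil)) 
(.lf (nat_lit 253494) (.g (nat_lit 1193) (.e (nat_lit 163917) (nat_lit 13) (.e (nat_lit 434285) (nat_lit 42) (.e (nat_lit 688181) (nat_lit 17) (.e (nat_lit 73755) (nat_lit 8) (.e (nat_lit 557103) (nat_lit 14) .nil))))) .nil)))) (.nd (nat_lit 4) (.nd (nat_lit 5) 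
(.lf (nat_lit 253454) (.g (nat_lit 2116) (.e (nat_lit 163915) (nat_lit 12) (.e (nat_lit 426306) (nat_lit 12) (.e (nat_lit 475210) (nat_lit 41) (.e (nat_lit 712753) (nat_lit 30) (.e (nat_lit 450568) (nat_lit 0) (.e (nat_lit 5598) (nat_lit 310) .nil)))))) (.g (nat_lit 4) .nil .nil))) 
(.lf (nat_lit 253486) (.g (nat_lit 1738) (.e (nat_lit 163916) (nat_lit 13) (.e (nat_lit 434275) (nat_lit 39) (.e (nat_lit 663580) (nat_lit 9) (.e (nat_lit 2607) (nat_lit 163) .nil)))) .nil))) (.nd (nat_lit 5) 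
(.lf (nat_lit 253470) (.g (nat_lit 2445) (.e (nat_lit 163915) (nat_lit 12) (.e (nat_lit 426342) (nat_lit 14) (.e (nat_lit 491544) (nat_lit 7) (.e (nat_lit 319534) (nat_lit 16) (.e (nat_lit 286749) (nat_lit 9) (.e (nat_lit 335997) (nat_lit 1) (.e (nat_lit 57857) (nat_lit 254) .nil))))))) (.g (nat_lit 4) .nil .nil))) 
(.lf (nat_lit 253502) (.g (nat_lit 2742) (.e (nat_lit 163919) (nat_lit 14) (.e (nat_lit 442373) (nat_lit 0) (.e (nat_lit 1853) (nat_lit 124) (.e (nat_lit 557108) (nat_lit 15) (.e (nat_lit 188455) (nat_lit 24) (.e (nat_lit 237312) (nat_lit 138) .nil)))))) (.g (nat_lit 4) .nil .nil)))))))) (.nd (nat_lit 1) (.nd (nat_lit 2) (.nd (nat_lit 3) (.nd (nat_lit 4) (.nd (nat_lit 5) 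
(.lf (nat_lit 253441) (.g (nat_lit 589) (.e (nat_lit 163915) (nat_lit 12) (.e (nat_lit 426188) (nat_lit 9) (.e (nat_lit 426364) (nat_lit 15) .nil))) .nil)) 
(.lf (nat_lit 253473) (.g (nat_lit 1259) (.e (nat_lit 171776) (nat_lit 12) (.e (nat_lit 426428) (nat_lit 17) (.e (nat_lit 90185) (nat_lit 17) (.e (nat_lit 237623) (nat_lit 13) .nil)))) .nil))) (.nd (nat_lit 5) 
(.lf (nat_lit 253457) (.g (nat_lit 2992) (.e (nat_lit 163915) (nat_lit 12) (.e (nat_lit 426306) (nat_lit 12) (.e (nat_lit 475210) (nat_lit 41) (.e (nat_lit 712753) (nat_lit 30) (.e (nat_lit 450569) (nat_lit 0) (.e (nat_lit 5599) (nat_lit 310) .nil)))))) (.g (nat_lit 6) .nil .nil))) 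
(.lf (nat_lit 253489) (.g (nat_lit 2457) (.e (nat_lit 163917) (nat_lit 13) (.e (nat_lit 434180) (nat_lit 0) (.e (nat_lit 1427) (nat_lit 108) (.e (nat_lit 336430) (nat_lit 29) (.e (nat_lit 442428) (nat_lit 24) (.e (nat_lit 229681) (nat_lit 244) .nil)))))) (.g (nat_lit 4) .nil .nil))))) (.nd (nat_lit 4) (.nd (nat_lit 5) 
(.lf (nat_lit 253449) (.g (nat_lit 2517) (.e (nat_lit 163915) (nat_lit 12) (.e (nat_lit 426306) (nat_lit 12) (.e (nat_lit 475207) (nat_lit 41) (.e (nat_lit 712755) (nat_lit 30) (.e (nat_lit 450568) (nat_lit 0) (.e (nat_lit 5599) (nat_lit 310) .nil)))))) (.g (nat_lit 6) .nil .nil))) 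
(.lf (nat_lit 253481) (.g (nat_lit 4490) (.e (nat_lit 163916) (nat_lit 13) (.e (nat_lit 434244) (nat_lit 28) (.e (nat_lit 573449) (nat_lit 9) (.e (nat_lit 1669) (nat_lit 116) (.e (nat_lit 401459) (nat_lit 13) (.e (nat_lit 483363) (nat_lit 18) (.e (nat_lit 57688) (nat_lit 156) .nil))))))) (.g (nat_lit 6) .nil .nil)))) (.nd (nat_lit 5) 
(.lf (nat_lit 253465) (.g (nat_lit 1441) (.e (nat_lit 163915) (nat_lit 12) (.e (nat_lit 426315) (nat_lit 12) (.e (nat_lit 475207) (nat_lit 41) (.e (nat_lit 712755) (nat_lit 30) (.e (nat_lit 450568) (nat_lit 0) (.e (nat_lit 5598) (nat_lit 310) .nil)))))) (.g (nat_lit 4) .nil .nil))) 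
(.lf (nat_lit 253497) (.g (nat_lit 593) (.e (nat_lit 163917) (nat_lit 13) (.e (nat_lit 434289) (nat_lit 43) (.e (nat_lit 696362) (nat_lit 17) .nil))) .nil))))) (.nd (nat_lit 3) (.nd (nat_lit 4) (.nd (nat_lit 5) 
(.lf (nat_lit 253445) (.g (nat_lit 2668) (.e (nat_lit 163915) (nat_lit 12) (.e (nat_lit 426306) (nat_lit 12) (.e (nat_lit 475193) (nat_lit 38) (.e (nat_lit 688186) (nat_lit 18) (.e (nat_lit 81959) (nat_lit 24) (.e (nat_lit 123160) (nat_lit 254) .nil)))))) (.g (nat_lit 0) .nil .nil))) 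
(.lf (nat_lit 253477) (.g (nat_lit 796) (.e (nat_lit 171776) (nat_lit 12) (.e (nat_lit 426565) (nat_lit 34) (.e (nat_lit 393273) (nat_lit 23) (.e (nat_lit 426131) (nat_lit 3) .nil)))) .nil))) (.nd (nat_lit 5) 
(.lf (nat_lit 253461) (.g (nat_lit 2652) (.e (nat_lit 163915) (nat_lit 12) (.e (nat_lit 426306) (nat_lit 12) (.e (nat_lit 475211) (nat_lit 41) (.e (nat_lit 712753) (nat_lit 30) (.e (nat_lit 450569) (nat_lit 0) (.e (nat_lit 5599) (nat_lit 310) .nil)))))) (.g (nat_lit 0) .nil .nil))) 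
(.lf (nat_lit 253493) (.g (nat_lit 2240) (.e (nat_lit 163917) (nat_lit 13) (.e (nat_lit 434275) (nat_lit 39) (.e (nat_lit 663580) (nat_lit 9) (.e (nat_lit 2610) (nat_lit 163) (.e (nat_lit 164196) (nat_lit 158) .nil))))) .nil)))) (.nd (nat_lit 4) (.nd (nat_lit 5) 
(.lf (nat_lit 253453) (.g (nat_lit 1366) (.e (nat_lit 163915) (nat_lit 12) (.e (nat_lit 426306) (nat_lit 12) (.e (nat_lit 475210) (nat_lit 41) (.e (nat_lit 712752) (nat_lit 29) .nil)))) .nil)) 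
(.lf (nat_lit 253485) (.g (nat_lit 1597) (.e (nat_lit 163916) (nat_lit 13) (.e (nat_lit 434248) (nat_lit 28) (.e (nat_lit 573452) (nat_lit 9) (.e (nat_lit 1675) (nat_lit 116) .nil)))) .nil))) (.nd (nat_lit 5) 
(.lf (nat_lit 253469) (.g (nat_lit 1642) (.e (nat_lit 163915) (nat_lit 12) (.e (nat_lit 426338) (nat_lit 14) (.e (nat_lit 491549) (nat_lit 9) (.e (nat_lit 336434) (nat_lit 30) .nil)))) .nil)) 
(.lf (nat_lit 253501) (.g (nat_lit 2103) (.e (nat_lit 163917) (nat_lit 13) (.e (nat_lit 434289) (nat_lit 43) (.e (nat_lit 696362) (nat_lit 17) (.e (nat_lit 73755) (nat_lit 8) (.e (nat_lit 557104) (nat_lit 14) (.e (nat_lit 180233) (nat_lit 0) (.e (nat_lit 5598) (nat_lit 310) .nil))))))) (.g (nat_lit 4) .nil .nil))))))) (.nd (nat_lit 2) (.nd (nat_lit 3) (.nd (nat_lit 4) (.nd (nat_lit 5) 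
(.lf (nat_lit 253443) (.g (nat_lit 1508) (.e (nat_lit 163915) (nat_lit 12) (.e (nat_lit 426306) (nat_lit 12) (.e (nat_lit 475193) (nat_lit 38) (.e (nat_lit 688185) (nat_lit 18) (.e (nat_lit 81959) (nat_lit 24) (.e (nat_lit 123160) (nat_lit 254) .nil)))))) (.g (nat_lit 4) .nil .nil))) 
(.lf (nat_lit 253475) (.g (nat_lit 1441) (.e (nat_lit 171776) (nat_lit 12) (.e (nat_lit 426438) (nat_lit 18) (.e (nat_lit 98370) (nat_lit 28) (.e (nat_lit 442390) (nat_lit 11) (.e (nat_lit 335986) (nat_lit 1) .nil))))) .nil))) (.nd (nat_lit 5) 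
(.lf (nat_lit 253459) (.g (nat_lit 1774) (.e (nat_lit 163915) (nat_lit 12) (.e (nat_lit 426306) (nat_lit 12) (.e (nat_lit 475211) (nat_lit 41) (.e (nat_lit 712753) (nat_lit 30) (.e (nat_lit 450568) (nat_lit 0) (.e (nat_lit 5598) (nat_lit 310) .nil)))))) (.g (nat_lit 4) .nil .nil))) 
(.lf (nat_lit 253491) (.g (nat_lit 1385) (.e (nat_lit 163917) (nat_lit 13) (.e (nat_lit 434202) (nat_lit 18) (.e (nat_lit 4598) (nat_lit 269) (.e (nat_lit 1221) (nat_lit 90) (.e (nat_lit 89856) (nat_lit 5) .nil))))) .nil)))) (.nd (nat_lit 4) (.nd (nat_lit 5) 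
(.lf (nat_lit 253451) (.g (nat_lit 1488) (.e (nat_lit 163915) (nat_lit 12) (.e (nat_lit 426306) (nat_lit 12) (.e (nat_lit 475208) (nat_lit 41) (.e (nat_lit 712753) (nat_lit 30) (.e (nat_lit 450568) (nat_lit 0) (.e (nat_lit 5599) (nat_lit 310) .nil)))))) (.g (nat_lit 4) .nil .nil))) 
(.lf (nat_lit 253483) (.g (nat_lit 2376) (.e (nat_lit 163916) (nat_lit 13) (.e (nat_lit 434244) (nat_lit 28) (.e (nat_lit 573454) (nat_lit 9) (.e (nat_lit 1676) (nat_lit 116) .nil)))) .nil))) (.nd (nat_lit 5) 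
(.lf (nat_lit 253467) (.g (nat_lit 2254) (.e (nat_lit 163915) (nat_lit 12) (.e (nat_lit 426315) (nat_lit 12) (.e (nat_lit 475207) (nat_lit 41) (.e (nat_lit 712755) (nat_lit 30) (.e (nat_lit 450569) (nat_lit 0) (.e (nat_lit 5598) (nat_lit 310) .nil)))))) (.g (nat_lit 5) .nil .nil))) 
(.lf (nat_lit 253499) (.g (nat_lit 2390) (.e (nat_lit 163917) (nat_lit 13) (.e (nat_lit 434289) (nat_lit 43) (.e (nat_lit 696362) (nat_lit 17) (.e (nat_lit 73754) (nat_lit 8) (.e (nat_lit 557101) (nat_lit 13) (.e (nat_lit 172070) (nat_lit 4) (.e (nat_lit 229681) (nat_lit 244) .nil))))))) (.g (nat_lit 5) .nil .nil)))))) (.nd (nat_lit 3) (.nd (nat_lit 4) (.nd (nat_lit 5) 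
(.lf (nat_lit 253447) (.g (nat_lit 2266) (.e (nat_lit 163915) (nat_lit 12) (.e (nat_lit 426306) (nat_lit 12) (.e (nat_lit 475207) (nat_lit 41) (.e (nat_lit 712753) (nat_lit 30) (.e (nat_lit 450569) (nat_lit 0) (.e (nat_lit 5599) (nat_lit 310) .nil)))))) (.g (nat_lit 6) .nil .nil))) 
(.lf (nat_lit 253479) (.g (nat_lit 1393) (.e (nat_lit 163916) (nat_lit 13) (.e (nat_lit 434209) (nat_lit 18) (.e (nat_lit 5939) (nat_lit 322) (.e (nat_lit 57374) (nat_lit 2) .nil)))) .nil))) (.nd (nat_lit 5) 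
(.lf (nat_lit 253463) (.g (nat_lit 2091) (.e (nat_lit 163915) (nat_lit 12) (.e (nat_lit 426315) (nat_lit 12) (.e (nat_lit 475207) (nat_lit 41) (.e (nat_lit 712753) (nat_lit 30) (.e (nat_lit 450568) (nat_lit 0) (.e (nat_lit 5599) (nat_lit 310) .nil)))))) (.g (nat_lit 6) .nil .nil))) 
(.lf (nat_lit 253495) (.g (nat_lit 2199) (.e (nat_lit 163917) (nat_lit 13) (.e (nat_lit 434285) (nat_lit 42) (.e (nat_lit 688182) (nat_lit 17) (.e (nat_lit 73755) (nat_lit 8) (.e (nat_lit 557104) (nat_lit 14) (.e (nat_lit 180233) (nat_lit 0) (.e (nat_lit 5598) (nat_lit 310) .nil))))))) (.g (nat_lit 5) .nil .nil))))) (.nd (nat_lit 4) (.nd (nat_lit 5) 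
(.lf (nat_lit 253455) (.g (nat_lit 2956) (.e (nat_lit 163915) (nat_lit 12) (.e (nat_lit 426306) (nat_lit 12) (.e (nat_lit 475210) (nat_lit 41) (.e (nat_lit 712753) (nat_lit 30) (.e (nat_lit 450568) (nat_lit 0) (.e (nat_lit 5599) (nat_lit 310) .nil)))))) (.g (nat_lit 0) .nil .nil))) 
(.lf (nat_lit 253487) (.g (nat_lit 502) (.e (nat_lit 163916) (nat_lit 13) (.e (nat_lit 434286) (nat_lit 42) (.e (nat_lit 688179) (nat_lit 17) .nil))) .nil))) (.nd (nat_lit 5) 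
(.lf (nat_lit 253471) (.g (nat_lit 1708) (.e (nat_lit 163915) (nat_lit 12) (.e (nat_lit 426343) (nat_lit 14) (.e (nat_lit 491544) (nat_lit 7) (.e (nat_lit 319534) (nat_lit 16) .nil)))) .nil)) 
(.lf (nat_lit 253503) (.g (nat_lit 1784) (.e (nat_lit 163919) (nat_lit 14) (.e (nat_lit 442374) (nat_lit 0) (.e (nat_lit 2160) (nat_lit 143) (.e (nat_lit 712753) (nat_lit 30) (.e (nat_lit 450568) (nat_lit 0) (.e (nat_lit 5599) (nat_lit 310) .nil)))))) (.g (nat_lit 4) .nil .nil)))))))))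

noncomputable def tv3287 : DT := (.nd (nat_lit 0) (.nd (nat_lit 1) (.nd (nat_lit 2) (.nd (nat_lit 3) (.nd (nat_lit 4) (.nd (nat_lit 5) 
(.lf (nat_lit 253504) (.g (nat_lit 1833) (.e (nat_lit 163919) (nat_lit 14) (.e (nat_lit 442374) (nat_lit 0) (.e (nat_lit 2160) (nat_lit 143) (.e (nat_lit 712753) (nat_lit 30) (.e (nat_lit 450569) (nat_lit 0) (.e (nat_lit 5599) (nat_lit 310) .nil)))))) (.g (nat_lit 4) .nil .nil))) 
(.lf (nat_lit 253536) (.g (nat_lit 994) (.e (nat_lit 163926) (nat_lit 16) (.e (nat_lit 458774) (nat_lit 18) (.e (nat_lit 6306) (nat_lit 337) (.e (nat_lit 1211) (nat_lit 89) .nil)))) .nil))) (.nd (nat_lit 5) 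
(.lf (nat_lit 253520) (.g (nat_lit 1296) (.e (nat_lit 163920) (nat_lit 14) (.e (nat_lit 442430) (nat_lit 24) (.e (nat_lit 229631) (nat_lit 226) (.e (nat_lit 1187) (nat_lit 88) .nil)))) .nil)) 
(.lf (nat_lit 253552) (.g (nat_lit 4881) (.e (nat_lit 163926) (nat_lit 16) (.e (nat_lit 458789) (nat_lit 23) (.e (nat_lit 532549) (nat_lit 12) (.e (nat_lit 360475) (nat_lit 8) (.e (nat_lit 557089) (nat_lit 12) (.e (nat_lit 163843) (nat_lit 0) (.e (nat_lit 6421) (nat_lit 341) .nil))))))) (.g (nat_lit 5) .nil .nil))))) (.nd (nat_lit 4) (.nd (nat_lit 5) 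
(.lf (nat_lit 253512) (.g (nat_lit 2912) (.e (nat_lit 163920) (nat_lit 14) (.e (nat_lit 442374) (nat_lit 0) (.e (nat_lit 2175) (nat_lit 143) (.e (nat_lit 712753) (nat_lit 30) (.e (nat_lit 450569) (nat_lit 0) (.e (nat_lit 5599) (nat_lit 310) .nil)))))) (.g (nat_lit 0) .nil .nil))) 
(.lf (nat_lit 253544) (.g (nat_lit 3493) (.e (nat_lit 163926) (nat_lit 16) (.e (nat_lit 458789) (nat_lit 23) (.e (nat_lit 532549) (nat_lit 12) (.e (nat_lit 360473) (nat_lit 8) (.e (nat_lit 557091) (nat_lit 12) (.e (nat_lit 163847) (nat_lit 0) (.e (nat_lit 6420) (nat_lit 341) .nil))))))) (.g (nat_lit 5) .nil .nil)))) (.nd (nat_lit 5) 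
(.lf (nat_lit 253528) (.g (nat_lit 1218) (.e (nat_lit 163923) (nat_lit 15) (.e (nat_lit 450587) (nat_lit 10) (.e (nat_lit 573500) (nat_lit 18) .nil))) .nil)) 
(.lf (nat_lit 253560) (.g (nat_lit 6429) (.e (nat_lit 163926) (nat_lit 16) (.e (nat_lit 458789) (nat_lit 23) (.e (nat_lit 532550) (nat_lit 12) (.e (nat_lit 360475) (nat_lit 8) (.e (nat_lit 557091) (nat_lit 12) (.e (nat_lit 163843) (nat_lit 0) (.e (nat_lit 6416) (nat_lit 341) .nil))))))) (.g (nat_lit 6) .nil .nil)))))) (.nd (nat_lit 3) (.nd (nat_lit 4) (.nd (nat_lit 5) 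
(.lf (nat_lit 253508) (.g (nat_lit 3241) (.e (nat_lit 163919) (nat_lit 14) (.e (nat_lit 442374) (nat_lit 0) (.e (nat_lit 2175) (nat_lit 143) (.e (nat_lit 712755) (nat_lit 30) (.e (nat_lit 450569) (nat_lit 0) (.e (nat_lit 5599) (nat_lit 310) .nil)))))) (.g (nat_lit 0) .nil .nil))) 
(.lf (nat_lit 253540) (.g (nat_lit 3430) (.e (nat_lit 163926) (nat_lit 16) (.e (nat_lit 458789) (nat_lit 23) (.e (nat_lit 532549) (nat_lit 12) (.e (nat_lit 360473) (nat_lit 8) (.e (nat_lit 557089) (nat_lit 12) (.e (nat_lit 163849) (nat_lit 0) (.e (nat_lit 6420) (nat_lit 341) .nil))))))) (.g (nat_lit 5) .nil .nil)))) (.nd (nat_lit 5) 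
(.lf (nat_lit 253524) (.g (nat_lit 710) (.e (nat_lit 163923) (nat_lit 15) (.e (nat_lit 450584) (nat_lit 9) (.e (nat_lit 565251) (nat_lit 0) (.e (nat_lit 1598) (nat_lit 111) .nil)))) .nil)) 
(.lf (nat_lit 253556) (.g (nat_lit 4473) (.e (nat_lit 163926) (nat_lit 16) (.e (nat_lit 458789) (nat_lit 23) (.e (nat_lit 532550) (nat_lit 12) (.e (nat_lit 360474) (nat_lit 8) (.e (nat_lit 557094) (nat_lit 12) .nil))))) .nil)))) (.nd (nat_lit 4) (.nd (nat_lit 5) 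
(.lf (nat_lit 253516) (.g (nat_lit 2227) (.e (nat_lit 163920) (nat_lit 14) (.e (nat_lit 450304) (nat_lit 0) (.e (nat_lit 1858) (nat_lit 124) (.e (nat_lit 557109) (nat_lit 15) (.e (nat_lit 188455) (nat_lit 24) (.e (nat_lit 237312) (nat_lit 138) .nil)))))) (.g (nat_lit 4) .nil .nil))) 
(.lf (nat_lit 253548) (.g (nat_lit 2601) (.e (nat_lit 163926) (nat_lit 16) (.e (nat_lit 458789) (nat_lit 23) (.e (nat_lit 532549) (nat_lit 12) (.e (nat_lit 360473) (nat_lit 8) (.e (nat_lit 557094) (nat_lit 12) .nil))))) .nil))) (.nd (nat_lit 5) 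
(.lf (nat_lit 253532) (.g (nat_lit 876) (.e (nat_lit 163926) (nat_lit 16) (.e (nat_lit 458774) (nat_lit 18) (.e (nat_lit 6272) (nat_lit 337) .nil))) .nil)) 
(.lf (nat_lit 253564) (.g (nat_lit 1708) (.e (nat_lit 163926) (nat_lit 16) (.e (nat_lit 458789) (nat_lit 23) (.e (nat_lit 532563) (nat_lit 15) (.e (nat_lit 385049) (nat_lit 21) .nil)))) .nil)))))) (.nd (nat_lit 2) (.nd (nat_lit 3) (.nd (nat_lit 4) (.nd (nat_lit 5) 
(.lf (nat_lit 253506) (.g (nat_lit 2786) (.e (nat_lit 163919) (nat_lit 14) (.e (nat_lit 442374) (nat_lit 0) (.e (nat_lit 2175) (nat_lit 143) (.e (nat_lit 712753) (nat_lit 30) (.e (nat_lit 450569) (nat_lit 0) (.e (nat_lit 5599) (nat_lit 310) .nil)))))) (.g (nat_lit 0) .nil .nil))) 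
(.lf (nat_lit 253538) (.g (nat_lit 2696) (.e (nat_lit 163926) (nat_lit 16) (.e (nat_lit 458789) (nat_lit 23) (.e (nat_lit 532549) (nat_lit 12) (.e (nat_lit 360473) (nat_lit 8) (.e (nat_lit 557089) (nat_lit 12) (.e (nat_lit 163843) (nat_lit 0) (.e (nat_lit 6416) (nat_lit 341) .nil))))))) (.g (nat_lit 4) .nil .nil)))) (.nd (nat_lit 5) 
(.lf (nat_lit 253522) (.g (nat_lit 1444) (.e (nat_lit 163920) (nat_lit 14) (.e (nat_lit 442430) (nat_lit 24) (.e (nat_lit 229639) (nat_lit 229) (.e (nat_lit 122915) (nat_lit 14) (.e (nat_lit 352309) (nat_lit 21) (.e (nat_lit 57857) (nat_lit 254) .nil)))))) (.g (nat_lit 4) .nil .nil))) 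
(.lf (nat_lit 253554) (.g (nat_lit 4526) (.e (nat_lit 163926) (nat_lit 16) (.e (nat_lit 458789) (nat_lit 23) (.e (nat_lit 532550) (nat_lit 12) (.e (nat_lit 360474) (nat_lit 8) (.e (nat_lit 557093) (nat_lit 12) (.e (nat_lit 163848) (nat_lit 0) (.e (nat_lit 6416) (nat_lit 341) .nil))))))) (.g (nat_lit 4) .nil .nil))))) (.nd (nat_lit 4) (.nd (nat_lit 5) 
(.lf (nat_lit 253514) (.g (nat_lit 3164) (.e (nat_lit 163920) (nat_lit 14) (.e (nat_lit 442374) (nat_lit 0) (.e (nat_lit 2175) (nat_lit 143) (.e (nat_lit 712755) (nat_lit 30) (.e (nat_lit 450568) (nat_lit 0) (.e (nat_lit 5599) (nat_lit 310) .nil)))))) (.g (nat_lit 0) .nil .nil))) 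
(.lf (nat_lit 253546) (.g (nat_lit 2695) (.e (nat_lit 163926) (nat_lit 16) (.e (nat_lit 458789) (nat_lit 23) (.e (nat_lit 532549) (nat_lit 12) (.e (nat_lit 360473) (nat_lit 8) (.e (nat_lit 557093) (nat_lit 12) (.e (nat_lit 163848) (nat_lit 0) (.e (nat_lit 6416) (nat_lit 341) .nil))))))) (.g (nat_lit 4) .nil .nil)))) (.nd (nat_lit 5) 
(.lf (nat_lit 253530) (.g (nat_lit 876) (.e (nat_lit 163926) (nat_lit 16) (.e (nat_lit 458774) (nat_lit 18) (.e (nat_lit 4605) (nat_lit 269) .nil))) .nil)) 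
(.lf (nat_lit 253562) (.g (nat_lit 5767) (.e (nat_lit 163926) (nat_lit 16) (.e (nat_lit 458789) (nat_lit 23) (.e (nat_lit 532550) (nat_lit 12) (.e (nat_lit 360475) (nat_lit 8) (.e (nat_lit 557091) (nat_lit 12) (.e (nat_lit 163844) (nat_lit 0) (.e (nat_lit 6416) (nat_lit 341) .nil))))))) (.g (nat_lit 5) .nil .nil)))))) (.nd (nat_lit 3) (.nd (nat_lit 4) (.nd (nat_lit 5) 
(.lf (nat_lit 253510) (.g (nat_lit 1192) (.e (nat_lit 163920) (nat_lit 14) (.e (nat_lit 442374) (nat_lit 0) (.e (nat_lit 2058) (nat_lit 142) (.e (nat_lit 704599) (nat_lit 6) .nil)))) .nil)) 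
(.lf (nat_lit 253542) (.g (nat_lit 3702) (.e (nat_lit 163926) (nat_lit 16) (.e (nat_lit 458789) (nat_lit 23) (.e (nat_lit 532549) (nat_lit 12) (.e (nat_lit 360473) (nat_lit 8) (.e (nat_lit 557091) (nat_lit 12) (.e (nat_lit 163843) (nat_lit 0) (.e (nat_lit 6416) (nat_lit 341) .nil))))))) (.g (nat_lit 5) .nil .nil)))) (.nd (nat_lit 5) 
(.lf (nat_lit 253526) (.g (nat_lit 2944) (.e (nat_lit 163923) (nat_lit 15) (.e (nat_lit 450587) (nat_lit 10) (.e (nat_lit 573475) (nat_lit 12) (.e (nat_lit 57516) (nat_lit 42) (.e (nat_lit 671744) (nat_lit 0) (.e (nat_lit 1281) (nat_lit 94) (.e (nat_lit 114712) (nat_lit 21) (.e (nat_lit 57924) (nat_lit 282) .nil)))))))) (.g (nat_lit 4) .nil .nil))) 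
(.lf (nat_lit 253558) (.g (nat_lit 4637) (.e (nat_lit 163926) (nat_lit 16) (.e (nat_lit 458789) (nat_lit 23) (.e (nat_lit 532550) (nat_lit 12) (.e (nat_lit 360475) (nat_lit 8) (.e (nat_lit 557089) (nat_lit 12) .nil))))) .nil)))) (.nd (nat_lit 4) (.nd (nat_lit 5) 
(.lf (nat_lit 253518) (.g (nat_lit 682) (.e (nat_lit 163920) (nat_lit 14) (.e (nat_lit 442430) (nat_lit 24) (.e (nat_lit 229627) (nat_lit 226) .nil))) .nil)) 
(.lf (nat_lit 253550) (.g (nat_lit 2719) (.e (nat_lit 163926) (nat_lit 16) (.e (nat_lit 458789) (nat_lit 23) (.e (nat_lit 532549) (nat_lit 12) (.e (nat_lit 360473) (nat_lit 8) (.e (nat_lit 557094) (nat_lit 12) (.e (nat_lit 163849) (nat_lit 0) (.e (nat_lit 6420) (nat_lit 341) .nil))))))) (.g (nat_lit 4) .nil .nil)))) (.nd (nat_lit 5) 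
(.lf (nat_lit 253534) (.g (nat_lit 876) (.e (nat_lit 163926) (nat_lit 16) (.e (nat_lit 458774) (nat_lit 18) (.e (nat_lit 6296) (nat_lit 337) .nil))) .nil)) 
(.lf (nat_lit 253566) (.g (nat_lit 876) (.e (nat_lit 163927) (nat_lit 16) (.e (nat_lit 458774) (nat_lit 18) (.e (nat_lit 6392) (nat_lit 339) .nil))) .nil))))))) (.nd (nat_lit 1) (.nd (nat_lit 2) (.nd (nat_lit 3) (.nd (nat_lit 4) (.nd (nat_lit 5) 
(.lf (nat_lit 253505) (.g (nat_lit 2733) (.e (nat_lit 163919) (nat_lit 14) (.e (nat_lit 442374) (nat_lit 0) (.e (nat_lit 2175) (nat_lit 143) (.e (nat_lit 712753) (nat_lit 30) (.e (nat_lit 450568) (nat_lit 0) (.e (nat_lit 5599) (nat_lit 310) .nil)))))) (.g (nat_lit 0) .nil .nil))) 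
(.lf (nat_lit 253537) (.g (nat_lit 876) (.e (nat_lit 163926) (nat_lit 16) (.e (nat_lit 458774) (nat_lit 18) (.e (nat_lit 6392) (nat_lit 339) .nil))) .nil))) (.nd (nat_lit 5) 
(.lf (nat_lit 253521) (.g (nat_lit 713) (.e (nat_lit 163920) (nat_lit 14) (.e (nat_lit 442430) (nat_lit 24) (.e (nat_lit 229632) (nat_lit 226) .nil))) .nil)) 
(.lf (nat_lit 253553) (.g (nat_lit 4434) (.e (nat_lit 163926) (nat_lit 16) (.e (nat_lit 458789) (nat_lit 23) (.e (nat_lit 532550) (nat_lit 12) (.e (nat_lit 360474) (nat_lit 8) (.e (nat_lit 557093) (nat_lit 12) (.e (nat_lit 163847) (nat_lit 0) (.e (nat_lit 6421) (nat_lit 341) .nil))))))) (.g (nat_lit 4) .nil .nil))))) (.nd (nat_lit 4) (.nd (nat_lit 5) 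
(.lf (nat_lit 253513) (.g (nat_lit 2103) (.e (nat_lit 163920) (nat_lit 14) (.e (nat_lit 442374) (nat_lit 0) (.e (nat_lit 2175) (nat_lit 143) (.e (nat_lit 712755) (nat_lit 30) (.e (nat_lit 450563) (nat_lit 0) (.e (nat_lit 7936) (nat_lit 310) .nil)))))) (.g (nat_lit 4) .nil .nil))) 
(.lf (nat_lit 253545) (.g (nat_lit 2615) (.e (nat_lit 163926) (nat_lit 16) (.e (nat_lit 458789) (nat_lit 23) (.e (nat_lit 532549) (nat_lit 12) (.e (nat_lit 360473) (nat_lit 8) (.e (nat_lit 557093) (nat_lit 12) .nil))))) .nil))) (.nd (nat_lit 5) 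
(.lf (nat_lit 253529) (.g (nat_lit 5501) (.e (nat_lit 163925) (nat_lit 16) (.e (nat_lit 458789) (nat_lit 23) (.e (nat_lit 532550) (nat_lit 12) (.e (nat_lit 360475) (nat_lit 8) (.e (nat_lit 557091) (nat_lit 12) .nil))))) .nil)) 
(.lf (nat_lit 253561) (.g (nat_lit 7353) (.e (nat_lit 163926) (nat_lit 16) (.e (nat_lit 458789) (nat_lit 23) (.e (nat_lit 532550) (nat_lit 12) (.e (nat_lit 360475) (nat_lit 8) (.e (nat_lit 557091) (nat_lit 12) (.e (nat_lit 163843) (nat_lit 0) (.e (nat_lit 6421) (nat_lit 341) .nil))))))) (.g (nat_lit 7) .nil .nil)))))) (.nd (nat_lit 3) (.nd (nat_lit 4) (.nd (nat_lit 5) 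
(.lf (nat_lit 253509) (.g (nat_lit 3030) (.e (nat_lit 163920) (nat_lit 14) (.e (nat_lit 442373) (nat_lit 0) (.e (nat_lit 1853) (nat_lit 124) (.e (nat_lit 557108) (nat_lit 15) (.e (nat_lit 188455) (nat_lit 24) (.e (nat_lit 237312) (nat_lit 138) .nil)))))) (.g (nat_lit 4) .nil .nil))) 
(.lf (nat_lit 253541) (.g (nat_lit 2646) (.e (nat_lit 163926) (nat_lit 16) (.e (nat_lit 458789) (nat_lit 23) (.e (nat_lit 532549) (nat_lit 12) (.e (nat_lit 360473) (nat_lit 8) (.e (nat_lit 557091) (nat_lit 12) .nil))))) .nil))) (.nd (nat_lit 5) 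
(.lf (nat_lit 253525) (.g (nat_lit 3227) (.e (nat_lit 163923) (nat_lit 15) (.e (nat_lit 450587) (nat_lit 10) (.e (nat_lit 573475) (nat_lit 12) (.e (nat_lit 57516) (nat_lit 42) (.e (nat_lit 671744) (nat_lit 0) (.e (nat_lit 1280) (nat_lit 94) (.e (nat_lit 114712) (nat_lit 21) (.e (nat_lit 57930) (nat_lit 282) .nil)))))))) (.g (nat_lit 4) .nil .nil))) 
(.lf (nat_lit 253557) (.g (nat_lit 4540) (.e (nat_lit 163926) (nat_lit 16) (.e (nat_lit 458789) (nat_lit 23) (.e (nat_lit 532550) (nat_lit 12) (.e (nat_lit 360474) (nat_lit 8) (.e (nat_lit 557094) (nat_lit 12) (.e (nat_lit 163849) (nat_lit 0) (.e (nat_lit 6416) (nat_lit 341) .nil))))))) (.g (nat_lit 4) .nil .nil))))) (.nd (nat_lit 4) (.nd (nat_lit 5) 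
(.lf (nat_lit 253517) (.g (nat_lit 645) (.e (nat_lit 163920) (nat_lit 14) (.e (nat_lit 442421) (nat_lit 21) (.e (nat_lit 164309) (nat_lit 226) .nil))) .nil)) 
(.lf (nat_lit 253549) (.g (nat_lit 2605) (.e (nat_lit 163926) (nat_lit 16) (.e (nat_lit 458789) (nat_lit 23) (.e (nat_lit 532549) (nat_lit 12) (.e (nat_lit 360473) (nat_lit 8) (.e (nat_lit 557094) (nat_lit 12) (.e (nat_lit 163847) (nat_lit 0) (.e (nat_lit 6416) (nat_lit 341) .nil))))))) (.g (nat_lit 4) .nil .nil)))) (.nd (nat_lit 5) 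
(.lf (nat_lit 253533) (.g (nat_lit 876) (.e (nat_lit 163926) (nat_lit 16) (.e (nat_lit 458774) (nat_lit 18) (.e (nat_lit 6274) (nat_lit 337) .nil))) .nil)) 
(.lf (nat_lit 253565) (.g (nat_lit 876) (.e (nat_lit 163927) (nat_lit 16) (.e (nat_lit 458774) (nat_lit 18) (.e (nat_lit 6296) (nat_lit 337) .nil))) .nil)))))) (.nd (nat_lit 2) (.nd (nat_lit 3) (.nd (nat_lit 4) (.nd (nat_lit 5) 
(.lf (nat_lit 253507) (.g (nat_lit 3036) (.e (nat_lit 163919) (nat_lit 14) (.e (nat_lit 442374) (nat_lit 0) (.e (nat_lit 2175) (nat_lit 143) (.e (nat_lit 712755) (nat_lit 30) (.e (nat_lit 450568) (nat_lit 0) (.e (nat_lit 5599) (nat_lit 310) .nil)))))) (.g (nat_lit 0) .nil .nil))) 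
(.lf (nat_lit 253539) (.g (nat_lit 3382) (.e (nat_lit 163926) (nat_lit 16) (.e (nat_lit 458789) (nat_lit 23) (.e (nat_lit 532549) (nat_lit 12) (.e (nat_lit 360473) (nat_lit 8) (.e (nat_lit 557089) (nat_lit 12) (.e (nat_lit 163844) (nat_lit 0) (.e (nat_lit 6416) (nat_lit 341) .nil))))))) (.g (nat_lit 5) .nil .nil)))) (.nd (nat_lit 5) 
(.lf (nat_lit 253523) (.g (nat_lit 541) (.e (nat_lit 163922) (nat_lit 15) (.e (nat_lit 450579) (nat_lit 5) (.e (nat_lit 532579) (nat_lit 26) .nil))) .nil)) 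
(.lf (nat_lit 253555) (.g (nat_lit 4655) (.e (nat_lit 163926) (nat_lit 16) (.e (nat_lit 458789) (nat_lit 23) (.e (nat_lit 532550) (nat_lit 12) (.e (nat_lit 360474) (nat_lit 8) (.e (nat_lit 557093) (nat_lit 12) (.e (nat_lit 163849) (nat_lit 0) (.e (nat_lit 6416) (nat_lit 341) .nil))))))) (.g (nat_lit 4) .nil .nil))))) (.nd (nat_lit 4) (.nd (nat_lit 5) 
(.lf (nat_lit 253515) (.g (nat_lit 3371) (.e (nat_lit 163920) (nat_lit 14) (.e (nat_lit 442374) (nat_lit 0) (.e (nat_lit 2175) (nat_lit 143) (.e (nat_lit 712755) (nat_lit 30) (.e (nat_lit 450569) (nat_lit 0) (.e (nat_lit 5599) (nat_lit 310) .nil)))))) (.g (nat_lit 0) .nil .nil))) 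
(.lf (nat_lit 253547) (.g (nat_lit 2814) (.e (nat_lit 163926) (nat_lit 16) (.e (nat_lit 458789) (nat_lit 23) (.e (nat_lit 532549) (nat_lit 12) (.e (nat_lit 360473) (nat_lit 8) (.e (nat_lit 557093) (nat_lit 12) (.e (nat_lit 163849) (nat_lit 0) (.e (nat_lit 6416) (nat_lit 341) .nil))))))) (.g (nat_lit 4) .nil .nil)))) (.nd (nat_lit 5) 
(.lf (nat_lit 253531) (.g (nat_lit 1680) (.e (nat_lit 163926) (nat_lit 16) (.e (nat_lit 458774) (nat_lit 18) (.e (nat_lit 4605) (nat_lit 269) (.e (nat_lit 1221) (nat_lit 90) (.e (nat_lit 89856) (nat_lit 5) .nil))))) .nil)) 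
(.lf (nat_lit 253563) (.g (nat_lit 1414) (.e (nat_lit 163926) (nat_lit 16) (.e (nat_lit 458789) (nat_lit 23) (.e (nat_lit 532555) (nat_lit 13) (.e (nat_lit 368686) (nat_lit 31) .nil)))) .nil))))) (.nd (nat_lit 3) (.nd (nat_lit 4) (.nd (nat_lit 5) 
(.lf (nat_lit 253511) (.g (nat_lit 2856) (.e (nat_lit 163920) (nat_lit 14) (.e (nat_lit 442374) (nat_lit 0) (.e (nat_lit 2175) (nat_lit 143) (.e (nat_lit 712753) (nat_lit 30) (.e (nat_lit 450568) (nat_lit 0) (.e (nat_lit 5599) (nat_lit 310) .nil)))))) (.g (nat_lit 0) .nil .nil))) 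
(.lf (nat_lit 253543) (.g (nat_lit 3750) (.e (nat_lit 163926) (nat_lit 16) (.e (nat_lit 458789) (nat_lit 23) (.e (nat_lit 532549) (nat_lit 12) (.e (nat_lit 360473) (nat_lit 8) (.e (nat_lit 557091) (nat_lit 12) (.e (nat_lit 163844) (nat_lit 0) (.e (nat_lit 6421) (nat_lit 341) .nil))))))) (.g (nat_lit 5) .nil .nil)))) (.nd (nat_lit 5) 
(.lf (nat_lit 253527) (.g (nat_lit 3577) (.e (nat_lit 163923) (nat_lit 15) (.e (nat_lit 450587) (nat_lit 10) (.e (nat_lit 573475) (nat_lit 12) (.e (nat_lit 57516) (nat_lit 42) (.e (nat_lit 671748) (nat_lit 0) (.e (nat_lit 1278) (nat_lit 94) (.e (nat_lit 114712) (nat_lit 21) (.e (nat_lit 57929) (nat_lit 282) .nil)))))))) (.g (nat_lit 5) .nil .nil))) 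
(.lf (nat_lit 253559) (.g (nat_lit 5459) (.e (nat_lit 163926) (nat_lit 16) (.e (nat_lit 458789) (nat_lit 23) (.e (nat_lit 532550) (nat_lit 12) (.e (nat_lit 360475) (nat_lit 8) (.e (nat_lit 557089) (nat_lit 12) (.e (nat_lit 163848) (nat_lit 0) (.e (nat_lit 6416) (nat_lit 341) .nil))))))) (.g (nat_lit 5) .nil .nil))))) (.nd (nat_lit 4) (.nd (nat_lit 5) 
(.lf (nat_lit 253519) (.g (nat_lit 713) (.e (nat_lit 163920) (nat_lit 14) (.e (nat_lit 442430) (nat_lit 24) (.e (nat_lit 229628) (nat_lit 226) .nil))) .nil)) 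
(.lf (nat_lit 253551) (.g (nat_lit 2688) (.e (nat_lit 163926) (nat_lit 16) (.e (nat_lit 458789) (nat_lit 23) (.e (nat_lit 532549) (nat_lit 12) (.e (nat_lit 360474) (nat_lit 8) (.e (nat_lit 557094) (nat_lit 12) .nil))))) .nil))) (.nd (nat_lit 5) 
(.lf (nat_lit 253535) (.g (nat_lit 1915) (.e (nat_lit 163926) (nat_lit 16) (.e (nat_lit 458774) (nat_lit 18) (.e (nat_lit 6296) (nat_lit 337) (.e (nat_lit 1209) (nat_lit 89) (.e (nat_lit 73753) (nat_lit 8) .nil))))) .nil)) 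
(.lf (nat_lit 253567) (.g (nat_lit 1256) (.e (nat_lit 163927) (nat_lit 16) (.e (nat_lit 458787) (nat_lit 23) (.e (nat_lit 532550) (nat_lit 12) (.e (nat_lit 360474) (nat_lit 8) .nil)))) .nil))))))))

noncomputable def tv3288 : DT := (.nd (nat_lit 0) (.nd (nat_lit 1) (.nd (nat_lit 2) (.nd (nat_lit 3) (.nd (nat_lit 4) (.nd (nat_lit 5) (.nd (nat_lit 6) 
(.lf (nat_lit 253568) (.g (nat_lit 3270) (.e (nat_lit 163927) (nat_lit 16) (.e (nat_lit 458789) (nat_lit 23) (.e (nat_lit 532549) (nat_lit 12) (.e (nat_lit 360473) (nat_lit 8) (.e (nat_lit 557089) (nat_lit 12) (.e (nat_lit 163849) (nat_lit 0) (.e (nat_lit 6416) (nat_lit 341) .nil))))))) (.g (nat_lit 5) .nil .nil))) 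
(.lf (nat_lit 253632) (.g (nat_lit 1820) (.e (nat_lit 163933) (nat_lit 17) (.e (nat_lit 466947) (nat_lit 0) (.e (nat_lit 2175) (nat_lit 143) (.e (nat_lit 712755) (nat_lit 30) (.e (nat_lit 458496) (nat_lit 0) (.e (nat_lit 5586) (nat_lit 310) .nil)))))) (.g (nat_lit 4) .nil .nil)))) (.nd (nat_lit 6) 
(.lf (nat_lit 253600) (.g (nat_lit 1376) (.e (nat_lit 163931) (nat_lit 17) (.e (nat_lit 466947) (nat_lit 0) (.e (nat_lit 2172) (nat_lit 143) (.e (nat_lit 712753) (nat_lit 30) (.e (nat_lit 458496) (nat_lit 0) (.e (nat_lit 5586) (nat_lit 310) .nil)))))) (.g (nat_lit 4) .nil .nil))) 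
(.lf (nat_lit 253664) (.g (nat_lit 500) (.e (nat_lit 171776) (nat_lit 18) (.e (nat_lit 475179) (nat_lit 24) (.e (nat_lit 516146) (nat_lit 9) .nil))) .nil)))) (.nd (nat_lit 5) (.nd (nat_lit 6) 
(.lf (nat_lit 253584) (.g (nat_lit 5739) (.e (nat_lit 163927) (nat_lit 16) (.e (nat_lit 458789) (nat_lit 23) (.e (nat_lit 532550) (nat_lit 12) (.e (nat_lit 360475) (nat_lit 8) (.e (nat_lit 557089) (nat_lit 12) (.e (nat_lit 163844) (nat_lit 0) (.e (nat_lit 6416) (nat_lit 341) .nil))))))) (.g (nat_lit 6) .nil .nil))) 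
(.lf (nat_lit 253648) (.g (nat_lit 1041) (.e (nat_lit 163938) (nat_lit 18) (.e (nat_lit 475176) (nat_lit 24) (.e (nat_lit 516174) (nat_lit 14) (.e (nat_lit 466954) (nat_lit 11) .nil)))) .nil))) (.nd (nat_lit 6) 
(.lf (nat_lit 253616) (.g (nat_lit 3331) (.e (nat_lit 163933) (nat_lit 17) (.e (nat_lit 466945) (nat_lit 0) (.e (nat_lit 1853) (nat_lit 124) (.e (nat_lit 557108) (nat_lit 15) (.e (nat_lit 188455) (nat_lit 24) (.e (nat_lit 237312) (nat_lit 138) .nil)))))) (.g (nat_lit 5) .nil .nil))) 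
(.lf (nat_lit 253680) (.g (nat_lit 1141) (.e (nat_lit 163944) (nat_lit 19) (.e (nat_lit 483363) (nat_lit 18) (.e (nat_lit 57688) (nat_lit 156) .nil))) .nil))))) (.nd (nat_lit 4) (.nd (nat_lit 5) (.nd (nat_lit 6) 
(.lf (nat_lit 253576) (.g (nat_lit 2693) (.e (nat_lit 163927) (nat_lit 16) (.e (nat_lit 458789) (nat_lit 23) (.e (nat_lit 532549) (nat_lit 12) (.e (nat_lit 360473) (nat_lit 8) (.e (nat_lit 557094) (nat_lit 12) (.e (nat_lit 163849) (nat_lit 0) (.e (nat_lit 6421) (nat_lit 341) .nil))))))) (.g (nat_lit 4) .nil .nil))) 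
(.lf (nat_lit 253640) (.g (nat_lit 2047) (.e (nat_lit 163933) (nat_lit 17) (.e (nat_lit 466972) (nat_lit 21) (.e (nat_lit 171776) (nat_lit 125) (.e (nat_lit 122919) (nat_lit 15) (.e (nat_lit 360451) (nat_lit 0) (.e (nat_lit 7708) (nat_lit 414) .nil)))))) (.g (nat_lit 5) .nil .nil)))) (.nd (nat_lit 6) 
(.lf (nat_lit 253608) (.g (nat_lit 1287) (.e (nat_lit 163932) (nat_lit 17) (.e (nat_lit 466947) (nat_lit 0) (.e (nat_lit 2160) (nat_lit 143) (.e (nat_lit 712755) (nat_lit 30) (.e (nat_lit 458496) (nat_lit 0) .nil))))) .nil)) 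
(.lf (nat_lit 253672) (.g (nat_lit 1775) (.e (nat_lit 163942) (nat_lit 19) (.e (nat_lit 483341) (nat_lit 9) (.e (nat_lit 426196) (nat_lit 9) (.e (nat_lit 426436) (nat_lit 18) .nil)))) .nil)))) (.nd (nat_lit 5) (.nd (nat_lit 6) 
(.lf (nat_lit 253592) (.g (nat_lit 5501) (.e (nat_lit 163929) (nat_lit 16) (.e (nat_lit 458789) (nat_lit 23) (.e (nat_lit 532550) (nat_lit 12) (.e (nat_lit 360475) (nat_lit 8) (.e (nat_lit 557091) (nat_lit 12) .nil))))) .nil)) 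
(.lf (nat_lit 253656) (.g (nat_lit 891) (.e (nat_lit 163938) (nat_lit 18) (.e (nat_lit 475214) (nat_lit 42) (.e (nat_lit 720930) (nat_lit 21) .nil))) .nil))) (.nd (nat_lit 6) 
(.lf (nat_lit 253624) (.g (nat_lit 1382) (.e (nat_lit 163933) (nat_lit 17) (.e (nat_lit 466947) (nat_lit 0) (.e (nat_lit 2172) (nat_lit 143) (.e (nat_lit 712755) (nat_lit 30) (.e (nat_lit 458496) (nat_lit 0) (.e (nat_lit 5587) (nat_lit 310) .nil)))))) (.g (nat_lit 4) .nil .nil))) 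
(.lf (nat_lit 253688) (.g (nat_lit 2603) (.e (nat_lit 163945) (nat_lit 20) (.e (nat_lit 491566) (nat_lit 12) (.e (nat_lit 385104) (nat_lit 50) (.e (nat_lit 786483) (nat_lit 30) (.e (nat_lit 360448) (nat_lit 0) (.e (nat_lit 5587) (nat_lit 310) .nil)))))) (.g (nat_lit 4) .nil .nil))))))) (.nd (nat_lit 3) (.nd (nat_lit 4) (.nd (nat_lit 5) (.nd (nat_lit 6) 
(.lf (nat_lit 253572) (.g (nat_lit 2447) (.e (nat_lit 163927) (nat_lit 16) (.e (nat_lit 458789) (nat_lit 23) (.e (nat_lit 532549) (nat_lit 12) (.e (nat_lit 360473) (nat_lit 8) (.e (nat_lit 557093) (nat_lit 12) .nil))))) .nil)) 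
(.lf (nat_lit 253636) (.g (nat_lit 475) (.e (nat_lit 163933) (nat_lit 17) (.e (nat_lit 466971) (nat_lit 21) (.e (nat_lit 164321) (nat_lit 229) .nil))) .nil))) (.nd (nat_lit 6) 
(.lf (nat_lit 253604) (.g (nat_lit 1993) (.e (nat_lit 163931) (nat_lit 17) (.e (nat_lit 466947) (nat_lit 0) (.e (nat_lit 2173) (nat_lit 143) (.e (nat_lit 712755) (nat_lit 30) (.e (nat_lit 458496) (nat_lit 0) (.e (nat_lit 5589) (nat_lit 310) .nil)))))) (.g (nat_lit 4) .nil .nil))) 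
(.lf (nat_lit 253668) (.g (nat_lit 1503) (.e (nat_lit 163941) (nat_lit 19) (.e (nat_lit 483380) (nat_lit 23) (.e (nat_lit 336316) (nat_lit 17) .nil))) .nil)))) (.nd (nat_lit 5) (.nd (nat_lit 6) 
(.lf (nat_lit 253588) (.g (nat_lit 5691) (.e (nat_lit 163927) (nat_lit 16) (.e (nat_lit 458789) (nat_lit 23) (.e (nat_lit 532550) (nat_lit 12) (.e (nat_lit 360475) (nat_lit 8) (.e (nat_lit 557091) (nat_lit 12) (.e (nat_lit 163844) (nat_lit 0) (.e (nat_lit 6416) (nat_lit 341) .nil))))))) (.g (nat_lit 5) .nil .nil))) 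
(.lf (nat_lit 253652) (.g (nat_lit 677) (.e (nat_lit 163938) (nat_lit 18) (.e (nat_lit 475185) (nat_lit 29) (.e (nat_lit 564992) (nat_lit 2) .nil))) .nil))) (.nd (nat_lit 6) 
(.lf (nat_lit 253620) (.g (nat_lit 2074) (.e (nat_lit 163933) (nat_lit 17) (.e (nat_lit 466947) (nat_lit 0) (.e (nat_lit 2160) (nat_lit 143) (.e (nat_lit 712755) (nat_lit 30) (.e (nat_lit 450562) (nat_lit 0) (.e (nat_lit 7936) (nat_lit 310) .nil)))))) (.g (nat_lit 5) .nil .nil))) 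
(.lf (nat_lit 253684) (.g (nat_lit 1262) (.e (nat_lit 163945) (nat_lit 20) (.e (nat_lit 491566) (nat_lit 12) (.e (nat_lit 385092) (nat_lit 49) (.e (nat_lit 778326) (nat_lit 6) .nil)))) .nil))))) (.nd (nat_lit 4) (.nd (nat_lit 5) (.nd (nat_lit 6) 
(.lf (nat_lit 253580) (.g (nat_lit 4912) (.e (nat_lit 163927) (nat_lit 16) (.e (nat_lit 458789) (nat_lit 23) (.e (nat_lit 532550) (nat_lit 12) (.e (nat_lit 360474) (nat_lit 8) (.e (nat_lit 557093) (nat_lit 12) (.e (nat_lit 163849) (nat_lit 0) (.e (nat_lit 6420) (nat_lit 341) .nil))))))) (.g (nat_lit 5) .nil .nil))) 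
(.lf (nat_lit 253644) (.g (nat_lit 952) (.e (nat_lit 163935) (nat_lit 18) (.e (nat_lit 475179) (nat_lit 24) (.e (nat_lit 516146) (nat_lit 9) .nil))) .nil))) (.nd (nat_lit 6) 
(.lf (nat_lit 253612) (.g (nat_lit 1293) (.e (nat_lit 163932) (nat_lit 17) (.e (nat_lit 466947) (nat_lit 0) (.e (nat_lit 2175) (nat_lit 143) (.e (nat_lit 712753) (nat_lit 30) (.e (nat_lit 458496) (nat_lit 0) .nil))))) .nil)) 
(.lf (nat_lit 253676) (.g (nat_lit 672) (.e (nat_lit 163943) (nat_lit 19) (.e (nat_lit 483346) (nat_lit 17) (.e (nat_lit 974) (nat_lit 81) .nil))) .nil)))) (.nd (nat_lit 5) (.nd (nat_lit 6) 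
(.lf (nat_lit 253596) (.g (nat_lit 1577) (.e (nat_lit 163931) (nat_lit 17) (.e (nat_lit 466947) (nat_lit 0) (.e (nat_lit 2160) (nat_lit 143) (.e (nat_lit 712755) (nat_lit 30) (.e (nat_lit 450562) (nat_lit 0) (.e (nat_lit 7936) (nat_lit 310) .nil)))))) (.g (nat_lit 4) .nil .nil))) 
(.lf (nat_lit 253660) (.g (nat_lit 1674) (.e (nat_lit 163939) (nat_lit 18) (.e (nat_lit 475185) (nat_lit 29) (.e (nat_lit 557068) (nat_lit 9) (.e (nat_lit 353) (nat_lit 29) .nil)))) .nil))) (.nd (nat_lit 6) 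
(.lf (nat_lit 253628) (.g (nat_lit 1953) (.e (nat_lit 163933) (nat_lit 17) (.e (nat_lit 466947) (nat_lit 0) (.e (nat_lit 2173) (nat_lit 143) (.e (nat_lit 712755) (nat_lit 30) (.e (nat_lit 458496) (nat_lit 0) (.e (nat_lit 5586) (nat_lit 310) .nil)))))) (.g (nat_lit 4) .nil .nil))) 
(.lf (nat_lit 253692) (.g (nat_lit 2382) (.e (nat_lit 163945) (nat_lit 20) (.e (nat_lit 491566) (nat_lit 12) (.e (nat_lit 385105) (nat_lit 50) (.e (nat_lit 786483) (nat_lit 30) (.e (nat_lit 360457) (nat_lit 0) (.e (nat_lit 5596) (nat_lit 310) .nil)))))) (.g (nat_lit 4) .nil .nil)))))))) (.nd (nat_lit 2) (.nd (nat_lit 3) (.nd (nat_lit 4) (.nd (nat_lit 5) (.nd (nat_lit 6) 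
(.lf (nat_lit 253570) (.g (nat_lit 3281) (.e (nat_lit 163927) (nat_lit 16) (.e (nat_lit 458789) (nat_lit 23) (.e (nat_lit 532549) (nat_lit 12) (.e (nat_lit 360473) (nat_lit 8) (.e (nat_lit 557091) (nat_lit 12) (.e (nat_lit 163847) (nat_lit 0) (.e (nat_lit 6416) (nat_lit 341) .nil))))))) (.g (nat_lit 5) .nil .nil))) 
(.lf (nat_lit 253634) (.g (nat_lit 2866) (.e (nat_lit 163933) (nat_lit 17) (.e (nat_lit 466971) (nat_lit 21) (.e (nat_lit 164196) (nat_lit 158) (.e (nat_lit 1221) (nat_lit 90) (.e (nat_lit 81959) (nat_lit 24) (.e (nat_lit 130816) (nat_lit 126) .nil)))))) (.g (nat_lit 5) .nil .nil)))) (.nd (nat_lit 6) 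
(.lf (nat_lit 253602) (.g (nat_lit 1510) (.e (nat_lit 163931) (nat_lit 17) (.e (nat_lit 466947) (nat_lit 0) (.e (nat_lit 2172) (nat_lit 143) (.e (nat_lit 712755) (nat_lit 30) (.e (nat_lit 458496) (nat_lit 0) (.e (nat_lit 5587) (nat_lit 310) .nil)))))) (.g (nat_lit 4) .nil .nil))) 
(.lf (nat_lit 253666) (.g (nat_lit 1718) (.e (nat_lit 163941) (nat_lit 19) (.e (nat_lit 483341) (nat_lit 9) (.e (nat_lit 426011) (nat_lit 0) (.e (nat_lit 7376) (nat_lit 389) .nil)))) .nil)))) (.nd (nat_lit 5) (.nd (nat_lit 6) 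
(.lf (nat_lit 253586) (.g (nat_lit 4608) (.e (nat_lit 163927) (nat_lit 16) (.e (nat_lit 458789) (nat_lit 23) (.e (nat_lit 532550) (nat_lit 12) (.e (nat_lit 360475) (nat_lit 8) (.e (nat_lit 557091) (nat_lit 12) .nil))))) .nil)) 
(.lf (nat_lit 253650) (.g (nat_lit 1559) (.e (nat_lit 163938) (nat_lit 18) (.e (nat_lit 475179) (nat_lit 24) (.e (nat_lit 516131) (nat_lit 3) (.e (nat_lit 221219) (nat_lit 24) .nil)))) .nil))) (.nd (nat_lit 6) 
(.lf (nat_lit 253618) (.g (nat_lit 2786) (.e (nat_lit 163933) (nat_lit 17) (.e (nat_lit 466947) (nat_lit 0) (.e (nat_lit 1856) (nat_lit 124) (.e (nat_lit 557109) (nat_lit 15) (.e (nat_lit 188455) (nat_lit 24) (.e (nat_lit 237312) (nat_lit 138) .nil)))))) (.g (nat_lit 4) .nil .nil))) 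
(.lf (nat_lit 253682) (.g (nat_lit 2802) (.e (nat_lit 163945) (nat_lit 20) (.e (nat_lit 491540) (nat_lit 3) (.e (nat_lit 98373) (nat_lit 29) (.e (nat_lit 450587) (nat_lit 10) (.e (nat_lit 573475) (nat_lit 12) (.e (nat_lit 57345) (nat_lit 0) (.e (nat_lit 6938) (nat_lit 375) .nil))))))) (.g (nat_lit 5) .nil .nil)))))) (.nd (nat_lit 4) (.nd (nat_lit 5) (.nd (nat_lit 6) 
(.lf (nat_lit 253578) (.g (nat_lit 4821) (.e (nat_lit 163927) (nat_lit 16) (.e (nat_lit 458789) (nat_lit 23) (.e (nat_lit 532549) (nat_lit 12) (.e (nat_lit 360475) (nat_lit 8) (.e (nat_lit 557091) (nat_lit 12) (.e (nat_lit 163843) (nat_lit 0) (.e (nat_lit 6420) (nat_lit 341) .nil))))))) (.g (nat_lit 5) .nil .nil))) 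
(.lf (nat_lit 253642) (.g (nat_lit 708) (.e (nat_lit 163933) (nat_lit 17) (.e (nat_lit 466972) (nat_lit 21) (.e (nat_lit 164313) (nat_lit 226) .nil))) .nil))) (.nd (nat_lit 6) 
(.lf (nat_lit 253610) (.g (nat_lit 1874) (.e (nat_lit 163932) (nat_lit 17) (.e (nat_lit 466947) (nat_lit 0) (.e (nat_lit 2173) (nat_lit 143) (.e (nat_lit 712755) (nat_lit 30) (.e (nat_lit 458496) (nat_lit 0) (.e (nat_lit 5604) (nat_lit 310) .nil)))))) (.g (nat_lit 4) .nil .nil))) 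
(.lf (nat_lit 253674) (.g (nat_lit 1723) (.e (nat_lit 163942) (nat_lit 19) (.e (nat_lit 483341) (nat_lit 9) (.e (nat_lit 426200) (nat_lit 9) (.e (nat_lit 426360) (nat_lit 15) (.e (nat_lit 1799) (nat_lit 119) (.e (nat_lit 516117) (nat_lit 1) (.e (nat_lit 164329) (nat_lit 230) .nil))))))) (.g (nat_lit 4) .nil .nil))))) (.nd (nat_lit 5) (.nd (nat_lit 6) 
(.lf (nat_lit 253594) (.g (nat_lit 3369) (.e (nat_lit 163931) (nat_lit 17) (.e (nat_lit 466947) (nat_lit 0) (.e (nat_lit 1855) (nat_lit 124) (.e (nat_lit 557109) (nat_lit 15) (.e (nat_lit 188455) (nat_lit 24) (.e (nat_lit 237312) (nat_lit 138) .nil)))))) (.g (nat_lit 5) .nil .nil))) 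
(.lf (nat_lit 253658) (.g (nat_lit 1421) (.e (nat_lit 163939) (nat_lit 18) (.e (nat_lit 475185) (nat_lit 29) (.e (nat_lit 564992) (nat_lit 2) (.e (nat_lit 16465) (nat_lit 13) (.e (nat_lit 483365) (nat_lit 18) .nil))))) .nil))) (.nd (nat_lit 6) 
(.lf (nat_lit 253626) (.g (nat_lit 2634) (.e (nat_lit 163933) (nat_lit 17) (.e (nat_lit 466947) (nat_lit 0) (.e (nat_lit 2173) (nat_lit 143) (.e (nat_lit 712755) (nat_lit 30) (.e (nat_lit 450562) (nat_lit 0) (.e (nat_lit 7936) (nat_lit 310) .nil)))))) (.g (nat_lit 5) .nil .nil))) 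
(.lf (nat_lit 253690) (.g (nat_lit 769) (.e (nat_lit 163945) (nat_lit 20) (.e (nat_lit 491566) (nat_lit 12) (.e (nat_lit 385105) (nat_lit 50) .nil))) .nil)))))) (.nd (nat_lit 3) (.nd (nat_lit 4) (.nd (nat_lit 5) (.nd (nat_lit 6) 
(.lf (nat_lit 253574) (.g (nat_lit 2687) (.e (nat_lit 163927) (nat_lit 16) (.e (nat_lit 458789) (nat_lit 23) (.e (nat_lit 532549) (nat_lit 12) (.e (nat_lit 360473) (nat_lit 8) (.e (nat_lit 557094) (nat_lit 12) (.e (nat_lit 163847) (nat_lit 0) (.e (nat_lit 6416) (nat_lit 341) .nil))))))) (.g (nat_lit 4) .nil .nil))) 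
(.lf (nat_lit 253638) (.g (nat_lit 2227) (.e (nat_lit 163933) (nat_lit 17) (.e (nat_lit 466971) (nat_lit 21) (.e (nat_lit 164321) (nat_lit 229) (.e (nat_lit 122919) (nat_lit 15) (.e (nat_lit 368384) (nat_lit 0) (.e (nat_lit 5222) (nat_lit 296) .nil)))))) (.g (nat_lit 4) .nil .nil)))) (.nd (nat_lit 6) 
(.lf (nat_lit 253606) (.g (nat_lit 1980) (.e (nat_lit 163931) (nat_lit 17) (.e (nat_lit 466947) (nat_lit 0) (.e (nat_lit 2175) (nat_lit 143) (.e (nat_lit 712755) (nat_lit 30) (.e (nat_lit 458496) (nat_lit 0) (.e (nat_lit 5586) (nat_lit 310) .nil)))))) (.g (nat_lit 4) .nil .nil))) 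
(.lf (nat_lit 253670) (.g (nat_lit 1079) (.e (nat_lit 163941) (nat_lit 19) (.e (nat_lit 483398) (nat_lit 25) (.e (nat_lit 368676) (nat_lit 21) (.e (nat_lit 516198) (nat_lit 26) .nil)))) .nil)))) (.nd (nat_lit 5) (.nd (nat_lit 6) 
(.lf (nat_lit 253590) (.g (nat_lit 876) (.e (nat_lit 163928) (nat_lit 16) (.e (nat_lit 458774) (nat_lit 18) (.e (nat_lit 6272) (nat_lit 337) .nil))) .nil)) 
(.lf (nat_lit 253654) (.g (nat_lit 1973) (.e (nat_lit 163938) (nat_lit 18) (.e (nat_lit 475185) (nat_lit 29) (.e (nat_lit 557093) (nat_lit 12) (.e (nat_lit 171776) (nat_lit 192) .nil)))) .nil))) (.nd (nat_lit 6) 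
(.lf (nat_lit 253622) (.g (nat_lit 1315) (.e (nat_lit 163933) (nat_lit 17) (.e (nat_lit 466947) (nat_lit 0) (.e (nat_lit 2160) (nat_lit 143) (.e (nat_lit 712755) (nat_lit 30) (.e (nat_lit 458496) (nat_lit 0) .nil))))) .nil)) 
(.lf (nat_lit 253686) (.g (nat_lit 1270) (.e (nat_lit 163945) (nat_lit 20) (.e (nat_lit 491566) (nat_lit 12) (.e (nat_lit 385093) (nat_lit 49) (.e (nat_lit 778327) (nat_lit 6) .nil)))) .nil))))) (.nd (nat_lit 4) (.nd (nat_lit 5) (.nd (nat_lit 6) 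
(.lf (nat_lit 253582) (.g (nat_lit 4480) (.e (nat_lit 163927) (nat_lit 16) (.e (nat_lit 458789) (nat_lit 23) (.e (nat_lit 532550) (nat_lit 12) (.e (nat_lit 360474) (nat_lit 8) (.e (nat_lit 557094) (nat_lit 12) (.e (nat_lit 163849) (nat_lit 0) (.e (nat_lit 6416) (nat_lit 341) .nil))))))) (.g (nat_lit 4) .nil .nil))) 
(.lf (nat_lit 253646) (.g (nat_lit 1191) (.e (nat_lit 163936) (nat_lit 18) (.e (nat_lit 475179) (nat_lit 24) (.e (nat_lit 516176) (nat_lit 14) (.e (nat_lit 466972) (nat_lit 21) .nil)))) .nil))) (.nd (nat_lit 6) 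
(.lf (nat_lit 253614) (.g (nat_lit 3172) (.e (nat_lit 163932) (nat_lit 17) (.e (nat_lit 466972) (nat_lit 21) (.e (nat_lit 164320) (nat_lit 229) (.e (nat_lit 122916) (nat_lit 14) (.e (nat_lit 352309) (nat_lit 21) (.e (nat_lit 57857) (nat_lit 254) .nil)))))) (.g (nat_lit 0) .nil .nil))) 
(.lf (nat_lit 253678) (.g (nat_lit 2479) (.e (nat_lit 163943) (nat_lit 19) (.e (nat_lit 483393) (nat_lit 23) (.e (nat_lit 336021) (nat_lit 3) (.e (nat_lit 98317) (nat_lit 9) (.e (nat_lit 335987) (nat_lit 1) .nil))))) .nil)))) (.nd (nat_lit 5) (.nd (nat_lit 6) 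
(.lf (nat_lit 253598) (.g (nat_lit 1559) (.e (nat_lit 163931) (nat_lit 17) (.e (nat_lit 466947) (nat_lit 0) (.e (nat_lit 2160) (nat_lit 143) (.e (nat_lit 712755) (nat_lit 30) (.e (nat_lit 458496) (nat_lit 0) (.e (nat_lit 5586) (nat_lit 310) .nil)))))) (.g (nat_lit 4) .nil .nil))) 
(.lf (nat_lit 253662) (.g (nat_lit 1761) (.e (nat_lit 163939) (nat_lit 18) (.e (nat_lit 475185) (nat_lit 29) (.e (nat_lit 557073) (nat_lit 9) (.e (nat_lit 353) (nat_lit 29) .nil)))) .nil))) (.nd (nat_lit 6) 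
(.lf (nat_lit 253630) (.g (nat_lit 1825) (.e (nat_lit 163933) (nat_lit 17) (.e (nat_lit 466947) (nat_lit 0) (.e (nat_lit 2175) (nat_lit 143) (.e (nat_lit 712755) (nat_lit 30) (.e (nat_lit 450562) (nat_lit 0) (.e (nat_lit 7936) (nat_lit 310) .nil)))))) (.g (nat_lit 4) .nil .nil))) 
(.lf (nat_lit 253694) (.g (nat_lit 3124) (.e (nat_lit 163945) (nat_lit 20) (.e (nat_lit 491566) (nat_lit 12) (.e (nat_lit 385105) (nat_lit 50) (.e (nat_lit 786483) (nat_lit 30) (.e (nat_lit 360457) (nat_lit 0) (.e (nat_lit 5599) (nat_lit 310) .nil)))))) (.g (nat_lit 5) .nil .nil))))))))) (.nd (nat_lit 1) (.nd (nat_lit 2) (.nd (nat_lit 3) (.nd (nat_lit 4) (.nd (nat_lit 5) (.nd (nat_lit 6) 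
(.lf (nat_lit 253569) (.g (nat_lit 3277) (.e (nat_lit 163927) (nat_lit 16) (.e (nat_lit 458789) (nat_lit 23) (.e (nat_lit 532549) (nat_lit 12) (.e (nat_lit 360473) (nat_lit 8) (.e (nat_lit 557089) (nat_lit 12) (.e (nat_lit 163849) (nat_lit 0) (.e (nat_lit 6421) (nat_lit 341) .nil))))))) (.g (nat_lit 5) .nil .nil))) 
(.lf (nat_lit 253633) (.g (nat_lit 1717) (.e (nat_lit 163933) (nat_lit 17) (.e (nat_lit 466947) (nat_lit 0) (.e (nat_lit 2175) (nat_lit 143) (.e (nat_lit 712755) (nat_lit 30) (.e (nat_lit 458496) (nat_lit 0) (.e (nat_lit 5591) (nat_lit 310) .nil)))))) (.g (nat_lit 4) .nil .nil)))) (.nd (nat_lit 6) 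
(.lf (nat_lit 253601) (.g (nat_lit 1409) (.e (nat_lit 163931) (nat_lit 17) (.e (nat_lit 466947) (nat_lit 0) (.e (nat_lit 2172) (nat_lit 143) (.e (nat_lit 712755) (nat_lit 30) (.e (nat_lit 458496) (nat_lit 0) (.e (nat_lit 5586) (nat_lit 310) .nil)))))) (.g (nat_lit 4) .nil .nil))) 
(.lf (nat_lit 253665) (.g (nat_lit 1310) (.e (nat_lit 171776) (nat_lit 18) (.e (nat_lit 475179) (nat_lit 24) (.e (nat_lit 516150) (nat_lit 9) (.e (nat_lit 426323) (nat_lit 13) .nil)))) .nil)))) (.nd (nat_lit 5) (.nd (nat_lit 6) 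
(.lf (nat_lit 253585) (.g (nat_lit 5342) (.e (nat_lit 163927) (nat_lit 16) (.e (nat_lit 458789) (nat_lit 23) (.e (nat_lit 532550) (nat_lit 12) (.e (nat_lit 360475) (nat_lit 8) (.e (nat_lit 557089) (nat_lit 12) (.e (nat_lit 163848) (nat_lit 0) (.e (nat_lit 6416) (nat_lit 341) .nil))))))) (.g (nat_lit 5) .nil .nil))) 
(.lf (nat_lit 253649) (.g (nat_lit 1146) (.e (nat_lit 163938) (nat_lit 18) (.e (nat_lit 475178) (nat_lit 24) (.e (nat_lit 516176) (nat_lit 14) (.e (nat_lit 466954) (nat_lit 11) .nil)))) .nil))) (.nd (nat_lit 6) 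
(.lf (nat_lit 253617) (.g (nat_lit 3888) (.e (nat_lit 163933) (nat_lit 17) (.e (nat_lit 466947) (nat_lit 0) (.e (nat_lit 1855) (nat_lit 124) (.e (nat_lit 557109) (nat_lit 15) (.e (nat_lit 188455) (nat_lit 24) (.e (nat_lit 237312) (nat_lit 138) .nil)))))) (.g (nat_lit 5) .nil .nil))) 
(.lf (nat_lit 253681) (.g (nat_lit 2431) (.e (nat_lit 163944) (nat_lit 19) (.e (nat_lit 483393) (nat_lit 23) (.e (nat_lit 336021) (nat_lit 3) (.e (nat_lit 98317) (nat_lit 9) (.e (nat_lit 335987) (nat_lit 1) .nil))))) .nil))))) (.nd (nat_lit 4) (.nd (nat_lit 5) (.nd (nat_lit 6) 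
(.lf (nat_lit 253577) (.g (nat_lit 2618) (.e (nat_lit 163927) (nat_lit 16) (.e (nat_lit 458789) (nat_lit 23) (.e (nat_lit 532549) (nat_lit 12) (.e (nat_lit 360474) (nat_lit 8) (.e (nat_lit 557093) (nat_lit 12) .nil))))) .nil)) 
(.lf (nat_lit 253641) (.g (nat_lit 701) (.e (nat_lit 163933) (nat_lit 17) (.e (nat_lit 466972) (nat_lit 21) (.e (nat_lit 164304) (nat_lit 226) .nil))) .nil))) (.nd (nat_lit 6) 
(.lf (nat_lit 253609) (.g (nat_lit 929) (.e (nat_lit 163932) (nat_lit 17) (.e (nat_lit 466947) (nat_lit 0) (.e (nat_lit 2173) (nat_lit 143) (.e (nat_lit 712753) (nat_lit 30) (.e (nat_lit 458496) (nat_lit 0) .nil))))) .nil)) 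
(.lf (nat_lit 253673) (.g (nat_lit 1662) (.e (nat_lit 163942) (nat_lit 19) (.e (nat_lit 483341) (nat_lit 9) (.e (nat_lit 426200) (nat_lit 9) (.e (nat_lit 426354) (nat_lit 15) (.e (nat_lit 1781) (nat_lit 119) (.e (nat_lit 516120) (nat_lit 1) (.e (nat_lit 164329) (nat_lit 230) .nil))))))) (.g (nat_lit 4) .nil .nil))))) (.nd (nat_lit 5) (.nd (nat_lit 6) 
(.lf (nat_lit 253593) (.g (nat_lit 1040) (.e (nat_lit 163931) (nat_lit 17) (.e (nat_lit 466945) (nat_lit 0) (.e (nat_lit 2160) (nat_lit 143) (.e (nat_lit 712755) (nat_lit 30) (.e (nat_lit 458496) (nat_lit 0) .nil))))) .nil)) 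
(.lf (nat_lit 253657) (.g (nat_lit 890) (.e (nat_lit 163938) (nat_lit 18) (.e (nat_lit 475214) (nat_lit 42) (.e (nat_lit 720931) (nat_lit 21) .nil))) .nil))) (.nd (nat_lit 6) 
(.lf (nat_lit 253625) (.g (nat_lit 1527) (.e (nat_lit 163933) (nat_lit 17) (.e (nat_lit 466947) (nat_lit 0) (.e (nat_lit 2173) (nat_lit 143) (.e (nat_lit 712753) (nat_lit 30) (.e (nat_lit 458496) (nat_lit 0) (.e (nat_lit 5586) (nat_lit 310) .nil)))))) (.g (nat_lit 4) .nil .nil))) 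
(.lf (nat_lit 253689) (.g (nat_lit 2428) (.e (nat_lit 163945) (nat_lit 20) (.e (nat_lit 491566) (nat_lit 12) (.e (nat_lit 385104) (nat_lit 50) (.e (nat_lit 786483) (nat_lit 30) (.e (nat_lit 360457) (nat_lit 0) (.e (nat_lit 5599) (nat_lit 310) .nil)))))) (.g (nat_lit 4) .nil .nil))))))) (.nd (nat_lit 3) (.nd (nat_lit 4) (.nd (nat_lit 5) (.nd (nat_lit 6) 
(.lf (nat_lit 253573) (.g (nat_lit 2433) (.e (nat_lit 163927) (nat_lit 16) (.e (nat_lit 458789) (nat_lit 23) (.e (nat_lit 532549) (nat_lit 12) (.e (nat_lit 360473) (nat_lit 8) (.e (nat_lit 557094) (nat_lit 12) .nil))))) .nil)) 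
(.lf (nat_lit 253637) (.g (nat_lit 3065) (.e (nat_lit 163933) (nat_lit 17) (.e (nat_lit 466971) (nat_lit 21) (.e (nat_lit 164321) (nat_lit 229) (.e (nat_lit 122916) (nat_lit 14) (.e (nat_lit 352309) (nat_lit 21) (.e (nat_lit 57857) (nat_lit 254) .nil)))))) (.g (nat_lit 6) .nil .nil)))) (.nd (nat_lit 6) 
(.lf (nat_lit 253605) (.g (nat_lit 1741) (.e (nat_lit 163931) (nat_lit 17) (.e (nat_lit 466947) (nat_lit 0) (.e (nat_lit 2173) (nat_lit 143) (.e (nat_lit 712755) (nat_lit 30) (.e (nat_lit 458496) (nat_lit 0) (.e (nat_lit 5603) (nat_lit 310) .nil)))))) (.g (nat_lit 4) .nil .nil))) 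
(.lf (nat_lit 253669) (.g (nat_lit 1544) (.e (nat_lit 163941) (nat_lit 19) (.e (nat_lit 483385) (nat_lit 23) (.e (nat_lit 336240) (nat_lit 15) (.e (nat_lit 3200) (nat_lit 194) .nil)))) .nil)))) (.nd (nat_lit 5) (.nd (nat_lit 6) 
(.lf (nat_lit 253589) (.g (nat_lit 5836) (.e (nat_lit 163927) (nat_lit 16) (.e (nat_lit 458789) (nat_lit 23) (.e (nat_lit 532550) (nat_lit 12) (.e (nat_lit 360475) (nat_lit 8) (.e (nat_lit 557091) (nat_lit 12) (.e (nat_lit 163847) (nat_lit 0) (.e (nat_lit 6420) (nat_lit 341) .nil))))))) (.g (nat_lit 0) .nil .nil))) 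
(.lf (nat_lit 253653) (.g (nat_lit 1997) (.e (nat_lit 163938) (nat_lit 18) (.e (nat_lit 475185) (nat_lit 29) (.e (nat_lit 557072) (nat_lit 9) (.e (nat_lit 353) (nat_lit 29) .nil)))) .nil))) (.nd (nat_lit 6) 
(.lf (nat_lit 253621) (.g (nat_lit 2465) (.e (nat_lit 163933) (nat_lit 17) (.e (nat_lit 466947) (nat_lit 0) (.e (nat_lit 2160) (nat_lit 143) (.e (nat_lit 712755) (nat_lit 30) (.e (nat_lit 450563) (nat_lit 0) (.e (nat_lit 7936) (nat_lit 310) .nil)))))) (.g (nat_lit 5) .nil .nil))) 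
(.lf (nat_lit 253685) (.g (nat_lit 1448) (.e (nat_lit 163945) (nat_lit 20) (.e (nat_lit 491566) (nat_lit 12) (.e (nat_lit 385093) (nat_lit 49) (.e (nat_lit 778326) (nat_lit 6) .nil)))) .nil))))) (.nd (nat_lit 4) (.nd (nat_lit 5) (.nd (nat_lit 6) 
(.lf (nat_lit 253581) (.g (nat_lit 4398) (.e (nat_lit 163927) (nat_lit 16) (.e (nat_lit 458789) (nat_lit 23) (.e (nat_lit 532550) (nat_lit 12) (.e (nat_lit 360474) (nat_lit 8) (.e (nat_lit 557094) (nat_lit 12) .nil))))) .nil)) 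
(.lf (nat_lit 253645) (.g (nat_lit 1602) (.e (nat_lit 163936) (nat_lit 18) (.e (nat_lit 475179) (nat_lit 24) (.e (nat_lit 516146) (nat_lit 9) (.e (nat_lit 426323) (nat_lit 13) .nil)))) .nil))) (.nd (nat_lit 6) 
(.lf (nat_lit 253613) (.g (nat_lit 1339) (.e (nat_lit 163932) (nat_lit 17) (.e (nat_lit 466947) (nat_lit 0) (.e (nat_lit 2175) (nat_lit 143) (.e (nat_lit 712755) (nat_lit 30) (.e (nat_lit 458496) (nat_lit 0) .nil))))) .nil)) 
(.lf (nat_lit 253677) (.g (nat_lit 1141) (.e (nat_lit 163943) (nat_lit 19) (.e (nat_lit 483363) (nat_lit 18) (.e (nat_lit 57688) (nat_lit 156) .nil))) .nil)))) (.nd (nat_lit 5) (.nd (nat_lit 6) 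
(.lf (nat_lit 253597) (.g (nat_lit 2272) (.e (nat_lit 163931) (nat_lit 17) (.e (nat_lit 466947) (nat_lit 0) (.e (nat_lit 2160) (nat_lit 143) (.e (nat_lit 712755) (nat_lit 30) (.e (nat_lit 450563) (nat_lit 0) (.e (nat_lit 7936) (nat_lit 310) .nil)))))) (.g (nat_lit 5) .nil .nil))) 
(.lf (nat_lit 253661) (.g (nat_lit 1905) (.e (nat_lit 163939) (nat_lit 18) (.e (nat_lit 475185) (nat_lit 29) (.e (nat_lit 557072) (nat_lit 9) (.e (nat_lit 353) (nat_lit 29) .nil)))) .nil))) (.nd (nat_lit 6) 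
(.lf (nat_lit 253629) (.g (nat_lit 1855) (.e (nat_lit 163933) (nat_lit 17) (.e (nat_lit 466947) (nat_lit 0) (.e (nat_lit 2173) (nat_lit 143) (.e (nat_lit 712755) (nat_lit 30) (.e (nat_lit 458496) (nat_lit 0) (.e (nat_lit 5591) (nat_lit 310) .nil)))))) (.g (nat_lit 4) .nil .nil))) 
(.lf (nat_lit 253693) (.g (nat_lit 2999) (.e (nat_lit 163945) (nat_lit 20) (.e (nat_lit 491566) (nat_lit 12) (.e (nat_lit 385105) (nat_lit 50) (.e (nat_lit 786483) (nat_lit 30) (.e (nat_lit 360457) (nat_lit 0) (.e (nat_lit 5598) (nat_lit 310) .nil)))))) (.g (nat_lit 5) .nil .nil)))))))) (.nd (nat_lit 2) (.nd (nat_lit 3) (.nd (nat_lit 4) (.nd (nat_lit 5) (.nd (nat_lit 6) 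
(.lf (nat_lit 253571) (.g (nat_lit 3461) (.e (nat_lit 163927) (nat_lit 16) (.e (nat_lit 458789) (nat_lit 23) (.e (nat_lit 532549) (nat_lit 12) (.e (nat_lit 360473) (nat_lit 8) (.e (nat_lit 557091) (nat_lit 12) (.e (nat_lit 163847) (nat_lit 0) (.e (nat_lit 6421) (nat_lit 341) .nil))))))) (.g (nat_lit 5) .nil .nil))) 
(.lf (nat_lit 253635) (.g (nat_lit 3036) (.e (nat_lit 163933) (nat_lit 17) (.e (nat_lit 466971) (nat_lit 21) (.e (nat_lit 164320) (nat_lit 229) (.e (nat_lit 122916) (nat_lit 14) (.e (nat_lit 352309) (nat_lit 21) (.e (nat_lit 57857) (nat_lit 254) .nil)))))) (.g (nat_lit 0) .nil .nil)))) (.nd (nat_lit 6) 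
(.lf (nat_lit 253603) (.g (nat_lit 2057) (.e (nat_lit 163931) (nat_lit 17) (.e (nat_lit 466947) (nat_lit 0) (.e (nat_lit 2173) (nat_lit 143) (.e (nat_lit 712755) (nat_lit 30) (.e (nat_lit 450562) (nat_lit 0) (.e (nat_lit 7936) (nat_lit 310) .nil)))))) (.g (nat_lit 5) .nil .nil))) 
(.lf (nat_lit 253667) (.g (nat_lit 1057) (.e (nat_lit 163941) (nat_lit 19) (.e (nat_lit 483363) (nat_lit 18) (.e (nat_lit 57688) (nat_lit 156) .nil))) .nil)))) (.nd (nat_lit 5) (.nd (nat_lit 6) 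
(.lf (nat_lit 253587) (.g (nat_lit 6354) (.e (nat_lit 163927) (nat_lit 16) (.e (nat_lit 458789) (nat_lit 23) (.e (nat_lit 532550) (nat_lit 12) (.e (nat_lit 360475) (nat_lit 8) (.e (nat_lit 557091) (nat_lit 12) (.e (nat_lit 163843) (nat_lit 0) (.e (nat_lit 6416) (nat_lit 341) .nil))))))) (.g (nat_lit 6) .nil .nil))) 
(.lf (nat_lit 253651) (.g (nat_lit 1589) (.e (nat_lit 163938) (nat_lit 18) (.e (nat_lit 475179) (nat_lit 24) (.e (nat_lit 516146) (nat_lit 9) (.e (nat_lit 426323) (nat_lit 13) .nil)))) .nil))) (.nd (nat_lit 6) 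
(.lf (nat_lit 253619) (.g (nat_lit 1493) (.e (nat_lit 163933) (nat_lit 17) (.e (nat_lit 466947) (nat_lit 0) (.e (nat_lit 2160) (nat_lit 143) (.e (nat_lit 712753) (nat_lit 30) (.e (nat_lit 458496) (nat_lit 0) (.e (nat_lit 5587) (nat_lit 310) .nil)))))) (.g (nat_lit 4) .nil .nil))) 
(.lf (nat_lit 253683) (.g (nat_lit 958) (.e (nat_lit 163945) (nat_lit 20) (.e (nat_lit 491565) (nat_lit 12) (.e (nat_lit 385102) (nat_lit 50) (.e (nat_lit 786483) (nat_lit 30) .nil)))) .nil))))) (.nd (nat_lit 4) (.nd (nat_lit 5) (.nd (nat_lit 6) 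
(.lf (nat_lit 253579) (.g (nat_lit 4432) (.e (nat_lit 163927) (nat_lit 16) (.e (nat_lit 458789) (nat_lit 23) (.e (nat_lit 532550) (nat_lit 12) (.e (nat_lit 360474) (nat_lit 8) (.e (nat_lit 557093) (nat_lit 12) (.e (nat_lit 163848) (nat_lit 0) (.e (nat_lit 6416) (nat_lit 341) .nil))))))) (.g (nat_lit 4) .nil .nil))) 
(.lf (nat_lit 253643) (.g (nat_lit 2854) (.e (nat_lit 163933) (nat_lit 17) (.e (nat_lit 466972) (nat_lit 21) (.e (nat_lit 164319) (nat_lit 228) (.e (nat_lit 57424) (nat_lit 14) (.e (nat_lit 352318) (nat_lit 24) (.e (nat_lit 123159) (nat_lit 254) .nil)))))) (.g (nat_lit 5) .nil .nil)))) (.nd (nat_lit 6) 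
(.lf (nat_lit 253611) (.g (nat_lit 1411) (.e (nat_lit 163932) (nat_lit 17) (.e (nat_lit 466947) (nat_lit 0) (.e (nat_lit 2175) (nat_lit 143) (.e (nat_lit 712752) (nat_lit 29) (.e (nat_lit 442428) (nat_lit 24) .nil))))) .nil)) 
(.lf (nat_lit 253675) (.g (nat_lit 856) (.e (nat_lit 163942) (nat_lit 19) (.e (nat_lit 483399) (nat_lit 25) (.e (nat_lit 368676) (nat_lit 21) (.e (nat_lit 516195) (nat_lit 26) .nil)))) .nil)))) (.nd (nat_lit 5) (.nd (nat_lit 6) 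
(.lf (nat_lit 253595) (.g (nat_lit 951) (.e (nat_lit 163931) (nat_lit 17) (.e (nat_lit 466947) (nat_lit 0) (.e (nat_lit 2024) (nat_lit 140) (.e (nat_lit 688186) (nat_lit 18) (.e (nat_lit 81959) (nat_lit 24) .nil))))) .nil)) 
(.lf (nat_lit 253659) (.g (nat_lit 1122) (.e (nat_lit 163939) (nat_lit 18) (.e (nat_lit 475185) (nat_lit 29) (.e (nat_lit 564992) (nat_lit 2) (.e (nat_lit 16468) (nat_lit 13) (.e (nat_lit 483365) (nat_lit 18) .nil))))) .nil))) (.nd (nat_lit 6) 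
(.lf (nat_lit 253627) (.g (nat_lit 2283) (.e (nat_lit 163933) (nat_lit 17) (.e (nat_lit 466947) (nat_lit 0) (.e (nat_lit 2173) (nat_lit 143) (.e (nat_lit 712755) (nat_lit 30) (.e (nat_lit 450563) (nat_lit 0) (.e (nat_lit 7936) (nat_lit 310) .nil)))))) (.g (nat_lit 5) .nil .nil))) 
(.lf (nat_lit 253691) (.g (nat_lit 3212) (.e (nat_lit 163945) (nat_lit 20) (.e (nat_lit 491566) (nat_lit 12) (.e (nat_lit 385105) (nat_lit 50) (.e (nat_lit 786483) (nat_lit 30) (.e (nat_lit 360450) (nat_lit 0) (.e (nat_lit 5595) (nat_lit 310) .nil)))))) (.g (nat_lit 5) .nil .nil))))))) (.nd (nat_lit 3) (.nd (nat_lit 4) (.nd (nat_lit 5) (.nd (nat_lit 6) 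
(.lf (nat_lit 253575) (.g (nat_lit 2599) (.e (nat_lit 163927) (nat_lit 16) (.e (nat_lit 458789) (nat_lit 23) (.e (nat_lit 532549) (nat_lit 12) (.e (nat_lit 360473) (nat_lit 8) (.e (nat_lit 557094) (nat_lit 12) (.e (nat_lit 163849) (nat_lit 0) (.e (nat_lit 6416) (nat_lit 341) .nil))))))) (.g (nat_lit 4) .nil .nil))) 
(.lf (nat_lit 253639) (.g (nat_lit 2845) (.e (nat_lit 163933) (nat_lit 17) (.e (nat_lit 466971) (nat_lit 21) (.e (nat_lit 164403) (nat_lit 256) (.e (nat_lit 57406) (nat_lit 12) (.e (nat_lit 336336) (nat_lit 20) (.e (nat_lit 229120) (nat_lit 1) (.e (nat_lit 57927) (nat_lit 282) .nil))))))) (.g (nat_lit 4) .nil .nil)))) (.nd (nat_lit 6) 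
(.lf (nat_lit 253607) (.g (nat_lit 2503) (.e (nat_lit 163932) (nat_lit 17) (.e (nat_lit 466947) (nat_lit 0) (.e (nat_lit 1855) (nat_lit 124) (.e (nat_lit 557109) (nat_lit 15) (.e (nat_lit 188455) (nat_lit 24) (.e (nat_lit 237312) (nat_lit 138) .nil)))))) (.g (nat_lit 4) .nil .nil))) 
(.lf (nat_lit 253671) (.g (nat_lit 800) (.e (nat_lit 163942) (nat_lit 19) (.e (nat_lit 483341) (nat_lit 9) (.e (nat_lit 426185) (nat_lit 9) .nil))) .nil)))) (.nd (nat_lit 5) (.nd (nat_lit 6) 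
(.lf (nat_lit 253591) (.g (nat_lit 5444) (.e (nat_lit 163928) (nat_lit 16) (.e (nat_lit 458789) (nat_lit 23) (.e (nat_lit 532550) (nat_lit 12) (.e (nat_lit 360475) (nat_lit 8) (.e (nat_lit 557089) (nat_lit 12) (.e (nat_lit 163843) (nat_lit 0) (.e (nat_lit 6416) (nat_lit 341) .nil))))))) (.g (nat_lit 5) .nil .nil))) 
(.lf (nat_lit 253655) (.g (nat_lit 753) (.e (nat_lit 163938) (nat_lit 18) (.e (nat_lit 475212) (nat_lit 42) (.e (nat_lit 728832) (nat_lit 1) .nil))) .nil))) (.nd (nat_lit 6) 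
(.lf (nat_lit 253623) (.g (nat_lit 1382) (.e (nat_lit 163933) (nat_lit 17) (.e (nat_lit 466947) (nat_lit 0) (.e (nat_lit 2160) (nat_lit 143) (.e (nat_lit 712755) (nat_lit 30) (.e (nat_lit 458496) (nat_lit 0) (.e (nat_lit 5587) (nat_lit 310) .nil)))))) (.g (nat_lit 4) .nil .nil))) 
(.lf (nat_lit 253687) (.g (nat_lit 784) (.e (nat_lit 163945) (nat_lit 20) (.e (nat_lit 491566) (nat_lit 12) (.e (nat_lit 385104) (nat_lit 50) .nil))) .nil))))) (.nd (nat_lit 4) (.nd (nat_lit 5) (.nd (nat_lit 6) 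
(.lf (nat_lit 253583) (.g (nat_lit 4574) (.e (nat_lit 163927) (nat_lit 16) (.e (nat_lit 458789) (nat_lit 23) (.e (nat_lit 532550) (nat_lit 12) (.e (nat_lit 360474) (nat_lit 8) (.e (nat_lit 557094) (nat_lit 12) (.e (nat_lit 163849) (nat_lit 0) (.e (nat_lit 6421) (nat_lit 341) .nil))))))) (.g (nat_lit 4) .nil .nil))) 
(.lf (nat_lit 253647) (.g (nat_lit 3141) (.e (nat_lit 163937) (nat_lit 18) (.e (nat_lit 475185) (nat_lit 29) (.e (nat_lit 557100) (nat_lit 13) (.e (nat_lit 172113) (nat_lit 10) .nil)))) .nil))) (.nd (nat_lit 6) 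
(.lf (nat_lit 253615) (.g (nat_lit 1440) (.e (nat_lit 163932) (nat_lit 17) (.e (nat_lit 466977) (nat_lit 22) (.e (nat_lit 196656) (nat_lit 11) (.e (nat_lit 16475) (nat_lit 15) .nil)))) .nil)) 
(.lf (nat_lit 253679) (.g (nat_lit 1790) (.e (nat_lit 163944) (nat_lit 19) (.e (nat_lit 483363) (nat_lit 18) (.e (nat_lit 57655) (nat_lit 152) (.e (nat_lit 1206) (nat_lit 89) .nil)))) .nil)))) (.nd (nat_lit 5) (.nd (nat_lit 6) 
(.lf (nat_lit 253599) (.g (nat_lit 1665) (.e (nat_lit 163931) (nat_lit 17) (.e (nat_lit 466947) (nat_lit 0) (.e (nat_lit 2160) (nat_lit 143) (.e (nat_lit 712755) (nat_lit 30) (.e (nat_lit 458496) (nat_lit 0) (.e (nat_lit 5587) (nat_lit 310) .nil)))))) (.g (nat_lit 4) .nil .nil))) 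
(.lf (nat_lit 253663) (.g (nat_lit 2124) (.e (nat_lit 163939) (nat_lit 18) (.e (nat_lit 475185) (nat_lit 29) (.e (nat_lit 557101) (nat_lit 13) (.e (nat_lit 172115) (nat_lit 10) .nil)))) .nil))) (.nd (nat_lit 6) 
(.lf (nat_lit 253631) (.g (nat_lit 1576) (.e (nat_lit 163933) (nat_lit 17) (.e (nat_lit 466947) (nat_lit 0) (.e (nat_lit 2175) (nat_lit 143) (.e (nat_lit 712755) (nat_lit 30) (.e (nat_lit 450563) (nat_lit 0) (.e (nat_lit 7936) (nat_lit 310) .nil)))))) (.g (nat_lit 4) .nil .nil))) 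
(.lf (nat_lit 253695) (.g (nat_lit 2986) (.e (nat_lit 163946) (nat_lit 20) (.e (nat_lit 491569) (nat_lit 13) (.e (nat_lit 393301) (nat_lit 27) (.e (nat_lit 491558) (nat_lit 10) (.e (nat_lit 344088) (nat_lit 18) .nil))))) .nil)))))))))

noncomputable def tv3289 : DT := (.nd (nat_lit 0) (.nd (nat_lit 1) (.nd (nat_lit 2) (.nd (nat_lit 3) (.nd (nat_lit 4) (.nd (nat_lit 5) 
(.lf (nat_lit 253696) (.g (nat_lit 2595) (.e (nat_lit 163946) (nat_lit 20) (.e (nat_lit 491569) (nat_lit 13) (.e (nat_lit 393301) (nat_lit 27) (.e (nat_lit 491558) (nat_lit 10) (.e (nat_lit 344090) (nat_lit 18) .nil))))) .nil)) 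
(.lf (nat_lit 253728) (.g (nat_lit 1383) (.e (nat_lit 163947) (nat_lit 20) (.e (nat_lit 491563) (nat_lit 12) (.e (nat_lit 385104) (nat_lit 50) .nil))) .nil))) (.nd (nat_lit 5) 
(.lf (nat_lit 253712) (.g (nat_lit 762) (.e (nat_lit 163947) (nat_lit 20) (.e (nat_lit 491558) (nat_lit 10) (.e (nat_lit 344169) (nat_lit 40) .nil))) .nil)) 
(.lf (nat_lit 253744) (.g (nat_lit 3580) (.e (nat_lit 163947) (nat_lit 20) (.e (nat_lit 491568) (nat_lit 13) (.e (nat_lit 393301) (nat_lit 27) (.e (nat_lit 491560) (nat_lit 10) (.e (nat_lit 344088) (nat_lit 18) (.e (nat_lit 6943) (nat_lit 375) .nil)))))) (.g (nat_lit 5) .nil .nil))))) (.nd (nat_lit 4) (.nd (nat_lit 5) 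
(.lf (nat_lit 253704) (.g (nat_lit 2798) (.e (nat_lit 163946) (nat_lit 20) (.e (nat_lit 491569) (nat_lit 13) (.e (nat_lit 393301) (nat_lit 27) (.e (nat_lit 491560) (nat_lit 10) (.e (nat_lit 344088) (nat_lit 18) (.e (nat_lit 6938) (nat_lit 375) .nil)))))) (.g (nat_lit 4) .nil .nil))) 
(.lf (nat_lit 253736) (.g (nat_lit 2186) (.e (nat_lit 163947) (nat_lit 20) (.e (nat_lit 491568) (nat_lit 13) (.e (nat_lit 393301) (nat_lit 27) (.e (nat_lit 491558) (nat_lit 10) (.e (nat_lit 344091) (nat_lit 18) (.e (nat_lit 6942) (nat_lit 375) .nil)))))) (.g (nat_lit 4) .nil .nil)))) (.nd (nat_lit 5) 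
(.lf (nat_lit 253720) (.g (nat_lit 849) (.e (nat_lit 163947) (nat_lit 20) (.e (nat_lit 491562) (nat_lit 12) (.e (nat_lit 385094) (nat_lit 49) .nil))) .nil)) 
(.lf (nat_lit 253752) (.g (nat_lit 2585) (.e (nat_lit 163947) (nat_lit 20) (.e (nat_lit 491569) (nat_lit 13) (.e (nat_lit 393301) (nat_lit 27) (.e (nat_lit 491558) (nat_lit 10) (.e (nat_lit 344090) (nat_lit 18) .nil))))) .nil))))) (.nd (nat_lit 3) (.nd (nat_lit 4) (.nd (nat_lit 5) 
(.lf (nat_lit 253700) (.g (nat_lit 3576) (.e (nat_lit 163946) (nat_lit 20) (.e (nat_lit 491569) (nat_lit 13) (.e (nat_lit 393301) (nat_lit 27) (.e (nat_lit 491559) (nat_lit 10) (.e (nat_lit 344091) (nat_lit 18) .nil))))) .nil)) 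
(.lf (nat_lit 253732) (.g (nat_lit 3208) (.e (nat_lit 163947) (nat_lit 20) (.e (nat_lit 491563) (nat_lit 12) (.e (nat_lit 385106) (nat_lit 50) (.e (nat_lit 786483) (nat_lit 30) (.e (nat_lit 360457) (nat_lit 0) .nil))))) .nil))) (.nd (nat_lit 5) 
(.lf (nat_lit 253716) (.g (nat_lit 586) (.e (nat_lit 163947) (nat_lit 20) (.e (nat_lit 491560) (nat_lit 10) (.e (nat_lit 344169) (nat_lit 40) .nil))) .nil)) 
(.lf (nat_lit 253748) (.g (nat_lit 2936) (.e (nat_lit 163947) (nat_lit 20) (.e (nat_lit 491568) (nat_lit 13) (.e (nat_lit 393301) (nat_lit 27) (.e (nat_lit 491560) (nat_lit 10) (.e (nat_lit 344091) (nat_lit 18) (.e (nat_lit 6938) (nat_lit 375) .nil)))))) (.g (nat_lit 4) .nil .nil))))) (.nd (nat_lit 4) (.nd (nat_lit 5) 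
(.lf (nat_lit 253708) (.g (nat_lit 2780) (.e (nat_lit 163947) (nat_lit 20) (.e (nat_lit 491540) (nat_lit 3) (.e (nat_lit 98373) (nat_lit 29) (.e (nat_lit 450587) (nat_lit 10) (.e (nat_lit 573475) (nat_lit 12) (.e (nat_lit 57345) (nat_lit 0) (.e (nat_lit 6938) (nat_lit 375) .nil))))))) (.g (nat_lit 5) .nil .nil))) 
(.lf (nat_lit 253740) (.g (nat_lit 3243) (.e (nat_lit 163947) (nat_lit 20) (.e (nat_lit 491568) (nat_lit 13) (.e (nat_lit 393301) (nat_lit 27) (.e (nat_lit 491560) (nat_lit 10) (.e (nat_lit 344087) (nat_lit 18) (.e (nat_lit 6942) (nat_lit 375) .nil)))))) (.g (nat_lit 4) .nil .nil)))) (.nd (nat_lit 5) 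
(.lf (nat_lit 253724) (.g (nat_lit 3316) (.e (nat_lit 163947) (nat_lit 20) (.e (nat_lit 491563) (nat_lit 12) (.e (nat_lit 385102) (nat_lit 50) (.e (nat_lit 786483) (nat_lit 30) (.e (nat_lit 360450) (nat_lit 0) (.e (nat_lit 5595) (nat_lit 310) .nil)))))) (.g (nat_lit 5) .nil .nil))) 
(.lf (nat_lit 253756) (.g (nat_lit 3107) (.e (nat_lit 163947) (nat_lit 20) (.e (nat_lit 491569) (nat_lit 13) (.e (nat_lit 393301) (nat_lit 27) (.e (nat_lit 491560) (nat_lit 10) (.e (nat_lit 344087) (nat_lit 18) .nil))))) .nil)))))) (.nd (nat_lit 2) (.nd (nat_lit 3) (.nd (nat_lit 4) (.nd (nat_lit 5) 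
(.lf (nat_lit 253698) (.g (nat_lit 2667) (.e (nat_lit 163946) (nat_lit 20) (.e (nat_lit 491569) (nat_lit 13) (.e (nat_lit 393301) (nat_lit 27) (.e (nat_lit 491558) (nat_lit 10) (.e (nat_lit 344091) (nat_lit 18) (.e (nat_lit 6942) (nat_lit 375) .nil)))))) (.g (nat_lit 4) .nil .nil))) 
(.lf (nat_lit 253730) (.g (nat_lit 1346) (.e (nat_lit 163947) (nat_lit 20) (.e (nat_lit 491563) (nat_lit 12) (.e (nat_lit 385106) (nat_lit 50) .nil))) .nil))) (.nd (nat_lit 5) 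
(.lf (nat_lit 253714) (.g (nat_lit 584) (.e (nat_lit 163947) (nat_lit 20) (.e (nat_lit 491560) (nat_lit 10) (.e (nat_lit 344168) (nat_lit 40) .nil))) .nil)) 
(.lf (nat_lit 253746) (.g (nat_lit 3260) (.e (nat_lit 163947) (nat_lit 20) (.e (nat_lit 491568) (nat_lit 13) (.e (nat_lit 393301) (nat_lit 27) (.e (nat_lit 491560) (nat_lit 10) (.e (nat_lit 344090) (nat_lit 18) (.e (nat_lit 6938) (nat_lit 375) .nil)))))) (.g (nat_lit 4) .nil .nil))))) (.nd (nat_lit 4) (.nd (nat_lit 5) 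
(.lf (nat_lit 253706) (.g (nat_lit 2903) (.e (nat_lit 163946) (nat_lit 20) (.e (nat_lit 491569) (nat_lit 13) (.e (nat_lit 393301) (nat_lit 27) (.e (nat_lit 491560) (nat_lit 10) (.e (nat_lit 344091) (nat_lit 18) (.e (nat_lit 6940) (nat_lit 375) .nil)))))) (.g (nat_lit 4) .nil .nil))) 
(.lf (nat_lit 253738) (.g (nat_lit 2883) (.e (nat_lit 163947) (nat_lit 20) (.e (nat_lit 491568) (nat_lit 13) (.e (nat_lit 393301) (nat_lit 27) (.e (nat_lit 491560) (nat_lit 10) (.e (nat_lit 344087) (nat_lit 18) .nil))))) .nil))) (.nd (nat_lit 5) 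
(.lf (nat_lit 253722) (.g (nat_lit 1189) (.e (nat_lit 163947) (nat_lit 20) (.e (nat_lit 491563) (nat_lit 12) (.e (nat_lit 385102) (nat_lit 50) .nil))) .nil)) 
(.lf (nat_lit 253754) (.g (nat_lit 3624) (.e (nat_lit 163947) (nat_lit 20) (.e (nat_lit 491569) (nat_lit 13) (.e (nat_lit 393301) (nat_lit 27) (.e (nat_lit 491558) (nat_lit 10) (.e (nat_lit 344096) (nat_lit 18) (.e (nat_lit 6938) (nat_lit 375) .nil)))))) (.g (nat_lit 6) .nil .nil)))))) (.nd (nat_lit 3) (.nd (nat_lit 4) (.nd (nat_lit 5) 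
(.lf (nat_lit 253702) (.g (nat_lit 3175) (.e (nat_lit 163946) (nat_lit 20) (.e (nat_lit 491569) (nat_lit 13) (.e (nat_lit 393301) (nat_lit 27) (.e (nat_lit 491560) (nat_lit 10) (.e (nat_lit 344087) (nat_lit 18) .nil))))) .nil)) 
(.lf (nat_lit 253734) (.g (nat_lit 1081) (.e (nat_lit 163947) (nat_lit 20) (.e (nat_lit 491567) (nat_lit 13) (.e (nat_lit 393301) (nat_lit 27) (.e (nat_lit 491560) (nat_lit 10) .nil)))) .nil))) (.nd (nat_lit 5) 
(.lf (nat_lit 253718) (.g (nat_lit 2304) (.e (nat_lit 163947) (nat_lit 20) (.e (nat_lit 491560) (nat_lit 10) (.e (nat_lit 344169) (nat_lit 40) (.e (nat_lit 671748) (nat_lit 0) (.e (nat_lit 1589) (nat_lit 111) (.e (nat_lit 360457) (nat_lit 0) (.e (nat_lit 5597) (nat_lit 310) .nil))))))) (.g (nat_lit 4) .nil .nil))) 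
(.lf (nat_lit 253750) (.g (nat_lit 4370) (.e (nat_lit 163947) (nat_lit 20) (.e (nat_lit 491568) (nat_lit 13) (.e (nat_lit 393301) (nat_lit 27) (.e (nat_lit 491560) (nat_lit 10) (.e (nat_lit 344096) (nat_lit 18) (.e (nat_lit 6938) (nat_lit 375) .nil)))))) (.g (nat_lit 6) .nil .nil))))) (.nd (nat_lit 4) (.nd (nat_lit 5) 
(.lf (nat_lit 253710) (.g (nat_lit 4092) (.e (nat_lit 163947) (nat_lit 20) (.e (nat_lit 491540) (nat_lit 3) (.e (nat_lit 98373) (nat_lit 29) (.e (nat_lit 450588) (nat_lit 10) (.e (nat_lit 573474) (nat_lit 12) (.e (nat_lit 57348) (nat_lit 0) (.e (nat_lit 6940) (nat_lit 375) .nil))))))) (.g (nat_lit 5) .nil .nil))) 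
(.lf (nat_lit 253742) (.g (nat_lit 3620) (.e (nat_lit 163947) (nat_lit 20) (.e (nat_lit 491568) (nat_lit 13) (.e (nat_lit 393301) (nat_lit 27) (.e (nat_lit 491560) (nat_lit 10) (.e (nat_lit 344088) (nat_lit 18) (.e (nat_lit 6940) (nat_lit 375) .nil)))))) (.g (nat_lit 5) .nil .nil)))) (.nd (nat_lit 5) 
(.lf (nat_lit 253726) (.g (nat_lit 3406) (.e (nat_lit 163947) (nat_lit 20) (.e (nat_lit 491563) (nat_lit 12) (.e (nat_lit 385102) (nat_lit 50) (.e (nat_lit 786483) (nat_lit 30) (.e (nat_lit 360451) (nat_lit 0) (.e (nat_lit 5595) (nat_lit 310) .nil)))))) (.g (nat_lit 6) .nil .nil))) 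
(.lf (nat_lit 253758) (.g (nat_lit 2781) (.e (nat_lit 163947) (nat_lit 20) (.e (nat_lit 491569) (nat_lit 13) (.e (nat_lit 393301) (nat_lit 27) (.e (nat_lit 491560) (nat_lit 10) (.e (nat_lit 344088) (nat_lit 18) (.e (nat_lit 6940) (nat_lit 375) .nil)))))) (.g (nat_lit 4) .nil .nil)))))))) (.nd (nat_lit 1) (.nd (nat_lit 2) (.nd (nat_lit 3) (.nd (nat_lit 4) (.nd (nat_lit 5) 
(.lf (nat_lit 253697) (.g (nat_lit 3481) (.e (nat_lit 163946) (nat_lit 20) (.e (nat_lit 491569) (nat_lit 13) (.e (nat_lit 393301) (nat_lit 27) (.e (nat_lit 491558) (nat_lit 10) (.e (nat_lit 344091) (nat_lit 18) (.e (nat_lit 6940) (nat_lit 375) .nil)))))) (.g (nat_lit 5) .nil .nil))) 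
(.lf (nat_lit 253729) (.g (nat_lit 1383) (.e (nat_lit 163947) (nat_lit 20) (.e (nat_lit 491563) (nat_lit 12) (.e (nat_lit 385105) (nat_lit 50) .nil))) .nil))) (.nd (nat_lit 5) 
(.lf (nat_lit 253713) (.g (nat_lit 989) (.e (nat_lit 163947) (nat_lit 20) (.e (nat_lit 491560) (nat_lit 10) (.e (nat_lit 344167) (nat_lit 40) .nil))) .nil)) 
(.lf (nat_lit 253745) (.g (nat_lit 2985) (.e (nat_lit 163947) (nat_lit 20) (.e (nat_lit 491568) (nat_lit 13) (.e (nat_lit 393301) (nat_lit 27) (.e (nat_lit 491560) (nat_lit 10) (.e (nat_lit 344090) (nat_lit 18) .nil))))) .nil)))) (.nd (nat_lit 4) (.nd (nat_lit 5) 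
(.lf (nat_lit 253705) (.g (nat_lit 3125) (.e (nat_lit 163946) (nat_lit 20) (.e (nat_lit 491569) (nat_lit 13) (.e (nat_lit 393301) (nat_lit 27) (.e (nat_lit 491560) (nat_lit 10) (.e (nat_lit 344090) (nat_lit 18) .nil))))) .nil)) 
(.lf (nat_lit 253737) (.g (nat_lit 2630) (.e (nat_lit 163947) (nat_lit 20) (.e (nat_lit 491568) (nat_lit 13) (.e (nat_lit 393301) (nat_lit 27) (.e (nat_lit 491559) (nat_lit 10) (.e (nat_lit 344091) (nat_lit 18) .nil))))) .nil))) (.nd (nat_lit 5) 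
(.lf (nat_lit 253721) (.g (nat_lit 1383) (.e (nat_lit 163947) (nat_lit 20) (.e (nat_lit 491563) (nat_lit 12) (.e (nat_lit 385094) (nat_lit 49) .nil))) .nil)) 
(.lf (nat_lit 253753) (.g (nat_lit 3370) (.e (nat_lit 163947) (nat_lit 20) (.e (nat_lit 491569) (nat_lit 13) (.e (nat_lit 393301) (nat_lit 27) (.e (nat_lit 491558) (nat_lit 10) (.e (nat_lit 344091) (nat_lit 18) (.e (nat_lit 6943) (nat_lit 375) .nil)))))) (.g (nat_lit 5) .nil .nil)))))) (.nd (nat_lit 3) (.nd (nat_lit 4) (.nd (nat_lit 5) 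
(.lf (nat_lit 253701) (.g (nat_lit 4282) (.e (nat_lit 163946) (nat_lit 20) (.e (nat_lit 491569) (nat_lit 13) (.e (nat_lit 393301) (nat_lit 27) (.e (nat_lit 491559) (nat_lit 10) (.e (nat_lit 344091) (nat_lit 18) (.e (nat_lit 6940) (nat_lit 375) .nil)))))) (.g (nat_lit 5) .nil .nil))) 
(.lf (nat_lit 253733) (.g (nat_lit 537) (.e (nat_lit 163947) (nat_lit 20) (.e (nat_lit 491565) (nat_lit 12) (.e (nat_lit 385102) (nat_lit 50) .nil))) .nil))) (.nd (nat_lit 5) 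
(.lf (nat_lit 253717) (.g (nat_lit 2634) (.e (nat_lit 163947) (nat_lit 20) (.e (nat_lit 491560) (nat_lit 10) (.e (nat_lit 344169) (nat_lit 40) (.e (nat_lit 671747) (nat_lit 0) (.e (nat_lit 1595) (nat_lit 111) (.e (nat_lit 360457) (nat_lit 0) (.e (nat_lit 5597) (nat_lit 310) .nil))))))) (.g (nat_lit 5) .nil .nil))) 
(.lf (nat_lit 253749) (.g (nat_lit 2536) (.e (nat_lit 163947) (nat_lit 20) (.e (nat_lit 491568) (nat_lit 13) (.e (nat_lit 393301) (nat_lit 27) (.e (nat_lit 491560) (nat_lit 10) (.e (nat_lit 344094) (nat_lit 18) .nil))))) .nil)))) (.nd (nat_lit 4) (.nd (nat_lit 5) 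
(.lf (nat_lit 253709) (.g (nat_lit 2716) (.e (nat_lit 163947) (nat_lit 20) (.e (nat_lit 491540) (nat_lit 3) (.e (nat_lit 98373) (nat_lit 29) (.e (nat_lit 450587) (nat_lit 10) (.e (nat_lit 573475) (nat_lit 12) (.e (nat_lit 57345) (nat_lit 0) (.e (nat_lit 6943) (nat_lit 375) .nil))))))) (.g (nat_lit 5) .nil .nil))) 
(.lf (nat_lit 253741) (.g (nat_lit 3405) (.e (nat_lit 163947) (nat_lit 20) (.e (nat_lit 491568) (nat_lit 13) (.e (nat_lit 393301) (nat_lit 27) (.e (nat_lit 491560) (nat_lit 10) (.e (nat_lit 344088) (nat_lit 18) (.e (nat_lit 6938) (nat_lit 375) .nil)))))) (.g (nat_lit 4) .nil .nil)))) (.nd (nat_lit 5) 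
(.lf (nat_lit 253725) (.g (nat_lit 3132) (.e (nat_lit 163947) (nat_lit 20) (.e (nat_lit 491563) (nat_lit 12) (.e (nat_lit 385102) (nat_lit 50) (.e (nat_lit 786483) (nat_lit 30) (.e (nat_lit 360450) (nat_lit 0) (.e (nat_lit 5604) (nat_lit 310) .nil)))))) (.g (nat_lit 5) .nil .nil))) 
(.lf (nat_lit 253757) (.g (nat_lit 2707) (.e (nat_lit 163947) (nat_lit 20) (.e (nat_lit 491569) (nat_lit 13) (.e (nat_lit 393301) (nat_lit 27) (.e (nat_lit 491560) (nat_lit 10) (.e (nat_lit 344088) (nat_lit 18) .nil))))) .nil)))))) (.nd (nat_lit 2) (.nd (nat_lit 3) (.nd (nat_lit 4) (.nd (nat_lit 5) 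
(.lf (nat_lit 253699) (.g (nat_lit 3352) (.e (nat_lit 163946) (nat_lit 20) (.e (nat_lit 491569) (nat_lit 13) (.e (nat_lit 393301) (nat_lit 27) (.e (nat_lit 491558) (nat_lit 10) (.e (nat_lit 344096) (nat_lit 18) (.e (nat_lit 6940) (nat_lit 375) .nil)))))) (.g (nat_lit 5) .nil .nil))) 
(.lf (nat_lit 253731) (.g (nat_lit 2047) (.e (nat_lit 163947) (nat_lit 20) (.e (nat_lit 491563) (nat_lit 12) (.e (nat_lit 385106) (nat_lit 50) (.e (nat_lit 786481) (nat_lit 30) .nil)))) .nil))) (.nd (nat_lit 5) 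
(.lf (nat_lit 253715) (.g (nat_lit 2667) (.e (nat_lit 163947) (nat_lit 20) (.e (nat_lit 491560) (nat_lit 10) (.e (nat_lit 344168) (nat_lit 40) (.e (nat_lit 671747) (nat_lit 0) (.e (nat_lit 1595) (nat_lit 111) (.e (nat_lit 360457) (nat_lit 0) (.e (nat_lit 5597) (nat_lit 310) .nil))))))) (.g (nat_lit 6) .nil .nil))) 
(.lf (nat_lit 253747) (.g (nat_lit 3049) (.e (nat_lit 163947) (nat_lit 20) (.e (nat_lit 491568) (nat_lit 13) (.e (nat_lit 393301) (nat_lit 27) (.e (nat_lit 491560) (nat_lit 10) (.e (nat_lit 344090) (nat_lit 18) (.e (nat_lit 6940) (nat_lit 375) .nil)))))) (.g (nat_lit 4) .nil .nil))))) (.nd (nat_lit 4) (.nd (nat_lit 5) 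
(.lf (nat_lit 253707) (.g (nat_lit 3172) (.e (nat_lit 163946) (nat_lit 20) (.e (nat_lit 491569) (nat_lit 13) (.e (nat_lit 393301) (nat_lit 27) (.e (nat_lit 491560) (nat_lit 10) (.e (nat_lit 344096) (nat_lit 18) (.e (nat_lit 6940) (nat_lit 375) .nil)))))) (.g (nat_lit 4) .nil .nil))) 
(.lf (nat_lit 253739) (.g (nat_lit 3107) (.e (nat_lit 163947) (nat_lit 20) (.e (nat_lit 491568) (nat_lit 13) (.e (nat_lit 393301) (nat_lit 27) (.e (nat_lit 491560) (nat_lit 10) (.e (nat_lit 344087) (nat_lit 18) (.e (nat_lit 6938) (nat_lit 375) .nil)))))) (.g (nat_lit 4) .nil .nil)))) (.nd (nat_lit 5) 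
(.lf (nat_lit 253723) (.g (nat_lit 2467) (.e (nat_lit 163947) (nat_lit 20) (.e (nat_lit 491563) (nat_lit 12) (.e (nat_lit 385102) (nat_lit 50) (.e (nat_lit 786481) (nat_lit 30) (.e (nat_lit 360457) (nat_lit 0) (.e (nat_lit 5597) (nat_lit 310) .nil)))))) (.g (nat_lit 4) .nil .nil))) 
(.lf (nat_lit 253755) (.g (nat_lit 3490) (.e (nat_lit 163947) (nat_lit 20) (.e (nat_lit 491569) (nat_lit 13) (.e (nat_lit 393301) (nat_lit 27) (.e (nat_lit 491559) (nat_lit 10) (.e (nat_lit 344091) (nat_lit 18) .nil))))) .nil))))) (.nd (nat_lit 3) (.nd (nat_lit 4) (.nd (nat_lit 5) 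
(.lf (nat_lit 253703) (.g (nat_lit 2775) (.e (nat_lit 163946) (nat_lit 20) (.e (nat_lit 491569) (nat_lit 13) (.e (nat_lit 393301) (nat_lit 27) (.e (nat_lit 491560) (nat_lit 10) (.e (nat_lit 344088) (nat_lit 18) .nil))))) .nil)) 
(.lf (nat_lit 253735) (.g (nat_lit 2022) (.e (nat_lit 163947) (nat_lit 20) (.e (nat_lit 491568) (nat_lit 13) (.e (nat_lit 393301) (nat_lit 27) (.e (nat_lit 491558) (nat_lit 10) (.e (nat_lit 344091) (nat_lit 18) .nil))))) .nil))) (.nd (nat_lit 5) 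
(.lf (nat_lit 253719) (.g (nat_lit 3068) (.e (nat_lit 163947) (nat_lit 20) (.e (nat_lit 491560) (nat_lit 10) (.e (nat_lit 344169) (nat_lit 40) (.e (nat_lit 671748) (nat_lit 0) (.e (nat_lit 1595) (nat_lit 111) (.e (nat_lit 360457) (nat_lit 0) (.e (nat_lit 5597) (nat_lit 310) .nil))))))) (.g (nat_lit 6) .nil .nil))) 
(.lf (nat_lit 253751) (.g (nat_lit 2976) (.e (nat_lit 163947) (nat_lit 20) (.e (nat_lit 491569) (nat_lit 13) (.e (nat_lit 393301) (nat_lit 27) (.e (nat_lit 491558) (nat_lit 10) (.e (nat_lit 344088) (nat_lit 18) .nil))))) .nil)))) (.nd (nat_lit 4) (.nd (nat_lit 5) 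
(.lf (nat_lit 253711) (.g (nat_lit 1585) (.e (nat_lit 163947) (nat_lit 20) (.e (nat_lit 491558) (nat_lit 10) (.e (nat_lit 344168) (nat_lit 40) (.e (nat_lit 671744) (nat_lit 0) (.e (nat_lit 1615) (nat_lit 113) .nil))))) .nil)) 
(.lf (nat_lit 253743) (.g (nat_lit 3716) (.e (nat_lit 163947) (nat_lit 20) (.e (nat_lit 491568) (nat_lit 13) (.e (nat_lit 393301) (nat_lit 27) (.e (nat_lit 491560) (nat_lit 10) (.e (nat_lit 344088) (nat_lit 18) (.e (nat_lit 6942) (nat_lit 375) .nil)))))) (.g (nat_lit 5) .nil .nil)))) (.nd (nat_lit 5) 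
(.lf (nat_lit 253727) (.g (nat_lit 3407) (.e (nat_lit 163947) (nat_lit 20) (.e (nat_lit 491563) (nat_lit 12) (.e (nat_lit 385102) (nat_lit 50) (.e (nat_lit 786483) (nat_lit 30) (.e (nat_lit 360457) (nat_lit 0) (.e (nat_lit 5597) (nat_lit 310) .nil)))))) (.g (nat_lit 5) .nil .nil))) 
(.lf (nat_lit 253759) (.g (nat_lit 2819) (.e (nat_lit 163947) (nat_lit 20) (.e (nat_lit 491569) (nat_lit 13) (.e (nat_lit 393301) (nat_lit 27) (.e (nat_lit 491560) (nat_lit 10) (.e (nat_lit 344091) (nat_lit 18) .nil))))) .nil))))))))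

noncomputable def tv3290 : DT := (.nd (nat_lit 0) (.nd (nat_lit 1) (.nd (nat_lit 2) (.nd (nat_lit 3) (.nd (nat_lit 4) (.nd (nat_lit 5) 
(.lf (nat_lit 253760) (.g (nat_lit 1193) (.e (nat_lit 171776) (nat_lit 20) (.e (nat_lit 491569) (nat_lit 13) (.e (nat_lit 393301) (nat_lit 27) (.e (nat_lit 491558) (nat_lit 10) .nil)))) .nil)) 
(.lf (nat_lit 253792) (.g (nat_lit 1030) (.e (nat_lit 163950) (nat_lit 21) (.e (nat_lit 500073) (nat_lit 19) (.e (nat_lit 81664) (nat_lit 38) (.e (nat_lit 229433) (nat_lit 25) (.e (nat_lit 532555) (nat_lit 13) (.e (nat_lit 376576) (nat_lit 3) .nil)))))) (.g (nat_lit 5) .nil .nil)))) (.nd (nat_lit 5) 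
(.lf (nat_lit 253776) (.g (nat_lit 970) (.e (nat_lit 163950) (nat_lit 21) (.e (nat_lit 500071) (nat_lit 19) (.e (nat_lit 81664) (nat_lit 35) (.e (nat_lit 163962) (nat_lit 25) (.e (nat_lit 532554) (nat_lit 13) (.e (nat_lit 376576) (nat_lit 3) .nil)))))) (.g (nat_lit 5) .nil .nil))) 
(.lf (nat_lit 253808) (.g (nat_lit 1202) (.e (nat_lit 163950) (nat_lit 21) (.e (nat_lit 507648) (nat_lit 20) (.e (nat_lit 81946) (nat_lit 20) (.e (nat_lit 1841) (nat_lit 123) (.e (nat_lit 548890) (nat_lit 10) (.e (nat_lit 81664) (nat_lit 35) .nil)))))) (.g (nat_lit 5) .nil .nil))))) (.nd (nat_lit 4) (.nd (nat_lit 5) 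
(.lf (nat_lit 253768) (.g (nat_lit 899) (.e (nat_lit 163950) (nat_lit 21) (.e (nat_lit 500070) (nat_lit 19) (.e (nat_lit 81664) (nat_lit 35) (.e (nat_lit 163950) (nat_lit 21) (.e (nat_lit 500071) (nat_lit 19) (.e (nat_lit 81664) (nat_lit 35) .nil)))))) (.g (nat_lit 5) .nil .nil))) 
(.lf (nat_lit 253800) (.g (nat_lit 3360) (.e (nat_lit 163950) (nat_lit 21) (.e (nat_lit 500078) (nat_lit 20) (.e (nat_lit 81956) (nat_lit 23) (.e (nat_lit 98389) (nat_lit 33) (.e (nat_lit 491526) (nat_lit 0) .nil))))) .nil))) (.nd (nat_lit 5) 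
(.lf (nat_lit 253784) (.g (nat_lit 653) (.e (nat_lit 163950) (nat_lit 21) (.e (nat_lit 500072) (nat_lit 19) (.e (nat_lit 81664) (nat_lit 35) (.e (nat_lit 163950) (nat_lit 21) (.e (nat_lit 507648) (nat_lit 19) (.e (nat_lit 81664) (nat_lit 35) .nil)))))) (.g (nat_lit 4) .nil .nil))) 
(.lf (nat_lit 253816) (.g (nat_lit 2193) (.e (nat_lit 163950) (nat_lit 21) (.e (nat_lit 507648) (nat_lit 20) (.e (nat_lit 81953) (nat_lit 22) (.e (nat_lit 90130) (nat_lit 9) (.e (nat_lit 2830) (nat_lit 182) (.e (nat_lit 409617) (nat_lit 10) (.e (nat_lit 7936) (nat_lit 315) .nil))))))) (.g (nat_lit 6) .nil .nil)))))) (.nd (nat_lit 3) (.nd (nat_lit 4) (.nd (nat_lit 5) 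
(.lf (nat_lit 253764) (.g (nat_lit 2650) (.e (nat_lit 163950) (nat_lit 21) (.e (nat_lit 500060) (nat_lit 18) (.e (nat_lit 65630) (nat_lit 14) (.e (nat_lit 401425) (nat_lit 2) (.e (nat_lit 196628) (nat_lit 9) (.e (nat_lit 1512) (nat_lit 108) (.e (nat_lit 335872) (nat_lit 0) (.e (nat_lit 6713) (nat_lit 360) .nil)))))))) (.g (nat_lit 5) .nil .nil))) 
(.lf (nat_lit 253796) (.g (nat_lit 1699) (.e (nat_lit 163950) (nat_lit 21) (.e (nat_lit 500077) (nat_lit 20) (.e (nat_lit 81943) (nat_lit 20) (.e (nat_lit 1842) (nat_lit 123) (.e (nat_lit 548890) (nat_lit 10) (.e (nat_lit 81664) (nat_lit 35) .nil)))))) (.g (nat_lit 5) .nil .nil)))) (.nd (nat_lit 5) 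
(.lf (nat_lit 253780) (.g (nat_lit 1328) (.e (nat_lit 163950) (nat_lit 21) (.e (nat_lit 500071) (nat_lit 19) (.e (nat_lit 73789) (nat_lit 45) (.e (nat_lit 1140) (nat_lit 84) (.e (nat_lit 32788) (nat_lit 10) (.e (nat_lit 81664) (nat_lit 35) .nil)))))) (.g (nat_lit 5) .nil .nil))) 
(.lf (nat_lit 253812) (.g (nat_lit 1568) (.e (nat_lit 163950) (nat_lit 21) (.e (nat_lit 507648) (nat_lit 20) (.e (nat_lit 81951) (nat_lit 22) (.e (nat_lit 90165) (nat_lit 12) (.e (nat_lit 164208) (nat_lit 176) (.e (nat_lit 2400) (nat_lit 157) (.e (nat_lit 7936) (nat_lit 315) .nil))))))) (.g (nat_lit 6) .nil .nil))))) (.nd (nat_lit 4) (.nd (nat_lit 5) 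
(.lf (nat_lit 253772) (.g (nat_lit 1174) (.e (nat_lit 163950) (nat_lit 21) (.e (nat_lit 500071) (nat_lit 19) (.e (nat_lit 81664) (nat_lit 35) (.e (nat_lit 163950) (nat_lit 21) (.e (nat_lit 500071) (nat_lit 19) (.e (nat_lit 81664) (nat_lit 35) .nil)))))) (.g (nat_lit 5) .nil .nil))) 
(.lf (nat_lit 253804) (.g (nat_lit 1097) (.e (nat_lit 163950) (nat_lit 21) (.e (nat_lit 507648) (nat_lit 20) (.e (nat_lit 81939) (nat_lit 20) (.e (nat_lit 1842) (nat_lit 123) (.e (nat_lit 548890) (nat_lit 10) (.e (nat_lit 81664) (nat_lit 35) .nil)))))) (.g (nat_lit 5) .nil .nil)))) (.nd (nat_lit 5) 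
(.lf (nat_lit 253788) (.g (nat_lit 1122) (.e (nat_lit 163950) (nat_lit 21) (.e (nat_lit 500073) (nat_lit 19) (.e (nat_lit 81664) (nat_lit 35) (.e (nat_lit 163950) (nat_lit 21) (.e (nat_lit 500073) (nat_lit 19) (.e (nat_lit 81664) (nat_lit 35) .nil)))))) (.g (nat_lit 5) .nil .nil))) 
(.lf (nat_lit 253820) (.g (nat_lit 2679) (.e (nat_lit 163950) (nat_lit 21) (.e (nat_lit 507648) (nat_lit 20) (.e (nat_lit 81955) (nat_lit 23) (.e (nat_lit 98350) (nat_lit 24) (.e (nat_lit 409617) (nat_lit 10) (.e (nat_lit 7936) (nat_lit 315) .nil)))))) (.g (nat_lit 5) .nil .nil))))))) (.nd (nat_lit 2) (.nd (nat_lit 3) (.nd (nat_lit 4) (.nd (nat_lit 5) 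
(.lf (nat_lit 253762) (.g (nat_lit 2719) (.e (nat_lit 163950) (nat_lit 21) (.e (nat_lit 500059) (nat_lit 18) (.e (nat_lit 65630) (nat_lit 14) (.e (nat_lit 401425) (nat_lit 2) (.e (nat_lit 196628) (nat_lit 9) (.e (nat_lit 1512) (nat_lit 108) (.e (nat_lit 335874) (nat_lit 0) (.e (nat_lit 6713) (nat_lit 360) .nil)))))))) (.g (nat_lit 4) .nil .nil))) 
(.lf (nat_lit 253794) (.g (nat_lit 3301) (.e (nat_lit 163950) (nat_lit 21) (.e (nat_lit 500076) (nat_lit 20) (.e (nat_lit 81956) (nat_lit 23) (.e (nat_lit 98350) (nat_lit 24) (.e (nat_lit 409617) (nat_lit 10) .nil))))) .nil))) (.nd (nat_lit 5) 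
(.lf (nat_lit 253778) (.g (nat_lit 1063) (.e (nat_lit 163950) (nat_lit 21) (.e (nat_lit 500071) (nat_lit 19) (.e (nat_lit 81664) (nat_lit 38) (.e (nat_lit 229433) (nat_lit 25) (.e (nat_lit 532555) (nat_lit 13) (.e (nat_lit 376576) (nat_lit 3) .nil)))))) (.g (nat_lit 5) .nil .nil))) 
(.lf (nat_lit 253810) (.g (nat_lit 946) (.e (nat_lit 163950) (nat_lit 21) (.e (nat_lit 507648) (nat_lit 20) (.e (nat_lit 81947) (nat_lit 20) (.e (nat_lit 1841) (nat_lit 123) (.e (nat_lit 548890) (nat_lit 10) (.e (nat_lit 81664) (nat_lit 35) .nil)))))) (.g (nat_lit 5) .nil .nil))))) (.nd (nat_lit 4) (.nd (nat_lit 5) 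
(.lf (nat_lit 253770) (.g (nat_lit 486) (.e (nat_lit 163950) (nat_lit 21) (.e (nat_lit 500070) (nat_lit 19) (.e (nat_lit 81664) (nat_lit 35) (.e (nat_lit 163950) (nat_lit 21) (.e (nat_lit 507648) (nat_lit 19) (.e (nat_lit 81664) (nat_lit 35) .nil)))))) (.g (nat_lit 4) .nil .nil))) 
(.lf (nat_lit 253802) (.g (nat_lit 1775) (.e (nat_lit 163950) (nat_lit 21) (.e (nat_lit 507648) (nat_lit 20) (.e (nat_lit 81938) (nat_lit 20) (.e (nat_lit 1842) (nat_lit 123) (.e (nat_lit 548890) (nat_lit 10) (.e (nat_lit 81664) (nat_lit 35) .nil)))))) (.g (nat_lit 5) .nil .nil)))) (.nd (nat_lit 5) 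
(.lf (nat_lit 253786) (.g (nat_lit 1003) (.e (nat_lit 163950) (nat_lit 21) (.e (nat_lit 500072) (nat_lit 19) (.e (nat_lit 81664) (nat_lit 38) (.e (nat_lit 229433) (nat_lit 25) (.e (nat_lit 532555) (nat_lit 13) (.e (nat_lit 376576) (nat_lit 3) .nil)))))) (.g (nat_lit 5) .nil .nil))) 
(.lf (nat_lit 253818) (.g (nat_lit 1893) (.e (nat_lit 163950) (nat_lit 21) (.e (nat_lit 507648) (nat_lit 20) (.e (nat_lit 81954) (nat_lit 23) (.e (nat_lit 98389) (nat_lit 33) (.e (nat_lit 491526) (nat_lit 0) (.e (nat_lit 7936) (nat_lit 360) .nil)))))) (.g (nat_lit 5) .nil .nil)))))) (.nd (nat_lit 3) (.nd (nat_lit 4) (.nd (nat_lit 5) 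
(.lf (nat_lit 253766) (.g (nat_lit 2815) (.e (nat_lit 163950) (nat_lit 21) (.e (nat_lit 507648) (nat_lit 18) (.e (nat_lit 65630) (nat_lit 14) (.e (nat_lit 401425) (nat_lit 2) (.e (nat_lit 196670) (nat_lit 14) (.e (nat_lit 81664) (nat_lit 35) .nil)))))) (.g (nat_lit 5) .nil .nil))) 
(.lf (nat_lit 253798) (.g (nat_lit 4061) (.e (nat_lit 163950) (nat_lit 21) (.e (nat_lit 500078) (nat_lit 20) (.e (nat_lit 81956) (nat_lit 23) (.e (nat_lit 98350) (nat_lit 24) (.e (nat_lit 409616) (nat_lit 10) .nil))))) .nil))) (.nd (nat_lit 5) 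
(.lf (nat_lit 253782) (.g (nat_lit 958) (.e (nat_lit 163950) (nat_lit 21) (.e (nat_lit 500072) (nat_lit 19) (.e (nat_lit 81664) (nat_lit 35) (.e (nat_lit 163950) (nat_lit 21) (.e (nat_lit 500072) (nat_lit 19) (.e (nat_lit 81664) (nat_lit 35) .nil)))))) (.g (nat_lit 5) .nil .nil))) 
(.lf (nat_lit 253814) (.g (nat_lit 1153) (.e (nat_lit 163950) (nat_lit 21) (.e (nat_lit 507648) (nat_lit 20) (.e (nat_lit 81951) (nat_lit 22) (.e (nat_lit 90165) (nat_lit 12) (.e (nat_lit 164218) (nat_lit 179) (.e (nat_lit 171776) (nat_lit 249) .nil)))))) (.g (nat_lit 5) .nil .nil))))) (.nd (nat_lit 4) (.nd (nat_lit 5) 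
(.lf (nat_lit 253774) (.g (nat_lit 1148) (.e (nat_lit 163950) (nat_lit 21) (.e (nat_lit 500071) (nat_lit 19) (.e (nat_lit 81664) (nat_lit 35) (.e (nat_lit 163950) (nat_lit 21) (.e (nat_lit 500073) (nat_lit 19) (.e (nat_lit 81664) (nat_lit 35) .nil)))))) (.g (nat_lit 5) .nil .nil))) 
(.lf (nat_lit 253806) (.g (nat_lit 1057) (.e (nat_lit 163950) (nat_lit 21) (.e (nat_lit 507648) (nat_lit 20) (.e (nat_lit 81943) (nat_lit 20) (.e (nat_lit 1841) (nat_lit 123) (.e (nat_lit 548890) (nat_lit 10) (.e (nat_lit 81664) (nat_lit 35) .nil)))))) (.g (nat_lit 5) .nil .nil)))) (.nd (nat_lit 5) 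
(.lf (nat_lit 253790) (.g (nat_lit 937) (.e (nat_lit 163950) (nat_lit 21) (.e (nat_lit 500073) (nat_lit 19) (.e (nat_lit 81664) (nat_lit 35) (.e (nat_lit 163962) (nat_lit 25) (.e (nat_lit 532554) (nat_lit 13) (.e (nat_lit 376576) (nat_lit 3) .nil)))))) (.g (nat_lit 5) .nil .nil))) 
(.lf (nat_lit 253822) (.g (nat_lit 3164) (.e (nat_lit 163950) (nat_lit 21) (.e (nat_lit 507648) (nat_lit 20) (.e (nat_lit 81956) (nat_lit 23) (.e (nat_lit 98350) (nat_lit 24) (.e (nat_lit 409617) (nat_lit 10) (.e (nat_lit 7936) (nat_lit 315) .nil)))))) (.g (nat_lit 5) .nil .nil)))))))) (.nd (nat_lit 1) (.nd (nat_lit 2) (.nd (nat_lit 3) (.nd (nat_lit 4) (.nd (nat_lit 5) 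
(.lf (nat_lit 253761) (.g (nat_lit 2756) (.e (nat_lit 163950) (nat_lit 21) (.e (nat_lit 500059) (nat_lit 18) (.e (nat_lit 65630) (nat_lit 14) (.e (nat_lit 401425) (nat_lit 2) (.e (nat_lit 196628) (nat_lit 9) (.e (nat_lit 1512) (nat_lit 108) (.e (nat_lit 335872) (nat_lit 0) (.e (nat_lit 6713) (nat_lit 360) .nil)))))))) (.g (nat_lit 4) .nil .nil))) 
(.lf (nat_lit 253793) (.g (nat_lit 348) (.e (nat_lit 163950) (nat_lit 21) (.e (nat_lit 507648) (nat_lit 19) (.e (nat_lit 81664) (nat_lit 35) (.e (nat_lit 163950) (nat_lit 21) (.e (nat_lit 507648) (nat_lit 19) (.e (nat_lit 81664) (nat_lit 35) .nil)))))) (.g (nat_lit 4) .nil .nil)))) (.nd (nat_lit 5) 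
(.lf (nat_lit 253777) (.g (nat_lit 1206) (.e (nat_lit 163950) (nat_lit 21) (.e (nat_lit 500071) (nat_lit 19) (.e (nat_lit 81664) (nat_lit 38) (.e (nat_lit 229433) (nat_lit 25) (.e (nat_lit 532553) (nat_lit 13) (.e (nat_lit 376576) (nat_lit 3) .nil)))))) (.g (nat_lit 5) .nil .nil))) 
(.lf (nat_lit 253809) (.g (nat_lit 1721) (.e (nat_lit 163950) (nat_lit 21) (.e (nat_lit 507648) (nat_lit 20) (.e (nat_lit 81946) (nat_lit 20) (.e (nat_lit 1842) (nat_lit 123) (.e (nat_lit 548890) (nat_lit 10) (.e (nat_lit 81664) (nat_lit 35) .nil)))))) (.g (nat_lit 5) .nil .nil))))) (.nd (nat_lit 4) (.nd (nat_lit 5) 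
(.lf (nat_lit 253769) (.g (nat_lit 791) (.e (nat_lit 163950) (nat_lit 21) (.e (nat_lit 500070) (nat_lit 19) (.e (nat_lit 81664) (nat_lit 35) (.e (nat_lit 163950) (nat_lit 21) (.e (nat_lit 500072) (nat_lit 19) (.e (nat_lit 81664) (nat_lit 35) .nil)))))) (.g (nat_lit 5) .nil .nil))) 
(.lf (nat_lit 253801) (.g (nat_lit 1252) (.e (nat_lit 163950) (nat_lit 21) (.e (nat_lit 507648) (nat_lit 20) (.e (nat_lit 81938) (nat_lit 20) (.e (nat_lit 1841) (nat_lit 123) (.e (nat_lit 548890) (nat_lit 10) (.e (nat_lit 81664) (nat_lit 35) .nil)))))) (.g (nat_lit 5) .nil .nil)))) (.nd (nat_lit 5) 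
(.lf (nat_lit 253785) (.g (nat_lit 1146) (.e (nat_lit 163950) (nat_lit 21) (.e (nat_lit 500072) (nat_lit 19) (.e (nat_lit 81664) (nat_lit 38) (.e (nat_lit 229433) (nat_lit 25) (.e (nat_lit 532553) (nat_lit 13) (.e (nat_lit 376576) (nat_lit 3) .nil)))))) (.g (nat_lit 5) .nil .nil))) 
(.lf (nat_lit 253817) (.g (nat_lit 2358) (.e (nat_lit 163950) (nat_lit 21) (.e (nat_lit 507648) (nat_lit 20) (.e (nat_lit 81954) (nat_lit 23) (.e (nat_lit 98350) (nat_lit 24) (.e (nat_lit 409614) (nat_lit 10) (.e (nat_lit 7936) (nat_lit 315) .nil)))))) (.g (nat_lit 5) .nil .nil)))))) (.nd (nat_lit 3) (.nd (nat_lit 4) (.nd (nat_lit 5) 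
(.lf (nat_lit 253765) (.g (nat_lit 2491) (.e (nat_lit 163950) (nat_lit 21) (.e (nat_lit 507648) (nat_lit 18) (.e (nat_lit 65630) (nat_lit 14) (.e (nat_lit 401425) (nat_lit 2) (.e (nat_lit 196628) (nat_lit 9) (.e (nat_lit 1600) (nat_lit 112) (.e (nat_lit 376576) (nat_lit 3) .nil))))))) (.g (nat_lit 5) .nil .nil))) 
(.lf (nat_lit 253797) (.g (nat_lit 1890) (.e (nat_lit 163950) (nat_lit 21) (.e (nat_lit 500078) (nat_lit 20) (.e (nat_lit 81956) (nat_lit 23) (.e (nat_lit 98350) (nat_lit 24) .nil)))) .nil))) (.nd (nat_lit 5) 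
(.lf (nat_lit 253781) (.g (nat_lit 1380) (.e (nat_lit 163950) (nat_lit 21) (.e (nat_lit 500071) (nat_lit 19) (.e (nat_lit 73789) (nat_lit 45) (.e (nat_lit 1141) (nat_lit 84) (.e (nat_lit 32788) (nat_lit 10) (.e (nat_lit 81664) (nat_lit 35) .nil)))))) (.g (nat_lit 5) .nil .nil))) 
(.lf (nat_lit 253813) (.g (nat_lit 1313) (.e (nat_lit 163950) (nat_lit 21) (.e (nat_lit 507648) (nat_lit 20) (.e (nat_lit 81951) (nat_lit 22) (.e (nat_lit 90165) (nat_lit 12) (.e (nat_lit 164208) (nat_lit 176) (.e (nat_lit 2403) (nat_lit 157) (.e (nat_lit 7936) (nat_lit 315) .nil))))))) (.g (nat_lit 6) .nil .nil))))) (.nd (nat_lit 4) (.nd (nat_lit 5) 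
(.lf (nat_lit 253773) (.g (nat_lit 1066) (.e (nat_lit 163950) (nat_lit 21) (.e (nat_lit 500071) (nat_lit 19) (.e (nat_lit 81664) (nat_lit 35) (.e (nat_lit 163950) (nat_lit 21) (.e (nat_lit 500072) (nat_lit 19) (.e (nat_lit 81664) (nat_lit 35) .nil)))))) (.g (nat_lit 5) .nil .nil))) 
(.lf (nat_lit 253805) (.g (nat_lit 1081) (.e (nat_lit 163950) (nat_lit 21) (.e (nat_lit 507648) (nat_lit 20) (.e (nat_lit 81942) (nat_lit 20) (.e (nat_lit 1842) (nat_lit 123) (.e (nat_lit 548890) (nat_lit 10) (.e (nat_lit 81664) (nat_lit 35) .nil)))))) (.g (nat_lit 5) .nil .nil)))) (.nd (nat_lit 5) 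
(.lf (nat_lit 253789) (.g (nat_lit 735) (.e (nat_lit 163950) (nat_lit 21) (.e (nat_lit 500073) (nat_lit 19) (.e (nat_lit 81664) (nat_lit 35) (.e (nat_lit 163950) (nat_lit 21) (.e (nat_lit 507648) (nat_lit 19) (.e (nat_lit 81664) (nat_lit 35) .nil)))))) (.g (nat_lit 4) .nil .nil))) 
(.lf (nat_lit 253821) (.g (nat_lit 2957) (.e (nat_lit 163950) (nat_lit 21) (.e (nat_lit 507648) (nat_lit 20) (.e (nat_lit 81956) (nat_lit 23) (.e (nat_lit 98350) (nat_lit 24) (.e (nat_lit 409616) (nat_lit 10) (.e (nat_lit 7936) (nat_lit 315) .nil)))))) (.g (nat_lit 5) .nil .nil))))))) (.nd (nat_lit 2) (.nd (nat_lit 3) (.nd (nat_lit 4) (.nd (nat_lit 5) 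
(.lf (nat_lit 253763) (.g (nat_lit 1894) (.e (nat_lit 163950) (nat_lit 21) (.e (nat_lit 500059) (nat_lit 18) (.e (nat_lit 65630) (nat_lit 14) (.e (nat_lit 401428) (nat_lit 3) (.e (nat_lit 204859) (nat_lit 26) .nil))))) .nil)) 
(.lf (nat_lit 253795) (.g (nat_lit 1127) (.e (nat_lit 163950) (nat_lit 21) (.e (nat_lit 500077) (nat_lit 20) (.e (nat_lit 81943) (nat_lit 20) (.e (nat_lit 1841) (nat_lit 123) (.e (nat_lit 548890) (nat_lit 10) (.e (nat_lit 81664) (nat_lit 35) .nil)))))) (.g (nat_lit 5) .nil .nil)))) (.nd (nat_lit 5) 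
(.lf (nat_lit 253779) (.g (nat_lit 1227) (.e (nat_lit 163950) (nat_lit 21) (.e (nat_lit 500071) (nat_lit 19) (.e (nat_lit 73789) (nat_lit 45) (.e (nat_lit 1139) (nat_lit 84) (.e (nat_lit 32788) (nat_lit 10) (.e (nat_lit 81664) (nat_lit 35) .nil)))))) (.g (nat_lit 5) .nil .nil))) 
(.lf (nat_lit 253811) (.g (nat_lit 1736) (.e (nat_lit 163950) (nat_lit 21) (.e (nat_lit 507648) (nat_lit 20) (.e (nat_lit 81947) (nat_lit 20) (.e (nat_lit 1842) (nat_lit 123) (.e (nat_lit 548890) (nat_lit 10) (.e (nat_lit 81664) (nat_lit 35) .nil)))))) (.g (nat_lit 5) .nil .nil))))) (.nd (nat_lit 4) (.nd (nat_lit 5) 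
(.lf (nat_lit 253771) (.g (nat_lit 688) (.e (nat_lit 163950) (nat_lit 21) (.e (nat_lit 500070) (nat_lit 19) (.e (nat_lit 81664) (nat_lit 35) (.e (nat_lit 163962) (nat_lit 25) (.e (nat_lit 532554) (nat_lit 13) (.e (nat_lit 376576) (nat_lit 3) .nil)))))) (.g (nat_lit 4) .nil .nil))) 
(.lf (nat_lit 253803) (.g (nat_lit 601) (.e (nat_lit 163950) (nat_lit 21) (.e (nat_lit 507648) (nat_lit 20) (.e (nat_lit 81939) (nat_lit 20) (.e (nat_lit 1841) (nat_lit 123) (.e (nat_lit 548890) (nat_lit 10) (.e (nat_lit 81664) (nat_lit 35) .nil)))))) (.g (nat_lit 5) .nil .nil)))) (.nd (nat_lit 5) 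
(.lf (nat_lit 253787) (.g (nat_lit 873) (.e (nat_lit 163950) (nat_lit 21) (.e (nat_lit 500073) (nat_lit 19) (.e (nat_lit 81664) (nat_lit 35) (.e (nat_lit 163950) (nat_lit 21) (.e (nat_lit 500070) (nat_lit 19) (.e (nat_lit 81664) (nat_lit 35) .nil)))))) (.g (nat_lit 4) .nil .nil))) 
(.lf (nat_lit 253819) (.g (nat_lit 3139) (.e (nat_lit 163950) (nat_lit 21) (.e (nat_lit 507648) (nat_lit 20) (.e (nat_lit 81955) (nat_lit 23) (.e (nat_lit 98350) (nat_lit 24) (.e (nat_lit 409616) (nat_lit 10) (.e (nat_lit 7936) (nat_lit 315) .nil)))))) (.g (nat_lit 5) .nil .nil)))))) (.nd (nat_lit 3) (.nd (nat_lit 4) (.nd (nat_lit 5) 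
(.lf (nat_lit 253767) (.g (nat_lit 624) (.e (nat_lit 163950) (nat_lit 21) (.e (nat_lit 500070) (nat_lit 19) (.e (nat_lit 81664) (nat_lit 35) (.e (nat_lit 163950) (nat_lit 21) (.e (nat_lit 500070) (nat_lit 19) (.e (nat_lit 81664) (nat_lit 35) .nil)))))) (.g (nat_lit 4) .nil .nil))) 
(.lf (nat_lit 253799) (.g (nat_lit 4035) (.e (nat_lit 163950) (nat_lit 21) (.e (nat_lit 500078) (nat_lit 20) (.e (nat_lit 81956) (nat_lit 23) (.e (nat_lit 98350) (nat_lit 24) (.e (nat_lit 409617) (nat_lit 10) .nil))))) .nil))) (.nd (nat_lit 5) 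
(.lf (nat_lit 253783) (.g (nat_lit 1040) (.e (nat_lit 163950) (nat_lit 21) (.e (nat_lit 500072) (nat_lit 19) (.e (nat_lit 81664) (nat_lit 35) (.e (nat_lit 163950) (nat_lit 21) (.e (nat_lit 500073) (nat_lit 19) (.e (nat_lit 81664) (nat_lit 35) .nil)))))) (.g (nat_lit 5) .nil .nil))) 
(.lf (nat_lit 253815) (.g (nat_lit 1304) (.e (nat_lit 163950) (nat_lit 21) (.e (nat_lit 507648) (nat_lit 20) (.e (nat_lit 81951) (nat_lit 22) (.e (nat_lit 90165) (nat_lit 12) (.e (nat_lit 164219) (nat_lit 180) (.e (nat_lit 237312) (nat_lit 249) .nil)))))) (.g (nat_lit 5) .nil .nil))))) (.nd (nat_lit 4) (.nd (nat_lit 5) 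
(.lf (nat_lit 253775) (.g (nat_lit 761) (.e (nat_lit 163950) (nat_lit 21) (.e (nat_lit 500071) (nat_lit 19) (.e (nat_lit 81664) (nat_lit 35) (.e (nat_lit 163950) (nat_lit 21) (.e (nat_lit 507648) (nat_lit 19) (.e (nat_lit 81664) (nat_lit 35) .nil)))))) (.g (nat_lit 4) .nil .nil))) 
(.lf (nat_lit 253807) (.g (nat_lit 1506) (.e (nat_lit 163950) (nat_lit 21) (.e (nat_lit 507648) (nat_lit 20) (.e (nat_lit 81943) (nat_lit 20) (.e (nat_lit 1842) (nat_lit 123) (.e (nat_lit 548890) (nat_lit 10) (.e (nat_lit 81664) (nat_lit 35) .nil)))))) (.g (nat_lit 5) .nil .nil)))) (.nd (nat_lit 5) 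
(.lf (nat_lit 253791) (.g (nat_lit 1173) (.e (nat_lit 163950) (nat_lit 21) (.e (nat_lit 500073) (nat_lit 19) (.e (nat_lit 81664) (nat_lit 38) (.e (nat_lit 229433) (nat_lit 25) (.e (nat_lit 532553) (nat_lit 13) (.e (nat_lit 376576) (nat_lit 3) .nil)))))) (.g (nat_lit 5) .nil .nil))) 
(.lf (nat_lit 253823) (.g (nat_lit 2172) (.e (nat_lit 163950) (nat_lit 21) (.e (nat_lit 507648) (nat_lit 20) (.e (nat_lit 81956) (nat_lit 23) (.e (nat_lit 98389) (nat_lit 33) (.e (nat_lit 491526) (nat_lit 0) (.e (nat_lit 7936) (nat_lit 360) .nil)))))) (.g (nat_lit 5) .nil .nil)))))))))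

noncomputable def tv3291 : DT := (.nd (nat_lit 0) (.nd (nat_lit 1) (.nd (nat_lit 2) (.nd (nat_lit 3) (.nd (nat_lit 4) (.nd (nat_lit 5) 
(.lf (nat_lit 253824) (.g (nat_lit 742) (.e (nat_lit 171776) (nat_lit 23) (.e (nat_lit 516151) (nat_lit 9) (.e (nat_lit 426132) (nat_lit 3) .nil))) .nil)) 
(.lf (nat_lit 253856) (.g (nat_lit 2717) (.e (nat_lit 163962) (nat_lit 25) (.e (nat_lit 532499) (nat_lit 1) (.e (nat_lit 57926) (nat_lit 282) (.e (nat_lit 163868) (nat_lit 2) (.e (nat_lit 196670) (nat_lit 14) .nil))))) .nil))) (.nd (nat_lit 5) 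
(.lf (nat_lit 253840) (.g (nat_lit 3392) (.e (nat_lit 163961) (nat_lit 25) (.e (nat_lit 532535) (nat_lit 9) (.e (nat_lit 336099) (nat_lit 9) (.e (nat_lit 336028) (nat_lit 3) (.e (nat_lit 98349) (nat_lit 24) .nil))))) .nil)) 
(.lf (nat_lit 253872) (.g (nat_lit 3220) (.e (nat_lit 163962) (nat_lit 25) (.e (nat_lit 532501) (nat_lit 1) (.e (nat_lit 57851) (nat_lit 252) (.e (nat_lit 57354) (nat_lit 0) (.e (nat_lit 1857) (nat_lit 124) (.e (nat_lit 557103) (nat_lit 14) (.e (nat_lit 180243) (nat_lit 5) (.e (nat_lit 532508) (nat_lit 2) (.e (nat_lit 114432) (nat_lit 3) .nil))))))))) (.g (nat_lit 4) .nil .nil))))) 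
(.nd (nat_lit 4) (.nd (nat_lit 5) 
(.lf (nat_lit 253832) (.g (nat_lit 2171) (.e (nat_lit 171776) (nat_lit 23) (.e (nat_lit 516166) (nat_lit 12) (.e (nat_lit 450579) (nat_lit 5) (.e (nat_lit 532530) (nat_lit 9) .nil)))) .nil)) 
(.lf (nat_lit 253864) (.g (nat_lit 1972) (.e (nat_lit 163962) (nat_lit 25) (.e (nat_lit 532500) (nat_lit 1) (.e (nat_lit 57851) (nat_lit 252) (.e (nat_lit 57354) (nat_lit 0) (.e (nat_lit 1855) (nat_lit 124) .nil))))) .nil))) (.nd (nat_lit 5) 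
(.lf (nat_lit 253848) (.g (nat_lit 4020) (.e (nat_lit 163962) (nat_lit 25) (.e (nat_lit 532490) (nat_lit 0) (.e (nat_lit 1086) (nat_lit 81) (.e (nat_lit 5949) (nat_lit 322) (.e (nat_lit 57373) (nat_lit 2) (.e (nat_lit 90174) (nat_lit 14) (.e (nat_lit 180243) (nat_lit 5) (.e (nat_lit 532508) (nat_lit 2) (.e (nat_lit 114432) (nat_lit 3) .nil))))))))) (.g (nat_lit 7) .nil .nil))) 
(.lf (nat_lit 253880) (.g (nat_lit 527) (.e (nat_lit 163962) (nat_lit 25) (.e (nat_lit 532515) (nat_lit 3) (.e (nat_lit 114723) (nat_lit 24) .nil))) .nil))))) (.nd (nat_lit 3) (.nd (nat_lit 4) (.nd (nat_lit 5) 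
(.lf (nat_lit 253828) (.g (nat_lit 1150) (.e (nat_lit 171776) (nat_lit 23) (.e (nat_lit 516163) (nat_lit 11) (.e (nat_lit 442390) (nat_lit 11) (.e (nat_lit 336387) (nat_lit 27) .nil)))) .nil)) 
(.lf (nat_lit 253860) (.g (nat_lit 2922) (.e (nat_lit 163962) (nat_lit 25) (.e (nat_lit 532499) (nat_lit 1) (.e (nat_lit 57927) (nat_lit 282) (.e (nat_lit 163873) (nat_lit 3) (.e (nat_lit 204862) (nat_lit 27) (.e (nat_lit 344117) (nat_lit 21) (.e (nat_lit 516123) (nat_lit 2) (.e (nat_lit 213033) (nat_lit 12) .nil)))))))) (.g (nat_lit 4) .nil .nil)))) (.nd (nat_lit 5) 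
(.lf (nat_lit 253844) (.g (nat_lit 547) (.e (nat_lit 163962) (nat_lit 25) (.e (nat_lit 532481) (nat_lit 0) (.e (nat_lit 2031) (nat_lit 140) .nil))) .nil)) 
(.lf (nat_lit 253876) (.g (nat_lit 1341) (.e (nat_lit 163962) (nat_lit 25) (.e (nat_lit 532514) (nat_lit 3) (.e (nat_lit 114702) (nat_lit 20) (.e (nat_lit 2198) (nat_lit 144) (.e (nat_lit 720933) (nat_lit 21) (.e (nat_lit 57870) (nat_lit 264) (.e (nat_lit 1210) (nat_lit 89) (.e (nat_lit 81664) (nat_lit 35) .nil)))))))) (.g (nat_lit 6) .nil .nil))))) (.nd (nat_lit 4) (.nd (nat_lit 5) 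
(.lf (nat_lit 253836) (.g (nat_lit 3012) (.e (nat_lit 163959) (nat_lit 24) (.e (nat_lit 524340) (nat_lit 28) (.e (nat_lit 352313) (nat_lit 23) (.e (nat_lit 98367) (nat_lit 27) (.e (nat_lit 434275) (nat_lit 39) (.e (nat_lit 663585) (nat_lit 12) .nil)))))) (.g (nat_lit 0) .nil .nil))) 
(.lf (nat_lit 253868) (.g (nat_lit 2522) (.e (nat_lit 163962) (nat_lit 25) (.e (nat_lit 532501) (nat_lit 1) (.e (nat_lit 57851) (nat_lit 252) (.e (nat_lit 57347) (nat_lit 0) .nil)))) .nil))) (.nd (nat_lit 5) 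
(.lf (nat_lit 253852) (.g (nat_lit 3274) (.e (nat_lit 163962) (nat_lit 25) (.e (nat_lit 532499) (nat_lit 1) (.e (nat_lit 57847) (nat_lit 252) (.e (nat_lit 57345) (nat_lit 0) (.e (nat_lit 1860) (nat_lit 124) .nil))))) .nil)) 
(.lf (nat_lit 253884) (.g (nat_lit 2359) (.e (nat_lit 163962) (nat_lit 25) (.e (nat_lit 532522) (nat_lit 7) (.e (nat_lit 319530) (nat_lit 16) (.e (nat_lit 286733) (nat_lit 2) (.e (nat_lit 90174) (nat_lit 14) .nil))))) .nil)))))) (.nd (nat_lit 2) (.nd (nat_lit 3) (.nd (nat_lit 4) (.nd (nat_lit 5) 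
(.lf (nat_lit 253826) (.g (nat_lit 1809) (.e (nat_lit 171776) (nat_lit 23) (.e (nat_lit 516151) (nat_lit 9) (.e (nat_lit 426331) (nat_lit 13) (.e (nat_lit 483337) (nat_lit 9) (.e (nat_lit 426024) (nat_lit 0) .nil))))) .nil)) 
(.lf (nat_lit 253858) (.g (nat_lit 2164) (.e (nat_lit 163962) (nat_lit 25) (.e (nat_lit 532499) (nat_lit 1) (.e (nat_lit 57927) (nat_lit 282) (.e (nat_lit 163868) (nat_lit 2) (.e (nat_lit 196670) (nat_lit 14) .nil))))) .nil))) (.nd (nat_lit 5) 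
(.lf (nat_lit 253842) (.g (nat_lit 2790) (.e (nat_lit 163961) (nat_lit 25) (.e (nat_lit 532535) (nat_lit 9) (.e (nat_lit 336099) (nat_lit 9) (.e (nat_lit 343808) (nat_lit 3) .nil)))) .nil)) 
(.lf (nat_lit 253874) (.g (nat_lit 1373) (.e (nat_lit 163962) (nat_lit 25) (.e (nat_lit 532507) (nat_lit 2) (.e (nat_lit 106520) (nat_lit 9) (.e (nat_lit 1281) (nat_lit 94) (.e (nat_lit 114711) (nat_lit 21) (.e (nat_lit 57870) (nat_lit 264) (.e (nat_lit 1210) (nat_lit 89) (.e (nat_lit 81664) (nat_lit 35) .nil)))))))) (.g (nat_lit 5) .nil .nil))))) (.nd (nat_lit 4) (.nd (nat_lit 5) 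
(.lf (nat_lit 253834) (.g (nat_lit 3400) (.e (nat_lit 171776) (nat_lit 23) (.e (nat_lit 516166) (nat_lit 12) (.e (nat_lit 450579) (nat_lit 5) (.e (nat_lit 532534) (nat_lit 9) (.e (nat_lit 336240) (nat_lit 15) .nil))))) .nil)) 
(.lf (nat_lit 253866) (.g (nat_lit 1301) (.e (nat_lit 163962) (nat_lit 25) (.e (nat_lit 532500) (nat_lit 1) (.e (nat_lit 57851) (nat_lit 252) (.e (nat_lit 57355) (nat_lit 0) .nil)))) .nil))) (.nd (nat_lit 5) 
(.lf (nat_lit 253850) (.g (nat_lit 725) (.e (nat_lit 163962) (nat_lit 25) (.e (nat_lit 532499) (nat_lit 1) (.e (nat_lit 57655) (nat_lit 152) .nil))) .nil)) 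
(.lf (nat_lit 253882) (.g (nat_lit 2998) (.e (nat_lit 163962) (nat_lit 25) (.e (nat_lit 532517) (nat_lit 4) (.e (nat_lit 123194) (nat_lit 266) (.e (nat_lit 57375) (nat_lit 2) (.e (nat_lit 90172) (nat_lit 14) (.e (nat_lit 180244) (nat_lit 5) (.e (nat_lit 532508) (nat_lit 2) (.e (nat_lit 114432) (nat_lit 3) .nil)))))))) (.g (nat_lit 7) .nil .nil)))))) 
(.nd (nat_lit 3) (.nd (nat_lit 4) (.nd (nat_lit 5) 
(.lf (nat_lit 253830) (.g (nat_lit 1858) (.e (nat_lit 171776) (nat_lit 23) (.e (nat_lit 516163) (nat_lit 11) (.e (nat_lit 442427) (nat_lit 23) (.e (nat_lit 204862) (nat_lit 27) (.e (nat_lit 344154) (nat_lit 35) .nil))))) .nil)) 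
(.lf (nat_lit 253862) (.g (nat_lit 2138) (.e (nat_lit 163962) (nat_lit 25) (.e (nat_lit 532500) (nat_lit 1) (.e (nat_lit 57851) (nat_lit 252) (.e (nat_lit 57347) (nat_lit 0) (.e (nat_lit 1854) (nat_lit 124) .nil))))) .nil))) (.nd (nat_lit 5) 
(.lf (nat_lit 253846) (.g (nat_lit 1698) (.e (nat_lit 163962) (nat_lit 25) (.e (nat_lit 532481) (nat_lit 0) (.e (nat_lit 2202) (nat_lit 144) (.e (nat_lit 720956) (nat_lit 25) (.e (nat_lit 114711) (nat_lit 21) (.e (nat_lit 57870) (nat_lit 264) (.e (nat_lit 1210) (nat_lit 89) (.e (nat_lit 81664) (nat_lit 35) .nil)))))))) (.g (nat_lit 5) .nil .nil))) 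
(.lf (nat_lit 253878) (.g (nat_lit 1732) (.e (nat_lit 163962) (nat_lit 25) (.e (nat_lit 532514) (nat_lit 3) (.e (nat_lit 114723) (nat_lit 24) (.e (nat_lit 106526) (nat_lit 9) (.e (nat_lit 1181) (nat_lit 87) (.e (nat_lit 57870) (nat_lit 264) (.e (nat_lit 1210) (nat_lit 89) (.e (nat_lit 81664) (nat_lit 35) .nil)))))))) (.g (nat_lit 5) .nil .nil))))) (.nd (nat_lit 4) (.nd (nat_lit 5) 
(.lf (nat_lit 253838) (.g (nat_lit 3152) (.e (nat_lit 163959) (nat_lit 24) (.e (nat_lit 524340) (nat_lit 28) (.e (nat_lit 352315) (nat_lit 23) (.e (nat_lit 98367) (nat_lit 27) (.e (nat_lit 434275) (nat_lit 39) (.e (nat_lit 663585) (nat_lit 12) .nil)))))) (.g (nat_lit 0) .nil .nil))) 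
(.lf (nat_lit 253870) (.g (nat_lit 3185) (.e (nat_lit 163962) (nat_lit 25) (.e (nat_lit 532501) (nat_lit 1) (.e (nat_lit 57851) (nat_lit 252) (.e (nat_lit 57354) (nat_lit 0) (.e (nat_lit 1855) (nat_lit 124) (.e (nat_lit 557100) (nat_lit 13) (.e (nat_lit 172065) (nat_lit 3) (.e (nat_lit 204834) (nat_lit 19) (.e (nat_lit 114432) (nat_lit 3) .nil))))))))) (.g (nat_lit 4) .nil .nil)))) 
(.nd (nat_lit 5) 
(.lf (nat_lit 253854) (.g (nat_lit 3711) (.e (nat_lit 163962) (nat_lit 25) (.e (nat_lit 532499) (nat_lit 1) (.e (nat_lit 57847) (nat_lit 252) (.e (nat_lit 57377) (nat_lit 3) .nil)))) .nil)) 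
(.lf (nat_lit 253886) (.g (nat_lit 2460) (.e (nat_lit 163962) (nat_lit 25) (.e (nat_lit 532522) (nat_lit 7) (.e (nat_lit 319530) (nat_lit 16) (.e (nat_lit 286735) (nat_lit 3) (.e (nat_lit 98350) (nat_lit 24) .nil))))) .nil))))))) (.nd (nat_lit 1) (.nd (nat_lit 2) (.nd (nat_lit 3) (.nd (nat_lit 4) (.nd (nat_lit 5) 
(.lf (nat_lit 253825) (.g (nat_lit 534) (.e (nat_lit 171776) (nat_lit 23) (.e (nat_lit 516151) (nat_lit 9) (.e (nat_lit 426331) (nat_lit 13) .nil))) .nil)) 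
(.lf (nat_lit 253857) (.g (nat_lit 2210) (.e (nat_lit 163962) (nat_lit 25) (.e (nat_lit 532499) (nat_lit 1) (.e (nat_lit 57926) (nat_lit 282) (.e (nat_lit 163871) (nat_lit 2) (.e (nat_lit 196670) (nat_lit 14) .nil))))) .nil))) (.nd (nat_lit 5) 
(.lf (nat_lit 253841) (.g (nat_lit 3372) (.e (nat_lit 163961) (nat_lit 25) (.e (nat_lit 532535) (nat_lit 9) (.e (nat_lit 336099) (nat_lit 9) (.e (nat_lit 336028) (nat_lit 3) (.e (nat_lit 98350) (nat_lit 24) .nil))))) .nil)) 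
(.lf (nat_lit 253873) (.g (nat_lit 2126) (.e (nat_lit 163962) (nat_lit 25) (.e (nat_lit 532507) (nat_lit 2) (.e (nat_lit 106517) (nat_lit 9) (.e (nat_lit 1281) (nat_lit 94) (.e (nat_lit 114711) (nat_lit 21) (.e (nat_lit 57870) (nat_lit 264) (.e (nat_lit 1210) (nat_lit 89) (.e (nat_lit 81664) (nat_lit 35) .nil)))))))) (.g (nat_lit 7) .nil .nil))))) (.nd (nat_lit 4) (.nd (nat_lit 5) 
(.lf (nat_lit 253833) (.g (nat_lit 3255) (.e (nat_lit 171776) (nat_lit 23) (.e (nat_lit 516166) (nat_lit 12) (.e (nat_lit 450579) (nat_lit 5) (.e (nat_lit 532530) (nat_lit 9) (.e (nat_lit 336240) (nat_lit 15) .nil))))) .nil)) 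
(.lf (nat_lit 253865) (.g (nat_lit 4828) (.e (nat_lit 163962) (nat_lit 25) (.e (nat_lit 532500) (nat_lit 1) (.e (nat_lit 57851) (nat_lit 252) (.e (nat_lit 57354) (nat_lit 0) (.e (nat_lit 1855) (nat_lit 124) (.e (nat_lit 557103) (nat_lit 14) (.e (nat_lit 180243) (nat_lit 5) (.e (nat_lit 532508) (nat_lit 2) (.e (nat_lit 114432) (nat_lit 3) .nil))))))))) (.g (nat_lit 8) .nil .nil)))) 
(.nd (nat_lit 5) 
(.lf (nat_lit 253849) (.g (nat_lit 557) (.e (nat_lit 163962) (nat_lit 25) (.e (nat_lit 532490) (nat_lit 0) (.e (nat_lit 7936) (nat_lit 348) .nil))) .nil)) 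
(.lf (nat_lit 253881) (.g (nat_lit 2972) (.e (nat_lit 163962) (nat_lit 25) (.e (nat_lit 532517) (nat_lit 4) (.e (nat_lit 123194) (nat_lit 266) (.e (nat_lit 57372) (nat_lit 2) (.e (nat_lit 90172) (nat_lit 14) (.e (nat_lit 180244) (nat_lit 5) (.e (nat_lit 532508) (nat_lit 2) (.e (nat_lit 114432) (nat_lit 3) .nil)))))))) (.g (nat_lit 7) .nil .nil)))))) 
(.nd (nat_lit 3) (.nd (nat_lit 4) (.nd (nat_lit 5) 
(.lf (nat_lit 253829) (.g (nat_lit 1925) (.e (nat_lit 171776) (nat_lit 23) (.e (nat_lit 516163) (nat_lit 11) (.e (nat_lit 442424) (nat_lit 22) (.e (nat_lit 196666) (nat_lit 13) (.e (nat_lit 65546) (nat_lit 0) .nil))))) .nil)) 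
(.lf (nat_lit 253861) (.g (nat_lit 892) (.e (nat_lit 163962) (nat_lit 25) (.e (nat_lit 532500) (nat_lit 1) (.e (nat_lit 57829) (nat_lit 250) (.e (nat_lit 1183) (nat_lit 87) .nil)))) .nil))) (.nd (nat_lit 5) 
(.lf (nat_lit 253845) (.g (nat_lit 547) (.e (nat_lit 163962) (nat_lit 25) (.e (nat_lit 532481) (nat_lit 0) (.e (nat_lit 2202) (nat_lit 144) .nil))) .nil)) 
(.lf (nat_lit 253877) (.g (nat_lit 1335) (.e (nat_lit 163962) (nat_lit 25) (.e (nat_lit 532514) (nat_lit 3) (.e (nat_lit 114702) (nat_lit 20) (.e (nat_lit 2200) (nat_lit 144) (.e (nat_lit 720933) (nat_lit 21) (.e (nat_lit 57870) (nat_lit 264) (.e (nat_lit 1210) (nat_lit 89) (.e (nat_lit 81664) (nat_lit 35) .nil)))))))) (.g (nat_lit 6) .nil .nil))))) (.nd (nat_lit 4) (.nd (nat_lit 5) 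
(.lf (nat_lit 253837) (.g (nat_lit 2997) (.e (nat_lit 163959) (nat_lit 24) (.e (nat_lit 524340) (nat_lit 28) (.e (nat_lit 352315) (nat_lit 23) (.e (nat_lit 98366) (nat_lit 27) (.e (nat_lit 434275) (nat_lit 39) (.e (nat_lit 663585) (nat_lit 12) .nil)))))) (.g (nat_lit 0) .nil .nil))) 
(.lf (nat_lit 253869) (.g (nat_lit 2435) (.e (nat_lit 163962) (nat_lit 25) (.e (nat_lit 532501) (nat_lit 1) (.e (nat_lit 57851) (nat_lit 252) (.e (nat_lit 57354) (nat_lit 0) .nil)))) .nil))) (.nd (nat_lit 5) 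
(.lf (nat_lit 253853) (.g (nat_lit 2872) (.e (nat_lit 163962) (nat_lit 25) (.e (nat_lit 532499) (nat_lit 1) (.e (nat_lit 57847) (nat_lit 252) (.e (nat_lit 57372) (nat_lit 2) .nil)))) .nil)) 
(.lf (nat_lit 253885) (.g (nat_lit 1372) (.e (nat_lit 163962) (nat_lit 25) (.e (nat_lit 532522) (nat_lit 7) (.e (nat_lit 319530) (nat_lit 16) (.e (nat_lit 286735) (nat_lit 3) .nil)))) .nil)))))) (.nd (nat_lit 2) (.nd (nat_lit 3) (.nd (nat_lit 4) (.nd (nat_lit 5) 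
(.lf (nat_lit 253827) (.g (nat_lit 2247) (.e (nat_lit 171776) (nat_lit 23) (.e (nat_lit 516160) (nat_lit 10) (.e (nat_lit 434248) (nat_lit 28) (.e (nat_lit 573487) (nat_lit 14) (.e (nat_lit 73753) (nat_lit 8) .nil))))) .nil)) 
(.lf (nat_lit 253859) (.g (nat_lit 2920) (.e (nat_lit 163962) (nat_lit 25) (.e (nat_lit 532499) (nat_lit 1) (.e (nat_lit 57927) (nat_lit 282) (.e (nat_lit 163873) (nat_lit 3) (.e (nat_lit 204862) (nat_lit 27) (.e (nat_lit 344117) (nat_lit 21) (.e (nat_lit 516106) (nat_lit 0) (.e (nat_lit 3721) (nat_lit 227) (.e (nat_lit 778474) (nat_lit 12) .nil))))))))) (.g (nat_lit 4) .nil .nil)))) 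
(.nd (nat_lit 5) 
(.lf (nat_lit 253843) (.g (nat_lit 4358) (.e (nat_lit 163961) (nat_lit 25) (.e (nat_lit 532550) (nat_lit 12) (.e (nat_lit 360475) (nat_lit 8) (.e (nat_lit 557086) (nat_lit 11) .nil)))) .nil)) 
(.lf (nat_lit 253875) (.g (nat_lit 1637) (.e (nat_lit 163962) (nat_lit 25) (.e (nat_lit 532513) (nat_lit 3) (.e (nat_lit 114721) (nat_lit 24) (.e (nat_lit 106526) (nat_lit 9) (.e (nat_lit 1181) (nat_lit 87) (.e (nat_lit 57870) (nat_lit 264) (.e (nat_lit 1210) (nat_lit 89) (.e (nat_lit 81664) (nat_lit 35) .nil)))))))) (.g (nat_lit 4) .nil .nil))))) (.nd (nat_lit 4) (.nd (nat_lit 5) 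
(.lf (nat_lit 253835) (.g (nat_lit 2610) (.e (nat_lit 163959) (nat_lit 24) (.e (nat_lit 524340) (nat_lit 28) (.e (nat_lit 352313) (nat_lit 23) (.e (nat_lit 98366) (nat_lit 27) (.e (nat_lit 434275) (nat_lit 39) (.e (nat_lit 663585) (nat_lit 12) .nil)))))) (.g (nat_lit 0) .nil .nil))) 
(.lf (nat_lit 253867) (.g (nat_lit 573) (.e (nat_lit 163962) (nat_lit 25) (.e (nat_lit 532500) (nat_lit 1) (.e (nat_lit 65280) (nat_lit 266) .nil))) .nil))) (.nd (nat_lit 5) 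
(.lf (nat_lit 253851) (.g (nat_lit 820) (.e (nat_lit 163962) (nat_lit 25) (.e (nat_lit 532499) (nat_lit 1) (.e (nat_lit 57847) (nat_lit 252) .nil))) .nil)) 
(.lf (nat_lit 253883) (.g (nat_lit 3803) (.e (nat_lit 163962) (nat_lit 25) (.e (nat_lit 532522) (nat_lit 7) (.e (nat_lit 319530) (nat_lit 16) (.e (nat_lit 286733) (nat_lit 2) (.e (nat_lit 90165) (nat_lit 12) (.e (nat_lit 164217) (nat_lit 178) (.e (nat_lit 123176) (nat_lit 259) .nil))))))) (.g (nat_lit 5) .nil .nil)))))) (.nd (nat_lit 3) (.nd (nat_lit 4) (.nd (nat_lit 5) 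
(.lf (nat_lit 253831) (.g (nat_lit 1890) (.e (nat_lit 171776) (nat_lit 23) (.e (nat_lit 516163) (nat_lit 11) (.e (nat_lit 442427) (nat_lit 23) (.e (nat_lit 204863) (nat_lit 27) (.e (nat_lit 344154) (nat_lit 35) .nil))))) .nil)) 
(.lf (nat_lit 253863) (.g (nat_lit 1223) (.e (nat_lit 163962) (nat_lit 25) (.e (nat_lit 532500) (nat_lit 1) (.e (nat_lit 57851) (nat_lit 252) (.e (nat_lit 57354) (nat_lit 0) .nil)))) .nil))) (.nd (nat_lit 5) 
(.lf (nat_lit 253847) (.g (nat_lit 689) (.e (nat_lit 163962) (nat_lit 25) (.e (nat_lit 532490) (nat_lit 0) (.e (nat_lit 1086) (nat_lit 81) .nil))) .nil)) 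
(.lf (nat_lit 253879) (.g (nat_lit 1081) (.e (nat_lit 163962) (nat_lit 25) (.e (nat_lit 532514) (nat_lit 3) (.e (nat_lit 114723) (nat_lit 24) (.e (nat_lit 106532) (nat_lit 10) (.e (nat_lit 8262) (nat_lit 45) (.e (nat_lit 778323) (nat_lit 5) (.e (nat_lit 81664) (nat_lit 35) .nil))))))) (.g (nat_lit 4) .nil .nil))))) (.nd (nat_lit 4) (.nd (nat_lit 5) 
(.lf (nat_lit 253839) (.g (nat_lit 1477) (.e (nat_lit 163960) (nat_lit 24) (.e (nat_lit 524320) (nat_lit 12) (.e (nat_lit 450579) (nat_lit 5) (.e (nat_lit 532530) (nat_lit 9) (.e (nat_lit 336258) (nat_lit 15) (.e (nat_lit 3603) (nat_lit 225) (.e (nat_lit 761896) (nat_lit 15) .nil))))))) (.g (nat_lit 4) .nil .nil))) 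
(.lf (nat_lit 253871) (.g (nat_lit 3736) (.e (nat_lit 163962) (nat_lit 25) (.e (nat_lit 532501) (nat_lit 1) (.e (nat_lit 57851) (nat_lit 252) (.e (nat_lit 57354) (nat_lit 0) (.e (nat_lit 1855) (nat_lit 124) (.e (nat_lit 557103) (nat_lit 14) (.e (nat_lit 180243) (nat_lit 5) (.e (nat_lit 532508) (nat_lit 2) (.e (nat_lit 114432) (nat_lit 3) .nil))))))))) (.g (nat_lit 5) .nil .nil)))) 
(.nd (nat_lit 5) 
(.lf (nat_lit 253855) (.g (nat_lit 4329) (.e (nat_lit 163962) (nat_lit 25) (.e (nat_lit 532499) (nat_lit 1) (.e (nat_lit 57847) (nat_lit 252) (.e (nat_lit 57377) (nat_lit 3) (.e (nat_lit 98313) (nat_lit 9) .nil))))) .nil)) 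
(.lf (nat_lit 253887) (.g (nat_lit 3720) (.e (nat_lit 163962) (nat_lit 25) (.e (nat_lit 532522) (nat_lit 7) (.e (nat_lit 319531) (nat_lit 16) (.e (nat_lit 286733) (nat_lit 2) (.e (nat_lit 90165) (nat_lit 12) (.e (nat_lit 164217) (nat_lit 178) (.e (nat_lit 123176) (nat_lit 259) .nil))))))) (.g (nat_lit 5) .nil .nil)))))))))

noncomputable def tv3292 : DT := (.nd (nat_lit 0) (.nd (nat_lit 1) (.nd (nat_lit 2) (.nd (nat_lit 3) (.nd (nat_lit 4) (.nd (nat_lit 5) 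
(.lf (nat_lit 253888) (.g (nat_lit 1340) (.e (nat_lit 163962) (nat_lit 25) (.e (nat_lit 532522) (nat_lit 7) (.e (nat_lit 319531) (nat_lit 16) (.e (nat_lit 286735) (nat_lit 3) .nil)))) .nil)) 
(.lf (nat_lit 253920) (.g (nat_lit 2884) (.e (nat_lit 163962) (nat_lit 25) (.e (nat_lit 532526) (nat_lit 8) (.e (nat_lit 327698) (nat_lit 8) (.e (nat_lit 303117) (nat_lit 2) (.e (nat_lit 196624) (nat_lit 9) (.e (nat_lit 1602) (nat_lit 112) (.e (nat_lit 376576) (nat_lit 3) .nil))))))) (.g (nat_lit 5) .nil .nil)))) (.nd (nat_lit 5) 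
(.lf (nat_lit 253904) (.g (nat_lit 4876) (.e (nat_lit 163962) (nat_lit 25) (.e (nat_lit 532523) (nat_lit 7) (.e (nat_lit 319530) (nat_lit 16) (.e (nat_lit 286735) (nat_lit 3) (.e (nat_lit 98325) (nat_lit 17) (.e (nat_lit 7083) (nat_lit 379) (.e (nat_lit 123176) (nat_lit 259) .nil))))))) (.g (nat_lit 6) .nil .nil))) 
(.lf (nat_lit 253936) (.g (nat_lit 2277) (.e (nat_lit 163962) (nat_lit 25) (.e (nat_lit 532535) (nat_lit 9) (.e (nat_lit 336176) (nat_lit 10) (.e (nat_lit 344130) (nat_lit 26) (.e (nat_lit 557067) (nat_lit 9) (.e (nat_lit 249) (nat_lit 21) (.e (nat_lit 335894) (nat_lit 0) (.e (nat_lit 6714) (nat_lit 360) .nil)))))))) (.g (nat_lit 4) .nil .nil))))) (.nd (nat_lit 4) (.nd (nat_lit 5) 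
(.lf (nat_lit 253896) (.g (nat_lit 2619) (.e (nat_lit 163962) (nat_lit 25) (.e (nat_lit 532523) (nat_lit 7) (.e (nat_lit 319528) (nat_lit 16) (.e (nat_lit 286733) (nat_lit 2) (.e (nat_lit 90165) (nat_lit 12) (.e (nat_lit 164217) (nat_lit 178) (.e (nat_lit 123176) (nat_lit 259) .nil))))))) (.g (nat_lit 4) .nil .nil))) 
(.lf (nat_lit 253928) (.g (nat_lit 817) (.e (nat_lit 163962) (nat_lit 25) (.e (nat_lit 532535) (nat_lit 9) (.e (nat_lit 336065) (nat_lit 8) .nil))) .nil))) (.nd (nat_lit 5) 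
(.lf (nat_lit 253912) (.g (nat_lit 3067) (.e (nat_lit 163962) (nat_lit 25) (.e (nat_lit 532523) (nat_lit 7) (.e (nat_lit 319533) (nat_lit 16) (.e (nat_lit 286733) (nat_lit 2) (.e (nat_lit 90174) (nat_lit 14) .nil))))) .nil)) 
(.lf (nat_lit 253944) (.g (nat_lit 2413) (.e (nat_lit 163962) (nat_lit 25) (.e (nat_lit 532535) (nat_lit 9) (.e (nat_lit 336176) (nat_lit 10) (.e (nat_lit 344132) (nat_lit 26) (.e (nat_lit 557073) (nat_lit 9) (.e (nat_lit 7936) (nat_lit 25) (.e (nat_lit 376576) (nat_lit 3) .nil))))))) (.g (nat_lit 5) .nil .nil)))))) (.nd (nat_lit 3) (.nd (nat_lit 4) (.nd (nat_lit 5) 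
(.lf (nat_lit 253892) (.g (nat_lit 1385) (.e (nat_lit 163962) (nat_lit 25) (.e (nat_lit 532522) (nat_lit 7) (.e (nat_lit 319537) (nat_lit 19) (.e (nat_lit 311315) (nat_lit 3) .nil)))) .nil)) 
(.lf (nat_lit 253924) (.g (nat_lit 2007) (.e (nat_lit 163962) (nat_lit 25) (.e (nat_lit 532535) (nat_lit 9) (.e (nat_lit 336058) (nat_lit 7) (.e (nat_lit 319519) (nat_lit 12) (.e (nat_lit 32774) (nat_lit 5) (.e (nat_lit 1603) (nat_lit 112) (.e (nat_lit 376576) (nat_lit 3) .nil))))))) (.g (nat_lit 4) .nil .nil)))) (.nd (nat_lit 5) 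
(.lf (nat_lit 253908) (.g (nat_lit 2708) (.e (nat_lit 163962) (nat_lit 25) (.e (nat_lit 532523) (nat_lit 7) (.e (nat_lit 319532) (nat_lit 16) (.e (nat_lit 286733) (nat_lit 2) (.e (nat_lit 90165) (nat_lit 12) (.e (nat_lit 164217) (nat_lit 178) (.e (nat_lit 123176) (nat_lit 259) .nil))))))) (.g (nat_lit 4) .nil .nil))) 
(.lf (nat_lit 253940) (.g (nat_lit 1961) (.e (nat_lit 163962) (nat_lit 25) (.e (nat_lit 532535) (nat_lit 9) (.e (nat_lit 336176) (nat_lit 10) (.e (nat_lit 344130) (nat_lit 26) (.e (nat_lit 557086) (nat_lit 11) (.e (nat_lit 24578) (nat_lit 0) (.e (nat_lit 6714) (nat_lit 360) .nil))))))) (.g (nat_lit 4) .nil .nil))))) (.nd (nat_lit 4) (.nd (nat_lit 5) 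
(.lf (nat_lit 253900) (.g (nat_lit 1377) (.e (nat_lit 163962) (nat_lit 25) (.e (nat_lit 532523) (nat_lit 7) (.e (nat_lit 319529) (nat_lit 16) (.e (nat_lit 286735) (nat_lit 3) .nil)))) .nil)) 
(.lf (nat_lit 253932) (.g (nat_lit 2541) (.e (nat_lit 163962) (nat_lit 25) (.e (nat_lit 532535) (nat_lit 9) (.e (nat_lit 336176) (nat_lit 10) (.e (nat_lit 344130) (nat_lit 26) (.e (nat_lit 557064) (nat_lit 9) (.e (nat_lit 328) (nat_lit 25) (.e (nat_lit 376576) (nat_lit 3) .nil))))))) (.g (nat_lit 6) .nil .nil)))) (.nd (nat_lit 5) 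
(.lf (nat_lit 253916) (.g (nat_lit 2889) (.e (nat_lit 163962) (nat_lit 25) (.e (nat_lit 532523) (nat_lit 7) (.e (nat_lit 319534) (nat_lit 16) (.e (nat_lit 286733) (nat_lit 2) (.e (nat_lit 90173) (nat_lit 14) .nil))))) .nil)) 
(.lf (nat_lit 253948) (.g (nat_lit 3286) (.e (nat_lit 163962) (nat_lit 25) (.e (nat_lit 532535) (nat_lit 9) (.e (nat_lit 336176) (nat_lit 10) (.e (nat_lit 344133) (nat_lit 26) (.e (nat_lit 557066) (nat_lit 9) (.e (nat_lit 328) (nat_lit 25) (.e (nat_lit 376576) (nat_lit 3) .nil))))))) (.g (nat_lit 6) .nil .nil))))))) (.nd (nat_lit 2) (.nd (nat_lit 3) (.nd (nat_lit 4) (.nd (nat_lit 5) 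
(.lf (nat_lit 253890) (.g (nat_lit 2094) (.e (nat_lit 163962) (nat_lit 25) (.e (nat_lit 532522) (nat_lit 7) (.e (nat_lit 319531) (nat_lit 16) (.e (nat_lit 286735) (nat_lit 3) (.e (nat_lit 98350) (nat_lit 24) .nil))))) .nil)) 
(.lf (nat_lit 253922) (.g (nat_lit 2099) (.e (nat_lit 163962) (nat_lit 25) (.e (nat_lit 532529) (nat_lit 9) (.e (nat_lit 336310) (nat_lit 16) (.e (nat_lit 164183) (nat_lit 154) (.e (nat_lit 57373) (nat_lit 2) (.e (nat_lit 98048) (nat_lit 5) (.e (nat_lit 81664) (nat_lit 35) .nil))))))) (.g (nat_lit 4) .nil .nil)))) (.nd (nat_lit 5) 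
(.lf (nat_lit 253906) (.g (nat_lit 3081) (.e (nat_lit 163962) (nat_lit 25) (.e (nat_lit 532523) (nat_lit 7) (.e (nat_lit 319531) (nat_lit 16) (.e (nat_lit 286733) (nat_lit 2) (.e (nat_lit 90173) (nat_lit 14) .nil))))) .nil)) 
(.lf (nat_lit 253938) (.g (nat_lit 2315) (.e (nat_lit 163962) (nat_lit 25) (.e (nat_lit 532535) (nat_lit 9) (.e (nat_lit 336176) (nat_lit 10) (.e (nat_lit 344130) (nat_lit 26) (.e (nat_lit 557074) (nat_lit 9) (.e (nat_lit 284) (nat_lit 21) (.e (nat_lit 335893) (nat_lit 0) (.e (nat_lit 6714) (nat_lit 360) .nil)))))))) (.g (nat_lit 4) .nil .nil))))) (.nd (nat_lit 4) (.nd (nat_lit 5) 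
(.lf (nat_lit 253898) (.g (nat_lit 572) (.e (nat_lit 163962) (nat_lit 25) (.e (nat_lit 532523) (nat_lit 7) (.e (nat_lit 319529) (nat_lit 16) .nil))) .nil)) 
(.lf (nat_lit 253930) (.g (nat_lit 2250) (.e (nat_lit 163962) (nat_lit 25) (.e (nat_lit 532535) (nat_lit 9) (.e (nat_lit 336176) (nat_lit 10) (.e (nat_lit 344091) (nat_lit 18) (.e (nat_lit 3928) (nat_lit 239) (.e (nat_lit 1206) (nat_lit 89) (.e (nat_lit 81664) (nat_lit 35) .nil))))))) (.g (nat_lit 4) .nil .nil)))) (.nd (nat_lit 5) 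
(.lf (nat_lit 253914) (.g (nat_lit 2096) (.e (nat_lit 163962) (nat_lit 25) (.e (nat_lit 532523) (nat_lit 7) (.e (nat_lit 319534) (nat_lit 16) (.e (nat_lit 286728) (nat_lit 0) (.e (nat_lit 1774) (nat_lit 118) .nil))))) .nil)) 
(.lf (nat_lit 253946) (.g (nat_lit 3455) (.e (nat_lit 163962) (nat_lit 25) (.e (nat_lit 532535) (nat_lit 9) (.e (nat_lit 336176) (nat_lit 10) (.e (nat_lit 344133) (nat_lit 26) (.e (nat_lit 557065) (nat_lit 9) (.e (nat_lit 328) (nat_lit 25) (.e (nat_lit 376576) (nat_lit 3) .nil))))))) (.g (nat_lit 6) .nil .nil)))))) (.nd (nat_lit 3) (.nd (nat_lit 4) (.nd (nat_lit 5) 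
(.lf (nat_lit 253894) (.g (nat_lit 1343) (.e (nat_lit 163962) (nat_lit 25) (.e (nat_lit 532523) (nat_lit 7) (.e (nat_lit 327424) (nat_lit 8) (.e (nat_lit 303117) (nat_lit 2) (.e (nat_lit 196624) (nat_lit 9) (.e (nat_lit 1602) (nat_lit 112) (.e (nat_lit 376576) (nat_lit 3) .nil))))))) (.g (nat_lit 4) .nil .nil))) 
(.lf (nat_lit 253926) (.g (nat_lit 1829) (.e (nat_lit 163962) (nat_lit 25) (.e (nat_lit 532535) (nat_lit 9) (.e (nat_lit 336061) (nat_lit 7) (.e (nat_lit 319500) (nat_lit 10) (.e (nat_lit 511) (nat_lit 41) .nil))))) .nil))) (.nd (nat_lit 5) 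
(.lf (nat_lit 253910) (.g (nat_lit 3803) (.e (nat_lit 163962) (nat_lit 25) (.e (nat_lit 532523) (nat_lit 7) (.e (nat_lit 319533) (nat_lit 16) (.e (nat_lit 286732) (nat_lit 2) (.e (nat_lit 90165) (nat_lit 12) (.e (nat_lit 164217) (nat_lit 178) (.e (nat_lit 123176) (nat_lit 259) .nil))))))) (.g (nat_lit 5) .nil .nil))) 
(.lf (nat_lit 253942) (.g (nat_lit 3458) (.e (nat_lit 163962) (nat_lit 25) (.e (nat_lit 532535) (nat_lit 9) (.e (nat_lit 336176) (nat_lit 10) (.e (nat_lit 344130) (nat_lit 26) (.e (nat_lit 557087) (nat_lit 11) (.e (nat_lit 24579) (nat_lit 0) (.e (nat_lit 6714) (nat_lit 360) .nil))))))) (.g (nat_lit 6) .nil .nil))))) (.nd (nat_lit 4) (.nd (nat_lit 5) 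
(.lf (nat_lit 253902) (.g (nat_lit 3037) (.e (nat_lit 163962) (nat_lit 25) (.e (nat_lit 532523) (nat_lit 7) (.e (nat_lit 319530) (nat_lit 16) (.e (nat_lit 286733) (nat_lit 2) (.e (nat_lit 90172) (nat_lit 14) .nil))))) .nil)) 
(.lf (nat_lit 253934) (.g (nat_lit 3556) (.e (nat_lit 163962) (nat_lit 25) (.e (nat_lit 532535) (nat_lit 9) (.e (nat_lit 336176) (nat_lit 10) (.e (nat_lit 344130) (nat_lit 26) (.e (nat_lit 557066) (nat_lit 9) (.e (nat_lit 297) (nat_lit 22) (.e (nat_lit 352000) (nat_lit 3) .nil))))))) (.g (nat_lit 6) .nil .nil)))) (.nd (nat_lit 5) 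
(.lf (nat_lit 253918) (.g (nat_lit 2596) (.e (nat_lit 163962) (nat_lit 25) (.e (nat_lit 532523) (nat_lit 7) (.e (nat_lit 327424) (nat_lit 16) (.e (nat_lit 286735) (nat_lit 3) (.e (nat_lit 98325) (nat_lit 17) (.e (nat_lit 7083) (nat_lit 379) (.e (nat_lit 123176) (nat_lit 259) .nil))))))) (.g (nat_lit 5) .nil .nil))) 
(.lf (nat_lit 253950) (.g (nat_lit 2324) (.e (nat_lit 163962) (nat_lit 25) (.e (nat_lit 532535) (nat_lit 9) (.e (nat_lit 336176) (nat_lit 10) (.e (nat_lit 344133) (nat_lit 26) (.e (nat_lit 557073) (nat_lit 9) (.e (nat_lit 290) (nat_lit 21) (.e (nat_lit 335894) (nat_lit 0) (.e (nat_lit 6714) (nat_lit 360) .nil)))))))) (.g (nat_lit 4) .nil .nil)))))))) 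
(.nd (nat_lit 1) (.nd (nat_lit 2) (.nd (nat_lit 3) (.nd (nat_lit 4) (.nd (nat_lit 5) 
(.lf (nat_lit 253889) (.g (nat_lit 4121) (.e (nat_lit 163962) (nat_lit 25) (.e (nat_lit 532522) (nat_lit 7) (.e (nat_lit 319531) (nat_lit 16) (.e (nat_lit 286735) (nat_lit 3) (.e (nat_lit 98325) (nat_lit 17) (.e (nat_lit 7083) (nat_lit 379) (.e (nat_lit 123176) (nat_lit 259) .nil))))))) (.g (nat_lit 6) .nil .nil))) 
(.lf (nat_lit 253921) (.g (nat_lit 3819) (.e (nat_lit 163962) (nat_lit 25) (.e (nat_lit 532526) (nat_lit 8) (.e (nat_lit 327699) (nat_lit 8) (.e (nat_lit 303117) (nat_lit 2) (.e (nat_lit 196624) (nat_lit 9) (.e (nat_lit 1602) (nat_lit 112) (.e (nat_lit 376576) (nat_lit 3) .nil))))))) (.g (nat_lit 5) .nil .nil)))) (.nd (nat_lit 5) 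
(.lf (nat_lit 253905) (.g (nat_lit 3338) (.e (nat_lit 163962) (nat_lit 25) (.e (nat_lit 532523) (nat_lit 7) (.e (nat_lit 319531) (nat_lit 16) (.e (nat_lit 286733) (nat_lit 2) (.e (nat_lit 90172) (nat_lit 14) (.e (nat_lit 188160) (nat_lit 43) .nil)))))) (.g (nat_lit 4) .nil .nil))) 
(.lf (nat_lit 253937) (.g (nat_lit 2872) (.e (nat_lit 163962) (nat_lit 25) (.e (nat_lit 532535) (nat_lit 9) (.e (nat_lit 336176) (nat_lit 10) (.e (nat_lit 344130) (nat_lit 26) (.e (nat_lit 557067) (nat_lit 9) (.e (nat_lit 7936) (nat_lit 25) (.e (nat_lit 376576) (nat_lit 3) .nil))))))) (.g (nat_lit 5) .nil .nil))))) (.nd (nat_lit 4) (.nd (nat_lit 5) 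
(.lf (nat_lit 253897) (.g (nat_lit 3356) (.e (nat_lit 163962) (nat_lit 25) (.e (nat_lit 532523) (nat_lit 7) (.e (nat_lit 319528) (nat_lit 16) (.e (nat_lit 286735) (nat_lit 3) (.e (nat_lit 98325) (nat_lit 17) (.e (nat_lit 7083) (nat_lit 379) (.e (nat_lit 123176) (nat_lit 259) .nil))))))) (.g (nat_lit 5) .nil .nil))) 
(.lf (nat_lit 253929) (.g (nat_lit 2972) (.e (nat_lit 163962) (nat_lit 25) (.e (nat_lit 532535) (nat_lit 9) (.e (nat_lit 336099) (nat_lit 9) (.e (nat_lit 336013) (nat_lit 2) (.e (nat_lit 90187) (nat_lit 18) (.e (nat_lit 7936) (nat_lit 101) (.e (nat_lit 278531) (nat_lit 0) (.e (nat_lit 5762) (nat_lit 315) .nil)))))))) (.g (nat_lit 4) .nil .nil)))) (.nd (nat_lit 5) 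
(.lf (nat_lit 253913) (.g (nat_lit 4756) (.e (nat_lit 163962) (nat_lit 25) (.e (nat_lit 532523) (nat_lit 7) (.e (nat_lit 319533) (nat_lit 16) (.e (nat_lit 286735) (nat_lit 3) (.e (nat_lit 98325) (nat_lit 17) (.e (nat_lit 7083) (nat_lit 379) (.e (nat_lit 123176) (nat_lit 259) .nil))))))) (.g (nat_lit 5) .nil .nil))) 
(.lf (nat_lit 253945) (.g (nat_lit 2850) (.e (nat_lit 163962) (nat_lit 25) (.e (nat_lit 532535) (nat_lit 9) (.e (nat_lit 336176) (nat_lit 10) (.e (nat_lit 344132) (nat_lit 26) (.e (nat_lit 557085) (nat_lit 11) (.e (nat_lit 24579) (nat_lit 0) (.e (nat_lit 6712) (nat_lit 360) .nil))))))) (.g (nat_lit 5) .nil .nil)))))) (.nd (nat_lit 3) (.nd (nat_lit 4) (.nd (nat_lit 5) 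
(.lf (nat_lit 253893) (.g (nat_lit 3159) (.e (nat_lit 163962) (nat_lit 25) (.e (nat_lit 532523) (nat_lit 7) (.e (nat_lit 319490) (nat_lit 0) (.e (nat_lit 5664) (nat_lit 312) (.e (nat_lit 2661) (nat_lit 167) (.e (nat_lit 196624) (nat_lit 9) (.e (nat_lit 1602) (nat_lit 112) (.e (nat_lit 376576) (nat_lit 3) .nil)))))))) (.g (nat_lit 4) .nil .nil))) 
(.lf (nat_lit 253925) (.g (nat_lit 1975) (.e (nat_lit 163962) (nat_lit 25) (.e (nat_lit 532535) (nat_lit 9) (.e (nat_lit 336058) (nat_lit 7) (.e (nat_lit 319519) (nat_lit 12) (.e (nat_lit 40704) (nat_lit 10) (.e (nat_lit 81664) (nat_lit 35) .nil)))))) (.g (nat_lit 4) .nil .nil)))) (.nd (nat_lit 5) 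
(.lf (nat_lit 253909) (.g (nat_lit 2969) (.e (nat_lit 163962) (nat_lit 25) (.e (nat_lit 532523) (nat_lit 7) (.e (nat_lit 319532) (nat_lit 16) (.e (nat_lit 286735) (nat_lit 3) (.e (nat_lit 98325) (nat_lit 17) (.e (nat_lit 7083) (nat_lit 379) (.e (nat_lit 123176) (nat_lit 259) .nil))))))) (.g (nat_lit 4) .nil .nil))) 
(.lf (nat_lit 253941) (.g (nat_lit 3786) (.e (nat_lit 163962) (nat_lit 25) (.e (nat_lit 532535) (nat_lit 9) (.e (nat_lit 336176) (nat_lit 10) (.e (nat_lit 344130) (nat_lit 26) (.e (nat_lit 557087) (nat_lit 11) (.e (nat_lit 24579) (nat_lit 0) (.e (nat_lit 6712) (nat_lit 360) .nil))))))) (.g (nat_lit 6) .nil .nil))))) (.nd (nat_lit 4) (.nd (nat_lit 5) 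
(.lf (nat_lit 253901) (.g (nat_lit 4274) (.e (nat_lit 163962) (nat_lit 25) (.e (nat_lit 532523) (nat_lit 7) (.e (nat_lit 319530) (nat_lit 16) (.e (nat_lit 286733) (nat_lit 2) (.e (nat_lit 90165) (nat_lit 12) (.e (nat_lit 164217) (nat_lit 178) (.e (nat_lit 123176) (nat_lit 259) .nil))))))) (.g (nat_lit 5) .nil .nil))) 
(.lf (nat_lit 253933) (.g (nat_lit 2943) (.e (nat_lit 163962) (nat_lit 25) (.e (nat_lit 532535) (nat_lit 9) (.e (nat_lit 336176) (nat_lit 10) (.e (nat_lit 344130) (nat_lit 26) (.e (nat_lit 557065) (nat_lit 9) (.e (nat_lit 328) (nat_lit 25) (.e (nat_lit 376576) (nat_lit 3) .nil))))))) (.g (nat_lit 6) .nil .nil)))) (.nd (nat_lit 5) 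
(.lf (nat_lit 253917) (.g (nat_lit 1891) (.e (nat_lit 163962) (nat_lit 25) (.e (nat_lit 532523) (nat_lit 7) (.e (nat_lit 327424) (nat_lit 16) (.e (nat_lit 286733) (nat_lit 2) (.e (nat_lit 90165) (nat_lit 12) (.e (nat_lit 164217) (nat_lit 178) (.e (nat_lit 123176) (nat_lit 259) .nil))))))) (.g (nat_lit 4) .nil .nil))) 
(.lf (nat_lit 253949) (.g (nat_lit 2855) (.e (nat_lit 163962) (nat_lit 25) (.e (nat_lit 532535) (nat_lit 9) (.e (nat_lit 336176) (nat_lit 10) (.e (nat_lit 344133) (nat_lit 26) (.e (nat_lit 557068) (nat_lit 9) (.e (nat_lit 7936) (nat_lit 25) (.e (nat_lit 376576) (nat_lit 3) .nil))))))) (.g (nat_lit 5) .nil .nil))))))) (.nd (nat_lit 2) (.nd (nat_lit 3) (.nd (nat_lit 4) (.nd (nat_lit 5) 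
(.lf (nat_lit 253891) (.g (nat_lit 616) (.e (nat_lit 163962) (nat_lit 25) (.e (nat_lit 532522) (nat_lit 7) (.e (nat_lit 319534) (nat_lit 16) .nil))) .nil)) 
(.lf (nat_lit 253923) (.g (nat_lit 1963) (.e (nat_lit 163962) (nat_lit 25) (.e (nat_lit 532535) (nat_lit 9) (.e (nat_lit 336058) (nat_lit 7) (.e (nat_lit 319519) (nat_lit 12) (.e (nat_lit 32772) (nat_lit 5) (.e (nat_lit 1602) (nat_lit 112) (.e (nat_lit 376576) (nat_lit 3) .nil))))))) (.g (nat_lit 4) .nil .nil)))) (.nd (nat_lit 5) 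
(.lf (nat_lit 253907) (.g (nat_lit 3939) (.e (nat_lit 163962) (nat_lit 25) (.e (nat_lit 532523) (nat_lit 7) (.e (nat_lit 319531) (nat_lit 16) (.e (nat_lit 286733) (nat_lit 2) (.e (nat_lit 90174) (nat_lit 14) (.e (nat_lit 188160) (nat_lit 43) .nil)))))) (.g (nat_lit 5) .nil .nil))) 
(.lf (nat_lit 253939) (.g (nat_lit 2934) (.e (nat_lit 163962) (nat_lit 25) (.e (nat_lit 532535) (nat_lit 9) (.e (nat_lit 336176) (nat_lit 10) (.e (nat_lit 344130) (nat_lit 26) (.e (nat_lit 557074) (nat_lit 9) (.e (nat_lit 7936) (nat_lit 25) (.e (nat_lit 376576) (nat_lit 3) .nil))))))) (.g (nat_lit 5) .nil .nil))))) (.nd (nat_lit 4) (.nd (nat_lit 5) 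
(.lf (nat_lit 253899) (.g (nat_lit 2708) (.e (nat_lit 163962) (nat_lit 25) (.e (nat_lit 532523) (nat_lit 7) (.e (nat_lit 319529) (nat_lit 16) (.e (nat_lit 286733) (nat_lit 2) (.e (nat_lit 90165) (nat_lit 12) (.e (nat_lit 164217) (nat_lit 178) (.e (nat_lit 123176) (nat_lit 259) .nil))))))) (.g (nat_lit 4) .nil .nil))) 
(.lf (nat_lit 253931) (.g (nat_lit 2173) (.e (nat_lit 163962) (nat_lit 25) (.e (nat_lit 532535) (nat_lit 9) (.e (nat_lit 336176) (nat_lit 10) (.e (nat_lit 344096) (nat_lit 18) (.e (nat_lit 3928) (nat_lit 239) (.e (nat_lit 1206) (nat_lit 89) (.e (nat_lit 81664) (nat_lit 35) .nil))))))) (.g (nat_lit 4) .nil .nil)))) (.nd (nat_lit 5) 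
(.lf (nat_lit 253915) (.g (nat_lit 3720) (.e (nat_lit 163962) (nat_lit 25) (.e (nat_lit 532523) (nat_lit 7) (.e (nat_lit 319534) (nat_lit 16) (.e (nat_lit 286732) (nat_lit 2) (.e (nat_lit 90165) (nat_lit 12) (.e (nat_lit 164217) (nat_lit 178) (.e (nat_lit 123176) (nat_lit 259) .nil))))))) (.g (nat_lit 5) .nil .nil))) 
(.lf (nat_lit 253947) (.g (nat_lit 3360) (.e (nat_lit 163962) (nat_lit 25) (.e (nat_lit 532535) (nat_lit 9) (.e (nat_lit 336176) (nat_lit 10) (.e (nat_lit 344133) (nat_lit 26) (.e (nat_lit 557066) (nat_lit 9) (.e (nat_lit 297) (nat_lit 22) (.e (nat_lit 352000) (nat_lit 3) .nil))))))) (.g (nat_lit 6) .nil .nil)))))) (.nd (nat_lit 3) (.nd (nat_lit 4) (.nd (nat_lit 5) 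
(.lf (nat_lit 253895) (.g (nat_lit 607) (.e (nat_lit 163962) (nat_lit 25) (.e (nat_lit 532523) (nat_lit 7) (.e (nat_lit 319528) (nat_lit 16) .nil))) .nil)) 
(.lf (nat_lit 253927) (.g (nat_lit 2157) (.e (nat_lit 163962) (nat_lit 25) (.e (nat_lit 532535) (nat_lit 9) (.e (nat_lit 336061) (nat_lit 7) (.e (nat_lit 319519) (nat_lit 12) (.e (nat_lit 32774) (nat_lit 5) (.e (nat_lit 1603) (nat_lit 112) (.e (nat_lit 376576) (nat_lit 3) .nil))))))) (.g (nat_lit 4) .nil .nil)))) (.nd (nat_lit 5) 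
(.lf (nat_lit 253911) (.g (nat_lit 4274) (.e (nat_lit 163962) (nat_lit 25) (.e (nat_lit 532523) (nat_lit 7) (.e (nat_lit 319533) (nat_lit 16) (.e (nat_lit 286733) (nat_lit 2) (.e (nat_lit 90165) (nat_lit 12) (.e (nat_lit 164217) (nat_lit 178) (.e (nat_lit 123176) (nat_lit 259) .nil))))))) (.g (nat_lit 5) .nil .nil))) 
(.lf (nat_lit 253943) (.g (nat_lit 2337) (.e (nat_lit 163962) (nat_lit 25) (.e (nat_lit 532535) (nat_lit 9) (.e (nat_lit 336176) (nat_lit 10) (.e (nat_lit 344132) (nat_lit 26) (.e (nat_lit 557072) (nat_lit 9) (.e (nat_lit 7936) (nat_lit 25) (.e (nat_lit 376576) (nat_lit 3) .nil))))))) (.g (nat_lit 5) .nil .nil))))) (.nd (nat_lit 4) (.nd (nat_lit 5) 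
(.lf (nat_lit 253903) (.g (nat_lit 3407) (.e (nat_lit 163962) (nat_lit 25) (.e (nat_lit 532523) (nat_lit 7) (.e (nat_lit 319530) (nat_lit 16) (.e (nat_lit 286733) (nat_lit 2) (.e (nat_lit 90174) (nat_lit 14) (.e (nat_lit 188160) (nat_lit 43) .nil)))))) (.g (nat_lit 5) .nil .nil))) 
(.lf (nat_lit 253935) (.g (nat_lit 3420) (.e (nat_lit 163962) (nat_lit 25) (.e (nat_lit 532535) (nat_lit 9) (.e (nat_lit 336176) (nat_lit 10) (.e (nat_lit 344130) (nat_lit 26) (.e (nat_lit 557066) (nat_lit 9) (.e (nat_lit 328) (nat_lit 25) (.e (nat_lit 376576) (nat_lit 3) .nil))))))) (.g (nat_lit 6) .nil .nil)))) (.nd (nat_lit 5) 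
(.lf (nat_lit 253919) (.g (nat_lit 785) (.e (nat_lit 163962) (nat_lit 25) (.e (nat_lit 532523) (nat_lit 7) (.e (nat_lit 319538) (nat_lit 19) .nil))) .nil)) 
(.lf (nat_lit 253951) (.g (nat_lit 2267) (.e (nat_lit 163962) (nat_lit 25) (.e (nat_lit 532535) (nat_lit 9) (.e (nat_lit 336176) (nat_lit 10) (.e (nat_lit 344133) (nat_lit 26) (.e (nat_lit 557073) (nat_lit 9) (.e (nat_lit 290) (nat_lit 21) (.e (nat_lit 335895) (nat_lit 0) (.e (nat_lit 6712) (nat_lit 360) .nil)))))))) (.g (nat_lit 4) .nil .nil)))))))))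

noncomputable def tv3293 : DT := (.nd (nat_lit 0) (.nd (nat_lit 1) (.nd (nat_lit 2) (.nd (nat_lit 3) (.nd (nat_lit 4) (.nd (nat_lit 5) 
(.lf (nat_lit 253952) (.g (nat_lit 3182) (.e (nat_lit 163962) (nat_lit 25) (.e (nat_lit 532535) (nat_lit 9) (.e (nat_lit 336176) (nat_lit 10) (.e (nat_lit 344133) (nat_lit 26) (.e (nat_lit 557085) (nat_lit 11) (.e (nat_lit 24579) (nat_lit 0) (.e (nat_lit 6712) (nat_lit 360) .nil))))))) (.g (nat_lit 5) .nil .nil))) 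
(.lf (nat_lit 253984) (.g (nat_lit 1130) (.e (nat_lit 163962) (nat_lit 25) (.e (nat_lit 532549) (nat_lit 12) (.e (nat_lit 360466) (nat_lit 3) (.e (nat_lit 516139) (nat_lit 7) .nil)))) .nil))) (.nd (nat_lit 5) 
(.lf (nat_lit 253968) (.g (nat_lit 1310) (.e (nat_lit 163962) (nat_lit 25) (.e (nat_lit 532544) (nat_lit 10) (.e (nat_lit 344081) (nat_lit 13) (.e (nat_lit 1140) (nat_lit 84) (.e (nat_lit 32788) (nat_lit 10) (.e (nat_lit 81664) (nat_lit 35) .nil)))))) (.g (nat_lit 5) .nil .nil))) 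
(.lf (nat_lit 254000) (.g (nat_lit 3252) (.e (nat_lit 163962) (nat_lit 25) (.e (nat_lit 532549) (nat_lit 12) (.e (nat_lit 360473) (nat_lit 8) (.e (nat_lit 557086) (nat_lit 11) (.e (nat_lit 24580) (nat_lit 0) (.e (nat_lit 6712) (nat_lit 360) .nil)))))) (.g (nat_lit 0) .nil .nil))))) (.nd (nat_lit 4) (.nd (nat_lit 5) 
(.lf (nat_lit 253960) (.g (nat_lit 2745) (.e (nat_lit 163962) (nat_lit 25) (.e (nat_lit 532543) (nat_lit 10) (.e (nat_lit 344129) (nat_lit 26) (.e (nat_lit 557097) (nat_lit 13) (.e (nat_lit 172133) (nat_lit 15) (.e (nat_lit 1800) (nat_lit 119) (.e (nat_lit 516119) (nat_lit 1) (.e (nat_lit 164345) (nat_lit 240) (.e (nat_lit 2599) (nat_lit 163) .nil))))))))) (.g (nat_lit 4) .nil .nil))) 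
(.lf (nat_lit 253992) (.g (nat_lit 2635) (.e (nat_lit 163962) (nat_lit 25) (.e (nat_lit 532549) (nat_lit 12) (.e (nat_lit 360473) (nat_lit 8) (.e (nat_lit 557068) (nat_lit 9) (.e (nat_lit 290) (nat_lit 21) (.e (nat_lit 335895) (nat_lit 0) (.e (nat_lit 6714) (nat_lit 360) .nil))))))) (.g (nat_lit 0) .nil .nil)))) (.nd (nat_lit 5) 
(.lf (nat_lit 253976) (.g (nat_lit 1122) (.e (nat_lit 163962) (nat_lit 25) (.e (nat_lit 532547) (nat_lit 11) (.e (nat_lit 352315) (nat_lit 23) (.e (nat_lit 98350) (nat_lit 24) .nil)))) .nil)) 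
(.lf (nat_lit 254008) (.g (nat_lit 2935) (.e (nat_lit 163962) (nat_lit 25) (.e (nat_lit 532549) (nat_lit 12) (.e (nat_lit 360475) (nat_lit 8) (.e (nat_lit 557068) (nat_lit 9) (.e (nat_lit 214) (nat_lit 19) (.e (nat_lit 319493) (nat_lit 0) (.e (nat_lit 5761) (nat_lit 315) .nil))))))) (.g (nat_lit 4) .nil .nil)))))) (.nd (nat_lit 3) (.nd (nat_lit 4) (.nd (nat_lit 5) 
(.lf (nat_lit 253956) (.g (nat_lit 4185) (.e (nat_lit 163962) (nat_lit 25) (.e (nat_lit 532535) (nat_lit 9) (.e (nat_lit 336176) (nat_lit 10) (.e (nat_lit 344133) (nat_lit 26) (.e (nat_lit 557087) (nat_lit 11) (.e (nat_lit 24579) (nat_lit 0) (.e (nat_lit 6714) (nat_lit 360) .nil))))))) (.g (nat_lit 6) .nil .nil))) 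
(.lf (nat_lit 253988) (.g (nat_lit 2168) (.e (nat_lit 163962) (nat_lit 25) (.e (nat_lit 532549) (nat_lit 12) (.e (nat_lit 360473) (nat_lit 8) (.e (nat_lit 557066) (nat_lit 9) (.e (nat_lit 328) (nat_lit 25) (.e (nat_lit 376576) (nat_lit 3) .nil)))))) (.g (nat_lit 5) .nil .nil)))) (.nd (nat_lit 5) 
(.lf (nat_lit 253972) (.g (nat_lit 1315) (.e (nat_lit 163962) (nat_lit 25) (.e (nat_lit 532547) (nat_lit 11) (.e (nat_lit 352302) (nat_lit 20) (.e (nat_lit 1842) (nat_lit 123) (.e (nat_lit 548890) (nat_lit 10) (.e (nat_lit 81664) (nat_lit 35) .nil)))))) (.g (nat_lit 4) .nil .nil))) 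
(.lf (nat_lit 254004) (.g (nat_lit 4199) (.e (nat_lit 163962) (nat_lit 25) (.e (nat_lit 532549) (nat_lit 12) (.e (nat_lit 360475) (nat_lit 8) (.e (nat_lit 557067) (nat_lit 9) (.e (nat_lit 214) (nat_lit 19) .nil))))) .nil)))) (.nd (nat_lit 4) (.nd (nat_lit 5) 
(.lf (nat_lit 253964) (.g (nat_lit 2403) (.e (nat_lit 163962) (nat_lit 25) (.e (nat_lit 532543) (nat_lit 10) (.e (nat_lit 344129) (nat_lit 26) (.e (nat_lit 557104) (nat_lit 14) (.e (nat_lit 180252) (nat_lit 10) .nil))))) .nil)) 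
(.lf (nat_lit 253996) (.g (nat_lit 1602) (.e (nat_lit 163962) (nat_lit 25) (.e (nat_lit 532549) (nat_lit 12) (.e (nat_lit 360473) (nat_lit 8) (.e (nat_lit 557073) (nat_lit 9) (.e (nat_lit 7936) (nat_lit 22) (.e (nat_lit 352000) (nat_lit 3) .nil)))))) (.g (nat_lit 4) .nil .nil)))) (.nd (nat_lit 5) 
(.lf (nat_lit 253980) (.g (nat_lit 2367) (.e (nat_lit 163962) (nat_lit 25) (.e (nat_lit 532548) (nat_lit 11) (.e (nat_lit 352315) (nat_lit 23) (.e (nat_lit 98350) (nat_lit 24) (.e (nat_lit 409616) (nat_lit 10) .nil))))) .nil)) 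
(.lf (nat_lit 254012) (.g (nat_lit 3017) (.e (nat_lit 163962) (nat_lit 25) (.e (nat_lit 532549) (nat_lit 12) (.e (nat_lit 360475) (nat_lit 8) (.e (nat_lit 557068) (nat_lit 9) (.e (nat_lit 290) (nat_lit 21) (.e (nat_lit 335895) (nat_lit 0) (.e (nat_lit 6714) (nat_lit 360) .nil))))))) (.g (nat_lit 4) .nil .nil))))))) (.nd (nat_lit 2) (.nd (nat_lit 3) (.nd (nat_lit 4) (.nd (nat_lit 5) 
(.lf (nat_lit 253954) (.g (nat_lit 4311) (.e (nat_lit 163962) (nat_lit 25) (.e (nat_lit 532535) (nat_lit 9) (.e (nat_lit 336176) (nat_lit 10) (.e (nat_lit 344133) (nat_lit 26) (.e (nat_lit 557085) (nat_lit 11) (.e (nat_lit 24580) (nat_lit 0) (.e (nat_lit 6714) (nat_lit 360) .nil))))))) (.g (nat_lit 7) .nil .nil))) 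
(.lf (nat_lit 253986) (.g (nat_lit 2321) (.e (nat_lit 163962) (nat_lit 25) (.e (nat_lit 532549) (nat_lit 12) (.e (nat_lit 360473) (nat_lit 8) (.e (nat_lit 557065) (nat_lit 9) (.e (nat_lit 214) (nat_lit 19) .nil))))) .nil))) (.nd (nat_lit 5) 
(.lf (nat_lit 253970) (.g (nat_lit 2918) (.e (nat_lit 163962) (nat_lit 25) (.e (nat_lit 532544) (nat_lit 10) (.e (nat_lit 344133) (nat_lit 26) (.e (nat_lit 557098) (nat_lit 13) (.e (nat_lit 172067) (nat_lit 3) (.e (nat_lit 204821) (nat_lit 17) (.e (nat_lit 2391) (nat_lit 156) (.e (nat_lit 819214) (nat_lit 3) .nil)))))))) (.g (nat_lit 4) .nil .nil))) 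
(.lf (nat_lit 254002) (.g (nat_lit 1790) (.e (nat_lit 163962) (nat_lit 25) (.e (nat_lit 532549) (nat_lit 12) (.e (nat_lit 360474) (nat_lit 8) (.e (nat_lit 557072) (nat_lit 9) (.e (nat_lit 290) (nat_lit 21) .nil))))) .nil)))) (.nd (nat_lit 4) (.nd (nat_lit 5) 
(.lf (nat_lit 253962) (.g (nat_lit 2377) (.e (nat_lit 163962) (nat_lit 25) (.e (nat_lit 532543) (nat_lit 10) (.e (nat_lit 344129) (nat_lit 26) (.e (nat_lit 557097) (nat_lit 13) (.e (nat_lit 179968) (nat_lit 15) .nil))))) .nil)) 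
(.lf (nat_lit 253994) (.g (nat_lit 1725) (.e (nat_lit 163962) (nat_lit 25) (.e (nat_lit 532549) (nat_lit 12) (.e (nat_lit 360473) (nat_lit 8) (.e (nat_lit 557068) (nat_lit 9) (.e (nat_lit 7936) (nat_lit 25) (.e (nat_lit 376576) (nat_lit 3) .nil)))))) (.g (nat_lit 4) .nil .nil)))) (.nd (nat_lit 5) 
(.lf (nat_lit 253978) (.g (nat_lit 2162) (.e (nat_lit 163962) (nat_lit 25) (.e (nat_lit 532547) (nat_lit 11) (.e (nat_lit 352318) (nat_lit 24) (.e (nat_lit 123040) (nat_lit 140) (.e (nat_lit 1210) (nat_lit 89) (.e (nat_lit 81664) (nat_lit 35) .nil)))))) (.g (nat_lit 5) .nil .nil))) 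
(.lf (nat_lit 254010) (.g (nat_lit 2713) (.e (nat_lit 163962) (nat_lit 25) (.e (nat_lit 532549) (nat_lit 12) (.e (nat_lit 360475) (nat_lit 8) (.e (nat_lit 557068) (nat_lit 9) (.e (nat_lit 290) (nat_lit 21) (.e (nat_lit 335892) (nat_lit 0) (.e (nat_lit 6714) (nat_lit 360) .nil))))))) (.g (nat_lit 4) .nil .nil)))))) (.nd (nat_lit 3) (.nd (nat_lit 4) (.nd (nat_lit 5) 
(.lf (nat_lit 253958) (.g (nat_lit 2140) (.e (nat_lit 163962) (nat_lit 25) (.e (nat_lit 532543) (nat_lit 10) (.e (nat_lit 344117) (nat_lit 21) (.e (nat_lit 516129) (nat_lit 3) (.e (nat_lit 221210) (nat_lit 22) .nil))))) .nil)) 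
(.lf (nat_lit 253990) (.g (nat_lit 2957) (.e (nat_lit 163962) (nat_lit 25) (.e (nat_lit 532549) (nat_lit 12) (.e (nat_lit 360473) (nat_lit 8) (.e (nat_lit 557068) (nat_lit 9) (.e (nat_lit 214) (nat_lit 19) (.e (nat_lit 319490) (nat_lit 0) (.e (nat_lit 5761) (nat_lit 315) .nil))))))) (.g (nat_lit 0) .nil .nil)))) (.nd (nat_lit 5) 
(.lf (nat_lit 253974) (.g (nat_lit 2087) (.e (nat_lit 163962) (nat_lit 25) (.e (nat_lit 532547) (nat_lit 11) (.e (nat_lit 352303) (nat_lit 20) (.e (nat_lit 1842) (nat_lit 123) (.e (nat_lit 548890) (nat_lit 10) (.e (nat_lit 81664) (nat_lit 35) .nil)))))) (.g (nat_lit 5) .nil .nil))) 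
(.lf (nat_lit 254006) (.g (nat_lit 3004) (.e (nat_lit 163962) (nat_lit 25) (.e (nat_lit 532549) (nat_lit 12) (.e (nat_lit 360475) (nat_lit 8) (.e (nat_lit 557068) (nat_lit 9) (.e (nat_lit 214) (nat_lit 19) (.e (nat_lit 319491) (nat_lit 0) (.e (nat_lit 5761) (nat_lit 315) .nil))))))) (.g (nat_lit 4) .nil .nil))))) (.nd (nat_lit 4) (.nd (nat_lit 5) 
(.lf (nat_lit 253966) (.g (nat_lit 2399) (.e (nat_lit 163962) (nat_lit 25) (.e (nat_lit 532543) (nat_lit 10) (.e (nat_lit 344133) (nat_lit 26) (.e (nat_lit 557098) (nat_lit 13) (.e (nat_lit 172133) (nat_lit 15) (.e (nat_lit 1800) (nat_lit 119) (.e (nat_lit 516119) (nat_lit 1) (.e (nat_lit 164345) (nat_lit 240) (.e (nat_lit 2599) (nat_lit 163) .nil))))))))) (.g (nat_lit 4) .nil .nil))) 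
(.lf (nat_lit 253998) (.g (nat_lit 2610) (.e (nat_lit 163962) (nat_lit 25) (.e (nat_lit 532549) (nat_lit 12) (.e (nat_lit 360473) (nat_lit 8) (.e (nat_lit 557086) (nat_lit 11) (.e (nat_lit 24579) (nat_lit 0) (.e (nat_lit 6712) (nat_lit 360) .nil)))))) (.g (nat_lit 0) .nil .nil)))) (.nd (nat_lit 5) 
(.lf (nat_lit 253982) (.g (nat_lit 2048) (.e (nat_lit 163962) (nat_lit 25) (.e (nat_lit 532549) (nat_lit 12) (.e (nat_lit 360466) (nat_lit 3) (.e (nat_lit 516138) (nat_lit 7) (.e (nat_lit 409612) (nat_lit 10) .nil))))) .nil)) 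
(.lf (nat_lit 254014) (.g (nat_lit 2726) (.e (nat_lit 163962) (nat_lit 25) (.e (nat_lit 532549) (nat_lit 12) (.e (nat_lit 360475) (nat_lit 8) (.e (nat_lit 557085) (nat_lit 11) .nil)))) .nil))))))) (.nd (nat_lit 1) (.nd (nat_lit 2) (.nd (nat_lit 3) (.nd (nat_lit 4) (.nd (nat_lit 5) 
(.lf (nat_lit 253953) (.g (nat_lit 2896) (.e (nat_lit 163962) (nat_lit 25) (.e (nat_lit 532535) (nat_lit 9) (.e (nat_lit 336176) (nat_lit 10) (.e (nat_lit 344133) (nat_lit 26) (.e (nat_lit 557085) (nat_lit 11) (.e (nat_lit 24579) (nat_lit 0) (.e (nat_lit 6714) (nat_lit 360) .nil))))))) (.g (nat_lit 5) .nil .nil))) 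
(.lf (nat_lit 253985) (.g (nat_lit 2075) (.e (nat_lit 163962) (nat_lit 25) (.e (nat_lit 532549) (nat_lit 12) (.e (nat_lit 360468) (nat_lit 3) (.e (nat_lit 516139) (nat_lit 7) (.e (nat_lit 409617) (nat_lit 10) .nil))))) .nil))) (.nd (nat_lit 5) 
(.lf (nat_lit 253969) (.g (nat_lit 1386) (.e (nat_lit 163962) (nat_lit 25) (.e (nat_lit 532544) (nat_lit 10) (.e (nat_lit 344081) (nat_lit 13) (.e (nat_lit 1141) (nat_lit 84) (.e (nat_lit 32788) (nat_lit 10) (.e (nat_lit 81664) (nat_lit 35) .nil)))))) (.g (nat_lit 5) .nil .nil))) 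
(.lf (nat_lit 254001) (.g (nat_lit 2808) (.e (nat_lit 163962) (nat_lit 25) (.e (nat_lit 532549) (nat_lit 12) (.e (nat_lit 360473) (nat_lit 8) (.e (nat_lit 557086) (nat_lit 11) (.e (nat_lit 24580) (nat_lit 0) (.e (nat_lit 6714) (nat_lit 360) .nil)))))) (.g (nat_lit 0) .nil .nil))))) (.nd (nat_lit 4) (.nd (nat_lit 5) 
(.lf (nat_lit 253961) (.g (nat_lit 3384) (.e (nat_lit 163962) (nat_lit 25) (.e (nat_lit 532543) (nat_lit 10) (.e (nat_lit 344129) (nat_lit 26) (.e (nat_lit 557097) (nat_lit 13) (.e (nat_lit 172133) (nat_lit 15) (.e (nat_lit 1800) (nat_lit 119) (.e (nat_lit 516119) (nat_lit 1) (.e (nat_lit 164345) (nat_lit 240) (.e (nat_lit 2600) (nat_lit 163) .nil))))))))) (.g (nat_lit 5) .nil .nil))) 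
(.lf (nat_lit 253993) (.g (nat_lit 1725) (.e (nat_lit 163962) (nat_lit 25) (.e (nat_lit 532549) (nat_lit 12) (.e (nat_lit 360473) (nat_lit 8) (.e (nat_lit 557068) (nat_lit 9) (.e (nat_lit 7936) (nat_lit 22) (.e (nat_lit 352000) (nat_lit 3) .nil)))))) (.g (nat_lit 4) .nil .nil)))) (.nd (nat_lit 5) 
(.lf (nat_lit 253977) (.g (nat_lit 1939) (.e (nat_lit 163962) (nat_lit 25) (.e (nat_lit 532547) (nat_lit 11) (.e (nat_lit 352318) (nat_lit 24) (.e (nat_lit 123040) (nat_lit 140) (.e (nat_lit 1209) (nat_lit 89) (.e (nat_lit 81664) (nat_lit 35) .nil)))))) (.g (nat_lit 4) .nil .nil))) 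
(.lf (nat_lit 254009) (.g (nat_lit 3070) (.e (nat_lit 163962) (nat_lit 25) (.e (nat_lit 532549) (nat_lit 12) (.e (nat_lit 360475) (nat_lit 8) (.e (nat_lit 557068) (nat_lit 9) (.e (nat_lit 290) (nat_lit 21) (.e (nat_lit 335892) (nat_lit 0) (.e (nat_lit 6712) (nat_lit 360) .nil))))))) (.g (nat_lit 4) .nil .nil)))))) (.nd (nat_lit 3) (.nd (nat_lit 4) (.nd (nat_lit 5) 
(.lf (nat_lit 253957) (.g (nat_lit 1293) (.e (nat_lit 163962) (nat_lit 25) (.e (nat_lit 532535) (nat_lit 9) (.e (nat_lit 336177) (nat_lit 10) (.e (nat_lit 344117) (nat_lit 21) (.e (nat_lit 516139) (nat_lit 7) .nil))))) .nil)) 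
(.lf (nat_lit 253989) (.g (nat_lit 2983) (.e (nat_lit 163962) (nat_lit 25) (.e (nat_lit 532549) (nat_lit 12) (.e (nat_lit 360473) (nat_lit 8) (.e (nat_lit 557067) (nat_lit 9) (.e (nat_lit 290) (nat_lit 21) .nil))))) .nil))) (.nd (nat_lit 5) 
(.lf (nat_lit 253973) (.g (nat_lit 1348) (.e (nat_lit 163962) (nat_lit 25) (.e (nat_lit 532547) (nat_lit 11) (.e (nat_lit 352303) (nat_lit 20) (.e (nat_lit 1841) (nat_lit 123) (.e (nat_lit 548890) (nat_lit 10) (.e (nat_lit 81664) (nat_lit 35) .nil)))))) (.g (nat_lit 5) .nil .nil))) 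
(.lf (nat_lit 254005) (.g (nat_lit 3350) (.e (nat_lit 163962) (nat_lit 25) (.e (nat_lit 532549) (nat_lit 12) (.e (nat_lit 360475) (nat_lit 8) (.e (nat_lit 557068) (nat_lit 9) (.e (nat_lit 214) (nat_lit 19) (.e (nat_lit 319490) (nat_lit 0) (.e (nat_lit 5761) (nat_lit 315) .nil))))))) (.g (nat_lit 5) .nil .nil))))) (.nd (nat_lit 4) (.nd (nat_lit 5) 
(.lf (nat_lit 253965) (.g (nat_lit 1953) (.e (nat_lit 163962) (nat_lit 25) (.e (nat_lit 532543) (nat_lit 10) (.e (nat_lit 344130) (nat_lit 26) (.e (nat_lit 557097) (nat_lit 13) (.e (nat_lit 172133) (nat_lit 15) (.e (nat_lit 1800) (nat_lit 119) (.e (nat_lit 516119) (nat_lit 1) (.e (nat_lit 164345) (nat_lit 240) (.e (nat_lit 2600) (nat_lit 163) .nil))))))))) (.g (nat_lit 4) .nil .nil))) 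
(.lf (nat_lit 253997) (.g (nat_lit 1602) (.e (nat_lit 163962) (nat_lit 25) (.e (nat_lit 532549) (nat_lit 12) (.e (nat_lit 360473) (nat_lit 8) (.e (nat_lit 557073) (nat_lit 9) (.e (nat_lit 7936) (nat_lit 25) (.e (nat_lit 376576) (nat_lit 3) .nil)))))) (.g (nat_lit 4) .nil .nil)))) (.nd (nat_lit 5) 
(.lf (nat_lit 253981) (.g (nat_lit 1303) (.e (nat_lit 163962) (nat_lit 25) (.e (nat_lit 532549) (nat_lit 12) (.e (nat_lit 360452) (nat_lit 0) (.e (nat_lit 3946) (nat_lit 239) .nil)))) .nil)) 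
(.lf (nat_lit 254013) (.g (nat_lit 2901) (.e (nat_lit 163962) (nat_lit 25) (.e (nat_lit 532549) (nat_lit 12) (.e (nat_lit 360475) (nat_lit 8) (.e (nat_lit 557073) (nat_lit 9) (.e (nat_lit 290) (nat_lit 21) .nil))))) .nil)))))) (.nd (nat_lit 2) (.nd (nat_lit 3) (.nd (nat_lit 4) (.nd (nat_lit 5) 
(.lf (nat_lit 253955) (.g (nat_lit 2196) (.e (nat_lit 163962) (nat_lit 25) (.e (nat_lit 532535) (nat_lit 9) (.e (nat_lit 336176) (nat_lit 10) (.e (nat_lit 344133) (nat_lit 26) (.e (nat_lit 557086) (nat_lit 11) (.e (nat_lit 24578) (nat_lit 0) (.e (nat_lit 6714) (nat_lit 360) .nil))))))) (.g (nat_lit 4) .nil .nil))) 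
(.lf (nat_lit 253987) (.g (nat_lit 2355) (.e (nat_lit 163962) (nat_lit 25) (.e (nat_lit 532549) (nat_lit 12) (.e (nat_lit 360473) (nat_lit 8) (.e (nat_lit 557066) (nat_lit 9) (.e (nat_lit 297) (nat_lit 22) (.e (nat_lit 352000) (nat_lit 3) .nil)))))) (.g (nat_lit 5) .nil .nil)))) (.nd (nat_lit 5) 
(.lf (nat_lit 253971) (.g (nat_lit 1143) (.e (nat_lit 163962) (nat_lit 25) (.e (nat_lit 532545) (nat_lit 10) (.e (nat_lit 352000) (nat_lit 3) (.e (nat_lit 163962) (nat_lit 25) (.e (nat_lit 532526) (nat_lit 8) (.e (nat_lit 327681) (nat_lit 0) (.e (nat_lit 5762) (nat_lit 315) .nil))))))) (.g (nat_lit 5) .nil .nil))) 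
(.lf (nat_lit 254003) (.g (nat_lit 1563) (.e (nat_lit 163962) (nat_lit 25) (.e (nat_lit 532549) (nat_lit 12) (.e (nat_lit 360474) (nat_lit 8) (.e (nat_lit 557073) (nat_lit 9) (.e (nat_lit 290) (nat_lit 21) .nil))))) .nil)))) (.nd (nat_lit 4) (.nd (nat_lit 5) 
(.lf (nat_lit 253963) (.g (nat_lit 2577) (.e (nat_lit 163962) (nat_lit 25) (.e (nat_lit 532543) (nat_lit 10) (.e (nat_lit 344129) (nat_lit 26) (.e (nat_lit 557103) (nat_lit 14) (.e (nat_lit 180250) (nat_lit 10) .nil))))) .nil)) 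
(.lf (nat_lit 253995) (.g (nat_lit 1787) (.e (nat_lit 163962) (nat_lit 25) (.e (nat_lit 532549) (nat_lit 12) (.e (nat_lit 360473) (nat_lit 8) (.e (nat_lit 557072) (nat_lit 9) (.e (nat_lit 7936) (nat_lit 22) (.e (nat_lit 352000) (nat_lit 3) .nil)))))) (.g (nat_lit 4) .nil .nil)))) (.nd (nat_lit 5) 
(.lf (nat_lit 253979) (.g (nat_lit 1558) (.e (nat_lit 163962) (nat_lit 25) (.e (nat_lit 532547) (nat_lit 11) (.e (nat_lit 352318) (nat_lit 24) (.e (nat_lit 123041) (nat_lit 140) (.e (nat_lit 7936) (nat_lit 89) .nil))))) .nil)) 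
(.lf (nat_lit 254011) (.g (nat_lit 2948) (.e (nat_lit 163962) (nat_lit 25) (.e (nat_lit 532549) (nat_lit 12) (.e (nat_lit 360475) (nat_lit 8) (.e (nat_lit 557068) (nat_lit 9) (.e (nat_lit 290) (nat_lit 21) (.e (nat_lit 335893) (nat_lit 0) (.e (nat_lit 6714) (nat_lit 360) .nil))))))) (.g (nat_lit 4) .nil .nil)))))) (.nd (nat_lit 3) (.nd (nat_lit 4) (.nd (nat_lit 5) 
(.lf (nat_lit 253959) (.g (nat_lit 2406) (.e (nat_lit 163962) (nat_lit 25) (.e (nat_lit 532543) (nat_lit 10) (.e (nat_lit 344129) (nat_lit 26) (.e (nat_lit 557096) (nat_lit 13) (.e (nat_lit 172133) (nat_lit 15) (.e (nat_lit 1800) (nat_lit 119) (.e (nat_lit 516119) (nat_lit 1) (.e (nat_lit 164345) (nat_lit 240) (.e (nat_lit 2600) (nat_lit 163) .nil))))))))) (.g (nat_lit 4) .nil .nil))) 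
(.lf (nat_lit 253991) (.g (nat_lit 2993) (.e (nat_lit 163962) (nat_lit 25) (.e (nat_lit 532549) (nat_lit 12) (.e (nat_lit 360473) (nat_lit 8) (.e (nat_lit 557068) (nat_lit 9) (.e (nat_lit 290) (nat_lit 21) (.e (nat_lit 335895) (nat_lit 0) (.e (nat_lit 6712) (nat_lit 360) .nil))))))) (.g (nat_lit 0) .nil .nil)))) (.nd (nat_lit 5) 
(.lf (nat_lit 253975) (.g (nat_lit 892) (.e (nat_lit 163962) (nat_lit 25) (.e (nat_lit 532547) (nat_lit 11) (.e (nat_lit 352315) (nat_lit 23) (.e (nat_lit 98349) (nat_lit 24) .nil)))) .nil)) 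
(.lf (nat_lit 254007) (.g (nat_lit 2966) (.e (nat_lit 163962) (nat_lit 25) (.e (nat_lit 532549) (nat_lit 12) (.e (nat_lit 360475) (nat_lit 8) (.e (nat_lit 557068) (nat_lit 9) (.e (nat_lit 214) (nat_lit 19) (.e (nat_lit 319492) (nat_lit 0) (.e (nat_lit 5761) (nat_lit 315) .nil))))))) (.g (nat_lit 4) .nil .nil))))) (.nd (nat_lit 4) (.nd (nat_lit 5) 
(.lf (nat_lit 253967) (.g (nat_lit 3038) (.e (nat_lit 163962) (nat_lit 25) (.e (nat_lit 532543) (nat_lit 10) (.e (nat_lit 344133) (nat_lit 26) (.e (nat_lit 557098) (nat_lit 13) (.e (nat_lit 172133) (nat_lit 15) (.e (nat_lit 1800) (nat_lit 119) (.e (nat_lit 516119) (nat_lit 1) (.e (nat_lit 164345) (nat_lit 240) (.e (nat_lit 2600) (nat_lit 163) .nil))))))))) (.g (nat_lit 5) .nil .nil))) 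
(.lf (nat_lit 253999) (.g (nat_lit 2282) (.e (nat_lit 163962) (nat_lit 25) (.e (nat_lit 532549) (nat_lit 12) (.e (nat_lit 360473) (nat_lit 8) (.e (nat_lit 557086) (nat_lit 11) (.e (nat_lit 24579) (nat_lit 0) (.e (nat_lit 6714) (nat_lit 360) .nil)))))) (.g (nat_lit 0) .nil .nil)))) (.nd (nat_lit 5) 
(.lf (nat_lit 253983) (.g (nat_lit 2247) (.e (nat_lit 163962) (nat_lit 25) (.e (nat_lit 532549) (nat_lit 12) (.e (nat_lit 360466) (nat_lit 3) (.e (nat_lit 516138) (nat_lit 7) (.e (nat_lit 409617) (nat_lit 10) .nil))))) .nil)) 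
(.lf (nat_lit 254015) (.g (nat_lit 4059) (.e (nat_lit 163962) (nat_lit 25) (.e (nat_lit 532549) (nat_lit 12) (.e (nat_lit 360475) (nat_lit 8) (.e (nat_lit 557085) (nat_lit 11) (.e (nat_lit 24580) (nat_lit 0) (.e (nat_lit 6712) (nat_lit 360) .nil)))))) (.g (nat_lit 4) .nil .nil)))))))))

noncomputable def tv3294 : DT := (.nd (nat_lit 0) (.nd (nat_lit 1) (.nd (nat_lit 2) (.nd (nat_lit 3) (.nd (nat_lit 4) (.nd (nat_lit 5) 
(.lf (nat_lit 254016) (.g (nat_lit 3136) (.e (nat_lit 163962) (nat_lit 25) (.e (nat_lit 532549) (nat_lit 12) (.e (nat_lit 360475) (nat_lit 8) (.e (nat_lit 557086) (nat_lit 11) (.e (nat_lit 24577) (nat_lit 0) (.e (nat_lit 6712) (nat_lit 360) .nil)))))) (.g (nat_lit 4) .nil .nil))) 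
(.lf (nat_lit 254048) (.g (nat_lit 3863) (.e (nat_lit 163962) (nat_lit 25) (.e (nat_lit 532550) (nat_lit 12) (.e (nat_lit 360475) (nat_lit 8) (.e (nat_lit 557067) (nat_lit 9) (.e (nat_lit 249) (nat_lit 21) .nil))))) .nil))) (.nd (nat_lit 5) 
(.lf (nat_lit 254032) (.g (nat_lit 3158) (.e (nat_lit 163962) (nat_lit 25) (.e (nat_lit 532550) (nat_lit 12) (.e (nat_lit 360474) (nat_lit 8) (.e (nat_lit 557071) (nat_lit 9) .nil)))) .nil)) 
(.lf (nat_lit 254064) (.g (nat_lit 3986) (.e (nat_lit 163962) (nat_lit 25) (.e (nat_lit 532550) (nat_lit 12) (.e (nat_lit 360475) (nat_lit 8) (.e (nat_lit 557086) (nat_lit 11) (.e (nat_lit 24580) (nat_lit 0) (.e (nat_lit 6712) (nat_lit 360) .nil)))))) (.g (nat_lit 0) .nil .nil))))) (.nd (nat_lit 4) (.nd (nat_lit 5) 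
(.lf (nat_lit 254024) (.g (nat_lit 2169) (.e (nat_lit 163962) (nat_lit 25) (.e (nat_lit 532550) (nat_lit 12) (.e (nat_lit 360451) (nat_lit 0) (.e (nat_lit 3928) (nat_lit 239) (.e (nat_lit 1206) (nat_lit 89) (.e (nat_lit 81664) (nat_lit 35) .nil)))))) (.g (nat_lit 5) .nil .nil))) 
(.lf (nat_lit 254056) (.g (nat_lit 2909) (.e (nat_lit 163962) (nat_lit 25) (.e (nat_lit 532550) (nat_lit 12) (.e (nat_lit 360475) (nat_lit 8) (.e (nat_lit 557073) (nat_lit 9) (.e (nat_lit 220) (nat_lit 20) (.e (nat_lit 327683) (nat_lit 0) (.e (nat_lit 5762) (nat_lit 315) .nil))))))) (.g (nat_lit 5) .nil .nil)))) (.nd (nat_lit 5) 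
(.lf (nat_lit 254040) (.g (nat_lit 3224) (.e (nat_lit 163962) (nat_lit 25) (.e (nat_lit 532550) (nat_lit 12) (.e (nat_lit 360475) (nat_lit 8) (.e (nat_lit 557065) (nat_lit 9) (.e (nat_lit 214) (nat_lit 19) (.e (nat_lit 319492) (nat_lit 0) (.e (nat_lit 5761) (nat_lit 315) .nil))))))) (.g (nat_lit 4) .nil .nil))) 
(.lf (nat_lit 254072) (.g (nat_lit 407) (.e (nat_lit 163962) (nat_lit 25) (.e (nat_lit 532560) (nat_lit 14) (.e (nat_lit 384768) (nat_lit 1) .nil))) .nil))))) (.nd (nat_lit 3) (.nd (nat_lit 4) (.nd (nat_lit 5) 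
(.lf (nat_lit 254020) (.g (nat_lit 1532) (.e (nat_lit 163962) (nat_lit 25) (.e (nat_lit 532550) (nat_lit 12) (.e (nat_lit 360448) (nat_lit 0) (.e (nat_lit 3975) (nat_lit 239) (.e (nat_lit 1210) (nat_lit 89) (.e (nat_lit 81664) (nat_lit 35) .nil)))))) (.g (nat_lit 5) .nil .nil))) 
(.lf (nat_lit 254052) (.g (nat_lit 3584) (.e (nat_lit 163962) (nat_lit 25) (.e (nat_lit 532550) (nat_lit 12) (.e (nat_lit 360475) (nat_lit 8) (.e (nat_lit 557070) (nat_lit 9) (.e (nat_lit 253) (nat_lit 21) .nil))))) .nil))) (.nd (nat_lit 5) 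
(.lf (nat_lit 254036) (.g (nat_lit 1710) (.e (nat_lit 163962) (nat_lit 25) (.e (nat_lit 532550) (nat_lit 12) (.e (nat_lit 360474) (nat_lit 8) (.e (nat_lit 557073) (nat_lit 9) (.e (nat_lit 7936) (nat_lit 25) (.e (nat_lit 376576) (nat_lit 3) .nil)))))) (.g (nat_lit 4) .nil .nil))) 
(.lf (nat_lit 254068) (.g (nat_lit 4156) (.e (nat_lit 163962) (nat_lit 25) (.e (nat_lit 532550) (nat_lit 12) (.e (nat_lit 360475) (nat_lit 8) (.e (nat_lit 557089) (nat_lit 12) (.e (nat_lit 163846) (nat_lit 0) .nil))))) .nil)))) (.nd (nat_lit 4) (.nd (nat_lit 5) 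
(.lf (nat_lit 254028) (.g (nat_lit 1495) (.e (nat_lit 163962) (nat_lit 25) (.e (nat_lit 532550) (nat_lit 12) (.e (nat_lit 360465) (nat_lit 3) (.e (nat_lit 516139) (nat_lit 7) (.e (nat_lit 409616) (nat_lit 10) .nil))))) .nil)) 
(.lf (nat_lit 254060) (.g (nat_lit 3607) (.e (nat_lit 163962) (nat_lit 25) (.e (nat_lit 532550) (nat_lit 12) (.e (nat_lit 360475) (nat_lit 8) (.e (nat_lit 557080) (nat_lit 9) .nil)))) .nil))) (.nd (nat_lit 5) 
(.lf (nat_lit 254044) (.g (nat_lit 3809) (.e (nat_lit 163962) (nat_lit 25) (.e (nat_lit 532550) (nat_lit 12) (.e (nat_lit 360475) (nat_lit 8) (.e (nat_lit 557067) (nat_lit 9) (.e (nat_lit 214) (nat_lit 19) .nil))))) .nil)) 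
(.lf (nat_lit 254076) (.g (nat_lit 2943) (.e (nat_lit 163963) (nat_lit 25) (.e (nat_lit 532499) (nat_lit 1) (.e (nat_lit 57847) (nat_lit 252) (.e (nat_lit 57377) (nat_lit 3) (.e (nat_lit 98313) (nat_lit 9) .nil))))) .nil)))))) (.nd (nat_lit 2) (.nd (nat_lit 3) (.nd (nat_lit 4) (.nd (nat_lit 5) 
(.lf (nat_lit 254018) (.g (nat_lit 3327) (.e (nat_lit 163962) (nat_lit 25) (.e (nat_lit 532549) (nat_lit 12) (.e (nat_lit 360475) (nat_lit 8) (.e (nat_lit 557086) (nat_lit 11) (.e (nat_lit 24580) (nat_lit 0) (.e (nat_lit 6714) (nat_lit 360) .nil)))))) (.g (nat_lit 5) .nil .nil))) 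
(.lf (nat_lit 254050) (.g (nat_lit 2484) (.e (nat_lit 163962) (nat_lit 25) (.e (nat_lit 532550) (nat_lit 12) (.e (nat_lit 360475) (nat_lit 8) (.e (nat_lit 557068) (nat_lit 9) (.e (nat_lit 7936) (nat_lit 22) (.e (nat_lit 352000) (nat_lit 3) .nil)))))) (.g (nat_lit 4) .nil .nil)))) (.nd (nat_lit 5) 
(.lf (nat_lit 254034) (.g (nat_lit 1547) (.e (nat_lit 163962) (nat_lit 25) (.e (nat_lit 532550) (nat_lit 12) (.e (nat_lit 360474) (nat_lit 8) (.e (nat_lit 557072) (nat_lit 9) (.e (nat_lit 7936) (nat_lit 25) (.e (nat_lit 376576) (nat_lit 3) .nil)))))) (.g (nat_lit 4) .nil .nil))) 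
(.lf (nat_lit 254066) (.g (nat_lit 4184) (.e (nat_lit 163962) (nat_lit 25) (.e (nat_lit 532550) (nat_lit 12) (.e (nat_lit 360475) (nat_lit 8) (.e (nat_lit 557087) (nat_lit 11) (.e (nat_lit 24580) (nat_lit 0) (.e (nat_lit 6712) (nat_lit 360) .nil)))))) (.g (nat_lit 0) .nil .nil))))) (.nd (nat_lit 4) (.nd (nat_lit 5) 
(.lf (nat_lit 254026) (.g (nat_lit 1054) (.e (nat_lit 163962) (nat_lit 25) (.e (nat_lit 532550) (nat_lit 12) (.e (nat_lit 360456) (nat_lit 0) (.e (nat_lit 3962) (nat_lit 239) .nil)))) .nil)) 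
(.lf (nat_lit 254058) (.g (nat_lit 2414) (.e (nat_lit 163962) (nat_lit 25) (.e (nat_lit 532550) (nat_lit 12) (.e (nat_lit 360475) (nat_lit 8) (.e (nat_lit 557073) (nat_lit 9) (.e (nat_lit 7936) (nat_lit 22) (.e (nat_lit 352000) (nat_lit 3) .nil)))))) (.g (nat_lit 4) .nil .nil)))) (.nd (nat_lit 5) 
(.lf (nat_lit 254042) (.g (nat_lit 2826) (.e (nat_lit 163962) (nat_lit 25) (.e (nat_lit 532550) (nat_lit 12) (.e (nat_lit 360475) (nat_lit 8) (.e (nat_lit 557066) (nat_lit 9) (.e (nat_lit 297) (nat_lit 22) (.e (nat_lit 352000) (nat_lit 3) .nil)))))) (.g (nat_lit 5) .nil .nil))) 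
(.lf (nat_lit 254074) (.g (nat_lit 2366) (.e (nat_lit 163962) (nat_lit 25) (.e (nat_lit 532567) (nat_lit 16) (.e (nat_lit 401459) (nat_lit 13) (.e (nat_lit 483370) (nat_lit 20) (.e (nat_lit 155392) (nat_lit 14) .nil))))) .nil))))) (.nd (nat_lit 3) (.nd (nat_lit 4) (.nd (nat_lit 5) 
(.lf (nat_lit 254022) (.g (nat_lit 2250) (.e (nat_lit 163962) (nat_lit 25) (.e (nat_lit 532550) (nat_lit 12) (.e (nat_lit 360450) (nat_lit 0) (.e (nat_lit 4159) (nat_lit 250) (.e (nat_lit 229490) (nat_lit 74) (.e (nat_lit 352000) (nat_lit 3) .nil)))))) (.g (nat_lit 4) .nil .nil))) 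
(.lf (nat_lit 254054) (.g (nat_lit 3662) (.e (nat_lit 163962) (nat_lit 25) (.e (nat_lit 532550) (nat_lit 12) (.e (nat_lit 360475) (nat_lit 8) (.e (nat_lit 557073) (nat_lit 9) (.e (nat_lit 214) (nat_lit 19) (.e (nat_lit 319490) (nat_lit 0) (.e (nat_lit 5761) (nat_lit 315) .nil))))))) (.g (nat_lit 6) .nil .nil)))) (.nd (nat_lit 5) 
(.lf (nat_lit 254038) (.g (nat_lit 3917) (.e (nat_lit 163962) (nat_lit 25) (.e (nat_lit 532550) (nat_lit 12) (.e (nat_lit 360475) (nat_lit 8) (.e (nat_lit 557064) (nat_lit 9) (.e (nat_lit 328) (nat_lit 25) (.e (nat_lit 376576) (nat_lit 3) .nil)))))) (.g (nat_lit 5) .nil .nil))) 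
(.lf (nat_lit 254070) (.g (nat_lit 814) (.e (nat_lit 163962) (nat_lit 25) (.e (nat_lit 532554) (nat_lit 13) (.e (nat_lit 376576) (nat_lit 3) (.e (nat_lit 163950) (nat_lit 21) (.e (nat_lit 507648) (nat_lit 19) (.e (nat_lit 81664) (nat_lit 35) .nil)))))) (.g (nat_lit 4) .nil .nil))))) (.nd (nat_lit 4) (.nd (nat_lit 5) 
(.lf (nat_lit 254030) (.g (nat_lit 2120) (.e (nat_lit 163962) (nat_lit 25) (.e (nat_lit 532550) (nat_lit 12) (.e (nat_lit 360474) (nat_lit 8) (.e (nat_lit 557070) (nat_lit 9) (.e (nat_lit 296) (nat_lit 22) (.e (nat_lit 352000) (nat_lit 3) .nil)))))) (.g (nat_lit 4) .nil .nil))) 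
(.lf (nat_lit 254062) (.g (nat_lit 3040) (.e (nat_lit 163962) (nat_lit 25) (.e (nat_lit 532550) (nat_lit 12) (.e (nat_lit 360475) (nat_lit 8) (.e (nat_lit 557086) (nat_lit 11) (.e (nat_lit 24578) (nat_lit 0) (.e (nat_lit 6712) (nat_lit 360) .nil)))))) (.g (nat_lit 4) .nil .nil)))) (.nd (nat_lit 5) 
(.lf (nat_lit 254046) (.g (nat_lit 4007) (.e (nat_lit 163962) (nat_lit 25) (.e (nat_lit 532550) (nat_lit 12) (.e (nat_lit 360475) (nat_lit 8) (.e (nat_lit 557067) (nat_lit 9) (.e (nat_lit 220) (nat_lit 20) (.e (nat_lit 327682) (nat_lit 0) (.e (nat_lit 5762) (nat_lit 315) .nil))))))) (.g (nat_lit 4) .nil .nil))) 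
(.lf (nat_lit 254078) (.g (nat_lit 2944) (.e (nat_lit 163963) (nat_lit 25) (.e (nat_lit 532499) (nat_lit 1) (.e (nat_lit 57847) (nat_lit 252) (.e (nat_lit 57377) (nat_lit 3) (.e (nat_lit 98313) (nat_lit 9) (.e (nat_lit 336027) (nat_lit 3) (.e (nat_lit 98336) (nat_lit 19) (.e (nat_lit 213035) (nat_lit 12) .nil)))))))) (.g (nat_lit 4) .nil .nil)))))))) 
(.nd (nat_lit 1) (.nd (nat_lit 2) (.nd (nat_lit 3) (.nd (nat_lit 4) (.nd (nat_lit 5) 
(.lf (nat_lit 254017) (.g (nat_lit 2870) (.e (nat_lit 163962) (nat_lit 25) (.e (nat_lit 532549) (nat_lit 12) (.e (nat_lit 360475) (nat_lit 8) (.e (nat_lit 557086) (nat_lit 11) (.e (nat_lit 24579) (nat_lit 0) (.e (nat_lit 6714) (nat_lit 360) .nil)))))) (.g (nat_lit 4) .nil .nil))) 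
(.lf (nat_lit 254049) (.g (nat_lit 3746) (.e (nat_lit 163962) (nat_lit 25) (.e (nat_lit 532550) (nat_lit 12) (.e (nat_lit 360475) (nat_lit 8) (.e (nat_lit 557067) (nat_lit 9) (.e (nat_lit 290) (nat_lit 21) .nil))))) .nil))) (.nd (nat_lit 5) 
(.lf (nat_lit 254033) (.g (nat_lit 1922) (.e (nat_lit 163962) (nat_lit 25) (.e (nat_lit 532550) (nat_lit 12) (.e (nat_lit 360474) (nat_lit 8) (.e (nat_lit 557072) (nat_lit 9) (.e (nat_lit 7936) (nat_lit 22) (.e (nat_lit 352000) (nat_lit 3) .nil)))))) (.g (nat_lit 4) .nil .nil))) 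
(.lf (nat_lit 254065) (.g (nat_lit 3555) (.e (nat_lit 163962) (nat_lit 25) (.e (nat_lit 532550) (nat_lit 12) (.e (nat_lit 360475) (nat_lit 8) (.e (nat_lit 557086) (nat_lit 11) (.e (nat_lit 24580) (nat_lit 0) (.e (nat_lit 6714) (nat_lit 360) .nil)))))) (.g (nat_lit 0) .nil .nil))))) (.nd (nat_lit 4) (.nd (nat_lit 5) 
(.lf (nat_lit 254025) (.g (nat_lit 577) (.e (nat_lit 163962) (nat_lit 25) (.e (nat_lit 532550) (nat_lit 12) (.e (nat_lit 360455) (nat_lit 0) .nil))) .nil)) 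
(.lf (nat_lit 254057) (.g (nat_lit 3357) (.e (nat_lit 163962) (nat_lit 25) (.e (nat_lit 532550) (nat_lit 12) (.e (nat_lit 360475) (nat_lit 8) (.e (nat_lit 557073) (nat_lit 9) (.e (nat_lit 290) (nat_lit 21) (.e (nat_lit 335895) (nat_lit 0) (.e (nat_lit 6714) (nat_lit 360) .nil))))))) (.g (nat_lit 6) .nil .nil)))) (.nd (nat_lit 5) 
(.lf (nat_lit 254041) (.g (nat_lit 3387) (.e (nat_lit 163962) (nat_lit 25) (.e (nat_lit 532550) (nat_lit 12) (.e (nat_lit 360475) (nat_lit 8) (.e (nat_lit 557065) (nat_lit 9) (.e (nat_lit 328) (nat_lit 25) (.e (nat_lit 376576) (nat_lit 3) .nil)))))) (.g (nat_lit 5) .nil .nil))) 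
(.lf (nat_lit 254073) (.g (nat_lit 1696) (.e (nat_lit 163962) (nat_lit 25) (.e (nat_lit 532567) (nat_lit 16) (.e (nat_lit 401459) (nat_lit 13) (.e (nat_lit 483354) (nat_lit 17) .nil)))) .nil))))) (.nd (nat_lit 3) (.nd (nat_lit 4) (.nd (nat_lit 5) 
(.lf (nat_lit 254021) (.g (nat_lit 1437) (.e (nat_lit 163962) (nat_lit 25) (.e (nat_lit 532550) (nat_lit 12) (.e (nat_lit 360450) (nat_lit 0) (.e (nat_lit 3950) (nat_lit 239) .nil)))) .nil)) 
(.lf (nat_lit 254053) (.g (nat_lit 3292) (.e (nat_lit 163962) (nat_lit 25) (.e (nat_lit 532550) (nat_lit 12) (.e (nat_lit 360475) (nat_lit 8) (.e (nat_lit 557070) (nat_lit 9) (.e (nat_lit 7936) (nat_lit 25) .nil))))) .nil))) (.nd (nat_lit 5) 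
(.lf (nat_lit 254037) (.g (nat_lit 1221) (.e (nat_lit 163962) (nat_lit 25) (.e (nat_lit 532550) (nat_lit 12) (.e (nat_lit 360474) (nat_lit 8) (.e (nat_lit 557085) (nat_lit 11) .nil)))) .nil)) 
(.lf (nat_lit 254069) (.g (nat_lit 910) (.e (nat_lit 163962) (nat_lit 25) (.e (nat_lit 532554) (nat_lit 13) (.e (nat_lit 376576) (nat_lit 3) (.e (nat_lit 163950) (nat_lit 21) (.e (nat_lit 500072) (nat_lit 19) (.e (nat_lit 81664) (nat_lit 35) .nil)))))) (.g (nat_lit 4) .nil .nil))))) (.nd (nat_lit 4) (.nd (nat_lit 5) 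
(.lf (nat_lit 254029) (.g (nat_lit 2192) (.e (nat_lit 163962) (nat_lit 25) (.e (nat_lit 532550) (nat_lit 12) (.e (nat_lit 360467) (nat_lit 3) (.e (nat_lit 516139) (nat_lit 7) (.e (nat_lit 409617) (nat_lit 10) .nil))))) .nil)) 
(.lf (nat_lit 254061) (.g (nat_lit 5181) (.e (nat_lit 163962) (nat_lit 25) (.e (nat_lit 532550) (nat_lit 12) (.e (nat_lit 360475) (nat_lit 8) (.e (nat_lit 557085) (nat_lit 11) (.e (nat_lit 24580) (nat_lit 0) (.e (nat_lit 6712) (nat_lit 360) .nil)))))) (.g (nat_lit 0) .nil .nil)))) (.nd (nat_lit 5) 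
(.lf (nat_lit 254045) (.g (nat_lit 4730) (.e (nat_lit 163962) (nat_lit 25) (.e (nat_lit 532550) (nat_lit 12) (.e (nat_lit 360475) (nat_lit 8) (.e (nat_lit 557067) (nat_lit 9) (.e (nat_lit 214) (nat_lit 19) (.e (nat_lit 319490) (nat_lit 0) (.e (nat_lit 5761) (nat_lit 315) .nil))))))) (.g (nat_lit 5) .nil .nil))) 
(.lf (nat_lit 254077) (.g (nat_lit 3439) (.e (nat_lit 163963) (nat_lit 25) (.e (nat_lit 532499) (nat_lit 1) (.e (nat_lit 57847) (nat_lit 252) (.e (nat_lit 57377) (nat_lit 3) (.e (nat_lit 98313) (nat_lit 9) (.e (nat_lit 336027) (nat_lit 3) (.e (nat_lit 98325) (nat_lit 17) (.e (nat_lit 3721) (nat_lit 227) (.e (nat_lit 778482) (nat_lit 12) .nil))))))))) (.g (nat_lit 5) .nil .nil))))))) 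
(.nd (nat_lit 2) (.nd (nat_lit 3) (.nd (nat_lit 4) (.nd (nat_lit 5) 
(.lf (nat_lit 254019) (.g (nat_lit 2881) (.e (nat_lit 163962) (nat_lit 25) (.e (nat_lit 532549) (nat_lit 12) (.e (nat_lit 360475) (nat_lit 8) (.e (nat_lit 557087) (nat_lit 11) (.e (nat_lit 24579) (nat_lit 0) (.e (nat_lit 6714) (nat_lit 360) .nil)))))) (.g (nat_lit 4) .nil .nil))) 
(.lf (nat_lit 254051) (.g (nat_lit 2484) (.e (nat_lit 163962) (nat_lit 25) (.e (nat_lit 532550) (nat_lit 12) (.e (nat_lit 360475) (nat_lit 8) (.e (nat_lit 557068) (nat_lit 9) (.e (nat_lit 7936) (nat_lit 25) (.e (nat_lit 376576) (nat_lit 3) .nil)))))) (.g (nat_lit 4) .nil .nil)))) (.nd (nat_lit 5) 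
(.lf (nat_lit 254035) (.g (nat_lit 1710) (.e (nat_lit 163962) (nat_lit 25) (.e (nat_lit 532550) (nat_lit 12) (.e (nat_lit 360474) (nat_lit 8) (.e (nat_lit 557073) (nat_lit 9) (.e (nat_lit 7936) (nat_lit 22) (.e (nat_lit 352000) (nat_lit 3) .nil)))))) (.g (nat_lit 4) .nil .nil))) 
(.lf (nat_lit 254067) (.g (nat_lit 3764) (.e (nat_lit 163962) (nat_lit 25) (.e (nat_lit 532550) (nat_lit 12) (.e (nat_lit 360475) (nat_lit 8) (.e (nat_lit 557087) (nat_lit 11) (.e (nat_lit 24580) (nat_lit 0) (.e (nat_lit 6714) (nat_lit 360) .nil)))))) (.g (nat_lit 0) .nil .nil))))) (.nd (nat_lit 4) (.nd (nat_lit 5) 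
(.lf (nat_lit 254027) (.g (nat_lit 529) (.e (nat_lit 163962) (nat_lit 25) (.e (nat_lit 532550) (nat_lit 12) (.e (nat_lit 368384) (nat_lit 0) .nil))) .nil)) 
(.lf (nat_lit 254059) (.g (nat_lit 2414) (.e (nat_lit 163962) (nat_lit 25) (.e (nat_lit 532550) (nat_lit 12) (.e (nat_lit 360475) (nat_lit 8) (.e (nat_lit 557073) (nat_lit 9) (.e (nat_lit 7936) (nat_lit 25) (.e (nat_lit 376576) (nat_lit 3) .nil)))))) (.g (nat_lit 4) .nil .nil)))) (.nd (nat_lit 5) 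
(.lf (nat_lit 254043) (.g (nat_lit 2668) (.e (nat_lit 163962) (nat_lit 25) (.e (nat_lit 532550) (nat_lit 12) (.e (nat_lit 360475) (nat_lit 8) (.e (nat_lit 557066) (nat_lit 9) (.e (nat_lit 328) (nat_lit 25) (.e (nat_lit 376576) (nat_lit 3) .nil)))))) (.g (nat_lit 5) .nil .nil))) 
(.lf (nat_lit 254075) (.g (nat_lit 2981) (.e (nat_lit 163963) (nat_lit 25) (.e (nat_lit 532499) (nat_lit 1) (.e (nat_lit 57847) (nat_lit 252) (.e (nat_lit 57372) (nat_lit 2) .nil)))) .nil))))) (.nd (nat_lit 3) (.nd (nat_lit 4) (.nd (nat_lit 5) 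
(.lf (nat_lit 254023) (.g (nat_lit 1253) (.e (nat_lit 163962) (nat_lit 25) (.e (nat_lit 532550) (nat_lit 12) (.e (nat_lit 360451) (nat_lit 0) (.e (nat_lit 3928) (nat_lit 239) .nil)))) .nil)) 
(.lf (nat_lit 254055) (.g (nat_lit 3243) (.e (nat_lit 163962) (nat_lit 25) (.e (nat_lit 532550) (nat_lit 12) (.e (nat_lit 360475) (nat_lit 8) (.e (nat_lit 557073) (nat_lit 9) (.e (nat_lit 214) (nat_lit 19) (.e (nat_lit 319493) (nat_lit 0) (.e (nat_lit 5761) (nat_lit 315) .nil))))))) (.g (nat_lit 5) .nil .nil)))) (.nd (nat_lit 5) 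
(.lf (nat_lit 254039) (.g (nat_lit 3092) (.e (nat_lit 163962) (nat_lit 25) (.e (nat_lit 532550) (nat_lit 12) (.e (nat_lit 360475) (nat_lit 8) (.e (nat_lit 557065) (nat_lit 9) (.e (nat_lit 214) (nat_lit 19) .nil))))) .nil)) 
(.lf (nat_lit 254071) (.g (nat_lit 849) (.e (nat_lit 163962) (nat_lit 25) (.e (nat_lit 532559) (nat_lit 14) (.e (nat_lit 376855) (nat_lit 20) (.e (nat_lit 1836) (nat_lit 123) (.e (nat_lit 548890) (nat_lit 10) (.e (nat_lit 81664) (nat_lit 35) .nil)))))) (.g (nat_lit 4) .nil .nil))))) (.nd (nat_lit 4) (.nd (nat_lit 5) 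
(.lf (nat_lit 254031) (.g (nat_lit 2238) (.e (nat_lit 163962) (nat_lit 25) (.e (nat_lit 532550) (nat_lit 12) (.e (nat_lit 360474) (nat_lit 8) (.e (nat_lit 557070) (nat_lit 9) (.e (nat_lit 7936) (nat_lit 25) (.e (nat_lit 376576) (nat_lit 3) .nil)))))) (.g (nat_lit 4) .nil .nil))) 
(.lf (nat_lit 254063) (.g (nat_lit 3037) (.e (nat_lit 163962) (nat_lit 25) (.e (nat_lit 532550) (nat_lit 12) (.e (nat_lit 360475) (nat_lit 8) (.e (nat_lit 557086) (nat_lit 11) (.e (nat_lit 24579) (nat_lit 0) (.e (nat_lit 6714) (nat_lit 360) .nil)))))) (.g (nat_lit 0) .nil .nil)))) (.nd (nat_lit 5) 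
(.lf (nat_lit 254047) (.g (nat_lit 3964) (.e (nat_lit 163962) (nat_lit 25) (.e (nat_lit 532550) (nat_lit 12) (.e (nat_lit 360475) (nat_lit 8) (.e (nat_lit 557067) (nat_lit 9) (.e (nat_lit 220) (nat_lit 20) (.e (nat_lit 327684) (nat_lit 0) (.e (nat_lit 5756) (nat_lit 315) .nil))))))) (.g (nat_lit 4) .nil .nil))) 
(.lf (nat_lit 254079) (.g (nat_lit 2976) (.e (nat_lit 163963) (nat_lit 25) (.e (nat_lit 532499) (nat_lit 1) (.e (nat_lit 57847) (nat_lit 252) (.e (nat_lit 57377) (nat_lit 3) (.e (nat_lit 98313) (nat_lit 9) (.e (nat_lit 336027) (nat_lit 3) (.e (nat_lit 98337) (nat_lit 19) (.e (nat_lit 213033) (nat_lit 12) .nil)))))))) (.g (nat_lit 4) .nil .nil)))))))))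

noncomputable def tv3295 : DT := (.nd (nat_lit 0) (.nd (nat_lit 1) (.nd (nat_lit 2) (.nd (nat_lit 3) (.nd (nat_lit 4) (.nd (nat_lit 5) (.nd (nat_lit 6) 
(.lf (nat_lit 254080) (.g (nat_lit 3349) (.e (nat_lit 163963) (nat_lit 25) (.e (nat_lit 532499) (nat_lit 1) (.e (nat_lit 57847) (nat_lit 252) (.e (nat_lit 57377) (nat_lit 3) (.e (nat_lit 98313) (nat_lit 9) (.e (nat_lit 336027) (nat_lit 3) (.e (nat_lit 98338) (nat_lit 19) (.e (nat_lit 213033) (nat_lit 12) .nil)))))))) (.g (nat_lit 5) .nil .nil))) 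
(.lf (nat_lit 254144) (.g (nat_lit 3684) (.e (nat_lit 163964) (nat_lit 25) (.e (nat_lit 532535) (nat_lit 9) (.e (nat_lit 336099) (nat_lit 9) (.e (nat_lit 336028) (nat_lit 3) (.e (nat_lit 98350) (nat_lit 24) .nil))))) .nil))) (.nd (nat_lit 6) 
(.lf (nat_lit 254112) (.g (nat_lit 5149) (.e (nat_lit 163963) (nat_lit 25) (.e (nat_lit 532550) (nat_lit 12) (.e (nat_lit 360475) (nat_lit 8) (.e (nat_lit 557086) (nat_lit 11) .nil)))) .nil)) 
(.lf (nat_lit 254176) (.g (nat_lit 558) (.e (nat_lit 171776) (nat_lit 28) (.e (nat_lit 557109) (nat_lit 15) (.e (nat_lit 188452) (nat_lit 23) .nil))) .nil)))) (.nd (nat_lit 5) (.nd (nat_lit 6) 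
(.lf (nat_lit 254096) (.g (nat_lit 673) (.e (nat_lit 163963) (nat_lit 25) (.e (nat_lit 532503) (nat_lit 1) (.e (nat_lit 57870) (nat_lit 264) .nil))) .nil)) 
(.lf (nat_lit 254160) (.g (nat_lit 2212) (.e (nat_lit 163965) (nat_lit 25) (.e (nat_lit 532499) (nat_lit 1) (.e (nat_lit 57926) (nat_lit 282) (.e (nat_lit 163871) (nat_lit 2) (.e (nat_lit 196670) (nat_lit 14) .nil))))) .nil))) (.nd (nat_lit 6) 
(.lf (nat_lit 254128) (.g (nat_lit 2547) (.e (nat_lit 163964) (nat_lit 25) (.e (nat_lit 532501) (nat_lit 1) (.e (nat_lit 57926) (nat_lit 282) (.e (nat_lit 163874) (nat_lit 3) (.e (nat_lit 204863) (nat_lit 27) .nil))))) .nil)) 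
(.lf (nat_lit 254192) (.g (nat_lit 2054) (.e (nat_lit 163973) (nat_lit 30) (.e (nat_lit 573481) (nat_lit 13) (.e (nat_lit 65604) (nat_lit 9) (.e (nat_lit 336028) (nat_lit 3) (.e (nat_lit 98366) (nat_lit 27) .nil))))) .nil))))) (.nd (nat_lit 4) (.nd (nat_lit 5) (.nd (nat_lit 6) 
(.lf (nat_lit 254088) (.g (nat_lit 2505) (.e (nat_lit 163963) (nat_lit 25) (.e (nat_lit 532499) (nat_lit 1) (.e (nat_lit 57927) (nat_lit 282) (.e (nat_lit 163875) (nat_lit 3) (.e (nat_lit 204850) (nat_lit 26) .nil))))) .nil)) 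
(.lf (nat_lit 254152) (.g (nat_lit 5053) (.e (nat_lit 163964) (nat_lit 25) (.e (nat_lit 532550) (nat_lit 12) (.e (nat_lit 360475) (nat_lit 8) (.e (nat_lit 557086) (nat_lit 11) .nil)))) .nil))) (.nd (nat_lit 6) 
(.lf (nat_lit 254120) (.g (nat_lit 2032) (.e (nat_lit 163964) (nat_lit 25) (.e (nat_lit 532499) (nat_lit 1) (.e (nat_lit 57927) (nat_lit 282) (.e (nat_lit 163868) (nat_lit 2) (.e (nat_lit 196670) (nat_lit 14) .nil))))) .nil)) 
(.lf (nat_lit 254184) (.g (nat_lit 3122) (.e (nat_lit 163970) (nat_lit 29) (.e (nat_lit 565267) (nat_lit 4) (.e (nat_lit 65610) (nat_lit 10) (.e (nat_lit 344117) (nat_lit 21) (.e (nat_lit 516160) (nat_lit 10) (.e (nat_lit 434275) (nat_lit 39) (.e (nat_lit 663584) (nat_lit 12) .nil))))))) (.g (nat_lit 5) .nil .nil))))) (.nd (nat_lit 5) (.nd (nat_lit 6) 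
(.lf (nat_lit 254104) (.g (nat_lit 2542) (.e (nat_lit 163963) (nat_lit 25) (.e (nat_lit 532513) (nat_lit 3) (.e (nat_lit 114714) (nat_lit 22) (.e (nat_lit 90172) (nat_lit 14) (.e (nat_lit 180244) (nat_lit 5) (.e (nat_lit 532484) (nat_lit 0) (.e (nat_lit 2271) (nat_lit 149) (.e (nat_lit 761899) (nat_lit 15) .nil)))))))) (.g (nat_lit 5) .nil .nil))) 
(.lf (nat_lit 254168) (.g (nat_lit 2582) (.e (nat_lit 163965) (nat_lit 25) (.e (nat_lit 532503) (nat_lit 1) (.e (nat_lit 57931) (nat_lit 282) (.e (nat_lit 163869) (nat_lit 2) (.e (nat_lit 196670) (nat_lit 14) .nil))))) .nil))) (.nd (nat_lit 6) 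
(.lf (nat_lit 254136) (.g (nat_lit 2138) (.e (nat_lit 163964) (nat_lit 25) (.e (nat_lit 532513) (nat_lit 3) (.e (nat_lit 114714) (nat_lit 22) (.e (nat_lit 90172) (nat_lit 14) (.e (nat_lit 180243) (nat_lit 5) .nil))))) .nil)) 
(.lf (nat_lit 254200) (.g (nat_lit 1321) (.e (nat_lit 163973) (nat_lit 30) (.e (nat_lit 573491) (nat_lit 15) (.e (nat_lit 81954) (nat_lit 23) (.e (nat_lit 98367) (nat_lit 27) .nil)))) .nil)))))) (.nd (nat_lit 3) (.nd (nat_lit 4) (.nd (nat_lit 5) (.nd (nat_lit 6) 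
(.lf (nat_lit 254084) (.g (nat_lit 2255) (.e (nat_lit 163963) (nat_lit 25) (.e (nat_lit 532499) (nat_lit 1) (.e (nat_lit 57927) (nat_lit 282) (.e (nat_lit 163870) (nat_lit 2) (.e (nat_lit 196670) (nat_lit 14) .nil))))) .nil)) 
(.lf (nat_lit 254148) (.g (nat_lit 2207) (.e (nat_lit 163964) (nat_lit 25) (.e (nat_lit 532544) (nat_lit 10) (.e (nat_lit 344129) (nat_lit 26) (.e (nat_lit 557103) (nat_lit 14) (.e (nat_lit 180250) (nat_lit 10) .nil))))) .nil))) (.nd (nat_lit 6) 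
(.lf (nat_lit 254116) (.g (nat_lit 4004) (.e (nat_lit 163964) (nat_lit 25) (.e (nat_lit 532499) (nat_lit 1) (.e (nat_lit 57847) (nat_lit 252) (.e (nat_lit 57377) (nat_lit 3) (.e (nat_lit 98313) (nat_lit 9) (.e (nat_lit 336027) (nat_lit 3) (.e (nat_lit 98339) (nat_lit 19) (.e (nat_lit 213035) (nat_lit 12) .nil)))))))) (.g (nat_lit 6) .nil .nil))) 
(.lf (nat_lit 254180) (.g (nat_lit 3097) (.e (nat_lit 171776) (nat_lit 28) (.e (nat_lit 557109) (nat_lit 15) (.e (nat_lit 188452) (nat_lit 23) (.e (nat_lit 204863) (nat_lit 27) (.e (nat_lit 344160) (nat_lit 37) .nil))))) .nil)))) (.nd (nat_lit 5) (.nd (nat_lit 6) 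
(.lf (nat_lit 254100) (.g (nat_lit 2566) (.e (nat_lit 163963) (nat_lit 25) (.e (nat_lit 532513) (nat_lit 3) (.e (nat_lit 114714) (nat_lit 22) (.e (nat_lit 90170) (nat_lit 13) (.e (nat_lit 172065) (nat_lit 3) (.e (nat_lit 204821) (nat_lit 17) (.e (nat_lit 2264) (nat_lit 149) (.e (nat_lit 761899) (nat_lit 15) .nil)))))))) (.g (nat_lit 4) .nil .nil))) 
(.lf (nat_lit 254164) (.g (nat_lit 2347) (.e (nat_lit 163965) (nat_lit 25) (.e (nat_lit 532499) (nat_lit 1) (.e (nat_lit 57927) (nat_lit 282) (.e (nat_lit 163874) (nat_lit 3) (.e (nat_lit 204862) (nat_lit 27) .nil))))) .nil))) (.nd (nat_lit 6) 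
(.lf (nat_lit 254132) (.g (nat_lit 2981) (.e (nat_lit 163964) (nat_lit 25) (.e (nat_lit 532501) (nat_lit 1) (.e (nat_lit 57931) (nat_lit 282) (.e (nat_lit 163869) (nat_lit 2) (.e (nat_lit 196670) (nat_lit 14) .nil))))) .nil)) 
(.lf (nat_lit 254196) (.g (nat_lit 1082) (.e (nat_lit 163973) (nat_lit 30) (.e (nat_lit 573482) (nat_lit 13) (.e (nat_lit 65604) (nat_lit 9) .nil))) .nil))))) (.nd (nat_lit 4) (.nd (nat_lit 5) (.nd (nat_lit 6) 
(.lf (nat_lit 254092) (.g (nat_lit 2290) (.e (nat_lit 163963) (nat_lit 25) (.e (nat_lit 532501) (nat_lit 1) (.e (nat_lit 57926) (nat_lit 282) (.e (nat_lit 163869) (nat_lit 2) (.e (nat_lit 196670) (nat_lit 14) .nil))))) .nil)) 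
(.lf (nat_lit 254156) (.g (nat_lit 3504) (.e (nat_lit 163965) (nat_lit 25) (.e (nat_lit 532499) (nat_lit 1) (.e (nat_lit 57847) (nat_lit 252) (.e (nat_lit 57377) (nat_lit 3) (.e (nat_lit 98313) (nat_lit 9) .nil))))) .nil))) (.nd (nat_lit 6) 
(.lf (nat_lit 254124) (.g (nat_lit 2592) (.e (nat_lit 163964) (nat_lit 25) (.e (nat_lit 532501) (nat_lit 1) (.e (nat_lit 57852) (nat_lit 252) (.e (nat_lit 57377) (nat_lit 3) (.e (nat_lit 98313) (nat_lit 9) .nil))))) .nil)) 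
(.lf (nat_lit 254188) (.g (nat_lit 2181) (.e (nat_lit 163973) (nat_lit 30) (.e (nat_lit 573451) (nat_lit 9) (.e (nat_lit 1595) (nat_lit 111) (.e (nat_lit 360467) (nat_lit 3) (.e (nat_lit 516179) (nat_lit 15) .nil))))) .nil)))) (.nd (nat_lit 5) (.nd (nat_lit 6) 
(.lf (nat_lit 254108) (.g (nat_lit 1909) (.e (nat_lit 163963) (nat_lit 25) (.e (nat_lit 532513) (nat_lit 3) (.e (nat_lit 114714) (nat_lit 22) (.e (nat_lit 90172) (nat_lit 14) (.e (nat_lit 180244) (nat_lit 5) (.e (nat_lit 532489) (nat_lit 0) (.e (nat_lit 2272) (nat_lit 149) (.e (nat_lit 761899) (nat_lit 15) .nil)))))))) (.g (nat_lit 4) .nil .nil))) 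
(.lf (nat_lit 254172) (.g (nat_lit 2603) (.e (nat_lit 171776) (nat_lit 28) (.e (nat_lit 557107) (nat_lit 15) (.e (nat_lit 188450) (nat_lit 23) (.e (nat_lit 204863) (nat_lit 27) (.e (nat_lit 344160) (nat_lit 37) .nil))))) .nil))) (.nd (nat_lit 6) 
(.lf (nat_lit 254140) (.g (nat_lit 1407) (.e (nat_lit 163964) (nat_lit 25) (.e (nat_lit 532515) (nat_lit 3) (.e (nat_lit 114719) (nat_lit 23) (.e (nat_lit 98358) (nat_lit 26) .nil)))) .nil)) 
(.lf (nat_lit 254204) (.g (nat_lit 3863) (.e (nat_lit 163973) (nat_lit 30) (.e (nat_lit 573492) (nat_lit 15) (.e (nat_lit 81956) (nat_lit 23) (.e (nat_lit 98386) (nat_lit 32) .nil)))) .nil))))))) (.nd (nat_lit 2) (.nd (nat_lit 3) (.nd (nat_lit 4) (.nd (nat_lit 5) (.nd (nat_lit 6) 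
(.lf (nat_lit 254082) (.g (nat_lit 2232) (.e (nat_lit 163963) (nat_lit 25) (.e (nat_lit 532499) (nat_lit 1) (.e (nat_lit 57926) (nat_lit 282) (.e (nat_lit 163871) (nat_lit 2) (.e (nat_lit 196670) (nat_lit 14) .nil))))) .nil)) 
(.lf (nat_lit 254146) (.g (nat_lit 2588) (.e (nat_lit 163964) (nat_lit 25) (.e (nat_lit 532543) (nat_lit 10) (.e (nat_lit 344129) (nat_lit 26) (.e (nat_lit 557103) (nat_lit 14) (.e (nat_lit 180250) (nat_lit 10) (.e (nat_lit 573474) (nat_lit 12) (.e (nat_lit 57507) (nat_lit 39) (.e (nat_lit 647181) (nat_lit 3) .nil)))))))) (.g (nat_lit 4) .nil .nil)))) (.nd (nat_lit 6) 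
(.lf (nat_lit 254114) (.g (nat_lit 2243) (.e (nat_lit 163964) (nat_lit 25) (.e (nat_lit 532499) (nat_lit 1) (.e (nat_lit 57847) (nat_lit 252) (.e (nat_lit 57377) (nat_lit 3) (.e (nat_lit 98313) (nat_lit 9) .nil))))) .nil)) 
(.lf (nat_lit 254178) (.g (nat_lit 2003) (.e (nat_lit 171776) (nat_lit 28) (.e (nat_lit 557109) (nat_lit 15) (.e (nat_lit 188452) (nat_lit 23) (.e (nat_lit 204863) (nat_lit 27) .nil)))) .nil)))) (.nd (nat_lit 5) (.nd (nat_lit 6) 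
(.lf (nat_lit 254098) (.g (nat_lit 3296) (.e (nat_lit 163963) (nat_lit 25) (.e (nat_lit 532504) (nat_lit 1) (.e (nat_lit 57931) (nat_lit 282) (.e (nat_lit 163869) (nat_lit 2) (.e (nat_lit 196670) (nat_lit 14) .nil))))) .nil)) 
(.lf (nat_lit 254162) (.g (nat_lit 1970) (.e (nat_lit 163965) (nat_lit 25) (.e (nat_lit 532499) (nat_lit 1) (.e (nat_lit 57927) (nat_lit 282) (.e (nat_lit 163871) (nat_lit 2) (.e (nat_lit 196670) (nat_lit 14) .nil))))) .nil))) (.nd (nat_lit 6) 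
(.lf (nat_lit 254130) (.g (nat_lit 2401) (.e (nat_lit 163964) (nat_lit 25) (.e (nat_lit 532501) (nat_lit 1) (.e (nat_lit 57927) (nat_lit 282) (.e (nat_lit 163868) (nat_lit 2) (.e (nat_lit 196670) (nat_lit 14) .nil))))) .nil)) 
(.lf (nat_lit 254194) (.g (nat_lit 2575) (.e (nat_lit 163973) (nat_lit 30) (.e (nat_lit 573481) (nat_lit 13) (.e (nat_lit 65619) (nat_lit 10) (.e (nat_lit 344117) (nat_lit 21) (.e (nat_lit 516159) (nat_lit 10) .nil))))) .nil))))) (.nd (nat_lit 4) (.nd (nat_lit 5) (.nd (nat_lit 6) 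
(.lf (nat_lit 254090) (.g (nat_lit 2021) (.e (nat_lit 163963) (nat_lit 25) (.e (nat_lit 532501) (nat_lit 1) (.e (nat_lit 57852) (nat_lit 252) (.e (nat_lit 57377) (nat_lit 3) .nil)))) .nil)) 
(.lf (nat_lit 254154) (.g (nat_lit 2846) (.e (nat_lit 163965) (nat_lit 25) (.e (nat_lit 532499) (nat_lit 1) (.e (nat_lit 57847) (nat_lit 252) (.e (nat_lit 57370) (nat_lit 2) .nil)))) .nil))) (.nd (nat_lit 6) 
(.lf (nat_lit 254122) (.g (nat_lit 2319) (.e (nat_lit 163964) (nat_lit 25) (.e (nat_lit 532499) (nat_lit 1) (.e (nat_lit 57927) (nat_lit 282) (.e (nat_lit 163874) (nat_lit 3) (.e (nat_lit 204862) (nat_lit 27) .nil))))) .nil)) 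
(.lf (nat_lit 254186) (.g (nat_lit 424) (.e (nat_lit 163973) (nat_lit 30) (.e (nat_lit 573451) (nat_lit 9) (.e (nat_lit 1595) (nat_lit 111) .nil))) .nil)))) (.nd (nat_lit 5) (.nd (nat_lit 6) 
(.lf (nat_lit 254106) (.g (nat_lit 2565) (.e (nat_lit 163963) (nat_lit 25) (.e (nat_lit 532513) (nat_lit 3) (.e (nat_lit 114714) (nat_lit 22) (.e (nat_lit 90172) (nat_lit 14) (.e (nat_lit 180244) (nat_lit 5) (.e (nat_lit 532484) (nat_lit 0) (.e (nat_lit 7936) (nat_lit 149) (.e (nat_lit 761896) (nat_lit 15) .nil)))))))) (.g (nat_lit 5) .nil .nil))) 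
(.lf (nat_lit 254170) (.g (nat_lit 2198) (.e (nat_lit 171776) (nat_lit 28) (.e (nat_lit 557101) (nat_lit 13) (.e (nat_lit 172097) (nat_lit 9) (.e (nat_lit 426140) (nat_lit 3) (.e (nat_lit 204862) (nat_lit 27) .nil))))) .nil))) (.nd (nat_lit 6) 
(.lf (nat_lit 254138) (.g (nat_lit 2050) (.e (nat_lit 163964) (nat_lit 25) (.e (nat_lit 532513) (nat_lit 3) (.e (nat_lit 114714) (nat_lit 22) (.e (nat_lit 90174) (nat_lit 14) (.e (nat_lit 180243) (nat_lit 5) .nil))))) .nil)) 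
(.lf (nat_lit 254202) (.g (nat_lit 3541) (.e (nat_lit 163973) (nat_lit 30) (.e (nat_lit 573492) (nat_lit 15) (.e (nat_lit 81956) (nat_lit 23) (.e (nat_lit 98384) (nat_lit 32) .nil)))) .nil)))))) (.nd (nat_lit 3) (.nd (nat_lit 4) (.nd (nat_lit 5) (.nd (nat_lit 6) 
(.lf (nat_lit 254086) (.g (nat_lit 2864) (.e (nat_lit 163963) (nat_lit 25) (.e (nat_lit 532499) (nat_lit 1) (.e (nat_lit 57927) (nat_lit 282) (.e (nat_lit 163873) (nat_lit 3) (.e (nat_lit 204862) (nat_lit 27) (.e (nat_lit 344117) (nat_lit 21) (.e (nat_lit 516106) (nat_lit 0) (.e (nat_lit 3721) (nat_lit 227) (.e (nat_lit 778474) (nat_lit 12) .nil))))))))) (.g (nat_lit 4) .nil .nil))) 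
(.lf (nat_lit 254150) (.g (nat_lit 2551) (.e (nat_lit 163964) (nat_lit 25) (.e (nat_lit 532544) (nat_lit 10) (.e (nat_lit 344133) (nat_lit 26) (.e (nat_lit 557103) (nat_lit 14) (.e (nat_lit 180250) (nat_lit 10) .nil))))) .nil))) (.nd (nat_lit 6) 
(.lf (nat_lit 254118) (.g (nat_lit 2223) (.e (nat_lit 163964) (nat_lit 25) (.e (nat_lit 532499) (nat_lit 1) (.e (nat_lit 57926) (nat_lit 282) (.e (nat_lit 163871) (nat_lit 2) (.e (nat_lit 196670) (nat_lit 14) .nil))))) .nil)) 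
(.lf (nat_lit 254182) (.g (nat_lit 3933) (.e (nat_lit 171776) (nat_lit 28) (.e (nat_lit 557109) (nat_lit 15) (.e (nat_lit 188452) (nat_lit 23) (.e (nat_lit 204864) (nat_lit 27) (.e (nat_lit 344161) (nat_lit 37) .nil))))) .nil)))) (.nd (nat_lit 5) (.nd (nat_lit 6) 
(.lf (nat_lit 254102) (.g (nat_lit 2720) (.e (nat_lit 163963) (nat_lit 25) (.e (nat_lit 532513) (nat_lit 3) (.e (nat_lit 114714) (nat_lit 22) (.e (nat_lit 90172) (nat_lit 14) (.e (nat_lit 180243) (nat_lit 5) (.e (nat_lit 532484) (nat_lit 0) (.e (nat_lit 7936) (nat_lit 149) (.e (nat_lit 761896) (nat_lit 15) .nil)))))))) (.g (nat_lit 5) .nil .nil))) 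
(.lf (nat_lit 254166) (.g (nat_lit 2376) (.e (nat_lit 163965) (nat_lit 25) (.e (nat_lit 532501) (nat_lit 1) (.e (nat_lit 57927) (nat_lit 282) (.e (nat_lit 163869) (nat_lit 2) (.e (nat_lit 196670) (nat_lit 14) .nil))))) .nil))) (.nd (nat_lit 6) 
(.lf (nat_lit 254134) (.g (nat_lit 3296) (.e (nat_lit 163964) (nat_lit 25) (.e (nat_lit 532504) (nat_lit 1) (.e (nat_lit 57931) (nat_lit 282) (.e (nat_lit 163869) (nat_lit 2) (.e (nat_lit 196670) (nat_lit 14) .nil))))) .nil)) 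
(.lf (nat_lit 254198) (.g (nat_lit 1826) (.e (nat_lit 163973) (nat_lit 30) (.e (nat_lit 573484) (nat_lit 13) (.e (nat_lit 65610) (nat_lit 10) (.e (nat_lit 344117) (nat_lit 21) .nil)))) .nil))))) (.nd (nat_lit 4) (.nd (nat_lit 5) (.nd (nat_lit 6) 
(.lf (nat_lit 254094) (.g (nat_lit 2436) (.e (nat_lit 163963) (nat_lit 25) (.e (nat_lit 532501) (nat_lit 1) (.e (nat_lit 57927) (nat_lit 282) (.e (nat_lit 163868) (nat_lit 2) (.e (nat_lit 196670) (nat_lit 14) .nil))))) .nil)) 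
(.lf (nat_lit 254158) (.g (nat_lit 2719) (.e (nat_lit 163965) (nat_lit 25) (.e (nat_lit 532499) (nat_lit 1) (.e (nat_lit 57926) (nat_lit 282) (.e (nat_lit 163868) (nat_lit 2) (.e (nat_lit 196670) (nat_lit 14) .nil))))) .nil))) (.nd (nat_lit 6) 
(.lf (nat_lit 254126) (.g (nat_lit 2286) (.e (nat_lit 163964) (nat_lit 25) (.e (nat_lit 532501) (nat_lit 1) (.e (nat_lit 57926) (nat_lit 282) (.e (nat_lit 163871) (nat_lit 2) (.e (nat_lit 196670) (nat_lit 14) .nil))))) .nil)) 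
(.lf (nat_lit 254190) (.g (nat_lit 1359) (.e (nat_lit 163973) (nat_lit 30) (.e (nat_lit 573479) (nat_lit 13) (.e (nat_lit 65619) (nat_lit 10) (.e (nat_lit 344117) (nat_lit 21) (.e (nat_lit 516151) (nat_lit 9) .nil))))) .nil)))) (.nd (nat_lit 5) (.nd (nat_lit 6) 
(.lf (nat_lit 254110) (.g (nat_lit 2999) (.e (nat_lit 163963) (nat_lit 25) (.e (nat_lit 532513) (nat_lit 3) (.e (nat_lit 114714) (nat_lit 22) (.e (nat_lit 90174) (nat_lit 14) (.e (nat_lit 180243) (nat_lit 5) (.e (nat_lit 532484) (nat_lit 0) (.e (nat_lit 7936) (nat_lit 149) (.e (nat_lit 761896) (nat_lit 15) .nil)))))))) (.g (nat_lit 5) .nil .nil))) 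
(.lf (nat_lit 254174) (.g (nat_lit 2634) (.e (nat_lit 171776) (nat_lit 28) (.e (nat_lit 557109) (nat_lit 15) (.e (nat_lit 188450) (nat_lit 23) (.e (nat_lit 204863) (nat_lit 27) .nil)))) .nil))) (.nd (nat_lit 6) 
(.lf (nat_lit 254142) (.g (nat_lit 2684) (.e (nat_lit 163964) (nat_lit 25) (.e (nat_lit 532534) (nat_lit 9) (.e (nat_lit 336019) (nat_lit 3) (.e (nat_lit 98341) (nat_lit 20) (.e (nat_lit 221210) (nat_lit 22) .nil))))) .nil)) 
(.lf (nat_lit 254206) (.g (nat_lit 2038) (.e (nat_lit 163974) (nat_lit 30) (.e (nat_lit 573451) (nat_lit 9) (.e (nat_lit 1595) (nat_lit 111) (.e (nat_lit 360466) (nat_lit 3) (.e (nat_lit 516146) (nat_lit 9) .nil))))) .nil)))))))) (.nd (nat_lit 1) (.nd (nat_lit 2) (.nd (nat_lit 3) (.nd (nat_lit 4) (.nd (nat_lit 5) (.nd (nat_lit 6) 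
(.lf (nat_lit 254081) (.g (nat_lit 2739) (.e (nat_lit 163963) (nat_lit 25) (.e (nat_lit 532499) (nat_lit 1) (.e (nat_lit 57926) (nat_lit 282) (.e (nat_lit 163868) (nat_lit 2) (.e (nat_lit 196670) (nat_lit 14) .nil))))) .nil)) 
(.lf (nat_lit 254145) (.g (nat_lit 3141) (.e (nat_lit 163964) (nat_lit 25) (.e (nat_lit 532535) (nat_lit 9) (.e (nat_lit 336099) (nat_lit 9) (.e (nat_lit 343808) (nat_lit 3) .nil)))) .nil))) (.nd (nat_lit 6) 
(.lf (nat_lit 254113) (.g (nat_lit 2945) (.e (nat_lit 163964) (nat_lit 25) (.e (nat_lit 532499) (nat_lit 1) (.e (nat_lit 57847) (nat_lit 252) (.e (nat_lit 57372) (nat_lit 2) .nil)))) .nil)) 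
(.lf (nat_lit 254177) (.g (nat_lit 3478) (.e (nat_lit 171776) (nat_lit 28) (.e (nat_lit 557109) (nat_lit 15) (.e (nat_lit 188452) (nat_lit 23) (.e (nat_lit 204862) (nat_lit 27) (.e (nat_lit 344160) (nat_lit 37) .nil))))) .nil)))) (.nd (nat_lit 5) (.nd (nat_lit 6) 
(.lf (nat_lit 254097) (.g (nat_lit 2783) (.e (nat_lit 163963) (nat_lit 25) (.e (nat_lit 532503) (nat_lit 1) (.e (nat_lit 57931) (nat_lit 282) (.e (nat_lit 163874) (nat_lit 3) (.e (nat_lit 204862) (nat_lit 27) .nil))))) .nil)) 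
(.lf (nat_lit 254161) (.g (nat_lit 2059) (.e (nat_lit 163965) (nat_lit 25) (.e (nat_lit 532499) (nat_lit 1) (.e (nat_lit 57927) (nat_lit 282) (.e (nat_lit 163868) (nat_lit 2) (.e (nat_lit 196670) (nat_lit 14) .nil))))) .nil))) (.nd (nat_lit 6) 
(.lf (nat_lit 254129) (.g (nat_lit 2048) (.e (nat_lit 163964) (nat_lit 25) (.e (nat_lit 532501) (nat_lit 1) (.e (nat_lit 57927) (nat_lit 282) (.e (nat_lit 163866) (nat_lit 2) (.e (nat_lit 196670) (nat_lit 14) .nil))))) .nil)) 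
(.lf (nat_lit 254193) (.g (nat_lit 2446) (.e (nat_lit 163973) (nat_lit 30) (.e (nat_lit 573481) (nat_lit 13) (.e (nat_lit 65619) (nat_lit 10) (.e (nat_lit 344117) (nat_lit 21) (.e (nat_lit 516151) (nat_lit 9) .nil))))) .nil))))) (.nd (nat_lit 4) (.nd (nat_lit 5) (.nd (nat_lit 6) 
(.lf (nat_lit 254089) (.g (nat_lit 2876) (.e (nat_lit 163963) (nat_lit 25) (.e (nat_lit 532499) (nat_lit 1) (.e (nat_lit 57931) (nat_lit 282) (.e (nat_lit 163869) (nat_lit 2) (.e (nat_lit 196670) (nat_lit 14) .nil))))) .nil)) 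
(.lf (nat_lit 254153) (.g (nat_lit 410) (.e (nat_lit 163964) (nat_lit 25) (.e (nat_lit 532568) (nat_lit 16) (.e (nat_lit 401458) (nat_lit 13) .nil))) .nil))) (.nd (nat_lit 6) 
(.lf (nat_lit 254121) (.g (nat_lit 1942) (.e (nat_lit 163964) (nat_lit 25) (.e (nat_lit 532499) (nat_lit 1) (.e (nat_lit 57927) (nat_lit 282) (.e (nat_lit 163871) (nat_lit 2) (.e (nat_lit 196670) (nat_lit 14) .nil))))) .nil)) 
(.lf (nat_lit 254185) (.g (nat_lit 671) (.e (nat_lit 163970) (nat_lit 29) (.e (nat_lit 565269) (nat_lit 6) (.e (nat_lit 81953) (nat_lit 22) .nil))) .nil)))) (.nd (nat_lit 5) (.nd (nat_lit 6) 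
(.lf (nat_lit 254105) (.g (nat_lit 3266) (.e (nat_lit 163963) (nat_lit 25) (.e (nat_lit 532513) (nat_lit 3) (.e (nat_lit 114714) (nat_lit 22) (.e (nat_lit 90172) (nat_lit 14) (.e (nat_lit 180244) (nat_lit 5) (.e (nat_lit 532484) (nat_lit 0) (.e (nat_lit 2272) (nat_lit 149) (.e (nat_lit 761899) (nat_lit 15) .nil)))))))) (.g (nat_lit 6) .nil .nil))) 
(.lf (nat_lit 254169) (.g (nat_lit 1186) (.e (nat_lit 163965) (nat_lit 25) (.e (nat_lit 532550) (nat_lit 12) (.e (nat_lit 360475) (nat_lit 8) .nil))) .nil))) (.nd (nat_lit 6) 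
(.lf (nat_lit 254137) (.g (nat_lit 1872) (.e (nat_lit 163964) (nat_lit 25) (.e (nat_lit 532513) (nat_lit 3) (.e (nat_lit 114714) (nat_lit 22) (.e (nat_lit 90172) (nat_lit 14) (.e (nat_lit 180244) (nat_lit 5) .nil))))) .nil)) 
(.lf (nat_lit 254201) (.g (nat_lit 3573) (.e (nat_lit 163973) (nat_lit 30) (.e (nat_lit 573492) (nat_lit 15) (.e (nat_lit 81956) (nat_lit 23) (.e (nat_lit 98383) (nat_lit 32) .nil)))) .nil)))))) (.nd (nat_lit 3) (.nd (nat_lit 4) (.nd (nat_lit 5) (.nd (nat_lit 6) 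
(.lf (nat_lit 254085) (.g (nat_lit 1999) (.e (nat_lit 163963) (nat_lit 25) (.e (nat_lit 532499) (nat_lit 1) (.e (nat_lit 57927) (nat_lit 282) (.e (nat_lit 163871) (nat_lit 2) (.e (nat_lit 196670) (nat_lit 14) .nil))))) .nil)) 
(.lf (nat_lit 254149) (.g (nat_lit 4332) (.e (nat_lit 163964) (nat_lit 25) (.e (nat_lit 532544) (nat_lit 10) (.e (nat_lit 344132) (nat_lit 26) (.e (nat_lit 557105) (nat_lit 14) (.e (nat_lit 180252) (nat_lit 10) (.e (nat_lit 573474) (nat_lit 12) (.e (nat_lit 57507) (nat_lit 39) (.e (nat_lit 647181) (nat_lit 3) .nil)))))))) (.g (nat_lit 6) .nil .nil)))) (.nd (nat_lit 6) 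
(.lf (nat_lit 254117) (.g (nat_lit 2731) (.e (nat_lit 163964) (nat_lit 25) (.e (nat_lit 532499) (nat_lit 1) (.e (nat_lit 57926) (nat_lit 282) (.e (nat_lit 163868) (nat_lit 2) (.e (nat_lit 196670) (nat_lit 14) .nil))))) .nil)) 
(.lf (nat_lit 254181) (.g (nat_lit 2817) (.e (nat_lit 171776) (nat_lit 28) (.e (nat_lit 557109) (nat_lit 15) (.e (nat_lit 188452) (nat_lit 23) (.e (nat_lit 204864) (nat_lit 27) .nil)))) .nil)))) (.nd (nat_lit 5) (.nd (nat_lit 6) 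
(.lf (nat_lit 254101) (.g (nat_lit 3367) (.e (nat_lit 163963) (nat_lit 25) (.e (nat_lit 532513) (nat_lit 3) (.e (nat_lit 114714) (nat_lit 22) (.e (nat_lit 90172) (nat_lit 14) (.e (nat_lit 180243) (nat_lit 5) (.e (nat_lit 532484) (nat_lit 0) (.e (nat_lit 2272) (nat_lit 149) (.e (nat_lit 761899) (nat_lit 15) .nil)))))))) (.g (nat_lit 6) .nil .nil))) 
(.lf (nat_lit 254165) (.g (nat_lit 2436) (.e (nat_lit 163965) (nat_lit 25) (.e (nat_lit 532501) (nat_lit 1) (.e (nat_lit 57927) (nat_lit 282) (.e (nat_lit 163868) (nat_lit 2) (.e (nat_lit 196670) (nat_lit 14) .nil))))) .nil))) (.nd (nat_lit 6) 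
(.lf (nat_lit 254133) (.g (nat_lit 2387) (.e (nat_lit 163964) (nat_lit 25) (.e (nat_lit 532503) (nat_lit 1) (.e (nat_lit 57931) (nat_lit 282) (.e (nat_lit 163874) (nat_lit 3) (.e (nat_lit 204863) (nat_lit 27) .nil))))) .nil)) 
(.lf (nat_lit 254197) (.g (nat_lit 1957) (.e (nat_lit 163973) (nat_lit 30) (.e (nat_lit 573482) (nat_lit 13) (.e (nat_lit 65619) (nat_lit 10) (.e (nat_lit 344117) (nat_lit 21) .nil)))) .nil))))) (.nd (nat_lit 4) (.nd (nat_lit 5) (.nd (nat_lit 6) 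
(.lf (nat_lit 254093) (.g (nat_lit 2321) (.e (nat_lit 163963) (nat_lit 25) (.e (nat_lit 532501) (nat_lit 1) (.e (nat_lit 57926) (nat_lit 282) (.e (nat_lit 163871) (nat_lit 2) (.e (nat_lit 196670) (nat_lit 14) .nil))))) .nil)) 
(.lf (nat_lit 254157) (.g (nat_lit 3914) (.e (nat_lit 163965) (nat_lit 25) (.e (nat_lit 532499) (nat_lit 1) (.e (nat_lit 57847) (nat_lit 252) (.e (nat_lit 57377) (nat_lit 3) (.e (nat_lit 98313) (nat_lit 9) (.e (nat_lit 336027) (nat_lit 3) (.e (nat_lit 98339) (nat_lit 19) (.e (nat_lit 213035) (nat_lit 12) .nil)))))))) (.g (nat_lit 5) .nil .nil)))) (.nd (nat_lit 6) 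
(.lf (nat_lit 254125) (.g (nat_lit 2794) (.e (nat_lit 163964) (nat_lit 25) (.e (nat_lit 532501) (nat_lit 1) (.e (nat_lit 57926) (nat_lit 282) (.e (nat_lit 163868) (nat_lit 2) (.e (nat_lit 196670) (nat_lit 14) .nil))))) .nil)) 
(.lf (nat_lit 254189) (.g (nat_lit 1516) (.e (nat_lit 163973) (nat_lit 30) (.e (nat_lit 573479) (nat_lit 13) (.e (nat_lit 65604) (nat_lit 9) (.e (nat_lit 336028) (nat_lit 3) (.e (nat_lit 98367) (nat_lit 27) .nil))))) .nil)))) (.nd (nat_lit 5) (.nd (nat_lit 6) 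
(.lf (nat_lit 254109) (.g (nat_lit 3670) (.e (nat_lit 163963) (nat_lit 25) (.e (nat_lit 532513) (nat_lit 3) (.e (nat_lit 114714) (nat_lit 22) (.e (nat_lit 90174) (nat_lit 14) (.e (nat_lit 180243) (nat_lit 5) (.e (nat_lit 532484) (nat_lit 0) (.e (nat_lit 2272) (nat_lit 149) (.e (nat_lit 761899) (nat_lit 15) .nil)))))))) (.g (nat_lit 6) .nil .nil))) 
(.lf (nat_lit 254173) (.g (nat_lit 2517) (.e (nat_lit 171776) (nat_lit 28) (.e (nat_lit 557108) (nat_lit 15) (.e (nat_lit 188452) (nat_lit 23) (.e (nat_lit 204863) (nat_lit 27) .nil)))) .nil))) (.nd (nat_lit 6) 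
(.lf (nat_lit 254141) (.g (nat_lit 1840) (.e (nat_lit 163964) (nat_lit 25) (.e (nat_lit 532528) (nat_lit 9) (.e (nat_lit 336019) (nat_lit 3) (.e (nat_lit 98342) (nat_lit 20) (.e (nat_lit 221210) (nat_lit 22) .nil))))) .nil)) 
(.lf (nat_lit 254205) (.g (nat_lit 1130) (.e (nat_lit 163973) (nat_lit 30) (.e (nat_lit 573493) (nat_lit 15) (.e (nat_lit 81954) (nat_lit 23) .nil))) .nil))))))) (.nd (nat_lit 2) (.nd (nat_lit 3) (.nd (nat_lit 4) (.nd (nat_lit 5) (.nd (nat_lit 6) 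
(.lf (nat_lit 254083) (.g (nat_lit 1898) (.e (nat_lit 163963) (nat_lit 25) (.e (nat_lit 532499) (nat_lit 1) (.e (nat_lit 57927) (nat_lit 282) (.e (nat_lit 163866) (nat_lit 2) (.e (nat_lit 196670) (nat_lit 14) .nil))))) .nil)) 
(.lf (nat_lit 254147) (.g (nat_lit 2375) (.e (nat_lit 163964) (nat_lit 25) (.e (nat_lit 532543) (nat_lit 10) (.e (nat_lit 344129) (nat_lit 26) (.e (nat_lit 557104) (nat_lit 14) (.e (nat_lit 180252) (nat_lit 10) .nil))))) .nil))) (.nd (nat_lit 6) 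
(.lf (nat_lit 254115) (.g (nat_lit 2725) (.e (nat_lit 163964) (nat_lit 25) (.e (nat_lit 532499) (nat_lit 1) (.e (nat_lit 57847) (nat_lit 252) (.e (nat_lit 57377) (nat_lit 3) (.e (nat_lit 98313) (nat_lit 9) (.e (nat_lit 336027) (nat_lit 3) (.e (nat_lit 98337) (nat_lit 19) (.e (nat_lit 213033) (nat_lit 12) .nil)))))))) (.g (nat_lit 5) .nil .nil))) 
(.lf (nat_lit 254179) (.g (nat_lit 3608) (.e (nat_lit 171776) (nat_lit 28) (.e (nat_lit 557109) (nat_lit 15) (.e (nat_lit 188452) (nat_lit 23) (.e (nat_lit 204863) (nat_lit 27) (.e (nat_lit 344159) (nat_lit 37) .nil))))) .nil)))) (.nd (nat_lit 5) (.nd (nat_lit 6) 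
(.lf (nat_lit 254099) (.g (nat_lit 1583) (.e (nat_lit 163963) (nat_lit 25) (.e (nat_lit 532513) (nat_lit 3) (.e (nat_lit 114714) (nat_lit 22) (.e (nat_lit 90168) (nat_lit 13) (.e (nat_lit 172067) (nat_lit 3) .nil))))) .nil)) 
(.lf (nat_lit 254163) (.g (nat_lit 2620) (.e (nat_lit 163965) (nat_lit 25) (.e (nat_lit 532499) (nat_lit 1) (.e (nat_lit 57927) (nat_lit 282) (.e (nat_lit 163873) (nat_lit 3) (.e (nat_lit 204862) (nat_lit 27) .nil))))) .nil))) (.nd (nat_lit 6) 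
(.lf (nat_lit 254131) (.g (nat_lit 2728) (.e (nat_lit 163964) (nat_lit 25) (.e (nat_lit 532501) (nat_lit 1) (.e (nat_lit 57927) (nat_lit 282) (.e (nat_lit 163874) (nat_lit 3) (.e (nat_lit 204862) (nat_lit 27) .nil))))) .nil)) 
(.lf (nat_lit 254195) (.g (nat_lit 2529) (.e (nat_lit 163973) (nat_lit 30) (.e (nat_lit 573481) (nat_lit 13) (.e (nat_lit 65619) (nat_lit 10) (.e (nat_lit 344117) (nat_lit 21) (.e (nat_lit 516160) (nat_lit 10) .nil))))) .nil))))) (.nd (nat_lit 4) (.nd (nat_lit 5) (.nd (nat_lit 6) 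
(.lf (nat_lit 254091) (.g (nat_lit 2829) (.e (nat_lit 163963) (nat_lit 25) (.e (nat_lit 532501) (nat_lit 1) (.e (nat_lit 57926) (nat_lit 282) (.e (nat_lit 163868) (nat_lit 2) (.e (nat_lit 196670) (nat_lit 14) .nil))))) .nil)) 
(.lf (nat_lit 254155) (.g (nat_lit 2860) (.e (nat_lit 163965) (nat_lit 25) (.e (nat_lit 532499) (nat_lit 1) (.e (nat_lit 57847) (nat_lit 252) (.e (nat_lit 57372) (nat_lit 2) .nil)))) .nil))) (.nd (nat_lit 6) 
(.lf (nat_lit 254123) (.g (nat_lit 2867) (.e (nat_lit 163964) (nat_lit 25) (.e (nat_lit 532499) (nat_lit 1) (.e (nat_lit 57931) (nat_lit 282) (.e (nat_lit 163869) (nat_lit 2) (.e (nat_lit 196670) (nat_lit 14) .nil))))) .nil)) 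
(.lf (nat_lit 254187) (.g (nat_lit 2068) (.e (nat_lit 163973) (nat_lit 30) (.e (nat_lit 573451) (nat_lit 9) (.e (nat_lit 1595) (nat_lit 111) (.e (nat_lit 360467) (nat_lit 3) (.e (nat_lit 516160) (nat_lit 10) .nil))))) .nil)))) (.nd (nat_lit 5) (.nd (nat_lit 6) 
(.lf (nat_lit 254107) (.g (nat_lit 1967) (.e (nat_lit 163963) (nat_lit 25) (.e (nat_lit 532513) (nat_lit 3) (.e (nat_lit 114714) (nat_lit 22) (.e (nat_lit 90172) (nat_lit 14) (.e (nat_lit 180244) (nat_lit 5) (.e (nat_lit 532484) (nat_lit 0) (.e (nat_lit 7936) (nat_lit 149) (.e (nat_lit 761898) (nat_lit 15) .nil)))))))) (.g (nat_lit 4) .nil .nil))) 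
(.lf (nat_lit 254171) (.g (nat_lit 605) (.e (nat_lit 171776) (nat_lit 28) (.e (nat_lit 557107) (nat_lit 15) (.e (nat_lit 188450) (nat_lit 23) .nil))) .nil))) (.nd (nat_lit 6) 
(.lf (nat_lit 254139) (.g (nat_lit 1722) (.e (nat_lit 163964) (nat_lit 25) (.e (nat_lit 532513) (nat_lit 3) (.e (nat_lit 114719) (nat_lit 23) (.e (nat_lit 98383) (nat_lit 32) .nil)))) .nil)) 
(.lf (nat_lit 254203) (.g (nat_lit 3826) (.e (nat_lit 163973) (nat_lit 30) (.e (nat_lit 573492) (nat_lit 15) (.e (nat_lit 81956) (nat_lit 23) (.e (nat_lit 98385) (nat_lit 32) .nil)))) .nil)))))) (.nd (nat_lit 3) (.nd (nat_lit 4) (.nd (nat_lit 5) (.nd (nat_lit 6) 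
(.lf (nat_lit 254087) (.g (nat_lit 2377) (.e (nat_lit 163963) (nat_lit 25) (.e (nat_lit 532499) (nat_lit 1) (.e (nat_lit 57927) (nat_lit 282) (.e (nat_lit 163874) (nat_lit 3) (.e (nat_lit 204862) (nat_lit 27) .nil))))) .nil)) 
(.lf (nat_lit 254151) (.g (nat_lit 4011) (.e (nat_lit 163964) (nat_lit 25) (.e (nat_lit 532544) (nat_lit 10) (.e (nat_lit 344133) (nat_lit 26) (.e (nat_lit 557105) (nat_lit 14) (.e (nat_lit 180252) (nat_lit 10) (.e (nat_lit 573475) (nat_lit 12) (.e (nat_lit 57506) (nat_lit 39) (.e (nat_lit 647181) (nat_lit 3) .nil)))))))) (.g (nat_lit 5) .nil .nil)))) (.nd (nat_lit 6) 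
(.lf (nat_lit 254119) (.g (nat_lit 1841) (.e (nat_lit 163964) (nat_lit 25) (.e (nat_lit 532499) (nat_lit 1) (.e (nat_lit 57927) (nat_lit 282) (.e (nat_lit 163866) (nat_lit 2) (.e (nat_lit 196670) (nat_lit 14) .nil))))) .nil)) 
(.lf (nat_lit 254183) (.g (nat_lit 4045) (.e (nat_lit 163970) (nat_lit 29) (.e (nat_lit 565267) (nat_lit 4) (.e (nat_lit 65610) (nat_lit 10) (.e (nat_lit 344117) (nat_lit 21) (.e (nat_lit 516159) (nat_lit 10) (.e (nat_lit 434275) (nat_lit 39) (.e (nat_lit 663585) (nat_lit 12) .nil))))))) (.g (nat_lit 7) .nil .nil))))) (.nd (nat_lit 5) (.nd (nat_lit 6) 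
(.lf (nat_lit 254103) (.g (nat_lit 3918) (.e (nat_lit 163963) (nat_lit 25) (.e (nat_lit 532513) (nat_lit 3) (.e (nat_lit 114714) (nat_lit 22) (.e (nat_lit 90172) (nat_lit 14) (.e (nat_lit 180244) (nat_lit 5) (.e (nat_lit 532481) (nat_lit 0) (.e (nat_lit 2271) (nat_lit 149) (.e (nat_lit 761899) (nat_lit 15) .nil)))))))) (.g (nat_lit 6) .nil .nil))) 
(.lf (nat_lit 254167) (.g (nat_lit 2980) (.e (nat_lit 163965) (nat_lit 25) (.e (nat_lit 532501) (nat_lit 1) (.e (nat_lit 57931) (nat_lit 282) (.e (nat_lit 163869) (nat_lit 2) (.e (nat_lit 196670) (nat_lit 14) .nil))))) .nil))) (.nd (nat_lit 6) 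
(.lf (nat_lit 254135) (.g (nat_lit 2009) (.e (nat_lit 163964) (nat_lit 25) (.e (nat_lit 532504) (nat_lit 1) (.e (nat_lit 57931) (nat_lit 282) (.e (nat_lit 163874) (nat_lit 3) .nil)))) .nil)) 
(.lf (nat_lit 254199) (.g (nat_lit 1353) (.e (nat_lit 163973) (nat_lit 30) (.e (nat_lit 573485) (nat_lit 13) (.e (nat_lit 65619) (nat_lit 10) (.e (nat_lit 344117) (nat_lit 21) .nil)))) .nil))))) (.nd (nat_lit 4) (.nd (nat_lit 5) (.nd (nat_lit 6) 
(.lf (nat_lit 254095) (.g (nat_lit 2980) (.e (nat_lit 163963) (nat_lit 25) (.e (nat_lit 532501) (nat_lit 1) (.e (nat_lit 57931) (nat_lit 282) (.e (nat_lit 163869) (nat_lit 2) (.e (nat_lit 196670) (nat_lit 14) .nil))))) .nil)) 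
(.lf (nat_lit 254159) (.g (nat_lit 2125) (.e (nat_lit 163965) (nat_lit 25) (.e (nat_lit 532499) (nat_lit 1) (.e (nat_lit 57926) (nat_lit 282) (.e (nat_lit 163869) (nat_lit 2) (.e (nat_lit 196670) (nat_lit 14) .nil))))) .nil))) (.nd (nat_lit 6) 
(.lf (nat_lit 254127) (.g (nat_lit 2872) (.e (nat_lit 163964) (nat_lit 25) (.e (nat_lit 532501) (nat_lit 1) (.e (nat_lit 57926) (nat_lit 282) (.e (nat_lit 163874) (nat_lit 3) (.e (nat_lit 204862) (nat_lit 27) .nil))))) .nil)) 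
(.lf (nat_lit 254191) (.g (nat_lit 1810) (.e (nat_lit 163973) (nat_lit 30) (.e (nat_lit 573481) (nat_lit 13) (.e (nat_lit 65604) (nat_lit 9) (.e (nat_lit 336013) (nat_lit 2) (.e (nat_lit 90170) (nat_lit 13) .nil))))) .nil)))) (.nd (nat_lit 5) (.nd (nat_lit 6) 
(.lf (nat_lit 254111) (.g (nat_lit 2421) (.e (nat_lit 163963) (nat_lit 25) (.e (nat_lit 532544) (nat_lit 10) (.e (nat_lit 344133) (nat_lit 26) (.e (nat_lit 557103) (nat_lit 14) (.e (nat_lit 180243) (nat_lit 5) (.e (nat_lit 532501) (nat_lit 1) (.e (nat_lit 57703) (nat_lit 164) (.e (nat_lit 2611) (nat_lit 163) .nil)))))))) (.g (nat_lit 4) .nil .nil))) 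
(.lf (nat_lit 254175) (.g (nat_lit 3919) (.e (nat_lit 171776) (nat_lit 28) (.e (nat_lit 557109) (nat_lit 15) (.e (nat_lit 188450) (nat_lit 23) (.e (nat_lit 204863) (nat_lit 27) (.e (nat_lit 344160) (nat_lit 37) .nil))))) .nil))) (.nd (nat_lit 6) 
(.lf (nat_lit 254143) (.g (nat_lit 2822) (.e (nat_lit 163964) (nat_lit 25) (.e (nat_lit 532534) (nat_lit 9) (.e (nat_lit 336019) (nat_lit 3) (.e (nat_lit 98342) (nat_lit 20) (.e (nat_lit 221210) (nat_lit 22) .nil))))) .nil)) 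
(.lf (nat_lit 254207) (.g (nat_lit 2209) (.e (nat_lit 163974) (nat_lit 30) (.e (nat_lit 573455) (nat_lit 9) (.e (nat_lit 1598) (nat_lit 111) (.e (nat_lit 360466) (nat_lit 3) (.e (nat_lit 516146) (nat_lit 9) (.e (nat_lit 426444) (nat_lit 19) (.e (nat_lit 114432) (nat_lit 3) .nil))))))) (.g (nat_lit 6) .nil .nil))))))))))

noncomputable def tv3296 : DT := (.nd (nat_lit 0) (.nd (nat_lit 1) (.nd (nat_lit 2) (.nd (nat_lit 3) (.nd (nat_lit 4) (.nd (nat_lit 5) 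
(.lf (nat_lit 254208) (.g (nat_lit 1926) (.e (nat_lit 163974) (nat_lit 30) (.e (nat_lit 573482) (nat_lit 13) (.e (nat_lit 65604) (nat_lit 9) (.e (nat_lit 336013) (nat_lit 2) (.e (nat_lit 90170) (nat_lit 13) .nil))))) .nil)) 
(.lf (nat_lit 254240) (.g (nat_lit 3447) (.e (nat_lit 163975) (nat_lit 30) (.e (nat_lit 573449) (nat_lit 9) (.e (nat_lit 1615) (nat_lit 113) (.e (nat_lit 376865) (nat_lit 22) (.e (nat_lit 90185) (nat_lit 17) (.e (nat_lit 237582) (nat_lit 1) (.e (nat_lit 164345) (nat_lit 240) (.e (nat_lit 2600) (nat_lit 163) .nil)))))))) (.g (nat_lit 7) .nil .nil)))) (.nd (nat_lit 5) 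
(.lf (nat_lit 254224) (.g (nat_lit 1870) (.e (nat_lit 163975) (nat_lit 30) (.e (nat_lit 573449) (nat_lit 9) (.e (nat_lit 1615) (nat_lit 113) (.e (nat_lit 376862) (nat_lit 22) (.e (nat_lit 90185) (nat_lit 17) (.e (nat_lit 237582) (nat_lit 1) (.e (nat_lit 164345) (nat_lit 240) (.e (nat_lit 2599) (nat_lit 163) .nil)))))))) (.g (nat_lit 4) .nil .nil))) 
(.lf (nat_lit 254256) (.g (nat_lit 2729) (.e (nat_lit 163975) (nat_lit 30) (.e (nat_lit 573450) (nat_lit 9) (.e (nat_lit 1615) (nat_lit 113) (.e (nat_lit 376862) (nat_lit 22) (.e (nat_lit 90185) (nat_lit 17) (.e (nat_lit 237582) (nat_lit 1) (.e (nat_lit 164345) (nat_lit 240) (.e (nat_lit 2601) (nat_lit 163) .nil)))))))) (.g (nat_lit 5) .nil .nil))))) (.nd (nat_lit 4) (.nd (nat_lit 5) 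
(.lf (nat_lit 254216) (.g (nat_lit 4038) (.e (nat_lit 163974) (nat_lit 30) (.e (nat_lit 573492) (nat_lit 15) (.e (nat_lit 81956) (nat_lit 23) (.e (nat_lit 98384) (nat_lit 32) .nil)))) .nil)) 
(.lf (nat_lit 254248) (.g (nat_lit 3450) (.e (nat_lit 163975) (nat_lit 30) (.e (nat_lit 573449) (nat_lit 9) (.e (nat_lit 1615) (nat_lit 113) (.e (nat_lit 376865) (nat_lit 22) (.e (nat_lit 90185) (nat_lit 17) (.e (nat_lit 237585) (nat_lit 1) (.e (nat_lit 164345) (nat_lit 240) (.e (nat_lit 2600) (nat_lit 163) .nil)))))))) (.g (nat_lit 7) .nil .nil)))) (.nd (nat_lit 5) 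
(.lf (nat_lit 254232) (.g (nat_lit 2341) (.e (nat_lit 163975) (nat_lit 30) (.e (nat_lit 573449) (nat_lit 9) (.e (nat_lit 1615) (nat_lit 113) (.e (nat_lit 376862) (nat_lit 22) (.e (nat_lit 90185) (nat_lit 17) (.e (nat_lit 237584) (nat_lit 1) (.e (nat_lit 164345) (nat_lit 240) (.e (nat_lit 2601) (nat_lit 163) .nil)))))))) (.g (nat_lit 5) .nil .nil))) 
(.lf (nat_lit 254264) (.g (nat_lit 2439) (.e (nat_lit 163975) (nat_lit 30) (.e (nat_lit 573450) (nat_lit 9) (.e (nat_lit 1615) (nat_lit 113) (.e (nat_lit 376862) (nat_lit 22) (.e (nat_lit 90185) (nat_lit 17) (.e (nat_lit 237584) (nat_lit 1) (.e (nat_lit 164348) (nat_lit 240) (.e (nat_lit 2599) (nat_lit 163) .nil)))))))) (.g (nat_lit 5) .nil .nil)))))) 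
(.nd (nat_lit 3) (.nd (nat_lit 4) (.nd (nat_lit 5) 
(.lf (nat_lit 254212) (.g (nat_lit 2200) (.e (nat_lit 163974) (nat_lit 30) (.e (nat_lit 573482) (nat_lit 13) (.e (nat_lit 65619) (nat_lit 10) (.e (nat_lit 344117) (nat_lit 21) (.e (nat_lit 516146) (nat_lit 9) .nil))))) .nil)) 
(.lf (nat_lit 254244) (.g (nat_lit 2742) (.e (nat_lit 163975) (nat_lit 30) (.e (nat_lit 573449) (nat_lit 9) (.e (nat_lit 1615) (nat_lit 113) (.e (nat_lit 376865) (nat_lit 22) (.e (nat_lit 90185) (nat_lit 17) (.e (nat_lit 237584) (nat_lit 1) (.e (nat_lit 164345) (nat_lit 240) (.e (nat_lit 2599) (nat_lit 163) .nil)))))))) (.g (nat_lit 5) .nil .nil)))) (.nd (nat_lit 5) 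
(.lf (nat_lit 254228) (.g (nat_lit 2562) (.e (nat_lit 163975) (nat_lit 30) (.e (nat_lit 573449) (nat_lit 9) (.e (nat_lit 1615) (nat_lit 113) (.e (nat_lit 376862) (nat_lit 22) (.e (nat_lit 90185) (nat_lit 17) (.e (nat_lit 237582) (nat_lit 1) (.e (nat_lit 164348) (nat_lit 240) (.e (nat_lit 2599) (nat_lit 163) .nil)))))))) (.g (nat_lit 5) .nil .nil))) 
(.lf (nat_lit 254260) (.g (nat_lit 2191) (.e (nat_lit 163975) (nat_lit 30) (.e (nat_lit 573450) (nat_lit 9) (.e (nat_lit 1615) (nat_lit 113) (.e (nat_lit 376862) (nat_lit 22) (.e (nat_lit 90185) (nat_lit 17) (.e (nat_lit 237584) (nat_lit 1) (.e (nat_lit 164345) (nat_lit 240) (.e (nat_lit 2599) (nat_lit 163) .nil)))))))) (.g (nat_lit 4) .nil .nil))))) (.nd (nat_lit 4) (.nd (nat_lit 5) 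
(.lf (nat_lit 254220) (.g (nat_lit 2223) (.e (nat_lit 163975) (nat_lit 30) (.e (nat_lit 573449) (nat_lit 9) (.e (nat_lit 1595) (nat_lit 111) (.e (nat_lit 360467) (nat_lit 3) (.e (nat_lit 516179) (nat_lit 15) .nil))))) .nil)) 
(.lf (nat_lit 254252) (.g (nat_lit 3719) (.e (nat_lit 163975) (nat_lit 30) (.e (nat_lit 573450) (nat_lit 9) (.e (nat_lit 1277) (nat_lit 94) (.e (nat_lit 114718) (nat_lit 23) (.e (nat_lit 98365) (nat_lit 26) (.e (nat_lit 426133) (nat_lit 3) (.e (nat_lit 204842) (nat_lit 22) (.e (nat_lit 147500) (nat_lit 12) .nil)))))))) (.g (nat_lit 6) .nil .nil)))) (.nd (nat_lit 5) 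
(.lf (nat_lit 254236) (.g (nat_lit 1927) (.e (nat_lit 163975) (nat_lit 30) (.e (nat_lit 573449) (nat_lit 9) (.e (nat_lit 1615) (nat_lit 113) (.e (nat_lit 376862) (nat_lit 22) (.e (nat_lit 90185) (nat_lit 17) (.e (nat_lit 237585) (nat_lit 1) (.e (nat_lit 164345) (nat_lit 240) (.e (nat_lit 2599) (nat_lit 163) .nil)))))))) (.g (nat_lit 4) .nil .nil))) 
(.lf (nat_lit 254268) (.g (nat_lit 1544) (.e (nat_lit 163975) (nat_lit 30) (.e (nat_lit 573450) (nat_lit 9) (.e (nat_lit 1615) (nat_lit 113) (.e (nat_lit 376865) (nat_lit 22) (.e (nat_lit 90172) (nat_lit 14) .nil))))) .nil)))))) (.nd (nat_lit 2) (.nd (nat_lit 3) (.nd (nat_lit 4) (.nd (nat_lit 5) 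
(.lf (nat_lit 254210) (.g (nat_lit 2156) (.e (nat_lit 163974) (nat_lit 30) (.e (nat_lit 573482) (nat_lit 13) (.e (nat_lit 65604) (nat_lit 9) (.e (nat_lit 336028) (nat_lit 3) (.e (nat_lit 98367) (nat_lit 27) .nil))))) .nil)) 
(.lf (nat_lit 254242) (.g (nat_lit 3598) (.e (nat_lit 163975) (nat_lit 30) (.e (nat_lit 573449) (nat_lit 9) (.e (nat_lit 1615) (nat_lit 113) (.e (nat_lit 376865) (nat_lit 22) (.e (nat_lit 90185) (nat_lit 17) (.e (nat_lit 237582) (nat_lit 1) (.e (nat_lit 164348) (nat_lit 240) (.e (nat_lit 2599) (nat_lit 163) .nil)))))))) (.g (nat_lit 7) .nil .nil)))) (.nd (nat_lit 5) 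
(.lf (nat_lit 254226) (.g (nat_lit 2431) (.e (nat_lit 163975) (nat_lit 30) (.e (nat_lit 573449) (nat_lit 9) (.e (nat_lit 1615) (nat_lit 113) (.e (nat_lit 376862) (nat_lit 22) (.e (nat_lit 90185) (nat_lit 17) (.e (nat_lit 237582) (nat_lit 1) (.e (nat_lit 164345) (nat_lit 240) (.e (nat_lit 2601) (nat_lit 163) .nil)))))))) (.g (nat_lit 5) .nil .nil))) 
(.lf (nat_lit 254258) (.g (nat_lit 2819) (.e (nat_lit 163975) (nat_lit 30) (.e (nat_lit 573450) (nat_lit 9) (.e (nat_lit 1615) (nat_lit 113) (.e (nat_lit 376862) (nat_lit 22) (.e (nat_lit 90185) (nat_lit 17) (.e (nat_lit 237582) (nat_lit 1) (.e (nat_lit 164347) (nat_lit 240) (.e (nat_lit 2601) (nat_lit 163) .nil)))))))) (.g (nat_lit 5) .nil .nil))))) (.nd (nat_lit 4) (.nd (nat_lit 5) 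
(.lf (nat_lit 254218) (.g (nat_lit 681) (.e (nat_lit 163975) (nat_lit 30) (.e (nat_lit 573449) (nat_lit 9) (.e (nat_lit 1277) (nat_lit 94) (.e (nat_lit 114718) (nat_lit 23) .nil)))) .nil)) 
(.lf (nat_lit 254250) (.g (nat_lit 2263) (.e (nat_lit 163975) (nat_lit 30) (.e (nat_lit 573449) (nat_lit 9) (.e (nat_lit 1615) (nat_lit 113) (.e (nat_lit 376869) (nat_lit 23) (.e (nat_lit 98384) (nat_lit 32) (.e (nat_lit 475201) (nat_lit 40) (.e (nat_lit 712448) (nat_lit 3) .nil))))))) (.g (nat_lit 6) .nil .nil)))) (.nd (nat_lit 5) 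
(.lf (nat_lit 254234) (.g (nat_lit 2023) (.e (nat_lit 163975) (nat_lit 30) (.e (nat_lit 573449) (nat_lit 9) (.e (nat_lit 1615) (nat_lit 113) (.e (nat_lit 376862) (nat_lit 22) (.e (nat_lit 90185) (nat_lit 17) (.e (nat_lit 237584) (nat_lit 1) (.e (nat_lit 164348) (nat_lit 240) (.e (nat_lit 2599) (nat_lit 163) .nil)))))))) (.g (nat_lit 4) .nil .nil))) 
(.lf (nat_lit 254266) (.g (nat_lit 2777) (.e (nat_lit 163975) (nat_lit 30) (.e (nat_lit 573450) (nat_lit 9) (.e (nat_lit 1615) (nat_lit 113) (.e (nat_lit 376862) (nat_lit 22) (.e (nat_lit 90185) (nat_lit 17) (.e (nat_lit 237585) (nat_lit 1) (.e (nat_lit 164345) (nat_lit 240) (.e (nat_lit 2600) (nat_lit 163) .nil)))))))) (.g (nat_lit 5) .nil .nil)))))) 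
(.nd (nat_lit 3) (.nd (nat_lit 4) (.nd (nat_lit 5) 
(.lf (nat_lit 254214) (.g (nat_lit 2375) (.e (nat_lit 163974) (nat_lit 30) (.e (nat_lit 573482) (nat_lit 13) (.e (nat_lit 65619) (nat_lit 10) (.e (nat_lit 344117) (nat_lit 21) (.e (nat_lit 516170) (nat_lit 13) .nil))))) .nil)) 
(.lf (nat_lit 254246) (.g (nat_lit 1739) (.e (nat_lit 163975) (nat_lit 30) (.e (nat_lit 573449) (nat_lit 9) (.e (nat_lit 1615) (nat_lit 113) (.e (nat_lit 376865) (nat_lit 22) (.e (nat_lit 90185) (nat_lit 17) (.e (nat_lit 237584) (nat_lit 1) (.e (nat_lit 164348) (nat_lit 240) (.e (nat_lit 2600) (nat_lit 163) .nil)))))))) (.g (nat_lit 4) .nil .nil)))) (.nd (nat_lit 5) 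
(.lf (nat_lit 254230) (.g (nat_lit 1775) (.e (nat_lit 163975) (nat_lit 30) (.e (nat_lit 573449) (nat_lit 9) (.e (nat_lit 1615) (nat_lit 113) (.e (nat_lit 376862) (nat_lit 22) (.e (nat_lit 90185) (nat_lit 17) (.e (nat_lit 237584) (nat_lit 1) (.e (nat_lit 164345) (nat_lit 240) (.e (nat_lit 2599) (nat_lit 163) .nil)))))))) (.g (nat_lit 4) .nil .nil))) 
(.lf (nat_lit 254262) (.g (nat_lit 2639) (.e (nat_lit 163975) (nat_lit 30) (.e (nat_lit 573450) (nat_lit 9) (.e (nat_lit 1615) (nat_lit 113) (.e (nat_lit 376862) (nat_lit 22) (.e (nat_lit 90185) (nat_lit 17) (.e (nat_lit 237584) (nat_lit 1) (.e (nat_lit 164345) (nat_lit 240) (.e (nat_lit 2601) (nat_lit 163) .nil)))))))) (.g (nat_lit 5) .nil .nil))))) (.nd (nat_lit 4) (.nd (nat_lit 5) 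
(.lf (nat_lit 254222) (.g (nat_lit 2133) (.e (nat_lit 163975) (nat_lit 30) (.e (nat_lit 573449) (nat_lit 9) (.e (nat_lit 1598) (nat_lit 111) (.e (nat_lit 360466) (nat_lit 3) (.e (nat_lit 516146) (nat_lit 9) (.e (nat_lit 426444) (nat_lit 19) (.e (nat_lit 114432) (nat_lit 3) .nil))))))) (.g (nat_lit 4) .nil .nil))) 
(.lf (nat_lit 254254) (.g (nat_lit 2340) (.e (nat_lit 163975) (nat_lit 30) (.e (nat_lit 573450) (nat_lit 9) (.e (nat_lit 1615) (nat_lit 113) (.e (nat_lit 376862) (nat_lit 22) (.e (nat_lit 90172) (nat_lit 14) (.e (nat_lit 180229) (nat_lit 0) (.e (nat_lit 5548) (nat_lit 306) (.e (nat_lit 2601) (nat_lit 163) .nil)))))))) (.g (nat_lit 4) .nil .nil)))) (.nd (nat_lit 5) 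
(.lf (nat_lit 254238) (.g (nat_lit 2501) (.e (nat_lit 163975) (nat_lit 30) (.e (nat_lit 573449) (nat_lit 9) (.e (nat_lit 1615) (nat_lit 113) (.e (nat_lit 376862) (nat_lit 22) (.e (nat_lit 90185) (nat_lit 17) (.e (nat_lit 237585) (nat_lit 1) (.e (nat_lit 164345) (nat_lit 240) (.e (nat_lit 2601) (nat_lit 163) .nil)))))))) (.g (nat_lit 5) .nil .nil))) 
(.lf (nat_lit 254270) (.g (nat_lit 2856) (.e (nat_lit 163975) (nat_lit 30) (.e (nat_lit 573450) (nat_lit 9) (.e (nat_lit 1615) (nat_lit 113) (.e (nat_lit 376865) (nat_lit 22) (.e (nat_lit 90172) (nat_lit 14) (.e (nat_lit 180229) (nat_lit 0) (.e (nat_lit 5548) (nat_lit 306) (.e (nat_lit 2601) (nat_lit 163) .nil)))))))) (.g (nat_lit 5) .nil .nil)))))))) 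
(.nd (nat_lit 1) (.nd (nat_lit 2) (.nd (nat_lit 3) (.nd (nat_lit 4) (.nd (nat_lit 5) 
(.lf (nat_lit 254209) (.g (nat_lit 2164) (.e (nat_lit 163974) (nat_lit 30) (.e (nat_lit 573482) (nat_lit 13) (.e (nat_lit 65604) (nat_lit 9) (.e (nat_lit 336028) (nat_lit 3) (.e (nat_lit 98366) (nat_lit 27) .nil))))) .nil)) 
(.lf (nat_lit 254241) (.g (nat_lit 3599) (.e (nat_lit 163975) (nat_lit 30) (.e (nat_lit 573449) (nat_lit 9) (.e (nat_lit 1615) (nat_lit 113) (.e (nat_lit 376865) (nat_lit 22) (.e (nat_lit 90185) (nat_lit 17) (.e (nat_lit 237582) (nat_lit 1) (.e (nat_lit 164347) (nat_lit 240) (.e (nat_lit 2601) (nat_lit 163) .nil)))))))) (.g (nat_lit 7) .nil .nil)))) (.nd (nat_lit 5) 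
(.lf (nat_lit 254225) (.g (nat_lit 2419) (.e (nat_lit 163975) (nat_lit 30) (.e (nat_lit 573449) (nat_lit 9) (.e (nat_lit 1615) (nat_lit 113) (.e (nat_lit 376862) (nat_lit 22) (.e (nat_lit 90185) (nat_lit 17) (.e (nat_lit 237582) (nat_lit 1) (.e (nat_lit 164345) (nat_lit 240) (.e (nat_lit 2600) (nat_lit 163) .nil)))))))) (.g (nat_lit 5) .nil .nil))) 
(.lf (nat_lit 254257) (.g (nat_lit 2568) (.e (nat_lit 163975) (nat_lit 30) (.e (nat_lit 573450) (nat_lit 9) (.e (nat_lit 1615) (nat_lit 113) (.e (nat_lit 376862) (nat_lit 22) (.e (nat_lit 90185) (nat_lit 17) (.e (nat_lit 237582) (nat_lit 1) (.e (nat_lit 164347) (nat_lit 240) (.e (nat_lit 2599) (nat_lit 163) .nil)))))))) (.g (nat_lit 5) .nil .nil))))) (.nd (nat_lit 4) (.nd (nat_lit 5) 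
(.lf (nat_lit 254217) (.g (nat_lit 4439) (.e (nat_lit 163974) (nat_lit 30) (.e (nat_lit 573493) (nat_lit 15) (.e (nat_lit 81956) (nat_lit 23) (.e (nat_lit 98384) (nat_lit 32) .nil)))) .nil)) 
(.lf (nat_lit 254249) (.g (nat_lit 3501) (.e (nat_lit 163975) (nat_lit 30) (.e (nat_lit 573449) (nat_lit 9) (.e (nat_lit 1615) (nat_lit 113) (.e (nat_lit 376865) (nat_lit 22) (.e (nat_lit 90185) (nat_lit 17) (.e (nat_lit 237585) (nat_lit 1) (.e (nat_lit 164345) (nat_lit 240) (.e (nat_lit 2601) (nat_lit 163) .nil)))))))) (.g (nat_lit 7) .nil .nil)))) (.nd (nat_lit 5) 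
(.lf (nat_lit 254233) (.g (nat_lit 2674) (.e (nat_lit 163975) (nat_lit 30) (.e (nat_lit 573449) (nat_lit 9) (.e (nat_lit 1615) (nat_lit 113) (.e (nat_lit 376862) (nat_lit 22) (.e (nat_lit 90185) (nat_lit 17) (.e (nat_lit 237584) (nat_lit 1) (.e (nat_lit 164347) (nat_lit 240) (.e (nat_lit 2601) (nat_lit 163) .nil)))))))) (.g (nat_lit 5) .nil .nil))) 
(.lf (nat_lit 254265) (.g (nat_lit 2658) (.e (nat_lit 163975) (nat_lit 30) (.e (nat_lit 573450) (nat_lit 9) (.e (nat_lit 1615) (nat_lit 113) (.e (nat_lit 376862) (nat_lit 22) (.e (nat_lit 90185) (nat_lit 17) (.e (nat_lit 237584) (nat_lit 1) (.e (nat_lit 164348) (nat_lit 240) (.e (nat_lit 2601) (nat_lit 163) .nil)))))))) (.g (nat_lit 5) .nil .nil)))))) 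
(.nd (nat_lit 3) (.nd (nat_lit 4) (.nd (nat_lit 5) 
(.lf (nat_lit 254213) (.g (nat_lit 2143) (.e (nat_lit 163974) (nat_lit 30) (.e (nat_lit 573482) (nat_lit 13) (.e (nat_lit 65619) (nat_lit 10) (.e (nat_lit 344117) (nat_lit 21) (.e (nat_lit 516151) (nat_lit 9) .nil))))) .nil)) 
(.lf (nat_lit 254245) (.g (nat_lit 3264) (.e (nat_lit 163975) (nat_lit 30) (.e (nat_lit 573449) (nat_lit 9) (.e (nat_lit 1615) (nat_lit 113) (.e (nat_lit 376865) (nat_lit 22) (.e (nat_lit 90185) (nat_lit 17) (.e (nat_lit 237584) (nat_lit 1) (.e (nat_lit 164345) (nat_lit 240) (.e (nat_lit 2600) (nat_lit 163) .nil)))))))) (.g (nat_lit 7) .nil .nil)))) (.nd (nat_lit 5) 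
(.lf (nat_lit 254229) (.g (nat_lit 2845) (.e (nat_lit 163975) (nat_lit 30) (.e (nat_lit 573449) (nat_lit 9) (.e (nat_lit 1615) (nat_lit 113) (.e (nat_lit 376862) (nat_lit 22) (.e (nat_lit 90185) (nat_lit 17) (.e (nat_lit 237582) (nat_lit 1) (.e (nat_lit 164348) (nat_lit 240) (.e (nat_lit 2601) (nat_lit 163) .nil)))))))) (.g (nat_lit 5) .nil .nil))) 
(.lf (nat_lit 254261) (.g (nat_lit 2624) (.e (nat_lit 163975) (nat_lit 30) (.e (nat_lit 573450) (nat_lit 9) (.e (nat_lit 1615) (nat_lit 113) (.e (nat_lit 376862) (nat_lit 22) (.e (nat_lit 90185) (nat_lit 17) (.e (nat_lit 237584) (nat_lit 1) (.e (nat_lit 164345) (nat_lit 240) (.e (nat_lit 2600) (nat_lit 163) .nil)))))))) (.g (nat_lit 5) .nil .nil))))) (.nd (nat_lit 4) (.nd (nat_lit 5) 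
(.lf (nat_lit 254221) (.g (nat_lit 476) (.e (nat_lit 163975) (nat_lit 30) (.e (nat_lit 573449) (nat_lit 9) (.e (nat_lit 1598) (nat_lit 111) .nil))) .nil)) 
(.lf (nat_lit 254253) (.g (nat_lit 3888) (.e (nat_lit 163975) (nat_lit 30) (.e (nat_lit 573450) (nat_lit 9) (.e (nat_lit 1277) (nat_lit 94) (.e (nat_lit 114719) (nat_lit 23) (.e (nat_lit 98365) (nat_lit 26) (.e (nat_lit 426133) (nat_lit 3) (.e (nat_lit 204842) (nat_lit 22) (.e (nat_lit 147500) (nat_lit 12) .nil)))))))) (.g (nat_lit 6) .nil .nil)))) (.nd (nat_lit 5) 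
(.lf (nat_lit 254237) (.g (nat_lit 2450) (.e (nat_lit 163975) (nat_lit 30) (.e (nat_lit 573449) (nat_lit 9) (.e (nat_lit 1615) (nat_lit 113) (.e (nat_lit 376862) (nat_lit 22) (.e (nat_lit 90185) (nat_lit 17) (.e (nat_lit 237585) (nat_lit 1) (.e (nat_lit 164345) (nat_lit 240) (.e (nat_lit 2600) (nat_lit 163) .nil)))))))) (.g (nat_lit 5) .nil .nil))) 
(.lf (nat_lit 254269) (.g (nat_lit 2280) (.e (nat_lit 163975) (nat_lit 30) (.e (nat_lit 573450) (nat_lit 9) (.e (nat_lit 1615) (nat_lit 113) (.e (nat_lit 376865) (nat_lit 22) (.e (nat_lit 90172) (nat_lit 14) (.e (nat_lit 180229) (nat_lit 0) (.e (nat_lit 5546) (nat_lit 306) (.e (nat_lit 2600) (nat_lit 163) .nil)))))))) (.g (nat_lit 4) .nil .nil))))))) 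
(.nd (nat_lit 2) (.nd (nat_lit 3) (.nd (nat_lit 4) (.nd (nat_lit 5) 
(.lf (nat_lit 254211) (.g (nat_lit 1344) (.e (nat_lit 163974) (nat_lit 30) (.e (nat_lit 573482) (nat_lit 13) (.e (nat_lit 65619) (nat_lit 10) (.e (nat_lit 344117) (nat_lit 21) .nil)))) .nil)) 
(.lf (nat_lit 254243) (.g (nat_lit 3881) (.e (nat_lit 163975) (nat_lit 30) (.e (nat_lit 573449) (nat_lit 9) (.e (nat_lit 1615) (nat_lit 113) (.e (nat_lit 376865) (nat_lit 22) (.e (nat_lit 90185) (nat_lit 17) (.e (nat_lit 237582) (nat_lit 1) (.e (nat_lit 164348) (nat_lit 240) (.e (nat_lit 2601) (nat_lit 163) .nil)))))))) (.g (nat_lit 7) .nil .nil)))) (.nd (nat_lit 5) 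
(.lf (nat_lit 254227) (.g (nat_lit 2570) (.e (nat_lit 163975) (nat_lit 30) (.e (nat_lit 573449) (nat_lit 9) (.e (nat_lit 1615) (nat_lit 113) (.e (nat_lit 376862) (nat_lit 22) (.e (nat_lit 90185) (nat_lit 17) (.e (nat_lit 237582) (nat_lit 1) (.e (nat_lit 164347) (nat_lit 240) (.e (nat_lit 2601) (nat_lit 163) .nil)))))))) (.g (nat_lit 5) .nil .nil))) 
(.lf (nat_lit 254259) (.g (nat_lit 2978) (.e (nat_lit 163975) (nat_lit 30) (.e (nat_lit 573450) (nat_lit 9) (.e (nat_lit 1615) (nat_lit 113) (.e (nat_lit 376862) (nat_lit 22) (.e (nat_lit 90185) (nat_lit 17) (.e (nat_lit 237582) (nat_lit 1) (.e (nat_lit 164348) (nat_lit 240) (.e (nat_lit 2599) (nat_lit 163) .nil)))))))) (.g (nat_lit 5) .nil .nil))))) (.nd (nat_lit 4) (.nd (nat_lit 5) 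
(.lf (nat_lit 254219) (.g (nat_lit 1278) (.e (nat_lit 163975) (nat_lit 30) (.e (nat_lit 573449) (nat_lit 9) (.e (nat_lit 1594) (nat_lit 111) (.e (nat_lit 360467) (nat_lit 3) (.e (nat_lit 516179) (nat_lit 15) (.e (nat_lit 475201) (nat_lit 40) (.e (nat_lit 712448) (nat_lit 3) .nil))))))) (.g (nat_lit 4) .nil .nil))) 
(.lf (nat_lit 254251) (.g (nat_lit 2612) (.e (nat_lit 163975) (nat_lit 30) (.e (nat_lit 573450) (nat_lit 9) (.e (nat_lit 1277) (nat_lit 94) (.e (nat_lit 114715) (nat_lit 22) (.e (nat_lit 90170) (nat_lit 13) (.e (nat_lit 172067) (nat_lit 3) (.e (nat_lit 204842) (nat_lit 22) (.e (nat_lit 147500) (nat_lit 12) .nil)))))))) (.g (nat_lit 5) .nil .nil)))) (.nd (nat_lit 5) 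
(.lf (nat_lit 254235) (.g (nat_lit 2367) (.e (nat_lit 163975) (nat_lit 30) (.e (nat_lit 573449) (nat_lit 9) (.e (nat_lit 1615) (nat_lit 113) (.e (nat_lit 376862) (nat_lit 22) (.e (nat_lit 90185) (nat_lit 17) (.e (nat_lit 237584) (nat_lit 1) (.e (nat_lit 164348) (nat_lit 240) (.e (nat_lit 2601) (nat_lit 163) .nil)))))))) (.g (nat_lit 5) .nil .nil))) 
(.lf (nat_lit 254267) (.g (nat_lit 2799) (.e (nat_lit 163975) (nat_lit 30) (.e (nat_lit 573450) (nat_lit 9) (.e (nat_lit 1615) (nat_lit 113) (.e (nat_lit 376862) (nat_lit 22) (.e (nat_lit 90185) (nat_lit 17) (.e (nat_lit 237585) (nat_lit 1) (.e (nat_lit 164345) (nat_lit 240) (.e (nat_lit 2601) (nat_lit 163) .nil)))))))) (.g (nat_lit 5) .nil .nil)))))) 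
(.nd (nat_lit 3) (.nd (nat_lit 4) (.nd (nat_lit 5) 
(.lf (nat_lit 254215) (.g (nat_lit 3101) (.e (nat_lit 163974) (nat_lit 30) (.e (nat_lit 573484) (nat_lit 13) (.e (nat_lit 65610) (nat_lit 10) (.e (nat_lit 344117) (nat_lit 21) (.e (nat_lit 516179) (nat_lit 15) .nil))))) .nil)) 
(.lf (nat_lit 254247) (.g (nat_lit 2927) (.e (nat_lit 163975) (nat_lit 30) (.e (nat_lit 573449) (nat_lit 9) (.e (nat_lit 1615) (nat_lit 113) (.e (nat_lit 376865) (nat_lit 22) (.e (nat_lit 90185) (nat_lit 17) (.e (nat_lit 237585) (nat_lit 1) (.e (nat_lit 164345) (nat_lit 240) (.e (nat_lit 2599) (nat_lit 163) .nil)))))))) (.g (nat_lit 5) .nil .nil)))) (.nd (nat_lit 5) 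
(.lf (nat_lit 254231) (.g (nat_lit 2297) (.e (nat_lit 163975) (nat_lit 30) (.e (nat_lit 573449) (nat_lit 9) (.e (nat_lit 1615) (nat_lit 113) (.e (nat_lit 376862) (nat_lit 22) (.e (nat_lit 90185) (nat_lit 17) (.e (nat_lit 237584) (nat_lit 1) (.e (nat_lit 164345) (nat_lit 240) (.e (nat_lit 2600) (nat_lit 163) .nil)))))))) (.g (nat_lit 5) .nil .nil))) 
(.lf (nat_lit 254263) (.g (nat_lit 2566) (.e (nat_lit 163975) (nat_lit 30) (.e (nat_lit 573450) (nat_lit 9) (.e (nat_lit 1615) (nat_lit 113) (.e (nat_lit 376862) (nat_lit 22) (.e (nat_lit 90185) (nat_lit 17) (.e (nat_lit 237584) (nat_lit 1) (.e (nat_lit 164347) (nat_lit 240) (.e (nat_lit 2599) (nat_lit 163) .nil)))))))) (.g (nat_lit 5) .nil .nil))))) (.nd (nat_lit 4) (.nd (nat_lit 5) 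
(.lf (nat_lit 254223) (.g (nat_lit 2050) (.e (nat_lit 163975) (nat_lit 30) (.e (nat_lit 573449) (nat_lit 9) (.e (nat_lit 1615) (nat_lit 113) (.e (nat_lit 376862) (nat_lit 22) (.e (nat_lit 90172) (nat_lit 14) (.e (nat_lit 180229) (nat_lit 0) (.e (nat_lit 5548) (nat_lit 306) (.e (nat_lit 2601) (nat_lit 163) .nil)))))))) (.g (nat_lit 4) .nil .nil))) 
(.lf (nat_lit 254255) (.g (nat_lit 2746) (.e (nat_lit 163975) (nat_lit 30) (.e (nat_lit 573450) (nat_lit 9) (.e (nat_lit 1615) (nat_lit 113) (.e (nat_lit 376862) (nat_lit 22) (.e (nat_lit 90185) (nat_lit 17) (.e (nat_lit 237582) (nat_lit 1) (.e (nat_lit 164345) (nat_lit 240) (.e (nat_lit 2600) (nat_lit 163) .nil)))))))) (.g (nat_lit 5) .nil .nil)))) (.nd (nat_lit 5) 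
(.lf (nat_lit 254239) (.g (nat_lit 2898) (.e (nat_lit 163975) (nat_lit 30) (.e (nat_lit 573449) (nat_lit 9) (.e (nat_lit 1615) (nat_lit 113) (.e (nat_lit 376865) (nat_lit 22) (.e (nat_lit 90185) (nat_lit 17) (.e (nat_lit 237582) (nat_lit 1) (.e (nat_lit 164345) (nat_lit 240) (.e (nat_lit 2599) (nat_lit 163) .nil)))))))) (.g (nat_lit 5) .nil .nil))) 
(.lf (nat_lit 254271) (.g (nat_lit 2069) (.e (nat_lit 163975) (nat_lit 30) (.e (nat_lit 573450) (nat_lit 9) (.e (nat_lit 1615) (nat_lit 113) (.e (nat_lit 376865) (nat_lit 22) (.e (nat_lit 90185) (nat_lit 17) (.e (nat_lit 237582) (nat_lit 1) (.e (nat_lit 164346) (nat_lit 240) (.e (nat_lit 2599) (nat_lit 163) .nil)))))))) (.g (nat_lit 4) .nil .nil)))))))))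

noncomputable def tv3297 : DT := (.nd (nat_lit 0) (.nd (nat_lit 1) (.nd (nat_lit 2) (.nd (nat_lit 3) (.nd (nat_lit 4) (.nd (nat_lit 5) 
(.lf (nat_lit 254272) (.g (nat_lit 2655) (.e (nat_lit 163975) (nat_lit 30) (.e (nat_lit 573450) (nat_lit 9) (.e (nat_lit 1615) (nat_lit 113) (.e (nat_lit 376865) (nat_lit 22) (.e (nat_lit 90185) (nat_lit 17) (.e (nat_lit 237582) (nat_lit 1) (.e (nat_lit 164346) (nat_lit 240) (.e (nat_lit 2600) (nat_lit 163) .nil)))))))) (.g (nat_lit 5) .nil .nil))) 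
(.lf (nat_lit 254304) (.g (nat_lit 3949) (.e (nat_lit 163975) (nat_lit 30) (.e (nat_lit 573451) (nat_lit 9) (.e (nat_lit 1595) (nat_lit 111) (.e (nat_lit 360467) (nat_lit 3) (.e (nat_lit 516179) (nat_lit 15) (.e (nat_lit 475201) (nat_lit 40) (.e (nat_lit 712448) (nat_lit 3) .nil))))))) (.g (nat_lit 5) .nil .nil)))) (.nd (nat_lit 5) 
(.lf (nat_lit 254288) (.g (nat_lit 785) (.e (nat_lit 163975) (nat_lit 30) (.e (nat_lit 573451) (nat_lit 9) (.e (nat_lit 1595) (nat_lit 111) .nil))) .nil)) 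
(.lf (nat_lit 254320) (.g (nat_lit 3323) (.e (nat_lit 163975) (nat_lit 30) (.e (nat_lit 573474) (nat_lit 12) (.e (nat_lit 57549) (nat_lit 48) (.e (nat_lit 720937) (nat_lit 22) (.e (nat_lit 90172) (nat_lit 14) (.e (nat_lit 180244) (nat_lit 5) (.e (nat_lit 532519) (nat_lit 5) (.e (nat_lit 147500) (nat_lit 12) .nil)))))))) (.g (nat_lit 6) .nil .nil))))) (.nd (nat_lit 4) (.nd (nat_lit 5) 
(.lf (nat_lit 254280) (.g (nat_lit 2175) (.e (nat_lit 163975) (nat_lit 30) (.e (nat_lit 573450) (nat_lit 9) (.e (nat_lit 1615) (nat_lit 113) (.e (nat_lit 376865) (nat_lit 22) (.e (nat_lit 90185) (nat_lit 17) (.e (nat_lit 237584) (nat_lit 1) (.e (nat_lit 164348) (nat_lit 240) (.e (nat_lit 2600) (nat_lit 163) .nil)))))))) (.g (nat_lit 4) .nil .nil))) 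
(.lf (nat_lit 254312) (.g (nat_lit 2096) (.e (nat_lit 163975) (nat_lit 30) (.e (nat_lit 573473) (nat_lit 12) (.e (nat_lit 57550) (nat_lit 48) (.e (nat_lit 720941) (nat_lit 22) (.e (nat_lit 90172) (nat_lit 14) (.e (nat_lit 180244) (nat_lit 5) (.e (nat_lit 532519) (nat_lit 5) (.e (nat_lit 147500) (nat_lit 12) .nil)))))))) (.g (nat_lit 5) .nil .nil)))) (.nd (nat_lit 5) 
(.lf (nat_lit 254296) (.g (nat_lit 3195) (.e (nat_lit 163975) (nat_lit 30) (.e (nat_lit 573451) (nat_lit 9) (.e (nat_lit 1595) (nat_lit 111) (.e (nat_lit 360467) (nat_lit 3) (.e (nat_lit 516169) (nat_lit 13) (.e (nat_lit 458774) (nat_lit 18) (.e (nat_lit 5547) (nat_lit 306) (.e (nat_lit 2601) (nat_lit 163) .nil)))))))) (.g (nat_lit 4) .nil .nil))) 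
(.lf (nat_lit 254328) (.g (nat_lit 3651) (.e (nat_lit 163975) (nat_lit 30) (.e (nat_lit 573474) (nat_lit 12) (.e (nat_lit 57549) (nat_lit 48) (.e (nat_lit 720945) (nat_lit 23) (.e (nat_lit 98367) (nat_lit 27) (.e (nat_lit 434231) (nat_lit 23) (.e (nat_lit 532519) (nat_lit 5) (.e (nat_lit 147500) (nat_lit 12) .nil)))))))) (.g (nat_lit 6) .nil .nil)))))) 
(.nd (nat_lit 3) (.nd (nat_lit 4) (.nd (nat_lit 5) 
(.lf (nat_lit 254276) (.g (nat_lit 2781) (.e (nat_lit 163975) (nat_lit 30) (.e (nat_lit 573450) (nat_lit 9) (.e (nat_lit 1615) (nat_lit 113) (.e (nat_lit 376865) (nat_lit 22) (.e (nat_lit 90185) (nat_lit 17) (.e (nat_lit 237582) (nat_lit 1) (.e (nat_lit 164348) (nat_lit 240) (.e (nat_lit 2600) (nat_lit 163) .nil)))))))) (.g (nat_lit 5) .nil .nil))) 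
(.lf (nat_lit 254308) (.g (nat_lit 1660) (.e (nat_lit 163975) (nat_lit 30) (.e (nat_lit 573473) (nat_lit 12) (.e (nat_lit 57549) (nat_lit 48) (.e (nat_lit 720937) (nat_lit 22) (.e (nat_lit 90172) (nat_lit 14) (.e (nat_lit 180244) (nat_lit 5) (.e (nat_lit 532519) (nat_lit 5) (.e (nat_lit 147500) (nat_lit 12) .nil)))))))) (.g (nat_lit 4) .nil .nil)))) (.nd (nat_lit 5) 
(.lf (nat_lit 254292) (.g (nat_lit 1433) (.e (nat_lit 163975) (nat_lit 30) (.e (nat_lit 573451) (nat_lit 9) (.e (nat_lit 1595) (nat_lit 111) (.e (nat_lit 360467) (nat_lit 3) .nil)))) .nil)) 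
(.lf (nat_lit 254324) (.g (nat_lit 3319) (.e (nat_lit 163975) (nat_lit 30) (.e (nat_lit 573474) (nat_lit 12) (.e (nat_lit 57549) (nat_lit 48) (.e (nat_lit 720941) (nat_lit 22) (.e (nat_lit 90172) (nat_lit 14) (.e (nat_lit 180244) (nat_lit 5) (.e (nat_lit 532519) (nat_lit 5) (.e (nat_lit 147500) (nat_lit 12) .nil)))))))) (.g (nat_lit 6) .nil .nil))))) (.nd (nat_lit 4) (.nd (nat_lit 5) 
(.lf (nat_lit 254284) (.g (nat_lit 2537) (.e (nat_lit 163975) (nat_lit 30) (.e (nat_lit 573450) (nat_lit 9) (.e (nat_lit 1615) (nat_lit 113) (.e (nat_lit 376869) (nat_lit 23) (.e (nat_lit 98384) (nat_lit 32) (.e (nat_lit 475201) (nat_lit 40) (.e (nat_lit 712448) (nat_lit 3) .nil))))))) (.g (nat_lit 6) .nil .nil))) 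
(.lf (nat_lit 254316) (.g (nat_lit 2514) (.e (nat_lit 163975) (nat_lit 30) (.e (nat_lit 573473) (nat_lit 12) (.e (nat_lit 57551) (nat_lit 48) (.e (nat_lit 720945) (nat_lit 23) (.e (nat_lit 98366) (nat_lit 27) (.e (nat_lit 434231) (nat_lit 23) (.e (nat_lit 532519) (nat_lit 5) (.e (nat_lit 147500) (nat_lit 12) .nil)))))))) (.g (nat_lit 6) .nil .nil)))) (.nd (nat_lit 5) 
(.lf (nat_lit 254300) (.g (nat_lit 3234) (.e (nat_lit 163975) (nat_lit 30) (.e (nat_lit 573451) (nat_lit 9) (.e (nat_lit 1595) (nat_lit 111) (.e (nat_lit 360467) (nat_lit 3) (.e (nat_lit 516179) (nat_lit 15) (.e (nat_lit 475196) (nat_lit 40) (.e (nat_lit 704589) (nat_lit 3) .nil))))))) (.g (nat_lit 4) .nil .nil))) 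
(.lf (nat_lit 254332) (.g (nat_lit 2634) (.e (nat_lit 163975) (nat_lit 30) (.e (nat_lit 573474) (nat_lit 12) (.e (nat_lit 57550) (nat_lit 48) (.e (nat_lit 720939) (nat_lit 22) (.e (nat_lit 90170) (nat_lit 13) (.e (nat_lit 172065) (nat_lit 3) (.e (nat_lit 204842) (nat_lit 22) (.e (nat_lit 147500) (nat_lit 12) .nil)))))))) (.g (nat_lit 4) .nil .nil))))))) 
(.nd (nat_lit 2) (.nd (nat_lit 3) (.nd (nat_lit 4) (.nd (nat_lit 5) 
(.lf (nat_lit 254274) (.g (nat_lit 2044) (.e (nat_lit 163975) (nat_lit 30) (.e (nat_lit 573450) (nat_lit 9) (.e (nat_lit 1615) (nat_lit 113) (.e (nat_lit 376865) (nat_lit 22) (.e (nat_lit 90185) (nat_lit 17) (.e (nat_lit 237582) (nat_lit 1) (.e (nat_lit 164347) (nat_lit 240) (.e (nat_lit 2600) (nat_lit 163) .nil)))))))) (.g (nat_lit 4) .nil .nil))) 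
(.lf (nat_lit 254306) (.g (nat_lit 525) (.e (nat_lit 163975) (nat_lit 30) (.e (nat_lit 573469) (nat_lit 11) (.e (nat_lit 16465) (nat_lit 13) .nil))) .nil))) (.nd (nat_lit 5) 
(.lf (nat_lit 254290) (.g (nat_lit 2471) (.e (nat_lit 163975) (nat_lit 30) (.e (nat_lit 573451) (nat_lit 9) (.e (nat_lit 1595) (nat_lit 111) (.e (nat_lit 360466) (nat_lit 3) (.e (nat_lit 516150) (nat_lit 9) .nil))))) .nil)) 
(.lf (nat_lit 254322) (.g (nat_lit 2465) (.e (nat_lit 163975) (nat_lit 30) (.e (nat_lit 573474) (nat_lit 12) (.e (nat_lit 57549) (nat_lit 48) (.e (nat_lit 720940) (nat_lit 22) (.e (nat_lit 90170) (nat_lit 13) (.e (nat_lit 172065) (nat_lit 3) (.e (nat_lit 204842) (nat_lit 22) (.e (nat_lit 147500) (nat_lit 12) .nil)))))))) (.g (nat_lit 5) .nil .nil))))) (.nd (nat_lit 4) (.nd (nat_lit 5) 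
(.lf (nat_lit 254282) (.g (nat_lit 3348) (.e (nat_lit 163975) (nat_lit 30) (.e (nat_lit 573450) (nat_lit 9) (.e (nat_lit 1615) (nat_lit 113) (.e (nat_lit 376865) (nat_lit 22) (.e (nat_lit 90185) (nat_lit 17) (.e (nat_lit 237595) (nat_lit 4) (.e (nat_lit 229663) (nat_lit 240) (.e (nat_lit 2604) (nat_lit 163) .nil)))))))) (.g (nat_lit 5) .nil .nil))) 
(.lf (nat_lit 254314) (.g (nat_lit 2335) (.e (nat_lit 163975) (nat_lit 30) (.e (nat_lit 573473) (nat_lit 12) (.e (nat_lit 57551) (nat_lit 48) (.e (nat_lit 720938) (nat_lit 22) (.e (nat_lit 90172) (nat_lit 14) (.e (nat_lit 180244) (nat_lit 5) (.e (nat_lit 532519) (nat_lit 5) (.e (nat_lit 147500) (nat_lit 12) .nil)))))))) (.g (nat_lit 5) .nil .nil)))) (.nd (nat_lit 5) 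
(.lf (nat_lit 254298) (.g (nat_lit 3442) (.e (nat_lit 163975) (nat_lit 30) (.e (nat_lit 573451) (nat_lit 9) (.e (nat_lit 1595) (nat_lit 111) (.e (nat_lit 360467) (nat_lit 3) (.e (nat_lit 516171) (nat_lit 13) (.e (nat_lit 458774) (nat_lit 18) (.e (nat_lit 5547) (nat_lit 306) (.e (nat_lit 2601) (nat_lit 163) .nil)))))))) (.g (nat_lit 4) .nil .nil))) 
(.lf (nat_lit 254330) (.g (nat_lit 3664) (.e (nat_lit 163975) (nat_lit 30) (.e (nat_lit 573474) (nat_lit 12) (.e (nat_lit 57550) (nat_lit 48) (.e (nat_lit 720937) (nat_lit 22) (.e (nat_lit 90172) (nat_lit 14) (.e (nat_lit 180244) (nat_lit 5) (.e (nat_lit 532519) (nat_lit 5) (.e (nat_lit 147500) (nat_lit 12) .nil)))))))) (.g (nat_lit 6) .nil .nil)))))) 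
(.nd (nat_lit 3) (.nd (nat_lit 4) (.nd (nat_lit 5) 
(.lf (nat_lit 254278) (.g (nat_lit 1933) (.e (nat_lit 163975) (nat_lit 30) (.e (nat_lit 573450) (nat_lit 9) (.e (nat_lit 1615) (nat_lit 113) (.e (nat_lit 376865) (nat_lit 22) (.e (nat_lit 90185) (nat_lit 17) (.e (nat_lit 237584) (nat_lit 1) (.e (nat_lit 164347) (nat_lit 240) (.e (nat_lit 2600) (nat_lit 163) .nil)))))))) (.g (nat_lit 4) .nil .nil))) 
(.lf (nat_lit 254310) (.g (nat_lit 2069) (.e (nat_lit 163975) (nat_lit 30) (.e (nat_lit 573473) (nat_lit 12) (.e (nat_lit 57550) (nat_lit 48) (.e (nat_lit 720937) (nat_lit 22) (.e (nat_lit 90172) (nat_lit 14) (.e (nat_lit 180244) (nat_lit 5) (.e (nat_lit 532519) (nat_lit 5) (.e (nat_lit 147500) (nat_lit 12) .nil)))))))) (.g (nat_lit 5) .nil .nil)))) (.nd (nat_lit 5) 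
(.lf (nat_lit 254294) (.g (nat_lit 3545) (.e (nat_lit 163975) (nat_lit 30) (.e (nat_lit 573451) (nat_lit 9) (.e (nat_lit 1595) (nat_lit 111) (.e (nat_lit 360467) (nat_lit 3) (.e (nat_lit 516158) (nat_lit 9) (.e (nat_lit 426107) (nat_lit 1) (.e (nat_lit 164347) (nat_lit 240) (.e (nat_lit 2599) (nat_lit 163) .nil)))))))) (.g (nat_lit 4) .nil .nil))) 
(.lf (nat_lit 254326) (.g (nat_lit 2348) (.e (nat_lit 163975) (nat_lit 30) (.e (nat_lit 573474) (nat_lit 12) (.e (nat_lit 57549) (nat_lit 48) (.e (nat_lit 720945) (nat_lit 23) (.e (nat_lit 98366) (nat_lit 27) (.e (nat_lit 434231) (nat_lit 23) (.e (nat_lit 532519) (nat_lit 5) (.e (nat_lit 147498) (nat_lit 12) .nil)))))))) (.g (nat_lit 4) .nil .nil))))) (.nd (nat_lit 4) (.nd (nat_lit 5) 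
(.lf (nat_lit 254286) (.g (nat_lit 545) (.e (nat_lit 163975) (nat_lit 30) (.e (nat_lit 573451) (nat_lit 9) (.e (nat_lit 1592) (nat_lit 111) .nil))) .nil)) 
(.lf (nat_lit 254318) (.g (nat_lit 3991) (.e (nat_lit 163975) (nat_lit 30) (.e (nat_lit 573474) (nat_lit 12) (.e (nat_lit 57528) (nat_lit 46) (.e (nat_lit 704612) (nat_lit 9) (.e (nat_lit 1239) (nat_lit 91) (.e (nat_lit 90170) (nat_lit 13) (.e (nat_lit 172065) (nat_lit 3) (.e (nat_lit 204842) (nat_lit 22) (.e (nat_lit 147500) (nat_lit 12) .nil))))))))) (.g (nat_lit 6) .nil .nil)))) 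
(.nd (nat_lit 5) 
(.lf (nat_lit 254302) (.g (nat_lit 6361) (.e (nat_lit 163975) (nat_lit 30) (.e (nat_lit 573451) (nat_lit 9) (.e (nat_lit 1595) (nat_lit 111) (.e (nat_lit 360467) (nat_lit 3) (.e (nat_lit 516179) (nat_lit 15) (.e (nat_lit 475199) (nat_lit 40) (.e (nat_lit 704589) (nat_lit 3) .nil))))))) (.g (nat_lit 0) .nil .nil))) 
(.lf (nat_lit 254334) (.g (nat_lit 3195) (.e (nat_lit 163975) (nat_lit 30) (.e (nat_lit 573474) (nat_lit 12) (.e (nat_lit 57550) (nat_lit 48) (.e (nat_lit 720939) (nat_lit 22) (.e (nat_lit 90172) (nat_lit 14) (.e (nat_lit 180244) (nat_lit 5) (.e (nat_lit 532519) (nat_lit 5) (.e (nat_lit 147500) (nat_lit 12) .nil)))))))) (.g (nat_lit 5) .nil .nil)))))))) 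
(.nd (nat_lit 1) (.nd (nat_lit 2) (.nd (nat_lit 3) (.nd (nat_lit 4) (.nd (nat_lit 5) 
(.lf (nat_lit 254273) (.g (nat_lit 3705) (.e (nat_lit 163975) (nat_lit 30) (.e (nat_lit 573450) (nat_lit 9) (.e (nat_lit 1615) (nat_lit 113) (.e (nat_lit 376865) (nat_lit 22) (.e (nat_lit 90185) (nat_lit 17) (.e (nat_lit 237582) (nat_lit 1) (.e (nat_lit 164347) (nat_lit 240) (.e (nat_lit 2599) (nat_lit 163) .nil)))))))) (.g (nat_lit 7) .nil .nil))) 
(.lf (nat_lit 254305) (.g (nat_lit 5217) (.e (nat_lit 163975) (nat_lit 30) (.e (nat_lit 573451) (nat_lit 9) (.e (nat_lit 1595) (nat_lit 111) (.e (nat_lit 360467) (nat_lit 3) (.e (nat_lit 516182) (nat_lit 15) (.e (nat_lit 475199) (nat_lit 40) (.e (nat_lit 704589) (nat_lit 3) .nil))))))) (.g (nat_lit 0) .nil .nil)))) (.nd (nat_lit 5) 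
(.lf (nat_lit 254289) (.g (nat_lit 3713) (.e (nat_lit 163975) (nat_lit 30) (.e (nat_lit 573451) (nat_lit 9) (.e (nat_lit 1595) (nat_lit 111) (.e (nat_lit 360466) (nat_lit 3) (.e (nat_lit 516146) (nat_lit 9) (.e (nat_lit 426444) (nat_lit 19) (.e (nat_lit 114432) (nat_lit 3) .nil))))))) (.g (nat_lit 5) .nil .nil))) 
(.lf (nat_lit 254321) (.g (nat_lit 3065) (.e (nat_lit 163975) (nat_lit 30) (.e (nat_lit 573474) (nat_lit 12) (.e (nat_lit 57549) (nat_lit 48) (.e (nat_lit 720938) (nat_lit 22) (.e (nat_lit 90172) (nat_lit 14) (.e (nat_lit 180244) (nat_lit 5) (.e (nat_lit 532519) (nat_lit 5) (.e (nat_lit 147500) (nat_lit 12) .nil)))))))) (.g (nat_lit 5) .nil .nil))))) (.nd (nat_lit 4) (.nd (nat_lit 5) 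
(.lf (nat_lit 254281) (.g (nat_lit 3741) (.e (nat_lit 163975) (nat_lit 30) (.e (nat_lit 573450) (nat_lit 9) (.e (nat_lit 1615) (nat_lit 113) (.e (nat_lit 376865) (nat_lit 22) (.e (nat_lit 90185) (nat_lit 17) (.e (nat_lit 237584) (nat_lit 1) (.e (nat_lit 164348) (nat_lit 240) (.e (nat_lit 2601) (nat_lit 163) .nil)))))))) (.g (nat_lit 7) .nil .nil))) 
(.lf (nat_lit 254313) (.g (nat_lit 2004) (.e (nat_lit 163975) (nat_lit 30) (.e (nat_lit 573473) (nat_lit 12) (.e (nat_lit 57551) (nat_lit 48) (.e (nat_lit 720937) (nat_lit 22) (.e (nat_lit 90172) (nat_lit 14) (.e (nat_lit 180244) (nat_lit 5) (.e (nat_lit 532519) (nat_lit 5) (.e (nat_lit 147500) (nat_lit 12) .nil)))))))) (.g (nat_lit 4) .nil .nil)))) (.nd (nat_lit 5) 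
(.lf (nat_lit 254297) (.g (nat_lit 3398) (.e (nat_lit 163975) (nat_lit 30) (.e (nat_lit 573451) (nat_lit 9) (.e (nat_lit 1595) (nat_lit 111) (.e (nat_lit 360467) (nat_lit 3) (.e (nat_lit 516169) (nat_lit 13) (.e (nat_lit 458774) (nat_lit 18) (.e (nat_lit 5548) (nat_lit 306) (.e (nat_lit 2601) (nat_lit 163) .nil)))))))) (.g (nat_lit 4) .nil .nil))) 
(.lf (nat_lit 254329) (.g (nat_lit 977) (.e (nat_lit 163975) (nat_lit 30) (.e (nat_lit 573474) (nat_lit 12) (.e (nat_lit 57550) (nat_lit 48) .nil))) .nil))))) (.nd (nat_lit 3) (.nd (nat_lit 4) (.nd (nat_lit 5) 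
(.lf (nat_lit 254277) (.g (nat_lit 1814) (.e (nat_lit 163975) (nat_lit 30) (.e (nat_lit 573450) (nat_lit 9) (.e (nat_lit 1615) (nat_lit 113) (.e (nat_lit 376865) (nat_lit 22) (.e (nat_lit 90185) (nat_lit 17) (.e (nat_lit 237584) (nat_lit 1) (.e (nat_lit 164346) (nat_lit 240) (.e (nat_lit 2600) (nat_lit 163) .nil)))))))) (.g (nat_lit 4) .nil .nil))) 
(.lf (nat_lit 254309) (.g (nat_lit 2188) (.e (nat_lit 163975) (nat_lit 30) (.e (nat_lit 573473) (nat_lit 12) (.e (nat_lit 57549) (nat_lit 48) (.e (nat_lit 720945) (nat_lit 23) (.e (nat_lit 98366) (nat_lit 27) (.e (nat_lit 434231) (nat_lit 23) (.e (nat_lit 532519) (nat_lit 5) (.e (nat_lit 147500) (nat_lit 12) .nil)))))))) (.g (nat_lit 5) .nil .nil)))) (.nd (nat_lit 5) 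
(.lf (nat_lit 254293) (.g (nat_lit 5053) (.e (nat_lit 163975) (nat_lit 30) (.e (nat_lit 573451) (nat_lit 9) (.e (nat_lit 1595) (nat_lit 111) (.e (nat_lit 360467) (nat_lit 3) (.e (nat_lit 516146) (nat_lit 9) (.e (nat_lit 426444) (nat_lit 19) (.e (nat_lit 114432) (nat_lit 3) .nil))))))) (.g (nat_lit 6) .nil .nil))) 
(.lf (nat_lit 254325) (.g (nat_lit 2324) (.e (nat_lit 163975) (nat_lit 30) (.e (nat_lit 573474) (nat_lit 12) (.e (nat_lit 57549) (nat_lit 48) (.e (nat_lit 720941) (nat_lit 22) (.e (nat_lit 90174) (nat_lit 14) (.e (nat_lit 180243) (nat_lit 5) (.e (nat_lit 532519) (nat_lit 5) (.e (nat_lit 147500) (nat_lit 12) .nil)))))))) (.g (nat_lit 4) .nil .nil))))) (.nd (nat_lit 4) (.nd (nat_lit 5) 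
(.lf (nat_lit 254285) (.g (nat_lit 548) (.e (nat_lit 163975) (nat_lit 30) (.e (nat_lit 573451) (nat_lit 9) (.e (nat_lit 1569) (nat_lit 110) .nil))) .nil)) 
(.lf (nat_lit 254317) (.g (nat_lit 1512) (.e (nat_lit 163975) (nat_lit 30) (.e (nat_lit 573474) (nat_lit 12) (.e (nat_lit 57528) (nat_lit 46) (.e (nat_lit 704612) (nat_lit 9) .nil)))) .nil))) (.nd (nat_lit 5) 
(.lf (nat_lit 254301) (.g (nat_lit 4863) (.e (nat_lit 163975) (nat_lit 30) (.e (nat_lit 573451) (nat_lit 9) (.e (nat_lit 1595) (nat_lit 111) (.e (nat_lit 360467) (nat_lit 3) (.e (nat_lit 516179) (nat_lit 15) (.e (nat_lit 475196) (nat_lit 40) (.e (nat_lit 704590) (nat_lit 3) .nil))))))) (.g (nat_lit 5) .nil .nil))) 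
(.lf (nat_lit 254333) (.g (nat_lit 2909) (.e (nat_lit 163975) (nat_lit 30) (.e (nat_lit 573474) (nat_lit 12) (.e (nat_lit 57550) (nat_lit 48) (.e (nat_lit 720939) (nat_lit 22) (.e (nat_lit 90170) (nat_lit 13) (.e (nat_lit 172067) (nat_lit 3) (.e (nat_lit 204842) (nat_lit 22) (.e (nat_lit 147500) (nat_lit 12) .nil)))))))) (.g (nat_lit 5) .nil .nil))))))) 
(.nd (nat_lit 2) (.nd (nat_lit 3) (.nd (nat_lit 4) (.nd (nat_lit 5) 
(.lf (nat_lit 254275) (.g (nat_lit 4122) (.e (nat_lit 163975) (nat_lit 30) (.e (nat_lit 573450) (nat_lit 9) (.e (nat_lit 1615) (nat_lit 113) (.e (nat_lit 376865) (nat_lit 22) (.e (nat_lit 90185) (nat_lit 17) (.e (nat_lit 237582) (nat_lit 1) (.e (nat_lit 164348) (nat_lit 240) (.e (nat_lit 2599) (nat_lit 163) .nil)))))))) (.g (nat_lit 7) .nil .nil))) 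
(.lf (nat_lit 254307) (.g (nat_lit 843) (.e (nat_lit 163975) (nat_lit 30) (.e (nat_lit 573471) (nat_lit 11) (.e (nat_lit 16455) (nat_lit 12) .nil))) .nil))) (.nd (nat_lit 5) 
(.lf (nat_lit 254291) (.g (nat_lit 6046) (.e (nat_lit 163975) (nat_lit 30) (.e (nat_lit 573451) (nat_lit 9) (.e (nat_lit 1595) (nat_lit 111) (.e (nat_lit 360466) (nat_lit 3) (.e (nat_lit 516179) (nat_lit 15) (.e (nat_lit 475199) (nat_lit 40) (.e (nat_lit 704589) (nat_lit 3) .nil))))))) (.g (nat_lit 0) .nil .nil))) 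
(.lf (nat_lit 254323) (.g (nat_lit 2966) (.e (nat_lit 163975) (nat_lit 30) (.e (nat_lit 573474) (nat_lit 12) (.e (nat_lit 57549) (nat_lit 48) (.e (nat_lit 720940) (nat_lit 22) (.e (nat_lit 90170) (nat_lit 13) (.e (nat_lit 172067) (nat_lit 3) (.e (nat_lit 204842) (nat_lit 22) (.e (nat_lit 147500) (nat_lit 12) .nil)))))))) (.g (nat_lit 5) .nil .nil))))) (.nd (nat_lit 4) (.nd (nat_lit 5) 
(.lf (nat_lit 254283) (.g (nat_lit 944) (.e (nat_lit 163975) (nat_lit 30) (.e (nat_lit 573450) (nat_lit 9) (.e (nat_lit 1615) (nat_lit 113) (.e (nat_lit 376868) (nat_lit 23) .nil)))) .nil)) 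
(.lf (nat_lit 254315) (.g (nat_lit 2740) (.e (nat_lit 163975) (nat_lit 30) (.e (nat_lit 573473) (nat_lit 12) (.e (nat_lit 57551) (nat_lit 48) (.e (nat_lit 720941) (nat_lit 22) (.e (nat_lit 90172) (nat_lit 14) (.e (nat_lit 180244) (nat_lit 5) (.e (nat_lit 532519) (nat_lit 5) (.e (nat_lit 147500) (nat_lit 12) .nil)))))))) (.g (nat_lit 5) .nil .nil)))) (.nd (nat_lit 5) 
(.lf (nat_lit 254299) (.g (nat_lit 3658) (.e (nat_lit 163975) (nat_lit 30) (.e (nat_lit 573451) (nat_lit 9) (.e (nat_lit 1595) (nat_lit 111) (.e (nat_lit 360467) (nat_lit 3) (.e (nat_lit 516171) (nat_lit 13) (.e (nat_lit 458774) (nat_lit 18) (.e (nat_lit 5548) (nat_lit 306) (.e (nat_lit 2601) (nat_lit 163) .nil)))))))) (.g (nat_lit 4) .nil .nil))) 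
(.lf (nat_lit 254331) (.g (nat_lit 3663) (.e (nat_lit 163975) (nat_lit 30) (.e (nat_lit 573474) (nat_lit 12) (.e (nat_lit 57550) (nat_lit 48) (.e (nat_lit 720938) (nat_lit 22) (.e (nat_lit 90172) (nat_lit 14) (.e (nat_lit 180244) (nat_lit 5) (.e (nat_lit 532519) (nat_lit 5) (.e (nat_lit 147500) (nat_lit 12) .nil)))))))) (.g (nat_lit 6) .nil .nil)))))) 
(.nd (nat_lit 3) (.nd (nat_lit 4) (.nd (nat_lit 5) 
(.lf (nat_lit 254279) (.g (nat_lit 3522) (.e (nat_lit 163975) (nat_lit 30) (.e (nat_lit 573450) (nat_lit 9) (.e (nat_lit 1615) (nat_lit 113) (.e (nat_lit 376865) (nat_lit 22) (.e (nat_lit 90185) (nat_lit 17) (.e (nat_lit 237584) (nat_lit 1) (.e (nat_lit 164348) (nat_lit 240) (.e (nat_lit 2599) (nat_lit 163) .nil)))))))) (.g (nat_lit 7) .nil .nil))) 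
(.lf (nat_lit 254311) (.g (nat_lit 2146) (.e (nat_lit 163975) (nat_lit 30) (.e (nat_lit 573473) (nat_lit 12) (.e (nat_lit 57550) (nat_lit 48) (.e (nat_lit 720938) (nat_lit 22) (.e (nat_lit 90172) (nat_lit 14) (.e (nat_lit 180244) (nat_lit 5) (.e (nat_lit 532519) (nat_lit 5) (.e (nat_lit 147500) (nat_lit 12) .nil)))))))) (.g (nat_lit 5) .nil .nil)))) (.nd (nat_lit 5) 
(.lf (nat_lit 254295) (.g (nat_lit 4537) (.e (nat_lit 163975) (nat_lit 30) (.e (nat_lit 573451) (nat_lit 9) (.e (nat_lit 1595) (nat_lit 111) (.e (nat_lit 360467) (nat_lit 3) (.e (nat_lit 516158) (nat_lit 9) (.e (nat_lit 426107) (nat_lit 1) (.e (nat_lit 164347) (nat_lit 240) (.e (nat_lit 2601) (nat_lit 163) .nil)))))))) (.g (nat_lit 6) .nil .nil))) 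
(.lf (nat_lit 254327) (.g (nat_lit 3851) (.e (nat_lit 163975) (nat_lit 30) (.e (nat_lit 573474) (nat_lit 12) (.e (nat_lit 57549) (nat_lit 48) (.e (nat_lit 720945) (nat_lit 23) (.e (nat_lit 98366) (nat_lit 27) (.e (nat_lit 434231) (nat_lit 23) (.e (nat_lit 532519) (nat_lit 5) (.e (nat_lit 147500) (nat_lit 12) .nil)))))))) (.g (nat_lit 7) .nil .nil))))) (.nd (nat_lit 4) (.nd (nat_lit 5) 
(.lf (nat_lit 254287) (.g (nat_lit 4553) (.e (nat_lit 163975) (nat_lit 30) (.e (nat_lit 573451) (nat_lit 9) (.e (nat_lit 1592) (nat_lit 111) (.e (nat_lit 360466) (nat_lit 3) (.e (nat_lit 516179) (nat_lit 15) (.e (nat_lit 475199) (nat_lit 40) (.e (nat_lit 704589) (nat_lit 3) .nil))))))) (.g (nat_lit 0) .nil .nil))) 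
(.lf (nat_lit 254319) (.g (nat_lit 4327) (.e (nat_lit 163975) (nat_lit 30) (.e (nat_lit 573474) (nat_lit 12) (.e (nat_lit 57528) (nat_lit 46) (.e (nat_lit 704612) (nat_lit 9) (.e (nat_lit 1239) (nat_lit 91) (.e (nat_lit 90170) (nat_lit 13) (.e (nat_lit 172067) (nat_lit 3) (.e (nat_lit 204842) (nat_lit 22) (.e (nat_lit 147500) (nat_lit 12) .nil))))))))) (.g (nat_lit 6) .nil .nil)))) 
(.nd (nat_lit 5) 
(.lf (nat_lit 254303) (.g (nat_lit 5646) (.e (nat_lit 163975) (nat_lit 30) (.e (nat_lit 573451) (nat_lit 9) (.e (nat_lit 1595) (nat_lit 111) (.e (nat_lit 360467) (nat_lit 3) (.e (nat_lit 516179) (nat_lit 15) (.e (nat_lit 475199) (nat_lit 40) (.e (nat_lit 704590) (nat_lit 3) .nil))))))) (.g (nat_lit 6) .nil .nil))) 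
(.lf (nat_lit 254335) (.g (nat_lit 3077) (.e (nat_lit 163975) (nat_lit 30) (.e (nat_lit 573474) (nat_lit 12) (.e (nat_lit 57550) (nat_lit 48) (.e (nat_lit 720939) (nat_lit 22) (.e (nat_lit 90174) (nat_lit 14) (.e (nat_lit 180243) (nat_lit 5) (.e (nat_lit 532519) (nat_lit 5) (.e (nat_lit 147500) (nat_lit 12) .nil)))))))) (.g (nat_lit 5) .nil .nil)))))))))

noncomputable def tv3298 : DT := (.nd (nat_lit 0) (.nd (nat_lit 1) (.nd (nat_lit 2) (.nd (nat_lit 3) (.nd (nat_lit 4) (.nd (nat_lit 5) 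
(.lf (nat_lit 254336) (.g (nat_lit 3611) (.e (nat_lit 163975) (nat_lit 30) (.e (nat_lit 573474) (nat_lit 12) (.e (nat_lit 57550) (nat_lit 48) (.e (nat_lit 720941) (nat_lit 22) (.e (nat_lit 90172) (nat_lit 14) (.e (nat_lit 180244) (nat_lit 5) (.e (nat_lit 532519) (nat_lit 5) (.e (nat_lit 147500) (nat_lit 12) .nil)))))))) (.g (nat_lit 6) .nil .nil))) 
(.lf (nat_lit 254368) (.g (nat_lit 2981) (.e (nat_lit 163975) (nat_lit 30) (.e (nat_lit 573481) (nat_lit 13) (.e (nat_lit 65619) (nat_lit 10) (.e (nat_lit 344117) (nat_lit 21) (.e (nat_lit 516145) (nat_lit 9) (.e (nat_lit 426374) (nat_lit 15) (.e (nat_lit 2058) (nat_lit 142) (.e (nat_lit 704590) (nat_lit 3) .nil)))))))) (.g (nat_lit 4) .nil .nil)))) (.nd (nat_lit 5) 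
(.lf (nat_lit 254352) (.g (nat_lit 3372) (.e (nat_lit 163975) (nat_lit 30) (.e (nat_lit 573481) (nat_lit 13) (.e (nat_lit 65563) (nat_lit 1) (.e (nat_lit 57927) (nat_lit 282) (.e (nat_lit 163943) (nat_lit 19) (.e (nat_lit 483346) (nat_lit 17) (.e (nat_lit 6714) (nat_lit 360) .nil))))))) (.g (nat_lit 6) .nil .nil))) 
(.lf (nat_lit 254384) (.g (nat_lit 2394) (.e (nat_lit 163975) (nat_lit 30) (.e (nat_lit 573491) (nat_lit 15) (.e (nat_lit 81951) (nat_lit 22) (.e (nat_lit 90170) (nat_lit 13) (.e (nat_lit 172135) (nat_lit 15) (.e (nat_lit 2146) (nat_lit 142) (.e (nat_lit 704588) (nat_lit 3) .nil))))))) (.g (nat_lit 4) .nil .nil))))) (.nd (nat_lit 4) (.nd (nat_lit 5) 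
(.lf (nat_lit 254344) (.g (nat_lit 1052) (.e (nat_lit 163975) (nat_lit 30) (.e (nat_lit 573474) (nat_lit 12) (.e (nat_lit 57555) (nat_lit 49) .nil))) .nil)) 
(.lf (nat_lit 254376) (.g (nat_lit 3304) (.e (nat_lit 163975) (nat_lit 30) (.e (nat_lit 573481) (nat_lit 13) (.e (nat_lit 65619) (nat_lit 10) (.e (nat_lit 344117) (nat_lit 21) (.e (nat_lit 516151) (nat_lit 9) (.e (nat_lit 426407) (nat_lit 15) (.e (nat_lit 2147) (nat_lit 142) (.e (nat_lit 704588) (nat_lit 3) .nil)))))))) (.g (nat_lit 5) .nil .nil)))) (.nd (nat_lit 5) 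
(.lf (nat_lit 254360) (.g (nat_lit 5017) (.e (nat_lit 163975) (nat_lit 30) (.e (nat_lit 573481) (nat_lit 13) (.e (nat_lit 65618) (nat_lit 10) (.e (nat_lit 344117) (nat_lit 21) (.e (nat_lit 516151) (nat_lit 9) (.e (nat_lit 426412) (nat_lit 15) (.e (nat_lit 2056) (nat_lit 142) (.e (nat_lit 704590) (nat_lit 3) .nil)))))))) (.g (nat_lit 5) .nil .nil))) 
(.lf (nat_lit 254392) (.g (nat_lit 3035) (.e (nat_lit 163975) (nat_lit 30) (.e (nat_lit 573491) (nat_lit 15) (.e (nat_lit 81954) (nat_lit 23) (.e (nat_lit 98356) (nat_lit 26) (.e (nat_lit 426376) (nat_lit 15) (.e (nat_lit 2056) (nat_lit 142) (.e (nat_lit 704590) (nat_lit 3) .nil))))))) (.g (nat_lit 4) .nil .nil)))))) (.nd (nat_lit 3) (.nd (nat_lit 4) (.nd (nat_lit 5) 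
(.lf (nat_lit 254340) (.g (nat_lit 3089) (.e (nat_lit 163975) (nat_lit 30) (.e (nat_lit 573474) (nat_lit 12) (.e (nat_lit 57551) (nat_lit 48) (.e (nat_lit 720938) (nat_lit 22) (.e (nat_lit 90172) (nat_lit 14) (.e (nat_lit 180244) (nat_lit 5) (.e (nat_lit 532519) (nat_lit 5) (.e (nat_lit 147500) (nat_lit 12) .nil)))))))) (.g (nat_lit 4) .nil .nil))) 
(.lf (nat_lit 254372) (.g (nat_lit 3359) (.e (nat_lit 163975) (nat_lit 30) (.e (nat_lit 573481) (nat_lit 13) (.e (nat_lit 65619) (nat_lit 10) (.e (nat_lit 344117) (nat_lit 21) (.e (nat_lit 516151) (nat_lit 9) (.e (nat_lit 426407) (nat_lit 15) (.e (nat_lit 2143) (nat_lit 142) (.e (nat_lit 704588) (nat_lit 3) .nil)))))))) (.g (nat_lit 5) .nil .nil)))) (.nd (nat_lit 5) 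
(.lf (nat_lit 254356) (.g (nat_lit 3126) (.e (nat_lit 163975) (nat_lit 30) (.e (nat_lit 573481) (nat_lit 13) (.e (nat_lit 65604) (nat_lit 9) (.e (nat_lit 336013) (nat_lit 2) (.e (nat_lit 90170) (nat_lit 13) (.e (nat_lit 172135) (nat_lit 15) (.e (nat_lit 2147) (nat_lit 142) (.e (nat_lit 704588) (nat_lit 3) .nil)))))))) (.g (nat_lit 5) .nil .nil))) 
(.lf (nat_lit 254388) (.g (nat_lit 2728) (.e (nat_lit 163975) (nat_lit 30) (.e (nat_lit 573491) (nat_lit 15) (.e (nat_lit 81954) (nat_lit 23) (.e (nat_lit 98356) (nat_lit 26) (.e (nat_lit 426350) (nat_lit 15) (.e (nat_lit 2051) (nat_lit 142) (.e (nat_lit 704590) (nat_lit 3) .nil))))))) (.g (nat_lit 4) .nil .nil))))) (.nd (nat_lit 4) (.nd (nat_lit 5) 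
(.lf (nat_lit 254348) (.g (nat_lit 3774) (.e (nat_lit 163975) (nat_lit 30) (.e (nat_lit 573480) (nat_lit 13) (.e (nat_lit 65610) (nat_lit 10) (.e (nat_lit 344117) (nat_lit 21) (.e (nat_lit 516151) (nat_lit 9) (.e (nat_lit 426412) (nat_lit 15) (.e (nat_lit 2058) (nat_lit 142) (.e (nat_lit 704590) (nat_lit 3) .nil)))))))) (.g (nat_lit 5) .nil .nil))) 
(.lf (nat_lit 254380) (.g (nat_lit 2244) (.e (nat_lit 163975) (nat_lit 30) (.e (nat_lit 573488) (nat_lit 14) (.e (nat_lit 73755) (nat_lit 8) (.e (nat_lit 557105) (nat_lit 14) (.e (nat_lit 180251) (nat_lit 10) .nil))))) .nil))) (.nd (nat_lit 5) 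
(.lf (nat_lit 254364) (.g (nat_lit 3044) (.e (nat_lit 163975) (nat_lit 30) (.e (nat_lit 573481) (nat_lit 13) (.e (nat_lit 65619) (nat_lit 10) (.e (nat_lit 344117) (nat_lit 21) (.e (nat_lit 516144) (nat_lit 9) (.e (nat_lit 426399) (nat_lit 15) (.e (nat_lit 2046) (nat_lit 142) (.e (nat_lit 704590) (nat_lit 3) .nil)))))))) (.g (nat_lit 4) .nil .nil))) 
(.lf (nat_lit 254396) (.g (nat_lit 2149) (.e (nat_lit 163975) (nat_lit 30) (.e (nat_lit 573491) (nat_lit 15) (.e (nat_lit 81954) (nat_lit 23) (.e (nat_lit 98359) (nat_lit 26) (.e (nat_lit 426372) (nat_lit 15) .nil))))) .nil)))))) (.nd (nat_lit 2) (.nd (nat_lit 3) (.nd (nat_lit 4) (.nd (nat_lit 5) 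
(.lf (nat_lit 254338) (.g (nat_lit 3825) (.e (nat_lit 163975) (nat_lit 30) (.e (nat_lit 573474) (nat_lit 12) (.e (nat_lit 57550) (nat_lit 48) (.e (nat_lit 720945) (nat_lit 23) (.e (nat_lit 98366) (nat_lit 27) (.e (nat_lit 434231) (nat_lit 23) (.e (nat_lit 532519) (nat_lit 5) (.e (nat_lit 147500) (nat_lit 12) .nil)))))))) (.g (nat_lit 6) .nil .nil))) 
(.lf (nat_lit 254370) (.g (nat_lit 4817) (.e (nat_lit 163975) (nat_lit 30) (.e (nat_lit 573481) (nat_lit 13) (.e (nat_lit 65619) (nat_lit 10) (.e (nat_lit 344117) (nat_lit 21) (.e (nat_lit 516151) (nat_lit 9) (.e (nat_lit 426394) (nat_lit 15) (.e (nat_lit 2054) (nat_lit 142) (.e (nat_lit 704590) (nat_lit 3) .nil)))))))) (.g (nat_lit 5) .nil .nil)))) (.nd (nat_lit 5) 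
(.lf (nat_lit 254354) (.g (nat_lit 3188) (.e (nat_lit 163975) (nat_lit 30) (.e (nat_lit 573481) (nat_lit 13) (.e (nat_lit 65604) (nat_lit 9) (.e (nat_lit 336013) (nat_lit 2) (.e (nat_lit 90170) (nat_lit 13) (.e (nat_lit 172135) (nat_lit 15) (.e (nat_lit 2143) (nat_lit 142) (.e (nat_lit 704588) (nat_lit 3) .nil)))))))) (.g (nat_lit 5) .nil .nil))) 
(.lf (nat_lit 254386) (.g (nat_lit 2427) (.e (nat_lit 163975) (nat_lit 30) (.e (nat_lit 573491) (nat_lit 15) (.e (nat_lit 81951) (nat_lit 22) (.e (nat_lit 90170) (nat_lit 13) (.e (nat_lit 172135) (nat_lit 15) (.e (nat_lit 2147) (nat_lit 142) (.e (nat_lit 704588) (nat_lit 3) .nil))))))) (.g (nat_lit 4) .nil .nil))))) (.nd (nat_lit 4) (.nd (nat_lit 5) 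
(.lf (nat_lit 254346) (.g (nat_lit 1017) (.e (nat_lit 163975) (nat_lit 30) (.e (nat_lit 573474) (nat_lit 12) (.e (nat_lit 57560) (nat_lit 50) .nil))) .nil)) 
(.lf (nat_lit 254378) (.g (nat_lit 2209) (.e (nat_lit 163975) (nat_lit 30) (.e (nat_lit 573481) (nat_lit 13) (.e (nat_lit 65619) (nat_lit 10) (.e (nat_lit 344117) (nat_lit 21) (.e (nat_lit 516180) (nat_lit 15) .nil))))) .nil))) (.nd (nat_lit 5) 
(.lf (nat_lit 254362) (.g (nat_lit 2908) (.e (nat_lit 163975) (nat_lit 30) (.e (nat_lit 573481) (nat_lit 13) (.e (nat_lit 65619) (nat_lit 10) (.e (nat_lit 344117) (nat_lit 21) (.e (nat_lit 516144) (nat_lit 9) (.e (nat_lit 426375) (nat_lit 15) (.e (nat_lit 2057) (nat_lit 142) (.e (nat_lit 704590) (nat_lit 3) .nil)))))))) (.g (nat_lit 4) .nil .nil))) 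
(.lf (nat_lit 254394) (.g (nat_lit 2823) (.e (nat_lit 163975) (nat_lit 30) (.e (nat_lit 573491) (nat_lit 15) (.e (nat_lit 81954) (nat_lit 23) (.e (nat_lit 98356) (nat_lit 26) (.e (nat_lit 426399) (nat_lit 15) (.e (nat_lit 2056) (nat_lit 142) (.e (nat_lit 704590) (nat_lit 3) .nil))))))) (.g (nat_lit 4) .nil .nil)))))) (.nd (nat_lit 3) (.nd (nat_lit 4) (.nd (nat_lit 5) 
(.lf (nat_lit 254342) (.g (nat_lit 3268) (.e (nat_lit 163975) (nat_lit 30) (.e (nat_lit 573474) (nat_lit 12) (.e (nat_lit 57551) (nat_lit 48) (.e (nat_lit 720945) (nat_lit 23) (.e (nat_lit 98366) (nat_lit 27) (.e (nat_lit 434231) (nat_lit 23) (.e (nat_lit 532519) (nat_lit 5) (.e (nat_lit 147500) (nat_lit 12) .nil)))))))) (.g (nat_lit 5) .nil .nil))) 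
(.lf (nat_lit 254374) (.g (nat_lit 3284) (.e (nat_lit 163975) (nat_lit 30) (.e (nat_lit 573481) (nat_lit 13) (.e (nat_lit 65619) (nat_lit 10) (.e (nat_lit 344117) (nat_lit 21) (.e (nat_lit 516151) (nat_lit 9) (.e (nat_lit 426407) (nat_lit 15) (.e (nat_lit 2146) (nat_lit 142) (.e (nat_lit 704588) (nat_lit 3) .nil)))))))) (.g (nat_lit 5) .nil .nil)))) (.nd (nat_lit 5) 
(.lf (nat_lit 254358) (.g (nat_lit 4214) (.e (nat_lit 163975) (nat_lit 30) (.e (nat_lit 573481) (nat_lit 13) (.e (nat_lit 65604) (nat_lit 9) (.e (nat_lit 336013) (nat_lit 2) (.e (nat_lit 90170) (nat_lit 13) (.e (nat_lit 172136) (nat_lit 15) (.e (nat_lit 2058) (nat_lit 142) (.e (nat_lit 704590) (nat_lit 3) .nil)))))))) (.g (nat_lit 5) .nil .nil))) 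
(.lf (nat_lit 254390) (.g (nat_lit 3066) (.e (nat_lit 163975) (nat_lit 30) (.e (nat_lit 573491) (nat_lit 15) (.e (nat_lit 81954) (nat_lit 23) (.e (nat_lit 98356) (nat_lit 26) (.e (nat_lit 426374) (nat_lit 15) (.e (nat_lit 2056) (nat_lit 142) (.e (nat_lit 704590) (nat_lit 3) .nil))))))) (.g (nat_lit 4) .nil .nil))))) (.nd (nat_lit 4) (.nd (nat_lit 5) 
(.lf (nat_lit 254350) (.g (nat_lit 3484) (.e (nat_lit 163975) (nat_lit 30) (.e (nat_lit 573481) (nat_lit 13) (.e (nat_lit 65563) (nat_lit 1) (.e (nat_lit 57926) (nat_lit 282) (.e (nat_lit 163943) (nat_lit 19) (.e (nat_lit 483346) (nat_lit 17) (.e (nat_lit 6714) (nat_lit 360) .nil))))))) (.g (nat_lit 6) .nil .nil))) 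
(.lf (nat_lit 254382) (.g (nat_lit 2482) (.e (nat_lit 163975) (nat_lit 30) (.e (nat_lit 573491) (nat_lit 15) (.e (nat_lit 81951) (nat_lit 22) (.e (nat_lit 90170) (nat_lit 13) (.e (nat_lit 172135) (nat_lit 15) (.e (nat_lit 2143) (nat_lit 142) (.e (nat_lit 704588) (nat_lit 3) .nil))))))) (.g (nat_lit 4) .nil .nil)))) (.nd (nat_lit 5) 
(.lf (nat_lit 254366) (.g (nat_lit 4642) (.e (nat_lit 163975) (nat_lit 30) (.e (nat_lit 573481) (nat_lit 13) (.e (nat_lit 65619) (nat_lit 10) (.e (nat_lit 344117) (nat_lit 21) (.e (nat_lit 516145) (nat_lit 9) (.e (nat_lit 426352) (nat_lit 15) (.e (nat_lit 7936) (nat_lit 142) (.e (nat_lit 704590) (nat_lit 3) .nil)))))))) (.g (nat_lit 5) .nil .nil))) 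
(.lf (nat_lit 254398) (.g (nat_lit 2045) (.e (nat_lit 163975) (nat_lit 30) (.e (nat_lit 573491) (nat_lit 15) (.e (nat_lit 81954) (nat_lit 23) (.e (nat_lit 98359) (nat_lit 26) (.e (nat_lit 426407) (nat_lit 15) (.e (nat_lit 2143) (nat_lit 142) (.e (nat_lit 712448) (nat_lit 3) .nil))))))) (.g (nat_lit 4) .nil .nil)))))))) 
(.nd (nat_lit 1) (.nd (nat_lit 2) (.nd (nat_lit 3) (.nd (nat_lit 4) (.nd (nat_lit 5) 
(.lf (nat_lit 254337) (.g (nat_lit 2732) (.e (nat_lit 163975) (nat_lit 30) (.e (nat_lit 573474) (nat_lit 12) (.e (nat_lit 57550) (nat_lit 48) (.e (nat_lit 720941) (nat_lit 22) (.e (nat_lit 90174) (nat_lit 14) (.e (nat_lit 180243) (nat_lit 5) (.e (nat_lit 532519) (nat_lit 5) (.e (nat_lit 147500) (nat_lit 12) .nil)))))))) (.g (nat_lit 5) .nil .nil))) 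
(.lf (nat_lit 254369) (.g (nat_lit 4270) (.e (nat_lit 163975) (nat_lit 30) (.e (nat_lit 573481) (nat_lit 13) (.e (nat_lit 65619) (nat_lit 10) (.e (nat_lit 344117) (nat_lit 21) (.e (nat_lit 516145) (nat_lit 9) (.e (nat_lit 426402) (nat_lit 15) (.e (nat_lit 2045) (nat_lit 142) (.e (nat_lit 704590) (nat_lit 3) .nil)))))))) (.g (nat_lit 5) .nil .nil)))) (.nd (nat_lit 5) 
(.lf (nat_lit 254353) (.g (nat_lit 3698) (.e (nat_lit 163975) (nat_lit 30) (.e (nat_lit 573481) (nat_lit 13) (.e (nat_lit 65598) (nat_lit 9) (.e (nat_lit 336013) (nat_lit 2) (.e (nat_lit 90169) (nat_lit 13) (.e (nat_lit 172133) (nat_lit 15) (.e (nat_lit 2059) (nat_lit 142) (.e (nat_lit 704590) (nat_lit 3) .nil)))))))) (.g (nat_lit 4) .nil .nil))) 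
(.lf (nat_lit 254385) (.g (nat_lit 2462) (.e (nat_lit 163975) (nat_lit 30) (.e (nat_lit 573491) (nat_lit 15) (.e (nat_lit 81951) (nat_lit 22) (.e (nat_lit 90170) (nat_lit 13) (.e (nat_lit 172135) (nat_lit 15) (.e (nat_lit 2146) (nat_lit 142) (.e (nat_lit 712448) (nat_lit 3) .nil))))))) (.g (nat_lit 4) .nil .nil))))) (.nd (nat_lit 4) (.nd (nat_lit 5) 
(.lf (nat_lit 254345) (.g (nat_lit 3221) (.e (nat_lit 163975) (nat_lit 30) (.e (nat_lit 573474) (nat_lit 12) (.e (nat_lit 57555) (nat_lit 49) (.e (nat_lit 729114) (nat_lit 23) (.e (nat_lit 98367) (nat_lit 27) (.e (nat_lit 434231) (nat_lit 23) (.e (nat_lit 532519) (nat_lit 5) (.e (nat_lit 147500) (nat_lit 12) .nil)))))))) (.g (nat_lit 5) .nil .nil))) 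
(.lf (nat_lit 254377) (.g (nat_lit 3151) (.e (nat_lit 163975) (nat_lit 30) (.e (nat_lit 573481) (nat_lit 13) (.e (nat_lit 65619) (nat_lit 10) (.e (nat_lit 344117) (nat_lit 21) (.e (nat_lit 516151) (nat_lit 9) (.e (nat_lit 426407) (nat_lit 15) (.e (nat_lit 2148) (nat_lit 142) (.e (nat_lit 704588) (nat_lit 3) .nil)))))))) (.g (nat_lit 5) .nil .nil)))) (.nd (nat_lit 5) 
(.lf (nat_lit 254361) (.g (nat_lit 2938) (.e (nat_lit 163975) (nat_lit 30) (.e (nat_lit 573481) (nat_lit 13) (.e (nat_lit 65619) (nat_lit 10) (.e (nat_lit 344117) (nat_lit 21) (.e (nat_lit 516143) (nat_lit 9) (.e (nat_lit 426396) (nat_lit 15) (.e (nat_lit 2059) (nat_lit 142) (.e (nat_lit 704590) (nat_lit 3) .nil)))))))) (.g (nat_lit 4) .nil .nil))) 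
(.lf (nat_lit 254393) (.g (nat_lit 3090) (.e (nat_lit 163975) (nat_lit 30) (.e (nat_lit 573491) (nat_lit 15) (.e (nat_lit 81954) (nat_lit 23) (.e (nat_lit 98356) (nat_lit 26) (.e (nat_lit 426393) (nat_lit 15) (.e (nat_lit 2056) (nat_lit 142) (.e (nat_lit 704590) (nat_lit 3) .nil))))))) (.g (nat_lit 4) .nil .nil)))))) (.nd (nat_lit 3) (.nd (nat_lit 4) (.nd (nat_lit 5) 
(.lf (nat_lit 254341) (.g (nat_lit 3494) (.e (nat_lit 163975) (nat_lit 30) (.e (nat_lit 573474) (nat_lit 12) (.e (nat_lit 57551) (nat_lit 48) (.e (nat_lit 720941) (nat_lit 22) (.e (nat_lit 90172) (nat_lit 14) (.e (nat_lit 180244) (nat_lit 5) (.e (nat_lit 532519) (nat_lit 5) (.e (nat_lit 147500) (nat_lit 12) .nil)))))))) (.g (nat_lit 5) .nil .nil))) 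
(.lf (nat_lit 254373) (.g (nat_lit 3446) (.e (nat_lit 163975) (nat_lit 30) (.e (nat_lit 573481) (nat_lit 13) (.e (nat_lit 65619) (nat_lit 10) (.e (nat_lit 344117) (nat_lit 21) (.e (nat_lit 516151) (nat_lit 9) (.e (nat_lit 426407) (nat_lit 15) (.e (nat_lit 2143) (nat_lit 142) (.e (nat_lit 712448) (nat_lit 3) .nil)))))))) (.g (nat_lit 5) .nil .nil)))) (.nd (nat_lit 5) 
(.lf (nat_lit 254357) (.g (nat_lit 2945) (.e (nat_lit 163975) (nat_lit 30) (.e (nat_lit 573481) (nat_lit 13) (.e (nat_lit 65604) (nat_lit 9) (.e (nat_lit 336013) (nat_lit 2) (.e (nat_lit 90170) (nat_lit 13) (.e (nat_lit 172135) (nat_lit 15) (.e (nat_lit 2148) (nat_lit 142) (.e (nat_lit 704588) (nat_lit 3) .nil)))))))) (.g (nat_lit 5) .nil .nil))) 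
(.lf (nat_lit 254389) (.g (nat_lit 2726) (.e (nat_lit 163975) (nat_lit 30) (.e (nat_lit 573491) (nat_lit 15) (.e (nat_lit 81954) (nat_lit 23) (.e (nat_lit 98356) (nat_lit 26) (.e (nat_lit 426350) (nat_lit 15) (.e (nat_lit 2053) (nat_lit 142) (.e (nat_lit 704590) (nat_lit 3) .nil))))))) (.g (nat_lit 4) .nil .nil))))) (.nd (nat_lit 4) (.nd (nat_lit 5) 
(.lf (nat_lit 254349) (.g (nat_lit 3753) (.e (nat_lit 163975) (nat_lit 30) (.e (nat_lit 573480) (nat_lit 13) (.e (nat_lit 65610) (nat_lit 10) (.e (nat_lit 344117) (nat_lit 21) (.e (nat_lit 516151) (nat_lit 9) (.e (nat_lit 426412) (nat_lit 15) (.e (nat_lit 2059) (nat_lit 142) (.e (nat_lit 704590) (nat_lit 3) .nil)))))))) (.g (nat_lit 5) .nil .nil))) 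
(.lf (nat_lit 254381) (.g (nat_lit 3210) (.e (nat_lit 163975) (nat_lit 30) (.e (nat_lit 573491) (nat_lit 15) (.e (nat_lit 81951) (nat_lit 22) (.e (nat_lit 90170) (nat_lit 13) (.e (nat_lit 172134) (nat_lit 15) .nil))))) .nil))) (.nd (nat_lit 5) 
(.lf (nat_lit 254365) (.g (nat_lit 3087) (.e (nat_lit 163975) (nat_lit 30) (.e (nat_lit 573481) (nat_lit 13) (.e (nat_lit 65619) (nat_lit 10) (.e (nat_lit 344117) (nat_lit 21) (.e (nat_lit 516144) (nat_lit 9) (.e (nat_lit 426399) (nat_lit 15) (.e (nat_lit 2048) (nat_lit 142) (.e (nat_lit 704590) (nat_lit 3) .nil)))))))) (.g (nat_lit 4) .nil .nil))) 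
(.lf (nat_lit 254397) (.g (nat_lit 2158) (.e (nat_lit 163975) (nat_lit 30) (.e (nat_lit 573491) (nat_lit 15) (.e (nat_lit 81954) (nat_lit 23) (.e (nat_lit 98359) (nat_lit 26) (.e (nat_lit 426407) (nat_lit 15) (.e (nat_lit 2143) (nat_lit 142) (.e (nat_lit 704588) (nat_lit 3) .nil))))))) (.g (nat_lit 4) .nil .nil))))))) (.nd (nat_lit 2) (.nd (nat_lit 3) (.nd (nat_lit 4) (.nd (nat_lit 5) 
(.lf (nat_lit 254339) (.g (nat_lit 3630) (.e (nat_lit 163975) (nat_lit 30) (.e (nat_lit 573474) (nat_lit 12) (.e (nat_lit 57550) (nat_lit 48) (.e (nat_lit 720945) (nat_lit 23) (.e (nat_lit 98367) (nat_lit 27) (.e (nat_lit 434231) (nat_lit 23) (.e (nat_lit 532519) (nat_lit 5) (.e (nat_lit 147500) (nat_lit 12) .nil)))))))) (.g (nat_lit 6) .nil .nil))) 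
(.lf (nat_lit 254371) (.g (nat_lit 4605) (.e (nat_lit 163975) (nat_lit 30) (.e (nat_lit 573481) (nat_lit 13) (.e (nat_lit 65619) (nat_lit 10) (.e (nat_lit 344117) (nat_lit 21) (.e (nat_lit 516151) (nat_lit 9) (.e (nat_lit 426396) (nat_lit 15) (.e (nat_lit 2059) (nat_lit 142) (.e (nat_lit 704590) (nat_lit 3) .nil)))))))) (.g (nat_lit 6) .nil .nil)))) (.nd (nat_lit 5) 
(.lf (nat_lit 254355) (.g (nat_lit 3098) (.e (nat_lit 163975) (nat_lit 30) (.e (nat_lit 573481) (nat_lit 13) (.e (nat_lit 65604) (nat_lit 9) (.e (nat_lit 336013) (nat_lit 2) (.e (nat_lit 90170) (nat_lit 13) (.e (nat_lit 172135) (nat_lit 15) (.e (nat_lit 2146) (nat_lit 142) (.e (nat_lit 704588) (nat_lit 3) .nil)))))))) (.g (nat_lit 5) .nil .nil))) 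
(.lf (nat_lit 254387) (.g (nat_lit 2248) (.e (nat_lit 163975) (nat_lit 30) (.e (nat_lit 573491) (nat_lit 15) (.e (nat_lit 81951) (nat_lit 22) (.e (nat_lit 90170) (nat_lit 13) (.e (nat_lit 172135) (nat_lit 15) (.e (nat_lit 2148) (nat_lit 142) (.e (nat_lit 704588) (nat_lit 3) .nil))))))) (.g (nat_lit 4) .nil .nil))))) (.nd (nat_lit 4) (.nd (nat_lit 5) 
(.lf (nat_lit 254347) (.g (nat_lit 5912) (.e (nat_lit 163975) (nat_lit 30) (.e (nat_lit 573479) (nat_lit 13) (.e (nat_lit 65610) (nat_lit 10) (.e (nat_lit 344117) (nat_lit 21) (.e (nat_lit 516151) (nat_lit 9) (.e (nat_lit 426412) (nat_lit 15) (.e (nat_lit 2059) (nat_lit 142) (.e (nat_lit 704589) (nat_lit 3) .nil)))))))) (.g (nat_lit 8) .nil .nil))) 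
(.lf (nat_lit 254379) (.g (nat_lit 2333) (.e (nat_lit 163975) (nat_lit 30) (.e (nat_lit 573488) (nat_lit 14) (.e (nat_lit 73755) (nat_lit 8) (.e (nat_lit 557103) (nat_lit 14) (.e (nat_lit 180250) (nat_lit 10) .nil))))) .nil))) (.nd (nat_lit 5) 
(.lf (nat_lit 254363) (.g (nat_lit 2988) (.e (nat_lit 163975) (nat_lit 30) (.e (nat_lit 573481) (nat_lit 13) (.e (nat_lit 65619) (nat_lit 10) (.e (nat_lit 344117) (nat_lit 21) (.e (nat_lit 516144) (nat_lit 9) (.e (nat_lit 426379) (nat_lit 15) (.e (nat_lit 2056) (nat_lit 142) (.e (nat_lit 704590) (nat_lit 3) .nil)))))))) (.g (nat_lit 4) .nil .nil))) 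
(.lf (nat_lit 254395) (.g (nat_lit 2981) (.e (nat_lit 163975) (nat_lit 30) (.e (nat_lit 573491) (nat_lit 15) (.e (nat_lit 81954) (nat_lit 23) (.e (nat_lit 98356) (nat_lit 26) (.e (nat_lit 426420) (nat_lit 15) (.e (nat_lit 2056) (nat_lit 142) (.e (nat_lit 704590) (nat_lit 3) .nil))))))) (.g (nat_lit 4) .nil .nil)))))) (.nd (nat_lit 3) (.nd (nat_lit 4) (.nd (nat_lit 5) 
(.lf (nat_lit 254343) (.g (nat_lit 3050) (.e (nat_lit 163975) (nat_lit 30) (.e (nat_lit 573474) (nat_lit 12) (.e (nat_lit 57551) (nat_lit 48) (.e (nat_lit 720945) (nat_lit 23) (.e (nat_lit 98367) (nat_lit 27) (.e (nat_lit 434231) (nat_lit 23) (.e (nat_lit 532519) (nat_lit 5) (.e (nat_lit 147500) (nat_lit 12) .nil)))))))) (.g (nat_lit 5) .nil .nil))) 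
(.lf (nat_lit 254375) (.g (nat_lit 3492) (.e (nat_lit 163975) (nat_lit 30) (.e (nat_lit 573481) (nat_lit 13) (.e (nat_lit 65619) (nat_lit 10) (.e (nat_lit 344117) (nat_lit 21) (.e (nat_lit 516151) (nat_lit 9) (.e (nat_lit 426407) (nat_lit 15) (.e (nat_lit 2146) (nat_lit 142) (.e (nat_lit 712448) (nat_lit 3) .nil)))))))) (.g (nat_lit 6) .nil .nil)))) (.nd (nat_lit 5) 
(.lf (nat_lit 254359) (.g (nat_lit 3098) (.e (nat_lit 163975) (nat_lit 30) (.e (nat_lit 573481) (nat_lit 13) (.e (nat_lit 65609) (nat_lit 10) (.e (nat_lit 344117) (nat_lit 21) (.e (nat_lit 516151) (nat_lit 9) (.e (nat_lit 426412) (nat_lit 15) (.e (nat_lit 2057) (nat_lit 142) (.e (nat_lit 704590) (nat_lit 3) .nil)))))))) (.g (nat_lit 5) .nil .nil))) 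
(.lf (nat_lit 254391) (.g (nat_lit 2846) (.e (nat_lit 163975) (nat_lit 30) (.e (nat_lit 573491) (nat_lit 15) (.e (nat_lit 81954) (nat_lit 23) (.e (nat_lit 98356) (nat_lit 26) (.e (nat_lit 426375) (nat_lit 15) (.e (nat_lit 2056) (nat_lit 142) (.e (nat_lit 704590) (nat_lit 3) .nil))))))) (.g (nat_lit 4) .nil .nil))))) (.nd (nat_lit 4) (.nd (nat_lit 5) 
(.lf (nat_lit 254351) (.g (nat_lit 2747) (.e (nat_lit 163975) (nat_lit 30) (.e (nat_lit 573481) (nat_lit 13) (.e (nat_lit 65563) (nat_lit 1) (.e (nat_lit 57927) (nat_lit 282) (.e (nat_lit 163943) (nat_lit 19) (.e (nat_lit 483345) (nat_lit 17) (.e (nat_lit 6714) (nat_lit 360) .nil))))))) (.g (nat_lit 5) .nil .nil))) 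
(.lf (nat_lit 254383) (.g (nat_lit 2433) (.e (nat_lit 163975) (nat_lit 30) (.e (nat_lit 573491) (nat_lit 15) (.e (nat_lit 81951) (nat_lit 22) (.e (nat_lit 90170) (nat_lit 13) (.e (nat_lit 172135) (nat_lit 15) (.e (nat_lit 2143) (nat_lit 142) (.e (nat_lit 712448) (nat_lit 3) .nil))))))) (.g (nat_lit 4) .nil .nil)))) (.nd (nat_lit 5) 
(.lf (nat_lit 254367) (.g (nat_lit 4545) (.e (nat_lit 163975) (nat_lit 30) (.e (nat_lit 573481) (nat_lit 13) (.e (nat_lit 65619) (nat_lit 10) (.e (nat_lit 344117) (nat_lit 21) (.e (nat_lit 516145) (nat_lit 9) (.e (nat_lit 426357) (nat_lit 15) (.e (nat_lit 2054) (nat_lit 142) (.e (nat_lit 704590) (nat_lit 3) .nil)))))))) (.g (nat_lit 5) .nil .nil))) 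
(.lf (nat_lit 254399) (.g (nat_lit 2079) (.e (nat_lit 163975) (nat_lit 30) (.e (nat_lit 573491) (nat_lit 15) (.e (nat_lit 81954) (nat_lit 23) (.e (nat_lit 98359) (nat_lit 26) (.e (nat_lit 426407) (nat_lit 15) (.e (nat_lit 2146) (nat_lit 142) (.e (nat_lit 704588) (nat_lit 3) .nil))))))) (.g (nat_lit 4) .nil .nil)))))))))

noncomputable def tv3299 : DT := (.nd (nat_lit 0) (.nd (nat_lit 1) (.nd (nat_lit 2) (.nd (nat_lit 3) (.nd (nat_lit 4) (.nd (nat_lit 5) 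
(.lf (nat_lit 254400) (.g (nat_lit 2065) (.e (nat_lit 163975) (nat_lit 30) (.e (nat_lit 573491) (nat_lit 15) (.e (nat_lit 81954) (nat_lit 23) (.e (nat_lit 98359) (nat_lit 26) (.e (nat_lit 426407) (nat_lit 15) (.e (nat_lit 2146) (nat_lit 142) (.e (nat_lit 712448) (nat_lit 3) .nil))))))) (.g (nat_lit 4) .nil .nil))) 
(.lf (nat_lit 254432) (.g (nat_lit 2719) (.e (nat_lit 163975) (nat_lit 30) (.e (nat_lit 573492) (nat_lit 15) (.e (nat_lit 81956) (nat_lit 23) (.e (nat_lit 98359) (nat_lit 26) (.e (nat_lit 426407) (nat_lit 15) (.e (nat_lit 2147) (nat_lit 142) (.e (nat_lit 704588) (nat_lit 3) .nil))))))) (.g (nat_lit 4) .nil .nil)))) (.nd (nat_lit 5) 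
(.lf (nat_lit 254416) (.g (nat_lit 3879) (.e (nat_lit 163975) (nat_lit 30) (.e (nat_lit 573492) (nat_lit 15) (.e (nat_lit 81956) (nat_lit 23) (.e (nat_lit 98356) (nat_lit 26) (.e (nat_lit 426374) (nat_lit 15) (.e (nat_lit 2056) (nat_lit 142) (.e (nat_lit 704590) (nat_lit 3) .nil))))))) (.g (nat_lit 4) .nil .nil))) 
(.lf (nat_lit 254448) (.g (nat_lit 3918) (.e (nat_lit 163976) (nat_lit 30) (.e (nat_lit 573451) (nat_lit 9) (.e (nat_lit 1595) (nat_lit 111) (.e (nat_lit 360467) (nat_lit 3) (.e (nat_lit 516146) (nat_lit 9) (.e (nat_lit 426444) (nat_lit 19) (.e (nat_lit 114432) (nat_lit 3) .nil))))))) (.g (nat_lit 6) .nil .nil))))) (.nd (nat_lit 4) (.nd (nat_lit 5) 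
(.lf (nat_lit 254408) (.g (nat_lit 2561) (.e (nat_lit 163975) (nat_lit 30) (.e (nat_lit 573492) (nat_lit 15) (.e (nat_lit 81953) (nat_lit 22) (.e (nat_lit 90170) (nat_lit 13) (.e (nat_lit 172135) (nat_lit 15) (.e (nat_lit 2146) (nat_lit 142) (.e (nat_lit 712448) (nat_lit 3) .nil))))))) (.g (nat_lit 4) .nil .nil))) 
(.lf (nat_lit 254440) (.g (nat_lit 2768) (.e (nat_lit 163976) (nat_lit 30) (.e (nat_lit 573449) (nat_lit 9) (.e (nat_lit 1615) (nat_lit 113) (.e (nat_lit 376865) (nat_lit 22) (.e (nat_lit 90185) (nat_lit 17) (.e (nat_lit 237582) (nat_lit 1) (.e (nat_lit 164348) (nat_lit 240) (.e (nat_lit 2599) (nat_lit 163) .nil)))))))) (.g (nat_lit 5) .nil .nil)))) (.nd (nat_lit 5) 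
(.lf (nat_lit 254424) (.g (nat_lit 3835) (.e (nat_lit 163975) (nat_lit 30) (.e (nat_lit 573492) (nat_lit 15) (.e (nat_lit 81956) (nat_lit 23) (.e (nat_lit 98356) (nat_lit 26) (.e (nat_lit 426420) (nat_lit 15) (.e (nat_lit 2056) (nat_lit 142) (.e (nat_lit 704590) (nat_lit 3) .nil))))))) (.g (nat_lit 4) .nil .nil))) 
(.lf (nat_lit 254456) (.g (nat_lit 2609) (.e (nat_lit 163976) (nat_lit 30) (.e (nat_lit 573474) (nat_lit 12) (.e (nat_lit 57544) (nat_lit 47) (.e (nat_lit 712729) (nat_lit 18) (.e (nat_lit 204862) (nat_lit 27) (.e (nat_lit 344117) (nat_lit 21) (.e (nat_lit 516123) (nat_lit 2) (.e (nat_lit 213033) (nat_lit 12) .nil)))))))) (.g (nat_lit 5) .nil .nil)))))) 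
(.nd (nat_lit 3) (.nd (nat_lit 4) (.nd (nat_lit 5) 
(.lf (nat_lit 254404) (.g (nat_lit 3319) (.e (nat_lit 163975) (nat_lit 30) (.e (nat_lit 573492) (nat_lit 15) (.e (nat_lit 81953) (nat_lit 22) (.e (nat_lit 90170) (nat_lit 13) (.e (nat_lit 172134) (nat_lit 15) .nil))))) .nil)) 
(.lf (nat_lit 254436) (.g (nat_lit 558) (.e (nat_lit 163975) (nat_lit 30) (.e (nat_lit 573503) (nat_lit 18) (.e (nat_lit 1349) (nat_lit 102) .nil))) .nil))) (.nd (nat_lit 5) 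
(.lf (nat_lit 254420) (.g (nat_lit 3899) (.e (nat_lit 163975) (nat_lit 30) (.e (nat_lit 573492) (nat_lit 15) (.e (nat_lit 81956) (nat_lit 23) (.e (nat_lit 98356) (nat_lit 26) (.e (nat_lit 426393) (nat_lit 15) (.e (nat_lit 2056) (nat_lit 142) (.e (nat_lit 704590) (nat_lit 3) .nil))))))) (.g (nat_lit 4) .nil .nil))) 
(.lf (nat_lit 254452) (.g (nat_lit 4747) (.e (nat_lit 163976) (nat_lit 30) (.e (nat_lit 573451) (nat_lit 9) (.e (nat_lit 1595) (nat_lit 111) (.e (nat_lit 360467) (nat_lit 3) (.e (nat_lit 516179) (nat_lit 15) (.e (nat_lit 475199) (nat_lit 40) (.e (nat_lit 704589) (nat_lit 3) .nil))))))) (.g (nat_lit 7) .nil .nil))))) (.nd (nat_lit 4) (.nd (nat_lit 5) 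
(.lf (nat_lit 254412) (.g (nat_lit 3761) (.e (nat_lit 163975) (nat_lit 30) (.e (nat_lit 573492) (nat_lit 15) (.e (nat_lit 81956) (nat_lit 23) (.e (nat_lit 98356) (nat_lit 26) (.e (nat_lit 426352) (nat_lit 15) (.e (nat_lit 7936) (nat_lit 142) (.e (nat_lit 704590) (nat_lit 3) .nil))))))) (.g (nat_lit 4) .nil .nil))) 
(.lf (nat_lit 254444) (.g (nat_lit 1536) (.e (nat_lit 163976) (nat_lit 30) (.e (nat_lit 573451) (nat_lit 9) (.e (nat_lit 1595) (nat_lit 111) (.e (nat_lit 360466) (nat_lit 3) .nil)))) .nil))) (.nd (nat_lit 5) 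
(.lf (nat_lit 254428) (.g (nat_lit 2780) (.e (nat_lit 163975) (nat_lit 30) (.e (nat_lit 573492) (nat_lit 15) (.e (nat_lit 81956) (nat_lit 23) (.e (nat_lit 98359) (nat_lit 26) (.e (nat_lit 426407) (nat_lit 15) (.e (nat_lit 2143) (nat_lit 142) (.e (nat_lit 704588) (nat_lit 3) .nil))))))) (.g (nat_lit 4) .nil .nil))) 
(.lf (nat_lit 254460) (.g (nat_lit 2284) (.e (nat_lit 163976) (nat_lit 30) (.e (nat_lit 573474) (nat_lit 12) (.e (nat_lit 57549) (nat_lit 48) (.e (nat_lit 720937) (nat_lit 22) (.e (nat_lit 90172) (nat_lit 14) (.e (nat_lit 180244) (nat_lit 5) (.e (nat_lit 532519) (nat_lit 5) (.e (nat_lit 147500) (nat_lit 12) .nil)))))))) (.g (nat_lit 4) .nil .nil))))))) 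
(.nd (nat_lit 2) (.nd (nat_lit 3) (.nd (nat_lit 4) (.nd (nat_lit 5) 
(.lf (nat_lit 254402) (.g (nat_lit 1941) (.e (nat_lit 163975) (nat_lit 30) (.e (nat_lit 573491) (nat_lit 15) (.e (nat_lit 81954) (nat_lit 23) (.e (nat_lit 98359) (nat_lit 26) (.e (nat_lit 426407) (nat_lit 15) (.e (nat_lit 2148) (nat_lit 142) (.e (nat_lit 704588) (nat_lit 3) .nil))))))) (.g (nat_lit 4) .nil .nil))) 
(.lf (nat_lit 254434) (.g (nat_lit 3855) (.e (nat_lit 163975) (nat_lit 30) (.e (nat_lit 573496) (nat_lit 17) (.e (nat_lit 131109) (nat_lit 9) (.e (nat_lit 336019) (nat_lit 3) (.e (nat_lit 98384) (nat_lit 32) (.e (nat_lit 475199) (nat_lit 40) (.e (nat_lit 704589) (nat_lit 3) .nil))))))) (.g (nat_lit 0) .nil .nil)))) (.nd (nat_lit 5) 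
(.lf (nat_lit 254418) (.g (nat_lit 3595) (.e (nat_lit 163975) (nat_lit 30) (.e (nat_lit 573492) (nat_lit 15) (.e (nat_lit 81956) (nat_lit 23) (.e (nat_lit 98356) (nat_lit 26) (.e (nat_lit 426375) (nat_lit 15) (.e (nat_lit 2058) (nat_lit 142) (.e (nat_lit 704590) (nat_lit 3) .nil))))))) (.g (nat_lit 4) .nil .nil))) 
(.lf (nat_lit 254450) (.g (nat_lit 2146) (.e (nat_lit 163976) (nat_lit 30) (.e (nat_lit 573451) (nat_lit 9) (.e (nat_lit 1595) (nat_lit 111) (.e (nat_lit 360467) (nat_lit 3) (.e (nat_lit 516169) (nat_lit 13) .nil))))) .nil)))) (.nd (nat_lit 4) (.nd (nat_lit 5) 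
(.lf (nat_lit 254410) (.g (nat_lit 2379) (.e (nat_lit 163975) (nat_lit 30) (.e (nat_lit 573492) (nat_lit 15) (.e (nat_lit 81953) (nat_lit 22) (.e (nat_lit 90170) (nat_lit 13) (.e (nat_lit 172135) (nat_lit 15) (.e (nat_lit 2148) (nat_lit 142) (.e (nat_lit 704588) (nat_lit 3) .nil))))))) (.g (nat_lit 4) .nil .nil))) 
(.lf (nat_lit 254442) (.g (nat_lit 2394) (.e (nat_lit 163976) (nat_lit 30) (.e (nat_lit 573449) (nat_lit 9) (.e (nat_lit 1615) (nat_lit 113) (.e (nat_lit 376865) (nat_lit 22) (.e (nat_lit 90185) (nat_lit 17) (.e (nat_lit 237584) (nat_lit 1) (.e (nat_lit 164347) (nat_lit 240) (.e (nat_lit 2599) (nat_lit 163) .nil)))))))) (.g (nat_lit 5) .nil .nil)))) (.nd (nat_lit 5) 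
(.lf (nat_lit 254426) (.g (nat_lit 2666) (.e (nat_lit 163975) (nat_lit 30) (.e (nat_lit 573492) (nat_lit 15) (.e (nat_lit 81956) (nat_lit 23) (.e (nat_lit 98359) (nat_lit 26) (.e (nat_lit 426372) (nat_lit 15) (.e (nat_lit 2148) (nat_lit 142) (.e (nat_lit 704588) (nat_lit 3) .nil))))))) (.g (nat_lit 4) .nil .nil))) 
(.lf (nat_lit 254458) (.g (nat_lit 809) (.e (nat_lit 163976) (nat_lit 30) (.e (nat_lit 573474) (nat_lit 12) (.e (nat_lit 57549) (nat_lit 48) .nil))) .nil))))) (.nd (nat_lit 3) (.nd (nat_lit 4) (.nd (nat_lit 5) 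
(.lf (nat_lit 254406) (.g (nat_lit 2532) (.e (nat_lit 163975) (nat_lit 30) (.e (nat_lit 573492) (nat_lit 15) (.e (nat_lit 81953) (nat_lit 22) (.e (nat_lit 90170) (nat_lit 13) (.e (nat_lit 172135) (nat_lit 15) (.e (nat_lit 2143) (nat_lit 142) (.e (nat_lit 712448) (nat_lit 3) .nil))))))) (.g (nat_lit 4) .nil .nil))) 
(.lf (nat_lit 254438) (.g (nat_lit 1476) (.e (nat_lit 163976) (nat_lit 30) (.e (nat_lit 573449) (nat_lit 9) (.e (nat_lit 1615) (nat_lit 113) (.e (nat_lit 376862) (nat_lit 22) (.e (nat_lit 90185) (nat_lit 17) .nil))))) .nil))) (.nd (nat_lit 5) 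
(.lf (nat_lit 254422) (.g (nat_lit 3585) (.e (nat_lit 163975) (nat_lit 30) (.e (nat_lit 573492) (nat_lit 15) (.e (nat_lit 81956) (nat_lit 23) (.e (nat_lit 98356) (nat_lit 26) (.e (nat_lit 426399) (nat_lit 15) (.e (nat_lit 2048) (nat_lit 142) (.e (nat_lit 704590) (nat_lit 3) .nil))))))) (.g (nat_lit 4) .nil .nil))) 
(.lf (nat_lit 254454) (.g (nat_lit 1104) (.e (nat_lit 163976) (nat_lit 30) (.e (nat_lit 573474) (nat_lit 12) (.e (nat_lit 57528) (nat_lit 46) .nil))) .nil)))) (.nd (nat_lit 4) (.nd (nat_lit 5) 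
(.lf (nat_lit 254414) (.g (nat_lit 3859) (.e (nat_lit 163975) (nat_lit 30) (.e (nat_lit 573492) (nat_lit 15) (.e (nat_lit 81956) (nat_lit 23) (.e (nat_lit 98356) (nat_lit 26) (.e (nat_lit 426357) (nat_lit 15) (.e (nat_lit 2054) (nat_lit 142) (.e (nat_lit 704590) (nat_lit 3) .nil))))))) (.g (nat_lit 4) .nil .nil))) 
(.lf (nat_lit 254446) (.g (nat_lit 2179) (.e (nat_lit 163976) (nat_lit 30) (.e (nat_lit 573451) (nat_lit 9) (.e (nat_lit 1595) (nat_lit 111) (.e (nat_lit 360466) (nat_lit 3) (.e (nat_lit 516182) (nat_lit 15) .nil))))) .nil))) (.nd (nat_lit 5) 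
(.lf (nat_lit 254430) (.g (nat_lit 2701) (.e (nat_lit 163975) (nat_lit 30) (.e (nat_lit 573492) (nat_lit 15) (.e (nat_lit 81956) (nat_lit 23) (.e (nat_lit 98359) (nat_lit 26) (.e (nat_lit 426407) (nat_lit 15) (.e (nat_lit 2146) (nat_lit 142) (.e (nat_lit 704588) (nat_lit 3) .nil))))))) (.g (nat_lit 4) .nil .nil))) 
(.lf (nat_lit 254462) (.g (nat_lit 2376) (.e (nat_lit 163976) (nat_lit 30) (.e (nat_lit 573474) (nat_lit 12) (.e (nat_lit 57549) (nat_lit 48) (.e (nat_lit 720940) (nat_lit 22) (.e (nat_lit 90170) (nat_lit 13) (.e (nat_lit 172062) (nat_lit 2) (.e (nat_lit 196661) (nat_lit 12) (.e (nat_lit 57574) (nat_lit 55) (.e (nat_lit 778472) (nat_lit 12) .nil))))))))) (.g (nat_lit 4) .nil .nil)))))))) 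
(.nd (nat_lit 1) (.nd (nat_lit 2) (.nd (nat_lit 3) (.nd (nat_lit 4) (.nd (nat_lit 5) 
(.lf (nat_lit 254401) (.g (nat_lit 2095) (.e (nat_lit 163975) (nat_lit 30) (.e (nat_lit 573491) (nat_lit 15) (.e (nat_lit 81954) (nat_lit 23) (.e (nat_lit 98359) (nat_lit 26) (.e (nat_lit 426407) (nat_lit 15) (.e (nat_lit 2147) (nat_lit 142) (.e (nat_lit 704588) (nat_lit 3) .nil))))))) (.g (nat_lit 4) .nil .nil))) 
(.lf (nat_lit 254433) (.g (nat_lit 2563) (.e (nat_lit 163975) (nat_lit 30) (.e (nat_lit 573492) (nat_lit 15) (.e (nat_lit 81956) (nat_lit 23) (.e (nat_lit 98359) (nat_lit 26) (.e (nat_lit 426407) (nat_lit 15) (.e (nat_lit 2148) (nat_lit 142) (.e (nat_lit 704588) (nat_lit 3) .nil))))))) (.g (nat_lit 4) .nil .nil)))) (.nd (nat_lit 5) 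
(.lf (nat_lit 254417) (.g (nat_lit 3683) (.e (nat_lit 163975) (nat_lit 30) (.e (nat_lit 573492) (nat_lit 15) (.e (nat_lit 81956) (nat_lit 23) (.e (nat_lit 98356) (nat_lit 26) (.e (nat_lit 426375) (nat_lit 15) (.e (nat_lit 2056) (nat_lit 142) (.e (nat_lit 704590) (nat_lit 3) .nil))))))) (.g (nat_lit 4) .nil .nil))) 
(.lf (nat_lit 254449) (.g (nat_lit 3048) (.e (nat_lit 163976) (nat_lit 30) (.e (nat_lit 573451) (nat_lit 9) (.e (nat_lit 1595) (nat_lit 111) (.e (nat_lit 360467) (nat_lit 3) (.e (nat_lit 516158) (nat_lit 9) (.e (nat_lit 426107) (nat_lit 1) (.e (nat_lit 164347) (nat_lit 240) (.e (nat_lit 2599) (nat_lit 163) .nil)))))))) (.g (nat_lit 5) .nil .nil))))) (.nd (nat_lit 4) (.nd (nat_lit 5) 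
(.lf (nat_lit 254409) (.g (nat_lit 2563) (.e (nat_lit 163975) (nat_lit 30) (.e (nat_lit 573492) (nat_lit 15) (.e (nat_lit 81953) (nat_lit 22) (.e (nat_lit 90170) (nat_lit 13) (.e (nat_lit 172135) (nat_lit 15) (.e (nat_lit 2147) (nat_lit 142) (.e (nat_lit 704588) (nat_lit 3) .nil))))))) (.g (nat_lit 4) .nil .nil))) 
(.lf (nat_lit 254441) (.g (nat_lit 1734) (.e (nat_lit 163976) (nat_lit 30) (.e (nat_lit 573449) (nat_lit 9) (.e (nat_lit 1615) (nat_lit 113) (.e (nat_lit 376865) (nat_lit 22) (.e (nat_lit 90185) (nat_lit 17) (.e (nat_lit 237584) (nat_lit 1) (.e (nat_lit 164345) (nat_lit 240) (.e (nat_lit 2601) (nat_lit 163) .nil)))))))) (.g (nat_lit 4) .nil .nil)))) (.nd (nat_lit 5) 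
(.lf (nat_lit 254425) (.g (nat_lit 2452) (.e (nat_lit 163975) (nat_lit 30) (.e (nat_lit 573492) (nat_lit 15) (.e (nat_lit 81956) (nat_lit 23) (.e (nat_lit 98359) (nat_lit 26) (.e (nat_lit 426372) (nat_lit 15) .nil))))) .nil)) 
(.lf (nat_lit 254457) (.g (nat_lit 2086) (.e (nat_lit 163976) (nat_lit 30) (.e (nat_lit 573474) (nat_lit 12) (.e (nat_lit 57546) (nat_lit 47) (.e (nat_lit 712729) (nat_lit 18) (.e (nat_lit 204862) (nat_lit 27) (.e (nat_lit 344117) (nat_lit 21) (.e (nat_lit 516123) (nat_lit 2) (.e (nat_lit 213033) (nat_lit 12) .nil)))))))) (.g (nat_lit 5) .nil .nil)))))) 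
(.nd (nat_lit 3) (.nd (nat_lit 4) (.nd (nat_lit 5) 
(.lf (nat_lit 254405) (.g (nat_lit 2607) (.e (nat_lit 163975) (nat_lit 30) (.e (nat_lit 573492) (nat_lit 15) (.e (nat_lit 81953) (nat_lit 22) (.e (nat_lit 90170) (nat_lit 13) (.e (nat_lit 172135) (nat_lit 15) (.e (nat_lit 2143) (nat_lit 142) (.e (nat_lit 704588) (nat_lit 3) .nil))))))) (.g (nat_lit 4) .nil .nil))) 
(.lf (nat_lit 254437) (.g (nat_lit 4631) (.e (nat_lit 163975) (nat_lit 30) (.e (nat_lit 573503) (nat_lit 18) (.e (nat_lit 1349) (nat_lit 102) (.e (nat_lit 286761) (nat_lit 13) (.e (nat_lit 393251) (nat_lit 18) (.e (nat_lit 164179) (nat_lit 154) (.e (nat_lit 57346) (nat_lit 0) (.e (nat_lit 6712) (nat_lit 360) .nil)))))))) (.g (nat_lit 5) .nil .nil)))) (.nd (nat_lit 5) 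
(.lf (nat_lit 254421) (.g (nat_lit 3674) (.e (nat_lit 163975) (nat_lit 30) (.e (nat_lit 573492) (nat_lit 15) (.e (nat_lit 81956) (nat_lit 23) (.e (nat_lit 98356) (nat_lit 26) (.e (nat_lit 426399) (nat_lit 15) (.e (nat_lit 2045) (nat_lit 142) (.e (nat_lit 704590) (nat_lit 3) .nil))))))) (.g (nat_lit 4) .nil .nil))) 
(.lf (nat_lit 254453) (.g (nat_lit 2358) (.e (nat_lit 163976) (nat_lit 30) (.e (nat_lit 573451) (nat_lit 9) (.e (nat_lit 1595) (nat_lit 111) (.e (nat_lit 360467) (nat_lit 3) (.e (nat_lit 516182) (nat_lit 15) (.e (nat_lit 475197) (nat_lit 40) (.e (nat_lit 704589) (nat_lit 3) .nil))))))) (.g (nat_lit 4) .nil .nil))))) (.nd (nat_lit 4) (.nd (nat_lit 5) 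
(.lf (nat_lit 254413) (.g (nat_lit 3911) (.e (nat_lit 163975) (nat_lit 30) (.e (nat_lit 573492) (nat_lit 15) (.e (nat_lit 81956) (nat_lit 23) (.e (nat_lit 98356) (nat_lit 26) (.e (nat_lit 426355) (nat_lit 15) (.e (nat_lit 2054) (nat_lit 142) (.e (nat_lit 704590) (nat_lit 3) .nil))))))) (.g (nat_lit 4) .nil .nil))) 
(.lf (nat_lit 254445) (.g (nat_lit 3795) (.e (nat_lit 163976) (nat_lit 30) (.e (nat_lit 573451) (nat_lit 9) (.e (nat_lit 1595) (nat_lit 111) (.e (nat_lit 360466) (nat_lit 3) (.e (nat_lit 516179) (nat_lit 15) (.e (nat_lit 475198) (nat_lit 40) (.e (nat_lit 704589) (nat_lit 3) .nil))))))) (.g (nat_lit 6) .nil .nil)))) (.nd (nat_lit 5) 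
(.lf (nat_lit 254429) (.g (nat_lit 2611) (.e (nat_lit 163975) (nat_lit 30) (.e (nat_lit 573492) (nat_lit 15) (.e (nat_lit 81956) (nat_lit 23) (.e (nat_lit 98359) (nat_lit 26) (.e (nat_lit 426407) (nat_lit 15) (.e (nat_lit 2143) (nat_lit 142) (.e (nat_lit 712448) (nat_lit 3) .nil))))))) (.g (nat_lit 4) .nil .nil))) 
(.lf (nat_lit 254461) (.g (nat_lit 2457) (.e (nat_lit 163976) (nat_lit 30) (.e (nat_lit 573474) (nat_lit 12) (.e (nat_lit 57549) (nat_lit 48) (.e (nat_lit 720938) (nat_lit 22) (.e (nat_lit 90172) (nat_lit 14) (.e (nat_lit 180244) (nat_lit 5) (.e (nat_lit 532519) (nat_lit 5) (.e (nat_lit 147498) (nat_lit 12) .nil)))))))) (.g (nat_lit 5) .nil .nil))))))) 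
(.nd (nat_lit 2) (.nd (nat_lit 3) (.nd (nat_lit 4) (.nd (nat_lit 5) 
(.lf (nat_lit 254403) (.g (nat_lit 2751) (.e (nat_lit 163975) (nat_lit 30) (.e (nat_lit 573492) (nat_lit 15) (.e (nat_lit 81953) (nat_lit 22) (.e (nat_lit 90169) (nat_lit 13) (.e (nat_lit 172130) (nat_lit 15) .nil))))) .nil)) 
(.lf (nat_lit 254435) (.g (nat_lit 3718) (.e (nat_lit 163975) (nat_lit 30) (.e (nat_lit 573497) (nat_lit 17) (.e (nat_lit 131109) (nat_lit 9) (.e (nat_lit 336019) (nat_lit 3) (.e (nat_lit 98384) (nat_lit 32) (.e (nat_lit 475199) (nat_lit 40) (.e (nat_lit 704589) (nat_lit 3) .nil))))))) (.g (nat_lit 0) .nil .nil)))) (.nd (nat_lit 5) 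
(.lf (nat_lit 254419) (.g (nat_lit 3844) (.e (nat_lit 163975) (nat_lit 30) (.e (nat_lit 573492) (nat_lit 15) (.e (nat_lit 81956) (nat_lit 23) (.e (nat_lit 98356) (nat_lit 26) (.e (nat_lit 426376) (nat_lit 15) (.e (nat_lit 2056) (nat_lit 142) (.e (nat_lit 704590) (nat_lit 3) .nil))))))) (.g (nat_lit 4) .nil .nil))) 
(.lf (nat_lit 254451) (.g (nat_lit 2145) (.e (nat_lit 163976) (nat_lit 30) (.e (nat_lit 573451) (nat_lit 9) (.e (nat_lit 1595) (nat_lit 111) (.e (nat_lit 360467) (nat_lit 3) (.e (nat_lit 516171) (nat_lit 13) .nil))))) .nil)))) (.nd (nat_lit 4) (.nd (nat_lit 5) 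
(.lf (nat_lit 254411) (.g (nat_lit 4099) (.e (nat_lit 163975) (nat_lit 30) (.e (nat_lit 573492) (nat_lit 15) (.e (nat_lit 81956) (nat_lit 23) (.e (nat_lit 98356) (nat_lit 26) (.e (nat_lit 426350) (nat_lit 15) (.e (nat_lit 2054) (nat_lit 142) (.e (nat_lit 704590) (nat_lit 3) .nil))))))) (.g (nat_lit 4) .nil .nil))) 
(.lf (nat_lit 254443) (.g (nat_lit 1576) (.e (nat_lit 163976) (nat_lit 30) (.e (nat_lit 573451) (nat_lit 9) (.e (nat_lit 1595) (nat_lit 111) (.e (nat_lit 360465) (nat_lit 3) .nil)))) .nil))) (.nd (nat_lit 5) 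
(.lf (nat_lit 254427) (.g (nat_lit 2623) (.e (nat_lit 163975) (nat_lit 30) (.e (nat_lit 573492) (nat_lit 15) (.e (nat_lit 81956) (nat_lit 23) (.e (nat_lit 98359) (nat_lit 26) (.e (nat_lit 426406) (nat_lit 15) .nil))))) .nil)) 
(.lf (nat_lit 254459) (.g (nat_lit 2715) (.e (nat_lit 163976) (nat_lit 30) (.e (nat_lit 573474) (nat_lit 12) (.e (nat_lit 57549) (nat_lit 48) (.e (nat_lit 720937) (nat_lit 22) (.e (nat_lit 90172) (nat_lit 14) (.e (nat_lit 180244) (nat_lit 5) (.e (nat_lit 532519) (nat_lit 5) (.e (nat_lit 147498) (nat_lit 12) .nil)))))))) (.g (nat_lit 5) .nil .nil)))))) 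
(.nd (nat_lit 3) (.nd (nat_lit 4) (.nd (nat_lit 5) 
(.lf (nat_lit 254407) (.g (nat_lit 2519) (.e (nat_lit 163975) (nat_lit 30) (.e (nat_lit 573492) (nat_lit 15) (.e (nat_lit 81953) (nat_lit 22) (.e (nat_lit 90170) (nat_lit 13) (.e (nat_lit 172135) (nat_lit 15) (.e (nat_lit 2146) (nat_lit 142) (.e (nat_lit 704588) (nat_lit 3) .nil))))))) (.g (nat_lit 4) .nil .nil))) 
(.lf (nat_lit 254439) (.g (nat_lit 1685) (.e (nat_lit 163976) (nat_lit 30) (.e (nat_lit 573449) (nat_lit 9) (.e (nat_lit 1615) (nat_lit 113) (.e (nat_lit 376862) (nat_lit 22) (.e (nat_lit 90185) (nat_lit 17) (.e (nat_lit 237582) (nat_lit 1) (.e (nat_lit 164348) (nat_lit 240) (.e (nat_lit 2599) (nat_lit 163) .nil)))))))) (.g (nat_lit 4) .nil .nil)))) (.nd (nat_lit 5) 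
(.lf (nat_lit 254423) (.g (nat_lit 3713) (.e (nat_lit 163975) (nat_lit 30) (.e (nat_lit 573492) (nat_lit 15) (.e (nat_lit 81956) (nat_lit 23) (.e (nat_lit 98356) (nat_lit 26) (.e (nat_lit 426402) (nat_lit 15) (.e (nat_lit 2045) (nat_lit 142) (.e (nat_lit 704590) (nat_lit 3) .nil))))))) (.g (nat_lit 4) .nil .nil))) 
(.lf (nat_lit 254455) (.g (nat_lit 876) (.e (nat_lit 163976) (nat_lit 30) (.e (nat_lit 573474) (nat_lit 12) (.e (nat_lit 57543) (nat_lit 47) .nil))) .nil)))) (.nd (nat_lit 4) (.nd (nat_lit 5) 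
(.lf (nat_lit 254415) (.g (nat_lit 3652) (.e (nat_lit 163975) (nat_lit 30) (.e (nat_lit 573492) (nat_lit 15) (.e (nat_lit 81956) (nat_lit 23) (.e (nat_lit 98356) (nat_lit 26) (.e (nat_lit 426364) (nat_lit 15) (.e (nat_lit 2061) (nat_lit 142) (.e (nat_lit 704590) (nat_lit 3) .nil))))))) (.g (nat_lit 4) .nil .nil))) 
(.lf (nat_lit 254447) (.g (nat_lit 1110) (.e (nat_lit 163976) (nat_lit 30) (.e (nat_lit 573451) (nat_lit 9) (.e (nat_lit 1595) (nat_lit 111) (.e (nat_lit 360467) (nat_lit 3) .nil)))) .nil))) (.nd (nat_lit 5) 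
(.lf (nat_lit 254431) (.g (nat_lit 2631) (.e (nat_lit 163975) (nat_lit 30) (.e (nat_lit 573492) (nat_lit 15) (.e (nat_lit 81956) (nat_lit 23) (.e (nat_lit 98359) (nat_lit 26) (.e (nat_lit 426407) (nat_lit 15) (.e (nat_lit 2146) (nat_lit 142) (.e (nat_lit 712448) (nat_lit 3) .nil))))))) (.g (nat_lit 4) .nil .nil))) 
(.lf (nat_lit 254463) (.g (nat_lit 2325) (.e (nat_lit 163976) (nat_lit 30) (.e (nat_lit 573474) (nat_lit 12) (.e (nat_lit 57549) (nat_lit 48) (.e (nat_lit 720940) (nat_lit 22) (.e (nat_lit 90170) (nat_lit 13) (.e (nat_lit 172067) (nat_lit 3) (.e (nat_lit 204842) (nat_lit 22) (.e (nat_lit 147498) (nat_lit 12) .nil)))))))) (.g (nat_lit 5) .nil .nil)))))))))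

noncomputable def tv3300 : DT := (.nd (nat_lit 0) (.nd (nat_lit 1) (.nd (nat_lit 2) (.nd (nat_lit 3) (.nd (nat_lit 4) (.nd (nat_lit 5) 
(.lf (nat_lit 254464) (.g (nat_lit 2711) (.e (nat_lit 163976) (nat_lit 30) (.e (nat_lit 573474) (nat_lit 12) (.e (nat_lit 57549) (nat_lit 48) (.e (nat_lit 720941) (nat_lit 22) (.e (nat_lit 90172) (nat_lit 14) (.e (nat_lit 180244) (nat_lit 5) (.e (nat_lit 532519) (nat_lit 5) (.e (nat_lit 147498) (nat_lit 12) .nil)))))))) (.g (nat_lit 5) .nil .nil))) 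
(.lf (nat_lit 254496) (.g (nat_lit 3144) (.e (nat_lit 163976) (nat_lit 30) (.e (nat_lit 573491) (nat_lit 15) (.e (nat_lit 81951) (nat_lit 22) (.e (nat_lit 90170) (nat_lit 13) (.e (nat_lit 172134) (nat_lit 15) .nil))))) .nil))) (.nd (nat_lit 5) 
(.lf (nat_lit 254480) (.g (nat_lit 3056) (.e (nat_lit 163976) (nat_lit 30) (.e (nat_lit 573474) (nat_lit 12) (.e (nat_lit 57550) (nat_lit 48) (.e (nat_lit 720945) (nat_lit 23) (.e (nat_lit 98367) (nat_lit 27) (.e (nat_lit 434231) (nat_lit 23) (.e (nat_lit 532519) (nat_lit 5) (.e (nat_lit 147498) (nat_lit 12) .nil)))))))) (.g (nat_lit 5) .nil .nil))) 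
(.lf (nat_lit 254512) (.g (nat_lit 4320) (.e (nat_lit 163976) (nat_lit 30) (.e (nat_lit 573503) (nat_lit 18) (.e (nat_lit 1358) (nat_lit 102) (.e (nat_lit 286753) (nat_lit 10) (.e (nat_lit 344117) (nat_lit 21) (.e (nat_lit 516159) (nat_lit 10) (.e (nat_lit 434275) (nat_lit 39) (.e (nat_lit 663584) (nat_lit 12) .nil)))))))) (.g (nat_lit 8) .nil .nil))))) (.nd (nat_lit 4) (.nd (nat_lit 5) 
(.lf (nat_lit 254472) (.g (nat_lit 3107) (.e (nat_lit 163976) (nat_lit 30) (.e (nat_lit 573474) (nat_lit 12) (.e (nat_lit 57550) (nat_lit 48) (.e (nat_lit 720938) (nat_lit 22) (.e (nat_lit 90172) (nat_lit 14) (.e (nat_lit 180244) (nat_lit 5) (.e (nat_lit 532519) (nat_lit 5) (.e (nat_lit 147498) (nat_lit 12) .nil)))))))) (.g (nat_lit 5) .nil .nil))) 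
(.lf (nat_lit 254504) (.g (nat_lit 2592) (.e (nat_lit 163976) (nat_lit 30) (.e (nat_lit 573492) (nat_lit 15) (.e (nat_lit 81953) (nat_lit 22) (.e (nat_lit 90170) (nat_lit 13) (.e (nat_lit 172135) (nat_lit 15) (.e (nat_lit 2147) (nat_lit 142) (.e (nat_lit 704588) (nat_lit 3) .nil))))))) (.g (nat_lit 0) .nil .nil)))) (.nd (nat_lit 5) 
(.lf (nat_lit 254488) (.g (nat_lit 4394) (.e (nat_lit 163976) (nat_lit 30) (.e (nat_lit 573479) (nat_lit 13) (.e (nat_lit 65610) (nat_lit 10) (.e (nat_lit 344117) (nat_lit 21) (.e (nat_lit 516151) (nat_lit 9) (.e (nat_lit 426412) (nat_lit 15) (.e (nat_lit 2058) (nat_lit 142) (.e (nat_lit 704589) (nat_lit 3) .nil)))))))) (.g (nat_lit 6) .nil .nil))) 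
(.lf (nat_lit 254520) (.g (nat_lit 2229) (.e (nat_lit 163977) (nat_lit 30) (.e (nat_lit 573451) (nat_lit 9) (.e (nat_lit 1595) (nat_lit 111) (.e (nat_lit 360467) (nat_lit 3) (.e (nat_lit 516169) (nat_lit 13) (.e (nat_lit 458774) (nat_lit 18) (.e (nat_lit 5547) (nat_lit 306) (.e (nat_lit 2611) (nat_lit 163) .nil)))))))) (.g (nat_lit 4) .nil .nil)))))) 
(.nd (nat_lit 3) (.nd (nat_lit 4) (.nd (nat_lit 5) 
(.lf (nat_lit 254468) (.g (nat_lit 2611) (.e (nat_lit 163976) (nat_lit 30) (.e (nat_lit 573474) (nat_lit 12) (.e (nat_lit 57549) (nat_lit 48) (.e (nat_lit 720945) (nat_lit 23) (.e (nat_lit 98367) (nat_lit 27) (.e (nat_lit 434231) (nat_lit 23) (.e (nat_lit 532519) (nat_lit 5) (.e (nat_lit 147500) (nat_lit 12) .nil)))))))) (.g (nat_lit 5) .nil .nil))) 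
(.lf (nat_lit 254500) (.g (nat_lit 2661) (.e (nat_lit 163976) (nat_lit 30) (.e (nat_lit 573492) (nat_lit 15) (.e (nat_lit 81953) (nat_lit 22) (.e (nat_lit 90169) (nat_lit 13) (.e (nat_lit 172130) (nat_lit 15) .nil))))) .nil))) (.nd (nat_lit 5) 
(.lf (nat_lit 254484) (.g (nat_lit 2657) (.e (nat_lit 163976) (nat_lit 30) (.e (nat_lit 573474) (nat_lit 12) (.e (nat_lit 57551) (nat_lit 48) (.e (nat_lit 720945) (nat_lit 23) (.e (nat_lit 98366) (nat_lit 27) (.e (nat_lit 434231) (nat_lit 23) (.e (nat_lit 532519) (nat_lit 5) (.e (nat_lit 147498) (nat_lit 12) .nil)))))))) (.g (nat_lit 4) .nil .nil))) 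
(.lf (nat_lit 254516) (.g (nat_lit 992) (.e (nat_lit 163977) (nat_lit 30) (.e (nat_lit 573451) (nat_lit 9) (.e (nat_lit 1595) (nat_lit 111) (.e (nat_lit 360467) (nat_lit 3) .nil)))) .nil)))) (.nd (nat_lit 4) (.nd (nat_lit 5) 
(.lf (nat_lit 254476) (.g (nat_lit 3095) (.e (nat_lit 163976) (nat_lit 30) (.e (nat_lit 573474) (nat_lit 12) (.e (nat_lit 57550) (nat_lit 48) (.e (nat_lit 720941) (nat_lit 22) (.e (nat_lit 90172) (nat_lit 14) (.e (nat_lit 180244) (nat_lit 5) (.e (nat_lit 532519) (nat_lit 5) (.e (nat_lit 147498) (nat_lit 12) .nil)))))))) (.g (nat_lit 5) .nil .nil))) 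
(.lf (nat_lit 254508) (.g (nat_lit 2879) (.e (nat_lit 163976) (nat_lit 30) (.e (nat_lit 573492) (nat_lit 15) (.e (nat_lit 81956) (nat_lit 23) (.e (nat_lit 98359) (nat_lit 26) (.e (nat_lit 426407) (nat_lit 15) (.e (nat_lit 2143) (nat_lit 142) (.e (nat_lit 704588) (nat_lit 3) .nil))))))) (.g (nat_lit 0) .nil .nil)))) (.nd (nat_lit 5) 
(.lf (nat_lit 254492) (.g (nat_lit 2507) (.e (nat_lit 163976) (nat_lit 30) (.e (nat_lit 573488) (nat_lit 14) (.e (nat_lit 73754) (nat_lit 8) (.e (nat_lit 557100) (nat_lit 13) (.e (nat_lit 172065) (nat_lit 3) (.e (nat_lit 204817) (nat_lit 17) (.e (nat_lit 7936) (nat_lit 149) (.e (nat_lit 761894) (nat_lit 15) .nil)))))))) (.g (nat_lit 4) .nil .nil))) 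
(.lf (nat_lit 254524) (.g (nat_lit 2441) (.e (nat_lit 163977) (nat_lit 30) (.e (nat_lit 573451) (nat_lit 9) (.e (nat_lit 1595) (nat_lit 111) (.e (nat_lit 360467) (nat_lit 3) (.e (nat_lit 516171) (nat_lit 13) (.e (nat_lit 458774) (nat_lit 18) (.e (nat_lit 5547) (nat_lit 306) (.e (nat_lit 2601) (nat_lit 163) .nil)))))))) (.g (nat_lit 4) .nil .nil))))))) 
(.nd (nat_lit 2) (.nd (nat_lit 3) (.nd (nat_lit 4) (.nd (nat_lit 5) 
(.lf (nat_lit 254466) (.g (nat_lit 3240) (.e (nat_lit 163976) (nat_lit 30) (.e (nat_lit 573474) (nat_lit 12) (.e (nat_lit 57549) (nat_lit 48) (.e (nat_lit 720945) (nat_lit 23) (.e (nat_lit 98366) (nat_lit 27) (.e (nat_lit 434231) (nat_lit 23) (.e (nat_lit 532519) (nat_lit 5) (.e (nat_lit 147498) (nat_lit 12) .nil)))))))) (.g (nat_lit 6) .nil .nil))) 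
(.lf (nat_lit 254498) (.g (nat_lit 2197) (.e (nat_lit 163976) (nat_lit 30) (.e (nat_lit 573491) (nat_lit 15) (.e (nat_lit 81954) (nat_lit 23) (.e (nat_lit 98359) (nat_lit 26) (.e (nat_lit 426372) (nat_lit 15) (.e (nat_lit 2148) (nat_lit 142) (.e (nat_lit 704588) (nat_lit 3) .nil))))))) (.g (nat_lit 4) .nil .nil)))) (.nd (nat_lit 5) 
(.lf (nat_lit 254482) (.g (nat_lit 1099) (.e (nat_lit 163976) (nat_lit 30) (.e (nat_lit 573474) (nat_lit 12) (.e (nat_lit 57551) (nat_lit 48) .nil))) .nil)) 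
(.lf (nat_lit 254514) (.g (nat_lit 1853) (.e (nat_lit 163977) (nat_lit 30) (.e (nat_lit 573449) (nat_lit 9) (.e (nat_lit 1615) (nat_lit 113) (.e (nat_lit 376865) (nat_lit 22) (.e (nat_lit 90185) (nat_lit 17) (.e (nat_lit 237582) (nat_lit 1) (.e (nat_lit 164348) (nat_lit 240) (.e (nat_lit 2601) (nat_lit 163) .nil)))))))) (.g (nat_lit 4) .nil .nil))))) (.nd (nat_lit 4) (.nd (nat_lit 5) 
(.lf (nat_lit 254474) (.g (nat_lit 2592) (.e (nat_lit 163976) (nat_lit 30) (.e (nat_lit 573474) (nat_lit 12) (.e (nat_lit 57550) (nat_lit 48) (.e (nat_lit 720939) (nat_lit 22) (.e (nat_lit 90172) (nat_lit 14) (.e (nat_lit 180244) (nat_lit 5) (.e (nat_lit 532519) (nat_lit 5) (.e (nat_lit 147498) (nat_lit 12) .nil)))))))) (.g (nat_lit 5) .nil .nil))) 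
(.lf (nat_lit 254506) (.g (nat_lit 2411) (.e (nat_lit 163976) (nat_lit 30) (.e (nat_lit 573492) (nat_lit 15) (.e (nat_lit 81956) (nat_lit 23) (.e (nat_lit 98359) (nat_lit 26) (.e (nat_lit 426372) (nat_lit 15) .nil))))) .nil))) (.nd (nat_lit 5) 
(.lf (nat_lit 254490) (.g (nat_lit 3084) (.e (nat_lit 163976) (nat_lit 30) (.e (nat_lit 573481) (nat_lit 13) (.e (nat_lit 65604) (nat_lit 9) (.e (nat_lit 336013) (nat_lit 2) (.e (nat_lit 90170) (nat_lit 13) (.e (nat_lit 172135) (nat_lit 15) (.e (nat_lit 2146) (nat_lit 142) (.e (nat_lit 712448) (nat_lit 3) .nil)))))))) (.g (nat_lit 7) .nil .nil))) 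
(.lf (nat_lit 254522) (.g (nat_lit 2394) (.e (nat_lit 163977) (nat_lit 30) (.e (nat_lit 573451) (nat_lit 9) (.e (nat_lit 1595) (nat_lit 111) (.e (nat_lit 360467) (nat_lit 3) (.e (nat_lit 516169) (nat_lit 13) (.e (nat_lit 458774) (nat_lit 18) (.e (nat_lit 5548) (nat_lit 306) (.e (nat_lit 2611) (nat_lit 163) .nil)))))))) (.g (nat_lit 4) .nil .nil)))))) 
(.nd (nat_lit 3) (.nd (nat_lit 4) (.nd (nat_lit 5) 
(.lf (nat_lit 254470) (.g (nat_lit 3083) (.e (nat_lit 163976) (nat_lit 30) (.e (nat_lit 573474) (nat_lit 12) (.e (nat_lit 57550) (nat_lit 48) (.e (nat_lit 720937) (nat_lit 22) (.e (nat_lit 90172) (nat_lit 14) (.e (nat_lit 180244) (nat_lit 5) (.e (nat_lit 532519) (nat_lit 5) (.e (nat_lit 147498) (nat_lit 12) .nil)))))))) (.g (nat_lit 5) .nil .nil))) 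
(.lf (nat_lit 254502) (.g (nat_lit 2631) (.e (nat_lit 163976) (nat_lit 30) (.e (nat_lit 573492) (nat_lit 15) (.e (nat_lit 81953) (nat_lit 22) (.e (nat_lit 90170) (nat_lit 13) (.e (nat_lit 172135) (nat_lit 15) (.e (nat_lit 2143) (nat_lit 142) (.e (nat_lit 704588) (nat_lit 3) .nil))))))) (.g (nat_lit 0) .nil .nil)))) (.nd (nat_lit 5) 
(.lf (nat_lit 254486) (.g (nat_lit 2604) (.e (nat_lit 163976) (nat_lit 30) (.e (nat_lit 573474) (nat_lit 12) (.e (nat_lit 57555) (nat_lit 49) (.e (nat_lit 729114) (nat_lit 23) (.e (nat_lit 98367) (nat_lit 27) (.e (nat_lit 434231) (nat_lit 23) (.e (nat_lit 532519) (nat_lit 5) (.e (nat_lit 147498) (nat_lit 12) .nil)))))))) (.g (nat_lit 4) .nil .nil))) 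
(.lf (nat_lit 254518) (.g (nat_lit 3608) (.e (nat_lit 163977) (nat_lit 30) (.e (nat_lit 573451) (nat_lit 9) (.e (nat_lit 1595) (nat_lit 111) (.e (nat_lit 360467) (nat_lit 3) (.e (nat_lit 516158) (nat_lit 9) (.e (nat_lit 426107) (nat_lit 1) (.e (nat_lit 164347) (nat_lit 240) (.e (nat_lit 2601) (nat_lit 163) .nil)))))))) (.g (nat_lit 6) .nil .nil))))) (.nd (nat_lit 4) (.nd (nat_lit 5) 
(.lf (nat_lit 254478) (.g (nat_lit 3259) (.e (nat_lit 163976) (nat_lit 30) (.e (nat_lit 573474) (nat_lit 12) (.e (nat_lit 57550) (nat_lit 48) (.e (nat_lit 720945) (nat_lit 23) (.e (nat_lit 98366) (nat_lit 27) (.e (nat_lit 434231) (nat_lit 23) (.e (nat_lit 532519) (nat_lit 5) (.e (nat_lit 147498) (nat_lit 12) .nil)))))))) (.g (nat_lit 6) .nil .nil))) 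
(.lf (nat_lit 254510) (.g (nat_lit 2216) (.e (nat_lit 163976) (nat_lit 30) (.e (nat_lit 573503) (nat_lit 18) (.e (nat_lit 1348) (nat_lit 102) (.e (nat_lit 286748) (nat_lit 9) (.e (nat_lit 336028) (nat_lit 3) .nil))))) .nil))) (.nd (nat_lit 5) 
(.lf (nat_lit 254494) (.g (nat_lit 2606) (.e (nat_lit 163976) (nat_lit 30) (.e (nat_lit 573488) (nat_lit 14) (.e (nat_lit 73755) (nat_lit 8) (.e (nat_lit 557097) (nat_lit 13) (.e (nat_lit 172067) (nat_lit 3) (.e (nat_lit 204817) (nat_lit 17) (.e (nat_lit 7936) (nat_lit 149) (.e (nat_lit 761894) (nat_lit 15) .nil)))))))) (.g (nat_lit 5) .nil .nil))) 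
(.lf (nat_lit 254526) (.g (nat_lit 2589) (.e (nat_lit 163977) (nat_lit 30) (.e (nat_lit 573451) (nat_lit 9) (.e (nat_lit 1595) (nat_lit 111) (.e (nat_lit 360467) (nat_lit 3) (.e (nat_lit 516171) (nat_lit 13) (.e (nat_lit 458774) (nat_lit 18) (.e (nat_lit 5548) (nat_lit 306) (.e (nat_lit 2601) (nat_lit 163) .nil)))))))) (.g (nat_lit 4) .nil .nil)))))))) 
(.nd (nat_lit 1) (.nd (nat_lit 2) (.nd (nat_lit 3) (.nd (nat_lit 4) (.nd (nat_lit 5) 
(.lf (nat_lit 254465) (.g (nat_lit 2280) (.e (nat_lit 163976) (nat_lit 30) (.e (nat_lit 573474) (nat_lit 12) (.e (nat_lit 57549) (nat_lit 48) (.e (nat_lit 720941) (nat_lit 22) (.e (nat_lit 90172) (nat_lit 14) (.e (nat_lit 180244) (nat_lit 5) (.e (nat_lit 532519) (nat_lit 5) (.e (nat_lit 147500) (nat_lit 12) .nil)))))))) (.g (nat_lit 4) .nil .nil))) 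
(.lf (nat_lit 254497) (.g (nat_lit 2474) (.e (nat_lit 163976) (nat_lit 30) (.e (nat_lit 573491) (nat_lit 15) (.e (nat_lit 81951) (nat_lit 22) (.e (nat_lit 90170) (nat_lit 13) (.e (nat_lit 172135) (nat_lit 15) (.e (nat_lit 2146) (nat_lit 142) (.e (nat_lit 712448) (nat_lit 3) .nil))))))) (.g (nat_lit 6) .nil .nil)))) (.nd (nat_lit 5) 
(.lf (nat_lit 254481) (.g (nat_lit 2605) (.e (nat_lit 163976) (nat_lit 30) (.e (nat_lit 573474) (nat_lit 12) (.e (nat_lit 57550) (nat_lit 48) (.e (nat_lit 720945) (nat_lit 23) (.e (nat_lit 98367) (nat_lit 27) (.e (nat_lit 434231) (nat_lit 23) (.e (nat_lit 532519) (nat_lit 5) (.e (nat_lit 147500) (nat_lit 12) .nil)))))))) (.g (nat_lit 4) .nil .nil))) 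
(.lf (nat_lit 254513) (.g (nat_lit 1877) (.e (nat_lit 163977) (nat_lit 30) (.e (nat_lit 573449) (nat_lit 9) (.e (nat_lit 1615) (nat_lit 113) (.e (nat_lit 376865) (nat_lit 22) (.e (nat_lit 90185) (nat_lit 17) (.e (nat_lit 237582) (nat_lit 1) (.e (nat_lit 164347) (nat_lit 240) (.e (nat_lit 2611) (nat_lit 163) .nil)))))))) (.g (nat_lit 4) .nil .nil))))) (.nd (nat_lit 4) (.nd (nat_lit 5) 
(.lf (nat_lit 254473) (.g (nat_lit 2646) (.e (nat_lit 163976) (nat_lit 30) (.e (nat_lit 573474) (nat_lit 12) (.e (nat_lit 57550) (nat_lit 48) (.e (nat_lit 720938) (nat_lit 22) (.e (nat_lit 90172) (nat_lit 14) (.e (nat_lit 180244) (nat_lit 5) (.e (nat_lit 532519) (nat_lit 5) (.e (nat_lit 147500) (nat_lit 12) .nil)))))))) (.g (nat_lit 4) .nil .nil))) 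
(.lf (nat_lit 254505) (.g (nat_lit 2412) (.e (nat_lit 163976) (nat_lit 30) (.e (nat_lit 573492) (nat_lit 15) (.e (nat_lit 81956) (nat_lit 23) (.e (nat_lit 98356) (nat_lit 26) (.e (nat_lit 433920) (nat_lit 15) (.e (nat_lit 2148) (nat_lit 142) (.e (nat_lit 704588) (nat_lit 3) .nil))))))) (.g (nat_lit 4) .nil .nil)))) (.nd (nat_lit 5) 
(.lf (nat_lit 254489) (.g (nat_lit 1827) (.e (nat_lit 163976) (nat_lit 30) (.e (nat_lit 573479) (nat_lit 13) (.e (nat_lit 65619) (nat_lit 10) (.e (nat_lit 344117) (nat_lit 21) (.e (nat_lit 516179) (nat_lit 15) .nil))))) .nil)) 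
(.lf (nat_lit 254521) (.g (nat_lit 2329) (.e (nat_lit 163977) (nat_lit 30) (.e (nat_lit 573451) (nat_lit 9) (.e (nat_lit 1595) (nat_lit 111) (.e (nat_lit 360467) (nat_lit 3) (.e (nat_lit 516169) (nat_lit 13) (.e (nat_lit 458774) (nat_lit 18) (.e (nat_lit 5548) (nat_lit 306) (.e (nat_lit 2601) (nat_lit 163) .nil)))))))) (.g (nat_lit 4) .nil .nil)))))) 
(.nd (nat_lit 3) (.nd (nat_lit 4) (.nd (nat_lit 5) 
(.lf (nat_lit 254469) (.g (nat_lit 1025) (.e (nat_lit 163976) (nat_lit 30) (.e (nat_lit 573474) (nat_lit 12) (.e (nat_lit 57550) (nat_lit 48) .nil))) .nil)) 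
(.lf (nat_lit 254501) (.g (nat_lit 3241) (.e (nat_lit 163976) (nat_lit 30) (.e (nat_lit 573492) (nat_lit 15) (.e (nat_lit 81953) (nat_lit 22) (.e (nat_lit 90170) (nat_lit 13) (.e (nat_lit 172134) (nat_lit 15) .nil))))) .nil))) (.nd (nat_lit 5) 
(.lf (nat_lit 254485) (.g (nat_lit 1109) (.e (nat_lit 163976) (nat_lit 30) (.e (nat_lit 573474) (nat_lit 12) (.e (nat_lit 57555) (nat_lit 49) .nil))) .nil)) 
(.lf (nat_lit 254517) (.g (nat_lit 3876) (.e (nat_lit 163977) (nat_lit 30) (.e (nat_lit 573451) (nat_lit 9) (.e (nat_lit 1595) (nat_lit 111) (.e (nat_lit 360467) (nat_lit 3) (.e (nat_lit 516146) (nat_lit 9) (.e (nat_lit 426444) (nat_lit 19) (.e (nat_lit 114432) (nat_lit 3) .nil))))))) (.g (nat_lit 6) .nil .nil))))) (.nd (nat_lit 4) (.nd (nat_lit 5) 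
(.lf (nat_lit 254477) (.g (nat_lit 2634) (.e (nat_lit 163976) (nat_lit 30) (.e (nat_lit 573474) (nat_lit 12) (.e (nat_lit 57550) (nat_lit 48) (.e (nat_lit 720941) (nat_lit 22) (.e (nat_lit 90172) (nat_lit 14) (.e (nat_lit 180244) (nat_lit 5) (.e (nat_lit 532519) (nat_lit 5) (.e (nat_lit 147500) (nat_lit 12) .nil)))))))) (.g (nat_lit 4) .nil .nil))) 
(.lf (nat_lit 254509) (.g (nat_lit 2614) (.e (nat_lit 163976) (nat_lit 30) (.e (nat_lit 573492) (nat_lit 15) (.e (nat_lit 81956) (nat_lit 23) (.e (nat_lit 98359) (nat_lit 26) (.e (nat_lit 426407) (nat_lit 15) (.e (nat_lit 2146) (nat_lit 142) (.e (nat_lit 712448) (nat_lit 3) .nil))))))) (.g (nat_lit 6) .nil .nil)))) (.nd (nat_lit 5) 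
(.lf (nat_lit 254493) (.g (nat_lit 2521) (.e (nat_lit 163976) (nat_lit 30) (.e (nat_lit 573488) (nat_lit 14) (.e (nat_lit 73755) (nat_lit 8) (.e (nat_lit 557097) (nat_lit 13) (.e (nat_lit 172065) (nat_lit 3) (.e (nat_lit 204817) (nat_lit 17) (.e (nat_lit 7936) (nat_lit 149) (.e (nat_lit 761894) (nat_lit 15) .nil)))))))) (.g (nat_lit 5) .nil .nil))) 
(.lf (nat_lit 254525) (.g (nat_lit 2478) (.e (nat_lit 163977) (nat_lit 30) (.e (nat_lit 573451) (nat_lit 9) (.e (nat_lit 1595) (nat_lit 111) (.e (nat_lit 360467) (nat_lit 3) (.e (nat_lit 516171) (nat_lit 13) (.e (nat_lit 458774) (nat_lit 18) (.e (nat_lit 5547) (nat_lit 306) (.e (nat_lit 2611) (nat_lit 163) .nil)))))))) (.g (nat_lit 4) .nil .nil))))))) 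
(.nd (nat_lit 2) (.nd (nat_lit 3) (.nd (nat_lit 4) (.nd (nat_lit 5) 
(.lf (nat_lit 254467) (.g (nat_lit 2811) (.e (nat_lit 163976) (nat_lit 30) (.e (nat_lit 573474) (nat_lit 12) (.e (nat_lit 57549) (nat_lit 48) (.e (nat_lit 720945) (nat_lit 23) (.e (nat_lit 98366) (nat_lit 27) (.e (nat_lit 434231) (nat_lit 23) (.e (nat_lit 532519) (nat_lit 5) (.e (nat_lit 147500) (nat_lit 12) .nil)))))))) (.g (nat_lit 5) .nil .nil))) 
(.lf (nat_lit 254499) (.g (nat_lit 2099) (.e (nat_lit 163976) (nat_lit 30) (.e (nat_lit 573491) (nat_lit 15) (.e (nat_lit 81954) (nat_lit 23) (.e (nat_lit 98359) (nat_lit 26) (.e (nat_lit 426407) (nat_lit 15) (.e (nat_lit 2146) (nat_lit 142) (.e (nat_lit 712448) (nat_lit 3) .nil))))))) (.g (nat_lit 6) .nil .nil)))) (.nd (nat_lit 5) 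
(.lf (nat_lit 254483) (.g (nat_lit 2886) (.e (nat_lit 163976) (nat_lit 30) (.e (nat_lit 573474) (nat_lit 12) (.e (nat_lit 57551) (nat_lit 48) (.e (nat_lit 720941) (nat_lit 22) (.e (nat_lit 90172) (nat_lit 14) (.e (nat_lit 180244) (nat_lit 5) (.e (nat_lit 532519) (nat_lit 5) (.e (nat_lit 147498) (nat_lit 12) .nil)))))))) (.g (nat_lit 4) .nil .nil))) 
(.lf (nat_lit 254515) (.g (nat_lit 2493) (.e (nat_lit 163977) (nat_lit 30) (.e (nat_lit 573451) (nat_lit 9) (.e (nat_lit 1595) (nat_lit 111) (.e (nat_lit 360466) (nat_lit 3) (.e (nat_lit 516146) (nat_lit 9) (.e (nat_lit 426444) (nat_lit 19) (.e (nat_lit 114432) (nat_lit 3) .nil))))))) (.g (nat_lit 4) .nil .nil))))) (.nd (nat_lit 4) (.nd (nat_lit 5) 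
(.lf (nat_lit 254475) (.g (nat_lit 2451) (.e (nat_lit 163976) (nat_lit 30) (.e (nat_lit 573474) (nat_lit 12) (.e (nat_lit 57550) (nat_lit 48) (.e (nat_lit 720939) (nat_lit 22) (.e (nat_lit 90174) (nat_lit 14) (.e (nat_lit 180243) (nat_lit 5) (.e (nat_lit 532519) (nat_lit 5) (.e (nat_lit 147498) (nat_lit 12) .nil)))))))) (.g (nat_lit 4) .nil .nil))) 
(.lf (nat_lit 254507) (.g (nat_lit 2583) (.e (nat_lit 163976) (nat_lit 30) (.e (nat_lit 573492) (nat_lit 15) (.e (nat_lit 81956) (nat_lit 23) (.e (nat_lit 98359) (nat_lit 26) (.e (nat_lit 426406) (nat_lit 15) .nil))))) .nil))) (.nd (nat_lit 5) 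
(.lf (nat_lit 254491) (.g (nat_lit 2036) (.e (nat_lit 163976) (nat_lit 30) (.e (nat_lit 573481) (nat_lit 13) (.e (nat_lit 65619) (nat_lit 10) (.e (nat_lit 344117) (nat_lit 21) (.e (nat_lit 516180) (nat_lit 15) .nil))))) .nil)) 
(.lf (nat_lit 254523) (.g (nat_lit 2028) (.e (nat_lit 163977) (nat_lit 30) (.e (nat_lit 573451) (nat_lit 9) (.e (nat_lit 1595) (nat_lit 111) (.e (nat_lit 360467) (nat_lit 3) (.e (nat_lit 516171) (nat_lit 13) .nil))))) .nil))))) (.nd (nat_lit 3) (.nd (nat_lit 4) (.nd (nat_lit 5) 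
(.lf (nat_lit 254471) (.g (nat_lit 2622) (.e (nat_lit 163976) (nat_lit 30) (.e (nat_lit 573474) (nat_lit 12) (.e (nat_lit 57550) (nat_lit 48) (.e (nat_lit 720937) (nat_lit 22) (.e (nat_lit 90172) (nat_lit 14) (.e (nat_lit 180244) (nat_lit 5) (.e (nat_lit 532519) (nat_lit 5) (.e (nat_lit 147500) (nat_lit 12) .nil)))))))) (.g (nat_lit 4) .nil .nil))) 
(.lf (nat_lit 254503) (.g (nat_lit 2445) (.e (nat_lit 163976) (nat_lit 30) (.e (nat_lit 573492) (nat_lit 15) (.e (nat_lit 81953) (nat_lit 22) (.e (nat_lit 90170) (nat_lit 13) (.e (nat_lit 172135) (nat_lit 15) (.e (nat_lit 2146) (nat_lit 142) (.e (nat_lit 712448) (nat_lit 3) .nil))))))) (.g (nat_lit 6) .nil .nil)))) (.nd (nat_lit 5) 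
(.lf (nat_lit 254487) (.g (nat_lit 1457) (.e (nat_lit 163976) (nat_lit 30) (.e (nat_lit 573474) (nat_lit 12) (.e (nat_lit 57560) (nat_lit 50) (.e (nat_lit 737293) (nat_lit 2) .nil)))) .nil)) 
(.lf (nat_lit 254519) (.g (nat_lit 2194) (.e (nat_lit 163977) (nat_lit 30) (.e (nat_lit 573451) (nat_lit 9) (.e (nat_lit 1595) (nat_lit 111) (.e (nat_lit 360467) (nat_lit 3) (.e (nat_lit 516169) (nat_lit 13) (.e (nat_lit 458774) (nat_lit 18) (.e (nat_lit 5547) (nat_lit 306) (.e (nat_lit 2601) (nat_lit 163) .nil)))))))) (.g (nat_lit 4) .nil .nil))))) (.nd (nat_lit 4) (.nd (nat_lit 5) 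
(.lf (nat_lit 254479) (.g (nat_lit 2800) (.e (nat_lit 163976) (nat_lit 30) (.e (nat_lit 573474) (nat_lit 12) (.e (nat_lit 57550) (nat_lit 48) (.e (nat_lit 720945) (nat_lit 23) (.e (nat_lit 98366) (nat_lit 27) (.e (nat_lit 434231) (nat_lit 23) (.e (nat_lit 532519) (nat_lit 5) (.e (nat_lit 147500) (nat_lit 12) .nil)))))))) (.g (nat_lit 5) .nil .nil))) 
(.lf (nat_lit 254511) (.g (nat_lit 1921) (.e (nat_lit 163976) (nat_lit 30) (.e (nat_lit 573503) (nat_lit 18) (.e (nat_lit 1349) (nat_lit 102) (.e (nat_lit 286748) (nat_lit 9) (.e (nat_lit 336024) (nat_lit 3) .nil))))) .nil))) (.nd (nat_lit 5) 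
(.lf (nat_lit 254495) (.g (nat_lit 2698) (.e (nat_lit 163976) (nat_lit 30) (.e (nat_lit 573488) (nat_lit 14) (.e (nat_lit 73755) (nat_lit 8) (.e (nat_lit 557098) (nat_lit 13) (.e (nat_lit 172066) (nat_lit 3) (.e (nat_lit 204817) (nat_lit 17) (.e (nat_lit 7936) (nat_lit 149) (.e (nat_lit 761894) (nat_lit 15) .nil)))))))) (.g (nat_lit 4) .nil .nil))) 
(.lf (nat_lit 254527) (.g (nat_lit 2628) (.e (nat_lit 163977) (nat_lit 30) (.e (nat_lit 573451) (nat_lit 9) (.e (nat_lit 1595) (nat_lit 111) (.e (nat_lit 360467) (nat_lit 3) (.e (nat_lit 516171) (nat_lit 13) (.e (nat_lit 458774) (nat_lit 18) (.e (nat_lit 5548) (nat_lit 306) (.e (nat_lit 2611) (nat_lit 163) .nil)))))))) (.g (nat_lit 4) .nil .nil)))))))))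

noncomputable def tv3301 : DT := (.nd (nat_lit 0) (.nd (nat_lit 1) (.nd (nat_lit 2) (.nd (nat_lit 3) (.nd (nat_lit 4) (.nd (nat_lit 5) 
(.lf (nat_lit 254528) (.g (nat_lit 2877) (.e (nat_lit 163977) (nat_lit 30) (.e (nat_lit 573451) (nat_lit 9) (.e (nat_lit 1595) (nat_lit 111) (.e (nat_lit 360467) (nat_lit 3) (.e (nat_lit 516179) (nat_lit 15) (.e (nat_lit 475201) (nat_lit 40) (.e (nat_lit 712448) (nat_lit 3) .nil))))))) (.g (nat_lit 5) .nil .nil))) 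
(.lf (nat_lit 254560) (.g (nat_lit 4084) (.e (nat_lit 163977) (nat_lit 30) (.e (nat_lit 573484) (nat_lit 13) (.e (nat_lit 65610) (nat_lit 10) (.e (nat_lit 344117) (nat_lit 21) (.e (nat_lit 516151) (nat_lit 9) (.e (nat_lit 426412) (nat_lit 15) (.e (nat_lit 2058) (nat_lit 142) (.e (nat_lit 704589) (nat_lit 3) .nil)))))))) (.g (nat_lit 5) .nil .nil)))) (.nd (nat_lit 5) 
(.lf (nat_lit 254544) (.g (nat_lit 1788) (.e (nat_lit 163977) (nat_lit 30) (.e (nat_lit 573478) (nat_lit 12) (.e (nat_lit 57549) (nat_lit 48) (.e (nat_lit 720945) (nat_lit 23) (.e (nat_lit 98366) (nat_lit 27) (.e (nat_lit 434231) (nat_lit 23) (.e (nat_lit 532519) (nat_lit 5) (.e (nat_lit 147504) (nat_lit 12) .nil)))))))) (.g (nat_lit 5) .nil .nil))) 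
(.lf (nat_lit 254576) (.g (nat_lit 3727) (.e (nat_lit 163977) (nat_lit 30) (.e (nat_lit 573489) (nat_lit 14) (.e (nat_lit 73768) (nat_lit 19) (.e (nat_lit 647194) (nat_lit 9) (.e (nat_lit 1181) (nat_lit 87) (.e (nat_lit 57872) (nat_lit 264) (.e (nat_lit 1211) (nat_lit 89) (.e (nat_lit 81664) (nat_lit 35) .nil)))))))) (.g (nat_lit 7) .nil .nil))))) (.nd (nat_lit 4) (.nd (nat_lit 5) 
(.lf (nat_lit 254536) (.g (nat_lit 2535) (.e (nat_lit 163977) (nat_lit 30) (.e (nat_lit 573475) (nat_lit 12) (.e (nat_lit 57549) (nat_lit 48) (.e (nat_lit 720945) (nat_lit 23) (.e (nat_lit 98367) (nat_lit 27) (.e (nat_lit 434231) (nat_lit 23) (.e (nat_lit 532519) (nat_lit 5) (.e (nat_lit 147504) (nat_lit 12) .nil)))))))) (.g (nat_lit 5) .nil .nil))) 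
(.lf (nat_lit 254568) (.g (nat_lit 1363) (.e (nat_lit 163977) (nat_lit 30) (.e (nat_lit 573487) (nat_lit 14) (.e (nat_lit 73729) (nat_lit 0) (.e (nat_lit 5570) (nat_lit 308) .nil)))) .nil))) (.nd (nat_lit 5) 
(.lf (nat_lit 254552) (.g (nat_lit 2568) (.e (nat_lit 163977) (nat_lit 30) (.e (nat_lit 573482) (nat_lit 13) (.e (nat_lit 65604) (nat_lit 9) (.e (nat_lit 336028) (nat_lit 3) (.e (nat_lit 98359) (nat_lit 26) (.e (nat_lit 426407) (nat_lit 15) (.e (nat_lit 2146) (nat_lit 142) (.e (nat_lit 712448) (nat_lit 3) .nil)))))))) (.g (nat_lit 5) .nil .nil))) 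
(.lf (nat_lit 254584) (.g (nat_lit 1604) (.e (nat_lit 163977) (nat_lit 30) (.e (nat_lit 573489) (nat_lit 14) (.e (nat_lit 73768) (nat_lit 19) (.e (nat_lit 647200) (nat_lit 12) (.e (nat_lit 57515) (nat_lit 42) .nil))))) .nil))))) (.nd (nat_lit 3) (.nd (nat_lit 4) (.nd (nat_lit 5) 
(.lf (nat_lit 254532) (.g (nat_lit 2224) (.e (nat_lit 163977) (nat_lit 30) (.e (nat_lit 573475) (nat_lit 12) (.e (nat_lit 57549) (nat_lit 48) (.e (nat_lit 720937) (nat_lit 22) (.e (nat_lit 90172) (nat_lit 14) (.e (nat_lit 180244) (nat_lit 5) (.e (nat_lit 532519) (nat_lit 5) (.e (nat_lit 147504) (nat_lit 12) .nil)))))))) (.g (nat_lit 4) .nil .nil))) 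
(.lf (nat_lit 254564) (.g (nat_lit 2770) (.e (nat_lit 163977) (nat_lit 30) (.e (nat_lit 573485) (nat_lit 13) (.e (nat_lit 65604) (nat_lit 9) (.e (nat_lit 336013) (nat_lit 2) (.e (nat_lit 90170) (nat_lit 13) (.e (nat_lit 172135) (nat_lit 15) (.e (nat_lit 2146) (nat_lit 142) (.e (nat_lit 712448) (nat_lit 3) .nil)))))))) (.g (nat_lit 5) .nil .nil)))) (.nd (nat_lit 5) 
(.lf (nat_lit 254548) (.g (nat_lit 2519) (.e (nat_lit 163977) (nat_lit 30) (.e (nat_lit 573479) (nat_lit 13) (.e (nat_lit 65619) (nat_lit 10) (.e (nat_lit 344117) (nat_lit 21) (.e (nat_lit 516160) (nat_lit 10) (.e (nat_lit 434271) (nat_lit 38) (.e (nat_lit 655375) (nat_lit 3) .nil))))))) (.g (nat_lit 5) .nil .nil))) 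
(.lf (nat_lit 254580) (.g (nat_lit 4286) (.e (nat_lit 163977) (nat_lit 30) (.e (nat_lit 573489) (nat_lit 14) (.e (nat_lit 73768) (nat_lit 19) (.e (nat_lit 647195) (nat_lit 9) (.e (nat_lit 1181) (nat_lit 87) (.e (nat_lit 57872) (nat_lit 264) (.e (nat_lit 1211) (nat_lit 89) (.e (nat_lit 81664) (nat_lit 35) .nil)))))))) (.g (nat_lit 7) .nil .nil))))) (.nd (nat_lit 4) (.nd (nat_lit 5) 
(.lf (nat_lit 254540) (.g (nat_lit 2515) (.e (nat_lit 163977) (nat_lit 30) (.e (nat_lit 573475) (nat_lit 12) (.e (nat_lit 57550) (nat_lit 48) (.e (nat_lit 720945) (nat_lit 23) (.e (nat_lit 98366) (nat_lit 27) (.e (nat_lit 434231) (nat_lit 23) (.e (nat_lit 532519) (nat_lit 5) (.e (nat_lit 147504) (nat_lit 12) .nil)))))))) (.g (nat_lit 5) .nil .nil))) 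
(.lf (nat_lit 254572) (.g (nat_lit 3321) (.e (nat_lit 163977) (nat_lit 30) (.e (nat_lit 573489) (nat_lit 14) (.e (nat_lit 73755) (nat_lit 8) (.e (nat_lit 557104) (nat_lit 14) (.e (nat_lit 180244) (nat_lit 5) (.e (nat_lit 532481) (nat_lit 0) (.e (nat_lit 2267) (nat_lit 149) (.e (nat_lit 761895) (nat_lit 15) .nil)))))))) (.g (nat_lit 5) .nil .nil)))) (.nd (nat_lit 5) 
(.lf (nat_lit 254556) (.g (nat_lit 2506) (.e (nat_lit 163977) (nat_lit 30) (.e (nat_lit 573484) (nat_lit 13) (.e (nat_lit 65610) (nat_lit 10) (.e (nat_lit 344117) (nat_lit 21) (.e (nat_lit 516145) (nat_lit 9) (.e (nat_lit 426415) (nat_lit 15) (.e (nat_lit 2146) (nat_lit 142) (.e (nat_lit 712448) (nat_lit 3) .nil)))))))) (.g (nat_lit 4) .nil .nil))) 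
(.lf (nat_lit 254588) (.g (nat_lit 1973) (.e (nat_lit 163977) (nat_lit 30) (.e (nat_lit 573491) (nat_lit 15) (.e (nat_lit 81951) (nat_lit 22) (.e (nat_lit 90167) (nat_lit 13) (.e (nat_lit 172070) (nat_lit 4) .nil))))) .nil)))))) (.nd (nat_lit 2) (.nd (nat_lit 3) (.nd (nat_lit 4) (.nd (nat_lit 5) 
(.lf (nat_lit 254530) (.g (nat_lit 1363) (.e (nat_lit 163977) (nat_lit 30) (.e (nat_lit 573474) (nat_lit 12) (.e (nat_lit 57528) (nat_lit 46) .nil))) .nil)) 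
(.lf (nat_lit 254562) (.g (nat_lit 2598) (.e (nat_lit 163977) (nat_lit 30) (.e (nat_lit 573484) (nat_lit 13) (.e (nat_lit 65610) (nat_lit 10) (.e (nat_lit 344117) (nat_lit 21) (.e (nat_lit 516180) (nat_lit 15) .nil))))) .nil))) (.nd (nat_lit 5) 
(.lf (nat_lit 254546) (.g (nat_lit 2777) (.e (nat_lit 163977) (nat_lit 30) (.e (nat_lit 573479) (nat_lit 13) (.e (nat_lit 65619) (nat_lit 10) (.e (nat_lit 344117) (nat_lit 21) (.e (nat_lit 516151) (nat_lit 9) (.e (nat_lit 426142) (nat_lit 4) (.e (nat_lit 229663) (nat_lit 240) (.e (nat_lit 2612) (nat_lit 163) .nil)))))))) (.g (nat_lit 5) .nil .nil))) 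
(.lf (nat_lit 254578) (.g (nat_lit 2547) (.e (nat_lit 163977) (nat_lit 30) (.e (nat_lit 573489) (nat_lit 14) (.e (nat_lit 73768) (nat_lit 19) (.e (nat_lit 647195) (nat_lit 9) (.e (nat_lit 1181) (nat_lit 87) (.e (nat_lit 57870) (nat_lit 264) (.e (nat_lit 1210) (nat_lit 89) (.e (nat_lit 81664) (nat_lit 35) .nil)))))))) (.g (nat_lit 5) .nil .nil))))) (.nd (nat_lit 4) (.nd (nat_lit 5) 
(.lf (nat_lit 254538) (.g (nat_lit 2403) (.e (nat_lit 163977) (nat_lit 30) (.e (nat_lit 573475) (nat_lit 12) (.e (nat_lit 57550) (nat_lit 48) (.e (nat_lit 720938) (nat_lit 22) (.e (nat_lit 90172) (nat_lit 14) (.e (nat_lit 180244) (nat_lit 5) (.e (nat_lit 532519) (nat_lit 5) (.e (nat_lit 147504) (nat_lit 12) .nil)))))))) (.g (nat_lit 4) .nil .nil))) 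
(.lf (nat_lit 254570) (.g (nat_lit 2786) (.e (nat_lit 163977) (nat_lit 30) (.e (nat_lit 573489) (nat_lit 14) (.e (nat_lit 73755) (nat_lit 8) (.e (nat_lit 557103) (nat_lit 14) (.e (nat_lit 180244) (nat_lit 5) (.e (nat_lit 532481) (nat_lit 0) (.e (nat_lit 2267) (nat_lit 149) (.e (nat_lit 761895) (nat_lit 15) .nil)))))))) (.g (nat_lit 4) .nil .nil)))) (.nd (nat_lit 5) 
(.lf (nat_lit 254554) (.g (nat_lit 2789) (.e (nat_lit 163977) (nat_lit 30) (.e (nat_lit 573482) (nat_lit 13) (.e (nat_lit 65619) (nat_lit 10) (.e (nat_lit 344117) (nat_lit 21) (.e (nat_lit 516151) (nat_lit 9) (.e (nat_lit 426407) (nat_lit 15) (.e (nat_lit 2146) (nat_lit 142) (.e (nat_lit 712448) (nat_lit 3) .nil)))))))) (.g (nat_lit 5) .nil .nil))) 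
(.lf (nat_lit 254586) (.g (nat_lit 2304) (.e (nat_lit 163977) (nat_lit 30) (.e (nat_lit 573489) (nat_lit 14) (.e (nat_lit 73768) (nat_lit 19) (.e (nat_lit 647201) (nat_lit 12) (.e (nat_lit 57357) (nat_lit 0) (.e (nat_lit 5907) (nat_lit 320) (.e (nat_lit 1209) (nat_lit 89) (.e (nat_lit 81664) (nat_lit 35) .nil)))))))) (.g (nat_lit 6) .nil .nil)))))) 
(.nd (nat_lit 3) (.nd (nat_lit 4) (.nd (nat_lit 5) 
(.lf (nat_lit 254534) (.g (nat_lit 2328) (.e (nat_lit 163977) (nat_lit 30) (.e (nat_lit 573475) (nat_lit 12) (.e (nat_lit 57549) (nat_lit 48) (.e (nat_lit 720945) (nat_lit 23) (.e (nat_lit 98366) (nat_lit 27) (.e (nat_lit 434231) (nat_lit 23) (.e (nat_lit 532519) (nat_lit 5) (.e (nat_lit 147500) (nat_lit 12) .nil)))))))) (.g (nat_lit 4) .nil .nil))) 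
(.lf (nat_lit 254566) (.g (nat_lit 2689) (.e (nat_lit 163977) (nat_lit 30) (.e (nat_lit 573485) (nat_lit 13) (.e (nat_lit 65619) (nat_lit 10) (.e (nat_lit 344117) (nat_lit 21) (.e (nat_lit 516151) (nat_lit 9) (.e (nat_lit 426407) (nat_lit 15) (.e (nat_lit 2146) (nat_lit 142) (.e (nat_lit 712448) (nat_lit 3) .nil)))))))) (.g (nat_lit 5) .nil .nil)))) (.nd (nat_lit 5) 
(.lf (nat_lit 254550) (.g (nat_lit 2918) (.e (nat_lit 163977) (nat_lit 30) (.e (nat_lit 573482) (nat_lit 13) (.e (nat_lit 65604) (nat_lit 9) (.e (nat_lit 336013) (nat_lit 2) (.e (nat_lit 90170) (nat_lit 13) (.e (nat_lit 172135) (nat_lit 15) (.e (nat_lit 2146) (nat_lit 142) (.e (nat_lit 712448) (nat_lit 3) .nil)))))))) (.g (nat_lit 5) .nil .nil))) 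
(.lf (nat_lit 254582) (.g (nat_lit 1851) (.e (nat_lit 163977) (nat_lit 30) (.e (nat_lit 573489) (nat_lit 14) (.e (nat_lit 73768) (nat_lit 19) (.e (nat_lit 647196) (nat_lit 9) (.e (nat_lit 1181) (nat_lit 87) (.e (nat_lit 57870) (nat_lit 264) (.e (nat_lit 1211) (nat_lit 89) (.e (nat_lit 81664) (nat_lit 35) .nil)))))))) (.g (nat_lit 4) .nil .nil))))) (.nd (nat_lit 4) (.nd (nat_lit 5) 
(.lf (nat_lit 254542) (.g (nat_lit 1716) (.e (nat_lit 163977) (nat_lit 30) (.e (nat_lit 573477) (nat_lit 12) (.e (nat_lit 57549) (nat_lit 48) (.e (nat_lit 720945) (nat_lit 23) (.e (nat_lit 98366) (nat_lit 27) (.e (nat_lit 434231) (nat_lit 23) (.e (nat_lit 532519) (nat_lit 5) (.e (nat_lit 147500) (nat_lit 12) .nil)))))))) (.g (nat_lit 5) .nil .nil))) 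
(.lf (nat_lit 254574) (.g (nat_lit 1674) (.e (nat_lit 163977) (nat_lit 30) (.e (nat_lit 573489) (nat_lit 14) (.e (nat_lit 73768) (nat_lit 19) (.e (nat_lit 647190) (nat_lit 9) (.e (nat_lit 1288) (nat_lit 95) .nil))))) .nil))) (.nd (nat_lit 5) 
(.lf (nat_lit 254558) (.g (nat_lit 3535) (.e (nat_lit 163977) (nat_lit 30) (.e (nat_lit 573484) (nat_lit 13) (.e (nat_lit 65610) (nat_lit 10) (.e (nat_lit 344117) (nat_lit 21) (.e (nat_lit 516151) (nat_lit 9) (.e (nat_lit 426407) (nat_lit 15) (.e (nat_lit 2146) (nat_lit 142) (.e (nat_lit 712448) (nat_lit 3) .nil)))))))) (.g (nat_lit 5) .nil .nil))) 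
(.lf (nat_lit 254590) (.g (nat_lit 4486) (.e (nat_lit 163977) (nat_lit 30) (.e (nat_lit 573492) (nat_lit 15) (.e (nat_lit 81956) (nat_lit 23) (.e (nat_lit 98366) (nat_lit 27) (.e (nat_lit 434272) (nat_lit 38) .nil))))) .nil))))))) (.nd (nat_lit 1) (.nd (nat_lit 2) (.nd (nat_lit 3) (.nd (nat_lit 4) (.nd (nat_lit 5) 
(.lf (nat_lit 254529) (.g (nat_lit 2145) (.e (nat_lit 163977) (nat_lit 30) (.e (nat_lit 573473) (nat_lit 12) (.e (nat_lit 57551) (nat_lit 48) (.e (nat_lit 720941) (nat_lit 22) (.e (nat_lit 90172) (nat_lit 14) (.e (nat_lit 180244) (nat_lit 5) (.e (nat_lit 532519) (nat_lit 5) (.e (nat_lit 147504) (nat_lit 12) .nil)))))))) (.g (nat_lit 4) .nil .nil))) 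
(.lf (nat_lit 254561) (.g (nat_lit 2478) (.e (nat_lit 163977) (nat_lit 30) (.e (nat_lit 573484) (nat_lit 13) (.e (nat_lit 65610) (nat_lit 10) (.e (nat_lit 344117) (nat_lit 21) (.e (nat_lit 516179) (nat_lit 15) .nil))))) .nil))) (.nd (nat_lit 5) 
(.lf (nat_lit 254545) (.g (nat_lit 3424) (.e (nat_lit 163977) (nat_lit 30) (.e (nat_lit 573479) (nat_lit 13) (.e (nat_lit 65619) (nat_lit 10) (.e (nat_lit 344117) (nat_lit 21) (.e (nat_lit 516151) (nat_lit 9) (.e (nat_lit 426042) (nat_lit 0) (.e (nat_lit 3409) (nat_lit 212) (.e (nat_lit 655375) (nat_lit 3) .nil)))))))) (.g (nat_lit 5) .nil .nil))) 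
(.lf (nat_lit 254577) (.g (nat_lit 2047) (.e (nat_lit 163977) (nat_lit 30) (.e (nat_lit 573489) (nat_lit 14) (.e (nat_lit 73768) (nat_lit 19) (.e (nat_lit 647195) (nat_lit 9) (.e (nat_lit 1181) (nat_lit 87) (.e (nat_lit 57870) (nat_lit 264) (.e (nat_lit 1209) (nat_lit 89) (.e (nat_lit 81664) (nat_lit 35) .nil)))))))) (.g (nat_lit 4) .nil .nil))))) (.nd (nat_lit 4) (.nd (nat_lit 5) 
(.lf (nat_lit 254537) (.g (nat_lit 2326) (.e (nat_lit 163977) (nat_lit 30) (.e (nat_lit 573475) (nat_lit 12) (.e (nat_lit 57550) (nat_lit 48) (.e (nat_lit 720937) (nat_lit 22) (.e (nat_lit 90172) (nat_lit 14) (.e (nat_lit 180244) (nat_lit 5) (.e (nat_lit 532519) (nat_lit 5) (.e (nat_lit 147504) (nat_lit 12) .nil)))))))) (.g (nat_lit 4) .nil .nil))) 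
(.lf (nat_lit 254569) (.g (nat_lit 3356) (.e (nat_lit 163977) (nat_lit 30) (.e (nat_lit 573488) (nat_lit 14) (.e (nat_lit 73755) (nat_lit 8) (.e (nat_lit 557098) (nat_lit 13) (.e (nat_lit 172065) (nat_lit 3) .nil))))) .nil))) (.nd (nat_lit 5) 
(.lf (nat_lit 254553) (.g (nat_lit 2742) (.e (nat_lit 163977) (nat_lit 30) (.e (nat_lit 573482) (nat_lit 13) (.e (nat_lit 65619) (nat_lit 10) (.e (nat_lit 344117) (nat_lit 21) (.e (nat_lit 516151) (nat_lit 9) (.e (nat_lit 426407) (nat_lit 15) (.e (nat_lit 2143) (nat_lit 142) (.e (nat_lit 712448) (nat_lit 3) .nil)))))))) (.g (nat_lit 5) .nil .nil))) 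
(.lf (nat_lit 254585) (.g (nat_lit 2280) (.e (nat_lit 163977) (nat_lit 30) (.e (nat_lit 573489) (nat_lit 14) (.e (nat_lit 73768) (nat_lit 19) (.e (nat_lit 647200) (nat_lit 12) (.e (nat_lit 57516) (nat_lit 42) (.e (nat_lit 671763) (nat_lit 5) (.e (nat_lit 81664) (nat_lit 35) .nil))))))) (.g (nat_lit 5) .nil .nil)))))) (.nd (nat_lit 3) (.nd (nat_lit 4) (.nd (nat_lit 5) 
(.lf (nat_lit 254533) (.g (nat_lit 2220) (.e (nat_lit 163977) (nat_lit 30) (.e (nat_lit 573475) (nat_lit 12) (.e (nat_lit 57549) (nat_lit 48) (.e (nat_lit 720941) (nat_lit 22) (.e (nat_lit 90172) (nat_lit 14) (.e (nat_lit 180244) (nat_lit 5) (.e (nat_lit 532519) (nat_lit 5) (.e (nat_lit 147504) (nat_lit 12) .nil)))))))) (.g (nat_lit 4) .nil .nil))) 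
(.lf (nat_lit 254565) (.g (nat_lit 2642) (.e (nat_lit 163977) (nat_lit 30) (.e (nat_lit 573485) (nat_lit 13) (.e (nat_lit 65619) (nat_lit 10) (.e (nat_lit 344117) (nat_lit 21) (.e (nat_lit 516151) (nat_lit 9) (.e (nat_lit 426407) (nat_lit 15) (.e (nat_lit 2143) (nat_lit 142) (.e (nat_lit 712448) (nat_lit 3) .nil)))))))) (.g (nat_lit 5) .nil .nil)))) (.nd (nat_lit 5) 
(.lf (nat_lit 254549) (.g (nat_lit 2890) (.e (nat_lit 163977) (nat_lit 30) (.e (nat_lit 573482) (nat_lit 13) (.e (nat_lit 65604) (nat_lit 9) (.e (nat_lit 336013) (nat_lit 2) (.e (nat_lit 90170) (nat_lit 13) (.e (nat_lit 172135) (nat_lit 15) (.e (nat_lit 2143) (nat_lit 142) (.e (nat_lit 712448) (nat_lit 3) .nil)))))))) (.g (nat_lit 5) .nil .nil))) 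
(.lf (nat_lit 254581) (.g (nat_lit 2139) (.e (nat_lit 163977) (nat_lit 30) (.e (nat_lit 573489) (nat_lit 14) (.e (nat_lit 73768) (nat_lit 19) (.e (nat_lit 647196) (nat_lit 9) (.e (nat_lit 1181) (nat_lit 87) (.e (nat_lit 57870) (nat_lit 264) (.e (nat_lit 1210) (nat_lit 89) (.e (nat_lit 81664) (nat_lit 35) .nil)))))))) (.g (nat_lit 5) .nil .nil))))) (.nd (nat_lit 4) (.nd (nat_lit 5) 
(.lf (nat_lit 254541) (.g (nat_lit 2304) (.e (nat_lit 163977) (nat_lit 30) (.e (nat_lit 573475) (nat_lit 12) (.e (nat_lit 57550) (nat_lit 48) (.e (nat_lit 720945) (nat_lit 23) (.e (nat_lit 98367) (nat_lit 27) (.e (nat_lit 434231) (nat_lit 23) (.e (nat_lit 532519) (nat_lit 5) (.e (nat_lit 147504) (nat_lit 12) .nil)))))))) (.g (nat_lit 5) .nil .nil))) 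
(.lf (nat_lit 254573) (.g (nat_lit 2626) (.e (nat_lit 163977) (nat_lit 30) (.e (nat_lit 573489) (nat_lit 14) (.e (nat_lit 73767) (nat_lit 19) (.e (nat_lit 647195) (nat_lit 9) (.e (nat_lit 1181) (nat_lit 87) (.e (nat_lit 57872) (nat_lit 264) (.e (nat_lit 1211) (nat_lit 89) (.e (nat_lit 81664) (nat_lit 35) .nil)))))))) (.g (nat_lit 5) .nil .nil)))) (.nd (nat_lit 5) 
(.lf (nat_lit 254557) (.g (nat_lit 3488) (.e (nat_lit 163977) (nat_lit 30) (.e (nat_lit 573484) (nat_lit 13) (.e (nat_lit 65610) (nat_lit 10) (.e (nat_lit 344117) (nat_lit 21) (.e (nat_lit 516151) (nat_lit 9) (.e (nat_lit 426407) (nat_lit 15) (.e (nat_lit 2143) (nat_lit 142) (.e (nat_lit 712448) (nat_lit 3) .nil)))))))) (.g (nat_lit 5) .nil .nil))) 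
(.lf (nat_lit 254589) (.g (nat_lit 2314) (.e (nat_lit 163977) (nat_lit 30) (.e (nat_lit 573491) (nat_lit 15) (.e (nat_lit 81951) (nat_lit 22) (.e (nat_lit 90170) (nat_lit 13) (.e (nat_lit 172069) (nat_lit 4) .nil))))) .nil)))))) (.nd (nat_lit 2) (.nd (nat_lit 3) (.nd (nat_lit 4) (.nd (nat_lit 5) 
(.lf (nat_lit 254531) (.g (nat_lit 1292) (.e (nat_lit 163977) (nat_lit 30) (.e (nat_lit 573474) (nat_lit 12) (.e (nat_lit 57555) (nat_lit 49) .nil))) .nil)) 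
(.lf (nat_lit 254563) (.g (nat_lit 2742) (.e (nat_lit 163977) (nat_lit 30) (.e (nat_lit 573485) (nat_lit 13) (.e (nat_lit 65604) (nat_lit 9) (.e (nat_lit 336013) (nat_lit 2) (.e (nat_lit 90170) (nat_lit 13) (.e (nat_lit 172135) (nat_lit 15) (.e (nat_lit 2143) (nat_lit 142) (.e (nat_lit 712448) (nat_lit 3) .nil)))))))) (.g (nat_lit 5) .nil .nil)))) (.nd (nat_lit 5) 
(.lf (nat_lit 254547) (.g (nat_lit 2041) (.e (nat_lit 163977) (nat_lit 30) (.e (nat_lit 573479) (nat_lit 13) (.e (nat_lit 65619) (nat_lit 10) (.e (nat_lit 344117) (nat_lit 21) (.e (nat_lit 516159) (nat_lit 10) (.e (nat_lit 434271) (nat_lit 38) (.e (nat_lit 655375) (nat_lit 3) .nil))))))) (.g (nat_lit 4) .nil .nil))) 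
(.lf (nat_lit 254579) (.g (nat_lit 2259) (.e (nat_lit 163977) (nat_lit 30) (.e (nat_lit 573489) (nat_lit 14) (.e (nat_lit 73768) (nat_lit 19) (.e (nat_lit 647195) (nat_lit 9) (.e (nat_lit 1181) (nat_lit 87) (.e (nat_lit 57870) (nat_lit 264) (.e (nat_lit 1211) (nat_lit 89) (.e (nat_lit 81664) (nat_lit 35) .nil)))))))) (.g (nat_lit 4) .nil .nil))))) (.nd (nat_lit 4) (.nd (nat_lit 5) 
(.lf (nat_lit 254539) (.g (nat_lit 2353) (.e (nat_lit 163977) (nat_lit 30) (.e (nat_lit 573475) (nat_lit 12) (.e (nat_lit 57550) (nat_lit 48) (.e (nat_lit 720941) (nat_lit 22) (.e (nat_lit 90172) (nat_lit 14) (.e (nat_lit 180244) (nat_lit 5) (.e (nat_lit 532519) (nat_lit 5) (.e (nat_lit 147504) (nat_lit 12) .nil)))))))) (.g (nat_lit 4) .nil .nil))) 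
(.lf (nat_lit 254571) (.g (nat_lit 2551) (.e (nat_lit 163977) (nat_lit 30) (.e (nat_lit 573489) (nat_lit 14) (.e (nat_lit 73755) (nat_lit 8) (.e (nat_lit 557104) (nat_lit 14) (.e (nat_lit 180244) (nat_lit 5) (.e (nat_lit 532481) (nat_lit 0) (.e (nat_lit 2266) (nat_lit 149) (.e (nat_lit 761895) (nat_lit 15) .nil)))))))) (.g (nat_lit 4) .nil .nil)))) (.nd (nat_lit 5) 
(.lf (nat_lit 254555) (.g (nat_lit 2025) (.e (nat_lit 163977) (nat_lit 30) (.e (nat_lit 573482) (nat_lit 13) (.e (nat_lit 65619) (nat_lit 10) (.e (nat_lit 344117) (nat_lit 21) (.e (nat_lit 516180) (nat_lit 15) .nil))))) .nil)) 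
(.lf (nat_lit 254587) (.g (nat_lit 2698) (.e (nat_lit 163977) (nat_lit 30) (.e (nat_lit 573489) (nat_lit 14) (.e (nat_lit 73768) (nat_lit 19) (.e (nat_lit 647201) (nat_lit 12) (.e (nat_lit 57357) (nat_lit 0) (.e (nat_lit 5907) (nat_lit 320) (.e (nat_lit 1211) (nat_lit 89) (.e (nat_lit 81664) (nat_lit 35) .nil)))))))) (.g (nat_lit 6) .nil .nil)))))) 
(.nd (nat_lit 3) (.nd (nat_lit 4) (.nd (nat_lit 5) 
(.lf (nat_lit 254535) (.g (nat_lit 2743) (.e (nat_lit 163977) (nat_lit 30) (.e (nat_lit 573475) (nat_lit 12) (.e (nat_lit 57549) (nat_lit 48) (.e (nat_lit 720945) (nat_lit 23) (.e (nat_lit 98366) (nat_lit 27) (.e (nat_lit 434231) (nat_lit 23) (.e (nat_lit 532519) (nat_lit 5) (.e (nat_lit 147504) (nat_lit 12) .nil)))))))) (.g (nat_lit 5) .nil .nil))) 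
(.lf (nat_lit 254567) (.g (nat_lit 1913) (.e (nat_lit 163977) (nat_lit 30) (.e (nat_lit 573485) (nat_lit 13) (.e (nat_lit 65619) (nat_lit 10) (.e (nat_lit 344117) (nat_lit 21) (.e (nat_lit 516180) (nat_lit 15) .nil))))) .nil))) (.nd (nat_lit 5) 
(.lf (nat_lit 254551) (.g (nat_lit 2549) (.e (nat_lit 163977) (nat_lit 30) (.e (nat_lit 573482) (nat_lit 13) (.e (nat_lit 65604) (nat_lit 9) (.e (nat_lit 336028) (nat_lit 3) (.e (nat_lit 98359) (nat_lit 26) (.e (nat_lit 426407) (nat_lit 15) (.e (nat_lit 2143) (nat_lit 142) (.e (nat_lit 712448) (nat_lit 3) .nil)))))))) (.g (nat_lit 5) .nil .nil))) 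
(.lf (nat_lit 254583) (.g (nat_lit 3905) (.e (nat_lit 163977) (nat_lit 30) (.e (nat_lit 573489) (nat_lit 14) (.e (nat_lit 73768) (nat_lit 19) (.e (nat_lit 647196) (nat_lit 9) (.e (nat_lit 1181) (nat_lit 87) (.e (nat_lit 57872) (nat_lit 264) (.e (nat_lit 1211) (nat_lit 89) (.e (nat_lit 81664) (nat_lit 35) .nil)))))))) (.g (nat_lit 7) .nil .nil))))) (.nd (nat_lit 4) (.nd (nat_lit 5) 
(.lf (nat_lit 254543) (.g (nat_lit 2131) (.e (nat_lit 163977) (nat_lit 30) (.e (nat_lit 573477) (nat_lit 12) (.e (nat_lit 57549) (nat_lit 48) (.e (nat_lit 720945) (nat_lit 23) (.e (nat_lit 98366) (nat_lit 27) (.e (nat_lit 434231) (nat_lit 23) (.e (nat_lit 532519) (nat_lit 5) (.e (nat_lit 147504) (nat_lit 12) .nil)))))))) (.g (nat_lit 5) .nil .nil))) 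
(.lf (nat_lit 254575) (.g (nat_lit 2019) (.e (nat_lit 163977) (nat_lit 30) (.e (nat_lit 573489) (nat_lit 14) (.e (nat_lit 73768) (nat_lit 19) (.e (nat_lit 647194) (nat_lit 9) (.e (nat_lit 1181) (nat_lit 87) (.e (nat_lit 57870) (nat_lit 264) (.e (nat_lit 1210) (nat_lit 89) (.e (nat_lit 81664) (nat_lit 35) .nil)))))))) (.g (nat_lit 5) .nil .nil)))) (.nd (nat_lit 5) 
(.lf (nat_lit 254559) (.g (nat_lit 3562) (.e (nat_lit 163977) (nat_lit 30) (.e (nat_lit 573484) (nat_lit 13) (.e (nat_lit 65610) (nat_lit 10) (.e (nat_lit 344117) (nat_lit 21) (.e (nat_lit 516151) (nat_lit 9) (.e (nat_lit 426412) (nat_lit 15) (.e (nat_lit 2056) (nat_lit 142) (.e (nat_lit 704589) (nat_lit 3) .nil)))))))) (.g (nat_lit 5) .nil .nil))) 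
(.lf (nat_lit 254591) (.g (nat_lit 3418) (.e (nat_lit 163977) (nat_lit 30) (.e (nat_lit 573492) (nat_lit 15) (.e (nat_lit 81956) (nat_lit 23) (.e (nat_lit 98384) (nat_lit 32) (.e (nat_lit 483072) (nat_lit 40) .nil))))) .nil))))))))

noncomputable def tv3302 : DT := (.nd (nat_lit 0) (.nd (nat_lit 1) (.nd (nat_lit 2) (.nd (nat_lit 3) (.nd (nat_lit 4) (.nd (nat_lit 5) 
(.lf (nat_lit 254592) (.g (nat_lit 3288) (.e (nat_lit 163977) (nat_lit 30) (.e (nat_lit 573493) (nat_lit 15) (.e (nat_lit 81953) (nat_lit 22) (.e (nat_lit 90166) (nat_lit 13) (.e (nat_lit 172070) (nat_lit 4) .nil))))) .nil)) 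
(.lf (nat_lit 254624) (.g (nat_lit 3473) (.e (nat_lit 163978) (nat_lit 30) (.e (nat_lit 573477) (nat_lit 12) (.e (nat_lit 57549) (nat_lit 48) (.e (nat_lit 720945) (nat_lit 23) (.e (nat_lit 98354) (nat_lit 26) (.e (nat_lit 426140) (nat_lit 3) (.e (nat_lit 204821) (nat_lit 17) (.e (nat_lit 2346) (nat_lit 151) (.e (nat_lit 778482) (nat_lit 12) .nil))))))))) (.g (nat_lit 6) .nil .nil)))) 
(.nd (nat_lit 5) 
(.lf (nat_lit 254608) (.g (nat_lit 1916) (.e (nat_lit 163977) (nat_lit 30) (.e (nat_lit 573503) (nat_lit 18) (.e (nat_lit 1358) (nat_lit 102) (.e (nat_lit 286749) (nat_lit 9) (.e (nat_lit 336028) (nat_lit 3) .nil))))) .nil)) 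
(.lf (nat_lit 254640) (.g (nat_lit 2584) (.e (nat_lit 163978) (nat_lit 30) (.e (nat_lit 573478) (nat_lit 12) (.e (nat_lit 57549) (nat_lit 48) (.e (nat_lit 720940) (nat_lit 22) (.e (nat_lit 90170) (nat_lit 13) (.e (nat_lit 172067) (nat_lit 3) (.e (nat_lit 204842) (nat_lit 22) (.e (nat_lit 147498) (nat_lit 12) .nil)))))))) (.g (nat_lit 5) .nil .nil))))) (.nd (nat_lit 4) (.nd (nat_lit 5) 
(.lf (nat_lit 254600) (.g (nat_lit 2909) (.e (nat_lit 163977) (nat_lit 30) (.e (nat_lit 573493) (nat_lit 15) (.e (nat_lit 81956) (nat_lit 23) (.e (nat_lit 98368) (nat_lit 27) (.e (nat_lit 434270) (nat_lit 38) .nil))))) .nil)) 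
(.lf (nat_lit 254632) (.g (nat_lit 3616) (.e (nat_lit 163978) (nat_lit 30) (.e (nat_lit 573478) (nat_lit 12) (.e (nat_lit 57549) (nat_lit 48) (.e (nat_lit 720937) (nat_lit 22) (.e (nat_lit 90172) (nat_lit 14) (.e (nat_lit 180244) (nat_lit 5) (.e (nat_lit 532519) (nat_lit 5) (.e (nat_lit 147504) (nat_lit 12) .nil)))))))) (.g (nat_lit 6) .nil .nil)))) (.nd (nat_lit 5) 
(.lf (nat_lit 254616) (.g (nat_lit 4168) (.e (nat_lit 163978) (nat_lit 30) (.e (nat_lit 573475) (nat_lit 12) (.e (nat_lit 57550) (nat_lit 48) (.e (nat_lit 720939) (nat_lit 22) (.e (nat_lit 90170) (nat_lit 13) (.e (nat_lit 172065) (nat_lit 3) (.e (nat_lit 204821) (nat_lit 17) (.e (nat_lit 2346) (nat_lit 151) (.e (nat_lit 778482) (nat_lit 12) .nil))))))))) (.g (nat_lit 5) .nil .nil))) 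
(.lf (nat_lit 254648) (.g (nat_lit 3314) (.e (nat_lit 163978) (nat_lit 30) (.e (nat_lit 573478) (nat_lit 12) (.e (nat_lit 57549) (nat_lit 48) (.e (nat_lit 720945) (nat_lit 23) (.e (nat_lit 98367) (nat_lit 27) (.e (nat_lit 434231) (nat_lit 23) (.e (nat_lit 532519) (nat_lit 5) (.e (nat_lit 147498) (nat_lit 12) .nil)))))))) (.g (nat_lit 6) .nil .nil)))))) 
(.nd (nat_lit 3) (.nd (nat_lit 4) (.nd (nat_lit 5) 
(.lf (nat_lit 254596) (.g (nat_lit 3101) (.e (nat_lit 163977) (nat_lit 30) (.e (nat_lit 573493) (nat_lit 15) (.e (nat_lit 81953) (nat_lit 22) (.e (nat_lit 90170) (nat_lit 13) (.e (nat_lit 172135) (nat_lit 15) (.e (nat_lit 2146) (nat_lit 142) (.e (nat_lit 712448) (nat_lit 3) .nil))))))) (.g (nat_lit 6) .nil .nil))) 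
(.lf (nat_lit 254628) (.g (nat_lit 3164) (.e (nat_lit 163978) (nat_lit 30) (.e (nat_lit 573477) (nat_lit 12) (.e (nat_lit 57549) (nat_lit 48) (.e (nat_lit 720945) (nat_lit 23) (.e (nat_lit 98367) (nat_lit 27) (.e (nat_lit 434231) (nat_lit 23) (.e (nat_lit 532519) (nat_lit 5) (.e (nat_lit 147504) (nat_lit 12) .nil)))))))) (.g (nat_lit 5) .nil .nil)))) (.nd (nat_lit 5) 
(.lf (nat_lit 254612) (.g (nat_lit 4260) (.e (nat_lit 163978) (nat_lit 30) (.e (nat_lit 573475) (nat_lit 12) (.e (nat_lit 57549) (nat_lit 48) (.e (nat_lit 720940) (nat_lit 22) (.e (nat_lit 90170) (nat_lit 13) (.e (nat_lit 172065) (nat_lit 3) (.e (nat_lit 204821) (nat_lit 17) (.e (nat_lit 2346) (nat_lit 151) (.e (nat_lit 778482) (nat_lit 12) .nil))))))))) (.g (nat_lit 5) .nil .nil))) 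
(.lf (nat_lit 254644) (.g (nat_lit 2883) (.e (nat_lit 163978) (nat_lit 30) (.e (nat_lit 573478) (nat_lit 12) (.e (nat_lit 57549) (nat_lit 48) (.e (nat_lit 720941) (nat_lit 22) (.e (nat_lit 90172) (nat_lit 14) (.e (nat_lit 180244) (nat_lit 5) (.e (nat_lit 532519) (nat_lit 5) (.e (nat_lit 147503) (nat_lit 12) .nil)))))))) (.g (nat_lit 6) .nil .nil))))) (.nd (nat_lit 4) (.nd (nat_lit 5) 
(.lf (nat_lit 254604) (.g (nat_lit 1954) (.e (nat_lit 163977) (nat_lit 30) (.e (nat_lit 573503) (nat_lit 18) (.e (nat_lit 1349) (nat_lit 102) (.e (nat_lit 286747) (nat_lit 9) (.e (nat_lit 336028) (nat_lit 3) .nil))))) .nil)) 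
(.lf (nat_lit 254636) (.g (nat_lit 3279) (.e (nat_lit 163978) (nat_lit 30) (.e (nat_lit 573478) (nat_lit 12) (.e (nat_lit 57549) (nat_lit 48) (.e (nat_lit 720939) (nat_lit 22) (.e (nat_lit 90170) (nat_lit 13) (.e (nat_lit 172065) (nat_lit 3) (.e (nat_lit 204821) (nat_lit 17) (.e (nat_lit 2346) (nat_lit 151) (.e (nat_lit 778482) (nat_lit 12) .nil))))))))) (.g (nat_lit 5) .nil .nil)))) 
(.nd (nat_lit 5) 
(.lf (nat_lit 254620) (.g (nat_lit 2845) (.e (nat_lit 163978) (nat_lit 30) (.e (nat_lit 573477) (nat_lit 12) (.e (nat_lit 57549) (nat_lit 48) (.e (nat_lit 720937) (nat_lit 22) (.e (nat_lit 90172) (nat_lit 14) (.e (nat_lit 180244) (nat_lit 5) (.e (nat_lit 532519) (nat_lit 5) (.e (nat_lit 147504) (nat_lit 12) .nil)))))))) (.g (nat_lit 5) .nil .nil))) 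
(.lf (nat_lit 254652) (.g (nat_lit 3431) (.e (nat_lit 163978) (nat_lit 30) (.e (nat_lit 573484) (nat_lit 13) (.e (nat_lit 65610) (nat_lit 10) (.e (nat_lit 344117) (nat_lit 21) (.e (nat_lit 516145) (nat_lit 9) (.e (nat_lit 426352) (nat_lit 15) (.e (nat_lit 2108) (nat_lit 142) (.e (nat_lit 712448) (nat_lit 3) .nil)))))))) (.g (nat_lit 5) .nil .nil))))))) 
(.nd (nat_lit 2) (.nd (nat_lit 3) (.nd (nat_lit 4) (.nd (nat_lit 5) 
(.lf (nat_lit 254594) (.g (nat_lit 3424) (.e (nat_lit 163977) (nat_lit 30) (.e (nat_lit 573493) (nat_lit 15) (.e (nat_lit 81953) (nat_lit 22) (.e (nat_lit 90170) (nat_lit 13) (.e (nat_lit 172134) (nat_lit 15) .nil))))) .nil)) 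
(.lf (nat_lit 254626) (.g (nat_lit 2607) (.e (nat_lit 163978) (nat_lit 30) (.e (nat_lit 573477) (nat_lit 12) (.e (nat_lit 57549) (nat_lit 48) (.e (nat_lit 720945) (nat_lit 23) (.e (nat_lit 98367) (nat_lit 27) (.e (nat_lit 434231) (nat_lit 23) (.e (nat_lit 532519) (nat_lit 5) (.e (nat_lit 147498) (nat_lit 12) .nil)))))))) (.g (nat_lit 5) .nil .nil)))) (.nd (nat_lit 5) 
(.lf (nat_lit 254610) (.g (nat_lit 3729) (.e (nat_lit 163977) (nat_lit 30) (.e (nat_lit 573503) (nat_lit 18) (.e (nat_lit 1358) (nat_lit 102) (.e (nat_lit 286753) (nat_lit 10) (.e (nat_lit 344117) (nat_lit 21) (.e (nat_lit 516160) (nat_lit 10) (.e (nat_lit 434275) (nat_lit 39) (.e (nat_lit 663585) (nat_lit 12) .nil)))))))) (.g (nat_lit 6) .nil .nil))) 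
(.lf (nat_lit 254642) (.g (nat_lit 3110) (.e (nat_lit 163978) (nat_lit 30) (.e (nat_lit 573478) (nat_lit 12) (.e (nat_lit 57549) (nat_lit 48) (.e (nat_lit 720940) (nat_lit 22) (.e (nat_lit 90170) (nat_lit 13) (.e (nat_lit 172067) (nat_lit 3) (.e (nat_lit 204842) (nat_lit 22) (.e (nat_lit 147504) (nat_lit 12) .nil)))))))) (.g (nat_lit 5) .nil .nil))))) (.nd (nat_lit 4) (.nd (nat_lit 5) 
(.lf (nat_lit 254602) (.g (nat_lit 3668) (.e (nat_lit 163977) (nat_lit 30) (.e (nat_lit 573493) (nat_lit 15) (.e (nat_lit 81956) (nat_lit 23) (.e (nat_lit 98383) (nat_lit 32) .nil)))) .nil)) 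
(.lf (nat_lit 254634) (.g (nat_lit 2629) (.e (nat_lit 163978) (nat_lit 30) (.e (nat_lit 573478) (nat_lit 12) (.e (nat_lit 57549) (nat_lit 48) (.e (nat_lit 720938) (nat_lit 22) (.e (nat_lit 90172) (nat_lit 14) (.e (nat_lit 180244) (nat_lit 5) (.e (nat_lit 532519) (nat_lit 5) (.e (nat_lit 147503) (nat_lit 12) .nil)))))))) (.g (nat_lit 5) .nil .nil)))) (.nd (nat_lit 5) 
(.lf (nat_lit 254618) (.g (nat_lit 393) (.e (nat_lit 163978) (nat_lit 30) (.e (nat_lit 573477) (nat_lit 12) (.e (nat_lit 57549) (nat_lit 48) .nil))) .nil)) 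
(.lf (nat_lit 254650) (.g (nat_lit 1273) (.e (nat_lit 163978) (nat_lit 30) (.e (nat_lit 573481) (nat_lit 13) (.e (nat_lit 65604) (nat_lit 9) (.e (nat_lit 336028) (nat_lit 3) .nil)))) .nil))))) (.nd (nat_lit 3) (.nd (nat_lit 4) (.nd (nat_lit 5) 
(.lf (nat_lit 254598) (.g (nat_lit 3331) (.e (nat_lit 163977) (nat_lit 30) (.e (nat_lit 573493) (nat_lit 15) (.e (nat_lit 81954) (nat_lit 23) (.e (nat_lit 98367) (nat_lit 27) (.e (nat_lit 434270) (nat_lit 38) .nil))))) .nil)) 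
(.lf (nat_lit 254630) (.g (nat_lit 2997) (.e (nat_lit 163978) (nat_lit 30) (.e (nat_lit 573478) (nat_lit 12) (.e (nat_lit 57549) (nat_lit 48) (.e (nat_lit 720937) (nat_lit 22) (.e (nat_lit 90172) (nat_lit 14) (.e (nat_lit 180244) (nat_lit 5) (.e (nat_lit 532519) (nat_lit 5) (.e (nat_lit 147498) (nat_lit 12) .nil)))))))) (.g (nat_lit 6) .nil .nil)))) (.nd (nat_lit 5) 
(.lf (nat_lit 254614) (.g (nat_lit 991) (.e (nat_lit 163978) (nat_lit 30) (.e (nat_lit 573475) (nat_lit 12) (.e (nat_lit 57550) (nat_lit 48) .nil))) .nil)) 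
(.lf (nat_lit 254646) (.g (nat_lit 1975) (.e (nat_lit 163978) (nat_lit 30) (.e (nat_lit 573478) (nat_lit 12) (.e (nat_lit 57549) (nat_lit 48) (.e (nat_lit 720941) (nat_lit 22) (.e (nat_lit 90174) (nat_lit 14) (.e (nat_lit 180243) (nat_lit 5) (.e (nat_lit 532519) (nat_lit 5) (.e (nat_lit 147498) (nat_lit 12) .nil)))))))) (.g (nat_lit 5) .nil .nil))))) (.nd (nat_lit 4) (.nd (nat_lit 5) 
(.lf (nat_lit 254606) (.g (nat_lit 2157) (.e (nat_lit 163977) (nat_lit 30) (.e (nat_lit 573503) (nat_lit 18) (.e (nat_lit 1349) (nat_lit 102) (.e (nat_lit 286748) (nat_lit 9) (.e (nat_lit 336023) (nat_lit 3) .nil))))) .nil)) 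
(.lf (nat_lit 254638) (.g (nat_lit 2609) (.e (nat_lit 163978) (nat_lit 30) (.e (nat_lit 573478) (nat_lit 12) (.e (nat_lit 57549) (nat_lit 48) (.e (nat_lit 720940) (nat_lit 22) (.e (nat_lit 90170) (nat_lit 13) (.e (nat_lit 172065) (nat_lit 3) (.e (nat_lit 204842) (nat_lit 22) (.e (nat_lit 147504) (nat_lit 12) .nil)))))))) (.g (nat_lit 5) .nil .nil)))) (.nd (nat_lit 5) 
(.lf (nat_lit 254622) (.g (nat_lit 2286) (.e (nat_lit 163978) (nat_lit 30) (.e (nat_lit 573477) (nat_lit 12) (.e (nat_lit 57549) (nat_lit 48) (.e (nat_lit 720941) (nat_lit 22) (.e (nat_lit 90172) (nat_lit 14) (.e (nat_lit 180244) (nat_lit 5) (.e (nat_lit 532519) (nat_lit 5) (.e (nat_lit 147498) (nat_lit 12) .nil)))))))) (.g (nat_lit 5) .nil .nil))) 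
(.lf (nat_lit 254654) (.g (nat_lit 3408) (.e (nat_lit 163978) (nat_lit 30) (.e (nat_lit 573484) (nat_lit 13) (.e (nat_lit 65610) (nat_lit 10) (.e (nat_lit 344117) (nat_lit 21) (.e (nat_lit 516145) (nat_lit 9) (.e (nat_lit 426352) (nat_lit 15) (.e (nat_lit 2112) (nat_lit 142) (.e (nat_lit 712448) (nat_lit 3) .nil)))))))) (.g (nat_lit 5) .nil .nil)))))))) 
(.nd (nat_lit 1) (.nd (nat_lit 2) (.nd (nat_lit 3) (.nd (nat_lit 4) (.nd (nat_lit 5) 
(.lf (nat_lit 254593) (.g (nat_lit 2444) (.e (nat_lit 163977) (nat_lit 30) (.e (nat_lit 573493) (nat_lit 15) (.e (nat_lit 81953) (nat_lit 22) (.e (nat_lit 90170) (nat_lit 13) (.e (nat_lit 179968) (nat_lit 4) .nil))))) .nil)) 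
(.lf (nat_lit 254625) (.g (nat_lit 2818) (.e (nat_lit 163978) (nat_lit 30) (.e (nat_lit 573477) (nat_lit 12) (.e (nat_lit 57549) (nat_lit 48) (.e (nat_lit 720945) (nat_lit 23) (.e (nat_lit 98366) (nat_lit 27) (.e (nat_lit 434231) (nat_lit 23) (.e (nat_lit 532519) (nat_lit 5) (.e (nat_lit 147503) (nat_lit 12) .nil)))))))) (.g (nat_lit 5) .nil .nil)))) (.nd (nat_lit 5) 
(.lf (nat_lit 254609) (.g (nat_lit 3998) (.e (nat_lit 163977) (nat_lit 30) (.e (nat_lit 573503) (nat_lit 18) (.e (nat_lit 1358) (nat_lit 102) (.e (nat_lit 286753) (nat_lit 10) (.e (nat_lit 344117) (nat_lit 21) (.e (nat_lit 516159) (nat_lit 10) (.e (nat_lit 434275) (nat_lit 39) (.e (nat_lit 663585) (nat_lit 12) .nil)))))))) (.g (nat_lit 7) .nil .nil))) 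
(.lf (nat_lit 254641) (.g (nat_lit 2473) (.e (nat_lit 163978) (nat_lit 30) (.e (nat_lit 573478) (nat_lit 12) (.e (nat_lit 57549) (nat_lit 48) (.e (nat_lit 720940) (nat_lit 22) (.e (nat_lit 90170) (nat_lit 13) (.e (nat_lit 172067) (nat_lit 3) (.e (nat_lit 204842) (nat_lit 22) (.e (nat_lit 147503) (nat_lit 12) .nil)))))))) (.g (nat_lit 5) .nil .nil))))) (.nd (nat_lit 4) (.nd (nat_lit 5) 
(.lf (nat_lit 254601) (.g (nat_lit 2641) (.e (nat_lit 163977) (nat_lit 30) (.e (nat_lit 573493) (nat_lit 15) (.e (nat_lit 81956) (nat_lit 23) (.e (nat_lit 98368) (nat_lit 27) (.e (nat_lit 434272) (nat_lit 38) .nil))))) .nil)) 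
(.lf (nat_lit 254633) (.g (nat_lit 2739) (.e (nat_lit 163978) (nat_lit 30) (.e (nat_lit 573478) (nat_lit 12) (.e (nat_lit 57549) (nat_lit 48) (.e (nat_lit 720938) (nat_lit 22) (.e (nat_lit 90172) (nat_lit 14) (.e (nat_lit 180244) (nat_lit 5) (.e (nat_lit 532519) (nat_lit 5) (.e (nat_lit 147498) (nat_lit 12) .nil)))))))) (.g (nat_lit 6) .nil .nil)))) (.nd (nat_lit 5) 
(.lf (nat_lit 254617) (.g (nat_lit 2465) (.e (nat_lit 163978) (nat_lit 30) (.e (nat_lit 573477) (nat_lit 12) (.e (nat_lit 57548) (nat_lit 47) (.e (nat_lit 712729) (nat_lit 18) (.e (nat_lit 204862) (nat_lit 27) (.e (nat_lit 344117) (nat_lit 21) (.e (nat_lit 516123) (nat_lit 2) (.e (nat_lit 213033) (nat_lit 12) .nil)))))))) (.g (nat_lit 5) .nil .nil))) 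
(.lf (nat_lit 254649) (.g (nat_lit 3935) (.e (nat_lit 163978) (nat_lit 30) (.e (nat_lit 573478) (nat_lit 12) (.e (nat_lit 57549) (nat_lit 48) (.e (nat_lit 720945) (nat_lit 23) (.e (nat_lit 98367) (nat_lit 27) (.e (nat_lit 434231) (nat_lit 23) (.e (nat_lit 532519) (nat_lit 5) (.e (nat_lit 147504) (nat_lit 12) .nil)))))))) (.g (nat_lit 6) .nil .nil)))))) 
(.nd (nat_lit 3) (.nd (nat_lit 4) (.nd (nat_lit 5) 
(.lf (nat_lit 254597) (.g (nat_lit 2680) (.e (nat_lit 163977) (nat_lit 30) (.e (nat_lit 573493) (nat_lit 15) (.e (nat_lit 81954) (nat_lit 23) (.e (nat_lit 98366) (nat_lit 27) (.e (nat_lit 434272) (nat_lit 38) .nil))))) .nil)) 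
(.lf (nat_lit 254629) (.g (nat_lit 4053) (.e (nat_lit 163978) (nat_lit 30) (.e (nat_lit 573478) (nat_lit 12) (.e (nat_lit 57532) (nat_lit 46) (.e (nat_lit 704612) (nat_lit 9) (.e (nat_lit 1239) (nat_lit 91) (.e (nat_lit 90170) (nat_lit 13) (.e (nat_lit 172065) (nat_lit 3) (.e (nat_lit 204821) (nat_lit 17) (.e (nat_lit 2346) (nat_lit 151) (.e (nat_lit 778482) (nat_lit 12) .nil)))))))))) (.g (nat_lit 6) .nil .nil)))) 
(.nd (nat_lit 5) 
(.lf (nat_lit 254613) (.g (nat_lit 3812) (.e (nat_lit 163978) (nat_lit 30) (.e (nat_lit 573475) (nat_lit 12) (.e (nat_lit 57549) (nat_lit 48) (.e (nat_lit 720945) (nat_lit 23) (.e (nat_lit 98366) (nat_lit 27) (.e (nat_lit 434231) (nat_lit 23) (.e (nat_lit 532519) (nat_lit 5) (.e (nat_lit 147504) (nat_lit 12) .nil)))))))) (.g (nat_lit 5) .nil .nil))) 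
(.lf (nat_lit 254645) (.g (nat_lit 3612) (.e (nat_lit 163978) (nat_lit 30) (.e (nat_lit 573478) (nat_lit 12) (.e (nat_lit 57549) (nat_lit 48) (.e (nat_lit 720941) (nat_lit 22) (.e (nat_lit 90172) (nat_lit 14) (.e (nat_lit 180244) (nat_lit 5) (.e (nat_lit 532519) (nat_lit 5) (.e (nat_lit 147504) (nat_lit 12) .nil)))))))) (.g (nat_lit 6) .nil .nil))))) (.nd (nat_lit 4) (.nd (nat_lit 5) 
(.lf (nat_lit 254605) (.g (nat_lit 2297) (.e (nat_lit 163977) (nat_lit 30) (.e (nat_lit 573503) (nat_lit 18) (.e (nat_lit 1349) (nat_lit 102) (.e (nat_lit 286748) (nat_lit 9) (.e (nat_lit 336020) (nat_lit 3) (.e (nat_lit 98366) (nat_lit 27) (.e (nat_lit 434275) (nat_lit 39) (.e (nat_lit 663585) (nat_lit 12) .nil)))))))) (.g (nat_lit 4) .nil .nil))) 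
(.lf (nat_lit 254637) (.g (nat_lit 2086) (.e (nat_lit 163978) (nat_lit 30) (.e (nat_lit 573478) (nat_lit 12) (.e (nat_lit 57549) (nat_lit 48) (.e (nat_lit 720940) (nat_lit 22) (.e (nat_lit 90170) (nat_lit 13) (.e (nat_lit 172065) (nat_lit 3) (.e (nat_lit 204842) (nat_lit 22) (.e (nat_lit 147498) (nat_lit 12) .nil)))))))) (.g (nat_lit 5) .nil .nil)))) (.nd (nat_lit 5) 
(.lf (nat_lit 254621) (.g (nat_lit 3479) (.e (nat_lit 163978) (nat_lit 30) (.e (nat_lit 573477) (nat_lit 12) (.e (nat_lit 57549) (nat_lit 48) (.e (nat_lit 720940) (nat_lit 22) (.e (nat_lit 90170) (nat_lit 13) (.e (nat_lit 172062) (nat_lit 2) (.e (nat_lit 196661) (nat_lit 12) (.e (nat_lit 57575) (nat_lit 55) (.e (nat_lit 778482) (nat_lit 12) .nil))))))))) (.g (nat_lit 5) .nil .nil))) 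
(.lf (nat_lit 254653) (.g (nat_lit 2555) (.e (nat_lit 163978) (nat_lit 30) (.e (nat_lit 573484) (nat_lit 13) (.e (nat_lit 65610) (nat_lit 10) (.e (nat_lit 344117) (nat_lit 21) (.e (nat_lit 516145) (nat_lit 9) (.e (nat_lit 426352) (nat_lit 15) (.e (nat_lit 2109) (nat_lit 142) (.e (nat_lit 712448) (nat_lit 3) .nil)))))))) (.g (nat_lit 4) .nil .nil))))))) 
(.nd (nat_lit 2) (.nd (nat_lit 3) (.nd (nat_lit 4) (.nd (nat_lit 5) 
(.lf (nat_lit 254595) (.g (nat_lit 2166) (.e (nat_lit 163977) (nat_lit 30) (.e (nat_lit 573493) (nat_lit 15) (.e (nat_lit 81953) (nat_lit 22) (.e (nat_lit 90170) (nat_lit 13) (.e (nat_lit 172135) (nat_lit 15) .nil))))) .nil)) 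
(.lf (nat_lit 254627) (.g (nat_lit 2610) (.e (nat_lit 163978) (nat_lit 30) (.e (nat_lit 573477) (nat_lit 12) (.e (nat_lit 57549) (nat_lit 48) (.e (nat_lit 720945) (nat_lit 23) (.e (nat_lit 98367) (nat_lit 27) (.e (nat_lit 434231) (nat_lit 23) (.e (nat_lit 532519) (nat_lit 5) (.e (nat_lit 147503) (nat_lit 12) .nil)))))))) (.g (nat_lit 5) .nil .nil)))) (.nd (nat_lit 5) 
(.lf (nat_lit 254611) (.g (nat_lit 991) (.e (nat_lit 163978) (nat_lit 30) (.e (nat_lit 573475) (nat_lit 12) (.e (nat_lit 57549) (nat_lit 48) .nil))) .nil)) 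
(.lf (nat_lit 254643) (.g (nat_lit 2993) (.e (nat_lit 163978) (nat_lit 30) (.e (nat_lit 573478) (nat_lit 12) (.e (nat_lit 57549) (nat_lit 48) (.e (nat_lit 720941) (nat_lit 22) (.e (nat_lit 90172) (nat_lit 14) (.e (nat_lit 180244) (nat_lit 5) (.e (nat_lit 532519) (nat_lit 5) (.e (nat_lit 147498) (nat_lit 12) .nil)))))))) (.g (nat_lit 6) .nil .nil))))) (.nd (nat_lit 4) (.nd (nat_lit 5) 
(.lf (nat_lit 254603) (.g (nat_lit 3491) (.e (nat_lit 163977) (nat_lit 30) (.e (nat_lit 573493) (nat_lit 15) (.e (nat_lit 81956) (nat_lit 23) (.e (nat_lit 98386) (nat_lit 32) .nil)))) .nil)) 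
(.lf (nat_lit 254635) (.g (nat_lit 3358) (.e (nat_lit 163978) (nat_lit 30) (.e (nat_lit 573478) (nat_lit 12) (.e (nat_lit 57549) (nat_lit 48) (.e (nat_lit 720938) (nat_lit 22) (.e (nat_lit 90172) (nat_lit 14) (.e (nat_lit 180244) (nat_lit 5) (.e (nat_lit 532519) (nat_lit 5) (.e (nat_lit 147504) (nat_lit 12) .nil)))))))) (.g (nat_lit 6) .nil .nil)))) (.nd (nat_lit 5) 
(.lf (nat_lit 254619) (.g (nat_lit 2290) (.e (nat_lit 163978) (nat_lit 30) (.e (nat_lit 573477) (nat_lit 12) (.e (nat_lit 57549) (nat_lit 48) (.e (nat_lit 720937) (nat_lit 22) (.e (nat_lit 90172) (nat_lit 14) (.e (nat_lit 180244) (nat_lit 5) (.e (nat_lit 532519) (nat_lit 5) (.e (nat_lit 147498) (nat_lit 12) .nil)))))))) (.g (nat_lit 5) .nil .nil))) 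
(.lf (nat_lit 254651) (.g (nat_lit 3555) (.e (nat_lit 163978) (nat_lit 30) (.e (nat_lit 573483) (nat_lit 13) (.e (nat_lit 65610) (nat_lit 10) (.e (nat_lit 344117) (nat_lit 21) (.e (nat_lit 516151) (nat_lit 9) (.e (nat_lit 426412) (nat_lit 15) (.e (nat_lit 2058) (nat_lit 142) (.e (nat_lit 704589) (nat_lit 3) .nil)))))))) (.g (nat_lit 4) .nil .nil)))))) 
(.nd (nat_lit 3) (.nd (nat_lit 4) (.nd (nat_lit 5) 
(.lf (nat_lit 254599) (.g (nat_lit 3058) (.e (nat_lit 163977) (nat_lit 30) (.e (nat_lit 573493) (nat_lit 15) (.e (nat_lit 81956) (nat_lit 23) (.e (nat_lit 98363) (nat_lit 26) (.e (nat_lit 426147) (nat_lit 4) .nil))))) .nil)) 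
(.lf (nat_lit 254631) (.g (nat_lit 2887) (.e (nat_lit 163978) (nat_lit 30) (.e (nat_lit 573478) (nat_lit 12) (.e (nat_lit 57549) (nat_lit 48) (.e (nat_lit 720937) (nat_lit 22) (.e (nat_lit 90172) (nat_lit 14) (.e (nat_lit 180244) (nat_lit 5) (.e (nat_lit 532519) (nat_lit 5) (.e (nat_lit 147503) (nat_lit 12) .nil)))))))) (.g (nat_lit 6) .nil .nil)))) (.nd (nat_lit 5) 
(.lf (nat_lit 254615) (.g (nat_lit 3472) (.e (nat_lit 163978) (nat_lit 30) (.e (nat_lit 573475) (nat_lit 12) (.e (nat_lit 57550) (nat_lit 48) (.e (nat_lit 720938) (nat_lit 22) (.e (nat_lit 90172) (nat_lit 14) (.e (nat_lit 180244) (nat_lit 5) (.e (nat_lit 532519) (nat_lit 5) (.e (nat_lit 147504) (nat_lit 12) .nil)))))))) (.g (nat_lit 4) .nil .nil))) 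
(.lf (nat_lit 254647) (.g (nat_lit 2603) (.e (nat_lit 163978) (nat_lit 30) (.e (nat_lit 573478) (nat_lit 12) (.e (nat_lit 57549) (nat_lit 48) (.e (nat_lit 720941) (nat_lit 22) (.e (nat_lit 90174) (nat_lit 14) (.e (nat_lit 180243) (nat_lit 5) (.e (nat_lit 532519) (nat_lit 5) (.e (nat_lit 147504) (nat_lit 12) .nil)))))))) (.g (nat_lit 5) .nil .nil))))) (.nd (nat_lit 4) (.nd (nat_lit 5) 
(.lf (nat_lit 254607) (.g (nat_lit 3572) (.e (nat_lit 163977) (nat_lit 30) (.e (nat_lit 573503) (nat_lit 18) (.e (nat_lit 1349) (nat_lit 102) (.e (nat_lit 286749) (nat_lit 9) (.e (nat_lit 336028) (nat_lit 3) (.e (nat_lit 98367) (nat_lit 27) (.e (nat_lit 434276) (nat_lit 39) (.e (nat_lit 663585) (nat_lit 12) .nil)))))))) (.g (nat_lit 5) .nil .nil))) 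
(.lf (nat_lit 254639) (.g (nat_lit 4295) (.e (nat_lit 163978) (nat_lit 30) (.e (nat_lit 573478) (nat_lit 12) (.e (nat_lit 57549) (nat_lit 48) (.e (nat_lit 720940) (nat_lit 22) (.e (nat_lit 90170) (nat_lit 13) (.e (nat_lit 172067) (nat_lit 3) (.e (nat_lit 204821) (nat_lit 17) (.e (nat_lit 2346) (nat_lit 151) (.e (nat_lit 778482) (nat_lit 12) .nil))))))))) (.g (nat_lit 6) .nil .nil)))) 
(.nd (nat_lit 5) 
(.lf (nat_lit 254623) (.g (nat_lit 2841) (.e (nat_lit 163978) (nat_lit 30) (.e (nat_lit 573477) (nat_lit 12) (.e (nat_lit 57549) (nat_lit 48) (.e (nat_lit 720941) (nat_lit 22) (.e (nat_lit 90172) (nat_lit 14) (.e (nat_lit 180244) (nat_lit 5) (.e (nat_lit 532519) (nat_lit 5) (.e (nat_lit 147504) (nat_lit 12) .nil)))))))) (.g (nat_lit 5) .nil .nil))) 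
(.lf (nat_lit 254655) (.g (nat_lit 2291) (.e (nat_lit 163978) (nat_lit 30) (.e (nat_lit 573484) (nat_lit 13) (.e (nat_lit 65610) (nat_lit 10) (.e (nat_lit 344117) (nat_lit 21) (.e (nat_lit 516145) (nat_lit 9) (.e (nat_lit 426415) (nat_lit 15) (.e (nat_lit 2108) (nat_lit 142) (.e (nat_lit 712448) (nat_lit 3) .nil)))))))) (.g (nat_lit 4) .nil .nil)))))))))

noncomputable def tv3303 : DT := (.nd (nat_lit 0) (.nd (nat_lit 1) (.nd (nat_lit 2) (.nd (nat_lit 3) (.nd (nat_lit 4) (.nd (nat_lit 5) 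
(.lf (nat_lit 254656) (.g (nat_lit 2493) (.e (nat_lit 163978) (nat_lit 30) (.e (nat_lit 573484) (nat_lit 13) (.e (nat_lit 65610) (nat_lit 10) (.e (nat_lit 344117) (nat_lit 21) (.e (nat_lit 516145) (nat_lit 9) (.e (nat_lit 426415) (nat_lit 15) (.e (nat_lit 2143) (nat_lit 142) (.e (nat_lit 712448) (nat_lit 3) .nil)))))))) (.g (nat_lit 4) .nil .nil))) 
(.lf (nat_lit 254688) (.g (nat_lit 3802) (.e (nat_lit 163978) (nat_lit 30) (.e (nat_lit 573485) (nat_lit 13) (.e (nat_lit 65619) (nat_lit 10) (.e (nat_lit 344117) (nat_lit 21) (.e (nat_lit 516145) (nat_lit 9) (.e (nat_lit 426415) (nat_lit 15) (.e (nat_lit 2148) (nat_lit 142) (.e (nat_lit 704588) (nat_lit 3) .nil)))))))) (.g (nat_lit 5) .nil .nil)))) (.nd (nat_lit 5) 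
(.lf (nat_lit 254672) (.g (nat_lit 2195) (.e (nat_lit 163978) (nat_lit 30) (.e (nat_lit 573484) (nat_lit 13) (.e (nat_lit 65610) (nat_lit 10) (.e (nat_lit 344117) (nat_lit 21) (.e (nat_lit 516151) (nat_lit 9) (.e (nat_lit 426412) (nat_lit 15) (.e (nat_lit 2044) (nat_lit 142) (.e (nat_lit 712448) (nat_lit 3) .nil)))))))) (.g (nat_lit 4) .nil .nil))) 
(.lf (nat_lit 254704) (.g (nat_lit 2914) (.e (nat_lit 163978) (nat_lit 30) (.e (nat_lit 573489) (nat_lit 14) (.e (nat_lit 73754) (nat_lit 8) (.e (nat_lit 557101) (nat_lit 13) (.e (nat_lit 172067) (nat_lit 3) (.e (nat_lit 204817) (nat_lit 17) (.e (nat_lit 7936) (nat_lit 149) (.e (nat_lit 761893) (nat_lit 15) .nil)))))))) (.g (nat_lit 4) .nil .nil))))) (.nd (nat_lit 4) (.nd (nat_lit 5) 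
(.lf (nat_lit 254664) (.g (nat_lit 2380) (.e (nat_lit 163978) (nat_lit 30) (.e (nat_lit 573484) (nat_lit 13) (.e (nat_lit 65610) (nat_lit 10) (.e (nat_lit 344117) (nat_lit 21) (.e (nat_lit 516145) (nat_lit 9) (.e (nat_lit 426418) (nat_lit 15) (.e (nat_lit 2148) (nat_lit 142) (.e (nat_lit 704588) (nat_lit 3) .nil)))))))) (.g (nat_lit 4) .nil .nil))) 
(.lf (nat_lit 254696) (.g (nat_lit 4283) (.e (nat_lit 163978) (nat_lit 30) (.e (nat_lit 573489) (nat_lit 14) (.e (nat_lit 73754) (nat_lit 8) (.e (nat_lit 557100) (nat_lit 13) (.e (nat_lit 172065) (nat_lit 3) (.e (nat_lit 204817) (nat_lit 17) (.e (nat_lit 7936) (nat_lit 149) (.e (nat_lit 761893) (nat_lit 15) .nil)))))))) (.g (nat_lit 5) .nil .nil)))) (.nd (nat_lit 5) 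
(.lf (nat_lit 254680) (.g (nat_lit 3274) (.e (nat_lit 163978) (nat_lit 30) (.e (nat_lit 573485) (nat_lit 13) (.e (nat_lit 65604) (nat_lit 9) (.e (nat_lit 336013) (nat_lit 2) (.e (nat_lit 90170) (nat_lit 13) (.e (nat_lit 172135) (nat_lit 15) (.e (nat_lit 2146) (nat_lit 142) (.e (nat_lit 712448) (nat_lit 3) .nil)))))))) (.g (nat_lit 5) .nil .nil))) 
(.lf (nat_lit 254712) (.g (nat_lit 3938) (.e (nat_lit 163978) (nat_lit 30) (.e (nat_lit 573489) (nat_lit 14) (.e (nat_lit 73755) (nat_lit 8) (.e (nat_lit 557097) (nat_lit 13) (.e (nat_lit 172067) (nat_lit 3) (.e (nat_lit 204817) (nat_lit 17) (.e (nat_lit 7936) (nat_lit 149) (.e (nat_lit 761893) (nat_lit 15) .nil)))))))) (.g (nat_lit 4) .nil .nil)))))) 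
(.nd (nat_lit 3) (.nd (nat_lit 4) (.nd (nat_lit 5) 
(.lf (nat_lit 254660) (.g (nat_lit 2139) (.e (nat_lit 163978) (nat_lit 30) (.e (nat_lit 573484) (nat_lit 13) (.e (nat_lit 65610) (nat_lit 10) (.e (nat_lit 344117) (nat_lit 21) (.e (nat_lit 516145) (nat_lit 9) (.e (nat_lit 426415) (nat_lit 15) (.e (nat_lit 2147) (nat_lit 142) (.e (nat_lit 712448) (nat_lit 3) .nil)))))))) (.g (nat_lit 4) .nil .nil))) 
(.lf (nat_lit 254692) (.g (nat_lit 2264) (.e (nat_lit 163978) (nat_lit 30) (.e (nat_lit 573485) (nat_lit 13) (.e (nat_lit 65619) (nat_lit 10) (.e (nat_lit 344117) (nat_lit 21) (.e (nat_lit 516151) (nat_lit 9) (.e (nat_lit 426407) (nat_lit 15) (.e (nat_lit 2147) (nat_lit 142) (.e (nat_lit 712448) (nat_lit 3) .nil)))))))) (.g (nat_lit 4) .nil .nil)))) (.nd (nat_lit 5) 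
(.lf (nat_lit 254676) (.g (nat_lit 2045) (.e (nat_lit 163978) (nat_lit 30) (.e (nat_lit 573484) (nat_lit 13) (.e (nat_lit 65610) (nat_lit 10) (.e (nat_lit 344117) (nat_lit 21) (.e (nat_lit 516151) (nat_lit 9) (.e (nat_lit 426412) (nat_lit 15) (.e (nat_lit 2067) (nat_lit 142) (.e (nat_lit 712448) (nat_lit 3) .nil)))))))) (.g (nat_lit 4) .nil .nil))) 
(.lf (nat_lit 254708) (.g (nat_lit 3747) (.e (nat_lit 163978) (nat_lit 30) (.e (nat_lit 573489) (nat_lit 14) (.e (nat_lit 73755) (nat_lit 8) (.e (nat_lit 557096) (nat_lit 13) (.e (nat_lit 172067) (nat_lit 3) (.e (nat_lit 204817) (nat_lit 17) (.e (nat_lit 7936) (nat_lit 149) (.e (nat_lit 761893) (nat_lit 15) .nil)))))))) (.g (nat_lit 5) .nil .nil))))) (.nd (nat_lit 4) (.nd (nat_lit 5) 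
(.lf (nat_lit 254668) (.g (nat_lit 2258) (.e (nat_lit 163978) (nat_lit 30) (.e (nat_lit 573484) (nat_lit 13) (.e (nat_lit 65610) (nat_lit 10) (.e (nat_lit 344117) (nat_lit 21) (.e (nat_lit 516151) (nat_lit 9) (.e (nat_lit 426407) (nat_lit 15) (.e (nat_lit 2108) (nat_lit 142) (.e (nat_lit 712448) (nat_lit 3) .nil)))))))) (.g (nat_lit 4) .nil .nil))) 
(.lf (nat_lit 254700) (.g (nat_lit 3587) (.e (nat_lit 163978) (nat_lit 30) (.e (nat_lit 573489) (nat_lit 14) (.e (nat_lit 73754) (nat_lit 8) (.e (nat_lit 557101) (nat_lit 13) (.e (nat_lit 172065) (nat_lit 3) (.e (nat_lit 204817) (nat_lit 17) (.e (nat_lit 7936) (nat_lit 149) (.e (nat_lit 761893) (nat_lit 15) .nil)))))))) (.g (nat_lit 5) .nil .nil)))) (.nd (nat_lit 5) 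
(.lf (nat_lit 254684) (.g (nat_lit 3061) (.e (nat_lit 163978) (nat_lit 30) (.e (nat_lit 573485) (nat_lit 13) (.e (nat_lit 65604) (nat_lit 9) (.e (nat_lit 336028) (nat_lit 3) (.e (nat_lit 98359) (nat_lit 26) (.e (nat_lit 426372) (nat_lit 15) (.e (nat_lit 2148) (nat_lit 142) (.e (nat_lit 704588) (nat_lit 3) .nil)))))))) (.g (nat_lit 5) .nil .nil))) 
(.lf (nat_lit 254716) (.g (nat_lit 3467) (.e (nat_lit 163978) (nat_lit 30) (.e (nat_lit 573489) (nat_lit 14) (.e (nat_lit 73755) (nat_lit 8) (.e (nat_lit 557098) (nat_lit 13) (.e (nat_lit 172065) (nat_lit 3) (.e (nat_lit 204817) (nat_lit 17) (.e (nat_lit 7936) (nat_lit 149) (.e (nat_lit 761895) (nat_lit 15) .nil)))))))) (.g (nat_lit 4) .nil .nil))))))) 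
(.nd (nat_lit 2) (.nd (nat_lit 3) (.nd (nat_lit 4) (.nd (nat_lit 5) 
(.lf (nat_lit 254658) (.g (nat_lit 3095) (.e (nat_lit 163978) (nat_lit 30) (.e (nat_lit 573484) (nat_lit 13) (.e (nat_lit 65610) (nat_lit 10) (.e (nat_lit 344117) (nat_lit 21) (.e (nat_lit 516145) (nat_lit 9) (.e (nat_lit 426415) (nat_lit 15) (.e (nat_lit 2146) (nat_lit 142) (.e (nat_lit 712448) (nat_lit 3) .nil)))))))) (.g (nat_lit 5) .nil .nil))) 
(.lf (nat_lit 254690) (.g (nat_lit 3070) (.e (nat_lit 163978) (nat_lit 30) (.e (nat_lit 573485) (nat_lit 13) (.e (nat_lit 65619) (nat_lit 10) (.e (nat_lit 344117) (nat_lit 21) (.e (nat_lit 516151) (nat_lit 9) (.e (nat_lit 426407) (nat_lit 15) (.e (nat_lit 2143) (nat_lit 142) (.e (nat_lit 712448) (nat_lit 3) .nil)))))))) (.g (nat_lit 5) .nil .nil)))) (.nd (nat_lit 5) 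
(.lf (nat_lit 254674) (.g (nat_lit 2605) (.e (nat_lit 163978) (nat_lit 30) (.e (nat_lit 573484) (nat_lit 13) (.e (nat_lit 65610) (nat_lit 10) (.e (nat_lit 344117) (nat_lit 21) (.e (nat_lit 516151) (nat_lit 9) (.e (nat_lit 426412) (nat_lit 15) (.e (nat_lit 2057) (nat_lit 142) (.e (nat_lit 712448) (nat_lit 3) .nil)))))))) (.g (nat_lit 4) .nil .nil))) 
(.lf (nat_lit 254706) (.g (nat_lit 3485) (.e (nat_lit 163978) (nat_lit 30) (.e (nat_lit 573489) (nat_lit 14) (.e (nat_lit 73754) (nat_lit 8) (.e (nat_lit 557103) (nat_lit 14) (.e (nat_lit 180243) (nat_lit 5) (.e (nat_lit 532484) (nat_lit 0) (.e (nat_lit 7936) (nat_lit 149) (.e (nat_lit 761893) (nat_lit 15) .nil)))))))) (.g (nat_lit 4) .nil .nil))))) (.nd (nat_lit 4) (.nd (nat_lit 5) 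
(.lf (nat_lit 254666) (.g (nat_lit 4158) (.e (nat_lit 163978) (nat_lit 30) (.e (nat_lit 573484) (nat_lit 13) (.e (nat_lit 65610) (nat_lit 10) (.e (nat_lit 344117) (nat_lit 21) (.e (nat_lit 516151) (nat_lit 9) (.e (nat_lit 426406) (nat_lit 15) (.e (nat_lit 2147) (nat_lit 142) (.e (nat_lit 704588) (nat_lit 3) .nil)))))))) (.g (nat_lit 5) .nil .nil))) 
(.lf (nat_lit 254698) (.g (nat_lit 3690) (.e (nat_lit 163978) (nat_lit 30) (.e (nat_lit 573489) (nat_lit 14) (.e (nat_lit 73754) (nat_lit 8) (.e (nat_lit 557100) (nat_lit 13) (.e (nat_lit 172067) (nat_lit 3) (.e (nat_lit 204817) (nat_lit 17) (.e (nat_lit 7936) (nat_lit 149) (.e (nat_lit 761893) (nat_lit 15) .nil)))))))) (.g (nat_lit 4) .nil .nil)))) (.nd (nat_lit 5) 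
(.lf (nat_lit 254682) (.g (nat_lit 2074) (.e (nat_lit 163978) (nat_lit 30) (.e (nat_lit 573485) (nat_lit 13) (.e (nat_lit 65604) (nat_lit 9) (.e (nat_lit 336013) (nat_lit 2) (.e (nat_lit 90170) (nat_lit 13) (.e (nat_lit 172135) (nat_lit 15) (.e (nat_lit 2148) (nat_lit 142) (.e (nat_lit 712448) (nat_lit 3) .nil)))))))) (.g (nat_lit 4) .nil .nil))) 
(.lf (nat_lit 254714) (.g (nat_lit 4736) (.e (nat_lit 163978) (nat_lit 30) (.e (nat_lit 573489) (nat_lit 14) (.e (nat_lit 73755) (nat_lit 8) (.e (nat_lit 557098) (nat_lit 13) (.e (nat_lit 172065) (nat_lit 3) (.e (nat_lit 204817) (nat_lit 17) (.e (nat_lit 7936) (nat_lit 149) (.e (nat_lit 761893) (nat_lit 15) .nil)))))))) (.g (nat_lit 5) .nil .nil)))))) 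
(.nd (nat_lit 3) (.nd (nat_lit 4) (.nd (nat_lit 5) 
(.lf (nat_lit 254662) (.g (nat_lit 2473) (.e (nat_lit 163978) (nat_lit 30) (.e (nat_lit 573484) (nat_lit 13) (.e (nat_lit 65610) (nat_lit 10) (.e (nat_lit 344117) (nat_lit 21) (.e (nat_lit 516145) (nat_lit 9) (.e (nat_lit 426416) (nat_lit 15) (.e (nat_lit 2143) (nat_lit 142) (.e (nat_lit 704588) (nat_lit 3) .nil)))))))) (.g (nat_lit 4) .nil .nil))) 
(.lf (nat_lit 254694) (.g (nat_lit 2803) (.e (nat_lit 163978) (nat_lit 30) (.e (nat_lit 573487) (nat_lit 14) (.e (nat_lit 73753) (nat_lit 8) (.e (nat_lit 557098) (nat_lit 13) (.e (nat_lit 172065) (nat_lit 3) (.e (nat_lit 204817) (nat_lit 17) (.e (nat_lit 7936) (nat_lit 149) (.e (nat_lit 761894) (nat_lit 15) .nil)))))))) (.g (nat_lit 4) .nil .nil)))) (.nd (nat_lit 5) 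
(.lf (nat_lit 254678) (.g (nat_lit 4278) (.e (nat_lit 163978) (nat_lit 30) (.e (nat_lit 573485) (nat_lit 13) (.e (nat_lit 65604) (nat_lit 9) (.e (nat_lit 336013) (nat_lit 2) (.e (nat_lit 90170) (nat_lit 13) (.e (nat_lit 172134) (nat_lit 15) (.e (nat_lit 2147) (nat_lit 142) (.e (nat_lit 704588) (nat_lit 3) .nil)))))))) (.g (nat_lit 5) .nil .nil))) 
(.lf (nat_lit 254710) (.g (nat_lit 3791) (.e (nat_lit 163978) (nat_lit 30) (.e (nat_lit 573489) (nat_lit 14) (.e (nat_lit 73755) (nat_lit 8) (.e (nat_lit 557097) (nat_lit 13) (.e (nat_lit 172065) (nat_lit 3) (.e (nat_lit 204817) (nat_lit 17) (.e (nat_lit 7936) (nat_lit 149) (.e (nat_lit 761893) (nat_lit 15) .nil)))))))) (.g (nat_lit 4) .nil .nil))))) (.nd (nat_lit 4) (.nd (nat_lit 5) 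
(.lf (nat_lit 254670) (.g (nat_lit 3302) (.e (nat_lit 163978) (nat_lit 30) (.e (nat_lit 573484) (nat_lit 13) (.e (nat_lit 65610) (nat_lit 10) (.e (nat_lit 344117) (nat_lit 21) (.e (nat_lit 516151) (nat_lit 9) (.e (nat_lit 426407) (nat_lit 15) (.e (nat_lit 2147) (nat_lit 142) (.e (nat_lit 712448) (nat_lit 3) .nil)))))))) (.g (nat_lit 5) .nil .nil))) 
(.lf (nat_lit 254702) (.g (nat_lit 2779) (.e (nat_lit 163978) (nat_lit 30) (.e (nat_lit 573489) (nat_lit 14) (.e (nat_lit 73754) (nat_lit 8) (.e (nat_lit 557101) (nat_lit 13) (.e (nat_lit 172066) (nat_lit 3) (.e (nat_lit 204817) (nat_lit 17) (.e (nat_lit 7936) (nat_lit 149) (.e (nat_lit 761893) (nat_lit 15) .nil)))))))) (.g (nat_lit 4) .nil .nil)))) (.nd (nat_lit 5) 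
(.lf (nat_lit 254686) (.g (nat_lit 2936) (.e (nat_lit 163978) (nat_lit 30) (.e (nat_lit 573485) (nat_lit 13) (.e (nat_lit 65604) (nat_lit 9) (.e (nat_lit 336028) (nat_lit 3) (.e (nat_lit 98359) (nat_lit 26) (.e (nat_lit 426407) (nat_lit 15) (.e (nat_lit 2146) (nat_lit 142) (.e (nat_lit 712448) (nat_lit 3) .nil)))))))) (.g (nat_lit 5) .nil .nil))) 
(.lf (nat_lit 254718) (.g (nat_lit 3519) (.e (nat_lit 163978) (nat_lit 30) (.e (nat_lit 573489) (nat_lit 14) (.e (nat_lit 73755) (nat_lit 8) (.e (nat_lit 557098) (nat_lit 13) (.e (nat_lit 172066) (nat_lit 3) (.e (nat_lit 204817) (nat_lit 17) (.e (nat_lit 7936) (nat_lit 149) (.e (nat_lit 761894) (nat_lit 15) .nil)))))))) (.g (nat_lit 4) .nil .nil)))))))) 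
(.nd (nat_lit 1) (.nd (nat_lit 2) (.nd (nat_lit 3) (.nd (nat_lit 4) (.nd (nat_lit 5) 
(.lf (nat_lit 254657) (.g (nat_lit 3252) (.e (nat_lit 163978) (nat_lit 30) (.e (nat_lit 573484) (nat_lit 13) (.e (nat_lit 65610) (nat_lit 10) (.e (nat_lit 344117) (nat_lit 21) (.e (nat_lit 516145) (nat_lit 9) (.e (nat_lit 426415) (nat_lit 15) (.e (nat_lit 2146) (nat_lit 142) (.e (nat_lit 704588) (nat_lit 3) .nil)))))))) (.g (nat_lit 5) .nil .nil))) 
(.lf (nat_lit 254689) (.g (nat_lit 4245) (.e (nat_lit 163978) (nat_lit 30) (.e (nat_lit 573485) (nat_lit 13) (.e (nat_lit 65619) (nat_lit 10) (.e (nat_lit 344117) (nat_lit 21) (.e (nat_lit 516151) (nat_lit 9) (.e (nat_lit 426372) (nat_lit 15) (.e (nat_lit 2148) (nat_lit 142) (.e (nat_lit 704588) (nat_lit 3) .nil)))))))) (.g (nat_lit 5) .nil .nil)))) (.nd (nat_lit 5) 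
(.lf (nat_lit 254673) (.g (nat_lit 2679) (.e (nat_lit 163978) (nat_lit 30) (.e (nat_lit 573484) (nat_lit 13) (.e (nat_lit 65610) (nat_lit 10) (.e (nat_lit 344117) (nat_lit 21) (.e (nat_lit 516151) (nat_lit 9) (.e (nat_lit 426412) (nat_lit 15) (.e (nat_lit 2056) (nat_lit 142) (.e (nat_lit 712448) (nat_lit 3) .nil)))))))) (.g (nat_lit 4) .nil .nil))) 
(.lf (nat_lit 254705) (.g (nat_lit 2887) (.e (nat_lit 163978) (nat_lit 30) (.e (nat_lit 573489) (nat_lit 14) (.e (nat_lit 73754) (nat_lit 8) (.e (nat_lit 557101) (nat_lit 13) (.e (nat_lit 172067) (nat_lit 3) (.e (nat_lit 204817) (nat_lit 17) (.e (nat_lit 7936) (nat_lit 149) (.e (nat_lit 761894) (nat_lit 15) .nil)))))))) (.g (nat_lit 4) .nil .nil))))) (.nd (nat_lit 4) (.nd (nat_lit 5) 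
(.lf (nat_lit 254665) (.g (nat_lit 4507) (.e (nat_lit 163978) (nat_lit 30) (.e (nat_lit 573484) (nat_lit 13) (.e (nat_lit 65610) (nat_lit 10) (.e (nat_lit 344117) (nat_lit 21) (.e (nat_lit 516151) (nat_lit 9) (.e (nat_lit 426372) (nat_lit 15) (.e (nat_lit 2148) (nat_lit 142) (.e (nat_lit 704588) (nat_lit 3) .nil)))))))) (.g (nat_lit 5) .nil .nil))) 
(.lf (nat_lit 254697) (.g (nat_lit 4256) (.e (nat_lit 163978) (nat_lit 30) (.e (nat_lit 573489) (nat_lit 14) (.e (nat_lit 73754) (nat_lit 8) (.e (nat_lit 557100) (nat_lit 13) (.e (nat_lit 172065) (nat_lit 3) (.e (nat_lit 204817) (nat_lit 17) (.e (nat_lit 7936) (nat_lit 149) (.e (nat_lit 761894) (nat_lit 15) .nil)))))))) (.g (nat_lit 5) .nil .nil)))) (.nd (nat_lit 5) 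
(.lf (nat_lit 254681) (.g (nat_lit 2400) (.e (nat_lit 163978) (nat_lit 30) (.e (nat_lit 573485) (nat_lit 13) (.e (nat_lit 65604) (nat_lit 9) (.e (nat_lit 336013) (nat_lit 2) (.e (nat_lit 90170) (nat_lit 13) (.e (nat_lit 172135) (nat_lit 15) (.e (nat_lit 2147) (nat_lit 142) (.e (nat_lit 712448) (nat_lit 3) .nil)))))))) (.g (nat_lit 4) .nil .nil))) 
(.lf (nat_lit 254713) (.g (nat_lit 3910) (.e (nat_lit 163978) (nat_lit 30) (.e (nat_lit 573489) (nat_lit 14) (.e (nat_lit 73755) (nat_lit 8) (.e (nat_lit 557097) (nat_lit 13) (.e (nat_lit 172067) (nat_lit 3) (.e (nat_lit 204817) (nat_lit 17) (.e (nat_lit 7936) (nat_lit 149) (.e (nat_lit 761894) (nat_lit 15) .nil)))))))) (.g (nat_lit 4) .nil .nil)))))) 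
(.nd (nat_lit 3) (.nd (nat_lit 4) (.nd (nat_lit 5) 
(.lf (nat_lit 254661) (.g (nat_lit 2449) (.e (nat_lit 163978) (nat_lit 30) (.e (nat_lit 573484) (nat_lit 13) (.e (nat_lit 65610) (nat_lit 10) (.e (nat_lit 344117) (nat_lit 21) (.e (nat_lit 516145) (nat_lit 9) (.e (nat_lit 426415) (nat_lit 15) (.e (nat_lit 2148) (nat_lit 142) (.e (nat_lit 712448) (nat_lit 3) .nil)))))))) (.g (nat_lit 4) .nil .nil))) 
(.lf (nat_lit 254693) (.g (nat_lit 5499) (.e (nat_lit 163978) (nat_lit 30) (.e (nat_lit 573485) (nat_lit 13) (.e (nat_lit 65620) (nat_lit 10) (.e (nat_lit 344117) (nat_lit 21) (.e (nat_lit 516151) (nat_lit 9) (.e (nat_lit 426412) (nat_lit 15) (.e (nat_lit 2059) (nat_lit 142) (.e (nat_lit 704589) (nat_lit 3) .nil)))))))) (.g (nat_lit 5) .nil .nil)))) (.nd (nat_lit 5) 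
(.lf (nat_lit 254677) (.g (nat_lit 2349) (.e (nat_lit 163978) (nat_lit 30) (.e (nat_lit 573484) (nat_lit 13) (.e (nat_lit 65610) (nat_lit 10) (.e (nat_lit 344117) (nat_lit 21) (.e (nat_lit 516151) (nat_lit 9) (.e (nat_lit 426412) (nat_lit 15) (.e (nat_lit 7936) (nat_lit 142) (.e (nat_lit 712448) (nat_lit 3) .nil)))))))) (.g (nat_lit 4) .nil .nil))) 
(.lf (nat_lit 254709) (.g (nat_lit 3719) (.e (nat_lit 163978) (nat_lit 30) (.e (nat_lit 573489) (nat_lit 14) (.e (nat_lit 73755) (nat_lit 8) (.e (nat_lit 557096) (nat_lit 13) (.e (nat_lit 172067) (nat_lit 3) (.e (nat_lit 204817) (nat_lit 17) (.e (nat_lit 7936) (nat_lit 149) (.e (nat_lit 761894) (nat_lit 15) .nil)))))))) (.g (nat_lit 5) .nil .nil))))) (.nd (nat_lit 4) (.nd (nat_lit 5) 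
(.lf (nat_lit 254669) (.g (nat_lit 2238) (.e (nat_lit 163978) (nat_lit 30) (.e (nat_lit 573484) (nat_lit 13) (.e (nat_lit 65610) (nat_lit 10) (.e (nat_lit 344117) (nat_lit 21) (.e (nat_lit 516151) (nat_lit 9) (.e (nat_lit 426407) (nat_lit 15) (.e (nat_lit 2111) (nat_lit 142) (.e (nat_lit 712448) (nat_lit 3) .nil)))))))) (.g (nat_lit 4) .nil .nil))) 
(.lf (nat_lit 254701) (.g (nat_lit 3560) (.e (nat_lit 163978) (nat_lit 30) (.e (nat_lit 573489) (nat_lit 14) (.e (nat_lit 73754) (nat_lit 8) (.e (nat_lit 557101) (nat_lit 13) (.e (nat_lit 172065) (nat_lit 3) (.e (nat_lit 204817) (nat_lit 17) (.e (nat_lit 7936) (nat_lit 149) (.e (nat_lit 761894) (nat_lit 15) .nil)))))))) (.g (nat_lit 5) .nil .nil)))) (.nd (nat_lit 5) 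
(.lf (nat_lit 254685) (.g (nat_lit 2948) (.e (nat_lit 163978) (nat_lit 30) (.e (nat_lit 573485) (nat_lit 13) (.e (nat_lit 65604) (nat_lit 9) (.e (nat_lit 336028) (nat_lit 3) (.e (nat_lit 98359) (nat_lit 26) (.e (nat_lit 426407) (nat_lit 15) (.e (nat_lit 2143) (nat_lit 142) (.e (nat_lit 712448) (nat_lit 3) .nil)))))))) (.g (nat_lit 5) .nil .nil))) 
(.lf (nat_lit 254717) (.g (nat_lit 3547) (.e (nat_lit 163978) (nat_lit 30) (.e (nat_lit 573489) (nat_lit 14) (.e (nat_lit 73755) (nat_lit 8) (.e (nat_lit 557098) (nat_lit 13) (.e (nat_lit 172066) (nat_lit 3) (.e (nat_lit 204817) (nat_lit 17) (.e (nat_lit 7936) (nat_lit 149) (.e (nat_lit 761893) (nat_lit 15) .nil)))))))) (.g (nat_lit 4) .nil .nil))))))) 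
(.nd (nat_lit 2) (.nd (nat_lit 3) (.nd (nat_lit 4) (.nd (nat_lit 5) 
(.lf (nat_lit 254659) (.g (nat_lit 3169) (.e (nat_lit 163978) (nat_lit 30) (.e (nat_lit 573484) (nat_lit 13) (.e (nat_lit 65610) (nat_lit 10) (.e (nat_lit 344117) (nat_lit 21) (.e (nat_lit 516145) (nat_lit 9) (.e (nat_lit 426415) (nat_lit 15) (.e (nat_lit 2147) (nat_lit 142) (.e (nat_lit 704588) (nat_lit 3) .nil)))))))) (.g (nat_lit 5) .nil .nil))) 
(.lf (nat_lit 254691) (.g (nat_lit 3086) (.e (nat_lit 163978) (nat_lit 30) (.e (nat_lit 573485) (nat_lit 13) (.e (nat_lit 65619) (nat_lit 10) (.e (nat_lit 344117) (nat_lit 21) (.e (nat_lit 516151) (nat_lit 9) (.e (nat_lit 426407) (nat_lit 15) (.e (nat_lit 2146) (nat_lit 142) (.e (nat_lit 712448) (nat_lit 3) .nil)))))))) (.g (nat_lit 5) .nil .nil)))) (.nd (nat_lit 5) 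
(.lf (nat_lit 254675) (.g (nat_lit 2180) (.e (nat_lit 163978) (nat_lit 30) (.e (nat_lit 573484) (nat_lit 13) (.e (nat_lit 65610) (nat_lit 10) (.e (nat_lit 344117) (nat_lit 21) (.e (nat_lit 516151) (nat_lit 9) (.e (nat_lit 426412) (nat_lit 15) (.e (nat_lit 2058) (nat_lit 142) (.e (nat_lit 712448) (nat_lit 3) .nil)))))))) (.g (nat_lit 4) .nil .nil))) 
(.lf (nat_lit 254707) (.g (nat_lit 3700) (.e (nat_lit 163978) (nat_lit 30) (.e (nat_lit 573489) (nat_lit 14) (.e (nat_lit 73754) (nat_lit 8) (.e (nat_lit 557103) (nat_lit 14) (.e (nat_lit 180243) (nat_lit 5) (.e (nat_lit 532484) (nat_lit 0) (.e (nat_lit 7936) (nat_lit 149) (.e (nat_lit 761894) (nat_lit 15) .nil)))))))) (.g (nat_lit 4) .nil .nil))))) (.nd (nat_lit 4) (.nd (nat_lit 5) 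
(.lf (nat_lit 254667) (.g (nat_lit 4299) (.e (nat_lit 163978) (nat_lit 30) (.e (nat_lit 573484) (nat_lit 13) (.e (nat_lit 65610) (nat_lit 10) (.e (nat_lit 344117) (nat_lit 21) (.e (nat_lit 516151) (nat_lit 9) (.e (nat_lit 426406) (nat_lit 15) (.e (nat_lit 2148) (nat_lit 142) (.e (nat_lit 704588) (nat_lit 3) .nil)))))))) (.g (nat_lit 5) .nil .nil))) 
(.lf (nat_lit 254699) (.g (nat_lit 3663) (.e (nat_lit 163978) (nat_lit 30) (.e (nat_lit 573489) (nat_lit 14) (.e (nat_lit 73754) (nat_lit 8) (.e (nat_lit 557100) (nat_lit 13) (.e (nat_lit 172067) (nat_lit 3) (.e (nat_lit 204817) (nat_lit 17) (.e (nat_lit 7936) (nat_lit 149) (.e (nat_lit 761894) (nat_lit 15) .nil)))))))) (.g (nat_lit 4) .nil .nil)))) (.nd (nat_lit 5) 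
(.lf (nat_lit 254683) (.g (nat_lit 2617) (.e (nat_lit 163978) (nat_lit 30) (.e (nat_lit 573485) (nat_lit 13) (.e (nat_lit 65604) (nat_lit 9) (.e (nat_lit 336028) (nat_lit 3) (.e (nat_lit 98359) (nat_lit 26) (.e (nat_lit 426372) (nat_lit 15) (.e (nat_lit 2147) (nat_lit 142) (.e (nat_lit 704588) (nat_lit 3) .nil)))))))) (.g (nat_lit 4) .nil .nil))) 
(.lf (nat_lit 254715) (.g (nat_lit 4708) (.e (nat_lit 163978) (nat_lit 30) (.e (nat_lit 573489) (nat_lit 14) (.e (nat_lit 73755) (nat_lit 8) (.e (nat_lit 557098) (nat_lit 13) (.e (nat_lit 172065) (nat_lit 3) (.e (nat_lit 204817) (nat_lit 17) (.e (nat_lit 7936) (nat_lit 149) (.e (nat_lit 761894) (nat_lit 15) .nil)))))))) (.g (nat_lit 5) .nil .nil)))))) 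
(.nd (nat_lit 3) (.nd (nat_lit 4) (.nd (nat_lit 5) 
(.lf (nat_lit 254663) (.g (nat_lit 2262) (.e (nat_lit 163978) (nat_lit 30) (.e (nat_lit 573484) (nat_lit 13) (.e (nat_lit 65610) (nat_lit 10) (.e (nat_lit 344117) (nat_lit 21) (.e (nat_lit 516145) (nat_lit 9) (.e (nat_lit 426416) (nat_lit 15) (.e (nat_lit 2143) (nat_lit 142) (.e (nat_lit 712448) (nat_lit 3) .nil)))))))) (.g (nat_lit 4) .nil .nil))) 
(.lf (nat_lit 254695) (.g (nat_lit 3290) (.e (nat_lit 163978) (nat_lit 30) (.e (nat_lit 573487) (nat_lit 14) (.e (nat_lit 73753) (nat_lit 8) (.e (nat_lit 557100) (nat_lit 13) (.e (nat_lit 172065) (nat_lit 3) (.e (nat_lit 204817) (nat_lit 17) (.e (nat_lit 7936) (nat_lit 149) (.e (nat_lit 761894) (nat_lit 15) .nil)))))))) (.g (nat_lit 4) .nil .nil)))) (.nd (nat_lit 5) 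
(.lf (nat_lit 254679) (.g (nat_lit 3277) (.e (nat_lit 163978) (nat_lit 30) (.e (nat_lit 573485) (nat_lit 13) (.e (nat_lit 65604) (nat_lit 9) (.e (nat_lit 336013) (nat_lit 2) (.e (nat_lit 90170) (nat_lit 13) (.e (nat_lit 172135) (nat_lit 15) (.e (nat_lit 2143) (nat_lit 142) (.e (nat_lit 712448) (nat_lit 3) .nil)))))))) (.g (nat_lit 5) .nil .nil))) 
(.lf (nat_lit 254711) (.g (nat_lit 3763) (.e (nat_lit 163978) (nat_lit 30) (.e (nat_lit 573489) (nat_lit 14) (.e (nat_lit 73755) (nat_lit 8) (.e (nat_lit 557097) (nat_lit 13) (.e (nat_lit 172065) (nat_lit 3) (.e (nat_lit 204817) (nat_lit 17) (.e (nat_lit 7936) (nat_lit 149) (.e (nat_lit 761894) (nat_lit 15) .nil)))))))) (.g (nat_lit 4) .nil .nil))))) (.nd (nat_lit 4) (.nd (nat_lit 5) 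
(.lf (nat_lit 254671) (.g (nat_lit 3008) (.e (nat_lit 163978) (nat_lit 30) (.e (nat_lit 573484) (nat_lit 13) (.e (nat_lit 65610) (nat_lit 10) (.e (nat_lit 344117) (nat_lit 21) (.e (nat_lit 516151) (nat_lit 9) (.e (nat_lit 426407) (nat_lit 15) (.e (nat_lit 2148) (nat_lit 142) (.e (nat_lit 712448) (nat_lit 3) .nil)))))))) (.g (nat_lit 5) .nil .nil))) 
(.lf (nat_lit 254703) (.g (nat_lit 2752) (.e (nat_lit 163978) (nat_lit 30) (.e (nat_lit 573489) (nat_lit 14) (.e (nat_lit 73754) (nat_lit 8) (.e (nat_lit 557101) (nat_lit 13) (.e (nat_lit 172066) (nat_lit 3) (.e (nat_lit 204817) (nat_lit 17) (.e (nat_lit 7936) (nat_lit 149) (.e (nat_lit 761894) (nat_lit 15) .nil)))))))) (.g (nat_lit 4) .nil .nil)))) (.nd (nat_lit 5) 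
(.lf (nat_lit 254687) (.g (nat_lit 2115) (.e (nat_lit 163978) (nat_lit 30) (.e (nat_lit 573485) (nat_lit 13) (.e (nat_lit 65604) (nat_lit 9) (.e (nat_lit 336028) (nat_lit 3) (.e (nat_lit 98359) (nat_lit 26) (.e (nat_lit 426407) (nat_lit 15) (.e (nat_lit 2147) (nat_lit 142) (.e (nat_lit 712448) (nat_lit 3) .nil)))))))) (.g (nat_lit 4) .nil .nil))) 
(.lf (nat_lit 254719) (.g (nat_lit 3231) (.e (nat_lit 163978) (nat_lit 30) (.e (nat_lit 573489) (nat_lit 14) (.e (nat_lit 73755) (nat_lit 8) (.e (nat_lit 557098) (nat_lit 13) (.e (nat_lit 172067) (nat_lit 3) (.e (nat_lit 204815) (nat_lit 17) (.e (nat_lit 2266) (nat_lit 149) (.e (nat_lit 761894) (nat_lit 15) .nil)))))))) (.g (nat_lit 4) .nil .nil)))))))))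

noncomputable def tv3304 : DT := (.nd (nat_lit 0) (.nd (nat_lit 1) (.nd (nat_lit 2) (.nd (nat_lit 3) (.nd (nat_lit 4) (.nd (nat_lit 5) 
(.lf (nat_lit 254720) (.g (nat_lit 3310) (.e (nat_lit 163978) (nat_lit 30) (.e (nat_lit 573489) (nat_lit 14) (.e (nat_lit 73755) (nat_lit 8) (.e (nat_lit 557098) (nat_lit 13) (.e (nat_lit 172067) (nat_lit 3) (.e (nat_lit 204815) (nat_lit 17) (.e (nat_lit 2266) (nat_lit 149) (.e (nat_lit 761895) (nat_lit 15) .nil)))))))) (.g (nat_lit 4) .nil .nil))) 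
(.lf (nat_lit 254752) (.g (nat_lit 2810) (.e (nat_lit 163979) (nat_lit 30) (.e (nat_lit 573451) (nat_lit 9) (.e (nat_lit 1595) (nat_lit 111) (.e (nat_lit 360466) (nat_lit 3) (.e (nat_lit 516146) (nat_lit 9) (.e (nat_lit 426444) (nat_lit 19) (.e (nat_lit 114432) (nat_lit 3) .nil))))))) (.g (nat_lit 4) .nil .nil)))) (.nd (nat_lit 5) 
(.lf (nat_lit 254736) (.g (nat_lit 2367) (.e (nat_lit 163978) (nat_lit 30) (.e (nat_lit 573489) (nat_lit 14) (.e (nat_lit 73755) (nat_lit 8) (.e (nat_lit 557105) (nat_lit 14) (.e (nat_lit 180243) (nat_lit 5) (.e (nat_lit 532484) (nat_lit 0) (.e (nat_lit 7936) (nat_lit 149) (.e (nat_lit 761893) (nat_lit 15) .nil)))))))) (.g (nat_lit 4) .nil .nil))) 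
(.lf (nat_lit 254768) (.g (nat_lit 3560) (.e (nat_lit 163979) (nat_lit 30) (.e (nat_lit 573475) (nat_lit 12) (.e (nat_lit 57549) (nat_lit 48) (.e (nat_lit 720937) (nat_lit 22) (.e (nat_lit 90172) (nat_lit 14) (.e (nat_lit 180244) (nat_lit 5) (.e (nat_lit 532519) (nat_lit 5) (.e (nat_lit 147503) (nat_lit 12) .nil)))))))) (.g (nat_lit 6) .nil .nil))))) (.nd (nat_lit 4) (.nd (nat_lit 5) 
(.lf (nat_lit 254728) (.g (nat_lit 3680) (.e (nat_lit 163978) (nat_lit 30) (.e (nat_lit 573489) (nat_lit 14) (.e (nat_lit 73755) (nat_lit 8) (.e (nat_lit 557103) (nat_lit 14) (.e (nat_lit 180244) (nat_lit 5) (.e (nat_lit 532481) (nat_lit 0) (.e (nat_lit 2266) (nat_lit 149) (.e (nat_lit 761895) (nat_lit 15) .nil)))))))) (.g (nat_lit 4) .nil .nil))) 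
(.lf (nat_lit 254760) (.g (nat_lit 2945) (.e (nat_lit 163979) (nat_lit 30) (.e (nat_lit 573451) (nat_lit 9) (.e (nat_lit 1595) (nat_lit 111) (.e (nat_lit 360467) (nat_lit 3) (.e (nat_lit 516171) (nat_lit 13) (.e (nat_lit 458774) (nat_lit 18) (.e (nat_lit 5548) (nat_lit 306) (.e (nat_lit 2611) (nat_lit 163) .nil)))))))) (.g (nat_lit 4) .nil .nil)))) (.nd (nat_lit 5) 
(.lf (nat_lit 254744) (.g (nat_lit 3912) (.e (nat_lit 163978) (nat_lit 30) (.e (nat_lit 573489) (nat_lit 14) (.e (nat_lit 73755) (nat_lit 8) (.e (nat_lit 557105) (nat_lit 14) (.e (nat_lit 180245) (nat_lit 5) (.e (nat_lit 532484) (nat_lit 0) (.e (nat_lit 7936) (nat_lit 149) (.e (nat_lit 761894) (nat_lit 15) .nil)))))))) (.g (nat_lit 6) .nil .nil))) 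
(.lf (nat_lit 254776) (.g (nat_lit 2544) (.e (nat_lit 163979) (nat_lit 30) (.e (nat_lit 573475) (nat_lit 12) (.e (nat_lit 57549) (nat_lit 48) (.e (nat_lit 720941) (nat_lit 22) (.e (nat_lit 90174) (nat_lit 14) (.e (nat_lit 180243) (nat_lit 5) (.e (nat_lit 532519) (nat_lit 5) (.e (nat_lit 147503) (nat_lit 12) .nil)))))))) (.g (nat_lit 5) .nil .nil)))))) 
(.nd (nat_lit 3) (.nd (nat_lit 4) (.nd (nat_lit 5) 
(.lf (nat_lit 254724) (.g (nat_lit 3326) (.e (nat_lit 163978) (nat_lit 30) (.e (nat_lit 573489) (nat_lit 14) (.e (nat_lit 73755) (nat_lit 8) (.e (nat_lit 557098) (nat_lit 13) (.e (nat_lit 172067) (nat_lit 3) (.e (nat_lit 204817) (nat_lit 17) (.e (nat_lit 7936) (nat_lit 149) (.e (nat_lit 761895) (nat_lit 15) .nil)))))))) (.g (nat_lit 4) .nil .nil))) 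
(.lf (nat_lit 254756) (.g (nat_lit 2677) (.e (nat_lit 163979) (nat_lit 30) (.e (nat_lit 573451) (nat_lit 9) (.e (nat_lit 1595) (nat_lit 111) (.e (nat_lit 360467) (nat_lit 3) (.e (nat_lit 516169) (nat_lit 13) (.e (nat_lit 458774) (nat_lit 18) (.e (nat_lit 5548) (nat_lit 306) (.e (nat_lit 2599) (nat_lit 163) .nil)))))))) (.g (nat_lit 4) .nil .nil)))) (.nd (nat_lit 5) 
(.lf (nat_lit 254740) (.g (nat_lit 3962) (.e (nat_lit 163978) (nat_lit 30) (.e (nat_lit 573489) (nat_lit 14) (.e (nat_lit 73755) (nat_lit 8) (.e (nat_lit 557105) (nat_lit 14) (.e (nat_lit 180244) (nat_lit 5) (.e (nat_lit 532484) (nat_lit 0) (.e (nat_lit 7936) (nat_lit 149) (.e (nat_lit 761894) (nat_lit 15) .nil)))))))) (.g (nat_lit 5) .nil .nil))) 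
(.lf (nat_lit 254772) (.g (nat_lit 2323) (.e (nat_lit 163979) (nat_lit 30) (.e (nat_lit 573475) (nat_lit 12) (.e (nat_lit 57549) (nat_lit 48) (.e (nat_lit 720940) (nat_lit 22) (.e (nat_lit 90170) (nat_lit 13) (.e (nat_lit 172067) (nat_lit 3) (.e (nat_lit 204842) (nat_lit 22) (.e (nat_lit 147498) (nat_lit 12) .nil)))))))) (.g (nat_lit 4) .nil .nil))))) (.nd (nat_lit 4) (.nd (nat_lit 5) 
(.lf (nat_lit 254732) (.g (nat_lit 4357) (.e (nat_lit 163978) (nat_lit 30) (.e (nat_lit 573489) (nat_lit 14) (.e (nat_lit 73755) (nat_lit 8) (.e (nat_lit 557104) (nat_lit 14) (.e (nat_lit 180244) (nat_lit 5) (.e (nat_lit 532481) (nat_lit 0) (.e (nat_lit 2267) (nat_lit 149) (.e (nat_lit 761895) (nat_lit 15) .nil)))))))) (.g (nat_lit 4) .nil .nil))) 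
(.lf (nat_lit 254764) (.g (nat_lit 852) (.e (nat_lit 163979) (nat_lit 30) (.e (nat_lit 573474) (nat_lit 12) (.e (nat_lit 57550) (nat_lit 48) .nil))) .nil))) (.nd (nat_lit 5) 
(.lf (nat_lit 254748) (.g (nat_lit 3730) (.e (nat_lit 163978) (nat_lit 30) (.e (nat_lit 573489) (nat_lit 14) (.e (nat_lit 73768) (nat_lit 19) (.e (nat_lit 647195) (nat_lit 9) (.e (nat_lit 1181) (nat_lit 87) (.e (nat_lit 57872) (nat_lit 264) (.e (nat_lit 1211) (nat_lit 89) (.e (nat_lit 81664) (nat_lit 35) .nil)))))))) (.g (nat_lit 6) .nil .nil))) 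
(.lf (nat_lit 254780) (.g (nat_lit 3297) (.e (nat_lit 163979) (nat_lit 30) (.e (nat_lit 573475) (nat_lit 12) (.e (nat_lit 57549) (nat_lit 48) (.e (nat_lit 720945) (nat_lit 23) (.e (nat_lit 98367) (nat_lit 27) (.e (nat_lit 434231) (nat_lit 23) (.e (nat_lit 532519) (nat_lit 5) (.e (nat_lit 147498) (nat_lit 12) .nil)))))))) (.g (nat_lit 6) .nil .nil))))))) 
(.nd (nat_lit 2) (.nd (nat_lit 3) (.nd (nat_lit 4) (.nd (nat_lit 5) 
(.lf (nat_lit 254722) (.g (nat_lit 4595) (.e (nat_lit 163978) (nat_lit 30) (.e (nat_lit 573489) (nat_lit 14) (.e (nat_lit 73755) (nat_lit 8) (.e (nat_lit 557098) (nat_lit 13) (.e (nat_lit 172067) (nat_lit 3) (.e (nat_lit 204817) (nat_lit 17) (.e (nat_lit 7936) (nat_lit 149) (.e (nat_lit 761893) (nat_lit 15) .nil)))))))) (.g (nat_lit 5) .nil .nil))) 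
(.lf (nat_lit 254754) (.g (nat_lit 2881) (.e (nat_lit 163979) (nat_lit 30) (.e (nat_lit 573451) (nat_lit 9) (.e (nat_lit 1595) (nat_lit 111) (.e (nat_lit 360467) (nat_lit 3) (.e (nat_lit 516158) (nat_lit 9) (.e (nat_lit 426107) (nat_lit 1) (.e (nat_lit 164347) (nat_lit 240) (.e (nat_lit 2601) (nat_lit 163) .nil)))))))) (.g (nat_lit 4) .nil .nil)))) (.nd (nat_lit 5) 
(.lf (nat_lit 254738) (.g (nat_lit 3001) (.e (nat_lit 163978) (nat_lit 30) (.e (nat_lit 573489) (nat_lit 14) (.e (nat_lit 73755) (nat_lit 8) (.e (nat_lit 557105) (nat_lit 14) (.e (nat_lit 180244) (nat_lit 5) (.e (nat_lit 532481) (nat_lit 0) (.e (nat_lit 2267) (nat_lit 149) (.e (nat_lit 761895) (nat_lit 15) .nil)))))))) (.g (nat_lit 4) .nil .nil))) 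
(.lf (nat_lit 254770) (.g (nat_lit 3302) (.e (nat_lit 163979) (nat_lit 30) (.e (nat_lit 573475) (nat_lit 12) (.e (nat_lit 57549) (nat_lit 48) (.e (nat_lit 720938) (nat_lit 22) (.e (nat_lit 90172) (nat_lit 14) (.e (nat_lit 180244) (nat_lit 5) (.e (nat_lit 532519) (nat_lit 5) (.e (nat_lit 147503) (nat_lit 12) .nil)))))))) (.g (nat_lit 6) .nil .nil))))) (.nd (nat_lit 4) (.nd (nat_lit 5) 
(.lf (nat_lit 254730) (.g (nat_lit 4653) (.e (nat_lit 163978) (nat_lit 30) (.e (nat_lit 573489) (nat_lit 14) (.e (nat_lit 73755) (nat_lit 8) (.e (nat_lit 557103) (nat_lit 14) (.e (nat_lit 180244) (nat_lit 5) (.e (nat_lit 532484) (nat_lit 0) (.e (nat_lit 7936) (nat_lit 149) (.e (nat_lit 761893) (nat_lit 15) .nil)))))))) (.g (nat_lit 6) .nil .nil))) 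
(.lf (nat_lit 254762) (.g (nat_lit 3229) (.e (nat_lit 163979) (nat_lit 30) (.e (nat_lit 573451) (nat_lit 9) (.e (nat_lit 1595) (nat_lit 111) (.e (nat_lit 360467) (nat_lit 3) (.e (nat_lit 516179) (nat_lit 15) (.e (nat_lit 475201) (nat_lit 40) (.e (nat_lit 712448) (nat_lit 3) .nil))))))) (.g (nat_lit 5) .nil .nil)))) (.nd (nat_lit 5) 
(.lf (nat_lit 254746) (.g (nat_lit 2324) (.e (nat_lit 163978) (nat_lit 30) (.e (nat_lit 573489) (nat_lit 14) (.e (nat_lit 73755) (nat_lit 8) (.e (nat_lit 557105) (nat_lit 14) (.e (nat_lit 180245) (nat_lit 5) (.e (nat_lit 532489) (nat_lit 0) (.e (nat_lit 7936) (nat_lit 149) (.e (nat_lit 761894) (nat_lit 15) .nil)))))))) (.g (nat_lit 4) .nil .nil))) 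
(.lf (nat_lit 254778) (.g (nat_lit 2329) (.e (nat_lit 163979) (nat_lit 30) (.e (nat_lit 573475) (nat_lit 12) (.e (nat_lit 57549) (nat_lit 48) (.e (nat_lit 720945) (nat_lit 23) (.e (nat_lit 98366) (nat_lit 27) (.e (nat_lit 434231) (nat_lit 23) (.e (nat_lit 532519) (nat_lit 5) (.e (nat_lit 147500) (nat_lit 12) .nil)))))))) (.g (nat_lit 4) .nil .nil)))))) 
(.nd (nat_lit 3) (.nd (nat_lit 4) (.nd (nat_lit 5) 
(.lf (nat_lit 254726) (.g (nat_lit 4243) (.e (nat_lit 163978) (nat_lit 30) (.e (nat_lit 573489) (nat_lit 14) (.e (nat_lit 73755) (nat_lit 8) (.e (nat_lit 557103) (nat_lit 14) (.e (nat_lit 180243) (nat_lit 5) (.e (nat_lit 532484) (nat_lit 0) (.e (nat_lit 7936) (nat_lit 149) (.e (nat_lit 761893) (nat_lit 15) .nil)))))))) (.g (nat_lit 4) .nil .nil))) 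
(.lf (nat_lit 254758) (.g (nat_lit 2835) (.e (nat_lit 163979) (nat_lit 30) (.e (nat_lit 573451) (nat_lit 9) (.e (nat_lit 1595) (nat_lit 111) (.e (nat_lit 360467) (nat_lit 3) (.e (nat_lit 516171) (nat_lit 13) (.e (nat_lit 458774) (nat_lit 18) (.e (nat_lit 5547) (nat_lit 306) (.e (nat_lit 2599) (nat_lit 163) .nil)))))))) (.g (nat_lit 4) .nil .nil)))) (.nd (nat_lit 5) 
(.lf (nat_lit 254742) (.g (nat_lit 2813) (.e (nat_lit 163978) (nat_lit 30) (.e (nat_lit 573489) (nat_lit 14) (.e (nat_lit 73755) (nat_lit 8) (.e (nat_lit 557105) (nat_lit 14) (.e (nat_lit 180245) (nat_lit 5) (.e (nat_lit 532481) (nat_lit 0) (.e (nat_lit 2267) (nat_lit 149) (.e (nat_lit 761895) (nat_lit 15) .nil)))))))) (.g (nat_lit 4) .nil .nil))) 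
(.lf (nat_lit 254774) (.g (nat_lit 2985) (.e (nat_lit 163979) (nat_lit 30) (.e (nat_lit 573475) (nat_lit 12) (.e (nat_lit 57549) (nat_lit 48) (.e (nat_lit 720941) (nat_lit 22) (.e (nat_lit 90172) (nat_lit 14) (.e (nat_lit 180244) (nat_lit 5) (.e (nat_lit 532519) (nat_lit 5) (.e (nat_lit 147498) (nat_lit 12) .nil)))))))) (.g (nat_lit 5) .nil .nil))))) (.nd (nat_lit 4) (.nd (nat_lit 5) 
(.lf (nat_lit 254734) (.g (nat_lit 2243) (.e (nat_lit 163978) (nat_lit 30) (.e (nat_lit 573489) (nat_lit 14) (.e (nat_lit 73755) (nat_lit 8) (.e (nat_lit 557105) (nat_lit 14) (.e (nat_lit 180242) (nat_lit 5) (.e (nat_lit 532484) (nat_lit 0) (.e (nat_lit 7936) (nat_lit 149) (.e (nat_lit 761893) (nat_lit 15) .nil)))))))) (.g (nat_lit 4) .nil .nil))) 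
(.lf (nat_lit 254766) (.g (nat_lit 2507) (.e (nat_lit 163979) (nat_lit 30) (.e (nat_lit 573475) (nat_lit 12) (.e (nat_lit 57543) (nat_lit 47) (.e (nat_lit 712729) (nat_lit 18) (.e (nat_lit 204862) (nat_lit 27) (.e (nat_lit 344117) (nat_lit 21) (.e (nat_lit 516123) (nat_lit 2) (.e (nat_lit 213033) (nat_lit 12) .nil)))))))) (.g (nat_lit 5) .nil .nil)))) (.nd (nat_lit 5) 
(.lf (nat_lit 254750) (.g (nat_lit 2274) (.e (nat_lit 163979) (nat_lit 30) (.e (nat_lit 573449) (nat_lit 9) (.e (nat_lit 1615) (nat_lit 113) (.e (nat_lit 376865) (nat_lit 22) (.e (nat_lit 90185) (nat_lit 17) (.e (nat_lit 237582) (nat_lit 1) (.e (nat_lit 164347) (nat_lit 240) (.e (nat_lit 2611) (nat_lit 163) .nil)))))))) (.g (nat_lit 4) .nil .nil))) 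
(.lf (nat_lit 254782) (.g (nat_lit 2471) (.e (nat_lit 163979) (nat_lit 30) (.e (nat_lit 573475) (nat_lit 12) (.e (nat_lit 57549) (nat_lit 48) (.e (nat_lit 720945) (nat_lit 23) (.e (nat_lit 98367) (nat_lit 27) (.e (nat_lit 434231) (nat_lit 23) (.e (nat_lit 532519) (nat_lit 5) (.e (nat_lit 147504) (nat_lit 12) .nil)))))))) (.g (nat_lit 5) .nil .nil)))))))) 
(.nd (nat_lit 1) (.nd (nat_lit 2) (.nd (nat_lit 3) (.nd (nat_lit 4) (.nd (nat_lit 5) 
(.lf (nat_lit 254721) (.g (nat_lit 3634) (.e (nat_lit 163978) (nat_lit 30) (.e (nat_lit 573489) (nat_lit 14) (.e (nat_lit 73755) (nat_lit 8) (.e (nat_lit 557098) (nat_lit 13) (.e (nat_lit 172067) (nat_lit 3) (.e (nat_lit 204815) (nat_lit 17) (.e (nat_lit 2267) (nat_lit 149) (.e (nat_lit 761895) (nat_lit 15) .nil)))))))) (.g (nat_lit 4) .nil .nil))) 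
(.lf (nat_lit 254753) (.g (nat_lit 4228) (.e (nat_lit 163979) (nat_lit 30) (.e (nat_lit 573451) (nat_lit 9) (.e (nat_lit 1595) (nat_lit 111) (.e (nat_lit 360467) (nat_lit 3) (.e (nat_lit 516146) (nat_lit 9) (.e (nat_lit 426444) (nat_lit 19) (.e (nat_lit 114432) (nat_lit 3) .nil))))))) (.g (nat_lit 6) .nil .nil)))) (.nd (nat_lit 5) 
(.lf (nat_lit 254737) (.g (nat_lit 2581) (.e (nat_lit 163978) (nat_lit 30) (.e (nat_lit 573489) (nat_lit 14) (.e (nat_lit 73755) (nat_lit 8) (.e (nat_lit 557105) (nat_lit 14) (.e (nat_lit 180243) (nat_lit 5) (.e (nat_lit 532484) (nat_lit 0) (.e (nat_lit 7936) (nat_lit 149) (.e (nat_lit 761894) (nat_lit 15) .nil)))))))) (.g (nat_lit 4) .nil .nil))) 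
(.lf (nat_lit 254769) (.g (nat_lit 2731) (.e (nat_lit 163979) (nat_lit 30) (.e (nat_lit 573475) (nat_lit 12) (.e (nat_lit 57549) (nat_lit 48) (.e (nat_lit 720938) (nat_lit 22) (.e (nat_lit 90172) (nat_lit 14) (.e (nat_lit 180244) (nat_lit 5) (.e (nat_lit 532519) (nat_lit 5) (.e (nat_lit 147498) (nat_lit 12) .nil)))))))) (.g (nat_lit 5) .nil .nil))))) (.nd (nat_lit 4) (.nd (nat_lit 5) 
(.lf (nat_lit 254729) (.g (nat_lit 4435) (.e (nat_lit 163978) (nat_lit 30) (.e (nat_lit 573489) (nat_lit 14) (.e (nat_lit 73755) (nat_lit 8) (.e (nat_lit 557103) (nat_lit 14) (.e (nat_lit 180244) (nat_lit 5) (.e (nat_lit 532481) (nat_lit 0) (.e (nat_lit 2267) (nat_lit 149) (.e (nat_lit 761895) (nat_lit 15) .nil)))))))) (.g (nat_lit 5) .nil .nil))) 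
(.lf (nat_lit 254761) (.g (nat_lit 4524) (.e (nat_lit 163979) (nat_lit 30) (.e (nat_lit 573451) (nat_lit 9) (.e (nat_lit 1595) (nat_lit 111) (.e (nat_lit 360467) (nat_lit 3) (.e (nat_lit 516179) (nat_lit 15) (.e (nat_lit 475197) (nat_lit 40) (.e (nat_lit 704589) (nat_lit 3) .nil))))))) (.g (nat_lit 5) .nil .nil)))) (.nd (nat_lit 5) 
(.lf (nat_lit 254745) (.g (nat_lit 2429) (.e (nat_lit 163978) (nat_lit 30) (.e (nat_lit 573489) (nat_lit 14) (.e (nat_lit 73755) (nat_lit 8) (.e (nat_lit 557105) (nat_lit 14) (.e (nat_lit 180245) (nat_lit 5) (.e (nat_lit 532484) (nat_lit 0) (.e (nat_lit 7936) (nat_lit 149) (.e (nat_lit 761895) (nat_lit 15) .nil)))))))) (.g (nat_lit 4) .nil .nil))) 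
(.lf (nat_lit 254777) (.g (nat_lit 3505) (.e (nat_lit 163979) (nat_lit 30) (.e (nat_lit 573475) (nat_lit 12) (.e (nat_lit 57549) (nat_lit 48) (.e (nat_lit 720945) (nat_lit 23) (.e (nat_lit 98366) (nat_lit 27) (.e (nat_lit 434231) (nat_lit 23) (.e (nat_lit 532519) (nat_lit 5) (.e (nat_lit 147498) (nat_lit 12) .nil)))))))) (.g (nat_lit 6) .nil .nil)))))) 
(.nd (nat_lit 3) (.nd (nat_lit 4) (.nd (nat_lit 5) 
(.lf (nat_lit 254725) (.g (nat_lit 3099) (.e (nat_lit 163978) (nat_lit 30) (.e (nat_lit 573489) (nat_lit 14) (.e (nat_lit 73755) (nat_lit 8) (.e (nat_lit 557098) (nat_lit 13) (.e (nat_lit 172067) (nat_lit 3) (.e (nat_lit 204821) (nat_lit 17) (.e (nat_lit 2270) (nat_lit 149) (.e (nat_lit 761893) (nat_lit 15) .nil)))))))) (.g (nat_lit 4) .nil .nil))) 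
(.lf (nat_lit 254757) (.g (nat_lit 1828) (.e (nat_lit 163979) (nat_lit 30) (.e (nat_lit 573451) (nat_lit 9) (.e (nat_lit 1595) (nat_lit 111) (.e (nat_lit 360467) (nat_lit 3) (.e (nat_lit 516171) (nat_lit 13) .nil))))) .nil))) (.nd (nat_lit 5) 
(.lf (nat_lit 254741) (.g (nat_lit 2479) (.e (nat_lit 163978) (nat_lit 30) (.e (nat_lit 573489) (nat_lit 14) (.e (nat_lit 73755) (nat_lit 8) (.e (nat_lit 557105) (nat_lit 14) (.e (nat_lit 180244) (nat_lit 5) (.e (nat_lit 532484) (nat_lit 0) (.e (nat_lit 7936) (nat_lit 149) (.e (nat_lit 761895) (nat_lit 15) .nil)))))))) (.g (nat_lit 4) .nil .nil))) 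
(.lf (nat_lit 254773) (.g (nat_lit 3006) (.e (nat_lit 163979) (nat_lit 30) (.e (nat_lit 573475) (nat_lit 12) (.e (nat_lit 57549) (nat_lit 48) (.e (nat_lit 720940) (nat_lit 22) (.e (nat_lit 90170) (nat_lit 13) (.e (nat_lit 172067) (nat_lit 3) (.e (nat_lit 204842) (nat_lit 22) (.e (nat_lit 147503) (nat_lit 12) .nil)))))))) (.g (nat_lit 5) .nil .nil))))) (.nd (nat_lit 4) (.nd (nat_lit 5) 
(.lf (nat_lit 254733) (.g (nat_lit 4511) (.e (nat_lit 163978) (nat_lit 30) (.e (nat_lit 573489) (nat_lit 14) (.e (nat_lit 73755) (nat_lit 8) (.e (nat_lit 557104) (nat_lit 14) (.e (nat_lit 180244) (nat_lit 5) (.e (nat_lit 532484) (nat_lit 0) (.e (nat_lit 7936) (nat_lit 149) (.e (nat_lit 761894) (nat_lit 15) .nil)))))))) (.g (nat_lit 5) .nil .nil))) 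
(.lf (nat_lit 254765) (.g (nat_lit 2694) (.e (nat_lit 163979) (nat_lit 30) (.e (nat_lit 573475) (nat_lit 12) (.e (nat_lit 57543) (nat_lit 47) (.e (nat_lit 712729) (nat_lit 18) (.e (nat_lit 204862) (nat_lit 27) (.e (nat_lit 344117) (nat_lit 21) (.e (nat_lit 516122) (nat_lit 2) (.e (nat_lit 213035) (nat_lit 12) .nil)))))))) (.g (nat_lit 5) .nil .nil)))) (.nd (nat_lit 5) 
(.lf (nat_lit 254749) (.g (nat_lit 2154) (.e (nat_lit 163979) (nat_lit 30) (.e (nat_lit 573449) (nat_lit 9) (.e (nat_lit 1615) (nat_lit 113) (.e (nat_lit 376865) (nat_lit 22) (.e (nat_lit 90185) (nat_lit 17) (.e (nat_lit 237582) (nat_lit 1) (.e (nat_lit 164347) (nat_lit 240) (.e (nat_lit 2599) (nat_lit 163) .nil)))))))) (.g (nat_lit 4) .nil .nil))) 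
(.lf (nat_lit 254781) (.g (nat_lit 3870) (.e (nat_lit 163979) (nat_lit 30) (.e (nat_lit 573475) (nat_lit 12) (.e (nat_lit 57549) (nat_lit 48) (.e (nat_lit 720945) (nat_lit 23) (.e (nat_lit 98367) (nat_lit 27) (.e (nat_lit 434231) (nat_lit 23) (.e (nat_lit 532519) (nat_lit 5) (.e (nat_lit 147503) (nat_lit 12) .nil)))))))) (.g (nat_lit 6) .nil .nil))))))) 
(.nd (nat_lit 2) (.nd (nat_lit 3) (.nd (nat_lit 4) (.nd (nat_lit 5) 
(.lf (nat_lit 254723) (.g (nat_lit 4567) (.e (nat_lit 163978) (nat_lit 30) (.e (nat_lit 573489) (nat_lit 14) (.e (nat_lit 73755) (nat_lit 8) (.e (nat_lit 557098) (nat_lit 13) (.e (nat_lit 172067) (nat_lit 3) (.e (nat_lit 204817) (nat_lit 17) (.e (nat_lit 7936) (nat_lit 149) (.e (nat_lit 761894) (nat_lit 15) .nil)))))))) (.g (nat_lit 5) .nil .nil))) 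
(.lf (nat_lit 254755) (.g (nat_lit 1828) (.e (nat_lit 163979) (nat_lit 30) (.e (nat_lit 573451) (nat_lit 9) (.e (nat_lit 1595) (nat_lit 111) (.e (nat_lit 360467) (nat_lit 3) (.e (nat_lit 516159) (nat_lit 10) .nil))))) .nil))) (.nd (nat_lit 5) 
(.lf (nat_lit 254739) (.g (nat_lit 3748) (.e (nat_lit 163978) (nat_lit 30) (.e (nat_lit 573489) (nat_lit 14) (.e (nat_lit 73755) (nat_lit 8) (.e (nat_lit 557105) (nat_lit 14) (.e (nat_lit 180244) (nat_lit 5) (.e (nat_lit 532484) (nat_lit 0) (.e (nat_lit 7936) (nat_lit 149) (.e (nat_lit 761893) (nat_lit 15) .nil)))))))) (.g (nat_lit 5) .nil .nil))) 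
(.lf (nat_lit 254771) (.g (nat_lit 2507) (.e (nat_lit 163979) (nat_lit 30) (.e (nat_lit 573475) (nat_lit 12) (.e (nat_lit 57549) (nat_lit 48) (.e (nat_lit 720940) (nat_lit 22) (.e (nat_lit 90170) (nat_lit 13) (.e (nat_lit 172065) (nat_lit 3) (.e (nat_lit 204842) (nat_lit 22) (.e (nat_lit 147503) (nat_lit 12) .nil)))))))) (.g (nat_lit 5) .nil .nil))))) (.nd (nat_lit 4) (.nd (nat_lit 5) 
(.lf (nat_lit 254731) (.g (nat_lit 4867) (.e (nat_lit 163978) (nat_lit 30) (.e (nat_lit 573489) (nat_lit 14) (.e (nat_lit 73755) (nat_lit 8) (.e (nat_lit 557103) (nat_lit 14) (.e (nat_lit 180244) (nat_lit 5) (.e (nat_lit 532484) (nat_lit 0) (.e (nat_lit 7936) (nat_lit 149) (.e (nat_lit 761894) (nat_lit 15) .nil)))))))) (.g (nat_lit 6) .nil .nil))) 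
(.lf (nat_lit 254763) (.g (nat_lit 2150) (.e (nat_lit 163979) (nat_lit 30) (.e (nat_lit 573452) (nat_lit 9) (.e (nat_lit 1589) (nat_lit 111) (.e (nat_lit 360467) (nat_lit 3) (.e (nat_lit 516146) (nat_lit 9) (.e (nat_lit 426444) (nat_lit 19) (.e (nat_lit 114432) (nat_lit 3) .nil))))))) (.g (nat_lit 5) .nil .nil)))) (.nd (nat_lit 5) 
(.lf (nat_lit 254747) (.g (nat_lit 2514) (.e (nat_lit 163978) (nat_lit 30) (.e (nat_lit 573489) (nat_lit 14) (.e (nat_lit 73767) (nat_lit 19) (.e (nat_lit 647194) (nat_lit 9) (.e (nat_lit 1181) (nat_lit 87) (.e (nat_lit 57872) (nat_lit 264) (.e (nat_lit 1211) (nat_lit 89) (.e (nat_lit 81664) (nat_lit 35) .nil)))))))) (.g (nat_lit 5) .nil .nil))) 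
(.lf (nat_lit 254779) (.g (nat_lit 2679) (.e (nat_lit 163979) (nat_lit 30) (.e (nat_lit 573475) (nat_lit 12) (.e (nat_lit 57549) (nat_lit 48) (.e (nat_lit 720945) (nat_lit 23) (.e (nat_lit 98366) (nat_lit 27) (.e (nat_lit 434231) (nat_lit 23) (.e (nat_lit 532519) (nat_lit 5) (.e (nat_lit 147504) (nat_lit 12) .nil)))))))) (.g (nat_lit 5) .nil .nil)))))) 
(.nd (nat_lit 3) (.nd (nat_lit 4) (.nd (nat_lit 5) 
(.lf (nat_lit 254727) (.g (nat_lit 4457) (.e (nat_lit 163978) (nat_lit 30) (.e (nat_lit 573489) (nat_lit 14) (.e (nat_lit 73755) (nat_lit 8) (.e (nat_lit 557103) (nat_lit 14) (.e (nat_lit 180243) (nat_lit 5) (.e (nat_lit 532484) (nat_lit 0) (.e (nat_lit 7936) (nat_lit 149) (.e (nat_lit 761894) (nat_lit 15) .nil)))))))) (.g (nat_lit 4) .nil .nil))) 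
(.lf (nat_lit 254759) (.g (nat_lit 2930) (.e (nat_lit 163979) (nat_lit 30) (.e (nat_lit 573451) (nat_lit 9) (.e (nat_lit 1595) (nat_lit 111) (.e (nat_lit 360467) (nat_lit 3) (.e (nat_lit 516171) (nat_lit 13) (.e (nat_lit 458774) (nat_lit 18) (.e (nat_lit 5548) (nat_lit 306) (.e (nat_lit 2599) (nat_lit 163) .nil)))))))) (.g (nat_lit 4) .nil .nil)))) (.nd (nat_lit 5) 
(.lf (nat_lit 254743) (.g (nat_lit 3698) (.e (nat_lit 163978) (nat_lit 30) (.e (nat_lit 573489) (nat_lit 14) (.e (nat_lit 73755) (nat_lit 8) (.e (nat_lit 557105) (nat_lit 14) (.e (nat_lit 180245) (nat_lit 5) (.e (nat_lit 532484) (nat_lit 0) (.e (nat_lit 7936) (nat_lit 149) (.e (nat_lit 761893) (nat_lit 15) .nil)))))))) (.g (nat_lit 6) .nil .nil))) 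
(.lf (nat_lit 254775) (.g (nat_lit 3556) (.e (nat_lit 163979) (nat_lit 30) (.e (nat_lit 573475) (nat_lit 12) (.e (nat_lit 57549) (nat_lit 48) (.e (nat_lit 720941) (nat_lit 22) (.e (nat_lit 90172) (nat_lit 14) (.e (nat_lit 180244) (nat_lit 5) (.e (nat_lit 532519) (nat_lit 5) (.e (nat_lit 147503) (nat_lit 12) .nil)))))))) (.g (nat_lit 6) .nil .nil))))) (.nd (nat_lit 4) (.nd (nat_lit 5) 
(.lf (nat_lit 254735) (.g (nat_lit 2457) (.e (nat_lit 163978) (nat_lit 30) (.e (nat_lit 573489) (nat_lit 14) (.e (nat_lit 73755) (nat_lit 8) (.e (nat_lit 557105) (nat_lit 14) (.e (nat_lit 180242) (nat_lit 5) (.e (nat_lit 532484) (nat_lit 0) (.e (nat_lit 7936) (nat_lit 149) (.e (nat_lit 761894) (nat_lit 15) .nil)))))))) (.g (nat_lit 4) .nil .nil))) 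
(.lf (nat_lit 254767) (.g (nat_lit 2989) (.e (nat_lit 163979) (nat_lit 30) (.e (nat_lit 573475) (nat_lit 12) (.e (nat_lit 57549) (nat_lit 48) (.e (nat_lit 720937) (nat_lit 22) (.e (nat_lit 90172) (nat_lit 14) (.e (nat_lit 180244) (nat_lit 5) (.e (nat_lit 532519) (nat_lit 5) (.e (nat_lit 147498) (nat_lit 12) .nil)))))))) (.g (nat_lit 5) .nil .nil)))) (.nd (nat_lit 5) 
(.lf (nat_lit 254751) (.g (nat_lit 2096) (.e (nat_lit 163979) (nat_lit 30) (.e (nat_lit 573449) (nat_lit 9) (.e (nat_lit 1615) (nat_lit 113) (.e (nat_lit 376865) (nat_lit 22) (.e (nat_lit 90185) (nat_lit 17) (.e (nat_lit 237584) (nat_lit 1) (.e (nat_lit 164347) (nat_lit 240) (.e (nat_lit 2599) (nat_lit 163) .nil)))))))) (.g (nat_lit 4) .nil .nil))) 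
(.lf (nat_lit 254783) (.g (nat_lit 3244) (.e (nat_lit 163979) (nat_lit 30) (.e (nat_lit 573475) (nat_lit 12) (.e (nat_lit 57550) (nat_lit 48) (.e (nat_lit 720937) (nat_lit 22) (.e (nat_lit 90172) (nat_lit 14) (.e (nat_lit 180244) (nat_lit 5) (.e (nat_lit 532519) (nat_lit 5) (.e (nat_lit 147498) (nat_lit 12) .nil)))))))) (.g (nat_lit 6) .nil .nil)))))))))

noncomputable def tv3305 : DT := (.nd (nat_lit 0) (.nd (nat_lit 1) (.nd (nat_lit 2) (.nd (nat_lit 3) (.nd (nat_lit 4) (.nd (nat_lit 5) 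
(.lf (nat_lit 254784) (.g (nat_lit 3817) (.e (nat_lit 163979) (nat_lit 30) (.e (nat_lit 573475) (nat_lit 12) (.e (nat_lit 57550) (nat_lit 48) (.e (nat_lit 720937) (nat_lit 22) (.e (nat_lit 90172) (nat_lit 14) (.e (nat_lit 180244) (nat_lit 5) (.e (nat_lit 532519) (nat_lit 5) (.e (nat_lit 147503) (nat_lit 12) .nil)))))))) (.g (nat_lit 6) .nil .nil))) 
(.lf (nat_lit 254816) (.g (nat_lit 4319) (.e (nat_lit 163979) (nat_lit 30) (.e (nat_lit 573482) (nat_lit 13) (.e (nat_lit 65604) (nat_lit 9) (.e (nat_lit 336013) (nat_lit 2) (.e (nat_lit 90170) (nat_lit 13) (.e (nat_lit 172134) (nat_lit 15) (.e (nat_lit 2147) (nat_lit 142) (.e (nat_lit 704588) (nat_lit 3) .nil)))))))) (.g (nat_lit 5) .nil .nil)))) (.nd (nat_lit 5) 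
(.lf (nat_lit 254800) (.g (nat_lit 2939) (.e (nat_lit 163979) (nat_lit 30) (.e (nat_lit 573475) (nat_lit 12) (.e (nat_lit 57550) (nat_lit 48) (.e (nat_lit 720941) (nat_lit 22) (.e (nat_lit 90174) (nat_lit 14) (.e (nat_lit 180243) (nat_lit 5) (.e (nat_lit 532519) (nat_lit 5) (.e (nat_lit 147503) (nat_lit 12) .nil)))))))) (.g (nat_lit 5) .nil .nil))) 
(.lf (nat_lit 254832) (.g (nat_lit 2379) (.e (nat_lit 163979) (nat_lit 30) (.e (nat_lit 573489) (nat_lit 14) (.e (nat_lit 73768) (nat_lit 19) (.e (nat_lit 647194) (nat_lit 9) (.e (nat_lit 1181) (nat_lit 87) (.e (nat_lit 57872) (nat_lit 264) (.e (nat_lit 1211) (nat_lit 89) (.e (nat_lit 81664) (nat_lit 35) .nil)))))))) (.g (nat_lit 5) .nil .nil))))) (.nd (nat_lit 4) (.nd (nat_lit 5) 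
(.lf (nat_lit 254792) (.g (nat_lit 2705) (.e (nat_lit 163979) (nat_lit 30) (.e (nat_lit 573475) (nat_lit 12) (.e (nat_lit 57550) (nat_lit 48) (.e (nat_lit 720939) (nat_lit 22) (.e (nat_lit 90172) (nat_lit 14) (.e (nat_lit 180244) (nat_lit 5) (.e (nat_lit 532519) (nat_lit 5) (.e (nat_lit 147498) (nat_lit 12) .nil)))))))) (.g (nat_lit 5) .nil .nil))) 
(.lf (nat_lit 254824) (.g (nat_lit 5532) (.e (nat_lit 163979) (nat_lit 30) (.e (nat_lit 573482) (nat_lit 13) (.e (nat_lit 65618) (nat_lit 10) (.e (nat_lit 344117) (nat_lit 21) (.e (nat_lit 516151) (nat_lit 9) (.e (nat_lit 426412) (nat_lit 15) (.e (nat_lit 2059) (nat_lit 142) (.e (nat_lit 704589) (nat_lit 3) .nil)))))))) (.g (nat_lit 5) .nil .nil)))) (.nd (nat_lit 5) 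
(.lf (nat_lit 254808) (.g (nat_lit 2985) (.e (nat_lit 163979) (nat_lit 30) (.e (nat_lit 573475) (nat_lit 12) (.e (nat_lit 57551) (nat_lit 48) (.e (nat_lit 720941) (nat_lit 22) (.e (nat_lit 90172) (nat_lit 14) (.e (nat_lit 180244) (nat_lit 5) (.e (nat_lit 532519) (nat_lit 5) (.e (nat_lit 147498) (nat_lit 12) .nil)))))))) (.g (nat_lit 5) .nil .nil))) 
(.lf (nat_lit 254840) (.g (nat_lit 3014) (.e (nat_lit 163979) (nat_lit 30) (.e (nat_lit 573491) (nat_lit 15) (.e (nat_lit 81951) (nat_lit 22) (.e (nat_lit 90170) (nat_lit 13) (.e (nat_lit 172135) (nat_lit 15) (.e (nat_lit 2146) (nat_lit 142) (.e (nat_lit 712448) (nat_lit 3) .nil))))))) (.g (nat_lit 6) .nil .nil)))))) (.nd (nat_lit 3) (.nd (nat_lit 4) (.nd (nat_lit 5) 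
(.lf (nat_lit 254788) (.g (nat_lit 2493) (.e (nat_lit 163979) (nat_lit 30) (.e (nat_lit 573475) (nat_lit 12) (.e (nat_lit 57550) (nat_lit 48) (.e (nat_lit 720938) (nat_lit 22) (.e (nat_lit 90172) (nat_lit 14) (.e (nat_lit 180244) (nat_lit 5) (.e (nat_lit 532519) (nat_lit 5) (.e (nat_lit 147504) (nat_lit 12) .nil)))))))) (.g (nat_lit 4) .nil .nil))) 
(.lf (nat_lit 254820) (.g (nat_lit 2643) (.e (nat_lit 163979) (nat_lit 30) (.e (nat_lit 573482) (nat_lit 13) (.e (nat_lit 65604) (nat_lit 9) (.e (nat_lit 336028) (nat_lit 3) (.e (nat_lit 98359) (nat_lit 26) (.e (nat_lit 426372) (nat_lit 15) (.e (nat_lit 2147) (nat_lit 142) (.e (nat_lit 704588) (nat_lit 3) .nil)))))))) (.g (nat_lit 4) .nil .nil)))) (.nd (nat_lit 5) 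
(.lf (nat_lit 254804) (.g (nat_lit 2394) (.e (nat_lit 163979) (nat_lit 30) (.e (nat_lit 573475) (nat_lit 12) (.e (nat_lit 57550) (nat_lit 48) (.e (nat_lit 720945) (nat_lit 23) (.e (nat_lit 98367) (nat_lit 27) (.e (nat_lit 434231) (nat_lit 23) (.e (nat_lit 532519) (nat_lit 5) (.e (nat_lit 147504) (nat_lit 12) .nil)))))))) (.g (nat_lit 4) .nil .nil))) 
(.lf (nat_lit 254836) (.g (nat_lit 3164) (.e (nat_lit 163979) (nat_lit 30) (.e (nat_lit 573491) (nat_lit 15) (.e (nat_lit 81951) (nat_lit 22) (.e (nat_lit 90170) (nat_lit 13) (.e (nat_lit 172134) (nat_lit 15) .nil))))) .nil)))) (.nd (nat_lit 4) (.nd (nat_lit 5) 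
(.lf (nat_lit 254796) (.g (nat_lit 3271) (.e (nat_lit 163979) (nat_lit 30) (.e (nat_lit 573475) (nat_lit 12) (.e (nat_lit 57550) (nat_lit 48) (.e (nat_lit 720941) (nat_lit 22) (.e (nat_lit 90172) (nat_lit 14) (.e (nat_lit 180244) (nat_lit 5) (.e (nat_lit 532519) (nat_lit 5) (.e (nat_lit 147498) (nat_lit 12) .nil)))))))) (.g (nat_lit 6) .nil .nil))) 
(.lf (nat_lit 254828) (.g (nat_lit 5057) (.e (nat_lit 163979) (nat_lit 30) (.e (nat_lit 573482) (nat_lit 13) (.e (nat_lit 65620) (nat_lit 10) (.e (nat_lit 344117) (nat_lit 21) (.e (nat_lit 516151) (nat_lit 9) (.e (nat_lit 426412) (nat_lit 15) (.e (nat_lit 2059) (nat_lit 142) (.e (nat_lit 704589) (nat_lit 3) .nil)))))))) (.g (nat_lit 5) .nil .nil)))) (.nd (nat_lit 5) 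
(.lf (nat_lit 254812) (.g (nat_lit 3331) (.e (nat_lit 163979) (nat_lit 30) (.e (nat_lit 573475) (nat_lit 12) (.e (nat_lit 57551) (nat_lit 48) (.e (nat_lit 720945) (nat_lit 23) (.e (nat_lit 98366) (nat_lit 27) (.e (nat_lit 434231) (nat_lit 23) (.e (nat_lit 532519) (nat_lit 5) (.e (nat_lit 147503) (nat_lit 12) .nil)))))))) (.g (nat_lit 6) .nil .nil))) 
(.lf (nat_lit 254844) (.g (nat_lit 2353) (.e (nat_lit 163979) (nat_lit 30) (.e (nat_lit 573491) (nat_lit 15) (.e (nat_lit 81954) (nat_lit 23) (.e (nat_lit 98356) (nat_lit 26) (.e (nat_lit 426415) (nat_lit 15) (.e (nat_lit 2148) (nat_lit 142) (.e (nat_lit 704588) (nat_lit 3) .nil))))))) (.g (nat_lit 4) .nil .nil))))))) (.nd (nat_lit 2) (.nd (nat_lit 3) (.nd (nat_lit 4) (.nd (nat_lit 5) 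
(.lf (nat_lit 254786) (.g (nat_lit 3321) (.e (nat_lit 163979) (nat_lit 30) (.e (nat_lit 573475) (nat_lit 12) (.e (nat_lit 57550) (nat_lit 48) (.e (nat_lit 720938) (nat_lit 22) (.e (nat_lit 90172) (nat_lit 14) (.e (nat_lit 180244) (nat_lit 5) (.e (nat_lit 532519) (nat_lit 5) (.e (nat_lit 147498) (nat_lit 12) .nil)))))))) (.g (nat_lit 6) .nil .nil))) 
(.lf (nat_lit 254818) (.g (nat_lit 2359) (.e (nat_lit 163979) (nat_lit 30) (.e (nat_lit 573482) (nat_lit 13) (.e (nat_lit 65604) (nat_lit 9) (.e (nat_lit 336013) (nat_lit 2) (.e (nat_lit 90170) (nat_lit 13) (.e (nat_lit 172135) (nat_lit 15) (.e (nat_lit 2147) (nat_lit 142) (.e (nat_lit 712448) (nat_lit 3) .nil)))))))) (.g (nat_lit 4) .nil .nil)))) (.nd (nat_lit 5) 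
(.lf (nat_lit 254802) (.g (nat_lit 2605) (.e (nat_lit 163979) (nat_lit 30) (.e (nat_lit 573475) (nat_lit 12) (.e (nat_lit 57550) (nat_lit 48) (.e (nat_lit 720945) (nat_lit 23) (.e (nat_lit 98366) (nat_lit 27) (.e (nat_lit 434231) (nat_lit 23) (.e (nat_lit 532519) (nat_lit 5) (.e (nat_lit 147504) (nat_lit 12) .nil)))))))) (.g (nat_lit 5) .nil .nil))) 
(.lf (nat_lit 254834) (.g (nat_lit 2556) (.e (nat_lit 163979) (nat_lit 30) (.e (nat_lit 573489) (nat_lit 14) (.e (nat_lit 73768) (nat_lit 19) (.e (nat_lit 647196) (nat_lit 9) (.e (nat_lit 1181) (nat_lit 87) (.e (nat_lit 57872) (nat_lit 264) (.e (nat_lit 1211) (nat_lit 89) (.e (nat_lit 81664) (nat_lit 35) .nil)))))))) (.g (nat_lit 5) .nil .nil))))) (.nd (nat_lit 4) (.nd (nat_lit 5) 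
(.lf (nat_lit 254794) (.g (nat_lit 2564) (.e (nat_lit 163979) (nat_lit 30) (.e (nat_lit 573475) (nat_lit 12) (.e (nat_lit 57550) (nat_lit 48) (.e (nat_lit 720939) (nat_lit 22) (.e (nat_lit 90174) (nat_lit 14) (.e (nat_lit 180243) (nat_lit 5) (.e (nat_lit 532519) (nat_lit 5) (.e (nat_lit 147498) (nat_lit 12) .nil)))))))) (.g (nat_lit 5) .nil .nil))) 
(.lf (nat_lit 254826) (.g (nat_lit 4367) (.e (nat_lit 163979) (nat_lit 30) (.e (nat_lit 573482) (nat_lit 13) (.e (nat_lit 65619) (nat_lit 10) (.e (nat_lit 344117) (nat_lit 21) (.e (nat_lit 516151) (nat_lit 9) (.e (nat_lit 426372) (nat_lit 15) (.e (nat_lit 2148) (nat_lit 142) (.e (nat_lit 704588) (nat_lit 3) .nil)))))))) (.g (nat_lit 5) .nil .nil)))) (.nd (nat_lit 5) 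
(.lf (nat_lit 254810) (.g (nat_lit 2506) (.e (nat_lit 163979) (nat_lit 30) (.e (nat_lit 573475) (nat_lit 12) (.e (nat_lit 57551) (nat_lit 48) (.e (nat_lit 720941) (nat_lit 22) (.e (nat_lit 90174) (nat_lit 14) (.e (nat_lit 180243) (nat_lit 5) (.e (nat_lit 532519) (nat_lit 5) (.e (nat_lit 147503) (nat_lit 12) .nil)))))))) (.g (nat_lit 4) .nil .nil))) 
(.lf (nat_lit 254842) (.g (nat_lit 2303) (.e (nat_lit 163979) (nat_lit 30) (.e (nat_lit 573491) (nat_lit 15) (.e (nat_lit 81954) (nat_lit 23) (.e (nat_lit 98356) (nat_lit 26) (.e (nat_lit 426360) (nat_lit 15) (.e (nat_lit 2100) (nat_lit 142) (.e (nat_lit 704588) (nat_lit 3) .nil))))))) (.g (nat_lit 4) .nil .nil)))))) (.nd (nat_lit 3) (.nd (nat_lit 4) (.nd (nat_lit 5) 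
(.lf (nat_lit 254790) (.g (nat_lit 2282) (.e (nat_lit 163979) (nat_lit 30) (.e (nat_lit 573475) (nat_lit 12) (.e (nat_lit 57550) (nat_lit 48) (.e (nat_lit 720939) (nat_lit 22) (.e (nat_lit 90170) (nat_lit 13) (.e (nat_lit 172067) (nat_lit 3) (.e (nat_lit 204842) (nat_lit 22) (.e (nat_lit 147498) (nat_lit 12) .nil)))))))) (.g (nat_lit 4) .nil .nil))) 
(.lf (nat_lit 254822) (.g (nat_lit 3531) (.e (nat_lit 163979) (nat_lit 30) (.e (nat_lit 573482) (nat_lit 13) (.e (nat_lit 65604) (nat_lit 9) (.e (nat_lit 336028) (nat_lit 3) (.e (nat_lit 98359) (nat_lit 26) (.e (nat_lit 426407) (nat_lit 15) (.e (nat_lit 2146) (nat_lit 142) (.e (nat_lit 712448) (nat_lit 3) .nil)))))))) (.g (nat_lit 7) .nil .nil)))) (.nd (nat_lit 5) 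
(.lf (nat_lit 254806) (.g (nat_lit 2580) (.e (nat_lit 163979) (nat_lit 30) (.e (nat_lit 573475) (nat_lit 12) (.e (nat_lit 57551) (nat_lit 48) (.e (nat_lit 720938) (nat_lit 22) (.e (nat_lit 90172) (nat_lit 14) (.e (nat_lit 180244) (nat_lit 5) (.e (nat_lit 532519) (nat_lit 5) (.e (nat_lit 147498) (nat_lit 12) .nil)))))))) (.g (nat_lit 4) .nil .nil))) 
(.lf (nat_lit 254838) (.g (nat_lit 3169) (.e (nat_lit 163979) (nat_lit 30) (.e (nat_lit 573491) (nat_lit 15) (.e (nat_lit 81951) (nat_lit 22) (.e (nat_lit 90170) (nat_lit 13) (.e (nat_lit 172134) (nat_lit 15) (.e (nat_lit 2148) (nat_lit 142) (.e (nat_lit 704588) (nat_lit 3) .nil))))))) (.g (nat_lit 4) .nil .nil))))) (.nd (nat_lit 4) (.nd (nat_lit 5) 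
(.lf (nat_lit 254798) (.g (nat_lit 2443) (.e (nat_lit 163979) (nat_lit 30) (.e (nat_lit 573475) (nat_lit 12) (.e (nat_lit 57550) (nat_lit 48) (.e (nat_lit 720941) (nat_lit 22) (.e (nat_lit 90172) (nat_lit 14) (.e (nat_lit 180244) (nat_lit 5) (.e (nat_lit 532519) (nat_lit 5) (.e (nat_lit 147504) (nat_lit 12) .nil)))))))) (.g (nat_lit 4) .nil .nil))) 
(.lf (nat_lit 254830) (.g (nat_lit 5820) (.e (nat_lit 163979) (nat_lit 30) (.e (nat_lit 573483) (nat_lit 13) (.e (nat_lit 65610) (nat_lit 10) (.e (nat_lit 344117) (nat_lit 21) (.e (nat_lit 516151) (nat_lit 9) (.e (nat_lit 426412) (nat_lit 15) (.e (nat_lit 2059) (nat_lit 142) (.e (nat_lit 704589) (nat_lit 3) .nil)))))))) (.g (nat_lit 8) .nil .nil)))) (.nd (nat_lit 5) 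
(.lf (nat_lit 254814) (.g (nat_lit 3105) (.e (nat_lit 163979) (nat_lit 30) (.e (nat_lit 573475) (nat_lit 12) (.e (nat_lit 57551) (nat_lit 48) (.e (nat_lit 720945) (nat_lit 23) (.e (nat_lit 98367) (nat_lit 27) (.e (nat_lit 434231) (nat_lit 23) (.e (nat_lit 532519) (nat_lit 5) (.e (nat_lit 147503) (nat_lit 12) .nil)))))))) (.g (nat_lit 5) .nil .nil))) 
(.lf (nat_lit 254846) (.g (nat_lit 2369) (.e (nat_lit 163979) (nat_lit 30) (.e (nat_lit 573491) (nat_lit 15) (.e (nat_lit 81954) (nat_lit 23) (.e (nat_lit 98359) (nat_lit 26) (.e (nat_lit 426372) (nat_lit 15) (.e (nat_lit 2147) (nat_lit 142) (.e (nat_lit 704588) (nat_lit 3) .nil))))))) (.g (nat_lit 4) .nil .nil)))))))) 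
(.nd (nat_lit 1) (.nd (nat_lit 2) (.nd (nat_lit 3) (.nd (nat_lit 4) (.nd (nat_lit 5) 
(.lf (nat_lit 254785) (.g (nat_lit 2416) (.e (nat_lit 163979) (nat_lit 30) (.e (nat_lit 573475) (nat_lit 12) (.e (nat_lit 57550) (nat_lit 48) (.e (nat_lit 720937) (nat_lit 22) (.e (nat_lit 90172) (nat_lit 14) (.e (nat_lit 180244) (nat_lit 5) (.e (nat_lit 532519) (nat_lit 5) (.e (nat_lit 147504) (nat_lit 12) .nil)))))))) (.g (nat_lit 4) .nil .nil))) 
(.lf (nat_lit 254817) (.g (nat_lit 3884) (.e (nat_lit 163979) (nat_lit 30) (.e (nat_lit 573482) (nat_lit 13) (.e (nat_lit 65604) (nat_lit 9) (.e (nat_lit 336013) (nat_lit 2) (.e (nat_lit 90170) (nat_lit 13) (.e (nat_lit 172135) (nat_lit 15) (.e (nat_lit 2146) (nat_lit 142) (.e (nat_lit 712448) (nat_lit 3) .nil)))))))) (.g (nat_lit 7) .nil .nil)))) (.nd (nat_lit 5) 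
(.lf (nat_lit 254801) (.g (nat_lit 3431) (.e (nat_lit 163979) (nat_lit 30) (.e (nat_lit 573475) (nat_lit 12) (.e (nat_lit 57550) (nat_lit 48) (.e (nat_lit 720945) (nat_lit 23) (.e (nat_lit 98366) (nat_lit 27) (.e (nat_lit 434231) (nat_lit 23) (.e (nat_lit 532519) (nat_lit 5) (.e (nat_lit 147498) (nat_lit 12) .nil)))))))) (.g (nat_lit 6) .nil .nil))) 
(.lf (nat_lit 254833) (.g (nat_lit 2938) (.e (nat_lit 163979) (nat_lit 30) (.e (nat_lit 573489) (nat_lit 14) (.e (nat_lit 73768) (nat_lit 19) (.e (nat_lit 647195) (nat_lit 9) (.e (nat_lit 1181) (nat_lit 87) (.e (nat_lit 57872) (nat_lit 264) (.e (nat_lit 1211) (nat_lit 89) (.e (nat_lit 81664) (nat_lit 35) .nil)))))))) (.g (nat_lit 5) .nil .nil))))) (.nd (nat_lit 4) (.nd (nat_lit 5) 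
(.lf (nat_lit 254793) (.g (nat_lit 3278) (.e (nat_lit 163979) (nat_lit 30) (.e (nat_lit 573475) (nat_lit 12) (.e (nat_lit 57550) (nat_lit 48) (.e (nat_lit 720939) (nat_lit 22) (.e (nat_lit 90172) (nat_lit 14) (.e (nat_lit 180244) (nat_lit 5) (.e (nat_lit 532519) (nat_lit 5) (.e (nat_lit 147503) (nat_lit 12) .nil)))))))) (.g (nat_lit 6) .nil .nil))) 
(.lf (nat_lit 254825) (.g (nat_lit 4027) (.e (nat_lit 163979) (nat_lit 30) (.e (nat_lit 573482) (nat_lit 13) (.e (nat_lit 65619) (nat_lit 10) (.e (nat_lit 344117) (nat_lit 21) (.e (nat_lit 516145) (nat_lit 9) (.e (nat_lit 426415) (nat_lit 15) (.e (nat_lit 2148) (nat_lit 142) (.e (nat_lit 704588) (nat_lit 3) .nil)))))))) (.g (nat_lit 5) .nil .nil)))) (.nd (nat_lit 5) 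
(.lf (nat_lit 254809) (.g (nat_lit 3558) (.e (nat_lit 163979) (nat_lit 30) (.e (nat_lit 573475) (nat_lit 12) (.e (nat_lit 57551) (nat_lit 48) (.e (nat_lit 720941) (nat_lit 22) (.e (nat_lit 90172) (nat_lit 14) (.e (nat_lit 180244) (nat_lit 5) (.e (nat_lit 532519) (nat_lit 5) (.e (nat_lit 147503) (nat_lit 12) .nil)))))))) (.g (nat_lit 6) .nil .nil))) 
(.lf (nat_lit 254841) (.g (nat_lit 2279) (.e (nat_lit 163979) (nat_lit 30) (.e (nat_lit 573491) (nat_lit 15) (.e (nat_lit 81954) (nat_lit 23) (.e (nat_lit 98356) (nat_lit 26) (.e (nat_lit 426352) (nat_lit 15) (.e (nat_lit 2108) (nat_lit 142) (.e (nat_lit 712448) (nat_lit 3) .nil))))))) (.g (nat_lit 4) .nil .nil)))))) (.nd (nat_lit 3) (.nd (nat_lit 4) (.nd (nat_lit 5) 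
(.lf (nat_lit 254789) (.g (nat_lit 2694) (.e (nat_lit 163979) (nat_lit 30) (.e (nat_lit 573475) (nat_lit 12) (.e (nat_lit 57550) (nat_lit 48) (.e (nat_lit 720939) (nat_lit 22) (.e (nat_lit 90170) (nat_lit 13) (.e (nat_lit 172065) (nat_lit 3) (.e (nat_lit 204842) (nat_lit 22) (.e (nat_lit 147503) (nat_lit 12) .nil)))))))) (.g (nat_lit 5) .nil .nil))) 
(.lf (nat_lit 254821) (.g (nat_lit 3086) (.e (nat_lit 163979) (nat_lit 30) (.e (nat_lit 573482) (nat_lit 13) (.e (nat_lit 65604) (nat_lit 9) (.e (nat_lit 336028) (nat_lit 3) (.e (nat_lit 98359) (nat_lit 26) (.e (nat_lit 426372) (nat_lit 15) (.e (nat_lit 2148) (nat_lit 142) (.e (nat_lit 704588) (nat_lit 3) .nil)))))))) (.g (nat_lit 5) .nil .nil)))) (.nd (nat_lit 5) 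
(.lf (nat_lit 254805) (.g (nat_lit 2822) (.e (nat_lit 163979) (nat_lit 30) (.e (nat_lit 573475) (nat_lit 12) (.e (nat_lit 57551) (nat_lit 48) (.e (nat_lit 720937) (nat_lit 22) (.e (nat_lit 90172) (nat_lit 14) (.e (nat_lit 180244) (nat_lit 5) (.e (nat_lit 532519) (nat_lit 5) (.e (nat_lit 147503) (nat_lit 12) .nil)))))))) (.g (nat_lit 5) .nil .nil))) 
(.lf (nat_lit 254837) (.g (nat_lit 3558) (.e (nat_lit 163979) (nat_lit 30) (.e (nat_lit 573491) (nat_lit 15) (.e (nat_lit 81951) (nat_lit 22) (.e (nat_lit 90170) (nat_lit 13) (.e (nat_lit 172134) (nat_lit 15) (.e (nat_lit 2147) (nat_lit 142) (.e (nat_lit 704588) (nat_lit 3) .nil))))))) (.g (nat_lit 4) .nil .nil))))) (.nd (nat_lit 4) (.nd (nat_lit 5) 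
(.lf (nat_lit 254797) (.g (nat_lit 3844) (.e (nat_lit 163979) (nat_lit 30) (.e (nat_lit 573475) (nat_lit 12) (.e (nat_lit 57550) (nat_lit 48) (.e (nat_lit 720941) (nat_lit 22) (.e (nat_lit 90172) (nat_lit 14) (.e (nat_lit 180244) (nat_lit 5) (.e (nat_lit 532519) (nat_lit 5) (.e (nat_lit 147503) (nat_lit 12) .nil)))))))) (.g (nat_lit 6) .nil .nil))) 
(.lf (nat_lit 254829) (.g (nat_lit 4617) (.e (nat_lit 163979) (nat_lit 30) (.e (nat_lit 573483) (nat_lit 13) (.e (nat_lit 65610) (nat_lit 10) (.e (nat_lit 344117) (nat_lit 21) (.e (nat_lit 516151) (nat_lit 9) (.e (nat_lit 426412) (nat_lit 15) (.e (nat_lit 2057) (nat_lit 142) (.e (nat_lit 704589) (nat_lit 3) .nil)))))))) (.g (nat_lit 6) .nil .nil)))) (.nd (nat_lit 5) 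
(.lf (nat_lit 254813) (.g (nat_lit 2530) (.e (nat_lit 163979) (nat_lit 30) (.e (nat_lit 573475) (nat_lit 12) (.e (nat_lit 57551) (nat_lit 48) (.e (nat_lit 720945) (nat_lit 23) (.e (nat_lit 98367) (nat_lit 27) (.e (nat_lit 434231) (nat_lit 23) (.e (nat_lit 532519) (nat_lit 5) (.e (nat_lit 147498) (nat_lit 12) .nil)))))))) (.g (nat_lit 4) .nil .nil))) 
(.lf (nat_lit 254845) (.g (nat_lit 2280) (.e (nat_lit 163979) (nat_lit 30) (.e (nat_lit 573491) (nat_lit 15) (.e (nat_lit 81954) (nat_lit 23) (.e (nat_lit 98356) (nat_lit 26) (.e (nat_lit 433920) (nat_lit 15) (.e (nat_lit 2148) (nat_lit 142) (.e (nat_lit 704588) (nat_lit 3) .nil))))))) (.g (nat_lit 4) .nil .nil))))))) (.nd (nat_lit 2) (.nd (nat_lit 3) (.nd (nat_lit 4) (.nd (nat_lit 5) 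
(.lf (nat_lit 254787) (.g (nat_lit 3894) (.e (nat_lit 163979) (nat_lit 30) (.e (nat_lit 573475) (nat_lit 12) (.e (nat_lit 57550) (nat_lit 48) (.e (nat_lit 720938) (nat_lit 22) (.e (nat_lit 90172) (nat_lit 14) (.e (nat_lit 180244) (nat_lit 5) (.e (nat_lit 532519) (nat_lit 5) (.e (nat_lit 147503) (nat_lit 12) .nil)))))))) (.g (nat_lit 6) .nil .nil))) 
(.lf (nat_lit 254819) (.g (nat_lit 2033) (.e (nat_lit 163979) (nat_lit 30) (.e (nat_lit 573482) (nat_lit 13) (.e (nat_lit 65604) (nat_lit 9) (.e (nat_lit 336013) (nat_lit 2) (.e (nat_lit 90170) (nat_lit 13) (.e (nat_lit 172135) (nat_lit 15) (.e (nat_lit 2148) (nat_lit 142) (.e (nat_lit 712448) (nat_lit 3) .nil)))))))) (.g (nat_lit 4) .nil .nil)))) (.nd (nat_lit 5) 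
(.lf (nat_lit 254803) (.g (nat_lit 3795) (.e (nat_lit 163979) (nat_lit 30) (.e (nat_lit 573475) (nat_lit 12) (.e (nat_lit 57550) (nat_lit 48) (.e (nat_lit 720945) (nat_lit 23) (.e (nat_lit 98367) (nat_lit 27) (.e (nat_lit 434231) (nat_lit 23) (.e (nat_lit 532519) (nat_lit 5) (.e (nat_lit 147503) (nat_lit 12) .nil)))))))) (.g (nat_lit 6) .nil .nil))) 
(.lf (nat_lit 254835) (.g (nat_lit 1648) (.e (nat_lit 163979) (nat_lit 30) (.e (nat_lit 573489) (nat_lit 14) (.e (nat_lit 73768) (nat_lit 19) (.e (nat_lit 647201) (nat_lit 12) (.e (nat_lit 57357) (nat_lit 0) .nil))))) .nil)))) (.nd (nat_lit 4) (.nd (nat_lit 5) 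
(.lf (nat_lit 254795) (.g (nat_lit 3143) (.e (nat_lit 163979) (nat_lit 30) (.e (nat_lit 573475) (nat_lit 12) (.e (nat_lit 57550) (nat_lit 48) (.e (nat_lit 720939) (nat_lit 22) (.e (nat_lit 90174) (nat_lit 14) (.e (nat_lit 180243) (nat_lit 5) (.e (nat_lit 532519) (nat_lit 5) (.e (nat_lit 147503) (nat_lit 12) .nil)))))))) (.g (nat_lit 6) .nil .nil))) 
(.lf (nat_lit 254827) (.g (nat_lit 2306) (.e (nat_lit 163979) (nat_lit 30) (.e (nat_lit 573482) (nat_lit 13) (.e (nat_lit 65619) (nat_lit 10) (.e (nat_lit 344117) (nat_lit 21) (.e (nat_lit 516151) (nat_lit 9) (.e (nat_lit 426407) (nat_lit 15) (.e (nat_lit 2147) (nat_lit 142) (.e (nat_lit 712448) (nat_lit 3) .nil)))))))) (.g (nat_lit 4) .nil .nil)))) (.nd (nat_lit 5) 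
(.lf (nat_lit 254811) (.g (nat_lit 2756) (.e (nat_lit 163979) (nat_lit 30) (.e (nat_lit 573475) (nat_lit 12) (.e (nat_lit 57551) (nat_lit 48) (.e (nat_lit 720945) (nat_lit 23) (.e (nat_lit 98366) (nat_lit 27) (.e (nat_lit 434231) (nat_lit 23) (.e (nat_lit 532519) (nat_lit 5) (.e (nat_lit 147498) (nat_lit 12) .nil)))))))) (.g (nat_lit 5) .nil .nil))) 
(.lf (nat_lit 254843) (.g (nat_lit 2112) (.e (nat_lit 163979) (nat_lit 30) (.e (nat_lit 573491) (nat_lit 15) (.e (nat_lit 81954) (nat_lit 23) (.e (nat_lit 98356) (nat_lit 26) (.e (nat_lit 426415) (nat_lit 15) (.e (nat_lit 2146) (nat_lit 142) (.e (nat_lit 704588) (nat_lit 3) .nil))))))) (.g (nat_lit 4) .nil .nil)))))) (.nd (nat_lit 3) (.nd (nat_lit 4) (.nd (nat_lit 5) 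
(.lf (nat_lit 254791) (.g (nat_lit 2967) (.e (nat_lit 163979) (nat_lit 30) (.e (nat_lit 573475) (nat_lit 12) (.e (nat_lit 57550) (nat_lit 48) (.e (nat_lit 720939) (nat_lit 22) (.e (nat_lit 90170) (nat_lit 13) (.e (nat_lit 172067) (nat_lit 3) (.e (nat_lit 204842) (nat_lit 22) (.e (nat_lit 147503) (nat_lit 12) .nil)))))))) (.g (nat_lit 5) .nil .nil))) 
(.lf (nat_lit 254823) (.g (nat_lit 2059) (.e (nat_lit 163979) (nat_lit 30) (.e (nat_lit 573482) (nat_lit 13) (.e (nat_lit 65604) (nat_lit 9) (.e (nat_lit 336028) (nat_lit 3) (.e (nat_lit 98359) (nat_lit 26) (.e (nat_lit 426407) (nat_lit 15) (.e (nat_lit 2147) (nat_lit 142) (.e (nat_lit 712448) (nat_lit 3) .nil)))))))) (.g (nat_lit 4) .nil .nil)))) (.nd (nat_lit 5) 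
(.lf (nat_lit 254807) (.g (nat_lit 3153) (.e (nat_lit 163979) (nat_lit 30) (.e (nat_lit 573475) (nat_lit 12) (.e (nat_lit 57551) (nat_lit 48) (.e (nat_lit 720938) (nat_lit 22) (.e (nat_lit 90172) (nat_lit 14) (.e (nat_lit 180244) (nat_lit 5) (.e (nat_lit 532519) (nat_lit 5) (.e (nat_lit 147503) (nat_lit 12) .nil)))))))) (.g (nat_lit 5) .nil .nil))) 
(.lf (nat_lit 254839) (.g (nat_lit 3240) (.e (nat_lit 163979) (nat_lit 30) (.e (nat_lit 573491) (nat_lit 15) (.e (nat_lit 81951) (nat_lit 22) (.e (nat_lit 90170) (nat_lit 13) (.e (nat_lit 172135) (nat_lit 15) (.e (nat_lit 2143) (nat_lit 142) (.e (nat_lit 704588) (nat_lit 3) .nil))))))) (.g (nat_lit 0) .nil .nil))))) (.nd (nat_lit 4) (.nd (nat_lit 5) 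
(.lf (nat_lit 254799) (.g (nat_lit 2360) (.e (nat_lit 163979) (nat_lit 30) (.e (nat_lit 573475) (nat_lit 12) (.e (nat_lit 57550) (nat_lit 48) (.e (nat_lit 720941) (nat_lit 22) (.e (nat_lit 90174) (nat_lit 14) (.e (nat_lit 180243) (nat_lit 5) (.e (nat_lit 532519) (nat_lit 5) (.e (nat_lit 147498) (nat_lit 12) .nil)))))))) (.g (nat_lit 4) .nil .nil))) 
(.lf (nat_lit 254831) (.g (nat_lit 461) (.e (nat_lit 163979) (nat_lit 30) (.e (nat_lit 573489) (nat_lit 14) (.e (nat_lit 73767) (nat_lit 19) .nil))) .nil))) (.nd (nat_lit 5) 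
(.lf (nat_lit 254815) (.g (nat_lit 3028) (.e (nat_lit 163979) (nat_lit 30) (.e (nat_lit 573479) (nat_lit 13) (.e (nat_lit 65610) (nat_lit 10) (.e (nat_lit 344117) (nat_lit 21) (.e (nat_lit 516151) (nat_lit 9) (.e (nat_lit 426412) (nat_lit 15) (.e (nat_lit 2059) (nat_lit 142) (.e (nat_lit 704589) (nat_lit 3) .nil)))))))) (.g (nat_lit 4) .nil .nil))) 
(.lf (nat_lit 254847) (.g (nat_lit 2811) (.e (nat_lit 163979) (nat_lit 30) (.e (nat_lit 573491) (nat_lit 15) (.e (nat_lit 81954) (nat_lit 23) (.e (nat_lit 98359) (nat_lit 26) (.e (nat_lit 426372) (nat_lit 15) (.e (nat_lit 2148) (nat_lit 142) (.e (nat_lit 704588) (nat_lit 3) .nil))))))) (.g (nat_lit 4) .nil .nil)))))))))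

noncomputable def tv3306 : DT := (.nd (nat_lit 0) (.nd (nat_lit 1) (.nd (nat_lit 2) (.nd (nat_lit 3) (.nd (nat_lit 4) (.nd (nat_lit 5) 
(.lf (nat_lit 254848) (.g (nat_lit 2946) (.e (nat_lit 163979) (nat_lit 30) (.e (nat_lit 573491) (nat_lit 15) (.e (nat_lit 81954) (nat_lit 23) (.e (nat_lit 98359) (nat_lit 26) (.e (nat_lit 426407) (nat_lit 15) (.e (nat_lit 2143) (nat_lit 142) (.e (nat_lit 704588) (nat_lit 3) .nil))))))) (.g (nat_lit 0) .nil .nil))) 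
(.lf (nat_lit 254880) (.g (nat_lit 4389) (.e (nat_lit 163990) (nat_lit 34) (.e (nat_lit 606225) (nat_lit 4) (.e (nat_lit 65630) (nat_lit 14) (.e (nat_lit 401459) (nat_lit 13) (.e (nat_lit 483344) (nat_lit 17) (.e (nat_lit 6712) (nat_lit 360) .nil)))))) (.g (nat_lit 0) .nil .nil)))) (.nd (nat_lit 5) 
(.lf (nat_lit 254864) (.g (nat_lit 3249) (.e (nat_lit 163979) (nat_lit 30) (.e (nat_lit 573493) (nat_lit 15) (.e (nat_lit 81954) (nat_lit 23) (.e (nat_lit 98359) (nat_lit 26) (.e (nat_lit 426407) (nat_lit 15) (.e (nat_lit 2146) (nat_lit 142) (.e (nat_lit 712448) (nat_lit 3) .nil))))))) (.g (nat_lit 4) .nil .nil))) 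
(.lf (nat_lit 254896) (.g (nat_lit 1471) (.e (nat_lit 163998) (nat_lit 38) (.e (nat_lit 639017) (nat_lit 15) (.e (nat_lit 57480) (nat_lit 28) (.e (nat_lit 557105) (nat_lit 14) .nil)))) .nil)))) (.nd (nat_lit 4) (.nd (nat_lit 5) 
(.lf (nat_lit 254856) (.g (nat_lit 3498) (.e (nat_lit 163979) (nat_lit 30) (.e (nat_lit 573493) (nat_lit 15) (.e (nat_lit 81951) (nat_lit 22) (.e (nat_lit 90170) (nat_lit 13) (.e (nat_lit 172135) (nat_lit 15) (.e (nat_lit 2147) (nat_lit 142) (.e (nat_lit 704588) (nat_lit 3) .nil))))))) (.g (nat_lit 4) .nil .nil))) 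
(.lf (nat_lit 254888) (.g (nat_lit 2902) (.e (nat_lit 163997) (nat_lit 37) (.e (nat_lit 630821) (nat_lit 16) (.e (nat_lit 65571) (nat_lit 3) (.e (nat_lit 98359) (nat_lit 26) (.e (nat_lit 426211) (nat_lit 9) (.e (nat_lit 426125) (nat_lit 2) (.e (nat_lit 204544) (nat_lit 3) .nil))))))) (.g (nat_lit 5) .nil .nil)))) (.nd (nat_lit 5) 
(.lf (nat_lit 254872) (.g (nat_lit 5476) (.e (nat_lit 163979) (nat_lit 30) (.e (nat_lit 573503) (nat_lit 18) (.e (nat_lit 1349) (nat_lit 102) (.e (nat_lit 286749) (nat_lit 9) (.e (nat_lit 336028) (nat_lit 3) (.e (nat_lit 98366) (nat_lit 27) (.e (nat_lit 434275) (nat_lit 39) (.e (nat_lit 663584) (nat_lit 12) .nil)))))))) (.g (nat_lit 7) .nil .nil))) 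
(.lf (nat_lit 254904) (.g (nat_lit 2434) (.e (nat_lit 163998) (nat_lit 38) (.e (nat_lit 639018) (nat_lit 15) (.e (nat_lit 57479) (nat_lit 28) (.e (nat_lit 557105) (nat_lit 14) (.e (nat_lit 180252) (nat_lit 10) .nil))))) .nil))))) (.nd (nat_lit 3) (.nd (nat_lit 4) (.nd (nat_lit 5) 
(.lf (nat_lit 254852) (.g (nat_lit 3553) (.e (nat_lit 163979) (nat_lit 30) (.e (nat_lit 573493) (nat_lit 15) (.e (nat_lit 81951) (nat_lit 22) (.e (nat_lit 90170) (nat_lit 13) (.e (nat_lit 172135) (nat_lit 15) (.e (nat_lit 2143) (nat_lit 142) (.e (nat_lit 704588) (nat_lit 3) .nil))))))) (.g (nat_lit 4) .nil .nil))) 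
(.lf (nat_lit 254884) (.g (nat_lit 2385) (.e (nat_lit 163996) (nat_lit 37) (.e (nat_lit 630819) (nat_lit 15) (.e (nat_lit 57479) (nat_lit 28) (.e (nat_lit 557103) (nat_lit 14) (.e (nat_lit 180250) (nat_lit 10) .nil))))) .nil))) (.nd (nat_lit 5) 
(.lf (nat_lit 254868) (.g (nat_lit 4335) (.e (nat_lit 163979) (nat_lit 30) (.e (nat_lit 573503) (nat_lit 18) (.e (nat_lit 1348) (nat_lit 102) (.e (nat_lit 286749) (nat_lit 9) (.e (nat_lit 336028) (nat_lit 3) (.e (nat_lit 98366) (nat_lit 27) (.e (nat_lit 434275) (nat_lit 39) (.e (nat_lit 663584) (nat_lit 12) .nil)))))))) (.g (nat_lit 5) .nil .nil))) 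
(.lf (nat_lit 254900) (.g (nat_lit 4456) (.e (nat_lit 163998) (nat_lit 38) (.e (nat_lit 639017) (nat_lit 15) (.e (nat_lit 57480) (nat_lit 28) (.e (nat_lit 557105) (nat_lit 14) (.e (nat_lit 180252) (nat_lit 10) (.e (nat_lit 573489) (nat_lit 14) (.e (nat_lit 73754) (nat_lit 8) (.e (nat_lit 557093) (nat_lit 12) .nil)))))))) (.g (nat_lit 6) .nil .nil))))) (.nd (nat_lit 4) (.nd (nat_lit 5) 
(.lf (nat_lit 254860) (.g (nat_lit 3566) (.e (nat_lit 163979) (nat_lit 30) (.e (nat_lit 573493) (nat_lit 15) (.e (nat_lit 81953) (nat_lit 22) (.e (nat_lit 90170) (nat_lit 13) (.e (nat_lit 172134) (nat_lit 15) (.e (nat_lit 2148) (nat_lit 142) (.e (nat_lit 704588) (nat_lit 3) .nil))))))) (.g (nat_lit 4) .nil .nil))) 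
(.lf (nat_lit 254892) (.g (nat_lit 1662) (.e (nat_lit 163998) (nat_lit 38) (.e (nat_lit 639017) (nat_lit 15) (.e (nat_lit 57480) (nat_lit 28) (.e (nat_lit 557103) (nat_lit 14) .nil)))) .nil))) (.nd (nat_lit 5) 
(.lf (nat_lit 254876) (.g (nat_lit 2026) (.e (nat_lit 163989) (nat_lit 34) (.e (nat_lit 606224) (nat_lit 4) (.e (nat_lit 65629) (nat_lit 14) (.e (nat_lit 401459) (nat_lit 13) (.e (nat_lit 483344) (nat_lit 17) .nil))))) .nil)) 
(.lf (nat_lit 254908) (.g (nat_lit 1772) (.e (nat_lit 163998) (nat_lit 38) (.e (nat_lit 639020) (nat_lit 16) (.e (nat_lit 65571) (nat_lit 3) (.e (nat_lit 98370) (nat_lit 28) .nil)))) .nil)))))) (.nd (nat_lit 2) (.nd (nat_lit 3) (.nd (nat_lit 4) (.nd (nat_lit 5) 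
(.lf (nat_lit 254850) (.g (nat_lit 2926) (.e (nat_lit 163979) (nat_lit 30) (.e (nat_lit 573492) (nat_lit 15) (.e (nat_lit 81956) (nat_lit 23) (.e (nat_lit 98384) (nat_lit 32) (.e (nat_lit 483072) (nat_lit 40) .nil))))) .nil)) 
(.lf (nat_lit 254882) (.g (nat_lit 4257) (.e (nat_lit 163996) (nat_lit 37) (.e (nat_lit 630818) (nat_lit 15) (.e (nat_lit 57478) (nat_lit 28) (.e (nat_lit 557105) (nat_lit 14) (.e (nat_lit 180252) (nat_lit 10) (.e (nat_lit 573489) (nat_lit 14) (.e (nat_lit 73755) (nat_lit 8) (.e (nat_lit 557091) (nat_lit 12) .nil)))))))) (.g (nat_lit 8) .nil .nil)))) (.nd (nat_lit 5) 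
(.lf (nat_lit 254866) (.g (nat_lit 3661) (.e (nat_lit 163979) (nat_lit 30) (.e (nat_lit 573493) (nat_lit 15) (.e (nat_lit 81956) (nat_lit 23) (.e (nat_lit 98384) (nat_lit 32) (.e (nat_lit 483072) (nat_lit 40) .nil))))) .nil)) 
(.lf (nat_lit 254898) (.g (nat_lit 1985) (.e (nat_lit 163998) (nat_lit 38) (.e (nat_lit 639017) (nat_lit 15) (.e (nat_lit 57480) (nat_lit 28) (.e (nat_lit 557105) (nat_lit 14) (.e (nat_lit 180252) (nat_lit 10) .nil))))) .nil)))) (.nd (nat_lit 4) (.nd (nat_lit 5) 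
(.lf (nat_lit 254858) (.g (nat_lit 3240) (.e (nat_lit 163979) (nat_lit 30) (.e (nat_lit 573493) (nat_lit 15) (.e (nat_lit 81953) (nat_lit 22) (.e (nat_lit 90169) (nat_lit 13) (.e (nat_lit 172130) (nat_lit 15) .nil))))) .nil)) 
(.lf (nat_lit 254890) (.g (nat_lit 3121) (.e (nat_lit 163998) (nat_lit 38) (.e (nat_lit 639017) (nat_lit 15) (.e (nat_lit 57479) (nat_lit 28) (.e (nat_lit 557105) (nat_lit 14) (.e (nat_lit 180251) (nat_lit 10) .nil))))) .nil))) (.nd (nat_lit 5) 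
(.lf (nat_lit 254874) (.g (nat_lit 2732) (.e (nat_lit 163979) (nat_lit 30) (.e (nat_lit 573503) (nat_lit 18) (.e (nat_lit 1349) (nat_lit 102) (.e (nat_lit 286761) (nat_lit 13) (.e (nat_lit 393251) (nat_lit 18) .nil))))) .nil)) 
(.lf (nat_lit 254906) (.g (nat_lit 2837) (.e (nat_lit 163998) (nat_lit 38) (.e (nat_lit 639018) (nat_lit 15) (.e (nat_lit 57480) (nat_lit 28) (.e (nat_lit 557103) (nat_lit 14) (.e (nat_lit 180251) (nat_lit 10) .nil))))) .nil))))) (.nd (nat_lit 3) (.nd (nat_lit 4) (.nd (nat_lit 5) 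
(.lf (nat_lit 254854) (.g (nat_lit 3473) (.e (nat_lit 163979) (nat_lit 30) (.e (nat_lit 573493) (nat_lit 15) (.e (nat_lit 81951) (nat_lit 22) (.e (nat_lit 90170) (nat_lit 13) (.e (nat_lit 172135) (nat_lit 15) (.e (nat_lit 2146) (nat_lit 142) (.e (nat_lit 704588) (nat_lit 3) .nil))))))) (.g (nat_lit 4) .nil .nil))) 
(.lf (nat_lit 254886) (.g (nat_lit 4590) (.e (nat_lit 163997) (nat_lit 37) (.e (nat_lit 630818) (nat_lit 15) (.e (nat_lit 57480) (nat_lit 28) (.e (nat_lit 557105) (nat_lit 14) (.e (nat_lit 180252) (nat_lit 10) (.e (nat_lit 573489) (nat_lit 14) (.e (nat_lit 73755) (nat_lit 8) (.e (nat_lit 557089) (nat_lit 12) .nil)))))))) (.g (nat_lit 8) .nil .nil)))) (.nd (nat_lit 5) 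
(.lf (nat_lit 254870) (.g (nat_lit 4344) (.e (nat_lit 163979) (nat_lit 30) (.e (nat_lit 573503) (nat_lit 18) (.e (nat_lit 1349) (nat_lit 102) (.e (nat_lit 286748) (nat_lit 9) (.e (nat_lit 336028) (nat_lit 3) (.e (nat_lit 98366) (nat_lit 27) (.e (nat_lit 434275) (nat_lit 39) (.e (nat_lit 663584) (nat_lit 12) .nil)))))))) (.g (nat_lit 6) .nil .nil))) 
(.lf (nat_lit 254902) (.g (nat_lit 1957) (.e (nat_lit 163998) (nat_lit 38) (.e (nat_lit 639018) (nat_lit 15) (.e (nat_lit 57478) (nat_lit 28) (.e (nat_lit 557105) (nat_lit 14) (.e (nat_lit 180252) (nat_lit 10) .nil))))) .nil)))) (.nd (nat_lit 4) (.nd (nat_lit 5) 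
(.lf (nat_lit 254862) (.g (nat_lit 3487) (.e (nat_lit 163979) (nat_lit 30) (.e (nat_lit 573493) (nat_lit 15) (.e (nat_lit 81953) (nat_lit 22) (.e (nat_lit 90170) (nat_lit 13) (.e (nat_lit 172135) (nat_lit 15) (.e (nat_lit 2147) (nat_lit 142) (.e (nat_lit 704588) (nat_lit 3) .nil))))))) (.g (nat_lit 0) .nil .nil))) 
(.lf (nat_lit 254894) (.g (nat_lit 2947) (.e (nat_lit 163998) (nat_lit 38) (.e (nat_lit 639017) (nat_lit 15) (.e (nat_lit 57480) (nat_lit 28) (.e (nat_lit 557103) (nat_lit 14) (.e (nat_lit 180251) (nat_lit 10) .nil))))) .nil))) (.nd (nat_lit 5) 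
(.lf (nat_lit 254878) (.g (nat_lit 3752) (.e (nat_lit 163989) (nat_lit 34) (.e (nat_lit 606226) (nat_lit 4) (.e (nat_lit 65630) (nat_lit 14) (.e (nat_lit 401459) (nat_lit 13) (.e (nat_lit 483344) (nat_lit 17) (.e (nat_lit 6714) (nat_lit 360) .nil)))))) (.g (nat_lit 6) .nil .nil))) 
(.lf (nat_lit 254910) (.g (nat_lit 446) (.e (nat_lit 163999) (nat_lit 38) (.e (nat_lit 638998) (nat_lit 8) (.e (nat_lit 172123) (nat_lit 13) .nil))) .nil))))))) (.nd (nat_lit 1) (.nd (nat_lit 2) (.nd (nat_lit 3) (.nd (nat_lit 4) (.nd (nat_lit 5) 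
(.lf (nat_lit 254849) (.g (nat_lit 2640) (.e (nat_lit 163979) (nat_lit 30) (.e (nat_lit 573491) (nat_lit 15) (.e (nat_lit 81954) (nat_lit 23) (.e (nat_lit 98359) (nat_lit 26) (.e (nat_lit 426407) (nat_lit 15) (.e (nat_lit 2146) (nat_lit 142) (.e (nat_lit 712448) (nat_lit 3) .nil))))))) (.g (nat_lit 6) .nil .nil))) 
(.lf (nat_lit 254881) (.g (nat_lit 4159) (.e (nat_lit 163996) (nat_lit 37) (.e (nat_lit 630818) (nat_lit 15) (.e (nat_lit 57477) (nat_lit 28) (.e (nat_lit 557103) (nat_lit 14) (.e (nat_lit 180250) (nat_lit 10) (.e (nat_lit 573489) (nat_lit 14) (.e (nat_lit 73755) (nat_lit 8) (.e (nat_lit 557091) (nat_lit 12) .nil)))))))) (.g (nat_lit 8) .nil .nil)))) (.nd (nat_lit 5) 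
(.lf (nat_lit 254865) (.g (nat_lit 3355) (.e (nat_lit 163979) (nat_lit 30) (.e (nat_lit 573493) (nat_lit 15) (.e (nat_lit 81956) (nat_lit 23) (.e (nat_lit 98359) (nat_lit 26) (.e (nat_lit 426407) (nat_lit 15) (.e (nat_lit 2146) (nat_lit 142) (.e (nat_lit 712448) (nat_lit 3) .nil))))))) (.g (nat_lit 6) .nil .nil))) 
(.lf (nat_lit 254897) (.g (nat_lit 2966) (.e (nat_lit 163998) (nat_lit 38) (.e (nat_lit 639017) (nat_lit 15) (.e (nat_lit 57480) (nat_lit 28) (.e (nat_lit 557105) (nat_lit 14) (.e (nat_lit 180250) (nat_lit 10) .nil))))) .nil)))) (.nd (nat_lit 4) (.nd (nat_lit 5) 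
(.lf (nat_lit 254857) (.g (nat_lit 3304) (.e (nat_lit 163979) (nat_lit 30) (.e (nat_lit 573493) (nat_lit 15) (.e (nat_lit 81951) (nat_lit 22) (.e (nat_lit 90170) (nat_lit 13) (.e (nat_lit 172135) (nat_lit 15) (.e (nat_lit 2148) (nat_lit 142) (.e (nat_lit 704588) (nat_lit 3) .nil))))))) (.g (nat_lit 4) .nil .nil))) 
(.lf (nat_lit 254889) (.g (nat_lit 2361) (.e (nat_lit 163998) (nat_lit 38) (.e (nat_lit 639017) (nat_lit 15) (.e (nat_lit 57479) (nat_lit 28) (.e (nat_lit 557103) (nat_lit 14) .nil)))) .nil))) (.nd (nat_lit 5) 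
(.lf (nat_lit 254873) (.g (nat_lit 3900) (.e (nat_lit 163979) (nat_lit 30) (.e (nat_lit 573503) (nat_lit 18) (.e (nat_lit 1349) (nat_lit 102) (.e (nat_lit 286756) (nat_lit 10) (.e (nat_lit 344117) (nat_lit 21) (.e (nat_lit 516159) (nat_lit 10) (.e (nat_lit 434275) (nat_lit 39) (.e (nat_lit 663584) (nat_lit 12) .nil)))))))) (.g (nat_lit 5) .nil .nil))) 
(.lf (nat_lit 254905) (.g (nat_lit 4366) (.e (nat_lit 163998) (nat_lit 38) (.e (nat_lit 639018) (nat_lit 15) (.e (nat_lit 57479) (nat_lit 28) (.e (nat_lit 557105) (nat_lit 14) (.e (nat_lit 180252) (nat_lit 10) (.e (nat_lit 573489) (nat_lit 14) (.e (nat_lit 73754) (nat_lit 8) (.e (nat_lit 557093) (nat_lit 12) .nil)))))))) (.g (nat_lit 7) .nil .nil)))))) 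
(.nd (nat_lit 3) (.nd (nat_lit 4) (.nd (nat_lit 5) 
(.lf (nat_lit 254853) (.g (nat_lit 3358) (.e (nat_lit 163979) (nat_lit 30) (.e (nat_lit 573493) (nat_lit 15) (.e (nat_lit 81951) (nat_lit 22) (.e (nat_lit 90170) (nat_lit 13) (.e (nat_lit 172135) (nat_lit 15) (.e (nat_lit 2143) (nat_lit 142) (.e (nat_lit 712448) (nat_lit 3) .nil))))))) (.g (nat_lit 4) .nil .nil))) 
(.lf (nat_lit 254885) (.g (nat_lit 2586) (.e (nat_lit 163997) (nat_lit 37) (.e (nat_lit 630818) (nat_lit 15) (.e (nat_lit 57479) (nat_lit 28) (.e (nat_lit 557103) (nat_lit 14) (.e (nat_lit 180250) (nat_lit 10) .nil))))) .nil))) (.nd (nat_lit 5) 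
(.lf (nat_lit 254869) (.g (nat_lit 2899) (.e (nat_lit 163979) (nat_lit 30) (.e (nat_lit 573503) (nat_lit 18) (.e (nat_lit 1349) (nat_lit 102) (.e (nat_lit 286748) (nat_lit 9) (.e (nat_lit 336023) (nat_lit 3) (.e (nat_lit 98366) (nat_lit 27) (.e (nat_lit 434275) (nat_lit 39) (.e (nat_lit 663584) (nat_lit 12) .nil)))))))) (.g (nat_lit 4) .nil .nil))) 
(.lf (nat_lit 254901) (.g (nat_lit 2791) (.e (nat_lit 163998) (nat_lit 38) (.e (nat_lit 639018) (nat_lit 15) (.e (nat_lit 57478) (nat_lit 28) (.e (nat_lit 557103) (nat_lit 14) (.e (nat_lit 180251) (nat_lit 10) .nil))))) .nil)))) (.nd (nat_lit 4) (.nd (nat_lit 5) 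
(.lf (nat_lit 254861) (.g (nat_lit 3294) (.e (nat_lit 163979) (nat_lit 30) (.e (nat_lit 573493) (nat_lit 15) (.e (nat_lit 81953) (nat_lit 22) (.e (nat_lit 90170) (nat_lit 13) (.e (nat_lit 172135) (nat_lit 15) (.e (nat_lit 2146) (nat_lit 142) (.e (nat_lit 712448) (nat_lit 3) .nil))))))) (.g (nat_lit 6) .nil .nil))) 
(.lf (nat_lit 254893) (.g (nat_lit 2886) (.e (nat_lit 163998) (nat_lit 38) (.e (nat_lit 639017) (nat_lit 15) (.e (nat_lit 57480) (nat_lit 28) (.e (nat_lit 557103) (nat_lit 14) (.e (nat_lit 180243) (nat_lit 5) .nil))))) .nil))) (.nd (nat_lit 5) 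
(.lf (nat_lit 254877) (.g (nat_lit 4224) (.e (nat_lit 163989) (nat_lit 34) (.e (nat_lit 606226) (nat_lit 4) (.e (nat_lit 65630) (nat_lit 14) (.e (nat_lit 401459) (nat_lit 13) (.e (nat_lit 483344) (nat_lit 17) (.e (nat_lit 6712) (nat_lit 360) .nil)))))) (.g (nat_lit 6) .nil .nil))) 
(.lf (nat_lit 254909) (.g (nat_lit 1118) (.e (nat_lit 163998) (nat_lit 38) (.e (nat_lit 639020) (nat_lit 16) (.e (nat_lit 65627) (nat_lit 13) (.e (nat_lit 393284) (nat_lit 24) .nil)))) .nil)))))) (.nd (nat_lit 2) (.nd (nat_lit 3) (.nd (nat_lit 4) (.nd (nat_lit 5) 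
(.lf (nat_lit 254851) (.g (nat_lit 4219) (.e (nat_lit 163979) (nat_lit 30) (.e (nat_lit 573493) (nat_lit 15) (.e (nat_lit 81951) (nat_lit 22) (.e (nat_lit 90170) (nat_lit 13) (.e (nat_lit 172134) (nat_lit 15) .nil))))) .nil)) 
(.lf (nat_lit 254883) (.g (nat_lit 2412) (.e (nat_lit 163996) (nat_lit 37) (.e (nat_lit 630818) (nat_lit 15) (.e (nat_lit 57479) (nat_lit 28) (.e (nat_lit 557103) (nat_lit 14) (.e (nat_lit 180250) (nat_lit 10) .nil))))) .nil))) (.nd (nat_lit 5) 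
(.lf (nat_lit 254867) (.g (nat_lit 2080) (.e (nat_lit 163979) (nat_lit 30) (.e (nat_lit 573503) (nat_lit 18) (.e (nat_lit 1348) (nat_lit 102) (.e (nat_lit 286749) (nat_lit 9) (.e (nat_lit 336028) (nat_lit 3) .nil))))) .nil)) 
(.lf (nat_lit 254899) (.g (nat_lit 4841) (.e (nat_lit 163998) (nat_lit 38) (.e (nat_lit 639017) (nat_lit 15) (.e (nat_lit 57480) (nat_lit 28) (.e (nat_lit 557105) (nat_lit 14) (.e (nat_lit 180252) (nat_lit 10) (.e (nat_lit 573487) (nat_lit 14) (.e (nat_lit 73753) (nat_lit 8) (.e (nat_lit 557093) (nat_lit 12) .nil)))))))) (.g (nat_lit 7) .nil .nil))))) (.nd (nat_lit 4) (.nd (nat_lit 5) 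
(.lf (nat_lit 254859) (.g (nat_lit 3953) (.e (nat_lit 163979) (nat_lit 30) (.e (nat_lit 573493) (nat_lit 15) (.e (nat_lit 81953) (nat_lit 22) (.e (nat_lit 90170) (nat_lit 13) (.e (nat_lit 172134) (nat_lit 15) (.e (nat_lit 2147) (nat_lit 142) (.e (nat_lit 704588) (nat_lit 3) .nil))))))) (.g (nat_lit 4) .nil .nil))) 
(.lf (nat_lit 254891) (.g (nat_lit 2816) (.e (nat_lit 163998) (nat_lit 38) (.e (nat_lit 639017) (nat_lit 15) (.e (nat_lit 57479) (nat_lit 28) (.e (nat_lit 557105) (nat_lit 14) (.e (nat_lit 180252) (nat_lit 10) .nil))))) .nil))) (.nd (nat_lit 5) 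
(.lf (nat_lit 254875) (.g (nat_lit 5146) (.e (nat_lit 163979) (nat_lit 30) (.e (nat_lit 573503) (nat_lit 18) (.e (nat_lit 1359) (nat_lit 102) (.e (nat_lit 286749) (nat_lit 9) (.e (nat_lit 336028) (nat_lit 3) (.e (nat_lit 98366) (nat_lit 27) (.e (nat_lit 434275) (nat_lit 39) (.e (nat_lit 663584) (nat_lit 12) .nil)))))))) (.g (nat_lit 7) .nil .nil))) 
(.lf (nat_lit 254907) (.g (nat_lit 2269) (.e (nat_lit 163998) (nat_lit 38) (.e (nat_lit 639018) (nat_lit 15) (.e (nat_lit 57480) (nat_lit 28) (.e (nat_lit 557105) (nat_lit 14) (.e (nat_lit 180252) (nat_lit 10) .nil))))) .nil))))) (.nd (nat_lit 3) (.nd (nat_lit 4) (.nd (nat_lit 5) 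
(.lf (nat_lit 254855) (.g (nat_lit 3369) (.e (nat_lit 163979) (nat_lit 30) (.e (nat_lit 573493) (nat_lit 15) (.e (nat_lit 81951) (nat_lit 22) (.e (nat_lit 90170) (nat_lit 13) (.e (nat_lit 172135) (nat_lit 15) (.e (nat_lit 2146) (nat_lit 142) (.e (nat_lit 712448) (nat_lit 3) .nil))))))) (.g (nat_lit 4) .nil .nil))) 
(.lf (nat_lit 254887) (.g (nat_lit 2968) (.e (nat_lit 163997) (nat_lit 37) (.e (nat_lit 630821) (nat_lit 16) (.e (nat_lit 65569) (nat_lit 3) (.e (nat_lit 98359) (nat_lit 26) (.e (nat_lit 426211) (nat_lit 9) (.e (nat_lit 426125) (nat_lit 2) (.e (nat_lit 204544) (nat_lit 3) .nil))))))) (.g (nat_lit 6) .nil .nil)))) (.nd (nat_lit 5) 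
(.lf (nat_lit 254871) (.g (nat_lit 2292) (.e (nat_lit 163979) (nat_lit 30) (.e (nat_lit 573503) (nat_lit 18) (.e (nat_lit 1349) (nat_lit 102) (.e (nat_lit 286749) (nat_lit 9) (.e (nat_lit 336013) (nat_lit 2) .nil))))) .nil)) 
(.lf (nat_lit 254903) (.g (nat_lit 2858) (.e (nat_lit 163998) (nat_lit 38) (.e (nat_lit 639018) (nat_lit 15) (.e (nat_lit 57479) (nat_lit 28) (.e (nat_lit 557103) (nat_lit 14) (.e (nat_lit 180250) (nat_lit 10) .nil))))) .nil)))) (.nd (nat_lit 4) (.nd (nat_lit 5) 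
(.lf (nat_lit 254863) (.g (nat_lit 3247) (.e (nat_lit 163979) (nat_lit 30) (.e (nat_lit 573493) (nat_lit 15) (.e (nat_lit 81954) (nat_lit 23) (.e (nat_lit 98359) (nat_lit 26) (.e (nat_lit 426407) (nat_lit 15) (.e (nat_lit 2143) (nat_lit 142) (.e (nat_lit 712448) (nat_lit 3) .nil))))))) (.g (nat_lit 4) .nil .nil))) 
(.lf (nat_lit 254895) (.g (nat_lit 3072) (.e (nat_lit 163998) (nat_lit 38) (.e (nat_lit 639017) (nat_lit 15) (.e (nat_lit 57480) (nat_lit 28) (.e (nat_lit 557103) (nat_lit 14) (.e (nat_lit 180252) (nat_lit 10) .nil))))) .nil))) (.nd (nat_lit 5) 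
(.lf (nat_lit 254879) (.g (nat_lit 4402) (.e (nat_lit 163990) (nat_lit 34) (.e (nat_lit 606224) (nat_lit 4) (.e (nat_lit 65630) (nat_lit 14) (.e (nat_lit 401459) (nat_lit 13) (.e (nat_lit 483344) (nat_lit 17) (.e (nat_lit 6712) (nat_lit 360) .nil)))))) (.g (nat_lit 0) .nil .nil))) 
(.lf (nat_lit 254911) (.g (nat_lit 2071) (.e (nat_lit 163999) (nat_lit 38) (.e (nat_lit 639017) (nat_lit 15) (.e (nat_lit 57479) (nat_lit 28) (.e (nat_lit 557103) (nat_lit 14) .nil)))) .nil))))))))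

noncomputable def tv3307 : DT := (.nd (nat_lit 0) (.nd (nat_lit 1) (.nd (nat_lit 2) (.nd (nat_lit 3) (.nd (nat_lit 4) (.nd (nat_lit 5) 
(.lf (nat_lit 254912) (.g (nat_lit 3204) (.e (nat_lit 163999) (nat_lit 38) (.e (nat_lit 639017) (nat_lit 15) (.e (nat_lit 57479) (nat_lit 28) (.e (nat_lit 557103) (nat_lit 14) (.e (nat_lit 180251) (nat_lit 10) .nil))))) .nil)) 
(.lf (nat_lit 254944) (.g (nat_lit 2443) (.e (nat_lit 164003) (nat_lit 40) (.e (nat_lit 655380) (nat_lit 6) (.e (nat_lit 188452) (nat_lit 23) (.e (nat_lit 204817) (nat_lit 17) (.e (nat_lit 7936) (nat_lit 153) (.e (nat_lit 794648) (nat_lit 20) (.e (nat_lit 3721) (nat_lit 227) (.e (nat_lit 778474) (nat_lit 12) .nil)))))))) (.g (nat_lit 4) .nil .nil)))) (.nd (nat_lit 5) 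
(.lf (nat_lit 254928) (.g (nat_lit 3296) (.e (nat_lit 164000) (nat_lit 38) (.e (nat_lit 639007) (nat_lit 13) (.e (nat_lit 1551) (nat_lit 109) (.e (nat_lit 344117) (nat_lit 21) (.e (nat_lit 516163) (nat_lit 11) (.e (nat_lit 442424) (nat_lit 22) (.e (nat_lit 204544) (nat_lit 3) .nil))))))) (.g (nat_lit 6) .nil .nil))) 
(.lf (nat_lit 254960) (.g (nat_lit 4832) (.e (nat_lit 164007) (nat_lit 41) (.e (nat_lit 663560) (nat_lit 0) (.e (nat_lit 1255) (nat_lit 92) (.e (nat_lit 98366) (nat_lit 27) (.e (nat_lit 434248) (nat_lit 28) (.e (nat_lit 573489) (nat_lit 14) (.e (nat_lit 73755) (nat_lit 8) (.e (nat_lit 557090) (nat_lit 12) .nil)))))))) (.g (nat_lit 8) .nil .nil))))) (.nd (nat_lit 4) (.nd (nat_lit 5) 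
(.lf (nat_lit 254920) (.g (nat_lit 3787) (.e (nat_lit 163999) (nat_lit 38) (.e (nat_lit 639018) (nat_lit 15) (.e (nat_lit 57479) (nat_lit 28) (.e (nat_lit 557105) (nat_lit 14) (.e (nat_lit 180251) (nat_lit 10) (.e (nat_lit 573489) (nat_lit 14) (.e (nat_lit 73755) (nat_lit 8) (.e (nat_lit 557091) (nat_lit 12) .nil)))))))) (.g (nat_lit 5) .nil .nil))) 
(.lf (nat_lit 254952) (.g (nat_lit 603) (.e (nat_lit 164006) (nat_lit 41) (.e (nat_lit 663574) (nat_lit 9) (.e (nat_lit 248) (nat_lit 21) .nil))) .nil))) (.nd (nat_lit 5) 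
(.lf (nat_lit 254936) (.g (nat_lit 2607) (.e (nat_lit 164000) (nat_lit 38) (.e (nat_lit 639017) (nat_lit 15) (.e (nat_lit 57479) (nat_lit 28) (.e (nat_lit 557105) (nat_lit 14) (.e (nat_lit 180252) (nat_lit 10) .nil))))) .nil)) 
(.lf (nat_lit 254968) (.g (nat_lit 1869) (.e (nat_lit 164007) (nat_lit 41) (.e (nat_lit 663574) (nat_lit 9) (.e (nat_lit 249) (nat_lit 21) (.e (nat_lit 336215) (nat_lit 13) (.e (nat_lit 393282) (nat_lit 24) .nil))))) .nil))))) (.nd (nat_lit 3) (.nd (nat_lit 4) (.nd (nat_lit 5) 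
(.lf (nat_lit 254916) (.g (nat_lit 2055) (.e (nat_lit 163999) (nat_lit 38) (.e (nat_lit 639017) (nat_lit 15) (.e (nat_lit 57480) (nat_lit 28) (.e (nat_lit 557105) (nat_lit 14) (.e (nat_lit 180245) (nat_lit 5) .nil))))) .nil)) 
(.lf (nat_lit 254948) (.g (nat_lit 5707) (.e (nat_lit 164006) (nat_lit 41) (.e (nat_lit 663559) (nat_lit 0) (.e (nat_lit 1234) (nat_lit 91) (.e (nat_lit 90174) (nat_lit 14) (.e (nat_lit 180250) (nat_lit 10) (.e (nat_lit 573489) (nat_lit 14) (.e (nat_lit 73755) (nat_lit 8) (.e (nat_lit 557090) (nat_lit 12) .nil)))))))) (.g (nat_lit 8) .nil .nil)))) (.nd (nat_lit 5) 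
(.lf (nat_lit 254932) (.g (nat_lit 3258) (.e (nat_lit 164000) (nat_lit 38) (.e (nat_lit 639008) (nat_lit 13) (.e (nat_lit 1551) (nat_lit 109) (.e (nat_lit 344117) (nat_lit 21) (.e (nat_lit 516163) (nat_lit 11) (.e (nat_lit 442424) (nat_lit 22) (.e (nat_lit 204544) (nat_lit 3) .nil))))))) (.g (nat_lit 6) .nil .nil))) 
(.lf (nat_lit 254964) (.g (nat_lit 3025) (.e (nat_lit 164007) (nat_lit 41) (.e (nat_lit 663565) (nat_lit 3) (.e (nat_lit 57466) (nat_lit 23) (.e (nat_lit 516171) (nat_lit 13) (.e (nat_lit 458789) (nat_lit 23) (.e (nat_lit 532515) (nat_lit 3) (.e (nat_lit 114716) (nat_lit 22) (.e (nat_lit 90162) (nat_lit 12) .nil)))))))) (.g (nat_lit 7) .nil .nil))))) (.nd (nat_lit 4) (.nd (nat_lit 5) 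
(.lf (nat_lit 254924) (.g (nat_lit 5604) (.e (nat_lit 164000) (nat_lit 38) (.e (nat_lit 639005) (nat_lit 13) (.e (nat_lit 1551) (nat_lit 109) (.e (nat_lit 344117) (nat_lit 21) (.e (nat_lit 516151) (nat_lit 9) (.e (nat_lit 426211) (nat_lit 9) (.e (nat_lit 426125) (nat_lit 2) (.e (nat_lit 204544) (nat_lit 3) .nil)))))))) (.g (nat_lit 6) .nil .nil))) 
(.lf (nat_lit 254956) (.g (nat_lit 1065) (.e (nat_lit 164006) (nat_lit 41) (.e (nat_lit 663580) (nat_lit 9) (.e (nat_lit 284) (nat_lit 21) (.e (nat_lit 336012) (nat_lit 2) .nil)))) .nil))) (.nd (nat_lit 5) 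
(.lf (nat_lit 254940) (.g (nat_lit 2470) (.e (nat_lit 164000) (nat_lit 38) (.e (nat_lit 639021) (nat_lit 16) (.e (nat_lit 65571) (nat_lit 3) (.e (nat_lit 98359) (nat_lit 26) (.e (nat_lit 426211) (nat_lit 9) (.e (nat_lit 426125) (nat_lit 2) (.e (nat_lit 204544) (nat_lit 3) .nil))))))) (.g (nat_lit 4) .nil .nil))) 
(.lf (nat_lit 254972) (.g (nat_lit 2471) (.e (nat_lit 164007) (nat_lit 41) (.e (nat_lit 663580) (nat_lit 9) (.e (nat_lit 284) (nat_lit 21) (.e (nat_lit 336213) (nat_lit 13) (.e (nat_lit 393283) (nat_lit 24) .nil))))) .nil)))))) (.nd (nat_lit 2) (.nd (nat_lit 3) (.nd (nat_lit 4) (.nd (nat_lit 5) 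
(.lf (nat_lit 254914) (.g (nat_lit 1651) (.e (nat_lit 163999) (nat_lit 38) (.e (nat_lit 639017) (nat_lit 15) (.e (nat_lit 57480) (nat_lit 28) (.e (nat_lit 557104) (nat_lit 14) (.e (nat_lit 180252) (nat_lit 10) .nil))))) .nil)) 
(.lf (nat_lit 254946) (.g (nat_lit 2195) (.e (nat_lit 164003) (nat_lit 40) (.e (nat_lit 655380) (nat_lit 6) (.e (nat_lit 188452) (nat_lit 23) (.e (nat_lit 204821) (nat_lit 17) (.e (nat_lit 7936) (nat_lit 155) .nil))))) .nil))) (.nd (nat_lit 5) 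
(.lf (nat_lit 254930) (.g (nat_lit 2431) (.e (nat_lit 164000) (nat_lit 38) (.e (nat_lit 639008) (nat_lit 13) (.e (nat_lit 1535) (nat_lit 109) (.e (nat_lit 344117) (nat_lit 21) (.e (nat_lit 516163) (nat_lit 11) (.e (nat_lit 442424) (nat_lit 22) (.e (nat_lit 204544) (nat_lit 3) .nil))))))) (.g (nat_lit 5) .nil .nil))) 
(.lf (nat_lit 254962) (.g (nat_lit 4592) (.e (nat_lit 164007) (nat_lit 41) (.e (nat_lit 663565) (nat_lit 3) (.e (nat_lit 57466) (nat_lit 23) (.e (nat_lit 516146) (nat_lit 9) (.e (nat_lit 426131) (nat_lit 3) (.e (nat_lit 204838) (nat_lit 20) (.e (nat_lit 114716) (nat_lit 22) (.e (nat_lit 90162) (nat_lit 12) .nil)))))))) (.g (nat_lit 7) .nil .nil))))) (.nd (nat_lit 4) (.nd (nat_lit 5) 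
(.lf (nat_lit 254922) (.g (nat_lit 444) (.e (nat_lit 163999) (nat_lit 38) (.e (nat_lit 639020) (nat_lit 16) (.e (nat_lit 65580) (nat_lit 6) .nil))) .nil)) 
(.lf (nat_lit 254954) (.g (nat_lit 2179) (.e (nat_lit 164006) (nat_lit 41) (.e (nat_lit 663580) (nat_lit 9) (.e (nat_lit 247) (nat_lit 21) (.e (nat_lit 336004) (nat_lit 2) (.e (nat_lit 90176) (nat_lit 15) (.e (nat_lit 188456) (nat_lit 25) (.e (nat_lit 245773) (nat_lit 3) .nil))))))) (.g (nat_lit 5) .nil .nil)))) (.nd (nat_lit 5) 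
(.lf (nat_lit 254938) (.g (nat_lit 2024) (.e (nat_lit 164000) (nat_lit 38) (.e (nat_lit 639018) (nat_lit 15) (.e (nat_lit 57479) (nat_lit 28) (.e (nat_lit 557103) (nat_lit 14) .nil)))) .nil)) 
(.lf (nat_lit 254970) (.g (nat_lit 2145) (.e (nat_lit 164007) (nat_lit 41) (.e (nat_lit 663580) (nat_lit 9) (.e (nat_lit 284) (nat_lit 21) (.e (nat_lit 336076) (nat_lit 9) (.e (nat_lit 336434) (nat_lit 30) .nil))))) .nil))))) (.nd (nat_lit 3) (.nd (nat_lit 4) (.nd (nat_lit 5) 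
(.lf (nat_lit 254918) (.g (nat_lit 5407) (.e (nat_lit 163999) (nat_lit 38) (.e (nat_lit 639017) (nat_lit 15) (.e (nat_lit 57480) (nat_lit 28) (.e (nat_lit 557105) (nat_lit 14) (.e (nat_lit 180252) (nat_lit 10) (.e (nat_lit 573487) (nat_lit 14) (.e (nat_lit 73753) (nat_lit 8) (.e (nat_lit 557089) (nat_lit 12) .nil)))))))) (.g (nat_lit 0) .nil .nil))) 
(.lf (nat_lit 254950) (.g (nat_lit 3207) (.e (nat_lit 164006) (nat_lit 41) (.e (nat_lit 663565) (nat_lit 3) (.e (nat_lit 57466) (nat_lit 23) (.e (nat_lit 516169) (nat_lit 13) (.e (nat_lit 458789) (nat_lit 23) (.e (nat_lit 532515) (nat_lit 3) (.e (nat_lit 114716) (nat_lit 22) (.e (nat_lit 90164) (nat_lit 12) .nil)))))))) (.g (nat_lit 7) .nil .nil)))) (.nd (nat_lit 5) 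
(.lf (nat_lit 254934) (.g (nat_lit 3423) (.e (nat_lit 164000) (nat_lit 38) (.e (nat_lit 639017) (nat_lit 15) (.e (nat_lit 57479) (nat_lit 28) (.e (nat_lit 557103) (nat_lit 14) (.e (nat_lit 180251) (nat_lit 10) .nil))))) .nil)) 
(.lf (nat_lit 254966) (.g (nat_lit 2130) (.e (nat_lit 164007) (nat_lit 41) (.e (nat_lit 663569) (nat_lit 6) (.e (nat_lit 81952) (nat_lit 22) (.e (nat_lit 90160) (nat_lit 11) (.e (nat_lit 24584) (nat_lit 0) .nil))))) .nil)))) (.nd (nat_lit 4) (.nd (nat_lit 5) 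
(.lf (nat_lit 254926) (.g (nat_lit 2416) (.e (nat_lit 164000) (nat_lit 38) (.e (nat_lit 639007) (nat_lit 13) (.e (nat_lit 1535) (nat_lit 109) (.e (nat_lit 344117) (nat_lit 21) (.e (nat_lit 516163) (nat_lit 11) (.e (nat_lit 442424) (nat_lit 22) (.e (nat_lit 204544) (nat_lit 3) .nil))))))) (.g (nat_lit 5) .nil .nil))) 
(.lf (nat_lit 254958) (.g (nat_lit 319) (.e (nat_lit 164006) (nat_lit 41) (.e (nat_lit 663580) (nat_lit 9) (.e (nat_lit 7936) (nat_lit 28) .nil))) .nil))) (.nd (nat_lit 5) 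
(.lf (nat_lit 254942) (.g (nat_lit 408) (.e (nat_lit 164002) (nat_lit 40) (.e (nat_lit 655375) (nat_lit 3) (.e (nat_lit 164057) (nat_lit 56) .nil))) .nil)) 
(.lf (nat_lit 254974) (.g (nat_lit 2200) (.e (nat_lit 164007) (nat_lit 41) (.e (nat_lit 663580) (nat_lit 9) (.e (nat_lit 284) (nat_lit 21) (.e (nat_lit 336215) (nat_lit 13) (.e (nat_lit 393282) (nat_lit 24) .nil))))) .nil))))))) (.nd (nat_lit 1) (.nd (nat_lit 2) (.nd (nat_lit 3) (.nd (nat_lit 4) (.nd (nat_lit 5) 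
(.lf (nat_lit 254913) (.g (nat_lit 2257) (.e (nat_lit 163999) (nat_lit 38) (.e (nat_lit 639017) (nat_lit 15) (.e (nat_lit 57480) (nat_lit 28) (.e (nat_lit 557104) (nat_lit 14) (.e (nat_lit 180245) (nat_lit 5) (.e (nat_lit 532515) (nat_lit 3) (.e (nat_lit 114716) (nat_lit 22) (.e (nat_lit 90164) (nat_lit 12) .nil)))))))) (.g (nat_lit 4) .nil .nil))) 
(.lf (nat_lit 254945) (.g (nat_lit 1445) (.e (nat_lit 164003) (nat_lit 40) (.e (nat_lit 655380) (nat_lit 6) (.e (nat_lit 188452) (nat_lit 23) (.e (nat_lit 204821) (nat_lit 17) .nil)))) .nil))) (.nd (nat_lit 5) 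
(.lf (nat_lit 254929) (.g (nat_lit 6557) (.e (nat_lit 164000) (nat_lit 38) (.e (nat_lit 639008) (nat_lit 13) (.e (nat_lit 1535) (nat_lit 109) (.e (nat_lit 344117) (nat_lit 21) (.e (nat_lit 516151) (nat_lit 9) (.e (nat_lit 426211) (nat_lit 9) (.e (nat_lit 426125) (nat_lit 2) (.e (nat_lit 204544) (nat_lit 3) .nil)))))))) (.g (nat_lit 7) .nil .nil))) 
(.lf (nat_lit 254961) (.g (nat_lit 4793) (.e (nat_lit 164007) (nat_lit 41) (.e (nat_lit 663560) (nat_lit 0) (.e (nat_lit 1255) (nat_lit 92) (.e (nat_lit 98367) (nat_lit 27) (.e (nat_lit 434248) (nat_lit 28) (.e (nat_lit 573489) (nat_lit 14) (.e (nat_lit 73755) (nat_lit 8) (.e (nat_lit 557090) (nat_lit 12) .nil)))))))) (.g (nat_lit 8) .nil .nil))))) (.nd (nat_lit 4) (.nd (nat_lit 5) 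
(.lf (nat_lit 254921) (.g (nat_lit 427) (.e (nat_lit 163999) (nat_lit 38) (.e (nat_lit 639020) (nat_lit 16) (.e (nat_lit 65574) (nat_lit 4) .nil))) .nil)) 
(.lf (nat_lit 254953) (.g (nat_lit 348) (.e (nat_lit 164006) (nat_lit 41) (.e (nat_lit 663574) (nat_lit 9) (.e (nat_lit 7936) (nat_lit 28) .nil))) .nil))) (.nd (nat_lit 5) 
(.lf (nat_lit 254937) (.g (nat_lit 1884) (.e (nat_lit 164000) (nat_lit 38) (.e (nat_lit 639017) (nat_lit 15) (.e (nat_lit 57480) (nat_lit 28) (.e (nat_lit 557103) (nat_lit 14) (.e (nat_lit 180250) (nat_lit 10) .nil))))) .nil)) 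
(.lf (nat_lit 254969) (.g (nat_lit 1028) (.e (nat_lit 164007) (nat_lit 41) (.e (nat_lit 663580) (nat_lit 9) (.e (nat_lit 284) (nat_lit 21) (.e (nat_lit 336049) (nat_lit 6) .nil)))) .nil))))) (.nd (nat_lit 3) (.nd (nat_lit 4) (.nd (nat_lit 5) 
(.lf (nat_lit 254917) (.g (nat_lit 4037) (.e (nat_lit 163999) (nat_lit 38) (.e (nat_lit 639017) (nat_lit 15) (.e (nat_lit 57480) (nat_lit 28) (.e (nat_lit 557105) (nat_lit 14) (.e (nat_lit 180251) (nat_lit 10) (.e (nat_lit 573487) (nat_lit 14) (.e (nat_lit 73753) (nat_lit 8) (.e (nat_lit 557091) (nat_lit 12) .nil)))))))) (.g (nat_lit 5) .nil .nil))) 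
(.lf (nat_lit 254949) (.g (nat_lit 4891) (.e (nat_lit 164006) (nat_lit 41) (.e (nat_lit 663565) (nat_lit 3) (.e (nat_lit 57466) (nat_lit 23) (.e (nat_lit 516146) (nat_lit 9) (.e (nat_lit 426131) (nat_lit 3) (.e (nat_lit 204838) (nat_lit 20) (.e (nat_lit 114716) (nat_lit 22) (.e (nat_lit 90164) (nat_lit 12) .nil)))))))) (.g (nat_lit 7) .nil .nil)))) (.nd (nat_lit 5) 
(.lf (nat_lit 254933) (.g (nat_lit 2290) (.e (nat_lit 164000) (nat_lit 38) (.e (nat_lit 639017) (nat_lit 15) (.e (nat_lit 57479) (nat_lit 28) (.e (nat_lit 557103) (nat_lit 14) .nil)))) .nil)) 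
(.lf (nat_lit 254965) (.g (nat_lit 1714) (.e (nat_lit 164007) (nat_lit 41) (.e (nat_lit 663569) (nat_lit 6) (.e (nat_lit 81951) (nat_lit 22) (.e (nat_lit 90160) (nat_lit 11) .nil)))) .nil)))) (.nd (nat_lit 4) (.nd (nat_lit 5) 
(.lf (nat_lit 254925) (.g (nat_lit 6539) (.e (nat_lit 164000) (nat_lit 38) (.e (nat_lit 639007) (nat_lit 13) (.e (nat_lit 1535) (nat_lit 109) (.e (nat_lit 344117) (nat_lit 21) (.e (nat_lit 516151) (nat_lit 9) (.e (nat_lit 426211) (nat_lit 9) (.e (nat_lit 426125) (nat_lit 2) (.e (nat_lit 204544) (nat_lit 3) .nil)))))))) (.g (nat_lit 7) .nil .nil))) 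
(.lf (nat_lit 254957) (.g (nat_lit 2216) (.e (nat_lit 164006) (nat_lit 41) (.e (nat_lit 663580) (nat_lit 9) (.e (nat_lit 284) (nat_lit 21) (.e (nat_lit 336215) (nat_lit 13) (.e (nat_lit 393283) (nat_lit 24) .nil))))) .nil))) (.nd (nat_lit 5) 
(.lf (nat_lit 254941) (.g (nat_lit 3111) (.e (nat_lit 171776) (nat_lit 38) (.e (nat_lit 639017) (nat_lit 15) (.e (nat_lit 57479) (nat_lit 28) (.e (nat_lit 557105) (nat_lit 14) (.e (nat_lit 180252) (nat_lit 10) .nil))))) .nil)) 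
(.lf (nat_lit 254973) (.g (nat_lit 2556) (.e (nat_lit 164007) (nat_lit 41) (.e (nat_lit 663580) (nat_lit 9) (.e (nat_lit 284) (nat_lit 21) (.e (nat_lit 336213) (nat_lit 13) (.e (nat_lit 393284) (nat_lit 24) .nil))))) .nil)))))) (.nd (nat_lit 2) (.nd (nat_lit 3) (.nd (nat_lit 4) (.nd (nat_lit 5) 
(.lf (nat_lit 254915) (.g (nat_lit 946) (.e (nat_lit 163999) (nat_lit 38) (.e (nat_lit 639017) (nat_lit 15) (.e (nat_lit 57480) (nat_lit 28) (.e (nat_lit 557105) (nat_lit 14) .nil)))) .nil)) 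
(.lf (nat_lit 254947) (.g (nat_lit 1908) (.e (nat_lit 164003) (nat_lit 40) (.e (nat_lit 655380) (nat_lit 6) (.e (nat_lit 188452) (nat_lit 23) (.e (nat_lit 204842) (nat_lit 22) .nil)))) .nil))) (.nd (nat_lit 5) 
(.lf (nat_lit 254931) (.g (nat_lit 5952) (.e (nat_lit 164000) (nat_lit 38) (.e (nat_lit 639008) (nat_lit 13) (.e (nat_lit 1551) (nat_lit 109) (.e (nat_lit 344117) (nat_lit 21) (.e (nat_lit 516151) (nat_lit 9) (.e (nat_lit 426211) (nat_lit 9) (.e (nat_lit 426125) (nat_lit 2) (.e (nat_lit 204544) (nat_lit 3) .nil)))))))) (.g (nat_lit 7) .nil .nil))) 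
(.lf (nat_lit 254963) (.g (nat_lit 3217) (.e (nat_lit 164007) (nat_lit 41) (.e (nat_lit 663565) (nat_lit 3) (.e (nat_lit 57466) (nat_lit 23) (.e (nat_lit 516169) (nat_lit 13) (.e (nat_lit 458789) (nat_lit 23) (.e (nat_lit 532515) (nat_lit 3) (.e (nat_lit 114716) (nat_lit 22) (.e (nat_lit 90162) (nat_lit 12) .nil)))))))) (.g (nat_lit 7) .nil .nil))))) (.nd (nat_lit 4) (.nd (nat_lit 5) 
(.lf (nat_lit 254923) (.g (nat_lit 439) (.e (nat_lit 164000) (nat_lit 38) (.e (nat_lit 638998) (nat_lit 8) (.e (nat_lit 172123) (nat_lit 13) .nil))) .nil)) 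
(.lf (nat_lit 254955) (.g (nat_lit 424) (.e (nat_lit 164006) (nat_lit 41) (.e (nat_lit 663580) (nat_lit 9) (.e (nat_lit 284) (nat_lit 21) .nil))) .nil))) (.nd (nat_lit 5) 
(.lf (nat_lit 254939) (.g (nat_lit 448) (.e (nat_lit 164000) (nat_lit 38) (.e (nat_lit 639020) (nat_lit 16) (.e (nat_lit 65580) (nat_lit 6) .nil))) .nil)) 
(.lf (nat_lit 254971) (.g (nat_lit 1963) (.e (nat_lit 164007) (nat_lit 41) (.e (nat_lit 663580) (nat_lit 9) (.e (nat_lit 284) (nat_lit 21) (.e (nat_lit 336078) (nat_lit 9) (.e (nat_lit 336434) (nat_lit 30) .nil))))) .nil))))) (.nd (nat_lit 3) (.nd (nat_lit 4) (.nd (nat_lit 5) 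
(.lf (nat_lit 254919) (.g (nat_lit 3282) (.e (nat_lit 163999) (nat_lit 38) (.e (nat_lit 639018) (nat_lit 15) (.e (nat_lit 57479) (nat_lit 28) (.e (nat_lit 557103) (nat_lit 14) (.e (nat_lit 180250) (nat_lit 10) (.e (nat_lit 573489) (nat_lit 14) (.e (nat_lit 73755) (nat_lit 8) (.e (nat_lit 557089) (nat_lit 12) .nil)))))))) (.g (nat_lit 4) .nil .nil))) 
(.lf (nat_lit 254951) (.g (nat_lit 1748) (.e (nat_lit 164006) (nat_lit 41) (.e (nat_lit 663574) (nat_lit 9) (.e (nat_lit 247) (nat_lit 21) (.e (nat_lit 336004) (nat_lit 2) (.e (nat_lit 90176) (nat_lit 15) (.e (nat_lit 188456) (nat_lit 25) (.e (nat_lit 245773) (nat_lit 3) .nil))))))) (.g (nat_lit 4) .nil .nil)))) (.nd (nat_lit 5) 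
(.lf (nat_lit 254935) (.g (nat_lit 3416) (.e (nat_lit 164000) (nat_lit 38) (.e (nat_lit 639017) (nat_lit 15) (.e (nat_lit 57479) (nat_lit 28) (.e (nat_lit 557105) (nat_lit 14) (.e (nat_lit 180251) (nat_lit 10) (.e (nat_lit 573489) (nat_lit 14) (.e (nat_lit 73755) (nat_lit 8) (.e (nat_lit 557089) (nat_lit 12) .nil)))))))) (.g (nat_lit 4) .nil .nil))) 
(.lf (nat_lit 254967) (.g (nat_lit 4427) (.e (nat_lit 164007) (nat_lit 41) (.e (nat_lit 663569) (nat_lit 6) (.e (nat_lit 81953) (nat_lit 22) (.e (nat_lit 90160) (nat_lit 11) (.e (nat_lit 24584) (nat_lit 0) .nil))))) .nil)))) (.nd (nat_lit 4) (.nd (nat_lit 5) 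
(.lf (nat_lit 254927) (.g (nat_lit 5989) (.e (nat_lit 164000) (nat_lit 38) (.e (nat_lit 639007) (nat_lit 13) (.e (nat_lit 1551) (nat_lit 109) (.e (nat_lit 344117) (nat_lit 21) (.e (nat_lit 516151) (nat_lit 9) (.e (nat_lit 426211) (nat_lit 9) (.e (nat_lit 426125) (nat_lit 2) (.e (nat_lit 204544) (nat_lit 3) .nil)))))))) (.g (nat_lit 7) .nil .nil))) 
(.lf (nat_lit 254959) (.g (nat_lit 2204) (.e (nat_lit 164006) (nat_lit 41) (.e (nat_lit 663585) (nat_lit 12) (.e (nat_lit 164022) (nat_lit 46) (.e (nat_lit 704728) (nat_lit 10) .nil)))) .nil))) (.nd (nat_lit 5) 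
(.lf (nat_lit 254943) (.g (nat_lit 2536) (.e (nat_lit 164003) (nat_lit 40) (.e (nat_lit 655380) (nat_lit 6) (.e (nat_lit 188452) (nat_lit 23) (.e (nat_lit 204816) (nat_lit 17) .nil)))) .nil)) 
(.lf (nat_lit 254975) (.g (nat_lit 2172) (.e (nat_lit 164007) (nat_lit 41) (.e (nat_lit 663580) (nat_lit 9) (.e (nat_lit 284) (nat_lit 21) (.e (nat_lit 336215) (nat_lit 13) (.e (nat_lit 393283) (nat_lit 24) .nil))))) .nil))))))))

noncomputable def tv3308 : DT := (.nd (nat_lit 0) (.nd (nat_lit 1) (.nd (nat_lit 2) (.nd (nat_lit 3) (.nd (nat_lit 4) (.nd (nat_lit 5) 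
(.lf (nat_lit 254976) (.g (nat_lit 1430) (.e (nat_lit 164007) (nat_lit 41) (.e (nat_lit 663583) (nat_lit 11) (.e (nat_lit 24584) (nat_lit 0) (.e (nat_lit 2355) (nat_lit 152) .nil)))) .nil)) 
(.lf (nat_lit 255008) (.g (nat_lit 2317) (.e (nat_lit 164017) (nat_lit 44) (.e (nat_lit 688177) (nat_lit 16) (.e (nat_lit 65626) (nat_lit 13) (.e (nat_lit 393260) (nat_lit 21) (.e (nat_lit 409616) (nat_lit 10) .nil))))) .nil))) (.nd (nat_lit 5) 
(.lf (nat_lit 254992) (.g (nat_lit 2378) (.e (nat_lit 164017) (nat_lit 44) (.e (nat_lit 688170) (nat_lit 15) (.e (nat_lit 57479) (nat_lit 28) (.e (nat_lit 557103) (nat_lit 14) (.e (nat_lit 180250) (nat_lit 10) .nil))))) .nil)) 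
(.lf (nat_lit 255024) (.g (nat_lit 1988) (.e (nat_lit 164018) (nat_lit 45) (.e (nat_lit 696344) (nat_lit 8) (.e (nat_lit 172064) (nat_lit 2) (.e (nat_lit 196666) (nat_lit 13) (.e (nat_lit 65617) (nat_lit 10) .nil))))) .nil)))) (.nd (nat_lit 4) (.nd (nat_lit 5) 
(.lf (nat_lit 254984) (.g (nat_lit 2165) (.e (nat_lit 164016) (nat_lit 44) (.e (nat_lit 688177) (nat_lit 16) (.e (nat_lit 65586) (nat_lit 7) (.e (nat_lit 319534) (nat_lit 16) (.e (nat_lit 286756) (nat_lit 10) .nil))))) .nil)) 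
(.lf (nat_lit 255016) (.g (nat_lit 1349) (.e (nat_lit 164017) (nat_lit 44) (.e (nat_lit 688178) (nat_lit 16) (.e (nat_lit 65627) (nat_lit 13) (.e (nat_lit 393263) (nat_lit 22) (.e (nat_lit 417815) (nat_lit 10) .nil))))) .nil))) (.nd (nat_lit 5) 
(.lf (nat_lit 255000) (.g (nat_lit 2146) (.e (nat_lit 164017) (nat_lit 44) (.e (nat_lit 688177) (nat_lit 16) (.e (nat_lit 65571) (nat_lit 3) (.e (nat_lit 98359) (nat_lit 26) (.e (nat_lit 426286) (nat_lit 10) .nil))))) .nil)) 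
(.lf (nat_lit 255032) (.g (nat_lit 5116) (.e (nat_lit 164020) (nat_lit 45) (.e (nat_lit 696343) (nat_lit 8) (.e (nat_lit 172064) (nat_lit 2) (.e (nat_lit 196666) (nat_lit 13) (.e (nat_lit 65617) (nat_lit 10) (.e (nat_lit 344130) (nat_lit 26) (.e (nat_lit 557090) (nat_lit 12) .nil))))))) (.g (nat_lit 0) .nil .nil)))))) (.nd (nat_lit 3) (.nd (nat_lit 4) (.nd (nat_lit 5) 
(.lf (nat_lit 254980) (.g (nat_lit 2175) (.e (nat_lit 164009) (nat_lit 41) (.e (nat_lit 663576) (nat_lit 9) (.e (nat_lit 250) (nat_lit 21) (.e (nat_lit 336027) (nat_lit 3) (.e (nat_lit 98373) (nat_lit 29) (.e (nat_lit 458496) (nat_lit 1) (.e (nat_lit 499910) (nat_lit 8) .nil))))))) (.g (nat_lit 5) .nil .nil))) 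
(.lf (nat_lit 255012) (.g (nat_lit 2318) (.e (nat_lit 164017) (nat_lit 44) (.e (nat_lit 688178) (nat_lit 16) (.e (nat_lit 65619) (nat_lit 10) (.e (nat_lit 344097) (nat_lit 18) (.e (nat_lit 7147) (nat_lit 382) (.e (nat_lit 1207) (nat_lit 89) (.e (nat_lit 81664) (nat_lit 35) .nil))))))) (.g (nat_lit 5) .nil .nil)))) (.nd (nat_lit 5) 
(.lf (nat_lit 254996) (.g (nat_lit 2918) (.e (nat_lit 164017) (nat_lit 44) (.e (nat_lit 688176) (nat_lit 16) (.e (nat_lit 65626) (nat_lit 13) (.e (nat_lit 393260) (nat_lit 21) (.e (nat_lit 409616) (nat_lit 10) (.e (nat_lit 5763) (nat_lit 315) .nil)))))) (.g (nat_lit 5) .nil .nil))) 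
(.lf (nat_lit 255028) (.g (nat_lit 1854) (.e (nat_lit 164019) (nat_lit 45) (.e (nat_lit 696348) (nat_lit 12) (.e (nat_lit 237589) (nat_lit 2) (.e (nat_lit 196666) (nat_lit 13) (.e (nat_lit 65617) (nat_lit 10) .nil))))) .nil)))) (.nd (nat_lit 4) (.nd (nat_lit 5) 
(.lf (nat_lit 254988) (.g (nat_lit 1495) (.e (nat_lit 164016) (nat_lit 44) (.e (nat_lit 688178) (nat_lit 16) (.e (nat_lit 65625) (nat_lit 13) (.e (nat_lit 393265) (nat_lit 22) (.e (nat_lit 417820) (nat_lit 10) .nil))))) .nil)) 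
(.lf (nat_lit 255020) (.g (nat_lit 1874) (.e (nat_lit 164017) (nat_lit 44) (.e (nat_lit 688183) (nat_lit 18) (.e (nat_lit 81950) (nat_lit 21) (.e (nat_lit 57655) (nat_lit 152) (.e (nat_lit 1206) (nat_lit 89) (.e (nat_lit 81664) (nat_lit 35) .nil)))))) (.g (nat_lit 5) .nil .nil)))) (.nd (nat_lit 5) 
(.lf (nat_lit 255004) (.g (nat_lit 1899) (.e (nat_lit 164017) (nat_lit 44) (.e (nat_lit 688177) (nat_lit 16) (.e (nat_lit 65625) (nat_lit 13) (.e (nat_lit 393260) (nat_lit 21) (.e (nat_lit 409615) (nat_lit 10) .nil))))) .nil)) 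
(.lf (nat_lit 255036) (.g (nat_lit 1650) (.e (nat_lit 164020) (nat_lit 45) (.e (nat_lit 696343) (nat_lit 8) (.e (nat_lit 172082) (nat_lit 7) (.e (nat_lit 409646) (nat_lit 18) (.e (nat_lit 303133) (nat_lit 9) .nil))))) .nil)))))) (.nd (nat_lit 2) (.nd (nat_lit 3) (.nd (nat_lit 4) (.nd (nat_lit 5) 
(.lf (nat_lit 254978) (.g (nat_lit 1903) (.e (nat_lit 164008) (nat_lit 41) (.e (nat_lit 663583) (nat_lit 11) (.e (nat_lit 24580) (nat_lit 0) (.e (nat_lit 2356) (nat_lit 152) (.e (nat_lit 786481) (nat_lit 30) (.e (nat_lit 360473) (nat_lit 8) (.e (nat_lit 557093) (nat_lit 12) .nil))))))) (.g (nat_lit 4) .nil .nil))) 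
(.lf (nat_lit 255010) (.g (nat_lit 2708) (.e (nat_lit 164017) (nat_lit 44) (.e (nat_lit 688177) (nat_lit 16) (.e (nat_lit 65627) (nat_lit 13) (.e (nat_lit 393265) (nat_lit 22) (.e (nat_lit 417820) (nat_lit 10) (.e (nat_lit 5761) (nat_lit 315) .nil)))))) (.g (nat_lit 6) .nil .nil)))) (.nd (nat_lit 5) 
(.lf (nat_lit 254994) (.g (nat_lit 3062) (.e (nat_lit 164017) (nat_lit 44) (.e (nat_lit 688170) (nat_lit 15) (.e (nat_lit 57480) (nat_lit 28) (.e (nat_lit 557105) (nat_lit 14) (.e (nat_lit 180252) (nat_lit 10) (.e (nat_lit 573481) (nat_lit 13) (.e (nat_lit 65567) (nat_lit 2) (.e (nat_lit 90164) (nat_lit 12) .nil)))))))) (.g (nat_lit 5) .nil .nil))) 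
(.lf (nat_lit 255026) (.g (nat_lit 1973) (.e (nat_lit 164018) (nat_lit 45) (.e (nat_lit 696348) (nat_lit 12) (.e (nat_lit 237589) (nat_lit 2) (.e (nat_lit 196666) (nat_lit 13) (.e (nat_lit 65617) (nat_lit 10) .nil))))) .nil)))) (.nd (nat_lit 4) (.nd (nat_lit 5) 
(.lf (nat_lit 254986) (.g (nat_lit 520) (.e (nat_lit 164016) (nat_lit 44) (.e (nat_lit 688177) (nat_lit 16) (.e (nat_lit 65627) (nat_lit 13) .nil))) .nil)) 
(.lf (nat_lit 255018) (.g (nat_lit 1969) (.e (nat_lit 164017) (nat_lit 44) (.e (nat_lit 688178) (nat_lit 16) (.e (nat_lit 65627) (nat_lit 13) (.e (nat_lit 393265) (nat_lit 22) (.e (nat_lit 417820) (nat_lit 10) (.e (nat_lit 5756) (nat_lit 315) .nil)))))) (.g (nat_lit 4) .nil .nil)))) (.nd (nat_lit 5) 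
(.lf (nat_lit 255002) (.g (nat_lit 2124) (.e (nat_lit 164017) (nat_lit 44) (.e (nat_lit 688177) (nat_lit 16) (.e (nat_lit 65610) (nat_lit 10) (.e (nat_lit 344097) (nat_lit 18) (.e (nat_lit 7147) (nat_lit 382) .nil))))) .nil)) 
(.lf (nat_lit 255034) (.g (nat_lit 1447) (.e (nat_lit 164020) (nat_lit 45) (.e (nat_lit 696343) (nat_lit 8) (.e (nat_lit 172067) (nat_lit 3) (.e (nat_lit 212736) (nat_lit 29) .nil)))) .nil))))) (.nd (nat_lit 3) (.nd (nat_lit 4) (.nd (nat_lit 5) 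
(.lf (nat_lit 254982) (.g (nat_lit 1222) (.e (nat_lit 164016) (nat_lit 44) (.e (nat_lit 688176) (nat_lit 16) (.e (nat_lit 65627) (nat_lit 13) (.e (nat_lit 393265) (nat_lit 22) (.e (nat_lit 417820) (nat_lit 10) (.e (nat_lit 5761) (nat_lit 315) .nil)))))) (.g (nat_lit 4) .nil .nil))) 
(.lf (nat_lit 255014) (.g (nat_lit 3343) (.e (nat_lit 164017) (nat_lit 44) (.e (nat_lit 688178) (nat_lit 16) (.e (nat_lit 65626) (nat_lit 13) (.e (nat_lit 393260) (nat_lit 21) (.e (nat_lit 409617) (nat_lit 10) (.e (nat_lit 7936) (nat_lit 315) .nil)))))) (.g (nat_lit 5) .nil .nil)))) (.nd (nat_lit 5) 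
(.lf (nat_lit 254998) (.g (nat_lit 2412) (.e (nat_lit 164017) (nat_lit 44) (.e (nat_lit 688177) (nat_lit 16) (.e (nat_lit 65566) (nat_lit 2) (.e (nat_lit 90170) (nat_lit 13) (.e (nat_lit 172113) (nat_lit 10) (.e (nat_lit 434248) (nat_lit 28) (.e (nat_lit 581376) (nat_lit 3) .nil))))))) (.g (nat_lit 4) .nil .nil))) 
(.lf (nat_lit 255030) (.g (nat_lit 2540) (.e (nat_lit 164020) (nat_lit 45) (.e (nat_lit 696343) (nat_lit 8) (.e (nat_lit 172064) (nat_lit 2) (.e (nat_lit 196666) (nat_lit 13) (.e (nat_lit 65617) (nat_lit 10) (.e (nat_lit 344127) (nat_lit 26) (.e (nat_lit 557088) (nat_lit 12) .nil))))))) (.g (nat_lit 5) .nil .nil))))) (.nd (nat_lit 4) (.nd (nat_lit 5) 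
(.lf (nat_lit 254990) (.g (nat_lit 4289) (.e (nat_lit 164017) (nat_lit 44) (.e (nat_lit 688169) (nat_lit 15) (.e (nat_lit 57479) (nat_lit 28) (.e (nat_lit 557105) (nat_lit 14) (.e (nat_lit 180252) (nat_lit 10) (.e (nat_lit 573482) (nat_lit 13) (.e (nat_lit 65567) (nat_lit 2) (.e (nat_lit 90164) (nat_lit 12) .nil)))))))) (.g (nat_lit 6) .nil .nil))) 
(.lf (nat_lit 255022) (.g (nat_lit 2615) (.e (nat_lit 164017) (nat_lit 44) (.e (nat_lit 688187) (nat_lit 19) (.e (nat_lit 122936) (nat_lit 23) (.e (nat_lit 516131) (nat_lit 3) (.e (nat_lit 221212) (nat_lit 22) (.e (nat_lit 196681) (nat_lit 17) (.e (nat_lit 131093) (nat_lit 2) (.e (nat_lit 90164) (nat_lit 12) .nil)))))))) (.g (nat_lit 6) .nil .nil)))) (.nd (nat_lit 5) 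
(.lf (nat_lit 255006) (.g (nat_lit 2563) (.e (nat_lit 164017) (nat_lit 44) (.e (nat_lit 688177) (nat_lit 16) (.e (nat_lit 65625) (nat_lit 13) (.e (nat_lit 393260) (nat_lit 21) (.e (nat_lit 409616) (nat_lit 10) (.e (nat_lit 7936) (nat_lit 315) .nil)))))) (.g (nat_lit 4) .nil .nil))) 
(.lf (nat_lit 255038) (.g (nat_lit 1621) (.e (nat_lit 164020) (nat_lit 45) (.e (nat_lit 696344) (nat_lit 8) (.e (nat_lit 172062) (nat_lit 2) (.e (nat_lit 196624) (nat_lit 9) (.e (nat_lit 7936) (nat_lit 111) .nil))))) .nil))))))) (.nd (nat_lit 1) (.nd (nat_lit 2) (.nd (nat_lit 3) (.nd (nat_lit 4) (.nd (nat_lit 5) 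
(.lf (nat_lit 254977) (.g (nat_lit 2203) (.e (nat_lit 164007) (nat_lit 41) (.e (nat_lit 663585) (nat_lit 12) (.e (nat_lit 164022) (nat_lit 46) (.e (nat_lit 704728) (nat_lit 10) .nil)))) .nil)) 
(.lf (nat_lit 255009) (.g (nat_lit 2695) (.e (nat_lit 164017) (nat_lit 44) (.e (nat_lit 688177) (nat_lit 16) (.e (nat_lit 65627) (nat_lit 13) (.e (nat_lit 393265) (nat_lit 22) (.e (nat_lit 417820) (nat_lit 10) (.e (nat_lit 5756) (nat_lit 315) .nil)))))) (.g (nat_lit 5) .nil .nil)))) (.nd (nat_lit 5) 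
(.lf (nat_lit 254993) (.g (nat_lit 3105) (.e (nat_lit 164017) (nat_lit 44) (.e (nat_lit 688170) (nat_lit 15) (.e (nat_lit 57479) (nat_lit 28) (.e (nat_lit 557105) (nat_lit 14) (.e (nat_lit 180251) (nat_lit 10) (.e (nat_lit 573485) (nat_lit 13) (.e (nat_lit 65567) (nat_lit 2) (.e (nat_lit 90164) (nat_lit 12) .nil)))))))) (.g (nat_lit 5) .nil .nil))) 
(.lf (nat_lit 255025) (.g (nat_lit 1681) (.e (nat_lit 164018) (nat_lit 45) (.e (nat_lit 696345) (nat_lit 9) (.e (nat_lit 180243) (nat_lit 5) (.e (nat_lit 532549) (nat_lit 12) (.e (nat_lit 360474) (nat_lit 8) .nil))))) .nil)))) (.nd (nat_lit 4) (.nd (nat_lit 5) 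
(.lf (nat_lit 254985) (.g (nat_lit 1606) (.e (nat_lit 164016) (nat_lit 44) (.e (nat_lit 688177) (nat_lit 16) (.e (nat_lit 65625) (nat_lit 13) (.e (nat_lit 393265) (nat_lit 22) (.e (nat_lit 417820) (nat_lit 10) .nil))))) .nil)) 
(.lf (nat_lit 255017) (.g (nat_lit 2349) (.e (nat_lit 164017) (nat_lit 44) (.e (nat_lit 688178) (nat_lit 16) (.e (nat_lit 65627) (nat_lit 13) (.e (nat_lit 393263) (nat_lit 22) (.e (nat_lit 417815) (nat_lit 10) (.e (nat_lit 5763) (nat_lit 315) .nil)))))) (.g (nat_lit 5) .nil .nil)))) (.nd (nat_lit 5) 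
(.lf (nat_lit 255001) (.g (nat_lit 1383) (.e (nat_lit 164017) (nat_lit 44) (.e (nat_lit 688177) (nat_lit 16) (.e (nat_lit 65571) (nat_lit 3) (.e (nat_lit 98381) (nat_lit 31) .nil)))) .nil)) 
(.lf (nat_lit 255033) (.g (nat_lit 4986) (.e (nat_lit 164020) (nat_lit 45) (.e (nat_lit 696343) (nat_lit 8) (.e (nat_lit 172067) (nat_lit 3) (.e (nat_lit 204855) (nat_lit 26) (.e (nat_lit 336176) (nat_lit 10) (.e (nat_lit 344130) (nat_lit 26) (.e (nat_lit 557090) (nat_lit 12) .nil))))))) (.g (nat_lit 0) .nil .nil)))))) (.nd (nat_lit 3) (.nd (nat_lit 4) (.nd (nat_lit 5) 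
(.lf (nat_lit 254981) (.g (nat_lit 1675) (.e (nat_lit 164010) (nat_lit 41) (.e (nat_lit 663583) (nat_lit 11) (.e (nat_lit 24580) (nat_lit 0) (.e (nat_lit 2356) (nat_lit 152) (.e (nat_lit 786481) (nat_lit 30) (.e (nat_lit 360473) (nat_lit 8) (.e (nat_lit 557094) (nat_lit 12) .nil))))))) (.g (nat_lit 4) .nil .nil))) 
(.lf (nat_lit 255013) (.g (nat_lit 863) (.e (nat_lit 164017) (nat_lit 44) (.e (nat_lit 688178) (nat_lit 16) (.e (nat_lit 65625) (nat_lit 13) (.e (nat_lit 393260) (nat_lit 21) .nil)))) .nil))) (.nd (nat_lit 5) 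
(.lf (nat_lit 254997) (.g (nat_lit 2448) (.e (nat_lit 164017) (nat_lit 44) (.e (nat_lit 688177) (nat_lit 16) (.e (nat_lit 65566) (nat_lit 2) (.e (nat_lit 90170) (nat_lit 13) (.e (nat_lit 172106) (nat_lit 10) (.e (nat_lit 434244) (nat_lit 28) (.e (nat_lit 581376) (nat_lit 3) .nil))))))) (.g (nat_lit 6) .nil .nil))) 
(.lf (nat_lit 255029) (.g (nat_lit 1442) (.e (nat_lit 164020) (nat_lit 45) (.e (nat_lit 696329) (nat_lit 5) (.e (nat_lit 2964) (nat_lit 185) (.e (nat_lit 434219) (nat_lit 19) (.e (nat_lit 499965) (nat_lit 14) (.e (nat_lit 7936) (nat_lit 111) (.e (nat_lit 360475) (nat_lit 8) (.e (nat_lit 557090) (nat_lit 12) .nil)))))))) (.g (nat_lit 4) .nil .nil))))) (.nd (nat_lit 4) (.nd (nat_lit 5) 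
(.lf (nat_lit 254989) (.g (nat_lit 1736) (.e (nat_lit 164016) (nat_lit 44) (.e (nat_lit 688186) (nat_lit 18) (.e (nat_lit 81965) (nat_lit 26) (.e (nat_lit 147495) (nat_lit 11) (.e (nat_lit 24580) (nat_lit 0) (.e (nat_lit 6714) (nat_lit 360) .nil)))))) (.g (nat_lit 4) .nil .nil))) 
(.lf (nat_lit 255021) (.g (nat_lit 2450) (.e (nat_lit 164017) (nat_lit 44) (.e (nat_lit 688187) (nat_lit 19) (.e (nat_lit 122936) (nat_lit 23) (.e (nat_lit 516131) (nat_lit 3) (.e (nat_lit 221212) (nat_lit 22) (.e (nat_lit 196681) (nat_lit 17) (.e (nat_lit 131091) (nat_lit 2) (.e (nat_lit 90164) (nat_lit 12) .nil)))))))) (.g (nat_lit 6) .nil .nil)))) (.nd (nat_lit 5) 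
(.lf (nat_lit 255005) (.g (nat_lit 3833) (.e (nat_lit 164017) (nat_lit 44) (.e (nat_lit 688177) (nat_lit 16) (.e (nat_lit 65625) (nat_lit 13) (.e (nat_lit 393260) (nat_lit 21) (.e (nat_lit 409616) (nat_lit 10) (.e (nat_lit 5763) (nat_lit 315) .nil)))))) (.g (nat_lit 5) .nil .nil))) 
(.lf (nat_lit 255037) (.g (nat_lit 1739) (.e (nat_lit 164020) (nat_lit 45) (.e (nat_lit 696343) (nat_lit 8) (.e (nat_lit 172082) (nat_lit 7) (.e (nat_lit 409646) (nat_lit 18) (.e (nat_lit 303133) (nat_lit 9) (.e (nat_lit 426412) (nat_lit 15) (.e (nat_lit 1009) (nat_lit 81) (.e (nat_lit 6811) (nat_lit 365) (.e (nat_lit 2600) (nat_lit 163) .nil))))))))) (.g (nat_lit 4) .nil .nil))))))) 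
(.nd (nat_lit 2) (.nd (nat_lit 3) (.nd (nat_lit 4) (.nd (nat_lit 5) 
(.lf (nat_lit 254979) (.g (nat_lit 2628) (.e (nat_lit 164008) (nat_lit 41) (.e (nat_lit 663583) (nat_lit 11) (.e (nat_lit 24580) (nat_lit 0) (.e (nat_lit 2356) (nat_lit 152) (.e (nat_lit 786481) (nat_lit 30) (.e (nat_lit 360473) (nat_lit 8) (.e (nat_lit 557094) (nat_lit 12) .nil))))))) (.g (nat_lit 6) .nil .nil))) 
(.lf (nat_lit 255011) (.g (nat_lit 2748) (.e (nat_lit 164017) (nat_lit 44) (.e (nat_lit 688178) (nat_lit 16) (.e (nat_lit 65619) (nat_lit 10) (.e (nat_lit 344097) (nat_lit 18) (.e (nat_lit 7147) (nat_lit 382) (.e (nat_lit 1206) (nat_lit 89) (.e (nat_lit 81664) (nat_lit 35) .nil))))))) (.g (nat_lit 6) .nil .nil)))) (.nd (nat_lit 5) 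
(.lf (nat_lit 254995) (.g (nat_lit 3845) (.e (nat_lit 164017) (nat_lit 44) (.e (nat_lit 688171) (nat_lit 15) (.e (nat_lit 57479) (nat_lit 28) (.e (nat_lit 557105) (nat_lit 14) (.e (nat_lit 180252) (nat_lit 10) (.e (nat_lit 573482) (nat_lit 13) (.e (nat_lit 65567) (nat_lit 2) (.e (nat_lit 90164) (nat_lit 12) .nil)))))))) (.g (nat_lit 6) .nil .nil))) 
(.lf (nat_lit 255027) (.g (nat_lit 1362) (.e (nat_lit 164019) (nat_lit 45) (.e (nat_lit 696344) (nat_lit 8) (.e (nat_lit 172067) (nat_lit 3) (.e (nat_lit 204869) (nat_lit 29) .nil)))) .nil)))) (.nd (nat_lit 4) (.nd (nat_lit 5) 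
(.lf (nat_lit 254987) (.g (nat_lit 1645) (.e (nat_lit 164016) (nat_lit 44) (.e (nat_lit 688177) (nat_lit 16) (.e (nat_lit 65627) (nat_lit 13) (.e (nat_lit 393265) (nat_lit 22) (.e (nat_lit 417820) (nat_lit 10) (.e (nat_lit 5761) (nat_lit 315) .nil)))))) (.g (nat_lit 4) .nil .nil))) 
(.lf (nat_lit 255019) (.g (nat_lit 1984) (.e (nat_lit 164017) (nat_lit 44) (.e (nat_lit 688178) (nat_lit 16) (.e (nat_lit 65627) (nat_lit 13) (.e (nat_lit 393265) (nat_lit 22) (.e (nat_lit 417820) (nat_lit 10) (.e (nat_lit 5761) (nat_lit 315) .nil)))))) (.g (nat_lit 4) .nil .nil)))) (.nd (nat_lit 5) 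
(.lf (nat_lit 255003) (.g (nat_lit 456) (.e (nat_lit 164017) (nat_lit 44) (.e (nat_lit 688177) (nat_lit 16) (.e (nat_lit 65625) (nat_lit 13) .nil))) .nil)) 
(.lf (nat_lit 255035) (.g (nat_lit 1707) (.e (nat_lit 164020) (nat_lit 45) (.e (nat_lit 696343) (nat_lit 8) (.e (nat_lit 172079) (nat_lit 7) (.e (nat_lit 409645) (nat_lit 18) (.e (nat_lit 303133) (nat_lit 9) (.e (nat_lit 426412) (nat_lit 15) (.e (nat_lit 1009) (nat_lit 81) (.e (nat_lit 6811) (nat_lit 365) (.e (nat_lit 2601) (nat_lit 163) .nil))))))))) (.g (nat_lit 4) .nil .nil)))))) 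
(.nd (nat_lit 3) (.nd (nat_lit 4) (.nd (nat_lit 5) 
(.lf (nat_lit 254983) (.g (nat_lit 2262) (.e (nat_lit 164016) (nat_lit 44) (.e (nat_lit 688177) (nat_lit 16) (.e (nat_lit 65586) (nat_lit 7) (.e (nat_lit 319531) (nat_lit 16) (.e (nat_lit 286756) (nat_lit 10) .nil))))) .nil)) 
(.lf (nat_lit 255015) (.g (nat_lit 1977) (.e (nat_lit 164017) (nat_lit 44) (.e (nat_lit 688178) (nat_lit 16) (.e (nat_lit 65626) (nat_lit 13) (.e (nat_lit 393265) (nat_lit 22) (.e (nat_lit 417820) (nat_lit 10) (.e (nat_lit 5761) (nat_lit 315) .nil)))))) (.g (nat_lit 5) .nil .nil)))) (.nd (nat_lit 5) 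
(.lf (nat_lit 254999) (.g (nat_lit 2038) (.e (nat_lit 164017) (nat_lit 44) (.e (nat_lit 688177) (nat_lit 16) (.e (nat_lit 65569) (nat_lit 3) (.e (nat_lit 98381) (nat_lit 31) (.e (nat_lit 466967) (nat_lit 20) .nil))))) .nil)) 
(.lf (nat_lit 255031) (.g (nat_lit 2519) (.e (nat_lit 164020) (nat_lit 45) (.e (nat_lit 696343) (nat_lit 8) (.e (nat_lit 172064) (nat_lit 2) (.e (nat_lit 196666) (nat_lit 13) (.e (nat_lit 65617) (nat_lit 10) (.e (nat_lit 344127) (nat_lit 26) (.e (nat_lit 557089) (nat_lit 12) .nil))))))) (.g (nat_lit 5) .nil .nil))))) (.nd (nat_lit 4) (.nd (nat_lit 5) 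
(.lf (nat_lit 254991) (.g (nat_lit 3067) (.e (nat_lit 164017) (nat_lit 44) (.e (nat_lit 688170) (nat_lit 15) (.e (nat_lit 57478) (nat_lit 28) (.e (nat_lit 557105) (nat_lit 14) (.e (nat_lit 180252) (nat_lit 10) (.e (nat_lit 573481) (nat_lit 13) (.e (nat_lit 65567) (nat_lit 2) (.e (nat_lit 90164) (nat_lit 12) .nil)))))))) (.g (nat_lit 5) .nil .nil))) 
(.lf (nat_lit 255023) (.g (nat_lit 2258) (.e (nat_lit 164017) (nat_lit 44) (.e (nat_lit 688187) (nat_lit 19) (.e (nat_lit 122936) (nat_lit 23) (.e (nat_lit 516131) (nat_lit 3) (.e (nat_lit 221212) (nat_lit 22) (.e (nat_lit 196681) (nat_lit 17) (.e (nat_lit 131094) (nat_lit 2) (.e (nat_lit 90164) (nat_lit 12) .nil)))))))) (.g (nat_lit 6) .nil .nil)))) (.nd (nat_lit 5) 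
(.lf (nat_lit 255007) (.g (nat_lit 1091) (.e (nat_lit 164017) (nat_lit 44) (.e (nat_lit 688177) (nat_lit 16) (.e (nat_lit 65625) (nat_lit 13) (.e (nat_lit 393263) (nat_lit 22) .nil)))) .nil)) 
(.lf (nat_lit 255039) (.g (nat_lit 2690) (.e (nat_lit 164020) (nat_lit 45) (.e (nat_lit 696344) (nat_lit 8) (.e (nat_lit 172064) (nat_lit 2) (.e (nat_lit 196624) (nat_lit 9) (.e (nat_lit 7936) (nat_lit 111) .nil))))) .nil))))))))

noncomputable def tv3309 : DT := (.nd (nat_lit 0) (.nd (nat_lit 1) (.nd (nat_lit 2) (.nd (nat_lit 3) (.nd (nat_lit 4) (.nd (nat_lit 5) 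
(.lf (nat_lit 255040) (.g (nat_lit 2002) (.e (nat_lit 164020) (nat_lit 45) (.e (nat_lit 696344) (nat_lit 8) (.e (nat_lit 172064) (nat_lit 2) (.e (nat_lit 196630) (nat_lit 9) (.e (nat_lit 7936) (nat_lit 111) .nil))))) .nil)) 
(.lf (nat_lit 255072) (.g (nat_lit 3098) (.e (nat_lit 164022) (nat_lit 46) (.e (nat_lit 704737) (nat_lit 11) (.e (nat_lit 16411) (nat_lit 2) (.e (nat_lit 196672) (nat_lit 15) (.e (nat_lit 81946) (nat_lit 20) (.e (nat_lit 1858) (nat_lit 124) (.e (nat_lit 557094) (nat_lit 12) .nil))))))) (.g (nat_lit 6) .nil .nil)))) (.nd (nat_lit 5) 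
(.lf (nat_lit 255056) (.g (nat_lit 4234) (.e (nat_lit 164020) (nat_lit 45) (.e (nat_lit 696344) (nat_lit 8) (.e (nat_lit 172067) (nat_lit 3) (.e (nat_lit 204870) (nat_lit 29) (.e (nat_lit 360472) (nat_lit 8) (.e (nat_lit 557090) (nat_lit 12) .nil)))))) (.g (nat_lit 6) .nil .nil))) 
(.lf (nat_lit 255088) (.g (nat_lit 2726) (.e (nat_lit 164022) (nat_lit 46) (.e (nat_lit 704737) (nat_lit 11) (.e (nat_lit 16412) (nat_lit 2) (.e (nat_lit 196674) (nat_lit 15) (.e (nat_lit 81947) (nat_lit 20) (.e (nat_lit 1855) (nat_lit 124) (.e (nat_lit 557093) (nat_lit 12) .nil))))))) (.g (nat_lit 4) .nil .nil))))) (.nd (nat_lit 4) (.nd (nat_lit 5) 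
(.lf (nat_lit 255048) (.g (nat_lit 2724) (.e (nat_lit 164020) (nat_lit 45) (.e (nat_lit 696344) (nat_lit 8) (.e (nat_lit 172067) (nat_lit 3) (.e (nat_lit 204850) (nat_lit 26) .nil)))) .nil)) 
(.lf (nat_lit 255080) (.g (nat_lit 4043) (.e (nat_lit 164022) (nat_lit 46) (.e (nat_lit 704737) (nat_lit 11) (.e (nat_lit 16412) (nat_lit 2) (.e (nat_lit 196666) (nat_lit 13) (.e (nat_lit 65617) (nat_lit 10) (.e (nat_lit 344132) (nat_lit 26) (.e (nat_lit 557094) (nat_lit 12) .nil))))))) (.g (nat_lit 6) .nil .nil)))) (.nd (nat_lit 5) 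
(.lf (nat_lit 255064) (.g (nat_lit 2365) (.e (nat_lit 164022) (nat_lit 46) (.e (nat_lit 704629) (nat_lit 9) (.e (nat_lit 375) (nat_lit 32) (.e (nat_lit 426134) (nat_lit 3) (.e (nat_lit 204868) (nat_lit 29) .nil))))) .nil)) 
(.lf (nat_lit 255096) (.g (nat_lit 2932) (.e (nat_lit 164022) (nat_lit 46) (.e (nat_lit 704737) (nat_lit 11) (.e (nat_lit 16416) (nat_lit 3) (.e (nat_lit 204855) (nat_lit 26) (.e (nat_lit 336176) (nat_lit 10) (.e (nat_lit 344132) (nat_lit 26) (.e (nat_lit 557094) (nat_lit 12) .nil))))))) (.g (nat_lit 4) .nil .nil)))))) (.nd (nat_lit 3) (.nd (nat_lit 4) (.nd (nat_lit 5) 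
(.lf (nat_lit 255044) (.g (nat_lit 4253) (.e (nat_lit 164020) (nat_lit 45) (.e (nat_lit 696344) (nat_lit 8) (.e (nat_lit 172065) (nat_lit 3) (.e (nat_lit 204855) (nat_lit 26) (.e (nat_lit 336176) (nat_lit 10) (.e (nat_lit 344130) (nat_lit 26) (.e (nat_lit 557089) (nat_lit 12) .nil))))))) (.g (nat_lit 0) .nil .nil))) 
(.lf (nat_lit 255076) (.g (nat_lit 2586) (.e (nat_lit 164022) (nat_lit 46) (.e (nat_lit 704737) (nat_lit 11) (.e (nat_lit 16412) (nat_lit 2) (.e (nat_lit 196665) (nat_lit 13) (.e (nat_lit 65615) (nat_lit 10) (.e (nat_lit 344132) (nat_lit 26) (.e (nat_lit 557094) (nat_lit 12) .nil))))))) (.g (nat_lit 4) .nil .nil)))) (.nd (nat_lit 5) 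
(.lf (nat_lit 255060) (.g (nat_lit 628) (.e (nat_lit 164020) (nat_lit 45) (.e (nat_lit 696344) (nat_lit 8) (.e (nat_lit 172123) (nat_lit 13) .nil))) .nil)) 
(.lf (nat_lit 255092) (.g (nat_lit 3965) (.e (nat_lit 164022) (nat_lit 46) (.e (nat_lit 704737) (nat_lit 11) (.e (nat_lit 16415) (nat_lit 3) (.e (nat_lit 204868) (nat_lit 29) (.e (nat_lit 360473) (nat_lit 8) (.e (nat_lit 557091) (nat_lit 12) .nil)))))) (.g (nat_lit 0) .nil .nil))))) (.nd (nat_lit 4) (.nd (nat_lit 5) 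
(.lf (nat_lit 255052) (.g (nat_lit 2937) (.e (nat_lit 164020) (nat_lit 45) (.e (nat_lit 696344) (nat_lit 8) (.e (nat_lit 172067) (nat_lit 3) (.e (nat_lit 204855) (nat_lit 26) (.e (nat_lit 336176) (nat_lit 10) (.e (nat_lit 344132) (nat_lit 26) (.e (nat_lit 557089) (nat_lit 12) .nil))))))) (.g (nat_lit 5) .nil .nil))) 
(.lf (nat_lit 255084) (.g (nat_lit 3795) (.e (nat_lit 164022) (nat_lit 46) (.e (nat_lit 704737) (nat_lit 11) (.e (nat_lit 16412) (nat_lit 2) (.e (nat_lit 196672) (nat_lit 15) (.e (nat_lit 81946) (nat_lit 20) (.e (nat_lit 1858) (nat_lit 124) (.e (nat_lit 557094) (nat_lit 12) .nil))))))) (.g (nat_lit 6) .nil .nil)))) (.nd (nat_lit 5) 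
(.lf (nat_lit 255068) (.g (nat_lit 2509) (.e (nat_lit 164022) (nat_lit 46) (.e (nat_lit 704629) (nat_lit 9) (.e (nat_lit 452) (nat_lit 33) (.e (nat_lit 434219) (nat_lit 19) (.e (nat_lit 499952) (nat_lit 14) (.e (nat_lit 1586) (nat_lit 111) (.e (nat_lit 360474) (nat_lit 8) (.e (nat_lit 557094) (nat_lit 12) .nil)))))))) (.g (nat_lit 4) .nil .nil))) 
(.lf (nat_lit 255100) (.g (nat_lit 726) (.e (nat_lit 164022) (nat_lit 46) (.e (nat_lit 704738) (nat_lit 11) (.e (nat_lit 16406) (nat_lit 1) .nil))) .nil)))))) (.nd (nat_lit 2) (.nd (nat_lit 3) (.nd (nat_lit 4) (.nd (nat_lit 5) 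
(.lf (nat_lit 255042) (.g (nat_lit 5455) (.e (nat_lit 164020) (nat_lit 45) (.e (nat_lit 696344) (nat_lit 8) (.e (nat_lit 172064) (nat_lit 2) (.e (nat_lit 196666) (nat_lit 13) (.e (nat_lit 65617) (nat_lit 10) (.e (nat_lit 344133) (nat_lit 26) (.e (nat_lit 557090) (nat_lit 12) .nil))))))) (.g (nat_lit 0) .nil .nil))) 
(.lf (nat_lit 255074) (.g (nat_lit 3430) (.e (nat_lit 164022) (nat_lit 46) (.e (nat_lit 704737) (nat_lit 11) (.e (nat_lit 16411) (nat_lit 2) (.e (nat_lit 196674) (nat_lit 15) (.e (nat_lit 81946) (nat_lit 20) (.e (nat_lit 1858) (nat_lit 124) (.e (nat_lit 557094) (nat_lit 12) .nil))))))) (.g (nat_lit 6) .nil .nil)))) (.nd (nat_lit 5) 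
(.lf (nat_lit 255058) (.g (nat_lit 628) (.e (nat_lit 164020) (nat_lit 45) (.e (nat_lit 696344) (nat_lit 8) (.e (nat_lit 172070) (nat_lit 4) .nil))) .nil)) 
(.lf (nat_lit 255090) (.g (nat_lit 3887) (.e (nat_lit 164022) (nat_lit 46) (.e (nat_lit 704737) (nat_lit 11) (.e (nat_lit 16415) (nat_lit 3) (.e (nat_lit 204855) (nat_lit 26) (.e (nat_lit 336176) (nat_lit 10) (.e (nat_lit 344132) (nat_lit 26) (.e (nat_lit 557093) (nat_lit 12) .nil))))))) (.g (nat_lit 6) .nil .nil))))) (.nd (nat_lit 4) (.nd (nat_lit 5) 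
(.lf (nat_lit 255050) (.g (nat_lit 1817) (.e (nat_lit 164020) (nat_lit 45) (.e (nat_lit 696344) (nat_lit 8) (.e (nat_lit 172067) (nat_lit 3) (.e (nat_lit 204855) (nat_lit 26) (.e (nat_lit 336176) (nat_lit 10) (.e (nat_lit 344127) (nat_lit 26) (.e (nat_lit 557088) (nat_lit 12) .nil))))))) (.g (nat_lit 4) .nil .nil))) 
(.lf (nat_lit 255082) (.g (nat_lit 1549) (.e (nat_lit 164022) (nat_lit 46) (.e (nat_lit 704737) (nat_lit 11) (.e (nat_lit 16412) (nat_lit 2) (.e (nat_lit 196672) (nat_lit 15) (.e (nat_lit 81943) (nat_lit 20) .nil))))) .nil))) (.nd (nat_lit 5) 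
(.lf (nat_lit 255066) (.g (nat_lit 2064) (.e (nat_lit 164022) (nat_lit 46) (.e (nat_lit 704629) (nat_lit 9) (.e (nat_lit 442) (nat_lit 33) (.e (nat_lit 434285) (nat_lit 42) .nil)))) .nil)) 
(.lf (nat_lit 255098) (.g (nat_lit 1674) (.e (nat_lit 164022) (nat_lit 46) (.e (nat_lit 704738) (nat_lit 11) (.e (nat_lit 16392) (nat_lit 0) (.e (nat_lit 3167) (nat_lit 193) .nil)))) .nil))))) (.nd (nat_lit 3) (.nd (nat_lit 4) (.nd (nat_lit 5) 
(.lf (nat_lit 255046) (.g (nat_lit 4847) (.e (nat_lit 164020) (nat_lit 45) (.e (nat_lit 696344) (nat_lit 8) (.e (nat_lit 172065) (nat_lit 3) (.e (nat_lit 204855) (nat_lit 26) (.e (nat_lit 336176) (nat_lit 10) (.e (nat_lit 344133) (nat_lit 26) (.e (nat_lit 557090) (nat_lit 12) .nil))))))) (.g (nat_lit 0) .nil .nil))) 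
(.lf (nat_lit 255078) (.g (nat_lit 3774) (.e (nat_lit 164022) (nat_lit 46) (.e (nat_lit 704737) (nat_lit 11) (.e (nat_lit 16412) (nat_lit 2) (.e (nat_lit 196666) (nat_lit 13) (.e (nat_lit 65614) (nat_lit 10) .nil))))) .nil))) (.nd (nat_lit 5) 
(.lf (nat_lit 255062) (.g (nat_lit 2954) (.e (nat_lit 164021) (nat_lit 46) (.e (nat_lit 704741) (nat_lit 11) (.e (nat_lit 16417) (nat_lit 3) (.e (nat_lit 204869) (nat_lit 29) (.e (nat_lit 360474) (nat_lit 8) (.e (nat_lit 557094) (nat_lit 12) .nil)))))) (.g (nat_lit 6) .nil .nil))) 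
(.lf (nat_lit 255094) (.g (nat_lit 2280) (.e (nat_lit 164022) (nat_lit 46) (.e (nat_lit 704737) (nat_lit 11) (.e (nat_lit 16415) (nat_lit 3) (.e (nat_lit 204868) (nat_lit 29) (.e (nat_lit 360474) (nat_lit 8) (.e (nat_lit 557094) (nat_lit 12) .nil)))))) (.g (nat_lit 4) .nil .nil))))) (.nd (nat_lit 4) (.nd (nat_lit 5) 
(.lf (nat_lit 255054) (.g (nat_lit 4932) (.e (nat_lit 164020) (nat_lit 45) (.e (nat_lit 696344) (nat_lit 8) (.e (nat_lit 172067) (nat_lit 3) (.e (nat_lit 204855) (nat_lit 26) (.e (nat_lit 336176) (nat_lit 10) (.e (nat_lit 344133) (nat_lit 26) (.e (nat_lit 557090) (nat_lit 12) .nil))))))) (.g (nat_lit 0) .nil .nil))) 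
(.lf (nat_lit 255086) (.g (nat_lit 6188) (.e (nat_lit 164022) (nat_lit 46) (.e (nat_lit 704737) (nat_lit 11) (.e (nat_lit 16412) (nat_lit 2) (.e (nat_lit 196674) (nat_lit 15) (.e (nat_lit 81946) (nat_lit 20) (.e (nat_lit 1858) (nat_lit 124) (.e (nat_lit 557093) (nat_lit 12) .nil))))))) (.g (nat_lit 0) .nil .nil)))) (.nd (nat_lit 5) 
(.lf (nat_lit 255070) (.g (nat_lit 467) (.e (nat_lit 164022) (nat_lit 46) (.e (nat_lit 704737) (nat_lit 11) (.e (nat_lit 16411) (nat_lit 2) .nil))) .nil)) 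
(.lf (nat_lit 255102) (.g (nat_lit 3783) (.e (nat_lit 164022) (nat_lit 46) (.e (nat_lit 704738) (nat_lit 11) (.e (nat_lit 16410) (nat_lit 2) (.e (nat_lit 196666) (nat_lit 13) (.e (nat_lit 65617) (nat_lit 10) (.e (nat_lit 344132) (nat_lit 26) (.e (nat_lit 557094) (nat_lit 12) .nil))))))) (.g (nat_lit 7) .nil .nil)))))))) 
(.nd (nat_lit 1) (.nd (nat_lit 2) (.nd (nat_lit 3) (.nd (nat_lit 4) (.nd (nat_lit 5) 
(.lf (nat_lit 255041) (.g (nat_lit 1981) (.e (nat_lit 164020) (nat_lit 45) (.e (nat_lit 696344) (nat_lit 8) (.e (nat_lit 172064) (nat_lit 2) (.e (nat_lit 196632) (nat_lit 9) (.e (nat_lit 1580) (nat_lit 111) .nil))))) .nil)) 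
(.lf (nat_lit 255073) (.g (nat_lit 5303) (.e (nat_lit 164022) (nat_lit 46) (.e (nat_lit 704737) (nat_lit 11) (.e (nat_lit 16411) (nat_lit 2) (.e (nat_lit 196674) (nat_lit 15) (.e (nat_lit 81946) (nat_lit 20) (.e (nat_lit 1858) (nat_lit 124) (.e (nat_lit 557093) (nat_lit 12) .nil))))))) (.g (nat_lit 0) .nil .nil)))) (.nd (nat_lit 5) 
(.lf (nat_lit 255057) (.g (nat_lit 4413) (.e (nat_lit 164020) (nat_lit 45) (.e (nat_lit 696344) (nat_lit 8) (.e (nat_lit 172067) (nat_lit 3) (.e (nat_lit 204870) (nat_lit 29) (.e (nat_lit 360473) (nat_lit 8) (.e (nat_lit 557090) (nat_lit 12) .nil)))))) (.g (nat_lit 0) .nil .nil))) 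
(.lf (nat_lit 255089) (.g (nat_lit 3511) (.e (nat_lit 164022) (nat_lit 46) (.e (nat_lit 704737) (nat_lit 11) (.e (nat_lit 16412) (nat_lit 2) (.e (nat_lit 196674) (nat_lit 15) (.e (nat_lit 81947) (nat_lit 20) (.e (nat_lit 1858) (nat_lit 124) (.e (nat_lit 557093) (nat_lit 12) .nil))))))) (.g (nat_lit 5) .nil .nil))))) (.nd (nat_lit 4) (.nd (nat_lit 5) 
(.lf (nat_lit 255049) (.g (nat_lit 1936) (.e (nat_lit 164020) (nat_lit 45) (.e (nat_lit 696344) (nat_lit 8) (.e (nat_lit 172067) (nat_lit 3) (.e (nat_lit 204852) (nat_lit 26) .nil)))) .nil)) 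
(.lf (nat_lit 255081) (.g (nat_lit 2641) (.e (nat_lit 164022) (nat_lit 46) (.e (nat_lit 704737) (nat_lit 11) (.e (nat_lit 16412) (nat_lit 2) (.e (nat_lit 196672) (nat_lit 15) (.e (nat_lit 81940) (nat_lit 20) (.e (nat_lit 1858) (nat_lit 124) (.e (nat_lit 557093) (nat_lit 12) .nil))))))) (.g (nat_lit 4) .nil .nil)))) (.nd (nat_lit 5) 
(.lf (nat_lit 255065) (.g (nat_lit 708) (.e (nat_lit 164022) (nat_lit 46) (.e (nat_lit 704629) (nat_lit 9) (.e (nat_lit 442) (nat_lit 33) .nil))) .nil)) 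
(.lf (nat_lit 255097) (.g (nat_lit 1853) (.e (nat_lit 164022) (nat_lit 46) (.e (nat_lit 704737) (nat_lit 11) (.e (nat_lit 16416) (nat_lit 3) (.e (nat_lit 204877) (nat_lit 31) .nil)))) .nil))))) (.nd (nat_lit 3) (.nd (nat_lit 4) (.nd (nat_lit 5) 
(.lf (nat_lit 255045) (.g (nat_lit 4628) (.e (nat_lit 164020) (nat_lit 45) (.e (nat_lit 696344) (nat_lit 8) (.e (nat_lit 172065) (nat_lit 3) (.e (nat_lit 204855) (nat_lit 26) (.e (nat_lit 336176) (nat_lit 10) (.e (nat_lit 344132) (nat_lit 26) (.e (nat_lit 557091) (nat_lit 12) .nil))))))) (.g (nat_lit 0) .nil .nil))) 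
(.lf (nat_lit 255077) (.g (nat_lit 3359) (.e (nat_lit 164022) (nat_lit 46) (.e (nat_lit 704737) (nat_lit 11) (.e (nat_lit 16412) (nat_lit 2) (.e (nat_lit 196666) (nat_lit 13) (.e (nat_lit 65609) (nat_lit 10) (.e (nat_lit 344132) (nat_lit 26) (.e (nat_lit 557093) (nat_lit 12) .nil))))))) (.g (nat_lit 4) .nil .nil)))) (.nd (nat_lit 5) 
(.lf (nat_lit 255061) (.g (nat_lit 1926) (.e (nat_lit 164020) (nat_lit 45) (.e (nat_lit 696361) (nat_lit 16) (.e (nat_lit 65627) (nat_lit 13) (.e (nat_lit 393265) (nat_lit 22) (.e (nat_lit 417820) (nat_lit 10) (.e (nat_lit 5761) (nat_lit 315) .nil)))))) (.g (nat_lit 6) .nil .nil))) 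
(.lf (nat_lit 255093) (.g (nat_lit 2646) (.e (nat_lit 164022) (nat_lit 46) (.e (nat_lit 704737) (nat_lit 11) (.e (nat_lit 16415) (nat_lit 3) (.e (nat_lit 204868) (nat_lit 29) (.e (nat_lit 360474) (nat_lit 8) (.e (nat_lit 557093) (nat_lit 12) .nil)))))) (.g (nat_lit 4) .nil .nil))))) (.nd (nat_lit 4) (.nd (nat_lit 5) 
(.lf (nat_lit 255053) (.g (nat_lit 4345) (.e (nat_lit 164020) (nat_lit 45) (.e (nat_lit 696344) (nat_lit 8) (.e (nat_lit 172067) (nat_lit 3) (.e (nat_lit 204855) (nat_lit 26) (.e (nat_lit 336176) (nat_lit 10) (.e (nat_lit 344132) (nat_lit 26) (.e (nat_lit 557090) (nat_lit 12) .nil))))))) (.g (nat_lit 7) .nil .nil))) 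
(.lf (nat_lit 255085) (.g (nat_lit 5727) (.e (nat_lit 164022) (nat_lit 46) (.e (nat_lit 704737) (nat_lit 11) (.e (nat_lit 16412) (nat_lit 2) (.e (nat_lit 196674) (nat_lit 15) (.e (nat_lit 81946) (nat_lit 20) (.e (nat_lit 1858) (nat_lit 124) (.e (nat_lit 557091) (nat_lit 12) .nil))))))) (.g (nat_lit 7) .nil .nil)))) (.nd (nat_lit 5) 
(.lf (nat_lit 255069) (.g (nat_lit 703) (.e (nat_lit 164022) (nat_lit 46) (.e (nat_lit 704737) (nat_lit 11) (.e (nat_lit 16386) (nat_lit 0) .nil))) .nil)) 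
(.lf (nat_lit 255101) (.g (nat_lit 669) (.e (nat_lit 164022) (nat_lit 46) (.e (nat_lit 704738) (nat_lit 11) (.e (nat_lit 16407) (nat_lit 1) .nil))) .nil)))))) (.nd (nat_lit 2) (.nd (nat_lit 3) (.nd (nat_lit 4) (.nd (nat_lit 5) 
(.lf (nat_lit 255043) (.g (nat_lit 2783) (.e (nat_lit 164020) (nat_lit 45) (.e (nat_lit 696344) (nat_lit 8) (.e (nat_lit 172065) (nat_lit 3) (.e (nat_lit 204855) (nat_lit 26) (.e (nat_lit 336176) (nat_lit 10) (.e (nat_lit 344128) (nat_lit 26) (.e (nat_lit 557090) (nat_lit 12) .nil))))))) (.g (nat_lit 5) .nil .nil))) 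
(.lf (nat_lit 255075) (.g (nat_lit 2298) (.e (nat_lit 164022) (nat_lit 46) (.e (nat_lit 704737) (nat_lit 11) (.e (nat_lit 16412) (nat_lit 2) (.e (nat_lit 196624) (nat_lit 9) (.e (nat_lit 7936) (nat_lit 111) .nil))))) .nil))) (.nd (nat_lit 5) 
(.lf (nat_lit 255059) (.g (nat_lit 630) (.e (nat_lit 164020) (nat_lit 45) (.e (nat_lit 696344) (nat_lit 8) (.e (nat_lit 172072) (nat_lit 5) .nil))) .nil)) 
(.lf (nat_lit 255091) (.g (nat_lit 3534) (.e (nat_lit 164022) (nat_lit 46) (.e (nat_lit 704737) (nat_lit 11) (.e (nat_lit 16415) (nat_lit 3) (.e (nat_lit 204855) (nat_lit 26) (.e (nat_lit 336176) (nat_lit 10) (.e (nat_lit 344132) (nat_lit 26) (.e (nat_lit 557094) (nat_lit 12) .nil))))))) (.g (nat_lit 6) .nil .nil))))) (.nd (nat_lit 4) (.nd (nat_lit 5) 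
(.lf (nat_lit 255051) (.g (nat_lit 4356) (.e (nat_lit 164020) (nat_lit 45) (.e (nat_lit 696344) (nat_lit 8) (.e (nat_lit 172067) (nat_lit 3) (.e (nat_lit 204855) (nat_lit 26) (.e (nat_lit 336176) (nat_lit 10) (.e (nat_lit 344130) (nat_lit 26) (.e (nat_lit 557089) (nat_lit 12) .nil))))))) (.g (nat_lit 0) .nil .nil))) 
(.lf (nat_lit 255083) (.g (nat_lit 5606) (.e (nat_lit 164022) (nat_lit 46) (.e (nat_lit 704737) (nat_lit 11) (.e (nat_lit 16412) (nat_lit 2) (.e (nat_lit 196672) (nat_lit 15) (.e (nat_lit 81946) (nat_lit 20) (.e (nat_lit 1858) (nat_lit 124) (.e (nat_lit 557093) (nat_lit 12) .nil))))))) (.g (nat_lit 7) .nil .nil)))) (.nd (nat_lit 5) 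
(.lf (nat_lit 255067) (.g (nat_lit 964) (.e (nat_lit 164022) (nat_lit 46) (.e (nat_lit 704629) (nat_lit 9) (.e (nat_lit 452) (nat_lit 33) (.e (nat_lit 434219) (nat_lit 19) .nil)))) .nil)) 
(.lf (nat_lit 255099) (.g (nat_lit 1283) (.e (nat_lit 164022) (nat_lit 46) (.e (nat_lit 704738) (nat_lit 11) (.e (nat_lit 16392) (nat_lit 0) (.e (nat_lit 3191) (nat_lit 193) .nil)))) .nil))))) (.nd (nat_lit 3) (.nd (nat_lit 4) (.nd (nat_lit 5) 
(.lf (nat_lit 255047) (.g (nat_lit 3479) (.e (nat_lit 164020) (nat_lit 45) (.e (nat_lit 696344) (nat_lit 8) (.e (nat_lit 172067) (nat_lit 3) (.e (nat_lit 204819) (nat_lit 17) (.e (nat_lit 7936) (nat_lit 348) (.e (nat_lit 73755) (nat_lit 8) (.e (nat_lit 557090) (nat_lit 12) .nil))))))) (.g (nat_lit 4) .nil .nil))) 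
(.lf (nat_lit 255079) (.g (nat_lit 4381) (.e (nat_lit 164022) (nat_lit 46) (.e (nat_lit 704737) (nat_lit 11) (.e (nat_lit 16412) (nat_lit 2) (.e (nat_lit 196666) (nat_lit 13) (.e (nat_lit 65617) (nat_lit 10) (.e (nat_lit 344132) (nat_lit 26) (.e (nat_lit 557093) (nat_lit 12) .nil))))))) (.g (nat_lit 6) .nil .nil)))) (.nd (nat_lit 5) 
(.lf (nat_lit 255063) (.g (nat_lit 897) (.e (nat_lit 164022) (nat_lit 46) (.e (nat_lit 704628) (nat_lit 9) (.e (nat_lit 452) (nat_lit 33) (.e (nat_lit 434219) (nat_lit 19) .nil)))) .nil)) 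
(.lf (nat_lit 255095) (.g (nat_lit 2067) (.e (nat_lit 164022) (nat_lit 46) (.e (nat_lit 704737) (nat_lit 11) (.e (nat_lit 16416) (nat_lit 3) (.e (nat_lit 204852) (nat_lit 26) .nil)))) .nil)))) (.nd (nat_lit 4) (.nd (nat_lit 5) 
(.lf (nat_lit 255055) (.g (nat_lit 2821) (.e (nat_lit 164020) (nat_lit 45) (.e (nat_lit 696344) (nat_lit 8) (.e (nat_lit 172067) (nat_lit 3) (.e (nat_lit 204858) (nat_lit 26) .nil)))) .nil)) 
(.lf (nat_lit 255087) (.g (nat_lit 4442) (.e (nat_lit 164022) (nat_lit 46) (.e (nat_lit 704737) (nat_lit 11) (.e (nat_lit 16412) (nat_lit 2) (.e (nat_lit 196674) (nat_lit 15) (.e (nat_lit 81946) (nat_lit 20) (.e (nat_lit 1858) (nat_lit 124) (.e (nat_lit 557094) (nat_lit 12) .nil))))))) (.g (nat_lit 6) .nil .nil)))) (.nd (nat_lit 5) 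
(.lf (nat_lit 255071) (.g (nat_lit 5036) (.e (nat_lit 164022) (nat_lit 46) (.e (nat_lit 704737) (nat_lit 11) (.e (nat_lit 16411) (nat_lit 2) (.e (nat_lit 196672) (nat_lit 15) (.e (nat_lit 81946) (nat_lit 20) (.e (nat_lit 1858) (nat_lit 124) (.e (nat_lit 557093) (nat_lit 12) .nil))))))) (.g (nat_lit 7) .nil .nil))) 
(.lf (nat_lit 255103) (.g (nat_lit 3920) (.e (nat_lit 164022) (nat_lit 46) (.e (nat_lit 704738) (nat_lit 11) (.e (nat_lit 16411) (nat_lit 2) (.e (nat_lit 196625) (nat_lit 9) (.e (nat_lit 1595) (nat_lit 111) (.e (nat_lit 360473) (nat_lit 8) (.e (nat_lit 557091) (nat_lit 12) .nil))))))) (.g (nat_lit 7) .nil .nil)))))))))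

noncomputable def tv3310 : DT := (.nd (nat_lit 0) (.nd (nat_lit 1) (.nd (nat_lit 2) (.nd (nat_lit 3) (.nd (nat_lit 4) (.nd (nat_lit 5) 
(.lf (nat_lit 255104) (.g (nat_lit 3364) (.e (nat_lit 164022) (nat_lit 46) (.e (nat_lit 704738) (nat_lit 11) (.e (nat_lit 16411) (nat_lit 2) (.e (nat_lit 196625) (nat_lit 9) (.e (nat_lit 1595) (nat_lit 111) (.e (nat_lit 360473) (nat_lit 8) (.e (nat_lit 557094) (nat_lit 12) .nil))))))) (.g (nat_lit 7) .nil .nil))) 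
(.lf (nat_lit 255136) (.g (nat_lit 2101) (.e (nat_lit 164022) (nat_lit 46) (.e (nat_lit 704738) (nat_lit 11) (.e (nat_lit 16412) (nat_lit 2) (.e (nat_lit 196631) (nat_lit 9) (.e (nat_lit 1580) (nat_lit 111) .nil))))) .nil))) (.nd (nat_lit 5) 
(.lf (nat_lit 255120) (.g (nat_lit 1477) (.e (nat_lit 164022) (nat_lit 46) (.e (nat_lit 704738) (nat_lit 11) (.e (nat_lit 16412) (nat_lit 2) (.e (nat_lit 196626) (nat_lit 9) .nil)))) .nil)) 
(.lf (nat_lit 255152) (.g (nat_lit 3366) (.e (nat_lit 164022) (nat_lit 46) (.e (nat_lit 704738) (nat_lit 11) (.e (nat_lit 16412) (nat_lit 2) (.e (nat_lit 196666) (nat_lit 13) (.e (nat_lit 65614) (nat_lit 10) (.e (nat_lit 344131) (nat_lit 26) (.e (nat_lit 557091) (nat_lit 12) .nil))))))) (.g (nat_lit 4) .nil .nil))))) (.nd (nat_lit 4) (.nd (nat_lit 5) 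
(.lf (nat_lit 255112) (.g (nat_lit 1502) (.e (nat_lit 164022) (nat_lit 46) (.e (nat_lit 704738) (nat_lit 11) (.e (nat_lit 16412) (nat_lit 2) (.e (nat_lit 196623) (nat_lit 9) .nil)))) .nil)) 
(.lf (nat_lit 255144) (.g (nat_lit 3662) (.e (nat_lit 164022) (nat_lit 46) (.e (nat_lit 704738) (nat_lit 11) (.e (nat_lit 16412) (nat_lit 2) (.e (nat_lit 196663) (nat_lit 13) (.e (nat_lit 65617) (nat_lit 10) (.e (nat_lit 344132) (nat_lit 26) (.e (nat_lit 557094) (nat_lit 12) .nil))))))) (.g (nat_lit 5) .nil .nil)))) (.nd (nat_lit 5) 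
(.lf (nat_lit 255128) (.g (nat_lit 3366) (.e (nat_lit 164022) (nat_lit 46) (.e (nat_lit 704738) (nat_lit 11) (.e (nat_lit 16412) (nat_lit 2) (.e (nat_lit 196630) (nat_lit 9) (.e (nat_lit 1580) (nat_lit 111) (.e (nat_lit 360473) (nat_lit 8) (.e (nat_lit 557093) (nat_lit 12) .nil))))))) (.g (nat_lit 4) .nil .nil))) 
(.lf (nat_lit 255160) (.g (nat_lit 6046) (.e (nat_lit 164022) (nat_lit 46) (.e (nat_lit 704738) (nat_lit 11) (.e (nat_lit 16412) (nat_lit 2) (.e (nat_lit 196672) (nat_lit 15) (.e (nat_lit 81946) (nat_lit 20) (.e (nat_lit 1858) (nat_lit 124) (.e (nat_lit 557093) (nat_lit 12) .nil))))))) (.g (nat_lit 0) .nil .nil)))))) (.nd (nat_lit 3) (.nd (nat_lit 4) (.nd (nat_lit 5) 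
(.lf (nat_lit 255108) (.g (nat_lit 3539) (.e (nat_lit 164022) (nat_lit 46) (.e (nat_lit 704738) (nat_lit 11) (.e (nat_lit 16411) (nat_lit 2) (.e (nat_lit 196674) (nat_lit 15) (.e (nat_lit 81946) (nat_lit 20) (.e (nat_lit 1858) (nat_lit 124) (.e (nat_lit 557094) (nat_lit 12) .nil))))))) (.g (nat_lit 6) .nil .nil))) 
(.lf (nat_lit 255140) (.g (nat_lit 3040) (.e (nat_lit 164022) (nat_lit 46) (.e (nat_lit 704738) (nat_lit 11) (.e (nat_lit 16412) (nat_lit 2) (.e (nat_lit 196642) (nat_lit 9) (.e (nat_lit 1587) (nat_lit 111) (.e (nat_lit 360474) (nat_lit 8) (.e (nat_lit 557093) (nat_lit 12) .nil))))))) (.g (nat_lit 4) .nil .nil)))) (.nd (nat_lit 5) 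
(.lf (nat_lit 255124) (.g (nat_lit 1502) (.e (nat_lit 164022) (nat_lit 46) (.e (nat_lit 704738) (nat_lit 11) (.e (nat_lit 16412) (nat_lit 2) (.e (nat_lit 196627) (nat_lit 9) .nil)))) .nil)) 
(.lf (nat_lit 255156) (.g (nat_lit 2721) (.e (nat_lit 164022) (nat_lit 46) (.e (nat_lit 704738) (nat_lit 11) (.e (nat_lit 16412) (nat_lit 2) (.e (nat_lit 196672) (nat_lit 15) (.e (nat_lit 81928) (nat_lit 20) (.e (nat_lit 1855) (nat_lit 124) (.e (nat_lit 557093) (nat_lit 12) .nil))))))) (.g (nat_lit 4) .nil .nil))))) (.nd (nat_lit 4) (.nd (nat_lit 5) 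
(.lf (nat_lit 255116) (.g (nat_lit 3487) (.e (nat_lit 164022) (nat_lit 46) (.e (nat_lit 704738) (nat_lit 11) (.e (nat_lit 16412) (nat_lit 2) (.e (nat_lit 196624) (nat_lit 9) (.e (nat_lit 7936) (nat_lit 111) (.e (nat_lit 360473) (nat_lit 8) (.e (nat_lit 557093) (nat_lit 12) .nil))))))) (.g (nat_lit 4) .nil .nil))) 
(.lf (nat_lit 255148) (.g (nat_lit 2244) (.e (nat_lit 164022) (nat_lit 46) (.e (nat_lit 704738) (nat_lit 11) (.e (nat_lit 16412) (nat_lit 2) (.e (nat_lit 196665) (nat_lit 13) (.e (nat_lit 65616) (nat_lit 10) .nil))))) .nil))) (.nd (nat_lit 5) 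
(.lf (nat_lit 255132) (.g (nat_lit 2830) (.e (nat_lit 164022) (nat_lit 46) (.e (nat_lit 704738) (nat_lit 11) (.e (nat_lit 16412) (nat_lit 2) (.e (nat_lit 196630) (nat_lit 9) (.e (nat_lit 1592) (nat_lit 111) .nil))))) .nil)) 
(.lf (nat_lit 255164) (.g (nat_lit 2359) (.e (nat_lit 164022) (nat_lit 46) (.e (nat_lit 704738) (nat_lit 11) (.e (nat_lit 16412) (nat_lit 2) (.e (nat_lit 196674) (nat_lit 15) (.e (nat_lit 81944) (nat_lit 20) .nil))))) .nil)))))) (.nd (nat_lit 2) (.nd (nat_lit 3) (.nd (nat_lit 4) (.nd (nat_lit 5) 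
(.lf (nat_lit 255106) (.g (nat_lit 3415) (.e (nat_lit 164022) (nat_lit 46) (.e (nat_lit 704738) (nat_lit 11) (.e (nat_lit 16411) (nat_lit 2) (.e (nat_lit 196672) (nat_lit 15) (.e (nat_lit 81946) (nat_lit 20) (.e (nat_lit 1858) (nat_lit 124) (.e (nat_lit 557094) (nat_lit 12) .nil))))))) (.g (nat_lit 6) .nil .nil))) 
(.lf (nat_lit 255138) (.g (nat_lit 2568) (.e (nat_lit 164022) (nat_lit 46) (.e (nat_lit 704738) (nat_lit 11) (.e (nat_lit 16412) (nat_lit 2) (.e (nat_lit 196634) (nat_lit 9) (.e (nat_lit 1587) (nat_lit 111) (.e (nat_lit 360474) (nat_lit 8) (.e (nat_lit 557094) (nat_lit 12) .nil))))))) (.g (nat_lit 4) .nil .nil)))) (.nd (nat_lit 5) 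
(.lf (nat_lit 255122) (.g (nat_lit 2722) (.e (nat_lit 164022) (nat_lit 46) (.e (nat_lit 704738) (nat_lit 11) (.e (nat_lit 16412) (nat_lit 2) (.e (nat_lit 196626) (nat_lit 9) (.e (nat_lit 1590) (nat_lit 111) (.e (nat_lit 360473) (nat_lit 8) (.e (nat_lit 557091) (nat_lit 12) .nil))))))) (.g (nat_lit 4) .nil .nil))) 
(.lf (nat_lit 255154) (.g (nat_lit 5080) (.e (nat_lit 164022) (nat_lit 46) (.e (nat_lit 704738) (nat_lit 11) (.e (nat_lit 16412) (nat_lit 2) (.e (nat_lit 196666) (nat_lit 13) (.e (nat_lit 65617) (nat_lit 10) (.e (nat_lit 344133) (nat_lit 26) (.e (nat_lit 557091) (nat_lit 12) .nil))))))) (.g (nat_lit 0) .nil .nil))))) (.nd (nat_lit 4) (.nd (nat_lit 5) 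
(.lf (nat_lit 255114) (.g (nat_lit 2756) (.e (nat_lit 164022) (nat_lit 46) (.e (nat_lit 704738) (nat_lit 11) (.e (nat_lit 16412) (nat_lit 2) (.e (nat_lit 196623) (nat_lit 9) (.e (nat_lit 1589) (nat_lit 111) (.e (nat_lit 360473) (nat_lit 8) (.e (nat_lit 557091) (nat_lit 12) .nil))))))) (.g (nat_lit 4) .nil .nil))) 
(.lf (nat_lit 255146) (.g (nat_lit 2192) (.e (nat_lit 164022) (nat_lit 46) (.e (nat_lit 704738) (nat_lit 11) (.e (nat_lit 16412) (nat_lit 2) (.e (nat_lit 196665) (nat_lit 13) (.e (nat_lit 65609) (nat_lit 10) .nil))))) .nil))) (.nd (nat_lit 5) 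
(.lf (nat_lit 255130) (.g (nat_lit 3340) (.e (nat_lit 164022) (nat_lit 46) (.e (nat_lit 704738) (nat_lit 11) (.e (nat_lit 16412) (nat_lit 2) (.e (nat_lit 196630) (nat_lit 9) (.e (nat_lit 1586) (nat_lit 111) (.e (nat_lit 360474) (nat_lit 8) (.e (nat_lit 557093) (nat_lit 12) .nil))))))) (.g (nat_lit 4) .nil .nil))) 
(.lf (nat_lit 255162) (.g (nat_lit 3985) (.e (nat_lit 164022) (nat_lit 46) (.e (nat_lit 704738) (nat_lit 11) (.e (nat_lit 16412) (nat_lit 2) (.e (nat_lit 196673) (nat_lit 15) (.e (nat_lit 81938) (nat_lit 20) (.e (nat_lit 1855) (nat_lit 124) (.e (nat_lit 557093) (nat_lit 12) .nil))))))) (.g (nat_lit 5) .nil .nil)))))) (.nd (nat_lit 3) (.nd (nat_lit 4) (.nd (nat_lit 5) 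
(.lf (nat_lit 255110) (.g (nat_lit 2736) (.e (nat_lit 164022) (nat_lit 46) (.e (nat_lit 704738) (nat_lit 11) (.e (nat_lit 16412) (nat_lit 2) (.e (nat_lit 196617) (nat_lit 9) (.e (nat_lit 1598) (nat_lit 111) (.e (nat_lit 360473) (nat_lit 8) (.e (nat_lit 557094) (nat_lit 12) .nil))))))) (.g (nat_lit 4) .nil .nil))) 
(.lf (nat_lit 255142) (.g (nat_lit 1512) (.e (nat_lit 164022) (nat_lit 46) (.e (nat_lit 704738) (nat_lit 11) (.e (nat_lit 16412) (nat_lit 2) (.e (nat_lit 196663) (nat_lit 13) .nil)))) .nil))) (.nd (nat_lit 5) 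
(.lf (nat_lit 255126) (.g (nat_lit 1505) (.e (nat_lit 164022) (nat_lit 46) (.e (nat_lit 704738) (nat_lit 11) (.e (nat_lit 16412) (nat_lit 2) (.e (nat_lit 196630) (nat_lit 9) .nil)))) .nil)) 
(.lf (nat_lit 255158) (.g (nat_lit 2493) (.e (nat_lit 164022) (nat_lit 46) (.e (nat_lit 704738) (nat_lit 11) (.e (nat_lit 16412) (nat_lit 2) (.e (nat_lit 196672) (nat_lit 15) (.e (nat_lit 81943) (nat_lit 20) (.e (nat_lit 1857) (nat_lit 124) (.e (nat_lit 557094) (nat_lit 12) .nil))))))) (.g (nat_lit 4) .nil .nil))))) (.nd (nat_lit 4) (.nd (nat_lit 5) 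
(.lf (nat_lit 255118) (.g (nat_lit 4680) (.e (nat_lit 164022) (nat_lit 46) (.e (nat_lit 704738) (nat_lit 11) (.e (nat_lit 16412) (nat_lit 2) (.e (nat_lit 196625) (nat_lit 9) (.e (nat_lit 1595) (nat_lit 111) (.e (nat_lit 360473) (nat_lit 8) (.e (nat_lit 557091) (nat_lit 12) .nil))))))) (.g (nat_lit 0) .nil .nil))) 
(.lf (nat_lit 255150) (.g (nat_lit 4257) (.e (nat_lit 164022) (nat_lit 46) (.e (nat_lit 704738) (nat_lit 11) (.e (nat_lit 16412) (nat_lit 2) (.e (nat_lit 196666) (nat_lit 13) (.e (nat_lit 65609) (nat_lit 10) (.e (nat_lit 344132) (nat_lit 26) (.e (nat_lit 557094) (nat_lit 12) .nil))))))) (.g (nat_lit 6) .nil .nil)))) (.nd (nat_lit 5) 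
(.lf (nat_lit 255134) (.g (nat_lit 2787) (.e (nat_lit 164022) (nat_lit 46) (.e (nat_lit 704738) (nat_lit 11) (.e (nat_lit 16412) (nat_lit 2) (.e (nat_lit 196630) (nat_lit 9) (.e (nat_lit 1596) (nat_lit 111) (.e (nat_lit 360473) (nat_lit 8) (.e (nat_lit 557094) (nat_lit 12) .nil))))))) (.g (nat_lit 4) .nil .nil))) 
(.lf (nat_lit 255166) (.g (nat_lit 6361) (.e (nat_lit 164022) (nat_lit 46) (.e (nat_lit 704738) (nat_lit 11) (.e (nat_lit 16412) (nat_lit 2) (.e (nat_lit 196674) (nat_lit 15) (.e (nat_lit 81946) (nat_lit 20) (.e (nat_lit 1858) (nat_lit 124) (.e (nat_lit 557093) (nat_lit 12) .nil))))))) (.g (nat_lit 0) .nil .nil)))))))) 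
(.nd (nat_lit 1) (.nd (nat_lit 2) (.nd (nat_lit 3) (.nd (nat_lit 4) (.nd (nat_lit 5) 
(.lf (nat_lit 255105) (.g (nat_lit 5158) (.e (nat_lit 164022) (nat_lit 46) (.e (nat_lit 704738) (nat_lit 11) (.e (nat_lit 16411) (nat_lit 2) (.e (nat_lit 196672) (nat_lit 15) (.e (nat_lit 81946) (nat_lit 20) (.e (nat_lit 1858) (nat_lit 124) (.e (nat_lit 557093) (nat_lit 12) .nil))))))) (.g (nat_lit 0) .nil .nil))) 
(.lf (nat_lit 255137) (.g (nat_lit 2438) (.e (nat_lit 164022) (nat_lit 46) (.e (nat_lit 704738) (nat_lit 11) (.e (nat_lit 16412) (nat_lit 2) (.e (nat_lit 196632) (nat_lit 9) (.e (nat_lit 1580) (nat_lit 111) .nil))))) .nil))) (.nd (nat_lit 5) 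
(.lf (nat_lit 255121) (.g (nat_lit 2815) (.e (nat_lit 164022) (nat_lit 46) (.e (nat_lit 704738) (nat_lit 11) (.e (nat_lit 16412) (nat_lit 2) (.e (nat_lit 196626) (nat_lit 9) (.e (nat_lit 1589) (nat_lit 111) (.e (nat_lit 360473) (nat_lit 8) (.e (nat_lit 557091) (nat_lit 12) .nil))))))) (.g (nat_lit 4) .nil .nil))) 
(.lf (nat_lit 255153) (.g (nat_lit 4613) (.e (nat_lit 164022) (nat_lit 46) (.e (nat_lit 704738) (nat_lit 11) (.e (nat_lit 16412) (nat_lit 2) (.e (nat_lit 196666) (nat_lit 13) (.e (nat_lit 65617) (nat_lit 10) (.e (nat_lit 344132) (nat_lit 26) (.e (nat_lit 557093) (nat_lit 12) .nil))))))) (.g (nat_lit 7) .nil .nil))))) (.nd (nat_lit 4) (.nd (nat_lit 5) 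
(.lf (nat_lit 255113) (.g (nat_lit 2403) (.e (nat_lit 164022) (nat_lit 46) (.e (nat_lit 704738) (nat_lit 11) (.e (nat_lit 16412) (nat_lit 2) (.e (nat_lit 196623) (nat_lit 9) (.e (nat_lit 1580) (nat_lit 111) .nil))))) .nil)) 
(.lf (nat_lit 255145) (.g (nat_lit 2577) (.e (nat_lit 164022) (nat_lit 46) (.e (nat_lit 704738) (nat_lit 11) (.e (nat_lit 16412) (nat_lit 2) (.e (nat_lit 196664) (nat_lit 13) (.e (nat_lit 65616) (nat_lit 10) (.e (nat_lit 344133) (nat_lit 26) (.e (nat_lit 557091) (nat_lit 12) .nil))))))) (.g (nat_lit 4) .nil .nil)))) (.nd (nat_lit 5) 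
(.lf (nat_lit 255129) (.g (nat_lit 3297) (.e (nat_lit 164022) (nat_lit 46) (.e (nat_lit 704738) (nat_lit 11) (.e (nat_lit 16412) (nat_lit 2) (.e (nat_lit 196630) (nat_lit 9) (.e (nat_lit 1580) (nat_lit 111) (.e (nat_lit 360473) (nat_lit 8) (.e (nat_lit 557094) (nat_lit 12) .nil))))))) (.g (nat_lit 4) .nil .nil))) 
(.lf (nat_lit 255161) (.g (nat_lit 2882) (.e (nat_lit 164022) (nat_lit 46) (.e (nat_lit 704738) (nat_lit 11) (.e (nat_lit 16412) (nat_lit 2) (.e (nat_lit 196672) (nat_lit 15) (.e (nat_lit 81947) (nat_lit 20) (.e (nat_lit 1858) (nat_lit 124) (.e (nat_lit 557093) (nat_lit 12) .nil))))))) (.g (nat_lit 4) .nil .nil)))))) (.nd (nat_lit 3) (.nd (nat_lit 4) (.nd (nat_lit 5) 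
(.lf (nat_lit 255109) (.g (nat_lit 2372) (.e (nat_lit 164022) (nat_lit 46) (.e (nat_lit 704738) (nat_lit 11) (.e (nat_lit 16412) (nat_lit 2) (.e (nat_lit 196617) (nat_lit 9) (.e (nat_lit 1580) (nat_lit 111) .nil))))) .nil)) 
(.lf (nat_lit 255141) (.g (nat_lit 2796) (.e (nat_lit 164022) (nat_lit 46) (.e (nat_lit 704738) (nat_lit 11) (.e (nat_lit 16412) (nat_lit 2) (.e (nat_lit 196642) (nat_lit 9) (.e (nat_lit 1587) (nat_lit 111) (.e (nat_lit 360474) (nat_lit 8) (.e (nat_lit 557094) (nat_lit 12) .nil))))))) (.g (nat_lit 4) .nil .nil)))) (.nd (nat_lit 5) 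
(.lf (nat_lit 255125) (.g (nat_lit 2574) (.e (nat_lit 164022) (nat_lit 46) (.e (nat_lit 704738) (nat_lit 11) (.e (nat_lit 16412) (nat_lit 2) (.e (nat_lit 196627) (nat_lit 9) (.e (nat_lit 1598) (nat_lit 111) (.e (nat_lit 360473) (nat_lit 8) (.e (nat_lit 557094) (nat_lit 12) .nil))))))) (.g (nat_lit 4) .nil .nil))) 
(.lf (nat_lit 255157) (.g (nat_lit 2473) (.e (nat_lit 164022) (nat_lit 46) (.e (nat_lit 704738) (nat_lit 11) (.e (nat_lit 16412) (nat_lit 2) (.e (nat_lit 196672) (nat_lit 15) (.e (nat_lit 81943) (nat_lit 20) (.e (nat_lit 1855) (nat_lit 124) (.e (nat_lit 557094) (nat_lit 12) .nil))))))) (.g (nat_lit 4) .nil .nil))))) (.nd (nat_lit 4) (.nd (nat_lit 5) 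
(.lf (nat_lit 255117) (.g (nat_lit 3169) (.e (nat_lit 164022) (nat_lit 46) (.e (nat_lit 704738) (nat_lit 11) (.e (nat_lit 16412) (nat_lit 2) (.e (nat_lit 196624) (nat_lit 9) (.e (nat_lit 7936) (nat_lit 111) (.e (nat_lit 360473) (nat_lit 8) (.e (nat_lit 557094) (nat_lit 12) .nil))))))) (.g (nat_lit 4) .nil .nil))) 
(.lf (nat_lit 255149) (.g (nat_lit 3389) (.e (nat_lit 164022) (nat_lit 46) (.e (nat_lit 704738) (nat_lit 11) (.e (nat_lit 16412) (nat_lit 2) (.e (nat_lit 196665) (nat_lit 13) (.e (nat_lit 65617) (nat_lit 10) (.e (nat_lit 344132) (nat_lit 26) (.e (nat_lit 557093) (nat_lit 12) .nil))))))) (.g (nat_lit 5) .nil .nil)))) (.nd (nat_lit 5) 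
(.lf (nat_lit 255133) (.g (nat_lit 2811) (.e (nat_lit 164022) (nat_lit 46) (.e (nat_lit 704738) (nat_lit 11) (.e (nat_lit 16412) (nat_lit 2) (.e (nat_lit 196630) (nat_lit 9) (.e (nat_lit 1596) (nat_lit 111) (.e (nat_lit 360473) (nat_lit 8) (.e (nat_lit 557093) (nat_lit 12) .nil))))))) (.g (nat_lit 4) .nil .nil))) 
(.lf (nat_lit 255165) (.g (nat_lit 1895) (.e (nat_lit 164022) (nat_lit 46) (.e (nat_lit 704738) (nat_lit 11) (.e (nat_lit 16412) (nat_lit 2) (.e (nat_lit 196674) (nat_lit 15) (.e (nat_lit 81946) (nat_lit 20) .nil))))) .nil)))))) (.nd (nat_lit 2) (.nd (nat_lit 3) (.nd (nat_lit 4) (.nd (nat_lit 5) 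
(.lf (nat_lit 255107) (.g (nat_lit 5217) (.e (nat_lit 164022) (nat_lit 46) (.e (nat_lit 704738) (nat_lit 11) (.e (nat_lit 16411) (nat_lit 2) (.e (nat_lit 196674) (nat_lit 15) (.e (nat_lit 81946) (nat_lit 20) (.e (nat_lit 1858) (nat_lit 124) (.e (nat_lit 557093) (nat_lit 12) .nil))))))) (.g (nat_lit 0) .nil .nil))) 
(.lf (nat_lit 255139) (.g (nat_lit 2744) (.e (nat_lit 164022) (nat_lit 46) (.e (nat_lit 704738) (nat_lit 11) (.e (nat_lit 16412) (nat_lit 2) (.e (nat_lit 196637) (nat_lit 9) (.e (nat_lit 1587) (nat_lit 111) (.e (nat_lit 360474) (nat_lit 8) (.e (nat_lit 557094) (nat_lit 12) .nil))))))) (.g (nat_lit 4) .nil .nil)))) (.nd (nat_lit 5) 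
(.lf (nat_lit 255123) (.g (nat_lit 2854) (.e (nat_lit 164022) (nat_lit 46) (.e (nat_lit 704738) (nat_lit 11) (.e (nat_lit 16412) (nat_lit 2) (.e (nat_lit 196626) (nat_lit 9) (.e (nat_lit 1599) (nat_lit 111) (.e (nat_lit 360474) (nat_lit 8) (.e (nat_lit 557094) (nat_lit 12) .nil))))))) (.g (nat_lit 4) .nil .nil))) 
(.lf (nat_lit 255155) (.g (nat_lit 2930) (.e (nat_lit 164022) (nat_lit 46) (.e (nat_lit 704738) (nat_lit 11) (.e (nat_lit 16412) (nat_lit 2) (.e (nat_lit 196671) (nat_lit 15) (.e (nat_lit 81946) (nat_lit 20) (.e (nat_lit 1858) (nat_lit 124) (.e (nat_lit 557093) (nat_lit 12) .nil))))))) (.g (nat_lit 4) .nil .nil))))) (.nd (nat_lit 4) (.nd (nat_lit 5) 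
(.lf (nat_lit 255115) (.g (nat_lit 2752) (.e (nat_lit 164022) (nat_lit 46) (.e (nat_lit 704738) (nat_lit 11) (.e (nat_lit 16412) (nat_lit 2) (.e (nat_lit 196623) (nat_lit 9) (.e (nat_lit 1598) (nat_lit 111) (.e (nat_lit 360473) (nat_lit 8) (.e (nat_lit 557094) (nat_lit 12) .nil))))))) (.g (nat_lit 4) .nil .nil))) 
(.lf (nat_lit 255147) (.g (nat_lit 2523) (.e (nat_lit 164022) (nat_lit 46) (.e (nat_lit 704738) (nat_lit 11) (.e (nat_lit 16412) (nat_lit 2) (.e (nat_lit 196665) (nat_lit 13) (.e (nat_lit 65609) (nat_lit 10) (.e (nat_lit 344132) (nat_lit 26) (.e (nat_lit 557093) (nat_lit 12) .nil))))))) (.g (nat_lit 4) .nil .nil)))) (.nd (nat_lit 5) 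
(.lf (nat_lit 255131) (.g (nat_lit 3177) (.e (nat_lit 164022) (nat_lit 46) (.e (nat_lit 704738) (nat_lit 11) (.e (nat_lit 16412) (nat_lit 2) (.e (nat_lit 196630) (nat_lit 9) (.e (nat_lit 1586) (nat_lit 111) (.e (nat_lit 360474) (nat_lit 8) (.e (nat_lit 557094) (nat_lit 12) .nil))))))) (.g (nat_lit 4) .nil .nil))) 
(.lf (nat_lit 255163) (.g (nat_lit 2795) (.e (nat_lit 164022) (nat_lit 46) (.e (nat_lit 704738) (nat_lit 11) (.e (nat_lit 16412) (nat_lit 2) (.e (nat_lit 196674) (nat_lit 15) (.e (nat_lit 81928) (nat_lit 20) (.e (nat_lit 1858) (nat_lit 124) (.e (nat_lit 557093) (nat_lit 12) .nil))))))) (.g (nat_lit 4) .nil .nil)))))) (.nd (nat_lit 3) (.nd (nat_lit 4) (.nd (nat_lit 5) 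
(.lf (nat_lit 255111) (.g (nat_lit 2372) (.e (nat_lit 164022) (nat_lit 46) (.e (nat_lit 704738) (nat_lit 11) (.e (nat_lit 16412) (nat_lit 2) (.e (nat_lit 196617) (nat_lit 9) (.e (nat_lit 1599) (nat_lit 111) .nil))))) .nil)) 
(.lf (nat_lit 255143) (.g (nat_lit 3835) (.e (nat_lit 164022) (nat_lit 46) (.e (nat_lit 704738) (nat_lit 11) (.e (nat_lit 16412) (nat_lit 2) (.e (nat_lit 196663) (nat_lit 13) (.e (nat_lit 65617) (nat_lit 10) (.e (nat_lit 344132) (nat_lit 26) (.e (nat_lit 557093) (nat_lit 12) .nil))))))) (.g (nat_lit 5) .nil .nil)))) (.nd (nat_lit 5) 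
(.lf (nat_lit 255127) (.g (nat_lit 2780) (.e (nat_lit 164022) (nat_lit 46) (.e (nat_lit 704738) (nat_lit 11) (.e (nat_lit 16412) (nat_lit 2) (.e (nat_lit 196630) (nat_lit 9) (.e (nat_lit 1580) (nat_lit 111) .nil))))) .nil)) 
(.lf (nat_lit 255159) (.g (nat_lit 2767) (.e (nat_lit 164022) (nat_lit 46) (.e (nat_lit 704738) (nat_lit 11) (.e (nat_lit 16412) (nat_lit 2) (.e (nat_lit 196672) (nat_lit 15) (.e (nat_lit 81944) (nat_lit 20) (.e (nat_lit 1855) (nat_lit 124) (.e (nat_lit 557093) (nat_lit 12) .nil))))))) (.g (nat_lit 4) .nil .nil))))) (.nd (nat_lit 4) (.nd (nat_lit 5) 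
(.lf (nat_lit 255119) (.g (nat_lit 2487) (.e (nat_lit 164022) (nat_lit 46) (.e (nat_lit 704738) (nat_lit 11) (.e (nat_lit 16412) (nat_lit 2) (.e (nat_lit 196625) (nat_lit 9) (.e (nat_lit 1598) (nat_lit 111) (.e (nat_lit 360473) (nat_lit 8) (.e (nat_lit 557091) (nat_lit 12) .nil))))))) (.g (nat_lit 4) .nil .nil))) 
(.lf (nat_lit 255151) (.g (nat_lit 4558) (.e (nat_lit 164022) (nat_lit 46) (.e (nat_lit 704738) (nat_lit 11) (.e (nat_lit 16412) (nat_lit 2) (.e (nat_lit 196666) (nat_lit 13) (.e (nat_lit 65610) (nat_lit 10) (.e (nat_lit 344131) (nat_lit 26) (.e (nat_lit 557094) (nat_lit 12) .nil))))))) (.g (nat_lit 6) .nil .nil)))) (.nd (nat_lit 5) 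
(.lf (nat_lit 255135) (.g (nat_lit 3017) (.e (nat_lit 164022) (nat_lit 46) (.e (nat_lit 704738) (nat_lit 11) (.e (nat_lit 16412) (nat_lit 2) (.e (nat_lit 196630) (nat_lit 9) (.e (nat_lit 1599) (nat_lit 111) (.e (nat_lit 360474) (nat_lit 8) (.e (nat_lit 557094) (nat_lit 12) .nil))))))) (.g (nat_lit 4) .nil .nil))) 
(.lf (nat_lit 255167) (.g (nat_lit 4747) (.e (nat_lit 164022) (nat_lit 46) (.e (nat_lit 704738) (nat_lit 11) (.e (nat_lit 16412) (nat_lit 2) (.e (nat_lit 196674) (nat_lit 15) (.e (nat_lit 81946) (nat_lit 20) (.e (nat_lit 1858) (nat_lit 124) (.e (nat_lit 557094) (nat_lit 12) .nil))))))) (.g (nat_lit 7) .nil .nil)))))))))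

noncomputable def tv3311 : DT := (.nd (nat_lit 0) (.nd (nat_lit 1) (.nd (nat_lit 2) (.nd (nat_lit 3) (.nd (nat_lit 4) (.nd (nat_lit 5) 
(.lf (nat_lit 255168) (.g (nat_lit 2625) (.e (nat_lit 164022) (nat_lit 46) (.e (nat_lit 704738) (nat_lit 11) (.e (nat_lit 16412) (nat_lit 2) (.e (nat_lit 196674) (nat_lit 15) (.e (nat_lit 81947) (nat_lit 20) .nil))))) .nil)) 
(.lf (nat_lit 255200) (.g (nat_lit 2798) (.e (nat_lit 164022) (nat_lit 46) (.e (nat_lit 704738) (nat_lit 11) (.e (nat_lit 16416) (nat_lit 3) (.e (nat_lit 204877) (nat_lit 31) .nil)))) .nil))) (.nd (nat_lit 5) 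
(.lf (nat_lit 255184) (.g (nat_lit 4054) (.e (nat_lit 164022) (nat_lit 46) (.e (nat_lit 704738) (nat_lit 11) (.e (nat_lit 16416) (nat_lit 3) (.e (nat_lit 204852) (nat_lit 26) (.e (nat_lit 336161) (nat_lit 10) (.e (nat_lit 344133) (nat_lit 26) (.e (nat_lit 557091) (nat_lit 12) .nil))))))) (.g (nat_lit 4) .nil .nil))) 
(.lf (nat_lit 255216) (.g (nat_lit 3227) (.e (nat_lit 164022) (nat_lit 46) (.e (nat_lit 704738) (nat_lit 11) (.e (nat_lit 16425) (nat_lit 7) (.e (nat_lit 409649) (nat_lit 18) (.e (nat_lit 303140) (nat_lit 10) (.e (nat_lit 434200) (nat_lit 18) (.e (nat_lit 5798) (nat_lit 320) (.e (nat_lit 2606) (nat_lit 163) .nil)))))))) (.g (nat_lit 4) .nil .nil))))) (.nd (nat_lit 4) (.nd (nat_lit 5) 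
(.lf (nat_lit 255176) (.g (nat_lit 5153) (.e (nat_lit 164022) (nat_lit 46) (.e (nat_lit 704738) (nat_lit 11) (.e (nat_lit 16415) (nat_lit 3) (.e (nat_lit 204869) (nat_lit 29) (.e (nat_lit 360475) (nat_lit 8) (.e (nat_lit 557091) (nat_lit 12) .nil)))))) (.g (nat_lit 0) .nil .nil))) 
(.lf (nat_lit 255208) (.g (nat_lit 3259) (.e (nat_lit 164022) (nat_lit 46) (.e (nat_lit 704738) (nat_lit 11) (.e (nat_lit 16425) (nat_lit 7) (.e (nat_lit 409648) (nat_lit 18) (.e (nat_lit 303137) (nat_lit 10) (.e (nat_lit 434201) (nat_lit 18) (.e (nat_lit 5922) (nat_lit 320) (.e (nat_lit 2601) (nat_lit 163) .nil)))))))) (.g (nat_lit 4) .nil .nil)))) (.nd (nat_lit 5) 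
(.lf (nat_lit 255192) (.g (nat_lit 2856) (.e (nat_lit 164022) (nat_lit 46) (.e (nat_lit 704738) (nat_lit 11) (.e (nat_lit 16416) (nat_lit 3) (.e (nat_lit 204857) (nat_lit 26) .nil)))) .nil)) 
(.lf (nat_lit 255224) (.g (nat_lit 3696) (.e (nat_lit 164022) (nat_lit 46) (.e (nat_lit 704738) (nat_lit 11) (.e (nat_lit 16425) (nat_lit 7) (.e (nat_lit 409649) (nat_lit 18) (.e (nat_lit 303140) (nat_lit 10) (.e (nat_lit 434202) (nat_lit 18) (.e (nat_lit 5796) (nat_lit 320) (.e (nat_lit 2603) (nat_lit 163) .nil)))))))) (.g (nat_lit 5) .nil .nil)))))) 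
(.nd (nat_lit 3) (.nd (nat_lit 4) (.nd (nat_lit 5) 
(.lf (nat_lit 255172) (.g (nat_lit 3665) (.e (nat_lit 164022) (nat_lit 46) (.e (nat_lit 704738) (nat_lit 11) (.e (nat_lit 16414) (nat_lit 3) (.e (nat_lit 204869) (nat_lit 29) (.e (nat_lit 360474) (nat_lit 8) (.e (nat_lit 557094) (nat_lit 12) .nil)))))) (.g (nat_lit 0) .nil .nil))) 
(.lf (nat_lit 255204) (.g (nat_lit 2295) (.e (nat_lit 164022) (nat_lit 46) (.e (nat_lit 704738) (nat_lit 11) (.e (nat_lit 16425) (nat_lit 7) (.e (nat_lit 409648) (nat_lit 18) (.e (nat_lit 303137) (nat_lit 10) .nil))))) .nil))) (.nd (nat_lit 5) 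
(.lf (nat_lit 255188) (.g (nat_lit 4134) (.e (nat_lit 164022) (nat_lit 46) (.e (nat_lit 704738) (nat_lit 11) (.e (nat_lit 16416) (nat_lit 3) (.e (nat_lit 204855) (nat_lit 26) (.e (nat_lit 336176) (nat_lit 10) (.e (nat_lit 344130) (nat_lit 26) (.e (nat_lit 557090) (nat_lit 12) .nil))))))) (.g (nat_lit 6) .nil .nil))) 
(.lf (nat_lit 255220) (.g (nat_lit 3764) (.e (nat_lit 164022) (nat_lit 46) (.e (nat_lit 704738) (nat_lit 11) (.e (nat_lit 16425) (nat_lit 7) (.e (nat_lit 409649) (nat_lit 18) (.e (nat_lit 303140) (nat_lit 10) (.e (nat_lit 434201) (nat_lit 18) (.e (nat_lit 5922) (nat_lit 320) (.e (nat_lit 2601) (nat_lit 163) .nil)))))))) (.g (nat_lit 5) .nil .nil))))) (.nd (nat_lit 4) (.nd (nat_lit 5) 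
(.lf (nat_lit 255180) (.g (nat_lit 3533) (.e (nat_lit 164022) (nat_lit 46) (.e (nat_lit 704738) (nat_lit 11) (.e (nat_lit 16416) (nat_lit 3) (.e (nat_lit 204852) (nat_lit 26) (.e (nat_lit 336160) (nat_lit 10) .nil))))) .nil)) 
(.lf (nat_lit 255212) (.g (nat_lit 3155) (.e (nat_lit 164022) (nat_lit 46) (.e (nat_lit 704738) (nat_lit 11) (.e (nat_lit 16425) (nat_lit 7) (.e (nat_lit 409648) (nat_lit 18) (.e (nat_lit 303138) (nat_lit 10) (.e (nat_lit 434203) (nat_lit 18) (.e (nat_lit 5799) (nat_lit 320) (.e (nat_lit 2612) (nat_lit 163) .nil)))))))) (.g (nat_lit 4) .nil .nil)))) (.nd (nat_lit 5) 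
(.lf (nat_lit 255196) (.g (nat_lit 4097) (.e (nat_lit 164022) (nat_lit 46) (.e (nat_lit 704738) (nat_lit 11) (.e (nat_lit 16416) (nat_lit 3) (.e (nat_lit 204868) (nat_lit 29) (.e (nat_lit 360473) (nat_lit 8) (.e (nat_lit 557091) (nat_lit 12) .nil)))))) (.g (nat_lit 0) .nil .nil))) 
(.lf (nat_lit 255228) (.g (nat_lit 2946) (.e (nat_lit 164022) (nat_lit 46) (.e (nat_lit 704738) (nat_lit 11) (.e (nat_lit 16425) (nat_lit 7) (.e (nat_lit 409649) (nat_lit 18) (.e (nat_lit 303140) (nat_lit 10) (.e (nat_lit 434202) (nat_lit 18) (.e (nat_lit 5797) (nat_lit 320) (.e (nat_lit 2602) (nat_lit 163) .nil)))))))) (.g (nat_lit 4) .nil .nil))))))) 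
(.nd (nat_lit 2) (.nd (nat_lit 3) (.nd (nat_lit 4) (.nd (nat_lit 5) 
(.lf (nat_lit 255170) (.g (nat_lit 3193) (.e (nat_lit 164022) (nat_lit 46) (.e (nat_lit 704738) (nat_lit 11) (.e (nat_lit 16412) (nat_lit 2) (.e (nat_lit 196674) (nat_lit 15) (.e (nat_lit 81947) (nat_lit 20) (.e (nat_lit 1859) (nat_lit 124) (.e (nat_lit 557093) (nat_lit 12) .nil))))))) (.g (nat_lit 4) .nil .nil))) 
(.lf (nat_lit 255202) (.g (nat_lit 2563) (.e (nat_lit 164022) (nat_lit 46) (.e (nat_lit 704738) (nat_lit 11) (.e (nat_lit 16425) (nat_lit 7) (.e (nat_lit 409648) (nat_lit 18) (.e (nat_lit 303135) (nat_lit 10) .nil))))) .nil))) (.nd (nat_lit 5) 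
(.lf (nat_lit 255186) (.g (nat_lit 3603) (.e (nat_lit 164022) (nat_lit 46) (.e (nat_lit 704738) (nat_lit 11) (.e (nat_lit 16416) (nat_lit 3) (.e (nat_lit 204852) (nat_lit 26) (.e (nat_lit 343808) (nat_lit 10) .nil))))) .nil)) 
(.lf (nat_lit 255218) (.g (nat_lit 3099) (.e (nat_lit 164022) (nat_lit 46) (.e (nat_lit 704738) (nat_lit 11) (.e (nat_lit 16425) (nat_lit 7) (.e (nat_lit 409649) (nat_lit 18) (.e (nat_lit 303140) (nat_lit 10) (.e (nat_lit 434200) (nat_lit 18) (.e (nat_lit 5812) (nat_lit 320) (.e (nat_lit 2603) (nat_lit 163) .nil)))))))) (.g (nat_lit 4) .nil .nil))))) (.nd (nat_lit 4) (.nd (nat_lit 5) 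
(.lf (nat_lit 255178) (.g (nat_lit 3135) (.e (nat_lit 164022) (nat_lit 46) (.e (nat_lit 704738) (nat_lit 11) (.e (nat_lit 16416) (nat_lit 3) (.e (nat_lit 204850) (nat_lit 26) (.e (nat_lit 336176) (nat_lit 10) .nil))))) .nil)) 
(.lf (nat_lit 255210) (.g (nat_lit 3430) (.e (nat_lit 164022) (nat_lit 46) (.e (nat_lit 704738) (nat_lit 11) (.e (nat_lit 16425) (nat_lit 7) (.e (nat_lit 409648) (nat_lit 18) (.e (nat_lit 303137) (nat_lit 10) (.e (nat_lit 434281) (nat_lit 40) (.e (nat_lit 671782) (nat_lit 12) .nil))))))) (.g (nat_lit 5) .nil .nil)))) (.nd (nat_lit 5) 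
(.lf (nat_lit 255194) (.g (nat_lit 3077) (.e (nat_lit 164022) (nat_lit 46) (.e (nat_lit 704738) (nat_lit 11) (.e (nat_lit 16416) (nat_lit 3) (.e (nat_lit 204861) (nat_lit 26) (.e (nat_lit 336186) (nat_lit 11) (.e (nat_lit 368681) (nat_lit 26) (.e (nat_lit 557092) (nat_lit 12) .nil))))))) (.g (nat_lit 4) .nil .nil))) 
(.lf (nat_lit 255226) (.g (nat_lit 3765) (.e (nat_lit 164022) (nat_lit 46) (.e (nat_lit 704738) (nat_lit 11) (.e (nat_lit 16425) (nat_lit 7) (.e (nat_lit 409649) (nat_lit 18) (.e (nat_lit 303140) (nat_lit 10) (.e (nat_lit 434202) (nat_lit 18) (.e (nat_lit 5796) (nat_lit 320) (.e (nat_lit 2605) (nat_lit 163) .nil)))))))) (.g (nat_lit 5) .nil .nil)))))) 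
(.nd (nat_lit 3) (.nd (nat_lit 4) (.nd (nat_lit 5) 
(.lf (nat_lit 255174) (.g (nat_lit 2616) (.e (nat_lit 164022) (nat_lit 46) (.e (nat_lit 704738) (nat_lit 11) (.e (nat_lit 16415) (nat_lit 3) (.e (nat_lit 204868) (nat_lit 29) (.e (nat_lit 360474) (nat_lit 8) (.e (nat_lit 557093) (nat_lit 12) .nil)))))) (.g (nat_lit 4) .nil .nil))) 
(.lf (nat_lit 255206) (.g (nat_lit 3174) (.e (nat_lit 164022) (nat_lit 46) (.e (nat_lit 704738) (nat_lit 11) (.e (nat_lit 16425) (nat_lit 7) (.e (nat_lit 409648) (nat_lit 18) (.e (nat_lit 303137) (nat_lit 10) (.e (nat_lit 434200) (nat_lit 18) (.e (nat_lit 5798) (nat_lit 320) (.e (nat_lit 2604) (nat_lit 163) .nil)))))))) (.g (nat_lit 4) .nil .nil)))) (.nd (nat_lit 5) 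
(.lf (nat_lit 255190) (.g (nat_lit 3221) (.e (nat_lit 164022) (nat_lit 46) (.e (nat_lit 704738) (nat_lit 11) (.e (nat_lit 16416) (nat_lit 3) (.e (nat_lit 204855) (nat_lit 26) (.e (nat_lit 336176) (nat_lit 10) (.e (nat_lit 344132) (nat_lit 26) (.e (nat_lit 557094) (nat_lit 12) .nil))))))) (.g (nat_lit 5) .nil .nil))) 
(.lf (nat_lit 255222) (.g (nat_lit 3776) (.e (nat_lit 164022) (nat_lit 46) (.e (nat_lit 704738) (nat_lit 11) (.e (nat_lit 16425) (nat_lit 7) (.e (nat_lit 409649) (nat_lit 18) (.e (nat_lit 303140) (nat_lit 10) (.e (nat_lit 434202) (nat_lit 18) (.e (nat_lit 5796) (nat_lit 320) (.e (nat_lit 2598) (nat_lit 163) .nil)))))))) (.g (nat_lit 5) .nil .nil))))) (.nd (nat_lit 4) (.nd (nat_lit 5) 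
(.lf (nat_lit 255182) (.g (nat_lit 4087) (.e (nat_lit 164022) (nat_lit 46) (.e (nat_lit 704738) (nat_lit 11) (.e (nat_lit 16416) (nat_lit 3) (.e (nat_lit 204852) (nat_lit 26) (.e (nat_lit 336160) (nat_lit 10) (.e (nat_lit 344132) (nat_lit 26) (.e (nat_lit 557094) (nat_lit 12) .nil))))))) (.g (nat_lit 4) .nil .nil))) 
(.lf (nat_lit 255214) (.g (nat_lit 2861) (.e (nat_lit 164022) (nat_lit 46) (.e (nat_lit 704738) (nat_lit 11) (.e (nat_lit 16425) (nat_lit 7) (.e (nat_lit 409649) (nat_lit 18) (.e (nat_lit 303140) (nat_lit 10) (.e (nat_lit 434200) (nat_lit 18) (.e (nat_lit 5798) (nat_lit 320) (.e (nat_lit 2602) (nat_lit 163) .nil)))))))) (.g (nat_lit 4) .nil .nil)))) (.nd (nat_lit 5) 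
(.lf (nat_lit 255198) (.g (nat_lit 5365) (.e (nat_lit 164022) (nat_lit 46) (.e (nat_lit 704738) (nat_lit 11) (.e (nat_lit 16416) (nat_lit 3) (.e (nat_lit 204869) (nat_lit 29) (.e (nat_lit 360475) (nat_lit 8) (.e (nat_lit 557091) (nat_lit 12) .nil)))))) (.g (nat_lit 0) .nil .nil))) 
(.lf (nat_lit 255230) (.g (nat_lit 3157) (.e (nat_lit 164022) (nat_lit 46) (.e (nat_lit 704738) (nat_lit 11) (.e (nat_lit 16425) (nat_lit 7) (.e (nat_lit 409649) (nat_lit 18) (.e (nat_lit 303140) (nat_lit 10) (.e (nat_lit 434202) (nat_lit 18) (.e (nat_lit 5797) (nat_lit 320) (.e (nat_lit 2606) (nat_lit 163) .nil)))))))) (.g (nat_lit 4) .nil .nil)))))))) 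
(.nd (nat_lit 1) (.nd (nat_lit 2) (.nd (nat_lit 3) (.nd (nat_lit 4) (.nd (nat_lit 5) 
(.lf (nat_lit 255169) (.g (nat_lit 3690) (.e (nat_lit 164022) (nat_lit 46) (.e (nat_lit 704738) (nat_lit 11) (.e (nat_lit 16412) (nat_lit 2) (.e (nat_lit 196674) (nat_lit 15) (.e (nat_lit 81947) (nat_lit 20) (.e (nat_lit 1855) (nat_lit 124) (.e (nat_lit 557093) (nat_lit 12) .nil))))))) (.g (nat_lit 4) .nil .nil))) 
(.lf (nat_lit 255201) (.g (nat_lit 3389) (.e (nat_lit 164022) (nat_lit 46) (.e (nat_lit 704738) (nat_lit 11) (.e (nat_lit 16416) (nat_lit 3) (.e (nat_lit 204877) (nat_lit 31) (.e (nat_lit 376855) (nat_lit 20) .nil))))) .nil))) (.nd (nat_lit 5) 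
(.lf (nat_lit 255185) (.g (nat_lit 4128) (.e (nat_lit 164022) (nat_lit 46) (.e (nat_lit 704738) (nat_lit 11) (.e (nat_lit 16416) (nat_lit 3) (.e (nat_lit 204852) (nat_lit 26) (.e (nat_lit 336162) (nat_lit 10) (.e (nat_lit 344132) (nat_lit 26) (.e (nat_lit 557093) (nat_lit 12) .nil))))))) (.g (nat_lit 4) .nil .nil))) 
(.lf (nat_lit 255217) (.g (nat_lit 2965) (.e (nat_lit 164022) (nat_lit 46) (.e (nat_lit 704738) (nat_lit 11) (.e (nat_lit 16425) (nat_lit 7) (.e (nat_lit 409649) (nat_lit 18) (.e (nat_lit 303140) (nat_lit 10) (.e (nat_lit 434200) (nat_lit 18) (.e (nat_lit 5812) (nat_lit 320) (.e (nat_lit 2602) (nat_lit 163) .nil)))))))) (.g (nat_lit 4) .nil .nil))))) (.nd (nat_lit 4) (.nd (nat_lit 5) 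
(.lf (nat_lit 255177) (.g (nat_lit 3111) (.e (nat_lit 164022) (nat_lit 46) (.e (nat_lit 704738) (nat_lit 11) (.e (nat_lit 16416) (nat_lit 3) (.e (nat_lit 204850) (nat_lit 26) (.e (nat_lit 336172) (nat_lit 10) .nil))))) .nil)) 
(.lf (nat_lit 255209) (.g (nat_lit 2861) (.e (nat_lit 164022) (nat_lit 46) (.e (nat_lit 704738) (nat_lit 11) (.e (nat_lit 16425) (nat_lit 7) (.e (nat_lit 409648) (nat_lit 18) (.e (nat_lit 303137) (nat_lit 10) (.e (nat_lit 434276) (nat_lit 39) (.e (nat_lit 663585) (nat_lit 12) .nil))))))) (.g (nat_lit 4) .nil .nil)))) (.nd (nat_lit 5) 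
(.lf (nat_lit 255193) (.g (nat_lit 2434) (.e (nat_lit 164022) (nat_lit 46) (.e (nat_lit 704738) (nat_lit 11) (.e (nat_lit 16416) (nat_lit 3) (.e (nat_lit 204858) (nat_lit 26) .nil)))) .nil)) 
(.lf (nat_lit 255225) (.g (nat_lit 3831) (.e (nat_lit 164022) (nat_lit 46) (.e (nat_lit 704738) (nat_lit 11) (.e (nat_lit 16425) (nat_lit 7) (.e (nat_lit 409649) (nat_lit 18) (.e (nat_lit 303140) (nat_lit 10) (.e (nat_lit 434202) (nat_lit 18) (.e (nat_lit 5796) (nat_lit 320) (.e (nat_lit 2604) (nat_lit 163) .nil)))))))) (.g (nat_lit 5) .nil .nil)))))) 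
(.nd (nat_lit 3) (.nd (nat_lit 4) (.nd (nat_lit 5) 
(.lf (nat_lit 255173) (.g (nat_lit 3972) (.e (nat_lit 164022) (nat_lit 46) (.e (nat_lit 704738) (nat_lit 11) (.e (nat_lit 16415) (nat_lit 3) (.e (nat_lit 204868) (nat_lit 29) (.e (nat_lit 360473) (nat_lit 8) (.e (nat_lit 557091) (nat_lit 12) .nil)))))) (.g (nat_lit 0) .nil .nil))) 
(.lf (nat_lit 255205) (.g (nat_lit 3189) (.e (nat_lit 164022) (nat_lit 46) (.e (nat_lit 704738) (nat_lit 11) (.e (nat_lit 16425) (nat_lit 7) (.e (nat_lit 409648) (nat_lit 18) (.e (nat_lit 303137) (nat_lit 10) (.e (nat_lit 434200) (nat_lit 18) (.e (nat_lit 5796) (nat_lit 320) (.e (nat_lit 2612) (nat_lit 163) .nil)))))))) (.g (nat_lit 4) .nil .nil)))) (.nd (nat_lit 5) 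
(.lf (nat_lit 255189) (.g (nat_lit 3417) (.e (nat_lit 164022) (nat_lit 46) (.e (nat_lit 704738) (nat_lit 11) (.e (nat_lit 16416) (nat_lit 3) (.e (nat_lit 204855) (nat_lit 26) (.e (nat_lit 336176) (nat_lit 10) (.e (nat_lit 344132) (nat_lit 26) (.e (nat_lit 557093) (nat_lit 12) .nil))))))) (.g (nat_lit 5) .nil .nil))) 
(.lf (nat_lit 255221) (.g (nat_lit 3812) (.e (nat_lit 164022) (nat_lit 46) (.e (nat_lit 704738) (nat_lit 11) (.e (nat_lit 16425) (nat_lit 7) (.e (nat_lit 409649) (nat_lit 18) (.e (nat_lit 303140) (nat_lit 10) (.e (nat_lit 434201) (nat_lit 18) (.e (nat_lit 5922) (nat_lit 320) (.e (nat_lit 2611) (nat_lit 163) .nil)))))))) (.g (nat_lit 5) .nil .nil))))) (.nd (nat_lit 4) (.nd (nat_lit 5) 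
(.lf (nat_lit 255181) (.g (nat_lit 4466) (.e (nat_lit 164022) (nat_lit 46) (.e (nat_lit 704738) (nat_lit 11) (.e (nat_lit 16416) (nat_lit 3) (.e (nat_lit 204852) (nat_lit 26) (.e (nat_lit 336160) (nat_lit 10) (.e (nat_lit 344132) (nat_lit 26) (.e (nat_lit 557093) (nat_lit 12) .nil))))))) (.g (nat_lit 4) .nil .nil))) 
(.lf (nat_lit 255213) (.g (nat_lit 3505) (.e (nat_lit 164022) (nat_lit 46) (.e (nat_lit 704738) (nat_lit 11) (.e (nat_lit 16425) (nat_lit 7) (.e (nat_lit 409649) (nat_lit 18) (.e (nat_lit 303132) (nat_lit 9) (.e (nat_lit 426109) (nat_lit 1) (.e (nat_lit 164389) (nat_lit 254) (.e (nat_lit 2598) (nat_lit 163) .nil)))))))) (.g (nat_lit 4) .nil .nil)))) (.nd (nat_lit 5) 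
(.lf (nat_lit 255197) (.g (nat_lit 3498) (.e (nat_lit 164022) (nat_lit 46) (.e (nat_lit 704738) (nat_lit 11) (.e (nat_lit 16416) (nat_lit 3) (.e (nat_lit 204868) (nat_lit 29) (.e (nat_lit 360473) (nat_lit 8) (.e (nat_lit 557094) (nat_lit 12) .nil)))))) (.g (nat_lit 0) .nil .nil))) 
(.lf (nat_lit 255229) (.g (nat_lit 3165) (.e (nat_lit 164022) (nat_lit 46) (.e (nat_lit 704738) (nat_lit 11) (.e (nat_lit 16425) (nat_lit 7) (.e (nat_lit 409649) (nat_lit 18) (.e (nat_lit 303140) (nat_lit 10) (.e (nat_lit 434202) (nat_lit 18) (.e (nat_lit 5797) (nat_lit 320) (.e (nat_lit 2603) (nat_lit 163) .nil)))))))) (.g (nat_lit 4) .nil .nil))))))) 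
(.nd (nat_lit 2) (.nd (nat_lit 3) (.nd (nat_lit 4) (.nd (nat_lit 5) 
(.lf (nat_lit 255171) (.g (nat_lit 3372) (.e (nat_lit 164022) (nat_lit 46) (.e (nat_lit 704738) (nat_lit 11) (.e (nat_lit 16414) (nat_lit 3) (.e (nat_lit 204868) (nat_lit 29) (.e (nat_lit 360473) (nat_lit 8) (.e (nat_lit 557091) (nat_lit 12) .nil)))))) (.g (nat_lit 0) .nil .nil))) 
(.lf (nat_lit 255203) (.g (nat_lit 1929) (.e (nat_lit 164022) (nat_lit 46) (.e (nat_lit 704738) (nat_lit 11) (.e (nat_lit 16425) (nat_lit 7) (.e (nat_lit 409648) (nat_lit 18) (.e (nat_lit 303136) (nat_lit 10) .nil))))) .nil))) (.nd (nat_lit 5) 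
(.lf (nat_lit 255187) (.g (nat_lit 4136) (.e (nat_lit 164022) (nat_lit 46) (.e (nat_lit 704738) (nat_lit 11) (.e (nat_lit 16416) (nat_lit 3) (.e (nat_lit 204854) (nat_lit 26) (.e (nat_lit 336160) (nat_lit 10) .nil))))) .nil)) 
(.lf (nat_lit 255219) (.g (nat_lit 3173) (.e (nat_lit 164022) (nat_lit 46) (.e (nat_lit 704738) (nat_lit 11) (.e (nat_lit 16425) (nat_lit 7) (.e (nat_lit 409649) (nat_lit 18) (.e (nat_lit 303140) (nat_lit 10) (.e (nat_lit 434200) (nat_lit 18) (.e (nat_lit 5812) (nat_lit 320) (.e (nat_lit 2604) (nat_lit 163) .nil)))))))) (.g (nat_lit 4) .nil .nil))))) (.nd (nat_lit 4) (.nd (nat_lit 5) 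
(.lf (nat_lit 255179) (.g (nat_lit 2859) (.e (nat_lit 164022) (nat_lit 46) (.e (nat_lit 704738) (nat_lit 11) (.e (nat_lit 16416) (nat_lit 3) (.e (nat_lit 204851) (nat_lit 26) .nil)))) .nil)) 
(.lf (nat_lit 255211) (.g (nat_lit 2236) (.e (nat_lit 164022) (nat_lit 46) (.e (nat_lit 704738) (nat_lit 11) (.e (nat_lit 16425) (nat_lit 7) (.e (nat_lit 409648) (nat_lit 18) (.e (nat_lit 303138) (nat_lit 10) .nil))))) .nil))) (.nd (nat_lit 5) 
(.lf (nat_lit 255195) (.g (nat_lit 2883) (.e (nat_lit 164022) (nat_lit 46) (.e (nat_lit 704738) (nat_lit 11) (.e (nat_lit 16416) (nat_lit 3) (.e (nat_lit 204866) (nat_lit 28) .nil)))) .nil)) 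
(.lf (nat_lit 255227) (.g (nat_lit 3875) (.e (nat_lit 164022) (nat_lit 46) (.e (nat_lit 704738) (nat_lit 11) (.e (nat_lit 16425) (nat_lit 7) (.e (nat_lit 409649) (nat_lit 18) (.e (nat_lit 303140) (nat_lit 10) (.e (nat_lit 434202) (nat_lit 18) (.e (nat_lit 5796) (nat_lit 320) (.e (nat_lit 2606) (nat_lit 163) .nil)))))))) (.g (nat_lit 5) .nil .nil)))))) 
(.nd (nat_lit 3) (.nd (nat_lit 4) (.nd (nat_lit 5) 
(.lf (nat_lit 255175) (.g (nat_lit 2286) (.e (nat_lit 164022) (nat_lit 46) (.e (nat_lit 704738) (nat_lit 11) (.e (nat_lit 16415) (nat_lit 3) (.e (nat_lit 204868) (nat_lit 29) (.e (nat_lit 360474) (nat_lit 8) (.e (nat_lit 557094) (nat_lit 12) .nil)))))) (.g (nat_lit 4) .nil .nil))) 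
(.lf (nat_lit 255207) (.g (nat_lit 3084) (.e (nat_lit 164022) (nat_lit 46) (.e (nat_lit 704738) (nat_lit 11) (.e (nat_lit 16425) (nat_lit 7) (.e (nat_lit 409648) (nat_lit 18) (.e (nat_lit 303137) (nat_lit 10) (.e (nat_lit 434200) (nat_lit 18) (.e (nat_lit 5812) (nat_lit 320) (.e (nat_lit 2604) (nat_lit 163) .nil)))))))) (.g (nat_lit 4) .nil .nil)))) (.nd (nat_lit 5) 
(.lf (nat_lit 255191) (.g (nat_lit 2856) (.e (nat_lit 164022) (nat_lit 46) (.e (nat_lit 704738) (nat_lit 11) (.e (nat_lit 16416) (nat_lit 3) (.e (nat_lit 204856) (nat_lit 26) .nil)))) .nil)) 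
(.lf (nat_lit 255223) (.g (nat_lit 3467) (.e (nat_lit 164022) (nat_lit 46) (.e (nat_lit 704738) (nat_lit 11) (.e (nat_lit 16425) (nat_lit 7) (.e (nat_lit 409649) (nat_lit 18) (.e (nat_lit 303140) (nat_lit 10) (.e (nat_lit 434202) (nat_lit 18) (.e (nat_lit 5796) (nat_lit 320) (.e (nat_lit 2602) (nat_lit 163) .nil)))))))) (.g (nat_lit 5) .nil .nil))))) (.nd (nat_lit 4) (.nd (nat_lit 5) 
(.lf (nat_lit 255183) (.g (nat_lit 4100) (.e (nat_lit 164022) (nat_lit 46) (.e (nat_lit 704738) (nat_lit 11) (.e (nat_lit 16416) (nat_lit 3) (.e (nat_lit 204852) (nat_lit 26) (.e (nat_lit 336161) (nat_lit 10) (.e (nat_lit 344132) (nat_lit 26) (.e (nat_lit 557093) (nat_lit 12) .nil))))))) (.g (nat_lit 4) .nil .nil))) 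
(.lf (nat_lit 255215) (.g (nat_lit 3070) (.e (nat_lit 164022) (nat_lit 46) (.e (nat_lit 704738) (nat_lit 11) (.e (nat_lit 16425) (nat_lit 7) (.e (nat_lit 409649) (nat_lit 18) (.e (nat_lit 303140) (nat_lit 10) (.e (nat_lit 434200) (nat_lit 18) (.e (nat_lit 5798) (nat_lit 320) (.e (nat_lit 2603) (nat_lit 163) .nil)))))))) (.g (nat_lit 4) .nil .nil)))) (.nd (nat_lit 5) 
(.lf (nat_lit 255199) (.g (nat_lit 2948) (.e (nat_lit 164022) (nat_lit 46) (.e (nat_lit 704738) (nat_lit 11) (.e (nat_lit 16416) (nat_lit 3) (.e (nat_lit 204876) (nat_lit 31) .nil)))) .nil)) 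
(.lf (nat_lit 255231) (.g (nat_lit 2956) (.e (nat_lit 164022) (nat_lit 46) (.e (nat_lit 704738) (nat_lit 11) (.e (nat_lit 16425) (nat_lit 7) (.e (nat_lit 409649) (nat_lit 18) (.e (nat_lit 303140) (nat_lit 10) (.e (nat_lit 434202) (nat_lit 18) (.e (nat_lit 5798) (nat_lit 320) (.e (nat_lit 2602) (nat_lit 163) .nil)))))))) (.g (nat_lit 4) .nil .nil)))))))))

noncomputable def tv3312 : DT := (.nd (nat_lit 0) (.nd (nat_lit 1) (.nd (nat_lit 2) (.nd (nat_lit 3) (.nd (nat_lit 4) (.nd (nat_lit 5) (.nd (nat_lit 6) 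
(.lf (nat_lit 255232) (.g (nat_lit 3165) (.e (nat_lit 164022) (nat_lit 46) (.e (nat_lit 704738) (nat_lit 11) (.e (nat_lit 16425) (nat_lit 7) (.e (nat_lit 409649) (nat_lit 18) (.e (nat_lit 303140) (nat_lit 10) (.e (nat_lit 434202) (nat_lit 18) (.e (nat_lit 5798) (nat_lit 320) (.e (nat_lit 2603) (nat_lit 163) .nil)))))))) (.g (nat_lit 4) .nil .nil))) 
(.lf (nat_lit 255296) (.g (nat_lit 1153) (.e (nat_lit 171776) (nat_lit 48) (.e (nat_lit 720941) (nat_lit 22) (.e (nat_lit 90172) (nat_lit 14) (.e (nat_lit 180239) (nat_lit 1) (.e (nat_lit 499846) (nat_lit 5) .nil))))) .nil))) (.nd (nat_lit 6) 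
(.lf (nat_lit 255264) (.g (nat_lit 2846) (.e (nat_lit 164023) (nat_lit 46) (.e (nat_lit 704737) (nat_lit 11) (.e (nat_lit 16412) (nat_lit 2) (.e (nat_lit 196672) (nat_lit 15) (.e (nat_lit 81928) (nat_lit 20) (.e (nat_lit 1855) (nat_lit 124) (.e (nat_lit 557093) (nat_lit 12) .nil))))))) (.g (nat_lit 4) .nil .nil))) 
(.lf (nat_lit 255328) (.g (nat_lit 3407) (.e (nat_lit 164034) (nat_lit 54) (.e (nat_lit 770068) (nat_lit 7) (.e (nat_lit 57480) (nat_lit 28) (.e (nat_lit 557109) (nat_lit 15) (.e (nat_lit 188421) (nat_lit 11) (.e (nat_lit 336049) (nat_lit 6) (.e (nat_lit 147500) (nat_lit 12) .nil))))))) (.g (nat_lit 5) .nil .nil))))) (.nd (nat_lit 5) (.nd (nat_lit 6) 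
(.lf (nat_lit 255248) (.g (nat_lit 3489) (.e (nat_lit 164022) (nat_lit 46) (.e (nat_lit 704738) (nat_lit 11) (.e (nat_lit 16425) (nat_lit 7) (.e (nat_lit 409649) (nat_lit 18) (.e (nat_lit 303140) (nat_lit 10) (.e (nat_lit 434275) (nat_lit 39) (.e (nat_lit 671488) (nat_lit 12) .nil))))))) (.g (nat_lit 5) .nil .nil))) 
(.lf (nat_lit 255312) (.g (nat_lit 699) (.e (nat_lit 164032) (nat_lit 54) (.e (nat_lit 770072) (nat_lit 8) (.e (nat_lit 65582) (nat_lit 7) .nil))) .nil))) (.nd (nat_lit 6) 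
(.lf (nat_lit 255280) (.g (nat_lit 3833) (.e (nat_lit 164023) (nat_lit 46) (.e (nat_lit 704738) (nat_lit 11) (.e (nat_lit 16416) (nat_lit 3) (.e (nat_lit 204869) (nat_lit 29) (.e (nat_lit 360473) (nat_lit 8) (.e (nat_lit 557093) (nat_lit 12) .nil)))))) (.g (nat_lit 4) .nil .nil))) 
(.lf (nat_lit 255344) (.g (nat_lit 1893) (.e (nat_lit 164034) (nat_lit 54) (.e (nat_lit 770072) (nat_lit 8) (.e (nat_lit 65586) (nat_lit 7) (.e (nat_lit 319531) (nat_lit 16) (.e (nat_lit 286748) (nat_lit 9) (.e (nat_lit 336295) (nat_lit 15) (.e (nat_lit 3629) (nat_lit 227) (.e (nat_lit 778486) (nat_lit 12) .nil)))))))) (.g (nat_lit 4) .nil .nil)))))) 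
(.nd (nat_lit 4) (.nd (nat_lit 5) (.nd (nat_lit 6) 
(.lf (nat_lit 255240) (.g (nat_lit 3152) (.e (nat_lit 164022) (nat_lit 46) (.e (nat_lit 704738) (nat_lit 11) (.e (nat_lit 16425) (nat_lit 7) (.e (nat_lit 409649) (nat_lit 18) (.e (nat_lit 303140) (nat_lit 10) (.e (nat_lit 434202) (nat_lit 18) (.e (nat_lit 5833) (nat_lit 320) (.e (nat_lit 2605) (nat_lit 163) .nil)))))))) (.g (nat_lit 4) .nil .nil))) 
(.lf (nat_lit 255304) (.g (nat_lit 1950) (.e (nat_lit 164030) (nat_lit 53) (.e (nat_lit 761905) (nat_lit 16) (.e (nat_lit 179968) (nat_lit 34) (.e (nat_lit 393273) (nat_lit 23) (.e (nat_lit 426402) (nat_lit 15) (.e (nat_lit 1855) (nat_lit 124) (.e (nat_lit 557094) (nat_lit 12) .nil))))))) (.g (nat_lit 5) .nil .nil)))) (.nd (nat_lit 6) 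
(.lf (nat_lit 255272) (.g (nat_lit 3539) (.e (nat_lit 164023) (nat_lit 46) (.e (nat_lit 704738) (nat_lit 11) (.e (nat_lit 16412) (nat_lit 2) (.e (nat_lit 196666) (nat_lit 13) (.e (nat_lit 65614) (nat_lit 10) .nil))))) .nil)) 
(.lf (nat_lit 255336) (.g (nat_lit 3161) (.e (nat_lit 164034) (nat_lit 54) (.e (nat_lit 770071) (nat_lit 8) (.e (nat_lit 65586) (nat_lit 7) (.e (nat_lit 319531) (nat_lit 16) (.e (nat_lit 286748) (nat_lit 9) (.e (nat_lit 336295) (nat_lit 15) (.e (nat_lit 3630) (nat_lit 227) (.e (nat_lit 778485) (nat_lit 12) .nil)))))))) (.g (nat_lit 6) .nil .nil))))) (.nd (nat_lit 5) (.nd (nat_lit 6) 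
(.lf (nat_lit 255256) (.g (nat_lit 1242) (.e (nat_lit 164023) (nat_lit 46) (.e (nat_lit 704737) (nat_lit 11) (.e (nat_lit 16388) (nat_lit 0) (.e (nat_lit 3257) (nat_lit 198) .nil)))) .nil)) 
(.lf (nat_lit 255320) (.g (nat_lit 1860) (.e (nat_lit 164032) (nat_lit 54) (.e (nat_lit 770072) (nat_lit 8) (.e (nat_lit 65586) (nat_lit 7) (.e (nat_lit 319531) (nat_lit 16) (.e (nat_lit 286759) (nat_lit 12) (.e (nat_lit 385094) (nat_lit 49) (.e (nat_lit 786176) (nat_lit 12) .nil))))))) (.g (nat_lit 4) .nil .nil)))) (.nd (nat_lit 6) 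
(.lf (nat_lit 255288) (.g (nat_lit 3478) (.e (nat_lit 164023) (nat_lit 46) (.e (nat_lit 704738) (nat_lit 11) (.e (nat_lit 16425) (nat_lit 7) (.e (nat_lit 409648) (nat_lit 18) (.e (nat_lit 303137) (nat_lit 10) (.e (nat_lit 434281) (nat_lit 40) (.e (nat_lit 671782) (nat_lit 12) .nil))))))) (.g (nat_lit 4) .nil .nil))) 
(.lf (nat_lit 255352) (.g (nat_lit 3292) (.e (nat_lit 164040) (nat_lit 55) (.e (nat_lit 778317) (nat_lit 3) (.e (nat_lit 57464) (nat_lit 23) (.e (nat_lit 516151) (nat_lit 9) (.e (nat_lit 426132) (nat_lit 3) .nil))))) .nil)))))) (.nd (nat_lit 3) (.nd (nat_lit 4) (.nd (nat_lit 5) (.nd (nat_lit 6) 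
(.lf (nat_lit 255236) (.g (nat_lit 2893) (.e (nat_lit 164022) (nat_lit 46) (.e (nat_lit 704738) (nat_lit 11) (.e (nat_lit 16425) (nat_lit 7) (.e (nat_lit 409649) (nat_lit 18) (.e (nat_lit 303140) (nat_lit 10) (.e (nat_lit 434202) (nat_lit 18) (.e (nat_lit 5811) (nat_lit 320) (.e (nat_lit 2602) (nat_lit 163) .nil)))))))) (.g (nat_lit 4) .nil .nil))) 
(.lf (nat_lit 255300) (.g (nat_lit 1120) (.e (nat_lit 171776) (nat_lit 48) (.e (nat_lit 720941) (nat_lit 22) (.e (nat_lit 90185) (nat_lit 17) (.e (nat_lit 237590) (nat_lit 2) .nil)))) .nil))) (.nd (nat_lit 6) 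
(.lf (nat_lit 255268) (.g (nat_lit 2040) (.e (nat_lit 164023) (nat_lit 46) (.e (nat_lit 704738) (nat_lit 11) (.e (nat_lit 16392) (nat_lit 0) (.e (nat_lit 2397) (nat_lit 157) .nil)))) .nil)) 
(.lf (nat_lit 255332) (.g (nat_lit 2085) (.e (nat_lit 164034) (nat_lit 54) (.e (nat_lit 770069) (nat_lit 7) (.e (nat_lit 57480) (nat_lit 28) (.e (nat_lit 557107) (nat_lit 15) (.e (nat_lit 188423) (nat_lit 11) .nil))))) .nil)))) (.nd (nat_lit 5) (.nd (nat_lit 6) 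
(.lf (nat_lit 255252) (.g (nat_lit 908) (.e (nat_lit 164022) (nat_lit 46) (.e (nat_lit 704738) (nat_lit 11) (.e (nat_lit 16466) (nat_lit 13) .nil))) .nil)) 
(.lf (nat_lit 255316) (.g (nat_lit 1836) (.e (nat_lit 164032) (nat_lit 54) (.e (nat_lit 770072) (nat_lit 8) (.e (nat_lit 65586) (nat_lit 7) (.e (nat_lit 319531) (nat_lit 16) (.e (nat_lit 286748) (nat_lit 9) .nil))))) .nil))) (.nd (nat_lit 6) 
(.lf (nat_lit 255284) (.g (nat_lit 3913) (.e (nat_lit 164023) (nat_lit 46) (.e (nat_lit 704738) (nat_lit 11) (.e (nat_lit 16416) (nat_lit 3) (.e (nat_lit 204880) (nat_lit 32) (.e (nat_lit 392960) (nat_lit 42) .nil))))) .nil)) 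
(.lf (nat_lit 255348) (.g (nat_lit 677) (.e (nat_lit 164038) (nat_lit 55) (.e (nat_lit 778246) (nat_lit 0) (.e (nat_lit 1256) (nat_lit 92) (.e (nat_lit 98369) (nat_lit 28) (.e (nat_lit 450304) (nat_lit 12) .nil))))) .nil))))) (.nd (nat_lit 4) (.nd (nat_lit 5) (.nd (nat_lit 6) 
(.lf (nat_lit 255244) (.g (nat_lit 4040) (.e (nat_lit 164022) (nat_lit 46) (.e (nat_lit 704738) (nat_lit 11) (.e (nat_lit 16425) (nat_lit 7) (.e (nat_lit 409649) (nat_lit 18) (.e (nat_lit 303140) (nat_lit 10) (.e (nat_lit 434202) (nat_lit 18) (.e (nat_lit 5839) (nat_lit 320) (.e (nat_lit 2605) (nat_lit 163) .nil)))))))) (.g (nat_lit 5) .nil .nil))) 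
(.lf (nat_lit 255308) (.g (nat_lit 415) (.e (nat_lit 164031) (nat_lit 53) (.e (nat_lit 761905) (nat_lit 16) (.e (nat_lit 179968) (nat_lit 27) .nil))) .nil))) (.nd (nat_lit 6) 
(.lf (nat_lit 255276) (.g (nat_lit 2064) (.e (nat_lit 164023) (nat_lit 46) (.e (nat_lit 704738) (nat_lit 11) (.e (nat_lit 16415) (nat_lit 3) (.e (nat_lit 204870) (nat_lit 29) (.e (nat_lit 360473) (nat_lit 8) .nil))))) .nil)) 
(.lf (nat_lit 255340) (.g (nat_lit 1989) (.e (nat_lit 164034) (nat_lit 54) (.e (nat_lit 770072) (nat_lit 8) (.e (nat_lit 65583) (nat_lit 7) (.e (nat_lit 319530) (nat_lit 16) (.e (nat_lit 286748) (nat_lit 9) .nil))))) .nil)))) (.nd (nat_lit 5) (.nd (nat_lit 6) 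
(.lf (nat_lit 255260) (.g (nat_lit 3255) (.e (nat_lit 164023) (nat_lit 46) (.e (nat_lit 704737) (nat_lit 11) (.e (nat_lit 16412) (nat_lit 2) (.e (nat_lit 196665) (nat_lit 13) (.e (nat_lit 65617) (nat_lit 10) (.e (nat_lit 344132) (nat_lit 26) (.e (nat_lit 557093) (nat_lit 12) .nil))))))) (.g (nat_lit 4) .nil .nil))) 
(.lf (nat_lit 255324) (.g (nat_lit 1844) (.e (nat_lit 164033) (nat_lit 54) (.e (nat_lit 770072) (nat_lit 8) (.e (nat_lit 65586) (nat_lit 7) (.e (nat_lit 319531) (nat_lit 16) (.e (nat_lit 286748) (nat_lit 9) (.e (nat_lit 336295) (nat_lit 15) (.e (nat_lit 3629) (nat_lit 227) (.e (nat_lit 778486) (nat_lit 12) .nil)))))))) (.g (nat_lit 4) .nil .nil)))) (.nd (nat_lit 6) 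
(.lf (nat_lit 255292) (.g (nat_lit 254) (.e (nat_lit 171776) (nat_lit 48) (.e (nat_lit 720909) (nat_lit 11) (.e (nat_lit 426114) (nat_lit 2) .nil))) .nil)) 
(.lf (nat_lit 255356) (.g (nat_lit 3164) (.e (nat_lit 164040) (nat_lit 55) (.e (nat_lit 778318) (nat_lit 3) (.e (nat_lit 57464) (nat_lit 23) (.e (nat_lit 516151) (nat_lit 9) (.e (nat_lit 426132) (nat_lit 3) .nil))))) .nil))))))) (.nd (nat_lit 2) (.nd (nat_lit 3) (.nd (nat_lit 4) (.nd (nat_lit 5) (.nd (nat_lit 6) 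
(.lf (nat_lit 255234) (.g (nat_lit 3782) (.e (nat_lit 164022) (nat_lit 46) (.e (nat_lit 704738) (nat_lit 11) (.e (nat_lit 16425) (nat_lit 7) (.e (nat_lit 409649) (nat_lit 18) (.e (nat_lit 303140) (nat_lit 10) (.e (nat_lit 434202) (nat_lit 18) (.e (nat_lit 5799) (nat_lit 320) (.e (nat_lit 2606) (nat_lit 163) .nil)))))))) (.g (nat_lit 5) .nil .nil))) 
(.lf (nat_lit 255298) (.g (nat_lit 2336) (.e (nat_lit 171776) (nat_lit 48) (.e (nat_lit 720941) (nat_lit 22) (.e (nat_lit 90172) (nat_lit 14) (.e (nat_lit 180250) (nat_lit 10) (.e (nat_lit 573451) (nat_lit 9) .nil))))) .nil))) (.nd (nat_lit 6) 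
(.lf (nat_lit 255266) (.g (nat_lit 3095) (.e (nat_lit 164023) (nat_lit 46) (.e (nat_lit 704737) (nat_lit 11) (.e (nat_lit 16412) (nat_lit 2) (.e (nat_lit 196674) (nat_lit 15) (.e (nat_lit 81946) (nat_lit 20) (.e (nat_lit 1855) (nat_lit 124) (.e (nat_lit 557093) (nat_lit 12) .nil))))))) (.g (nat_lit 4) .nil .nil))) 
(.lf (nat_lit 255330) (.g (nat_lit 3281) (.e (nat_lit 164034) (nat_lit 54) (.e (nat_lit 770069) (nat_lit 7) (.e (nat_lit 57479) (nat_lit 28) (.e (nat_lit 557107) (nat_lit 15) (.e (nat_lit 188421) (nat_lit 11) .nil))))) .nil)))) (.nd (nat_lit 5) (.nd (nat_lit 6) 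
(.lf (nat_lit 255250) (.g (nat_lit 3106) (.e (nat_lit 164022) (nat_lit 46) (.e (nat_lit 704738) (nat_lit 11) (.e (nat_lit 16425) (nat_lit 7) (.e (nat_lit 409649) (nat_lit 18) (.e (nat_lit 303140) (nat_lit 10) (.e (nat_lit 434280) (nat_lit 40) (.e (nat_lit 671782) (nat_lit 12) .nil))))))) (.g (nat_lit 5) .nil .nil))) 
(.lf (nat_lit 255314) (.g (nat_lit 3785) (.e (nat_lit 164032) (nat_lit 54) (.e (nat_lit 770072) (nat_lit 8) (.e (nat_lit 65583) (nat_lit 7) (.e (nat_lit 319530) (nat_lit 16) (.e (nat_lit 286759) (nat_lit 12) (.e (nat_lit 385092) (nat_lit 49) (.e (nat_lit 778486) (nat_lit 12) .nil))))))) (.g (nat_lit 6) .nil .nil)))) (.nd (nat_lit 6) 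
(.lf (nat_lit 255282) (.g (nat_lit 4596) (.e (nat_lit 164023) (nat_lit 46) (.e (nat_lit 704738) (nat_lit 11) (.e (nat_lit 16416) (nat_lit 3) (.e (nat_lit 204876) (nat_lit 31) (.e (nat_lit 376855) (nat_lit 20) (.e (nat_lit 1856) (nat_lit 124) (.e (nat_lit 557093) (nat_lit 12) .nil))))))) (.g (nat_lit 4) .nil .nil))) 
(.lf (nat_lit 255346) (.g (nat_lit 3164) (.e (nat_lit 164037) (nat_lit 55) (.e (nat_lit 778318) (nat_lit 3) (.e (nat_lit 57464) (nat_lit 23) (.e (nat_lit 516151) (nat_lit 9) (.e (nat_lit 426132) (nat_lit 3) .nil))))) .nil))))) (.nd (nat_lit 4) (.nd (nat_lit 5) (.nd (nat_lit 6) 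
(.lf (nat_lit 255242) (.g (nat_lit 3141) (.e (nat_lit 164022) (nat_lit 46) (.e (nat_lit 704738) (nat_lit 11) (.e (nat_lit 16425) (nat_lit 7) (.e (nat_lit 409649) (nat_lit 18) (.e (nat_lit 303140) (nat_lit 10) (.e (nat_lit 434202) (nat_lit 18) (.e (nat_lit 5835) (nat_lit 320) (.e (nat_lit 2605) (nat_lit 163) .nil)))))))) (.g (nat_lit 4) .nil .nil))) 
(.lf (nat_lit 255306) (.g (nat_lit 1686) (.e (nat_lit 164030) (nat_lit 53) (.e (nat_lit 761905) (nat_lit 16) (.e (nat_lit 179968) (nat_lit 34) (.e (nat_lit 393296) (nat_lit 26) (.e (nat_lit 475184) (nat_lit 29) (.e (nat_lit 557094) (nat_lit 12) .nil)))))) (.g (nat_lit 5) .nil .nil)))) (.nd (nat_lit 6) 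
(.lf (nat_lit 255274) (.g (nat_lit 3735) (.e (nat_lit 164023) (nat_lit 46) (.e (nat_lit 704738) (nat_lit 11) (.e (nat_lit 16412) (nat_lit 2) (.e (nat_lit 196674) (nat_lit 15) (.e (nat_lit 81947) (nat_lit 20) (.e (nat_lit 1855) (nat_lit 124) (.e (nat_lit 557093) (nat_lit 12) .nil))))))) (.g (nat_lit 4) .nil .nil))) 
(.lf (nat_lit 255338) (.g (nat_lit 3111) (.e (nat_lit 164034) (nat_lit 54) (.e (nat_lit 770071) (nat_lit 8) (.e (nat_lit 65630) (nat_lit 14) (.e (nat_lit 401454) (nat_lit 12) (.e (nat_lit 475218) (nat_lit 44) .nil))))) .nil)))) (.nd (nat_lit 5) (.nd (nat_lit 6) 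
(.lf (nat_lit 255258) (.g (nat_lit 5538) (.e (nat_lit 164023) (nat_lit 46) (.e (nat_lit 704737) (nat_lit 11) (.e (nat_lit 16411) (nat_lit 2) (.e (nat_lit 196674) (nat_lit 15) (.e (nat_lit 81946) (nat_lit 20) (.e (nat_lit 1858) (nat_lit 124) (.e (nat_lit 557093) (nat_lit 12) .nil))))))) (.g (nat_lit 7) .nil .nil))) 
(.lf (nat_lit 255322) (.g (nat_lit 1836) (.e (nat_lit 164033) (nat_lit 54) (.e (nat_lit 770072) (nat_lit 8) (.e (nat_lit 65586) (nat_lit 7) (.e (nat_lit 319531) (nat_lit 16) (.e (nat_lit 286748) (nat_lit 9) .nil))))) .nil))) (.nd (nat_lit 6) 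
(.lf (nat_lit 255290) (.g (nat_lit 3681) (.e (nat_lit 171776) (nat_lit 46) (.e (nat_lit 704734) (nat_lit 11) (.e (nat_lit 16412) (nat_lit 2) (.e (nat_lit 196666) (nat_lit 13) (.e (nat_lit 65617) (nat_lit 10) .nil))))) .nil)) 
(.lf (nat_lit 255354) (.g (nat_lit 2274) (.e (nat_lit 164040) (nat_lit 55) (.e (nat_lit 778317) (nat_lit 3) (.e (nat_lit 57464) (nat_lit 23) (.e (nat_lit 516166) (nat_lit 12) (.e (nat_lit 450563) (nat_lit 0) (.e (nat_lit 6416) (nat_lit 341) (.e (nat_lit 163878) (nat_lit 4) (.e (nat_lit 213035) (nat_lit 12) .nil)))))))) (.g (nat_lit 4) .nil .nil))))))) 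
(.nd (nat_lit 3) (.nd (nat_lit 4) (.nd (nat_lit 5) (.nd (nat_lit 6) 
(.lf (nat_lit 255238) (.g (nat_lit 3240) (.e (nat_lit 164022) (nat_lit 46) (.e (nat_lit 704738) (nat_lit 11) (.e (nat_lit 16425) (nat_lit 7) (.e (nat_lit 409649) (nat_lit 18) (.e (nat_lit 303140) (nat_lit 10) (.e (nat_lit 434202) (nat_lit 18) (.e (nat_lit 5811) (nat_lit 320) (.e (nat_lit 2604) (nat_lit 163) .nil)))))))) (.g (nat_lit 4) .nil .nil))) 
(.lf (nat_lit 255302) (.g (nat_lit 2231) (.e (nat_lit 164030) (nat_lit 53) (.e (nat_lit 761905) (nat_lit 16) (.e (nat_lit 179968) (nat_lit 18) (.e (nat_lit 98373) (nat_lit 29) (.e (nat_lit 450601) (nat_lit 21) (.e (nat_lit 696341) (nat_lit 7) .nil)))))) (.g (nat_lit 4) .nil .nil)))) (.nd (nat_lit 6) 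
(.lf (nat_lit 255270) (.g (nat_lit 3299) (.e (nat_lit 164023) (nat_lit 46) (.e (nat_lit 704738) (nat_lit 11) (.e (nat_lit 16412) (nat_lit 2) (.e (nat_lit 196666) (nat_lit 13) (.e (nat_lit 65609) (nat_lit 10) (.e (nat_lit 344132) (nat_lit 26) (.e (nat_lit 557093) (nat_lit 12) .nil))))))) (.g (nat_lit 4) .nil .nil))) 
(.lf (nat_lit 255334) (.g (nat_lit 3257) (.e (nat_lit 164034) (nat_lit 54) (.e (nat_lit 770071) (nat_lit 8) (.e (nat_lit 65583) (nat_lit 7) (.e (nat_lit 319530) (nat_lit 16) (.e (nat_lit 286759) (nat_lit 12) (.e (nat_lit 385092) (nat_lit 49) (.e (nat_lit 778486) (nat_lit 12) .nil))))))) (.g (nat_lit 7) .nil .nil))))) (.nd (nat_lit 5) (.nd (nat_lit 6) 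
(.lf (nat_lit 255254) (.g (nat_lit 1793) (.e (nat_lit 164023) (nat_lit 46) (.e (nat_lit 704736) (nat_lit 11) (.e (nat_lit 16412) (nat_lit 2) (.e (nat_lit 196674) (nat_lit 15) (.e (nat_lit 81944) (nat_lit 20) .nil))))) .nil)) 
(.lf (nat_lit 255318) (.g (nat_lit 1839) (.e (nat_lit 164032) (nat_lit 54) (.e (nat_lit 770072) (nat_lit 8) (.e (nat_lit 65586) (nat_lit 7) (.e (nat_lit 319531) (nat_lit 16) (.e (nat_lit 286759) (nat_lit 12) .nil))))) .nil))) (.nd (nat_lit 6) 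
(.lf (nat_lit 255286) (.g (nat_lit 3557) (.e (nat_lit 164023) (nat_lit 46) (.e (nat_lit 704738) (nat_lit 11) (.e (nat_lit 16425) (nat_lit 7) (.e (nat_lit 409648) (nat_lit 18) (.e (nat_lit 303137) (nat_lit 10) (.e (nat_lit 434200) (nat_lit 18) (.e (nat_lit 5797) (nat_lit 320) (.e (nat_lit 2612) (nat_lit 163) .nil)))))))) (.g (nat_lit 4) .nil .nil))) 
(.lf (nat_lit 255350) (.g (nat_lit 557) (.e (nat_lit 164038) (nat_lit 55) (.e (nat_lit 778318) (nat_lit 3) (.e (nat_lit 57464) (nat_lit 23) .nil))) .nil))))) (.nd (nat_lit 4) (.nd (nat_lit 5) (.nd (nat_lit 6) 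
(.lf (nat_lit 255246) (.g (nat_lit 3188) (.e (nat_lit 164022) (nat_lit 46) (.e (nat_lit 704738) (nat_lit 11) (.e (nat_lit 16425) (nat_lit 7) (.e (nat_lit 409649) (nat_lit 18) (.e (nat_lit 303140) (nat_lit 10) (.e (nat_lit 434202) (nat_lit 18) (.e (nat_lit 5849) (nat_lit 320) (.e (nat_lit 2605) (nat_lit 163) .nil)))))))) (.g (nat_lit 4) .nil .nil))) 
(.lf (nat_lit 255310) (.g (nat_lit 1496) (.e (nat_lit 164031) (nat_lit 53) (.e (nat_lit 761905) (nat_lit 16) (.e (nat_lit 179968) (nat_lit 34) (.e (nat_lit 393301) (nat_lit 27) (.e (nat_lit 491535) (nat_lit 2) .nil))))) .nil))) (.nd (nat_lit 6) 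
(.lf (nat_lit 255278) (.g (nat_lit 2891) (.e (nat_lit 164023) (nat_lit 46) (.e (nat_lit 704738) (nat_lit 11) (.e (nat_lit 16416) (nat_lit 3) (.e (nat_lit 204866) (nat_lit 28) .nil)))) .nil)) 
(.lf (nat_lit 255342) (.g (nat_lit 2107) (.e (nat_lit 164034) (nat_lit 54) (.e (nat_lit 770072) (nat_lit 8) (.e (nat_lit 65583) (nat_lit 7) (.e (nat_lit 319530) (nat_lit 16) (.e (nat_lit 286748) (nat_lit 9) (.e (nat_lit 336295) (nat_lit 15) (.e (nat_lit 3666) (nat_lit 227) (.e (nat_lit 778477) (nat_lit 12) .nil)))))))) (.g (nat_lit 4) .nil .nil))))) (.nd (nat_lit 5) (.nd (nat_lit 6) 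
(.lf (nat_lit 255262) (.g (nat_lit 4227) (.e (nat_lit 164023) (nat_lit 46) (.e (nat_lit 704737) (nat_lit 11) (.e (nat_lit 16412) (nat_lit 2) (.e (nat_lit 196666) (nat_lit 13) (.e (nat_lit 65610) (nat_lit 10) (.e (nat_lit 344127) (nat_lit 26) (.e (nat_lit 557093) (nat_lit 12) .nil))))))) (.g (nat_lit 5) .nil .nil))) 
(.lf (nat_lit 255326) (.g (nat_lit 1905) (.e (nat_lit 164033) (nat_lit 54) (.e (nat_lit 770072) (nat_lit 8) (.e (nat_lit 65586) (nat_lit 7) (.e (nat_lit 319531) (nat_lit 16) (.e (nat_lit 286748) (nat_lit 9) (.e (nat_lit 336295) (nat_lit 15) (.e (nat_lit 3666) (nat_lit 227) (.e (nat_lit 778471) (nat_lit 12) .nil)))))))) (.g (nat_lit 4) .nil .nil)))) (.nd (nat_lit 6) 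
(.lf (nat_lit 255294) (.g (nat_lit 2455) (.e (nat_lit 171776) (nat_lit 48) (.e (nat_lit 720909) (nat_lit 11) (.e (nat_lit 426116) (nat_lit 2) (.e (nat_lit 196666) (nat_lit 13) (.e (nat_lit 65617) (nat_lit 10) .nil))))) .nil)) 
(.lf (nat_lit 255358) (.g (nat_lit 3175) (.e (nat_lit 164040) (nat_lit 55) (.e (nat_lit 778318) (nat_lit 3) (.e (nat_lit 57464) (nat_lit 23) (.e (nat_lit 516151) (nat_lit 9) (.e (nat_lit 426132) (nat_lit 3) (.e (nat_lit 204834) (nat_lit 19) (.e (nat_lit 106539) (nat_lit 12) (.e (nat_lit 57480) (nat_lit 28) (.e (nat_lit 557091) (nat_lit 12) .nil))))))))) (.g (nat_lit 4) .nil .nil))))))))) 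
(.nd (nat_lit 1) (.nd (nat_lit 2) (.nd (nat_lit 3) (.nd (nat_lit 4) (.nd (nat_lit 5) 
(.nd (nat_lit 6) 
(.lf (nat_lit 255233) (.g (nat_lit 3271) (.e (nat_lit 164022) (nat_lit 46) (.e (nat_lit 704738) (nat_lit 11) (.e (nat_lit 16425) (nat_lit 7) (.e (nat_lit 409649) (nat_lit 18) (.e (nat_lit 303140) (nat_lit 10) (.e (nat_lit 434202) (nat_lit 18) (.e (nat_lit 5799) (nat_lit 320) (.e (nat_lit 2598) (nat_lit 163) .nil)))))))) (.g (nat_lit 4) .nil .nil))) 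
(.lf (nat_lit 255297) (.g (nat_lit 943) (.e (nat_lit 171776) (nat_lit 48) (.e (nat_lit 720941) (nat_lit 22) (.e (nat_lit 90172) (nat_lit 14) (.e (nat_lit 180250) (nat_lit 10) .nil)))) .nil))) (.nd (nat_lit 6) 
(.lf (nat_lit 255265) (.g (nat_lit 2891) (.e (nat_lit 164023) (nat_lit 46) (.e (nat_lit 704737) (nat_lit 11) (.e (nat_lit 16412) (nat_lit 2) (.e (nat_lit 196672) (nat_lit 15) (.e (nat_lit 81944) (nat_lit 20) (.e (nat_lit 1855) (nat_lit 124) (.e (nat_lit 557093) (nat_lit 12) .nil))))))) (.g (nat_lit 4) .nil .nil))) 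
(.lf (nat_lit 255329) (.g (nat_lit 3253) (.e (nat_lit 164034) (nat_lit 54) (.e (nat_lit 770069) (nat_lit 7) (.e (nat_lit 57479) (nat_lit 28) (.e (nat_lit 557100) (nat_lit 13) (.e (nat_lit 172123) (nat_lit 13) .nil))))) .nil)))) (.nd (nat_lit 5) (.nd (nat_lit 6) 
(.lf (nat_lit 255249) (.g (nat_lit 3091) (.e (nat_lit 164022) (nat_lit 46) (.e (nat_lit 704738) (nat_lit 11) (.e (nat_lit 16425) (nat_lit 7) (.e (nat_lit 409649) (nat_lit 18) (.e (nat_lit 303140) (nat_lit 10) (.e (nat_lit 434280) (nat_lit 40) (.e (nat_lit 671781) (nat_lit 12) .nil))))))) (.g (nat_lit 4) .nil .nil))) 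
(.lf (nat_lit 255313) (.g (nat_lit 2081) (.e (nat_lit 164032) (nat_lit 54) (.e (nat_lit 770072) (nat_lit 8) (.e (nat_lit 65583) (nat_lit 7) (.e (nat_lit 319530) (nat_lit 16) (.e (nat_lit 286759) (nat_lit 12) .nil))))) .nil))) (.nd (nat_lit 6) 
(.lf (nat_lit 255281) (.g (nat_lit 5129) (.e (nat_lit 164023) (nat_lit 46) (.e (nat_lit 704738) (nat_lit 11) (.e (nat_lit 16416) (nat_lit 3) (.e (nat_lit 204869) (nat_lit 29) (.e (nat_lit 360474) (nat_lit 8) (.e (nat_lit 557093) (nat_lit 12) .nil)))))) (.g (nat_lit 5) .nil .nil))) 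
(.lf (nat_lit 255345) (.g (nat_lit 1838) (.e (nat_lit 164034) (nat_lit 54) (.e (nat_lit 770072) (nat_lit 8) (.e (nat_lit 65586) (nat_lit 7) (.e (nat_lit 319531) (nat_lit 16) (.e (nat_lit 286759) (nat_lit 12) .nil))))) .nil))))) (.nd (nat_lit 4) (.nd (nat_lit 5) (.nd (nat_lit 6) 
(.lf (nat_lit 255241) (.g (nat_lit 3120) (.e (nat_lit 164022) (nat_lit 46) (.e (nat_lit 704738) (nat_lit 11) (.e (nat_lit 16425) (nat_lit 7) (.e (nat_lit 409649) (nat_lit 18) (.e (nat_lit 303140) (nat_lit 10) (.e (nat_lit 434202) (nat_lit 18) (.e (nat_lit 5834) (nat_lit 320) (.e (nat_lit 2605) (nat_lit 163) .nil)))))))) (.g (nat_lit 4) .nil .nil))) 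
(.lf (nat_lit 255305) (.g (nat_lit 2105) (.e (nat_lit 164030) (nat_lit 53) (.e (nat_lit 761905) (nat_lit 16) (.e (nat_lit 179968) (nat_lit 34) (.e (nat_lit 393296) (nat_lit 26) (.e (nat_lit 475183) (nat_lit 29) (.e (nat_lit 557094) (nat_lit 12) .nil)))))) (.g (nat_lit 5) .nil .nil)))) (.nd (nat_lit 6) 
(.lf (nat_lit 255273) (.g (nat_lit 3368) (.e (nat_lit 164023) (nat_lit 46) (.e (nat_lit 704738) (nat_lit 11) (.e (nat_lit 16412) (nat_lit 2) (.e (nat_lit 196674) (nat_lit 15) (.e (nat_lit 81940) (nat_lit 20) (.e (nat_lit 1858) (nat_lit 124) (.e (nat_lit 557093) (nat_lit 12) .nil))))))) (.g (nat_lit 4) .nil .nil))) 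
(.lf (nat_lit 255337) (.g (nat_lit 3277) (.e (nat_lit 164034) (nat_lit 54) (.e (nat_lit 770071) (nat_lit 8) (.e (nat_lit 65586) (nat_lit 7) (.e (nat_lit 319531) (nat_lit 16) (.e (nat_lit 286748) (nat_lit 9) (.e (nat_lit 336295) (nat_lit 15) (.e (nat_lit 3666) (nat_lit 227) (.e (nat_lit 778471) (nat_lit 12) .nil)))))))) (.g (nat_lit 6) .nil .nil))))) (.nd (nat_lit 5) (.nd (nat_lit 6) 
(.lf (nat_lit 255257) (.g (nat_lit 1233) (.e (nat_lit 164023) (nat_lit 46) (.e (nat_lit 704737) (nat_lit 11) (.e (nat_lit 16388) (nat_lit 0) (.e (nat_lit 3461) (nat_lit 216) .nil)))) .nil)) 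
(.lf (nat_lit 255321) (.g (nat_lit 1802) (.e (nat_lit 164033) (nat_lit 54) (.e (nat_lit 770071) (nat_lit 8) (.e (nat_lit 65586) (nat_lit 7) (.e (nat_lit 319531) (nat_lit 16) (.e (nat_lit 286748) (nat_lit 9) .nil))))) .nil))) (.nd (nat_lit 6) 
(.lf (nat_lit 255289) (.g (nat_lit 2921) (.e (nat_lit 164023) (nat_lit 46) (.e (nat_lit 704738) (nat_lit 11) (.e (nat_lit 16425) (nat_lit 7) (.e (nat_lit 409649) (nat_lit 18) (.e (nat_lit 303140) (nat_lit 10) (.e (nat_lit 434280) (nat_lit 40) (.e (nat_lit 671782) (nat_lit 12) .nil))))))) (.g (nat_lit 5) .nil .nil))) 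
(.lf (nat_lit 255353) (.g (nat_lit 3299) (.e (nat_lit 164040) (nat_lit 55) (.e (nat_lit 778317) (nat_lit 3) (.e (nat_lit 57464) (nat_lit 23) (.e (nat_lit 516151) (nat_lit 9) (.e (nat_lit 426132) (nat_lit 3) (.e (nat_lit 204834) (nat_lit 19) (.e (nat_lit 106537) (nat_lit 12) (.e (nat_lit 57480) (nat_lit 28) (.e (nat_lit 557091) (nat_lit 12) .nil))))))))) (.g (nat_lit 4) .nil .nil))))))) 
(.nd (nat_lit 3) (.nd (nat_lit 4) (.nd (nat_lit 5) (.nd (nat_lit 6) 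
(.lf (nat_lit 255237) (.g (nat_lit 3134) (.e (nat_lit 164022) (nat_lit 46) (.e (nat_lit 704738) (nat_lit 11) (.e (nat_lit 16425) (nat_lit 7) (.e (nat_lit 409649) (nat_lit 18) (.e (nat_lit 303140) (nat_lit 10) (.e (nat_lit 434202) (nat_lit 18) (.e (nat_lit 5811) (nat_lit 320) (.e (nat_lit 2603) (nat_lit 163) .nil)))))))) (.g (nat_lit 4) .nil .nil))) 
(.lf (nat_lit 255301) (.g (nat_lit 322) (.e (nat_lit 164030) (nat_lit 53) (.e (nat_lit 761903) (nat_lit 16) (.e (nat_lit 179968) (nat_lit 34) .nil))) .nil))) (.nd (nat_lit 6) 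
(.lf (nat_lit 255269) (.g (nat_lit 707) (.e (nat_lit 164023) (nat_lit 46) (.e (nat_lit 704738) (nat_lit 11) (.e (nat_lit 16406) (nat_lit 1) .nil))) .nil)) 
(.lf (nat_lit 255333) (.g (nat_lit 3013) (.e (nat_lit 164034) (nat_lit 54) (.e (nat_lit 770070) (nat_lit 8) (.e (nat_lit 65630) (nat_lit 14) (.e (nat_lit 401454) (nat_lit 12) (.e (nat_lit 475218) (nat_lit 44) .nil))))) .nil)))) (.nd (nat_lit 5) (.nd (nat_lit 6) 
(.lf (nat_lit 255253) (.g (nat_lit 1581) (.e (nat_lit 164023) (nat_lit 46) (.e (nat_lit 704629) (nat_lit 9) (.e (nat_lit 442) (nat_lit 33) (.e (nat_lit 434285) (nat_lit 42) .nil)))) .nil)) 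
(.lf (nat_lit 255317) (.g (nat_lit 3201) (.e (nat_lit 164032) (nat_lit 54) (.e (nat_lit 770072) (nat_lit 8) (.e (nat_lit 65586) (nat_lit 7) (.e (nat_lit 319531) (nat_lit 16) (.e (nat_lit 286748) (nat_lit 9) (.e (nat_lit 336295) (nat_lit 15) (.e (nat_lit 3630) (nat_lit 227) (.e (nat_lit 778486) (nat_lit 12) .nil)))))))) (.g (nat_lit 6) .nil .nil)))) (.nd (nat_lit 6) 
(.lf (nat_lit 255285) (.g (nat_lit 2793) (.e (nat_lit 164023) (nat_lit 46) (.e (nat_lit 704738) (nat_lit 11) (.e (nat_lit 16425) (nat_lit 7) (.e (nat_lit 409648) (nat_lit 18) (.e (nat_lit 303135) (nat_lit 10) .nil))))) .nil)) 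
(.lf (nat_lit 255349) (.g (nat_lit 3291) (.e (nat_lit 164038) (nat_lit 55) (.e (nat_lit 778317) (nat_lit 3) (.e (nat_lit 57464) (nat_lit 23) (.e (nat_lit 516151) (nat_lit 9) (.e (nat_lit 426132) (nat_lit 3) .nil))))) .nil))))) (.nd (nat_lit 4) (.nd (nat_lit 5) (.nd (nat_lit 6) 
(.lf (nat_lit 255245) (.g (nat_lit 4072) (.e (nat_lit 164022) (nat_lit 46) (.e (nat_lit 704738) (nat_lit 11) (.e (nat_lit 16425) (nat_lit 7) (.e (nat_lit 409649) (nat_lit 18) (.e (nat_lit 303140) (nat_lit 10) (.e (nat_lit 434202) (nat_lit 18) (.e (nat_lit 5840) (nat_lit 320) (.e (nat_lit 2598) (nat_lit 163) .nil)))))))) (.g (nat_lit 5) .nil .nil))) 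
(.lf (nat_lit 255309) (.g (nat_lit 415) (.e (nat_lit 164031) (nat_lit 53) (.e (nat_lit 761905) (nat_lit 16) (.e (nat_lit 179968) (nat_lit 34) .nil))) .nil))) (.nd (nat_lit 6) 
(.lf (nat_lit 255277) (.g (nat_lit 2848) (.e (nat_lit 164023) (nat_lit 46) (.e (nat_lit 704738) (nat_lit 11) (.e (nat_lit 16416) (nat_lit 3) (.e (nat_lit 204850) (nat_lit 26) .nil)))) .nil)) 
(.lf (nat_lit 255341) (.g (nat_lit 1996) (.e (nat_lit 164034) (nat_lit 54) (.e (nat_lit 770072) (nat_lit 8) (.e (nat_lit 65583) (nat_lit 7) (.e (nat_lit 319530) (nat_lit 16) (.e (nat_lit 286748) (nat_lit 9) (.e (nat_lit 336295) (nat_lit 15) (.e (nat_lit 3630) (nat_lit 227) (.e (nat_lit 778485) (nat_lit 12) .nil)))))))) (.g (nat_lit 4) .nil .nil))))) (.nd (nat_lit 5) (.nd (nat_lit 6) 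
(.lf (nat_lit 255261) (.g (nat_lit 3575) (.e (nat_lit 164023) (nat_lit 46) (.e (nat_lit 704737) (nat_lit 11) (.e (nat_lit 16412) (nat_lit 2) (.e (nat_lit 196666) (nat_lit 13) (.e (nat_lit 65609) (nat_lit 10) (.e (nat_lit 344132) (nat_lit 26) (.e (nat_lit 557093) (nat_lit 12) .nil))))))) (.g (nat_lit 4) .nil .nil))) 
(.lf (nat_lit 255325) (.g (nat_lit 1905) (.e (nat_lit 164033) (nat_lit 54) (.e (nat_lit 770072) (nat_lit 8) (.e (nat_lit 65586) (nat_lit 7) (.e (nat_lit 319531) (nat_lit 16) (.e (nat_lit 286748) (nat_lit 9) (.e (nat_lit 336295) (nat_lit 15) (.e (nat_lit 3630) (nat_lit 227) (.e (nat_lit 778485) (nat_lit 12) .nil)))))))) (.g (nat_lit 4) .nil .nil)))) (.nd (nat_lit 6) 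
(.lf (nat_lit 255293) (.g (nat_lit 590) (.e (nat_lit 171776) (nat_lit 48) (.e (nat_lit 720909) (nat_lit 11) (.e (nat_lit 426114) (nat_lit 2) (.e (nat_lit 196625) (nat_lit 9) .nil)))) .nil)) 
(.lf (nat_lit 255357) (.g (nat_lit 3260) (.e (nat_lit 164040) (nat_lit 55) (.e (nat_lit 778318) (nat_lit 3) (.e (nat_lit 57464) (nat_lit 23) (.e (nat_lit 516151) (nat_lit 9) (.e (nat_lit 426132) (nat_lit 3) (.e (nat_lit 204834) (nat_lit 19) (.e (nat_lit 106537) (nat_lit 12) (.e (nat_lit 57480) (nat_lit 28) (.e (nat_lit 557091) (nat_lit 12) .nil))))))))) (.g (nat_lit 4) .nil .nil)))))))) 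
(.nd (nat_lit 2) (.nd (nat_lit 3) (.nd (nat_lit 4) (.nd (nat_lit 5) (.nd (nat_lit 6) 
(.lf (nat_lit 255235) (.g (nat_lit 2991) (.e (nat_lit 164022) (nat_lit 46) (.e (nat_lit 704738) (nat_lit 11) (.e (nat_lit 16425) (nat_lit 7) (.e (nat_lit 409649) (nat_lit 18) (.e (nat_lit 303140) (nat_lit 10) (.e (nat_lit 434202) (nat_lit 18) (.e (nat_lit 5800) (nat_lit 320) (.e (nat_lit 2602) (nat_lit 163) .nil)))))))) (.g (nat_lit 4) .nil .nil))) 
(.lf (nat_lit 255299) (.g (nat_lit 1226) (.e (nat_lit 171776) (nat_lit 48) (.e (nat_lit 720941) (nat_lit 22) (.e (nat_lit 90185) (nat_lit 17) (.e (nat_lit 237587) (nat_lit 2) .nil)))) .nil))) (.nd (nat_lit 6) 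
(.lf (nat_lit 255267) (.g (nat_lit 2949) (.e (nat_lit 164023) (nat_lit 46) (.e (nat_lit 704737) (nat_lit 11) (.e (nat_lit 16425) (nat_lit 7) (.e (nat_lit 409648) (nat_lit 18) (.e (nat_lit 303138) (nat_lit 10) (.e (nat_lit 434276) (nat_lit 39) (.e (nat_lit 663585) (nat_lit 12) .nil))))))) (.g (nat_lit 4) .nil .nil))) 
(.lf (nat_lit 255331) (.g (nat_lit 315) (.e (nat_lit 164034) (nat_lit 54) (.e (nat_lit 770069) (nat_lit 7) (.e (nat_lit 57480) (nat_lit 28) .nil))) .nil)))) (.nd (nat_lit 5) (.nd (nat_lit 6) 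
(.lf (nat_lit 255251) (.g (nat_lit 3757) (.e (nat_lit 164022) (nat_lit 46) (.e (nat_lit 704738) (nat_lit 11) (.e (nat_lit 16425) (nat_lit 7) (.e (nat_lit 409649) (nat_lit 18) (.e (nat_lit 303140) (nat_lit 10) (.e (nat_lit 434281) (nat_lit 40) (.e (nat_lit 671782) (nat_lit 12) .nil))))))) (.g (nat_lit 7) .nil .nil))) 
(.lf (nat_lit 255315) (.g (nat_lit 2316) (.e (nat_lit 164032) (nat_lit 54) (.e (nat_lit 770072) (nat_lit 8) (.e (nat_lit 65586) (nat_lit 7) (.e (nat_lit 319531) (nat_lit 16) (.e (nat_lit 286743) (nat_lit 9) (.e (nat_lit 336355) (nat_lit 24) (.e (nat_lit 262170) (nat_lit 12) .nil))))))) (.g (nat_lit 4) .nil .nil)))) (.nd (nat_lit 6) 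
(.lf (nat_lit 255283) (.g (nat_lit 2938) (.e (nat_lit 164023) (nat_lit 46) (.e (nat_lit 704738) (nat_lit 11) (.e (nat_lit 16416) (nat_lit 3) (.e (nat_lit 204877) (nat_lit 31) .nil)))) .nil)) 
(.lf (nat_lit 255347) (.g (nat_lit 1684) (.e (nat_lit 164038) (nat_lit 55) (.e (nat_lit 778246) (nat_lit 0) (.e (nat_lit 1239) (nat_lit 91) (.e (nat_lit 90170) (nat_lit 13) (.e (nat_lit 172065) (nat_lit 3) .nil))))) .nil))))) (.nd (nat_lit 4) (.nd (nat_lit 5) (.nd (nat_lit 6) 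
(.lf (nat_lit 255243) (.g (nat_lit 3936) (.e (nat_lit 164022) (nat_lit 46) (.e (nat_lit 704738) (nat_lit 11) (.e (nat_lit 16425) (nat_lit 7) (.e (nat_lit 409649) (nat_lit 18) (.e (nat_lit 303140) (nat_lit 10) (.e (nat_lit 434202) (nat_lit 18) (.e (nat_lit 5839) (nat_lit 320) (.e (nat_lit 2598) (nat_lit 163) .nil)))))))) (.g (nat_lit 5) .nil .nil))) 
(.lf (nat_lit 255307) (.g (nat_lit 1208) (.e (nat_lit 164031) (nat_lit 53) (.e (nat_lit 769792) (nat_lit 9) (.e (nat_lit 73746) (nat_lit 3) (.e (nat_lit 516174) (nat_lit 14) (.e (nat_lit 474880) (nat_lit 2) (.e (nat_lit 90164) (nat_lit 12) .nil)))))) (.g (nat_lit 4) .nil .nil)))) (.nd (nat_lit 6) 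
(.lf (nat_lit 255275) (.g (nat_lit 3588) (.e (nat_lit 164023) (nat_lit 46) (.e (nat_lit 704738) (nat_lit 11) (.e (nat_lit 16412) (nat_lit 2) (.e (nat_lit 196674) (nat_lit 15) (.e (nat_lit 81947) (nat_lit 20) (.e (nat_lit 1858) (nat_lit 124) (.e (nat_lit 557093) (nat_lit 12) .nil))))))) (.g (nat_lit 4) .nil .nil))) 
(.lf (nat_lit 255339) (.g (nat_lit 2820) (.e (nat_lit 164034) (nat_lit 54) (.e (nat_lit 770071) (nat_lit 8) (.e (nat_lit 65630) (nat_lit 14) (.e (nat_lit 401454) (nat_lit 12) (.e (nat_lit 475219) (nat_lit 44) .nil))))) .nil)))) (.nd (nat_lit 5) (.nd (nat_lit 6) 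
(.lf (nat_lit 255259) (.g (nat_lit 2092) (.e (nat_lit 164023) (nat_lit 46) (.e (nat_lit 704737) (nat_lit 11) (.e (nat_lit 16412) (nat_lit 2) (.e (nat_lit 196625) (nat_lit 9) (.e (nat_lit 1592) (nat_lit 111) .nil))))) .nil)) 
(.lf (nat_lit 255323) (.g (nat_lit 1874) (.e (nat_lit 164033) (nat_lit 54) (.e (nat_lit 770072) (nat_lit 8) (.e (nat_lit 65586) (nat_lit 7) (.e (nat_lit 319531) (nat_lit 16) (.e (nat_lit 286748) (nat_lit 9) (.e (nat_lit 336295) (nat_lit 15) (.e (nat_lit 3617) (nat_lit 227) (.e (nat_lit 778477) (nat_lit 12) .nil)))))))) (.g (nat_lit 4) .nil .nil)))) (.nd (nat_lit 6) 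
(.lf (nat_lit 255291) (.g (nat_lit 1826) (.e (nat_lit 171776) (nat_lit 46) (.e (nat_lit 704741) (nat_lit 11) (.e (nat_lit 16416) (nat_lit 3) (.e (nat_lit 204868) (nat_lit 29) (.e (nat_lit 360473) (nat_lit 8) .nil))))) .nil)) 
(.lf (nat_lit 255355) (.g (nat_lit 557) (.e (nat_lit 164040) (nat_lit 55) (.e (nat_lit 778318) (nat_lit 3) (.e (nat_lit 57464) (nat_lit 23) .nil))) .nil)))))) (.nd (nat_lit 3) (.nd (nat_lit 4) (.nd (nat_lit 5) (.nd (nat_lit 6) 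
(.lf (nat_lit 255239) (.g (nat_lit 3152) (.e (nat_lit 164022) (nat_lit 46) (.e (nat_lit 704738) (nat_lit 11) (.e (nat_lit 16425) (nat_lit 7) (.e (nat_lit 409649) (nat_lit 18) (.e (nat_lit 303140) (nat_lit 10) (.e (nat_lit 434202) (nat_lit 18) (.e (nat_lit 5830) (nat_lit 320) (.e (nat_lit 2605) (nat_lit 163) .nil)))))))) (.g (nat_lit 4) .nil .nil))) 
(.lf (nat_lit 255303) (.g (nat_lit 451) (.e (nat_lit 164030) (nat_lit 53) (.e (nat_lit 761905) (nat_lit 16) (.e (nat_lit 179968) (nat_lit 34) .nil))) .nil))) (.nd (nat_lit 6) 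
(.lf (nat_lit 255271) (.g (nat_lit 3978) (.e (nat_lit 164023) (nat_lit 46) (.e (nat_lit 704738) (nat_lit 11) (.e (nat_lit 16412) (nat_lit 2) (.e (nat_lit 196666) (nat_lit 13) (.e (nat_lit 65610) (nat_lit 10) (.e (nat_lit 344127) (nat_lit 26) (.e (nat_lit 557093) (nat_lit 12) .nil))))))) (.g (nat_lit 5) .nil .nil))) 
(.lf (nat_lit 255335) (.g (nat_lit 1808) (.e (nat_lit 164034) (nat_lit 54) (.e (nat_lit 770071) (nat_lit 8) (.e (nat_lit 65586) (nat_lit 7) (.e (nat_lit 319531) (nat_lit 16) (.e (nat_lit 286748) (nat_lit 9) .nil))))) .nil)))) (.nd (nat_lit 5) (.nd (nat_lit 6) 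
(.lf (nat_lit 255255) (.g (nat_lit 1489) (.e (nat_lit 164023) (nat_lit 46) (.e (nat_lit 704736) (nat_lit 11) (.e (nat_lit 16415) (nat_lit 3) (.e (nat_lit 204870) (nat_lit 29) .nil)))) .nil)) 
(.lf (nat_lit 255319) (.g (nat_lit 3191) (.e (nat_lit 164032) (nat_lit 54) (.e (nat_lit 770072) (nat_lit 8) (.e (nat_lit 65586) (nat_lit 7) (.e (nat_lit 319531) (nat_lit 16) (.e (nat_lit 286759) (nat_lit 12) (.e (nat_lit 385092) (nat_lit 49) (.e (nat_lit 778486) (nat_lit 12) .nil))))))) (.g (nat_lit 6) .nil .nil)))) (.nd (nat_lit 6) 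
(.lf (nat_lit 255287) (.g (nat_lit 3042) (.e (nat_lit 164023) (nat_lit 46) (.e (nat_lit 704738) (nat_lit 11) (.e (nat_lit 16425) (nat_lit 7) (.e (nat_lit 409648) (nat_lit 18) (.e (nat_lit 303137) (nat_lit 10) (.e (nat_lit 434276) (nat_lit 39) (.e (nat_lit 663585) (nat_lit 12) .nil))))))) (.g (nat_lit 4) .nil .nil))) 
(.lf (nat_lit 255351) (.g (nat_lit 612) (.e (nat_lit 164040) (nat_lit 55) (.e (nat_lit 778317) (nat_lit 3) (.e (nat_lit 57464) (nat_lit 23) .nil))) .nil))))) (.nd (nat_lit 4) (.nd (nat_lit 5) (.nd (nat_lit 6) 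
(.lf (nat_lit 255247) (.g (nat_lit 3811) (.e (nat_lit 164022) (nat_lit 46) (.e (nat_lit 704738) (nat_lit 11) (.e (nat_lit 16425) (nat_lit 7) (.e (nat_lit 409649) (nat_lit 18) (.e (nat_lit 303140) (nat_lit 10) (.e (nat_lit 434214) (nat_lit 18) (.e (nat_lit 5848) (nat_lit 320) (.e (nat_lit 2605) (nat_lit 163) .nil)))))))) (.g (nat_lit 5) .nil .nil))) 
(.lf (nat_lit 255311) (.g (nat_lit 1480) (.e (nat_lit 164031) (nat_lit 53) (.e (nat_lit 761905) (nat_lit 16) (.e (nat_lit 179968) (nat_lit 34) (.e (nat_lit 393301) (nat_lit 27) (.e (nat_lit 491536) (nat_lit 2) .nil))))) .nil))) (.nd (nat_lit 6) 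
(.lf (nat_lit 255279) (.g (nat_lit 3422) (.e (nat_lit 164023) (nat_lit 46) (.e (nat_lit 704738) (nat_lit 11) (.e (nat_lit 16416) (nat_lit 3) (.e (nat_lit 204868) (nat_lit 29) (.e (nat_lit 360474) (nat_lit 8) .nil))))) .nil)) 
(.lf (nat_lit 255343) (.g (nat_lit 1853) (.e (nat_lit 164034) (nat_lit 54) (.e (nat_lit 770072) (nat_lit 8) (.e (nat_lit 65586) (nat_lit 7) (.e (nat_lit 319531) (nat_lit 16) (.e (nat_lit 286748) (nat_lit 9) (.e (nat_lit 336295) (nat_lit 15) (.e (nat_lit 3617) (nat_lit 227) (.e (nat_lit 778477) (nat_lit 12) .nil)))))))) (.g (nat_lit 4) .nil .nil))))) (.nd (nat_lit 5) (.nd (nat_lit 6) 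
(.lf (nat_lit 255263) (.g (nat_lit 3901) (.e (nat_lit 164023) (nat_lit 46) (.e (nat_lit 704737) (nat_lit 11) (.e (nat_lit 16412) (nat_lit 2) (.e (nat_lit 196666) (nat_lit 13) (.e (nat_lit 65614) (nat_lit 10) .nil))))) .nil)) 
(.lf (nat_lit 255327) (.g (nat_lit 1917) (.e (nat_lit 164033) (nat_lit 54) (.e (nat_lit 770072) (nat_lit 8) (.e (nat_lit 65586) (nat_lit 7) (.e (nat_lit 319531) (nat_lit 16) (.e (nat_lit 286748) (nat_lit 9) (.e (nat_lit 336295) (nat_lit 15) (.e (nat_lit 3666) (nat_lit 227) (.e (nat_lit 778475) (nat_lit 12) .nil)))))))) (.g (nat_lit 4) .nil .nil)))) (.nd (nat_lit 6) 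
(.lf (nat_lit 255295) (.g (nat_lit 189) (.e (nat_lit 171776) (nat_lit 48) (.e (nat_lit 720941) (nat_lit 22) (.e (nat_lit 90172) (nat_lit 14) .nil))) .nil)) 
(.lf (nat_lit 255359) (.g (nat_lit 3795) (.e (nat_lit 164040) (nat_lit 55) (.e (nat_lit 778320) (nat_lit 4) (.e (nat_lit 65630) (nat_lit 14) (.e (nat_lit 401459) (nat_lit 13) (.e (nat_lit 483363) (nat_lit 18) (.e (nat_lit 57773) (nat_lit 227) (.e (nat_lit 2611) (nat_lit 163) .nil))))))) (.g (nat_lit 5) .nil .nil))))))))))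


end

end Pool.Agent.Lib.MP_5854e1_co.Cz
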