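import Pool.Agent.Lib.MP_5854e1_co.DtD

/-!
# Windows and cells of the rings
-/

set_option autoImplicit false
set_option maxRecDepth 100000
set_option deprecated.oldSectionVars true

namespace Pool.Agent.Lib.MP_5854e1_co.Cz

open Pool.Agent.Lib.MP_5854e1_co

noncomputable section

noncomputable def tv3313 : DT := (.nd (nat_lit 0) (.nd (nat_lit 1) (.nd (nat_lit 2) (.nd (nat_lit 3) (.nd (nat_lit 4) (.nd (nat_lit 5) 
(.lf (nat_lit 255360) (.g (nat_lit 1428) (.e (nat_lit 164042) (nat_lit 55) (.e (nat_lit 778241) (nat_lit 0) (.e (nat_lit 1256) (nat_lit 92) (.e (nat_lit 98370) (nat_lit 28) (.e (nat_lit 442390) (nat_lit 11) (.e (nat_lit 336049) (nat_lit 6) (.e (nat_lit 147503) (nat_lit 12) .nil))))))) (.g (nat_lit 5) .nil .nil))) 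
(.lf (nat_lit 255392) (.g (nat_lit 1023) (.e (nat_lit 164050) (nat_lit 55) (.e (nat_lit 778465) (nat_lit 11) (.e (nat_lit 24603) (nat_lit 2) (.e (nat_lit 90185) (nat_lit 17) .nil)))) .nil))) (.nd (nat_lit 5) 
(.lf (nat_lit 255376) (.g (nat_lit 2205) (.e (nat_lit 164049) (nat_lit 55) (.e (nat_lit 778361) (nat_lit 9) (.e (nat_lit 232) (nat_lit 21) (.e (nat_lit 336060) (nat_lit 7) (.e (nat_lit 319533) (nat_lit 16) .nil))))) .nil)) 
(.lf (nat_lit 255408) (.g (nat_lit 2109) (.e (nat_lit 171776) (nat_lit 55) (.e (nat_lit 778466) (nat_lit 11) (.e (nat_lit 24617) (nat_lit 7) (.e (nat_lit 319533) (nat_lit 16) (.e (nat_lit 286753) (nat_lit 10) .nil))))) .nil)))) (.nd (nat_lit 4) (.nd (nat_lit 5) 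
(.lf (nat_lit 255368) (.g (nat_lit 2205) (.e (nat_lit 164042) (nat_lit 55) (.e (nat_lit 778318) (nat_lit 3) (.e (nat_lit 57464) (nat_lit 23) (.e (nat_lit 516166) (nat_lit 12) (.e (nat_lit 450563) (nat_lit 0) (.e (nat_lit 6420) (nat_lit 341) (.e (nat_lit 163878) (nat_lit 4) (.e (nat_lit 213035) (nat_lit 12) .nil)))))))) (.g (nat_lit 4) .nil .nil))) 
(.lf (nat_lit 255400) (.g (nat_lit 2021) (.e (nat_lit 164050) (nat_lit 55) (.e (nat_lit 778466) (nat_lit 11) (.e (nat_lit 24617) (nat_lit 7) (.e (nat_lit 319534) (nat_lit 16) (.e (nat_lit 286756) (nat_lit 10) .nil))))) .nil))) (.nd (nat_lit 5) 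
(.lf (nat_lit 255384) (.g (nat_lit 2098) (.e (nat_lit 164049) (nat_lit 55) (.e (nat_lit 778465) (nat_lit 11) (.e (nat_lit 24604) (nat_lit 2) (.e (nat_lit 90176) (nat_lit 15) (.e (nat_lit 196352) (nat_lit 2) (.e (nat_lit 90165) (nat_lit 12) .nil)))))) (.g (nat_lit 4) .nil .nil))) 
(.lf (nat_lit 255416) (.g (nat_lit 1425) (.e (nat_lit 164056) (nat_lit 56) (.e (nat_lit 786455) (nat_lit 17) (.e (nat_lit 90170) (nat_lit 13) (.e (nat_lit 172065) (nat_lit 3) (.e (nat_lit 204834) (nat_lit 19) .nil))))) .nil))))) (.nd (nat_lit 3) (.nd (nat_lit 4) (.nd (nat_lit 5) 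
(.lf (nat_lit 255364) (.g (nat_lit 2572) (.e (nat_lit 164042) (nat_lit 55) (.e (nat_lit 778318) (nat_lit 3) (.e (nat_lit 57464) (nat_lit 23) (.e (nat_lit 516151) (nat_lit 9) (.e (nat_lit 426324) (nat_lit 13) .nil))))) .nil)) 
(.lf (nat_lit 255396) (.g (nat_lit 1895) (.e (nat_lit 164050) (nat_lit 55) (.e (nat_lit 778465) (nat_lit 11) (.e (nat_lit 24628) (nat_lit 9) (.e (nat_lit 336443) (nat_lit 32) .nil)))) .nil))) (.nd (nat_lit 5) 
(.lf (nat_lit 255380) (.g (nat_lit 1059) (.e (nat_lit 164049) (nat_lit 55) (.e (nat_lit 778464) (nat_lit 11) (.e (nat_lit 24603) (nat_lit 2) (.e (nat_lit 90176) (nat_lit 15) (.e (nat_lit 196352) (nat_lit 2) .nil))))) .nil)) 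
(.lf (nat_lit 255412) (.g (nat_lit 843) (.e (nat_lit 164053) (nat_lit 56) (.e (nat_lit 786457) (nat_lit 18) (.e (nat_lit 98369) (nat_lit 28) (.e (nat_lit 442390) (nat_lit 11) (.e (nat_lit 336049) (nat_lit 6) (.e (nat_lit 147500) (nat_lit 12) .nil)))))) (.g (nat_lit 0) .nil .nil))))) (.nd (nat_lit 4) (.nd (nat_lit 5) 
(.lf (nat_lit 255372) (.g (nat_lit 2175) (.e (nat_lit 164044) (nat_lit 55) (.e (nat_lit 778462) (nat_lit 11) (.e (nat_lit 24608) (nat_lit 3) (.e (nat_lit 98365) (nat_lit 26) (.e (nat_lit 426188) (nat_lit 9) .nil))))) .nil)) 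
(.lf (nat_lit 255404) (.g (nat_lit 2153) (.e (nat_lit 171776) (nat_lit 55) (.e (nat_lit 778465) (nat_lit 11) (.e (nat_lit 24604) (nat_lit 2) (.e (nat_lit 90185) (nat_lit 17) (.e (nat_lit 237601) (nat_lit 9) .nil))))) .nil))) (.nd (nat_lit 5) 
(.lf (nat_lit 255388) (.g (nat_lit 2457) (.e (nat_lit 164049) (nat_lit 55) (.e (nat_lit 778466) (nat_lit 11) (.e (nat_lit 24617) (nat_lit 7) (.e (nat_lit 319534) (nat_lit 16) (.e (nat_lit 286756) (nat_lit 10) .nil))))) .nil)) 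
(.lf (nat_lit 255420) (.g (nat_lit 1223) (.e (nat_lit 164056) (nat_lit 56) (.e (nat_lit 786455) (nat_lit 17) (.e (nat_lit 90170) (nat_lit 13) (.e (nat_lit 172123) (nat_lit 13) (.e (nat_lit 483370) (nat_lit 20) (.e (nat_lit 147504) (nat_lit 12) .nil)))))) (.g (nat_lit 0) .nil .nil))))))) (.nd (nat_lit 2) (.nd (nat_lit 3) (.nd (nat_lit 4) (.nd (nat_lit 5) 
(.lf (nat_lit 255362) (.g (nat_lit 1728) (.e (nat_lit 164042) (nat_lit 55) (.e (nat_lit 778246) (nat_lit 0) (.e (nat_lit 1256) (nat_lit 92) (.e (nat_lit 98370) (nat_lit 28) (.e (nat_lit 442390) (nat_lit 11) (.e (nat_lit 336049) (nat_lit 6) (.e (nat_lit 147504) (nat_lit 12) .nil))))))) (.g (nat_lit 5) .nil .nil))) 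
(.lf (nat_lit 255394) (.g (nat_lit 2028) (.e (nat_lit 164050) (nat_lit 55) (.e (nat_lit 778465) (nat_lit 11) (.e (nat_lit 24604) (nat_lit 2) (.e (nat_lit 90176) (nat_lit 15) (.e (nat_lit 196352) (nat_lit 2) .nil))))) .nil))) (.nd (nat_lit 5) 
(.lf (nat_lit 255378) (.g (nat_lit 2182) (.e (nat_lit 164049) (nat_lit 55) (.e (nat_lit 778362) (nat_lit 9) (.e (nat_lit 232) (nat_lit 21) (.e (nat_lit 336060) (nat_lit 7) (.e (nat_lit 319533) (nat_lit 16) .nil))))) .nil)) 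
(.lf (nat_lit 255410) (.g (nat_lit 2153) (.e (nat_lit 164053) (nat_lit 56) (.e (nat_lit 786454) (nat_lit 17) (.e (nat_lit 90170) (nat_lit 13) (.e (nat_lit 172065) (nat_lit 3) (.e (nat_lit 204834) (nat_lit 19) .nil))))) .nil)))) (.nd (nat_lit 4) (.nd (nat_lit 5) 
(.lf (nat_lit 255370) (.g (nat_lit 1679) (.e (nat_lit 164042) (nat_lit 55) (.e (nat_lit 778318) (nat_lit 3) (.e (nat_lit 57464) (nat_lit 23) (.e (nat_lit 516176) (nat_lit 14) (.e (nat_lit 466954) (nat_lit 11) .nil))))) .nil)) 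
(.lf (nat_lit 255402) (.g (nat_lit 1855) (.e (nat_lit 171776) (nat_lit 55) (.e (nat_lit 778362) (nat_lit 9) (.e (nat_lit 232) (nat_lit 21) (.e (nat_lit 336060) (nat_lit 7) (.e (nat_lit 319534) (nat_lit 16) .nil))))) .nil))) (.nd (nat_lit 5) 
(.lf (nat_lit 255386) (.g (nat_lit 3157) (.e (nat_lit 164049) (nat_lit 55) (.e (nat_lit 778466) (nat_lit 11) (.e (nat_lit 24617) (nat_lit 7) (.e (nat_lit 319533) (nat_lit 16) (.e (nat_lit 286753) (nat_lit 10) .nil))))) .nil)) 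
(.lf (nat_lit 255418) (.g (nat_lit 1109) (.e (nat_lit 164056) (nat_lit 56) (.e (nat_lit 786455) (nat_lit 17) (.e (nat_lit 90170) (nat_lit 13) (.e (nat_lit 172121) (nat_lit 13) (.e (nat_lit 483370) (nat_lit 20) (.e (nat_lit 147504) (nat_lit 12) .nil)))))) (.g (nat_lit 0) .nil .nil)))))) (.nd (nat_lit 3) (.nd (nat_lit 4) (.nd (nat_lit 5) 
(.lf (nat_lit 255366) (.g (nat_lit 1122) (.e (nat_lit 164042) (nat_lit 55) (.e (nat_lit 778318) (nat_lit 3) (.e (nat_lit 57464) (nat_lit 23) (.e (nat_lit 516162) (nat_lit 11) .nil)))) .nil)) 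
(.lf (nat_lit 255398) (.g (nat_lit 2897) (.e (nat_lit 164050) (nat_lit 55) (.e (nat_lit 778466) (nat_lit 11) (.e (nat_lit 24617) (nat_lit 7) (.e (nat_lit 319533) (nat_lit 16) (.e (nat_lit 286753) (nat_lit 10) .nil))))) .nil))) (.nd (nat_lit 5) 
(.lf (nat_lit 255382) (.g (nat_lit 612) (.e (nat_lit 164049) (nat_lit 55) (.e (nat_lit 778465) (nat_lit 11) (.e (nat_lit 24603) (nat_lit 2) .nil))) .nil)) 
(.lf (nat_lit 255414) (.g (nat_lit 1242) (.e (nat_lit 164053) (nat_lit 56) (.e (nat_lit 786489) (nat_lit 34) (.e (nat_lit 393283) (nat_lit 24) (.e (nat_lit 434231) (nat_lit 23) (.e (nat_lit 532519) (nat_lit 5) (.e (nat_lit 147500) (nat_lit 12) .nil)))))) (.g (nat_lit 0) .nil .nil))))) (.nd (nat_lit 4) (.nd (nat_lit 5) 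
(.lf (nat_lit 255374) (.g (nat_lit 2086) (.e (nat_lit 164046) (nat_lit 55) (.e (nat_lit 778460) (nat_lit 11) (.e (nat_lit 24604) (nat_lit 2) (.e (nat_lit 90185) (nat_lit 17) (.e (nat_lit 237601) (nat_lit 9) .nil))))) .nil)) 
(.lf (nat_lit 255406) (.g (nat_lit 2034) (.e (nat_lit 171776) (nat_lit 55) (.e (nat_lit 778466) (nat_lit 11) (.e (nat_lit 24604) (nat_lit 2) (.e (nat_lit 90185) (nat_lit 17) (.e (nat_lit 237605) (nat_lit 9) .nil))))) .nil))) (.nd (nat_lit 5) 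
(.lf (nat_lit 255390) (.g (nat_lit 1887) (.e (nat_lit 164050) (nat_lit 55) (.e (nat_lit 778362) (nat_lit 9) (.e (nat_lit 232) (nat_lit 21) (.e (nat_lit 336060) (nat_lit 7) (.e (nat_lit 319534) (nat_lit 16) .nil))))) .nil)) 
(.lf (nat_lit 255422) (.g (nat_lit 1239) (.e (nat_lit 164056) (nat_lit 56) (.e (nat_lit 786455) (nat_lit 17) (.e (nat_lit 90178) (nat_lit 15) (.e (nat_lit 188421) (nat_lit 11) (.e (nat_lit 336049) (nat_lit 6) (.e (nat_lit 147500) (nat_lit 12) .nil)))))) (.g (nat_lit 5) .nil .nil)))))))) (.nd (nat_lit 1) (.nd (nat_lit 2) (.nd (nat_lit 3) (.nd (nat_lit 4) (.nd (nat_lit 5) 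
(.lf (nat_lit 255361) (.g (nat_lit 1414) (.e (nat_lit 164042) (nat_lit 55) (.e (nat_lit 778246) (nat_lit 0) (.e (nat_lit 1256) (nat_lit 92) (.e (nat_lit 98369) (nat_lit 28) (.e (nat_lit 442390) (nat_lit 11) (.e (nat_lit 336049) (nat_lit 6) (.e (nat_lit 147503) (nat_lit 12) .nil))))))) (.g (nat_lit 5) .nil .nil))) 
(.lf (nat_lit 255393) (.g (nat_lit 1531) (.e (nat_lit 164050) (nat_lit 55) (.e (nat_lit 778465) (nat_lit 11) (.e (nat_lit 24603) (nat_lit 2) (.e (nat_lit 90185) (nat_lit 17) (.e (nat_lit 237605) (nat_lit 9) .nil))))) .nil))) (.nd (nat_lit 5) 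
(.lf (nat_lit 255377) (.g (nat_lit 2023) (.e (nat_lit 164049) (nat_lit 55) (.e (nat_lit 778361) (nat_lit 9) (.e (nat_lit 232) (nat_lit 21) (.e (nat_lit 336060) (nat_lit 7) (.e (nat_lit 319534) (nat_lit 16) .nil))))) .nil)) 
(.lf (nat_lit 255409) (.g (nat_lit 1694) (.e (nat_lit 171776) (nat_lit 55) (.e (nat_lit 778466) (nat_lit 11) (.e (nat_lit 24617) (nat_lit 7) (.e (nat_lit 319534) (nat_lit 16) (.e (nat_lit 286756) (nat_lit 10) .nil))))) .nil)))) (.nd (nat_lit 4) (.nd (nat_lit 5) 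
(.lf (nat_lit 255369) (.g (nat_lit 1954) (.e (nat_lit 164042) (nat_lit 55) (.e (nat_lit 778318) (nat_lit 3) (.e (nat_lit 57464) (nat_lit 23) (.e (nat_lit 516174) (nat_lit 14) (.e (nat_lit 466954) (nat_lit 11) .nil))))) .nil)) 
(.lf (nat_lit 255401) (.g (nat_lit 2150) (.e (nat_lit 171776) (nat_lit 55) (.e (nat_lit 778362) (nat_lit 9) (.e (nat_lit 232) (nat_lit 21) (.e (nat_lit 336060) (nat_lit 7) (.e (nat_lit 319533) (nat_lit 16) .nil))))) .nil))) (.nd (nat_lit 5) 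
(.lf (nat_lit 255385) (.g (nat_lit 678) (.e (nat_lit 164049) (nat_lit 55) (.e (nat_lit 778466) (nat_lit 11) (.e (nat_lit 24604) (nat_lit 2) .nil))) .nil)) 
(.lf (nat_lit 255417) (.g (nat_lit 1082) (.e (nat_lit 164056) (nat_lit 56) (.e (nat_lit 786455) (nat_lit 17) (.e (nat_lit 90170) (nat_lit 13) (.e (nat_lit 172121) (nat_lit 13) (.e (nat_lit 483370) (nat_lit 20) (.e (nat_lit 147500) (nat_lit 12) .nil)))))) (.g (nat_lit 5) .nil .nil)))))) (.nd (nat_lit 3) (.nd (nat_lit 4) (.nd (nat_lit 5) 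
(.lf (nat_lit 255365) (.g (nat_lit 2985) (.e (nat_lit 164042) (nat_lit 55) (.e (nat_lit 778318) (nat_lit 3) (.e (nat_lit 57464) (nat_lit 23) (.e (nat_lit 516151) (nat_lit 9) (.e (nat_lit 426331) (nat_lit 13) .nil))))) .nil)) 
(.lf (nat_lit 255397) (.g (nat_lit 856) (.e (nat_lit 164050) (nat_lit 55) (.e (nat_lit 778466) (nat_lit 11) (.e (nat_lit 24608) (nat_lit 3) .nil))) .nil))) (.nd (nat_lit 5) 
(.lf (nat_lit 255381) (.g (nat_lit 1860) (.e (nat_lit 164049) (nat_lit 55) (.e (nat_lit 778464) (nat_lit 11) (.e (nat_lit 24604) (nat_lit 2) (.e (nat_lit 90185) (nat_lit 17) (.e (nat_lit 237601) (nat_lit 9) .nil))))) .nil)) 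
(.lf (nat_lit 255413) (.g (nat_lit 1126) (.e (nat_lit 164053) (nat_lit 56) (.e (nat_lit 786457) (nat_lit 18) (.e (nat_lit 98370) (nat_lit 28) (.e (nat_lit 442390) (nat_lit 11) (.e (nat_lit 336049) (nat_lit 6) (.e (nat_lit 147500) (nat_lit 12) .nil)))))) (.g (nat_lit 0) .nil .nil))))) (.nd (nat_lit 4) (.nd (nat_lit 5) 
(.lf (nat_lit 255373) (.g (nat_lit 2212) (.e (nat_lit 164045) (nat_lit 55) (.e (nat_lit 778460) (nat_lit 11) (.e (nat_lit 24608) (nat_lit 3) (.e (nat_lit 98365) (nat_lit 26) (.e (nat_lit 426188) (nat_lit 9) .nil))))) .nil)) 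
(.lf (nat_lit 255405) (.g (nat_lit 1597) (.e (nat_lit 171776) (nat_lit 55) (.e (nat_lit 778466) (nat_lit 11) (.e (nat_lit 24604) (nat_lit 2) (.e (nat_lit 90185) (nat_lit 17) .nil)))) .nil))) (.nd (nat_lit 5) 
(.lf (nat_lit 255389) (.g (nat_lit 2182) (.e (nat_lit 164050) (nat_lit 55) (.e (nat_lit 778362) (nat_lit 9) (.e (nat_lit 232) (nat_lit 21) (.e (nat_lit 336060) (nat_lit 7) (.e (nat_lit 319533) (nat_lit 16) .nil))))) .nil)) 
(.lf (nat_lit 255421) (.g (nat_lit 848) (.e (nat_lit 164056) (nat_lit 56) (.e (nat_lit 786455) (nat_lit 17) (.e (nat_lit 90176) (nat_lit 15) (.e (nat_lit 188423) (nat_lit 11) (.e (nat_lit 336049) (nat_lit 6) (.e (nat_lit 147500) (nat_lit 12) .nil)))))) (.g (nat_lit 5) .nil .nil))))))) (.nd (nat_lit 2) (.nd (nat_lit 3) (.nd (nat_lit 4) (.nd (nat_lit 5) 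
(.lf (nat_lit 255363) (.g (nat_lit 563) (.e (nat_lit 164042) (nat_lit 55) (.e (nat_lit 778318) (nat_lit 3) (.e (nat_lit 57464) (nat_lit 23) .nil))) .nil)) 
(.lf (nat_lit 255395) (.g (nat_lit 637) (.e (nat_lit 164050) (nat_lit 55) (.e (nat_lit 778465) (nat_lit 11) (.e (nat_lit 24608) (nat_lit 3) .nil))) .nil))) (.nd (nat_lit 5) 
(.lf (nat_lit 255379) (.g (nat_lit 1887) (.e (nat_lit 164049) (nat_lit 55) (.e (nat_lit 778362) (nat_lit 9) (.e (nat_lit 232) (nat_lit 21) (.e (nat_lit 336060) (nat_lit 7) (.e (nat_lit 319534) (nat_lit 16) .nil))))) .nil)) 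
(.lf (nat_lit 255411) (.g (nat_lit 1247) (.e (nat_lit 164053) (nat_lit 56) (.e (nat_lit 786455) (nat_lit 17) (.e (nat_lit 90170) (nat_lit 13) (.e (nat_lit 172123) (nat_lit 13) (.e (nat_lit 483370) (nat_lit 20) (.e (nat_lit 147500) (nat_lit 12) .nil)))))) (.g (nat_lit 0) .nil .nil))))) (.nd (nat_lit 4) (.nd (nat_lit 5) 
(.lf (nat_lit 255371) (.g (nat_lit 2115) (.e (nat_lit 164044) (nat_lit 55) (.e (nat_lit 778462) (nat_lit 11) (.e (nat_lit 24608) (nat_lit 3) (.e (nat_lit 98365) (nat_lit 26) (.e (nat_lit 426187) (nat_lit 9) .nil))))) .nil)) 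
(.lf (nat_lit 255403) (.g (nat_lit 606) (.e (nat_lit 171776) (nat_lit 55) (.e (nat_lit 778465) (nat_lit 11) (.e (nat_lit 24604) (nat_lit 2) .nil))) .nil))) (.nd (nat_lit 5) 
(.lf (nat_lit 255387) (.g (nat_lit 3118) (.e (nat_lit 164049) (nat_lit 55) (.e (nat_lit 778466) (nat_lit 11) (.e (nat_lit 24617) (nat_lit 7) (.e (nat_lit 319534) (nat_lit 16) (.e (nat_lit 286749) (nat_lit 9) (.e (nat_lit 335907) (nat_lit 0) (.e (nat_lit 1994) (nat_lit 137) (.e (nat_lit 663585) (nat_lit 12) .nil)))))))) (.g (nat_lit 4) .nil .nil))) 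
(.lf (nat_lit 255419) (.g (nat_lit 1197) (.e (nat_lit 164056) (nat_lit 56) (.e (nat_lit 786455) (nat_lit 17) (.e (nat_lit 90170) (nat_lit 13) (.e (nat_lit 172123) (nat_lit 13) (.e (nat_lit 483370) (nat_lit 20) (.e (nat_lit 147500) (nat_lit 12) .nil)))))) (.g (nat_lit 5) .nil .nil)))))) (.nd (nat_lit 3) (.nd (nat_lit 4) (.nd (nat_lit 5) 
(.lf (nat_lit 255367) (.g (nat_lit 2196) (.e (nat_lit 164042) (nat_lit 55) (.e (nat_lit 778318) (nat_lit 3) (.e (nat_lit 57464) (nat_lit 23) (.e (nat_lit 516166) (nat_lit 12) (.e (nat_lit 450563) (nat_lit 0) .nil))))) .nil)) 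
(.lf (nat_lit 255399) (.g (nat_lit 2875) (.e (nat_lit 164050) (nat_lit 55) (.e (nat_lit 778466) (nat_lit 11) (.e (nat_lit 24617) (nat_lit 7) (.e (nat_lit 319533) (nat_lit 16) (.e (nat_lit 286754) (nat_lit 10) .nil))))) .nil))) (.nd (nat_lit 5) 
(.lf (nat_lit 255383) (.g (nat_lit 1012) (.e (nat_lit 164049) (nat_lit 55) (.e (nat_lit 778465) (nat_lit 11) (.e (nat_lit 24603) (nat_lit 2) (.e (nat_lit 90185) (nat_lit 17) .nil)))) .nil)) 
(.lf (nat_lit 255415) (.g (nat_lit 2544) (.e (nat_lit 164054) (nat_lit 56) (.e (nat_lit 786489) (nat_lit 34) (.e (nat_lit 393268) (nat_lit 23) (.e (nat_lit 426428) (nat_lit 17) (.e (nat_lit 90165) (nat_lit 12) .nil))))) .nil)))) (.nd (nat_lit 4) (.nd (nat_lit 5) 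
(.lf (nat_lit 255375) (.g (nat_lit 284) (.e (nat_lit 164048) (nat_lit 55) (.e (nat_lit 778337) (nat_lit 9) (.e (nat_lit 301) (nat_lit 22) .nil))) .nil)) 
(.lf (nat_lit 255407) (.g (nat_lit 1968) (.e (nat_lit 171776) (nat_lit 55) (.e (nat_lit 778466) (nat_lit 11) (.e (nat_lit 24608) (nat_lit 3) (.e (nat_lit 98365) (nat_lit 26) (.e (nat_lit 426187) (nat_lit 9) .nil))))) .nil))) (.nd (nat_lit 5) 
(.lf (nat_lit 255391) (.g (nat_lit 1862) (.e (nat_lit 164050) (nat_lit 55) (.e (nat_lit 778464) (nat_lit 11) (.e (nat_lit 24604) (nat_lit 2) (.e (nat_lit 90185) (nat_lit 17) (.e (nat_lit 237601) (nat_lit 9) .nil))))) .nil)) 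
(.lf (nat_lit 255423) (.g (nat_lit 967) (.e (nat_lit 164056) (nat_lit 56) (.e (nat_lit 786455) (nat_lit 17) (.e (nat_lit 90185) (nat_lit 17) (.e (nat_lit 237621) (nat_lit 13) (.e (nat_lit 483370) (nat_lit 20) (.e (nat_lit 147500) (nat_lit 12) .nil)))))) (.g (nat_lit 5) .nil .nil)))))))))

noncomputable def tv3314 : DT := (.nd (nat_lit 0) (.nd (nat_lit 1) (.nd (nat_lit 2) (.nd (nat_lit 3) (.nd (nat_lit 4) (.nd (nat_lit 5) 
(.lf (nat_lit 255424) (.g (nat_lit 992) (.e (nat_lit 164056) (nat_lit 56) (.e (nat_lit 786455) (nat_lit 17) (.e (nat_lit 90185) (nat_lit 17) (.e (nat_lit 237621) (nat_lit 13) (.e (nat_lit 483370) (nat_lit 20) (.e (nat_lit 147504) (nat_lit 12) .nil)))))) (.g (nat_lit 0) .nil .nil))) 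
(.lf (nat_lit 255456) (.g (nat_lit 1177) (.e (nat_lit 164057) (nat_lit 56) (.e (nat_lit 786489) (nat_lit 34) (.e (nat_lit 393298) (nat_lit 27) (.e (nat_lit 491540) (nat_lit 3) .nil)))) .nil))) (.nd (nat_lit 5) 
(.lf (nat_lit 255440) (.g (nat_lit 1184) (.e (nat_lit 164056) (nat_lit 56) (.e (nat_lit 786489) (nat_lit 34) (.e (nat_lit 393271) (nat_lit 23) (.e (nat_lit 426131) (nat_lit 3) (.e (nat_lit 204842) (nat_lit 22) (.e (nat_lit 147500) (nat_lit 12) .nil)))))) (.g (nat_lit 5) .nil .nil))) 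
(.lf (nat_lit 255472) (.g (nat_lit 848) (.e (nat_lit 164058) (nat_lit 56) (.e (nat_lit 786468) (nat_lit 27) (.e (nat_lit 336434) (nat_lit 30) (.e (nat_lit 450579) (nat_lit 5) (.e (nat_lit 532519) (nat_lit 5) (.e (nat_lit 147498) (nat_lit 12) .nil)))))) (.g (nat_lit 5) .nil .nil))))) (.nd (nat_lit 4) (.nd (nat_lit 5) 
(.lf (nat_lit 255432) (.g (nat_lit 1134) (.e (nat_lit 164056) (nat_lit 56) (.e (nat_lit 786457) (nat_lit 18) (.e (nat_lit 98370) (nat_lit 28) (.e (nat_lit 442390) (nat_lit 11) (.e (nat_lit 336049) (nat_lit 6) (.e (nat_lit 147503) (nat_lit 12) .nil)))))) (.g (nat_lit 0) .nil .nil))) 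
(.lf (nat_lit 255464) (.g (nat_lit 799) (.e (nat_lit 164058) (nat_lit 56) (.e (nat_lit 786457) (nat_lit 18) (.e (nat_lit 98369) (nat_lit 28) (.e (nat_lit 442390) (nat_lit 11) (.e (nat_lit 336049) (nat_lit 6) (.e (nat_lit 147498) (nat_lit 12) .nil)))))) (.g (nat_lit 5) .nil .nil)))) (.nd (nat_lit 5) 
(.lf (nat_lit 255448) (.g (nat_lit 945) (.e (nat_lit 164056) (nat_lit 56) (.e (nat_lit 786489) (nat_lit 34) (.e (nat_lit 393287) (nat_lit 25) (.e (nat_lit 458789) (nat_lit 23) (.e (nat_lit 532519) (nat_lit 5) (.e (nat_lit 147500) (nat_lit 12) .nil)))))) (.g (nat_lit 5) .nil .nil))) 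
(.lf (nat_lit 255480) (.g (nat_lit 2435) (.e (nat_lit 164058) (nat_lit 56) (.e (nat_lit 786489) (nat_lit 34) (.e (nat_lit 393301) (nat_lit 27) (.e (nat_lit 491539) (nat_lit 3) (.e (nat_lit 98339) (nat_lit 19) (.e (nat_lit 213035) (nat_lit 12) .nil)))))) (.g (nat_lit 6) .nil .nil)))))) (.nd (nat_lit 3) (.nd (nat_lit 4) (.nd (nat_lit 5) 
(.lf (nat_lit 255428) (.g (nat_lit 802) (.e (nat_lit 164056) (nat_lit 56) (.e (nat_lit 786457) (nat_lit 18) (.e (nat_lit 98369) (nat_lit 28) (.e (nat_lit 442390) (nat_lit 11) (.e (nat_lit 336049) (nat_lit 6) (.e (nat_lit 147500) (nat_lit 12) .nil)))))) (.g (nat_lit 5) .nil .nil))) 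
(.lf (nat_lit 255460) (.g (nat_lit 1419) (.e (nat_lit 164058) (nat_lit 56) (.e (nat_lit 786455) (nat_lit 17) (.e (nat_lit 90170) (nat_lit 13) (.e (nat_lit 172065) (nat_lit 3) (.e (nat_lit 204834) (nat_lit 19) .nil))))) .nil))) (.nd (nat_lit 5) 
(.lf (nat_lit 255444) (.g (nat_lit 1103) (.e (nat_lit 164056) (nat_lit 56) (.e (nat_lit 786489) (nat_lit 34) (.e (nat_lit 393282) (nat_lit 24) (.e (nat_lit 434231) (nat_lit 23) (.e (nat_lit 532519) (nat_lit 5) (.e (nat_lit 147504) (nat_lit 12) .nil)))))) (.g (nat_lit 0) .nil .nil))) 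
(.lf (nat_lit 255476) (.g (nat_lit 1673) (.e (nat_lit 164058) (nat_lit 56) (.e (nat_lit 786489) (nat_lit 34) (.e (nat_lit 393260) (nat_lit 21) (.e (nat_lit 409631) (nat_lit 12) (.e (nat_lit 32794) (nat_lit 14) (.e (nat_lit 2749) (nat_lit 175) (.e (nat_lit 262167) (nat_lit 12) .nil))))))) (.g (nat_lit 6) .nil .nil))))) (.nd (nat_lit 4) (.nd (nat_lit 5) 
(.lf (nat_lit 255436) (.g (nat_lit 799) (.e (nat_lit 164056) (nat_lit 56) (.e (nat_lit 786468) (nat_lit 27) (.e (nat_lit 336430) (nat_lit 29) (.e (nat_lit 442425) (nat_lit 23) (.e (nat_lit 204842) (nat_lit 22) (.e (nat_lit 147500) (nat_lit 12) .nil)))))) (.g (nat_lit 5) .nil .nil))) 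
(.lf (nat_lit 255468) (.g (nat_lit 802) (.e (nat_lit 164058) (nat_lit 56) (.e (nat_lit 786468) (nat_lit 27) (.e (nat_lit 336430) (nat_lit 29) (.e (nat_lit 442425) (nat_lit 23) (.e (nat_lit 204842) (nat_lit 22) (.e (nat_lit 147498) (nat_lit 12) .nil)))))) (.g (nat_lit 5) .nil .nil)))) (.nd (nat_lit 5) 
(.lf (nat_lit 255452) (.g (nat_lit 1686) (.e (nat_lit 164057) (nat_lit 56) (.e (nat_lit 786465) (nat_lit 25) (.e (nat_lit 319530) (nat_lit 16) (.e (nat_lit 286761) (nat_lit 13) (.e (nat_lit 401152) (nat_lit 5) (.e (nat_lit 147503) (nat_lit 12) .nil)))))) (.g (nat_lit 4) .nil .nil))) 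
(.lf (nat_lit 255484) (.g (nat_lit 1848) (.e (nat_lit 164063) (nat_lit 58) (.e (nat_lit 802822) (nat_lit 11) (.e (nat_lit 336027) (nat_lit 3) (.e (nat_lit 98372) (nat_lit 29) (.e (nat_lit 458496) (nat_lit 8) .nil))))) .nil)))))) (.nd (nat_lit 2) (.nd (nat_lit 3) (.nd (nat_lit 4) (.nd (nat_lit 5) 
(.lf (nat_lit 255426) (.g (nat_lit 970) (.e (nat_lit 164056) (nat_lit 56) (.e (nat_lit 786455) (nat_lit 17) (.e (nat_lit 90185) (nat_lit 17) (.e (nat_lit 237624) (nat_lit 13) (.e (nat_lit 483370) (nat_lit 20) (.e (nat_lit 147504) (nat_lit 12) .nil)))))) (.g (nat_lit 0) .nil .nil))) 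
(.lf (nat_lit 255458) (.g (nat_lit 2024) (.e (nat_lit 164057) (nat_lit 56) (.e (nat_lit 786489) (nat_lit 34) (.e (nat_lit 393301) (nat_lit 27) (.e (nat_lit 491538) (nat_lit 3) (.e (nat_lit 98338) (nat_lit 19) (.e (nat_lit 213035) (nat_lit 12) .nil)))))) (.g (nat_lit 5) .nil .nil)))) (.nd (nat_lit 5) 
(.lf (nat_lit 255442) (.g (nat_lit 1145) (.e (nat_lit 164056) (nat_lit 56) (.e (nat_lit 786489) (nat_lit 34) (.e (nat_lit 393281) (nat_lit 23) (.e (nat_lit 426133) (nat_lit 3) (.e (nat_lit 204842) (nat_lit 22) (.e (nat_lit 147500) (nat_lit 12) .nil)))))) (.g (nat_lit 5) .nil .nil))) 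
(.lf (nat_lit 255474) (.g (nat_lit 954) (.e (nat_lit 164058) (nat_lit 56) (.e (nat_lit 786468) (nat_lit 27) (.e (nat_lit 336443) (nat_lit 32) (.e (nat_lit 466981) (nat_lit 23) (.e (nat_lit 204842) (nat_lit 22) (.e (nat_lit 147498) (nat_lit 12) .nil)))))) (.g (nat_lit 5) .nil .nil))))) (.nd (nat_lit 4) (.nd (nat_lit 5) 
(.lf (nat_lit 255434) (.g (nat_lit 3718) (.e (nat_lit 164056) (nat_lit 56) (.e (nat_lit 786457) (nat_lit 18) (.e (nat_lit 98373) (nat_lit 29) (.e (nat_lit 450562) (nat_lit 0) (.e (nat_lit 6416) (nat_lit 341) (.e (nat_lit 163878) (nat_lit 4) (.e (nat_lit 213035) (nat_lit 12) .nil))))))) (.g (nat_lit 7) .nil .nil))) 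
(.lf (nat_lit 255466) (.g (nat_lit 3720) (.e (nat_lit 164058) (nat_lit 56) (.e (nat_lit 786457) (nat_lit 18) (.e (nat_lit 98373) (nat_lit 29) (.e (nat_lit 450562) (nat_lit 0) (.e (nat_lit 6416) (nat_lit 341) (.e (nat_lit 163878) (nat_lit 4) (.e (nat_lit 213035) (nat_lit 12) .nil))))))) (.g (nat_lit 7) .nil .nil)))) (.nd (nat_lit 5) 
(.lf (nat_lit 255450) (.g (nat_lit 2429) (.e (nat_lit 164056) (nat_lit 56) (.e (nat_lit 786489) (nat_lit 34) (.e (nat_lit 393301) (nat_lit 27) (.e (nat_lit 491539) (nat_lit 3) (.e (nat_lit 98339) (nat_lit 19) (.e (nat_lit 213035) (nat_lit 12) .nil)))))) (.g (nat_lit 6) .nil .nil))) 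
(.lf (nat_lit 255482) (.g (nat_lit 1741) (.e (nat_lit 164060) (nat_lit 57) (.e (nat_lit 794633) (nat_lit 11) (.e (nat_lit 336027) (nat_lit 3) (.e (nat_lit 98372) (nat_lit 29) (.e (nat_lit 458496) (nat_lit 8) (.e (nat_lit 557091) (nat_lit 12) .nil)))))) (.g (nat_lit 4) .nil .nil)))))) (.nd (nat_lit 3) (.nd (nat_lit 4) (.nd (nat_lit 5) 
(.lf (nat_lit 255430) (.g (nat_lit 824) (.e (nat_lit 164056) (nat_lit 56) (.e (nat_lit 786457) (nat_lit 18) (.e (nat_lit 98369) (nat_lit 28) (.e (nat_lit 442390) (nat_lit 11) (.e (nat_lit 336049) (nat_lit 6) (.e (nat_lit 147504) (nat_lit 12) .nil)))))) (.g (nat_lit 0) .nil .nil))) 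
(.lf (nat_lit 255462) (.g (nat_lit 853) (.e (nat_lit 164058) (nat_lit 56) (.e (nat_lit 786455) (nat_lit 17) (.e (nat_lit 90176) (nat_lit 15) (.e (nat_lit 188423) (nat_lit 11) (.e (nat_lit 336049) (nat_lit 6) (.e (nat_lit 147498) (nat_lit 12) .nil)))))) (.g (nat_lit 5) .nil .nil)))) (.nd (nat_lit 5) 
(.lf (nat_lit 255446) (.g (nat_lit 1217) (.e (nat_lit 164056) (nat_lit 56) (.e (nat_lit 786489) (nat_lit 34) (.e (nat_lit 393283) (nat_lit 24) (.e (nat_lit 434231) (nat_lit 23) (.e (nat_lit 532519) (nat_lit 5) (.e (nat_lit 147504) (nat_lit 12) .nil)))))) (.g (nat_lit 0) .nil .nil))) 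
(.lf (nat_lit 255478) (.g (nat_lit 2652) (.e (nat_lit 164058) (nat_lit 56) (.e (nat_lit 786489) (nat_lit 34) (.e (nat_lit 393283) (nat_lit 24) (.e (nat_lit 434238) (nat_lit 25) (.e (nat_lit 548898) (nat_lit 14) (.e (nat_lit 2749) (nat_lit 175) (.e (nat_lit 262167) (nat_lit 12) .nil))))))) (.g (nat_lit 6) .nil .nil))))) (.nd (nat_lit 4) (.nd (nat_lit 5) 
(.lf (nat_lit 255438) (.g (nat_lit 901) (.e (nat_lit 164056) (nat_lit 56) (.e (nat_lit 786468) (nat_lit 27) (.e (nat_lit 336443) (nat_lit 32) (.e (nat_lit 466979) (nat_lit 23) (.e (nat_lit 204842) (nat_lit 22) (.e (nat_lit 147500) (nat_lit 12) .nil)))))) (.g (nat_lit 5) .nil .nil))) 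
(.lf (nat_lit 255470) (.g (nat_lit 1239) (.e (nat_lit 164058) (nat_lit 56) (.e (nat_lit 786468) (nat_lit 27) (.e (nat_lit 336432) (nat_lit 30) (.e (nat_lit 450580) (nat_lit 5) (.e (nat_lit 532519) (nat_lit 5) (.e (nat_lit 147498) (nat_lit 12) .nil)))))) (.g (nat_lit 5) .nil .nil)))) (.nd (nat_lit 5) 
(.lf (nat_lit 255454) (.g (nat_lit 1851) (.e (nat_lit 164057) (nat_lit 56) (.e (nat_lit 786465) (nat_lit 25) (.e (nat_lit 319531) (nat_lit 16) (.e (nat_lit 286761) (nat_lit 13) (.e (nat_lit 401152) (nat_lit 5) (.e (nat_lit 147503) (nat_lit 12) .nil)))))) (.g (nat_lit 4) .nil .nil))) 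
(.lf (nat_lit 255486) (.g (nat_lit 1572) (.e (nat_lit 164065) (nat_lit 58) (.e (nat_lit 802822) (nat_lit 11) (.e (nat_lit 336027) (nat_lit 3) (.e (nat_lit 98381) (nat_lit 31) (.e (nat_lit 466967) (nat_lit 20) .nil))))) .nil))))))) (.nd (nat_lit 1) (.nd (nat_lit 2) (.nd (nat_lit 3) (.nd (nat_lit 4) (.nd (nat_lit 5) 
(.lf (nat_lit 255425) (.g (nat_lit 946) (.e (nat_lit 164056) (nat_lit 56) (.e (nat_lit 786455) (nat_lit 17) (.e (nat_lit 90185) (nat_lit 17) (.e (nat_lit 237624) (nat_lit 13) (.e (nat_lit 483370) (nat_lit 20) (.e (nat_lit 147500) (nat_lit 12) .nil)))))) (.g (nat_lit 5) .nil .nil))) 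
(.lf (nat_lit 255457) (.g (nat_lit 1666) (.e (nat_lit 164057) (nat_lit 56) (.e (nat_lit 786489) (nat_lit 34) (.e (nat_lit 393301) (nat_lit 27) (.e (nat_lit 491538) (nat_lit 3) (.e (nat_lit 98338) (nat_lit 19) .nil))))) .nil))) (.nd (nat_lit 5) 
(.lf (nat_lit 255441) (.g (nat_lit 585) (.e (nat_lit 164056) (nat_lit 56) (.e (nat_lit 786489) (nat_lit 34) (.e (nat_lit 393279) (nat_lit 23) (.e (nat_lit 426129) (nat_lit 3) (.e (nat_lit 204842) (nat_lit 22) (.e (nat_lit 147500) (nat_lit 12) .nil)))))) (.g (nat_lit 5) .nil .nil))) 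
(.lf (nat_lit 255473) (.g (nat_lit 1344) (.e (nat_lit 164058) (nat_lit 56) (.e (nat_lit 786468) (nat_lit 27) (.e (nat_lit 336434) (nat_lit 30) (.e (nat_lit 450588) (nat_lit 10) (.e (nat_lit 573475) (nat_lit 12) .nil))))) .nil)))) (.nd (nat_lit 4) (.nd (nat_lit 5) 
(.lf (nat_lit 255433) (.g (nat_lit 1105) (.e (nat_lit 164056) (nat_lit 56) (.e (nat_lit 786457) (nat_lit 18) (.e (nat_lit 98370) (nat_lit 28) (.e (nat_lit 442390) (nat_lit 11) (.e (nat_lit 336049) (nat_lit 6) (.e (nat_lit 147504) (nat_lit 12) .nil)))))) (.g (nat_lit 0) .nil .nil))) 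
(.lf (nat_lit 255465) (.g (nat_lit 1085) (.e (nat_lit 164058) (nat_lit 56) (.e (nat_lit 786457) (nat_lit 18) (.e (nat_lit 98370) (nat_lit 28) (.e (nat_lit 442390) (nat_lit 11) (.e (nat_lit 336049) (nat_lit 6) (.e (nat_lit 147498) (nat_lit 12) .nil)))))) (.g (nat_lit 5) .nil .nil)))) (.nd (nat_lit 5) 
(.lf (nat_lit 255449) (.g (nat_lit 1996) (.e (nat_lit 164056) (nat_lit 56) (.e (nat_lit 786489) (nat_lit 34) (.e (nat_lit 393301) (nat_lit 27) (.e (nat_lit 491538) (nat_lit 3) (.e (nat_lit 98338) (nat_lit 19) (.e (nat_lit 213035) (nat_lit 12) .nil)))))) (.g (nat_lit 6) .nil .nil))) 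
(.lf (nat_lit 255481) (.g (nat_lit 1704) (.e (nat_lit 164060) (nat_lit 57) (.e (nat_lit 794633) (nat_lit 11) (.e (nat_lit 336027) (nat_lit 3) (.e (nat_lit 98372) (nat_lit 29) (.e (nat_lit 458496) (nat_lit 8) .nil))))) .nil))))) (.nd (nat_lit 3) (.nd (nat_lit 4) (.nd (nat_lit 5) 
(.lf (nat_lit 255429) (.g (nat_lit 850) (.e (nat_lit 164056) (nat_lit 56) (.e (nat_lit 786457) (nat_lit 18) (.e (nat_lit 98369) (nat_lit 28) (.e (nat_lit 442390) (nat_lit 11) (.e (nat_lit 336049) (nat_lit 6) (.e (nat_lit 147503) (nat_lit 12) .nil)))))) (.g (nat_lit 0) .nil .nil))) 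
(.lf (nat_lit 255461) (.g (nat_lit 2085) (.e (nat_lit 164058) (nat_lit 56) (.e (nat_lit 786455) (nat_lit 17) (.e (nat_lit 90170) (nat_lit 13) (.e (nat_lit 172067) (nat_lit 3) (.e (nat_lit 204834) (nat_lit 19) .nil))))) .nil))) (.nd (nat_lit 5) 
(.lf (nat_lit 255445) (.g (nat_lit 1196) (.e (nat_lit 164056) (nat_lit 56) (.e (nat_lit 786489) (nat_lit 34) (.e (nat_lit 393283) (nat_lit 24) (.e (nat_lit 434231) (nat_lit 23) (.e (nat_lit 532519) (nat_lit 5) (.e (nat_lit 147500) (nat_lit 12) .nil)))))) (.g (nat_lit 5) .nil .nil))) 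
(.lf (nat_lit 255477) (.g (nat_lit 1149) (.e (nat_lit 164058) (nat_lit 56) (.e (nat_lit 786489) (nat_lit 34) (.e (nat_lit 393281) (nat_lit 23) (.e (nat_lit 426133) (nat_lit 3) (.e (nat_lit 204842) (nat_lit 22) (.e (nat_lit 147498) (nat_lit 12) .nil)))))) (.g (nat_lit 6) .nil .nil))))) (.nd (nat_lit 4) (.nd (nat_lit 5) 
(.lf (nat_lit 255437) (.g (nat_lit 1085) (.e (nat_lit 164056) (nat_lit 56) (.e (nat_lit 786468) (nat_lit 27) (.e (nat_lit 336430) (nat_lit 29) (.e (nat_lit 442427) (nat_lit 23) (.e (nat_lit 204842) (nat_lit 22) (.e (nat_lit 147500) (nat_lit 12) .nil)))))) (.g (nat_lit 5) .nil .nil))) 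
(.lf (nat_lit 255469) (.g (nat_lit 1083) (.e (nat_lit 164058) (nat_lit 56) (.e (nat_lit 786468) (nat_lit 27) (.e (nat_lit 336430) (nat_lit 29) (.e (nat_lit 442427) (nat_lit 23) (.e (nat_lit 204842) (nat_lit 22) (.e (nat_lit 147498) (nat_lit 12) .nil)))))) (.g (nat_lit 5) .nil .nil)))) (.nd (nat_lit 5) 
(.lf (nat_lit 255453) (.g (nat_lit 2305) (.e (nat_lit 164057) (nat_lit 56) (.e (nat_lit 786465) (nat_lit 25) (.e (nat_lit 319531) (nat_lit 16) (.e (nat_lit 286748) (nat_lit 9) (.e (nat_lit 336389) (nat_lit 27) (.e (nat_lit 433920) (nat_lit 23) (.e (nat_lit 147503) (nat_lit 12) .nil))))))) (.g (nat_lit 5) .nil .nil))) 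
(.lf (nat_lit 255485) (.g (nat_lit 1848) (.e (nat_lit 164064) (nat_lit 58) (.e (nat_lit 802822) (nat_lit 11) (.e (nat_lit 336027) (nat_lit 3) (.e (nat_lit 98372) (nat_lit 29) (.e (nat_lit 458496) (nat_lit 8) .nil))))) .nil)))))) (.nd (nat_lit 2) (.nd (nat_lit 3) (.nd (nat_lit 4) (.nd (nat_lit 5) 
(.lf (nat_lit 255427) (.g (nat_lit 1149) (.e (nat_lit 164056) (nat_lit 56) (.e (nat_lit 786457) (nat_lit 18) (.e (nat_lit 98358) (nat_lit 26) (.e (nat_lit 426323) (nat_lit 13) (.e (nat_lit 483370) (nat_lit 20) (.e (nat_lit 147500) (nat_lit 12) .nil)))))) (.g (nat_lit 6) .nil .nil))) 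
(.lf (nat_lit 255459) (.g (nat_lit 2497) (.e (nat_lit 164057) (nat_lit 56) (.e (nat_lit 786489) (nat_lit 34) (.e (nat_lit 393301) (nat_lit 27) (.e (nat_lit 491539) (nat_lit 3) (.e (nat_lit 98339) (nat_lit 19) (.e (nat_lit 213035) (nat_lit 12) .nil)))))) (.g (nat_lit 5) .nil .nil)))) (.nd (nat_lit 5) 
(.lf (nat_lit 255443) (.g (nat_lit 1080) (.e (nat_lit 164056) (nat_lit 56) (.e (nat_lit 786489) (nat_lit 34) (.e (nat_lit 393282) (nat_lit 24) (.e (nat_lit 434231) (nat_lit 23) (.e (nat_lit 532519) (nat_lit 5) (.e (nat_lit 147500) (nat_lit 12) .nil)))))) (.g (nat_lit 5) .nil .nil))) 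
(.lf (nat_lit 255475) (.g (nat_lit 472) (.e (nat_lit 164058) (nat_lit 56) (.e (nat_lit 786489) (nat_lit 34) (.e (nat_lit 393259) (nat_lit 21) (.e (nat_lit 409631) (nat_lit 12) .nil)))) .nil)))) (.nd (nat_lit 4) (.nd (nat_lit 5) 
(.lf (nat_lit 255435) (.g (nat_lit 3943) (.e (nat_lit 164056) (nat_lit 56) (.e (nat_lit 786457) (nat_lit 18) (.e (nat_lit 98373) (nat_lit 29) (.e (nat_lit 450563) (nat_lit 0) (.e (nat_lit 6416) (nat_lit 341) (.e (nat_lit 163878) (nat_lit 4) (.e (nat_lit 213035) (nat_lit 12) .nil))))))) (.g (nat_lit 7) .nil .nil))) 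
(.lf (nat_lit 255467) (.g (nat_lit 3945) (.e (nat_lit 164058) (nat_lit 56) (.e (nat_lit 786457) (nat_lit 18) (.e (nat_lit 98373) (nat_lit 29) (.e (nat_lit 450563) (nat_lit 0) (.e (nat_lit 6416) (nat_lit 341) (.e (nat_lit 163878) (nat_lit 4) (.e (nat_lit 213035) (nat_lit 12) .nil))))))) (.g (nat_lit 7) .nil .nil)))) (.nd (nat_lit 5) 
(.lf (nat_lit 255451) (.g (nat_lit 2153) (.e (nat_lit 164057) (nat_lit 56) (.e (nat_lit 786454) (nat_lit 17) (.e (nat_lit 90170) (nat_lit 13) (.e (nat_lit 172065) (nat_lit 3) (.e (nat_lit 204834) (nat_lit 19) .nil))))) .nil)) 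
(.lf (nat_lit 255483) (.g (nat_lit 3898) (.e (nat_lit 164061) (nat_lit 57) (.e (nat_lit 794659) (nat_lit 21) (.e (nat_lit 164398) (nat_lit 256) (.e (nat_lit 57427) (nat_lit 15) (.e (nat_lit 360474) (nat_lit 8) (.e (nat_lit 557091) (nat_lit 12) (.e (nat_lit 164003) (nat_lit 40) (.e (nat_lit 655373) (nat_lit 3) .nil)))))))) (.g (nat_lit 6) .nil .nil)))))) 
(.nd (nat_lit 3) (.nd (nat_lit 4) (.nd (nat_lit 5) 
(.lf (nat_lit 255431) (.g (nat_lit 1083) (.e (nat_lit 164056) (nat_lit 56) (.e (nat_lit 786457) (nat_lit 18) (.e (nat_lit 98370) (nat_lit 28) (.e (nat_lit 442390) (nat_lit 11) (.e (nat_lit 336049) (nat_lit 6) (.e (nat_lit 147500) (nat_lit 12) .nil)))))) (.g (nat_lit 5) .nil .nil))) 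
(.lf (nat_lit 255463) (.g (nat_lit 1244) (.e (nat_lit 164058) (nat_lit 56) (.e (nat_lit 786455) (nat_lit 17) (.e (nat_lit 90178) (nat_lit 15) (.e (nat_lit 188421) (nat_lit 11) (.e (nat_lit 336049) (nat_lit 6) (.e (nat_lit 147498) (nat_lit 12) .nil)))))) (.g (nat_lit 5) .nil .nil)))) (.nd (nat_lit 5) 
(.lf (nat_lit 255447) (.g (nat_lit 967) (.e (nat_lit 164056) (nat_lit 56) (.e (nat_lit 786489) (nat_lit 34) (.e (nat_lit 393286) (nat_lit 25) (.e (nat_lit 458789) (nat_lit 23) (.e (nat_lit 532519) (nat_lit 5) (.e (nat_lit 147500) (nat_lit 12) .nil)))))) (.g (nat_lit 5) .nil .nil))) 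
(.lf (nat_lit 255479) (.g (nat_lit 2004) (.e (nat_lit 164058) (nat_lit 56) (.e (nat_lit 786489) (nat_lit 34) (.e (nat_lit 393301) (nat_lit 27) (.e (nat_lit 491538) (nat_lit 3) (.e (nat_lit 98338) (nat_lit 19) (.e (nat_lit 213035) (nat_lit 12) .nil)))))) (.g (nat_lit 0) .nil .nil))))) (.nd (nat_lit 4) (.nd (nat_lit 5) 
(.lf (nat_lit 255439) (.g (nat_lit 951) (.e (nat_lit 164056) (nat_lit 56) (.e (nat_lit 786468) (nat_lit 27) (.e (nat_lit 336443) (nat_lit 32) (.e (nat_lit 466981) (nat_lit 23) (.e (nat_lit 204842) (nat_lit 22) (.e (nat_lit 147500) (nat_lit 12) .nil)))))) (.g (nat_lit 5) .nil .nil))) 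
(.lf (nat_lit 255471) (.g (nat_lit 3697) (.e (nat_lit 164058) (nat_lit 56) (.e (nat_lit 786468) (nat_lit 27) (.e (nat_lit 336432) (nat_lit 30) (.e (nat_lit 450588) (nat_lit 10) (.e (nat_lit 573475) (nat_lit 12) (.e (nat_lit 57516) (nat_lit 42) (.e (nat_lit 671782) (nat_lit 12) .nil))))))) (.g (nat_lit 7) .nil .nil)))) (.nd (nat_lit 5) 
(.lf (nat_lit 255455) (.g (nat_lit 1292) (.e (nat_lit 164057) (nat_lit 56) (.e (nat_lit 786477) (nat_lit 28) (.e (nat_lit 344177) (nat_lit 43) (.e (nat_lit 770073) (nat_lit 9) .nil)))) .nil)) 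
(.lf (nat_lit 255487) (.g (nat_lit 2489) (.e (nat_lit 164076) (nat_lit 61) (.e (nat_lit 2108) (nat_lit 142) (.e (nat_lit 704738) (nat_lit 11) (.e (nat_lit 16425) (nat_lit 7) (.e (nat_lit 409648) (nat_lit 18) .nil))))) .nil))))))))

noncomputable def tv3315 : DT := (.nd (nat_lit 0) (.nd (nat_lit 1) (.nd (nat_lit 2) (.nd (nat_lit 3) (.nd (nat_lit 4) (.nd (nat_lit 5) (.nd (nat_lit 6) 
(.lf (nat_lit 255488) (.g (nat_lit 1643) (.e (nat_lit 164077) (nat_lit 61) (.e (nat_lit 1800) (nat_lit 119) (.e (nat_lit 516174) (nat_lit 14) (.e (nat_lit 466974) (nat_lit 22) .nil)))) .nil)) 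
(.lf (nat_lit 255552) (.g (nat_lit 2219) (.e (nat_lit 171776) (nat_lit 64) (.e (nat_lit 98370) (nat_lit 28) (.e (nat_lit 442425) (nat_lit 23) (.e (nat_lit 204861) (nat_lit 26) (.e (nat_lit 335988) (nat_lit 1) .nil))))) .nil))) (.nd (nat_lit 6) 
(.lf (nat_lit 255520) (.g (nat_lit 1322) (.e (nat_lit 171776) (nat_lit 63) (.e (nat_lit 90158) (nat_lit 11) (.e (nat_lit 24651) (nat_lit 12) (.e (nat_lit 385065) (nat_lit 26) .nil)))) .nil)) 
(.lf (nat_lit 255584) (.g (nat_lit 2075) (.e (nat_lit 171776) (nat_lit 64) (.e (nat_lit 98373) (nat_lit 29) (.e (nat_lit 450579) (nat_lit 5) (.e (nat_lit 532542) (nat_lit 9) .nil)))) .nil)))) (.nd (nat_lit 5) (.nd (nat_lit 6) 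
(.lf (nat_lit 255504) (.g (nat_lit 847) (.e (nat_lit 171776) (nat_lit 62) (.e (nat_lit 57849) (nat_lit 252) (.e (nat_lit 57435) (nat_lit 17) (.e (nat_lit 384768) (nat_lit 16) .nil)))) .nil)) 
(.lf (nat_lit 255568) (.g (nat_lit 1501) (.e (nat_lit 171776) (nat_lit 64) (.e (nat_lit 98372) (nat_lit 29) (.e (nat_lit 450579) (nat_lit 5) (.e (nat_lit 532543) (nat_lit 10) .nil)))) .nil))) (.nd (nat_lit 6) 
(.lf (nat_lit 255536) (.g (nat_lit 2381) (.e (nat_lit 171776) (nat_lit 63) (.e (nat_lit 90176) (nat_lit 15) (.e (nat_lit 188447) (nat_lit 22) (.e (nat_lit 196666) (nat_lit 13) (.e (nat_lit 65563) (nat_lit 1) .nil))))) .nil)) 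
(.lf (nat_lit 255600) (.g (nat_lit 1946) (.e (nat_lit 171776) (nat_lit 65) (.e (nat_lit 106536) (nat_lit 11) (.e (nat_lit 16408) (nat_lit 1) (.e (nat_lit 164179) (nat_lit 154) (.e (nat_lit 57437) (nat_lit 17) .nil))))) .nil))))) (.nd (nat_lit 4) (.nd (nat_lit 5) (.nd (nat_lit 6) 
(.lf (nat_lit 255496) (.g (nat_lit 1924) (.e (nat_lit 171776) (nat_lit 62) (.e (nat_lit 57847) (nat_lit 252) (.e (nat_lit 57440) (nat_lit 18) (.e (nat_lit 385066) (nat_lit 26) (.e (nat_lit 532561) (nat_lit 14) .nil))))) .nil)) 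
(.lf (nat_lit 255560) (.g (nat_lit 429) (.e (nat_lit 171776) (nat_lit 64) (.e (nat_lit 98372) (nat_lit 29) (.e (nat_lit 450579) (nat_lit 5) .nil))) .nil))) (.nd (nat_lit 6) 
(.lf (nat_lit 255528) (.g (nat_lit 2446) (.e (nat_lit 171776) (nat_lit 63) (.e (nat_lit 90160) (nat_lit 11) (.e (nat_lit 24648) (nat_lit 12) (.e (nat_lit 385066) (nat_lit 26) (.e (nat_lit 532513) (nat_lit 3) .nil))))) .nil)) 
(.lf (nat_lit 255592) (.g (nat_lit 2045) (.e (nat_lit 171776) (nat_lit 65) (.e (nat_lit 106534) (nat_lit 11) (.e (nat_lit 16425) (nat_lit 7) (.e (nat_lit 409648) (nat_lit 18) (.e (nat_lit 303137) (nat_lit 10) .nil))))) .nil)))) (.nd (nat_lit 5) (.nd (nat_lit 6) 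
(.lf (nat_lit 255512) (.g (nat_lit 504) (.e (nat_lit 171776) (nat_lit 63) (.e (nat_lit 90128) (nat_lit 9) (.e (nat_lit 334) (nat_lit 26) .nil))) .nil)) 
(.lf (nat_lit 255576) (.g (nat_lit 1255) (.e (nat_lit 171776) (nat_lit 64) (.e (nat_lit 98373) (nat_lit 29) (.e (nat_lit 450573) (nat_lit 1) .nil))) .nil))) (.nd (nat_lit 6) 
(.lf (nat_lit 255544) (.g (nat_lit 1996) (.e (nat_lit 171776) (nat_lit 64) (.e (nat_lit 98317) (nat_lit 9) (.e (nat_lit 336194) (nat_lit 12) (.e (nat_lit 385066) (nat_lit 26) (.e (nat_lit 532515) (nat_lit 3) .nil))))) .nil)) 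
(.lf (nat_lit 255608) (.g (nat_lit 661) (.e (nat_lit 171776) (nat_lit 65) (.e (nat_lit 106536) (nat_lit 11) (.e (nat_lit 16459) (nat_lit 12) .nil))) .nil)))))) (.nd (nat_lit 3) (.nd (nat_lit 4) (.nd (nat_lit 5) (.nd (nat_lit 6) 
(.lf (nat_lit 255492) (.g (nat_lit 2311) (.e (nat_lit 164082) (nat_lit 61) (.e (nat_lit 1800) (nat_lit 119) (.e (nat_lit 516176) (nat_lit 14) (.e (nat_lit 466974) (nat_lit 22) (.e (nat_lit 196681) (nat_lit 17) .nil))))) .nil)) 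
(.lf (nat_lit 255556) (.g (nat_lit 2977) (.e (nat_lit 171776) (nat_lit 64) (.e (nat_lit 98370) (nat_lit 28) (.e (nat_lit 442427) (nat_lit 23) (.e (nat_lit 204861) (nat_lit 26) (.e (nat_lit 335988) (nat_lit 1) .nil))))) .nil))) (.nd (nat_lit 6) 
(.lf (nat_lit 255524) (.g (nat_lit 2230) (.e (nat_lit 171776) (nat_lit 63) (.e (nat_lit 90158) (nat_lit 11) (.e (nat_lit 24651) (nat_lit 12) (.e (nat_lit 385068) (nat_lit 26) (.e (nat_lit 532515) (nat_lit 3) .nil))))) .nil)) 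
(.lf (nat_lit 255588) (.g (nat_lit 1756) (.e (nat_lit 171776) (nat_lit 64) (.e (nat_lit 98381) (nat_lit 31) (.e (nat_lit 466974) (nat_lit 22) (.e (nat_lit 196681) (nat_lit 17) (.e (nat_lit 131086) (nat_lit 1) .nil))))) .nil)))) (.nd (nat_lit 5) (.nd (nat_lit 6) 
(.lf (nat_lit 255508) (.g (nat_lit 815) (.e (nat_lit 171776) (nat_lit 62) (.e (nat_lit 57849) (nat_lit 252) (.e (nat_lit 57443) (nat_lit 18) .nil))) .nil)) 
(.lf (nat_lit 255572) (.g (nat_lit 1426) (.e (nat_lit 171776) (nat_lit 64) (.e (nat_lit 98372) (nat_lit 29) (.e (nat_lit 450579) (nat_lit 5) (.e (nat_lit 532555) (nat_lit 13) .nil)))) .nil))) (.nd (nat_lit 6) 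
(.lf (nat_lit 255540) (.g (nat_lit 539) (.e (nat_lit 171776) (nat_lit 63) (.e (nat_lit 90185) (nat_lit 17) (.e (nat_lit 237605) (nat_lit 9) .nil))) .nil)) 
(.lf (nat_lit 255604) (.g (nat_lit 2217) (.e (nat_lit 171776) (nat_lit 65) (.e (nat_lit 106536) (nat_lit 11) (.e (nat_lit 16458) (nat_lit 12) (.e (nat_lit 475212) (nat_lit 42) (.e (nat_lit 720955) (nat_lit 25) .nil))))) .nil))))) (.nd (nat_lit 4) (.nd (nat_lit 5) (.nd (nat_lit 6) 
(.lf (nat_lit 255500) (.g (nat_lit 2137) (.e (nat_lit 171776) (nat_lit 62) (.e (nat_lit 57849) (nat_lit 252) (.e (nat_lit 57407) (nat_lit 12) (.e (nat_lit 336326) (nat_lit 18) .nil)))) .nil)) 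
(.lf (nat_lit 255564) (.g (nat_lit 2341) (.e (nat_lit 171776) (nat_lit 64) (.e (nat_lit 98372) (nat_lit 29) (.e (nat_lit 450579) (nat_lit 5) (.e (nat_lit 532530) (nat_lit 9) (.e (nat_lit 336036) (nat_lit 4) .nil))))) .nil))) (.nd (nat_lit 6) 
(.lf (nat_lit 255532) (.g (nat_lit 2055) (.e (nat_lit 171776) (nat_lit 63) (.e (nat_lit 90170) (nat_lit 13) (.e (nat_lit 172106) (nat_lit 10) (.e (nat_lit 434231) (nat_lit 23) (.e (nat_lit 532543) (nat_lit 10) .nil))))) .nil)) 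
(.lf (nat_lit 255596) (.g (nat_lit 2492) (.e (nat_lit 171776) (nat_lit 65) (.e (nat_lit 106534) (nat_lit 11) (.e (nat_lit 16461) (nat_lit 12) (.e (nat_lit 475214) (nat_lit 42) (.e (nat_lit 720955) (nat_lit 25) .nil))))) .nil)))) (.nd (nat_lit 5) (.nd (nat_lit 6) 
(.lf (nat_lit 255516) (.g (nat_lit 2172) (.e (nat_lit 171776) (nat_lit 63) (.e (nat_lit 90158) (nat_lit 11) (.e (nat_lit 24628) (nat_lit 9) (.e (nat_lit 336324) (nat_lit 18) (.e (nat_lit 204837) (nat_lit 20) .nil))))) .nil)) 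
(.lf (nat_lit 255580) (.g (nat_lit 3035) (.e (nat_lit 171776) (nat_lit 64) (.e (nat_lit 98373) (nat_lit 29) (.e (nat_lit 450579) (nat_lit 5) (.e (nat_lit 532530) (nat_lit 9) (.e (nat_lit 336000) (nat_lit 1) .nil))))) .nil))) (.nd (nat_lit 6) 
(.lf (nat_lit 255548) (.g (nat_lit 2294) (.e (nat_lit 171776) (nat_lit 64) (.e (nat_lit 98370) (nat_lit 28) (.e (nat_lit 442424) (nat_lit 22) (.e (nat_lit 196668) (nat_lit 14) (.e (nat_lit 73737) (nat_lit 0) .nil))))) .nil)) 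
(.lf (nat_lit 255612) (.g (nat_lit 1382) (.e (nat_lit 171776) (nat_lit 65) (.e (nat_lit 106536) (nat_lit 11) (.e (nat_lit 16461) (nat_lit 12) (.e (nat_lit 475212) (nat_lit 42) .nil)))) .nil))))))) (.nd (nat_lit 2) (.nd (nat_lit 3) (.nd (nat_lit 4) (.nd (nat_lit 5) (.nd (nat_lit 6) 
(.lf (nat_lit 255490) (.g (nat_lit 2301) (.e (nat_lit 164077) (nat_lit 61) (.e (nat_lit 1800) (nat_lit 119) (.e (nat_lit 516176) (nat_lit 14) (.e (nat_lit 466974) (nat_lit 22) (.e (nat_lit 196681) (nat_lit 17) .nil))))) .nil)) 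
(.lf (nat_lit 255554) (.g (nat_lit 1906) (.e (nat_lit 171776) (nat_lit 64) (.e (nat_lit 98370) (nat_lit 28) (.e (nat_lit 442427) (nat_lit 23) (.e (nat_lit 204858) (nat_lit 26) .nil)))) .nil))) (.nd (nat_lit 6) 
(.lf (nat_lit 255522) (.g (nat_lit 1710) (.e (nat_lit 171776) (nat_lit 63) (.e (nat_lit 90158) (nat_lit 11) (.e (nat_lit 24651) (nat_lit 12) (.e (nat_lit 385067) (nat_lit 26) (.e (nat_lit 532515) (nat_lit 3) .nil))))) .nil)) 
(.lf (nat_lit 255586) (.g (nat_lit 995) (.e (nat_lit 171776) (nat_lit 64) (.e (nat_lit 98373) (nat_lit 29) (.e (nat_lit 450580) (nat_lit 5) .nil))) .nil)))) (.nd (nat_lit 5) (.nd (nat_lit 6) 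
(.lf (nat_lit 255506) (.g (nat_lit 2167) (.e (nat_lit 171776) (nat_lit 62) (.e (nat_lit 57849) (nat_lit 252) (.e (nat_lit 57437) (nat_lit 17) (.e (nat_lit 376842) (nat_lit 11) (.e (nat_lit 426298) (nat_lit 11) .nil))))) .nil)) 
(.lf (nat_lit 255570) (.g (nat_lit 1460) (.e (nat_lit 171776) (nat_lit 64) (.e (nat_lit 98372) (nat_lit 29) (.e (nat_lit 450579) (nat_lit 5) (.e (nat_lit 532553) (nat_lit 13) .nil)))) .nil))) (.nd (nat_lit 6) 
(.lf (nat_lit 255538) (.g (nat_lit 936) (.e (nat_lit 171776) (nat_lit 63) (.e (nat_lit 90185) (nat_lit 17) (.e (nat_lit 237587) (nat_lit 2) .nil))) .nil)) 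
(.lf (nat_lit 255602) (.g (nat_lit 2635) (.e (nat_lit 171776) (nat_lit 65) (.e (nat_lit 106536) (nat_lit 11) (.e (nat_lit 16456) (nat_lit 12) (.e (nat_lit 475214) (nat_lit 42) (.e (nat_lit 720956) (nat_lit 25) .nil))))) .nil))))) (.nd (nat_lit 4) (.nd (nat_lit 5) (.nd (nat_lit 6) 
(.lf (nat_lit 255498) (.g (nat_lit 2973) (.e (nat_lit 171776) (nat_lit 62) (.e (nat_lit 57849) (nat_lit 252) (.e (nat_lit 57407) (nat_lit 12) (.e (nat_lit 336324) (nat_lit 18) (.e (nat_lit 204877) (nat_lit 31) .nil))))) .nil)) 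
(.lf (nat_lit 255562) (.g (nat_lit 1331) (.e (nat_lit 171776) (nat_lit 64) (.e (nat_lit 98372) (nat_lit 29) (.e (nat_lit 450579) (nat_lit 5) (.e (nat_lit 532530) (nat_lit 9) .nil)))) .nil))) (.nd (nat_lit 6) 
(.lf (nat_lit 255530) (.g (nat_lit 1908) (.e (nat_lit 171776) (nat_lit 63) (.e (nat_lit 90170) (nat_lit 13) (.e (nat_lit 172106) (nat_lit 10) (.e (nat_lit 434231) (nat_lit 23) .nil)))) .nil)) 
(.lf (nat_lit 255594) (.g (nat_lit 2223) (.e (nat_lit 171776) (nat_lit 65) (.e (nat_lit 106534) (nat_lit 11) (.e (nat_lit 16458) (nat_lit 12) (.e (nat_lit 475214) (nat_lit 42) (.e (nat_lit 720955) (nat_lit 25) .nil))))) .nil)))) (.nd (nat_lit 5) (.nd (nat_lit 6) 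
(.lf (nat_lit 255514) (.g (nat_lit 1214) (.e (nat_lit 171776) (nat_lit 63) (.e (nat_lit 90128) (nat_lit 9) (.e (nat_lit 334) (nat_lit 26) (.e (nat_lit 376865) (nat_lit 22) (.e (nat_lit 90185) (nat_lit 17) .nil))))) .nil)) 
(.lf (nat_lit 255578) (.g (nat_lit 1831) (.e (nat_lit 171776) (nat_lit 64) (.e (nat_lit 98373) (nat_lit 29) (.e (nat_lit 450579) (nat_lit 5) (.e (nat_lit 532530) (nat_lit 9) .nil)))) .nil))) (.nd (nat_lit 6) 
(.lf (nat_lit 255546) (.g (nat_lit 1206) (.e (nat_lit 171776) (nat_lit 64) (.e (nat_lit 98365) (nat_lit 26) (.e (nat_lit 426298) (nat_lit 11) (.e (nat_lit 458789) (nat_lit 23) (.e (nat_lit 532533) (nat_lit 9) .nil))))) .nil)) 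
(.lf (nat_lit 255610) (.g (nat_lit 2439) (.e (nat_lit 171776) (nat_lit 65) (.e (nat_lit 106536) (nat_lit 11) (.e (nat_lit 16459) (nat_lit 12) (.e (nat_lit 475214) (nat_lit 42) (.e (nat_lit 720956) (nat_lit 25) .nil))))) .nil)))))) (.nd (nat_lit 3) (.nd (nat_lit 4) (.nd (nat_lit 5) (.nd (nat_lit 6) 
(.lf (nat_lit 255494) (.g (nat_lit 1629) (.e (nat_lit 171776) (nat_lit 62) (.e (nat_lit 57847) (nat_lit 252) (.e (nat_lit 57437) (nat_lit 17) (.e (nat_lit 376842) (nat_lit 11) (.e (nat_lit 426298) (nat_lit 11) .nil))))) .nil)) 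
(.lf (nat_lit 255558) (.g (nat_lit 2675) (.e (nat_lit 171776) (nat_lit 64) (.e (nat_lit 98370) (nat_lit 28) (.e (nat_lit 442427) (nat_lit 23) (.e (nat_lit 204863) (nat_lit 27) (.e (nat_lit 344092) (nat_lit 18) .nil))))) .nil))) (.nd (nat_lit 6) 
(.lf (nat_lit 255526) (.g (nat_lit 856) (.e (nat_lit 171776) (nat_lit 63) (.e (nat_lit 90158) (nat_lit 11) (.e (nat_lit 24653) (nat_lit 12) (.e (nat_lit 385065) (nat_lit 26) .nil)))) .nil)) 
(.lf (nat_lit 255590) (.g (nat_lit 1871) (.e (nat_lit 171776) (nat_lit 64) (.e (nat_lit 98382) (nat_lit 31) (.e (nat_lit 466974) (nat_lit 22) (.e (nat_lit 196681) (nat_lit 17) (.e (nat_lit 131086) (nat_lit 1) .nil))))) .nil)))) (.nd (nat_lit 5) (.nd (nat_lit 6) 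
(.lf (nat_lit 255510) (.g (nat_lit 1921) (.e (nat_lit 171776) (nat_lit 62) (.e (nat_lit 57854) (nat_lit 252) (.e (nat_lit 57440) (nat_lit 18) (.e (nat_lit 385066) (nat_lit 26) (.e (nat_lit 532561) (nat_lit 14) .nil))))) .nil)) 
(.lf (nat_lit 255574) (.g (nat_lit 1676) (.e (nat_lit 171776) (nat_lit 64) (.e (nat_lit 98372) (nat_lit 29) (.e (nat_lit 450579) (nat_lit 5) (.e (nat_lit 532556) (nat_lit 13) (.e (nat_lit 368662) (nat_lit 18) .nil))))) .nil))) (.nd (nat_lit 6) 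
(.lf (nat_lit 255542) (.g (nat_lit 2356) (.e (nat_lit 171776) (nat_lit 64) (.e (nat_lit 98313) (nat_lit 9) (.e (nat_lit 336194) (nat_lit 12) (.e (nat_lit 385066) (nat_lit 26) (.e (nat_lit 532515) (nat_lit 3) .nil))))) .nil)) 
(.lf (nat_lit 255606) (.g (nat_lit 2529) (.e (nat_lit 171776) (nat_lit 65) (.e (nat_lit 106536) (nat_lit 11) (.e (nat_lit 16458) (nat_lit 12) (.e (nat_lit 475214) (nat_lit 42) (.e (nat_lit 720955) (nat_lit 25) .nil))))) .nil))))) (.nd (nat_lit 4) (.nd (nat_lit 5) (.nd (nat_lit 6) 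
(.lf (nat_lit 255502) (.g (nat_lit 1341) (.e (nat_lit 171776) (nat_lit 62) (.e (nat_lit 57849) (nat_lit 252) (.e (nat_lit 57411) (nat_lit 12) (.e (nat_lit 336115) (nat_lit 9) .nil)))) .nil)) 
(.lf (nat_lit 255566) (.g (nat_lit 1397) (.e (nat_lit 171776) (nat_lit 64) (.e (nat_lit 98372) (nat_lit 29) (.e (nat_lit 450579) (nat_lit 5) (.e (nat_lit 532534) (nat_lit 9) .nil)))) .nil))) (.nd (nat_lit 6) 
(.lf (nat_lit 255534) (.g (nat_lit 3457) (.e (nat_lit 171776) (nat_lit 63) (.e (nat_lit 90170) (nat_lit 13) (.e (nat_lit 172106) (nat_lit 10) (.e (nat_lit 434231) (nat_lit 23) (.e (nat_lit 532553) (nat_lit 13) .nil))))) .nil)) 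
(.lf (nat_lit 255598) (.g (nat_lit 938) (.e (nat_lit 171776) (nat_lit 65) (.e (nat_lit 106536) (nat_lit 11) (.e (nat_lit 16405) (nat_lit 1) .nil))) .nil)))) (.nd (nat_lit 5) (.nd (nat_lit 6) 
(.lf (nat_lit 255518) (.g (nat_lit 439) (.e (nat_lit 171776) (nat_lit 63) (.e (nat_lit 90158) (nat_lit 11) (.e (nat_lit 24650) (nat_lit 12) .nil))) .nil)) 
(.lf (nat_lit 255582) (.g (nat_lit 3231) (.e (nat_lit 171776) (nat_lit 64) (.e (nat_lit 98373) (nat_lit 29) (.e (nat_lit 450579) (nat_lit 5) (.e (nat_lit 532534) (nat_lit 9) (.e (nat_lit 335999) (nat_lit 1) .nil))))) .nil))) (.nd (nat_lit 6) 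
(.lf (nat_lit 255550) (.g (nat_lit 2899) (.e (nat_lit 171776) (nat_lit 64) (.e (nat_lit 98370) (nat_lit 28) (.e (nat_lit 442424) (nat_lit 22) (.e (nat_lit 196681) (nat_lit 17) (.e (nat_lit 131088) (nat_lit 1) .nil))))) .nil)) 
(.lf (nat_lit 255614) (.g (nat_lit 1486) (.e (nat_lit 171776) (nat_lit 65) (.e (nat_lit 106536) (nat_lit 11) (.e (nat_lit 16461) (nat_lit 12) (.e (nat_lit 475213) (nat_lit 42) (.e (nat_lit 720956) (nat_lit 25) .nil))))) .nil)))))))) (.nd (nat_lit 1) (.nd (nat_lit 2) (.nd (nat_lit 3) (.nd (nat_lit 4) (.nd (nat_lit 5) (.nd (nat_lit 6) 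
(.lf (nat_lit 255489) (.g (nat_lit 499) (.e (nat_lit 164077) (nat_lit 61) (.e (nat_lit 1800) (nat_lit 119) (.e (nat_lit 516176) (nat_lit 14) .nil))) .nil)) 
(.lf (nat_lit 255553) (.g (nat_lit 1909) (.e (nat_lit 171776) (nat_lit 64) (.e (nat_lit 98370) (nat_lit 28) (.e (nat_lit 442426) (nat_lit 23) (.e (nat_lit 204861) (nat_lit 26) (.e (nat_lit 335988) (nat_lit 1) .nil))))) .nil))) (.nd (nat_lit 6) 
(.lf (nat_lit 255521) (.g (nat_lit 1974) (.e (nat_lit 171776) (nat_lit 63) (.e (nat_lit 90158) (nat_lit 11) (.e (nat_lit 24651) (nat_lit 12) (.e (nat_lit 385066) (nat_lit 26) (.e (nat_lit 532513) (nat_lit 3) .nil))))) .nil)) 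
(.lf (nat_lit 255585) (.g (nat_lit 2049) (.e (nat_lit 171776) (nat_lit 64) (.e (nat_lit 98373) (nat_lit 29) (.e (nat_lit 450579) (nat_lit 5) (.e (nat_lit 532553) (nat_lit 13) .nil)))) .nil)))) (.nd (nat_lit 5) (.nd (nat_lit 6) 
(.lf (nat_lit 255505) (.g (nat_lit 1354) (.e (nat_lit 171776) (nat_lit 62) (.e (nat_lit 57849) (nat_lit 252) (.e (nat_lit 57437) (nat_lit 17) (.e (nat_lit 376842) (nat_lit 11) .nil)))) .nil)) 
(.lf (nat_lit 255569) (.g (nat_lit 1672) (.e (nat_lit 171776) (nat_lit 64) (.e (nat_lit 98372) (nat_lit 29) (.e (nat_lit 450579) (nat_lit 5) (.e (nat_lit 532552) (nat_lit 13) .nil)))) .nil))) (.nd (nat_lit 6) 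
(.lf (nat_lit 255537) (.g (nat_lit 1769) (.e (nat_lit 171776) (nat_lit 63) (.e (nat_lit 90176) (nat_lit 15) (.e (nat_lit 188447) (nat_lit 22) (.e (nat_lit 196681) (nat_lit 17) .nil)))) .nil)) 
(.lf (nat_lit 255601) (.g (nat_lit 862) (.e (nat_lit 171776) (nat_lit 65) (.e (nat_lit 106536) (nat_lit 11) (.e (nat_lit 16456) (nat_lit 12) .nil))) .nil))))) (.nd (nat_lit 4) (.nd (nat_lit 5) (.nd (nat_lit 6) 
(.lf (nat_lit 255497) (.g (nat_lit 2459) (.e (nat_lit 171776) (nat_lit 62) (.e (nat_lit 57849) (nat_lit 252) (.e (nat_lit 57407) (nat_lit 12) (.e (nat_lit 336316) (nat_lit 17) .nil)))) .nil)) 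
(.lf (nat_lit 255561) (.g (nat_lit 1388) (.e (nat_lit 171776) (nat_lit 64) (.e (nat_lit 98372) (nat_lit 29) (.e (nat_lit 450579) (nat_lit 5) (.e (nat_lit 532526) (nat_lit 8) .nil)))) .nil))) (.nd (nat_lit 6) 
(.lf (nat_lit 255529) (.g (nat_lit 2441) (.e (nat_lit 171776) (nat_lit 63) (.e (nat_lit 90160) (nat_lit 11) (.e (nat_lit 24648) (nat_lit 12) (.e (nat_lit 385066) (nat_lit 26) (.e (nat_lit 532515) (nat_lit 3) .nil))))) .nil)) 
(.lf (nat_lit 255593) (.g (nat_lit 1774) (.e (nat_lit 171776) (nat_lit 65) (.e (nat_lit 106534) (nat_lit 11) (.e (nat_lit 16425) (nat_lit 7) (.e (nat_lit 409649) (nat_lit 18) (.e (nat_lit 303140) (nat_lit 10) .nil))))) .nil)))) (.nd (nat_lit 5) (.nd (nat_lit 6) 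
(.lf (nat_lit 255513) (.g (nat_lit 1320) (.e (nat_lit 171776) (nat_lit 63) (.e (nat_lit 90128) (nat_lit 9) (.e (nat_lit 334) (nat_lit 26) (.e (nat_lit 376862) (nat_lit 22) (.e (nat_lit 90185) (nat_lit 17) .nil))))) .nil)) 
(.lf (nat_lit 255577) (.g (nat_lit 793) (.e (nat_lit 171776) (nat_lit 64) (.e (nat_lit 98373) (nat_lit 29) (.e (nat_lit 450579) (nat_lit 5) .nil))) .nil))) (.nd (nat_lit 6) 
(.lf (nat_lit 255545) (.g (nat_lit 706) (.e (nat_lit 171776) (nat_lit 64) (.e (nat_lit 98365) (nat_lit 26) (.e (nat_lit 426298) (nat_lit 11) (.e (nat_lit 458789) (nat_lit 23) .nil)))) .nil)) 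
(.lf (nat_lit 255609) (.g (nat_lit 1516) (.e (nat_lit 171776) (nat_lit 65) (.e (nat_lit 106536) (nat_lit 11) (.e (nat_lit 16459) (nat_lit 12) (.e (nat_lit 475212) (nat_lit 42) .nil)))) .nil)))))) (.nd (nat_lit 3) (.nd (nat_lit 4) (.nd (nat_lit 5) (.nd (nat_lit 6) 
(.lf (nat_lit 255493) (.g (nat_lit 1637) (.e (nat_lit 171776) (nat_lit 62) (.e (nat_lit 57847) (nat_lit 252) (.e (nat_lit 57437) (nat_lit 17) (.e (nat_lit 376842) (nat_lit 11) (.e (nat_lit 426296) (nat_lit 11) .nil))))) .nil)) 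
(.lf (nat_lit 255557) (.g (nat_lit 1485) (.e (nat_lit 171776) (nat_lit 64) (.e (nat_lit 98370) (nat_lit 28) (.e (nat_lit 442427) (nat_lit 23) (.e (nat_lit 204863) (nat_lit 27) .nil)))) .nil))) (.nd (nat_lit 6) 
(.lf (nat_lit 255525) (.g (nat_lit 454) (.e (nat_lit 171776) (nat_lit 63) (.e (nat_lit 90158) (nat_lit 11) (.e (nat_lit 24653) (nat_lit 12) .nil))) .nil)) 
(.lf (nat_lit 255589) (.g (nat_lit 54) (.e (nat_lit 171776) (nat_lit 64) (.e (nat_lit 98382) (nat_lit 31) (.e (nat_lit 466974) (nat_lit 22) .nil))) .nil)))) (.nd (nat_lit 5) (.nd (nat_lit 6) 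
(.lf (nat_lit 255509) (.g (nat_lit 762) (.e (nat_lit 171776) (nat_lit 62) (.e (nat_lit 57852) (nat_lit 252) (.e (nat_lit 57419) (nat_lit 12) .nil))) .nil)) 
(.lf (nat_lit 255573) (.g (nat_lit 1522) (.e (nat_lit 171776) (nat_lit 64) (.e (nat_lit 98372) (nat_lit 29) (.e (nat_lit 450579) (nat_lit 5) (.e (nat_lit 532556) (nat_lit 13) .nil)))) .nil))) (.nd (nat_lit 6) 
(.lf (nat_lit 255541) (.g (nat_lit 1538) (.e (nat_lit 171776) (nat_lit 64) (.e (nat_lit 98313) (nat_lit 9) (.e (nat_lit 336194) (nat_lit 12) (.e (nat_lit 385066) (nat_lit 26) .nil)))) .nil)) 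
(.lf (nat_lit 255605) (.g (nat_lit 2209) (.e (nat_lit 171776) (nat_lit 65) (.e (nat_lit 106536) (nat_lit 11) (.e (nat_lit 16458) (nat_lit 12) (.e (nat_lit 475212) (nat_lit 42) (.e (nat_lit 720956) (nat_lit 25) .nil))))) .nil))))) (.nd (nat_lit 4) (.nd (nat_lit 5) (.nd (nat_lit 6) 
(.lf (nat_lit 255501) (.g (nat_lit 2711) (.e (nat_lit 171776) (nat_lit 62) (.e (nat_lit 57849) (nat_lit 252) (.e (nat_lit 57407) (nat_lit 12) (.e (nat_lit 336326) (nat_lit 18) (.e (nat_lit 204877) (nat_lit 31) .nil))))) .nil)) 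
(.lf (nat_lit 255565) (.g (nat_lit 1567) (.e (nat_lit 171776) (nat_lit 64) (.e (nat_lit 98372) (nat_lit 29) (.e (nat_lit 450579) (nat_lit 5) (.e (nat_lit 532533) (nat_lit 9) .nil)))) .nil))) (.nd (nat_lit 6) 
(.lf (nat_lit 255533) (.g (nat_lit 2083) (.e (nat_lit 171776) (nat_lit 63) (.e (nat_lit 90170) (nat_lit 13) (.e (nat_lit 172106) (nat_lit 10) (.e (nat_lit 434231) (nat_lit 23) (.e (nat_lit 532544) (nat_lit 10) .nil))))) .nil)) 
(.lf (nat_lit 255597) (.g (nat_lit 2155) (.e (nat_lit 171776) (nat_lit 65) (.e (nat_lit 106534) (nat_lit 11) (.e (nat_lit 16461) (nat_lit 12) (.e (nat_lit 475214) (nat_lit 42) (.e (nat_lit 720956) (nat_lit 25) .nil))))) .nil)))) (.nd (nat_lit 5) (.nd (nat_lit 6) 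
(.lf (nat_lit 255517) (.g (nat_lit 2004) (.e (nat_lit 171776) (nat_lit 63) (.e (nat_lit 90158) (nat_lit 11) (.e (nat_lit 24648) (nat_lit 12) (.e (nat_lit 385066) (nat_lit 26) (.e (nat_lit 532513) (nat_lit 3) .nil))))) .nil)) 
(.lf (nat_lit 255581) (.g (nat_lit 1936) (.e (nat_lit 171776) (nat_lit 64) (.e (nat_lit 98373) (nat_lit 29) (.e (nat_lit 450579) (nat_lit 5) (.e (nat_lit 532533) (nat_lit 9) .nil)))) .nil))) (.nd (nat_lit 6) 
(.lf (nat_lit 255549) (.g (nat_lit 3033) (.e (nat_lit 171776) (nat_lit 64) (.e (nat_lit 98370) (nat_lit 28) (.e (nat_lit 442424) (nat_lit 22) (.e (nat_lit 196681) (nat_lit 17) (.e (nat_lit 131086) (nat_lit 1) .nil))))) .nil)) 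
(.lf (nat_lit 255613) (.g (nat_lit 2206) (.e (nat_lit 171776) (nat_lit 65) (.e (nat_lit 106536) (nat_lit 11) (.e (nat_lit 16461) (nat_lit 12) (.e (nat_lit 475212) (nat_lit 42) (.e (nat_lit 720956) (nat_lit 25) .nil))))) .nil))))))) (.nd (nat_lit 2) (.nd (nat_lit 3) (.nd (nat_lit 4) (.nd (nat_lit 5) (.nd (nat_lit 6) 
(.lf (nat_lit 255491) (.g (nat_lit 1316) (.e (nat_lit 164078) (nat_lit 61) (.e (nat_lit 1800) (nat_lit 119) (.e (nat_lit 516176) (nat_lit 14) (.e (nat_lit 466977) (nat_lit 22) .nil)))) .nil)) 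
(.lf (nat_lit 255555) (.g (nat_lit 1891) (.e (nat_lit 171776) (nat_lit 64) (.e (nat_lit 98370) (nat_lit 28) (.e (nat_lit 442427) (nat_lit 23) (.e (nat_lit 204861) (nat_lit 26) .nil)))) .nil))) (.nd (nat_lit 6) 
(.lf (nat_lit 255523) (.g (nat_lit 1304) (.e (nat_lit 171776) (nat_lit 63) (.e (nat_lit 90158) (nat_lit 11) (.e (nat_lit 24651) (nat_lit 12) (.e (nat_lit 385068) (nat_lit 26) .nil)))) .nil)) 
(.lf (nat_lit 255587) (.g (nat_lit 2365) (.e (nat_lit 171776) (nat_lit 64) (.e (nat_lit 98373) (nat_lit 29) (.e (nat_lit 450580) (nat_lit 5) (.e (nat_lit 532542) (nat_lit 9) .nil)))) .nil)))) (.nd (nat_lit 5) (.nd (nat_lit 6) 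
(.lf (nat_lit 255507) (.g (nat_lit 1284) (.e (nat_lit 171776) (nat_lit 62) (.e (nat_lit 57849) (nat_lit 252) (.e (nat_lit 57437) (nat_lit 17) (.e (nat_lit 384768) (nat_lit 16) .nil)))) .nil)) 
(.lf (nat_lit 255571) (.g (nat_lit 1794) (.e (nat_lit 171776) (nat_lit 64) (.e (nat_lit 98372) (nat_lit 29) (.e (nat_lit 450579) (nat_lit 5) (.e (nat_lit 532554) (nat_lit 13) .nil)))) .nil))) (.nd (nat_lit 6) 
(.lf (nat_lit 255539) (.g (nat_lit 930) (.e (nat_lit 171776) (nat_lit 63) (.e (nat_lit 90185) (nat_lit 17) (.e (nat_lit 237590) (nat_lit 2) .nil))) .nil)) 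
(.lf (nat_lit 255603) (.g (nat_lit 2432) (.e (nat_lit 171776) (nat_lit 65) (.e (nat_lit 106536) (nat_lit 11) (.e (nat_lit 16457) (nat_lit 12) (.e (nat_lit 475214) (nat_lit 42) (.e (nat_lit 720956) (nat_lit 25) .nil))))) .nil))))) (.nd (nat_lit 4) (.nd (nat_lit 5) (.nd (nat_lit 6) 
(.lf (nat_lit 255499) (.g (nat_lit 3139) (.e (nat_lit 171776) (nat_lit 62) (.e (nat_lit 57849) (nat_lit 252) (.e (nat_lit 57407) (nat_lit 12) (.e (nat_lit 336324) (nat_lit 18) (.e (nat_lit 204878) (nat_lit 31) .nil))))) .nil)) 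
(.lf (nat_lit 255563) (.g (nat_lit 2164) (.e (nat_lit 171776) (nat_lit 64) (.e (nat_lit 98372) (nat_lit 29) (.e (nat_lit 450579) (nat_lit 5) (.e (nat_lit 532530) (nat_lit 9) (.e (nat_lit 335878) (nat_lit 0) .nil))))) .nil))) (.nd (nat_lit 6) 
(.lf (nat_lit 255531) (.g (nat_lit 2942) (.e (nat_lit 171776) (nat_lit 63) (.e (nat_lit 90170) (nat_lit 13) (.e (nat_lit 172106) (nat_lit 10) (.e (nat_lit 434231) (nat_lit 23) (.e (nat_lit 532526) (nat_lit 8) .nil))))) .nil)) 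
(.lf (nat_lit 255595) (.g (nat_lit 2161) (.e (nat_lit 171776) (nat_lit 65) (.e (nat_lit 106534) (nat_lit 11) (.e (nat_lit 16458) (nat_lit 12) (.e (nat_lit 475214) (nat_lit 42) (.e (nat_lit 720956) (nat_lit 25) .nil))))) .nil)))) (.nd (nat_lit 5) (.nd (nat_lit 6) 
(.lf (nat_lit 255515) (.g (nat_lit 1525) (.e (nat_lit 171776) (nat_lit 63) (.e (nat_lit 90158) (nat_lit 11) (.e (nat_lit 24625) (nat_lit 9) (.e (nat_lit 336324) (nat_lit 18) .nil)))) .nil)) 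
(.lf (nat_lit 255579) (.g (nat_lit 3214) (.e (nat_lit 171776) (nat_lit 64) (.e (nat_lit 98373) (nat_lit 29) (.e (nat_lit 450579) (nat_lit 5) (.e (nat_lit 532530) (nat_lit 9) (.e (nat_lit 335999) (nat_lit 1) .nil))))) .nil))) (.nd (nat_lit 6) 
(.lf (nat_lit 255547) (.g (nat_lit 1573) (.e (nat_lit 171776) (nat_lit 64) (.e (nat_lit 98370) (nat_lit 28) (.e (nat_lit 442424) (nat_lit 22) (.e (nat_lit 196666) (nat_lit 13) .nil)))) .nil)) 
(.lf (nat_lit 255611) (.g (nat_lit 2432) (.e (nat_lit 171776) (nat_lit 65) (.e (nat_lit 106536) (nat_lit 11) (.e (nat_lit 16460) (nat_lit 12) (.e (nat_lit 475214) (nat_lit 42) (.e (nat_lit 720956) (nat_lit 25) .nil))))) .nil)))))) (.nd (nat_lit 3) (.nd (nat_lit 4) (.nd (nat_lit 5) (.nd (nat_lit 6) 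
(.lf (nat_lit 255495) (.g (nat_lit 929) (.e (nat_lit 171776) (nat_lit 62) (.e (nat_lit 57847) (nat_lit 252) (.e (nat_lit 57437) (nat_lit 17) (.e (nat_lit 384768) (nat_lit 16) .nil)))) .nil)) 
(.lf (nat_lit 255559) (.g (nat_lit 806) (.e (nat_lit 171776) (nat_lit 64) (.e (nat_lit 98372) (nat_lit 29) (.e (nat_lit 450571) (nat_lit 1) (.e (nat_lit 500089) (nat_lit 22) .nil)))) .nil))) (.nd (nat_lit 6) 
(.lf (nat_lit 255527) (.g (nat_lit 866) (.e (nat_lit 171776) (nat_lit 63) (.e (nat_lit 90158) (nat_lit 11) (.e (nat_lit 24653) (nat_lit 12) (.e (nat_lit 385066) (nat_lit 26) .nil)))) .nil)) 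
(.lf (nat_lit 255591) (.g (nat_lit 753) (.e (nat_lit 171776) (nat_lit 65) (.e (nat_lit 106534) (nat_lit 11) (.e (nat_lit 16405) (nat_lit 1) .nil))) .nil)))) (.nd (nat_lit 5) (.nd (nat_lit 6) 
(.lf (nat_lit 255511) (.g (nat_lit 382) (.e (nat_lit 171776) (nat_lit 62) (.e (nat_lit 57927) (nat_lit 282) (.e (nat_lit 163931) (nat_lit 17) .nil))) .nil)) 
(.lf (nat_lit 255575) (.g (nat_lit 1128) (.e (nat_lit 171776) (nat_lit 64) (.e (nat_lit 98373) (nat_lit 29) (.e (nat_lit 450570) (nat_lit 1) .nil))) .nil))) (.nd (nat_lit 6) 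
(.lf (nat_lit 255543) (.g (nat_lit 2071) (.e (nat_lit 171776) (nat_lit 64) (.e (nat_lit 98317) (nat_lit 9) (.e (nat_lit 336194) (nat_lit 12) (.e (nat_lit 385066) (nat_lit 26) (.e (nat_lit 532513) (nat_lit 3) .nil))))) .nil)) 
(.lf (nat_lit 255607) (.g (nat_lit 2414) (.e (nat_lit 171776) (nat_lit 65) (.e (nat_lit 106536) (nat_lit 11) (.e (nat_lit 16458) (nat_lit 12) (.e (nat_lit 475214) (nat_lit 42) (.e (nat_lit 720956) (nat_lit 25) .nil))))) .nil))))) (.nd (nat_lit 4) (.nd (nat_lit 5) (.nd (nat_lit 6) 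
(.lf (nat_lit 255503) (.g (nat_lit 1195) (.e (nat_lit 171776) (nat_lit 62) (.e (nat_lit 57849) (nat_lit 252) (.e (nat_lit 57435) (nat_lit 17) (.e (nat_lit 376842) (nat_lit 11) .nil)))) .nil)) 
(.lf (nat_lit 255567) (.g (nat_lit 2210) (.e (nat_lit 171776) (nat_lit 64) (.e (nat_lit 98372) (nat_lit 29) (.e (nat_lit 450579) (nat_lit 5) (.e (nat_lit 532534) (nat_lit 9) (.e (nat_lit 335878) (nat_lit 0) .nil))))) .nil))) (.nd (nat_lit 6) 
(.lf (nat_lit 255535) (.g (nat_lit 2673) (.e (nat_lit 171776) (nat_lit 63) (.e (nat_lit 90170) (nat_lit 13) (.e (nat_lit 172106) (nat_lit 10) (.e (nat_lit 434231) (nat_lit 23) (.e (nat_lit 532554) (nat_lit 13) .nil))))) .nil)) 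
(.lf (nat_lit 255599) (.g (nat_lit 986) (.e (nat_lit 171776) (nat_lit 65) (.e (nat_lit 106536) (nat_lit 11) (.e (nat_lit 16407) (nat_lit 1) .nil))) .nil)))) (.nd (nat_lit 5) (.nd (nat_lit 6) 
(.lf (nat_lit 255519) (.g (nat_lit 1316) (.e (nat_lit 171776) (nat_lit 63) (.e (nat_lit 90158) (nat_lit 11) (.e (nat_lit 24650) (nat_lit 12) (.e (nat_lit 385066) (nat_lit 26) (.e (nat_lit 532515) (nat_lit 3) .nil))))) .nil)) 
(.lf (nat_lit 255583) (.g (nat_lit 3198) (.e (nat_lit 171776) (nat_lit 64) (.e (nat_lit 98373) (nat_lit 29) (.e (nat_lit 450579) (nat_lit 5) (.e (nat_lit 532534) (nat_lit 9) (.e (nat_lit 336000) (nat_lit 1) .nil))))) .nil))) (.nd (nat_lit 6) 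
(.lf (nat_lit 255551) (.g (nat_lit 2882) (.e (nat_lit 171776) (nat_lit 64) (.e (nat_lit 98370) (nat_lit 28) (.e (nat_lit 442424) (nat_lit 22) (.e (nat_lit 196681) (nat_lit 17) (.e (nat_lit 131089) (nat_lit 1) .nil))))) .nil)) 
(.lf (nat_lit 255615) (.g (nat_lit 2443) (.e (nat_lit 171776) (nat_lit 65) (.e (nat_lit 106536) (nat_lit 11) (.e (nat_lit 16461) (nat_lit 12) (.e (nat_lit 475214) (nat_lit 42) (.e (nat_lit 720956) (nat_lit 25) .nil))))) .nil)))))))))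

noncomputable def tv3316 : DT := (.nd (nat_lit 0) (.nd (nat_lit 1) (.nd (nat_lit 2) (.nd (nat_lit 3) (.nd (nat_lit 4) (.nd (nat_lit 5) (.nd (nat_lit 6) 
(.lf (nat_lit 255616) (.g (nat_lit 1744) (.e (nat_lit 171776) (nat_lit 66) (.e (nat_lit 114714) (nat_lit 22) (.e (nat_lit 90170) (nat_lit 13) (.e (nat_lit 172059) (nat_lit 1) .nil)))) .nil)) 
(.lf (nat_lit 255680) (.g (nat_lit 3919) (.e (nat_lit 164084) (nat_lit 73) (.e (nat_lit 336027) (nat_lit 3) (.e (nat_lit 98365) (nat_lit 26) (.e (nat_lit 426098) (nat_lit 1) (.e (nat_lit 164325) (nat_lit 230) (.e (nat_lit 163875) (nat_lit 3) (.e (nat_lit 204829) (nat_lit 18) (.e (nat_lit 57927) (nat_lit 282) .nil)))))))) (.g (nat_lit 5) .nil .nil)))) (.nd (nat_lit 6) 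
(.lf (nat_lit 255648) (.g (nat_lit 1638) (.e (nat_lit 164084) (nat_lit 73) (.e (nat_lit 335995) (nat_lit 1) (.e (nat_lit 57872) (nat_lit 264) (.e (nat_lit 1170) (nat_lit 87) (.e (nat_lit 57521) (nat_lit 44) .nil))))) .nil)) 
(.lf (nat_lit 255712) (.g (nat_lit 3183) (.e (nat_lit 164084) (nat_lit 73) (.e (nat_lit 336223) (nat_lit 13) (.e (nat_lit 393301) (nat_lit 27) (.e (nat_lit 491558) (nat_lit 10) (.e (nat_lit 344088) (nat_lit 18) (.e (nat_lit 7480) (nat_lit 400) .nil)))))) (.g (nat_lit 4) .nil .nil))))) (.nd (nat_lit 5) (.nd (nat_lit 6) 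
(.lf (nat_lit 255632) (.g (nat_lit 1741) (.e (nat_lit 171776) (nat_lit 66) (.e (nat_lit 114719) (nat_lit 23) (.e (nat_lit 98350) (nat_lit 24) (.e (nat_lit 409616) (nat_lit 10) .nil)))) .nil)) 
(.lf (nat_lit 255696) (.g (nat_lit 2669) (.e (nat_lit 164084) (nat_lit 73) (.e (nat_lit 336027) (nat_lit 3) (.e (nat_lit 98373) (nat_lit 29) (.e (nat_lit 458496) (nat_lit 3) (.e (nat_lit 516097) (nat_lit 0) (.e (nat_lit 2399) (nat_lit 157) (.e (nat_lit 5971) (nat_lit 324) .nil))))))) (.g (nat_lit 5) .nil .nil)))) (.nd (nat_lit 6) 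
(.lf (nat_lit 255664) (.g (nat_lit 2428) (.e (nat_lit 164084) (nat_lit 73) (.e (nat_lit 336012) (nat_lit 2) (.e (nat_lit 90174) (nat_lit 14) (.e (nat_lit 180228) (nat_lit 0) (.e (nat_lit 5224) (nat_lit 296) .nil))))) .nil)) 
(.lf (nat_lit 255728) (.g (nat_lit 1828) (.e (nat_lit 164088) (nat_lit 73) (.e (nat_lit 335986) (nat_lit 1) (.e (nat_lit 57847) (nat_lit 252) (.e (nat_lit 57368) (nat_lit 1) .nil)))) .nil))))) (.nd (nat_lit 4) (.nd (nat_lit 5) (.nd (nat_lit 6) 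
(.lf (nat_lit 255624) (.g (nat_lit 1276) (.e (nat_lit 171776) (nat_lit 66) (.e (nat_lit 114714) (nat_lit 22) (.e (nat_lit 90185) (nat_lit 17) (.e (nat_lit 237585) (nat_lit 1) .nil)))) .nil)) 
(.lf (nat_lit 255688) (.g (nat_lit 2356) (.e (nat_lit 164084) (nat_lit 73) (.e (nat_lit 336027) (nat_lit 3) (.e (nat_lit 98372) (nat_lit 29) (.e (nat_lit 458496) (nat_lit 3) (.e (nat_lit 516097) (nat_lit 0) (.e (nat_lit 2434) (nat_lit 157) (.e (nat_lit 5971) (nat_lit 324) .nil))))))) (.g (nat_lit 5) .nil .nil)))) (.nd (nat_lit 6) 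
(.lf (nat_lit 255656) (.g (nat_lit 2205) (.e (nat_lit 164084) (nat_lit 73) (.e (nat_lit 336012) (nat_lit 2) (.e (nat_lit 90160) (nat_lit 11) (.e (nat_lit 24597) (nat_lit 1) .nil)))) .nil)) 
(.lf (nat_lit 255720) (.g (nat_lit 2901) (.e (nat_lit 164087) (nat_lit 73) (.e (nat_lit 336204) (nat_lit 12) (.e (nat_lit 385074) (nat_lit 31) (.e (nat_lit 573482) (nat_lit 13) .nil)))) .nil)))) (.nd (nat_lit 5) (.nd (nat_lit 6) 
(.lf (nat_lit 255640) (.g (nat_lit 2920) (.e (nat_lit 164083) (nat_lit 73) (.e (nat_lit 336027) (nat_lit 3) (.e (nat_lit 98372) (nat_lit 29) (.e (nat_lit 450579) (nat_lit 5) (.e (nat_lit 532501) (nat_lit 1) (.e (nat_lit 65280) (nat_lit 237) .nil)))))) (.g (nat_lit 5) .nil .nil))) 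
(.lf (nat_lit 255704) (.g (nat_lit 2567) (.e (nat_lit 164084) (nat_lit 73) (.e (nat_lit 336027) (nat_lit 3) (.e (nat_lit 98389) (nat_lit 33) (.e (nat_lit 491560) (nat_lit 10) (.e (nat_lit 352000) (nat_lit 23) .nil))))) .nil))) (.nd (nat_lit 6) 
(.lf (nat_lit 255672) (.g (nat_lit 4881) (.e (nat_lit 164084) (nat_lit 73) (.e (nat_lit 336012) (nat_lit 2) (.e (nat_lit 90185) (nat_lit 17) (.e (nat_lit 237584) (nat_lit 1) (.e (nat_lit 164327) (nat_lit 230) (.e (nat_lit 163875) (nat_lit 3) (.e (nat_lit 204830) (nat_lit 18) (.e (nat_lit 57927) (nat_lit 282) .nil)))))))) (.g (nat_lit 7) .nil .nil))) 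
(.lf (nat_lit 255736) (.g (nat_lit 1730) (.e (nat_lit 164088) (nat_lit 73) (.e (nat_lit 336027) (nat_lit 3) (.e (nat_lit 98373) (nat_lit 29) (.e (nat_lit 458496) (nat_lit 3) .nil)))) .nil)))))) (.nd (nat_lit 3) (.nd (nat_lit 4) (.nd (nat_lit 5) (.nd (nat_lit 6) 
(.lf (nat_lit 255620) (.g (nat_lit 1837) (.e (nat_lit 171776) (nat_lit 66) (.e (nat_lit 114714) (nat_lit 22) (.e (nat_lit 90172) (nat_lit 14) (.e (nat_lit 180229) (nat_lit 0) (.e (nat_lit 5224) (nat_lit 296) .nil))))) .nil)) 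
(.lf (nat_lit 255684) (.g (nat_lit 2234) (.e (nat_lit 164084) (nat_lit 73) (.e (nat_lit 336027) (nat_lit 3) (.e (nat_lit 98366) (nat_lit 27) (.e (nat_lit 434209) (nat_lit 18) (.e (nat_lit 5224) (nat_lit 296) .nil))))) .nil))) (.nd (nat_lit 6) 
(.lf (nat_lit 255652) (.g (nat_lit 1985) (.e (nat_lit 164084) (nat_lit 73) (.e (nat_lit 336004) (nat_lit 2) (.e (nat_lit 90158) (nat_lit 11) (.e (nat_lit 24599) (nat_lit 1) (.e (nat_lit 57854) (nat_lit 252) .nil))))) .nil)) 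
(.lf (nat_lit 255716) (.g (nat_lit 2359) (.e (nat_lit 164087) (nat_lit 73) (.e (nat_lit 336004) (nat_lit 2) (.e (nat_lit 90176) (nat_lit 15) (.e (nat_lit 188450) (nat_lit 23) (.e (nat_lit 204830) (nat_lit 18) .nil))))) .nil)))) (.nd (nat_lit 5) (.nd (nat_lit 6) 
(.lf (nat_lit 255636) (.g (nat_lit 2250) (.e (nat_lit 164083) (nat_lit 73) (.e (nat_lit 336012) (nat_lit 2) (.e (nat_lit 90172) (nat_lit 14) (.e (nat_lit 180229) (nat_lit 0) (.e (nat_lit 5224) (nat_lit 296) .nil))))) .nil)) 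
(.lf (nat_lit 255700) (.g (nat_lit 2559) (.e (nat_lit 164084) (nat_lit 73) (.e (nat_lit 336027) (nat_lit 3) (.e (nat_lit 98373) (nat_lit 29) (.e (nat_lit 458496) (nat_lit 3) (.e (nat_lit 516106) (nat_lit 0) (.e (nat_lit 2478) (nat_lit 157) (.e (nat_lit 5964) (nat_lit 324) .nil))))))) (.g (nat_lit 5) .nil .nil)))) (.nd (nat_lit 6) 
(.lf (nat_lit 255668) (.g (nat_lit 1545) (.e (nat_lit 164084) (nat_lit 73) (.e (nat_lit 336012) (nat_lit 2) (.e (nat_lit 90185) (nat_lit 17) (.e (nat_lit 237582) (nat_lit 1) .nil)))) .nil)) 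
(.lf (nat_lit 255732) (.g (nat_lit 2069) (.e (nat_lit 164088) (nat_lit 73) (.e (nat_lit 336021) (nat_lit 3) (.e (nat_lit 98313) (nat_lit 9) (.e (nat_lit 335996) (nat_lit 1) .nil)))) .nil))))) (.nd (nat_lit 4) (.nd (nat_lit 5) (.nd (nat_lit 6) 
(.lf (nat_lit 255628) (.g (nat_lit 2912) (.e (nat_lit 171776) (nat_lit 66) (.e (nat_lit 114718) (nat_lit 23) (.e (nat_lit 98350) (nat_lit 24) (.e (nat_lit 409649) (nat_lit 18) (.e (nat_lit 303151) (nat_lit 27) .nil))))) .nil)) 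
(.lf (nat_lit 255692) (.g (nat_lit 2975) (.e (nat_lit 164084) (nat_lit 73) (.e (nat_lit 336027) (nat_lit 3) (.e (nat_lit 98372) (nat_lit 29) (.e (nat_lit 450579) (nat_lit 5) (.e (nat_lit 532501) (nat_lit 1) (.e (nat_lit 65280) (nat_lit 237) .nil)))))) (.g (nat_lit 5) .nil .nil)))) (.nd (nat_lit 6) 
(.lf (nat_lit 255660) (.g (nat_lit 1566) (.e (nat_lit 164084) (nat_lit 73) (.e (nat_lit 336012) (nat_lit 2) (.e (nat_lit 90172) (nat_lit 14) (.e (nat_lit 180229) (nat_lit 0) .nil)))) .nil)) 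
(.lf (nat_lit 255724) (.g (nat_lit 3870) (.e (nat_lit 164087) (nat_lit 73) (.e (nat_lit 336223) (nat_lit 13) (.e (nat_lit 393301) (nat_lit 27) (.e (nat_lit 491560) (nat_lit 10) (.e (nat_lit 344089) (nat_lit 18) .nil))))) .nil)))) (.nd (nat_lit 5) (.nd (nat_lit 6) 
(.lf (nat_lit 255644) (.g (nat_lit 3580) (.e (nat_lit 164083) (nat_lit 73) (.e (nat_lit 336223) (nat_lit 13) (.e (nat_lit 393301) (nat_lit 27) (.e (nat_lit 491560) (nat_lit 10) (.e (nat_lit 344088) (nat_lit 18) .nil))))) .nil)) 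
(.lf (nat_lit 255708) (.g (nat_lit 1201) (.e (nat_lit 164084) (nat_lit 73) (.e (nat_lit 336223) (nat_lit 13) (.e (nat_lit 393234) (nat_lit 17) (.e (nat_lit 7593) (nat_lit 407) .nil)))) .nil))) (.nd (nat_lit 6) 
(.lf (nat_lit 255676) (.g (nat_lit 1158) (.e (nat_lit 164084) (nat_lit 73) (.e (nat_lit 336021) (nat_lit 3) (.e (nat_lit 98389) (nat_lit 33) .nil))) .nil)) 
(.lf (nat_lit 255740) (.g (nat_lit 1729) (.e (nat_lit 164088) (nat_lit 73) (.e (nat_lit 336088) (nat_lit 9) (.e (nat_lit 336019) (nat_lit 3) (.e (nat_lit 98389) (nat_lit 33) (.e (nat_lit 491560) (nat_lit 10) (.e (nat_lit 344088) (nat_lit 18) (.e (nat_lit 4153) (nat_lit 249) .nil))))))) (.g (nat_lit 4) .nil .nil)))))))) 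
(.nd (nat_lit 2) (.nd (nat_lit 3) (.nd (nat_lit 4) (.nd (nat_lit 5) (.nd (nat_lit 6) 
(.lf (nat_lit 255618) (.g (nat_lit 2125) (.e (nat_lit 171776) (nat_lit 66) (.e (nat_lit 114714) (nat_lit 22) (.e (nat_lit 90170) (nat_lit 13) (.e (nat_lit 172061) (nat_lit 1) (.e (nat_lit 164327) (nat_lit 230) .nil))))) .nil)) 
(.lf (nat_lit 255682) (.g (nat_lit 4443) (.e (nat_lit 164084) (nat_lit 73) (.e (nat_lit 336027) (nat_lit 3) (.e (nat_lit 98365) (nat_lit 26) (.e (nat_lit 426099) (nat_lit 1) (.e (nat_lit 164332) (nat_lit 230) (.e (nat_lit 163874) (nat_lit 3) (.e (nat_lit 204830) (nat_lit 18) (.e (nat_lit 57927) (nat_lit 282) .nil)))))))) (.g (nat_lit 7) .nil .nil)))) (.nd (nat_lit 6) 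
(.lf (nat_lit 255650) (.g (nat_lit 2461) (.e (nat_lit 164084) (nat_lit 73) (.e (nat_lit 335996) (nat_lit 1) (.e (nat_lit 57852) (nat_lit 252) (.e (nat_lit 57366) (nat_lit 1) .nil)))) .nil)) 
(.lf (nat_lit 255714) (.g (nat_lit 3090) (.e (nat_lit 164084) (nat_lit 73) (.e (nat_lit 336223) (nat_lit 13) (.e (nat_lit 393301) (nat_lit 27) (.e (nat_lit 491560) (nat_lit 10) (.e (nat_lit 344087) (nat_lit 18) .nil))))) .nil)))) (.nd (nat_lit 5) (.nd (nat_lit 6) 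
(.lf (nat_lit 255634) (.g (nat_lit 3059) (.e (nat_lit 171776) (nat_lit 66) (.e (nat_lit 114719) (nat_lit 23) (.e (nat_lit 98350) (nat_lit 24) (.e (nat_lit 409649) (nat_lit 18) (.e (nat_lit 303151) (nat_lit 27) .nil))))) .nil)) 
(.lf (nat_lit 255698) (.g (nat_lit 2457) (.e (nat_lit 164084) (nat_lit 73) (.e (nat_lit 336027) (nat_lit 3) (.e (nat_lit 98373) (nat_lit 29) (.e (nat_lit 458496) (nat_lit 3) (.e (nat_lit 516097) (nat_lit 0) (.e (nat_lit 2434) (nat_lit 157) (.e (nat_lit 5971) (nat_lit 324) .nil))))))) (.g (nat_lit 5) .nil .nil)))) (.nd (nat_lit 6) 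
(.lf (nat_lit 255666) (.g (nat_lit 1881) (.e (nat_lit 164084) (nat_lit 73) (.e (nat_lit 336012) (nat_lit 2) (.e (nat_lit 90176) (nat_lit 15) (.e (nat_lit 188450) (nat_lit 23) (.e (nat_lit 204817) (nat_lit 17) .nil))))) .nil)) 
(.lf (nat_lit 255730) (.g (nat_lit 2217) (.e (nat_lit 164088) (nat_lit 73) (.e (nat_lit 336012) (nat_lit 2) (.e (nat_lit 90176) (nat_lit 15) (.e (nat_lit 188450) (nat_lit 23) (.e (nat_lit 204821) (nat_lit 17) .nil))))) .nil))))) (.nd (nat_lit 4) (.nd (nat_lit 5) (.nd (nat_lit 6) 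
(.lf (nat_lit 255626) (.g (nat_lit 1877) (.e (nat_lit 171776) (nat_lit 66) (.e (nat_lit 114715) (nat_lit 22) (.e (nat_lit 90170) (nat_lit 13) (.e (nat_lit 172061) (nat_lit 1) (.e (nat_lit 164324) (nat_lit 230) .nil))))) .nil)) 
(.lf (nat_lit 255690) (.g (nat_lit 2165) (.e (nat_lit 164084) (nat_lit 73) (.e (nat_lit 336027) (nat_lit 3) (.e (nat_lit 98372) (nat_lit 29) (.e (nat_lit 450579) (nat_lit 5) (.e (nat_lit 532484) (nat_lit 0) .nil))))) .nil))) (.nd (nat_lit 6) 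
(.lf (nat_lit 255658) (.g (nat_lit 2714) (.e (nat_lit 164084) (nat_lit 73) (.e (nat_lit 336012) (nat_lit 2) (.e (nat_lit 90160) (nat_lit 11) (.e (nat_lit 24599) (nat_lit 1) (.e (nat_lit 57854) (nat_lit 252) .nil))))) .nil)) 
(.lf (nat_lit 255722) (.g (nat_lit 2737) (.e (nat_lit 164087) (nat_lit 73) (.e (nat_lit 336204) (nat_lit 12) (.e (nat_lit 385074) (nat_lit 31) (.e (nat_lit 573491) (nat_lit 15) (.e (nat_lit 81946) (nat_lit 20) (.e (nat_lit 1014) (nat_lit 81) (.e (nat_lit 4153) (nat_lit 249) .nil))))))) (.g (nat_lit 4) .nil .nil))))) (.nd (nat_lit 5) (.nd (nat_lit 6) 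
(.lf (nat_lit 255642) (.g (nat_lit 1910) (.e (nat_lit 164083) (nat_lit 73) (.e (nat_lit 336204) (nat_lit 12) (.e (nat_lit 385074) (nat_lit 31) (.e (nat_lit 573493) (nat_lit 15) .nil)))) .nil)) 
(.lf (nat_lit 255706) (.g (nat_lit 1467) (.e (nat_lit 164084) (nat_lit 73) (.e (nat_lit 336204) (nat_lit 12) (.e (nat_lit 385074) (nat_lit 31) (.e (nat_lit 573493) (nat_lit 15) .nil)))) .nil))) (.nd (nat_lit 6) 
(.lf (nat_lit 255674) (.g (nat_lit 1137) (.e (nat_lit 164084) (nat_lit 73) (.e (nat_lit 336021) (nat_lit 3) (.e (nat_lit 98320) (nat_lit 17) .nil))) .nil)) 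
(.lf (nat_lit 255738) (.g (nat_lit 1336) (.e (nat_lit 164088) (nat_lit 73) (.e (nat_lit 336088) (nat_lit 9) (.e (nat_lit 336019) (nat_lit 3) (.e (nat_lit 98320) (nat_lit 17) .nil)))) .nil)))))) (.nd (nat_lit 3) (.nd (nat_lit 4) (.nd (nat_lit 5) (.nd (nat_lit 6) 
(.lf (nat_lit 255622) (.g (nat_lit 1866) (.e (nat_lit 171776) (nat_lit 66) (.e (nat_lit 114714) (nat_lit 22) (.e (nat_lit 90172) (nat_lit 14) (.e (nat_lit 180229) (nat_lit 0) (.e (nat_lit 5548) (nat_lit 306) .nil))))) .nil)) 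
(.lf (nat_lit 255686) (.g (nat_lit 1639) (.e (nat_lit 164084) (nat_lit 73) (.e (nat_lit 336027) (nat_lit 3) (.e (nat_lit 98372) (nat_lit 29) (.e (nat_lit 458496) (nat_lit 1) .nil)))) .nil))) (.nd (nat_lit 6) 
(.lf (nat_lit 255654) (.g (nat_lit 2180) (.e (nat_lit 164084) (nat_lit 73) (.e (nat_lit 336004) (nat_lit 2) (.e (nat_lit 90172) (nat_lit 14) (.e (nat_lit 180229) (nat_lit 0) (.e (nat_lit 5224) (nat_lit 296) .nil))))) .nil)) 
(.lf (nat_lit 255718) (.g (nat_lit 2536) (.e (nat_lit 164087) (nat_lit 73) (.e (nat_lit 336027) (nat_lit 3) (.e (nat_lit 98372) (nat_lit 29) (.e (nat_lit 450579) (nat_lit 5) (.e (nat_lit 532499) (nat_lit 1) .nil))))) .nil)))) (.nd (nat_lit 5) (.nd (nat_lit 6) 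
(.lf (nat_lit 255638) (.g (nat_lit 1480) (.e (nat_lit 164083) (nat_lit 73) (.e (nat_lit 336027) (nat_lit 3) (.e (nat_lit 98365) (nat_lit 26) (.e (nat_lit 426100) (nat_lit 1) .nil)))) .nil)) 
(.lf (nat_lit 255702) (.g (nat_lit 3965) (.e (nat_lit 164084) (nat_lit 73) (.e (nat_lit 336027) (nat_lit 3) (.e (nat_lit 98373) (nat_lit 29) (.e (nat_lit 450587) (nat_lit 10) (.e (nat_lit 573475) (nat_lit 12) (.e (nat_lit 57345) (nat_lit 0) (.e (nat_lit 7481) (nat_lit 400) .nil))))))) (.g (nat_lit 5) .nil .nil)))) (.nd (nat_lit 6) 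
(.lf (nat_lit 255670) (.g (nat_lit 4663) (.e (nat_lit 164084) (nat_lit 73) (.e (nat_lit 336012) (nat_lit 2) (.e (nat_lit 90185) (nat_lit 17) (.e (nat_lit 237582) (nat_lit 1) (.e (nat_lit 164332) (nat_lit 230) (.e (nat_lit 163874) (nat_lit 3) (.e (nat_lit 204830) (nat_lit 18) (.e (nat_lit 57927) (nat_lit 282) .nil)))))))) (.g (nat_lit 7) .nil .nil))) 
(.lf (nat_lit 255734) (.g (nat_lit 2255) (.e (nat_lit 164088) (nat_lit 73) (.e (nat_lit 336027) (nat_lit 3) (.e (nat_lit 98372) (nat_lit 29) (.e (nat_lit 450579) (nat_lit 5) (.e (nat_lit 532499) (nat_lit 1) .nil))))) .nil))))) (.nd (nat_lit 4) (.nd (nat_lit 5) (.nd (nat_lit 6) 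
(.lf (nat_lit 255630) (.g (nat_lit 2276) (.e (nat_lit 171776) (nat_lit 66) (.e (nat_lit 114718) (nat_lit 23) (.e (nat_lit 98365) (nat_lit 26) (.e (nat_lit 426108) (nat_lit 1) (.e (nat_lit 164329) (nat_lit 230) .nil))))) .nil)) 
(.lf (nat_lit 255694) (.g (nat_lit 1759) (.e (nat_lit 164084) (nat_lit 73) (.e (nat_lit 336027) (nat_lit 3) (.e (nat_lit 98373) (nat_lit 29) (.e (nat_lit 458496) (nat_lit 1) .nil)))) .nil))) (.nd (nat_lit 6) 
(.lf (nat_lit 255662) (.g (nat_lit 5450) (.e (nat_lit 164084) (nat_lit 73) (.e (nat_lit 336012) (nat_lit 2) (.e (nat_lit 90172) (nat_lit 14) (.e (nat_lit 180229) (nat_lit 0) (.e (nat_lit 5224) (nat_lit 296) (.e (nat_lit 163875) (nat_lit 3) (.e (nat_lit 204829) (nat_lit 18) (.e (nat_lit 57927) (nat_lit 282) .nil)))))))) (.g (nat_lit 8) .nil .nil))) 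
(.lf (nat_lit 255726) (.g (nat_lit 1938) (.e (nat_lit 164088) (nat_lit 73) (.e (nat_lit 335986) (nat_lit 1) (.e (nat_lit 57847) (nat_lit 252) (.e (nat_lit 57365) (nat_lit 1) .nil)))) .nil)))) (.nd (nat_lit 5) (.nd (nat_lit 6) 
(.lf (nat_lit 255646) (.g (nat_lit 737) (.e (nat_lit 164084) (nat_lit 73) (.e (nat_lit 335986) (nat_lit 1) (.e (nat_lit 57847) (nat_lit 252) .nil))) .nil)) 
(.lf (nat_lit 255710) (.g (nat_lit 1684) (.e (nat_lit 164084) (nat_lit 73) (.e (nat_lit 336223) (nat_lit 13) (.e (nat_lit 393301) (nat_lit 27) (.e (nat_lit 491558) (nat_lit 10) .nil)))) .nil))) (.nd (nat_lit 6) 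
(.lf (nat_lit 255678) (.g (nat_lit 1461) (.e (nat_lit 164084) (nat_lit 73) (.e (nat_lit 336027) (nat_lit 3) (.e (nat_lit 98356) (nat_lit 26) (.e (nat_lit 426448) (nat_lit 20) .nil)))) .nil)) 
(.lf (nat_lit 255742) (.g (nat_lit 949) (.e (nat_lit 164088) (nat_lit 73) (.e (nat_lit 336186) (nat_lit 11) (.e (nat_lit 368676) (nat_lit 21) (.e (nat_lit 516185) (nat_lit 16) .nil)))) .nil)))))))) (.nd (nat_lit 1) (.nd (nat_lit 2) (.nd (nat_lit 3) (.nd (nat_lit 4) (.nd (nat_lit 5) (.nd (nat_lit 6) 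
(.lf (nat_lit 255617) (.g (nat_lit 2291) (.e (nat_lit 171776) (nat_lit 66) (.e (nat_lit 114714) (nat_lit 22) (.e (nat_lit 90170) (nat_lit 13) (.e (nat_lit 172061) (nat_lit 1) (.e (nat_lit 164324) (nat_lit 230) .nil))))) .nil)) 
(.lf (nat_lit 255681) (.g (nat_lit 3046) (.e (nat_lit 164084) (nat_lit 73) (.e (nat_lit 336027) (nat_lit 3) (.e (nat_lit 98365) (nat_lit 26) (.e (nat_lit 426098) (nat_lit 1) (.e (nat_lit 164325) (nat_lit 230) (.e (nat_lit 163875) (nat_lit 3) (.e (nat_lit 204830) (nat_lit 18) (.e (nat_lit 57929) (nat_lit 282) .nil)))))))) (.g (nat_lit 4) .nil .nil)))) (.nd (nat_lit 6) 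
(.lf (nat_lit 255649) (.g (nat_lit 2461) (.e (nat_lit 164084) (nat_lit 73) (.e (nat_lit 335996) (nat_lit 1) (.e (nat_lit 57852) (nat_lit 252) (.e (nat_lit 57363) (nat_lit 1) .nil)))) .nil)) 
(.lf (nat_lit 255713) (.g (nat_lit 3066) (.e (nat_lit 164084) (nat_lit 73) (.e (nat_lit 336223) (nat_lit 13) (.e (nat_lit 393301) (nat_lit 27) (.e (nat_lit 491558) (nat_lit 10) (.e (nat_lit 344089) (nat_lit 18) .nil))))) .nil)))) (.nd (nat_lit 5) (.nd (nat_lit 6) 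
(.lf (nat_lit 255633) (.g (nat_lit 2685) (.e (nat_lit 171776) (nat_lit 66) (.e (nat_lit 114719) (nat_lit 23) (.e (nat_lit 98350) (nat_lit 24) (.e (nat_lit 409648) (nat_lit 18) (.e (nat_lit 303151) (nat_lit 27) .nil))))) .nil)) 
(.lf (nat_lit 255697) (.g (nat_lit 2707) (.e (nat_lit 164084) (nat_lit 73) (.e (nat_lit 336027) (nat_lit 3) (.e (nat_lit 98373) (nat_lit 29) (.e (nat_lit 458496) (nat_lit 3) (.e (nat_lit 516097) (nat_lit 0) (.e (nat_lit 2430) (nat_lit 157) (.e (nat_lit 5971) (nat_lit 324) .nil))))))) (.g (nat_lit 5) .nil .nil)))) (.nd (nat_lit 6) 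
(.lf (nat_lit 255665) (.g (nat_lit 448) (.e (nat_lit 164084) (nat_lit 73) (.e (nat_lit 336012) (nat_lit 2) (.e (nat_lit 90176) (nat_lit 15) .nil))) .nil)) 
(.lf (nat_lit 255729) (.g (nat_lit 2223) (.e (nat_lit 164088) (nat_lit 73) (.e (nat_lit 336012) (nat_lit 2) (.e (nat_lit 90176) (nat_lit 15) (.e (nat_lit 188450) (nat_lit 23) (.e (nat_lit 204817) (nat_lit 17) .nil))))) .nil))))) (.nd (nat_lit 4) (.nd (nat_lit 5) (.nd (nat_lit 6) 
(.lf (nat_lit 255625) (.g (nat_lit 1510) (.e (nat_lit 171776) (nat_lit 66) (.e (nat_lit 114715) (nat_lit 22) (.e (nat_lit 90170) (nat_lit 13) (.e (nat_lit 172059) (nat_lit 1) .nil)))) .nil)) 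
(.lf (nat_lit 255689) (.g (nat_lit 2481) (.e (nat_lit 164084) (nat_lit 73) (.e (nat_lit 336027) (nat_lit 3) (.e (nat_lit 98372) (nat_lit 29) (.e (nat_lit 458496) (nat_lit 3) (.e (nat_lit 516106) (nat_lit 0) (.e (nat_lit 2478) (nat_lit 157) (.e (nat_lit 5964) (nat_lit 324) .nil))))))) (.g (nat_lit 5) .nil .nil)))) (.nd (nat_lit 6) 
(.lf (nat_lit 255657) (.g (nat_lit 2243) (.e (nat_lit 164084) (nat_lit 73) (.e (nat_lit 336012) (nat_lit 2) (.e (nat_lit 90160) (nat_lit 11) (.e (nat_lit 24598) (nat_lit 1) .nil)))) .nil)) 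
(.lf (nat_lit 255721) (.g (nat_lit 3326) (.e (nat_lit 164087) (nat_lit 73) (.e (nat_lit 336204) (nat_lit 12) (.e (nat_lit 385074) (nat_lit 31) (.e (nat_lit 573484) (nat_lit 13) .nil)))) .nil)))) (.nd (nat_lit 5) (.nd (nat_lit 6) 
(.lf (nat_lit 255641) (.g (nat_lit 1686) (.e (nat_lit 164083) (nat_lit 73) (.e (nat_lit 336027) (nat_lit 3) (.e (nat_lit 98373) (nat_lit 29) (.e (nat_lit 458496) (nat_lit 3) .nil)))) .nil)) 
(.lf (nat_lit 255705) (.g (nat_lit 3248) (.e (nat_lit 164084) (nat_lit 73) (.e (nat_lit 336204) (nat_lit 12) (.e (nat_lit 385074) (nat_lit 31) (.e (nat_lit 573484) (nat_lit 13) .nil)))) .nil))) (.nd (nat_lit 6) 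
(.lf (nat_lit 255673) (.g (nat_lit 1128) (.e (nat_lit 164084) (nat_lit 73) (.e (nat_lit 336021) (nat_lit 3) (.e (nat_lit 98313) (nat_lit 9) .nil))) .nil)) 
(.lf (nat_lit 255737) (.g (nat_lit 1230) (.e (nat_lit 164088) (nat_lit 73) (.e (nat_lit 336088) (nat_lit 9) (.e (nat_lit 336019) (nat_lit 3) (.e (nat_lit 98319) (nat_lit 17) .nil)))) .nil)))))) (.nd (nat_lit 3) (.nd (nat_lit 4) (.nd (nat_lit 5) (.nd (nat_lit 6) 
(.lf (nat_lit 255621) (.g (nat_lit 1856) (.e (nat_lit 171776) (nat_lit 66) (.e (nat_lit 114714) (nat_lit 22) (.e (nat_lit 90172) (nat_lit 14) (.e (nat_lit 180229) (nat_lit 0) (.e (nat_lit 5547) (nat_lit 306) .nil))))) .nil)) 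
(.lf (nat_lit 255685) (.g (nat_lit 2705) (.e (nat_lit 164084) (nat_lit 73) (.e (nat_lit 336027) (nat_lit 3) (.e (nat_lit 98367) (nat_lit 27) (.e (nat_lit 434209) (nat_lit 18) (.e (nat_lit 5224) (nat_lit 296) .nil))))) .nil))) (.nd (nat_lit 6) 
(.lf (nat_lit 255653) (.g (nat_lit 595) (.e (nat_lit 164084) (nat_lit 73) (.e (nat_lit 336004) (nat_lit 2) (.e (nat_lit 90160) (nat_lit 11) .nil))) .nil)) 
(.lf (nat_lit 255717) (.g (nat_lit 4046) (.e (nat_lit 164087) (nat_lit 73) (.e (nat_lit 336011) (nat_lit 2) (.e (nat_lit 90170) (nat_lit 13) (.e (nat_lit 172106) (nat_lit 10) (.e (nat_lit 434231) (nat_lit 23) (.e (nat_lit 532500) (nat_lit 1) (.e (nat_lit 65280) (nat_lit 237) .nil))))))) (.g (nat_lit 5) .nil .nil))))) (.nd (nat_lit 5) (.nd (nat_lit 6) 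
(.lf (nat_lit 255637) (.g (nat_lit 2433) (.e (nat_lit 164083) (nat_lit 73) (.e (nat_lit 336012) (nat_lit 2) (.e (nat_lit 90176) (nat_lit 15) (.e (nat_lit 188450) (nat_lit 23) (.e (nat_lit 204830) (nat_lit 18) (.e (nat_lit 65280) (nat_lit 237) .nil)))))) (.g (nat_lit 5) .nil .nil))) 
(.lf (nat_lit 255701) (.g (nat_lit 2914) (.e (nat_lit 164084) (nat_lit 73) (.e (nat_lit 336027) (nat_lit 3) (.e (nat_lit 98373) (nat_lit 29) (.e (nat_lit 458496) (nat_lit 3) (.e (nat_lit 516115) (nat_lit 1) (.e (nat_lit 164406) (nat_lit 258) .nil)))))) (.g (nat_lit 5) .nil .nil)))) (.nd (nat_lit 6) 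
(.lf (nat_lit 255669) (.g (nat_lit 3758) (.e (nat_lit 164084) (nat_lit 73) (.e (nat_lit 336012) (nat_lit 2) (.e (nat_lit 90185) (nat_lit 17) (.e (nat_lit 237582) (nat_lit 1) (.e (nat_lit 164325) (nat_lit 230) (.e (nat_lit 163873) (nat_lit 3) (.e (nat_lit 204829) (nat_lit 18) (.e (nat_lit 57927) (nat_lit 282) .nil)))))))) (.g (nat_lit 5) .nil .nil))) 
(.lf (nat_lit 255733) (.g (nat_lit 1714) (.e (nat_lit 164088) (nat_lit 73) (.e (nat_lit 336027) (nat_lit 3) (.e (nat_lit 98372) (nat_lit 29) (.e (nat_lit 458496) (nat_lit 3) .nil)))) .nil))))) (.nd (nat_lit 4) (.nd (nat_lit 5) (.nd (nat_lit 6) 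
(.lf (nat_lit 255629) (.g (nat_lit 1749) (.e (nat_lit 171776) (nat_lit 66) (.e (nat_lit 114718) (nat_lit 23) (.e (nat_lit 98365) (nat_lit 26) (.e (nat_lit 426100) (nat_lit 1) (.e (nat_lit 164330) (nat_lit 230) .nil))))) .nil)) 
(.lf (nat_lit 255693) (.g (nat_lit 2882) (.e (nat_lit 164084) (nat_lit 73) (.e (nat_lit 336027) (nat_lit 3) (.e (nat_lit 98372) (nat_lit 29) (.e (nat_lit 450579) (nat_lit 5) (.e (nat_lit 532504) (nat_lit 1) (.e (nat_lit 65280) (nat_lit 237) .nil)))))) (.g (nat_lit 5) .nil .nil)))) (.nd (nat_lit 6) 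
(.lf (nat_lit 255661) (.g (nat_lit 2073) (.e (nat_lit 164084) (nat_lit 73) (.e (nat_lit 336012) (nat_lit 2) (.e (nat_lit 90172) (nat_lit 14) (.e (nat_lit 180229) (nat_lit 0) (.e (nat_lit 5224) (nat_lit 296) .nil))))) .nil)) 
(.lf (nat_lit 255725) (.g (nat_lit 2099) (.e (nat_lit 164088) (nat_lit 73) (.e (nat_lit 335986) (nat_lit 1) (.e (nat_lit 57847) (nat_lit 252) (.e (nat_lit 57363) (nat_lit 1) .nil)))) .nil)))) (.nd (nat_lit 5) (.nd (nat_lit 6) 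
(.lf (nat_lit 255645) (.g (nat_lit 3530) (.e (nat_lit 164083) (nat_lit 73) (.e (nat_lit 336223) (nat_lit 13) (.e (nat_lit 393301) (nat_lit 27) (.e (nat_lit 491560) (nat_lit 10) (.e (nat_lit 344089) (nat_lit 18) .nil))))) .nil)) 
(.lf (nat_lit 255709) (.g (nat_lit 811) (.e (nat_lit 164084) (nat_lit 73) (.e (nat_lit 336223) (nat_lit 13) (.e (nat_lit 393265) (nat_lit 22) .nil))) .nil))) (.nd (nat_lit 6) 
(.lf (nat_lit 255677) (.g (nat_lit 905) (.e (nat_lit 164084) (nat_lit 73) (.e (nat_lit 336027) (nat_lit 3) (.e (nat_lit 98319) (nat_lit 17) .nil))) .nil)) 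
(.lf (nat_lit 255741) (.g (nat_lit 1504) (.e (nat_lit 164088) (nat_lit 73) (.e (nat_lit 336088) (nat_lit 9) (.e (nat_lit 336433) (nat_lit 30) (.e (nat_lit 450597) (nat_lit 17) (.e (nat_lit 663585) (nat_lit 12) .nil))))) .nil))))))) (.nd (nat_lit 2) (.nd (nat_lit 3) (.nd (nat_lit 4) (.nd (nat_lit 5) (.nd (nat_lit 6) 
(.lf (nat_lit 255619) (.g (nat_lit 1336) (.e (nat_lit 171776) (nat_lit 66) (.e (nat_lit 114714) (nat_lit 22) (.e (nat_lit 90172) (nat_lit 14) (.e (nat_lit 180229) (nat_lit 0) .nil)))) .nil)) 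
(.lf (nat_lit 255683) (.g (nat_lit 2504) (.e (nat_lit 164084) (nat_lit 73) (.e (nat_lit 336027) (nat_lit 3) (.e (nat_lit 98365) (nat_lit 26) (.e (nat_lit 426100) (nat_lit 1) (.e (nat_lit 164330) (nat_lit 230) .nil))))) .nil))) (.nd (nat_lit 6) 
(.lf (nat_lit 255651) (.g (nat_lit 2207) (.e (nat_lit 164084) (nat_lit 73) (.e (nat_lit 335996) (nat_lit 1) (.e (nat_lit 57854) (nat_lit 252) (.e (nat_lit 57366) (nat_lit 1) .nil)))) .nil)) 
(.lf (nat_lit 255715) (.g (nat_lit 948) (.e (nat_lit 164087) (nat_lit 73) (.e (nat_lit 335986) (nat_lit 1) (.e (nat_lit 57847) (nat_lit 252) .nil))) .nil)))) (.nd (nat_lit 5) (.nd (nat_lit 6) 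
(.lf (nat_lit 255635) (.g (nat_lit 2128) (.e (nat_lit 171776) (nat_lit 66) (.e (nat_lit 114719) (nat_lit 23) (.e (nat_lit 98365) (nat_lit 26) (.e (nat_lit 426108) (nat_lit 1) (.e (nat_lit 164329) (nat_lit 230) .nil))))) .nil)) 
(.lf (nat_lit 255699) (.g (nat_lit 2477) (.e (nat_lit 164084) (nat_lit 73) (.e (nat_lit 336027) (nat_lit 3) (.e (nat_lit 98373) (nat_lit 29) (.e (nat_lit 458496) (nat_lit 3) (.e (nat_lit 516106) (nat_lit 0) (.e (nat_lit 2442) (nat_lit 157) (.e (nat_lit 5971) (nat_lit 324) .nil))))))) (.g (nat_lit 5) .nil .nil)))) (.nd (nat_lit 6) 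
(.lf (nat_lit 255667) (.g (nat_lit 2516) (.e (nat_lit 164084) (nat_lit 73) (.e (nat_lit 336012) (nat_lit 2) (.e (nat_lit 90176) (nat_lit 15) (.e (nat_lit 188450) (nat_lit 23) (.e (nat_lit 204830) (nat_lit 18) (.e (nat_lit 65280) (nat_lit 237) .nil)))))) (.g (nat_lit 5) .nil .nil))) 
(.lf (nat_lit 255731) (.g (nat_lit 1128) (.e (nat_lit 164088) (nat_lit 73) (.e (nat_lit 336021) (nat_lit 3) (.e (nat_lit 98313) (nat_lit 9) .nil))) .nil))))) (.nd (nat_lit 4) (.nd (nat_lit 5) (.nd (nat_lit 6) 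
(.lf (nat_lit 255627) (.g (nat_lit 2793) (.e (nat_lit 171776) (nat_lit 66) (.e (nat_lit 114718) (nat_lit 23) (.e (nat_lit 98350) (nat_lit 24) (.e (nat_lit 409648) (nat_lit 18) (.e (nat_lit 303151) (nat_lit 27) .nil))))) .nil)) 
(.lf (nat_lit 255691) (.g (nat_lit 2519) (.e (nat_lit 164084) (nat_lit 73) (.e (nat_lit 336027) (nat_lit 3) (.e (nat_lit 98372) (nat_lit 29) (.e (nat_lit 450579) (nat_lit 5) (.e (nat_lit 532499) (nat_lit 1) (.e (nat_lit 65280) (nat_lit 237) .nil)))))) (.g (nat_lit 5) .nil .nil)))) (.nd (nat_lit 6) 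
(.lf (nat_lit 255659) (.g (nat_lit 2396) (.e (nat_lit 164084) (nat_lit 73) (.e (nat_lit 336012) (nat_lit 2) (.e (nat_lit 90172) (nat_lit 14) (.e (nat_lit 180228) (nat_lit 0) (.e (nat_lit 5224) (nat_lit 296) .nil))))) .nil)) 
(.lf (nat_lit 255723) (.g (nat_lit 1785) (.e (nat_lit 164087) (nat_lit 73) (.e (nat_lit 336204) (nat_lit 12) (.e (nat_lit 385074) (nat_lit 31) (.e (nat_lit 573493) (nat_lit 15) .nil)))) .nil)))) (.nd (nat_lit 5) (.nd (nat_lit 6) 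
(.lf (nat_lit 255643) (.g (nat_lit 3490) (.e (nat_lit 164083) (nat_lit 73) (.e (nat_lit 336223) (nat_lit 13) (.e (nat_lit 393301) (nat_lit 27) (.e (nat_lit 491558) (nat_lit 10) (.e (nat_lit 344088) (nat_lit 18) .nil))))) .nil)) 
(.lf (nat_lit 255707) (.g (nat_lit 1243) (.e (nat_lit 164084) (nat_lit 73) (.e (nat_lit 336223) (nat_lit 13) (.e (nat_lit 393234) (nat_lit 17) (.e (nat_lit 7591) (nat_lit 407) .nil)))) .nil))) (.nd (nat_lit 6) 
(.lf (nat_lit 255675) (.g (nat_lit 705) (.e (nat_lit 164084) (nat_lit 73) (.e (nat_lit 336021) (nat_lit 3) (.e (nat_lit 98365) (nat_lit 26) .nil))) .nil)) 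
(.lf (nat_lit 255739) (.g (nat_lit 1226) (.e (nat_lit 164088) (nat_lit 73) (.e (nat_lit 336088) (nat_lit 9) (.e (nat_lit 336019) (nat_lit 3) (.e (nat_lit 98389) (nat_lit 33) .nil)))) .nil)))))) (.nd (nat_lit 3) (.nd (nat_lit 4) (.nd (nat_lit 5) (.nd (nat_lit 6) 
(.lf (nat_lit 255623) (.g (nat_lit 1856) (.e (nat_lit 171776) (nat_lit 66) (.e (nat_lit 114714) (nat_lit 22) (.e (nat_lit 90172) (nat_lit 14) (.e (nat_lit 180229) (nat_lit 0) (.e (nat_lit 5820) (nat_lit 320) .nil))))) .nil)) 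
(.lf (nat_lit 255687) (.g (nat_lit 1639) (.e (nat_lit 164084) (nat_lit 73) (.e (nat_lit 336027) (nat_lit 3) (.e (nat_lit 98372) (nat_lit 29) (.e (nat_lit 458496) (nat_lit 3) .nil)))) .nil))) (.nd (nat_lit 6) 
(.lf (nat_lit 255655) (.g (nat_lit 1757) (.e (nat_lit 164084) (nat_lit 73) (.e (nat_lit 336004) (nat_lit 2) (.e (nat_lit 90185) (nat_lit 17) (.e (nat_lit 237584) (nat_lit 1) .nil)))) .nil)) 
(.lf (nat_lit 255719) (.g (nat_lit 2352) (.e (nat_lit 164087) (nat_lit 73) (.e (nat_lit 336027) (nat_lit 3) (.e (nat_lit 98372) (nat_lit 29) (.e (nat_lit 450579) (nat_lit 5) (.e (nat_lit 532503) (nat_lit 1) .nil))))) .nil)))) (.nd (nat_lit 5) (.nd (nat_lit 6) 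
(.lf (nat_lit 255639) (.g (nat_lit 1807) (.e (nat_lit 164083) (nat_lit 73) (.e (nat_lit 336027) (nat_lit 3) (.e (nat_lit 98372) (nat_lit 29) (.e (nat_lit 458496) (nat_lit 3) .nil)))) .nil)) 
(.lf (nat_lit 255703) (.g (nat_lit 673) (.e (nat_lit 164084) (nat_lit 73) (.e (nat_lit 336027) (nat_lit 3) (.e (nat_lit 98384) (nat_lit 32) .nil))) .nil))) (.nd (nat_lit 6) 
(.lf (nat_lit 255671) (.g (nat_lit 1423) (.e (nat_lit 164084) (nat_lit 73) (.e (nat_lit 336012) (nat_lit 2) (.e (nat_lit 90185) (nat_lit 17) (.e (nat_lit 237584) (nat_lit 1) .nil)))) .nil)) 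
(.lf (nat_lit 255735) (.g (nat_lit 2110) (.e (nat_lit 164088) (nat_lit 73) (.e (nat_lit 336027) (nat_lit 3) (.e (nat_lit 98372) (nat_lit 29) (.e (nat_lit 450579) (nat_lit 5) (.e (nat_lit 532503) (nat_lit 1) (.e (nat_lit 65280) (nat_lit 237) .nil)))))) (.g (nat_lit 4) .nil .nil)))))) (.nd (nat_lit 4) (.nd (nat_lit 5) (.nd (nat_lit 6) 
(.lf (nat_lit 255631) (.g (nat_lit 2684) (.e (nat_lit 171776) (nat_lit 66) (.e (nat_lit 114718) (nat_lit 23) (.e (nat_lit 98365) (nat_lit 26) (.e (nat_lit 426108) (nat_lit 1) (.e (nat_lit 164332) (nat_lit 230) .nil))))) .nil)) 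
(.lf (nat_lit 255695) (.g (nat_lit 1759) (.e (nat_lit 164084) (nat_lit 73) (.e (nat_lit 336027) (nat_lit 3) (.e (nat_lit 98373) (nat_lit 29) (.e (nat_lit 458496) (nat_lit 3) .nil)))) .nil))) (.nd (nat_lit 6) 
(.lf (nat_lit 255663) (.g (nat_lit 4796) (.e (nat_lit 164084) (nat_lit 73) (.e (nat_lit 336012) (nat_lit 2) (.e (nat_lit 90172) (nat_lit 14) (.e (nat_lit 180229) (nat_lit 0) (.e (nat_lit 5224) (nat_lit 296) (.e (nat_lit 163875) (nat_lit 3) (.e (nat_lit 204830) (nat_lit 18) (.e (nat_lit 57929) (nat_lit 282) .nil)))))))) (.g (nat_lit 7) .nil .nil))) 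
(.lf (nat_lit 255727) (.g (nat_lit 2120) (.e (nat_lit 164088) (nat_lit 73) (.e (nat_lit 335986) (nat_lit 1) (.e (nat_lit 57847) (nat_lit 252) (.e (nat_lit 57367) (nat_lit 1) .nil)))) .nil)))) (.nd (nat_lit 5) (.nd (nat_lit 6) 
(.lf (nat_lit 255647) (.g (nat_lit 828) (.e (nat_lit 164084) (nat_lit 73) (.e (nat_lit 335988) (nat_lit 1) (.e (nat_lit 57854) (nat_lit 252) .nil))) .nil)) 
(.lf (nat_lit 255711) (.g (nat_lit 3072) (.e (nat_lit 164084) (nat_lit 73) (.e (nat_lit 336223) (nat_lit 13) (.e (nat_lit 393301) (nat_lit 27) (.e (nat_lit 491558) (nat_lit 10) (.e (nat_lit 344088) (nat_lit 18) .nil))))) .nil))) (.nd (nat_lit 6) 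
(.lf (nat_lit 255679) (.g (nat_lit 2842) (.e (nat_lit 164084) (nat_lit 73) (.e (nat_lit 336027) (nat_lit 3) (.e (nat_lit 98365) (nat_lit 26) (.e (nat_lit 426098) (nat_lit 1) (.e (nat_lit 164325) (nat_lit 230) .nil))))) .nil)) 
(.lf (nat_lit 255743) (.g (nat_lit 2778) (.e (nat_lit 164088) (nat_lit 73) (.e (nat_lit 336204) (nat_lit 12) (.e (nat_lit 385074) (nat_lit 31) (.e (nat_lit 573482) (nat_lit 13) .nil)))) .nil)))))))))

noncomputable def tv3317 : DT := (.nd (nat_lit 0) (.nd (nat_lit 1) (.nd (nat_lit 2) (.nd (nat_lit 3) (.nd (nat_lit 4) (.nd (nat_lit 5) (.nd (nat_lit 6) 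
(.lf (nat_lit 255744) (.g (nat_lit 2642) (.e (nat_lit 164088) (nat_lit 73) (.e (nat_lit 336204) (nat_lit 12) (.e (nat_lit 385074) (nat_lit 31) (.e (nat_lit 573484) (nat_lit 13) .nil)))) .nil)) 
(.lf (nat_lit 255808) (.g (nat_lit 1575) (.e (nat_lit 171776) (nat_lit 84) (.e (nat_lit 516166) (nat_lit 12) (.e (nat_lit 450580) (nat_lit 5) (.e (nat_lit 532486) (nat_lit 0) .nil)))) .nil))) (.nd (nat_lit 6) 
(.lf (nat_lit 255776) (.g (nat_lit 3075) (.e (nat_lit 171776) (nat_lit 80) (.e (nat_lit 393301) (nat_lit 27) (.e (nat_lit 491563) (nat_lit 12) (.e (nat_lit 385028) (nat_lit 0) .nil)))) .nil)) 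
(.lf (nat_lit 255840) (.g (nat_lit 1770) (.e (nat_lit 164096) (nat_lit 86) (.e (nat_lit 532563) (nat_lit 15) (.e (nat_lit 385066) (nat_lit 26) (.e (nat_lit 532555) (nat_lit 13) .nil)))) .nil)))) (.nd (nat_lit 5) (.nd (nat_lit 6) 
(.lf (nat_lit 255760) (.g (nat_lit 1069) (.e (nat_lit 171776) (nat_lit 79) (.e (nat_lit 385109) (nat_lit 51) (.e (nat_lit 794682) (nat_lit 25) .nil))) .nil)) 
(.lf (nat_lit 255824) (.g (nat_lit 1166) (.e (nat_lit 164095) (nat_lit 86) (.e (nat_lit 532544) (nat_lit 10) (.e (nat_lit 344129) (nat_lit 26) (.e (nat_lit 557097) (nat_lit 13) .nil)))) .nil))) (.nd (nat_lit 6) 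
(.lf (nat_lit 255792) (.g (nat_lit 1516) (.e (nat_lit 164092) (nat_lit 82) (.e (nat_lit 500046) (nat_lit 16) (.e (nat_lit 16434) (nat_lit 9) (.e (nat_lit 426562) (nat_lit 33) (.e (nat_lit 385041) (nat_lit 19) .nil))))) .nil)) 
(.lf (nat_lit 255856) (.g (nat_lit 1043) (.e (nat_lit 164096) (nat_lit 86) (.e (nat_lit 532581) (nat_lit 26) (.e (nat_lit 426262) (nat_lit 9) (.e (nat_lit 426561) (nat_lit 33) (.e (nat_lit 385041) (nat_lit 19) (.e (nat_lit 164289) (nat_lit 224) .nil)))))) (.g (nat_lit 0) .nil .nil)))))) (.nd (nat_lit 4) (.nd (nat_lit 5) (.nd (nat_lit 6) 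
(.lf (nat_lit 255752) (.g (nat_lit 1776) (.e (nat_lit 171776) (nat_lit 76) (.e (nat_lit 360471) (nat_lit 7) (.e (nat_lit 548874) (nat_lit 5) (.e (nat_lit 1586) (nat_lit 111) (.e (nat_lit 360450) (nat_lit 0) .nil))))) .nil)) 
(.lf (nat_lit 255816) (.g (nat_lit 2259) (.e (nat_lit 164095) (nat_lit 86) (.e (nat_lit 532499) (nat_lit 1) (.e (nat_lit 57847) (nat_lit 252) (.e (nat_lit 57430) (nat_lit 16) .nil)))) .nil))) (.nd (nat_lit 6) 
(.lf (nat_lit 255784) (.g (nat_lit 1597) (.e (nat_lit 164092) (nat_lit 82) (.e (nat_lit 500046) (nat_lit 16) (.e (nat_lit 16432) (nat_lit 9) (.e (nat_lit 426562) (nat_lit 33) (.e (nat_lit 385041) (nat_lit 19) (.e (nat_lit 164288) (nat_lit 224) .nil)))))) (.g (nat_lit 5) .nil .nil))) 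
(.lf (nat_lit 255848) (.g (nat_lit 1395) (.e (nat_lit 164096) (nat_lit 86) (.e (nat_lit 532581) (nat_lit 26) (.e (nat_lit 426225) (nat_lit 9) (.e (nat_lit 426562) (nat_lit 33) (.e (nat_lit 385041) (nat_lit 19) (.e (nat_lit 164294) (nat_lit 224) .nil)))))) (.g (nat_lit 0) .nil .nil))))) (.nd (nat_lit 5) (.nd (nat_lit 6) 
(.lf (nat_lit 255768) (.g (nat_lit 1988) (.e (nat_lit 171776) (nat_lit 80) (.e (nat_lit 393260) (nat_lit 21) (.e (nat_lit 409646) (nat_lit 18) (.e (nat_lit 303151) (nat_lit 27) .nil)))) .nil)) 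
(.lf (nat_lit 255832) (.g (nat_lit 3194) (.e (nat_lit 164096) (nat_lit 86) (.e (nat_lit 532499) (nat_lit 1) (.e (nat_lit 57847) (nat_lit 252) (.e (nat_lit 57432) (nat_lit 16) (.e (nat_lit 368676) (nat_lit 21) (.e (nat_lit 516169) (nat_lit 13) (.e (nat_lit 458768) (nat_lit 16) .nil))))))) (.g (nat_lit 4) .nil .nil)))) (.nd (nat_lit 6) 
(.lf (nat_lit 255800) (.g (nat_lit 964) (.e (nat_lit 164092) (nat_lit 82) (.e (nat_lit 500046) (nat_lit 16) (.e (nat_lit 16463) (nat_lit 13) (.e (nat_lit 491264) (nat_lit 7) .nil)))) .nil)) 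
(.lf (nat_lit 255864) (.g (nat_lit 1864) (.e (nat_lit 171776) (nat_lit 86) (.e (nat_lit 532504) (nat_lit 1) (.e (nat_lit 57851) (nat_lit 252) (.e (nat_lit 57431) (nat_lit 16) .nil)))) .nil)))))) (.nd (nat_lit 3) (.nd (nat_lit 4) (.nd (nat_lit 5) (.nd (nat_lit 6) 
(.lf (nat_lit 255748) (.g (nat_lit 2264) (.e (nat_lit 164088) (nat_lit 73) (.e (nat_lit 336204) (nat_lit 12) (.e (nat_lit 385074) (nat_lit 31) (.e (nat_lit 573493) (nat_lit 15) (.e (nat_lit 81938) (nat_lit 20) .nil))))) .nil)) 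
(.lf (nat_lit 255812) (.g (nat_lit 463) (.e (nat_lit 171776) (nat_lit 84) (.e (nat_lit 516166) (nat_lit 12) (.e (nat_lit 450588) (nat_lit 10) (.e (nat_lit 573452) (nat_lit 9) .nil)))) .nil))) (.nd (nat_lit 6) 
(.lf (nat_lit 255780) (.g (nat_lit 3091) (.e (nat_lit 171776) (nat_lit 80) (.e (nat_lit 393301) (nat_lit 27) (.e (nat_lit 491563) (nat_lit 12) (.e (nat_lit 385042) (nat_lit 20) .nil)))) .nil)) 
(.lf (nat_lit 255844) (.g (nat_lit 1427) (.e (nat_lit 164096) (nat_lit 86) (.e (nat_lit 532581) (nat_lit 26) (.e (nat_lit 426225) (nat_lit 9) (.e (nat_lit 426562) (nat_lit 33) (.e (nat_lit 385041) (nat_lit 19) (.e (nat_lit 164289) (nat_lit 224) .nil)))))) (.g (nat_lit 0) .nil .nil))))) (.nd (nat_lit 5) (.nd (nat_lit 6) 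
(.lf (nat_lit 255764) (.g (nat_lit 1259) (.e (nat_lit 171776) (nat_lit 80) (.e (nat_lit 393229) (nat_lit 9) (.e (nat_lit 336184) (nat_lit 11) (.e (nat_lit 368676) (nat_lit 21) (.e (nat_lit 516117) (nat_lit 1) .nil))))) .nil)) 
(.lf (nat_lit 255828) (.g (nat_lit 909) (.e (nat_lit 164096) (nat_lit 86) (.e (nat_lit 532499) (nat_lit 1) (.e (nat_lit 57847) (nat_lit 252) .nil))) .nil))) (.nd (nat_lit 6) 
(.lf (nat_lit 255796) (.g (nat_lit 2028) (.e (nat_lit 164092) (nat_lit 82) (.e (nat_lit 500046) (nat_lit 16) (.e (nat_lit 16436) (nat_lit 9) (.e (nat_lit 426562) (nat_lit 33) (.e (nat_lit 385041) (nat_lit 19) (.e (nat_lit 164291) (nat_lit 224) .nil)))))) (.g (nat_lit 0) .nil .nil))) 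
(.lf (nat_lit 255860) (.g (nat_lit 2547) (.e (nat_lit 171776) (nat_lit 86) (.e (nat_lit 532499) (nat_lit 1) (.e (nat_lit 57847) (nat_lit 252) (.e (nat_lit 57430) (nat_lit 16) (.e (nat_lit 368676) (nat_lit 21) .nil))))) .nil))))) (.nd (nat_lit 4) (.nd (nat_lit 5) (.nd (nat_lit 6) 
(.lf (nat_lit 255756) (.g (nat_lit 1050) (.e (nat_lit 171776) (nat_lit 78) (.e (nat_lit 376865) (nat_lit 22) (.e (nat_lit 90181) (nat_lit 16) (.e (nat_lit 237312) (nat_lit 192) .nil)))) .nil)) 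
(.lf (nat_lit 255820) (.g (nat_lit 2274) (.e (nat_lit 164095) (nat_lit 86) (.e (nat_lit 532499) (nat_lit 1) (.e (nat_lit 57847) (nat_lit 252) (.e (nat_lit 57432) (nat_lit 16) .nil)))) .nil))) (.nd (nat_lit 6) 
(.lf (nat_lit 255788) (.g (nat_lit 1567) (.e (nat_lit 164092) (nat_lit 82) (.e (nat_lit 500046) (nat_lit 16) (.e (nat_lit 16433) (nat_lit 9) (.e (nat_lit 426562) (nat_lit 33) (.e (nat_lit 385041) (nat_lit 19) .nil))))) .nil)) 
(.lf (nat_lit 255852) (.g (nat_lit 1021) (.e (nat_lit 164096) (nat_lit 86) (.e (nat_lit 532581) (nat_lit 26) (.e (nat_lit 426234) (nat_lit 9) (.e (nat_lit 426561) (nat_lit 33) (.e (nat_lit 385041) (nat_lit 19) (.e (nat_lit 164289) (nat_lit 224) .nil)))))) (.g (nat_lit 0) .nil .nil))))) (.nd (nat_lit 5) (.nd (nat_lit 6) 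
(.lf (nat_lit 255772) (.g (nat_lit 1738) (.e (nat_lit 171776) (nat_lit 80) (.e (nat_lit 393260) (nat_lit 21) (.e (nat_lit 409648) (nat_lit 18) (.e (nat_lit 303152) (nat_lit 27) .nil)))) .nil)) 
(.lf (nat_lit 255836) (.g (nat_lit 1770) (.e (nat_lit 164096) (nat_lit 86) (.e (nat_lit 532514) (nat_lit 3) (.e (nat_lit 114715) (nat_lit 22) (.e (nat_lit 90170) (nat_lit 13) (.e (nat_lit 172065) (nat_lit 3) .nil))))) .nil))) (.nd (nat_lit 6) 
(.lf (nat_lit 255804) (.g (nat_lit 722) (.e (nat_lit 171776) (nat_lit 84) (.e (nat_lit 516163) (nat_lit 11) (.e (nat_lit 442424) (nat_lit 22) (.e (nat_lit 196661) (nat_lit 12) .nil)))) .nil)) 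
(.lf (nat_lit 255868) (.g (nat_lit 1323) (.e (nat_lit 171776) (nat_lit 86) (.e (nat_lit 532514) (nat_lit 3) (.e (nat_lit 114716) (nat_lit 22) (.e (nat_lit 90185) (nat_lit 17) (.e (nat_lit 237594) (nat_lit 3) .nil))))) .nil))))))) (.nd (nat_lit 2) (.nd (nat_lit 3) (.nd (nat_lit 4) (.nd (nat_lit 5) (.nd (nat_lit 6) 
(.lf (nat_lit 255746) (.g (nat_lit 2855) (.e (nat_lit 164088) (nat_lit 73) (.e (nat_lit 336204) (nat_lit 12) (.e (nat_lit 385074) (nat_lit 31) (.e (nat_lit 573485) (nat_lit 13) .nil)))) .nil)) 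
(.lf (nat_lit 255810) (.g (nat_lit 2577) (.e (nat_lit 171776) (nat_lit 84) (.e (nat_lit 516166) (nat_lit 12) (.e (nat_lit 450587) (nat_lit 10) (.e (nat_lit 573454) (nat_lit 9) .nil)))) .nil))) (.nd (nat_lit 6) 
(.lf (nat_lit 255778) (.g (nat_lit 2748) (.e (nat_lit 171776) (nat_lit 80) (.e (nat_lit 393301) (nat_lit 27) (.e (nat_lit 491563) (nat_lit 12) (.e (nat_lit 385040) (nat_lit 19) .nil)))) .nil)) 
(.lf (nat_lit 255842) (.g (nat_lit 1422) (.e (nat_lit 164096) (nat_lit 86) (.e (nat_lit 532581) (nat_lit 26) (.e (nat_lit 426225) (nat_lit 9) (.e (nat_lit 426562) (nat_lit 33) (.e (nat_lit 385041) (nat_lit 19) (.e (nat_lit 164287) (nat_lit 224) .nil)))))) (.g (nat_lit 0) .nil .nil))))) (.nd (nat_lit 5) (.nd (nat_lit 6) 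
(.lf (nat_lit 255762) (.g (nat_lit 777) (.e (nat_lit 171776) (nat_lit 79) (.e (nat_lit 385109) (nat_lit 51) (.e (nat_lit 794684) (nat_lit 25) .nil))) .nil)) 
(.lf (nat_lit 255826) (.g (nat_lit 2340) (.e (nat_lit 164095) (nat_lit 86) (.e (nat_lit 532563) (nat_lit 15) (.e (nat_lit 385066) (nat_lit 26) (.e (nat_lit 532553) (nat_lit 13) (.e (nat_lit 368676) (nat_lit 21) .nil))))) .nil))) (.nd (nat_lit 6) 
(.lf (nat_lit 255794) (.g (nat_lit 1522) (.e (nat_lit 164092) (nat_lit 82) (.e (nat_lit 500046) (nat_lit 16) (.e (nat_lit 16436) (nat_lit 9) (.e (nat_lit 426562) (nat_lit 33) (.e (nat_lit 385041) (nat_lit 19) .nil))))) .nil)) 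
(.lf (nat_lit 255858) (.g (nat_lit 2206) (.e (nat_lit 171776) (nat_lit 86) (.e (nat_lit 532499) (nat_lit 1) (.e (nat_lit 57847) (nat_lit 252) (.e (nat_lit 57410) (nat_lit 12) .nil)))) .nil))))) (.nd (nat_lit 4) (.nd (nat_lit 5) (.nd (nat_lit 6) 
(.lf (nat_lit 255754) (.g (nat_lit 373) (.e (nat_lit 171776) (nat_lit 78) (.e (nat_lit 376864) (nat_lit 22) (.e (nat_lit 90165) (nat_lit 12) (.e (nat_lit 171776) (nat_lit 192) .nil)))) .nil)) 
(.lf (nat_lit 255818) (.g (nat_lit 3437) (.e (nat_lit 164095) (nat_lit 86) (.e (nat_lit 532499) (nat_lit 1) (.e (nat_lit 57847) (nat_lit 252) (.e (nat_lit 57430) (nat_lit 16) (.e (nat_lit 368676) (nat_lit 21) (.e (nat_lit 516169) (nat_lit 13) (.e (nat_lit 458769) (nat_lit 16) .nil))))))) (.g (nat_lit 5) .nil .nil)))) (.nd (nat_lit 6) 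
(.lf (nat_lit 255786) (.g (nat_lit 1549) (.e (nat_lit 164092) (nat_lit 82) (.e (nat_lit 500046) (nat_lit 16) (.e (nat_lit 16432) (nat_lit 9) (.e (nat_lit 426562) (nat_lit 33) (.e (nat_lit 385041) (nat_lit 19) (.e (nat_lit 164293) (nat_lit 224) .nil)))))) (.g (nat_lit 5) .nil .nil))) 
(.lf (nat_lit 255850) (.g (nat_lit 970) (.e (nat_lit 164096) (nat_lit 86) (.e (nat_lit 532581) (nat_lit 26) (.e (nat_lit 426230) (nat_lit 9) (.e (nat_lit 426561) (nat_lit 33) (.e (nat_lit 385041) (nat_lit 19) (.e (nat_lit 164294) (nat_lit 224) .nil)))))) (.g (nat_lit 0) .nil .nil))))) (.nd (nat_lit 5) (.nd (nat_lit 6) 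
(.lf (nat_lit 255770) (.g (nat_lit 1517) (.e (nat_lit 171776) (nat_lit 80) (.e (nat_lit 393260) (nat_lit 21) (.e (nat_lit 409648) (nat_lit 18) (.e (nat_lit 303151) (nat_lit 27) .nil)))) .nil)) 
(.lf (nat_lit 255834) (.g (nat_lit 2397) (.e (nat_lit 164096) (nat_lit 86) (.e (nat_lit 532513) (nat_lit 3) (.e (nat_lit 114714) (nat_lit 22) (.e (nat_lit 90170) (nat_lit 13) (.e (nat_lit 172067) (nat_lit 3) (.e (nat_lit 204805) (nat_lit 0) (.e (nat_lit 7098) (nat_lit 380) .nil))))))) (.g (nat_lit 4) .nil .nil)))) (.nd (nat_lit 6) 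
(.lf (nat_lit 255802) (.g (nat_lit 864) (.e (nat_lit 171776) (nat_lit 84) (.e (nat_lit 516163) (nat_lit 11) (.e (nat_lit 442424) (nat_lit 22) (.e (nat_lit 196628) (nat_lit 9) .nil)))) .nil)) 
(.lf (nat_lit 255866) (.g (nat_lit 2047) (.e (nat_lit 171776) (nat_lit 86) (.e (nat_lit 532504) (nat_lit 1) (.e (nat_lit 57852) (nat_lit 252) (.e (nat_lit 57431) (nat_lit 16) .nil)))) .nil)))))) (.nd (nat_lit 3) (.nd (nat_lit 4) (.nd (nat_lit 5) (.nd (nat_lit 6) 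
(.lf (nat_lit 255750) (.g (nat_lit 768) (.e (nat_lit 171776) (nat_lit 75) (.e (nat_lit 352315) (nat_lit 23) (.e (nat_lit 98325) (nat_lit 17) (.e (nat_lit 7936) (nat_lit 407) .nil)))) .nil)) 
(.lf (nat_lit 255814) (.g (nat_lit 1258) (.e (nat_lit 164095) (nat_lit 86) (.e (nat_lit 532490) (nat_lit 0) (.e (nat_lit 1040) (nat_lit 81) (.e (nat_lit 5195) (nat_lit 294) .nil)))) .nil))) (.nd (nat_lit 6) 
(.lf (nat_lit 255782) (.g (nat_lit 1713) (.e (nat_lit 171776) (nat_lit 81) (.e (nat_lit 401454) (nat_lit 12) (.e (nat_lit 475193) (nat_lit 38) (.e (nat_lit 688186) (nat_lit 18) .nil)))) .nil)) 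
(.lf (nat_lit 255846) (.g (nat_lit 1458) (.e (nat_lit 164096) (nat_lit 86) (.e (nat_lit 532581) (nat_lit 26) (.e (nat_lit 426225) (nat_lit 9) (.e (nat_lit 426562) (nat_lit 33) (.e (nat_lit 385041) (nat_lit 19) (.e (nat_lit 164292) (nat_lit 224) .nil)))))) (.g (nat_lit 0) .nil .nil))))) (.nd (nat_lit 5) (.nd (nat_lit 6) 
(.lf (nat_lit 255766) (.g (nat_lit 1317) (.e (nat_lit 171776) (nat_lit 80) (.e (nat_lit 393259) (nat_lit 21) (.e (nat_lit 409646) (nat_lit 18) (.e (nat_lit 303151) (nat_lit 27) .nil)))) .nil)) 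
(.lf (nat_lit 255830) (.g (nat_lit 2796) (.e (nat_lit 164096) (nat_lit 86) (.e (nat_lit 532499) (nat_lit 1) (.e (nat_lit 57847) (nat_lit 252) (.e (nat_lit 57430) (nat_lit 16) (.e (nat_lit 368676) (nat_lit 21) .nil))))) .nil))) (.nd (nat_lit 6) 
(.lf (nat_lit 255798) (.g (nat_lit 1195) (.e (nat_lit 164092) (nat_lit 82) (.e (nat_lit 500046) (nat_lit 16) (.e (nat_lit 16437) (nat_lit 9) (.e (nat_lit 426562) (nat_lit 33) (.e (nat_lit 385041) (nat_lit 19) .nil))))) .nil)) 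
(.lf (nat_lit 255862) (.g (nat_lit 1821) (.e (nat_lit 171776) (nat_lit 86) (.e (nat_lit 532501) (nat_lit 1) (.e (nat_lit 57852) (nat_lit 252) (.e (nat_lit 57430) (nat_lit 16) .nil)))) .nil))))) (.nd (nat_lit 4) (.nd (nat_lit 5) (.nd (nat_lit 6) 
(.lf (nat_lit 255758) (.g (nat_lit 1210) (.e (nat_lit 171776) (nat_lit 79) (.e (nat_lit 385105) (nat_lit 50) (.e (nat_lit 786483) (nat_lit 30) (.e (nat_lit 360484) (nat_lit 15) .nil)))) .nil)) 
(.lf (nat_lit 255822) (.g (nat_lit 3370) (.e (nat_lit 164095) (nat_lit 86) (.e (nat_lit 532499) (nat_lit 1) (.e (nat_lit 57847) (nat_lit 252) (.e (nat_lit 57432) (nat_lit 16) (.e (nat_lit 368676) (nat_lit 21) (.e (nat_lit 516171) (nat_lit 13) (.e (nat_lit 458769) (nat_lit 16) .nil))))))) (.g (nat_lit 5) .nil .nil)))) (.nd (nat_lit 6) 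
(.lf (nat_lit 255790) (.g (nat_lit 2087) (.e (nat_lit 164092) (nat_lit 82) (.e (nat_lit 500046) (nat_lit 16) (.e (nat_lit 16433) (nat_lit 9) (.e (nat_lit 426562) (nat_lit 33) (.e (nat_lit 385041) (nat_lit 19) (.e (nat_lit 164291) (nat_lit 224) .nil)))))) (.g (nat_lit 0) .nil .nil))) 
(.lf (nat_lit 255854) (.g (nat_lit 998) (.e (nat_lit 164096) (nat_lit 86) (.e (nat_lit 532581) (nat_lit 26) (.e (nat_lit 426260) (nat_lit 9) (.e (nat_lit 426561) (nat_lit 33) (.e (nat_lit 385041) (nat_lit 19) (.e (nat_lit 164289) (nat_lit 224) .nil)))))) (.g (nat_lit 0) .nil .nil))))) (.nd (nat_lit 5) (.nd (nat_lit 6) 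
(.lf (nat_lit 255774) (.g (nat_lit 447) (.e (nat_lit 171776) (nat_lit 80) (.e (nat_lit 393273) (nat_lit 23) (.e (nat_lit 426364) (nat_lit 15) .nil))) .nil)) 
(.lf (nat_lit 255838) (.g (nat_lit 1399) (.e (nat_lit 164096) (nat_lit 86) (.e (nat_lit 532514) (nat_lit 3) (.e (nat_lit 114716) (nat_lit 22) (.e (nat_lit 90185) (nat_lit 17) (.e (nat_lit 237592) (nat_lit 3) (.e (nat_lit 204805) (nat_lit 0) (.e (nat_lit 7098) (nat_lit 380) .nil))))))) (.g (nat_lit 4) .nil .nil)))) (.nd (nat_lit 6) 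
(.lf (nat_lit 255806) (.g (nat_lit 918) (.e (nat_lit 171776) (nat_lit 84) (.e (nat_lit 516163) (nat_lit 11) (.e (nat_lit 442425) (nat_lit 23) (.e (nat_lit 204819) (nat_lit 17) .nil)))) .nil)) 
(.lf (nat_lit 255870) (.g (nat_lit 528) (.e (nat_lit 171776) (nat_lit 86) (.e (nat_lit 532563) (nat_lit 15) (.e (nat_lit 385066) (nat_lit 26) .nil))) .nil)))))))) (.nd (nat_lit 1) (.nd (nat_lit 2) (.nd (nat_lit 3) (.nd (nat_lit 4) (.nd (nat_lit 5) (.nd (nat_lit 6) 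
(.lf (nat_lit 255745) (.g (nat_lit 3886) (.e (nat_lit 164088) (nat_lit 73) (.e (nat_lit 336204) (nat_lit 12) (.e (nat_lit 385074) (nat_lit 31) (.e (nat_lit 573484) (nat_lit 13) (.e (nat_lit 65617) (nat_lit 10) .nil))))) .nil)) 
(.lf (nat_lit 255809) (.g (nat_lit 3275) (.e (nat_lit 171776) (nat_lit 84) (.e (nat_lit 516166) (nat_lit 12) (.e (nat_lit 450587) (nat_lit 10) (.e (nat_lit 573448) (nat_lit 9) .nil)))) .nil))) (.nd (nat_lit 6) 
(.lf (nat_lit 255777) (.g (nat_lit 2637) (.e (nat_lit 171776) (nat_lit 80) (.e (nat_lit 393301) (nat_lit 27) (.e (nat_lit 491563) (nat_lit 12) (.e (nat_lit 385034) (nat_lit 16) .nil)))) .nil)) 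
(.lf (nat_lit 255841) (.g (nat_lit 1419) (.e (nat_lit 164096) (nat_lit 86) (.e (nat_lit 532581) (nat_lit 26) (.e (nat_lit 426225) (nat_lit 9) (.e (nat_lit 426562) (nat_lit 33) (.e (nat_lit 385041) (nat_lit 19) (.e (nat_lit 164286) (nat_lit 224) .nil)))))) (.g (nat_lit 0) .nil .nil))))) (.nd (nat_lit 5) (.nd (nat_lit 6) 
(.lf (nat_lit 255761) (.g (nat_lit 1146) (.e (nat_lit 171776) (nat_lit 79) (.e (nat_lit 385109) (nat_lit 51) (.e (nat_lit 794683) (nat_lit 25) .nil))) .nil)) 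
(.lf (nat_lit 255825) (.g (nat_lit 1248) (.e (nat_lit 164095) (nat_lit 86) (.e (nat_lit 532544) (nat_lit 10) (.e (nat_lit 344132) (nat_lit 26) (.e (nat_lit 557101) (nat_lit 13) .nil)))) .nil))) (.nd (nat_lit 6) 
(.lf (nat_lit 255793) (.g (nat_lit 1539) (.e (nat_lit 164092) (nat_lit 82) (.e (nat_lit 500046) (nat_lit 16) (.e (nat_lit 16435) (nat_lit 9) (.e (nat_lit 426562) (nat_lit 33) (.e (nat_lit 385041) (nat_lit 19) .nil))))) .nil)) 
(.lf (nat_lit 255857) (.g (nat_lit 563) (.e (nat_lit 164096) (nat_lit 86) (.e (nat_lit 532583) (nat_lit 26) (.e (nat_lit 426258) (nat_lit 9) .nil))) .nil))))) (.nd (nat_lit 4) (.nd (nat_lit 5) (.nd (nat_lit 6) 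
(.lf (nat_lit 255753) (.g (nat_lit 429) (.e (nat_lit 171776) (nat_lit 78) (.e (nat_lit 376862) (nat_lit 22) (.e (nat_lit 90165) (nat_lit 12) .nil))) .nil)) 
(.lf (nat_lit 255817) (.g (nat_lit 2638) (.e (nat_lit 164095) (nat_lit 86) (.e (nat_lit 532499) (nat_lit 1) (.e (nat_lit 57847) (nat_lit 252) (.e (nat_lit 57430) (nat_lit 16) (.e (nat_lit 368676) (nat_lit 21) (.e (nat_lit 516169) (nat_lit 13) (.e (nat_lit 458768) (nat_lit 16) .nil))))))) (.g (nat_lit 4) .nil .nil)))) (.nd (nat_lit 6) 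
(.lf (nat_lit 255785) (.g (nat_lit 1584) (.e (nat_lit 164092) (nat_lit 82) (.e (nat_lit 500046) (nat_lit 16) (.e (nat_lit 16432) (nat_lit 9) (.e (nat_lit 426562) (nat_lit 33) (.e (nat_lit 385041) (nat_lit 19) (.e (nat_lit 164291) (nat_lit 224) .nil)))))) (.g (nat_lit 5) .nil .nil))) 
(.lf (nat_lit 255849) (.g (nat_lit 993) (.e (nat_lit 164096) (nat_lit 86) (.e (nat_lit 532581) (nat_lit 26) (.e (nat_lit 426230) (nat_lit 9) (.e (nat_lit 426561) (nat_lit 33) (.e (nat_lit 385041) (nat_lit 19) (.e (nat_lit 164289) (nat_lit 224) .nil)))))) (.g (nat_lit 0) .nil .nil))))) (.nd (nat_lit 5) (.nd (nat_lit 6) 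
(.lf (nat_lit 255769) (.g (nat_lit 1388) (.e (nat_lit 171776) (nat_lit 80) (.e (nat_lit 393260) (nat_lit 21) (.e (nat_lit 409646) (nat_lit 18) (.e (nat_lit 303154) (nat_lit 28) .nil)))) .nil)) 
(.lf (nat_lit 255833) (.g (nat_lit 2402) (.e (nat_lit 164096) (nat_lit 86) (.e (nat_lit 532513) (nat_lit 3) (.e (nat_lit 114714) (nat_lit 22) (.e (nat_lit 90170) (nat_lit 13) (.e (nat_lit 172065) (nat_lit 3) .nil))))) .nil))) (.nd (nat_lit 6) 
(.lf (nat_lit 255801) (.g (nat_lit 608) (.e (nat_lit 171776) (nat_lit 84) (.e (nat_lit 516151) (nat_lit 9) (.e (nat_lit 426211) (nat_lit 9) (.e (nat_lit 426125) (nat_lit 2) .nil)))) .nil)) 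
(.lf (nat_lit 255865) (.g (nat_lit 2162) (.e (nat_lit 171776) (nat_lit 86) (.e (nat_lit 532504) (nat_lit 1) (.e (nat_lit 57852) (nat_lit 252) (.e (nat_lit 57430) (nat_lit 16) .nil)))) .nil)))))) (.nd (nat_lit 3) (.nd (nat_lit 4) (.nd (nat_lit 5) (.nd (nat_lit 6) 
(.lf (nat_lit 255749) (.g (nat_lit 3373) (.e (nat_lit 164088) (nat_lit 73) (.e (nat_lit 336223) (nat_lit 13) (.e (nat_lit 393301) (nat_lit 27) (.e (nat_lit 491560) (nat_lit 10) (.e (nat_lit 344089) (nat_lit 18) .nil))))) .nil)) 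
(.lf (nat_lit 255813) (.g (nat_lit 1647) (.e (nat_lit 171776) (nat_lit 85) (.e (nat_lit 524322) (nat_lit 12) (.e (nat_lit 450588) (nat_lit 10) (.e (nat_lit 573449) (nat_lit 9) .nil)))) .nil))) (.nd (nat_lit 6) 
(.lf (nat_lit 255781) (.g (nat_lit 1194) (.e (nat_lit 171776) (nat_lit 81) (.e (nat_lit 401454) (nat_lit 12) (.e (nat_lit 475193) (nat_lit 38) .nil))) .nil)) 
(.lf (nat_lit 255845) (.g (nat_lit 1430) (.e (nat_lit 164096) (nat_lit 86) (.e (nat_lit 532581) (nat_lit 26) (.e (nat_lit 426225) (nat_lit 9) (.e (nat_lit 426562) (nat_lit 33) (.e (nat_lit 385041) (nat_lit 19) (.e (nat_lit 164291) (nat_lit 224) .nil)))))) (.g (nat_lit 0) .nil .nil))))) (.nd (nat_lit 5) (.nd (nat_lit 6) 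
(.lf (nat_lit 255765) (.g (nat_lit 1396) (.e (nat_lit 171776) (nat_lit 80) (.e (nat_lit 393229) (nat_lit 9) (.e (nat_lit 336186) (nat_lit 11) (.e (nat_lit 368676) (nat_lit 21) (.e (nat_lit 516117) (nat_lit 1) .nil))))) .nil)) 
(.lf (nat_lit 255829) (.g (nat_lit 2487) (.e (nat_lit 164096) (nat_lit 86) (.e (nat_lit 532499) (nat_lit 1) (.e (nat_lit 57847) (nat_lit 252) (.e (nat_lit 57411) (nat_lit 12) .nil)))) .nil))) (.nd (nat_lit 6) 
(.lf (nat_lit 255797) (.g (nat_lit 2000) (.e (nat_lit 164092) (nat_lit 82) (.e (nat_lit 500046) (nat_lit 16) (.e (nat_lit 16436) (nat_lit 9) (.e (nat_lit 426562) (nat_lit 33) (.e (nat_lit 385041) (nat_lit 19) (.e (nat_lit 164293) (nat_lit 224) .nil)))))) (.g (nat_lit 0) .nil .nil))) 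
(.lf (nat_lit 255861) (.g (nat_lit 2585) (.e (nat_lit 171776) (nat_lit 86) (.e (nat_lit 532499) (nat_lit 1) (.e (nat_lit 57847) (nat_lit 252) (.e (nat_lit 57432) (nat_lit 16) (.e (nat_lit 368676) (nat_lit 21) .nil))))) .nil))))) (.nd (nat_lit 4) (.nd (nat_lit 5) (.nd (nat_lit 6) 
(.lf (nat_lit 255757) (.g (nat_lit 1636) (.e (nat_lit 171776) (nat_lit 78) (.e (nat_lit 376869) (nat_lit 23) (.e (nat_lit 98389) (nat_lit 33) (.e (nat_lit 491560) (nat_lit 10) (.e (nat_lit 344094) (nat_lit 18) .nil))))) .nil)) 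
(.lf (nat_lit 255821) (.g (nat_lit 2591) (.e (nat_lit 164095) (nat_lit 86) (.e (nat_lit 532499) (nat_lit 1) (.e (nat_lit 57847) (nat_lit 252) (.e (nat_lit 57432) (nat_lit 16) (.e (nat_lit 368676) (nat_lit 21) (.e (nat_lit 516169) (nat_lit 13) (.e (nat_lit 458768) (nat_lit 16) .nil))))))) (.g (nat_lit 4) .nil .nil)))) (.nd (nat_lit 6) 
(.lf (nat_lit 255789) (.g (nat_lit 2113) (.e (nat_lit 164092) (nat_lit 82) (.e (nat_lit 500046) (nat_lit 16) (.e (nat_lit 16433) (nat_lit 9) (.e (nat_lit 426562) (nat_lit 33) (.e (nat_lit 385041) (nat_lit 19) (.e (nat_lit 164287) (nat_lit 224) .nil)))))) (.g (nat_lit 0) .nil .nil))) 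
(.lf (nat_lit 255853) (.g (nat_lit 997) (.e (nat_lit 164096) (nat_lit 86) (.e (nat_lit 532581) (nat_lit 26) (.e (nat_lit 426260) (nat_lit 9) (.e (nat_lit 426561) (nat_lit 33) (.e (nat_lit 385041) (nat_lit 19) (.e (nat_lit 164287) (nat_lit 224) .nil)))))) (.g (nat_lit 0) .nil .nil))))) (.nd (nat_lit 5) (.nd (nat_lit 6) 
(.lf (nat_lit 255773) (.g (nat_lit 1755) (.e (nat_lit 171776) (nat_lit 80) (.e (nat_lit 393260) (nat_lit 21) (.e (nat_lit 409649) (nat_lit 18) (.e (nat_lit 303151) (nat_lit 27) .nil)))) .nil)) 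
(.lf (nat_lit 255837) (.g (nat_lit 2068) (.e (nat_lit 164096) (nat_lit 86) (.e (nat_lit 532514) (nat_lit 3) (.e (nat_lit 114716) (nat_lit 22) (.e (nat_lit 90172) (nat_lit 14) (.e (nat_lit 180244) (nat_lit 5) (.e (nat_lit 532575) (nat_lit 17) (.e (nat_lit 7098) (nat_lit 380) .nil))))))) (.g (nat_lit 5) .nil .nil)))) (.nd (nat_lit 6) 
(.lf (nat_lit 255805) (.g (nat_lit 1281) (.e (nat_lit 171776) (nat_lit 84) (.e (nat_lit 516163) (nat_lit 11) (.e (nat_lit 442424) (nat_lit 22) (.e (nat_lit 196661) (nat_lit 12) (.e (nat_lit 57721) (nat_lit 177) .nil))))) .nil)) 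
(.lf (nat_lit 255869) (.g (nat_lit 2768) (.e (nat_lit 171776) (nat_lit 86) (.e (nat_lit 532515) (nat_lit 3) (.e (nat_lit 114719) (nat_lit 23) (.e (nat_lit 98365) (nat_lit 26) (.e (nat_lit 426116) (nat_lit 2) .nil))))) .nil))))))) (.nd (nat_lit 2) (.nd (nat_lit 3) (.nd (nat_lit 4) (.nd (nat_lit 5) (.nd (nat_lit 6) 
(.lf (nat_lit 255747) (.g (nat_lit 1661) (.e (nat_lit 164088) (nat_lit 73) (.e (nat_lit 336204) (nat_lit 12) (.e (nat_lit 385074) (nat_lit 31) (.e (nat_lit 573493) (nat_lit 15) .nil)))) .nil)) 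
(.lf (nat_lit 255811) (.g (nat_lit 1056) (.e (nat_lit 171776) (nat_lit 84) (.e (nat_lit 516166) (nat_lit 12) (.e (nat_lit 450587) (nat_lit 10) (.e (nat_lit 573456) (nat_lit 9) (.e (nat_lit 7936) (nat_lit 33) .nil))))) .nil))) (.nd (nat_lit 6) 
(.lf (nat_lit 255779) (.g (nat_lit 3100) (.e (nat_lit 171776) (nat_lit 80) (.e (nat_lit 393301) (nat_lit 27) (.e (nat_lit 491563) (nat_lit 12) (.e (nat_lit 385041) (nat_lit 19) .nil)))) .nil)) 
(.lf (nat_lit 255843) (.g (nat_lit 1384) (.e (nat_lit 164096) (nat_lit 86) (.e (nat_lit 532581) (nat_lit 26) (.e (nat_lit 426225) (nat_lit 9) (.e (nat_lit 426562) (nat_lit 33) (.e (nat_lit 385041) (nat_lit 19) (.e (nat_lit 164288) (nat_lit 224) .nil)))))) (.g (nat_lit 0) .nil .nil))))) (.nd (nat_lit 5) (.nd (nat_lit 6) 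
(.lf (nat_lit 255763) (.g (nat_lit 716) (.e (nat_lit 171776) (nat_lit 80) (.e (nat_lit 393225) (nat_lit 9) (.e (nat_lit 336087) (nat_lit 9) .nil))) .nil)) 
(.lf (nat_lit 255827) (.g (nat_lit 2192) (.e (nat_lit 164095) (nat_lit 86) (.e (nat_lit 532563) (nat_lit 15) (.e (nat_lit 385066) (nat_lit 26) (.e (nat_lit 532555) (nat_lit 13) (.e (nat_lit 368676) (nat_lit 21) .nil))))) .nil))) (.nd (nat_lit 6) 
(.lf (nat_lit 255795) (.g (nat_lit 2055) (.e (nat_lit 164092) (nat_lit 82) (.e (nat_lit 500046) (nat_lit 16) (.e (nat_lit 16436) (nat_lit 9) (.e (nat_lit 426562) (nat_lit 33) (.e (nat_lit 385041) (nat_lit 19) (.e (nat_lit 164287) (nat_lit 224) .nil)))))) (.g (nat_lit 0) .nil .nil))) 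
(.lf (nat_lit 255859) (.g (nat_lit 3091) (.e (nat_lit 171776) (nat_lit 86) (.e (nat_lit 532499) (nat_lit 1) (.e (nat_lit 57847) (nat_lit 252) (.e (nat_lit 57411) (nat_lit 12) (.e (nat_lit 336019) (nat_lit 3) .nil))))) .nil))))) (.nd (nat_lit 4) (.nd (nat_lit 5) (.nd (nat_lit 6) 
(.lf (nat_lit 255755) (.g (nat_lit 407) (.e (nat_lit 171776) (nat_lit 78) (.e (nat_lit 376865) (nat_lit 22) (.e (nat_lit 90165) (nat_lit 12) .nil))) .nil)) 
(.lf (nat_lit 255819) (.g (nat_lit 3534) (.e (nat_lit 164095) (nat_lit 86) (.e (nat_lit 532499) (nat_lit 1) (.e (nat_lit 57847) (nat_lit 252) (.e (nat_lit 57430) (nat_lit 16) (.e (nat_lit 368676) (nat_lit 21) (.e (nat_lit 516171) (nat_lit 13) (.e (nat_lit 458769) (nat_lit 16) .nil))))))) (.g (nat_lit 5) .nil .nil)))) (.nd (nat_lit 6) 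
(.lf (nat_lit 255787) (.g (nat_lit 1597) (.e (nat_lit 164092) (nat_lit 82) (.e (nat_lit 500046) (nat_lit 16) (.e (nat_lit 16432) (nat_lit 9) (.e (nat_lit 426562) (nat_lit 33) (.e (nat_lit 385041) (nat_lit 19) (.e (nat_lit 164294) (nat_lit 224) .nil)))))) (.g (nat_lit 5) .nil .nil))) 
(.lf (nat_lit 255851) (.g (nat_lit 1020) (.e (nat_lit 164096) (nat_lit 86) (.e (nat_lit 532581) (nat_lit 26) (.e (nat_lit 426234) (nat_lit 9) (.e (nat_lit 426561) (nat_lit 33) (.e (nat_lit 385041) (nat_lit 19) (.e (nat_lit 164287) (nat_lit 224) .nil)))))) (.g (nat_lit 0) .nil .nil))))) (.nd (nat_lit 5) (.nd (nat_lit 6) 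
(.lf (nat_lit 255771) (.g (nat_lit 1613) (.e (nat_lit 171776) (nat_lit 80) (.e (nat_lit 393260) (nat_lit 21) (.e (nat_lit 409648) (nat_lit 18) (.e (nat_lit 303151) (nat_lit 27) (.e (nat_lit 335988) (nat_lit 1) .nil))))) .nil)) 
(.lf (nat_lit 255835) (.g (nat_lit 2038) (.e (nat_lit 164096) (nat_lit 86) (.e (nat_lit 532513) (nat_lit 3) (.e (nat_lit 114714) (nat_lit 22) (.e (nat_lit 90174) (nat_lit 14) (.e (nat_lit 180243) (nat_lit 5) .nil))))) .nil))) (.nd (nat_lit 6) 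
(.lf (nat_lit 255803) (.g (nat_lit 859) (.e (nat_lit 171776) (nat_lit 84) (.e (nat_lit 516163) (nat_lit 11) (.e (nat_lit 442424) (nat_lit 22) (.e (nat_lit 196630) (nat_lit 9) .nil)))) .nil)) 
(.lf (nat_lit 255867) (.g (nat_lit 1274) (.e (nat_lit 171776) (nat_lit 86) (.e (nat_lit 532514) (nat_lit 3) (.e (nat_lit 114716) (nat_lit 22) (.e (nat_lit 90185) (nat_lit 17) (.e (nat_lit 237592) (nat_lit 3) .nil))))) .nil)))))) (.nd (nat_lit 3) (.nd (nat_lit 4) (.nd (nat_lit 5) (.nd (nat_lit 6) 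
(.lf (nat_lit 255751) (.g (nat_lit 1664) (.e (nat_lit 171776) (nat_lit 75) (.e (nat_lit 352315) (nat_lit 23) (.e (nat_lit 98389) (nat_lit 33) (.e (nat_lit 491560) (nat_lit 10) (.e (nat_lit 344094) (nat_lit 18) .nil))))) .nil)) 
(.lf (nat_lit 255815) (.g (nat_lit 2216) (.e (nat_lit 164095) (nat_lit 86) (.e (nat_lit 532499) (nat_lit 1) (.e (nat_lit 57847) (nat_lit 252) (.e (nat_lit 57410) (nat_lit 12) .nil)))) .nil))) (.nd (nat_lit 6) 
(.lf (nat_lit 255783) (.g (nat_lit 1603) (.e (nat_lit 164092) (nat_lit 82) (.e (nat_lit 500046) (nat_lit 16) (.e (nat_lit 16432) (nat_lit 9) (.e (nat_lit 426562) (nat_lit 33) (.e (nat_lit 385041) (nat_lit 19) (.e (nat_lit 164287) (nat_lit 224) .nil)))))) (.g (nat_lit 5) .nil .nil))) 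
(.lf (nat_lit 255847) (.g (nat_lit 1383) (.e (nat_lit 164096) (nat_lit 86) (.e (nat_lit 532581) (nat_lit 26) (.e (nat_lit 426225) (nat_lit 9) (.e (nat_lit 426562) (nat_lit 33) (.e (nat_lit 385041) (nat_lit 19) (.e (nat_lit 164293) (nat_lit 224) .nil)))))) (.g (nat_lit 0) .nil .nil))))) (.nd (nat_lit 5) (.nd (nat_lit 6) 
(.lf (nat_lit 255767) (.g (nat_lit 1634) (.e (nat_lit 171776) (nat_lit 80) (.e (nat_lit 393259) (nat_lit 21) (.e (nat_lit 409649) (nat_lit 18) (.e (nat_lit 303151) (nat_lit 27) .nil)))) .nil)) 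
(.lf (nat_lit 255831) (.g (nat_lit 2823) (.e (nat_lit 164096) (nat_lit 86) (.e (nat_lit 532499) (nat_lit 1) (.e (nat_lit 57847) (nat_lit 252) (.e (nat_lit 57432) (nat_lit 16) (.e (nat_lit 368676) (nat_lit 21) .nil))))) .nil))) (.nd (nat_lit 6) 
(.lf (nat_lit 255799) (.g (nat_lit 1393) (.e (nat_lit 164092) (nat_lit 82) (.e (nat_lit 500046) (nat_lit 16) (.e (nat_lit 16438) (nat_lit 9) (.e (nat_lit 426562) (nat_lit 33) (.e (nat_lit 385041) (nat_lit 19) .nil))))) .nil)) 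
(.lf (nat_lit 255863) (.g (nat_lit 1054) (.e (nat_lit 171776) (nat_lit 86) (.e (nat_lit 532504) (nat_lit 1) (.e (nat_lit 57851) (nat_lit 252) .nil))) .nil))))) (.nd (nat_lit 4) (.nd (nat_lit 5) (.nd (nat_lit 6) 
(.lf (nat_lit 255759) (.g (nat_lit 1697) (.e (nat_lit 171776) (nat_lit 79) (.e (nat_lit 385105) (nat_lit 50) (.e (nat_lit 786483) (nat_lit 30) (.e (nat_lit 360484) (nat_lit 15) (.e (nat_lit 647196) (nat_lit 9) .nil))))) .nil)) 
(.lf (nat_lit 255823) (.g (nat_lit 1959) (.e (nat_lit 164095) (nat_lit 86) (.e (nat_lit 532513) (nat_lit 3) (.e (nat_lit 114714) (nat_lit 22) (.e (nat_lit 90172) (nat_lit 14) (.e (nat_lit 180244) (nat_lit 5) .nil))))) .nil))) (.nd (nat_lit 6) 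
(.lf (nat_lit 255791) (.g (nat_lit 2059) (.e (nat_lit 164092) (nat_lit 82) (.e (nat_lit 500046) (nat_lit 16) (.e (nat_lit 16433) (nat_lit 9) (.e (nat_lit 426562) (nat_lit 33) (.e (nat_lit 385041) (nat_lit 19) (.e (nat_lit 164293) (nat_lit 224) .nil)))))) (.g (nat_lit 0) .nil .nil))) 
(.lf (nat_lit 255855) (.g (nat_lit 1042) (.e (nat_lit 164096) (nat_lit 86) (.e (nat_lit 532581) (nat_lit 26) (.e (nat_lit 426262) (nat_lit 9) (.e (nat_lit 426561) (nat_lit 33) (.e (nat_lit 385041) (nat_lit 19) (.e (nat_lit 164287) (nat_lit 224) .nil)))))) (.g (nat_lit 0) .nil .nil))))) (.nd (nat_lit 5) (.nd (nat_lit 6) 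
(.lf (nat_lit 255775) (.g (nat_lit 449) (.e (nat_lit 171776) (nat_lit 80) (.e (nat_lit 393296) (nat_lit 26) (.e (nat_lit 475207) (nat_lit 41) .nil))) .nil)) 
(.lf (nat_lit 255839) (.g (nat_lit 641) (.e (nat_lit 164096) (nat_lit 86) (.e (nat_lit 532529) (nat_lit 9) (.e (nat_lit 336326) (nat_lit 18) .nil))) .nil))) (.nd (nat_lit 6) 
(.lf (nat_lit 255807) (.g (nat_lit 1092) (.e (nat_lit 171776) (nat_lit 84) (.e (nat_lit 516163) (nat_lit 11) (.e (nat_lit 442427) (nat_lit 23) (.e (nat_lit 204814) (nat_lit 17) .nil)))) .nil)) 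
(.lf (nat_lit 255871) (.g (nat_lit 2433) (.e (nat_lit 171776) (nat_lit 86) (.e (nat_lit 532563) (nat_lit 15) (.e (nat_lit 385068) (nat_lit 26) (.e (nat_lit 532555) (nat_lit 13) (.e (nat_lit 368676) (nat_lit 21) .nil))))) .nil)))))))))

noncomputable def tv3318 : DT := (.nd (nat_lit 0) (.nd (nat_lit 1) (.nd (nat_lit 2) (.nd (nat_lit 3) (.nd (nat_lit 4) (.nd (nat_lit 5) 
(.lf (nat_lit 255872) (.g (nat_lit 617) (.e (nat_lit 171776) (nat_lit 89) (.e (nat_lit 557087) (nat_lit 11) (.e (nat_lit 24638) (nat_lit 9) .nil))) .nil)) 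
(.lf (nat_lit 255904) (.g (nat_lit 3900) (.e (nat_lit 164101) (nat_lit 107) (.e (nat_lit 704738) (nat_lit 11) (.e (nat_lit 16425) (nat_lit 7) (.e (nat_lit 409649) (nat_lit 18) (.e (nat_lit 303140) (nat_lit 10) (.e (nat_lit 434272) (nat_lit 38) (.e (nat_lit 663296) (nat_lit 17) .nil))))))) (.g (nat_lit 6) .nil .nil)))) (.nd (nat_lit 5) 
(.lf (nat_lit 255888) (.g (nat_lit 3239) (.e (nat_lit 164097) (nat_lit 107) (.e (nat_lit 704738) (nat_lit 11) (.e (nat_lit 16425) (nat_lit 7) (.e (nat_lit 409648) (nat_lit 18) (.e (nat_lit 303137) (nat_lit 10) .nil))))) .nil)) 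
(.lf (nat_lit 255920) (.g (nat_lit 1702) (.e (nat_lit 164112) (nat_lit 118) (.e (nat_lit 794632) (nat_lit 11) (.e (nat_lit 336088) (nat_lit 9) (.e (nat_lit 336438) (nat_lit 31) (.e (nat_lit 458769) (nat_lit 16) (.e (nat_lit 164288) (nat_lit 224) .nil)))))) (.g (nat_lit 5) .nil .nil))))) (.nd (nat_lit 4) (.nd (nat_lit 5) 
(.lf (nat_lit 255880) (.g (nat_lit 2392) (.e (nat_lit 171776) (nat_lit 103) (.e (nat_lit 671762) (nat_lit 4) (.e (nat_lit 65629) (nat_lit 14) (.e (nat_lit 401459) (nat_lit 13) (.e (nat_lit 483344) (nat_lit 17) .nil))))) .nil)) 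
(.lf (nat_lit 255912) (.g (nat_lit 2179) (.e (nat_lit 164110) (nat_lit 116) (.e (nat_lit 778362) (nat_lit 9) (.e (nat_lit 232) (nat_lit 21) (.e (nat_lit 336060) (nat_lit 7) (.e (nat_lit 319533) (nat_lit 16) (.e (nat_lit 286753) (nat_lit 10) (.e (nat_lit 344160) (nat_lit 37) (.e (nat_lit 655104) (nat_lit 17) .nil)))))))) (.g (nat_lit 4) .nil .nil)))) (.nd (nat_lit 5) 
(.lf (nat_lit 255896) (.g (nat_lit 2675) (.e (nat_lit 164098) (nat_lit 107) (.e (nat_lit 704738) (nat_lit 11) (.e (nat_lit 16425) (nat_lit 7) (.e (nat_lit 409649) (nat_lit 18) (.e (nat_lit 303143) (nat_lit 12) .nil))))) .nil)) 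
(.lf (nat_lit 255928) (.g (nat_lit 744) (.e (nat_lit 164112) (nat_lit 118) (.e (nat_lit 794634) (nat_lit 11) (.e (nat_lit 336121) (nat_lit 9) (.e (nat_lit 336437) (nat_lit 31) (.e (nat_lit 458769) (nat_lit 16) (.e (nat_lit 164293) (nat_lit 224) .nil)))))) (.g (nat_lit 4) .nil .nil)))))) (.nd (nat_lit 3) (.nd (nat_lit 4) (.nd (nat_lit 5) 
(.lf (nat_lit 255876) (.g (nat_lit 3405) (.e (nat_lit 171776) (nat_lit 89) (.e (nat_lit 557108) (nat_lit 15) (.e (nat_lit 188452) (nat_lit 23) (.e (nat_lit 204852) (nat_lit 26) .nil)))) .nil)) 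
(.lf (nat_lit 255908) (.g (nat_lit 1640) (.e (nat_lit 164104) (nat_lit 116) (.e (nat_lit 778462) (nat_lit 11) (.e (nat_lit 24660) (nat_lit 13) (.e (nat_lit 393260) (nat_lit 21) (.e (nat_lit 417536) (nat_lit 10) .nil))))) .nil))) (.nd (nat_lit 5) 
(.lf (nat_lit 255892) (.g (nat_lit 2539) (.e (nat_lit 164098) (nat_lit 107) (.e (nat_lit 704738) (nat_lit 11) (.e (nat_lit 16425) (nat_lit 7) (.e (nat_lit 409646) (nat_lit 18) (.e (nat_lit 303143) (nat_lit 12) .nil))))) .nil)) 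
(.lf (nat_lit 255924) (.g (nat_lit 707) (.e (nat_lit 164112) (nat_lit 118) (.e (nat_lit 794634) (nat_lit 11) (.e (nat_lit 336121) (nat_lit 9) (.e (nat_lit 336437) (nat_lit 31) (.e (nat_lit 458769) (nat_lit 16) (.e (nat_lit 164288) (nat_lit 224) .nil)))))) (.g (nat_lit 4) .nil .nil))))) (.nd (nat_lit 4) (.nd (nat_lit 5) 
(.lf (nat_lit 255884) (.g (nat_lit 1928) (.e (nat_lit 171776) (nat_lit 106) (.e (nat_lit 696344) (nat_lit 8) (.e (nat_lit 172079) (nat_lit 7) (.e (nat_lit 409645) (nat_lit 18) (.e (nat_lit 303143) (nat_lit 12) .nil))))) .nil)) 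
(.lf (nat_lit 255916) (.g (nat_lit 657) (.e (nat_lit 164110) (nat_lit 116) (.e (nat_lit 778362) (nat_lit 9) (.e (nat_lit 352) (nat_lit 28) .nil))) .nil))) (.nd (nat_lit 5) 
(.lf (nat_lit 255900) (.g (nat_lit 2089) (.e (nat_lit 164101) (nat_lit 107) (.e (nat_lit 704738) (nat_lit 11) (.e (nat_lit 16425) (nat_lit 7) (.e (nat_lit 409649) (nat_lit 18) .nil)))) .nil)) 
(.lf (nat_lit 255932) (.g (nat_lit 998) (.e (nat_lit 164112) (nat_lit 118) (.e (nat_lit 794635) (nat_lit 11) (.e (nat_lit 336118) (nat_lit 9) (.e (nat_lit 336437) (nat_lit 31) (.e (nat_lit 458769) (nat_lit 16) (.e (nat_lit 164288) (nat_lit 224) .nil)))))) (.g (nat_lit 0) .nil .nil))))))) (.nd (nat_lit 2) (.nd (nat_lit 3) (.nd (nat_lit 4) (.nd (nat_lit 5) 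
(.lf (nat_lit 255874) (.g (nat_lit 774) (.e (nat_lit 171776) (nat_lit 89) (.e (nat_lit 557087) (nat_lit 11) (.e (nat_lit 24639) (nat_lit 10) .nil))) .nil)) 
(.lf (nat_lit 255906) (.g (nat_lit 2783) (.e (nat_lit 164102) (nat_lit 107) (.e (nat_lit 704738) (nat_lit 11) (.e (nat_lit 16425) (nat_lit 7) (.e (nat_lit 409649) (nat_lit 18) (.e (nat_lit 303140) (nat_lit 10) (.e (nat_lit 434271) (nat_lit 38) (.e (nat_lit 663296) (nat_lit 17) .nil))))))) (.g (nat_lit 4) .nil .nil)))) (.nd (nat_lit 5) 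
(.lf (nat_lit 255890) (.g (nat_lit 3334) (.e (nat_lit 164097) (nat_lit 107) (.e (nat_lit 704738) (nat_lit 11) (.e (nat_lit 16425) (nat_lit 7) (.e (nat_lit 409649) (nat_lit 18) (.e (nat_lit 303140) (nat_lit 10) (.e (nat_lit 434272) (nat_lit 38) (.e (nat_lit 663296) (nat_lit 17) .nil))))))) (.g (nat_lit 5) .nil .nil))) 
(.lf (nat_lit 255922) (.g (nat_lit 731) (.e (nat_lit 164112) (nat_lit 118) (.e (nat_lit 794634) (nat_lit 11) (.e (nat_lit 336121) (nat_lit 9) (.e (nat_lit 336437) (nat_lit 31) (.e (nat_lit 458769) (nat_lit 16) (.e (nat_lit 164286) (nat_lit 224) .nil)))))) (.g (nat_lit 4) .nil .nil))))) (.nd (nat_lit 4) (.nd (nat_lit 5) 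
(.lf (nat_lit 255882) (.g (nat_lit 677) (.e (nat_lit 171776) (nat_lit 106) (.e (nat_lit 696344) (nat_lit 8) (.e (nat_lit 172078) (nat_lit 7) .nil))) .nil)) 
(.lf (nat_lit 255914) (.g (nat_lit 657) (.e (nat_lit 164110) (nat_lit 116) (.e (nat_lit 778362) (nat_lit 9) (.e (nat_lit 340) (nat_lit 27) .nil))) .nil))) (.nd (nat_lit 5) 
(.lf (nat_lit 255898) (.g (nat_lit 3119) (.e (nat_lit 164101) (nat_lit 107) (.e (nat_lit 704738) (nat_lit 11) (.e (nat_lit 16425) (nat_lit 7) (.e (nat_lit 409648) (nat_lit 18) (.e (nat_lit 303136) (nat_lit 10) .nil))))) .nil)) 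
(.lf (nat_lit 255930) (.g (nat_lit 392) (.e (nat_lit 164112) (nat_lit 118) (.e (nat_lit 794634) (nat_lit 11) (.e (nat_lit 336154) (nat_lit 9) (.e (nat_lit 336437) (nat_lit 31) .nil)))) .nil))))) (.nd (nat_lit 3) (.nd (nat_lit 4) (.nd (nat_lit 5) 
(.lf (nat_lit 255878) (.g (nat_lit 3938) (.e (nat_lit 171776) (nat_lit 89) (.e (nat_lit 557109) (nat_lit 15) (.e (nat_lit 188452) (nat_lit 23) (.e (nat_lit 204852) (nat_lit 26) .nil)))) .nil)) 
(.lf (nat_lit 255910) (.g (nat_lit 2042) (.e (nat_lit 164108) (nat_lit 116) (.e (nat_lit 778325) (nat_lit 6) (.e (nat_lit 81956) (nat_lit 23) (.e (nat_lit 98309) (nat_lit 0) (.e (nat_lit 6216) (nat_lit 333) (.e (nat_lit 57819) (nat_lit 248) .nil)))))) (.g (nat_lit 5) .nil .nil)))) (.nd (nat_lit 5) 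
(.lf (nat_lit 255894) (.g (nat_lit 3164) (.e (nat_lit 164098) (nat_lit 107) (.e (nat_lit 704738) (nat_lit 11) (.e (nat_lit 16425) (nat_lit 7) (.e (nat_lit 409648) (nat_lit 18) (.e (nat_lit 303137) (nat_lit 10) .nil))))) .nil)) 
(.lf (nat_lit 255926) (.g (nat_lit 635) (.e (nat_lit 164112) (nat_lit 118) (.e (nat_lit 794634) (nat_lit 11) (.e (nat_lit 336121) (nat_lit 9) (.e (nat_lit 336437) (nat_lit 31) (.e (nat_lit 458769) (nat_lit 16) (.e (nat_lit 164291) (nat_lit 224) .nil)))))) (.g (nat_lit 4) .nil .nil))))) (.nd (nat_lit 4) (.nd (nat_lit 5) 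
(.lf (nat_lit 255886) (.g (nat_lit 1291) (.e (nat_lit 164097) (nat_lit 107) (.e (nat_lit 704737) (nat_lit 11) (.e (nat_lit 16425) (nat_lit 7) (.e (nat_lit 409649) (nat_lit 18) .nil)))) .nil)) 
(.lf (nat_lit 255918) (.g (nat_lit 1994) (.e (nat_lit 164110) (nat_lit 116) (.e (nat_lit 778466) (nat_lit 11) (.e (nat_lit 24584) (nat_lit 0) (.e (nat_lit 2292) (nat_lit 151) .nil)))) .nil))) (.nd (nat_lit 5) 
(.lf (nat_lit 255902) (.g (nat_lit 3654) (.e (nat_lit 164101) (nat_lit 107) (.e (nat_lit 704738) (nat_lit 11) (.e (nat_lit 16425) (nat_lit 7) (.e (nat_lit 409649) (nat_lit 18) (.e (nat_lit 303136) (nat_lit 10) .nil))))) .nil)) 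
(.lf (nat_lit 255934) (.g (nat_lit 1319) (.e (nat_lit 164112) (nat_lit 118) (.e (nat_lit 794636) (nat_lit 11) (.e (nat_lit 336075) (nat_lit 9) (.e (nat_lit 336438) (nat_lit 31) (.e (nat_lit 458769) (nat_lit 16) (.e (nat_lit 164286) (nat_lit 224) .nil)))))) (.g (nat_lit 4) .nil .nil)))))))) (.nd (nat_lit 1) (.nd (nat_lit 2) (.nd (nat_lit 3) (.nd (nat_lit 4) (.nd (nat_lit 5) 
(.lf (nat_lit 255873) (.g (nat_lit 1412) (.e (nat_lit 171776) (nat_lit 89) (.e (nat_lit 557087) (nat_lit 11) (.e (nat_lit 24638) (nat_lit 9) (.e (nat_lit 336012) (nat_lit 2) .nil)))) .nil)) 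
(.lf (nat_lit 255905) (.g (nat_lit 2299) (.e (nat_lit 164102) (nat_lit 107) (.e (nat_lit 704738) (nat_lit 11) (.e (nat_lit 16425) (nat_lit 7) (.e (nat_lit 409648) (nat_lit 18) .nil)))) .nil))) (.nd (nat_lit 5) 
(.lf (nat_lit 255889) (.g (nat_lit 2517) (.e (nat_lit 164097) (nat_lit 107) (.e (nat_lit 704738) (nat_lit 11) (.e (nat_lit 16425) (nat_lit 7) (.e (nat_lit 409649) (nat_lit 18) (.e (nat_lit 303140) (nat_lit 10) .nil))))) .nil)) 
(.lf (nat_lit 255921) (.g (nat_lit 1681) (.e (nat_lit 164112) (nat_lit 118) (.e (nat_lit 794632) (nat_lit 11) (.e (nat_lit 336088) (nat_lit 9) (.e (nat_lit 336438) (nat_lit 31) (.e (nat_lit 458769) (nat_lit 16) (.e (nat_lit 164293) (nat_lit 224) .nil)))))) (.g (nat_lit 5) .nil .nil))))) (.nd (nat_lit 4) (.nd (nat_lit 5) 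
(.lf (nat_lit 255881) (.g (nat_lit 1701) (.e (nat_lit 171776) (nat_lit 103) (.e (nat_lit 671762) (nat_lit 4) (.e (nat_lit 65630) (nat_lit 14) (.e (nat_lit 401459) (nat_lit 13) (.e (nat_lit 483344) (nat_lit 17) .nil))))) .nil)) 
(.lf (nat_lit 255913) (.g (nat_lit 2094) (.e (nat_lit 164110) (nat_lit 116) (.e (nat_lit 778362) (nat_lit 9) (.e (nat_lit 297) (nat_lit 22) (.e (nat_lit 344178) (nat_lit 44) .nil)))) .nil))) (.nd (nat_lit 5) 
(.lf (nat_lit 255897) (.g (nat_lit 2161) (.e (nat_lit 164101) (nat_lit 107) (.e (nat_lit 704738) (nat_lit 11) (.e (nat_lit 16425) (nat_lit 7) (.e (nat_lit 409643) (nat_lit 18) .nil)))) .nil)) 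
(.lf (nat_lit 255929) (.g (nat_lit 678) (.e (nat_lit 164112) (nat_lit 118) (.e (nat_lit 794634) (nat_lit 11) (.e (nat_lit 336121) (nat_lit 9) (.e (nat_lit 336437) (nat_lit 31) (.e (nat_lit 458769) (nat_lit 16) (.e (nat_lit 164294) (nat_lit 224) .nil)))))) (.g (nat_lit 4) .nil .nil)))))) (.nd (nat_lit 3) (.nd (nat_lit 4) (.nd (nat_lit 5) 
(.lf (nat_lit 255877) (.g (nat_lit 558) (.e (nat_lit 171776) (nat_lit 89) (.e (nat_lit 557109) (nat_lit 15) (.e (nat_lit 188452) (nat_lit 23) .nil))) .nil)) 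
(.lf (nat_lit 255909) (.g (nat_lit 1019) (.e (nat_lit 164108) (nat_lit 116) (.e (nat_lit 786176) (nat_lit 4) (.e (nat_lit 65598) (nat_lit 9) (.e (nat_lit 336013) (nat_lit 2) (.e (nat_lit 98048) (nat_lit 0) (.e (nat_lit 442) (nat_lit 33) (.e (nat_lit 434197) (nat_lit 16) .nil))))))) (.g (nat_lit 4) .nil .nil)))) (.nd (nat_lit 5) 
(.lf (nat_lit 255893) (.g (nat_lit 2999) (.e (nat_lit 164098) (nat_lit 107) (.e (nat_lit 704738) (nat_lit 11) (.e (nat_lit 16425) (nat_lit 7) (.e (nat_lit 409648) (nat_lit 18) (.e (nat_lit 303136) (nat_lit 10) .nil))))) .nil)) 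
(.lf (nat_lit 255925) (.g (nat_lit 673) (.e (nat_lit 164112) (nat_lit 118) (.e (nat_lit 794634) (nat_lit 11) (.e (nat_lit 336121) (nat_lit 9) (.e (nat_lit 336437) (nat_lit 31) (.e (nat_lit 458769) (nat_lit 16) (.e (nat_lit 164289) (nat_lit 224) .nil)))))) (.g (nat_lit 4) .nil .nil))))) (.nd (nat_lit 4) (.nd (nat_lit 5) 
(.lf (nat_lit 255885) (.g (nat_lit 2366) (.e (nat_lit 164097) (nat_lit 107) (.e (nat_lit 704737) (nat_lit 11) (.e (nat_lit 16425) (nat_lit 7) (.e (nat_lit 409648) (nat_lit 18) (.e (nat_lit 303137) (nat_lit 10) .nil))))) .nil)) 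
(.lf (nat_lit 255917) (.g (nat_lit 1365) (.e (nat_lit 164110) (nat_lit 116) (.e (nat_lit 778465) (nat_lit 11) (.e (nat_lit 24660) (nat_lit 13) (.e (nat_lit 393259) (nat_lit 21) .nil)))) .nil))) (.nd (nat_lit 5) 
(.lf (nat_lit 255901) (.g (nat_lit 3003) (.e (nat_lit 164101) (nat_lit 107) (.e (nat_lit 704738) (nat_lit 11) (.e (nat_lit 16425) (nat_lit 7) (.e (nat_lit 409649) (nat_lit 18) (.e (nat_lit 303132) (nat_lit 9) .nil))))) .nil)) 
(.lf (nat_lit 255933) (.g (nat_lit 1025) (.e (nat_lit 164112) (nat_lit 118) (.e (nat_lit 794635) (nat_lit 11) (.e (nat_lit 336118) (nat_lit 9) (.e (nat_lit 336437) (nat_lit 31) (.e (nat_lit 458769) (nat_lit 16) (.e (nat_lit 164294) (nat_lit 224) .nil)))))) (.g (nat_lit 0) .nil .nil))))))) (.nd (nat_lit 2) (.nd (nat_lit 3) (.nd (nat_lit 4) (.nd (nat_lit 5) 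
(.lf (nat_lit 255875) (.g (nat_lit 1770) (.e (nat_lit 171776) (nat_lit 89) (.e (nat_lit 557087) (nat_lit 11) (.e (nat_lit 24640) (nat_lit 10) (.e (nat_lit 344117) (nat_lit 21) .nil)))) .nil)) 
(.lf (nat_lit 255907) (.g (nat_lit 581) (.e (nat_lit 171776) (nat_lit 114) (.e (nat_lit 761867) (nat_lit 5) (.e (nat_lit 1633) (nat_lit 114) (.e (nat_lit 385068) (nat_lit 26) .nil)))) .nil))) (.nd (nat_lit 5) 
(.lf (nat_lit 255891) (.g (nat_lit 2614) (.e (nat_lit 164098) (nat_lit 107) (.e (nat_lit 704738) (nat_lit 11) (.e (nat_lit 16425) (nat_lit 7) (.e (nat_lit 409643) (nat_lit 18) (.e (nat_lit 303143) (nat_lit 12) .nil))))) .nil)) 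
(.lf (nat_lit 255923) (.g (nat_lit 652) (.e (nat_lit 164112) (nat_lit 118) (.e (nat_lit 794634) (nat_lit 11) (.e (nat_lit 336121) (nat_lit 9) (.e (nat_lit 336437) (nat_lit 31) (.e (nat_lit 458769) (nat_lit 16) (.e (nat_lit 164287) (nat_lit 224) .nil)))))) (.g (nat_lit 4) .nil .nil))))) (.nd (nat_lit 4) (.nd (nat_lit 5) 
(.lf (nat_lit 255883) (.g (nat_lit 1837) (.e (nat_lit 171776) (nat_lit 106) (.e (nat_lit 696344) (nat_lit 8) (.e (nat_lit 172079) (nat_lit 7) (.e (nat_lit 409645) (nat_lit 18) (.e (nat_lit 303133) (nat_lit 9) .nil))))) .nil)) 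
(.lf (nat_lit 255915) (.g (nat_lit 657) (.e (nat_lit 164110) (nat_lit 116) (.e (nat_lit 778362) (nat_lit 9) (.e (nat_lit 344) (nat_lit 27) .nil))) .nil))) (.nd (nat_lit 5) 
(.lf (nat_lit 255899) (.g (nat_lit 3251) (.e (nat_lit 164101) (nat_lit 107) (.e (nat_lit 704738) (nat_lit 11) (.e (nat_lit 16425) (nat_lit 7) (.e (nat_lit 409648) (nat_lit 18) (.e (nat_lit 303137) (nat_lit 10) .nil))))) .nil)) 
(.lf (nat_lit 255931) (.g (nat_lit 1032) (.e (nat_lit 164112) (nat_lit 118) (.e (nat_lit 794635) (nat_lit 11) (.e (nat_lit 336118) (nat_lit 9) (.e (nat_lit 336437) (nat_lit 31) (.e (nat_lit 458769) (nat_lit 16) (.e (nat_lit 164286) (nat_lit 224) .nil)))))) (.g (nat_lit 0) .nil .nil)))))) (.nd (nat_lit 3) (.nd (nat_lit 4) (.nd (nat_lit 5) 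
(.lf (nat_lit 255879) (.g (nat_lit 1020) (.e (nat_lit 171776) (nat_lit 103) (.e (nat_lit 671762) (nat_lit 4) (.e (nat_lit 65583) (nat_lit 7) (.e (nat_lit 319530) (nat_lit 16) .nil)))) .nil)) 
(.lf (nat_lit 255911) (.g (nat_lit 1663) (.e (nat_lit 164109) (nat_lit 116) (.e (nat_lit 778362) (nat_lit 9) (.e (nat_lit 232) (nat_lit 21) (.e (nat_lit 336060) (nat_lit 7) .nil)))) .nil))) (.nd (nat_lit 5) 
(.lf (nat_lit 255895) (.g (nat_lit 3287) (.e (nat_lit 164098) (nat_lit 107) (.e (nat_lit 704738) (nat_lit 11) (.e (nat_lit 16425) (nat_lit 7) (.e (nat_lit 409649) (nat_lit 18) (.e (nat_lit 303140) (nat_lit 10) (.e (nat_lit 434272) (nat_lit 38) (.e (nat_lit 663296) (nat_lit 17) .nil))))))) (.g (nat_lit 5) .nil .nil))) 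
(.lf (nat_lit 255927) (.g (nat_lit 660) (.e (nat_lit 164112) (nat_lit 118) (.e (nat_lit 794634) (nat_lit 11) (.e (nat_lit 336121) (nat_lit 9) (.e (nat_lit 336437) (nat_lit 31) (.e (nat_lit 458769) (nat_lit 16) (.e (nat_lit 164292) (nat_lit 224) .nil)))))) (.g (nat_lit 4) .nil .nil))))) (.nd (nat_lit 4) (.nd (nat_lit 5) 
(.lf (nat_lit 255887) (.g (nat_lit 2208) (.e (nat_lit 164097) (nat_lit 107) (.e (nat_lit 704738) (nat_lit 11) (.e (nat_lit 16425) (nat_lit 7) (.e (nat_lit 409648) (nat_lit 18) .nil)))) .nil)) 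
(.lf (nat_lit 255919) (.g (nat_lit 1993) (.e (nat_lit 164110) (nat_lit 116) (.e (nat_lit 778466) (nat_lit 11) (.e (nat_lit 24584) (nat_lit 0) (.e (nat_lit 2296) (nat_lit 151) .nil)))) .nil))) (.nd (nat_lit 5) 
(.lf (nat_lit 255903) (.g (nat_lit 3736) (.e (nat_lit 164101) (nat_lit 107) (.e (nat_lit 704738) (nat_lit 11) (.e (nat_lit 16425) (nat_lit 7) (.e (nat_lit 409649) (nat_lit 18) (.e (nat_lit 303140) (nat_lit 10) (.e (nat_lit 434271) (nat_lit 38) (.e (nat_lit 663296) (nat_lit 17) .nil))))))) (.g (nat_lit 5) .nil .nil))) 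
(.lf (nat_lit 255935) (.g (nat_lit 1198) (.e (nat_lit 164112) (nat_lit 118) (.e (nat_lit 794636) (nat_lit 11) (.e (nat_lit 336075) (nat_lit 9) (.e (nat_lit 336438) (nat_lit 31) (.e (nat_lit 458769) (nat_lit 16) (.e (nat_lit 164288) (nat_lit 224) .nil)))))) (.g (nat_lit 4) .nil .nil)))))))))

noncomputable def tv3319 : DT := (.nd (nat_lit 0) (.nd (nat_lit 1) (.nd (nat_lit 2) (.nd (nat_lit 3) (.nd (nat_lit 4) (.nd (nat_lit 5) 
(.lf (nat_lit 255936) (.g (nat_lit 1207) (.e (nat_lit 164112) (nat_lit 118) (.e (nat_lit 794636) (nat_lit 11) (.e (nat_lit 336075) (nat_lit 9) (.e (nat_lit 336438) (nat_lit 31) (.e (nat_lit 458769) (nat_lit 16) (.e (nat_lit 164289) (nat_lit 224) .nil)))))) (.g (nat_lit 4) .nil .nil))) 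
(.lf (nat_lit 255968) (.g (nat_lit 157) (.e (nat_lit 164112) (nat_lit 118) (.e (nat_lit 794636) (nat_lit 11) (.e (nat_lit 336222) (nat_lit 13) .nil))) .nil))) (.nd (nat_lit 5) 
(.lf (nat_lit 255952) (.g (nat_lit 1122) (.e (nat_lit 164112) (nat_lit 118) (.e (nat_lit 794636) (nat_lit 11) (.e (nat_lit 336077) (nat_lit 9) (.e (nat_lit 336438) (nat_lit 31) (.e (nat_lit 458769) (nat_lit 16) (.e (nat_lit 164293) (nat_lit 224) .nil)))))) (.g (nat_lit 5) .nil .nil))) 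
(.lf (nat_lit 255984) (.g (nat_lit 1475) (.e (nat_lit 164112) (nat_lit 118) (.e (nat_lit 794637) (nat_lit 11) (.e (nat_lit 336084) (nat_lit 9) (.e (nat_lit 336438) (nat_lit 31) (.e (nat_lit 458769) (nat_lit 16) (.e (nat_lit 164291) (nat_lit 224) .nil)))))) (.g (nat_lit 0) .nil .nil))))) (.nd (nat_lit 4) (.nd (nat_lit 5) 
(.lf (nat_lit 255944) (.g (nat_lit 1622) (.e (nat_lit 164112) (nat_lit 118) (.e (nat_lit 794636) (nat_lit 11) (.e (nat_lit 336076) (nat_lit 9) (.e (nat_lit 336438) (nat_lit 31) (.e (nat_lit 458769) (nat_lit 16) (.e (nat_lit 164291) (nat_lit 224) .nil)))))) (.g (nat_lit 4) .nil .nil))) 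
(.lf (nat_lit 255976) (.g (nat_lit 2152) (.e (nat_lit 164112) (nat_lit 118) (.e (nat_lit 794637) (nat_lit 11) (.e (nat_lit 336075) (nat_lit 9) (.e (nat_lit 336438) (nat_lit 31) (.e (nat_lit 458769) (nat_lit 16) (.e (nat_lit 164293) (nat_lit 224) .nil)))))) (.g (nat_lit 0) .nil .nil)))) (.nd (nat_lit 5) 
(.lf (nat_lit 255960) (.g (nat_lit 1708) (.e (nat_lit 164112) (nat_lit 118) (.e (nat_lit 794636) (nat_lit 11) (.e (nat_lit 336086) (nat_lit 9) (.e (nat_lit 336438) (nat_lit 31) (.e (nat_lit 458769) (nat_lit 16) (.e (nat_lit 164287) (nat_lit 224) .nil)))))) (.g (nat_lit 0) .nil .nil))) 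
(.lf (nat_lit 255992) (.g (nat_lit 1381) (.e (nat_lit 164112) (nat_lit 118) (.e (nat_lit 794637) (nat_lit 11) (.e (nat_lit 336085) (nat_lit 9) (.e (nat_lit 336438) (nat_lit 31) (.e (nat_lit 458769) (nat_lit 16) (.e (nat_lit 164286) (nat_lit 224) .nil)))))) (.g (nat_lit 5) .nil .nil)))))) (.nd (nat_lit 3) (.nd (nat_lit 4) (.nd (nat_lit 5) 
(.lf (nat_lit 255940) (.g (nat_lit 1540) (.e (nat_lit 164112) (nat_lit 118) (.e (nat_lit 794636) (nat_lit 11) (.e (nat_lit 336076) (nat_lit 9) (.e (nat_lit 336438) (nat_lit 31) (.e (nat_lit 458769) (nat_lit 16) .nil))))) .nil)) 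
(.lf (nat_lit 255972) (.g (nat_lit 2124) (.e (nat_lit 164112) (nat_lit 118) (.e (nat_lit 794637) (nat_lit 11) (.e (nat_lit 336075) (nat_lit 9) (.e (nat_lit 336438) (nat_lit 31) (.e (nat_lit 458769) (nat_lit 16) (.e (nat_lit 164288) (nat_lit 224) .nil)))))) (.g (nat_lit 0) .nil .nil)))) (.nd (nat_lit 5) 
(.lf (nat_lit 255956) (.g (nat_lit 1026) (.e (nat_lit 164112) (nat_lit 118) (.e (nat_lit 794636) (nat_lit 11) (.e (nat_lit 336085) (nat_lit 9) (.e (nat_lit 336438) (nat_lit 31) (.e (nat_lit 458769) (nat_lit 16) (.e (nat_lit 164287) (nat_lit 224) .nil)))))) (.g (nat_lit 4) .nil .nil))) 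
(.lf (nat_lit 255988) (.g (nat_lit 312) (.e (nat_lit 164112) (nat_lit 118) (.e (nat_lit 794637) (nat_lit 11) (.e (nat_lit 336085) (nat_lit 9) .nil))) .nil)))) (.nd (nat_lit 4) (.nd (nat_lit 5) 
(.lf (nat_lit 255948) (.g (nat_lit 1225) (.e (nat_lit 164112) (nat_lit 118) (.e (nat_lit 794636) (nat_lit 11) (.e (nat_lit 336077) (nat_lit 9) (.e (nat_lit 336438) (nat_lit 31) (.e (nat_lit 458769) (nat_lit 16) (.e (nat_lit 164287) (nat_lit 224) .nil)))))) (.g (nat_lit 6) .nil .nil))) 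
(.lf (nat_lit 255980) (.g (nat_lit 1862) (.e (nat_lit 164112) (nat_lit 118) (.e (nat_lit 794637) (nat_lit 11) (.e (nat_lit 336076) (nat_lit 9) (.e (nat_lit 336438) (nat_lit 31) (.e (nat_lit 458769) (nat_lit 16) (.e (nat_lit 164293) (nat_lit 224) .nil)))))) (.g (nat_lit 0) .nil .nil)))) (.nd (nat_lit 5) 
(.lf (nat_lit 255964) (.g (nat_lit 1603) (.e (nat_lit 164112) (nat_lit 118) (.e (nat_lit 794636) (nat_lit 11) (.e (nat_lit 336086) (nat_lit 9) (.e (nat_lit 336438) (nat_lit 31) (.e (nat_lit 458769) (nat_lit 16) (.e (nat_lit 164293) (nat_lit 224) .nil)))))) (.g (nat_lit 6) .nil .nil))) 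
(.lf (nat_lit 255996) (.g (nat_lit 1375) (.e (nat_lit 164112) (nat_lit 118) (.e (nat_lit 794637) (nat_lit 11) (.e (nat_lit 336085) (nat_lit 9) (.e (nat_lit 336438) (nat_lit 31) (.e (nat_lit 458769) (nat_lit 16) (.e (nat_lit 164291) (nat_lit 224) .nil)))))) (.g (nat_lit 5) .nil .nil))))))) (.nd (nat_lit 2) (.nd (nat_lit 3) (.nd (nat_lit 4) (.nd (nat_lit 5) 
(.lf (nat_lit 255938) (.g (nat_lit 1204) (.e (nat_lit 164112) (nat_lit 118) (.e (nat_lit 794636) (nat_lit 11) (.e (nat_lit 336075) (nat_lit 9) (.e (nat_lit 336438) (nat_lit 31) (.e (nat_lit 458769) (nat_lit 16) (.e (nat_lit 164293) (nat_lit 224) .nil)))))) (.g (nat_lit 4) .nil .nil))) 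
(.lf (nat_lit 255970) (.g (nat_lit 1288) (.e (nat_lit 164112) (nat_lit 118) (.e (nat_lit 794636) (nat_lit 11) (.e (nat_lit 336222) (nat_lit 13) (.e (nat_lit 393260) (nat_lit 21) (.e (nat_lit 417536) (nat_lit 10) (.e (nat_lit 5022) (nat_lit 290) .nil)))))) (.g (nat_lit 4) .nil .nil)))) (.nd (nat_lit 5) 
(.lf (nat_lit 255954) (.g (nat_lit 951) (.e (nat_lit 164112) (nat_lit 118) (.e (nat_lit 794636) (nat_lit 11) (.e (nat_lit 336085) (nat_lit 9) (.e (nat_lit 336438) (nat_lit 31) (.e (nat_lit 458769) (nat_lit 16) .nil))))) .nil)) 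
(.lf (nat_lit 255986) (.g (nat_lit 1460) (.e (nat_lit 164112) (nat_lit 118) (.e (nat_lit 794637) (nat_lit 11) (.e (nat_lit 336084) (nat_lit 9) (.e (nat_lit 336438) (nat_lit 31) (.e (nat_lit 458769) (nat_lit 16) (.e (nat_lit 164293) (nat_lit 224) .nil)))))) (.g (nat_lit 0) .nil .nil))))) (.nd (nat_lit 4) (.nd (nat_lit 5) 
(.lf (nat_lit 255946) (.g (nat_lit 1667) (.e (nat_lit 164112) (nat_lit 118) (.e (nat_lit 794636) (nat_lit 11) (.e (nat_lit 336076) (nat_lit 9) (.e (nat_lit 336438) (nat_lit 31) (.e (nat_lit 458769) (nat_lit 16) (.e (nat_lit 164294) (nat_lit 224) .nil)))))) (.g (nat_lit 4) .nil .nil))) 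
(.lf (nat_lit 255978) (.g (nat_lit 1887) (.e (nat_lit 164112) (nat_lit 118) (.e (nat_lit 794637) (nat_lit 11) (.e (nat_lit 336076) (nat_lit 9) (.e (nat_lit 336438) (nat_lit 31) (.e (nat_lit 458769) (nat_lit 16) (.e (nat_lit 164286) (nat_lit 224) .nil)))))) (.g (nat_lit 0) .nil .nil)))) (.nd (nat_lit 5) 
(.lf (nat_lit 255962) (.g (nat_lit 1604) (.e (nat_lit 164112) (nat_lit 118) (.e (nat_lit 794636) (nat_lit 11) (.e (nat_lit 336086) (nat_lit 9) (.e (nat_lit 336438) (nat_lit 31) (.e (nat_lit 458769) (nat_lit 16) (.e (nat_lit 164289) (nat_lit 224) .nil)))))) (.g (nat_lit 6) .nil .nil))) 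
(.lf (nat_lit 255994) (.g (nat_lit 1332) (.e (nat_lit 164112) (nat_lit 118) (.e (nat_lit 794637) (nat_lit 11) (.e (nat_lit 336085) (nat_lit 9) (.e (nat_lit 336438) (nat_lit 31) (.e (nat_lit 458769) (nat_lit 16) (.e (nat_lit 164288) (nat_lit 224) .nil)))))) (.g (nat_lit 5) .nil .nil)))))) (.nd (nat_lit 3) (.nd (nat_lit 4) (.nd (nat_lit 5) 
(.lf (nat_lit 255942) (.g (nat_lit 1638) (.e (nat_lit 164112) (nat_lit 118) (.e (nat_lit 794636) (nat_lit 11) (.e (nat_lit 336076) (nat_lit 9) (.e (nat_lit 336438) (nat_lit 31) (.e (nat_lit 458769) (nat_lit 16) (.e (nat_lit 164287) (nat_lit 224) .nil)))))) (.g (nat_lit 4) .nil .nil))) 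
(.lf (nat_lit 255974) (.g (nat_lit 2167) (.e (nat_lit 164112) (nat_lit 118) (.e (nat_lit 794637) (nat_lit 11) (.e (nat_lit 336075) (nat_lit 9) (.e (nat_lit 336438) (nat_lit 31) (.e (nat_lit 458769) (nat_lit 16) (.e (nat_lit 164291) (nat_lit 224) .nil)))))) (.g (nat_lit 0) .nil .nil)))) (.nd (nat_lit 5) 
(.lf (nat_lit 255958) (.g (nat_lit 1029) (.e (nat_lit 164112) (nat_lit 118) (.e (nat_lit 794636) (nat_lit 11) (.e (nat_lit 336085) (nat_lit 9) (.e (nat_lit 336438) (nat_lit 31) (.e (nat_lit 458769) (nat_lit 16) (.e (nat_lit 164292) (nat_lit 224) .nil)))))) (.g (nat_lit 4) .nil .nil))) 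
(.lf (nat_lit 255990) (.g (nat_lit 1012) (.e (nat_lit 164112) (nat_lit 118) (.e (nat_lit 794637) (nat_lit 11) (.e (nat_lit 336085) (nat_lit 9) (.e (nat_lit 336421) (nat_lit 28) (.e (nat_lit 434197) (nat_lit 16) (.e (nat_lit 164289) (nat_lit 224) .nil)))))) (.g (nat_lit 4) .nil .nil))))) (.nd (nat_lit 4) (.nd (nat_lit 5) 
(.lf (nat_lit 255950) (.g (nat_lit 1125) (.e (nat_lit 164112) (nat_lit 118) (.e (nat_lit 794636) (nat_lit 11) (.e (nat_lit 336077) (nat_lit 9) (.e (nat_lit 336438) (nat_lit 31) (.e (nat_lit 458769) (nat_lit 16) (.e (nat_lit 164289) (nat_lit 224) .nil)))))) (.g (nat_lit 5) .nil .nil))) 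
(.lf (nat_lit 255982) (.g (nat_lit 1432) (.e (nat_lit 164112) (nat_lit 118) (.e (nat_lit 794637) (nat_lit 11) (.e (nat_lit 336084) (nat_lit 9) (.e (nat_lit 336438) (nat_lit 31) (.e (nat_lit 458769) (nat_lit 16) (.e (nat_lit 164288) (nat_lit 224) .nil)))))) (.g (nat_lit 0) .nil .nil)))) (.nd (nat_lit 5) 
(.lf (nat_lit 255966) (.g (nat_lit 1824) (.e (nat_lit 164112) (nat_lit 118) (.e (nat_lit 794636) (nat_lit 11) (.e (nat_lit 336088) (nat_lit 9) (.e (nat_lit 336438) (nat_lit 31) (.e (nat_lit 458769) (nat_lit 16) (.e (nat_lit 164289) (nat_lit 224) .nil)))))) (.g (nat_lit 6) .nil .nil))) 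
(.lf (nat_lit 255998) (.g (nat_lit 1360) (.e (nat_lit 164112) (nat_lit 118) (.e (nat_lit 794637) (nat_lit 11) (.e (nat_lit 336085) (nat_lit 9) (.e (nat_lit 336438) (nat_lit 31) (.e (nat_lit 458769) (nat_lit 16) (.e (nat_lit 164293) (nat_lit 224) .nil)))))) (.g (nat_lit 5) .nil .nil)))))))) (.nd (nat_lit 1) (.nd (nat_lit 2) (.nd (nat_lit 3) (.nd (nat_lit 4) (.nd (nat_lit 5) 
(.lf (nat_lit 255937) (.g (nat_lit 1310) (.e (nat_lit 164112) (nat_lit 118) (.e (nat_lit 794636) (nat_lit 11) (.e (nat_lit 336075) (nat_lit 9) (.e (nat_lit 336438) (nat_lit 31) (.e (nat_lit 458769) (nat_lit 16) (.e (nat_lit 164292) (nat_lit 224) .nil)))))) (.g (nat_lit 4) .nil .nil))) 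
(.lf (nat_lit 255969) (.g (nat_lit 2012) (.e (nat_lit 164112) (nat_lit 118) (.e (nat_lit 794636) (nat_lit 11) (.e (nat_lit 336222) (nat_lit 13) (.e (nat_lit 393260) (nat_lit 21) (.e (nat_lit 409618) (nat_lit 10) (.e (nat_lit 5024) (nat_lit 290) .nil)))))) (.g (nat_lit 5) .nil .nil)))) (.nd (nat_lit 5) 
(.lf (nat_lit 255953) (.g (nat_lit 865) (.e (nat_lit 164112) (nat_lit 118) (.e (nat_lit 794636) (nat_lit 11) (.e (nat_lit 336085) (nat_lit 9) (.e (nat_lit 336421) (nat_lit 28) (.e (nat_lit 434197) (nat_lit 16) .nil))))) .nil)) 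
(.lf (nat_lit 255985) (.g (nat_lit 1431) (.e (nat_lit 164112) (nat_lit 118) (.e (nat_lit 794637) (nat_lit 11) (.e (nat_lit 336084) (nat_lit 9) (.e (nat_lit 336438) (nat_lit 31) (.e (nat_lit 458769) (nat_lit 16) (.e (nat_lit 164292) (nat_lit 224) .nil)))))) (.g (nat_lit 0) .nil .nil))))) (.nd (nat_lit 4) (.nd (nat_lit 5) 
(.lf (nat_lit 255945) (.g (nat_lit 1645) (.e (nat_lit 164112) (nat_lit 118) (.e (nat_lit 794636) (nat_lit 11) (.e (nat_lit 336076) (nat_lit 9) (.e (nat_lit 336438) (nat_lit 31) (.e (nat_lit 458769) (nat_lit 16) (.e (nat_lit 164292) (nat_lit 224) .nil)))))) (.g (nat_lit 4) .nil .nil))) 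
(.lf (nat_lit 255977) (.g (nat_lit 2144) (.e (nat_lit 164112) (nat_lit 118) (.e (nat_lit 794637) (nat_lit 11) (.e (nat_lit 336075) (nat_lit 9) (.e (nat_lit 336438) (nat_lit 31) (.e (nat_lit 458769) (nat_lit 16) (.e (nat_lit 164294) (nat_lit 224) .nil)))))) (.g (nat_lit 0) .nil .nil)))) (.nd (nat_lit 5) 
(.lf (nat_lit 255961) (.g (nat_lit 1599) (.e (nat_lit 164112) (nat_lit 118) (.e (nat_lit 794636) (nat_lit 11) (.e (nat_lit 336086) (nat_lit 9) (.e (nat_lit 336438) (nat_lit 31) (.e (nat_lit 458769) (nat_lit 16) (.e (nat_lit 164288) (nat_lit 224) .nil)))))) (.g (nat_lit 6) .nil .nil))) 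
(.lf (nat_lit 255993) (.g (nat_lit 1314) (.e (nat_lit 164112) (nat_lit 118) (.e (nat_lit 794637) (nat_lit 11) (.e (nat_lit 336085) (nat_lit 9) (.e (nat_lit 336438) (nat_lit 31) (.e (nat_lit 458769) (nat_lit 16) (.e (nat_lit 164287) (nat_lit 224) .nil)))))) (.g (nat_lit 5) .nil .nil)))))) (.nd (nat_lit 3) (.nd (nat_lit 4) (.nd (nat_lit 5) 
(.lf (nat_lit 255941) (.g (nat_lit 1652) (.e (nat_lit 164112) (nat_lit 118) (.e (nat_lit 794636) (nat_lit 11) (.e (nat_lit 336076) (nat_lit 9) (.e (nat_lit 336438) (nat_lit 31) (.e (nat_lit 458769) (nat_lit 16) (.e (nat_lit 164286) (nat_lit 224) .nil)))))) (.g (nat_lit 4) .nil .nil))) 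
(.lf (nat_lit 255973) (.g (nat_lit 2170) (.e (nat_lit 164112) (nat_lit 118) (.e (nat_lit 794637) (nat_lit 11) (.e (nat_lit 336075) (nat_lit 9) (.e (nat_lit 336438) (nat_lit 31) (.e (nat_lit 458769) (nat_lit 16) (.e (nat_lit 164289) (nat_lit 224) .nil)))))) (.g (nat_lit 0) .nil .nil)))) (.nd (nat_lit 5) 
(.lf (nat_lit 255957) (.g (nat_lit 1008) (.e (nat_lit 164112) (nat_lit 118) (.e (nat_lit 794636) (nat_lit 11) (.e (nat_lit 336085) (nat_lit 9) (.e (nat_lit 336438) (nat_lit 31) (.e (nat_lit 458769) (nat_lit 16) (.e (nat_lit 164291) (nat_lit 224) .nil)))))) (.g (nat_lit 4) .nil .nil))) 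
(.lf (nat_lit 255989) (.g (nat_lit 1012) (.e (nat_lit 164112) (nat_lit 118) (.e (nat_lit 794637) (nat_lit 11) (.e (nat_lit 336085) (nat_lit 9) (.e (nat_lit 336421) (nat_lit 28) (.e (nat_lit 434197) (nat_lit 16) (.e (nat_lit 164288) (nat_lit 224) .nil)))))) (.g (nat_lit 4) .nil .nil))))) (.nd (nat_lit 4) (.nd (nat_lit 5) 
(.lf (nat_lit 255949) (.g (nat_lit 1116) (.e (nat_lit 164112) (nat_lit 118) (.e (nat_lit 794636) (nat_lit 11) (.e (nat_lit 336077) (nat_lit 9) (.e (nat_lit 336438) (nat_lit 31) (.e (nat_lit 458769) (nat_lit 16) (.e (nat_lit 164288) (nat_lit 224) .nil)))))) (.g (nat_lit 5) .nil .nil))) 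
(.lf (nat_lit 255981) (.g (nat_lit 1481) (.e (nat_lit 164112) (nat_lit 118) (.e (nat_lit 794637) (nat_lit 11) (.e (nat_lit 336084) (nat_lit 9) (.e (nat_lit 336438) (nat_lit 31) (.e (nat_lit 458769) (nat_lit 16) (.e (nat_lit 164286) (nat_lit 224) .nil)))))) (.g (nat_lit 0) .nil .nil)))) (.nd (nat_lit 5) 
(.lf (nat_lit 255965) (.g (nat_lit 1815) (.e (nat_lit 164112) (nat_lit 118) (.e (nat_lit 794636) (nat_lit 11) (.e (nat_lit 336088) (nat_lit 9) (.e (nat_lit 336438) (nat_lit 31) (.e (nat_lit 458769) (nat_lit 16) (.e (nat_lit 164288) (nat_lit 224) .nil)))))) (.g (nat_lit 6) .nil .nil))) 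
(.lf (nat_lit 255997) (.g (nat_lit 1331) (.e (nat_lit 164112) (nat_lit 118) (.e (nat_lit 794637) (nat_lit 11) (.e (nat_lit 336085) (nat_lit 9) (.e (nat_lit 336438) (nat_lit 31) (.e (nat_lit 458769) (nat_lit 16) (.e (nat_lit 164292) (nat_lit 224) .nil)))))) (.g (nat_lit 5) .nil .nil))))))) (.nd (nat_lit 2) (.nd (nat_lit 3) (.nd (nat_lit 4) (.nd (nat_lit 5) 
(.lf (nat_lit 255939) (.g (nat_lit 1335) (.e (nat_lit 164112) (nat_lit 118) (.e (nat_lit 794636) (nat_lit 11) (.e (nat_lit 336075) (nat_lit 9) (.e (nat_lit 336438) (nat_lit 31) (.e (nat_lit 458769) (nat_lit 16) (.e (nat_lit 164294) (nat_lit 224) .nil)))))) (.g (nat_lit 5) .nil .nil))) 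
(.lf (nat_lit 255971) (.g (nat_lit 2173) (.e (nat_lit 164112) (nat_lit 118) (.e (nat_lit 794637) (nat_lit 11) (.e (nat_lit 336075) (nat_lit 9) (.e (nat_lit 336438) (nat_lit 31) (.e (nat_lit 458769) (nat_lit 16) (.e (nat_lit 164286) (nat_lit 224) .nil)))))) (.g (nat_lit 0) .nil .nil)))) (.nd (nat_lit 5) 
(.lf (nat_lit 255955) (.g (nat_lit 1038) (.e (nat_lit 164112) (nat_lit 118) (.e (nat_lit 794636) (nat_lit 11) (.e (nat_lit 336085) (nat_lit 9) (.e (nat_lit 336438) (nat_lit 31) (.e (nat_lit 458769) (nat_lit 16) (.e (nat_lit 164286) (nat_lit 224) .nil)))))) (.g (nat_lit 4) .nil .nil))) 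
(.lf (nat_lit 255987) (.g (nat_lit 1452) (.e (nat_lit 164112) (nat_lit 118) (.e (nat_lit 794637) (nat_lit 11) (.e (nat_lit 336084) (nat_lit 9) (.e (nat_lit 336438) (nat_lit 31) (.e (nat_lit 458769) (nat_lit 16) (.e (nat_lit 164294) (nat_lit 224) .nil)))))) (.g (nat_lit 0) .nil .nil))))) (.nd (nat_lit 4) (.nd (nat_lit 5) 
(.lf (nat_lit 255947) (.g (nat_lit 1237) (.e (nat_lit 164112) (nat_lit 118) (.e (nat_lit 794636) (nat_lit 11) (.e (nat_lit 336077) (nat_lit 9) (.e (nat_lit 336438) (nat_lit 31) (.e (nat_lit 458769) (nat_lit 16) (.e (nat_lit 164286) (nat_lit 224) .nil)))))) (.g (nat_lit 5) .nil .nil))) 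
(.lf (nat_lit 255979) (.g (nat_lit 1835) (.e (nat_lit 164112) (nat_lit 118) (.e (nat_lit 794637) (nat_lit 11) (.e (nat_lit 336076) (nat_lit 9) (.e (nat_lit 336438) (nat_lit 31) (.e (nat_lit 458769) (nat_lit 16) (.e (nat_lit 164288) (nat_lit 224) .nil)))))) (.g (nat_lit 0) .nil .nil)))) (.nd (nat_lit 5) 
(.lf (nat_lit 255963) (.g (nat_lit 1711) (.e (nat_lit 164112) (nat_lit 118) (.e (nat_lit 794636) (nat_lit 11) (.e (nat_lit 336086) (nat_lit 9) (.e (nat_lit 336438) (nat_lit 31) (.e (nat_lit 458769) (nat_lit 16) (.e (nat_lit 164292) (nat_lit 224) .nil)))))) (.g (nat_lit 0) .nil .nil))) 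
(.lf (nat_lit 255995) (.g (nat_lit 1378) (.e (nat_lit 164112) (nat_lit 118) (.e (nat_lit 794637) (nat_lit 11) (.e (nat_lit 336085) (nat_lit 9) (.e (nat_lit 336438) (nat_lit 31) (.e (nat_lit 458769) (nat_lit 16) (.e (nat_lit 164289) (nat_lit 224) .nil)))))) (.g (nat_lit 5) .nil .nil)))))) (.nd (nat_lit 3) (.nd (nat_lit 4) (.nd (nat_lit 5) 
(.lf (nat_lit 255943) (.g (nat_lit 1542) (.e (nat_lit 164112) (nat_lit 118) (.e (nat_lit 794636) (nat_lit 11) (.e (nat_lit 336076) (nat_lit 9) (.e (nat_lit 336438) (nat_lit 31) (.e (nat_lit 458769) (nat_lit 16) (.e (nat_lit 164289) (nat_lit 224) .nil)))))) (.g (nat_lit 4) .nil .nil))) 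
(.lf (nat_lit 255975) (.g (nat_lit 2123) (.e (nat_lit 164112) (nat_lit 118) (.e (nat_lit 794637) (nat_lit 11) (.e (nat_lit 336075) (nat_lit 9) (.e (nat_lit 336438) (nat_lit 31) (.e (nat_lit 458769) (nat_lit 16) (.e (nat_lit 164292) (nat_lit 224) .nil)))))) (.g (nat_lit 0) .nil .nil)))) (.nd (nat_lit 5) 
(.lf (nat_lit 255959) (.g (nat_lit 1054) (.e (nat_lit 164112) (nat_lit 118) (.e (nat_lit 794636) (nat_lit 11) (.e (nat_lit 336085) (nat_lit 9) (.e (nat_lit 336438) (nat_lit 31) (.e (nat_lit 458769) (nat_lit 16) (.e (nat_lit 164294) (nat_lit 224) .nil)))))) (.g (nat_lit 4) .nil .nil))) 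
(.lf (nat_lit 255991) (.g (nat_lit 1069) (.e (nat_lit 164112) (nat_lit 118) (.e (nat_lit 794637) (nat_lit 11) (.e (nat_lit 336085) (nat_lit 9) (.e (nat_lit 336421) (nat_lit 28) (.e (nat_lit 434197) (nat_lit 16) (.e (nat_lit 164293) (nat_lit 224) .nil)))))) (.g (nat_lit 4) .nil .nil))))) (.nd (nat_lit 4) (.nd (nat_lit 5) 
(.lf (nat_lit 255951) (.g (nat_lit 1207) (.e (nat_lit 164112) (nat_lit 118) (.e (nat_lit 794636) (nat_lit 11) (.e (nat_lit 336077) (nat_lit 9) (.e (nat_lit 336438) (nat_lit 31) (.e (nat_lit 458769) (nat_lit 16) (.e (nat_lit 164291) (nat_lit 224) .nil)))))) (.g (nat_lit 6) .nil .nil))) 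
(.lf (nat_lit 255983) (.g (nat_lit 1478) (.e (nat_lit 164112) (nat_lit 118) (.e (nat_lit 794637) (nat_lit 11) (.e (nat_lit 336084) (nat_lit 9) (.e (nat_lit 336438) (nat_lit 31) (.e (nat_lit 458769) (nat_lit 16) (.e (nat_lit 164289) (nat_lit 224) .nil)))))) (.g (nat_lit 0) .nil .nil)))) (.nd (nat_lit 5) 
(.lf (nat_lit 255967) (.g (nat_lit 1817) (.e (nat_lit 164112) (nat_lit 118) (.e (nat_lit 794636) (nat_lit 11) (.e (nat_lit 336088) (nat_lit 9) (.e (nat_lit 336438) (nat_lit 31) (.e (nat_lit 458769) (nat_lit 16) (.e (nat_lit 164293) (nat_lit 224) .nil)))))) (.g (nat_lit 6) .nil .nil))) 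
(.lf (nat_lit 255999) (.g (nat_lit 1352) (.e (nat_lit 164112) (nat_lit 118) (.e (nat_lit 794637) (nat_lit 11) (.e (nat_lit 336085) (nat_lit 9) (.e (nat_lit 336438) (nat_lit 31) (.e (nat_lit 458769) (nat_lit 16) (.e (nat_lit 164294) (nat_lit 224) .nil)))))) (.g (nat_lit 5) .nil .nil)))))))))

noncomputable def tv3320 : DT := (.nd (nat_lit 0) (.nd (nat_lit 1) (.nd (nat_lit 2) (.nd (nat_lit 3) (.nd (nat_lit 4) (.nd (nat_lit 5) (.nd (nat_lit 6) 
(.lf (nat_lit 256000) (.g (nat_lit 1773) (.e (nat_lit 164112) (nat_lit 118) (.e (nat_lit 794637) (nat_lit 11) (.e (nat_lit 336086) (nat_lit 9) (.e (nat_lit 336438) (nat_lit 31) (.e (nat_lit 458769) (nat_lit 16) (.e (nat_lit 164286) (nat_lit 224) .nil)))))) (.g (nat_lit 0) .nil .nil))) 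
(.lf (nat_lit 256064) (.g (nat_lit 453) (.e (nat_lit 164119) (nat_lit 128) (.e (nat_lit 1220) (nat_lit 90) (.e (nat_lit 81956) (nat_lit 23) .nil))) .nil))) (.nd (nat_lit 6) 
(.lf (nat_lit 256032) (.g (nat_lit 2299) (.e (nat_lit 164119) (nat_lit 128) (.e (nat_lit 1209) (nat_lit 89) (.e (nat_lit 73753) (nat_lit 8) (.e (nat_lit 557103) (nat_lit 14) (.e (nat_lit 180244) (nat_lit 5) .nil))))) .nil)) 
(.lf (nat_lit 256096) (.g (nat_lit 3356) (.e (nat_lit 164122) (nat_lit 128) (.e (nat_lit 1220) (nat_lit 90) (.e (nat_lit 81956) (nat_lit 23) (.e (nat_lit 98389) (nat_lit 33) .nil)))) .nil)))) (.nd (nat_lit 5) (.nd (nat_lit 6) 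
(.lf (nat_lit 256016) (.g (nat_lit 1260) (.e (nat_lit 164112) (nat_lit 118) (.e (nat_lit 794637) (nat_lit 11) (.e (nat_lit 336222) (nat_lit 13) (.e (nat_lit 393263) (nat_lit 22) (.e (nat_lit 417817) (nat_lit 10) .nil))))) .nil)) 
(.lf (nat_lit 256080) (.g (nat_lit 4680) (.e (nat_lit 164119) (nat_lit 128) (.e (nat_lit 1220) (nat_lit 90) (.e (nat_lit 81956) (nat_lit 23) (.e (nat_lit 98350) (nat_lit 24) (.e (nat_lit 409618) (nat_lit 10) .nil))))) .nil))) (.nd (nat_lit 6) 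
(.lf (nat_lit 256048) (.g (nat_lit 2727) (.e (nat_lit 164119) (nat_lit 128) (.e (nat_lit 1220) (nat_lit 90) (.e (nat_lit 81953) (nat_lit 22) (.e (nat_lit 90133) (nat_lit 9) (.e (nat_lit 2400) (nat_lit 157) (.e (nat_lit 7586) (nat_lit 406) (.e (nat_lit 73472) (nat_lit 16) .nil))))))) (.g (nat_lit 4) .nil .nil))) 
(.lf (nat_lit 256112) (.g (nat_lit 3192) (.e (nat_lit 164133) (nat_lit 134) (.e (nat_lit 1220) (nat_lit 90) (.e (nat_lit 81953) (nat_lit 22) (.e (nat_lit 90170) (nat_lit 13) (.e (nat_lit 172059) (nat_lit 1) .nil))))) .nil))))) (.nd (nat_lit 4) (.nd (nat_lit 5) (.nd (nat_lit 6) 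
(.lf (nat_lit 256008) (.g (nat_lit 2546) (.e (nat_lit 164112) (nat_lit 118) (.e (nat_lit 794637) (nat_lit 11) (.e (nat_lit 336213) (nat_lit 13) (.e (nat_lit 393263) (nat_lit 22) (.e (nat_lit 417817) (nat_lit 10) (.e (nat_lit 5024) (nat_lit 290) .nil)))))) (.g (nat_lit 5) .nil .nil))) 
(.lf (nat_lit 256072) (.g (nat_lit 2423) (.e (nat_lit 164119) (nat_lit 128) (.e (nat_lit 1220) (nat_lit 90) (.e (nat_lit 81956) (nat_lit 23) (.e (nat_lit 98325) (nat_lit 17) (.e (nat_lit 7550) (nat_lit 402) .nil))))) .nil))) (.nd (nat_lit 6) 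
(.lf (nat_lit 256040) (.g (nat_lit 1039) (.e (nat_lit 164119) (nat_lit 128) (.e (nat_lit 1220) (nat_lit 90) (.e (nat_lit 81938) (nat_lit 20) (.e (nat_lit 1842) (nat_lit 123) .nil)))) .nil)) 
(.lf (nat_lit 256104) (.g (nat_lit 4060) (.e (nat_lit 164132) (nat_lit 134) (.e (nat_lit 1221) (nat_lit 90) (.e (nat_lit 81956) (nat_lit 23) (.e (nat_lit 98356) (nat_lit 26) (.e (nat_lit 426448) (nat_lit 20) (.e (nat_lit 122624) (nat_lit 1) .nil)))))) (.g (nat_lit 5) .nil .nil))))) (.nd (nat_lit 5) (.nd (nat_lit 6) 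
(.lf (nat_lit 256024) (.g (nat_lit 1410) (.e (nat_lit 171776) (nat_lit 125) (.e (nat_lit 122916) (nat_lit 14) (.e (nat_lit 352315) (nat_lit 23) (.e (nat_lit 98367) (nat_lit 27) .nil)))) .nil)) 
(.lf (nat_lit 256088) (.g (nat_lit 3417) (.e (nat_lit 164119) (nat_lit 128) (.e (nat_lit 1220) (nat_lit 90) (.e (nat_lit 81956) (nat_lit 23) (.e (nat_lit 98389) (nat_lit 33) (.e (nat_lit 491552) (nat_lit 9) (.e (nat_lit 343808) (nat_lit 16) .nil)))))) (.g (nat_lit 5) .nil .nil)))) (.nd (nat_lit 6) 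
(.lf (nat_lit 256056) (.g (nat_lit 2899) (.e (nat_lit 164119) (nat_lit 128) (.e (nat_lit 1220) (nat_lit 90) (.e (nat_lit 81953) (nat_lit 22) (.e (nat_lit 90165) (nat_lit 12) (.e (nat_lit 164236) (nat_lit 187) (.e (nat_lit 1512) (nat_lit 108) (.e (nat_lit 336313) (nat_lit 16) .nil))))))) (.g (nat_lit 5) .nil .nil))) 
(.lf (nat_lit 256120) (.g (nat_lit 679) (.e (nat_lit 164133) (nat_lit 134) (.e (nat_lit 1221) (nat_lit 90) (.e (nat_lit 81954) (nat_lit 23) .nil))) .nil)))))) (.nd (nat_lit 3) (.nd (nat_lit 4) (.nd (nat_lit 5) (.nd (nat_lit 6) 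
(.lf (nat_lit 256004) (.g (nat_lit 1938) (.e (nat_lit 164112) (nat_lit 118) (.e (nat_lit 794637) (nat_lit 11) (.e (nat_lit 336088) (nat_lit 9) (.e (nat_lit 336438) (nat_lit 31) (.e (nat_lit 458769) (nat_lit 16) (.e (nat_lit 164293) (nat_lit 224) .nil)))))) (.g (nat_lit 0) .nil .nil))) 
(.lf (nat_lit 256068) (.g (nat_lit 4034) (.e (nat_lit 164119) (nat_lit 128) (.e (nat_lit 1220) (nat_lit 90) (.e (nat_lit 81956) (nat_lit 23) (.e (nat_lit 98320) (nat_lit 17) (.e (nat_lit 7587) (nat_lit 406) (.e (nat_lit 73472) (nat_lit 16) .nil)))))) (.g (nat_lit 5) .nil .nil)))) (.nd (nat_lit 6) 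
(.lf (nat_lit 256036) (.g (nat_lit 470) (.e (nat_lit 164119) (nat_lit 128) (.e (nat_lit 1220) (nat_lit 90) (.e (nat_lit 81938) (nat_lit 20) .nil))) .nil)) 
(.lf (nat_lit 256100) (.g (nat_lit 3433) (.e (nat_lit 164128) (nat_lit 131) (.e (nat_lit 122919) (nat_lit 15) (.e (nat_lit 360475) (nat_lit 8) (.e (nat_lit 557087) (nat_lit 11) (.e (nat_lit 24625) (nat_lit 9) .nil))))) .nil)))) (.nd (nat_lit 5) (.nd (nat_lit 6) 
(.lf (nat_lit 256020) (.g (nat_lit 2335) (.e (nat_lit 171776) (nat_lit 122) (.e (nat_lit 1211) (nat_lit 89) (.e (nat_lit 73754) (nat_lit 8) (.e (nat_lit 557103) (nat_lit 14) (.e (nat_lit 180244) (nat_lit 5) .nil))))) .nil)) 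
(.lf (nat_lit 256084) (.g (nat_lit 3979) (.e (nat_lit 164119) (nat_lit 128) (.e (nat_lit 1220) (nat_lit 90) (.e (nat_lit 81956) (nat_lit 23) (.e (nat_lit 98384) (nat_lit 32) (.e (nat_lit 475210) (nat_lit 41) .nil))))) .nil))) (.nd (nat_lit 6) 
(.lf (nat_lit 256052) (.g (nat_lit 2083) (.e (nat_lit 164119) (nat_lit 128) (.e (nat_lit 1220) (nat_lit 90) (.e (nat_lit 81953) (nat_lit 22) (.e (nat_lit 90165) (nat_lit 12) (.e (nat_lit 164218) (nat_lit 179) .nil))))) .nil)) 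
(.lf (nat_lit 256116) (.g (nat_lit 2784) (.e (nat_lit 164133) (nat_lit 134) (.e (nat_lit 1220) (nat_lit 90) (.e (nat_lit 81956) (nat_lit 23) (.e (nat_lit 98384) (nat_lit 32) .nil)))) .nil))))) (.nd (nat_lit 4) (.nd (nat_lit 5) (.nd (nat_lit 6) 
(.lf (nat_lit 256012) (.g (nat_lit 2279) (.e (nat_lit 164112) (nat_lit 118) (.e (nat_lit 794637) (nat_lit 11) (.e (nat_lit 336215) (nat_lit 13) (.e (nat_lit 393263) (nat_lit 22) (.e (nat_lit 417817) (nat_lit 10) (.e (nat_lit 5024) (nat_lit 290) .nil)))))) (.g (nat_lit 5) .nil .nil))) 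
(.lf (nat_lit 256076) (.g (nat_lit 2346) (.e (nat_lit 164119) (nat_lit 128) (.e (nat_lit 1220) (nat_lit 90) (.e (nat_lit 81956) (nat_lit 23) (.e (nat_lit 98349) (nat_lit 24) .nil)))) .nil))) (.nd (nat_lit 6) 
(.lf (nat_lit 256044) (.g (nat_lit 454) (.e (nat_lit 164119) (nat_lit 128) (.e (nat_lit 1220) (nat_lit 90) (.e (nat_lit 81947) (nat_lit 20) .nil))) .nil)) 
(.lf (nat_lit 256108) (.g (nat_lit 2278) (.e (nat_lit 164133) (nat_lit 134) (.e (nat_lit 1196) (nat_lit 88) (.e (nat_lit 65610) (nat_lit 10) (.e (nat_lit 344117) (nat_lit 21) (.e (nat_lit 516151) (nat_lit 9) .nil))))) .nil)))) (.nd (nat_lit 5) (.nd (nat_lit 6) 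
(.lf (nat_lit 256028) (.g (nat_lit 3302) (.e (nat_lit 164117) (nat_lit 128) (.e (nat_lit 1221) (nat_lit 90) (.e (nat_lit 81956) (nat_lit 23) (.e (nat_lit 98389) (nat_lit 33) .nil)))) .nil)) 
(.lf (nat_lit 256092) (.g (nat_lit 3356) (.e (nat_lit 164121) (nat_lit 128) (.e (nat_lit 1220) (nat_lit 90) (.e (nat_lit 81956) (nat_lit 23) (.e (nat_lit 98389) (nat_lit 33) .nil)))) .nil))) (.nd (nat_lit 6) 
(.lf (nat_lit 256060) (.g (nat_lit 2486) (.e (nat_lit 164119) (nat_lit 128) (.e (nat_lit 1220) (nat_lit 90) (.e (nat_lit 81953) (nat_lit 22) (.e (nat_lit 90165) (nat_lit 12) (.e (nat_lit 171776) (nat_lit 194) (.e (nat_lit 139008) (nat_lit 16) .nil)))))) (.g (nat_lit 4) .nil .nil))) 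
(.lf (nat_lit 256124) (.g (nat_lit 2099) (.e (nat_lit 171776) (nat_lit 136) (.e (nat_lit 57388) (nat_lit 5) (.e (nat_lit 114714) (nat_lit 22) (.e (nat_lit 90172) (nat_lit 14) (.e (nat_lit 180244) (nat_lit 5) .nil))))) .nil))))))) (.nd (nat_lit 2) (.nd (nat_lit 3) (.nd (nat_lit 4) (.nd (nat_lit 5) (.nd (nat_lit 6) 
(.lf (nat_lit 256002) (.g (nat_lit 1968) (.e (nat_lit 164112) (nat_lit 118) (.e (nat_lit 794637) (nat_lit 11) (.e (nat_lit 336088) (nat_lit 9) (.e (nat_lit 336438) (nat_lit 31) (.e (nat_lit 458769) (nat_lit 16) (.e (nat_lit 164286) (nat_lit 224) .nil)))))) (.g (nat_lit 0) .nil .nil))) 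
(.lf (nat_lit 256066) (.g (nat_lit 2620) (.e (nat_lit 164119) (nat_lit 128) (.e (nat_lit 1220) (nat_lit 90) (.e (nat_lit 81956) (nat_lit 23) (.e (nat_lit 98319) (nat_lit 17) (.e (nat_lit 7589) (nat_lit 406) .nil))))) .nil))) (.nd (nat_lit 6) 
(.lf (nat_lit 256034) (.g (nat_lit 587) (.e (nat_lit 164119) (nat_lit 128) (.e (nat_lit 1209) (nat_lit 89) (.e (nat_lit 73782) (nat_lit 32) .nil))) .nil)) 
(.lf (nat_lit 256098) (.g (nat_lit 3330) (.e (nat_lit 164127) (nat_lit 130) (.e (nat_lit 57427) (nat_lit 15) (.e (nat_lit 360475) (nat_lit 8) (.e (nat_lit 557087) (nat_lit 11) (.e (nat_lit 24625) (nat_lit 9) .nil))))) .nil)))) (.nd (nat_lit 5) (.nd (nat_lit 6) 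
(.lf (nat_lit 256018) (.g (nat_lit 2207) (.e (nat_lit 164112) (nat_lit 118) (.e (nat_lit 794637) (nat_lit 11) (.e (nat_lit 336223) (nat_lit 13) (.e (nat_lit 393263) (nat_lit 22) (.e (nat_lit 417817) (nat_lit 10) .nil))))) .nil)) 
(.lf (nat_lit 256082) (.g (nat_lit 4674) (.e (nat_lit 164119) (nat_lit 128) (.e (nat_lit 1220) (nat_lit 90) (.e (nat_lit 81956) (nat_lit 23) (.e (nat_lit 98350) (nat_lit 24) (.e (nat_lit 409642) (nat_lit 17) .nil))))) .nil))) (.nd (nat_lit 6) 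
(.lf (nat_lit 256050) (.g (nat_lit 2608) (.e (nat_lit 164119) (nat_lit 128) (.e (nat_lit 1220) (nat_lit 90) (.e (nat_lit 81953) (nat_lit 22) (.e (nat_lit 90134) (nat_lit 9) (.e (nat_lit 3098) (nat_lit 192) .nil))))) .nil)) 
(.lf (nat_lit 256114) (.g (nat_lit 3471) (.e (nat_lit 164133) (nat_lit 134) (.e (nat_lit 1220) (nat_lit 90) (.e (nat_lit 81956) (nat_lit 23) (.e (nat_lit 98356) (nat_lit 26) (.e (nat_lit 426448) (nat_lit 20) .nil))))) .nil))))) (.nd (nat_lit 4) (.nd (nat_lit 5) (.nd (nat_lit 6) 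
(.lf (nat_lit 256010) (.g (nat_lit 1245) (.e (nat_lit 164112) (nat_lit 118) (.e (nat_lit 794637) (nat_lit 11) (.e (nat_lit 336214) (nat_lit 13) (.e (nat_lit 393263) (nat_lit 22) (.e (nat_lit 417817) (nat_lit 10) (.e (nat_lit 5024) (nat_lit 290) .nil)))))) (.g (nat_lit 4) .nil .nil))) 
(.lf (nat_lit 256074) (.g (nat_lit 2535) (.e (nat_lit 164119) (nat_lit 128) (.e (nat_lit 1220) (nat_lit 90) (.e (nat_lit 81956) (nat_lit 23) (.e (nat_lit 98325) (nat_lit 17) (.e (nat_lit 7550) (nat_lit 402) (.e (nat_lit 1515) (nat_lit 108) (.e (nat_lit 336313) (nat_lit 16) .nil))))))) (.g (nat_lit 4) .nil .nil)))) (.nd (nat_lit 6) 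
(.lf (nat_lit 256042) (.g (nat_lit 1827) (.e (nat_lit 164119) (nat_lit 128) (.e (nat_lit 1220) (nat_lit 90) (.e (nat_lit 81938) (nat_lit 20) (.e (nat_lit 1842) (nat_lit 123) (.e (nat_lit 548873) (nat_lit 5) (.e (nat_lit 1575) (nat_lit 110) (.e (nat_lit 360192) (nat_lit 1) .nil))))))) (.g (nat_lit 4) .nil .nil))) 
(.lf (nat_lit 256106) (.g (nat_lit 1915) (.e (nat_lit 164133) (nat_lit 134) (.e (nat_lit 1190) (nat_lit 88) (.e (nat_lit 65604) (nat_lit 9) (.e (nat_lit 336013) (nat_lit 2) (.e (nat_lit 90170) (nat_lit 13) .nil))))) .nil)))) (.nd (nat_lit 5) (.nd (nat_lit 6) 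
(.lf (nat_lit 256026) (.g (nat_lit 1293) (.e (nat_lit 164117) (nat_lit 128) (.e (nat_lit 1199) (nat_lit 88) (.e (nat_lit 65630) (nat_lit 14) (.e (nat_lit 401428) (nat_lit 3) .nil)))) .nil)) 
(.lf (nat_lit 256090) (.g (nat_lit 1990) (.e (nat_lit 164120) (nat_lit 128) (.e (nat_lit 1127) (nat_lit 83) (.e (nat_lit 16473) (nat_lit 14) (.e (nat_lit 491535) (nat_lit 2) (.e (nat_lit 90176) (nat_lit 15) .nil))))) .nil))) (.nd (nat_lit 6) 
(.lf (nat_lit 256058) (.g (nat_lit 2110) (.e (nat_lit 164119) (nat_lit 128) (.e (nat_lit 1220) (nat_lit 90) (.e (nat_lit 81953) (nat_lit 22) (.e (nat_lit 90165) (nat_lit 12) (.e (nat_lit 164237) (nat_lit 187) .nil))))) .nil)) 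
(.lf (nat_lit 256122) (.g (nat_lit 3692) (.e (nat_lit 164133) (nat_lit 134) (.e (nat_lit 1221) (nat_lit 90) (.e (nat_lit 81956) (nat_lit 23) (.e (nat_lit 98365) (nat_lit 26) .nil)))) .nil)))))) (.nd (nat_lit 3) (.nd (nat_lit 4) (.nd (nat_lit 5) (.nd (nat_lit 6) 
(.lf (nat_lit 256006) (.g (nat_lit 1871) (.e (nat_lit 164112) (nat_lit 118) (.e (nat_lit 794637) (nat_lit 11) (.e (nat_lit 336213) (nat_lit 13) (.e (nat_lit 393230) (nat_lit 17) .nil)))) .nil)) 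
(.lf (nat_lit 256070) (.g (nat_lit 1832) (.e (nat_lit 164119) (nat_lit 128) (.e (nat_lit 1220) (nat_lit 90) (.e (nat_lit 81956) (nat_lit 23) (.e (nat_lit 98325) (nat_lit 17) .nil)))) .nil))) (.nd (nat_lit 6) 
(.lf (nat_lit 256038) (.g (nat_lit 1976) (.e (nat_lit 164119) (nat_lit 128) (.e (nat_lit 1220) (nat_lit 90) (.e (nat_lit 81938) (nat_lit 20) (.e (nat_lit 1841) (nat_lit 123) (.e (nat_lit 548874) (nat_lit 5) (.e (nat_lit 1559) (nat_lit 110) (.e (nat_lit 360192) (nat_lit 1) .nil))))))) (.g (nat_lit 5) .nil .nil))) 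
(.lf (nat_lit 256102) (.g (nat_lit 2784) (.e (nat_lit 164132) (nat_lit 134) (.e (nat_lit 1220) (nat_lit 90) (.e (nat_lit 81956) (nat_lit 23) (.e (nat_lit 98384) (nat_lit 32) .nil)))) .nil)))) (.nd (nat_lit 5) (.nd (nat_lit 6) 
(.lf (nat_lit 256022) (.g (nat_lit 2143) (.e (nat_lit 171776) (nat_lit 122) (.e (nat_lit 1211) (nat_lit 89) (.e (nat_lit 73755) (nat_lit 8) (.e (nat_lit 557104) (nat_lit 14) (.e (nat_lit 180244) (nat_lit 5) .nil))))) .nil)) 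
(.lf (nat_lit 256086) (.g (nat_lit 2927) (.e (nat_lit 164119) (nat_lit 128) (.e (nat_lit 1220) (nat_lit 90) (.e (nat_lit 81956) (nat_lit 23) (.e (nat_lit 98388) (nat_lit 33) .nil)))) .nil))) (.nd (nat_lit 6) 
(.lf (nat_lit 256054) (.g (nat_lit 2443) (.e (nat_lit 164119) (nat_lit 128) (.e (nat_lit 1220) (nat_lit 90) (.e (nat_lit 81953) (nat_lit 22) (.e (nat_lit 90165) (nat_lit 12) (.e (nat_lit 164219) (nat_lit 180) (.e (nat_lit 229646) (nat_lit 232) (.e (nat_lit 7936) (nat_lit 10) .nil))))))) (.g (nat_lit 4) .nil .nil))) 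
(.lf (nat_lit 256118) (.g (nat_lit 3153) (.e (nat_lit 164133) (nat_lit 134) (.e (nat_lit 1221) (nat_lit 90) (.e (nat_lit 81953) (nat_lit 22) (.e (nat_lit 90170) (nat_lit 13) (.e (nat_lit 172061) (nat_lit 1) .nil))))) .nil))))) (.nd (nat_lit 4) (.nd (nat_lit 5) (.nd (nat_lit 6) 
(.lf (nat_lit 256014) (.g (nat_lit 808) (.e (nat_lit 164112) (nat_lit 118) (.e (nat_lit 794637) (nat_lit 11) (.e (nat_lit 336222) (nat_lit 13) (.e (nat_lit 393230) (nat_lit 17) .nil)))) .nil)) 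
(.lf (nat_lit 256078) (.g (nat_lit 2629) (.e (nat_lit 164119) (nat_lit 128) (.e (nat_lit 1220) (nat_lit 90) (.e (nat_lit 81956) (nat_lit 23) (.e (nat_lit 98350) (nat_lit 24) (.e (nat_lit 409616) (nat_lit 10) (.e (nat_lit 7936) (nat_lit 298) (.e (nat_lit 158) (nat_lit 10) .nil))))))) (.g (nat_lit 4) .nil .nil)))) (.nd (nat_lit 6) 
(.lf (nat_lit 256046) (.g (nat_lit 2539) (.e (nat_lit 164119) (nat_lit 128) (.e (nat_lit 1220) (nat_lit 90) (.e (nat_lit 81953) (nat_lit 22) (.e (nat_lit 90133) (nat_lit 9) (.e (nat_lit 2397) (nat_lit 157) (.e (nat_lit 7586) (nat_lit 406) (.e (nat_lit 73472) (nat_lit 16) .nil))))))) (.g (nat_lit 4) .nil .nil))) 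
(.lf (nat_lit 256110) (.g (nat_lit 2009) (.e (nat_lit 164133) (nat_lit 134) (.e (nat_lit 1200) (nat_lit 88) (.e (nat_lit 65604) (nat_lit 9) (.e (nat_lit 336013) (nat_lit 2) (.e (nat_lit 90170) (nat_lit 13) .nil))))) .nil)))) (.nd (nat_lit 5) (.nd (nat_lit 6) 
(.lf (nat_lit 256030) (.g (nat_lit 1779) (.e (nat_lit 164119) (nat_lit 128) (.e (nat_lit 1196) (nat_lit 88) (.e (nat_lit 65630) (nat_lit 14) (.e (nat_lit 401428) (nat_lit 3) (.e (nat_lit 204876) (nat_lit 31) .nil))))) .nil)) 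
(.lf (nat_lit 256094) (.g (nat_lit 1326) (.e (nat_lit 164122) (nat_lit 128) (.e (nat_lit 1220) (nat_lit 90) (.e (nat_lit 81956) (nat_lit 23) (.e (nat_lit 98350) (nat_lit 24) .nil)))) .nil))) (.nd (nat_lit 6) 
(.lf (nat_lit 256062) (.g (nat_lit 3157) (.e (nat_lit 164119) (nat_lit 128) (.e (nat_lit 1220) (nat_lit 90) (.e (nat_lit 81953) (nat_lit 22) (.e (nat_lit 90170) (nat_lit 13) (.e (nat_lit 172070) (nat_lit 4) .nil))))) .nil)) 
(.lf (nat_lit 256126) (.g (nat_lit 2213) (.e (nat_lit 171776) (nat_lit 136) (.e (nat_lit 57389) (nat_lit 5) (.e (nat_lit 114714) (nat_lit 22) (.e (nat_lit 90172) (nat_lit 14) (.e (nat_lit 180244) (nat_lit 5) .nil))))) .nil)))))))) (.nd (nat_lit 1) (.nd (nat_lit 2) (.nd (nat_lit 3) (.nd (nat_lit 4) (.nd (nat_lit 5) (.nd (nat_lit 6) 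
(.lf (nat_lit 256001) (.g (nat_lit 1747) (.e (nat_lit 164112) (nat_lit 118) (.e (nat_lit 794637) (nat_lit 11) (.e (nat_lit 336086) (nat_lit 9) (.e (nat_lit 336438) (nat_lit 31) (.e (nat_lit 458769) (nat_lit 16) (.e (nat_lit 164293) (nat_lit 224) .nil)))))) (.g (nat_lit 0) .nil .nil))) 
(.lf (nat_lit 256065) (.g (nat_lit 2631) (.e (nat_lit 164119) (nat_lit 128) (.e (nat_lit 1220) (nat_lit 90) (.e (nat_lit 81956) (nat_lit 23) (.e (nat_lit 98319) (nat_lit 17) (.e (nat_lit 7587) (nat_lit 406) .nil))))) .nil))) (.nd (nat_lit 6) 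
(.lf (nat_lit 256033) (.g (nat_lit 642) (.e (nat_lit 164119) (nat_lit 128) (.e (nat_lit 1209) (nat_lit 89) (.e (nat_lit 73781) (nat_lit 32) .nil))) .nil)) 
(.lf (nat_lit 256097) (.g (nat_lit 623) (.e (nat_lit 164123) (nat_lit 128) (.e (nat_lit 1221) (nat_lit 90) (.e (nat_lit 81956) (nat_lit 23) .nil))) .nil)))) (.nd (nat_lit 5) (.nd (nat_lit 6) 
(.lf (nat_lit 256017) (.g (nat_lit 1750) (.e (nat_lit 164112) (nat_lit 118) (.e (nat_lit 794637) (nat_lit 11) (.e (nat_lit 336223) (nat_lit 13) (.e (nat_lit 393262) (nat_lit 22) .nil)))) .nil)) 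
(.lf (nat_lit 256081) (.g (nat_lit 4671) (.e (nat_lit 164119) (nat_lit 128) (.e (nat_lit 1220) (nat_lit 90) (.e (nat_lit 81956) (nat_lit 23) (.e (nat_lit 98350) (nat_lit 24) (.e (nat_lit 409641) (nat_lit 17) .nil))))) .nil))) (.nd (nat_lit 6) 
(.lf (nat_lit 256049) (.g (nat_lit 3288) (.e (nat_lit 164119) (nat_lit 128) (.e (nat_lit 1220) (nat_lit 90) (.e (nat_lit 81953) (nat_lit 22) (.e (nat_lit 90133) (nat_lit 9) (.e (nat_lit 2400) (nat_lit 157) (.e (nat_lit 7588) (nat_lit 406) (.e (nat_lit 73472) (nat_lit 16) .nil))))))) (.g (nat_lit 6) .nil .nil))) 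
(.lf (nat_lit 256113) (.g (nat_lit 3901) (.e (nat_lit 164133) (nat_lit 134) (.e (nat_lit 1220) (nat_lit 90) (.e (nat_lit 81953) (nat_lit 22) (.e (nat_lit 90185) (nat_lit 17) .nil)))) .nil))))) (.nd (nat_lit 4) (.nd (nat_lit 5) (.nd (nat_lit 6) 
(.lf (nat_lit 256009) (.g (nat_lit 461) (.e (nat_lit 164112) (nat_lit 118) (.e (nat_lit 794637) (nat_lit 11) (.e (nat_lit 336214) (nat_lit 13) .nil))) .nil)) 
(.lf (nat_lit 256073) (.g (nat_lit 2530) (.e (nat_lit 164119) (nat_lit 128) (.e (nat_lit 1220) (nat_lit 90) (.e (nat_lit 81956) (nat_lit 23) (.e (nat_lit 98325) (nat_lit 17) (.e (nat_lit 7550) (nat_lit 402) (.e (nat_lit 1512) (nat_lit 108) (.e (nat_lit 336313) (nat_lit 16) .nil))))))) (.g (nat_lit 4) .nil .nil)))) (.nd (nat_lit 6) 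
(.lf (nat_lit 256041) (.g (nat_lit 2000) (.e (nat_lit 164119) (nat_lit 128) (.e (nat_lit 1220) (nat_lit 90) (.e (nat_lit 81938) (nat_lit 20) (.e (nat_lit 1842) (nat_lit 123) (.e (nat_lit 548873) (nat_lit 5) (.e (nat_lit 1559) (nat_lit 110) (.e (nat_lit 360192) (nat_lit 1) .nil))))))) (.g (nat_lit 5) .nil .nil))) 
(.lf (nat_lit 256105) (.g (nat_lit 2564) (.e (nat_lit 164132) (nat_lit 134) (.e (nat_lit 1221) (nat_lit 90) (.e (nat_lit 81956) (nat_lit 23) (.e (nat_lit 98384) (nat_lit 32) .nil)))) .nil)))) (.nd (nat_lit 5) (.nd (nat_lit 6) 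
(.lf (nat_lit 256025) (.g (nat_lit 2546) (.e (nat_lit 164117) (nat_lit 128) (.e (nat_lit 1129) (nat_lit 83) (.e (nat_lit 16473) (nat_lit 14) (.e (nat_lit 491538) (nat_lit 3) (.e (nat_lit 98381) (nat_lit 31) .nil))))) .nil)) 
(.lf (nat_lit 256089) (.g (nat_lit 1388) (.e (nat_lit 164119) (nat_lit 128) (.e (nat_lit 1220) (nat_lit 90) (.e (nat_lit 81965) (nat_lit 26) (.e (nat_lit 147491) (nat_lit 10) .nil)))) .nil))) (.nd (nat_lit 6) 
(.lf (nat_lit 256057) (.g (nat_lit 2865) (.e (nat_lit 164119) (nat_lit 128) (.e (nat_lit 1220) (nat_lit 90) (.e (nat_lit 81953) (nat_lit 22) (.e (nat_lit 90165) (nat_lit 12) (.e (nat_lit 164236) (nat_lit 187) (.e (nat_lit 1515) (nat_lit 108) (.e (nat_lit 336313) (nat_lit 16) .nil))))))) (.g (nat_lit 5) .nil .nil))) 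
(.lf (nat_lit 256121) (.g (nat_lit 3632) (.e (nat_lit 164133) (nat_lit 134) (.e (nat_lit 1221) (nat_lit 90) (.e (nat_lit 81956) (nat_lit 23) (.e (nat_lit 98356) (nat_lit 26) (.e (nat_lit 426448) (nat_lit 20) (.e (nat_lit 122624) (nat_lit 1) .nil)))))) (.g (nat_lit 5) .nil .nil))))))) (.nd (nat_lit 3) (.nd (nat_lit 4) (.nd (nat_lit 5) (.nd (nat_lit 6) 
(.lf (nat_lit 256005) (.g (nat_lit 221) (.e (nat_lit 164112) (nat_lit 118) (.e (nat_lit 794637) (nat_lit 11) (.e (nat_lit 336213) (nat_lit 13) .nil))) .nil)) 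
(.lf (nat_lit 256069) (.g (nat_lit 4201) (.e (nat_lit 164119) (nat_lit 128) (.e (nat_lit 1220) (nat_lit 90) (.e (nat_lit 81956) (nat_lit 23) (.e (nat_lit 98320) (nat_lit 17) (.e (nat_lit 7589) (nat_lit 406) (.e (nat_lit 73472) (nat_lit 16) .nil)))))) (.g (nat_lit 5) .nil .nil)))) (.nd (nat_lit 6) 
(.lf (nat_lit 256037) (.g (nat_lit 1227) (.e (nat_lit 164119) (nat_lit 128) (.e (nat_lit 1220) (nat_lit 90) (.e (nat_lit 81938) (nat_lit 20) (.e (nat_lit 1841) (nat_lit 123) (.e (nat_lit 548874) (nat_lit 5) .nil))))) .nil)) 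
(.lf (nat_lit 256101) (.g (nat_lit 2468) (.e (nat_lit 164132) (nat_lit 134) (.e (nat_lit 1199) (nat_lit 88) (.e (nat_lit 65610) (nat_lit 10) (.e (nat_lit 344117) (nat_lit 21) (.e (nat_lit 516179) (nat_lit 15) .nil))))) .nil)))) (.nd (nat_lit 5) (.nd (nat_lit 6) 
(.lf (nat_lit 256021) (.g (nat_lit 2465) (.e (nat_lit 171776) (nat_lit 122) (.e (nat_lit 1211) (nat_lit 89) (.e (nat_lit 73755) (nat_lit 8) (.e (nat_lit 557098) (nat_lit 13) (.e (nat_lit 172067) (nat_lit 3) .nil))))) .nil)) 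
(.lf (nat_lit 256085) (.g (nat_lit 2211) (.e (nat_lit 164119) (nat_lit 128) (.e (nat_lit 1220) (nat_lit 90) (.e (nat_lit 81956) (nat_lit 23) (.e (nat_lit 98387) (nat_lit 33) .nil)))) .nil))) (.nd (nat_lit 6) 
(.lf (nat_lit 256053) (.g (nat_lit 2189) (.e (nat_lit 164119) (nat_lit 128) (.e (nat_lit 1220) (nat_lit 90) (.e (nat_lit 81953) (nat_lit 22) (.e (nat_lit 90165) (nat_lit 12) (.e (nat_lit 164219) (nat_lit 180) .nil))))) .nil)) 
(.lf (nat_lit 256117) (.g (nat_lit 1578) (.e (nat_lit 164133) (nat_lit 134) (.e (nat_lit 1221) (nat_lit 90) (.e (nat_lit 81953) (nat_lit 22) (.e (nat_lit 90170) (nat_lit 13) .nil)))) .nil))))) (.nd (nat_lit 4) (.nd (nat_lit 5) (.nd (nat_lit 6) 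
(.lf (nat_lit 256013) (.g (nat_lit 260) (.e (nat_lit 164112) (nat_lit 118) (.e (nat_lit 794637) (nat_lit 11) (.e (nat_lit 336222) (nat_lit 13) .nil))) .nil)) 
(.lf (nat_lit 256077) (.g (nat_lit 1919) (.e (nat_lit 164119) (nat_lit 128) (.e (nat_lit 1220) (nat_lit 90) (.e (nat_lit 81956) (nat_lit 23) (.e (nat_lit 98350) (nat_lit 24) .nil)))) .nil))) (.nd (nat_lit 6) 
(.lf (nat_lit 256045) (.g (nat_lit 520) (.e (nat_lit 164119) (nat_lit 128) (.e (nat_lit 1220) (nat_lit 90) (.e (nat_lit 81953) (nat_lit 22) .nil))) .nil)) 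
(.lf (nat_lit 256109) (.g (nat_lit 1836) (.e (nat_lit 164133) (nat_lit 134) (.e (nat_lit 1199) (nat_lit 88) (.e (nat_lit 65610) (nat_lit 10) (.e (nat_lit 344117) (nat_lit 21) (.e (nat_lit 516151) (nat_lit 9) .nil))))) .nil)))) (.nd (nat_lit 5) (.nd (nat_lit 6) 
(.lf (nat_lit 256029) (.g (nat_lit 1605) (.e (nat_lit 164119) (nat_lit 128) (.e (nat_lit 1188) (nat_lit 88) (.e (nat_lit 65630) (nat_lit 14) (.e (nat_lit 401428) (nat_lit 3) (.e (nat_lit 204876) (nat_lit 31) .nil))))) .nil)) 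
(.lf (nat_lit 256093) (.g (nat_lit 1731) (.e (nat_lit 164122) (nat_lit 128) (.e (nat_lit 1128) (nat_lit 83) (.e (nat_lit 16425) (nat_lit 7) (.e (nat_lit 409616) (nat_lit 10) (.e (nat_lit 7936) (nat_lit 43) .nil))))) .nil))) (.nd (nat_lit 6) 
(.lf (nat_lit 256061) (.g (nat_lit 3219) (.e (nat_lit 164119) (nat_lit 128) (.e (nat_lit 1220) (nat_lit 90) (.e (nat_lit 81953) (nat_lit 22) (.e (nat_lit 90170) (nat_lit 13) (.e (nat_lit 172068) (nat_lit 4) .nil))))) .nil)) 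
(.lf (nat_lit 256125) (.g (nat_lit 2257) (.e (nat_lit 171776) (nat_lit 136) (.e (nat_lit 57388) (nat_lit 5) (.e (nat_lit 114719) (nat_lit 23) (.e (nat_lit 98365) (nat_lit 26) (.e (nat_lit 426133) (nat_lit 3) .nil))))) .nil))))))) (.nd (nat_lit 2) (.nd (nat_lit 3) (.nd (nat_lit 4) (.nd (nat_lit 5) (.nd (nat_lit 6) 
(.lf (nat_lit 256003) (.g (nat_lit 1918) (.e (nat_lit 164112) (nat_lit 118) (.e (nat_lit 794637) (nat_lit 11) (.e (nat_lit 336088) (nat_lit 9) (.e (nat_lit 336438) (nat_lit 31) (.e (nat_lit 458769) (nat_lit 16) (.e (nat_lit 164288) (nat_lit 224) .nil)))))) (.g (nat_lit 0) .nil .nil))) 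
(.lf (nat_lit 256067) (.g (nat_lit 2918) (.e (nat_lit 164119) (nat_lit 128) (.e (nat_lit 1220) (nat_lit 90) (.e (nat_lit 81956) (nat_lit 23) (.e (nat_lit 98320) (nat_lit 17) .nil)))) .nil))) (.nd (nat_lit 6) 
(.lf (nat_lit 256035) (.g (nat_lit 2482) (.e (nat_lit 164119) (nat_lit 128) (.e (nat_lit 1219) (nat_lit 90) (.e (nat_lit 81956) (nat_lit 23) (.e (nat_lit 98389) (nat_lit 33) .nil)))) .nil)) 
(.lf (nat_lit 256099) (.g (nat_lit 1498) (.e (nat_lit 164128) (nat_lit 131) (.e (nat_lit 122916) (nat_lit 14) (.e (nat_lit 352315) (nat_lit 23) (.e (nat_lit 98367) (nat_lit 27) .nil)))) .nil)))) (.nd (nat_lit 5) (.nd (nat_lit 6) 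
(.lf (nat_lit 256019) (.g (nat_lit 2052) (.e (nat_lit 164112) (nat_lit 118) (.e (nat_lit 794637) (nat_lit 11) (.e (nat_lit 336223) (nat_lit 13) (.e (nat_lit 393265) (nat_lit 22) (.e (nat_lit 417817) (nat_lit 10) (.e (nat_lit 5024) (nat_lit 290) .nil)))))) (.g (nat_lit 5) .nil .nil))) 
(.lf (nat_lit 256083) (.g (nat_lit 2494) (.e (nat_lit 164119) (nat_lit 128) (.e (nat_lit 1220) (nat_lit 90) (.e (nat_lit 81956) (nat_lit 23) (.e (nat_lit 98353) (nat_lit 25) .nil)))) .nil))) (.nd (nat_lit 6) 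
(.lf (nat_lit 256051) (.g (nat_lit 1598) (.e (nat_lit 164119) (nat_lit 128) (.e (nat_lit 1220) (nat_lit 90) (.e (nat_lit 81953) (nat_lit 22) (.e (nat_lit 90165) (nat_lit 12) .nil)))) .nil)) 
(.lf (nat_lit 256115) (.g (nat_lit 3675) (.e (nat_lit 164133) (nat_lit 134) (.e (nat_lit 1220) (nat_lit 90) (.e (nat_lit 81956) (nat_lit 23) (.e (nat_lit 98365) (nat_lit 26) .nil)))) .nil))))) (.nd (nat_lit 4) (.nd (nat_lit 5) (.nd (nat_lit 6) 
(.lf (nat_lit 256011) (.g (nat_lit 893) (.e (nat_lit 164112) (nat_lit 118) (.e (nat_lit 794637) (nat_lit 11) (.e (nat_lit 336215) (nat_lit 13) (.e (nat_lit 401152) (nat_lit 17) .nil)))) .nil)) 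
(.lf (nat_lit 256075) (.g (nat_lit 2379) (.e (nat_lit 164119) (nat_lit 128) (.e (nat_lit 1220) (nat_lit 90) (.e (nat_lit 81956) (nat_lit 23) (.e (nat_lit 98325) (nat_lit 17) (.e (nat_lit 7936) (nat_lit 409) .nil))))) .nil))) (.nd (nat_lit 6) 
(.lf (nat_lit 256043) (.g (nat_lit 2358) (.e (nat_lit 164119) (nat_lit 128) (.e (nat_lit 1220) (nat_lit 90) (.e (nat_lit 81938) (nat_lit 20) (.e (nat_lit 1842) (nat_lit 123) (.e (nat_lit 548874) (nat_lit 5) (.e (nat_lit 1559) (nat_lit 110) (.e (nat_lit 360192) (nat_lit 1) .nil))))))) (.g (nat_lit 5) .nil .nil))) 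
(.lf (nat_lit 256107) (.g (nat_lit 3603) (.e (nat_lit 164133) (nat_lit 134) (.e (nat_lit 1196) (nat_lit 88) (.e (nat_lit 65610) (nat_lit 10) (.e (nat_lit 344117) (nat_lit 21) (.e (nat_lit 516145) (nat_lit 9) (.e (nat_lit 426448) (nat_lit 20) (.e (nat_lit 122624) (nat_lit 1) .nil))))))) (.g (nat_lit 5) .nil .nil))))) (.nd (nat_lit 5) (.nd (nat_lit 6) 
(.lf (nat_lit 256027) (.g (nat_lit 1556) (.e (nat_lit 164117) (nat_lit 128) (.e (nat_lit 1221) (nat_lit 90) (.e (nat_lit 81956) (nat_lit 23) (.e (nat_lit 98350) (nat_lit 24) (.e (nat_lit 409616) (nat_lit 10) .nil))))) .nil)) 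
(.lf (nat_lit 256091) (.g (nat_lit 1336) (.e (nat_lit 164121) (nat_lit 128) (.e (nat_lit 1220) (nat_lit 90) (.e (nat_lit 81956) (nat_lit 23) (.e (nat_lit 98350) (nat_lit 24) .nil)))) .nil))) (.nd (nat_lit 6) 
(.lf (nat_lit 256059) (.g (nat_lit 2523) (.e (nat_lit 164119) (nat_lit 128) (.e (nat_lit 1220) (nat_lit 90) (.e (nat_lit 81953) (nat_lit 22) (.e (nat_lit 90165) (nat_lit 12) (.e (nat_lit 164237) (nat_lit 187) (.e (nat_lit 1516) (nat_lit 108) (.e (nat_lit 336313) (nat_lit 16) .nil))))))) (.g (nat_lit 4) .nil .nil))) 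
(.lf (nat_lit 256123) (.g (nat_lit 2575) (.e (nat_lit 164133) (nat_lit 134) (.e (nat_lit 1221) (nat_lit 90) (.e (nat_lit 81956) (nat_lit 23) (.e (nat_lit 98384) (nat_lit 32) .nil)))) .nil)))))) (.nd (nat_lit 3) (.nd (nat_lit 4) (.nd (nat_lit 5) (.nd (nat_lit 6) 
(.lf (nat_lit 256007) (.g (nat_lit 2025) (.e (nat_lit 164112) (nat_lit 118) (.e (nat_lit 794637) (nat_lit 11) (.e (nat_lit 336213) (nat_lit 13) (.e (nat_lit 393262) (nat_lit 22) (.e (nat_lit 417817) (nat_lit 10) .nil))))) .nil)) 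
(.lf (nat_lit 256071) (.g (nat_lit 2425) (.e (nat_lit 164119) (nat_lit 128) (.e (nat_lit 1220) (nat_lit 90) (.e (nat_lit 81956) (nat_lit 23) (.e (nat_lit 98325) (nat_lit 17) (.e (nat_lit 7112) (nat_lit 381) .nil))))) .nil))) (.nd (nat_lit 6) 
(.lf (nat_lit 256039) (.g (nat_lit 1227) (.e (nat_lit 164119) (nat_lit 128) (.e (nat_lit 1220) (nat_lit 90) (.e (nat_lit 81938) (nat_lit 20) (.e (nat_lit 1841) (nat_lit 123) (.e (nat_lit 548891) (nat_lit 11) .nil))))) .nil)) 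
(.lf (nat_lit 256103) (.g (nat_lit 1512) (.e (nat_lit 164132) (nat_lit 134) (.e (nat_lit 1221) (nat_lit 90) (.e (nat_lit 81954) (nat_lit 23) (.e (nat_lit 98356) (nat_lit 26) .nil)))) .nil)))) (.nd (nat_lit 5) (.nd (nat_lit 6) 
(.lf (nat_lit 256023) (.g (nat_lit 226) (.e (nat_lit 171776) (nat_lit 122) (.e (nat_lit 1220) (nat_lit 90) (.e (nat_lit 89856) (nat_lit 19) .nil))) .nil)) 
(.lf (nat_lit 256087) (.g (nat_lit 2425) (.e (nat_lit 164119) (nat_lit 128) (.e (nat_lit 1220) (nat_lit 90) (.e (nat_lit 81956) (nat_lit 23) (.e (nat_lit 98389) (nat_lit 33) .nil)))) .nil))) (.nd (nat_lit 6) 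
(.lf (nat_lit 256055) (.g (nat_lit 2157) (.e (nat_lit 164119) (nat_lit 128) (.e (nat_lit 1220) (nat_lit 90) (.e (nat_lit 81953) (nat_lit 22) (.e (nat_lit 90165) (nat_lit 12) (.e (nat_lit 164236) (nat_lit 187) .nil))))) .nil)) 
(.lf (nat_lit 256119) (.g (nat_lit 3542) (.e (nat_lit 164133) (nat_lit 134) (.e (nat_lit 1221) (nat_lit 90) (.e (nat_lit 81953) (nat_lit 22) (.e (nat_lit 90185) (nat_lit 17) .nil)))) .nil))))) (.nd (nat_lit 4) (.nd (nat_lit 5) (.nd (nat_lit 6) 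
(.lf (nat_lit 256015) (.g (nat_lit 1354) (.e (nat_lit 164112) (nat_lit 118) (.e (nat_lit 794637) (nat_lit 11) (.e (nat_lit 336222) (nat_lit 13) (.e (nat_lit 393259) (nat_lit 21) (.e (nat_lit 409618) (nat_lit 10) .nil))))) .nil)) 
(.lf (nat_lit 256079) (.g (nat_lit 2671) (.e (nat_lit 164119) (nat_lit 128) (.e (nat_lit 1220) (nat_lit 90) (.e (nat_lit 81956) (nat_lit 23) (.e (nat_lit 98350) (nat_lit 24) (.e (nat_lit 409617) (nat_lit 10) .nil))))) .nil))) (.nd (nat_lit 6) 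
(.lf (nat_lit 256047) (.g (nat_lit 3378) (.e (nat_lit 164119) (nat_lit 128) (.e (nat_lit 1220) (nat_lit 90) (.e (nat_lit 81953) (nat_lit 22) (.e (nat_lit 90133) (nat_lit 9) (.e (nat_lit 2397) (nat_lit 157) (.e (nat_lit 7588) (nat_lit 406) (.e (nat_lit 73472) (nat_lit 16) .nil))))))) (.g (nat_lit 6) .nil .nil))) 
(.lf (nat_lit 256111) (.g (nat_lit 1922) (.e (nat_lit 164133) (nat_lit 134) (.e (nat_lit 1220) (nat_lit 90) (.e (nat_lit 81953) (nat_lit 22) (.e (nat_lit 90170) (nat_lit 13) .nil)))) .nil)))) (.nd (nat_lit 5) (.nd (nat_lit 6) 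
(.lf (nat_lit 256031) (.g (nat_lit 1758) (.e (nat_lit 164119) (nat_lit 128) (.e (nat_lit 1196) (nat_lit 88) (.e (nat_lit 65630) (nat_lit 14) (.e (nat_lit 401428) (nat_lit 3) (.e (nat_lit 204877) (nat_lit 31) .nil))))) .nil)) 
(.lf (nat_lit 256095) (.g (nat_lit 3342) (.e (nat_lit 164122) (nat_lit 128) (.e (nat_lit 1220) (nat_lit 90) (.e (nat_lit 81956) (nat_lit 23) (.e (nat_lit 98350) (nat_lit 24) (.e (nat_lit 409623) (nat_lit 10) .nil))))) .nil))) (.nd (nat_lit 6) 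
(.lf (nat_lit 256063) (.g (nat_lit 4103) (.e (nat_lit 164119) (nat_lit 128) (.e (nat_lit 1220) (nat_lit 90) (.e (nat_lit 81953) (nat_lit 22) (.e (nat_lit 90181) (nat_lit 16) .nil)))) .nil)) 
(.lf (nat_lit 256127) (.g (nat_lit 1342) (.e (nat_lit 171776) (nat_lit 136) (.e (nat_lit 57389) (nat_lit 5) (.e (nat_lit 114716) (nat_lit 22) (.e (nat_lit 90172) (nat_lit 14) .nil)))) .nil)))))))))

noncomputable def tv3321 : DT := (.nd (nat_lit 0) (.nd (nat_lit 1) (.nd (nat_lit 2) (.nd (nat_lit 3) (.nd (nat_lit 4) (.nd (nat_lit 5) (.nd (nat_lit 6) 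
(.lf (nat_lit 256128) (.g (nat_lit 1365) (.e (nat_lit 171776) (nat_lit 136) (.e (nat_lit 57390) (nat_lit 5) (.e (nat_lit 114716) (nat_lit 22) (.e (nat_lit 90172) (nat_lit 14) (.e (nat_lit 180244) (nat_lit 5) .nil))))) .nil)) 
(.lf (nat_lit 256192) (.g (nat_lit 1706) (.e (nat_lit 164150) (nat_lit 152) (.e (nat_lit 1207) (nat_lit 89) (.e (nat_lit 73746) (nat_lit 3) (.e (nat_lit 516176) (nat_lit 14) (.e (nat_lit 466978) (nat_lit 23) .nil))))) .nil))) (.nd (nat_lit 6) 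
(.lf (nat_lit 256160) (.g (nat_lit 1689) (.e (nat_lit 164147) (nat_lit 152) (.e (nat_lit 1211) (nat_lit 89) (.e (nat_lit 73755) (nat_lit 8) (.e (nat_lit 557091) (nat_lit 12) (.e (nat_lit 164238) (nat_lit 187) .nil))))) .nil)) 
(.lf (nat_lit 256224) (.g (nat_lit 1405) (.e (nat_lit 164153) (nat_lit 152) (.e (nat_lit 1212) (nat_lit 89) (.e (nat_lit 73753) (nat_lit 8) (.e (nat_lit 557094) (nat_lit 12) .nil)))) .nil)))) (.nd (nat_lit 5) (.nd (nat_lit 6) 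
(.lf (nat_lit 256144) (.g (nat_lit 1198) (.e (nat_lit 171776) (nat_lit 148) (.e (nat_lit 57379) (nat_lit 3) (.e (nat_lit 98365) (nat_lit 26) (.e (nat_lit 426306) (nat_lit 12) .nil)))) .nil)) 
(.lf (nat_lit 256208) (.g (nat_lit 1847) (.e (nat_lit 164151) (nat_lit 152) (.e (nat_lit 1207) (nat_lit 89) (.e (nat_lit 73746) (nat_lit 3) (.e (nat_lit 516174) (nat_lit 14) (.e (nat_lit 466980) (nat_lit 23) (.e (nat_lit 212736) (nat_lit 1) .nil)))))) (.g (nat_lit 5) .nil .nil)))) (.nd (nat_lit 6) 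
(.lf (nat_lit 256176) (.g (nat_lit 1059) (.e (nat_lit 164148) (nat_lit 152) (.e (nat_lit 1217) (nat_lit 90) (.e (nat_lit 81925) (nat_lit 11) (.e (nat_lit 426172) (nat_lit 7) (.e (nat_lit 417536) (nat_lit 18) .nil))))) .nil)) 
(.lf (nat_lit 256240) (.g (nat_lit 1990) (.e (nat_lit 164155) (nat_lit 152) (.e (nat_lit 1214) (nat_lit 89) (.e (nat_lit 73753) (nat_lit 8) (.e (nat_lit 557091) (nat_lit 12) (.e (nat_lit 164238) (nat_lit 187) .nil))))) .nil))))) (.nd (nat_lit 4) (.nd (nat_lit 5) (.nd (nat_lit 6) 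
(.lf (nat_lit 256136) (.g (nat_lit 1118) (.e (nat_lit 171776) (nat_lit 148) (.e (nat_lit 57372) (nat_lit 2) (.e (nat_lit 90176) (nat_lit 15) (.e (nat_lit 188420) (nat_lit 0) .nil)))) .nil)) 
(.lf (nat_lit 256200) (.g (nat_lit 1563) (.e (nat_lit 164150) (nat_lit 152) (.e (nat_lit 1207) (nat_lit 89) (.e (nat_lit 73754) (nat_lit 8) (.e (nat_lit 557101) (nat_lit 13) (.e (nat_lit 172051) (nat_lit 0) .nil))))) .nil))) (.nd (nat_lit 6) 
(.lf (nat_lit 256168) (.g (nat_lit 2312) (.e (nat_lit 164147) (nat_lit 152) (.e (nat_lit 1296) (nat_lit 96) (.e (nat_lit 131094) (nat_lit 2) (.e (nat_lit 90176) (nat_lit 15) (.e (nat_lit 188450) (nat_lit 23) (.e (nat_lit 212736) (nat_lit 1) .nil)))))) (.g (nat_lit 5) .nil .nil))) 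
(.lf (nat_lit 256232) (.g (nat_lit 2504) (.e (nat_lit 164155) (nat_lit 152) (.e (nat_lit 1183) (nat_lit 87) (.e (nat_lit 57479) (nat_lit 28) (.e (nat_lit 557103) (nat_lit 14) (.e (nat_lit 180250) (nat_lit 10) .nil))))) .nil)))) (.nd (nat_lit 5) (.nd (nat_lit 6) 
(.lf (nat_lit 256152) (.g (nat_lit 1369) (.e (nat_lit 164147) (nat_lit 152) (.e (nat_lit 1209) (nat_lit 89) (.e (nat_lit 73729) (nat_lit 0) (.e (nat_lit 7454) (nat_lit 396) .nil)))) .nil)) 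
(.lf (nat_lit 256216) (.g (nat_lit 2846) (.e (nat_lit 164151) (nat_lit 152) (.e (nat_lit 1217) (nat_lit 90) (.e (nat_lit 81925) (nat_lit 11) (.e (nat_lit 426172) (nat_lit 7) (.e (nat_lit 409645) (nat_lit 18) (.e (nat_lit 303115) (nat_lit 1) .nil)))))) (.g (nat_lit 0) .nil .nil)))) (.nd (nat_lit 6) 
(.lf (nat_lit 256184) (.g (nat_lit 865) (.e (nat_lit 164149) (nat_lit 152) (.e (nat_lit 1217) (nat_lit 90) (.e (nat_lit 81946) (nat_lit 20) (.e (nat_lit 2279) (nat_lit 150) .nil)))) .nil)) 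
(.lf (nat_lit 256248) (.g (nat_lit 2284) (.e (nat_lit 164155) (nat_lit 152) (.e (nat_lit 1296) (nat_lit 96) (.e (nat_lit 131094) (nat_lit 2) (.e (nat_lit 90176) (nat_lit 15) (.e (nat_lit 188450) (nat_lit 23) (.e (nat_lit 212736) (nat_lit 1) .nil)))))) (.g (nat_lit 5) .nil .nil))))))) (.nd (nat_lit 3) (.nd (nat_lit 4) (.nd (nat_lit 5) (.nd (nat_lit 6) 
(.lf (nat_lit 256132) (.g (nat_lit 2697) (.e (nat_lit 171776) (nat_lit 136) (.e (nat_lit 57437) (nat_lit 17) (.e (nat_lit 376865) (nat_lit 22) (.e (nat_lit 90185) (nat_lit 17) (.e (nat_lit 237582) (nat_lit 1) .nil))))) .nil)) 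
(.lf (nat_lit 256196) (.g (nat_lit 3949) (.e (nat_lit 164150) (nat_lit 152) (.e (nat_lit 1207) (nat_lit 89) (.e (nat_lit 73754) (nat_lit 8) (.e (nat_lit 557093) (nat_lit 12) (.e (nat_lit 164238) (nat_lit 187) (.e (nat_lit 1661) (nat_lit 115) (.e (nat_lit 393251) (nat_lit 18) .nil))))))) (.g (nat_lit 7) .nil .nil)))) (.nd (nat_lit 6) 
(.lf (nat_lit 256164) (.g (nat_lit 830) (.e (nat_lit 164147) (nat_lit 152) (.e (nat_lit 1221) (nat_lit 90) (.e (nat_lit 81926) (nat_lit 11) (.e (nat_lit 426172) (nat_lit 7) .nil)))) .nil)) 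
(.lf (nat_lit 256228) (.g (nat_lit 2156) (.e (nat_lit 164153) (nat_lit 152) (.e (nat_lit 1214) (nat_lit 89) (.e (nat_lit 73754) (nat_lit 8) (.e (nat_lit 557093) (nat_lit 12) (.e (nat_lit 164239) (nat_lit 187) .nil))))) .nil)))) (.nd (nat_lit 5) (.nd (nat_lit 6) 
(.lf (nat_lit 256148) (.g (nat_lit 2715) (.e (nat_lit 171776) (nat_lit 148) (.e (nat_lit 57447) (nat_lit 19) (.e (nat_lit 393301) (nat_lit 27) (.e (nat_lit 491558) (nat_lit 10) (.e (nat_lit 352000) (nat_lit 46) .nil))))) .nil)) 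
(.lf (nat_lit 256212) (.g (nat_lit 1714) (.e (nat_lit 164151) (nat_lit 152) (.e (nat_lit 1207) (nat_lit 89) (.e (nat_lit 73753) (nat_lit 8) (.e (nat_lit 557089) (nat_lit 12) (.e (nat_lit 171776) (nat_lit 191) .nil))))) .nil))) (.nd (nat_lit 6) 
(.lf (nat_lit 256180) (.g (nat_lit 2018) (.e (nat_lit 164148) (nat_lit 152) (.e (nat_lit 1298) (nat_lit 96) (.e (nat_lit 131094) (nat_lit 2) (.e (nat_lit 90176) (nat_lit 15) (.e (nat_lit 188450) (nat_lit 23) (.e (nat_lit 212736) (nat_lit 1) .nil)))))) (.g (nat_lit 5) .nil .nil))) 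
(.lf (nat_lit 256244) (.g (nat_lit 1852) (.e (nat_lit 164155) (nat_lit 152) (.e (nat_lit 1214) (nat_lit 89) (.e (nat_lit 73754) (nat_lit 8) (.e (nat_lit 557094) (nat_lit 12) (.e (nat_lit 164238) (nat_lit 187) .nil))))) .nil))))) (.nd (nat_lit 4) (.nd (nat_lit 5) (.nd (nat_lit 6) 
(.lf (nat_lit 256140) (.g (nat_lit 4385) (.e (nat_lit 171776) (nat_lit 148) (.e (nat_lit 57377) (nat_lit 3) (.e (nat_lit 98317) (nat_lit 9) (.e (nat_lit 336002) (nat_lit 2) .nil)))) .nil)) 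
(.lf (nat_lit 256204) (.g (nat_lit 897) (.e (nat_lit 164151) (nat_lit 152) (.e (nat_lit 1073) (nat_lit 81) (.e (nat_lit 1661) (nat_lit 115) (.e (nat_lit 393225) (nat_lit 9) .nil)))) .nil))) (.nd (nat_lit 6) 
(.lf (nat_lit 256172) (.g (nat_lit 1157) (.e (nat_lit 164148) (nat_lit 152) (.e (nat_lit 1201) (nat_lit 88) (.e (nat_lit 65627) (nat_lit 13) (.e (nat_lit 393260) (nat_lit 21) .nil)))) .nil)) 
(.lf (nat_lit 256236) (.g (nat_lit 1772) (.e (nat_lit 164155) (nat_lit 152) (.e (nat_lit 1201) (nat_lit 88) (.e (nat_lit 65625) (nat_lit 13) (.e (nat_lit 393260) (nat_lit 21) (.e (nat_lit 409646) (nat_lit 18) .nil))))) .nil)))) (.nd (nat_lit 5) (.nd (nat_lit 6) 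
(.lf (nat_lit 256156) (.g (nat_lit 1998) (.e (nat_lit 164147) (nat_lit 152) (.e (nat_lit 1209) (nat_lit 89) (.e (nat_lit 73753) (nat_lit 8) (.e (nat_lit 557094) (nat_lit 12) (.e (nat_lit 164238) (nat_lit 187) .nil))))) .nil)) 
(.lf (nat_lit 256220) (.g (nat_lit 2381) (.e (nat_lit 164151) (nat_lit 152) (.e (nat_lit 1217) (nat_lit 90) (.e (nat_lit 81925) (nat_lit 11) (.e (nat_lit 426172) (nat_lit 7) (.e (nat_lit 409649) (nat_lit 18) (.e (nat_lit 303115) (nat_lit 1) .nil)))))) (.g (nat_lit 0) .nil .nil)))) (.nd (nat_lit 6) 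
(.lf (nat_lit 256188) (.g (nat_lit 2941) (.e (nat_lit 164150) (nat_lit 152) (.e (nat_lit 1204) (nat_lit 88) (.e (nat_lit 65566) (nat_lit 2) (.e (nat_lit 90170) (nat_lit 13) (.e (nat_lit 172106) (nat_lit 10) (.e (nat_lit 434231) (nat_lit 23) (.e (nat_lit 540416) (nat_lit 18) .nil))))))) (.g (nat_lit 6) .nil .nil))) 
(.lf (nat_lit 256252) (.g (nat_lit 762) (.e (nat_lit 164158) (nat_lit 152) (.e (nat_lit 1201) (nat_lit 88) (.e (nat_lit 65543) (nat_lit 0) .nil))) .nil))))))) (.nd (nat_lit 2) (.nd (nat_lit 3) (.nd (nat_lit 4) (.nd (nat_lit 5) (.nd (nat_lit 6) 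
(.lf (nat_lit 256130) (.g (nat_lit 1625) (.e (nat_lit 171776) (nat_lit 136) (.e (nat_lit 57436) (nat_lit 17) (.e (nat_lit 376865) (nat_lit 22) (.e (nat_lit 90185) (nat_lit 17) .nil)))) .nil)) 
(.lf (nat_lit 256194) (.g (nat_lit 2400) (.e (nat_lit 164150) (nat_lit 152) (.e (nat_lit 1207) (nat_lit 89) (.e (nat_lit 73746) (nat_lit 3) (.e (nat_lit 516176) (nat_lit 14) (.e (nat_lit 466981) (nat_lit 23) (.e (nat_lit 212736) (nat_lit 1) .nil)))))) (.g (nat_lit 5) .nil .nil)))) (.nd (nat_lit 6) 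
(.lf (nat_lit 256162) (.g (nat_lit 1727) (.e (nat_lit 164147) (nat_lit 152) (.e (nat_lit 1214) (nat_lit 89) (.e (nat_lit 73729) (nat_lit 0) (.e (nat_lit 7454) (nat_lit 396) (.e (nat_lit 1219) (nat_lit 90) .nil))))) .nil)) 
(.lf (nat_lit 256226) (.g (nat_lit 1816) (.e (nat_lit 164153) (nat_lit 152) (.e (nat_lit 1214) (nat_lit 89) (.e (nat_lit 73753) (nat_lit 8) (.e (nat_lit 557089) (nat_lit 12) (.e (nat_lit 171776) (nat_lit 194) .nil))))) .nil)))) (.nd (nat_lit 5) (.nd (nat_lit 6) 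
(.lf (nat_lit 256146) (.g (nat_lit 2073) (.e (nat_lit 171776) (nat_lit 148) (.e (nat_lit 57379) (nat_lit 3) (.e (nat_lit 98373) (nat_lit 29) (.e (nat_lit 450587) (nat_lit 10) (.e (nat_lit 573473) (nat_lit 12) .nil))))) .nil)) 
(.lf (nat_lit 256210) (.g (nat_lit 1936) (.e (nat_lit 164151) (nat_lit 152) (.e (nat_lit 1207) (nat_lit 89) (.e (nat_lit 73746) (nat_lit 3) (.e (nat_lit 516176) (nat_lit 14) (.e (nat_lit 466980) (nat_lit 23) (.e (nat_lit 212736) (nat_lit 1) .nil)))))) (.g (nat_lit 5) .nil .nil)))) (.nd (nat_lit 6) 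
(.lf (nat_lit 256178) (.g (nat_lit 2437) (.e (nat_lit 164148) (nat_lit 152) (.e (nat_lit 1296) (nat_lit 96) (.e (nat_lit 131094) (nat_lit 2) (.e (nat_lit 90176) (nat_lit 15) (.e (nat_lit 188450) (nat_lit 23) (.e (nat_lit 212736) (nat_lit 1) .nil)))))) (.g (nat_lit 5) .nil .nil))) 
(.lf (nat_lit 256242) (.g (nat_lit 1626) (.e (nat_lit 164155) (nat_lit 152) (.e (nat_lit 1214) (nat_lit 89) (.e (nat_lit 73753) (nat_lit 8) (.e (nat_lit 557094) (nat_lit 12) (.e (nat_lit 164238) (nat_lit 187) .nil))))) .nil))))) (.nd (nat_lit 4) (.nd (nat_lit 5) (.nd (nat_lit 6) 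
(.lf (nat_lit 256138) (.g (nat_lit 1136) (.e (nat_lit 171776) (nat_lit 148) (.e (nat_lit 57375) (nat_lit 2) (.e (nat_lit 90176) (nat_lit 15) (.e (nat_lit 188420) (nat_lit 0) .nil)))) .nil)) 
(.lf (nat_lit 256202) (.g (nat_lit 2055) (.e (nat_lit 164150) (nat_lit 152) (.e (nat_lit 1207) (nat_lit 89) (.e (nat_lit 73755) (nat_lit 8) (.e (nat_lit 557089) (nat_lit 12) (.e (nat_lit 171776) (nat_lit 194) .nil))))) .nil))) (.nd (nat_lit 6) 
(.lf (nat_lit 256170) (.g (nat_lit 1805) (.e (nat_lit 164148) (nat_lit 152) (.e (nat_lit 1201) (nat_lit 88) (.e (nat_lit 65625) (nat_lit 13) (.e (nat_lit 393259) (nat_lit 21) (.e (nat_lit 409645) (nat_lit 18) .nil))))) .nil)) 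
(.lf (nat_lit 256234) (.g (nat_lit 1787) (.e (nat_lit 164155) (nat_lit 152) (.e (nat_lit 1201) (nat_lit 88) (.e (nat_lit 65625) (nat_lit 13) (.e (nat_lit 393259) (nat_lit 21) (.e (nat_lit 409645) (nat_lit 18) .nil))))) .nil)))) (.nd (nat_lit 5) (.nd (nat_lit 6) 
(.lf (nat_lit 256154) (.g (nat_lit 2298) (.e (nat_lit 164147) (nat_lit 152) (.e (nat_lit 1209) (nat_lit 89) (.e (nat_lit 73753) (nat_lit 8) (.e (nat_lit 557091) (nat_lit 12) (.e (nat_lit 164238) (nat_lit 187) .nil))))) .nil)) 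
(.lf (nat_lit 256218) (.g (nat_lit 2103) (.e (nat_lit 164151) (nat_lit 152) (.e (nat_lit 1217) (nat_lit 90) (.e (nat_lit 81925) (nat_lit 11) (.e (nat_lit 426172) (nat_lit 7) (.e (nat_lit 409648) (nat_lit 18) (.e (nat_lit 303114) (nat_lit 1) .nil)))))) (.g (nat_lit 0) .nil .nil)))) (.nd (nat_lit 6) 
(.lf (nat_lit 256186) (.g (nat_lit 1168) (.e (nat_lit 164149) (nat_lit 152) (.e (nat_lit 1217) (nat_lit 90) (.e (nat_lit 81963) (nat_lit 26) (.e (nat_lit 147492) (nat_lit 11) (.e (nat_lit 24665) (nat_lit 14) .nil))))) .nil)) 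
(.lf (nat_lit 256250) (.g (nat_lit 1543) (.e (nat_lit 164156) (nat_lit 152) (.e (nat_lit 968) (nat_lit 81) (.e (nat_lit 1633) (nat_lit 114) (.e (nat_lit 385068) (nat_lit 26) (.e (nat_lit 532534) (nat_lit 9) .nil))))) .nil)))))) (.nd (nat_lit 3) (.nd (nat_lit 4) (.nd (nat_lit 5) (.nd (nat_lit 6) 
(.lf (nat_lit 256134) (.g (nat_lit 2155) (.e (nat_lit 171776) (nat_lit 146) (.e (nat_lit 2638) (nat_lit 165) (.e (nat_lit 180250) (nat_lit 10) (.e (nat_lit 573503) (nat_lit 18) (.e (nat_lit 1349) (nat_lit 102) .nil))))) .nil)) 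
(.lf (nat_lit 256198) (.g (nat_lit 3868) (.e (nat_lit 164150) (nat_lit 152) (.e (nat_lit 1207) (nat_lit 89) (.e (nat_lit 73754) (nat_lit 8) (.e (nat_lit 557094) (nat_lit 12) (.e (nat_lit 164238) (nat_lit 187) (.e (nat_lit 1661) (nat_lit 115) (.e (nat_lit 393251) (nat_lit 18) .nil))))))) (.g (nat_lit 7) .nil .nil)))) (.nd (nat_lit 6) 
(.lf (nat_lit 256166) (.g (nat_lit 1506) (.e (nat_lit 164147) (nat_lit 152) (.e (nat_lit 1221) (nat_lit 90) (.e (nat_lit 81965) (nat_lit 26) (.e (nat_lit 147503) (nat_lit 12) .nil)))) .nil)) 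
(.lf (nat_lit 256230) (.g (nat_lit 1838) (.e (nat_lit 164154) (nat_lit 152) (.e (nat_lit 1214) (nat_lit 89) (.e (nat_lit 73746) (nat_lit 3) (.e (nat_lit 516176) (nat_lit 14) (.e (nat_lit 466981) (nat_lit 23) .nil))))) .nil)))) (.nd (nat_lit 5) (.nd (nat_lit 6) 
(.lf (nat_lit 256150) (.g (nat_lit 2816) (.e (nat_lit 164147) (nat_lit 152) (.e (nat_lit 1181) (nat_lit 87) (.e (nat_lit 57480) (nat_lit 28) (.e (nat_lit 557105) (nat_lit 14) (.e (nat_lit 180252) (nat_lit 10) .nil))))) .nil)) 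
(.lf (nat_lit 256214) (.g (nat_lit 870) (.e (nat_lit 164151) (nat_lit 152) (.e (nat_lit 1216) (nat_lit 90) (.e (nat_lit 81925) (nat_lit 11) (.e (nat_lit 426024) (nat_lit 0) (.e (nat_lit 6989) (nat_lit 377) .nil))))) .nil))) (.nd (nat_lit 6) 
(.lf (nat_lit 256182) (.g (nat_lit 295) (.e (nat_lit 164149) (nat_lit 152) (.e (nat_lit 1217) (nat_lit 90) (.e (nat_lit 89856) (nat_lit 10) .nil))) .nil)) 
(.lf (nat_lit 256246) (.g (nat_lit 2555) (.e (nat_lit 164155) (nat_lit 152) (.e (nat_lit 1296) (nat_lit 96) (.e (nat_lit 131091) (nat_lit 2) (.e (nat_lit 90176) (nat_lit 15) (.e (nat_lit 188450) (nat_lit 23) (.e (nat_lit 212736) (nat_lit 1) .nil)))))) (.g (nat_lit 5) .nil .nil)))))) (.nd (nat_lit 4) (.nd (nat_lit 5) (.nd (nat_lit 6) 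
(.lf (nat_lit 256142) (.g (nat_lit 4520) (.e (nat_lit 171776) (nat_lit 148) (.e (nat_lit 57377) (nat_lit 3) (.e (nat_lit 98317) (nat_lit 9) (.e (nat_lit 336021) (nat_lit 3) .nil)))) .nil)) 
(.lf (nat_lit 256206) (.g (nat_lit 1562) (.e (nat_lit 164151) (nat_lit 152) (.e (nat_lit 1088) (nat_lit 81) (.e (nat_lit 1656) (nat_lit 115) (.e (nat_lit 393225) (nat_lit 9) (.e (nat_lit 336186) (nat_lit 11) .nil))))) .nil))) (.nd (nat_lit 6) 
(.lf (nat_lit 256174) (.g (nat_lit 2035) (.e (nat_lit 164148) (nat_lit 152) (.e (nat_lit 1212) (nat_lit 89) (.e (nat_lit 73754) (nat_lit 8) (.e (nat_lit 557093) (nat_lit 12) (.e (nat_lit 164239) (nat_lit 187) .nil))))) .nil)) 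
(.lf (nat_lit 256238) (.g (nat_lit 2141) (.e (nat_lit 164155) (nat_lit 152) (.e (nat_lit 1212) (nat_lit 89) (.e (nat_lit 73753) (nat_lit 8) (.e (nat_lit 557091) (nat_lit 12) (.e (nat_lit 164238) (nat_lit 187) .nil))))) .nil)))) (.nd (nat_lit 5) (.nd (nat_lit 6) 
(.lf (nat_lit 256158) (.g (nat_lit 1948) (.e (nat_lit 164147) (nat_lit 152) (.e (nat_lit 1211) (nat_lit 89) (.e (nat_lit 73755) (nat_lit 8) (.e (nat_lit 557068) (nat_lit 9) (.e (nat_lit 3104) (nat_lit 192) .nil))))) .nil)) 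
(.lf (nat_lit 256222) (.g (nat_lit 2154) (.e (nat_lit 164152) (nat_lit 152) (.e (nat_lit 1214) (nat_lit 89) (.e (nat_lit 73754) (nat_lit 8) (.e (nat_lit 557093) (nat_lit 12) (.e (nat_lit 164239) (nat_lit 187) .nil))))) .nil))) (.nd (nat_lit 6) 
(.lf (nat_lit 256190) (.g (nat_lit 1520) (.e (nat_lit 164150) (nat_lit 152) (.e (nat_lit 1206) (nat_lit 89) (.e (nat_lit 73755) (nat_lit 8) (.e (nat_lit 557091) (nat_lit 12) (.e (nat_lit 164238) (nat_lit 187) .nil))))) .nil)) 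
(.lf (nat_lit 256254) (.g (nat_lit 983) (.e (nat_lit 164158) (nat_lit 152) (.e (nat_lit 1296) (nat_lit 96) (.e (nat_lit 131125) (nat_lit 13) (.e (nat_lit 393260) (nat_lit 21) .nil)))) .nil)))))))) (.nd (nat_lit 1) (.nd (nat_lit 2) (.nd (nat_lit 3) (.nd (nat_lit 4) (.nd (nat_lit 5) (.nd (nat_lit 6) 
(.lf (nat_lit 256129) (.g (nat_lit 1011) (.e (nat_lit 171776) (nat_lit 136) (.e (nat_lit 57406) (nat_lit 12) (.e (nat_lit 336326) (nat_lit 18) (.e (nat_lit 204854) (nat_lit 26) .nil)))) .nil)) 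
(.lf (nat_lit 256193) (.g (nat_lit 1976) (.e (nat_lit 164150) (nat_lit 152) (.e (nat_lit 1207) (nat_lit 89) (.e (nat_lit 73746) (nat_lit 3) (.e (nat_lit 516176) (nat_lit 14) (.e (nat_lit 466980) (nat_lit 23) (.e (nat_lit 212736) (nat_lit 1) .nil)))))) (.g (nat_lit 5) .nil .nil)))) (.nd (nat_lit 6) 
(.lf (nat_lit 256161) (.g (nat_lit 2102) (.e (nat_lit 164147) (nat_lit 152) (.e (nat_lit 1211) (nat_lit 89) (.e (nat_lit 73755) (nat_lit 8) (.e (nat_lit 557104) (nat_lit 14) (.e (nat_lit 180261) (nat_lit 20) .nil))))) .nil)) 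
(.lf (nat_lit 256225) (.g (nat_lit 2035) (.e (nat_lit 164153) (nat_lit 152) (.e (nat_lit 1212) (nat_lit 89) (.e (nat_lit 73754) (nat_lit 8) (.e (nat_lit 557093) (nat_lit 12) (.e (nat_lit 164239) (nat_lit 187) .nil))))) .nil)))) (.nd (nat_lit 5) (.nd (nat_lit 6) 
(.lf (nat_lit 256145) (.g (nat_lit 512) (.e (nat_lit 171776) (nat_lit 148) (.e (nat_lit 57379) (nat_lit 3) (.e (nat_lit 98369) (nat_lit 28) .nil))) .nil)) 
(.lf (nat_lit 256209) (.g (nat_lit 1661) (.e (nat_lit 164151) (nat_lit 152) (.e (nat_lit 1207) (nat_lit 89) (.e (nat_lit 73746) (nat_lit 3) (.e (nat_lit 516176) (nat_lit 14) (.e (nat_lit 466978) (nat_lit 23) .nil))))) .nil))) (.nd (nat_lit 6) 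
(.lf (nat_lit 256177) (.g (nat_lit 1648) (.e (nat_lit 164148) (nat_lit 152) (.e (nat_lit 1223) (nat_lit 90) (.e (nat_lit 81965) (nat_lit 26) (.e (nat_lit 147495) (nat_lit 11) (.e (nat_lit 24665) (nat_lit 14) .nil))))) .nil)) 
(.lf (nat_lit 256241) (.g (nat_lit 1901) (.e (nat_lit 164155) (nat_lit 152) (.e (nat_lit 1214) (nat_lit 89) (.e (nat_lit 73753) (nat_lit 8) (.e (nat_lit 557093) (nat_lit 12) (.e (nat_lit 164239) (nat_lit 187) .nil))))) .nil))))) (.nd (nat_lit 4) (.nd (nat_lit 5) (.nd (nat_lit 6) 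
(.lf (nat_lit 256137) (.g (nat_lit 551) (.e (nat_lit 171776) (nat_lit 148) (.e (nat_lit 57373) (nat_lit 2) (.e (nat_lit 90185) (nat_lit 17) .nil))) .nil)) 
(.lf (nat_lit 256201) (.g (nat_lit 1722) (.e (nat_lit 164150) (nat_lit 152) (.e (nat_lit 1207) (nat_lit 89) (.e (nat_lit 73755) (nat_lit 8) (.e (nat_lit 557068) (nat_lit 9) (.e (nat_lit 3104) (nat_lit 192) .nil))))) .nil))) (.nd (nat_lit 6) 
(.lf (nat_lit 256169) (.g (nat_lit 3185) (.e (nat_lit 164148) (nat_lit 152) (.e (nat_lit 1201) (nat_lit 88) (.e (nat_lit 65566) (nat_lit 2) (.e (nat_lit 90170) (nat_lit 13) (.e (nat_lit 172106) (nat_lit 10) (.e (nat_lit 434231) (nat_lit 23) (.e (nat_lit 540416) (nat_lit 18) .nil))))))) (.g (nat_lit 6) .nil .nil))) 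
(.lf (nat_lit 256233) (.g (nat_lit 2996) (.e (nat_lit 164155) (nat_lit 152) (.e (nat_lit 1201) (nat_lit 88) (.e (nat_lit 65566) (nat_lit 2) (.e (nat_lit 90170) (nat_lit 13) (.e (nat_lit 172106) (nat_lit 10) (.e (nat_lit 434231) (nat_lit 23) (.e (nat_lit 540416) (nat_lit 18) .nil))))))) (.g (nat_lit 6) .nil .nil))))) (.nd (nat_lit 5) (.nd (nat_lit 6) 
(.lf (nat_lit 256153) (.g (nat_lit 2407) (.e (nat_lit 164147) (nat_lit 152) (.e (nat_lit 1209) (nat_lit 89) (.e (nat_lit 73753) (nat_lit 8) (.e (nat_lit 557072) (nat_lit 9) (.e (nat_lit 3098) (nat_lit 192) .nil))))) .nil)) 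
(.lf (nat_lit 256217) (.g (nat_lit 2255) (.e (nat_lit 164151) (nat_lit 152) (.e (nat_lit 1217) (nat_lit 90) (.e (nat_lit 81925) (nat_lit 11) (.e (nat_lit 426172) (nat_lit 7) (.e (nat_lit 409647) (nat_lit 18) (.e (nat_lit 303115) (nat_lit 1) .nil)))))) (.g (nat_lit 0) .nil .nil)))) (.nd (nat_lit 6) 
(.lf (nat_lit 256185) (.g (nat_lit 983) (.e (nat_lit 164149) (nat_lit 152) (.e (nat_lit 1217) (nat_lit 90) (.e (nat_lit 81947) (nat_lit 20) (.e (nat_lit 2280) (nat_lit 150) .nil)))) .nil)) 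
(.lf (nat_lit 256249) (.g (nat_lit 1011) (.e (nat_lit 164155) (nat_lit 152) (.e (nat_lit 1296) (nat_lit 96) (.e (nat_lit 131127) (nat_lit 13) (.e (nat_lit 393260) (nat_lit 21) (.e (nat_lit 417536) (nat_lit 18) .nil))))) .nil)))))) (.nd (nat_lit 3) (.nd (nat_lit 4) (.nd (nat_lit 5) (.nd (nat_lit 6) 
(.lf (nat_lit 256133) (.g (nat_lit 2746) (.e (nat_lit 171776) (nat_lit 136) (.e (nat_lit 57437) (nat_lit 17) (.e (nat_lit 376865) (nat_lit 22) (.e (nat_lit 90185) (nat_lit 17) (.e (nat_lit 237585) (nat_lit 1) .nil))))) .nil)) 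
(.lf (nat_lit 256197) (.g (nat_lit 3618) (.e (nat_lit 164150) (nat_lit 152) (.e (nat_lit 1207) (nat_lit 89) (.e (nat_lit 73754) (nat_lit 8) (.e (nat_lit 557093) (nat_lit 12) (.e (nat_lit 164239) (nat_lit 187) (.e (nat_lit 1661) (nat_lit 115) (.e (nat_lit 393251) (nat_lit 18) .nil))))))) (.g (nat_lit 7) .nil .nil)))) (.nd (nat_lit 6) 
(.lf (nat_lit 256165) (.g (nat_lit 1270) (.e (nat_lit 164147) (nat_lit 152) (.e (nat_lit 1221) (nat_lit 90) (.e (nat_lit 81926) (nat_lit 11) (.e (nat_lit 426172) (nat_lit 7) (.e (nat_lit 409623) (nat_lit 10) .nil))))) .nil)) 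
(.lf (nat_lit 256229) (.g (nat_lit 1007) (.e (nat_lit 164154) (nat_lit 152) (.e (nat_lit 1214) (nat_lit 89) (.e (nat_lit 73746) (nat_lit 3) (.e (nat_lit 516174) (nat_lit 14) .nil)))) .nil)))) (.nd (nat_lit 5) (.nd (nat_lit 6) 
(.lf (nat_lit 256149) (.g (nat_lit 1750) (.e (nat_lit 171776) (nat_lit 148) (.e (nat_lit 57448) (nat_lit 19) (.e (nat_lit 393301) (nat_lit 27) (.e (nat_lit 491558) (nat_lit 10) .nil)))) .nil)) 
(.lf (nat_lit 256213) (.g (nat_lit 2547) (.e (nat_lit 164151) (nat_lit 152) (.e (nat_lit 1207) (nat_lit 89) (.e (nat_lit 73754) (nat_lit 8) (.e (nat_lit 557100) (nat_lit 13) (.e (nat_lit 172138) (nat_lit 15) .nil))))) .nil))) (.nd (nat_lit 6) 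
(.lf (nat_lit 256181) (.g (nat_lit 70) (.e (nat_lit 164149) (nat_lit 152) (.e (nat_lit 1204) (nat_lit 88) (.e (nat_lit 73472) (nat_lit 34) .nil))) .nil)) 
(.lf (nat_lit 256245) (.g (nat_lit 1294) (.e (nat_lit 164155) (nat_lit 152) (.e (nat_lit 1214) (nat_lit 89) (.e (nat_lit 73775) (nat_lit 26) (.e (nat_lit 786176) (nat_lit 6) .nil)))) .nil))))) (.nd (nat_lit 4) (.nd (nat_lit 5) (.nd (nat_lit 6) 
(.lf (nat_lit 256141) (.g (nat_lit 4519) (.e (nat_lit 171776) (nat_lit 148) (.e (nat_lit 57377) (nat_lit 3) (.e (nat_lit 98317) (nat_lit 9) (.e (nat_lit 336004) (nat_lit 2) .nil)))) .nil)) 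
(.lf (nat_lit 256205) (.g (nat_lit 1532) (.e (nat_lit 164151) (nat_lit 152) (.e (nat_lit 1088) (nat_lit 81) (.e (nat_lit 1656) (nat_lit 115) (.e (nat_lit 393225) (nat_lit 9) (.e (nat_lit 336184) (nat_lit 11) .nil))))) .nil))) (.nd (nat_lit 6) 
(.lf (nat_lit 256173) (.g (nat_lit 1911) (.e (nat_lit 164148) (nat_lit 152) (.e (nat_lit 1201) (nat_lit 88) (.e (nat_lit 65627) (nat_lit 13) (.e (nat_lit 393265) (nat_lit 22) (.e (nat_lit 417820) (nat_lit 10) .nil))))) .nil)) 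
(.lf (nat_lit 256237) (.g (nat_lit 641) (.e (nat_lit 164155) (nat_lit 152) (.e (nat_lit 1201) (nat_lit 88) (.e (nat_lit 65627) (nat_lit 13) .nil))) .nil)))) (.nd (nat_lit 5) (.nd (nat_lit 6) 
(.lf (nat_lit 256157) (.g (nat_lit 1572) (.e (nat_lit 164147) (nat_lit 152) (.e (nat_lit 1211) (nat_lit 89) (.e (nat_lit 73754) (nat_lit 8) (.e (nat_lit 557093) (nat_lit 12) (.e (nat_lit 164239) (nat_lit 187) .nil))))) .nil)) 
(.lf (nat_lit 256221) (.g (nat_lit 1900) (.e (nat_lit 164152) (nat_lit 152) (.e (nat_lit 1214) (nat_lit 89) (.e (nat_lit 73753) (nat_lit 8) (.e (nat_lit 557093) (nat_lit 12) (.e (nat_lit 164239) (nat_lit 187) .nil))))) .nil))) (.nd (nat_lit 6) 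
(.lf (nat_lit 256189) (.g (nat_lit 1545) (.e (nat_lit 164150) (nat_lit 152) (.e (nat_lit 1206) (nat_lit 89) (.e (nat_lit 73753) (nat_lit 8) (.e (nat_lit 557091) (nat_lit 12) (.e (nat_lit 164238) (nat_lit 187) .nil))))) .nil)) 
(.lf (nat_lit 256253) (.g (nat_lit 686) (.e (nat_lit 164158) (nat_lit 152) (.e (nat_lit 1201) (nat_lit 88) (.e (nat_lit 65578) (nat_lit 6) .nil))) .nil))))))) (.nd (nat_lit 2) (.nd (nat_lit 3) (.nd (nat_lit 4) (.nd (nat_lit 5) (.nd (nat_lit 6) 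
(.lf (nat_lit 256131) (.g (nat_lit 1529) (.e (nat_lit 171776) (nat_lit 136) (.e (nat_lit 57437) (nat_lit 17) (.e (nat_lit 376865) (nat_lit 22) (.e (nat_lit 90185) (nat_lit 17) .nil)))) .nil)) 
(.lf (nat_lit 256195) (.g (nat_lit 2326) (.e (nat_lit 164150) (nat_lit 152) (.e (nat_lit 1207) (nat_lit 89) (.e (nat_lit 73753) (nat_lit 8) (.e (nat_lit 557103) (nat_lit 14) (.e (nat_lit 180261) (nat_lit 20) .nil))))) .nil))) (.nd (nat_lit 6) 
(.lf (nat_lit 256163) (.g (nat_lit 1363) (.e (nat_lit 164147) (nat_lit 152) (.e (nat_lit 1220) (nat_lit 90) (.e (nat_lit 81965) (nat_lit 26) (.e (nat_lit 147492) (nat_lit 11) .nil)))) .nil)) 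
(.lf (nat_lit 256227) (.g (nat_lit 2142) (.e (nat_lit 164153) (nat_lit 152) (.e (nat_lit 1214) (nat_lit 89) (.e (nat_lit 73754) (nat_lit 8) (.e (nat_lit 557093) (nat_lit 12) (.e (nat_lit 164238) (nat_lit 187) .nil))))) .nil)))) (.nd (nat_lit 5) (.nd (nat_lit 6) 
(.lf (nat_lit 256147) (.g (nat_lit 1775) (.e (nat_lit 171776) (nat_lit 148) (.e (nat_lit 57445) (nat_lit 19) (.e (nat_lit 393301) (nat_lit 27) (.e (nat_lit 491560) (nat_lit 10) .nil)))) .nil)) 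
(.lf (nat_lit 256211) (.g (nat_lit 2413) (.e (nat_lit 164151) (nat_lit 152) (.e (nat_lit 1207) (nat_lit 89) (.e (nat_lit 73746) (nat_lit 3) (.e (nat_lit 516176) (nat_lit 14) (.e (nat_lit 466981) (nat_lit 23) (.e (nat_lit 212736) (nat_lit 1) .nil)))))) (.g (nat_lit 5) .nil .nil)))) (.nd (nat_lit 6) 
(.lf (nat_lit 256179) (.g (nat_lit 1771) (.e (nat_lit 164148) (nat_lit 152) (.e (nat_lit 1296) (nat_lit 96) (.e (nat_lit 131126) (nat_lit 13) (.e (nat_lit 393260) (nat_lit 21) (.e (nat_lit 409644) (nat_lit 18) .nil))))) .nil)) 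
(.lf (nat_lit 256243) (.g (nat_lit 2158) (.e (nat_lit 164155) (nat_lit 152) (.e (nat_lit 1214) (nat_lit 89) (.e (nat_lit 73754) (nat_lit 8) (.e (nat_lit 557093) (nat_lit 12) (.e (nat_lit 164239) (nat_lit 187) .nil))))) .nil))))) (.nd (nat_lit 4) (.nd (nat_lit 5) (.nd (nat_lit 6) 
(.lf (nat_lit 256139) (.g (nat_lit 1317) (.e (nat_lit 171776) (nat_lit 148) (.e (nat_lit 57375) (nat_lit 2) (.e (nat_lit 90176) (nat_lit 15) (.e (nat_lit 196352) (nat_lit 0) .nil)))) .nil)) 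
(.lf (nat_lit 256203) (.g (nat_lit 766) (.e (nat_lit 164150) (nat_lit 152) (.e (nat_lit 1217) (nat_lit 90) (.e (nat_lit 81926) (nat_lit 11) (.e (nat_lit 426172) (nat_lit 7) (.e (nat_lit 417536) (nat_lit 18) .nil))))) .nil))) (.nd (nat_lit 6) 
(.lf (nat_lit 256171) (.g (nat_lit 1789) (.e (nat_lit 164148) (nat_lit 152) (.e (nat_lit 1201) (nat_lit 88) (.e (nat_lit 65625) (nat_lit 13) (.e (nat_lit 393260) (nat_lit 21) (.e (nat_lit 409646) (nat_lit 18) .nil))))) .nil)) 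
(.lf (nat_lit 256235) (.g (nat_lit 1897) (.e (nat_lit 164155) (nat_lit 152) (.e (nat_lit 1201) (nat_lit 88) (.e (nat_lit 65625) (nat_lit 13) (.e (nat_lit 393260) (nat_lit 21) (.e (nat_lit 409643) (nat_lit 18) .nil))))) .nil)))) (.nd (nat_lit 5) (.nd (nat_lit 6) 
(.lf (nat_lit 256155) (.g (nat_lit 1483) (.e (nat_lit 164147) (nat_lit 152) (.e (nat_lit 1209) (nat_lit 89) (.e (nat_lit 73753) (nat_lit 8) (.e (nat_lit 557093) (nat_lit 12) .nil)))) .nil)) 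
(.lf (nat_lit 256219) (.g (nat_lit 2468) (.e (nat_lit 164151) (nat_lit 152) (.e (nat_lit 1217) (nat_lit 90) (.e (nat_lit 81925) (nat_lit 11) (.e (nat_lit 426172) (nat_lit 7) (.e (nat_lit 409648) (nat_lit 18) (.e (nat_lit 303115) (nat_lit 1) .nil)))))) (.g (nat_lit 0) .nil .nil)))) (.nd (nat_lit 6) 
(.lf (nat_lit 256187) (.g (nat_lit 1512) (.e (nat_lit 164149) (nat_lit 152) (.e (nat_lit 1217) (nat_lit 90) (.e (nat_lit 81965) (nat_lit 26) (.e (nat_lit 147492) (nat_lit 11) (.e (nat_lit 24664) (nat_lit 14) .nil))))) .nil)) 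
(.lf (nat_lit 256251) (.g (nat_lit 3284) (.e (nat_lit 164156) (nat_lit 152) (.e (nat_lit 1202) (nat_lit 88) (.e (nat_lit 65568) (nat_lit 2) (.e (nat_lit 90170) (nat_lit 13) (.e (nat_lit 172106) (nat_lit 10) (.e (nat_lit 434231) (nat_lit 23) (.e (nat_lit 540416) (nat_lit 18) .nil))))))) (.g (nat_lit 6) .nil .nil))))))) (.nd (nat_lit 3) (.nd (nat_lit 4) (.nd (nat_lit 5) (.nd (nat_lit 6) 
(.lf (nat_lit 256135) (.g (nat_lit 458) (.e (nat_lit 171776) (nat_lit 148) (.e (nat_lit 57372) (nat_lit 2) (.e (nat_lit 90176) (nat_lit 15) .nil))) .nil)) 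
(.lf (nat_lit 256199) (.g (nat_lit 865) (.e (nat_lit 164150) (nat_lit 152) (.e (nat_lit 1207) (nat_lit 89) (.e (nat_lit 73754) (nat_lit 8) (.e (nat_lit 557100) (nat_lit 13) .nil)))) .nil))) (.nd (nat_lit 6) 
(.lf (nat_lit 256167) (.g (nat_lit 2473) (.e (nat_lit 164147) (nat_lit 152) (.e (nat_lit 1296) (nat_lit 96) (.e (nat_lit 131091) (nat_lit 2) (.e (nat_lit 90176) (nat_lit 15) (.e (nat_lit 188450) (nat_lit 23) (.e (nat_lit 212736) (nat_lit 1) .nil)))))) (.g (nat_lit 5) .nil .nil))) 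
(.lf (nat_lit 256231) (.g (nat_lit 1914) (.e (nat_lit 164154) (nat_lit 152) (.e (nat_lit 1214) (nat_lit 89) (.e (nat_lit 73753) (nat_lit 8) (.e (nat_lit 557093) (nat_lit 12) (.e (nat_lit 164239) (nat_lit 187) .nil))))) .nil)))) (.nd (nat_lit 5) (.nd (nat_lit 6) 
(.lf (nat_lit 256151) (.g (nat_lit 2343) (.e (nat_lit 164147) (nat_lit 152) (.e (nat_lit 1182) (nat_lit 87) (.e (nat_lit 57479) (nat_lit 28) (.e (nat_lit 557103) (nat_lit 14) (.e (nat_lit 180250) (nat_lit 10) .nil))))) .nil)) 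
(.lf (nat_lit 256215) (.g (nat_lit 1169) (.e (nat_lit 164151) (nat_lit 152) (.e (nat_lit 1216) (nat_lit 90) (.e (nat_lit 81927) (nat_lit 11) (.e (nat_lit 426172) (nat_lit 7) (.e (nat_lit 409623) (nat_lit 10) (.e (nat_lit 5664) (nat_lit 312) (.e (nat_lit 2605) (nat_lit 163) .nil))))))) (.g (nat_lit 4) .nil .nil)))) (.nd (nat_lit 6) 
(.lf (nat_lit 256183) (.g (nat_lit 1099) (.e (nat_lit 164149) (nat_lit 152) (.e (nat_lit 1217) (nat_lit 90) (.e (nat_lit 81926) (nat_lit 11) (.e (nat_lit 426172) (nat_lit 7) (.e (nat_lit 409623) (nat_lit 10) (.e (nat_lit 5664) (nat_lit 312) (.e (nat_lit 2605) (nat_lit 163) .nil))))))) (.g (nat_lit 5) .nil .nil))) 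
(.lf (nat_lit 256247) (.g (nat_lit 2462) (.e (nat_lit 164155) (nat_lit 152) (.e (nat_lit 1296) (nat_lit 96) (.e (nat_lit 131091) (nat_lit 2) (.e (nat_lit 90185) (nat_lit 17) (.e (nat_lit 237605) (nat_lit 9) (.e (nat_lit 426131) (nat_lit 3) (.e (nat_lit 212736) (nat_lit 1) .nil))))))) (.g (nat_lit 6) .nil .nil)))))) (.nd (nat_lit 4) (.nd (nat_lit 5) (.nd (nat_lit 6) 
(.lf (nat_lit 256143) (.g (nat_lit 5378) (.e (nat_lit 171776) (nat_lit 148) (.e (nat_lit 57378) (nat_lit 3) (.e (nat_lit 98373) (nat_lit 29) (.e (nat_lit 450588) (nat_lit 10) (.e (nat_lit 573473) (nat_lit 12) .nil))))) .nil)) 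
(.lf (nat_lit 256207) (.g (nat_lit 947) (.e (nat_lit 164151) (nat_lit 152) (.e (nat_lit 1207) (nat_lit 89) (.e (nat_lit 73729) (nat_lit 0) (.e (nat_lit 7454) (nat_lit 396) .nil)))) .nil))) (.nd (nat_lit 6) 
(.lf (nat_lit 256175) (.g (nat_lit 623) (.e (nat_lit 164148) (nat_lit 152) (.e (nat_lit 1214) (nat_lit 89) (.e (nat_lit 73757) (nat_lit 11) .nil))) .nil)) 
(.lf (nat_lit 256239) (.g (nat_lit 1836) (.e (nat_lit 164155) (nat_lit 152) (.e (nat_lit 1212) (nat_lit 89) (.e (nat_lit 73753) (nat_lit 8) (.e (nat_lit 557094) (nat_lit 12) (.e (nat_lit 164238) (nat_lit 187) .nil))))) .nil)))) (.nd (nat_lit 5) (.nd (nat_lit 6) 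
(.lf (nat_lit 256159) (.g (nat_lit 1762) (.e (nat_lit 164147) (nat_lit 152) (.e (nat_lit 1211) (nat_lit 89) (.e (nat_lit 73755) (nat_lit 8) (.e (nat_lit 557089) (nat_lit 12) (.e (nat_lit 171776) (nat_lit 194) .nil))))) .nil)) 
(.lf (nat_lit 256223) (.g (nat_lit 1593) (.e (nat_lit 164153) (nat_lit 152) (.e (nat_lit 1068) (nat_lit 81) (.e (nat_lit 1659) (nat_lit 115) (.e (nat_lit 393229) (nat_lit 9) (.e (nat_lit 336184) (nat_lit 11) .nil))))) .nil))) (.nd (nat_lit 6) 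
(.lf (nat_lit 256191) (.g (nat_lit 1874) (.e (nat_lit 164150) (nat_lit 152) (.e (nat_lit 1207) (nat_lit 89) (.e (nat_lit 73746) (nat_lit 3) (.e (nat_lit 516174) (nat_lit 14) (.e (nat_lit 466980) (nat_lit 23) (.e (nat_lit 212736) (nat_lit 1) .nil)))))) (.g (nat_lit 5) .nil .nil))) 
(.lf (nat_lit 256255) (.g (nat_lit 2192) (.e (nat_lit 164159) (nat_lit 152) (.e (nat_lit 1183) (nat_lit 87) (.e (nat_lit 57479) (nat_lit 28) (.e (nat_lit 557103) (nat_lit 14) (.e (nat_lit 180250) (nat_lit 10) .nil))))) .nil)))))))))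

noncomputable def tv3322 : DT := (.nd (nat_lit 0) (.nd (nat_lit 1) (.nd (nat_lit 2) (.nd (nat_lit 3) (.nd (nat_lit 4) (.nd (nat_lit 5) (.nd (nat_lit 6) 
(.lf (nat_lit 256256) (.g (nat_lit 2420) (.e (nat_lit 164159) (nat_lit 152) (.e (nat_lit 1183) (nat_lit 87) (.e (nat_lit 57480) (nat_lit 28) (.e (nat_lit 557103) (nat_lit 14) (.e (nat_lit 180250) (nat_lit 10) .nil))))) .nil)) 
(.lf (nat_lit 256320) (.g (nat_lit 2537) (.e (nat_lit 164165) (nat_lit 152) (.e (nat_lit 1181) (nat_lit 87) (.e (nat_lit 57479) (nat_lit 28) (.e (nat_lit 557103) (nat_lit 14) (.e (nat_lit 180250) (nat_lit 10) .nil))))) .nil))) (.nd (nat_lit 6) 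
(.lf (nat_lit 256288) (.g (nat_lit 3846) (.e (nat_lit 164163) (nat_lit 152) (.e (nat_lit 1190) (nat_lit 88) (.e (nat_lit 65627) (nat_lit 13) (.e (nat_lit 393265) (nat_lit 22) (.e (nat_lit 417820) (nat_lit 10) (.e (nat_lit 5626) (nat_lit 312) (.e (nat_lit 2612) (nat_lit 163) .nil))))))) (.g (nat_lit 7) .nil .nil))) 
(.lf (nat_lit 256352) (.g (nat_lit 1008) (.e (nat_lit 164176) (nat_lit 154) (.e (nat_lit 57409) (nat_lit 12) (.e (nat_lit 336454) (nat_lit 34) .nil))) .nil)))) (.nd (nat_lit 5) (.nd (nat_lit 6) 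
(.lf (nat_lit 256272) (.g (nat_lit 3763) (.e (nat_lit 164162) (nat_lit 152) (.e (nat_lit 1198) (nat_lit 88) (.e (nat_lit 65568) (nat_lit 2) (.e (nat_lit 90170) (nat_lit 13) (.e (nat_lit 172106) (nat_lit 10) (.e (nat_lit 434231) (nat_lit 23) (.e (nat_lit 540416) (nat_lit 18) .nil))))))) (.g (nat_lit 6) .nil .nil))) 
(.lf (nat_lit 256336) (.g (nat_lit 1307) (.e (nat_lit 164175) (nat_lit 153) (.e (nat_lit 8194) (nat_lit 0) (.e (nat_lit 5355) (nat_lit 298) (.e (nat_lit 1661) (nat_lit 115) (.e (nat_lit 393260) (nat_lit 21) .nil))))) .nil))) (.nd (nat_lit 6) 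
(.lf (nat_lit 256304) (.g (nat_lit 2261) (.e (nat_lit 164163) (nat_lit 152) (.e (nat_lit 1211) (nat_lit 89) (.e (nat_lit 73755) (nat_lit 8) (.e (nat_lit 557098) (nat_lit 13) (.e (nat_lit 172051) (nat_lit 0) .nil))))) .nil)) 
(.lf (nat_lit 256368) (.g (nat_lit 3928) (.e (nat_lit 164176) (nat_lit 154) (.e (nat_lit 57445) (nat_lit 19) (.e (nat_lit 393229) (nat_lit 9) (.e (nat_lit 336188) (nat_lit 11) .nil)))) .nil))))) (.nd (nat_lit 4) (.nd (nat_lit 5) (.nd (nat_lit 6) 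
(.lf (nat_lit 256264) (.g (nat_lit 2408) (.e (nat_lit 164160) (nat_lit 152) (.e (nat_lit 1296) (nat_lit 96) (.e (nat_lit 131094) (nat_lit 2) (.e (nat_lit 90176) (nat_lit 15) (.e (nat_lit 188450) (nat_lit 23) (.e (nat_lit 212736) (nat_lit 1) .nil)))))) (.g (nat_lit 5) .nil .nil))) 
(.lf (nat_lit 256328) (.g (nat_lit 2531) (.e (nat_lit 164167) (nat_lit 152) (.e (nat_lit 1181) (nat_lit 87) (.e (nat_lit 57479) (nat_lit 28) (.e (nat_lit 557103) (nat_lit 14) (.e (nat_lit 180250) (nat_lit 10) .nil))))) .nil))) (.nd (nat_lit 6) 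
(.lf (nat_lit 256296) (.g (nat_lit 2701) (.e (nat_lit 164163) (nat_lit 152) (.e (nat_lit 1211) (nat_lit 89) (.e (nat_lit 73754) (nat_lit 8) (.e (nat_lit 557100) (nat_lit 13) (.e (nat_lit 172138) (nat_lit 15) .nil))))) .nil)) 
(.lf (nat_lit 256360) (.g (nat_lit 3611) (.e (nat_lit 164176) (nat_lit 154) (.e (nat_lit 57445) (nat_lit 19) (.e (nat_lit 393229) (nat_lit 9) (.e (nat_lit 336078) (nat_lit 9) .nil)))) .nil)))) (.nd (nat_lit 5) (.nd (nat_lit 6) 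
(.lf (nat_lit 256280) (.g (nat_lit 549) (.e (nat_lit 164162) (nat_lit 152) (.e (nat_lit 1220) (nat_lit 90) (.e (nat_lit 81926) (nat_lit 11) .nil))) .nil)) 
(.lf (nat_lit 256344) (.g (nat_lit 1366) (.e (nat_lit 164176) (nat_lit 154) (.e (nat_lit 57406) (nat_lit 12) (.e (nat_lit 336326) (nat_lit 18) (.e (nat_lit 204876) (nat_lit 31) .nil)))) .nil))) (.nd (nat_lit 6) 
(.lf (nat_lit 256312) (.g (nat_lit 1152) (.e (nat_lit 164163) (nat_lit 152) (.e (nat_lit 1221) (nat_lit 90) (.e (nat_lit 81926) (nat_lit 11) (.e (nat_lit 426172) (nat_lit 7) (.e (nat_lit 409644) (nat_lit 18) .nil))))) .nil)) 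
(.lf (nat_lit 256376) (.g (nat_lit 2138) (.e (nat_lit 164177) (nat_lit 154) (.e (nat_lit 57379) (nat_lit 3) (.e (nat_lit 98341) (nat_lit 20) (.e (nat_lit 221214) (nat_lit 23) (.e (nat_lit 204863) (nat_lit 27) .nil))))) .nil)))))) (.nd (nat_lit 3) (.nd (nat_lit 4) (.nd (nat_lit 5) (.nd (nat_lit 6) 
(.lf (nat_lit 256260) (.g (nat_lit 2386) (.e (nat_lit 164159) (nat_lit 152) (.e (nat_lit 1296) (nat_lit 96) (.e (nat_lit 131094) (nat_lit 2) (.e (nat_lit 90176) (nat_lit 15) (.e (nat_lit 188450) (nat_lit 23) (.e (nat_lit 212736) (nat_lit 1) .nil)))))) (.g (nat_lit 5) .nil .nil))) 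
(.lf (nat_lit 256324) (.g (nat_lit 2202) (.e (nat_lit 164166) (nat_lit 152) (.e (nat_lit 1181) (nat_lit 87) (.e (nat_lit 57479) (nat_lit 28) (.e (nat_lit 557105) (nat_lit 14) (.e (nat_lit 180252) (nat_lit 10) .nil))))) .nil))) (.nd (nat_lit 6) 
(.lf (nat_lit 256292) (.g (nat_lit 2291) (.e (nat_lit 164163) (nat_lit 152) (.e (nat_lit 1209) (nat_lit 89) (.e (nat_lit 73753) (nat_lit 8) (.e (nat_lit 557091) (nat_lit 12) (.e (nat_lit 164238) (nat_lit 187) .nil))))) .nil)) 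
(.lf (nat_lit 256356) (.g (nat_lit 1618) (.e (nat_lit 164176) (nat_lit 154) (.e (nat_lit 57412) (nat_lit 12) (.e (nat_lit 336389) (nat_lit 27) (.e (nat_lit 426523) (nat_lit 27) .nil)))) .nil)))) (.nd (nat_lit 5) (.nd (nat_lit 6) 
(.lf (nat_lit 256276) (.g (nat_lit 3348) (.e (nat_lit 164162) (nat_lit 152) (.e (nat_lit 1209) (nat_lit 89) (.e (nat_lit 73753) (nat_lit 8) (.e (nat_lit 557090) (nat_lit 12) (.e (nat_lit 164238) (nat_lit 187) .nil))))) .nil)) 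
(.lf (nat_lit 256340) (.g (nat_lit 2329) (.e (nat_lit 164176) (nat_lit 154) (.e (nat_lit 57379) (nat_lit 3) (.e (nat_lit 98341) (nat_lit 20) (.e (nat_lit 221215) (nat_lit 23) (.e (nat_lit 204862) (nat_lit 27) .nil))))) .nil))) (.nd (nat_lit 6) 
(.lf (nat_lit 256308) (.g (nat_lit 1527) (.e (nat_lit 164163) (nat_lit 152) (.e (nat_lit 1220) (nat_lit 90) (.e (nat_lit 81926) (nat_lit 11) (.e (nat_lit 426172) (nat_lit 7) (.e (nat_lit 409623) (nat_lit 10) .nil))))) .nil)) 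
(.lf (nat_lit 256372) (.g (nat_lit 1189) (.e (nat_lit 164177) (nat_lit 154) (.e (nat_lit 57374) (nat_lit 2) (.e (nat_lit 90165) (nat_lit 12) (.e (nat_lit 171776) (nat_lit 48) .nil)))) .nil))))) (.nd (nat_lit 4) (.nd (nat_lit 5) (.nd (nat_lit 6) 
(.lf (nat_lit 256268) (.g (nat_lit 1302) (.e (nat_lit 164160) (nat_lit 152) (.e (nat_lit 1296) (nat_lit 96) (.e (nat_lit 131127) (nat_lit 13) (.e (nat_lit 393260) (nat_lit 21) (.e (nat_lit 409643) (nat_lit 18) .nil))))) .nil)) 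
(.lf (nat_lit 256332) (.g (nat_lit 2088) (.e (nat_lit 164170) (nat_lit 152) (.e (nat_lit 1179) (nat_lit 87) (.e (nat_lit 57480) (nat_lit 28) (.e (nat_lit 557105) (nat_lit 14) (.e (nat_lit 180252) (nat_lit 10) .nil))))) .nil))) (.nd (nat_lit 6) 
(.lf (nat_lit 256300) (.g (nat_lit 2563) (.e (nat_lit 164163) (nat_lit 152) (.e (nat_lit 1211) (nat_lit 89) (.e (nat_lit 73755) (nat_lit 8) (.e (nat_lit 557090) (nat_lit 12) (.e (nat_lit 171776) (nat_lit 194) .nil))))) .nil)) 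
(.lf (nat_lit 256364) (.g (nat_lit 4094) (.e (nat_lit 164176) (nat_lit 154) (.e (nat_lit 57445) (nat_lit 19) (.e (nat_lit 393229) (nat_lit 9) (.e (nat_lit 336165) (nat_lit 10) .nil)))) .nil)))) (.nd (nat_lit 5) (.nd (nat_lit 6) 
(.lf (nat_lit 256284) (.g (nat_lit 960) (.e (nat_lit 164163) (nat_lit 152) (.e (nat_lit 1190) (nat_lit 88) (.e (nat_lit 65571) (nat_lit 3) (.e (nat_lit 98372) (nat_lit 29) .nil)))) .nil)) 
(.lf (nat_lit 256348) (.g (nat_lit 948) (.e (nat_lit 164176) (nat_lit 154) (.e (nat_lit 57407) (nat_lit 12) (.e (nat_lit 336316) (nat_lit 17) .nil))) .nil))) (.nd (nat_lit 6) 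
(.lf (nat_lit 256316) (.g (nat_lit 3085) (.e (nat_lit 164164) (nat_lit 152) (.e (nat_lit 1181) (nat_lit 87) (.e (nat_lit 57480) (nat_lit 28) (.e (nat_lit 557105) (nat_lit 14) (.e (nat_lit 180251) (nat_lit 10) .nil))))) .nil)) 
(.lf (nat_lit 256380) (.g (nat_lit 3015) (.e (nat_lit 164177) (nat_lit 154) (.e (nat_lit 57404) (nat_lit 12) (.e (nat_lit 336013) (nat_lit 2) (.e (nat_lit 90170) (nat_lit 13) (.e (nat_lit 172106) (nat_lit 10) (.e (nat_lit 434231) (nat_lit 23) (.e (nat_lit 540416) (nat_lit 18) .nil))))))) (.g (nat_lit 6) .nil .nil)))))))) 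
(.nd (nat_lit 2) (.nd (nat_lit 3) (.nd (nat_lit 4) (.nd (nat_lit 5) (.nd (nat_lit 6) 
(.lf (nat_lit 256258) (.g (nat_lit 597) (.e (nat_lit 164159) (nat_lit 152) (.e (nat_lit 1201) (nat_lit 88) (.e (nat_lit 65578) (nat_lit 6) .nil))) .nil)) 
(.lf (nat_lit 256322) (.g (nat_lit 2530) (.e (nat_lit 164166) (nat_lit 152) (.e (nat_lit 1181) (nat_lit 87) (.e (nat_lit 57479) (nat_lit 28) (.e (nat_lit 557103) (nat_lit 14) (.e (nat_lit 180250) (nat_lit 10) .nil))))) .nil))) (.nd (nat_lit 6) 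
(.lf (nat_lit 256290) (.g (nat_lit 2120) (.e (nat_lit 164163) (nat_lit 152) (.e (nat_lit 1209) (nat_lit 89) (.e (nat_lit 73753) (nat_lit 8) (.e (nat_lit 557089) (nat_lit 12) (.e (nat_lit 171776) (nat_lit 194) .nil))))) .nil)) 
(.lf (nat_lit 256354) (.g (nat_lit 1633) (.e (nat_lit 164176) (nat_lit 154) (.e (nat_lit 57412) (nat_lit 12) (.e (nat_lit 336389) (nat_lit 27) (.e (nat_lit 426500) (nat_lit 27) .nil)))) .nil)))) (.nd (nat_lit 5) (.nd (nat_lit 6) 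
(.lf (nat_lit 256274) (.g (nat_lit 736) (.e (nat_lit 164162) (nat_lit 152) (.e (nat_lit 1209) (nat_lit 89) (.e (nat_lit 73753) (nat_lit 8) .nil))) .nil)) 
(.lf (nat_lit 256338) (.g (nat_lit 1511) (.e (nat_lit 164176) (nat_lit 154) (.e (nat_lit 57377) (nat_lit 3) (.e (nat_lit 98342) (nat_lit 20) (.e (nat_lit 221215) (nat_lit 23) .nil)))) .nil))) (.nd (nat_lit 6) 
(.lf (nat_lit 256306) (.g (nat_lit 2169) (.e (nat_lit 164163) (nat_lit 152) (.e (nat_lit 1211) (nat_lit 89) (.e (nat_lit 73755) (nat_lit 8) (.e (nat_lit 557104) (nat_lit 14) (.e (nat_lit 180229) (nat_lit 0) (.e (nat_lit 5548) (nat_lit 306) (.e (nat_lit 2619) (nat_lit 164) (.e (nat_lit 172061) (nat_lit 1) .nil)))))))) (.g (nat_lit 4) .nil .nil))) 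
(.lf (nat_lit 256370) (.g (nat_lit 1049) (.e (nat_lit 164176) (nat_lit 154) (.e (nat_lit 57448) (nat_lit 19) (.e (nat_lit 393221) (nat_lit 0) (.e (nat_lit 7936) (nat_lit 348) .nil)))) .nil))))) (.nd (nat_lit 4) (.nd (nat_lit 5) (.nd (nat_lit 6) 
(.lf (nat_lit 256266) (.g (nat_lit 1658) (.e (nat_lit 164160) (nat_lit 152) (.e (nat_lit 1296) (nat_lit 96) (.e (nat_lit 131126) (nat_lit 13) (.e (nat_lit 393260) (nat_lit 21) (.e (nat_lit 409649) (nat_lit 18) .nil))))) .nil)) 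
(.lf (nat_lit 256330) (.g (nat_lit 2838) (.e (nat_lit 164167) (nat_lit 152) (.e (nat_lit 1181) (nat_lit 87) (.e (nat_lit 57480) (nat_lit 28) (.e (nat_lit 557105) (nat_lit 14) (.e (nat_lit 180252) (nat_lit 10) .nil))))) .nil))) (.nd (nat_lit 6) 
(.lf (nat_lit 256298) (.g (nat_lit 2005) (.e (nat_lit 164163) (nat_lit 152) (.e (nat_lit 1211) (nat_lit 89) (.e (nat_lit 73755) (nat_lit 8) (.e (nat_lit 557068) (nat_lit 9) (.e (nat_lit 3104) (nat_lit 192) .nil))))) .nil)) 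
(.lf (nat_lit 256362) (.g (nat_lit 2692) (.e (nat_lit 164176) (nat_lit 154) (.e (nat_lit 57445) (nat_lit 19) (.e (nat_lit 393229) (nat_lit 9) (.e (nat_lit 336086) (nat_lit 9) .nil)))) .nil)))) (.nd (nat_lit 5) (.nd (nat_lit 6) 
(.lf (nat_lit 256282) (.g (nat_lit 2284) (.e (nat_lit 164162) (nat_lit 152) (.e (nat_lit 1220) (nat_lit 90) (.e (nat_lit 81965) (nat_lit 26) (.e (nat_lit 147494) (nat_lit 11) (.e (nat_lit 24665) (nat_lit 14) .nil))))) .nil)) 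
(.lf (nat_lit 256346) (.g (nat_lit 2777) (.e (nat_lit 164176) (nat_lit 154) (.e (nat_lit 57406) (nat_lit 12) (.e (nat_lit 336454) (nat_lit 34) (.e (nat_lit 483383) (nat_lit 23) .nil)))) .nil))) (.nd (nat_lit 6) 
(.lf (nat_lit 256314) (.g (nat_lit 2528) (.e (nat_lit 164164) (nat_lit 152) (.e (nat_lit 1181) (nat_lit 87) (.e (nat_lit 57479) (nat_lit 28) (.e (nat_lit 557103) (nat_lit 14) (.e (nat_lit 180250) (nat_lit 10) .nil))))) .nil)) 
(.lf (nat_lit 256378) (.g (nat_lit 1442) (.e (nat_lit 164177) (nat_lit 154) (.e (nat_lit 57379) (nat_lit 3) (.e (nat_lit 98342) (nat_lit 20) (.e (nat_lit 221215) (nat_lit 23) .nil)))) .nil)))))) (.nd (nat_lit 3) (.nd (nat_lit 4) (.nd (nat_lit 5) (.nd (nat_lit 6) 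
(.lf (nat_lit 256262) (.g (nat_lit 1819) (.e (nat_lit 164159) (nat_lit 152) (.e (nat_lit 1296) (nat_lit 96) (.e (nat_lit 131127) (nat_lit 13) (.e (nat_lit 393260) (nat_lit 21) (.e (nat_lit 409650) (nat_lit 19) .nil))))) .nil)) 
(.lf (nat_lit 256326) (.g (nat_lit 2144) (.e (nat_lit 164166) (nat_lit 152) (.e (nat_lit 1182) (nat_lit 87) (.e (nat_lit 57479) (nat_lit 28) (.e (nat_lit 557103) (nat_lit 14) (.e (nat_lit 180250) (nat_lit 10) .nil))))) .nil))) (.nd (nat_lit 6) 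
(.lf (nat_lit 256294) (.g (nat_lit 2792) (.e (nat_lit 164163) (nat_lit 152) (.e (nat_lit 1211) (nat_lit 89) (.e (nat_lit 73754) (nat_lit 8) (.e (nat_lit 557091) (nat_lit 12) (.e (nat_lit 164238) (nat_lit 187) .nil))))) .nil)) 
(.lf (nat_lit 256358) (.g (nat_lit 764) (.e (nat_lit 164176) (nat_lit 154) (.e (nat_lit 57419) (nat_lit 12) (.e (nat_lit 336222) (nat_lit 13) (.e (nat_lit 393259) (nat_lit 21) .nil)))) .nil)))) (.nd (nat_lit 5) (.nd (nat_lit 6) 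
(.lf (nat_lit 256278) (.g (nat_lit 1855) (.e (nat_lit 164162) (nat_lit 152) (.e (nat_lit 1209) (nat_lit 89) (.e (nat_lit 73754) (nat_lit 8) (.e (nat_lit 557094) (nat_lit 12) (.e (nat_lit 164238) (nat_lit 187) .nil))))) .nil)) 
(.lf (nat_lit 256342) (.g (nat_lit 2854) (.e (nat_lit 164176) (nat_lit 154) (.e (nat_lit 57404) (nat_lit 12) (.e (nat_lit 336013) (nat_lit 2) (.e (nat_lit 90170) (nat_lit 13) (.e (nat_lit 172106) (nat_lit 10) (.e (nat_lit 434231) (nat_lit 23) (.e (nat_lit 540416) (nat_lit 18) .nil))))))) (.g (nat_lit 6) .nil .nil)))) (.nd (nat_lit 6) 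
(.lf (nat_lit 256310) (.g (nat_lit 1588) (.e (nat_lit 164163) (nat_lit 152) (.e (nat_lit 1220) (nat_lit 90) (.e (nat_lit 81965) (nat_lit 26) (.e (nat_lit 147492) (nat_lit 11) (.e (nat_lit 24664) (nat_lit 14) .nil))))) .nil)) 
(.lf (nat_lit 256374) (.g (nat_lit 2645) (.e (nat_lit 164177) (nat_lit 154) (.e (nat_lit 57379) (nat_lit 3) (.e (nat_lit 98334) (nat_lit 18) (.e (nat_lit 164332) (nat_lit 230) (.e (nat_lit 163927) (nat_lit 16) .nil))))) .nil))))) (.nd (nat_lit 4) (.nd (nat_lit 5) (.nd (nat_lit 6) 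
(.lf (nat_lit 256270) (.g (nat_lit 1911) (.e (nat_lit 164161) (nat_lit 152) (.e (nat_lit 7936) (nat_lit 96) (.e (nat_lit 131127) (nat_lit 13) (.e (nat_lit 393260) (nat_lit 21) (.e (nat_lit 409623) (nat_lit 10) (.e (nat_lit 5664) (nat_lit 312) (.e (nat_lit 2605) (nat_lit 163) .nil))))))) (.g (nat_lit 6) .nil .nil))) 
(.lf (nat_lit 256334) (.g (nat_lit 2885) (.e (nat_lit 164173) (nat_lit 153) (.e (nat_lit 8193) (nat_lit 0) (.e (nat_lit 5355) (nat_lit 298) (.e (nat_lit 1661) (nat_lit 115) (.e (nat_lit 393260) (nat_lit 21) (.e (nat_lit 409648) (nat_lit 18) (.e (nat_lit 303114) (nat_lit 1) .nil))))))) (.g (nat_lit 7) .nil .nil)))) (.nd (nat_lit 6) 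
(.lf (nat_lit 256302) (.g (nat_lit 1830) (.e (nat_lit 164163) (nat_lit 152) (.e (nat_lit 1211) (nat_lit 89) (.e (nat_lit 73755) (nat_lit 8) (.e (nat_lit 557091) (nat_lit 12) (.e (nat_lit 171776) (nat_lit 194) .nil))))) .nil)) 
(.lf (nat_lit 256366) (.g (nat_lit 1499) (.e (nat_lit 164176) (nat_lit 154) (.e (nat_lit 57445) (nat_lit 19) (.e (nat_lit 393229) (nat_lit 9) (.e (nat_lit 336184) (nat_lit 11) .nil)))) .nil)))) (.nd (nat_lit 5) (.nd (nat_lit 6) 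
(.lf (nat_lit 256286) (.g (nat_lit 1700) (.e (nat_lit 164163) (nat_lit 152) (.e (nat_lit 1190) (nat_lit 88) (.e (nat_lit 65627) (nat_lit 13) (.e (nat_lit 393259) (nat_lit 21) (.e (nat_lit 409645) (nat_lit 18) .nil))))) .nil)) 
(.lf (nat_lit 256350) (.g (nat_lit 658) (.e (nat_lit 164176) (nat_lit 154) (.e (nat_lit 57409) (nat_lit 12) (.e (nat_lit 336414) (nat_lit 27) .nil))) .nil))) (.nd (nat_lit 6) 
(.lf (nat_lit 256318) (.g (nat_lit 2242) (.e (nat_lit 164164) (nat_lit 152) (.e (nat_lit 1182) (nat_lit 87) (.e (nat_lit 57479) (nat_lit 28) (.e (nat_lit 557103) (nat_lit 14) (.e (nat_lit 180250) (nat_lit 10) .nil))))) .nil)) 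
(.lf (nat_lit 256382) (.g (nat_lit 1623) (.e (nat_lit 164177) (nat_lit 154) (.e (nat_lit 57406) (nat_lit 12) (.e (nat_lit 336322) (nat_lit 18) (.e (nat_lit 204861) (nat_lit 26) (.e (nat_lit 336222) (nat_lit 13) .nil))))) .nil)))))))) (.nd (nat_lit 1) (.nd (nat_lit 2) (.nd (nat_lit 3) (.nd (nat_lit 4) (.nd (nat_lit 5) (.nd (nat_lit 6) 
(.lf (nat_lit 256257) (.g (nat_lit 1040) (.e (nat_lit 164159) (nat_lit 152) (.e (nat_lit 1201) (nat_lit 88) (.e (nat_lit 65563) (nat_lit 1) (.e (nat_lit 57696) (nat_lit 158) .nil)))) .nil)) 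
(.lf (nat_lit 256321) (.g (nat_lit 2226) (.e (nat_lit 164165) (nat_lit 152) (.e (nat_lit 1181) (nat_lit 87) (.e (nat_lit 57479) (nat_lit 28) (.e (nat_lit 557105) (nat_lit 14) (.e (nat_lit 180252) (nat_lit 10) .nil))))) .nil))) (.nd (nat_lit 6) 
(.lf (nat_lit 256289) (.g (nat_lit 737) (.e (nat_lit 164163) (nat_lit 152) (.e (nat_lit 1209) (nat_lit 89) (.e (nat_lit 73753) (nat_lit 8) .nil))) .nil)) 
(.lf (nat_lit 256353) (.g (nat_lit 2319) (.e (nat_lit 164176) (nat_lit 154) (.e (nat_lit 57411) (nat_lit 12) (.e (nat_lit 336326) (nat_lit 18) (.e (nat_lit 204854) (nat_lit 26) (.e (nat_lit 336211) (nat_lit 13) .nil))))) .nil)))) (.nd (nat_lit 5) (.nd (nat_lit 6) 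
(.lf (nat_lit 256273) (.g (nat_lit 906) (.e (nat_lit 164162) (nat_lit 152) (.e (nat_lit 1198) (nat_lit 88) (.e (nat_lit 65571) (nat_lit 3) (.e (nat_lit 98372) (nat_lit 29) .nil)))) .nil)) 
(.lf (nat_lit 256337) (.g (nat_lit 2034) (.e (nat_lit 164175) (nat_lit 153) (.e (nat_lit 8210) (nat_lit 8) (.e (nat_lit 294960) (nat_lit 13) (.e (nat_lit 393260) (nat_lit 21) (.e (nat_lit 409623) (nat_lit 10) (.e (nat_lit 5664) (nat_lit 312) (.e (nat_lit 2605) (nat_lit 163) .nil))))))) (.g (nat_lit 0) .nil .nil)))) (.nd (nat_lit 6) 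
(.lf (nat_lit 256305) (.g (nat_lit 2275) (.e (nat_lit 164163) (nat_lit 152) (.e (nat_lit 1211) (nat_lit 89) (.e (nat_lit 73755) (nat_lit 8) (.e (nat_lit 557098) (nat_lit 13) (.e (nat_lit 172136) (nat_lit 15) .nil))))) .nil)) 
(.lf (nat_lit 256369) (.g (nat_lit 1829) (.e (nat_lit 164176) (nat_lit 154) (.e (nat_lit 57447) (nat_lit 19) (.e (nat_lit 393229) (nat_lit 9) (.e (nat_lit 336086) (nat_lit 9) .nil)))) .nil))))) (.nd (nat_lit 4) (.nd (nat_lit 5) (.nd (nat_lit 6) 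
(.lf (nat_lit 256265) (.g (nat_lit 927) (.e (nat_lit 164160) (nat_lit 152) (.e (nat_lit 1296) (nat_lit 96) (.e (nat_lit 131125) (nat_lit 13) (.e (nat_lit 393260) (nat_lit 21) .nil)))) .nil)) 
(.lf (nat_lit 256329) (.g (nat_lit 2208) (.e (nat_lit 164167) (nat_lit 152) (.e (nat_lit 1181) (nat_lit 87) (.e (nat_lit 57479) (nat_lit 28) (.e (nat_lit 557105) (nat_lit 14) (.e (nat_lit 180252) (nat_lit 10) .nil))))) .nil))) (.nd (nat_lit 6) 
(.lf (nat_lit 256297) (.g (nat_lit 1556) (.e (nat_lit 164163) (nat_lit 152) (.e (nat_lit 1211) (nat_lit 89) (.e (nat_lit 73754) (nat_lit 8) (.e (nat_lit 557101) (nat_lit 13) (.e (nat_lit 172051) (nat_lit 0) .nil))))) .nil)) 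
(.lf (nat_lit 256361) (.g (nat_lit 3153) (.e (nat_lit 164176) (nat_lit 154) (.e (nat_lit 57445) (nat_lit 19) (.e (nat_lit 393229) (nat_lit 9) (.e (nat_lit 336085) (nat_lit 9) .nil)))) .nil)))) (.nd (nat_lit 5) (.nd (nat_lit 6) 
(.lf (nat_lit 256281) (.g (nat_lit 1348) (.e (nat_lit 164162) (nat_lit 152) (.e (nat_lit 1220) (nat_lit 90) (.e (nat_lit 81965) (nat_lit 26) (.e (nat_lit 147492) (nat_lit 11) .nil)))) .nil)) 
(.lf (nat_lit 256345) (.g (nat_lit 1373) (.e (nat_lit 164176) (nat_lit 154) (.e (nat_lit 57406) (nat_lit 12) (.e (nat_lit 336326) (nat_lit 18) (.e (nat_lit 204877) (nat_lit 31) .nil)))) .nil))) (.nd (nat_lit 6) 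
(.lf (nat_lit 256313) (.g (nat_lit 3406) (.e (nat_lit 164163) (nat_lit 152) (.e (nat_lit 1221) (nat_lit 90) (.e (nat_lit 81965) (nat_lit 26) (.e (nat_lit 147492) (nat_lit 11) (.e (nat_lit 24662) (nat_lit 14) (.e (nat_lit 401422) (nat_lit 1) .nil)))))) (.g (nat_lit 6) .nil .nil))) 
(.lf (nat_lit 256377) (.g (nat_lit 1433) (.e (nat_lit 164177) (nat_lit 154) (.e (nat_lit 57379) (nat_lit 3) (.e (nat_lit 98341) (nat_lit 20) (.e (nat_lit 221215) (nat_lit 23) .nil)))) .nil)))))) (.nd (nat_lit 3) (.nd (nat_lit 4) (.nd (nat_lit 5) (.nd (nat_lit 6) 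
(.lf (nat_lit 256261) (.g (nat_lit 462) (.e (nat_lit 164159) (nat_lit 152) (.e (nat_lit 1296) (nat_lit 96) (.e (nat_lit 131125) (nat_lit 13) .nil))) .nil)) 
(.lf (nat_lit 256325) (.g (nat_lit 2841) (.e (nat_lit 164166) (nat_lit 152) (.e (nat_lit 1181) (nat_lit 87) (.e (nat_lit 57480) (nat_lit 28) (.e (nat_lit 557105) (nat_lit 14) (.e (nat_lit 180252) (nat_lit 10) .nil))))) .nil))) (.nd (nat_lit 6) 
(.lf (nat_lit 256293) (.g (nat_lit 1542) (.e (nat_lit 164163) (nat_lit 152) (.e (nat_lit 1209) (nat_lit 89) (.e (nat_lit 73753) (nat_lit 8) (.e (nat_lit 557094) (nat_lit 12) .nil)))) .nil)) 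
(.lf (nat_lit 256357) (.g (nat_lit 1575) (.e (nat_lit 164176) (nat_lit 154) (.e (nat_lit 57412) (nat_lit 12) (.e (nat_lit 336389) (nat_lit 27) (.e (nat_lit 433920) (nat_lit 30) .nil)))) .nil)))) (.nd (nat_lit 5) (.nd (nat_lit 6) 
(.lf (nat_lit 256277) (.g (nat_lit 1478) (.e (nat_lit 164162) (nat_lit 152) (.e (nat_lit 1209) (nat_lit 89) (.e (nat_lit 73754) (nat_lit 8) (.e (nat_lit 557093) (nat_lit 12) .nil)))) .nil)) 
(.lf (nat_lit 256341) (.g (nat_lit 579) (.e (nat_lit 164176) (nat_lit 154) (.e (nat_lit 57388) (nat_lit 5) (.e (nat_lit 114696) (nat_lit 11) .nil))) .nil))) (.nd (nat_lit 6) 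
(.lf (nat_lit 256309) (.g (nat_lit 522) (.e (nat_lit 164163) (nat_lit 152) (.e (nat_lit 1220) (nat_lit 90) (.e (nat_lit 81965) (nat_lit 26) .nil))) .nil)) 
(.lf (nat_lit 256373) (.g (nat_lit 2946) (.e (nat_lit 164177) (nat_lit 154) (.e (nat_lit 57379) (nat_lit 3) (.e (nat_lit 98334) (nat_lit 18) (.e (nat_lit 164330) (nat_lit 230) (.e (nat_lit 163927) (nat_lit 16) .nil))))) .nil))))) (.nd (nat_lit 4) (.nd (nat_lit 5) (.nd (nat_lit 6) 
(.lf (nat_lit 256269) (.g (nat_lit 1302) (.e (nat_lit 164160) (nat_lit 152) (.e (nat_lit 1296) (nat_lit 96) (.e (nat_lit 131127) (nat_lit 13) (.e (nat_lit 393260) (nat_lit 21) (.e (nat_lit 409644) (nat_lit 18) .nil))))) .nil)) 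
(.lf (nat_lit 256333) (.g (nat_lit 3364) (.e (nat_lit 164172) (nat_lit 153) (.e (nat_lit 8192) (nat_lit 0) (.e (nat_lit 5355) (nat_lit 298) (.e (nat_lit 1661) (nat_lit 115) (.e (nat_lit 393260) (nat_lit 21) (.e (nat_lit 409649) (nat_lit 18) (.e (nat_lit 303115) (nat_lit 1) .nil))))))) (.g (nat_lit 7) .nil .nil)))) (.nd (nat_lit 6) 
(.lf (nat_lit 256301) (.g (nat_lit 1743) (.e (nat_lit 164163) (nat_lit 152) (.e (nat_lit 1211) (nat_lit 89) (.e (nat_lit 73755) (nat_lit 8) (.e (nat_lit 557091) (nat_lit 12) (.e (nat_lit 164238) (nat_lit 187) .nil))))) .nil)) 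
(.lf (nat_lit 256365) (.g (nat_lit 4003) (.e (nat_lit 164176) (nat_lit 154) (.e (nat_lit 57445) (nat_lit 19) (.e (nat_lit 393229) (nat_lit 9) (.e (nat_lit 336183) (nat_lit 11) .nil)))) .nil)))) (.nd (nat_lit 5) (.nd (nat_lit 6) 
(.lf (nat_lit 256285) (.g (nat_lit 564) (.e (nat_lit 164163) (nat_lit 152) (.e (nat_lit 1190) (nat_lit 88) (.e (nat_lit 65626) (nat_lit 13) .nil))) .nil)) 
(.lf (nat_lit 256349) (.g (nat_lit 1703) (.e (nat_lit 164176) (nat_lit 154) (.e (nat_lit 57407) (nat_lit 12) (.e (nat_lit 336326) (nat_lit 18) (.e (nat_lit 204877) (nat_lit 31) (.e (nat_lit 376842) (nat_lit 11) .nil))))) .nil))) (.nd (nat_lit 6) 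
(.lf (nat_lit 256317) (.g (nat_lit 2841) (.e (nat_lit 164164) (nat_lit 152) (.e (nat_lit 1181) (nat_lit 87) (.e (nat_lit 57480) (nat_lit 28) (.e (nat_lit 557105) (nat_lit 14) (.e (nat_lit 180252) (nat_lit 10) .nil))))) .nil)) 
(.lf (nat_lit 256381) (.g (nat_lit 730) (.e (nat_lit 164177) (nat_lit 154) (.e (nat_lit 57406) (nat_lit 12) (.e (nat_lit 336322) (nat_lit 18) .nil))) .nil))))))) (.nd (nat_lit 2) (.nd (nat_lit 3) (.nd (nat_lit 4) (.nd (nat_lit 5) (.nd (nat_lit 6) 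
(.lf (nat_lit 256259) (.g (nat_lit 743) (.e (nat_lit 164159) (nat_lit 152) (.e (nat_lit 1296) (nat_lit 96) (.e (nat_lit 131077) (nat_lit 0) .nil))) .nil)) 
(.lf (nat_lit 256323) (.g (nat_lit 2245) (.e (nat_lit 164166) (nat_lit 152) (.e (nat_lit 1181) (nat_lit 87) (.e (nat_lit 57479) (nat_lit 28) (.e (nat_lit 557105) (nat_lit 14) (.e (nat_lit 180251) (nat_lit 10) .nil))))) .nil))) (.nd (nat_lit 6) 
(.lf (nat_lit 256291) (.g (nat_lit 3348) (.e (nat_lit 164163) (nat_lit 152) (.e (nat_lit 1209) (nat_lit 89) (.e (nat_lit 73753) (nat_lit 8) (.e (nat_lit 557090) (nat_lit 12) (.e (nat_lit 164238) (nat_lit 187) .nil))))) .nil)) 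
(.lf (nat_lit 256355) (.g (nat_lit 1624) (.e (nat_lit 164176) (nat_lit 154) (.e (nat_lit 57412) (nat_lit 12) (.e (nat_lit 336389) (nat_lit 27) (.e (nat_lit 426521) (nat_lit 27) .nil)))) .nil)))) (.nd (nat_lit 5) (.nd (nat_lit 6) 
(.lf (nat_lit 256275) (.g (nat_lit 2119) (.e (nat_lit 164162) (nat_lit 152) (.e (nat_lit 1209) (nat_lit 89) (.e (nat_lit 73753) (nat_lit 8) (.e (nat_lit 557089) (nat_lit 12) (.e (nat_lit 171776) (nat_lit 194) .nil))))) .nil)) 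
(.lf (nat_lit 256339) (.g (nat_lit 1523) (.e (nat_lit 164176) (nat_lit 154) (.e (nat_lit 57378) (nat_lit 3) (.e (nat_lit 98342) (nat_lit 20) (.e (nat_lit 221211) (nat_lit 22) .nil)))) .nil))) (.nd (nat_lit 6) 
(.lf (nat_lit 256307) (.g (nat_lit 1777) (.e (nat_lit 164163) (nat_lit 152) (.e (nat_lit 1211) (nat_lit 89) (.e (nat_lit 73755) (nat_lit 8) (.e (nat_lit 557104) (nat_lit 14) (.e (nat_lit 180233) (nat_lit 0) .nil))))) .nil)) 
(.lf (nat_lit 256371) (.g (nat_lit 1645) (.e (nat_lit 164176) (nat_lit 154) (.e (nat_lit 57448) (nat_lit 19) (.e (nat_lit 393225) (nat_lit 9) (.e (nat_lit 336087) (nat_lit 9) (.e (nat_lit 336019) (nat_lit 3) .nil))))) .nil))))) (.nd (nat_lit 4) (.nd (nat_lit 5) (.nd (nat_lit 6) 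
(.lf (nat_lit 256267) (.g (nat_lit 2186) (.e (nat_lit 164160) (nat_lit 152) (.e (nat_lit 1296) (nat_lit 96) (.e (nat_lit 131127) (nat_lit 13) (.e (nat_lit 393260) (nat_lit 21) (.e (nat_lit 409623) (nat_lit 10) (.e (nat_lit 5664) (nat_lit 312) (.e (nat_lit 2605) (nat_lit 163) .nil))))))) (.g (nat_lit 6) .nil .nil))) 
(.lf (nat_lit 256331) (.g (nat_lit 2231) (.e (nat_lit 164167) (nat_lit 152) (.e (nat_lit 1182) (nat_lit 87) (.e (nat_lit 57479) (nat_lit 28) (.e (nat_lit 557103) (nat_lit 14) (.e (nat_lit 180250) (nat_lit 10) .nil))))) .nil))) (.nd (nat_lit 6) 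
(.lf (nat_lit 256299) (.g (nat_lit 2555) (.e (nat_lit 164163) (nat_lit 152) (.e (nat_lit 1211) (nat_lit 89) (.e (nat_lit 73755) (nat_lit 8) (.e (nat_lit 557090) (nat_lit 12) (.e (nat_lit 164238) (nat_lit 187) .nil))))) .nil)) 
(.lf (nat_lit 256363) (.g (nat_lit 3877) (.e (nat_lit 164176) (nat_lit 154) (.e (nat_lit 57445) (nat_lit 19) (.e (nat_lit 393229) (nat_lit 9) (.e (nat_lit 336163) (nat_lit 10) .nil)))) .nil)))) (.nd (nat_lit 5) (.nd (nat_lit 6) 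
(.lf (nat_lit 256283) (.g (nat_lit 2838) (.e (nat_lit 164163) (nat_lit 152) (.e (nat_lit 1181) (nat_lit 87) (.e (nat_lit 57480) (nat_lit 28) (.e (nat_lit 557105) (nat_lit 14) (.e (nat_lit 180252) (nat_lit 10) .nil))))) .nil)) 
(.lf (nat_lit 256347) (.g (nat_lit 1616) (.e (nat_lit 164176) (nat_lit 154) (.e (nat_lit 57406) (nat_lit 12) (.e (nat_lit 336456) (nat_lit 34) (.e (nat_lit 483396) (nat_lit 24) .nil)))) .nil))) (.nd (nat_lit 6) 
(.lf (nat_lit 256315) (.g (nat_lit 2805) (.e (nat_lit 164164) (nat_lit 152) (.e (nat_lit 1181) (nat_lit 87) (.e (nat_lit 57480) (nat_lit 28) (.e (nat_lit 557103) (nat_lit 14) (.e (nat_lit 180250) (nat_lit 10) .nil))))) .nil)) 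
(.lf (nat_lit 256379) (.g (nat_lit 1759) (.e (nat_lit 164177) (nat_lit 154) (.e (nat_lit 57389) (nat_lit 5) (.e (nat_lit 114698) (nat_lit 11) (.e (nat_lit 426011) (nat_lit 0) .nil)))) .nil)))))) (.nd (nat_lit 3) (.nd (nat_lit 4) (.nd (nat_lit 5) (.nd (nat_lit 6) 
(.lf (nat_lit 256263) (.g (nat_lit 2588) (.e (nat_lit 164160) (nat_lit 152) (.e (nat_lit 1296) (nat_lit 96) (.e (nat_lit 131091) (nat_lit 2) (.e (nat_lit 90176) (nat_lit 15) (.e (nat_lit 188450) (nat_lit 23) (.e (nat_lit 212736) (nat_lit 1) .nil)))))) (.g (nat_lit 5) .nil .nil))) 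
(.lf (nat_lit 256327) (.g (nat_lit 879) (.e (nat_lit 164166) (nat_lit 152) (.e (nat_lit 1199) (nat_lit 88) (.e (nat_lit 65580) (nat_lit 6) (.e (nat_lit 155392) (nat_lit 0) .nil)))) .nil))) (.nd (nat_lit 6) 
(.lf (nat_lit 256295) (.g (nat_lit 1054) (.e (nat_lit 164163) (nat_lit 152) (.e (nat_lit 1211) (nat_lit 89) (.e (nat_lit 73754) (nat_lit 8) (.e (nat_lit 557095) (nat_lit 13) .nil)))) .nil)) 
(.lf (nat_lit 256359) (.g (nat_lit 1609) (.e (nat_lit 164176) (nat_lit 154) (.e (nat_lit 57424) (nat_lit 14) (.e (nat_lit 352324) (nat_lit 26) (.e (nat_lit 147494) (nat_lit 11) .nil)))) .nil)))) (.nd (nat_lit 5) (.nd (nat_lit 6) 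
(.lf (nat_lit 256279) (.g (nat_lit 2030) (.e (nat_lit 164162) (nat_lit 152) (.e (nat_lit 1209) (nat_lit 89) (.e (nat_lit 73755) (nat_lit 8) (.e (nat_lit 557091) (nat_lit 12) (.e (nat_lit 164238) (nat_lit 187) .nil))))) .nil)) 
(.lf (nat_lit 256343) (.g (nat_lit 756) (.e (nat_lit 164176) (nat_lit 154) (.e (nat_lit 57406) (nat_lit 12) (.e (nat_lit 336326) (nat_lit 18) .nil))) .nil))) (.nd (nat_lit 6) 
(.lf (nat_lit 256311) (.g (nat_lit 767) (.e (nat_lit 164163) (nat_lit 152) (.e (nat_lit 1221) (nat_lit 90) (.e (nat_lit 81926) (nat_lit 11) (.e (nat_lit 426024) (nat_lit 0) (.e (nat_lit 6989) (nat_lit 377) .nil))))) .nil)) 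
(.lf (nat_lit 256375) (.g (nat_lit 1494) (.e (nat_lit 164177) (nat_lit 154) (.e (nat_lit 57379) (nat_lit 3) (.e (nat_lit 98341) (nat_lit 20) (.e (nat_lit 221214) (nat_lit 23) .nil)))) .nil))))) (.nd (nat_lit 4) (.nd (nat_lit 5) (.nd (nat_lit 6) 
(.lf (nat_lit 256271) (.g (nat_lit 1584) (.e (nat_lit 164162) (nat_lit 152) (.e (nat_lit 1196) (nat_lit 88) (.e (nat_lit 65626) (nat_lit 13) (.e (nat_lit 393260) (nat_lit 21) (.e (nat_lit 409644) (nat_lit 18) .nil))))) .nil)) 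
(.lf (nat_lit 256335) (.g (nat_lit 2643) (.e (nat_lit 164175) (nat_lit 153) (.e (nat_lit 8193) (nat_lit 0) (.e (nat_lit 5355) (nat_lit 298) (.e (nat_lit 1661) (nat_lit 115) (.e (nat_lit 393260) (nat_lit 21) (.e (nat_lit 409648) (nat_lit 18) (.e (nat_lit 303114) (nat_lit 1) .nil))))))) (.g (nat_lit 6) .nil .nil)))) (.nd (nat_lit 6) 
(.lf (nat_lit 256303) (.g (nat_lit 1952) (.e (nat_lit 164163) (nat_lit 152) (.e (nat_lit 1211) (nat_lit 89) (.e (nat_lit 73755) (nat_lit 8) (.e (nat_lit 557097) (nat_lit 13) (.e (nat_lit 172133) (nat_lit 15) .nil))))) .nil)) 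
(.lf (nat_lit 256367) (.g (nat_lit 3939) (.e (nat_lit 164176) (nat_lit 154) (.e (nat_lit 57445) (nat_lit 19) (.e (nat_lit 393229) (nat_lit 9) (.e (nat_lit 336185) (nat_lit 11) .nil)))) .nil)))) (.nd (nat_lit 5) (.nd (nat_lit 6) 
(.lf (nat_lit 256287) (.g (nat_lit 1843) (.e (nat_lit 164163) (nat_lit 152) (.e (nat_lit 1190) (nat_lit 88) (.e (nat_lit 65627) (nat_lit 13) (.e (nat_lit 393260) (nat_lit 21) (.e (nat_lit 409643) (nat_lit 18) .nil))))) .nil)) 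
(.lf (nat_lit 256351) (.g (nat_lit 1170) (.e (nat_lit 164176) (nat_lit 154) (.e (nat_lit 57409) (nat_lit 12) (.e (nat_lit 336414) (nat_lit 27) (.e (nat_lit 433920) (nat_lit 30) .nil)))) .nil))) (.nd (nat_lit 6) 
(.lf (nat_lit 256319) (.g (nat_lit 2675) (.e (nat_lit 164165) (nat_lit 152) (.e (nat_lit 1086) (nat_lit 81) (.e (nat_lit 1660) (nat_lit 115) (.e (nat_lit 393229) (nat_lit 9) (.e (nat_lit 336184) (nat_lit 11) (.e (nat_lit 368676) (nat_lit 21) (.e (nat_lit 516117) (nat_lit 1) .nil))))))) (.g (nat_lit 7) .nil .nil))) 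
(.lf (nat_lit 256383) (.g (nat_lit 741) (.e (nat_lit 164177) (nat_lit 154) (.e (nat_lit 57406) (nat_lit 12) (.e (nat_lit 336324) (nat_lit 18) .nil))) .nil)))))))))

noncomputable def tv3323 : DT := (.nd (nat_lit 0) (.nd (nat_lit 1) (.nd (nat_lit 2) (.nd (nat_lit 3) (.nd (nat_lit 4) (.nd (nat_lit 5) (.nd (nat_lit 6) 
(.lf (nat_lit 256384) (.g (nat_lit 2059) (.e (nat_lit 164177) (nat_lit 154) (.e (nat_lit 57406) (nat_lit 12) (.e (nat_lit 336324) (nat_lit 18) (.e (nat_lit 204850) (nat_lit 26) (.e (nat_lit 336224) (nat_lit 13) .nil))))) .nil)) 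
(.lf (nat_lit 256448) (.g (nat_lit 3203) (.e (nat_lit 164177) (nat_lit 154) (.e (nat_lit 57445) (nat_lit 19) (.e (nat_lit 393229) (nat_lit 9) (.e (nat_lit 336183) (nat_lit 11) .nil)))) .nil))) (.nd (nat_lit 6) 
(.lf (nat_lit 256416) (.g (nat_lit 890) (.e (nat_lit 164177) (nat_lit 154) (.e (nat_lit 57412) (nat_lit 12) (.e (nat_lit 336212) (nat_lit 13) (.e (nat_lit 393260) (nat_lit 21) .nil)))) .nil)) 
(.lf (nat_lit 256480) (.g (nat_lit 501) (.e (nat_lit 164178) (nat_lit 154) (.e (nat_lit 57407) (nat_lit 12) (.e (nat_lit 336324) (nat_lit 18) .nil))) .nil)))) (.nd (nat_lit 5) (.nd (nat_lit 6) 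
(.lf (nat_lit 256400) (.g (nat_lit 338) (.e (nat_lit 164177) (nat_lit 154) (.e (nat_lit 57407) (nat_lit 12) (.e (nat_lit 336326) (nat_lit 18) .nil))) .nil)) 
(.lf (nat_lit 256464) (.g (nat_lit 2690) (.e (nat_lit 164178) (nat_lit 154) (.e (nat_lit 57379) (nat_lit 3) (.e (nat_lit 98341) (nat_lit 20) (.e (nat_lit 221215) (nat_lit 23) (.e (nat_lit 204863) (nat_lit 27) .nil))))) .nil))) (.nd (nat_lit 6) 
(.lf (nat_lit 256432) (.g (nat_lit 723) (.e (nat_lit 164177) (nat_lit 154) (.e (nat_lit 57437) (nat_lit 17) (.e (nat_lit 376838) (nat_lit 11) .nil))) .nil)) 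
(.lf (nat_lit 256496) (.g (nat_lit 2718) (.e (nat_lit 164178) (nat_lit 154) (.e (nat_lit 57411) (nat_lit 12) (.e (nat_lit 336316) (nat_lit 17) (.e (nat_lit 196666) (nat_lit 13) (.e (nat_lit 65627) (nat_lit 13) .nil))))) .nil))))) (.nd (nat_lit 4) (.nd (nat_lit 5) (.nd (nat_lit 6) 
(.lf (nat_lit 256392) (.g (nat_lit 1350) (.e (nat_lit 164177) (nat_lit 154) (.e (nat_lit 57406) (nat_lit 12) (.e (nat_lit 336456) (nat_lit 34) (.e (nat_lit 483389) (nat_lit 23) .nil)))) .nil)) 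
(.lf (nat_lit 256456) (.g (nat_lit 817) (.e (nat_lit 164177) (nat_lit 154) (.e (nat_lit 57447) (nat_lit 19) (.e (nat_lit 401152) (nat_lit 11) .nil))) .nil))) (.nd (nat_lit 6) 
(.lf (nat_lit 256424) (.g (nat_lit 2575) (.e (nat_lit 164177) (nat_lit 154) (.e (nat_lit 57430) (nat_lit 16) (.e (nat_lit 368676) (nat_lit 21) (.e (nat_lit 516176) (nat_lit 14) (.e (nat_lit 466981) (nat_lit 23) (.e (nat_lit 212736) (nat_lit 1) .nil)))))) (.g (nat_lit 5) .nil .nil))) 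
(.lf (nat_lit 256488) (.g (nat_lit 1033) (.e (nat_lit 164178) (nat_lit 154) (.e (nat_lit 57407) (nat_lit 12) (.e (nat_lit 336367) (nat_lit 27) (.e (nat_lit 426546) (nat_lit 30) .nil)))) .nil)))) (.nd (nat_lit 5) (.nd (nat_lit 6) 
(.lf (nat_lit 256408) (.g (nat_lit 716) (.e (nat_lit 164177) (nat_lit 154) (.e (nat_lit 57409) (nat_lit 12) (.e (nat_lit 336326) (nat_lit 18) .nil))) .nil)) 
(.lf (nat_lit 256472) (.g (nat_lit 1928) (.e (nat_lit 164178) (nat_lit 154) (.e (nat_lit 57406) (nat_lit 12) (.e (nat_lit 336326) (nat_lit 18) (.e (nat_lit 204861) (nat_lit 26) (.e (nat_lit 336222) (nat_lit 13) .nil))))) .nil))) (.nd (nat_lit 6) 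
(.lf (nat_lit 256440) (.g (nat_lit 2294) (.e (nat_lit 164177) (nat_lit 154) (.e (nat_lit 57445) (nat_lit 19) (.e (nat_lit 393229) (nat_lit 9) (.e (nat_lit 336084) (nat_lit 9) .nil)))) .nil)) 
(.lf (nat_lit 256504) (.g (nat_lit 2075) (.e (nat_lit 164178) (nat_lit 154) (.e (nat_lit 57424) (nat_lit 14) (.e (nat_lit 352324) (nat_lit 26) (.e (nat_lit 147493) (nat_lit 11) .nil)))) .nil)))))) (.nd (nat_lit 3) (.nd (nat_lit 4) (.nd (nat_lit 5) (.nd (nat_lit 6) 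
(.lf (nat_lit 256388) (.g (nat_lit 890) (.e (nat_lit 164177) (nat_lit 154) (.e (nat_lit 57406) (nat_lit 12) (.e (nat_lit 336326) (nat_lit 18) (.e (nat_lit 204859) (nat_lit 26) .nil)))) .nil)) 
(.lf (nat_lit 256452) (.g (nat_lit 903) (.e (nat_lit 164177) (nat_lit 154) (.e (nat_lit 57447) (nat_lit 19) (.e (nat_lit 393227) (nat_lit 9) .nil))) .nil))) (.nd (nat_lit 6) 
(.lf (nat_lit 256420) (.g (nat_lit 2636) (.e (nat_lit 164177) (nat_lit 154) (.e (nat_lit 57419) (nat_lit 12) (.e (nat_lit 336004) (nat_lit 2) (.e (nat_lit 90176) (nat_lit 15) (.e (nat_lit 188450) (nat_lit 23) (.e (nat_lit 212736) (nat_lit 1) .nil)))))) (.g (nat_lit 5) .nil .nil))) 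
(.lf (nat_lit 256484) (.g (nat_lit 1330) (.e (nat_lit 164178) (nat_lit 154) (.e (nat_lit 57407) (nat_lit 12) (.e (nat_lit 336324) (nat_lit 18) (.e (nat_lit 204878) (nat_lit 31) .nil)))) .nil)))) (.nd (nat_lit 5) (.nd (nat_lit 6) 
(.lf (nat_lit 256404) (.g (nat_lit 853) (.e (nat_lit 164177) (nat_lit 154) (.e (nat_lit 57407) (nat_lit 12) (.e (nat_lit 336454) (nat_lit 34) .nil))) .nil)) 
(.lf (nat_lit 256468) (.g (nat_lit 1444) (.e (nat_lit 164178) (nat_lit 154) (.e (nat_lit 57406) (nat_lit 12) (.e (nat_lit 336316) (nat_lit 17) (.e (nat_lit 196666) (nat_lit 13) .nil)))) .nil))) (.nd (nat_lit 6) 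
(.lf (nat_lit 256436) (.g (nat_lit 1071) (.e (nat_lit 164177) (nat_lit 154) (.e (nat_lit 57445) (nat_lit 19) (.e (nat_lit 393225) (nat_lit 9) (.e (nat_lit 336087) (nat_lit 9) .nil)))) .nil)) 
(.lf (nat_lit 256500) (.g (nat_lit 1731) (.e (nat_lit 164178) (nat_lit 154) (.e (nat_lit 57411) (nat_lit 12) (.e (nat_lit 336367) (nat_lit 27) (.e (nat_lit 426546) (nat_lit 30) .nil)))) .nil))))) (.nd (nat_lit 4) (.nd (nat_lit 5) (.nd (nat_lit 6) 
(.lf (nat_lit 256396) (.g (nat_lit 748) (.e (nat_lit 164177) (nat_lit 154) (.e (nat_lit 57407) (nat_lit 12) (.e (nat_lit 336324) (nat_lit 18) .nil))) .nil)) 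
(.lf (nat_lit 256460) (.g (nat_lit 1714) (.e (nat_lit 164177) (nat_lit 154) (.e (nat_lit 57448) (nat_lit 19) (.e (nat_lit 393225) (nat_lit 9) (.e (nat_lit 336158) (nat_lit 9) (.e (nat_lit 336021) (nat_lit 3) .nil))))) .nil))) (.nd (nat_lit 6) 
(.lf (nat_lit 256428) (.g (nat_lit 1361) (.e (nat_lit 164177) (nat_lit 154) (.e (nat_lit 57432) (nat_lit 16) (.e (nat_lit 368676) (nat_lit 21) (.e (nat_lit 516174) (nat_lit 14) (.e (nat_lit 466979) (nat_lit 23) .nil))))) .nil)) 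
(.lf (nat_lit 256492) (.g (nat_lit 734) (.e (nat_lit 164178) (nat_lit 154) (.e (nat_lit 57409) (nat_lit 12) (.e (nat_lit 336367) (nat_lit 27) .nil))) .nil)))) (.nd (nat_lit 5) (.nd (nat_lit 6) 
(.lf (nat_lit 256412) (.g (nat_lit 1110) (.e (nat_lit 164177) (nat_lit 154) (.e (nat_lit 57411) (nat_lit 12) (.e (nat_lit 336326) (nat_lit 18) .nil))) .nil)) 
(.lf (nat_lit 256476) (.g (nat_lit 2383) (.e (nat_lit 164178) (nat_lit 154) (.e (nat_lit 57407) (nat_lit 12) (.e (nat_lit 336316) (nat_lit 17) (.e (nat_lit 196666) (nat_lit 13) (.e (nat_lit 65625) (nat_lit 13) .nil))))) .nil))) (.nd (nat_lit 6) 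
(.lf (nat_lit 256444) (.g (nat_lit 3460) (.e (nat_lit 164177) (nat_lit 154) (.e (nat_lit 57445) (nat_lit 19) (.e (nat_lit 393229) (nat_lit 9) (.e (nat_lit 336155) (nat_lit 9) .nil)))) .nil)) 
(.lf (nat_lit 256508) (.g (nat_lit 1469) (.e (nat_lit 164178) (nat_lit 154) (.e (nat_lit 57432) (nat_lit 16) (.e (nat_lit 368676) (nat_lit 21) (.e (nat_lit 516174) (nat_lit 14) (.e (nat_lit 466967) (nat_lit 20) (.e (nat_lit 3304) (nat_lit 202) (.e (nat_lit 581376) (nat_lit 0) (.e (nat_lit 2615) (nat_lit 163) .nil)))))))) (.g (nat_lit 4) .nil .nil)))))))) 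
(.nd (nat_lit 2) (.nd (nat_lit 3) (.nd (nat_lit 4) (.nd (nat_lit 5) (.nd (nat_lit 6) 
(.lf (nat_lit 256386) (.g (nat_lit 2473) (.e (nat_lit 164177) (nat_lit 154) (.e (nat_lit 57406) (nat_lit 12) (.e (nat_lit 336324) (nat_lit 18) (.e (nat_lit 204854) (nat_lit 26) (.e (nat_lit 336210) (nat_lit 13) .nil))))) .nil)) 
(.lf (nat_lit 256450) (.g (nat_lit 3283) (.e (nat_lit 164177) (nat_lit 154) (.e (nat_lit 57445) (nat_lit 19) (.e (nat_lit 393229) (nat_lit 9) (.e (nat_lit 336188) (nat_lit 11) .nil)))) .nil))) (.nd (nat_lit 6) 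
(.lf (nat_lit 256418) (.g (nat_lit 1598) (.e (nat_lit 164177) (nat_lit 154) (.e (nat_lit 57412) (nat_lit 12) (.e (nat_lit 336295) (nat_lit 15) (.e (nat_lit 3253) (nat_lit 197) .nil)))) .nil)) 
(.lf (nat_lit 256482) (.g (nat_lit 1969) (.e (nat_lit 164178) (nat_lit 154) (.e (nat_lit 57407) (nat_lit 12) (.e (nat_lit 336324) (nat_lit 18) (.e (nat_lit 204854) (nat_lit 26) (.e (nat_lit 336211) (nat_lit 13) .nil))))) .nil)))) (.nd (nat_lit 5) (.nd (nat_lit 6) 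
(.lf (nat_lit 256402) (.g (nat_lit 1114) (.e (nat_lit 164177) (nat_lit 154) (.e (nat_lit 57407) (nat_lit 12) (.e (nat_lit 336326) (nat_lit 18) (.e (nat_lit 204875) (nat_lit 31) .nil)))) .nil)) 
(.lf (nat_lit 256466) (.g (nat_lit 2499) (.e (nat_lit 164178) (nat_lit 154) (.e (nat_lit 57379) (nat_lit 3) (.e (nat_lit 98342) (nat_lit 20) (.e (nat_lit 221215) (nat_lit 23) (.e (nat_lit 204863) (nat_lit 27) .nil))))) .nil))) (.nd (nat_lit 6) 
(.lf (nat_lit 256434) (.g (nat_lit 883) (.e (nat_lit 164177) (nat_lit 154) (.e (nat_lit 57440) (nat_lit 18) (.e (nat_lit 385066) (nat_lit 26) (.e (nat_lit 532537) (nat_lit 9) .nil)))) .nil)) 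
(.lf (nat_lit 256498) (.g (nat_lit 1119) (.e (nat_lit 164178) (nat_lit 154) (.e (nat_lit 57411) (nat_lit 12) (.e (nat_lit 336367) (nat_lit 27) .nil))) .nil))))) (.nd (nat_lit 4) (.nd (nat_lit 5) (.nd (nat_lit 6) 
(.lf (nat_lit 256394) (.g (nat_lit 2017) (.e (nat_lit 164177) (nat_lit 154) (.e (nat_lit 57407) (nat_lit 12) (.e (nat_lit 336316) (nat_lit 17) (.e (nat_lit 196666) (nat_lit 13) (.e (nat_lit 65627) (nat_lit 13) .nil))))) .nil)) 
(.lf (nat_lit 256458) (.g (nat_lit 817) (.e (nat_lit 164177) (nat_lit 154) (.e (nat_lit 57447) (nat_lit 19) (.e (nat_lit 401152) (nat_lit 12) .nil))) .nil))) (.nd (nat_lit 6) 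
(.lf (nat_lit 256426) (.g (nat_lit 1632) (.e (nat_lit 164177) (nat_lit 154) (.e (nat_lit 57432) (nat_lit 16) (.e (nat_lit 368676) (nat_lit 21) (.e (nat_lit 516174) (nat_lit 14) (.e (nat_lit 466967) (nat_lit 20) (.e (nat_lit 3304) (nat_lit 202) (.e (nat_lit 581376) (nat_lit 0) (.e (nat_lit 2612) (nat_lit 163) .nil)))))))) (.g (nat_lit 4) .nil .nil))) 
(.lf (nat_lit 256490) (.g (nat_lit 1592) (.e (nat_lit 164178) (nat_lit 154) (.e (nat_lit 57407) (nat_lit 12) (.e (nat_lit 336456) (nat_lit 34) (.e (nat_lit 483393) (nat_lit 23) .nil)))) .nil)))) (.nd (nat_lit 5) (.nd (nat_lit 6) 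
(.lf (nat_lit 256410) (.g (nat_lit 722) (.e (nat_lit 164177) (nat_lit 154) (.e (nat_lit 57409) (nat_lit 12) (.e (nat_lit 336456) (nat_lit 34) .nil))) .nil)) 
(.lf (nat_lit 256474) (.g (nat_lit 414) (.e (nat_lit 164178) (nat_lit 154) (.e (nat_lit 57406) (nat_lit 12) (.e (nat_lit 336456) (nat_lit 34) .nil))) .nil))) (.nd (nat_lit 6) 
(.lf (nat_lit 256442) (.g (nat_lit 3065) (.e (nat_lit 164177) (nat_lit 154) (.e (nat_lit 57445) (nat_lit 19) (.e (nat_lit 393229) (nat_lit 9) (.e (nat_lit 336107) (nat_lit 9) .nil)))) .nil)) 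
(.lf (nat_lit 256506) (.g (nat_lit 814) (.e (nat_lit 164178) (nat_lit 154) (.e (nat_lit 57427) (nat_lit 15) (.e (nat_lit 360487) (nat_lit 19) .nil))) .nil)))))) (.nd (nat_lit 3) (.nd (nat_lit 4) (.nd (nat_lit 5) (.nd (nat_lit 6) 
(.lf (nat_lit 256390) (.g (nat_lit 1338) (.e (nat_lit 164177) (nat_lit 154) (.e (nat_lit 57406) (nat_lit 12) (.e (nat_lit 336367) (nat_lit 27) (.e (nat_lit 426542) (nat_lit 29) (.e (nat_lit 352313) (nat_lit 23) .nil))))) .nil)) 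
(.lf (nat_lit 256454) (.g (nat_lit 2259) (.e (nat_lit 164177) (nat_lit 154) (.e (nat_lit 57447) (nat_lit 19) (.e (nat_lit 393229) (nat_lit 9) (.e (nat_lit 336184) (nat_lit 11) (.e (nat_lit 368676) (nat_lit 21) .nil))))) .nil))) (.nd (nat_lit 6) 
(.lf (nat_lit 256422) (.g (nat_lit 2064) (.e (nat_lit 164177) (nat_lit 154) (.e (nat_lit 57424) (nat_lit 14) (.e (nat_lit 352324) (nat_lit 26) (.e (nat_lit 147493) (nat_lit 11) .nil)))) .nil)) 
(.lf (nat_lit 256486) (.g (nat_lit 662) (.e (nat_lit 164178) (nat_lit 154) (.e (nat_lit 57407) (nat_lit 12) (.e (nat_lit 336366) (nat_lit 27) .nil))) .nil)))) (.nd (nat_lit 5) (.nd (nat_lit 6) 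
(.lf (nat_lit 256406) (.g (nat_lit 1106) (.e (nat_lit 164177) (nat_lit 154) (.e (nat_lit 57407) (nat_lit 12) (.e (nat_lit 336456) (nat_lit 34) (.e (nat_lit 483393) (nat_lit 23) .nil)))) .nil)) 
(.lf (nat_lit 256470) (.g (nat_lit 1666) (.e (nat_lit 164178) (nat_lit 154) (.e (nat_lit 57406) (nat_lit 12) (.e (nat_lit 336324) (nat_lit 18) (.e (nat_lit 204854) (nat_lit 26) .nil)))) .nil))) (.nd (nat_lit 6) 
(.lf (nat_lit 256438) (.g (nat_lit 1429) (.e (nat_lit 164177) (nat_lit 154) (.e (nat_lit 57445) (nat_lit 19) (.e (nat_lit 393225) (nat_lit 9) (.e (nat_lit 336158) (nat_lit 9) .nil)))) .nil)) 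
(.lf (nat_lit 256502) (.g (nat_lit 2174) (.e (nat_lit 164178) (nat_lit 154) (.e (nat_lit 57412) (nat_lit 12) (.e (nat_lit 336295) (nat_lit 15) (.e (nat_lit 3253) (nat_lit 197) (.e (nat_lit 532560) (nat_lit 14) .nil))))) .nil))))) (.nd (nat_lit 4) (.nd (nat_lit 5) (.nd (nat_lit 6) 
(.lf (nat_lit 256398) (.g (nat_lit 2214) (.e (nat_lit 164177) (nat_lit 154) (.e (nat_lit 57407) (nat_lit 12) (.e (nat_lit 336324) (nat_lit 18) (.e (nat_lit 204854) (nat_lit 26) (.e (nat_lit 336211) (nat_lit 13) .nil))))) .nil)) 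
(.lf (nat_lit 256462) (.g (nat_lit 1746) (.e (nat_lit 164177) (nat_lit 154) (.e (nat_lit 57448) (nat_lit 19) (.e (nat_lit 393228) (nat_lit 9) (.e (nat_lit 336088) (nat_lit 9) (.e (nat_lit 336019) (nat_lit 3) .nil))))) .nil))) (.nd (nat_lit 6) 
(.lf (nat_lit 256430) (.g (nat_lit 1745) (.e (nat_lit 164177) (nat_lit 154) (.e (nat_lit 57432) (nat_lit 16) (.e (nat_lit 368676) (nat_lit 21) (.e (nat_lit 516176) (nat_lit 14) (.e (nat_lit 466979) (nat_lit 23) .nil))))) .nil)) 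
(.lf (nat_lit 256494) (.g (nat_lit 1621) (.e (nat_lit 164178) (nat_lit 154) (.e (nat_lit 57411) (nat_lit 12) (.e (nat_lit 336211) (nat_lit 13) (.e (nat_lit 393259) (nat_lit 21) .nil)))) .nil)))) (.nd (nat_lit 5) (.nd (nat_lit 6) 
(.lf (nat_lit 256414) (.g (nat_lit 1128) (.e (nat_lit 164177) (nat_lit 154) (.e (nat_lit 57411) (nat_lit 12) (.e (nat_lit 336367) (nat_lit 27) .nil))) .nil)) 
(.lf (nat_lit 256478) (.g (nat_lit 2202) (.e (nat_lit 164178) (nat_lit 154) (.e (nat_lit 57407) (nat_lit 12) (.e (nat_lit 336316) (nat_lit 17) (.e (nat_lit 196672) (nat_lit 15) (.e (nat_lit 81927) (nat_lit 11) .nil))))) .nil))) (.nd (nat_lit 6) 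
(.lf (nat_lit 256446) (.g (nat_lit 3189) (.e (nat_lit 164177) (nat_lit 154) (.e (nat_lit 57445) (nat_lit 19) (.e (nat_lit 393229) (nat_lit 9) (.e (nat_lit 336163) (nat_lit 10) (.e (nat_lit 344117) (nat_lit 21) .nil))))) .nil)) 
(.lf (nat_lit 256510) (.g (nat_lit 1669) (.e (nat_lit 164178) (nat_lit 154) (.e (nat_lit 57432) (nat_lit 16) (.e (nat_lit 368676) (nat_lit 21) (.e (nat_lit 516174) (nat_lit 14) (.e (nat_lit 466978) (nat_lit 23) (.e (nat_lit 212736) (nat_lit 1) .nil)))))) (.g (nat_lit 5) .nil .nil))))))))) (.nd (nat_lit 1) (.nd (nat_lit 2) (.nd (nat_lit 3) (.nd (nat_lit 4) (.nd (nat_lit 5) (.nd (nat_lit 6) 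
(.lf (nat_lit 256385) (.g (nat_lit 1416) (.e (nat_lit 164177) (nat_lit 154) (.e (nat_lit 57406) (nat_lit 12) (.e (nat_lit 336324) (nat_lit 18) (.e (nat_lit 204854) (nat_lit 26) .nil)))) .nil)) 
(.lf (nat_lit 256449) (.g (nat_lit 3284) (.e (nat_lit 164177) (nat_lit 154) (.e (nat_lit 57445) (nat_lit 19) (.e (nat_lit 393229) (nat_lit 9) (.e (nat_lit 336185) (nat_lit 11) .nil)))) .nil))) (.nd (nat_lit 6) 
(.lf (nat_lit 256417) (.g (nat_lit 1600) (.e (nat_lit 164177) (nat_lit 154) (.e (nat_lit 57412) (nat_lit 12) (.e (nat_lit 336219) (nat_lit 13) (.e (nat_lit 393260) (nat_lit 21) (.e (nat_lit 409648) (nat_lit 18) .nil))))) .nil)) 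
(.lf (nat_lit 256481) (.g (nat_lit 1503) (.e (nat_lit 164178) (nat_lit 154) (.e (nat_lit 57407) (nat_lit 12) (.e (nat_lit 336324) (nat_lit 18) (.e (nat_lit 204850) (nat_lit 26) .nil)))) .nil)))) (.nd (nat_lit 5) (.nd (nat_lit 6) 
(.lf (nat_lit 256401) (.g (nat_lit 1375) (.e (nat_lit 164177) (nat_lit 154) (.e (nat_lit 57407) (nat_lit 12) (.e (nat_lit 336326) (nat_lit 18) (.e (nat_lit 204859) (nat_lit 26) (.e (nat_lit 336209) (nat_lit 13) .nil))))) .nil)) 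
(.lf (nat_lit 256465) (.g (nat_lit 1871) (.e (nat_lit 164178) (nat_lit 154) (.e (nat_lit 57379) (nat_lit 3) (.e (nat_lit 98342) (nat_lit 20) (.e (nat_lit 221211) (nat_lit 22) .nil)))) .nil))) (.nd (nat_lit 6) 
(.lf (nat_lit 256433) (.g (nat_lit 162) (.e (nat_lit 164177) (nat_lit 154) (.e (nat_lit 57440) (nat_lit 18) (.e (nat_lit 385066) (nat_lit 26) .nil))) .nil)) 
(.lf (nat_lit 256497) (.g (nat_lit 1137) (.e (nat_lit 164178) (nat_lit 154) (.e (nat_lit 57411) (nat_lit 12) (.e (nat_lit 336326) (nat_lit 18) .nil))) .nil))))) (.nd (nat_lit 4) (.nd (nat_lit 5) (.nd (nat_lit 6) 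
(.lf (nat_lit 256393) (.g (nat_lit 1351) (.e (nat_lit 164177) (nat_lit 154) (.e (nat_lit 57406) (nat_lit 12) (.e (nat_lit 336456) (nat_lit 34) (.e (nat_lit 483393) (nat_lit 23) .nil)))) .nil)) 
(.lf (nat_lit 256457) (.g (nat_lit 1264) (.e (nat_lit 164177) (nat_lit 154) (.e (nat_lit 57447) (nat_lit 19) (.e (nat_lit 401152) (nat_lit 11) (.e (nat_lit 352315) (nat_lit 23) (.e (nat_lit 98333) (nat_lit 18) .nil))))) .nil))) (.nd (nat_lit 6) 
(.lf (nat_lit 256425) (.g (nat_lit 1732) (.e (nat_lit 164177) (nat_lit 154) (.e (nat_lit 57431) (nat_lit 16) (.e (nat_lit 368676) (nat_lit 21) (.e (nat_lit 516176) (nat_lit 14) (.e (nat_lit 466967) (nat_lit 20) (.e (nat_lit 3304) (nat_lit 202) (.e (nat_lit 581376) (nat_lit 0) (.e (nat_lit 2612) (nat_lit 163) .nil)))))))) (.g (nat_lit 4) .nil .nil))) 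
(.lf (nat_lit 256489) (.g (nat_lit 1062) (.e (nat_lit 164178) (nat_lit 154) (.e (nat_lit 57407) (nat_lit 12) (.e (nat_lit 336454) (nat_lit 34) (.e (nat_lit 483401) (nat_lit 25) .nil)))) .nil)))) (.nd (nat_lit 5) (.nd (nat_lit 6) 
(.lf (nat_lit 256409) (.g (nat_lit 734) (.e (nat_lit 164177) (nat_lit 154) (.e (nat_lit 57409) (nat_lit 12) (.e (nat_lit 336367) (nat_lit 27) .nil))) .nil)) 
(.lf (nat_lit 256473) (.g (nat_lit 470) (.e (nat_lit 164178) (nat_lit 154) (.e (nat_lit 57406) (nat_lit 12) (.e (nat_lit 336454) (nat_lit 34) .nil))) .nil))) (.nd (nat_lit 6) 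
(.lf (nat_lit 256441) (.g (nat_lit 3431) (.e (nat_lit 164177) (nat_lit 154) (.e (nat_lit 57445) (nat_lit 19) (.e (nat_lit 393229) (nat_lit 9) (.e (nat_lit 336105) (nat_lit 9) .nil)))) .nil)) 
(.lf (nat_lit 256505) (.g (nat_lit 2776) (.e (nat_lit 164178) (nat_lit 154) (.e (nat_lit 57424) (nat_lit 14) (.e (nat_lit 352324) (nat_lit 26) (.e (nat_lit 147495) (nat_lit 11) (.e (nat_lit 24665) (nat_lit 14) .nil))))) .nil)))))) (.nd (nat_lit 3) (.nd (nat_lit 4) (.nd (nat_lit 5) (.nd (nat_lit 6) 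
(.lf (nat_lit 256389) (.g (nat_lit 756) (.e (nat_lit 164177) (nat_lit 154) (.e (nat_lit 57406) (nat_lit 12) (.e (nat_lit 336366) (nat_lit 27) .nil))) .nil)) 
(.lf (nat_lit 256453) (.g (nat_lit 1937) (.e (nat_lit 164177) (nat_lit 154) (.e (nat_lit 57447) (nat_lit 19) (.e (nat_lit 393229) (nat_lit 9) (.e (nat_lit 336087) (nat_lit 9) .nil)))) .nil))) (.nd (nat_lit 6) 
(.lf (nat_lit 256421) (.g (nat_lit 2517) (.e (nat_lit 164177) (nat_lit 154) (.e (nat_lit 57419) (nat_lit 12) (.e (nat_lit 336012) (nat_lit 2) (.e (nat_lit 90176) (nat_lit 15) (.e (nat_lit 188450) (nat_lit 23) (.e (nat_lit 212736) (nat_lit 1) .nil)))))) (.g (nat_lit 5) .nil .nil))) 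
(.lf (nat_lit 256485) (.g (nat_lit 658) (.e (nat_lit 164178) (nat_lit 154) (.e (nat_lit 57407) (nat_lit 12) (.e (nat_lit 336326) (nat_lit 18) .nil))) .nil)))) (.nd (nat_lit 5) (.nd (nat_lit 6) 
(.lf (nat_lit 256405) (.g (nat_lit 745) (.e (nat_lit 164177) (nat_lit 154) (.e (nat_lit 57407) (nat_lit 12) (.e (nat_lit 336455) (nat_lit 34) .nil))) .nil)) 
(.lf (nat_lit 256469) (.g (nat_lit 647) (.e (nat_lit 164178) (nat_lit 154) (.e (nat_lit 57406) (nat_lit 12) (.e (nat_lit 336324) (nat_lit 18) .nil))) .nil))) (.nd (nat_lit 6) 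
(.lf (nat_lit 256437) (.g (nat_lit 1635) (.e (nat_lit 164177) (nat_lit 154) (.e (nat_lit 57445) (nat_lit 19) (.e (nat_lit 393225) (nat_lit 9) (.e (nat_lit 336088) (nat_lit 9) (.e (nat_lit 336019) (nat_lit 3) .nil))))) .nil)) 
(.lf (nat_lit 256501) (.g (nat_lit 1101) (.e (nat_lit 164178) (nat_lit 154) (.e (nat_lit 57411) (nat_lit 12) (.e (nat_lit 336456) (nat_lit 34) .nil))) .nil))))) (.nd (nat_lit 4) (.nd (nat_lit 5) (.nd (nat_lit 6) 
(.lf (nat_lit 256397) (.g (nat_lit 2453) (.e (nat_lit 164177) (nat_lit 154) (.e (nat_lit 57407) (nat_lit 12) (.e (nat_lit 336324) (nat_lit 18) (.e (nat_lit 204854) (nat_lit 26) (.e (nat_lit 336210) (nat_lit 13) .nil))))) .nil)) 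
(.lf (nat_lit 256461) (.g (nat_lit 710) (.e (nat_lit 164177) (nat_lit 154) (.e (nat_lit 57448) (nat_lit 19) (.e (nat_lit 393228) (nat_lit 9) .nil))) .nil))) (.nd (nat_lit 6) 
(.lf (nat_lit 256429) (.g (nat_lit 1542) (.e (nat_lit 164177) (nat_lit 154) (.e (nat_lit 57432) (nat_lit 16) (.e (nat_lit 368676) (nat_lit 21) (.e (nat_lit 516176) (nat_lit 14) (.e (nat_lit 466978) (nat_lit 23) .nil))))) .nil)) 
(.lf (nat_lit 256493) (.g (nat_lit 1345) (.e (nat_lit 164178) (nat_lit 154) (.e (nat_lit 57409) (nat_lit 12) (.e (nat_lit 336367) (nat_lit 27) (.e (nat_lit 426542) (nat_lit 29) .nil)))) .nil)))) (.nd (nat_lit 5) (.nd (nat_lit 6) 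
(.lf (nat_lit 256413) (.g (nat_lit 1725) (.e (nat_lit 164177) (nat_lit 154) (.e (nat_lit 57411) (nat_lit 12) (.e (nat_lit 336326) (nat_lit 18) (.e (nat_lit 204861) (nat_lit 26) .nil)))) .nil)) 
(.lf (nat_lit 256477) (.g (nat_lit 2551) (.e (nat_lit 164178) (nat_lit 154) (.e (nat_lit 57407) (nat_lit 12) (.e (nat_lit 336316) (nat_lit 17) (.e (nat_lit 196666) (nat_lit 13) (.e (nat_lit 65627) (nat_lit 13) .nil))))) .nil))) (.nd (nat_lit 6) 
(.lf (nat_lit 256445) (.g (nat_lit 2668) (.e (nat_lit 164177) (nat_lit 154) (.e (nat_lit 57445) (nat_lit 19) (.e (nat_lit 393229) (nat_lit 9) (.e (nat_lit 343808) (nat_lit 9) .nil)))) .nil)) 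
(.lf (nat_lit 256509) (.g (nat_lit 1918) (.e (nat_lit 164178) (nat_lit 154) (.e (nat_lit 57432) (nat_lit 16) (.e (nat_lit 368676) (nat_lit 21) (.e (nat_lit 516174) (nat_lit 14) (.e (nat_lit 466975) (nat_lit 22) (.e (nat_lit 196622) (nat_lit 9) (.e (nat_lit 156) (nat_lit 10) .nil))))))) (.g (nat_lit 6) .nil .nil)))))))) 
(.nd (nat_lit 2) (.nd (nat_lit 3) (.nd (nat_lit 4) (.nd (nat_lit 5) (.nd (nat_lit 6) 
(.lf (nat_lit 256387) (.g (nat_lit 1797) (.e (nat_lit 164177) (nat_lit 154) (.e (nat_lit 57406) (nat_lit 12) (.e (nat_lit 336325) (nat_lit 18) (.e (nat_lit 204861) (nat_lit 26) (.e (nat_lit 336213) (nat_lit 13) .nil))))) .nil)) 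
(.lf (nat_lit 256451) (.g (nat_lit 409) (.e (nat_lit 164177) (nat_lit 154) (.e (nat_lit 57445) (nat_lit 19) (.e (nat_lit 401152) (nat_lit 11) .nil))) .nil))) (.nd (nat_lit 6) 
(.lf (nat_lit 256419) (.g (nat_lit 2174) (.e (nat_lit 164177) (nat_lit 154) (.e (nat_lit 57419) (nat_lit 12) (.e (nat_lit 336003) (nat_lit 2) (.e (nat_lit 90176) (nat_lit 15) (.e (nat_lit 188450) (nat_lit 23) (.e (nat_lit 212736) (nat_lit 1) .nil)))))) (.g (nat_lit 5) .nil .nil))) 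
(.lf (nat_lit 256483) (.g (nat_lit 1527) (.e (nat_lit 164178) (nat_lit 154) (.e (nat_lit 57407) (nat_lit 12) (.e (nat_lit 336324) (nat_lit 18) (.e (nat_lit 204875) (nat_lit 31) .nil)))) .nil)))) (.nd (nat_lit 5) (.nd (nat_lit 6) 
(.lf (nat_lit 256403) (.g (nat_lit 3053) (.e (nat_lit 164177) (nat_lit 154) (.e (nat_lit 57407) (nat_lit 12) (.e (nat_lit 336367) (nat_lit 27) (.e (nat_lit 426555) (nat_lit 32) (.e (nat_lit 376867) (nat_lit 23) (.e (nat_lit 98333) (nat_lit 18) .nil)))))) (.g (nat_lit 0) .nil .nil))) 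
(.lf (nat_lit 256467) (.g (nat_lit 695) (.e (nat_lit 164178) (nat_lit 154) (.e (nat_lit 57406) (nat_lit 12) (.e (nat_lit 336316) (nat_lit 17) .nil))) .nil))) (.nd (nat_lit 6) 
(.lf (nat_lit 256435) (.g (nat_lit 1521) (.e (nat_lit 164177) (nat_lit 154) (.e (nat_lit 57440) (nat_lit 18) (.e (nat_lit 385068) (nat_lit 26) (.e (nat_lit 532527) (nat_lit 9) .nil)))) .nil)) 
(.lf (nat_lit 256499) (.g (nat_lit 2050) (.e (nat_lit 164178) (nat_lit 154) (.e (nat_lit 57411) (nat_lit 12) (.e (nat_lit 336367) (nat_lit 27) (.e (nat_lit 426544) (nat_lit 30) (.e (nat_lit 360467) (nat_lit 3) .nil))))) .nil))))) (.nd (nat_lit 4) (.nd (nat_lit 5) (.nd (nat_lit 6) 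
(.lf (nat_lit 256395) (.g (nat_lit 741) (.e (nat_lit 164177) (nat_lit 154) (.e (nat_lit 57407) (nat_lit 12) (.e (nat_lit 336320) (nat_lit 17) .nil))) .nil)) 
(.lf (nat_lit 256459) (.g (nat_lit 817) (.e (nat_lit 164177) (nat_lit 154) (.e (nat_lit 57447) (nat_lit 19) (.e (nat_lit 401152) (nat_lit 14) .nil))) .nil))) (.nd (nat_lit 6) 
(.lf (nat_lit 256427) (.g (nat_lit 1373) (.e (nat_lit 164177) (nat_lit 154) (.e (nat_lit 57432) (nat_lit 16) (.e (nat_lit 368676) (nat_lit 21) (.e (nat_lit 516174) (nat_lit 14) (.e (nat_lit 466978) (nat_lit 23) .nil))))) .nil)) 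
(.lf (nat_lit 256491) (.g (nat_lit 716) (.e (nat_lit 164178) (nat_lit 154) (.e (nat_lit 57409) (nat_lit 12) (.e (nat_lit 336326) (nat_lit 18) .nil))) .nil)))) (.nd (nat_lit 5) (.nd (nat_lit 6) 
(.lf (nat_lit 256411) (.g (nat_lit 2531) (.e (nat_lit 164177) (nat_lit 154) (.e (nat_lit 57411) (nat_lit 12) (.e (nat_lit 336316) (nat_lit 17) (.e (nat_lit 196666) (nat_lit 13) (.e (nat_lit 65625) (nat_lit 13) .nil))))) .nil)) 
(.lf (nat_lit 256475) (.g (nat_lit 2478) (.e (nat_lit 164178) (nat_lit 154) (.e (nat_lit 57407) (nat_lit 12) (.e (nat_lit 336316) (nat_lit 17) (.e (nat_lit 196630) (nat_lit 9) (.e (nat_lit 1504) (nat_lit 108) .nil))))) .nil))) (.nd (nat_lit 6) 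
(.lf (nat_lit 256443) (.g (nat_lit 3271) (.e (nat_lit 164177) (nat_lit 154) (.e (nat_lit 57445) (nat_lit 19) (.e (nat_lit 393229) (nat_lit 9) (.e (nat_lit 336150) (nat_lit 9) .nil)))) .nil)) 
(.lf (nat_lit 256507) (.g (nat_lit 1498) (.e (nat_lit 164178) (nat_lit 154) (.e (nat_lit 57432) (nat_lit 16) (.e (nat_lit 368676) (nat_lit 21) (.e (nat_lit 516174) (nat_lit 14) (.e (nat_lit 466967) (nat_lit 20) (.e (nat_lit 3304) (nat_lit 202) (.e (nat_lit 581376) (nat_lit 0) (.e (nat_lit 2607) (nat_lit 163) .nil)))))))) (.g (nat_lit 4) .nil .nil))))))) 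
(.nd (nat_lit 3) (.nd (nat_lit 4) (.nd (nat_lit 5) (.nd (nat_lit 6) 
(.lf (nat_lit 256391) (.g (nat_lit 625) (.e (nat_lit 164177) (nat_lit 154) (.e (nat_lit 57406) (nat_lit 12) (.e (nat_lit 336454) (nat_lit 34) .nil))) .nil)) 
(.lf (nat_lit 256455) (.g (nat_lit 2277) (.e (nat_lit 164177) (nat_lit 154) (.e (nat_lit 57447) (nat_lit 19) (.e (nat_lit 393229) (nat_lit 9) (.e (nat_lit 336186) (nat_lit 11) (.e (nat_lit 368676) (nat_lit 21) .nil))))) .nil))) (.nd (nat_lit 6) 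
(.lf (nat_lit 256423) (.g (nat_lit 1856) (.e (nat_lit 164177) (nat_lit 154) (.e (nat_lit 57424) (nat_lit 14) (.e (nat_lit 352324) (nat_lit 26) (.e (nat_lit 147503) (nat_lit 12) .nil)))) .nil)) 
(.lf (nat_lit 256487) (.g (nat_lit 1073) (.e (nat_lit 164178) (nat_lit 154) (.e (nat_lit 57407) (nat_lit 12) (.e (nat_lit 336367) (nat_lit 27) (.e (nat_lit 426544) (nat_lit 30) .nil)))) .nil)))) (.nd (nat_lit 5) (.nd (nat_lit 6) 
(.lf (nat_lit 256407) (.g (nat_lit 2344) (.e (nat_lit 164177) (nat_lit 154) (.e (nat_lit 57409) (nat_lit 12) (.e (nat_lit 336316) (nat_lit 17) (.e (nat_lit 196666) (nat_lit 13) (.e (nat_lit 65627) (nat_lit 13) .nil))))) .nil)) 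
(.lf (nat_lit 256471) (.g (nat_lit 1642) (.e (nat_lit 164178) (nat_lit 154) (.e (nat_lit 57406) (nat_lit 12) (.e (nat_lit 336326) (nat_lit 18) (.e (nat_lit 204859) (nat_lit 26) (.e (nat_lit 336209) (nat_lit 13) .nil))))) .nil))) (.nd (nat_lit 6) 
(.lf (nat_lit 256439) (.g (nat_lit 2994) (.e (nat_lit 164177) (nat_lit 154) (.e (nat_lit 57445) (nat_lit 19) (.e (nat_lit 393229) (nat_lit 9) (.e (nat_lit 336078) (nat_lit 9) .nil)))) .nil)) 
(.lf (nat_lit 256503) (.g (nat_lit 925) (.e (nat_lit 164178) (nat_lit 154) (.e (nat_lit 57424) (nat_lit 14) (.e (nat_lit 352322) (nat_lit 26) .nil))) .nil))))) (.nd (nat_lit 4) (.nd (nat_lit 5) (.nd (nat_lit 6) 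
(.lf (nat_lit 256399) (.g (nat_lit 1761) (.e (nat_lit 164177) (nat_lit 154) (.e (nat_lit 57407) (nat_lit 12) (.e (nat_lit 336324) (nat_lit 18) (.e (nat_lit 204857) (nat_lit 26) (.e (nat_lit 336224) (nat_lit 13) .nil))))) .nil)) 
(.lf (nat_lit 256463) (.g (nat_lit 404) (.e (nat_lit 164177) (nat_lit 154) (.e (nat_lit 57448) (nat_lit 19) (.e (nat_lit 401152) (nat_lit 11) .nil))) .nil))) (.nd (nat_lit 6) 
(.lf (nat_lit 256431) (.g (nat_lit 1769) (.e (nat_lit 164177) (nat_lit 154) (.e (nat_lit 57436) (nat_lit 17) (.e (nat_lit 376838) (nat_lit 11) (.e (nat_lit 426172) (nat_lit 7) (.e (nat_lit 409623) (nat_lit 10) (.e (nat_lit 5664) (nat_lit 312) (.e (nat_lit 2605) (nat_lit 163) .nil))))))) (.g (nat_lit 5) .nil .nil))) 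
(.lf (nat_lit 256495) (.g (nat_lit 2413) (.e (nat_lit 164178) (nat_lit 154) (.e (nat_lit 57411) (nat_lit 12) (.e (nat_lit 336211) (nat_lit 13) (.e (nat_lit 393260) (nat_lit 21) (.e (nat_lit 409645) (nat_lit 18) .nil))))) .nil)))) (.nd (nat_lit 5) (.nd (nat_lit 6) 
(.lf (nat_lit 256415) (.g (nat_lit 1144) (.e (nat_lit 164177) (nat_lit 154) (.e (nat_lit 57411) (nat_lit 12) (.e (nat_lit 336456) (nat_lit 34) .nil))) .nil)) 
(.lf (nat_lit 256479) (.g (nat_lit 1752) (.e (nat_lit 164178) (nat_lit 154) (.e (nat_lit 57407) (nat_lit 12) (.e (nat_lit 336316) (nat_lit 17) (.e (nat_lit 196680) (nat_lit 17) .nil)))) .nil))) (.nd (nat_lit 6) 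
(.lf (nat_lit 256447) (.g (nat_lit 3449) (.e (nat_lit 164177) (nat_lit 154) (.e (nat_lit 57445) (nat_lit 19) (.e (nat_lit 393229) (nat_lit 9) (.e (nat_lit 336165) (nat_lit 10) .nil)))) .nil)) 
(.lf (nat_lit 256511) (.g (nat_lit 1840) (.e (nat_lit 164178) (nat_lit 154) (.e (nat_lit 57432) (nat_lit 16) (.e (nat_lit 368676) (nat_lit 21) (.e (nat_lit 516174) (nat_lit 14) (.e (nat_lit 466979) (nat_lit 23) (.e (nat_lit 212736) (nat_lit 1) .nil)))))) (.g (nat_lit 5) .nil .nil))))))))))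

noncomputable def tv3324 : DT := (.nd (nat_lit 0) (.nd (nat_lit 1) (.nd (nat_lit 2) (.nd (nat_lit 3) (.nd (nat_lit 4) (.nd (nat_lit 5) (.nd (nat_lit 6) 
(.lf (nat_lit 256512) (.g (nat_lit 2195) (.e (nat_lit 164178) (nat_lit 154) (.e (nat_lit 57432) (nat_lit 16) (.e (nat_lit 368676) (nat_lit 21) (.e (nat_lit 516174) (nat_lit 14) (.e (nat_lit 466980) (nat_lit 23) (.e (nat_lit 212736) (nat_lit 1) .nil)))))) (.g (nat_lit 5) .nil .nil))) 
(.lf (nat_lit 256576) (.g (nat_lit 2252) (.e (nat_lit 164179) (nat_lit 154) (.e (nat_lit 57373) (nat_lit 2) (.e (nat_lit 90158) (nat_lit 11) (.e (nat_lit 24608) (nat_lit 3) .nil)))) .nil))) (.nd (nat_lit 6) 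
(.lf (nat_lit 256544) (.g (nat_lit 412) (.e (nat_lit 164178) (nat_lit 154) (.e (nat_lit 57445) (nat_lit 19) (.e (nat_lit 393229) (nat_lit 9) .nil))) .nil)) 
(.lf (nat_lit 256608) (.g (nat_lit 812) (.e (nat_lit 164179) (nat_lit 154) (.e (nat_lit 57406) (nat_lit 12) (.e (nat_lit 336322) (nat_lit 18) .nil))) .nil)))) (.nd (nat_lit 5) (.nd (nat_lit 6) 
(.lf (nat_lit 256528) (.g (nat_lit 2085) (.e (nat_lit 164178) (nat_lit 154) (.e (nat_lit 57432) (nat_lit 16) (.e (nat_lit 368676) (nat_lit 21) (.e (nat_lit 516176) (nat_lit 14) (.e (nat_lit 466980) (nat_lit 23) (.e (nat_lit 212736) (nat_lit 1) .nil)))))) (.g (nat_lit 5) .nil .nil))) 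
(.lf (nat_lit 256592) (.g (nat_lit 431) (.e (nat_lit 164179) (nat_lit 154) (.e (nat_lit 57377) (nat_lit 3) (.e (nat_lit 106240) (nat_lit 11) .nil))) .nil))) (.nd (nat_lit 6) 
(.lf (nat_lit 256560) (.g (nat_lit 599) (.e (nat_lit 164178) (nat_lit 154) (.e (nat_lit 57448) (nat_lit 19) (.e (nat_lit 393229) (nat_lit 9) .nil))) .nil)) 
(.lf (nat_lit 256624) (.g (nat_lit 1278) (.e (nat_lit 164179) (nat_lit 154) (.e (nat_lit 57406) (nat_lit 12) (.e (nat_lit 336414) (nat_lit 27) .nil))) .nil))))) (.nd (nat_lit 4) (.nd (nat_lit 5) (.nd (nat_lit 6) 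
(.lf (nat_lit 256520) (.g (nat_lit 2572) (.e (nat_lit 164178) (nat_lit 154) (.e (nat_lit 57432) (nat_lit 16) (.e (nat_lit 368676) (nat_lit 21) (.e (nat_lit 516176) (nat_lit 14) (.e (nat_lit 466976) (nat_lit 22) (.e (nat_lit 196622) (nat_lit 9) (.e (nat_lit 156) (nat_lit 10) .nil))))))) (.g (nat_lit 6) .nil .nil))) 
(.lf (nat_lit 256584) (.g (nat_lit 3890) (.e (nat_lit 164179) (nat_lit 154) (.e (nat_lit 57377) (nat_lit 3) (.e (nat_lit 98317) (nat_lit 9) (.e (nat_lit 336184) (nat_lit 11) .nil)))) .nil))) (.nd (nat_lit 6) 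
(.lf (nat_lit 256552) (.g (nat_lit 4074) (.e (nat_lit 164178) (nat_lit 154) (.e (nat_lit 57445) (nat_lit 19) (.e (nat_lit 393229) (nat_lit 9) (.e (nat_lit 336185) (nat_lit 11) .nil)))) .nil)) 
(.lf (nat_lit 256616) (.g (nat_lit 3075) (.e (nat_lit 164179) (nat_lit 154) (.e (nat_lit 57406) (nat_lit 12) (.e (nat_lit 336326) (nat_lit 18) (.e (nat_lit 204876) (nat_lit 31) (.e (nat_lit 376842) (nat_lit 11) (.e (nat_lit 426107) (nat_lit 1) .nil)))))) (.g (nat_lit 0) .nil .nil))))) (.nd (nat_lit 5) (.nd (nat_lit 6) 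
(.lf (nat_lit 256536) (.g (nat_lit 1606) (.e (nat_lit 164178) (nat_lit 154) (.e (nat_lit 57437) (nat_lit 17) (.e (nat_lit 376842) (nat_lit 11) (.e (nat_lit 433920) (nat_lit 7) .nil)))) .nil)) 
(.lf (nat_lit 256600) (.g (nat_lit 2352) (.e (nat_lit 164179) (nat_lit 154) (.e (nat_lit 57378) (nat_lit 3) (.e (nat_lit 98341) (nat_lit 20) (.e (nat_lit 221215) (nat_lit 23) (.e (nat_lit 204862) (nat_lit 27) .nil))))) .nil))) (.nd (nat_lit 6) 
(.lf (nat_lit 256568) (.g (nat_lit 1403) (.e (nat_lit 164179) (nat_lit 154) (.e (nat_lit 57371) (nat_lit 2) (.e (nat_lit 90158) (nat_lit 11) (.e (nat_lit 24658) (nat_lit 13) .nil)))) .nil)) 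
(.lf (nat_lit 256632) (.g (nat_lit 404) (.e (nat_lit 164179) (nat_lit 154) (.e (nat_lit 57406) (nat_lit 12) (.e (nat_lit 336456) (nat_lit 34) .nil))) .nil)))))) (.nd (nat_lit 3) (.nd (nat_lit 4) (.nd (nat_lit 5) (.nd (nat_lit 6) 
(.lf (nat_lit 256516) (.g (nat_lit 2492) (.e (nat_lit 164178) (nat_lit 154) (.e (nat_lit 57432) (nat_lit 16) (.e (nat_lit 368676) (nat_lit 21) (.e (nat_lit 516176) (nat_lit 14) (.e (nat_lit 466967) (nat_lit 20) (.e (nat_lit 3304) (nat_lit 202) (.e (nat_lit 581376) (nat_lit 0) (.e (nat_lit 2607) (nat_lit 163) .nil)))))))) (.g (nat_lit 6) .nil .nil))) 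
(.lf (nat_lit 256580) (.g (nat_lit 392) (.e (nat_lit 164179) (nat_lit 154) (.e (nat_lit 57377) (nat_lit 3) (.e (nat_lit 98317) (nat_lit 9) .nil))) .nil))) (.nd (nat_lit 6) 
(.lf (nat_lit 256548) (.g (nat_lit 3203) (.e (nat_lit 164178) (nat_lit 154) (.e (nat_lit 57445) (nat_lit 19) (.e (nat_lit 393229) (nat_lit 9) (.e (nat_lit 336086) (nat_lit 9) (.e (nat_lit 336019) (nat_lit 3) .nil))))) .nil)) 
(.lf (nat_lit 256612) (.g (nat_lit 1495) (.e (nat_lit 164179) (nat_lit 154) (.e (nat_lit 57406) (nat_lit 12) (.e (nat_lit 336324) (nat_lit 18) (.e (nat_lit 204867) (nat_lit 28) .nil)))) .nil)))) (.nd (nat_lit 5) (.nd (nat_lit 6) 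
(.lf (nat_lit 256532) (.g (nat_lit 3307) (.e (nat_lit 164178) (nat_lit 154) (.e (nat_lit 57437) (nat_lit 17) (.e (nat_lit 376842) (nat_lit 11) (.e (nat_lit 426166) (nat_lit 7) (.e (nat_lit 409645) (nat_lit 18) (.e (nat_lit 303115) (nat_lit 1) .nil)))))) (.g (nat_lit 6) .nil .nil))) 
(.lf (nat_lit 256596) (.g (nat_lit 3007) (.e (nat_lit 164179) (nat_lit 154) (.e (nat_lit 57377) (nat_lit 3) (.e (nat_lit 98342) (nat_lit 20) (.e (nat_lit 221215) (nat_lit 23) (.e (nat_lit 204859) (nat_lit 26) (.e (nat_lit 336017) (nat_lit 3) (.e (nat_lit 98333) (nat_lit 18) .nil))))))) (.g (nat_lit 4) .nil .nil)))) (.nd (nat_lit 6) 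
(.lf (nat_lit 256564) (.g (nat_lit 1749) (.e (nat_lit 164179) (nat_lit 154) (.e (nat_lit 57355) (nat_lit 0) (.e (nat_lit 1858) (nat_lit 124) (.e (nat_lit 557105) (nat_lit 14) (.e (nat_lit 180251) (nat_lit 10) .nil))))) .nil)) 
(.lf (nat_lit 256628) (.g (nat_lit 1944) (.e (nat_lit 164179) (nat_lit 154) (.e (nat_lit 57406) (nat_lit 12) (.e (nat_lit 336454) (nat_lit 34) (.e (nat_lit 483345) (nat_lit 17) .nil)))) .nil))))) (.nd (nat_lit 4) (.nd (nat_lit 5) (.nd (nat_lit 6) 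
(.lf (nat_lit 256524) (.g (nat_lit 2916) (.e (nat_lit 164178) (nat_lit 154) (.e (nat_lit 57432) (nat_lit 16) (.e (nat_lit 368676) (nat_lit 21) (.e (nat_lit 516176) (nat_lit 14) (.e (nat_lit 466977) (nat_lit 22) (.e (nat_lit 196622) (nat_lit 9) (.e (nat_lit 156) (nat_lit 10) .nil))))))) (.g (nat_lit 6) .nil .nil))) 
(.lf (nat_lit 256588) (.g (nat_lit 3978) (.e (nat_lit 164179) (nat_lit 154) (.e (nat_lit 57377) (nat_lit 3) (.e (nat_lit 98317) (nat_lit 9) (.e (nat_lit 336213) (nat_lit 13) .nil)))) .nil))) (.nd (nat_lit 6) 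
(.lf (nat_lit 256556) (.g (nat_lit 914) (.e (nat_lit 164178) (nat_lit 154) (.e (nat_lit 57447) (nat_lit 19) (.e (nat_lit 393227) (nat_lit 9) .nil))) .nil)) 
(.lf (nat_lit 256620) (.g (nat_lit 1216) (.e (nat_lit 164179) (nat_lit 154) (.e (nat_lit 57406) (nat_lit 12) (.e (nat_lit 336370) (nat_lit 27) .nil))) .nil)))) (.nd (nat_lit 5) (.nd (nat_lit 6) 
(.lf (nat_lit 256540) (.g (nat_lit 705) (.e (nat_lit 164178) (nat_lit 154) (.e (nat_lit 57437) (nat_lit 17) (.e (nat_lit 376860) (nat_lit 21) .nil))) .nil)) 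
(.lf (nat_lit 256604) (.g (nat_lit 3423) (.e (nat_lit 164179) (nat_lit 154) (.e (nat_lit 57379) (nat_lit 3) (.e (nat_lit 98334) (nat_lit 18) (.e (nat_lit 164330) (nat_lit 230) (.e (nat_lit 163927) (nat_lit 16) (.e (nat_lit 458789) (nat_lit 23) (.e (nat_lit 532530) (nat_lit 9) (.e (nat_lit 336310) (nat_lit 16) .nil)))))))) (.g (nat_lit 4) .nil .nil)))) (.nd (nat_lit 6) 
(.lf (nat_lit 256572) (.g (nat_lit 3467) (.e (nat_lit 164179) (nat_lit 154) (.e (nat_lit 57371) (nat_lit 2) (.e (nat_lit 90160) (nat_lit 11) (.e (nat_lit 24657) (nat_lit 13) (.e (nat_lit 393253) (nat_lit 18) .nil))))) .nil)) 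
(.lf (nat_lit 256636) (.g (nat_lit 3148) (.e (nat_lit 164179) (nat_lit 154) (.e (nat_lit 57407) (nat_lit 12) (.e (nat_lit 336324) (nat_lit 18) (.e (nat_lit 204854) (nat_lit 26) (.e (nat_lit 336211) (nat_lit 13) (.e (nat_lit 393254) (nat_lit 18) .nil)))))) (.g (nat_lit 0) .nil .nil)))))))) (.nd (nat_lit 2) (.nd (nat_lit 3) (.nd (nat_lit 4) (.nd (nat_lit 5) (.nd (nat_lit 6) 
(.lf (nat_lit 256514) (.g (nat_lit 1732) (.e (nat_lit 164178) (nat_lit 154) (.e (nat_lit 57432) (nat_lit 16) (.e (nat_lit 368676) (nat_lit 21) (.e (nat_lit 516176) (nat_lit 14) (.e (nat_lit 466967) (nat_lit 20) (.e (nat_lit 3253) (nat_lit 197) (.e (nat_lit 540416) (nat_lit 18) .nil))))))) (.g (nat_lit 4) .nil .nil))) 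
(.lf (nat_lit 256578) (.g (nat_lit 1467) (.e (nat_lit 164179) (nat_lit 154) (.e (nat_lit 57373) (nat_lit 2) (.e (nat_lit 90165) (nat_lit 12) (.e (nat_lit 171776) (nat_lit 48) .nil)))) .nil))) (.nd (nat_lit 6) 
(.lf (nat_lit 256546) (.g (nat_lit 3056) (.e (nat_lit 164178) (nat_lit 154) (.e (nat_lit 57445) (nat_lit 19) (.e (nat_lit 393229) (nat_lit 9) (.e (nat_lit 336084) (nat_lit 9) .nil)))) .nil)) 
(.lf (nat_lit 256610) (.g (nat_lit 321) (.e (nat_lit 164179) (nat_lit 154) (.e (nat_lit 57406) (nat_lit 12) (.e (nat_lit 336324) (nat_lit 18) .nil))) .nil)))) (.nd (nat_lit 5) (.nd (nat_lit 6) 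
(.lf (nat_lit 256530) (.g (nat_lit 571) (.e (nat_lit 164178) (nat_lit 154) (.e (nat_lit 57437) (nat_lit 17) (.e (nat_lit 376838) (nat_lit 11) .nil))) .nil)) 
(.lf (nat_lit 256594) (.g (nat_lit 1870) (.e (nat_lit 164179) (nat_lit 154) (.e (nat_lit 57377) (nat_lit 3) (.e (nat_lit 98342) (nat_lit 20) (.e (nat_lit 221212) (nat_lit 22) (.e (nat_lit 196664) (nat_lit 13) .nil))))) .nil))) (.nd (nat_lit 6) 
(.lf (nat_lit 256562) (.g (nat_lit 631) (.e (nat_lit 164178) (nat_lit 154) (.e (nat_lit 57448) (nat_lit 19) (.e (nat_lit 401152) (nat_lit 14) .nil))) .nil)) 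
(.lf (nat_lit 256626) (.g (nat_lit 1065) (.e (nat_lit 164179) (nat_lit 154) (.e (nat_lit 57406) (nat_lit 12) (.e (nat_lit 336450) (nat_lit 33) .nil))) .nil))))) (.nd (nat_lit 4) (.nd (nat_lit 5) (.nd (nat_lit 6) 
(.lf (nat_lit 256522) (.g (nat_lit 2806) (.e (nat_lit 164178) (nat_lit 154) (.e (nat_lit 57432) (nat_lit 16) (.e (nat_lit 368676) (nat_lit 21) (.e (nat_lit 516176) (nat_lit 14) (.e (nat_lit 466977) (nat_lit 22) (.e (nat_lit 196619) (nat_lit 9) (.e (nat_lit 155) (nat_lit 10) .nil))))))) (.g (nat_lit 6) .nil .nil))) 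
(.lf (nat_lit 256586) (.g (nat_lit 4224) (.e (nat_lit 164179) (nat_lit 154) (.e (nat_lit 57377) (nat_lit 3) (.e (nat_lit 98317) (nat_lit 9) (.e (nat_lit 336194) (nat_lit 12) .nil)))) .nil))) (.nd (nat_lit 6) 
(.lf (nat_lit 256554) (.g (nat_lit 1271) (.e (nat_lit 164178) (nat_lit 154) (.e (nat_lit 57447) (nat_lit 19) (.e (nat_lit 393224) (nat_lit 9) .nil))) .nil)) 
(.lf (nat_lit 256618) (.g (nat_lit 1119) (.e (nat_lit 164179) (nat_lit 154) (.e (nat_lit 57406) (nat_lit 12) (.e (nat_lit 336366) (nat_lit 27) .nil))) .nil)))) (.nd (nat_lit 5) (.nd (nat_lit 6) 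
(.lf (nat_lit 256538) (.g (nat_lit 2349) (.e (nat_lit 164178) (nat_lit 154) (.e (nat_lit 57437) (nat_lit 17) (.e (nat_lit 376859) (nat_lit 21) (.e (nat_lit 57847) (nat_lit 252) (.e (nat_lit 57365) (nat_lit 1) (.e (nat_lit 57854) (nat_lit 252) (.e (nat_lit 57409) (nat_lit 12) (.e (nat_lit 336310) (nat_lit 16) .nil)))))))) (.g (nat_lit 4) .nil .nil))) 
(.lf (nat_lit 256602) (.g (nat_lit 2993) (.e (nat_lit 164179) (nat_lit 154) (.e (nat_lit 57379) (nat_lit 3) (.e (nat_lit 98333) (nat_lit 18) (.e (nat_lit 164325) (nat_lit 230) (.e (nat_lit 163926) (nat_lit 16) (.e (nat_lit 458789) (nat_lit 23) (.e (nat_lit 532530) (nat_lit 9) (.e (nat_lit 336310) (nat_lit 16) .nil)))))))) (.g (nat_lit 4) .nil .nil)))) (.nd (nat_lit 6) 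
(.lf (nat_lit 256570) (.g (nat_lit 2892) (.e (nat_lit 164179) (nat_lit 154) (.e (nat_lit 57371) (nat_lit 2) (.e (nat_lit 90160) (nat_lit 11) (.e (nat_lit 24608) (nat_lit 3) (.e (nat_lit 98341) (nat_lit 20) .nil))))) .nil)) 
(.lf (nat_lit 256634) (.g (nat_lit 2325) (.e (nat_lit 164179) (nat_lit 154) (.e (nat_lit 57407) (nat_lit 12) (.e (nat_lit 336316) (nat_lit 17) (.e (nat_lit 196674) (nat_lit 15) (.e (nat_lit 81925) (nat_lit 11) (.e (nat_lit 426105) (nat_lit 1) .nil)))))) (.g (nat_lit 4) .nil .nil))))))) (.nd (nat_lit 3) (.nd (nat_lit 4) (.nd (nat_lit 5) (.nd (nat_lit 6) 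
(.lf (nat_lit 256518) (.g (nat_lit 1869) (.e (nat_lit 164178) (nat_lit 154) (.e (nat_lit 57432) (nat_lit 16) (.e (nat_lit 368676) (nat_lit 21) (.e (nat_lit 516176) (nat_lit 14) (.e (nat_lit 466967) (nat_lit 20) (.e (nat_lit 3305) (nat_lit 202) (.e (nat_lit 581376) (nat_lit 0) (.e (nat_lit 2612) (nat_lit 163) .nil)))))))) (.g (nat_lit 4) .nil .nil))) 
(.lf (nat_lit 256582) (.g (nat_lit 3715) (.e (nat_lit 164179) (nat_lit 154) (.e (nat_lit 57377) (nat_lit 3) (.e (nat_lit 98317) (nat_lit 9) (.e (nat_lit 336087) (nat_lit 9) .nil)))) .nil))) (.nd (nat_lit 6) 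
(.lf (nat_lit 256550) (.g (nat_lit 4229) (.e (nat_lit 164178) (nat_lit 154) (.e (nat_lit 57445) (nat_lit 19) (.e (nat_lit 393229) (nat_lit 9) (.e (nat_lit 336165) (nat_lit 10) .nil)))) .nil)) 
(.lf (nat_lit 256614) (.g (nat_lit 1176) (.e (nat_lit 164179) (nat_lit 154) (.e (nat_lit 57406) (nat_lit 12) (.e (nat_lit 336325) (nat_lit 18) (.e (nat_lit 204876) (nat_lit 31) .nil)))) .nil)))) (.nd (nat_lit 5) (.nd (nat_lit 6) 
(.lf (nat_lit 256534) (.g (nat_lit 3813) (.e (nat_lit 164178) (nat_lit 154) (.e (nat_lit 57437) (nat_lit 17) (.e (nat_lit 376842) (nat_lit 11) (.e (nat_lit 426172) (nat_lit 7) (.e (nat_lit 409646) (nat_lit 18) (.e (nat_lit 303115) (nat_lit 1) .nil)))))) (.g (nat_lit 6) .nil .nil))) 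
(.lf (nat_lit 256598) (.g (nat_lit 2290) (.e (nat_lit 164179) (nat_lit 154) (.e (nat_lit 57378) (nat_lit 3) (.e (nat_lit 98341) (nat_lit 20) (.e (nat_lit 221214) (nat_lit 23) (.e (nat_lit 204859) (nat_lit 26) .nil))))) .nil))) (.nd (nat_lit 6) 
(.lf (nat_lit 256566) (.g (nat_lit 739) (.e (nat_lit 164179) (nat_lit 154) (.e (nat_lit 57371) (nat_lit 2) (.e (nat_lit 90115) (nat_lit 0) .nil))) .nil)) 
(.lf (nat_lit 256630) (.g (nat_lit 1814) (.e (nat_lit 164179) (nat_lit 154) (.e (nat_lit 57406) (nat_lit 12) (.e (nat_lit 336454) (nat_lit 34) (.e (nat_lit 491264) (nat_lit 23) .nil)))) .nil))))) (.nd (nat_lit 4) (.nd (nat_lit 5) (.nd (nat_lit 6) 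
(.lf (nat_lit 256526) (.g (nat_lit 1894) (.e (nat_lit 164178) (nat_lit 154) (.e (nat_lit 57432) (nat_lit 16) (.e (nat_lit 368676) (nat_lit 21) (.e (nat_lit 516176) (nat_lit 14) (.e (nat_lit 466978) (nat_lit 23) (.e (nat_lit 212736) (nat_lit 1) .nil)))))) (.g (nat_lit 5) .nil .nil))) 
(.lf (nat_lit 256590) (.g (nat_lit 4048) (.e (nat_lit 164179) (nat_lit 154) (.e (nat_lit 57377) (nat_lit 3) (.e (nat_lit 98317) (nat_lit 9) (.e (nat_lit 336222) (nat_lit 13) .nil)))) .nil))) (.nd (nat_lit 6) 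
(.lf (nat_lit 256558) (.g (nat_lit 2020) (.e (nat_lit 164178) (nat_lit 154) (.e (nat_lit 57447) (nat_lit 19) (.e (nat_lit 393229) (nat_lit 9) (.e (nat_lit 336086) (nat_lit 9) .nil)))) .nil)) 
(.lf (nat_lit 256622) (.g (nat_lit 1123) (.e (nat_lit 164179) (nat_lit 154) (.e (nat_lit 57406) (nat_lit 12) (.e (nat_lit 336374) (nat_lit 27) .nil))) .nil)))) (.nd (nat_lit 5) (.nd (nat_lit 6) 
(.lf (nat_lit 256542) (.g (nat_lit 561) (.e (nat_lit 164178) (nat_lit 154) (.e (nat_lit 57444) (nat_lit 19) (.e (nat_lit 393229) (nat_lit 9) (.e (nat_lit 336184) (nat_lit 11) .nil)))) .nil)) 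
(.lf (nat_lit 256606) (.g (nat_lit 542) (.e (nat_lit 164179) (nat_lit 154) (.e (nat_lit 57388) (nat_lit 5) (.e (nat_lit 114696) (nat_lit 11) .nil))) .nil))) (.nd (nat_lit 6) 
(.lf (nat_lit 256574) (.g (nat_lit 1165) (.e (nat_lit 164179) (nat_lit 154) (.e (nat_lit 57372) (nat_lit 2) (.e (nat_lit 90114) (nat_lit 0) .nil))) .nil)) 
(.lf (nat_lit 256638) (.g (nat_lit 957) (.e (nat_lit 164179) (nat_lit 154) (.e (nat_lit 57407) (nat_lit 12) (.e (nat_lit 336324) (nat_lit 18) (.e (nat_lit 204865) (nat_lit 28) .nil)))) .nil)))))))) (.nd (nat_lit 1) (.nd (nat_lit 2) (.nd (nat_lit 3) (.nd (nat_lit 4) (.nd (nat_lit 5) (.nd (nat_lit 6) 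
(.lf (nat_lit 256513) (.g (nat_lit 1998) (.e (nat_lit 164178) (nat_lit 154) (.e (nat_lit 57432) (nat_lit 16) (.e (nat_lit 368676) (nat_lit 21) (.e (nat_lit 516174) (nat_lit 14) (.e (nat_lit 466981) (nat_lit 23) (.e (nat_lit 212736) (nat_lit 1) .nil)))))) (.g (nat_lit 5) .nil .nil))) 
(.lf (nat_lit 256577) (.g (nat_lit 2210) (.e (nat_lit 164179) (nat_lit 154) (.e (nat_lit 57373) (nat_lit 2) (.e (nat_lit 90158) (nat_lit 11) (.e (nat_lit 24658) (nat_lit 13) .nil)))) .nil))) (.nd (nat_lit 6) 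
(.lf (nat_lit 256545) (.g (nat_lit 3761) (.e (nat_lit 164178) (nat_lit 154) (.e (nat_lit 57445) (nat_lit 19) (.e (nat_lit 393229) (nat_lit 9) (.e (nat_lit 336078) (nat_lit 9) .nil)))) .nil)) 
(.lf (nat_lit 256609) (.g (nat_lit 2182) (.e (nat_lit 164179) (nat_lit 154) (.e (nat_lit 57406) (nat_lit 12) (.e (nat_lit 336322) (nat_lit 18) (.e (nat_lit 204854) (nat_lit 26) (.e (nat_lit 336211) (nat_lit 13) .nil))))) .nil)))) (.nd (nat_lit 5) (.nd (nat_lit 6) 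
(.lf (nat_lit 256529) (.g (nat_lit 2702) (.e (nat_lit 164178) (nat_lit 154) (.e (nat_lit 57432) (nat_lit 16) (.e (nat_lit 368676) (nat_lit 21) (.e (nat_lit 516176) (nat_lit 14) (.e (nat_lit 466981) (nat_lit 23) (.e (nat_lit 212736) (nat_lit 1) .nil)))))) (.g (nat_lit 5) .nil .nil))) 
(.lf (nat_lit 256593) (.g (nat_lit 2300) (.e (nat_lit 164179) (nat_lit 154) (.e (nat_lit 57377) (nat_lit 3) (.e (nat_lit 98341) (nat_lit 20) (.e (nat_lit 221215) (nat_lit 23) (.e (nat_lit 204862) (nat_lit 27) .nil))))) .nil))) (.nd (nat_lit 6) 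
(.lf (nat_lit 256561) (.g (nat_lit 631) (.e (nat_lit 164178) (nat_lit 154) (.e (nat_lit 57448) (nat_lit 19) (.e (nat_lit 401152) (nat_lit 12) .nil))) .nil)) 
(.lf (nat_lit 256625) (.g (nat_lit 1318) (.e (nat_lit 164179) (nat_lit 154) (.e (nat_lit 57406) (nat_lit 12) (.e (nat_lit 336446) (nat_lit 33) .nil))) .nil))))) (.nd (nat_lit 4) (.nd (nat_lit 5) (.nd (nat_lit 6) 
(.lf (nat_lit 256521) (.g (nat_lit 2447) (.e (nat_lit 164178) (nat_lit 154) (.e (nat_lit 57432) (nat_lit 16) (.e (nat_lit 368676) (nat_lit 21) (.e (nat_lit 516176) (nat_lit 14) (.e (nat_lit 466977) (nat_lit 22) (.e (nat_lit 196618) (nat_lit 9) (.e (nat_lit 158) (nat_lit 10) .nil))))))) (.g (nat_lit 5) .nil .nil))) 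
(.lf (nat_lit 256585) (.g (nat_lit 3882) (.e (nat_lit 164179) (nat_lit 154) (.e (nat_lit 57377) (nat_lit 3) (.e (nat_lit 98317) (nat_lit 9) (.e (nat_lit 336186) (nat_lit 11) .nil)))) .nil))) (.nd (nat_lit 6) 
(.lf (nat_lit 256553) (.g (nat_lit 4063) (.e (nat_lit 164178) (nat_lit 154) (.e (nat_lit 57445) (nat_lit 19) (.e (nat_lit 393229) (nat_lit 9) (.e (nat_lit 336188) (nat_lit 11) .nil)))) .nil)) 
(.lf (nat_lit 256617) (.g (nat_lit 3126) (.e (nat_lit 164179) (nat_lit 154) (.e (nat_lit 57406) (nat_lit 12) (.e (nat_lit 336326) (nat_lit 18) (.e (nat_lit 204877) (nat_lit 31) (.e (nat_lit 376842) (nat_lit 11) (.e (nat_lit 426107) (nat_lit 1) .nil)))))) (.g (nat_lit 0) .nil .nil))))) (.nd (nat_lit 5) (.nd (nat_lit 6) 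
(.lf (nat_lit 256537) (.g (nat_lit 1541) (.e (nat_lit 164178) (nat_lit 154) (.e (nat_lit 57437) (nat_lit 17) (.e (nat_lit 376859) (nat_lit 21) (.e (nat_lit 57655) (nat_lit 152) .nil)))) .nil)) 
(.lf (nat_lit 256601) (.g (nat_lit 1930) (.e (nat_lit 164179) (nat_lit 154) (.e (nat_lit 57378) (nat_lit 3) (.e (nat_lit 98342) (nat_lit 20) (.e (nat_lit 221215) (nat_lit 23) (.e (nat_lit 204862) (nat_lit 27) .nil))))) .nil))) (.nd (nat_lit 6) 
(.lf (nat_lit 256569) (.g (nat_lit 776) (.e (nat_lit 164179) (nat_lit 154) (.e (nat_lit 57371) (nat_lit 2) (.e (nat_lit 90160) (nat_lit 11) .nil))) .nil)) 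
(.lf (nat_lit 256633) (.g (nat_lit 1185) (.e (nat_lit 164179) (nat_lit 154) (.e (nat_lit 57407) (nat_lit 12) (.e (nat_lit 336316) (nat_lit 17) (.e (nat_lit 196630) (nat_lit 9) .nil)))) .nil)))))) (.nd (nat_lit 3) (.nd (nat_lit 4) (.nd (nat_lit 5) (.nd (nat_lit 6) 
(.lf (nat_lit 256517) (.g (nat_lit 1803) (.e (nat_lit 164178) (nat_lit 154) (.e (nat_lit 57432) (nat_lit 16) (.e (nat_lit 368676) (nat_lit 21) (.e (nat_lit 516176) (nat_lit 14) (.e (nat_lit 466967) (nat_lit 20) (.e (nat_lit 3304) (nat_lit 202) (.e (nat_lit 581376) (nat_lit 0) (.e (nat_lit 2609) (nat_lit 163) .nil)))))))) (.g (nat_lit 4) .nil .nil))) 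
(.lf (nat_lit 256581) (.g (nat_lit 3838) (.e (nat_lit 164179) (nat_lit 154) (.e (nat_lit 57377) (nat_lit 3) (.e (nat_lit 98317) (nat_lit 9) (.e (nat_lit 336027) (nat_lit 3) .nil)))) .nil))) (.nd (nat_lit 6) 
(.lf (nat_lit 256549) (.g (nat_lit 3543) (.e (nat_lit 164178) (nat_lit 154) (.e (nat_lit 57445) (nat_lit 19) (.e (nat_lit 393229) (nat_lit 9) (.e (nat_lit 336163) (nat_lit 10) .nil)))) .nil)) 
(.lf (nat_lit 256613) (.g (nat_lit 806) (.e (nat_lit 164179) (nat_lit 154) (.e (nat_lit 57406) (nat_lit 12) (.e (nat_lit 336325) (nat_lit 18) .nil))) .nil)))) (.nd (nat_lit 5) (.nd (nat_lit 6) 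
(.lf (nat_lit 256533) (.g (nat_lit 2210) (.e (nat_lit 164178) (nat_lit 154) (.e (nat_lit 57437) (nat_lit 17) (.e (nat_lit 376842) (nat_lit 11) (.e (nat_lit 426172) (nat_lit 7) (.e (nat_lit 409623) (nat_lit 10) (.e (nat_lit 5664) (nat_lit 312) (.e (nat_lit 2605) (nat_lit 163) .nil))))))) (.g (nat_lit 4) .nil .nil))) 
(.lf (nat_lit 256597) (.g (nat_lit 1928) (.e (nat_lit 164179) (nat_lit 154) (.e (nat_lit 57377) (nat_lit 3) (.e (nat_lit 98342) (nat_lit 20) (.e (nat_lit 221215) (nat_lit 23) (.e (nat_lit 204861) (nat_lit 26) .nil))))) .nil))) (.nd (nat_lit 6) 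
(.lf (nat_lit 256565) (.g (nat_lit 1958) (.e (nat_lit 164179) (nat_lit 154) (.e (nat_lit 57368) (nat_lit 1) (.e (nat_lit 57854) (nat_lit 252) (.e (nat_lit 57378) (nat_lit 3) (.e (nat_lit 98341) (nat_lit 20) .nil))))) .nil)) 
(.lf (nat_lit 256629) (.g (nat_lit 1825) (.e (nat_lit 164179) (nat_lit 154) (.e (nat_lit 57406) (nat_lit 12) (.e (nat_lit 336454) (nat_lit 34) (.e (nat_lit 483385) (nat_lit 23) (.e (nat_lit 343808) (nat_lit 3) (.e (nat_lit 98333) (nat_lit 18) .nil)))))) (.g (nat_lit 4) .nil .nil)))))) (.nd (nat_lit 4) (.nd (nat_lit 5) (.nd (nat_lit 6) 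
(.lf (nat_lit 256525) (.g (nat_lit 2871) (.e (nat_lit 164178) (nat_lit 154) (.e (nat_lit 57432) (nat_lit 16) (.e (nat_lit 368676) (nat_lit 21) (.e (nat_lit 516176) (nat_lit 14) (.e (nat_lit 466977) (nat_lit 22) (.e (nat_lit 196624) (nat_lit 9) (.e (nat_lit 153) (nat_lit 10) .nil))))))) (.g (nat_lit 6) .nil .nil))) 
(.lf (nat_lit 256589) (.g (nat_lit 5297) (.e (nat_lit 164179) (nat_lit 154) (.e (nat_lit 57377) (nat_lit 3) (.e (nat_lit 98317) (nat_lit 9) (.e (nat_lit 336215) (nat_lit 13) .nil)))) .nil))) (.nd (nat_lit 6) 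
(.lf (nat_lit 256557) (.g (nat_lit 1130) (.e (nat_lit 164178) (nat_lit 154) (.e (nat_lit 57447) (nat_lit 19) (.e (nat_lit 393227) (nat_lit 9) (.e (nat_lit 336152) (nat_lit 9) .nil)))) .nil)) 
(.lf (nat_lit 256621) (.g (nat_lit 1093) (.e (nat_lit 164179) (nat_lit 154) (.e (nat_lit 57406) (nat_lit 12) (.e (nat_lit 336372) (nat_lit 27) .nil))) .nil)))) (.nd (nat_lit 5) (.nd (nat_lit 6) 
(.lf (nat_lit 256541) (.g (nat_lit 2007) (.e (nat_lit 164178) (nat_lit 154) (.e (nat_lit 57437) (nat_lit 17) (.e (nat_lit 376860) (nat_lit 21) (.e (nat_lit 57854) (nat_lit 252) (.e (nat_lit 57366) (nat_lit 1) .nil))))) .nil)) 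
(.lf (nat_lit 256605) (.g (nat_lit 3042) (.e (nat_lit 164179) (nat_lit 154) (.e (nat_lit 57379) (nat_lit 3) (.e (nat_lit 98342) (nat_lit 20) (.e (nat_lit 221214) (nat_lit 23) (.e (nat_lit 204861) (nat_lit 26) (.e (nat_lit 336021) (nat_lit 3) (.e (nat_lit 98333) (nat_lit 18) .nil))))))) (.g (nat_lit 5) .nil .nil)))) (.nd (nat_lit 6) 
(.lf (nat_lit 256573) (.g (nat_lit 3369) (.e (nat_lit 164179) (nat_lit 154) (.e (nat_lit 57371) (nat_lit 2) (.e (nat_lit 90160) (nat_lit 11) (.e (nat_lit 24665) (nat_lit 14) (.e (nat_lit 401472) (nat_lit 28) .nil))))) .nil)) 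
(.lf (nat_lit 256637) (.g (nat_lit 1850) (.e (nat_lit 164179) (nat_lit 154) (.e (nat_lit 57407) (nat_lit 12) (.e (nat_lit 336324) (nat_lit 18) (.e (nat_lit 204854) (nat_lit 26) (.e (nat_lit 343808) (nat_lit 13) .nil))))) .nil))))))) (.nd (nat_lit 2) (.nd (nat_lit 3) (.nd (nat_lit 4) (.nd (nat_lit 5) (.nd (nat_lit 6) 
(.lf (nat_lit 256515) (.g (nat_lit 2952) (.e (nat_lit 164178) (nat_lit 154) (.e (nat_lit 57432) (nat_lit 16) (.e (nat_lit 368676) (nat_lit 21) (.e (nat_lit 516176) (nat_lit 14) (.e (nat_lit 466967) (nat_lit 20) (.e (nat_lit 3304) (nat_lit 202) (.e (nat_lit 581376) (nat_lit 0) (.e (nat_lit 2604) (nat_lit 163) .nil)))))))) (.g (nat_lit 6) .nil .nil))) 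
(.lf (nat_lit 256579) (.g (nat_lit 663) (.e (nat_lit 164179) (nat_lit 154) (.e (nat_lit 57374) (nat_lit 2) (.e (nat_lit 90165) (nat_lit 12) .nil))) .nil))) (.nd (nat_lit 6) 
(.lf (nat_lit 256547) (.g (nat_lit 3035) (.e (nat_lit 164178) (nat_lit 154) (.e (nat_lit 57445) (nat_lit 19) (.e (nat_lit 393229) (nat_lit 9) (.e (nat_lit 336085) (nat_lit 9) (.e (nat_lit 336019) (nat_lit 3) .nil))))) .nil)) 
(.lf (nat_lit 256611) (.g (nat_lit 1763) (.e (nat_lit 164179) (nat_lit 154) (.e (nat_lit 57406) (nat_lit 12) (.e (nat_lit 336324) (nat_lit 18) (.e (nat_lit 204854) (nat_lit 26) (.e (nat_lit 343808) (nat_lit 13) .nil))))) .nil)))) (.nd (nat_lit 5) (.nd (nat_lit 6) 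
(.lf (nat_lit 256531) (.g (nat_lit 353) (.e (nat_lit 164178) (nat_lit 154) (.e (nat_lit 57437) (nat_lit 17) (.e (nat_lit 376842) (nat_lit 11) .nil))) .nil)) 
(.lf (nat_lit 256595) (.g (nat_lit 1546) (.e (nat_lit 164179) (nat_lit 154) (.e (nat_lit 57377) (nat_lit 3) (.e (nat_lit 98342) (nat_lit 20) (.e (nat_lit 221214) (nat_lit 23) .nil)))) .nil))) (.nd (nat_lit 6) 
(.lf (nat_lit 256563) (.g (nat_lit 3875) (.e (nat_lit 164179) (nat_lit 154) (.e (nat_lit 57354) (nat_lit 0) (.e (nat_lit 1855) (nat_lit 124) (.e (nat_lit 557105) (nat_lit 14) (.e (nat_lit 180252) (nat_lit 10) (.e (nat_lit 573488) (nat_lit 14) (.e (nat_lit 73747) (nat_lit 3) (.e (nat_lit 516119) (nat_lit 1) .nil)))))))) (.g (nat_lit 5) .nil .nil))) 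
(.lf (nat_lit 256627) (.g (nat_lit 220) (.e (nat_lit 164179) (nat_lit 154) (.e (nat_lit 57406) (nat_lit 12) (.e (nat_lit 336454) (nat_lit 34) .nil))) .nil))))) (.nd (nat_lit 4) (.nd (nat_lit 5) (.nd (nat_lit 6) 
(.lf (nat_lit 256523) (.g (nat_lit 2492) (.e (nat_lit 164178) (nat_lit 154) (.e (nat_lit 57432) (nat_lit 16) (.e (nat_lit 368676) (nat_lit 21) (.e (nat_lit 516176) (nat_lit 14) (.e (nat_lit 466977) (nat_lit 22) (.e (nat_lit 196620) (nat_lit 9) (.e (nat_lit 158) (nat_lit 10) .nil))))))) (.g (nat_lit 5) .nil .nil))) 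
(.lf (nat_lit 256587) (.g (nat_lit 4338) (.e (nat_lit 164179) (nat_lit 154) (.e (nat_lit 57377) (nat_lit 3) (.e (nat_lit 98317) (nat_lit 9) (.e (nat_lit 336196) (nat_lit 12) .nil)))) .nil))) (.nd (nat_lit 6) 
(.lf (nat_lit 256555) (.g (nat_lit 810) (.e (nat_lit 164178) (nat_lit 154) (.e (nat_lit 57447) (nat_lit 19) (.e (nat_lit 393225) (nat_lit 9) .nil))) .nil)) 
(.lf (nat_lit 256619) (.g (nat_lit 1391) (.e (nat_lit 164179) (nat_lit 154) (.e (nat_lit 57406) (nat_lit 12) (.e (nat_lit 336366) (nat_lit 27) (.e (nat_lit 426546) (nat_lit 30) .nil)))) .nil)))) (.nd (nat_lit 5) (.nd (nat_lit 6) 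
(.lf (nat_lit 256539) (.g (nat_lit 2410) (.e (nat_lit 164178) (nat_lit 154) (.e (nat_lit 57437) (nat_lit 17) (.e (nat_lit 376859) (nat_lit 21) (.e (nat_lit 57847) (nat_lit 252) (.e (nat_lit 57365) (nat_lit 1) (.e (nat_lit 57854) (nat_lit 252) (.e (nat_lit 57409) (nat_lit 12) (.e (nat_lit 336314) (nat_lit 16) .nil)))))))) (.g (nat_lit 4) .nil .nil))) 
(.lf (nat_lit 256603) (.g (nat_lit 3196) (.e (nat_lit 164179) (nat_lit 154) (.e (nat_lit 57379) (nat_lit 3) (.e (nat_lit 98333) (nat_lit 18) (.e (nat_lit 164325) (nat_lit 230) (.e (nat_lit 163928) (nat_lit 16) (.e (nat_lit 458789) (nat_lit 23) (.e (nat_lit 532530) (nat_lit 9) (.e (nat_lit 336310) (nat_lit 16) .nil)))))))) (.g (nat_lit 4) .nil .nil)))) (.nd (nat_lit 6) 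
(.lf (nat_lit 256571) (.g (nat_lit 2318) (.e (nat_lit 164179) (nat_lit 154) (.e (nat_lit 57371) (nat_lit 2) (.e (nat_lit 90160) (nat_lit 11) (.e (nat_lit 24650) (nat_lit 12) .nil)))) .nil)) 
(.lf (nat_lit 256635) (.g (nat_lit 516) (.e (nat_lit 164179) (nat_lit 154) (.e (nat_lit 57407) (nat_lit 12) (.e (nat_lit 336320) (nat_lit 17) .nil))) .nil)))))) (.nd (nat_lit 3) (.nd (nat_lit 4) (.nd (nat_lit 5) (.nd (nat_lit 6) 
(.lf (nat_lit 256519) (.g (nat_lit 2757) (.e (nat_lit 164178) (nat_lit 154) (.e (nat_lit 57432) (nat_lit 16) (.e (nat_lit 368676) (nat_lit 21) (.e (nat_lit 516176) (nat_lit 14) (.e (nat_lit 466975) (nat_lit 22) (.e (nat_lit 196622) (nat_lit 9) (.e (nat_lit 156) (nat_lit 10) .nil))))))) (.g (nat_lit 6) .nil .nil))) 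
(.lf (nat_lit 256583) (.g (nat_lit 3655) (.e (nat_lit 164179) (nat_lit 154) (.e (nat_lit 57377) (nat_lit 3) (.e (nat_lit 98317) (nat_lit 9) (.e (nat_lit 336088) (nat_lit 9) .nil)))) .nil))) (.nd (nat_lit 6) 
(.lf (nat_lit 256551) (.g (nat_lit 3965) (.e (nat_lit 164178) (nat_lit 154) (.e (nat_lit 57445) (nat_lit 19) (.e (nat_lit 393229) (nat_lit 9) (.e (nat_lit 336183) (nat_lit 11) .nil)))) .nil)) 
(.lf (nat_lit 256615) (.g (nat_lit 1601) (.e (nat_lit 164179) (nat_lit 154) (.e (nat_lit 57406) (nat_lit 12) (.e (nat_lit 336325) (nat_lit 18) (.e (nat_lit 204877) (nat_lit 31) (.e (nat_lit 376842) (nat_lit 11) .nil))))) .nil)))) (.nd (nat_lit 5) (.nd (nat_lit 6) 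
(.lf (nat_lit 256535) (.g (nat_lit 2418) (.e (nat_lit 164178) (nat_lit 154) (.e (nat_lit 57437) (nat_lit 17) (.e (nat_lit 376842) (nat_lit 11) (.e (nat_lit 426172) (nat_lit 7) (.e (nat_lit 417536) (nat_lit 18) (.e (nat_lit 303115) (nat_lit 1) .nil)))))) (.g (nat_lit 4) .nil .nil))) 
(.lf (nat_lit 256599) (.g (nat_lit 3979) (.e (nat_lit 164179) (nat_lit 154) (.e (nat_lit 57378) (nat_lit 3) (.e (nat_lit 98341) (nat_lit 20) (.e (nat_lit 221214) (nat_lit 23) (.e (nat_lit 204863) (nat_lit 27) (.e (nat_lit 344118) (nat_lit 21) (.e (nat_lit 516119) (nat_lit 1) .nil))))))) (.g (nat_lit 5) .nil .nil)))) (.nd (nat_lit 6) 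
(.lf (nat_lit 256567) (.g (nat_lit 750) (.e (nat_lit 164179) (nat_lit 154) (.e (nat_lit 57371) (nat_lit 2) (.e (nat_lit 90158) (nat_lit 11) .nil))) .nil)) 
(.lf (nat_lit 256631) (.g (nat_lit 2851) (.e (nat_lit 164179) (nat_lit 154) (.e (nat_lit 57406) (nat_lit 12) (.e (nat_lit 336455) (nat_lit 34) (.e (nat_lit 483383) (nat_lit 23) (.e (nat_lit 336019) (nat_lit 3) .nil))))) .nil))))) (.nd (nat_lit 4) (.nd (nat_lit 5) (.nd (nat_lit 6) 
(.lf (nat_lit 256527) (.g (nat_lit 2186) (.e (nat_lit 164178) (nat_lit 154) (.e (nat_lit 57432) (nat_lit 16) (.e (nat_lit 368676) (nat_lit 21) (.e (nat_lit 516176) (nat_lit 14) (.e (nat_lit 466979) (nat_lit 23) (.e (nat_lit 212736) (nat_lit 1) .nil)))))) (.g (nat_lit 5) .nil .nil))) 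
(.lf (nat_lit 256591) (.g (nat_lit 3699) (.e (nat_lit 164179) (nat_lit 154) (.e (nat_lit 57377) (nat_lit 3) (.e (nat_lit 98317) (nat_lit 9) (.e (nat_lit 336223) (nat_lit 13) .nil)))) .nil))) (.nd (nat_lit 6) 
(.lf (nat_lit 256559) (.g (nat_lit 596) (.e (nat_lit 164178) (nat_lit 154) (.e (nat_lit 57448) (nat_lit 19) (.e (nat_lit 393225) (nat_lit 9) .nil))) .nil)) 
(.lf (nat_lit 256623) (.g (nat_lit 994) (.e (nat_lit 164179) (nat_lit 154) (.e (nat_lit 57406) (nat_lit 12) (.e (nat_lit 336379) (nat_lit 27) .nil))) .nil)))) (.nd (nat_lit 5) (.nd (nat_lit 6) 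
(.lf (nat_lit 256543) (.g (nat_lit 788) (.e (nat_lit 164178) (nat_lit 154) (.e (nat_lit 57445) (nat_lit 19) (.e (nat_lit 393221) (nat_lit 0) .nil))) .nil)) 
(.lf (nat_lit 256607) (.g (nat_lit 3513) (.e (nat_lit 164179) (nat_lit 154) (.e (nat_lit 57404) (nat_lit 12) (.e (nat_lit 336013) (nat_lit 2) (.e (nat_lit 90170) (nat_lit 13) (.e (nat_lit 172106) (nat_lit 10) (.e (nat_lit 434231) (nat_lit 23) (.e (nat_lit 540416) (nat_lit 18) .nil))))))) (.g (nat_lit 6) .nil .nil)))) (.nd (nat_lit 6) 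
(.lf (nat_lit 256575) (.g (nat_lit 1288) (.e (nat_lit 164179) (nat_lit 154) (.e (nat_lit 57373) (nat_lit 2) (.e (nat_lit 90158) (nat_lit 11) .nil))) .nil)) 
(.lf (nat_lit 256639) (.g (nat_lit 1608) (.e (nat_lit 164179) (nat_lit 154) (.e (nat_lit 57407) (nat_lit 12) (.e (nat_lit 336324) (nat_lit 18) (.e (nat_lit 204867) (nat_lit 28) .nil)))) .nil)))))))))

noncomputable def tv3325 : DT := (.nd (nat_lit 0) (.nd (nat_lit 1) (.nd (nat_lit 2) (.nd (nat_lit 3) (.nd (nat_lit 4) (.nd (nat_lit 5) (.nd (nat_lit 6) 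
(.lf (nat_lit 256640) (.g (nat_lit 2655) (.e (nat_lit 164179) (nat_lit 154) (.e (nat_lit 57407) (nat_lit 12) (.e (nat_lit 336324) (nat_lit 18) (.e (nat_lit 204877) (nat_lit 31) (.e (nat_lit 376842) (nat_lit 11) (.e (nat_lit 426106) (nat_lit 1) .nil)))))) (.g (nat_lit 0) .nil .nil))) 
(.lf (nat_lit 256704) (.g (nat_lit 744) (.e (nat_lit 164179) (nat_lit 154) (.e (nat_lit 57423) (nat_lit 14) (.e (nat_lit 352274) (nat_lit 11) .nil))) .nil))) (.nd (nat_lit 6) 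
(.lf (nat_lit 256672) (.g (nat_lit 1158) (.e (nat_lit 164179) (nat_lit 154) (.e (nat_lit 57411) (nat_lit 12) (.e (nat_lit 336019) (nat_lit 3) (.e (nat_lit 98381) (nat_lit 31) (.e (nat_lit 466967) (nat_lit 20) .nil))))) .nil)) 
(.lf (nat_lit 256736) (.g (nat_lit 2191) (.e (nat_lit 164179) (nat_lit 154) (.e (nat_lit 57432) (nat_lit 16) (.e (nat_lit 368676) (nat_lit 21) (.e (nat_lit 516176) (nat_lit 14) (.e (nat_lit 466967) (nat_lit 20) (.e (nat_lit 3304) (nat_lit 202) (.e (nat_lit 581376) (nat_lit 0) (.e (nat_lit 2605) (nat_lit 163) .nil)))))))) (.g (nat_lit 4) .nil .nil))))) (.nd (nat_lit 5) (.nd (nat_lit 6) 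
(.lf (nat_lit 256656) (.g (nat_lit 1294) (.e (nat_lit 164179) (nat_lit 154) (.e (nat_lit 57409) (nat_lit 12) (.e (nat_lit 336316) (nat_lit 17) (.e (nat_lit 196665) (nat_lit 13) .nil)))) .nil)) 
(.lf (nat_lit 256720) (.g (nat_lit 2254) (.e (nat_lit 164179) (nat_lit 154) (.e (nat_lit 57432) (nat_lit 16) (.e (nat_lit 368676) (nat_lit 21) (.e (nat_lit 516174) (nat_lit 14) (.e (nat_lit 466967) (nat_lit 20) (.e (nat_lit 3304) (nat_lit 202) (.e (nat_lit 581376) (nat_lit 0) (.e (nat_lit 2599) (nat_lit 163) .nil)))))))) (.g (nat_lit 4) .nil .nil)))) (.nd (nat_lit 6) 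
(.lf (nat_lit 256688) (.g (nat_lit 854) (.e (nat_lit 164179) (nat_lit 154) (.e (nat_lit 57411) (nat_lit 12) (.e (nat_lit 336369) (nat_lit 27) .nil))) .nil)) 
(.lf (nat_lit 256752) (.g (nat_lit 1983) (.e (nat_lit 164179) (nat_lit 154) (.e (nat_lit 57435) (nat_lit 17) (.e (nat_lit 376842) (nat_lit 11) (.e (nat_lit 426179) (nat_lit 8) (.e (nat_lit 417828) (nat_lit 18) .nil))))) .nil))))) (.nd (nat_lit 4) (.nd (nat_lit 5) (.nd (nat_lit 6) 
(.lf (nat_lit 256648) (.g (nat_lit 642) (.e (nat_lit 164179) (nat_lit 154) (.e (nat_lit 57407) (nat_lit 12) (.e (nat_lit 336372) (nat_lit 27) .nil))) .nil)) 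
(.lf (nat_lit 256712) (.g (nat_lit 2419) (.e (nat_lit 164179) (nat_lit 154) (.e (nat_lit 57430) (nat_lit 16) (.e (nat_lit 368676) (nat_lit 21) (.e (nat_lit 516176) (nat_lit 14) (.e (nat_lit 466976) (nat_lit 22) (.e (nat_lit 196628) (nat_lit 9) (.e (nat_lit 7936) (nat_lit 10) .nil))))))) (.g (nat_lit 5) .nil .nil)))) (.nd (nat_lit 6) 
(.lf (nat_lit 256680) (.g (nat_lit 628) (.e (nat_lit 164179) (nat_lit 154) (.e (nat_lit 57411) (nat_lit 12) (.e (nat_lit 336324) (nat_lit 18) .nil))) .nil)) 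
(.lf (nat_lit 256744) (.g (nat_lit 3226) (.e (nat_lit 164179) (nat_lit 154) (.e (nat_lit 57432) (nat_lit 16) (.e (nat_lit 368676) (nat_lit 21) (.e (nat_lit 516176) (nat_lit 14) (.e (nat_lit 466977) (nat_lit 22) (.e (nat_lit 196622) (nat_lit 9) (.e (nat_lit 156) (nat_lit 10) .nil))))))) (.g (nat_lit 6) .nil .nil))))) (.nd (nat_lit 5) (.nd (nat_lit 6) 
(.lf (nat_lit 256664) (.g (nat_lit 713) (.e (nat_lit 164179) (nat_lit 154) (.e (nat_lit 57409) (nat_lit 12) (.e (nat_lit 336374) (nat_lit 27) .nil))) .nil)) 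
(.lf (nat_lit 256728) (.g (nat_lit 2383) (.e (nat_lit 164179) (nat_lit 154) (.e (nat_lit 57432) (nat_lit 16) (.e (nat_lit 368676) (nat_lit 21) (.e (nat_lit 516174) (nat_lit 14) (.e (nat_lit 466981) (nat_lit 23) (.e (nat_lit 212736) (nat_lit 1) .nil)))))) (.g (nat_lit 5) .nil .nil)))) (.nd (nat_lit 6) 
(.lf (nat_lit 256696) (.g (nat_lit 1513) (.e (nat_lit 164179) (nat_lit 154) (.e (nat_lit 57412) (nat_lit 12) (.e (nat_lit 336295) (nat_lit 15) (.e (nat_lit 3234) (nat_lit 197) .nil)))) .nil)) 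
(.lf (nat_lit 256760) (.g (nat_lit 1519) (.e (nat_lit 164179) (nat_lit 154) (.e (nat_lit 57437) (nat_lit 17) (.e (nat_lit 376842) (nat_lit 11) (.e (nat_lit 426181) (nat_lit 8) (.e (nat_lit 425728) (nat_lit 18) .nil))))) .nil)))))) (.nd (nat_lit 3) (.nd (nat_lit 4) (.nd (nat_lit 5) (.nd (nat_lit 6) 
(.lf (nat_lit 256644) (.g (nat_lit 2656) (.e (nat_lit 164179) (nat_lit 154) (.e (nat_lit 57407) (nat_lit 12) (.e (nat_lit 336326) (nat_lit 18) (.e (nat_lit 204876) (nat_lit 31) (.e (nat_lit 376842) (nat_lit 11) (.e (nat_lit 426106) (nat_lit 1) .nil)))))) (.g (nat_lit 0) .nil .nil))) 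
(.lf (nat_lit 256708) (.g (nat_lit 1484) (.e (nat_lit 164179) (nat_lit 154) (.e (nat_lit 57425) (nat_lit 14) (.e (nat_lit 352324) (nat_lit 26) (.e (nat_lit 147494) (nat_lit 11) (.e (nat_lit 24665) (nat_lit 14) .nil))))) .nil))) (.nd (nat_lit 6) 
(.lf (nat_lit 256676) (.g (nat_lit 1718) (.e (nat_lit 164179) (nat_lit 154) (.e (nat_lit 57411) (nat_lit 12) (.e (nat_lit 336316) (nat_lit 17) (.e (nat_lit 196665) (nat_lit 13) (.e (nat_lit 65626) (nat_lit 13) .nil))))) .nil)) 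
(.lf (nat_lit 256740) (.g (nat_lit 2882) (.e (nat_lit 164179) (nat_lit 154) (.e (nat_lit 57432) (nat_lit 16) (.e (nat_lit 368676) (nat_lit 21) (.e (nat_lit 516176) (nat_lit 14) (.e (nat_lit 466976) (nat_lit 22) (.e (nat_lit 196622) (nat_lit 9) (.e (nat_lit 156) (nat_lit 10) .nil))))))) (.g (nat_lit 6) .nil .nil))))) (.nd (nat_lit 5) (.nd (nat_lit 6) 
(.lf (nat_lit 256660) (.g (nat_lit 701) (.e (nat_lit 164179) (nat_lit 154) (.e (nat_lit 57409) (nat_lit 12) (.e (nat_lit 336325) (nat_lit 18) .nil))) .nil)) 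
(.lf (nat_lit 256724) (.g (nat_lit 1359) (.e (nat_lit 164179) (nat_lit 154) (.e (nat_lit 57432) (nat_lit 16) (.e (nat_lit 368676) (nat_lit 21) (.e (nat_lit 516174) (nat_lit 14) (.e (nat_lit 466975) (nat_lit 22) (.e (nat_lit 196628) (nat_lit 9) (.e (nat_lit 156) (nat_lit 10) .nil))))))) (.g (nat_lit 4) .nil .nil)))) (.nd (nat_lit 6) 
(.lf (nat_lit 256692) (.g (nat_lit 1003) (.e (nat_lit 164179) (nat_lit 154) (.e (nat_lit 57411) (nat_lit 12) (.e (nat_lit 336379) (nat_lit 27) (.e (nat_lit 433920) (nat_lit 30) .nil)))) .nil)) 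
(.lf (nat_lit 256756) (.g (nat_lit 1867) (.e (nat_lit 164179) (nat_lit 154) (.e (nat_lit 57437) (nat_lit 17) (.e (nat_lit 376842) (nat_lit 11) (.e (nat_lit 426003) (nat_lit 0) (.e (nat_lit 6989) (nat_lit 377) .nil))))) .nil))))) (.nd (nat_lit 4) (.nd (nat_lit 5) (.nd (nat_lit 6) 
(.lf (nat_lit 256652) (.g (nat_lit 3331) (.e (nat_lit 164179) (nat_lit 154) (.e (nat_lit 57407) (nat_lit 12) (.e (nat_lit 336454) (nat_lit 34) (.e (nat_lit 483384) (nat_lit 23) (.e (nat_lit 336019) (nat_lit 3) (.e (nat_lit 98333) (nat_lit 18) .nil)))))) (.g (nat_lit 0) .nil .nil))) 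
(.lf (nat_lit 256716) (.g (nat_lit 2098) (.e (nat_lit 164179) (nat_lit 154) (.e (nat_lit 57431) (nat_lit 16) (.e (nat_lit 368676) (nat_lit 21) (.e (nat_lit 516176) (nat_lit 14) (.e (nat_lit 466976) (nat_lit 22) (.e (nat_lit 196628) (nat_lit 9) (.e (nat_lit 7936) (nat_lit 10) .nil))))))) (.g (nat_lit 4) .nil .nil)))) (.nd (nat_lit 6) 
(.lf (nat_lit 256684) (.g (nat_lit 859) (.e (nat_lit 164179) (nat_lit 154) (.e (nat_lit 57411) (nat_lit 12) (.e (nat_lit 336366) (nat_lit 27) .nil))) .nil)) 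
(.lf (nat_lit 256748) (.g (nat_lit 2295) (.e (nat_lit 164179) (nat_lit 154) (.e (nat_lit 57432) (nat_lit 16) (.e (nat_lit 368676) (nat_lit 21) (.e (nat_lit 516176) (nat_lit 14) (.e (nat_lit 466978) (nat_lit 23) (.e (nat_lit 212736) (nat_lit 1) .nil)))))) (.g (nat_lit 5) .nil .nil))))) (.nd (nat_lit 5) (.nd (nat_lit 6) 
(.lf (nat_lit 256668) (.g (nat_lit 639) (.e (nat_lit 164179) (nat_lit 154) (.e (nat_lit 57410) (nat_lit 12) (.e (nat_lit 336211) (nat_lit 13) (.e (nat_lit 393263) (nat_lit 22) .nil)))) .nil)) 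
(.lf (nat_lit 256732) (.g (nat_lit 1802) (.e (nat_lit 164179) (nat_lit 154) (.e (nat_lit 57432) (nat_lit 16) (.e (nat_lit 368676) (nat_lit 21) (.e (nat_lit 516176) (nat_lit 14) (.e (nat_lit 466967) (nat_lit 20) (.e (nat_lit 3304) (nat_lit 202) (.e (nat_lit 573443) (nat_lit 0) (.e (nat_lit 2605) (nat_lit 163) .nil)))))))) (.g (nat_lit 4) .nil .nil)))) (.nd (nat_lit 6) 
(.lf (nat_lit 256700) (.g (nat_lit 3948) (.e (nat_lit 164179) (nat_lit 154) (.e (nat_lit 57420) (nat_lit 13) (.e (nat_lit 344133) (nat_lit 26) (.e (nat_lit 557091) (nat_lit 12) (.e (nat_lit 164238) (nat_lit 187) (.e (nat_lit 1661) (nat_lit 115) (.e (nat_lit 393251) (nat_lit 18) .nil))))))) (.g (nat_lit 6) .nil .nil))) 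
(.lf (nat_lit 256764) (.g (nat_lit 2950) (.e (nat_lit 164179) (nat_lit 154) (.e (nat_lit 57437) (nat_lit 17) (.e (nat_lit 376859) (nat_lit 21) (.e (nat_lit 57847) (nat_lit 252) (.e (nat_lit 57365) (nat_lit 1) (.e (nat_lit 57854) (nat_lit 252) (.e (nat_lit 57409) (nat_lit 12) (.e (nat_lit 336310) (nat_lit 16) .nil)))))))) (.g (nat_lit 4) .nil .nil)))))))) 
(.nd (nat_lit 2) (.nd (nat_lit 3) (.nd (nat_lit 4) (.nd (nat_lit 5) (.nd (nat_lit 6) 
(.lf (nat_lit 256642) (.g (nat_lit 3354) (.e (nat_lit 164179) (nat_lit 154) (.e (nat_lit 57407) (nat_lit 12) (.e (nat_lit 336326) (nat_lit 18) (.e (nat_lit 204854) (nat_lit 26) (.e (nat_lit 336211) (nat_lit 13) (.e (nat_lit 393253) (nat_lit 18) .nil)))))) (.g (nat_lit 0) .nil .nil))) 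
(.lf (nat_lit 256706) (.g (nat_lit 807) (.e (nat_lit 164179) (nat_lit 154) (.e (nat_lit 57424) (nat_lit 14) (.e (nat_lit 352324) (nat_lit 26) .nil))) .nil))) (.nd (nat_lit 6) 
(.lf (nat_lit 256674) (.g (nat_lit 1884) (.e (nat_lit 164179) (nat_lit 154) (.e (nat_lit 57411) (nat_lit 12) (.e (nat_lit 336019) (nat_lit 3) (.e (nat_lit 98381) (nat_lit 31) (.e (nat_lit 466981) (nat_lit 23) (.e (nat_lit 212736) (nat_lit 1) .nil)))))) (.g (nat_lit 4) .nil .nil))) 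
(.lf (nat_lit 256738) (.g (nat_lit 1945) (.e (nat_lit 164179) (nat_lit 154) (.e (nat_lit 57432) (nat_lit 16) (.e (nat_lit 368676) (nat_lit 21) (.e (nat_lit 516176) (nat_lit 14) (.e (nat_lit 466967) (nat_lit 20) (.e (nat_lit 3305) (nat_lit 202) (.e (nat_lit 573446) (nat_lit 0) (.e (nat_lit 2608) (nat_lit 163) .nil)))))))) (.g (nat_lit 4) .nil .nil))))) (.nd (nat_lit 5) (.nd (nat_lit 6) 
(.lf (nat_lit 256658) (.g (nat_lit 2112) (.e (nat_lit 164179) (nat_lit 154) (.e (nat_lit 57409) (nat_lit 12) (.e (nat_lit 336324) (nat_lit 18) (.e (nat_lit 204850) (nat_lit 26) (.e (nat_lit 336224) (nat_lit 13) .nil))))) .nil)) 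
(.lf (nat_lit 256722) (.g (nat_lit 1720) (.e (nat_lit 164179) (nat_lit 154) (.e (nat_lit 57432) (nat_lit 16) (.e (nat_lit 368676) (nat_lit 21) (.e (nat_lit 516174) (nat_lit 14) (.e (nat_lit 466967) (nat_lit 20) (.e (nat_lit 3304) (nat_lit 202) (.e (nat_lit 581376) (nat_lit 0) (.e (nat_lit 2608) (nat_lit 163) .nil)))))))) (.g (nat_lit 4) .nil .nil)))) (.nd (nat_lit 6) 
(.lf (nat_lit 256690) (.g (nat_lit 852) (.e (nat_lit 164179) (nat_lit 154) (.e (nat_lit 57411) (nat_lit 12) (.e (nat_lit 336374) (nat_lit 27) .nil))) .nil)) 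
(.lf (nat_lit 256754) (.g (nat_lit 388) (.e (nat_lit 164179) (nat_lit 154) (.e (nat_lit 57435) (nat_lit 17) (.e (nat_lit 384768) (nat_lit 12) .nil))) .nil))))) (.nd (nat_lit 4) (.nd (nat_lit 5) (.nd (nat_lit 6) 
(.lf (nat_lit 256650) (.g (nat_lit 693) (.e (nat_lit 164179) (nat_lit 154) (.e (nat_lit 57407) (nat_lit 12) (.e (nat_lit 336379) (nat_lit 27) .nil))) .nil)) 
(.lf (nat_lit 256714) (.g (nat_lit 2386) (.e (nat_lit 164179) (nat_lit 154) (.e (nat_lit 57430) (nat_lit 16) (.e (nat_lit 368676) (nat_lit 21) (.e (nat_lit 516176) (nat_lit 14) (.e (nat_lit 466977) (nat_lit 22) (.e (nat_lit 196624) (nat_lit 9) (.e (nat_lit 155) (nat_lit 10) .nil))))))) (.g (nat_lit 4) .nil .nil)))) (.nd (nat_lit 6) 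
(.lf (nat_lit 256682) (.g (nat_lit 859) (.e (nat_lit 164179) (nat_lit 154) (.e (nat_lit 57411) (nat_lit 12) (.e (nat_lit 336325) (nat_lit 18) .nil))) .nil)) 
(.lf (nat_lit 256746) (.g (nat_lit 3053) (.e (nat_lit 164179) (nat_lit 154) (.e (nat_lit 57432) (nat_lit 16) (.e (nat_lit 368676) (nat_lit 21) (.e (nat_lit 516176) (nat_lit 14) (.e (nat_lit 466977) (nat_lit 22) (.e (nat_lit 196624) (nat_lit 9) (.e (nat_lit 155) (nat_lit 10) .nil))))))) (.g (nat_lit 6) .nil .nil))))) (.nd (nat_lit 5) (.nd (nat_lit 6) 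
(.lf (nat_lit 256666) (.g (nat_lit 662) (.e (nat_lit 164179) (nat_lit 154) (.e (nat_lit 57409) (nat_lit 12) (.e (nat_lit 336414) (nat_lit 27) .nil))) .nil)) 
(.lf (nat_lit 256730) (.g (nat_lit 2008) (.e (nat_lit 164179) (nat_lit 154) (.e (nat_lit 57432) (nat_lit 16) (.e (nat_lit 368676) (nat_lit 21) (.e (nat_lit 516176) (nat_lit 14) (.e (nat_lit 466967) (nat_lit 20) (.e (nat_lit 3295) (nat_lit 202) (.e (nat_lit 573446) (nat_lit 0) (.e (nat_lit 2608) (nat_lit 163) .nil)))))))) (.g (nat_lit 4) .nil .nil)))) (.nd (nat_lit 6) 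
(.lf (nat_lit 256698) (.g (nat_lit 2985) (.e (nat_lit 164179) (nat_lit 154) (.e (nat_lit 57418) (nat_lit 12) (.e (nat_lit 336004) (nat_lit 2) (.e (nat_lit 90176) (nat_lit 15) (.e (nat_lit 188450) (nat_lit 23) (.e (nat_lit 212736) (nat_lit 1) .nil)))))) (.g (nat_lit 5) .nil .nil))) 
(.lf (nat_lit 256762) (.g (nat_lit 518) (.e (nat_lit 164179) (nat_lit 154) (.e (nat_lit 57437) (nat_lit 17) (.e (nat_lit 376859) (nat_lit 21) .nil))) .nil)))))) (.nd (nat_lit 3) (.nd (nat_lit 4) (.nd (nat_lit 5) (.nd (nat_lit 6) 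
(.lf (nat_lit 256646) (.g (nat_lit 586) (.e (nat_lit 164179) (nat_lit 154) (.e (nat_lit 57407) (nat_lit 12) (.e (nat_lit 336366) (nat_lit 27) .nil))) .nil)) 
(.lf (nat_lit 256710) (.g (nat_lit 1948) (.e (nat_lit 164179) (nat_lit 154) (.e (nat_lit 57430) (nat_lit 16) (.e (nat_lit 368676) (nat_lit 21) (.e (nat_lit 516176) (nat_lit 14) (.e (nat_lit 466967) (nat_lit 20) (.e (nat_lit 3253) (nat_lit 197) (.e (nat_lit 540416) (nat_lit 18) .nil))))))) (.g (nat_lit 4) .nil .nil)))) (.nd (nat_lit 6) 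
(.lf (nat_lit 256678) (.g (nat_lit 842) (.e (nat_lit 164179) (nat_lit 154) (.e (nat_lit 57411) (nat_lit 12) (.e (nat_lit 336320) (nat_lit 17) .nil))) .nil)) 
(.lf (nat_lit 256742) (.g (nat_lit 2530) (.e (nat_lit 164179) (nat_lit 154) (.e (nat_lit 57432) (nat_lit 16) (.e (nat_lit 368676) (nat_lit 21) (.e (nat_lit 516176) (nat_lit 14) (.e (nat_lit 466977) (nat_lit 22) (.e (nat_lit 196618) (nat_lit 9) (.e (nat_lit 156) (nat_lit 10) .nil))))))) (.g (nat_lit 5) .nil .nil))))) (.nd (nat_lit 5) (.nd (nat_lit 6) 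
(.lf (nat_lit 256662) (.g (nat_lit 703) (.e (nat_lit 164179) (nat_lit 154) (.e (nat_lit 57409) (nat_lit 12) (.e (nat_lit 336369) (nat_lit 27) .nil))) .nil)) 
(.lf (nat_lit 256726) (.g (nat_lit 2375) (.e (nat_lit 164179) (nat_lit 154) (.e (nat_lit 57432) (nat_lit 16) (.e (nat_lit 368676) (nat_lit 21) (.e (nat_lit 516174) (nat_lit 14) (.e (nat_lit 466979) (nat_lit 23) (.e (nat_lit 212736) (nat_lit 1) .nil)))))) (.g (nat_lit 5) .nil .nil)))) (.nd (nat_lit 6) 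
(.lf (nat_lit 256694) (.g (nat_lit 497) (.e (nat_lit 164179) (nat_lit 154) (.e (nat_lit 57411) (nat_lit 12) (.e (nat_lit 336456) (nat_lit 34) .nil))) .nil)) 
(.lf (nat_lit 256758) (.g (nat_lit 1935) (.e (nat_lit 164179) (nat_lit 154) (.e (nat_lit 57437) (nat_lit 17) (.e (nat_lit 376842) (nat_lit 11) (.e (nat_lit 426179) (nat_lit 8) (.e (nat_lit 417830) (nat_lit 19) .nil))))) .nil))))) (.nd (nat_lit 4) (.nd (nat_lit 5) (.nd (nat_lit 6) 
(.lf (nat_lit 256654) (.g (nat_lit 1848) (.e (nat_lit 164179) (nat_lit 154) (.e (nat_lit 57407) (nat_lit 12) (.e (nat_lit 336454) (nat_lit 34) (.e (nat_lit 483396) (nat_lit 24) .nil)))) .nil)) 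
(.lf (nat_lit 256718) (.g (nat_lit 3905) (.e (nat_lit 164179) (nat_lit 154) (.e (nat_lit 57432) (nat_lit 16) (.e (nat_lit 368676) (nat_lit 21) (.e (nat_lit 516163) (nat_lit 11) (.e (nat_lit 442427) (nat_lit 23) (.e (nat_lit 212736) (nat_lit 1) .nil)))))) (.g (nat_lit 5) .nil .nil)))) (.nd (nat_lit 6) 
(.lf (nat_lit 256686) (.g (nat_lit 687) (.e (nat_lit 164179) (nat_lit 154) (.e (nat_lit 57411) (nat_lit 12) (.e (nat_lit 336367) (nat_lit 27) .nil))) .nil)) 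
(.lf (nat_lit 256750) (.g (nat_lit 2499) (.e (nat_lit 164179) (nat_lit 154) (.e (nat_lit 57432) (nat_lit 16) (.e (nat_lit 368676) (nat_lit 21) (.e (nat_lit 516176) (nat_lit 14) (.e (nat_lit 466980) (nat_lit 23) (.e (nat_lit 212736) (nat_lit 1) .nil)))))) (.g (nat_lit 5) .nil .nil))))) (.nd (nat_lit 5) (.nd (nat_lit 6) 
(.lf (nat_lit 256670) (.g (nat_lit 4227) (.e (nat_lit 164179) (nat_lit 154) (.e (nat_lit 57411) (nat_lit 12) (.e (nat_lit 336016) (nat_lit 2) (.e (nat_lit 90176) (nat_lit 15) (.e (nat_lit 188450) (nat_lit 23) (.e (nat_lit 212736) (nat_lit 1) .nil)))))) (.g (nat_lit 5) .nil .nil))) 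
(.lf (nat_lit 256734) (.g (nat_lit 3230) (.e (nat_lit 164179) (nat_lit 154) (.e (nat_lit 57432) (nat_lit 16) (.e (nat_lit 368676) (nat_lit 21) (.e (nat_lit 516176) (nat_lit 14) (.e (nat_lit 466967) (nat_lit 20) (.e (nat_lit 3304) (nat_lit 202) (.e (nat_lit 581376) (nat_lit 0) (.e (nat_lit 2599) (nat_lit 163) .nil)))))))) (.g (nat_lit 6) .nil .nil)))) (.nd (nat_lit 6) 
(.lf (nat_lit 256702) (.g (nat_lit 834) (.e (nat_lit 164179) (nat_lit 154) (.e (nat_lit 57421) (nat_lit 13) (.e (nat_lit 344117) (nat_lit 21) (.e (nat_lit 516165) (nat_lit 12) .nil)))) .nil)) 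
(.lf (nat_lit 256766) (.g (nat_lit 1478) (.e (nat_lit 164179) (nat_lit 154) (.e (nat_lit 57439) (nat_lit 18) (.e (nat_lit 385066) (nat_lit 26) (.e (nat_lit 532534) (nat_lit 9) (.e (nat_lit 336211) (nat_lit 13) .nil))))) .nil)))))))) (.nd (nat_lit 1) (.nd (nat_lit 2) (.nd (nat_lit 3) (.nd (nat_lit 4) (.nd (nat_lit 5) (.nd (nat_lit 6) 
(.lf (nat_lit 256641) (.g (nat_lit 1148) (.e (nat_lit 164179) (nat_lit 154) (.e (nat_lit 57407) (nat_lit 12) (.e (nat_lit 336324) (nat_lit 18) (.e (nat_lit 204878) (nat_lit 31) .nil)))) .nil)) 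
(.lf (nat_lit 256705) (.g (nat_lit 748) (.e (nat_lit 164179) (nat_lit 154) (.e (nat_lit 57424) (nat_lit 14) (.e (nat_lit 352277) (nat_lit 11) .nil))) .nil))) (.nd (nat_lit 6) 
(.lf (nat_lit 256673) (.g (nat_lit 2537) (.e (nat_lit 164179) (nat_lit 154) (.e (nat_lit 57411) (nat_lit 12) (.e (nat_lit 336019) (nat_lit 3) (.e (nat_lit 98381) (nat_lit 31) (.e (nat_lit 466977) (nat_lit 22) (.e (nat_lit 196624) (nat_lit 9) (.e (nat_lit 155) (nat_lit 10) .nil))))))) (.g (nat_lit 4) .nil .nil))) 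
(.lf (nat_lit 256737) (.g (nat_lit 2372) (.e (nat_lit 164179) (nat_lit 154) (.e (nat_lit 57432) (nat_lit 16) (.e (nat_lit 368676) (nat_lit 21) (.e (nat_lit 516176) (nat_lit 14) (.e (nat_lit 466967) (nat_lit 20) (.e (nat_lit 3304) (nat_lit 202) (.e (nat_lit 581376) (nat_lit 0) (.e (nat_lit 2614) (nat_lit 163) .nil)))))))) (.g (nat_lit 4) .nil .nil))))) (.nd (nat_lit 5) (.nd (nat_lit 6) 
(.lf (nat_lit 256657) (.g (nat_lit 707) (.e (nat_lit 164179) (nat_lit 154) (.e (nat_lit 57409) (nat_lit 12) (.e (nat_lit 336324) (nat_lit 18) .nil))) .nil)) 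
(.lf (nat_lit 256721) (.g (nat_lit 2006) (.e (nat_lit 164179) (nat_lit 154) (.e (nat_lit 57432) (nat_lit 16) (.e (nat_lit 368676) (nat_lit 21) (.e (nat_lit 516174) (nat_lit 14) (.e (nat_lit 466967) (nat_lit 20) (.e (nat_lit 3304) (nat_lit 202) (.e (nat_lit 581376) (nat_lit 0) (.e (nat_lit 2602) (nat_lit 163) .nil)))))))) (.g (nat_lit 4) .nil .nil)))) (.nd (nat_lit 6) 
(.lf (nat_lit 256689) (.g (nat_lit 854) (.e (nat_lit 164179) (nat_lit 154) (.e (nat_lit 57411) (nat_lit 12) (.e (nat_lit 336370) (nat_lit 27) .nil))) .nil)) 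
(.lf (nat_lit 256753) (.g (nat_lit 1712) (.e (nat_lit 164179) (nat_lit 154) (.e (nat_lit 57435) (nat_lit 17) (.e (nat_lit 376842) (nat_lit 11) (.e (nat_lit 426181) (nat_lit 8) .nil)))) .nil))))) (.nd (nat_lit 4) (.nd (nat_lit 5) (.nd (nat_lit 6) 
(.lf (nat_lit 256649) (.g (nat_lit 825) (.e (nat_lit 164179) (nat_lit 154) (.e (nat_lit 57407) (nat_lit 12) (.e (nat_lit 336374) (nat_lit 27) (.e (nat_lit 433920) (nat_lit 30) .nil)))) .nil)) 
(.lf (nat_lit 256713) (.g (nat_lit 2562) (.e (nat_lit 164179) (nat_lit 154) (.e (nat_lit 57430) (nat_lit 16) (.e (nat_lit 368676) (nat_lit 21) (.e (nat_lit 516176) (nat_lit 14) (.e (nat_lit 466977) (nat_lit 22) (.e (nat_lit 196622) (nat_lit 9) (.e (nat_lit 156) (nat_lit 10) .nil))))))) (.g (nat_lit 4) .nil .nil)))) (.nd (nat_lit 6) 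
(.lf (nat_lit 256681) (.g (nat_lit 3260) (.e (nat_lit 164179) (nat_lit 154) (.e (nat_lit 57411) (nat_lit 12) (.e (nat_lit 336324) (nat_lit 18) (.e (nat_lit 204854) (nat_lit 26) (.e (nat_lit 336211) (nat_lit 13) (.e (nat_lit 393254) (nat_lit 18) .nil)))))) (.g (nat_lit 4) .nil .nil))) 
(.lf (nat_lit 256745) (.g (nat_lit 2406) (.e (nat_lit 164179) (nat_lit 154) (.e (nat_lit 57432) (nat_lit 16) (.e (nat_lit 368676) (nat_lit 21) (.e (nat_lit 516176) (nat_lit 14) (.e (nat_lit 466977) (nat_lit 22) (.e (nat_lit 196624) (nat_lit 9) (.e (nat_lit 153) (nat_lit 10) .nil))))))) (.g (nat_lit 4) .nil .nil))))) (.nd (nat_lit 5) (.nd (nat_lit 6) 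
(.lf (nat_lit 256665) (.g (nat_lit 701) (.e (nat_lit 164179) (nat_lit 154) (.e (nat_lit 57409) (nat_lit 12) (.e (nat_lit 336395) (nat_lit 27) .nil))) .nil)) 
(.lf (nat_lit 256729) (.g (nat_lit 2940) (.e (nat_lit 164179) (nat_lit 154) (.e (nat_lit 57432) (nat_lit 16) (.e (nat_lit 368676) (nat_lit 21) (.e (nat_lit 516176) (nat_lit 14) (.e (nat_lit 466967) (nat_lit 20) (.e (nat_lit 3253) (nat_lit 197) (.e (nat_lit 540416) (nat_lit 18) .nil))))))) (.g (nat_lit 6) .nil .nil)))) (.nd (nat_lit 6) 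
(.lf (nat_lit 256697) (.g (nat_lit 3943) (.e (nat_lit 164179) (nat_lit 154) (.e (nat_lit 57413) (nat_lit 12) (.e (nat_lit 336013) (nat_lit 2) (.e (nat_lit 90170) (nat_lit 13) (.e (nat_lit 172106) (nat_lit 10) (.e (nat_lit 434231) (nat_lit 23) (.e (nat_lit 540416) (nat_lit 18) .nil))))))) (.g (nat_lit 6) .nil .nil))) 
(.lf (nat_lit 256761) (.g (nat_lit 1527) (.e (nat_lit 164179) (nat_lit 154) (.e (nat_lit 57437) (nat_lit 17) (.e (nat_lit 376842) (nat_lit 11) (.e (nat_lit 426344) (nat_lit 14) .nil)))) .nil)))))) (.nd (nat_lit 3) (.nd (nat_lit 4) (.nd (nat_lit 5) (.nd (nat_lit 6) 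
(.lf (nat_lit 256645) (.g (nat_lit 3051) (.e (nat_lit 164179) (nat_lit 154) (.e (nat_lit 57407) (nat_lit 12) (.e (nat_lit 336326) (nat_lit 18) (.e (nat_lit 204876) (nat_lit 31) (.e (nat_lit 376842) (nat_lit 11) (.e (nat_lit 426107) (nat_lit 1) .nil)))))) (.g (nat_lit 0) .nil .nil))) 
(.lf (nat_lit 256709) (.g (nat_lit 1864) (.e (nat_lit 164179) (nat_lit 154) (.e (nat_lit 57427) (nat_lit 15) (.e (nat_lit 360489) (nat_lit 21) (.e (nat_lit 770072) (nat_lit 8) (.e (nat_lit 65630) (nat_lit 14) .nil))))) .nil))) (.nd (nat_lit 6) 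
(.lf (nat_lit 256677) (.g (nat_lit 1472) (.e (nat_lit 164179) (nat_lit 154) (.e (nat_lit 57411) (nat_lit 12) (.e (nat_lit 336316) (nat_lit 17) (.e (nat_lit 196680) (nat_lit 17) .nil)))) .nil)) 
(.lf (nat_lit 256741) (.g (nat_lit 3037) (.e (nat_lit 164179) (nat_lit 154) (.e (nat_lit 57432) (nat_lit 16) (.e (nat_lit 368676) (nat_lit 21) (.e (nat_lit 516176) (nat_lit 14) (.e (nat_lit 466976) (nat_lit 22) (.e (nat_lit 196628) (nat_lit 9) (.e (nat_lit 7936) (nat_lit 10) .nil))))))) (.g (nat_lit 6) .nil .nil))))) (.nd (nat_lit 5) (.nd (nat_lit 6) 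
(.lf (nat_lit 256661) (.g (nat_lit 1382) (.e (nat_lit 164179) (nat_lit 154) (.e (nat_lit 57409) (nat_lit 12) (.e (nat_lit 336366) (nat_lit 27) (.e (nat_lit 426546) (nat_lit 30) (.e (nat_lit 360466) (nat_lit 3) .nil))))) .nil)) 
(.lf (nat_lit 256725) (.g (nat_lit 2088) (.e (nat_lit 164179) (nat_lit 154) (.e (nat_lit 57432) (nat_lit 16) (.e (nat_lit 368676) (nat_lit 21) (.e (nat_lit 516174) (nat_lit 14) (.e (nat_lit 466978) (nat_lit 23) (.e (nat_lit 212736) (nat_lit 1) .nil)))))) (.g (nat_lit 5) .nil .nil)))) (.nd (nat_lit 6) 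
(.lf (nat_lit 256693) (.g (nat_lit 854) (.e (nat_lit 164179) (nat_lit 154) (.e (nat_lit 57411) (nat_lit 12) (.e (nat_lit 336446) (nat_lit 33) .nil))) .nil)) 
(.lf (nat_lit 256757) (.g (nat_lit 1587) (.e (nat_lit 164179) (nat_lit 154) (.e (nat_lit 57437) (nat_lit 17) (.e (nat_lit 376842) (nat_lit 11) (.e (nat_lit 433920) (nat_lit 7) .nil)))) .nil))))) (.nd (nat_lit 4) (.nd (nat_lit 5) (.nd (nat_lit 6) 
(.lf (nat_lit 256653) (.g (nat_lit 1848) (.e (nat_lit 164179) (nat_lit 154) (.e (nat_lit 57407) (nat_lit 12) (.e (nat_lit 336454) (nat_lit 34) (.e (nat_lit 483395) (nat_lit 24) .nil)))) .nil)) 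
(.lf (nat_lit 256717) (.g (nat_lit 5906) (.e (nat_lit 164179) (nat_lit 154) (.e (nat_lit 57432) (nat_lit 16) (.e (nat_lit 368676) (nat_lit 21) (.e (nat_lit 516151) (nat_lit 9) (.e (nat_lit 426211) (nat_lit 9) (.e (nat_lit 426140) (nat_lit 3) (.e (nat_lit 212736) (nat_lit 1) .nil))))))) (.g (nat_lit 6) .nil .nil)))) (.nd (nat_lit 6) 
(.lf (nat_lit 256685) (.g (nat_lit 1111) (.e (nat_lit 164179) (nat_lit 154) (.e (nat_lit 57411) (nat_lit 12) (.e (nat_lit 336366) (nat_lit 27) (.e (nat_lit 426556) (nat_lit 32) .nil)))) .nil)) 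
(.lf (nat_lit 256749) (.g (nat_lit 2703) (.e (nat_lit 164179) (nat_lit 154) (.e (nat_lit 57432) (nat_lit 16) (.e (nat_lit 368676) (nat_lit 21) (.e (nat_lit 516176) (nat_lit 14) (.e (nat_lit 466979) (nat_lit 23) (.e (nat_lit 212736) (nat_lit 1) .nil)))))) (.g (nat_lit 5) .nil .nil))))) (.nd (nat_lit 5) (.nd (nat_lit 6) 
(.lf (nat_lit 256669) (.g (nat_lit 593) (.e (nat_lit 164179) (nat_lit 154) (.e (nat_lit 57411) (nat_lit 12) (.e (nat_lit 335878) (nat_lit 0) .nil))) .nil)) 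
(.lf (nat_lit 256733) (.g (nat_lit 1845) (.e (nat_lit 164179) (nat_lit 154) (.e (nat_lit 57432) (nat_lit 16) (.e (nat_lit 368676) (nat_lit 21) (.e (nat_lit 516176) (nat_lit 14) (.e (nat_lit 466967) (nat_lit 20) (.e (nat_lit 3304) (nat_lit 202) (.e (nat_lit 573447) (nat_lit 0) (.e (nat_lit 2608) (nat_lit 163) .nil)))))))) (.g (nat_lit 4) .nil .nil)))) (.nd (nat_lit 6) 
(.lf (nat_lit 256701) (.g (nat_lit 2130) (.e (nat_lit 164179) (nat_lit 154) (.e (nat_lit 57421) (nat_lit 13) (.e (nat_lit 344117) (nat_lit 21) (.e (nat_lit 516163) (nat_lit 11) (.e (nat_lit 442427) (nat_lit 23) .nil))))) .nil)) 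
(.lf (nat_lit 256765) (.g (nat_lit 2105) (.e (nat_lit 164179) (nat_lit 154) (.e (nat_lit 57437) (nat_lit 17) (.e (nat_lit 376860) (nat_lit 21) (.e (nat_lit 57691) (nat_lit 156) (.e (nat_lit 171776) (nat_lit 65) .nil))))) .nil))))))) (.nd (nat_lit 2) (.nd (nat_lit 3) (.nd (nat_lit 4) (.nd (nat_lit 5) (.nd (nat_lit 6) 
(.lf (nat_lit 256643) (.g (nat_lit 3039) (.e (nat_lit 164179) (nat_lit 154) (.e (nat_lit 57407) (nat_lit 12) (.e (nat_lit 336326) (nat_lit 18) (.e (nat_lit 204854) (nat_lit 26) (.e (nat_lit 336211) (nat_lit 13) (.e (nat_lit 393254) (nat_lit 18) .nil)))))) (.g (nat_lit 0) .nil .nil))) 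
(.lf (nat_lit 256707) (.g (nat_lit 2753) (.e (nat_lit 164179) (nat_lit 154) (.e (nat_lit 57424) (nat_lit 14) (.e (nat_lit 352324) (nat_lit 26) (.e (nat_lit 147495) (nat_lit 11) (.e (nat_lit 24665) (nat_lit 14) .nil))))) .nil))) (.nd (nat_lit 6) 
(.lf (nat_lit 256675) (.g (nat_lit 521) (.e (nat_lit 164179) (nat_lit 154) (.e (nat_lit 57411) (nat_lit 12) (.e (nat_lit 336316) (nat_lit 17) .nil))) .nil)) 
(.lf (nat_lit 256739) (.g (nat_lit 1913) (.e (nat_lit 164179) (nat_lit 154) (.e (nat_lit 57432) (nat_lit 16) (.e (nat_lit 368676) (nat_lit 21) (.e (nat_lit 516176) (nat_lit 14) (.e (nat_lit 466967) (nat_lit 20) (.e (nat_lit 3305) (nat_lit 202) (.e (nat_lit 573447) (nat_lit 0) (.e (nat_lit 2608) (nat_lit 163) .nil)))))))) (.g (nat_lit 4) .nil .nil))))) (.nd (nat_lit 5) (.nd (nat_lit 6) 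
(.lf (nat_lit 256659) (.g (nat_lit 1761) (.e (nat_lit 164179) (nat_lit 154) (.e (nat_lit 57409) (nat_lit 12) (.e (nat_lit 336324) (nat_lit 18) (.e (nat_lit 204857) (nat_lit 26) .nil)))) .nil)) 
(.lf (nat_lit 256723) (.g (nat_lit 2116) (.e (nat_lit 164179) (nat_lit 154) (.e (nat_lit 57432) (nat_lit 16) (.e (nat_lit 368676) (nat_lit 21) (.e (nat_lit 516174) (nat_lit 14) (.e (nat_lit 466974) (nat_lit 22) (.e (nat_lit 196622) (nat_lit 9) (.e (nat_lit 156) (nat_lit 10) .nil))))))) (.g (nat_lit 4) .nil .nil)))) (.nd (nat_lit 6) 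
(.lf (nat_lit 256691) (.g (nat_lit 854) (.e (nat_lit 164179) (nat_lit 154) (.e (nat_lit 57411) (nat_lit 12) (.e (nat_lit 336375) (nat_lit 27) .nil))) .nil)) 
(.lf (nat_lit 256755) (.g (nat_lit 2051) (.e (nat_lit 164179) (nat_lit 154) (.e (nat_lit 57436) (nat_lit 17) (.e (nat_lit 376842) (nat_lit 11) (.e (nat_lit 426179) (nat_lit 8) (.e (nat_lit 417828) (nat_lit 18) .nil))))) .nil))))) (.nd (nat_lit 4) (.nd (nat_lit 5) (.nd (nat_lit 6) 
(.lf (nat_lit 256651) (.g (nat_lit 721) (.e (nat_lit 164179) (nat_lit 154) (.e (nat_lit 57407) (nat_lit 12) (.e (nat_lit 336414) (nat_lit 27) .nil))) .nil)) 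
(.lf (nat_lit 256715) (.g (nat_lit 1863) (.e (nat_lit 164179) (nat_lit 154) (.e (nat_lit 57430) (nat_lit 16) (.e (nat_lit 368676) (nat_lit 21) (.e (nat_lit 516176) (nat_lit 14) (.e (nat_lit 466980) (nat_lit 23) (.e (nat_lit 212736) (nat_lit 1) .nil)))))) (.g (nat_lit 4) .nil .nil)))) (.nd (nat_lit 6) 
(.lf (nat_lit 256683) (.g (nat_lit 3085) (.e (nat_lit 164179) (nat_lit 154) (.e (nat_lit 57411) (nat_lit 12) (.e (nat_lit 336326) (nat_lit 18) (.e (nat_lit 204866) (nat_lit 28) (.e (nat_lit 352273) (nat_lit 11) (.e (nat_lit 426107) (nat_lit 1) .nil)))))) (.g (nat_lit 4) .nil .nil))) 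
(.lf (nat_lit 256747) (.g (nat_lit 3827) (.e (nat_lit 164179) (nat_lit 154) (.e (nat_lit 57432) (nat_lit 16) (.e (nat_lit 368676) (nat_lit 21) (.e (nat_lit 516176) (nat_lit 14) (.e (nat_lit 466977) (nat_lit 22) (.e (nat_lit 196624) (nat_lit 9) (.e (nat_lit 157) (nat_lit 10) .nil))))))) (.g (nat_lit 6) .nil .nil))))) (.nd (nat_lit 5) (.nd (nat_lit 6) 
(.lf (nat_lit 256667) (.g (nat_lit 1007) (.e (nat_lit 164179) (nat_lit 154) (.e (nat_lit 57409) (nat_lit 12) (.e (nat_lit 336454) (nat_lit 34) .nil))) .nil)) 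
(.lf (nat_lit 256731) (.g (nat_lit 1816) (.e (nat_lit 164179) (nat_lit 154) (.e (nat_lit 57432) (nat_lit 16) (.e (nat_lit 368676) (nat_lit 21) (.e (nat_lit 516176) (nat_lit 14) (.e (nat_lit 466967) (nat_lit 20) (.e (nat_lit 3295) (nat_lit 202) (.e (nat_lit 573447) (nat_lit 0) (.e (nat_lit 2608) (nat_lit 163) .nil)))))))) (.g (nat_lit 4) .nil .nil)))) (.nd (nat_lit 6) 
(.lf (nat_lit 256699) (.g (nat_lit 2933) (.e (nat_lit 164179) (nat_lit 154) (.e (nat_lit 57418) (nat_lit 12) (.e (nat_lit 336012) (nat_lit 2) (.e (nat_lit 90176) (nat_lit 15) (.e (nat_lit 188450) (nat_lit 23) (.e (nat_lit 212736) (nat_lit 1) .nil)))))) (.g (nat_lit 5) .nil .nil))) 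
(.lf (nat_lit 256763) (.g (nat_lit 1441) (.e (nat_lit 164179) (nat_lit 154) (.e (nat_lit 57437) (nat_lit 17) (.e (nat_lit 376859) (nat_lit 21) (.e (nat_lit 57655) (nat_lit 152) .nil)))) .nil)))))) (.nd (nat_lit 3) (.nd (nat_lit 4) (.nd (nat_lit 5) (.nd (nat_lit 6) 
(.lf (nat_lit 256647) (.g (nat_lit 653) (.e (nat_lit 164179) (nat_lit 154) (.e (nat_lit 57407) (nat_lit 12) (.e (nat_lit 336370) (nat_lit 27) .nil))) .nil)) 
(.lf (nat_lit 256711) (.g (nat_lit 2231) (.e (nat_lit 164179) (nat_lit 154) (.e (nat_lit 57430) (nat_lit 16) (.e (nat_lit 368676) (nat_lit 21) (.e (nat_lit 516176) (nat_lit 14) (.e (nat_lit 466976) (nat_lit 22) (.e (nat_lit 196628) (nat_lit 9) (.e (nat_lit 156) (nat_lit 10) .nil))))))) (.g (nat_lit 4) .nil .nil)))) (.nd (nat_lit 6) 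
(.lf (nat_lit 256679) (.g (nat_lit 2099) (.e (nat_lit 164179) (nat_lit 154) (.e (nat_lit 57411) (nat_lit 12) (.e (nat_lit 336322) (nat_lit 18) (.e (nat_lit 204854) (nat_lit 26) (.e (nat_lit 336211) (nat_lit 13) .nil))))) .nil)) 
(.lf (nat_lit 256743) (.g (nat_lit 2554) (.e (nat_lit 164179) (nat_lit 154) (.e (nat_lit 57432) (nat_lit 16) (.e (nat_lit 368676) (nat_lit 21) (.e (nat_lit 516176) (nat_lit 14) (.e (nat_lit 466977) (nat_lit 22) (.e (nat_lit 196619) (nat_lit 9) (.e (nat_lit 155) (nat_lit 10) .nil))))))) (.g (nat_lit 5) .nil .nil))))) (.nd (nat_lit 5) (.nd (nat_lit 6) 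
(.lf (nat_lit 256663) (.g (nat_lit 1564) (.e (nat_lit 164179) (nat_lit 154) (.e (nat_lit 57409) (nat_lit 12) (.e (nat_lit 336369) (nat_lit 27) (.e (nat_lit 426497) (nat_lit 27) .nil)))) .nil)) 
(.lf (nat_lit 256727) (.g (nat_lit 2627) (.e (nat_lit 164179) (nat_lit 154) (.e (nat_lit 57432) (nat_lit 16) (.e (nat_lit 368676) (nat_lit 21) (.e (nat_lit 516174) (nat_lit 14) (.e (nat_lit 466980) (nat_lit 23) (.e (nat_lit 212736) (nat_lit 1) .nil)))))) (.g (nat_lit 5) .nil .nil)))) (.nd (nat_lit 6) 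
(.lf (nat_lit 256695) (.g (nat_lit 662) (.e (nat_lit 164179) (nat_lit 154) (.e (nat_lit 57412) (nat_lit 12) (.e (nat_lit 336046) (nat_lit 6) .nil))) .nil)) 
(.lf (nat_lit 256759) (.g (nat_lit 1672) (.e (nat_lit 164179) (nat_lit 154) (.e (nat_lit 57437) (nat_lit 17) (.e (nat_lit 376842) (nat_lit 11) (.e (nat_lit 426180) (nat_lit 8) .nil)))) .nil))))) (.nd (nat_lit 4) (.nd (nat_lit 5) (.nd (nat_lit 6) 
(.lf (nat_lit 256655) (.g (nat_lit 886) (.e (nat_lit 164179) (nat_lit 154) (.e (nat_lit 57408) (nat_lit 12) (.e (nat_lit 336456) (nat_lit 34) (.e (nat_lit 483398) (nat_lit 25) .nil)))) .nil)) 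
(.lf (nat_lit 256719) (.g (nat_lit 1926) (.e (nat_lit 164179) (nat_lit 154) (.e (nat_lit 57432) (nat_lit 16) (.e (nat_lit 368676) (nat_lit 21) (.e (nat_lit 516174) (nat_lit 14) (.e (nat_lit 466967) (nat_lit 20) (.e (nat_lit 3253) (nat_lit 197) (.e (nat_lit 540416) (nat_lit 18) .nil))))))) (.g (nat_lit 4) .nil .nil)))) (.nd (nat_lit 6) 
(.lf (nat_lit 256687) (.g (nat_lit 1541) (.e (nat_lit 164179) (nat_lit 154) (.e (nat_lit 57411) (nat_lit 12) (.e (nat_lit 336367) (nat_lit 27) (.e (nat_lit 426555) (nat_lit 32) .nil)))) .nil)) 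
(.lf (nat_lit 256751) (.g (nat_lit 3069) (.e (nat_lit 164179) (nat_lit 154) (.e (nat_lit 57432) (nat_lit 16) (.e (nat_lit 368676) (nat_lit 21) (.e (nat_lit 516176) (nat_lit 14) (.e (nat_lit 466981) (nat_lit 23) (.e (nat_lit 212736) (nat_lit 1) .nil)))))) (.g (nat_lit 5) .nil .nil))))) (.nd (nat_lit 5) (.nd (nat_lit 6) 
(.lf (nat_lit 256671) (.g (nat_lit 2757) (.e (nat_lit 164179) (nat_lit 154) (.e (nat_lit 57411) (nat_lit 12) (.e (nat_lit 336019) (nat_lit 3) (.e (nat_lit 98372) (nat_lit 29) (.e (nat_lit 450579) (nat_lit 5) (.e (nat_lit 540416) (nat_lit 18) .nil)))))) (.g (nat_lit 5) .nil .nil))) 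
(.lf (nat_lit 256735) (.g (nat_lit 2982) (.e (nat_lit 164179) (nat_lit 154) (.e (nat_lit 57432) (nat_lit 16) (.e (nat_lit 368676) (nat_lit 21) (.e (nat_lit 516176) (nat_lit 14) (.e (nat_lit 466967) (nat_lit 20) (.e (nat_lit 3304) (nat_lit 202) (.e (nat_lit 581376) (nat_lit 0) (.e (nat_lit 2602) (nat_lit 163) .nil)))))))) (.g (nat_lit 6) .nil .nil)))) (.nd (nat_lit 6) 
(.lf (nat_lit 256703) (.g (nat_lit 2545) (.e (nat_lit 164179) (nat_lit 154) (.e (nat_lit 57421) (nat_lit 13) (.e (nat_lit 344133) (nat_lit 26) (.e (nat_lit 557119) (nat_lit 18) (.e (nat_lit 7936) (nat_lit 102) .nil))))) .nil)) 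
(.lf (nat_lit 256767) (.g (nat_lit 794) (.e (nat_lit 164179) (nat_lit 154) (.e (nat_lit 57440) (nat_lit 18) (.e (nat_lit 385057) (nat_lit 22) (.e (nat_lit 500077) (nat_lit 20) .nil)))) .nil)))))))))

noncomputable def tv3326 : DT := (.nd (nat_lit 0) (.nd (nat_lit 1) (.nd (nat_lit 2) (.nd (nat_lit 3) (.nd (nat_lit 4) (.nd (nat_lit 5) (.nd (nat_lit 6) 
(.lf (nat_lit 256768) (.g (nat_lit 1358) (.e (nat_lit 164179) (nat_lit 154) (.e (nat_lit 57440) (nat_lit 18) (.e (nat_lit 385068) (nat_lit 26) (.e (nat_lit 532548) (nat_lit 11) .nil)))) .nil)) 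
(.lf (nat_lit 256832) (.g (nat_lit 1377) (.e (nat_lit 164181) (nat_lit 154) (.e (nat_lit 57409) (nat_lit 12) (.e (nat_lit 336414) (nat_lit 27) (.e (nat_lit 426541) (nat_lit 29) .nil)))) .nil))) (.nd (nat_lit 6) 
(.lf (nat_lit 256800) (.g (nat_lit 3313) (.e (nat_lit 164179) (nat_lit 154) (.e (nat_lit 57445) (nat_lit 19) (.e (nat_lit 393229) (nat_lit 9) (.e (nat_lit 336185) (nat_lit 11) .nil)))) .nil)) 
(.lf (nat_lit 256864) (.g (nat_lit 589) (.e (nat_lit 164182) (nat_lit 154) (.e (nat_lit 57409) (nat_lit 12) (.e (nat_lit 336375) (nat_lit 27) .nil))) .nil)))) (.nd (nat_lit 5) (.nd (nat_lit 6) 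
(.lf (nat_lit 256784) (.g (nat_lit 2745) (.e (nat_lit 164179) (nat_lit 154) (.e (nat_lit 57445) (nat_lit 19) (.e (nat_lit 393229) (nat_lit 9) (.e (nat_lit 336073) (nat_lit 9) .nil)))) .nil)) 
(.lf (nat_lit 256848) (.g (nat_lit 2561) (.e (nat_lit 164182) (nat_lit 154) (.e (nat_lit 57379) (nat_lit 3) (.e (nat_lit 98334) (nat_lit 18) (.e (nat_lit 164332) (nat_lit 230) (.e (nat_lit 163927) (nat_lit 16) .nil))))) .nil))) (.nd (nat_lit 6) 
(.lf (nat_lit 256816) (.g (nat_lit 1666) (.e (nat_lit 164179) (nat_lit 154) (.e (nat_lit 57448) (nat_lit 19) (.e (nat_lit 393234) (nat_lit 17) (.e (nat_lit 3544) (nat_lit 219) .nil)))) .nil)) 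
(.lf (nat_lit 256880) (.g (nat_lit 2995) (.e (nat_lit 164182) (nat_lit 154) (.e (nat_lit 57411) (nat_lit 12) (.e (nat_lit 336019) (nat_lit 3) (.e (nat_lit 98372) (nat_lit 29) (.e (nat_lit 450579) (nat_lit 5) (.e (nat_lit 540416) (nat_lit 18) .nil)))))) (.g (nat_lit 5) .nil .nil)))))) (.nd (nat_lit 4) (.nd (nat_lit 5) (.nd (nat_lit 6) 
(.lf (nat_lit 256776) (.g (nat_lit 907) (.e (nat_lit 164179) (nat_lit 154) (.e (nat_lit 57445) (nat_lit 19) (.e (nat_lit 393223) (nat_lit 0) .nil))) .nil)) 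
(.lf (nat_lit 256840) (.g (nat_lit 3723) (.e (nat_lit 164182) (nat_lit 154) (.e (nat_lit 57368) (nat_lit 1) (.e (nat_lit 57854) (nat_lit 252) (.e (nat_lit 57373) (nat_lit 2) (.e (nat_lit 90162) (nat_lit 12) .nil))))) .nil))) (.nd (nat_lit 6) 
(.lf (nat_lit 256808) (.g (nat_lit 593) (.e (nat_lit 164179) (nat_lit 154) (.e (nat_lit 57447) (nat_lit 19) (.e (nat_lit 401152) (nat_lit 14) .nil))) .nil)) 
(.lf (nat_lit 256872) (.g (nat_lit 939) (.e (nat_lit 164182) (nat_lit 154) (.e (nat_lit 57409) (nat_lit 12) (.e (nat_lit 336456) (nat_lit 34) (.e (nat_lit 483394) (nat_lit 24) .nil)))) .nil)))) (.nd (nat_lit 5) (.nd (nat_lit 6) 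
(.lf (nat_lit 256792) (.g (nat_lit 4184) (.e (nat_lit 164179) (nat_lit 154) (.e (nat_lit 57445) (nat_lit 19) (.e (nat_lit 393229) (nat_lit 9) (.e (nat_lit 336108) (nat_lit 9) .nil)))) .nil)) 
(.lf (nat_lit 256856) (.g (nat_lit 2281) (.e (nat_lit 164182) (nat_lit 154) (.e (nat_lit 57409) (nat_lit 12) (.e (nat_lit 336316) (nat_lit 17) (.e (nat_lit 196674) (nat_lit 15) (.e (nat_lit 81925) (nat_lit 11) (.e (nat_lit 426105) (nat_lit 1) .nil)))))) (.g (nat_lit 4) .nil .nil)))) (.nd (nat_lit 6) 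
(.lf (nat_lit 256824) (.g (nat_lit 1129) (.e (nat_lit 164180) (nat_lit 154) (.e (nat_lit 57409) (nat_lit 12) (.e (nat_lit 336367) (nat_lit 27) (.e (nat_lit 426544) (nat_lit 30) .nil)))) .nil)) 
(.lf (nat_lit 256888) (.g (nat_lit 2211) (.e (nat_lit 164182) (nat_lit 154) (.e (nat_lit 57411) (nat_lit 12) (.e (nat_lit 336019) (nat_lit 3) (.e (nat_lit 98381) (nat_lit 31) (.e (nat_lit 466977) (nat_lit 22) (.e (nat_lit 196619) (nat_lit 9) (.e (nat_lit 155) (nat_lit 10) .nil))))))) (.g (nat_lit 4) .nil .nil))))))) (.nd (nat_lit 3) (.nd (nat_lit 4) (.nd (nat_lit 5) (.nd (nat_lit 6) 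
(.lf (nat_lit 256772) (.g (nat_lit 1379) (.e (nat_lit 164179) (nat_lit 154) (.e (nat_lit 57443) (nat_lit 18) (.e (nat_lit 385068) (nat_lit 26) (.e (nat_lit 532548) (nat_lit 11) .nil)))) .nil)) 
(.lf (nat_lit 256836) (.g (nat_lit 653) (.e (nat_lit 164181) (nat_lit 154) (.e (nat_lit 57448) (nat_lit 19) (.e (nat_lit 393221) (nat_lit 0) .nil))) .nil))) (.nd (nat_lit 6) 
(.lf (nat_lit 256804) (.g (nat_lit 1052) (.e (nat_lit 164179) (nat_lit 154) (.e (nat_lit 57447) (nat_lit 19) (.e (nat_lit 393224) (nat_lit 9) .nil))) .nil)) 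
(.lf (nat_lit 256868) (.g (nat_lit 1203) (.e (nat_lit 164182) (nat_lit 154) (.e (nat_lit 57409) (nat_lit 12) (.e (nat_lit 336414) (nat_lit 27) (.e (nat_lit 426541) (nat_lit 29) .nil)))) .nil)))) (.nd (nat_lit 5) (.nd (nat_lit 6) 
(.lf (nat_lit 256788) (.g (nat_lit 3971) (.e (nat_lit 164179) (nat_lit 154) (.e (nat_lit 57445) (nat_lit 19) (.e (nat_lit 393229) (nat_lit 9) (.e (nat_lit 336091) (nat_lit 9) .nil)))) .nil)) 
(.lf (nat_lit 256852) (.g (nat_lit 3575) (.e (nat_lit 164182) (nat_lit 154) (.e (nat_lit 57379) (nat_lit 3) (.e (nat_lit 98342) (nat_lit 20) (.e (nat_lit 221214) (nat_lit 23) (.e (nat_lit 204861) (nat_lit 26) (.e (nat_lit 336027) (nat_lit 3) (.e (nat_lit 98334) (nat_lit 18) .nil))))))) (.g (nat_lit 5) .nil .nil)))) (.nd (nat_lit 6) 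
(.lf (nat_lit 256820) (.g (nat_lit 4926) (.e (nat_lit 164180) (nat_lit 154) (.e (nat_lit 57379) (nat_lit 3) (.e (nat_lit 98341) (nat_lit 20) (.e (nat_lit 221214) (nat_lit 23) (.e (nat_lit 204863) (nat_lit 27) (.e (nat_lit 344117) (nat_lit 21) (.e (nat_lit 516116) (nat_lit 1) .nil))))))) (.g (nat_lit 7) .nil .nil))) 
(.lf (nat_lit 256884) (.g (nat_lit 1910) (.e (nat_lit 164182) (nat_lit 154) (.e (nat_lit 57411) (nat_lit 12) (.e (nat_lit 336019) (nat_lit 3) (.e (nat_lit 98381) (nat_lit 31) (.e (nat_lit 466976) (nat_lit 22) (.e (nat_lit 196622) (nat_lit 9) (.e (nat_lit 156) (nat_lit 10) .nil))))))) (.g (nat_lit 4) .nil .nil)))))) (.nd (nat_lit 4) (.nd (nat_lit 5) (.nd (nat_lit 6) 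
(.lf (nat_lit 256780) (.g (nat_lit 1407) (.e (nat_lit 164179) (nat_lit 154) (.e (nat_lit 57445) (nat_lit 19) (.e (nat_lit 393225) (nat_lit 9) (.e (nat_lit 336183) (nat_lit 11) (.e (nat_lit 368676) (nat_lit 21) .nil))))) .nil)) 
(.lf (nat_lit 256844) (.g (nat_lit 1522) (.e (nat_lit 164182) (nat_lit 154) (.e (nat_lit 57373) (nat_lit 2) (.e (nat_lit 90165) (nat_lit 12) (.e (nat_lit 171776) (nat_lit 48) .nil)))) .nil))) (.nd (nat_lit 6) 
(.lf (nat_lit 256812) (.g (nat_lit 1433) (.e (nat_lit 164179) (nat_lit 154) (.e (nat_lit 57448) (nat_lit 19) (.e (nat_lit 393225) (nat_lit 9) (.e (nat_lit 336188) (nat_lit 11) (.e (nat_lit 368676) (nat_lit 21) .nil))))) .nil)) 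
(.lf (nat_lit 256876) (.g (nat_lit 763) (.e (nat_lit 164182) (nat_lit 154) (.e (nat_lit 57410) (nat_lit 12) (.e (nat_lit 336326) (nat_lit 18) (.e (nat_lit 204858) (nat_lit 26) .nil)))) .nil)))) (.nd (nat_lit 5) (.nd (nat_lit 6) 
(.lf (nat_lit 256796) (.g (nat_lit 3474) (.e (nat_lit 164179) (nat_lit 154) (.e (nat_lit 57445) (nat_lit 19) (.e (nat_lit 393229) (nat_lit 9) (.e (nat_lit 336163) (nat_lit 10) .nil)))) .nil)) 
(.lf (nat_lit 256860) (.g (nat_lit 589) (.e (nat_lit 164182) (nat_lit 154) (.e (nat_lit 57409) (nat_lit 12) (.e (nat_lit 336325) (nat_lit 18) .nil))) .nil))) (.nd (nat_lit 6) 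
(.lf (nat_lit 256828) (.g (nat_lit 944) (.e (nat_lit 164180) (nat_lit 154) (.e (nat_lit 57411) (nat_lit 12) (.e (nat_lit 336366) (nat_lit 27) .nil))) .nil)) 
(.lf (nat_lit 256892) (.g (nat_lit 2633) (.e (nat_lit 164182) (nat_lit 154) (.e (nat_lit 57411) (nat_lit 12) (.e (nat_lit 336019) (nat_lit 3) (.e (nat_lit 98381) (nat_lit 31) (.e (nat_lit 466977) (nat_lit 22) (.e (nat_lit 196624) (nat_lit 9) (.e (nat_lit 155) (nat_lit 10) .nil))))))) (.g (nat_lit 5) .nil .nil)))))))) 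
(.nd (nat_lit 2) (.nd (nat_lit 3) (.nd (nat_lit 4) (.nd (nat_lit 5) (.nd (nat_lit 6) 
(.lf (nat_lit 256770) (.g (nat_lit 811) (.e (nat_lit 164179) (nat_lit 154) (.e (nat_lit 57443) (nat_lit 18) (.e (nat_lit 385066) (nat_lit 26) (.e (nat_lit 532537) (nat_lit 9) .nil)))) .nil)) 
(.lf (nat_lit 256834) (.g (nat_lit 1530) (.e (nat_lit 164181) (nat_lit 154) (.e (nat_lit 57411) (nat_lit 12) (.e (nat_lit 336366) (nat_lit 27) (.e (nat_lit 426546) (nat_lit 30) (.e (nat_lit 360466) (nat_lit 3) .nil))))) .nil))) (.nd (nat_lit 6) 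
(.lf (nat_lit 256802) (.g (nat_lit 3594) (.e (nat_lit 164179) (nat_lit 154) (.e (nat_lit 57445) (nat_lit 19) (.e (nat_lit 393229) (nat_lit 9) (.e (nat_lit 336188) (nat_lit 11) .nil)))) .nil)) 
(.lf (nat_lit 256866) (.g (nat_lit 590) (.e (nat_lit 164182) (nat_lit 154) (.e (nat_lit 57409) (nat_lit 12) (.e (nat_lit 336395) (nat_lit 27) .nil))) .nil)))) (.nd (nat_lit 5) (.nd (nat_lit 6) 
(.lf (nat_lit 256786) (.g (nat_lit 3714) (.e (nat_lit 164179) (nat_lit 154) (.e (nat_lit 57445) (nat_lit 19) (.e (nat_lit 393229) (nat_lit 9) (.e (nat_lit 336078) (nat_lit 9) .nil)))) .nil)) 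
(.lf (nat_lit 256850) (.g (nat_lit 3524) (.e (nat_lit 164182) (nat_lit 154) (.e (nat_lit 57379) (nat_lit 3) (.e (nat_lit 98341) (nat_lit 20) (.e (nat_lit 221214) (nat_lit 23) (.e (nat_lit 204861) (nat_lit 26) (.e (nat_lit 336021) (nat_lit 3) (.e (nat_lit 98333) (nat_lit 18) .nil))))))) (.g (nat_lit 5) .nil .nil)))) (.nd (nat_lit 6) 
(.lf (nat_lit 256818) (.g (nat_lit 2296) (.e (nat_lit 164180) (nat_lit 154) (.e (nat_lit 57378) (nat_lit 3) (.e (nat_lit 98341) (nat_lit 20) (.e (nat_lit 221215) (nat_lit 23) (.e (nat_lit 204863) (nat_lit 27) .nil))))) .nil)) 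
(.lf (nat_lit 256882) (.g (nat_lit 2650) (.e (nat_lit 164182) (nat_lit 154) (.e (nat_lit 57411) (nat_lit 12) (.e (nat_lit 336019) (nat_lit 3) (.e (nat_lit 98380) (nat_lit 31) (.e (nat_lit 466979) (nat_lit 23) (.e (nat_lit 212736) (nat_lit 1) .nil)))))) (.g (nat_lit 5) .nil .nil)))))) (.nd (nat_lit 4) (.nd (nat_lit 5) (.nd (nat_lit 6) 
(.lf (nat_lit 256778) (.g (nat_lit 1553) (.e (nat_lit 164179) (nat_lit 154) (.e (nat_lit 57445) (nat_lit 19) (.e (nat_lit 393225) (nat_lit 9) (.e (nat_lit 336150) (nat_lit 9) (.e (nat_lit 336017) (nat_lit 3) .nil))))) .nil)) 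
(.lf (nat_lit 256842) (.g (nat_lit 2252) (.e (nat_lit 164182) (nat_lit 154) (.e (nat_lit 57373) (nat_lit 2) (.e (nat_lit 90158) (nat_lit 11) (.e (nat_lit 24608) (nat_lit 3) .nil)))) .nil))) (.nd (nat_lit 6) 
(.lf (nat_lit 256810) (.g (nat_lit 963) (.e (nat_lit 164179) (nat_lit 154) (.e (nat_lit 57448) (nat_lit 19) (.e (nat_lit 393225) (nat_lit 9) (.e (nat_lit 336165) (nat_lit 10) .nil)))) .nil)) 
(.lf (nat_lit 256874) (.g (nat_lit 1415) (.e (nat_lit 164182) (nat_lit 154) (.e (nat_lit 57410) (nat_lit 12) (.e (nat_lit 336316) (nat_lit 17) (.e (nat_lit 196666) (nat_lit 13) (.e (nat_lit 65625) (nat_lit 13) .nil))))) .nil)))) (.nd (nat_lit 5) (.nd (nat_lit 6) 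
(.lf (nat_lit 256794) (.g (nat_lit 4179) (.e (nat_lit 164179) (nat_lit 154) (.e (nat_lit 57445) (nat_lit 19) (.e (nat_lit 393229) (nat_lit 9) (.e (nat_lit 336155) (nat_lit 9) .nil)))) .nil)) 
(.lf (nat_lit 256858) (.g (nat_lit 596) (.e (nat_lit 164182) (nat_lit 154) (.e (nat_lit 57409) (nat_lit 12) (.e (nat_lit 336324) (nat_lit 18) .nil))) .nil))) (.nd (nat_lit 6) 
(.lf (nat_lit 256826) (.g (nat_lit 1366) (.e (nat_lit 164180) (nat_lit 154) (.e (nat_lit 57409) (nat_lit 12) (.e (nat_lit 336414) (nat_lit 27) (.e (nat_lit 433920) (nat_lit 30) .nil)))) .nil)) 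
(.lf (nat_lit 256890) (.g (nat_lit 3153) (.e (nat_lit 164182) (nat_lit 154) (.e (nat_lit 57411) (nat_lit 12) (.e (nat_lit 336019) (nat_lit 3) (.e (nat_lit 98381) (nat_lit 31) (.e (nat_lit 466977) (nat_lit 22) (.e (nat_lit 196622) (nat_lit 9) (.e (nat_lit 156) (nat_lit 10) .nil))))))) (.g (nat_lit 5) .nil .nil))))))) (.nd (nat_lit 3) (.nd (nat_lit 4) (.nd (nat_lit 5) (.nd (nat_lit 6) 
(.lf (nat_lit 256774) (.g (nat_lit 907) (.e (nat_lit 164179) (nat_lit 154) (.e (nat_lit 57445) (nat_lit 19) (.e (nat_lit 393219) (nat_lit 0) .nil))) .nil)) 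
(.lf (nat_lit 256838) (.g (nat_lit 1474) (.e (nat_lit 164181) (nat_lit 154) (.e (nat_lit 57448) (nat_lit 19) (.e (nat_lit 393225) (nat_lit 9) (.e (nat_lit 336184) (nat_lit 11) (.e (nat_lit 368676) (nat_lit 21) .nil))))) .nil))) (.nd (nat_lit 6) 
(.lf (nat_lit 256806) (.g (nat_lit 1052) (.e (nat_lit 164179) (nat_lit 154) (.e (nat_lit 57447) (nat_lit 19) (.e (nat_lit 393228) (nat_lit 9) .nil))) .nil)) 
(.lf (nat_lit 256870) (.g (nat_lit 2415) (.e (nat_lit 164182) (nat_lit 154) (.e (nat_lit 57409) (nat_lit 12) (.e (nat_lit 336454) (nat_lit 34) (.e (nat_lit 483394) (nat_lit 24) (.e (nat_lit 344117) (nat_lit 21) .nil))))) .nil)))) (.nd (nat_lit 5) (.nd (nat_lit 6) 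
(.lf (nat_lit 256790) (.g (nat_lit 4014) (.e (nat_lit 164179) (nat_lit 154) (.e (nat_lit 57445) (nat_lit 19) (.e (nat_lit 393229) (nat_lit 9) (.e (nat_lit 336105) (nat_lit 9) .nil)))) .nil)) 
(.lf (nat_lit 256854) (.g (nat_lit 3427) (.e (nat_lit 164182) (nat_lit 154) (.e (nat_lit 57404) (nat_lit 12) (.e (nat_lit 336013) (nat_lit 2) (.e (nat_lit 90170) (nat_lit 13) (.e (nat_lit 172106) (nat_lit 10) (.e (nat_lit 434231) (nat_lit 23) (.e (nat_lit 540416) (nat_lit 18) .nil))))))) (.g (nat_lit 6) .nil .nil)))) (.nd (nat_lit 6) 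
(.lf (nat_lit 256822) (.g (nat_lit 4766) (.e (nat_lit 164180) (nat_lit 154) (.e (nat_lit 57379) (nat_lit 3) (.e (nat_lit 98342) (nat_lit 20) (.e (nat_lit 221215) (nat_lit 23) (.e (nat_lit 204863) (nat_lit 27) (.e (nat_lit 344117) (nat_lit 21) (.e (nat_lit 516116) (nat_lit 1) .nil))))))) (.g (nat_lit 7) .nil .nil))) 
(.lf (nat_lit 256886) (.g (nat_lit 1871) (.e (nat_lit 164182) (nat_lit 154) (.e (nat_lit 57411) (nat_lit 12) (.e (nat_lit 336019) (nat_lit 3) (.e (nat_lit 98381) (nat_lit 31) (.e (nat_lit 466976) (nat_lit 22) (.e (nat_lit 196628) (nat_lit 9) (.e (nat_lit 7936) (nat_lit 10) .nil))))))) (.g (nat_lit 4) .nil .nil)))))) (.nd (nat_lit 4) (.nd (nat_lit 5) (.nd (nat_lit 6) 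
(.lf (nat_lit 256782) (.g (nat_lit 907) (.e (nat_lit 164179) (nat_lit 154) (.e (nat_lit 57445) (nat_lit 19) (.e (nat_lit 393226) (nat_lit 9) .nil))) .nil)) 
(.lf (nat_lit 256846) (.g (nat_lit 1734) (.e (nat_lit 164182) (nat_lit 154) (.e (nat_lit 57378) (nat_lit 3) (.e (nat_lit 98340) (nat_lit 20) (.e (nat_lit 221214) (nat_lit 23) (.e (nat_lit 204862) (nat_lit 27) .nil))))) .nil))) (.nd (nat_lit 6) 
(.lf (nat_lit 256814) (.g (nat_lit 1149) (.e (nat_lit 164179) (nat_lit 154) (.e (nat_lit 57448) (nat_lit 19) (.e (nat_lit 393229) (nat_lit 9) (.e (nat_lit 336185) (nat_lit 11) .nil)))) .nil)) 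
(.lf (nat_lit 256878) (.g (nat_lit 3661) (.e (nat_lit 164182) (nat_lit 154) (.e (nat_lit 57411) (nat_lit 12) (.e (nat_lit 336016) (nat_lit 2) (.e (nat_lit 90176) (nat_lit 15) (.e (nat_lit 188450) (nat_lit 23) (.e (nat_lit 212736) (nat_lit 1) .nil)))))) (.g (nat_lit 5) .nil .nil))))) (.nd (nat_lit 5) (.nd (nat_lit 6) 
(.lf (nat_lit 256798) (.g (nat_lit 4183) (.e (nat_lit 164179) (nat_lit 154) (.e (nat_lit 57445) (nat_lit 19) (.e (nat_lit 393229) (nat_lit 9) (.e (nat_lit 336174) (nat_lit 10) .nil)))) .nil)) 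
(.lf (nat_lit 256862) (.g (nat_lit 589) (.e (nat_lit 164182) (nat_lit 154) (.e (nat_lit 57409) (nat_lit 12) (.e (nat_lit 336372) (nat_lit 27) .nil))) .nil))) (.nd (nat_lit 6) 
(.lf (nat_lit 256830) (.g (nat_lit 2365) (.e (nat_lit 164181) (nat_lit 154) (.e (nat_lit 57378) (nat_lit 3) (.e (nat_lit 98341) (nat_lit 20) (.e (nat_lit 221215) (nat_lit 23) (.e (nat_lit 204862) (nat_lit 27) .nil))))) .nil)) 
(.lf (nat_lit 256894) (.g (nat_lit 2717) (.e (nat_lit 164182) (nat_lit 154) (.e (nat_lit 57411) (nat_lit 12) (.e (nat_lit 336019) (nat_lit 3) (.e (nat_lit 98381) (nat_lit 31) (.e (nat_lit 466979) (nat_lit 23) (.e (nat_lit 212736) (nat_lit 1) .nil)))))) (.g (nat_lit 5) .nil .nil))))))))) (.nd (nat_lit 1) (.nd (nat_lit 2) (.nd (nat_lit 3) (.nd (nat_lit 4) (.nd (nat_lit 5) (.nd (nat_lit 6) 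
(.lf (nat_lit 256769) (.g (nat_lit 2788) (.e (nat_lit 164179) (nat_lit 154) (.e (nat_lit 57442) (nat_lit 18) (.e (nat_lit 385068) (nat_lit 26) (.e (nat_lit 532560) (nat_lit 14) (.e (nat_lit 376842) (nat_lit 11) (.e (nat_lit 426106) (nat_lit 1) .nil)))))) (.g (nat_lit 5) .nil .nil))) 
(.lf (nat_lit 256833) (.g (nat_lit 1350) (.e (nat_lit 164181) (nat_lit 154) (.e (nat_lit 57409) (nat_lit 12) (.e (nat_lit 336414) (nat_lit 27) (.e (nat_lit 433920) (nat_lit 30) .nil)))) .nil))) (.nd (nat_lit 6) 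
(.lf (nat_lit 256801) (.g (nat_lit 4183) (.e (nat_lit 164179) (nat_lit 154) (.e (nat_lit 57445) (nat_lit 19) (.e (nat_lit 393229) (nat_lit 9) (.e (nat_lit 336187) (nat_lit 11) .nil)))) .nil)) 
(.lf (nat_lit 256865) (.g (nat_lit 678) (.e (nat_lit 164182) (nat_lit 154) (.e (nat_lit 57409) (nat_lit 12) (.e (nat_lit 336375) (nat_lit 27) (.e (nat_lit 426554) (nat_lit 32) .nil)))) .nil)))) (.nd (nat_lit 5) (.nd (nat_lit 6) 
(.lf (nat_lit 256785) (.g (nat_lit 3914) (.e (nat_lit 164179) (nat_lit 154) (.e (nat_lit 57445) (nat_lit 19) (.e (nat_lit 393229) (nat_lit 9) (.e (nat_lit 336076) (nat_lit 9) .nil)))) .nil)) 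
(.lf (nat_lit 256849) (.g (nat_lit 1246) (.e (nat_lit 164182) (nat_lit 154) (.e (nat_lit 57379) (nat_lit 3) (.e (nat_lit 98341) (nat_lit 20) (.e (nat_lit 221214) (nat_lit 23) .nil)))) .nil))) (.nd (nat_lit 6) 
(.lf (nat_lit 256817) (.g (nat_lit 2043) (.e (nat_lit 164180) (nat_lit 154) (.e (nat_lit 57357) (nat_lit 0) (.e (nat_lit 1858) (nat_lit 124) (.e (nat_lit 557105) (nat_lit 14) (.e (nat_lit 180251) (nat_lit 10) .nil))))) .nil)) 
(.lf (nat_lit 256881) (.g (nat_lit 961) (.e (nat_lit 164182) (nat_lit 154) (.e (nat_lit 57411) (nat_lit 12) (.e (nat_lit 336019) (nat_lit 3) (.e (nat_lit 98380) (nat_lit 31) .nil)))) .nil))))) (.nd (nat_lit 4) (.nd (nat_lit 5) (.nd (nat_lit 6) 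
(.lf (nat_lit 256777) (.g (nat_lit 907) (.e (nat_lit 164179) (nat_lit 154) (.e (nat_lit 57445) (nat_lit 19) (.e (nat_lit 393224) (nat_lit 9) .nil))) .nil)) 
(.lf (nat_lit 256841) (.g (nat_lit 1288) (.e (nat_lit 164182) (nat_lit 154) (.e (nat_lit 57373) (nat_lit 2) (.e (nat_lit 90158) (nat_lit 11) .nil))) .nil))) (.nd (nat_lit 6) 
(.lf (nat_lit 256809) (.g (nat_lit 598) (.e (nat_lit 164179) (nat_lit 154) (.e (nat_lit 57448) (nat_lit 19) (.e (nat_lit 393221) (nat_lit 0) .nil))) .nil)) 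
(.lf (nat_lit 256873) (.g (nat_lit 1235) (.e (nat_lit 164182) (nat_lit 154) (.e (nat_lit 57410) (nat_lit 12) (.e (nat_lit 336019) (nat_lit 3) (.e (nat_lit 98380) (nat_lit 31) (.e (nat_lit 466979) (nat_lit 23) .nil))))) .nil)))) (.nd (nat_lit 5) (.nd (nat_lit 6) 
(.lf (nat_lit 256793) (.g (nat_lit 3994) (.e (nat_lit 164179) (nat_lit 154) (.e (nat_lit 57445) (nat_lit 19) (.e (nat_lit 393229) (nat_lit 9) (.e (nat_lit 336150) (nat_lit 9) .nil)))) .nil)) 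
(.lf (nat_lit 256857) (.g (nat_lit 1137) (.e (nat_lit 164182) (nat_lit 154) (.e (nat_lit 57409) (nat_lit 12) (.e (nat_lit 336316) (nat_lit 17) (.e (nat_lit 196680) (nat_lit 17) .nil)))) .nil))) (.nd (nat_lit 6) 
(.lf (nat_lit 256825) (.g (nat_lit 1113) (.e (nat_lit 164180) (nat_lit 154) (.e (nat_lit 57409) (nat_lit 12) (.e (nat_lit 336395) (nat_lit 27) (.e (nat_lit 433920) (nat_lit 30) .nil)))) .nil)) 
(.lf (nat_lit 256889) (.g (nat_lit 2695) (.e (nat_lit 164182) (nat_lit 154) (.e (nat_lit 57411) (nat_lit 12) (.e (nat_lit 336019) (nat_lit 3) (.e (nat_lit 98381) (nat_lit 31) (.e (nat_lit 466977) (nat_lit 22) (.e (nat_lit 196620) (nat_lit 9) (.e (nat_lit 156) (nat_lit 10) .nil))))))) (.g (nat_lit 5) .nil .nil))))))) (.nd (nat_lit 3) (.nd (nat_lit 4) (.nd (nat_lit 5) (.nd (nat_lit 6) 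
(.lf (nat_lit 256773) (.g (nat_lit 1870) (.e (nat_lit 164179) (nat_lit 154) (.e (nat_lit 57443) (nat_lit 18) (.e (nat_lit 385068) (nat_lit 26) (.e (nat_lit 532560) (nat_lit 14) (.e (nat_lit 376841) (nat_lit 11) .nil))))) .nil)) 
(.lf (nat_lit 256837) (.g (nat_lit 1640) (.e (nat_lit 164181) (nat_lit 154) (.e (nat_lit 57448) (nat_lit 19) (.e (nat_lit 393225) (nat_lit 9) (.e (nat_lit 336087) (nat_lit 9) (.e (nat_lit 336019) (nat_lit 3) .nil))))) .nil))) (.nd (nat_lit 6) 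
(.lf (nat_lit 256805) (.g (nat_lit 1734) (.e (nat_lit 164179) (nat_lit 154) (.e (nat_lit 57447) (nat_lit 19) (.e (nat_lit 393225) (nat_lit 9) (.e (nat_lit 336158) (nat_lit 9) .nil)))) .nil)) 
(.lf (nat_lit 256869) (.g (nat_lit 963) (.e (nat_lit 164182) (nat_lit 154) (.e (nat_lit 57409) (nat_lit 12) (.e (nat_lit 336454) (nat_lit 34) .nil))) .nil)))) (.nd (nat_lit 5) (.nd (nat_lit 6) 
(.lf (nat_lit 256789) (.g (nat_lit 4064) (.e (nat_lit 164179) (nat_lit 154) (.e (nat_lit 57445) (nat_lit 19) (.e (nat_lit 393229) (nat_lit 9) (.e (nat_lit 336100) (nat_lit 9) .nil)))) .nil)) 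
(.lf (nat_lit 256853) (.g (nat_lit 3923) (.e (nat_lit 164182) (nat_lit 154) (.e (nat_lit 57379) (nat_lit 3) (.e (nat_lit 98342) (nat_lit 20) (.e (nat_lit 221214) (nat_lit 23) (.e (nat_lit 204863) (nat_lit 27) (.e (nat_lit 344118) (nat_lit 21) (.e (nat_lit 516120) (nat_lit 1) .nil))))))) (.g (nat_lit 5) .nil .nil)))) (.nd (nat_lit 6) 
(.lf (nat_lit 256821) (.g (nat_lit 5116) (.e (nat_lit 164180) (nat_lit 154) (.e (nat_lit 57379) (nat_lit 3) (.e (nat_lit 98341) (nat_lit 20) (.e (nat_lit 221215) (nat_lit 23) (.e (nat_lit 204863) (nat_lit 27) (.e (nat_lit 344117) (nat_lit 21) (.e (nat_lit 516116) (nat_lit 1) .nil))))))) (.g (nat_lit 7) .nil .nil))) 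
(.lf (nat_lit 256885) (.g (nat_lit 2340) (.e (nat_lit 164182) (nat_lit 154) (.e (nat_lit 57411) (nat_lit 12) (.e (nat_lit 336019) (nat_lit 3) (.e (nat_lit 98381) (nat_lit 31) (.e (nat_lit 466976) (nat_lit 22) (.e (nat_lit 196628) (nat_lit 9) (.e (nat_lit 156) (nat_lit 10) .nil))))))) (.g (nat_lit 5) .nil .nil)))))) (.nd (nat_lit 4) (.nd (nat_lit 5) (.nd (nat_lit 6) 
(.lf (nat_lit 256781) (.g (nat_lit 1201) (.e (nat_lit 164179) (nat_lit 154) (.e (nat_lit 57445) (nat_lit 19) (.e (nat_lit 393225) (nat_lit 9) (.e (nat_lit 336188) (nat_lit 11) .nil)))) .nil)) 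
(.lf (nat_lit 256845) (.g (nat_lit 2404) (.e (nat_lit 164182) (nat_lit 154) (.e (nat_lit 57375) (nat_lit 2) (.e (nat_lit 90160) (nat_lit 11) (.e (nat_lit 24650) (nat_lit 12) .nil)))) .nil))) (.nd (nat_lit 6) 
(.lf (nat_lit 256813) (.g (nat_lit 667) (.e (nat_lit 164179) (nat_lit 154) (.e (nat_lit 57448) (nat_lit 19) (.e (nat_lit 393228) (nat_lit 9) .nil))) .nil)) 
(.lf (nat_lit 256877) (.g (nat_lit 651) (.e (nat_lit 164182) (nat_lit 154) (.e (nat_lit 57411) (nat_lit 12) (.e (nat_lit 335878) (nat_lit 0) .nil))) .nil)))) (.nd (nat_lit 5) (.nd (nat_lit 6) 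
(.lf (nat_lit 256797) (.g (nat_lit 4145) (.e (nat_lit 164179) (nat_lit 154) (.e (nat_lit 57445) (nat_lit 19) (.e (nat_lit 393229) (nat_lit 9) (.e (nat_lit 336165) (nat_lit 10) .nil)))) .nil)) 
(.lf (nat_lit 256861) (.g (nat_lit 589) (.e (nat_lit 164182) (nat_lit 154) (.e (nat_lit 57409) (nat_lit 12) (.e (nat_lit 336366) (nat_lit 27) .nil))) .nil))) (.nd (nat_lit 6) 
(.lf (nat_lit 256829) (.g (nat_lit 1017) (.e (nat_lit 164180) (nat_lit 154) (.e (nat_lit 57411) (nat_lit 12) (.e (nat_lit 336367) (nat_lit 27) (.e (nat_lit 426544) (nat_lit 30) .nil)))) .nil)) 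
(.lf (nat_lit 256893) (.g (nat_lit 2599) (.e (nat_lit 164182) (nat_lit 154) (.e (nat_lit 57411) (nat_lit 12) (.e (nat_lit 336019) (nat_lit 3) (.e (nat_lit 98381) (nat_lit 31) (.e (nat_lit 466978) (nat_lit 23) (.e (nat_lit 212736) (nat_lit 1) .nil)))))) (.g (nat_lit 5) .nil .nil)))))))) (.nd (nat_lit 2) (.nd (nat_lit 3) (.nd (nat_lit 4) (.nd (nat_lit 5) (.nd (nat_lit 6) 
(.lf (nat_lit 256771) (.g (nat_lit 854) (.e (nat_lit 164179) (nat_lit 154) (.e (nat_lit 57443) (nat_lit 18) (.e (nat_lit 385066) (nat_lit 26) (.e (nat_lit 532546) (nat_lit 11) .nil)))) .nil)) 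
(.lf (nat_lit 256835) (.g (nat_lit 807) (.e (nat_lit 164181) (nat_lit 154) (.e (nat_lit 57417) (nat_lit 12) (.e (nat_lit 336371) (nat_lit 27) .nil))) .nil))) (.nd (nat_lit 6) 
(.lf (nat_lit 256803) (.g (nat_lit 239) (.e (nat_lit 164179) (nat_lit 154) (.e (nat_lit 57446) (nat_lit 19) (.e (nat_lit 401152) (nat_lit 14) .nil))) .nil)) 
(.lf (nat_lit 256867) (.g (nat_lit 610) (.e (nat_lit 164182) (nat_lit 154) (.e (nat_lit 57409) (nat_lit 12) (.e (nat_lit 336414) (nat_lit 27) .nil))) .nil)))) (.nd (nat_lit 5) (.nd (nat_lit 6) 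
(.lf (nat_lit 256787) (.g (nat_lit 3023) (.e (nat_lit 164179) (nat_lit 154) (.e (nat_lit 57445) (nat_lit 19) (.e (nat_lit 393229) (nat_lit 9) (.e (nat_lit 336084) (nat_lit 9) .nil)))) .nil)) 
(.lf (nat_lit 256851) (.g (nat_lit 4159) (.e (nat_lit 164182) (nat_lit 154) (.e (nat_lit 57379) (nat_lit 3) (.e (nat_lit 98341) (nat_lit 20) (.e (nat_lit 221214) (nat_lit 23) (.e (nat_lit 204863) (nat_lit 27) (.e (nat_lit 344118) (nat_lit 21) (.e (nat_lit 516120) (nat_lit 1) .nil))))))) (.g (nat_lit 5) .nil .nil)))) (.nd (nat_lit 6) 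
(.lf (nat_lit 256819) (.g (nat_lit 2004) (.e (nat_lit 164180) (nat_lit 154) (.e (nat_lit 57378) (nat_lit 3) (.e (nat_lit 98342) (nat_lit 20) (.e (nat_lit 221211) (nat_lit 22) (.e (nat_lit 196670) (nat_lit 14) .nil))))) .nil)) 
(.lf (nat_lit 256883) (.g (nat_lit 2703) (.e (nat_lit 164182) (nat_lit 154) (.e (nat_lit 57411) (nat_lit 12) (.e (nat_lit 336019) (nat_lit 3) (.e (nat_lit 98381) (nat_lit 31) (.e (nat_lit 466967) (nat_lit 20) (.e (nat_lit 3253) (nat_lit 197) (.e (nat_lit 540416) (nat_lit 18) .nil))))))) (.g (nat_lit 5) .nil .nil)))))) (.nd (nat_lit 4) (.nd (nat_lit 5) (.nd (nat_lit 6) 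
(.lf (nat_lit 256779) (.g (nat_lit 1112) (.e (nat_lit 164179) (nat_lit 154) (.e (nat_lit 57445) (nat_lit 19) (.e (nat_lit 393225) (nat_lit 9) (.e (nat_lit 336174) (nat_lit 10) .nil)))) .nil)) 
(.lf (nat_lit 256843) (.g (nat_lit 2407) (.e (nat_lit 164182) (nat_lit 154) (.e (nat_lit 57373) (nat_lit 2) (.e (nat_lit 90158) (nat_lit 11) (.e (nat_lit 24650) (nat_lit 12) .nil)))) .nil))) (.nd (nat_lit 6) 
(.lf (nat_lit 256811) (.g (nat_lit 1294) (.e (nat_lit 164179) (nat_lit 154) (.e (nat_lit 57448) (nat_lit 19) (.e (nat_lit 393225) (nat_lit 9) (.e (nat_lit 336185) (nat_lit 11) (.e (nat_lit 368676) (nat_lit 21) .nil))))) .nil)) 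
(.lf (nat_lit 256875) (.g (nat_lit 1320) (.e (nat_lit 164182) (nat_lit 154) (.e (nat_lit 57410) (nat_lit 12) (.e (nat_lit 336316) (nat_lit 17) (.e (nat_lit 196672) (nat_lit 15) (.e (nat_lit 81927) (nat_lit 11) .nil))))) .nil)))) (.nd (nat_lit 5) (.nd (nat_lit 6) 
(.lf (nat_lit 256795) (.g (nat_lit 3368) (.e (nat_lit 164179) (nat_lit 154) (.e (nat_lit 57445) (nat_lit 19) (.e (nat_lit 393229) (nat_lit 9) (.e (nat_lit 343808) (nat_lit 9) .nil)))) .nil)) 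
(.lf (nat_lit 256859) (.g (nat_lit 2340) (.e (nat_lit 164182) (nat_lit 154) (.e (nat_lit 57409) (nat_lit 12) (.e (nat_lit 336324) (nat_lit 18) (.e (nat_lit 204854) (nat_lit 26) (.e (nat_lit 336210) (nat_lit 13) .nil))))) .nil))) (.nd (nat_lit 6) 
(.lf (nat_lit 256827) (.g (nat_lit 1773) (.e (nat_lit 164180) (nat_lit 154) (.e (nat_lit 57411) (nat_lit 12) (.e (nat_lit 336316) (nat_lit 17) (.e (nat_lit 196674) (nat_lit 15) .nil)))) .nil)) 
(.lf (nat_lit 256891) (.g (nat_lit 2654) (.e (nat_lit 164182) (nat_lit 154) (.e (nat_lit 57411) (nat_lit 12) (.e (nat_lit 336019) (nat_lit 3) (.e (nat_lit 98381) (nat_lit 31) (.e (nat_lit 466977) (nat_lit 22) (.e (nat_lit 196624) (nat_lit 9) (.e (nat_lit 153) (nat_lit 10) .nil))))))) (.g (nat_lit 5) .nil .nil))))))) (.nd (nat_lit 3) (.nd (nat_lit 4) (.nd (nat_lit 5) (.nd (nat_lit 6) 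
(.lf (nat_lit 256775) (.g (nat_lit 992) (.e (nat_lit 164179) (nat_lit 154) (.e (nat_lit 57445) (nat_lit 19) (.e (nat_lit 393221) (nat_lit 0) (.e (nat_lit 7936) (nat_lit 348) .nil)))) .nil)) 
(.lf (nat_lit 256839) (.g (nat_lit 1548) (.e (nat_lit 164181) (nat_lit 154) (.e (nat_lit 57448) (nat_lit 19) (.e (nat_lit 393225) (nat_lit 9) (.e (nat_lit 336186) (nat_lit 11) (.e (nat_lit 368676) (nat_lit 21) .nil))))) .nil))) (.nd (nat_lit 6) 
(.lf (nat_lit 256807) (.g (nat_lit 1571) (.e (nat_lit 164179) (nat_lit 154) (.e (nat_lit 57447) (nat_lit 19) (.e (nat_lit 393229) (nat_lit 9) (.e (nat_lit 336085) (nat_lit 9) .nil)))) .nil)) 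
(.lf (nat_lit 256871) (.g (nat_lit 900) (.e (nat_lit 164182) (nat_lit 154) (.e (nat_lit 57409) (nat_lit 12) (.e (nat_lit 336456) (nat_lit 34) (.e (nat_lit 483393) (nat_lit 23) .nil)))) .nil)))) (.nd (nat_lit 5) (.nd (nat_lit 6) 
(.lf (nat_lit 256791) (.g (nat_lit 3648) (.e (nat_lit 164179) (nat_lit 154) (.e (nat_lit 57445) (nat_lit 19) (.e (nat_lit 393229) (nat_lit 9) (.e (nat_lit 336107) (nat_lit 9) .nil)))) .nil)) 
(.lf (nat_lit 256855) (.g (nat_lit 1517) (.e (nat_lit 164182) (nat_lit 154) (.e (nat_lit 57409) (nat_lit 12) (.e (nat_lit 336316) (nat_lit 17) (.e (nat_lit 196666) (nat_lit 13) (.e (nat_lit 65625) (nat_lit 13) .nil))))) .nil))) (.nd (nat_lit 6) 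
(.lf (nat_lit 256823) (.g (nat_lit 1156) (.e (nat_lit 164180) (nat_lit 154) (.e (nat_lit 57409) (nat_lit 12) (.e (nat_lit 336366) (nat_lit 27) (.e (nat_lit 426546) (nat_lit 30) .nil)))) .nil)) 
(.lf (nat_lit 256887) (.g (nat_lit 3116) (.e (nat_lit 164182) (nat_lit 154) (.e (nat_lit 57411) (nat_lit 12) (.e (nat_lit 336019) (nat_lit 3) (.e (nat_lit 98381) (nat_lit 31) (.e (nat_lit 466977) (nat_lit 22) (.e (nat_lit 196618) (nat_lit 9) (.e (nat_lit 156) (nat_lit 10) .nil))))))) (.g (nat_lit 5) .nil .nil)))))) (.nd (nat_lit 4) (.nd (nat_lit 5) (.nd (nat_lit 6) 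
(.lf (nat_lit 256783) (.g (nat_lit 907) (.e (nat_lit 164179) (nat_lit 154) (.e (nat_lit 57445) (nat_lit 19) (.e (nat_lit 393228) (nat_lit 9) .nil))) .nil)) 
(.lf (nat_lit 256847) (.g (nat_lit 3924) (.e (nat_lit 164182) (nat_lit 154) (.e (nat_lit 57379) (nat_lit 3) (.e (nat_lit 98334) (nat_lit 18) (.e (nat_lit 164330) (nat_lit 230) (.e (nat_lit 163926) (nat_lit 16) (.e (nat_lit 458789) (nat_lit 23) (.e (nat_lit 532530) (nat_lit 9) (.e (nat_lit 336310) (nat_lit 16) .nil)))))))) (.g (nat_lit 4) .nil .nil)))) (.nd (nat_lit 6) 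
(.lf (nat_lit 256815) (.g (nat_lit 1661) (.e (nat_lit 164179) (nat_lit 154) (.e (nat_lit 57448) (nat_lit 19) (.e (nat_lit 393234) (nat_lit 17) (.e (nat_lit 3485) (nat_lit 218) .nil)))) .nil)) 
(.lf (nat_lit 256879) (.g (nat_lit 408) (.e (nat_lit 164182) (nat_lit 154) (.e (nat_lit 57411) (nat_lit 12) (.e (nat_lit 336019) (nat_lit 3) .nil))) .nil)))) (.nd (nat_lit 5) (.nd (nat_lit 6) 
(.lf (nat_lit 256799) (.g (nat_lit 3449) (.e (nat_lit 164179) (nat_lit 154) (.e (nat_lit 57445) (nat_lit 19) (.e (nat_lit 393229) (nat_lit 9) (.e (nat_lit 336183) (nat_lit 11) .nil)))) .nil)) 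
(.lf (nat_lit 256863) (.g (nat_lit 602) (.e (nat_lit 164182) (nat_lit 154) (.e (nat_lit 57409) (nat_lit 12) (.e (nat_lit 336374) (nat_lit 27) .nil))) .nil))) (.nd (nat_lit 6) 
(.lf (nat_lit 256831) (.g (nat_lit 701) (.e (nat_lit 164181) (nat_lit 154) (.e (nat_lit 57409) (nat_lit 12) (.e (nat_lit 336366) (nat_lit 27) .nil))) .nil)) 
(.lf (nat_lit 256895) (.g (nat_lit 2159) (.e (nat_lit 164182) (nat_lit 154) (.e (nat_lit 57411) (nat_lit 12) (.e (nat_lit 336019) (nat_lit 3) (.e (nat_lit 98381) (nat_lit 31) (.e (nat_lit 466980) (nat_lit 23) (.e (nat_lit 212736) (nat_lit 1) .nil)))))) (.g (nat_lit 5) .nil .nil))))))))))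

noncomputable def tv3327 : DT := (.nd (nat_lit 0) (.nd (nat_lit 1) (.nd (nat_lit 2) (.nd (nat_lit 3) (.nd (nat_lit 4) (.nd (nat_lit 5) (.nd (nat_lit 6) 
(.lf (nat_lit 256896) (.g (nat_lit 3011) (.e (nat_lit 164182) (nat_lit 154) (.e (nat_lit 57411) (nat_lit 12) (.e (nat_lit 336019) (nat_lit 3) (.e (nat_lit 98381) (nat_lit 31) (.e (nat_lit 466981) (nat_lit 23) (.e (nat_lit 212736) (nat_lit 1) .nil)))))) (.g (nat_lit 5) .nil .nil))) 
(.lf (nat_lit 256960) (.g (nat_lit 3583) (.e (nat_lit 164183) (nat_lit 154) (.e (nat_lit 57373) (nat_lit 2) (.e (nat_lit 90158) (nat_lit 11) (.e (nat_lit 24608) (nat_lit 3) (.e (nat_lit 98341) (nat_lit 20) (.e (nat_lit 229120) (nat_lit 3) (.e (nat_lit 98333) (nat_lit 18) .nil))))))) (.g (nat_lit 4) .nil .nil)))) (.nd (nat_lit 6) 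
(.lf (nat_lit 256928) (.g (nat_lit 3288) (.e (nat_lit 164182) (nat_lit 154) (.e (nat_lit 57420) (nat_lit 13) (.e (nat_lit 344129) (nat_lit 26) (.e (nat_lit 557090) (nat_lit 12) (.e (nat_lit 164238) (nat_lit 187) (.e (nat_lit 1661) (nat_lit 115) (.e (nat_lit 393252) (nat_lit 18) .nil))))))) (.g (nat_lit 4) .nil .nil))) 
(.lf (nat_lit 256992) (.g (nat_lit 1650) (.e (nat_lit 164183) (nat_lit 154) (.e (nat_lit 57409) (nat_lit 12) (.e (nat_lit 336211) (nat_lit 13) (.e (nat_lit 393265) (nat_lit 22) .nil)))) .nil)))) (.nd (nat_lit 5) (.nd (nat_lit 6) 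
(.lf (nat_lit 256912) (.g (nat_lit 846) (.e (nat_lit 164182) (nat_lit 154) (.e (nat_lit 57411) (nat_lit 12) (.e (nat_lit 336395) (nat_lit 27) .nil))) .nil)) 
(.lf (nat_lit 256976) (.g (nat_lit 1256) (.e (nat_lit 164183) (nat_lit 154) (.e (nat_lit 57378) (nat_lit 3) (.e (nat_lit 98341) (nat_lit 20) (.e (nat_lit 221214) (nat_lit 23) .nil)))) .nil))) (.nd (nat_lit 6) 
(.lf (nat_lit 256944) (.g (nat_lit 1315) (.e (nat_lit 164182) (nat_lit 154) (.e (nat_lit 57447) (nat_lit 19) (.e (nat_lit 393225) (nat_lit 9) (.e (nat_lit 336186) (nat_lit 11) .nil)))) .nil)) 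
(.lf (nat_lit 257008) (.g (nat_lit 2308) (.e (nat_lit 164183) (nat_lit 154) (.e (nat_lit 57409) (nat_lit 12) (.e (nat_lit 336369) (nat_lit 27) (.e (nat_lit 426498) (nat_lit 27) (.e (nat_lit 336087) (nat_lit 9) .nil))))) .nil))))) (.nd (nat_lit 4) (.nd (nat_lit 5) (.nd (nat_lit 6) 
(.lf (nat_lit 256904) (.g (nat_lit 709) (.e (nat_lit 164182) (nat_lit 154) (.e (nat_lit 57411) (nat_lit 12) (.e (nat_lit 336366) (nat_lit 27) .nil))) .nil)) 
(.lf (nat_lit 256968) (.g (nat_lit 664) (.e (nat_lit 164183) (nat_lit 154) (.e (nat_lit 57373) (nat_lit 2) (.e (nat_lit 90160) (nat_lit 11) .nil))) .nil))) (.nd (nat_lit 6) 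
(.lf (nat_lit 256936) (.g (nat_lit 2785) (.e (nat_lit 164182) (nat_lit 154) (.e (nat_lit 57442) (nat_lit 18) (.e (nat_lit 385068) (nat_lit 26) (.e (nat_lit 532558) (nat_lit 14) (.e (nat_lit 376842) (nat_lit 11) (.e (nat_lit 426106) (nat_lit 1) .nil)))))) (.g (nat_lit 5) .nil .nil))) 
(.lf (nat_lit 257000) (.g (nat_lit 1312) (.e (nat_lit 164183) (nat_lit 154) (.e (nat_lit 57409) (nat_lit 12) (.e (nat_lit 336324) (nat_lit 18) (.e (nat_lit 204851) (nat_lit 26) .nil)))) .nil)))) (.nd (nat_lit 5) (.nd (nat_lit 6) 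
(.lf (nat_lit 256920) (.g (nat_lit 2847) (.e (nat_lit 164182) (nat_lit 154) (.e (nat_lit 57418) (nat_lit 12) (.e (nat_lit 336012) (nat_lit 2) (.e (nat_lit 90176) (nat_lit 15) (.e (nat_lit 188450) (nat_lit 23) (.e (nat_lit 212736) (nat_lit 1) .nil)))))) (.g (nat_lit 5) .nil .nil))) 
(.lf (nat_lit 256984) (.g (nat_lit 1421) (.e (nat_lit 164183) (nat_lit 154) (.e (nat_lit 57379) (nat_lit 3) (.e (nat_lit 98341) (nat_lit 20) (.e (nat_lit 221214) (nat_lit 23) .nil)))) .nil))) (.nd (nat_lit 6) 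
(.lf (nat_lit 256952) (.g (nat_lit 632) (.e (nat_lit 164182) (nat_lit 154) (.e (nat_lit 57448) (nat_lit 19) (.e (nat_lit 393219) (nat_lit 0) .nil))) .nil)) 
(.lf (nat_lit 257016) (.g (nat_lit 1712) (.e (nat_lit 164183) (nat_lit 154) (.e (nat_lit 57409) (nat_lit 12) (.e (nat_lit 336369) (nat_lit 27) (.e (nat_lit 433920) (nat_lit 30) .nil)))) .nil)))))) (.nd (nat_lit 3) (.nd (nat_lit 4) (.nd (nat_lit 5) (.nd (nat_lit 6) 
(.lf (nat_lit 256900) (.g (nat_lit 2103) (.e (nat_lit 164182) (nat_lit 154) (.e (nat_lit 57411) (nat_lit 12) (.e (nat_lit 336322) (nat_lit 18) (.e (nat_lit 204854) (nat_lit 26) (.e (nat_lit 336211) (nat_lit 13) .nil))))) .nil)) 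
(.lf (nat_lit 256964) (.g (nat_lit 3360) (.e (nat_lit 164183) (nat_lit 154) (.e (nat_lit 57373) (nat_lit 2) (.e (nat_lit 90158) (nat_lit 11) (.e (nat_lit 24650) (nat_lit 12) (.e (nat_lit 385041) (nat_lit 19) (.e (nat_lit 171776) (nat_lit 118) (.e (nat_lit 794658) (nat_lit 21) .nil))))))) (.g (nat_lit 4) .nil .nil)))) (.nd (nat_lit 6) 
(.lf (nat_lit 256932) (.g (nat_lit 784) (.e (nat_lit 164182) (nat_lit 154) (.e (nat_lit 57442) (nat_lit 18) (.e (nat_lit 385066) (nat_lit 26) (.e (nat_lit 532537) (nat_lit 9) .nil)))) .nil)) 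
(.lf (nat_lit 256996) (.g (nat_lit 1263) (.e (nat_lit 164183) (nat_lit 154) (.e (nat_lit 57409) (nat_lit 12) (.e (nat_lit 336316) (nat_lit 17) (.e (nat_lit 196680) (nat_lit 17) .nil)))) .nil)))) (.nd (nat_lit 5) (.nd (nat_lit 6) 
(.lf (nat_lit 256916) (.g (nat_lit 418) (.e (nat_lit 164182) (nat_lit 154) (.e (nat_lit 57411) (nat_lit 12) (.e (nat_lit 336454) (nat_lit 34) .nil))) .nil)) 
(.lf (nat_lit 256980) (.g (nat_lit 2083) (.e (nat_lit 164183) (nat_lit 154) (.e (nat_lit 57378) (nat_lit 3) (.e (nat_lit 98341) (nat_lit 20) (.e (nat_lit 221215) (nat_lit 23) (.e (nat_lit 204862) (nat_lit 27) .nil))))) .nil))) (.nd (nat_lit 6) 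
(.lf (nat_lit 256948) (.g (nat_lit 1631) (.e (nat_lit 164182) (nat_lit 154) (.e (nat_lit 57447) (nat_lit 19) (.e (nat_lit 393229) (nat_lit 9) (.e (nat_lit 336185) (nat_lit 11) .nil)))) .nil)) 
(.lf (nat_lit 257012) (.g (nat_lit 1603) (.e (nat_lit 164183) (nat_lit 154) (.e (nat_lit 57409) (nat_lit 12) (.e (nat_lit 336369) (nat_lit 27) (.e (nat_lit 426501) (nat_lit 27) .nil)))) .nil))))) (.nd (nat_lit 4) (.nd (nat_lit 5) (.nd (nat_lit 6) 
(.lf (nat_lit 256908) (.g (nat_lit 847) (.e (nat_lit 164182) (nat_lit 154) (.e (nat_lit 57411) (nat_lit 12) (.e (nat_lit 336370) (nat_lit 27) .nil))) .nil)) 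
(.lf (nat_lit 256972) (.g (nat_lit 1246) (.e (nat_lit 164183) (nat_lit 154) (.e (nat_lit 57373) (nat_lit 2) (.e (nat_lit 90165) (nat_lit 12) (.e (nat_lit 171776) (nat_lit 48) .nil)))) .nil))) (.nd (nat_lit 6) 
(.lf (nat_lit 256940) (.g (nat_lit 851) (.e (nat_lit 164182) (nat_lit 154) (.e (nat_lit 57447) (nat_lit 19) (.e (nat_lit 393219) (nat_lit 0) .nil))) .nil)) 
(.lf (nat_lit 257004) (.g (nat_lit 1649) (.e (nat_lit 164183) (nat_lit 154) (.e (nat_lit 57409) (nat_lit 12) (.e (nat_lit 336369) (nat_lit 27) (.e (nat_lit 426497) (nat_lit 27) .nil)))) .nil)))) (.nd (nat_lit 5) (.nd (nat_lit 6) 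
(.lf (nat_lit 256924) (.g (nat_lit 1354) (.e (nat_lit 164182) (nat_lit 154) (.e (nat_lit 57419) (nat_lit 12) (.e (nat_lit 336004) (nat_lit 2) (.e (nat_lit 90185) (nat_lit 17) (.e (nat_lit 237605) (nat_lit 9) .nil))))) .nil)) 
(.lf (nat_lit 256988) (.g (nat_lit 2032) (.e (nat_lit 164183) (nat_lit 154) (.e (nat_lit 57409) (nat_lit 12) (.e (nat_lit 336019) (nat_lit 3) (.e (nat_lit 98372) (nat_lit 29) .nil)))) .nil))) (.nd (nat_lit 6) 
(.lf (nat_lit 256956) (.g (nat_lit 782) (.e (nat_lit 164183) (nat_lit 154) (.e (nat_lit 57366) (nat_lit 1) (.e (nat_lit 57854) (nat_lit 252) (.e (nat_lit 57378) (nat_lit 3) .nil)))) .nil)) 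
(.lf (nat_lit 257020) (.g (nat_lit 554) (.e (nat_lit 164183) (nat_lit 154) (.e (nat_lit 57409) (nat_lit 12) (.e (nat_lit 336379) (nat_lit 27) .nil))) .nil))))))) (.nd (nat_lit 2) (.nd (nat_lit 3) (.nd (nat_lit 4) (.nd (nat_lit 5) (.nd (nat_lit 6) 
(.lf (nat_lit 256898) (.g (nat_lit 1607) (.e (nat_lit 164182) (nat_lit 154) (.e (nat_lit 57411) (nat_lit 12) (.e (nat_lit 336316) (nat_lit 17) (.e (nat_lit 196666) (nat_lit 13) (.e (nat_lit 65625) (nat_lit 13) .nil))))) .nil)) 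
(.lf (nat_lit 256962) (.g (nat_lit 2434) (.e (nat_lit 164183) (nat_lit 154) (.e (nat_lit 57373) (nat_lit 2) (.e (nat_lit 90158) (nat_lit 11) (.e (nat_lit 24650) (nat_lit 12) .nil)))) .nil))) (.nd (nat_lit 6) 
(.lf (nat_lit 256930) (.g (nat_lit 2084) (.e (nat_lit 164182) (nat_lit 154) (.e (nat_lit 57423) (nat_lit 14) (.e (nat_lit 352324) (nat_lit 26) (.e (nat_lit 147494) (nat_lit 11) (.e (nat_lit 24665) (nat_lit 14) .nil))))) .nil)) 
(.lf (nat_lit 256994) (.g (nat_lit 1868) (.e (nat_lit 164183) (nat_lit 154) (.e (nat_lit 57409) (nat_lit 12) (.e (nat_lit 336316) (nat_lit 17) (.e (nat_lit 196630) (nat_lit 9) (.e (nat_lit 1573) (nat_lit 110) .nil))))) .nil)))) (.nd (nat_lit 5) (.nd (nat_lit 6) 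
(.lf (nat_lit 256914) (.g (nat_lit 756) (.e (nat_lit 164182) (nat_lit 154) (.e (nat_lit 57411) (nat_lit 12) (.e (nat_lit 336414) (nat_lit 27) .nil))) .nil)) 
(.lf (nat_lit 256978) (.g (nat_lit 1137) (.e (nat_lit 164183) (nat_lit 154) (.e (nat_lit 57378) (nat_lit 3) (.e (nat_lit 98341) (nat_lit 20) (.e (nat_lit 221215) (nat_lit 23) .nil)))) .nil))) (.nd (nat_lit 6) 
(.lf (nat_lit 256946) (.g (nat_lit 1753) (.e (nat_lit 164182) (nat_lit 154) (.e (nat_lit 57447) (nat_lit 19) (.e (nat_lit 393228) (nat_lit 9) (.e (nat_lit 336087) (nat_lit 9) (.e (nat_lit 336019) (nat_lit 3) .nil))))) .nil)) 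
(.lf (nat_lit 257010) (.g (nat_lit 2308) (.e (nat_lit 164183) (nat_lit 154) (.e (nat_lit 57409) (nat_lit 12) (.e (nat_lit 336369) (nat_lit 27) (.e (nat_lit 426498) (nat_lit 27) (.e (nat_lit 336185) (nat_lit 11) .nil))))) .nil))))) (.nd (nat_lit 4) (.nd (nat_lit 5) (.nd (nat_lit 6) 
(.lf (nat_lit 256906) (.g (nat_lit 1024) (.e (nat_lit 164182) (nat_lit 154) (.e (nat_lit 57411) (nat_lit 12) (.e (nat_lit 336366) (nat_lit 27) (.e (nat_lit 426546) (nat_lit 30) .nil)))) .nil)) 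
(.lf (nat_lit 256970) (.g (nat_lit 2247) (.e (nat_lit 164183) (nat_lit 154) (.e (nat_lit 57373) (nat_lit 2) (.e (nat_lit 90160) (nat_lit 11) (.e (nat_lit 24664) (nat_lit 14) .nil)))) .nil))) (.nd (nat_lit 6) 
(.lf (nat_lit 256938) (.g (nat_lit 2638) (.e (nat_lit 164182) (nat_lit 154) (.e (nat_lit 57443) (nat_lit 18) (.e (nat_lit 385068) (nat_lit 26) (.e (nat_lit 532530) (nat_lit 9) (.e (nat_lit 336211) (nat_lit 13) (.e (nat_lit 393254) (nat_lit 18) .nil)))))) (.g (nat_lit 4) .nil .nil))) 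
(.lf (nat_lit 257002) (.g (nat_lit 2719) (.e (nat_lit 164183) (nat_lit 154) (.e (nat_lit 57409) (nat_lit 12) (.e (nat_lit 336326) (nat_lit 18) (.e (nat_lit 204854) (nat_lit 26) (.e (nat_lit 336211) (nat_lit 13) (.e (nat_lit 393254) (nat_lit 18) .nil)))))) (.g (nat_lit 0) .nil .nil))))) (.nd (nat_lit 5) (.nd (nat_lit 6) 
(.lf (nat_lit 256922) (.g (nat_lit 2472) (.e (nat_lit 164182) (nat_lit 154) (.e (nat_lit 57419) (nat_lit 12) (.e (nat_lit 336003) (nat_lit 2) (.e (nat_lit 90176) (nat_lit 15) (.e (nat_lit 188450) (nat_lit 23) (.e (nat_lit 212736) (nat_lit 1) .nil)))))) (.g (nat_lit 5) .nil .nil))) 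
(.lf (nat_lit 256986) (.g (nat_lit 1272) (.e (nat_lit 164183) (nat_lit 154) (.e (nat_lit 57379) (nat_lit 3) (.e (nat_lit 98342) (nat_lit 20) (.e (nat_lit 221214) (nat_lit 23) .nil)))) .nil))) (.nd (nat_lit 6) 
(.lf (nat_lit 256954) (.g (nat_lit 1205) (.e (nat_lit 164182) (nat_lit 154) (.e (nat_lit 57448) (nat_lit 19) (.e (nat_lit 393229) (nat_lit 9) (.e (nat_lit 336107) (nat_lit 9) .nil)))) .nil)) 
(.lf (nat_lit 257018) (.g (nat_lit 456) (.e (nat_lit 164183) (nat_lit 154) (.e (nat_lit 57409) (nat_lit 12) (.e (nat_lit 336374) (nat_lit 27) .nil))) .nil)))))) (.nd (nat_lit 3) (.nd (nat_lit 4) (.nd (nat_lit 5) (.nd (nat_lit 6) 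
(.lf (nat_lit 256902) (.g (nat_lit 1909) (.e (nat_lit 164182) (nat_lit 154) (.e (nat_lit 57411) (nat_lit 12) (.e (nat_lit 336324) (nat_lit 18) (.e (nat_lit 204851) (nat_lit 26) (.e (nat_lit 336211) (nat_lit 13) .nil))))) .nil)) 
(.lf (nat_lit 256966) (.g (nat_lit 3258) (.e (nat_lit 164183) (nat_lit 154) (.e (nat_lit 57373) (nat_lit 2) (.e (nat_lit 90158) (nat_lit 11) (.e (nat_lit 24651) (nat_lit 12) (.e (nat_lit 385041) (nat_lit 19) .nil))))) .nil))) (.nd (nat_lit 6) 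
(.lf (nat_lit 256934) (.g (nat_lit 2995) (.e (nat_lit 164182) (nat_lit 154) (.e (nat_lit 57442) (nat_lit 18) (.e (nat_lit 385068) (nat_lit 26) (.e (nat_lit 532534) (nat_lit 9) (.e (nat_lit 336211) (nat_lit 13) (.e (nat_lit 393254) (nat_lit 18) .nil)))))) (.g (nat_lit 5) .nil .nil))) 
(.lf (nat_lit 256998) (.g (nat_lit 868) (.e (nat_lit 164183) (nat_lit 154) (.e (nat_lit 57409) (nat_lit 12) (.e (nat_lit 336322) (nat_lit 18) .nil))) .nil)))) (.nd (nat_lit 5) (.nd (nat_lit 6) 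
(.lf (nat_lit 256918) (.g (nat_lit 683) (.e (nat_lit 164182) (nat_lit 154) (.e (nat_lit 57415) (nat_lit 12) (.e (nat_lit 336028) (nat_lit 3) (.e (nat_lit 98370) (nat_lit 28) .nil)))) .nil)) 
(.lf (nat_lit 256982) (.g (nat_lit 1541) (.e (nat_lit 164183) (nat_lit 154) (.e (nat_lit 57378) (nat_lit 3) (.e (nat_lit 98342) (nat_lit 20) (.e (nat_lit 221215) (nat_lit 23) (.e (nat_lit 204862) (nat_lit 27) .nil))))) .nil))) (.nd (nat_lit 6) 
(.lf (nat_lit 256950) (.g (nat_lit 851) (.e (nat_lit 164182) (nat_lit 154) (.e (nat_lit 57447) (nat_lit 19) (.e (nat_lit 393238) (nat_lit 17) .nil))) .nil)) 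
(.lf (nat_lit 257014) (.g (nat_lit 2159) (.e (nat_lit 164183) (nat_lit 154) (.e (nat_lit 57409) (nat_lit 12) (.e (nat_lit 336369) (nat_lit 27) (.e (nat_lit 426501) (nat_lit 27) (.e (nat_lit 336185) (nat_lit 11) .nil))))) .nil))))) (.nd (nat_lit 4) (.nd (nat_lit 5) (.nd (nat_lit 6) 
(.lf (nat_lit 256910) (.g (nat_lit 730) (.e (nat_lit 164182) (nat_lit 154) (.e (nat_lit 57411) (nat_lit 12) (.e (nat_lit 336374) (nat_lit 27) .nil))) .nil)) 
(.lf (nat_lit 256974) (.g (nat_lit 1889) (.e (nat_lit 164183) (nat_lit 154) (.e (nat_lit 57375) (nat_lit 2) (.e (nat_lit 90160) (nat_lit 11) (.e (nat_lit 24608) (nat_lit 3) .nil)))) .nil))) (.nd (nat_lit 6) 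
(.lf (nat_lit 256942) (.g (nat_lit 1605) (.e (nat_lit 164182) (nat_lit 154) (.e (nat_lit 57447) (nat_lit 19) (.e (nat_lit 393225) (nat_lit 9) (.e (nat_lit 336158) (nat_lit 9) .nil)))) .nil)) 
(.lf (nat_lit 257006) (.g (nat_lit 2320) (.e (nat_lit 164183) (nat_lit 154) (.e (nat_lit 57409) (nat_lit 12) (.e (nat_lit 336369) (nat_lit 27) (.e (nat_lit 426497) (nat_lit 27) (.e (nat_lit 336186) (nat_lit 11) .nil))))) .nil)))) (.nd (nat_lit 5) (.nd (nat_lit 6) 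
(.lf (nat_lit 256926) (.g (nat_lit 2869) (.e (nat_lit 164182) (nat_lit 154) (.e (nat_lit 57419) (nat_lit 12) (.e (nat_lit 336222) (nat_lit 13) (.e (nat_lit 393260) (nat_lit 21) (.e (nat_lit 409648) (nat_lit 18) (.e (nat_lit 303114) (nat_lit 1) .nil)))))) (.g (nat_lit 5) .nil .nil))) 
(.lf (nat_lit 256990) (.g (nat_lit 1008) (.e (nat_lit 164183) (nat_lit 154) (.e (nat_lit 57409) (nat_lit 12) (.e (nat_lit 336182) (nat_lit 11) .nil))) .nil))) (.nd (nat_lit 6) 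
(.lf (nat_lit 256958) (.g (nat_lit 1319) (.e (nat_lit 164183) (nat_lit 154) (.e (nat_lit 57373) (nat_lit 2) (.e (nat_lit 90158) (nat_lit 11) .nil))) .nil)) 
(.lf (nat_lit 257022) (.g (nat_lit 818) (.e (nat_lit 164183) (nat_lit 154) (.e (nat_lit 57409) (nat_lit 12) (.e (nat_lit 336395) (nat_lit 27) .nil))) .nil)))))))) (.nd (nat_lit 1) (.nd (nat_lit 2) (.nd (nat_lit 3) (.nd (nat_lit 4) (.nd (nat_lit 5) (.nd (nat_lit 6) 
(.lf (nat_lit 256897) (.g (nat_lit 1109) (.e (nat_lit 164182) (nat_lit 154) (.e (nat_lit 57411) (nat_lit 12) (.e (nat_lit 336211) (nat_lit 13) (.e (nat_lit 393264) (nat_lit 22) (.e (nat_lit 417830) (nat_lit 19) .nil))))) .nil)) 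
(.lf (nat_lit 256961) (.g (nat_lit 3263) (.e (nat_lit 164183) (nat_lit 154) (.e (nat_lit 57373) (nat_lit 2) (.e (nat_lit 90158) (nat_lit 11) (.e (nat_lit 24608) (nat_lit 3) (.e (nat_lit 98342) (nat_lit 20) .nil))))) .nil))) (.nd (nat_lit 6) 
(.lf (nat_lit 256929) (.g (nat_lit 1361) (.e (nat_lit 164182) (nat_lit 154) (.e (nat_lit 57423) (nat_lit 14) (.e (nat_lit 352322) (nat_lit 26) (.e (nat_lit 147495) (nat_lit 11) .nil)))) .nil)) 
(.lf (nat_lit 256993) (.g (nat_lit 968) (.e (nat_lit 164183) (nat_lit 154) (.e (nat_lit 57409) (nat_lit 12) (.e (nat_lit 336310) (nat_lit 16) .nil))) .nil)))) (.nd (nat_lit 5) (.nd (nat_lit 6) 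
(.lf (nat_lit 256913) (.g (nat_lit 846) (.e (nat_lit 164182) (nat_lit 154) (.e (nat_lit 57411) (nat_lit 12) (.e (nat_lit 336398) (nat_lit 27) .nil))) .nil)) 
(.lf (nat_lit 256977) (.g (nat_lit 2028) (.e (nat_lit 164183) (nat_lit 154) (.e (nat_lit 57378) (nat_lit 3) (.e (nat_lit 98341) (nat_lit 20) (.e (nat_lit 221214) (nat_lit 23) (.e (nat_lit 204859) (nat_lit 26) .nil))))) .nil))) (.nd (nat_lit 6) 
(.lf (nat_lit 256945) (.g (nat_lit 860) (.e (nat_lit 164182) (nat_lit 154) (.e (nat_lit 57447) (nat_lit 19) (.e (nat_lit 393226) (nat_lit 9) .nil))) .nil)) 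
(.lf (nat_lit 257009) (.g (nat_lit 2308) (.e (nat_lit 164183) (nat_lit 154) (.e (nat_lit 57409) (nat_lit 12) (.e (nat_lit 336369) (nat_lit 27) (.e (nat_lit 426498) (nat_lit 27) (.e (nat_lit 336088) (nat_lit 9) .nil))))) .nil))))) (.nd (nat_lit 4) (.nd (nat_lit 5) (.nd (nat_lit 6) 
(.lf (nat_lit 256905) (.g (nat_lit 1499) (.e (nat_lit 164182) (nat_lit 154) (.e (nat_lit 57411) (nat_lit 12) (.e (nat_lit 336366) (nat_lit 27) (.e (nat_lit 426544) (nat_lit 30) (.e (nat_lit 360466) (nat_lit 3) .nil))))) .nil)) 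
(.lf (nat_lit 256969) (.g (nat_lit 2209) (.e (nat_lit 164183) (nat_lit 154) (.e (nat_lit 57373) (nat_lit 2) (.e (nat_lit 90160) (nat_lit 11) (.e (nat_lit 24650) (nat_lit 12) .nil)))) .nil))) (.nd (nat_lit 6) 
(.lf (nat_lit 256937) (.g (nat_lit 2932) (.e (nat_lit 164182) (nat_lit 154) (.e (nat_lit 57442) (nat_lit 18) (.e (nat_lit 385068) (nat_lit 26) (.e (nat_lit 532560) (nat_lit 14) (.e (nat_lit 376842) (nat_lit 11) (.e (nat_lit 426106) (nat_lit 1) .nil)))))) (.g (nat_lit 5) .nil .nil))) 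
(.lf (nat_lit 257001) (.g (nat_lit 1221) (.e (nat_lit 164183) (nat_lit 154) (.e (nat_lit 57409) (nat_lit 12) (.e (nat_lit 336324) (nat_lit 18) (.e (nat_lit 204857) (nat_lit 26) (.e (nat_lit 336224) (nat_lit 13) .nil))))) .nil)))) (.nd (nat_lit 5) (.nd (nat_lit 6) 
(.lf (nat_lit 256921) (.g (nat_lit 2732) (.e (nat_lit 164182) (nat_lit 154) (.e (nat_lit 57418) (nat_lit 12) (.e (nat_lit 336222) (nat_lit 13) (.e (nat_lit 393260) (nat_lit 21) (.e (nat_lit 409649) (nat_lit 18) (.e (nat_lit 303114) (nat_lit 1) .nil)))))) (.g (nat_lit 5) .nil .nil))) 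
(.lf (nat_lit 256985) (.g (nat_lit 2216) (.e (nat_lit 164183) (nat_lit 154) (.e (nat_lit 57379) (nat_lit 3) (.e (nat_lit 98341) (nat_lit 20) (.e (nat_lit 221215) (nat_lit 23) (.e (nat_lit 204862) (nat_lit 27) .nil))))) .nil))) (.nd (nat_lit 6) 
(.lf (nat_lit 256953) (.g (nat_lit 632) (.e (nat_lit 164182) (nat_lit 154) (.e (nat_lit 57448) (nat_lit 19) (.e (nat_lit 393228) (nat_lit 9) .nil))) .nil)) 
(.lf (nat_lit 257017) (.g (nat_lit 953) (.e (nat_lit 164183) (nat_lit 154) (.e (nat_lit 57409) (nat_lit 12) (.e (nat_lit 336370) (nat_lit 27) .nil))) .nil)))))) (.nd (nat_lit 3) (.nd (nat_lit 4) (.nd (nat_lit 5) (.nd (nat_lit 6) 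
(.lf (nat_lit 256901) (.g (nat_lit 456) (.e (nat_lit 164182) (nat_lit 154) (.e (nat_lit 57411) (nat_lit 12) (.e (nat_lit 336324) (nat_lit 18) .nil))) .nil)) 
(.lf (nat_lit 256965) (.g (nat_lit 2366) (.e (nat_lit 164183) (nat_lit 154) (.e (nat_lit 57373) (nat_lit 2) (.e (nat_lit 90158) (nat_lit 11) (.e (nat_lit 24651) (nat_lit 12) .nil)))) .nil))) (.nd (nat_lit 6) 
(.lf (nat_lit 256933) (.g (nat_lit 2919) (.e (nat_lit 164182) (nat_lit 154) (.e (nat_lit 57442) (nat_lit 18) (.e (nat_lit 385068) (nat_lit 26) (.e (nat_lit 532530) (nat_lit 9) (.e (nat_lit 336211) (nat_lit 13) (.e (nat_lit 393254) (nat_lit 18) .nil)))))) (.g (nat_lit 4) .nil .nil))) 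
(.lf (nat_lit 256997) (.g (nat_lit 422) (.e (nat_lit 164183) (nat_lit 154) (.e (nat_lit 57409) (nat_lit 12) (.e (nat_lit 336320) (nat_lit 17) .nil))) .nil)))) (.nd (nat_lit 5) (.nd (nat_lit 6) 
(.lf (nat_lit 256917) (.g (nat_lit 367) (.e (nat_lit 164182) (nat_lit 154) (.e (nat_lit 57411) (nat_lit 12) (.e (nat_lit 336456) (nat_lit 34) .nil))) .nil)) 
(.lf (nat_lit 256981) (.g (nat_lit 2776) (.e (nat_lit 164183) (nat_lit 154) (.e (nat_lit 57378) (nat_lit 3) (.e (nat_lit 98342) (nat_lit 20) (.e (nat_lit 221215) (nat_lit 23) (.e (nat_lit 204859) (nat_lit 26) (.e (nat_lit 336017) (nat_lit 3) (.e (nat_lit 98333) (nat_lit 18) .nil))))))) (.g (nat_lit 4) .nil .nil)))) (.nd (nat_lit 6) 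
(.lf (nat_lit 256949) (.g (nat_lit 549) (.e (nat_lit 164182) (nat_lit 154) (.e (nat_lit 57447) (nat_lit 19) (.e (nat_lit 401152) (nat_lit 11) .nil))) .nil)) 
(.lf (nat_lit 257013) (.g (nat_lit 2159) (.e (nat_lit 164183) (nat_lit 154) (.e (nat_lit 57409) (nat_lit 12) (.e (nat_lit 336369) (nat_lit 27) (.e (nat_lit 426501) (nat_lit 27) (.e (nat_lit 336163) (nat_lit 10) .nil))))) .nil))))) (.nd (nat_lit 4) (.nd (nat_lit 5) (.nd (nat_lit 6) 
(.lf (nat_lit 256909) (.g (nat_lit 657) (.e (nat_lit 164182) (nat_lit 154) (.e (nat_lit 57411) (nat_lit 12) (.e (nat_lit 336372) (nat_lit 27) .nil))) .nil)) 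
(.lf (nat_lit 256973) (.g (nat_lit 2453) (.e (nat_lit 164183) (nat_lit 154) (.e (nat_lit 57374) (nat_lit 2) (.e (nat_lit 90165) (nat_lit 12) (.e (nat_lit 171776) (nat_lit 48) (.e (nat_lit 720941) (nat_lit 22) (.e (nat_lit 90172) (nat_lit 14) (.e (nat_lit 188160) (nat_lit 3) (.e (nat_lit 516115) (nat_lit 1) .nil)))))))) (.g (nat_lit 6) .nil .nil)))) (.nd (nat_lit 6) 
(.lf (nat_lit 256941) (.g (nat_lit 857) (.e (nat_lit 164182) (nat_lit 154) (.e (nat_lit 57447) (nat_lit 19) (.e (nat_lit 393224) (nat_lit 9) .nil))) .nil)) 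
(.lf (nat_lit 257005) (.g (nat_lit 2320) (.e (nat_lit 164183) (nat_lit 154) (.e (nat_lit 57409) (nat_lit 12) (.e (nat_lit 336369) (nat_lit 27) (.e (nat_lit 426497) (nat_lit 27) (.e (nat_lit 336185) (nat_lit 11) .nil))))) .nil)))) (.nd (nat_lit 5) (.nd (nat_lit 6) 
(.lf (nat_lit 256925) (.g (nat_lit 2770) (.e (nat_lit 164182) (nat_lit 154) (.e (nat_lit 57419) (nat_lit 12) (.e (nat_lit 336012) (nat_lit 2) (.e (nat_lit 90176) (nat_lit 15) (.e (nat_lit 188450) (nat_lit 23) (.e (nat_lit 212736) (nat_lit 1) .nil)))))) (.g (nat_lit 5) .nil .nil))) 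
(.lf (nat_lit 256989) (.g (nat_lit 1792) (.e (nat_lit 164183) (nat_lit 154) (.e (nat_lit 57409) (nat_lit 12) (.e (nat_lit 336019) (nat_lit 3) (.e (nat_lit 98381) (nat_lit 31) .nil)))) .nil))) (.nd (nat_lit 6) 
(.lf (nat_lit 256957) (.g (nat_lit 918) (.e (nat_lit 164183) (nat_lit 154) (.e (nat_lit 57367) (nat_lit 1) (.e (nat_lit 57847) (nat_lit 252) (.e (nat_lit 57379) (nat_lit 3) .nil)))) .nil)) 
(.lf (nat_lit 257021) (.g (nat_lit 809) (.e (nat_lit 164183) (nat_lit 154) (.e (nat_lit 57409) (nat_lit 12) (.e (nat_lit 336379) (nat_lit 27) (.e (nat_lit 433920) (nat_lit 30) .nil)))) .nil))))))) (.nd (nat_lit 2) (.nd (nat_lit 3) (.nd (nat_lit 4) (.nd (nat_lit 5) (.nd (nat_lit 6) 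
(.lf (nat_lit 256899) (.g (nat_lit 2378) (.e (nat_lit 164182) (nat_lit 154) (.e (nat_lit 57411) (nat_lit 12) (.e (nat_lit 336316) (nat_lit 17) (.e (nat_lit 196674) (nat_lit 15) (.e (nat_lit 81925) (nat_lit 11) (.e (nat_lit 426105) (nat_lit 1) .nil)))))) (.g (nat_lit 4) .nil .nil))) 
(.lf (nat_lit 256963) (.g (nat_lit 3440) (.e (nat_lit 164183) (nat_lit 154) (.e (nat_lit 57373) (nat_lit 2) (.e (nat_lit 90158) (nat_lit 11) (.e (nat_lit 24650) (nat_lit 12) (.e (nat_lit 385041) (nat_lit 19) (.e (nat_lit 164111) (nat_lit 118) (.e (nat_lit 794662) (nat_lit 21) .nil))))))) (.g (nat_lit 4) .nil .nil)))) (.nd (nat_lit 6) 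
(.lf (nat_lit 256931) (.g (nat_lit 1532) (.e (nat_lit 164182) (nat_lit 154) (.e (nat_lit 57423) (nat_lit 14) (.e (nat_lit 352324) (nat_lit 26) (.e (nat_lit 147495) (nat_lit 11) .nil)))) .nil)) 
(.lf (nat_lit 256995) (.g (nat_lit 2130) (.e (nat_lit 164183) (nat_lit 154) (.e (nat_lit 57409) (nat_lit 12) (.e (nat_lit 336316) (nat_lit 17) (.e (nat_lit 196674) (nat_lit 15) (.e (nat_lit 81925) (nat_lit 11) (.e (nat_lit 426105) (nat_lit 1) .nil)))))) (.g (nat_lit 4) .nil .nil))))) (.nd (nat_lit 5) (.nd (nat_lit 6) 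
(.lf (nat_lit 256915) (.g (nat_lit 846) (.e (nat_lit 164182) (nat_lit 154) (.e (nat_lit 57411) (nat_lit 12) (.e (nat_lit 336450) (nat_lit 33) .nil))) .nil)) 
(.lf (nat_lit 256979) (.g (nat_lit 2866) (.e (nat_lit 164183) (nat_lit 154) (.e (nat_lit 57378) (nat_lit 3) (.e (nat_lit 98341) (nat_lit 20) (.e (nat_lit 221215) (nat_lit 23) (.e (nat_lit 204859) (nat_lit 26) (.e (nat_lit 336017) (nat_lit 3) (.e (nat_lit 98333) (nat_lit 18) .nil))))))) (.g (nat_lit 4) .nil .nil)))) (.nd (nat_lit 6) 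
(.lf (nat_lit 256947) (.g (nat_lit 1513) (.e (nat_lit 164182) (nat_lit 154) (.e (nat_lit 57447) (nat_lit 19) (.e (nat_lit 393228) (nat_lit 9) (.e (nat_lit 336186) (nat_lit 11) (.e (nat_lit 368676) (nat_lit 21) .nil))))) .nil)) 
(.lf (nat_lit 257011) (.g (nat_lit 2308) (.e (nat_lit 164183) (nat_lit 154) (.e (nat_lit 57409) (nat_lit 12) (.e (nat_lit 336369) (nat_lit 27) (.e (nat_lit 426498) (nat_lit 27) (.e (nat_lit 336186) (nat_lit 11) .nil))))) .nil))))) (.nd (nat_lit 4) (.nd (nat_lit 5) (.nd (nat_lit 6) 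
(.lf (nat_lit 256907) (.g (nat_lit 846) (.e (nat_lit 164182) (nat_lit 154) (.e (nat_lit 57411) (nat_lit 12) (.e (nat_lit 336369) (nat_lit 27) .nil))) .nil)) 
(.lf (nat_lit 256971) (.g (nat_lit 4083) (.e (nat_lit 164183) (nat_lit 154) (.e (nat_lit 57373) (nat_lit 2) (.e (nat_lit 90160) (nat_lit 11) (.e (nat_lit 24665) (nat_lit 14) (.e (nat_lit 401472) (nat_lit 28) (.e (nat_lit 352000) (nat_lit 46) (.e (nat_lit 794662) (nat_lit 21) .nil))))))) (.g (nat_lit 4) .nil .nil)))) (.nd (nat_lit 6) 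
(.lf (nat_lit 256939) (.g (nat_lit 851) (.e (nat_lit 164182) (nat_lit 154) (.e (nat_lit 57447) (nat_lit 19) (.e (nat_lit 393218) (nat_lit 0) .nil))) .nil)) 
(.lf (nat_lit 257003) (.g (nat_lit 879) (.e (nat_lit 164183) (nat_lit 154) (.e (nat_lit 57409) (nat_lit 12) (.e (nat_lit 336369) (nat_lit 27) .nil))) .nil)))) (.nd (nat_lit 5) (.nd (nat_lit 6) 
(.lf (nat_lit 256923) (.g (nat_lit 2926) (.e (nat_lit 164182) (nat_lit 154) (.e (nat_lit 57419) (nat_lit 12) (.e (nat_lit 336004) (nat_lit 2) (.e (nat_lit 90176) (nat_lit 15) (.e (nat_lit 188450) (nat_lit 23) (.e (nat_lit 212736) (nat_lit 1) .nil)))))) (.g (nat_lit 5) .nil .nil))) 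
(.lf (nat_lit 256987) (.g (nat_lit 3208) (.e (nat_lit 164183) (nat_lit 154) (.e (nat_lit 57404) (nat_lit 12) (.e (nat_lit 336013) (nat_lit 2) (.e (nat_lit 90170) (nat_lit 13) (.e (nat_lit 172106) (nat_lit 10) (.e (nat_lit 434231) (nat_lit 23) (.e (nat_lit 540416) (nat_lit 18) .nil))))))) (.g (nat_lit 6) .nil .nil)))) (.nd (nat_lit 6) 
(.lf (nat_lit 256955) (.g (nat_lit 1587) (.e (nat_lit 164182) (nat_lit 154) (.e (nat_lit 57448) (nat_lit 19) (.e (nat_lit 393234) (nat_lit 17) (.e (nat_lit 3544) (nat_lit 219) .nil)))) .nil)) 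
(.lf (nat_lit 257019) (.g (nat_lit 876) (.e (nat_lit 164183) (nat_lit 154) (.e (nat_lit 57409) (nat_lit 12) (.e (nat_lit 336375) (nat_lit 27) .nil))) .nil)))))) (.nd (nat_lit 3) (.nd (nat_lit 4) (.nd (nat_lit 5) (.nd (nat_lit 6) 
(.lf (nat_lit 256903) (.g (nat_lit 1422) (.e (nat_lit 164182) (nat_lit 154) (.e (nat_lit 57411) (nat_lit 12) (.e (nat_lit 336324) (nat_lit 18) (.e (nat_lit 204860) (nat_lit 26) .nil)))) .nil)) 
(.lf (nat_lit 256967) (.g (nat_lit 2269) (.e (nat_lit 164183) (nat_lit 154) (.e (nat_lit 57373) (nat_lit 2) (.e (nat_lit 90158) (nat_lit 11) (.e (nat_lit 24660) (nat_lit 13) .nil)))) .nil))) (.nd (nat_lit 6) 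
(.lf (nat_lit 256935) (.g (nat_lit 1547) (.e (nat_lit 164182) (nat_lit 154) (.e (nat_lit 57442) (nat_lit 18) (.e (nat_lit 385068) (nat_lit 26) (.e (nat_lit 532548) (nat_lit 11) .nil)))) .nil)) 
(.lf (nat_lit 256999) (.g (nat_lit 313) (.e (nat_lit 164183) (nat_lit 154) (.e (nat_lit 57409) (nat_lit 12) (.e (nat_lit 336324) (nat_lit 18) .nil))) .nil)))) (.nd (nat_lit 5) (.nd (nat_lit 6) 
(.lf (nat_lit 256919) (.g (nat_lit 2897) (.e (nat_lit 164182) (nat_lit 154) (.e (nat_lit 57418) (nat_lit 12) (.e (nat_lit 336004) (nat_lit 2) (.e (nat_lit 90176) (nat_lit 15) (.e (nat_lit 188450) (nat_lit 23) (.e (nat_lit 212736) (nat_lit 1) .nil)))))) (.g (nat_lit 5) .nil .nil))) 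
(.lf (nat_lit 256983) (.g (nat_lit 2975) (.e (nat_lit 164183) (nat_lit 154) (.e (nat_lit 57379) (nat_lit 3) (.e (nat_lit 98334) (nat_lit 18) (.e (nat_lit 164332) (nat_lit 230) (.e (nat_lit 163927) (nat_lit 16) (.e (nat_lit 458789) (nat_lit 23) (.e (nat_lit 532530) (nat_lit 9) (.e (nat_lit 336310) (nat_lit 16) .nil)))))))) (.g (nat_lit 4) .nil .nil)))) (.nd (nat_lit 6) 
(.lf (nat_lit 256951) (.g (nat_lit 1635) (.e (nat_lit 164182) (nat_lit 154) (.e (nat_lit 57447) (nat_lit 19) (.e (nat_lit 393238) (nat_lit 17) (.e (nat_lit 3545) (nat_lit 219) .nil)))) .nil)) 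
(.lf (nat_lit 257015) (.g (nat_lit 2159) (.e (nat_lit 164183) (nat_lit 154) (.e (nat_lit 57409) (nat_lit 12) (.e (nat_lit 336369) (nat_lit 27) (.e (nat_lit 426501) (nat_lit 27) (.e (nat_lit 336186) (nat_lit 11) .nil))))) .nil))))) (.nd (nat_lit 4) (.nd (nat_lit 5) (.nd (nat_lit 6) 
(.lf (nat_lit 256911) (.g (nat_lit 669) (.e (nat_lit 164182) (nat_lit 154) (.e (nat_lit 57411) (nat_lit 12) (.e (nat_lit 336379) (nat_lit 27) .nil))) .nil)) 
(.lf (nat_lit 256975) (.g (nat_lit 4354) (.e (nat_lit 164183) (nat_lit 154) (.e (nat_lit 57378) (nat_lit 3) (.e (nat_lit 98341) (nat_lit 20) (.e (nat_lit 221210) (nat_lit 22) (.e (nat_lit 196670) (nat_lit 14) (.e (nat_lit 73746) (nat_lit 3) (.e (nat_lit 516118) (nat_lit 1) .nil))))))) (.g (nat_lit 6) .nil .nil)))) (.nd (nat_lit 6) 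
(.lf (nat_lit 256943) (.g (nat_lit 1309) (.e (nat_lit 164182) (nat_lit 154) (.e (nat_lit 57447) (nat_lit 19) (.e (nat_lit 393225) (nat_lit 9) (.e (nat_lit 336184) (nat_lit 11) .nil)))) .nil)) 
(.lf (nat_lit 257007) (.g (nat_lit 1667) (.e (nat_lit 164183) (nat_lit 154) (.e (nat_lit 57409) (nat_lit 12) (.e (nat_lit 336369) (nat_lit 27) (.e (nat_lit 426498) (nat_lit 27) .nil)))) .nil)))) (.nd (nat_lit 5) (.nd (nat_lit 6) 
(.lf (nat_lit 256927) (.g (nat_lit 2775) (.e (nat_lit 164182) (nat_lit 154) (.e (nat_lit 57419) (nat_lit 12) (.e (nat_lit 336222) (nat_lit 13) (.e (nat_lit 393260) (nat_lit 21) (.e (nat_lit 409649) (nat_lit 18) (.e (nat_lit 303114) (nat_lit 1) .nil)))))) (.g (nat_lit 5) .nil .nil))) 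
(.lf (nat_lit 256991) (.g (nat_lit 985) (.e (nat_lit 164183) (nat_lit 154) (.e (nat_lit 57409) (nat_lit 12) (.e (nat_lit 336211) (nat_lit 13) .nil))) .nil))) (.nd (nat_lit 6) 
(.lf (nat_lit 256959) (.g (nat_lit 2256) (.e (nat_lit 164183) (nat_lit 154) (.e (nat_lit 57373) (nat_lit 2) (.e (nat_lit 90158) (nat_lit 11) (.e (nat_lit 24608) (nat_lit 3) .nil)))) .nil)) 
(.lf (nat_lit 257023) (.g (nat_lit 1157) (.e (nat_lit 164183) (nat_lit 154) (.e (nat_lit 57409) (nat_lit 12) (.e (nat_lit 336414) (nat_lit 27) (.e (nat_lit 426503) (nat_lit 27) .nil)))) .nil)))))))))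

noncomputable def tv3328 : DT := (.nd (nat_lit 0) (.nd (nat_lit 1) (.nd (nat_lit 2) (.nd (nat_lit 3) (.nd (nat_lit 4) (.nd (nat_lit 5) (.nd (nat_lit 6) 
(.lf (nat_lit 257024) (.g (nat_lit 1004) (.e (nat_lit 164183) (nat_lit 154) (.e (nat_lit 57409) (nat_lit 12) (.e (nat_lit 336446) (nat_lit 33) .nil))) .nil)) 
(.lf (nat_lit 257088) (.g (nat_lit 1663) (.e (nat_lit 164183) (nat_lit 154) (.e (nat_lit 57418) (nat_lit 12) (.e (nat_lit 336222) (nat_lit 13) (.e (nat_lit 393260) (nat_lit 21) (.e (nat_lit 409623) (nat_lit 10) (.e (nat_lit 5664) (nat_lit 312) (.e (nat_lit 2605) (nat_lit 163) .nil))))))) (.g (nat_lit 4) .nil .nil)))) (.nd (nat_lit 6) 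
(.lf (nat_lit 257056) (.g (nat_lit 1437) (.e (nat_lit 164183) (nat_lit 154) (.e (nat_lit 57411) (nat_lit 12) (.e (nat_lit 336211) (nat_lit 13) (.e (nat_lit 393265) (nat_lit 22) (.e (nat_lit 417820) (nat_lit 10) .nil))))) .nil)) 
(.lf (nat_lit 257120) (.g (nat_lit 3580) (.e (nat_lit 171776) (nat_lit 154) (.e (nat_lit 57445) (nat_lit 19) (.e (nat_lit 393229) (nat_lit 9) (.e (nat_lit 336186) (nat_lit 11) .nil)))) .nil)))) (.nd (nat_lit 5) (.nd (nat_lit 6) 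
(.lf (nat_lit 257040) (.g (nat_lit 3247) (.e (nat_lit 164183) (nat_lit 154) (.e (nat_lit 57411) (nat_lit 12) (.e (nat_lit 336019) (nat_lit 3) (.e (nat_lit 98381) (nat_lit 31) (.e (nat_lit 466977) (nat_lit 22) (.e (nat_lit 196618) (nat_lit 9) (.e (nat_lit 156) (nat_lit 10) .nil))))))) (.g (nat_lit 5) .nil .nil))) 
(.lf (nat_lit 257104) (.g (nat_lit 1348) (.e (nat_lit 164183) (nat_lit 154) (.e (nat_lit 57447) (nat_lit 19) (.e (nat_lit 393228) (nat_lit 9) (.e (nat_lit 336186) (nat_lit 11) (.e (nat_lit 368676) (nat_lit 21) .nil))))) .nil))) (.nd (nat_lit 6) 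
(.lf (nat_lit 257072) (.g (nat_lit 890) (.e (nat_lit 164183) (nat_lit 154) (.e (nat_lit 57411) (nat_lit 12) (.e (nat_lit 336368) (nat_lit 27) .nil))) .nil)) 
(.lf (nat_lit 257136) (.g (nat_lit 653) (.e (nat_lit 164185) (nat_lit 155) (.e (nat_lit 122916) (nat_lit 14) (.e (nat_lit 352273) (nat_lit 11) .nil))) .nil))))) (.nd (nat_lit 4) (.nd (nat_lit 5) (.nd (nat_lit 6) 
(.lf (nat_lit 257032) (.g (nat_lit 676) (.e (nat_lit 164183) (nat_lit 154) (.e (nat_lit 57411) (nat_lit 12) (.e (nat_lit 336016) (nat_lit 2) .nil))) .nil)) 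
(.lf (nat_lit 257096) (.g (nat_lit 1167) (.e (nat_lit 164183) (nat_lit 154) (.e (nat_lit 57447) (nat_lit 19) (.e (nat_lit 393217) (nat_lit 0) .nil))) .nil))) (.nd (nat_lit 6) 
(.lf (nat_lit 257064) (.g (nat_lit 1335) (.e (nat_lit 164183) (nat_lit 154) (.e (nat_lit 57411) (nat_lit 12) (.e (nat_lit 336316) (nat_lit 17) (.e (nat_lit 196680) (nat_lit 17) .nil)))) .nil)) 
(.lf (nat_lit 257128) (.g (nat_lit 1792) (.e (nat_lit 164184) (nat_lit 155) (.e (nat_lit 122919) (nat_lit 15) (.e (nat_lit 360451) (nat_lit 0) (.e (nat_lit 7695) (nat_lit 412) .nil)))) .nil)))) (.nd (nat_lit 5) (.nd (nat_lit 6) 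
(.lf (nat_lit 257048) (.g (nat_lit 2038) (.e (nat_lit 164183) (nat_lit 154) (.e (nat_lit 57411) (nat_lit 12) (.e (nat_lit 336114) (nat_lit 9) (.e (nat_lit 336369) (nat_lit 27) (.e (nat_lit 426173) (nat_lit 7) .nil))))) .nil)) 
(.lf (nat_lit 257112) (.g (nat_lit 1295) (.e (nat_lit 164183) (nat_lit 154) (.e (nat_lit 57448) (nat_lit 19) (.e (nat_lit 393225) (nat_lit 9) (.e (nat_lit 336185) (nat_lit 11) (.e (nat_lit 368676) (nat_lit 21) .nil))))) .nil))) (.nd (nat_lit 6) 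
(.lf (nat_lit 257080) (.g (nat_lit 745) (.e (nat_lit 164183) (nat_lit 154) (.e (nat_lit 57411) (nat_lit 12) (.e (nat_lit 336414) (nat_lit 27) .nil))) .nil)) 
(.lf (nat_lit 257144) (.g (nat_lit 1826) (.e (nat_lit 164185) (nat_lit 155) (.e (nat_lit 122919) (nat_lit 15) (.e (nat_lit 360451) (nat_lit 0) (.e (nat_lit 7265) (nat_lit 384) (.e (nat_lit 57412) (nat_lit 12) .nil))))) .nil)))))) (.nd (nat_lit 3) (.nd (nat_lit 4) (.nd (nat_lit 5) (.nd (nat_lit 6) 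
(.lf (nat_lit 257028) (.g (nat_lit 1003) (.e (nat_lit 164183) (nat_lit 154) (.e (nat_lit 57409) (nat_lit 12) (.e (nat_lit 336456) (nat_lit 34) (.e (nat_lit 483393) (nat_lit 23) .nil)))) .nil)) 
(.lf (nat_lit 257092) (.g (nat_lit 922) (.e (nat_lit 164183) (nat_lit 154) (.e (nat_lit 57420) (nat_lit 13) (.e (nat_lit 344133) (nat_lit 26) (.e (nat_lit 557098) (nat_lit 13) .nil)))) .nil))) (.nd (nat_lit 6) 
(.lf (nat_lit 257060) (.g (nat_lit 1937) (.e (nat_lit 164183) (nat_lit 154) (.e (nat_lit 57411) (nat_lit 12) (.e (nat_lit 336316) (nat_lit 17) (.e (nat_lit 196630) (nat_lit 9) (.e (nat_lit 1573) (nat_lit 110) .nil))))) .nil)) 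
(.lf (nat_lit 257124) (.g (nat_lit 2186) (.e (nat_lit 164184) (nat_lit 155) (.e (nat_lit 122919) (nat_lit 15) (.e (nat_lit 360451) (nat_lit 0) (.e (nat_lit 7125) (nat_lit 382) .nil)))) .nil)))) (.nd (nat_lit 5) (.nd (nat_lit 6) 
(.lf (nat_lit 257044) (.g (nat_lit 3069) (.e (nat_lit 164183) (nat_lit 154) (.e (nat_lit 57411) (nat_lit 12) (.e (nat_lit 336019) (nat_lit 3) (.e (nat_lit 98381) (nat_lit 31) (.e (nat_lit 466977) (nat_lit 22) (.e (nat_lit 196624) (nat_lit 9) (.e (nat_lit 155) (nat_lit 10) .nil))))))) (.g (nat_lit 5) .nil .nil))) 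
(.lf (nat_lit 257108) (.g (nat_lit 1853) (.e (nat_lit 164183) (nat_lit 154) (.e (nat_lit 57447) (nat_lit 19) (.e (nat_lit 393238) (nat_lit 17) (.e (nat_lit 3545) (nat_lit 219) .nil)))) .nil))) (.nd (nat_lit 6) 
(.lf (nat_lit 257076) (.g (nat_lit 698) (.e (nat_lit 164183) (nat_lit 154) (.e (nat_lit 57411) (nat_lit 12) (.e (nat_lit 336372) (nat_lit 27) .nil))) .nil)) 
(.lf (nat_lit 257140) (.g (nat_lit 1413) (.e (nat_lit 164185) (nat_lit 155) (.e (nat_lit 122919) (nat_lit 15) (.e (nat_lit 360451) (nat_lit 0) (.e (nat_lit 7124) (nat_lit 382) .nil)))) .nil))))) (.nd (nat_lit 4) (.nd (nat_lit 5) (.nd (nat_lit 6) 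
(.lf (nat_lit 257036) (.g (nat_lit 1429) (.e (nat_lit 164183) (nat_lit 154) (.e (nat_lit 57411) (nat_lit 12) (.e (nat_lit 336019) (nat_lit 3) (.e (nat_lit 98372) (nat_lit 29) .nil)))) .nil)) 
(.lf (nat_lit 257100) (.g (nat_lit 292) (.e (nat_lit 164183) (nat_lit 154) (.e (nat_lit 57447) (nat_lit 19) (.e (nat_lit 393225) (nat_lit 9) .nil))) .nil))) (.nd (nat_lit 6) 
(.lf (nat_lit 257068) (.g (nat_lit 1928) (.e (nat_lit 164183) (nat_lit 154) (.e (nat_lit 57411) (nat_lit 12) (.e (nat_lit 336324) (nat_lit 18) (.e (nat_lit 204854) (nat_lit 26) (.e (nat_lit 336210) (nat_lit 13) .nil))))) .nil)) 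
(.lf (nat_lit 257132) (.g (nat_lit 2718) (.e (nat_lit 164184) (nat_lit 155) (.e (nat_lit 122919) (nat_lit 15) (.e (nat_lit 360492) (nat_lit 22) (.e (nat_lit 778465) (nat_lit 11) (.e (nat_lit 24665) (nat_lit 14) (.e (nat_lit 401420) (nat_lit 1) .nil)))))) (.g (nat_lit 5) .nil .nil))))) (.nd (nat_lit 5) (.nd (nat_lit 6) 
(.lf (nat_lit 257052) (.g (nat_lit 2241) (.e (nat_lit 164183) (nat_lit 154) (.e (nat_lit 57411) (nat_lit 12) (.e (nat_lit 336211) (nat_lit 13) (.e (nat_lit 393260) (nat_lit 21) (.e (nat_lit 409623) (nat_lit 10) (.e (nat_lit 5664) (nat_lit 312) (.e (nat_lit 2605) (nat_lit 163) .nil))))))) (.g (nat_lit 4) .nil .nil))) 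
(.lf (nat_lit 257116) (.g (nat_lit 703) (.e (nat_lit 171776) (nat_lit 154) (.e (nat_lit 57407) (nat_lit 12) (.e (nat_lit 336367) (nat_lit 27) .nil))) .nil))) (.nd (nat_lit 6) 
(.lf (nat_lit 257084) (.g (nat_lit 389) (.e (nat_lit 164183) (nat_lit 154) (.e (nat_lit 57411) (nat_lit 12) (.e (nat_lit 336454) (nat_lit 34) .nil))) .nil)) 
(.lf (nat_lit 257148) (.g (nat_lit 667) (.e (nat_lit 164190) (nat_lit 157) (.e (nat_lit 229409) (nat_lit 13) (.e (nat_lit 442112) (nat_lit 26) (.e (nat_lit 557109) (nat_lit 15) (.e (nat_lit 196352) (nat_lit 19) .nil))))) .nil))))))) (.nd (nat_lit 2) (.nd (nat_lit 3) (.nd (nat_lit 4) (.nd (nat_lit 5) (.nd (nat_lit 6) 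
(.lf (nat_lit 257026) (.g (nat_lit 1352) (.e (nat_lit 164183) (nat_lit 154) (.e (nat_lit 57409) (nat_lit 12) (.e (nat_lit 336454) (nat_lit 34) (.e (nat_lit 483394) (nat_lit 24) (.e (nat_lit 344119) (nat_lit 21) .nil))))) .nil)) 
(.lf (nat_lit 257090) (.g (nat_lit 2759) (.e (nat_lit 164183) (nat_lit 154) (.e (nat_lit 57420) (nat_lit 13) (.e (nat_lit 344129) (nat_lit 26) (.e (nat_lit 557104) (nat_lit 14) (.e (nat_lit 180233) (nat_lit 0) (.e (nat_lit 5448) (nat_lit 306) (.e (nat_lit 2725) (nat_lit 172) (.e (nat_lit 237582) (nat_lit 1) .nil)))))))) (.g (nat_lit 4) .nil .nil)))) (.nd (nat_lit 6) 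
(.lf (nat_lit 257058) (.g (nat_lit 810) (.e (nat_lit 164183) (nat_lit 154) (.e (nat_lit 57411) (nat_lit 12) (.e (nat_lit 336240) (nat_lit 15) .nil))) .nil)) 
(.lf (nat_lit 257122) (.g (nat_lit 662) (.e (nat_lit 164184) (nat_lit 155) (.e (nat_lit 122919) (nat_lit 15) (.e (nat_lit 360451) (nat_lit 0) .nil))) .nil)))) (.nd (nat_lit 5) (.nd (nat_lit 6) 
(.lf (nat_lit 257042) (.g (nat_lit 3296) (.e (nat_lit 164183) (nat_lit 154) (.e (nat_lit 57411) (nat_lit 12) (.e (nat_lit 336019) (nat_lit 3) (.e (nat_lit 98381) (nat_lit 31) (.e (nat_lit 466977) (nat_lit 22) (.e (nat_lit 196622) (nat_lit 9) (.e (nat_lit 156) (nat_lit 10) .nil))))))) (.g (nat_lit 5) .nil .nil))) 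
(.lf (nat_lit 257106) (.g (nat_lit 436) (.e (nat_lit 164183) (nat_lit 154) (.e (nat_lit 57447) (nat_lit 19) (.e (nat_lit 401152) (nat_lit 11) .nil))) .nil))) (.nd (nat_lit 6) 
(.lf (nat_lit 257074) (.g (nat_lit 1788) (.e (nat_lit 164183) (nat_lit 154) (.e (nat_lit 57411) (nat_lit 12) (.e (nat_lit 336369) (nat_lit 27) (.e (nat_lit 426497) (nat_lit 27) .nil)))) .nil)) 
(.lf (nat_lit 257138) (.g (nat_lit 1745) (.e (nat_lit 164185) (nat_lit 155) (.e (nat_lit 122919) (nat_lit 15) (.e (nat_lit 360451) (nat_lit 0) (.e (nat_lit 6938) (nat_lit 375) .nil)))) .nil))))) (.nd (nat_lit 4) (.nd (nat_lit 5) (.nd (nat_lit 6) 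
(.lf (nat_lit 257034) (.g (nat_lit 1217) (.e (nat_lit 164183) (nat_lit 154) (.e (nat_lit 57411) (nat_lit 12) (.e (nat_lit 336019) (nat_lit 3) (.e (nat_lit 98334) (nat_lit 18) .nil)))) .nil)) 
(.lf (nat_lit 257098) (.g (nat_lit 956) (.e (nat_lit 164183) (nat_lit 154) (.e (nat_lit 57447) (nat_lit 19) (.e (nat_lit 393224) (nat_lit 9) .nil))) .nil))) (.nd (nat_lit 6) 
(.lf (nat_lit 257066) (.g (nat_lit 403) (.e (nat_lit 164183) (nat_lit 154) (.e (nat_lit 57411) (nat_lit 12) (.e (nat_lit 336324) (nat_lit 18) .nil))) .nil)) 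
(.lf (nat_lit 257130) (.g (nat_lit 793) (.e (nat_lit 164184) (nat_lit 155) (.e (nat_lit 122919) (nat_lit 15) (.e (nat_lit 360487) (nat_lit 19) .nil))) .nil)))) (.nd (nat_lit 5) (.nd (nat_lit 6) 
(.lf (nat_lit 257050) (.g (nat_lit 2186) (.e (nat_lit 164183) (nat_lit 154) (.e (nat_lit 57411) (nat_lit 12) (.e (nat_lit 336210) (nat_lit 13) (.e (nat_lit 393260) (nat_lit 21) (.e (nat_lit 409649) (nat_lit 18) .nil))))) .nil)) 
(.lf (nat_lit 257114) (.g (nat_lit 1389) (.e (nat_lit 164183) (nat_lit 154) (.e (nat_lit 57448) (nat_lit 19) (.e (nat_lit 393228) (nat_lit 9) (.e (nat_lit 336186) (nat_lit 11) (.e (nat_lit 368676) (nat_lit 21) .nil))))) .nil))) (.nd (nat_lit 6) 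
(.lf (nat_lit 257082) (.g (nat_lit 1380) (.e (nat_lit 164183) (nat_lit 154) (.e (nat_lit 57411) (nat_lit 12) (.e (nat_lit 336414) (nat_lit 27) (.e (nat_lit 433920) (nat_lit 30) .nil)))) .nil)) 
(.lf (nat_lit 257146) (.g (nat_lit 501) (.e (nat_lit 164185) (nat_lit 155) (.e (nat_lit 122919) (nat_lit 15) (.e (nat_lit 360487) (nat_lit 19) .nil))) .nil)))))) (.nd (nat_lit 3) (.nd (nat_lit 4) (.nd (nat_lit 5) (.nd (nat_lit 6) 
(.lf (nat_lit 257030) (.g (nat_lit 1391) (.e (nat_lit 164183) (nat_lit 154) (.e (nat_lit 57410) (nat_lit 12) (.e (nat_lit 336316) (nat_lit 17) (.e (nat_lit 196666) (nat_lit 13) (.e (nat_lit 65625) (nat_lit 13) .nil))))) .nil)) 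
(.lf (nat_lit 257094) (.g (nat_lit 1646) (.e (nat_lit 164183) (nat_lit 154) (.e (nat_lit 57442) (nat_lit 18) (.e (nat_lit 385068) (nat_lit 26) (.e (nat_lit 532548) (nat_lit 11) (.e (nat_lit 352273) (nat_lit 11) .nil))))) .nil))) (.nd (nat_lit 6) 
(.lf (nat_lit 257062) (.g (nat_lit 2362) (.e (nat_lit 164183) (nat_lit 154) (.e (nat_lit 57411) (nat_lit 12) (.e (nat_lit 336316) (nat_lit 17) (.e (nat_lit 196674) (nat_lit 15) (.e (nat_lit 81925) (nat_lit 11) (.e (nat_lit 426105) (nat_lit 1) .nil)))))) (.g (nat_lit 4) .nil .nil))) 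
(.lf (nat_lit 257126) (.g (nat_lit 1944) (.e (nat_lit 164184) (nat_lit 155) (.e (nat_lit 122919) (nat_lit 15) (.e (nat_lit 360451) (nat_lit 0) (.e (nat_lit 7263) (nat_lit 384) .nil)))) .nil)))) (.nd (nat_lit 5) (.nd (nat_lit 6) 
(.lf (nat_lit 257046) (.g (nat_lit 2473) (.e (nat_lit 164183) (nat_lit 154) (.e (nat_lit 57411) (nat_lit 12) (.e (nat_lit 336019) (nat_lit 3) (.e (nat_lit 98381) (nat_lit 31) (.e (nat_lit 466981) (nat_lit 23) (.e (nat_lit 212736) (nat_lit 1) .nil)))))) (.g (nat_lit 5) .nil .nil))) 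
(.lf (nat_lit 257110) (.g (nat_lit 627) (.e (nat_lit 164183) (nat_lit 154) (.e (nat_lit 57448) (nat_lit 19) (.e (nat_lit 393224) (nat_lit 9) .nil))) .nil))) (.nd (nat_lit 6) 
(.lf (nat_lit 257078) (.g (nat_lit 869) (.e (nat_lit 164183) (nat_lit 154) (.e (nat_lit 57411) (nat_lit 12) (.e (nat_lit 336375) (nat_lit 27) .nil))) .nil)) 
(.lf (nat_lit 257142) (.g (nat_lit 1613) (.e (nat_lit 164185) (nat_lit 155) (.e (nat_lit 122919) (nat_lit 15) (.e (nat_lit 360451) (nat_lit 0) (.e (nat_lit 7261) (nat_lit 384) .nil)))) .nil))))) (.nd (nat_lit 4) (.nd (nat_lit 5) (.nd (nat_lit 6) 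
(.lf (nat_lit 257038) (.g (nat_lit 2111) (.e (nat_lit 164183) (nat_lit 154) (.e (nat_lit 57411) (nat_lit 12) (.e (nat_lit 336019) (nat_lit 3) (.e (nat_lit 98381) (nat_lit 31) (.e (nat_lit 466967) (nat_lit 20) (.e (nat_lit 3253) (nat_lit 197) (.e (nat_lit 540416) (nat_lit 18) .nil))))))) (.g (nat_lit 4) .nil .nil))) 
(.lf (nat_lit 257102) (.g (nat_lit 1212) (.e (nat_lit 164183) (nat_lit 154) (.e (nat_lit 57447) (nat_lit 19) (.e (nat_lit 393225) (nat_lit 9) (.e (nat_lit 336188) (nat_lit 11) .nil)))) .nil))) (.nd (nat_lit 6) 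
(.lf (nat_lit 257070) (.g (nat_lit 901) (.e (nat_lit 164183) (nat_lit 154) (.e (nat_lit 57411) (nat_lit 12) (.e (nat_lit 336326) (nat_lit 18) (.e (nat_lit 204866) (nat_lit 28) .nil)))) .nil)) 
(.lf (nat_lit 257134) (.g (nat_lit 4062) (.e (nat_lit 164185) (nat_lit 155) (.e (nat_lit 122913) (nat_lit 13) (.e (nat_lit 344130) (nat_lit 26) (.e (nat_lit 557090) (nat_lit 12) (.e (nat_lit 164238) (nat_lit 187) (.e (nat_lit 1661) (nat_lit 115) (.e (nat_lit 393251) (nat_lit 18) .nil))))))) (.g (nat_lit 7) .nil .nil))))) (.nd (nat_lit 5) (.nd (nat_lit 6) 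
(.lf (nat_lit 257054) (.g (nat_lit 946) (.e (nat_lit 164183) (nat_lit 154) (.e (nat_lit 57411) (nat_lit 12) (.e (nat_lit 336211) (nat_lit 13) (.e (nat_lit 393263) (nat_lit 22) .nil)))) .nil)) 
(.lf (nat_lit 257118) (.g (nat_lit 3660) (.e (nat_lit 171776) (nat_lit 154) (.e (nat_lit 57445) (nat_lit 19) (.e (nat_lit 393229) (nat_lit 9) (.e (nat_lit 336088) (nat_lit 9) (.e (nat_lit 336019) (nat_lit 3) .nil))))) .nil))) (.nd (nat_lit 6) 
(.lf (nat_lit 257086) (.g (nat_lit 3468) (.e (nat_lit 164183) (nat_lit 154) (.e (nat_lit 57411) (nat_lit 12) (.e (nat_lit 336456) (nat_lit 34) (.e (nat_lit 483383) (nat_lit 23) (.e (nat_lit 336019) (nat_lit 3) (.e (nat_lit 98335) (nat_lit 18) .nil)))))) (.g (nat_lit 0) .nil .nil))) 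
(.lf (nat_lit 257150) (.g (nat_lit 1304) (.e (nat_lit 164195) (nat_lit 158) (.e (nat_lit 1125) (nat_lit 83) (.e (nat_lit 16392) (nat_lit 0) (.e (nat_lit 3569) (nat_lit 222) .nil)))) .nil)))))))) (.nd (nat_lit 1) (.nd (nat_lit 2) (.nd (nat_lit 3) (.nd (nat_lit 4) (.nd (nat_lit 5) (.nd (nat_lit 6) 
(.lf (nat_lit 257025) (.g (nat_lit 1001) (.e (nat_lit 164183) (nat_lit 154) (.e (nat_lit 57409) (nat_lit 12) (.e (nat_lit 336450) (nat_lit 33) .nil))) .nil)) 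
(.lf (nat_lit 257089) (.g (nat_lit 1153) (.e (nat_lit 164183) (nat_lit 154) (.e (nat_lit 57420) (nat_lit 13) (.e (nat_lit 344129) (nat_lit 26) (.e (nat_lit 557097) (nat_lit 13) .nil)))) .nil))) (.nd (nat_lit 6) 
(.lf (nat_lit 257057) (.g (nat_lit 1929) (.e (nat_lit 164183) (nat_lit 154) (.e (nat_lit 57411) (nat_lit 12) (.e (nat_lit 336211) (nat_lit 13) (.e (nat_lit 393299) (nat_lit 27) (.e (nat_lit 491572) (nat_lit 14) .nil))))) .nil)) 
(.lf (nat_lit 257121) (.g (nat_lit 987) (.e (nat_lit 164184) (nat_lit 155) (.e (nat_lit 122916) (nat_lit 14) (.e (nat_lit 352273) (nat_lit 11) (.e (nat_lit 426172) (nat_lit 7) .nil)))) .nil)))) (.nd (nat_lit 5) (.nd (nat_lit 6) 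
(.lf (nat_lit 257041) (.g (nat_lit 2826) (.e (nat_lit 164183) (nat_lit 154) (.e (nat_lit 57411) (nat_lit 12) (.e (nat_lit 336019) (nat_lit 3) (.e (nat_lit 98381) (nat_lit 31) (.e (nat_lit 466977) (nat_lit 22) (.e (nat_lit 196620) (nat_lit 9) (.e (nat_lit 156) (nat_lit 10) .nil))))))) (.g (nat_lit 5) .nil .nil))) 
(.lf (nat_lit 257105) (.g (nat_lit 1945) (.e (nat_lit 164183) (nat_lit 154) (.e (nat_lit 57447) (nat_lit 19) (.e (nat_lit 393229) (nat_lit 9) (.e (nat_lit 336086) (nat_lit 9) (.e (nat_lit 336019) (nat_lit 3) .nil))))) .nil))) (.nd (nat_lit 6) 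
(.lf (nat_lit 257073) (.g (nat_lit 918) (.e (nat_lit 164183) (nat_lit 154) (.e (nat_lit 57411) (nat_lit 12) (.e (nat_lit 336369) (nat_lit 27) .nil))) .nil)) 
(.lf (nat_lit 257137) (.g (nat_lit 413) (.e (nat_lit 164185) (nat_lit 155) (.e (nat_lit 122919) (nat_lit 15) (.e (nat_lit 360451) (nat_lit 0) .nil))) .nil))))) (.nd (nat_lit 4) (.nd (nat_lit 5) (.nd (nat_lit 6) 
(.lf (nat_lit 257033) (.g (nat_lit 518) (.e (nat_lit 164183) (nat_lit 154) (.e (nat_lit 57411) (nat_lit 12) (.e (nat_lit 336019) (nat_lit 3) .nil))) .nil)) 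
(.lf (nat_lit 257097) (.g (nat_lit 1166) (.e (nat_lit 164183) (nat_lit 154) (.e (nat_lit 57447) (nat_lit 19) (.e (nat_lit 393222) (nat_lit 0) .nil))) .nil))) (.nd (nat_lit 6) 
(.lf (nat_lit 257065) (.g (nat_lit 628) (.e (nat_lit 164183) (nat_lit 154) (.e (nat_lit 57411) (nat_lit 12) (.e (nat_lit 336322) (nat_lit 18) .nil))) .nil)) 
(.lf (nat_lit 257129) (.g (nat_lit 2034) (.e (nat_lit 164184) (nat_lit 155) (.e (nat_lit 122919) (nat_lit 15) (.e (nat_lit 360451) (nat_lit 0) (.e (nat_lit 7697) (nat_lit 412) .nil)))) .nil)))) (.nd (nat_lit 5) (.nd (nat_lit 6) 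
(.lf (nat_lit 257049) (.g (nat_lit 911) (.e (nat_lit 164183) (nat_lit 154) (.e (nat_lit 57411) (nat_lit 12) (.e (nat_lit 336210) (nat_lit 13) .nil))) .nil)) 
(.lf (nat_lit 257113) (.g (nat_lit 1604) (.e (nat_lit 164183) (nat_lit 154) (.e (nat_lit 57448) (nat_lit 19) (.e (nat_lit 393228) (nat_lit 9) (.e (nat_lit 336087) (nat_lit 9) (.e (nat_lit 336019) (nat_lit 3) .nil))))) .nil))) (.nd (nat_lit 6) 
(.lf (nat_lit 257081) (.g (nat_lit 1383) (.e (nat_lit 164183) (nat_lit 154) (.e (nat_lit 57411) (nat_lit 12) (.e (nat_lit 336414) (nat_lit 27) (.e (nat_lit 426541) (nat_lit 29) .nil)))) .nil)) 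
(.lf (nat_lit 257145) (.g (nat_lit 1751) (.e (nat_lit 164185) (nat_lit 155) (.e (nat_lit 122919) (nat_lit 15) (.e (nat_lit 360451) (nat_lit 0) (.e (nat_lit 7697) (nat_lit 412) .nil)))) .nil)))))) (.nd (nat_lit 3) (.nd (nat_lit 4) (.nd (nat_lit 5) (.nd (nat_lit 6) 
(.lf (nat_lit 257029) (.g (nat_lit 992) (.e (nat_lit 164183) (nat_lit 154) (.e (nat_lit 57409) (nat_lit 12) (.e (nat_lit 336456) (nat_lit 34) (.e (nat_lit 483394) (nat_lit 24) .nil)))) .nil)) 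
(.lf (nat_lit 257093) (.g (nat_lit 2541) (.e (nat_lit 164183) (nat_lit 154) (.e (nat_lit 57426) (nat_lit 15) (.e (nat_lit 360491) (nat_lit 22) (.e (nat_lit 778465) (nat_lit 11) (.e (nat_lit 24665) (nat_lit 14) (.e (nat_lit 401420) (nat_lit 1) .nil)))))) (.g (nat_lit 5) .nil .nil)))) (.nd (nat_lit 6) 
(.lf (nat_lit 257061) (.g (nat_lit 2084) (.e (nat_lit 164183) (nat_lit 154) (.e (nat_lit 57411) (nat_lit 12) (.e (nat_lit 336316) (nat_lit 17) (.e (nat_lit 196666) (nat_lit 13) (.e (nat_lit 65626) (nat_lit 13) .nil))))) .nil)) 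
(.lf (nat_lit 257125) (.g (nat_lit 2282) (.e (nat_lit 164184) (nat_lit 155) (.e (nat_lit 122919) (nat_lit 15) (.e (nat_lit 360451) (nat_lit 0) (.e (nat_lit 7261) (nat_lit 384) (.e (nat_lit 57412) (nat_lit 12) .nil))))) .nil)))) (.nd (nat_lit 5) (.nd (nat_lit 6) 
(.lf (nat_lit 257045) (.g (nat_lit 3751) (.e (nat_lit 164183) (nat_lit 154) (.e (nat_lit 57411) (nat_lit 12) (.e (nat_lit 336019) (nat_lit 3) (.e (nat_lit 98381) (nat_lit 31) (.e (nat_lit 466977) (nat_lit 22) (.e (nat_lit 196624) (nat_lit 9) (.e (nat_lit 157) (nat_lit 10) .nil))))))) (.g (nat_lit 6) .nil .nil))) 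
(.lf (nat_lit 257109) (.g (nat_lit 605) (.e (nat_lit 164183) (nat_lit 154) (.e (nat_lit 57448) (nat_lit 19) (.e (nat_lit 393221) (nat_lit 0) .nil))) .nil))) (.nd (nat_lit 6) 
(.lf (nat_lit 257077) (.g (nat_lit 882) (.e (nat_lit 164183) (nat_lit 154) (.e (nat_lit 57411) (nat_lit 12) (.e (nat_lit 336374) (nat_lit 27) (.e (nat_lit 426546) (nat_lit 30) .nil)))) .nil)) 
(.lf (nat_lit 257141) (.g (nat_lit 1903) (.e (nat_lit 164185) (nat_lit 155) (.e (nat_lit 122919) (nat_lit 15) (.e (nat_lit 360451) (nat_lit 0) (.e (nat_lit 7125) (nat_lit 382) .nil)))) .nil))))) (.nd (nat_lit 4) (.nd (nat_lit 5) (.nd (nat_lit 6) 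
(.lf (nat_lit 257037) (.g (nat_lit 1133) (.e (nat_lit 164183) (nat_lit 154) (.e (nat_lit 57411) (nat_lit 12) (.e (nat_lit 336019) (nat_lit 3) (.e (nat_lit 98381) (nat_lit 31) .nil)))) .nil)) 
(.lf (nat_lit 257101) (.g (nat_lit 1362) (.e (nat_lit 164183) (nat_lit 154) (.e (nat_lit 57447) (nat_lit 19) (.e (nat_lit 393225) (nat_lit 9) (.e (nat_lit 336185) (nat_lit 11) (.e (nat_lit 368676) (nat_lit 21) .nil))))) .nil))) (.nd (nat_lit 6) 
(.lf (nat_lit 257069) (.g (nat_lit 1338) (.e (nat_lit 164183) (nat_lit 154) (.e (nat_lit 57411) (nat_lit 12) (.e (nat_lit 336324) (nat_lit 18) (.e (nat_lit 204857) (nat_lit 26) (.e (nat_lit 336224) (nat_lit 13) .nil))))) .nil)) 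
(.lf (nat_lit 257133) (.g (nat_lit 2534) (.e (nat_lit 164185) (nat_lit 155) (.e (nat_lit 122913) (nat_lit 13) (.e (nat_lit 344129) (nat_lit 26) (.e (nat_lit 557090) (nat_lit 12) (.e (nat_lit 164238) (nat_lit 187) .nil))))) .nil)))) (.nd (nat_lit 5) (.nd (nat_lit 6) 
(.lf (nat_lit 257053) (.g (nat_lit 2451) (.e (nat_lit 164183) (nat_lit 154) (.e (nat_lit 57411) (nat_lit 12) (.e (nat_lit 336211) (nat_lit 13) (.e (nat_lit 393260) (nat_lit 21) (.e (nat_lit 409650) (nat_lit 19) .nil))))) .nil)) 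
(.lf (nat_lit 257117) (.g (nat_lit 3493) (.e (nat_lit 171776) (nat_lit 154) (.e (nat_lit 57445) (nat_lit 19) (.e (nat_lit 393229) (nat_lit 9) (.e (nat_lit 336087) (nat_lit 9) .nil)))) .nil))) (.nd (nat_lit 6) 
(.lf (nat_lit 257085) (.g (nat_lit 435) (.e (nat_lit 164183) (nat_lit 154) (.e (nat_lit 57411) (nat_lit 12) (.e (nat_lit 336456) (nat_lit 34) .nil))) .nil)) 
(.lf (nat_lit 257149) (.g (nat_lit 1425) (.e (nat_lit 164195) (nat_lit 158) (.e (nat_lit 1122) (nat_lit 83) (.e (nat_lit 16392) (nat_lit 0) (.e (nat_lit 3569) (nat_lit 222) .nil)))) .nil))))))) (.nd (nat_lit 2) (.nd (nat_lit 3) (.nd (nat_lit 4) (.nd (nat_lit 5) (.nd (nat_lit 6) 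
(.lf (nat_lit 257027) (.g (nat_lit 2810) (.e (nat_lit 164183) (nat_lit 154) (.e (nat_lit 57409) (nat_lit 12) (.e (nat_lit 336456) (nat_lit 34) (.e (nat_lit 483391) (nat_lit 23) (.e (nat_lit 336017) (nat_lit 3) (.e (nat_lit 98333) (nat_lit 18) .nil)))))) (.g (nat_lit 0) .nil .nil))) 
(.lf (nat_lit 257091) (.g (nat_lit 3010) (.e (nat_lit 164183) (nat_lit 154) (.e (nat_lit 57420) (nat_lit 13) (.e (nat_lit 344132) (nat_lit 26) (.e (nat_lit 557094) (nat_lit 12) (.e (nat_lit 164238) (nat_lit 187) (.e (nat_lit 1661) (nat_lit 115) (.e (nat_lit 393252) (nat_lit 18) .nil))))))) (.g (nat_lit 6) .nil .nil)))) (.nd (nat_lit 6) 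
(.lf (nat_lit 257059) (.g (nat_lit 763) (.e (nat_lit 164183) (nat_lit 154) (.e (nat_lit 57411) (nat_lit 12) (.e (nat_lit 336310) (nat_lit 16) .nil))) .nil)) 
(.lf (nat_lit 257123) (.g (nat_lit 2137) (.e (nat_lit 164184) (nat_lit 155) (.e (nat_lit 122919) (nat_lit 15) (.e (nat_lit 360451) (nat_lit 0) (.e (nat_lit 7124) (nat_lit 382) (.e (nat_lit 1201) (nat_lit 88) .nil))))) .nil)))) (.nd (nat_lit 5) (.nd (nat_lit 6) 
(.lf (nat_lit 257043) (.g (nat_lit 3274) (.e (nat_lit 164183) (nat_lit 154) (.e (nat_lit 57411) (nat_lit 12) (.e (nat_lit 336019) (nat_lit 3) (.e (nat_lit 98381) (nat_lit 31) (.e (nat_lit 466977) (nat_lit 22) (.e (nat_lit 196624) (nat_lit 9) (.e (nat_lit 153) (nat_lit 10) .nil))))))) (.g (nat_lit 5) .nil .nil))) 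
(.lf (nat_lit 257107) (.g (nat_lit 1068) (.e (nat_lit 164183) (nat_lit 154) (.e (nat_lit 57447) (nat_lit 19) (.e (nat_lit 393238) (nat_lit 17) .nil))) .nil))) (.nd (nat_lit 6) 
(.lf (nat_lit 257075) (.g (nat_lit 1788) (.e (nat_lit 164183) (nat_lit 154) (.e (nat_lit 57411) (nat_lit 12) (.e (nat_lit 336369) (nat_lit 27) (.e (nat_lit 426501) (nat_lit 27) .nil)))) .nil)) 
(.lf (nat_lit 257139) (.g (nat_lit 1725) (.e (nat_lit 164185) (nat_lit 155) (.e (nat_lit 122919) (nat_lit 15) (.e (nat_lit 360451) (nat_lit 0) (.e (nat_lit 7122) (nat_lit 382) .nil)))) .nil))))) (.nd (nat_lit 4) (.nd (nat_lit 5) (.nd (nat_lit 6) 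
(.lf (nat_lit 257035) (.g (nat_lit 2540) (.e (nat_lit 164183) (nat_lit 154) (.e (nat_lit 57411) (nat_lit 12) (.e (nat_lit 336019) (nat_lit 3) (.e (nat_lit 98359) (nat_lit 26) (.e (nat_lit 426286) (nat_lit 10) .nil))))) .nil)) 
(.lf (nat_lit 257099) (.g (nat_lit 1074) (.e (nat_lit 164183) (nat_lit 154) (.e (nat_lit 57447) (nat_lit 19) (.e (nat_lit 393224) (nat_lit 9) (.e (nat_lit 336186) (nat_lit 11) .nil)))) .nil))) (.nd (nat_lit 6) 
(.lf (nat_lit 257067) (.g (nat_lit 1445) (.e (nat_lit 164183) (nat_lit 154) (.e (nat_lit 57411) (nat_lit 12) (.e (nat_lit 336324) (nat_lit 18) (.e (nat_lit 204851) (nat_lit 26) .nil)))) .nil)) 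
(.lf (nat_lit 257131) (.g (nat_lit 2523) (.e (nat_lit 164184) (nat_lit 155) (.e (nat_lit 122919) (nat_lit 15) (.e (nat_lit 360491) (nat_lit 22) (.e (nat_lit 778465) (nat_lit 11) (.e (nat_lit 24665) (nat_lit 14) (.e (nat_lit 401420) (nat_lit 1) .nil)))))) (.g (nat_lit 5) .nil .nil))))) (.nd (nat_lit 5) (.nd (nat_lit 6) 
(.lf (nat_lit 257051) (.g (nat_lit 390) (.e (nat_lit 164183) (nat_lit 154) (.e (nat_lit 57411) (nat_lit 12) (.e (nat_lit 336211) (nat_lit 13) .nil))) .nil)) 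
(.lf (nat_lit 257115) (.g (nat_lit 503) (.e (nat_lit 171776) (nat_lit 154) (.e (nat_lit 57406) (nat_lit 12) (.e (nat_lit 336367) (nat_lit 27) .nil))) .nil))) (.nd (nat_lit 6) 
(.lf (nat_lit 257083) (.g (nat_lit 869) (.e (nat_lit 164183) (nat_lit 154) (.e (nat_lit 57411) (nat_lit 12) (.e (nat_lit 336450) (nat_lit 33) .nil))) .nil)) 
(.lf (nat_lit 257147) (.g (nat_lit 1614) (.e (nat_lit 164185) (nat_lit 155) (.e (nat_lit 122919) (nat_lit 15) (.e (nat_lit 360492) (nat_lit 22) (.e (nat_lit 778465) (nat_lit 11) (.e (nat_lit 24665) (nat_lit 14) .nil))))) .nil)))))) (.nd (nat_lit 3) (.nd (nat_lit 4) (.nd (nat_lit 5) (.nd (nat_lit 6) 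
(.lf (nat_lit 257031) (.g (nat_lit 631) (.e (nat_lit 164183) (nat_lit 154) (.e (nat_lit 57411) (nat_lit 12) (.e (nat_lit 335878) (nat_lit 0) .nil))) .nil)) 
(.lf (nat_lit 257095) (.g (nat_lit 1483) (.e (nat_lit 164183) (nat_lit 154) (.e (nat_lit 57443) (nat_lit 18) (.e (nat_lit 385068) (nat_lit 26) (.e (nat_lit 532548) (nat_lit 11) (.e (nat_lit 352273) (nat_lit 11) .nil))))) .nil))) (.nd (nat_lit 6) 
(.lf (nat_lit 257063) (.g (nat_lit 3612) (.e (nat_lit 164183) (nat_lit 154) (.e (nat_lit 57411) (nat_lit 12) (.e (nat_lit 336316) (nat_lit 17) (.e (nat_lit 196674) (nat_lit 15) (.e (nat_lit 81925) (nat_lit 11) (.e (nat_lit 426108) (nat_lit 1) .nil)))))) (.g (nat_lit 0) .nil .nil))) 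
(.lf (nat_lit 257127) (.g (nat_lit 2109) (.e (nat_lit 164184) (nat_lit 155) (.e (nat_lit 122919) (nat_lit 15) (.e (nat_lit 360451) (nat_lit 0) (.e (nat_lit 7265) (nat_lit 384) (.e (nat_lit 57412) (nat_lit 12) .nil))))) .nil)))) (.nd (nat_lit 5) (.nd (nat_lit 6) 
(.lf (nat_lit 257047) (.g (nat_lit 918) (.e (nat_lit 164183) (nat_lit 154) (.e (nat_lit 57411) (nat_lit 12) (.e (nat_lit 336052) (nat_lit 6) .nil))) .nil)) 
(.lf (nat_lit 257111) (.g (nat_lit 307) (.e (nat_lit 164183) (nat_lit 154) (.e (nat_lit 57448) (nat_lit 19) (.e (nat_lit 393225) (nat_lit 9) .nil))) .nil))) (.nd (nat_lit 6) 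
(.lf (nat_lit 257079) (.g (nat_lit 1013) (.e (nat_lit 164183) (nat_lit 154) (.e (nat_lit 57411) (nat_lit 12) (.e (nat_lit 336375) (nat_lit 27) (.e (nat_lit 426554) (nat_lit 32) .nil)))) .nil)) 
(.lf (nat_lit 257143) (.g (nat_lit 1178) (.e (nat_lit 164185) (nat_lit 155) (.e (nat_lit 122919) (nat_lit 15) (.e (nat_lit 360451) (nat_lit 0) (.e (nat_lit 7265) (nat_lit 384) .nil)))) .nil))))) (.nd (nat_lit 4) (.nd (nat_lit 5) (.nd (nat_lit 6) 
(.lf (nat_lit 257039) (.g (nat_lit 2053) (.e (nat_lit 164183) (nat_lit 154) (.e (nat_lit 57411) (nat_lit 12) (.e (nat_lit 336019) (nat_lit 3) (.e (nat_lit 98381) (nat_lit 31) (.e (nat_lit 466976) (nat_lit 22) (.e (nat_lit 196622) (nat_lit 9) (.e (nat_lit 156) (nat_lit 10) .nil))))))) (.g (nat_lit 4) .nil .nil))) 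
(.lf (nat_lit 257103) (.g (nat_lit 1588) (.e (nat_lit 164183) (nat_lit 154) (.e (nat_lit 57447) (nat_lit 19) (.e (nat_lit 393228) (nat_lit 9) (.e (nat_lit 336087) (nat_lit 9) (.e (nat_lit 336019) (nat_lit 3) .nil))))) .nil))) (.nd (nat_lit 6) 
(.lf (nat_lit 257071) (.g (nat_lit 635) (.e (nat_lit 164183) (nat_lit 154) (.e (nat_lit 57411) (nat_lit 12) (.e (nat_lit 336366) (nat_lit 27) .nil))) .nil)) 
(.lf (nat_lit 257135) (.g (nat_lit 214) (.e (nat_lit 164185) (nat_lit 155) (.e (nat_lit 122913) (nat_lit 13) (.e (nat_lit 352000) (nat_lit 44) .nil))) .nil)))) (.nd (nat_lit 5) (.nd (nat_lit 6) 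
(.lf (nat_lit 257055) (.g (nat_lit 1846) (.e (nat_lit 164183) (nat_lit 154) (.e (nat_lit 57411) (nat_lit 12) (.e (nat_lit 336211) (nat_lit 13) (.e (nat_lit 393263) (nat_lit 22) (.e (nat_lit 417820) (nat_lit 10) (.e (nat_lit 5664) (nat_lit 312) (.e (nat_lit 2605) (nat_lit 163) .nil))))))) (.g (nat_lit 4) .nil .nil))) 
(.lf (nat_lit 257119) (.g (nat_lit 3562) (.e (nat_lit 171776) (nat_lit 154) (.e (nat_lit 57445) (nat_lit 19) (.e (nat_lit 393229) (nat_lit 9) (.e (nat_lit 336184) (nat_lit 11) .nil)))) .nil))) (.nd (nat_lit 6) 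
(.lf (nat_lit 257087) (.g (nat_lit 763) (.e (nat_lit 164183) (nat_lit 154) (.e (nat_lit 57417) (nat_lit 12) (.e (nat_lit 336300) (nat_lit 15) .nil))) .nil)) 
(.lf (nat_lit 257151) (.g (nat_lit 1319) (.e (nat_lit 164195) (nat_lit 158) (.e (nat_lit 1126) (nat_lit 83) (.e (nat_lit 16392) (nat_lit 0) (.e (nat_lit 3569) (nat_lit 222) .nil)))) .nil)))))))))

noncomputable def tv3329 : DT := (.nd (nat_lit 0) (.nd (nat_lit 1) (.nd (nat_lit 2) (.nd (nat_lit 3) (.nd (nat_lit 4) (.nd (nat_lit 5) (.nd (nat_lit 6) 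
(.lf (nat_lit 257152) (.g (nat_lit 2132) (.e (nat_lit 164195) (nat_lit 158) (.e (nat_lit 1181) (nat_lit 87) (.e (nat_lit 57479) (nat_lit 28) (.e (nat_lit 557107) (nat_lit 15) .nil)))) .nil)) 
(.lf (nat_lit 257216) (.g (nat_lit 2177) (.e (nat_lit 164196) (nat_lit 158) (.e (nat_lit 1219) (nat_lit 90) (.e (nat_lit 81953) (nat_lit 22) (.e (nat_lit 98048) (nat_lit 2) .nil)))) .nil))) (.nd (nat_lit 6) 
(.lf (nat_lit 257184) (.g (nat_lit 833) (.e (nat_lit 164195) (nat_lit 158) (.e (nat_lit 1221) (nat_lit 90) (.e (nat_lit 81962) (nat_lit 25) (.e (nat_lit 139265) (nat_lit 0) .nil)))) .nil)) 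
(.lf (nat_lit 257248) (.g (nat_lit 2215) (.e (nat_lit 164196) (nat_lit 158) (.e (nat_lit 1221) (nat_lit 90) (.e (nat_lit 81956) (nat_lit 23) (.e (nat_lit 98309) (nat_lit 0) .nil)))) .nil)))) (.nd (nat_lit 5) (.nd (nat_lit 6) 
(.lf (nat_lit 257168) (.g (nat_lit 1638) (.e (nat_lit 164195) (nat_lit 158) (.e (nat_lit 1199) (nat_lit 88) (.e (nat_lit 65617) (nat_lit 10) (.e (nat_lit 344138) (nat_lit 29) (.e (nat_lit 581651) (nat_lit 4) (.e (nat_lit 172094) (nat_lit 9) (.e (nat_lit 426101) (nat_lit 1) .nil))))))) (.g (nat_lit 4) .nil .nil))) 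
(.lf (nat_lit 257232) (.g (nat_lit 1131) (.e (nat_lit 164196) (nat_lit 158) (.e (nat_lit 1221) (nat_lit 90) (.e (nat_lit 81937) (nat_lit 20) (.e (nat_lit 1832) (nat_lit 122) .nil)))) .nil))) (.nd (nat_lit 6) 
(.lf (nat_lit 257200) (.g (nat_lit 2851) (.e (nat_lit 164196) (nat_lit 158) (.e (nat_lit 1199) (nat_lit 88) (.e (nat_lit 65586) (nat_lit 7) (.e (nat_lit 319531) (nat_lit 16) (.e (nat_lit 286770) (nat_lit 28) (.e (nat_lit 434279) (nat_lit 39) (.e (nat_lit 663580) (nat_lit 9) (.e (nat_lit 2610) (nat_lit 163) .nil)))))))) (.g (nat_lit 4) .nil .nil))) 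
(.lf (nat_lit 257264) (.g (nat_lit 1266) (.e (nat_lit 171776) (nat_lit 160) (.e (nat_lit 57371) (nat_lit 2) (.e (nat_lit 90174) (nat_lit 14) (.e (nat_lit 180250) (nat_lit 10) .nil)))) .nil))))) (.nd (nat_lit 4) (.nd (nat_lit 5) (.nd (nat_lit 6) 
(.lf (nat_lit 257160) (.g (nat_lit 2690) (.e (nat_lit 164195) (nat_lit 158) (.e (nat_lit 1182) (nat_lit 87) (.e (nat_lit 57479) (nat_lit 28) (.e (nat_lit 557109) (nat_lit 15) (.e (nat_lit 196352) (nat_lit 3) (.e (nat_lit 98342) (nat_lit 20) (.e (nat_lit 221208) (nat_lit 21) .nil))))))) (.g (nat_lit 4) .nil .nil))) 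
(.lf (nat_lit 257224) (.g (nat_lit 4344) (.e (nat_lit 164196) (nat_lit 158) (.e (nat_lit 1220) (nat_lit 90) (.e (nat_lit 81953) (nat_lit 22) (.e (nat_lit 90118) (nat_lit 0) .nil)))) .nil))) (.nd (nat_lit 6) 
(.lf (nat_lit 257192) (.g (nat_lit 1530) (.e (nat_lit 164196) (nat_lit 158) (.e (nat_lit 1182) (nat_lit 87) (.e (nat_lit 57479) (nat_lit 28) (.e (nat_lit 557107) (nat_lit 15) .nil)))) .nil)) 
(.lf (nat_lit 257256) (.g (nat_lit 879) (.e (nat_lit 164196) (nat_lit 158) (.e (nat_lit 1221) (nat_lit 90) (.e (nat_lit 81959) (nat_lit 24) (.e (nat_lit 130816) (nat_lit 127) .nil)))) .nil)))) (.nd (nat_lit 5) (.nd (nat_lit 6) 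
(.lf (nat_lit 257176) (.g (nat_lit 2319) (.e (nat_lit 164195) (nat_lit 158) (.e (nat_lit 1221) (nat_lit 90) (.e (nat_lit 81953) (nat_lit 22) (.e (nat_lit 90116) (nat_lit 0) .nil)))) .nil)) 
(.lf (nat_lit 257240) (.g (nat_lit 3805) (.e (nat_lit 164196) (nat_lit 158) (.e (nat_lit 1221) (nat_lit 90) (.e (nat_lit 81953) (nat_lit 22) (.e (nat_lit 90120) (nat_lit 0) .nil)))) .nil))) (.nd (nat_lit 6) 
(.lf (nat_lit 257208) (.g (nat_lit 1879) (.e (nat_lit 164196) (nat_lit 158) (.e (nat_lit 1200) (nat_lit 88) (.e (nat_lit 65619) (nat_lit 10) (.e (nat_lit 344117) (nat_lit 21) (.e (nat_lit 516191) (nat_lit 17) .nil))))) .nil)) 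
(.lf (nat_lit 257272) (.g (nat_lit 2462) (.e (nat_lit 171776) (nat_lit 160) (.e (nat_lit 57373) (nat_lit 2) (.e (nat_lit 90174) (nat_lit 14) (.e (nat_lit 180250) (nat_lit 10) (.e (nat_lit 573480) (nat_lit 13) .nil))))) .nil)))))) (.nd (nat_lit 3) (.nd (nat_lit 4) (.nd (nat_lit 5) (.nd (nat_lit 6) 
(.lf (nat_lit 257156) (.g (nat_lit 1530) (.e (nat_lit 164195) (nat_lit 158) (.e (nat_lit 1182) (nat_lit 87) (.e (nat_lit 57479) (nat_lit 28) (.e (nat_lit 557107) (nat_lit 15) .nil)))) .nil)) 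
(.lf (nat_lit 257220) (.g (nat_lit 4538) (.e (nat_lit 164196) (nat_lit 158) (.e (nat_lit 1220) (nat_lit 90) (.e (nat_lit 81953) (nat_lit 22) (.e (nat_lit 90113) (nat_lit 0) .nil)))) .nil))) (.nd (nat_lit 6) 
(.lf (nat_lit 257188) (.g (nat_lit 2826) (.e (nat_lit 164196) (nat_lit 158) (.e (nat_lit 1181) (nat_lit 87) (.e (nat_lit 57479) (nat_lit 28) (.e (nat_lit 557109) (nat_lit 15) (.e (nat_lit 196352) (nat_lit 0) .nil))))) .nil)) 
(.lf (nat_lit 257252) (.g (nat_lit 983) (.e (nat_lit 164196) (nat_lit 158) (.e (nat_lit 1221) (nat_lit 90) (.e (nat_lit 81959) (nat_lit 24) (.e (nat_lit 123015) (nat_lit 122) .nil)))) .nil)))) (.nd (nat_lit 5) (.nd (nat_lit 6) 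
(.lf (nat_lit 257172) (.g (nat_lit 528) (.e (nat_lit 164195) (nat_lit 158) (.e (nat_lit 1219) (nat_lit 90) (.e (nat_lit 81960) (nat_lit 25) .nil))) .nil)) 
(.lf (nat_lit 257236) (.g (nat_lit 3995) (.e (nat_lit 164196) (nat_lit 158) (.e (nat_lit 1221) (nat_lit 90) (.e (nat_lit 81953) (nat_lit 22) (.e (nat_lit 90113) (nat_lit 0) .nil)))) .nil))) (.nd (nat_lit 6) 
(.lf (nat_lit 257204) (.g (nat_lit 1837) (.e (nat_lit 164196) (nat_lit 158) (.e (nat_lit 1199) (nat_lit 88) (.e (nat_lit 65617) (nat_lit 10) (.e (nat_lit 344130) (nat_lit 26) (.e (nat_lit 557090) (nat_lit 12) .nil))))) .nil)) 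
(.lf (nat_lit 257268) (.g (nat_lit 993) (.e (nat_lit 171776) (nat_lit 160) (.e (nat_lit 57373) (nat_lit 2) (.e (nat_lit 90172) (nat_lit 14) (.e (nat_lit 180250) (nat_lit 10) .nil)))) .nil))))) (.nd (nat_lit 4) (.nd (nat_lit 5) (.nd (nat_lit 6) 
(.lf (nat_lit 257164) (.g (nat_lit 1321) (.e (nat_lit 164195) (nat_lit 158) (.e (nat_lit 1199) (nat_lit 88) (.e (nat_lit 65617) (nat_lit 10) (.e (nat_lit 344123) (nat_lit 24) .nil)))) .nil)) 
(.lf (nat_lit 257228) (.g (nat_lit 1618) (.e (nat_lit 164196) (nat_lit 158) (.e (nat_lit 1220) (nat_lit 90) (.e (nat_lit 81953) (nat_lit 22) (.e (nat_lit 98048) (nat_lit 2) .nil)))) .nil))) (.nd (nat_lit 6) 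
(.lf (nat_lit 257196) (.g (nat_lit 2628) (.e (nat_lit 164196) (nat_lit 158) (.e (nat_lit 1182) (nat_lit 87) (.e (nat_lit 57479) (nat_lit 28) (.e (nat_lit 557109) (nat_lit 15) (.e (nat_lit 196352) (nat_lit 3) .nil))))) .nil)) 
(.lf (nat_lit 257260) (.g (nat_lit 794) (.e (nat_lit 171776) (nat_lit 160) (.e (nat_lit 57371) (nat_lit 2) (.e (nat_lit 90171) (nat_lit 14) .nil))) .nil)))) (.nd (nat_lit 5) (.nd (nat_lit 6) 
(.lf (nat_lit 257180) (.g (nat_lit 1521) (.e (nat_lit 164195) (nat_lit 158) (.e (nat_lit 1221) (nat_lit 90) (.e (nat_lit 81953) (nat_lit 22) (.e (nat_lit 98048) (nat_lit 2) .nil)))) .nil)) 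
(.lf (nat_lit 257244) (.g (nat_lit 3662) (.e (nat_lit 164196) (nat_lit 158) (.e (nat_lit 1221) (nat_lit 90) (.e (nat_lit 81953) (nat_lit 22) (.e (nat_lit 90153) (nat_lit 10) .nil)))) .nil))) (.nd (nat_lit 6) 
(.lf (nat_lit 257212) (.g (nat_lit 1045) (.e (nat_lit 164196) (nat_lit 158) (.e (nat_lit 1219) (nat_lit 90) (.e (nat_lit 81947) (nat_lit 20) (.e (nat_lit 1886) (nat_lit 127) .nil)))) .nil)) 
(.lf (nat_lit 257276) (.g (nat_lit 1752) (.e (nat_lit 171776) (nat_lit 160) (.e (nat_lit 57375) (nat_lit 2) (.e (nat_lit 90174) (nat_lit 14) (.e (nat_lit 180250) (nat_lit 10) .nil)))) .nil))))))) (.nd (nat_lit 2) (.nd (nat_lit 3) (.nd (nat_lit 4) (.nd (nat_lit 5) (.nd (nat_lit 6) 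
(.lf (nat_lit 257154) (.g (nat_lit 2890) (.e (nat_lit 164195) (nat_lit 158) (.e (nat_lit 1181) (nat_lit 87) (.e (nat_lit 57479) (nat_lit 28) (.e (nat_lit 557109) (nat_lit 15) (.e (nat_lit 196352) (nat_lit 0) .nil))))) .nil)) 
(.lf (nat_lit 257218) (.g (nat_lit 533) (.e (nat_lit 164196) (nat_lit 158) (.e (nat_lit 1219) (nat_lit 90) (.e (nat_lit 81960) (nat_lit 25) .nil))) .nil))) (.nd (nat_lit 6) 
(.lf (nat_lit 257186) (.g (nat_lit 1915) (.e (nat_lit 164196) (nat_lit 158) (.e (nat_lit 1181) (nat_lit 87) (.e (nat_lit 57479) (nat_lit 28) (.e (nat_lit 557109) (nat_lit 15) .nil)))) .nil)) 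
(.lf (nat_lit 257250) (.g (nat_lit 2449) (.e (nat_lit 164196) (nat_lit 158) (.e (nat_lit 1221) (nat_lit 90) (.e (nat_lit 81956) (nat_lit 23) (.e (nat_lit 106240) (nat_lit 7) .nil)))) .nil)))) (.nd (nat_lit 5) (.nd (nat_lit 6) 
(.lf (nat_lit 257170) (.g (nat_lit 1220) (.e (nat_lit 164195) (nat_lit 158) (.e (nat_lit 1200) (nat_lit 88) (.e (nat_lit 65619) (nat_lit 10) (.e (nat_lit 344138) (nat_lit 29) .nil)))) .nil)) 
(.lf (nat_lit 257234) (.g (nat_lit 1596) (.e (nat_lit 164196) (nat_lit 158) (.e (nat_lit 1221) (nat_lit 90) (.e (nat_lit 81947) (nat_lit 20) (.e (nat_lit 1886) (nat_lit 127) (.e (nat_lit 581651) (nat_lit 4) .nil))))) .nil))) (.nd (nat_lit 6) 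
(.lf (nat_lit 257202) (.g (nat_lit 2789) (.e (nat_lit 164196) (nat_lit 158) (.e (nat_lit 1199) (nat_lit 88) (.e (nat_lit 65610) (nat_lit 10) (.e (nat_lit 344117) (nat_lit 21) (.e (nat_lit 516191) (nat_lit 17) (.e (nat_lit 6209) (nat_lit 333) (.e (nat_lit 65280) (nat_lit 256) (.e (nat_lit 2612) (nat_lit 163) .nil)))))))) (.g (nat_lit 4) .nil .nil))) 
(.lf (nat_lit 257266) (.g (nat_lit 1907) (.e (nat_lit 171776) (nat_lit 160) (.e (nat_lit 57371) (nat_lit 2) (.e (nat_lit 90174) (nat_lit 14) (.e (nat_lit 180251) (nat_lit 10) (.e (nat_lit 573485) (nat_lit 13) .nil))))) .nil))))) (.nd (nat_lit 4) (.nd (nat_lit 5) (.nd (nat_lit 6) 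
(.lf (nat_lit 257162) (.g (nat_lit 1059) (.e (nat_lit 164195) (nat_lit 158) (.e (nat_lit 1199) (nat_lit 88) (.e (nat_lit 65611) (nat_lit 10) (.e (nat_lit 344123) (nat_lit 24) (.e (nat_lit 540724) (nat_lit 28) .nil))))) .nil)) 
(.lf (nat_lit 257226) (.g (nat_lit 3824) (.e (nat_lit 164196) (nat_lit 158) (.e (nat_lit 1220) (nat_lit 90) (.e (nat_lit 81953) (nat_lit 22) (.e (nat_lit 90120) (nat_lit 0) .nil)))) .nil))) (.nd (nat_lit 6) 
(.lf (nat_lit 257194) (.g (nat_lit 2628) (.e (nat_lit 164196) (nat_lit 158) (.e (nat_lit 1182) (nat_lit 87) (.e (nat_lit 57479) (nat_lit 28) (.e (nat_lit 557109) (nat_lit 15) (.e (nat_lit 196352) (nat_lit 0) .nil))))) .nil)) 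
(.lf (nat_lit 257258) (.g (nat_lit 289) (.e (nat_lit 171776) (nat_lit 158) (.e (nat_lit 1216) (nat_lit 90) (.e (nat_lit 89856) (nat_lit 7) .nil))) .nil)))) (.nd (nat_lit 5) (.nd (nat_lit 6) 
(.lf (nat_lit 257178) (.g (nat_lit 2913) (.e (nat_lit 164195) (nat_lit 158) (.e (nat_lit 1221) (nat_lit 90) (.e (nat_lit 81953) (nat_lit 22) (.e (nat_lit 90119) (nat_lit 0) .nil)))) .nil)) 
(.lf (nat_lit 257242) (.g (nat_lit 1665) (.e (nat_lit 164196) (nat_lit 158) (.e (nat_lit 1221) (nat_lit 90) (.e (nat_lit 81953) (nat_lit 22) (.e (nat_lit 98048) (nat_lit 2) .nil)))) .nil))) (.nd (nat_lit 6) 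
(.lf (nat_lit 257210) (.g (nat_lit 465) (.e (nat_lit 164196) (nat_lit 158) (.e (nat_lit 1209) (nat_lit 89) (.e (nat_lit 81664) (nat_lit 33) .nil))) .nil)) 
(.lf (nat_lit 257274) (.g (nat_lit 2558) (.e (nat_lit 171776) (nat_lit 160) (.e (nat_lit 57373) (nat_lit 2) (.e (nat_lit 90174) (nat_lit 14) (.e (nat_lit 180251) (nat_lit 10) (.e (nat_lit 573485) (nat_lit 13) .nil))))) .nil)))))) (.nd (nat_lit 3) (.nd (nat_lit 4) (.nd (nat_lit 5) (.nd (nat_lit 6) 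
(.lf (nat_lit 257158) (.g (nat_lit 2628) (.e (nat_lit 164195) (nat_lit 158) (.e (nat_lit 1182) (nat_lit 87) (.e (nat_lit 57479) (nat_lit 28) (.e (nat_lit 557109) (nat_lit 15) (.e (nat_lit 196352) (nat_lit 3) .nil))))) .nil)) 
(.lf (nat_lit 257222) (.g (nat_lit 3251) (.e (nat_lit 164196) (nat_lit 158) (.e (nat_lit 1220) (nat_lit 90) (.e (nat_lit 81953) (nat_lit 22) (.e (nat_lit 90116) (nat_lit 0) (.e (nat_lit 461) (nat_lit 34) .nil))))) .nil))) (.nd (nat_lit 6) 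
(.lf (nat_lit 257190) (.g (nat_lit 1385) (.e (nat_lit 164196) (nat_lit 158) (.e (nat_lit 1181) (nat_lit 87) (.e (nat_lit 57480) (nat_lit 28) (.e (nat_lit 557098) (nat_lit 13) .nil)))) .nil)) 
(.lf (nat_lit 257254) (.g (nat_lit 1311) (.e (nat_lit 164196) (nat_lit 158) (.e (nat_lit 1221) (nat_lit 90) (.e (nat_lit 81959) (nat_lit 24) (.e (nat_lit 123018) (nat_lit 122) .nil)))) .nil)))) (.nd (nat_lit 5) (.nd (nat_lit 6) 
(.lf (nat_lit 257174) (.g (nat_lit 1615) (.e (nat_lit 164195) (nat_lit 158) (.e (nat_lit 1220) (nat_lit 90) (.e (nat_lit 81953) (nat_lit 22) (.e (nat_lit 98048) (nat_lit 2) .nil)))) .nil)) 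
(.lf (nat_lit 257238) (.g (nat_lit 2220) (.e (nat_lit 164196) (nat_lit 158) (.e (nat_lit 1221) (nat_lit 90) (.e (nat_lit 81953) (nat_lit 22) (.e (nat_lit 90116) (nat_lit 0) .nil)))) .nil))) (.nd (nat_lit 6) 
(.lf (nat_lit 257206) (.g (nat_lit 1199) (.e (nat_lit 164196) (nat_lit 158) (.e (nat_lit 1199) (nat_lit 88) (.e (nat_lit 65617) (nat_lit 10) (.e (nat_lit 344138) (nat_lit 29) .nil)))) .nil)) 
(.lf (nat_lit 257270) (.g (nat_lit 1848) (.e (nat_lit 171776) (nat_lit 160) (.e (nat_lit 57373) (nat_lit 2) (.e (nat_lit 90172) (nat_lit 14) (.e (nat_lit 180250) (nat_lit 10) (.e (nat_lit 573482) (nat_lit 13) .nil))))) .nil))))) (.nd (nat_lit 4) (.nd (nat_lit 5) (.nd (nat_lit 6) 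
(.lf (nat_lit 257166) (.g (nat_lit 2027) (.e (nat_lit 164195) (nat_lit 158) (.e (nat_lit 1199) (nat_lit 88) (.e (nat_lit 65617) (nat_lit 10) (.e (nat_lit 344133) (nat_lit 26) (.e (nat_lit 557119) (nat_lit 18) .nil))))) .nil)) 
(.lf (nat_lit 257230) (.g (nat_lit 2726) (.e (nat_lit 164196) (nat_lit 158) (.e (nat_lit 1220) (nat_lit 90) (.e (nat_lit 81956) (nat_lit 23) (.e (nat_lit 98309) (nat_lit 0) .nil)))) .nil))) (.nd (nat_lit 6) 
(.lf (nat_lit 257198) (.g (nat_lit 4673) (.e (nat_lit 164196) (nat_lit 158) (.e (nat_lit 1199) (nat_lit 88) (.e (nat_lit 65586) (nat_lit 7) (.e (nat_lit 319505) (nat_lit 10) (.e (nat_lit 618) (nat_lit 48) (.e (nat_lit 557109) (nat_lit 15) (.e (nat_lit 188444) (nat_lit 21) .nil))))))) (.g (nat_lit 6) .nil .nil))) 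
(.lf (nat_lit 257262) (.g (nat_lit 754) (.e (nat_lit 171776) (nat_lit 160) (.e (nat_lit 57371) (nat_lit 2) (.e (nat_lit 90173) (nat_lit 14) .nil))) .nil)))) (.nd (nat_lit 5) (.nd (nat_lit 6) 
(.lf (nat_lit 257182) (.g (nat_lit 1194) (.e (nat_lit 164195) (nat_lit 158) (.e (nat_lit 1221) (nat_lit 90) (.e (nat_lit 81959) (nat_lit 24) (.e (nat_lit 123025) (nat_lit 127) .nil)))) .nil)) 
(.lf (nat_lit 257246) (.g (nat_lit 476) (.e (nat_lit 164196) (nat_lit 158) (.e (nat_lit 1221) (nat_lit 90) (.e (nat_lit 81956) (nat_lit 23) .nil))) .nil))) (.nd (nat_lit 6) 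
(.lf (nat_lit 257214) (.g (nat_lit 2389) (.e (nat_lit 164196) (nat_lit 158) (.e (nat_lit 1219) (nat_lit 90) (.e (nat_lit 81953) (nat_lit 22) (.e (nat_lit 90116) (nat_lit 0) .nil)))) .nil)) 
(.lf (nat_lit 257278) (.g (nat_lit 2726) (.e (nat_lit 171776) (nat_lit 160) (.e (nat_lit 57375) (nat_lit 2) (.e (nat_lit 90174) (nat_lit 14) (.e (nat_lit 180250) (nat_lit 10) (.e (nat_lit 573485) (nat_lit 13) .nil))))) .nil)))))))) (.nd (nat_lit 1) (.nd (nat_lit 2) (.nd (nat_lit 3) (.nd (nat_lit 4) (.nd (nat_lit 5) (.nd (nat_lit 6) 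
(.lf (nat_lit 257153) (.g (nat_lit 1978) (.e (nat_lit 164195) (nat_lit 158) (.e (nat_lit 1181) (nat_lit 87) (.e (nat_lit 57479) (nat_lit 28) (.e (nat_lit 557109) (nat_lit 15) .nil)))) .nil)) 
(.lf (nat_lit 257217) (.g (nat_lit 2202) (.e (nat_lit 164196) (nat_lit 158) (.e (nat_lit 1219) (nat_lit 90) (.e (nat_lit 81956) (nat_lit 23) (.e (nat_lit 98309) (nat_lit 0) (.e (nat_lit 6112) (nat_lit 332) .nil))))) .nil))) (.nd (nat_lit 6) 
(.lf (nat_lit 257185) (.g (nat_lit 853) (.e (nat_lit 164196) (nat_lit 158) (.e (nat_lit 1126) (nat_lit 83) (.e (nat_lit 16392) (nat_lit 0) (.e (nat_lit 3399) (nat_lit 211) .nil)))) .nil)) 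
(.lf (nat_lit 257249) (.g (nat_lit 3215) (.e (nat_lit 164196) (nat_lit 158) (.e (nat_lit 1221) (nat_lit 90) (.e (nat_lit 81956) (nat_lit 23) (.e (nat_lit 98311) (nat_lit 0) .nil)))) .nil)))) (.nd (nat_lit 5) (.nd (nat_lit 6) 
(.lf (nat_lit 257169) (.g (nat_lit 463) (.e (nat_lit 164195) (nat_lit 158) (.e (nat_lit 1200) (nat_lit 88) (.e (nat_lit 65616) (nat_lit 10) .nil))) .nil)) 
(.lf (nat_lit 257233) (.g (nat_lit 1270) (.e (nat_lit 164196) (nat_lit 158) (.e (nat_lit 1221) (nat_lit 90) (.e (nat_lit 81938) (nat_lit 20) (.e (nat_lit 1886) (nat_lit 127) .nil)))) .nil))) (.nd (nat_lit 6) 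
(.lf (nat_lit 257201) (.g (nat_lit 1985) (.e (nat_lit 164196) (nat_lit 158) (.e (nat_lit 1199) (nat_lit 88) (.e (nat_lit 65610) (nat_lit 10) (.e (nat_lit 344117) (nat_lit 21) (.e (nat_lit 516191) (nat_lit 17) .nil))))) .nil)) 
(.lf (nat_lit 257265) (.g (nat_lit 2255) (.e (nat_lit 171776) (nat_lit 160) (.e (nat_lit 57371) (nat_lit 2) (.e (nat_lit 90174) (nat_lit 14) (.e (nat_lit 180250) (nat_lit 10) (.e (nat_lit 573485) (nat_lit 13) .nil))))) .nil))))) (.nd (nat_lit 4) (.nd (nat_lit 5) (.nd (nat_lit 6) 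
(.lf (nat_lit 257161) (.g (nat_lit 1472) (.e (nat_lit 164195) (nat_lit 158) (.e (nat_lit 1199) (nat_lit 88) (.e (nat_lit 65610) (nat_lit 10) (.e (nat_lit 344138) (nat_lit 29) (.e (nat_lit 581651) (nat_lit 4) .nil))))) .nil)) 
(.lf (nat_lit 257225) (.g (nat_lit 3087) (.e (nat_lit 164196) (nat_lit 158) (.e (nat_lit 1220) (nat_lit 90) (.e (nat_lit 81953) (nat_lit 22) (.e (nat_lit 90119) (nat_lit 0) .nil)))) .nil))) (.nd (nat_lit 6) 
(.lf (nat_lit 257193) (.g (nat_lit 3030) (.e (nat_lit 164196) (nat_lit 158) (.e (nat_lit 1182) (nat_lit 87) (.e (nat_lit 57479) (nat_lit 28) (.e (nat_lit 557109) (nat_lit 15) (.e (nat_lit 188419) (nat_lit 0) .nil))))) .nil)) 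
(.lf (nat_lit 257257) (.g (nat_lit 434) (.e (nat_lit 164196) (nat_lit 158) (.e (nat_lit 1221) (nat_lit 90) (.e (nat_lit 81962) (nat_lit 25) .nil))) .nil)))) (.nd (nat_lit 5) (.nd (nat_lit 6) 
(.lf (nat_lit 257177) (.g (nat_lit 3538) (.e (nat_lit 164195) (nat_lit 158) (.e (nat_lit 1221) (nat_lit 90) (.e (nat_lit 81953) (nat_lit 22) (.e (nat_lit 90117) (nat_lit 0) .nil)))) .nil)) 
(.lf (nat_lit 257241) (.g (nat_lit 1665) (.e (nat_lit 164196) (nat_lit 158) (.e (nat_lit 1221) (nat_lit 90) (.e (nat_lit 81953) (nat_lit 22) (.e (nat_lit 98048) (nat_lit 0) .nil)))) .nil))) (.nd (nat_lit 6) 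
(.lf (nat_lit 257209) (.g (nat_lit 1013) (.e (nat_lit 164196) (nat_lit 158) (.e (nat_lit 1200) (nat_lit 88) (.e (nat_lit 65620) (nat_lit 10) (.e (nat_lit 344138) (nat_lit 29) (.e (nat_lit 581653) (nat_lit 6) .nil))))) .nil)) 
(.lf (nat_lit 257273) (.g (nat_lit 1606) (.e (nat_lit 171776) (nat_lit 160) (.e (nat_lit 57373) (nat_lit 2) (.e (nat_lit 90174) (nat_lit 14) (.e (nat_lit 180251) (nat_lit 10) .nil)))) .nil)))))) (.nd (nat_lit 3) (.nd (nat_lit 4) (.nd (nat_lit 5) (.nd (nat_lit 6) 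
(.lf (nat_lit 257157) (.g (nat_lit 2628) (.e (nat_lit 164195) (nat_lit 158) (.e (nat_lit 1182) (nat_lit 87) (.e (nat_lit 57479) (nat_lit 28) (.e (nat_lit 557109) (nat_lit 15) (.e (nat_lit 196352) (nat_lit 0) .nil))))) .nil)) 
(.lf (nat_lit 257221) (.g (nat_lit 2957) (.e (nat_lit 164196) (nat_lit 158) (.e (nat_lit 1220) (nat_lit 90) (.e (nat_lit 81953) (nat_lit 22) (.e (nat_lit 90116) (nat_lit 0) .nil)))) .nil))) (.nd (nat_lit 6) 
(.lf (nat_lit 257189) (.g (nat_lit 2826) (.e (nat_lit 164196) (nat_lit 158) (.e (nat_lit 1181) (nat_lit 87) (.e (nat_lit 57479) (nat_lit 28) (.e (nat_lit 557109) (nat_lit 15) (.e (nat_lit 196352) (nat_lit 3) .nil))))) .nil)) 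
(.lf (nat_lit 257253) (.g (nat_lit 1304) (.e (nat_lit 164196) (nat_lit 158) (.e (nat_lit 1221) (nat_lit 90) (.e (nat_lit 81959) (nat_lit 24) (.e (nat_lit 123015) (nat_lit 122) (.e (nat_lit 2644) (nat_lit 166) .nil))))) .nil)))) (.nd (nat_lit 5) (.nd (nat_lit 6) 
(.lf (nat_lit 257173) (.g (nat_lit 1615) (.e (nat_lit 164195) (nat_lit 158) (.e (nat_lit 1220) (nat_lit 90) (.e (nat_lit 81953) (nat_lit 22) (.e (nat_lit 98048) (nat_lit 0) .nil)))) .nil)) 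
(.lf (nat_lit 257237) (.g (nat_lit 4233) (.e (nat_lit 164196) (nat_lit 158) (.e (nat_lit 1221) (nat_lit 90) (.e (nat_lit 81953) (nat_lit 22) (.e (nat_lit 90113) (nat_lit 0) (.e (nat_lit 461) (nat_lit 34) .nil))))) .nil))) (.nd (nat_lit 6) 
(.lf (nat_lit 257205) (.g (nat_lit 1291) (.e (nat_lit 164196) (nat_lit 158) (.e (nat_lit 1199) (nat_lit 88) (.e (nat_lit 65617) (nat_lit 10) (.e (nat_lit 344136) (nat_lit 29) .nil)))) .nil)) 
(.lf (nat_lit 257269) (.g (nat_lit 2080) (.e (nat_lit 171776) (nat_lit 160) (.e (nat_lit 57373) (nat_lit 2) (.e (nat_lit 90172) (nat_lit 14) (.e (nat_lit 180250) (nat_lit 10) (.e (nat_lit 573481) (nat_lit 13) .nil))))) .nil))))) (.nd (nat_lit 4) (.nd (nat_lit 5) (.nd (nat_lit 6) 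
(.lf (nat_lit 257165) (.g (nat_lit 1925) (.e (nat_lit 164195) (nat_lit 158) (.e (nat_lit 1199) (nat_lit 88) (.e (nat_lit 65617) (nat_lit 10) (.e (nat_lit 344130) (nat_lit 26) (.e (nat_lit 557119) (nat_lit 18) .nil))))) .nil)) 
(.lf (nat_lit 257229) (.g (nat_lit 3950) (.e (nat_lit 164196) (nat_lit 158) (.e (nat_lit 1220) (nat_lit 90) (.e (nat_lit 81953) (nat_lit 22) (.e (nat_lit 90155) (nat_lit 10) .nil)))) .nil))) (.nd (nat_lit 6) 
(.lf (nat_lit 257197) (.g (nat_lit 1193) (.e (nat_lit 164196) (nat_lit 158) (.e (nat_lit 1190) (nat_lit 88) (.e (nat_lit 65619) (nat_lit 10) (.e (nat_lit 344138) (nat_lit 29) .nil)))) .nil)) 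
(.lf (nat_lit 257261) (.g (nat_lit 1273) (.e (nat_lit 171776) (nat_lit 160) (.e (nat_lit 57371) (nat_lit 2) (.e (nat_lit 90172) (nat_lit 14) (.e (nat_lit 180250) (nat_lit 10) .nil)))) .nil)))) (.nd (nat_lit 5) (.nd (nat_lit 6) 
(.lf (nat_lit 257181) (.g (nat_lit 2815) (.e (nat_lit 164195) (nat_lit 158) (.e (nat_lit 1221) (nat_lit 90) (.e (nat_lit 81956) (nat_lit 23) (.e (nat_lit 98309) (nat_lit 0) (.e (nat_lit 6112) (nat_lit 332) .nil))))) .nil)) 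
(.lf (nat_lit 257245) (.g (nat_lit 3404) (.e (nat_lit 164196) (nat_lit 158) (.e (nat_lit 1221) (nat_lit 90) (.e (nat_lit 81953) (nat_lit 22) (.e (nat_lit 90155) (nat_lit 10) .nil)))) .nil))) (.nd (nat_lit 6) 
(.lf (nat_lit 257213) (.g (nat_lit 533) (.e (nat_lit 164196) (nat_lit 158) (.e (nat_lit 1219) (nat_lit 90) (.e (nat_lit 81953) (nat_lit 22) .nil))) .nil)) 
(.lf (nat_lit 257277) (.g (nat_lit 2763) (.e (nat_lit 171776) (nat_lit 160) (.e (nat_lit 57375) (nat_lit 2) (.e (nat_lit 90174) (nat_lit 14) (.e (nat_lit 180250) (nat_lit 10) (.e (nat_lit 573482) (nat_lit 13) .nil))))) .nil))))))) (.nd (nat_lit 2) (.nd (nat_lit 3) (.nd (nat_lit 4) (.nd (nat_lit 5) (.nd (nat_lit 6) 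
(.lf (nat_lit 257155) (.g (nat_lit 2890) (.e (nat_lit 164195) (nat_lit 158) (.e (nat_lit 1181) (nat_lit 87) (.e (nat_lit 57479) (nat_lit 28) (.e (nat_lit 557109) (nat_lit 15) (.e (nat_lit 196352) (nat_lit 3) .nil))))) .nil)) 
(.lf (nat_lit 257219) (.g (nat_lit 1481) (.e (nat_lit 164196) (nat_lit 158) (.e (nat_lit 1220) (nat_lit 90) (.e (nat_lit 81938) (nat_lit 20) (.e (nat_lit 1886) (nat_lit 127) .nil)))) .nil))) (.nd (nat_lit 6) 
(.lf (nat_lit 257187) (.g (nat_lit 3301) (.e (nat_lit 164196) (nat_lit 158) (.e (nat_lit 1181) (nat_lit 87) (.e (nat_lit 57479) (nat_lit 28) (.e (nat_lit 557109) (nat_lit 15) (.e (nat_lit 188419) (nat_lit 0) .nil))))) .nil)) 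
(.lf (nat_lit 257251) (.g (nat_lit 2813) (.e (nat_lit 164196) (nat_lit 158) (.e (nat_lit 1221) (nat_lit 90) (.e (nat_lit 81956) (nat_lit 23) (.e (nat_lit 98333) (nat_lit 18) .nil)))) .nil)))) (.nd (nat_lit 5) (.nd (nat_lit 6) 
(.lf (nat_lit 257171) (.g (nat_lit 460) (.e (nat_lit 164195) (nat_lit 158) (.e (nat_lit 1209) (nat_lit 89) (.e (nat_lit 81664) (nat_lit 33) .nil))) .nil)) 
(.lf (nat_lit 257235) (.g (nat_lit 4016) (.e (nat_lit 164196) (nat_lit 158) (.e (nat_lit 1221) (nat_lit 90) (.e (nat_lit 81953) (nat_lit 22) (.e (nat_lit 90112) (nat_lit 0) .nil)))) .nil))) (.nd (nat_lit 6) 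
(.lf (nat_lit 257203) (.g (nat_lit 1784) (.e (nat_lit 164196) (nat_lit 158) (.e (nat_lit 1199) (nat_lit 88) (.e (nat_lit 65610) (nat_lit 10) (.e (nat_lit 344129) (nat_lit 26) (.e (nat_lit 557119) (nat_lit 18) .nil))))) .nil)) 
(.lf (nat_lit 257267) (.g (nat_lit 1450) (.e (nat_lit 171776) (nat_lit 160) (.e (nat_lit 57372) (nat_lit 2) (.e (nat_lit 90172) (nat_lit 14) (.e (nat_lit 180250) (nat_lit 10) .nil)))) .nil))))) (.nd (nat_lit 4) (.nd (nat_lit 5) (.nd (nat_lit 6) 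
(.lf (nat_lit 257163) (.g (nat_lit 429) (.e (nat_lit 164195) (nat_lit 158) (.e (nat_lit 1199) (nat_lit 88) (.e (nat_lit 65616) (nat_lit 10) .nil))) .nil)) 
(.lf (nat_lit 257227) (.g (nat_lit 1618) (.e (nat_lit 164196) (nat_lit 158) (.e (nat_lit 1220) (nat_lit 90) (.e (nat_lit 81953) (nat_lit 22) (.e (nat_lit 98048) (nat_lit 0) .nil)))) .nil))) (.nd (nat_lit 6) 
(.lf (nat_lit 257195) (.g (nat_lit 3079) (.e (nat_lit 164196) (nat_lit 158) (.e (nat_lit 1182) (nat_lit 87) (.e (nat_lit 57479) (nat_lit 28) (.e (nat_lit 557109) (nat_lit 15) (.e (nat_lit 196352) (nat_lit 0) (.e (nat_lit 1800) (nat_lit 119) (.e (nat_lit 516131) (nat_lit 3) (.e (nat_lit 221207) (nat_lit 21) .nil)))))))) (.g (nat_lit 4) .nil .nil))) 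
(.lf (nat_lit 257259) (.g (nat_lit 444) (.e (nat_lit 171776) (nat_lit 158) (.e (nat_lit 1220) (nat_lit 90) (.e (nat_lit 81953) (nat_lit 22) .nil))) .nil)))) (.nd (nat_lit 5) (.nd (nat_lit 6) 
(.lf (nat_lit 257179) (.g (nat_lit 1521) (.e (nat_lit 164195) (nat_lit 158) (.e (nat_lit 1221) (nat_lit 90) (.e (nat_lit 81953) (nat_lit 22) (.e (nat_lit 98048) (nat_lit 0) .nil)))) .nil)) 
(.lf (nat_lit 257243) (.g (nat_lit 3268) (.e (nat_lit 164196) (nat_lit 158) (.e (nat_lit 1221) (nat_lit 90) (.e (nat_lit 81953) (nat_lit 22) (.e (nat_lit 90152) (nat_lit 10) .nil)))) .nil))) (.nd (nat_lit 6) 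
(.lf (nat_lit 257211) (.g (nat_lit 347) (.e (nat_lit 164196) (nat_lit 158) (.e (nat_lit 1211) (nat_lit 89) (.e (nat_lit 81664) (nat_lit 33) .nil))) .nil)) 
(.lf (nat_lit 257275) (.g (nat_lit 1543) (.e (nat_lit 171776) (nat_lit 160) (.e (nat_lit 57373) (nat_lit 2) (.e (nat_lit 90174) (nat_lit 14) (.e (nat_lit 180252) (nat_lit 10) .nil)))) .nil)))))) (.nd (nat_lit 3) (.nd (nat_lit 4) (.nd (nat_lit 5) (.nd (nat_lit 6) 
(.lf (nat_lit 257159) (.g (nat_lit 2782) (.e (nat_lit 164195) (nat_lit 158) (.e (nat_lit 1182) (nat_lit 87) (.e (nat_lit 57479) (nat_lit 28) (.e (nat_lit 557109) (nat_lit 15) (.e (nat_lit 196352) (nat_lit 3) (.e (nat_lit 98342) (nat_lit 20) (.e (nat_lit 221207) (nat_lit 21) .nil))))))) (.g (nat_lit 4) .nil .nil))) 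
(.lf (nat_lit 257223) (.g (nat_lit 4030) (.e (nat_lit 164196) (nat_lit 158) (.e (nat_lit 1220) (nat_lit 90) (.e (nat_lit 81953) (nat_lit 22) (.e (nat_lit 90117) (nat_lit 0) .nil)))) .nil))) (.nd (nat_lit 6) 
(.lf (nat_lit 257191) (.g (nat_lit 1365) (.e (nat_lit 164196) (nat_lit 158) (.e (nat_lit 1181) (nat_lit 87) (.e (nat_lit 57480) (nat_lit 28) (.e (nat_lit 557109) (nat_lit 15) .nil)))) .nil)) 
(.lf (nat_lit 257255) (.g (nat_lit 1419) (.e (nat_lit 164196) (nat_lit 158) (.e (nat_lit 1221) (nat_lit 90) (.e (nat_lit 81959) (nat_lit 24) (.e (nat_lit 123019) (nat_lit 122) .nil)))) .nil)))) (.nd (nat_lit 5) (.nd (nat_lit 6) 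
(.lf (nat_lit 257175) (.g (nat_lit 2739) (.e (nat_lit 164195) (nat_lit 158) (.e (nat_lit 1220) (nat_lit 90) (.e (nat_lit 81956) (nat_lit 23) (.e (nat_lit 98309) (nat_lit 0) .nil)))) .nil)) 
(.lf (nat_lit 257239) (.g (nat_lit 3034) (.e (nat_lit 164196) (nat_lit 158) (.e (nat_lit 1221) (nat_lit 90) (.e (nat_lit 81953) (nat_lit 22) (.e (nat_lit 90119) (nat_lit 0) .nil)))) .nil))) (.nd (nat_lit 6) 
(.lf (nat_lit 257207) (.g (nat_lit 429) (.e (nat_lit 164196) (nat_lit 158) (.e (nat_lit 1200) (nat_lit 88) (.e (nat_lit 65616) (nat_lit 10) .nil))) .nil)) 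
(.lf (nat_lit 257271) (.g (nat_lit 1499) (.e (nat_lit 171776) (nat_lit 160) (.e (nat_lit 57373) (nat_lit 2) (.e (nat_lit 90174) (nat_lit 14) (.e (nat_lit 180250) (nat_lit 10) .nil)))) .nil))))) (.nd (nat_lit 4) (.nd (nat_lit 5) (.nd (nat_lit 6) 
(.lf (nat_lit 257167) (.g (nat_lit 1158) (.e (nat_lit 164195) (nat_lit 158) (.e (nat_lit 1199) (nat_lit 88) (.e (nat_lit 65617) (nat_lit 10) (.e (nat_lit 344138) (nat_lit 29) .nil)))) .nil)) 
(.lf (nat_lit 257231) (.g (nat_lit 547) (.e (nat_lit 164196) (nat_lit 158) (.e (nat_lit 1220) (nat_lit 90) (.e (nat_lit 81962) (nat_lit 25) .nil))) .nil))) (.nd (nat_lit 6) 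
(.lf (nat_lit 257199) (.g (nat_lit 4967) (.e (nat_lit 164196) (nat_lit 158) (.e (nat_lit 1199) (nat_lit 88) (.e (nat_lit 65586) (nat_lit 7) (.e (nat_lit 319505) (nat_lit 10) (.e (nat_lit 618) (nat_lit 48) (.e (nat_lit 557109) (nat_lit 15) (.e (nat_lit 188446) (nat_lit 21) .nil))))))) (.g (nat_lit 0) .nil .nil))) 
(.lf (nat_lit 257263) (.g (nat_lit 586) (.e (nat_lit 171776) (nat_lit 160) (.e (nat_lit 57371) (nat_lit 2) (.e (nat_lit 90174) (nat_lit 14) .nil))) .nil)))) (.nd (nat_lit 5) (.nd (nat_lit 6) 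
(.lf (nat_lit 257183) (.g (nat_lit 407) (.e (nat_lit 164195) (nat_lit 158) (.e (nat_lit 1221) (nat_lit 90) (.e (nat_lit 81962) (nat_lit 25) .nil))) .nil)) 
(.lf (nat_lit 257247) (.g (nat_lit 3331) (.e (nat_lit 164196) (nat_lit 158) (.e (nat_lit 1221) (nat_lit 90) (.e (nat_lit 81956) (nat_lit 23) (.e (nat_lit 98308) (nat_lit 0) .nil)))) .nil))) (.nd (nat_lit 6) 
(.lf (nat_lit 257215) (.g (nat_lit 2177) (.e (nat_lit 164196) (nat_lit 158) (.e (nat_lit 1219) (nat_lit 90) (.e (nat_lit 81953) (nat_lit 22) (.e (nat_lit 98048) (nat_lit 0) .nil)))) .nil)) 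
(.lf (nat_lit 257279) (.g (nat_lit 1802) (.e (nat_lit 171776) (nat_lit 160) (.e (nat_lit 57375) (nat_lit 2) (.e (nat_lit 90174) (nat_lit 14) (.e (nat_lit 180251) (nat_lit 10) .nil)))) .nil)))))))))

noncomputable def tv3330 : DT := (.nd (nat_lit 0) (.nd (nat_lit 1) (.nd (nat_lit 2) (.nd (nat_lit 3) (.nd (nat_lit 4) (.nd (nat_lit 5) (.nd (nat_lit 6) 
(.lf (nat_lit 257280) (.g (nat_lit 2067) (.e (nat_lit 171776) (nat_lit 160) (.e (nat_lit 57378) (nat_lit 3) (.e (nat_lit 98366) (nat_lit 27) (.e (nat_lit 434244) (nat_lit 28) (.e (nat_lit 573487) (nat_lit 14) .nil))))) .nil)) 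
(.lf (nat_lit 257344) (.g (nat_lit 1928) (.e (nat_lit 164209) (nat_lit 176) (.e (nat_lit 2797) (nat_lit 180) (.e (nat_lit 303117) (nat_lit 2) (.e (nat_lit 196624) (nat_lit 9) (.e (nat_lit 1615) (nat_lit 113) .nil))))) .nil))) (.nd (nat_lit 6) 
(.lf (nat_lit 257312) (.g (nat_lit 1699) (.e (nat_lit 164207) (nat_lit 176) (.e (nat_lit 2798) (nat_lit 180) (.e (nat_lit 303117) (nat_lit 2) (.e (nat_lit 196630) (nat_lit 9) (.e (nat_lit 1573) (nat_lit 110) .nil))))) .nil)) 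
(.lf (nat_lit 257376) (.g (nat_lit 1706) (.e (nat_lit 164212) (nat_lit 176) (.e (nat_lit 2797) (nat_lit 180) (.e (nat_lit 303117) (nat_lit 2) (.e (nat_lit 196624) (nat_lit 9) .nil)))) .nil)))) (.nd (nat_lit 5) (.nd (nat_lit 6) 
(.lf (nat_lit 257296) (.g (nat_lit 2920) (.e (nat_lit 164207) (nat_lit 176) (.e (nat_lit 2777) (nat_lit 178) (.e (nat_lit 286733) (nat_lit 2) (.e (nat_lit 90165) (nat_lit 12) (.e (nat_lit 164210) (nat_lit 176) .nil))))) .nil)) 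
(.lf (nat_lit 257360) (.g (nat_lit 1789) (.e (nat_lit 164210) (nat_lit 176) (.e (nat_lit 2797) (nat_lit 180) (.e (nat_lit 303117) (nat_lit 2) (.e (nat_lit 196671) (nat_lit 15) (.e (nat_lit 81953) (nat_lit 22) .nil))))) .nil))) (.nd (nat_lit 6) 
(.lf (nat_lit 257328) (.g (nat_lit 4746) (.e (nat_lit 164208) (nat_lit 176) (.e (nat_lit 2777) (nat_lit 178) (.e (nat_lit 286735) (nat_lit 3) (.e (nat_lit 98350) (nat_lit 24) (.e (nat_lit 409617) (nat_lit 10) (.e (nat_lit 5355) (nat_lit 298) (.e (nat_lit 1235) (nat_lit 91) (.e (nat_lit 90165) (nat_lit 12) .nil)))))))) (.g (nat_lit 0) .nil .nil))) 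
(.lf (nat_lit 257392) (.g (nat_lit 2278) (.e (nat_lit 171776) (nat_lit 176) (.e (nat_lit 1348) (nat_lit 102) (.e (nat_lit 286735) (nat_lit 3) (.e (nat_lit 98367) (nat_lit 27) (.e (nat_lit 442112) (nat_lit 0) .nil))))) .nil))))) (.nd (nat_lit 4) (.nd (nat_lit 5) (.nd (nat_lit 6) 
(.lf (nat_lit 257288) (.g (nat_lit 2164) (.e (nat_lit 171776) (nat_lit 160) (.e (nat_lit 57379) (nat_lit 3) (.e (nat_lit 98367) (nat_lit 27) (.e (nat_lit 434244) (nat_lit 28) (.e (nat_lit 573481) (nat_lit 13) .nil))))) .nil)) 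
(.lf (nat_lit 257352) (.g (nat_lit 1875) (.e (nat_lit 164209) (nat_lit 176) (.e (nat_lit 2797) (nat_lit 180) (.e (nat_lit 303119) (nat_lit 3) (.e (nat_lit 204858) (nat_lit 26) .nil)))) .nil))) (.nd (nat_lit 6) 
(.lf (nat_lit 257320) (.g (nat_lit 2570) (.e (nat_lit 164208) (nat_lit 176) (.e (nat_lit 2777) (nat_lit 178) (.e (nat_lit 286733) (nat_lit 2) (.e (nat_lit 90165) (nat_lit 12) (.e (nat_lit 171776) (nat_lit 191) (.e (nat_lit 65568) (nat_lit 2) (.e (nat_lit 90165) (nat_lit 12) .nil))))))) (.g (nat_lit 4) .nil .nil))) 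
(.lf (nat_lit 257384) (.g (nat_lit 460) (.e (nat_lit 164213) (nat_lit 176) (.e (nat_lit 2817) (nat_lit 181) (.e (nat_lit 311357) (nat_lit 28) .nil))) .nil)))) (.nd (nat_lit 5) (.nd (nat_lit 6) 
(.lf (nat_lit 257304) (.g (nat_lit 2144) (.e (nat_lit 164207) (nat_lit 176) (.e (nat_lit 2797) (nat_lit 180) (.e (nat_lit 303117) (nat_lit 2) (.e (nat_lit 196630) (nat_lit 9) (.e (nat_lit 1596) (nat_lit 111) .nil))))) .nil)) 
(.lf (nat_lit 257368) (.g (nat_lit 1556) (.e (nat_lit 164210) (nat_lit 176) (.e (nat_lit 2798) (nat_lit 180) (.e (nat_lit 303117) (nat_lit 2) (.e (nat_lit 196630) (nat_lit 9) (.e (nat_lit 1596) (nat_lit 111) .nil))))) .nil))) (.nd (nat_lit 6) 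
(.lf (nat_lit 257336) (.g (nat_lit 2144) (.e (nat_lit 164208) (nat_lit 176) (.e (nat_lit 2810) (nat_lit 180) (.e (nat_lit 303117) (nat_lit 2) (.e (nat_lit 196630) (nat_lit 9) (.e (nat_lit 1573) (nat_lit 110) .nil))))) .nil)) 
(.lf (nat_lit 257400) (.g (nat_lit 1380) (.e (nat_lit 171776) (nat_lit 176) (.e (nat_lit 1349) (nat_lit 102) (.e (nat_lit 286761) (nat_lit 13) (.e (nat_lit 393293) (nat_lit 26) .nil)))) .nil)))))) (.nd (nat_lit 3) (.nd (nat_lit 4) (.nd (nat_lit 5) (.nd (nat_lit 6) 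
(.lf (nat_lit 257284) (.g (nat_lit 923) (.e (nat_lit 171776) (nat_lit 160) (.e (nat_lit 57378) (nat_lit 3) (.e (nat_lit 98368) (nat_lit 27) .nil))) .nil)) 
(.lf (nat_lit 257348) (.g (nat_lit 1393) (.e (nat_lit 164209) (nat_lit 176) (.e (nat_lit 2797) (nat_lit 180) (.e (nat_lit 303117) (nat_lit 2) (.e (nat_lit 204544) (nat_lit 15) .nil)))) .nil))) (.nd (nat_lit 6) 
(.lf (nat_lit 257316) (.g (nat_lit 2517) (.e (nat_lit 164208) (nat_lit 176) (.e (nat_lit 2777) (nat_lit 178) (.e (nat_lit 286733) (nat_lit 2) (.e (nat_lit 90165) (nat_lit 12) (.e (nat_lit 164210) (nat_lit 176) .nil))))) .nil)) 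
(.lf (nat_lit 257380) (.g (nat_lit 1232) (.e (nat_lit 164213) (nat_lit 176) (.e (nat_lit 2789) (nat_lit 179) (.e (nat_lit 294973) (nat_lit 28) (.e (nat_lit 434208) (nat_lit 18) (.e (nat_lit 6250) (nat_lit 337) .nil))))) .nil)))) (.nd (nat_lit 5) (.nd (nat_lit 6) 
(.lf (nat_lit 257300) (.g (nat_lit 5045) (.e (nat_lit 164207) (nat_lit 176) (.e (nat_lit 2777) (nat_lit 178) (.e (nat_lit 286735) (nat_lit 3) (.e (nat_lit 98350) (nat_lit 24) (.e (nat_lit 409617) (nat_lit 10) (.e (nat_lit 5355) (nat_lit 298) (.e (nat_lit 1235) (nat_lit 91) (.e (nat_lit 90165) (nat_lit 12) .nil)))))))) (.g (nat_lit 8) .nil .nil))) 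
(.lf (nat_lit 257364) (.g (nat_lit 1934) (.e (nat_lit 164210) (nat_lit 176) (.e (nat_lit 2797) (nat_lit 180) (.e (nat_lit 303119) (nat_lit 3) (.e (nat_lit 204856) (nat_lit 26) .nil)))) .nil))) (.nd (nat_lit 6) 
(.lf (nat_lit 257332) (.g (nat_lit 2053) (.e (nat_lit 164208) (nat_lit 176) (.e (nat_lit 2781) (nat_lit 178) (.e (nat_lit 286733) (nat_lit 2) (.e (nat_lit 90165) (nat_lit 12) (.e (nat_lit 164208) (nat_lit 176) .nil))))) .nil)) 
(.lf (nat_lit 257396) (.g (nat_lit 1300) (.e (nat_lit 171776) (nat_lit 176) (.e (nat_lit 1348) (nat_lit 102) (.e (nat_lit 286761) (nat_lit 13) (.e (nat_lit 393270) (nat_lit 23) .nil)))) .nil))))) (.nd (nat_lit 4) (.nd (nat_lit 5) (.nd (nat_lit 6) 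
(.lf (nat_lit 257292) (.g (nat_lit 613) (.e (nat_lit 171776) (nat_lit 161) (.e (nat_lit 122916) (nat_lit 14) (.e (nat_lit 352312) (nat_lit 22) .nil))) .nil)) 
(.lf (nat_lit 257356) (.g (nat_lit 1919) (.e (nat_lit 164210) (nat_lit 176) (.e (nat_lit 2797) (nat_lit 180) (.e (nat_lit 303117) (nat_lit 2) (.e (nat_lit 196624) (nat_lit 9) (.e (nat_lit 1615) (nat_lit 113) .nil))))) .nil))) (.nd (nat_lit 6) 
(.lf (nat_lit 257324) (.g (nat_lit 3022) (.e (nat_lit 164208) (nat_lit 176) (.e (nat_lit 2777) (nat_lit 178) (.e (nat_lit 286734) (nat_lit 3) (.e (nat_lit 98350) (nat_lit 24) (.e (nat_lit 409617) (nat_lit 10) (.e (nat_lit 5355) (nat_lit 298) (.e (nat_lit 1235) (nat_lit 91) (.e (nat_lit 90165) (nat_lit 12) .nil)))))))) (.g (nat_lit 4) .nil .nil))) 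
(.lf (nat_lit 257388) (.g (nat_lit 2331) (.e (nat_lit 171776) (nat_lit 176) (.e (nat_lit 1348) (nat_lit 102) (.e (nat_lit 286735) (nat_lit 3) (.e (nat_lit 98353) (nat_lit 25) (.e (nat_lit 417810) (nat_lit 6) .nil))))) .nil)))) (.nd (nat_lit 5) (.nd (nat_lit 6) 
(.lf (nat_lit 257308) (.g (nat_lit 1921) (.e (nat_lit 164207) (nat_lit 176) (.e (nat_lit 2797) (nat_lit 180) (.e (nat_lit 303119) (nat_lit 3) (.e (nat_lit 204856) (nat_lit 26) .nil)))) .nil)) 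
(.lf (nat_lit 257372) (.g (nat_lit 2215) (.e (nat_lit 164211) (nat_lit 176) (.e (nat_lit 2797) (nat_lit 180) (.e (nat_lit 303119) (nat_lit 3) (.e (nat_lit 204856) (nat_lit 26) .nil)))) .nil))) (.nd (nat_lit 6) 
(.lf (nat_lit 257340) (.g (nat_lit 1247) (.e (nat_lit 164208) (nat_lit 176) (.e (nat_lit 2819) (nat_lit 181) (.e (nat_lit 311339) (nat_lit 12) (.e (nat_lit 475193) (nat_lit 38) (.e (nat_lit 688181) (nat_lit 17) (.e (nat_lit 81664) (nat_lit 35) .nil)))))) (.g (nat_lit 4) .nil .nil))) 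
(.lf (nat_lit 257404) (.g (nat_lit 1748) (.e (nat_lit 171776) (nat_lit 176) (.e (nat_lit 2798) (nat_lit 180) (.e (nat_lit 303119) (nat_lit 3) (.e (nat_lit 204856) (nat_lit 26) .nil)))) .nil))))))) (.nd (nat_lit 2) (.nd (nat_lit 3) (.nd (nat_lit 4) (.nd (nat_lit 5) (.nd (nat_lit 6) 
(.lf (nat_lit 257282) (.g (nat_lit 1862) (.e (nat_lit 171776) (nat_lit 160) (.e (nat_lit 57378) (nat_lit 3) (.e (nat_lit 98367) (nat_lit 27) (.e (nat_lit 434246) (nat_lit 28) .nil)))) .nil)) 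
(.lf (nat_lit 257346) (.g (nat_lit 2101) (.e (nat_lit 164209) (nat_lit 176) (.e (nat_lit 2797) (nat_lit 180) (.e (nat_lit 303117) (nat_lit 2) (.e (nat_lit 196630) (nat_lit 9) (.e (nat_lit 1573) (nat_lit 110) .nil))))) .nil))) (.nd (nat_lit 6) 
(.lf (nat_lit 257314) (.g (nat_lit 1604) (.e (nat_lit 164208) (nat_lit 176) (.e (nat_lit 2777) (nat_lit 178) (.e (nat_lit 286727) (nat_lit 0) (.e (nat_lit 1799) (nat_lit 119) .nil)))) .nil)) 
(.lf (nat_lit 257378) (.g (nat_lit 382) (.e (nat_lit 164213) (nat_lit 176) (.e (nat_lit 2789) (nat_lit 179) (.e (nat_lit 294969) (nat_lit 27) .nil))) .nil)))) (.nd (nat_lit 5) (.nd (nat_lit 6) 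
(.lf (nat_lit 257298) (.g (nat_lit 2575) (.e (nat_lit 164207) (nat_lit 176) (.e (nat_lit 2777) (nat_lit 178) (.e (nat_lit 286735) (nat_lit 3) (.e (nat_lit 98325) (nat_lit 17) (.e (nat_lit 6986) (nat_lit 377) .nil))))) .nil)) 
(.lf (nat_lit 257362) (.g (nat_lit 1937) (.e (nat_lit 164210) (nat_lit 176) (.e (nat_lit 2797) (nat_lit 180) (.e (nat_lit 303119) (nat_lit 3) (.e (nat_lit 204850) (nat_lit 26) .nil)))) .nil))) (.nd (nat_lit 6) 
(.lf (nat_lit 257330) (.g (nat_lit 1921) (.e (nat_lit 164208) (nat_lit 176) (.e (nat_lit 2779) (nat_lit 178) (.e (nat_lit 286733) (nat_lit 2) (.e (nat_lit 90165) (nat_lit 12) (.e (nat_lit 164210) (nat_lit 176) .nil))))) .nil)) 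
(.lf (nat_lit 257394) (.g (nat_lit 353) (.e (nat_lit 171776) (nat_lit 176) (.e (nat_lit 1348) (nat_lit 102) (.e (nat_lit 286743) (nat_lit 9) .nil))) .nil))))) (.nd (nat_lit 4) (.nd (nat_lit 5) (.nd (nat_lit 6) 
(.lf (nat_lit 257290) (.g (nat_lit 2321) (.e (nat_lit 171776) (nat_lit 160) (.e (nat_lit 57379) (nat_lit 3) (.e (nat_lit 98367) (nat_lit 27) (.e (nat_lit 434248) (nat_lit 28) (.e (nat_lit 573482) (nat_lit 13) .nil))))) .nil)) 
(.lf (nat_lit 257354) (.g (nat_lit 2363) (.e (nat_lit 164209) (nat_lit 176) (.e (nat_lit 2797) (nat_lit 180) (.e (nat_lit 303119) (nat_lit 3) (.e (nat_lit 204878) (nat_lit 31) (.e (nat_lit 376864) (nat_lit 22) .nil))))) .nil))) (.nd (nat_lit 6) 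
(.lf (nat_lit 257322) (.g (nat_lit 2715) (.e (nat_lit 164208) (nat_lit 176) (.e (nat_lit 2777) (nat_lit 178) (.e (nat_lit 286733) (nat_lit 2) (.e (nat_lit 90165) (nat_lit 12) (.e (nat_lit 171776) (nat_lit 194) (.e (nat_lit 131093) (nat_lit 2) (.e (nat_lit 90165) (nat_lit 12) .nil))))))) (.g (nat_lit 4) .nil .nil))) 
(.lf (nat_lit 257386) (.g (nat_lit 351) (.e (nat_lit 171776) (nat_lit 176) (.e (nat_lit 1348) (nat_lit 102) (.e (nat_lit 286735) (nat_lit 3) .nil))) .nil)))) (.nd (nat_lit 5) (.nd (nat_lit 6) 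
(.lf (nat_lit 257306) (.g (nat_lit 1924) (.e (nat_lit 164207) (nat_lit 176) (.e (nat_lit 2797) (nat_lit 180) (.e (nat_lit 303119) (nat_lit 3) (.e (nat_lit 204850) (nat_lit 26) .nil)))) .nil)) 
(.lf (nat_lit 257370) (.g (nat_lit 1832) (.e (nat_lit 164210) (nat_lit 176) (.e (nat_lit 2798) (nat_lit 180) (.e (nat_lit 303119) (nat_lit 3) (.e (nat_lit 204856) (nat_lit 26) .nil)))) .nil))) (.nd (nat_lit 6) 
(.lf (nat_lit 257338) (.g (nat_lit 1115) (.e (nat_lit 164208) (nat_lit 176) (.e (nat_lit 2810) (nat_lit 180) (.e (nat_lit 303117) (nat_lit 2) (.e (nat_lit 204544) (nat_lit 15) .nil)))) .nil)) 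
(.lf (nat_lit 257402) (.g (nat_lit 1618) (.e (nat_lit 171776) (nat_lit 176) (.e (nat_lit 2798) (nat_lit 180) (.e (nat_lit 303117) (nat_lit 2) (.e (nat_lit 196630) (nat_lit 9) (.e (nat_lit 1596) (nat_lit 111) .nil))))) .nil)))))) (.nd (nat_lit 3) (.nd (nat_lit 4) (.nd (nat_lit 5) (.nd (nat_lit 6) 
(.lf (nat_lit 257286) (.g (nat_lit 1422) (.e (nat_lit 171776) (nat_lit 160) (.e (nat_lit 57379) (nat_lit 3) (.e (nat_lit 98366) (nat_lit 27) (.e (nat_lit 434246) (nat_lit 28) .nil)))) .nil)) 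
(.lf (nat_lit 257350) (.g (nat_lit 1875) (.e (nat_lit 164209) (nat_lit 176) (.e (nat_lit 2797) (nat_lit 180) (.e (nat_lit 303119) (nat_lit 3) (.e (nat_lit 204851) (nat_lit 26) .nil)))) .nil))) (.nd (nat_lit 6) 
(.lf (nat_lit 257318) (.g (nat_lit 2926) (.e (nat_lit 164208) (nat_lit 176) (.e (nat_lit 2777) (nat_lit 178) (.e (nat_lit 286733) (nat_lit 2) (.e (nat_lit 90165) (nat_lit 12) (.e (nat_lit 164210) (nat_lit 176) (.e (nat_lit 2787) (nat_lit 179) (.e (nat_lit 294928) (nat_lit 2) (.e (nat_lit 90165) (nat_lit 12) .nil)))))))) (.g (nat_lit 4) .nil .nil))) 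
(.lf (nat_lit 257382) (.g (nat_lit 1881) (.e (nat_lit 164213) (nat_lit 176) (.e (nat_lit 2797) (nat_lit 180) (.e (nat_lit 303119) (nat_lit 3) (.e (nat_lit 204878) (nat_lit 31) .nil)))) .nil)))) (.nd (nat_lit 5) (.nd (nat_lit 6) 
(.lf (nat_lit 257302) (.g (nat_lit 1919) (.e (nat_lit 164207) (nat_lit 176) (.e (nat_lit 2797) (nat_lit 180) (.e (nat_lit 303117) (nat_lit 2) (.e (nat_lit 196624) (nat_lit 9) (.e (nat_lit 1615) (nat_lit 113) .nil))))) .nil)) 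
(.lf (nat_lit 257366) (.g (nat_lit 1616) (.e (nat_lit 164210) (nat_lit 176) (.e (nat_lit 2798) (nat_lit 180) (.e (nat_lit 303117) (nat_lit 2) (.e (nat_lit 196630) (nat_lit 9) (.e (nat_lit 1553) (nat_lit 110) .nil))))) .nil))) (.nd (nat_lit 6) 
(.lf (nat_lit 257334) (.g (nat_lit 4226) (.e (nat_lit 164208) (nat_lit 176) (.e (nat_lit 2781) (nat_lit 178) (.e (nat_lit 286735) (nat_lit 3) (.e (nat_lit 98350) (nat_lit 24) (.e (nat_lit 409617) (nat_lit 10) (.e (nat_lit 5355) (nat_lit 298) (.e (nat_lit 1235) (nat_lit 91) (.e (nat_lit 90165) (nat_lit 12) .nil)))))))) (.g (nat_lit 8) .nil .nil))) 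
(.lf (nat_lit 257398) (.g (nat_lit 2686) (.e (nat_lit 171776) (nat_lit 176) (.e (nat_lit 1349) (nat_lit 102) (.e (nat_lit 286735) (nat_lit 3) (.e (nat_lit 98359) (nat_lit 26) (.e (nat_lit 426171) (nat_lit 7) .nil))))) .nil))))) (.nd (nat_lit 4) (.nd (nat_lit 5) (.nd (nat_lit 6) 
(.lf (nat_lit 257294) (.g (nat_lit 1970) (.e (nat_lit 164207) (nat_lit 176) (.e (nat_lit 2777) (nat_lit 178) (.e (nat_lit 286733) (nat_lit 2) (.e (nat_lit 90165) (nat_lit 12) .nil)))) .nil)) 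
(.lf (nat_lit 257358) (.g (nat_lit 2087) (.e (nat_lit 164210) (nat_lit 176) (.e (nat_lit 2797) (nat_lit 180) (.e (nat_lit 303117) (nat_lit 2) (.e (nat_lit 196630) (nat_lit 9) (.e (nat_lit 1573) (nat_lit 110) .nil))))) .nil))) (.nd (nat_lit 6) 
(.lf (nat_lit 257326) (.g (nat_lit 4894) (.e (nat_lit 164208) (nat_lit 176) (.e (nat_lit 2777) (nat_lit 178) (.e (nat_lit 286735) (nat_lit 3) (.e (nat_lit 98350) (nat_lit 24) (.e (nat_lit 409616) (nat_lit 10) (.e (nat_lit 5355) (nat_lit 298) (.e (nat_lit 1235) (nat_lit 91) (.e (nat_lit 90165) (nat_lit 12) .nil)))))))) (.g (nat_lit 0) .nil .nil))) 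
(.lf (nat_lit 257390) (.g (nat_lit 1625) (.e (nat_lit 171776) (nat_lit 176) (.e (nat_lit 1348) (nat_lit 102) (.e (nat_lit 286735) (nat_lit 3) (.e (nat_lit 98360) (nat_lit 26) .nil)))) .nil)))) (.nd (nat_lit 5) (.nd (nat_lit 6) 
(.lf (nat_lit 257310) (.g (nat_lit 2721) (.e (nat_lit 164207) (nat_lit 176) (.e (nat_lit 2797) (nat_lit 180) (.e (nat_lit 303119) (nat_lit 3) (.e (nat_lit 204858) (nat_lit 26) (.e (nat_lit 336073) (nat_lit 9) .nil))))) .nil)) 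
(.lf (nat_lit 257374) (.g (nat_lit 2048) (.e (nat_lit 164211) (nat_lit 176) (.e (nat_lit 2797) (nat_lit 180) (.e (nat_lit 303119) (nat_lit 3) (.e (nat_lit 204870) (nat_lit 29) .nil)))) .nil))) (.nd (nat_lit 6) 
(.lf (nat_lit 257342) (.g (nat_lit 3686) (.e (nat_lit 164209) (nat_lit 176) (.e (nat_lit 1079) (nat_lit 81) (.e (nat_lit 5394) (nat_lit 301) (.e (nat_lit 57464) (nat_lit 23) (.e (nat_lit 516151) (nat_lit 9) (.e (nat_lit 426170) (nat_lit 7) (.e (nat_lit 409631) (nat_lit 12) (.e (nat_lit 32805) (nat_lit 17) .nil)))))))) (.g (nat_lit 8) .nil .nil))) 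
(.lf (nat_lit 257406) (.g (nat_lit 1781) (.e (nat_lit 164218) (nat_lit 179) (.e (nat_lit 164358) (nat_lit 246) (.e (nat_lit 351) (nat_lit 28) (.e (nat_lit 393234) (nat_lit 17) (.e (nat_lit 7581) (nat_lit 405) .nil))))) .nil)))))))) (.nd (nat_lit 1) (.nd (nat_lit 2) (.nd (nat_lit 3) (.nd (nat_lit 4) (.nd (nat_lit 5) (.nd (nat_lit 6) 
(.lf (nat_lit 257281) (.g (nat_lit 1651) (.e (nat_lit 171776) (nat_lit 160) (.e (nat_lit 57378) (nat_lit 3) (.e (nat_lit 98366) (nat_lit 27) (.e (nat_lit 434248) (nat_lit 28) (.e (nat_lit 573487) (nat_lit 14) .nil))))) .nil)) 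
(.lf (nat_lit 257345) (.g (nat_lit 1168) (.e (nat_lit 164209) (nat_lit 176) (.e (nat_lit 2797) (nat_lit 180) (.e (nat_lit 303117) (nat_lit 2) (.e (nat_lit 196630) (nat_lit 9) .nil)))) .nil))) (.nd (nat_lit 6) 
(.lf (nat_lit 257313) (.g (nat_lit 1554) (.e (nat_lit 164207) (nat_lit 176) (.e (nat_lit 2807) (nat_lit 180) (.e (nat_lit 303116) (nat_lit 2) (.e (nat_lit 196672) (nat_lit 15) (.e (nat_lit 81951) (nat_lit 22) .nil))))) .nil)) 
(.lf (nat_lit 257377) (.g (nat_lit 1633) (.e (nat_lit 164212) (nat_lit 176) (.e (nat_lit 2797) (nat_lit 180) (.e (nat_lit 303119) (nat_lit 3) (.e (nat_lit 204878) (nat_lit 31) .nil)))) .nil)))) (.nd (nat_lit 5) (.nd (nat_lit 6) 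
(.lf (nat_lit 257297) (.g (nat_lit 796) (.e (nat_lit 164207) (nat_lit 176) (.e (nat_lit 2777) (nat_lit 178) (.e (nat_lit 286735) (nat_lit 3) .nil))) .nil)) 
(.lf (nat_lit 257361) (.g (nat_lit 1379) (.e (nat_lit 164210) (nat_lit 176) (.e (nat_lit 2797) (nat_lit 180) (.e (nat_lit 303117) (nat_lit 2) (.e (nat_lit 204544) (nat_lit 15) .nil)))) .nil))) (.nd (nat_lit 6) 
(.lf (nat_lit 257329) (.g (nat_lit 2166) (.e (nat_lit 164208) (nat_lit 176) (.e (nat_lit 2777) (nat_lit 178) (.e (nat_lit 286735) (nat_lit 3) (.e (nat_lit 98388) (nat_lit 33) (.e (nat_lit 491546) (nat_lit 9) .nil))))) .nil)) 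
(.lf (nat_lit 257393) (.g (nat_lit 1245) (.e (nat_lit 171776) (nat_lit 176) (.e (nat_lit 1348) (nat_lit 102) (.e (nat_lit 286735) (nat_lit 3) (.e (nat_lit 98380) (nat_lit 31) .nil)))) .nil))))) (.nd (nat_lit 4) (.nd (nat_lit 5) (.nd (nat_lit 6) 
(.lf (nat_lit 257289) (.g (nat_lit 1322) (.e (nat_lit 171776) (nat_lit 160) (.e (nat_lit 57379) (nat_lit 3) (.e (nat_lit 98367) (nat_lit 27) (.e (nat_lit 434247) (nat_lit 28) .nil)))) .nil)) 
(.lf (nat_lit 257353) (.g (nat_lit 1786) (.e (nat_lit 164209) (nat_lit 176) (.e (nat_lit 2797) (nat_lit 180) (.e (nat_lit 303119) (nat_lit 3) (.e (nat_lit 204875) (nat_lit 31) .nil)))) .nil))) (.nd (nat_lit 6) 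
(.lf (nat_lit 257321) (.g (nat_lit 2309) (.e (nat_lit 164208) (nat_lit 176) (.e (nat_lit 2777) (nat_lit 178) (.e (nat_lit 286733) (nat_lit 2) (.e (nat_lit 90165) (nat_lit 12) (.e (nat_lit 171776) (nat_lit 194) .nil))))) .nil)) 
(.lf (nat_lit 257385) (.g (nat_lit 1641) (.e (nat_lit 171776) (nat_lit 176) (.e (nat_lit 1348) (nat_lit 102) (.e (nat_lit 286733) (nat_lit 2) (.e (nat_lit 90174) (nat_lit 14) (.e (nat_lit 188160) (nat_lit 32) .nil))))) .nil)))) (.nd (nat_lit 5) (.nd (nat_lit 6) 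
(.lf (nat_lit 257305) (.g (nat_lit 1407) (.e (nat_lit 164207) (nat_lit 176) (.e (nat_lit 2797) (nat_lit 180) (.e (nat_lit 303117) (nat_lit 2) (.e (nat_lit 204544) (nat_lit 15) .nil)))) .nil)) 
(.lf (nat_lit 257369) (.g (nat_lit 1176) (.e (nat_lit 164210) (nat_lit 176) (.e (nat_lit 2798) (nat_lit 180) (.e (nat_lit 303117) (nat_lit 2) (.e (nat_lit 204544) (nat_lit 15) .nil)))) .nil))) (.nd (nat_lit 6) 
(.lf (nat_lit 257337) (.g (nat_lit 1496) (.e (nat_lit 164208) (nat_lit 176) (.e (nat_lit 2810) (nat_lit 180) (.e (nat_lit 303117) (nat_lit 2) (.e (nat_lit 196671) (nat_lit 15) (.e (nat_lit 81953) (nat_lit 22) .nil))))) .nil)) 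
(.lf (nat_lit 257401) (.g (nat_lit 1589) (.e (nat_lit 171776) (nat_lit 176) (.e (nat_lit 2798) (nat_lit 180) (.e (nat_lit 303117) (nat_lit 2) (.e (nat_lit 196630) (nat_lit 9) (.e (nat_lit 1573) (nat_lit 110) .nil))))) .nil)))))) (.nd (nat_lit 3) (.nd (nat_lit 4) (.nd (nat_lit 5) (.nd (nat_lit 6) 
(.lf (nat_lit 257285) (.g (nat_lit 1319) (.e (nat_lit 171776) (nat_lit 160) (.e (nat_lit 57379) (nat_lit 3) (.e (nat_lit 98366) (nat_lit 27) (.e (nat_lit 434244) (nat_lit 28) .nil)))) .nil)) 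
(.lf (nat_lit 257349) (.g (nat_lit 1880) (.e (nat_lit 164209) (nat_lit 176) (.e (nat_lit 2797) (nat_lit 180) (.e (nat_lit 303119) (nat_lit 3) (.e (nat_lit 204850) (nat_lit 26) .nil)))) .nil))) (.nd (nat_lit 6) 
(.lf (nat_lit 257317) (.g (nat_lit 2932) (.e (nat_lit 164208) (nat_lit 176) (.e (nat_lit 2777) (nat_lit 178) (.e (nat_lit 286733) (nat_lit 2) (.e (nat_lit 90165) (nat_lit 12) (.e (nat_lit 164210) (nat_lit 176) (.e (nat_lit 2786) (nat_lit 179) (.e (nat_lit 294927) (nat_lit 2) (.e (nat_lit 90165) (nat_lit 12) .nil)))))))) (.g (nat_lit 4) .nil .nil))) 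
(.lf (nat_lit 257381) (.g (nat_lit 1260) (.e (nat_lit 164213) (nat_lit 176) (.e (nat_lit 2789) (nat_lit 179) (.e (nat_lit 294973) (nat_lit 28) (.e (nat_lit 434208) (nat_lit 18) (.e (nat_lit 6412) (nat_lit 340) .nil))))) .nil)))) (.nd (nat_lit 5) (.nd (nat_lit 6) 
(.lf (nat_lit 257301) (.g (nat_lit 2594) (.e (nat_lit 164207) (nat_lit 176) (.e (nat_lit 2777) (nat_lit 178) (.e (nat_lit 286735) (nat_lit 3) (.e (nat_lit 98388) (nat_lit 33) (.e (nat_lit 491546) (nat_lit 9) .nil))))) .nil)) 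
(.lf (nat_lit 257365) (.g (nat_lit 1843) (.e (nat_lit 164210) (nat_lit 176) (.e (nat_lit 2797) (nat_lit 180) (.e (nat_lit 303119) (nat_lit 3) (.e (nat_lit 204875) (nat_lit 31) .nil)))) .nil))) (.nd (nat_lit 6) 
(.lf (nat_lit 257333) (.g (nat_lit 1891) (.e (nat_lit 164208) (nat_lit 176) (.e (nat_lit 2781) (nat_lit 178) (.e (nat_lit 286733) (nat_lit 2) (.e (nat_lit 90165) (nat_lit 12) (.e (nat_lit 171776) (nat_lit 194) (.e (nat_lit 131092) (nat_lit 2) (.e (nat_lit 90165) (nat_lit 12) .nil))))))) (.g (nat_lit 4) .nil .nil))) 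
(.lf (nat_lit 257397) (.g (nat_lit 1742) (.e (nat_lit 171776) (nat_lit 176) (.e (nat_lit 1348) (nat_lit 102) (.e (nat_lit 286761) (nat_lit 13) (.e (nat_lit 393293) (nat_lit 26) (.e (nat_lit 475198) (nat_lit 40) .nil))))) .nil))))) (.nd (nat_lit 4) (.nd (nat_lit 5) (.nd (nat_lit 6) 
(.lf (nat_lit 257293) (.g (nat_lit 798) (.e (nat_lit 171776) (nat_lit 166) (.e (nat_lit 57389) (nat_lit 5) (.e (nat_lit 114711) (nat_lit 21) .nil))) .nil)) 
(.lf (nat_lit 257357) (.g (nat_lit 2175) (.e (nat_lit 164210) (nat_lit 176) (.e (nat_lit 2797) (nat_lit 180) (.e (nat_lit 303117) (nat_lit 2) (.e (nat_lit 196630) (nat_lit 9) (.e (nat_lit 1553) (nat_lit 110) .nil))))) .nil))) (.nd (nat_lit 6) 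
(.lf (nat_lit 257325) (.g (nat_lit 3853) (.e (nat_lit 164208) (nat_lit 176) (.e (nat_lit 2777) (nat_lit 178) (.e (nat_lit 286735) (nat_lit 3) (.e (nat_lit 98350) (nat_lit 24) (.e (nat_lit 409616) (nat_lit 10) (.e (nat_lit 5355) (nat_lit 298) (.e (nat_lit 1234) (nat_lit 91) (.e (nat_lit 90165) (nat_lit 12) .nil)))))))) (.g (nat_lit 6) .nil .nil))) 
(.lf (nat_lit 257389) (.g (nat_lit 3114) (.e (nat_lit 171776) (nat_lit 176) (.e (nat_lit 1348) (nat_lit 102) (.e (nat_lit 286735) (nat_lit 3) (.e (nat_lit 98359) (nat_lit 26) (.e (nat_lit 426312) (nat_lit 12) .nil))))) .nil)))) (.nd (nat_lit 5) (.nd (nat_lit 6) 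
(.lf (nat_lit 257309) (.g (nat_lit 1919) (.e (nat_lit 164207) (nat_lit 176) (.e (nat_lit 2797) (nat_lit 180) (.e (nat_lit 303119) (nat_lit 3) (.e (nat_lit 204858) (nat_lit 26) .nil)))) .nil)) 
(.lf (nat_lit 257373) (.g (nat_lit 2213) (.e (nat_lit 164211) (nat_lit 176) (.e (nat_lit 2797) (nat_lit 180) (.e (nat_lit 303119) (nat_lit 3) (.e (nat_lit 204858) (nat_lit 26) .nil)))) .nil))) (.nd (nat_lit 6) 
(.lf (nat_lit 257341) (.g (nat_lit 1579) (.e (nat_lit 164208) (nat_lit 176) (.e (nat_lit 2819) (nat_lit 181) (.e (nat_lit 311339) (nat_lit 12) (.e (nat_lit 475193) (nat_lit 38) (.e (nat_lit 688182) (nat_lit 17) (.e (nat_lit 81664) (nat_lit 35) .nil)))))) (.g (nat_lit 5) .nil .nil))) 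
(.lf (nat_lit 257405) (.g (nat_lit 1756) (.e (nat_lit 171776) (nat_lit 176) (.e (nat_lit 2798) (nat_lit 180) (.e (nat_lit 303119) (nat_lit 3) (.e (nat_lit 204858) (nat_lit 26) .nil)))) .nil))))))) (.nd (nat_lit 2) (.nd (nat_lit 3) (.nd (nat_lit 4) (.nd (nat_lit 5) (.nd (nat_lit 6) 
(.lf (nat_lit 257283) (.g (nat_lit 2602) (.e (nat_lit 171776) (nat_lit 160) (.e (nat_lit 57378) (nat_lit 3) (.e (nat_lit 98367) (nat_lit 27) (.e (nat_lit 434248) (nat_lit 28) (.e (nat_lit 573487) (nat_lit 14) .nil))))) .nil)) 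
(.lf (nat_lit 257347) (.g (nat_lit 2130) (.e (nat_lit 164209) (nat_lit 176) (.e (nat_lit 2797) (nat_lit 180) (.e (nat_lit 303117) (nat_lit 2) (.e (nat_lit 196630) (nat_lit 9) (.e (nat_lit 1596) (nat_lit 111) .nil))))) .nil))) (.nd (nat_lit 6) 
(.lf (nat_lit 257315) (.g (nat_lit 2543) (.e (nat_lit 164208) (nat_lit 176) (.e (nat_lit 2777) (nat_lit 178) (.e (nat_lit 286733) (nat_lit 2) (.e (nat_lit 90165) (nat_lit 12) (.e (nat_lit 164208) (nat_lit 176) .nil))))) .nil)) 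
(.lf (nat_lit 257379) (.g (nat_lit 380) (.e (nat_lit 164213) (nat_lit 176) (.e (nat_lit 2789) (nat_lit 179) (.e (nat_lit 294973) (nat_lit 28) .nil))) .nil)))) (.nd (nat_lit 5) (.nd (nat_lit 6) 
(.lf (nat_lit 257299) (.g (nat_lit 5193) (.e (nat_lit 164207) (nat_lit 176) (.e (nat_lit 2777) (nat_lit 178) (.e (nat_lit 286735) (nat_lit 3) (.e (nat_lit 98350) (nat_lit 24) (.e (nat_lit 409616) (nat_lit 10) (.e (nat_lit 5355) (nat_lit 298) (.e (nat_lit 1235) (nat_lit 91) (.e (nat_lit 90165) (nat_lit 12) .nil)))))))) (.g (nat_lit 8) .nil .nil))) 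
(.lf (nat_lit 257363) (.g (nat_lit 1931) (.e (nat_lit 164210) (nat_lit 176) (.e (nat_lit 2797) (nat_lit 180) (.e (nat_lit 303119) (nat_lit 3) (.e (nat_lit 204851) (nat_lit 26) .nil)))) .nil))) (.nd (nat_lit 6) 
(.lf (nat_lit 257331) (.g (nat_lit 2093) (.e (nat_lit 164208) (nat_lit 176) (.e (nat_lit 2779) (nat_lit 178) (.e (nat_lit 286735) (nat_lit 3) (.e (nat_lit 98349) (nat_lit 24) (.e (nat_lit 409641) (nat_lit 17) .nil))))) .nil)) 
(.lf (nat_lit 257395) (.g (nat_lit 1833) (.e (nat_lit 171776) (nat_lit 176) (.e (nat_lit 1348) (nat_lit 102) (.e (nat_lit 286748) (nat_lit 9) (.e (nat_lit 336389) (nat_lit 27) (.e (nat_lit 426204) (nat_lit 9) .nil))))) .nil))))) (.nd (nat_lit 4) (.nd (nat_lit 5) (.nd (nat_lit 6) 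
(.lf (nat_lit 257291) (.g (nat_lit 841) (.e (nat_lit 171776) (nat_lit 160) (.e (nat_lit 57379) (nat_lit 3) (.e (nat_lit 98368) (nat_lit 27) .nil))) .nil)) 
(.lf (nat_lit 257355) (.g (nat_lit 1029) (.e (nat_lit 164210) (nat_lit 176) (.e (nat_lit 2787) (nat_lit 179) (.e (nat_lit 294928) (nat_lit 2) (.e (nat_lit 90165) (nat_lit 12) (.e (nat_lit 164210) (nat_lit 176) .nil))))) .nil))) (.nd (nat_lit 6) 
(.lf (nat_lit 257323) (.g (nat_lit 2770) (.e (nat_lit 164208) (nat_lit 176) (.e (nat_lit 2777) (nat_lit 178) (.e (nat_lit 286734) (nat_lit 3) (.e (nat_lit 98350) (nat_lit 24) (.e (nat_lit 409617) (nat_lit 10) .nil))))) .nil)) 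
(.lf (nat_lit 257387) (.g (nat_lit 1469) (.e (nat_lit 171776) (nat_lit 176) (.e (nat_lit 1348) (nat_lit 102) (.e (nat_lit 286735) (nat_lit 3) (.e (nat_lit 98323) (nat_lit 17) .nil)))) .nil)))) (.nd (nat_lit 5) (.nd (nat_lit 6) 
(.lf (nat_lit 257307) (.g (nat_lit 1919) (.e (nat_lit 164207) (nat_lit 176) (.e (nat_lit 2797) (nat_lit 180) (.e (nat_lit 303119) (nat_lit 3) (.e (nat_lit 204851) (nat_lit 26) .nil)))) .nil)) 
(.lf (nat_lit 257371) (.g (nat_lit 1473) (.e (nat_lit 164211) (nat_lit 176) (.e (nat_lit 2797) (nat_lit 180) (.e (nat_lit 303117) (nat_lit 2) (.e (nat_lit 196630) (nat_lit 9) .nil)))) .nil))) (.nd (nat_lit 6) 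
(.lf (nat_lit 257339) (.g (nat_lit 1449) (.e (nat_lit 164208) (nat_lit 176) (.e (nat_lit 2819) (nat_lit 181) (.e (nat_lit 311339) (nat_lit 12) (.e (nat_lit 475193) (nat_lit 38) (.e (nat_lit 688180) (nat_lit 17) (.e (nat_lit 81664) (nat_lit 35) .nil)))))) (.g (nat_lit 5) .nil .nil))) 
(.lf (nat_lit 257403) (.g (nat_lit 1162) (.e (nat_lit 171776) (nat_lit 176) (.e (nat_lit 2798) (nat_lit 180) (.e (nat_lit 303117) (nat_lit 2) (.e (nat_lit 204544) (nat_lit 15) .nil)))) .nil)))))) (.nd (nat_lit 3) (.nd (nat_lit 4) (.nd (nat_lit 5) (.nd (nat_lit 6) 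
(.lf (nat_lit 257287) (.g (nat_lit 2409) (.e (nat_lit 171776) (nat_lit 160) (.e (nat_lit 57379) (nat_lit 3) (.e (nat_lit 98366) (nat_lit 27) (.e (nat_lit 434248) (nat_lit 28) (.e (nat_lit 573482) (nat_lit 13) .nil))))) .nil)) 
(.lf (nat_lit 257351) (.g (nat_lit 1877) (.e (nat_lit 164209) (nat_lit 176) (.e (nat_lit 2797) (nat_lit 180) (.e (nat_lit 303119) (nat_lit 3) (.e (nat_lit 204856) (nat_lit 26) .nil)))) .nil))) (.nd (nat_lit 6) 
(.lf (nat_lit 257319) (.g (nat_lit 2411) (.e (nat_lit 164208) (nat_lit 176) (.e (nat_lit 2777) (nat_lit 178) (.e (nat_lit 286733) (nat_lit 2) (.e (nat_lit 90165) (nat_lit 12) (.e (nat_lit 171776) (nat_lit 191) (.e (nat_lit 65567) (nat_lit 2) (.e (nat_lit 90165) (nat_lit 12) .nil))))))) (.g (nat_lit 4) .nil .nil))) 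
(.lf (nat_lit 257383) (.g (nat_lit 679) (.e (nat_lit 164213) (nat_lit 176) (.e (nat_lit 2798) (nat_lit 180) (.e (nat_lit 303154) (nat_lit 28) .nil))) .nil)))) (.nd (nat_lit 5) (.nd (nat_lit 6) 
(.lf (nat_lit 257303) (.g (nat_lit 2115) (.e (nat_lit 164207) (nat_lit 176) (.e (nat_lit 2797) (nat_lit 180) (.e (nat_lit 303117) (nat_lit 2) (.e (nat_lit 196630) (nat_lit 9) (.e (nat_lit 1573) (nat_lit 110) .nil))))) .nil)) 
(.lf (nat_lit 257367) (.g (nat_lit 1582) (.e (nat_lit 164210) (nat_lit 176) (.e (nat_lit 2798) (nat_lit 180) (.e (nat_lit 303117) (nat_lit 2) (.e (nat_lit 196630) (nat_lit 9) (.e (nat_lit 1563) (nat_lit 110) .nil))))) .nil))) (.nd (nat_lit 6) 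
(.lf (nat_lit 257335) (.g (nat_lit 1058) (.e (nat_lit 164208) (nat_lit 176) (.e (nat_lit 2810) (nat_lit 180) (.e (nat_lit 303117) (nat_lit 2) (.e (nat_lit 196624) (nat_lit 9) .nil)))) .nil)) 
(.lf (nat_lit 257399) (.g (nat_lit 1874) (.e (nat_lit 171776) (nat_lit 176) (.e (nat_lit 1349) (nat_lit 102) (.e (nat_lit 286748) (nat_lit 9) (.e (nat_lit 336389) (nat_lit 27) (.e (nat_lit 426213) (nat_lit 9) .nil))))) .nil))))) (.nd (nat_lit 4) (.nd (nat_lit 5) (.nd (nat_lit 6) 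
(.lf (nat_lit 257295) (.g (nat_lit 2959) (.e (nat_lit 164207) (nat_lit 176) (.e (nat_lit 2777) (nat_lit 178) (.e (nat_lit 286733) (nat_lit 2) (.e (nat_lit 90165) (nat_lit 12) (.e (nat_lit 164207) (nat_lit 176) .nil))))) .nil)) 
(.lf (nat_lit 257359) (.g (nat_lit 2116) (.e (nat_lit 164210) (nat_lit 176) (.e (nat_lit 2797) (nat_lit 180) (.e (nat_lit 303117) (nat_lit 2) (.e (nat_lit 196630) (nat_lit 9) (.e (nat_lit 1596) (nat_lit 111) .nil))))) .nil))) (.nd (nat_lit 6) 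
(.lf (nat_lit 257327) (.g (nat_lit 3686) (.e (nat_lit 164208) (nat_lit 176) (.e (nat_lit 2777) (nat_lit 178) (.e (nat_lit 286735) (nat_lit 3) (.e (nat_lit 98350) (nat_lit 24) (.e (nat_lit 409617) (nat_lit 10) (.e (nat_lit 5355) (nat_lit 298) (.e (nat_lit 1234) (nat_lit 91) (.e (nat_lit 90165) (nat_lit 12) .nil)))))))) (.g (nat_lit 6) .nil .nil))) 
(.lf (nat_lit 257391) (.g (nat_lit 1143) (.e (nat_lit 171776) (nat_lit 176) (.e (nat_lit 1348) (nat_lit 102) (.e (nat_lit 286735) (nat_lit 3) (.e (nat_lit 98363) (nat_lit 26) .nil)))) .nil)))) (.nd (nat_lit 5) (.nd (nat_lit 6) 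
(.lf (nat_lit 257311) (.g (nat_lit 963) (.e (nat_lit 164207) (nat_lit 176) (.e (nat_lit 2798) (nat_lit 180) (.e (nat_lit 303117) (nat_lit 2) (.e (nat_lit 196630) (nat_lit 9) .nil)))) .nil)) 
(.lf (nat_lit 257375) (.g (nat_lit 1881) (.e (nat_lit 164211) (nat_lit 176) (.e (nat_lit 2797) (nat_lit 180) (.e (nat_lit 303119) (nat_lit 3) (.e (nat_lit 204878) (nat_lit 31) .nil)))) .nil))) (.nd (nat_lit 6) 
(.lf (nat_lit 257343) (.g (nat_lit 776) (.e (nat_lit 164209) (nat_lit 176) (.e (nat_lit 2797) (nat_lit 180) (.e (nat_lit 303115) (nat_lit 1) .nil))) .nil)) 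
(.lf (nat_lit 257407) (.g (nat_lit 926) (.e (nat_lit 164219) (nat_lit 180) (.e (nat_lit 237312) (nat_lit 84) (.e (nat_lit 516151) (nat_lit 9) (.e (nat_lit 426211) (nat_lit 9) (.e (nat_lit 426125) (nat_lit 2) (.e (nat_lit 204544) (nat_lit 21) (.e (nat_lit 164371) (nat_lit 249) .nil))))))) (.g (nat_lit 5) .nil .nil))))))))))

noncomputable def tv3331 : DT := (.nd (nat_lit 0) (.nd (nat_lit 1) (.nd (nat_lit 2) (.nd (nat_lit 3) (.nd (nat_lit 4) (.nd (nat_lit 5) 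
(.lf (nat_lit 257408) (.g (nat_lit 3646) (.e (nat_lit 164219) (nat_lit 180) (.e (nat_lit 229643) (nat_lit 232) (.e (nat_lit 1256) (nat_lit 92) (.e (nat_lit 98350) (nat_lit 24) (.e (nat_lit 409616) (nat_lit 10) (.e (nat_lit 5355) (nat_lit 298) (.e (nat_lit 1235) (nat_lit 91) (.e (nat_lit 90165) (nat_lit 12) .nil)))))))) (.g (nat_lit 6) .nil .nil))) 
(.lf (nat_lit 257440) (.g (nat_lit 3887) (.e (nat_lit 164237) (nat_lit 187) (.e (nat_lit 1512) (nat_lit 108) (.e (nat_lit 336017) (nat_lit 3) (.e (nat_lit 98350) (nat_lit 24) (.e (nat_lit 409617) (nat_lit 10) (.e (nat_lit 5355) (nat_lit 298) (.e (nat_lit 1235) (nat_lit 91) (.e (nat_lit 90165) (nat_lit 12) .nil)))))))) (.g (nat_lit 0) .nil .nil)))) (.nd (nat_lit 5) 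
(.lf (nat_lit 257424) (.g (nat_lit 2065) (.e (nat_lit 164232) (nat_lit 185) (.e (nat_lit 163943) (nat_lit 19) (.e (nat_lit 483350) (nat_lit 17) (.e (nat_lit 2298) (nat_lit 151) .nil)))) .nil)) 
(.lf (nat_lit 257456) (.g (nat_lit 2283) (.e (nat_lit 164238) (nat_lit 187) (.e (nat_lit 1234) (nat_lit 91) (.e (nat_lit 90170) (nat_lit 13) (.e (nat_lit 172113) (nat_lit 10) (.e (nat_lit 434248) (nat_lit 28) (.e (nat_lit 573452) (nat_lit 9) (.e (nat_lit 11) (nat_lit 0) (.e (nat_lit 7381) (nat_lit 391) .nil)))))))) (.g (nat_lit 4) .nil .nil))))) (.nd (nat_lit 4) (.nd (nat_lit 5) 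
(.lf (nat_lit 257416) (.g (nat_lit 2185) (.e (nat_lit 171776) (nat_lit 181) (.e (nat_lit 1190) (nat_lit 88) (.e (nat_lit 65571) (nat_lit 3) (.e (nat_lit 98370) (nat_lit 28) (.e (nat_lit 450304) (nat_lit 3) .nil))))) .nil)) 
(.lf (nat_lit 257448) (.g (nat_lit 4241) (.e (nat_lit 164238) (nat_lit 187) (.e (nat_lit 1234) (nat_lit 91) (.e (nat_lit 90170) (nat_lit 13) (.e (nat_lit 172106) (nat_lit 10) (.e (nat_lit 434227) (nat_lit 20) (.e (nat_lit 507930) (nat_lit 10) (.e (nat_lit 5762) (nat_lit 315) .nil))))))) (.g (nat_lit 4) .nil .nil)))) (.nd (nat_lit 5) 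
(.lf (nat_lit 257432) (.g (nat_lit 3529) (.e (nat_lit 164236) (nat_lit 187) (.e (nat_lit 1077) (nat_lit 81) (.e (nat_lit 1796) (nat_lit 119) (.e (nat_lit 516163) (nat_lit 11) (.e (nat_lit 442424) (nat_lit 22) (.e (nat_lit 196628) (nat_lit 9) (.e (nat_lit 968) (nat_lit 81) (.e (nat_lit 6709) (nat_lit 360) .nil)))))))) (.g (nat_lit 7) .nil .nil))) 
(.lf (nat_lit 257464) (.g (nat_lit 3460) (.e (nat_lit 164238) (nat_lit 187) (.e (nat_lit 1235) (nat_lit 91) (.e (nat_lit 90170) (nat_lit 13) (.e (nat_lit 172106) (nat_lit 10) (.e (nat_lit 434227) (nat_lit 20) (.e (nat_lit 507930) (nat_lit 10) (.e (nat_lit 5762) (nat_lit 315) .nil))))))) (.g (nat_lit 5) .nil .nil)))))) (.nd (nat_lit 3) (.nd (nat_lit 4) (.nd (nat_lit 5) 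
(.lf (nat_lit 257412) (.g (nat_lit 583) (.e (nat_lit 164222) (nat_lit 181) (.e (nat_lit 2599) (nat_lit 163) (.e (nat_lit 163975) (nat_lit 30) (.e (nat_lit 573451) (nat_lit 9) .nil)))) .nil)) 
(.lf (nat_lit 257444) (.g (nat_lit 4140) (.e (nat_lit 164238) (nat_lit 187) (.e (nat_lit 1234) (nat_lit 91) (.e (nat_lit 90170) (nat_lit 13) (.e (nat_lit 172106) (nat_lit 10) (.e (nat_lit 434227) (nat_lit 20) (.e (nat_lit 507929) (nat_lit 10) (.e (nat_lit 5760) (nat_lit 315) .nil))))))) (.g (nat_lit 4) .nil .nil)))) (.nd (nat_lit 5) 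
(.lf (nat_lit 257428) (.g (nat_lit 1564) (.e (nat_lit 164235) (nat_lit 187) (.e (nat_lit 1660) (nat_lit 115) (.e (nat_lit 393253) (nat_lit 18) (.e (nat_lit 164150) (nat_lit 152) (.e (nat_lit 1207) (nat_lit 89) .nil))))) .nil)) 
(.lf (nat_lit 257460) (.g (nat_lit 3595) (.e (nat_lit 164238) (nat_lit 187) (.e (nat_lit 1234) (nat_lit 91) (.e (nat_lit 90176) (nat_lit 15) (.e (nat_lit 188452) (nat_lit 23) (.e (nat_lit 204816) (nat_lit 17) .nil))))) .nil)))) (.nd (nat_lit 4) (.nd (nat_lit 5) 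
(.lf (nat_lit 257420) (.g (nat_lit 2279) (.e (nat_lit 171776) (nat_lit 181) (.e (nat_lit 1209) (nat_lit 89) (.e (nat_lit 73747) (nat_lit 3) (.e (nat_lit 516176) (nat_lit 14) (.e (nat_lit 474880) (nat_lit 3) .nil))))) .nil)) 
(.lf (nat_lit 257452) (.g (nat_lit 3614) (.e (nat_lit 164238) (nat_lit 187) (.e (nat_lit 1234) (nat_lit 91) (.e (nat_lit 90170) (nat_lit 13) (.e (nat_lit 172113) (nat_lit 10) (.e (nat_lit 434227) (nat_lit 20) (.e (nat_lit 507929) (nat_lit 10) (.e (nat_lit 5758) (nat_lit 315) .nil))))))) (.g (nat_lit 6) .nil .nil)))) (.nd (nat_lit 5) 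
(.lf (nat_lit 257436) (.g (nat_lit 1238) (.e (nat_lit 164237) (nat_lit 187) (.e (nat_lit 1074) (nat_lit 81) (.e (nat_lit 1796) (nat_lit 119) (.e (nat_lit 516175) (nat_lit 14) (.e (nat_lit 466976) (nat_lit 22) (.e (nat_lit 196628) (nat_lit 9) (.e (nat_lit 968) (nat_lit 81) (.e (nat_lit 6709) (nat_lit 360) .nil)))))))) (.g (nat_lit 5) .nil .nil))) 
(.lf (nat_lit 257468) (.g (nat_lit 2862) (.e (nat_lit 164238) (nat_lit 187) (.e (nat_lit 1235) (nat_lit 91) (.e (nat_lit 90170) (nat_lit 13) (.e (nat_lit 172113) (nat_lit 10) (.e (nat_lit 434227) (nat_lit 20) (.e (nat_lit 507929) (nat_lit 10) (.e (nat_lit 5758) (nat_lit 315) .nil))))))) (.g (nat_lit 5) .nil .nil))))))) (.nd (nat_lit 2) (.nd (nat_lit 3) (.nd (nat_lit 4) (.nd (nat_lit 5) 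
(.lf (nat_lit 257410) (.g (nat_lit 1455) (.e (nat_lit 164220) (nat_lit 181) (.e (nat_lit 1202) (nat_lit 88) (.e (nat_lit 65586) (nat_lit 7) (.e (nat_lit 319531) (nat_lit 16) (.e (nat_lit 286748) (nat_lit 9) .nil))))) .nil)) 
(.lf (nat_lit 257442) (.g (nat_lit 3755) (.e (nat_lit 164237) (nat_lit 187) (.e (nat_lit 1515) (nat_lit 108) (.e (nat_lit 336017) (nat_lit 3) (.e (nat_lit 98350) (nat_lit 24) (.e (nat_lit 409617) (nat_lit 10) (.e (nat_lit 5355) (nat_lit 298) (.e (nat_lit 1235) (nat_lit 91) (.e (nat_lit 90165) (nat_lit 12) .nil)))))))) (.g (nat_lit 0) .nil .nil)))) (.nd (nat_lit 5) 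
(.lf (nat_lit 257426) (.g (nat_lit 3669) (.e (nat_lit 164235) (nat_lit 187) (.e (nat_lit 1074) (nat_lit 81) (.e (nat_lit 1796) (nat_lit 119) (.e (nat_lit 516163) (nat_lit 11) (.e (nat_lit 442424) (nat_lit 22) (.e (nat_lit 196628) (nat_lit 9) (.e (nat_lit 968) (nat_lit 81) (.e (nat_lit 6711) (nat_lit 360) .nil)))))))) (.g (nat_lit 7) .nil .nil))) 
(.lf (nat_lit 257458) (.g (nat_lit 2546) (.e (nat_lit 164238) (nat_lit 187) (.e (nat_lit 1234) (nat_lit 91) (.e (nat_lit 90176) (nat_lit 15) (.e (nat_lit 188447) (nat_lit 22) (.e (nat_lit 196628) (nat_lit 9) (.e (nat_lit 968) (nat_lit 81) (.e (nat_lit 6711) (nat_lit 360) .nil))))))) (.g (nat_lit 4) .nil .nil))))) (.nd (nat_lit 4) (.nd (nat_lit 5) 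
(.lf (nat_lit 257418) (.g (nat_lit 1983) (.e (nat_lit 171776) (nat_lit 181) (.e (nat_lit 1209) (nat_lit 89) (.e (nat_lit 73746) (nat_lit 3) (.e (nat_lit 516176) (nat_lit 14) (.e (nat_lit 474880) (nat_lit 3) .nil))))) .nil)) 
(.lf (nat_lit 257450) (.g (nat_lit 2987) (.e (nat_lit 164238) (nat_lit 187) (.e (nat_lit 1234) (nat_lit 91) (.e (nat_lit 90170) (nat_lit 13) (.e (nat_lit 172106) (nat_lit 10) (.e (nat_lit 434244) (nat_lit 28) (.e (nat_lit 573451) (nat_lit 9) (.e (nat_lit 11) (nat_lit 0) (.e (nat_lit 7381) (nat_lit 391) .nil)))))))) (.g (nat_lit 4) .nil .nil)))) (.nd (nat_lit 5) 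
(.lf (nat_lit 257434) (.g (nat_lit 1635) (.e (nat_lit 164237) (nat_lit 187) (.e (nat_lit 1074) (nat_lit 81) (.e (nat_lit 1796) (nat_lit 119) (.e (nat_lit 516166) (nat_lit 12) (.e (nat_lit 450576) (nat_lit 2) .nil))))) .nil)) 
(.lf (nat_lit 257466) (.g (nat_lit 4144) (.e (nat_lit 164238) (nat_lit 187) (.e (nat_lit 1235) (nat_lit 91) (.e (nat_lit 90170) (nat_lit 13) (.e (nat_lit 172106) (nat_lit 10) (.e (nat_lit 434231) (nat_lit 23) (.e (nat_lit 532490) (nat_lit 0) (.e (nat_lit 7936) (nat_lit 360) .nil))))))) (.g (nat_lit 6) .nil .nil)))))) (.nd (nat_lit 3) (.nd (nat_lit 4) (.nd (nat_lit 5) 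
(.lf (nat_lit 257414) (.g (nat_lit 1933) (.e (nat_lit 164228) (nat_lit 181) (.e (nat_lit 1196) (nat_lit 88) (.e (nat_lit 65571) (nat_lit 3) (.e (nat_lit 98370) (nat_lit 28) (.e (nat_lit 450304) (nat_lit 3) .nil))))) .nil)) 
(.lf (nat_lit 257446) (.g (nat_lit 3996) (.e (nat_lit 164238) (nat_lit 187) (.e (nat_lit 1234) (nat_lit 91) (.e (nat_lit 90170) (nat_lit 13) (.e (nat_lit 172106) (nat_lit 10) (.e (nat_lit 434227) (nat_lit 20) (.e (nat_lit 507930) (nat_lit 10) (.e (nat_lit 5756) (nat_lit 315) .nil))))))) (.g (nat_lit 4) .nil .nil)))) (.nd (nat_lit 5) 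
(.lf (nat_lit 257430) (.g (nat_lit 3669) (.e (nat_lit 164236) (nat_lit 187) (.e (nat_lit 1074) (nat_lit 81) (.e (nat_lit 1796) (nat_lit 119) (.e (nat_lit 516163) (nat_lit 11) (.e (nat_lit 442424) (nat_lit 22) (.e (nat_lit 196628) (nat_lit 9) (.e (nat_lit 968) (nat_lit 81) (.e (nat_lit 6710) (nat_lit 360) .nil)))))))) (.g (nat_lit 7) .nil .nil))) 
(.lf (nat_lit 257462) (.g (nat_lit 3631) (.e (nat_lit 164238) (nat_lit 187) (.e (nat_lit 1235) (nat_lit 91) (.e (nat_lit 90170) (nat_lit 13) (.e (nat_lit 172106) (nat_lit 10) (.e (nat_lit 434227) (nat_lit 20) (.e (nat_lit 507929) (nat_lit 10) (.e (nat_lit 5763) (nat_lit 315) .nil))))))) (.g (nat_lit 5) .nil .nil))))) (.nd (nat_lit 4) (.nd (nat_lit 5) 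
(.lf (nat_lit 257422) (.g (nat_lit 1271) (.e (nat_lit 164231) (nat_lit 184) (.e (nat_lit 122919) (nat_lit 15) (.e (nat_lit 360484) (nat_lit 15) (.e (nat_lit 647179) (nat_lit 2) .nil)))) .nil)) 
(.lf (nat_lit 257454) (.g (nat_lit 3136) (.e (nat_lit 164238) (nat_lit 187) (.e (nat_lit 1234) (nat_lit 91) (.e (nat_lit 90170) (nat_lit 13) (.e (nat_lit 172113) (nat_lit 10) (.e (nat_lit 434227) (nat_lit 20) (.e (nat_lit 507930) (nat_lit 10) (.e (nat_lit 5762) (nat_lit 315) .nil))))))) (.g (nat_lit 5) .nil .nil)))) (.nd (nat_lit 5) 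
(.lf (nat_lit 257438) (.g (nat_lit 1433) (.e (nat_lit 164237) (nat_lit 187) (.e (nat_lit 1077) (nat_lit 81) (.e (nat_lit 1796) (nat_lit 119) (.e (nat_lit 516175) (nat_lit 14) (.e (nat_lit 466976) (nat_lit 22) (.e (nat_lit 196628) (nat_lit 9) (.e (nat_lit 970) (nat_lit 81) (.e (nat_lit 6713) (nat_lit 360) .nil)))))))) (.g (nat_lit 6) .nil .nil))) 
(.lf (nat_lit 257470) (.g (nat_lit 2871) (.e (nat_lit 164238) (nat_lit 187) (.e (nat_lit 1235) (nat_lit 91) (.e (nat_lit 90170) (nat_lit 13) (.e (nat_lit 172113) (nat_lit 10) (.e (nat_lit 434227) (nat_lit 20) (.e (nat_lit 507930) (nat_lit 10) (.e (nat_lit 5758) (nat_lit 315) .nil))))))) (.g (nat_lit 5) .nil .nil)))))))) 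
(.nd (nat_lit 1) (.nd (nat_lit 2) (.nd (nat_lit 3) (.nd (nat_lit 4) (.nd (nat_lit 5) 
(.lf (nat_lit 257409) (.g (nat_lit 3929) (.e (nat_lit 164219) (nat_lit 180) (.e (nat_lit 229643) (nat_lit 232) (.e (nat_lit 1256) (nat_lit 92) (.e (nat_lit 98350) (nat_lit 24) (.e (nat_lit 409617) (nat_lit 10) (.e (nat_lit 5355) (nat_lit 298) (.e (nat_lit 1235) (nat_lit 91) (.e (nat_lit 90165) (nat_lit 12) .nil)))))))) (.g (nat_lit 7) .nil .nil))) 
(.lf (nat_lit 257441) (.g (nat_lit 2786) (.e (nat_lit 164237) (nat_lit 187) (.e (nat_lit 1515) (nat_lit 108) (.e (nat_lit 335872) (nat_lit 0) (.e (nat_lit 1796) (nat_lit 119) (.e (nat_lit 516185) (nat_lit 16) (.e (nat_lit 491560) (nat_lit 10) (.e (nat_lit 352000) (nat_lit 19) (.e (nat_lit 499910) (nat_lit 8) .nil)))))))) (.g (nat_lit 6) .nil .nil)))) (.nd (nat_lit 5) 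
(.lf (nat_lit 257425) (.g (nat_lit 589) (.e (nat_lit 164232) (nat_lit 185) (.e (nat_lit 163944) (nat_lit 19) (.e (nat_lit 483346) (nat_lit 17) .nil))) .nil)) 
(.lf (nat_lit 257457) (.g (nat_lit 2486) (.e (nat_lit 164238) (nat_lit 187) (.e (nat_lit 1234) (nat_lit 91) (.e (nat_lit 90176) (nat_lit 15) (.e (nat_lit 188447) (nat_lit 22) (.e (nat_lit 196628) (nat_lit 9) .nil))))) .nil)))) (.nd (nat_lit 4) (.nd (nat_lit 5) 
(.lf (nat_lit 257417) (.g (nat_lit 2050) (.e (nat_lit 171776) (nat_lit 181) (.e (nat_lit 1209) (nat_lit 89) (.e (nat_lit 73746) (nat_lit 3) (.e (nat_lit 516174) (nat_lit 14) (.e (nat_lit 474880) (nat_lit 3) .nil))))) .nil)) 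
(.lf (nat_lit 257449) (.g (nat_lit 2935) (.e (nat_lit 164238) (nat_lit 187) (.e (nat_lit 1234) (nat_lit 91) (.e (nat_lit 90170) (nat_lit 13) (.e (nat_lit 172106) (nat_lit 10) (.e (nat_lit 434244) (nat_lit 28) .nil))))) .nil))) (.nd (nat_lit 5) 
(.lf (nat_lit 257433) (.g (nat_lit 3568) (.e (nat_lit 164236) (nat_lit 187) (.e (nat_lit 1077) (nat_lit 81) (.e (nat_lit 1796) (nat_lit 119) (.e (nat_lit 516163) (nat_lit 11) (.e (nat_lit 442424) (nat_lit 22) (.e (nat_lit 196628) (nat_lit 9) (.e (nat_lit 968) (nat_lit 81) (.e (nat_lit 6710) (nat_lit 360) .nil)))))))) (.g (nat_lit 7) .nil .nil))) 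
(.lf (nat_lit 257465) (.g (nat_lit 3671) (.e (nat_lit 164238) (nat_lit 187) (.e (nat_lit 1235) (nat_lit 91) (.e (nat_lit 90170) (nat_lit 13) (.e (nat_lit 172106) (nat_lit 10) (.e (nat_lit 434227) (nat_lit 20) (.e (nat_lit 507930) (nat_lit 10) (.e (nat_lit 5763) (nat_lit 315) .nil))))))) (.g (nat_lit 5) .nil .nil)))))) (.nd (nat_lit 3) (.nd (nat_lit 4) (.nd (nat_lit 5) 
(.lf (nat_lit 257413) (.g (nat_lit 1656) (.e (nat_lit 164226) (nat_lit 181) (.e (nat_lit 1077) (nat_lit 81) (.e (nat_lit 1633) (nat_lit 114) (.e (nat_lit 385068) (nat_lit 26) (.e (nat_lit 532560) (nat_lit 14) .nil))))) .nil)) 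
(.lf (nat_lit 257445) (.g (nat_lit 3991) (.e (nat_lit 164238) (nat_lit 187) (.e (nat_lit 1234) (nat_lit 91) (.e (nat_lit 90170) (nat_lit 13) (.e (nat_lit 172106) (nat_lit 10) (.e (nat_lit 434227) (nat_lit 20) (.e (nat_lit 507929) (nat_lit 10) (.e (nat_lit 5762) (nat_lit 315) .nil))))))) (.g (nat_lit 4) .nil .nil)))) (.nd (nat_lit 5) 
(.lf (nat_lit 257429) (.g (nat_lit 3630) (.e (nat_lit 164236) (nat_lit 187) (.e (nat_lit 1074) (nat_lit 81) (.e (nat_lit 1796) (nat_lit 119) (.e (nat_lit 516163) (nat_lit 11) (.e (nat_lit 442424) (nat_lit 22) (.e (nat_lit 196628) (nat_lit 9) (.e (nat_lit 968) (nat_lit 81) (.e (nat_lit 6709) (nat_lit 360) .nil)))))))) (.g (nat_lit 7) .nil .nil))) 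
(.lf (nat_lit 257461) (.g (nat_lit 1252) (.e (nat_lit 164238) (nat_lit 187) (.e (nat_lit 1234) (nat_lit 91) (.e (nat_lit 90185) (nat_lit 17) (.e (nat_lit 237605) (nat_lit 9) .nil)))) .nil)))) (.nd (nat_lit 4) (.nd (nat_lit 5) 
(.lf (nat_lit 257421) (.g (nat_lit 2521) (.e (nat_lit 164231) (nat_lit 184) (.e (nat_lit 122919) (nat_lit 15) (.e (nat_lit 360451) (nat_lit 0) (.e (nat_lit 6850) (nat_lit 371) .nil)))) .nil)) 
(.lf (nat_lit 257453) (.g (nat_lit 3623) (.e (nat_lit 164238) (nat_lit 187) (.e (nat_lit 1234) (nat_lit 91) (.e (nat_lit 90170) (nat_lit 13) (.e (nat_lit 172113) (nat_lit 10) (.e (nat_lit 434227) (nat_lit 20) (.e (nat_lit 507930) (nat_lit 10) (.e (nat_lit 5758) (nat_lit 315) .nil))))))) (.g (nat_lit 6) .nil .nil)))) (.nd (nat_lit 5) 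
(.lf (nat_lit 257437) (.g (nat_lit 1177) (.e (nat_lit 164237) (nat_lit 187) (.e (nat_lit 1077) (nat_lit 81) (.e (nat_lit 1796) (nat_lit 119) (.e (nat_lit 516175) (nat_lit 14) (.e (nat_lit 466976) (nat_lit 22) (.e (nat_lit 196628) (nat_lit 9) (.e (nat_lit 968) (nat_lit 81) (.e (nat_lit 6709) (nat_lit 360) .nil)))))))) (.g (nat_lit 5) .nil .nil))) 
(.lf (nat_lit 257469) (.g (nat_lit 2327) (.e (nat_lit 164238) (nat_lit 187) (.e (nat_lit 1235) (nat_lit 91) (.e (nat_lit 90170) (nat_lit 13) (.e (nat_lit 172113) (nat_lit 10) (.e (nat_lit 434227) (nat_lit 20) (.e (nat_lit 507929) (nat_lit 10) (.e (nat_lit 5760) (nat_lit 315) .nil))))))) (.g (nat_lit 4) .nil .nil))))))) (.nd (nat_lit 2) (.nd (nat_lit 3) (.nd (nat_lit 4) (.nd (nat_lit 5) 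
(.lf (nat_lit 257411) (.g (nat_lit 842) (.e (nat_lit 164220) (nat_lit 181) (.e (nat_lit 1207) (nat_lit 89) (.e (nat_lit 73746) (nat_lit 3) (.e (nat_lit 516174) (nat_lit 14) .nil)))) .nil)) 
(.lf (nat_lit 257443) (.g (nat_lit 3501) (.e (nat_lit 164238) (nat_lit 187) (.e (nat_lit 1234) (nat_lit 91) (.e (nat_lit 90170) (nat_lit 13) (.e (nat_lit 172106) (nat_lit 10) (.e (nat_lit 434227) (nat_lit 20) .nil))))) .nil))) (.nd (nat_lit 5) 
(.lf (nat_lit 257427) (.g (nat_lit 3568) (.e (nat_lit 164235) (nat_lit 187) (.e (nat_lit 1074) (nat_lit 81) (.e (nat_lit 1796) (nat_lit 119) (.e (nat_lit 516163) (nat_lit 11) (.e (nat_lit 442424) (nat_lit 22) (.e (nat_lit 196628) (nat_lit 9) (.e (nat_lit 970) (nat_lit 81) (.e (nat_lit 6711) (nat_lit 360) .nil)))))))) (.g (nat_lit 7) .nil .nil))) 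
(.lf (nat_lit 257459) (.g (nat_lit 2061) (.e (nat_lit 164238) (nat_lit 187) (.e (nat_lit 1234) (nat_lit 91) (.e (nat_lit 90176) (nat_lit 15) (.e (nat_lit 188450) (nat_lit 23) (.e (nat_lit 204821) (nat_lit 17) .nil))))) .nil)))) (.nd (nat_lit 4) (.nd (nat_lit 5) 
(.lf (nat_lit 257419) (.g (nat_lit 2453) (.e (nat_lit 171776) (nat_lit 181) (.e (nat_lit 1209) (nat_lit 89) (.e (nat_lit 73747) (nat_lit 3) (.e (nat_lit 516174) (nat_lit 14) (.e (nat_lit 474880) (nat_lit 3) .nil))))) .nil)) 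
(.lf (nat_lit 257451) (.g (nat_lit 2200) (.e (nat_lit 164238) (nat_lit 187) (.e (nat_lit 1234) (nat_lit 91) (.e (nat_lit 90170) (nat_lit 13) (.e (nat_lit 172113) (nat_lit 10) (.e (nat_lit 434227) (nat_lit 20) .nil))))) .nil))) (.nd (nat_lit 5) 
(.lf (nat_lit 257435) (.g (nat_lit 630) (.e (nat_lit 164237) (nat_lit 187) (.e (nat_lit 1074) (nat_lit 81) (.e (nat_lit 1796) (nat_lit 119) (.e (nat_lit 516175) (nat_lit 14) .nil)))) .nil)) 
(.lf (nat_lit 257467) (.g (nat_lit 1866) (.e (nat_lit 164238) (nat_lit 187) (.e (nat_lit 1235) (nat_lit 91) (.e (nat_lit 90170) (nat_lit 13) (.e (nat_lit 172113) (nat_lit 10) (.e (nat_lit 434227) (nat_lit 20) .nil))))) .nil))))) (.nd (nat_lit 3) (.nd (nat_lit 4) (.nd (nat_lit 5) 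
(.lf (nat_lit 257415) (.g (nat_lit 1933) (.e (nat_lit 164229) (nat_lit 181) (.e (nat_lit 1196) (nat_lit 88) (.e (nat_lit 65571) (nat_lit 3) (.e (nat_lit 98370) (nat_lit 28) (.e (nat_lit 450304) (nat_lit 3) .nil))))) .nil)) 
(.lf (nat_lit 257447) (.g (nat_lit 4914) (.e (nat_lit 164238) (nat_lit 187) (.e (nat_lit 1234) (nat_lit 91) (.e (nat_lit 90170) (nat_lit 13) (.e (nat_lit 172106) (nat_lit 10) (.e (nat_lit 434227) (nat_lit 20) (.e (nat_lit 507930) (nat_lit 10) (.e (nat_lit 5760) (nat_lit 315) .nil))))))) (.g (nat_lit 6) .nil .nil)))) (.nd (nat_lit 5) 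
(.lf (nat_lit 257431) (.g (nat_lit 1645) (.e (nat_lit 164236) (nat_lit 187) (.e (nat_lit 1074) (nat_lit 81) (.e (nat_lit 1796) (nat_lit 119) (.e (nat_lit 516175) (nat_lit 14) (.e (nat_lit 466976) (nat_lit 22) (.e (nat_lit 196628) (nat_lit 9) (.e (nat_lit 968) (nat_lit 81) (.e (nat_lit 6713) (nat_lit 360) .nil)))))))) (.g (nat_lit 6) .nil .nil))) 
(.lf (nat_lit 257463) (.g (nat_lit 3947) (.e (nat_lit 164238) (nat_lit 187) (.e (nat_lit 1235) (nat_lit 91) (.e (nat_lit 90170) (nat_lit 13) (.e (nat_lit 172106) (nat_lit 10) (.e (nat_lit 434227) (nat_lit 20) (.e (nat_lit 507930) (nat_lit 10) (.e (nat_lit 5758) (nat_lit 315) .nil))))))) (.g (nat_lit 6) .nil .nil))))) (.nd (nat_lit 4) (.nd (nat_lit 5) 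
(.lf (nat_lit 257423) (.g (nat_lit 1164) (.e (nat_lit 164232) (nat_lit 185) (.e (nat_lit 163907) (nat_lit 12) (.e (nat_lit 426428) (nat_lit 17) .nil))) .nil)) 
(.lf (nat_lit 257455) (.g (nat_lit 2701) (.e (nat_lit 164238) (nat_lit 187) (.e (nat_lit 1234) (nat_lit 91) (.e (nat_lit 90170) (nat_lit 13) (.e (nat_lit 172113) (nat_lit 10) (.e (nat_lit 434245) (nat_lit 28) (.e (nat_lit 573451) (nat_lit 9) (.e (nat_lit 11) (nat_lit 0) (.e (nat_lit 7381) (nat_lit 391) .nil)))))))) (.g (nat_lit 4) .nil .nil)))) (.nd (nat_lit 5) 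
(.lf (nat_lit 257439) (.g (nat_lit 2823) (.e (nat_lit 164237) (nat_lit 187) (.e (nat_lit 1512) (nat_lit 108) (.e (nat_lit 335872) (nat_lit 0) (.e (nat_lit 1796) (nat_lit 119) (.e (nat_lit 516185) (nat_lit 16) (.e (nat_lit 491560) (nat_lit 10) (.e (nat_lit 352000) (nat_lit 19) (.e (nat_lit 499910) (nat_lit 8) .nil)))))))) (.g (nat_lit 6) .nil .nil))) 
(.lf (nat_lit 257471) (.g (nat_lit 2384) (.e (nat_lit 164238) (nat_lit 187) (.e (nat_lit 1235) (nat_lit 91) (.e (nat_lit 90170) (nat_lit 13) (.e (nat_lit 172113) (nat_lit 10) (.e (nat_lit 434227) (nat_lit 20) (.e (nat_lit 507930) (nat_lit 10) (.e (nat_lit 5762) (nat_lit 315) .nil))))))) (.g (nat_lit 4) .nil .nil)))))))))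

noncomputable def tv3332 : DT := (.nd (nat_lit 0) (.nd (nat_lit 1) (.nd (nat_lit 2) (.nd (nat_lit 3) (.nd (nat_lit 4) (.nd (nat_lit 5) 
(.lf (nat_lit 257472) (.g (nat_lit 2180) (.e (nat_lit 164238) (nat_lit 187) (.e (nat_lit 1235) (nat_lit 91) (.e (nat_lit 90176) (nat_lit 15) (.e (nat_lit 188447) (nat_lit 22) (.e (nat_lit 196628) (nat_lit 9) .nil))))) .nil)) 
(.lf (nat_lit 257504) (.g (nat_lit 4514) (.e (nat_lit 164238) (nat_lit 187) (.e (nat_lit 1253) (nat_lit 92) (.e (nat_lit 98373) (nat_lit 29) (.e (nat_lit 450588) (nat_lit 10) (.e (nat_lit 573474) (nat_lit 12) (.e (nat_lit 57348) (nat_lit 0) (.e (nat_lit 6852) (nat_lit 371) (.e (nat_lit 2612) (nat_lit 163) .nil)))))))) (.g (nat_lit 5) .nil .nil)))) (.nd (nat_lit 5) 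
(.lf (nat_lit 257488) (.g (nat_lit 3427) (.e (nat_lit 164238) (nat_lit 187) (.e (nat_lit 1253) (nat_lit 92) (.e (nat_lit 98373) (nat_lit 29) (.e (nat_lit 450587) (nat_lit 10) (.e (nat_lit 573473) (nat_lit 12) (.e (nat_lit 57567) (nat_lit 52) (.e (nat_lit 753685) (nat_lit 8) .nil))))))) (.g (nat_lit 5) .nil .nil))) 
(.lf (nat_lit 257520) (.g (nat_lit 1598) (.e (nat_lit 164238) (nat_lit 187) (.e (nat_lit 1427) (nat_lit 108) (.e (nat_lit 336450) (nat_lit 33) (.e (nat_lit 475145) (nat_lit 16) .nil)))) .nil)))) (.nd (nat_lit 4) (.nd (nat_lit 5) 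
(.lf (nat_lit 257480) (.g (nat_lit 3060) (.e (nat_lit 164238) (nat_lit 187) (.e (nat_lit 1253) (nat_lit 92) (.e (nat_lit 98373) (nat_lit 29) (.e (nat_lit 450576) (nat_lit 2) (.e (nat_lit 507929) (nat_lit 10) .nil))))) .nil)) 
(.lf (nat_lit 257512) (.g (nat_lit 2446) (.e (nat_lit 164238) (nat_lit 187) (.e (nat_lit 1427) (nat_lit 108) (.e (nat_lit 336369) (nat_lit 27) (.e (nat_lit 426109) (nat_lit 1) (.e (nat_lit 164163) (nat_lit 152) .nil))))) .nil))) (.nd (nat_lit 5) 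
(.lf (nat_lit 257496) (.g (nat_lit 3738) (.e (nat_lit 164238) (nat_lit 187) (.e (nat_lit 1253) (nat_lit 92) (.e (nat_lit 98373) (nat_lit 29) (.e (nat_lit 450587) (nat_lit 10) (.e (nat_lit 573475) (nat_lit 12) (.e (nat_lit 57565) (nat_lit 52) (.e (nat_lit 753686) (nat_lit 8) .nil))))))) (.g (nat_lit 5) .nil .nil))) 
(.lf (nat_lit 257528) (.g (nat_lit 4247) (.e (nat_lit 164238) (nat_lit 187) (.e (nat_lit 1638) (nat_lit 114) (.e (nat_lit 385073) (nat_lit 31) (.e (nat_lit 573482) (nat_lit 13) (.e (nat_lit 65604) (nat_lit 9) (.e (nat_lit 336013) (nat_lit 2) (.e (nat_lit 90165) (nat_lit 12) .nil))))))) (.g (nat_lit 0) .nil .nil)))))) (.nd (nat_lit 3) (.nd (nat_lit 4) (.nd (nat_lit 5) 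
(.lf (nat_lit 257476) (.g (nat_lit 3218) (.e (nat_lit 164238) (nat_lit 187) (.e (nat_lit 1252) (nat_lit 92) (.e (nat_lit 98370) (nat_lit 28) (.e (nat_lit 442424) (nat_lit 22) (.e (nat_lit 196628) (nat_lit 9) (.e (nat_lit 968) (nat_lit 81) (.e (nat_lit 6713) (nat_lit 360) .nil))))))) (.g (nat_lit 5) .nil .nil))) 
(.lf (nat_lit 257508) (.g (nat_lit 3865) (.e (nat_lit 164238) (nat_lit 187) (.e (nat_lit 1425) (nat_lit 108) (.e (nat_lit 336306) (nat_lit 15) (.e (nat_lit 3308) (nat_lit 202) (.e (nat_lit 573482) (nat_lit 13) (.e (nat_lit 65604) (nat_lit 9) (.e (nat_lit 336013) (nat_lit 2) (.e (nat_lit 90165) (nat_lit 12) .nil)))))))) (.g (nat_lit 0) .nil .nil)))) (.nd (nat_lit 5) 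
(.lf (nat_lit 257492) (.g (nat_lit 2451) (.e (nat_lit 164238) (nat_lit 187) (.e (nat_lit 1253) (nat_lit 92) (.e (nat_lit 98373) (nat_lit 29) (.e (nat_lit 450587) (nat_lit 10) (.e (nat_lit 573475) (nat_lit 12) (.e (nat_lit 57345) (nat_lit 0) (.e (nat_lit 6923) (nat_lit 371) (.e (nat_lit 2601) (nat_lit 163) .nil)))))))) (.g (nat_lit 4) .nil .nil))) 
(.lf (nat_lit 257524) (.g (nat_lit 1547) (.e (nat_lit 164238) (nat_lit 187) (.e (nat_lit 1428) (nat_lit 108) (.e (nat_lit 336425) (nat_lit 28) (.e (nat_lit 434289) (nat_lit 43) (.e (nat_lit 696362) (nat_lit 17) .nil))))) .nil)))) (.nd (nat_lit 4) (.nd (nat_lit 5) 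
(.lf (nat_lit 257484) (.g (nat_lit 2375) (.e (nat_lit 164238) (nat_lit 187) (.e (nat_lit 1253) (nat_lit 92) (.e (nat_lit 98373) (nat_lit 29) (.e (nat_lit 450587) (nat_lit 10) (.e (nat_lit 573473) (nat_lit 12) (.e (nat_lit 57348) (nat_lit 0) (.e (nat_lit 6850) (nat_lit 371) (.e (nat_lit 2612) (nat_lit 163) .nil)))))))) (.g (nat_lit 4) .nil .nil))) 
(.lf (nat_lit 257516) (.g (nat_lit 2481) (.e (nat_lit 164238) (nat_lit 187) (.e (nat_lit 1427) (nat_lit 108) (.e (nat_lit 336395) (nat_lit 27) (.e (nat_lit 426109) (nat_lit 1) (.e (nat_lit 164163) (nat_lit 152) (.e (nat_lit 1211) (nat_lit 89) (.e (nat_lit 73755) (nat_lit 8) (.e (nat_lit 557091) (nat_lit 12) .nil)))))))) (.g (nat_lit 4) .nil .nil)))) (.nd (nat_lit 5) 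
(.lf (nat_lit 257500) (.g (nat_lit 3312) (.e (nat_lit 164238) (nat_lit 187) (.e (nat_lit 1253) (nat_lit 92) (.e (nat_lit 98373) (nat_lit 29) (.e (nat_lit 450587) (nat_lit 10) (.e (nat_lit 573475) (nat_lit 12) (.e (nat_lit 57567) (nat_lit 52) (.e (nat_lit 753686) (nat_lit 8) .nil))))))) (.g (nat_lit 5) .nil .nil))) 
(.lf (nat_lit 257532) (.g (nat_lit 4823) (.e (nat_lit 164238) (nat_lit 187) (.e (nat_lit 1638) (nat_lit 114) (.e (nat_lit 385074) (nat_lit 31) (.e (nat_lit 573485) (nat_lit 13) (.e (nat_lit 65604) (nat_lit 9) (.e (nat_lit 336013) (nat_lit 2) (.e (nat_lit 90165) (nat_lit 12) .nil))))))) (.g (nat_lit 0) .nil .nil))))))) (.nd (nat_lit 2) (.nd (nat_lit 3) (.nd (nat_lit 4) (.nd (nat_lit 5) 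
(.lf (nat_lit 257474) (.g (nat_lit 1262) (.e (nat_lit 164238) (nat_lit 187) (.e (nat_lit 1235) (nat_lit 91) (.e (nat_lit 90185) (nat_lit 17) (.e (nat_lit 237605) (nat_lit 9) .nil)))) .nil)) 
(.lf (nat_lit 257506) (.g (nat_lit 897) (.e (nat_lit 164238) (nat_lit 187) (.e (nat_lit 1253) (nat_lit 92) (.e (nat_lit 98381) (nat_lit 31) (.e (nat_lit 466976) (nat_lit 22) .nil)))) .nil))) (.nd (nat_lit 5) 
(.lf (nat_lit 257490) (.g (nat_lit 3461) (.e (nat_lit 164238) (nat_lit 187) (.e (nat_lit 1253) (nat_lit 92) (.e (nat_lit 98373) (nat_lit 29) (.e (nat_lit 450587) (nat_lit 10) (.e (nat_lit 573475) (nat_lit 12) (.e (nat_lit 57345) (nat_lit 0) (.e (nat_lit 6853) (nat_lit 371) (.e (nat_lit 2604) (nat_lit 163) .nil)))))))) (.g (nat_lit 5) .nil .nil))) 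
(.lf (nat_lit 257522) (.g (nat_lit 3743) (.e (nat_lit 164238) (nat_lit 187) (.e (nat_lit 1428) (nat_lit 108) (.e (nat_lit 336306) (nat_lit 15) (.e (nat_lit 3308) (nat_lit 202) (.e (nat_lit 573493) (nat_lit 15) (.e (nat_lit 81953) (nat_lit 22) (.e (nat_lit 90165) (nat_lit 12) .nil))))))) (.g (nat_lit 0) .nil .nil))))) (.nd (nat_lit 4) (.nd (nat_lit 5) 
(.lf (nat_lit 257482) (.g (nat_lit 3755) (.e (nat_lit 164238) (nat_lit 187) (.e (nat_lit 1253) (nat_lit 92) (.e (nat_lit 98373) (nat_lit 29) (.e (nat_lit 450579) (nat_lit 5) (.e (nat_lit 532481) (nat_lit 0) .nil))))) .nil)) 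
(.lf (nat_lit 257514) (.g (nat_lit 3777) (.e (nat_lit 164238) (nat_lit 187) (.e (nat_lit 1427) (nat_lit 108) (.e (nat_lit 336369) (nat_lit 27) (.e (nat_lit 426109) (nat_lit 1) (.e (nat_lit 164163) (nat_lit 152) (.e (nat_lit 1211) (nat_lit 89) (.e (nat_lit 73754) (nat_lit 8) (.e (nat_lit 557093) (nat_lit 12) .nil)))))))) (.g (nat_lit 4) .nil .nil)))) (.nd (nat_lit 5) 
(.lf (nat_lit 257498) (.g (nat_lit 3284) (.e (nat_lit 164238) (nat_lit 187) (.e (nat_lit 1253) (nat_lit 92) (.e (nat_lit 98373) (nat_lit 29) (.e (nat_lit 450587) (nat_lit 10) (.e (nat_lit 573475) (nat_lit 12) (.e (nat_lit 57567) (nat_lit 52) (.e (nat_lit 753684) (nat_lit 8) .nil))))))) (.g (nat_lit 5) .nil .nil))) 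
(.lf (nat_lit 257530) (.g (nat_lit 3834) (.e (nat_lit 164238) (nat_lit 187) (.e (nat_lit 1638) (nat_lit 114) (.e (nat_lit 385073) (nat_lit 31) (.e (nat_lit 573493) (nat_lit 15) (.e (nat_lit 81951) (nat_lit 22) (.e (nat_lit 90165) (nat_lit 12) .nil)))))) (.g (nat_lit 5) .nil .nil)))))) (.nd (nat_lit 3) (.nd (nat_lit 4) (.nd (nat_lit 5) 
(.lf (nat_lit 257478) (.g (nat_lit 2889) (.e (nat_lit 164238) (nat_lit 187) (.e (nat_lit 1253) (nat_lit 92) (.e (nat_lit 98370) (nat_lit 28) (.e (nat_lit 442424) (nat_lit 22) (.e (nat_lit 196628) (nat_lit 9) (.e (nat_lit 968) (nat_lit 81) (.e (nat_lit 6713) (nat_lit 360) .nil))))))) (.g (nat_lit 4) .nil .nil))) 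
(.lf (nat_lit 257510) (.g (nat_lit 3371) (.e (nat_lit 164238) (nat_lit 187) (.e (nat_lit 1425) (nat_lit 108) (.e (nat_lit 336306) (nat_lit 15) (.e (nat_lit 3308) (nat_lit 202) (.e (nat_lit 573493) (nat_lit 15) (.e (nat_lit 81953) (nat_lit 22) (.e (nat_lit 90165) (nat_lit 12) .nil))))))) (.g (nat_lit 0) .nil .nil)))) (.nd (nat_lit 5) 
(.lf (nat_lit 257494) (.g (nat_lit 2363) (.e (nat_lit 164238) (nat_lit 187) (.e (nat_lit 1253) (nat_lit 92) (.e (nat_lit 98373) (nat_lit 29) (.e (nat_lit 450587) (nat_lit 10) (.e (nat_lit 573475) (nat_lit 12) (.e (nat_lit 57346) (nat_lit 0) (.e (nat_lit 6920) (nat_lit 371) (.e (nat_lit 2611) (nat_lit 163) .nil)))))))) (.g (nat_lit 4) .nil .nil))) 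
(.lf (nat_lit 257526) (.g (nat_lit 5181) (.e (nat_lit 164238) (nat_lit 187) (.e (nat_lit 1638) (nat_lit 114) (.e (nat_lit 385072) (nat_lit 31) (.e (nat_lit 573493) (nat_lit 15) (.e (nat_lit 81953) (nat_lit 22) (.e (nat_lit 90165) (nat_lit 12) .nil)))))) (.g (nat_lit 0) .nil .nil))))) (.nd (nat_lit 4) (.nd (nat_lit 5) 
(.lf (nat_lit 257486) (.g (nat_lit 2519) (.e (nat_lit 164238) (nat_lit 187) (.e (nat_lit 1253) (nat_lit 92) (.e (nat_lit 98373) (nat_lit 29) (.e (nat_lit 450587) (nat_lit 10) (.e (nat_lit 573473) (nat_lit 12) (.e (nat_lit 57348) (nat_lit 0) (.e (nat_lit 6923) (nat_lit 371) (.e (nat_lit 2611) (nat_lit 163) .nil)))))))) (.g (nat_lit 4) .nil .nil))) 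
(.lf (nat_lit 257518) (.g (nat_lit 739) (.e (nat_lit 164238) (nat_lit 187) (.e (nat_lit 1427) (nat_lit 108) (.e (nat_lit 336425) (nat_lit 28) .nil))) .nil))) (.nd (nat_lit 5) 
(.lf (nat_lit 257502) (.g (nat_lit 3142) (.e (nat_lit 164238) (nat_lit 187) (.e (nat_lit 1253) (nat_lit 92) (.e (nat_lit 98373) (nat_lit 29) (.e (nat_lit 450588) (nat_lit 10) (.e (nat_lit 573451) (nat_lit 9) (.e (nat_lit 11) (nat_lit 0) (.e (nat_lit 7383) (nat_lit 391) .nil))))))) (.g (nat_lit 4) .nil .nil))) 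
(.lf (nat_lit 257534) (.g (nat_lit 4184) (.e (nat_lit 164238) (nat_lit 187) (.e (nat_lit 1638) (nat_lit 114) (.e (nat_lit 385074) (nat_lit 31) (.e (nat_lit 573493) (nat_lit 15) (.e (nat_lit 81953) (nat_lit 22) (.e (nat_lit 90165) (nat_lit 12) .nil)))))) (.g (nat_lit 0) .nil .nil)))))))) (.nd (nat_lit 1) (.nd (nat_lit 2) (.nd (nat_lit 3) (.nd (nat_lit 4) (.nd (nat_lit 5) 
(.lf (nat_lit 257473) (.g (nat_lit 2245) (.e (nat_lit 164238) (nat_lit 187) (.e (nat_lit 1235) (nat_lit 91) (.e (nat_lit 90176) (nat_lit 15) (.e (nat_lit 188447) (nat_lit 22) (.e (nat_lit 196628) (nat_lit 9) (.e (nat_lit 968) (nat_lit 81) (.e (nat_lit 6713) (nat_lit 360) .nil))))))) (.g (nat_lit 4) .nil .nil))) 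
(.lf (nat_lit 257505) (.g (nat_lit 4514) (.e (nat_lit 164238) (nat_lit 187) (.e (nat_lit 1253) (nat_lit 92) (.e (nat_lit 98373) (nat_lit 29) (.e (nat_lit 450588) (nat_lit 10) (.e (nat_lit 573474) (nat_lit 12) (.e (nat_lit 57348) (nat_lit 0) (.e (nat_lit 6853) (nat_lit 371) (.e (nat_lit 2612) (nat_lit 163) .nil)))))))) (.g (nat_lit 5) .nil .nil)))) (.nd (nat_lit 5) 
(.lf (nat_lit 257489) (.g (nat_lit 3446) (.e (nat_lit 164238) (nat_lit 187) (.e (nat_lit 1253) (nat_lit 92) (.e (nat_lit 98373) (nat_lit 29) (.e (nat_lit 450587) (nat_lit 10) (.e (nat_lit 573473) (nat_lit 12) (.e (nat_lit 57567) (nat_lit 52) (.e (nat_lit 753686) (nat_lit 8) .nil))))))) (.g (nat_lit 5) .nil .nil))) 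
(.lf (nat_lit 257521) (.g (nat_lit 3089) (.e (nat_lit 164238) (nat_lit 187) (.e (nat_lit 1428) (nat_lit 108) (.e (nat_lit 336306) (nat_lit 15) (.e (nat_lit 3298) (nat_lit 202) (.e (nat_lit 573492) (nat_lit 15) (.e (nat_lit 81953) (nat_lit 22) (.e (nat_lit 90165) (nat_lit 12) .nil))))))) (.g (nat_lit 0) .nil .nil))))) (.nd (nat_lit 4) (.nd (nat_lit 5) 
(.lf (nat_lit 257481) (.g (nat_lit 3059) (.e (nat_lit 164238) (nat_lit 187) (.e (nat_lit 1253) (nat_lit 92) (.e (nat_lit 98373) (nat_lit 29) (.e (nat_lit 450576) (nat_lit 2) (.e (nat_lit 507930) (nat_lit 10) .nil))))) .nil)) 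
(.lf (nat_lit 257513) (.g (nat_lit 3159) (.e (nat_lit 164238) (nat_lit 187) (.e (nat_lit 1427) (nat_lit 108) (.e (nat_lit 336369) (nat_lit 27) (.e (nat_lit 426109) (nat_lit 1) (.e (nat_lit 164163) (nat_lit 152) (.e (nat_lit 1210) (nat_lit 89) (.e (nat_lit 73754) (nat_lit 8) (.e (nat_lit 557094) (nat_lit 12) .nil)))))))) (.g (nat_lit 4) .nil .nil)))) (.nd (nat_lit 5) 
(.lf (nat_lit 257497) (.g (nat_lit 3477) (.e (nat_lit 164238) (nat_lit 187) (.e (nat_lit 1253) (nat_lit 92) (.e (nat_lit 98373) (nat_lit 29) (.e (nat_lit 450587) (nat_lit 10) (.e (nat_lit 573475) (nat_lit 12) (.e (nat_lit 57566) (nat_lit 52) (.e (nat_lit 753686) (nat_lit 8) .nil))))))) (.g (nat_lit 5) .nil .nil))) 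
(.lf (nat_lit 257529) (.g (nat_lit 4132) (.e (nat_lit 164238) (nat_lit 187) (.e (nat_lit 1638) (nat_lit 114) (.e (nat_lit 385073) (nat_lit 31) (.e (nat_lit 573485) (nat_lit 13) (.e (nat_lit 65604) (nat_lit 9) (.e (nat_lit 336013) (nat_lit 2) (.e (nat_lit 90165) (nat_lit 12) .nil))))))) (.g (nat_lit 0) .nil .nil)))))) (.nd (nat_lit 3) (.nd (nat_lit 4) (.nd (nat_lit 5) 
(.lf (nat_lit 257477) (.g (nat_lit 1689) (.e (nat_lit 164238) (nat_lit 187) (.e (nat_lit 1252) (nat_lit 92) (.e (nat_lit 98373) (nat_lit 29) (.e (nat_lit 450576) (nat_lit 2) .nil)))) .nil)) 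
(.lf (nat_lit 257509) (.g (nat_lit 2625) (.e (nat_lit 164238) (nat_lit 187) (.e (nat_lit 1425) (nat_lit 108) (.e (nat_lit 336306) (nat_lit 15) (.e (nat_lit 3308) (nat_lit 202) (.e (nat_lit 573491) (nat_lit 15) (.e (nat_lit 81951) (nat_lit 22) (.e (nat_lit 90165) (nat_lit 12) .nil))))))) (.g (nat_lit 0) .nil .nil)))) (.nd (nat_lit 5) 
(.lf (nat_lit 257493) (.g (nat_lit 3238) (.e (nat_lit 164238) (nat_lit 187) (.e (nat_lit 1253) (nat_lit 92) (.e (nat_lit 98373) (nat_lit 29) (.e (nat_lit 450587) (nat_lit 10) (.e (nat_lit 573475) (nat_lit 12) (.e (nat_lit 57345) (nat_lit 0) (.e (nat_lit 6923) (nat_lit 371) (.e (nat_lit 2610) (nat_lit 163) .nil)))))))) (.g (nat_lit 5) .nil .nil))) 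
(.lf (nat_lit 257525) (.g (nat_lit 4079) (.e (nat_lit 164238) (nat_lit 187) (.e (nat_lit 1635) (nat_lit 114) (.e (nat_lit 385074) (nat_lit 31) (.e (nat_lit 573485) (nat_lit 13) (.e (nat_lit 65604) (nat_lit 9) (.e (nat_lit 336013) (nat_lit 2) (.e (nat_lit 90165) (nat_lit 12) .nil))))))) (.g (nat_lit 0) .nil .nil))))) (.nd (nat_lit 4) (.nd (nat_lit 5) 
(.lf (nat_lit 257485) (.g (nat_lit 2240) (.e (nat_lit 164238) (nat_lit 187) (.e (nat_lit 1253) (nat_lit 92) (.e (nat_lit 98373) (nat_lit 29) (.e (nat_lit 450587) (nat_lit 10) (.e (nat_lit 573473) (nat_lit 12) (.e (nat_lit 57348) (nat_lit 0) (.e (nat_lit 6923) (nat_lit 371) (.e (nat_lit 2601) (nat_lit 163) .nil)))))))) (.g (nat_lit 4) .nil .nil))) 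
(.lf (nat_lit 257517) (.g (nat_lit 833) (.e (nat_lit 164238) (nat_lit 187) (.e (nat_lit 1427) (nat_lit 108) (.e (nat_lit 336421) (nat_lit 28) .nil))) .nil))) (.nd (nat_lit 5) 
(.lf (nat_lit 257501) (.g (nat_lit 3893) (.e (nat_lit 164238) (nat_lit 187) (.e (nat_lit 1253) (nat_lit 92) (.e (nat_lit 98373) (nat_lit 29) (.e (nat_lit 450588) (nat_lit 10) (.e (nat_lit 573451) (nat_lit 9) (.e (nat_lit 11) (nat_lit 0) (.e (nat_lit 7381) (nat_lit 391) .nil))))))) (.g (nat_lit 5) .nil .nil))) 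
(.lf (nat_lit 257533) (.g (nat_lit 3637) (.e (nat_lit 164238) (nat_lit 187) (.e (nat_lit 1638) (nat_lit 114) (.e (nat_lit 385074) (nat_lit 31) (.e (nat_lit 573491) (nat_lit 15) (.e (nat_lit 81951) (nat_lit 22) (.e (nat_lit 90165) (nat_lit 12) .nil)))))) (.g (nat_lit 0) .nil .nil))))))) (.nd (nat_lit 2) (.nd (nat_lit 3) (.nd (nat_lit 4) (.nd (nat_lit 5) 
(.lf (nat_lit 257475) (.g (nat_lit 2267) (.e (nat_lit 164238) (nat_lit 187) (.e (nat_lit 1252) (nat_lit 92) (.e (nat_lit 98370) (nat_lit 28) (.e (nat_lit 442424) (nat_lit 22) (.e (nat_lit 196628) (nat_lit 9) (.e (nat_lit 968) (nat_lit 81) (.e (nat_lit 6711) (nat_lit 360) .nil))))))) (.g (nat_lit 4) .nil .nil))) 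
(.lf (nat_lit 257507) (.g (nat_lit 2713) (.e (nat_lit 164238) (nat_lit 187) (.e (nat_lit 1425) (nat_lit 108) (.e (nat_lit 336306) (nat_lit 15) (.e (nat_lit 3298) (nat_lit 202) (.e (nat_lit 573492) (nat_lit 15) (.e (nat_lit 81953) (nat_lit 22) (.e (nat_lit 90165) (nat_lit 12) .nil))))))) (.g (nat_lit 0) .nil .nil)))) (.nd (nat_lit 5) 
(.lf (nat_lit 257491) (.g (nat_lit 2270) (.e (nat_lit 164238) (nat_lit 187) (.e (nat_lit 1253) (nat_lit 92) (.e (nat_lit 98373) (nat_lit 29) (.e (nat_lit 450587) (nat_lit 10) (.e (nat_lit 573475) (nat_lit 12) (.e (nat_lit 57345) (nat_lit 0) (.e (nat_lit 6869) (nat_lit 371) (.e (nat_lit 2608) (nat_lit 163) .nil)))))))) (.g (nat_lit 4) .nil .nil))) 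
(.lf (nat_lit 257523) (.g (nat_lit 2044) (.e (nat_lit 164238) (nat_lit 187) (.e (nat_lit 1428) (nat_lit 108) (.e (nat_lit 336369) (nat_lit 27) (.e (nat_lit 426109) (nat_lit 1) (.e (nat_lit 164163) (nat_lit 152) .nil))))) .nil)))) (.nd (nat_lit 4) (.nd (nat_lit 5) 
(.lf (nat_lit 257483) (.g (nat_lit 2030) (.e (nat_lit 164238) (nat_lit 187) (.e (nat_lit 1253) (nat_lit 92) (.e (nat_lit 98373) (nat_lit 29) (.e (nat_lit 450587) (nat_lit 10) (.e (nat_lit 573473) (nat_lit 12) .nil))))) .nil)) 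
(.lf (nat_lit 257515) (.g (nat_lit 1390) (.e (nat_lit 164238) (nat_lit 187) (.e (nat_lit 1427) (nat_lit 108) (.e (nat_lit 336395) (nat_lit 27) (.e (nat_lit 426109) (nat_lit 1) .nil)))) .nil))) (.nd (nat_lit 5) 
(.lf (nat_lit 257499) (.g (nat_lit 3293) (.e (nat_lit 164238) (nat_lit 187) (.e (nat_lit 1253) (nat_lit 92) (.e (nat_lit 98373) (nat_lit 29) (.e (nat_lit 450587) (nat_lit 10) (.e (nat_lit 573475) (nat_lit 12) (.e (nat_lit 57567) (nat_lit 52) (.e (nat_lit 753685) (nat_lit 8) .nil))))))) (.g (nat_lit 5) .nil .nil))) 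
(.lf (nat_lit 257531) (.g (nat_lit 3986) (.e (nat_lit 164238) (nat_lit 187) (.e (nat_lit 1638) (nat_lit 114) (.e (nat_lit 385073) (nat_lit 31) (.e (nat_lit 573493) (nat_lit 15) (.e (nat_lit 81953) (nat_lit 22) (.e (nat_lit 90165) (nat_lit 12) .nil)))))) (.g (nat_lit 0) .nil .nil)))))) (.nd (nat_lit 3) (.nd (nat_lit 4) (.nd (nat_lit 5) 
(.lf (nat_lit 257479) (.g (nat_lit 2772) (.e (nat_lit 164238) (nat_lit 187) (.e (nat_lit 1253) (nat_lit 92) (.e (nat_lit 98370) (nat_lit 28) (.e (nat_lit 442424) (nat_lit 22) (.e (nat_lit 196628) (nat_lit 9) (.e (nat_lit 970) (nat_lit 81) (.e (nat_lit 6713) (nat_lit 360) .nil))))))) (.g (nat_lit 4) .nil .nil))) 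
(.lf (nat_lit 257511) (.g (nat_lit 1441) (.e (nat_lit 164238) (nat_lit 187) (.e (nat_lit 1427) (nat_lit 108) (.e (nat_lit 336369) (nat_lit 27) (.e (nat_lit 426109) (nat_lit 1) .nil)))) .nil))) (.nd (nat_lit 5) 
(.lf (nat_lit 257495) (.g (nat_lit 3486) (.e (nat_lit 164238) (nat_lit 187) (.e (nat_lit 1253) (nat_lit 92) (.e (nat_lit 98373) (nat_lit 29) (.e (nat_lit 450587) (nat_lit 10) (.e (nat_lit 573475) (nat_lit 12) (.e (nat_lit 57348) (nat_lit 0) (.e (nat_lit 6923) (nat_lit 371) (.e (nat_lit 2610) (nat_lit 163) .nil)))))))) (.g (nat_lit 5) .nil .nil))) 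
(.lf (nat_lit 257527) (.g (nat_lit 1851) (.e (nat_lit 164238) (nat_lit 187) (.e (nat_lit 1638) (nat_lit 114) (.e (nat_lit 385073) (nat_lit 31) (.e (nat_lit 573481) (nat_lit 13) (.e (nat_lit 65604) (nat_lit 9) .nil))))) .nil)))) (.nd (nat_lit 4) (.nd (nat_lit 5) 
(.lf (nat_lit 257487) (.g (nat_lit 3418) (.e (nat_lit 164238) (nat_lit 187) (.e (nat_lit 1253) (nat_lit 92) (.e (nat_lit 98373) (nat_lit 29) (.e (nat_lit 450587) (nat_lit 10) (.e (nat_lit 573473) (nat_lit 12) (.e (nat_lit 57567) (nat_lit 52) (.e (nat_lit 753684) (nat_lit 8) .nil))))))) (.g (nat_lit 5) .nil .nil))) 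
(.lf (nat_lit 257519) (.g (nat_lit 736) (.e (nat_lit 164238) (nat_lit 187) (.e (nat_lit 1427) (nat_lit 108) (.e (nat_lit 336450) (nat_lit 33) .nil))) .nil))) (.nd (nat_lit 5) 
(.lf (nat_lit 257503) (.g (nat_lit 5917) (.e (nat_lit 164238) (nat_lit 187) (.e (nat_lit 1253) (nat_lit 92) (.e (nat_lit 98373) (nat_lit 29) (.e (nat_lit 450588) (nat_lit 10) (.e (nat_lit 573473) (nat_lit 12) (.e (nat_lit 57348) (nat_lit 0) (.e (nat_lit 6923) (nat_lit 371) (.e (nat_lit 2610) (nat_lit 163) .nil)))))))) (.g (nat_lit 4) .nil .nil))) 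
(.lf (nat_lit 257535) (.g (nat_lit 1134) (.e (nat_lit 164238) (nat_lit 187) (.e (nat_lit 1658) (nat_lit 115) (.e (nat_lit 393234) (nat_lit 17) (.e (nat_lit 3555) (nat_lit 220) .nil)))) .nil))))))))

noncomputable def tv3333 : DT := (.nd (nat_lit 0) (.nd (nat_lit 1) (.nd (nat_lit 2) (.nd (nat_lit 3) (.nd (nat_lit 4) (.nd (nat_lit 5) (.nd (nat_lit 6) 
(.lf (nat_lit 257536) (.g (nat_lit 1402) (.e (nat_lit 164238) (nat_lit 187) (.e (nat_lit 1658) (nat_lit 115) (.e (nat_lit 393251) (nat_lit 18) (.e (nat_lit 164179) (nat_lit 154) .nil)))) .nil)) 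
(.lf (nat_lit 257600) (.g (nat_lit 2945) (.e (nat_lit 164238) (nat_lit 187) (.e (nat_lit 1659) (nat_lit 115) (.e (nat_lit 393301) (nat_lit 27) (.e (nat_lit 491560) (nat_lit 10) (.e (nat_lit 344087) (nat_lit 18) (.e (nat_lit 6853) (nat_lit 371) (.e (nat_lit 2604) (nat_lit 163) .nil))))))) (.g (nat_lit 4) .nil .nil)))) (.nd (nat_lit 6) 
(.lf (nat_lit 257568) (.g (nat_lit 3031) (.e (nat_lit 164238) (nat_lit 187) (.e (nat_lit 1659) (nat_lit 115) (.e (nat_lit 393253) (nat_lit 18) (.e (nat_lit 164179) (nat_lit 154) (.e (nat_lit 57421) (nat_lit 13) (.e (nat_lit 344133) (nat_lit 26) (.e (nat_lit 557091) (nat_lit 12) .nil))))))) (.g (nat_lit 4) .nil .nil))) 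
(.lf (nat_lit 257632) (.g (nat_lit 1781) (.e (nat_lit 164238) (nat_lit 187) (.e (nat_lit 1660) (nat_lit 115) (.e (nat_lit 393251) (nat_lit 18) (.e (nat_lit 164148) (nat_lit 152) (.e (nat_lit 1207) (nat_lit 89) .nil))))) .nil)))) (.nd (nat_lit 5) (.nd (nat_lit 6) 
(.lf (nat_lit 257552) (.g (nat_lit 3418) (.e (nat_lit 164238) (nat_lit 187) (.e (nat_lit 1659) (nat_lit 115) (.e (nat_lit 393251) (nat_lit 18) (.e (nat_lit 164179) (nat_lit 154) (.e (nat_lit 57421) (nat_lit 13) (.e (nat_lit 344132) (nat_lit 26) (.e (nat_lit 557093) (nat_lit 12) .nil))))))) (.g (nat_lit 4) .nil .nil))) 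
(.lf (nat_lit 257616) (.g (nat_lit 3084) (.e (nat_lit 164238) (nat_lit 187) (.e (nat_lit 1659) (nat_lit 115) (.e (nat_lit 393301) (nat_lit 27) (.e (nat_lit 491560) (nat_lit 10) (.e (nat_lit 344090) (nat_lit 18) (.e (nat_lit 6850) (nat_lit 371) (.e (nat_lit 2612) (nat_lit 163) .nil))))))) (.g (nat_lit 4) .nil .nil)))) (.nd (nat_lit 6) 
(.lf (nat_lit 257584) (.g (nat_lit 2351) (.e (nat_lit 164238) (nat_lit 187) (.e (nat_lit 1659) (nat_lit 115) (.e (nat_lit 393301) (nat_lit 27) (.e (nat_lit 491558) (nat_lit 10) (.e (nat_lit 344171) (nat_lit 41) .nil))))) .nil)) 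
(.lf (nat_lit 257648) (.g (nat_lit 1463) (.e (nat_lit 164238) (nat_lit 187) (.e (nat_lit 1661) (nat_lit 115) (.e (nat_lit 393238) (nat_lit 17) (.e (nat_lit 2527) (nat_lit 157) .nil)))) .nil))))) (.nd (nat_lit 4) (.nd (nat_lit 5) (.nd (nat_lit 6) 
(.lf (nat_lit 257544) (.g (nat_lit 1451) (.e (nat_lit 164238) (nat_lit 187) (.e (nat_lit 1659) (nat_lit 115) (.e (nat_lit 393234) (nat_lit 17) (.e (nat_lit 3557) (nat_lit 220) .nil)))) .nil)) 
(.lf (nat_lit 257608) (.g (nat_lit 3206) (.e (nat_lit 164238) (nat_lit 187) (.e (nat_lit 1659) (nat_lit 115) (.e (nat_lit 393301) (nat_lit 27) (.e (nat_lit 491560) (nat_lit 10) (.e (nat_lit 344088) (nat_lit 18) (.e (nat_lit 6916) (nat_lit 371) (.e (nat_lit 2607) (nat_lit 163) .nil))))))) (.g (nat_lit 4) .nil .nil)))) (.nd (nat_lit 6) 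
(.lf (nat_lit 257576) (.g (nat_lit 2895) (.e (nat_lit 164238) (nat_lit 187) (.e (nat_lit 1659) (nat_lit 115) (.e (nat_lit 393301) (nat_lit 27) (.e (nat_lit 491558) (nat_lit 10) (.e (nat_lit 344088) (nat_lit 18) (.e (nat_lit 6923) (nat_lit 371) (.e (nat_lit 2611) (nat_lit 163) .nil))))))) (.g (nat_lit 4) .nil .nil))) 
(.lf (nat_lit 257640) (.g (nat_lit 357) (.e (nat_lit 164238) (nat_lit 187) (.e (nat_lit 1660) (nat_lit 115) (.e (nat_lit 393253) (nat_lit 18) .nil))) .nil)))) (.nd (nat_lit 5) (.nd (nat_lit 6) 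
(.lf (nat_lit 257560) (.g (nat_lit 2085) (.e (nat_lit 164238) (nat_lit 187) (.e (nat_lit 1659) (nat_lit 115) (.e (nat_lit 393253) (nat_lit 18) (.e (nat_lit 164149) (nat_lit 152) (.e (nat_lit 1207) (nat_lit 89) .nil))))) .nil)) 
(.lf (nat_lit 257624) (.g (nat_lit 3425) (.e (nat_lit 164238) (nat_lit 187) (.e (nat_lit 1659) (nat_lit 115) (.e (nat_lit 393301) (nat_lit 27) (.e (nat_lit 491560) (nat_lit 10) (.e (nat_lit 344095) (nat_lit 18) (.e (nat_lit 6923) (nat_lit 371) (.e (nat_lit 2610) (nat_lit 163) .nil))))))) (.g (nat_lit 4) .nil .nil)))) (.nd (nat_lit 6) 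
(.lf (nat_lit 257592) (.g (nat_lit 2952) (.e (nat_lit 164238) (nat_lit 187) (.e (nat_lit 1659) (nat_lit 115) (.e (nat_lit 393301) (nat_lit 27) (.e (nat_lit 491559) (nat_lit 10) (.e (nat_lit 344090) (nat_lit 18) (.e (nat_lit 6923) (nat_lit 371) (.e (nat_lit 2611) (nat_lit 163) .nil))))))) (.g (nat_lit 4) .nil .nil))) 
(.lf (nat_lit 257656) (.g (nat_lit 2883) (.e (nat_lit 164238) (nat_lit 187) (.e (nat_lit 1661) (nat_lit 115) (.e (nat_lit 393251) (nat_lit 18) (.e (nat_lit 164179) (nat_lit 154) (.e (nat_lit 57422) (nat_lit 13) (.e (nat_lit 344130) (nat_lit 26) (.e (nat_lit 557090) (nat_lit 12) .nil))))))) (.g (nat_lit 4) .nil .nil))))))) (.nd (nat_lit 3) (.nd (nat_lit 4) (.nd (nat_lit 5) (.nd (nat_lit 6) 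
(.lf (nat_lit 257540) (.g (nat_lit 2369) (.e (nat_lit 164238) (nat_lit 187) (.e (nat_lit 1658) (nat_lit 115) (.e (nat_lit 393301) (nat_lit 27) (.e (nat_lit 491558) (nat_lit 10) (.e (nat_lit 344091) (nat_lit 18) (.e (nat_lit 6923) (nat_lit 371) (.e (nat_lit 2610) (nat_lit 163) .nil))))))) (.g (nat_lit 4) .nil .nil))) 
(.lf (nat_lit 257604) (.g (nat_lit 2982) (.e (nat_lit 164238) (nat_lit 187) (.e (nat_lit 1659) (nat_lit 115) (.e (nat_lit 393301) (nat_lit 27) (.e (nat_lit 491560) (nat_lit 10) (.e (nat_lit 344088) (nat_lit 18) .nil))))) .nil))) (.nd (nat_lit 6) 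
(.lf (nat_lit 257572) (.g (nat_lit 2328) (.e (nat_lit 164238) (nat_lit 187) (.e (nat_lit 1659) (nat_lit 115) (.e (nat_lit 393301) (nat_lit 27) (.e (nat_lit 491558) (nat_lit 10) (.e (nat_lit 344088) (nat_lit 18) .nil))))) .nil)) 
(.lf (nat_lit 257636) (.g (nat_lit 2311) (.e (nat_lit 164238) (nat_lit 187) (.e (nat_lit 1660) (nat_lit 115) (.e (nat_lit 393251) (nat_lit 18) (.e (nat_lit 164179) (nat_lit 154) (.e (nat_lit 57421) (nat_lit 13) .nil))))) .nil)))) (.nd (nat_lit 5) (.nd (nat_lit 6) 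
(.lf (nat_lit 257556) (.g (nat_lit 2695) (.e (nat_lit 164238) (nat_lit 187) (.e (nat_lit 1659) (nat_lit 115) (.e (nat_lit 393251) (nat_lit 18) (.e (nat_lit 164183) (nat_lit 154) (.e (nat_lit 57420) (nat_lit 13) .nil))))) .nil)) 
(.lf (nat_lit 257620) (.g (nat_lit 4838) (.e (nat_lit 164238) (nat_lit 187) (.e (nat_lit 1659) (nat_lit 115) (.e (nat_lit 393301) (nat_lit 27) (.e (nat_lit 491560) (nat_lit 10) (.e (nat_lit 344090) (nat_lit 18) (.e (nat_lit 6923) (nat_lit 371) (.e (nat_lit 2610) (nat_lit 163) .nil))))))) (.g (nat_lit 7) .nil .nil)))) (.nd (nat_lit 6) 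
(.lf (nat_lit 257588) (.g (nat_lit 2901) (.e (nat_lit 164238) (nat_lit 187) (.e (nat_lit 1659) (nat_lit 115) (.e (nat_lit 393301) (nat_lit 27) (.e (nat_lit 491558) (nat_lit 10) (.e (nat_lit 344172) (nat_lit 41) (.e (nat_lit 753685) (nat_lit 8) .nil)))))) (.g (nat_lit 4) .nil .nil))) 
(.lf (nat_lit 257652) (.g (nat_lit 1463) (.e (nat_lit 164238) (nat_lit 187) (.e (nat_lit 1661) (nat_lit 115) (.e (nat_lit 393238) (nat_lit 17) (.e (nat_lit 3562) (nat_lit 221) .nil)))) .nil))))) (.nd (nat_lit 4) (.nd (nat_lit 5) (.nd (nat_lit 6) 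
(.lf (nat_lit 257548) (.g (nat_lit 1803) (.e (nat_lit 164238) (nat_lit 187) (.e (nat_lit 1659) (nat_lit 115) (.e (nat_lit 393251) (nat_lit 18) (.e (nat_lit 164177) (nat_lit 154) .nil)))) .nil)) 
(.lf (nat_lit 257612) (.g (nat_lit 3262) (.e (nat_lit 164238) (nat_lit 187) (.e (nat_lit 1659) (nat_lit 115) (.e (nat_lit 393301) (nat_lit 27) (.e (nat_lit 491560) (nat_lit 10) (.e (nat_lit 344089) (nat_lit 18) .nil))))) .nil))) (.nd (nat_lit 6) 
(.lf (nat_lit 257580) (.g (nat_lit 2045) (.e (nat_lit 164238) (nat_lit 187) (.e (nat_lit 1659) (nat_lit 115) (.e (nat_lit 393301) (nat_lit 27) (.e (nat_lit 491558) (nat_lit 10) (.e (nat_lit 344096) (nat_lit 18) .nil))))) .nil)) 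
(.lf (nat_lit 257644) (.g (nat_lit 1781) (.e (nat_lit 164238) (nat_lit 187) (.e (nat_lit 1661) (nat_lit 115) (.e (nat_lit 393221) (nat_lit 0) (.e (nat_lit 6209) (nat_lit 333) (.e (nat_lit 57896) (nat_lit 273) .nil))))) .nil)))) (.nd (nat_lit 5) (.nd (nat_lit 6) 
(.lf (nat_lit 257564) (.g (nat_lit 3073) (.e (nat_lit 164238) (nat_lit 187) (.e (nat_lit 1659) (nat_lit 115) (.e (nat_lit 393253) (nat_lit 18) (.e (nat_lit 164162) (nat_lit 152) (.e (nat_lit 1209) (nat_lit 89) (.e (nat_lit 73753) (nat_lit 8) (.e (nat_lit 557093) (nat_lit 12) .nil))))))) (.g (nat_lit 4) .nil .nil))) 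
(.lf (nat_lit 257628) (.g (nat_lit 3560) (.e (nat_lit 164238) (nat_lit 187) (.e (nat_lit 1659) (nat_lit 115) (.e (nat_lit 393301) (nat_lit 27) (.e (nat_lit 491560) (nat_lit 10) (.e (nat_lit 344170) (nat_lit 41) (.e (nat_lit 753685) (nat_lit 8) .nil)))))) (.g (nat_lit 4) .nil .nil)))) (.nd (nat_lit 6) 
(.lf (nat_lit 257596) (.g (nat_lit 2664) (.e (nat_lit 164238) (nat_lit 187) (.e (nat_lit 1659) (nat_lit 115) (.e (nat_lit 393301) (nat_lit 27) (.e (nat_lit 491559) (nat_lit 10) (.e (nat_lit 344172) (nat_lit 41) .nil))))) .nil)) 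
(.lf (nat_lit 257660) (.g (nat_lit 2368) (.e (nat_lit 164238) (nat_lit 187) (.e (nat_lit 1661) (nat_lit 115) (.e (nat_lit 393253) (nat_lit 18) (.e (nat_lit 164151) (nat_lit 152) (.e (nat_lit 1207) (nat_lit 89) .nil))))) .nil))))))) (.nd (nat_lit 2) (.nd (nat_lit 3) (.nd (nat_lit 4) (.nd (nat_lit 5) (.nd (nat_lit 6) 
(.lf (nat_lit 257538) (.g (nat_lit 3376) (.e (nat_lit 164238) (nat_lit 187) (.e (nat_lit 1658) (nat_lit 115) (.e (nat_lit 393253) (nat_lit 18) (.e (nat_lit 164162) (nat_lit 152) (.e (nat_lit 1209) (nat_lit 89) (.e (nat_lit 73753) (nat_lit 8) (.e (nat_lit 557091) (nat_lit 12) .nil))))))) (.g (nat_lit 5) .nil .nil))) 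
(.lf (nat_lit 257602) (.g (nat_lit 2977) (.e (nat_lit 164238) (nat_lit 187) (.e (nat_lit 1659) (nat_lit 115) (.e (nat_lit 393301) (nat_lit 27) (.e (nat_lit 491560) (nat_lit 10) (.e (nat_lit 344087) (nat_lit 18) (.e (nat_lit 6916) (nat_lit 371) (.e (nat_lit 2610) (nat_lit 163) .nil))))))) (.g (nat_lit 4) .nil .nil)))) (.nd (nat_lit 6) 
(.lf (nat_lit 257570) (.g (nat_lit 1845) (.e (nat_lit 164238) (nat_lit 187) (.e (nat_lit 1659) (nat_lit 115) (.e (nat_lit 393301) (nat_lit 27) (.e (nat_lit 491551) (nat_lit 9) (.e (nat_lit 336248) (nat_lit 15) .nil))))) .nil)) 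
(.lf (nat_lit 257634) (.g (nat_lit 1514) (.e (nat_lit 164238) (nat_lit 187) (.e (nat_lit 1660) (nat_lit 115) (.e (nat_lit 393251) (nat_lit 18) (.e (nat_lit 164177) (nat_lit 154) .nil)))) .nil)))) (.nd (nat_lit 5) (.nd (nat_lit 6) 
(.lf (nat_lit 257554) (.g (nat_lit 3385) (.e (nat_lit 164238) (nat_lit 187) (.e (nat_lit 1659) (nat_lit 115) (.e (nat_lit 393251) (nat_lit 18) (.e (nat_lit 164179) (nat_lit 154) (.e (nat_lit 57422) (nat_lit 13) (.e (nat_lit 344133) (nat_lit 26) (.e (nat_lit 557091) (nat_lit 12) .nil))))))) (.g (nat_lit 4) .nil .nil))) 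
(.lf (nat_lit 257618) (.g (nat_lit 2705) (.e (nat_lit 164238) (nat_lit 187) (.e (nat_lit 1659) (nat_lit 115) (.e (nat_lit 393301) (nat_lit 27) (.e (nat_lit 491560) (nat_lit 10) (.e (nat_lit 344090) (nat_lit 18) (.e (nat_lit 6853) (nat_lit 371) (.e (nat_lit 2612) (nat_lit 163) .nil))))))) (.g (nat_lit 4) .nil .nil)))) (.nd (nat_lit 6) 
(.lf (nat_lit 257586) (.g (nat_lit 2988) (.e (nat_lit 164238) (nat_lit 187) (.e (nat_lit 1659) (nat_lit 115) (.e (nat_lit 393301) (nat_lit 27) (.e (nat_lit 491558) (nat_lit 10) (.e (nat_lit 344171) (nat_lit 41) (.e (nat_lit 753686) (nat_lit 8) .nil)))))) (.g (nat_lit 4) .nil .nil))) 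
(.lf (nat_lit 257650) (.g (nat_lit 1463) (.e (nat_lit 164238) (nat_lit 187) (.e (nat_lit 1661) (nat_lit 115) (.e (nat_lit 393238) (nat_lit 17) (.e (nat_lit 3462) (nat_lit 217) .nil)))) .nil))))) (.nd (nat_lit 4) (.nd (nat_lit 5) (.nd (nat_lit 6) 
(.lf (nat_lit 257546) (.g (nat_lit 2015) (.e (nat_lit 164238) (nat_lit 187) (.e (nat_lit 1659) (nat_lit 115) (.e (nat_lit 393251) (nat_lit 18) (.e (nat_lit 164148) (nat_lit 152) .nil)))) .nil)) 
(.lf (nat_lit 257610) (.g (nat_lit 3782) (.e (nat_lit 164238) (nat_lit 187) (.e (nat_lit 1659) (nat_lit 115) (.e (nat_lit 393301) (nat_lit 27) (.e (nat_lit 491560) (nat_lit 10) (.e (nat_lit 344088) (nat_lit 18) (.e (nat_lit 6916) (nat_lit 371) (.e (nat_lit 2611) (nat_lit 163) .nil))))))) (.g (nat_lit 4) .nil .nil)))) (.nd (nat_lit 6) 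
(.lf (nat_lit 257578) (.g (nat_lit 2905) (.e (nat_lit 164238) (nat_lit 187) (.e (nat_lit 1659) (nat_lit 115) (.e (nat_lit 393301) (nat_lit 27) (.e (nat_lit 491558) (nat_lit 10) (.e (nat_lit 344091) (nat_lit 18) (.e (nat_lit 6853) (nat_lit 371) (.e (nat_lit 2604) (nat_lit 163) .nil))))))) (.g (nat_lit 4) .nil .nil))) 
(.lf (nat_lit 257642) (.g (nat_lit 2061) (.e (nat_lit 164238) (nat_lit 187) (.e (nat_lit 1660) (nat_lit 115) (.e (nat_lit 393253) (nat_lit 18) (.e (nat_lit 164179) (nat_lit 154) (.e (nat_lit 57420) (nat_lit 13) .nil))))) .nil)))) (.nd (nat_lit 5) (.nd (nat_lit 6) 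
(.lf (nat_lit 257562) (.g (nat_lit 4082) (.e (nat_lit 164238) (nat_lit 187) (.e (nat_lit 1659) (nat_lit 115) (.e (nat_lit 393253) (nat_lit 18) (.e (nat_lit 164150) (nat_lit 152) (.e (nat_lit 1207) (nat_lit 89) (.e (nat_lit 73754) (nat_lit 8) (.e (nat_lit 557094) (nat_lit 12) .nil))))))) (.g (nat_lit 0) .nil .nil))) 
(.lf (nat_lit 257626) (.g (nat_lit 3608) (.e (nat_lit 164238) (nat_lit 187) (.e (nat_lit 1659) (nat_lit 115) (.e (nat_lit 393301) (nat_lit 27) (.e (nat_lit 491560) (nat_lit 10) (.e (nat_lit 344096) (nat_lit 18) (.e (nat_lit 6923) (nat_lit 371) (.e (nat_lit 2601) (nat_lit 163) .nil))))))) (.g (nat_lit 4) .nil .nil)))) (.nd (nat_lit 6) 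
(.lf (nat_lit 257594) (.g (nat_lit 2616) (.e (nat_lit 164238) (nat_lit 187) (.e (nat_lit 1659) (nat_lit 115) (.e (nat_lit 393301) (nat_lit 27) (.e (nat_lit 491559) (nat_lit 10) (.e (nat_lit 344171) (nat_lit 41) .nil))))) .nil)) 
(.lf (nat_lit 257658) (.g (nat_lit 1618) (.e (nat_lit 164238) (nat_lit 187) (.e (nat_lit 1661) (nat_lit 115) (.e (nat_lit 393252) (nat_lit 18) (.e (nat_lit 164183) (nat_lit 154) (.e (nat_lit 57411) (nat_lit 12) .nil))))) .nil)))))) (.nd (nat_lit 3) (.nd (nat_lit 4) (.nd (nat_lit 5) (.nd (nat_lit 6) 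
(.lf (nat_lit 257542) (.g (nat_lit 513) (.e (nat_lit 164238) (nat_lit 187) (.e (nat_lit 1659) (nat_lit 115) (.e (nat_lit 401152) (nat_lit 7) .nil))) .nil)) 
(.lf (nat_lit 257606) (.g (nat_lit 3361) (.e (nat_lit 164238) (nat_lit 187) (.e (nat_lit 1659) (nat_lit 115) (.e (nat_lit 393301) (nat_lit 27) (.e (nat_lit 491560) (nat_lit 10) (.e (nat_lit 344088) (nat_lit 18) (.e (nat_lit 6863) (nat_lit 371) (.e (nat_lit 2606) (nat_lit 163) .nil))))))) (.g (nat_lit 4) .nil .nil)))) (.nd (nat_lit 6) 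
(.lf (nat_lit 257574) (.g (nat_lit 2853) (.e (nat_lit 164238) (nat_lit 187) (.e (nat_lit 1659) (nat_lit 115) (.e (nat_lit 393301) (nat_lit 27) (.e (nat_lit 491558) (nat_lit 10) (.e (nat_lit 344088) (nat_lit 18) (.e (nat_lit 6852) (nat_lit 371) (.e (nat_lit 2612) (nat_lit 163) .nil))))))) (.g (nat_lit 4) .nil .nil))) 
(.lf (nat_lit 257638) (.g (nat_lit 2435) (.e (nat_lit 164238) (nat_lit 187) (.e (nat_lit 1660) (nat_lit 115) (.e (nat_lit 393251) (nat_lit 18) (.e (nat_lit 164182) (nat_lit 154) (.e (nat_lit 57420) (nat_lit 13) .nil))))) .nil)))) (.nd (nat_lit 5) (.nd (nat_lit 6) 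
(.lf (nat_lit 257558) (.g (nat_lit 2197) (.e (nat_lit 164238) (nat_lit 187) (.e (nat_lit 1659) (nat_lit 115) (.e (nat_lit 393253) (nat_lit 18) (.e (nat_lit 164147) (nat_lit 152) (.e (nat_lit 1210) (nat_lit 89) .nil))))) .nil)) 
(.lf (nat_lit 257622) (.g (nat_lit 2563) (.e (nat_lit 164238) (nat_lit 187) (.e (nat_lit 1659) (nat_lit 115) (.e (nat_lit 393301) (nat_lit 27) (.e (nat_lit 491560) (nat_lit 10) (.e (nat_lit 344094) (nat_lit 18) .nil))))) .nil))) (.nd (nat_lit 6) 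
(.lf (nat_lit 257590) (.g (nat_lit 2716) (.e (nat_lit 164238) (nat_lit 187) (.e (nat_lit 1659) (nat_lit 115) (.e (nat_lit 393301) (nat_lit 27) (.e (nat_lit 491559) (nat_lit 10) (.e (nat_lit 344090) (nat_lit 18) (.e (nat_lit 6923) (nat_lit 371) (.e (nat_lit 2601) (nat_lit 163) .nil))))))) (.g (nat_lit 4) .nil .nil))) 
(.lf (nat_lit 257654) (.g (nat_lit 2845) (.e (nat_lit 164238) (nat_lit 187) (.e (nat_lit 1661) (nat_lit 115) (.e (nat_lit 393251) (nat_lit 18) (.e (nat_lit 164179) (nat_lit 154) (.e (nat_lit 57420) (nat_lit 13) (.e (nat_lit 344130) (nat_lit 26) (.e (nat_lit 557090) (nat_lit 12) .nil))))))) (.g (nat_lit 4) .nil .nil)))))) (.nd (nat_lit 4) (.nd (nat_lit 5) (.nd (nat_lit 6) 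
(.lf (nat_lit 257550) (.g (nat_lit 3204) (.e (nat_lit 164238) (nat_lit 187) (.e (nat_lit 1659) (nat_lit 115) (.e (nat_lit 393251) (nat_lit 18) (.e (nat_lit 164179) (nat_lit 154) (.e (nat_lit 57420) (nat_lit 13) (.e (nat_lit 344132) (nat_lit 26) (.e (nat_lit 557094) (nat_lit 12) .nil))))))) (.g (nat_lit 4) .nil .nil))) 
(.lf (nat_lit 257614) (.g (nat_lit 3535) (.e (nat_lit 164238) (nat_lit 187) (.e (nat_lit 1659) (nat_lit 115) (.e (nat_lit 393301) (nat_lit 27) (.e (nat_lit 491560) (nat_lit 10) (.e (nat_lit 344089) (nat_lit 18) (.e (nat_lit 6920) (nat_lit 371) (.e (nat_lit 2610) (nat_lit 163) .nil))))))) (.g (nat_lit 4) .nil .nil)))) (.nd (nat_lit 6) 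
(.lf (nat_lit 257582) (.g (nat_lit 2724) (.e (nat_lit 164238) (nat_lit 187) (.e (nat_lit 1659) (nat_lit 115) (.e (nat_lit 393301) (nat_lit 27) (.e (nat_lit 491558) (nat_lit 10) (.e (nat_lit 344096) (nat_lit 18) (.e (nat_lit 6923) (nat_lit 371) (.e (nat_lit 2611) (nat_lit 163) .nil))))))) (.g (nat_lit 4) .nil .nil))) 
(.lf (nat_lit 257646) (.g (nat_lit 549) (.e (nat_lit 164238) (nat_lit 187) (.e (nat_lit 1661) (nat_lit 115) (.e (nat_lit 393232) (nat_lit 17) .nil))) .nil)))) (.nd (nat_lit 5) (.nd (nat_lit 6) 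
(.lf (nat_lit 257566) (.g (nat_lit 2371) (.e (nat_lit 164238) (nat_lit 187) (.e (nat_lit 1659) (nat_lit 115) (.e (nat_lit 393253) (nat_lit 18) (.e (nat_lit 164162) (nat_lit 152) (.e (nat_lit 1210) (nat_lit 89) .nil))))) .nil)) 
(.lf (nat_lit 257630) (.g (nat_lit 3909) (.e (nat_lit 164238) (nat_lit 187) (.e (nat_lit 1659) (nat_lit 115) (.e (nat_lit 393301) (nat_lit 27) (.e (nat_lit 491560) (nat_lit 10) (.e (nat_lit 344171) (nat_lit 41) (.e (nat_lit 753685) (nat_lit 8) .nil)))))) (.g (nat_lit 4) .nil .nil)))) (.nd (nat_lit 6) 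
(.lf (nat_lit 257598) (.g (nat_lit 2911) (.e (nat_lit 164238) (nat_lit 187) (.e (nat_lit 1659) (nat_lit 115) (.e (nat_lit 393301) (nat_lit 27) (.e (nat_lit 491559) (nat_lit 10) (.e (nat_lit 344172) (nat_lit 41) (.e (nat_lit 753686) (nat_lit 8) .nil)))))) (.g (nat_lit 4) .nil .nil))) 
(.lf (nat_lit 257662) (.g (nat_lit 2019) (.e (nat_lit 164238) (nat_lit 187) (.e (nat_lit 1661) (nat_lit 115) (.e (nat_lit 393253) (nat_lit 18) (.e (nat_lit 164152) (nat_lit 152) (.e (nat_lit 1213) (nat_lit 89) .nil))))) .nil)))))))) (.nd (nat_lit 1) (.nd (nat_lit 2) (.nd (nat_lit 3) (.nd (nat_lit 4) (.nd (nat_lit 5) (.nd (nat_lit 6) 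
(.lf (nat_lit 257537) (.g (nat_lit 2388) (.e (nat_lit 164238) (nat_lit 187) (.e (nat_lit 1658) (nat_lit 115) (.e (nat_lit 393251) (nat_lit 18) (.e (nat_lit 164179) (nat_lit 154) (.e (nat_lit 57421) (nat_lit 13) .nil))))) .nil)) 
(.lf (nat_lit 257601) (.g (nat_lit 3184) (.e (nat_lit 164238) (nat_lit 187) (.e (nat_lit 1659) (nat_lit 115) (.e (nat_lit 393301) (nat_lit 27) (.e (nat_lit 491560) (nat_lit 10) (.e (nat_lit 344087) (nat_lit 18) (.e (nat_lit 6915) (nat_lit 371) (.e (nat_lit 2610) (nat_lit 163) .nil))))))) (.g (nat_lit 4) .nil .nil)))) (.nd (nat_lit 6) 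
(.lf (nat_lit 257569) (.g (nat_lit 537) (.e (nat_lit 164238) (nat_lit 187) (.e (nat_lit 1659) (nat_lit 115) (.e (nat_lit 393254) (nat_lit 18) .nil))) .nil)) 
(.lf (nat_lit 257633) (.g (nat_lit 1852) (.e (nat_lit 164238) (nat_lit 187) (.e (nat_lit 1660) (nat_lit 115) (.e (nat_lit 393251) (nat_lit 18) (.e (nat_lit 164151) (nat_lit 152) (.e (nat_lit 1207) (nat_lit 89) .nil))))) .nil)))) (.nd (nat_lit 5) (.nd (nat_lit 6) 
(.lf (nat_lit 257553) (.g (nat_lit 2873) (.e (nat_lit 164238) (nat_lit 187) (.e (nat_lit 1659) (nat_lit 115) (.e (nat_lit 393251) (nat_lit 18) (.e (nat_lit 164179) (nat_lit 154) (.e (nat_lit 57422) (nat_lit 13) .nil))))) .nil)) 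
(.lf (nat_lit 257617) (.g (nat_lit 3383) (.e (nat_lit 164238) (nat_lit 187) (.e (nat_lit 1659) (nat_lit 115) (.e (nat_lit 393301) (nat_lit 27) (.e (nat_lit 491560) (nat_lit 10) (.e (nat_lit 344090) (nat_lit 18) (.e (nat_lit 6852) (nat_lit 371) (.e (nat_lit 2612) (nat_lit 163) .nil))))))) (.g (nat_lit 4) .nil .nil)))) (.nd (nat_lit 6) 
(.lf (nat_lit 257585) (.g (nat_lit 2486) (.e (nat_lit 164238) (nat_lit 187) (.e (nat_lit 1659) (nat_lit 115) (.e (nat_lit 393301) (nat_lit 27) (.e (nat_lit 491558) (nat_lit 10) (.e (nat_lit 344171) (nat_lit 41) (.e (nat_lit 753685) (nat_lit 8) .nil)))))) (.g (nat_lit 4) .nil .nil))) 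
(.lf (nat_lit 257649) (.g (nat_lit 1262) (.e (nat_lit 164238) (nat_lit 187) (.e (nat_lit 1661) (nat_lit 115) (.e (nat_lit 393238) (nat_lit 17) (.e (nat_lit 7936) (nat_lit 216) .nil)))) .nil))))) (.nd (nat_lit 4) (.nd (nat_lit 5) (.nd (nat_lit 6) 
(.lf (nat_lit 257545) (.g (nat_lit 537) (.e (nat_lit 164238) (nat_lit 187) (.e (nat_lit 1659) (nat_lit 115) (.e (nat_lit 393251) (nat_lit 18) .nil))) .nil)) 
(.lf (nat_lit 257609) (.g (nat_lit 3734) (.e (nat_lit 164238) (nat_lit 187) (.e (nat_lit 1659) (nat_lit 115) (.e (nat_lit 393301) (nat_lit 27) (.e (nat_lit 491560) (nat_lit 10) (.e (nat_lit 344088) (nat_lit 18) (.e (nat_lit 6916) (nat_lit 371) (.e (nat_lit 2610) (nat_lit 163) .nil))))))) (.g (nat_lit 4) .nil .nil)))) (.nd (nat_lit 6) 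
(.lf (nat_lit 257577) (.g (nat_lit 1938) (.e (nat_lit 164238) (nat_lit 187) (.e (nat_lit 1659) (nat_lit 115) (.e (nat_lit 393301) (nat_lit 27) (.e (nat_lit 491558) (nat_lit 10) (.e (nat_lit 344090) (nat_lit 18) .nil))))) .nil)) 
(.lf (nat_lit 257641) (.g (nat_lit 1751) (.e (nat_lit 164238) (nat_lit 187) (.e (nat_lit 1660) (nat_lit 115) (.e (nat_lit 393253) (nat_lit 18) (.e (nat_lit 164178) (nat_lit 154) (.e (nat_lit 57421) (nat_lit 13) .nil))))) .nil)))) (.nd (nat_lit 5) (.nd (nat_lit 6) 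
(.lf (nat_lit 257561) (.g (nat_lit 1926) (.e (nat_lit 164238) (nat_lit 187) (.e (nat_lit 1659) (nat_lit 115) (.e (nat_lit 393253) (nat_lit 18) (.e (nat_lit 164150) (nat_lit 152) (.e (nat_lit 1206) (nat_lit 89) .nil))))) .nil)) 
(.lf (nat_lit 257625) (.g (nat_lit 3088) (.e (nat_lit 164238) (nat_lit 187) (.e (nat_lit 1659) (nat_lit 115) (.e (nat_lit 393301) (nat_lit 27) (.e (nat_lit 491560) (nat_lit 10) (.e (nat_lit 344096) (nat_lit 18) (.e (nat_lit 6869) (nat_lit 371) (.e (nat_lit 2608) (nat_lit 163) .nil))))))) (.g (nat_lit 4) .nil .nil)))) (.nd (nat_lit 6) 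
(.lf (nat_lit 257593) (.g (nat_lit 3242) (.e (nat_lit 164238) (nat_lit 187) (.e (nat_lit 1659) (nat_lit 115) (.e (nat_lit 393301) (nat_lit 27) (.e (nat_lit 491559) (nat_lit 10) (.e (nat_lit 344091) (nat_lit 18) (.e (nat_lit 6853) (nat_lit 371) (.e (nat_lit 2604) (nat_lit 163) .nil))))))) (.g (nat_lit 4) .nil .nil))) 
(.lf (nat_lit 257657) (.g (nat_lit 2498) (.e (nat_lit 164238) (nat_lit 187) (.e (nat_lit 1661) (nat_lit 115) (.e (nat_lit 393251) (nat_lit 18) (.e (nat_lit 164179) (nat_lit 154) (.e (nat_lit 57422) (nat_lit 13) (.e (nat_lit 344132) (nat_lit 26) (.e (nat_lit 557094) (nat_lit 12) .nil))))))) (.g (nat_lit 4) .nil .nil))))))) (.nd (nat_lit 3) (.nd (nat_lit 4) (.nd (nat_lit 5) (.nd (nat_lit 6) 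
(.lf (nat_lit 257541) (.g (nat_lit 2658) (.e (nat_lit 164238) (nat_lit 187) (.e (nat_lit 1658) (nat_lit 115) (.e (nat_lit 393301) (nat_lit 27) (.e (nat_lit 491559) (nat_lit 10) (.e (nat_lit 344091) (nat_lit 18) (.e (nat_lit 6923) (nat_lit 371) (.e (nat_lit 2610) (nat_lit 163) .nil))))))) (.g (nat_lit 4) .nil .nil))) 
(.lf (nat_lit 257605) (.g (nat_lit 3388) (.e (nat_lit 164238) (nat_lit 187) (.e (nat_lit 1659) (nat_lit 115) (.e (nat_lit 393301) (nat_lit 27) (.e (nat_lit 491560) (nat_lit 10) (.e (nat_lit 344088) (nat_lit 18) (.e (nat_lit 6853) (nat_lit 371) (.e (nat_lit 2604) (nat_lit 163) .nil))))))) (.g (nat_lit 4) .nil .nil)))) (.nd (nat_lit 6) 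
(.lf (nat_lit 257573) (.g (nat_lit 2790) (.e (nat_lit 164238) (nat_lit 187) (.e (nat_lit 1659) (nat_lit 115) (.e (nat_lit 393301) (nat_lit 27) (.e (nat_lit 491558) (nat_lit 10) (.e (nat_lit 344088) (nat_lit 18) (.e (nat_lit 6850) (nat_lit 371) (.e (nat_lit 2612) (nat_lit 163) .nil))))))) (.g (nat_lit 4) .nil .nil))) 
(.lf (nat_lit 257637) (.g (nat_lit 2291) (.e (nat_lit 164238) (nat_lit 187) (.e (nat_lit 1660) (nat_lit 115) (.e (nat_lit 393251) (nat_lit 18) (.e (nat_lit 164179) (nat_lit 154) (.e (nat_lit 57422) (nat_lit 13) .nil))))) .nil)))) (.nd (nat_lit 5) (.nd (nat_lit 6) 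
(.lf (nat_lit 257557) (.g (nat_lit 1357) (.e (nat_lit 164238) (nat_lit 187) (.e (nat_lit 1659) (nat_lit 115) (.e (nat_lit 393252) (nat_lit 18) (.e (nat_lit 164161) (nat_lit 152) .nil)))) .nil)) 
(.lf (nat_lit 257621) (.g (nat_lit 3180) (.e (nat_lit 164238) (nat_lit 187) (.e (nat_lit 1659) (nat_lit 115) (.e (nat_lit 393301) (nat_lit 27) (.e (nat_lit 491560) (nat_lit 10) (.e (nat_lit 344091) (nat_lit 18) (.e (nat_lit 6853) (nat_lit 371) (.e (nat_lit 2604) (nat_lit 163) .nil))))))) (.g (nat_lit 4) .nil .nil)))) (.nd (nat_lit 6) 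
(.lf (nat_lit 257589) (.g (nat_lit 2893) (.e (nat_lit 164238) (nat_lit 187) (.e (nat_lit 1659) (nat_lit 115) (.e (nat_lit 393301) (nat_lit 27) (.e (nat_lit 491558) (nat_lit 10) (.e (nat_lit 344172) (nat_lit 41) (.e (nat_lit 753686) (nat_lit 8) .nil)))))) (.g (nat_lit 4) .nil .nil))) 
(.lf (nat_lit 257653) (.g (nat_lit 659) (.e (nat_lit 164238) (nat_lit 187) (.e (nat_lit 1661) (nat_lit 115) (.e (nat_lit 393250) (nat_lit 18) .nil))) .nil))))) (.nd (nat_lit 4) (.nd (nat_lit 5) (.nd (nat_lit 6) 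
(.lf (nat_lit 257549) (.g (nat_lit 1907) (.e (nat_lit 164238) (nat_lit 187) (.e (nat_lit 1659) (nat_lit 115) (.e (nat_lit 393251) (nat_lit 18) (.e (nat_lit 164179) (nat_lit 154) .nil)))) .nil)) 
(.lf (nat_lit 257613) (.g (nat_lit 3527) (.e (nat_lit 164238) (nat_lit 187) (.e (nat_lit 1659) (nat_lit 115) (.e (nat_lit 393301) (nat_lit 27) (.e (nat_lit 491560) (nat_lit 10) (.e (nat_lit 344089) (nat_lit 18) (.e (nat_lit 6916) (nat_lit 371) (.e (nat_lit 2607) (nat_lit 163) .nil))))))) (.g (nat_lit 4) .nil .nil)))) (.nd (nat_lit 6) 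
(.lf (nat_lit 257581) (.g (nat_lit 2488) (.e (nat_lit 164238) (nat_lit 187) (.e (nat_lit 1659) (nat_lit 115) (.e (nat_lit 393301) (nat_lit 27) (.e (nat_lit 491558) (nat_lit 10) (.e (nat_lit 344096) (nat_lit 18) (.e (nat_lit 6923) (nat_lit 371) (.e (nat_lit 2601) (nat_lit 163) .nil))))))) (.g (nat_lit 4) .nil .nil))) 
(.lf (nat_lit 257645) (.g (nat_lit 602) (.e (nat_lit 164238) (nat_lit 187) (.e (nat_lit 1661) (nat_lit 115) (.e (nat_lit 393231) (nat_lit 17) .nil))) .nil)))) (.nd (nat_lit 5) (.nd (nat_lit 6) 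
(.lf (nat_lit 257565) (.g (nat_lit 3739) (.e (nat_lit 164238) (nat_lit 187) (.e (nat_lit 1659) (nat_lit 115) (.e (nat_lit 393253) (nat_lit 18) (.e (nat_lit 164162) (nat_lit 152) (.e (nat_lit 1209) (nat_lit 89) (.e (nat_lit 73753) (nat_lit 8) (.e (nat_lit 557094) (nat_lit 12) .nil))))))) (.g (nat_lit 5) .nil .nil))) 
(.lf (nat_lit 257629) (.g (nat_lit 3382) (.e (nat_lit 164238) (nat_lit 187) (.e (nat_lit 1659) (nat_lit 115) (.e (nat_lit 393301) (nat_lit 27) (.e (nat_lit 491560) (nat_lit 10) (.e (nat_lit 344171) (nat_lit 41) (.e (nat_lit 753684) (nat_lit 8) .nil)))))) (.g (nat_lit 4) .nil .nil)))) (.nd (nat_lit 6) 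
(.lf (nat_lit 257597) (.g (nat_lit 2919) (.e (nat_lit 164238) (nat_lit 187) (.e (nat_lit 1659) (nat_lit 115) (.e (nat_lit 393301) (nat_lit 27) (.e (nat_lit 491559) (nat_lit 10) (.e (nat_lit 344172) (nat_lit 41) (.e (nat_lit 753685) (nat_lit 8) .nil)))))) (.g (nat_lit 4) .nil .nil))) 
(.lf (nat_lit 257661) (.g (nat_lit 2810) (.e (nat_lit 164238) (nat_lit 187) (.e (nat_lit 1661) (nat_lit 115) (.e (nat_lit 393253) (nat_lit 18) (.e (nat_lit 164151) (nat_lit 152) (.e (nat_lit 1207) (nat_lit 89) (.e (nat_lit 73754) (nat_lit 8) (.e (nat_lit 557094) (nat_lit 12) .nil))))))) (.g (nat_lit 4) .nil .nil)))))))) 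
(.nd (nat_lit 2) (.nd (nat_lit 3) (.nd (nat_lit 4) (.nd (nat_lit 5) (.nd (nat_lit 6) 
(.lf (nat_lit 257539) (.g (nat_lit 858) (.e (nat_lit 164238) (nat_lit 187) (.e (nat_lit 1658) (nat_lit 115) (.e (nat_lit 393253) (nat_lit 18) (.e (nat_lit 164179) (nat_lit 154) .nil)))) .nil)) 
(.lf (nat_lit 257603) (.g (nat_lit 3025) (.e (nat_lit 164238) (nat_lit 187) (.e (nat_lit 1659) (nat_lit 115) (.e (nat_lit 393301) (nat_lit 27) (.e (nat_lit 491560) (nat_lit 10) (.e (nat_lit 344087) (nat_lit 18) (.e (nat_lit 6916) (nat_lit 371) (.e (nat_lit 2611) (nat_lit 163) .nil))))))) (.g (nat_lit 4) .nil .nil)))) (.nd (nat_lit 6) 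
(.lf (nat_lit 257571) (.g (nat_lit 1929) (.e (nat_lit 164238) (nat_lit 187) (.e (nat_lit 1659) (nat_lit 115) (.e (nat_lit 393301) (nat_lit 27) (.e (nat_lit 491552) (nat_lit 9) .nil)))) .nil)) 
(.lf (nat_lit 257635) (.g (nat_lit 2281) (.e (nat_lit 164238) (nat_lit 187) (.e (nat_lit 1660) (nat_lit 115) (.e (nat_lit 393251) (nat_lit 18) (.e (nat_lit 164179) (nat_lit 154) (.e (nat_lit 57420) (nat_lit 13) .nil))))) .nil)))) (.nd (nat_lit 5) (.nd (nat_lit 6) 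
(.lf (nat_lit 257555) (.g (nat_lit 2724) (.e (nat_lit 164238) (nat_lit 187) (.e (nat_lit 1659) (nat_lit 115) (.e (nat_lit 393251) (nat_lit 18) (.e (nat_lit 164182) (nat_lit 154) (.e (nat_lit 57420) (nat_lit 13) .nil))))) .nil)) 
(.lf (nat_lit 257619) (.g (nat_lit 3170) (.e (nat_lit 164238) (nat_lit 187) (.e (nat_lit 1659) (nat_lit 115) (.e (nat_lit 393301) (nat_lit 27) (.e (nat_lit 491560) (nat_lit 10) (.e (nat_lit 344090) (nat_lit 18) (.e (nat_lit 6923) (nat_lit 371) (.e (nat_lit 2607) (nat_lit 163) .nil))))))) (.g (nat_lit 4) .nil .nil)))) (.nd (nat_lit 6) 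
(.lf (nat_lit 257587) (.g (nat_lit 2523) (.e (nat_lit 164238) (nat_lit 187) (.e (nat_lit 1659) (nat_lit 115) (.e (nat_lit 393301) (nat_lit 27) (.e (nat_lit 491558) (nat_lit 10) (.e (nat_lit 344172) (nat_lit 41) (.e (nat_lit 753684) (nat_lit 8) .nil)))))) (.g (nat_lit 4) .nil .nil))) 
(.lf (nat_lit 257651) (.g (nat_lit 1463) (.e (nat_lit 164238) (nat_lit 187) (.e (nat_lit 1661) (nat_lit 115) (.e (nat_lit 393238) (nat_lit 17) (.e (nat_lit 3558) (nat_lit 221) .nil)))) .nil))))) (.nd (nat_lit 4) (.nd (nat_lit 5) (.nd (nat_lit 6) 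
(.lf (nat_lit 257547) (.g (nat_lit 2096) (.e (nat_lit 164238) (nat_lit 187) (.e (nat_lit 1659) (nat_lit 115) (.e (nat_lit 393251) (nat_lit 18) (.e (nat_lit 164153) (nat_lit 152) .nil)))) .nil)) 
(.lf (nat_lit 257611) (.g (nat_lit 3328) (.e (nat_lit 164238) (nat_lit 187) (.e (nat_lit 1659) (nat_lit 115) (.e (nat_lit 393301) (nat_lit 27) (.e (nat_lit 491560) (nat_lit 10) (.e (nat_lit 344088) (nat_lit 18) (.e (nat_lit 6923) (nat_lit 371) (.e (nat_lit 2607) (nat_lit 163) .nil))))))) (.g (nat_lit 4) .nil .nil)))) (.nd (nat_lit 6) 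
(.lf (nat_lit 257579) (.g (nat_lit 2015) (.e (nat_lit 164238) (nat_lit 187) (.e (nat_lit 1659) (nat_lit 115) (.e (nat_lit 393301) (nat_lit 27) (.e (nat_lit 491558) (nat_lit 10) (.e (nat_lit 344095) (nat_lit 18) .nil))))) .nil)) 
(.lf (nat_lit 257643) (.g (nat_lit 2064) (.e (nat_lit 164238) (nat_lit 187) (.e (nat_lit 1660) (nat_lit 115) (.e (nat_lit 393253) (nat_lit 18) (.e (nat_lit 164179) (nat_lit 154) (.e (nat_lit 57421) (nat_lit 13) .nil))))) .nil)))) (.nd (nat_lit 5) (.nd (nat_lit 6) 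
(.lf (nat_lit 257563) (.g (nat_lit 2703) (.e (nat_lit 164238) (nat_lit 187) (.e (nat_lit 1659) (nat_lit 115) (.e (nat_lit 393253) (nat_lit 18) (.e (nat_lit 164151) (nat_lit 152) (.e (nat_lit 1207) (nat_lit 89) (.e (nat_lit 73754) (nat_lit 8) (.e (nat_lit 557094) (nat_lit 12) .nil))))))) (.g (nat_lit 4) .nil .nil))) 
(.lf (nat_lit 257627) (.g (nat_lit 3203) (.e (nat_lit 164238) (nat_lit 187) (.e (nat_lit 1659) (nat_lit 115) (.e (nat_lit 393301) (nat_lit 27) (.e (nat_lit 491560) (nat_lit 10) (.e (nat_lit 344170) (nat_lit 41) .nil))))) .nil))) (.nd (nat_lit 6) 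
(.lf (nat_lit 257595) (.g (nat_lit 2841) (.e (nat_lit 164238) (nat_lit 187) (.e (nat_lit 1659) (nat_lit 115) (.e (nat_lit 393301) (nat_lit 27) (.e (nat_lit 491559) (nat_lit 10) (.e (nat_lit 344171) (nat_lit 41) (.e (nat_lit 753686) (nat_lit 8) .nil)))))) (.g (nat_lit 4) .nil .nil))) 
(.lf (nat_lit 257659) (.g (nat_lit 2235) (.e (nat_lit 164238) (nat_lit 187) (.e (nat_lit 1661) (nat_lit 115) (.e (nat_lit 393253) (nat_lit 18) (.e (nat_lit 164147) (nat_lit 152) (.e (nat_lit 1210) (nat_lit 89) .nil))))) .nil)))))) (.nd (nat_lit 3) (.nd (nat_lit 4) (.nd (nat_lit 5) (.nd (nat_lit 6) 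
(.lf (nat_lit 257543) (.g (nat_lit 1452) (.e (nat_lit 164238) (nat_lit 187) (.e (nat_lit 1659) (nat_lit 115) (.e (nat_lit 393234) (nat_lit 17) (.e (nat_lit 3461) (nat_lit 216) .nil)))) .nil)) 
(.lf (nat_lit 257607) (.g (nat_lit 3385) (.e (nat_lit 164238) (nat_lit 187) (.e (nat_lit 1659) (nat_lit 115) (.e (nat_lit 393301) (nat_lit 27) (.e (nat_lit 491560) (nat_lit 10) (.e (nat_lit 344088) (nat_lit 18) (.e (nat_lit 6863) (nat_lit 371) (.e (nat_lit 2612) (nat_lit 163) .nil))))))) (.g (nat_lit 4) .nil .nil)))) (.nd (nat_lit 6) 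
(.lf (nat_lit 257575) (.g (nat_lit 2659) (.e (nat_lit 164238) (nat_lit 187) (.e (nat_lit 1659) (nat_lit 115) (.e (nat_lit 393301) (nat_lit 27) (.e (nat_lit 491558) (nat_lit 10) (.e (nat_lit 344088) (nat_lit 18) (.e (nat_lit 6923) (nat_lit 371) (.e (nat_lit 2601) (nat_lit 163) .nil))))))) (.g (nat_lit 4) .nil .nil))) 
(.lf (nat_lit 257639) (.g (nat_lit 1089) (.e (nat_lit 164238) (nat_lit 187) (.e (nat_lit 1660) (nat_lit 115) (.e (nat_lit 393252) (nat_lit 18) (.e (nat_lit 164161) (nat_lit 152) .nil)))) .nil)))) (.nd (nat_lit 5) (.nd (nat_lit 6) 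
(.lf (nat_lit 257559) (.g (nat_lit 2134) (.e (nat_lit 164238) (nat_lit 187) (.e (nat_lit 1659) (nat_lit 115) (.e (nat_lit 393253) (nat_lit 18) (.e (nat_lit 164147) (nat_lit 152) (.e (nat_lit 1211) (nat_lit 89) .nil))))) .nil)) 
(.lf (nat_lit 257623) (.g (nat_lit 3292) (.e (nat_lit 164238) (nat_lit 187) (.e (nat_lit 1659) (nat_lit 115) (.e (nat_lit 393301) (nat_lit 27) (.e (nat_lit 491560) (nat_lit 10) (.e (nat_lit 344095) (nat_lit 18) .nil))))) .nil))) (.nd (nat_lit 6) 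
(.lf (nat_lit 257591) (.g (nat_lit 3162) (.e (nat_lit 164238) (nat_lit 187) (.e (nat_lit 1659) (nat_lit 115) (.e (nat_lit 393301) (nat_lit 27) (.e (nat_lit 491559) (nat_lit 10) (.e (nat_lit 344090) (nat_lit 18) (.e (nat_lit 6923) (nat_lit 371) (.e (nat_lit 2610) (nat_lit 163) .nil))))))) (.g (nat_lit 4) .nil .nil))) 
(.lf (nat_lit 257655) (.g (nat_lit 2001) (.e (nat_lit 164238) (nat_lit 187) (.e (nat_lit 1661) (nat_lit 115) (.e (nat_lit 393251) (nat_lit 18) (.e (nat_lit 164179) (nat_lit 154) (.e (nat_lit 57421) (nat_lit 13) .nil))))) .nil))))) (.nd (nat_lit 4) (.nd (nat_lit 5) (.nd (nat_lit 6) 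
(.lf (nat_lit 257551) (.g (nat_lit 2893) (.e (nat_lit 164238) (nat_lit 187) (.e (nat_lit 1659) (nat_lit 115) (.e (nat_lit 393251) (nat_lit 18) (.e (nat_lit 164179) (nat_lit 154) (.e (nat_lit 57421) (nat_lit 13) .nil))))) .nil)) 
(.lf (nat_lit 257615) (.g (nat_lit 3705) (.e (nat_lit 164238) (nat_lit 187) (.e (nat_lit 1659) (nat_lit 115) (.e (nat_lit 393301) (nat_lit 27) (.e (nat_lit 491560) (nat_lit 10) (.e (nat_lit 344089) (nat_lit 18) (.e (nat_lit 6920) (nat_lit 371) (.e (nat_lit 2611) (nat_lit 163) .nil))))))) (.g (nat_lit 4) .nil .nil)))) (.nd (nat_lit 6) 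
(.lf (nat_lit 257583) (.g (nat_lit 2365) (.e (nat_lit 164238) (nat_lit 187) (.e (nat_lit 1659) (nat_lit 115) (.e (nat_lit 393301) (nat_lit 27) (.e (nat_lit 491558) (nat_lit 10) (.e (nat_lit 344170) (nat_lit 41) .nil))))) .nil)) 
(.lf (nat_lit 257647) (.g (nat_lit 659) (.e (nat_lit 164238) (nat_lit 187) (.e (nat_lit 1661) (nat_lit 115) (.e (nat_lit 393236) (nat_lit 17) .nil))) .nil)))) (.nd (nat_lit 5) (.nd (nat_lit 6) 
(.lf (nat_lit 257567) (.g (nat_lit 2439) (.e (nat_lit 164238) (nat_lit 187) (.e (nat_lit 1659) (nat_lit 115) (.e (nat_lit 393253) (nat_lit 18) (.e (nat_lit 164179) (nat_lit 154) (.e (nat_lit 57420) (nat_lit 13) .nil))))) .nil)) 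
(.lf (nat_lit 257631) (.g (nat_lit 365) (.e (nat_lit 164238) (nat_lit 187) (.e (nat_lit 1660) (nat_lit 115) (.e (nat_lit 393251) (nat_lit 18) .nil))) .nil))) (.nd (nat_lit 6) 
(.lf (nat_lit 257599) (.g (nat_lit 2837) (.e (nat_lit 164238) (nat_lit 187) (.e (nat_lit 1659) (nat_lit 115) (.e (nat_lit 393301) (nat_lit 27) (.e (nat_lit 491560) (nat_lit 10) (.e (nat_lit 344087) (nat_lit 18) .nil))))) .nil)) 
(.lf (nat_lit 257663) (.g (nat_lit 2240) (.e (nat_lit 164238) (nat_lit 187) (.e (nat_lit 1661) (nat_lit 115) (.e (nat_lit 393253) (nat_lit 18) (.e (nat_lit 164153) (nat_lit 152) (.e (nat_lit 1214) (nat_lit 89) .nil))))) .nil)))))))))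

noncomputable def tv3334 : DT := (.nd (nat_lit 0) (.nd (nat_lit 1) (.nd (nat_lit 2) (.nd (nat_lit 3) (.nd (nat_lit 4) (.nd (nat_lit 5) (.nd (nat_lit 6) 
(.lf (nat_lit 257664) (.g (nat_lit 2277) (.e (nat_lit 164238) (nat_lit 187) (.e (nat_lit 1661) (nat_lit 115) (.e (nat_lit 393253) (nat_lit 18) (.e (nat_lit 164161) (nat_lit 152) (.e (nat_lit 1208) (nat_lit 89) .nil))))) .nil)) 
(.lf (nat_lit 257728) (.g (nat_lit 2314) (.e (nat_lit 164239) (nat_lit 187) (.e (nat_lit 1659) (nat_lit 115) (.e (nat_lit 393301) (nat_lit 27) (.e (nat_lit 491558) (nat_lit 10) (.e (nat_lit 344170) (nat_lit 41) .nil))))) .nil))) (.nd (nat_lit 6) 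
(.lf (nat_lit 257696) (.g (nat_lit 5858) (.e (nat_lit 164239) (nat_lit 187) (.e (nat_lit 1253) (nat_lit 92) (.e (nat_lit 98373) (nat_lit 29) (.e (nat_lit 450588) (nat_lit 10) (.e (nat_lit 573473) (nat_lit 12) (.e (nat_lit 57348) (nat_lit 0) (.e (nat_lit 6923) (nat_lit 371) (.e (nat_lit 2610) (nat_lit 163) .nil)))))))) (.g (nat_lit 4) .nil .nil))) 
(.lf (nat_lit 257760) (.g (nat_lit 3752) (.e (nat_lit 164239) (nat_lit 187) (.e (nat_lit 1659) (nat_lit 115) (.e (nat_lit 393301) (nat_lit 27) (.e (nat_lit 491560) (nat_lit 10) (.e (nat_lit 344172) (nat_lit 41) (.e (nat_lit 753685) (nat_lit 8) .nil)))))) (.g (nat_lit 6) .nil .nil))))) (.nd (nat_lit 5) (.nd (nat_lit 6) 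
(.lf (nat_lit 257680) (.g (nat_lit 3241) (.e (nat_lit 164239) (nat_lit 187) (.e (nat_lit 1235) (nat_lit 91) (.e (nat_lit 90170) (nat_lit 13) (.e (nat_lit 172106) (nat_lit 10) (.e (nat_lit 434227) (nat_lit 20) (.e (nat_lit 507929) (nat_lit 10) (.e (nat_lit 5762) (nat_lit 315) .nil))))))) (.g (nat_lit 5) .nil .nil))) 
(.lf (nat_lit 257744) (.g (nat_lit 2837) (.e (nat_lit 164239) (nat_lit 187) (.e (nat_lit 1659) (nat_lit 115) (.e (nat_lit 393301) (nat_lit 27) (.e (nat_lit 491560) (nat_lit 10) (.e (nat_lit 344087) (nat_lit 18) (.e (nat_lit 6916) (nat_lit 371) (.e (nat_lit 2607) (nat_lit 163) .nil))))))) (.g (nat_lit 4) .nil .nil)))) (.nd (nat_lit 6) 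
(.lf (nat_lit 257712) (.g (nat_lit 1876) (.e (nat_lit 164239) (nat_lit 187) (.e (nat_lit 1659) (nat_lit 115) (.e (nat_lit 393251) (nat_lit 18) (.e (nat_lit 164182) (nat_lit 154) .nil)))) .nil)) 
(.lf (nat_lit 257776) (.g (nat_lit 1744) (.e (nat_lit 164239) (nat_lit 187) (.e (nat_lit 1661) (nat_lit 115) (.e (nat_lit 393251) (nat_lit 18) (.e (nat_lit 164161) (nat_lit 152) (.e (nat_lit 1007) (nat_lit 81) .nil))))) .nil))))) (.nd (nat_lit 4) (.nd (nat_lit 5) (.nd (nat_lit 6) 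
(.lf (nat_lit 257672) (.g (nat_lit 3521) (.e (nat_lit 164239) (nat_lit 187) (.e (nat_lit 1234) (nat_lit 91) (.e (nat_lit 90170) (nat_lit 13) (.e (nat_lit 172106) (nat_lit 10) (.e (nat_lit 434227) (nat_lit 20) .nil))))) .nil)) 
(.lf (nat_lit 257736) (.g (nat_lit 2869) (.e (nat_lit 164239) (nat_lit 187) (.e (nat_lit 1659) (nat_lit 115) (.e (nat_lit 393301) (nat_lit 27) (.e (nat_lit 491559) (nat_lit 10) (.e (nat_lit 344091) (nat_lit 18) (.e (nat_lit 6869) (nat_lit 371) (.e (nat_lit 2608) (nat_lit 163) .nil))))))) (.g (nat_lit 4) .nil .nil)))) (.nd (nat_lit 6) 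
(.lf (nat_lit 257704) (.g (nat_lit 3764) (.e (nat_lit 164239) (nat_lit 187) (.e (nat_lit 1638) (nat_lit 114) (.e (nat_lit 385074) (nat_lit 31) (.e (nat_lit 573493) (nat_lit 15) (.e (nat_lit 81953) (nat_lit 22) (.e (nat_lit 90165) (nat_lit 12) .nil)))))) (.g (nat_lit 0) .nil .nil))) 
(.lf (nat_lit 257768) (.g (nat_lit 2100) (.e (nat_lit 164239) (nat_lit 187) (.e (nat_lit 1660) (nat_lit 115) (.e (nat_lit 393253) (nat_lit 18) (.e (nat_lit 164179) (nat_lit 154) (.e (nat_lit 57420) (nat_lit 13) .nil))))) .nil)))) (.nd (nat_lit 5) (.nd (nat_lit 6) 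
(.lf (nat_lit 257688) (.g (nat_lit 2443) (.e (nat_lit 164239) (nat_lit 187) (.e (nat_lit 1253) (nat_lit 92) (.e (nat_lit 98370) (nat_lit 28) (.e (nat_lit 442424) (nat_lit 22) (.e (nat_lit 196628) (nat_lit 9) (.e (nat_lit 970) (nat_lit 81) (.e (nat_lit 6713) (nat_lit 360) .nil))))))) (.g (nat_lit 4) .nil .nil))) 
(.lf (nat_lit 257752) (.g (nat_lit 5335) (.e (nat_lit 164239) (nat_lit 187) (.e (nat_lit 1659) (nat_lit 115) (.e (nat_lit 393301) (nat_lit 27) (.e (nat_lit 491560) (nat_lit 10) (.e (nat_lit 344091) (nat_lit 18) (.e (nat_lit 6923) (nat_lit 371) (.e (nat_lit 2610) (nat_lit 163) .nil))))))) (.g (nat_lit 0) .nil .nil)))) (.nd (nat_lit 6) 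
(.lf (nat_lit 257720) (.g (nat_lit 2277) (.e (nat_lit 164239) (nat_lit 187) (.e (nat_lit 1659) (nat_lit 115) (.e (nat_lit 393301) (nat_lit 27) (.e (nat_lit 491558) (nat_lit 10) (.e (nat_lit 344088) (nat_lit 18) .nil))))) .nil)) 
(.lf (nat_lit 257784) (.g (nat_lit 1758) (.e (nat_lit 164239) (nat_lit 187) (.e (nat_lit 1661) (nat_lit 115) (.e (nat_lit 393253) (nat_lit 18) (.e (nat_lit 164149) (nat_lit 152) .nil)))) .nil)))))) (.nd (nat_lit 3) (.nd (nat_lit 4) (.nd (nat_lit 5) (.nd (nat_lit 6) 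
(.lf (nat_lit 257668) (.g (nat_lit 2479) (.e (nat_lit 164238) (nat_lit 187) (.e (nat_lit 1661) (nat_lit 115) (.e (nat_lit 393253) (nat_lit 18) (.e (nat_lit 164179) (nat_lit 154) (.e (nat_lit 57420) (nat_lit 13) .nil))))) .nil)) 
(.lf (nat_lit 257732) (.g (nat_lit 2484) (.e (nat_lit 164239) (nat_lit 187) (.e (nat_lit 1659) (nat_lit 115) (.e (nat_lit 393301) (nat_lit 27) (.e (nat_lit 491558) (nat_lit 10) (.e (nat_lit 344172) (nat_lit 41) (.e (nat_lit 753685) (nat_lit 8) .nil)))))) (.g (nat_lit 4) .nil .nil)))) (.nd (nat_lit 6) 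
(.lf (nat_lit 257700) (.g (nat_lit 509) (.e (nat_lit 164239) (nat_lit 187) (.e (nat_lit 1638) (nat_lit 114) (.e (nat_lit 385045) (nat_lit 21) .nil))) .nil)) 
(.lf (nat_lit 257764) (.g (nat_lit 1731) (.e (nat_lit 164239) (nat_lit 187) (.e (nat_lit 1660) (nat_lit 115) (.e (nat_lit 393253) (nat_lit 18) (.e (nat_lit 164151) (nat_lit 152) (.e (nat_lit 1207) (nat_lit 89) .nil))))) .nil)))) (.nd (nat_lit 5) (.nd (nat_lit 6) 
(.lf (nat_lit 257684) (.g (nat_lit 2156) (.e (nat_lit 164239) (nat_lit 187) (.e (nat_lit 1235) (nat_lit 91) (.e (nat_lit 90176) (nat_lit 15) (.e (nat_lit 188447) (nat_lit 22) (.e (nat_lit 196628) (nat_lit 9) .nil))))) .nil)) 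
(.lf (nat_lit 257748) (.g (nat_lit 3716) (.e (nat_lit 164239) (nat_lit 187) (.e (nat_lit 1659) (nat_lit 115) (.e (nat_lit 393301) (nat_lit 27) (.e (nat_lit 491560) (nat_lit 10) (.e (nat_lit 344088) (nat_lit 18) (.e (nat_lit 6923) (nat_lit 371) (.e (nat_lit 2607) (nat_lit 163) .nil))))))) (.g (nat_lit 5) .nil .nil)))) (.nd (nat_lit 6) 
(.lf (nat_lit 257716) (.g (nat_lit 2377) (.e (nat_lit 164239) (nat_lit 187) (.e (nat_lit 1659) (nat_lit 115) (.e (nat_lit 393253) (nat_lit 18) (.e (nat_lit 164162) (nat_lit 152) (.e (nat_lit 1209) (nat_lit 89) .nil))))) .nil)) 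
(.lf (nat_lit 257780) (.g (nat_lit 1425) (.e (nat_lit 164239) (nat_lit 187) (.e (nat_lit 1661) (nat_lit 115) (.e (nat_lit 393252) (nat_lit 18) (.e (nat_lit 164159) (nat_lit 152) (.e (nat_lit 7936) (nat_lit 89) .nil))))) .nil))))) (.nd (nat_lit 4) (.nd (nat_lit 5) (.nd (nat_lit 6) 
(.lf (nat_lit 257676) (.g (nat_lit 2754) (.e (nat_lit 164239) (nat_lit 187) (.e (nat_lit 1234) (nat_lit 91) (.e (nat_lit 90176) (nat_lit 15) (.e (nat_lit 188447) (nat_lit 22) (.e (nat_lit 196628) (nat_lit 9) (.e (nat_lit 968) (nat_lit 81) (.e (nat_lit 6713) (nat_lit 360) .nil))))))) (.g (nat_lit 4) .nil .nil))) 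
(.lf (nat_lit 257740) (.g (nat_lit 2710) (.e (nat_lit 164239) (nat_lit 187) (.e (nat_lit 1659) (nat_lit 115) (.e (nat_lit 393301) (nat_lit 27) (.e (nat_lit 491559) (nat_lit 10) (.e (nat_lit 344170) (nat_lit 41) .nil))))) .nil))) (.nd (nat_lit 6) 
(.lf (nat_lit 257708) (.g (nat_lit 1841) (.e (nat_lit 164239) (nat_lit 187) (.e (nat_lit 1658) (nat_lit 115) (.e (nat_lit 393301) (nat_lit 27) (.e (nat_lit 491558) (nat_lit 10) (.e (nat_lit 344091) (nat_lit 18) .nil))))) .nil)) 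
(.lf (nat_lit 257772) (.g (nat_lit 441) (.e (nat_lit 164239) (nat_lit 187) (.e (nat_lit 1661) (nat_lit 115) (.e (nat_lit 393238) (nat_lit 17) .nil))) .nil)))) (.nd (nat_lit 5) (.nd (nat_lit 6) 
(.lf (nat_lit 257692) (.g (nat_lit 3086) (.e (nat_lit 164239) (nat_lit 187) (.e (nat_lit 1253) (nat_lit 92) (.e (nat_lit 98373) (nat_lit 29) (.e (nat_lit 450576) (nat_lit 2) (.e (nat_lit 507930) (nat_lit 10) .nil))))) .nil)) 
(.lf (nat_lit 257756) (.g (nat_lit 3184) (.e (nat_lit 164239) (nat_lit 187) (.e (nat_lit 1659) (nat_lit 115) (.e (nat_lit 393301) (nat_lit 27) (.e (nat_lit 491560) (nat_lit 10) (.e (nat_lit 344095) (nat_lit 18) .nil))))) .nil))) (.nd (nat_lit 6) 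
(.lf (nat_lit 257724) (.g (nat_lit 5163) (.e (nat_lit 164239) (nat_lit 187) (.e (nat_lit 1659) (nat_lit 115) (.e (nat_lit 393301) (nat_lit 27) (.e (nat_lit 491558) (nat_lit 10) (.e (nat_lit 344091) (nat_lit 18) (.e (nat_lit 6923) (nat_lit 371) (.e (nat_lit 2610) (nat_lit 163) .nil))))))) (.g (nat_lit 0) .nil .nil))) 
(.lf (nat_lit 257788) (.g (nat_lit 445) (.e (nat_lit 164239) (nat_lit 187) (.e (nat_lit 1661) (nat_lit 115) (.e (nat_lit 393260) (nat_lit 21) .nil))) .nil))))))) (.nd (nat_lit 2) (.nd (nat_lit 3) (.nd (nat_lit 4) (.nd (nat_lit 5) (.nd (nat_lit 6) 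
(.lf (nat_lit 257666) (.g (nat_lit 3830) (.e (nat_lit 164238) (nat_lit 187) (.e (nat_lit 1661) (nat_lit 115) (.e (nat_lit 393253) (nat_lit 18) (.e (nat_lit 164162) (nat_lit 152) (.e (nat_lit 1209) (nat_lit 89) (.e (nat_lit 73753) (nat_lit 8) (.e (nat_lit 557094) (nat_lit 12) .nil))))))) (.g (nat_lit 5) .nil .nil))) 
(.lf (nat_lit 257730) (.g (nat_lit 2510) (.e (nat_lit 164239) (nat_lit 187) (.e (nat_lit 1659) (nat_lit 115) (.e (nat_lit 393301) (nat_lit 27) (.e (nat_lit 491558) (nat_lit 10) (.e (nat_lit 344171) (nat_lit 41) (.e (nat_lit 753686) (nat_lit 8) .nil)))))) (.g (nat_lit 4) .nil .nil)))) (.nd (nat_lit 6) 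
(.lf (nat_lit 257698) (.g (nat_lit 1996) (.e (nat_lit 164239) (nat_lit 187) (.e (nat_lit 1428) (nat_lit 108) (.e (nat_lit 336369) (nat_lit 27) (.e (nat_lit 426109) (nat_lit 1) (.e (nat_lit 164163) (nat_lit 152) .nil))))) .nil)) 
(.lf (nat_lit 257762) (.g (nat_lit 2311) (.e (nat_lit 164239) (nat_lit 187) (.e (nat_lit 1660) (nat_lit 115) (.e (nat_lit 393251) (nat_lit 18) (.e (nat_lit 164179) (nat_lit 154) (.e (nat_lit 57420) (nat_lit 13) .nil))))) .nil)))) (.nd (nat_lit 5) (.nd (nat_lit 6) 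
(.lf (nat_lit 257682) (.g (nat_lit 3681) (.e (nat_lit 164239) (nat_lit 187) (.e (nat_lit 1235) (nat_lit 91) (.e (nat_lit 90170) (nat_lit 13) (.e (nat_lit 172106) (nat_lit 10) (.e (nat_lit 434227) (nat_lit 20) (.e (nat_lit 507930) (nat_lit 10) (.e (nat_lit 5763) (nat_lit 315) .nil))))))) (.g (nat_lit 7) .nil .nil))) 
(.lf (nat_lit 257746) (.g (nat_lit 3594) (.e (nat_lit 164239) (nat_lit 187) (.e (nat_lit 1659) (nat_lit 115) (.e (nat_lit 393301) (nat_lit 27) (.e (nat_lit 491560) (nat_lit 10) (.e (nat_lit 344088) (nat_lit 18) (.e (nat_lit 6916) (nat_lit 371) (.e (nat_lit 2607) (nat_lit 163) .nil))))))) (.g (nat_lit 5) .nil .nil)))) (.nd (nat_lit 6) 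
(.lf (nat_lit 257714) (.g (nat_lit 557) (.e (nat_lit 164239) (nat_lit 187) (.e (nat_lit 1659) (nat_lit 115) (.e (nat_lit 393253) (nat_lit 18) .nil))) .nil)) 
(.lf (nat_lit 257778) (.g (nat_lit 2444) (.e (nat_lit 164239) (nat_lit 187) (.e (nat_lit 1661) (nat_lit 115) (.e (nat_lit 393251) (nat_lit 18) (.e (nat_lit 164179) (nat_lit 154) (.e (nat_lit 57422) (nat_lit 13) (.e (nat_lit 344132) (nat_lit 26) (.e (nat_lit 557093) (nat_lit 12) .nil))))))) (.g (nat_lit 4) .nil .nil)))))) (.nd (nat_lit 4) (.nd (nat_lit 5) (.nd (nat_lit 6) 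
(.lf (nat_lit 257674) (.g (nat_lit 2180) (.e (nat_lit 164239) (nat_lit 187) (.e (nat_lit 1234) (nat_lit 91) (.e (nat_lit 90170) (nat_lit 13) (.e (nat_lit 172113) (nat_lit 10) (.e (nat_lit 434227) (nat_lit 20) .nil))))) .nil)) 
(.lf (nat_lit 257738) (.g (nat_lit 2664) (.e (nat_lit 164239) (nat_lit 187) (.e (nat_lit 1659) (nat_lit 115) (.e (nat_lit 393301) (nat_lit 27) (.e (nat_lit 491559) (nat_lit 10) (.e (nat_lit 344095) (nat_lit 18) .nil))))) .nil))) (.nd (nat_lit 6) 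
(.lf (nat_lit 257706) (.g (nat_lit 1280) (.e (nat_lit 164239) (nat_lit 187) (.e (nat_lit 1638) (nat_lit 114) (.e (nat_lit 385102) (nat_lit 50) (.e (nat_lit 786483) (nat_lit 30) (.e (nat_lit 360483) (nat_lit 15) .nil))))) .nil)) 
(.lf (nat_lit 257770) (.g (nat_lit 1819) (.e (nat_lit 164239) (nat_lit 187) (.e (nat_lit 1660) (nat_lit 115) (.e (nat_lit 393253) (nat_lit 18) (.e (nat_lit 164183) (nat_lit 154) (.e (nat_lit 57420) (nat_lit 13) .nil))))) .nil)))) (.nd (nat_lit 5) (.nd (nat_lit 6) 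
(.lf (nat_lit 257690) (.g (nat_lit 1629) (.e (nat_lit 164239) (nat_lit 187) (.e (nat_lit 1253) (nat_lit 92) (.e (nat_lit 98372) (nat_lit 29) (.e (nat_lit 450579) (nat_lit 5) (.e (nat_lit 532482) (nat_lit 0) .nil))))) .nil)) 
(.lf (nat_lit 257754) (.g (nat_lit 2455) (.e (nat_lit 164239) (nat_lit 187) (.e (nat_lit 1659) (nat_lit 115) (.e (nat_lit 393301) (nat_lit 27) (.e (nat_lit 491560) (nat_lit 10) (.e (nat_lit 344094) (nat_lit 18) .nil))))) .nil))) (.nd (nat_lit 6) 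
(.lf (nat_lit 257722) (.g (nat_lit 1888) (.e (nat_lit 164239) (nat_lit 187) (.e (nat_lit 1659) (nat_lit 115) (.e (nat_lit 393301) (nat_lit 27) (.e (nat_lit 491558) (nat_lit 10) (.e (nat_lit 344090) (nat_lit 18) .nil))))) .nil)) 
(.lf (nat_lit 257786) (.g (nat_lit 2764) (.e (nat_lit 164239) (nat_lit 187) (.e (nat_lit 1661) (nat_lit 115) (.e (nat_lit 393253) (nat_lit 18) (.e (nat_lit 164162) (nat_lit 152) (.e (nat_lit 1209) (nat_lit 89) (.e (nat_lit 73753) (nat_lit 8) (.e (nat_lit 557093) (nat_lit 12) .nil))))))) (.g (nat_lit 4) .nil .nil))))))) (.nd (nat_lit 3) (.nd (nat_lit 4) (.nd (nat_lit 5) (.nd (nat_lit 6) 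
(.lf (nat_lit 257670) (.g (nat_lit 1307) (.e (nat_lit 164238) (nat_lit 187) (.e (nat_lit 1661) (nat_lit 115) (.e (nat_lit 393260) (nat_lit 21) (.e (nat_lit 409616) (nat_lit 10) .nil)))) .nil)) 
(.lf (nat_lit 257734) (.g (nat_lit 2621) (.e (nat_lit 164239) (nat_lit 187) (.e (nat_lit 1659) (nat_lit 115) (.e (nat_lit 393301) (nat_lit 27) (.e (nat_lit 491559) (nat_lit 10) (.e (nat_lit 344088) (nat_lit 18) .nil))))) .nil))) (.nd (nat_lit 6) 
(.lf (nat_lit 257702) (.g (nat_lit 4760) (.e (nat_lit 164239) (nat_lit 187) (.e (nat_lit 1638) (nat_lit 114) (.e (nat_lit 385072) (nat_lit 31) (.e (nat_lit 573493) (nat_lit 15) (.e (nat_lit 81953) (nat_lit 22) (.e (nat_lit 90165) (nat_lit 12) .nil)))))) (.g (nat_lit 0) .nil .nil))) 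
(.lf (nat_lit 257766) (.g (nat_lit 1114) (.e (nat_lit 164239) (nat_lit 187) (.e (nat_lit 1660) (nat_lit 115) (.e (nat_lit 393253) (nat_lit 18) (.e (nat_lit 164178) (nat_lit 154) .nil)))) .nil)))) (.nd (nat_lit 5) (.nd (nat_lit 6) 
(.lf (nat_lit 257686) (.g (nat_lit 2187) (.e (nat_lit 164239) (nat_lit 187) (.e (nat_lit 1252) (nat_lit 92) (.e (nat_lit 98370) (nat_lit 28) (.e (nat_lit 442424) (nat_lit 22) (.e (nat_lit 196628) (nat_lit 9) .nil))))) .nil)) 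
(.lf (nat_lit 257750) (.g (nat_lit 4347) (.e (nat_lit 164239) (nat_lit 187) (.e (nat_lit 1659) (nat_lit 115) (.e (nat_lit 393301) (nat_lit 27) (.e (nat_lit 491560) (nat_lit 10) (.e (nat_lit 344091) (nat_lit 18) (.e (nat_lit 6852) (nat_lit 371) (.e (nat_lit 2612) (nat_lit 163) .nil))))))) (.g (nat_lit 7) .nil .nil)))) (.nd (nat_lit 6) 
(.lf (nat_lit 257718) (.g (nat_lit 1827) (.e (nat_lit 164239) (nat_lit 187) (.e (nat_lit 1659) (nat_lit 115) (.e (nat_lit 393301) (nat_lit 27) (.e (nat_lit 491551) (nat_lit 9) (.e (nat_lit 336248) (nat_lit 15) .nil))))) .nil)) 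
(.lf (nat_lit 257782) (.g (nat_lit 1835) (.e (nat_lit 164239) (nat_lit 187) (.e (nat_lit 1661) (nat_lit 115) (.e (nat_lit 393252) (nat_lit 18) (.e (nat_lit 164161) (nat_lit 152) (.e (nat_lit 1007) (nat_lit 81) .nil))))) .nil))))) (.nd (nat_lit 4) (.nd (nat_lit 5) (.nd (nat_lit 6) 
(.lf (nat_lit 257678) (.g (nat_lit 2088) (.e (nat_lit 164239) (nat_lit 187) (.e (nat_lit 1234) (nat_lit 91) (.e (nat_lit 90176) (nat_lit 15) (.e (nat_lit 188450) (nat_lit 23) (.e (nat_lit 204815) (nat_lit 17) .nil))))) .nil)) 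
(.lf (nat_lit 257742) (.g (nat_lit 2649) (.e (nat_lit 164239) (nat_lit 187) (.e (nat_lit 1659) (nat_lit 115) (.e (nat_lit 393301) (nat_lit 27) (.e (nat_lit 491559) (nat_lit 10) (.e (nat_lit 344172) (nat_lit 41) .nil))))) .nil))) (.nd (nat_lit 6) 
(.lf (nat_lit 257710) (.g (nat_lit 2849) (.e (nat_lit 164239) (nat_lit 187) (.e (nat_lit 1659) (nat_lit 115) (.e (nat_lit 393251) (nat_lit 18) (.e (nat_lit 164179) (nat_lit 154) (.e (nat_lit 57420) (nat_lit 13) .nil))))) .nil)) 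
(.lf (nat_lit 257774) (.g (nat_lit 1778) (.e (nat_lit 164239) (nat_lit 187) (.e (nat_lit 1661) (nat_lit 115) (.e (nat_lit 393238) (nat_lit 17) (.e (nat_lit 3562) (nat_lit 221) .nil)))) .nil)))) (.nd (nat_lit 5) (.nd (nat_lit 6) 
(.lf (nat_lit 257694) (.g (nat_lit 2269) (.e (nat_lit 164239) (nat_lit 187) (.e (nat_lit 1253) (nat_lit 92) (.e (nat_lit 98373) (nat_lit 29) (.e (nat_lit 450587) (nat_lit 10) (.e (nat_lit 573473) (nat_lit 12) (.e (nat_lit 57348) (nat_lit 0) (.e (nat_lit 6853) (nat_lit 371) (.e (nat_lit 2612) (nat_lit 163) .nil)))))))) (.g (nat_lit 4) .nil .nil))) 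
(.lf (nat_lit 257758) (.g (nat_lit 3437) (.e (nat_lit 164239) (nat_lit 187) (.e (nat_lit 1659) (nat_lit 115) (.e (nat_lit 393301) (nat_lit 27) (.e (nat_lit 491560) (nat_lit 10) (.e (nat_lit 344171) (nat_lit 41) (.e (nat_lit 753685) (nat_lit 8) .nil)))))) (.g (nat_lit 4) .nil .nil)))) (.nd (nat_lit 6) 
(.lf (nat_lit 257726) (.g (nat_lit 1964) (.e (nat_lit 164239) (nat_lit 187) (.e (nat_lit 1659) (nat_lit 115) (.e (nat_lit 393301) (nat_lit 27) (.e (nat_lit 491558) (nat_lit 10) (.e (nat_lit 344095) (nat_lit 18) .nil))))) .nil)) 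
(.lf (nat_lit 257790) (.g (nat_lit 1129) (.e (nat_lit 164239) (nat_lit 187) (.e (nat_lit 1661) (nat_lit 115) (.e (nat_lit 393260) (nat_lit 21) (.e (nat_lit 409648) (nat_lit 18) .nil)))) .nil)))))))) (.nd (nat_lit 1) (.nd (nat_lit 2) (.nd (nat_lit 3) (.nd (nat_lit 4) (.nd (nat_lit 5) (.nd (nat_lit 6) 
(.lf (nat_lit 257665) (.g (nat_lit 4183) (.e (nat_lit 164238) (nat_lit 187) (.e (nat_lit 1661) (nat_lit 115) (.e (nat_lit 393253) (nat_lit 18) (.e (nat_lit 164162) (nat_lit 152) (.e (nat_lit 1209) (nat_lit 89) (.e (nat_lit 73753) (nat_lit 8) (.e (nat_lit 557091) (nat_lit 12) .nil))))))) (.g (nat_lit 5) .nil .nil))) 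
(.lf (nat_lit 257729) (.g (nat_lit 2300) (.e (nat_lit 164239) (nat_lit 187) (.e (nat_lit 1659) (nat_lit 115) (.e (nat_lit 393301) (nat_lit 27) (.e (nat_lit 491558) (nat_lit 10) (.e (nat_lit 344171) (nat_lit 41) .nil))))) .nil))) (.nd (nat_lit 6) 
(.lf (nat_lit 257697) (.g (nat_lit 874) (.e (nat_lit 164239) (nat_lit 187) (.e (nat_lit 1253) (nat_lit 92) (.e (nat_lit 98381) (nat_lit 31) (.e (nat_lit 466976) (nat_lit 22) .nil)))) .nil)) 
(.lf (nat_lit 257761) (.g (nat_lit 1544) (.e (nat_lit 164239) (nat_lit 187) (.e (nat_lit 1660) (nat_lit 115) (.e (nat_lit 393251) (nat_lit 18) (.e (nat_lit 164177) (nat_lit 154) .nil)))) .nil)))) (.nd (nat_lit 5) (.nd (nat_lit 6) 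
(.lf (nat_lit 257681) (.g (nat_lit 3491) (.e (nat_lit 164239) (nat_lit 187) (.e (nat_lit 1235) (nat_lit 91) (.e (nat_lit 90170) (nat_lit 13) (.e (nat_lit 172106) (nat_lit 10) (.e (nat_lit 434227) (nat_lit 20) (.e (nat_lit 507930) (nat_lit 10) (.e (nat_lit 5762) (nat_lit 315) .nil))))))) (.g (nat_lit 6) .nil .nil))) 
(.lf (nat_lit 257745) (.g (nat_lit 2874) (.e (nat_lit 164239) (nat_lit 187) (.e (nat_lit 1659) (nat_lit 115) (.e (nat_lit 393301) (nat_lit 27) (.e (nat_lit 491560) (nat_lit 10) (.e (nat_lit 344088) (nat_lit 18) .nil))))) .nil))) (.nd (nat_lit 6) 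
(.lf (nat_lit 257713) (.g (nat_lit 1887) (.e (nat_lit 164239) (nat_lit 187) (.e (nat_lit 1659) (nat_lit 115) (.e (nat_lit 393251) (nat_lit 18) (.e (nat_lit 164183) (nat_lit 154) .nil)))) .nil)) 
(.lf (nat_lit 257777) (.g (nat_lit 2151) (.e (nat_lit 164239) (nat_lit 187) (.e (nat_lit 1661) (nat_lit 115) (.e (nat_lit 393251) (nat_lit 18) (.e (nat_lit 164177) (nat_lit 154) (.e (nat_lit 57422) (nat_lit 13) .nil))))) .nil))))) (.nd (nat_lit 4) (.nd (nat_lit 5) (.nd (nat_lit 6) 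
(.lf (nat_lit 257673) (.g (nat_lit 4439) (.e (nat_lit 164239) (nat_lit 187) (.e (nat_lit 1234) (nat_lit 91) (.e (nat_lit 90170) (nat_lit 13) (.e (nat_lit 172106) (nat_lit 10) (.e (nat_lit 434227) (nat_lit 20) (.e (nat_lit 507930) (nat_lit 10) (.e (nat_lit 5763) (nat_lit 315) .nil))))))) (.g (nat_lit 6) .nil .nil))) 
(.lf (nat_lit 257737) (.g (nat_lit 5498) (.e (nat_lit 164239) (nat_lit 187) (.e (nat_lit 1659) (nat_lit 115) (.e (nat_lit 393301) (nat_lit 27) (.e (nat_lit 491559) (nat_lit 10) (.e (nat_lit 344091) (nat_lit 18) (.e (nat_lit 6923) (nat_lit 371) (.e (nat_lit 2610) (nat_lit 163) .nil))))))) (.g (nat_lit 0) .nil .nil)))) (.nd (nat_lit 6) 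
(.lf (nat_lit 257705) (.g (nat_lit 461) (.e (nat_lit 164239) (nat_lit 187) (.e (nat_lit 1638) (nat_lit 114) (.e (nat_lit 385102) (nat_lit 50) .nil))) .nil)) 
(.lf (nat_lit 257769) (.g (nat_lit 1874) (.e (nat_lit 164239) (nat_lit 187) (.e (nat_lit 1660) (nat_lit 115) (.e (nat_lit 393253) (nat_lit 18) (.e (nat_lit 164182) (nat_lit 154) (.e (nat_lit 57420) (nat_lit 13) .nil))))) .nil)))) (.nd (nat_lit 5) (.nd (nat_lit 6) 
(.lf (nat_lit 257689) (.g (nat_lit 781) (.e (nat_lit 164239) (nat_lit 187) (.e (nat_lit 1253) (nat_lit 92) (.e (nat_lit 98372) (nat_lit 29) (.e (nat_lit 450579) (nat_lit 5) .nil)))) .nil)) 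
(.lf (nat_lit 257753) (.g (nat_lit 3119) (.e (nat_lit 164239) (nat_lit 187) (.e (nat_lit 1659) (nat_lit 115) (.e (nat_lit 393301) (nat_lit 27) (.e (nat_lit 491560) (nat_lit 10) (.e (nat_lit 344093) (nat_lit 18) .nil))))) .nil))) (.nd (nat_lit 6) 
(.lf (nat_lit 257721) (.g (nat_lit 2504) (.e (nat_lit 164239) (nat_lit 187) (.e (nat_lit 1659) (nat_lit 115) (.e (nat_lit 393301) (nat_lit 27) (.e (nat_lit 491558) (nat_lit 10) (.e (nat_lit 344088) (nat_lit 18) (.e (nat_lit 6916) (nat_lit 371) (.e (nat_lit 2610) (nat_lit 163) .nil))))))) (.g (nat_lit 4) .nil .nil))) 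
(.lf (nat_lit 257785) (.g (nat_lit 2522) (.e (nat_lit 164239) (nat_lit 187) (.e (nat_lit 1661) (nat_lit 115) (.e (nat_lit 393253) (nat_lit 18) (.e (nat_lit 164151) (nat_lit 152) (.e (nat_lit 1207) (nat_lit 89) .nil))))) .nil)))))) (.nd (nat_lit 3) (.nd (nat_lit 4) (.nd (nat_lit 5) (.nd (nat_lit 6) 
(.lf (nat_lit 257669) (.g (nat_lit 2482) (.e (nat_lit 164238) (nat_lit 187) (.e (nat_lit 1661) (nat_lit 115) (.e (nat_lit 393253) (nat_lit 18) (.e (nat_lit 164179) (nat_lit 154) (.e (nat_lit 57421) (nat_lit 13) .nil))))) .nil)) 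
(.lf (nat_lit 257733) (.g (nat_lit 2472) (.e (nat_lit 164239) (nat_lit 187) (.e (nat_lit 1659) (nat_lit 115) (.e (nat_lit 393301) (nat_lit 27) (.e (nat_lit 491558) (nat_lit 10) (.e (nat_lit 344172) (nat_lit 41) (.e (nat_lit 753686) (nat_lit 8) .nil)))))) (.g (nat_lit 4) .nil .nil)))) (.nd (nat_lit 6) 
(.lf (nat_lit 257701) (.g (nat_lit 4311) (.e (nat_lit 164239) (nat_lit 187) (.e (nat_lit 1638) (nat_lit 114) (.e (nat_lit 385072) (nat_lit 31) (.e (nat_lit 573482) (nat_lit 13) (.e (nat_lit 65604) (nat_lit 9) (.e (nat_lit 336013) (nat_lit 2) (.e (nat_lit 90165) (nat_lit 12) .nil))))))) (.g (nat_lit 7) .nil .nil))) 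
(.lf (nat_lit 257765) (.g (nat_lit 1630) (.e (nat_lit 164239) (nat_lit 187) (.e (nat_lit 1660) (nat_lit 115) (.e (nat_lit 393253) (nat_lit 18) (.e (nat_lit 164153) (nat_lit 152) (.e (nat_lit 1214) (nat_lit 89) .nil))))) .nil)))) (.nd (nat_lit 5) (.nd (nat_lit 6) 
(.lf (nat_lit 257685) (.g (nat_lit 1804) (.e (nat_lit 164239) (nat_lit 187) (.e (nat_lit 1235) (nat_lit 91) (.e (nat_lit 90176) (nat_lit 15) (.e (nat_lit 188450) (nat_lit 23) (.e (nat_lit 204816) (nat_lit 17) .nil))))) .nil)) 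
(.lf (nat_lit 257749) (.g (nat_lit 3154) (.e (nat_lit 164239) (nat_lit 187) (.e (nat_lit 1659) (nat_lit 115) (.e (nat_lit 393301) (nat_lit 27) (.e (nat_lit 491560) (nat_lit 10) (.e (nat_lit 344089) (nat_lit 18) .nil))))) .nil))) (.nd (nat_lit 6) 
(.lf (nat_lit 257717) (.g (nat_lit 377) (.e (nat_lit 164239) (nat_lit 187) (.e (nat_lit 1659) (nat_lit 115) (.e (nat_lit 393301) (nat_lit 27) .nil))) .nil)) 
(.lf (nat_lit 257781) (.g (nat_lit 1367) (.e (nat_lit 164239) (nat_lit 187) (.e (nat_lit 1661) (nat_lit 115) (.e (nat_lit 393252) (nat_lit 18) (.e (nat_lit 164161) (nat_lit 152) .nil)))) .nil))))) (.nd (nat_lit 4) (.nd (nat_lit 5) (.nd (nat_lit 6) 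
(.lf (nat_lit 257677) (.g (nat_lit 2531) (.e (nat_lit 164239) (nat_lit 187) (.e (nat_lit 1234) (nat_lit 91) (.e (nat_lit 90176) (nat_lit 15) (.e (nat_lit 188447) (nat_lit 22) (.e (nat_lit 196628) (nat_lit 9) (.e (nat_lit 970) (nat_lit 81) (.e (nat_lit 6713) (nat_lit 360) .nil))))))) (.g (nat_lit 4) .nil .nil))) 
(.lf (nat_lit 257741) (.g (nat_lit 2601) (.e (nat_lit 164239) (nat_lit 187) (.e (nat_lit 1659) (nat_lit 115) (.e (nat_lit 393301) (nat_lit 27) (.e (nat_lit 491559) (nat_lit 10) (.e (nat_lit 344171) (nat_lit 41) .nil))))) .nil))) (.nd (nat_lit 6) 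
(.lf (nat_lit 257709) (.g (nat_lit 1453) (.e (nat_lit 164239) (nat_lit 187) (.e (nat_lit 1659) (nat_lit 115) (.e (nat_lit 393234) (nat_lit 17) (.e (nat_lit 3555) (nat_lit 220) .nil)))) .nil)) 
(.lf (nat_lit 257773) (.g (nat_lit 1545) (.e (nat_lit 164239) (nat_lit 187) (.e (nat_lit 1661) (nat_lit 115) (.e (nat_lit 393238) (nat_lit 17) (.e (nat_lit 7936) (nat_lit 220) .nil)))) .nil)))) (.nd (nat_lit 5) (.nd (nat_lit 6) 
(.lf (nat_lit 257693) (.g (nat_lit 2210) (.e (nat_lit 164239) (nat_lit 187) (.e (nat_lit 1253) (nat_lit 92) (.e (nat_lit 98373) (nat_lit 29) (.e (nat_lit 450587) (nat_lit 10) (.e (nat_lit 573473) (nat_lit 12) (.e (nat_lit 57348) (nat_lit 0) (.e (nat_lit 6852) (nat_lit 371) (.e (nat_lit 2612) (nat_lit 163) .nil)))))))) (.g (nat_lit 4) .nil .nil))) 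
(.lf (nat_lit 257757) (.g (nat_lit 3095) (.e (nat_lit 164239) (nat_lit 187) (.e (nat_lit 1659) (nat_lit 115) (.e (nat_lit 393301) (nat_lit 27) (.e (nat_lit 491560) (nat_lit 10) (.e (nat_lit 344170) (nat_lit 41) .nil))))) .nil))) (.nd (nat_lit 6) 
(.lf (nat_lit 257725) (.g (nat_lit 2257) (.e (nat_lit 164239) (nat_lit 187) (.e (nat_lit 1659) (nat_lit 115) (.e (nat_lit 393301) (nat_lit 27) (.e (nat_lit 491558) (nat_lit 10) (.e (nat_lit 344093) (nat_lit 18) .nil))))) .nil)) 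
(.lf (nat_lit 257789) (.g (nat_lit 1761) (.e (nat_lit 164239) (nat_lit 187) (.e (nat_lit 1661) (nat_lit 115) (.e (nat_lit 393260) (nat_lit 21) (.e (nat_lit 409616) (nat_lit 10) .nil)))) .nil))))))) (.nd (nat_lit 2) (.nd (nat_lit 3) (.nd (nat_lit 4) (.nd (nat_lit 5) (.nd (nat_lit 6) 
(.lf (nat_lit 257667) (.g (nat_lit 2405) (.e (nat_lit 164238) (nat_lit 187) (.e (nat_lit 1661) (nat_lit 115) (.e (nat_lit 393253) (nat_lit 18) (.e (nat_lit 164162) (nat_lit 152) (.e (nat_lit 1210) (nat_lit 89) .nil))))) .nil)) 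
(.lf (nat_lit 257731) (.g (nat_lit 2220) (.e (nat_lit 164239) (nat_lit 187) (.e (nat_lit 1659) (nat_lit 115) (.e (nat_lit 393301) (nat_lit 27) (.e (nat_lit 491558) (nat_lit 10) (.e (nat_lit 344172) (nat_lit 41) .nil))))) .nil))) (.nd (nat_lit 6) 
(.lf (nat_lit 257699) (.g (nat_lit 496) (.e (nat_lit 164239) (nat_lit 187) (.e (nat_lit 1428) (nat_lit 108) (.e (nat_lit 336425) (nat_lit 28) .nil))) .nil)) 
(.lf (nat_lit 257763) (.g (nat_lit 2465) (.e (nat_lit 164239) (nat_lit 187) (.e (nat_lit 1660) (nat_lit 115) (.e (nat_lit 393251) (nat_lit 18) (.e (nat_lit 164182) (nat_lit 154) (.e (nat_lit 57420) (nat_lit 13) .nil))))) .nil)))) (.nd (nat_lit 5) (.nd (nat_lit 6) 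
(.lf (nat_lit 257683) (.g (nat_lit 1808) (.e (nat_lit 164239) (nat_lit 187) (.e (nat_lit 1235) (nat_lit 91) (.e (nat_lit 90170) (nat_lit 13) (.e (nat_lit 172113) (nat_lit 10) (.e (nat_lit 434227) (nat_lit 20) .nil))))) .nil)) 
(.lf (nat_lit 257747) (.g (nat_lit 3073) (.e (nat_lit 164239) (nat_lit 187) (.e (nat_lit 1659) (nat_lit 115) (.e (nat_lit 393301) (nat_lit 27) (.e (nat_lit 491560) (nat_lit 10) (.e (nat_lit 344088) (nat_lit 18) (.e (nat_lit 6920) (nat_lit 371) (.e (nat_lit 2610) (nat_lit 163) .nil))))))) (.g (nat_lit 4) .nil .nil)))) (.nd (nat_lit 6) 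
(.lf (nat_lit 257715) (.g (nat_lit 1917) (.e (nat_lit 164239) (nat_lit 187) (.e (nat_lit 1659) (nat_lit 115) (.e (nat_lit 393253) (nat_lit 18) (.e (nat_lit 164150) (nat_lit 152) (.e (nat_lit 1207) (nat_lit 89) .nil))))) .nil)) 
(.lf (nat_lit 257779) (.g (nat_lit 454) (.e (nat_lit 164239) (nat_lit 187) (.e (nat_lit 1661) (nat_lit 115) (.e (nat_lit 393252) (nat_lit 18) .nil))) .nil))))) (.nd (nat_lit 4) (.nd (nat_lit 5) (.nd (nat_lit 6) 
(.lf (nat_lit 257675) (.g (nat_lit 2486) (.e (nat_lit 164239) (nat_lit 187) (.e (nat_lit 1234) (nat_lit 91) (.e (nat_lit 90176) (nat_lit 15) (.e (nat_lit 188447) (nat_lit 22) (.e (nat_lit 196628) (nat_lit 9) .nil))))) .nil)) 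
(.lf (nat_lit 257739) (.g (nat_lit 2675) (.e (nat_lit 164239) (nat_lit 187) (.e (nat_lit 1659) (nat_lit 115) (.e (nat_lit 393301) (nat_lit 27) (.e (nat_lit 491559) (nat_lit 10) (.e (nat_lit 344096) (nat_lit 18) (.e (nat_lit 6850) (nat_lit 371) (.e (nat_lit 2612) (nat_lit 163) .nil))))))) (.g (nat_lit 4) .nil .nil)))) (.nd (nat_lit 6) 
(.lf (nat_lit 257707) (.g (nat_lit 1896) (.e (nat_lit 164239) (nat_lit 187) (.e (nat_lit 1638) (nat_lit 114) (.e (nat_lit 385105) (nat_lit 50) (.e (nat_lit 786483) (nat_lit 30) (.e (nat_lit 360485) (nat_lit 16) .nil))))) .nil)) 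
(.lf (nat_lit 257771) (.g (nat_lit 455) (.e (nat_lit 164239) (nat_lit 187) (.e (nat_lit 1661) (nat_lit 115) (.e (nat_lit 393235) (nat_lit 17) .nil))) .nil)))) (.nd (nat_lit 5) (.nd (nat_lit 6) 
(.lf (nat_lit 257691) (.g (nat_lit 3088) (.e (nat_lit 164239) (nat_lit 187) (.e (nat_lit 1253) (nat_lit 92) (.e (nat_lit 98373) (nat_lit 29) (.e (nat_lit 450576) (nat_lit 2) (.e (nat_lit 507929) (nat_lit 10) .nil))))) .nil)) 
(.lf (nat_lit 257755) (.g (nat_lit 2784) (.e (nat_lit 164239) (nat_lit 187) (.e (nat_lit 1659) (nat_lit 115) (.e (nat_lit 393301) (nat_lit 27) (.e (nat_lit 491560) (nat_lit 10) (.e (nat_lit 344094) (nat_lit 18) (.e (nat_lit 6923) (nat_lit 371) (.e (nat_lit 2607) (nat_lit 163) .nil))))))) (.g (nat_lit 4) .nil .nil)))) (.nd (nat_lit 6) 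
(.lf (nat_lit 257723) (.g (nat_lit 2129) (.e (nat_lit 164239) (nat_lit 187) (.e (nat_lit 1659) (nat_lit 115) (.e (nat_lit 393301) (nat_lit 27) (.e (nat_lit 491558) (nat_lit 10) (.e (nat_lit 344090) (nat_lit 18) (.e (nat_lit 6850) (nat_lit 371) (.e (nat_lit 2612) (nat_lit 163) .nil))))))) (.g (nat_lit 4) .nil .nil))) 
(.lf (nat_lit 257787) (.g (nat_lit 1760) (.e (nat_lit 164239) (nat_lit 187) (.e (nat_lit 1661) (nat_lit 115) (.e (nat_lit 393253) (nat_lit 18) (.e (nat_lit 164163) (nat_lit 152) .nil)))) .nil)))))) (.nd (nat_lit 3) (.nd (nat_lit 4) (.nd (nat_lit 5) (.nd (nat_lit 6) 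
(.lf (nat_lit 257671) (.g (nat_lit 1447) (.e (nat_lit 164238) (nat_lit 187) (.e (nat_lit 1661) (nat_lit 115) (.e (nat_lit 393299) (nat_lit 27) (.e (nat_lit 491552) (nat_lit 9) .nil)))) .nil)) 
(.lf (nat_lit 257735) (.g (nat_lit 2655) (.e (nat_lit 164239) (nat_lit 187) (.e (nat_lit 1659) (nat_lit 115) (.e (nat_lit 393301) (nat_lit 27) (.e (nat_lit 491559) (nat_lit 10) (.e (nat_lit 344090) (nat_lit 18) .nil))))) .nil))) (.nd (nat_lit 6) 
(.lf (nat_lit 257703) (.g (nat_lit 3555) (.e (nat_lit 164239) (nat_lit 187) (.e (nat_lit 1638) (nat_lit 114) (.e (nat_lit 385073) (nat_lit 31) (.e (nat_lit 573493) (nat_lit 15) (.e (nat_lit 81953) (nat_lit 22) (.e (nat_lit 90165) (nat_lit 12) .nil)))))) (.g (nat_lit 0) .nil .nil))) 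
(.lf (nat_lit 257767) (.g (nat_lit 1793) (.e (nat_lit 164239) (nat_lit 187) (.e (nat_lit 1660) (nat_lit 115) (.e (nat_lit 393253) (nat_lit 18) (.e (nat_lit 164178) (nat_lit 154) (.e (nat_lit 57421) (nat_lit 13) .nil))))) .nil)))) (.nd (nat_lit 5) (.nd (nat_lit 6) 
(.lf (nat_lit 257687) (.g (nat_lit 747) (.e (nat_lit 164239) (nat_lit 187) (.e (nat_lit 1252) (nat_lit 92) (.e (nat_lit 98381) (nat_lit 31) (.e (nat_lit 466976) (nat_lit 22) .nil)))) .nil)) 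
(.lf (nat_lit 257751) (.g (nat_lit 2784) (.e (nat_lit 164239) (nat_lit 187) (.e (nat_lit 1659) (nat_lit 115) (.e (nat_lit 393301) (nat_lit 27) (.e (nat_lit 491560) (nat_lit 10) (.e (nat_lit 344091) (nat_lit 18) (.e (nat_lit 6869) (nat_lit 371) (.e (nat_lit 2608) (nat_lit 163) .nil))))))) (.g (nat_lit 4) .nil .nil)))) (.nd (nat_lit 6) 
(.lf (nat_lit 257719) (.g (nat_lit 1911) (.e (nat_lit 164239) (nat_lit 187) (.e (nat_lit 1659) (nat_lit 115) (.e (nat_lit 393301) (nat_lit 27) (.e (nat_lit 491552) (nat_lit 9) .nil)))) .nil)) 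
(.lf (nat_lit 257783) (.g (nat_lit 1603) (.e (nat_lit 164239) (nat_lit 187) (.e (nat_lit 1661) (nat_lit 115) (.e (nat_lit 393252) (nat_lit 18) (.e (nat_lit 164164) (nat_lit 152) (.e (nat_lit 1208) (nat_lit 89) .nil))))) .nil))))) (.nd (nat_lit 4) (.nd (nat_lit 5) (.nd (nat_lit 6) 
(.lf (nat_lit 257679) (.g (nat_lit 2097) (.e (nat_lit 164239) (nat_lit 187) (.e (nat_lit 1234) (nat_lit 91) (.e (nat_lit 90176) (nat_lit 15) (.e (nat_lit 188450) (nat_lit 23) (.e (nat_lit 204816) (nat_lit 17) .nil))))) .nil)) 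
(.lf (nat_lit 257743) (.g (nat_lit 2729) (.e (nat_lit 164239) (nat_lit 187) (.e (nat_lit 1659) (nat_lit 115) (.e (nat_lit 393301) (nat_lit 27) (.e (nat_lit 491560) (nat_lit 10) (.e (nat_lit 344087) (nat_lit 18) .nil))))) .nil))) (.nd (nat_lit 6) 
(.lf (nat_lit 257711) (.g (nat_lit 2879) (.e (nat_lit 164239) (nat_lit 187) (.e (nat_lit 1659) (nat_lit 115) (.e (nat_lit 393251) (nat_lit 18) (.e (nat_lit 164179) (nat_lit 154) (.e (nat_lit 57421) (nat_lit 13) .nil))))) .nil)) 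
(.lf (nat_lit 257775) (.g (nat_lit 1635) (.e (nat_lit 164239) (nat_lit 187) (.e (nat_lit 1661) (nat_lit 115) (.e (nat_lit 393251) (nat_lit 18) (.e (nat_lit 164153) (nat_lit 152) (.e (nat_lit 998) (nat_lit 81) .nil))))) .nil)))) (.nd (nat_lit 5) (.nd (nat_lit 6) 
(.lf (nat_lit 257695) (.g (nat_lit 3204) (.e (nat_lit 164239) (nat_lit 187) (.e (nat_lit 1253) (nat_lit 92) (.e (nat_lit 98373) (nat_lit 29) (.e (nat_lit 450587) (nat_lit 10) (.e (nat_lit 573475) (nat_lit 12) (.e (nat_lit 57345) (nat_lit 0) (.e (nat_lit 6923) (nat_lit 371) (.e (nat_lit 2610) (nat_lit 163) .nil)))))))) (.g (nat_lit 5) .nil .nil))) 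
(.lf (nat_lit 257759) (.g (nat_lit 2954) (.e (nat_lit 164239) (nat_lit 187) (.e (nat_lit 1659) (nat_lit 115) (.e (nat_lit 393301) (nat_lit 27) (.e (nat_lit 491560) (nat_lit 10) (.e (nat_lit 344172) (nat_lit 41) .nil))))) .nil))) (.nd (nat_lit 6) 
(.lf (nat_lit 257727) (.g (nat_lit 2857) (.e (nat_lit 164239) (nat_lit 187) (.e (nat_lit 1659) (nat_lit 115) (.e (nat_lit 393301) (nat_lit 27) (.e (nat_lit 491558) (nat_lit 10) (.e (nat_lit 344096) (nat_lit 18) (.e (nat_lit 6869) (nat_lit 371) (.e (nat_lit 2608) (nat_lit 163) .nil))))))) (.g (nat_lit 5) .nil .nil))) 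
(.lf (nat_lit 257791) (.g (nat_lit 1211) (.e (nat_lit 164239) (nat_lit 187) (.e (nat_lit 1661) (nat_lit 115) (.e (nat_lit 393260) (nat_lit 21) (.e (nat_lit 409649) (nat_lit 18) .nil)))) .nil)))))))))

noncomputable def tv3335 : DT := (.nd (nat_lit 0) (.nd (nat_lit 1) (.nd (nat_lit 2) (.nd (nat_lit 3) (.nd (nat_lit 4) (.nd (nat_lit 5) (.nd (nat_lit 6) 
(.lf (nat_lit 257792) (.g (nat_lit 1977) (.e (nat_lit 164239) (nat_lit 187) (.e (nat_lit 1661) (nat_lit 115) (.e (nat_lit 393260) (nat_lit 21) (.e (nat_lit 409649) (nat_lit 18) (.e (nat_lit 303111) (nat_lit 0) .nil))))) .nil)) 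
(.lf (nat_lit 257856) (.g (nat_lit 2416) (.e (nat_lit 171776) (nat_lit 192) (.e (nat_lit 73729) (nat_lit 0) (.e (nat_lit 7265) (nat_lit 384) (.e (nat_lit 57347) (nat_lit 0) (.e (nat_lit 2198) (nat_lit 144) .nil))))) .nil))) (.nd (nat_lit 6) 
(.lf (nat_lit 257824) (.g (nat_lit 937) (.e (nat_lit 171776) (nat_lit 191) (.e (nat_lit 65570) (nat_lit 3) (.e (nat_lit 98353) (nat_lit 25) (.e (nat_lit 417827) (nat_lit 17) .nil)))) .nil)) 
(.lf (nat_lit 257888) (.g (nat_lit 1170) (.e (nat_lit 171776) (nat_lit 192) (.e (nat_lit 73753) (nat_lit 8) (.e (nat_lit 557072) (nat_lit 9) (.e (nat_lit 7936) (nat_lit 26) .nil)))) .nil)))) (.nd (nat_lit 5) (.nd (nat_lit 6) 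
(.lf (nat_lit 257808) (.g (nat_lit 3152) (.e (nat_lit 171776) (nat_lit 190) (.e (nat_lit 57464) (nat_lit 23) (.e (nat_lit 516151) (nat_lit 9) (.e (nat_lit 426211) (nat_lit 9) (.e (nat_lit 426125) (nat_lit 2) .nil))))) .nil)) 
(.lf (nat_lit 257872) (.g (nat_lit 1776) (.e (nat_lit 171776) (nat_lit 192) (.e (nat_lit 73753) (nat_lit 8) (.e (nat_lit 557065) (nat_lit 9) (.e (nat_lit 310) (nat_lit 23) .nil)))) .nil))) (.nd (nat_lit 6) 
(.lf (nat_lit 257840) (.g (nat_lit 1087) (.e (nat_lit 171776) (nat_lit 191) (.e (nat_lit 65571) (nat_lit 3) (.e (nat_lit 98352) (nat_lit 25) (.e (nat_lit 417827) (nat_lit 17) .nil)))) .nil)) 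
(.lf (nat_lit 257904) (.g (nat_lit 1165) (.e (nat_lit 171776) (nat_lit 192) (.e (nat_lit 73755) (nat_lit 8) (.e (nat_lit 557065) (nat_lit 9) (.e (nat_lit 310) (nat_lit 23) .nil)))) .nil))))) (.nd (nat_lit 4) (.nd (nat_lit 5) (.nd (nat_lit 6) 
(.lf (nat_lit 257800) (.g (nat_lit 3188) (.e (nat_lit 171776) (nat_lit 187) (.e (nat_lit 1448) (nat_lit 108) (.e (nat_lit 336013) (nat_lit 2) (.e (nat_lit 90165) (nat_lit 12) (.e (nat_lit 164208) (nat_lit 176) .nil))))) .nil)) 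
(.lf (nat_lit 257864) (.g (nat_lit 382) (.e (nat_lit 171776) (nat_lit 192) (.e (nat_lit 73746) (nat_lit 3) (.e (nat_lit 516100) (nat_lit 0) .nil))) .nil))) (.nd (nat_lit 6) 
(.lf (nat_lit 257832) (.g (nat_lit 1714) (.e (nat_lit 171776) (nat_lit 191) (.e (nat_lit 65571) (nat_lit 3) (.e (nat_lit 98320) (nat_lit 17) (.e (nat_lit 7593) (nat_lit 407) (.e (nat_lit 73739) (nat_lit 1) .nil))))) .nil)) 
(.lf (nat_lit 257896) (.g (nat_lit 1255) (.e (nat_lit 171776) (nat_lit 192) (.e (nat_lit 73754) (nat_lit 8) (.e (nat_lit 557070) (nat_lit 9) (.e (nat_lit 7936) (nat_lit 24) .nil)))) .nil)))) (.nd (nat_lit 5) (.nd (nat_lit 6) 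
(.lf (nat_lit 257816) (.g (nat_lit 1452) (.e (nat_lit 171776) (nat_lit 190) (.e (nat_lit 57480) (nat_lit 28) (.e (nat_lit 557098) (nat_lit 13) (.e (nat_lit 172140) (nat_lit 22) .nil)))) .nil)) 
(.lf (nat_lit 257880) (.g (nat_lit 1677) (.e (nat_lit 171776) (nat_lit 192) (.e (nat_lit 73753) (nat_lit 8) (.e (nat_lit 557067) (nat_lit 9) (.e (nat_lit 7936) (nat_lit 23) .nil)))) .nil))) (.nd (nat_lit 6) 
(.lf (nat_lit 257848) (.g (nat_lit 547) (.e (nat_lit 171776) (nat_lit 192) (.e (nat_lit 73729) (nat_lit 0) (.e (nat_lit 7261) (nat_lit 384) .nil))) .nil)) 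
(.lf (nat_lit 257912) (.g (nat_lit 1043) (.e (nat_lit 171776) (nat_lit 192) (.e (nat_lit 73755) (nat_lit 8) (.e (nat_lit 557070) (nat_lit 9) (.e (nat_lit 7936) (nat_lit 23) .nil)))) .nil)))))) (.nd (nat_lit 3) (.nd (nat_lit 4) (.nd (nat_lit 5) (.nd (nat_lit 6) 
(.lf (nat_lit 257796) (.g (nat_lit 1743) (.e (nat_lit 171776) (nat_lit 187) (.e (nat_lit 1239) (nat_lit 91) (.e (nat_lit 90170) (nat_lit 13) (.e (nat_lit 172113) (nat_lit 10) (.e (nat_lit 434227) (nat_lit 20) .nil))))) .nil)) 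
(.lf (nat_lit 257860) (.g (nat_lit 1879) (.e (nat_lit 171776) (nat_lit 192) (.e (nat_lit 73731) (nat_lit 0) (.e (nat_lit 7265) (nat_lit 384) (.e (nat_lit 57347) (nat_lit 0) (.e (nat_lit 2032) (nat_lit 140) .nil))))) .nil))) (.nd (nat_lit 6) 
(.lf (nat_lit 257828) (.g (nat_lit 1788) (.e (nat_lit 171776) (nat_lit 191) (.e (nat_lit 65571) (nat_lit 3) (.e (nat_lit 98320) (nat_lit 17) (.e (nat_lit 7591) (nat_lit 407) (.e (nat_lit 73738) (nat_lit 1) .nil))))) .nil)) 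
(.lf (nat_lit 257892) (.g (nat_lit 568) (.e (nat_lit 171776) (nat_lit 192) (.e (nat_lit 73753) (nat_lit 8) (.e (nat_lit 564992) (nat_lit 9) .nil))) .nil)))) (.nd (nat_lit 5) (.nd (nat_lit 6) 
(.lf (nat_lit 257812) (.g (nat_lit 1503) (.e (nat_lit 171776) (nat_lit 190) (.e (nat_lit 57478) (nat_lit 28) (.e (nat_lit 557098) (nat_lit 13) (.e (nat_lit 172140) (nat_lit 22) (.e (nat_lit 139281) (nat_lit 5) .nil))))) .nil)) 
(.lf (nat_lit 257876) (.g (nat_lit 1405) (.e (nat_lit 171776) (nat_lit 192) (.e (nat_lit 73753) (nat_lit 8) (.e (nat_lit 557066) (nat_lit 9) (.e (nat_lit 232) (nat_lit 21) .nil)))) .nil))) (.nd (nat_lit 6) 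
(.lf (nat_lit 257844) (.g (nat_lit 1209) (.e (nat_lit 171776) (nat_lit 191) (.e (nat_lit 65653) (nat_lit 27) (.e (nat_lit 426098) (nat_lit 1) (.e (nat_lit 164163) (nat_lit 152) .nil)))) .nil)) 
(.lf (nat_lit 257908) (.g (nat_lit 3044) (.e (nat_lit 171776) (nat_lit 192) (.e (nat_lit 73755) (nat_lit 8) (.e (nat_lit 557066) (nat_lit 9) (.e (nat_lit 232) (nat_lit 21) (.e (nat_lit 336110) (nat_lit 9) .nil))))) .nil))))) (.nd (nat_lit 4) (.nd (nat_lit 5) (.nd (nat_lit 6) 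
(.lf (nat_lit 257804) (.g (nat_lit 3047) (.e (nat_lit 171776) (nat_lit 187) (.e (nat_lit 1634) (nat_lit 114) (.e (nat_lit 385074) (nat_lit 31) (.e (nat_lit 573482) (nat_lit 13) (.e (nat_lit 65604) (nat_lit 9) .nil))))) .nil)) 
(.lf (nat_lit 257868) (.g (nat_lit 1529) (.e (nat_lit 171776) (nat_lit 192) (.e (nat_lit 73747) (nat_lit 3) (.e (nat_lit 516184) (nat_lit 16) (.e (nat_lit 491554) (nat_lit 9) .nil)))) .nil))) (.nd (nat_lit 6) 
(.lf (nat_lit 257836) (.g (nat_lit 1983) (.e (nat_lit 171776) (nat_lit 191) (.e (nat_lit 65571) (nat_lit 3) (.e (nat_lit 98350) (nat_lit 24) (.e (nat_lit 417536) (nat_lit 16) .nil)))) .nil)) 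
(.lf (nat_lit 257900) (.g (nat_lit 359) (.e (nat_lit 171776) (nat_lit 192) (.e (nat_lit 73754) (nat_lit 8) (.e (nat_lit 557073) (nat_lit 9) .nil))) .nil)))) (.nd (nat_lit 5) (.nd (nat_lit 6) 
(.lf (nat_lit 257820) (.g (nat_lit 974) (.e (nat_lit 171776) (nat_lit 191) (.e (nat_lit 65568) (nat_lit 2) (.e (nat_lit 90165) (nat_lit 12) (.e (nat_lit 164210) (nat_lit 176) .nil)))) .nil)) 
(.lf (nat_lit 257884) (.g (nat_lit 1294) (.e (nat_lit 171776) (nat_lit 192) (.e (nat_lit 73753) (nat_lit 8) (.e (nat_lit 557070) (nat_lit 9) (.e (nat_lit 7936) (nat_lit 24) .nil)))) .nil))) (.nd (nat_lit 6) 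
(.lf (nat_lit 257852) (.g (nat_lit 2544) (.e (nat_lit 171776) (nat_lit 192) (.e (nat_lit 73729) (nat_lit 0) (.e (nat_lit 7265) (nat_lit 384) (.e (nat_lit 57347) (nat_lit 0) (.e (nat_lit 2024) (nat_lit 140) .nil))))) .nil)) 
(.lf (nat_lit 257916) (.g (nat_lit 1164) (.e (nat_lit 171776) (nat_lit 192) (.e (nat_lit 73755) (nat_lit 8) (.e (nat_lit 557074) (nat_lit 9) (.e (nat_lit 7936) (nat_lit 24) .nil)))) .nil))))))) (.nd (nat_lit 2) (.nd (nat_lit 3) (.nd (nat_lit 4) (.nd (nat_lit 5) (.nd (nat_lit 6) 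
(.lf (nat_lit 257794) (.g (nat_lit 3234) (.e (nat_lit 171776) (nat_lit 187) (.e (nat_lit 1237) (nat_lit 91) (.e (nat_lit 90170) (nat_lit 13) (.e (nat_lit 172106) (nat_lit 10) (.e (nat_lit 434227) (nat_lit 20) .nil))))) .nil)) 
(.lf (nat_lit 257858) (.g (nat_lit 1167) (.e (nat_lit 171776) (nat_lit 192) (.e (nat_lit 73729) (nat_lit 0) (.e (nat_lit 7265) (nat_lit 384) (.e (nat_lit 57389) (nat_lit 5) .nil)))) .nil))) (.nd (nat_lit 6) 
(.lf (nat_lit 257826) (.g (nat_lit 1180) (.e (nat_lit 171776) (nat_lit 191) (.e (nat_lit 65571) (nat_lit 3) (.e (nat_lit 98319) (nat_lit 17) (.e (nat_lit 7593) (nat_lit 407) .nil)))) .nil)) 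
(.lf (nat_lit 257890) (.g (nat_lit 1216) (.e (nat_lit 171776) (nat_lit 192) (.e (nat_lit 73753) (nat_lit 8) (.e (nat_lit 557081) (nat_lit 9) (.e (nat_lit 316) (nat_lit 23) .nil)))) .nil)))) (.nd (nat_lit 5) (.nd (nat_lit 6) 
(.lf (nat_lit 257810) (.g (nat_lit 1607) (.e (nat_lit 171776) (nat_lit 190) (.e (nat_lit 57464) (nat_lit 23) (.e (nat_lit 516151) (nat_lit 9) (.e (nat_lit 426286) (nat_lit 10) (.e (nat_lit 434227) (nat_lit 20) .nil))))) .nil)) 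
(.lf (nat_lit 257874) (.g (nat_lit 2394) (.e (nat_lit 171776) (nat_lit 192) (.e (nat_lit 73753) (nat_lit 8) (.e (nat_lit 557065) (nat_lit 9) (.e (nat_lit 334) (nat_lit 26) (.e (nat_lit 376864) (nat_lit 22) .nil))))) .nil))) (.nd (nat_lit 6) 
(.lf (nat_lit 257842) (.g (nat_lit 2159) (.e (nat_lit 171776) (nat_lit 191) (.e (nat_lit 65653) (nat_lit 27) (.e (nat_lit 426011) (nat_lit 0) (.e (nat_lit 3461) (nat_lit 216) (.e (nat_lit 688182) (nat_lit 17) .nil))))) .nil)) 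
(.lf (nat_lit 257906) (.g (nat_lit 329) (.e (nat_lit 171776) (nat_lit 192) (.e (nat_lit 73755) (nat_lit 8) (.e (nat_lit 557066) (nat_lit 9) .nil))) .nil))))) (.nd (nat_lit 4) (.nd (nat_lit 5) (.nd (nat_lit 6) 
(.lf (nat_lit 257802) (.g (nat_lit 781) (.e (nat_lit 171776) (nat_lit 187) (.e (nat_lit 1526) (nat_lit 109) (.e (nat_lit 344119) (nat_lit 21) (.e (nat_lit 516139) (nat_lit 7) .nil)))) .nil)) 
(.lf (nat_lit 257866) (.g (nat_lit 1013) (.e (nat_lit 171776) (nat_lit 192) (.e (nat_lit 73746) (nat_lit 3) (.e (nat_lit 516185) (nat_lit 16) (.e (nat_lit 491552) (nat_lit 9) .nil)))) .nil))) (.nd (nat_lit 6) 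
(.lf (nat_lit 257834) (.g (nat_lit 1796) (.e (nat_lit 171776) (nat_lit 191) (.e (nat_lit 65571) (nat_lit 3) (.e (nat_lit 98350) (nat_lit 24) (.e (nat_lit 409616) (nat_lit 10) .nil)))) .nil)) 
(.lf (nat_lit 257898) (.g (nat_lit 1255) (.e (nat_lit 171776) (nat_lit 192) (.e (nat_lit 73754) (nat_lit 8) (.e (nat_lit 557070) (nat_lit 9) (.e (nat_lit 7936) (nat_lit 26) .nil)))) .nil)))) (.nd (nat_lit 5) (.nd (nat_lit 6) 
(.lf (nat_lit 257818) (.g (nat_lit 387) (.e (nat_lit 171776) (nat_lit 191) (.e (nat_lit 65567) (nat_lit 2) (.e (nat_lit 90165) (nat_lit 12) (.e (nat_lit 171776) (nat_lit 192) .nil)))) .nil)) 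
(.lf (nat_lit 257882) (.g (nat_lit 419) (.e (nat_lit 171776) (nat_lit 192) (.e (nat_lit 73753) (nat_lit 8) (.e (nat_lit 557068) (nat_lit 9) .nil))) .nil))) (.nd (nat_lit 6) 
(.lf (nat_lit 257850) (.g (nat_lit 1770) (.e (nat_lit 171776) (nat_lit 192) (.e (nat_lit 73729) (nat_lit 0) (.e (nat_lit 7261) (nat_lit 384) (.e (nat_lit 57389) (nat_lit 5) (.e (nat_lit 114702) (nat_lit 20) .nil))))) .nil)) 
(.lf (nat_lit 257914) (.g (nat_lit 1266) (.e (nat_lit 171776) (nat_lit 192) (.e (nat_lit 73755) (nat_lit 8) (.e (nat_lit 557070) (nat_lit 9) (.e (nat_lit 333) (nat_lit 26) .nil)))) .nil)))))) (.nd (nat_lit 3) (.nd (nat_lit 4) (.nd (nat_lit 5) (.nd (nat_lit 6) 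
(.lf (nat_lit 257798) (.g (nat_lit 1451) (.e (nat_lit 171776) (nat_lit 187) (.e (nat_lit 1256) (nat_lit 92) (.e (nat_lit 98372) (nat_lit 29) (.e (nat_lit 450579) (nat_lit 5) (.e (nat_lit 532481) (nat_lit 0) .nil))))) .nil)) 
(.lf (nat_lit 257862) (.g (nat_lit 1716) (.e (nat_lit 171776) (nat_lit 192) (.e (nat_lit 73733) (nat_lit 0) (.e (nat_lit 7270) (nat_lit 385) (.e (nat_lit 122919) (nat_lit 15) (.e (nat_lit 360451) (nat_lit 0) .nil))))) .nil))) (.nd (nat_lit 6) 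
(.lf (nat_lit 257830) (.g (nat_lit 1817) (.e (nat_lit 171776) (nat_lit 191) (.e (nat_lit 65571) (nat_lit 3) (.e (nat_lit 98320) (nat_lit 17) (.e (nat_lit 7591) (nat_lit 407) (.e (nat_lit 73740) (nat_lit 1) .nil))))) .nil)) 
(.lf (nat_lit 257894) (.g (nat_lit 1215) (.e (nat_lit 171776) (nat_lit 192) (.e (nat_lit 73754) (nat_lit 8) (.e (nat_lit 557070) (nat_lit 9) (.e (nat_lit 313) (nat_lit 23) .nil)))) .nil)))) (.nd (nat_lit 5) (.nd (nat_lit 6) 
(.lf (nat_lit 257814) (.g (nat_lit 2709) (.e (nat_lit 171776) (nat_lit 190) (.e (nat_lit 57479) (nat_lit 28) (.e (nat_lit 557105) (nat_lit 14) (.e (nat_lit 180252) (nat_lit 10) (.e (nat_lit 573473) (nat_lit 12) .nil))))) .nil)) 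
(.lf (nat_lit 257878) (.g (nat_lit 1304) (.e (nat_lit 171776) (nat_lit 192) (.e (nat_lit 73753) (nat_lit 8) (.e (nat_lit 557066) (nat_lit 9) (.e (nat_lit 321) (nat_lit 24) .nil)))) .nil))) (.nd (nat_lit 6) 
(.lf (nat_lit 257846) (.g (nat_lit 462) (.e (nat_lit 171776) (nat_lit 192) (.e (nat_lit 73729) (nat_lit 0) (.e (nat_lit 3957) (nat_lit 239) .nil))) .nil)) 
(.lf (nat_lit 257910) (.g (nat_lit 1729) (.e (nat_lit 171776) (nat_lit 192) (.e (nat_lit 73755) (nat_lit 8) (.e (nat_lit 557066) (nat_lit 9) (.e (nat_lit 321) (nat_lit 24) (.e (nat_lit 360459) (nat_lit 1) .nil))))) .nil))))) (.nd (nat_lit 4) (.nd (nat_lit 5) (.nd (nat_lit 6) 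
(.lf (nat_lit 257806) (.g (nat_lit 487) (.e (nat_lit 171776) (nat_lit 187) (.e (nat_lit 1656) (nat_lit 115) (.e (nat_lit 393251) (nat_lit 18) .nil))) .nil)) 
(.lf (nat_lit 257870) (.g (nat_lit 1523) (.e (nat_lit 171776) (nat_lit 192) (.e (nat_lit 73751) (nat_lit 7) (.e (nat_lit 548874) (nat_lit 5) (.e (nat_lit 1595) (nat_lit 111) (.e (nat_lit 360460) (nat_lit 1) .nil))))) .nil))) (.nd (nat_lit 6) 
(.lf (nat_lit 257838) (.g (nat_lit 2511) (.e (nat_lit 171776) (nat_lit 191) (.e (nat_lit 65571) (nat_lit 3) (.e (nat_lit 98350) (nat_lit 24) (.e (nat_lit 409648) (nat_lit 18) (.e (nat_lit 303108) (nat_lit 0) .nil))))) .nil)) 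
(.lf (nat_lit 257902) (.g (nat_lit 1197) (.e (nat_lit 171776) (nat_lit 192) (.e (nat_lit 73754) (nat_lit 8) (.e (nat_lit 557074) (nat_lit 9) (.e (nat_lit 7936) (nat_lit 24) .nil)))) .nil)))) (.nd (nat_lit 5) (.nd (nat_lit 6) 
(.lf (nat_lit 257822) (.g (nat_lit 2202) (.e (nat_lit 171776) (nat_lit 191) (.e (nat_lit 65569) (nat_lit 3) (.e (nat_lit 98350) (nat_lit 24) (.e (nat_lit 409617) (nat_lit 10) (.e (nat_lit 5355) (nat_lit 298) .nil))))) .nil)) 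
(.lf (nat_lit 257886) (.g (nat_lit 1406) (.e (nat_lit 171776) (nat_lit 192) (.e (nat_lit 73753) (nat_lit 8) (.e (nat_lit 557070) (nat_lit 9) (.e (nat_lit 333) (nat_lit 26) .nil)))) .nil))) (.nd (nat_lit 6) 
(.lf (nat_lit 257854) (.g (nat_lit 2458) (.e (nat_lit 171776) (nat_lit 192) (.e (nat_lit 73729) (nat_lit 0) (.e (nat_lit 7265) (nat_lit 384) (.e (nat_lit 57347) (nat_lit 0) (.e (nat_lit 2031) (nat_lit 140) .nil))))) .nil)) 
(.lf (nat_lit 257918) (.g (nat_lit 746) (.e (nat_lit 171776) (nat_lit 194) (.e (nat_lit 131091) (nat_lit 2) (.e (nat_lit 90181) (nat_lit 16) (.e (nat_lit 237312) (nat_lit 191) .nil)))) .nil)))))))) (.nd (nat_lit 1) (.nd (nat_lit 2) (.nd (nat_lit 3) (.nd (nat_lit 4) (.nd (nat_lit 5) (.nd (nat_lit 6) 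
(.lf (nat_lit 257793) (.g (nat_lit 1470) (.e (nat_lit 164239) (nat_lit 187) (.e (nat_lit 1661) (nat_lit 115) (.e (nat_lit 393299) (nat_lit 27) (.e (nat_lit 491552) (nat_lit 9) .nil)))) .nil)) 
(.lf (nat_lit 257857) (.g (nat_lit 2545) (.e (nat_lit 171776) (nat_lit 192) (.e (nat_lit 73729) (nat_lit 0) (.e (nat_lit 7265) (nat_lit 384) (.e (nat_lit 57347) (nat_lit 0) (.e (nat_lit 2202) (nat_lit 144) .nil))))) .nil))) (.nd (nat_lit 6) 
(.lf (nat_lit 257825) (.g (nat_lit 1192) (.e (nat_lit 171776) (nat_lit 191) (.e (nat_lit 65571) (nat_lit 3) (.e (nat_lit 98319) (nat_lit 17) (.e (nat_lit 7591) (nat_lit 407) .nil)))) .nil)) 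
(.lf (nat_lit 257889) (.g (nat_lit 1384) (.e (nat_lit 171776) (nat_lit 192) (.e (nat_lit 73753) (nat_lit 8) (.e (nat_lit 557074) (nat_lit 9) (.e (nat_lit 7936) (nat_lit 24) .nil)))) .nil)))) (.nd (nat_lit 5) (.nd (nat_lit 6) 
(.lf (nat_lit 257809) (.g (nat_lit 2460) (.e (nat_lit 171776) (nat_lit 190) (.e (nat_lit 57464) (nat_lit 23) (.e (nat_lit 516151) (nat_lit 9) (.e (nat_lit 426285) (nat_lit 10) (.e (nat_lit 434227) (nat_lit 20) .nil))))) .nil)) 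
(.lf (nat_lit 257873) (.g (nat_lit 1580) (.e (nat_lit 171776) (nat_lit 192) (.e (nat_lit 73753) (nat_lit 8) (.e (nat_lit 557065) (nat_lit 9) (.e (nat_lit 7936) (nat_lit 23) .nil)))) .nil))) (.nd (nat_lit 6) 
(.lf (nat_lit 257841) (.g (nat_lit 2729) (.e (nat_lit 171776) (nat_lit 191) (.e (nat_lit 65571) (nat_lit 3) (.e (nat_lit 98389) (nat_lit 33) (.e (nat_lit 491560) (nat_lit 10) (.e (nat_lit 344111) (nat_lit 19) .nil))))) .nil)) 
(.lf (nat_lit 257905) (.g (nat_lit 909) (.e (nat_lit 171776) (nat_lit 192) (.e (nat_lit 73755) (nat_lit 8) (.e (nat_lit 557065) (nat_lit 9) (.e (nat_lit 324) (nat_lit 24) .nil)))) .nil))))) (.nd (nat_lit 4) (.nd (nat_lit 5) (.nd (nat_lit 6) 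
(.lf (nat_lit 257801) (.g (nat_lit 1630) (.e (nat_lit 171776) (nat_lit 187) (.e (nat_lit 1524) (nat_lit 108) (.e (nat_lit 336021) (nat_lit 3) (.e (nat_lit 98389) (nat_lit 33) (.e (nat_lit 491546) (nat_lit 9) .nil))))) .nil)) 
(.lf (nat_lit 257865) (.g (nat_lit 1323) (.e (nat_lit 171776) (nat_lit 192) (.e (nat_lit 73746) (nat_lit 3) (.e (nat_lit 516139) (nat_lit 7) (.e (nat_lit 409616) (nat_lit 10) (.e (nat_lit 7936) (nat_lit 298) .nil))))) .nil))) (.nd (nat_lit 6) 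
(.lf (nat_lit 257833) (.g (nat_lit 668) (.e (nat_lit 171776) (nat_lit 191) (.e (nat_lit 65571) (nat_lit 3) (.e (nat_lit 98325) (nat_lit 17) .nil))) .nil)) 
(.lf (nat_lit 257897) (.g (nat_lit 1286) (.e (nat_lit 171776) (nat_lit 192) (.e (nat_lit 73754) (nat_lit 8) (.e (nat_lit 557070) (nat_lit 9) (.e (nat_lit 333) (nat_lit 26) .nil)))) .nil)))) (.nd (nat_lit 5) (.nd (nat_lit 6) 
(.lf (nat_lit 257817) (.g (nat_lit 541) (.e (nat_lit 171776) (nat_lit 191) (.e (nat_lit 65567) (nat_lit 2) (.e (nat_lit 90165) (nat_lit 12) (.e (nat_lit 164210) (nat_lit 176) .nil)))) .nil)) 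
(.lf (nat_lit 257881) (.g (nat_lit 1677) (.e (nat_lit 171776) (nat_lit 192) (.e (nat_lit 73753) (nat_lit 8) (.e (nat_lit 557067) (nat_lit 9) (.e (nat_lit 7936) (nat_lit 26) .nil)))) .nil))) (.nd (nat_lit 6) 
(.lf (nat_lit 257849) (.g (nat_lit 1111) (.e (nat_lit 171776) (nat_lit 192) (.e (nat_lit 73729) (nat_lit 0) (.e (nat_lit 7261) (nat_lit 384) (.e (nat_lit 57382) (nat_lit 4) .nil)))) .nil)) 
(.lf (nat_lit 257913) (.g (nat_lit 1043) (.e (nat_lit 171776) (nat_lit 192) (.e (nat_lit 73755) (nat_lit 8) (.e (nat_lit 557070) (nat_lit 9) (.e (nat_lit 7936) (nat_lit 24) .nil)))) .nil)))))) (.nd (nat_lit 3) (.nd (nat_lit 4) (.nd (nat_lit 5) (.nd (nat_lit 6) 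
(.lf (nat_lit 257797) (.g (nat_lit 957) (.e (nat_lit 171776) (nat_lit 187) (.e (nat_lit 1256) (nat_lit 92) (.e (nat_lit 98372) (nat_lit 29) (.e (nat_lit 450576) (nat_lit 2) .nil)))) .nil)) 
(.lf (nat_lit 257861) (.g (nat_lit 1372) (.e (nat_lit 171776) (nat_lit 192) (.e (nat_lit 73731) (nat_lit 0) (.e (nat_lit 7265) (nat_lit 384) (.e (nat_lit 57389) (nat_lit 5) (.e (nat_lit 114702) (nat_lit 20) .nil))))) .nil))) (.nd (nat_lit 6) 
(.lf (nat_lit 257829) (.g (nat_lit 1817) (.e (nat_lit 171776) (nat_lit 191) (.e (nat_lit 65571) (nat_lit 3) (.e (nat_lit 98320) (nat_lit 17) (.e (nat_lit 7591) (nat_lit 407) (.e (nat_lit 73739) (nat_lit 1) .nil))))) .nil)) 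
(.lf (nat_lit 257893) (.g (nat_lit 1962) (.e (nat_lit 171776) (nat_lit 192) (.e (nat_lit 73753) (nat_lit 8) (.e (nat_lit 557087) (nat_lit 11) (.e (nat_lit 24584) (nat_lit 0) .nil)))) .nil)))) (.nd (nat_lit 5) (.nd (nat_lit 6) 
(.lf (nat_lit 257813) (.g (nat_lit 1388) (.e (nat_lit 171776) (nat_lit 190) (.e (nat_lit 57478) (nat_lit 28) (.e (nat_lit 557103) (nat_lit 14) (.e (nat_lit 180241) (nat_lit 4) .nil)))) .nil)) 
(.lf (nat_lit 257877) (.g (nat_lit 3084) (.e (nat_lit 171776) (nat_lit 192) (.e (nat_lit 73753) (nat_lit 8) (.e (nat_lit 557066) (nat_lit 9) (.e (nat_lit 232) (nat_lit 21) (.e (nat_lit 336110) (nat_lit 9) .nil))))) .nil))) (.nd (nat_lit 6) 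
(.lf (nat_lit 257845) (.g (nat_lit 462) (.e (nat_lit 171776) (nat_lit 192) (.e (nat_lit 73729) (nat_lit 0) (.e (nat_lit 3928) (nat_lit 239) .nil))) .nil)) 
(.lf (nat_lit 257909) (.g (nat_lit 1185) (.e (nat_lit 171776) (nat_lit 192) (.e (nat_lit 73755) (nat_lit 8) (.e (nat_lit 557066) (nat_lit 9) (.e (nat_lit 321) (nat_lit 24) .nil)))) .nil))))) (.nd (nat_lit 4) (.nd (nat_lit 5) (.nd (nat_lit 6) 
(.lf (nat_lit 257805) (.g (nat_lit 1639) (.e (nat_lit 171776) (nat_lit 187) (.e (nat_lit 1656) (nat_lit 115) (.e (nat_lit 393234) (nat_lit 17) (.e (nat_lit 3461) (nat_lit 216) .nil)))) .nil)) 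
(.lf (nat_lit 257869) (.g (nat_lit 648) (.e (nat_lit 171776) (nat_lit 192) (.e (nat_lit 73751) (nat_lit 7) (.e (nat_lit 548872) (nat_lit 5) (.e (nat_lit 1598) (nat_lit 111) (.e (nat_lit 368384) (nat_lit 1) .nil))))) .nil))) (.nd (nat_lit 6) 
(.lf (nat_lit 257837) (.g (nat_lit 2699) (.e (nat_lit 171776) (nat_lit 191) (.e (nat_lit 65571) (nat_lit 3) (.e (nat_lit 98350) (nat_lit 24) (.e (nat_lit 409640) (nat_lit 17) (.e (nat_lit 294928) (nat_lit 2) .nil))))) .nil)) 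
(.lf (nat_lit 257901) (.g (nat_lit 586) (.e (nat_lit 171776) (nat_lit 192) (.e (nat_lit 73754) (nat_lit 8) (.e (nat_lit 557074) (nat_lit 9) .nil))) .nil)))) (.nd (nat_lit 5) (.nd (nat_lit 6) 
(.lf (nat_lit 257821) (.g (nat_lit 1033) (.e (nat_lit 171776) (nat_lit 191) (.e (nat_lit 65568) (nat_lit 2) (.e (nat_lit 90165) (nat_lit 12) (.e (nat_lit 171776) (nat_lit 192) .nil)))) .nil)) 
(.lf (nat_lit 257885) (.g (nat_lit 1545) (.e (nat_lit 171776) (nat_lit 192) (.e (nat_lit 73753) (nat_lit 8) (.e (nat_lit 557070) (nat_lit 9) (.e (nat_lit 331) (nat_lit 26) .nil)))) .nil))) (.nd (nat_lit 6) 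
(.lf (nat_lit 257853) (.g (nat_lit 2542) (.e (nat_lit 171776) (nat_lit 192) (.e (nat_lit 73729) (nat_lit 0) (.e (nat_lit 7265) (nat_lit 384) (.e (nat_lit 57347) (nat_lit 0) (.e (nat_lit 2029) (nat_lit 140) .nil))))) .nil)) 
(.lf (nat_lit 257917) (.g (nat_lit 1217) (.e (nat_lit 171776) (nat_lit 192) (.e (nat_lit 73775) (nat_lit 26) (.e (nat_lit 778362) (nat_lit 9) (.e (nat_lit 71) (nat_lit 0) .nil)))) .nil))))))) (.nd (nat_lit 2) (.nd (nat_lit 3) (.nd (nat_lit 4) (.nd (nat_lit 5) (.nd (nat_lit 6) 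
(.lf (nat_lit 257795) (.g (nat_lit 2580) (.e (nat_lit 171776) (nat_lit 187) (.e (nat_lit 1239) (nat_lit 91) (.e (nat_lit 90170) (nat_lit 13) (.e (nat_lit 172106) (nat_lit 10) (.e (nat_lit 434227) (nat_lit 20) .nil))))) .nil)) 
(.lf (nat_lit 257859) (.g (nat_lit 1526) (.e (nat_lit 171776) (nat_lit 192) (.e (nat_lit 73730) (nat_lit 0) (.e (nat_lit 7265) (nat_lit 384) (.e (nat_lit 57347) (nat_lit 0) (.e (nat_lit 2203) (nat_lit 144) .nil))))) .nil))) (.nd (nat_lit 6) 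
(.lf (nat_lit 257827) (.g (nat_lit 1197) (.e (nat_lit 171776) (nat_lit 191) (.e (nat_lit 65571) (nat_lit 3) (.e (nat_lit 98320) (nat_lit 17) (.e (nat_lit 7591) (nat_lit 407) .nil)))) .nil)) 
(.lf (nat_lit 257891) (.g (nat_lit 1601) (.e (nat_lit 171776) (nat_lit 192) (.e (nat_lit 73753) (nat_lit 8) (.e (nat_lit 557081) (nat_lit 9) (.e (nat_lit 316) (nat_lit 23) (.e (nat_lit 352310) (nat_lit 22) .nil))))) .nil)))) (.nd (nat_lit 5) (.nd (nat_lit 6) 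
(.lf (nat_lit 257811) (.g (nat_lit 944) (.e (nat_lit 171776) (nat_lit 190) (.e (nat_lit 57464) (nat_lit 23) (.e (nat_lit 516166) (nat_lit 12) (.e (nat_lit 450576) (nat_lit 2) .nil)))) .nil)) 
(.lf (nat_lit 257875) (.g (nat_lit 265) (.e (nat_lit 171776) (nat_lit 192) (.e (nat_lit 73753) (nat_lit 8) (.e (nat_lit 557066) (nat_lit 9) .nil))) .nil))) (.nd (nat_lit 6) 
(.lf (nat_lit 257843) (.g (nat_lit 260) (.e (nat_lit 171776) (nat_lit 191) (.e (nat_lit 65653) (nat_lit 27) (.e (nat_lit 426098) (nat_lit 1) .nil))) .nil)) 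
(.lf (nat_lit 257907) (.g (nat_lit 1287) (.e (nat_lit 171776) (nat_lit 192) (.e (nat_lit 73755) (nat_lit 8) (.e (nat_lit 557066) (nat_lit 9) (.e (nat_lit 232) (nat_lit 21) .nil)))) .nil))))) (.nd (nat_lit 4) (.nd (nat_lit 5) (.nd (nat_lit 6) 
(.lf (nat_lit 257803) (.g (nat_lit 2054) (.e (nat_lit 171776) (nat_lit 187) (.e (nat_lit 1526) (nat_lit 109) (.e (nat_lit 344119) (nat_lit 21) (.e (nat_lit 516139) (nat_lit 7) (.e (nat_lit 409641) (nat_lit 17) .nil))))) .nil)) 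
(.lf (nat_lit 257867) (.g (nat_lit 1681) (.e (nat_lit 171776) (nat_lit 192) (.e (nat_lit 73747) (nat_lit 3) (.e (nat_lit 516139) (nat_lit 7) (.e (nat_lit 409641) (nat_lit 17) .nil)))) .nil))) (.nd (nat_lit 6) 
(.lf (nat_lit 257835) (.g (nat_lit 2795) (.e (nat_lit 171776) (nat_lit 191) (.e (nat_lit 65571) (nat_lit 3) (.e (nat_lit 98350) (nat_lit 24) (.e (nat_lit 409616) (nat_lit 10) (.e (nat_lit 5355) (nat_lit 298) .nil))))) .nil)) 
(.lf (nat_lit 257899) (.g (nat_lit 880) (.e (nat_lit 171776) (nat_lit 192) (.e (nat_lit 73754) (nat_lit 8) (.e (nat_lit 557072) (nat_lit 9) (.e (nat_lit 7936) (nat_lit 26) .nil)))) .nil)))) (.nd (nat_lit 5) (.nd (nat_lit 6) 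
(.lf (nat_lit 257819) (.g (nat_lit 592) (.e (nat_lit 171776) (nat_lit 191) (.e (nat_lit 65568) (nat_lit 2) (.e (nat_lit 90165) (nat_lit 12) .nil))) .nil)) 
(.lf (nat_lit 257883) (.g (nat_lit 1294) (.e (nat_lit 171776) (nat_lit 192) (.e (nat_lit 73753) (nat_lit 8) (.e (nat_lit 557070) (nat_lit 9) (.e (nat_lit 7936) (nat_lit 23) .nil)))) .nil))) (.nd (nat_lit 6) 
(.lf (nat_lit 257851) (.g (nat_lit 1340) (.e (nat_lit 171776) (nat_lit 192) (.e (nat_lit 73729) (nat_lit 0) (.e (nat_lit 7265) (nat_lit 384) (.e (nat_lit 57347) (nat_lit 0) .nil)))) .nil)) 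
(.lf (nat_lit 257915) (.g (nat_lit 1043) (.e (nat_lit 171776) (nat_lit 192) (.e (nat_lit 73755) (nat_lit 8) (.e (nat_lit 557070) (nat_lit 9) (.e (nat_lit 7936) (nat_lit 26) .nil)))) .nil)))))) (.nd (nat_lit 3) (.nd (nat_lit 4) (.nd (nat_lit 5) (.nd (nat_lit 6) 
(.lf (nat_lit 257799) (.g (nat_lit 1469) (.e (nat_lit 171776) (nat_lit 187) (.e (nat_lit 1448) (nat_lit 108) (.e (nat_lit 336013) (nat_lit 2) (.e (nat_lit 90165) (nat_lit 12) .nil)))) .nil)) 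
(.lf (nat_lit 257863) (.g (nat_lit 449) (.e (nat_lit 171776) (nat_lit 192) (.e (nat_lit 73746) (nat_lit 3) (.e (nat_lit 516097) (nat_lit 0) .nil))) .nil))) (.nd (nat_lit 6) 
(.lf (nat_lit 257831) (.g (nat_lit 1683) (.e (nat_lit 171776) (nat_lit 191) (.e (nat_lit 65571) (nat_lit 3) (.e (nat_lit 98320) (nat_lit 17) (.e (nat_lit 7593) (nat_lit 407) (.e (nat_lit 73738) (nat_lit 1) .nil))))) .nil)) 
(.lf (nat_lit 257895) (.g (nat_lit 1255) (.e (nat_lit 171776) (nat_lit 192) (.e (nat_lit 73754) (nat_lit 8) (.e (nat_lit 557070) (nat_lit 9) (.e (nat_lit 7936) (nat_lit 23) .nil)))) .nil)))) (.nd (nat_lit 5) (.nd (nat_lit 6) 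
(.lf (nat_lit 257815) (.g (nat_lit 3136) (.e (nat_lit 171776) (nat_lit 190) (.e (nat_lit 57479) (nat_lit 28) (.e (nat_lit 557105) (nat_lit 14) (.e (nat_lit 180252) (nat_lit 10) (.e (nat_lit 573474) (nat_lit 12) .nil))))) .nil)) 
(.lf (nat_lit 257879) (.g (nat_lit 1768) (.e (nat_lit 171776) (nat_lit 192) (.e (nat_lit 73753) (nat_lit 8) (.e (nat_lit 557066) (nat_lit 9) (.e (nat_lit 321) (nat_lit 24) (.e (nat_lit 360459) (nat_lit 1) .nil))))) .nil))) (.nd (nat_lit 6) 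
(.lf (nat_lit 257847) (.g (nat_lit 719) (.e (nat_lit 171776) (nat_lit 192) (.e (nat_lit 73729) (nat_lit 0) (.e (nat_lit 4153) (nat_lit 249) (.e (nat_lit 171776) (nat_lit 78) .nil)))) .nil)) 
(.lf (nat_lit 257911) (.g (nat_lit 1234) (.e (nat_lit 171776) (nat_lit 192) (.e (nat_lit 73755) (nat_lit 8) (.e (nat_lit 557067) (nat_lit 9) (.e (nat_lit 7936) (nat_lit 23) .nil)))) .nil))))) (.nd (nat_lit 4) (.nd (nat_lit 5) (.nd (nat_lit 6) 
(.lf (nat_lit 257807) (.g (nat_lit 1609) (.e (nat_lit 171776) (nat_lit 187) (.e (nat_lit 1656) (nat_lit 115) (.e (nat_lit 393251) (nat_lit 18) (.e (nat_lit 164179) (nat_lit 154) .nil)))) .nil)) 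
(.lf (nat_lit 257871) (.g (nat_lit 520) (.e (nat_lit 171776) (nat_lit 192) (.e (nat_lit 73753) (nat_lit 8) (.e (nat_lit 557065) (nat_lit 9) .nil))) .nil))) (.nd (nat_lit 6) 
(.lf (nat_lit 257839) (.g (nat_lit 1491) (.e (nat_lit 171776) (nat_lit 191) (.e (nat_lit 65571) (nat_lit 3) (.e (nat_lit 98350) (nat_lit 24) (.e (nat_lit 409649) (nat_lit 18) .nil)))) .nil)) 
(.lf (nat_lit 257903) (.g (nat_lit 337) (.e (nat_lit 171776) (nat_lit 192) (.e (nat_lit 73755) (nat_lit 8) (.e (nat_lit 557065) (nat_lit 9) .nil))) .nil)))) (.nd (nat_lit 5) (.nd (nat_lit 6) 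
(.lf (nat_lit 257823) (.g (nat_lit 2662) (.e (nat_lit 171776) (nat_lit 191) (.e (nat_lit 65570) (nat_lit 3) (.e (nat_lit 98350) (nat_lit 24) (.e (nat_lit 409616) (nat_lit 10) (.e (nat_lit 5355) (nat_lit 298) .nil))))) .nil)) 
(.lf (nat_lit 257887) (.g (nat_lit 1294) (.e (nat_lit 171776) (nat_lit 192) (.e (nat_lit 73753) (nat_lit 8) (.e (nat_lit 557070) (nat_lit 9) (.e (nat_lit 7936) (nat_lit 26) .nil)))) .nil))) (.nd (nat_lit 6) 
(.lf (nat_lit 257855) (.g (nat_lit 2452) (.e (nat_lit 171776) (nat_lit 192) (.e (nat_lit 73729) (nat_lit 0) (.e (nat_lit 7265) (nat_lit 384) (.e (nat_lit 57347) (nat_lit 0) (.e (nat_lit 2032) (nat_lit 140) .nil))))) .nil)) 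
(.lf (nat_lit 257919) (.g (nat_lit 806) (.e (nat_lit 171776) (nat_lit 194) (.e (nat_lit 131093) (nat_lit 2) (.e (nat_lit 90165) (nat_lit 12) (.e (nat_lit 164210) (nat_lit 176) (.e (nat_lit 2786) (nat_lit 179) .nil))))) .nil)))))))))

noncomputable def tv3336 : DT := (.nd (nat_lit 0) (.nd (nat_lit 1) (.nd (nat_lit 2) (.nd (nat_lit 3) (.nd (nat_lit 4) (.nd (nat_lit 5) (.nd (nat_lit 6) 
(.lf (nat_lit 257920) (.g (nat_lit 606) (.e (nat_lit 171776) (nat_lit 194) (.e (nat_lit 131094) (nat_lit 2) (.e (nat_lit 90181) (nat_lit 16) (.e (nat_lit 237312) (nat_lit 191) .nil)))) .nil)) 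
(.lf (nat_lit 257984) (.g (nat_lit 1490) (.e (nat_lit 164281) (nat_lit 222) (.e (nat_lit 57884) (nat_lit 270) (.e (nat_lit 1250) (nat_lit 92) (.e (nat_lit 98372) (nat_lit 29) (.e (nat_lit 450571) (nat_lit 1) .nil))))) .nil))) (.nd (nat_lit 6) 
(.lf (nat_lit 257952) (.g (nat_lit 4487) (.e (nat_lit 164258) (nat_lit 215) (.e (nat_lit 1209) (nat_lit 89) (.e (nat_lit 73753) (nat_lit 8) (.e (nat_lit 557087) (nat_lit 11) (.e (nat_lit 24617) (nat_lit 7) (.e (nat_lit 319504) (nat_lit 10) (.e (nat_lit 584) (nat_lit 43) (.e (nat_lit 516117) (nat_lit 1) .nil)))))))) (.g (nat_lit 5) .nil .nil))) 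
(.lf (nat_lit 258016) (.g (nat_lit 1669) (.e (nat_lit 164288) (nat_lit 224) (.e (nat_lit 164358) (nat_lit 246) (.e (nat_lit 226) (nat_lit 21) (.e (nat_lit 336430) (nat_lit 29) (.e (nat_lit 450304) (nat_lit 2) (.e (nat_lit 90203) (nat_lit 21) .nil)))))) (.g (nat_lit 4) .nil .nil))))) (.nd (nat_lit 5) (.nd (nat_lit 6) 
(.lf (nat_lit 257936) (.g (nat_lit 473) (.e (nat_lit 164248) (nat_lit 201) (.e (nat_lit 3067) (nat_lit 190) (.e (nat_lit 475185) (nat_lit 29) .nil))) .nil)) 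
(.lf (nat_lit 258000) (.g (nat_lit 2066) (.e (nat_lit 164287) (nat_lit 224) (.e (nat_lit 164354) (nat_lit 246) (.e (nat_lit 351) (nat_lit 28) (.e (nat_lit 393271) (nat_lit 23) (.e (nat_lit 426428) (nat_lit 17) (.e (nat_lit 98048) (nat_lit 21) .nil)))))) (.g (nat_lit 5) .nil .nil)))) (.nd (nat_lit 6) 
(.lf (nat_lit 257968) (.g (nat_lit 982) (.e (nat_lit 164268) (nat_lit 221) (.e (nat_lit 2809) (nat_lit 180) (.e (nat_lit 311040) (nat_lit 34) (.e (nat_lit 393296) (nat_lit 26) (.e (nat_lit 475169) (nat_lit 22) .nil))))) .nil)) 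
(.lf (nat_lit 258032) (.g (nat_lit 1228) (.e (nat_lit 164292) (nat_lit 224) (.e (nat_lit 164112) (nat_lit 118) (.e (nat_lit 794636) (nat_lit 11) (.e (nat_lit 336077) (nat_lit 9) (.e (nat_lit 336438) (nat_lit 31) (.e (nat_lit 458769) (nat_lit 16) .nil)))))) (.g (nat_lit 5) .nil .nil)))))) (.nd (nat_lit 4) (.nd (nat_lit 5) (.nd (nat_lit 6) 
(.lf (nat_lit 257928) (.g (nat_lit 2030) (.e (nat_lit 171776) (nat_lit 194) (.e (nat_lit 131140) (nat_lit 27) (.e (nat_lit 426098) (nat_lit 1) (.e (nat_lit 164179) (nat_lit 154) (.e (nat_lit 57420) (nat_lit 13) .nil))))) .nil)) 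
(.lf (nat_lit 257992) (.g (nat_lit 2622) (.e (nat_lit 164283) (nat_lit 223) (.e (nat_lit 123202) (nat_lit 270) (.e (nat_lit 1256) (nat_lit 92) (.e (nat_lit 98359) (nat_lit 26) (.e (nat_lit 426211) (nat_lit 9) (.e (nat_lit 426125) (nat_lit 2) (.e (nat_lit 204544) (nat_lit 21) .nil))))))) (.g (nat_lit 6) .nil .nil)))) (.nd (nat_lit 6) 
(.lf (nat_lit 257960) (.g (nat_lit 1710) (.e (nat_lit 164261) (nat_lit 221) (.e (nat_lit 1360) (nat_lit 102) (.e (nat_lit 286735) (nat_lit 3) (.e (nat_lit 98372) (nat_lit 29) (.e (nat_lit 458496) (nat_lit 1) .nil))))) .nil)) 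
(.lf (nat_lit 258024) (.g (nat_lit 2044) (.e (nat_lit 164289) (nat_lit 224) (.e (nat_lit 164354) (nat_lit 246) (.e (nat_lit 351) (nat_lit 28) (.e (nat_lit 393271) (nat_lit 23) (.e (nat_lit 426428) (nat_lit 17) (.e (nat_lit 98048) (nat_lit 21) .nil)))))) (.g (nat_lit 5) .nil .nil))))) (.nd (nat_lit 5) (.nd (nat_lit 6) 
(.lf (nat_lit 257944) (.g (nat_lit 2109) (.e (nat_lit 171776) (nat_lit 211) (.e (nat_lit 57447) (nat_lit 19) (.e (nat_lit 393301) (nat_lit 27) (.e (nat_lit 491538) (nat_lit 3) .nil)))) .nil)) 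
(.lf (nat_lit 258008) (.g (nat_lit 2173) (.e (nat_lit 164288) (nat_lit 224) (.e (nat_lit 164104) (nat_lit 116) (.e (nat_lit 778461) (nat_lit 11) (.e (nat_lit 24660) (nat_lit 13) (.e (nat_lit 393238) (nat_lit 17) (.e (nat_lit 7107) (nat_lit 380) .nil)))))) (.g (nat_lit 6) .nil .nil)))) (.nd (nat_lit 6) 
(.lf (nat_lit 257976) (.g (nat_lit 5390) (.e (nat_lit 164281) (nat_lit 222) (.e (nat_lit 57884) (nat_lit 270) (.e (nat_lit 1031) (nat_lit 81) (.e (nat_lit 1788) (nat_lit 119) (.e (nat_lit 516151) (nat_lit 9) (.e (nat_lit 426211) (nat_lit 9) (.e (nat_lit 426125) (nat_lit 2) (.e (nat_lit 204544) (nat_lit 21) .nil)))))))) (.g (nat_lit 7) .nil .nil))) 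
(.lf (nat_lit 258040) (.g (nat_lit 2048) (.e (nat_lit 164297) (nat_lit 226) (.e (nat_lit 1169) (nat_lit 87) (.e (nat_lit 57479) (nat_lit 28) (.e (nat_lit 557107) (nat_lit 15) (.e (nat_lit 196352) (nat_lit 18) .nil))))) .nil)))))) (.nd (nat_lit 3) (.nd (nat_lit 4) (.nd (nat_lit 5) (.nd (nat_lit 6) 
(.lf (nat_lit 257924) (.g (nat_lit 1342) (.e (nat_lit 171776) (nat_lit 194) (.e (nat_lit 131140) (nat_lit 27) (.e (nat_lit 426098) (nat_lit 1) (.e (nat_lit 164150) (nat_lit 152) .nil)))) .nil)) 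
(.lf (nat_lit 257988) (.g (nat_lit 1065) (.e (nat_lit 164281) (nat_lit 222) (.e (nat_lit 57899) (nat_lit 276) (.e (nat_lit 130816) (nat_lit 23) (.e (nat_lit 516151) (nat_lit 9) (.e (nat_lit 426211) (nat_lit 9) (.e (nat_lit 426125) (nat_lit 2) (.e (nat_lit 204544) (nat_lit 21) .nil))))))) (.g (nat_lit 6) .nil .nil)))) (.nd (nat_lit 6) 
(.lf (nat_lit 257956) (.g (nat_lit 1868) (.e (nat_lit 171776) (nat_lit 219) (.e (nat_lit 163869) (nat_lit 2) (.e (nat_lit 196666) (nat_lit 13) (.e (nat_lit 65610) (nat_lit 10) .nil)))) .nil)) 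
(.lf (nat_lit 258020) (.g (nat_lit 374) (.e (nat_lit 164289) (nat_lit 224) (.e (nat_lit 164108) (nat_lit 116) (.e (nat_lit 778334) (nat_lit 9) (.e (nat_lit 311) (nat_lit 23) .nil)))) .nil)))) (.nd (nat_lit 5) (.nd (nat_lit 6) 
(.lf (nat_lit 257940) (.g (nat_lit 1573) (.e (nat_lit 164249) (nat_lit 201) (.e (nat_lit 2856) (nat_lit 184) (.e (nat_lit 426436) (nat_lit 18) (.e (nat_lit 98342) (nat_lit 20) .nil)))) .nil)) 
(.lf (nat_lit 258004) (.g (nat_lit 1960) (.e (nat_lit 164287) (nat_lit 224) (.e (nat_lit 164354) (nat_lit 246) (.e (nat_lit 351) (nat_lit 28) (.e (nat_lit 393294) (nat_lit 26) (.e (nat_lit 475169) (nat_lit 22) (.e (nat_lit 499791) (nat_lit 3) .nil)))))) (.g (nat_lit 0) .nil .nil)))) (.nd (nat_lit 6) 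
(.lf (nat_lit 257972) (.g (nat_lit 458) (.e (nat_lit 164281) (nat_lit 222) (.e (nat_lit 57876) (nat_lit 270) (.e (nat_lit 1256) (nat_lit 92) (.e (nat_lit 98370) (nat_lit 28) .nil)))) .nil)) 
(.lf (nat_lit 258036) (.g (nat_lit 1253) (.e (nat_lit 164294) (nat_lit 224) (.e (nat_lit 164112) (nat_lit 118) (.e (nat_lit 794636) (nat_lit 11) (.e (nat_lit 336077) (nat_lit 9) (.e (nat_lit 336438) (nat_lit 31) (.e (nat_lit 458769) (nat_lit 16) .nil)))))) (.g (nat_lit 5) .nil .nil)))))) (.nd (nat_lit 4) (.nd (nat_lit 5) (.nd (nat_lit 6) 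
(.lf (nat_lit 257932) (.g (nat_lit 2242) (.e (nat_lit 171776) (nat_lit 194) (.e (nat_lit 131140) (nat_lit 27) (.e (nat_lit 426108) (nat_lit 1) (.e (nat_lit 164147) (nat_lit 152) (.e (nat_lit 1211) (nat_lit 89) .nil))))) .nil)) 
(.lf (nat_lit 257996) (.g (nat_lit 1593) (.e (nat_lit 164286) (nat_lit 224) (.e (nat_lit 164354) (nat_lit 246) (.e (nat_lit 351) (nat_lit 28) (.e (nat_lit 393271) (nat_lit 23) (.e (nat_lit 433920) (nat_lit 17) (.e (nat_lit 90203) (nat_lit 21) .nil)))))) (.g (nat_lit 4) .nil .nil)))) (.nd (nat_lit 6) 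
(.lf (nat_lit 257964) (.g (nat_lit 1555) (.e (nat_lit 164261) (nat_lit 221) (.e (nat_lit 1360) (nat_lit 102) (.e (nat_lit 286753) (nat_lit 10) (.e (nat_lit 344157) (nat_lit 36) (.e (nat_lit 638997) (nat_lit 8) .nil))))) .nil)) 
(.lf (nat_lit 258028) (.g (nat_lit 1936) (.e (nat_lit 164289) (nat_lit 224) (.e (nat_lit 164354) (nat_lit 246) (.e (nat_lit 351) (nat_lit 28) (.e (nat_lit 393294) (nat_lit 26) (.e (nat_lit 475169) (nat_lit 22) (.e (nat_lit 499791) (nat_lit 3) .nil)))))) (.g (nat_lit 0) .nil .nil))))) (.nd (nat_lit 5) (.nd (nat_lit 6) 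
(.lf (nat_lit 257948) (.g (nat_lit 737) (.e (nat_lit 164257) (nat_lit 215) (.e (nat_lit 1209) (nat_lit 89) (.e (nat_lit 73753) (nat_lit 8) .nil))) .nil)) 
(.lf (nat_lit 258012) (.g (nat_lit 1249) (.e (nat_lit 164288) (nat_lit 224) (.e (nat_lit 164354) (nat_lit 246) (.e (nat_lit 351) (nat_lit 28) (.e (nat_lit 393279) (nat_lit 23) (.e (nat_lit 426431) (nat_lit 17) (.e (nat_lit 90203) (nat_lit 21) .nil)))))) (.g (nat_lit 0) .nil .nil)))) (.nd (nat_lit 6) 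
(.lf (nat_lit 257980) (.g (nat_lit 2616) (.e (nat_lit 164281) (nat_lit 222) (.e (nat_lit 57884) (nat_lit 270) (.e (nat_lit 1246) (nat_lit 92) (.e (nat_lit 98359) (nat_lit 26) (.e (nat_lit 426211) (nat_lit 9) (.e (nat_lit 426125) (nat_lit 2) (.e (nat_lit 204544) (nat_lit 21) .nil))))))) (.g (nat_lit 6) .nil .nil))) 
(.lf (nat_lit 258044) (.g (nat_lit 3196) (.e (nat_lit 164297) (nat_lit 226) (.e (nat_lit 1183) (nat_lit 87) (.e (nat_lit 57479) (nat_lit 28) (.e (nat_lit 557100) (nat_lit 13) (.e (nat_lit 172123) (nat_lit 13) .nil))))) .nil))))))) (.nd (nat_lit 2) (.nd (nat_lit 3) (.nd (nat_lit 4) (.nd (nat_lit 5) (.nd (nat_lit 6) 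
(.lf (nat_lit 257922) (.g (nat_lit 358) (.e (nat_lit 171776) (nat_lit 194) (.e (nat_lit 131140) (nat_lit 27) (.e (nat_lit 426098) (nat_lit 1) .nil))) .nil)) 
(.lf (nat_lit 257986) (.g (nat_lit 388) (.e (nat_lit 164281) (nat_lit 222) (.e (nat_lit 57884) (nat_lit 270) (.e (nat_lit 1397) (nat_lit 106) .nil))) .nil))) (.nd (nat_lit 6) 
(.lf (nat_lit 257954) (.g (nat_lit 1911) (.e (nat_lit 171776) (nat_lit 219) (.e (nat_lit 163868) (nat_lit 2) (.e (nat_lit 196624) (nat_lit 9) (.e (nat_lit 1615) (nat_lit 113) (.e (nat_lit 376865) (nat_lit 22) .nil))))) .nil)) 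
(.lf (nat_lit 258018) (.g (nat_lit 1797) (.e (nat_lit 164288) (nat_lit 224) (.e (nat_lit 164358) (nat_lit 246) (.e (nat_lit 351) (nat_lit 28) (.e (nat_lit 393270) (nat_lit 23) (.e (nat_lit 426432) (nat_lit 17) (.e (nat_lit 90203) (nat_lit 21) .nil)))))) (.g (nat_lit 5) .nil .nil))))) (.nd (nat_lit 5) (.nd (nat_lit 6) 
(.lf (nat_lit 257938) (.g (nat_lit 756) (.e (nat_lit 164249) (nat_lit 201) (.e (nat_lit 2856) (nat_lit 184) (.e (nat_lit 426402) (nat_lit 15) .nil))) .nil)) 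
(.lf (nat_lit 258002) (.g (nat_lit 1239) (.e (nat_lit 164287) (nat_lit 224) (.e (nat_lit 164354) (nat_lit 246) (.e (nat_lit 351) (nat_lit 28) (.e (nat_lit 393279) (nat_lit 23) (.e (nat_lit 426431) (nat_lit 17) (.e (nat_lit 90203) (nat_lit 21) .nil)))))) (.g (nat_lit 0) .nil .nil)))) (.nd (nat_lit 6) 
(.lf (nat_lit 257970) (.g (nat_lit 681) (.e (nat_lit 164269) (nat_lit 221) (.e (nat_lit 2576) (nat_lit 161) (.e (nat_lit 40997) (nat_lit 11) (.e (nat_lit 24656) (nat_lit 13) (.e (nat_lit 401152) (nat_lit 17) .nil))))) .nil)) 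
(.lf (nat_lit 258034) (.g (nat_lit 1014) (.e (nat_lit 164293) (nat_lit 224) (.e (nat_lit 164112) (nat_lit 118) (.e (nat_lit 794637) (nat_lit 11) (.e (nat_lit 336215) (nat_lit 13) (.e (nat_lit 401152) (nat_lit 17) .nil))))) .nil))))) (.nd (nat_lit 4) (.nd (nat_lit 5) (.nd (nat_lit 6) 
(.lf (nat_lit 257930) (.g (nat_lit 2131) (.e (nat_lit 171776) (nat_lit 194) (.e (nat_lit 131140) (nat_lit 27) (.e (nat_lit 426100) (nat_lit 1) (.e (nat_lit 164161) (nat_lit 152) (.e (nat_lit 1208) (nat_lit 89) .nil))))) .nil)) 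
(.lf (nat_lit 257994) (.g (nat_lit 125) (.e (nat_lit 164284) (nat_lit 224) (.e (nat_lit 164096) (nat_lit 86) (.e (nat_lit 532583) (nat_lit 26) .nil))) .nil))) (.nd (nat_lit 6) 
(.lf (nat_lit 257962) (.g (nat_lit 1844) (.e (nat_lit 164261) (nat_lit 221) (.e (nat_lit 1360) (nat_lit 102) (.e (nat_lit 286753) (nat_lit 10) (.e (nat_lit 344156) (nat_lit 36) (.e (nat_lit 638998) (nat_lit 8) .nil))))) .nil)) 
(.lf (nat_lit 258026) (.g (nat_lit 743) (.e (nat_lit 164289) (nat_lit 224) (.e (nat_lit 164354) (nat_lit 246) (.e (nat_lit 351) (nat_lit 28) (.e (nat_lit 393279) (nat_lit 23) (.e (nat_lit 426429) (nat_lit 17) (.e (nat_lit 98048) (nat_lit 21) .nil)))))) (.g (nat_lit 4) .nil .nil))))) (.nd (nat_lit 5) (.nd (nat_lit 6) 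
(.lf (nat_lit 257946) (.g (nat_lit 2215) (.e (nat_lit 171776) (nat_lit 211) (.e (nat_lit 57448) (nat_lit 19) (.e (nat_lit 393301) (nat_lit 27) (.e (nat_lit 491538) (nat_lit 3) (.e (nat_lit 98342) (nat_lit 20) .nil))))) .nil)) 
(.lf (nat_lit 258010) (.g (nat_lit 2316) (.e (nat_lit 164288) (nat_lit 224) (.e (nat_lit 164112) (nat_lit 118) (.e (nat_lit 794637) (nat_lit 11) (.e (nat_lit 336222) (nat_lit 13) (.e (nat_lit 393238) (nat_lit 17) (.e (nat_lit 7107) (nat_lit 380) .nil)))))) (.g (nat_lit 0) .nil .nil)))) (.nd (nat_lit 6) 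
(.lf (nat_lit 257978) (.g (nat_lit 1763) (.e (nat_lit 164281) (nat_lit 222) (.e (nat_lit 57884) (nat_lit 270) (.e (nat_lit 1232) (nat_lit 91) (.e (nat_lit 90169) (nat_lit 13) (.e (nat_lit 172094) (nat_lit 9) (.e (nat_lit 426125) (nat_lit 2) (.e (nat_lit 204544) (nat_lit 21) .nil))))))) (.g (nat_lit 4) .nil .nil))) 
(.lf (nat_lit 258042) (.g (nat_lit 1738) (.e (nat_lit 164297) (nat_lit 226) (.e (nat_lit 1176) (nat_lit 87) (.e (nat_lit 57478) (nat_lit 28) (.e (nat_lit 557107) (nat_lit 15) (.e (nat_lit 188421) (nat_lit 11) .nil))))) .nil)))))) (.nd (nat_lit 3) (.nd (nat_lit 4) (.nd (nat_lit 5) (.nd (nat_lit 6) 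
(.lf (nat_lit 257926) (.g (nat_lit 1218) (.e (nat_lit 171776) (nat_lit 194) (.e (nat_lit 131140) (nat_lit 27) (.e (nat_lit 426098) (nat_lit 1) (.e (nat_lit 164153) (nat_lit 152) .nil)))) .nil)) 
(.lf (nat_lit 257990) (.g (nat_lit 1053) (.e (nat_lit 164281) (nat_lit 222) (.e (nat_lit 57900) (nat_lit 276) (.e (nat_lit 130816) (nat_lit 23) (.e (nat_lit 516151) (nat_lit 9) (.e (nat_lit 426211) (nat_lit 9) (.e (nat_lit 426125) (nat_lit 2) (.e (nat_lit 204544) (nat_lit 21) .nil))))))) (.g (nat_lit 6) .nil .nil)))) (.nd (nat_lit 6) 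
(.lf (nat_lit 257958) (.g (nat_lit 1958) (.e (nat_lit 171776) (nat_lit 219) (.e (nat_lit 163871) (nat_lit 2) (.e (nat_lit 196624) (nat_lit 9) (.e (nat_lit 1615) (nat_lit 113) (.e (nat_lit 376862) (nat_lit 22) .nil))))) .nil)) 
(.lf (nat_lit 258022) (.g (nat_lit 104) (.e (nat_lit 164289) (nat_lit 224) (.e (nat_lit 164112) (nat_lit 118) (.e (nat_lit 802560) (nat_lit 13) .nil))) .nil)))) (.nd (nat_lit 5) (.nd (nat_lit 6) 
(.lf (nat_lit 257942) (.g (nat_lit 1500) (.e (nat_lit 171776) (nat_lit 206) (.e (nat_lit 180243) (nat_lit 5) (.e (nat_lit 532523) (nat_lit 7) (.e (nat_lit 319528) (nat_lit 16) .nil)))) .nil)) 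
(.lf (nat_lit 258006) (.g (nat_lit 2187) (.e (nat_lit 164287) (nat_lit 224) (.e (nat_lit 164358) (nat_lit 246) (.e (nat_lit 351) (nat_lit 28) (.e (nat_lit 393271) (nat_lit 23) (.e (nat_lit 426428) (nat_lit 17) (.e (nat_lit 98048) (nat_lit 21) .nil)))))) (.g (nat_lit 5) .nil .nil)))) (.nd (nat_lit 6) 
(.lf (nat_lit 257974) (.g (nat_lit 5537) (.e (nat_lit 164281) (nat_lit 222) (.e (nat_lit 57884) (nat_lit 270) (.e (nat_lit 1017) (nat_lit 81) (.e (nat_lit 1788) (nat_lit 119) (.e (nat_lit 516151) (nat_lit 9) (.e (nat_lit 426211) (nat_lit 9) (.e (nat_lit 426125) (nat_lit 2) (.e (nat_lit 204544) (nat_lit 21) .nil)))))))) (.g (nat_lit 7) .nil .nil))) 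
(.lf (nat_lit 258038) (.g (nat_lit 1748) (.e (nat_lit 164297) (nat_lit 226) (.e (nat_lit 1057) (nat_lit 81) (.e (nat_lit 1661) (nat_lit 115) (.e (nat_lit 393252) (nat_lit 18) (.e (nat_lit 164307) (nat_lit 226) (.e (nat_lit 1057) (nat_lit 81) (.e (nat_lit 1661) (nat_lit 115) (.e (nat_lit 393252) (nat_lit 18) .nil)))))))) (.g (nat_lit 4) .nil .nil)))))) 
(.nd (nat_lit 4) (.nd (nat_lit 5) (.nd (nat_lit 6) 
(.lf (nat_lit 257934) (.g (nat_lit 1547) (.e (nat_lit 171776) (nat_lit 195) (.e (nat_lit 1128) (nat_lit 83) (.e (nat_lit 16425) (nat_lit 7) (.e (nat_lit 409649) (nat_lit 18) (.e (nat_lit 303140) (nat_lit 10) .nil))))) .nil)) 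
(.lf (nat_lit 257998) (.g (nat_lit 1921) (.e (nat_lit 164286) (nat_lit 224) (.e (nat_lit 164354) (nat_lit 246) (.e (nat_lit 351) (nat_lit 28) (.e (nat_lit 393294) (nat_lit 26) (.e (nat_lit 475169) (nat_lit 22) (.e (nat_lit 499791) (nat_lit 3) .nil)))))) (.g (nat_lit 0) .nil .nil)))) (.nd (nat_lit 6) 
(.lf (nat_lit 257966) (.g (nat_lit 1268) (.e (nat_lit 164261) (nat_lit 221) (.e (nat_lit 1360) (nat_lit 102) (.e (nat_lit 286753) (nat_lit 10) (.e (nat_lit 344160) (nat_lit 37) .nil)))) .nil)) 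
(.lf (nat_lit 258030) (.g (nat_lit 329) (.e (nat_lit 164291) (nat_lit 224) (.e (nat_lit 164108) (nat_lit 116) (.e (nat_lit 778337) (nat_lit 9) (.e (nat_lit 311) (nat_lit 23) .nil)))) .nil)))) (.nd (nat_lit 5) (.nd (nat_lit 6) 
(.lf (nat_lit 257950) (.g (nat_lit 1676) (.e (nat_lit 164258) (nat_lit 215) (.e (nat_lit 1209) (nat_lit 89) (.e (nat_lit 73747) (nat_lit 3) (.e (nat_lit 516171) (nat_lit 13) .nil)))) .nil)) 
(.lf (nat_lit 258014) (.g (nat_lit 1951) (.e (nat_lit 164288) (nat_lit 224) (.e (nat_lit 164354) (nat_lit 246) (.e (nat_lit 351) (nat_lit 28) (.e (nat_lit 393294) (nat_lit 26) (.e (nat_lit 475169) (nat_lit 22) (.e (nat_lit 499791) (nat_lit 3) .nil)))))) (.g (nat_lit 0) .nil .nil)))) (.nd (nat_lit 6) 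
(.lf (nat_lit 257982) (.g (nat_lit 3193) (.e (nat_lit 164281) (nat_lit 222) (.e (nat_lit 57884) (nat_lit 270) (.e (nat_lit 1250) (nat_lit 92) (.e (nat_lit 98359) (nat_lit 26) (.e (nat_lit 426211) (nat_lit 9) (.e (nat_lit 426125) (nat_lit 2) (.e (nat_lit 204544) (nat_lit 21) .nil))))))) (.g (nat_lit 6) .nil .nil))) 
(.lf (nat_lit 258046) (.g (nat_lit 2747) (.e (nat_lit 164297) (nat_lit 226) (.e (nat_lit 1183) (nat_lit 87) (.e (nat_lit 57479) (nat_lit 28) (.e (nat_lit 557107) (nat_lit 15) (.e (nat_lit 196352) (nat_lit 18) .nil))))) .nil)))))))) (.nd (nat_lit 1) (.nd (nat_lit 2) (.nd (nat_lit 3) (.nd (nat_lit 4) (.nd (nat_lit 5) (.nd (nat_lit 6) 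
(.lf (nat_lit 257921) (.g (nat_lit 1098) (.e (nat_lit 171776) (nat_lit 194) (.e (nat_lit 131097) (nat_lit 3) (.e (nat_lit 98350) (nat_lit 24) (.e (nat_lit 417536) (nat_lit 16) .nil)))) .nil)) 
(.lf (nat_lit 257985) (.g (nat_lit 1622) (.e (nat_lit 164281) (nat_lit 222) (.e (nat_lit 57884) (nat_lit 270) (.e (nat_lit 1250) (nat_lit 92) (.e (nat_lit 98372) (nat_lit 29) (.e (nat_lit 450574) (nat_lit 1) (.e (nat_lit 507648) (nat_lit 3) .nil)))))) (.g (nat_lit 4) .nil .nil)))) (.nd (nat_lit 6) 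
(.lf (nat_lit 257953) (.g (nat_lit 2000) (.e (nat_lit 171776) (nat_lit 219) (.e (nat_lit 163868) (nat_lit 2) (.e (nat_lit 196624) (nat_lit 9) (.e (nat_lit 1615) (nat_lit 113) (.e (nat_lit 376862) (nat_lit 22) .nil))))) .nil)) 
(.lf (nat_lit 258017) (.g (nat_lit 1521) (.e (nat_lit 164288) (nat_lit 224) (.e (nat_lit 164358) (nat_lit 246) (.e (nat_lit 226) (nat_lit 21) (.e (nat_lit 336443) (nat_lit 32) (.e (nat_lit 474880) (nat_lit 2) (.e (nat_lit 90203) (nat_lit 21) .nil)))))) (.g (nat_lit 4) .nil .nil))))) (.nd (nat_lit 5) (.nd (nat_lit 6) 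
(.lf (nat_lit 257937) (.g (nat_lit 1730) (.e (nat_lit 164248) (nat_lit 201) (.e (nat_lit 3067) (nat_lit 190) (.e (nat_lit 475185) (nat_lit 29) (.e (nat_lit 557103) (nat_lit 14) .nil)))) .nil)) 
(.lf (nat_lit 258001) (.g (nat_lit 1609) (.e (nat_lit 164287) (nat_lit 224) (.e (nat_lit 164354) (nat_lit 246) (.e (nat_lit 351) (nat_lit 28) (.e (nat_lit 393271) (nat_lit 23) (.e (nat_lit 433920) (nat_lit 17) (.e (nat_lit 90203) (nat_lit 21) .nil)))))) (.g (nat_lit 4) .nil .nil)))) (.nd (nat_lit 6) 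
(.lf (nat_lit 257969) (.g (nat_lit 737) (.e (nat_lit 164269) (nat_lit 221) (.e (nat_lit 2576) (nat_lit 161) (.e (nat_lit 40996) (nat_lit 11) (.e (nat_lit 24656) (nat_lit 13) (.e (nat_lit 401152) (nat_lit 17) .nil))))) .nil)) 
(.lf (nat_lit 258033) (.g (nat_lit 437) (.e (nat_lit 164292) (nat_lit 224) (.e (nat_lit 164112) (nat_lit 118) (.e (nat_lit 794637) (nat_lit 11) (.e (nat_lit 336213) (nat_lit 13) .nil)))) .nil))))) (.nd (nat_lit 4) (.nd (nat_lit 5) (.nd (nat_lit 6) 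
(.lf (nat_lit 257929) (.g (nat_lit 2033) (.e (nat_lit 171776) (nat_lit 194) (.e (nat_lit 131140) (nat_lit 27) (.e (nat_lit 426098) (nat_lit 1) (.e (nat_lit 164179) (nat_lit 154) (.e (nat_lit 57421) (nat_lit 13) .nil))))) .nil)) 
(.lf (nat_lit 257993) (.g (nat_lit 3629) (.e (nat_lit 164283) (nat_lit 223) (.e (nat_lit 123212) (nat_lit 273) (.e (nat_lit 57464) (nat_lit 23) (.e (nat_lit 516151) (nat_lit 9) (.e (nat_lit 426211) (nat_lit 9) (.e (nat_lit 426125) (nat_lit 2) (.e (nat_lit 204544) (nat_lit 21) .nil))))))) (.g (nat_lit 6) .nil .nil)))) (.nd (nat_lit 6) 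
(.lf (nat_lit 257961) (.g (nat_lit 533) (.e (nat_lit 164261) (nat_lit 221) (.e (nat_lit 1360) (nat_lit 102) (.e (nat_lit 286753) (nat_lit 10) .nil))) .nil)) 
(.lf (nat_lit 258025) (.g (nat_lit 1620) (.e (nat_lit 164289) (nat_lit 224) (.e (nat_lit 164354) (nat_lit 246) (.e (nat_lit 351) (nat_lit 28) (.e (nat_lit 393271) (nat_lit 23) (.e (nat_lit 433920) (nat_lit 17) (.e (nat_lit 90203) (nat_lit 21) .nil)))))) (.g (nat_lit 4) .nil .nil))))) (.nd (nat_lit 5) (.nd (nat_lit 6) 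
(.lf (nat_lit 257945) (.g (nat_lit 1872) (.e (nat_lit 171776) (nat_lit 211) (.e (nat_lit 57448) (nat_lit 19) (.e (nat_lit 393301) (nat_lit 27) (.e (nat_lit 491538) (nat_lit 3) .nil)))) .nil)) 
(.lf (nat_lit 258009) (.g (nat_lit 2348) (.e (nat_lit 164288) (nat_lit 224) (.e (nat_lit 164112) (nat_lit 118) (.e (nat_lit 794636) (nat_lit 11) (.e (nat_lit 336222) (nat_lit 13) (.e (nat_lit 393238) (nat_lit 17) (.e (nat_lit 7107) (nat_lit 380) .nil)))))) (.g (nat_lit 6) .nil .nil)))) (.nd (nat_lit 6) 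
(.lf (nat_lit 257977) (.g (nat_lit 5409) (.e (nat_lit 164281) (nat_lit 222) (.e (nat_lit 57884) (nat_lit 270) (.e (nat_lit 1046) (nat_lit 81) (.e (nat_lit 1788) (nat_lit 119) (.e (nat_lit 516151) (nat_lit 9) (.e (nat_lit 426211) (nat_lit 9) (.e (nat_lit 426125) (nat_lit 2) (.e (nat_lit 204544) (nat_lit 21) .nil)))))))) (.g (nat_lit 7) .nil .nil))) 
(.lf (nat_lit 258041) (.g (nat_lit 2507) (.e (nat_lit 164297) (nat_lit 226) (.e (nat_lit 1173) (nat_lit 87) (.e (nat_lit 57479) (nat_lit 28) (.e (nat_lit 557109) (nat_lit 15) (.e (nat_lit 196352) (nat_lit 18) .nil))))) .nil)))))) (.nd (nat_lit 3) (.nd (nat_lit 4) (.nd (nat_lit 5) (.nd (nat_lit 6) 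
(.lf (nat_lit 257925) (.g (nat_lit 1957) (.e (nat_lit 171776) (nat_lit 194) (.e (nat_lit 131140) (nat_lit 27) (.e (nat_lit 426098) (nat_lit 1) (.e (nat_lit 164151) (nat_lit 152) (.e (nat_lit 1207) (nat_lit 89) .nil))))) .nil)) 
(.lf (nat_lit 257989) (.g (nat_lit 3866) (.e (nat_lit 164281) (nat_lit 222) (.e (nat_lit 57900) (nat_lit 276) (.e (nat_lit 122936) (nat_lit 23) (.e (nat_lit 516151) (nat_lit 9) (.e (nat_lit 426211) (nat_lit 9) (.e (nat_lit 426125) (nat_lit 2) (.e (nat_lit 204544) (nat_lit 21) .nil))))))) (.g (nat_lit 6) .nil .nil)))) (.nd (nat_lit 6) 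
(.lf (nat_lit 257957) (.g (nat_lit 2217) (.e (nat_lit 171776) (nat_lit 219) (.e (nat_lit 163870) (nat_lit 2) (.e (nat_lit 196666) (nat_lit 13) (.e (nat_lit 65610) (nat_lit 10) (.e (nat_lit 344117) (nat_lit 21) .nil))))) .nil)) 
(.lf (nat_lit 258021) (.g (nat_lit 325) (.e (nat_lit 164289) (nat_lit 224) (.e (nat_lit 164108) (nat_lit 116) (.e (nat_lit 778337) (nat_lit 9) (.e (nat_lit 311) (nat_lit 23) .nil)))) .nil)))) (.nd (nat_lit 5) (.nd (nat_lit 6) 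
(.lf (nat_lit 257941) (.g (nat_lit 753) (.e (nat_lit 171776) (nat_lit 205) (.e (nat_lit 172133) (nat_lit 15) (.e (nat_lit 2175) (nat_lit 143) (.e (nat_lit 712753) (nat_lit 30) (.e (nat_lit 458496) (nat_lit 15) .nil))))) .nil)) 
(.lf (nat_lit 258005) (.g (nat_lit 2077) (.e (nat_lit 164287) (nat_lit 224) (.e (nat_lit 164358) (nat_lit 246) (.e (nat_lit 351) (nat_lit 28) (.e (nat_lit 393268) (nat_lit 23) (.e (nat_lit 426428) (nat_lit 17) (.e (nat_lit 98048) (nat_lit 21) .nil)))))) (.g (nat_lit 5) .nil .nil)))) (.nd (nat_lit 6) 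
(.lf (nat_lit 257973) (.g (nat_lit 5037) (.e (nat_lit 164281) (nat_lit 222) (.e (nat_lit 57884) (nat_lit 270) (.e (nat_lit 982) (nat_lit 81) (.e (nat_lit 1788) (nat_lit 119) (.e (nat_lit 516151) (nat_lit 9) (.e (nat_lit 426211) (nat_lit 9) (.e (nat_lit 426125) (nat_lit 2) (.e (nat_lit 204544) (nat_lit 21) .nil)))))))) (.g (nat_lit 6) .nil .nil))) 
(.lf (nat_lit 258037) (.g (nat_lit 666) (.e (nat_lit 164294) (nat_lit 224) (.e (nat_lit 164356) (nat_lit 246) (.e (nat_lit 7936) (nat_lit 28) .nil))) .nil))))) (.nd (nat_lit 4) (.nd (nat_lit 5) (.nd (nat_lit 6) 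
(.lf (nat_lit 257933) (.g (nat_lit 1073) (.e (nat_lit 164242) (nat_lit 195) (.e (nat_lit 2640) (nat_lit 165) (.e (nat_lit 180227) (nat_lit 0) (.e (nat_lit 6254) (nat_lit 337) (.e (nat_lit 7936) (nat_lit 89) .nil))))) .nil)) 
(.lf (nat_lit 257997) (.g (nat_lit 2345) (.e (nat_lit 164286) (nat_lit 224) (.e (nat_lit 164354) (nat_lit 246) (.e (nat_lit 351) (nat_lit 28) (.e (nat_lit 393291) (nat_lit 26) (.e (nat_lit 475169) (nat_lit 22) (.e (nat_lit 499791) (nat_lit 3) .nil)))))) (.g (nat_lit 0) .nil .nil)))) (.nd (nat_lit 6) 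
(.lf (nat_lit 257965) (.g (nat_lit 1432) (.e (nat_lit 164261) (nat_lit 221) (.e (nat_lit 1360) (nat_lit 102) (.e (nat_lit 286753) (nat_lit 10) (.e (nat_lit 344157) (nat_lit 36) (.e (nat_lit 638999) (nat_lit 8) .nil))))) .nil)) 
(.lf (nat_lit 258029) (.g (nat_lit 2121) (.e (nat_lit 164289) (nat_lit 224) (.e (nat_lit 164358) (nat_lit 246) (.e (nat_lit 351) (nat_lit 28) (.e (nat_lit 393268) (nat_lit 23) (.e (nat_lit 426428) (nat_lit 17) (.e (nat_lit 98048) (nat_lit 21) .nil)))))) (.g (nat_lit 5) .nil .nil))))) (.nd (nat_lit 5) (.nd (nat_lit 6) 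
(.lf (nat_lit 257949) (.g (nat_lit 546) (.e (nat_lit 164258) (nat_lit 215) (.e (nat_lit 1190) (nat_lit 88) (.e (nat_lit 65653) (nat_lit 27) .nil))) .nil)) 
(.lf (nat_lit 258013) (.g (nat_lit 2377) (.e (nat_lit 164288) (nat_lit 224) (.e (nat_lit 164354) (nat_lit 246) (.e (nat_lit 351) (nat_lit 28) (.e (nat_lit 393291) (nat_lit 26) (.e (nat_lit 475169) (nat_lit 22) (.e (nat_lit 499791) (nat_lit 3) .nil)))))) (.g (nat_lit 0) .nil .nil)))) (.nd (nat_lit 6) 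
(.lf (nat_lit 257981) (.g (nat_lit 448) (.e (nat_lit 164281) (nat_lit 222) (.e (nat_lit 57884) (nat_lit 270) (.e (nat_lit 1250) (nat_lit 92) .nil))) .nil)) 
(.lf (nat_lit 258045) (.g (nat_lit 4012) (.e (nat_lit 164297) (nat_lit 226) (.e (nat_lit 1183) (nat_lit 87) (.e (nat_lit 57479) (nat_lit 28) (.e (nat_lit 557107) (nat_lit 15) (.e (nat_lit 188421) (nat_lit 11) .nil))))) .nil))))))) (.nd (nat_lit 2) (.nd (nat_lit 3) (.nd (nat_lit 4) (.nd (nat_lit 5) (.nd (nat_lit 6) 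
(.lf (nat_lit 257923) (.g (nat_lit 1342) (.e (nat_lit 171776) (nat_lit 194) (.e (nat_lit 131140) (nat_lit 27) (.e (nat_lit 426098) (nat_lit 1) (.e (nat_lit 164148) (nat_lit 152) .nil)))) .nil)) 
(.lf (nat_lit 257987) (.g (nat_lit 3452) (.e (nat_lit 164281) (nat_lit 222) (.e (nat_lit 57896) (nat_lit 273) (.e (nat_lit 57464) (nat_lit 23) (.e (nat_lit 516151) (nat_lit 9) (.e (nat_lit 426211) (nat_lit 9) (.e (nat_lit 426125) (nat_lit 2) (.e (nat_lit 204544) (nat_lit 21) .nil))))))) (.g (nat_lit 6) .nil .nil)))) (.nd (nat_lit 6) 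
(.lf (nat_lit 257955) (.g (nat_lit 1520) (.e (nat_lit 171776) (nat_lit 219) (.e (nat_lit 163869) (nat_lit 2) (.e (nat_lit 196624) (nat_lit 9) (.e (nat_lit 1615) (nat_lit 113) .nil)))) .nil)) 
(.lf (nat_lit 258019) (.g (nat_lit 2390) (.e (nat_lit 164288) (nat_lit 224) (.e (nat_lit 164358) (nat_lit 246) (.e (nat_lit 351) (nat_lit 28) (.e (nat_lit 393291) (nat_lit 26) (.e (nat_lit 475169) (nat_lit 22) (.e (nat_lit 499791) (nat_lit 3) .nil)))))) (.g (nat_lit 5) .nil .nil))))) (.nd (nat_lit 5) (.nd (nat_lit 6) 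
(.lf (nat_lit 257939) (.g (nat_lit 741) (.e (nat_lit 164249) (nat_lit 201) (.e (nat_lit 2856) (nat_lit 184) (.e (nat_lit 426436) (nat_lit 18) .nil))) .nil)) 
(.lf (nat_lit 258003) (.g (nat_lit 2384) (.e (nat_lit 164287) (nat_lit 224) (.e (nat_lit 164354) (nat_lit 246) (.e (nat_lit 351) (nat_lit 28) (.e (nat_lit 393291) (nat_lit 26) (.e (nat_lit 475169) (nat_lit 22) (.e (nat_lit 499791) (nat_lit 3) .nil)))))) (.g (nat_lit 0) .nil .nil)))) (.nd (nat_lit 6) 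
(.lf (nat_lit 257971) (.g (nat_lit 2621) (.e (nat_lit 164281) (nat_lit 222) (.e (nat_lit 57876) (nat_lit 270) (.e (nat_lit 1256) (nat_lit 92) (.e (nat_lit 98359) (nat_lit 26) (.e (nat_lit 426211) (nat_lit 9) (.e (nat_lit 426125) (nat_lit 2) (.e (nat_lit 204544) (nat_lit 21) .nil))))))) (.g (nat_lit 6) .nil .nil))) 
(.lf (nat_lit 258035) (.g (nat_lit 1062) (.e (nat_lit 164293) (nat_lit 224) (.e (nat_lit 164112) (nat_lit 118) (.e (nat_lit 794637) (nat_lit 11) (.e (nat_lit 336215) (nat_lit 13) (.e (nat_lit 401152) (nat_lit 17) (.e (nat_lit 7106) (nat_lit 380) .nil)))))) (.g (nat_lit 4) .nil .nil)))))) (.nd (nat_lit 4) (.nd (nat_lit 5) (.nd (nat_lit 6) 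
(.lf (nat_lit 257931) (.g (nat_lit 371) (.e (nat_lit 171776) (nat_lit 194) (.e (nat_lit 131140) (nat_lit 27) (.e (nat_lit 426107) (nat_lit 1) .nil))) .nil)) 
(.lf (nat_lit 257995) (.g (nat_lit 2118) (.e (nat_lit 164286) (nat_lit 224) (.e (nat_lit 164354) (nat_lit 246) (.e (nat_lit 351) (nat_lit 28) (.e (nat_lit 393271) (nat_lit 23) (.e (nat_lit 426432) (nat_lit 17) (.e (nat_lit 90203) (nat_lit 21) .nil)))))) (.g (nat_lit 0) .nil .nil)))) (.nd (nat_lit 6) 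
(.lf (nat_lit 257963) (.g (nat_lit 1189) (.e (nat_lit 164261) (nat_lit 221) (.e (nat_lit 1360) (nat_lit 102) (.e (nat_lit 286753) (nat_lit 10) (.e (nat_lit 344157) (nat_lit 36) .nil)))) .nil)) 
(.lf (nat_lit 258027) (.g (nat_lit 2362) (.e (nat_lit 164289) (nat_lit 224) (.e (nat_lit 164354) (nat_lit 246) (.e (nat_lit 351) (nat_lit 28) (.e (nat_lit 393291) (nat_lit 26) (.e (nat_lit 475169) (nat_lit 22) (.e (nat_lit 499791) (nat_lit 3) .nil)))))) (.g (nat_lit 0) .nil .nil))))) (.nd (nat_lit 5) (.nd (nat_lit 6) 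
(.lf (nat_lit 257947) (.g (nat_lit 899) (.e (nat_lit 164256) (nat_lit 215) (.e (nat_lit 1126) (nat_lit 83) (.e (nat_lit 16473) (nat_lit 14) (.e (nat_lit 491552) (nat_lit 9) .nil)))) .nil)) 
(.lf (nat_lit 258011) (.g (nat_lit 1617) (.e (nat_lit 164288) (nat_lit 224) (.e (nat_lit 164354) (nat_lit 246) (.e (nat_lit 351) (nat_lit 28) (.e (nat_lit 393271) (nat_lit 23) (.e (nat_lit 433920) (nat_lit 17) (.e (nat_lit 90203) (nat_lit 21) .nil)))))) (.g (nat_lit 4) .nil .nil)))) (.nd (nat_lit 6) 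
(.lf (nat_lit 257979) (.g (nat_lit 3315) (.e (nat_lit 164281) (nat_lit 222) (.e (nat_lit 57884) (nat_lit 270) (.e (nat_lit 1232) (nat_lit 91) (.e (nat_lit 90170) (nat_lit 13) (.e (nat_lit 172094) (nat_lit 9) (.e (nat_lit 426125) (nat_lit 2) (.e (nat_lit 204544) (nat_lit 21) .nil))))))) (.g (nat_lit 6) .nil .nil))) 
(.lf (nat_lit 258043) (.g (nat_lit 1638) (.e (nat_lit 164297) (nat_lit 226) (.e (nat_lit 1176) (nat_lit 87) (.e (nat_lit 57478) (nat_lit 28) (.e (nat_lit 557107) (nat_lit 15) (.e (nat_lit 188423) (nat_lit 11) .nil))))) .nil)))))) (.nd (nat_lit 3) (.nd (nat_lit 4) (.nd (nat_lit 5) (.nd (nat_lit 6) 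
(.lf (nat_lit 257927) (.g (nat_lit 1342) (.e (nat_lit 171776) (nat_lit 194) (.e (nat_lit 131140) (nat_lit 27) (.e (nat_lit 426098) (nat_lit 1) (.e (nat_lit 164155) (nat_lit 152) .nil)))) .nil)) 
(.lf (nat_lit 257991) (.g (nat_lit 341) (.e (nat_lit 164283) (nat_lit 223) (.e (nat_lit 123166) (nat_lit 256) (.e (nat_lit 301) (nat_lit 22) (.e (nat_lit 352000) (nat_lit 4) .nil)))) .nil))) (.nd (nat_lit 6) 
(.lf (nat_lit 257959) (.g (nat_lit 1930) (.e (nat_lit 171776) (nat_lit 219) (.e (nat_lit 163871) (nat_lit 2) (.e (nat_lit 196624) (nat_lit 9) (.e (nat_lit 1615) (nat_lit 113) (.e (nat_lit 376865) (nat_lit 22) .nil))))) .nil)) 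
(.lf (nat_lit 258023) (.g (nat_lit 1947) (.e (nat_lit 164289) (nat_lit 224) (.e (nat_lit 164354) (nat_lit 246) (.e (nat_lit 351) (nat_lit 28) (.e (nat_lit 393268) (nat_lit 23) (.e (nat_lit 426428) (nat_lit 17) (.e (nat_lit 98048) (nat_lit 21) .nil)))))) (.g (nat_lit 5) .nil .nil))))) (.nd (nat_lit 5) (.nd (nat_lit 6) 
(.lf (nat_lit 257943) (.g (nat_lit 1480) (.e (nat_lit 171776) (nat_lit 211) (.e (nat_lit 57379) (nat_lit 3) (.e (nat_lit 98373) (nat_lit 29) (.e (nat_lit 450563) (nat_lit 0) .nil)))) .nil)) 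
(.lf (nat_lit 258007) (.g (nat_lit 1770) (.e (nat_lit 164287) (nat_lit 224) (.e (nat_lit 164358) (nat_lit 246) (.e (nat_lit 351) (nat_lit 28) (.e (nat_lit 393271) (nat_lit 23) (.e (nat_lit 433920) (nat_lit 17) (.e (nat_lit 90203) (nat_lit 21) .nil)))))) (.g (nat_lit 4) .nil .nil)))) (.nd (nat_lit 6) 
(.lf (nat_lit 257975) (.g (nat_lit 5586) (.e (nat_lit 164281) (nat_lit 222) (.e (nat_lit 57884) (nat_lit 270) (.e (nat_lit 1020) (nat_lit 81) (.e (nat_lit 1788) (nat_lit 119) (.e (nat_lit 516151) (nat_lit 9) (.e (nat_lit 426211) (nat_lit 9) (.e (nat_lit 426125) (nat_lit 2) (.e (nat_lit 204544) (nat_lit 21) .nil)))))))) (.g (nat_lit 7) .nil .nil))) 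
(.lf (nat_lit 258039) (.g (nat_lit 1912) (.e (nat_lit 164297) (nat_lit 226) (.e (nat_lit 1059) (nat_lit 81) (.e (nat_lit 1661) (nat_lit 115) (.e (nat_lit 393252) (nat_lit 18) (.e (nat_lit 164307) (nat_lit 226) (.e (nat_lit 1057) (nat_lit 81) (.e (nat_lit 1661) (nat_lit 115) (.e (nat_lit 393252) (nat_lit 18) .nil)))))))) (.g (nat_lit 4) .nil .nil)))))) 
(.nd (nat_lit 4) (.nd (nat_lit 5) (.nd (nat_lit 6) 
(.lf (nat_lit 257935) (.g (nat_lit 1301) (.e (nat_lit 164247) (nat_lit 201) (.e (nat_lit 256) (nat_lit 21) (.e (nat_lit 336228) (nat_lit 14) (.e (nat_lit 401459) (nat_lit 13) (.e (nat_lit 483343) (nat_lit 17) .nil))))) .nil)) 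
(.lf (nat_lit 257999) (.g (nat_lit 1964) (.e (nat_lit 164287) (nat_lit 224) (.e (nat_lit 164354) (nat_lit 246) (.e (nat_lit 351) (nat_lit 28) (.e (nat_lit 393268) (nat_lit 23) (.e (nat_lit 426428) (nat_lit 17) (.e (nat_lit 98048) (nat_lit 21) .nil)))))) (.g (nat_lit 5) .nil .nil)))) (.nd (nat_lit 6) 
(.lf (nat_lit 257967) (.g (nat_lit 1187) (.e (nat_lit 164268) (nat_lit 221) (.e (nat_lit 2548) (nat_lit 158) (.e (nat_lit 8430) (nat_lit 138) (.e (nat_lit 1201) (nat_lit 88) (.e (nat_lit 65583) (nat_lit 7) .nil))))) .nil)) 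
(.lf (nat_lit 258031) (.g (nat_lit 995) (.e (nat_lit 164291) (nat_lit 224) (.e (nat_lit 164112) (nat_lit 118) (.e (nat_lit 794637) (nat_lit 11) (.e (nat_lit 336214) (nat_lit 13) (.e (nat_lit 401152) (nat_lit 17) (.e (nat_lit 7106) (nat_lit 380) .nil)))))) (.g (nat_lit 4) .nil .nil))))) (.nd (nat_lit 5) (.nd (nat_lit 6) 
(.lf (nat_lit 257951) (.g (nat_lit 2916) (.e (nat_lit 164258) (nat_lit 215) (.e (nat_lit 1209) (nat_lit 89) (.e (nat_lit 73753) (nat_lit 8) (.e (nat_lit 557066) (nat_lit 9) (.e (nat_lit 232) (nat_lit 21) .nil))))) .nil)) 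
(.lf (nat_lit 258015) (.g (nat_lit 1459) (.e (nat_lit 164288) (nat_lit 224) (.e (nat_lit 164358) (nat_lit 246) (.e (nat_lit 226) (nat_lit 21) (.e (nat_lit 336428) (nat_lit 29) (.e (nat_lit 450304) (nat_lit 2) (.e (nat_lit 90203) (nat_lit 21) .nil)))))) (.g (nat_lit 4) .nil .nil)))) (.nd (nat_lit 6) 
(.lf (nat_lit 257983) (.g (nat_lit 2304) (.e (nat_lit 164281) (nat_lit 222) (.e (nat_lit 57884) (nat_lit 270) (.e (nat_lit 1250) (nat_lit 92) (.e (nat_lit 98370) (nat_lit 28) (.e (nat_lit 442424) (nat_lit 22) (.e (nat_lit 204544) (nat_lit 21) .nil)))))) (.g (nat_lit 5) .nil .nil))) 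
(.lf (nat_lit 258047) (.g (nat_lit 1842) (.e (nat_lit 164297) (nat_lit 226) (.e (nat_lit 1183) (nat_lit 87) (.e (nat_lit 57479) (nat_lit 28) (.e (nat_lit 557109) (nat_lit 15) .nil)))) .nil)))))))))

noncomputable def tv3337 : DT := (.nd (nat_lit 0) (.nd (nat_lit 1) (.nd (nat_lit 2) (.nd (nat_lit 3) (.nd (nat_lit 4) (.nd (nat_lit 5) (.nd (nat_lit 6) 
(.lf (nat_lit 258048) (.g (nat_lit 4817) (.e (nat_lit 164297) (nat_lit 226) (.e (nat_lit 1183) (nat_lit 87) (.e (nat_lit 57479) (nat_lit 28) (.e (nat_lit 557109) (nat_lit 15) (.e (nat_lit 188421) (nat_lit 11) .nil))))) .nil)) 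
(.lf (nat_lit 258112) (.g (nat_lit 1850) (.e (nat_lit 164319) (nat_lit 228) (.e (nat_lit 57377) (nat_lit 3) (.e (nat_lit 98333) (nat_lit 18) (.e (nat_lit 164325) (nat_lit 230) .nil)))) .nil))) (.nd (nat_lit 6) 
(.lf (nat_lit 258080) (.g (nat_lit 2357) (.e (nat_lit 164304) (nat_lit 226) (.e (nat_lit 2612) (nat_lit 163) (.e (nat_lit 163978) (nat_lit 30) (.e (nat_lit 573489) (nat_lit 14) (.e (nat_lit 73754) (nat_lit 8) .nil))))) .nil)) 
(.lf (nat_lit 258144) (.g (nat_lit 589) (.e (nat_lit 164319) (nat_lit 228) (.e (nat_lit 57448) (nat_lit 19) (.e (nat_lit 393234) (nat_lit 17) .nil))) .nil)))) (.nd (nat_lit 5) (.nd (nat_lit 6) 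
(.lf (nat_lit 258064) (.g (nat_lit 2351) (.e (nat_lit 164297) (nat_lit 226) (.e (nat_lit 1212) (nat_lit 89) (.e (nat_lit 73747) (nat_lit 3) (.e (nat_lit 516146) (nat_lit 9) (.e (nat_lit 426294) (nat_lit 11) .nil))))) .nil)) 
(.lf (nat_lit 258128) (.g (nat_lit 2276) (.e (nat_lit 164319) (nat_lit 228) (.e (nat_lit 57412) (nat_lit 12) (.e (nat_lit 336061) (nat_lit 7) (.e (nat_lit 319534) (nat_lit 16) (.e (nat_lit 286762) (nat_lit 14) .nil))))) .nil))) (.nd (nat_lit 6) 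
(.lf (nat_lit 258096) (.g (nat_lit 502) (.e (nat_lit 164305) (nat_lit 226) (.e (nat_lit 2630) (nat_lit 164) (.e (nat_lit 179968) (nat_lit 34) .nil))) .nil)) 
(.lf (nat_lit 258160) (.g (nat_lit 569) (.e (nat_lit 164321) (nat_lit 229) (.e (nat_lit 122916) (nat_lit 14) (.e (nat_lit 352309) (nat_lit 21) .nil))) .nil))))) (.nd (nat_lit 4) (.nd (nat_lit 5) (.nd (nat_lit 6) 
(.lf (nat_lit 258056) (.g (nat_lit 3065) (.e (nat_lit 164297) (nat_lit 226) (.e (nat_lit 1183) (nat_lit 87) (.e (nat_lit 57480) (nat_lit 28) (.e (nat_lit 557109) (nat_lit 15) (.e (nat_lit 188422) (nat_lit 11) .nil))))) .nil)) 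
(.lf (nat_lit 258120) (.g (nat_lit 2796) (.e (nat_lit 164319) (nat_lit 228) (.e (nat_lit 57389) (nat_lit 5) (.e (nat_lit 114711) (nat_lit 21) (.e (nat_lit 57847) (nat_lit 252) (.e (nat_lit 57422) (nat_lit 13) (.e (nat_lit 344133) (nat_lit 26) (.e (nat_lit 557098) (nat_lit 13) (.e (nat_lit 172061) (nat_lit 1) .nil)))))))) (.g (nat_lit 4) .nil .nil)))) (.nd (nat_lit 6) 
(.lf (nat_lit 258088) (.g (nat_lit 1258) (.e (nat_lit 164305) (nat_lit 226) (.e (nat_lit 2433) (nat_lit 157) (.e (nat_lit 2668) (nat_lit 167) (.e (nat_lit 196697) (nat_lit 19) .nil)))) .nil)) 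
(.lf (nat_lit 258152) (.g (nat_lit 598) (.e (nat_lit 164320) (nat_lit 229) (.e (nat_lit 122919) (nat_lit 15) (.e (nat_lit 360484) (nat_lit 15) .nil))) .nil)))) (.nd (nat_lit 5) (.nd (nat_lit 6) 
(.lf (nat_lit 258072) (.g (nat_lit 642) (.e (nat_lit 164297) (nat_lit 226) (.e (nat_lit 1296) (nat_lit 96) (.e (nat_lit 131091) (nat_lit 2) .nil))) .nil)) 
(.lf (nat_lit 258136) (.g (nat_lit 621) (.e (nat_lit 164319) (nat_lit 228) (.e (nat_lit 57427) (nat_lit 15) (.e (nat_lit 360482) (nat_lit 15) .nil))) .nil))) (.nd (nat_lit 6) 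
(.lf (nat_lit 258104) (.g (nat_lit 1886) (.e (nat_lit 164310) (nat_lit 226) (.e (nat_lit 1208) (nat_lit 89) (.e (nat_lit 73755) (nat_lit 8) (.e (nat_lit 557104) (nat_lit 14) (.e (nat_lit 180229) (nat_lit 0) .nil))))) .nil)) 
(.lf (nat_lit 258168) (.g (nat_lit 1008) (.e (nat_lit 171776) (nat_lit 229) (.e (nat_lit 122919) (nat_lit 15) (.e (nat_lit 360484) (nat_lit 15) (.e (nat_lit 647196) (nat_lit 9) (.e (nat_lit 7936) (nat_lit 37) .nil))))) .nil)))))) (.nd (nat_lit 3) (.nd (nat_lit 4) (.nd (nat_lit 5) (.nd (nat_lit 6) 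
(.lf (nat_lit 258052) (.g (nat_lit 2429) (.e (nat_lit 164297) (nat_lit 226) (.e (nat_lit 1183) (nat_lit 87) (.e (nat_lit 57480) (nat_lit 28) (.e (nat_lit 557098) (nat_lit 13) (.e (nat_lit 172122) (nat_lit 13) .nil))))) .nil)) 
(.lf (nat_lit 258116) (.g (nat_lit 2434) (.e (nat_lit 164319) (nat_lit 228) (.e (nat_lit 57388) (nat_lit 5) (.e (nat_lit 114711) (nat_lit 21) (.e (nat_lit 57847) (nat_lit 252) (.e (nat_lit 57422) (nat_lit 13) .nil))))) .nil))) (.nd (nat_lit 6) 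
(.lf (nat_lit 258084) (.g (nat_lit 2075) (.e (nat_lit 164305) (nat_lit 226) (.e (nat_lit 1061) (nat_lit 81) (.e (nat_lit 1661) (nat_lit 115) (.e (nat_lit 393252) (nat_lit 18) (.e (nat_lit 164305) (nat_lit 226) (.e (nat_lit 1101) (nat_lit 81) (.e (nat_lit 1661) (nat_lit 115) (.e (nat_lit 393252) (nat_lit 18) .nil)))))))) (.g (nat_lit 4) .nil .nil))) 
(.lf (nat_lit 258148) (.g (nat_lit 1040) (.e (nat_lit 164320) (nat_lit 229) (.e (nat_lit 122917) (nat_lit 15) (.e (nat_lit 360482) (nat_lit 15) (.e (nat_lit 647199) (nat_lit 11) .nil)))) .nil)))) (.nd (nat_lit 5) (.nd (nat_lit 6) 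
(.lf (nat_lit 258068) (.g (nat_lit 1853) (.e (nat_lit 164297) (nat_lit 226) (.e (nat_lit 1214) (nat_lit 89) (.e (nat_lit 73746) (nat_lit 3) (.e (nat_lit 516150) (nat_lit 9) (.e (nat_lit 426294) (nat_lit 11) .nil))))) .nil)) 
(.lf (nat_lit 258132) (.g (nat_lit 1910) (.e (nat_lit 164319) (nat_lit 228) (.e (nat_lit 57421) (nat_lit 13) (.e (nat_lit 344117) (nat_lit 21) (.e (nat_lit 516165) (nat_lit 12) (.e (nat_lit 458496) (nat_lit 3) .nil))))) .nil))) (.nd (nat_lit 6) 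
(.lf (nat_lit 258100) (.g (nat_lit 2047) (.e (nat_lit 164308) (nat_lit 226) (.e (nat_lit 1169) (nat_lit 87) (.e (nat_lit 57479) (nat_lit 28) (.e (nat_lit 557107) (nat_lit 15) (.e (nat_lit 196352) (nat_lit 18) .nil))))) .nil)) 
(.lf (nat_lit 258164) (.g (nat_lit 660) (.e (nat_lit 164321) (nat_lit 229) (.e (nat_lit 122917) (nat_lit 15) (.e (nat_lit 360480) (nat_lit 14) .nil))) .nil))))) (.nd (nat_lit 4) (.nd (nat_lit 5) (.nd (nat_lit 6) 
(.lf (nat_lit 258060) (.g (nat_lit 1641) (.e (nat_lit 164297) (nat_lit 226) (.e (nat_lit 1201) (nat_lit 88) (.e (nat_lit 65610) (nat_lit 10) (.e (nat_lit 344157) (nat_lit 36) .nil)))) .nil)) 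
(.lf (nat_lit 258124) (.g (nat_lit 1661) (.e (nat_lit 164319) (nat_lit 228) (.e (nat_lit 57412) (nat_lit 12) (.e (nat_lit 335907) (nat_lit 0) (.e (nat_lit 6218) (nat_lit 333) (.e (nat_lit 57819) (nat_lit 248) .nil))))) .nil))) (.nd (nat_lit 6) 
(.lf (nat_lit 258092) (.g (nat_lit 2445) (.e (nat_lit 164305) (nat_lit 226) (.e (nat_lit 2612) (nat_lit 163) (.e (nat_lit 163979) (nat_lit 30) (.e (nat_lit 573487) (nat_lit 14) (.e (nat_lit 73753) (nat_lit 8) .nil))))) .nil)) 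
(.lf (nat_lit 258156) (.g (nat_lit 1698) (.e (nat_lit 164320) (nat_lit 229) (.e (nat_lit 122919) (nat_lit 15) (.e (nat_lit 360484) (nat_lit 15) (.e (nat_lit 647195) (nat_lit 9) (.e (nat_lit 7936) (nat_lit 37) .nil))))) .nil)))) (.nd (nat_lit 5) (.nd (nat_lit 6) 
(.lf (nat_lit 258076) (.g (nat_lit 1762) (.e (nat_lit 164300) (nat_lit 226) (.e (nat_lit 1059) (nat_lit 81) (.e (nat_lit 1661) (nat_lit 115) (.e (nat_lit 393252) (nat_lit 18) (.e (nat_lit 164297) (nat_lit 226) .nil))))) .nil)) 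
(.lf (nat_lit 258140) (.g (nat_lit 824) (.e (nat_lit 164319) (nat_lit 228) (.e (nat_lit 57445) (nat_lit 19) (.e (nat_lit 393251) (nat_lit 18) .nil))) .nil))) (.nd (nat_lit 6) 
(.lf (nat_lit 258108) (.g (nat_lit 883) (.e (nat_lit 164315) (nat_lit 226) (.e (nat_lit 1179) (nat_lit 87) (.e (nat_lit 57480) (nat_lit 28) (.e (nat_lit 557108) (nat_lit 15) .nil)))) .nil)) 
(.lf (nat_lit 258172) (.g (nat_lit 630) (.e (nat_lit 164322) (nat_lit 230) (.e (nat_lit 163870) (nat_lit 2) (.e (nat_lit 196654) (nat_lit 11) .nil))) .nil))))))) (.nd (nat_lit 2) (.nd (nat_lit 3) (.nd (nat_lit 4) (.nd (nat_lit 5) (.nd (nat_lit 6) 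
(.lf (nat_lit 258050) (.g (nat_lit 3044) (.e (nat_lit 164297) (nat_lit 226) (.e (nat_lit 1183) (nat_lit 87) (.e (nat_lit 57479) (nat_lit 28) (.e (nat_lit 557109) (nat_lit 15) (.e (nat_lit 196352) (nat_lit 18) .nil))))) .nil)) 
(.lf (nat_lit 258114) (.g (nat_lit 2291) (.e (nat_lit 164319) (nat_lit 228) (.e (nat_lit 57388) (nat_lit 5) (.e (nat_lit 114710) (nat_lit 21) (.e (nat_lit 57852) (nat_lit 252) (.e (nat_lit 57421) (nat_lit 13) .nil))))) .nil))) (.nd (nat_lit 6) 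
(.lf (nat_lit 258082) (.g (nat_lit 2820) (.e (nat_lit 164304) (nat_lit 226) (.e (nat_lit 2612) (nat_lit 163) (.e (nat_lit 163979) (nat_lit 30) (.e (nat_lit 573489) (nat_lit 14) (.e (nat_lit 73754) (nat_lit 8) .nil))))) .nil)) 
(.lf (nat_lit 258146) (.g (nat_lit 612) (.e (nat_lit 164320) (nat_lit 229) (.e (nat_lit 122916) (nat_lit 14) (.e (nat_lit 352309) (nat_lit 21) .nil))) .nil)))) (.nd (nat_lit 5) (.nd (nat_lit 6) 
(.lf (nat_lit 258066) (.g (nat_lit 980) (.e (nat_lit 164297) (nat_lit 226) (.e (nat_lit 1212) (nat_lit 89) (.e (nat_lit 73789) (nat_lit 45) (.e (nat_lit 1342) (nat_lit 101) .nil)))) .nil)) 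
(.lf (nat_lit 258130) (.g (nat_lit 1435) (.e (nat_lit 164319) (nat_lit 228) (.e (nat_lit 57412) (nat_lit 12) (.e (nat_lit 336163) (nat_lit 10) (.e (nat_lit 344156) (nat_lit 36) (.e (nat_lit 638998) (nat_lit 8) .nil))))) .nil))) (.nd (nat_lit 6) 
(.lf (nat_lit 258098) (.g (nat_lit 1732) (.e (nat_lit 164306) (nat_lit 226) (.e (nat_lit 1072) (nat_lit 81) (.e (nat_lit 1661) (nat_lit 115) (.e (nat_lit 393252) (nat_lit 18) (.e (nat_lit 164306) (nat_lit 226) .nil))))) .nil)) 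
(.lf (nat_lit 258162) (.g (nat_lit 1027) (.e (nat_lit 164321) (nat_lit 229) (.e (nat_lit 122916) (nat_lit 14) (.e (nat_lit 352309) (nat_lit 21) (.e (nat_lit 57857) (nat_lit 254) .nil)))) .nil))))) (.nd (nat_lit 4) (.nd (nat_lit 5) (.nd (nat_lit 6) 
(.lf (nat_lit 258058) (.g (nat_lit 552) (.e (nat_lit 164297) (nat_lit 226) (.e (nat_lit 1201) (nat_lit 88) (.e (nat_lit 65610) (nat_lit 10) .nil))) .nil)) 
(.lf (nat_lit 258122) (.g (nat_lit 2197) (.e (nat_lit 164319) (nat_lit 228) (.e (nat_lit 57389) (nat_lit 5) (.e (nat_lit 114712) (nat_lit 21) (.e (nat_lit 57852) (nat_lit 252) (.e (nat_lit 57420) (nat_lit 13) .nil))))) .nil))) (.nd (nat_lit 6) 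
(.lf (nat_lit 258090) (.g (nat_lit 1921) (.e (nat_lit 164305) (nat_lit 226) (.e (nat_lit 2612) (nat_lit 163) (.e (nat_lit 163977) (nat_lit 30) (.e (nat_lit 573489) (nat_lit 14) (.e (nat_lit 73754) (nat_lit 8) .nil))))) .nil)) 
(.lf (nat_lit 258154) (.g (nat_lit 1557) (.e (nat_lit 164320) (nat_lit 229) (.e (nat_lit 122919) (nat_lit 15) (.e (nat_lit 360484) (nat_lit 15) (.e (nat_lit 647190) (nat_lit 9) (.e (nat_lit 7936) (nat_lit 37) .nil))))) .nil)))) (.nd (nat_lit 5) (.nd (nat_lit 6) 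
(.lf (nat_lit 258074) (.g (nat_lit 1800) (.e (nat_lit 164298) (nat_lit 226) (.e (nat_lit 1185) (nat_lit 87) (.e (nat_lit 57480) (nat_lit 28) (.e (nat_lit 557107) (nat_lit 15) (.e (nat_lit 196352) (nat_lit 18) .nil))))) .nil)) 
(.lf (nat_lit 258138) (.g (nat_lit 888) (.e (nat_lit 164319) (nat_lit 228) (.e (nat_lit 57427) (nat_lit 15) (.e (nat_lit 360484) (nat_lit 15) (.e (nat_lit 647199) (nat_lit 11) .nil)))) .nil))) (.nd (nat_lit 6) 
(.lf (nat_lit 258106) (.g (nat_lit 1513) (.e (nat_lit 164315) (nat_lit 226) (.e (nat_lit 1179) (nat_lit 87) (.e (nat_lit 57479) (nat_lit 28) (.e (nat_lit 557107) (nat_lit 15) .nil)))) .nil)) 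
(.lf (nat_lit 258170) (.g (nat_lit 3007) (.e (nat_lit 164322) (nat_lit 230) (.e (nat_lit 163867) (nat_lit 2) (.e (nat_lit 196656) (nat_lit 11) (.e (nat_lit 16436) (nat_lit 9) (.e (nat_lit 426479) (nat_lit 27) (.e (nat_lit 336369) (nat_lit 27) (.e (nat_lit 426109) (nat_lit 1) .nil))))))) (.g (nat_lit 4) .nil .nil))))))) (.nd (nat_lit 3) (.nd (nat_lit 4) (.nd (nat_lit 5) (.nd (nat_lit 6) 
(.lf (nat_lit 258054) (.g (nat_lit 1527) (.e (nat_lit 164297) (nat_lit 226) (.e (nat_lit 1183) (nat_lit 87) (.e (nat_lit 57480) (nat_lit 28) (.e (nat_lit 557107) (nat_lit 15) .nil)))) .nil)) 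
(.lf (nat_lit 258118) (.g (nat_lit 798) (.e (nat_lit 164319) (nat_lit 228) (.e (nat_lit 57389) (nat_lit 5) (.e (nat_lit 114711) (nat_lit 21) .nil))) .nil))) (.nd (nat_lit 6) 
(.lf (nat_lit 258086) (.g (nat_lit 2020) (.e (nat_lit 164305) (nat_lit 226) (.e (nat_lit 1101) (nat_lit 81) (.e (nat_lit 1661) (nat_lit 115) (.e (nat_lit 393251) (nat_lit 18) (.e (nat_lit 164300) (nat_lit 226) (.e (nat_lit 1057) (nat_lit 81) (.e (nat_lit 1661) (nat_lit 115) (.e (nat_lit 393252) (nat_lit 18) .nil)))))))) (.g (nat_lit 4) .nil .nil))) 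
(.lf (nat_lit 258150) (.g (nat_lit 895) (.e (nat_lit 164320) (nat_lit 229) (.e (nat_lit 122919) (nat_lit 15) (.e (nat_lit 360451) (nat_lit 0) .nil))) .nil)))) (.nd (nat_lit 5) (.nd (nat_lit 6) 
(.lf (nat_lit 258070) (.g (nat_lit 1158) (.e (nat_lit 164297) (nat_lit 226) (.e (nat_lit 1222) (nat_lit 90) (.e (nat_lit 81943) (nat_lit 20) (.e (nat_lit 1962) (nat_lit 134) (.e (nat_lit 638999) (nat_lit 8) .nil))))) .nil)) 
(.lf (nat_lit 258134) (.g (nat_lit 2093) (.e (nat_lit 164319) (nat_lit 228) (.e (nat_lit 57421) (nat_lit 13) (.e (nat_lit 344133) (nat_lit 26) (.e (nat_lit 557098) (nat_lit 13) (.e (nat_lit 179968) (nat_lit 20) .nil))))) .nil))) (.nd (nat_lit 6) 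
(.lf (nat_lit 258102) (.g (nat_lit 930) (.e (nat_lit 164308) (nat_lit 226) (.e (nat_lit 1208) (nat_lit 89) (.e (nat_lit 73747) (nat_lit 3) (.e (nat_lit 516165) (nat_lit 12) .nil)))) .nil)) 
(.lf (nat_lit 258166) (.g (nat_lit 1230) (.e (nat_lit 164321) (nat_lit 229) (.e (nat_lit 122919) (nat_lit 15) (.e (nat_lit 360451) (nat_lit 0) (.e (nat_lit 5236) (nat_lit 297) .nil)))) .nil))))) (.nd (nat_lit 4) (.nd (nat_lit 5) (.nd (nat_lit 6) 
(.lf (nat_lit 258062) (.g (nat_lit 498) (.e (nat_lit 164297) (nat_lit 226) (.e (nat_lit 1201) (nat_lit 88) (.e (nat_lit 65617) (nat_lit 10) .nil))) .nil)) 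
(.lf (nat_lit 258126) (.g (nat_lit 1162) (.e (nat_lit 164319) (nat_lit 228) (.e (nat_lit 57412) (nat_lit 12) (.e (nat_lit 336061) (nat_lit 7) (.e (nat_lit 319523) (nat_lit 14) .nil)))) .nil))) (.nd (nat_lit 6) 
(.lf (nat_lit 258094) (.g (nat_lit 535) (.e (nat_lit 164305) (nat_lit 226) (.e (nat_lit 2630) (nat_lit 164) (.e (nat_lit 172035) (nat_lit 0) .nil))) .nil)) 
(.lf (nat_lit 258158) (.g (nat_lit 1898) (.e (nat_lit 164321) (nat_lit 229) (.e (nat_lit 122911) (nat_lit 13) (.e (nat_lit 344117) (nat_lit 21) (.e (nat_lit 516166) (nat_lit 12) (.e (nat_lit 458496) (nat_lit 3) (.e (nat_lit 516115) (nat_lit 1) .nil)))))) (.g (nat_lit 4) .nil .nil))))) (.nd (nat_lit 5) (.nd (nat_lit 6) 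
(.lf (nat_lit 258078) (.g (nat_lit 2059) (.e (nat_lit 164304) (nat_lit 226) (.e (nat_lit 2612) (nat_lit 163) (.e (nat_lit 163977) (nat_lit 30) (.e (nat_lit 573487) (nat_lit 14) (.e (nat_lit 73753) (nat_lit 8) .nil))))) .nil)) 
(.lf (nat_lit 258142) (.g (nat_lit 2200) (.e (nat_lit 164319) (nat_lit 228) (.e (nat_lit 57445) (nat_lit 19) (.e (nat_lit 393251) (nat_lit 18) (.e (nat_lit 164300) (nat_lit 226) .nil)))) .nil))) (.nd (nat_lit 6) 
(.lf (nat_lit 258110) (.g (nat_lit 911) (.e (nat_lit 164319) (nat_lit 228) (.e (nat_lit 57372) (nat_lit 2) (.e (nat_lit 98048) (nat_lit 6) .nil))) .nil)) 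
(.lf (nat_lit 258174) (.g (nat_lit 2761) (.e (nat_lit 164322) (nat_lit 230) (.e (nat_lit 163871) (nat_lit 2) (.e (nat_lit 196656) (nat_lit 11) (.e (nat_lit 16438) (nat_lit 9) (.e (nat_lit 426568) (nat_lit 34) .nil))))) .nil)))))))) (.nd (nat_lit 1) (.nd (nat_lit 2) (.nd (nat_lit 3) (.nd (nat_lit 4) (.nd (nat_lit 5) (.nd (nat_lit 6) 
(.lf (nat_lit 258049) (.g (nat_lit 3571) (.e (nat_lit 164297) (nat_lit 226) (.e (nat_lit 1183) (nat_lit 87) (.e (nat_lit 57479) (nat_lit 28) (.e (nat_lit 557109) (nat_lit 15) (.e (nat_lit 188422) (nat_lit 11) .nil))))) .nil)) 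
(.lf (nat_lit 258113) (.g (nat_lit 2447) (.e (nat_lit 164319) (nat_lit 228) (.e (nat_lit 57388) (nat_lit 5) (.e (nat_lit 114710) (nat_lit 21) (.e (nat_lit 57852) (nat_lit 252) (.e (nat_lit 57420) (nat_lit 13) .nil))))) .nil))) (.nd (nat_lit 6) 
(.lf (nat_lit 258081) (.g (nat_lit 2583) (.e (nat_lit 164304) (nat_lit 226) (.e (nat_lit 2612) (nat_lit 163) (.e (nat_lit 163979) (nat_lit 30) (.e (nat_lit 573487) (nat_lit 14) (.e (nat_lit 73753) (nat_lit 8) .nil))))) .nil)) 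
(.lf (nat_lit 258145) (.g (nat_lit 2165) (.e (nat_lit 164319) (nat_lit 228) (.e (nat_lit 57448) (nat_lit 19) (.e (nat_lit 393251) (nat_lit 18) (.e (nat_lit 164300) (nat_lit 226) .nil)))) .nil)))) (.nd (nat_lit 5) (.nd (nat_lit 6) 
(.lf (nat_lit 258065) (.g (nat_lit 594) (.e (nat_lit 164297) (nat_lit 226) (.e (nat_lit 1212) (nat_lit 89) (.e (nat_lit 73789) (nat_lit 45) .nil))) .nil)) 
(.lf (nat_lit 258129) (.g (nat_lit 4655) (.e (nat_lit 164319) (nat_lit 228) (.e (nat_lit 57412) (nat_lit 12) (.e (nat_lit 336061) (nat_lit 7) (.e (nat_lit 319534) (nat_lit 16) (.e (nat_lit 286762) (nat_lit 14) (.e (nat_lit 401434) (nat_lit 9) (.e (nat_lit 426109) (nat_lit 1) .nil))))))) (.g (nat_lit 7) .nil .nil)))) (.nd (nat_lit 6) 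
(.lf (nat_lit 258097) (.g (nat_lit 327) (.e (nat_lit 164305) (nat_lit 226) (.e (nat_lit 2725) (nat_lit 172) (.e (nat_lit 245504) (nat_lit 34) .nil))) .nil)) 
(.lf (nat_lit 258161) (.g (nat_lit 1999) (.e (nat_lit 164321) (nat_lit 229) (.e (nat_lit 122916) (nat_lit 14) (.e (nat_lit 352309) (nat_lit 21) (.e (nat_lit 57834) (nat_lit 250) .nil)))) .nil))))) (.nd (nat_lit 4) (.nd (nat_lit 5) (.nd (nat_lit 6) 
(.lf (nat_lit 258057) (.g (nat_lit 1608) (.e (nat_lit 164297) (nat_lit 226) (.e (nat_lit 1201) (nat_lit 88) (.e (nat_lit 65571) (nat_lit 3) (.e (nat_lit 98370) (nat_lit 28) .nil)))) .nil)) 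
(.lf (nat_lit 258121) (.g (nat_lit 1774) (.e (nat_lit 164319) (nat_lit 228) (.e (nat_lit 57389) (nat_lit 5) (.e (nat_lit 114712) (nat_lit 21) (.e (nat_lit 57851) (nat_lit 252) (.e (nat_lit 57421) (nat_lit 13) .nil))))) .nil))) (.nd (nat_lit 6) 
(.lf (nat_lit 258089) (.g (nat_lit 2046) (.e (nat_lit 164305) (nat_lit 226) (.e (nat_lit 2612) (nat_lit 163) (.e (nat_lit 163977) (nat_lit 30) (.e (nat_lit 573487) (nat_lit 14) (.e (nat_lit 73753) (nat_lit 8) .nil))))) .nil)) 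
(.lf (nat_lit 258153) (.g (nat_lit 1252) (.e (nat_lit 164320) (nat_lit 229) (.e (nat_lit 122919) (nat_lit 15) (.e (nat_lit 360484) (nat_lit 15) (.e (nat_lit 647188) (nat_lit 9) (.e (nat_lit 479) (nat_lit 37) .nil))))) .nil)))) (.nd (nat_lit 5) (.nd (nat_lit 6) 
(.lf (nat_lit 258073) (.g (nat_lit 666) (.e (nat_lit 164297) (nat_lit 226) (.e (nat_lit 1296) (nat_lit 96) (.e (nat_lit 131094) (nat_lit 2) .nil))) .nil)) 
(.lf (nat_lit 258137) (.g (nat_lit 479) (.e (nat_lit 164319) (nat_lit 228) (.e (nat_lit 57427) (nat_lit 15) (.e (nat_lit 360483) (nat_lit 15) .nil))) .nil))) (.nd (nat_lit 6) 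
(.lf (nat_lit 258105) (.g (nat_lit 798) (.e (nat_lit 164313) (nat_lit 226) (.e (nat_lit 1187) (nat_lit 88) (.e (nat_lit 65619) (nat_lit 10) (.e (nat_lit 344160) (nat_lit 37) .nil)))) .nil)) 
(.lf (nat_lit 258169) (.g (nat_lit 1190) (.e (nat_lit 171776) (nat_lit 229) (.e (nat_lit 122919) (nat_lit 15) (.e (nat_lit 360484) (nat_lit 15) (.e (nat_lit 647199) (nat_lit 11) (.e (nat_lit 16446) (nat_lit 9) .nil))))) .nil)))))) (.nd (nat_lit 3) (.nd (nat_lit 4) (.nd (nat_lit 5) (.nd (nat_lit 6) 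
(.lf (nat_lit 258053) (.g (nat_lit 2828) (.e (nat_lit 164297) (nat_lit 226) (.e (nat_lit 1183) (nat_lit 87) (.e (nat_lit 57480) (nat_lit 28) (.e (nat_lit 557098) (nat_lit 13) (.e (nat_lit 172123) (nat_lit 13) .nil))))) .nil)) 
(.lf (nat_lit 258117) (.g (nat_lit 2213) (.e (nat_lit 164319) (nat_lit 228) (.e (nat_lit 57388) (nat_lit 5) (.e (nat_lit 114712) (nat_lit 21) (.e (nat_lit 57852) (nat_lit 252) (.e (nat_lit 57420) (nat_lit 13) .nil))))) .nil))) (.nd (nat_lit 6) 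
(.lf (nat_lit 258085) (.g (nat_lit 2510) (.e (nat_lit 164305) (nat_lit 226) (.e (nat_lit 1070) (nat_lit 81) (.e (nat_lit 1656) (nat_lit 115) (.e (nat_lit 393251) (nat_lit 18) (.e (nat_lit 164300) (nat_lit 226) (.e (nat_lit 1059) (nat_lit 81) (.e (nat_lit 1661) (nat_lit 115) (.e (nat_lit 393252) (nat_lit 18) .nil)))))))) (.g (nat_lit 4) .nil .nil))) 
(.lf (nat_lit 258149) (.g (nat_lit 868) (.e (nat_lit 164320) (nat_lit 229) (.e (nat_lit 122919) (nat_lit 15) (.e (nat_lit 360448) (nat_lit 0) .nil))) .nil)))) (.nd (nat_lit 5) (.nd (nat_lit 6) 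
(.lf (nat_lit 258069) (.g (nat_lit 1948) (.e (nat_lit 164297) (nat_lit 226) (.e (nat_lit 1214) (nat_lit 89) (.e (nat_lit 73746) (nat_lit 3) (.e (nat_lit 516165) (nat_lit 12) (.e (nat_lit 458496) (nat_lit 3) .nil))))) .nil)) 
(.lf (nat_lit 258133) (.g (nat_lit 2382) (.e (nat_lit 164319) (nat_lit 228) (.e (nat_lit 57421) (nat_lit 13) (.e (nat_lit 344133) (nat_lit 26) (.e (nat_lit 557098) (nat_lit 13) (.e (nat_lit 172061) (nat_lit 1) .nil))))) .nil))) (.nd (nat_lit 6) 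
(.lf (nat_lit 258101) (.g (nat_lit 2004) (.e (nat_lit 164308) (nat_lit 226) (.e (nat_lit 1176) (nat_lit 87) (.e (nat_lit 57479) (nat_lit 28) (.e (nat_lit 557107) (nat_lit 15) (.e (nat_lit 196352) (nat_lit 18) .nil))))) .nil)) 
(.lf (nat_lit 258165) (.g (nat_lit 1414) (.e (nat_lit 164321) (nat_lit 229) (.e (nat_lit 122919) (nat_lit 15) (.e (nat_lit 360451) (nat_lit 0) (.e (nat_lit 5107) (nat_lit 292) .nil)))) .nil))))) (.nd (nat_lit 4) (.nd (nat_lit 5) (.nd (nat_lit 6) 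
(.lf (nat_lit 258061) (.g (nat_lit 2207) (.e (nat_lit 164297) (nat_lit 226) (.e (nat_lit 1201) (nat_lit 88) (.e (nat_lit 65610) (nat_lit 10) (.e (nat_lit 344160) (nat_lit 37) (.e (nat_lit 647190) (nat_lit 9) .nil))))) .nil)) 
(.lf (nat_lit 258125) (.g (nat_lit 410) (.e (nat_lit 164319) (nat_lit 228) (.e (nat_lit 57412) (nat_lit 12) (.e (nat_lit 336061) (nat_lit 7) .nil))) .nil))) (.nd (nat_lit 6) 
(.lf (nat_lit 258093) (.g (nat_lit 2624) (.e (nat_lit 164305) (nat_lit 226) (.e (nat_lit 2612) (nat_lit 163) (.e (nat_lit 163979) (nat_lit 30) (.e (nat_lit 573489) (nat_lit 14) (.e (nat_lit 73754) (nat_lit 8) .nil))))) .nil)) 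
(.lf (nat_lit 258157) (.g (nat_lit 3148) (.e (nat_lit 164320) (nat_lit 229) (.e (nat_lit 122919) (nat_lit 15) (.e (nat_lit 360484) (nat_lit 15) (.e (nat_lit 647199) (nat_lit 11) (.e (nat_lit 16446) (nat_lit 9) (.e (nat_lit 426100) (nat_lit 1) .nil)))))) (.g (nat_lit 6) .nil .nil))))) (.nd (nat_lit 5) (.nd (nat_lit 6) 
(.lf (nat_lit 258077) (.g (nat_lit 1762) (.e (nat_lit 164300) (nat_lit 226) (.e (nat_lit 1059) (nat_lit 81) (.e (nat_lit 1661) (nat_lit 115) (.e (nat_lit 393252) (nat_lit 18) (.e (nat_lit 164319) (nat_lit 228) .nil))))) .nil)) 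
(.lf (nat_lit 258141) (.g (nat_lit 2201) (.e (nat_lit 164319) (nat_lit 228) (.e (nat_lit 57445) (nat_lit 19) (.e (nat_lit 393251) (nat_lit 18) (.e (nat_lit 164298) (nat_lit 226) .nil)))) .nil))) (.nd (nat_lit 6) 
(.lf (nat_lit 258109) (.g (nat_lit 421) (.e (nat_lit 164319) (nat_lit 228) (.e (nat_lit 57354) (nat_lit 0) (.e (nat_lit 1855) (nat_lit 124) .nil))) .nil)) 
(.lf (nat_lit 258173) (.g (nat_lit 2260) (.e (nat_lit 164322) (nat_lit 230) (.e (nat_lit 163871) (nat_lit 2) (.e (nat_lit 196654) (nat_lit 11) (.e (nat_lit 16436) (nat_lit 9) (.e (nat_lit 426566) (nat_lit 34) (.e (nat_lit 393254) (nat_lit 18) .nil)))))) (.g (nat_lit 4) .nil .nil)))))))) (.nd (nat_lit 2) (.nd (nat_lit 3) (.nd (nat_lit 4) (.nd (nat_lit 5) (.nd (nat_lit 6) 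
(.lf (nat_lit 258051) (.g (nat_lit 3068) (.e (nat_lit 164297) (nat_lit 226) (.e (nat_lit 1183) (nat_lit 87) (.e (nat_lit 57479) (nat_lit 28) (.e (nat_lit 557109) (nat_lit 15) (.e (nat_lit 196352) (nat_lit 18) (.e (nat_lit 393254) (nat_lit 18) .nil)))))) (.g (nat_lit 4) .nil .nil))) 
(.lf (nat_lit 258115) (.g (nat_lit 2434) (.e (nat_lit 164319) (nat_lit 228) (.e (nat_lit 57388) (nat_lit 5) (.e (nat_lit 114711) (nat_lit 21) (.e (nat_lit 57847) (nat_lit 252) (.e (nat_lit 57420) (nat_lit 13) .nil))))) .nil))) (.nd (nat_lit 6) 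
(.lf (nat_lit 258083) (.g (nat_lit 503) (.e (nat_lit 164304) (nat_lit 226) (.e (nat_lit 2630) (nat_lit 164) (.e (nat_lit 179968) (nat_lit 34) .nil))) .nil)) 
(.lf (nat_lit 258147) (.g (nat_lit 2052) (.e (nat_lit 164320) (nat_lit 229) (.e (nat_lit 122916) (nat_lit 14) (.e (nat_lit 352309) (nat_lit 21) (.e (nat_lit 57834) (nat_lit 250) .nil)))) .nil)))) (.nd (nat_lit 5) (.nd (nat_lit 6) 
(.lf (nat_lit 258067) (.g (nat_lit 2138) (.e (nat_lit 164297) (nat_lit 226) (.e (nat_lit 1214) (nat_lit 89) (.e (nat_lit 73746) (nat_lit 3) (.e (nat_lit 516146) (nat_lit 9) (.e (nat_lit 426294) (nat_lit 11) .nil))))) .nil)) 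
(.lf (nat_lit 258131) (.g (nat_lit 546) (.e (nat_lit 164319) (nat_lit 228) (.e (nat_lit 57412) (nat_lit 12) (.e (nat_lit 336166) (nat_lit 10) .nil))) .nil))) (.nd (nat_lit 6) 
(.lf (nat_lit 258099) (.g (nat_lit 1744) (.e (nat_lit 164307) (nat_lit 226) (.e (nat_lit 1072) (nat_lit 81) (.e (nat_lit 1661) (nat_lit 115) (.e (nat_lit 393252) (nat_lit 18) (.e (nat_lit 164297) (nat_lit 226) .nil))))) .nil)) 
(.lf (nat_lit 258163) (.g (nat_lit 3147) (.e (nat_lit 164321) (nat_lit 229) (.e (nat_lit 122916) (nat_lit 14) (.e (nat_lit 352309) (nat_lit 21) (.e (nat_lit 57857) (nat_lit 254) (.e (nat_lit 163920) (nat_lit 14) (.e (nat_lit 442421) (nat_lit 21) .nil)))))) (.g (nat_lit 0) .nil .nil)))))) (.nd (nat_lit 4) (.nd (nat_lit 5) (.nd (nat_lit 6) 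
(.lf (nat_lit 258059) (.g (nat_lit 2421) (.e (nat_lit 164297) (nat_lit 226) (.e (nat_lit 1201) (nat_lit 88) (.e (nat_lit 65610) (nat_lit 10) (.e (nat_lit 344156) (nat_lit 36) (.e (nat_lit 638998) (nat_lit 8) .nil))))) .nil)) 
(.lf (nat_lit 258123) (.g (nat_lit 1838) (.e (nat_lit 164319) (nat_lit 228) (.e (nat_lit 57406) (nat_lit 12) (.e (nat_lit 336456) (nat_lit 34) (.e (nat_lit 483395) (nat_lit 24) .nil)))) .nil))) (.nd (nat_lit 6) 
(.lf (nat_lit 258091) (.g (nat_lit 2448) (.e (nat_lit 164305) (nat_lit 226) (.e (nat_lit 2612) (nat_lit 163) (.e (nat_lit 163978) (nat_lit 30) (.e (nat_lit 573489) (nat_lit 14) (.e (nat_lit 73754) (nat_lit 8) .nil))))) .nil)) 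
(.lf (nat_lit 258155) (.g (nat_lit 1053) (.e (nat_lit 164320) (nat_lit 229) (.e (nat_lit 122919) (nat_lit 15) (.e (nat_lit 360484) (nat_lit 15) (.e (nat_lit 647195) (nat_lit 9) .nil)))) .nil)))) (.nd (nat_lit 5) (.nd (nat_lit 6) 
(.lf (nat_lit 258075) (.g (nat_lit 1704) (.e (nat_lit 164300) (nat_lit 226) (.e (nat_lit 1057) (nat_lit 81) (.e (nat_lit 1661) (nat_lit 115) (.e (nat_lit 393252) (nat_lit 18) (.e (nat_lit 164307) (nat_lit 226) .nil))))) .nil)) 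
(.lf (nat_lit 258139) (.g (nat_lit 686) (.e (nat_lit 164319) (nat_lit 228) (.e (nat_lit 57445) (nat_lit 19) (.e (nat_lit 393229) (nat_lit 9) .nil))) .nil))) (.nd (nat_lit 6) 
(.lf (nat_lit 258107) (.g (nat_lit 2667) (.e (nat_lit 164315) (nat_lit 226) (.e (nat_lit 1179) (nat_lit 87) (.e (nat_lit 57479) (nat_lit 28) (.e (nat_lit 557109) (nat_lit 15) (.e (nat_lit 196352) (nat_lit 18) .nil))))) .nil)) 
(.lf (nat_lit 258171) (.g (nat_lit 2427) (.e (nat_lit 164322) (nat_lit 230) (.e (nat_lit 163867) (nat_lit 2) (.e (nat_lit 196656) (nat_lit 11) (.e (nat_lit 16438) (nat_lit 9) (.e (nat_lit 426568) (nat_lit 34) .nil))))) .nil)))))) (.nd (nat_lit 3) (.nd (nat_lit 4) (.nd (nat_lit 5) (.nd (nat_lit 6) 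
(.lf (nat_lit 258055) (.g (nat_lit 3206) (.e (nat_lit 164297) (nat_lit 226) (.e (nat_lit 1183) (nat_lit 87) (.e (nat_lit 57480) (nat_lit 28) (.e (nat_lit 557109) (nat_lit 15) (.e (nat_lit 188421) (nat_lit 11) .nil))))) .nil)) 
(.lf (nat_lit 258119) (.g (nat_lit 2612) (.e (nat_lit 164319) (nat_lit 228) (.e (nat_lit 57389) (nat_lit 5) (.e (nat_lit 114711) (nat_lit 21) (.e (nat_lit 57847) (nat_lit 252) (.e (nat_lit 57420) (nat_lit 13) .nil))))) .nil))) (.nd (nat_lit 6) 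
(.lf (nat_lit 258087) (.g (nat_lit 2074) (.e (nat_lit 164305) (nat_lit 226) (.e (nat_lit 1101) (nat_lit 81) (.e (nat_lit 1661) (nat_lit 115) (.e (nat_lit 393252) (nat_lit 18) (.e (nat_lit 164297) (nat_lit 226) (.e (nat_lit 1057) (nat_lit 81) (.e (nat_lit 1661) (nat_lit 115) (.e (nat_lit 393252) (nat_lit 18) .nil)))))))) (.g (nat_lit 4) .nil .nil))) 
(.lf (nat_lit 258151) (.g (nat_lit 868) (.e (nat_lit 164320) (nat_lit 229) (.e (nat_lit 122919) (nat_lit 15) (.e (nat_lit 360482) (nat_lit 15) .nil))) .nil)))) (.nd (nat_lit 5) (.nd (nat_lit 6) 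
(.lf (nat_lit 258071) (.g (nat_lit 976) (.e (nat_lit 164297) (nat_lit 226) (.e (nat_lit 1222) (nat_lit 90) (.e (nat_lit 81943) (nat_lit 20) (.e (nat_lit 1963) (nat_lit 134) .nil)))) .nil)) 
(.lf (nat_lit 258135) (.g (nat_lit 752) (.e (nat_lit 164319) (nat_lit 228) (.e (nat_lit 57424) (nat_lit 14) (.e (nat_lit 352301) (nat_lit 20) .nil))) .nil))) (.nd (nat_lit 6) 
(.lf (nat_lit 258103) (.g (nat_lit 2402) (.e (nat_lit 164308) (nat_lit 226) (.e (nat_lit 1208) (nat_lit 89) (.e (nat_lit 73755) (nat_lit 8) (.e (nat_lit 557098) (nat_lit 13) (.e (nat_lit 172059) (nat_lit 1) .nil))))) .nil)) 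
(.lf (nat_lit 258167) (.g (nat_lit 1245) (.e (nat_lit 164321) (nat_lit 229) (.e (nat_lit 122919) (nat_lit 15) (.e (nat_lit 360484) (nat_lit 15) (.e (nat_lit 647190) (nat_lit 9) (.e (nat_lit 7936) (nat_lit 34) .nil))))) .nil))))) (.nd (nat_lit 4) (.nd (nat_lit 5) (.nd (nat_lit 6) 
(.lf (nat_lit 258063) (.g (nat_lit 948) (.e (nat_lit 164297) (nat_lit 226) (.e (nat_lit 1201) (nat_lit 88) (.e (nat_lit 65617) (nat_lit 10) (.e (nat_lit 344164) (nat_lit 37) .nil)))) .nil)) 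
(.lf (nat_lit 258127) (.g (nat_lit 4692) (.e (nat_lit 164319) (nat_lit 228) (.e (nat_lit 57412) (nat_lit 12) (.e (nat_lit 336061) (nat_lit 7) (.e (nat_lit 319531) (nat_lit 16) (.e (nat_lit 286762) (nat_lit 14) (.e (nat_lit 401434) (nat_lit 9) (.e (nat_lit 426109) (nat_lit 1) .nil))))))) (.g (nat_lit 7) .nil .nil)))) (.nd (nat_lit 6) 
(.lf (nat_lit 258095) (.g (nat_lit 625) (.e (nat_lit 164305) (nat_lit 226) (.e (nat_lit 2630) (nat_lit 164) (.e (nat_lit 172039) (nat_lit 0) .nil))) .nil)) 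
(.lf (nat_lit 258159) (.g (nat_lit 2011) (.e (nat_lit 164321) (nat_lit 229) (.e (nat_lit 122913) (nat_lit 13) (.e (nat_lit 344117) (nat_lit 21) (.e (nat_lit 516166) (nat_lit 12) (.e (nat_lit 458496) (nat_lit 3) .nil))))) .nil)))) (.nd (nat_lit 5) (.nd (nat_lit 6) 
(.lf (nat_lit 258079) (.g (nat_lit 1941) (.e (nat_lit 164304) (nat_lit 226) (.e (nat_lit 2612) (nat_lit 163) (.e (nat_lit 163977) (nat_lit 30) (.e (nat_lit 573489) (nat_lit 14) (.e (nat_lit 73754) (nat_lit 8) .nil))))) .nil)) 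
(.lf (nat_lit 258143) (.g (nat_lit 1248) (.e (nat_lit 164319) (nat_lit 228) (.e (nat_lit 57447) (nat_lit 19) (.e (nat_lit 393252) (nat_lit 18) .nil))) .nil))) (.nd (nat_lit 6) 
(.lf (nat_lit 258111) (.g (nat_lit 698) (.e (nat_lit 164319) (nat_lit 228) (.e (nat_lit 57373) (nat_lit 2) (.e (nat_lit 98048) (nat_lit 6) .nil))) .nil)) 
(.lf (nat_lit 258175) (.g (nat_lit 675) (.e (nat_lit 164322) (nat_lit 230) (.e (nat_lit 163875) (nat_lit 3) (.e (nat_lit 204811) (nat_lit 9) .nil))) .nil)))))))))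

noncomputable def tv3338 : DT := (.nd (nat_lit 0) (.nd (nat_lit 1) (.nd (nat_lit 2) (.nd (nat_lit 3) (.nd (nat_lit 4) (.nd (nat_lit 5) (.nd (nat_lit 6) 
(.lf (nat_lit 258176) (.g (nat_lit 864) (.e (nat_lit 164322) (nat_lit 230) (.e (nat_lit 163875) (nat_lit 3) (.e (nat_lit 204837) (nat_lit 20) .nil))) .nil)) 
(.lf (nat_lit 258240) (.g (nat_lit 2395) (.e (nat_lit 164324) (nat_lit 230) (.e (nat_lit 163886) (nat_lit 5) (.e (nat_lit 221207) (nat_lit 21) (.e (nat_lit 164325) (nat_lit 230) (.e (nat_lit 171776) (nat_lit 66) .nil))))) .nil))) (.nd (nat_lit 6) 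
(.lf (nat_lit 258208) (.g (nat_lit 1351) (.e (nat_lit 164323) (nat_lit 230) (.e (nat_lit 163884) (nat_lit 5) (.e (nat_lit 221194) (nat_lit 11) (.e (nat_lit 336086) (nat_lit 9) .nil)))) .nil)) 
(.lf (nat_lit 258272) (.g (nat_lit 2399) (.e (nat_lit 164325) (nat_lit 230) (.e (nat_lit 163871) (nat_lit 2) (.e (nat_lit 196656) (nat_lit 11) (.e (nat_lit 16388) (nat_lit 0) (.e (nat_lit 7309) (nat_lit 388) .nil))))) .nil)))) (.nd (nat_lit 5) (.nd (nat_lit 6) 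
(.lf (nat_lit 258192) (.g (nat_lit 1368) (.e (nat_lit 164322) (nat_lit 230) (.e (nat_lit 163885) (nat_lit 5) (.e (nat_lit 221194) (nat_lit 11) (.e (nat_lit 336221) (nat_lit 13) .nil)))) .nil)) 
(.lf (nat_lit 258256) (.g (nat_lit 1539) (.e (nat_lit 164325) (nat_lit 230) (.e (nat_lit 163867) (nat_lit 2) (.e (nat_lit 196656) (nat_lit 11) (.e (nat_lit 16431) (nat_lit 9) .nil)))) .nil))) (.nd (nat_lit 6) 
(.lf (nat_lit 258224) (.g (nat_lit 1886) (.e (nat_lit 164324) (nat_lit 230) (.e (nat_lit 163868) (nat_lit 2) (.e (nat_lit 196656) (nat_lit 11) (.e (nat_lit 16444) (nat_lit 9) (.e (nat_lit 433920) (nat_lit 34) (.e (nat_lit 393254) (nat_lit 18) .nil)))))) (.g (nat_lit 4) .nil .nil))) 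
(.lf (nat_lit 258288) (.g (nat_lit 2120) (.e (nat_lit 164325) (nat_lit 230) (.e (nat_lit 163886) (nat_lit 5) (.e (nat_lit 229120) (nat_lit 12) (.e (nat_lit 344133) (nat_lit 26) (.e (nat_lit 557103) (nat_lit 14) (.e (nat_lit 180263) (nat_lit 21) (.e (nat_lit 663579) (nat_lit 9) (.e (nat_lit 2599) (nat_lit 163) .nil)))))))) (.g (nat_lit 5) .nil .nil)))))) 
(.nd (nat_lit 4) (.nd (nat_lit 5) (.nd (nat_lit 6) 
(.lf (nat_lit 258184) (.g (nat_lit 1382) (.e (nat_lit 164322) (nat_lit 230) (.e (nat_lit 163884) (nat_lit 5) (.e (nat_lit 221194) (nat_lit 11) (.e (nat_lit 336221) (nat_lit 13) (.e (nat_lit 393266) (nat_lit 23) .nil))))) .nil)) 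
(.lf (nat_lit 258248) (.g (nat_lit 2060) (.e (nat_lit 164324) (nat_lit 230) (.e (nat_lit 163903) (nat_lit 12) (.e (nat_lit 426566) (nat_lit 34) (.e (nat_lit 393290) (nat_lit 26) .nil)))) .nil))) (.nd (nat_lit 6) 
(.lf (nat_lit 258216) (.g (nat_lit 2372) (.e (nat_lit 164324) (nat_lit 230) (.e (nat_lit 163867) (nat_lit 2) (.e (nat_lit 196656) (nat_lit 11) (.e (nat_lit 16388) (nat_lit 0) .nil)))) .nil)) 
(.lf (nat_lit 258280) (.g (nat_lit 2975) (.e (nat_lit 164325) (nat_lit 230) (.e (nat_lit 163875) (nat_lit 3) (.e (nat_lit 204830) (nat_lit 18) (.e (nat_lit 57927) (nat_lit 282) (.e (nat_lit 164084) (nat_lit 73) (.e (nat_lit 336012) (nat_lit 2) (.e (nat_lit 90185) (nat_lit 17) (.e (nat_lit 237584) (nat_lit 1) .nil)))))))) (.g (nat_lit 4) .nil .nil))))) (.nd (nat_lit 5) (.nd (nat_lit 6) 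
(.lf (nat_lit 258200) (.g (nat_lit 410) (.e (nat_lit 164322) (nat_lit 230) (.e (nat_lit 163902) (nat_lit 12) (.e (nat_lit 426568) (nat_lit 34) .nil))) .nil)) 
(.lf (nat_lit 258264) (.g (nat_lit 2978) (.e (nat_lit 164325) (nat_lit 230) (.e (nat_lit 163869) (nat_lit 2) (.e (nat_lit 196654) (nat_lit 11) (.e (nat_lit 16416) (nat_lit 3) (.e (nat_lit 204817) (nat_lit 17) .nil))))) .nil))) (.nd (nat_lit 6) 
(.lf (nat_lit 258232) (.g (nat_lit 1171) (.e (nat_lit 164324) (nat_lit 230) (.e (nat_lit 163884) (nat_lit 5) (.e (nat_lit 221194) (nat_lit 11) (.e (nat_lit 336085) (nat_lit 9) .nil)))) .nil)) 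
(.lf (nat_lit 258296) (.g (nat_lit 3398) (.e (nat_lit 164325) (nat_lit 230) (.e (nat_lit 163903) (nat_lit 12) (.e (nat_lit 426428) (nat_lit 17) (.e (nat_lit 90170) (nat_lit 13) (.e (nat_lit 172106) (nat_lit 10) (.e (nat_lit 434202) (nat_lit 18) (.e (nat_lit 6841) (nat_lit 369) (.e (nat_lit 163859) (nat_lit 1) .nil)))))))) (.g (nat_lit 5) .nil .nil))))))) 
(.nd (nat_lit 3) (.nd (nat_lit 4) (.nd (nat_lit 5) (.nd (nat_lit 6) 
(.lf (nat_lit 258180) (.g (nat_lit 293) (.e (nat_lit 164322) (nat_lit 230) (.e (nat_lit 163884) (nat_lit 5) (.e (nat_lit 221192) (nat_lit 11) .nil))) .nil)) 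
(.lf (nat_lit 258244) (.g (nat_lit 789) (.e (nat_lit 164324) (nat_lit 230) (.e (nat_lit 163902) (nat_lit 12) (.e (nat_lit 426568) (nat_lit 34) .nil))) .nil))) (.nd (nat_lit 6) 
(.lf (nat_lit 258212) (.g (nat_lit 2211) (.e (nat_lit 164323) (nat_lit 230) (.e (nat_lit 163885) (nat_lit 5) (.e (nat_lit 221194) (nat_lit 11) (.e (nat_lit 336213) (nat_lit 13) (.e (nat_lit 393281) (nat_lit 23) .nil))))) .nil)) 
(.lf (nat_lit 258276) (.g (nat_lit 3743) (.e (nat_lit 164325) (nat_lit 230) (.e (nat_lit 163873) (nat_lit 3) (.e (nat_lit 204813) (nat_lit 9) (.e (nat_lit 426107) (nat_lit 1) .nil)))) .nil)))) (.nd (nat_lit 5) (.nd (nat_lit 6) 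
(.lf (nat_lit 258196) (.g (nat_lit 2424) (.e (nat_lit 164322) (nat_lit 230) (.e (nat_lit 163885) (nat_lit 5) (.e (nat_lit 221208) (nat_lit 21) (.e (nat_lit 164330) (nat_lit 230) (.e (nat_lit 171776) (nat_lit 66) .nil))))) .nil)) 
(.lf (nat_lit 258260) (.g (nat_lit 1395) (.e (nat_lit 164325) (nat_lit 230) (.e (nat_lit 163868) (nat_lit 2) (.e (nat_lit 196656) (nat_lit 11) (.e (nat_lit 16392) (nat_lit 0) (.e (nat_lit 7936) (nat_lit 388) .nil))))) .nil))) (.nd (nat_lit 6) 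
(.lf (nat_lit 258228) (.g (nat_lit 1433) (.e (nat_lit 164324) (nat_lit 230) (.e (nat_lit 163884) (nat_lit 5) (.e (nat_lit 221190) (nat_lit 11) (.e (nat_lit 336223) (nat_lit 13) (.e (nat_lit 393281) (nat_lit 23) .nil))))) .nil)) 
(.lf (nat_lit 258292) (.g (nat_lit 2741) (.e (nat_lit 164325) (nat_lit 230) (.e (nat_lit 163902) (nat_lit 12) (.e (nat_lit 426566) (nat_lit 34) (.e (nat_lit 393270) (nat_lit 23) .nil)))) .nil))))) (.nd (nat_lit 4) (.nd (nat_lit 5) (.nd (nat_lit 6) 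
(.lf (nat_lit 258188) (.g (nat_lit 373) (.e (nat_lit 164322) (nat_lit 230) (.e (nat_lit 163885) (nat_lit 5) (.e (nat_lit 221193) (nat_lit 11) .nil))) .nil)) 
(.lf (nat_lit 258252) (.g (nat_lit 1922) (.e (nat_lit 164324) (nat_lit 230) (.e (nat_lit 163905) (nat_lit 12) (.e (nat_lit 426566) (nat_lit 34) (.e (nat_lit 393273) (nat_lit 23) .nil)))) .nil))) (.nd (nat_lit 6) 
(.lf (nat_lit 258220) (.g (nat_lit 3248) (.e (nat_lit 164324) (nat_lit 230) (.e (nat_lit 163868) (nat_lit 2) (.e (nat_lit 196656) (nat_lit 11) (.e (nat_lit 16436) (nat_lit 9) (.e (nat_lit 426566) (nat_lit 34) (.e (nat_lit 393254) (nat_lit 18) .nil)))))) (.g (nat_lit 0) .nil .nil))) 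
(.lf (nat_lit 258284) (.g (nat_lit 1251) (.e (nat_lit 164325) (nat_lit 230) (.e (nat_lit 163884) (nat_lit 5) (.e (nat_lit 221194) (nat_lit 11) (.e (nat_lit 336214) (nat_lit 13) .nil)))) .nil)))) (.nd (nat_lit 5) (.nd (nat_lit 6) 
(.lf (nat_lit 258204) (.g (nat_lit 4092) (.e (nat_lit 164322) (nat_lit 230) (.e (nat_lit 163941) (nat_lit 19) (.e (nat_lit 483341) (nat_lit 9) (.e (nat_lit 426213) (nat_lit 9) .nil)))) .nil)) 
(.lf (nat_lit 258268) (.g (nat_lit 560) (.e (nat_lit 164325) (nat_lit 230) (.e (nat_lit 163870) (nat_lit 2) (.e (nat_lit 196654) (nat_lit 11) .nil))) .nil))) (.nd (nat_lit 6) 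
(.lf (nat_lit 258236) (.g (nat_lit 531) (.e (nat_lit 164324) (nat_lit 230) (.e (nat_lit 163885) (nat_lit 5) (.e (nat_lit 221193) (nat_lit 11) .nil))) .nil)) 
(.lf (nat_lit 258300) (.g (nat_lit 3617) (.e (nat_lit 164325) (nat_lit 230) (.e (nat_lit 163903) (nat_lit 12) (.e (nat_lit 426428) (nat_lit 17) (.e (nat_lit 90170) (nat_lit 13) (.e (nat_lit 172113) (nat_lit 10) (.e (nat_lit 434203) (nat_lit 18) (.e (nat_lit 6839) (nat_lit 369) (.e (nat_lit 163859) (nat_lit 1) .nil)))))))) (.g (nat_lit 6) .nil .nil)))))))) 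
(.nd (nat_lit 2) (.nd (nat_lit 3) (.nd (nat_lit 4) (.nd (nat_lit 5) (.nd (nat_lit 6) 
(.lf (nat_lit 258178) (.g (nat_lit 1752) (.e (nat_lit 164322) (nat_lit 230) (.e (nat_lit 163875) (nat_lit 3) (.e (nat_lit 204837) (nat_lit 20) (.e (nat_lit 114718) (nat_lit 23) .nil)))) .nil)) 
(.lf (nat_lit 258242) (.g (nat_lit 3470) (.e (nat_lit 164324) (nat_lit 230) (.e (nat_lit 163902) (nat_lit 12) (.e (nat_lit 426566) (nat_lit 34) (.e (nat_lit 393292) (nat_lit 26) .nil)))) .nil))) (.nd (nat_lit 6) 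
(.lf (nat_lit 258210) (.g (nat_lit 608) (.e (nat_lit 164323) (nat_lit 230) (.e (nat_lit 163885) (nat_lit 5) (.e (nat_lit 221194) (nat_lit 11) .nil))) .nil)) 
(.lf (nat_lit 258274) (.g (nat_lit 2414) (.e (nat_lit 164325) (nat_lit 230) (.e (nat_lit 163871) (nat_lit 2) (.e (nat_lit 196656) (nat_lit 11) (.e (nat_lit 16436) (nat_lit 9) (.e (nat_lit 426481) (nat_lit 27) (.e (nat_lit 336388) (nat_lit 27) (.e (nat_lit 426098) (nat_lit 1) .nil))))))) (.g (nat_lit 4) .nil .nil))))) (.nd (nat_lit 5) (.nd (nat_lit 6) 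
(.lf (nat_lit 258194) (.g (nat_lit 353) (.e (nat_lit 164322) (nat_lit 230) (.e (nat_lit 163885) (nat_lit 5) (.e (nat_lit 229120) (nat_lit 11) .nil))) .nil)) 
(.lf (nat_lit 258258) (.g (nat_lit 2683) (.e (nat_lit 164325) (nat_lit 230) (.e (nat_lit 163867) (nat_lit 2) (.e (nat_lit 196656) (nat_lit 11) (.e (nat_lit 16438) (nat_lit 9) (.e (nat_lit 426568) (nat_lit 34) .nil))))) .nil))) (.nd (nat_lit 6) 
(.lf (nat_lit 258226) (.g (nat_lit 2340) (.e (nat_lit 164324) (nat_lit 230) (.e (nat_lit 163871) (nat_lit 2) (.e (nat_lit 196656) (nat_lit 11) (.e (nat_lit 16436) (nat_lit 9) (.e (nat_lit 426568) (nat_lit 34) .nil))))) .nil)) 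
(.lf (nat_lit 258290) (.g (nat_lit 1559) (.e (nat_lit 164325) (nat_lit 230) (.e (nat_lit 163901) (nat_lit 12) (.e (nat_lit 426566) (nat_lit 34) (.e (nat_lit 393273) (nat_lit 23) .nil)))) .nil))))) (.nd (nat_lit 4) (.nd (nat_lit 5) (.nd (nat_lit 6) 
(.lf (nat_lit 258186) (.g (nat_lit 1931) (.e (nat_lit 164322) (nat_lit 230) (.e (nat_lit 163884) (nat_lit 5) (.e (nat_lit 221194) (nat_lit 11) (.e (nat_lit 336223) (nat_lit 13) (.e (nat_lit 393281) (nat_lit 23) .nil))))) .nil)) 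
(.lf (nat_lit 258250) (.g (nat_lit 1236) (.e (nat_lit 164324) (nat_lit 230) (.e (nat_lit 163903) (nat_lit 12) (.e (nat_lit 426568) (nat_lit 34) (.e (nat_lit 393290) (nat_lit 26) .nil)))) .nil))) (.nd (nat_lit 6) 
(.lf (nat_lit 258218) (.g (nat_lit 662) (.e (nat_lit 164324) (nat_lit 230) (.e (nat_lit 163868) (nat_lit 2) (.e (nat_lit 196622) (nat_lit 9) .nil))) .nil)) 
(.lf (nat_lit 258282) (.g (nat_lit 2255) (.e (nat_lit 164325) (nat_lit 230) (.e (nat_lit 163875) (nat_lit 3) (.e (nat_lit 204838) (nat_lit 20) (.e (nat_lit 114714) (nat_lit 22) (.e (nat_lit 90169) (nat_lit 13) (.e (nat_lit 172133) (nat_lit 15) (.e (nat_lit 1800) (nat_lit 119) (.e (nat_lit 516119) (nat_lit 1) .nil)))))))) (.g (nat_lit 4) .nil .nil))))) (.nd (nat_lit 5) (.nd (nat_lit 6) 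
(.lf (nat_lit 258202) (.g (nat_lit 1336) (.e (nat_lit 164322) (nat_lit 230) (.e (nat_lit 163904) (nat_lit 12) (.e (nat_lit 426566) (nat_lit 34) (.e (nat_lit 393293) (nat_lit 26) .nil)))) .nil)) 
(.lf (nat_lit 258266) (.g (nat_lit 651) (.e (nat_lit 164325) (nat_lit 230) (.e (nat_lit 163870) (nat_lit 2) (.e (nat_lit 196652) (nat_lit 11) .nil))) .nil))) (.nd (nat_lit 6) 
(.lf (nat_lit 258234) (.g (nat_lit 1496) (.e (nat_lit 164324) (nat_lit 230) (.e (nat_lit 163884) (nat_lit 5) (.e (nat_lit 221194) (nat_lit 11) (.e (nat_lit 336220) (nat_lit 13) .nil)))) .nil)) 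
(.lf (nat_lit 258298) (.g (nat_lit 2123) (.e (nat_lit 164325) (nat_lit 230) (.e (nat_lit 163903) (nat_lit 12) (.e (nat_lit 426428) (nat_lit 17) (.e (nat_lit 90170) (nat_lit 13) (.e (nat_lit 172113) (nat_lit 10) (.e (nat_lit 434199) (nat_lit 18) (.e (nat_lit 6839) (nat_lit 369) (.e (nat_lit 163862) (nat_lit 1) .nil)))))))) (.g (nat_lit 5) .nil .nil))))))) 
(.nd (nat_lit 3) (.nd (nat_lit 4) (.nd (nat_lit 5) (.nd (nat_lit 6) 
(.lf (nat_lit 258182) (.g (nat_lit 1554) (.e (nat_lit 164322) (nat_lit 230) (.e (nat_lit 163884) (nat_lit 5) (.e (nat_lit 221194) (nat_lit 11) (.e (nat_lit 336074) (nat_lit 9) .nil)))) .nil)) 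
(.lf (nat_lit 258246) (.g (nat_lit 1749) (.e (nat_lit 164324) (nat_lit 230) (.e (nat_lit 163903) (nat_lit 12) (.e (nat_lit 426564) (nat_lit 34) (.e (nat_lit 393268) (nat_lit 23) (.e (nat_lit 426438) (nat_lit 18) .nil))))) .nil))) (.nd (nat_lit 6) 
(.lf (nat_lit 258214) (.g (nat_lit 2613) (.e (nat_lit 164323) (nat_lit 230) (.e (nat_lit 163902) (nat_lit 12) (.e (nat_lit 426566) (nat_lit 34) (.e (nat_lit 393294) (nat_lit 26) .nil)))) .nil)) 
(.lf (nat_lit 258278) (.g (nat_lit 1641) (.e (nat_lit 164325) (nat_lit 230) (.e (nat_lit 163874) (nat_lit 3) (.e (nat_lit 204837) (nat_lit 20) (.e (nat_lit 114718) (nat_lit 23) .nil)))) .nil)))) (.nd (nat_lit 5) (.nd (nat_lit 6) 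
(.lf (nat_lit 258198) (.g (nat_lit 451) (.e (nat_lit 164322) (nat_lit 230) (.e (nat_lit 163902) (nat_lit 12) (.e (nat_lit 426566) (nat_lit 34) .nil))) .nil)) 
(.lf (nat_lit 258262) (.g (nat_lit 1833) (.e (nat_lit 164325) (nat_lit 230) (.e (nat_lit 163868) (nat_lit 2) (.e (nat_lit 196656) (nat_lit 11) (.e (nat_lit 16444) (nat_lit 9) (.e (nat_lit 433920) (nat_lit 34) (.e (nat_lit 393254) (nat_lit 18) .nil)))))) (.g (nat_lit 4) .nil .nil)))) (.nd (nat_lit 6) 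
(.lf (nat_lit 258230) (.g (nat_lit 1656) (.e (nat_lit 164324) (nat_lit 230) (.e (nat_lit 163884) (nat_lit 5) (.e (nat_lit 221193) (nat_lit 11) (.e (nat_lit 336215) (nat_lit 13) (.e (nat_lit 401152) (nat_lit 23) .nil))))) .nil)) 
(.lf (nat_lit 258294) (.g (nat_lit 3622) (.e (nat_lit 164325) (nat_lit 230) (.e (nat_lit 163903) (nat_lit 12) (.e (nat_lit 426428) (nat_lit 17) (.e (nat_lit 90170) (nat_lit 13) (.e (nat_lit 172106) (nat_lit 10) (.e (nat_lit 434202) (nat_lit 18) (.e (nat_lit 6839) (nat_lit 369) (.e (nat_lit 163859) (nat_lit 1) .nil)))))))) (.g (nat_lit 6) .nil .nil)))))) 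
(.nd (nat_lit 4) (.nd (nat_lit 5) (.nd (nat_lit 6) 
(.lf (nat_lit 258190) (.g (nat_lit 1160) (.e (nat_lit 164322) (nat_lit 230) (.e (nat_lit 163885) (nat_lit 5) (.e (nat_lit 221194) (nat_lit 11) (.e (nat_lit 336215) (nat_lit 13) .nil)))) .nil)) 
(.lf (nat_lit 258254) (.g (nat_lit 3273) (.e (nat_lit 164325) (nat_lit 230) (.e (nat_lit 163851) (nat_lit 0) (.e (nat_lit 3307) (nat_lit 202) (.e (nat_lit 573489) (nat_lit 14) (.e (nat_lit 73755) (nat_lit 8) (.e (nat_lit 557097) (nat_lit 13) (.e (nat_lit 172133) (nat_lit 15) (.e (nat_lit 1800) (nat_lit 119) (.e (nat_lit 516119) (nat_lit 1) .nil))))))))) (.g (nat_lit 5) .nil .nil)))) 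
(.nd (nat_lit 6) 
(.lf (nat_lit 258222) (.g (nat_lit 1272) (.e (nat_lit 164324) (nat_lit 230) (.e (nat_lit 163868) (nat_lit 2) (.e (nat_lit 196656) (nat_lit 11) (.e (nat_lit 16442) (nat_lit 9) .nil)))) .nil)) 
(.lf (nat_lit 258286) (.g (nat_lit 2606) (.e (nat_lit 164325) (nat_lit 230) (.e (nat_lit 163885) (nat_lit 5) (.e (nat_lit 221193) (nat_lit 11) (.e (nat_lit 336076) (nat_lit 9) (.e (nat_lit 336443) (nat_lit 32) (.e (nat_lit 466971) (nat_lit 21) .nil)))))) (.g (nat_lit 4) .nil .nil))))) (.nd (nat_lit 5) (.nd (nat_lit 6) 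
(.lf (nat_lit 258206) (.g (nat_lit 1341) (.e (nat_lit 164323) (nat_lit 230) (.e (nat_lit 163871) (nat_lit 2) (.e (nat_lit 196654) (nat_lit 11) (.e (nat_lit 16436) (nat_lit 9) .nil)))) .nil)) 
(.lf (nat_lit 258270) (.g (nat_lit 2938) (.e (nat_lit 164325) (nat_lit 230) (.e (nat_lit 163871) (nat_lit 2) (.e (nat_lit 196654) (nat_lit 11) (.e (nat_lit 16416) (nat_lit 3) (.e (nat_lit 204817) (nat_lit 17) .nil))))) .nil))) (.nd (nat_lit 6) 
(.lf (nat_lit 258238) (.g (nat_lit 2365) (.e (nat_lit 164324) (nat_lit 230) (.e (nat_lit 163886) (nat_lit 5) (.e (nat_lit 221194) (nat_lit 11) (.e (nat_lit 336213) (nat_lit 13) (.e (nat_lit 393281) (nat_lit 23) (.e (nat_lit 426098) (nat_lit 1) .nil)))))) (.g (nat_lit 4) .nil .nil))) 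
(.lf (nat_lit 258302) (.g (nat_lit 2019) (.e (nat_lit 164325) (nat_lit 230) (.e (nat_lit 163903) (nat_lit 12) (.e (nat_lit 426428) (nat_lit 17) (.e (nat_lit 90170) (nat_lit 13) (.e (nat_lit 172113) (nat_lit 10) (.e (nat_lit 434203) (nat_lit 18) (.e (nat_lit 6846) (nat_lit 370) (.e (nat_lit 229385) (nat_lit 1) .nil)))))))) (.g (nat_lit 4) .nil .nil))))))))) 
(.nd (nat_lit 1) (.nd (nat_lit 2) (.nd (nat_lit 3) (.nd (nat_lit 4) (.nd (nat_lit 5) 
(.nd (nat_lit 6) 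
(.lf (nat_lit 258177) (.g (nat_lit 1797) (.e (nat_lit 164322) (nat_lit 230) (.e (nat_lit 163875) (nat_lit 3) (.e (nat_lit 204837) (nat_lit 20) (.e (nat_lit 114714) (nat_lit 22) .nil)))) .nil)) 
(.lf (nat_lit 258241) (.g (nat_lit 2271) (.e (nat_lit 164324) (nat_lit 230) (.e (nat_lit 163902) (nat_lit 12) (.e (nat_lit 426566) (nat_lit 34) (.e (nat_lit 393273) (nat_lit 23) .nil)))) .nil))) (.nd (nat_lit 6) 
(.lf (nat_lit 258209) (.g (nat_lit 546) (.e (nat_lit 164323) (nat_lit 230) (.e (nat_lit 163885) (nat_lit 5) (.e (nat_lit 221191) (nat_lit 11) .nil))) .nil)) 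
(.lf (nat_lit 258273) (.g (nat_lit 2200) (.e (nat_lit 164325) (nat_lit 230) (.e (nat_lit 163871) (nat_lit 2) (.e (nat_lit 196656) (nat_lit 11) (.e (nat_lit 16436) (nat_lit 9) (.e (nat_lit 426478) (nat_lit 27) (.e (nat_lit 336388) (nat_lit 27) (.e (nat_lit 426098) (nat_lit 1) .nil))))))) (.g (nat_lit 4) .nil .nil))))) (.nd (nat_lit 5) (.nd (nat_lit 6) 
(.lf (nat_lit 258193) (.g (nat_lit 1302) (.e (nat_lit 164322) (nat_lit 230) (.e (nat_lit 163885) (nat_lit 5) (.e (nat_lit 221194) (nat_lit 11) (.e (nat_lit 336222) (nat_lit 13) .nil)))) .nil)) 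
(.lf (nat_lit 258257) (.g (nat_lit 2671) (.e (nat_lit 164325) (nat_lit 230) (.e (nat_lit 163867) (nat_lit 2) (.e (nat_lit 196656) (nat_lit 11) (.e (nat_lit 16438) (nat_lit 9) (.e (nat_lit 426566) (nat_lit 34) .nil))))) .nil))) (.nd (nat_lit 6) 
(.lf (nat_lit 258225) (.g (nat_lit 2260) (.e (nat_lit 164324) (nat_lit 230) (.e (nat_lit 163871) (nat_lit 2) (.e (nat_lit 196656) (nat_lit 11) (.e (nat_lit 16388) (nat_lit 0) .nil)))) .nil)) 
(.lf (nat_lit 258289) (.g (nat_lit 3061) (.e (nat_lit 164325) (nat_lit 230) (.e (nat_lit 163886) (nat_lit 5) (.e (nat_lit 229120) (nat_lit 12) (.e (nat_lit 344133) (nat_lit 26) (.e (nat_lit 557105) (nat_lit 14) (.e (nat_lit 180265) (nat_lit 21) (.e (nat_lit 663579) (nat_lit 9) (.e (nat_lit 2599) (nat_lit 163) .nil)))))))) (.g (nat_lit 6) .nil .nil)))))) 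
(.nd (nat_lit 4) (.nd (nat_lit 5) (.nd (nat_lit 6) 
(.lf (nat_lit 258185) (.g (nat_lit 1370) (.e (nat_lit 164322) (nat_lit 230) (.e (nat_lit 163884) (nat_lit 5) (.e (nat_lit 221194) (nat_lit 11) (.e (nat_lit 336222) (nat_lit 13) (.e (nat_lit 393277) (nat_lit 23) .nil))))) .nil)) 
(.lf (nat_lit 258249) (.g (nat_lit 2078) (.e (nat_lit 164324) (nat_lit 230) (.e (nat_lit 163903) (nat_lit 12) (.e (nat_lit 426566) (nat_lit 34) (.e (nat_lit 393292) (nat_lit 26) .nil)))) .nil))) (.nd (nat_lit 6) 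
(.lf (nat_lit 258217) (.g (nat_lit 2006) (.e (nat_lit 164324) (nat_lit 230) (.e (nat_lit 163867) (nat_lit 2) (.e (nat_lit 196656) (nat_lit 11) (.e (nat_lit 16444) (nat_lit 9) (.e (nat_lit 426565) (nat_lit 34) .nil))))) .nil)) 
(.lf (nat_lit 258281) (.g (nat_lit 2502) (.e (nat_lit 164325) (nat_lit 230) (.e (nat_lit 163875) (nat_lit 3) (.e (nat_lit 204837) (nat_lit 20) (.e (nat_lit 114714) (nat_lit 22) (.e (nat_lit 90169) (nat_lit 13) (.e (nat_lit 172133) (nat_lit 15) (.e (nat_lit 1800) (nat_lit 119) (.e (nat_lit 516119) (nat_lit 1) .nil)))))))) (.g (nat_lit 4) .nil .nil))))) (.nd (nat_lit 5) (.nd (nat_lit 6) 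
(.lf (nat_lit 258201) (.g (nat_lit 1552) (.e (nat_lit 164322) (nat_lit 230) (.e (nat_lit 163904) (nat_lit 12) (.e (nat_lit 426566) (nat_lit 34) (.e (nat_lit 393292) (nat_lit 26) .nil)))) .nil)) 
(.lf (nat_lit 258265) (.g (nat_lit 2045) (.e (nat_lit 164325) (nat_lit 230) (.e (nat_lit 163869) (nat_lit 2) (.e (nat_lit 196656) (nat_lit 11) (.e (nat_lit 16388) (nat_lit 0) .nil)))) .nil))) (.nd (nat_lit 6) 
(.lf (nat_lit 258233) (.g (nat_lit 1315) (.e (nat_lit 164324) (nat_lit 230) (.e (nat_lit 163884) (nat_lit 5) (.e (nat_lit 221194) (nat_lit 11) (.e (nat_lit 336214) (nat_lit 13) .nil)))) .nil)) 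
(.lf (nat_lit 258297) (.g (nat_lit 3840) (.e (nat_lit 164325) (nat_lit 230) (.e (nat_lit 163903) (nat_lit 12) (.e (nat_lit 426428) (nat_lit 17) (.e (nat_lit 90170) (nat_lit 13) (.e (nat_lit 172106) (nat_lit 10) (.e (nat_lit 434202) (nat_lit 18) (.e (nat_lit 6841) (nat_lit 369) (.e (nat_lit 163862) (nat_lit 1) .nil)))))))) (.g (nat_lit 6) .nil .nil))))))) 
(.nd (nat_lit 3) (.nd (nat_lit 4) (.nd (nat_lit 5) (.nd (nat_lit 6) 
(.lf (nat_lit 258181) (.g (nat_lit 1040) (.e (nat_lit 164322) (nat_lit 230) (.e (nat_lit 163884) (nat_lit 5) (.e (nat_lit 221193) (nat_lit 11) (.e (nat_lit 336085) (nat_lit 9) .nil)))) .nil)) 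
(.lf (nat_lit 258245) (.g (nat_lit 580) (.e (nat_lit 164324) (nat_lit 230) (.e (nat_lit 163903) (nat_lit 12) (.e (nat_lit 426481) (nat_lit 27) .nil))) .nil))) (.nd (nat_lit 6) 
(.lf (nat_lit 258213) (.g (nat_lit 2045) (.e (nat_lit 164323) (nat_lit 230) (.e (nat_lit 163885) (nat_lit 5) (.e (nat_lit 221194) (nat_lit 11) (.e (nat_lit 336223) (nat_lit 13) (.e (nat_lit 393281) (nat_lit 23) .nil))))) .nil)) 
(.lf (nat_lit 258277) (.g (nat_lit 2998) (.e (nat_lit 164325) (nat_lit 230) (.e (nat_lit 163873) (nat_lit 3) (.e (nat_lit 204829) (nat_lit 18) (.e (nat_lit 57931) (nat_lit 282) (.e (nat_lit 164084) (nat_lit 73) .nil))))) .nil)))) (.nd (nat_lit 5) (.nd (nat_lit 6) 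
(.lf (nat_lit 258197) (.g (nat_lit 640) (.e (nat_lit 164322) (nat_lit 230) (.e (nat_lit 163886) (nat_lit 5) (.e (nat_lit 221193) (nat_lit 11) (.e (nat_lit 336086) (nat_lit 9) .nil)))) .nil)) 
(.lf (nat_lit 258261) (.g (nat_lit 2237) (.e (nat_lit 164325) (nat_lit 230) (.e (nat_lit 163868) (nat_lit 2) (.e (nat_lit 196656) (nat_lit 11) (.e (nat_lit 16436) (nat_lit 9) (.e (nat_lit 426481) (nat_lit 27) (.e (nat_lit 336388) (nat_lit 27) (.e (nat_lit 426098) (nat_lit 1) .nil))))))) (.g (nat_lit 4) .nil .nil)))) (.nd (nat_lit 6) 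
(.lf (nat_lit 258229) (.g (nat_lit 2444) (.e (nat_lit 164324) (nat_lit 230) (.e (nat_lit 163884) (nat_lit 5) (.e (nat_lit 221193) (nat_lit 11) (.e (nat_lit 336215) (nat_lit 13) (.e (nat_lit 393281) (nat_lit 23) (.e (nat_lit 426098) (nat_lit 1) .nil)))))) (.g (nat_lit 4) .nil .nil))) 
(.lf (nat_lit 258293) (.g (nat_lit 2172) (.e (nat_lit 164325) (nat_lit 230) (.e (nat_lit 163902) (nat_lit 12) (.e (nat_lit 426566) (nat_lit 34) (.e (nat_lit 393273) (nat_lit 23) .nil)))) .nil))))) (.nd (nat_lit 4) (.nd (nat_lit 5) (.nd (nat_lit 6) 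
(.lf (nat_lit 258189) (.g (nat_lit 578) (.e (nat_lit 164322) (nat_lit 230) (.e (nat_lit 163885) (nat_lit 5) (.e (nat_lit 221194) (nat_lit 11) .nil))) .nil)) 
(.lf (nat_lit 258253) (.g (nat_lit 1581) (.e (nat_lit 164324) (nat_lit 230) (.e (nat_lit 163905) (nat_lit 12) (.e (nat_lit 426566) (nat_lit 34) (.e (nat_lit 393292) (nat_lit 26) .nil)))) .nil))) (.nd (nat_lit 6) 
(.lf (nat_lit 258221) (.g (nat_lit 1647) (.e (nat_lit 164324) (nat_lit 230) (.e (nat_lit 163868) (nat_lit 2) (.e (nat_lit 196656) (nat_lit 11) (.e (nat_lit 16439) (nat_lit 9) .nil)))) .nil)) 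
(.lf (nat_lit 258285) (.g (nat_lit 2661) (.e (nat_lit 164325) (nat_lit 230) (.e (nat_lit 163885) (nat_lit 5) (.e (nat_lit 221193) (nat_lit 11) (.e (nat_lit 336076) (nat_lit 9) (.e (nat_lit 336443) (nat_lit 32) (.e (nat_lit 466969) (nat_lit 21) .nil)))))) (.g (nat_lit 4) .nil .nil))))) (.nd (nat_lit 5) (.nd (nat_lit 6) 
(.lf (nat_lit 258205) (.g (nat_lit 1648) (.e (nat_lit 164323) (nat_lit 230) (.e (nat_lit 163867) (nat_lit 2) (.e (nat_lit 196656) (nat_lit 11) (.e (nat_lit 16436) (nat_lit 9) .nil)))) .nil)) 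
(.lf (nat_lit 258269) (.g (nat_lit 1401) (.e (nat_lit 164325) (nat_lit 230) (.e (nat_lit 163870) (nat_lit 2) (.e (nat_lit 196654) (nat_lit 11) (.e (nat_lit 16435) (nat_lit 9) .nil)))) .nil))) (.nd (nat_lit 6) 
(.lf (nat_lit 258237) (.g (nat_lit 920) (.e (nat_lit 164324) (nat_lit 230) (.e (nat_lit 163885) (nat_lit 5) (.e (nat_lit 221194) (nat_lit 11) (.e (nat_lit 336222) (nat_lit 13) .nil)))) .nil)) 
(.lf (nat_lit 258301) (.g (nat_lit 3790) (.e (nat_lit 164325) (nat_lit 230) (.e (nat_lit 163903) (nat_lit 12) (.e (nat_lit 426428) (nat_lit 17) (.e (nat_lit 90170) (nat_lit 13) (.e (nat_lit 172113) (nat_lit 10) (.e (nat_lit 434203) (nat_lit 18) (.e (nat_lit 6839) (nat_lit 369) (.e (nat_lit 163862) (nat_lit 1) .nil)))))))) (.g (nat_lit 7) .nil .nil)))))))) 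
(.nd (nat_lit 2) (.nd (nat_lit 3) (.nd (nat_lit 4) (.nd (nat_lit 5) (.nd (nat_lit 6) 
(.lf (nat_lit 258179) (.g (nat_lit 1281) (.e (nat_lit 164322) (nat_lit 230) (.e (nat_lit 163878) (nat_lit 4) (.e (nat_lit 213032) (nat_lit 11) (.e (nat_lit 24629) (nat_lit 9) .nil)))) .nil)) 
(.lf (nat_lit 258243) (.g (nat_lit 2339) (.e (nat_lit 164324) (nat_lit 230) (.e (nat_lit 163902) (nat_lit 12) (.e (nat_lit 426566) (nat_lit 34) (.e (nat_lit 393295) (nat_lit 26) .nil)))) .nil))) (.nd (nat_lit 6) 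
(.lf (nat_lit 258211) (.g (nat_lit 1297) (.e (nat_lit 164323) (nat_lit 230) (.e (nat_lit 163885) (nat_lit 5) (.e (nat_lit 221194) (nat_lit 11) (.e (nat_lit 336086) (nat_lit 9) .nil)))) .nil)) 
(.lf (nat_lit 258275) (.g (nat_lit 1835) (.e (nat_lit 164325) (nat_lit 230) (.e (nat_lit 163871) (nat_lit 2) (.e (nat_lit 196656) (nat_lit 11) (.e (nat_lit 16444) (nat_lit 9) (.e (nat_lit 433920) (nat_lit 34) (.e (nat_lit 393254) (nat_lit 18) .nil)))))) (.g (nat_lit 4) .nil .nil))))) (.nd (nat_lit 5) (.nd (nat_lit 6) 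
(.lf (nat_lit 258195) (.g (nat_lit 2797) (.e (nat_lit 164322) (nat_lit 230) (.e (nat_lit 163885) (nat_lit 5) (.e (nat_lit 221207) (nat_lit 21) (.e (nat_lit 164325) (nat_lit 230) (.e (nat_lit 171776) (nat_lit 66) .nil))))) .nil)) 
(.lf (nat_lit 258259) (.g (nat_lit 3068) (.e (nat_lit 164325) (nat_lit 230) (.e (nat_lit 163868) (nat_lit 2) (.e (nat_lit 196654) (nat_lit 11) (.e (nat_lit 16416) (nat_lit 3) (.e (nat_lit 204817) (nat_lit 17) (.e (nat_lit 2198) (nat_lit 144) (.e (nat_lit 720945) (nat_lit 23) (.e (nat_lit 98333) (nat_lit 18) .nil)))))))) (.g (nat_lit 4) .nil .nil)))) (.nd (nat_lit 6) 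
(.lf (nat_lit 258227) (.g (nat_lit 3390) (.e (nat_lit 164324) (nat_lit 230) (.e (nat_lit 163873) (nat_lit 3) (.e (nat_lit 204813) (nat_lit 9) (.e (nat_lit 426186) (nat_lit 9) (.e (nat_lit 426568) (nat_lit 34) .nil))))) .nil)) 
(.lf (nat_lit 258291) (.g (nat_lit 2722) (.e (nat_lit 164325) (nat_lit 230) (.e (nat_lit 163901) (nat_lit 12) (.e (nat_lit 426566) (nat_lit 34) (.e (nat_lit 393273) (nat_lit 23) (.e (nat_lit 426364) (nat_lit 15) .nil))))) .nil))))) (.nd (nat_lit 4) (.nd (nat_lit 5) (.nd (nat_lit 6) 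
(.lf (nat_lit 258187) (.g (nat_lit 456) (.e (nat_lit 164322) (nat_lit 230) (.e (nat_lit 163885) (nat_lit 5) (.e (nat_lit 221191) (nat_lit 11) (.e (nat_lit 336209) (nat_lit 13) .nil)))) .nil)) 
(.lf (nat_lit 258251) (.g (nat_lit 1696) (.e (nat_lit 164324) (nat_lit 230) (.e (nat_lit 163903) (nat_lit 12) (.e (nat_lit 426568) (nat_lit 34) (.e (nat_lit 393295) (nat_lit 26) .nil)))) .nil))) (.nd (nat_lit 6) 
(.lf (nat_lit 258219) (.g (nat_lit 3738) (.e (nat_lit 164324) (nat_lit 230) (.e (nat_lit 163868) (nat_lit 2) (.e (nat_lit 196656) (nat_lit 11) (.e (nat_lit 16436) (nat_lit 9) (.e (nat_lit 426566) (nat_lit 34) (.e (nat_lit 393253) (nat_lit 18) .nil)))))) (.g (nat_lit 0) .nil .nil))) 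
(.lf (nat_lit 258283) (.g (nat_lit 1932) (.e (nat_lit 164325) (nat_lit 230) (.e (nat_lit 163884) (nat_lit 5) (.e (nat_lit 221194) (nat_lit 11) (.e (nat_lit 336212) (nat_lit 13) (.e (nat_lit 393281) (nat_lit 23) .nil))))) .nil)))) (.nd (nat_lit 5) (.nd (nat_lit 6) 
(.lf (nat_lit 258203) (.g (nat_lit 3482) (.e (nat_lit 164322) (nat_lit 230) (.e (nat_lit 163941) (nat_lit 19) (.e (nat_lit 483341) (nat_lit 9) (.e (nat_lit 426185) (nat_lit 9) .nil)))) .nil)) 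
(.lf (nat_lit 258267) (.g (nat_lit 1609) (.e (nat_lit 164325) (nat_lit 230) (.e (nat_lit 163870) (nat_lit 2) (.e (nat_lit 196652) (nat_lit 11) (.e (nat_lit 16435) (nat_lit 9) (.e (nat_lit 426566) (nat_lit 34) .nil))))) .nil))) (.nd (nat_lit 6) 
(.lf (nat_lit 258235) (.g (nat_lit 974) (.e (nat_lit 164324) (nat_lit 230) (.e (nat_lit 163884) (nat_lit 5) (.e (nat_lit 221194) (nat_lit 11) (.e (nat_lit 336222) (nat_lit 13) .nil)))) .nil)) 
(.lf (nat_lit 258299) (.g (nat_lit 2806) (.e (nat_lit 164325) (nat_lit 230) (.e (nat_lit 163903) (nat_lit 12) (.e (nat_lit 426428) (nat_lit 17) (.e (nat_lit 90170) (nat_lit 13) (.e (nat_lit 172113) (nat_lit 10) (.e (nat_lit 434199) (nat_lit 18) (.e (nat_lit 6839) (nat_lit 369) (.e (nat_lit 163863) (nat_lit 1) .nil)))))))) (.g (nat_lit 5) .nil .nil))))))) 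
(.nd (nat_lit 3) (.nd (nat_lit 4) (.nd (nat_lit 5) (.nd (nat_lit 6) 
(.lf (nat_lit 258183) (.g (nat_lit 2039) (.e (nat_lit 164322) (nat_lit 230) (.e (nat_lit 163884) (nat_lit 5) (.e (nat_lit 221194) (nat_lit 11) (.e (nat_lit 336213) (nat_lit 13) (.e (nat_lit 393281) (nat_lit 23) .nil))))) .nil)) 
(.lf (nat_lit 258247) (.g (nat_lit 2043) (.e (nat_lit 164324) (nat_lit 230) (.e (nat_lit 163903) (nat_lit 12) (.e (nat_lit 426566) (nat_lit 34) (.e (nat_lit 393273) (nat_lit 23) (.e (nat_lit 426364) (nat_lit 15) .nil))))) .nil))) (.nd (nat_lit 6) 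
(.lf (nat_lit 258215) (.g (nat_lit 2014) (.e (nat_lit 164324) (nat_lit 230) (.e (nat_lit 163867) (nat_lit 2) (.e (nat_lit 196624) (nat_lit 9) (.e (nat_lit 459) (nat_lit 34) (.e (nat_lit 450304) (nat_lit 18) .nil))))) .nil)) 
(.lf (nat_lit 258279) (.g (nat_lit 2983) (.e (nat_lit 164325) (nat_lit 230) (.e (nat_lit 163875) (nat_lit 3) (.e (nat_lit 204829) (nat_lit 18) (.e (nat_lit 57927) (nat_lit 282) (.e (nat_lit 164084) (nat_lit 73) (.e (nat_lit 336012) (nat_lit 2) (.e (nat_lit 90185) (nat_lit 17) (.e (nat_lit 237584) (nat_lit 1) .nil)))))))) (.g (nat_lit 4) .nil .nil))))) (.nd (nat_lit 5) (.nd (nat_lit 6) 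
(.lf (nat_lit 258199) (.g (nat_lit 3802) (.e (nat_lit 164322) (nat_lit 230) (.e (nat_lit 163902) (nat_lit 12) (.e (nat_lit 426566) (nat_lit 34) (.e (nat_lit 393267) (nat_lit 23) .nil)))) .nil)) 
(.lf (nat_lit 258263) (.g (nat_lit 1683) (.e (nat_lit 164325) (nat_lit 230) (.e (nat_lit 163868) (nat_lit 2) (.e (nat_lit 196691) (nat_lit 18) (.e (nat_lit 1349) (nat_lit 102) (.e (nat_lit 286748) (nat_lit 9) .nil))))) .nil))) (.nd (nat_lit 6) 
(.lf (nat_lit 258231) (.g (nat_lit 1498) (.e (nat_lit 164324) (nat_lit 230) (.e (nat_lit 163884) (nat_lit 5) (.e (nat_lit 221194) (nat_lit 11) (.e (nat_lit 336074) (nat_lit 9) .nil)))) .nil)) 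
(.lf (nat_lit 258295) (.g (nat_lit 3817) (.e (nat_lit 164325) (nat_lit 230) (.e (nat_lit 163903) (nat_lit 12) (.e (nat_lit 426428) (nat_lit 17) (.e (nat_lit 90170) (nat_lit 13) (.e (nat_lit 172106) (nat_lit 10) (.e (nat_lit 434202) (nat_lit 18) (.e (nat_lit 6839) (nat_lit 369) (.e (nat_lit 163862) (nat_lit 1) .nil)))))))) (.g (nat_lit 6) .nil .nil)))))) 
(.nd (nat_lit 4) (.nd (nat_lit 5) (.nd (nat_lit 6) 
(.lf (nat_lit 258191) (.g (nat_lit 1767) (.e (nat_lit 164322) (nat_lit 230) (.e (nat_lit 163885) (nat_lit 5) (.e (nat_lit 221194) (nat_lit 11) (.e (nat_lit 336220) (nat_lit 13) .nil)))) .nil)) 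
(.lf (nat_lit 258255) (.g (nat_lit 4215) (.e (nat_lit 164325) (nat_lit 230) (.e (nat_lit 163861) (nat_lit 1) (.e (nat_lit 164399) (nat_lit 256) (.e (nat_lit 57412) (nat_lit 12) (.e (nat_lit 336061) (nat_lit 7) (.e (nat_lit 319531) (nat_lit 16) (.e (nat_lit 286767) (nat_lit 27) (.e (nat_lit 426098) (nat_lit 1) .nil)))))))) (.g (nat_lit 6) .nil .nil)))) (.nd (nat_lit 6) 
(.lf (nat_lit 258223) (.g (nat_lit 2336) (.e (nat_lit 164324) (nat_lit 230) (.e (nat_lit 163868) (nat_lit 2) (.e (nat_lit 196656) (nat_lit 11) (.e (nat_lit 16444) (nat_lit 9) (.e (nat_lit 426565) (nat_lit 34) (.e (nat_lit 393254) (nat_lit 18) .nil)))))) (.g (nat_lit 0) .nil .nil))) 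
(.lf (nat_lit 258287) (.g (nat_lit 2924) (.e (nat_lit 164325) (nat_lit 230) (.e (nat_lit 163886) (nat_lit 5) (.e (nat_lit 221194) (nat_lit 11) (.e (nat_lit 336076) (nat_lit 9) (.e (nat_lit 336443) (nat_lit 32) (.e (nat_lit 466969) (nat_lit 21) .nil)))))) (.g (nat_lit 0) .nil .nil))))) (.nd (nat_lit 5) (.nd (nat_lit 6) 
(.lf (nat_lit 258207) (.g (nat_lit 1787) (.e (nat_lit 164323) (nat_lit 230) (.e (nat_lit 163871) (nat_lit 2) (.e (nat_lit 196656) (nat_lit 11) (.e (nat_lit 16432) (nat_lit 9) .nil)))) .nil)) 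
(.lf (nat_lit 258271) (.g (nat_lit 1901) (.e (nat_lit 164325) (nat_lit 230) (.e (nat_lit 163871) (nat_lit 2) (.e (nat_lit 196654) (nat_lit 11) (.e (nat_lit 16436) (nat_lit 9) (.e (nat_lit 426487) (nat_lit 27) .nil))))) .nil))) (.nd (nat_lit 6) 
(.lf (nat_lit 258239) (.g (nat_lit 1144) (.e (nat_lit 164324) (nat_lit 230) (.e (nat_lit 163886) (nat_lit 5) (.e (nat_lit 221194) (nat_lit 11) (.e (nat_lit 336215) (nat_lit 13) (.e (nat_lit 401152) (nat_lit 23) .nil))))) .nil)) 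
(.lf (nat_lit 258303) (.g (nat_lit 2654) (.e (nat_lit 164325) (nat_lit 230) (.e (nat_lit 163903) (nat_lit 12) (.e (nat_lit 426428) (nat_lit 17) (.e (nat_lit 90170) (nat_lit 13) (.e (nat_lit 172113) (nat_lit 10) (.e (nat_lit 434207) (nat_lit 18) (.e (nat_lit 6839) (nat_lit 369) (.e (nat_lit 163863) (nat_lit 1) .nil)))))))) (.g (nat_lit 5) .nil .nil))))))))))

noncomputable def tv3339 : DT := (.nd (nat_lit 0) (.nd (nat_lit 1) (.nd (nat_lit 2) (.nd (nat_lit 3) (.nd (nat_lit 4) (.nd (nat_lit 5) (.nd (nat_lit 6) 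
(.lf (nat_lit 258304) (.g (nat_lit 3634) (.e (nat_lit 164325) (nat_lit 230) (.e (nat_lit 163903) (nat_lit 12) (.e (nat_lit 426428) (nat_lit 17) (.e (nat_lit 90170) (nat_lit 13) (.e (nat_lit 172113) (nat_lit 10) (.e (nat_lit 434208) (nat_lit 18) (.e (nat_lit 6839) (nat_lit 369) (.e (nat_lit 163859) (nat_lit 1) .nil)))))))) (.g (nat_lit 6) .nil .nil))) 
(.lf (nat_lit 258368) (.g (nat_lit 1472) (.e (nat_lit 164326) (nat_lit 230) (.e (nat_lit 163871) (nat_lit 2) (.e (nat_lit 196690) (nat_lit 18) .nil))) .nil))) (.nd (nat_lit 6) 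
(.lf (nat_lit 258336) (.g (nat_lit 3297) (.e (nat_lit 164326) (nat_lit 230) (.e (nat_lit 163868) (nat_lit 2) (.e (nat_lit 196655) (nat_lit 11) (.e (nat_lit 16434) (nat_lit 9) (.e (nat_lit 426566) (nat_lit 34) (.e (nat_lit 393253) (nat_lit 18) .nil)))))) (.g (nat_lit 0) .nil .nil))) 
(.lf (nat_lit 258400) (.g (nat_lit 1933) (.e (nat_lit 164326) (nat_lit 230) (.e (nat_lit 163903) (nat_lit 12) (.e (nat_lit 426566) (nat_lit 34) (.e (nat_lit 393266) (nat_lit 23) .nil)))) .nil)))) (.nd (nat_lit 5) (.nd (nat_lit 6) 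
(.lf (nat_lit 258320) (.g (nat_lit 1906) (.e (nat_lit 164325) (nat_lit 230) (.e (nat_lit 163907) (nat_lit 12) (.e (nat_lit 426566) (nat_lit 34) (.e (nat_lit 393273) (nat_lit 23) (.e (nat_lit 426382) (nat_lit 15) .nil))))) .nil)) 
(.lf (nat_lit 258384) (.g (nat_lit 2351) (.e (nat_lit 164326) (nat_lit 230) (.e (nat_lit 163884) (nat_lit 5) (.e (nat_lit 229120) (nat_lit 12) (.e (nat_lit 344133) (nat_lit 26) (.e (nat_lit 557103) (nat_lit 14) (.e (nat_lit 180263) (nat_lit 21) (.e (nat_lit 663578) (nat_lit 9) (.e (nat_lit 2610) (nat_lit 163) .nil)))))))) (.g (nat_lit 5) .nil .nil)))) (.nd (nat_lit 6) 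
(.lf (nat_lit 258352) (.g (nat_lit 2528) (.e (nat_lit 164326) (nat_lit 230) (.e (nat_lit 163869) (nat_lit 2) (.e (nat_lit 196654) (nat_lit 11) (.e (nat_lit 16436) (nat_lit 9) (.e (nat_lit 426566) (nat_lit 34) (.e (nat_lit 393254) (nat_lit 18) .nil)))))) (.g (nat_lit 4) .nil .nil))) 
(.lf (nat_lit 258416) (.g (nat_lit 1677) (.e (nat_lit 164326) (nat_lit 230) (.e (nat_lit 163907) (nat_lit 12) (.e (nat_lit 426566) (nat_lit 34) (.e (nat_lit 393273) (nat_lit 23) (.e (nat_lit 426436) (nat_lit 18) .nil))))) .nil))))) (.nd (nat_lit 4) (.nd (nat_lit 5) (.nd (nat_lit 6) 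
(.lf (nat_lit 258312) (.g (nat_lit 2288) (.e (nat_lit 164325) (nat_lit 230) (.e (nat_lit 163906) (nat_lit 12) (.e (nat_lit 426566) (nat_lit 34) (.e (nat_lit 393273) (nat_lit 23) (.e (nat_lit 426434) (nat_lit 18) .nil))))) .nil)) 
(.lf (nat_lit 258376) (.g (nat_lit 1211) (.e (nat_lit 164326) (nat_lit 230) (.e (nat_lit 163884) (nat_lit 5) (.e (nat_lit 221193) (nat_lit 11) (.e (nat_lit 336222) (nat_lit 13) (.e (nat_lit 393277) (nat_lit 23) .nil))))) .nil))) (.nd (nat_lit 6) 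
(.lf (nat_lit 258344) (.g (nat_lit 2288) (.e (nat_lit 164326) (nat_lit 230) (.e (nat_lit 163868) (nat_lit 2) (.e (nat_lit 196656) (nat_lit 11) (.e (nat_lit 16439) (nat_lit 9) .nil)))) .nil)) 
(.lf (nat_lit 258408) (.g (nat_lit 870) (.e (nat_lit 164326) (nat_lit 230) (.e (nat_lit 163903) (nat_lit 12) (.e (nat_lit 426568) (nat_lit 34) (.e (nat_lit 393271) (nat_lit 23) .nil)))) .nil)))) (.nd (nat_lit 5) (.nd (nat_lit 6) 
(.lf (nat_lit 258328) (.g (nat_lit 3631) (.e (nat_lit 164325) (nat_lit 230) (.e (nat_lit 163941) (nat_lit 19) (.e (nat_lit 483341) (nat_lit 9) (.e (nat_lit 426107) (nat_lit 1) .nil)))) .nil)) 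
(.lf (nat_lit 258392) (.g (nat_lit 535) (.e (nat_lit 164326) (nat_lit 230) (.e (nat_lit 163902) (nat_lit 12) (.e (nat_lit 426566) (nat_lit 34) .nil))) .nil))) (.nd (nat_lit 6) 
(.lf (nat_lit 258360) (.g (nat_lit 3158) (.e (nat_lit 164326) (nat_lit 230) (.e (nat_lit 163871) (nat_lit 2) (.e (nat_lit 196655) (nat_lit 11) (.e (nat_lit 16434) (nat_lit 9) (.e (nat_lit 426566) (nat_lit 34) (.e (nat_lit 393253) (nat_lit 18) .nil)))))) (.g (nat_lit 0) .nil .nil))) 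
(.lf (nat_lit 258424) (.g (nat_lit 2039) (.e (nat_lit 164326) (nat_lit 230) (.e (nat_lit 163941) (nat_lit 19) (.e (nat_lit 483341) (nat_lit 9) (.e (nat_lit 426198) (nat_lit 9) (.e (nat_lit 426364) (nat_lit 15) .nil))))) .nil)))))) (.nd (nat_lit 3) (.nd (nat_lit 4) (.nd (nat_lit 5) (.nd (nat_lit 6) 
(.lf (nat_lit 258308) (.g (nat_lit 998) (.e (nat_lit 164325) (nat_lit 230) (.e (nat_lit 163903) (nat_lit 12) (.e (nat_lit 426484) (nat_lit 27) .nil))) .nil)) 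
(.lf (nat_lit 258372) (.g (nat_lit 4581) (.e (nat_lit 164326) (nat_lit 230) (.e (nat_lit 163871) (nat_lit 2) (.e (nat_lit 196691) (nat_lit 18) (.e (nat_lit 1359) (nat_lit 102) (.e (nat_lit 286749) (nat_lit 9) (.e (nat_lit 336013) (nat_lit 2) (.e (nat_lit 90170) (nat_lit 13) (.e (nat_lit 172059) (nat_lit 1) .nil)))))))) (.g (nat_lit 8) .nil .nil)))) (.nd (nat_lit 6) 
(.lf (nat_lit 258340) (.g (nat_lit 1460) (.e (nat_lit 164326) (nat_lit 230) (.e (nat_lit 163868) (nat_lit 2) (.e (nat_lit 196655) (nat_lit 11) (.e (nat_lit 16465) (nat_lit 13) (.e (nat_lit 491264) (nat_lit 9) (.e (nat_lit 426112) (nat_lit 1) .nil)))))) (.g (nat_lit 4) .nil .nil))) 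
(.lf (nat_lit 258404) (.g (nat_lit 1935) (.e (nat_lit 164326) (nat_lit 230) (.e (nat_lit 163903) (nat_lit 12) (.e (nat_lit 426566) (nat_lit 34) (.e (nat_lit 393292) (nat_lit 26) .nil)))) .nil)))) (.nd (nat_lit 5) (.nd (nat_lit 6) 
(.lf (nat_lit 258324) (.g (nat_lit 1713) (.e (nat_lit 164325) (nat_lit 230) (.e (nat_lit 163907) (nat_lit 12) (.e (nat_lit 426567) (nat_lit 34) (.e (nat_lit 393293) (nat_lit 26) (.e (nat_lit 475175) (nat_lit 24) .nil))))) .nil)) 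
(.lf (nat_lit 258388) (.g (nat_lit 2480) (.e (nat_lit 164326) (nat_lit 230) (.e (nat_lit 163886) (nat_lit 5) (.e (nat_lit 229120) (nat_lit 12) (.e (nat_lit 344129) (nat_lit 26) (.e (nat_lit 557104) (nat_lit 14) (.e (nat_lit 180264) (nat_lit 21) (.e (nat_lit 663578) (nat_lit 9) (.e (nat_lit 2610) (nat_lit 163) .nil)))))))) (.g (nat_lit 5) .nil .nil)))) (.nd (nat_lit 6) 
(.lf (nat_lit 258356) (.g (nat_lit 3033) (.e (nat_lit 164326) (nat_lit 230) (.e (nat_lit 163870) (nat_lit 2) (.e (nat_lit 196654) (nat_lit 11) (.e (nat_lit 16433) (nat_lit 9) (.e (nat_lit 426568) (nat_lit 34) (.e (nat_lit 393253) (nat_lit 18) .nil)))))) (.g (nat_lit 4) .nil .nil))) 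
(.lf (nat_lit 258420) (.g (nat_lit 2112) (.e (nat_lit 164326) (nat_lit 230) (.e (nat_lit 163941) (nat_lit 19) (.e (nat_lit 483341) (nat_lit 9) (.e (nat_lit 426198) (nat_lit 9) (.e (nat_lit 426359) (nat_lit 15) .nil))))) .nil))))) (.nd (nat_lit 4) (.nd (nat_lit 5) (.nd (nat_lit 6) 
(.lf (nat_lit 258316) (.g (nat_lit 3196) (.e (nat_lit 164325) (nat_lit 230) (.e (nat_lit 163907) (nat_lit 12) (.e (nat_lit 426428) (nat_lit 17) (.e (nat_lit 90170) (nat_lit 13) (.e (nat_lit 172113) (nat_lit 10) (.e (nat_lit 434208) (nat_lit 18) (.e (nat_lit 6839) (nat_lit 369) (.e (nat_lit 163863) (nat_lit 1) .nil)))))))) (.g (nat_lit 6) .nil .nil))) 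
(.lf (nat_lit 258380) (.g (nat_lit 1283) (.e (nat_lit 164326) (nat_lit 230) (.e (nat_lit 163884) (nat_lit 5) (.e (nat_lit 221194) (nat_lit 11) (.e (nat_lit 336222) (nat_lit 13) (.e (nat_lit 393274) (nat_lit 23) .nil))))) .nil))) (.nd (nat_lit 6) 
(.lf (nat_lit 258348) (.g (nat_lit 1529) (.e (nat_lit 164326) (nat_lit 230) (.e (nat_lit 163868) (nat_lit 2) (.e (nat_lit 196692) (nat_lit 18) .nil))) .nil)) 
(.lf (nat_lit 258412) (.g (nat_lit 938) (.e (nat_lit 164326) (nat_lit 230) (.e (nat_lit 163903) (nat_lit 12) (.e (nat_lit 426568) (nat_lit 34) (.e (nat_lit 393279) (nat_lit 23) .nil)))) .nil)))) (.nd (nat_lit 5) (.nd (nat_lit 6) 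
(.lf (nat_lit 258332) (.g (nat_lit 1539) (.e (nat_lit 164326) (nat_lit 230) (.e (nat_lit 163866) (nat_lit 2) (.e (nat_lit 196654) (nat_lit 11) (.e (nat_lit 16438) (nat_lit 9) (.e (nat_lit 426566) (nat_lit 34) .nil))))) .nil)) 
(.lf (nat_lit 258396) (.g (nat_lit 752) (.e (nat_lit 164326) (nat_lit 230) (.e (nat_lit 163903) (nat_lit 12) (.e (nat_lit 426436) (nat_lit 18) .nil))) .nil))) (.nd (nat_lit 6) 
(.lf (nat_lit 258364) (.g (nat_lit 1415) (.e (nat_lit 164326) (nat_lit 230) (.e (nat_lit 163871) (nat_lit 2) (.e (nat_lit 196655) (nat_lit 11) (.e (nat_lit 16465) (nat_lit 13) (.e (nat_lit 491264) (nat_lit 9) (.e (nat_lit 426112) (nat_lit 1) .nil)))))) (.g (nat_lit 4) .nil .nil))) 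
(.lf (nat_lit 258428) (.g (nat_lit 962) (.e (nat_lit 164327) (nat_lit 230) (.e (nat_lit 163868) (nat_lit 2) (.e (nat_lit 196628) (nat_lit 9) (.e (nat_lit 478) (nat_lit 37) .nil)))) .nil))))))) (.nd (nat_lit 2) (.nd (nat_lit 3) (.nd (nat_lit 4) (.nd (nat_lit 5) (.nd (nat_lit 6) 
(.lf (nat_lit 258306) (.g (nat_lit 2035) (.e (nat_lit 164325) (nat_lit 230) (.e (nat_lit 163903) (nat_lit 12) (.e (nat_lit 426428) (nat_lit 17) (.e (nat_lit 90170) (nat_lit 13) (.e (nat_lit 172113) (nat_lit 10) (.e (nat_lit 434208) (nat_lit 18) (.e (nat_lit 6841) (nat_lit 369) (.e (nat_lit 163859) (nat_lit 1) .nil)))))))) (.g (nat_lit 4) .nil .nil))) 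
(.lf (nat_lit 258370) (.g (nat_lit 5123) (.e (nat_lit 164326) (nat_lit 230) (.e (nat_lit 163871) (nat_lit 2) (.e (nat_lit 196691) (nat_lit 18) (.e (nat_lit 1349) (nat_lit 102) (.e (nat_lit 286749) (nat_lit 9) (.e (nat_lit 336013) (nat_lit 2) (.e (nat_lit 90170) (nat_lit 13) (.e (nat_lit 172061) (nat_lit 1) .nil)))))))) (.g (nat_lit 8) .nil .nil)))) (.nd (nat_lit 6) 
(.lf (nat_lit 258338) (.g (nat_lit 1811) (.e (nat_lit 164326) (nat_lit 230) (.e (nat_lit 163868) (nat_lit 2) (.e (nat_lit 196655) (nat_lit 11) (.e (nat_lit 16465) (nat_lit 13) (.e (nat_lit 483339) (nat_lit 9) (.e (nat_lit 433920) (nat_lit 1) .nil)))))) (.g (nat_lit 5) .nil .nil))) 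
(.lf (nat_lit 258402) (.g (nat_lit 1645) (.e (nat_lit 164326) (nat_lit 230) (.e (nat_lit 163903) (nat_lit 12) (.e (nat_lit 426566) (nat_lit 34) (.e (nat_lit 393272) (nat_lit 23) .nil)))) .nil)))) (.nd (nat_lit 5) (.nd (nat_lit 6) 
(.lf (nat_lit 258322) (.g (nat_lit 1650) (.e (nat_lit 164325) (nat_lit 230) (.e (nat_lit 163907) (nat_lit 12) (.e (nat_lit 426567) (nat_lit 34) (.e (nat_lit 393270) (nat_lit 23) (.e (nat_lit 426434) (nat_lit 18) .nil))))) .nil)) 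
(.lf (nat_lit 258386) (.g (nat_lit 2913) (.e (nat_lit 164326) (nat_lit 230) (.e (nat_lit 163886) (nat_lit 5) (.e (nat_lit 229120) (nat_lit 12) (.e (nat_lit 344129) (nat_lit 26) (.e (nat_lit 557103) (nat_lit 14) (.e (nat_lit 180263) (nat_lit 21) (.e (nat_lit 663578) (nat_lit 9) (.e (nat_lit 2610) (nat_lit 163) .nil)))))))) (.g (nat_lit 5) .nil .nil)))) (.nd (nat_lit 6) 
(.lf (nat_lit 258354) (.g (nat_lit 2145) (.e (nat_lit 164326) (nat_lit 230) (.e (nat_lit 163870) (nat_lit 2) (.e (nat_lit 196652) (nat_lit 11) (.e (nat_lit 16433) (nat_lit 9) (.e (nat_lit 426566) (nat_lit 34) (.e (nat_lit 393254) (nat_lit 18) .nil)))))) (.g (nat_lit 4) .nil .nil))) 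
(.lf (nat_lit 258418) (.g (nat_lit 2094) (.e (nat_lit 164326) (nat_lit 230) (.e (nat_lit 163941) (nat_lit 19) (.e (nat_lit 483341) (nat_lit 9) (.e (nat_lit 426198) (nat_lit 9) (.e (nat_lit 426355) (nat_lit 15) .nil))))) .nil))))) (.nd (nat_lit 4) (.nd (nat_lit 5) (.nd (nat_lit 6) 
(.lf (nat_lit 258314) (.g (nat_lit 3179) (.e (nat_lit 164325) (nat_lit 230) (.e (nat_lit 163907) (nat_lit 12) (.e (nat_lit 426428) (nat_lit 17) (.e (nat_lit 90170) (nat_lit 13) (.e (nat_lit 172113) (nat_lit 10) (.e (nat_lit 434203) (nat_lit 18) (.e (nat_lit 6839) (nat_lit 369) (.e (nat_lit 163863) (nat_lit 1) .nil)))))))) (.g (nat_lit 6) .nil .nil))) 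
(.lf (nat_lit 258378) (.g (nat_lit 1148) (.e (nat_lit 164326) (nat_lit 230) (.e (nat_lit 163884) (nat_lit 5) (.e (nat_lit 221194) (nat_lit 11) (.e (nat_lit 336087) (nat_lit 9) .nil)))) .nil))) (.nd (nat_lit 6) 
(.lf (nat_lit 258346) (.g (nat_lit 4650) (.e (nat_lit 164326) (nat_lit 230) (.e (nat_lit 163868) (nat_lit 2) (.e (nat_lit 196691) (nat_lit 18) (.e (nat_lit 1349) (nat_lit 102) (.e (nat_lit 286749) (nat_lit 9) (.e (nat_lit 336013) (nat_lit 2) (.e (nat_lit 90170) (nat_lit 13) (.e (nat_lit 172059) (nat_lit 1) .nil)))))))) (.g (nat_lit 7) .nil .nil))) 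
(.lf (nat_lit 258410) (.g (nat_lit 1064) (.e (nat_lit 164326) (nat_lit 230) (.e (nat_lit 163903) (nat_lit 12) (.e (nat_lit 426568) (nat_lit 34) (.e (nat_lit 393274) (nat_lit 23) .nil)))) .nil)))) (.nd (nat_lit 5) (.nd (nat_lit 6) 
(.lf (nat_lit 258330) (.g (nat_lit 2818) (.e (nat_lit 164325) (nat_lit 230) (.e (nat_lit 163944) (nat_lit 19) (.e (nat_lit 483363) (nat_lit 18) (.e (nat_lit 57688) (nat_lit 156) (.e (nat_lit 163860) (nat_lit 1) .nil))))) .nil)) 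
(.lf (nat_lit 258394) (.g (nat_lit 3784) (.e (nat_lit 164326) (nat_lit 230) (.e (nat_lit 163903) (nat_lit 12) (.e (nat_lit 426428) (nat_lit 17) (.e (nat_lit 90170) (nat_lit 13) (.e (nat_lit 172106) (nat_lit 10) (.e (nat_lit 434202) (nat_lit 18) (.e (nat_lit 6839) (nat_lit 369) (.e (nat_lit 163863) (nat_lit 1) .nil)))))))) (.g (nat_lit 5) .nil .nil)))) (.nd (nat_lit 6) 
(.lf (nat_lit 258362) (.g (nat_lit 1619) (.e (nat_lit 164326) (nat_lit 230) (.e (nat_lit 163871) (nat_lit 2) (.e (nat_lit 196655) (nat_lit 11) (.e (nat_lit 16465) (nat_lit 13) (.e (nat_lit 483339) (nat_lit 9) (.e (nat_lit 433920) (nat_lit 1) .nil)))))) (.g (nat_lit 5) .nil .nil))) 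
(.lf (nat_lit 258426) (.g (nat_lit 3546) (.e (nat_lit 164326) (nat_lit 230) (.e (nat_lit 163941) (nat_lit 19) (.e (nat_lit 483341) (nat_lit 9) (.e (nat_lit 426222) (nat_lit 9) .nil)))) .nil)))))) (.nd (nat_lit 3) (.nd (nat_lit 4) (.nd (nat_lit 5) (.nd (nat_lit 6) 
(.lf (nat_lit 258310) (.g (nat_lit 2137) (.e (nat_lit 164325) (nat_lit 230) (.e (nat_lit 163903) (nat_lit 12) (.e (nat_lit 426568) (nat_lit 34) (.e (nat_lit 393234) (nat_lit 17) (.e (nat_lit 7309) (nat_lit 388) .nil))))) .nil)) 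
(.lf (nat_lit 258374) (.g (nat_lit 660) (.e (nat_lit 164326) (nat_lit 230) (.e (nat_lit 163874) (nat_lit 3) (.e (nat_lit 212736) (nat_lit 14) .nil))) .nil))) (.nd (nat_lit 6) 
(.lf (nat_lit 258342) (.g (nat_lit 3067) (.e (nat_lit 164326) (nat_lit 230) (.e (nat_lit 163868) (nat_lit 2) (.e (nat_lit 196656) (nat_lit 11) (.e (nat_lit 16388) (nat_lit 0) (.e (nat_lit 7309) (nat_lit 388) .nil))))) .nil)) 
(.lf (nat_lit 258406) (.g (nat_lit 1343) (.e (nat_lit 164326) (nat_lit 230) (.e (nat_lit 163903) (nat_lit 12) (.e (nat_lit 426568) (nat_lit 34) (.e (nat_lit 393266) (nat_lit 23) (.e (nat_lit 433920) (nat_lit 18) .nil))))) .nil)))) (.nd (nat_lit 5) (.nd (nat_lit 6) 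
(.lf (nat_lit 258326) (.g (nat_lit 1522) (.e (nat_lit 164325) (nat_lit 230) (.e (nat_lit 163907) (nat_lit 12) (.e (nat_lit 426568) (nat_lit 34) (.e (nat_lit 393295) (nat_lit 26) .nil)))) .nil)) 
(.lf (nat_lit 258390) (.g (nat_lit 2648) (.e (nat_lit 164326) (nat_lit 230) (.e (nat_lit 163886) (nat_lit 5) (.e (nat_lit 229120) (nat_lit 12) (.e (nat_lit 344133) (nat_lit 26) (.e (nat_lit 557105) (nat_lit 14) (.e (nat_lit 180264) (nat_lit 21) (.e (nat_lit 663579) (nat_lit 9) (.e (nat_lit 2610) (nat_lit 163) .nil)))))))) (.g (nat_lit 5) .nil .nil)))) (.nd (nat_lit 6) 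
(.lf (nat_lit 258358) (.g (nat_lit 2843) (.e (nat_lit 164326) (nat_lit 230) (.e (nat_lit 163871) (nat_lit 2) (.e (nat_lit 196653) (nat_lit 11) (.e (nat_lit 16463) (nat_lit 13) (.e (nat_lit 483341) (nat_lit 9) (.e (nat_lit 426106) (nat_lit 1) .nil)))))) (.g (nat_lit 4) .nil .nil))) 
(.lf (nat_lit 258422) (.g (nat_lit 2189) (.e (nat_lit 164326) (nat_lit 230) (.e (nat_lit 163941) (nat_lit 19) (.e (nat_lit 483341) (nat_lit 9) (.e (nat_lit 426198) (nat_lit 9) (.e (nat_lit 426362) (nat_lit 15) .nil))))) .nil))))) (.nd (nat_lit 4) (.nd (nat_lit 5) (.nd (nat_lit 6) 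
(.lf (nat_lit 258318) (.g (nat_lit 802) (.e (nat_lit 164325) (nat_lit 230) (.e (nat_lit 163907) (nat_lit 12) (.e (nat_lit 426564) (nat_lit 34) .nil))) .nil)) 
(.lf (nat_lit 258382) (.g (nat_lit 369) (.e (nat_lit 164326) (nat_lit 230) (.e (nat_lit 163884) (nat_lit 5) (.e (nat_lit 229120) (nat_lit 12) .nil))) .nil))) (.nd (nat_lit 6) 
(.lf (nat_lit 258350) (.g (nat_lit 1529) (.e (nat_lit 164326) (nat_lit 230) (.e (nat_lit 163868) (nat_lit 2) (.e (nat_lit 196696) (nat_lit 18) .nil))) .nil)) 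
(.lf (nat_lit 258414) (.g (nat_lit 2366) (.e (nat_lit 164326) (nat_lit 230) (.e (nat_lit 163905) (nat_lit 12) (.e (nat_lit 426566) (nat_lit 34) (.e (nat_lit 393273) (nat_lit 23) .nil)))) .nil)))) (.nd (nat_lit 5) (.nd (nat_lit 6) 
(.lf (nat_lit 258334) (.g (nat_lit 1653) (.e (nat_lit 164326) (nat_lit 230) (.e (nat_lit 163867) (nat_lit 2) (.e (nat_lit 196656) (nat_lit 11) (.e (nat_lit 16436) (nat_lit 9) .nil)))) .nil)) 
(.lf (nat_lit 258398) (.g (nat_lit 3486) (.e (nat_lit 164326) (nat_lit 230) (.e (nat_lit 163903) (nat_lit 12) (.e (nat_lit 426479) (nat_lit 27) (.e (nat_lit 336428) (nat_lit 29) (.e (nat_lit 442374) (nat_lit 0) (.e (nat_lit 1800) (nat_lit 119) (.e (nat_lit 516119) (nat_lit 1) .nil))))))) (.g (nat_lit 0) .nil .nil)))) (.nd (nat_lit 6) 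
(.lf (nat_lit 258366) (.g (nat_lit 3111) (.e (nat_lit 164326) (nat_lit 230) (.e (nat_lit 163871) (nat_lit 2) (.e (nat_lit 196656) (nat_lit 11) (.e (nat_lit 16438) (nat_lit 9) (.e (nat_lit 426566) (nat_lit 34) (.e (nat_lit 393254) (nat_lit 18) .nil)))))) (.g (nat_lit 4) .nil .nil))) 
(.lf (nat_lit 258430) (.g (nat_lit 2523) (.e (nat_lit 164327) (nat_lit 230) (.e (nat_lit 163868) (nat_lit 2) (.e (nat_lit 196654) (nat_lit 11) (.e (nat_lit 16436) (nat_lit 9) (.e (nat_lit 426484) (nat_lit 27) (.e (nat_lit 336406) (nat_lit 27) (.e (nat_lit 426098) (nat_lit 1) .nil))))))) (.g (nat_lit 4) .nil .nil))))))))) 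
(.nd (nat_lit 1) (.nd (nat_lit 2) (.nd (nat_lit 3) (.nd (nat_lit 4) (.nd (nat_lit 5) 
(.nd (nat_lit 6) 
(.lf (nat_lit 258305) (.g (nat_lit 3829) (.e (nat_lit 164325) (nat_lit 230) (.e (nat_lit 163903) (nat_lit 12) (.e (nat_lit 426428) (nat_lit 17) (.e (nat_lit 90170) (nat_lit 13) (.e (nat_lit 172113) (nat_lit 10) (.e (nat_lit 434208) (nat_lit 18) (.e (nat_lit 6839) (nat_lit 369) (.e (nat_lit 163862) (nat_lit 1) .nil)))))))) (.g (nat_lit 7) .nil .nil))) 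
(.lf (nat_lit 258369) (.g (nat_lit 4696) (.e (nat_lit 164326) (nat_lit 230) (.e (nat_lit 163871) (nat_lit 2) (.e (nat_lit 196691) (nat_lit 18) (.e (nat_lit 1349) (nat_lit 102) (.e (nat_lit 286749) (nat_lit 9) (.e (nat_lit 336013) (nat_lit 2) (.e (nat_lit 90170) (nat_lit 13) (.e (nat_lit 172059) (nat_lit 1) .nil)))))))) (.g (nat_lit 8) .nil .nil)))) (.nd (nat_lit 6) 
(.lf (nat_lit 258337) (.g (nat_lit 3071) (.e (nat_lit 164326) (nat_lit 230) (.e (nat_lit 163868) (nat_lit 2) (.e (nat_lit 196655) (nat_lit 11) (.e (nat_lit 16435) (nat_lit 9) (.e (nat_lit 426566) (nat_lit 34) (.e (nat_lit 393254) (nat_lit 18) .nil)))))) (.g (nat_lit 6) .nil .nil))) 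
(.lf (nat_lit 258401) (.g (nat_lit 2121) (.e (nat_lit 164326) (nat_lit 230) (.e (nat_lit 163903) (nat_lit 12) (.e (nat_lit 426566) (nat_lit 34) (.e (nat_lit 393271) (nat_lit 23) (.e (nat_lit 426354) (nat_lit 15) .nil))))) .nil)))) (.nd (nat_lit 5) (.nd (nat_lit 6) 
(.lf (nat_lit 258321) (.g (nat_lit 675) (.e (nat_lit 164325) (nat_lit 230) (.e (nat_lit 163907) (nat_lit 12) (.e (nat_lit 426567) (nat_lit 34) .nil))) .nil)) 
(.lf (nat_lit 258385) (.g (nat_lit 369) (.e (nat_lit 164326) (nat_lit 230) (.e (nat_lit 163884) (nat_lit 5) (.e (nat_lit 229120) (nat_lit 16) .nil))) .nil))) (.nd (nat_lit 6) 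
(.lf (nat_lit 258353) (.g (nat_lit 1870) (.e (nat_lit 164326) (nat_lit 230) (.e (nat_lit 163869) (nat_lit 2) (.e (nat_lit 196654) (nat_lit 11) (.e (nat_lit 16438) (nat_lit 9) .nil)))) .nil)) 
(.lf (nat_lit 258417) (.g (nat_lit 2074) (.e (nat_lit 164326) (nat_lit 230) (.e (nat_lit 163941) (nat_lit 19) (.e (nat_lit 483341) (nat_lit 9) (.e (nat_lit 426198) (nat_lit 9) (.e (nat_lit 426350) (nat_lit 15) .nil))))) .nil))))) (.nd (nat_lit 4) (.nd (nat_lit 5) (.nd (nat_lit 6) 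
(.lf (nat_lit 258313) (.g (nat_lit 3117) (.e (nat_lit 164325) (nat_lit 230) (.e (nat_lit 163907) (nat_lit 12) (.e (nat_lit 426428) (nat_lit 17) (.e (nat_lit 90170) (nat_lit 13) (.e (nat_lit 172106) (nat_lit 10) (.e (nat_lit 434202) (nat_lit 18) (.e (nat_lit 6839) (nat_lit 369) (.e (nat_lit 163863) (nat_lit 1) .nil)))))))) (.g (nat_lit 5) .nil .nil))) 
(.lf (nat_lit 258377) (.g (nat_lit 1363) (.e (nat_lit 164326) (nat_lit 230) (.e (nat_lit 163884) (nat_lit 5) (.e (nat_lit 221194) (nat_lit 11) (.e (nat_lit 336074) (nat_lit 9) .nil)))) .nil))) (.nd (nat_lit 6) 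
(.lf (nat_lit 258345) (.g (nat_lit 2410) (.e (nat_lit 164326) (nat_lit 230) (.e (nat_lit 163868) (nat_lit 2) (.e (nat_lit 196656) (nat_lit 11) (.e (nat_lit 16446) (nat_lit 9) (.e (nat_lit 433920) (nat_lit 34) .nil))))) .nil)) 
(.lf (nat_lit 258409) (.g (nat_lit 2344) (.e (nat_lit 164326) (nat_lit 230) (.e (nat_lit 163903) (nat_lit 12) (.e (nat_lit 426568) (nat_lit 34) (.e (nat_lit 393271) (nat_lit 23) (.e (nat_lit 426382) (nat_lit 15) .nil))))) .nil)))) (.nd (nat_lit 5) (.nd (nat_lit 6) 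
(.lf (nat_lit 258329) (.g (nat_lit 2412) (.e (nat_lit 164325) (nat_lit 230) (.e (nat_lit 163943) (nat_lit 19) (.e (nat_lit 483341) (nat_lit 9) (.e (nat_lit 426198) (nat_lit 9) (.e (nat_lit 433920) (nat_lit 18) .nil))))) .nil)) 
(.lf (nat_lit 258393) (.g (nat_lit 2359) (.e (nat_lit 164326) (nat_lit 230) (.e (nat_lit 163902) (nat_lit 12) (.e (nat_lit 426566) (nat_lit 34) (.e (nat_lit 393273) (nat_lit 23) .nil)))) .nil))) (.nd (nat_lit 6) 
(.lf (nat_lit 258361) (.g (nat_lit 3009) (.e (nat_lit 164326) (nat_lit 230) (.e (nat_lit 163871) (nat_lit 2) (.e (nat_lit 196655) (nat_lit 11) (.e (nat_lit 16435) (nat_lit 9) (.e (nat_lit 426566) (nat_lit 34) (.e (nat_lit 393254) (nat_lit 18) .nil)))))) (.g (nat_lit 6) .nil .nil))) 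
(.lf (nat_lit 258425) (.g (nat_lit 3721) (.e (nat_lit 164326) (nat_lit 230) (.e (nat_lit 163941) (nat_lit 19) (.e (nat_lit 483341) (nat_lit 9) (.e (nat_lit 426220) (nat_lit 9) .nil)))) .nil)))))) (.nd (nat_lit 3) (.nd (nat_lit 4) (.nd (nat_lit 5) (.nd (nat_lit 6) 
(.lf (nat_lit 258309) (.g (nat_lit 2033) (.e (nat_lit 164325) (nat_lit 230) (.e (nat_lit 163903) (nat_lit 12) (.e (nat_lit 426566) (nat_lit 34) (.e (nat_lit 393269) (nat_lit 23) .nil)))) .nil)) 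
(.lf (nat_lit 258373) (.g (nat_lit 5008) (.e (nat_lit 164326) (nat_lit 230) (.e (nat_lit 163871) (nat_lit 2) (.e (nat_lit 196691) (nat_lit 18) (.e (nat_lit 1359) (nat_lit 102) (.e (nat_lit 286749) (nat_lit 9) (.e (nat_lit 336013) (nat_lit 2) (.e (nat_lit 90170) (nat_lit 13) (.e (nat_lit 172061) (nat_lit 1) .nil)))))))) (.g (nat_lit 8) .nil .nil)))) (.nd (nat_lit 6) 
(.lf (nat_lit 258341) (.g (nat_lit 3064) (.e (nat_lit 164326) (nat_lit 230) (.e (nat_lit 163868) (nat_lit 2) (.e (nat_lit 196656) (nat_lit 11) (.e (nat_lit 16388) (nat_lit 0) (.e (nat_lit 7303) (nat_lit 388) .nil))))) .nil)) 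
(.lf (nat_lit 258405) (.g (nat_lit 2302) (.e (nat_lit 164326) (nat_lit 230) (.e (nat_lit 163903) (nat_lit 12) (.e (nat_lit 426568) (nat_lit 34) (.e (nat_lit 393234) (nat_lit 17) (.e (nat_lit 7309) (nat_lit 388) .nil))))) .nil)))) (.nd (nat_lit 5) (.nd (nat_lit 6) 
(.lf (nat_lit 258325) (.g (nat_lit 1232) (.e (nat_lit 164325) (nat_lit 230) (.e (nat_lit 163907) (nat_lit 12) (.e (nat_lit 426568) (nat_lit 34) (.e (nat_lit 393275) (nat_lit 23) .nil)))) .nil)) 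
(.lf (nat_lit 258389) (.g (nat_lit 2544) (.e (nat_lit 164326) (nat_lit 230) (.e (nat_lit 163886) (nat_lit 5) (.e (nat_lit 229120) (nat_lit 12) (.e (nat_lit 344129) (nat_lit 26) (.e (nat_lit 557104) (nat_lit 14) (.e (nat_lit 180265) (nat_lit 21) (.e (nat_lit 663579) (nat_lit 9) (.e (nat_lit 2610) (nat_lit 163) .nil)))))))) (.g (nat_lit 5) .nil .nil)))) (.nd (nat_lit 6) 
(.lf (nat_lit 258357) (.g (nat_lit 3574) (.e (nat_lit 164326) (nat_lit 230) (.e (nat_lit 163870) (nat_lit 2) (.e (nat_lit 196654) (nat_lit 11) (.e (nat_lit 16463) (nat_lit 13) (.e (nat_lit 483341) (nat_lit 9) (.e (nat_lit 426106) (nat_lit 1) .nil)))))) (.g (nat_lit 5) .nil .nil))) 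
(.lf (nat_lit 258421) (.g (nat_lit 2010) (.e (nat_lit 164326) (nat_lit 230) (.e (nat_lit 163941) (nat_lit 19) (.e (nat_lit 483341) (nat_lit 9) (.e (nat_lit 426198) (nat_lit 9) (.e (nat_lit 426360) (nat_lit 15) .nil))))) .nil))))) (.nd (nat_lit 4) (.nd (nat_lit 5) (.nd (nat_lit 6) 
(.lf (nat_lit 258317) (.g (nat_lit 1710) (.e (nat_lit 164325) (nat_lit 230) (.e (nat_lit 163907) (nat_lit 12) (.e (nat_lit 426562) (nat_lit 33) (.e (nat_lit 385039) (nat_lit 18) .nil)))) .nil)) 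
(.lf (nat_lit 258381) (.g (nat_lit 1505) (.e (nat_lit 164326) (nat_lit 230) (.e (nat_lit 163884) (nat_lit 5) (.e (nat_lit 221194) (nat_lit 11) (.e (nat_lit 336222) (nat_lit 13) (.e (nat_lit 393277) (nat_lit 23) (.e (nat_lit 426103) (nat_lit 1) .nil)))))) (.g (nat_lit 4) .nil .nil)))) (.nd (nat_lit 6) 
(.lf (nat_lit 258349) (.g (nat_lit 1529) (.e (nat_lit 164326) (nat_lit 230) (.e (nat_lit 163868) (nat_lit 2) (.e (nat_lit 196695) (nat_lit 18) .nil))) .nil)) 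
(.lf (nat_lit 258413) (.g (nat_lit 1479) (.e (nat_lit 164326) (nat_lit 230) (.e (nat_lit 163903) (nat_lit 12) (.e (nat_lit 426568) (nat_lit 34) (.e (nat_lit 393281) (nat_lit 23) (.e (nat_lit 426410) (nat_lit 15) .nil))))) .nil)))) (.nd (nat_lit 5) (.nd (nat_lit 6) 
(.lf (nat_lit 258333) (.g (nat_lit 1640) (.e (nat_lit 164326) (nat_lit 230) (.e (nat_lit 163866) (nat_lit 2) (.e (nat_lit 196654) (nat_lit 11) (.e (nat_lit 16438) (nat_lit 9) (.e (nat_lit 426568) (nat_lit 34) .nil))))) .nil)) 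
(.lf (nat_lit 258397) (.g (nat_lit 1417) (.e (nat_lit 164326) (nat_lit 230) (.e (nat_lit 163903) (nat_lit 12) (.e (nat_lit 426479) (nat_lit 27) (.e (nat_lit 336414) (nat_lit 27) (.e (nat_lit 426230) (nat_lit 9) .nil))))) .nil))) (.nd (nat_lit 6) 
(.lf (nat_lit 258365) (.g (nat_lit 3407) (.e (nat_lit 164326) (nat_lit 230) (.e (nat_lit 163871) (nat_lit 2) (.e (nat_lit 196656) (nat_lit 11) (.e (nat_lit 16388) (nat_lit 0) (.e (nat_lit 7309) (nat_lit 388) .nil))))) .nil)) 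
(.lf (nat_lit 258429) (.g (nat_lit 3102) (.e (nat_lit 164327) (nat_lit 230) (.e (nat_lit 163868) (nat_lit 2) (.e (nat_lit 196654) (nat_lit 11) (.e (nat_lit 16416) (nat_lit 3) (.e (nat_lit 204817) (nat_lit 17) (.e (nat_lit 2198) (nat_lit 144) (.e (nat_lit 720945) (nat_lit 23) (.e (nat_lit 98335) (nat_lit 18) .nil)))))))) (.g (nat_lit 4) .nil .nil)))))))) 
(.nd (nat_lit 2) (.nd (nat_lit 3) (.nd (nat_lit 4) (.nd (nat_lit 5) (.nd (nat_lit 6) 
(.lf (nat_lit 258307) (.g (nat_lit 913) (.e (nat_lit 164325) (nat_lit 230) (.e (nat_lit 163903) (nat_lit 12) (.e (nat_lit 426462) (nat_lit 23) .nil))) .nil)) 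
(.lf (nat_lit 258371) (.g (nat_lit 4229) (.e (nat_lit 164326) (nat_lit 230) (.e (nat_lit 163871) (nat_lit 2) (.e (nat_lit 196691) (nat_lit 18) (.e (nat_lit 1358) (nat_lit 102) (.e (nat_lit 286753) (nat_lit 10) (.e (nat_lit 344117) (nat_lit 21) (.e (nat_lit 516151) (nat_lit 9) (.e (nat_lit 426097) (nat_lit 1) .nil)))))))) (.g (nat_lit 8) .nil .nil)))) (.nd (nat_lit 6) 
(.lf (nat_lit 258339) (.g (nat_lit 1117) (.e (nat_lit 164326) (nat_lit 230) (.e (nat_lit 163868) (nat_lit 2) (.e (nat_lit 196655) (nat_lit 11) (.e (nat_lit 16465) (nat_lit 13) (.e (nat_lit 491264) (nat_lit 9) .nil))))) .nil)) 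
(.lf (nat_lit 258403) (.g (nat_lit 2503) (.e (nat_lit 164326) (nat_lit 230) (.e (nat_lit 163903) (nat_lit 12) (.e (nat_lit 426566) (nat_lit 34) (.e (nat_lit 393273) (nat_lit 23) (.e (nat_lit 426354) (nat_lit 15) .nil))))) .nil)))) (.nd (nat_lit 5) (.nd (nat_lit 6) 
(.lf (nat_lit 258323) (.g (nat_lit 1851) (.e (nat_lit 164325) (nat_lit 230) (.e (nat_lit 163907) (nat_lit 12) (.e (nat_lit 426567) (nat_lit 34) (.e (nat_lit 393271) (nat_lit 23) (.e (nat_lit 426438) (nat_lit 18) .nil))))) .nil)) 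
(.lf (nat_lit 258387) (.g (nat_lit 2958) (.e (nat_lit 164326) (nat_lit 230) (.e (nat_lit 163886) (nat_lit 5) (.e (nat_lit 229120) (nat_lit 12) (.e (nat_lit 344129) (nat_lit 26) (.e (nat_lit 557103) (nat_lit 14) (.e (nat_lit 180263) (nat_lit 21) (.e (nat_lit 663579) (nat_lit 9) (.e (nat_lit 2610) (nat_lit 163) .nil)))))))) (.g (nat_lit 5) .nil .nil)))) (.nd (nat_lit 6) 
(.lf (nat_lit 258355) (.g (nat_lit 1964) (.e (nat_lit 164326) (nat_lit 230) (.e (nat_lit 163870) (nat_lit 2) (.e (nat_lit 196652) (nat_lit 11) (.e (nat_lit 16436) (nat_lit 9) (.e (nat_lit 426566) (nat_lit 34) (.e (nat_lit 393254) (nat_lit 18) .nil)))))) (.g (nat_lit 4) .nil .nil))) 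
(.lf (nat_lit 258419) (.g (nat_lit 2162) (.e (nat_lit 164326) (nat_lit 230) (.e (nat_lit 163941) (nat_lit 19) (.e (nat_lit 483341) (nat_lit 9) (.e (nat_lit 426198) (nat_lit 9) (.e (nat_lit 426357) (nat_lit 15) .nil))))) .nil))))) (.nd (nat_lit 4) (.nd (nat_lit 5) (.nd (nat_lit 6) 
(.lf (nat_lit 258315) (.g (nat_lit 2713) (.e (nat_lit 164325) (nat_lit 230) (.e (nat_lit 163907) (nat_lit 12) (.e (nat_lit 426428) (nat_lit 17) (.e (nat_lit 90170) (nat_lit 13) (.e (nat_lit 172113) (nat_lit 10) (.e (nat_lit 434208) (nat_lit 18) (.e (nat_lit 6839) (nat_lit 369) (.e (nat_lit 163862) (nat_lit 1) .nil)))))))) (.g (nat_lit 5) .nil .nil))) 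
(.lf (nat_lit 258379) (.g (nat_lit 2470) (.e (nat_lit 164326) (nat_lit 230) (.e (nat_lit 163884) (nat_lit 5) (.e (nat_lit 221194) (nat_lit 11) (.e (nat_lit 336222) (nat_lit 13) (.e (nat_lit 393266) (nat_lit 23) (.e (nat_lit 426109) (nat_lit 1) .nil)))))) (.g (nat_lit 0) .nil .nil)))) (.nd (nat_lit 6) 
(.lf (nat_lit 258347) (.g (nat_lit 4125) (.e (nat_lit 164326) (nat_lit 230) (.e (nat_lit 163868) (nat_lit 2) (.e (nat_lit 196691) (nat_lit 18) (.e (nat_lit 1358) (nat_lit 102) (.e (nat_lit 286753) (nat_lit 10) (.e (nat_lit 344117) (nat_lit 21) (.e (nat_lit 516151) (nat_lit 9) (.e (nat_lit 426097) (nat_lit 1) .nil)))))))) (.g (nat_lit 7) .nil .nil))) 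
(.lf (nat_lit 258411) (.g (nat_lit 1676) (.e (nat_lit 164326) (nat_lit 230) (.e (nat_lit 163903) (nat_lit 12) (.e (nat_lit 426568) (nat_lit 34) (.e (nat_lit 393274) (nat_lit 23) (.e (nat_lit 426396) (nat_lit 15) .nil))))) .nil)))) (.nd (nat_lit 5) (.nd (nat_lit 6) 
(.lf (nat_lit 258331) (.g (nat_lit 1157) (.e (nat_lit 164326) (nat_lit 230) (.e (nat_lit 163864) (nat_lit 1) (.e (nat_lit 164332) (nat_lit 230) (.e (nat_lit 163885) (nat_lit 5) (.e (nat_lit 221219) (nat_lit 24) .nil))))) .nil)) 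
(.lf (nat_lit 258395) (.g (nat_lit 2445) (.e (nat_lit 164326) (nat_lit 230) (.e (nat_lit 163903) (nat_lit 12) (.e (nat_lit 426428) (nat_lit 17) (.e (nat_lit 90170) (nat_lit 13) (.e (nat_lit 172113) (nat_lit 10) (.e (nat_lit 434200) (nat_lit 18) (.e (nat_lit 6839) (nat_lit 369) (.e (nat_lit 163863) (nat_lit 1) .nil)))))))) (.g (nat_lit 4) .nil .nil)))) (.nd (nat_lit 6) 
(.lf (nat_lit 258363) (.g (nat_lit 1040) (.e (nat_lit 164326) (nat_lit 230) (.e (nat_lit 163871) (nat_lit 2) (.e (nat_lit 196655) (nat_lit 11) (.e (nat_lit 16465) (nat_lit 13) (.e (nat_lit 491264) (nat_lit 9) .nil))))) .nil)) 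
(.lf (nat_lit 258427) (.g (nat_lit 776) (.e (nat_lit 164327) (nat_lit 230) (.e (nat_lit 163867) (nat_lit 2) (.e (nat_lit 196656) (nat_lit 11) .nil))) .nil)))))) (.nd (nat_lit 3) (.nd (nat_lit 4) (.nd (nat_lit 5) (.nd (nat_lit 6) 
(.lf (nat_lit 258311) (.g (nat_lit 729) (.e (nat_lit 164325) (nat_lit 230) (.e (nat_lit 163905) (nat_lit 12) (.e (nat_lit 426567) (nat_lit 34) .nil))) .nil)) 
(.lf (nat_lit 258375) (.g (nat_lit 818) (.e (nat_lit 164326) (nat_lit 230) (.e (nat_lit 163884) (nat_lit 5) (.e (nat_lit 221193) (nat_lit 11) (.e (nat_lit 336221) (nat_lit 13) .nil)))) .nil))) (.nd (nat_lit 6) 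
(.lf (nat_lit 258343) (.g (nat_lit 3064) (.e (nat_lit 164326) (nat_lit 230) (.e (nat_lit 163868) (nat_lit 2) (.e (nat_lit 196656) (nat_lit 11) (.e (nat_lit 16388) (nat_lit 0) (.e (nat_lit 7310) (nat_lit 388) .nil))))) .nil)) 
(.lf (nat_lit 258407) (.g (nat_lit 1037) (.e (nat_lit 164326) (nat_lit 230) (.e (nat_lit 163903) (nat_lit 12) (.e (nat_lit 426568) (nat_lit 34) (.e (nat_lit 393267) (nat_lit 23) .nil)))) .nil)))) (.nd (nat_lit 5) (.nd (nat_lit 6) 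
(.lf (nat_lit 258327) (.g (nat_lit 777) (.e (nat_lit 164325) (nat_lit 230) (.e (nat_lit 163907) (nat_lit 12) (.e (nat_lit 433920) (nat_lit 34) .nil))) .nil)) 
(.lf (nat_lit 258391) (.g (nat_lit 2386) (.e (nat_lit 164326) (nat_lit 230) (.e (nat_lit 163886) (nat_lit 5) (.e (nat_lit 221207) (nat_lit 21) (.e (nat_lit 164325) (nat_lit 230) (.e (nat_lit 171776) (nat_lit 66) .nil))))) .nil))) (.nd (nat_lit 6) 
(.lf (nat_lit 258359) (.g (nat_lit 2477) (.e (nat_lit 164326) (nat_lit 230) (.e (nat_lit 163871) (nat_lit 2) (.e (nat_lit 196655) (nat_lit 11) (.e (nat_lit 16433) (nat_lit 9) (.e (nat_lit 426566) (nat_lit 34) (.e (nat_lit 393254) (nat_lit 18) .nil)))))) (.g (nat_lit 6) .nil .nil))) 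
(.lf (nat_lit 258423) (.g (nat_lit 2155) (.e (nat_lit 164326) (nat_lit 230) (.e (nat_lit 163941) (nat_lit 19) (.e (nat_lit 483341) (nat_lit 9) (.e (nat_lit 426198) (nat_lit 9) (.e (nat_lit 426363) (nat_lit 15) .nil))))) .nil))))) (.nd (nat_lit 4) (.nd (nat_lit 5) (.nd (nat_lit 6) 
(.lf (nat_lit 258319) (.g (nat_lit 2793) (.e (nat_lit 164325) (nat_lit 230) (.e (nat_lit 163907) (nat_lit 12) (.e (nat_lit 426564) (nat_lit 34) (.e (nat_lit 393268) (nat_lit 23) (.e (nat_lit 426438) (nat_lit 18) (.e (nat_lit 98335) (nat_lit 18) .nil)))))) (.g (nat_lit 4) .nil .nil))) 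
(.lf (nat_lit 258383) (.g (nat_lit 2372) (.e (nat_lit 164326) (nat_lit 230) (.e (nat_lit 163884) (nat_lit 5) (.e (nat_lit 229120) (nat_lit 12) (.e (nat_lit 344117) (nat_lit 21) (.e (nat_lit 516130) (nat_lit 3) (.e (nat_lit 221218) (nat_lit 24) (.e (nat_lit 213019) (nat_lit 9) (.e (nat_lit 2610) (nat_lit 163) .nil)))))))) (.g (nat_lit 5) .nil .nil)))) (.nd (nat_lit 6) 
(.lf (nat_lit 258351) (.g (nat_lit 1054) (.e (nat_lit 164326) (nat_lit 230) (.e (nat_lit 163868) (nat_lit 2) (.e (nat_lit 204544) (nat_lit 19) .nil))) .nil)) 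
(.lf (nat_lit 258415) (.g (nat_lit 3140) (.e (nat_lit 164326) (nat_lit 230) (.e (nat_lit 163905) (nat_lit 12) (.e (nat_lit 426566) (nat_lit 34) (.e (nat_lit 393273) (nat_lit 23) (.e (nat_lit 426402) (nat_lit 15) .nil))))) .nil)))) (.nd (nat_lit 5) (.nd (nat_lit 6) 
(.lf (nat_lit 258335) (.g (nat_lit 2612) (.e (nat_lit 164326) (nat_lit 230) (.e (nat_lit 163868) (nat_lit 2) (.e (nat_lit 196655) (nat_lit 11) (.e (nat_lit 16433) (nat_lit 9) (.e (nat_lit 426566) (nat_lit 34) (.e (nat_lit 393254) (nat_lit 18) .nil)))))) (.g (nat_lit 6) .nil .nil))) 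
(.lf (nat_lit 258399) (.g (nat_lit 3095) (.e (nat_lit 164326) (nat_lit 230) (.e (nat_lit 163903) (nat_lit 12) (.e (nat_lit 426479) (nat_lit 27) (.e (nat_lit 336430) (nat_lit 29) (.e (nat_lit 442379) (nat_lit 0) (.e (nat_lit 1800) (nat_lit 119) (.e (nat_lit 516119) (nat_lit 1) .nil))))))) (.g (nat_lit 0) .nil .nil)))) (.nd (nat_lit 6) 
(.lf (nat_lit 258367) (.g (nat_lit 1547) (.e (nat_lit 164326) (nat_lit 230) (.e (nat_lit 163871) (nat_lit 2) (.e (nat_lit 196677) (nat_lit 16) .nil))) .nil)) 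
(.lf (nat_lit 258431) (.g (nat_lit 2476) (.e (nat_lit 164327) (nat_lit 230) (.e (nat_lit 163868) (nat_lit 2) (.e (nat_lit 196654) (nat_lit 11) (.e (nat_lit 16436) (nat_lit 9) (.e (nat_lit 426487) (nat_lit 27) (.e (nat_lit 336409) (nat_lit 27) (.e (nat_lit 426098) (nat_lit 1) .nil))))))) (.g (nat_lit 4) .nil .nil))))))))))

noncomputable def tv3340 : DT := (.nd (nat_lit 0) (.nd (nat_lit 1) (.nd (nat_lit 2) (.nd (nat_lit 3) (.nd (nat_lit 4) (.nd (nat_lit 5) (.nd (nat_lit 6) 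
(.lf (nat_lit 258432) (.g (nat_lit 2355) (.e (nat_lit 164327) (nat_lit 230) (.e (nat_lit 163868) (nat_lit 2) (.e (nat_lit 196654) (nat_lit 11) (.e (nat_lit 16436) (nat_lit 9) (.e (nat_lit 426568) (nat_lit 34) (.e (nat_lit 393250) (nat_lit 18) .nil)))))) (.g (nat_lit 4) .nil .nil))) 
(.lf (nat_lit 258496) (.g (nat_lit 2035) (.e (nat_lit 164327) (nat_lit 230) (.e (nat_lit 163886) (nat_lit 5) (.e (nat_lit 221206) (nat_lit 21) (.e (nat_lit 164330) (nat_lit 230) (.e (nat_lit 171776) (nat_lit 66) .nil))))) .nil))) (.nd (nat_lit 6) 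
(.lf (nat_lit 258464) (.g (nat_lit 2484) (.e (nat_lit 164327) (nat_lit 230) (.e (nat_lit 163875) (nat_lit 3) (.e (nat_lit 204829) (nat_lit 18) (.e (nat_lit 57927) (nat_lit 282) (.e (nat_lit 164084) (nat_lit 73) .nil))))) .nil)) 
(.lf (nat_lit 258528) (.g (nat_lit 454) (.e (nat_lit 164329) (nat_lit 230) (.e (nat_lit 163850) (nat_lit 0) (.e (nat_lit 3613) (nat_lit 226) .nil))) .nil)))) (.nd (nat_lit 5) (.nd (nat_lit 6) 
(.lf (nat_lit 258448) (.g (nat_lit 3441) (.e (nat_lit 164327) (nat_lit 230) (.e (nat_lit 163871) (nat_lit 2) (.e (nat_lit 196654) (nat_lit 11) (.e (nat_lit 16436) (nat_lit 9) (.e (nat_lit 426568) (nat_lit 34) (.e (nat_lit 393251) (nat_lit 18) .nil)))))) (.g (nat_lit 0) .nil .nil))) 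
(.lf (nat_lit 258512) (.g (nat_lit 2350) (.e (nat_lit 164327) (nat_lit 230) (.e (nat_lit 163903) (nat_lit 12) (.e (nat_lit 426568) (nat_lit 34) (.e (nat_lit 393271) (nat_lit 23) (.e (nat_lit 433920) (nat_lit 18) .nil))))) .nil))) (.nd (nat_lit 6) 
(.lf (nat_lit 258480) (.g (nat_lit 2923) (.e (nat_lit 164327) (nat_lit 230) (.e (nat_lit 163879) (nat_lit 4) (.e (nat_lit 213030) (nat_lit 11) (.e (nat_lit 24626) (nat_lit 9) (.e (nat_lit 336443) (nat_lit 32) (.e (nat_lit 466971) (nat_lit 21) .nil)))))) (.g (nat_lit 5) .nil .nil))) 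
(.lf (nat_lit 258544) (.g (nat_lit 4475) (.e (nat_lit 164329) (nat_lit 230) (.e (nat_lit 163873) (nat_lit 3) (.e (nat_lit 204813) (nat_lit 9) (.e (nat_lit 426124) (nat_lit 2) .nil)))) .nil))))) (.nd (nat_lit 4) (.nd (nat_lit 5) (.nd (nat_lit 6) 
(.lf (nat_lit 258440) (.g (nat_lit 1905) (.e (nat_lit 164327) (nat_lit 230) (.e (nat_lit 163869) (nat_lit 2) (.e (nat_lit 196656) (nat_lit 11) (.e (nat_lit 16438) (nat_lit 9) .nil)))) .nil)) 
(.lf (nat_lit 258504) (.g (nat_lit 611) (.e (nat_lit 164327) (nat_lit 230) (.e (nat_lit 163903) (nat_lit 12) (.e (nat_lit 426564) (nat_lit 34) .nil))) .nil))) (.nd (nat_lit 6) 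
(.lf (nat_lit 258472) (.g (nat_lit 1916) (.e (nat_lit 164327) (nat_lit 230) (.e (nat_lit 163875) (nat_lit 3) (.e (nat_lit 204830) (nat_lit 18) (.e (nat_lit 57929) (nat_lit 282) .nil)))) .nil)) 
(.lf (nat_lit 258536) (.g (nat_lit 2631) (.e (nat_lit 164329) (nat_lit 230) (.e (nat_lit 163867) (nat_lit 2) (.e (nat_lit 196656) (nat_lit 11) (.e (nat_lit 16416) (nat_lit 3) (.e (nat_lit 204833) (nat_lit 19) .nil))))) .nil)))) (.nd (nat_lit 5) (.nd (nat_lit 6) 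
(.lf (nat_lit 258456) (.g (nat_lit 2595) (.e (nat_lit 164327) (nat_lit 230) (.e (nat_lit 163871) (nat_lit 2) (.e (nat_lit 196691) (nat_lit 18) (.e (nat_lit 1349) (nat_lit 102) (.e (nat_lit 286749) (nat_lit 9) (.e (nat_lit 336028) (nat_lit 3) (.e (nat_lit 98359) (nat_lit 26) (.e (nat_lit 426097) (nat_lit 1) .nil)))))))) (.g (nat_lit 5) .nil .nil))) 
(.lf (nat_lit 258520) (.g (nat_lit 2740) (.e (nat_lit 164328) (nat_lit 230) (.e (nat_lit 163902) (nat_lit 12) (.e (nat_lit 426566) (nat_lit 34) (.e (nat_lit 393270) (nat_lit 23) .nil)))) .nil))) (.nd (nat_lit 6) 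
(.lf (nat_lit 258488) (.g (nat_lit 2464) (.e (nat_lit 164327) (nat_lit 230) (.e (nat_lit 163884) (nat_lit 5) (.e (nat_lit 221207) (nat_lit 21) (.e (nat_lit 164325) (nat_lit 230) (.e (nat_lit 171776) (nat_lit 66) .nil))))) .nil)) 
(.lf (nat_lit 258552) (.g (nat_lit 360) (.e (nat_lit 164329) (nat_lit 230) (.e (nat_lit 163884) (nat_lit 5) (.e (nat_lit 229120) (nat_lit 12) .nil))) .nil)))))) (.nd (nat_lit 3) (.nd (nat_lit 4) (.nd (nat_lit 5) (.nd (nat_lit 6) 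
(.lf (nat_lit 258436) (.g (nat_lit 574) (.e (nat_lit 164327) (nat_lit 230) (.e (nat_lit 163868) (nat_lit 2) (.e (nat_lit 196691) (nat_lit 18) .nil))) .nil)) 
(.lf (nat_lit 258500) (.g (nat_lit 2588) (.e (nat_lit 164327) (nat_lit 230) (.e (nat_lit 163886) (nat_lit 5) (.e (nat_lit 221208) (nat_lit 21) (.e (nat_lit 164330) (nat_lit 230) (.e (nat_lit 171776) (nat_lit 66) (.e (nat_lit 114719) (nat_lit 23) (.e (nat_lit 98365) (nat_lit 26) (.e (nat_lit 426098) (nat_lit 1) .nil)))))))) (.g (nat_lit 4) .nil .nil)))) (.nd (nat_lit 6) 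
(.lf (nat_lit 258468) (.g (nat_lit 3907) (.e (nat_lit 164327) (nat_lit 230) (.e (nat_lit 163875) (nat_lit 3) (.e (nat_lit 204829) (nat_lit 18) (.e (nat_lit 57931) (nat_lit 282) (.e (nat_lit 164084) (nat_lit 73) (.e (nat_lit 336012) (nat_lit 2) (.e (nat_lit 90185) (nat_lit 17) (.e (nat_lit 237584) (nat_lit 1) .nil)))))))) (.g (nat_lit 4) .nil .nil))) 
(.lf (nat_lit 258532) (.g (nat_lit 3218) (.e (nat_lit 164329) (nat_lit 230) (.e (nat_lit 163867) (nat_lit 2) (.e (nat_lit 196654) (nat_lit 11) (.e (nat_lit 16438) (nat_lit 9) (.e (nat_lit 426568) (nat_lit 34) (.e (nat_lit 393253) (nat_lit 18) .nil)))))) (.g (nat_lit 5) .nil .nil))))) (.nd (nat_lit 5) (.nd (nat_lit 6) 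
(.lf (nat_lit 258452) (.g (nat_lit 2945) (.e (nat_lit 164327) (nat_lit 230) (.e (nat_lit 163871) (nat_lit 2) (.e (nat_lit 196656) (nat_lit 11) (.e (nat_lit 16388) (nat_lit 0) (.e (nat_lit 7310) (nat_lit 388) .nil))))) .nil)) 
(.lf (nat_lit 258516) (.g (nat_lit 792) (.e (nat_lit 164327) (nat_lit 230) (.e (nat_lit 163907) (nat_lit 12) (.e (nat_lit 426567) (nat_lit 34) .nil))) .nil))) (.nd (nat_lit 6) 
(.lf (nat_lit 258484) (.g (nat_lit 1342) (.e (nat_lit 164327) (nat_lit 230) (.e (nat_lit 163884) (nat_lit 5) (.e (nat_lit 221194) (nat_lit 11) (.e (nat_lit 336214) (nat_lit 13) .nil)))) .nil)) 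
(.lf (nat_lit 258548) (.g (nat_lit 1099) (.e (nat_lit 164329) (nat_lit 230) (.e (nat_lit 163884) (nat_lit 5) (.e (nat_lit 221194) (nat_lit 11) (.e (nat_lit 336085) (nat_lit 9) .nil)))) .nil))))) (.nd (nat_lit 4) (.nd (nat_lit 5) (.nd (nat_lit 6) 
(.lf (nat_lit 258444) (.g (nat_lit 2429) (.e (nat_lit 164327) (nat_lit 230) (.e (nat_lit 163871) (nat_lit 2) (.e (nat_lit 196654) (nat_lit 11) (.e (nat_lit 16436) (nat_lit 9) (.e (nat_lit 426480) (nat_lit 27) (.e (nat_lit 336385) (nat_lit 27) (.e (nat_lit 426098) (nat_lit 1) .nil))))))) (.g (nat_lit 4) .nil .nil))) 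
(.lf (nat_lit 258508) (.g (nat_lit 1016) (.e (nat_lit 164327) (nat_lit 230) (.e (nat_lit 163903) (nat_lit 12) (.e (nat_lit 426566) (nat_lit 34) (.e (nat_lit 393273) (nat_lit 23) .nil)))) .nil))) (.nd (nat_lit 6) 
(.lf (nat_lit 258476) (.g (nat_lit 3423) (.e (nat_lit 164327) (nat_lit 230) (.e (nat_lit 163875) (nat_lit 3) (.e (nat_lit 204830) (nat_lit 18) (.e (nat_lit 57931) (nat_lit 282) (.e (nat_lit 164084) (nat_lit 73) (.e (nat_lit 336012) (nat_lit 2) (.e (nat_lit 90185) (nat_lit 17) (.e (nat_lit 237584) (nat_lit 1) .nil)))))))) (.g (nat_lit 4) .nil .nil))) 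
(.lf (nat_lit 258540) (.g (nat_lit 1768) (.e (nat_lit 164329) (nat_lit 230) (.e (nat_lit 163873) (nat_lit 3) (.e (nat_lit 204809) (nat_lit 9) (.e (nat_lit 426139) (nat_lit 3) (.e (nat_lit 204821) (nat_lit 17) .nil))))) .nil)))) (.nd (nat_lit 5) (.nd (nat_lit 6) 
(.lf (nat_lit 258460) (.g (nat_lit 2213) (.e (nat_lit 164327) (nat_lit 230) (.e (nat_lit 163873) (nat_lit 3) (.e (nat_lit 204829) (nat_lit 18) (.e (nat_lit 57927) (nat_lit 282) (.e (nat_lit 164084) (nat_lit 73) .nil))))) .nil)) 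
(.lf (nat_lit 258524) (.g (nat_lit 1578) (.e (nat_lit 164328) (nat_lit 230) (.e (nat_lit 163904) (nat_lit 12) (.e (nat_lit 426566) (nat_lit 34) (.e (nat_lit 393294) (nat_lit 26) (.e (nat_lit 475177) (nat_lit 24) .nil))))) .nil))) (.nd (nat_lit 6) 
(.lf (nat_lit 258492) (.g (nat_lit 1360) (.e (nat_lit 164327) (nat_lit 230) (.e (nat_lit 163886) (nat_lit 5) (.e (nat_lit 221190) (nat_lit 11) (.e (nat_lit 336215) (nat_lit 13) (.e (nat_lit 401152) (nat_lit 23) .nil))))) .nil)) 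
(.lf (nat_lit 258556) (.g (nat_lit 2398) (.e (nat_lit 164329) (nat_lit 230) (.e (nat_lit 163884) (nat_lit 5) (.e (nat_lit 221207) (nat_lit 21) (.e (nat_lit 164325) (nat_lit 230) (.e (nat_lit 171776) (nat_lit 66) .nil))))) .nil))))))) (.nd (nat_lit 2) (.nd (nat_lit 3) (.nd (nat_lit 4) (.nd (nat_lit 5) (.nd (nat_lit 6) 
(.lf (nat_lit 258434) (.g (nat_lit 2907) (.e (nat_lit 164327) (nat_lit 230) (.e (nat_lit 163868) (nat_lit 2) (.e (nat_lit 196656) (nat_lit 11) (.e (nat_lit 16436) (nat_lit 9) (.e (nat_lit 426530) (nat_lit 27) (.e (nat_lit 336390) (nat_lit 27) (.e (nat_lit 426098) (nat_lit 1) .nil))))))) (.g (nat_lit 4) .nil .nil))) 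
(.lf (nat_lit 258498) (.g (nat_lit 2937) (.e (nat_lit 164327) (nat_lit 230) (.e (nat_lit 163886) (nat_lit 5) (.e (nat_lit 221207) (nat_lit 21) (.e (nat_lit 164325) (nat_lit 230) (.e (nat_lit 171776) (nat_lit 66) (.e (nat_lit 114718) (nat_lit 23) (.e (nat_lit 98365) (nat_lit 26) (.e (nat_lit 426098) (nat_lit 1) .nil)))))))) (.g (nat_lit 4) .nil .nil)))) (.nd (nat_lit 6) 
(.lf (nat_lit 258466) (.g (nat_lit 3256) (.e (nat_lit 164327) (nat_lit 230) (.e (nat_lit 163875) (nat_lit 3) (.e (nat_lit 204829) (nat_lit 18) (.e (nat_lit 57931) (nat_lit 282) (.e (nat_lit 164084) (nat_lit 73) .nil))))) .nil)) 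
(.lf (nat_lit 258530) (.g (nat_lit 2392) (.e (nat_lit 164329) (nat_lit 230) (.e (nat_lit 163867) (nat_lit 2) (.e (nat_lit 196654) (nat_lit 11) (.e (nat_lit 16416) (nat_lit 3) (.e (nat_lit 204833) (nat_lit 19) .nil))))) .nil)))) (.nd (nat_lit 5) (.nd (nat_lit 6) 
(.lf (nat_lit 258450) (.g (nat_lit 2945) (.e (nat_lit 164327) (nat_lit 230) (.e (nat_lit 163871) (nat_lit 2) (.e (nat_lit 196656) (nat_lit 11) (.e (nat_lit 16388) (nat_lit 0) (.e (nat_lit 7303) (nat_lit 388) .nil))))) .nil)) 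
(.lf (nat_lit 258514) (.g (nat_lit 2770) (.e (nat_lit 164327) (nat_lit 230) (.e (nat_lit 163903) (nat_lit 12) (.e (nat_lit 426568) (nat_lit 34) (.e (nat_lit 393279) (nat_lit 23) (.e (nat_lit 426435) (nat_lit 18) (.e (nat_lit 98335) (nat_lit 18) .nil)))))) (.g (nat_lit 0) .nil .nil)))) (.nd (nat_lit 6) 
(.lf (nat_lit 258482) (.g (nat_lit 2131) (.e (nat_lit 164327) (nat_lit 230) (.e (nat_lit 163884) (nat_lit 5) (.e (nat_lit 221193) (nat_lit 11) (.e (nat_lit 336222) (nat_lit 13) (.e (nat_lit 393274) (nat_lit 23) (.e (nat_lit 426097) (nat_lit 1) .nil)))))) (.g (nat_lit 4) .nil .nil))) 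
(.lf (nat_lit 258546) (.g (nat_lit 4417) (.e (nat_lit 164329) (nat_lit 230) (.e (nat_lit 163873) (nat_lit 3) (.e (nat_lit 204813) (nat_lit 9) (.e (nat_lit 426139) (nat_lit 3) (.e (nat_lit 204834) (nat_lit 19) .nil))))) .nil))))) (.nd (nat_lit 4) (.nd (nat_lit 5) (.nd (nat_lit 6) 
(.lf (nat_lit 258442) (.g (nat_lit 1131) (.e (nat_lit 164327) (nat_lit 230) (.e (nat_lit 163871) (nat_lit 2) (.e (nat_lit 196653) (nat_lit 11) (.e (nat_lit 16468) (nat_lit 13) .nil)))) .nil)) 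
(.lf (nat_lit 258506) (.g (nat_lit 1956) (.e (nat_lit 164327) (nat_lit 230) (.e (nat_lit 163903) (nat_lit 12) (.e (nat_lit 426566) (nat_lit 34) (.e (nat_lit 393267) (nat_lit 23) .nil)))) .nil))) (.nd (nat_lit 6) 
(.lf (nat_lit 258474) (.g (nat_lit 2562) (.e (nat_lit 164327) (nat_lit 230) (.e (nat_lit 163875) (nat_lit 3) (.e (nat_lit 204830) (nat_lit 18) (.e (nat_lit 57930) (nat_lit 282) (.e (nat_lit 164084) (nat_lit 73) .nil))))) .nil)) 
(.lf (nat_lit 258538) (.g (nat_lit 2018) (.e (nat_lit 164329) (nat_lit 230) (.e (nat_lit 163869) (nat_lit 2) (.e (nat_lit 196654) (nat_lit 11) (.e (nat_lit 16438) (nat_lit 9) .nil)))) .nil)))) (.nd (nat_lit 5) (.nd (nat_lit 6) 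
(.lf (nat_lit 258458) (.g (nat_lit 489) (.e (nat_lit 164327) (nat_lit 230) (.e (nat_lit 163873) (nat_lit 3) (.e (nat_lit 204810) (nat_lit 9) .nil))) .nil)) 
(.lf (nat_lit 258522) (.g (nat_lit 2810) (.e (nat_lit 164328) (nat_lit 230) (.e (nat_lit 163902) (nat_lit 12) (.e (nat_lit 426566) (nat_lit 34) (.e (nat_lit 393293) (nat_lit 26) .nil)))) .nil))) (.nd (nat_lit 6) 
(.lf (nat_lit 258490) (.g (nat_lit 607) (.e (nat_lit 164327) (nat_lit 230) (.e (nat_lit 163885) (nat_lit 5) (.e (nat_lit 221194) (nat_lit 11) .nil))) .nil)) 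
(.lf (nat_lit 258554) (.g (nat_lit 360) (.e (nat_lit 164329) (nat_lit 230) (.e (nat_lit 163884) (nat_lit 5) (.e (nat_lit 229120) (nat_lit 13) .nil))) .nil)))))) (.nd (nat_lit 3) (.nd (nat_lit 4) (.nd (nat_lit 5) (.nd (nat_lit 6) 
(.lf (nat_lit 258438) (.g (nat_lit 3372) (.e (nat_lit 164327) (nat_lit 230) (.e (nat_lit 163868) (nat_lit 2) (.e (nat_lit 196691) (nat_lit 18) (.e (nat_lit 1349) (nat_lit 102) (.e (nat_lit 286749) (nat_lit 9) (.e (nat_lit 336028) (nat_lit 3) (.e (nat_lit 98359) (nat_lit 26) (.e (nat_lit 426097) (nat_lit 1) .nil)))))))) (.g (nat_lit 5) .nil .nil))) 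
(.lf (nat_lit 258502) (.g (nat_lit 2814) (.e (nat_lit 164327) (nat_lit 230) (.e (nat_lit 163902) (nat_lit 12) (.e (nat_lit 426566) (nat_lit 34) (.e (nat_lit 393293) (nat_lit 26) .nil)))) .nil))) (.nd (nat_lit 6) 
(.lf (nat_lit 258470) (.g (nat_lit 3924) (.e (nat_lit 164327) (nat_lit 230) (.e (nat_lit 163875) (nat_lit 3) (.e (nat_lit 204830) (nat_lit 18) (.e (nat_lit 57926) (nat_lit 282) (.e (nat_lit 164084) (nat_lit 73) (.e (nat_lit 336012) (nat_lit 2) (.e (nat_lit 90185) (nat_lit 17) (.e (nat_lit 237582) (nat_lit 1) .nil)))))))) (.g (nat_lit 4) .nil .nil))) 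
(.lf (nat_lit 258534) (.g (nat_lit 1804) (.e (nat_lit 164329) (nat_lit 230) (.e (nat_lit 163867) (nat_lit 2) (.e (nat_lit 196656) (nat_lit 11) (.e (nat_lit 16412) (nat_lit 2) .nil)))) .nil)))) (.nd (nat_lit 5) (.nd (nat_lit 6) 
(.lf (nat_lit 258454) (.g (nat_lit 4361) (.e (nat_lit 164327) (nat_lit 230) (.e (nat_lit 163871) (nat_lit 2) (.e (nat_lit 196656) (nat_lit 11) (.e (nat_lit 16416) (nat_lit 3) (.e (nat_lit 204817) (nat_lit 17) (.e (nat_lit 2198) (nat_lit 144) (.e (nat_lit 720945) (nat_lit 23) (.e (nat_lit 98333) (nat_lit 18) .nil)))))))) (.g (nat_lit 4) .nil .nil))) 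
(.lf (nat_lit 258518) (.g (nat_lit 1781) (.e (nat_lit 164327) (nat_lit 230) (.e (nat_lit 163941) (nat_lit 19) (.e (nat_lit 483341) (nat_lit 9) (.e (nat_lit 426197) (nat_lit 9) (.e (nat_lit 433920) (nat_lit 18) .nil))))) .nil))) (.nd (nat_lit 6) 
(.lf (nat_lit 258486) (.g (nat_lit 2475) (.e (nat_lit 164327) (nat_lit 230) (.e (nat_lit 163884) (nat_lit 5) (.e (nat_lit 221194) (nat_lit 11) (.e (nat_lit 336222) (nat_lit 13) (.e (nat_lit 393274) (nat_lit 23) (.e (nat_lit 426097) (nat_lit 1) .nil)))))) (.g (nat_lit 4) .nil .nil))) 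
(.lf (nat_lit 258550) (.g (nat_lit 987) (.e (nat_lit 164329) (nat_lit 230) (.e (nat_lit 163884) (nat_lit 5) (.e (nat_lit 221194) (nat_lit 11) (.e (nat_lit 336222) (nat_lit 13) .nil)))) .nil))))) (.nd (nat_lit 4) (.nd (nat_lit 5) (.nd (nat_lit 6) 
(.lf (nat_lit 258446) (.g (nat_lit 2563) (.e (nat_lit 164327) (nat_lit 230) (.e (nat_lit 163871) (nat_lit 2) (.e (nat_lit 196654) (nat_lit 11) (.e (nat_lit 16436) (nat_lit 9) (.e (nat_lit 426484) (nat_lit 27) (.e (nat_lit 336406) (nat_lit 27) (.e (nat_lit 426098) (nat_lit 1) .nil))))))) (.g (nat_lit 4) .nil .nil))) 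
(.lf (nat_lit 258510) (.g (nat_lit 2515) (.e (nat_lit 164327) (nat_lit 230) (.e (nat_lit 163903) (nat_lit 12) (.e (nat_lit 426568) (nat_lit 34) (.e (nat_lit 393234) (nat_lit 17) (.e (nat_lit 7309) (nat_lit 388) .nil))))) .nil))) (.nd (nat_lit 6) 
(.lf (nat_lit 258478) (.g (nat_lit 826) (.e (nat_lit 164327) (nat_lit 230) (.e (nat_lit 163875) (nat_lit 3) (.e (nat_lit 204832) (nat_lit 19) .nil))) .nil)) 
(.lf (nat_lit 258542) (.g (nat_lit 4426) (.e (nat_lit 164329) (nat_lit 230) (.e (nat_lit 163873) (nat_lit 3) (.e (nat_lit 204813) (nat_lit 9) (.e (nat_lit 426122) (nat_lit 2) .nil)))) .nil)))) (.nd (nat_lit 5) (.nd (nat_lit 6) 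
(.lf (nat_lit 258462) (.g (nat_lit 1362) (.e (nat_lit 164327) (nat_lit 230) (.e (nat_lit 163875) (nat_lit 3) (.e (nat_lit 204809) (nat_lit 9) (.e (nat_lit 426187) (nat_lit 9) .nil)))) .nil)) 
(.lf (nat_lit 258526) (.g (nat_lit 4690) (.e (nat_lit 164329) (nat_lit 230) (.e (nat_lit 163850) (nat_lit 0) (.e (nat_lit 3304) (nat_lit 202) (.e (nat_lit 573489) (nat_lit 14) (.e (nat_lit 73755) (nat_lit 8) (.e (nat_lit 557098) (nat_lit 13) (.e (nat_lit 172133) (nat_lit 15) (.e (nat_lit 1800) (nat_lit 119) (.e (nat_lit 516120) (nat_lit 1) .nil))))))))) (.g (nat_lit 6) .nil .nil)))) 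
(.nd (nat_lit 6) 
(.lf (nat_lit 258494) (.g (nat_lit 2800) (.e (nat_lit 164327) (nat_lit 230) (.e (nat_lit 163886) (nat_lit 5) (.e (nat_lit 221194) (nat_lit 11) (.e (nat_lit 336222) (nat_lit 13) (.e (nat_lit 393271) (nat_lit 23) (.e (nat_lit 426112) (nat_lit 1) .nil)))))) (.g (nat_lit 0) .nil .nil))) 
(.lf (nat_lit 258558) (.g (nat_lit 1974) (.e (nat_lit 164329) (nat_lit 230) (.e (nat_lit 163885) (nat_lit 5) (.e (nat_lit 221190) (nat_lit 11) (.e (nat_lit 336215) (nat_lit 13) (.e (nat_lit 393281) (nat_lit 23) .nil))))) .nil)))))))) (.nd (nat_lit 1) (.nd (nat_lit 2) (.nd (nat_lit 3) (.nd (nat_lit 4) (.nd (nat_lit 5) (.nd (nat_lit 6) 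
(.lf (nat_lit 258433) (.g (nat_lit 2288) (.e (nat_lit 164327) (nat_lit 230) (.e (nat_lit 163868) (nat_lit 2) (.e (nat_lit 196654) (nat_lit 11) (.e (nat_lit 16438) (nat_lit 9) (.e (nat_lit 426568) (nat_lit 34) (.e (nat_lit 393250) (nat_lit 18) .nil)))))) (.g (nat_lit 4) .nil .nil))) 
(.lf (nat_lit 258497) (.g (nat_lit 2168) (.e (nat_lit 164327) (nat_lit 230) (.e (nat_lit 163886) (nat_lit 5) (.e (nat_lit 221207) (nat_lit 21) (.e (nat_lit 164325) (nat_lit 230) (.e (nat_lit 171776) (nat_lit 66) .nil))))) .nil))) (.nd (nat_lit 6) 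
(.lf (nat_lit 258465) (.g (nat_lit 2119) (.e (nat_lit 164327) (nat_lit 230) (.e (nat_lit 163875) (nat_lit 3) (.e (nat_lit 204829) (nat_lit 18) (.e (nat_lit 57930) (nat_lit 282) .nil)))) .nil)) 
(.lf (nat_lit 258529) (.g (nat_lit 1365) (.e (nat_lit 164329) (nat_lit 230) (.e (nat_lit 163867) (nat_lit 2) (.e (nat_lit 196624) (nat_lit 9) (.e (nat_lit 433) (nat_lit 32) .nil)))) .nil)))) (.nd (nat_lit 5) (.nd (nat_lit 6) 
(.lf (nat_lit 258449) (.g (nat_lit 2283) (.e (nat_lit 164327) (nat_lit 230) (.e (nat_lit 163871) (nat_lit 2) (.e (nat_lit 196654) (nat_lit 11) (.e (nat_lit 16438) (nat_lit 9) (.e (nat_lit 426568) (nat_lit 34) (.e (nat_lit 393250) (nat_lit 18) .nil)))))) (.g (nat_lit 4) .nil .nil))) 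
(.lf (nat_lit 258513) (.g (nat_lit 1282) (.e (nat_lit 164327) (nat_lit 230) (.e (nat_lit 163903) (nat_lit 12) (.e (nat_lit 426568) (nat_lit 34) (.e (nat_lit 393274) (nat_lit 23) .nil)))) .nil))) (.nd (nat_lit 6) 
(.lf (nat_lit 258481) (.g (nat_lit 248) (.e (nat_lit 164327) (nat_lit 230) (.e (nat_lit 163884) (nat_lit 5) (.e (nat_lit 221192) (nat_lit 11) .nil))) .nil)) 
(.lf (nat_lit 258545) (.g (nat_lit 4286) (.e (nat_lit 164329) (nat_lit 230) (.e (nat_lit 163873) (nat_lit 3) (.e (nat_lit 204813) (nat_lit 9) (.e (nat_lit 426139) (nat_lit 3) (.e (nat_lit 204833) (nat_lit 19) .nil))))) .nil))))) (.nd (nat_lit 4) (.nd (nat_lit 5) (.nd (nat_lit 6) 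
(.lf (nat_lit 258441) (.g (nat_lit 1014) (.e (nat_lit 164327) (nat_lit 230) (.e (nat_lit 163871) (nat_lit 2) (.e (nat_lit 196653) (nat_lit 11) (.e (nat_lit 16465) (nat_lit 13) .nil)))) .nil)) 
(.lf (nat_lit 258505) (.g (nat_lit 1839) (.e (nat_lit 164327) (nat_lit 230) (.e (nat_lit 163903) (nat_lit 12) (.e (nat_lit 426566) (nat_lit 34) (.e (nat_lit 393266) (nat_lit 23) .nil)))) .nil))) (.nd (nat_lit 6) 
(.lf (nat_lit 258473) (.g (nat_lit 2229) (.e (nat_lit 164327) (nat_lit 230) (.e (nat_lit 163875) (nat_lit 3) (.e (nat_lit 204830) (nat_lit 18) (.e (nat_lit 57929) (nat_lit 282) (.e (nat_lit 164088) (nat_lit 73) .nil))))) .nil)) 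
(.lf (nat_lit 258537) (.g (nat_lit 3673) (.e (nat_lit 164329) (nat_lit 230) (.e (nat_lit 163867) (nat_lit 2) (.e (nat_lit 196656) (nat_lit 11) (.e (nat_lit 16436) (nat_lit 9) (.e (nat_lit 426566) (nat_lit 34) (.e (nat_lit 393253) (nat_lit 18) .nil)))))) (.g (nat_lit 0) .nil .nil))))) (.nd (nat_lit 5) (.nd (nat_lit 6) 
(.lf (nat_lit 258457) (.g (nat_lit 2657) (.e (nat_lit 164327) (nat_lit 230) (.e (nat_lit 163871) (nat_lit 2) (.e (nat_lit 196691) (nat_lit 18) (.e (nat_lit 1359) (nat_lit 102) (.e (nat_lit 286749) (nat_lit 9) (.e (nat_lit 336028) (nat_lit 3) (.e (nat_lit 98359) (nat_lit 26) (.e (nat_lit 426097) (nat_lit 1) .nil)))))))) (.g (nat_lit 5) .nil .nil))) 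
(.lf (nat_lit 258521) (.g (nat_lit 2427) (.e (nat_lit 164328) (nat_lit 230) (.e (nat_lit 163902) (nat_lit 12) (.e (nat_lit 426566) (nat_lit 34) (.e (nat_lit 393291) (nat_lit 26) .nil)))) .nil))) (.nd (nat_lit 6) 
(.lf (nat_lit 258489) (.g (nat_lit 2277) (.e (nat_lit 164327) (nat_lit 230) (.e (nat_lit 163884) (nat_lit 5) (.e (nat_lit 221208) (nat_lit 21) (.e (nat_lit 164330) (nat_lit 230) (.e (nat_lit 171776) (nat_lit 66) .nil))))) .nil)) 
(.lf (nat_lit 258553) (.g (nat_lit 2119) (.e (nat_lit 164329) (nat_lit 230) (.e (nat_lit 163884) (nat_lit 5) (.e (nat_lit 229120) (nat_lit 12) (.e (nat_lit 344117) (nat_lit 21) (.e (nat_lit 516099) (nat_lit 0) (.e (nat_lit 3771) (nat_lit 229) (.e (nat_lit 794683) (nat_lit 25) (.e (nat_lit 221208) (nat_lit 21) .nil)))))))) (.g (nat_lit 5) .nil .nil))))))) 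
(.nd (nat_lit 3) (.nd (nat_lit 4) (.nd (nat_lit 5) (.nd (nat_lit 6) 
(.lf (nat_lit 258437) (.g (nat_lit 4113) (.e (nat_lit 164327) (nat_lit 230) (.e (nat_lit 163868) (nat_lit 2) (.e (nat_lit 196691) (nat_lit 18) (.e (nat_lit 1348) (nat_lit 102) (.e (nat_lit 286749) (nat_lit 9) (.e (nat_lit 336013) (nat_lit 2) (.e (nat_lit 90170) (nat_lit 13) (.e (nat_lit 172059) (nat_lit 1) .nil)))))))) (.g (nat_lit 5) .nil .nil))) 
(.lf (nat_lit 258501) (.g (nat_lit 2563) (.e (nat_lit 164327) (nat_lit 230) (.e (nat_lit 163902) (nat_lit 12) (.e (nat_lit 426566) (nat_lit 34) (.e (nat_lit 393268) (nat_lit 23) .nil)))) .nil))) (.nd (nat_lit 6) 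
(.lf (nat_lit 258469) (.g (nat_lit 798) (.e (nat_lit 164327) (nat_lit 230) (.e (nat_lit 163875) (nat_lit 3) (.e (nat_lit 204830) (nat_lit 18) .nil))) .nil)) 
(.lf (nat_lit 258533) (.g (nat_lit 1734) (.e (nat_lit 164329) (nat_lit 230) (.e (nat_lit 163867) (nat_lit 2) (.e (nat_lit 196656) (nat_lit 11) (.e (nat_lit 16388) (nat_lit 0) .nil)))) .nil)))) (.nd (nat_lit 5) (.nd (nat_lit 6) 
(.lf (nat_lit 258453) (.g (nat_lit 1916) (.e (nat_lit 164327) (nat_lit 230) (.e (nat_lit 163871) (nat_lit 2) (.e (nat_lit 196656) (nat_lit 11) (.e (nat_lit 16412) (nat_lit 2) .nil)))) .nil)) 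
(.lf (nat_lit 258517) (.g (nat_lit 3284) (.e (nat_lit 164327) (nat_lit 230) (.e (nat_lit 163941) (nat_lit 19) (.e (nat_lit 483341) (nat_lit 9) (.e (nat_lit 426031) (nat_lit 0) .nil)))) .nil))) (.nd (nat_lit 6) 
(.lf (nat_lit 258485) (.g (nat_lit 2040) (.e (nat_lit 164327) (nat_lit 230) (.e (nat_lit 163884) (nat_lit 5) (.e (nat_lit 221194) (nat_lit 11) (.e (nat_lit 336215) (nat_lit 13) (.e (nat_lit 393274) (nat_lit 23) .nil))))) .nil)) 
(.lf (nat_lit 258549) (.g (nat_lit 2259) (.e (nat_lit 164329) (nat_lit 230) (.e (nat_lit 163884) (nat_lit 5) (.e (nat_lit 221194) (nat_lit 11) (.e (nat_lit 336214) (nat_lit 13) (.e (nat_lit 393281) (nat_lit 23) (.e (nat_lit 426099) (nat_lit 1) .nil)))))) (.g (nat_lit 5) .nil .nil)))))) (.nd (nat_lit 4) (.nd (nat_lit 5) (.nd (nat_lit 6) 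
(.lf (nat_lit 258445) (.g (nat_lit 2413) (.e (nat_lit 164327) (nat_lit 230) (.e (nat_lit 163871) (nat_lit 2) (.e (nat_lit 196654) (nat_lit 11) (.e (nat_lit 16436) (nat_lit 9) (.e (nat_lit 426481) (nat_lit 27) (.e (nat_lit 336385) (nat_lit 27) (.e (nat_lit 426098) (nat_lit 1) .nil))))))) (.g (nat_lit 4) .nil .nil))) 
(.lf (nat_lit 258509) (.g (nat_lit 2736) (.e (nat_lit 164327) (nat_lit 230) (.e (nat_lit 163903) (nat_lit 12) (.e (nat_lit 426566) (nat_lit 34) (.e (nat_lit 393273) (nat_lit 23) (.e (nat_lit 426402) (nat_lit 15) (.e (nat_lit 1788) (nat_lit 119) (.e (nat_lit 516118) (nat_lit 1) .nil))))))) (.g (nat_lit 4) .nil .nil)))) (.nd (nat_lit 6) 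
(.lf (nat_lit 258477) (.g (nat_lit 2615) (.e (nat_lit 164327) (nat_lit 230) (.e (nat_lit 163875) (nat_lit 3) (.e (nat_lit 204831) (nat_lit 18) (.e (nat_lit 57931) (nat_lit 282) (.e (nat_lit 164084) (nat_lit 73) .nil))))) .nil)) 
(.lf (nat_lit 258541) (.g (nat_lit 1886) (.e (nat_lit 164329) (nat_lit 230) (.e (nat_lit 163873) (nat_lit 3) (.e (nat_lit 204809) (nat_lit 9) (.e (nat_lit 426139) (nat_lit 3) (.e (nat_lit 204844) (nat_lit 23) .nil))))) .nil)))) (.nd (nat_lit 5) (.nd (nat_lit 6) 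
(.lf (nat_lit 258461) (.g (nat_lit 2872) (.e (nat_lit 164327) (nat_lit 230) (.e (nat_lit 163873) (nat_lit 3) (.e (nat_lit 204829) (nat_lit 18) (.e (nat_lit 57931) (nat_lit 282) (.e (nat_lit 164084) (nat_lit 73) .nil))))) .nil)) 
(.lf (nat_lit 258525) (.g (nat_lit 3857) (.e (nat_lit 164329) (nat_lit 230) (.e (nat_lit 163850) (nat_lit 0) (.e (nat_lit 3304) (nat_lit 202) (.e (nat_lit 573489) (nat_lit 14) (.e (nat_lit 73755) (nat_lit 8) (.e (nat_lit 557098) (nat_lit 13) (.e (nat_lit 172132) (nat_lit 15) (.e (nat_lit 1796) (nat_lit 119) (.e (nat_lit 516116) (nat_lit 1) .nil))))))))) (.g (nat_lit 5) .nil .nil)))) 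
(.nd (nat_lit 6) 
(.lf (nat_lit 258493) (.g (nat_lit 1686) (.e (nat_lit 164327) (nat_lit 230) (.e (nat_lit 163886) (nat_lit 5) (.e (nat_lit 221193) (nat_lit 11) (.e (nat_lit 336215) (nat_lit 13) (.e (nat_lit 393274) (nat_lit 23) .nil))))) .nil)) 
(.lf (nat_lit 258557) (.g (nat_lit 525) (.e (nat_lit 164329) (nat_lit 230) (.e (nat_lit 163885) (nat_lit 5) (.e (nat_lit 221190) (nat_lit 11) .nil))) .nil))))))) (.nd (nat_lit 2) (.nd (nat_lit 3) (.nd (nat_lit 4) (.nd (nat_lit 5) (.nd (nat_lit 6) 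
(.lf (nat_lit 258435) (.g (nat_lit 3057) (.e (nat_lit 164327) (nat_lit 230) (.e (nat_lit 163868) (nat_lit 2) (.e (nat_lit 196656) (nat_lit 11) (.e (nat_lit 16438) (nat_lit 9) (.e (nat_lit 426566) (nat_lit 34) (.e (nat_lit 393251) (nat_lit 18) .nil)))))) (.g (nat_lit 4) .nil .nil))) 
(.lf (nat_lit 258499) (.g (nat_lit 2788) (.e (nat_lit 164327) (nat_lit 230) (.e (nat_lit 163886) (nat_lit 5) (.e (nat_lit 221207) (nat_lit 21) (.e (nat_lit 164325) (nat_lit 230) (.e (nat_lit 171776) (nat_lit 66) (.e (nat_lit 114719) (nat_lit 23) (.e (nat_lit 98365) (nat_lit 26) (.e (nat_lit 426098) (nat_lit 1) .nil)))))))) (.g (nat_lit 4) .nil .nil)))) (.nd (nat_lit 6) 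
(.lf (nat_lit 258467) (.g (nat_lit 3632) (.e (nat_lit 164327) (nat_lit 230) (.e (nat_lit 163875) (nat_lit 3) (.e (nat_lit 204829) (nat_lit 18) (.e (nat_lit 57931) (nat_lit 282) (.e (nat_lit 164084) (nat_lit 73) (.e (nat_lit 336012) (nat_lit 2) (.e (nat_lit 90185) (nat_lit 17) (.e (nat_lit 237582) (nat_lit 1) .nil)))))))) (.g (nat_lit 4) .nil .nil))) 
(.lf (nat_lit 258531) (.g (nat_lit 3103) (.e (nat_lit 164329) (nat_lit 230) (.e (nat_lit 163867) (nat_lit 2) (.e (nat_lit 196654) (nat_lit 11) (.e (nat_lit 16436) (nat_lit 9) (.e (nat_lit 426566) (nat_lit 34) (.e (nat_lit 393254) (nat_lit 18) .nil)))))) (.g (nat_lit 6) .nil .nil))))) (.nd (nat_lit 5) (.nd (nat_lit 6) 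
(.lf (nat_lit 258451) (.g (nat_lit 2949) (.e (nat_lit 164327) (nat_lit 230) (.e (nat_lit 163871) (nat_lit 2) (.e (nat_lit 196656) (nat_lit 11) (.e (nat_lit 16388) (nat_lit 0) (.e (nat_lit 7309) (nat_lit 388) .nil))))) .nil)) 
(.lf (nat_lit 258515) (.g (nat_lit 329) (.e (nat_lit 164327) (nat_lit 230) (.e (nat_lit 163907) (nat_lit 12) (.e (nat_lit 426566) (nat_lit 34) .nil))) .nil))) (.nd (nat_lit 6) 
(.lf (nat_lit 258483) (.g (nat_lit 1166) (.e (nat_lit 164327) (nat_lit 230) (.e (nat_lit 163884) (nat_lit 5) (.e (nat_lit 221194) (nat_lit 11) (.e (nat_lit 336213) (nat_lit 13) .nil)))) .nil)) 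
(.lf (nat_lit 258547) (.g (nat_lit 881) (.e (nat_lit 164329) (nat_lit 230) (.e (nat_lit 163884) (nat_lit 5) (.e (nat_lit 221193) (nat_lit 11) (.e (nat_lit 336222) (nat_lit 13) .nil)))) .nil))))) (.nd (nat_lit 4) (.nd (nat_lit 5) (.nd (nat_lit 6) 
(.lf (nat_lit 258443) (.g (nat_lit 3763) (.e (nat_lit 164327) (nat_lit 230) (.e (nat_lit 163871) (nat_lit 2) (.e (nat_lit 196654) (nat_lit 11) (.e (nat_lit 16416) (nat_lit 3) (.e (nat_lit 204817) (nat_lit 17) (.e (nat_lit 2198) (nat_lit 144) (.e (nat_lit 720945) (nat_lit 23) (.e (nat_lit 98335) (nat_lit 18) .nil)))))))) (.g (nat_lit 4) .nil .nil))) 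
(.lf (nat_lit 258507) (.g (nat_lit 1194) (.e (nat_lit 164327) (nat_lit 230) (.e (nat_lit 163903) (nat_lit 12) (.e (nat_lit 426566) (nat_lit 34) (.e (nat_lit 393272) (nat_lit 23) .nil)))) .nil))) (.nd (nat_lit 6) 
(.lf (nat_lit 258475) (.g (nat_lit 3049) (.e (nat_lit 164327) (nat_lit 230) (.e (nat_lit 163875) (nat_lit 3) (.e (nat_lit 204830) (nat_lit 18) (.e (nat_lit 57931) (nat_lit 282) (.e (nat_lit 164084) (nat_lit 73) .nil))))) .nil)) 
(.lf (nat_lit 258539) (.g (nat_lit 2701) (.e (nat_lit 164329) (nat_lit 230) (.e (nat_lit 163869) (nat_lit 2) (.e (nat_lit 196654) (nat_lit 11) (.e (nat_lit 16438) (nat_lit 9) (.e (nat_lit 426568) (nat_lit 34) .nil))))) .nil)))) (.nd (nat_lit 5) (.nd (nat_lit 6) 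
(.lf (nat_lit 258459) (.g (nat_lit 3754) (.e (nat_lit 164327) (nat_lit 230) (.e (nat_lit 163873) (nat_lit 3) (.e (nat_lit 204813) (nat_lit 9) (.e (nat_lit 426107) (nat_lit 1) .nil)))) .nil)) 
(.lf (nat_lit 258523) (.g (nat_lit 2408) (.e (nat_lit 164328) (nat_lit 230) (.e (nat_lit 163902) (nat_lit 12) (.e (nat_lit 426566) (nat_lit 34) (.e (nat_lit 393294) (nat_lit 26) .nil)))) .nil))) (.nd (nat_lit 6) 
(.lf (nat_lit 258491) (.g (nat_lit 2978) (.e (nat_lit 164327) (nat_lit 230) (.e (nat_lit 163886) (nat_lit 5) (.e (nat_lit 221190) (nat_lit 11) (.e (nat_lit 336215) (nat_lit 13) (.e (nat_lit 393271) (nat_lit 23) (.e (nat_lit 426112) (nat_lit 1) .nil)))))) (.g (nat_lit 5) .nil .nil))) 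
(.lf (nat_lit 258555) (.g (nat_lit 360) (.e (nat_lit 164329) (nat_lit 230) (.e (nat_lit 163884) (nat_lit 5) (.e (nat_lit 229120) (nat_lit 16) .nil))) .nil)))))) (.nd (nat_lit 3) (.nd (nat_lit 4) (.nd (nat_lit 5) (.nd (nat_lit 6) 
(.lf (nat_lit 258439) (.g (nat_lit 2435) (.e (nat_lit 164327) (nat_lit 230) (.e (nat_lit 163869) (nat_lit 2) (.e (nat_lit 196654) (nat_lit 11) (.e (nat_lit 16438) (nat_lit 9) (.e (nat_lit 426566) (nat_lit 34) .nil))))) .nil)) 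
(.lf (nat_lit 258503) (.g (nat_lit 746) (.e (nat_lit 164327) (nat_lit 230) (.e (nat_lit 163903) (nat_lit 12) (.e (nat_lit 426360) (nat_lit 15) .nil))) .nil))) (.nd (nat_lit 6) 
(.lf (nat_lit 258471) (.g (nat_lit 2630) (.e (nat_lit 164327) (nat_lit 230) (.e (nat_lit 163875) (nat_lit 3) (.e (nat_lit 204830) (nat_lit 18) (.e (nat_lit 57927) (nat_lit 282) (.e (nat_lit 164084) (nat_lit 73) .nil))))) .nil)) 
(.lf (nat_lit 258535) (.g (nat_lit 1472) (.e (nat_lit 164329) (nat_lit 230) (.e (nat_lit 163867) (nat_lit 2) (.e (nat_lit 196656) (nat_lit 11) (.e (nat_lit 16416) (nat_lit 3) .nil)))) .nil)))) (.nd (nat_lit 5) (.nd (nat_lit 6) 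
(.lf (nat_lit 258455) (.g (nat_lit 456) (.e (nat_lit 164327) (nat_lit 230) (.e (nat_lit 163871) (nat_lit 2) (.e (nat_lit 196691) (nat_lit 18) .nil))) .nil)) 
(.lf (nat_lit 258519) (.g (nat_lit 464) (.e (nat_lit 164328) (nat_lit 230) (.e (nat_lit 163850) (nat_lit 0) (.e (nat_lit 3634) (nat_lit 227) .nil))) .nil))) (.nd (nat_lit 6) 
(.lf (nat_lit 258487) (.g (nat_lit 2226) (.e (nat_lit 164327) (nat_lit 230) (.e (nat_lit 163884) (nat_lit 5) (.e (nat_lit 221206) (nat_lit 21) (.e (nat_lit 164330) (nat_lit 230) (.e (nat_lit 171776) (nat_lit 66) .nil))))) .nil)) 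
(.lf (nat_lit 258551) (.g (nat_lit 1432) (.e (nat_lit 164329) (nat_lit 230) (.e (nat_lit 163884) (nat_lit 5) (.e (nat_lit 221194) (nat_lit 11) (.e (nat_lit 336222) (nat_lit 13) (.e (nat_lit 393274) (nat_lit 23) .nil))))) .nil))))) (.nd (nat_lit 4) (.nd (nat_lit 5) (.nd (nat_lit 6) 
(.lf (nat_lit 258447) (.g (nat_lit 2493) (.e (nat_lit 164327) (nat_lit 230) (.e (nat_lit 163871) (nat_lit 2) (.e (nat_lit 196654) (nat_lit 11) (.e (nat_lit 16436) (nat_lit 9) (.e (nat_lit 426487) (nat_lit 27) (.e (nat_lit 336409) (nat_lit 27) (.e (nat_lit 426098) (nat_lit 1) .nil))))))) (.g (nat_lit 4) .nil .nil))) 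
(.lf (nat_lit 258511) (.g (nat_lit 1537) (.e (nat_lit 164327) (nat_lit 230) (.e (nat_lit 163903) (nat_lit 12) (.e (nat_lit 426568) (nat_lit 34) (.e (nat_lit 393266) (nat_lit 23) (.e (nat_lit 433920) (nat_lit 18) .nil))))) .nil))) (.nd (nat_lit 6) 
(.lf (nat_lit 258479) (.g (nat_lit 2347) (.e (nat_lit 164327) (nat_lit 230) (.e (nat_lit 163877) (nat_lit 4) (.e (nat_lit 213032) (nat_lit 11) (.e (nat_lit 24659) (nat_lit 13) (.e (nat_lit 393271) (nat_lit 23) (.e (nat_lit 426112) (nat_lit 1) .nil)))))) (.g (nat_lit 4) .nil .nil))) 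
(.lf (nat_lit 258543) (.g (nat_lit 4539) (.e (nat_lit 164329) (nat_lit 230) (.e (nat_lit 163873) (nat_lit 3) (.e (nat_lit 204813) (nat_lit 9) (.e (nat_lit 426123) (nat_lit 2) .nil)))) .nil)))) (.nd (nat_lit 5) (.nd (nat_lit 6) 
(.lf (nat_lit 258463) (.g (nat_lit 731) (.e (nat_lit 164327) (nat_lit 230) (.e (nat_lit 163875) (nat_lit 3) (.e (nat_lit 204829) (nat_lit 18) .nil))) .nil)) 
(.lf (nat_lit 258527) (.g (nat_lit 3913) (.e (nat_lit 164329) (nat_lit 230) (.e (nat_lit 163850) (nat_lit 0) (.e (nat_lit 3306) (nat_lit 202) (.e (nat_lit 573489) (nat_lit 14) (.e (nat_lit 73755) (nat_lit 8) (.e (nat_lit 557097) (nat_lit 13) (.e (nat_lit 172133) (nat_lit 15) (.e (nat_lit 1800) (nat_lit 119) (.e (nat_lit 516120) (nat_lit 1) .nil))))))))) (.g (nat_lit 5) .nil .nil)))) 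
(.nd (nat_lit 6) 
(.lf (nat_lit 258495) (.g (nat_lit 1798) (.e (nat_lit 164327) (nat_lit 230) (.e (nat_lit 163886) (nat_lit 5) (.e (nat_lit 221194) (nat_lit 11) (.e (nat_lit 336222) (nat_lit 13) (.e (nat_lit 393274) (nat_lit 23) (.e (nat_lit 426097) (nat_lit 1) .nil)))))) (.g (nat_lit 4) .nil .nil))) 
(.lf (nat_lit 258559) (.g (nat_lit 362) (.e (nat_lit 164329) (nat_lit 230) (.e (nat_lit 163885) (nat_lit 5) (.e (nat_lit 221193) (nat_lit 11) .nil))) .nil)))))))))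

noncomputable def tv3341 : DT := (.nd (nat_lit 0) (.nd (nat_lit 1) (.nd (nat_lit 2) (.nd (nat_lit 3) (.nd (nat_lit 4) (.nd (nat_lit 5) (.nd (nat_lit 6) 
(.lf (nat_lit 258560) (.g (nat_lit 1821) (.e (nat_lit 164329) (nat_lit 230) (.e (nat_lit 163885) (nat_lit 5) (.e (nat_lit 221193) (nat_lit 11) (.e (nat_lit 336213) (nat_lit 13) (.e (nat_lit 393281) (nat_lit 23) .nil))))) .nil)) 
(.lf (nat_lit 258624) (.g (nat_lit 3972) (.e (nat_lit 164330) (nat_lit 230) (.e (nat_lit 163850) (nat_lit 0) (.e (nat_lit 3304) (nat_lit 202) (.e (nat_lit 573489) (nat_lit 14) (.e (nat_lit 73755) (nat_lit 8) (.e (nat_lit 557098) (nat_lit 13) (.e (nat_lit 172133) (nat_lit 15) (.e (nat_lit 1800) (nat_lit 119) (.e (nat_lit 516117) (nat_lit 1) .nil))))))))) (.g (nat_lit 5) .nil .nil)))) 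
(.nd (nat_lit 6) 
(.lf (nat_lit 258592) (.g (nat_lit 1429) (.e (nat_lit 164329) (nat_lit 230) (.e (nat_lit 163902) (nat_lit 12) (.e (nat_lit 426530) (nat_lit 27) (.e (nat_lit 336390) (nat_lit 27) .nil)))) .nil)) 
(.lf (nat_lit 258656) (.g (nat_lit 2333) (.e (nat_lit 164330) (nat_lit 230) (.e (nat_lit 163885) (nat_lit 5) (.e (nat_lit 221206) (nat_lit 21) (.e (nat_lit 164330) (nat_lit 230) (.e (nat_lit 171776) (nat_lit 66) .nil))))) .nil)))) (.nd (nat_lit 5) (.nd (nat_lit 6) 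
(.lf (nat_lit 258576) (.g (nat_lit 389) (.e (nat_lit 164329) (nat_lit 230) (.e (nat_lit 163885) (nat_lit 5) (.e (nat_lit 229120) (nat_lit 16) .nil))) .nil)) 
(.lf (nat_lit 258640) (.g (nat_lit 4708) (.e (nat_lit 164330) (nat_lit 230) (.e (nat_lit 163873) (nat_lit 3) (.e (nat_lit 204813) (nat_lit 9) (.e (nat_lit 426122) (nat_lit 2) .nil)))) .nil))) (.nd (nat_lit 6) 
(.lf (nat_lit 258608) (.g (nat_lit 1906) (.e (nat_lit 164329) (nat_lit 230) (.e (nat_lit 163902) (nat_lit 12) (.e (nat_lit 426568) (nat_lit 34) (.e (nat_lit 393271) (nat_lit 23) (.e (nat_lit 426362) (nat_lit 15) .nil))))) .nil)) 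
(.lf (nat_lit 258672) (.g (nat_lit 4165) (.e (nat_lit 164330) (nat_lit 230) (.e (nat_lit 163902) (nat_lit 12) (.e (nat_lit 426428) (nat_lit 17) (.e (nat_lit 90170) (nat_lit 13) (.e (nat_lit 172106) (nat_lit 10) (.e (nat_lit 434202) (nat_lit 18) (.e (nat_lit 6841) (nat_lit 369) (.e (nat_lit 163862) (nat_lit 1) .nil)))))))) (.g (nat_lit 5) .nil .nil)))))) 
(.nd (nat_lit 4) (.nd (nat_lit 5) (.nd (nat_lit 6) 
(.lf (nat_lit 258568) (.g (nat_lit 1716) (.e (nat_lit 164329) (nat_lit 230) (.e (nat_lit 163885) (nat_lit 5) (.e (nat_lit 221194) (nat_lit 11) (.e (nat_lit 336220) (nat_lit 13) .nil)))) .nil)) 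
(.lf (nat_lit 258632) (.g (nat_lit 2535) (.e (nat_lit 164330) (nat_lit 230) (.e (nat_lit 163869) (nat_lit 2) (.e (nat_lit 196654) (nat_lit 11) (.e (nat_lit 16416) (nat_lit 3) (.e (nat_lit 204833) (nat_lit 19) .nil))))) .nil))) (.nd (nat_lit 6) 
(.lf (nat_lit 258600) (.g (nat_lit 1115) (.e (nat_lit 164329) (nat_lit 230) (.e (nat_lit 163902) (nat_lit 12) (.e (nat_lit 426568) (nat_lit 34) (.e (nat_lit 393267) (nat_lit 23) .nil)))) .nil)) 
(.lf (nat_lit 258664) (.g (nat_lit 1855) (.e (nat_lit 164330) (nat_lit 230) (.e (nat_lit 163900) (nat_lit 12) (.e (nat_lit 426568) (nat_lit 34) (.e (nat_lit 393268) (nat_lit 23) (.e (nat_lit 426436) (nat_lit 18) .nil))))) .nil)))) (.nd (nat_lit 5) (.nd (nat_lit 6) 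
(.lf (nat_lit 258584) (.g (nat_lit 2937) (.e (nat_lit 164329) (nat_lit 230) (.e (nat_lit 163902) (nat_lit 12) (.e (nat_lit 426428) (nat_lit 17) (.e (nat_lit 90170) (nat_lit 13) (.e (nat_lit 172113) (nat_lit 10) (.e (nat_lit 434203) (nat_lit 18) (.e (nat_lit 6839) (nat_lit 369) (.e (nat_lit 163862) (nat_lit 1) .nil)))))))) (.g (nat_lit 5) .nil .nil))) 
(.lf (nat_lit 258648) (.g (nat_lit 2606) (.e (nat_lit 164330) (nat_lit 230) (.e (nat_lit 163884) (nat_lit 5) (.e (nat_lit 221193) (nat_lit 11) (.e (nat_lit 336213) (nat_lit 13) (.e (nat_lit 393281) (nat_lit 23) (.e (nat_lit 426108) (nat_lit 1) .nil)))))) (.g (nat_lit 4) .nil .nil)))) (.nd (nat_lit 6) 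
(.lf (nat_lit 258616) (.g (nat_lit 2561) (.e (nat_lit 164329) (nat_lit 230) (.e (nat_lit 163902) (nat_lit 12) (.e (nat_lit 426568) (nat_lit 34) (.e (nat_lit 393273) (nat_lit 23) (.e (nat_lit 426364) (nat_lit 15) .nil))))) .nil)) 
(.lf (nat_lit 258680) (.g (nat_lit 430) (.e (nat_lit 164330) (nat_lit 230) (.e (nat_lit 163902) (nat_lit 12) (.e (nat_lit 426568) (nat_lit 34) .nil))) .nil)))))) (.nd (nat_lit 3) (.nd (nat_lit 4) (.nd (nat_lit 5) (.nd (nat_lit 6) 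
(.lf (nat_lit 258564) (.g (nat_lit 1631) (.e (nat_lit 164329) (nat_lit 230) (.e (nat_lit 163885) (nat_lit 5) (.e (nat_lit 221194) (nat_lit 11) (.e (nat_lit 336078) (nat_lit 9) (.e (nat_lit 336443) (nat_lit 32) .nil))))) .nil)) 
(.lf (nat_lit 258628) (.g (nat_lit 3275) (.e (nat_lit 164330) (nat_lit 230) (.e (nat_lit 163867) (nat_lit 2) (.e (nat_lit 196656) (nat_lit 11) (.e (nat_lit 16416) (nat_lit 3) (.e (nat_lit 204836) (nat_lit 20) .nil))))) .nil))) (.nd (nat_lit 6) 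
(.lf (nat_lit 258596) (.g (nat_lit 1625) (.e (nat_lit 164329) (nat_lit 230) (.e (nat_lit 163902) (nat_lit 12) (.e (nat_lit 426568) (nat_lit 34) (.e (nat_lit 393253) (nat_lit 18) .nil)))) .nil)) 
(.lf (nat_lit 258660) (.g (nat_lit 1797) (.e (nat_lit 164330) (nat_lit 230) (.e (nat_lit 163900) (nat_lit 12) (.e (nat_lit 426566) (nat_lit 34) (.e (nat_lit 393290) (nat_lit 26) (.e (nat_lit 475179) (nat_lit 24) .nil))))) .nil)))) (.nd (nat_lit 5) (.nd (nat_lit 6) 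
(.lf (nat_lit 258580) (.g (nat_lit 2677) (.e (nat_lit 164329) (nat_lit 230) (.e (nat_lit 163900) (nat_lit 12) (.e (nat_lit 426566) (nat_lit 34) (.e (nat_lit 393273) (nat_lit 23) (.e (nat_lit 426436) (nat_lit 18) .nil))))) .nil)) 
(.lf (nat_lit 258644) (.g (nat_lit 2345) (.e (nat_lit 164330) (nat_lit 230) (.e (nat_lit 163873) (nat_lit 3) (.e (nat_lit 204829) (nat_lit 18) (.e (nat_lit 57927) (nat_lit 282) (.e (nat_lit 164084) (nat_lit 73) .nil))))) .nil))) (.nd (nat_lit 6) 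
(.lf (nat_lit 258612) (.g (nat_lit 2184) (.e (nat_lit 164329) (nat_lit 230) (.e (nat_lit 163902) (nat_lit 12) (.e (nat_lit 426568) (nat_lit 34) (.e (nat_lit 393271) (nat_lit 23) (.e (nat_lit 426363) (nat_lit 15) (.e (nat_lit 1799) (nat_lit 119) (.e (nat_lit 516117) (nat_lit 1) .nil))))))) (.g (nat_lit 4) .nil .nil))) 
(.lf (nat_lit 258676) (.g (nat_lit 3989) (.e (nat_lit 164330) (nat_lit 230) (.e (nat_lit 163902) (nat_lit 12) (.e (nat_lit 426428) (nat_lit 17) (.e (nat_lit 90170) (nat_lit 13) (.e (nat_lit 172113) (nat_lit 10) (.e (nat_lit 434203) (nat_lit 18) (.e (nat_lit 6841) (nat_lit 369) (.e (nat_lit 163862) (nat_lit 1) .nil)))))))) (.g (nat_lit 5) .nil .nil)))))) 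
(.nd (nat_lit 4) (.nd (nat_lit 5) (.nd (nat_lit 6) 
(.lf (nat_lit 258572) (.g (nat_lit 389) (.e (nat_lit 164329) (nat_lit 230) (.e (nat_lit 163885) (nat_lit 5) (.e (nat_lit 229120) (nat_lit 11) .nil))) .nil)) 
(.lf (nat_lit 258636) (.g (nat_lit 3055) (.e (nat_lit 164330) (nat_lit 230) (.e (nat_lit 163869) (nat_lit 2) (.e (nat_lit 196656) (nat_lit 11) (.e (nat_lit 16416) (nat_lit 3) (.e (nat_lit 204836) (nat_lit 20) .nil))))) .nil))) (.nd (nat_lit 6) 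
(.lf (nat_lit 258604) (.g (nat_lit 2196) (.e (nat_lit 164329) (nat_lit 230) (.e (nat_lit 163902) (nat_lit 12) (.e (nat_lit 426568) (nat_lit 34) (.e (nat_lit 393271) (nat_lit 23) (.e (nat_lit 426357) (nat_lit 15) (.e (nat_lit 1781) (nat_lit 119) (.e (nat_lit 516120) (nat_lit 1) .nil))))))) (.g (nat_lit 4) .nil .nil))) 
(.lf (nat_lit 258668) (.g (nat_lit 1107) (.e (nat_lit 164330) (nat_lit 230) (.e (nat_lit 163901) (nat_lit 12) (.e (nat_lit 426566) (nat_lit 34) (.e (nat_lit 393295) (nat_lit 26) .nil)))) .nil)))) (.nd (nat_lit 5) (.nd (nat_lit 6) 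
(.lf (nat_lit 258588) (.g (nat_lit 2976) (.e (nat_lit 164329) (nat_lit 230) (.e (nat_lit 163902) (nat_lit 12) (.e (nat_lit 426428) (nat_lit 17) (.e (nat_lit 90170) (nat_lit 13) (.e (nat_lit 172113) (nat_lit 10) (.e (nat_lit 434208) (nat_lit 18) (.e (nat_lit 6839) (nat_lit 369) (.e (nat_lit 163862) (nat_lit 1) .nil)))))))) (.g (nat_lit 5) .nil .nil))) 
(.lf (nat_lit 258652) (.g (nat_lit 2510) (.e (nat_lit 164330) (nat_lit 230) (.e (nat_lit 163885) (nat_lit 5) (.e (nat_lit 221193) (nat_lit 11) (.e (nat_lit 336215) (nat_lit 13) (.e (nat_lit 393281) (nat_lit 23) (.e (nat_lit 426099) (nat_lit 1) .nil)))))) (.g (nat_lit 5) .nil .nil)))) (.nd (nat_lit 6) 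
(.lf (nat_lit 258620) (.g (nat_lit 1930) (.e (nat_lit 164329) (nat_lit 230) (.e (nat_lit 163902) (nat_lit 12) (.e (nat_lit 426568) (nat_lit 34) (.e (nat_lit 393274) (nat_lit 23) (.e (nat_lit 426396) (nat_lit 15) .nil))))) .nil)) 
(.lf (nat_lit 258684) (.g (nat_lit 1591) (.e (nat_lit 164330) (nat_lit 230) (.e (nat_lit 163902) (nat_lit 12) (.e (nat_lit 426568) (nat_lit 34) (.e (nat_lit 393267) (nat_lit 23) .nil)))) .nil))))))) (.nd (nat_lit 2) (.nd (nat_lit 3) (.nd (nat_lit 4) (.nd (nat_lit 5) (.nd (nat_lit 6) 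
(.lf (nat_lit 258562) (.g (nat_lit 1137) (.e (nat_lit 164329) (nat_lit 230) (.e (nat_lit 163885) (nat_lit 5) (.e (nat_lit 221193) (nat_lit 11) (.e (nat_lit 336222) (nat_lit 13) (.e (nat_lit 393277) (nat_lit 23) (.e (nat_lit 426103) (nat_lit 1) .nil)))))) (.g (nat_lit 4) .nil .nil))) 
(.lf (nat_lit 258626) (.g (nat_lit 2677) (.e (nat_lit 164330) (nat_lit 230) (.e (nat_lit 163867) (nat_lit 2) (.e (nat_lit 196654) (nat_lit 11) (.e (nat_lit 16416) (nat_lit 3) (.e (nat_lit 204836) (nat_lit 20) (.e (nat_lit 114717) (nat_lit 23) (.e (nat_lit 98334) (nat_lit 18) .nil))))))) (.g (nat_lit 4) .nil .nil)))) (.nd (nat_lit 6) 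
(.lf (nat_lit 258594) (.g (nat_lit 1090) (.e (nat_lit 164329) (nat_lit 230) (.e (nat_lit 163902) (nat_lit 12) (.e (nat_lit 426566) (nat_lit 34) (.e (nat_lit 393293) (nat_lit 26) .nil)))) .nil)) 
(.lf (nat_lit 258658) (.g (nat_lit 1651) (.e (nat_lit 164330) (nat_lit 230) (.e (nat_lit 163900) (nat_lit 12) (.e (nat_lit 426566) (nat_lit 34) (.e (nat_lit 393273) (nat_lit 23) .nil)))) .nil)))) (.nd (nat_lit 5) (.nd (nat_lit 6) 
(.lf (nat_lit 258578) (.g (nat_lit 2688) (.e (nat_lit 164329) (nat_lit 230) (.e (nat_lit 163885) (nat_lit 5) (.e (nat_lit 221207) (nat_lit 21) (.e (nat_lit 164325) (nat_lit 230) (.e (nat_lit 171776) (nat_lit 66) .nil))))) .nil)) 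
(.lf (nat_lit 258642) (.g (nat_lit 4430) (.e (nat_lit 164330) (nat_lit 230) (.e (nat_lit 163873) (nat_lit 3) (.e (nat_lit 204813) (nat_lit 9) (.e (nat_lit 426124) (nat_lit 2) .nil)))) .nil))) (.nd (nat_lit 6) 
(.lf (nat_lit 258610) (.g (nat_lit 2058) (.e (nat_lit 164329) (nat_lit 230) (.e (nat_lit 163902) (nat_lit 12) (.e (nat_lit 426568) (nat_lit 34) (.e (nat_lit 393271) (nat_lit 23) (.e (nat_lit 426363) (nat_lit 15) (.e (nat_lit 1798) (nat_lit 119) (.e (nat_lit 516117) (nat_lit 1) .nil))))))) (.g (nat_lit 4) .nil .nil))) 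
(.lf (nat_lit 258674) (.g (nat_lit 2561) (.e (nat_lit 164330) (nat_lit 230) (.e (nat_lit 163902) (nat_lit 12) (.e (nat_lit 426428) (nat_lit 17) (.e (nat_lit 90170) (nat_lit 13) (.e (nat_lit 172113) (nat_lit 10) (.e (nat_lit 434200) (nat_lit 18) (.e (nat_lit 6839) (nat_lit 369) (.e (nat_lit 163864) (nat_lit 1) .nil)))))))) (.g (nat_lit 4) .nil .nil)))))) 
(.nd (nat_lit 4) (.nd (nat_lit 5) (.nd (nat_lit 6) 
(.lf (nat_lit 258570) (.g (nat_lit 1651) (.e (nat_lit 164329) (nat_lit 230) (.e (nat_lit 163885) (nat_lit 5) (.e (nat_lit 221194) (nat_lit 11) (.e (nat_lit 336222) (nat_lit 13) (.e (nat_lit 401152) (nat_lit 23) .nil))))) .nil)) 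
(.lf (nat_lit 258634) (.g (nat_lit 2741) (.e (nat_lit 164330) (nat_lit 230) (.e (nat_lit 163869) (nat_lit 2) (.e (nat_lit 196656) (nat_lit 11) (.e (nat_lit 16388) (nat_lit 0) (.e (nat_lit 7309) (nat_lit 388) .nil))))) .nil))) (.nd (nat_lit 6) 
(.lf (nat_lit 258602) (.g (nat_lit 3753) (.e (nat_lit 164329) (nat_lit 230) (.e (nat_lit 163902) (nat_lit 12) (.e (nat_lit 426568) (nat_lit 34) (.e (nat_lit 393268) (nat_lit 23) (.e (nat_lit 426436) (nat_lit 18) (.e (nat_lit 98335) (nat_lit 18) .nil)))))) (.g (nat_lit 0) .nil .nil))) 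
(.lf (nat_lit 258666) (.g (nat_lit 1522) (.e (nat_lit 164330) (nat_lit 230) (.e (nat_lit 163901) (nat_lit 12) (.e (nat_lit 426566) (nat_lit 34) (.e (nat_lit 393273) (nat_lit 23) .nil)))) .nil)))) (.nd (nat_lit 5) (.nd (nat_lit 6) 
(.lf (nat_lit 258586) (.g (nat_lit 2816) (.e (nat_lit 164329) (nat_lit 230) (.e (nat_lit 163902) (nat_lit 12) (.e (nat_lit 426428) (nat_lit 17) (.e (nat_lit 90170) (nat_lit 13) (.e (nat_lit 172113) (nat_lit 10) (.e (nat_lit 434203) (nat_lit 18) (.e (nat_lit 6841) (nat_lit 369) (.e (nat_lit 163862) (nat_lit 1) .nil)))))))) (.g (nat_lit 5) .nil .nil))) 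
(.lf (nat_lit 258650) (.g (nat_lit 2244) (.e (nat_lit 164330) (nat_lit 230) (.e (nat_lit 163884) (nat_lit 5) (.e (nat_lit 221208) (nat_lit 21) (.e (nat_lit 164330) (nat_lit 230) (.e (nat_lit 171776) (nat_lit 66) .nil))))) .nil))) (.nd (nat_lit 6) 
(.lf (nat_lit 258618) (.g (nat_lit 1295) (.e (nat_lit 164329) (nat_lit 230) (.e (nat_lit 163902) (nat_lit 12) (.e (nat_lit 426568) (nat_lit 34) (.e (nat_lit 393274) (nat_lit 23) .nil)))) .nil)) 
(.lf (nat_lit 258682) (.g (nat_lit 2911) (.e (nat_lit 164330) (nat_lit 230) (.e (nat_lit 163902) (nat_lit 12) (.e (nat_lit 426568) (nat_lit 34) (.e (nat_lit 393234) (nat_lit 17) (.e (nat_lit 7309) (nat_lit 388) .nil))))) .nil)))))) (.nd (nat_lit 3) (.nd (nat_lit 4) (.nd (nat_lit 5) (.nd (nat_lit 6) 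
(.lf (nat_lit 258566) (.g (nat_lit 1594) (.e (nat_lit 164329) (nat_lit 230) (.e (nat_lit 163885) (nat_lit 5) (.e (nat_lit 221194) (nat_lit 11) (.e (nat_lit 336085) (nat_lit 9) (.e (nat_lit 336443) (nat_lit 32) .nil))))) .nil)) 
(.lf (nat_lit 258630) (.g (nat_lit 3606) (.e (nat_lit 164330) (nat_lit 230) (.e (nat_lit 163867) (nat_lit 2) (.e (nat_lit 196656) (nat_lit 11) (.e (nat_lit 16435) (nat_lit 9) (.e (nat_lit 426566) (nat_lit 34) (.e (nat_lit 393253) (nat_lit 18) .nil)))))) (.g (nat_lit 5) .nil .nil)))) (.nd (nat_lit 6) 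
(.lf (nat_lit 258598) (.g (nat_lit 1138) (.e (nat_lit 164329) (nat_lit 230) (.e (nat_lit 163902) (nat_lit 12) (.e (nat_lit 426568) (nat_lit 34) (.e (nat_lit 393266) (nat_lit 23) .nil)))) .nil)) 
(.lf (nat_lit 258662) (.g (nat_lit 3134) (.e (nat_lit 164330) (nat_lit 230) (.e (nat_lit 163900) (nat_lit 12) (.e (nat_lit 426566) (nat_lit 34) (.e (nat_lit 393294) (nat_lit 26) (.e (nat_lit 475177) (nat_lit 24) (.e (nat_lit 516120) (nat_lit 1) .nil)))))) (.g (nat_lit 6) .nil .nil))))) (.nd (nat_lit 5) (.nd (nat_lit 6) 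
(.lf (nat_lit 258582) (.g (nat_lit 3307) (.e (nat_lit 164329) (nat_lit 230) (.e (nat_lit 163902) (nat_lit 12) (.e (nat_lit 426428) (nat_lit 17) (.e (nat_lit 90170) (nat_lit 13) (.e (nat_lit 172106) (nat_lit 10) (.e (nat_lit 434202) (nat_lit 18) (.e (nat_lit 6839) (nat_lit 369) (.e (nat_lit 163861) (nat_lit 1) .nil)))))))) (.g (nat_lit 5) .nil .nil))) 
(.lf (nat_lit 258646) (.g (nat_lit 732) (.e (nat_lit 164330) (nat_lit 230) (.e (nat_lit 163874) (nat_lit 3) (.e (nat_lit 204834) (nat_lit 19) .nil))) .nil))) (.nd (nat_lit 6) 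
(.lf (nat_lit 258614) (.g (nat_lit 2456) (.e (nat_lit 164329) (nat_lit 230) (.e (nat_lit 163902) (nat_lit 12) (.e (nat_lit 426568) (nat_lit 34) (.e (nat_lit 393271) (nat_lit 23) (.e (nat_lit 426392) (nat_lit 15) (.e (nat_lit 1796) (nat_lit 119) (.e (nat_lit 516120) (nat_lit 1) .nil))))))) (.g (nat_lit 4) .nil .nil))) 
(.lf (nat_lit 258678) (.g (nat_lit 2300) (.e (nat_lit 164330) (nat_lit 230) (.e (nat_lit 163902) (nat_lit 12) (.e (nat_lit 426479) (nat_lit 27) (.e (nat_lit 336443) (nat_lit 32) (.e (nat_lit 466944) (nat_lit 0) .nil))))) .nil))))) (.nd (nat_lit 4) (.nd (nat_lit 5) (.nd (nat_lit 6) 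
(.lf (nat_lit 258574) (.g (nat_lit 2136) (.e (nat_lit 164329) (nat_lit 230) (.e (nat_lit 163885) (nat_lit 5) (.e (nat_lit 229120) (nat_lit 12) (.e (nat_lit 344117) (nat_lit 21) (.e (nat_lit 516099) (nat_lit 0) (.e (nat_lit 3771) (nat_lit 229) (.e (nat_lit 794683) (nat_lit 25) (.e (nat_lit 221208) (nat_lit 21) .nil)))))))) (.g (nat_lit 5) .nil .nil))) 
(.lf (nat_lit 258638) (.g (nat_lit 3131) (.e (nat_lit 164330) (nat_lit 230) (.e (nat_lit 163869) (nat_lit 2) (.e (nat_lit 196656) (nat_lit 11) (.e (nat_lit 16438) (nat_lit 9) (.e (nat_lit 426566) (nat_lit 34) (.e (nat_lit 393252) (nat_lit 18) .nil)))))) (.g (nat_lit 4) .nil .nil)))) (.nd (nat_lit 6) 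
(.lf (nat_lit 258606) (.g (nat_lit 1796) (.e (nat_lit 164329) (nat_lit 230) (.e (nat_lit 163902) (nat_lit 12) (.e (nat_lit 426568) (nat_lit 34) (.e (nat_lit 393271) (nat_lit 23) (.e (nat_lit 426360) (nat_lit 15) .nil))))) .nil)) 
(.lf (nat_lit 258670) (.g (nat_lit 3786) (.e (nat_lit 164330) (nat_lit 230) (.e (nat_lit 163902) (nat_lit 12) (.e (nat_lit 426428) (nat_lit 17) (.e (nat_lit 90170) (nat_lit 13) (.e (nat_lit 172106) (nat_lit 10) (.e (nat_lit 434202) (nat_lit 18) (.e (nat_lit 6839) (nat_lit 369) (.e (nat_lit 163864) (nat_lit 1) .nil)))))))) (.g (nat_lit 5) .nil .nil))))) (.nd (nat_lit 5) (.nd (nat_lit 6) 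
(.lf (nat_lit 258590) (.g (nat_lit 3212) (.e (nat_lit 164329) (nat_lit 230) (.e (nat_lit 163902) (nat_lit 12) (.e (nat_lit 426479) (nat_lit 27) (.e (nat_lit 336428) (nat_lit 29) (.e (nat_lit 442374) (nat_lit 0) (.e (nat_lit 1800) (nat_lit 119) (.e (nat_lit 516120) (nat_lit 1) .nil))))))) (.g (nat_lit 0) .nil .nil))) 
(.lf (nat_lit 258654) (.g (nat_lit 1686) (.e (nat_lit 164330) (nat_lit 230) (.e (nat_lit 163885) (nat_lit 5) (.e (nat_lit 221194) (nat_lit 11) (.e (nat_lit 336220) (nat_lit 13) (.e (nat_lit 393281) (nat_lit 23) .nil))))) .nil))) (.nd (nat_lit 6) 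
(.lf (nat_lit 258622) (.g (nat_lit 2973) (.e (nat_lit 164329) (nat_lit 230) (.e (nat_lit 163941) (nat_lit 19) (.e (nat_lit 483341) (nat_lit 9) (.e (nat_lit 426107) (nat_lit 1) .nil)))) .nil)) 
(.lf (nat_lit 258686) (.g (nat_lit 1595) (.e (nat_lit 164330) (nat_lit 230) (.e (nat_lit 163902) (nat_lit 12) (.e (nat_lit 426568) (nat_lit 34) (.e (nat_lit 393271) (nat_lit 23) .nil)))) .nil)))))))) (.nd (nat_lit 1) (.nd (nat_lit 2) (.nd (nat_lit 3) (.nd (nat_lit 4) (.nd (nat_lit 5) (.nd (nat_lit 6) 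
(.lf (nat_lit 258561) (.g (nat_lit 1097) (.e (nat_lit 164329) (nat_lit 230) (.e (nat_lit 163885) (nat_lit 5) (.e (nat_lit 221193) (nat_lit 11) (.e (nat_lit 336222) (nat_lit 13) (.e (nat_lit 393274) (nat_lit 23) .nil))))) .nil)) 
(.lf (nat_lit 258625) (.g (nat_lit 3703) (.e (nat_lit 164330) (nat_lit 230) (.e (nat_lit 163850) (nat_lit 0) (.e (nat_lit 3306) (nat_lit 202) (.e (nat_lit 573489) (nat_lit 14) (.e (nat_lit 73755) (nat_lit 8) (.e (nat_lit 557097) (nat_lit 13) (.e (nat_lit 172133) (nat_lit 15) (.e (nat_lit 1800) (nat_lit 119) (.e (nat_lit 516120) (nat_lit 1) .nil))))))))) (.g (nat_lit 5) .nil .nil)))) 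
(.nd (nat_lit 6) 
(.lf (nat_lit 258593) (.g (nat_lit 2320) (.e (nat_lit 164329) (nat_lit 230) (.e (nat_lit 163902) (nat_lit 12) (.e (nat_lit 426566) (nat_lit 34) (.e (nat_lit 393290) (nat_lit 26) (.e (nat_lit 475179) (nat_lit 24) .nil))))) .nil)) 
(.lf (nat_lit 258657) (.g (nat_lit 397) (.e (nat_lit 164330) (nat_lit 230) (.e (nat_lit 163896) (nat_lit 10) (.e (nat_lit 409628) (nat_lit 11) .nil))) .nil)))) (.nd (nat_lit 5) (.nd (nat_lit 6) 
(.lf (nat_lit 258577) (.g (nat_lit 2311) (.e (nat_lit 164329) (nat_lit 230) (.e (nat_lit 163885) (nat_lit 5) (.e (nat_lit 221206) (nat_lit 21) (.e (nat_lit 164330) (nat_lit 230) (.e (nat_lit 171776) (nat_lit 66) .nil))))) .nil)) 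
(.lf (nat_lit 258641) (.g (nat_lit 4562) (.e (nat_lit 164330) (nat_lit 230) (.e (nat_lit 163873) (nat_lit 3) (.e (nat_lit 204813) (nat_lit 9) (.e (nat_lit 426123) (nat_lit 2) .nil)))) .nil))) (.nd (nat_lit 6) 
(.lf (nat_lit 258609) (.g (nat_lit 2131) (.e (nat_lit 164329) (nat_lit 230) (.e (nat_lit 163902) (nat_lit 12) (.e (nat_lit 426568) (nat_lit 34) (.e (nat_lit 393271) (nat_lit 23) (.e (nat_lit 426363) (nat_lit 15) (.e (nat_lit 1781) (nat_lit 119) (.e (nat_lit 516120) (nat_lit 1) .nil))))))) (.g (nat_lit 4) .nil .nil))) 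
(.lf (nat_lit 258673) (.g (nat_lit 2798) (.e (nat_lit 164330) (nat_lit 230) (.e (nat_lit 163902) (nat_lit 12) (.e (nat_lit 426428) (nat_lit 17) (.e (nat_lit 90170) (nat_lit 13) (.e (nat_lit 172113) (nat_lit 10) (.e (nat_lit 434200) (nat_lit 18) (.e (nat_lit 6839) (nat_lit 369) (.e (nat_lit 163862) (nat_lit 1) .nil)))))))) (.g (nat_lit 4) .nil .nil)))))) 
(.nd (nat_lit 4) (.nd (nat_lit 5) (.nd (nat_lit 6) 
(.lf (nat_lit 258569) (.g (nat_lit 1235) (.e (nat_lit 164329) (nat_lit 230) (.e (nat_lit 163885) (nat_lit 5) (.e (nat_lit 221194) (nat_lit 11) (.e (nat_lit 336222) (nat_lit 13) .nil)))) .nil)) 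
(.lf (nat_lit 258633) (.g (nat_lit 3431) (.e (nat_lit 164330) (nat_lit 230) (.e (nat_lit 163869) (nat_lit 2) (.e (nat_lit 196654) (nat_lit 11) (.e (nat_lit 16416) (nat_lit 3) (.e (nat_lit 204836) (nat_lit 20) (.e (nat_lit 114717) (nat_lit 23) (.e (nat_lit 98334) (nat_lit 18) .nil))))))) (.g (nat_lit 4) .nil .nil)))) (.nd (nat_lit 6) 
(.lf (nat_lit 258601) (.g (nat_lit 1951) (.e (nat_lit 164329) (nat_lit 230) (.e (nat_lit 163902) (nat_lit 12) (.e (nat_lit 426568) (nat_lit 34) (.e (nat_lit 393268) (nat_lit 23) (.e (nat_lit 426360) (nat_lit 15) .nil))))) .nil)) 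
(.lf (nat_lit 258665) (.g (nat_lit 1891) (.e (nat_lit 164330) (nat_lit 230) (.e (nat_lit 163900) (nat_lit 12) (.e (nat_lit 426568) (nat_lit 34) (.e (nat_lit 393291) (nat_lit 26) (.e (nat_lit 475177) (nat_lit 24) .nil))))) .nil)))) (.nd (nat_lit 5) (.nd (nat_lit 6) 
(.lf (nat_lit 258585) (.g (nat_lit 3482) (.e (nat_lit 164329) (nat_lit 230) (.e (nat_lit 163902) (nat_lit 12) (.e (nat_lit 426428) (nat_lit 17) (.e (nat_lit 90170) (nat_lit 13) (.e (nat_lit 172113) (nat_lit 10) (.e (nat_lit 434203) (nat_lit 18) (.e (nat_lit 6841) (nat_lit 369) (.e (nat_lit 163860) (nat_lit 1) .nil)))))))) (.g (nat_lit 6) .nil .nil))) 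
(.lf (nat_lit 258649) (.g (nat_lit 2431) (.e (nat_lit 164330) (nat_lit 230) (.e (nat_lit 163884) (nat_lit 5) (.e (nat_lit 221207) (nat_lit 21) (.e (nat_lit 164325) (nat_lit 230) (.e (nat_lit 171776) (nat_lit 66) .nil))))) .nil))) (.nd (nat_lit 6) 
(.lf (nat_lit 258617) (.g (nat_lit 2820) (.e (nat_lit 164329) (nat_lit 230) (.e (nat_lit 163902) (nat_lit 12) (.e (nat_lit 426568) (nat_lit 34) (.e (nat_lit 393273) (nat_lit 23) (.e (nat_lit 426402) (nat_lit 15) (.e (nat_lit 1788) (nat_lit 119) (.e (nat_lit 516116) (nat_lit 1) .nil))))))) (.g (nat_lit 4) .nil .nil))) 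
(.lf (nat_lit 258681) (.g (nat_lit 1899) (.e (nat_lit 164330) (nat_lit 230) (.e (nat_lit 163902) (nat_lit 12) (.e (nat_lit 426568) (nat_lit 34) (.e (nat_lit 393234) (nat_lit 17) .nil)))) .nil)))))) (.nd (nat_lit 3) (.nd (nat_lit 4) (.nd (nat_lit 5) (.nd (nat_lit 6) 
(.lf (nat_lit 258565) (.g (nat_lit 1374) (.e (nat_lit 164329) (nat_lit 230) (.e (nat_lit 163885) (nat_lit 5) (.e (nat_lit 221194) (nat_lit 11) (.e (nat_lit 336085) (nat_lit 9) .nil)))) .nil)) 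
(.lf (nat_lit 258629) (.g (nat_lit 3512) (.e (nat_lit 164330) (nat_lit 230) (.e (nat_lit 163867) (nat_lit 2) (.e (nat_lit 196656) (nat_lit 11) (.e (nat_lit 16435) (nat_lit 9) (.e (nat_lit 426566) (nat_lit 34) (.e (nat_lit 393252) (nat_lit 18) .nil)))))) (.g (nat_lit 5) .nil .nil)))) (.nd (nat_lit 6) 
(.lf (nat_lit 258597) (.g (nat_lit 2255) (.e (nat_lit 164329) (nat_lit 230) (.e (nat_lit 163902) (nat_lit 12) (.e (nat_lit 426568) (nat_lit 34) (.e (nat_lit 393253) (nat_lit 18) (.e (nat_lit 164422) (nat_lit 272) .nil))))) .nil)) 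
(.lf (nat_lit 258661) (.g (nat_lit 2879) (.e (nat_lit 164330) (nat_lit 230) (.e (nat_lit 163900) (nat_lit 12) (.e (nat_lit 426566) (nat_lit 34) (.e (nat_lit 393291) (nat_lit 26) (.e (nat_lit 475177) (nat_lit 24) (.e (nat_lit 516120) (nat_lit 1) .nil)))))) (.g (nat_lit 6) .nil .nil))))) (.nd (nat_lit 5) (.nd (nat_lit 6) 
(.lf (nat_lit 258581) (.g (nat_lit 3387) (.e (nat_lit 164329) (nat_lit 230) (.e (nat_lit 163902) (nat_lit 12) (.e (nat_lit 426428) (nat_lit 17) (.e (nat_lit 90170) (nat_lit 13) (.e (nat_lit 172106) (nat_lit 10) (.e (nat_lit 434202) (nat_lit 18) (.e (nat_lit 6839) (nat_lit 369) (.e (nat_lit 163860) (nat_lit 1) .nil)))))))) (.g (nat_lit 5) .nil .nil))) 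
(.lf (nat_lit 258645) (.g (nat_lit 2275) (.e (nat_lit 164330) (nat_lit 230) (.e (nat_lit 163874) (nat_lit 3) (.e (nat_lit 204831) (nat_lit 18) (.e (nat_lit 57931) (nat_lit 282) (.e (nat_lit 164084) (nat_lit 73) .nil))))) .nil))) (.nd (nat_lit 6) 
(.lf (nat_lit 258613) (.g (nat_lit 2722) (.e (nat_lit 164329) (nat_lit 230) (.e (nat_lit 163902) (nat_lit 12) (.e (nat_lit 426568) (nat_lit 34) (.e (nat_lit 393271) (nat_lit 23) (.e (nat_lit 426392) (nat_lit 15) (.e (nat_lit 1796) (nat_lit 119) (.e (nat_lit 516116) (nat_lit 1) .nil))))))) (.g (nat_lit 4) .nil .nil))) 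
(.lf (nat_lit 258677) (.g (nat_lit 2916) (.e (nat_lit 164330) (nat_lit 230) (.e (nat_lit 163902) (nat_lit 12) (.e (nat_lit 426428) (nat_lit 17) (.e (nat_lit 90170) (nat_lit 13) (.e (nat_lit 172113) (nat_lit 10) (.e (nat_lit 434208) (nat_lit 18) (.e (nat_lit 6841) (nat_lit 369) (.e (nat_lit 163862) (nat_lit 1) .nil)))))))) (.g (nat_lit 4) .nil .nil)))))) 
(.nd (nat_lit 4) (.nd (nat_lit 5) (.nd (nat_lit 6) 
(.lf (nat_lit 258573) (.g (nat_lit 389) (.e (nat_lit 164329) (nat_lit 230) (.e (nat_lit 163885) (nat_lit 5) (.e (nat_lit 229120) (nat_lit 12) .nil))) .nil)) 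
(.lf (nat_lit 258637) (.g (nat_lit 2525) (.e (nat_lit 164330) (nat_lit 230) (.e (nat_lit 163869) (nat_lit 2) (.e (nat_lit 196656) (nat_lit 11) (.e (nat_lit 16436) (nat_lit 9) (.e (nat_lit 426566) (nat_lit 34) (.e (nat_lit 393252) (nat_lit 18) .nil)))))) (.g (nat_lit 4) .nil .nil)))) (.nd (nat_lit 6) 
(.lf (nat_lit 258605) (.g (nat_lit 2061) (.e (nat_lit 164329) (nat_lit 230) (.e (nat_lit 163902) (nat_lit 12) (.e (nat_lit 426568) (nat_lit 34) (.e (nat_lit 393271) (nat_lit 23) (.e (nat_lit 426359) (nat_lit 15) (.e (nat_lit 1781) (nat_lit 119) (.e (nat_lit 516120) (nat_lit 1) .nil))))))) (.g (nat_lit 4) .nil .nil))) 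
(.lf (nat_lit 258669) (.g (nat_lit 4138) (.e (nat_lit 164330) (nat_lit 230) (.e (nat_lit 163902) (nat_lit 12) (.e (nat_lit 426428) (nat_lit 17) (.e (nat_lit 90170) (nat_lit 13) (.e (nat_lit 172106) (nat_lit 10) (.e (nat_lit 434202) (nat_lit 18) (.e (nat_lit 6839) (nat_lit 369) (.e (nat_lit 163862) (nat_lit 1) .nil)))))))) (.g (nat_lit 5) .nil .nil))))) (.nd (nat_lit 5) (.nd (nat_lit 6) 
(.lf (nat_lit 258589) (.g (nat_lit 3138) (.e (nat_lit 164329) (nat_lit 230) (.e (nat_lit 163902) (nat_lit 12) (.e (nat_lit 426479) (nat_lit 27) (.e (nat_lit 336428) (nat_lit 29) (.e (nat_lit 442374) (nat_lit 0) (.e (nat_lit 1800) (nat_lit 119) (.e (nat_lit 516117) (nat_lit 1) .nil))))))) (.g (nat_lit 0) .nil .nil))) 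
(.lf (nat_lit 258653) (.g (nat_lit 2014) (.e (nat_lit 164330) (nat_lit 230) (.e (nat_lit 163885) (nat_lit 5) (.e (nat_lit 221193) (nat_lit 11) (.e (nat_lit 336222) (nat_lit 13) (.e (nat_lit 393281) (nat_lit 23) (.e (nat_lit 426099) (nat_lit 1) .nil)))))) (.g (nat_lit 5) .nil .nil)))) (.nd (nat_lit 6) 
(.lf (nat_lit 258621) (.g (nat_lit 1337) (.e (nat_lit 164329) (nat_lit 230) (.e (nat_lit 163904) (nat_lit 12) (.e (nat_lit 426566) (nat_lit 34) (.e (nat_lit 393293) (nat_lit 26) .nil)))) .nil)) 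
(.lf (nat_lit 258685) (.g (nat_lit 1831) (.e (nat_lit 164330) (nat_lit 230) (.e (nat_lit 163902) (nat_lit 12) (.e (nat_lit 426568) (nat_lit 34) (.e (nat_lit 393269) (nat_lit 23) .nil)))) .nil))))))) (.nd (nat_lit 2) (.nd (nat_lit 3) (.nd (nat_lit 4) (.nd (nat_lit 5) (.nd (nat_lit 6) 
(.lf (nat_lit 258563) (.g (nat_lit 508) (.e (nat_lit 164329) (nat_lit 230) (.e (nat_lit 163885) (nat_lit 5) (.e (nat_lit 221194) (nat_lit 11) .nil))) .nil)) 
(.lf (nat_lit 258627) (.g (nat_lit 2042) (.e (nat_lit 164330) (nat_lit 230) (.e (nat_lit 163867) (nat_lit 2) (.e (nat_lit 196656) (nat_lit 11) (.e (nat_lit 16388) (nat_lit 0) .nil)))) .nil))) (.nd (nat_lit 6) 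
(.lf (nat_lit 258595) (.g (nat_lit 342) (.e (nat_lit 164329) (nat_lit 230) (.e (nat_lit 163902) (nat_lit 12) (.e (nat_lit 426568) (nat_lit 34) .nil))) .nil)) 
(.lf (nat_lit 258659) (.g (nat_lit 2636) (.e (nat_lit 164330) (nat_lit 230) (.e (nat_lit 163900) (nat_lit 12) (.e (nat_lit 426566) (nat_lit 34) (.e (nat_lit 393273) (nat_lit 23) (.e (nat_lit 426436) (nat_lit 18) .nil))))) .nil)))) (.nd (nat_lit 5) (.nd (nat_lit 6) 
(.lf (nat_lit 258579) (.g (nat_lit 2315) (.e (nat_lit 164329) (nat_lit 230) (.e (nat_lit 163885) (nat_lit 5) (.e (nat_lit 221208) (nat_lit 21) (.e (nat_lit 164330) (nat_lit 230) (.e (nat_lit 171776) (nat_lit 66) .nil))))) .nil)) 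
(.lf (nat_lit 258643) (.g (nat_lit 4810) (.e (nat_lit 164330) (nat_lit 230) (.e (nat_lit 163873) (nat_lit 3) (.e (nat_lit 204813) (nat_lit 9) (.e (nat_lit 426408) (nat_lit 15) .nil)))) .nil))) (.nd (nat_lit 6) 
(.lf (nat_lit 258611) (.g (nat_lit 2044) (.e (nat_lit 164329) (nat_lit 230) (.e (nat_lit 163902) (nat_lit 12) (.e (nat_lit 426568) (nat_lit 34) (.e (nat_lit 393271) (nat_lit 23) (.e (nat_lit 426363) (nat_lit 15) (.e (nat_lit 1798) (nat_lit 119) (.e (nat_lit 516120) (nat_lit 1) .nil))))))) (.g (nat_lit 4) .nil .nil))) 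
(.lf (nat_lit 258675) (.g (nat_lit 3498) (.e (nat_lit 164330) (nat_lit 230) (.e (nat_lit 163902) (nat_lit 12) (.e (nat_lit 426428) (nat_lit 17) (.e (nat_lit 90170) (nat_lit 13) (.e (nat_lit 172113) (nat_lit 10) (.e (nat_lit 434203) (nat_lit 18) (.e (nat_lit 6841) (nat_lit 369) (.e (nat_lit 163860) (nat_lit 1) .nil)))))))) (.g (nat_lit 5) .nil .nil)))))) 
(.nd (nat_lit 4) (.nd (nat_lit 5) (.nd (nat_lit 6) 
(.lf (nat_lit 258571) (.g (nat_lit 1994) (.e (nat_lit 164329) (nat_lit 230) (.e (nat_lit 163885) (nat_lit 5) (.e (nat_lit 221194) (nat_lit 11) (.e (nat_lit 336223) (nat_lit 13) (.e (nat_lit 393281) (nat_lit 23) .nil))))) .nil)) 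
(.lf (nat_lit 258635) (.g (nat_lit 1685) (.e (nat_lit 164330) (nat_lit 230) (.e (nat_lit 163869) (nat_lit 2) (.e (nat_lit 196656) (nat_lit 11) (.e (nat_lit 16412) (nat_lit 2) .nil)))) .nil))) (.nd (nat_lit 6) 
(.lf (nat_lit 258603) (.g (nat_lit 2189) (.e (nat_lit 164329) (nat_lit 230) (.e (nat_lit 163902) (nat_lit 12) (.e (nat_lit 426568) (nat_lit 34) (.e (nat_lit 393271) (nat_lit 23) (.e (nat_lit 426355) (nat_lit 15) (.e (nat_lit 1781) (nat_lit 119) (.e (nat_lit 516120) (nat_lit 1) .nil))))))) (.g (nat_lit 4) .nil .nil))) 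
(.lf (nat_lit 258667) (.g (nat_lit 2433) (.e (nat_lit 164330) (nat_lit 230) (.e (nat_lit 163901) (nat_lit 12) (.e (nat_lit 426566) (nat_lit 34) (.e (nat_lit 393273) (nat_lit 23) (.e (nat_lit 426436) (nat_lit 18) .nil))))) .nil)))) (.nd (nat_lit 5) (.nd (nat_lit 6) 
(.lf (nat_lit 258587) (.g (nat_lit 2311) (.e (nat_lit 164329) (nat_lit 230) (.e (nat_lit 163902) (nat_lit 12) (.e (nat_lit 426428) (nat_lit 17) (.e (nat_lit 90170) (nat_lit 13) (.e (nat_lit 172113) (nat_lit 10) (.e (nat_lit 434203) (nat_lit 18) (.e (nat_lit 6846) (nat_lit 370) (.e (nat_lit 229385) (nat_lit 1) .nil)))))))) (.g (nat_lit 4) .nil .nil))) 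
(.lf (nat_lit 258651) (.g (nat_lit 2701) (.e (nat_lit 164330) (nat_lit 230) (.e (nat_lit 163885) (nat_lit 5) (.e (nat_lit 221193) (nat_lit 11) (.e (nat_lit 336213) (nat_lit 13) (.e (nat_lit 393281) (nat_lit 23) (.e (nat_lit 426108) (nat_lit 1) .nil)))))) (.g (nat_lit 4) .nil .nil)))) (.nd (nat_lit 6) 
(.lf (nat_lit 258619) (.g (nat_lit 1905) (.e (nat_lit 164329) (nat_lit 230) (.e (nat_lit 163902) (nat_lit 12) (.e (nat_lit 426568) (nat_lit 34) (.e (nat_lit 393274) (nat_lit 23) (.e (nat_lit 426394) (nat_lit 15) .nil))))) .nil)) 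
(.lf (nat_lit 258683) (.g (nat_lit 1591) (.e (nat_lit 164330) (nat_lit 230) (.e (nat_lit 163902) (nat_lit 12) (.e (nat_lit 426568) (nat_lit 34) (.e (nat_lit 393266) (nat_lit 23) .nil)))) .nil)))))) (.nd (nat_lit 3) (.nd (nat_lit 4) (.nd (nat_lit 5) (.nd (nat_lit 6) 
(.lf (nat_lit 258567) (.g (nat_lit 1300) (.e (nat_lit 164329) (nat_lit 230) (.e (nat_lit 163885) (nat_lit 5) (.e (nat_lit 221194) (nat_lit 11) (.e (nat_lit 336213) (nat_lit 13) .nil)))) .nil)) 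
(.lf (nat_lit 258631) (.g (nat_lit 2604) (.e (nat_lit 164330) (nat_lit 230) (.e (nat_lit 163867) (nat_lit 2) (.e (nat_lit 196656) (nat_lit 11) (.e (nat_lit 16438) (nat_lit 9) (.e (nat_lit 426566) (nat_lit 34) .nil))))) .nil))) (.nd (nat_lit 6) 
(.lf (nat_lit 258599) (.g (nat_lit 3779) (.e (nat_lit 164329) (nat_lit 230) (.e (nat_lit 163902) (nat_lit 12) (.e (nat_lit 426568) (nat_lit 34) (.e (nat_lit 393266) (nat_lit 23) (.e (nat_lit 426436) (nat_lit 18) (.e (nat_lit 98335) (nat_lit 18) .nil)))))) (.g (nat_lit 6) .nil .nil))) 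
(.lf (nat_lit 258663) (.g (nat_lit 1512) (.e (nat_lit 164330) (nat_lit 230) (.e (nat_lit 163900) (nat_lit 12) (.e (nat_lit 426566) (nat_lit 34) (.e (nat_lit 393296) (nat_lit 26) .nil)))) .nil)))) (.nd (nat_lit 5) (.nd (nat_lit 6) 
(.lf (nat_lit 258583) (.g (nat_lit 3267) (.e (nat_lit 164329) (nat_lit 230) (.e (nat_lit 163902) (nat_lit 12) (.e (nat_lit 426428) (nat_lit 17) (.e (nat_lit 90170) (nat_lit 13) (.e (nat_lit 172106) (nat_lit 10) (.e (nat_lit 434202) (nat_lit 18) (.e (nat_lit 6839) (nat_lit 369) (.e (nat_lit 163864) (nat_lit 1) .nil)))))))) (.g (nat_lit 5) .nil .nil))) 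
(.lf (nat_lit 258647) (.g (nat_lit 1294) (.e (nat_lit 164330) (nat_lit 230) (.e (nat_lit 163884) (nat_lit 5) (.e (nat_lit 221190) (nat_lit 11) (.e (nat_lit 336223) (nat_lit 13) (.e (nat_lit 393281) (nat_lit 23) .nil))))) .nil))) (.nd (nat_lit 6) 
(.lf (nat_lit 258615) (.g (nat_lit 3101) (.e (nat_lit 164329) (nat_lit 230) (.e (nat_lit 163902) (nat_lit 12) (.e (nat_lit 426568) (nat_lit 34) (.e (nat_lit 393272) (nat_lit 23) (.e (nat_lit 426436) (nat_lit 18) (.e (nat_lit 98335) (nat_lit 18) .nil)))))) (.g (nat_lit 6) .nil .nil))) 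
(.lf (nat_lit 258679) (.g (nat_lit 295) (.e (nat_lit 164330) (nat_lit 230) (.e (nat_lit 163902) (nat_lit 12) (.e (nat_lit 426566) (nat_lit 34) .nil))) .nil))))) (.nd (nat_lit 4) (.nd (nat_lit 5) (.nd (nat_lit 6) 
(.lf (nat_lit 258575) (.g (nat_lit 389) (.e (nat_lit 164329) (nat_lit 230) (.e (nat_lit 163885) (nat_lit 5) (.e (nat_lit 229120) (nat_lit 13) .nil))) .nil)) 
(.lf (nat_lit 258639) (.g (nat_lit 4413) (.e (nat_lit 164330) (nat_lit 230) (.e (nat_lit 163873) (nat_lit 3) (.e (nat_lit 204813) (nat_lit 9) (.e (nat_lit 426107) (nat_lit 1) .nil)))) .nil))) (.nd (nat_lit 6) 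
(.lf (nat_lit 258607) (.g (nat_lit 2275) (.e (nat_lit 164329) (nat_lit 230) (.e (nat_lit 163902) (nat_lit 12) (.e (nat_lit 426568) (nat_lit 34) (.e (nat_lit 393271) (nat_lit 23) (.e (nat_lit 426361) (nat_lit 15) .nil))))) .nil)) 
(.lf (nat_lit 258671) (.g (nat_lit 3772) (.e (nat_lit 164330) (nat_lit 230) (.e (nat_lit 163902) (nat_lit 12) (.e (nat_lit 426428) (nat_lit 17) (.e (nat_lit 90170) (nat_lit 13) (.e (nat_lit 172106) (nat_lit 10) (.e (nat_lit 434202) (nat_lit 18) (.e (nat_lit 6841) (nat_lit 369) (.e (nat_lit 163860) (nat_lit 1) .nil)))))))) (.g (nat_lit 5) .nil .nil))))) (.nd (nat_lit 5) (.nd (nat_lit 6) 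
(.lf (nat_lit 258591) (.g (nat_lit 2839) (.e (nat_lit 164329) (nat_lit 230) (.e (nat_lit 163902) (nat_lit 12) (.e (nat_lit 426479) (nat_lit 27) (.e (nat_lit 336430) (nat_lit 29) (.e (nat_lit 442379) (nat_lit 0) (.e (nat_lit 1800) (nat_lit 119) (.e (nat_lit 516120) (nat_lit 1) .nil))))))) (.g (nat_lit 0) .nil .nil))) 
(.lf (nat_lit 258655) (.g (nat_lit 444) (.e (nat_lit 164330) (nat_lit 230) (.e (nat_lit 163885) (nat_lit 5) (.e (nat_lit 229120) (nat_lit 11) .nil))) .nil))) (.nd (nat_lit 6) 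
(.lf (nat_lit 258623) (.g (nat_lit 1258) (.e (nat_lit 164330) (nat_lit 230) (.e (nat_lit 163843) (nat_lit 0) (.e (nat_lit 3605) (nat_lit 225) (.e (nat_lit 769792) (nat_lit 10) .nil)))) .nil)) 
(.lf (nat_lit 258687) (.g (nat_lit 1647) (.e (nat_lit 164330) (nat_lit 230) (.e (nat_lit 163902) (nat_lit 12) (.e (nat_lit 426568) (nat_lit 34) (.e (nat_lit 393281) (nat_lit 23) .nil)))) .nil)))))))))

noncomputable def tv3342 : DT := (.nd (nat_lit 0) (.nd (nat_lit 1) (.nd (nat_lit 2) (.nd (nat_lit 3) (.nd (nat_lit 4) (.nd (nat_lit 5) (.nd (nat_lit 6) 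
(.lf (nat_lit 258688) (.g (nat_lit 1853) (.e (nat_lit 164330) (nat_lit 230) (.e (nat_lit 163905) (nat_lit 12) (.e (nat_lit 426566) (nat_lit 34) (.e (nat_lit 393273) (nat_lit 23) (.e (nat_lit 426382) (nat_lit 15) .nil))))) .nil)) 
(.lf (nat_lit 258752) (.g (nat_lit 909) (.e (nat_lit 164332) (nat_lit 230) (.e (nat_lit 163869) (nat_lit 2) (.e (nat_lit 196686) (nat_lit 18) .nil))) .nil))) (.nd (nat_lit 6) 
(.lf (nat_lit 258720) (.g (nat_lit 1831) (.e (nat_lit 164331) (nat_lit 230) (.e (nat_lit 163902) (nat_lit 12) (.e (nat_lit 426568) (nat_lit 34) (.e (nat_lit 393275) (nat_lit 23) .nil)))) .nil)) 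
(.lf (nat_lit 258784) (.g (nat_lit 3101) (.e (nat_lit 164332) (nat_lit 230) (.e (nat_lit 163874) (nat_lit 3) (.e (nat_lit 204838) (nat_lit 20) (.e (nat_lit 114715) (nat_lit 22) (.e (nat_lit 90170) (nat_lit 13) (.e (nat_lit 172138) (nat_lit 15) (.e (nat_lit 1800) (nat_lit 119) (.e (nat_lit 516120) (nat_lit 1) .nil)))))))) (.g (nat_lit 5) .nil .nil))))) (.nd (nat_lit 5) (.nd (nat_lit 6) 
(.lf (nat_lit 258704) (.g (nat_lit 2585) (.e (nat_lit 164331) (nat_lit 230) (.e (nat_lit 163884) (nat_lit 5) (.e (nat_lit 221193) (nat_lit 11) (.e (nat_lit 336076) (nat_lit 9) (.e (nat_lit 336443) (nat_lit 32) (.e (nat_lit 466971) (nat_lit 21) .nil)))))) (.g (nat_lit 4) .nil .nil))) 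
(.lf (nat_lit 258768) (.g (nat_lit 529) (.e (nat_lit 164332) (nat_lit 230) (.e (nat_lit 163874) (nat_lit 3) (.e (nat_lit 204829) (nat_lit 18) .nil))) .nil))) (.nd (nat_lit 6) 
(.lf (nat_lit 258736) (.g (nat_lit 3410) (.e (nat_lit 164332) (nat_lit 230) (.e (nat_lit 163867) (nat_lit 2) (.e (nat_lit 196656) (nat_lit 11) (.e (nat_lit 16438) (nat_lit 9) (.e (nat_lit 426566) (nat_lit 34) (.e (nat_lit 393252) (nat_lit 18) .nil)))))) (.g (nat_lit 6) .nil .nil))) 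
(.lf (nat_lit 258800) (.g (nat_lit 243) (.e (nat_lit 164332) (nat_lit 230) (.e (nat_lit 163884) (nat_lit 5) (.e (nat_lit 229120) (nat_lit 12) .nil))) .nil))))) (.nd (nat_lit 4) (.nd (nat_lit 5) (.nd (nat_lit 6) 
(.lf (nat_lit 258696) (.g (nat_lit 1896) (.e (nat_lit 164330) (nat_lit 230) (.e (nat_lit 171776) (nat_lit 66) (.e (nat_lit 114715) (nat_lit 22) (.e (nat_lit 90170) (nat_lit 13) (.e (nat_lit 172061) (nat_lit 1) (.e (nat_lit 164326) (nat_lit 230) (.e (nat_lit 163886) (nat_lit 5) (.e (nat_lit 221208) (nat_lit 21) .nil)))))))) (.g (nat_lit 4) .nil .nil))) 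
(.lf (nat_lit 258760) (.g (nat_lit 377) (.e (nat_lit 164332) (nat_lit 230) (.e (nat_lit 163874) (nat_lit 3) (.e (nat_lit 204805) (nat_lit 0) .nil))) .nil))) (.nd (nat_lit 6) 
(.lf (nat_lit 258728) (.g (nat_lit 1233) (.e (nat_lit 164332) (nat_lit 230) (.e (nat_lit 163867) (nat_lit 2) (.e (nat_lit 196628) (nat_lit 9) (.e (nat_lit 478) (nat_lit 37) .nil)))) .nil)) 
(.lf (nat_lit 258792) (.g (nat_lit 1604) (.e (nat_lit 164332) (nat_lit 230) (.e (nat_lit 163884) (nat_lit 5) (.e (nat_lit 221193) (nat_lit 11) (.e (nat_lit 336215) (nat_lit 13) (.e (nat_lit 393281) (nat_lit 23) .nil))))) .nil)))) (.nd (nat_lit 5) (.nd (nat_lit 6) 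
(.lf (nat_lit 258712) (.g (nat_lit 1628) (.e (nat_lit 164331) (nat_lit 230) (.e (nat_lit 163902) (nat_lit 12) (.e (nat_lit 426566) (nat_lit 34) (.e (nat_lit 393273) (nat_lit 23) .nil)))) .nil)) 
(.lf (nat_lit 258776) (.g (nat_lit 987) (.e (nat_lit 164332) (nat_lit 230) (.e (nat_lit 163874) (nat_lit 3) (.e (nat_lit 204831) (nat_lit 18) .nil))) .nil))) (.nd (nat_lit 6) 
(.lf (nat_lit 258744) (.g (nat_lit 1691) (.e (nat_lit 164332) (nat_lit 230) (.e (nat_lit 163869) (nat_lit 2) (.e (nat_lit 196655) (nat_lit 11) (.e (nat_lit 16388) (nat_lit 0) (.e (nat_lit 7309) (nat_lit 388) .nil))))) .nil)) 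
(.lf (nat_lit 258808) (.g (nat_lit 2814) (.e (nat_lit 164332) (nat_lit 230) (.e (nat_lit 163884) (nat_lit 5) (.e (nat_lit 229120) (nat_lit 12) (.e (nat_lit 344129) (nat_lit 26) (.e (nat_lit 557103) (nat_lit 14) (.e (nat_lit 180263) (nat_lit 21) (.e (nat_lit 663579) (nat_lit 9) (.e (nat_lit 2611) (nat_lit 163) .nil)))))))) (.g (nat_lit 5) .nil .nil))))))) 
(.nd (nat_lit 3) (.nd (nat_lit 4) (.nd (nat_lit 5) (.nd (nat_lit 6) 
(.lf (nat_lit 258692) (.g (nat_lit 543) (.e (nat_lit 164330) (nat_lit 230) (.e (nat_lit 163913) (nat_lit 12) (.e (nat_lit 433920) (nat_lit 34) .nil))) .nil)) 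
(.lf (nat_lit 258756) (.g (nat_lit 320) (.e (nat_lit 164332) (nat_lit 230) (.e (nat_lit 163873) (nat_lit 3) (.e (nat_lit 204811) (nat_lit 9) .nil))) .nil))) (.nd (nat_lit 6) 
(.lf (nat_lit 258724) (.g (nat_lit 1229) (.e (nat_lit 164332) (nat_lit 230) (.e (nat_lit 163843) (nat_lit 0) (.e (nat_lit 3605) (nat_lit 225) (.e (nat_lit 769792) (nat_lit 10) .nil)))) .nil)) 
(.lf (nat_lit 258788) (.g (nat_lit 2422) (.e (nat_lit 164332) (nat_lit 230) (.e (nat_lit 163884) (nat_lit 5) (.e (nat_lit 221193) (nat_lit 11) (.e (nat_lit 336086) (nat_lit 9) (.e (nat_lit 336443) (nat_lit 32) (.e (nat_lit 466968) (nat_lit 21) .nil)))))) (.g (nat_lit 5) .nil .nil))))) (.nd (nat_lit 5) (.nd (nat_lit 6) 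
(.lf (nat_lit 258708) (.g (nat_lit 730) (.e (nat_lit 164331) (nat_lit 230) (.e (nat_lit 163902) (nat_lit 12) (.e (nat_lit 426481) (nat_lit 27) .nil))) .nil)) 
(.lf (nat_lit 258772) (.g (nat_lit 2355) (.e (nat_lit 164332) (nat_lit 230) (.e (nat_lit 163874) (nat_lit 3) (.e (nat_lit 204830) (nat_lit 18) (.e (nat_lit 57927) (nat_lit 282) (.e (nat_lit 164084) (nat_lit 73) .nil))))) .nil))) (.nd (nat_lit 6) 
(.lf (nat_lit 258740) (.g (nat_lit 2171) (.e (nat_lit 164332) (nat_lit 230) (.e (nat_lit 163869) (nat_lit 2) (.e (nat_lit 196654) (nat_lit 11) (.e (nat_lit 16436) (nat_lit 9) (.e (nat_lit 426480) (nat_lit 27) .nil))))) .nil)) 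
(.lf (nat_lit 258804) (.g (nat_lit 2487) (.e (nat_lit 164332) (nat_lit 230) (.e (nat_lit 163884) (nat_lit 5) (.e (nat_lit 229120) (nat_lit 12) (.e (nat_lit 344117) (nat_lit 21) (.e (nat_lit 516130) (nat_lit 3) (.e (nat_lit 221219) (nat_lit 24) (.e (nat_lit 213019) (nat_lit 9) (.e (nat_lit 2610) (nat_lit 163) .nil)))))))) (.g (nat_lit 5) .nil .nil)))))) 
(.nd (nat_lit 4) (.nd (nat_lit 5) (.nd (nat_lit 6) 
(.lf (nat_lit 258700) (.g (nat_lit 3829) (.e (nat_lit 164331) (nat_lit 230) (.e (nat_lit 163867) (nat_lit 2) (.e (nat_lit 196656) (nat_lit 11) (.e (nat_lit 16435) (nat_lit 9) (.e (nat_lit 426566) (nat_lit 34) (.e (nat_lit 393253) (nat_lit 18) .nil)))))) (.g (nat_lit 5) .nil .nil))) 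
(.lf (nat_lit 258764) (.g (nat_lit 1219) (.e (nat_lit 164332) (nat_lit 230) (.e (nat_lit 163874) (nat_lit 3) (.e (nat_lit 204818) (nat_lit 17) .nil))) .nil))) (.nd (nat_lit 6) 
(.lf (nat_lit 258732) (.g (nat_lit 3947) (.e (nat_lit 164332) (nat_lit 230) (.e (nat_lit 163867) (nat_lit 2) (.e (nat_lit 196656) (nat_lit 11) (.e (nat_lit 16435) (nat_lit 9) (.e (nat_lit 426566) (nat_lit 34) (.e (nat_lit 393253) (nat_lit 18) .nil)))))) (.g (nat_lit 0) .nil .nil))) 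
(.lf (nat_lit 258796) (.g (nat_lit 2706) (.e (nat_lit 164332) (nat_lit 230) (.e (nat_lit 163884) (nat_lit 5) (.e (nat_lit 221194) (nat_lit 11) (.e (nat_lit 336086) (nat_lit 9) (.e (nat_lit 336443) (nat_lit 32) (.e (nat_lit 466968) (nat_lit 21) .nil)))))) (.g (nat_lit 5) .nil .nil))))) (.nd (nat_lit 5) (.nd (nat_lit 6) 
(.lf (nat_lit 258716) (.g (nat_lit 2414) (.e (nat_lit 164331) (nat_lit 230) (.e (nat_lit 163902) (nat_lit 12) (.e (nat_lit 426566) (nat_lit 34) (.e (nat_lit 393295) (nat_lit 26) .nil)))) .nil)) 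
(.lf (nat_lit 258780) (.g (nat_lit 1217) (.e (nat_lit 164332) (nat_lit 230) (.e (nat_lit 163874) (nat_lit 3) (.e (nat_lit 204832) (nat_lit 19) .nil))) .nil))) (.nd (nat_lit 6) 
(.lf (nat_lit 258748) (.g (nat_lit 3227) (.e (nat_lit 164332) (nat_lit 230) (.e (nat_lit 163869) (nat_lit 2) (.e (nat_lit 196656) (nat_lit 11) (.e (nat_lit 16431) (nat_lit 9) (.e (nat_lit 426566) (nat_lit 34) (.e (nat_lit 393252) (nat_lit 18) .nil)))))) (.g (nat_lit 5) .nil .nil))) 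
(.lf (nat_lit 258812) (.g (nat_lit 2203) (.e (nat_lit 164332) (nat_lit 230) (.e (nat_lit 163884) (nat_lit 5) (.e (nat_lit 229120) (nat_lit 12) (.e (nat_lit 344130) (nat_lit 26) (.e (nat_lit 557103) (nat_lit 14) (.e (nat_lit 180263) (nat_lit 21) (.e (nat_lit 663579) (nat_lit 9) (.e (nat_lit 2611) (nat_lit 163) .nil)))))))) (.g (nat_lit 5) .nil .nil)))))))) 
(.nd (nat_lit 2) (.nd (nat_lit 3) (.nd (nat_lit 4) (.nd (nat_lit 5) (.nd (nat_lit 6) 
(.lf (nat_lit 258690) (.g (nat_lit 665) (.e (nat_lit 164330) (nat_lit 230) (.e (nat_lit 163905) (nat_lit 12) (.e (nat_lit 433920) (nat_lit 34) .nil))) .nil)) 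
(.lf (nat_lit 258754) (.g (nat_lit 909) (.e (nat_lit 164332) (nat_lit 230) (.e (nat_lit 163869) (nat_lit 2) (.e (nat_lit 196698) (nat_lit 19) .nil))) .nil))) (.nd (nat_lit 6) 
(.lf (nat_lit 258722) (.g (nat_lit 1751) (.e (nat_lit 164331) (nat_lit 230) (.e (nat_lit 163902) (nat_lit 12) (.e (nat_lit 426568) (nat_lit 34) (.e (nat_lit 393281) (nat_lit 23) .nil)))) .nil)) 
(.lf (nat_lit 258786) (.g (nat_lit 1217) (.e (nat_lit 164332) (nat_lit 230) (.e (nat_lit 163874) (nat_lit 3) (.e (nat_lit 204840) (nat_lit 21) .nil))) .nil)))) (.nd (nat_lit 5) (.nd (nat_lit 6) 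
(.lf (nat_lit 258706) (.g (nat_lit 2248) (.e (nat_lit 164331) (nat_lit 230) (.e (nat_lit 163884) (nat_lit 5) (.e (nat_lit 221194) (nat_lit 11) (.e (nat_lit 336213) (nat_lit 13) (.e (nat_lit 393281) (nat_lit 23) (.e (nat_lit 426099) (nat_lit 1) .nil)))))) (.g (nat_lit 4) .nil .nil))) 
(.lf (nat_lit 258770) (.g (nat_lit 2915) (.e (nat_lit 164332) (nat_lit 230) (.e (nat_lit 163874) (nat_lit 3) (.e (nat_lit 204829) (nat_lit 18) (.e (nat_lit 57931) (nat_lit 282) (.e (nat_lit 164084) (nat_lit 73) .nil))))) .nil))) (.nd (nat_lit 6) 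
(.lf (nat_lit 258738) (.g (nat_lit 3821) (.e (nat_lit 164332) (nat_lit 230) (.e (nat_lit 163869) (nat_lit 2) (.e (nat_lit 196654) (nat_lit 11) (.e (nat_lit 16416) (nat_lit 3) (.e (nat_lit 204817) (nat_lit 17) (.e (nat_lit 2198) (nat_lit 144) (.e (nat_lit 720945) (nat_lit 23) (.e (nat_lit 98334) (nat_lit 18) .nil)))))))) (.g (nat_lit 4) .nil .nil))) 
(.lf (nat_lit 258802) (.g (nat_lit 2335) (.e (nat_lit 164332) (nat_lit 230) (.e (nat_lit 163884) (nat_lit 5) (.e (nat_lit 229120) (nat_lit 12) (.e (nat_lit 344117) (nat_lit 21) (.e (nat_lit 516129) (nat_lit 3) (.e (nat_lit 221217) (nat_lit 24) (.e (nat_lit 213022) (nat_lit 9) (.e (nat_lit 2609) (nat_lit 163) .nil)))))))) (.g (nat_lit 5) .nil .nil)))))) 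
(.nd (nat_lit 4) (.nd (nat_lit 5) (.nd (nat_lit 6) 
(.lf (nat_lit 258698) (.g (nat_lit 735) (.e (nat_lit 164331) (nat_lit 230) (.e (nat_lit 163850) (nat_lit 0) (.e (nat_lit 3613) (nat_lit 226) (.e (nat_lit 770076) (nat_lit 12) .nil)))) .nil)) 
(.lf (nat_lit 258762) (.g (nat_lit 1221) (.e (nat_lit 164332) (nat_lit 230) (.e (nat_lit 163874) (nat_lit 3) (.e (nat_lit 204815) (nat_lit 17) .nil))) .nil))) (.nd (nat_lit 6) 
(.lf (nat_lit 258730) (.g (nat_lit 1457) (.e (nat_lit 164332) (nat_lit 230) (.e (nat_lit 163867) (nat_lit 2) (.e (nat_lit 196656) (nat_lit 11) (.e (nat_lit 16392) (nat_lit 0) (.e (nat_lit 7936) (nat_lit 388) .nil))))) .nil)) 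
(.lf (nat_lit 258794) (.g (nat_lit 1896) (.e (nat_lit 164332) (nat_lit 230) (.e (nat_lit 163884) (nat_lit 5) (.e (nat_lit 221193) (nat_lit 11) (.e (nat_lit 336222) (nat_lit 13) (.e (nat_lit 393274) (nat_lit 23) (.e (nat_lit 426097) (nat_lit 1) .nil)))))) (.g (nat_lit 4) .nil .nil))))) (.nd (nat_lit 5) (.nd (nat_lit 6) 
(.lf (nat_lit 258714) (.g (nat_lit 2649) (.e (nat_lit 164331) (nat_lit 230) (.e (nat_lit 163902) (nat_lit 12) (.e (nat_lit 426566) (nat_lit 34) (.e (nat_lit 393290) (nat_lit 26) .nil)))) .nil)) 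
(.lf (nat_lit 258778) (.g (nat_lit 2553) (.e (nat_lit 164332) (nat_lit 230) (.e (nat_lit 163874) (nat_lit 3) (.e (nat_lit 204831) (nat_lit 18) (.e (nat_lit 57930) (nat_lit 282) (.e (nat_lit 164084) (nat_lit 73) .nil))))) .nil))) (.nd (nat_lit 6) 
(.lf (nat_lit 258746) (.g (nat_lit 2019) (.e (nat_lit 164332) (nat_lit 230) (.e (nat_lit 163869) (nat_lit 2) (.e (nat_lit 196656) (nat_lit 11) (.e (nat_lit 16392) (nat_lit 0) (.e (nat_lit 7936) (nat_lit 388) .nil))))) .nil)) 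
(.lf (nat_lit 258810) (.g (nat_lit 2488) (.e (nat_lit 164332) (nat_lit 230) (.e (nat_lit 163884) (nat_lit 5) (.e (nat_lit 229120) (nat_lit 12) (.e (nat_lit 344130) (nat_lit 26) (.e (nat_lit 557103) (nat_lit 14) (.e (nat_lit 180225) (nat_lit 0) (.e (nat_lit 5968) (nat_lit 324) (.e (nat_lit 163861) (nat_lit 1) .nil)))))))) (.g (nat_lit 5) .nil .nil))))))) 
(.nd (nat_lit 3) (.nd (nat_lit 4) (.nd (nat_lit 5) (.nd (nat_lit 6) 
(.lf (nat_lit 258694) (.g (nat_lit 2498) (.e (nat_lit 164330) (nat_lit 230) (.e (nat_lit 171776) (nat_lit 66) (.e (nat_lit 114714) (nat_lit 22) (.e (nat_lit 90170) (nat_lit 13) (.e (nat_lit 172059) (nat_lit 1) (.e (nat_lit 164327) (nat_lit 230) (.e (nat_lit 163886) (nat_lit 5) (.e (nat_lit 221206) (nat_lit 21) .nil)))))))) (.g (nat_lit 4) .nil .nil))) 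
(.lf (nat_lit 258758) (.g (nat_lit 3384) (.e (nat_lit 164332) (nat_lit 230) (.e (nat_lit 163873) (nat_lit 3) (.e (nat_lit 204813) (nat_lit 9) (.e (nat_lit 426186) (nat_lit 9) (.e (nat_lit 426566) (nat_lit 34) .nil))))) .nil))) (.nd (nat_lit 6) 
(.lf (nat_lit 258726) (.g (nat_lit 889) (.e (nat_lit 164332) (nat_lit 230) (.e (nat_lit 163862) (nat_lit 1) (.e (nat_lit 164332) (nat_lit 230) (.e (nat_lit 163885) (nat_lit 5) (.e (nat_lit 221219) (nat_lit 24) .nil))))) .nil)) 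
(.lf (nat_lit 258790) (.g (nat_lit 2914) (.e (nat_lit 164332) (nat_lit 230) (.e (nat_lit 163884) (nat_lit 5) (.e (nat_lit 221193) (nat_lit 11) (.e (nat_lit 336213) (nat_lit 13) (.e (nat_lit 393281) (nat_lit 23) (.e (nat_lit 426099) (nat_lit 1) .nil)))))) (.g (nat_lit 5) .nil .nil))))) (.nd (nat_lit 5) (.nd (nat_lit 6) 
(.lf (nat_lit 258710) (.g (nat_lit 1406) (.e (nat_lit 164331) (nat_lit 230) (.e (nat_lit 163902) (nat_lit 12) (.e (nat_lit 426566) (nat_lit 34) (.e (nat_lit 393270) (nat_lit 23) .nil)))) .nil)) 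
(.lf (nat_lit 258774) (.g (nat_lit 2993) (.e (nat_lit 164332) (nat_lit 230) (.e (nat_lit 163874) (nat_lit 3) (.e (nat_lit 204830) (nat_lit 18) (.e (nat_lit 57931) (nat_lit 282) (.e (nat_lit 164084) (nat_lit 73) (.e (nat_lit 336012) (nat_lit 2) (.e (nat_lit 90185) (nat_lit 17) (.e (nat_lit 237582) (nat_lit 1) .nil)))))))) (.g (nat_lit 4) .nil .nil)))) (.nd (nat_lit 6) 
(.lf (nat_lit 258742) (.g (nat_lit 4039) (.e (nat_lit 164332) (nat_lit 230) (.e (nat_lit 163869) (nat_lit 2) (.e (nat_lit 196654) (nat_lit 11) (.e (nat_lit 16438) (nat_lit 9) (.e (nat_lit 426566) (nat_lit 34) (.e (nat_lit 393253) (nat_lit 18) .nil)))))) (.g (nat_lit 0) .nil .nil))) 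
(.lf (nat_lit 258806) (.g (nat_lit 1262) (.e (nat_lit 164332) (nat_lit 230) (.e (nat_lit 163884) (nat_lit 5) (.e (nat_lit 229120) (nat_lit 12) (.e (nat_lit 344119) (nat_lit 21) (.e (nat_lit 516131) (nat_lit 3) (.e (nat_lit 221219) (nat_lit 24) (.e (nat_lit 213022) (nat_lit 9) (.e (nat_lit 2609) (nat_lit 163) .nil)))))))) (.g (nat_lit 4) .nil .nil)))))) 
(.nd (nat_lit 4) (.nd (nat_lit 5) (.nd (nat_lit 6) 
(.lf (nat_lit 258702) (.g (nat_lit 2523) (.e (nat_lit 164331) (nat_lit 230) (.e (nat_lit 163867) (nat_lit 2) (.e (nat_lit 196656) (nat_lit 11) (.e (nat_lit 16438) (nat_lit 9) (.e (nat_lit 426566) (nat_lit 34) .nil))))) .nil)) 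
(.lf (nat_lit 258766) (.g (nat_lit 1148) (.e (nat_lit 164332) (nat_lit 230) (.e (nat_lit 163874) (nat_lit 3) (.e (nat_lit 204821) (nat_lit 17) .nil))) .nil))) (.nd (nat_lit 6) 
(.lf (nat_lit 258734) (.g (nat_lit 3797) (.e (nat_lit 164332) (nat_lit 230) (.e (nat_lit 163867) (nat_lit 2) (.e (nat_lit 196656) (nat_lit 11) (.e (nat_lit 16436) (nat_lit 9) (.e (nat_lit 426566) (nat_lit 34) (.e (nat_lit 393253) (nat_lit 18) .nil)))))) (.g (nat_lit 0) .nil .nil))) 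
(.lf (nat_lit 258798) (.g (nat_lit 1192) (.e (nat_lit 164332) (nat_lit 230) (.e (nat_lit 163884) (nat_lit 5) (.e (nat_lit 221194) (nat_lit 11) (.e (nat_lit 336221) (nat_lit 13) (.e (nat_lit 393274) (nat_lit 23) .nil))))) .nil)))) (.nd (nat_lit 5) (.nd (nat_lit 6) 
(.lf (nat_lit 258718) (.g (nat_lit 644) (.e (nat_lit 164331) (nat_lit 230) (.e (nat_lit 163902) (nat_lit 12) (.e (nat_lit 426568) (nat_lit 34) .nil))) .nil)) 
(.lf (nat_lit 258782) (.g (nat_lit 2692) (.e (nat_lit 164332) (nat_lit 230) (.e (nat_lit 163874) (nat_lit 3) (.e (nat_lit 204837) (nat_lit 20) (.e (nat_lit 114714) (nat_lit 22) (.e (nat_lit 90169) (nat_lit 13) (.e (nat_lit 172133) (nat_lit 15) (.e (nat_lit 1800) (nat_lit 119) (.e (nat_lit 516117) (nat_lit 1) .nil)))))))) (.g (nat_lit 4) .nil .nil)))) (.nd (nat_lit 6) 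
(.lf (nat_lit 258750) (.g (nat_lit 1407) (.e (nat_lit 164332) (nat_lit 230) (.e (nat_lit 163869) (nat_lit 2) (.e (nat_lit 196661) (nat_lit 12) (.e (nat_lit 57497) (nat_lit 36) .nil)))) .nil)) 
(.lf (nat_lit 258814) (.g (nat_lit 1703) (.e (nat_lit 164332) (nat_lit 230) (.e (nat_lit 163884) (nat_lit 5) (.e (nat_lit 229120) (nat_lit 12) (.e (nat_lit 344130) (nat_lit 26) (.e (nat_lit 557104) (nat_lit 14) (.e (nat_lit 180265) (nat_lit 21) (.e (nat_lit 663579) (nat_lit 9) (.e (nat_lit 2611) (nat_lit 163) .nil)))))))) (.g (nat_lit 5) .nil .nil))))))))) 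
(.nd (nat_lit 1) (.nd (nat_lit 2) (.nd (nat_lit 3) (.nd (nat_lit 4) (.nd (nat_lit 5) 
(.nd (nat_lit 6) 
(.lf (nat_lit 258689) (.g (nat_lit 1638) (.e (nat_lit 164330) (nat_lit 230) (.e (nat_lit 163905) (nat_lit 12) (.e (nat_lit 426568) (nat_lit 34) (.e (nat_lit 393275) (nat_lit 23) .nil)))) .nil)) 
(.lf (nat_lit 258753) (.g (nat_lit 1043) (.e (nat_lit 164332) (nat_lit 230) (.e (nat_lit 163869) (nat_lit 2) (.e (nat_lit 196686) (nat_lit 18) (.e (nat_lit 1342) (nat_lit 101) .nil)))) .nil))) (.nd (nat_lit 6) 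
(.lf (nat_lit 258721) (.g (nat_lit 1761) (.e (nat_lit 164331) (nat_lit 230) (.e (nat_lit 163902) (nat_lit 12) (.e (nat_lit 426568) (nat_lit 34) (.e (nat_lit 393279) (nat_lit 23) .nil)))) .nil)) 
(.lf (nat_lit 258785) (.g (nat_lit 2448) (.e (nat_lit 164332) (nat_lit 230) (.e (nat_lit 163874) (nat_lit 3) (.e (nat_lit 204838) (nat_lit 20) (.e (nat_lit 114716) (nat_lit 22) (.e (nat_lit 90169) (nat_lit 13) (.e (nat_lit 172133) (nat_lit 15) (.e (nat_lit 1800) (nat_lit 119) (.e (nat_lit 516117) (nat_lit 1) .nil)))))))) (.g (nat_lit 4) .nil .nil))))) (.nd (nat_lit 5) (.nd (nat_lit 6) 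
(.lf (nat_lit 258705) (.g (nat_lit 1709) (.e (nat_lit 164331) (nat_lit 230) (.e (nat_lit 163884) (nat_lit 5) (.e (nat_lit 221193) (nat_lit 11) (.e (nat_lit 336215) (nat_lit 13) (.e (nat_lit 393281) (nat_lit 23) .nil))))) .nil)) 
(.lf (nat_lit 258769) (.g (nat_lit 2366) (.e (nat_lit 164332) (nat_lit 230) (.e (nat_lit 163874) (nat_lit 3) (.e (nat_lit 204829) (nat_lit 18) (.e (nat_lit 57926) (nat_lit 282) (.e (nat_lit 164084) (nat_lit 73) .nil))))) .nil))) (.nd (nat_lit 6) 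
(.lf (nat_lit 258737) (.g (nat_lit 1158) (.e (nat_lit 164332) (nat_lit 230) (.e (nat_lit 163869) (nat_lit 2) (.e (nat_lit 196649) (nat_lit 10) (.e (nat_lit 8497) (nat_lit 182) .nil)))) .nil)) 
(.lf (nat_lit 258801) (.g (nat_lit 2745) (.e (nat_lit 164332) (nat_lit 230) (.e (nat_lit 163884) (nat_lit 5) (.e (nat_lit 229120) (nat_lit 12) (.e (nat_lit 344117) (nat_lit 21) (.e (nat_lit 516129) (nat_lit 3) (.e (nat_lit 221217) (nat_lit 24) (.e (nat_lit 213019) (nat_lit 9) (.e (nat_lit 2610) (nat_lit 163) .nil)))))))) (.g (nat_lit 5) .nil .nil)))))) 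
(.nd (nat_lit 4) (.nd (nat_lit 5) (.nd (nat_lit 6) 
(.lf (nat_lit 258697) (.g (nat_lit 2127) (.e (nat_lit 164330) (nat_lit 230) (.e (nat_lit 171776) (nat_lit 66) (.e (nat_lit 114718) (nat_lit 23) (.e (nat_lit 98365) (nat_lit 26) (.e (nat_lit 426099) (nat_lit 1) (.e (nat_lit 164332) (nat_lit 230) (.e (nat_lit 163885) (nat_lit 5) (.e (nat_lit 221208) (nat_lit 21) .nil)))))))) (.g (nat_lit 4) .nil .nil))) 
(.lf (nat_lit 258761) (.g (nat_lit 722) (.e (nat_lit 164332) (nat_lit 230) (.e (nat_lit 163874) (nat_lit 3) (.e (nat_lit 204810) (nat_lit 9) .nil))) .nil))) (.nd (nat_lit 6) 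
(.lf (nat_lit 258729) (.g (nat_lit 2310) (.e (nat_lit 164332) (nat_lit 230) (.e (nat_lit 163867) (nat_lit 2) (.e (nat_lit 196656) (nat_lit 11) (.e (nat_lit 16388) (nat_lit 0) (.e (nat_lit 7309) (nat_lit 388) .nil))))) .nil)) 
(.lf (nat_lit 258793) (.g (nat_lit 735) (.e (nat_lit 164332) (nat_lit 230) (.e (nat_lit 163884) (nat_lit 5) (.e (nat_lit 221193) (nat_lit 11) (.e (nat_lit 336221) (nat_lit 13) .nil)))) .nil)))) (.nd (nat_lit 5) (.nd (nat_lit 6) 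
(.lf (nat_lit 258713) (.g (nat_lit 2962) (.e (nat_lit 164331) (nat_lit 230) (.e (nat_lit 163902) (nat_lit 12) (.e (nat_lit 426566) (nat_lit 34) (.e (nat_lit 393273) (nat_lit 23) (.e (nat_lit 426436) (nat_lit 18) (.e (nat_lit 98335) (nat_lit 18) .nil)))))) (.g (nat_lit 4) .nil .nil))) 
(.lf (nat_lit 258777) (.g (nat_lit 1850) (.e (nat_lit 164332) (nat_lit 230) (.e (nat_lit 163874) (nat_lit 3) (.e (nat_lit 204831) (nat_lit 18) (.e (nat_lit 57929) (nat_lit 282) .nil)))) .nil))) (.nd (nat_lit 6) 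
(.lf (nat_lit 258745) (.g (nat_lit 2330) (.e (nat_lit 164332) (nat_lit 230) (.e (nat_lit 163869) (nat_lit 2) (.e (nat_lit 196656) (nat_lit 11) (.e (nat_lit 16388) (nat_lit 0) (.e (nat_lit 7309) (nat_lit 388) .nil))))) .nil)) 
(.lf (nat_lit 258809) (.g (nat_lit 2591) (.e (nat_lit 164332) (nat_lit 230) (.e (nat_lit 163884) (nat_lit 5) (.e (nat_lit 229120) (nat_lit 12) (.e (nat_lit 344129) (nat_lit 26) (.e (nat_lit 557104) (nat_lit 14) (.e (nat_lit 180265) (nat_lit 21) (.e (nat_lit 663579) (nat_lit 9) (.e (nat_lit 2611) (nat_lit 163) .nil)))))))) (.g (nat_lit 5) .nil .nil))))))) 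
(.nd (nat_lit 3) (.nd (nat_lit 4) (.nd (nat_lit 5) (.nd (nat_lit 6) 
(.lf (nat_lit 258693) (.g (nat_lit 869) (.e (nat_lit 164330) (nat_lit 230) (.e (nat_lit 163943) (nat_lit 19) (.e (nat_lit 483350) (nat_lit 17) .nil))) .nil)) 
(.lf (nat_lit 258757) (.g (nat_lit 3751) (.e (nat_lit 164332) (nat_lit 230) (.e (nat_lit 163873) (nat_lit 3) (.e (nat_lit 204813) (nat_lit 9) (.e (nat_lit 426107) (nat_lit 1) .nil)))) .nil))) (.nd (nat_lit 6) 
(.lf (nat_lit 258725) (.g (nat_lit 1564) (.e (nat_lit 164332) (nat_lit 230) (.e (nat_lit 163843) (nat_lit 0) (.e (nat_lit 3774) (nat_lit 229) (.e (nat_lit 794637) (nat_lit 11) (.e (nat_lit 336223) (nat_lit 13) .nil))))) .nil)) 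
(.lf (nat_lit 258789) (.g (nat_lit 1452) (.e (nat_lit 164332) (nat_lit 230) (.e (nat_lit 163884) (nat_lit 5) (.e (nat_lit 221193) (nat_lit 11) (.e (nat_lit 336203) (nat_lit 12) (.e (nat_lit 392960) (nat_lit 15) .nil))))) .nil)))) (.nd (nat_lit 5) (.nd (nat_lit 6) 
(.lf (nat_lit 258709) (.g (nat_lit 712) (.e (nat_lit 164331) (nat_lit 230) (.e (nat_lit 163902) (nat_lit 12) (.e (nat_lit 426564) (nat_lit 34) .nil))) .nil)) 
(.lf (nat_lit 258773) (.g (nat_lit 2239) (.e (nat_lit 164332) (nat_lit 230) (.e (nat_lit 163874) (nat_lit 3) (.e (nat_lit 204830) (nat_lit 18) (.e (nat_lit 57930) (nat_lit 282) (.e (nat_lit 164084) (nat_lit 73) .nil))))) .nil))) (.nd (nat_lit 6) 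
(.lf (nat_lit 258741) (.g (nat_lit 1892) (.e (nat_lit 164332) (nat_lit 230) (.e (nat_lit 163869) (nat_lit 2) (.e (nat_lit 196654) (nat_lit 11) (.e (nat_lit 16436) (nat_lit 9) (.e (nat_lit 426564) (nat_lit 34) .nil))))) .nil)) 
(.lf (nat_lit 258805) (.g (nat_lit 2437) (.e (nat_lit 164332) (nat_lit 230) (.e (nat_lit 163884) (nat_lit 5) (.e (nat_lit 229120) (nat_lit 12) (.e (nat_lit 344117) (nat_lit 21) (.e (nat_lit 516130) (nat_lit 3) (.e (nat_lit 221219) (nat_lit 24) (.e (nat_lit 213022) (nat_lit 9) (.e (nat_lit 2609) (nat_lit 163) .nil)))))))) (.g (nat_lit 5) .nil .nil)))))) 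
(.nd (nat_lit 4) (.nd (nat_lit 5) (.nd (nat_lit 6) 
(.lf (nat_lit 258701) (.g (nat_lit 2120) (.e (nat_lit 164331) (nat_lit 230) (.e (nat_lit 163867) (nat_lit 2) (.e (nat_lit 196656) (nat_lit 11) (.e (nat_lit 16436) (nat_lit 9) (.e (nat_lit 426566) (nat_lit 34) .nil))))) .nil)) 
(.lf (nat_lit 258765) (.g (nat_lit 1210) (.e (nat_lit 164332) (nat_lit 230) (.e (nat_lit 163874) (nat_lit 3) (.e (nat_lit 204819) (nat_lit 17) .nil))) .nil))) (.nd (nat_lit 6) 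
(.lf (nat_lit 258733) (.g (nat_lit 1940) (.e (nat_lit 164332) (nat_lit 230) (.e (nat_lit 163867) (nat_lit 2) (.e (nat_lit 196656) (nat_lit 11) (.e (nat_lit 16436) (nat_lit 9) (.e (nat_lit 426486) (nat_lit 27) .nil))))) .nil)) 
(.lf (nat_lit 258797) (.g (nat_lit 1875) (.e (nat_lit 164332) (nat_lit 230) (.e (nat_lit 163884) (nat_lit 5) (.e (nat_lit 221194) (nat_lit 11) (.e (nat_lit 336215) (nat_lit 13) (.e (nat_lit 393274) (nat_lit 23) .nil))))) .nil)))) (.nd (nat_lit 5) (.nd (nat_lit 6) 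
(.lf (nat_lit 258717) (.g (nat_lit 755) (.e (nat_lit 164331) (nat_lit 230) (.e (nat_lit 163902) (nat_lit 12) (.e (nat_lit 426567) (nat_lit 34) .nil))) .nil)) 
(.lf (nat_lit 258781) (.g (nat_lit 1217) (.e (nat_lit 164332) (nat_lit 230) (.e (nat_lit 163874) (nat_lit 3) (.e (nat_lit 204835) (nat_lit 19) .nil))) .nil))) (.nd (nat_lit 6) 
(.lf (nat_lit 258749) (.g (nat_lit 820) (.e (nat_lit 164332) (nat_lit 230) (.e (nat_lit 163869) (nat_lit 2) (.e (nat_lit 196661) (nat_lit 12) .nil))) .nil)) 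
(.lf (nat_lit 258813) (.g (nat_lit 1520) (.e (nat_lit 164332) (nat_lit 230) (.e (nat_lit 163884) (nat_lit 5) (.e (nat_lit 229120) (nat_lit 12) (.e (nat_lit 344130) (nat_lit 26) (.e (nat_lit 557104) (nat_lit 14) (.e (nat_lit 180226) (nat_lit 0) (.e (nat_lit 5968) (nat_lit 324) (.e (nat_lit 163864) (nat_lit 1) .nil)))))))) (.g (nat_lit 5) .nil .nil)))))))) 
(.nd (nat_lit 2) (.nd (nat_lit 3) (.nd (nat_lit 4) (.nd (nat_lit 5) (.nd (nat_lit 6) 
(.lf (nat_lit 258691) (.g (nat_lit 594) (.e (nat_lit 164330) (nat_lit 230) (.e (nat_lit 163913) (nat_lit 12) (.e (nat_lit 426563) (nat_lit 34) .nil))) .nil)) 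
(.lf (nat_lit 258755) (.g (nat_lit 2168) (.e (nat_lit 164332) (nat_lit 230) (.e (nat_lit 163873) (nat_lit 3) (.e (nat_lit 204809) (nat_lit 9) (.e (nat_lit 426139) (nat_lit 3) (.e (nat_lit 204817) (nat_lit 17) (.e (nat_lit 2198) (nat_lit 144) (.e (nat_lit 720945) (nat_lit 23) (.e (nat_lit 98334) (nat_lit 18) .nil)))))))) (.g (nat_lit 4) .nil .nil)))) (.nd (nat_lit 6) 
(.lf (nat_lit 258723) (.g (nat_lit 2590) (.e (nat_lit 164331) (nat_lit 230) (.e (nat_lit 163905) (nat_lit 12) (.e (nat_lit 426566) (nat_lit 34) (.e (nat_lit 393273) (nat_lit 23) (.e (nat_lit 426436) (nat_lit 18) .nil))))) .nil)) 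
(.lf (nat_lit 258787) (.g (nat_lit 1824) (.e (nat_lit 164332) (nat_lit 230) (.e (nat_lit 163884) (nat_lit 5) (.e (nat_lit 221190) (nat_lit 11) (.e (nat_lit 336215) (nat_lit 13) (.e (nat_lit 393281) (nat_lit 23) .nil))))) .nil)))) (.nd (nat_lit 5) (.nd (nat_lit 6) 
(.lf (nat_lit 258707) (.g (nat_lit 1774) (.e (nat_lit 164331) (nat_lit 230) (.e (nat_lit 163902) (nat_lit 12) (.e (nat_lit 426479) (nat_lit 27) (.e (nat_lit 336414) (nat_lit 27) (.e (nat_lit 426228) (nat_lit 9) .nil))))) .nil)) 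
(.lf (nat_lit 258771) (.g (nat_lit 548) (.e (nat_lit 164332) (nat_lit 230) (.e (nat_lit 163874) (nat_lit 3) (.e (nat_lit 204830) (nat_lit 18) .nil))) .nil))) (.nd (nat_lit 6) 
(.lf (nat_lit 258739) (.g (nat_lit 1525) (.e (nat_lit 164332) (nat_lit 230) (.e (nat_lit 163869) (nat_lit 2) (.e (nat_lit 196654) (nat_lit 11) (.e (nat_lit 16432) (nat_lit 9) .nil)))) .nil)) 
(.lf (nat_lit 258803) (.g (nat_lit 2345) (.e (nat_lit 164332) (nat_lit 230) (.e (nat_lit 163884) (nat_lit 5) (.e (nat_lit 229120) (nat_lit 12) (.e (nat_lit 344117) (nat_lit 21) (.e (nat_lit 516130) (nat_lit 3) (.e (nat_lit 221219) (nat_lit 24) (.e (nat_lit 213013) (nat_lit 9) (.e (nat_lit 2611) (nat_lit 163) .nil)))))))) (.g (nat_lit 5) .nil .nil)))))) 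
(.nd (nat_lit 4) (.nd (nat_lit 5) (.nd (nat_lit 6) 
(.lf (nat_lit 258699) (.g (nat_lit 1961) (.e (nat_lit 164331) (nat_lit 230) (.e (nat_lit 163867) (nat_lit 2) (.e (nat_lit 196656) (nat_lit 11) (.e (nat_lit 16388) (nat_lit 0) .nil)))) .nil)) 
(.lf (nat_lit 258763) (.g (nat_lit 1216) (.e (nat_lit 164332) (nat_lit 230) (.e (nat_lit 163874) (nat_lit 3) (.e (nat_lit 204817) (nat_lit 17) .nil))) .nil))) (.nd (nat_lit 6) 
(.lf (nat_lit 258731) (.g (nat_lit 3645) (.e (nat_lit 164332) (nat_lit 230) (.e (nat_lit 163867) (nat_lit 2) (.e (nat_lit 196656) (nat_lit 11) (.e (nat_lit 16435) (nat_lit 9) (.e (nat_lit 426566) (nat_lit 34) (.e (nat_lit 393252) (nat_lit 18) .nil)))))) (.g (nat_lit 0) .nil .nil))) 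
(.lf (nat_lit 258795) (.g (nat_lit 2790) (.e (nat_lit 164332) (nat_lit 230) (.e (nat_lit 163884) (nat_lit 5) (.e (nat_lit 221193) (nat_lit 11) (.e (nat_lit 336222) (nat_lit 13) (.e (nat_lit 393279) (nat_lit 23) (.e (nat_lit 426110) (nat_lit 1) .nil)))))) (.g (nat_lit 6) .nil .nil))))) (.nd (nat_lit 5) (.nd (nat_lit 6) 
(.lf (nat_lit 258715) (.g (nat_lit 3169) (.e (nat_lit 164331) (nat_lit 230) (.e (nat_lit 163902) (nat_lit 12) (.e (nat_lit 426566) (nat_lit 34) (.e (nat_lit 393292) (nat_lit 26) .nil)))) .nil)) 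
(.lf (nat_lit 258779) (.g (nat_lit 2516) (.e (nat_lit 164332) (nat_lit 230) (.e (nat_lit 163874) (nat_lit 3) (.e (nat_lit 204831) (nat_lit 18) (.e (nat_lit 57931) (nat_lit 282) (.e (nat_lit 164084) (nat_lit 73) .nil))))) .nil))) (.nd (nat_lit 6) 
(.lf (nat_lit 258747) (.g (nat_lit 3166) (.e (nat_lit 164332) (nat_lit 230) (.e (nat_lit 163869) (nat_lit 2) (.e (nat_lit 196656) (nat_lit 11) (.e (nat_lit 16416) (nat_lit 3) (.e (nat_lit 204817) (nat_lit 17) (.e (nat_lit 2198) (nat_lit 144) (.e (nat_lit 720945) (nat_lit 23) (.e (nat_lit 98334) (nat_lit 18) .nil)))))))) (.g (nat_lit 4) .nil .nil))) 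
(.lf (nat_lit 258811) (.g (nat_lit 1884) (.e (nat_lit 164332) (nat_lit 230) (.e (nat_lit 163884) (nat_lit 5) (.e (nat_lit 229120) (nat_lit 12) (.e (nat_lit 344130) (nat_lit 26) (.e (nat_lit 557103) (nat_lit 14) (.e (nat_lit 180263) (nat_lit 21) (.e (nat_lit 663579) (nat_lit 9) (.e (nat_lit 2599) (nat_lit 163) .nil)))))))) (.g (nat_lit 5) .nil .nil))))))) 
(.nd (nat_lit 3) (.nd (nat_lit 4) (.nd (nat_lit 5) (.nd (nat_lit 6) 
(.lf (nat_lit 258695) (.g (nat_lit 2356) (.e (nat_lit 164330) (nat_lit 230) (.e (nat_lit 171776) (nat_lit 66) (.e (nat_lit 114715) (nat_lit 22) (.e (nat_lit 90170) (nat_lit 13) (.e (nat_lit 172059) (nat_lit 1) (.e (nat_lit 164327) (nat_lit 230) (.e (nat_lit 163886) (nat_lit 5) (.e (nat_lit 221206) (nat_lit 21) .nil)))))))) (.g (nat_lit 4) .nil .nil))) 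
(.lf (nat_lit 258759) (.g (nat_lit 2348) (.e (nat_lit 164332) (nat_lit 230) (.e (nat_lit 163873) (nat_lit 3) (.e (nat_lit 204829) (nat_lit 18) (.e (nat_lit 57927) (nat_lit 282) (.e (nat_lit 164084) (nat_lit 73) .nil))))) .nil))) (.nd (nat_lit 6) 
(.lf (nat_lit 258727) (.g (nat_lit 3177) (.e (nat_lit 164332) (nat_lit 230) (.e (nat_lit 163866) (nat_lit 2) (.e (nat_lit 196654) (nat_lit 11) (.e (nat_lit 16436) (nat_lit 9) (.e (nat_lit 426568) (nat_lit 34) (.e (nat_lit 393253) (nat_lit 18) .nil)))))) (.g (nat_lit 0) .nil .nil))) 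
(.lf (nat_lit 258791) (.g (nat_lit 1880) (.e (nat_lit 164332) (nat_lit 230) (.e (nat_lit 163884) (nat_lit 5) (.e (nat_lit 221193) (nat_lit 11) (.e (nat_lit 336215) (nat_lit 13) (.e (nat_lit 393279) (nat_lit 23) .nil))))) .nil)))) (.nd (nat_lit 5) (.nd (nat_lit 6) 
(.lf (nat_lit 258711) (.g (nat_lit 1986) (.e (nat_lit 164331) (nat_lit 230) (.e (nat_lit 163902) (nat_lit 12) (.e (nat_lit 426566) (nat_lit 34) (.e (nat_lit 393272) (nat_lit 23) .nil)))) .nil)) 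
(.lf (nat_lit 258775) (.g (nat_lit 3196) (.e (nat_lit 164332) (nat_lit 230) (.e (nat_lit 163874) (nat_lit 3) (.e (nat_lit 204830) (nat_lit 18) (.e (nat_lit 57931) (nat_lit 282) (.e (nat_lit 164084) (nat_lit 73) (.e (nat_lit 336012) (nat_lit 2) (.e (nat_lit 90185) (nat_lit 17) (.e (nat_lit 237585) (nat_lit 1) .nil)))))))) (.g (nat_lit 4) .nil .nil)))) (.nd (nat_lit 6) 
(.lf (nat_lit 258743) (.g (nat_lit 1044) (.e (nat_lit 164332) (nat_lit 230) (.e (nat_lit 163869) (nat_lit 2) (.e (nat_lit 196655) (nat_lit 11) (.e (nat_lit 16388) (nat_lit 0) .nil)))) .nil)) 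
(.lf (nat_lit 258807) (.g (nat_lit 1224) (.e (nat_lit 164332) (nat_lit 230) (.e (nat_lit 163884) (nat_lit 5) (.e (nat_lit 229120) (nat_lit 12) (.e (nat_lit 344120) (nat_lit 21) (.e (nat_lit 516131) (nat_lit 3) (.e (nat_lit 221219) (nat_lit 24) (.e (nat_lit 213022) (nat_lit 9) (.e (nat_lit 2609) (nat_lit 163) .nil)))))))) (.g (nat_lit 4) .nil .nil)))))) 
(.nd (nat_lit 4) (.nd (nat_lit 5) (.nd (nat_lit 6) 
(.lf (nat_lit 258703) (.g (nat_lit 3410) (.e (nat_lit 164331) (nat_lit 230) (.e (nat_lit 163873) (nat_lit 3) (.e (nat_lit 204813) (nat_lit 9) (.e (nat_lit 426186) (nat_lit 9) (.e (nat_lit 426566) (nat_lit 34) .nil))))) .nil)) 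
(.lf (nat_lit 258767) (.g (nat_lit 1202) (.e (nat_lit 164332) (nat_lit 230) (.e (nat_lit 163874) (nat_lit 3) (.e (nat_lit 204822) (nat_lit 17) .nil))) .nil))) (.nd (nat_lit 6) 
(.lf (nat_lit 258735) (.g (nat_lit 1904) (.e (nat_lit 164332) (nat_lit 230) (.e (nat_lit 163867) (nat_lit 2) (.e (nat_lit 196656) (nat_lit 11) (.e (nat_lit 16438) (nat_lit 9) (.e (nat_lit 426530) (nat_lit 27) .nil))))) .nil)) 
(.lf (nat_lit 258799) (.g (nat_lit 956) (.e (nat_lit 164332) (nat_lit 230) (.e (nat_lit 163884) (nat_lit 5) (.e (nat_lit 221194) (nat_lit 11) (.e (nat_lit 336222) (nat_lit 13) .nil)))) .nil)))) (.nd (nat_lit 5) (.nd (nat_lit 6) 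
(.lf (nat_lit 258719) (.g (nat_lit 1803) (.e (nat_lit 164331) (nat_lit 230) (.e (nat_lit 163902) (nat_lit 12) (.e (nat_lit 426568) (nat_lit 34) (.e (nat_lit 393267) (nat_lit 23) .nil)))) .nil)) 
(.lf (nat_lit 258783) (.g (nat_lit 2292) (.e (nat_lit 164332) (nat_lit 230) (.e (nat_lit 163874) (nat_lit 3) (.e (nat_lit 204838) (nat_lit 20) (.e (nat_lit 114714) (nat_lit 22) (.e (nat_lit 90169) (nat_lit 13) (.e (nat_lit 172133) (nat_lit 15) (.e (nat_lit 1800) (nat_lit 119) (.e (nat_lit 516117) (nat_lit 1) .nil)))))))) (.g (nat_lit 4) .nil .nil)))) (.nd (nat_lit 6) 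
(.lf (nat_lit 258751) (.g (nat_lit 909) (.e (nat_lit 164332) (nat_lit 230) (.e (nat_lit 163869) (nat_lit 2) (.e (nat_lit 196683) (nat_lit 18) .nil))) .nil)) 
(.lf (nat_lit 258815) (.g (nat_lit 2283) (.e (nat_lit 164332) (nat_lit 230) (.e (nat_lit 163884) (nat_lit 5) (.e (nat_lit 221207) (nat_lit 21) (.e (nat_lit 164325) (nat_lit 230) (.e (nat_lit 171776) (nat_lit 66) .nil))))) .nil)))))))))

noncomputable def tv3343 : DT := (.nd (nat_lit 0) (.nd (nat_lit 1) (.nd (nat_lit 2) (.nd (nat_lit 3) (.nd (nat_lit 4) (.nd (nat_lit 5) 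
(.lf (nat_lit 258816) (.g (nat_lit 2096) (.e (nat_lit 164332) (nat_lit 230) (.e (nat_lit 163884) (nat_lit 5) (.e (nat_lit 221208) (nat_lit 21) (.e (nat_lit 164330) (nat_lit 230) (.e (nat_lit 171776) (nat_lit 66) .nil))))) .nil)) 
(.lf (nat_lit 258848) (.g (nat_lit 2414) (.e (nat_lit 164332) (nat_lit 230) (.e (nat_lit 163885) (nat_lit 5) (.e (nat_lit 229120) (nat_lit 12) (.e (nat_lit 344129) (nat_lit 26) (.e (nat_lit 557104) (nat_lit 14) (.e (nat_lit 180226) (nat_lit 0) (.e (nat_lit 5968) (nat_lit 324) (.e (nat_lit 163864) (nat_lit 1) .nil)))))))) (.g (nat_lit 5) .nil .nil)))) (.nd (nat_lit 5) 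
(.lf (nat_lit 258832) (.g (nat_lit 4135) (.e (nat_lit 164332) (nat_lit 230) (.e (nat_lit 163885) (nat_lit 5) (.e (nat_lit 221194) (nat_lit 11) (.e (nat_lit 336088) (nat_lit 9) (.e (nat_lit 336443) (nat_lit 32) (.e (nat_lit 466971) (nat_lit 21) .nil)))))) (.g (nat_lit 6) .nil .nil))) 
(.lf (nat_lit 258864) (.g (nat_lit 2287) (.e (nat_lit 164332) (nat_lit 230) (.e (nat_lit 163885) (nat_lit 5) (.e (nat_lit 221206) (nat_lit 21) (.e (nat_lit 164330) (nat_lit 230) (.e (nat_lit 171776) (nat_lit 66) .nil))))) .nil)))) (.nd (nat_lit 4) (.nd (nat_lit 5) 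
(.lf (nat_lit 258824) (.g (nat_lit 334) (.e (nat_lit 164332) (nat_lit 230) (.e (nat_lit 163885) (nat_lit 5) (.e (nat_lit 221193) (nat_lit 11) .nil))) .nil)) 
(.lf (nat_lit 258856) (.g (nat_lit 2458) (.e (nat_lit 164332) (nat_lit 230) (.e (nat_lit 163885) (nat_lit 5) (.e (nat_lit 229120) (nat_lit 12) (.e (nat_lit 344133) (nat_lit 26) (.e (nat_lit 557105) (nat_lit 14) (.e (nat_lit 180226) (nat_lit 0) (.e (nat_lit 5967) (nat_lit 324) (.e (nat_lit 163864) (nat_lit 1) .nil)))))))) (.g (nat_lit 5) .nil .nil)))) (.nd (nat_lit 5) 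
(.lf (nat_lit 258840) (.g (nat_lit 2260) (.e (nat_lit 164332) (nat_lit 230) (.e (nat_lit 163885) (nat_lit 5) (.e (nat_lit 229120) (nat_lit 12) (.e (nat_lit 344117) (nat_lit 21) (.e (nat_lit 516129) (nat_lit 3) (.e (nat_lit 221217) (nat_lit 24) (.e (nat_lit 213022) (nat_lit 9) (.e (nat_lit 2609) (nat_lit 163) .nil)))))))) (.g (nat_lit 5) .nil .nil))) 
(.lf (nat_lit 258872) (.g (nat_lit 398) (.e (nat_lit 164332) (nat_lit 230) (.e (nat_lit 163885) (nat_lit 5) (.e (nat_lit 221208) (nat_lit 21) .nil))) .nil))))) (.nd (nat_lit 3) (.nd (nat_lit 4) (.nd (nat_lit 5) 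
(.lf (nat_lit 258820) (.g (nat_lit 2784) (.e (nat_lit 164332) (nat_lit 230) (.e (nat_lit 163885) (nat_lit 5) (.e (nat_lit 221190) (nat_lit 11) (.e (nat_lit 336215) (nat_lit 13) (.e (nat_lit 393281) (nat_lit 23) (.e (nat_lit 426100) (nat_lit 1) .nil)))))) (.g (nat_lit 4) .nil .nil))) 
(.lf (nat_lit 258852) (.g (nat_lit 1897) (.e (nat_lit 164332) (nat_lit 230) (.e (nat_lit 163885) (nat_lit 5) (.e (nat_lit 229120) (nat_lit 12) (.e (nat_lit 344130) (nat_lit 26) (.e (nat_lit 557104) (nat_lit 14) (.e (nat_lit 180227) (nat_lit 0) (.e (nat_lit 5968) (nat_lit 324) (.e (nat_lit 163864) (nat_lit 1) .nil)))))))) (.g (nat_lit 5) .nil .nil)))) (.nd (nat_lit 5) 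
(.lf (nat_lit 258836) (.g (nat_lit 326) (.e (nat_lit 164332) (nat_lit 230) (.e (nat_lit 163885) (nat_lit 5) (.e (nat_lit 229120) (nat_lit 11) .nil))) .nil)) 
(.lf (nat_lit 258868) (.g (nat_lit 2000) (.e (nat_lit 164332) (nat_lit 230) (.e (nat_lit 163885) (nat_lit 5) (.e (nat_lit 221207) (nat_lit 21) (.e (nat_lit 164322) (nat_lit 230) (.e (nat_lit 171776) (nat_lit 66) .nil))))) .nil)))) (.nd (nat_lit 4) (.nd (nat_lit 5) 
(.lf (nat_lit 258828) (.g (nat_lit 1849) (.e (nat_lit 164332) (nat_lit 230) (.e (nat_lit 163885) (nat_lit 5) (.e (nat_lit 221193) (nat_lit 11) (.e (nat_lit 336215) (nat_lit 13) (.e (nat_lit 393274) (nat_lit 23) .nil))))) .nil)) 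
(.lf (nat_lit 258860) (.g (nat_lit 326) (.e (nat_lit 164332) (nat_lit 230) (.e (nat_lit 163885) (nat_lit 5) (.e (nat_lit 229120) (nat_lit 16) .nil))) .nil))) (.nd (nat_lit 5) 
(.lf (nat_lit 258844) (.g (nat_lit 3442) (.e (nat_lit 164332) (nat_lit 230) (.e (nat_lit 163885) (nat_lit 5) (.e (nat_lit 229120) (nat_lit 12) (.e (nat_lit 344129) (nat_lit 26) (.e (nat_lit 557103) (nat_lit 14) (.e (nat_lit 180225) (nat_lit 0) (.e (nat_lit 5968) (nat_lit 324) (.e (nat_lit 163861) (nat_lit 1) .nil)))))))) (.g (nat_lit 5) .nil .nil))) 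
(.lf (nat_lit 258876) (.g (nat_lit 1563) (.e (nat_lit 164332) (nat_lit 230) (.e (nat_lit 163901) (nat_lit 12) (.e (nat_lit 426566) (nat_lit 34) (.e (nat_lit 393273) (nat_lit 23) .nil)))) .nil)))))) (.nd (nat_lit 2) (.nd (nat_lit 3) (.nd (nat_lit 4) (.nd (nat_lit 5) 
(.lf (nat_lit 258818) (.g (nat_lit 885) (.e (nat_lit 164332) (nat_lit 230) (.e (nat_lit 163885) (nat_lit 5) (.e (nat_lit 221190) (nat_lit 11) (.e (nat_lit 336214) (nat_lit 13) .nil)))) .nil)) 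
(.lf (nat_lit 258850) (.g (nat_lit 3560) (.e (nat_lit 164332) (nat_lit 230) (.e (nat_lit 163885) (nat_lit 5) (.e (nat_lit 229120) (nat_lit 12) (.e (nat_lit 344129) (nat_lit 26) (.e (nat_lit 557104) (nat_lit 14) (.e (nat_lit 180265) (nat_lit 21) (.e (nat_lit 663580) (nat_lit 9) (.e (nat_lit 2607) (nat_lit 163) .nil)))))))) (.g (nat_lit 6) .nil .nil)))) (.nd (nat_lit 5) 
(.lf (nat_lit 258834) (.g (nat_lit 1060) (.e (nat_lit 164332) (nat_lit 230) (.e (nat_lit 163885) (nat_lit 5) (.e (nat_lit 221194) (nat_lit 11) (.e (nat_lit 336215) (nat_lit 13) .nil)))) .nil)) 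
(.lf (nat_lit 258866) (.g (nat_lit 597) (.e (nat_lit 164332) (nat_lit 230) (.e (nat_lit 163885) (nat_lit 5) (.e (nat_lit 221207) (nat_lit 21) .nil))) .nil)))) (.nd (nat_lit 4) (.nd (nat_lit 5) 
(.lf (nat_lit 258826) (.g (nat_lit 1406) (.e (nat_lit 164332) (nat_lit 230) (.e (nat_lit 163885) (nat_lit 5) (.e (nat_lit 221193) (nat_lit 11) (.e (nat_lit 336203) (nat_lit 12) (.e (nat_lit 392960) (nat_lit 15) .nil))))) .nil)) 
(.lf (nat_lit 258858) (.g (nat_lit 3734) (.e (nat_lit 164332) (nat_lit 230) (.e (nat_lit 163885) (nat_lit 5) (.e (nat_lit 229120) (nat_lit 12) (.e (nat_lit 344133) (nat_lit 26) (.e (nat_lit 557105) (nat_lit 14) (.e (nat_lit 180265) (nat_lit 21) (.e (nat_lit 663580) (nat_lit 9) (.e (nat_lit 2607) (nat_lit 163) .nil)))))))) (.g (nat_lit 6) .nil .nil)))) (.nd (nat_lit 5) 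
(.lf (nat_lit 258842) (.g (nat_lit 2669) (.e (nat_lit 164332) (nat_lit 230) (.e (nat_lit 163885) (nat_lit 5) (.e (nat_lit 229120) (nat_lit 12) (.e (nat_lit 344117) (nat_lit 21) (.e (nat_lit 516130) (nat_lit 3) (.e (nat_lit 221219) (nat_lit 24) (.e (nat_lit 213013) (nat_lit 9) (.e (nat_lit 2611) (nat_lit 163) .nil)))))))) (.g (nat_lit 5) .nil .nil))) 
(.lf (nat_lit 258874) (.g (nat_lit 2098) (.e (nat_lit 164332) (nat_lit 230) (.e (nat_lit 163885) (nat_lit 5) (.e (nat_lit 221208) (nat_lit 21) (.e (nat_lit 164330) (nat_lit 230) (.e (nat_lit 171776) (nat_lit 66) .nil))))) .nil))))) (.nd (nat_lit 3) (.nd (nat_lit 4) (.nd (nat_lit 5) 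
(.lf (nat_lit 258822) (.g (nat_lit 371) (.e (nat_lit 164332) (nat_lit 230) (.e (nat_lit 163885) (nat_lit 5) (.e (nat_lit 221191) (nat_lit 11) .nil))) .nil)) 
(.lf (nat_lit 258854) (.g (nat_lit 2990) (.e (nat_lit 164332) (nat_lit 230) (.e (nat_lit 163885) (nat_lit 5) (.e (nat_lit 229120) (nat_lit 12) (.e (nat_lit 344132) (nat_lit 26) (.e (nat_lit 557105) (nat_lit 14) (.e (nat_lit 180265) (nat_lit 21) (.e (nat_lit 663580) (nat_lit 9) (.e (nat_lit 2607) (nat_lit 163) .nil)))))))) (.g (nat_lit 6) .nil .nil)))) (.nd (nat_lit 5) 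
(.lf (nat_lit 258838) (.g (nat_lit 2859) (.e (nat_lit 164332) (nat_lit 230) (.e (nat_lit 163885) (nat_lit 5) (.e (nat_lit 229120) (nat_lit 12) (.e (nat_lit 344117) (nat_lit 21) (.e (nat_lit 516129) (nat_lit 3) (.e (nat_lit 221217) (nat_lit 24) (.e (nat_lit 213019) (nat_lit 9) (.e (nat_lit 2610) (nat_lit 163) .nil)))))))) (.g (nat_lit 5) .nil .nil))) 
(.lf (nat_lit 258870) (.g (nat_lit 3707) (.e (nat_lit 164332) (nat_lit 230) (.e (nat_lit 163885) (nat_lit 5) (.e (nat_lit 221207) (nat_lit 21) (.e (nat_lit 164325) (nat_lit 230) (.e (nat_lit 171776) (nat_lit 66) (.e (nat_lit 114715) (nat_lit 22) (.e (nat_lit 90170) (nat_lit 13) (.e (nat_lit 172059) (nat_lit 1) .nil)))))))) (.g (nat_lit 4) .nil .nil))))) (.nd (nat_lit 4) (.nd (nat_lit 5) 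
(.lf (nat_lit 258830) (.g (nat_lit 1185) (.e (nat_lit 164332) (nat_lit 230) (.e (nat_lit 163885) (nat_lit 5) (.e (nat_lit 221194) (nat_lit 11) (.e (nat_lit 336085) (nat_lit 9) .nil)))) .nil)) 
(.lf (nat_lit 258862) (.g (nat_lit 553) (.e (nat_lit 164332) (nat_lit 230) (.e (nat_lit 163885) (nat_lit 5) (.e (nat_lit 221206) (nat_lit 21) .nil))) .nil))) (.nd (nat_lit 5) 
(.lf (nat_lit 258846) (.g (nat_lit 3115) (.e (nat_lit 164332) (nat_lit 230) (.e (nat_lit 163885) (nat_lit 5) (.e (nat_lit 229120) (nat_lit 12) (.e (nat_lit 344129) (nat_lit 26) (.e (nat_lit 557103) (nat_lit 14) (.e (nat_lit 180263) (nat_lit 21) (.e (nat_lit 663579) (nat_lit 9) (.e (nat_lit 2611) (nat_lit 163) .nil)))))))) (.g (nat_lit 5) .nil .nil))) 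
(.lf (nat_lit 258878) (.g (nat_lit 3336) (.e (nat_lit 164332) (nat_lit 230) (.e (nat_lit 163902) (nat_lit 12) (.e (nat_lit 426428) (nat_lit 17) (.e (nat_lit 90170) (nat_lit 13) (.e (nat_lit 172106) (nat_lit 10) (.e (nat_lit 434200) (nat_lit 18) (.e (nat_lit 6839) (nat_lit 369) (.e (nat_lit 163861) (nat_lit 1) .nil)))))))) (.g (nat_lit 5) .nil .nil)))))))) 
(.nd (nat_lit 1) (.nd (nat_lit 2) (.nd (nat_lit 3) (.nd (nat_lit 4) (.nd (nat_lit 5) 
(.lf (nat_lit 258817) (.g (nat_lit 505) (.e (nat_lit 164332) (nat_lit 230) (.e (nat_lit 163885) (nat_lit 5) (.e (nat_lit 221190) (nat_lit 11) .nil))) .nil)) 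
(.lf (nat_lit 258849) (.g (nat_lit 2892) (.e (nat_lit 164332) (nat_lit 230) (.e (nat_lit 163885) (nat_lit 5) (.e (nat_lit 229120) (nat_lit 12) (.e (nat_lit 344129) (nat_lit 26) (.e (nat_lit 557104) (nat_lit 14) (.e (nat_lit 180265) (nat_lit 21) (.e (nat_lit 663579) (nat_lit 9) (.e (nat_lit 2611) (nat_lit 163) .nil)))))))) (.g (nat_lit 5) .nil .nil)))) (.nd (nat_lit 5) 
(.lf (nat_lit 258833) (.g (nat_lit 1536) (.e (nat_lit 164332) (nat_lit 230) (.e (nat_lit 163885) (nat_lit 5) (.e (nat_lit 221194) (nat_lit 11) (.e (nat_lit 336212) (nat_lit 13) .nil)))) .nil)) 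
(.lf (nat_lit 258865) (.g (nat_lit 2529) (.e (nat_lit 164332) (nat_lit 230) (.e (nat_lit 163885) (nat_lit 5) (.e (nat_lit 221206) (nat_lit 21) (.e (nat_lit 164330) (nat_lit 230) (.e (nat_lit 171776) (nat_lit 66) (.e (nat_lit 114716) (nat_lit 22) (.e (nat_lit 90185) (nat_lit 17) (.e (nat_lit 237585) (nat_lit 1) .nil)))))))) (.g (nat_lit 4) .nil .nil))))) (.nd (nat_lit 4) (.nd (nat_lit 5) 
(.lf (nat_lit 258825) (.g (nat_lit 2654) (.e (nat_lit 164332) (nat_lit 230) (.e (nat_lit 163885) (nat_lit 5) (.e (nat_lit 221193) (nat_lit 11) (.e (nat_lit 336086) (nat_lit 9) (.e (nat_lit 336443) (nat_lit 32) (.e (nat_lit 466968) (nat_lit 21) .nil)))))) (.g (nat_lit 5) .nil .nil))) 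
(.lf (nat_lit 258857) (.g (nat_lit 2993) (.e (nat_lit 164332) (nat_lit 230) (.e (nat_lit 163885) (nat_lit 5) (.e (nat_lit 229120) (nat_lit 12) (.e (nat_lit 344133) (nat_lit 26) (.e (nat_lit 557105) (nat_lit 14) (.e (nat_lit 180227) (nat_lit 0) (.e (nat_lit 5967) (nat_lit 324) (.e (nat_lit 163864) (nat_lit 1) .nil)))))))) (.g (nat_lit 6) .nil .nil)))) (.nd (nat_lit 5) 
(.lf (nat_lit 258841) (.g (nat_lit 1874) (.e (nat_lit 164332) (nat_lit 230) (.e (nat_lit 163885) (nat_lit 5) (.e (nat_lit 229120) (nat_lit 12) (.e (nat_lit 344117) (nat_lit 21) (.e (nat_lit 516130) (nat_lit 3) (.e (nat_lit 221218) (nat_lit 24) (.e (nat_lit 213016) (nat_lit 9) (.e (nat_lit 2601) (nat_lit 163) .nil)))))))) (.g (nat_lit 4) .nil .nil))) 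
(.lf (nat_lit 258873) (.g (nat_lit 1767) (.e (nat_lit 164332) (nat_lit 230) (.e (nat_lit 163885) (nat_lit 5) (.e (nat_lit 221208) (nat_lit 21) (.e (nat_lit 164329) (nat_lit 230) (.e (nat_lit 171776) (nat_lit 66) (.e (nat_lit 114716) (nat_lit 22) (.e (nat_lit 90185) (nat_lit 17) (.e (nat_lit 237585) (nat_lit 1) .nil)))))))) (.g (nat_lit 4) .nil .nil)))))) 
(.nd (nat_lit 3) (.nd (nat_lit 4) (.nd (nat_lit 5) 
(.lf (nat_lit 258821) (.g (nat_lit 1699) (.e (nat_lit 164332) (nat_lit 230) (.e (nat_lit 163885) (nat_lit 5) (.e (nat_lit 221190) (nat_lit 11) (.e (nat_lit 336215) (nat_lit 13) (.e (nat_lit 401152) (nat_lit 23) .nil))))) .nil)) 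
(.lf (nat_lit 258853) (.g (nat_lit 2326) (.e (nat_lit 164332) (nat_lit 230) (.e (nat_lit 163885) (nat_lit 5) (.e (nat_lit 229120) (nat_lit 12) (.e (nat_lit 344130) (nat_lit 26) (.e (nat_lit 557104) (nat_lit 14) (.e (nat_lit 180264) (nat_lit 21) (.e (nat_lit 663580) (nat_lit 9) (.e (nat_lit 2611) (nat_lit 163) .nil)))))))) (.g (nat_lit 5) .nil .nil)))) (.nd (nat_lit 5) 
(.lf (nat_lit 258837) (.g (nat_lit 326) (.e (nat_lit 164332) (nat_lit 230) (.e (nat_lit 163885) (nat_lit 5) (.e (nat_lit 229120) (nat_lit 12) .nil))) .nil)) 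
(.lf (nat_lit 258869) (.g (nat_lit 2730) (.e (nat_lit 164332) (nat_lit 230) (.e (nat_lit 163885) (nat_lit 5) (.e (nat_lit 221207) (nat_lit 21) (.e (nat_lit 164325) (nat_lit 230) (.e (nat_lit 171776) (nat_lit 66) .nil))))) .nil)))) (.nd (nat_lit 4) (.nd (nat_lit 5) 
(.lf (nat_lit 258829) (.g (nat_lit 426) (.e (nat_lit 164332) (nat_lit 230) (.e (nat_lit 163885) (nat_lit 5) (.e (nat_lit 221194) (nat_lit 11) .nil))) .nil)) 
(.lf (nat_lit 258861) (.g (nat_lit 329) (.e (nat_lit 164332) (nat_lit 230) (.e (nat_lit 163885) (nat_lit 5) (.e (nat_lit 221198) (nat_lit 20) .nil))) .nil))) (.nd (nat_lit 5) 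
(.lf (nat_lit 258845) (.g (nat_lit 2782) (.e (nat_lit 164332) (nat_lit 230) (.e (nat_lit 163885) (nat_lit 5) (.e (nat_lit 229120) (nat_lit 12) (.e (nat_lit 344129) (nat_lit 26) (.e (nat_lit 557103) (nat_lit 14) (.e (nat_lit 180263) (nat_lit 21) (.e (nat_lit 663579) (nat_lit 9) (.e (nat_lit 2599) (nat_lit 163) .nil)))))))) (.g (nat_lit 5) .nil .nil))) 
(.lf (nat_lit 258877) (.g (nat_lit 3455) (.e (nat_lit 164332) (nat_lit 230) (.e (nat_lit 163902) (nat_lit 12) (.e (nat_lit 426428) (nat_lit 17) (.e (nat_lit 90170) (nat_lit 13) (.e (nat_lit 172106) (nat_lit 10) (.e (nat_lit 434200) (nat_lit 18) (.e (nat_lit 6838) (nat_lit 369) (.e (nat_lit 163864) (nat_lit 1) .nil)))))))) (.g (nat_lit 5) .nil .nil))))))) 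
(.nd (nat_lit 2) (.nd (nat_lit 3) (.nd (nat_lit 4) (.nd (nat_lit 5) 
(.lf (nat_lit 258819) (.g (nat_lit 2533) (.e (nat_lit 164332) (nat_lit 230) (.e (nat_lit 163885) (nat_lit 5) (.e (nat_lit 221190) (nat_lit 11) (.e (nat_lit 336215) (nat_lit 13) (.e (nat_lit 393281) (nat_lit 23) (.e (nat_lit 426099) (nat_lit 1) .nil)))))) (.g (nat_lit 4) .nil .nil))) 
(.lf (nat_lit 258851) (.g (nat_lit 1720) (.e (nat_lit 164332) (nat_lit 230) (.e (nat_lit 163885) (nat_lit 5) (.e (nat_lit 229120) (nat_lit 12) (.e (nat_lit 344130) (nat_lit 26) (.e (nat_lit 557104) (nat_lit 14) (.e (nat_lit 180226) (nat_lit 0) (.e (nat_lit 5966) (nat_lit 324) (.e (nat_lit 163864) (nat_lit 1) .nil)))))))) (.g (nat_lit 5) .nil .nil)))) (.nd (nat_lit 5) 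
(.lf (nat_lit 258835) (.g (nat_lit 2065) (.e (nat_lit 164332) (nat_lit 230) (.e (nat_lit 163885) (nat_lit 5) (.e (nat_lit 221194) (nat_lit 11) (.e (nat_lit 336215) (nat_lit 13) (.e (nat_lit 393274) (nat_lit 23) .nil))))) .nil)) 
(.lf (nat_lit 258867) (.g (nat_lit 2796) (.e (nat_lit 164332) (nat_lit 230) (.e (nat_lit 163885) (nat_lit 5) (.e (nat_lit 221207) (nat_lit 21) (.e (nat_lit 164319) (nat_lit 228) (.e (nat_lit 57421) (nat_lit 13) (.e (nat_lit 344133) (nat_lit 26) (.e (nat_lit 557098) (nat_lit 13) (.e (nat_lit 172060) (nat_lit 1) .nil)))))))) (.g (nat_lit 4) .nil .nil))))) (.nd (nat_lit 4) (.nd (nat_lit 5) 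
(.lf (nat_lit 258827) (.g (nat_lit 3312) (.e (nat_lit 164332) (nat_lit 230) (.e (nat_lit 163885) (nat_lit 5) (.e (nat_lit 221193) (nat_lit 11) (.e (nat_lit 336213) (nat_lit 13) (.e (nat_lit 393281) (nat_lit 23) (.e (nat_lit 426098) (nat_lit 1) .nil)))))) (.g (nat_lit 5) .nil .nil))) 
(.lf (nat_lit 258859) (.g (nat_lit 326) (.e (nat_lit 164332) (nat_lit 230) (.e (nat_lit 163885) (nat_lit 5) (.e (nat_lit 229120) (nat_lit 13) .nil))) .nil))) (.nd (nat_lit 5) 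
(.lf (nat_lit 258843) (.g (nat_lit 2362) (.e (nat_lit 164332) (nat_lit 230) (.e (nat_lit 163885) (nat_lit 5) (.e (nat_lit 229120) (nat_lit 12) (.e (nat_lit 344117) (nat_lit 21) (.e (nat_lit 516130) (nat_lit 3) (.e (nat_lit 221219) (nat_lit 24) (.e (nat_lit 213022) (nat_lit 9) (.e (nat_lit 2609) (nat_lit 163) .nil)))))))) (.g (nat_lit 5) .nil .nil))) 
(.lf (nat_lit 258875) (.g (nat_lit 1730) (.e (nat_lit 164332) (nat_lit 230) (.e (nat_lit 163885) (nat_lit 5) (.e (nat_lit 221208) (nat_lit 21) (.e (nat_lit 164331) (nat_lit 230) (.e (nat_lit 171776) (nat_lit 66) .nil))))) .nil))))) (.nd (nat_lit 3) (.nd (nat_lit 4) (.nd (nat_lit 5) 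
(.lf (nat_lit 258823) (.g (nat_lit 428) (.e (nat_lit 164332) (nat_lit 230) (.e (nat_lit 163885) (nat_lit 5) (.e (nat_lit 221192) (nat_lit 11) .nil))) .nil)) 
(.lf (nat_lit 258855) (.g (nat_lit 1721) (.e (nat_lit 164332) (nat_lit 230) (.e (nat_lit 163885) (nat_lit 5) (.e (nat_lit 229120) (nat_lit 12) (.e (nat_lit 344133) (nat_lit 26) (.e (nat_lit 557103) (nat_lit 14) (.e (nat_lit 180263) (nat_lit 21) (.e (nat_lit 663579) (nat_lit 9) (.e (nat_lit 2599) (nat_lit 163) .nil)))))))) (.g (nat_lit 4) .nil .nil)))) (.nd (nat_lit 5) 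
(.lf (nat_lit 258839) (.g (nat_lit 2949) (.e (nat_lit 164332) (nat_lit 230) (.e (nat_lit 163885) (nat_lit 5) (.e (nat_lit 229120) (nat_lit 12) (.e (nat_lit 344117) (nat_lit 21) (.e (nat_lit 516129) (nat_lit 3) (.e (nat_lit 221217) (nat_lit 24) (.e (nat_lit 213022) (nat_lit 9) (.e (nat_lit 2607) (nat_lit 163) .nil)))))))) (.g (nat_lit 5) .nil .nil))) 
(.lf (nat_lit 258871) (.g (nat_lit 1871) (.e (nat_lit 164332) (nat_lit 230) (.e (nat_lit 163885) (nat_lit 5) (.e (nat_lit 221207) (nat_lit 21) (.e (nat_lit 164326) (nat_lit 230) (.e (nat_lit 171776) (nat_lit 66) .nil))))) .nil)))) (.nd (nat_lit 4) (.nd (nat_lit 5) 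
(.lf (nat_lit 258831) (.g (nat_lit 2947) (.e (nat_lit 164332) (nat_lit 230) (.e (nat_lit 163885) (nat_lit 5) (.e (nat_lit 221194) (nat_lit 11) (.e (nat_lit 336086) (nat_lit 9) (.e (nat_lit 336443) (nat_lit 32) (.e (nat_lit 466968) (nat_lit 21) .nil)))))) (.g (nat_lit 5) .nil .nil))) 
(.lf (nat_lit 258863) (.g (nat_lit 1733) (.e (nat_lit 164332) (nat_lit 230) (.e (nat_lit 163885) (nat_lit 5) (.e (nat_lit 221206) (nat_lit 21) (.e (nat_lit 164325) (nat_lit 230) (.e (nat_lit 171776) (nat_lit 66) .nil))))) .nil))) (.nd (nat_lit 5) 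
(.lf (nat_lit 258847) (.g (nat_lit 3390) (.e (nat_lit 164332) (nat_lit 230) (.e (nat_lit 163885) (nat_lit 5) (.e (nat_lit 229120) (nat_lit 12) (.e (nat_lit 344129) (nat_lit 26) (.e (nat_lit 557103) (nat_lit 14) (.e (nat_lit 180263) (nat_lit 21) (.e (nat_lit 663580) (nat_lit 9) (.e (nat_lit 2607) (nat_lit 163) .nil)))))))) (.g (nat_lit 5) .nil .nil))) 
(.lf (nat_lit 258879) (.g (nat_lit 3509) (.e (nat_lit 164332) (nat_lit 230) (.e (nat_lit 163902) (nat_lit 12) (.e (nat_lit 426428) (nat_lit 17) (.e (nat_lit 90170) (nat_lit 13) (.e (nat_lit 172106) (nat_lit 10) (.e (nat_lit 434200) (nat_lit 18) (.e (nat_lit 6839) (nat_lit 369) (.e (nat_lit 163862) (nat_lit 1) .nil)))))))) (.g (nat_lit 5) .nil .nil)))))))))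

noncomputable def tv3344 : DT := (.nd (nat_lit 0) (.nd (nat_lit 1) (.nd (nat_lit 2) (.nd (nat_lit 3) (.nd (nat_lit 4) (.nd (nat_lit 5) 
(.lf (nat_lit 258880) (.g (nat_lit 3329) (.e (nat_lit 164332) (nat_lit 230) (.e (nat_lit 163902) (nat_lit 12) (.e (nat_lit 426428) (nat_lit 17) (.e (nat_lit 90170) (nat_lit 13) (.e (nat_lit 172106) (nat_lit 10) (.e (nat_lit 434201) (nat_lit 18) (.e (nat_lit 6837) (nat_lit 369) (.e (nat_lit 163864) (nat_lit 1) .nil)))))))) (.g (nat_lit 5) .nil .nil))) 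
(.lf (nat_lit 258912) (.g (nat_lit 1357) (.e (nat_lit 164332) (nat_lit 230) (.e (nat_lit 163902) (nat_lit 12) (.e (nat_lit 426568) (nat_lit 34) (.e (nat_lit 393275) (nat_lit 23) .nil)))) .nil))) (.nd (nat_lit 5) 
(.lf (nat_lit 258896) (.g (nat_lit 3282) (.e (nat_lit 164332) (nat_lit 230) (.e (nat_lit 163902) (nat_lit 12) (.e (nat_lit 426428) (nat_lit 17) (.e (nat_lit 90170) (nat_lit 13) (.e (nat_lit 172113) (nat_lit 10) (.e (nat_lit 434208) (nat_lit 18) (.e (nat_lit 6839) (nat_lit 369) (.e (nat_lit 163860) (nat_lit 1) .nil)))))))) (.g (nat_lit 6) .nil .nil))) 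
(.lf (nat_lit 258928) (.g (nat_lit 3976) (.e (nat_lit 164332) (nat_lit 230) (.e (nat_lit 163905) (nat_lit 12) (.e (nat_lit 426428) (nat_lit 17) (.e (nat_lit 90170) (nat_lit 13) (.e (nat_lit 172106) (nat_lit 10) (.e (nat_lit 434209) (nat_lit 18) (.e (nat_lit 7936) (nat_lit 369) (.e (nat_lit 163864) (nat_lit 1) .nil)))))))) (.g (nat_lit 6) .nil .nil))))) (.nd (nat_lit 4) (.nd (nat_lit 5) 
(.lf (nat_lit 258888) (.g (nat_lit 2790) (.e (nat_lit 164332) (nat_lit 230) (.e (nat_lit 163902) (nat_lit 12) (.e (nat_lit 426428) (nat_lit 17) (.e (nat_lit 90170) (nat_lit 13) (.e (nat_lit 172113) (nat_lit 10) (.e (nat_lit 434200) (nat_lit 18) (.e (nat_lit 6838) (nat_lit 369) (.e (nat_lit 163864) (nat_lit 1) .nil)))))))) (.g (nat_lit 5) .nil .nil))) 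
(.lf (nat_lit 258920) (.g (nat_lit 3422) (.e (nat_lit 164332) (nat_lit 230) (.e (nat_lit 163905) (nat_lit 12) (.e (nat_lit 426428) (nat_lit 17) (.e (nat_lit 90170) (nat_lit 13) (.e (nat_lit 172106) (nat_lit 10) (.e (nat_lit 434200) (nat_lit 18) (.e (nat_lit 6839) (nat_lit 369) (.e (nat_lit 163861) (nat_lit 1) .nil)))))))) (.g (nat_lit 5) .nil .nil)))) (.nd (nat_lit 5) 
(.lf (nat_lit 258904) (.g (nat_lit 2601) (.e (nat_lit 164332) (nat_lit 230) (.e (nat_lit 163902) (nat_lit 12) (.e (nat_lit 426568) (nat_lit 34) (.e (nat_lit 393234) (nat_lit 17) (.e (nat_lit 7305) (nat_lit 388) .nil))))) .nil)) 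
(.lf (nat_lit 258936) (.g (nat_lit 2620) (.e (nat_lit 164332) (nat_lit 230) (.e (nat_lit 163905) (nat_lit 12) (.e (nat_lit 426428) (nat_lit 17) (.e (nat_lit 90170) (nat_lit 13) (.e (nat_lit 172113) (nat_lit 10) (.e (nat_lit 434201) (nat_lit 18) (.e (nat_lit 6838) (nat_lit 369) (.e (nat_lit 163864) (nat_lit 1) .nil)))))))) (.g (nat_lit 5) .nil .nil)))))) 
(.nd (nat_lit 3) (.nd (nat_lit 4) (.nd (nat_lit 5) 
(.lf (nat_lit 258884) (.g (nat_lit 3707) (.e (nat_lit 164332) (nat_lit 230) (.e (nat_lit 163902) (nat_lit 12) (.e (nat_lit 426428) (nat_lit 17) (.e (nat_lit 90170) (nat_lit 13) (.e (nat_lit 172106) (nat_lit 10) (.e (nat_lit 434202) (nat_lit 18) (.e (nat_lit 6846) (nat_lit 370) (.e (nat_lit 229385) (nat_lit 1) .nil)))))))) (.g (nat_lit 6) .nil .nil))) 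
(.lf (nat_lit 258916) (.g (nat_lit 3027) (.e (nat_lit 164332) (nat_lit 230) (.e (nat_lit 163905) (nat_lit 12) (.e (nat_lit 426131) (nat_lit 3) (.e (nat_lit 204880) (nat_lit 32) (.e (nat_lit 385051) (nat_lit 21) .nil))))) .nil))) (.nd (nat_lit 5) 
(.lf (nat_lit 258900) (.g (nat_lit 1703) (.e (nat_lit 164332) (nat_lit 230) (.e (nat_lit 163902) (nat_lit 12) (.e (nat_lit 426566) (nat_lit 34) (.e (nat_lit 393273) (nat_lit 23) (.e (nat_lit 426364) (nat_lit 15) .nil))))) .nil)) 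
(.lf (nat_lit 258932) (.g (nat_lit 2945) (.e (nat_lit 164332) (nat_lit 230) (.e (nat_lit 163905) (nat_lit 12) (.e (nat_lit 426428) (nat_lit 17) (.e (nat_lit 90170) (nat_lit 13) (.e (nat_lit 172113) (nat_lit 10) (.e (nat_lit 434200) (nat_lit 18) (.e (nat_lit 6838) (nat_lit 369) (.e (nat_lit 163864) (nat_lit 1) .nil)))))))) (.g (nat_lit 5) .nil .nil))))) (.nd (nat_lit 4) (.nd (nat_lit 5) 
(.lf (nat_lit 258892) (.g (nat_lit 2465) (.e (nat_lit 164332) (nat_lit 230) (.e (nat_lit 163902) (nat_lit 12) (.e (nat_lit 426428) (nat_lit 17) (.e (nat_lit 90170) (nat_lit 13) (.e (nat_lit 172113) (nat_lit 10) (.e (nat_lit 434201) (nat_lit 18) (.e (nat_lit 6838) (nat_lit 369) (.e (nat_lit 163864) (nat_lit 1) .nil)))))))) (.g (nat_lit 5) .nil .nil))) 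
(.lf (nat_lit 258924) (.g (nat_lit 4097) (.e (nat_lit 164332) (nat_lit 230) (.e (nat_lit 163905) (nat_lit 12) (.e (nat_lit 426428) (nat_lit 17) (.e (nat_lit 90170) (nat_lit 13) (.e (nat_lit 172106) (nat_lit 10) (.e (nat_lit 434202) (nat_lit 18) (.e (nat_lit 6839) (nat_lit 369) (.e (nat_lit 163861) (nat_lit 1) .nil)))))))) (.g (nat_lit 7) .nil .nil)))) (.nd (nat_lit 5) 
(.lf (nat_lit 258908) (.g (nat_lit 1397) (.e (nat_lit 164332) (nat_lit 230) (.e (nat_lit 163902) (nat_lit 12) (.e (nat_lit 426568) (nat_lit 34) (.e (nat_lit 393266) (nat_lit 23) .nil)))) .nil)) 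
(.lf (nat_lit 258940) (.g (nat_lit 2514) (.e (nat_lit 164332) (nat_lit 230) (.e (nat_lit 163905) (nat_lit 12) (.e (nat_lit 426428) (nat_lit 17) (.e (nat_lit 90170) (nat_lit 13) (.e (nat_lit 172113) (nat_lit 10) (.e (nat_lit 434207) (nat_lit 18) (.e (nat_lit 6839) (nat_lit 369) (.e (nat_lit 163862) (nat_lit 1) .nil)))))))) (.g (nat_lit 5) .nil .nil))))))) 
(.nd (nat_lit 2) (.nd (nat_lit 3) (.nd (nat_lit 4) (.nd (nat_lit 5) 
(.lf (nat_lit 258882) (.g (nat_lit 4184) (.e (nat_lit 164332) (nat_lit 230) (.e (nat_lit 163902) (nat_lit 12) (.e (nat_lit 426428) (nat_lit 17) (.e (nat_lit 90170) (nat_lit 13) (.e (nat_lit 172106) (nat_lit 10) (.e (nat_lit 434202) (nat_lit 18) (.e (nat_lit 6839) (nat_lit 369) (.e (nat_lit 163862) (nat_lit 1) .nil)))))))) (.g (nat_lit 7) .nil .nil))) 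
(.lf (nat_lit 258914) (.g (nat_lit 1443) (.e (nat_lit 164332) (nat_lit 230) (.e (nat_lit 163902) (nat_lit 12) (.e (nat_lit 426568) (nat_lit 34) (.e (nat_lit 393277) (nat_lit 23) .nil)))) .nil))) (.nd (nat_lit 5) 
(.lf (nat_lit 258898) (.g (nat_lit 655) (.e (nat_lit 164332) (nat_lit 230) (.e (nat_lit 163902) (nat_lit 12) (.e (nat_lit 426491) (nat_lit 27) .nil))) .nil)) 
(.lf (nat_lit 258930) (.g (nat_lit 2666) (.e (nat_lit 164332) (nat_lit 230) (.e (nat_lit 163905) (nat_lit 12) (.e (nat_lit 426428) (nat_lit 17) (.e (nat_lit 90170) (nat_lit 13) (.e (nat_lit 172113) (nat_lit 10) (.e (nat_lit 434199) (nat_lit 18) (.e (nat_lit 6839) (nat_lit 369) (.e (nat_lit 163862) (nat_lit 1) .nil)))))))) (.g (nat_lit 5) .nil .nil))))) (.nd (nat_lit 4) (.nd (nat_lit 5) 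
(.lf (nat_lit 258890) (.g (nat_lit 2844) (.e (nat_lit 164332) (nat_lit 230) (.e (nat_lit 163902) (nat_lit 12) (.e (nat_lit 426428) (nat_lit 17) (.e (nat_lit 90170) (nat_lit 13) (.e (nat_lit 172113) (nat_lit 10) (.e (nat_lit 434200) (nat_lit 18) (.e (nat_lit 6839) (nat_lit 369) (.e (nat_lit 163862) (nat_lit 1) .nil)))))))) (.g (nat_lit 5) .nil .nil))) 
(.lf (nat_lit 258922) (.g (nat_lit 3368) (.e (nat_lit 164332) (nat_lit 230) (.e (nat_lit 163905) (nat_lit 12) (.e (nat_lit 426428) (nat_lit 17) (.e (nat_lit 90170) (nat_lit 13) (.e (nat_lit 172106) (nat_lit 10) (.e (nat_lit 434200) (nat_lit 18) (.e (nat_lit 6841) (nat_lit 369) (.e (nat_lit 163862) (nat_lit 1) .nil)))))))) (.g (nat_lit 5) .nil .nil)))) (.nd (nat_lit 5) 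
(.lf (nat_lit 258906) (.g (nat_lit 2532) (.e (nat_lit 164332) (nat_lit 230) (.e (nat_lit 163902) (nat_lit 12) (.e (nat_lit 426568) (nat_lit 34) (.e (nat_lit 393234) (nat_lit 17) (.e (nat_lit 7310) (nat_lit 388) .nil))))) .nil)) 
(.lf (nat_lit 258938) (.g (nat_lit 3662) (.e (nat_lit 164332) (nat_lit 230) (.e (nat_lit 163905) (nat_lit 12) (.e (nat_lit 426428) (nat_lit 17) (.e (nat_lit 90170) (nat_lit 13) (.e (nat_lit 172113) (nat_lit 10) (.e (nat_lit 434203) (nat_lit 18) (.e (nat_lit 6841) (nat_lit 369) (.e (nat_lit 163860) (nat_lit 1) .nil)))))))) (.g (nat_lit 6) .nil .nil)))))) 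
(.nd (nat_lit 3) (.nd (nat_lit 4) (.nd (nat_lit 5) 
(.lf (nat_lit 258886) (.g (nat_lit 2489) (.e (nat_lit 164332) (nat_lit 230) (.e (nat_lit 163902) (nat_lit 12) (.e (nat_lit 426428) (nat_lit 17) (.e (nat_lit 90170) (nat_lit 13) (.e (nat_lit 172113) (nat_lit 10) (.e (nat_lit 434199) (nat_lit 18) (.e (nat_lit 6839) (nat_lit 369) (.e (nat_lit 163862) (nat_lit 1) .nil)))))))) (.g (nat_lit 5) .nil .nil))) 
(.lf (nat_lit 258918) (.g (nat_lit 3344) (.e (nat_lit 164332) (nat_lit 230) (.e (nat_lit 163905) (nat_lit 12) (.e (nat_lit 426428) (nat_lit 17) (.e (nat_lit 90170) (nat_lit 13) (.e (nat_lit 172106) (nat_lit 10) (.e (nat_lit 434200) (nat_lit 18) (.e (nat_lit 6837) (nat_lit 369) (.e (nat_lit 163864) (nat_lit 1) .nil)))))))) (.g (nat_lit 5) .nil .nil)))) (.nd (nat_lit 5) 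
(.lf (nat_lit 258902) (.g (nat_lit 1869) (.e (nat_lit 164332) (nat_lit 230) (.e (nat_lit 163902) (nat_lit 12) (.e (nat_lit 426566) (nat_lit 34) (.e (nat_lit 393273) (nat_lit 23) (.e (nat_lit 426382) (nat_lit 15) .nil))))) .nil)) 
(.lf (nat_lit 258934) (.g (nat_lit 3021) (.e (nat_lit 164332) (nat_lit 230) (.e (nat_lit 163905) (nat_lit 12) (.e (nat_lit 426428) (nat_lit 17) (.e (nat_lit 90170) (nat_lit 13) (.e (nat_lit 172113) (nat_lit 10) (.e (nat_lit 434200) (nat_lit 18) (.e (nat_lit 6839) (nat_lit 369) (.e (nat_lit 163862) (nat_lit 1) .nil)))))))) (.g (nat_lit 5) .nil .nil))))) (.nd (nat_lit 4) (.nd (nat_lit 5) 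
(.lf (nat_lit 258894) (.g (nat_lit 3366) (.e (nat_lit 164332) (nat_lit 230) (.e (nat_lit 163902) (nat_lit 12) (.e (nat_lit 426428) (nat_lit 17) (.e (nat_lit 90170) (nat_lit 13) (.e (nat_lit 172113) (nat_lit 10) (.e (nat_lit 434203) (nat_lit 18) (.e (nat_lit 6841) (nat_lit 369) (.e (nat_lit 163860) (nat_lit 1) .nil)))))))) (.g (nat_lit 6) .nil .nil))) 
(.lf (nat_lit 258926) (.g (nat_lit 3937) (.e (nat_lit 164332) (nat_lit 230) (.e (nat_lit 163905) (nat_lit 12) (.e (nat_lit 426428) (nat_lit 17) (.e (nat_lit 90170) (nat_lit 13) (.e (nat_lit 172106) (nat_lit 10) (.e (nat_lit 434202) (nat_lit 18) (.e (nat_lit 6841) (nat_lit 369) (.e (nat_lit 163860) (nat_lit 1) .nil)))))))) (.g (nat_lit 6) .nil .nil)))) (.nd (nat_lit 5) 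
(.lf (nat_lit 258910) (.g (nat_lit 1755) (.e (nat_lit 164332) (nat_lit 230) (.e (nat_lit 163902) (nat_lit 12) (.e (nat_lit 426568) (nat_lit 34) (.e (nat_lit 393269) (nat_lit 23) (.e (nat_lit 426438) (nat_lit 18) .nil))))) .nil)) 
(.lf (nat_lit 258942) (.g (nat_lit 2205) (.e (nat_lit 164332) (nat_lit 230) (.e (nat_lit 163905) (nat_lit 12) (.e (nat_lit 426438) (nat_lit 18) (.e (nat_lit 98372) (nat_lit 29) (.e (nat_lit 450561) (nat_lit 0) (.e (nat_lit 6839) (nat_lit 369) (.e (nat_lit 163864) (nat_lit 1) .nil))))))) (.g (nat_lit 4) .nil .nil)))))))) 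
(.nd (nat_lit 1) (.nd (nat_lit 2) (.nd (nat_lit 3) (.nd (nat_lit 4) (.nd (nat_lit 5) 
(.lf (nat_lit 258881) (.g (nat_lit 3271) (.e (nat_lit 164332) (nat_lit 230) (.e (nat_lit 163902) (nat_lit 12) (.e (nat_lit 426428) (nat_lit 17) (.e (nat_lit 90170) (nat_lit 13) (.e (nat_lit 172106) (nat_lit 10) (.e (nat_lit 434202) (nat_lit 18) (.e (nat_lit 6839) (nat_lit 369) (.e (nat_lit 163860) (nat_lit 1) .nil)))))))) (.g (nat_lit 5) .nil .nil))) 
(.lf (nat_lit 258913) (.g (nat_lit 1695) (.e (nat_lit 164332) (nat_lit 230) (.e (nat_lit 163902) (nat_lit 12) (.e (nat_lit 426568) (nat_lit 34) (.e (nat_lit 393275) (nat_lit 23) (.e (nat_lit 426410) (nat_lit 15) .nil))))) .nil))) (.nd (nat_lit 5) 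
(.lf (nat_lit 258897) (.g (nat_lit 2901) (.e (nat_lit 164332) (nat_lit 230) (.e (nat_lit 163902) (nat_lit 12) (.e (nat_lit 426428) (nat_lit 17) (.e (nat_lit 90170) (nat_lit 13) (.e (nat_lit 172113) (nat_lit 10) (.e (nat_lit 434208) (nat_lit 18) (.e (nat_lit 6841) (nat_lit 369) (.e (nat_lit 163862) (nat_lit 1) .nil)))))))) (.g (nat_lit 6) .nil .nil))) 
(.lf (nat_lit 258929) (.g (nat_lit 2401) (.e (nat_lit 164332) (nat_lit 230) (.e (nat_lit 163905) (nat_lit 12) (.e (nat_lit 426428) (nat_lit 17) (.e (nat_lit 90170) (nat_lit 13) (.e (nat_lit 172113) (nat_lit 10) (.e (nat_lit 434199) (nat_lit 18) (.e (nat_lit 6839) (nat_lit 369) (.e (nat_lit 163861) (nat_lit 1) .nil)))))))) (.g (nat_lit 5) .nil .nil))))) (.nd (nat_lit 4) (.nd (nat_lit 5) 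
(.lf (nat_lit 258889) (.g (nat_lit 2671) (.e (nat_lit 164332) (nat_lit 230) (.e (nat_lit 163902) (nat_lit 12) (.e (nat_lit 426428) (nat_lit 17) (.e (nat_lit 90170) (nat_lit 13) (.e (nat_lit 172113) (nat_lit 10) (.e (nat_lit 434200) (nat_lit 18) (.e (nat_lit 6839) (nat_lit 369) (.e (nat_lit 163861) (nat_lit 1) .nil)))))))) (.g (nat_lit 5) .nil .nil))) 
(.lf (nat_lit 258921) (.g (nat_lit 3687) (.e (nat_lit 164332) (nat_lit 230) (.e (nat_lit 163905) (nat_lit 12) (.e (nat_lit 426428) (nat_lit 17) (.e (nat_lit 90170) (nat_lit 13) (.e (nat_lit 172106) (nat_lit 10) (.e (nat_lit 434200) (nat_lit 18) (.e (nat_lit 6839) (nat_lit 369) (.e (nat_lit 163862) (nat_lit 1) .nil)))))))) (.g (nat_lit 5) .nil .nil)))) (.nd (nat_lit 5) 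
(.lf (nat_lit 258905) (.g (nat_lit 2567) (.e (nat_lit 164332) (nat_lit 230) (.e (nat_lit 163902) (nat_lit 12) (.e (nat_lit 426568) (nat_lit 34) (.e (nat_lit 393234) (nat_lit 17) (.e (nat_lit 7309) (nat_lit 388) .nil))))) .nil)) 
(.lf (nat_lit 258937) (.g (nat_lit 3561) (.e (nat_lit 164332) (nat_lit 230) (.e (nat_lit 163905) (nat_lit 12) (.e (nat_lit 426428) (nat_lit 17) (.e (nat_lit 90170) (nat_lit 13) (.e (nat_lit 172113) (nat_lit 10) (.e (nat_lit 434203) (nat_lit 18) (.e (nat_lit 6839) (nat_lit 369) (.e (nat_lit 163860) (nat_lit 1) .nil)))))))) (.g (nat_lit 6) .nil .nil)))))) 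
(.nd (nat_lit 3) (.nd (nat_lit 4) (.nd (nat_lit 5) 
(.lf (nat_lit 258885) (.g (nat_lit 2316) (.e (nat_lit 164332) (nat_lit 230) (.e (nat_lit 163902) (nat_lit 12) (.e (nat_lit 426428) (nat_lit 17) (.e (nat_lit 90170) (nat_lit 13) (.e (nat_lit 172113) (nat_lit 10) (.e (nat_lit 434199) (nat_lit 18) (.e (nat_lit 6839) (nat_lit 369) (.e (nat_lit 163861) (nat_lit 1) .nil)))))))) (.g (nat_lit 5) .nil .nil))) 
(.lf (nat_lit 258917) (.g (nat_lit 948) (.e (nat_lit 164332) (nat_lit 230) (.e (nat_lit 163905) (nat_lit 12) (.e (nat_lit 426229) (nat_lit 9) .nil))) .nil))) (.nd (nat_lit 5) 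
(.lf (nat_lit 258901) (.g (nat_lit 2333) (.e (nat_lit 164332) (nat_lit 230) (.e (nat_lit 163902) (nat_lit 12) (.e (nat_lit 426566) (nat_lit 34) (.e (nat_lit 393273) (nat_lit 23) (.e (nat_lit 426364) (nat_lit 15) (.e (nat_lit 1799) (nat_lit 119) (.e (nat_lit 516116) (nat_lit 1) .nil))))))) (.g (nat_lit 4) .nil .nil))) 
(.lf (nat_lit 258933) (.g (nat_lit 2756) (.e (nat_lit 164332) (nat_lit 230) (.e (nat_lit 163905) (nat_lit 12) (.e (nat_lit 426428) (nat_lit 17) (.e (nat_lit 90170) (nat_lit 13) (.e (nat_lit 172113) (nat_lit 10) (.e (nat_lit 434200) (nat_lit 18) (.e (nat_lit 6839) (nat_lit 369) (.e (nat_lit 163861) (nat_lit 1) .nil)))))))) (.g (nat_lit 5) .nil .nil))))) (.nd (nat_lit 4) (.nd (nat_lit 5) 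
(.lf (nat_lit 258893) (.g (nat_lit 3265) (.e (nat_lit 164332) (nat_lit 230) (.e (nat_lit 163902) (nat_lit 12) (.e (nat_lit 426428) (nat_lit 17) (.e (nat_lit 90170) (nat_lit 13) (.e (nat_lit 172113) (nat_lit 10) (.e (nat_lit 434203) (nat_lit 18) (.e (nat_lit 6839) (nat_lit 369) (.e (nat_lit 163860) (nat_lit 1) .nil)))))))) (.g (nat_lit 6) .nil .nil))) 
(.lf (nat_lit 258925) (.g (nat_lit 4362) (.e (nat_lit 164332) (nat_lit 230) (.e (nat_lit 163905) (nat_lit 12) (.e (nat_lit 426428) (nat_lit 17) (.e (nat_lit 90170) (nat_lit 13) (.e (nat_lit 172106) (nat_lit 10) (.e (nat_lit 434202) (nat_lit 18) (.e (nat_lit 6839) (nat_lit 369) (.e (nat_lit 163862) (nat_lit 1) .nil)))))))) (.g (nat_lit 7) .nil .nil)))) (.nd (nat_lit 5) 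
(.lf (nat_lit 258909) (.g (nat_lit 1703) (.e (nat_lit 164332) (nat_lit 230) (.e (nat_lit 163902) (nat_lit 12) (.e (nat_lit 426568) (nat_lit 34) (.e (nat_lit 393266) (nat_lit 23) (.e (nat_lit 426396) (nat_lit 15) .nil))))) .nil)) 
(.lf (nat_lit 258941) (.g (nat_lit 3578) (.e (nat_lit 164332) (nat_lit 230) (.e (nat_lit 163905) (nat_lit 12) (.e (nat_lit 426428) (nat_lit 17) (.e (nat_lit 90170) (nat_lit 13) (.e (nat_lit 172113) (nat_lit 10) (.e (nat_lit 434208) (nat_lit 18) (.e (nat_lit 6839) (nat_lit 369) (.e (nat_lit 163860) (nat_lit 1) .nil)))))))) (.g (nat_lit 6) .nil .nil))))))) 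
(.nd (nat_lit 2) (.nd (nat_lit 3) (.nd (nat_lit 4) (.nd (nat_lit 5) 
(.lf (nat_lit 258883) (.g (nat_lit 3640) (.e (nat_lit 164332) (nat_lit 230) (.e (nat_lit 163902) (nat_lit 12) (.e (nat_lit 426428) (nat_lit 17) (.e (nat_lit 90170) (nat_lit 13) (.e (nat_lit 172106) (nat_lit 10) (.e (nat_lit 434202) (nat_lit 18) (.e (nat_lit 6841) (nat_lit 369) (.e (nat_lit 163860) (nat_lit 1) .nil)))))))) (.g (nat_lit 6) .nil .nil))) 
(.lf (nat_lit 258915) (.g (nat_lit 1998) (.e (nat_lit 164332) (nat_lit 230) (.e (nat_lit 163902) (nat_lit 12) (.e (nat_lit 426568) (nat_lit 34) (.e (nat_lit 393281) (nat_lit 23) (.e (nat_lit 426387) (nat_lit 15) .nil))))) .nil))) (.nd (nat_lit 5) 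
(.lf (nat_lit 258899) (.g (nat_lit 573) (.e (nat_lit 164332) (nat_lit 230) (.e (nat_lit 163902) (nat_lit 12) (.e (nat_lit 426564) (nat_lit 34) .nil))) .nil)) 
(.lf (nat_lit 258931) (.g (nat_lit 2678) (.e (nat_lit 164332) (nat_lit 230) (.e (nat_lit 163905) (nat_lit 12) (.e (nat_lit 426428) (nat_lit 17) (.e (nat_lit 90170) (nat_lit 13) (.e (nat_lit 172113) (nat_lit 10) (.e (nat_lit 434200) (nat_lit 18) (.e (nat_lit 6837) (nat_lit 369) (.e (nat_lit 163864) (nat_lit 1) .nil)))))))) (.g (nat_lit 5) .nil .nil))))) (.nd (nat_lit 4) (.nd (nat_lit 5) 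
(.lf (nat_lit 258891) (.g (nat_lit 2531) (.e (nat_lit 164332) (nat_lit 230) (.e (nat_lit 163902) (nat_lit 12) (.e (nat_lit 426428) (nat_lit 17) (.e (nat_lit 90170) (nat_lit 13) (.e (nat_lit 172113) (nat_lit 10) (.e (nat_lit 434200) (nat_lit 18) (.e (nat_lit 6841) (nat_lit 369) (.e (nat_lit 163862) (nat_lit 1) .nil)))))))) (.g (nat_lit 5) .nil .nil))) 
(.lf (nat_lit 258923) (.g (nat_lit 3485) (.e (nat_lit 164332) (nat_lit 230) (.e (nat_lit 163905) (nat_lit 12) (.e (nat_lit 426428) (nat_lit 17) (.e (nat_lit 90170) (nat_lit 13) (.e (nat_lit 172106) (nat_lit 10) (.e (nat_lit 434201) (nat_lit 18) (.e (nat_lit 6837) (nat_lit 369) (.e (nat_lit 163864) (nat_lit 1) .nil)))))))) (.g (nat_lit 5) .nil .nil)))) (.nd (nat_lit 5) 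
(.lf (nat_lit 258907) (.g (nat_lit 2497) (.e (nat_lit 164332) (nat_lit 230) (.e (nat_lit 163902) (nat_lit 12) (.e (nat_lit 426568) (nat_lit 34) (.e (nat_lit 393234) (nat_lit 17) (.e (nat_lit 7376) (nat_lit 389) .nil))))) .nil)) 
(.lf (nat_lit 258939) (.g (nat_lit 2249) (.e (nat_lit 164332) (nat_lit 230) (.e (nat_lit 163905) (nat_lit 12) (.e (nat_lit 426428) (nat_lit 17) (.e (nat_lit 90170) (nat_lit 13) (.e (nat_lit 172113) (nat_lit 10) (.e (nat_lit 434207) (nat_lit 18) (.e (nat_lit 6839) (nat_lit 369) (.e (nat_lit 163861) (nat_lit 1) .nil)))))))) (.g (nat_lit 5) .nil .nil)))))) 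
(.nd (nat_lit 3) (.nd (nat_lit 4) (.nd (nat_lit 5) 
(.lf (nat_lit 258887) (.g (nat_lit 2523) (.e (nat_lit 164332) (nat_lit 230) (.e (nat_lit 163902) (nat_lit 12) (.e (nat_lit 426428) (nat_lit 17) (.e (nat_lit 90170) (nat_lit 13) (.e (nat_lit 172113) (nat_lit 10) (.e (nat_lit 434200) (nat_lit 18) (.e (nat_lit 6837) (nat_lit 369) (.e (nat_lit 163864) (nat_lit 1) .nil)))))))) (.g (nat_lit 5) .nil .nil))) 
(.lf (nat_lit 258919) (.g (nat_lit 3611) (.e (nat_lit 164332) (nat_lit 230) (.e (nat_lit 163905) (nat_lit 12) (.e (nat_lit 426428) (nat_lit 17) (.e (nat_lit 90170) (nat_lit 13) (.e (nat_lit 172106) (nat_lit 10) (.e (nat_lit 434200) (nat_lit 18) (.e (nat_lit 6838) (nat_lit 369) (.e (nat_lit 163864) (nat_lit 1) .nil)))))))) (.g (nat_lit 5) .nil .nil)))) (.nd (nat_lit 5) 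
(.lf (nat_lit 258903) (.g (nat_lit 2606) (.e (nat_lit 164332) (nat_lit 230) (.e (nat_lit 163902) (nat_lit 12) (.e (nat_lit 426568) (nat_lit 34) (.e (nat_lit 393234) (nat_lit 17) (.e (nat_lit 7303) (nat_lit 388) .nil))))) .nil)) 
(.lf (nat_lit 258935) (.g (nat_lit 2702) (.e (nat_lit 164332) (nat_lit 230) (.e (nat_lit 163905) (nat_lit 12) (.e (nat_lit 426428) (nat_lit 17) (.e (nat_lit 90170) (nat_lit 13) (.e (nat_lit 172113) (nat_lit 10) (.e (nat_lit 434200) (nat_lit 18) (.e (nat_lit 6841) (nat_lit 369) (.e (nat_lit 163862) (nat_lit 1) .nil)))))))) (.g (nat_lit 5) .nil .nil))))) (.nd (nat_lit 4) (.nd (nat_lit 5) 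
(.lf (nat_lit 258895) (.g (nat_lit 2337) (.e (nat_lit 164332) (nat_lit 230) (.e (nat_lit 163902) (nat_lit 12) (.e (nat_lit 426428) (nat_lit 17) (.e (nat_lit 90170) (nat_lit 13) (.e (nat_lit 172113) (nat_lit 10) (.e (nat_lit 434207) (nat_lit 18) (.e (nat_lit 6839) (nat_lit 369) (.e (nat_lit 163862) (nat_lit 1) .nil)))))))) (.g (nat_lit 5) .nil .nil))) 
(.lf (nat_lit 258927) (.g (nat_lit 3779) (.e (nat_lit 164332) (nat_lit 230) (.e (nat_lit 163905) (nat_lit 12) (.e (nat_lit 426428) (nat_lit 17) (.e (nat_lit 90170) (nat_lit 13) (.e (nat_lit 172106) (nat_lit 10) (.e (nat_lit 434202) (nat_lit 18) (.e (nat_lit 6846) (nat_lit 370) (.e (nat_lit 229385) (nat_lit 1) .nil)))))))) (.g (nat_lit 6) .nil .nil)))) (.nd (nat_lit 5) 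
(.lf (nat_lit 258911) (.g (nat_lit 1551) (.e (nat_lit 164332) (nat_lit 230) (.e (nat_lit 163902) (nat_lit 12) (.e (nat_lit 426568) (nat_lit 34) (.e (nat_lit 393274) (nat_lit 23) .nil)))) .nil)) 
(.lf (nat_lit 258943) (.g (nat_lit 2498) (.e (nat_lit 164332) (nat_lit 230) (.e (nat_lit 163905) (nat_lit 12) (.e (nat_lit 426438) (nat_lit 18) (.e (nat_lit 98373) (nat_lit 29) (.e (nat_lit 450560) (nat_lit 0) (.e (nat_lit 6838) (nat_lit 369) (.e (nat_lit 163864) (nat_lit 1) .nil))))))) (.g (nat_lit 4) .nil .nil)))))))))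

noncomputable def tv3345 : DT := (.nd (nat_lit 0) (.nd (nat_lit 1) (.nd (nat_lit 2) (.nd (nat_lit 3) (.nd (nat_lit 4) (.nd (nat_lit 5) (.nd (nat_lit 6) 
(.lf (nat_lit 258944) (.g (nat_lit 2492) (.e (nat_lit 164332) (nat_lit 230) (.e (nat_lit 163905) (nat_lit 12) (.e (nat_lit 426438) (nat_lit 18) (.e (nat_lit 98373) (nat_lit 29) (.e (nat_lit 450560) (nat_lit 0) (.e (nat_lit 6839) (nat_lit 369) (.e (nat_lit 163862) (nat_lit 1) .nil))))))) (.g (nat_lit 4) .nil .nil))) 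
(.lf (nat_lit 259008) (.g (nat_lit 2666) (.e (nat_lit 164347) (nat_lit 240) (.e (nat_lit 2610) (nat_lit 163) (.e (nat_lit 163978) (nat_lit 30) (.e (nat_lit 573451) (nat_lit 9) .nil)))) .nil))) (.nd (nat_lit 6) 
(.lf (nat_lit 258976) (.g (nat_lit 559) (.e (nat_lit 164336) (nat_lit 232) (.e (nat_lit 1661) (nat_lit 115) (.e (nat_lit 393260) (nat_lit 21) .nil))) .nil)) 
(.lf (nat_lit 259040) (.g (nat_lit 2401) (.e (nat_lit 164348) (nat_lit 240) (.e (nat_lit 2638) (nat_lit 165) (.e (nat_lit 180277) (nat_lit 32) (.e (nat_lit 1661) (nat_lit 115) (.e (nat_lit 393277) (nat_lit 23) (.e (nat_lit 426103) (nat_lit 1) .nil)))))) (.g (nat_lit 4) .nil .nil))))) (.nd (nat_lit 5) (.nd (nat_lit 6) 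
(.lf (nat_lit 258960) (.g (nat_lit 2463) (.e (nat_lit 164332) (nat_lit 230) (.e (nat_lit 163905) (nat_lit 12) (.e (nat_lit 426564) (nat_lit 34) (.e (nat_lit 393268) (nat_lit 23) (.e (nat_lit 426436) (nat_lit 18) .nil))))) .nil)) 
(.lf (nat_lit 259024) (.g (nat_lit 1676) (.e (nat_lit 164347) (nat_lit 240) (.e (nat_lit 2640) (nat_lit 165) (.e (nat_lit 180278) (nat_lit 32) (.e (nat_lit 1427) (nat_lit 108) (.e (nat_lit 336426) (nat_lit 29) .nil))))) .nil))) (.nd (nat_lit 6) 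
(.lf (nat_lit 258992) (.g (nat_lit 918) (.e (nat_lit 171776) (nat_lit 234) (.e (nat_lit 16473) (nat_lit 14) (.e (nat_lit 491563) (nat_lit 12) .nil))) .nil)) 
(.lf (nat_lit 259056) (.g (nat_lit 1156) (.e (nat_lit 164352) (nat_lit 246) (.e (nat_lit 234) (nat_lit 21) (.e (nat_lit 336443) (nat_lit 32) (.e (nat_lit 466981) (nat_lit 23) .nil)))) .nil))))) (.nd (nat_lit 4) (.nd (nat_lit 5) (.nd (nat_lit 6) 
(.lf (nat_lit 258952) (.g (nat_lit 3736) (.e (nat_lit 164332) (nat_lit 230) (.e (nat_lit 163905) (nat_lit 12) (.e (nat_lit 426438) (nat_lit 18) (.e (nat_lit 98373) (nat_lit 29) (.e (nat_lit 450563) (nat_lit 0) (.e (nat_lit 6841) (nat_lit 369) (.e (nat_lit 163860) (nat_lit 1) .nil))))))) (.g (nat_lit 5) .nil .nil))) 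
(.lf (nat_lit 259016) (.g (nat_lit 918) (.e (nat_lit 164347) (nat_lit 240) (.e (nat_lit 2638) (nat_lit 165) (.e (nat_lit 180277) (nat_lit 32) (.e (nat_lit 1661) (nat_lit 115) .nil)))) .nil))) (.nd (nat_lit 6) 
(.lf (nat_lit 258984) (.g (nat_lit 2565) (.e (nat_lit 164342) (nat_lit 232) (.e (nat_lit 1659) (nat_lit 115) (.e (nat_lit 393301) (nat_lit 27) (.e (nat_lit 491560) (nat_lit 10) (.e (nat_lit 344094) (nat_lit 18) .nil))))) .nil)) 
(.lf (nat_lit 259048) (.g (nat_lit 1082) (.e (nat_lit 164351) (nat_lit 246) (.e (nat_lit 349) (nat_lit 28) (.e (nat_lit 393281) (nat_lit 23) (.e (nat_lit 426133) (nat_lit 3) (.e (nat_lit 204805) (nat_lit 0) .nil))))) .nil)))) (.nd (nat_lit 5) (.nd (nat_lit 6) 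
(.lf (nat_lit 258968) (.g (nat_lit 2426) (.e (nat_lit 164332) (nat_lit 230) (.e (nat_lit 163943) (nat_lit 19) (.e (nat_lit 483341) (nat_lit 9) (.e (nat_lit 426198) (nat_lit 9) (.e (nat_lit 426382) (nat_lit 15) (.e (nat_lit 1800) (nat_lit 119) (.e (nat_lit 516117) (nat_lit 1) .nil))))))) (.g (nat_lit 4) .nil .nil))) 
(.lf (nat_lit 259032) (.g (nat_lit 2168) (.e (nat_lit 164348) (nat_lit 240) (.e (nat_lit 2610) (nat_lit 163) (.e (nat_lit 163977) (nat_lit 30) (.e (nat_lit 573450) (nat_lit 9) (.e (nat_lit 1615) (nat_lit 113) .nil))))) .nil))) (.nd (nat_lit 6) 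
(.lf (nat_lit 259000) (.g (nat_lit 1174) (.e (nat_lit 164345) (nat_lit 240) (.e (nat_lit 2638) (nat_lit 165) (.e (nat_lit 180278) (nat_lit 32) (.e (nat_lit 1658) (nat_lit 115) (.e (nat_lit 393281) (nat_lit 23) .nil))))) .nil)) 
(.lf (nat_lit 259064) (.g (nat_lit 843) (.e (nat_lit 164353) (nat_lit 246) (.e (nat_lit 100) (nat_lit 2) (.e (nat_lit 90176) (nat_lit 15) (.e (nat_lit 188431) (nat_lit 20) .nil)))) .nil)))))) (.nd (nat_lit 3) (.nd (nat_lit 4) (.nd (nat_lit 5) (.nd (nat_lit 6) 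
(.lf (nat_lit 258948) (.g (nat_lit 4231) (.e (nat_lit 164332) (nat_lit 230) (.e (nat_lit 163905) (nat_lit 12) (.e (nat_lit 426438) (nat_lit 18) (.e (nat_lit 98373) (nat_lit 29) (.e (nat_lit 450562) (nat_lit 0) (.e (nat_lit 6841) (nat_lit 369) (.e (nat_lit 163862) (nat_lit 1) .nil))))))) (.g (nat_lit 5) .nil .nil))) 
(.lf (nat_lit 259012) (.g (nat_lit 1572) (.e (nat_lit 164347) (nat_lit 240) (.e (nat_lit 2619) (nat_lit 164) (.e (nat_lit 172120) (nat_lit 12) (.e (nat_lit 475208) (nat_lit 41) .nil)))) .nil))) (.nd (nat_lit 6) 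
(.lf (nat_lit 258980) (.g (nat_lit 2043) (.e (nat_lit 164341) (nat_lit 232) (.e (nat_lit 1661) (nat_lit 115) (.e (nat_lit 393260) (nat_lit 21) (.e (nat_lit 409648) (nat_lit 18) .nil)))) .nil)) 
(.lf (nat_lit 259044) (.g (nat_lit 1646) (.e (nat_lit 164351) (nat_lit 246) (.e (nat_lit 214) (nat_lit 19) (.e (nat_lit 319531) (nat_lit 16) (.e (nat_lit 286761) (nat_lit 13) (.e (nat_lit 393234) (nat_lit 17) .nil))))) .nil)))) (.nd (nat_lit 5) (.nd (nat_lit 6) 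
(.lf (nat_lit 258964) (.g (nat_lit 1217) (.e (nat_lit 164332) (nat_lit 230) (.e (nat_lit 163905) (nat_lit 12) (.e (nat_lit 426568) (nat_lit 34) (.e (nat_lit 393275) (nat_lit 23) .nil)))) .nil)) 
(.lf (nat_lit 259028) (.g (nat_lit 1401) (.e (nat_lit 164347) (nat_lit 240) (.e (nat_lit 2650) (nat_lit 166) (.e (nat_lit 188418) (nat_lit 0) (.e (nat_lit 2059) (nat_lit 142) (.e (nat_lit 704599) (nat_lit 6) .nil))))) .nil))) (.nd (nat_lit 6) 
(.lf (nat_lit 258996) (.g (nat_lit 2939) (.e (nat_lit 164345) (nat_lit 240) (.e (nat_lit 2610) (nat_lit 163) (.e (nat_lit 163979) (nat_lit 30) (.e (nat_lit 573450) (nat_lit 9) (.e (nat_lit 1615) (nat_lit 113) .nil))))) .nil)) 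
(.lf (nat_lit 259060) (.g (nat_lit 2084) (.e (nat_lit 164353) (nat_lit 246) (.e (nat_lit 100) (nat_lit 2) (.e (nat_lit 90170) (nat_lit 13) (.e (nat_lit 172067) (nat_lit 3) (.e (nat_lit 204838) (nat_lit 20) .nil))))) .nil))))) (.nd (nat_lit 4) (.nd (nat_lit 5) (.nd (nat_lit 6) 
(.lf (nat_lit 258956) (.g (nat_lit 953) (.e (nat_lit 164332) (nat_lit 230) (.e (nat_lit 163905) (nat_lit 12) (.e (nat_lit 426479) (nat_lit 27) (.e (nat_lit 336414) (nat_lit 27) (.e (nat_lit 426230) (nat_lit 9) .nil))))) .nil)) 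
(.lf (nat_lit 259020) (.g (nat_lit 2470) (.e (nat_lit 164347) (nat_lit 240) (.e (nat_lit 2638) (nat_lit 165) (.e (nat_lit 180277) (nat_lit 32) (.e (nat_lit 1661) (nat_lit 115) (.e (nat_lit 393281) (nat_lit 23) (.e (nat_lit 426098) (nat_lit 1) .nil)))))) (.g (nat_lit 4) .nil .nil)))) (.nd (nat_lit 6) 
(.lf (nat_lit 258988) (.g (nat_lit 2043) (.e (nat_lit 164342) (nat_lit 232) (.e (nat_lit 1661) (nat_lit 115) (.e (nat_lit 393260) (nat_lit 21) (.e (nat_lit 409648) (nat_lit 18) .nil)))) .nil)) 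
(.lf (nat_lit 259052) (.g (nat_lit 694) (.e (nat_lit 164352) (nat_lit 246) (.e (nat_lit 101) (nat_lit 2) (.e (nat_lit 90178) (nat_lit 15) (.e (nat_lit 188421) (nat_lit 11) .nil)))) .nil)))) (.nd (nat_lit 5) (.nd (nat_lit 6) 
(.lf (nat_lit 258972) (.g (nat_lit 2728) (.e (nat_lit 164335) (nat_lit 232) (.e (nat_lit 1659) (nat_lit 115) (.e (nat_lit 393301) (nat_lit 27) (.e (nat_lit 491560) (nat_lit 10) (.e (nat_lit 344099) (nat_lit 18) .nil))))) .nil)) 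
(.lf (nat_lit 259036) (.g (nat_lit 2315) (.e (nat_lit 164348) (nat_lit 240) (.e (nat_lit 2611) (nat_lit 163) (.e (nat_lit 163979) (nat_lit 30) (.e (nat_lit 573450) (nat_lit 9) (.e (nat_lit 1615) (nat_lit 113) .nil))))) .nil))) (.nd (nat_lit 6) 
(.lf (nat_lit 259004) (.g (nat_lit 3813) (.e (nat_lit 164346) (nat_lit 240) (.e (nat_lit 2638) (nat_lit 165) (.e (nat_lit 180278) (nat_lit 32) (.e (nat_lit 1427) (nat_lit 108) (.e (nat_lit 336430) (nat_lit 29) (.e (nat_lit 442419) (nat_lit 21) .nil)))))) (.g (nat_lit 0) .nil .nil))) 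
(.lf (nat_lit 259068) (.g (nat_lit 1245) (.e (nat_lit 164353) (nat_lit 246) (.e (nat_lit 112) (nat_lit 3) (.e (nat_lit 98358) (nat_lit 26) (.e (nat_lit 426323) (nat_lit 13) (.e (nat_lit 483332) (nat_lit 0) .nil))))) .nil))))))) (.nd (nat_lit 2) (.nd (nat_lit 3) (.nd (nat_lit 4) (.nd (nat_lit 5) (.nd (nat_lit 6) 
(.lf (nat_lit 258946) (.g (nat_lit 4352) (.e (nat_lit 164332) (nat_lit 230) (.e (nat_lit 163905) (nat_lit 12) (.e (nat_lit 426438) (nat_lit 18) (.e (nat_lit 98373) (nat_lit 29) (.e (nat_lit 450562) (nat_lit 0) (.e (nat_lit 6839) (nat_lit 369) (.e (nat_lit 163862) (nat_lit 1) .nil))))))) (.g (nat_lit 5) .nil .nil))) 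
(.lf (nat_lit 259010) (.g (nat_lit 2945) (.e (nat_lit 164347) (nat_lit 240) (.e (nat_lit 2610) (nat_lit 163) (.e (nat_lit 163979) (nat_lit 30) (.e (nat_lit 573450) (nat_lit 9) (.e (nat_lit 1615) (nat_lit 113) .nil))))) .nil))) (.nd (nat_lit 6) 
(.lf (nat_lit 258978) (.g (nat_lit 2125) (.e (nat_lit 164336) (nat_lit 232) (.e (nat_lit 1661) (nat_lit 115) (.e (nat_lit 393260) (nat_lit 21) (.e (nat_lit 409649) (nat_lit 18) .nil)))) .nil)) 
(.lf (nat_lit 259042) (.g (nat_lit 1310) (.e (nat_lit 164348) (nat_lit 240) (.e (nat_lit 2640) (nat_lit 165) (.e (nat_lit 180277) (nat_lit 32) (.e (nat_lit 1661) (nat_lit 115) (.e (nat_lit 393274) (nat_lit 23) .nil))))) .nil)))) (.nd (nat_lit 5) (.nd (nat_lit 6) 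
(.lf (nat_lit 258962) (.g (nat_lit 2324) (.e (nat_lit 164332) (nat_lit 230) (.e (nat_lit 163905) (nat_lit 12) (.e (nat_lit 426568) (nat_lit 34) (.e (nat_lit 393234) (nat_lit 17) (.e (nat_lit 7309) (nat_lit 388) .nil))))) .nil)) 
(.lf (nat_lit 259026) (.g (nat_lit 1375) (.e (nat_lit 164347) (nat_lit 240) (.e (nat_lit 2640) (nat_lit 165) (.e (nat_lit 180278) (nat_lit 32) (.e (nat_lit 1661) (nat_lit 115) (.e (nat_lit 393268) (nat_lit 23) .nil))))) .nil))) (.nd (nat_lit 6) 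
(.lf (nat_lit 258994) (.g (nat_lit 442) (.e (nat_lit 164345) (nat_lit 240) (.e (nat_lit 2610) (nat_lit 163) (.e (nat_lit 171776) (nat_lit 23) .nil))) .nil)) 
(.lf (nat_lit 259058) (.g (nat_lit 1901) (.e (nat_lit 164352) (nat_lit 246) (.e (nat_lit 348) (nat_lit 28) (.e (nat_lit 393291) (nat_lit 26) (.e (nat_lit 475169) (nat_lit 22) (.e (nat_lit 499791) (nat_lit 3) .nil))))) .nil))))) (.nd (nat_lit 4) (.nd (nat_lit 5) (.nd (nat_lit 6) 
(.lf (nat_lit 258954) (.g (nat_lit 2579) (.e (nat_lit 164332) (nat_lit 230) (.e (nat_lit 163905) (nat_lit 12) (.e (nat_lit 426438) (nat_lit 18) (.e (nat_lit 98373) (nat_lit 29) (.e (nat_lit 450568) (nat_lit 0) (.e (nat_lit 7936) (nat_lit 369) (.e (nat_lit 163860) (nat_lit 1) .nil))))))) (.g (nat_lit 4) .nil .nil))) 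
(.lf (nat_lit 259018) (.g (nat_lit 1948) (.e (nat_lit 164347) (nat_lit 240) (.e (nat_lit 2638) (nat_lit 165) (.e (nat_lit 180277) (nat_lit 32) (.e (nat_lit 1661) (nat_lit 115) (.e (nat_lit 393277) (nat_lit 23) .nil))))) .nil))) (.nd (nat_lit 6) 
(.lf (nat_lit 258986) (.g (nat_lit 2595) (.e (nat_lit 164342) (nat_lit 232) (.e (nat_lit 1659) (nat_lit 115) (.e (nat_lit 393301) (nat_lit 27) (.e (nat_lit 491560) (nat_lit 10) (.e (nat_lit 344099) (nat_lit 18) .nil))))) .nil)) 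
(.lf (nat_lit 259050) (.g (nat_lit 2750) (.e (nat_lit 164351) (nat_lit 246) (.e (nat_lit 3098) (nat_lit 192) (.e (nat_lit 491540) (nat_lit 3) (.e (nat_lit 98373) (nat_lit 29) (.e (nat_lit 458496) (nat_lit 1) .nil))))) .nil)))) (.nd (nat_lit 5) (.nd (nat_lit 6) 
(.lf (nat_lit 258970) (.g (nat_lit 2083) (.e (nat_lit 164332) (nat_lit 230) (.e (nat_lit 163943) (nat_lit 19) (.e (nat_lit 483341) (nat_lit 9) (.e (nat_lit 426198) (nat_lit 9) (.e (nat_lit 426405) (nat_lit 15) .nil))))) .nil)) 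
(.lf (nat_lit 259034) (.g (nat_lit 2660) (.e (nat_lit 164348) (nat_lit 240) (.e (nat_lit 2610) (nat_lit 163) (.e (nat_lit 163979) (nat_lit 30) (.e (nat_lit 573450) (nat_lit 9) (.e (nat_lit 1615) (nat_lit 113) .nil))))) .nil))) (.nd (nat_lit 6) 
(.lf (nat_lit 259002) (.g (nat_lit 2047) (.e (nat_lit 164346) (nat_lit 240) (.e (nat_lit 2619) (nat_lit 164) (.e (nat_lit 172126) (nat_lit 14) (.e (nat_lit 491549) (nat_lit 9) (.e (nat_lit 336443) (nat_lit 32) .nil))))) .nil)) 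
(.lf (nat_lit 259066) (.g (nat_lit 2862) (.e (nat_lit 164353) (nat_lit 246) (.e (nat_lit 112) (nat_lit 3) (.e (nat_lit 98358) (nat_lit 26) (.e (nat_lit 426131) (nat_lit 3) (.e (nat_lit 204838) (nat_lit 20) (.e (nat_lit 114715) (nat_lit 22) (.e (nat_lit 98048) (nat_lit 21) .nil))))))) (.g (nat_lit 6) .nil .nil))))))) (.nd (nat_lit 3) (.nd (nat_lit 4) (.nd (nat_lit 5) (.nd (nat_lit 6) 
(.lf (nat_lit 258950) (.g (nat_lit 4075) (.e (nat_lit 164332) (nat_lit 230) (.e (nat_lit 163905) (nat_lit 12) (.e (nat_lit 426438) (nat_lit 18) (.e (nat_lit 98373) (nat_lit 29) (.e (nat_lit 450563) (nat_lit 0) (.e (nat_lit 6839) (nat_lit 369) (.e (nat_lit 163861) (nat_lit 1) .nil))))))) (.g (nat_lit 5) .nil .nil))) 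
(.lf (nat_lit 259014) (.g (nat_lit 2110) (.e (nat_lit 164347) (nat_lit 240) (.e (nat_lit 2619) (nat_lit 164) (.e (nat_lit 172126) (nat_lit 14) (.e (nat_lit 491569) (nat_lit 13) (.e (nat_lit 393277) (nat_lit 23) .nil))))) .nil))) (.nd (nat_lit 6) 
(.lf (nat_lit 258982) (.g (nat_lit 515) (.e (nat_lit 164342) (nat_lit 232) (.e (nat_lit 1638) (nat_lit 114) (.e (nat_lit 385105) (nat_lit 50) .nil))) .nil)) 
(.lf (nat_lit 259046) (.g (nat_lit 2424) (.e (nat_lit 164351) (nat_lit 246) (.e (nat_lit 232) (nat_lit 21) (.e (nat_lit 336060) (nat_lit 7) (.e (nat_lit 319534) (nat_lit 16) (.e (nat_lit 286767) (nat_lit 27) .nil))))) .nil)))) (.nd (nat_lit 5) (.nd (nat_lit 6) 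
(.lf (nat_lit 258966) (.g (nat_lit 4047) (.e (nat_lit 164332) (nat_lit 230) (.e (nat_lit 163941) (nat_lit 19) (.e (nat_lit 483341) (nat_lit 9) (.e (nat_lit 426220) (nat_lit 9) .nil)))) .nil)) 
(.lf (nat_lit 259030) (.g (nat_lit 1816) (.e (nat_lit 164348) (nat_lit 240) (.e (nat_lit 2610) (nat_lit 163) (.e (nat_lit 163977) (nat_lit 30) (.e (nat_lit 573449) (nat_lit 9) (.e (nat_lit 1615) (nat_lit 113) .nil))))) .nil))) (.nd (nat_lit 6) 
(.lf (nat_lit 258998) (.g (nat_lit 1937) (.e (nat_lit 164345) (nat_lit 240) (.e (nat_lit 2611) (nat_lit 163) (.e (nat_lit 163979) (nat_lit 30) (.e (nat_lit 573449) (nat_lit 9) (.e (nat_lit 1615) (nat_lit 113) .nil))))) .nil)) 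
(.lf (nat_lit 259062) (.g (nat_lit 3044) (.e (nat_lit 164353) (nat_lit 246) (.e (nat_lit 100) (nat_lit 2) (.e (nat_lit 90174) (nat_lit 14) (.e (nat_lit 180250) (nat_lit 10) (.e (nat_lit 573489) (nat_lit 14) (.e (nat_lit 73755) (nat_lit 8) (.e (nat_lit 564992) (nat_lit 21) .nil))))))) (.g (nat_lit 6) .nil .nil)))))) (.nd (nat_lit 4) (.nd (nat_lit 5) (.nd (nat_lit 6) 
(.lf (nat_lit 258958) (.g (nat_lit 948) (.e (nat_lit 164332) (nat_lit 230) (.e (nat_lit 163905) (nat_lit 12) (.e (nat_lit 426484) (nat_lit 27) .nil))) .nil)) 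
(.lf (nat_lit 259022) (.g (nat_lit 1786) (.e (nat_lit 164347) (nat_lit 240) (.e (nat_lit 2640) (nat_lit 165) (.e (nat_lit 180277) (nat_lit 32) (.e (nat_lit 1661) (nat_lit 115) (.e (nat_lit 393268) (nat_lit 23) (.e (nat_lit 433920) (nat_lit 1) .nil)))))) (.g (nat_lit 5) .nil .nil)))) (.nd (nat_lit 6) 
(.lf (nat_lit 258990) (.g (nat_lit 376) (.e (nat_lit 171776) (nat_lit 234) (.e (nat_lit 16470) (nat_lit 14) (.e (nat_lit 491566) (nat_lit 12) .nil))) .nil)) 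
(.lf (nat_lit 259054) (.g (nat_lit 1439) (.e (nat_lit 164352) (nat_lit 246) (.e (nat_lit 226) (nat_lit 21) (.e (nat_lit 336443) (nat_lit 32) (.e (nat_lit 466981) (nat_lit 23) .nil)))) .nil)))) (.nd (nat_lit 5) (.nd (nat_lit 6) 
(.lf (nat_lit 258974) (.g (nat_lit 2043) (.e (nat_lit 164335) (nat_lit 232) (.e (nat_lit 1661) (nat_lit 115) (.e (nat_lit 393260) (nat_lit 21) (.e (nat_lit 409648) (nat_lit 18) .nil)))) .nil)) 
(.lf (nat_lit 259038) (.g (nat_lit 3204) (.e (nat_lit 164348) (nat_lit 240) (.e (nat_lit 2638) (nat_lit 165) (.e (nat_lit 180277) (nat_lit 32) (.e (nat_lit 1661) (nat_lit 115) (.e (nat_lit 393268) (nat_lit 23) (.e (nat_lit 433920) (nat_lit 1) .nil)))))) (.g (nat_lit 5) .nil .nil)))) (.nd (nat_lit 6) 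
(.lf (nat_lit 259006) (.g (nat_lit 785) (.e (nat_lit 164346) (nat_lit 240) (.e (nat_lit 2640) (nat_lit 165) (.e (nat_lit 180278) (nat_lit 32) (.e (nat_lit 1660) (nat_lit 115) .nil)))) .nil)) 
(.lf (nat_lit 259070) (.g (nat_lit 2328) (.e (nat_lit 164353) (nat_lit 246) (.e (nat_lit 112) (nat_lit 3) (.e (nat_lit 98377) (nat_lit 30) (.e (nat_lit 458789) (nat_lit 23) (.e (nat_lit 532515) (nat_lit 3) (.e (nat_lit 114716) (nat_lit 22) (.e (nat_lit 98048) (nat_lit 21) .nil))))))) (.g (nat_lit 6) .nil .nil))))))))) 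
(.nd (nat_lit 1) (.nd (nat_lit 2) (.nd (nat_lit 3) (.nd (nat_lit 4) (.nd (nat_lit 5) 
(.nd (nat_lit 6) 
(.lf (nat_lit 258945) (.g (nat_lit 4203) (.e (nat_lit 164332) (nat_lit 230) (.e (nat_lit 163905) (nat_lit 12) (.e (nat_lit 426438) (nat_lit 18) (.e (nat_lit 98373) (nat_lit 29) (.e (nat_lit 450562) (nat_lit 0) (.e (nat_lit 6839) (nat_lit 369) (.e (nat_lit 163861) (nat_lit 1) .nil))))))) (.g (nat_lit 5) .nil .nil))) 
(.lf (nat_lit 259009) (.g (nat_lit 2468) (.e (nat_lit 164347) (nat_lit 240) (.e (nat_lit 2610) (nat_lit 163) (.e (nat_lit 163979) (nat_lit 30) (.e (nat_lit 573449) (nat_lit 9) (.e (nat_lit 1615) (nat_lit 113) .nil))))) .nil))) (.nd (nat_lit 6) 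
(.lf (nat_lit 258977) (.g (nat_lit 2043) (.e (nat_lit 164336) (nat_lit 232) (.e (nat_lit 1661) (nat_lit 115) (.e (nat_lit 393260) (nat_lit 21) (.e (nat_lit 409648) (nat_lit 18) .nil)))) .nil)) 
(.lf (nat_lit 259041) (.g (nat_lit 880) (.e (nat_lit 164348) (nat_lit 240) (.e (nat_lit 2640) (nat_lit 165) (.e (nat_lit 180271) (nat_lit 26) (.e (nat_lit 704628) (nat_lit 9) .nil)))) .nil)))) (.nd (nat_lit 5) (.nd (nat_lit 6) 
(.lf (nat_lit 258961) (.g (nat_lit 1792) (.e (nat_lit 164332) (nat_lit 230) (.e (nat_lit 163905) (nat_lit 12) (.e (nat_lit 426566) (nat_lit 34) (.e (nat_lit 393273) (nat_lit 23) (.e (nat_lit 426382) (nat_lit 15) .nil))))) .nil)) 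
(.lf (nat_lit 259025) (.g (nat_lit 741) (.e (nat_lit 164347) (nat_lit 240) (.e (nat_lit 2640) (nat_lit 165) (.e (nat_lit 180278) (nat_lit 32) (.e (nat_lit 1658) (nat_lit 115) .nil)))) .nil))) (.nd (nat_lit 6) 
(.lf (nat_lit 258993) (.g (nat_lit 3699) (.e (nat_lit 164345) (nat_lit 240) (.e (nat_lit 2600) (nat_lit 163) (.e (nat_lit 163975) (nat_lit 30) (.e (nat_lit 573450) (nat_lit 9) (.e (nat_lit 1615) (nat_lit 113) (.e (nat_lit 376865) (nat_lit 22) (.e (nat_lit 90185) (nat_lit 17) (.e (nat_lit 237584) (nat_lit 1) .nil)))))))) (.g (nat_lit 8) .nil .nil))) 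
(.lf (nat_lit 259057) (.g (nat_lit 940) (.e (nat_lit 164352) (nat_lit 246) (.e (nat_lit 348) (nat_lit 28) (.e (nat_lit 393271) (nat_lit 23) (.e (nat_lit 426432) (nat_lit 17) (.e (nat_lit 90203) (nat_lit 21) .nil))))) .nil))))) (.nd (nat_lit 4) (.nd (nat_lit 5) (.nd (nat_lit 6) 
(.lf (nat_lit 258953) (.g (nat_lit 4098) (.e (nat_lit 164332) (nat_lit 230) (.e (nat_lit 163905) (nat_lit 12) (.e (nat_lit 426438) (nat_lit 18) (.e (nat_lit 98373) (nat_lit 29) (.e (nat_lit 450563) (nat_lit 0) (.e (nat_lit 6841) (nat_lit 369) (.e (nat_lit 163862) (nat_lit 1) .nil))))))) (.g (nat_lit 5) .nil .nil))) 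
(.lf (nat_lit 259017) (.g (nat_lit 2256) (.e (nat_lit 164347) (nat_lit 240) (.e (nat_lit 2638) (nat_lit 165) (.e (nat_lit 180277) (nat_lit 32) (.e (nat_lit 1661) (nat_lit 115) (.e (nat_lit 393274) (nat_lit 23) (.e (nat_lit 426097) (nat_lit 1) .nil)))))) (.g (nat_lit 4) .nil .nil)))) (.nd (nat_lit 6) 
(.lf (nat_lit 258985) (.g (nat_lit 2426) (.e (nat_lit 164342) (nat_lit 232) (.e (nat_lit 1659) (nat_lit 115) (.e (nat_lit 393301) (nat_lit 27) (.e (nat_lit 491560) (nat_lit 10) (.e (nat_lit 344097) (nat_lit 18) .nil))))) .nil)) 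
(.lf (nat_lit 259049) (.g (nat_lit 1219) (.e (nat_lit 164351) (nat_lit 246) (.e (nat_lit 3098) (nat_lit 192) (.e (nat_lit 491540) (nat_lit 3) (.e (nat_lit 98373) (nat_lit 29) .nil)))) .nil)))) (.nd (nat_lit 5) (.nd (nat_lit 6) 
(.lf (nat_lit 258969) (.g (nat_lit 2067) (.e (nat_lit 164332) (nat_lit 230) (.e (nat_lit 163943) (nat_lit 19) (.e (nat_lit 483341) (nat_lit 9) (.e (nat_lit 426198) (nat_lit 9) (.e (nat_lit 426393) (nat_lit 15) .nil))))) .nil)) 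
(.lf (nat_lit 259033) (.g (nat_lit 3118) (.e (nat_lit 164348) (nat_lit 240) (.e (nat_lit 2610) (nat_lit 163) (.e (nat_lit 163979) (nat_lit 30) (.e (nat_lit 573449) (nat_lit 9) (.e (nat_lit 1615) (nat_lit 113) (.e (nat_lit 376865) (nat_lit 22) (.e (nat_lit 90185) (nat_lit 17) (.e (nat_lit 237584) (nat_lit 1) .nil)))))))) (.g (nat_lit 4) .nil .nil)))) (.nd (nat_lit 6) 
(.lf (nat_lit 259001) (.g (nat_lit 972) (.e (nat_lit 164345) (nat_lit 240) (.e (nat_lit 2638) (nat_lit 165) (.e (nat_lit 180278) (nat_lit 32) (.e (nat_lit 1659) (nat_lit 115) .nil)))) .nil)) 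
(.lf (nat_lit 259065) (.g (nat_lit 809) (.e (nat_lit 164353) (nat_lit 246) (.e (nat_lit 100) (nat_lit 2) (.e (nat_lit 90185) (nat_lit 17) (.e (nat_lit 237605) (nat_lit 9) .nil)))) .nil)))))) (.nd (nat_lit 3) (.nd (nat_lit 4) (.nd (nat_lit 5) (.nd (nat_lit 6) 
(.lf (nat_lit 258949) (.g (nat_lit 3608) (.e (nat_lit 164332) (nat_lit 230) (.e (nat_lit 163905) (nat_lit 12) (.e (nat_lit 426438) (nat_lit 18) (.e (nat_lit 98373) (nat_lit 29) (.e (nat_lit 450562) (nat_lit 0) (.e (nat_lit 7936) (nat_lit 369) (.e (nat_lit 163864) (nat_lit 1) .nil))))))) (.g (nat_lit 5) .nil .nil))) 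
(.lf (nat_lit 259013) (.g (nat_lit 1982) (.e (nat_lit 164347) (nat_lit 240) (.e (nat_lit 2619) (nat_lit 164) (.e (nat_lit 172124) (nat_lit 14) (.e (nat_lit 491569) (nat_lit 13) (.e (nat_lit 393277) (nat_lit 23) .nil))))) .nil))) (.nd (nat_lit 6) 
(.lf (nat_lit 258981) (.g (nat_lit 2124) (.e (nat_lit 164341) (nat_lit 232) (.e (nat_lit 1661) (nat_lit 115) (.e (nat_lit 393260) (nat_lit 21) (.e (nat_lit 409649) (nat_lit 18) .nil)))) .nil)) 
(.lf (nat_lit 259045) (.g (nat_lit 926) (.e (nat_lit 164351) (nat_lit 246) (.e (nat_lit 227) (nat_lit 21) (.e (nat_lit 336430) (nat_lit 29) (.e (nat_lit 442425) (nat_lit 23) (.e (nat_lit 204805) (nat_lit 0) .nil))))) .nil)))) (.nd (nat_lit 5) (.nd (nat_lit 6) 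
(.lf (nat_lit 258965) (.g (nat_lit 1721) (.e (nat_lit 164332) (nat_lit 230) (.e (nat_lit 163941) (nat_lit 19) (.e (nat_lit 483341) (nat_lit 9) (.e (nat_lit 426198) (nat_lit 9) (.e (nat_lit 426393) (nat_lit 15) .nil))))) .nil)) 
(.lf (nat_lit 259029) (.g (nat_lit 474) (.e (nat_lit 164348) (nat_lit 240) (.e (nat_lit 2610) (nat_lit 163) (.e (nat_lit 171776) (nat_lit 23) .nil))) .nil))) (.nd (nat_lit 6) 
(.lf (nat_lit 258997) (.g (nat_lit 2500) (.e (nat_lit 164345) (nat_lit 240) (.e (nat_lit 2610) (nat_lit 163) (.e (nat_lit 163979) (nat_lit 30) (.e (nat_lit 573452) (nat_lit 9) (.e (nat_lit 1625) (nat_lit 113) .nil))))) .nil)) 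
(.lf (nat_lit 259061) (.g (nat_lit 2734) (.e (nat_lit 164353) (nat_lit 246) (.e (nat_lit 100) (nat_lit 2) (.e (nat_lit 90174) (nat_lit 14) (.e (nat_lit 180243) (nat_lit 5) (.e (nat_lit 532515) (nat_lit 3) (.e (nat_lit 114716) (nat_lit 22) (.e (nat_lit 98048) (nat_lit 21) .nil))))))) (.g (nat_lit 6) .nil .nil)))))) (.nd (nat_lit 4) (.nd (nat_lit 5) (.nd (nat_lit 6) 
(.lf (nat_lit 258957) (.g (nat_lit 912) (.e (nat_lit 164332) (nat_lit 230) (.e (nat_lit 163905) (nat_lit 12) (.e (nat_lit 426480) (nat_lit 27) .nil))) .nil)) 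
(.lf (nat_lit 259021) (.g (nat_lit 3742) (.e (nat_lit 164347) (nat_lit 240) (.e (nat_lit 2638) (nat_lit 165) (.e (nat_lit 180278) (nat_lit 32) (.e (nat_lit 1427) (nat_lit 108) (.e (nat_lit 336443) (nat_lit 32) (.e (nat_lit 466969) (nat_lit 21) .nil)))))) (.g (nat_lit 0) .nil .nil)))) (.nd (nat_lit 6) 
(.lf (nat_lit 258989) (.g (nat_lit 2124) (.e (nat_lit 164342) (nat_lit 232) (.e (nat_lit 1661) (nat_lit 115) (.e (nat_lit 393260) (nat_lit 21) (.e (nat_lit 409649) (nat_lit 18) .nil)))) .nil)) 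
(.lf (nat_lit 259053) (.g (nat_lit 1423) (.e (nat_lit 164352) (nat_lit 246) (.e (nat_lit 226) (nat_lit 21) (.e (nat_lit 336443) (nat_lit 32) (.e (nat_lit 466979) (nat_lit 23) .nil)))) .nil)))) (.nd (nat_lit 5) (.nd (nat_lit 6) 
(.lf (nat_lit 258973) (.g (nat_lit 2253) (.e (nat_lit 164335) (nat_lit 232) (.e (nat_lit 1661) (nat_lit 115) (.e (nat_lit 393260) (nat_lit 21) (.e (nat_lit 409617) (nat_lit 10) .nil)))) .nil)) 
(.lf (nat_lit 259037) (.g (nat_lit 2288) (.e (nat_lit 164348) (nat_lit 240) (.e (nat_lit 2619) (nat_lit 164) (.e (nat_lit 172126) (nat_lit 14) (.e (nat_lit 491549) (nat_lit 9) (.e (nat_lit 336426) (nat_lit 29) .nil))))) .nil))) (.nd (nat_lit 6) 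
(.lf (nat_lit 259005) (.g (nat_lit 3704) (.e (nat_lit 164346) (nat_lit 240) (.e (nat_lit 2638) (nat_lit 165) (.e (nat_lit 180278) (nat_lit 32) (.e (nat_lit 1427) (nat_lit 108) (.e (nat_lit 336430) (nat_lit 29) (.e (nat_lit 442421) (nat_lit 21) .nil)))))) (.g (nat_lit 0) .nil .nil))) 
(.lf (nat_lit 259069) (.g (nat_lit 2133) (.e (nat_lit 164353) (nat_lit 246) (.e (nat_lit 112) (nat_lit 3) (.e (nat_lit 98376) (nat_lit 30) (.e (nat_lit 458789) (nat_lit 23) (.e (nat_lit 532515) (nat_lit 3) (.e (nat_lit 114716) (nat_lit 22) (.e (nat_lit 98048) (nat_lit 21) .nil))))))) (.g (nat_lit 6) .nil .nil)))))))) 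
(.nd (nat_lit 2) (.nd (nat_lit 3) (.nd (nat_lit 4) (.nd (nat_lit 5) (.nd (nat_lit 6) 
(.lf (nat_lit 258947) (.g (nat_lit 3740) (.e (nat_lit 164332) (nat_lit 230) (.e (nat_lit 163905) (nat_lit 12) (.e (nat_lit 426438) (nat_lit 18) (.e (nat_lit 98373) (nat_lit 29) (.e (nat_lit 450562) (nat_lit 0) (.e (nat_lit 6841) (nat_lit 369) (.e (nat_lit 163860) (nat_lit 1) .nil))))))) (.g (nat_lit 5) .nil .nil))) 
(.lf (nat_lit 259011) (.g (nat_lit 2500) (.e (nat_lit 164347) (nat_lit 240) (.e (nat_lit 2610) (nat_lit 163) (.e (nat_lit 163979) (nat_lit 30) (.e (nat_lit 573452) (nat_lit 9) (.e (nat_lit 1625) (nat_lit 113) .nil))))) .nil))) (.nd (nat_lit 6) 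
(.lf (nat_lit 258979) (.g (nat_lit 2919) (.e (nat_lit 164336) (nat_lit 232) (.e (nat_lit 1661) (nat_lit 115) (.e (nat_lit 393260) (nat_lit 21) (.e (nat_lit 409649) (nat_lit 18) (.e (nat_lit 303111) (nat_lit 0) .nil))))) .nil)) 
(.lf (nat_lit 259043) (.g (nat_lit 636) (.e (nat_lit 164351) (nat_lit 246) (.e (nat_lit 214) (nat_lit 19) (.e (nat_lit 319531) (nat_lit 16) .nil))) .nil)))) (.nd (nat_lit 5) (.nd (nat_lit 6) 
(.lf (nat_lit 258963) (.g (nat_lit 976) (.e (nat_lit 164332) (nat_lit 230) (.e (nat_lit 163905) (nat_lit 12) (.e (nat_lit 426568) (nat_lit 34) (.e (nat_lit 393266) (nat_lit 23) .nil)))) .nil)) 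
(.lf (nat_lit 259027) (.g (nat_lit 1660) (.e (nat_lit 164347) (nat_lit 240) (.e (nat_lit 2640) (nat_lit 165) (.e (nat_lit 180278) (nat_lit 32) (.e (nat_lit 1661) (nat_lit 115) (.e (nat_lit 393281) (nat_lit 23) .nil))))) .nil))) (.nd (nat_lit 6) 
(.lf (nat_lit 258995) (.g (nat_lit 1886) (.e (nat_lit 164345) (nat_lit 240) (.e (nat_lit 2610) (nat_lit 163) (.e (nat_lit 163979) (nat_lit 30) (.e (nat_lit 573449) (nat_lit 9) .nil)))) .nil)) 
(.lf (nat_lit 259059) (.g (nat_lit 1236) (.e (nat_lit 164352) (nat_lit 246) (.e (nat_lit 348) (nat_lit 28) (.e (nat_lit 393294) (nat_lit 26) (.e (nat_lit 475169) (nat_lit 22) (.e (nat_lit 499791) (nat_lit 3) .nil))))) .nil))))) (.nd (nat_lit 4) (.nd (nat_lit 5) (.nd (nat_lit 6) 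
(.lf (nat_lit 258955) (.g (nat_lit 3319) (.e (nat_lit 164332) (nat_lit 230) (.e (nat_lit 163905) (nat_lit 12) (.e (nat_lit 426438) (nat_lit 18) (.e (nat_lit 98373) (nat_lit 29) (.e (nat_lit 450568) (nat_lit 0) (.e (nat_lit 7936) (nat_lit 369) (.e (nat_lit 163864) (nat_lit 1) .nil))))))) (.g (nat_lit 5) .nil .nil))) 
(.lf (nat_lit 259019) (.g (nat_lit 2638) (.e (nat_lit 164347) (nat_lit 240) (.e (nat_lit 2638) (nat_lit 165) (.e (nat_lit 180277) (nat_lit 32) (.e (nat_lit 1661) (nat_lit 115) (.e (nat_lit 393280) (nat_lit 23) (.e (nat_lit 426107) (nat_lit 1) .nil)))))) (.g (nat_lit 4) .nil .nil)))) (.nd (nat_lit 6) 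
(.lf (nat_lit 258987) (.g (nat_lit 2253) (.e (nat_lit 164342) (nat_lit 232) (.e (nat_lit 1661) (nat_lit 115) (.e (nat_lit 393260) (nat_lit 21) (.e (nat_lit 409617) (nat_lit 10) .nil)))) .nil)) 
(.lf (nat_lit 259051) (.g (nat_lit 1682) (.e (nat_lit 164352) (nat_lit 246) (.e (nat_lit 68) (nat_lit 0) (.e (nat_lit 6114) (nat_lit 332) (.e (nat_lit 1370) (nat_lit 103) .nil)))) .nil)))) (.nd (nat_lit 5) (.nd (nat_lit 6) 
(.lf (nat_lit 258971) (.g (nat_lit 2972) (.e (nat_lit 164335) (nat_lit 232) (.e (nat_lit 1659) (nat_lit 115) (.e (nat_lit 393301) (nat_lit 27) (.e (nat_lit 491560) (nat_lit 10) (.e (nat_lit 344087) (nat_lit 18) .nil))))) .nil)) 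
(.lf (nat_lit 259035) (.g (nat_lit 3086) (.e (nat_lit 164348) (nat_lit 240) (.e (nat_lit 2610) (nat_lit 163) (.e (nat_lit 163979) (nat_lit 30) (.e (nat_lit 573452) (nat_lit 9) (.e (nat_lit 1625) (nat_lit 113) (.e (nat_lit 376865) (nat_lit 22) (.e (nat_lit 90185) (nat_lit 17) (.e (nat_lit 237582) (nat_lit 1) .nil)))))))) (.g (nat_lit 4) .nil .nil)))) (.nd (nat_lit 6) 
(.lf (nat_lit 259003) (.g (nat_lit 2070) (.e (nat_lit 164346) (nat_lit 240) (.e (nat_lit 2628) (nat_lit 164) (.e (nat_lit 172126) (nat_lit 14) (.e (nat_lit 491547) (nat_lit 9) (.e (nat_lit 336443) (nat_lit 32) .nil))))) .nil)) 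
(.lf (nat_lit 259067) (.g (nat_lit 3618) (.e (nat_lit 164353) (nat_lit 246) (.e (nat_lit 112) (nat_lit 3) (.e (nat_lit 98358) (nat_lit 26) (.e (nat_lit 426131) (nat_lit 3) (.e (nat_lit 204838) (nat_lit 20) (.e (nat_lit 114716) (nat_lit 22) (.e (nat_lit 98048) (nat_lit 21) .nil))))))) (.g (nat_lit 6) .nil .nil))))))) (.nd (nat_lit 3) (.nd (nat_lit 4) (.nd (nat_lit 5) (.nd (nat_lit 6) 
(.lf (nat_lit 258951) (.g (nat_lit 4261) (.e (nat_lit 164332) (nat_lit 230) (.e (nat_lit 163905) (nat_lit 12) (.e (nat_lit 426438) (nat_lit 18) (.e (nat_lit 98373) (nat_lit 29) (.e (nat_lit 450563) (nat_lit 0) (.e (nat_lit 6839) (nat_lit 369) (.e (nat_lit 163862) (nat_lit 1) .nil))))))) (.g (nat_lit 5) .nil .nil))) 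
(.lf (nat_lit 259015) (.g (nat_lit 2020) (.e (nat_lit 164347) (nat_lit 240) (.e (nat_lit 2619) (nat_lit 164) (.e (nat_lit 172126) (nat_lit 14) (.e (nat_lit 491569) (nat_lit 13) (.e (nat_lit 393281) (nat_lit 23) .nil))))) .nil))) (.nd (nat_lit 6) 
(.lf (nat_lit 258983) (.g (nat_lit 2574) (.e (nat_lit 164342) (nat_lit 232) (.e (nat_lit 1659) (nat_lit 115) (.e (nat_lit 393301) (nat_lit 27) (.e (nat_lit 491560) (nat_lit 10) (.e (nat_lit 344090) (nat_lit 18) .nil))))) .nil)) 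
(.lf (nat_lit 259047) (.g (nat_lit 2307) (.e (nat_lit 164351) (nat_lit 246) (.e (nat_lit 324) (nat_lit 24) (.e (nat_lit 360474) (nat_lit 8) (.e (nat_lit 557059) (nat_lit 0) .nil)))) .nil)))) (.nd (nat_lit 5) (.nd (nat_lit 6) 
(.lf (nat_lit 258967) (.g (nat_lit 4069) (.e (nat_lit 164332) (nat_lit 230) (.e (nat_lit 163941) (nat_lit 19) (.e (nat_lit 483341) (nat_lit 9) (.e (nat_lit 426263) (nat_lit 9) .nil)))) .nil)) 
(.lf (nat_lit 259031) (.g (nat_lit 2736) (.e (nat_lit 164348) (nat_lit 240) (.e (nat_lit 2610) (nat_lit 163) (.e (nat_lit 163977) (nat_lit 30) (.e (nat_lit 573449) (nat_lit 9) (.e (nat_lit 1615) (nat_lit 113) (.e (nat_lit 376865) (nat_lit 22) (.e (nat_lit 90185) (nat_lit 17) (.e (nat_lit 237582) (nat_lit 1) .nil)))))))) (.g (nat_lit 4) .nil .nil)))) (.nd (nat_lit 6) 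
(.lf (nat_lit 258999) (.g (nat_lit 3561) (.e (nat_lit 164345) (nat_lit 240) (.e (nat_lit 2638) (nat_lit 165) (.e (nat_lit 180278) (nat_lit 32) (.e (nat_lit 1427) (nat_lit 108) (.e (nat_lit 336430) (nat_lit 29) (.e (nat_lit 442419) (nat_lit 21) .nil)))))) (.g (nat_lit 0) .nil .nil))) 
(.lf (nat_lit 259063) (.g (nat_lit 579) (.e (nat_lit 164353) (nat_lit 246) (.e (nat_lit 100) (nat_lit 2) (.e (nat_lit 90176) (nat_lit 15) (.e (nat_lit 196352) (nat_lit 17) .nil)))) .nil))))) (.nd (nat_lit 4) (.nd (nat_lit 5) (.nd (nat_lit 6) 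
(.lf (nat_lit 258959) (.g (nat_lit 794) (.e (nat_lit 164332) (nat_lit 230) (.e (nat_lit 163905) (nat_lit 12) (.e (nat_lit 426564) (nat_lit 34) .nil))) .nil)) 
(.lf (nat_lit 259023) (.g (nat_lit 1445) (.e (nat_lit 164347) (nat_lit 240) (.e (nat_lit 2640) (nat_lit 165) (.e (nat_lit 180277) (nat_lit 32) (.e (nat_lit 1661) (nat_lit 115) (.e (nat_lit 393277) (nat_lit 23) .nil))))) .nil))) (.nd (nat_lit 6) 
(.lf (nat_lit 258991) (.g (nat_lit 1679) (.e (nat_lit 171776) (nat_lit 234) (.e (nat_lit 16470) (nat_lit 14) (.e (nat_lit 491569) (nat_lit 13) (.e (nat_lit 393238) (nat_lit 17) .nil)))) .nil)) 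
(.lf (nat_lit 259055) (.g (nat_lit 1154) (.e (nat_lit 164352) (nat_lit 246) (.e (nat_lit 234) (nat_lit 21) (.e (nat_lit 336443) (nat_lit 32) (.e (nat_lit 466979) (nat_lit 23) .nil)))) .nil)))) (.nd (nat_lit 5) (.nd (nat_lit 6) 
(.lf (nat_lit 258975) (.g (nat_lit 2124) (.e (nat_lit 164335) (nat_lit 232) (.e (nat_lit 1661) (nat_lit 115) (.e (nat_lit 393260) (nat_lit 21) (.e (nat_lit 409649) (nat_lit 18) .nil)))) .nil)) 
(.lf (nat_lit 259039) (.g (nat_lit 1651) (.e (nat_lit 164348) (nat_lit 240) (.e (nat_lit 2638) (nat_lit 165) (.e (nat_lit 180277) (nat_lit 32) (.e (nat_lit 1661) (nat_lit 115) (.e (nat_lit 393274) (nat_lit 23) .nil))))) .nil))) (.nd (nat_lit 6) 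
(.lf (nat_lit 259007) (.g (nat_lit 446) (.e (nat_lit 164347) (nat_lit 240) (.e (nat_lit 2610) (nat_lit 163) (.e (nat_lit 171776) (nat_lit 23) .nil))) .nil)) 
(.lf (nat_lit 259071) (.g (nat_lit 1445) (.e (nat_lit 164353) (nat_lit 246) (.e (nat_lit 216) (nat_lit 19) (.e (nat_lit 319536) (nat_lit 17) (.e (nat_lit 294958) (nat_lit 13) (.e (nat_lit 393238) (nat_lit 17) .nil))))) .nil)))))))))

noncomputable def tv3346 : DT := (.nd (nat_lit 0) (.nd (nat_lit 1) (.nd (nat_lit 2) (.nd (nat_lit 3) (.nd (nat_lit 4) 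
(.lf (nat_lit 259072) (.g (nat_lit 1390) (.e (nat_lit 164353) (nat_lit 246) (.e (nat_lit 216) (nat_lit 19) (.e (nat_lit 319536) (nat_lit 17) (.e (nat_lit 294960) (nat_lit 13) (.e (nat_lit 393238) (nat_lit 17) .nil))))) .nil)) 
(.lf (nat_lit 259088) (.g (nat_lit 1987) (.e (nat_lit 164353) (nat_lit 246) (.e (nat_lit 351) (nat_lit 28) (.e (nat_lit 393268) (nat_lit 23) (.e (nat_lit 426428) (nat_lit 17) (.e (nat_lit 90203) (nat_lit 21) (.e (nat_lit 164294) (nat_lit 224) .nil)))))) (.g (nat_lit 4) .nil .nil)))) (.nd (nat_lit 4) 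
(.lf (nat_lit 259080) (.g (nat_lit 1158) (.e (nat_lit 164353) (nat_lit 246) (.e (nat_lit 226) (nat_lit 21) (.e (nat_lit 336443) (nat_lit 32) (.e (nat_lit 466977) (nat_lit 22) .nil)))) .nil)) 
(.lf (nat_lit 259096) (.g (nat_lit 1387) (.e (nat_lit 164353) (nat_lit 246) (.e (nat_lit 351) (nat_lit 28) (.e (nat_lit 393279) (nat_lit 23) (.e (nat_lit 426431) (nat_lit 17) (.e (nat_lit 90203) (nat_lit 21) (.e (nat_lit 164294) (nat_lit 224) .nil)))))) (.g (nat_lit 0) .nil .nil))))) (.nd (nat_lit 3) (.nd (nat_lit 4) 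
(.lf (nat_lit 259076) (.g (nat_lit 2816) (.e (nat_lit 164353) (nat_lit 246) (.e (nat_lit 226) (nat_lit 21) (.e (nat_lit 336432) (nat_lit 30) (.e (nat_lit 450580) (nat_lit 5) (.e (nat_lit 532575) (nat_lit 17) (.e (nat_lit 7096) (nat_lit 380) .nil)))))) (.g (nat_lit 0) .nil .nil))) 
(.lf (nat_lit 259092) (.g (nat_lit 1772) (.e (nat_lit 164353) (nat_lit 246) (.e (nat_lit 351) (nat_lit 28) (.e (nat_lit 393271) (nat_lit 23) (.e (nat_lit 426432) (nat_lit 17) (.e (nat_lit 90203) (nat_lit 21) (.e (nat_lit 164293) (nat_lit 224) .nil)))))) (.g (nat_lit 4) .nil .nil)))) (.nd (nat_lit 4) 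
(.lf (nat_lit 259084) (.g (nat_lit 2777) (.e (nat_lit 164353) (nat_lit 246) (.e (nat_lit 323) (nat_lit 24) (.e (nat_lit 360474) (nat_lit 8) (.e (nat_lit 557058) (nat_lit 0) .nil)))) .nil)) 
(.lf (nat_lit 259100) (.g (nat_lit 2218) (.e (nat_lit 164353) (nat_lit 246) (.e (nat_lit 351) (nat_lit 28) (.e (nat_lit 393286) (nat_lit 25) (.e (nat_lit 458789) (nat_lit 23) (.e (nat_lit 532575) (nat_lit 17) (.e (nat_lit 7098) (nat_lit 380) .nil)))))) (.g (nat_lit 0) .nil .nil)))))) (.nd (nat_lit 2) (.nd (nat_lit 3) (.nd (nat_lit 4) 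
(.lf (nat_lit 259074) (.g (nat_lit 2501) (.e (nat_lit 164353) (nat_lit 246) (.e (nat_lit 226) (nat_lit 21) (.e (nat_lit 336430) (nat_lit 29) (.e (nat_lit 442427) (nat_lit 23) (.e (nat_lit 204805) (nat_lit 0) (.e (nat_lit 7098) (nat_lit 380) .nil)))))) (.g (nat_lit 0) .nil .nil))) 
(.lf (nat_lit 259090) (.g (nat_lit 2175) (.e (nat_lit 164353) (nat_lit 246) (.e (nat_lit 351) (nat_lit 28) (.e (nat_lit 393268) (nat_lit 23) (.e (nat_lit 426432) (nat_lit 17) (.e (nat_lit 90203) (nat_lit 21) (.e (nat_lit 164294) (nat_lit 224) .nil)))))) (.g (nat_lit 0) .nil .nil)))) (.nd (nat_lit 4) 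
(.lf (nat_lit 259082) (.g (nat_lit 2399) (.e (nat_lit 164353) (nat_lit 246) (.e (nat_lit 226) (nat_lit 21) (.e (nat_lit 336443) (nat_lit 32) (.e (nat_lit 466979) (nat_lit 23) (.e (nat_lit 204805) (nat_lit 0) (.e (nat_lit 7098) (nat_lit 380) .nil)))))) (.g (nat_lit 0) .nil .nil))) 
(.lf (nat_lit 259098) (.g (nat_lit 2540) (.e (nat_lit 164353) (nat_lit 246) (.e (nat_lit 351) (nat_lit 28) (.e (nat_lit 393281) (nat_lit 23) (.e (nat_lit 426133) (nat_lit 3) (.e (nat_lit 204805) (nat_lit 0) (.e (nat_lit 7096) (nat_lit 380) .nil)))))) (.g (nat_lit 0) .nil .nil))))) (.nd (nat_lit 3) (.nd (nat_lit 4) 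
(.lf (nat_lit 259078) (.g (nat_lit 396) (.e (nat_lit 164353) (nat_lit 246) (.e (nat_lit 226) (nat_lit 21) (.e (nat_lit 336434) (nat_lit 30) .nil))) .nil)) 
(.lf (nat_lit 259094) (.g (nat_lit 879) (.e (nat_lit 164353) (nat_lit 246) (.e (nat_lit 351) (nat_lit 28) (.e (nat_lit 393274) (nat_lit 23) (.e (nat_lit 426132) (nat_lit 3) .nil)))) .nil))) (.nd (nat_lit 4) 
(.lf (nat_lit 259086) (.g (nat_lit 1489) (.e (nat_lit 164353) (nat_lit 246) (.e (nat_lit 351) (nat_lit 28) (.e (nat_lit 393267) (nat_lit 23) (.e (nat_lit 426432) (nat_lit 17) (.e (nat_lit 90203) (nat_lit 21) (.e (nat_lit 164293) (nat_lit 224) .nil)))))) (.g (nat_lit 4) .nil .nil))) 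
(.lf (nat_lit 259102) (.g (nat_lit 2694) (.e (nat_lit 164353) (nat_lit 246) (.e (nat_lit 355) (nat_lit 29) (.e (nat_lit 401454) (nat_lit 12) (.e (nat_lit 475210) (nat_lit 41) (.e (nat_lit 712745) (nat_lit 27) .nil))))) .nil)))))) (.nd (nat_lit 1) (.nd (nat_lit 2) (.nd (nat_lit 3) (.nd (nat_lit 4) 
(.lf (nat_lit 259073) (.g (nat_lit 2324) (.e (nat_lit 164353) (nat_lit 246) (.e (nat_lit 226) (nat_lit 21) (.e (nat_lit 336430) (nat_lit 29) (.e (nat_lit 442425) (nat_lit 23) (.e (nat_lit 204805) (nat_lit 0) (.e (nat_lit 7098) (nat_lit 380) .nil)))))) (.g (nat_lit 0) .nil .nil))) 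
(.lf (nat_lit 259089) (.g (nat_lit 1722) (.e (nat_lit 164353) (nat_lit 246) (.e (nat_lit 351) (nat_lit 28) (.e (nat_lit 393268) (nat_lit 23) (.e (nat_lit 426432) (nat_lit 17) (.e (nat_lit 90203) (nat_lit 21) (.e (nat_lit 164293) (nat_lit 224) .nil)))))) (.g (nat_lit 4) .nil .nil)))) (.nd (nat_lit 4) 
(.lf (nat_lit 259081) (.g (nat_lit 2317) (.e (nat_lit 164353) (nat_lit 246) (.e (nat_lit 226) (nat_lit 21) (.e (nat_lit 336443) (nat_lit 32) (.e (nat_lit 466977) (nat_lit 22) (.e (nat_lit 196651) (nat_lit 10) .nil))))) .nil)) 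
(.lf (nat_lit 259097) (.g (nat_lit 742) (.e (nat_lit 164353) (nat_lit 246) (.e (nat_lit 351) (nat_lit 28) (.e (nat_lit 393281) (nat_lit 23) (.e (nat_lit 426115) (nat_lit 2) (.e (nat_lit 196651) (nat_lit 10) .nil))))) .nil)))) (.nd (nat_lit 3) (.nd (nat_lit 4) 
(.lf (nat_lit 259077) (.g (nat_lit 2670) (.e (nat_lit 164353) (nat_lit 246) (.e (nat_lit 226) (nat_lit 21) (.e (nat_lit 336432) (nat_lit 30) (.e (nat_lit 450580) (nat_lit 5) (.e (nat_lit 532575) (nat_lit 17) (.e (nat_lit 7098) (nat_lit 380) .nil)))))) (.g (nat_lit 0) .nil .nil))) 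
(.lf (nat_lit 259093) (.g (nat_lit 2274) (.e (nat_lit 164353) (nat_lit 246) (.e (nat_lit 351) (nat_lit 28) (.e (nat_lit 393271) (nat_lit 23) (.e (nat_lit 426432) (nat_lit 17) (.e (nat_lit 90203) (nat_lit 21) (.e (nat_lit 164294) (nat_lit 224) .nil)))))) (.g (nat_lit 0) .nil .nil)))) (.nd (nat_lit 4) 
(.lf (nat_lit 259085) (.g (nat_lit 2928) (.e (nat_lit 164353) (nat_lit 246) (.e (nat_lit 323) (nat_lit 24) (.e (nat_lit 360474) (nat_lit 8) (.e (nat_lit 557059) (nat_lit 0) (.e (nat_lit 1633) (nat_lit 114) .nil))))) .nil)) 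
(.lf (nat_lit 259101) (.g (nat_lit 2192) (.e (nat_lit 164353) (nat_lit 246) (.e (nat_lit 351) (nat_lit 28) (.e (nat_lit 393287) (nat_lit 25) (.e (nat_lit 458789) (nat_lit 23) (.e (nat_lit 532575) (nat_lit 17) (.e (nat_lit 7098) (nat_lit 380) .nil)))))) (.g (nat_lit 0) .nil .nil)))))) (.nd (nat_lit 2) (.nd (nat_lit 3) (.nd (nat_lit 4) 
(.lf (nat_lit 259075) (.g (nat_lit 390) (.e (nat_lit 164353) (nat_lit 246) (.e (nat_lit 226) (nat_lit 21) (.e (nat_lit 336432) (nat_lit 30) .nil))) .nil)) 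
(.lf (nat_lit 259091) (.g (nat_lit 1419) (.e (nat_lit 164353) (nat_lit 246) (.e (nat_lit 351) (nat_lit 28) (.e (nat_lit 393270) (nat_lit 23) (.e (nat_lit 426432) (nat_lit 17) (.e (nat_lit 90203) (nat_lit 21) (.e (nat_lit 164293) (nat_lit 224) .nil)))))) (.g (nat_lit 4) .nil .nil)))) (.nd (nat_lit 4) 
(.lf (nat_lit 259083) (.g (nat_lit 2501) (.e (nat_lit 164353) (nat_lit 246) (.e (nat_lit 226) (nat_lit 21) (.e (nat_lit 336443) (nat_lit 32) (.e (nat_lit 466981) (nat_lit 23) (.e (nat_lit 204805) (nat_lit 0) (.e (nat_lit 7098) (nat_lit 380) .nil)))))) (.g (nat_lit 0) .nil .nil))) 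
(.lf (nat_lit 259099) (.g (nat_lit 2370) (.e (nat_lit 164353) (nat_lit 246) (.e (nat_lit 351) (nat_lit 28) (.e (nat_lit 393281) (nat_lit 23) (.e (nat_lit 426133) (nat_lit 3) (.e (nat_lit 204805) (nat_lit 0) (.e (nat_lit 7098) (nat_lit 380) .nil)))))) (.g (nat_lit 0) .nil .nil))))) (.nd (nat_lit 3) (.nd (nat_lit 4) 
(.lf (nat_lit 259079) (.g (nat_lit 2324) (.e (nat_lit 164353) (nat_lit 246) (.e (nat_lit 226) (nat_lit 21) (.e (nat_lit 336443) (nat_lit 32) (.e (nat_lit 466974) (nat_lit 22) (.e (nat_lit 196651) (nat_lit 10) .nil))))) .nil)) 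
(.lf (nat_lit 259095) (.g (nat_lit 1932) (.e (nat_lit 164353) (nat_lit 246) (.e (nat_lit 351) (nat_lit 28) (.e (nat_lit 393279) (nat_lit 23) (.e (nat_lit 426129) (nat_lit 3) (.e (nat_lit 204805) (nat_lit 0) (.e (nat_lit 7098) (nat_lit 380) .nil)))))) (.g (nat_lit 0) .nil .nil)))) (.nd (nat_lit 4) 
(.lf (nat_lit 259087) (.g (nat_lit 2005) (.e (nat_lit 164353) (nat_lit 246) (.e (nat_lit 351) (nat_lit 28) (.e (nat_lit 393268) (nat_lit 23) (.e (nat_lit 426428) (nat_lit 17) (.e (nat_lit 90203) (nat_lit 21) (.e (nat_lit 164291) (nat_lit 224) .nil)))))) (.g (nat_lit 4) .nil .nil))) 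
(.lf (nat_lit 259103) (.g (nat_lit 1353) (.e (nat_lit 164354) (nat_lit 246) (.e (nat_lit 16) (nat_lit 0) (.e (nat_lit 6114) (nat_lit 332) (.e (nat_lit 1370) (nat_lit 103) .nil)))) .nil)))))))

noncomputable def tv3347 : DT := (.nd (nat_lit 0) (.nd (nat_lit 1) (.nd (nat_lit 2) (.nd (nat_lit 3) 
(.lf (nat_lit 259104) (.g (nat_lit 1416) (.e (nat_lit 164354) (nat_lit 246) (.e (nat_lit 62) (nat_lit 0) (.e (nat_lit 6114) (nat_lit 332) (.e (nat_lit 1370) (nat_lit 103) .nil)))) .nil)) 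
(.lf (nat_lit 259112) (.g (nat_lit 2452) (.e (nat_lit 164354) (nat_lit 246) (.e (nat_lit 226) (nat_lit 21) (.e (nat_lit 336430) (nat_lit 29) (.e (nat_lit 442425) (nat_lit 23) (.e (nat_lit 204805) (nat_lit 0) (.e (nat_lit 7096) (nat_lit 380) .nil)))))) (.g (nat_lit 0) .nil .nil)))) (.nd (nat_lit 3) 
(.lf (nat_lit 259108) (.g (nat_lit 2473) (.e (nat_lit 164354) (nat_lit 246) (.e (nat_lit 100) (nat_lit 2) (.e (nat_lit 90178) (nat_lit 15) (.e (nat_lit 188421) (nat_lit 11) (.e (nat_lit 336288) (nat_lit 15) (.e (nat_lit 7098) (nat_lit 380) .nil)))))) (.g (nat_lit 0) .nil .nil))) 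
(.lf (nat_lit 259116) (.g (nat_lit 2754) (.e (nat_lit 164354) (nat_lit 246) (.e (nat_lit 226) (nat_lit 21) (.e (nat_lit 336432) (nat_lit 30) (.e (nat_lit 450580) (nat_lit 5) (.e (nat_lit 532575) (nat_lit 17) (.e (nat_lit 7096) (nat_lit 380) .nil)))))) (.g (nat_lit 0) .nil .nil))))) (.nd (nat_lit 2) (.nd (nat_lit 3) 
(.lf (nat_lit 259106) (.g (nat_lit 1221) (.e (nat_lit 164354) (nat_lit 246) (.e (nat_lit 100) (nat_lit 2) (.e (nat_lit 90174) (nat_lit 14) (.e (nat_lit 180288) (nat_lit 45) .nil)))) .nil)) 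
(.lf (nat_lit 259114) (.g (nat_lit 2628) (.e (nat_lit 164354) (nat_lit 246) (.e (nat_lit 226) (nat_lit 21) (.e (nat_lit 336430) (nat_lit 29) (.e (nat_lit 442427) (nat_lit 23) (.e (nat_lit 204805) (nat_lit 0) (.e (nat_lit 7096) (nat_lit 380) .nil)))))) (.g (nat_lit 0) .nil .nil)))) (.nd (nat_lit 3) 
(.lf (nat_lit 259110) (.g (nat_lit 1347) (.e (nat_lit 164354) (nat_lit 246) (.e (nat_lit 112) (nat_lit 3) (.e (nat_lit 98373) (nat_lit 29) (.e (nat_lit 450605) (nat_lit 27) (.e (nat_lit 753408) (nat_lit 17) .nil))))) .nil)) 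
(.lf (nat_lit 259118) (.g (nat_lit 2324) (.e (nat_lit 164354) (nat_lit 246) (.e (nat_lit 226) (nat_lit 21) (.e (nat_lit 336443) (nat_lit 32) (.e (nat_lit 466974) (nat_lit 22) (.e (nat_lit 196651) (nat_lit 10) .nil))))) .nil))))) (.nd (nat_lit 1) (.nd (nat_lit 2) (.nd (nat_lit 3) 
(.lf (nat_lit 259105) (.g (nat_lit 2880) (.e (nat_lit 164354) (nat_lit 246) (.e (nat_lit 100) (nat_lit 2) (.e (nat_lit 90174) (nat_lit 14) (.e (nat_lit 180250) (nat_lit 10) (.e (nat_lit 573489) (nat_lit 14) (.e (nat_lit 73755) (nat_lit 8) (.e (nat_lit 564992) (nat_lit 21) .nil))))))) (.g (nat_lit 6) .nil .nil))) 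
(.lf (nat_lit 259113) (.g (nat_lit 2279) (.e (nat_lit 164354) (nat_lit 246) (.e (nat_lit 226) (nat_lit 21) (.e (nat_lit 336430) (nat_lit 29) (.e (nat_lit 442425) (nat_lit 23) (.e (nat_lit 204805) (nat_lit 0) (.e (nat_lit 7098) (nat_lit 380) .nil)))))) (.g (nat_lit 0) .nil .nil)))) (.nd (nat_lit 3) 
(.lf (nat_lit 259109) (.g (nat_lit 1506) (.e (nat_lit 164354) (nat_lit 246) (.e (nat_lit 112) (nat_lit 3) (.e (nat_lit 98373) (nat_lit 29) (.e (nat_lit 450602) (nat_lit 22) .nil)))) .nil)) 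
(.lf (nat_lit 259117) (.g (nat_lit 1052) (.e (nat_lit 164354) (nat_lit 246) (.e (nat_lit 226) (nat_lit 21) (.e (nat_lit 336434) (nat_lit 30) (.e (nat_lit 450579) (nat_lit 5) (.e (nat_lit 532574) (nat_lit 17) .nil))))) .nil)))) (.nd (nat_lit 2) (.nd (nat_lit 3) 
(.lf (nat_lit 259107) (.g (nat_lit 598) (.e (nat_lit 164354) (nat_lit 246) (.e (nat_lit 100) (nat_lit 2) (.e (nat_lit 90176) (nat_lit 15) (.e (nat_lit 196352) (nat_lit 17) .nil)))) .nil)) 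
(.lf (nat_lit 259115) (.g (nat_lit 2455) (.e (nat_lit 164354) (nat_lit 246) (.e (nat_lit 226) (nat_lit 21) (.e (nat_lit 336430) (nat_lit 29) (.e (nat_lit 442427) (nat_lit 23) (.e (nat_lit 204805) (nat_lit 0) (.e (nat_lit 7098) (nat_lit 380) .nil)))))) (.g (nat_lit 0) .nil .nil)))) (.nd (nat_lit 3) 
(.lf (nat_lit 259111) (.g (nat_lit 765) (.e (nat_lit 164354) (nat_lit 246) (.e (nat_lit 216) (nat_lit 19) (.e (nat_lit 319534) (nat_lit 16) (.e (nat_lit 286761) (nat_lit 13) .nil)))) .nil)) 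
(.lf (nat_lit 259119) (.g (nat_lit 2318) (.e (nat_lit 164354) (nat_lit 246) (.e (nat_lit 226) (nat_lit 21) (.e (nat_lit 336443) (nat_lit 32) (.e (nat_lit 466977) (nat_lit 22) (.e (nat_lit 196651) (nat_lit 10) .nil))))) .nil))))))

noncomputable def tv3348 : DT := (.nd (nat_lit 0) (.nd (nat_lit 1) (.nd (nat_lit 2) (.nd (nat_lit 3) 
(.lf (nat_lit 259120) (.g (nat_lit 2528) (.e (nat_lit 164354) (nat_lit 246) (.e (nat_lit 226) (nat_lit 21) (.e (nat_lit 336443) (nat_lit 32) (.e (nat_lit 466979) (nat_lit 23) (.e (nat_lit 204805) (nat_lit 0) (.e (nat_lit 7096) (nat_lit 380) .nil)))))) (.g (nat_lit 0) .nil .nil))) 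
(.lf (nat_lit 259128) (.g (nat_lit 1394) (.e (nat_lit 164354) (nat_lit 246) (.e (nat_lit 351) (nat_lit 28) (.e (nat_lit 393269) (nat_lit 23) (.e (nat_lit 426432) (nat_lit 17) (.e (nat_lit 90203) (nat_lit 21) (.e (nat_lit 164286) (nat_lit 224) .nil)))))) (.g (nat_lit 4) .nil .nil)))) (.nd (nat_lit 3) 
(.lf (nat_lit 259124) (.g (nat_lit 811) (.e (nat_lit 164354) (nat_lit 246) (.e (nat_lit 308) (nat_lit 23) (.e (nat_lit 352315) (nat_lit 23) (.e (nat_lit 106240) (nat_lit 15) .nil)))) .nil)) 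
(.lf (nat_lit 259132) (.g (nat_lit 1979) (.e (nat_lit 164354) (nat_lit 246) (.e (nat_lit 351) (nat_lit 28) (.e (nat_lit 393279) (nat_lit 23) (.e (nat_lit 426129) (nat_lit 3) (.e (nat_lit 204805) (nat_lit 0) (.e (nat_lit 7096) (nat_lit 380) .nil)))))) (.g (nat_lit 0) .nil .nil))))) (.nd (nat_lit 2) (.nd (nat_lit 3) 
(.lf (nat_lit 259122) (.g (nat_lit 2629) (.e (nat_lit 164354) (nat_lit 246) (.e (nat_lit 226) (nat_lit 21) (.e (nat_lit 336443) (nat_lit 32) (.e (nat_lit 466981) (nat_lit 23) (.e (nat_lit 204805) (nat_lit 0) (.e (nat_lit 7096) (nat_lit 380) .nil)))))) (.g (nat_lit 0) .nil .nil))) 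
(.lf (nat_lit 259130) (.g (nat_lit 1275) (.e (nat_lit 164354) (nat_lit 246) (.e (nat_lit 351) (nat_lit 28) (.e (nat_lit 393270) (nat_lit 23) (.e (nat_lit 426428) (nat_lit 17) (.e (nat_lit 98048) (nat_lit 21) (.e (nat_lit 164287) (nat_lit 224) .nil)))))) (.g (nat_lit 4) .nil .nil)))) (.nd (nat_lit 3) 
(.lf (nat_lit 259126) (.g (nat_lit 2778) (.e (nat_lit 164354) (nat_lit 246) (.e (nat_lit 323) (nat_lit 24) (.e (nat_lit 360474) (nat_lit 8) (.e (nat_lit 557058) (nat_lit 0) .nil)))) .nil)) 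
(.lf (nat_lit 259134) (.g (nat_lit 2111) (.e (nat_lit 164354) (nat_lit 246) (.e (nat_lit 351) (nat_lit 28) (.e (nat_lit 393286) (nat_lit 25) (.e (nat_lit 458789) (nat_lit 23) (.e (nat_lit 532575) (nat_lit 17) (.e (nat_lit 7098) (nat_lit 380) .nil)))))) (.g (nat_lit 0) .nil .nil)))))) (.nd (nat_lit 1) (.nd (nat_lit 2) (.nd (nat_lit 3) 
(.lf (nat_lit 259121) (.g (nat_lit 2357) (.e (nat_lit 164354) (nat_lit 246) (.e (nat_lit 226) (nat_lit 21) (.e (nat_lit 336443) (nat_lit 32) (.e (nat_lit 466979) (nat_lit 23) (.e (nat_lit 204805) (nat_lit 0) (.e (nat_lit 7098) (nat_lit 380) .nil)))))) (.g (nat_lit 0) .nil .nil))) 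
(.lf (nat_lit 259129) (.g (nat_lit 1406) (.e (nat_lit 164354) (nat_lit 246) (.e (nat_lit 351) (nat_lit 28) (.e (nat_lit 393269) (nat_lit 23) (.e (nat_lit 426432) (nat_lit 17) (.e (nat_lit 90203) (nat_lit 21) (.e (nat_lit 164287) (nat_lit 224) .nil)))))) (.g (nat_lit 4) .nil .nil)))) (.nd (nat_lit 3) 
(.lf (nat_lit 259125) (.g (nat_lit 951) (.e (nat_lit 164354) (nat_lit 246) (.e (nat_lit 323) (nat_lit 24) (.e (nat_lit 360473) (nat_lit 8) (.e (nat_lit 557058) (nat_lit 0) .nil)))) .nil)) 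
(.lf (nat_lit 259133) (.g (nat_lit 2225) (.e (nat_lit 164354) (nat_lit 246) (.e (nat_lit 351) (nat_lit 28) (.e (nat_lit 393286) (nat_lit 25) (.e (nat_lit 458789) (nat_lit 23) (.e (nat_lit 532575) (nat_lit 17) (.e (nat_lit 7096) (nat_lit 380) .nil)))))) (.g (nat_lit 0) .nil .nil))))) (.nd (nat_lit 2) (.nd (nat_lit 3) 
(.lf (nat_lit 259123) (.g (nat_lit 2453) (.e (nat_lit 164354) (nat_lit 246) (.e (nat_lit 226) (nat_lit 21) (.e (nat_lit 336443) (nat_lit 32) (.e (nat_lit 466981) (nat_lit 23) (.e (nat_lit 204805) (nat_lit 0) (.e (nat_lit 7098) (nat_lit 380) .nil)))))) (.g (nat_lit 0) .nil .nil))) 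
(.lf (nat_lit 259131) (.g (nat_lit 1249) (.e (nat_lit 164354) (nat_lit 246) (.e (nat_lit 351) (nat_lit 28) (.e (nat_lit 393270) (nat_lit 23) (.e (nat_lit 426428) (nat_lit 17) (.e (nat_lit 98048) (nat_lit 21) (.e (nat_lit 164289) (nat_lit 224) .nil)))))) (.g (nat_lit 4) .nil .nil)))) (.nd (nat_lit 3) 
(.lf (nat_lit 259127) (.g (nat_lit 3216) (.e (nat_lit 164354) (nat_lit 246) (.e (nat_lit 323) (nat_lit 24) (.e (nat_lit 360474) (nat_lit 8) (.e (nat_lit 557060) (nat_lit 0) (.e (nat_lit 1633) (nat_lit 114) .nil))))) .nil)) 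
(.lf (nat_lit 259135) (.g (nat_lit 2199) (.e (nat_lit 164354) (nat_lit 246) (.e (nat_lit 351) (nat_lit 28) (.e (nat_lit 393287) (nat_lit 25) (.e (nat_lit 458789) (nat_lit 23) (.e (nat_lit 532575) (nat_lit 17) (.e (nat_lit 7096) (nat_lit 380) .nil)))))) (.g (nat_lit 0) .nil .nil)))))))

noncomputable def tv3349 : DT := (.nd (nat_lit 0) (.nd (nat_lit 1) (.nd (nat_lit 2) (.nd (nat_lit 3) (.nd (nat_lit 4) (.nd (nat_lit 5) 
(.lf (nat_lit 259136) (.g (nat_lit 2085) (.e (nat_lit 164354) (nat_lit 246) (.e (nat_lit 351) (nat_lit 28) (.e (nat_lit 393287) (nat_lit 25) (.e (nat_lit 458789) (nat_lit 23) (.e (nat_lit 532575) (nat_lit 17) (.e (nat_lit 7098) (nat_lit 380) .nil)))))) (.g (nat_lit 0) .nil .nil))) 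
(.lf (nat_lit 259168) (.g (nat_lit 1549) (.e (nat_lit 164356) (nat_lit 246) (.e (nat_lit 224) (nat_lit 21) (.e (nat_lit 336443) (nat_lit 32) (.e (nat_lit 466979) (nat_lit 23) (.e (nat_lit 204805) (nat_lit 0) (.e (nat_lit 7106) (nat_lit 380) .nil)))))) (.g (nat_lit 4) .nil .nil)))) (.nd (nat_lit 5) 
(.lf (nat_lit 259152) (.g (nat_lit 2199) (.e (nat_lit 164356) (nat_lit 246) (.e (nat_lit 100) (nat_lit 2) (.e (nat_lit 90185) (nat_lit 17) (.e (nat_lit 237624) (nat_lit 13) (.e (nat_lit 483333) (nat_lit 0) (.e (nat_lit 7106) (nat_lit 380) .nil)))))) (.g (nat_lit 0) .nil .nil))) 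
(.lf (nat_lit 259184) (.g (nat_lit 1518) (.e (nat_lit 164356) (nat_lit 246) (.e (nat_lit 351) (nat_lit 28) (.e (nat_lit 393279) (nat_lit 23) (.e (nat_lit 426431) (nat_lit 17) (.e (nat_lit 90203) (nat_lit 21) (.e (nat_lit 164294) (nat_lit 224) .nil)))))) (.g (nat_lit 0) .nil .nil))))) (.nd (nat_lit 4) (.nd (nat_lit 5) 
(.lf (nat_lit 259144) (.g (nat_lit 2675) (.e (nat_lit 164356) (nat_lit 246) (.e (nat_lit 100) (nat_lit 2) (.e (nat_lit 90174) (nat_lit 14) (.e (nat_lit 180243) (nat_lit 5) (.e (nat_lit 532515) (nat_lit 3) (.e (nat_lit 114716) (nat_lit 22) (.e (nat_lit 98048) (nat_lit 21) .nil))))))) (.g (nat_lit 6) .nil .nil))) 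
(.lf (nat_lit 259176) (.g (nat_lit 2321) (.e (nat_lit 164356) (nat_lit 246) (.e (nat_lit 351) (nat_lit 28) (.e (nat_lit 393268) (nat_lit 23) (.e (nat_lit 426432) (nat_lit 17) (.e (nat_lit 90203) (nat_lit 21) (.e (nat_lit 164294) (nat_lit 224) .nil)))))) (.g (nat_lit 0) .nil .nil)))) (.nd (nat_lit 5) 
(.lf (nat_lit 259160) (.g (nat_lit 2628) (.e (nat_lit 164356) (nat_lit 246) (.e (nat_lit 112) (nat_lit 3) (.e (nat_lit 98370) (nat_lit 28) (.e (nat_lit 442390) (nat_lit 11) (.e (nat_lit 336288) (nat_lit 15) (.e (nat_lit 7106) (nat_lit 380) .nil)))))) (.g (nat_lit 0) .nil .nil))) 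
(.lf (nat_lit 259192) (.g (nat_lit 1338) (.e (nat_lit 164358) (nat_lit 246) (.e (nat_lit 100) (nat_lit 2) (.e (nat_lit 90170) (nat_lit 13) (.e (nat_lit 172067) (nat_lit 3) .nil)))) .nil))))) (.nd (nat_lit 3) (.nd (nat_lit 4) (.nd (nat_lit 5) 
(.lf (nat_lit 259140) (.g (nat_lit 1101) (.e (nat_lit 164356) (nat_lit 246) (.e (nat_lit 100) (nat_lit 2) (.e (nat_lit 90169) (nat_lit 13) (.e (nat_lit 172121) (nat_lit 13) (.e (nat_lit 483333) (nat_lit 0) .nil))))) .nil)) 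
(.lf (nat_lit 259172) (.g (nat_lit 2304) (.e (nat_lit 164356) (nat_lit 246) (.e (nat_lit 226) (nat_lit 21) (.e (nat_lit 336443) (nat_lit 32) (.e (nat_lit 466974) (nat_lit 22) (.e (nat_lit 196651) (nat_lit 10) (.e (nat_lit 8499) (nat_lit 183) .nil)))))) (.g (nat_lit 4) .nil .nil)))) (.nd (nat_lit 5) 
(.lf (nat_lit 259156) (.g (nat_lit 1013) (.e (nat_lit 164356) (nat_lit 246) (.e (nat_lit 112) (nat_lit 3) (.e (nat_lit 98365) (nat_lit 26) (.e (nat_lit 426189) (nat_lit 9) .nil)))) .nil)) 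
(.lf (nat_lit 259188) (.g (nat_lit 1280) (.e (nat_lit 164357) (nat_lit 246) (.e (nat_lit 226) (nat_lit 21) (.e (nat_lit 336443) (nat_lit 32) (.e (nat_lit 466979) (nat_lit 23) .nil)))) .nil)))) (.nd (nat_lit 4) (.nd (nat_lit 5) 
(.lf (nat_lit 259148) (.g (nat_lit 3077) (.e (nat_lit 164356) (nat_lit 246) (.e (nat_lit 100) (nat_lit 2) (.e (nat_lit 90178) (nat_lit 15) (.e (nat_lit 188421) (nat_lit 11) (.e (nat_lit 336288) (nat_lit 15) (.e (nat_lit 7098) (nat_lit 380) .nil)))))) (.g (nat_lit 6) .nil .nil))) 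
(.lf (nat_lit 259180) (.g (nat_lit 2408) (.e (nat_lit 164356) (nat_lit 246) (.e (nat_lit 351) (nat_lit 28) (.e (nat_lit 393271) (nat_lit 23) (.e (nat_lit 426432) (nat_lit 17) (.e (nat_lit 90203) (nat_lit 21) (.e (nat_lit 164294) (nat_lit 224) .nil)))))) (.g (nat_lit 0) .nil .nil)))) (.nd (nat_lit 5) 
(.lf (nat_lit 259164) (.g (nat_lit 1381) (.e (nat_lit 164356) (nat_lit 246) (.e (nat_lit 216) (nat_lit 19) (.e (nat_lit 319530) (nat_lit 16) (.e (nat_lit 286748) (nat_lit 9) (.e (nat_lit 336389) (nat_lit 27) .nil))))) .nil)) 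
(.lf (nat_lit 259196) (.g (nat_lit 2092) (.e (nat_lit 164358) (nat_lit 246) (.e (nat_lit 100) (nat_lit 2) (.e (nat_lit 90170) (nat_lit 13) (.e (nat_lit 172067) (nat_lit 3) (.e (nat_lit 204838) (nat_lit 20) .nil))))) .nil)))))) (.nd (nat_lit 2) (.nd (nat_lit 3) (.nd (nat_lit 4) (.nd (nat_lit 5) 
(.lf (nat_lit 259138) (.g (nat_lit 1423) (.e (nat_lit 164355) (nat_lit 246) (.e (nat_lit 226) (nat_lit 21) (.e (nat_lit 336443) (nat_lit 32) (.e (nat_lit 466979) (nat_lit 23) .nil)))) .nil)) 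
(.lf (nat_lit 259170) (.g (nat_lit 394) (.e (nat_lit 164356) (nat_lit 246) (.e (nat_lit 226) (nat_lit 21) (.e (nat_lit 336443) (nat_lit 32) .nil))) .nil))) (.nd (nat_lit 5) 
(.lf (nat_lit 259154) (.g (nat_lit 2233) (.e (nat_lit 164356) (nat_lit 246) (.e (nat_lit 112) (nat_lit 3) (.e (nat_lit 98363) (nat_lit 26) (.e (nat_lit 426321) (nat_lit 13) (.e (nat_lit 483333) (nat_lit 0) (.e (nat_lit 7098) (nat_lit 380) .nil)))))) (.g (nat_lit 6) .nil .nil))) 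
(.lf (nat_lit 259186) (.g (nat_lit 842) (.e (nat_lit 164357) (nat_lit 246) (.e (nat_lit 100) (nat_lit 2) (.e (nat_lit 90176) (nat_lit 15) (.e (nat_lit 188423) (nat_lit 11) .nil)))) .nil)))) (.nd (nat_lit 4) (.nd (nat_lit 5) 
(.lf (nat_lit 259146) (.g (nat_lit 2307) (.e (nat_lit 164356) (nat_lit 246) (.e (nat_lit 100) (nat_lit 2) (.e (nat_lit 90176) (nat_lit 15) (.e (nat_lit 188423) (nat_lit 11) (.e (nat_lit 336288) (nat_lit 15) (.e (nat_lit 7106) (nat_lit 380) .nil)))))) (.g (nat_lit 0) .nil .nil))) 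
(.lf (nat_lit 259178) (.g (nat_lit 2786) (.e (nat_lit 164356) (nat_lit 246) (.e (nat_lit 351) (nat_lit 28) (.e (nat_lit 393271) (nat_lit 23) (.e (nat_lit 426131) (nat_lit 3) (.e (nat_lit 204805) (nat_lit 0) (.e (nat_lit 7098) (nat_lit 380) .nil)))))) (.g (nat_lit 6) .nil .nil)))) (.nd (nat_lit 5) 
(.lf (nat_lit 259162) (.g (nat_lit 2528) (.e (nat_lit 164356) (nat_lit 246) (.e (nat_lit 112) (nat_lit 3) (.e (nat_lit 98380) (nat_lit 31) (.e (nat_lit 466954) (nat_lit 11) (.e (nat_lit 336288) (nat_lit 15) (.e (nat_lit 7106) (nat_lit 380) .nil)))))) (.g (nat_lit 0) .nil .nil))) 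
(.lf (nat_lit 259194) (.g (nat_lit 2550) (.e (nat_lit 164358) (nat_lit 246) (.e (nat_lit 100) (nat_lit 2) (.e (nat_lit 90170) (nat_lit 13) (.e (nat_lit 172067) (nat_lit 3) (.e (nat_lit 204834) (nat_lit 19) (.e (nat_lit 106517) (nat_lit 9) (.e (nat_lit 1237) (nat_lit 91) (.e (nat_lit 90203) (nat_lit 21) .nil)))))))) (.g (nat_lit 4) .nil .nil)))))) (.nd (nat_lit 3) (.nd (nat_lit 4) (.nd (nat_lit 5) 
(.lf (nat_lit 259142) (.g (nat_lit 1468) (.e (nat_lit 164356) (nat_lit 246) (.e (nat_lit 100) (nat_lit 2) (.e (nat_lit 90170) (nat_lit 13) (.e (nat_lit 172095) (nat_lit 9) (.e (nat_lit 433920) (nat_lit 33) .nil))))) .nil)) 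
(.lf (nat_lit 259174) (.g (nat_lit 2755) (.e (nat_lit 164356) (nat_lit 246) (.e (nat_lit 226) (nat_lit 21) (.e (nat_lit 336443) (nat_lit 32) (.e (nat_lit 466977) (nat_lit 22) (.e (nat_lit 196651) (nat_lit 10) (.e (nat_lit 8499) (nat_lit 183) .nil)))))) (.g (nat_lit 4) .nil .nil)))) (.nd (nat_lit 5) 
(.lf (nat_lit 259158) (.g (nat_lit 2509) (.e (nat_lit 164356) (nat_lit 246) (.e (nat_lit 112) (nat_lit 3) (.e (nat_lit 98365) (nat_lit 26) (.e (nat_lit 426325) (nat_lit 13) (.e (nat_lit 483333) (nat_lit 0) (.e (nat_lit 7106) (nat_lit 380) .nil)))))) (.g (nat_lit 0) .nil .nil))) 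
(.lf (nat_lit 259190) (.g (nat_lit 471) (.e (nat_lit 164357) (nat_lit 246) (.e (nat_lit 351) (nat_lit 28) (.e (nat_lit 393279) (nat_lit 23) .nil))) .nil)))) (.nd (nat_lit 4) (.nd (nat_lit 5) 
(.lf (nat_lit 259150) (.g (nat_lit 2754) (.e (nat_lit 164356) (nat_lit 246) (.e (nat_lit 100) (nat_lit 2) (.e (nat_lit 90178) (nat_lit 15) (.e (nat_lit 188421) (nat_lit 11) (.e (nat_lit 336288) (nat_lit 15) (.e (nat_lit 7106) (nat_lit 380) .nil)))))) (.g (nat_lit 0) .nil .nil))) 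
(.lf (nat_lit 259182) (.g (nat_lit 2253) (.e (nat_lit 164356) (nat_lit 246) (.e (nat_lit 351) (nat_lit 28) (.e (nat_lit 393279) (nat_lit 23) (.e (nat_lit 426129) (nat_lit 3) (.e (nat_lit 204805) (nat_lit 0) (.e (nat_lit 7098) (nat_lit 380) .nil)))))) (.g (nat_lit 6) .nil .nil)))) (.nd (nat_lit 5) 
(.lf (nat_lit 259166) (.g (nat_lit 3984) (.e (nat_lit 164356) (nat_lit 246) (.e (nat_lit 216) (nat_lit 19) (.e (nat_lit 319531) (nat_lit 16) (.e (nat_lit 286761) (nat_lit 13) (.e (nat_lit 393234) (nat_lit 17) (.e (nat_lit 7936) (nat_lit 380) .nil)))))) (.g (nat_lit 5) .nil .nil))) 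
(.lf (nat_lit 259198) (.g (nat_lit 1113) (.e (nat_lit 164358) (nat_lit 246) (.e (nat_lit 100) (nat_lit 2) (.e (nat_lit 90172) (nat_lit 14) (.e (nat_lit 180291) (nat_lit 48) .nil)))) .nil))))))) (.nd (nat_lit 1) (.nd (nat_lit 2) (.nd (nat_lit 3) (.nd (nat_lit 4) (.nd (nat_lit 5) 
(.lf (nat_lit 259137) (.g (nat_lit 1420) (.e (nat_lit 164355) (nat_lit 246) (.e (nat_lit 100) (nat_lit 2) (.e (nat_lit 90178) (nat_lit 15) (.e (nat_lit 188421) (nat_lit 11) (.e (nat_lit 336288) (nat_lit 15) .nil))))) .nil)) 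
(.lf (nat_lit 259169) (.g (nat_lit 1648) (.e (nat_lit 164356) (nat_lit 246) (.e (nat_lit 224) (nat_lit 21) (.e (nat_lit 336443) (nat_lit 32) (.e (nat_lit 466981) (nat_lit 23) (.e (nat_lit 204805) (nat_lit 0) (.e (nat_lit 7106) (nat_lit 380) .nil)))))) (.g (nat_lit 4) .nil .nil)))) (.nd (nat_lit 5) 
(.lf (nat_lit 259153) (.g (nat_lit 2540) (.e (nat_lit 164356) (nat_lit 246) (.e (nat_lit 112) (nat_lit 3) (.e (nat_lit 98358) (nat_lit 26) (.e (nat_lit 426323) (nat_lit 13) (.e (nat_lit 483333) (nat_lit 0) (.e (nat_lit 7105) (nat_lit 380) .nil)))))) (.g (nat_lit 0) .nil .nil))) 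
(.lf (nat_lit 259185) (.g (nat_lit 1389) (.e (nat_lit 164356) (nat_lit 246) (.e (nat_lit 351) (nat_lit 28) (.e (nat_lit 393281) (nat_lit 23) (.e (nat_lit 426116) (nat_lit 2) (.e (nat_lit 196651) (nat_lit 10) .nil))))) .nil)))) (.nd (nat_lit 4) (.nd (nat_lit 5) 
(.lf (nat_lit 259145) (.g (nat_lit 3400) (.e (nat_lit 164356) (nat_lit 246) (.e (nat_lit 100) (nat_lit 2) (.e (nat_lit 90174) (nat_lit 14) (.e (nat_lit 180250) (nat_lit 10) (.e (nat_lit 573489) (nat_lit 14) (.e (nat_lit 73755) (nat_lit 8) (.e (nat_lit 564992) (nat_lit 21) .nil))))))) (.g (nat_lit 6) .nil .nil))) 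
(.lf (nat_lit 259177) (.g (nat_lit 1639) (.e (nat_lit 164356) (nat_lit 246) (.e (nat_lit 351) (nat_lit 28) (.e (nat_lit 393269) (nat_lit 23) (.e (nat_lit 426432) (nat_lit 17) (.e (nat_lit 90203) (nat_lit 21) (.e (nat_lit 164294) (nat_lit 224) .nil)))))) (.g (nat_lit 4) .nil .nil)))) (.nd (nat_lit 5) 
(.lf (nat_lit 259161) (.g (nat_lit 1479) (.e (nat_lit 164356) (nat_lit 246) (.e (nat_lit 112) (nat_lit 3) (.e (nat_lit 98373) (nat_lit 29) (.e (nat_lit 450602) (nat_lit 22) .nil)))) .nil)) 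
(.lf (nat_lit 259193) (.g (nat_lit 2662) (.e (nat_lit 164358) (nat_lit 246) (.e (nat_lit 100) (nat_lit 2) (.e (nat_lit 90170) (nat_lit 13) (.e (nat_lit 172067) (nat_lit 3) (.e (nat_lit 204834) (nat_lit 19) (.e (nat_lit 106517) (nat_lit 9) (.e (nat_lit 1234) (nat_lit 91) (.e (nat_lit 90203) (nat_lit 21) .nil)))))))) (.g (nat_lit 4) .nil .nil)))))) (.nd (nat_lit 3) (.nd (nat_lit 4) (.nd (nat_lit 5) 
(.lf (nat_lit 259141) (.g (nat_lit 1265) (.e (nat_lit 164356) (nat_lit 246) (.e (nat_lit 100) (nat_lit 2) (.e (nat_lit 90170) (nat_lit 13) (.e (nat_lit 172085) (nat_lit 9) .nil)))) .nil)) 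
(.lf (nat_lit 259173) (.g (nat_lit 2110) (.e (nat_lit 164356) (nat_lit 246) (.e (nat_lit 226) (nat_lit 21) (.e (nat_lit 336443) (nat_lit 32) (.e (nat_lit 466977) (nat_lit 22) (.e (nat_lit 196651) (nat_lit 10) .nil))))) .nil))) (.nd (nat_lit 5) 
(.lf (nat_lit 259157) (.g (nat_lit 2776) (.e (nat_lit 164356) (nat_lit 246) (.e (nat_lit 112) (nat_lit 3) (.e (nat_lit 98365) (nat_lit 26) (.e (nat_lit 426325) (nat_lit 13) (.e (nat_lit 483333) (nat_lit 0) (.e (nat_lit 7098) (nat_lit 380) .nil)))))) (.g (nat_lit 6) .nil .nil))) 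
(.lf (nat_lit 259189) (.g (nat_lit 1287) (.e (nat_lit 164357) (nat_lit 246) (.e (nat_lit 226) (nat_lit 21) (.e (nat_lit 336443) (nat_lit 32) (.e (nat_lit 466981) (nat_lit 23) .nil)))) .nil)))) (.nd (nat_lit 4) (.nd (nat_lit 5) 
(.lf (nat_lit 259149) (.g (nat_lit 2816) (.e (nat_lit 164356) (nat_lit 246) (.e (nat_lit 100) (nat_lit 2) (.e (nat_lit 90178) (nat_lit 15) (.e (nat_lit 188421) (nat_lit 11) (.e (nat_lit 336288) (nat_lit 15) (.e (nat_lit 7105) (nat_lit 380) .nil)))))) (.g (nat_lit 0) .nil .nil))) 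
(.lf (nat_lit 259181) (.g (nat_lit 932) (.e (nat_lit 164356) (nat_lit 246) (.e (nat_lit 351) (nat_lit 28) (.e (nat_lit 393274) (nat_lit 23) (.e (nat_lit 426113) (nat_lit 2) .nil)))) .nil))) (.nd (nat_lit 5) 
(.lf (nat_lit 259165) (.g (nat_lit 3636) (.e (nat_lit 164356) (nat_lit 246) (.e (nat_lit 216) (nat_lit 19) (.e (nat_lit 319530) (nat_lit 16) (.e (nat_lit 286761) (nat_lit 13) (.e (nat_lit 393234) (nat_lit 17) (.e (nat_lit 7936) (nat_lit 380) .nil)))))) (.g (nat_lit 5) .nil .nil))) 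
(.lf (nat_lit 259197) (.g (nat_lit 1486) (.e (nat_lit 164358) (nat_lit 246) (.e (nat_lit 100) (nat_lit 2) (.e (nat_lit 90170) (nat_lit 13) (.e (nat_lit 172095) (nat_lit 9) (.e (nat_lit 433920) (nat_lit 33) .nil))))) .nil)))))) (.nd (nat_lit 2) (.nd (nat_lit 3) (.nd (nat_lit 4) (.nd (nat_lit 5) 
(.lf (nat_lit 259139) (.g (nat_lit 1439) (.e (nat_lit 164355) (nat_lit 246) (.e (nat_lit 226) (nat_lit 21) (.e (nat_lit 336443) (nat_lit 32) (.e (nat_lit 466981) (nat_lit 23) .nil)))) .nil)) 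
(.lf (nat_lit 259171) (.g (nat_lit 1879) (.e (nat_lit 164356) (nat_lit 246) (.e (nat_lit 226) (nat_lit 21) (.e (nat_lit 336443) (nat_lit 32) (.e (nat_lit 466973) (nat_lit 22) .nil)))) .nil))) (.nd (nat_lit 5) 
(.lf (nat_lit 259155) (.g (nat_lit 1979) (.e (nat_lit 164356) (nat_lit 246) (.e (nat_lit 112) (nat_lit 3) (.e (nat_lit 98363) (nat_lit 26) (.e (nat_lit 426321) (nat_lit 13) (.e (nat_lit 483333) (nat_lit 0) (.e (nat_lit 7106) (nat_lit 380) .nil)))))) (.g (nat_lit 0) .nil .nil))) 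
(.lf (nat_lit 259187) (.g (nat_lit 1423) (.e (nat_lit 164357) (nat_lit 246) (.e (nat_lit 216) (nat_lit 19) (.e (nat_lit 319531) (nat_lit 16) (.e (nat_lit 286748) (nat_lit 9) (.e (nat_lit 336389) (nat_lit 27) .nil))))) .nil)))) (.nd (nat_lit 4) (.nd (nat_lit 5) 
(.lf (nat_lit 259147) (.g (nat_lit 886) (.e (nat_lit 164356) (nat_lit 246) (.e (nat_lit 100) (nat_lit 2) (.e (nat_lit 90176) (nat_lit 15) (.e (nat_lit 188431) (nat_lit 20) .nil)))) .nil)) 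
(.lf (nat_lit 259179) (.g (nat_lit 2416) (.e (nat_lit 164356) (nat_lit 246) (.e (nat_lit 351) (nat_lit 28) (.e (nat_lit 393271) (nat_lit 23) (.e (nat_lit 426131) (nat_lit 3) (.e (nat_lit 204805) (nat_lit 0) (.e (nat_lit 7106) (nat_lit 380) .nil)))))) (.g (nat_lit 0) .nil .nil)))) (.nd (nat_lit 5) 
(.lf (nat_lit 259163) (.g (nat_lit 2629) (.e (nat_lit 164356) (nat_lit 246) (.e (nat_lit 112) (nat_lit 3) (.e (nat_lit 98381) (nat_lit 31) (.e (nat_lit 466954) (nat_lit 11) (.e (nat_lit 336288) (nat_lit 15) (.e (nat_lit 7106) (nat_lit 380) .nil)))))) (.g (nat_lit 0) .nil .nil))) 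
(.lf (nat_lit 259195) (.g (nat_lit 2271) (.e (nat_lit 164358) (nat_lit 246) (.e (nat_lit 100) (nat_lit 2) (.e (nat_lit 90170) (nat_lit 13) (.e (nat_lit 172067) (nat_lit 3) (.e (nat_lit 204837) (nat_lit 20) .nil))))) .nil))))) (.nd (nat_lit 3) (.nd (nat_lit 4) (.nd (nat_lit 5) 
(.lf (nat_lit 259143) (.g (nat_lit 2067) (.e (nat_lit 164356) (nat_lit 246) (.e (nat_lit 100) (nat_lit 2) (.e (nat_lit 90170) (nat_lit 13) (.e (nat_lit 172106) (nat_lit 10) (.e (nat_lit 434202) (nat_lit 18) .nil))))) .nil)) 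
(.lf (nat_lit 259175) (.g (nat_lit 2200) (.e (nat_lit 164356) (nat_lit 246) (.e (nat_lit 351) (nat_lit 28) (.e (nat_lit 393268) (nat_lit 23) (.e (nat_lit 426428) (nat_lit 17) (.e (nat_lit 90203) (nat_lit 21) (.e (nat_lit 164294) (nat_lit 224) .nil)))))) (.g (nat_lit 4) .nil .nil)))) (.nd (nat_lit 5) 
(.lf (nat_lit 259159) (.g (nat_lit 2452) (.e (nat_lit 164356) (nat_lit 246) (.e (nat_lit 112) (nat_lit 3) (.e (nat_lit 98369) (nat_lit 28) (.e (nat_lit 442390) (nat_lit 11) (.e (nat_lit 336288) (nat_lit 15) (.e (nat_lit 7106) (nat_lit 380) .nil)))))) (.g (nat_lit 0) .nil .nil))) 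
(.lf (nat_lit 259191) (.g (nat_lit 1650) (.e (nat_lit 164358) (nat_lit 246) (.e (nat_lit 100) (nat_lit 2) (.e (nat_lit 90170) (nat_lit 13) (.e (nat_lit 172065) (nat_lit 3) (.e (nat_lit 204834) (nat_lit 19) .nil))))) .nil)))) (.nd (nat_lit 4) (.nd (nat_lit 5) 
(.lf (nat_lit 259151) (.g (nat_lit 2225) (.e (nat_lit 164356) (nat_lit 246) (.e (nat_lit 100) (nat_lit 2) (.e (nat_lit 90185) (nat_lit 17) (.e (nat_lit 237621) (nat_lit 13) (.e (nat_lit 483333) (nat_lit 0) (.e (nat_lit 7106) (nat_lit 380) .nil)))))) (.g (nat_lit 0) .nil .nil))) 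
(.lf (nat_lit 259183) (.g (nat_lit 1906) (.e (nat_lit 164356) (nat_lit 246) (.e (nat_lit 351) (nat_lit 28) (.e (nat_lit 393279) (nat_lit 23) (.e (nat_lit 426129) (nat_lit 3) (.e (nat_lit 204805) (nat_lit 0) (.e (nat_lit 7106) (nat_lit 380) .nil)))))) (.g (nat_lit 0) .nil .nil)))) (.nd (nat_lit 5) 
(.lf (nat_lit 259167) (.g (nat_lit 1482) (.e (nat_lit 164356) (nat_lit 246) (.e (nat_lit 216) (nat_lit 19) (.e (nat_lit 319533) (nat_lit 16) (.e (nat_lit 286742) (nat_lit 9) .nil)))) .nil)) 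
(.lf (nat_lit 259199) (.g (nat_lit 1448) (.e (nat_lit 164358) (nat_lit 246) (.e (nat_lit 100) (nat_lit 2) (.e (nat_lit 90174) (nat_lit 14) (.e (nat_lit 180243) (nat_lit 5) (.e (nat_lit 532508) (nat_lit 2) .nil))))) .nil))))))))

noncomputable def tv3350 : DT := (.nd (nat_lit 0) (.nd (nat_lit 1) (.nd (nat_lit 2) (.nd (nat_lit 3) 
(.lf (nat_lit 259200) (.g (nat_lit 2853) (.e (nat_lit 164358) (nat_lit 246) (.e (nat_lit 100) (nat_lit 2) (.e (nat_lit 90174) (nat_lit 14) (.e (nat_lit 180243) (nat_lit 5) (.e (nat_lit 532513) (nat_lit 3) (.e (nat_lit 114714) (nat_lit 22) (.e (nat_lit 98048) (nat_lit 21) .nil))))))) (.g (nat_lit 6) .nil .nil))) 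
(.lf (nat_lit 259208) (.g (nat_lit 2670) (.e (nat_lit 164358) (nat_lit 246) (.e (nat_lit 100) (nat_lit 2) (.e (nat_lit 90178) (nat_lit 15) (.e (nat_lit 188421) (nat_lit 11) (.e (nat_lit 336288) (nat_lit 15) (.e (nat_lit 7105) (nat_lit 380) .nil)))))) (.g (nat_lit 0) .nil .nil)))) (.nd (nat_lit 3) 
(.lf (nat_lit 259204) (.g (nat_lit 149) (.e (nat_lit 164358) (nat_lit 246) (.e (nat_lit 100) (nat_lit 2) (.e (nat_lit 90176) (nat_lit 15) .nil))) .nil)) 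
(.lf (nat_lit 259212) (.g (nat_lit 2085) (.e (nat_lit 164358) (nat_lit 246) (.e (nat_lit 100) (nat_lit 2) (.e (nat_lit 90185) (nat_lit 17) (.e (nat_lit 237624) (nat_lit 13) (.e (nat_lit 483333) (nat_lit 0) (.e (nat_lit 7106) (nat_lit 380) .nil)))))) (.g (nat_lit 0) .nil .nil))))) (.nd (nat_lit 2) (.nd (nat_lit 3) 
(.lf (nat_lit 259202) (.g (nat_lit 3320) (.e (nat_lit 164358) (nat_lit 246) (.e (nat_lit 100) (nat_lit 2) (.e (nat_lit 90174) (nat_lit 14) (.e (nat_lit 180250) (nat_lit 10) (.e (nat_lit 573489) (nat_lit 14) (.e (nat_lit 73755) (nat_lit 8) (.e (nat_lit 564992) (nat_lit 21) .nil))))))) (.g (nat_lit 6) .nil .nil))) 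
(.lf (nat_lit 259210) (.g (nat_lit 2111) (.e (nat_lit 164358) (nat_lit 246) (.e (nat_lit 100) (nat_lit 2) (.e (nat_lit 90185) (nat_lit 17) (.e (nat_lit 237621) (nat_lit 13) (.e (nat_lit 483333) (nat_lit 0) (.e (nat_lit 7106) (nat_lit 380) .nil)))))) (.g (nat_lit 0) .nil .nil)))) (.nd (nat_lit 3) 
(.lf (nat_lit 259206) (.g (nat_lit 2058) (.e (nat_lit 164358) (nat_lit 246) (.e (nat_lit 100) (nat_lit 2) (.e (nat_lit 90176) (nat_lit 15) (.e (nat_lit 188431) (nat_lit 20) (.e (nat_lit 3571) (nat_lit 222) (.e (nat_lit 745216) (nat_lit 0) (.e (nat_lit 5022) (nat_lit 290) .nil))))))) (.g (nat_lit 5) .nil .nil))) 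
(.lf (nat_lit 259214) (.g (nat_lit 3601) (.e (nat_lit 164358) (nat_lit 246) (.e (nat_lit 112) (nat_lit 3) (.e (nat_lit 98358) (nat_lit 26) (.e (nat_lit 426131) (nat_lit 3) (.e (nat_lit 204838) (nat_lit 20) (.e (nat_lit 114716) (nat_lit 22) (.e (nat_lit 98048) (nat_lit 21) .nil))))))) (.g (nat_lit 6) .nil .nil)))))) (.nd (nat_lit 1) (.nd (nat_lit 2) (.nd (nat_lit 3) 
(.lf (nat_lit 259201) (.g (nat_lit 2982) (.e (nat_lit 164358) (nat_lit 246) (.e (nat_lit 100) (nat_lit 2) (.e (nat_lit 90174) (nat_lit 14) (.e (nat_lit 180243) (nat_lit 5) (.e (nat_lit 532515) (nat_lit 3) (.e (nat_lit 114716) (nat_lit 22) (.e (nat_lit 98048) (nat_lit 21) .nil))))))) (.g (nat_lit 6) .nil .nil))) 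
(.lf (nat_lit 259209) (.g (nat_lit 2218) (.e (nat_lit 164358) (nat_lit 246) (.e (nat_lit 100) (nat_lit 2) (.e (nat_lit 90185) (nat_lit 17) (.e (nat_lit 237621) (nat_lit 13) (.e (nat_lit 483333) (nat_lit 0) (.e (nat_lit 7105) (nat_lit 380) .nil)))))) (.g (nat_lit 0) .nil .nil)))) (.nd (nat_lit 3) 
(.lf (nat_lit 259205) (.g (nat_lit 1166) (.e (nat_lit 164358) (nat_lit 246) (.e (nat_lit 100) (nat_lit 2) (.e (nat_lit 90176) (nat_lit 15) (.e (nat_lit 188428) (nat_lit 20) .nil)))) .nil)) 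
(.lf (nat_lit 259213) (.g (nat_lit 2954) (.e (nat_lit 164358) (nat_lit 246) (.e (nat_lit 112) (nat_lit 3) (.e (nat_lit 98358) (nat_lit 26) (.e (nat_lit 426131) (nat_lit 3) (.e (nat_lit 204838) (nat_lit 20) (.e (nat_lit 114715) (nat_lit 22) (.e (nat_lit 98048) (nat_lit 21) .nil))))))) (.g (nat_lit 6) .nil .nil))))) (.nd (nat_lit 2) (.nd (nat_lit 3) 
(.lf (nat_lit 259203) (.g (nat_lit 1206) (.e (nat_lit 164358) (nat_lit 246) (.e (nat_lit 100) (nat_lit 2) (.e (nat_lit 90174) (nat_lit 14) (.e (nat_lit 180288) (nat_lit 45) .nil)))) .nil)) 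
(.lf (nat_lit 259211) (.g (nat_lit 2192) (.e (nat_lit 164358) (nat_lit 246) (.e (nat_lit 100) (nat_lit 2) (.e (nat_lit 90185) (nat_lit 17) (.e (nat_lit 237624) (nat_lit 13) (.e (nat_lit 483333) (nat_lit 0) (.e (nat_lit 7105) (nat_lit 380) .nil)))))) (.g (nat_lit 0) .nil .nil)))) (.nd (nat_lit 3) 
(.lf (nat_lit 259207) (.g (nat_lit 2201) (.e (nat_lit 164358) (nat_lit 246) (.e (nat_lit 100) (nat_lit 2) (.e (nat_lit 90176) (nat_lit 15) (.e (nat_lit 188431) (nat_lit 20) (.e (nat_lit 3572) (nat_lit 222) (.e (nat_lit 745216) (nat_lit 0) (.e (nat_lit 5022) (nat_lit 290) .nil))))))) (.g (nat_lit 5) .nil .nil))) 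
(.lf (nat_lit 259215) (.g (nat_lit 1289) (.e (nat_lit 164358) (nat_lit 246) (.e (nat_lit 112) (nat_lit 3) (.e (nat_lit 98358) (nat_lit 26) (.e (nat_lit 426323) (nat_lit 13) (.e (nat_lit 483332) (nat_lit 0) .nil))))) .nil))))))

noncomputable def tv3351 : DT := (.nd (nat_lit 0) (.nd (nat_lit 1) (.nd (nat_lit 2) (.nd (nat_lit 3) 
(.lf (nat_lit 259216) (.g (nat_lit 2253) (.e (nat_lit 164358) (nat_lit 246) (.e (nat_lit 112) (nat_lit 3) (.e (nat_lit 98363) (nat_lit 26) (.e (nat_lit 426321) (nat_lit 13) (.e (nat_lit 483333) (nat_lit 0) (.e (nat_lit 7096) (nat_lit 380) .nil)))))) (.g (nat_lit 6) .nil .nil))) 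
(.lf (nat_lit 259224) (.g (nat_lit 2501) (.e (nat_lit 164358) (nat_lit 246) (.e (nat_lit 112) (nat_lit 3) (.e (nat_lit 98370) (nat_lit 28) (.e (nat_lit 442390) (nat_lit 11) (.e (nat_lit 336288) (nat_lit 15) (.e (nat_lit 7105) (nat_lit 380) .nil)))))) (.g (nat_lit 0) .nil .nil)))) (.nd (nat_lit 3) 
(.lf (nat_lit 259220) (.g (nat_lit 2403) (.e (nat_lit 164358) (nat_lit 246) (.e (nat_lit 112) (nat_lit 3) (.e (nat_lit 98367) (nat_lit 27) (.e (nat_lit 434231) (nat_lit 23) (.e (nat_lit 532507) (nat_lit 2) (.e (nat_lit 106517) (nat_lit 9) (.e (nat_lit 1237) (nat_lit 91) (.e (nat_lit 90203) (nat_lit 21) .nil)))))))) (.g (nat_lit 5) .nil .nil))) 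
(.lf (nat_lit 259228) (.g (nat_lit 1707) (.e (nat_lit 164358) (nat_lit 246) (.e (nat_lit 112) (nat_lit 3) (.e (nat_lit 98373) (nat_lit 29) (.e (nat_lit 450602) (nat_lit 22) (.e (nat_lit 704845) (nat_lit 15) .nil))))) .nil)))) (.nd (nat_lit 2) (.nd (nat_lit 3) 
(.lf (nat_lit 259218) (.g (nat_lit 2786) (.e (nat_lit 164358) (nat_lit 246) (.e (nat_lit 112) (nat_lit 3) (.e (nat_lit 98365) (nat_lit 26) (.e (nat_lit 426325) (nat_lit 13) (.e (nat_lit 483333) (nat_lit 0) (.e (nat_lit 7096) (nat_lit 380) .nil)))))) (.g (nat_lit 6) .nil .nil))) 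
(.lf (nat_lit 259226) (.g (nat_lit 1018) (.e (nat_lit 164358) (nat_lit 246) (.e (nat_lit 112) (nat_lit 3) (.e (nat_lit 98370) (nat_lit 28) (.e (nat_lit 442396) (nat_lit 20) .nil)))) .nil))) (.nd (nat_lit 3) 
(.lf (nat_lit 259222) (.g (nat_lit 2279) (.e (nat_lit 164358) (nat_lit 246) (.e (nat_lit 112) (nat_lit 3) (.e (nat_lit 98369) (nat_lit 28) (.e (nat_lit 442390) (nat_lit 11) (.e (nat_lit 336288) (nat_lit 15) (.e (nat_lit 7106) (nat_lit 380) .nil)))))) (.g (nat_lit 0) .nil .nil))) 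
(.lf (nat_lit 259230) (.g (nat_lit 2205) (.e (nat_lit 164358) (nat_lit 246) (.e (nat_lit 112) (nat_lit 3) (.e (nat_lit 98376) (nat_lit 30) (.e (nat_lit 458789) (nat_lit 23) (.e (nat_lit 532515) (nat_lit 3) (.e (nat_lit 114716) (nat_lit 22) (.e (nat_lit 98048) (nat_lit 21) .nil))))))) (.g (nat_lit 6) .nil .nil)))))) (.nd (nat_lit 1) (.nd (nat_lit 2) (.nd (nat_lit 3) 
(.lf (nat_lit 259217) (.g (nat_lit 1932) (.e (nat_lit 164358) (nat_lit 246) (.e (nat_lit 112) (nat_lit 3) (.e (nat_lit 98363) (nat_lit 26) (.e (nat_lit 426321) (nat_lit 13) (.e (nat_lit 483333) (nat_lit 0) (.e (nat_lit 7105) (nat_lit 380) .nil)))))) (.g (nat_lit 0) .nil .nil))) 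
(.lf (nat_lit 259225) (.g (nat_lit 2455) (.e (nat_lit 164358) (nat_lit 246) (.e (nat_lit 112) (nat_lit 3) (.e (nat_lit 98370) (nat_lit 28) (.e (nat_lit 442390) (nat_lit 11) (.e (nat_lit 336288) (nat_lit 15) (.e (nat_lit 7106) (nat_lit 380) .nil)))))) (.g (nat_lit 0) .nil .nil)))) (.nd (nat_lit 3) 
(.lf (nat_lit 259221) (.g (nat_lit 2324) (.e (nat_lit 164358) (nat_lit 246) (.e (nat_lit 112) (nat_lit 3) (.e (nat_lit 98369) (nat_lit 28) (.e (nat_lit 442390) (nat_lit 11) (.e (nat_lit 336288) (nat_lit 15) (.e (nat_lit 7105) (nat_lit 380) .nil)))))) (.g (nat_lit 0) .nil .nil))) 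
(.lf (nat_lit 259229) (.g (nat_lit 1317) (.e (nat_lit 164358) (nat_lit 246) (.e (nat_lit 112) (nat_lit 3) (.e (nat_lit 98373) (nat_lit 29) (.e (nat_lit 450605) (nat_lit 27) (.e (nat_lit 753408) (nat_lit 17) .nil))))) .nil)))) (.nd (nat_lit 2) (.nd (nat_lit 3) 
(.lf (nat_lit 259219) (.g (nat_lit 2272) (.e (nat_lit 164358) (nat_lit 246) (.e (nat_lit 112) (nat_lit 3) (.e (nat_lit 98366) (nat_lit 27) (.e (nat_lit 434231) (nat_lit 23) (.e (nat_lit 532507) (nat_lit 2) (.e (nat_lit 106517) (nat_lit 9) (.e (nat_lit 1237) (nat_lit 91) (.e (nat_lit 90203) (nat_lit 21) .nil)))))))) (.g (nat_lit 5) .nil .nil))) 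
(.lf (nat_lit 259227) (.g (nat_lit 1723) (.e (nat_lit 164358) (nat_lit 246) (.e (nat_lit 112) (nat_lit 3) (.e (nat_lit 98373) (nat_lit 29) (.e (nat_lit 450602) (nat_lit 22) (.e (nat_lit 704601) (nat_lit 7) .nil))))) .nil))) (.nd (nat_lit 3) 
(.lf (nat_lit 259223) (.g (nat_lit 978) (.e (nat_lit 164358) (nat_lit 246) (.e (nat_lit 112) (nat_lit 3) (.e (nat_lit 98369) (nat_lit 28) (.e (nat_lit 442390) (nat_lit 11) (.e (nat_lit 336293) (nat_lit 15) .nil))))) .nil)) 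
(.lf (nat_lit 259231) (.g (nat_lit 2405) (.e (nat_lit 164358) (nat_lit 246) (.e (nat_lit 112) (nat_lit 3) (.e (nat_lit 98377) (nat_lit 30) (.e (nat_lit 458789) (nat_lit 23) (.e (nat_lit 532515) (nat_lit 3) (.e (nat_lit 114716) (nat_lit 22) (.e (nat_lit 98048) (nat_lit 21) .nil))))))) (.g (nat_lit 6) .nil .nil)))))))

noncomputable def tv3352 : DT := (.nd (nat_lit 0) (.nd (nat_lit 1) (.nd (nat_lit 2) (.nd (nat_lit 3) (.nd (nat_lit 4) 
(.lf (nat_lit 259232) (.g (nat_lit 1223) (.e (nat_lit 164358) (nat_lit 246) (.e (nat_lit 112) (nat_lit 3) (.e (nat_lit 98380) (nat_lit 31) (.e (nat_lit 466954) (nat_lit 11) (.e (nat_lit 336287) (nat_lit 15) (.e (nat_lit 7104) (nat_lit 380) .nil)))))) (.g (nat_lit 4) .nil .nil))) 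
(.lf (nat_lit 259248) (.g (nat_lit 1652) (.e (nat_lit 164358) (nat_lit 246) (.e (nat_lit 226) (nat_lit 21) (.e (nat_lit 336434) (nat_lit 30) (.e (nat_lit 450579) (nat_lit 5) (.e (nat_lit 532574) (nat_lit 17) (.e (nat_lit 7104) (nat_lit 380) .nil)))))) (.g (nat_lit 4) .nil .nil)))) (.nd (nat_lit 4) 
(.lf (nat_lit 259240) (.g (nat_lit 1533) (.e (nat_lit 164358) (nat_lit 246) (.e (nat_lit 216) (nat_lit 19) (.e (nat_lit 319533) (nat_lit 16) (.e (nat_lit 286742) (nat_lit 9) (.e (nat_lit 336438) (nat_lit 31) .nil))))) .nil)) 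
(.lf (nat_lit 259256) (.g (nat_lit 955) (.e (nat_lit 164358) (nat_lit 246) (.e (nat_lit 320) (nat_lit 24) (.e (nat_lit 360467) (nat_lit 3) (.e (nat_lit 516196) (nat_lit 26) .nil)))) .nil)))) (.nd (nat_lit 3) (.nd (nat_lit 4) 
(.lf (nat_lit 259236) (.g (nat_lit 2453) (.e (nat_lit 164358) (nat_lit 246) (.e (nat_lit 112) (nat_lit 3) (.e (nat_lit 98381) (nat_lit 31) (.e (nat_lit 466954) (nat_lit 11) (.e (nat_lit 336288) (nat_lit 15) (.e (nat_lit 7106) (nat_lit 380) .nil)))))) (.g (nat_lit 0) .nil .nil))) 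
(.lf (nat_lit 259252) (.g (nat_lit 2385) (.e (nat_lit 164358) (nat_lit 246) (.e (nat_lit 226) (nat_lit 21) (.e (nat_lit 336443) (nat_lit 32) (.e (nat_lit 466974) (nat_lit 22) (.e (nat_lit 196651) (nat_lit 10) (.e (nat_lit 16128) (nat_lit 183) .nil)))))) (.g (nat_lit 4) .nil .nil)))) (.nd (nat_lit 4) 
(.lf (nat_lit 259244) (.g (nat_lit 3077) (.e (nat_lit 164358) (nat_lit 246) (.e (nat_lit 226) (nat_lit 21) (.e (nat_lit 336432) (nat_lit 30) (.e (nat_lit 450580) (nat_lit 5) (.e (nat_lit 532575) (nat_lit 17) (.e (nat_lit 7096) (nat_lit 380) .nil)))))) (.g (nat_lit 6) .nil .nil))) 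
(.lf (nat_lit 259260) (.g (nat_lit 1747) (.e (nat_lit 164358) (nat_lit 246) (.e (nat_lit 349) (nat_lit 28) (.e (nat_lit 393294) (nat_lit 26) (.e (nat_lit 475169) (nat_lit 22) (.e (nat_lit 499791) (nat_lit 3) .nil))))) .nil))))) (.nd (nat_lit 2) (.nd (nat_lit 3) (.nd (nat_lit 4) 
(.lf (nat_lit 259234) (.g (nat_lit 2357) (.e (nat_lit 164358) (nat_lit 246) (.e (nat_lit 112) (nat_lit 3) (.e (nat_lit 98380) (nat_lit 31) (.e (nat_lit 466954) (nat_lit 11) (.e (nat_lit 336288) (nat_lit 15) (.e (nat_lit 7106) (nat_lit 380) .nil)))))) (.g (nat_lit 0) .nil .nil))) 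
(.lf (nat_lit 259250) (.g (nat_lit 379) (.e (nat_lit 164358) (nat_lit 246) (.e (nat_lit 226) (nat_lit 21) (.e (nat_lit 336443) (nat_lit 32) .nil))) .nil))) (.nd (nat_lit 4) 
(.lf (nat_lit 259242) (.g (nat_lit 1469) (.e (nat_lit 164358) (nat_lit 246) (.e (nat_lit 224) (nat_lit 21) (.e (nat_lit 336443) (nat_lit 32) (.e (nat_lit 466979) (nat_lit 23) (.e (nat_lit 204805) (nat_lit 0) (.e (nat_lit 7106) (nat_lit 380) .nil)))))) (.g (nat_lit 4) .nil .nil))) 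
(.lf (nat_lit 259258) (.g (nat_lit 1345) (.e (nat_lit 164358) (nat_lit 246) (.e (nat_lit 349) (nat_lit 28) (.e (nat_lit 393268) (nat_lit 23) (.e (nat_lit 426432) (nat_lit 17) .nil)))) .nil)))) (.nd (nat_lit 3) (.nd (nat_lit 4) 
(.lf (nat_lit 259238) (.g (nat_lit 3777) (.e (nat_lit 164358) (nat_lit 246) (.e (nat_lit 216) (nat_lit 19) (.e (nat_lit 319531) (nat_lit 16) (.e (nat_lit 286761) (nat_lit 13) (.e (nat_lit 393234) (nat_lit 17) (.e (nat_lit 7936) (nat_lit 380) .nil)))))) (.g (nat_lit 5) .nil .nil))) 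
(.lf (nat_lit 259254) (.g (nat_lit 2770) (.e (nat_lit 164358) (nat_lit 246) (.e (nat_lit 226) (nat_lit 21) (.e (nat_lit 336443) (nat_lit 32) (.e (nat_lit 466977) (nat_lit 22) (.e (nat_lit 196651) (nat_lit 10) (.e (nat_lit 16128) (nat_lit 183) .nil)))))) (.g (nat_lit 5) .nil .nil)))) (.nd (nat_lit 4) 
(.lf (nat_lit 259246) (.g (nat_lit 1066) (.e (nat_lit 164358) (nat_lit 246) (.e (nat_lit 226) (nat_lit 21) (.e (nat_lit 336434) (nat_lit 30) (.e (nat_lit 450579) (nat_lit 5) (.e (nat_lit 532574) (nat_lit 17) .nil))))) .nil)) 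
(.lf (nat_lit 259262) (.g (nat_lit 655) (.e (nat_lit 164358) (nat_lit 246) (.e (nat_lit 351) (nat_lit 28) (.e (nat_lit 393267) (nat_lit 23) (.e (nat_lit 433920) (nat_lit 17) .nil)))) .nil)))))) (.nd (nat_lit 1) (.nd (nat_lit 2) (.nd (nat_lit 3) (.nd (nat_lit 4) 
(.lf (nat_lit 259233) (.g (nat_lit 2399) (.e (nat_lit 164358) (nat_lit 246) (.e (nat_lit 112) (nat_lit 3) (.e (nat_lit 98380) (nat_lit 31) (.e (nat_lit 466954) (nat_lit 11) (.e (nat_lit 336288) (nat_lit 15) (.e (nat_lit 7105) (nat_lit 380) .nil)))))) (.g (nat_lit 0) .nil .nil))) 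
(.lf (nat_lit 259249) (.g (nat_lit 1033) (.e (nat_lit 164358) (nat_lit 246) (.e (nat_lit 226) (nat_lit 21) (.e (nat_lit 336434) (nat_lit 30) (.e (nat_lit 450579) (nat_lit 5) (.e (nat_lit 532575) (nat_lit 17) .nil))))) .nil))) (.nd (nat_lit 4) 
(.lf (nat_lit 259241) (.g (nat_lit 1120) (.e (nat_lit 164358) (nat_lit 246) (.e (nat_lit 216) (nat_lit 19) (.e (nat_lit 319533) (nat_lit 16) (.e (nat_lit 286761) (nat_lit 13) .nil)))) .nil)) 
(.lf (nat_lit 259257) (.g (nat_lit 1195) (.e (nat_lit 164358) (nat_lit 246) (.e (nat_lit 320) (nat_lit 24) (.e (nat_lit 360467) (nat_lit 3) (.e (nat_lit 516197) (nat_lit 26) (.e (nat_lit 336331) (nat_lit 19) .nil))))) .nil)))) (.nd (nat_lit 3) (.nd (nat_lit 4) 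
(.lf (nat_lit 259237) (.g (nat_lit 3601) (.e (nat_lit 164358) (nat_lit 246) (.e (nat_lit 216) (nat_lit 19) (.e (nat_lit 319530) (nat_lit 16) (.e (nat_lit 286761) (nat_lit 13) (.e (nat_lit 393234) (nat_lit 17) (.e (nat_lit 7936) (nat_lit 380) .nil)))))) (.g (nat_lit 5) .nil .nil))) 
(.lf (nat_lit 259253) (.g (nat_lit 2293) (.e (nat_lit 164358) (nat_lit 246) (.e (nat_lit 226) (nat_lit 21) (.e (nat_lit 336443) (nat_lit 32) (.e (nat_lit 466977) (nat_lit 22) (.e (nat_lit 196651) (nat_lit 10) (.e (nat_lit 8499) (nat_lit 183) .nil)))))) (.g (nat_lit 4) .nil .nil)))) (.nd (nat_lit 4) 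
(.lf (nat_lit 259245) (.g (nat_lit 2473) (.e (nat_lit 164358) (nat_lit 246) (.e (nat_lit 226) (nat_lit 21) (.e (nat_lit 336432) (nat_lit 30) (.e (nat_lit 450580) (nat_lit 5) (.e (nat_lit 532575) (nat_lit 17) (.e (nat_lit 7106) (nat_lit 380) .nil)))))) (.g (nat_lit 0) .nil .nil))) 
(.lf (nat_lit 259261) (.g (nat_lit 1838) (.e (nat_lit 164358) (nat_lit 246) (.e (nat_lit 351) (nat_lit 28) (.e (nat_lit 393267) (nat_lit 23) (.e (nat_lit 426432) (nat_lit 17) (.e (nat_lit 90203) (nat_lit 21) (.e (nat_lit 164288) (nat_lit 224) .nil)))))) (.g (nat_lit 4) .nil .nil)))))) (.nd (nat_lit 2) (.nd (nat_lit 3) (.nd (nat_lit 4) 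
(.lf (nat_lit 259235) (.g (nat_lit 2501) (.e (nat_lit 164358) (nat_lit 246) (.e (nat_lit 112) (nat_lit 3) (.e (nat_lit 98381) (nat_lit 31) (.e (nat_lit 466954) (nat_lit 11) (.e (nat_lit 336288) (nat_lit 15) (.e (nat_lit 7105) (nat_lit 380) .nil)))))) (.g (nat_lit 0) .nil .nil))) 
(.lf (nat_lit 259251) (.g (nat_lit 2120) (.e (nat_lit 164358) (nat_lit 246) (.e (nat_lit 226) (nat_lit 21) (.e (nat_lit 336443) (nat_lit 32) (.e (nat_lit 466974) (nat_lit 22) (.e (nat_lit 196651) (nat_lit 10) .nil))))) .nil))) (.nd (nat_lit 4) 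
(.lf (nat_lit 259243) (.g (nat_lit 1570) (.e (nat_lit 164358) (nat_lit 246) (.e (nat_lit 224) (nat_lit 21) (.e (nat_lit 336443) (nat_lit 32) (.e (nat_lit 466981) (nat_lit 23) (.e (nat_lit 204805) (nat_lit 0) (.e (nat_lit 7106) (nat_lit 380) .nil)))))) (.g (nat_lit 4) .nil .nil))) 
(.lf (nat_lit 259259) (.g (nat_lit 929) (.e (nat_lit 164358) (nat_lit 246) (.e (nat_lit 349) (nat_lit 28) (.e (nat_lit 393269) (nat_lit 23) (.e (nat_lit 426432) (nat_lit 17) (.e (nat_lit 90203) (nat_lit 21) .nil))))) .nil)))) (.nd (nat_lit 3) (.nd (nat_lit 4) 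
(.lf (nat_lit 259239) (.g (nat_lit 1440) (.e (nat_lit 164358) (nat_lit 246) (.e (nat_lit 216) (nat_lit 19) (.e (nat_lit 319533) (nat_lit 16) (.e (nat_lit 286742) (nat_lit 9) .nil)))) .nil)) 
(.lf (nat_lit 259255) (.g (nat_lit 1687) (.e (nat_lit 164358) (nat_lit 246) (.e (nat_lit 226) (nat_lit 21) (.e (nat_lit 336443) (nat_lit 32) (.e (nat_lit 466981) (nat_lit 23) (.e (nat_lit 204806) (nat_lit 0) .nil))))) .nil))) (.nd (nat_lit 4) 
(.lf (nat_lit 259247) (.g (nat_lit 1564) (.e (nat_lit 164358) (nat_lit 246) (.e (nat_lit 226) (nat_lit 21) (.e (nat_lit 336434) (nat_lit 30) (.e (nat_lit 450579) (nat_lit 5) (.e (nat_lit 532574) (nat_lit 17) (.e (nat_lit 7103) (nat_lit 380) .nil)))))) (.g (nat_lit 4) .nil .nil))) 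
(.lf (nat_lit 259263) (.g (nat_lit 2169) (.e (nat_lit 164358) (nat_lit 246) (.e (nat_lit 351) (nat_lit 28) (.e (nat_lit 393268) (nat_lit 23) (.e (nat_lit 426432) (nat_lit 17) (.e (nat_lit 90203) (nat_lit 21) (.e (nat_lit 164287) (nat_lit 224) .nil)))))) (.g (nat_lit 0) .nil .nil))))))))

noncomputable def tv3353 : DT := (.nd (nat_lit 0) (.nd (nat_lit 1) (.nd (nat_lit 2) (.nd (nat_lit 3) (.nd (nat_lit 4) (.nd (nat_lit 5) 
(.lf (nat_lit 259264) (.g (nat_lit 2039) (.e (nat_lit 164358) (nat_lit 246) (.e (nat_lit 351) (nat_lit 28) (.e (nat_lit 393268) (nat_lit 23) (.e (nat_lit 426432) (nat_lit 17) (.e (nat_lit 90203) (nat_lit 21) (.e (nat_lit 164288) (nat_lit 224) .nil)))))) (.g (nat_lit 5) .nil .nil))) 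
(.lf (nat_lit 259296) (.g (nat_lit 844) (.e (nat_lit 164362) (nat_lit 246) (.e (nat_lit 3062) (nat_lit 190) (.e (nat_lit 475207) (nat_lit 41) .nil))) .nil))) (.nd (nat_lit 5) 
(.lf (nat_lit 259280) (.g (nat_lit 1640) (.e (nat_lit 164358) (nat_lit 246) (.e (nat_lit 351) (nat_lit 28) (.e (nat_lit 393293) (nat_lit 26) (.e (nat_lit 475169) (nat_lit 22) (.e (nat_lit 499791) (nat_lit 3) (.e (nat_lit 164288) (nat_lit 224) .nil)))))) (.g (nat_lit 4) .nil .nil))) 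
(.lf (nat_lit 259312) (.g (nat_lit 483) (.e (nat_lit 164373) (nat_lit 251) (.e (nat_lit 180248) (nat_lit 9) (.e (nat_lit 565252) (nat_lit 0) (.e (nat_lit 1598) (nat_lit 111) (.e (nat_lit 368384) (nat_lit 22) .nil))))) .nil)))) (.nd (nat_lit 4) (.nd (nat_lit 5) 
(.lf (nat_lit 259272) (.g (nat_lit 2097) (.e (nat_lit 164358) (nat_lit 246) (.e (nat_lit 351) (nat_lit 28) (.e (nat_lit 393271) (nat_lit 23) (.e (nat_lit 426432) (nat_lit 17) (.e (nat_lit 90203) (nat_lit 21) (.e (nat_lit 164288) (nat_lit 224) .nil)))))) (.g (nat_lit 5) .nil .nil))) 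
(.lf (nat_lit 259304) (.g (nat_lit 1051) (.e (nat_lit 164371) (nat_lit 249) (.e (nat_lit 164238) (nat_lit 187) (.e (nat_lit 1253) (nat_lit 92) (.e (nat_lit 98373) (nat_lit 29) .nil)))) .nil))) (.nd (nat_lit 5) 
(.lf (nat_lit 259288) (.g (nat_lit 3464) (.e (nat_lit 164359) (nat_lit 246) (.e (nat_lit 3062) (nat_lit 190) (.e (nat_lit 475183) (nat_lit 29) (.e (nat_lit 557108) (nat_lit 15) (.e (nat_lit 188449) (nat_lit 22) (.e (nat_lit 204544) (nat_lit 21) .nil)))))) (.g (nat_lit 5) .nil .nil))) 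
(.lf (nat_lit 259320) (.g (nat_lit 2218) (.e (nat_lit 164378) (nat_lit 254) (.e (nat_lit 1194) (nat_lit 88) (.e (nat_lit 65586) (nat_lit 7) (.e (nat_lit 319531) (nat_lit 16) (.e (nat_lit 286767) (nat_lit 27) .nil))))) .nil))))) (.nd (nat_lit 3) (.nd (nat_lit 4) (.nd (nat_lit 5) 
(.lf (nat_lit 259268) (.g (nat_lit 1453) (.e (nat_lit 164358) (nat_lit 246) (.e (nat_lit 351) (nat_lit 28) (.e (nat_lit 393270) (nat_lit 23) (.e (nat_lit 426428) (nat_lit 17) (.e (nat_lit 98048) (nat_lit 21) (.e (nat_lit 164289) (nat_lit 224) .nil)))))) (.g (nat_lit 4) .nil .nil))) 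
(.lf (nat_lit 259300) (.g (nat_lit 1417) (.e (nat_lit 164368) (nat_lit 247) (.e (nat_lit 8318) (nat_lit 64) (.e (nat_lit 516169) (nat_lit 13) (.e (nat_lit 458789) (nat_lit 23) (.e (nat_lit 532515) (nat_lit 3) .nil))))) .nil))) (.nd (nat_lit 5) 
(.lf (nat_lit 259284) (.g (nat_lit 532) (.e (nat_lit 164359) (nat_lit 246) (.e (nat_lit 2887) (nat_lit 184) (.e (nat_lit 426043) (nat_lit 0) .nil))) .nil)) 
(.lf (nat_lit 259316) (.g (nat_lit 2028) (.e (nat_lit 164377) (nat_lit 253) (.e (nat_lit 237629) (nat_lit 15) (.e (nat_lit 2173) (nat_lit 143) (.e (nat_lit 712755) (nat_lit 30) (.e (nat_lit 450597) (nat_lit 17) (.e (nat_lit 671488) (nat_lit 17) .nil)))))) (.g (nat_lit 5) .nil .nil))))) (.nd (nat_lit 4) (.nd (nat_lit 5) 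
(.lf (nat_lit 259276) (.g (nat_lit 1596) (.e (nat_lit 164358) (nat_lit 246) (.e (nat_lit 351) (nat_lit 28) (.e (nat_lit 393281) (nat_lit 23) (.e (nat_lit 426115) (nat_lit 2) (.e (nat_lit 196651) (nat_lit 10) (.e (nat_lit 16128) (nat_lit 183) .nil)))))) (.g (nat_lit 5) .nil .nil))) 
(.lf (nat_lit 259308) (.g (nat_lit 962) (.e (nat_lit 164372) (nat_lit 250) (.e (nat_lit 172143) (nat_lit 25) (.e (nat_lit 319490) (nat_lit 0) (.e (nat_lit 5771) (nat_lit 316) (.e (nat_lit 172128) (nat_lit 15) (.e (nat_lit 6237) (nat_lit 335) .nil)))))) (.g (nat_lit 0) .nil .nil)))) (.nd (nat_lit 5) 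
(.lf (nat_lit 259292) (.g (nat_lit 1929) (.e (nat_lit 164359) (nat_lit 246) (.e (nat_lit 3062) (nat_lit 190) (.e (nat_lit 475193) (nat_lit 38) (.e (nat_lit 688177) (nat_lit 16) (.e (nat_lit 65543) (nat_lit 0) .nil))))) .nil)) 
(.lf (nat_lit 259324) (.g (nat_lit 1113) (.e (nat_lit 164379) (nat_lit 254) (.e (nat_lit 999) (nat_lit 81) (.e (nat_lit 1256) (nat_lit 92) (.e (nat_lit 98370) (nat_lit 28) (.e (nat_lit 450304) (nat_lit 18) .nil))))) .nil)))))) (.nd (nat_lit 2) (.nd (nat_lit 3) (.nd (nat_lit 4) (.nd (nat_lit 5) 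
(.lf (nat_lit 259266) (.g (nat_lit 1512) (.e (nat_lit 164358) (nat_lit 246) (.e (nat_lit 351) (nat_lit 28) (.e (nat_lit 393269) (nat_lit 23) (.e (nat_lit 426432) (nat_lit 17) (.e (nat_lit 90203) (nat_lit 21) (.e (nat_lit 164289) (nat_lit 224) .nil)))))) (.g (nat_lit 4) .nil .nil))) 
(.lf (nat_lit 259298) (.g (nat_lit 1075) (.e (nat_lit 164366) (nat_lit 246) (.e (nat_lit 2664) (nat_lit 167) (.e (nat_lit 196630) (nat_lit 9) (.e (nat_lit 1573) (nat_lit 110) .nil)))) .nil))) (.nd (nat_lit 5) 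
(.lf (nat_lit 259282) (.g (nat_lit 2105) (.e (nat_lit 164358) (nat_lit 246) (.e (nat_lit 351) (nat_lit 28) (.e (nat_lit 393294) (nat_lit 26) (.e (nat_lit 475169) (nat_lit 22) (.e (nat_lit 499791) (nat_lit 3) (.e (nat_lit 164287) (nat_lit 224) .nil)))))) (.g (nat_lit 0) .nil .nil))) 
(.lf (nat_lit 259314) (.g (nat_lit 2405) (.e (nat_lit 164375) (nat_lit 252) (.e (nat_lit 229425) (nat_lit 21) (.e (nat_lit 500077) (nat_lit 20) (.e (nat_lit 81956) (nat_lit 23) (.e (nat_lit 98320) (nat_lit 17) .nil))))) .nil)))) (.nd (nat_lit 4) (.nd (nat_lit 5) 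
(.lf (nat_lit 259274) (.g (nat_lit 1368) (.e (nat_lit 164358) (nat_lit 246) (.e (nat_lit 351) (nat_lit 28) (.e (nat_lit 393279) (nat_lit 23) (.e (nat_lit 426431) (nat_lit 17) (.e (nat_lit 90203) (nat_lit 21) (.e (nat_lit 164287) (nat_lit 224) .nil)))))) (.g (nat_lit 0) .nil .nil))) 
(.lf (nat_lit 259306) (.g (nat_lit 2578) (.e (nat_lit 164372) (nat_lit 250) (.e (nat_lit 172133) (nat_lit 15) (.e (nat_lit 2175) (nat_lit 143) (.e (nat_lit 712755) (nat_lit 30) (.e (nat_lit 450597) (nat_lit 17) (.e (nat_lit 671488) (nat_lit 17) .nil)))))) (.g (nat_lit 5) .nil .nil)))) (.nd (nat_lit 5) 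
(.lf (nat_lit 259290) (.g (nat_lit 1773) (.e (nat_lit 164359) (nat_lit 246) (.e (nat_lit 3062) (nat_lit 190) (.e (nat_lit 475184) (nat_lit 29) (.e (nat_lit 557109) (nat_lit 15) (.e (nat_lit 188449) (nat_lit 22) .nil))))) .nil)) 
(.lf (nat_lit 259322) (.g (nat_lit 3213) (.e (nat_lit 164378) (nat_lit 254) (.e (nat_lit 1201) (nat_lit 88) (.e (nat_lit 65610) (nat_lit 10) (.e (nat_lit 344117) (nat_lit 21) (.e (nat_lit 516195) (nat_lit 26) .nil))))) .nil))))) (.nd (nat_lit 3) (.nd (nat_lit 4) (.nd (nat_lit 5) 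
(.lf (nat_lit 259270) (.g (nat_lit 2205) (.e (nat_lit 164358) (nat_lit 246) (.e (nat_lit 351) (nat_lit 28) (.e (nat_lit 393271) (nat_lit 23) (.e (nat_lit 426428) (nat_lit 17) (.e (nat_lit 98048) (nat_lit 21) (.e (nat_lit 164289) (nat_lit 224) .nil)))))) (.g (nat_lit 4) .nil .nil))) 
(.lf (nat_lit 259302) (.g (nat_lit 2919) (.e (nat_lit 164368) (nat_lit 247) (.e (nat_lit 8326) (nat_lit 69) (.e (nat_lit 557100) (nat_lit 13) (.e (nat_lit 172113) (nat_lit 10) (.e (nat_lit 434248) (nat_lit 28) .nil))))) .nil))) (.nd (nat_lit 5) 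
(.lf (nat_lit 259286) (.g (nat_lit 1781) (.e (nat_lit 164359) (nat_lit 246) (.e (nat_lit 2959) (nat_lit 185) (.e (nat_lit 434268) (nat_lit 36) (.e (nat_lit 639020) (nat_lit 16) (.e (nat_lit 65542) (nat_lit 0) (.e (nat_lit 6218) (nat_lit 333) (.e (nat_lit 57819) (nat_lit 248) .nil))))))) (.g (nat_lit 4) .nil .nil))) 
(.lf (nat_lit 259318) (.g (nat_lit 2159) (.e (nat_lit 164377) (nat_lit 253) (.e (nat_lit 237636) (nat_lit 27) (.e (nat_lit 336231) (nat_lit 14) (.e (nat_lit 401440) (nat_lit 9) (.e (nat_lit 426365) (nat_lit 15) (.e (nat_lit 6236) (nat_lit 335) .nil)))))) (.g (nat_lit 5) .nil .nil))))) (.nd (nat_lit 4) (.nd (nat_lit 5) 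
(.lf (nat_lit 259278) (.g (nat_lit 1280) (.e (nat_lit 164358) (nat_lit 246) (.e (nat_lit 351) (nat_lit 28) (.e (nat_lit 393281) (nat_lit 23) (.e (nat_lit 426133) (nat_lit 3) (.e (nat_lit 204807) (nat_lit 0) .nil))))) .nil)) 
(.lf (nat_lit 259310) (.g (nat_lit 682) (.e (nat_lit 164373) (nat_lit 251) (.e (nat_lit 180248) (nat_lit 9) (.e (nat_lit 565252) (nat_lit 0) (.e (nat_lit 1589) (nat_lit 111) (.e (nat_lit 368384) (nat_lit 22) .nil))))) .nil))) (.nd (nat_lit 5) 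
(.lf (nat_lit 259294) (.g (nat_lit 673) (.e (nat_lit 164359) (nat_lit 246) (.e (nat_lit 3096) (nat_lit 192) (.e (nat_lit 491540) (nat_lit 3) (.e (nat_lit 98373) (nat_lit 29) .nil)))) .nil)) 
(.lf (nat_lit 259326) (.g (nat_lit 1977) (.e (nat_lit 164379) (nat_lit 254) (.e (nat_lit 1201) (nat_lit 88) (.e (nat_lit 65583) (nat_lit 7) (.e (nat_lit 319530) (nat_lit 16) (.e (nat_lit 286767) (nat_lit 27) .nil))))) .nil))))))) (.nd (nat_lit 1) (.nd (nat_lit 2) (.nd (nat_lit 3) (.nd (nat_lit 4) (.nd (nat_lit 5) 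
(.lf (nat_lit 259265) (.g (nat_lit 1499) (.e (nat_lit 164358) (nat_lit 246) (.e (nat_lit 351) (nat_lit 28) (.e (nat_lit 393269) (nat_lit 23) (.e (nat_lit 426432) (nat_lit 17) (.e (nat_lit 90203) (nat_lit 21) (.e (nat_lit 164287) (nat_lit 224) .nil)))))) (.g (nat_lit 4) .nil .nil))) 
(.lf (nat_lit 259297) (.g (nat_lit 3371) (.e (nat_lit 164365) (nat_lit 246) (.e (nat_lit 2663) (nat_lit 167) (.e (nat_lit 196666) (nat_lit 13) (.e (nat_lit 65610) (nat_lit 10) (.e (nat_lit 344117) (nat_lit 21) .nil))))) .nil))) (.nd (nat_lit 5) 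
(.lf (nat_lit 259281) (.g (nat_lit 683) (.e (nat_lit 164358) (nat_lit 246) (.e (nat_lit 351) (nat_lit 28) (.e (nat_lit 393293) (nat_lit 26) (.e (nat_lit 483072) (nat_lit 26) .nil)))) .nil)) 
(.lf (nat_lit 259313) (.g (nat_lit 347) (.e (nat_lit 164373) (nat_lit 251) (.e (nat_lit 180248) (nat_lit 9) (.e (nat_lit 565252) (nat_lit 0) (.e (nat_lit 1599) (nat_lit 111) (.e (nat_lit 368384) (nat_lit 22) .nil))))) .nil)))) (.nd (nat_lit 4) (.nd (nat_lit 5) 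
(.lf (nat_lit 259273) (.g (nat_lit 2233) (.e (nat_lit 164358) (nat_lit 246) (.e (nat_lit 351) (nat_lit 28) (.e (nat_lit 393279) (nat_lit 23) (.e (nat_lit 426129) (nat_lit 3) (.e (nat_lit 204805) (nat_lit 0) (.e (nat_lit 7096) (nat_lit 380) .nil)))))) (.g (nat_lit 6) .nil .nil))) 
(.lf (nat_lit 259305) (.g (nat_lit 1414) (.e (nat_lit 164372) (nat_lit 250) (.e (nat_lit 172133) (nat_lit 15) (.e (nat_lit 2175) (nat_lit 143) (.e (nat_lit 712753) (nat_lit 30) (.e (nat_lit 450595) (nat_lit 17) (.e (nat_lit 671488) (nat_lit 17) .nil)))))) (.g (nat_lit 5) .nil .nil)))) (.nd (nat_lit 5) 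
(.lf (nat_lit 259289) (.g (nat_lit 1770) (.e (nat_lit 164359) (nat_lit 246) (.e (nat_lit 3062) (nat_lit 190) (.e (nat_lit 475183) (nat_lit 29) (.e (nat_lit 557109) (nat_lit 15) (.e (nat_lit 188449) (nat_lit 22) .nil))))) .nil)) 
(.lf (nat_lit 259321) (.g (nat_lit 2767) (.e (nat_lit 164378) (nat_lit 254) (.e (nat_lit 1201) (nat_lit 88) (.e (nat_lit 65586) (nat_lit 7) (.e (nat_lit 319531) (nat_lit 16) (.e (nat_lit 286767) (nat_lit 27) .nil))))) .nil))))) (.nd (nat_lit 3) (.nd (nat_lit 4) (.nd (nat_lit 5) 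
(.lf (nat_lit 259269) (.g (nat_lit 2776) (.e (nat_lit 164358) (nat_lit 246) (.e (nat_lit 351) (nat_lit 28) (.e (nat_lit 393271) (nat_lit 23) (.e (nat_lit 426131) (nat_lit 3) (.e (nat_lit 204805) (nat_lit 0) (.e (nat_lit 7096) (nat_lit 380) .nil)))))) (.g (nat_lit 6) .nil .nil))) 
(.lf (nat_lit 259301) (.g (nat_lit 896) (.e (nat_lit 164368) (nat_lit 247) (.e (nat_lit 8318) (nat_lit 64) (.e (nat_lit 516174) (nat_lit 14) (.e (nat_lit 474880) (nat_lit 17) .nil)))) .nil))) (.nd (nat_lit 5) 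
(.lf (nat_lit 259285) (.g (nat_lit 912) (.e (nat_lit 164359) (nat_lit 246) (.e (nat_lit 2887) (nat_lit 184) (.e (nat_lit 426043) (nat_lit 0) (.e (nat_lit 3391) (nat_lit 210) .nil)))) .nil)) 
(.lf (nat_lit 259317) (.g (nat_lit 2082) (.e (nat_lit 164377) (nat_lit 253) (.e (nat_lit 237629) (nat_lit 15) (.e (nat_lit 2175) (nat_lit 143) (.e (nat_lit 712755) (nat_lit 30) (.e (nat_lit 450597) (nat_lit 17) (.e (nat_lit 671488) (nat_lit 17) .nil)))))) (.g (nat_lit 5) .nil .nil))))) (.nd (nat_lit 4) (.nd (nat_lit 5) 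
(.lf (nat_lit 259277) (.g (nat_lit 1376) (.e (nat_lit 164358) (nat_lit 246) (.e (nat_lit 351) (nat_lit 28) (.e (nat_lit 393281) (nat_lit 23) (.e (nat_lit 426116) (nat_lit 2) (.e (nat_lit 196651) (nat_lit 10) .nil))))) .nil)) 
(.lf (nat_lit 259309) (.g (nat_lit 555) (.e (nat_lit 164372) (nat_lit 250) (.e (nat_lit 172143) (nat_lit 25) (.e (nat_lit 319492) (nat_lit 0) (.e (nat_lit 5771) (nat_lit 316) (.e (nat_lit 172128) (nat_lit 15) (.e (nat_lit 6236) (nat_lit 335) .nil)))))) (.g (nat_lit 0) .nil .nil)))) (.nd (nat_lit 5) 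
(.lf (nat_lit 259293) (.g (nat_lit 1797) (.e (nat_lit 164359) (nat_lit 246) (.e (nat_lit 3062) (nat_lit 190) (.e (nat_lit 475193) (nat_lit 38) (.e (nat_lit 688180) (nat_lit 17) (.e (nat_lit 73794) (nat_lit 46) (.e (nat_lit 57819) (nat_lit 248) .nil)))))) (.g (nat_lit 4) .nil .nil))) 
(.lf (nat_lit 259325) (.g (nat_lit 2017) (.e (nat_lit 164379) (nat_lit 254) (.e (nat_lit 1124) (nat_lit 83) (.e (nat_lit 16412) (nat_lit 2) (.e (nat_lit 196681) (nat_lit 17) (.e (nat_lit 131089) (nat_lit 1) .nil))))) .nil)))))) (.nd (nat_lit 2) (.nd (nat_lit 3) (.nd (nat_lit 4) (.nd (nat_lit 5) 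
(.lf (nat_lit 259267) (.g (nat_lit 1381) (.e (nat_lit 164358) (nat_lit 246) (.e (nat_lit 351) (nat_lit 28) (.e (nat_lit 393270) (nat_lit 23) (.e (nat_lit 426428) (nat_lit 17) (.e (nat_lit 98048) (nat_lit 21) (.e (nat_lit 164287) (nat_lit 224) .nil)))))) (.g (nat_lit 4) .nil .nil))) 
(.lf (nat_lit 259299) (.g (nat_lit 2180) (.e (nat_lit 164367) (nat_lit 247) (.e (nat_lit 8326) (nat_lit 69) (.e (nat_lit 557100) (nat_lit 13) (.e (nat_lit 172113) (nat_lit 10) .nil)))) .nil))) (.nd (nat_lit 5) 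
(.lf (nat_lit 259283) (.g (nat_lit 1962) (.e (nat_lit 164358) (nat_lit 246) (.e (nat_lit 351) (nat_lit 28) (.e (nat_lit 393294) (nat_lit 26) (.e (nat_lit 475169) (nat_lit 22) (.e (nat_lit 499791) (nat_lit 3) (.e (nat_lit 164288) (nat_lit 224) .nil)))))) (.g (nat_lit 4) .nil .nil))) 
(.lf (nat_lit 259315) (.g (nat_lit 1677) (.e (nat_lit 164377) (nat_lit 253) (.e (nat_lit 237629) (nat_lit 15) (.e (nat_lit 2160) (nat_lit 143) (.e (nat_lit 712755) (nat_lit 30) (.e (nat_lit 450597) (nat_lit 17) (.e (nat_lit 671488) (nat_lit 17) .nil)))))) (.g (nat_lit 5) .nil .nil))))) (.nd (nat_lit 4) (.nd (nat_lit 5) 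
(.lf (nat_lit 259275) (.g (nat_lit 782) (.e (nat_lit 164358) (nat_lit 246) (.e (nat_lit 351) (nat_lit 28) (.e (nat_lit 393281) (nat_lit 23) (.e (nat_lit 426114) (nat_lit 2) .nil)))) .nil)) 
(.lf (nat_lit 259307) (.g (nat_lit 1020) (.e (nat_lit 164372) (nat_lit 250) (.e (nat_lit 172143) (nat_lit 25) (.e (nat_lit 319490) (nat_lit 0) (.e (nat_lit 5771) (nat_lit 316) (.e (nat_lit 172128) (nat_lit 15) (.e (nat_lit 6236) (nat_lit 335) .nil)))))) (.g (nat_lit 0) .nil .nil)))) (.nd (nat_lit 5) 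
(.lf (nat_lit 259291) (.g (nat_lit 421) (.e (nat_lit 164359) (nat_lit 246) (.e (nat_lit 3062) (nat_lit 190) (.e (nat_lit 475193) (nat_lit 38) .nil))) .nil)) 
(.lf (nat_lit 259323) (.g (nat_lit 2721) (.e (nat_lit 164378) (nat_lit 254) (.e (nat_lit 1223) (nat_lit 90) (.e (nat_lit 81956) (nat_lit 23) (.e (nat_lit 98313) (nat_lit 9) (.e (nat_lit 343808) (nat_lit 20) .nil))))) .nil))))) (.nd (nat_lit 3) (.nd (nat_lit 4) (.nd (nat_lit 5) 
(.lf (nat_lit 259271) (.g (nat_lit 2262) (.e (nat_lit 164358) (nat_lit 246) (.e (nat_lit 351) (nat_lit 28) (.e (nat_lit 393271) (nat_lit 23) (.e (nat_lit 426432) (nat_lit 17) (.e (nat_lit 90203) (nat_lit 21) (.e (nat_lit 164287) (nat_lit 224) .nil)))))) (.g (nat_lit 0) .nil .nil))) 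
(.lf (nat_lit 259303) (.g (nat_lit 1042) (.e (nat_lit 171776) (nat_lit 247) (.e (nat_lit 8320) (nat_lit 64) (.e (nat_lit 516176) (nat_lit 14) (.e (nat_lit 474880) (nat_lit 17) .nil)))) .nil))) (.nd (nat_lit 5) 
(.lf (nat_lit 259287) (.g (nat_lit 1610) (.e (nat_lit 164359) (nat_lit 246) (.e (nat_lit 2979) (nat_lit 185) (.e (nat_lit 434275) (nat_lit 39) (.e (nat_lit 663583) (nat_lit 11) (.e (nat_lit 24584) (nat_lit 0) .nil))))) .nil)) 
(.lf (nat_lit 259319) (.g (nat_lit 512) (.e (nat_lit 164378) (nat_lit 254) (.e (nat_lit 1183) (nat_lit 87) (.e (nat_lit 57712) (nat_lit 176) .nil))) .nil)))) (.nd (nat_lit 4) (.nd (nat_lit 5) 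
(.lf (nat_lit 259279) (.g (nat_lit 2531) (.e (nat_lit 164358) (nat_lit 246) (.e (nat_lit 351) (nat_lit 28) (.e (nat_lit 393291) (nat_lit 26) (.e (nat_lit 475169) (nat_lit 22) (.e (nat_lit 499791) (nat_lit 3) (.e (nat_lit 164287) (nat_lit 224) .nil)))))) (.g (nat_lit 0) .nil .nil))) 
(.lf (nat_lit 259311) (.g (nat_lit 695) (.e (nat_lit 164373) (nat_lit 251) (.e (nat_lit 180248) (nat_lit 9) (.e (nat_lit 565252) (nat_lit 0) (.e (nat_lit 1595) (nat_lit 111) (.e (nat_lit 368384) (nat_lit 22) .nil))))) .nil))) (.nd (nat_lit 5) 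
(.lf (nat_lit 259295) (.g (nat_lit 718) (.e (nat_lit 164362) (nat_lit 246) (.e (nat_lit 3062) (nat_lit 190) (.e (nat_lit 475185) (nat_lit 29) .nil))) .nil)) 
(.lf (nat_lit 259327) (.g (nat_lit 2758) (.e (nat_lit 164379) (nat_lit 254) (.e (nat_lit 1201) (nat_lit 88) (.e (nat_lit 65586) (nat_lit 7) (.e (nat_lit 319531) (nat_lit 16) (.e (nat_lit 286767) (nat_lit 27) .nil))))) .nil))))))))

noncomputable def tv3354 : DT := (.nd (nat_lit 0) (.nd (nat_lit 1) (.nd (nat_lit 2) (.nd (nat_lit 3) (.nd (nat_lit 4) (.nd (nat_lit 5) (.nd (nat_lit 6) 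
(.lf (nat_lit 259328) (.g (nat_lit 2404) (.e (nat_lit 164380) (nat_lit 254) (.e (nat_lit 1195) (nat_lit 88) (.e (nat_lit 65586) (nat_lit 7) (.e (nat_lit 319531) (nat_lit 16) (.e (nat_lit 286767) (nat_lit 27) .nil))))) .nil)) 
(.lf (nat_lit 259392) (.g (nat_lit 1870) (.e (nat_lit 164396) (nat_lit 256) (.e (nat_lit 57371) (nat_lit 2) (.e (nat_lit 90172) (nat_lit 14) (.e (nat_lit 180243) (nat_lit 5) (.e (nat_lit 532513) (nat_lit 3) .nil))))) .nil))) (.nd (nat_lit 6) 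
(.lf (nat_lit 259360) (.g (nat_lit 2621) (.e (nat_lit 164384) (nat_lit 254) (.e (nat_lit 1218) (nat_lit 90) (.e (nat_lit 81953) (nat_lit 22) (.e (nat_lit 90160) (nat_lit 11) .nil)))) .nil)) 
(.lf (nat_lit 259424) (.g (nat_lit 2105) (.e (nat_lit 164396) (nat_lit 256) (.e (nat_lit 57374) (nat_lit 2) (.e (nat_lit 90170) (nat_lit 13) (.e (nat_lit 172065) (nat_lit 3) .nil)))) .nil)))) (.nd (nat_lit 5) (.nd (nat_lit 6) 
(.lf (nat_lit 259344) (.g (nat_lit 1529) (.e (nat_lit 164383) (nat_lit 254) (.e (nat_lit 1222) (nat_lit 90) (.e (nat_lit 81954) (nat_lit 23) (.e (nat_lit 98315) (nat_lit 9) .nil)))) .nil)) 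
(.lf (nat_lit 259408) (.g (nat_lit 2105) (.e (nat_lit 164396) (nat_lit 256) (.e (nat_lit 57371) (nat_lit 2) (.e (nat_lit 90174) (nat_lit 14) (.e (nat_lit 180243) (nat_lit 5) (.e (nat_lit 532511) (nat_lit 2) .nil))))) .nil))) (.nd (nat_lit 6) 
(.lf (nat_lit 259376) (.g (nat_lit 3589) (.e (nat_lit 164391) (nat_lit 254) (.e (nat_lit 1209) (nat_lit 89) (.e (nat_lit 73775) (nat_lit 26) (.e (nat_lit 778362) (nat_lit 9) (.e (nat_lit 297) (nat_lit 22) (.e (nat_lit 344132) (nat_lit 26) (.e (nat_lit 557100) (nat_lit 13) (.e (nat_lit 172061) (nat_lit 1) .nil)))))))) (.g (nat_lit 5) .nil .nil))) 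
(.lf (nat_lit 259440) (.g (nat_lit 2014) (.e (nat_lit 164396) (nat_lit 256) (.e (nat_lit 57375) (nat_lit 2) (.e (nat_lit 90174) (nat_lit 14) (.e (nat_lit 180243) (nat_lit 5) (.e (nat_lit 532513) (nat_lit 3) .nil))))) .nil))))) (.nd (nat_lit 4) (.nd (nat_lit 5) (.nd (nat_lit 6) 
(.lf (nat_lit 259336) (.g (nat_lit 661) (.e (nat_lit 164383) (nat_lit 254) (.e (nat_lit 1222) (nat_lit 90) (.e (nat_lit 81951) (nat_lit 22) .nil))) .nil)) 
(.lf (nat_lit 259400) (.g (nat_lit 2482) (.e (nat_lit 164396) (nat_lit 256) (.e (nat_lit 57371) (nat_lit 2) (.e (nat_lit 90172) (nat_lit 14) (.e (nat_lit 180244) (nat_lit 5) (.e (nat_lit 532515) (nat_lit 3) (.e (nat_lit 114716) (nat_lit 22) (.e (nat_lit 90129) (nat_lit 9) (.e (nat_lit 2604) (nat_lit 163) .nil)))))))) (.g (nat_lit 5) .nil .nil)))) (.nd (nat_lit 6) 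
(.lf (nat_lit 259368) (.g (nat_lit 1529) (.e (nat_lit 164385) (nat_lit 254) (.e (nat_lit 1222) (nat_lit 90) (.e (nat_lit 81954) (nat_lit 23) (.e (nat_lit 98317) (nat_lit 9) .nil)))) .nil)) 
(.lf (nat_lit 259432) (.g (nat_lit 2033) (.e (nat_lit 164396) (nat_lit 256) (.e (nat_lit 57375) (nat_lit 2) (.e (nat_lit 90172) (nat_lit 14) (.e (nat_lit 180243) (nat_lit 5) (.e (nat_lit 532515) (nat_lit 3) .nil))))) .nil)))) (.nd (nat_lit 5) (.nd (nat_lit 6) 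
(.lf (nat_lit 259352) (.g (nat_lit 2982) (.e (nat_lit 164383) (nat_lit 254) (.e (nat_lit 1224) (nat_lit 90) (.e (nat_lit 81953) (nat_lit 22) (.e (nat_lit 90160) (nat_lit 11) .nil)))) .nil)) 
(.lf (nat_lit 259416) (.g (nat_lit 1489) (.e (nat_lit 164396) (nat_lit 256) (.e (nat_lit 57372) (nat_lit 2) (.e (nat_lit 90172) (nat_lit 14) (.e (nat_lit 180244) (nat_lit 5) .nil)))) .nil))) (.nd (nat_lit 6) 
(.lf (nat_lit 259384) (.g (nat_lit 2631) (.e (nat_lit 164393) (nat_lit 254) (.e (nat_lit 2608) (nat_lit 163) (.e (nat_lit 164022) (nat_lit 46) (.e (nat_lit 704738) (nat_lit 11) (.e (nat_lit 16425) (nat_lit 7) .nil))))) .nil)) 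
(.lf (nat_lit 259448) (.g (nat_lit 1598) (.e (nat_lit 164396) (nat_lit 256) (.e (nat_lit 57400) (nat_lit 10) (.e (nat_lit 319528) (nat_lit 16) (.e (nat_lit 286761) (nat_lit 13) (.e (nat_lit 393270) (nat_lit 23) .nil))))) .nil)))))) (.nd (nat_lit 3) (.nd (nat_lit 4) (.nd (nat_lit 5) (.nd (nat_lit 6) 
(.lf (nat_lit 259332) (.g (nat_lit 749) (.e (nat_lit 164383) (nat_lit 254) (.e (nat_lit 1183) (nat_lit 87) (.e (nat_lit 57712) (nat_lit 176) (.e (nat_lit 1370) (nat_lit 103) .nil)))) .nil)) 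
(.lf (nat_lit 259396) (.g (nat_lit 2086) (.e (nat_lit 164396) (nat_lit 256) (.e (nat_lit 57371) (nat_lit 2) (.e (nat_lit 90172) (nat_lit 14) (.e (nat_lit 180244) (nat_lit 5) (.e (nat_lit 532508) (nat_lit 2) .nil))))) .nil))) (.nd (nat_lit 6) 
(.lf (nat_lit 259364) (.g (nat_lit 876) (.e (nat_lit 164384) (nat_lit 254) (.e (nat_lit 1296) (nat_lit 96) (.e (nat_lit 131086) (nat_lit 1) .nil))) .nil)) 
(.lf (nat_lit 259428) (.g (nat_lit 2614) (.e (nat_lit 164396) (nat_lit 256) (.e (nat_lit 57374) (nat_lit 2) (.e (nat_lit 90170) (nat_lit 13) (.e (nat_lit 172067) (nat_lit 3) (.e (nat_lit 204838) (nat_lit 20) .nil))))) .nil)))) (.nd (nat_lit 5) (.nd (nat_lit 6) 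
(.lf (nat_lit 259348) (.g (nat_lit 2790) (.e (nat_lit 164383) (nat_lit 254) (.e (nat_lit 1223) (nat_lit 90) (.e (nat_lit 81953) (nat_lit 22) (.e (nat_lit 90160) (nat_lit 11) .nil)))) .nil)) 
(.lf (nat_lit 259412) (.g (nat_lit 708) (.e (nat_lit 164396) (nat_lit 256) (.e (nat_lit 57371) (nat_lit 2) (.e (nat_lit 90185) (nat_lit 17) .nil))) .nil))) (.nd (nat_lit 6) 
(.lf (nat_lit 259380) (.g (nat_lit 2928) (.e (nat_lit 164391) (nat_lit 254) (.e (nat_lit 1221) (nat_lit 90) (.e (nat_lit 81953) (nat_lit 22) (.e (nat_lit 90157) (nat_lit 11) .nil)))) .nil)) 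
(.lf (nat_lit 259444) (.g (nat_lit 1003) (.e (nat_lit 164396) (nat_lit 256) (.e (nat_lit 57375) (nat_lit 2) (.e (nat_lit 90185) (nat_lit 17) (.e (nat_lit 237621) (nat_lit 13) .nil)))) .nil))))) (.nd (nat_lit 4) (.nd (nat_lit 5) (.nd (nat_lit 6) 
(.lf (nat_lit 259340) (.g (nat_lit 2706) (.e (nat_lit 164383) (nat_lit 254) (.e (nat_lit 1222) (nat_lit 90) (.e (nat_lit 81953) (nat_lit 22) (.e (nat_lit 90157) (nat_lit 11) .nil)))) .nil)) 
(.lf (nat_lit 259404) (.g (nat_lit 3240) (.e (nat_lit 164396) (nat_lit 256) (.e (nat_lit 57371) (nat_lit 2) (.e (nat_lit 90172) (nat_lit 14) (.e (nat_lit 180244) (nat_lit 5) (.e (nat_lit 532515) (nat_lit 3) (.e (nat_lit 114719) (nat_lit 23) (.e (nat_lit 98332) (nat_lit 18) .nil))))))) (.g (nat_lit 6) .nil .nil)))) (.nd (nat_lit 6) 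
(.lf (nat_lit 259372) (.g (nat_lit 2621) (.e (nat_lit 164388) (nat_lit 254) (.e (nat_lit 1218) (nat_lit 90) (.e (nat_lit 81953) (nat_lit 22) (.e (nat_lit 90160) (nat_lit 11) .nil)))) .nil)) 
(.lf (nat_lit 259436) (.g (nat_lit 1989) (.e (nat_lit 164396) (nat_lit 256) (.e (nat_lit 57375) (nat_lit 2) (.e (nat_lit 90172) (nat_lit 14) (.e (nat_lit 180244) (nat_lit 5) (.e (nat_lit 532515) (nat_lit 3) .nil))))) .nil)))) (.nd (nat_lit 5) (.nd (nat_lit 6) 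
(.lf (nat_lit 259356) (.g (nat_lit 1988) (.e (nat_lit 164384) (nat_lit 254) (.e (nat_lit 1201) (nat_lit 88) (.e (nat_lit 65583) (nat_lit 7) (.e (nat_lit 319530) (nat_lit 16) (.e (nat_lit 286767) (nat_lit 27) .nil))))) .nil)) 
(.lf (nat_lit 259420) (.g (nat_lit 1321) (.e (nat_lit 164396) (nat_lit 256) (.e (nat_lit 57372) (nat_lit 2) (.e (nat_lit 90176) (nat_lit 15) (.e (nat_lit 188431) (nat_lit 20) .nil)))) .nil))) (.nd (nat_lit 6) 
(.lf (nat_lit 259388) (.g (nat_lit 1112) (.e (nat_lit 164396) (nat_lit 256) (.e (nat_lit 57371) (nat_lit 2) (.e (nat_lit 90169) (nat_lit 13) (.e (nat_lit 172065) (nat_lit 3) .nil)))) .nil)) 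
(.lf (nat_lit 259452) (.g (nat_lit 2024) (.e (nat_lit 164396) (nat_lit 256) (.e (nat_lit 57400) (nat_lit 10) (.e (nat_lit 319534) (nat_lit 16) (.e (nat_lit 286761) (nat_lit 13) (.e (nat_lit 393270) (nat_lit 23) .nil))))) .nil))))))) (.nd (nat_lit 2) (.nd (nat_lit 3) (.nd (nat_lit 4) (.nd (nat_lit 5) (.nd (nat_lit 6) 
(.lf (nat_lit 259330) (.g (nat_lit 1113) (.e (nat_lit 164382) (nat_lit 254) (.e (nat_lit 999) (nat_lit 81) (.e (nat_lit 1256) (nat_lit 92) (.e (nat_lit 98370) (nat_lit 28) (.e (nat_lit 450304) (nat_lit 18) .nil))))) .nil)) 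
(.lf (nat_lit 259394) (.g (nat_lit 2024) (.e (nat_lit 164396) (nat_lit 256) (.e (nat_lit 57371) (nat_lit 2) (.e (nat_lit 90172) (nat_lit 14) (.e (nat_lit 180243) (nat_lit 5) (.e (nat_lit 532515) (nat_lit 3) (.e (nat_lit 114716) (nat_lit 22) (.e (nat_lit 90129) (nat_lit 9) (.e (nat_lit 2606) (nat_lit 163) .nil)))))))) (.g (nat_lit 4) .nil .nil)))) (.nd (nat_lit 6) 
(.lf (nat_lit 259362) (.g (nat_lit 2790) (.e (nat_lit 164384) (nat_lit 254) (.e (nat_lit 1223) (nat_lit 90) (.e (nat_lit 81953) (nat_lit 22) (.e (nat_lit 90160) (nat_lit 11) .nil)))) .nil)) 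
(.lf (nat_lit 259426) (.g (nat_lit 2690) (.e (nat_lit 164396) (nat_lit 256) (.e (nat_lit 57374) (nat_lit 2) (.e (nat_lit 90170) (nat_lit 13) (.e (nat_lit 172067) (nat_lit 3) (.e (nat_lit 204834) (nat_lit 19) .nil))))) .nil)))) (.nd (nat_lit 5) (.nd (nat_lit 6) 
(.lf (nat_lit 259346) (.g (nat_lit 2143) (.e (nat_lit 164383) (nat_lit 254) (.e (nat_lit 1222) (nat_lit 90) (.e (nat_lit 81956) (nat_lit 23) (.e (nat_lit 98313) (nat_lit 9) .nil)))) .nil)) 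
(.lf (nat_lit 259410) (.g (nat_lit 1270) (.e (nat_lit 164396) (nat_lit 256) (.e (nat_lit 57371) (nat_lit 2) (.e (nat_lit 90176) (nat_lit 15) (.e (nat_lit 188459) (nat_lit 26) .nil)))) .nil))) (.nd (nat_lit 6) 
(.lf (nat_lit 259378) (.g (nat_lit 3560) (.e (nat_lit 164391) (nat_lit 254) (.e (nat_lit 1220) (nat_lit 90) (.e (nat_lit 81953) (nat_lit 22) (.e (nat_lit 90160) (nat_lit 11) .nil)))) .nil)) 
(.lf (nat_lit 259442) (.g (nat_lit 1335) (.e (nat_lit 164396) (nat_lit 256) (.e (nat_lit 57375) (nat_lit 2) (.e (nat_lit 90176) (nat_lit 15) (.e (nat_lit 188431) (nat_lit 20) .nil)))) .nil))))) (.nd (nat_lit 4) (.nd (nat_lit 5) (.nd (nat_lit 6) 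
(.lf (nat_lit 259338) (.g (nat_lit 1751) (.e (nat_lit 164383) (nat_lit 254) (.e (nat_lit 1222) (nat_lit 90) (.e (nat_lit 81951) (nat_lit 22) (.e (nat_lit 90160) (nat_lit 11) .nil)))) .nil)) 
(.lf (nat_lit 259402) (.g (nat_lit 2756) (.e (nat_lit 164396) (nat_lit 256) (.e (nat_lit 57371) (nat_lit 2) (.e (nat_lit 90172) (nat_lit 14) (.e (nat_lit 180244) (nat_lit 5) (.e (nat_lit 532515) (nat_lit 3) (.e (nat_lit 114716) (nat_lit 22) (.e (nat_lit 90137) (nat_lit 9) (.e (nat_lit 2609) (nat_lit 163) .nil)))))))) (.g (nat_lit 6) .nil .nil)))) (.nd (nat_lit 6) 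
(.lf (nat_lit 259370) (.g (nat_lit 2711) (.e (nat_lit 164385) (nat_lit 254) (.e (nat_lit 1223) (nat_lit 90) (.e (nat_lit 81956) (nat_lit 23) (.e (nat_lit 98313) (nat_lit 9) (.e (nat_lit 343808) (nat_lit 20) .nil))))) .nil)) 
(.lf (nat_lit 259434) (.g (nat_lit 2016) (.e (nat_lit 164396) (nat_lit 256) (.e (nat_lit 57375) (nat_lit 2) (.e (nat_lit 90172) (nat_lit 14) (.e (nat_lit 180244) (nat_lit 5) (.e (nat_lit 532513) (nat_lit 3) .nil))))) .nil)))) (.nd (nat_lit 5) (.nd (nat_lit 6) 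
(.lf (nat_lit 259354) (.g (nat_lit 1961) (.e (nat_lit 164383) (nat_lit 254) (.e (nat_lit 1224) (nat_lit 90) (.e (nat_lit 81956) (nat_lit 23) (.e (nat_lit 98313) (nat_lit 9) .nil)))) .nil)) 
(.lf (nat_lit 259418) (.g (nat_lit 2071) (.e (nat_lit 164396) (nat_lit 256) (.e (nat_lit 57372) (nat_lit 2) (.e (nat_lit 90172) (nat_lit 14) (.e (nat_lit 180244) (nat_lit 5) (.e (nat_lit 532513) (nat_lit 3) .nil))))) .nil))) (.nd (nat_lit 6) 
(.lf (nat_lit 259386) (.g (nat_lit 1076) (.e (nat_lit 164396) (nat_lit 256) (.e (nat_lit 57371) (nat_lit 2) (.e (nat_lit 90167) (nat_lit 13) (.e (nat_lit 172065) (nat_lit 3) .nil)))) .nil)) 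
(.lf (nat_lit 259450) (.g (nat_lit 1284) (.e (nat_lit 164396) (nat_lit 256) (.e (nat_lit 57400) (nat_lit 10) (.e (nat_lit 319533) (nat_lit 16) (.e (nat_lit 286760) (nat_lit 13) .nil)))) .nil)))))) (.nd (nat_lit 3) (.nd (nat_lit 4) (.nd (nat_lit 5) (.nd (nat_lit 6) 
(.lf (nat_lit 259334) (.g (nat_lit 2832) (.e (nat_lit 164383) (nat_lit 254) (.e (nat_lit 1201) (nat_lit 88) (.e (nat_lit 65586) (nat_lit 7) (.e (nat_lit 319531) (nat_lit 16) (.e (nat_lit 286767) (nat_lit 27) .nil))))) .nil)) 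
(.lf (nat_lit 259398) (.g (nat_lit 1844) (.e (nat_lit 164396) (nat_lit 256) (.e (nat_lit 57371) (nat_lit 2) (.e (nat_lit 90172) (nat_lit 14) (.e (nat_lit 180244) (nat_lit 5) (.e (nat_lit 532515) (nat_lit 3) .nil))))) .nil))) (.nd (nat_lit 6) 
(.lf (nat_lit 259366) (.g (nat_lit 2053) (.e (nat_lit 164385) (nat_lit 254) (.e (nat_lit 1175) (nat_lit 87) (.e (nat_lit 57464) (nat_lit 23) (.e (nat_lit 516151) (nat_lit 9) (.e (nat_lit 426331) (nat_lit 13) .nil))))) .nil)) 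
(.lf (nat_lit 259430) (.g (nat_lit 1521) (.e (nat_lit 164396) (nat_lit 256) (.e (nat_lit 57375) (nat_lit 2) (.e (nat_lit 90172) (nat_lit 14) (.e (nat_lit 180243) (nat_lit 5) .nil)))) .nil)))) (.nd (nat_lit 5) (.nd (nat_lit 6) 
(.lf (nat_lit 259350) (.g (nat_lit 1663) (.e (nat_lit 164383) (nat_lit 254) (.e (nat_lit 1224) (nat_lit 90) (.e (nat_lit 81952) (nat_lit 22) (.e (nat_lit 90160) (nat_lit 11) (.e (nat_lit 32512) (nat_lit 20) .nil))))) .nil)) 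
(.lf (nat_lit 259414) (.g (nat_lit 2145) (.e (nat_lit 164396) (nat_lit 256) (.e (nat_lit 57372) (nat_lit 2) (.e (nat_lit 90172) (nat_lit 14) (.e (nat_lit 180243) (nat_lit 5) (.e (nat_lit 532513) (nat_lit 3) .nil))))) .nil))) (.nd (nat_lit 6) 
(.lf (nat_lit 259382) (.g (nat_lit 2858) (.e (nat_lit 164391) (nat_lit 254) (.e (nat_lit 1221) (nat_lit 90) (.e (nat_lit 81956) (nat_lit 23) (.e (nat_lit 98313) (nat_lit 9) .nil)))) .nil)) 
(.lf (nat_lit 259446) (.g (nat_lit 1551) (.e (nat_lit 164396) (nat_lit 256) (.e (nat_lit 57379) (nat_lit 3) (.e (nat_lit 98366) (nat_lit 27) (.e (nat_lit 434231) (nat_lit 23) .nil)))) .nil))))) (.nd (nat_lit 4) (.nd (nat_lit 5) (.nd (nat_lit 6) 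
(.lf (nat_lit 259342) (.g (nat_lit 2070) (.e (nat_lit 164383) (nat_lit 254) (.e (nat_lit 1222) (nat_lit 90) (.e (nat_lit 81954) (nat_lit 23) (.e (nat_lit 98313) (nat_lit 9) (.e (nat_lit 343808) (nat_lit 20) .nil))))) .nil)) 
(.lf (nat_lit 259406) (.g (nat_lit 2080) (.e (nat_lit 164396) (nat_lit 256) (.e (nat_lit 57371) (nat_lit 2) (.e (nat_lit 90174) (nat_lit 14) (.e (nat_lit 180243) (nat_lit 5) (.e (nat_lit 532508) (nat_lit 2) .nil))))) .nil))) (.nd (nat_lit 6) 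
(.lf (nat_lit 259374) (.g (nat_lit 1600) (.e (nat_lit 164391) (nat_lit 254) (.e (nat_lit 1196) (nat_lit 88) (.e (nat_lit 65583) (nat_lit 7) (.e (nat_lit 319530) (nat_lit 16) (.e (nat_lit 286767) (nat_lit 27) .nil))))) .nil)) 
(.lf (nat_lit 259438) (.g (nat_lit 2063) (.e (nat_lit 164396) (nat_lit 256) (.e (nat_lit 57375) (nat_lit 2) (.e (nat_lit 90172) (nat_lit 14) (.e (nat_lit 180244) (nat_lit 5) (.e (nat_lit 532515) (nat_lit 3) (.e (nat_lit 114716) (nat_lit 22) (.e (nat_lit 90137) (nat_lit 9) (.e (nat_lit 2607) (nat_lit 163) .nil)))))))) (.g (nat_lit 4) .nil .nil))))) (.nd (nat_lit 5) (.nd (nat_lit 6) 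
(.lf (nat_lit 259358) (.g (nat_lit 3780) (.e (nat_lit 164384) (nat_lit 254) (.e (nat_lit 1201) (nat_lit 88) (.e (nat_lit 65610) (nat_lit 10) (.e (nat_lit 344117) (nat_lit 21) (.e (nat_lit 516194) (nat_lit 26) .nil))))) .nil)) 
(.lf (nat_lit 259422) (.g (nat_lit 786) (.e (nat_lit 164396) (nat_lit 256) (.e (nat_lit 57372) (nat_lit 2) (.e (nat_lit 90185) (nat_lit 17) .nil))) .nil))) (.nd (nat_lit 6) 
(.lf (nat_lit 259390) (.g (nat_lit 1384) (.e (nat_lit 164396) (nat_lit 256) (.e (nat_lit 57371) (nat_lit 2) (.e (nat_lit 90172) (nat_lit 14) (.e (nat_lit 180243) (nat_lit 5) .nil)))) .nil)) 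
(.lf (nat_lit 259454) (.g (nat_lit 1373) (.e (nat_lit 164396) (nat_lit 256) (.e (nat_lit 57407) (nat_lit 12) (.e (nat_lit 336443) (nat_lit 32) (.e (nat_lit 466974) (nat_lit 22) .nil)))) .nil)))))))) (.nd (nat_lit 1) (.nd (nat_lit 2) (.nd (nat_lit 3) (.nd (nat_lit 4) (.nd (nat_lit 5) (.nd (nat_lit 6) 
(.lf (nat_lit 259329) (.g (nat_lit 1431) (.e (nat_lit 164381) (nat_lit 254) (.e (nat_lit 1214) (nat_lit 89) (.e (nat_lit 73729) (nat_lit 0) (.e (nat_lit 7697) (nat_lit 412) .nil)))) .nil)) 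
(.lf (nat_lit 259393) (.g (nat_lit 1904) (.e (nat_lit 164396) (nat_lit 256) (.e (nat_lit 57371) (nat_lit 2) (.e (nat_lit 90172) (nat_lit 14) (.e (nat_lit 180243) (nat_lit 5) (.e (nat_lit 532515) (nat_lit 3) .nil))))) .nil))) (.nd (nat_lit 6) 
(.lf (nat_lit 259361) (.g (nat_lit 2469) (.e (nat_lit 164384) (nat_lit 254) (.e (nat_lit 1218) (nat_lit 90) (.e (nat_lit 81956) (nat_lit 23) (.e (nat_lit 98313) (nat_lit 9) (.e (nat_lit 343808) (nat_lit 20) .nil))))) .nil)) 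
(.lf (nat_lit 259425) (.g (nat_lit 2765) (.e (nat_lit 164396) (nat_lit 256) (.e (nat_lit 57374) (nat_lit 2) (.e (nat_lit 90170) (nat_lit 13) (.e (nat_lit 172065) (nat_lit 3) (.e (nat_lit 204834) (nat_lit 19) .nil))))) .nil)))) (.nd (nat_lit 5) (.nd (nat_lit 6) 
(.lf (nat_lit 259345) (.g (nat_lit 2591) (.e (nat_lit 164383) (nat_lit 254) (.e (nat_lit 1222) (nat_lit 90) (.e (nat_lit 81954) (nat_lit 23) (.e (nat_lit 98317) (nat_lit 9) (.e (nat_lit 343808) (nat_lit 20) .nil))))) .nil)) 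
(.lf (nat_lit 259409) (.g (nat_lit 4952) (.e (nat_lit 164396) (nat_lit 256) (.e (nat_lit 57371) (nat_lit 2) (.e (nat_lit 90174) (nat_lit 14) (.e (nat_lit 180243) (nat_lit 5) (.e (nat_lit 532513) (nat_lit 3) (.e (nat_lit 114708) (nat_lit 20) (.e (nat_lit 1800) (nat_lit 119) (.e (nat_lit 516119) (nat_lit 1) .nil)))))))) (.g (nat_lit 0) .nil .nil)))) (.nd (nat_lit 6) 
(.lf (nat_lit 259377) (.g (nat_lit 3287) (.e (nat_lit 164391) (nat_lit 254) (.e (nat_lit 1220) (nat_lit 90) (.e (nat_lit 81953) (nat_lit 22) (.e (nat_lit 90157) (nat_lit 11) .nil)))) .nil)) 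
(.lf (nat_lit 259441) (.g (nat_lit 1847) (.e (nat_lit 164396) (nat_lit 256) (.e (nat_lit 57375) (nat_lit 2) (.e (nat_lit 90174) (nat_lit 14) (.e (nat_lit 180243) (nat_lit 5) (.e (nat_lit 532515) (nat_lit 3) .nil))))) .nil))))) (.nd (nat_lit 4) (.nd (nat_lit 5) (.nd (nat_lit 6) 
(.lf (nat_lit 259337) (.g (nat_lit 1736) (.e (nat_lit 164383) (nat_lit 254) (.e (nat_lit 1222) (nat_lit 90) (.e (nat_lit 81951) (nat_lit 22) (.e (nat_lit 90158) (nat_lit 11) .nil)))) .nil)) 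
(.lf (nat_lit 259401) (.g (nat_lit 2999) (.e (nat_lit 164396) (nat_lit 256) (.e (nat_lit 57371) (nat_lit 2) (.e (nat_lit 90172) (nat_lit 14) (.e (nat_lit 180244) (nat_lit 5) (.e (nat_lit 532515) (nat_lit 3) (.e (nat_lit 114716) (nat_lit 22) (.e (nat_lit 90129) (nat_lit 9) (.e (nat_lit 2606) (nat_lit 163) .nil)))))))) (.g (nat_lit 6) .nil .nil)))) (.nd (nat_lit 6) 
(.lf (nat_lit 259369) (.g (nat_lit 2790) (.e (nat_lit 164385) (nat_lit 254) (.e (nat_lit 1223) (nat_lit 90) (.e (nat_lit 81953) (nat_lit 22) (.e (nat_lit 90160) (nat_lit 11) .nil)))) .nil)) 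
(.lf (nat_lit 259433) (.g (nat_lit 2274) (.e (nat_lit 164396) (nat_lit 256) (.e (nat_lit 57375) (nat_lit 2) (.e (nat_lit 90172) (nat_lit 14) (.e (nat_lit 180244) (nat_lit 5) (.e (nat_lit 532508) (nat_lit 2) .nil))))) .nil)))) (.nd (nat_lit 5) (.nd (nat_lit 6) 
(.lf (nat_lit 259353) (.g (nat_lit 1490) (.e (nat_lit 164383) (nat_lit 254) (.e (nat_lit 1224) (nat_lit 90) (.e (nat_lit 81955) (nat_lit 23) (.e (nat_lit 98313) (nat_lit 9) (.e (nat_lit 343808) (nat_lit 20) .nil))))) .nil)) 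
(.lf (nat_lit 259417) (.g (nat_lit 2316) (.e (nat_lit 164396) (nat_lit 256) (.e (nat_lit 57372) (nat_lit 2) (.e (nat_lit 90172) (nat_lit 14) (.e (nat_lit 180244) (nat_lit 5) (.e (nat_lit 532508) (nat_lit 2) .nil))))) .nil))) (.nd (nat_lit 6) 
(.lf (nat_lit 259385) (.g (nat_lit 679) (.e (nat_lit 164396) (nat_lit 256) (.e (nat_lit 57371) (nat_lit 2) (.e (nat_lit 90167) (nat_lit 13) .nil))) .nil)) 
(.lf (nat_lit 259449) (.g (nat_lit 1764) (.e (nat_lit 164396) (nat_lit 256) (.e (nat_lit 57400) (nat_lit 10) (.e (nat_lit 319531) (nat_lit 16) (.e (nat_lit 286761) (nat_lit 13) (.e (nat_lit 393270) (nat_lit 23) .nil))))) .nil)))))) (.nd (nat_lit 3) (.nd (nat_lit 4) (.nd (nat_lit 5) (.nd (nat_lit 6) 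
(.lf (nat_lit 259333) (.g (nat_lit 1823) (.e (nat_lit 164383) (nat_lit 254) (.e (nat_lit 1201) (nat_lit 88) (.e (nat_lit 65583) (nat_lit 7) (.e (nat_lit 319530) (nat_lit 16) (.e (nat_lit 286767) (nat_lit 27) .nil))))) .nil)) 
(.lf (nat_lit 259397) (.g (nat_lit 1843) (.e (nat_lit 164396) (nat_lit 256) (.e (nat_lit 57371) (nat_lit 2) (.e (nat_lit 90172) (nat_lit 14) (.e (nat_lit 180244) (nat_lit 5) (.e (nat_lit 532513) (nat_lit 3) .nil))))) .nil))) (.nd (nat_lit 6) 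
(.lf (nat_lit 259365) (.g (nat_lit 876) (.e (nat_lit 164384) (nat_lit 254) (.e (nat_lit 1296) (nat_lit 96) (.e (nat_lit 131088) (nat_lit 1) .nil))) .nil)) 
(.lf (nat_lit 259429) (.g (nat_lit 2324) (.e (nat_lit 164396) (nat_lit 256) (.e (nat_lit 57374) (nat_lit 2) (.e (nat_lit 90170) (nat_lit 13) (.e (nat_lit 172095) (nat_lit 9) .nil)))) .nil)))) (.nd (nat_lit 5) (.nd (nat_lit 6) 
(.lf (nat_lit 259349) (.g (nat_lit 2718) (.e (nat_lit 164383) (nat_lit 254) (.e (nat_lit 1223) (nat_lit 90) (.e (nat_lit 81956) (nat_lit 23) (.e (nat_lit 98313) (nat_lit 9) (.e (nat_lit 343808) (nat_lit 20) .nil))))) .nil)) 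
(.lf (nat_lit 259413) (.g (nat_lit 1668) (.e (nat_lit 164396) (nat_lit 256) (.e (nat_lit 57372) (nat_lit 2) (.e (nat_lit 90172) (nat_lit 14) (.e (nat_lit 180243) (nat_lit 5) .nil)))) .nil))) (.nd (nat_lit 6) 
(.lf (nat_lit 259381) (.g (nat_lit 3186) (.e (nat_lit 164391) (nat_lit 254) (.e (nat_lit 1221) (nat_lit 90) (.e (nat_lit 81953) (nat_lit 22) (.e (nat_lit 90160) (nat_lit 11) .nil)))) .nil)) 
(.lf (nat_lit 259445) (.g (nat_lit 2089) (.e (nat_lit 164396) (nat_lit 256) (.e (nat_lit 57379) (nat_lit 3) (.e (nat_lit 98356) (nat_lit 26) (.e (nat_lit 426131) (nat_lit 3) .nil)))) .nil))))) (.nd (nat_lit 4) (.nd (nat_lit 5) (.nd (nat_lit 6) 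
(.lf (nat_lit 259341) (.g (nat_lit 3164) (.e (nat_lit 164383) (nat_lit 254) (.e (nat_lit 1222) (nat_lit 90) (.e (nat_lit 81953) (nat_lit 22) (.e (nat_lit 90160) (nat_lit 11) .nil)))) .nil)) 
(.lf (nat_lit 259405) (.g (nat_lit 2060) (.e (nat_lit 164396) (nat_lit 256) (.e (nat_lit 57371) (nat_lit 2) (.e (nat_lit 90174) (nat_lit 14) (.e (nat_lit 180243) (nat_lit 5) (.e (nat_lit 532506) (nat_lit 2) .nil))))) .nil))) (.nd (nat_lit 6) 
(.lf (nat_lit 259373) (.g (nat_lit 2469) (.e (nat_lit 164388) (nat_lit 254) (.e (nat_lit 1218) (nat_lit 90) (.e (nat_lit 81956) (nat_lit 23) (.e (nat_lit 98313) (nat_lit 9) (.e (nat_lit 343808) (nat_lit 20) .nil))))) .nil)) 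
(.lf (nat_lit 259437) (.g (nat_lit 2138) (.e (nat_lit 164396) (nat_lit 256) (.e (nat_lit 57375) (nat_lit 2) (.e (nat_lit 90172) (nat_lit 14) (.e (nat_lit 180244) (nat_lit 5) (.e (nat_lit 532515) (nat_lit 3) (.e (nat_lit 114716) (nat_lit 22) (.e (nat_lit 90129) (nat_lit 9) (.e (nat_lit 2606) (nat_lit 163) .nil)))))))) (.g (nat_lit 4) .nil .nil))))) (.nd (nat_lit 5) (.nd (nat_lit 6) 
(.lf (nat_lit 259357) (.g (nat_lit 2769) (.e (nat_lit 164384) (nat_lit 254) (.e (nat_lit 1201) (nat_lit 88) (.e (nat_lit 65586) (nat_lit 7) (.e (nat_lit 319531) (nat_lit 16) (.e (nat_lit 286767) (nat_lit 27) .nil))))) .nil)) 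
(.lf (nat_lit 259421) (.g (nat_lit 1300) (.e (nat_lit 164396) (nat_lit 256) (.e (nat_lit 57372) (nat_lit 2) (.e (nat_lit 90176) (nat_lit 15) (.e (nat_lit 188459) (nat_lit 26) .nil)))) .nil))) (.nd (nat_lit 6) 
(.lf (nat_lit 259389) (.g (nat_lit 832) (.e (nat_lit 164396) (nat_lit 256) (.e (nat_lit 57371) (nat_lit 2) (.e (nat_lit 90171) (nat_lit 14) .nil))) .nil)) 
(.lf (nat_lit 259453) (.g (nat_lit 689) (.e (nat_lit 164396) (nat_lit 256) (.e (nat_lit 57406) (nat_lit 12) (.e (nat_lit 336443) (nat_lit 32) .nil))) .nil))))))) (.nd (nat_lit 2) (.nd (nat_lit 3) (.nd (nat_lit 4) (.nd (nat_lit 5) (.nd (nat_lit 6) 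
(.lf (nat_lit 259331) (.g (nat_lit 2757) (.e (nat_lit 164382) (nat_lit 254) (.e (nat_lit 1201) (nat_lit 88) (.e (nat_lit 65586) (nat_lit 7) (.e (nat_lit 319531) (nat_lit 16) (.e (nat_lit 286767) (nat_lit 27) .nil))))) .nil)) 
(.lf (nat_lit 259395) (.g (nat_lit 2049) (.e (nat_lit 164396) (nat_lit 256) (.e (nat_lit 57371) (nat_lit 2) (.e (nat_lit 90172) (nat_lit 14) (.e (nat_lit 180243) (nat_lit 5) (.e (nat_lit 532515) (nat_lit 3) (.e (nat_lit 114716) (nat_lit 22) (.e (nat_lit 90137) (nat_lit 9) (.e (nat_lit 2607) (nat_lit 163) .nil)))))))) (.g (nat_lit 4) .nil .nil)))) (.nd (nat_lit 6) 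
(.lf (nat_lit 259363) (.g (nat_lit 2717) (.e (nat_lit 164384) (nat_lit 254) (.e (nat_lit 1223) (nat_lit 90) (.e (nat_lit 81956) (nat_lit 23) (.e (nat_lit 98313) (nat_lit 9) (.e (nat_lit 343808) (nat_lit 20) .nil))))) .nil)) 
(.lf (nat_lit 259427) (.g (nat_lit 2637) (.e (nat_lit 164396) (nat_lit 256) (.e (nat_lit 57374) (nat_lit 2) (.e (nat_lit 90170) (nat_lit 13) (.e (nat_lit 172067) (nat_lit 3) (.e (nat_lit 204837) (nat_lit 20) .nil))))) .nil)))) (.nd (nat_lit 5) (.nd (nat_lit 6) 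
(.lf (nat_lit 259347) (.g (nat_lit 661) (.e (nat_lit 164383) (nat_lit 254) (.e (nat_lit 1222) (nat_lit 90) (.e (nat_lit 81960) (nat_lit 25) .nil))) .nil)) 
(.lf (nat_lit 259411) (.g (nat_lit 759) (.e (nat_lit 164396) (nat_lit 256) (.e (nat_lit 57371) (nat_lit 2) (.e (nat_lit 90177) (nat_lit 15) .nil))) .nil))) (.nd (nat_lit 6) 
(.lf (nat_lit 259379) (.g (nat_lit 2914) (.e (nat_lit 164391) (nat_lit 254) (.e (nat_lit 1220) (nat_lit 90) (.e (nat_lit 81956) (nat_lit 23) (.e (nat_lit 98313) (nat_lit 9) .nil)))) .nil)) 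
(.lf (nat_lit 259443) (.g (nat_lit 1354) (.e (nat_lit 164396) (nat_lit 256) (.e (nat_lit 57375) (nat_lit 2) (.e (nat_lit 90176) (nat_lit 15) (.e (nat_lit 188459) (nat_lit 26) .nil)))) .nil))))) (.nd (nat_lit 4) (.nd (nat_lit 5) (.nd (nat_lit 6) 
(.lf (nat_lit 259339) (.g (nat_lit 661) (.e (nat_lit 164383) (nat_lit 254) (.e (nat_lit 1222) (nat_lit 90) (.e (nat_lit 81953) (nat_lit 22) .nil))) .nil)) 
(.lf (nat_lit 259403) (.g (nat_lit 3575) (.e (nat_lit 164396) (nat_lit 256) (.e (nat_lit 57371) (nat_lit 2) (.e (nat_lit 90172) (nat_lit 14) (.e (nat_lit 180244) (nat_lit 5) (.e (nat_lit 532515) (nat_lit 3) (.e (nat_lit 114716) (nat_lit 22) (.e (nat_lit 90140) (nat_lit 9) (.e (nat_lit 2610) (nat_lit 163) .nil)))))))) (.g (nat_lit 6) .nil .nil)))) (.nd (nat_lit 6) 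
(.lf (nat_lit 259371) (.g (nat_lit 2362) (.e (nat_lit 164386) (nat_lit 254) (.e (nat_lit 1218) (nat_lit 90) (.e (nat_lit 81956) (nat_lit 23) (.e (nat_lit 98313) (nat_lit 9) (.e (nat_lit 335996) (nat_lit 1) .nil))))) .nil)) 
(.lf (nat_lit 259435) (.g (nat_lit 2245) (.e (nat_lit 164396) (nat_lit 256) (.e (nat_lit 57375) (nat_lit 2) (.e (nat_lit 90172) (nat_lit 14) (.e (nat_lit 180244) (nat_lit 5) (.e (nat_lit 532514) (nat_lit 3) .nil))))) .nil)))) (.nd (nat_lit 5) (.nd (nat_lit 6) 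
(.lf (nat_lit 259355) (.g (nat_lit 2017) (.e (nat_lit 164384) (nat_lit 254) (.e (nat_lit 1124) (nat_lit 83) (.e (nat_lit 16412) (nat_lit 2) (.e (nat_lit 196681) (nat_lit 17) (.e (nat_lit 131089) (nat_lit 1) .nil))))) .nil)) 
(.lf (nat_lit 259419) (.g (nat_lit 2146) (.e (nat_lit 164396) (nat_lit 256) (.e (nat_lit 57372) (nat_lit 2) (.e (nat_lit 90172) (nat_lit 14) (.e (nat_lit 180244) (nat_lit 5) (.e (nat_lit 532515) (nat_lit 3) .nil))))) .nil))) (.nd (nat_lit 6) 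
(.lf (nat_lit 259387) (.g (nat_lit 2331) (.e (nat_lit 164396) (nat_lit 256) (.e (nat_lit 57371) (nat_lit 2) (.e (nat_lit 90167) (nat_lit 13) (.e (nat_lit 172067) (nat_lit 3) (.e (nat_lit 204834) (nat_lit 19) .nil))))) .nil)) 
(.lf (nat_lit 259451) (.g (nat_lit 2365) (.e (nat_lit 164396) (nat_lit 256) (.e (nat_lit 57400) (nat_lit 10) (.e (nat_lit 319533) (nat_lit 16) (.e (nat_lit 286761) (nat_lit 13) (.e (nat_lit 393270) (nat_lit 23) .nil))))) .nil)))))) (.nd (nat_lit 3) (.nd (nat_lit 4) (.nd (nat_lit 5) (.nd (nat_lit 6) 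
(.lf (nat_lit 259335) (.g (nat_lit 3729) (.e (nat_lit 164383) (nat_lit 254) (.e (nat_lit 1201) (nat_lit 88) (.e (nat_lit 65610) (nat_lit 10) (.e (nat_lit 344117) (nat_lit 21) (.e (nat_lit 516194) (nat_lit 26) (.e (nat_lit 343808) (nat_lit 20) (.e (nat_lit 221207) (nat_lit 21) .nil))))))) (.g (nat_lit 4) .nil .nil))) 
(.lf (nat_lit 259399) (.g (nat_lit 2119) (.e (nat_lit 164396) (nat_lit 256) (.e (nat_lit 57371) (nat_lit 2) (.e (nat_lit 90172) (nat_lit 14) (.e (nat_lit 180244) (nat_lit 5) (.e (nat_lit 532515) (nat_lit 3) (.e (nat_lit 114716) (nat_lit 22) (.e (nat_lit 90129) (nat_lit 9) (.e (nat_lit 2603) (nat_lit 163) .nil)))))))) (.g (nat_lit 4) .nil .nil)))) (.nd (nat_lit 6) 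
(.lf (nat_lit 259367) (.g (nat_lit 1400) (.e (nat_lit 164385) (nat_lit 254) (.e (nat_lit 1222) (nat_lit 90) (.e (nat_lit 81954) (nat_lit 23) (.e (nat_lit 98313) (nat_lit 9) .nil)))) .nil)) 
(.lf (nat_lit 259431) (.g (nat_lit 1999) (.e (nat_lit 164396) (nat_lit 256) (.e (nat_lit 57375) (nat_lit 2) (.e (nat_lit 90172) (nat_lit 14) (.e (nat_lit 180243) (nat_lit 5) (.e (nat_lit 532513) (nat_lit 3) .nil))))) .nil)))) (.nd (nat_lit 5) (.nd (nat_lit 6) 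
(.lf (nat_lit 259351) (.g (nat_lit 480) (.e (nat_lit 164383) (nat_lit 254) (.e (nat_lit 1224) (nat_lit 90) (.e (nat_lit 81953) (nat_lit 22) .nil))) .nil)) 
(.lf (nat_lit 259415) (.g (nat_lit 2178) (.e (nat_lit 164396) (nat_lit 256) (.e (nat_lit 57372) (nat_lit 2) (.e (nat_lit 90172) (nat_lit 14) (.e (nat_lit 180243) (nat_lit 5) (.e (nat_lit 532515) (nat_lit 3) .nil))))) .nil))) (.nd (nat_lit 6) 
(.lf (nat_lit 259383) (.g (nat_lit 1209) (.e (nat_lit 164391) (nat_lit 254) (.e (nat_lit 1221) (nat_lit 90) (.e (nat_lit 81962) (nat_lit 25) (.e (nat_lit 139292) (nat_lit 11) .nil)))) .nil)) 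
(.lf (nat_lit 259447) (.g (nat_lit 594) (.e (nat_lit 164396) (nat_lit 256) (.e (nat_lit 57379) (nat_lit 3) (.e (nat_lit 98370) (nat_lit 28) .nil))) .nil))))) (.nd (nat_lit 4) (.nd (nat_lit 5) (.nd (nat_lit 6) 
(.lf (nat_lit 259343) (.g (nat_lit 2232) (.e (nat_lit 164383) (nat_lit 254) (.e (nat_lit 1222) (nat_lit 90) (.e (nat_lit 81954) (nat_lit 23) (.e (nat_lit 98313) (nat_lit 9) (.e (nat_lit 343808) (nat_lit 20) (.e (nat_lit 221206) (nat_lit 21) .nil)))))) (.g (nat_lit 4) .nil .nil))) 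
(.lf (nat_lit 259407) (.g (nat_lit 2084) (.e (nat_lit 164396) (nat_lit 256) (.e (nat_lit 57371) (nat_lit 2) (.e (nat_lit 90174) (nat_lit 14) (.e (nat_lit 180243) (nat_lit 5) (.e (nat_lit 532510) (nat_lit 2) .nil))))) .nil))) (.nd (nat_lit 6) 
(.lf (nat_lit 259375) (.g (nat_lit 2617) (.e (nat_lit 164391) (nat_lit 254) (.e (nat_lit 1199) (nat_lit 88) (.e (nat_lit 65586) (nat_lit 7) (.e (nat_lit 319531) (nat_lit 16) (.e (nat_lit 286767) (nat_lit 27) .nil))))) .nil)) 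
(.lf (nat_lit 259439) (.g (nat_lit 1360) (.e (nat_lit 164396) (nat_lit 256) (.e (nat_lit 57375) (nat_lit 2) (.e (nat_lit 90174) (nat_lit 14) (.e (nat_lit 180243) (nat_lit 5) .nil)))) .nil)))) (.nd (nat_lit 5) (.nd (nat_lit 6) 
(.lf (nat_lit 259359) (.g (nat_lit 3214) (.e (nat_lit 164384) (nat_lit 254) (.e (nat_lit 1201) (nat_lit 88) (.e (nat_lit 65610) (nat_lit 10) (.e (nat_lit 344117) (nat_lit 21) (.e (nat_lit 516195) (nat_lit 26) .nil))))) .nil)) 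
(.lf (nat_lit 259423) (.g (nat_lit 1890) (.e (nat_lit 164396) (nat_lit 256) (.e (nat_lit 57373) (nat_lit 2) (.e (nat_lit 90172) (nat_lit 14) (.e (nat_lit 180244) (nat_lit 5) .nil)))) .nil))) (.nd (nat_lit 6) 
(.lf (nat_lit 259391) (.g (nat_lit 1938) (.e (nat_lit 164396) (nat_lit 256) (.e (nat_lit 57371) (nat_lit 2) (.e (nat_lit 90172) (nat_lit 14) (.e (nat_lit 180243) (nat_lit 5) (.e (nat_lit 532511) (nat_lit 2) .nil))))) .nil)) 
(.lf (nat_lit 259455) (.g (nat_lit 1370) (.e (nat_lit 164396) (nat_lit 256) (.e (nat_lit 57407) (nat_lit 12) (.e (nat_lit 336443) (nat_lit 32) (.e (nat_lit 466979) (nat_lit 23) .nil)))) .nil)))))))))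

noncomputable def tv3355 : DT := (.nd (nat_lit 0) (.nd (nat_lit 1) (.nd (nat_lit 2) (.nd (nat_lit 3) (.nd (nat_lit 4) (.nd (nat_lit 5) (.nd (nat_lit 6) 
(.lf (nat_lit 259456) (.g (nat_lit 869) (.e (nat_lit 164396) (nat_lit 256) (.e (nat_lit 57409) (nat_lit 12) (.e (nat_lit 336443) (nat_lit 32) .nil))) .nil)) 
(.lf (nat_lit 259520) (.g (nat_lit 1450) (.e (nat_lit 164397) (nat_lit 256) (.e (nat_lit 57375) (nat_lit 2) (.e (nat_lit 90172) (nat_lit 14) (.e (nat_lit 180243) (nat_lit 5) .nil)))) .nil))) (.nd (nat_lit 6) 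
(.lf (nat_lit 259488) (.g (nat_lit 2512) (.e (nat_lit 164396) (nat_lit 256) (.e (nat_lit 57448) (nat_lit 19) (.e (nat_lit 393301) (nat_lit 27) (.e (nat_lit 491526) (nat_lit 0) (.e (nat_lit 1848) (nat_lit 124) (.e (nat_lit 557097) (nat_lit 13) (.e (nat_lit 172059) (nat_lit 1) .nil))))))) (.g (nat_lit 4) .nil .nil))) 
(.lf (nat_lit 259552) (.g (nat_lit 1177) (.e (nat_lit 164397) (nat_lit 256) (.e (nat_lit 57447) (nat_lit 19) (.e (nat_lit 393282) (nat_lit 24) .nil))) .nil)))) (.nd (nat_lit 5) (.nd (nat_lit 6) 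
(.lf (nat_lit 259472) (.g (nat_lit 1797) (.e (nat_lit 164396) (nat_lit 256) (.e (nat_lit 57445) (nat_lit 19) (.e (nat_lit 393281) (nat_lit 23) (.e (nat_lit 426116) (nat_lit 2) (.e (nat_lit 196656) (nat_lit 11) .nil))))) .nil)) 
(.lf (nat_lit 259536) (.g (nat_lit 2104) (.e (nat_lit 164397) (nat_lit 256) (.e (nat_lit 57375) (nat_lit 2) (.e (nat_lit 90174) (nat_lit 14) (.e (nat_lit 180243) (nat_lit 5) (.e (nat_lit 532508) (nat_lit 2) .nil))))) .nil))) (.nd (nat_lit 6) 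
(.lf (nat_lit 259504) (.g (nat_lit 1486) (.e (nat_lit 164397) (nat_lit 256) (.e (nat_lit 57371) (nat_lit 2) (.e (nat_lit 90185) (nat_lit 17) (.e (nat_lit 237605) (nat_lit 9) .nil)))) .nil)) 
(.lf (nat_lit 259568) (.g (nat_lit 1364) (.e (nat_lit 164398) (nat_lit 256) (.e (nat_lit 57371) (nat_lit 2) (.e (nat_lit 90172) (nat_lit 14) (.e (nat_lit 188160) (nat_lit 40) .nil)))) .nil))))) (.nd (nat_lit 4) (.nd (nat_lit 5) (.nd (nat_lit 6) 
(.lf (nat_lit 259464) (.g (nat_lit 2411) (.e (nat_lit 164396) (nat_lit 256) (.e (nat_lit 57427) (nat_lit 15) (.e (nat_lit 360474) (nat_lit 8) (.e (nat_lit 557094) (nat_lit 12) (.e (nat_lit 163856) (nat_lit 0) .nil))))) .nil)) 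
(.lf (nat_lit 259528) (.g (nat_lit 2269) (.e (nat_lit 164397) (nat_lit 256) (.e (nat_lit 57375) (nat_lit 2) (.e (nat_lit 90172) (nat_lit 14) (.e (nat_lit 180244) (nat_lit 5) (.e (nat_lit 532508) (nat_lit 2) .nil))))) .nil))) (.nd (nat_lit 6) 
(.lf (nat_lit 259496) (.g (nat_lit 2198) (.e (nat_lit 164397) (nat_lit 256) (.e (nat_lit 57371) (nat_lit 2) (.e (nat_lit 90172) (nat_lit 14) (.e (nat_lit 180244) (nat_lit 5) (.e (nat_lit 532515) (nat_lit 3) (.e (nat_lit 114716) (nat_lit 22) (.e (nat_lit 90128) (nat_lit 9) (.e (nat_lit 2615) (nat_lit 163) .nil)))))))) (.g (nat_lit 4) .nil .nil))) 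
(.lf (nat_lit 259560) (.g (nat_lit 2507) (.e (nat_lit 164398) (nat_lit 256) (.e (nat_lit 57354) (nat_lit 0) (.e (nat_lit 6114) (nat_lit 332) (.e (nat_lit 1370) (nat_lit 103) (.e (nat_lit 294941) (nat_lit 9) .nil))))) .nil)))) (.nd (nat_lit 5) (.nd (nat_lit 6) 
(.lf (nat_lit 259480) (.g (nat_lit 2241) (.e (nat_lit 164396) (nat_lit 256) (.e (nat_lit 57448) (nat_lit 19) (.e (nat_lit 393234) (nat_lit 17) (.e (nat_lit 7581) (nat_lit 405) (.e (nat_lit 57479) (nat_lit 28) .nil))))) .nil)) 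
(.lf (nat_lit 259544) (.g (nat_lit 2572) (.e (nat_lit 164397) (nat_lit 256) (.e (nat_lit 57379) (nat_lit 3) (.e (nat_lit 98356) (nat_lit 26) (.e (nat_lit 426131) (nat_lit 3) (.e (nat_lit 204838) (nat_lit 20) .nil))))) .nil))) (.nd (nat_lit 6) 
(.lf (nat_lit 259512) (.g (nat_lit 2050) (.e (nat_lit 164397) (nat_lit 256) (.e (nat_lit 57374) (nat_lit 2) (.e (nat_lit 90170) (nat_lit 13) (.e (nat_lit 172065) (nat_lit 3) .nil)))) .nil)) 
(.lf (nat_lit 259576) (.g (nat_lit 2205) (.e (nat_lit 164398) (nat_lit 256) (.e (nat_lit 57372) (nat_lit 2) (.e (nat_lit 90167) (nat_lit 13) (.e (nat_lit 172067) (nat_lit 3) (.e (nat_lit 204834) (nat_lit 19) .nil))))) .nil)))))) (.nd (nat_lit 3) (.nd (nat_lit 4) (.nd (nat_lit 5) (.nd (nat_lit 6) 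
(.lf (nat_lit 259460) (.g (nat_lit 698) (.e (nat_lit 164396) (nat_lit 256) (.e (nat_lit 57427) (nat_lit 15) (.e (nat_lit 360474) (nat_lit 8) .nil))) .nil)) 
(.lf (nat_lit 259524) (.g (nat_lit 1928) (.e (nat_lit 164397) (nat_lit 256) (.e (nat_lit 57375) (nat_lit 2) (.e (nat_lit 90172) (nat_lit 14) (.e (nat_lit 180243) (nat_lit 5) (.e (nat_lit 532513) (nat_lit 3) .nil))))) .nil))) (.nd (nat_lit 6) 
(.lf (nat_lit 259492) (.g (nat_lit 2043) (.e (nat_lit 164397) (nat_lit 256) (.e (nat_lit 57371) (nat_lit 2) (.e (nat_lit 90172) (nat_lit 14) (.e (nat_lit 180243) (nat_lit 5) (.e (nat_lit 532515) (nat_lit 3) .nil))))) .nil)) 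
(.lf (nat_lit 259556) (.g (nat_lit 1162) (.e (nat_lit 164397) (nat_lit 256) (.e (nat_lit 57448) (nat_lit 19) (.e (nat_lit 393281) (nat_lit 23) (.e (nat_lit 426115) (nat_lit 2) .nil)))) .nil)))) (.nd (nat_lit 5) (.nd (nat_lit 6) 
(.lf (nat_lit 259476) (.g (nat_lit 1588) (.e (nat_lit 164396) (nat_lit 256) (.e (nat_lit 57447) (nat_lit 19) (.e (nat_lit 393281) (nat_lit 23) (.e (nat_lit 426133) (nat_lit 3) .nil)))) .nil)) 
(.lf (nat_lit 259540) (.g (nat_lit 1212) (.e (nat_lit 164397) (nat_lit 256) (.e (nat_lit 57375) (nat_lit 2) (.e (nat_lit 90176) (nat_lit 15) (.e (nat_lit 188459) (nat_lit 26) .nil)))) .nil))) (.nd (nat_lit 6) 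
(.lf (nat_lit 259508) (.g (nat_lit 1616) (.e (nat_lit 164397) (nat_lit 256) (.e (nat_lit 57372) (nat_lit 2) (.e (nat_lit 90172) (nat_lit 14) (.e (nat_lit 180244) (nat_lit 5) .nil)))) .nil)) 
(.lf (nat_lit 259572) (.g (nat_lit 2343) (.e (nat_lit 164398) (nat_lit 256) (.e (nat_lit 57371) (nat_lit 2) (.e (nat_lit 90174) (nat_lit 14) (.e (nat_lit 180243) (nat_lit 5) (.e (nat_lit 532511) (nat_lit 2) .nil))))) .nil))))) (.nd (nat_lit 4) (.nd (nat_lit 5) (.nd (nat_lit 6) 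
(.lf (nat_lit 259468) (.g (nat_lit 2075) (.e (nat_lit 164396) (nat_lit 256) (.e (nat_lit 57437) (nat_lit 17) (.e (nat_lit 376865) (nat_lit 22) (.e (nat_lit 90160) (nat_lit 11) (.e (nat_lit 32512) (nat_lit 20) .nil))))) .nil)) 
(.lf (nat_lit 259532) (.g (nat_lit 3201) (.e (nat_lit 164397) (nat_lit 256) (.e (nat_lit 57375) (nat_lit 2) (.e (nat_lit 90172) (nat_lit 14) (.e (nat_lit 180244) (nat_lit 5) (.e (nat_lit 532515) (nat_lit 3) (.e (nat_lit 114716) (nat_lit 22) (.e (nat_lit 90129) (nat_lit 9) (.e (nat_lit 2604) (nat_lit 163) .nil)))))))) (.g (nat_lit 7) .nil .nil)))) (.nd (nat_lit 6) 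
(.lf (nat_lit 259500) (.g (nat_lit 2295) (.e (nat_lit 164397) (nat_lit 256) (.e (nat_lit 57371) (nat_lit 2) (.e (nat_lit 90174) (nat_lit 14) (.e (nat_lit 180243) (nat_lit 5) (.e (nat_lit 532510) (nat_lit 2) .nil))))) .nil)) 
(.lf (nat_lit 259564) (.g (nat_lit 1637) (.e (nat_lit 164398) (nat_lit 256) (.e (nat_lit 57371) (nat_lit 2) (.e (nat_lit 90172) (nat_lit 14) (.e (nat_lit 180243) (nat_lit 5) .nil)))) .nil)))) (.nd (nat_lit 5) (.nd (nat_lit 6) 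
(.lf (nat_lit 259484) (.g (nat_lit 1163) (.e (nat_lit 164396) (nat_lit 256) (.e (nat_lit 57448) (nat_lit 19) (.e (nat_lit 393281) (nat_lit 23) (.e (nat_lit 426115) (nat_lit 2) .nil)))) .nil)) 
(.lf (nat_lit 259548) (.g (nat_lit 2522) (.e (nat_lit 164397) (nat_lit 256) (.e (nat_lit 57412) (nat_lit 12) (.e (nat_lit 336061) (nat_lit 7) (.e (nat_lit 319531) (nat_lit 16) (.e (nat_lit 286767) (nat_lit 27) .nil))))) .nil))) (.nd (nat_lit 6) 
(.lf (nat_lit 259516) (.g (nat_lit 2717) (.e (nat_lit 164397) (nat_lit 256) (.e (nat_lit 57374) (nat_lit 2) (.e (nat_lit 90170) (nat_lit 13) (.e (nat_lit 172067) (nat_lit 3) (.e (nat_lit 204837) (nat_lit 20) (.e (nat_lit 114707) (nat_lit 20) (.e (nat_lit 1800) (nat_lit 119) (.e (nat_lit 516117) (nat_lit 1) .nil)))))))) (.g (nat_lit 4) .nil .nil))) 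
(.lf (nat_lit 259580) (.g (nat_lit 1609) (.e (nat_lit 164398) (nat_lit 256) (.e (nat_lit 57372) (nat_lit 2) (.e (nat_lit 90172) (nat_lit 14) (.e (nat_lit 180243) (nat_lit 5) .nil)))) .nil))))))) (.nd (nat_lit 2) (.nd (nat_lit 3) (.nd (nat_lit 4) (.nd (nat_lit 5) (.nd (nat_lit 6) 
(.lf (nat_lit 259458) (.g (nat_lit 1359) (.e (nat_lit 164396) (nat_lit 256) (.e (nat_lit 57411) (nat_lit 12) (.e (nat_lit 336443) (nat_lit 32) (.e (nat_lit 466979) (nat_lit 23) .nil)))) .nil)) 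
(.lf (nat_lit 259522) (.g (nat_lit 2034) (.e (nat_lit 164397) (nat_lit 256) (.e (nat_lit 57375) (nat_lit 2) (.e (nat_lit 90172) (nat_lit 14) (.e (nat_lit 180243) (nat_lit 5) (.e (nat_lit 532510) (nat_lit 2) .nil))))) .nil))) (.nd (nat_lit 6) 
(.lf (nat_lit 259490) (.g (nat_lit 2561) (.e (nat_lit 164396) (nat_lit 256) (.e (nat_lit 57448) (nat_lit 19) (.e (nat_lit 393301) (nat_lit 27) (.e (nat_lit 491526) (nat_lit 0) (.e (nat_lit 1855) (nat_lit 124) .nil))))) .nil)) 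
(.lf (nat_lit 259554) (.g (nat_lit 2314) (.e (nat_lit 164397) (nat_lit 256) (.e (nat_lit 57448) (nat_lit 19) (.e (nat_lit 393234) (nat_lit 17) (.e (nat_lit 7581) (nat_lit 405) (.e (nat_lit 57477) (nat_lit 28) (.e (nat_lit 557097) (nat_lit 13) (.e (nat_lit 172059) (nat_lit 1) .nil))))))) (.g (nat_lit 4) .nil .nil))))) (.nd (nat_lit 5) (.nd (nat_lit 6) 
(.lf (nat_lit 259474) (.g (nat_lit 1726) (.e (nat_lit 164396) (nat_lit 256) (.e (nat_lit 57447) (nat_lit 19) (.e (nat_lit 393281) (nat_lit 23) (.e (nat_lit 426115) (nat_lit 2) .nil)))) .nil)) 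
(.lf (nat_lit 259538) (.g (nat_lit 2397) (.e (nat_lit 164397) (nat_lit 256) (.e (nat_lit 57375) (nat_lit 2) (.e (nat_lit 90174) (nat_lit 14) (.e (nat_lit 180243) (nat_lit 5) (.e (nat_lit 532515) (nat_lit 3) (.e (nat_lit 114716) (nat_lit 22) (.e (nat_lit 90129) (nat_lit 9) (.e (nat_lit 2603) (nat_lit 163) .nil)))))))) (.g (nat_lit 5) .nil .nil)))) (.nd (nat_lit 6) 
(.lf (nat_lit 259506) (.g (nat_lit 1898) (.e (nat_lit 164397) (nat_lit 256) (.e (nat_lit 57371) (nat_lit 2) (.e (nat_lit 90185) (nat_lit 17) (.e (nat_lit 237624) (nat_lit 13) (.e (nat_lit 483337) (nat_lit 9) .nil))))) .nil)) 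
(.lf (nat_lit 259570) (.g (nat_lit 2334) (.e (nat_lit 164398) (nat_lit 256) (.e (nat_lit 57371) (nat_lit 2) (.e (nat_lit 90174) (nat_lit 14) (.e (nat_lit 180243) (nat_lit 5) (.e (nat_lit 532508) (nat_lit 2) .nil))))) .nil))))) (.nd (nat_lit 4) (.nd (nat_lit 5) (.nd (nat_lit 6) 
(.lf (nat_lit 259466) (.g (nat_lit 2075) (.e (nat_lit 164396) (nat_lit 256) (.e (nat_lit 57436) (nat_lit 17) (.e (nat_lit 376865) (nat_lit 22) (.e (nat_lit 90160) (nat_lit 11) (.e (nat_lit 32512) (nat_lit 20) .nil))))) .nil)) 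
(.lf (nat_lit 259530) (.g (nat_lit 2042) (.e (nat_lit 164397) (nat_lit 256) (.e (nat_lit 57375) (nat_lit 2) (.e (nat_lit 90172) (nat_lit 14) (.e (nat_lit 180244) (nat_lit 5) (.e (nat_lit 532515) (nat_lit 3) .nil))))) .nil))) (.nd (nat_lit 6) 
(.lf (nat_lit 259498) (.g (nat_lit 2622) (.e (nat_lit 164397) (nat_lit 256) (.e (nat_lit 57371) (nat_lit 2) (.e (nat_lit 90172) (nat_lit 14) (.e (nat_lit 180244) (nat_lit 5) (.e (nat_lit 532515) (nat_lit 3) (.e (nat_lit 114716) (nat_lit 22) (.e (nat_lit 90129) (nat_lit 9) (.e (nat_lit 2604) (nat_lit 163) .nil)))))))) (.g (nat_lit 5) .nil .nil))) 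
(.lf (nat_lit 259562) (.g (nat_lit 1899) (.e (nat_lit 164398) (nat_lit 256) (.e (nat_lit 57354) (nat_lit 0) (.e (nat_lit 6114) (nat_lit 332) (.e (nat_lit 1370) (nat_lit 103) (.e (nat_lit 294960) (nat_lit 13) .nil))))) .nil)))) (.nd (nat_lit 5) (.nd (nat_lit 6) 
(.lf (nat_lit 259482) (.g (nat_lit 3205) (.e (nat_lit 164396) (nat_lit 256) (.e (nat_lit 57448) (nat_lit 19) (.e (nat_lit 393234) (nat_lit 17) (.e (nat_lit 7581) (nat_lit 405) (.e (nat_lit 57480) (nat_lit 28) (.e (nat_lit 557098) (nat_lit 13) (.e (nat_lit 172061) (nat_lit 1) .nil))))))) (.g (nat_lit 5) .nil .nil))) 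
(.lf (nat_lit 259546) (.g (nat_lit 1962) (.e (nat_lit 164397) (nat_lit 256) (.e (nat_lit 57379) (nat_lit 3) (.e (nat_lit 98366) (nat_lit 27) (.e (nat_lit 434231) (nat_lit 23) (.e (nat_lit 532507) (nat_lit 2) .nil))))) .nil))) (.nd (nat_lit 6) 
(.lf (nat_lit 259514) (.g (nat_lit 2627) (.e (nat_lit 164397) (nat_lit 256) (.e (nat_lit 57374) (nat_lit 2) (.e (nat_lit 90170) (nat_lit 13) (.e (nat_lit 172065) (nat_lit 3) (.e (nat_lit 204838) (nat_lit 20) .nil))))) .nil)) 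
(.lf (nat_lit 259578) (.g (nat_lit 956) (.e (nat_lit 164398) (nat_lit 256) (.e (nat_lit 57372) (nat_lit 2) (.e (nat_lit 90167) (nat_lit 13) (.e (nat_lit 172087) (nat_lit 9) .nil)))) .nil)))))) (.nd (nat_lit 3) (.nd (nat_lit 4) (.nd (nat_lit 5) (.nd (nat_lit 6) 
(.lf (nat_lit 259462) (.g (nat_lit 2696) (.e (nat_lit 164396) (nat_lit 256) (.e (nat_lit 57427) (nat_lit 15) (.e (nat_lit 360474) (nat_lit 8) (.e (nat_lit 557091) (nat_lit 12) (.e (nat_lit 164003) (nat_lit 40) .nil))))) .nil)) 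
(.lf (nat_lit 259526) (.g (nat_lit 2143) (.e (nat_lit 164397) (nat_lit 256) (.e (nat_lit 57375) (nat_lit 2) (.e (nat_lit 90172) (nat_lit 14) (.e (nat_lit 180243) (nat_lit 5) (.e (nat_lit 532515) (nat_lit 3) (.e (nat_lit 114716) (nat_lit 22) (.e (nat_lit 90129) (nat_lit 9) (.e (nat_lit 2604) (nat_lit 163) .nil)))))))) (.g (nat_lit 4) .nil .nil)))) (.nd (nat_lit 6) 
(.lf (nat_lit 259494) (.g (nat_lit 2234) (.e (nat_lit 164397) (nat_lit 256) (.e (nat_lit 57371) (nat_lit 2) (.e (nat_lit 90172) (nat_lit 14) (.e (nat_lit 180244) (nat_lit 5) (.e (nat_lit 532508) (nat_lit 2) .nil))))) .nil)) 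
(.lf (nat_lit 259558) (.g (nat_lit 2558) (.e (nat_lit 164397) (nat_lit 256) (.e (nat_lit 57448) (nat_lit 19) (.e (nat_lit 393301) (nat_lit 27) (.e (nat_lit 491526) (nat_lit 0) (.e (nat_lit 1855) (nat_lit 124) .nil))))) .nil)))) (.nd (nat_lit 5) (.nd (nat_lit 6) 
(.lf (nat_lit 259478) (.g (nat_lit 2226) (.e (nat_lit 164396) (nat_lit 256) (.e (nat_lit 57448) (nat_lit 19) (.e (nat_lit 393234) (nat_lit 17) (.e (nat_lit 7581) (nat_lit 405) (.e (nat_lit 57477) (nat_lit 28) (.e (nat_lit 557097) (nat_lit 13) (.e (nat_lit 172059) (nat_lit 1) .nil))))))) (.g (nat_lit 4) .nil .nil))) 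
(.lf (nat_lit 259542) (.g (nat_lit 1783) (.e (nat_lit 164397) (nat_lit 256) (.e (nat_lit 57375) (nat_lit 2) (.e (nat_lit 90185) (nat_lit 17) (.e (nat_lit 237605) (nat_lit 9) (.e (nat_lit 426568) (nat_lit 34) .nil))))) .nil))) (.nd (nat_lit 6) 
(.lf (nat_lit 259510) (.g (nat_lit 2273) (.e (nat_lit 164397) (nat_lit 256) (.e (nat_lit 57372) (nat_lit 2) (.e (nat_lit 90172) (nat_lit 14) (.e (nat_lit 180244) (nat_lit 5) (.e (nat_lit 532515) (nat_lit 3) .nil))))) .nil)) 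
(.lf (nat_lit 259574) (.g (nat_lit 2180) (.e (nat_lit 164398) (nat_lit 256) (.e (nat_lit 57371) (nat_lit 2) (.e (nat_lit 90185) (nat_lit 17) (.e (nat_lit 237620) (nat_lit 13) .nil)))) .nil))))) (.nd (nat_lit 4) (.nd (nat_lit 5) (.nd (nat_lit 6) 
(.lf (nat_lit 259470) (.g (nat_lit 1217) (.e (nat_lit 164396) (nat_lit 256) (.e (nat_lit 57445) (nat_lit 19) (.e (nat_lit 393281) (nat_lit 23) (.e (nat_lit 426115) (nat_lit 2) .nil)))) .nil)) 
(.lf (nat_lit 259534) (.g (nat_lit 2337) (.e (nat_lit 164397) (nat_lit 256) (.e (nat_lit 57375) (nat_lit 2) (.e (nat_lit 90172) (nat_lit 14) (.e (nat_lit 180244) (nat_lit 5) (.e (nat_lit 532515) (nat_lit 3) (.e (nat_lit 114716) (nat_lit 22) (.e (nat_lit 90137) (nat_lit 9) (.e (nat_lit 2599) (nat_lit 163) .nil)))))))) (.g (nat_lit 4) .nil .nil)))) (.nd (nat_lit 6) 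
(.lf (nat_lit 259502) (.g (nat_lit 807) (.e (nat_lit 164397) (nat_lit 256) (.e (nat_lit 57371) (nat_lit 2) (.e (nat_lit 90185) (nat_lit 17) .nil))) .nil)) 
(.lf (nat_lit 259566) (.g (nat_lit 2349) (.e (nat_lit 164398) (nat_lit 256) (.e (nat_lit 57371) (nat_lit 2) (.e (nat_lit 90172) (nat_lit 14) (.e (nat_lit 180244) (nat_lit 5) (.e (nat_lit 532508) (nat_lit 2) .nil))))) .nil)))) (.nd (nat_lit 5) (.nd (nat_lit 6) 
(.lf (nat_lit 259486) (.g (nat_lit 1908) (.e (nat_lit 164396) (nat_lit 256) (.e (nat_lit 57448) (nat_lit 19) (.e (nat_lit 393281) (nat_lit 23) (.e (nat_lit 426116) (nat_lit 2) (.e (nat_lit 196654) (nat_lit 11) (.e (nat_lit 16406) (nat_lit 1) .nil)))))) (.g (nat_lit 4) .nil .nil))) 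
(.lf (nat_lit 259550) (.g (nat_lit 1726) (.e (nat_lit 164397) (nat_lit 256) (.e (nat_lit 57447) (nat_lit 19) (.e (nat_lit 393281) (nat_lit 23) (.e (nat_lit 426115) (nat_lit 2) .nil)))) .nil))) (.nd (nat_lit 6) 
(.lf (nat_lit 259518) (.g (nat_lit 2678) (.e (nat_lit 164397) (nat_lit 256) (.e (nat_lit 57374) (nat_lit 2) (.e (nat_lit 90170) (nat_lit 13) (.e (nat_lit 172067) (nat_lit 3) (.e (nat_lit 204838) (nat_lit 20) (.e (nat_lit 114708) (nat_lit 20) (.e (nat_lit 1800) (nat_lit 119) (.e (nat_lit 516115) (nat_lit 1) .nil)))))))) (.g (nat_lit 4) .nil .nil))) 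
(.lf (nat_lit 259582) (.g (nat_lit 2081) (.e (nat_lit 164398) (nat_lit 256) (.e (nat_lit 57372) (nat_lit 2) (.e (nat_lit 90172) (nat_lit 14) (.e (nat_lit 180244) (nat_lit 5) (.e (nat_lit 532508) (nat_lit 2) .nil))))) .nil)))))))) (.nd (nat_lit 1) (.nd (nat_lit 2) (.nd (nat_lit 3) (.nd (nat_lit 4) (.nd (nat_lit 5) (.nd (nat_lit 6) 
(.lf (nat_lit 259457) (.g (nat_lit 1985) (.e (nat_lit 164396) (nat_lit 256) (.e (nat_lit 57409) (nat_lit 12) (.e (nat_lit 336443) (nat_lit 32) (.e (nat_lit 466977) (nat_lit 22) .nil)))) .nil)) 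
(.lf (nat_lit 259521) (.g (nat_lit 1949) (.e (nat_lit 164397) (nat_lit 256) (.e (nat_lit 57375) (nat_lit 2) (.e (nat_lit 90172) (nat_lit 14) (.e (nat_lit 180243) (nat_lit 5) (.e (nat_lit 532508) (nat_lit 2) .nil))))) .nil))) (.nd (nat_lit 6) 
(.lf (nat_lit 259489) (.g (nat_lit 2558) (.e (nat_lit 164396) (nat_lit 256) (.e (nat_lit 57448) (nat_lit 19) (.e (nat_lit 393301) (nat_lit 27) (.e (nat_lit 491526) (nat_lit 0) (.e (nat_lit 1848) (nat_lit 124) (.e (nat_lit 557097) (nat_lit 13) (.e (nat_lit 172061) (nat_lit 1) .nil))))))) (.g (nat_lit 4) .nil .nil))) 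
(.lf (nat_lit 259553) (.g (nat_lit 1584) (.e (nat_lit 164397) (nat_lit 256) (.e (nat_lit 57447) (nat_lit 19) (.e (nat_lit 393283) (nat_lit 24) (.e (nat_lit 434231) (nat_lit 23) .nil)))) .nil)))) (.nd (nat_lit 5) (.nd (nat_lit 6) 
(.lf (nat_lit 259473) (.g (nat_lit 799) (.e (nat_lit 164396) (nat_lit 256) (.e (nat_lit 57447) (nat_lit 19) (.e (nat_lit 393281) (nat_lit 23) .nil))) .nil)) 
(.lf (nat_lit 259537) (.g (nat_lit 2075) (.e (nat_lit 164397) (nat_lit 256) (.e (nat_lit 57375) (nat_lit 2) (.e (nat_lit 90174) (nat_lit 14) (.e (nat_lit 180243) (nat_lit 5) (.e (nat_lit 532515) (nat_lit 3) (.e (nat_lit 114716) (nat_lit 22) (.e (nat_lit 90128) (nat_lit 9) (.e (nat_lit 2615) (nat_lit 163) .nil)))))))) (.g (nat_lit 4) .nil .nil)))) (.nd (nat_lit 6) 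
(.lf (nat_lit 259505) (.g (nat_lit 1924) (.e (nat_lit 164397) (nat_lit 256) (.e (nat_lit 57371) (nat_lit 2) (.e (nat_lit 90185) (nat_lit 17) (.e (nat_lit 237621) (nat_lit 13) (.e (nat_lit 483337) (nat_lit 9) .nil))))) .nil)) 
(.lf (nat_lit 259569) (.g (nat_lit 2290) (.e (nat_lit 164398) (nat_lit 256) (.e (nat_lit 57371) (nat_lit 2) (.e (nat_lit 90174) (nat_lit 14) (.e (nat_lit 180243) (nat_lit 5) (.e (nat_lit 532484) (nat_lit 0) .nil))))) .nil))))) (.nd (nat_lit 4) (.nd (nat_lit 5) (.nd (nat_lit 6) 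
(.lf (nat_lit 259465) (.g (nat_lit 1950) (.e (nat_lit 164396) (nat_lit 256) (.e (nat_lit 57436) (nat_lit 17) (.e (nat_lit 376865) (nat_lit 22) (.e (nat_lit 90158) (nat_lit 11) (.e (nat_lit 32512) (nat_lit 20) .nil))))) .nil)) 
(.lf (nat_lit 259529) (.g (nat_lit 2237) (.e (nat_lit 164397) (nat_lit 256) (.e (nat_lit 57375) (nat_lit 2) (.e (nat_lit 90172) (nat_lit 14) (.e (nat_lit 180244) (nat_lit 5) (.e (nat_lit 532514) (nat_lit 3) .nil))))) .nil))) (.nd (nat_lit 6) 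
(.lf (nat_lit 259497) (.g (nat_lit 2626) (.e (nat_lit 164397) (nat_lit 256) (.e (nat_lit 57371) (nat_lit 2) (.e (nat_lit 90172) (nat_lit 14) (.e (nat_lit 180244) (nat_lit 5) (.e (nat_lit 532515) (nat_lit 3) (.e (nat_lit 114716) (nat_lit 22) (.e (nat_lit 90129) (nat_lit 9) (.e (nat_lit 2603) (nat_lit 163) .nil)))))))) (.g (nat_lit 5) .nil .nil))) 
(.lf (nat_lit 259561) (.g (nat_lit 4338) (.e (nat_lit 164398) (nat_lit 256) (.e (nat_lit 57354) (nat_lit 0) (.e (nat_lit 6114) (nat_lit 332) (.e (nat_lit 1370) (nat_lit 103) (.e (nat_lit 294958) (nat_lit 13) .nil))))) .nil)))) (.nd (nat_lit 5) (.nd (nat_lit 6) 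
(.lf (nat_lit 259481) (.g (nat_lit 2201) (.e (nat_lit 164396) (nat_lit 256) (.e (nat_lit 57448) (nat_lit 19) (.e (nat_lit 393234) (nat_lit 17) (.e (nat_lit 7581) (nat_lit 405) (.e (nat_lit 57480) (nat_lit 28) .nil))))) .nil)) 
(.lf (nat_lit 259545) (.g (nat_lit 3300) (.e (nat_lit 164397) (nat_lit 256) (.e (nat_lit 57379) (nat_lit 3) (.e (nat_lit 98366) (nat_lit 27) (.e (nat_lit 434231) (nat_lit 23) (.e (nat_lit 532483) (nat_lit 0) (.e (nat_lit 2198) (nat_lit 144) (.e (nat_lit 720945) (nat_lit 23) (.e (nat_lit 98334) (nat_lit 18) .nil)))))))) (.g (nat_lit 4) .nil .nil)))) (.nd (nat_lit 6) 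
(.lf (nat_lit 259513) (.g (nat_lit 2732) (.e (nat_lit 164397) (nat_lit 256) (.e (nat_lit 57374) (nat_lit 2) (.e (nat_lit 90170) (nat_lit 13) (.e (nat_lit 172065) (nat_lit 3) (.e (nat_lit 204834) (nat_lit 19) .nil))))) .nil)) 
(.lf (nat_lit 259577) (.g (nat_lit 3461) (.e (nat_lit 164398) (nat_lit 256) (.e (nat_lit 57372) (nat_lit 2) (.e (nat_lit 90167) (nat_lit 13) (.e (nat_lit 172067) (nat_lit 3) (.e (nat_lit 204838) (nat_lit 20) (.e (nat_lit 114708) (nat_lit 20) (.e (nat_lit 1800) (nat_lit 119) (.e (nat_lit 516117) (nat_lit 1) .nil)))))))) (.g (nat_lit 5) .nil .nil))))))) 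
(.nd (nat_lit 3) (.nd (nat_lit 4) (.nd (nat_lit 5) (.nd (nat_lit 6) 
(.lf (nat_lit 259461) (.g (nat_lit 3543) (.e (nat_lit 164396) (nat_lit 256) (.e (nat_lit 57427) (nat_lit 15) (.e (nat_lit 360474) (nat_lit 8) (.e (nat_lit 557091) (nat_lit 12) (.e (nat_lit 163856) (nat_lit 0) .nil))))) .nil)) 
(.lf (nat_lit 259525) (.g (nat_lit 2147) (.e (nat_lit 164397) (nat_lit 256) (.e (nat_lit 57375) (nat_lit 2) (.e (nat_lit 90172) (nat_lit 14) (.e (nat_lit 180243) (nat_lit 5) (.e (nat_lit 532515) (nat_lit 3) (.e (nat_lit 114716) (nat_lit 22) (.e (nat_lit 90129) (nat_lit 9) (.e (nat_lit 2603) (nat_lit 163) .nil)))))))) (.g (nat_lit 4) .nil .nil)))) (.nd (nat_lit 6) 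
(.lf (nat_lit 259493) (.g (nat_lit 1388) (.e (nat_lit 164397) (nat_lit 256) (.e (nat_lit 57371) (nat_lit 2) (.e (nat_lit 90172) (nat_lit 14) (.e (nat_lit 180244) (nat_lit 5) .nil)))) .nil)) 
(.lf (nat_lit 259557) (.g (nat_lit 2554) (.e (nat_lit 164397) (nat_lit 256) (.e (nat_lit 57448) (nat_lit 19) (.e (nat_lit 393301) (nat_lit 27) (.e (nat_lit 491526) (nat_lit 0) (.e (nat_lit 1848) (nat_lit 124) (.e (nat_lit 557097) (nat_lit 13) (.e (nat_lit 172059) (nat_lit 1) .nil))))))) (.g (nat_lit 4) .nil .nil))))) (.nd (nat_lit 5) (.nd (nat_lit 6) 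
(.lf (nat_lit 259477) (.g (nat_lit 2456) (.e (nat_lit 164396) (nat_lit 256) (.e (nat_lit 57448) (nat_lit 19) (.e (nat_lit 393234) (nat_lit 17) (.e (nat_lit 7581) (nat_lit 405) (.e (nat_lit 57476) (nat_lit 28) (.e (nat_lit 557097) (nat_lit 13) (.e (nat_lit 172061) (nat_lit 1) .nil))))))) (.g (nat_lit 4) .nil .nil))) 
(.lf (nat_lit 259541) (.g (nat_lit 1624) (.e (nat_lit 164397) (nat_lit 256) (.e (nat_lit 57375) (nat_lit 2) (.e (nat_lit 90185) (nat_lit 17) (.e (nat_lit 237601) (nat_lit 9) (.e (nat_lit 426568) (nat_lit 34) .nil))))) .nil))) (.nd (nat_lit 6) 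
(.lf (nat_lit 259509) (.g (nat_lit 2443) (.e (nat_lit 164397) (nat_lit 256) (.e (nat_lit 57372) (nat_lit 2) (.e (nat_lit 90172) (nat_lit 14) (.e (nat_lit 180244) (nat_lit 5) (.e (nat_lit 532508) (nat_lit 2) .nil))))) .nil)) 
(.lf (nat_lit 259573) (.g (nat_lit 1358) (.e (nat_lit 164398) (nat_lit 256) (.e (nat_lit 57371) (nat_lit 2) (.e (nat_lit 90185) (nat_lit 17) (.e (nat_lit 237605) (nat_lit 9) .nil)))) .nil))))) (.nd (nat_lit 4) (.nd (nat_lit 5) (.nd (nat_lit 6) 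
(.lf (nat_lit 259469) (.g (nat_lit 714) (.e (nat_lit 164396) (nat_lit 256) (.e (nat_lit 57437) (nat_lit 17) (.e (nat_lit 376869) (nat_lit 23) .nil))) .nil)) 
(.lf (nat_lit 259533) (.g (nat_lit 2301) (.e (nat_lit 164397) (nat_lit 256) (.e (nat_lit 57375) (nat_lit 2) (.e (nat_lit 90172) (nat_lit 14) (.e (nat_lit 180244) (nat_lit 5) (.e (nat_lit 532515) (nat_lit 3) (.e (nat_lit 114716) (nat_lit 22) (.e (nat_lit 90133) (nat_lit 9) (.e (nat_lit 2613) (nat_lit 163) .nil)))))))) (.g (nat_lit 4) .nil .nil)))) (.nd (nat_lit 6) 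
(.lf (nat_lit 259501) (.g (nat_lit 2317) (.e (nat_lit 164397) (nat_lit 256) (.e (nat_lit 57371) (nat_lit 2) (.e (nat_lit 90174) (nat_lit 14) (.e (nat_lit 180243) (nat_lit 5) (.e (nat_lit 532511) (nat_lit 2) .nil))))) .nil)) 
(.lf (nat_lit 259565) (.g (nat_lit 1445) (.e (nat_lit 164398) (nat_lit 256) (.e (nat_lit 57371) (nat_lit 2) (.e (nat_lit 90172) (nat_lit 14) (.e (nat_lit 180244) (nat_lit 5) .nil)))) .nil)))) (.nd (nat_lit 5) (.nd (nat_lit 6) 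
(.lf (nat_lit 259485) (.g (nat_lit 2140) (.e (nat_lit 164396) (nat_lit 256) (.e (nat_lit 57448) (nat_lit 19) (.e (nat_lit 393281) (nat_lit 23) (.e (nat_lit 426115) (nat_lit 2) (.e (nat_lit 196654) (nat_lit 11) (.e (nat_lit 16407) (nat_lit 1) .nil)))))) (.g (nat_lit 5) .nil .nil))) 
(.lf (nat_lit 259549) (.g (nat_lit 2811) (.e (nat_lit 164397) (nat_lit 256) (.e (nat_lit 57412) (nat_lit 12) (.e (nat_lit 336061) (nat_lit 7) (.e (nat_lit 319531) (nat_lit 16) (.e (nat_lit 286767) (nat_lit 27) (.e (nat_lit 426098) (nat_lit 1) (.e (nat_lit 164325) (nat_lit 230) (.e (nat_lit 163861) (nat_lit 1) .nil)))))))) (.g (nat_lit 4) .nil .nil)))) (.nd (nat_lit 6) 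
(.lf (nat_lit 259517) (.g (nat_lit 2506) (.e (nat_lit 164397) (nat_lit 256) (.e (nat_lit 57374) (nat_lit 2) (.e (nat_lit 90170) (nat_lit 13) (.e (nat_lit 172067) (nat_lit 3) (.e (nat_lit 204838) (nat_lit 20) .nil))))) .nil)) 
(.lf (nat_lit 259581) (.g (nat_lit 2119) (.e (nat_lit 164398) (nat_lit 256) (.e (nat_lit 57372) (nat_lit 2) (.e (nat_lit 90172) (nat_lit 14) (.e (nat_lit 180243) (nat_lit 5) (.e (nat_lit 532515) (nat_lit 3) .nil))))) .nil))))))) (.nd (nat_lit 2) (.nd (nat_lit 3) (.nd (nat_lit 4) (.nd (nat_lit 5) (.nd (nat_lit 6) 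
(.lf (nat_lit 259459) (.g (nat_lit 2521) (.e (nat_lit 164396) (nat_lit 256) (.e (nat_lit 57412) (nat_lit 12) (.e (nat_lit 336061) (nat_lit 7) (.e (nat_lit 319531) (nat_lit 16) (.e (nat_lit 286767) (nat_lit 27) .nil))))) .nil)) 
(.lf (nat_lit 259523) (.g (nat_lit 1996) (.e (nat_lit 164397) (nat_lit 256) (.e (nat_lit 57375) (nat_lit 2) (.e (nat_lit 90172) (nat_lit 14) (.e (nat_lit 180243) (nat_lit 5) (.e (nat_lit 532511) (nat_lit 2) .nil))))) .nil))) (.nd (nat_lit 6) 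
(.lf (nat_lit 259491) (.g (nat_lit 1522) (.e (nat_lit 164397) (nat_lit 256) (.e (nat_lit 57371) (nat_lit 2) (.e (nat_lit 90172) (nat_lit 14) (.e (nat_lit 180243) (nat_lit 5) .nil)))) .nil)) 
(.lf (nat_lit 259555) (.g (nat_lit 2319) (.e (nat_lit 164397) (nat_lit 256) (.e (nat_lit 57448) (nat_lit 19) (.e (nat_lit 393234) (nat_lit 17) (.e (nat_lit 7583) (nat_lit 405) (.e (nat_lit 57476) (nat_lit 28) (.e (nat_lit 557097) (nat_lit 13) (.e (nat_lit 172059) (nat_lit 1) .nil))))))) (.g (nat_lit 5) .nil .nil))))) (.nd (nat_lit 5) (.nd (nat_lit 6) 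
(.lf (nat_lit 259475) (.g (nat_lit 2291) (.e (nat_lit 164396) (nat_lit 256) (.e (nat_lit 57447) (nat_lit 19) (.e (nat_lit 393281) (nat_lit 23) (.e (nat_lit 426116) (nat_lit 2) (.e (nat_lit 196654) (nat_lit 11) .nil))))) .nil)) 
(.lf (nat_lit 259539) (.g (nat_lit 2393) (.e (nat_lit 164397) (nat_lit 256) (.e (nat_lit 57375) (nat_lit 2) (.e (nat_lit 90174) (nat_lit 14) (.e (nat_lit 180243) (nat_lit 5) (.e (nat_lit 532515) (nat_lit 3) (.e (nat_lit 114716) (nat_lit 22) (.e (nat_lit 90129) (nat_lit 9) (.e (nat_lit 2604) (nat_lit 163) .nil)))))))) (.g (nat_lit 5) .nil .nil)))) (.nd (nat_lit 6) 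
(.lf (nat_lit 259507) (.g (nat_lit 1721) (.e (nat_lit 164397) (nat_lit 256) (.e (nat_lit 57372) (nat_lit 2) (.e (nat_lit 90172) (nat_lit 14) (.e (nat_lit 180243) (nat_lit 5) .nil)))) .nil)) 
(.lf (nat_lit 259571) (.g (nat_lit 2321) (.e (nat_lit 164398) (nat_lit 256) (.e (nat_lit 57371) (nat_lit 2) (.e (nat_lit 90174) (nat_lit 14) (.e (nat_lit 180243) (nat_lit 5) (.e (nat_lit 532510) (nat_lit 2) .nil))))) .nil))))) (.nd (nat_lit 4) (.nd (nat_lit 5) (.nd (nat_lit 6) 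
(.lf (nat_lit 259467) (.g (nat_lit 2254) (.e (nat_lit 164396) (nat_lit 256) (.e (nat_lit 57436) (nat_lit 17) (.e (nat_lit 376865) (nat_lit 22) (.e (nat_lit 90160) (nat_lit 11) (.e (nat_lit 32512) (nat_lit 20) (.e (nat_lit 221208) (nat_lit 21) .nil)))))) (.g (nat_lit 4) .nil .nil))) 
(.lf (nat_lit 259531) (.g (nat_lit 3205) (.e (nat_lit 164397) (nat_lit 256) (.e (nat_lit 57375) (nat_lit 2) (.e (nat_lit 90172) (nat_lit 14) (.e (nat_lit 180244) (nat_lit 5) (.e (nat_lit 532515) (nat_lit 3) (.e (nat_lit 114716) (nat_lit 22) (.e (nat_lit 90129) (nat_lit 9) (.e (nat_lit 2603) (nat_lit 163) .nil)))))))) (.g (nat_lit 7) .nil .nil)))) (.nd (nat_lit 6) 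
(.lf (nat_lit 259499) (.g (nat_lit 2249) (.e (nat_lit 164397) (nat_lit 256) (.e (nat_lit 57371) (nat_lit 2) (.e (nat_lit 90174) (nat_lit 14) (.e (nat_lit 180243) (nat_lit 5) (.e (nat_lit 532506) (nat_lit 2) .nil))))) .nil)) 
(.lf (nat_lit 259563) (.g (nat_lit 1715) (.e (nat_lit 164398) (nat_lit 256) (.e (nat_lit 57370) (nat_lit 2) (.e (nat_lit 90170) (nat_lit 13) (.e (nat_lit 172065) (nat_lit 3) .nil)))) .nil)))) (.nd (nat_lit 5) (.nd (nat_lit 6) 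
(.lf (nat_lit 259483) (.g (nat_lit 2242) (.e (nat_lit 164396) (nat_lit 256) (.e (nat_lit 57448) (nat_lit 19) (.e (nat_lit 393234) (nat_lit 17) (.e (nat_lit 7583) (nat_lit 405) (.e (nat_lit 57476) (nat_lit 28) (.e (nat_lit 557097) (nat_lit 13) (.e (nat_lit 172059) (nat_lit 1) .nil))))))) (.g (nat_lit 5) .nil .nil))) 
(.lf (nat_lit 259547) (.g (nat_lit 1920) (.e (nat_lit 164397) (nat_lit 256) (.e (nat_lit 57379) (nat_lit 3) (.e (nat_lit 98367) (nat_lit 27) (.e (nat_lit 434232) (nat_lit 23) .nil)))) .nil))) (.nd (nat_lit 6) 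
(.lf (nat_lit 259515) (.g (nat_lit 2592) (.e (nat_lit 164397) (nat_lit 256) (.e (nat_lit 57374) (nat_lit 2) (.e (nat_lit 90170) (nat_lit 13) (.e (nat_lit 172067) (nat_lit 3) (.e (nat_lit 204834) (nat_lit 19) .nil))))) .nil)) 
(.lf (nat_lit 259579) (.g (nat_lit 565) (.e (nat_lit 164398) (nat_lit 256) (.e (nat_lit 57372) (nat_lit 2) (.e (nat_lit 90172) (nat_lit 14) .nil))) .nil)))))) (.nd (nat_lit 3) (.nd (nat_lit 4) (.nd (nat_lit 5) (.nd (nat_lit 6) 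
(.lf (nat_lit 259463) (.g (nat_lit 2688) (.e (nat_lit 164396) (nat_lit 256) (.e (nat_lit 57427) (nat_lit 15) (.e (nat_lit 360474) (nat_lit 8) (.e (nat_lit 557093) (nat_lit 12) (.e (nat_lit 163856) (nat_lit 0) .nil))))) .nil)) 
(.lf (nat_lit 259527) (.g (nat_lit 1437) (.e (nat_lit 164397) (nat_lit 256) (.e (nat_lit 57375) (nat_lit 2) (.e (nat_lit 90172) (nat_lit 14) (.e (nat_lit 180244) (nat_lit 5) .nil)))) .nil))) (.nd (nat_lit 6) 
(.lf (nat_lit 259495) (.g (nat_lit 1992) (.e (nat_lit 164397) (nat_lit 256) (.e (nat_lit 57371) (nat_lit 2) (.e (nat_lit 90172) (nat_lit 14) (.e (nat_lit 180244) (nat_lit 5) (.e (nat_lit 532515) (nat_lit 3) .nil))))) .nil)) 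
(.lf (nat_lit 259559) (.g (nat_lit 526) (.e (nat_lit 164398) (nat_lit 256) (.e (nat_lit 57347) (nat_lit 0) (.e (nat_lit 1795) (nat_lit 119) .nil))) .nil)))) (.nd (nat_lit 5) (.nd (nat_lit 6) 
(.lf (nat_lit 259479) (.g (nat_lit 2278) (.e (nat_lit 164396) (nat_lit 256) (.e (nat_lit 57448) (nat_lit 19) (.e (nat_lit 393234) (nat_lit 17) (.e (nat_lit 7581) (nat_lit 405) (.e (nat_lit 57477) (nat_lit 28) (.e (nat_lit 557097) (nat_lit 13) (.e (nat_lit 172061) (nat_lit 1) .nil))))))) (.g (nat_lit 4) .nil .nil))) 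
(.lf (nat_lit 259543) (.g (nat_lit 1967) (.e (nat_lit 164397) (nat_lit 256) (.e (nat_lit 57379) (nat_lit 3) (.e (nat_lit 98356) (nat_lit 26) (.e (nat_lit 426131) (nat_lit 3) .nil)))) .nil))) (.nd (nat_lit 6) 
(.lf (nat_lit 259511) (.g (nat_lit 1890) (.e (nat_lit 164397) (nat_lit 256) (.e (nat_lit 57373) (nat_lit 2) (.e (nat_lit 90172) (nat_lit 14) (.e (nat_lit 180244) (nat_lit 5) .nil)))) .nil)) 
(.lf (nat_lit 259575) (.g (nat_lit 598) (.e (nat_lit 164398) (nat_lit 256) (.e (nat_lit 57372) (nat_lit 2) (.e (nat_lit 90167) (nat_lit 13) .nil))) .nil))))) (.nd (nat_lit 4) (.nd (nat_lit 5) (.nd (nat_lit 6) 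
(.lf (nat_lit 259471) (.g (nat_lit 1215) (.e (nat_lit 164396) (nat_lit 256) (.e (nat_lit 57445) (nat_lit 19) (.e (nat_lit 393281) (nat_lit 23) (.e (nat_lit 426116) (nat_lit 2) .nil)))) .nil)) 
(.lf (nat_lit 259535) (.g (nat_lit 1353) (.e (nat_lit 164397) (nat_lit 256) (.e (nat_lit 57375) (nat_lit 2) (.e (nat_lit 90174) (nat_lit 14) (.e (nat_lit 180243) (nat_lit 5) .nil)))) .nil))) (.nd (nat_lit 6) 
(.lf (nat_lit 259503) (.g (nat_lit 1701) (.e (nat_lit 164397) (nat_lit 256) (.e (nat_lit 57371) (nat_lit 2) (.e (nat_lit 90185) (nat_lit 17) (.e (nat_lit 237601) (nat_lit 9) (.e (nat_lit 426566) (nat_lit 34) .nil))))) .nil)) 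
(.lf (nat_lit 259567) (.g (nat_lit 2060) (.e (nat_lit 164398) (nat_lit 256) (.e (nat_lit 57371) (nat_lit 2) (.e (nat_lit 90172) (nat_lit 14) (.e (nat_lit 180244) (nat_lit 5) (.e (nat_lit 532515) (nat_lit 3) .nil))))) .nil)))) (.nd (nat_lit 5) (.nd (nat_lit 6) 
(.lf (nat_lit 259487) (.g (nat_lit 2697) (.e (nat_lit 164396) (nat_lit 256) (.e (nat_lit 57448) (nat_lit 19) (.e (nat_lit 393281) (nat_lit 23) (.e (nat_lit 426116) (nat_lit 2) (.e (nat_lit 196654) (nat_lit 11) (.e (nat_lit 16407) (nat_lit 1) .nil)))))) (.g (nat_lit 5) .nil .nil))) 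
(.lf (nat_lit 259551) (.g (nat_lit 1744) (.e (nat_lit 164397) (nat_lit 256) (.e (nat_lit 57447) (nat_lit 19) (.e (nat_lit 393281) (nat_lit 23) (.e (nat_lit 426116) (nat_lit 2) .nil)))) .nil))) (.nd (nat_lit 6) 
(.lf (nat_lit 259519) (.g (nat_lit 2222) (.e (nat_lit 164397) (nat_lit 256) (.e (nat_lit 57374) (nat_lit 2) (.e (nat_lit 90170) (nat_lit 13) (.e (nat_lit 172095) (nat_lit 9) .nil)))) .nil)) 
(.lf (nat_lit 259583) (.g (nat_lit 2748) (.e (nat_lit 164398) (nat_lit 256) (.e (nat_lit 57372) (nat_lit 2) (.e (nat_lit 90172) (nat_lit 14) (.e (nat_lit 180244) (nat_lit 5) (.e (nat_lit 532515) (nat_lit 3) (.e (nat_lit 114716) (nat_lit 22) (.e (nat_lit 90129) (nat_lit 9) (.e (nat_lit 2603) (nat_lit 163) .nil)))))))) (.g (nat_lit 4) .nil .nil))))))))))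

noncomputable def tv3356 : DT := (.nd (nat_lit 0) (.nd (nat_lit 1) (.nd (nat_lit 2) (.nd (nat_lit 3) (.nd (nat_lit 4) (.nd (nat_lit 5) (.nd (nat_lit 6) 
(.lf (nat_lit 259584) (.g (nat_lit 2539) (.e (nat_lit 164398) (nat_lit 256) (.e (nat_lit 57372) (nat_lit 2) (.e (nat_lit 90172) (nat_lit 14) (.e (nat_lit 180244) (nat_lit 5) (.e (nat_lit 532515) (nat_lit 3) (.e (nat_lit 114716) (nat_lit 22) (.e (nat_lit 90129) (nat_lit 9) (.e (nat_lit 2604) (nat_lit 163) .nil)))))))) (.g (nat_lit 4) .nil .nil))) 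
(.lf (nat_lit 259648) (.g (nat_lit 1865) (.e (nat_lit 164398) (nat_lit 256) (.e (nat_lit 57378) (nat_lit 3) (.e (nat_lit 98373) (nat_lit 29) (.e (nat_lit 450563) (nat_lit 0) .nil)))) .nil))) (.nd (nat_lit 6) 
(.lf (nat_lit 259616) (.g (nat_lit 2460) (.e (nat_lit 164398) (nat_lit 256) (.e (nat_lit 57374) (nat_lit 2) (.e (nat_lit 90170) (nat_lit 13) (.e (nat_lit 172092) (nat_lit 9) .nil)))) .nil)) 
(.lf (nat_lit 259680) (.g (nat_lit 701) (.e (nat_lit 164398) (nat_lit 256) (.e (nat_lit 57388) (nat_lit 5) (.e (nat_lit 114714) (nat_lit 22) .nil))) .nil)))) (.nd (nat_lit 5) (.nd (nat_lit 6) 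
(.lf (nat_lit 259600) (.g (nat_lit 2009) (.e (nat_lit 164398) (nat_lit 256) (.e (nat_lit 57373) (nat_lit 2) (.e (nat_lit 90170) (nat_lit 13) (.e (nat_lit 172092) (nat_lit 9) .nil)))) .nil)) 
(.lf (nat_lit 259664) (.g (nat_lit 2143) (.e (nat_lit 164398) (nat_lit 256) (.e (nat_lit 57378) (nat_lit 3) (.e (nat_lit 98381) (nat_lit 31) (.e (nat_lit 466954) (nat_lit 11) (.e (nat_lit 336405) (nat_lit 27) (.e (nat_lit 426099) (nat_lit 1) .nil)))))) (.g (nat_lit 4) .nil .nil)))) (.nd (nat_lit 6) 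
(.lf (nat_lit 259632) (.g (nat_lit 1131) (.e (nat_lit 164398) (nat_lit 256) (.e (nat_lit 57378) (nat_lit 3) (.e (nat_lit 98333) (nat_lit 18) .nil))) .nil)) 
(.lf (nat_lit 259696) (.g (nat_lit 1803) (.e (nat_lit 164398) (nat_lit 256) (.e (nat_lit 57400) (nat_lit 10) (.e (nat_lit 319534) (nat_lit 16) (.e (nat_lit 286760) (nat_lit 13) .nil)))) .nil))))) (.nd (nat_lit 4) (.nd (nat_lit 5) (.nd (nat_lit 6) 
(.lf (nat_lit 259592) (.g (nat_lit 536) (.e (nat_lit 164398) (nat_lit 256) (.e (nat_lit 57372) (nat_lit 2) (.e (nat_lit 90185) (nat_lit 17) .nil))) .nil)) 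
(.lf (nat_lit 259656) (.g (nat_lit 3328) (.e (nat_lit 164398) (nat_lit 256) (.e (nat_lit 57378) (nat_lit 3) (.e (nat_lit 98373) (nat_lit 29) (.e (nat_lit 450603) (nat_lit 22) (.e (nat_lit 704537) (nat_lit 0) .nil))))) .nil))) (.nd (nat_lit 6) 
(.lf (nat_lit 259624) (.g (nat_lit 1456) (.e (nat_lit 164398) (nat_lit 256) (.e (nat_lit 57375) (nat_lit 2) (.e (nat_lit 90174) (nat_lit 14) (.e (nat_lit 180243) (nat_lit 5) (.e (nat_lit 532508) (nat_lit 2) .nil))))) .nil)) 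
(.lf (nat_lit 259688) (.g (nat_lit 2009) (.e (nat_lit 164398) (nat_lit 256) (.e (nat_lit 57400) (nat_lit 10) (.e (nat_lit 319530) (nat_lit 16) (.e (nat_lit 286761) (nat_lit 13) (.e (nat_lit 393281) (nat_lit 23) .nil))))) .nil)))) (.nd (nat_lit 5) (.nd (nat_lit 6) 
(.lf (nat_lit 259608) (.g (nat_lit 1938) (.e (nat_lit 164398) (nat_lit 256) (.e (nat_lit 57373) (nat_lit 2) (.e (nat_lit 90174) (nat_lit 14) (.e (nat_lit 180243) (nat_lit 5) (.e (nat_lit 532508) (nat_lit 2) .nil))))) .nil)) 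
(.lf (nat_lit 259672) (.g (nat_lit 819) (.e (nat_lit 164398) (nat_lit 256) (.e (nat_lit 57379) (nat_lit 3) (.e (nat_lit 98372) (nat_lit 29) .nil))) .nil))) (.nd (nat_lit 6) 
(.lf (nat_lit 259640) (.g (nat_lit 2137) (.e (nat_lit 164398) (nat_lit 256) (.e (nat_lit 57378) (nat_lit 3) (.e (nat_lit 98367) (nat_lit 27) (.e (nat_lit 434231) (nat_lit 23) (.e (nat_lit 532507) (nat_lit 2) .nil))))) .nil)) 
(.lf (nat_lit 259704) (.g (nat_lit 1259) (.e (nat_lit 164398) (nat_lit 256) (.e (nat_lit 57407) (nat_lit 12) (.e (nat_lit 336426) (nat_lit 29) (.e (nat_lit 442423) (nat_lit 22) .nil)))) .nil)))))) (.nd (nat_lit 3) (.nd (nat_lit 4) (.nd (nat_lit 5) (.nd (nat_lit 6) 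
(.lf (nat_lit 259588) (.g (nat_lit 2006) (.e (nat_lit 164398) (nat_lit 256) (.e (nat_lit 57372) (nat_lit 2) (.e (nat_lit 90174) (nat_lit 14) (.e (nat_lit 180243) (nat_lit 5) (.e (nat_lit 532513) (nat_lit 3) .nil))))) .nil)) 
(.lf (nat_lit 259652) (.g (nat_lit 2399) (.e (nat_lit 164398) (nat_lit 256) (.e (nat_lit 57378) (nat_lit 3) (.e (nat_lit 98373) (nat_lit 29) (.e (nat_lit 450599) (nat_lit 19) .nil)))) .nil))) (.nd (nat_lit 6) 
(.lf (nat_lit 259620) (.g (nat_lit 2014) (.e (nat_lit 164398) (nat_lit 256) (.e (nat_lit 57375) (nat_lit 2) (.e (nat_lit 90172) (nat_lit 14) (.e (nat_lit 180244) (nat_lit 5) (.e (nat_lit 532508) (nat_lit 2) .nil))))) .nil)) 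
(.lf (nat_lit 259684) (.g (nat_lit 1385) (.e (nat_lit 164398) (nat_lit 256) (.e (nat_lit 57390) (nat_lit 5) (.e (nat_lit 114716) (nat_lit 22) (.e (nat_lit 90159) (nat_lit 11) (.e (nat_lit 24650) (nat_lit 12) .nil))))) .nil)))) (.nd (nat_lit 5) (.nd (nat_lit 6) 
(.lf (nat_lit 259604) (.g (nat_lit 2010) (.e (nat_lit 164398) (nat_lit 256) (.e (nat_lit 57373) (nat_lit 2) (.e (nat_lit 90172) (nat_lit 14) (.e (nat_lit 180244) (nat_lit 5) (.e (nat_lit 532508) (nat_lit 2) .nil))))) .nil)) 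
(.lf (nat_lit 259668) (.g (nat_lit 1564) (.e (nat_lit 164398) (nat_lit 256) (.e (nat_lit 57379) (nat_lit 3) (.e (nat_lit 98354) (nat_lit 26) (.e (nat_lit 426140) (nat_lit 3) (.e (nat_lit 204821) (nat_lit 17) .nil))))) .nil))) (.nd (nat_lit 6) 
(.lf (nat_lit 259636) (.g (nat_lit 1589) (.e (nat_lit 164398) (nat_lit 256) (.e (nat_lit 57378) (nat_lit 3) (.e (nat_lit 98359) (nat_lit 26) (.e (nat_lit 426331) (nat_lit 13) .nil)))) .nil)) 
(.lf (nat_lit 259700) (.g (nat_lit 2162) (.e (nat_lit 164398) (nat_lit 256) (.e (nat_lit 57405) (nat_lit 12) (.e (nat_lit 336443) (nat_lit 32) (.e (nat_lit 466977) (nat_lit 22) (.e (nat_lit 196654) (nat_lit 11) (.e (nat_lit 16406) (nat_lit 1) .nil)))))) (.g (nat_lit 4) .nil .nil)))))) (.nd (nat_lit 4) (.nd (nat_lit 5) (.nd (nat_lit 6) 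
(.lf (nat_lit 259596) (.g (nat_lit 1911) (.e (nat_lit 164398) (nat_lit 256) (.e (nat_lit 57373) (nat_lit 2) (.e (nat_lit 90170) (nat_lit 13) (.e (nat_lit 172065) (nat_lit 3) (.e (nat_lit 204834) (nat_lit 19) .nil))))) .nil)) 
(.lf (nat_lit 259660) (.g (nat_lit 3258) (.e (nat_lit 164398) (nat_lit 256) (.e (nat_lit 57378) (nat_lit 3) (.e (nat_lit 98373) (nat_lit 29) (.e (nat_lit 450604) (nat_lit 22) (.e (nat_lit 712448) (nat_lit 0) .nil))))) .nil))) (.nd (nat_lit 6) 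
(.lf (nat_lit 259628) (.g (nat_lit 3644) (.e (nat_lit 164398) (nat_lit 256) (.e (nat_lit 57375) (nat_lit 2) (.e (nat_lit 90185) (nat_lit 17) (.e (nat_lit 237605) (nat_lit 9) (.e (nat_lit 426566) (nat_lit 34) (.e (nat_lit 393251) (nat_lit 18) .nil)))))) (.g (nat_lit 0) .nil .nil))) 
(.lf (nat_lit 259692) (.g (nat_lit 2534) (.e (nat_lit 164398) (nat_lit 256) (.e (nat_lit 57400) (nat_lit 10) (.e (nat_lit 319533) (nat_lit 16) (.e (nat_lit 286761) (nat_lit 13) (.e (nat_lit 393275) (nat_lit 23) .nil))))) .nil)))) (.nd (nat_lit 5) (.nd (nat_lit 6) 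
(.lf (nat_lit 259612) (.g (nat_lit 2702) (.e (nat_lit 164398) (nat_lit 256) (.e (nat_lit 57374) (nat_lit 2) (.e (nat_lit 90170) (nat_lit 13) (.e (nat_lit 172067) (nat_lit 3) (.e (nat_lit 204834) (nat_lit 19) .nil))))) .nil)) 
(.lf (nat_lit 259676) (.g (nat_lit 2272) (.e (nat_lit 164398) (nat_lit 256) (.e (nat_lit 57379) (nat_lit 3) (.e (nat_lit 98373) (nat_lit 29) (.e (nat_lit 450599) (nat_lit 19) .nil)))) .nil))) (.nd (nat_lit 6) 
(.lf (nat_lit 259644) (.g (nat_lit 4355) (.e (nat_lit 164398) (nat_lit 256) (.e (nat_lit 57378) (nat_lit 3) (.e (nat_lit 98373) (nat_lit 29) (.e (nat_lit 450562) (nat_lit 0) (.e (nat_lit 6063) (nat_lit 328) .nil))))) .nil)) 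
(.lf (nat_lit 259708) (.g (nat_lit 2521) (.e (nat_lit 164398) (nat_lit 256) (.e (nat_lit 57410) (nat_lit 12) (.e (nat_lit 336443) (nat_lit 32) (.e (nat_lit 466974) (nat_lit 22) (.e (nat_lit 196654) (nat_lit 11) (.e (nat_lit 16406) (nat_lit 1) .nil)))))) (.g (nat_lit 5) .nil .nil)))))))) (.nd (nat_lit 2) (.nd (nat_lit 3) (.nd (nat_lit 4) (.nd (nat_lit 5) (.nd (nat_lit 6) 
(.lf (nat_lit 259586) (.g (nat_lit 1204) (.e (nat_lit 164398) (nat_lit 256) (.e (nat_lit 57372) (nat_lit 2) (.e (nat_lit 90174) (nat_lit 14) (.e (nat_lit 180243) (nat_lit 5) .nil)))) .nil)) 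
(.lf (nat_lit 259650) (.g (nat_lit 4298) (.e (nat_lit 164398) (nat_lit 256) (.e (nat_lit 57378) (nat_lit 3) (.e (nat_lit 98373) (nat_lit 29) (.e (nat_lit 450563) (nat_lit 0) (.e (nat_lit 6065) (nat_lit 328) .nil))))) .nil))) (.nd (nat_lit 6) 
(.lf (nat_lit 259618) (.g (nat_lit 933) (.e (nat_lit 164398) (nat_lit 256) (.e (nat_lit 57374) (nat_lit 2) (.e (nat_lit 90174) (nat_lit 14) (.e (nat_lit 180243) (nat_lit 5) .nil)))) .nil)) 
(.lf (nat_lit 259682) (.g (nat_lit 2064) (.e (nat_lit 164398) (nat_lit 256) (.e (nat_lit 57390) (nat_lit 5) (.e (nat_lit 114716) (nat_lit 22) (.e (nat_lit 90158) (nat_lit 11) (.e (nat_lit 24648) (nat_lit 12) (.e (nat_lit 385066) (nat_lit 26) (.e (nat_lit 540416) (nat_lit 18) .nil))))))) (.g (nat_lit 4) .nil .nil))))) (.nd (nat_lit 5) (.nd (nat_lit 6) 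
(.lf (nat_lit 259602) (.g (nat_lit 1679) (.e (nat_lit 164398) (nat_lit 256) (.e (nat_lit 57373) (nat_lit 2) (.e (nat_lit 90172) (nat_lit 14) (.e (nat_lit 180243) (nat_lit 5) .nil)))) .nil)) 
(.lf (nat_lit 259666) (.g (nat_lit 2817) (.e (nat_lit 164398) (nat_lit 256) (.e (nat_lit 57378) (nat_lit 3) (.e (nat_lit 98384) (nat_lit 32) (.e (nat_lit 475177) (nat_lit 24) (.e (nat_lit 516143) (nat_lit 9) .nil))))) .nil))) (.nd (nat_lit 6) 
(.lf (nat_lit 259634) (.g (nat_lit 1743) (.e (nat_lit 164398) (nat_lit 256) (.e (nat_lit 57378) (nat_lit 3) (.e (nat_lit 98359) (nat_lit 26) (.e (nat_lit 426132) (nat_lit 3) .nil)))) .nil)) 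
(.lf (nat_lit 259698) (.g (nat_lit 2075) (.e (nat_lit 164398) (nat_lit 256) (.e (nat_lit 57400) (nat_lit 10) (.e (nat_lit 319534) (nat_lit 16) (.e (nat_lit 286761) (nat_lit 13) (.e (nat_lit 393275) (nat_lit 23) .nil))))) .nil))))) (.nd (nat_lit 4) (.nd (nat_lit 5) (.nd (nat_lit 6) 
(.lf (nat_lit 259594) (.g (nat_lit 2131) (.e (nat_lit 164398) (nat_lit 256) (.e (nat_lit 57372) (nat_lit 2) (.e (nat_lit 90185) (nat_lit 17) (.e (nat_lit 237623) (nat_lit 13) (.e (nat_lit 483341) (nat_lit 9) .nil))))) .nil)) 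
(.lf (nat_lit 259658) (.g (nat_lit 3184) (.e (nat_lit 164398) (nat_lit 256) (.e (nat_lit 57378) (nat_lit 3) (.e (nat_lit 98373) (nat_lit 29) (.e (nat_lit 450603) (nat_lit 22) (.e (nat_lit 712448) (nat_lit 4) .nil))))) .nil))) (.nd (nat_lit 6) 
(.lf (nat_lit 259626) (.g (nat_lit 1010) (.e (nat_lit 164398) (nat_lit 256) (.e (nat_lit 57375) (nat_lit 2) (.e (nat_lit 90177) (nat_lit 15) (.e (nat_lit 188461) (nat_lit 26) .nil)))) .nil)) 
(.lf (nat_lit 259690) (.g (nat_lit 1944) (.e (nat_lit 164398) (nat_lit 256) (.e (nat_lit 57400) (nat_lit 10) (.e (nat_lit 319533) (nat_lit 16) (.e (nat_lit 286748) (nat_lit 9) .nil)))) .nil)))) (.nd (nat_lit 5) (.nd (nat_lit 6) 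
(.lf (nat_lit 259610) (.g (nat_lit 1952) (.e (nat_lit 164398) (nat_lit 256) (.e (nat_lit 57374) (nat_lit 2) (.e (nat_lit 90170) (nat_lit 13) (.e (nat_lit 172065) (nat_lit 3) .nil)))) .nil)) 
(.lf (nat_lit 259674) (.g (nat_lit 3621) (.e (nat_lit 164398) (nat_lit 256) (.e (nat_lit 57379) (nat_lit 3) (.e (nat_lit 98373) (nat_lit 29) (.e (nat_lit 450562) (nat_lit 0) (.e (nat_lit 6065) (nat_lit 328) .nil))))) .nil))) (.nd (nat_lit 6) 
(.lf (nat_lit 259642) (.g (nat_lit 918) (.e (nat_lit 164398) (nat_lit 256) (.e (nat_lit 57378) (nat_lit 3) (.e (nat_lit 98373) (nat_lit 29) .nil))) .nil)) 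
(.lf (nat_lit 259706) (.g (nat_lit 2588) (.e (nat_lit 164398) (nat_lit 256) (.e (nat_lit 57408) (nat_lit 12) (.e (nat_lit 336443) (nat_lit 32) (.e (nat_lit 466977) (nat_lit 22) (.e (nat_lit 196656) (nat_lit 11) (.e (nat_lit 16406) (nat_lit 1) .nil)))))) (.g (nat_lit 5) .nil .nil))))))) (.nd (nat_lit 3) (.nd (nat_lit 4) (.nd (nat_lit 5) (.nd (nat_lit 6) 
(.lf (nat_lit 259590) (.g (nat_lit 1862) (.e (nat_lit 164398) (nat_lit 256) (.e (nat_lit 57372) (nat_lit 2) (.e (nat_lit 90176) (nat_lit 15) (.e (nat_lit 188421) (nat_lit 11) .nil)))) .nil)) 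
(.lf (nat_lit 259654) (.g (nat_lit 2903) (.e (nat_lit 164398) (nat_lit 256) (.e (nat_lit 57378) (nat_lit 3) (.e (nat_lit 98373) (nat_lit 29) (.e (nat_lit 450602) (nat_lit 22) (.e (nat_lit 712448) (nat_lit 0) .nil))))) .nil))) (.nd (nat_lit 6) 
(.lf (nat_lit 259622) (.g (nat_lit 2259) (.e (nat_lit 164398) (nat_lit 256) (.e (nat_lit 57375) (nat_lit 2) (.e (nat_lit 90172) (nat_lit 14) (.e (nat_lit 180244) (nat_lit 5) (.e (nat_lit 532515) (nat_lit 3) (.e (nat_lit 114716) (nat_lit 22) (.e (nat_lit 90129) (nat_lit 9) (.e (nat_lit 2603) (nat_lit 163) .nil)))))))) (.g (nat_lit 4) .nil .nil))) 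
(.lf (nat_lit 259686) (.g (nat_lit 2264) (.e (nat_lit 164398) (nat_lit 256) (.e (nat_lit 57399) (nat_lit 10) (.e (nat_lit 319534) (nat_lit 16) (.e (nat_lit 286749) (nat_lit 9) (.e (nat_lit 343808) (nat_lit 27) .nil))))) .nil)))) (.nd (nat_lit 5) (.nd (nat_lit 6) 
(.lf (nat_lit 259606) (.g (nat_lit 3126) (.e (nat_lit 164398) (nat_lit 256) (.e (nat_lit 57373) (nat_lit 2) (.e (nat_lit 90172) (nat_lit 14) (.e (nat_lit 180244) (nat_lit 5) (.e (nat_lit 532515) (nat_lit 3) (.e (nat_lit 114716) (nat_lit 22) (.e (nat_lit 90128) (nat_lit 9) (.e (nat_lit 2615) (nat_lit 163) .nil)))))))) (.g (nat_lit 6) .nil .nil))) 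
(.lf (nat_lit 259670) (.g (nat_lit 1795) (.e (nat_lit 164398) (nat_lit 256) (.e (nat_lit 57379) (nat_lit 3) (.e (nat_lit 98359) (nat_lit 26) (.e (nat_lit 426331) (nat_lit 13) .nil)))) .nil))) (.nd (nat_lit 6) 
(.lf (nat_lit 259638) (.g (nat_lit 2332) (.e (nat_lit 164398) (nat_lit 256) (.e (nat_lit 57378) (nat_lit 3) (.e (nat_lit 98366) (nat_lit 27) (.e (nat_lit 434231) (nat_lit 23) (.e (nat_lit 532506) (nat_lit 2) .nil))))) .nil)) 
(.lf (nat_lit 259702) (.g (nat_lit 3139) (.e (nat_lit 164398) (nat_lit 256) (.e (nat_lit 57406) (nat_lit 12) (.e (nat_lit 336443) (nat_lit 32) (.e (nat_lit 466977) (nat_lit 22) (.e (nat_lit 196656) (nat_lit 11) (.e (nat_lit 16406) (nat_lit 1) .nil)))))) (.g (nat_lit 5) .nil .nil)))))) (.nd (nat_lit 4) (.nd (nat_lit 5) (.nd (nat_lit 6) 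
(.lf (nat_lit 259598) (.g (nat_lit 2216) (.e (nat_lit 164398) (nat_lit 256) (.e (nat_lit 57373) (nat_lit 2) (.e (nat_lit 90170) (nat_lit 13) (.e (nat_lit 172085) (nat_lit 9) (.e (nat_lit 426568) (nat_lit 34) .nil))))) .nil)) 
(.lf (nat_lit 259662) (.g (nat_lit 1893) (.e (nat_lit 164398) (nat_lit 256) (.e (nat_lit 57378) (nat_lit 3) (.e (nat_lit 98373) (nat_lit 29) (.e (nat_lit 458496) (nat_lit 23) .nil)))) .nil))) (.nd (nat_lit 6) 
(.lf (nat_lit 259630) (.g (nat_lit 2543) (.e (nat_lit 164398) (nat_lit 256) (.e (nat_lit 57376) (nat_lit 3) (.e (nat_lit 98367) (nat_lit 27) (.e (nat_lit 434231) (nat_lit 23) (.e (nat_lit 532514) (nat_lit 3) (.e (nat_lit 114708) (nat_lit 20) (.e (nat_lit 1800) (nat_lit 119) (.e (nat_lit 516117) (nat_lit 1) .nil)))))))) (.g (nat_lit 4) .nil .nil))) 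
(.lf (nat_lit 259694) (.g (nat_lit 2356) (.e (nat_lit 164398) (nat_lit 256) (.e (nat_lit 57400) (nat_lit 10) (.e (nat_lit 319533) (nat_lit 16) (.e (nat_lit 286761) (nat_lit 13) (.e (nat_lit 393281) (nat_lit 23) .nil))))) .nil)))) (.nd (nat_lit 5) (.nd (nat_lit 6) 
(.lf (nat_lit 259614) (.g (nat_lit 2914) (.e (nat_lit 164398) (nat_lit 256) (.e (nat_lit 57374) (nat_lit 2) (.e (nat_lit 90170) (nat_lit 13) (.e (nat_lit 172085) (nat_lit 9) (.e (nat_lit 426568) (nat_lit 34) .nil))))) .nil)) 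
(.lf (nat_lit 259678) (.g (nat_lit 2044) (.e (nat_lit 164398) (nat_lit 256) (.e (nat_lit 57379) (nat_lit 3) (.e (nat_lit 98377) (nat_lit 30) (.e (nat_lit 458789) (nat_lit 23) (.e (nat_lit 532515) (nat_lit 3) (.e (nat_lit 114716) (nat_lit 22) (.e (nat_lit 90128) (nat_lit 9) (.e (nat_lit 2615) (nat_lit 163) .nil)))))))) (.g (nat_lit 4) .nil .nil)))) (.nd (nat_lit 6) 
(.lf (nat_lit 259646) (.g (nat_lit 4929) (.e (nat_lit 164398) (nat_lit 256) (.e (nat_lit 57378) (nat_lit 3) (.e (nat_lit 98373) (nat_lit 29) (.e (nat_lit 450562) (nat_lit 0) (.e (nat_lit 6065) (nat_lit 328) (.e (nat_lit 57588) (nat_lit 73) (.e (nat_lit 426100) (nat_lit 1) .nil))))))) (.g (nat_lit 4) .nil .nil))) 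
(.lf (nat_lit 259710) (.g (nat_lit 3050) (.e (nat_lit 164398) (nat_lit 256) (.e (nat_lit 57411) (nat_lit 12) (.e (nat_lit 336443) (nat_lit 32) (.e (nat_lit 466974) (nat_lit 22) (.e (nat_lit 196654) (nat_lit 11) (.e (nat_lit 16406) (nat_lit 1) .nil)))))) (.g (nat_lit 0) .nil .nil))))))))) (.nd (nat_lit 1) (.nd (nat_lit 2) (.nd (nat_lit 3) (.nd (nat_lit 4) (.nd (nat_lit 5) (.nd (nat_lit 6) 
(.lf (nat_lit 259585) (.g (nat_lit 3597) (.e (nat_lit 164398) (nat_lit 256) (.e (nat_lit 57372) (nat_lit 2) (.e (nat_lit 90172) (nat_lit 14) (.e (nat_lit 180244) (nat_lit 5) (.e (nat_lit 532515) (nat_lit 3) (.e (nat_lit 114719) (nat_lit 23) (.e (nat_lit 98332) (nat_lit 18) .nil))))))) (.g (nat_lit 6) .nil .nil))) 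
(.lf (nat_lit 259649) (.g (nat_lit 4336) (.e (nat_lit 164398) (nat_lit 256) (.e (nat_lit 57378) (nat_lit 3) (.e (nat_lit 98373) (nat_lit 29) (.e (nat_lit 450563) (nat_lit 0) (.e (nat_lit 6063) (nat_lit 328) .nil))))) .nil))) (.nd (nat_lit 6) 
(.lf (nat_lit 259617) (.g (nat_lit 2155) (.e (nat_lit 164398) (nat_lit 256) (.e (nat_lit 57374) (nat_lit 2) (.e (nat_lit 90170) (nat_lit 13) (.e (nat_lit 172095) (nat_lit 9) .nil)))) .nil)) 
(.lf (nat_lit 259681) (.g (nat_lit 641) (.e (nat_lit 164398) (nat_lit 256) (.e (nat_lit 57389) (nat_lit 5) (.e (nat_lit 114716) (nat_lit 22) .nil))) .nil)))) (.nd (nat_lit 5) (.nd (nat_lit 6) 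
(.lf (nat_lit 259601) (.g (nat_lit 1628) (.e (nat_lit 164398) (nat_lit 256) (.e (nat_lit 57373) (nat_lit 2) (.e (nat_lit 90170) (nat_lit 13) (.e (nat_lit 172095) (nat_lit 9) .nil)))) .nil)) 
(.lf (nat_lit 259665) (.g (nat_lit 1134) (.e (nat_lit 164398) (nat_lit 256) (.e (nat_lit 57378) (nat_lit 3) (.e (nat_lit 98384) (nat_lit 32) .nil))) .nil))) (.nd (nat_lit 6) 
(.lf (nat_lit 259633) (.g (nat_lit 1952) (.e (nat_lit 164398) (nat_lit 256) (.e (nat_lit 57378) (nat_lit 3) (.e (nat_lit 98356) (nat_lit 26) (.e (nat_lit 426438) (nat_lit 18) .nil)))) .nil)) 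
(.lf (nat_lit 259697) (.g (nat_lit 2895) (.e (nat_lit 164398) (nat_lit 256) (.e (nat_lit 57400) (nat_lit 10) (.e (nat_lit 319534) (nat_lit 16) (.e (nat_lit 286761) (nat_lit 13) (.e (nat_lit 393270) (nat_lit 23) (.e (nat_lit 426111) (nat_lit 1) .nil)))))) (.g (nat_lit 5) .nil .nil)))))) (.nd (nat_lit 4) (.nd (nat_lit 5) (.nd (nat_lit 6) 
(.lf (nat_lit 259593) (.g (nat_lit 1151) (.e (nat_lit 164398) (nat_lit 256) (.e (nat_lit 57372) (nat_lit 2) (.e (nat_lit 90185) (nat_lit 17) (.e (nat_lit 237605) (nat_lit 9) .nil)))) .nil)) 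
(.lf (nat_lit 259657) (.g (nat_lit 3184) (.e (nat_lit 164398) (nat_lit 256) (.e (nat_lit 57378) (nat_lit 3) (.e (nat_lit 98373) (nat_lit 29) (.e (nat_lit 450603) (nat_lit 22) (.e (nat_lit 712448) (nat_lit 0) .nil))))) .nil))) (.nd (nat_lit 6) 
(.lf (nat_lit 259625) (.g (nat_lit 1831) (.e (nat_lit 164398) (nat_lit 256) (.e (nat_lit 57375) (nat_lit 2) (.e (nat_lit 90174) (nat_lit 14) (.e (nat_lit 180243) (nat_lit 5) (.e (nat_lit 532515) (nat_lit 3) (.e (nat_lit 114716) (nat_lit 22) (.e (nat_lit 90129) (nat_lit 9) (.e (nat_lit 2603) (nat_lit 163) .nil)))))))) (.g (nat_lit 4) .nil .nil))) 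
(.lf (nat_lit 259689) (.g (nat_lit 2705) (.e (nat_lit 164398) (nat_lit 256) (.e (nat_lit 57400) (nat_lit 10) (.e (nat_lit 319531) (nat_lit 16) (.e (nat_lit 286761) (nat_lit 13) (.e (nat_lit 393270) (nat_lit 23) (.e (nat_lit 426111) (nat_lit 1) .nil)))))) (.g (nat_lit 5) .nil .nil))))) (.nd (nat_lit 5) (.nd (nat_lit 6) 
(.lf (nat_lit 259609) (.g (nat_lit 5021) (.e (nat_lit 164398) (nat_lit 256) (.e (nat_lit 57373) (nat_lit 2) (.e (nat_lit 90174) (nat_lit 14) (.e (nat_lit 180243) (nat_lit 5) (.e (nat_lit 532513) (nat_lit 3) (.e (nat_lit 114719) (nat_lit 23) (.e (nat_lit 98333) (nat_lit 18) .nil))))))) (.g (nat_lit 0) .nil .nil))) 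
(.lf (nat_lit 259673) (.g (nat_lit 781) (.e (nat_lit 164398) (nat_lit 256) (.e (nat_lit 57379) (nat_lit 3) (.e (nat_lit 98373) (nat_lit 29) .nil))) .nil))) (.nd (nat_lit 6) 
(.lf (nat_lit 259641) (.g (nat_lit 1130) (.e (nat_lit 164398) (nat_lit 256) (.e (nat_lit 57378) (nat_lit 3) (.e (nat_lit 98372) (nat_lit 29) .nil))) .nil)) 
(.lf (nat_lit 259705) (.g (nat_lit 2447) (.e (nat_lit 164398) (nat_lit 256) (.e (nat_lit 57408) (nat_lit 12) (.e (nat_lit 336443) (nat_lit 32) (.e (nat_lit 466974) (nat_lit 22) (.e (nat_lit 196656) (nat_lit 11) (.e (nat_lit 16406) (nat_lit 1) .nil)))))) (.g (nat_lit 5) .nil .nil))))))) (.nd (nat_lit 3) (.nd (nat_lit 4) (.nd (nat_lit 5) (.nd (nat_lit 6) 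
(.lf (nat_lit 259589) (.g (nat_lit 2010) (.e (nat_lit 164398) (nat_lit 256) (.e (nat_lit 57372) (nat_lit 2) (.e (nat_lit 90174) (nat_lit 14) (.e (nat_lit 180243) (nat_lit 5) (.e (nat_lit 532515) (nat_lit 3) .nil))))) .nil)) 
(.lf (nat_lit 259653) (.g (nat_lit 2207) (.e (nat_lit 164398) (nat_lit 256) (.e (nat_lit 57378) (nat_lit 3) (.e (nat_lit 98373) (nat_lit 29) (.e (nat_lit 450602) (nat_lit 22) .nil)))) .nil))) (.nd (nat_lit 6) 
(.lf (nat_lit 259621) (.g (nat_lit 1715) (.e (nat_lit 164398) (nat_lit 256) (.e (nat_lit 57375) (nat_lit 2) (.e (nat_lit 90172) (nat_lit 14) (.e (nat_lit 180244) (nat_lit 5) (.e (nat_lit 532515) (nat_lit 3) .nil))))) .nil)) 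
(.lf (nat_lit 259685) (.g (nat_lit 2074) (.e (nat_lit 164398) (nat_lit 256) (.e (nat_lit 57399) (nat_lit 10) (.e (nat_lit 319530) (nat_lit 16) (.e (nat_lit 286761) (nat_lit 13) (.e (nat_lit 393275) (nat_lit 23) (.e (nat_lit 426103) (nat_lit 1) .nil)))))) (.g (nat_lit 4) .nil .nil))))) (.nd (nat_lit 5) (.nd (nat_lit 6) 
(.lf (nat_lit 259605) (.g (nat_lit 1618) (.e (nat_lit 164398) (nat_lit 256) (.e (nat_lit 57373) (nat_lit 2) (.e (nat_lit 90172) (nat_lit 14) (.e (nat_lit 180244) (nat_lit 5) (.e (nat_lit 532515) (nat_lit 3) .nil))))) .nil)) 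
(.lf (nat_lit 259669) (.g (nat_lit 1790) (.e (nat_lit 164398) (nat_lit 256) (.e (nat_lit 57379) (nat_lit 3) (.e (nat_lit 98359) (nat_lit 26) (.e (nat_lit 426132) (nat_lit 3) .nil)))) .nil))) (.nd (nat_lit 6) 
(.lf (nat_lit 259637) (.g (nat_lit 1266) (.e (nat_lit 164398) (nat_lit 256) (.e (nat_lit 57378) (nat_lit 3) (.e (nat_lit 98366) (nat_lit 27) (.e (nat_lit 434231) (nat_lit 23) .nil)))) .nil)) 
(.lf (nat_lit 259701) (.g (nat_lit 3040) (.e (nat_lit 164398) (nat_lit 256) (.e (nat_lit 57406) (nat_lit 12) (.e (nat_lit 336443) (nat_lit 32) (.e (nat_lit 466974) (nat_lit 22) (.e (nat_lit 196656) (nat_lit 11) (.e (nat_lit 16406) (nat_lit 1) .nil)))))) (.g (nat_lit 5) .nil .nil)))))) (.nd (nat_lit 4) (.nd (nat_lit 5) (.nd (nat_lit 6) 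
(.lf (nat_lit 259597) (.g (nat_lit 2479) (.e (nat_lit 164398) (nat_lit 256) (.e (nat_lit 57373) (nat_lit 2) (.e (nat_lit 90170) (nat_lit 13) (.e (nat_lit 172067) (nat_lit 3) (.e (nat_lit 204834) (nat_lit 19) .nil))))) .nil)) 
(.lf (nat_lit 259661) (.g (nat_lit 3258) (.e (nat_lit 164398) (nat_lit 256) (.e (nat_lit 57378) (nat_lit 3) (.e (nat_lit 98373) (nat_lit 29) (.e (nat_lit 450604) (nat_lit 22) (.e (nat_lit 712448) (nat_lit 4) .nil))))) .nil))) (.nd (nat_lit 6) 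
(.lf (nat_lit 259629) (.g (nat_lit 3627) (.e (nat_lit 164398) (nat_lit 256) (.e (nat_lit 57376) (nat_lit 3) (.e (nat_lit 98367) (nat_lit 27) (.e (nat_lit 434231) (nat_lit 23) (.e (nat_lit 532483) (nat_lit 0) (.e (nat_lit 2198) (nat_lit 144) (.e (nat_lit 720945) (nat_lit 23) (.e (nat_lit 98334) (nat_lit 18) .nil)))))))) (.g (nat_lit 4) .nil .nil))) 
(.lf (nat_lit 259693) (.g (nat_lit 2608) (.e (nat_lit 164398) (nat_lit 256) (.e (nat_lit 57400) (nat_lit 10) (.e (nat_lit 319533) (nat_lit 16) (.e (nat_lit 286761) (nat_lit 13) (.e (nat_lit 393280) (nat_lit 23) .nil))))) .nil)))) (.nd (nat_lit 5) (.nd (nat_lit 6) 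
(.lf (nat_lit 259613) (.g (nat_lit 2392) (.e (nat_lit 164398) (nat_lit 256) (.e (nat_lit 57374) (nat_lit 2) (.e (nat_lit 90170) (nat_lit 13) (.e (nat_lit 172085) (nat_lit 9) .nil)))) .nil)) 
(.lf (nat_lit 259677) (.g (nat_lit 2068) (.e (nat_lit 164398) (nat_lit 256) (.e (nat_lit 57379) (nat_lit 3) (.e (nat_lit 98376) (nat_lit 30) (.e (nat_lit 458789) (nat_lit 23) (.e (nat_lit 532515) (nat_lit 3) (.e (nat_lit 114716) (nat_lit 22) (.e (nat_lit 90137) (nat_lit 9) (.e (nat_lit 2599) (nat_lit 163) .nil)))))))) (.g (nat_lit 5) .nil .nil)))) (.nd (nat_lit 6) 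
(.lf (nat_lit 259645) (.g (nat_lit 4342) (.e (nat_lit 164398) (nat_lit 256) (.e (nat_lit 57378) (nat_lit 3) (.e (nat_lit 98373) (nat_lit 29) (.e (nat_lit 450562) (nat_lit 0) (.e (nat_lit 6065) (nat_lit 328) .nil))))) .nil)) 
(.lf (nat_lit 259709) (.g (nat_lit 2376) (.e (nat_lit 164398) (nat_lit 256) (.e (nat_lit 57410) (nat_lit 12) (.e (nat_lit 336443) (nat_lit 32) (.e (nat_lit 466977) (nat_lit 22) (.e (nat_lit 196656) (nat_lit 11) (.e (nat_lit 16406) (nat_lit 1) .nil)))))) (.g (nat_lit 4) .nil .nil)))))))) (.nd (nat_lit 2) (.nd (nat_lit 3) (.nd (nat_lit 4) (.nd (nat_lit 5) (.nd (nat_lit 6) 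
(.lf (nat_lit 259587) (.g (nat_lit 2149) (.e (nat_lit 164398) (nat_lit 256) (.e (nat_lit 57372) (nat_lit 2) (.e (nat_lit 90174) (nat_lit 14) (.e (nat_lit 180243) (nat_lit 5) (.e (nat_lit 532508) (nat_lit 2) .nil))))) .nil)) 
(.lf (nat_lit 259651) (.g (nat_lit 4206) (.e (nat_lit 164398) (nat_lit 256) (.e (nat_lit 57378) (nat_lit 3) (.e (nat_lit 98373) (nat_lit 29) (.e (nat_lit 450563) (nat_lit 0) (.e (nat_lit 6595) (nat_lit 351) .nil))))) .nil))) (.nd (nat_lit 6) 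
(.lf (nat_lit 259619) (.g (nat_lit 1080) (.e (nat_lit 164398) (nat_lit 256) (.e (nat_lit 57375) (nat_lit 2) (.e (nat_lit 90172) (nat_lit 14) (.e (nat_lit 180244) (nat_lit 5) .nil)))) .nil)) 
(.lf (nat_lit 259683) (.g (nat_lit 2041) (.e (nat_lit 164398) (nat_lit 256) (.e (nat_lit 57390) (nat_lit 5) (.e (nat_lit 114716) (nat_lit 22) (.e (nat_lit 90158) (nat_lit 11) (.e (nat_lit 24651) (nat_lit 12) (.e (nat_lit 385066) (nat_lit 26) (.e (nat_lit 540416) (nat_lit 18) .nil))))))) (.g (nat_lit 4) .nil .nil))))) (.nd (nat_lit 5) (.nd (nat_lit 6) 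
(.lf (nat_lit 259603) (.g (nat_lit 1143) (.e (nat_lit 164398) (nat_lit 256) (.e (nat_lit 57373) (nat_lit 2) (.e (nat_lit 90172) (nat_lit 14) (.e (nat_lit 180244) (nat_lit 5) .nil)))) .nil)) 
(.lf (nat_lit 259667) (.g (nat_lit 1130) (.e (nat_lit 164398) (nat_lit 256) (.e (nat_lit 57378) (nat_lit 3) (.e (nat_lit 98386) (nat_lit 32) .nil))) .nil))) (.nd (nat_lit 6) 
(.lf (nat_lit 259635) (.g (nat_lit 1310) (.e (nat_lit 164398) (nat_lit 256) (.e (nat_lit 57378) (nat_lit 3) (.e (nat_lit 98359) (nat_lit 26) (.e (nat_lit 426324) (nat_lit 13) .nil)))) .nil)) 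
(.lf (nat_lit 259699) (.g (nat_lit 2358) (.e (nat_lit 164398) (nat_lit 256) (.e (nat_lit 57400) (nat_lit 10) (.e (nat_lit 319534) (nat_lit 16) (.e (nat_lit 286761) (nat_lit 13) (.e (nat_lit 393280) (nat_lit 23) .nil))))) .nil))))) (.nd (nat_lit 4) (.nd (nat_lit 5) (.nd (nat_lit 6) 
(.lf (nat_lit 259595) (.g (nat_lit 629) (.e (nat_lit 164398) (nat_lit 256) (.e (nat_lit 57373) (nat_lit 2) (.e (nat_lit 90167) (nat_lit 13) .nil))) .nil)) 
(.lf (nat_lit 259659) (.g (nat_lit 2443) (.e (nat_lit 164398) (nat_lit 256) (.e (nat_lit 57378) (nat_lit 3) (.e (nat_lit 98373) (nat_lit 29) (.e (nat_lit 450604) (nat_lit 22) .nil)))) .nil))) (.nd (nat_lit 6) 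
(.lf (nat_lit 259627) (.g (nat_lit 3474) (.e (nat_lit 164398) (nat_lit 256) (.e (nat_lit 57375) (nat_lit 2) (.e (nat_lit 90185) (nat_lit 17) (.e (nat_lit 237601) (nat_lit 9) (.e (nat_lit 426566) (nat_lit 34) (.e (nat_lit 393251) (nat_lit 18) .nil)))))) (.g (nat_lit 0) .nil .nil))) 
(.lf (nat_lit 259691) (.g (nat_lit 1304) (.e (nat_lit 164398) (nat_lit 256) (.e (nat_lit 57400) (nat_lit 10) (.e (nat_lit 319533) (nat_lit 16) (.e (nat_lit 286760) (nat_lit 13) .nil)))) .nil)))) (.nd (nat_lit 5) (.nd (nat_lit 6) 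
(.lf (nat_lit 259611) (.g (nat_lit 1753) (.e (nat_lit 164398) (nat_lit 256) (.e (nat_lit 57374) (nat_lit 2) (.e (nat_lit 90170) (nat_lit 13) (.e (nat_lit 172067) (nat_lit 3) .nil)))) .nil)) 
(.lf (nat_lit 259675) (.g (nat_lit 3593) (.e (nat_lit 164398) (nat_lit 256) (.e (nat_lit 57379) (nat_lit 3) (.e (nat_lit 98373) (nat_lit 29) (.e (nat_lit 450563) (nat_lit 0) (.e (nat_lit 6065) (nat_lit 328) .nil))))) .nil))) (.nd (nat_lit 6) 
(.lf (nat_lit 259643) (.g (nat_lit 2578) (.e (nat_lit 164398) (nat_lit 256) (.e (nat_lit 57378) (nat_lit 3) (.e (nat_lit 98373) (nat_lit 29) (.e (nat_lit 450560) (nat_lit 0) .nil)))) .nil)) 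
(.lf (nat_lit 259707) (.g (nat_lit 1096) (.e (nat_lit 164398) (nat_lit 256) (.e (nat_lit 57409) (nat_lit 12) (.e (nat_lit 336438) (nat_lit 31) (.e (nat_lit 466688) (nat_lit 3) .nil)))) .nil)))))) (.nd (nat_lit 3) (.nd (nat_lit 4) (.nd (nat_lit 5) (.nd (nat_lit 6) 
(.lf (nat_lit 259591) (.g (nat_lit 1240) (.e (nat_lit 164398) (nat_lit 256) (.e (nat_lit 57372) (nat_lit 2) (.e (nat_lit 90178) (nat_lit 15) (.e (nat_lit 196352) (nat_lit 11) .nil)))) .nil)) 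
(.lf (nat_lit 259655) (.g (nat_lit 2397) (.e (nat_lit 164398) (nat_lit 256) (.e (nat_lit 57378) (nat_lit 3) (.e (nat_lit 98373) (nat_lit 29) (.e (nat_lit 450603) (nat_lit 22) .nil)))) .nil))) (.nd (nat_lit 6) 
(.lf (nat_lit 259623) (.g (nat_lit 706) (.e (nat_lit 164398) (nat_lit 256) (.e (nat_lit 57375) (nat_lit 2) (.e (nat_lit 90174) (nat_lit 14) (.e (nat_lit 180243) (nat_lit 5) .nil)))) .nil)) 
(.lf (nat_lit 259687) (.g (nat_lit 1148) (.e (nat_lit 164398) (nat_lit 256) (.e (nat_lit 57400) (nat_lit 10) (.e (nat_lit 319505) (nat_lit 10) (.e (nat_lit 815) (nat_lit 68) .nil)))) .nil)))) (.nd (nat_lit 5) (.nd (nat_lit 6) 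
(.lf (nat_lit 259607) (.g (nat_lit 1139) (.e (nat_lit 164398) (nat_lit 256) (.e (nat_lit 57373) (nat_lit 2) (.e (nat_lit 90174) (nat_lit 14) (.e (nat_lit 180243) (nat_lit 5) .nil)))) .nil)) 
(.lf (nat_lit 259671) (.g (nat_lit 2992) (.e (nat_lit 164398) (nat_lit 256) (.e (nat_lit 57379) (nat_lit 3) (.e (nat_lit 98367) (nat_lit 27) (.e (nat_lit 434231) (nat_lit 23) (.e (nat_lit 532507) (nat_lit 2) (.e (nat_lit 106540) (nat_lit 13) (.e (nat_lit 122936) (nat_lit 23) (.e (nat_lit 516117) (nat_lit 1) .nil)))))))) (.g (nat_lit 4) .nil .nil)))) (.nd (nat_lit 6) 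
(.lf (nat_lit 259639) (.g (nat_lit 1990) (.e (nat_lit 164398) (nat_lit 256) (.e (nat_lit 57378) (nat_lit 3) (.e (nat_lit 98366) (nat_lit 27) (.e (nat_lit 434231) (nat_lit 23) (.e (nat_lit 532507) (nat_lit 2) .nil))))) .nil)) 
(.lf (nat_lit 259703) (.g (nat_lit 845) (.e (nat_lit 164398) (nat_lit 256) (.e (nat_lit 57407) (nat_lit 12) (.e (nat_lit 336426) (nat_lit 29) .nil))) .nil))))) (.nd (nat_lit 4) (.nd (nat_lit 5) (.nd (nat_lit 6) 
(.lf (nat_lit 259599) (.g (nat_lit 1785) (.e (nat_lit 164398) (nat_lit 256) (.e (nat_lit 57373) (nat_lit 2) (.e (nat_lit 90170) (nat_lit 13) (.e (nat_lit 172088) (nat_lit 9) .nil)))) .nil)) 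
(.lf (nat_lit 259663) (.g (nat_lit 1130) (.e (nat_lit 164398) (nat_lit 256) (.e (nat_lit 57378) (nat_lit 3) (.e (nat_lit 98374) (nat_lit 29) .nil))) .nil))) (.nd (nat_lit 6) 
(.lf (nat_lit 259631) (.g (nat_lit 2003) (.e (nat_lit 164398) (nat_lit 256) (.e (nat_lit 57377) (nat_lit 3) (.e (nat_lit 98356) (nat_lit 26) (.e (nat_lit 426131) (nat_lit 3) .nil)))) .nil)) 
(.lf (nat_lit 259695) (.g (nat_lit 2115) (.e (nat_lit 164398) (nat_lit 256) (.e (nat_lit 57400) (nat_lit 10) (.e (nat_lit 319534) (nat_lit 16) (.e (nat_lit 286749) (nat_lit 9) (.e (nat_lit 336388) (nat_lit 27) .nil))))) .nil)))) (.nd (nat_lit 5) (.nd (nat_lit 6) 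
(.lf (nat_lit 259615) (.g (nat_lit 2037) (.e (nat_lit 164398) (nat_lit 256) (.e (nat_lit 57374) (nat_lit 2) (.e (nat_lit 90170) (nat_lit 13) (.e (nat_lit 172088) (nat_lit 9) .nil)))) .nil)) 
(.lf (nat_lit 259679) (.g (nat_lit 1726) (.e (nat_lit 164398) (nat_lit 256) (.e (nat_lit 57379) (nat_lit 3) (.e (nat_lit 98377) (nat_lit 30) (.e (nat_lit 458789) (nat_lit 23) (.e (nat_lit 532515) (nat_lit 3) (.e (nat_lit 114716) (nat_lit 22) (.e (nat_lit 90129) (nat_lit 9) (.e (nat_lit 2603) (nat_lit 163) .nil)))))))) (.g (nat_lit 4) .nil .nil)))) (.nd (nat_lit 6) 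
(.lf (nat_lit 259647) (.g (nat_lit 4143) (.e (nat_lit 164398) (nat_lit 256) (.e (nat_lit 57378) (nat_lit 3) (.e (nat_lit 98373) (nat_lit 29) (.e (nat_lit 450562) (nat_lit 0) (.e (nat_lit 6595) (nat_lit 351) .nil))))) .nil)) 
(.lf (nat_lit 259711) (.g (nat_lit 3137) (.e (nat_lit 164398) (nat_lit 256) (.e (nat_lit 57411) (nat_lit 12) (.e (nat_lit 336443) (nat_lit 32) (.e (nat_lit 466977) (nat_lit 22) (.e (nat_lit 196654) (nat_lit 11) (.e (nat_lit 16406) (nat_lit 1) .nil)))))) (.g (nat_lit 0) .nil .nil))))))))))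

noncomputable def tv3357 : DT := (.nd (nat_lit 0) (.nd (nat_lit 1) (.nd (nat_lit 2) (.nd (nat_lit 3) (.nd (nat_lit 4) (.nd (nat_lit 5) (.nd (nat_lit 6) 
(.lf (nat_lit 259712) (.g (nat_lit 2522) (.e (nat_lit 164398) (nat_lit 256) (.e (nat_lit 57412) (nat_lit 12) (.e (nat_lit 336061) (nat_lit 7) (.e (nat_lit 319531) (nat_lit 16) (.e (nat_lit 286767) (nat_lit 27) .nil))))) .nil)) 
(.lf (nat_lit 259776) (.g (nat_lit 2841) (.e (nat_lit 164398) (nat_lit 256) (.e (nat_lit 57448) (nat_lit 19) (.e (nat_lit 393281) (nat_lit 23) (.e (nat_lit 426124) (nat_lit 2) (.e (nat_lit 196656) (nat_lit 11) (.e (nat_lit 16406) (nat_lit 1) .nil)))))) (.g (nat_lit 5) .nil .nil)))) (.nd (nat_lit 6) 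
(.lf (nat_lit 259744) (.g (nat_lit 3137) (.e (nat_lit 164398) (nat_lit 256) (.e (nat_lit 57445) (nat_lit 19) (.e (nat_lit 393281) (nat_lit 23) (.e (nat_lit 426124) (nat_lit 2) (.e (nat_lit 196656) (nat_lit 11) (.e (nat_lit 16406) (nat_lit 1) .nil)))))) (.g (nat_lit 5) .nil .nil))) 
(.lf (nat_lit 259808) (.g (nat_lit 409) (.e (nat_lit 164399) (nat_lit 256) (.e (nat_lit 57372) (nat_lit 2) (.e (nat_lit 90167) (nat_lit 13) .nil))) .nil)))) (.nd (nat_lit 5) (.nd (nat_lit 6) 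
(.lf (nat_lit 259728) (.g (nat_lit 4352) (.e (nat_lit 164398) (nat_lit 256) (.e (nat_lit 57427) (nat_lit 15) (.e (nat_lit 360474) (nat_lit 8) (.e (nat_lit 557060) (nat_lit 0) (.e (nat_lit 1633) (nat_lit 114) (.e (nat_lit 385107) (nat_lit 51) (.e (nat_lit 794659) (nat_lit 21) .nil))))))) (.g (nat_lit 4) .nil .nil))) 
(.lf (nat_lit 259792) (.g (nat_lit 2433) (.e (nat_lit 164399) (nat_lit 256) (.e (nat_lit 57370) (nat_lit 2) (.e (nat_lit 90174) (nat_lit 14) (.e (nat_lit 180243) (nat_lit 5) (.e (nat_lit 532511) (nat_lit 2) (.e (nat_lit 106539) (nat_lit 12) (.e (nat_lit 57467) (nat_lit 23) (.e (nat_lit 516115) (nat_lit 1) .nil)))))))) (.g (nat_lit 4) .nil .nil)))) (.nd (nat_lit 6) 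
(.lf (nat_lit 259760) (.g (nat_lit 1098) (.e (nat_lit 164398) (nat_lit 256) (.e (nat_lit 57447) (nat_lit 19) (.e (nat_lit 393278) (nat_lit 23) .nil))) .nil)) 
(.lf (nat_lit 259824) (.g (nat_lit 961) (.e (nat_lit 164399) (nat_lit 256) (.e (nat_lit 57372) (nat_lit 2) (.e (nat_lit 90171) (nat_lit 14) .nil))) .nil))))) (.nd (nat_lit 4) (.nd (nat_lit 5) (.nd (nat_lit 6) 
(.lf (nat_lit 259720) (.g (nat_lit 1788) (.e (nat_lit 164398) (nat_lit 256) (.e (nat_lit 57424) (nat_lit 14) (.e (nat_lit 352315) (nat_lit 23) (.e (nat_lit 106240) (nat_lit 15) .nil)))) .nil)) 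
(.lf (nat_lit 259784) (.g (nat_lit 3099) (.e (nat_lit 164399) (nat_lit 256) (.e (nat_lit 57370) (nat_lit 2) (.e (nat_lit 90170) (nat_lit 13) (.e (nat_lit 172067) (nat_lit 3) (.e (nat_lit 204838) (nat_lit 20) (.e (nat_lit 114708) (nat_lit 20) (.e (nat_lit 1800) (nat_lit 119) (.e (nat_lit 516115) (nat_lit 1) .nil)))))))) (.g (nat_lit 4) .nil .nil)))) (.nd (nat_lit 6) 
(.lf (nat_lit 259752) (.g (nat_lit 1098) (.e (nat_lit 164398) (nat_lit 256) (.e (nat_lit 57447) (nat_lit 19) (.e (nat_lit 393268) (nat_lit 23) .nil))) .nil)) 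
(.lf (nat_lit 259816) (.g (nat_lit 2714) (.e (nat_lit 164399) (nat_lit 256) (.e (nat_lit 57372) (nat_lit 2) (.e (nat_lit 90167) (nat_lit 13) (.e (nat_lit 172067) (nat_lit 3) (.e (nat_lit 204834) (nat_lit 19) (.e (nat_lit 106539) (nat_lit 12) (.e (nat_lit 57465) (nat_lit 23) (.e (nat_lit 516115) (nat_lit 1) .nil)))))))) (.g (nat_lit 4) .nil .nil))))) (.nd (nat_lit 5) (.nd (nat_lit 6) 
(.lf (nat_lit 259736) (.g (nat_lit 701) (.e (nat_lit 164398) (nat_lit 256) (.e (nat_lit 57437) (nat_lit 17) (.e (nat_lit 376860) (nat_lit 21) .nil))) .nil)) 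
(.lf (nat_lit 259800) (.g (nat_lit 1506) (.e (nat_lit 164399) (nat_lit 256) (.e (nat_lit 57371) (nat_lit 2) (.e (nat_lit 90172) (nat_lit 14) (.e (nat_lit 180244) (nat_lit 5) .nil)))) .nil))) (.nd (nat_lit 6) 
(.lf (nat_lit 259768) (.g (nat_lit 1098) (.e (nat_lit 164398) (nat_lit 256) (.e (nat_lit 57447) (nat_lit 19) (.e (nat_lit 393293) (nat_lit 26) .nil))) .nil)) 
(.lf (nat_lit 259832) (.g (nat_lit 2874) (.e (nat_lit 164399) (nat_lit 256) (.e (nat_lit 57372) (nat_lit 2) (.e (nat_lit 90172) (nat_lit 14) (.e (nat_lit 180244) (nat_lit 5) (.e (nat_lit 532508) (nat_lit 2) (.e (nat_lit 106537) (nat_lit 12) (.e (nat_lit 57464) (nat_lit 23) (.e (nat_lit 516116) (nat_lit 1) .nil)))))))) (.g (nat_lit 4) .nil .nil))))))) 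
(.nd (nat_lit 3) (.nd (nat_lit 4) (.nd (nat_lit 5) (.nd (nat_lit 6) 
(.lf (nat_lit 259716) (.g (nat_lit 2629) (.e (nat_lit 164398) (nat_lit 256) (.e (nat_lit 57412) (nat_lit 12) (.e (nat_lit 336061) (nat_lit 7) (.e (nat_lit 319531) (nat_lit 16) (.e (nat_lit 286767) (nat_lit 27) (.e (nat_lit 426107) (nat_lit 1) (.e (nat_lit 164327) (nat_lit 230) (.e (nat_lit 163859) (nat_lit 1) .nil)))))))) (.g (nat_lit 4) .nil .nil))) 
(.lf (nat_lit 259780) (.g (nat_lit 1734) (.e (nat_lit 164399) (nat_lit 256) (.e (nat_lit 57370) (nat_lit 2) (.e (nat_lit 90170) (nat_lit 13) (.e (nat_lit 172065) (nat_lit 3) .nil)))) .nil))) (.nd (nat_lit 6) 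
(.lf (nat_lit 259748) (.g (nat_lit 1054) (.e (nat_lit 164398) (nat_lit 256) (.e (nat_lit 57447) (nat_lit 19) (.e (nat_lit 393238) (nat_lit 17) .nil))) .nil)) 
(.lf (nat_lit 259812) (.g (nat_lit 2802) (.e (nat_lit 164399) (nat_lit 256) (.e (nat_lit 57372) (nat_lit 2) (.e (nat_lit 90167) (nat_lit 13) (.e (nat_lit 172067) (nat_lit 3) (.e (nat_lit 204834) (nat_lit 19) (.e (nat_lit 106537) (nat_lit 12) (.e (nat_lit 57464) (nat_lit 23) (.e (nat_lit 516116) (nat_lit 1) .nil)))))))) (.g (nat_lit 4) .nil .nil))))) (.nd (nat_lit 5) (.nd (nat_lit 6) 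
(.lf (nat_lit 259732) (.g (nat_lit 2696) (.e (nat_lit 164398) (nat_lit 256) (.e (nat_lit 57427) (nat_lit 15) (.e (nat_lit 360474) (nat_lit 8) (.e (nat_lit 557091) (nat_lit 12) (.e (nat_lit 164003) (nat_lit 40) .nil))))) .nil)) 
(.lf (nat_lit 259796) (.g (nat_lit 1655) (.e (nat_lit 164399) (nat_lit 256) (.e (nat_lit 57370) (nat_lit 2) (.e (nat_lit 90185) (nat_lit 17) (.e (nat_lit 237603) (nat_lit 9) (.e (nat_lit 426568) (nat_lit 34) .nil))))) .nil))) (.nd (nat_lit 6) 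
(.lf (nat_lit 259764) (.g (nat_lit 1815) (.e (nat_lit 164398) (nat_lit 256) (.e (nat_lit 57447) (nat_lit 19) (.e (nat_lit 393283) (nat_lit 24) (.e (nat_lit 434231) (nat_lit 23) (.e (nat_lit 532578) (nat_lit 26) .nil))))) .nil)) 
(.lf (nat_lit 259828) (.g (nat_lit 2702) (.e (nat_lit 164399) (nat_lit 256) (.e (nat_lit 57372) (nat_lit 2) (.e (nat_lit 90172) (nat_lit 14) (.e (nat_lit 180243) (nat_lit 5) (.e (nat_lit 532515) (nat_lit 3) (.e (nat_lit 114716) (nat_lit 22) (.e (nat_lit 90137) (nat_lit 9) (.e (nat_lit 2599) (nat_lit 163) .nil)))))))) (.g (nat_lit 4) .nil .nil)))))) 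
(.nd (nat_lit 4) (.nd (nat_lit 5) (.nd (nat_lit 6) 
(.lf (nat_lit 259724) (.g (nat_lit 3809) (.e (nat_lit 164398) (nat_lit 256) (.e (nat_lit 57427) (nat_lit 15) (.e (nat_lit 360474) (nat_lit 8) (.e (nat_lit 557056) (nat_lit 0) .nil)))) .nil)) 
(.lf (nat_lit 259788) (.g (nat_lit 1781) (.e (nat_lit 164399) (nat_lit 256) (.e (nat_lit 57370) (nat_lit 2) (.e (nat_lit 90172) (nat_lit 14) (.e (nat_lit 180244) (nat_lit 5) (.e (nat_lit 532508) (nat_lit 2) .nil))))) .nil))) (.nd (nat_lit 6) 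
(.lf (nat_lit 259756) (.g (nat_lit 3926) (.e (nat_lit 164398) (nat_lit 256) (.e (nat_lit 57447) (nat_lit 19) (.e (nat_lit 393275) (nat_lit 23) (.e (nat_lit 426125) (nat_lit 2) (.e (nat_lit 196630) (nat_lit 9) (.e (nat_lit 430) (nat_lit 32) (.e (nat_lit 426098) (nat_lit 1) .nil))))))) (.g (nat_lit 5) .nil .nil))) 
(.lf (nat_lit 259820) (.g (nat_lit 961) (.e (nat_lit 164399) (nat_lit 256) (.e (nat_lit 57372) (nat_lit 2) (.e (nat_lit 90170) (nat_lit 13) .nil))) .nil)))) (.nd (nat_lit 5) (.nd (nat_lit 6) 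
(.lf (nat_lit 259740) (.g (nat_lit 2068) (.e (nat_lit 164398) (nat_lit 256) (.e (nat_lit 57437) (nat_lit 17) (.e (nat_lit 376865) (nat_lit 22) (.e (nat_lit 90160) (nat_lit 11) (.e (nat_lit 32512) (nat_lit 15) .nil))))) .nil)) 
(.lf (nat_lit 259804) (.g (nat_lit 2414) (.e (nat_lit 164399) (nat_lit 256) (.e (nat_lit 57371) (nat_lit 2) (.e (nat_lit 90174) (nat_lit 14) (.e (nat_lit 180243) (nat_lit 5) (.e (nat_lit 532510) (nat_lit 2) .nil))))) .nil))) (.nd (nat_lit 6) 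
(.lf (nat_lit 259772) (.g (nat_lit 1158) (.e (nat_lit 164398) (nat_lit 256) (.e (nat_lit 57448) (nat_lit 19) (.e (nat_lit 393270) (nat_lit 23) (.e (nat_lit 426131) (nat_lit 3) .nil)))) .nil)) 
(.lf (nat_lit 259836) (.g (nat_lit 4611) (.e (nat_lit 164399) (nat_lit 256) (.e (nat_lit 57372) (nat_lit 2) (.e (nat_lit 90172) (nat_lit 14) (.e (nat_lit 180244) (nat_lit 5) (.e (nat_lit 532515) (nat_lit 3) (.e (nat_lit 114719) (nat_lit 23) (.e (nat_lit 98334) (nat_lit 18) .nil))))))) (.g (nat_lit 7) .nil .nil)))))))) 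
(.nd (nat_lit 2) (.nd (nat_lit 3) (.nd (nat_lit 4) (.nd (nat_lit 5) (.nd (nat_lit 6) 
(.lf (nat_lit 259714) (.g (nat_lit 5392) (.e (nat_lit 164398) (nat_lit 256) (.e (nat_lit 57412) (nat_lit 12) (.e (nat_lit 336061) (nat_lit 7) (.e (nat_lit 319531) (nat_lit 16) (.e (nat_lit 286767) (nat_lit 27) (.e (nat_lit 426098) (nat_lit 1) (.e (nat_lit 164325) (nat_lit 230) (.e (nat_lit 163861) (nat_lit 1) .nil)))))))) (.g (nat_lit 8) .nil .nil))) 
(.lf (nat_lit 259778) (.g (nat_lit 4305) (.e (nat_lit 164399) (nat_lit 256) (.e (nat_lit 57354) (nat_lit 0) (.e (nat_lit 6114) (nat_lit 332) (.e (nat_lit 1370) (nat_lit 103) (.e (nat_lit 294958) (nat_lit 13) .nil))))) .nil))) (.nd (nat_lit 6) 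
(.lf (nat_lit 259746) (.g (nat_lit 2716) (.e (nat_lit 164398) (nat_lit 256) (.e (nat_lit 57446) (nat_lit 19) (.e (nat_lit 393281) (nat_lit 23) (.e (nat_lit 426116) (nat_lit 2) (.e (nat_lit 196656) (nat_lit 11) (.e (nat_lit 16406) (nat_lit 1) .nil)))))) (.g (nat_lit 5) .nil .nil))) 
(.lf (nat_lit 259810) (.g (nat_lit 3011) (.e (nat_lit 164399) (nat_lit 256) (.e (nat_lit 57372) (nat_lit 2) (.e (nat_lit 90167) (nat_lit 13) (.e (nat_lit 172065) (nat_lit 3) (.e (nat_lit 204838) (nat_lit 20) (.e (nat_lit 114717) (nat_lit 23) (.e (nat_lit 98333) (nat_lit 18) .nil))))))) (.g (nat_lit 5) .nil .nil))))) (.nd (nat_lit 5) (.nd (nat_lit 6) 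
(.lf (nat_lit 259730) (.g (nat_lit 3119) (.e (nat_lit 164398) (nat_lit 256) (.e (nat_lit 57427) (nat_lit 15) (.e (nat_lit 360474) (nat_lit 8) (.e (nat_lit 557063) (nat_lit 0) .nil)))) .nil)) 
(.lf (nat_lit 259794) (.g (nat_lit 1583) (.e (nat_lit 164399) (nat_lit 256) (.e (nat_lit 57370) (nat_lit 2) (.e (nat_lit 90185) (nat_lit 17) (.e (nat_lit 237594) (nat_lit 3) .nil)))) .nil))) (.nd (nat_lit 6) 
(.lf (nat_lit 259762) (.g (nat_lit 3290) (.e (nat_lit 164398) (nat_lit 256) (.e (nat_lit 57447) (nat_lit 19) (.e (nat_lit 393281) (nat_lit 23) (.e (nat_lit 426124) (nat_lit 2) (.e (nat_lit 196656) (nat_lit 11) (.e (nat_lit 16405) (nat_lit 1) .nil)))))) (.g (nat_lit 5) .nil .nil))) 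
(.lf (nat_lit 259826) (.g (nat_lit 1482) (.e (nat_lit 164399) (nat_lit 256) (.e (nat_lit 57372) (nat_lit 2) (.e (nat_lit 90172) (nat_lit 14) (.e (nat_lit 180243) (nat_lit 5) .nil)))) .nil))))) (.nd (nat_lit 4) (.nd (nat_lit 5) (.nd (nat_lit 6) 
(.lf (nat_lit 259722) (.g (nat_lit 2305) (.e (nat_lit 164398) (nat_lit 256) (.e (nat_lit 57426) (nat_lit 15) (.e (nat_lit 360475) (nat_lit 8) (.e (nat_lit 557057) (nat_lit 0) .nil)))) .nil)) 
(.lf (nat_lit 259786) (.g (nat_lit 1580) (.e (nat_lit 164399) (nat_lit 256) (.e (nat_lit 57370) (nat_lit 2) (.e (nat_lit 90170) (nat_lit 13) (.e (nat_lit 172095) (nat_lit 9) .nil)))) .nil))) (.nd (nat_lit 6) 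
(.lf (nat_lit 259754) (.g (nat_lit 2145) (.e (nat_lit 164398) (nat_lit 256) (.e (nat_lit 57447) (nat_lit 19) (.e (nat_lit 393270) (nat_lit 23) (.e (nat_lit 426131) (nat_lit 3) (.e (nat_lit 204809) (nat_lit 9) .nil))))) .nil)) 
(.lf (nat_lit 259818) (.g (nat_lit 2093) (.e (nat_lit 164399) (nat_lit 256) (.e (nat_lit 57372) (nat_lit 2) (.e (nat_lit 90168) (nat_lit 13) (.e (nat_lit 172067) (nat_lit 3) (.e (nat_lit 204837) (nat_lit 20) .nil))))) .nil)))) (.nd (nat_lit 5) (.nd (nat_lit 6) 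
(.lf (nat_lit 259738) (.g (nat_lit 2538) (.e (nat_lit 164398) (nat_lit 256) (.e (nat_lit 57437) (nat_lit 17) (.e (nat_lit 376865) (nat_lit 22) (.e (nat_lit 90128) (nat_lit 9) (.e (nat_lit 344) (nat_lit 27) (.e (nat_lit 385107) (nat_lit 51) (.e (nat_lit 794659) (nat_lit 21) .nil))))))) (.g (nat_lit 4) .nil .nil))) 
(.lf (nat_lit 259802) (.g (nat_lit 1515) (.e (nat_lit 164399) (nat_lit 256) (.e (nat_lit 57371) (nat_lit 2) (.e (nat_lit 90174) (nat_lit 14) (.e (nat_lit 180243) (nat_lit 5) .nil)))) .nil))) (.nd (nat_lit 6) 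
(.lf (nat_lit 259770) (.g (nat_lit 2297) (.e (nat_lit 164398) (nat_lit 256) (.e (nat_lit 57447) (nat_lit 19) (.e (nat_lit 393298) (nat_lit 27) (.e (nat_lit 491526) (nat_lit 0) .nil)))) .nil)) 
(.lf (nat_lit 259834) (.g (nat_lit 2313) (.e (nat_lit 164399) (nat_lit 256) (.e (nat_lit 57372) (nat_lit 2) (.e (nat_lit 90172) (nat_lit 14) (.e (nat_lit 180244) (nat_lit 5) (.e (nat_lit 532515) (nat_lit 3) (.e (nat_lit 114716) (nat_lit 22) (.e (nat_lit 90129) (nat_lit 9) (.e (nat_lit 2602) (nat_lit 163) .nil)))))))) (.g (nat_lit 4) .nil .nil))))))) 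
(.nd (nat_lit 3) (.nd (nat_lit 4) (.nd (nat_lit 5) (.nd (nat_lit 6) 
(.lf (nat_lit 259718) (.g (nat_lit 2784) (.e (nat_lit 164398) (nat_lit 256) (.e (nat_lit 57412) (nat_lit 12) (.e (nat_lit 336061) (nat_lit 7) (.e (nat_lit 319531) (nat_lit 16) (.e (nat_lit 286767) (nat_lit 27) (.e (nat_lit 426108) (nat_lit 1) (.e (nat_lit 164332) (nat_lit 230) (.e (nat_lit 163860) (nat_lit 1) .nil)))))))) (.g (nat_lit 4) .nil .nil))) 
(.lf (nat_lit 259782) (.g (nat_lit 2436) (.e (nat_lit 164399) (nat_lit 256) (.e (nat_lit 57370) (nat_lit 2) (.e (nat_lit 90170) (nat_lit 13) (.e (nat_lit 172067) (nat_lit 3) (.e (nat_lit 204834) (nat_lit 19) .nil))))) .nil))) (.nd (nat_lit 6) 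
(.lf (nat_lit 259750) (.g (nat_lit 1943) (.e (nat_lit 164398) (nat_lit 256) (.e (nat_lit 57447) (nat_lit 19) (.e (nat_lit 393266) (nat_lit 23) (.e (nat_lit 426140) (nat_lit 3) (.e (nat_lit 204809) (nat_lit 9) .nil))))) .nil)) 
(.lf (nat_lit 259814) (.g (nat_lit 2424) (.e (nat_lit 164399) (nat_lit 256) (.e (nat_lit 57372) (nat_lit 2) (.e (nat_lit 90167) (nat_lit 13) (.e (nat_lit 172067) (nat_lit 3) (.e (nat_lit 204834) (nat_lit 19) (.e (nat_lit 106537) (nat_lit 12) (.e (nat_lit 57466) (nat_lit 23) (.e (nat_lit 516115) (nat_lit 1) .nil)))))))) (.g (nat_lit 4) .nil .nil))))) (.nd (nat_lit 5) (.nd (nat_lit 6) 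
(.lf (nat_lit 259734) (.g (nat_lit 1698) (.e (nat_lit 164398) (nat_lit 256) (.e (nat_lit 57427) (nat_lit 15) (.e (nat_lit 360475) (nat_lit 8) (.e (nat_lit 557057) (nat_lit 0) .nil)))) .nil)) 
(.lf (nat_lit 259798) (.g (nat_lit 1121) (.e (nat_lit 164399) (nat_lit 256) (.e (nat_lit 57370) (nat_lit 2) (.e (nat_lit 90185) (nat_lit 17) (.e (nat_lit 237623) (nat_lit 13) .nil)))) .nil))) (.nd (nat_lit 6) 
(.lf (nat_lit 259766) (.g (nat_lit 1032) (.e (nat_lit 164398) (nat_lit 256) (.e (nat_lit 57447) (nat_lit 19) (.e (nat_lit 393289) (nat_lit 25) .nil))) .nil)) 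
(.lf (nat_lit 259830) (.g (nat_lit 1113) (.e (nat_lit 164399) (nat_lit 256) (.e (nat_lit 57372) (nat_lit 2) (.e (nat_lit 90172) (nat_lit 14) (.e (nat_lit 180244) (nat_lit 5) .nil)))) .nil))))) (.nd (nat_lit 4) (.nd (nat_lit 5) (.nd (nat_lit 6) 
(.lf (nat_lit 259726) (.g (nat_lit 3456) (.e (nat_lit 164398) (nat_lit 256) (.e (nat_lit 57427) (nat_lit 15) (.e (nat_lit 360474) (nat_lit 8) (.e (nat_lit 557058) (nat_lit 0) .nil)))) .nil)) 
(.lf (nat_lit 259790) (.g (nat_lit 1692) (.e (nat_lit 164399) (nat_lit 256) (.e (nat_lit 57370) (nat_lit 2) (.e (nat_lit 90174) (nat_lit 14) (.e (nat_lit 180243) (nat_lit 5) (.e (nat_lit 532508) (nat_lit 2) .nil))))) .nil))) (.nd (nat_lit 6) 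
(.lf (nat_lit 259758) (.g (nat_lit 2889) (.e (nat_lit 164398) (nat_lit 256) (.e (nat_lit 57447) (nat_lit 19) (.e (nat_lit 393275) (nat_lit 23) (.e (nat_lit 426125) (nat_lit 2) (.e (nat_lit 196656) (nat_lit 11) (.e (nat_lit 16406) (nat_lit 1) .nil)))))) (.g (nat_lit 4) .nil .nil))) 
(.lf (nat_lit 259822) (.g (nat_lit 2899) (.e (nat_lit 164399) (nat_lit 256) (.e (nat_lit 57372) (nat_lit 2) (.e (nat_lit 90170) (nat_lit 13) (.e (nat_lit 172065) (nat_lit 3) (.e (nat_lit 204838) (nat_lit 20) .nil))))) .nil)))) (.nd (nat_lit 5) (.nd (nat_lit 6) 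
(.lf (nat_lit 259742) (.g (nat_lit 1107) (.e (nat_lit 164398) (nat_lit 256) (.e (nat_lit 57445) (nat_lit 19) (.e (nat_lit 393274) (nat_lit 23) (.e (nat_lit 426132) (nat_lit 3) .nil)))) .nil)) 
(.lf (nat_lit 259806) (.g (nat_lit 1573) (.e (nat_lit 164399) (nat_lit 256) (.e (nat_lit 57371) (nat_lit 2) (.e (nat_lit 90185) (nat_lit 17) (.e (nat_lit 237621) (nat_lit 13) .nil)))) .nil))) (.nd (nat_lit 6) 
(.lf (nat_lit 259774) (.g (nat_lit 3280) (.e (nat_lit 164398) (nat_lit 256) (.e (nat_lit 57448) (nat_lit 19) (.e (nat_lit 393281) (nat_lit 23) (.e (nat_lit 426116) (nat_lit 2) (.e (nat_lit 196654) (nat_lit 11) (.e (nat_lit 16405) (nat_lit 1) .nil)))))) (.g (nat_lit 0) .nil .nil))) 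
(.lf (nat_lit 259838) (.g (nat_lit 1915) (.e (nat_lit 164399) (nat_lit 256) (.e (nat_lit 57372) (nat_lit 2) (.e (nat_lit 90174) (nat_lit 14) (.e (nat_lit 180243) (nat_lit 5) (.e (nat_lit 532508) (nat_lit 2) .nil))))) .nil)))))))) (.nd (nat_lit 1) (.nd (nat_lit 2) (.nd (nat_lit 3) (.nd (nat_lit 4) (.nd (nat_lit 5) (.nd (nat_lit 6) 
(.lf (nat_lit 259713) (.g (nat_lit 2998) (.e (nat_lit 164398) (nat_lit 256) (.e (nat_lit 57412) (nat_lit 12) (.e (nat_lit 336061) (nat_lit 7) (.e (nat_lit 319531) (nat_lit 16) (.e (nat_lit 286767) (nat_lit 27) (.e (nat_lit 426098) (nat_lit 1) (.e (nat_lit 164325) (nat_lit 230) (.e (nat_lit 163859) (nat_lit 1) .nil)))))))) (.g (nat_lit 4) .nil .nil))) 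
(.lf (nat_lit 259777) (.g (nat_lit 1498) (.e (nat_lit 164398) (nat_lit 256) (.e (nat_lit 57448) (nat_lit 19) (.e (nat_lit 393289) (nat_lit 25) (.e (nat_lit 458789) (nat_lit 23) (.e (nat_lit 532579) (nat_lit 26) .nil))))) .nil))) (.nd (nat_lit 6) 
(.lf (nat_lit 259745) (.g (nat_lit 2170) (.e (nat_lit 164398) (nat_lit 256) (.e (nat_lit 57446) (nat_lit 19) (.e (nat_lit 393281) (nat_lit 23) (.e (nat_lit 426115) (nat_lit 2) (.e (nat_lit 196656) (nat_lit 11) (.e (nat_lit 16406) (nat_lit 1) .nil)))))) (.g (nat_lit 5) .nil .nil))) 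
(.lf (nat_lit 259809) (.g (nat_lit 3201) (.e (nat_lit 164399) (nat_lit 256) (.e (nat_lit 57372) (nat_lit 2) (.e (nat_lit 90167) (nat_lit 13) (.e (nat_lit 172065) (nat_lit 3) (.e (nat_lit 204838) (nat_lit 20) (.e (nat_lit 114708) (nat_lit 20) (.e (nat_lit 1800) (nat_lit 119) (.e (nat_lit 516117) (nat_lit 1) .nil)))))))) (.g (nat_lit 5) .nil .nil))))) (.nd (nat_lit 5) (.nd (nat_lit 6) 
(.lf (nat_lit 259729) (.g (nat_lit 3864) (.e (nat_lit 164398) (nat_lit 256) (.e (nat_lit 57427) (nat_lit 15) (.e (nat_lit 360474) (nat_lit 8) (.e (nat_lit 557062) (nat_lit 0) .nil)))) .nil)) 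
(.lf (nat_lit 259793) (.g (nat_lit 1390) (.e (nat_lit 164399) (nat_lit 256) (.e (nat_lit 57370) (nat_lit 2) (.e (nat_lit 90185) (nat_lit 17) (.e (nat_lit 237592) (nat_lit 3) .nil)))) .nil))) (.nd (nat_lit 6) 
(.lf (nat_lit 259761) (.g (nat_lit 830) (.e (nat_lit 164398) (nat_lit 256) (.e (nat_lit 57447) (nat_lit 19) (.e (nat_lit 393280) (nat_lit 23) .nil))) .nil)) 
(.lf (nat_lit 259825) (.g (nat_lit 1584) (.e (nat_lit 164399) (nat_lit 256) (.e (nat_lit 57372) (nat_lit 2) (.e (nat_lit 90172) (nat_lit 14) (.e (nat_lit 180242) (nat_lit 5) .nil)))) .nil))))) (.nd (nat_lit 4) (.nd (nat_lit 5) (.nd (nat_lit 6) 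
(.lf (nat_lit 259721) (.g (nat_lit 1223) (.e (nat_lit 164398) (nat_lit 256) (.e (nat_lit 57426) (nat_lit 15) (.e (nat_lit 360466) (nat_lit 3) (.e (nat_lit 524032) (nat_lit 32) .nil)))) .nil)) 
(.lf (nat_lit 259785) (.g (nat_lit 2843) (.e (nat_lit 164399) (nat_lit 256) (.e (nat_lit 57370) (nat_lit 2) (.e (nat_lit 90170) (nat_lit 13) (.e (nat_lit 172067) (nat_lit 3) (.e (nat_lit 204838) (nat_lit 20) (.e (nat_lit 114708) (nat_lit 20) (.e (nat_lit 1800) (nat_lit 119) (.e (nat_lit 516117) (nat_lit 1) .nil)))))))) (.g (nat_lit 4) .nil .nil)))) (.nd (nat_lit 6) 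
(.lf (nat_lit 259753) (.g (nat_lit 983) (.e (nat_lit 164398) (nat_lit 256) (.e (nat_lit 57447) (nat_lit 19) (.e (nat_lit 393270) (nat_lit 23) .nil))) .nil)) 
(.lf (nat_lit 259817) (.g (nat_lit 833) (.e (nat_lit 164399) (nat_lit 256) (.e (nat_lit 57372) (nat_lit 2) (.e (nat_lit 90167) (nat_lit 13) (.e (nat_lit 172092) (nat_lit 9) .nil)))) .nil)))) (.nd (nat_lit 5) (.nd (nat_lit 6) 
(.lf (nat_lit 259737) (.g (nat_lit 2091) (.e (nat_lit 164398) (nat_lit 256) (.e (nat_lit 57437) (nat_lit 17) (.e (nat_lit 376865) (nat_lit 22) (.e (nat_lit 90128) (nat_lit 9) (.e (nat_lit 344) (nat_lit 27) .nil))))) .nil)) 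
(.lf (nat_lit 259801) (.g (nat_lit 2353) (.e (nat_lit 164399) (nat_lit 256) (.e (nat_lit 57371) (nat_lit 2) (.e (nat_lit 90172) (nat_lit 14) (.e (nat_lit 180244) (nat_lit 5) (.e (nat_lit 532508) (nat_lit 2) .nil))))) .nil))) (.nd (nat_lit 6) 
(.lf (nat_lit 259769) (.g (nat_lit 1098) (.e (nat_lit 164398) (nat_lit 256) (.e (nat_lit 57447) (nat_lit 19) (.e (nat_lit 393294) (nat_lit 26) .nil))) .nil)) 
(.lf (nat_lit 259833) (.g (nat_lit 5107) (.e (nat_lit 164399) (nat_lit 256) (.e (nat_lit 57372) (nat_lit 2) (.e (nat_lit 90172) (nat_lit 14) (.e (nat_lit 180244) (nat_lit 5) (.e (nat_lit 532513) (nat_lit 3) (.e (nat_lit 114718) (nat_lit 23) (.e (nat_lit 98334) (nat_lit 18) .nil))))))) (.g (nat_lit 7) .nil .nil))))))) (.nd (nat_lit 3) (.nd (nat_lit 4) (.nd (nat_lit 5) (.nd (nat_lit 6) 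
(.lf (nat_lit 259717) (.g (nat_lit 4100) (.e (nat_lit 164398) (nat_lit 256) (.e (nat_lit 57412) (nat_lit 12) (.e (nat_lit 336061) (nat_lit 7) (.e (nat_lit 319531) (nat_lit 16) (.e (nat_lit 286767) (nat_lit 27) (.e (nat_lit 426107) (nat_lit 1) (.e (nat_lit 164327) (nat_lit 230) (.e (nat_lit 163861) (nat_lit 1) .nil)))))))) (.g (nat_lit 6) .nil .nil))) 
(.lf (nat_lit 259781) (.g (nat_lit 3058) (.e (nat_lit 164399) (nat_lit 256) (.e (nat_lit 57370) (nat_lit 2) (.e (nat_lit 90170) (nat_lit 13) (.e (nat_lit 172065) (nat_lit 3) (.e (nat_lit 204837) (nat_lit 20) (.e (nat_lit 114708) (nat_lit 20) (.e (nat_lit 1800) (nat_lit 119) (.e (nat_lit 516117) (nat_lit 1) .nil)))))))) (.g (nat_lit 4) .nil .nil)))) (.nd (nat_lit 6) 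
(.lf (nat_lit 259749) (.g (nat_lit 1098) (.e (nat_lit 164398) (nat_lit 256) (.e (nat_lit 57447) (nat_lit 19) (.e (nat_lit 393260) (nat_lit 21) .nil))) .nil)) 
(.lf (nat_lit 259813) (.g (nat_lit 2467) (.e (nat_lit 164399) (nat_lit 256) (.e (nat_lit 57372) (nat_lit 2) (.e (nat_lit 90167) (nat_lit 13) (.e (nat_lit 172067) (nat_lit 3) (.e (nat_lit 204834) (nat_lit 19) (.e (nat_lit 106537) (nat_lit 12) (.e (nat_lit 57465) (nat_lit 23) (.e (nat_lit 516115) (nat_lit 1) .nil)))))))) (.g (nat_lit 4) .nil .nil))))) (.nd (nat_lit 5) (.nd (nat_lit 6) 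
(.lf (nat_lit 259733) (.g (nat_lit 703) (.e (nat_lit 164398) (nat_lit 256) (.e (nat_lit 57427) (nat_lit 15) (.e (nat_lit 360475) (nat_lit 8) .nil))) .nil)) 
(.lf (nat_lit 259797) (.g (nat_lit 2671) (.e (nat_lit 164399) (nat_lit 256) (.e (nat_lit 57370) (nat_lit 2) (.e (nat_lit 90185) (nat_lit 17) (.e (nat_lit 237605) (nat_lit 9) (.e (nat_lit 426568) (nat_lit 34) (.e (nat_lit 393252) (nat_lit 18) .nil)))))) (.g (nat_lit 0) .nil .nil)))) (.nd (nat_lit 6) 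
(.lf (nat_lit 259765) (.g (nat_lit 2662) (.e (nat_lit 164398) (nat_lit 256) (.e (nat_lit 57447) (nat_lit 19) (.e (nat_lit 393284) (nat_lit 24) (.e (nat_lit 434248) (nat_lit 28) (.e (nat_lit 581376) (nat_lit 0) .nil))))) .nil)) 
(.lf (nat_lit 259829) (.g (nat_lit 3397) (.e (nat_lit 164399) (nat_lit 256) (.e (nat_lit 57372) (nat_lit 2) (.e (nat_lit 90172) (nat_lit 14) (.e (nat_lit 180243) (nat_lit 5) (.e (nat_lit 532515) (nat_lit 3) (.e (nat_lit 114719) (nat_lit 23) (.e (nat_lit 98332) (nat_lit 18) .nil))))))) (.g (nat_lit 5) .nil .nil)))))) (.nd (nat_lit 4) (.nd (nat_lit 5) (.nd (nat_lit 6) 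
(.lf (nat_lit 259725) (.g (nat_lit 3798) (.e (nat_lit 164398) (nat_lit 256) (.e (nat_lit 57427) (nat_lit 15) (.e (nat_lit 360474) (nat_lit 8) (.e (nat_lit 557057) (nat_lit 0) .nil)))) .nil)) 
(.lf (nat_lit 259789) (.g (nat_lit 2401) (.e (nat_lit 164399) (nat_lit 256) (.e (nat_lit 57370) (nat_lit 2) (.e (nat_lit 90172) (nat_lit 14) (.e (nat_lit 180244) (nat_lit 5) (.e (nat_lit 532508) (nat_lit 2) (.e (nat_lit 114432) (nat_lit 13) (.e (nat_lit 122936) (nat_lit 23) (.e (nat_lit 516115) (nat_lit 1) .nil)))))))) (.g (nat_lit 4) .nil .nil)))) (.nd (nat_lit 6) 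
(.lf (nat_lit 259757) (.g (nat_lit 3307) (.e (nat_lit 164398) (nat_lit 256) (.e (nat_lit 57447) (nat_lit 19) (.e (nat_lit 393275) (nat_lit 23) (.e (nat_lit 426125) (nat_lit 2) (.e (nat_lit 196656) (nat_lit 11) (.e (nat_lit 16405) (nat_lit 1) .nil)))))) (.g (nat_lit 4) .nil .nil))) 
(.lf (nat_lit 259821) (.g (nat_lit 2348) (.e (nat_lit 164399) (nat_lit 256) (.e (nat_lit 57372) (nat_lit 2) (.e (nat_lit 90170) (nat_lit 13) (.e (nat_lit 172065) (nat_lit 3) .nil)))) .nil)))) (.nd (nat_lit 5) (.nd (nat_lit 6) 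
(.lf (nat_lit 259741) (.g (nat_lit 1397) (.e (nat_lit 164398) (nat_lit 256) (.e (nat_lit 57445) (nat_lit 19) (.e (nat_lit 393273) (nat_lit 23) (.e (nat_lit 433920) (nat_lit 3) .nil)))) .nil)) 
(.lf (nat_lit 259805) (.g (nat_lit 2435) (.e (nat_lit 164399) (nat_lit 256) (.e (nat_lit 57371) (nat_lit 2) (.e (nat_lit 90174) (nat_lit 14) (.e (nat_lit 180243) (nat_lit 5) (.e (nat_lit 532511) (nat_lit 2) .nil))))) .nil))) (.nd (nat_lit 6) 
(.lf (nat_lit 259773) (.g (nat_lit 739) (.e (nat_lit 164398) (nat_lit 256) (.e (nat_lit 57448) (nat_lit 19) (.e (nat_lit 393279) (nat_lit 23) .nil))) .nil)) 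
(.lf (nat_lit 259837) (.g (nat_lit 982) (.e (nat_lit 164399) (nat_lit 256) (.e (nat_lit 57372) (nat_lit 2) (.e (nat_lit 90174) (nat_lit 14) (.e (nat_lit 180243) (nat_lit 5) .nil)))) .nil))))))) (.nd (nat_lit 2) (.nd (nat_lit 3) (.nd (nat_lit 4) (.nd (nat_lit 5) (.nd (nat_lit 6) 
(.lf (nat_lit 259715) (.g (nat_lit 2586) (.e (nat_lit 164398) (nat_lit 256) (.e (nat_lit 57412) (nat_lit 12) (.e (nat_lit 336061) (nat_lit 7) (.e (nat_lit 319531) (nat_lit 16) (.e (nat_lit 286767) (nat_lit 27) (.e (nat_lit 426107) (nat_lit 1) (.e (nat_lit 164325) (nat_lit 230) (.e (nat_lit 163859) (nat_lit 1) .nil)))))))) (.g (nat_lit 4) .nil .nil))) 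
(.lf (nat_lit 259779) (.g (nat_lit 1167) (.e (nat_lit 164399) (nat_lit 256) (.e (nat_lit 57370) (nat_lit 2) (.e (nat_lit 90169) (nat_lit 13) (.e (nat_lit 172121) (nat_lit 13) (.e (nat_lit 483337) (nat_lit 9) .nil))))) .nil))) (.nd (nat_lit 6) 
(.lf (nat_lit 259747) (.g (nat_lit 2687) (.e (nat_lit 164398) (nat_lit 256) (.e (nat_lit 57447) (nat_lit 19) (.e (nat_lit 393234) (nat_lit 17) (.e (nat_lit 7581) (nat_lit 405) (.e (nat_lit 57479) (nat_lit 28) (.e (nat_lit 557101) (nat_lit 13) (.e (nat_lit 172059) (nat_lit 1) .nil))))))) (.g (nat_lit 4) .nil .nil))) 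
(.lf (nat_lit 259811) (.g (nat_lit 1964) (.e (nat_lit 164399) (nat_lit 256) (.e (nat_lit 57372) (nat_lit 2) (.e (nat_lit 90167) (nat_lit 13) (.e (nat_lit 172067) (nat_lit 3) (.e (nat_lit 204834) (nat_lit 19) .nil))))) .nil)))) (.nd (nat_lit 5) (.nd (nat_lit 6) 
(.lf (nat_lit 259731) (.g (nat_lit 1743) (.e (nat_lit 164398) (nat_lit 256) (.e (nat_lit 57427) (nat_lit 15) (.e (nat_lit 360474) (nat_lit 8) (.e (nat_lit 557091) (nat_lit 12) .nil)))) .nil)) 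
(.lf (nat_lit 259795) (.g (nat_lit 2535) (.e (nat_lit 164399) (nat_lit 256) (.e (nat_lit 57370) (nat_lit 2) (.e (nat_lit 90185) (nat_lit 17) (.e (nat_lit 237601) (nat_lit 9) (.e (nat_lit 426568) (nat_lit 34) (.e (nat_lit 393252) (nat_lit 18) .nil)))))) (.g (nat_lit 0) .nil .nil)))) (.nd (nat_lit 6) 
(.lf (nat_lit 259763) (.g (nat_lit 3071) (.e (nat_lit 164398) (nat_lit 256) (.e (nat_lit 57447) (nat_lit 19) (.e (nat_lit 393281) (nat_lit 23) (.e (nat_lit 426124) (nat_lit 2) (.e (nat_lit 196656) (nat_lit 11) (.e (nat_lit 16406) (nat_lit 1) .nil)))))) (.g (nat_lit 5) .nil .nil))) 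
(.lf (nat_lit 259827) (.g (nat_lit 1993) (.e (nat_lit 164399) (nat_lit 256) (.e (nat_lit 57372) (nat_lit 2) (.e (nat_lit 90172) (nat_lit 14) (.e (nat_lit 180243) (nat_lit 5) (.e (nat_lit 532515) (nat_lit 3) .nil))))) .nil))))) (.nd (nat_lit 4) (.nd (nat_lit 5) (.nd (nat_lit 6) 
(.lf (nat_lit 259723) (.g (nat_lit 698) (.e (nat_lit 164398) (nat_lit 256) (.e (nat_lit 57427) (nat_lit 15) (.e (nat_lit 360474) (nat_lit 8) .nil))) .nil)) 
(.lf (nat_lit 259787) (.g (nat_lit 1289) (.e (nat_lit 164399) (nat_lit 256) (.e (nat_lit 57370) (nat_lit 2) (.e (nat_lit 90172) (nat_lit 14) (.e (nat_lit 180243) (nat_lit 5) .nil)))) .nil))) (.nd (nat_lit 6) 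
(.lf (nat_lit 259755) (.g (nat_lit 1328) (.e (nat_lit 164398) (nat_lit 256) (.e (nat_lit 57447) (nat_lit 19) (.e (nat_lit 393274) (nat_lit 23) (.e (nat_lit 426132) (nat_lit 3) (.e (nat_lit 204809) (nat_lit 9) .nil))))) .nil)) 
(.lf (nat_lit 259819) (.g (nat_lit 1148) (.e (nat_lit 164399) (nat_lit 256) (.e (nat_lit 57372) (nat_lit 2) (.e (nat_lit 90169) (nat_lit 13) (.e (nat_lit 172065) (nat_lit 3) .nil)))) .nil)))) (.nd (nat_lit 5) (.nd (nat_lit 6) 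
(.lf (nat_lit 259739) (.g (nat_lit 1068) (.e (nat_lit 164398) (nat_lit 256) (.e (nat_lit 57437) (nat_lit 17) (.e (nat_lit 376865) (nat_lit 22) (.e (nat_lit 90160) (nat_lit 11) .nil)))) .nil)) 
(.lf (nat_lit 259803) (.g (nat_lit 2426) (.e (nat_lit 164399) (nat_lit 256) (.e (nat_lit 57371) (nat_lit 2) (.e (nat_lit 90174) (nat_lit 14) (.e (nat_lit 180243) (nat_lit 5) (.e (nat_lit 532508) (nat_lit 2) .nil))))) .nil))) (.nd (nat_lit 6) 
(.lf (nat_lit 259771) (.g (nat_lit 2825) (.e (nat_lit 164398) (nat_lit 256) (.e (nat_lit 57447) (nat_lit 19) (.e (nat_lit 393300) (nat_lit 27) (.e (nat_lit 491526) (nat_lit 0) (.e (nat_lit 1848) (nat_lit 124) .nil))))) .nil)) 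
(.lf (nat_lit 259835) (.g (nat_lit 3013) (.e (nat_lit 164399) (nat_lit 256) (.e (nat_lit 57372) (nat_lit 2) (.e (nat_lit 90172) (nat_lit 14) (.e (nat_lit 180244) (nat_lit 5) (.e (nat_lit 532515) (nat_lit 3) (.e (nat_lit 114716) (nat_lit 22) (.e (nat_lit 90137) (nat_lit 9) (.e (nat_lit 2599) (nat_lit 163) .nil)))))))) (.g (nat_lit 5) .nil .nil))))))) 
(.nd (nat_lit 3) (.nd (nat_lit 4) (.nd (nat_lit 5) (.nd (nat_lit 6) 
(.lf (nat_lit 259719) (.g (nat_lit 2711) (.e (nat_lit 164398) (nat_lit 256) (.e (nat_lit 57412) (nat_lit 12) (.e (nat_lit 336061) (nat_lit 7) (.e (nat_lit 319534) (nat_lit 16) (.e (nat_lit 286767) (nat_lit 27) .nil))))) .nil)) 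
(.lf (nat_lit 259783) (.g (nat_lit 2921) (.e (nat_lit 164399) (nat_lit 256) (.e (nat_lit 57370) (nat_lit 2) (.e (nat_lit 90170) (nat_lit 13) (.e (nat_lit 172067) (nat_lit 3) (.e (nat_lit 204837) (nat_lit 20) (.e (nat_lit 114719) (nat_lit 23) (.e (nat_lit 98334) (nat_lit 18) .nil))))))) (.g (nat_lit 4) .nil .nil)))) (.nd (nat_lit 6) 
(.lf (nat_lit 259751) (.g (nat_lit 1098) (.e (nat_lit 164398) (nat_lit 256) (.e (nat_lit 57447) (nat_lit 19) (.e (nat_lit 393267) (nat_lit 23) .nil))) .nil)) 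
(.lf (nat_lit 259815) (.g (nat_lit 2752) (.e (nat_lit 164399) (nat_lit 256) (.e (nat_lit 57372) (nat_lit 2) (.e (nat_lit 90167) (nat_lit 13) (.e (nat_lit 172067) (nat_lit 3) (.e (nat_lit 204834) (nat_lit 19) (.e (nat_lit 106538) (nat_lit 12) (.e (nat_lit 57465) (nat_lit 23) (.e (nat_lit 516115) (nat_lit 1) .nil)))))))) (.g (nat_lit 4) .nil .nil))))) (.nd (nat_lit 5) (.nd (nat_lit 6) 
(.lf (nat_lit 259735) (.g (nat_lit 642) (.e (nat_lit 164398) (nat_lit 256) (.e (nat_lit 57437) (nat_lit 17) (.e (nat_lit 376859) (nat_lit 21) .nil))) .nil)) 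
(.lf (nat_lit 259799) (.g (nat_lit 1641) (.e (nat_lit 164399) (nat_lit 256) (.e (nat_lit 57371) (nat_lit 2) (.e (nat_lit 90172) (nat_lit 14) (.e (nat_lit 180243) (nat_lit 5) .nil)))) .nil))) (.nd (nat_lit 6) 
(.lf (nat_lit 259767) (.g (nat_lit 2447) (.e (nat_lit 164398) (nat_lit 256) (.e (nat_lit 57447) (nat_lit 19) (.e (nat_lit 393289) (nat_lit 25) (.e (nat_lit 458789) (nat_lit 23) (.e (nat_lit 532582) (nat_lit 26) .nil))))) .nil)) 
(.lf (nat_lit 259831) (.g (nat_lit 1940) (.e (nat_lit 164399) (nat_lit 256) (.e (nat_lit 57372) (nat_lit 2) (.e (nat_lit 90172) (nat_lit 14) (.e (nat_lit 180244) (nat_lit 5) (.e (nat_lit 532508) (nat_lit 2) .nil))))) .nil))))) (.nd (nat_lit 4) (.nd (nat_lit 5) (.nd (nat_lit 6) 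
(.lf (nat_lit 259727) (.g (nat_lit 3899) (.e (nat_lit 164398) (nat_lit 256) (.e (nat_lit 57427) (nat_lit 15) (.e (nat_lit 360474) (nat_lit 8) (.e (nat_lit 557060) (nat_lit 0) (.e (nat_lit 1633) (nat_lit 114) .nil))))) .nil)) 
(.lf (nat_lit 259791) (.g (nat_lit 1696) (.e (nat_lit 164399) (nat_lit 256) (.e (nat_lit 57370) (nat_lit 2) (.e (nat_lit 90174) (nat_lit 14) (.e (nat_lit 180243) (nat_lit 5) (.e (nat_lit 532511) (nat_lit 2) .nil))))) .nil))) (.nd (nat_lit 6) 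
(.lf (nat_lit 259759) (.g (nat_lit 1098) (.e (nat_lit 164398) (nat_lit 256) (.e (nat_lit 57447) (nat_lit 19) (.e (nat_lit 393276) (nat_lit 23) .nil))) .nil)) 
(.lf (nat_lit 259823) (.g (nat_lit 2346) (.e (nat_lit 164399) (nat_lit 256) (.e (nat_lit 57372) (nat_lit 2) (.e (nat_lit 90170) (nat_lit 13) (.e (nat_lit 172067) (nat_lit 3) .nil)))) .nil)))) (.nd (nat_lit 5) (.nd (nat_lit 6) 
(.lf (nat_lit 259743) (.g (nat_lit 3325) (.e (nat_lit 164398) (nat_lit 256) (.e (nat_lit 57445) (nat_lit 19) (.e (nat_lit 393281) (nat_lit 23) (.e (nat_lit 426124) (nat_lit 2) (.e (nat_lit 196656) (nat_lit 11) (.e (nat_lit 16405) (nat_lit 1) .nil)))))) (.g (nat_lit 5) .nil .nil))) 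
(.lf (nat_lit 259807) (.g (nat_lit 1586) (.e (nat_lit 164399) (nat_lit 256) (.e (nat_lit 57371) (nat_lit 2) (.e (nat_lit 90185) (nat_lit 17) (.e (nat_lit 237624) (nat_lit 13) .nil)))) .nil))) (.nd (nat_lit 6) 
(.lf (nat_lit 259775) (.g (nat_lit 3036) (.e (nat_lit 164398) (nat_lit 256) (.e (nat_lit 57448) (nat_lit 19) (.e (nat_lit 393281) (nat_lit 23) (.e (nat_lit 426124) (nat_lit 2) (.e (nat_lit 196656) (nat_lit 11) (.e (nat_lit 16405) (nat_lit 1) .nil)))))) (.g (nat_lit 5) .nil .nil))) 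
(.lf (nat_lit 259839) (.g (nat_lit 2650) (.e (nat_lit 164399) (nat_lit 256) (.e (nat_lit 57372) (nat_lit 2) (.e (nat_lit 90174) (nat_lit 14) (.e (nat_lit 180243) (nat_lit 5) (.e (nat_lit 532510) (nat_lit 2) (.e (nat_lit 114432) (nat_lit 13) (.e (nat_lit 122936) (nat_lit 23) (.e (nat_lit 516115) (nat_lit 1) .nil)))))))) (.g (nat_lit 4) .nil .nil))))))))))

noncomputable def tv3358 : DT := (.nd (nat_lit 0) (.nd (nat_lit 1) (.nd (nat_lit 2) (.nd (nat_lit 3) (.nd (nat_lit 4) (.nd (nat_lit 5) (.nd (nat_lit 6) 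
(.lf (nat_lit 259840) (.g (nat_lit 1940) (.e (nat_lit 164399) (nat_lit 256) (.e (nat_lit 57372) (nat_lit 2) (.e (nat_lit 90174) (nat_lit 14) (.e (nat_lit 180243) (nat_lit 5) (.e (nat_lit 532511) (nat_lit 2) .nil))))) .nil)) 
(.lf (nat_lit 259904) (.g (nat_lit 407) (.e (nat_lit 164399) (nat_lit 256) (.e (nat_lit 57375) (nat_lit 2) (.e (nat_lit 90172) (nat_lit 14) .nil))) .nil))) (.nd (nat_lit 6) 
(.lf (nat_lit 259872) (.g (nat_lit 1750) (.e (nat_lit 164399) (nat_lit 256) (.e (nat_lit 57373) (nat_lit 2) (.e (nat_lit 90172) (nat_lit 14) (.e (nat_lit 180245) (nat_lit 5) .nil)))) .nil)) 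
(.lf (nat_lit 259936) (.g (nat_lit 901) (.e (nat_lit 164399) (nat_lit 256) (.e (nat_lit 57377) (nat_lit 3) (.e (nat_lit 98356) (nat_lit 26) .nil))) .nil)))) (.nd (nat_lit 5) (.nd (nat_lit 6) 
(.lf (nat_lit 259856) (.g (nat_lit 2282) (.e (nat_lit 164399) (nat_lit 256) (.e (nat_lit 57373) (nat_lit 2) (.e (nat_lit 90170) (nat_lit 13) (.e (nat_lit 172067) (nat_lit 3) (.e (nat_lit 204834) (nat_lit 19) .nil))))) .nil)) 
(.lf (nat_lit 259920) (.g (nat_lit 867) (.e (nat_lit 164399) (nat_lit 256) (.e (nat_lit 57375) (nat_lit 2) (.e (nat_lit 90174) (nat_lit 14) (.e (nat_lit 180243) (nat_lit 5) .nil)))) .nil))) (.nd (nat_lit 6) 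
(.lf (nat_lit 259888) (.g (nat_lit 2482) (.e (nat_lit 164399) (nat_lit 256) (.e (nat_lit 57374) (nat_lit 2) (.e (nat_lit 90170) (nat_lit 13) (.e (nat_lit 172067) (nat_lit 3) (.e (nat_lit 204834) (nat_lit 19) .nil))))) .nil)) 
(.lf (nat_lit 259952) (.g (nat_lit 4337) (.e (nat_lit 164399) (nat_lit 256) (.e (nat_lit 57378) (nat_lit 3) (.e (nat_lit 98356) (nat_lit 26) (.e (nat_lit 426131) (nat_lit 3) (.e (nat_lit 204838) (nat_lit 20) (.e (nat_lit 114708) (nat_lit 20) (.e (nat_lit 1800) (nat_lit 119) (.e (nat_lit 516117) (nat_lit 1) .nil)))))))) (.g (nat_lit 5) .nil .nil)))))) 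
(.nd (nat_lit 4) (.nd (nat_lit 5) (.nd (nat_lit 6) 
(.lf (nat_lit 259848) (.g (nat_lit 587) (.e (nat_lit 164399) (nat_lit 256) (.e (nat_lit 57373) (nat_lit 2) (.e (nat_lit 90167) (nat_lit 13) .nil))) .nil)) 
(.lf (nat_lit 259912) (.g (nat_lit 2904) (.e (nat_lit 164399) (nat_lit 256) (.e (nat_lit 57375) (nat_lit 2) (.e (nat_lit 90172) (nat_lit 14) (.e (nat_lit 180244) (nat_lit 5) (.e (nat_lit 532514) (nat_lit 3) (.e (nat_lit 114708) (nat_lit 20) (.e (nat_lit 1800) (nat_lit 119) (.e (nat_lit 516117) (nat_lit 1) .nil)))))))) (.g (nat_lit 4) .nil .nil)))) (.nd (nat_lit 6) 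
(.lf (nat_lit 259880) (.g (nat_lit 5253) (.e (nat_lit 164399) (nat_lit 256) (.e (nat_lit 57373) (nat_lit 2) (.e (nat_lit 90174) (nat_lit 14) (.e (nat_lit 180243) (nat_lit 5) (.e (nat_lit 532513) (nat_lit 3) (.e (nat_lit 114718) (nat_lit 23) (.e (nat_lit 98333) (nat_lit 18) .nil))))))) (.g (nat_lit 0) .nil .nil))) 
(.lf (nat_lit 259944) (.g (nat_lit 3471) (.e (nat_lit 164399) (nat_lit 256) (.e (nat_lit 57377) (nat_lit 3) (.e (nat_lit 98384) (nat_lit 32) (.e (nat_lit 475177) (nat_lit 24) (.e (nat_lit 516143) (nat_lit 9) (.e (nat_lit 426140) (nat_lit 3) (.e (nat_lit 212736) (nat_lit 1) .nil))))))) (.g (nat_lit 4) .nil .nil))))) (.nd (nat_lit 5) (.nd (nat_lit 6) 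
(.lf (nat_lit 259864) (.g (nat_lit 1180) (.e (nat_lit 164399) (nat_lit 256) (.e (nat_lit 57373) (nat_lit 2) (.e (nat_lit 90172) (nat_lit 14) (.e (nat_lit 180244) (nat_lit 5) .nil)))) .nil)) 
(.lf (nat_lit 259928) (.g (nat_lit 1766) (.e (nat_lit 164399) (nat_lit 256) (.e (nat_lit 57375) (nat_lit 2) (.e (nat_lit 90185) (nat_lit 17) (.e (nat_lit 237620) (nat_lit 13) .nil)))) .nil))) (.nd (nat_lit 6) 
(.lf (nat_lit 259896) (.g (nat_lit 2578) (.e (nat_lit 164399) (nat_lit 256) (.e (nat_lit 57374) (nat_lit 2) (.e (nat_lit 90170) (nat_lit 13) (.e (nat_lit 172095) (nat_lit 9) (.e (nat_lit 426513) (nat_lit 27) .nil))))) .nil)) 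
(.lf (nat_lit 259960) (.g (nat_lit 2580) (.e (nat_lit 164399) (nat_lit 256) (.e (nat_lit 57378) (nat_lit 3) (.e (nat_lit 98356) (nat_lit 26) (.e (nat_lit 426438) (nat_lit 18) (.e (nat_lit 98367) (nat_lit 27) .nil))))) .nil)))))) (.nd (nat_lit 3) (.nd (nat_lit 4) (.nd (nat_lit 5) (.nd (nat_lit 6) 
(.lf (nat_lit 259844) (.g (nat_lit 1441) (.e (nat_lit 164399) (nat_lit 256) (.e (nat_lit 57372) (nat_lit 2) (.e (nat_lit 90185) (nat_lit 17) (.e (nat_lit 237594) (nat_lit 3) .nil)))) .nil)) 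
(.lf (nat_lit 259908) (.g (nat_lit 2103) (.e (nat_lit 164399) (nat_lit 256) (.e (nat_lit 57375) (nat_lit 2) (.e (nat_lit 90172) (nat_lit 14) (.e (nat_lit 180244) (nat_lit 5) (.e (nat_lit 532508) (nat_lit 2) .nil))))) .nil))) (.nd (nat_lit 6) 
(.lf (nat_lit 259876) (.g (nat_lit 2092) (.e (nat_lit 164399) (nat_lit 256) (.e (nat_lit 57373) (nat_lit 2) (.e (nat_lit 90174) (nat_lit 14) (.e (nat_lit 180243) (nat_lit 5) (.e (nat_lit 532510) (nat_lit 2) .nil))))) .nil)) 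
(.lf (nat_lit 259940) (.g (nat_lit 2386) (.e (nat_lit 164399) (nat_lit 256) (.e (nat_lit 57377) (nat_lit 3) (.e (nat_lit 98365) (nat_lit 26) (.e (nat_lit 426187) (nat_lit 9) (.e (nat_lit 426566) (nat_lit 34) (.e (nat_lit 393250) (nat_lit 18) .nil)))))) (.g (nat_lit 5) .nil .nil))))) (.nd (nat_lit 5) (.nd (nat_lit 6) 
(.lf (nat_lit 259860) (.g (nat_lit 1556) (.e (nat_lit 164399) (nat_lit 256) (.e (nat_lit 57373) (nat_lit 2) (.e (nat_lit 90170) (nat_lit 13) (.e (nat_lit 172095) (nat_lit 9) .nil)))) .nil)) 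
(.lf (nat_lit 259924) (.g (nat_lit 2223) (.e (nat_lit 164399) (nat_lit 256) (.e (nat_lit 57375) (nat_lit 2) (.e (nat_lit 90174) (nat_lit 14) (.e (nat_lit 180243) (nat_lit 5) (.e (nat_lit 532515) (nat_lit 3) (.e (nat_lit 114716) (nat_lit 22) (.e (nat_lit 90137) (nat_lit 9) (.e (nat_lit 2599) (nat_lit 163) .nil)))))))) (.g (nat_lit 4) .nil .nil)))) (.nd (nat_lit 6) 
(.lf (nat_lit 259892) (.g (nat_lit 2812) (.e (nat_lit 164399) (nat_lit 256) (.e (nat_lit 57374) (nat_lit 2) (.e (nat_lit 90170) (nat_lit 13) (.e (nat_lit 172085) (nat_lit 9) (.e (nat_lit 426568) (nat_lit 34) .nil))))) .nil)) 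
(.lf (nat_lit 259956) (.g (nat_lit 3871) (.e (nat_lit 164399) (nat_lit 256) (.e (nat_lit 57378) (nat_lit 3) (.e (nat_lit 98356) (nat_lit 26) (.e (nat_lit 426428) (nat_lit 17) (.e (nat_lit 90185) (nat_lit 17) (.e (nat_lit 237592) (nat_lit 3) (.e (nat_lit 212736) (nat_lit 1) .nil))))))) (.g (nat_lit 5) .nil .nil)))))) (.nd (nat_lit 4) (.nd (nat_lit 5) (.nd (nat_lit 6) 
(.lf (nat_lit 259852) (.g (nat_lit 1946) (.e (nat_lit 164399) (nat_lit 256) (.e (nat_lit 57373) (nat_lit 2) (.e (nat_lit 90168) (nat_lit 13) (.e (nat_lit 172067) (nat_lit 3) (.e (nat_lit 204834) (nat_lit 19) .nil))))) .nil)) 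
(.lf (nat_lit 259916) (.g (nat_lit 2509) (.e (nat_lit 164399) (nat_lit 256) (.e (nat_lit 57375) (nat_lit 2) (.e (nat_lit 90172) (nat_lit 14) (.e (nat_lit 180244) (nat_lit 5) (.e (nat_lit 532515) (nat_lit 3) (.e (nat_lit 114716) (nat_lit 22) (.e (nat_lit 90129) (nat_lit 9) (.e (nat_lit 2603) (nat_lit 163) .nil)))))))) (.g (nat_lit 4) .nil .nil)))) (.nd (nat_lit 6) 
(.lf (nat_lit 259884) (.g (nat_lit 1835) (.e (nat_lit 164399) (nat_lit 256) (.e (nat_lit 57374) (nat_lit 2) (.e (nat_lit 90170) (nat_lit 13) (.e (nat_lit 172065) (nat_lit 3) .nil)))) .nil)) 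
(.lf (nat_lit 259948) (.g (nat_lit 1946) (.e (nat_lit 164399) (nat_lit 256) (.e (nat_lit 57377) (nat_lit 3) (.e (nat_lit 98385) (nat_lit 32) (.e (nat_lit 475177) (nat_lit 24) (.e (nat_lit 516143) (nat_lit 9) .nil))))) .nil)))) (.nd (nat_lit 5) (.nd (nat_lit 6) 
(.lf (nat_lit 259868) (.g (nat_lit 5112) (.e (nat_lit 164399) (nat_lit 256) (.e (nat_lit 57373) (nat_lit 2) (.e (nat_lit 90172) (nat_lit 14) (.e (nat_lit 180244) (nat_lit 5) (.e (nat_lit 532513) (nat_lit 3) (.e (nat_lit 114718) (nat_lit 23) (.e (nat_lit 98334) (nat_lit 18) .nil))))))) (.g (nat_lit 7) .nil .nil))) 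
(.lf (nat_lit 259932) (.g (nat_lit 1580) (.e (nat_lit 164399) (nat_lit 256) (.e (nat_lit 57375) (nat_lit 2) (.e (nat_lit 90185) (nat_lit 17) (.e (nat_lit 237623) (nat_lit 13) .nil)))) .nil))) (.nd (nat_lit 6) 
(.lf (nat_lit 259900) (.g (nat_lit 1793) (.e (nat_lit 164399) (nat_lit 256) (.e (nat_lit 57374) (nat_lit 2) (.e (nat_lit 90172) (nat_lit 14) (.e (nat_lit 180244) (nat_lit 5) (.e (nat_lit 532515) (nat_lit 3) .nil))))) .nil)) 
(.lf (nat_lit 259964) (.g (nat_lit 1162) (.e (nat_lit 164399) (nat_lit 256) (.e (nat_lit 57378) (nat_lit 3) (.e (nat_lit 98360) (nat_lit 26) (.e (nat_lit 426140) (nat_lit 3) .nil)))) .nil))))))) (.nd (nat_lit 2) (.nd (nat_lit 3) (.nd (nat_lit 4) (.nd (nat_lit 5) (.nd (nat_lit 6) 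
(.lf (nat_lit 259842) (.g (nat_lit 3306) (.e (nat_lit 164399) (nat_lit 256) (.e (nat_lit 57372) (nat_lit 2) (.e (nat_lit 90174) (nat_lit 14) (.e (nat_lit 180243) (nat_lit 5) (.e (nat_lit 532515) (nat_lit 3) (.e (nat_lit 114719) (nat_lit 23) (.e (nat_lit 98332) (nat_lit 18) .nil))))))) (.g (nat_lit 6) .nil .nil))) 
(.lf (nat_lit 259906) (.g (nat_lit 3678) (.e (nat_lit 164399) (nat_lit 256) (.e (nat_lit 57375) (nat_lit 2) (.e (nat_lit 90172) (nat_lit 14) (.e (nat_lit 180243) (nat_lit 5) (.e (nat_lit 532513) (nat_lit 3) (.e (nat_lit 114708) (nat_lit 20) (.e (nat_lit 1800) (nat_lit 119) (.e (nat_lit 516117) (nat_lit 1) .nil)))))))) (.g (nat_lit 5) .nil .nil)))) (.nd (nat_lit 6) 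
(.lf (nat_lit 259874) (.g (nat_lit 1321) (.e (nat_lit 164399) (nat_lit 256) (.e (nat_lit 57373) (nat_lit 2) (.e (nat_lit 90174) (nat_lit 14) (.e (nat_lit 180243) (nat_lit 5) .nil)))) .nil)) 
(.lf (nat_lit 259938) (.g (nat_lit 2723) (.e (nat_lit 164399) (nat_lit 256) (.e (nat_lit 57377) (nat_lit 3) (.e (nat_lit 98356) (nat_lit 26) (.e (nat_lit 426131) (nat_lit 3) (.e (nat_lit 204838) (nat_lit 20) .nil))))) .nil)))) (.nd (nat_lit 5) (.nd (nat_lit 6) 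
(.lf (nat_lit 259858) (.g (nat_lit 2216) (.e (nat_lit 164399) (nat_lit 256) (.e (nat_lit 57373) (nat_lit 2) (.e (nat_lit 90170) (nat_lit 13) (.e (nat_lit 172067) (nat_lit 3) (.e (nat_lit 204837) (nat_lit 20) .nil))))) .nil)) 
(.lf (nat_lit 259922) (.g (nat_lit 1638) (.e (nat_lit 164399) (nat_lit 256) (.e (nat_lit 57375) (nat_lit 2) (.e (nat_lit 90174) (nat_lit 14) (.e (nat_lit 180243) (nat_lit 5) (.e (nat_lit 532511) (nat_lit 2) .nil))))) .nil))) (.nd (nat_lit 6) 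
(.lf (nat_lit 259890) (.g (nat_lit 2455) (.e (nat_lit 164399) (nat_lit 256) (.e (nat_lit 57374) (nat_lit 2) (.e (nat_lit 90170) (nat_lit 13) (.e (nat_lit 172067) (nat_lit 3) (.e (nat_lit 204838) (nat_lit 20) .nil))))) .nil)) 
(.lf (nat_lit 259954) (.g (nat_lit 1706) (.e (nat_lit 164399) (nat_lit 256) (.e (nat_lit 57378) (nat_lit 3) (.e (nat_lit 98356) (nat_lit 26) (.e (nat_lit 426322) (nat_lit 13) .nil)))) .nil))))) (.nd (nat_lit 4) (.nd (nat_lit 5) (.nd (nat_lit 6) 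
(.lf (nat_lit 259850) (.g (nat_lit 2187) (.e (nat_lit 164399) (nat_lit 256) (.e (nat_lit 57373) (nat_lit 2) (.e (nat_lit 90167) (nat_lit 13) (.e (nat_lit 172067) (nat_lit 3) (.e (nat_lit 204834) (nat_lit 19) .nil))))) .nil)) 
(.lf (nat_lit 259914) (.g (nat_lit 1804) (.e (nat_lit 164399) (nat_lit 256) (.e (nat_lit 57375) (nat_lit 2) (.e (nat_lit 90172) (nat_lit 14) (.e (nat_lit 180244) (nat_lit 5) (.e (nat_lit 532515) (nat_lit 3) .nil))))) .nil))) (.nd (nat_lit 6) 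
(.lf (nat_lit 259882) (.g (nat_lit 1556) (.e (nat_lit 164399) (nat_lit 256) (.e (nat_lit 57373) (nat_lit 2) (.e (nat_lit 90185) (nat_lit 17) (.e (nat_lit 237603) (nat_lit 9) .nil)))) .nil)) 
(.lf (nat_lit 259946) (.g (nat_lit 3965) (.e (nat_lit 164399) (nat_lit 256) (.e (nat_lit 57377) (nat_lit 3) (.e (nat_lit 98384) (nat_lit 32) (.e (nat_lit 475177) (nat_lit 24) (.e (nat_lit 516171) (nat_lit 13) (.e (nat_lit 458789) (nat_lit 23) (.e (nat_lit 540416) (nat_lit 18) .nil))))))) (.g (nat_lit 4) .nil .nil))))) (.nd (nat_lit 5) (.nd (nat_lit 6) 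
(.lf (nat_lit 259866) (.g (nat_lit 2851) (.e (nat_lit 164399) (nat_lit 256) (.e (nat_lit 57373) (nat_lit 2) (.e (nat_lit 90172) (nat_lit 14) (.e (nat_lit 180244) (nat_lit 5) (.e (nat_lit 532508) (nat_lit 2) (.e (nat_lit 106537) (nat_lit 12) (.e (nat_lit 57464) (nat_lit 23) (.e (nat_lit 516116) (nat_lit 1) .nil)))))))) (.g (nat_lit 4) .nil .nil))) 
(.lf (nat_lit 259930) (.g (nat_lit 2879) (.e (nat_lit 164399) (nat_lit 256) (.e (nat_lit 57375) (nat_lit 2) (.e (nat_lit 90185) (nat_lit 17) (.e (nat_lit 237621) (nat_lit 13) (.e (nat_lit 483341) (nat_lit 9) (.e (nat_lit 426099) (nat_lit 1) .nil)))))) (.g (nat_lit 5) .nil .nil)))) (.nd (nat_lit 6) 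
(.lf (nat_lit 259898) (.g (nat_lit 1133) (.e (nat_lit 164399) (nat_lit 256) (.e (nat_lit 57374) (nat_lit 2) (.e (nat_lit 90172) (nat_lit 14) (.e (nat_lit 180244) (nat_lit 5) .nil)))) .nil)) 
(.lf (nat_lit 259962) (.g (nat_lit 2969) (.e (nat_lit 164399) (nat_lit 256) (.e (nat_lit 57378) (nat_lit 3) (.e (nat_lit 98358) (nat_lit 26) (.e (nat_lit 426131) (nat_lit 3) (.e (nat_lit 204838) (nat_lit 20) (.e (nat_lit 114702) (nat_lit 20) (.e (nat_lit 1791) (nat_lit 119) (.e (nat_lit 516115) (nat_lit 1) .nil)))))))) (.g (nat_lit 5) .nil .nil))))))) 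
(.nd (nat_lit 3) (.nd (nat_lit 4) (.nd (nat_lit 5) (.nd (nat_lit 6) 
(.lf (nat_lit 259846) (.g (nat_lit 1398) (.e (nat_lit 164399) (nat_lit 256) (.e (nat_lit 57372) (nat_lit 2) (.e (nat_lit 90185) (nat_lit 17) (.e (nat_lit 237604) (nat_lit 9) (.e (nat_lit 426568) (nat_lit 34) .nil))))) .nil)) 
(.lf (nat_lit 259910) (.g (nat_lit 2973) (.e (nat_lit 164399) (nat_lit 256) (.e (nat_lit 57375) (nat_lit 2) (.e (nat_lit 90172) (nat_lit 14) (.e (nat_lit 180244) (nat_lit 5) (.e (nat_lit 532508) (nat_lit 2) (.e (nat_lit 106539) (nat_lit 12) (.e (nat_lit 57465) (nat_lit 23) (.e (nat_lit 516115) (nat_lit 1) .nil)))))))) (.g (nat_lit 4) .nil .nil)))) (.nd (nat_lit 6) 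
(.lf (nat_lit 259878) (.g (nat_lit 3460) (.e (nat_lit 164399) (nat_lit 256) (.e (nat_lit 57373) (nat_lit 2) (.e (nat_lit 90174) (nat_lit 14) (.e (nat_lit 180243) (nat_lit 5) (.e (nat_lit 532513) (nat_lit 3) (.e (nat_lit 114700) (nat_lit 20) (.e (nat_lit 1792) (nat_lit 119) (.e (nat_lit 516115) (nat_lit 1) .nil)))))))) (.g (nat_lit 5) .nil .nil))) 
(.lf (nat_lit 259942) (.g (nat_lit 702) (.e (nat_lit 164399) (nat_lit 256) (.e (nat_lit 57377) (nat_lit 3) (.e (nat_lit 98370) (nat_lit 28) .nil))) .nil)))) (.nd (nat_lit 5) (.nd (nat_lit 6) 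
(.lf (nat_lit 259862) (.g (nat_lit 2196) (.e (nat_lit 164399) (nat_lit 256) (.e (nat_lit 57373) (nat_lit 2) (.e (nat_lit 90170) (nat_lit 13) (.e (nat_lit 172113) (nat_lit 10) (.e (nat_lit 434207) (nat_lit 18) .nil))))) .nil)) 
(.lf (nat_lit 259926) (.g (nat_lit 764) (.e (nat_lit 164399) (nat_lit 256) (.e (nat_lit 57375) (nat_lit 2) (.e (nat_lit 90177) (nat_lit 15) .nil))) .nil))) (.nd (nat_lit 6) 
(.lf (nat_lit 259894) (.g (nat_lit 2579) (.e (nat_lit 164399) (nat_lit 256) (.e (nat_lit 57374) (nat_lit 2) (.e (nat_lit 90170) (nat_lit 13) (.e (nat_lit 172092) (nat_lit 9) (.e (nat_lit 433920) (nat_lit 34) .nil))))) .nil)) 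
(.lf (nat_lit 259958) (.g (nat_lit 3009) (.e (nat_lit 164399) (nat_lit 256) (.e (nat_lit 57378) (nat_lit 3) (.e (nat_lit 98356) (nat_lit 26) (.e (nat_lit 426438) (nat_lit 18) (.e (nat_lit 98354) (nat_lit 26) (.e (nat_lit 426140) (nat_lit 3) (.e (nat_lit 212736) (nat_lit 1) .nil))))))) (.g (nat_lit 4) .nil .nil)))))) (.nd (nat_lit 4) (.nd (nat_lit 5) (.nd (nat_lit 6) 
(.lf (nat_lit 259854) (.g (nat_lit 1193) (.e (nat_lit 164399) (nat_lit 256) (.e (nat_lit 57373) (nat_lit 2) (.e (nat_lit 90170) (nat_lit 13) (.e (nat_lit 172065) (nat_lit 3) .nil)))) .nil)) 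
(.lf (nat_lit 259918) (.g (nat_lit 2763) (.e (nat_lit 164399) (nat_lit 256) (.e (nat_lit 57375) (nat_lit 2) (.e (nat_lit 90172) (nat_lit 14) (.e (nat_lit 180244) (nat_lit 5) (.e (nat_lit 532515) (nat_lit 3) (.e (nat_lit 114716) (nat_lit 22) (.e (nat_lit 90137) (nat_lit 9) (.e (nat_lit 2599) (nat_lit 163) .nil)))))))) (.g (nat_lit 4) .nil .nil)))) (.nd (nat_lit 6) 
(.lf (nat_lit 259886) (.g (nat_lit 1538) (.e (nat_lit 164399) (nat_lit 256) (.e (nat_lit 57374) (nat_lit 2) (.e (nat_lit 90170) (nat_lit 13) (.e (nat_lit 172067) (nat_lit 3) .nil)))) .nil)) 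
(.lf (nat_lit 259950) (.g (nat_lit 3879) (.e (nat_lit 164399) (nat_lit 256) (.e (nat_lit 57378) (nat_lit 3) (.e (nat_lit 98355) (nat_lit 26) (.e (nat_lit 426131) (nat_lit 3) (.e (nat_lit 204838) (nat_lit 20) (.e (nat_lit 114708) (nat_lit 20) (.e (nat_lit 1800) (nat_lit 119) (.e (nat_lit 516117) (nat_lit 1) .nil)))))))) (.g (nat_lit 5) .nil .nil))))) (.nd (nat_lit 5) (.nd (nat_lit 6) 
(.lf (nat_lit 259870) (.g (nat_lit 1694) (.e (nat_lit 164399) (nat_lit 256) (.e (nat_lit 57373) (nat_lit 2) (.e (nat_lit 90172) (nat_lit 14) (.e (nat_lit 180244) (nat_lit 5) (.e (nat_lit 532515) (nat_lit 3) .nil))))) .nil)) 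
(.lf (nat_lit 259934) (.g (nat_lit 2853) (.e (nat_lit 164399) (nat_lit 256) (.e (nat_lit 57375) (nat_lit 2) (.e (nat_lit 90185) (nat_lit 17) (.e (nat_lit 237624) (nat_lit 13) (.e (nat_lit 483341) (nat_lit 9) (.e (nat_lit 426099) (nat_lit 1) .nil)))))) (.g (nat_lit 5) .nil .nil)))) (.nd (nat_lit 6) 
(.lf (nat_lit 259902) (.g (nat_lit 2526) (.e (nat_lit 164399) (nat_lit 256) (.e (nat_lit 57375) (nat_lit 2) (.e (nat_lit 90167) (nat_lit 13) (.e (nat_lit 172067) (nat_lit 3) (.e (nat_lit 204834) (nat_lit 19) .nil))))) .nil)) 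
(.lf (nat_lit 259966) (.g (nat_lit 2130) (.e (nat_lit 164399) (nat_lit 256) (.e (nat_lit 57378) (nat_lit 3) (.e (nat_lit 98365) (nat_lit 26) (.e (nat_lit 426188) (nat_lit 9) (.e (nat_lit 426478) (nat_lit 27) .nil))))) .nil)))))))) (.nd (nat_lit 1) (.nd (nat_lit 2) (.nd (nat_lit 3) (.nd (nat_lit 4) (.nd (nat_lit 5) (.nd (nat_lit 6) 
(.lf (nat_lit 259841) (.g (nat_lit 1787) (.e (nat_lit 164399) (nat_lit 256) (.e (nat_lit 57372) (nat_lit 2) (.e (nat_lit 90174) (nat_lit 14) (.e (nat_lit 180243) (nat_lit 5) (.e (nat_lit 532515) (nat_lit 3) .nil))))) .nil)) 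
(.lf (nat_lit 259905) (.g (nat_lit 1401) (.e (nat_lit 164399) (nat_lit 256) (.e (nat_lit 57375) (nat_lit 2) (.e (nat_lit 90172) (nat_lit 14) (.e (nat_lit 180243) (nat_lit 5) .nil)))) .nil))) (.nd (nat_lit 6) 
(.lf (nat_lit 259873) (.g (nat_lit 1497) (.e (nat_lit 164399) (nat_lit 256) (.e (nat_lit 57373) (nat_lit 2) (.e (nat_lit 90172) (nat_lit 14) (.e (nat_lit 188160) (nat_lit 40) .nil)))) .nil)) 
(.lf (nat_lit 259937) (.g (nat_lit 2746) (.e (nat_lit 164399) (nat_lit 256) (.e (nat_lit 57377) (nat_lit 3) (.e (nat_lit 98356) (nat_lit 26) (.e (nat_lit 426131) (nat_lit 3) (.e (nat_lit 204837) (nat_lit 20) .nil))))) .nil)))) (.nd (nat_lit 5) (.nd (nat_lit 6) 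
(.lf (nat_lit 259857) (.g (nat_lit 2736) (.e (nat_lit 164399) (nat_lit 256) (.e (nat_lit 57373) (nat_lit 2) (.e (nat_lit 90170) (nat_lit 13) (.e (nat_lit 172067) (nat_lit 3) (.e (nat_lit 204834) (nat_lit 19) (.e (nat_lit 106537) (nat_lit 12) (.e (nat_lit 57467) (nat_lit 23) (.e (nat_lit 516115) (nat_lit 1) .nil)))))))) (.g (nat_lit 4) .nil .nil))) 
(.lf (nat_lit 259921) (.g (nat_lit 1617) (.e (nat_lit 164399) (nat_lit 256) (.e (nat_lit 57375) (nat_lit 2) (.e (nat_lit 90174) (nat_lit 14) (.e (nat_lit 180243) (nat_lit 5) (.e (nat_lit 532508) (nat_lit 2) .nil))))) .nil))) (.nd (nat_lit 6) 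
(.lf (nat_lit 259889) (.g (nat_lit 2429) (.e (nat_lit 164399) (nat_lit 256) (.e (nat_lit 57374) (nat_lit 2) (.e (nat_lit 90170) (nat_lit 13) (.e (nat_lit 172067) (nat_lit 3) (.e (nat_lit 204837) (nat_lit 20) .nil))))) .nil)) 
(.lf (nat_lit 259953) (.g (nat_lit 3316) (.e (nat_lit 164399) (nat_lit 256) (.e (nat_lit 57378) (nat_lit 3) (.e (nat_lit 98356) (nat_lit 26) (.e (nat_lit 426131) (nat_lit 3) (.e (nat_lit 204838) (nat_lit 20) (.e (nat_lit 114719) (nat_lit 23) (.e (nat_lit 98332) (nat_lit 18) .nil))))))) (.g (nat_lit 4) .nil .nil)))))) (.nd (nat_lit 4) (.nd (nat_lit 5) (.nd (nat_lit 6) 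
(.lf (nat_lit 259849) (.g (nat_lit 939) (.e (nat_lit 164399) (nat_lit 256) (.e (nat_lit 57373) (nat_lit 2) (.e (nat_lit 90167) (nat_lit 13) (.e (nat_lit 172065) (nat_lit 3) .nil)))) .nil)) 
(.lf (nat_lit 259913) (.g (nat_lit 2622) (.e (nat_lit 164399) (nat_lit 256) (.e (nat_lit 57375) (nat_lit 2) (.e (nat_lit 90172) (nat_lit 14) (.e (nat_lit 180244) (nat_lit 5) (.e (nat_lit 532514) (nat_lit 3) (.e (nat_lit 114719) (nat_lit 23) (.e (nat_lit 98333) (nat_lit 18) .nil))))))) (.g (nat_lit 4) .nil .nil)))) (.nd (nat_lit 6) 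
(.lf (nat_lit 259881) (.g (nat_lit 1203) (.e (nat_lit 164399) (nat_lit 256) (.e (nat_lit 57373) (nat_lit 2) (.e (nat_lit 90185) (nat_lit 17) (.e (nat_lit 237592) (nat_lit 3) .nil)))) .nil)) 
(.lf (nat_lit 259945) (.g (nat_lit 2898) (.e (nat_lit 164399) (nat_lit 256) (.e (nat_lit 57377) (nat_lit 3) (.e (nat_lit 98384) (nat_lit 32) (.e (nat_lit 475177) (nat_lit 24) (.e (nat_lit 516149) (nat_lit 9) .nil))))) .nil)))) (.nd (nat_lit 5) (.nd (nat_lit 6) 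
(.lf (nat_lit 259865) (.g (nat_lit 2086) (.e (nat_lit 164399) (nat_lit 256) (.e (nat_lit 57373) (nat_lit 2) (.e (nat_lit 90172) (nat_lit 14) (.e (nat_lit 180244) (nat_lit 5) (.e (nat_lit 532508) (nat_lit 2) .nil))))) .nil)) 
(.lf (nat_lit 259929) (.g (nat_lit 1677) (.e (nat_lit 164399) (nat_lit 256) (.e (nat_lit 57375) (nat_lit 2) (.e (nat_lit 90185) (nat_lit 17) (.e (nat_lit 237621) (nat_lit 13) (.e (nat_lit 483339) (nat_lit 9) (.e (nat_lit 433920) (nat_lit 1) .nil)))))) (.g (nat_lit 5) .nil .nil)))) (.nd (nat_lit 6) 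
(.lf (nat_lit 259897) (.g (nat_lit 3189) (.e (nat_lit 164399) (nat_lit 256) (.e (nat_lit 57374) (nat_lit 2) (.e (nat_lit 90170) (nat_lit 13) (.e (nat_lit 172095) (nat_lit 9) (.e (nat_lit 433920) (nat_lit 34) (.e (nat_lit 393252) (nat_lit 18) .nil)))))) (.g (nat_lit 4) .nil .nil))) 
(.lf (nat_lit 259961) (.g (nat_lit 1707) (.e (nat_lit 164399) (nat_lit 256) (.e (nat_lit 57378) (nat_lit 3) (.e (nat_lit 98356) (nat_lit 26) (.e (nat_lit 426462) (nat_lit 23) .nil)))) .nil)))))) (.nd (nat_lit 3) (.nd (nat_lit 4) (.nd (nat_lit 5) (.nd (nat_lit 6) 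
(.lf (nat_lit 259845) (.g (nat_lit 1846) (.e (nat_lit 164399) (nat_lit 256) (.e (nat_lit 57372) (nat_lit 2) (.e (nat_lit 90185) (nat_lit 17) (.e (nat_lit 237603) (nat_lit 9) .nil)))) .nil)) 
(.lf (nat_lit 259909) (.g (nat_lit 2980) (.e (nat_lit 164399) (nat_lit 256) (.e (nat_lit 57375) (nat_lit 2) (.e (nat_lit 90172) (nat_lit 14) (.e (nat_lit 180244) (nat_lit 5) (.e (nat_lit 532508) (nat_lit 2) (.e (nat_lit 106526) (nat_lit 9) (.e (nat_lit 1074) (nat_lit 81) (.e (nat_lit 1796) (nat_lit 119) (.e (nat_lit 516115) (nat_lit 1) .nil))))))))) (.g (nat_lit 4) .nil .nil)))) (.nd (nat_lit 6) 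
(.lf (nat_lit 259877) (.g (nat_lit 2119) (.e (nat_lit 164399) (nat_lit 256) (.e (nat_lit 57373) (nat_lit 2) (.e (nat_lit 90174) (nat_lit 14) (.e (nat_lit 180243) (nat_lit 5) (.e (nat_lit 532511) (nat_lit 2) .nil))))) .nil)) 
(.lf (nat_lit 259941) (.g (nat_lit 2562) (.e (nat_lit 164399) (nat_lit 256) (.e (nat_lit 57377) (nat_lit 3) (.e (nat_lit 98365) (nat_lit 26) (.e (nat_lit 426188) (nat_lit 9) (.e (nat_lit 426566) (nat_lit 34) (.e (nat_lit 393250) (nat_lit 18) .nil)))))) (.g (nat_lit 5) .nil .nil))))) (.nd (nat_lit 5) (.nd (nat_lit 6) 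
(.lf (nat_lit 259861) (.g (nat_lit 2163) (.e (nat_lit 164399) (nat_lit 256) (.e (nat_lit 57373) (nat_lit 2) (.e (nat_lit 90170) (nat_lit 13) (.e (nat_lit 172113) (nat_lit 10) (.e (nat_lit 434203) (nat_lit 18) .nil))))) .nil)) 
(.lf (nat_lit 259925) (.g (nat_lit 1763) (.e (nat_lit 164399) (nat_lit 256) (.e (nat_lit 57375) (nat_lit 2) (.e (nat_lit 90176) (nat_lit 15) (.e (nat_lit 188423) (nat_lit 11) (.e (nat_lit 336387) (nat_lit 27) (.e (nat_lit 433920) (nat_lit 1) .nil)))))) (.g (nat_lit 5) .nil .nil)))) (.nd (nat_lit 6) 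
(.lf (nat_lit 259893) (.g (nat_lit 2518) (.e (nat_lit 164399) (nat_lit 256) (.e (nat_lit 57374) (nat_lit 2) (.e (nat_lit 90170) (nat_lit 13) (.e (nat_lit 172092) (nat_lit 9) (.e (nat_lit 426528) (nat_lit 27) .nil))))) .nil)) 
(.lf (nat_lit 259957) (.g (nat_lit 1886) (.e (nat_lit 164399) (nat_lit 256) (.e (nat_lit 57378) (nat_lit 3) (.e (nat_lit 98356) (nat_lit 26) (.e (nat_lit 426438) (nat_lit 18) .nil)))) .nil))))) (.nd (nat_lit 4) (.nd (nat_lit 5) (.nd (nat_lit 6) 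
(.lf (nat_lit 259853) (.g (nat_lit 1775) (.e (nat_lit 164399) (nat_lit 256) (.e (nat_lit 57373) (nat_lit 2) (.e (nat_lit 90168) (nat_lit 13) (.e (nat_lit 172067) (nat_lit 3) (.e (nat_lit 204837) (nat_lit 20) .nil))))) .nil)) 
(.lf (nat_lit 259917) (.g (nat_lit 2306) (.e (nat_lit 164399) (nat_lit 256) (.e (nat_lit 57375) (nat_lit 2) (.e (nat_lit 90172) (nat_lit 14) (.e (nat_lit 180244) (nat_lit 5) (.e (nat_lit 532515) (nat_lit 3) (.e (nat_lit 114716) (nat_lit 22) (.e (nat_lit 90133) (nat_lit 9) (.e (nat_lit 2613) (nat_lit 163) .nil)))))))) (.g (nat_lit 4) .nil .nil)))) (.nd (nat_lit 6) 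
(.lf (nat_lit 259885) (.g (nat_lit 3181) (.e (nat_lit 164399) (nat_lit 256) (.e (nat_lit 57374) (nat_lit 2) (.e (nat_lit 90170) (nat_lit 13) (.e (nat_lit 172065) (nat_lit 3) (.e (nat_lit 204838) (nat_lit 20) (.e (nat_lit 114719) (nat_lit 23) (.e (nat_lit 98332) (nat_lit 18) .nil))))))) (.g (nat_lit 4) .nil .nil))) 
(.lf (nat_lit 259949) (.g (nat_lit 3344) (.e (nat_lit 164399) (nat_lit 256) (.e (nat_lit 57378) (nat_lit 3) (.e (nat_lit 98350) (nat_lit 24) (.e (nat_lit 409602) (nat_lit 0) (.e (nat_lit 5629) (nat_lit 312) .nil))))) .nil)))) (.nd (nat_lit 5) (.nd (nat_lit 6) 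
(.lf (nat_lit 259869) (.g (nat_lit 2673) (.e (nat_lit 164399) (nat_lit 256) (.e (nat_lit 57373) (nat_lit 2) (.e (nat_lit 90172) (nat_lit 14) (.e (nat_lit 180244) (nat_lit 5) (.e (nat_lit 532514) (nat_lit 3) (.e (nat_lit 114719) (nat_lit 23) (.e (nat_lit 98334) (nat_lit 18) .nil))))))) (.g (nat_lit 4) .nil .nil))) 
(.lf (nat_lit 259933) (.g (nat_lit 1709) (.e (nat_lit 164399) (nat_lit 256) (.e (nat_lit 57375) (nat_lit 2) (.e (nat_lit 90185) (nat_lit 17) (.e (nat_lit 237624) (nat_lit 13) (.e (nat_lit 483339) (nat_lit 9) (.e (nat_lit 433920) (nat_lit 1) .nil)))))) (.g (nat_lit 5) .nil .nil)))) (.nd (nat_lit 6) 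
(.lf (nat_lit 259901) (.g (nat_lit 783) (.e (nat_lit 164399) (nat_lit 256) (.e (nat_lit 57375) (nat_lit 2) (.e (nat_lit 90167) (nat_lit 13) .nil))) .nil)) 
(.lf (nat_lit 259965) (.g (nat_lit 2582) (.e (nat_lit 164399) (nat_lit 256) (.e (nat_lit 57378) (nat_lit 3) (.e (nat_lit 98365) (nat_lit 26) (.e (nat_lit 426187) (nat_lit 9) (.e (nat_lit 426566) (nat_lit 34) (.e (nat_lit 393250) (nat_lit 18) .nil)))))) (.g (nat_lit 5) .nil .nil)))))))) (.nd (nat_lit 2) (.nd (nat_lit 3) (.nd (nat_lit 4) (.nd (nat_lit 5) (.nd (nat_lit 6) 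
(.lf (nat_lit 259843) (.g (nat_lit 1281) (.e (nat_lit 164399) (nat_lit 256) (.e (nat_lit 57372) (nat_lit 2) (.e (nat_lit 90185) (nat_lit 17) (.e (nat_lit 237592) (nat_lit 3) .nil)))) .nil)) 
(.lf (nat_lit 259907) (.g (nat_lit 1169) (.e (nat_lit 164399) (nat_lit 256) (.e (nat_lit 57375) (nat_lit 2) (.e (nat_lit 90172) (nat_lit 14) (.e (nat_lit 180244) (nat_lit 5) .nil)))) .nil))) (.nd (nat_lit 6) 
(.lf (nat_lit 259875) (.g (nat_lit 2124) (.e (nat_lit 164399) (nat_lit 256) (.e (nat_lit 57373) (nat_lit 2) (.e (nat_lit 90174) (nat_lit 14) (.e (nat_lit 180243) (nat_lit 5) (.e (nat_lit 532508) (nat_lit 2) .nil))))) .nil)) 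
(.lf (nat_lit 259939) (.g (nat_lit 829) (.e (nat_lit 164399) (nat_lit 256) (.e (nat_lit 57377) (nat_lit 3) (.e (nat_lit 98359) (nat_lit 26) .nil))) .nil)))) (.nd (nat_lit 5) (.nd (nat_lit 6) 
(.lf (nat_lit 259859) (.g (nat_lit 1862) (.e (nat_lit 164399) (nat_lit 256) (.e (nat_lit 57373) (nat_lit 2) (.e (nat_lit 90170) (nat_lit 13) (.e (nat_lit 172092) (nat_lit 9) .nil)))) .nil)) 
(.lf (nat_lit 259923) (.g (nat_lit 2222) (.e (nat_lit 164399) (nat_lit 256) (.e (nat_lit 57375) (nat_lit 2) (.e (nat_lit 90174) (nat_lit 14) (.e (nat_lit 180243) (nat_lit 5) (.e (nat_lit 532515) (nat_lit 3) (.e (nat_lit 114716) (nat_lit 22) (.e (nat_lit 90129) (nat_lit 9) (.e (nat_lit 2602) (nat_lit 163) .nil)))))))) (.g (nat_lit 4) .nil .nil)))) (.nd (nat_lit 6) 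
(.lf (nat_lit 259891) (.g (nat_lit 2291) (.e (nat_lit 164399) (nat_lit 256) (.e (nat_lit 57374) (nat_lit 2) (.e (nat_lit 90170) (nat_lit 13) (.e (nat_lit 172085) (nat_lit 9) .nil)))) .nil)) 
(.lf (nat_lit 259955) (.g (nat_lit 1779) (.e (nat_lit 164399) (nat_lit 256) (.e (nat_lit 57378) (nat_lit 3) (.e (nat_lit 98356) (nat_lit 26) (.e (nat_lit 426428) (nat_lit 17) .nil)))) .nil))))) (.nd (nat_lit 4) (.nd (nat_lit 5) (.nd (nat_lit 6) 
(.lf (nat_lit 259851) (.g (nat_lit 1972) (.e (nat_lit 164399) (nat_lit 256) (.e (nat_lit 57373) (nat_lit 2) (.e (nat_lit 90167) (nat_lit 13) (.e (nat_lit 172067) (nat_lit 3) (.e (nat_lit 204837) (nat_lit 20) .nil))))) .nil)) 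
(.lf (nat_lit 259915) (.g (nat_lit 2862) (.e (nat_lit 164399) (nat_lit 256) (.e (nat_lit 57375) (nat_lit 2) (.e (nat_lit 90172) (nat_lit 14) (.e (nat_lit 180244) (nat_lit 5) (.e (nat_lit 532515) (nat_lit 3) (.e (nat_lit 114716) (nat_lit 22) (.e (nat_lit 90129) (nat_lit 9) (.e (nat_lit 2602) (nat_lit 163) .nil)))))))) (.g (nat_lit 4) .nil .nil)))) (.nd (nat_lit 6) 
(.lf (nat_lit 259883) (.g (nat_lit 1672) (.e (nat_lit 164399) (nat_lit 256) (.e (nat_lit 57373) (nat_lit 2) (.e (nat_lit 90185) (nat_lit 17) (.e (nat_lit 237622) (nat_lit 13) (.e (nat_lit 483341) (nat_lit 9) .nil))))) .nil)) 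
(.lf (nat_lit 259947) (.g (nat_lit 901) (.e (nat_lit 164399) (nat_lit 256) (.e (nat_lit 57377) (nat_lit 3) (.e (nat_lit 98385) (nat_lit 32) .nil))) .nil)))) (.nd (nat_lit 5) (.nd (nat_lit 6) 
(.lf (nat_lit 259867) (.g (nat_lit 2074) (.e (nat_lit 164399) (nat_lit 256) (.e (nat_lit 57373) (nat_lit 2) (.e (nat_lit 90172) (nat_lit 14) (.e (nat_lit 180244) (nat_lit 5) (.e (nat_lit 532511) (nat_lit 2) .nil))))) .nil)) 
(.lf (nat_lit 259931) (.g (nat_lit 2193) (.e (nat_lit 164399) (nat_lit 256) (.e (nat_lit 57375) (nat_lit 2) (.e (nat_lit 90185) (nat_lit 17) (.e (nat_lit 237621) (nat_lit 13) (.e (nat_lit 483341) (nat_lit 9) (.e (nat_lit 433920) (nat_lit 1) .nil)))))) (.g (nat_lit 5) .nil .nil)))) (.nd (nat_lit 6) 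
(.lf (nat_lit 259899) (.g (nat_lit 1887) (.e (nat_lit 164399) (nat_lit 256) (.e (nat_lit 57374) (nat_lit 2) (.e (nat_lit 90172) (nat_lit 14) (.e (nat_lit 180244) (nat_lit 5) (.e (nat_lit 532513) (nat_lit 3) .nil))))) .nil)) 
(.lf (nat_lit 259963) (.g (nat_lit 1774) (.e (nat_lit 164399) (nat_lit 256) (.e (nat_lit 57378) (nat_lit 3) (.e (nat_lit 98359) (nat_lit 26) (.e (nat_lit 426132) (nat_lit 3) .nil)))) .nil)))))) (.nd (nat_lit 3) (.nd (nat_lit 4) (.nd (nat_lit 5) (.nd (nat_lit 6) 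
(.lf (nat_lit 259847) (.g (nat_lit 1534) (.e (nat_lit 164399) (nat_lit 256) (.e (nat_lit 57372) (nat_lit 2) (.e (nat_lit 90185) (nat_lit 17) (.e (nat_lit 237623) (nat_lit 13) .nil)))) .nil)) 
(.lf (nat_lit 259911) (.g (nat_lit 3694) (.e (nat_lit 164399) (nat_lit 256) (.e (nat_lit 57375) (nat_lit 2) (.e (nat_lit 90172) (nat_lit 14) (.e (nat_lit 180244) (nat_lit 5) (.e (nat_lit 532513) (nat_lit 3) (.e (nat_lit 114704) (nat_lit 20) (.e (nat_lit 1799) (nat_lit 119) (.e (nat_lit 516115) (nat_lit 1) .nil)))))))) (.g (nat_lit 5) .nil .nil)))) (.nd (nat_lit 6) 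
(.lf (nat_lit 259879) (.g (nat_lit 3494) (.e (nat_lit 164399) (nat_lit 256) (.e (nat_lit 57373) (nat_lit 2) (.e (nat_lit 90174) (nat_lit 14) (.e (nat_lit 180243) (nat_lit 5) (.e (nat_lit 532513) (nat_lit 3) (.e (nat_lit 114700) (nat_lit 20) (.e (nat_lit 1797) (nat_lit 119) (.e (nat_lit 516115) (nat_lit 1) .nil)))))))) (.g (nat_lit 5) .nil .nil))) 
(.lf (nat_lit 259943) (.g (nat_lit 791) (.e (nat_lit 164399) (nat_lit 256) (.e (nat_lit 57377) (nat_lit 3) (.e (nat_lit 98376) (nat_lit 30) .nil))) .nil)))) (.nd (nat_lit 5) (.nd (nat_lit 6) 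
(.lf (nat_lit 259863) (.g (nat_lit 1752) (.e (nat_lit 164399) (nat_lit 256) (.e (nat_lit 57373) (nat_lit 2) (.e (nat_lit 90172) (nat_lit 14) (.e (nat_lit 180243) (nat_lit 5) .nil)))) .nil)) 
(.lf (nat_lit 259927) (.g (nat_lit 2162) (.e (nat_lit 164399) (nat_lit 256) (.e (nat_lit 57375) (nat_lit 2) (.e (nat_lit 90178) (nat_lit 15) (.e (nat_lit 188421) (nat_lit 11) (.e (nat_lit 336387) (nat_lit 27) (.e (nat_lit 433920) (nat_lit 1) .nil)))))) (.g (nat_lit 5) .nil .nil)))) (.nd (nat_lit 6) 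
(.lf (nat_lit 259895) (.g (nat_lit 1970) (.e (nat_lit 164399) (nat_lit 256) (.e (nat_lit 57374) (nat_lit 2) (.e (nat_lit 90170) (nat_lit 13) (.e (nat_lit 172095) (nat_lit 9) .nil)))) .nil)) 
(.lf (nat_lit 259959) (.g (nat_lit 4271) (.e (nat_lit 164399) (nat_lit 256) (.e (nat_lit 57378) (nat_lit 3) (.e (nat_lit 98356) (nat_lit 26) (.e (nat_lit 426438) (nat_lit 18) (.e (nat_lit 98358) (nat_lit 26) (.e (nat_lit 426131) (nat_lit 3) (.e (nat_lit 212736) (nat_lit 1) .nil))))))) (.g (nat_lit 6) .nil .nil)))))) (.nd (nat_lit 4) (.nd (nat_lit 5) (.nd (nat_lit 6) 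
(.lf (nat_lit 259855) (.g (nat_lit 1759) (.e (nat_lit 164399) (nat_lit 256) (.e (nat_lit 57373) (nat_lit 2) (.e (nat_lit 90170) (nat_lit 13) (.e (nat_lit 172065) (nat_lit 3) (.e (nat_lit 204834) (nat_lit 19) .nil))))) .nil)) 
(.lf (nat_lit 259919) (.g (nat_lit 3366) (.e (nat_lit 164399) (nat_lit 256) (.e (nat_lit 57375) (nat_lit 2) (.e (nat_lit 90172) (nat_lit 14) (.e (nat_lit 180244) (nat_lit 5) (.e (nat_lit 532515) (nat_lit 3) (.e (nat_lit 114719) (nat_lit 23) (.e (nat_lit 98332) (nat_lit 18) .nil))))))) (.g (nat_lit 6) .nil .nil)))) (.nd (nat_lit 6) 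
(.lf (nat_lit 259887) (.g (nat_lit 2492) (.e (nat_lit 164399) (nat_lit 256) (.e (nat_lit 57374) (nat_lit 2) (.e (nat_lit 90170) (nat_lit 13) (.e (nat_lit 172067) (nat_lit 3) (.e (nat_lit 204817) (nat_lit 17) .nil))))) .nil)) 
(.lf (nat_lit 259951) (.g (nat_lit 1722) (.e (nat_lit 164399) (nat_lit 256) (.e (nat_lit 57378) (nat_lit 3) (.e (nat_lit 98356) (nat_lit 26) (.e (nat_lit 426131) (nat_lit 3) .nil)))) .nil)))) (.nd (nat_lit 5) (.nd (nat_lit 6) 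
(.lf (nat_lit 259871) (.g (nat_lit 2413) (.e (nat_lit 164399) (nat_lit 256) (.e (nat_lit 57373) (nat_lit 2) (.e (nat_lit 90172) (nat_lit 14) (.e (nat_lit 180244) (nat_lit 5) (.e (nat_lit 532515) (nat_lit 3) (.e (nat_lit 114716) (nat_lit 22) (.e (nat_lit 90129) (nat_lit 9) (.e (nat_lit 2602) (nat_lit 163) .nil)))))))) (.g (nat_lit 4) .nil .nil))) 
(.lf (nat_lit 259935) (.g (nat_lit 2134) (.e (nat_lit 164399) (nat_lit 256) (.e (nat_lit 57375) (nat_lit 2) (.e (nat_lit 90185) (nat_lit 17) (.e (nat_lit 237624) (nat_lit 13) (.e (nat_lit 483341) (nat_lit 9) (.e (nat_lit 433920) (nat_lit 1) .nil)))))) (.g (nat_lit 5) .nil .nil)))) (.nd (nat_lit 6) 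
(.lf (nat_lit 259903) (.g (nat_lit 2311) (.e (nat_lit 164399) (nat_lit 256) (.e (nat_lit 57375) (nat_lit 2) (.e (nat_lit 90167) (nat_lit 13) (.e (nat_lit 172067) (nat_lit 3) (.e (nat_lit 204837) (nat_lit 20) .nil))))) .nil)) 
(.lf (nat_lit 259967) (.g (nat_lit 1997) (.e (nat_lit 164399) (nat_lit 256) (.e (nat_lit 57378) (nat_lit 3) (.e (nat_lit 98365) (nat_lit 26) (.e (nat_lit 426188) (nat_lit 9) (.e (nat_lit 426484) (nat_lit 27) .nil))))) .nil)))))))))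

noncomputable def tv3359 : DT := (.nd (nat_lit 0) (.nd (nat_lit 1) (.nd (nat_lit 2) (.nd (nat_lit 3) (.nd (nat_lit 4) (.nd (nat_lit 5) 
(.lf (nat_lit 259968) (.g (nat_lit 2741) (.e (nat_lit 164399) (nat_lit 256) (.e (nat_lit 57378) (nat_lit 3) (.e (nat_lit 98365) (nat_lit 26) (.e (nat_lit 426188) (nat_lit 9) (.e (nat_lit 426566) (nat_lit 34) (.e (nat_lit 393250) (nat_lit 18) .nil)))))) (.g (nat_lit 5) .nil .nil))) 
(.lf (nat_lit 260000) (.g (nat_lit 3794) (.e (nat_lit 164399) (nat_lit 256) (.e (nat_lit 57378) (nat_lit 3) (.e (nat_lit 98384) (nat_lit 32) (.e (nat_lit 475179) (nat_lit 24) (.e (nat_lit 516169) (nat_lit 13) .nil))))) .nil))) (.nd (nat_lit 5) 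
(.lf (nat_lit 259984) (.g (nat_lit 1792) (.e (nat_lit 164399) (nat_lit 256) (.e (nat_lit 57378) (nat_lit 3) (.e (nat_lit 98367) (nat_lit 27) (.e (nat_lit 434232) (nat_lit 23) .nil)))) .nil)) 
(.lf (nat_lit 260016) (.g (nat_lit 2058) (.e (nat_lit 164399) (nat_lit 256) (.e (nat_lit 57379) (nat_lit 3) (.e (nat_lit 98365) (nat_lit 26) (.e (nat_lit 426188) (nat_lit 9) (.e (nat_lit 426486) (nat_lit 27) .nil))))) .nil)))) (.nd (nat_lit 4) (.nd (nat_lit 5) 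
(.lf (nat_lit 259976) (.g (nat_lit 2221) (.e (nat_lit 164399) (nat_lit 256) (.e (nat_lit 57378) (nat_lit 3) (.e (nat_lit 98367) (nat_lit 27) (.e (nat_lit 434231) (nat_lit 23) (.e (nat_lit 532506) (nat_lit 2) .nil))))) .nil)) 
(.lf (nat_lit 260008) (.g (nat_lit 3881) (.e (nat_lit 164399) (nat_lit 256) (.e (nat_lit 57379) (nat_lit 3) (.e (nat_lit 98356) (nat_lit 26) (.e (nat_lit 426438) (nat_lit 18) (.e (nat_lit 98377) (nat_lit 30) (.e (nat_lit 458789) (nat_lit 23) (.e (nat_lit 540416) (nat_lit 18) .nil))))))) (.g (nat_lit 6) .nil .nil)))) (.nd (nat_lit 5) 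
(.lf (nat_lit 259992) (.g (nat_lit 1763) (.e (nat_lit 164399) (nat_lit 256) (.e (nat_lit 57378) (nat_lit 3) (.e (nat_lit 98374) (nat_lit 29) (.e (nat_lit 450561) (nat_lit 0) .nil)))) .nil)) 
(.lf (nat_lit 260024) (.g (nat_lit 2717) (.e (nat_lit 164399) (nat_lit 256) (.e (nat_lit 57379) (nat_lit 3) (.e (nat_lit 98367) (nat_lit 27) (.e (nat_lit 434231) (nat_lit 23) (.e (nat_lit 532507) (nat_lit 2) (.e (nat_lit 106517) (nat_lit 9) (.e (nat_lit 1255) (nat_lit 92) (.e (nat_lit 98333) (nat_lit 18) .nil)))))))) (.g (nat_lit 4) .nil .nil)))))) 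
(.nd (nat_lit 3) (.nd (nat_lit 4) (.nd (nat_lit 5) 
(.lf (nat_lit 259972) (.g (nat_lit 3656) (.e (nat_lit 164399) (nat_lit 256) (.e (nat_lit 57378) (nat_lit 3) (.e (nat_lit 98366) (nat_lit 27) (.e (nat_lit 434231) (nat_lit 23) (.e (nat_lit 532490) (nat_lit 0) (.e (nat_lit 2155) (nat_lit 142) (.e (nat_lit 704746) (nat_lit 12) (.e (nat_lit 57465) (nat_lit 23) (.e (nat_lit 516115) (nat_lit 1) .nil))))))))) (.g (nat_lit 5) .nil .nil))) 
(.lf (nat_lit 260004) (.g (nat_lit 2026) (.e (nat_lit 164399) (nat_lit 256) (.e (nat_lit 57378) (nat_lit 3) (.e (nat_lit 98386) (nat_lit 32) (.e (nat_lit 483072) (nat_lit 49) .nil)))) .nil))) (.nd (nat_lit 5) 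
(.lf (nat_lit 259988) (.g (nat_lit 4097) (.e (nat_lit 164399) (nat_lit 256) (.e (nat_lit 57378) (nat_lit 3) (.e (nat_lit 98373) (nat_lit 29) (.e (nat_lit 450563) (nat_lit 0) (.e (nat_lit 6065) (nat_lit 328) .nil))))) .nil)) 
(.lf (nat_lit 260020) (.g (nat_lit 3597) (.e (nat_lit 164399) (nat_lit 256) (.e (nat_lit 57379) (nat_lit 3) (.e (nat_lit 98366) (nat_lit 27) (.e (nat_lit 434231) (nat_lit 23) (.e (nat_lit 532490) (nat_lit 0) (.e (nat_lit 2155) (nat_lit 142) (.e (nat_lit 704746) (nat_lit 12) (.e (nat_lit 57464) (nat_lit 23) (.e (nat_lit 516115) (nat_lit 1) .nil))))))))) (.g (nat_lit 5) .nil .nil))))) 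
(.nd (nat_lit 4) (.nd (nat_lit 5) 
(.lf (nat_lit 259980) (.g (nat_lit 2753) (.e (nat_lit 164399) (nat_lit 256) (.e (nat_lit 57378) (nat_lit 3) (.e (nat_lit 98367) (nat_lit 27) (.e (nat_lit 434231) (nat_lit 23) (.e (nat_lit 532507) (nat_lit 2) (.e (nat_lit 106537) (nat_lit 12) (.e (nat_lit 57464) (nat_lit 23) (.e (nat_lit 516116) (nat_lit 1) .nil)))))))) (.g (nat_lit 4) .nil .nil))) 
(.lf (nat_lit 260012) (.g (nat_lit 2360) (.e (nat_lit 164399) (nat_lit 256) (.e (nat_lit 57379) (nat_lit 3) (.e (nat_lit 98365) (nat_lit 26) (.e (nat_lit 426187) (nat_lit 9) (.e (nat_lit 426566) (nat_lit 34) (.e (nat_lit 393250) (nat_lit 18) .nil)))))) (.g (nat_lit 5) .nil .nil)))) (.nd (nat_lit 5) 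
(.lf (nat_lit 259996) (.g (nat_lit 2418) (.e (nat_lit 164399) (nat_lit 256) (.e (nat_lit 57378) (nat_lit 3) (.e (nat_lit 98381) (nat_lit 31) (.e (nat_lit 466954) (nat_lit 11) (.e (nat_lit 336405) (nat_lit 27) (.e (nat_lit 426099) (nat_lit 1) .nil)))))) (.g (nat_lit 4) .nil .nil))) 
(.lf (nat_lit 260028) (.g (nat_lit 2065) (.e (nat_lit 164399) (nat_lit 256) (.e (nat_lit 57379) (nat_lit 3) (.e (nat_lit 98370) (nat_lit 28) (.e (nat_lit 442390) (nat_lit 11) (.e (nat_lit 336387) (nat_lit 27) (.e (nat_lit 433920) (nat_lit 1) .nil)))))) (.g (nat_lit 5) .nil .nil))))))) (.nd (nat_lit 2) (.nd (nat_lit 3) (.nd (nat_lit 4) (.nd (nat_lit 5) 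
(.lf (nat_lit 259970) (.g (nat_lit 3302) (.e (nat_lit 164399) (nat_lit 256) (.e (nat_lit 57378) (nat_lit 3) (.e (nat_lit 98366) (nat_lit 27) (.e (nat_lit 434231) (nat_lit 23) (.e (nat_lit 532483) (nat_lit 0) (.e (nat_lit 2198) (nat_lit 144) (.e (nat_lit 720945) (nat_lit 23) (.e (nat_lit 98334) (nat_lit 18) .nil)))))))) (.g (nat_lit 4) .nil .nil))) 
(.lf (nat_lit 260002) (.g (nat_lit 1225) (.e (nat_lit 164399) (nat_lit 256) (.e (nat_lit 57378) (nat_lit 3) (.e (nat_lit 98385) (nat_lit 32) .nil))) .nil))) (.nd (nat_lit 5) 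
(.lf (nat_lit 259986) (.g (nat_lit 1666) (.e (nat_lit 164399) (nat_lit 256) (.e (nat_lit 57378) (nat_lit 3) (.e (nat_lit 98372) (nat_lit 29) (.e (nat_lit 458496) (nat_lit 23) .nil)))) .nil)) 
(.lf (nat_lit 260018) (.g (nat_lit 1244) (.e (nat_lit 164399) (nat_lit 256) (.e (nat_lit 57379) (nat_lit 3) (.e (nat_lit 98365) (nat_lit 26) (.e (nat_lit 426327) (nat_lit 13) .nil)))) .nil)))) (.nd (nat_lit 4) (.nd (nat_lit 5) 
(.lf (nat_lit 259978) (.g (nat_lit 2872) (.e (nat_lit 164399) (nat_lit 256) (.e (nat_lit 57378) (nat_lit 3) (.e (nat_lit 98367) (nat_lit 27) (.e (nat_lit 434231) (nat_lit 23) (.e (nat_lit 532506) (nat_lit 2) (.e (nat_lit 106539) (nat_lit 12) (.e (nat_lit 57466) (nat_lit 23) (.e (nat_lit 516115) (nat_lit 1) .nil)))))))) (.g (nat_lit 4) .nil .nil))) 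
(.lf (nat_lit 260010) (.g (nat_lit 1532) (.e (nat_lit 164399) (nat_lit 256) (.e (nat_lit 57379) (nat_lit 3) (.e (nat_lit 98363) (nat_lit 26) (.e (nat_lit 426228) (nat_lit 9) (.e (nat_lit 426565) (nat_lit 34) (.e (nat_lit 401152) (nat_lit 18) .nil)))))) (.g (nat_lit 5) .nil .nil)))) (.nd (nat_lit 5) 
(.lf (nat_lit 259994) (.g (nat_lit 2439) (.e (nat_lit 164399) (nat_lit 256) (.e (nat_lit 57378) (nat_lit 3) (.e (nat_lit 98380) (nat_lit 31) (.e (nat_lit 466954) (nat_lit 11) (.e (nat_lit 336405) (nat_lit 27) (.e (nat_lit 426099) (nat_lit 1) .nil)))))) (.g (nat_lit 4) .nil .nil))) 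
(.lf (nat_lit 260026) (.g (nat_lit 1750) (.e (nat_lit 164399) (nat_lit 256) (.e (nat_lit 57379) (nat_lit 3) (.e (nat_lit 98367) (nat_lit 27) (.e (nat_lit 434234) (nat_lit 23) .nil)))) .nil))))) (.nd (nat_lit 3) (.nd (nat_lit 4) (.nd (nat_lit 5) 
(.lf (nat_lit 259974) (.g (nat_lit 3179) (.e (nat_lit 164399) (nat_lit 256) (.e (nat_lit 57378) (nat_lit 3) (.e (nat_lit 98366) (nat_lit 27) (.e (nat_lit 434231) (nat_lit 23) (.e (nat_lit 532506) (nat_lit 2) (.e (nat_lit 106540) (nat_lit 13) (.e (nat_lit 122936) (nat_lit 23) (.e (nat_lit 516117) (nat_lit 1) .nil)))))))) (.g (nat_lit 4) .nil .nil))) 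
(.lf (nat_lit 260006) (.g (nat_lit 3898) (.e (nat_lit 164399) (nat_lit 256) (.e (nat_lit 57379) (nat_lit 3) (.e (nat_lit 98356) (nat_lit 26) (.e (nat_lit 426438) (nat_lit 18) (.e (nat_lit 98358) (nat_lit 26) (.e (nat_lit 426131) (nat_lit 3) (.e (nat_lit 212736) (nat_lit 1) .nil))))))) (.g (nat_lit 6) .nil .nil)))) (.nd (nat_lit 5) 
(.lf (nat_lit 259990) (.g (nat_lit 2020) (.e (nat_lit 164399) (nat_lit 256) (.e (nat_lit 57378) (nat_lit 3) (.e (nat_lit 98373) (nat_lit 29) (.e (nat_lit 450602) (nat_lit 22) .nil)))) .nil)) 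
(.lf (nat_lit 260022) (.g (nat_lit 1723) (.e (nat_lit 164399) (nat_lit 256) (.e (nat_lit 57379) (nat_lit 3) (.e (nat_lit 98366) (nat_lit 27) (.e (nat_lit 434231) (nat_lit 23) (.e (nat_lit 532507) (nat_lit 2) .nil))))) .nil)))) (.nd (nat_lit 4) (.nd (nat_lit 5) 
(.lf (nat_lit 259982) (.g (nat_lit 2698) (.e (nat_lit 164399) (nat_lit 256) (.e (nat_lit 57378) (nat_lit 3) (.e (nat_lit 98367) (nat_lit 27) (.e (nat_lit 434231) (nat_lit 23) (.e (nat_lit 532513) (nat_lit 3) (.e (nat_lit 114706) (nat_lit 20) (.e (nat_lit 1796) (nat_lit 119) (.e (nat_lit 516115) (nat_lit 1) .nil)))))))) (.g (nat_lit 4) .nil .nil))) 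
(.lf (nat_lit 260014) (.g (nat_lit 2203) (.e (nat_lit 164399) (nat_lit 256) (.e (nat_lit 57379) (nat_lit 3) (.e (nat_lit 98365) (nat_lit 26) (.e (nat_lit 426188) (nat_lit 9) (.e (nat_lit 426481) (nat_lit 27) .nil))))) .nil))) (.nd (nat_lit 5) 
(.lf (nat_lit 259998) (.g (nat_lit 4606) (.e (nat_lit 164399) (nat_lit 256) (.e (nat_lit 57378) (nat_lit 3) (.e (nat_lit 98384) (nat_lit 32) (.e (nat_lit 475177) (nat_lit 24) (.e (nat_lit 516150) (nat_lit 9) (.e (nat_lit 426131) (nat_lit 3) (.e (nat_lit 212736) (nat_lit 1) .nil))))))) (.g (nat_lit 6) .nil .nil))) 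
(.lf (nat_lit 260030) (.g (nat_lit 1737) (.e (nat_lit 164399) (nat_lit 256) (.e (nat_lit 57379) (nat_lit 3) (.e (nat_lit 98372) (nat_lit 29) (.e (nat_lit 450602) (nat_lit 22) .nil)))) .nil))))))) (.nd (nat_lit 1) (.nd (nat_lit 2) (.nd (nat_lit 3) (.nd (nat_lit 4) (.nd (nat_lit 5) 
(.lf (nat_lit 259969) (.g (nat_lit 1203) (.e (nat_lit 164399) (nat_lit 256) (.e (nat_lit 57378) (nat_lit 3) (.e (nat_lit 98366) (nat_lit 27) (.e (nat_lit 434231) (nat_lit 23) .nil)))) .nil)) 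
(.lf (nat_lit 260001) (.g (nat_lit 3486) (.e (nat_lit 164399) (nat_lit 256) (.e (nat_lit 57378) (nat_lit 3) (.e (nat_lit 98384) (nat_lit 32) (.e (nat_lit 475179) (nat_lit 24) (.e (nat_lit 516171) (nat_lit 13) .nil))))) .nil))) (.nd (nat_lit 5) 
(.lf (nat_lit 259985) (.g (nat_lit 915) (.e (nat_lit 164399) (nat_lit 256) (.e (nat_lit 57378) (nat_lit 3) (.e (nat_lit 98372) (nat_lit 29) .nil))) .nil)) 
(.lf (nat_lit 260017) (.g (nat_lit 2047) (.e (nat_lit 164399) (nat_lit 256) (.e (nat_lit 57379) (nat_lit 3) (.e (nat_lit 98365) (nat_lit 26) (.e (nat_lit 426188) (nat_lit 9) (.e (nat_lit 426491) (nat_lit 27) .nil))))) .nil)))) (.nd (nat_lit 4) (.nd (nat_lit 5) 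
(.lf (nat_lit 259977) (.g (nat_lit 2804) (.e (nat_lit 164399) (nat_lit 256) (.e (nat_lit 57378) (nat_lit 3) (.e (nat_lit 98367) (nat_lit 27) (.e (nat_lit 434231) (nat_lit 23) (.e (nat_lit 532506) (nat_lit 2) (.e (nat_lit 106539) (nat_lit 12) (.e (nat_lit 57465) (nat_lit 23) (.e (nat_lit 516115) (nat_lit 1) .nil)))))))) (.g (nat_lit 4) .nil .nil))) 
(.lf (nat_lit 260009) (.g (nat_lit 754) (.e (nat_lit 164399) (nat_lit 256) (.e (nat_lit 57379) (nat_lit 3) (.e (nat_lit 98359) (nat_lit 26) .nil))) .nil))) (.nd (nat_lit 5) 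
(.lf (nat_lit 259993) (.g (nat_lit 421) (.e (nat_lit 164399) (nat_lit 256) (.e (nat_lit 57378) (nat_lit 3) (.e (nat_lit 98380) (nat_lit 31) .nil))) .nil)) 
(.lf (nat_lit 260025) (.g (nat_lit 2879) (.e (nat_lit 164399) (nat_lit 256) (.e (nat_lit 57379) (nat_lit 3) (.e (nat_lit 98367) (nat_lit 27) (.e (nat_lit 434231) (nat_lit 23) (.e (nat_lit 532507) (nat_lit 2) (.e (nat_lit 106537) (nat_lit 12) (.e (nat_lit 57464) (nat_lit 23) (.e (nat_lit 516115) (nat_lit 1) .nil)))))))) (.g (nat_lit 4) .nil .nil)))))) 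
(.nd (nat_lit 3) (.nd (nat_lit 4) (.nd (nat_lit 5) 
(.lf (nat_lit 259973) (.g (nat_lit 3027) (.e (nat_lit 164399) (nat_lit 256) (.e (nat_lit 57378) (nat_lit 3) (.e (nat_lit 98366) (nat_lit 27) (.e (nat_lit 434231) (nat_lit 23) (.e (nat_lit 532506) (nat_lit 2) (.e (nat_lit 106540) (nat_lit 13) (.e (nat_lit 122936) (nat_lit 23) (.e (nat_lit 516115) (nat_lit 1) .nil)))))))) (.g (nat_lit 4) .nil .nil))) 
(.lf (nat_lit 260005) (.g (nat_lit 1585) (.e (nat_lit 164399) (nat_lit 256) (.e (nat_lit 57379) (nat_lit 3) (.e (nat_lit 98356) (nat_lit 26) (.e (nat_lit 426438) (nat_lit 18) .nil)))) .nil))) (.nd (nat_lit 5) 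
(.lf (nat_lit 259989) (.g (nat_lit 2198) (.e (nat_lit 164399) (nat_lit 256) (.e (nat_lit 57378) (nat_lit 3) (.e (nat_lit 98373) (nat_lit 29) (.e (nat_lit 450599) (nat_lit 19) .nil)))) .nil)) 
(.lf (nat_lit 260021) (.g (nat_lit 3542) (.e (nat_lit 164399) (nat_lit 256) (.e (nat_lit 57379) (nat_lit 3) (.e (nat_lit 98366) (nat_lit 27) (.e (nat_lit 434231) (nat_lit 23) (.e (nat_lit 532490) (nat_lit 0) (.e (nat_lit 2155) (nat_lit 142) (.e (nat_lit 704746) (nat_lit 12) (.e (nat_lit 57465) (nat_lit 23) (.e (nat_lit 516115) (nat_lit 1) .nil))))))))) (.g (nat_lit 5) .nil .nil))))) 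
(.nd (nat_lit 4) (.nd (nat_lit 5) 
(.lf (nat_lit 259981) (.g (nat_lit 2747) (.e (nat_lit 164399) (nat_lit 256) (.e (nat_lit 57378) (nat_lit 3) (.e (nat_lit 98367) (nat_lit 27) (.e (nat_lit 434231) (nat_lit 23) (.e (nat_lit 532507) (nat_lit 2) (.e (nat_lit 114432) (nat_lit 13) (.e (nat_lit 122936) (nat_lit 23) (.e (nat_lit 516115) (nat_lit 1) .nil)))))))) (.g (nat_lit 4) .nil .nil))) 
(.lf (nat_lit 260013) (.g (nat_lit 2239) (.e (nat_lit 164399) (nat_lit 256) (.e (nat_lit 57379) (nat_lit 3) (.e (nat_lit 98365) (nat_lit 26) (.e (nat_lit 426188) (nat_lit 9) (.e (nat_lit 426478) (nat_lit 27) .nil))))) .nil))) (.nd (nat_lit 5) 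
(.lf (nat_lit 259997) (.g (nat_lit 1086) (.e (nat_lit 164399) (nat_lit 256) (.e (nat_lit 57378) (nat_lit 3) (.e (nat_lit 98384) (nat_lit 32) .nil))) .nil)) 
(.lf (nat_lit 260029) (.g (nat_lit 2064) (.e (nat_lit 164399) (nat_lit 256) (.e (nat_lit 57379) (nat_lit 3) (.e (nat_lit 98372) (nat_lit 29) (.e (nat_lit 450561) (nat_lit 0) (.e (nat_lit 6595) (nat_lit 351) .nil))))) .nil)))))) (.nd (nat_lit 2) (.nd (nat_lit 3) (.nd (nat_lit 4) (.nd (nat_lit 5) 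
(.lf (nat_lit 259971) (.g (nat_lit 3711) (.e (nat_lit 164399) (nat_lit 256) (.e (nat_lit 57378) (nat_lit 3) (.e (nat_lit 98366) (nat_lit 27) (.e (nat_lit 434231) (nat_lit 23) (.e (nat_lit 532490) (nat_lit 0) (.e (nat_lit 2155) (nat_lit 142) (.e (nat_lit 704746) (nat_lit 12) (.e (nat_lit 57464) (nat_lit 23) (.e (nat_lit 516115) (nat_lit 1) .nil))))))))) (.g (nat_lit 5) .nil .nil))) 
(.lf (nat_lit 260003) (.g (nat_lit 1225) (.e (nat_lit 164399) (nat_lit 256) (.e (nat_lit 57378) (nat_lit 3) (.e (nat_lit 98386) (nat_lit 32) .nil))) .nil))) (.nd (nat_lit 5) 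
(.lf (nat_lit 259987) (.g (nat_lit 3345) (.e (nat_lit 164399) (nat_lit 256) (.e (nat_lit 57378) (nat_lit 3) (.e (nat_lit 98373) (nat_lit 29) (.e (nat_lit 450561) (nat_lit 0) (.e (nat_lit 6595) (nat_lit 351) .nil))))) .nil)) 
(.lf (nat_lit 260019) (.g (nat_lit 3411) (.e (nat_lit 164399) (nat_lit 256) (.e (nat_lit 57379) (nat_lit 3) (.e (nat_lit 98366) (nat_lit 27) (.e (nat_lit 434231) (nat_lit 23) (.e (nat_lit 532483) (nat_lit 0) (.e (nat_lit 2198) (nat_lit 144) (.e (nat_lit 720945) (nat_lit 23) (.e (nat_lit 98334) (nat_lit 18) .nil)))))))) (.g (nat_lit 4) .nil .nil))))) (.nd (nat_lit 4) (.nd (nat_lit 5) 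
(.lf (nat_lit 259979) (.g (nat_lit 2914) (.e (nat_lit 164399) (nat_lit 256) (.e (nat_lit 57378) (nat_lit 3) (.e (nat_lit 98367) (nat_lit 27) (.e (nat_lit 434231) (nat_lit 23) (.e (nat_lit 532506) (nat_lit 2) (.e (nat_lit 106539) (nat_lit 12) (.e (nat_lit 57467) (nat_lit 23) (.e (nat_lit 516115) (nat_lit 1) .nil)))))))) (.g (nat_lit 4) .nil .nil))) 
(.lf (nat_lit 260011) (.g (nat_lit 1583) (.e (nat_lit 164399) (nat_lit 256) (.e (nat_lit 57379) (nat_lit 3) (.e (nat_lit 98363) (nat_lit 26) (.e (nat_lit 426230) (nat_lit 9) (.e (nat_lit 426565) (nat_lit 34) (.e (nat_lit 401152) (nat_lit 18) .nil)))))) (.g (nat_lit 5) .nil .nil)))) (.nd (nat_lit 5) 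
(.lf (nat_lit 259995) (.g (nat_lit 417) (.e (nat_lit 164399) (nat_lit 256) (.e (nat_lit 57378) (nat_lit 3) (.e (nat_lit 98381) (nat_lit 31) .nil))) .nil)) 
(.lf (nat_lit 260027) (.g (nat_lit 1832) (.e (nat_lit 164399) (nat_lit 256) (.e (nat_lit 57379) (nat_lit 3) (.e (nat_lit 98369) (nat_lit 28) (.e (nat_lit 442390) (nat_lit 11) (.e (nat_lit 336387) (nat_lit 27) (.e (nat_lit 433920) (nat_lit 1) .nil)))))) (.g (nat_lit 5) .nil .nil)))))) (.nd (nat_lit 3) (.nd (nat_lit 4) (.nd (nat_lit 5) 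
(.lf (nat_lit 259975) (.g (nat_lit 3590) (.e (nat_lit 164399) (nat_lit 256) (.e (nat_lit 57378) (nat_lit 3) (.e (nat_lit 98367) (nat_lit 27) (.e (nat_lit 434231) (nat_lit 23) (.e (nat_lit 532483) (nat_lit 0) (.e (nat_lit 2198) (nat_lit 144) (.e (nat_lit 720945) (nat_lit 23) (.e (nat_lit 98334) (nat_lit 18) .nil)))))))) (.g (nat_lit 4) .nil .nil))) 
(.lf (nat_lit 260007) (.g (nat_lit 2299) (.e (nat_lit 164399) (nat_lit 256) (.e (nat_lit 57379) (nat_lit 3) (.e (nat_lit 98356) (nat_lit 26) (.e (nat_lit 426438) (nat_lit 18) (.e (nat_lit 98367) (nat_lit 27) .nil))))) .nil))) (.nd (nat_lit 5) 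
(.lf (nat_lit 259991) (.g (nat_lit 1705) (.e (nat_lit 164399) (nat_lit 256) (.e (nat_lit 57378) (nat_lit 3) (.e (nat_lit 98373) (nat_lit 29) (.e (nat_lit 458496) (nat_lit 23) .nil)))) .nil)) 
(.lf (nat_lit 260023) (.g (nat_lit 3165) (.e (nat_lit 164399) (nat_lit 256) (.e (nat_lit 57379) (nat_lit 3) (.e (nat_lit 98367) (nat_lit 27) (.e (nat_lit 434231) (nat_lit 23) (.e (nat_lit 532483) (nat_lit 0) (.e (nat_lit 2198) (nat_lit 144) (.e (nat_lit 720945) (nat_lit 23) (.e (nat_lit 98334) (nat_lit 18) .nil)))))))) (.g (nat_lit 4) .nil .nil))))) (.nd (nat_lit 4) (.nd (nat_lit 5) 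
(.lf (nat_lit 259983) (.g (nat_lit 2794) (.e (nat_lit 164399) (nat_lit 256) (.e (nat_lit 57378) (nat_lit 3) (.e (nat_lit 98367) (nat_lit 27) (.e (nat_lit 434231) (nat_lit 23) (.e (nat_lit 532514) (nat_lit 3) (.e (nat_lit 114706) (nat_lit 20) (.e (nat_lit 1796) (nat_lit 119) (.e (nat_lit 516115) (nat_lit 1) .nil)))))))) (.g (nat_lit 4) .nil .nil))) 
(.lf (nat_lit 260015) (.g (nat_lit 2101) (.e (nat_lit 164399) (nat_lit 256) (.e (nat_lit 57379) (nat_lit 3) (.e (nat_lit 98365) (nat_lit 26) (.e (nat_lit 426188) (nat_lit 9) (.e (nat_lit 426484) (nat_lit 27) .nil))))) .nil))) (.nd (nat_lit 5) 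
(.lf (nat_lit 259999) (.g (nat_lit 4485) (.e (nat_lit 164399) (nat_lit 256) (.e (nat_lit 57378) (nat_lit 3) (.e (nat_lit 98384) (nat_lit 32) (.e (nat_lit 475177) (nat_lit 24) (.e (nat_lit 516169) (nat_lit 13) (.e (nat_lit 458789) (nat_lit 23) (.e (nat_lit 540416) (nat_lit 18) .nil))))))) (.g (nat_lit 6) .nil .nil))) 
(.lf (nat_lit 260031) (.g (nat_lit 3326) (.e (nat_lit 164399) (nat_lit 256) (.e (nat_lit 57379) (nat_lit 3) (.e (nat_lit 98373) (nat_lit 29) (.e (nat_lit 450562) (nat_lit 0) (.e (nat_lit 6595) (nat_lit 351) (.e (nat_lit 2458) (nat_lit 157) (.e (nat_lit 2946) (nat_lit 184) (.e (nat_lit 426100) (nat_lit 1) .nil)))))))) (.g (nat_lit 4) .nil .nil)))))))))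

noncomputable def tv3360 : DT := (.nd (nat_lit 0) (.nd (nat_lit 1) (.nd (nat_lit 2) (.nd (nat_lit 3) (.nd (nat_lit 4) (.nd (nat_lit 5) 
(.lf (nat_lit 260032) (.g (nat_lit 1601) (.e (nat_lit 164399) (nat_lit 256) (.e (nat_lit 57379) (nat_lit 3) (.e (nat_lit 98373) (nat_lit 29) (.e (nat_lit 450563) (nat_lit 0) .nil)))) .nil)) 
(.lf (nat_lit 260064) (.g (nat_lit 3597) (.e (nat_lit 164399) (nat_lit 256) (.e (nat_lit 57390) (nat_lit 5) (.e (nat_lit 114723) (nat_lit 24) (.e (nat_lit 106536) (nat_lit 11) (.e (nat_lit 16458) (nat_lit 12) (.e (nat_lit 475214) (nat_lit 42) (.e (nat_lit 728832) (nat_lit 1) .nil))))))) (.g (nat_lit 6) .nil .nil)))) (.nd (nat_lit 5) 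
(.lf (nat_lit 260048) (.g (nat_lit 1921) (.e (nat_lit 164399) (nat_lit 256) (.e (nat_lit 57379) (nat_lit 3) (.e (nat_lit 98381) (nat_lit 31) (.e (nat_lit 466954) (nat_lit 11) (.e (nat_lit 336387) (nat_lit 27) (.e (nat_lit 433920) (nat_lit 1) .nil)))))) (.g (nat_lit 5) .nil .nil))) 
(.lf (nat_lit 260080) (.g (nat_lit 2950) (.e (nat_lit 164399) (nat_lit 256) (.e (nat_lit 57407) (nat_lit 12) (.e (nat_lit 336443) (nat_lit 32) (.e (nat_lit 466977) (nat_lit 22) (.e (nat_lit 196654) (nat_lit 11) (.e (nat_lit 16406) (nat_lit 1) .nil)))))) (.g (nat_lit 0) .nil .nil))))) (.nd (nat_lit 4) (.nd (nat_lit 5) 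
(.lf (nat_lit 260040) (.g (nat_lit 1939) (.e (nat_lit 164399) (nat_lit 256) (.e (nat_lit 57379) (nat_lit 3) (.e (nat_lit 98377) (nat_lit 30) (.e (nat_lit 458789) (nat_lit 23) (.e (nat_lit 532515) (nat_lit 3) (.e (nat_lit 114716) (nat_lit 22) (.e (nat_lit 90129) (nat_lit 9) (.e (nat_lit 2602) (nat_lit 163) .nil)))))))) (.g (nat_lit 4) .nil .nil))) 
(.lf (nat_lit 260072) (.g (nat_lit 2059) (.e (nat_lit 164399) (nat_lit 256) (.e (nat_lit 57400) (nat_lit 10) (.e (nat_lit 319534) (nat_lit 16) (.e (nat_lit 286761) (nat_lit 13) (.e (nat_lit 393281) (nat_lit 23) .nil))))) .nil))) (.nd (nat_lit 5) 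
(.lf (nat_lit 260056) (.g (nat_lit 1755) (.e (nat_lit 164399) (nat_lit 256) (.e (nat_lit 57390) (nat_lit 5) (.e (nat_lit 114714) (nat_lit 22) (.e (nat_lit 90160) (nat_lit 11) (.e (nat_lit 24617) (nat_lit 7) .nil))))) .nil)) 
(.lf (nat_lit 260088) (.g (nat_lit 2499) (.e (nat_lit 164399) (nat_lit 256) (.e (nat_lit 57410) (nat_lit 12) (.e (nat_lit 336443) (nat_lit 32) (.e (nat_lit 466974) (nat_lit 22) (.e (nat_lit 196654) (nat_lit 11) (.e (nat_lit 16406) (nat_lit 1) .nil)))))) (.g (nat_lit 5) .nil .nil)))))) (.nd (nat_lit 3) (.nd (nat_lit 4) (.nd (nat_lit 5) 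
(.lf (nat_lit 260036) (.g (nat_lit 1707) (.e (nat_lit 164399) (nat_lit 256) (.e (nat_lit 57379) (nat_lit 3) (.e (nat_lit 98376) (nat_lit 30) (.e (nat_lit 458789) (nat_lit 23) (.e (nat_lit 532515) (nat_lit 3) (.e (nat_lit 114716) (nat_lit 22) (.e (nat_lit 90129) (nat_lit 9) (.e (nat_lit 2602) (nat_lit 163) .nil)))))))) (.g (nat_lit 4) .nil .nil))) 
(.lf (nat_lit 260068) (.g (nat_lit 2380) (.e (nat_lit 164399) (nat_lit 256) (.e (nat_lit 57399) (nat_lit 10) (.e (nat_lit 319531) (nat_lit 16) (.e (nat_lit 286761) (nat_lit 13) (.e (nat_lit 393270) (nat_lit 23) (.e (nat_lit 433920) (nat_lit 1) .nil)))))) (.g (nat_lit 5) .nil .nil)))) (.nd (nat_lit 5) 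
(.lf (nat_lit 260052) (.g (nat_lit 3956) (.e (nat_lit 164399) (nat_lit 256) (.e (nat_lit 57379) (nat_lit 3) (.e (nat_lit 98384) (nat_lit 32) (.e (nat_lit 475177) (nat_lit 24) (.e (nat_lit 516169) (nat_lit 13) (.e (nat_lit 458789) (nat_lit 23) (.e (nat_lit 540416) (nat_lit 18) .nil))))))) (.g (nat_lit 6) .nil .nil))) 
(.lf (nat_lit 260084) (.g (nat_lit 1869) (.e (nat_lit 164399) (nat_lit 256) (.e (nat_lit 57409) (nat_lit 12) (.e (nat_lit 336434) (nat_lit 30) (.e (nat_lit 450579) (nat_lit 5) (.e (nat_lit 532578) (nat_lit 26) (.e (nat_lit 433920) (nat_lit 1) .nil)))))) (.g (nat_lit 5) .nil .nil))))) (.nd (nat_lit 4) (.nd (nat_lit 5) 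
(.lf (nat_lit 260044) (.g (nat_lit 1888) (.e (nat_lit 164399) (nat_lit 256) (.e (nat_lit 57379) (nat_lit 3) (.e (nat_lit 98380) (nat_lit 31) (.e (nat_lit 466954) (nat_lit 11) (.e (nat_lit 336401) (nat_lit 27) (.e (nat_lit 433920) (nat_lit 1) .nil)))))) (.g (nat_lit 5) .nil .nil))) 
(.lf (nat_lit 260076) (.g (nat_lit 984) (.e (nat_lit 164399) (nat_lit 256) (.e (nat_lit 57407) (nat_lit 12) (.e (nat_lit 336431) (nat_lit 29) .nil))) .nil))) (.nd (nat_lit 5) 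
(.lf (nat_lit 260060) (.g (nat_lit 3493) (.e (nat_lit 164399) (nat_lit 256) (.e (nat_lit 57390) (nat_lit 5) (.e (nat_lit 114722) (nat_lit 24) (.e (nat_lit 106536) (nat_lit 11) (.e (nat_lit 16458) (nat_lit 12) (.e (nat_lit 475214) (nat_lit 42) (.e (nat_lit 728832) (nat_lit 1) .nil))))))) (.g (nat_lit 6) .nil .nil))) 
(.lf (nat_lit 260092) (.g (nat_lit 2450) (.e (nat_lit 164399) (nat_lit 256) (.e (nat_lit 57410) (nat_lit 12) (.e (nat_lit 336443) (nat_lit 32) (.e (nat_lit 466977) (nat_lit 22) (.e (nat_lit 196654) (nat_lit 11) (.e (nat_lit 16406) (nat_lit 1) .nil)))))) (.g (nat_lit 4) .nil .nil))))))) (.nd (nat_lit 2) (.nd (nat_lit 3) (.nd (nat_lit 4) (.nd (nat_lit 5) 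
(.lf (nat_lit 260034) (.g (nat_lit 2175) (.e (nat_lit 164399) (nat_lit 256) (.e (nat_lit 57379) (nat_lit 3) (.e (nat_lit 98373) (nat_lit 29) (.e (nat_lit 450599) (nat_lit 19) .nil)))) .nil)) 
(.lf (nat_lit 260066) (.g (nat_lit 3563) (.e (nat_lit 164399) (nat_lit 256) (.e (nat_lit 57390) (nat_lit 5) (.e (nat_lit 114723) (nat_lit 24) (.e (nat_lit 106536) (nat_lit 11) (.e (nat_lit 16461) (nat_lit 12) (.e (nat_lit 475214) (nat_lit 42) (.e (nat_lit 728832) (nat_lit 1) .nil))))))) (.g (nat_lit 6) .nil .nil)))) (.nd (nat_lit 5) 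
(.lf (nat_lit 260050) (.g (nat_lit 3311) (.e (nat_lit 164399) (nat_lit 256) (.e (nat_lit 57379) (nat_lit 3) (.e (nat_lit 98384) (nat_lit 32) (.e (nat_lit 475177) (nat_lit 24) (.e (nat_lit 516143) (nat_lit 9) (.e (nat_lit 426140) (nat_lit 3) (.e (nat_lit 212736) (nat_lit 1) .nil))))))) (.g (nat_lit 6) .nil .nil))) 
(.lf (nat_lit 260082) (.g (nat_lit 2030) (.e (nat_lit 164399) (nat_lit 256) (.e (nat_lit 57407) (nat_lit 12) (.e (nat_lit 336444) (nat_lit 32) (.e (nat_lit 466977) (nat_lit 22) (.e (nat_lit 196656) (nat_lit 11) (.e (nat_lit 16405) (nat_lit 1) .nil)))))) (.g (nat_lit 4) .nil .nil))))) (.nd (nat_lit 4) (.nd (nat_lit 5) 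
(.lf (nat_lit 260042) (.g (nat_lit 1298) (.e (nat_lit 164399) (nat_lit 256) (.e (nat_lit 57379) (nat_lit 3) (.e (nat_lit 98380) (nat_lit 31) (.e (nat_lit 466952) (nat_lit 11) (.e (nat_lit 336402) (nat_lit 27) (.e (nat_lit 433920) (nat_lit 1) .nil)))))) (.g (nat_lit 5) .nil .nil))) 
(.lf (nat_lit 260074) (.g (nat_lit 605) (.e (nat_lit 164399) (nat_lit 256) (.e (nat_lit 57407) (nat_lit 12) (.e (nat_lit 336426) (nat_lit 29) .nil))) .nil))) (.nd (nat_lit 5) 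
(.lf (nat_lit 260058) (.g (nat_lit 4708) (.e (nat_lit 164399) (nat_lit 256) (.e (nat_lit 57390) (nat_lit 5) (.e (nat_lit 114722) (nat_lit 24) (.e (nat_lit 106536) (nat_lit 11) (.e (nat_lit 16436) (nat_lit 9) (.e (nat_lit 426448) (nat_lit 20) (.e (nat_lit 122624) (nat_lit 1) .nil))))))) (.g (nat_lit 6) .nil .nil))) 
(.lf (nat_lit 260090) (.g (nat_lit 2492) (.e (nat_lit 164399) (nat_lit 256) (.e (nat_lit 57410) (nat_lit 12) (.e (nat_lit 336443) (nat_lit 32) (.e (nat_lit 466974) (nat_lit 22) (.e (nat_lit 196656) (nat_lit 11) (.e (nat_lit 16406) (nat_lit 1) .nil)))))) (.g (nat_lit 5) .nil .nil)))))) (.nd (nat_lit 3) (.nd (nat_lit 4) (.nd (nat_lit 5) 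
(.lf (nat_lit 260038) (.g (nat_lit 1663) (.e (nat_lit 164399) (nat_lit 256) (.e (nat_lit 57379) (nat_lit 3) (.e (nat_lit 98377) (nat_lit 30) (.e (nat_lit 458789) (nat_lit 23) (.e (nat_lit 532508) (nat_lit 2) .nil))))) .nil)) 
(.lf (nat_lit 260070) (.g (nat_lit 1891) (.e (nat_lit 164399) (nat_lit 256) (.e (nat_lit 57400) (nat_lit 10) (.e (nat_lit 319534) (nat_lit 16) (.e (nat_lit 286760) (nat_lit 13) .nil)))) .nil))) (.nd (nat_lit 5) 
(.lf (nat_lit 260054) (.g (nat_lit 701) (.e (nat_lit 164399) (nat_lit 256) (.e (nat_lit 57388) (nat_lit 5) (.e (nat_lit 114714) (nat_lit 22) .nil))) .nil)) 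
(.lf (nat_lit 260086) (.g (nat_lit 2752) (.e (nat_lit 164399) (nat_lit 256) (.e (nat_lit 57409) (nat_lit 12) (.e (nat_lit 336443) (nat_lit 32) (.e (nat_lit 466979) (nat_lit 23) (.e (nat_lit 204809) (nat_lit 9) (.e (nat_lit 426100) (nat_lit 1) .nil)))))) (.g (nat_lit 0) .nil .nil))))) (.nd (nat_lit 4) (.nd (nat_lit 5) 
(.lf (nat_lit 260046) (.g (nat_lit 1320) (.e (nat_lit 164399) (nat_lit 256) (.e (nat_lit 57379) (nat_lit 3) (.e (nat_lit 98381) (nat_lit 31) (.e (nat_lit 466952) (nat_lit 11) (.e (nat_lit 336373) (nat_lit 27) (.e (nat_lit 433920) (nat_lit 1) .nil)))))) (.g (nat_lit 5) .nil .nil))) 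
(.lf (nat_lit 260078) (.g (nat_lit 2446) (.e (nat_lit 164399) (nat_lit 256) (.e (nat_lit 57407) (nat_lit 12) (.e (nat_lit 336434) (nat_lit 30) (.e (nat_lit 450579) (nat_lit 5) (.e (nat_lit 532578) (nat_lit 26) (.e (nat_lit 433920) (nat_lit 1) .nil)))))) (.g (nat_lit 4) .nil .nil)))) (.nd (nat_lit 5) 
(.lf (nat_lit 260062) (.g (nat_lit 3500) (.e (nat_lit 164399) (nat_lit 256) (.e (nat_lit 57390) (nat_lit 5) (.e (nat_lit 114722) (nat_lit 24) (.e (nat_lit 106536) (nat_lit 11) (.e (nat_lit 16461) (nat_lit 12) (.e (nat_lit 475214) (nat_lit 42) (.e (nat_lit 728832) (nat_lit 1) .nil))))))) (.g (nat_lit 6) .nil .nil))) 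
(.lf (nat_lit 260094) (.g (nat_lit 2555) (.e (nat_lit 164399) (nat_lit 256) (.e (nat_lit 57411) (nat_lit 12) (.e (nat_lit 336432) (nat_lit 30) (.e (nat_lit 450580) (nat_lit 5) (.e (nat_lit 532579) (nat_lit 26) (.e (nat_lit 433920) (nat_lit 1) .nil)))))) (.g (nat_lit 5) .nil .nil)))))))) (.nd (nat_lit 1) (.nd (nat_lit 2) (.nd (nat_lit 3) (.nd (nat_lit 4) (.nd (nat_lit 5) 
(.lf (nat_lit 260033) (.g (nat_lit 3403) (.e (nat_lit 164399) (nat_lit 256) (.e (nat_lit 57379) (nat_lit 3) (.e (nat_lit 98373) (nat_lit 29) (.e (nat_lit 450563) (nat_lit 0) (.e (nat_lit 6595) (nat_lit 351) .nil))))) .nil)) 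
(.lf (nat_lit 260065) (.g (nat_lit 3810) (.e (nat_lit 164399) (nat_lit 256) (.e (nat_lit 57390) (nat_lit 5) (.e (nat_lit 114723) (nat_lit 24) (.e (nat_lit 106536) (nat_lit 11) (.e (nat_lit 16459) (nat_lit 12) (.e (nat_lit 475214) (nat_lit 42) (.e (nat_lit 728832) (nat_lit 1) .nil))))))) (.g (nat_lit 6) .nil .nil)))) (.nd (nat_lit 5) 
(.lf (nat_lit 260049) (.g (nat_lit 1948) (.e (nat_lit 164399) (nat_lit 256) (.e (nat_lit 57379) (nat_lit 3) (.e (nat_lit 98381) (nat_lit 31) (.e (nat_lit 466954) (nat_lit 11) (.e (nat_lit 336401) (nat_lit 27) (.e (nat_lit 433920) (nat_lit 1) .nil)))))) (.g (nat_lit 5) .nil .nil))) 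
(.lf (nat_lit 260081) (.g (nat_lit 3169) (.e (nat_lit 164399) (nat_lit 256) (.e (nat_lit 57407) (nat_lit 12) (.e (nat_lit 336443) (nat_lit 32) (.e (nat_lit 466977) (nat_lit 22) (.e (nat_lit 196656) (nat_lit 11) (.e (nat_lit 16405) (nat_lit 1) .nil)))))) (.g (nat_lit 0) .nil .nil))))) (.nd (nat_lit 4) (.nd (nat_lit 5) 
(.lf (nat_lit 260041) (.g (nat_lit 1241) (.e (nat_lit 164399) (nat_lit 256) (.e (nat_lit 57379) (nat_lit 3) (.e (nat_lit 98380) (nat_lit 31) (.e (nat_lit 466952) (nat_lit 11) (.e (nat_lit 336373) (nat_lit 27) (.e (nat_lit 433920) (nat_lit 1) .nil)))))) (.g (nat_lit 5) .nil .nil))) 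
(.lf (nat_lit 260073) (.g (nat_lit 745) (.e (nat_lit 164399) (nat_lit 256) (.e (nat_lit 57402) (nat_lit 11) (.e (nat_lit 327717) (nat_lit 17) (.e (nat_lit 294957) (nat_lit 13) .nil)))) .nil))) (.nd (nat_lit 5) 
(.lf (nat_lit 260057) (.g (nat_lit 4582) (.e (nat_lit 164399) (nat_lit 256) (.e (nat_lit 57390) (nat_lit 5) (.e (nat_lit 114719) (nat_lit 23) (.e (nat_lit 98317) (nat_lit 9) (.e (nat_lit 336194) (nat_lit 12) (.e (nat_lit 385066) (nat_lit 26) (.e (nat_lit 540416) (nat_lit 18) .nil))))))) (.g (nat_lit 6) .nil .nil))) 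
(.lf (nat_lit 260089) (.g (nat_lit 2594) (.e (nat_lit 164399) (nat_lit 256) (.e (nat_lit 57410) (nat_lit 12) (.e (nat_lit 336443) (nat_lit 32) (.e (nat_lit 466974) (nat_lit 22) (.e (nat_lit 196656) (nat_lit 11) (.e (nat_lit 16405) (nat_lit 1) .nil)))))) (.g (nat_lit 5) .nil .nil)))))) (.nd (nat_lit 3) (.nd (nat_lit 4) (.nd (nat_lit 5) 
(.lf (nat_lit 260037) (.g (nat_lit 2390) (.e (nat_lit 164399) (nat_lit 256) (.e (nat_lit 57379) (nat_lit 3) (.e (nat_lit 98376) (nat_lit 30) (.e (nat_lit 458789) (nat_lit 23) (.e (nat_lit 532515) (nat_lit 3) (.e (nat_lit 114716) (nat_lit 22) (.e (nat_lit 90137) (nat_lit 9) (.e (nat_lit 2599) (nat_lit 163) .nil)))))))) (.g (nat_lit 5) .nil .nil))) 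
(.lf (nat_lit 260069) (.g (nat_lit 1784) (.e (nat_lit 164399) (nat_lit 256) (.e (nat_lit 57400) (nat_lit 10) (.e (nat_lit 319531) (nat_lit 16) (.e (nat_lit 286761) (nat_lit 13) (.e (nat_lit 393270) (nat_lit 23) .nil))))) .nil))) (.nd (nat_lit 5) 
(.lf (nat_lit 260053) (.g (nat_lit 3823) (.e (nat_lit 164399) (nat_lit 256) (.e (nat_lit 57379) (nat_lit 3) (.e (nat_lit 98384) (nat_lit 32) (.e (nat_lit 475177) (nat_lit 24) (.e (nat_lit 516171) (nat_lit 13) (.e (nat_lit 458789) (nat_lit 23) (.e (nat_lit 540416) (nat_lit 18) .nil))))))) (.g (nat_lit 6) .nil .nil))) 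
(.lf (nat_lit 260085) (.g (nat_lit 1072) (.e (nat_lit 164399) (nat_lit 256) (.e (nat_lit 57409) (nat_lit 12) (.e (nat_lit 336438) (nat_lit 31) (.e (nat_lit 466688) (nat_lit 3) .nil)))) .nil)))) (.nd (nat_lit 4) (.nd (nat_lit 5) 
(.lf (nat_lit 260045) (.g (nat_lit 791) (.e (nat_lit 164399) (nat_lit 256) (.e (nat_lit 57379) (nat_lit 3) (.e (nat_lit 98381) (nat_lit 31) (.e (nat_lit 466952) (nat_lit 11) .nil)))) .nil)) 
(.lf (nat_lit 260077) (.g (nat_lit 850) (.e (nat_lit 164399) (nat_lit 256) (.e (nat_lit 57407) (nat_lit 12) (.e (nat_lit 336434) (nat_lit 30) .nil))) .nil))) (.nd (nat_lit 5) 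
(.lf (nat_lit 260061) (.g (nat_lit 4002) (.e (nat_lit 164399) (nat_lit 256) (.e (nat_lit 57390) (nat_lit 5) (.e (nat_lit 114722) (nat_lit 24) (.e (nat_lit 106536) (nat_lit 11) (.e (nat_lit 16459) (nat_lit 12) (.e (nat_lit 475214) (nat_lit 42) (.e (nat_lit 728832) (nat_lit 1) .nil))))))) (.g (nat_lit 6) .nil .nil))) 
(.lf (nat_lit 260093) (.g (nat_lit 635) (.e (nat_lit 164399) (nat_lit 256) (.e (nat_lit 57411) (nat_lit 12) (.e (nat_lit 336432) (nat_lit 30) .nil))) .nil)))))) (.nd (nat_lit 2) (.nd (nat_lit 3) (.nd (nat_lit 4) (.nd (nat_lit 5) 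
(.lf (nat_lit 260035) (.g (nat_lit 1819) (.e (nat_lit 164399) (nat_lit 256) (.e (nat_lit 57379) (nat_lit 3) (.e (nat_lit 98373) (nat_lit 29) (.e (nat_lit 450602) (nat_lit 22) .nil)))) .nil)) 
(.lf (nat_lit 260067) (.g (nat_lit 2444) (.e (nat_lit 164399) (nat_lit 256) (.e (nat_lit 57399) (nat_lit 10) (.e (nat_lit 319530) (nat_lit 16) (.e (nat_lit 286761) (nat_lit 13) (.e (nat_lit 393270) (nat_lit 23) (.e (nat_lit 433920) (nat_lit 1) .nil)))))) (.g (nat_lit 5) .nil .nil)))) (.nd (nat_lit 5) 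
(.lf (nat_lit 260051) (.g (nat_lit 4069) (.e (nat_lit 164399) (nat_lit 256) (.e (nat_lit 57379) (nat_lit 3) (.e (nat_lit 98384) (nat_lit 32) (.e (nat_lit 475177) (nat_lit 24) (.e (nat_lit 516150) (nat_lit 9) (.e (nat_lit 426131) (nat_lit 3) (.e (nat_lit 212736) (nat_lit 1) .nil))))))) (.g (nat_lit 6) .nil .nil))) 
(.lf (nat_lit 260083) (.g (nat_lit 1924) (.e (nat_lit 164399) (nat_lit 256) (.e (nat_lit 57407) (nat_lit 12) (.e (nat_lit 336444) (nat_lit 32) (.e (nat_lit 466977) (nat_lit 22) (.e (nat_lit 196656) (nat_lit 11) (.e (nat_lit 16406) (nat_lit 1) .nil)))))) (.g (nat_lit 4) .nil .nil))))) (.nd (nat_lit 4) (.nd (nat_lit 5) 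
(.lf (nat_lit 260043) (.g (nat_lit 1869) (.e (nat_lit 164399) (nat_lit 256) (.e (nat_lit 57379) (nat_lit 3) (.e (nat_lit 98380) (nat_lit 31) (.e (nat_lit 466954) (nat_lit 11) (.e (nat_lit 336387) (nat_lit 27) (.e (nat_lit 433920) (nat_lit 1) .nil)))))) (.g (nat_lit 5) .nil .nil))) 
(.lf (nat_lit 260075) (.g (nat_lit 2166) (.e (nat_lit 164399) (nat_lit 256) (.e (nat_lit 57407) (nat_lit 12) (.e (nat_lit 336426) (nat_lit 29) (.e (nat_lit 442427) (nat_lit 23) (.e (nat_lit 204812) (nat_lit 9) (.e (nat_lit 426099) (nat_lit 1) .nil)))))) (.g (nat_lit 4) .nil .nil)))) (.nd (nat_lit 5) 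
(.lf (nat_lit 260059) (.g (nat_lit 3942) (.e (nat_lit 164399) (nat_lit 256) (.e (nat_lit 57390) (nat_lit 5) (.e (nat_lit 114722) (nat_lit 24) (.e (nat_lit 106536) (nat_lit 11) (.e (nat_lit 16456) (nat_lit 12) (.e (nat_lit 475214) (nat_lit 42) (.e (nat_lit 728832) (nat_lit 1) .nil))))))) (.g (nat_lit 6) .nil .nil))) 
(.lf (nat_lit 260091) (.g (nat_lit 2451) (.e (nat_lit 164399) (nat_lit 256) (.e (nat_lit 57410) (nat_lit 12) (.e (nat_lit 336443) (nat_lit 32) (.e (nat_lit 466977) (nat_lit 22) (.e (nat_lit 196654) (nat_lit 11) (.e (nat_lit 16405) (nat_lit 1) .nil)))))) (.g (nat_lit 4) .nil .nil)))))) (.nd (nat_lit 3) (.nd (nat_lit 4) (.nd (nat_lit 5) 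
(.lf (nat_lit 260039) (.g (nat_lit 1430) (.e (nat_lit 164399) (nat_lit 256) (.e (nat_lit 57379) (nat_lit 3) (.e (nat_lit 98377) (nat_lit 30) (.e (nat_lit 458789) (nat_lit 23) (.e (nat_lit 532515) (nat_lit 3) .nil))))) .nil)) 
(.lf (nat_lit 260071) (.g (nat_lit 2045) (.e (nat_lit 164399) (nat_lit 256) (.e (nat_lit 57400) (nat_lit 10) (.e (nat_lit 319534) (nat_lit 16) (.e (nat_lit 286761) (nat_lit 13) (.e (nat_lit 393270) (nat_lit 23) .nil))))) .nil))) (.nd (nat_lit 5) 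
(.lf (nat_lit 260055) (.g (nat_lit 4845) (.e (nat_lit 164399) (nat_lit 256) (.e (nat_lit 57388) (nat_lit 5) (.e (nat_lit 114719) (nat_lit 23) (.e (nat_lit 98317) (nat_lit 9) (.e (nat_lit 336194) (nat_lit 12) (.e (nat_lit 385066) (nat_lit 26) (.e (nat_lit 540416) (nat_lit 18) .nil))))))) (.g (nat_lit 6) .nil .nil))) 
(.lf (nat_lit 260087) (.g (nat_lit 2500) (.e (nat_lit 164399) (nat_lit 256) (.e (nat_lit 57410) (nat_lit 12) (.e (nat_lit 336443) (nat_lit 32) (.e (nat_lit 466974) (nat_lit 22) (.e (nat_lit 196654) (nat_lit 11) (.e (nat_lit 16405) (nat_lit 1) .nil)))))) (.g (nat_lit 5) .nil .nil))))) (.nd (nat_lit 4) (.nd (nat_lit 5) 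
(.lf (nat_lit 260047) (.g (nat_lit 1399) (.e (nat_lit 164399) (nat_lit 256) (.e (nat_lit 57379) (nat_lit 3) (.e (nat_lit 98381) (nat_lit 31) (.e (nat_lit 466952) (nat_lit 11) (.e (nat_lit 336402) (nat_lit 27) (.e (nat_lit 433920) (nat_lit 1) .nil)))))) (.g (nat_lit 5) .nil .nil))) 
(.lf (nat_lit 260079) (.g (nat_lit 2871) (.e (nat_lit 164399) (nat_lit 256) (.e (nat_lit 57407) (nat_lit 12) (.e (nat_lit 336443) (nat_lit 32) (.e (nat_lit 466974) (nat_lit 22) (.e (nat_lit 196654) (nat_lit 11) (.e (nat_lit 16406) (nat_lit 1) .nil)))))) (.g (nat_lit 0) .nil .nil)))) (.nd (nat_lit 5) 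
(.lf (nat_lit 260063) (.g (nat_lit 3628) (.e (nat_lit 164399) (nat_lit 256) (.e (nat_lit 57390) (nat_lit 5) (.e (nat_lit 114723) (nat_lit 24) (.e (nat_lit 106536) (nat_lit 11) (.e (nat_lit 16456) (nat_lit 12) (.e (nat_lit 475214) (nat_lit 42) (.e (nat_lit 728832) (nat_lit 1) .nil))))))) (.g (nat_lit 6) .nil .nil))) 
(.lf (nat_lit 260095) (.g (nat_lit 814) (.e (nat_lit 164399) (nat_lit 256) (.e (nat_lit 57411) (nat_lit 12) (.e (nat_lit 336433) (nat_lit 30) .nil))) .nil))))))))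

noncomputable def tv3361 : DT := (.nd (nat_lit 0) (.nd (nat_lit 1) (.nd (nat_lit 2) (.nd (nat_lit 3) (.nd (nat_lit 4) (.nd (nat_lit 5) (.nd (nat_lit 6) 
(.lf (nat_lit 260096) (.g (nat_lit 820) (.e (nat_lit 164399) (nat_lit 256) (.e (nat_lit 57411) (nat_lit 12) (.e (nat_lit 336438) (nat_lit 31) .nil))) .nil)) 
(.lf (nat_lit 260160) (.g (nat_lit 3097) (.e (nat_lit 164399) (nat_lit 256) (.e (nat_lit 57447) (nat_lit 19) (.e (nat_lit 393232) (nat_lit 17) (.e (nat_lit 7581) (nat_lit 405) (.e (nat_lit 57480) (nat_lit 28) (.e (nat_lit 557098) (nat_lit 13) (.e (nat_lit 172059) (nat_lit 1) .nil))))))) (.g (nat_lit 4) .nil .nil)))) (.nd (nat_lit 6) 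
(.lf (nat_lit 260128) (.g (nat_lit 3689) (.e (nat_lit 164399) (nat_lit 256) (.e (nat_lit 57437) (nat_lit 17) (.e (nat_lit 376865) (nat_lit 22) (.e (nat_lit 90158) (nat_lit 11) (.e (nat_lit 24599) (nat_lit 1) (.e (nat_lit 57852) (nat_lit 252) (.e (nat_lit 65280) (nat_lit 62) .nil))))))) (.g (nat_lit 6) .nil .nil))) 
(.lf (nat_lit 260192) (.g (nat_lit 2268) (.e (nat_lit 164399) (nat_lit 256) (.e (nat_lit 57447) (nat_lit 19) (.e (nat_lit 393279) (nat_lit 23) (.e (nat_lit 426129) (nat_lit 3) (.e (nat_lit 204809) (nat_lit 9) (.e (nat_lit 426099) (nat_lit 1) .nil)))))) (.g (nat_lit 5) .nil .nil))))) (.nd (nat_lit 5) (.nd (nat_lit 6) 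
(.lf (nat_lit 260112) (.g (nat_lit 2880) (.e (nat_lit 164399) (nat_lit 256) (.e (nat_lit 57427) (nat_lit 15) (.e (nat_lit 360474) (nat_lit 8) (.e (nat_lit 557060) (nat_lit 0) .nil)))) .nil)) 
(.lf (nat_lit 260176) (.g (nat_lit 1159) (.e (nat_lit 164399) (nat_lit 256) (.e (nat_lit 57447) (nat_lit 19) (.e (nat_lit 393270) (nat_lit 23) (.e (nat_lit 426131) (nat_lit 3) .nil)))) .nil))) (.nd (nat_lit 6) 
(.lf (nat_lit 260144) (.g (nat_lit 1375) (.e (nat_lit 164399) (nat_lit 256) (.e (nat_lit 57445) (nat_lit 19) (.e (nat_lit 393273) (nat_lit 23) (.e (nat_lit 433920) (nat_lit 3) .nil)))) .nil)) 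
(.lf (nat_lit 260208) (.g (nat_lit 2572) (.e (nat_lit 164399) (nat_lit 256) (.e (nat_lit 57447) (nat_lit 19) (.e (nat_lit 393301) (nat_lit 27) (.e (nat_lit 491526) (nat_lit 0) (.e (nat_lit 1848) (nat_lit 124) .nil))))) .nil))))) (.nd (nat_lit 4) (.nd (nat_lit 5) (.nd (nat_lit 6) 
(.lf (nat_lit 260104) (.g (nat_lit 2521) (.e (nat_lit 164399) (nat_lit 256) (.e (nat_lit 57412) (nat_lit 12) (.e (nat_lit 336061) (nat_lit 7) (.e (nat_lit 319531) (nat_lit 16) (.e (nat_lit 286767) (nat_lit 27) .nil))))) .nil)) 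
(.lf (nat_lit 260168) (.g (nat_lit 1057) (.e (nat_lit 164399) (nat_lit 256) (.e (nat_lit 57447) (nat_lit 19) (.e (nat_lit 393260) (nat_lit 21) .nil))) .nil))) (.nd (nat_lit 6) 
(.lf (nat_lit 260136) (.g (nat_lit 4154) (.e (nat_lit 164399) (nat_lit 256) (.e (nat_lit 57437) (nat_lit 17) (.e (nat_lit 376865) (nat_lit 22) (.e (nat_lit 90160) (nat_lit 11) (.e (nat_lit 24599) (nat_lit 1) (.e (nat_lit 57852) (nat_lit 252) (.e (nat_lit 65280) (nat_lit 62) .nil))))))) (.g (nat_lit 6) .nil .nil))) 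
(.lf (nat_lit 260200) (.g (nat_lit 2145) (.e (nat_lit 164399) (nat_lit 256) (.e (nat_lit 57447) (nat_lit 19) (.e (nat_lit 393283) (nat_lit 24) (.e (nat_lit 434248) (nat_lit 28) (.e (nat_lit 581376) (nat_lit 0) .nil))))) .nil)))) (.nd (nat_lit 5) (.nd (nat_lit 6) 
(.lf (nat_lit 260120) (.g (nat_lit 467) (.e (nat_lit 164399) (nat_lit 256) (.e (nat_lit 57437) (nat_lit 17) (.e (nat_lit 376865) (nat_lit 22) .nil))) .nil)) 
(.lf (nat_lit 260184) (.g (nat_lit 1126) (.e (nat_lit 164399) (nat_lit 256) (.e (nat_lit 57447) (nat_lit 19) (.e (nat_lit 393274) (nat_lit 23) (.e (nat_lit 426136) (nat_lit 3) (.e (nat_lit 204813) (nat_lit 9) .nil))))) .nil))) (.nd (nat_lit 6) 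
(.lf (nat_lit 260152) (.g (nat_lit 629) (.e (nat_lit 164399) (nat_lit 256) (.e (nat_lit 57445) (nat_lit 19) (.e (nat_lit 393286) (nat_lit 25) .nil))) .nil)) 
(.lf (nat_lit 260216) (.g (nat_lit 3404) (.e (nat_lit 164399) (nat_lit 256) (.e (nat_lit 57448) (nat_lit 19) (.e (nat_lit 393234) (nat_lit 17) (.e (nat_lit 7581) (nat_lit 405) (.e (nat_lit 57480) (nat_lit 28) (.e (nat_lit 557098) (nat_lit 13) (.e (nat_lit 172059) (nat_lit 1) .nil))))))) (.g (nat_lit 5) .nil .nil))))))) (.nd (nat_lit 3) (.nd (nat_lit 4) (.nd (nat_lit 5) (.nd (nat_lit 6) 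
(.lf (nat_lit 260100) (.g (nat_lit 2000) (.e (nat_lit 164399) (nat_lit 256) (.e (nat_lit 57411) (nat_lit 12) (.e (nat_lit 336443) (nat_lit 32) (.e (nat_lit 466979) (nat_lit 23) (.e (nat_lit 204809) (nat_lit 9) (.e (nat_lit 433920) (nat_lit 1) .nil)))))) (.g (nat_lit 5) .nil .nil))) 
(.lf (nat_lit 260164) (.g (nat_lit 2383) (.e (nat_lit 164399) (nat_lit 256) (.e (nat_lit 57447) (nat_lit 19) (.e (nat_lit 393234) (nat_lit 17) (.e (nat_lit 7581) (nat_lit 405) (.e (nat_lit 57476) (nat_lit 28) .nil))))) .nil))) (.nd (nat_lit 6) 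
(.lf (nat_lit 260132) (.g (nat_lit 3881) (.e (nat_lit 164399) (nat_lit 256) (.e (nat_lit 57437) (nat_lit 17) (.e (nat_lit 376865) (nat_lit 22) (.e (nat_lit 90160) (nat_lit 11) (.e (nat_lit 24598) (nat_lit 1) (.e (nat_lit 57852) (nat_lit 252) (.e (nat_lit 65280) (nat_lit 62) .nil))))))) (.g (nat_lit 6) .nil .nil))) 
(.lf (nat_lit 260196) (.g (nat_lit 1700) (.e (nat_lit 164399) (nat_lit 256) (.e (nat_lit 57447) (nat_lit 19) (.e (nat_lit 393281) (nat_lit 23) (.e (nat_lit 426133) (nat_lit 3) (.e (nat_lit 204811) (nat_lit 9) .nil))))) .nil)))) (.nd (nat_lit 5) (.nd (nat_lit 6) 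
(.lf (nat_lit 260116) (.g (nat_lit 4064) (.e (nat_lit 164399) (nat_lit 256) (.e (nat_lit 57437) (nat_lit 17) (.e (nat_lit 376860) (nat_lit 21) (.e (nat_lit 57931) (nat_lit 282) (.e (nat_lit 163936) (nat_lit 18) (.e (nat_lit 475214) (nat_lit 42) (.e (nat_lit 728832) (nat_lit 1) .nil))))))) (.g (nat_lit 6) .nil .nil))) 
(.lf (nat_lit 260180) (.g (nat_lit 2676) (.e (nat_lit 164399) (nat_lit 256) (.e (nat_lit 57447) (nat_lit 19) (.e (nat_lit 393271) (nat_lit 23) (.e (nat_lit 426131) (nat_lit 3) (.e (nat_lit 204809) (nat_lit 9) (.e (nat_lit 426099) (nat_lit 1) .nil)))))) (.g (nat_lit 5) .nil .nil)))) (.nd (nat_lit 6) 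
(.lf (nat_lit 260148) (.g (nat_lit 2999) (.e (nat_lit 164399) (nat_lit 256) (.e (nat_lit 57445) (nat_lit 19) (.e (nat_lit 393281) (nat_lit 23) (.e (nat_lit 426124) (nat_lit 2) (.e (nat_lit 196656) (nat_lit 11) (.e (nat_lit 16405) (nat_lit 1) .nil)))))) (.g (nat_lit 5) .nil .nil))) 
(.lf (nat_lit 260212) (.g (nat_lit 2186) (.e (nat_lit 164399) (nat_lit 256) (.e (nat_lit 57448) (nat_lit 19) (.e (nat_lit 393234) (nat_lit 17) (.e (nat_lit 7581) (nat_lit 405) (.e (nat_lit 57476) (nat_lit 28) (.e (nat_lit 557097) (nat_lit 13) (.e (nat_lit 179968) (nat_lit 1) .nil))))))) (.g (nat_lit 4) .nil .nil)))))) (.nd (nat_lit 4) (.nd (nat_lit 5) (.nd (nat_lit 6) 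
(.lf (nat_lit 260108) (.g (nat_lit 2591) (.e (nat_lit 164399) (nat_lit 256) (.e (nat_lit 57412) (nat_lit 12) (.e (nat_lit 336061) (nat_lit 7) (.e (nat_lit 319531) (nat_lit 16) (.e (nat_lit 286767) (nat_lit 27) (.e (nat_lit 426107) (nat_lit 1) (.e (nat_lit 164327) (nat_lit 230) (.e (nat_lit 163859) (nat_lit 1) .nil)))))))) (.g (nat_lit 4) .nil .nil))) 
(.lf (nat_lit 260172) (.g (nat_lit 1009) (.e (nat_lit 164399) (nat_lit 256) (.e (nat_lit 57447) (nat_lit 19) (.e (nat_lit 393267) (nat_lit 23) .nil))) .nil))) (.nd (nat_lit 6) 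
(.lf (nat_lit 260140) (.g (nat_lit 4502) (.e (nat_lit 164399) (nat_lit 256) (.e (nat_lit 57437) (nat_lit 17) (.e (nat_lit 376869) (nat_lit 23) (.e (nat_lit 98313) (nat_lit 9) (.e (nat_lit 335996) (nat_lit 1) (.e (nat_lit 57852) (nat_lit 252) (.e (nat_lit 65280) (nat_lit 62) .nil))))))) (.g (nat_lit 6) .nil .nil))) 
(.lf (nat_lit 260204) (.g (nat_lit 1100) (.e (nat_lit 164399) (nat_lit 256) (.e (nat_lit 57447) (nat_lit 19) (.e (nat_lit 393288) (nat_lit 25) .nil))) .nil)))) (.nd (nat_lit 5) (.nd (nat_lit 6) 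
(.lf (nat_lit 260124) (.g (nat_lit 2521) (.e (nat_lit 164399) (nat_lit 256) (.e (nat_lit 57437) (nat_lit 17) (.e (nat_lit 376865) (nat_lit 22) (.e (nat_lit 90128) (nat_lit 9) (.e (nat_lit 344) (nat_lit 27) (.e (nat_lit 385107) (nat_lit 51) (.e (nat_lit 794659) (nat_lit 21) .nil))))))) (.g (nat_lit 4) .nil .nil))) 
(.lf (nat_lit 260188) (.g (nat_lit 2524) (.e (nat_lit 164399) (nat_lit 256) (.e (nat_lit 57447) (nat_lit 19) (.e (nat_lit 393275) (nat_lit 23) (.e (nat_lit 426125) (nat_lit 2) (.e (nat_lit 196656) (nat_lit 11) .nil))))) .nil))) (.nd (nat_lit 6) 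
(.lf (nat_lit 260156) (.g (nat_lit 2619) (.e (nat_lit 164399) (nat_lit 256) (.e (nat_lit 57446) (nat_lit 19) (.e (nat_lit 393281) (nat_lit 23) (.e (nat_lit 426124) (nat_lit 2) (.e (nat_lit 196656) (nat_lit 11) (.e (nat_lit 16405) (nat_lit 1) .nil)))))) (.g (nat_lit 5) .nil .nil))) 
(.lf (nat_lit 260220) (.g (nat_lit 738) (.e (nat_lit 164399) (nat_lit 256) (.e (nat_lit 57448) (nat_lit 19) (.e (nat_lit 393270) (nat_lit 23) .nil))) .nil))))))) (.nd (nat_lit 2) (.nd (nat_lit 3) (.nd (nat_lit 4) (.nd (nat_lit 5) (.nd (nat_lit 6) 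
(.lf (nat_lit 260098) (.g (nat_lit 2078) (.e (nat_lit 164399) (nat_lit 256) (.e (nat_lit 57411) (nat_lit 12) (.e (nat_lit 336443) (nat_lit 32) (.e (nat_lit 466977) (nat_lit 22) (.e (nat_lit 196654) (nat_lit 11) (.e (nat_lit 24320) (nat_lit 1) .nil)))))) (.g (nat_lit 4) .nil .nil))) 
(.lf (nat_lit 260162) (.g (nat_lit 1100) (.e (nat_lit 164399) (nat_lit 256) (.e (nat_lit 57447) (nat_lit 19) (.e (nat_lit 393233) (nat_lit 17) .nil))) .nil))) (.nd (nat_lit 6) 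
(.lf (nat_lit 260130) (.g (nat_lit 1038) (.e (nat_lit 164399) (nat_lit 256) (.e (nat_lit 57437) (nat_lit 17) (.e (nat_lit 376865) (nat_lit 22) (.e (nat_lit 90160) (nat_lit 11) .nil)))) .nil)) 
(.lf (nat_lit 260194) (.g (nat_lit 3051) (.e (nat_lit 164399) (nat_lit 256) (.e (nat_lit 57447) (nat_lit 19) (.e (nat_lit 393281) (nat_lit 23) (.e (nat_lit 426124) (nat_lit 2) (.e (nat_lit 196656) (nat_lit 11) (.e (nat_lit 16406) (nat_lit 1) .nil)))))) (.g (nat_lit 5) .nil .nil))))) (.nd (nat_lit 5) (.nd (nat_lit 6) 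
(.lf (nat_lit 260114) (.g (nat_lit 642) (.e (nat_lit 164399) (nat_lit 256) (.e (nat_lit 57437) (nat_lit 17) (.e (nat_lit 376859) (nat_lit 21) .nil))) .nil)) 
(.lf (nat_lit 260178) (.g (nat_lit 3485) (.e (nat_lit 164399) (nat_lit 256) (.e (nat_lit 57447) (nat_lit 19) (.e (nat_lit 393271) (nat_lit 23) (.e (nat_lit 426128) (nat_lit 2) (.e (nat_lit 196656) (nat_lit 11) (.e (nat_lit 16406) (nat_lit 1) .nil)))))) (.g (nat_lit 6) .nil .nil)))) (.nd (nat_lit 6) 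
(.lf (nat_lit 260146) (.g (nat_lit 782) (.e (nat_lit 164399) (nat_lit 256) (.e (nat_lit 57445) (nat_lit 19) (.e (nat_lit 393279) (nat_lit 23) (.e (nat_lit 426129) (nat_lit 3) .nil)))) .nil)) 
(.lf (nat_lit 260210) (.g (nat_lit 2681) (.e (nat_lit 164399) (nat_lit 256) (.e (nat_lit 57447) (nat_lit 19) (.e (nat_lit 393301) (nat_lit 27) (.e (nat_lit 491526) (nat_lit 0) (.e (nat_lit 1855) (nat_lit 124) .nil))))) .nil))))) (.nd (nat_lit 4) (.nd (nat_lit 5) (.nd (nat_lit 6) 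
(.lf (nat_lit 260106) (.g (nat_lit 2548) (.e (nat_lit 164399) (nat_lit 256) (.e (nat_lit 57412) (nat_lit 12) (.e (nat_lit 336061) (nat_lit 7) (.e (nat_lit 319531) (nat_lit 16) (.e (nat_lit 286767) (nat_lit 27) (.e (nat_lit 426107) (nat_lit 1) (.e (nat_lit 164325) (nat_lit 230) (.e (nat_lit 163859) (nat_lit 1) .nil)))))))) (.g (nat_lit 4) .nil .nil))) 
(.lf (nat_lit 260170) (.g (nat_lit 1817) (.e (nat_lit 164399) (nat_lit 256) (.e (nat_lit 57447) (nat_lit 19) (.e (nat_lit 393266) (nat_lit 23) (.e (nat_lit 426140) (nat_lit 3) (.e (nat_lit 204808) (nat_lit 9) .nil))))) .nil))) (.nd (nat_lit 6) 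
(.lf (nat_lit 260138) (.g (nat_lit 2176) (.e (nat_lit 164399) (nat_lit 256) (.e (nat_lit 57437) (nat_lit 17) (.e (nat_lit 376865) (nat_lit 22) (.e (nat_lit 90160) (nat_lit 11) (.e (nat_lit 24667) (nat_lit 15) .nil))))) .nil)) 
(.lf (nat_lit 260202) (.g (nat_lit 1559) (.e (nat_lit 164399) (nat_lit 256) (.e (nat_lit 57447) (nat_lit 19) (.e (nat_lit 393284) (nat_lit 24) (.e (nat_lit 434233) (nat_lit 23) (.e (nat_lit 532579) (nat_lit 26) .nil))))) .nil)))) (.nd (nat_lit 5) (.nd (nat_lit 6) 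
(.lf (nat_lit 260122) (.g (nat_lit 2380) (.e (nat_lit 164399) (nat_lit 256) (.e (nat_lit 57437) (nat_lit 17) (.e (nat_lit 376865) (nat_lit 22) (.e (nat_lit 90128) (nat_lit 9) (.e (nat_lit 344) (nat_lit 27) (.e (nat_lit 385107) (nat_lit 51) (.e (nat_lit 794657) (nat_lit 21) .nil))))))) (.g (nat_lit 4) .nil .nil))) 
(.lf (nat_lit 260186) (.g (nat_lit 3714) (.e (nat_lit 164399) (nat_lit 256) (.e (nat_lit 57447) (nat_lit 19) (.e (nat_lit 393275) (nat_lit 23) (.e (nat_lit 426125) (nat_lit 2) (.e (nat_lit 196630) (nat_lit 9) (.e (nat_lit 430) (nat_lit 32) (.e (nat_lit 426100) (nat_lit 1) .nil))))))) (.g (nat_lit 5) .nil .nil)))) (.nd (nat_lit 6) 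
(.lf (nat_lit 260154) (.g (nat_lit 1939) (.e (nat_lit 164399) (nat_lit 256) (.e (nat_lit 57445) (nat_lit 19) (.e (nat_lit 393289) (nat_lit 25) (.e (nat_lit 458789) (nat_lit 23) (.e (nat_lit 532582) (nat_lit 26) .nil))))) .nil)) 
(.lf (nat_lit 260218) (.g (nat_lit 3149) (.e (nat_lit 164399) (nat_lit 256) (.e (nat_lit 57448) (nat_lit 19) (.e (nat_lit 393234) (nat_lit 17) (.e (nat_lit 7583) (nat_lit 405) (.e (nat_lit 57476) (nat_lit 28) (.e (nat_lit 557097) (nat_lit 13) (.e (nat_lit 172059) (nat_lit 1) .nil))))))) (.g (nat_lit 6) .nil .nil))))))) (.nd (nat_lit 3) (.nd (nat_lit 4) (.nd (nat_lit 5) (.nd (nat_lit 6) 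
(.lf (nat_lit 260102) (.g (nat_lit 2077) (.e (nat_lit 164399) (nat_lit 256) (.e (nat_lit 57411) (nat_lit 12) (.e (nat_lit 336443) (nat_lit 32) (.e (nat_lit 466981) (nat_lit 23) (.e (nat_lit 204809) (nat_lit 9) (.e (nat_lit 433920) (nat_lit 1) .nil)))))) (.g (nat_lit 5) .nil .nil))) 
(.lf (nat_lit 260166) (.g (nat_lit 3384) (.e (nat_lit 164399) (nat_lit 256) (.e (nat_lit 57447) (nat_lit 19) (.e (nat_lit 393234) (nat_lit 17) (.e (nat_lit 7581) (nat_lit 405) (.e (nat_lit 57480) (nat_lit 28) (.e (nat_lit 557098) (nat_lit 13) (.e (nat_lit 179968) (nat_lit 1) .nil))))))) (.g (nat_lit 5) .nil .nil)))) (.nd (nat_lit 6) 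
(.lf (nat_lit 260134) (.g (nat_lit 2002) (.e (nat_lit 164399) (nat_lit 256) (.e (nat_lit 57437) (nat_lit 17) (.e (nat_lit 376865) (nat_lit 22) (.e (nat_lit 90160) (nat_lit 11) (.e (nat_lit 24599) (nat_lit 1) (.e (nat_lit 57846) (nat_lit 252) (.e (nat_lit 65280) (nat_lit 62) .nil))))))) (.g (nat_lit 4) .nil .nil))) 
(.lf (nat_lit 260198) (.g (nat_lit 2181) (.e (nat_lit 164399) (nat_lit 256) (.e (nat_lit 57447) (nat_lit 19) (.e (nat_lit 393283) (nat_lit 24) (.e (nat_lit 434231) (nat_lit 23) (.e (nat_lit 532578) (nat_lit 26) (.e (nat_lit 426098) (nat_lit 1) .nil)))))) (.g (nat_lit 4) .nil .nil))))) (.nd (nat_lit 5) (.nd (nat_lit 6) 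
(.lf (nat_lit 260118) (.g (nat_lit 3938) (.e (nat_lit 164399) (nat_lit 256) (.e (nat_lit 57437) (nat_lit 17) (.e (nat_lit 376860) (nat_lit 21) (.e (nat_lit 57931) (nat_lit 282) (.e (nat_lit 163938) (nat_lit 18) (.e (nat_lit 475214) (nat_lit 42) (.e (nat_lit 728832) (nat_lit 1) .nil))))))) (.g (nat_lit 6) .nil .nil))) 
(.lf (nat_lit 260182) (.g (nat_lit 425) (.e (nat_lit 164399) (nat_lit 256) (.e (nat_lit 57447) (nat_lit 19) (.e (nat_lit 393274) (nat_lit 23) .nil))) .nil))) (.nd (nat_lit 6) 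
(.lf (nat_lit 260150) (.g (nat_lit 1646) (.e (nat_lit 164399) (nat_lit 256) (.e (nat_lit 57445) (nat_lit 19) (.e (nat_lit 393281) (nat_lit 23) (.e (nat_lit 426133) (nat_lit 3) (.e (nat_lit 204811) (nat_lit 9) .nil))))) .nil)) 
(.lf (nat_lit 260214) (.g (nat_lit 2020) (.e (nat_lit 164399) (nat_lit 256) (.e (nat_lit 57448) (nat_lit 19) (.e (nat_lit 393234) (nat_lit 17) (.e (nat_lit 7581) (nat_lit 405) (.e (nat_lit 57479) (nat_lit 28) .nil))))) .nil))))) (.nd (nat_lit 4) (.nd (nat_lit 5) (.nd (nat_lit 6) 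
(.lf (nat_lit 260110) (.g (nat_lit 504) (.e (nat_lit 164399) (nat_lit 256) (.e (nat_lit 57426) (nat_lit 15) (.e (nat_lit 360466) (nat_lit 3) .nil))) .nil)) 
(.lf (nat_lit 260174) (.g (nat_lit 1064) (.e (nat_lit 164399) (nat_lit 256) (.e (nat_lit 57447) (nat_lit 19) (.e (nat_lit 393269) (nat_lit 23) .nil))) .nil))) (.nd (nat_lit 6) 
(.lf (nat_lit 260142) (.g (nat_lit 629) (.e (nat_lit 164399) (nat_lit 256) (.e (nat_lit 57445) (nat_lit 19) (.e (nat_lit 393269) (nat_lit 23) .nil))) .nil)) 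
(.lf (nat_lit 260206) (.g (nat_lit 3154) (.e (nat_lit 164399) (nat_lit 256) (.e (nat_lit 57447) (nat_lit 19) (.e (nat_lit 393298) (nat_lit 27) (.e (nat_lit 491526) (nat_lit 0) (.e (nat_lit 1848) (nat_lit 124) .nil))))) .nil)))) (.nd (nat_lit 5) (.nd (nat_lit 6) 
(.lf (nat_lit 260126) (.g (nat_lit 2257) (.e (nat_lit 164399) (nat_lit 256) (.e (nat_lit 57437) (nat_lit 17) (.e (nat_lit 376865) (nat_lit 22) (.e (nat_lit 90158) (nat_lit 11) (.e (nat_lit 24598) (nat_lit 1) (.e (nat_lit 57852) (nat_lit 252) (.e (nat_lit 65280) (nat_lit 62) .nil))))))) (.g (nat_lit 4) .nil .nil))) 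
(.lf (nat_lit 260190) (.g (nat_lit 1738) (.e (nat_lit 164399) (nat_lit 256) (.e (nat_lit 57447) (nat_lit 19) (.e (nat_lit 393275) (nat_lit 23) (.e (nat_lit 426140) (nat_lit 3) (.e (nat_lit 212736) (nat_lit 9) .nil))))) .nil))) (.nd (nat_lit 6) 
(.lf (nat_lit 260158) (.g (nat_lit 1100) (.e (nat_lit 164399) (nat_lit 256) (.e (nat_lit 57447) (nat_lit 19) (.e (nat_lit 393230) (nat_lit 17) .nil))) .nil)) 
(.lf (nat_lit 260222) (.g (nat_lit 2058) (.e (nat_lit 164399) (nat_lit 256) (.e (nat_lit 57448) (nat_lit 19) (.e (nat_lit 393271) (nat_lit 23) (.e (nat_lit 426131) (nat_lit 3) .nil)))) .nil)))))))) (.nd (nat_lit 1) (.nd (nat_lit 2) (.nd (nat_lit 3) (.nd (nat_lit 4) (.nd (nat_lit 5) (.nd (nat_lit 6) 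
(.lf (nat_lit 260097) (.g (nat_lit 1975) (.e (nat_lit 164399) (nat_lit 256) (.e (nat_lit 57411) (nat_lit 12) (.e (nat_lit 336443) (nat_lit 32) (.e (nat_lit 466974) (nat_lit 22) (.e (nat_lit 196654) (nat_lit 11) (.e (nat_lit 24320) (nat_lit 1) .nil)))))) (.g (nat_lit 4) .nil .nil))) 
(.lf (nat_lit 260161) (.g (nat_lit 2801) (.e (nat_lit 164399) (nat_lit 256) (.e (nat_lit 57447) (nat_lit 19) (.e (nat_lit 393232) (nat_lit 17) (.e (nat_lit 7581) (nat_lit 405) (.e (nat_lit 57480) (nat_lit 28) (.e (nat_lit 557098) (nat_lit 13) (.e (nat_lit 179968) (nat_lit 1) .nil))))))) (.g (nat_lit 4) .nil .nil)))) (.nd (nat_lit 6) 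
(.lf (nat_lit 260129) (.g (nat_lit 3394) (.e (nat_lit 164399) (nat_lit 256) (.e (nat_lit 57437) (nat_lit 17) (.e (nat_lit 376865) (nat_lit 22) (.e (nat_lit 90158) (nat_lit 11) (.e (nat_lit 24599) (nat_lit 1) (.e (nat_lit 57854) (nat_lit 252) (.e (nat_lit 65280) (nat_lit 62) .nil))))))) (.g (nat_lit 6) .nil .nil))) 
(.lf (nat_lit 260193) (.g (nat_lit 3124) (.e (nat_lit 164399) (nat_lit 256) (.e (nat_lit 57447) (nat_lit 19) (.e (nat_lit 393281) (nat_lit 23) (.e (nat_lit 426124) (nat_lit 2) (.e (nat_lit 196656) (nat_lit 11) (.e (nat_lit 16405) (nat_lit 1) .nil)))))) (.g (nat_lit 5) .nil .nil))))) (.nd (nat_lit 5) (.nd (nat_lit 6) 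
(.lf (nat_lit 260113) (.g (nat_lit 2696) (.e (nat_lit 164399) (nat_lit 256) (.e (nat_lit 57427) (nat_lit 15) (.e (nat_lit 360474) (nat_lit 8) (.e (nat_lit 557091) (nat_lit 12) (.e (nat_lit 164003) (nat_lit 40) .nil))))) .nil)) 
(.lf (nat_lit 260177) (.g (nat_lit 3685) (.e (nat_lit 164399) (nat_lit 256) (.e (nat_lit 57447) (nat_lit 19) (.e (nat_lit 393271) (nat_lit 23) (.e (nat_lit 426128) (nat_lit 2) (.e (nat_lit 196656) (nat_lit 11) (.e (nat_lit 16405) (nat_lit 1) .nil)))))) (.g (nat_lit 6) .nil .nil)))) (.nd (nat_lit 6) 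
(.lf (nat_lit 260145) (.g (nat_lit 629) (.e (nat_lit 164399) (nat_lit 256) (.e (nat_lit 57445) (nat_lit 19) (.e (nat_lit 393274) (nat_lit 23) .nil))) .nil)) 
(.lf (nat_lit 260209) (.g (nat_lit 4150) (.e (nat_lit 164399) (nat_lit 256) (.e (nat_lit 57447) (nat_lit 19) (.e (nat_lit 393301) (nat_lit 27) (.e (nat_lit 491526) (nat_lit 0) (.e (nat_lit 1848) (nat_lit 124) (.e (nat_lit 557097) (nat_lit 13) (.e (nat_lit 172059) (nat_lit 1) .nil))))))) (.g (nat_lit 6) .nil .nil)))))) (.nd (nat_lit 4) (.nd (nat_lit 5) (.nd (nat_lit 6) 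
(.lf (nat_lit 260105) (.g (nat_lit 2960) (.e (nat_lit 164399) (nat_lit 256) (.e (nat_lit 57412) (nat_lit 12) (.e (nat_lit 336061) (nat_lit 7) (.e (nat_lit 319531) (nat_lit 16) (.e (nat_lit 286767) (nat_lit 27) (.e (nat_lit 426098) (nat_lit 1) (.e (nat_lit 164325) (nat_lit 230) (.e (nat_lit 163859) (nat_lit 1) .nil)))))))) (.g (nat_lit 4) .nil .nil))) 
(.lf (nat_lit 260169) (.g (nat_lit 529) (.e (nat_lit 164399) (nat_lit 256) (.e (nat_lit 57447) (nat_lit 19) (.e (nat_lit 393266) (nat_lit 23) .nil))) .nil))) (.nd (nat_lit 6) 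
(.lf (nat_lit 260137) (.g (nat_lit 3740) (.e (nat_lit 164399) (nat_lit 256) (.e (nat_lit 57437) (nat_lit 17) (.e (nat_lit 376865) (nat_lit 22) (.e (nat_lit 90160) (nat_lit 11) (.e (nat_lit 24599) (nat_lit 1) (.e (nat_lit 57854) (nat_lit 252) (.e (nat_lit 65280) (nat_lit 62) .nil))))))) (.g (nat_lit 6) .nil .nil))) 
(.lf (nat_lit 260201) (.g (nat_lit 1261) (.e (nat_lit 164399) (nat_lit 256) (.e (nat_lit 57447) (nat_lit 19) (.e (nat_lit 393284) (nat_lit 24) (.e (nat_lit 434233) (nat_lit 23) .nil)))) .nil)))) (.nd (nat_lit 5) (.nd (nat_lit 6) 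
(.lf (nat_lit 260121) (.g (nat_lit 2078) (.e (nat_lit 164399) (nat_lit 256) (.e (nat_lit 57437) (nat_lit 17) (.e (nat_lit 376865) (nat_lit 22) (.e (nat_lit 90128) (nat_lit 9) (.e (nat_lit 338) (nat_lit 27) .nil))))) .nil)) 
(.lf (nat_lit 260185) (.g (nat_lit 613) (.e (nat_lit 164399) (nat_lit 256) (.e (nat_lit 57447) (nat_lit 19) (.e (nat_lit 393275) (nat_lit 23) .nil))) .nil))) (.nd (nat_lit 6) 
(.lf (nat_lit 260153) (.g (nat_lit 2018) (.e (nat_lit 164399) (nat_lit 256) (.e (nat_lit 57445) (nat_lit 19) (.e (nat_lit 393289) (nat_lit 25) (.e (nat_lit 458789) (nat_lit 23) (.e (nat_lit 532580) (nat_lit 26) .nil))))) .nil)) 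
(.lf (nat_lit 260217) (.g (nat_lit 3962) (.e (nat_lit 164399) (nat_lit 256) (.e (nat_lit 57448) (nat_lit 19) (.e (nat_lit 393234) (nat_lit 17) (.e (nat_lit 7581) (nat_lit 405) (.e (nat_lit 57480) (nat_lit 28) (.e (nat_lit 557098) (nat_lit 13) (.e (nat_lit 179968) (nat_lit 1) .nil))))))) (.g (nat_lit 6) .nil .nil))))))) (.nd (nat_lit 3) (.nd (nat_lit 4) (.nd (nat_lit 5) (.nd (nat_lit 6) 
(.lf (nat_lit 260101) (.g (nat_lit 1891) (.e (nat_lit 164399) (nat_lit 256) (.e (nat_lit 57411) (nat_lit 12) (.e (nat_lit 336443) (nat_lit 32) (.e (nat_lit 466979) (nat_lit 23) (.e (nat_lit 204811) (nat_lit 9) (.e (nat_lit 433920) (nat_lit 1) .nil)))))) (.g (nat_lit 5) .nil .nil))) 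
(.lf (nat_lit 260165) (.g (nat_lit 2719) (.e (nat_lit 164399) (nat_lit 256) (.e (nat_lit 57447) (nat_lit 19) (.e (nat_lit 393234) (nat_lit 17) (.e (nat_lit 7581) (nat_lit 405) (.e (nat_lit 57479) (nat_lit 28) (.e (nat_lit 557101) (nat_lit 13) (.e (nat_lit 172059) (nat_lit 1) .nil))))))) (.g (nat_lit 4) .nil .nil)))) (.nd (nat_lit 6) 
(.lf (nat_lit 260133) (.g (nat_lit 2327) (.e (nat_lit 164399) (nat_lit 256) (.e (nat_lit 57437) (nat_lit 17) (.e (nat_lit 376865) (nat_lit 22) (.e (nat_lit 90160) (nat_lit 11) (.e (nat_lit 24598) (nat_lit 1) (.e (nat_lit 57854) (nat_lit 252) (.e (nat_lit 65280) (nat_lit 62) .nil))))))) (.g (nat_lit 4) .nil .nil))) 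
(.lf (nat_lit 260197) (.g (nat_lit 1446) (.e (nat_lit 164399) (nat_lit 256) (.e (nat_lit 57447) (nat_lit 19) (.e (nat_lit 393281) (nat_lit 23) (.e (nat_lit 426138) (nat_lit 3) .nil)))) .nil)))) (.nd (nat_lit 5) (.nd (nat_lit 6) 
(.lf (nat_lit 260117) (.g (nat_lit 2271) (.e (nat_lit 164399) (nat_lit 256) (.e (nat_lit 57437) (nat_lit 17) (.e (nat_lit 376860) (nat_lit 21) (.e (nat_lit 57931) (nat_lit 282) (.e (nat_lit 163937) (nat_lit 18) .nil))))) .nil)) 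
(.lf (nat_lit 260181) (.g (nat_lit 2274) (.e (nat_lit 164399) (nat_lit 256) (.e (nat_lit 57447) (nat_lit 19) (.e (nat_lit 393271) (nat_lit 23) (.e (nat_lit 426131) (nat_lit 3) (.e (nat_lit 204810) (nat_lit 9) (.e (nat_lit 433920) (nat_lit 1) .nil)))))) (.g (nat_lit 5) .nil .nil)))) (.nd (nat_lit 6) 
(.lf (nat_lit 260149) (.g (nat_lit 2914) (.e (nat_lit 164399) (nat_lit 256) (.e (nat_lit 57445) (nat_lit 19) (.e (nat_lit 393281) (nat_lit 23) (.e (nat_lit 426124) (nat_lit 2) (.e (nat_lit 196656) (nat_lit 11) (.e (nat_lit 16406) (nat_lit 1) .nil)))))) (.g (nat_lit 5) .nil .nil))) 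
(.lf (nat_lit 260213) (.g (nat_lit 1984) (.e (nat_lit 164399) (nat_lit 256) (.e (nat_lit 57448) (nat_lit 19) (.e (nat_lit 393234) (nat_lit 17) (.e (nat_lit 7581) (nat_lit 405) (.e (nat_lit 57477) (nat_lit 28) .nil))))) .nil))))) (.nd (nat_lit 4) (.nd (nat_lit 5) (.nd (nat_lit 6) 
(.lf (nat_lit 260109) (.g (nat_lit 2959) (.e (nat_lit 164399) (nat_lit 256) (.e (nat_lit 57412) (nat_lit 12) (.e (nat_lit 336061) (nat_lit 7) (.e (nat_lit 319531) (nat_lit 16) (.e (nat_lit 286767) (nat_lit 27) (.e (nat_lit 426107) (nat_lit 1) (.e (nat_lit 164327) (nat_lit 230) (.e (nat_lit 163861) (nat_lit 1) .nil)))))))) (.g (nat_lit 4) .nil .nil))) 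
(.lf (nat_lit 260173) (.g (nat_lit 1886) (.e (nat_lit 164399) (nat_lit 256) (.e (nat_lit 57447) (nat_lit 19) (.e (nat_lit 393267) (nat_lit 23) (.e (nat_lit 426128) (nat_lit 2) (.e (nat_lit 196656) (nat_lit 11) .nil))))) .nil))) (.nd (nat_lit 6) 
(.lf (nat_lit 260141) (.g (nat_lit 1839) (.e (nat_lit 164399) (nat_lit 256) (.e (nat_lit 57445) (nat_lit 19) (.e (nat_lit 393233) (nat_lit 17) (.e (nat_lit 7581) (nat_lit 405) (.e (nat_lit 57476) (nat_lit 28) .nil))))) .nil)) 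
(.lf (nat_lit 260205) (.g (nat_lit 1100) (.e (nat_lit 164399) (nat_lit 256) (.e (nat_lit 57447) (nat_lit 19) (.e (nat_lit 393294) (nat_lit 26) .nil))) .nil)))) (.nd (nat_lit 5) (.nd (nat_lit 6) 
(.lf (nat_lit 260125) (.g (nat_lit 1236) (.e (nat_lit 164399) (nat_lit 256) (.e (nat_lit 57437) (nat_lit 17) (.e (nat_lit 376865) (nat_lit 22) (.e (nat_lit 90158) (nat_lit 11) .nil)))) .nil)) 
(.lf (nat_lit 260189) (.g (nat_lit 1789) (.e (nat_lit 164399) (nat_lit 256) (.e (nat_lit 57447) (nat_lit 19) (.e (nat_lit 393275) (nat_lit 23) (.e (nat_lit 426140) (nat_lit 3) (.e (nat_lit 204808) (nat_lit 9) .nil))))) .nil))) (.nd (nat_lit 6) 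
(.lf (nat_lit 260157) (.g (nat_lit 2536) (.e (nat_lit 164399) (nat_lit 256) (.e (nat_lit 57446) (nat_lit 19) (.e (nat_lit 393281) (nat_lit 23) (.e (nat_lit 426124) (nat_lit 2) (.e (nat_lit 196656) (nat_lit 11) (.e (nat_lit 16406) (nat_lit 1) .nil)))))) (.g (nat_lit 5) .nil .nil))) 
(.lf (nat_lit 260221) (.g (nat_lit 1961) (.e (nat_lit 164399) (nat_lit 256) (.e (nat_lit 57448) (nat_lit 19) (.e (nat_lit 393270) (nat_lit 23) (.e (nat_lit 426131) (nat_lit 3) (.e (nat_lit 204810) (nat_lit 9) .nil))))) .nil))))))) (.nd (nat_lit 2) (.nd (nat_lit 3) (.nd (nat_lit 4) (.nd (nat_lit 5) (.nd (nat_lit 6) 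
(.lf (nat_lit 260099) (.g (nat_lit 3073) (.e (nat_lit 164399) (nat_lit 256) (.e (nat_lit 57411) (nat_lit 12) (.e (nat_lit 336443) (nat_lit 32) (.e (nat_lit 466977) (nat_lit 22) (.e (nat_lit 196656) (nat_lit 11) (.e (nat_lit 16406) (nat_lit 1) .nil)))))) (.g (nat_lit 0) .nil .nil))) 
(.lf (nat_lit 260163) (.g (nat_lit 2669) (.e (nat_lit 164399) (nat_lit 256) (.e (nat_lit 57447) (nat_lit 19) (.e (nat_lit 393233) (nat_lit 17) (.e (nat_lit 7581) (nat_lit 405) (.e (nat_lit 57476) (nat_lit 28) (.e (nat_lit 557097) (nat_lit 13) (.e (nat_lit 172059) (nat_lit 1) .nil))))))) (.g (nat_lit 4) .nil .nil)))) (.nd (nat_lit 6) 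
(.lf (nat_lit 260131) (.g (nat_lit 2944) (.e (nat_lit 164399) (nat_lit 256) (.e (nat_lit 57437) (nat_lit 17) (.e (nat_lit 376865) (nat_lit 22) (.e (nat_lit 90160) (nat_lit 11) (.e (nat_lit 24597) (nat_lit 1) (.e (nat_lit 57847) (nat_lit 252) (.e (nat_lit 65280) (nat_lit 62) .nil))))))) (.g (nat_lit 5) .nil .nil))) 
(.lf (nat_lit 260195) (.g (nat_lit 2913) (.e (nat_lit 164399) (nat_lit 256) (.e (nat_lit 57447) (nat_lit 19) (.e (nat_lit 393281) (nat_lit 23) (.e (nat_lit 426133) (nat_lit 3) (.e (nat_lit 204809) (nat_lit 9) (.e (nat_lit 426099) (nat_lit 1) .nil)))))) (.g (nat_lit 5) .nil .nil))))) (.nd (nat_lit 5) (.nd (nat_lit 6) 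
(.lf (nat_lit 260115) (.g (nat_lit 1816) (.e (nat_lit 164399) (nat_lit 256) (.e (nat_lit 57437) (nat_lit 17) (.e (nat_lit 376859) (nat_lit 21) (.e (nat_lit 57929) (nat_lit 282) (.e (nat_lit 163938) (nat_lit 18) .nil))))) .nil)) 
(.lf (nat_lit 260179) (.g (nat_lit 1826) (.e (nat_lit 164399) (nat_lit 256) (.e (nat_lit 57447) (nat_lit 19) (.e (nat_lit 393271) (nat_lit 23) (.e (nat_lit 426130) (nat_lit 3) (.e (nat_lit 204813) (nat_lit 9) .nil))))) .nil))) (.nd (nat_lit 6) 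
(.lf (nat_lit 260147) (.g (nat_lit 2899) (.e (nat_lit 164399) (nat_lit 256) (.e (nat_lit 57445) (nat_lit 19) (.e (nat_lit 393281) (nat_lit 23) (.e (nat_lit 426116) (nat_lit 2) (.e (nat_lit 196654) (nat_lit 11) (.e (nat_lit 16405) (nat_lit 1) .nil)))))) (.g (nat_lit 0) .nil .nil))) 
(.lf (nat_lit 260211) (.g (nat_lit 738) (.e (nat_lit 164399) (nat_lit 256) (.e (nat_lit 57448) (nat_lit 19) (.e (nat_lit 393232) (nat_lit 17) .nil))) .nil))))) (.nd (nat_lit 4) (.nd (nat_lit 5) (.nd (nat_lit 6) 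
(.lf (nat_lit 260107) (.g (nat_lit 3879) (.e (nat_lit 164399) (nat_lit 256) (.e (nat_lit 57412) (nat_lit 12) (.e (nat_lit 336061) (nat_lit 7) (.e (nat_lit 319531) (nat_lit 16) (.e (nat_lit 286767) (nat_lit 27) (.e (nat_lit 426107) (nat_lit 1) (.e (nat_lit 164325) (nat_lit 230) (.e (nat_lit 163861) (nat_lit 1) .nil)))))))) (.g (nat_lit 6) .nil .nil))) 
(.lf (nat_lit 260171) (.g (nat_lit 1816) (.e (nat_lit 164399) (nat_lit 256) (.e (nat_lit 57447) (nat_lit 19) (.e (nat_lit 393266) (nat_lit 23) (.e (nat_lit 426140) (nat_lit 3) (.e (nat_lit 204813) (nat_lit 9) .nil))))) .nil))) (.nd (nat_lit 6) 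
(.lf (nat_lit 260139) (.g (nat_lit 2033) (.e (nat_lit 164399) (nat_lit 256) (.e (nat_lit 57437) (nat_lit 17) (.e (nat_lit 376865) (nat_lit 22) (.e (nat_lit 90160) (nat_lit 11) (.e (nat_lit 32512) (nat_lit 15) .nil))))) .nil)) 
(.lf (nat_lit 260203) (.g (nat_lit 2412) (.e (nat_lit 164399) (nat_lit 256) (.e (nat_lit 57447) (nat_lit 19) (.e (nat_lit 393284) (nat_lit 24) (.e (nat_lit 434248) (nat_lit 28) (.e (nat_lit 581376) (nat_lit 0) .nil))))) .nil)))) (.nd (nat_lit 5) (.nd (nat_lit 6) 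
(.lf (nat_lit 260123) (.g (nat_lit 2270) (.e (nat_lit 164399) (nat_lit 256) (.e (nat_lit 57437) (nat_lit 17) (.e (nat_lit 376865) (nat_lit 22) (.e (nat_lit 90128) (nat_lit 9) (.e (nat_lit 344) (nat_lit 27) (.e (nat_lit 385107) (nat_lit 51) (.e (nat_lit 794658) (nat_lit 21) .nil))))))) (.g (nat_lit 4) .nil .nil))) 
(.lf (nat_lit 260187) (.g (nat_lit 2228) (.e (nat_lit 164399) (nat_lit 256) (.e (nat_lit 57447) (nat_lit 19) (.e (nat_lit 393275) (nat_lit 23) (.e (nat_lit 426125) (nat_lit 2) (.e (nat_lit 196637) (nat_lit 9) .nil))))) .nil))) (.nd (nat_lit 6) 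
(.lf (nat_lit 260155) (.g (nat_lit 2160) (.e (nat_lit 164399) (nat_lit 256) (.e (nat_lit 57445) (nat_lit 19) (.e (nat_lit 393289) (nat_lit 25) (.e (nat_lit 458789) (nat_lit 23) (.e (nat_lit 532582) (nat_lit 26) (.e (nat_lit 426099) (nat_lit 1) .nil)))))) (.g (nat_lit 4) .nil .nil))) 
(.lf (nat_lit 260219) (.g (nat_lit 2065) (.e (nat_lit 164399) (nat_lit 256) (.e (nat_lit 57448) (nat_lit 19) (.e (nat_lit 393234) (nat_lit 17) (.e (nat_lit 7583) (nat_lit 405) (.e (nat_lit 57476) (nat_lit 28) (.e (nat_lit 557097) (nat_lit 13) (.e (nat_lit 179968) (nat_lit 1) .nil))))))) (.g (nat_lit 5) .nil .nil))))))) (.nd (nat_lit 3) (.nd (nat_lit 4) (.nd (nat_lit 5) (.nd (nat_lit 6) 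
(.lf (nat_lit 260103) (.g (nat_lit 1994) (.e (nat_lit 164399) (nat_lit 256) (.e (nat_lit 57411) (nat_lit 12) (.e (nat_lit 336443) (nat_lit 32) (.e (nat_lit 466981) (nat_lit 23) (.e (nat_lit 204811) (nat_lit 9) (.e (nat_lit 433920) (nat_lit 1) .nil)))))) (.g (nat_lit 5) .nil .nil))) 
(.lf (nat_lit 260167) (.g (nat_lit 1812) (.e (nat_lit 164399) (nat_lit 256) (.e (nat_lit 57447) (nat_lit 19) (.e (nat_lit 393234) (nat_lit 17) (.e (nat_lit 7583) (nat_lit 405) (.e (nat_lit 57476) (nat_lit 28) .nil))))) .nil))) (.nd (nat_lit 6) 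
(.lf (nat_lit 260135) (.g (nat_lit 3636) (.e (nat_lit 164399) (nat_lit 256) (.e (nat_lit 57437) (nat_lit 17) (.e (nat_lit 376865) (nat_lit 22) (.e (nat_lit 90160) (nat_lit 11) (.e (nat_lit 24599) (nat_lit 1) (.e (nat_lit 57847) (nat_lit 252) (.e (nat_lit 65280) (nat_lit 62) .nil))))))) (.g (nat_lit 6) .nil .nil))) 
(.lf (nat_lit 260199) (.g (nat_lit 2258) (.e (nat_lit 164399) (nat_lit 256) (.e (nat_lit 57447) (nat_lit 19) (.e (nat_lit 393283) (nat_lit 24) (.e (nat_lit 434231) (nat_lit 23) (.e (nat_lit 532578) (nat_lit 26) (.e (nat_lit 426099) (nat_lit 1) .nil)))))) (.g (nat_lit 4) .nil .nil))))) (.nd (nat_lit 5) (.nd (nat_lit 6) 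
(.lf (nat_lit 260119) (.g (nat_lit 732) (.e (nat_lit 164399) (nat_lit 256) (.e (nat_lit 57437) (nat_lit 17) (.e (nat_lit 376864) (nat_lit 22) .nil))) .nil)) 
(.lf (nat_lit 260183) (.g (nat_lit 1218) (.e (nat_lit 164399) (nat_lit 256) (.e (nat_lit 57447) (nat_lit 19) (.e (nat_lit 393274) (nat_lit 23) (.e (nat_lit 426134) (nat_lit 3) (.e (nat_lit 204813) (nat_lit 9) .nil))))) .nil))) (.nd (nat_lit 6) 
(.lf (nat_lit 260151) (.g (nat_lit 2078) (.e (nat_lit 164399) (nat_lit 256) (.e (nat_lit 57445) (nat_lit 19) (.e (nat_lit 393283) (nat_lit 24) (.e (nat_lit 434231) (nat_lit 23) (.e (nat_lit 532578) (nat_lit 26) .nil))))) .nil)) 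
(.lf (nat_lit 260215) (.g (nat_lit 2333) (.e (nat_lit 164399) (nat_lit 256) (.e (nat_lit 57448) (nat_lit 19) (.e (nat_lit 393234) (nat_lit 17) (.e (nat_lit 7581) (nat_lit 405) (.e (nat_lit 57479) (nat_lit 28) (.e (nat_lit 557101) (nat_lit 13) (.e (nat_lit 172059) (nat_lit 1) .nil))))))) (.g (nat_lit 4) .nil .nil)))))) (.nd (nat_lit 4) (.nd (nat_lit 5) (.nd (nat_lit 6) 
(.lf (nat_lit 260111) (.g (nat_lit 2497) (.e (nat_lit 164399) (nat_lit 256) (.e (nat_lit 57427) (nat_lit 15) (.e (nat_lit 360474) (nat_lit 8) (.e (nat_lit 557059) (nat_lit 0) .nil)))) .nil)) 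
(.lf (nat_lit 260175) (.g (nat_lit 771) (.e (nat_lit 164399) (nat_lit 256) (.e (nat_lit 57447) (nat_lit 19) (.e (nat_lit 393270) (nat_lit 23) .nil))) .nil))) (.nd (nat_lit 6) 
(.lf (nat_lit 260143) (.g (nat_lit 1692) (.e (nat_lit 164399) (nat_lit 256) (.e (nat_lit 57445) (nat_lit 19) (.e (nat_lit 393270) (nat_lit 23) (.e (nat_lit 426131) (nat_lit 3) (.e (nat_lit 204809) (nat_lit 9) .nil))))) .nil)) 
(.lf (nat_lit 260207) (.g (nat_lit 3352) (.e (nat_lit 164399) (nat_lit 256) (.e (nat_lit 57447) (nat_lit 19) (.e (nat_lit 393299) (nat_lit 27) (.e (nat_lit 491526) (nat_lit 0) (.e (nat_lit 1848) (nat_lit 124) .nil))))) .nil)))) (.nd (nat_lit 5) (.nd (nat_lit 6) 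
(.lf (nat_lit 260127) (.g (nat_lit 3348) (.e (nat_lit 164399) (nat_lit 256) (.e (nat_lit 57437) (nat_lit 17) (.e (nat_lit 376865) (nat_lit 22) (.e (nat_lit 90158) (nat_lit 11) (.e (nat_lit 24599) (nat_lit 1) (.e (nat_lit 57847) (nat_lit 252) (.e (nat_lit 65280) (nat_lit 62) .nil))))))) (.g (nat_lit 6) .nil .nil))) 
(.lf (nat_lit 260191) (.g (nat_lit 377) (.e (nat_lit 164399) (nat_lit 256) (.e (nat_lit 57447) (nat_lit 19) (.e (nat_lit 393277) (nat_lit 23) .nil))) .nil))) (.nd (nat_lit 6) 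
(.lf (nat_lit 260159) (.g (nat_lit 1100) (.e (nat_lit 164399) (nat_lit 256) (.e (nat_lit 57447) (nat_lit 19) (.e (nat_lit 393232) (nat_lit 17) .nil))) .nil)) 
(.lf (nat_lit 260223) (.g (nat_lit 642) (.e (nat_lit 164399) (nat_lit 256) (.e (nat_lit 57448) (nat_lit 19) (.e (nat_lit 393274) (nat_lit 23) .nil))) .nil)))))))))

noncomputable def tv3362 : DT := (.nd (nat_lit 0) (.nd (nat_lit 1) (.nd (nat_lit 2) (.nd (nat_lit 3) (.nd (nat_lit 4) (.nd (nat_lit 5) 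
(.lf (nat_lit 260224) (.g (nat_lit 1431) (.e (nat_lit 164399) (nat_lit 256) (.e (nat_lit 57448) (nat_lit 19) (.e (nat_lit 393281) (nat_lit 23) (.e (nat_lit 426115) (nat_lit 2) (.e (nat_lit 196654) (nat_lit 11) (.e (nat_lit 24320) (nat_lit 1) .nil)))))) (.g (nat_lit 5) .nil .nil))) 
(.lf (nat_lit 260256) (.g (nat_lit 2942) (.e (nat_lit 164400) (nat_lit 256) (.e (nat_lit 57374) (nat_lit 2) (.e (nat_lit 90170) (nat_lit 13) (.e (nat_lit 172065) (nat_lit 3) (.e (nat_lit 204834) (nat_lit 19) .nil))))) .nil))) (.nd (nat_lit 5) 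
(.lf (nat_lit 260240) (.g (nat_lit 2015) (.e (nat_lit 164400) (nat_lit 256) (.e (nat_lit 57372) (nat_lit 2) (.e (nat_lit 90172) (nat_lit 14) (.e (nat_lit 180243) (nat_lit 5) (.e (nat_lit 532515) (nat_lit 3) .nil))))) .nil)) 
(.lf (nat_lit 260272) (.g (nat_lit 2206) (.e (nat_lit 164400) (nat_lit 256) (.e (nat_lit 57375) (nat_lit 2) (.e (nat_lit 90172) (nat_lit 14) (.e (nat_lit 180244) (nat_lit 5) (.e (nat_lit 532515) (nat_lit 3) (.e (nat_lit 114716) (nat_lit 22) (.e (nat_lit 90137) (nat_lit 9) (.e (nat_lit 2599) (nat_lit 163) .nil)))))))) (.g (nat_lit 4) .nil .nil))))) (.nd (nat_lit 4) (.nd (nat_lit 5) 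
(.lf (nat_lit 260232) (.g (nat_lit 2494) (.e (nat_lit 164399) (nat_lit 256) (.e (nat_lit 57448) (nat_lit 19) (.e (nat_lit 393301) (nat_lit 27) (.e (nat_lit 491526) (nat_lit 0) (.e (nat_lit 1848) (nat_lit 124) (.e (nat_lit 557097) (nat_lit 13) (.e (nat_lit 179968) (nat_lit 1) .nil))))))) (.g (nat_lit 4) .nil .nil))) 
(.lf (nat_lit 260264) (.g (nat_lit 2014) (.e (nat_lit 164400) (nat_lit 256) (.e (nat_lit 57375) (nat_lit 2) (.e (nat_lit 90172) (nat_lit 14) (.e (nat_lit 180243) (nat_lit 5) (.e (nat_lit 532510) (nat_lit 2) .nil))))) .nil))) (.nd (nat_lit 5) 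
(.lf (nat_lit 260248) (.g (nat_lit 2091) (.e (nat_lit 164400) (nat_lit 256) (.e (nat_lit 57372) (nat_lit 2) (.e (nat_lit 90172) (nat_lit 14) (.e (nat_lit 180244) (nat_lit 5) (.e (nat_lit 532515) (nat_lit 3) (.e (nat_lit 114716) (nat_lit 22) (.e (nat_lit 90133) (nat_lit 9) (.e (nat_lit 2613) (nat_lit 163) .nil)))))))) (.g (nat_lit 4) .nil .nil))) 
(.lf (nat_lit 260280) (.g (nat_lit 1492) (.e (nat_lit 164400) (nat_lit 256) (.e (nat_lit 57375) (nat_lit 2) (.e (nat_lit 90178) (nat_lit 15) (.e (nat_lit 188459) (nat_lit 26) .nil)))) .nil))))) (.nd (nat_lit 3) (.nd (nat_lit 4) (.nd (nat_lit 5) 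
(.lf (nat_lit 260228) (.g (nat_lit 2375) (.e (nat_lit 164399) (nat_lit 256) (.e (nat_lit 57448) (nat_lit 19) (.e (nat_lit 393281) (nat_lit 23) (.e (nat_lit 426133) (nat_lit 3) (.e (nat_lit 204809) (nat_lit 9) (.e (nat_lit 433920) (nat_lit 1) .nil)))))) (.g (nat_lit 5) .nil .nil))) 
(.lf (nat_lit 260260) (.g (nat_lit 1914) (.e (nat_lit 164400) (nat_lit 256) (.e (nat_lit 57374) (nat_lit 2) (.e (nat_lit 90170) (nat_lit 13) (.e (nat_lit 172067) (nat_lit 3) .nil)))) .nil))) (.nd (nat_lit 5) 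
(.lf (nat_lit 260244) (.g (nat_lit 2164) (.e (nat_lit 164400) (nat_lit 256) (.e (nat_lit 57372) (nat_lit 2) (.e (nat_lit 90172) (nat_lit 14) (.e (nat_lit 180244) (nat_lit 5) (.e (nat_lit 532511) (nat_lit 2) .nil))))) .nil)) 
(.lf (nat_lit 260276) (.g (nat_lit 1310) (.e (nat_lit 164400) (nat_lit 256) (.e (nat_lit 57375) (nat_lit 2) (.e (nat_lit 90176) (nat_lit 15) (.e (nat_lit 188459) (nat_lit 26) .nil)))) .nil)))) (.nd (nat_lit 4) (.nd (nat_lit 5) 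
(.lf (nat_lit 260236) (.g (nat_lit 1505) (.e (nat_lit 164400) (nat_lit 256) (.e (nat_lit 57372) (nat_lit 2) (.e (nat_lit 90172) (nat_lit 14) (.e (nat_lit 180243) (nat_lit 5) .nil)))) .nil)) 
(.lf (nat_lit 260268) (.g (nat_lit 1936) (.e (nat_lit 164400) (nat_lit 256) (.e (nat_lit 57375) (nat_lit 2) (.e (nat_lit 90172) (nat_lit 14) (.e (nat_lit 180244) (nat_lit 5) (.e (nat_lit 532513) (nat_lit 3) .nil))))) .nil))) (.nd (nat_lit 5) 
(.lf (nat_lit 260252) (.g (nat_lit 856) (.e (nat_lit 164400) (nat_lit 256) (.e (nat_lit 57372) (nat_lit 2) (.e (nat_lit 90185) (nat_lit 17) .nil))) .nil)) 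
(.lf (nat_lit 260284) (.g (nat_lit 1957) (.e (nat_lit 164400) (nat_lit 256) (.e (nat_lit 57379) (nat_lit 3) (.e (nat_lit 98356) (nat_lit 26) (.e (nat_lit 426131) (nat_lit 3) .nil)))) .nil)))))) (.nd (nat_lit 2) (.nd (nat_lit 3) (.nd (nat_lit 4) (.nd (nat_lit 5) 
(.lf (nat_lit 260226) (.g (nat_lit 2872) (.e (nat_lit 164399) (nat_lit 256) (.e (nat_lit 57448) (nat_lit 19) (.e (nat_lit 393281) (nat_lit 23) (.e (nat_lit 426124) (nat_lit 2) (.e (nat_lit 196656) (nat_lit 11) (.e (nat_lit 16405) (nat_lit 1) .nil)))))) (.g (nat_lit 5) .nil .nil))) 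
(.lf (nat_lit 260258) (.g (nat_lit 2838) (.e (nat_lit 164400) (nat_lit 256) (.e (nat_lit 57374) (nat_lit 2) (.e (nat_lit 90170) (nat_lit 13) (.e (nat_lit 172065) (nat_lit 3) (.e (nat_lit 204838) (nat_lit 20) .nil))))) .nil))) (.nd (nat_lit 5) 
(.lf (nat_lit 260242) (.g (nat_lit 1337) (.e (nat_lit 164400) (nat_lit 256) (.e (nat_lit 57372) (nat_lit 2) (.e (nat_lit 90172) (nat_lit 14) (.e (nat_lit 180244) (nat_lit 5) .nil)))) .nil)) 
(.lf (nat_lit 260274) (.g (nat_lit 2011) (.e (nat_lit 164400) (nat_lit 256) (.e (nat_lit 57375) (nat_lit 2) (.e (nat_lit 90174) (nat_lit 14) (.e (nat_lit 180243) (nat_lit 5) (.e (nat_lit 532513) (nat_lit 3) .nil))))) .nil)))) (.nd (nat_lit 4) (.nd (nat_lit 5) 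
(.lf (nat_lit 260234) (.g (nat_lit 986) (.e (nat_lit 164400) (nat_lit 256) (.e (nat_lit 57372) (nat_lit 2) (.e (nat_lit 90167) (nat_lit 13) .nil))) .nil)) 
(.lf (nat_lit 260266) (.g (nat_lit 2184) (.e (nat_lit 164400) (nat_lit 256) (.e (nat_lit 57375) (nat_lit 2) (.e (nat_lit 90172) (nat_lit 14) (.e (nat_lit 180244) (nat_lit 5) (.e (nat_lit 532508) (nat_lit 2) .nil))))) .nil))) (.nd (nat_lit 5) 
(.lf (nat_lit 260250) (.g (nat_lit 1216) (.e (nat_lit 164400) (nat_lit 256) (.e (nat_lit 57372) (nat_lit 2) (.e (nat_lit 90176) (nat_lit 15) (.e (nat_lit 188459) (nat_lit 26) .nil)))) .nil)) 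
(.lf (nat_lit 260282) (.g (nat_lit 1761) (.e (nat_lit 164400) (nat_lit 256) (.e (nat_lit 57375) (nat_lit 2) (.e (nat_lit 90185) (nat_lit 17) (.e (nat_lit 237605) (nat_lit 9) (.e (nat_lit 426568) (nat_lit 34) .nil))))) .nil))))) (.nd (nat_lit 3) (.nd (nat_lit 4) (.nd (nat_lit 5) 
(.lf (nat_lit 260230) (.g (nat_lit 634) (.e (nat_lit 164399) (nat_lit 256) (.e (nat_lit 57448) (nat_lit 19) (.e (nat_lit 393283) (nat_lit 24) .nil))) .nil)) 
(.lf (nat_lit 260262) (.g (nat_lit 1430) (.e (nat_lit 164400) (nat_lit 256) (.e (nat_lit 57375) (nat_lit 2) (.e (nat_lit 90172) (nat_lit 14) (.e (nat_lit 180243) (nat_lit 5) .nil)))) .nil))) (.nd (nat_lit 5) 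
(.lf (nat_lit 260246) (.g (nat_lit 2697) (.e (nat_lit 164400) (nat_lit 256) (.e (nat_lit 57372) (nat_lit 2) (.e (nat_lit 90172) (nat_lit 14) (.e (nat_lit 180244) (nat_lit 5) (.e (nat_lit 532515) (nat_lit 3) (.e (nat_lit 114716) (nat_lit 22) (.e (nat_lit 90129) (nat_lit 9) (.e (nat_lit 2603) (nat_lit 163) .nil)))))))) (.g (nat_lit 5) .nil .nil))) 
(.lf (nat_lit 260278) (.g (nat_lit 1310) (.e (nat_lit 164400) (nat_lit 256) (.e (nat_lit 57375) (nat_lit 2) (.e (nat_lit 90176) (nat_lit 15) (.e (nat_lit 188461) (nat_lit 26) .nil)))) .nil)))) (.nd (nat_lit 4) (.nd (nat_lit 5) 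
(.lf (nat_lit 260238) (.g (nat_lit 2003) (.e (nat_lit 164400) (nat_lit 256) (.e (nat_lit 57372) (nat_lit 2) (.e (nat_lit 90172) (nat_lit 14) (.e (nat_lit 180243) (nat_lit 5) (.e (nat_lit 532508) (nat_lit 2) .nil))))) .nil)) 
(.lf (nat_lit 260270) (.g (nat_lit 2581) (.e (nat_lit 164400) (nat_lit 256) (.e (nat_lit 57375) (nat_lit 2) (.e (nat_lit 90172) (nat_lit 14) (.e (nat_lit 180244) (nat_lit 5) (.e (nat_lit 532515) (nat_lit 3) (.e (nat_lit 114716) (nat_lit 22) (.e (nat_lit 90129) (nat_lit 9) (.e (nat_lit 2603) (nat_lit 163) .nil)))))))) (.g (nat_lit 5) .nil .nil)))) (.nd (nat_lit 5) 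
(.lf (nat_lit 260254) (.g (nat_lit 1890) (.e (nat_lit 164400) (nat_lit 256) (.e (nat_lit 57373) (nat_lit 2) (.e (nat_lit 90172) (nat_lit 14) (.e (nat_lit 180244) (nat_lit 5) .nil)))) .nil)) 
(.lf (nat_lit 260286) (.g (nat_lit 1237) (.e (nat_lit 164400) (nat_lit 256) (.e (nat_lit 57379) (nat_lit 3) (.e (nat_lit 98365) (nat_lit 26) (.e (nat_lit 426325) (nat_lit 13) .nil)))) .nil))))))) (.nd (nat_lit 1) (.nd (nat_lit 2) (.nd (nat_lit 3) (.nd (nat_lit 4) (.nd (nat_lit 5) 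
(.lf (nat_lit 260225) (.g (nat_lit 1717) (.e (nat_lit 164399) (nat_lit 256) (.e (nat_lit 57448) (nat_lit 19) (.e (nat_lit 393281) (nat_lit 23) (.e (nat_lit 426116) (nat_lit 2) (.e (nat_lit 196654) (nat_lit 11) (.e (nat_lit 24320) (nat_lit 1) .nil)))))) (.g (nat_lit 5) .nil .nil))) 
(.lf (nat_lit 260257) (.g (nat_lit 2942) (.e (nat_lit 164400) (nat_lit 256) (.e (nat_lit 57374) (nat_lit 2) (.e (nat_lit 90170) (nat_lit 13) (.e (nat_lit 172065) (nat_lit 3) (.e (nat_lit 204837) (nat_lit 20) .nil))))) .nil))) (.nd (nat_lit 5) 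
(.lf (nat_lit 260241) (.g (nat_lit 2744) (.e (nat_lit 164400) (nat_lit 256) (.e (nat_lit 57372) (nat_lit 2) (.e (nat_lit 90172) (nat_lit 14) (.e (nat_lit 180243) (nat_lit 5) (.e (nat_lit 532515) (nat_lit 3) (.e (nat_lit 114716) (nat_lit 22) (.e (nat_lit 90128) (nat_lit 9) (.e (nat_lit 2615) (nat_lit 163) .nil)))))))) (.g (nat_lit 5) .nil .nil))) 
(.lf (nat_lit 260273) (.g (nat_lit 1357) (.e (nat_lit 164400) (nat_lit 256) (.e (nat_lit 57375) (nat_lit 2) (.e (nat_lit 90174) (nat_lit 14) (.e (nat_lit 180243) (nat_lit 5) .nil)))) .nil)))) (.nd (nat_lit 4) (.nd (nat_lit 5) 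
(.lf (nat_lit 260233) (.g (nat_lit 3533) (.e (nat_lit 164399) (nat_lit 256) (.e (nat_lit 57448) (nat_lit 19) (.e (nat_lit 393301) (nat_lit 27) (.e (nat_lit 491526) (nat_lit 0) (.e (nat_lit 1855) (nat_lit 124) (.e (nat_lit 557100) (nat_lit 13) (.e (nat_lit 172059) (nat_lit 1) .nil))))))) (.g (nat_lit 5) .nil .nil))) 
(.lf (nat_lit 260265) (.g (nat_lit 1941) (.e (nat_lit 164400) (nat_lit 256) (.e (nat_lit 57375) (nat_lit 2) (.e (nat_lit 90172) (nat_lit 14) (.e (nat_lit 180243) (nat_lit 5) (.e (nat_lit 532515) (nat_lit 3) .nil))))) .nil))) (.nd (nat_lit 5) 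
(.lf (nat_lit 260249) (.g (nat_lit 2322) (.e (nat_lit 164400) (nat_lit 256) (.e (nat_lit 57372) (nat_lit 2) (.e (nat_lit 90172) (nat_lit 14) (.e (nat_lit 180244) (nat_lit 5) (.e (nat_lit 532515) (nat_lit 3) (.e (nat_lit 114716) (nat_lit 22) (.e (nat_lit 90137) (nat_lit 9) (.e (nat_lit 2599) (nat_lit 163) .nil)))))))) (.g (nat_lit 4) .nil .nil))) 
(.lf (nat_lit 260281) (.g (nat_lit 1648) (.e (nat_lit 164400) (nat_lit 256) (.e (nat_lit 57375) (nat_lit 2) (.e (nat_lit 90185) (nat_lit 17) (.e (nat_lit 237601) (nat_lit 9) (.e (nat_lit 426568) (nat_lit 34) .nil))))) .nil))))) (.nd (nat_lit 3) (.nd (nat_lit 4) (.nd (nat_lit 5) 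
(.lf (nat_lit 260229) (.g (nat_lit 1935) (.e (nat_lit 164399) (nat_lit 256) (.e (nat_lit 57448) (nat_lit 19) (.e (nat_lit 393281) (nat_lit 23) (.e (nat_lit 426133) (nat_lit 3) (.e (nat_lit 204811) (nat_lit 9) (.e (nat_lit 433920) (nat_lit 1) .nil)))))) (.g (nat_lit 5) .nil .nil))) 
(.lf (nat_lit 260261) (.g (nat_lit 2858) (.e (nat_lit 164400) (nat_lit 256) (.e (nat_lit 57374) (nat_lit 2) (.e (nat_lit 90170) (nat_lit 13) (.e (nat_lit 172067) (nat_lit 3) (.e (nat_lit 204834) (nat_lit 19) .nil))))) .nil))) (.nd (nat_lit 5) 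
(.lf (nat_lit 260245) (.g (nat_lit 1919) (.e (nat_lit 164400) (nat_lit 256) (.e (nat_lit 57372) (nat_lit 2) (.e (nat_lit 90172) (nat_lit 14) (.e (nat_lit 180244) (nat_lit 5) (.e (nat_lit 532513) (nat_lit 3) .nil))))) .nil)) 
(.lf (nat_lit 260277) (.g (nat_lit 1920) (.e (nat_lit 164400) (nat_lit 256) (.e (nat_lit 57375) (nat_lit 2) (.e (nat_lit 90176) (nat_lit 15) (.e (nat_lit 188459) (nat_lit 26) (.e (nat_lit 261888) (nat_lit 4) (.e (nat_lit 172059) (nat_lit 1) .nil)))))) (.g (nat_lit 4) .nil .nil))))) (.nd (nat_lit 4) (.nd (nat_lit 5) 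
(.lf (nat_lit 260237) (.g (nat_lit 2062) (.e (nat_lit 164400) (nat_lit 256) (.e (nat_lit 57372) (nat_lit 2) (.e (nat_lit 90172) (nat_lit 14) (.e (nat_lit 180243) (nat_lit 5) (.e (nat_lit 532506) (nat_lit 2) .nil))))) .nil)) 
(.lf (nat_lit 260269) (.g (nat_lit 1939) (.e (nat_lit 164400) (nat_lit 256) (.e (nat_lit 57375) (nat_lit 2) (.e (nat_lit 90172) (nat_lit 14) (.e (nat_lit 180244) (nat_lit 5) (.e (nat_lit 532515) (nat_lit 3) .nil))))) .nil))) (.nd (nat_lit 5) 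
(.lf (nat_lit 260253) (.g (nat_lit 2479) (.e (nat_lit 164400) (nat_lit 256) (.e (nat_lit 57373) (nat_lit 2) (.e (nat_lit 90170) (nat_lit 13) (.e (nat_lit 172065) (nat_lit 3) .nil)))) .nil)) 
(.lf (nat_lit 260285) (.g (nat_lit 2561) (.e (nat_lit 164400) (nat_lit 256) (.e (nat_lit 57379) (nat_lit 3) (.e (nat_lit 98356) (nat_lit 26) (.e (nat_lit 426131) (nat_lit 3) (.e (nat_lit 204838) (nat_lit 20) .nil))))) .nil)))))) (.nd (nat_lit 2) (.nd (nat_lit 3) (.nd (nat_lit 4) (.nd (nat_lit 5) 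
(.lf (nat_lit 260227) (.g (nat_lit 2793) (.e (nat_lit 164399) (nat_lit 256) (.e (nat_lit 57448) (nat_lit 19) (.e (nat_lit 393281) (nat_lit 23) (.e (nat_lit 426124) (nat_lit 2) (.e (nat_lit 196656) (nat_lit 11) (.e (nat_lit 16406) (nat_lit 1) .nil)))))) (.g (nat_lit 5) .nil .nil))) 
(.lf (nat_lit 260259) (.g (nat_lit 3946) (.e (nat_lit 164400) (nat_lit 256) (.e (nat_lit 57374) (nat_lit 2) (.e (nat_lit 90170) (nat_lit 13) (.e (nat_lit 172065) (nat_lit 3) (.e (nat_lit 204838) (nat_lit 20) (.e (nat_lit 114708) (nat_lit 20) (.e (nat_lit 1800) (nat_lit 119) (.e (nat_lit 516117) (nat_lit 1) .nil)))))))) (.g (nat_lit 5) .nil .nil)))) (.nd (nat_lit 5) 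
(.lf (nat_lit 260243) (.g (nat_lit 2164) (.e (nat_lit 164400) (nat_lit 256) (.e (nat_lit 57372) (nat_lit 2) (.e (nat_lit 90172) (nat_lit 14) (.e (nat_lit 180244) (nat_lit 5) (.e (nat_lit 532508) (nat_lit 2) .nil))))) .nil)) 
(.lf (nat_lit 260275) (.g (nat_lit 1900) (.e (nat_lit 164400) (nat_lit 256) (.e (nat_lit 57375) (nat_lit 2) (.e (nat_lit 90174) (nat_lit 14) (.e (nat_lit 180243) (nat_lit 5) (.e (nat_lit 532515) (nat_lit 3) (.e (nat_lit 114716) (nat_lit 22) (.e (nat_lit 90137) (nat_lit 9) (.e (nat_lit 2599) (nat_lit 163) .nil)))))))) (.g (nat_lit 4) .nil .nil))))) (.nd (nat_lit 4) (.nd (nat_lit 5) 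
(.lf (nat_lit 260235) (.g (nat_lit 2635) (.e (nat_lit 164400) (nat_lit 256) (.e (nat_lit 57372) (nat_lit 2) (.e (nat_lit 90167) (nat_lit 13) (.e (nat_lit 172067) (nat_lit 3) (.e (nat_lit 204834) (nat_lit 19) .nil))))) .nil)) 
(.lf (nat_lit 260267) (.g (nat_lit 2167) (.e (nat_lit 164400) (nat_lit 256) (.e (nat_lit 57375) (nat_lit 2) (.e (nat_lit 90172) (nat_lit 14) (.e (nat_lit 180244) (nat_lit 5) (.e (nat_lit 532511) (nat_lit 2) .nil))))) .nil))) (.nd (nat_lit 5) 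
(.lf (nat_lit 260251) (.g (nat_lit 1919) (.e (nat_lit 164400) (nat_lit 256) (.e (nat_lit 57372) (nat_lit 2) (.e (nat_lit 90176) (nat_lit 15) (.e (nat_lit 188461) (nat_lit 26) (.e (nat_lit 261888) (nat_lit 4) .nil))))) .nil)) 
(.lf (nat_lit 260283) (.g (nat_lit 1641) (.e (nat_lit 164400) (nat_lit 256) (.e (nat_lit 57375) (nat_lit 2) (.e (nat_lit 90185) (nat_lit 17) (.e (nat_lit 237621) (nat_lit 13) (.e (nat_lit 483337) (nat_lit 9) .nil))))) .nil))))) (.nd (nat_lit 3) (.nd (nat_lit 4) (.nd (nat_lit 5) 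
(.lf (nat_lit 260231) (.g (nat_lit 1496) (.e (nat_lit 164399) (nat_lit 256) (.e (nat_lit 57448) (nat_lit 19) (.e (nat_lit 393289) (nat_lit 25) (.e (nat_lit 458789) (nat_lit 23) (.e (nat_lit 532579) (nat_lit 26) .nil))))) .nil)) 
(.lf (nat_lit 260263) (.g (nat_lit 1987) (.e (nat_lit 164400) (nat_lit 256) (.e (nat_lit 57375) (nat_lit 2) (.e (nat_lit 90172) (nat_lit 14) (.e (nat_lit 180243) (nat_lit 5) (.e (nat_lit 532506) (nat_lit 2) .nil))))) .nil))) (.nd (nat_lit 5) 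
(.lf (nat_lit 260247) (.g (nat_lit 2805) (.e (nat_lit 164400) (nat_lit 256) (.e (nat_lit 57372) (nat_lit 2) (.e (nat_lit 90172) (nat_lit 14) (.e (nat_lit 180244) (nat_lit 5) (.e (nat_lit 532515) (nat_lit 3) (.e (nat_lit 114716) (nat_lit 22) (.e (nat_lit 90129) (nat_lit 9) (.e (nat_lit 2604) (nat_lit 163) .nil)))))))) (.g (nat_lit 6) .nil .nil))) 
(.lf (nat_lit 260279) (.g (nat_lit 858) (.e (nat_lit 164400) (nat_lit 256) (.e (nat_lit 57375) (nat_lit 2) (.e (nat_lit 90177) (nat_lit 15) .nil))) .nil)))) (.nd (nat_lit 4) (.nd (nat_lit 5) 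
(.lf (nat_lit 260239) (.g (nat_lit 2089) (.e (nat_lit 164400) (nat_lit 256) (.e (nat_lit 57372) (nat_lit 2) (.e (nat_lit 90172) (nat_lit 14) (.e (nat_lit 180243) (nat_lit 5) (.e (nat_lit 532510) (nat_lit 2) .nil))))) .nil)) 
(.lf (nat_lit 260271) (.g (nat_lit 1975) (.e (nat_lit 164400) (nat_lit 256) (.e (nat_lit 57375) (nat_lit 2) (.e (nat_lit 90172) (nat_lit 14) (.e (nat_lit 180244) (nat_lit 5) (.e (nat_lit 532515) (nat_lit 3) (.e (nat_lit 114716) (nat_lit 22) (.e (nat_lit 90133) (nat_lit 9) (.e (nat_lit 2613) (nat_lit 163) .nil)))))))) (.g (nat_lit 4) .nil .nil)))) (.nd (nat_lit 5) 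
(.lf (nat_lit 260255) (.g (nat_lit 655) (.e (nat_lit 164400) (nat_lit 256) (.e (nat_lit 57373) (nat_lit 2) (.e (nat_lit 90185) (nat_lit 17) .nil))) .nil)) 
(.lf (nat_lit 260287) (.g (nat_lit 2212) (.e (nat_lit 164400) (nat_lit 256) (.e (nat_lit 57379) (nat_lit 3) (.e (nat_lit 98366) (nat_lit 27) (.e (nat_lit 434231) (nat_lit 23) (.e (nat_lit 532506) (nat_lit 2) .nil))))) .nil))))))))

noncomputable def tv3363 : DT := (.nd (nat_lit 0) (.nd (nat_lit 1) (.nd (nat_lit 2) (.nd (nat_lit 3) (.nd (nat_lit 4) (.nd (nat_lit 5) 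
(.lf (nat_lit 260288) (.g (nat_lit 1870) (.e (nat_lit 164400) (nat_lit 256) (.e (nat_lit 57379) (nat_lit 3) (.e (nat_lit 98366) (nat_lit 27) (.e (nat_lit 434231) (nat_lit 23) (.e (nat_lit 532507) (nat_lit 2) .nil))))) .nil)) 
(.lf (nat_lit 260320) (.g (nat_lit 1663) (.e (nat_lit 164401) (nat_lit 256) (.e (nat_lit 57373) (nat_lit 2) (.e (nat_lit 90172) (nat_lit 14) (.e (nat_lit 180243) (nat_lit 5) .nil)))) .nil))) (.nd (nat_lit 5) 
(.lf (nat_lit 260304) (.g (nat_lit 1514) (.e (nat_lit 164401) (nat_lit 256) (.e (nat_lit 57371) (nat_lit 2) (.e (nat_lit 90172) (nat_lit 14) (.e (nat_lit 180243) (nat_lit 5) .nil)))) .nil)) 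
(.lf (nat_lit 260336) (.g (nat_lit 345) (.e (nat_lit 164401) (nat_lit 256) (.e (nat_lit 57377) (nat_lit 3) (.e (nat_lit 98365) (nat_lit 26) .nil))) .nil)))) (.nd (nat_lit 4) (.nd (nat_lit 5) 
(.lf (nat_lit 260296) (.g (nat_lit 2497) (.e (nat_lit 164400) (nat_lit 256) (.e (nat_lit 57427) (nat_lit 15) (.e (nat_lit 360474) (nat_lit 8) (.e (nat_lit 557059) (nat_lit 0) .nil)))) .nil)) 
(.lf (nat_lit 260328) (.g (nat_lit 2108) (.e (nat_lit 164401) (nat_lit 256) (.e (nat_lit 57373) (nat_lit 2) (.e (nat_lit 90172) (nat_lit 14) (.e (nat_lit 180244) (nat_lit 5) (.e (nat_lit 532515) (nat_lit 3) (.e (nat_lit 114716) (nat_lit 22) (.e (nat_lit 90137) (nat_lit 9) (.e (nat_lit 2607) (nat_lit 163) .nil)))))))) (.g (nat_lit 4) .nil .nil)))) (.nd (nat_lit 5) 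
(.lf (nat_lit 260312) (.g (nat_lit 2468) (.e (nat_lit 164401) (nat_lit 256) (.e (nat_lit 57373) (nat_lit 2) (.e (nat_lit 90170) (nat_lit 13) (.e (nat_lit 172067) (nat_lit 3) (.e (nat_lit 204834) (nat_lit 19) .nil))))) .nil)) 
(.lf (nat_lit 260344) (.g (nat_lit 2158) (.e (nat_lit 164401) (nat_lit 256) (.e (nat_lit 57378) (nat_lit 3) (.e (nat_lit 98366) (nat_lit 27) (.e (nat_lit 434231) (nat_lit 23) (.e (nat_lit 532514) (nat_lit 3) .nil))))) .nil))))) (.nd (nat_lit 3) (.nd (nat_lit 4) (.nd (nat_lit 5) 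
(.lf (nat_lit 260292) (.g (nat_lit 1996) (.e (nat_lit 164400) (nat_lit 256) (.e (nat_lit 57379) (nat_lit 3) (.e (nat_lit 98377) (nat_lit 30) (.e (nat_lit 458789) (nat_lit 23) (.e (nat_lit 532515) (nat_lit 3) .nil))))) .nil)) 
(.lf (nat_lit 260324) (.g (nat_lit 2497) (.e (nat_lit 164401) (nat_lit 256) (.e (nat_lit 57373) (nat_lit 2) (.e (nat_lit 90172) (nat_lit 14) (.e (nat_lit 180244) (nat_lit 5) (.e (nat_lit 532508) (nat_lit 2) (.e (nat_lit 106541) (nat_lit 13) (.e (nat_lit 122936) (nat_lit 23) (.e (nat_lit 516117) (nat_lit 1) .nil)))))))) (.g (nat_lit 4) .nil .nil)))) (.nd (nat_lit 5) 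
(.lf (nat_lit 260308) (.g (nat_lit 2534) (.e (nat_lit 164401) (nat_lit 256) (.e (nat_lit 57371) (nat_lit 2) (.e (nat_lit 90174) (nat_lit 14) (.e (nat_lit 180243) (nat_lit 5) (.e (nat_lit 532513) (nat_lit 3) (.e (nat_lit 114708) (nat_lit 20) (.e (nat_lit 1800) (nat_lit 119) (.e (nat_lit 516117) (nat_lit 1) .nil)))))))) (.g (nat_lit 4) .nil .nil))) 
(.lf (nat_lit 260340) (.g (nat_lit 1753) (.e (nat_lit 164401) (nat_lit 256) (.e (nat_lit 57378) (nat_lit 3) (.e (nat_lit 98365) (nat_lit 26) (.e (nat_lit 426189) (nat_lit 9) .nil)))) .nil)))) (.nd (nat_lit 4) (.nd (nat_lit 5) 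
(.lf (nat_lit 260300) (.g (nat_lit 1154) (.e (nat_lit 164400) (nat_lit 256) (.e (nat_lit 57448) (nat_lit 19) (.e (nat_lit 393281) (nat_lit 23) (.e (nat_lit 426115) (nat_lit 2) .nil)))) .nil)) 
(.lf (nat_lit 260332) (.g (nat_lit 3427) (.e (nat_lit 164401) (nat_lit 256) (.e (nat_lit 57373) (nat_lit 2) (.e (nat_lit 90178) (nat_lit 15) (.e (nat_lit 188421) (nat_lit 11) (.e (nat_lit 336387) (nat_lit 27) (.e (nat_lit 426108) (nat_lit 1) .nil)))))) (.g (nat_lit 0) .nil .nil)))) (.nd (nat_lit 5) 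
(.lf (nat_lit 260316) (.g (nat_lit 1638) (.e (nat_lit 164401) (nat_lit 256) (.e (nat_lit 57373) (nat_lit 2) (.e (nat_lit 90170) (nat_lit 13) (.e (nat_lit 172085) (nat_lit 9) .nil)))) .nil)) 
(.lf (nat_lit 260348) (.g (nat_lit 2653) (.e (nat_lit 164401) (nat_lit 256) (.e (nat_lit 57378) (nat_lit 3) (.e (nat_lit 98369) (nat_lit 28) (.e (nat_lit 442390) (nat_lit 11) (.e (nat_lit 336387) (nat_lit 27) (.e (nat_lit 426107) (nat_lit 1) .nil)))))) (.g (nat_lit 0) .nil .nil))))))) (.nd (nat_lit 2) (.nd (nat_lit 3) (.nd (nat_lit 4) (.nd (nat_lit 5) 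
(.lf (nat_lit 260290) (.g (nat_lit 1169) (.e (nat_lit 164400) (nat_lit 256) (.e (nat_lit 57379) (nat_lit 3) (.e (nat_lit 98370) (nat_lit 28) (.e (nat_lit 442390) (nat_lit 11) .nil)))) .nil)) 
(.lf (nat_lit 260322) (.g (nat_lit 1123) (.e (nat_lit 164401) (nat_lit 256) (.e (nat_lit 57373) (nat_lit 2) (.e (nat_lit 90172) (nat_lit 14) (.e (nat_lit 180244) (nat_lit 5) .nil)))) .nil))) (.nd (nat_lit 5) 
(.lf (nat_lit 260306) (.g (nat_lit 1937) (.e (nat_lit 164401) (nat_lit 256) (.e (nat_lit 57371) (nat_lit 2) (.e (nat_lit 90172) (nat_lit 14) (.e (nat_lit 180244) (nat_lit 5) (.e (nat_lit 532515) (nat_lit 3) .nil))))) .nil)) 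
(.lf (nat_lit 260338) (.g (nat_lit 2896) (.e (nat_lit 164401) (nat_lit 256) (.e (nat_lit 57378) (nat_lit 3) (.e (nat_lit 98358) (nat_lit 26) (.e (nat_lit 426131) (nat_lit 3) (.e (nat_lit 204838) (nat_lit 20) (.e (nat_lit 114708) (nat_lit 20) (.e (nat_lit 1800) (nat_lit 119) (.e (nat_lit 516117) (nat_lit 1) .nil)))))))) (.g (nat_lit 5) .nil .nil))))) (.nd (nat_lit 4) (.nd (nat_lit 5) 
(.lf (nat_lit 260298) (.g (nat_lit 2242) (.e (nat_lit 164400) (nat_lit 256) (.e (nat_lit 57448) (nat_lit 19) (.e (nat_lit 393234) (nat_lit 17) (.e (nat_lit 7581) (nat_lit 405) (.e (nat_lit 57479) (nat_lit 28) .nil))))) .nil)) 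
(.lf (nat_lit 260330) (.g (nat_lit 3040) (.e (nat_lit 164401) (nat_lit 256) (.e (nat_lit 57373) (nat_lit 2) (.e (nat_lit 90172) (nat_lit 14) (.e (nat_lit 180244) (nat_lit 5) (.e (nat_lit 532515) (nat_lit 3) (.e (nat_lit 114716) (nat_lit 22) (.e (nat_lit 90140) (nat_lit 9) (.e (nat_lit 2611) (nat_lit 163) .nil)))))))) (.g (nat_lit 6) .nil .nil)))) (.nd (nat_lit 5) 
(.lf (nat_lit 260314) (.g (nat_lit 2402) (.e (nat_lit 164401) (nat_lit 256) (.e (nat_lit 57373) (nat_lit 2) (.e (nat_lit 90170) (nat_lit 13) (.e (nat_lit 172067) (nat_lit 3) (.e (nat_lit 204837) (nat_lit 20) .nil))))) .nil)) 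
(.lf (nat_lit 260346) (.g (nat_lit 1569) (.e (nat_lit 164401) (nat_lit 256) (.e (nat_lit 57378) (nat_lit 3) (.e (nat_lit 98368) (nat_lit 27) (.e (nat_lit 434245) (nat_lit 28) .nil)))) .nil))))) (.nd (nat_lit 3) (.nd (nat_lit 4) (.nd (nat_lit 5) 
(.lf (nat_lit 260294) (.g (nat_lit 2365) (.e (nat_lit 164400) (nat_lit 256) (.e (nat_lit 57400) (nat_lit 10) (.e (nat_lit 319533) (nat_lit 16) (.e (nat_lit 286761) (nat_lit 13) (.e (nat_lit 393270) (nat_lit 23) .nil))))) .nil)) 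
(.lf (nat_lit 260326) (.g (nat_lit 2438) (.e (nat_lit 164401) (nat_lit 256) (.e (nat_lit 57373) (nat_lit 2) (.e (nat_lit 90172) (nat_lit 14) (.e (nat_lit 180244) (nat_lit 5) (.e (nat_lit 532514) (nat_lit 3) (.e (nat_lit 114719) (nat_lit 23) (.e (nat_lit 98334) (nat_lit 18) .nil))))))) (.g (nat_lit 4) .nil .nil)))) (.nd (nat_lit 5) 
(.lf (nat_lit 260310) (.g (nat_lit 1967) (.e (nat_lit 164401) (nat_lit 256) (.e (nat_lit 57373) (nat_lit 2) (.e (nat_lit 90170) (nat_lit 13) (.e (nat_lit 172065) (nat_lit 3) (.e (nat_lit 204834) (nat_lit 19) .nil))))) .nil)) 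
(.lf (nat_lit 260342) (.g (nat_lit 2533) (.e (nat_lit 164401) (nat_lit 256) (.e (nat_lit 57378) (nat_lit 3) (.e (nat_lit 98366) (nat_lit 27) (.e (nat_lit 434231) (nat_lit 23) (.e (nat_lit 532506) (nat_lit 2) .nil))))) .nil)))) (.nd (nat_lit 4) (.nd (nat_lit 5) 
(.lf (nat_lit 260302) (.g (nat_lit 2496) (.e (nat_lit 164401) (nat_lit 256) (.e (nat_lit 57354) (nat_lit 0) (.e (nat_lit 6114) (nat_lit 332) (.e (nat_lit 1370) (nat_lit 103) (.e (nat_lit 294941) (nat_lit 9) .nil))))) .nil)) 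
(.lf (nat_lit 260334) (.g (nat_lit 1370) (.e (nat_lit 164401) (nat_lit 256) (.e (nat_lit 57373) (nat_lit 2) (.e (nat_lit 90185) (nat_lit 17) (.e (nat_lit 237620) (nat_lit 13) .nil)))) .nil))) (.nd (nat_lit 5) 
(.lf (nat_lit 260318) (.g (nat_lit 1893) (.e (nat_lit 164401) (nat_lit 256) (.e (nat_lit 57373) (nat_lit 2) (.e (nat_lit 90170) (nat_lit 13) (.e (nat_lit 172092) (nat_lit 9) .nil)))) .nil)) 
(.lf (nat_lit 260350) (.g (nat_lit 2851) (.e (nat_lit 164401) (nat_lit 256) (.e (nat_lit 57378) (nat_lit 3) (.e (nat_lit 98370) (nat_lit 28) (.e (nat_lit 442390) (nat_lit 11) (.e (nat_lit 336387) (nat_lit 27) (.e (nat_lit 426107) (nat_lit 1) .nil)))))) (.g (nat_lit 0) .nil .nil)))))))) (.nd (nat_lit 1) (.nd (nat_lit 2) (.nd (nat_lit 3) (.nd (nat_lit 4) (.nd (nat_lit 5) 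
(.lf (nat_lit 260289) (.g (nat_lit 4456) (.e (nat_lit 164400) (nat_lit 256) (.e (nat_lit 57379) (nat_lit 3) (.e (nat_lit 98366) (nat_lit 27) (.e (nat_lit 434231) (nat_lit 23) (.e (nat_lit 532514) (nat_lit 3) (.e (nat_lit 114708) (nat_lit 20) (.e (nat_lit 1800) (nat_lit 119) (.e (nat_lit 516117) (nat_lit 1) .nil)))))))) (.g (nat_lit 8) .nil .nil))) 
(.lf (nat_lit 260321) (.g (nat_lit 2167) (.e (nat_lit 164401) (nat_lit 256) (.e (nat_lit 57373) (nat_lit 2) (.e (nat_lit 90172) (nat_lit 14) (.e (nat_lit 180243) (nat_lit 5) (.e (nat_lit 532515) (nat_lit 3) .nil))))) .nil))) (.nd (nat_lit 5) 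
(.lf (nat_lit 260305) (.g (nat_lit 1322) (.e (nat_lit 164401) (nat_lit 256) (.e (nat_lit 57371) (nat_lit 2) (.e (nat_lit 90172) (nat_lit 14) (.e (nat_lit 180244) (nat_lit 5) .nil)))) .nil)) 
(.lf (nat_lit 260337) (.g (nat_lit 1589) (.e (nat_lit 164401) (nat_lit 256) (.e (nat_lit 57378) (nat_lit 3) (.e (nat_lit 98356) (nat_lit 26) (.e (nat_lit 433920) (nat_lit 9) .nil)))) .nil)))) (.nd (nat_lit 4) (.nd (nat_lit 5) 
(.lf (nat_lit 260297) (.g (nat_lit 1744) (.e (nat_lit 164400) (nat_lit 256) (.e (nat_lit 57447) (nat_lit 19) (.e (nat_lit 393281) (nat_lit 23) (.e (nat_lit 426116) (nat_lit 2) .nil)))) .nil)) 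
(.lf (nat_lit 260329) (.g (nat_lit 2009) (.e (nat_lit 164401) (nat_lit 256) (.e (nat_lit 57373) (nat_lit 2) (.e (nat_lit 90172) (nat_lit 14) (.e (nat_lit 180244) (nat_lit 5) (.e (nat_lit 532515) (nat_lit 3) (.e (nat_lit 114716) (nat_lit 22) (.e (nat_lit 90137) (nat_lit 9) (.e (nat_lit 2609) (nat_lit 163) .nil)))))))) (.g (nat_lit 4) .nil .nil)))) (.nd (nat_lit 5) 
(.lf (nat_lit 260313) (.g (nat_lit 2845) (.e (nat_lit 164401) (nat_lit 256) (.e (nat_lit 57373) (nat_lit 2) (.e (nat_lit 90170) (nat_lit 13) (.e (nat_lit 172067) (nat_lit 3) (.e (nat_lit 204834) (nat_lit 19) (.e (nat_lit 106540) (nat_lit 13) (.e (nat_lit 122936) (nat_lit 23) (.e (nat_lit 516117) (nat_lit 1) .nil)))))))) (.g (nat_lit 4) .nil .nil))) 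
(.lf (nat_lit 260345) (.g (nat_lit 3355) (.e (nat_lit 164401) (nat_lit 256) (.e (nat_lit 57378) (nat_lit 3) (.e (nat_lit 98367) (nat_lit 27) (.e (nat_lit 434231) (nat_lit 23) (.e (nat_lit 532483) (nat_lit 0) (.e (nat_lit 2198) (nat_lit 144) (.e (nat_lit 720945) (nat_lit 23) (.e (nat_lit 98334) (nat_lit 18) .nil)))))))) (.g (nat_lit 4) .nil .nil)))))) 
(.nd (nat_lit 3) (.nd (nat_lit 4) (.nd (nat_lit 5) 
(.lf (nat_lit 260293) (.g (nat_lit 1598) (.e (nat_lit 164400) (nat_lit 256) (.e (nat_lit 57400) (nat_lit 10) (.e (nat_lit 319528) (nat_lit 16) (.e (nat_lit 286761) (nat_lit 13) (.e (nat_lit 393270) (nat_lit 23) .nil))))) .nil)) 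
(.lf (nat_lit 260325) (.g (nat_lit 1734) (.e (nat_lit 164401) (nat_lit 256) (.e (nat_lit 57373) (nat_lit 2) (.e (nat_lit 90172) (nat_lit 14) (.e (nat_lit 180244) (nat_lit 5) (.e (nat_lit 532513) (nat_lit 3) .nil))))) .nil))) (.nd (nat_lit 5) 
(.lf (nat_lit 260309) (.g (nat_lit 1400) (.e (nat_lit 164401) (nat_lit 256) (.e (nat_lit 57373) (nat_lit 2) (.e (nat_lit 90170) (nat_lit 13) (.e (nat_lit 172065) (nat_lit 3) .nil)))) .nil)) 
(.lf (nat_lit 260341) (.g (nat_lit 1467) (.e (nat_lit 164401) (nat_lit 256) (.e (nat_lit 57378) (nat_lit 3) (.e (nat_lit 98366) (nat_lit 27) (.e (nat_lit 434231) (nat_lit 23) .nil)))) .nil)))) (.nd (nat_lit 4) (.nd (nat_lit 5) 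
(.lf (nat_lit 260301) (.g (nat_lit 1962) (.e (nat_lit 164400) (nat_lit 256) (.e (nat_lit 57448) (nat_lit 19) (.e (nat_lit 393281) (nat_lit 23) (.e (nat_lit 426115) (nat_lit 2) (.e (nat_lit 196654) (nat_lit 11) (.e (nat_lit 16406) (nat_lit 1) .nil)))))) (.g (nat_lit 5) .nil .nil))) 
(.lf (nat_lit 260333) (.g (nat_lit 1666) (.e (nat_lit 164401) (nat_lit 256) (.e (nat_lit 57373) (nat_lit 2) (.e (nat_lit 90185) (nat_lit 17) (.e (nat_lit 237594) (nat_lit 3) .nil)))) .nil))) (.nd (nat_lit 5) 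
(.lf (nat_lit 260317) (.g (nat_lit 1669) (.e (nat_lit 164401) (nat_lit 256) (.e (nat_lit 57373) (nat_lit 2) (.e (nat_lit 90170) (nat_lit 13) (.e (nat_lit 172088) (nat_lit 9) .nil)))) .nil)) 
(.lf (nat_lit 260349) (.g (nat_lit 2982) (.e (nat_lit 164401) (nat_lit 256) (.e (nat_lit 57378) (nat_lit 3) (.e (nat_lit 98369) (nat_lit 28) (.e (nat_lit 442390) (nat_lit 11) (.e (nat_lit 336387) (nat_lit 27) (.e (nat_lit 426108) (nat_lit 1) .nil)))))) (.g (nat_lit 0) .nil .nil))))))) (.nd (nat_lit 2) (.nd (nat_lit 3) (.nd (nat_lit 4) (.nd (nat_lit 5) 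
(.lf (nat_lit 260291) (.g (nat_lit 1301) (.e (nat_lit 164400) (nat_lit 256) (.e (nat_lit 57379) (nat_lit 3) (.e (nat_lit 98370) (nat_lit 28) (.e (nat_lit 450304) (nat_lit 18) .nil)))) .nil)) 
(.lf (nat_lit 260323) (.g (nat_lit 1973) (.e (nat_lit 164401) (nat_lit 256) (.e (nat_lit 57373) (nat_lit 2) (.e (nat_lit 90172) (nat_lit 14) (.e (nat_lit 180244) (nat_lit 5) (.e (nat_lit 532508) (nat_lit 2) .nil))))) .nil))) (.nd (nat_lit 5) 
(.lf (nat_lit 260307) (.g (nat_lit 2211) (.e (nat_lit 164401) (nat_lit 256) (.e (nat_lit 57371) (nat_lit 2) (.e (nat_lit 90174) (nat_lit 14) (.e (nat_lit 180243) (nat_lit 5) (.e (nat_lit 532508) (nat_lit 2) .nil))))) .nil)) 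
(.lf (nat_lit 260339) (.g (nat_lit 1744) (.e (nat_lit 164401) (nat_lit 256) (.e (nat_lit 57378) (nat_lit 3) (.e (nat_lit 98365) (nat_lit 26) (.e (nat_lit 426186) (nat_lit 9) .nil)))) .nil)))) (.nd (nat_lit 4) (.nd (nat_lit 5) 
(.lf (nat_lit 260299) (.g (nat_lit 2874) (.e (nat_lit 164400) (nat_lit 256) (.e (nat_lit 57448) (nat_lit 19) (.e (nat_lit 393234) (nat_lit 17) (.e (nat_lit 7583) (nat_lit 405) (.e (nat_lit 57476) (nat_lit 28) (.e (nat_lit 557097) (nat_lit 13) (.e (nat_lit 172059) (nat_lit 1) .nil))))))) (.g (nat_lit 6) .nil .nil))) 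
(.lf (nat_lit 260331) (.g (nat_lit 1935) (.e (nat_lit 164401) (nat_lit 256) (.e (nat_lit 57373) (nat_lit 2) (.e (nat_lit 90174) (nat_lit 14) (.e (nat_lit 180243) (nat_lit 5) (.e (nat_lit 532484) (nat_lit 0) .nil))))) .nil))) (.nd (nat_lit 5) 
(.lf (nat_lit 260315) (.g (nat_lit 3553) (.e (nat_lit 164401) (nat_lit 256) (.e (nat_lit 57373) (nat_lit 2) (.e (nat_lit 90170) (nat_lit 13) (.e (nat_lit 172067) (nat_lit 3) (.e (nat_lit 204838) (nat_lit 20) (.e (nat_lit 114708) (nat_lit 20) (.e (nat_lit 1800) (nat_lit 119) (.e (nat_lit 516119) (nat_lit 1) .nil)))))))) (.g (nat_lit 5) .nil .nil))) 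
(.lf (nat_lit 260347) (.g (nat_lit 1608) (.e (nat_lit 164401) (nat_lit 256) (.e (nat_lit 57378) (nat_lit 3) (.e (nat_lit 98368) (nat_lit 27) (.e (nat_lit 434248) (nat_lit 28) .nil)))) .nil))))) (.nd (nat_lit 3) (.nd (nat_lit 4) (.nd (nat_lit 5) 
(.lf (nat_lit 260295) (.g (nat_lit 2024) (.e (nat_lit 164400) (nat_lit 256) (.e (nat_lit 57400) (nat_lit 10) (.e (nat_lit 319534) (nat_lit 16) (.e (nat_lit 286761) (nat_lit 13) (.e (nat_lit 393270) (nat_lit 23) .nil))))) .nil)) 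
(.lf (nat_lit 260327) (.g (nat_lit 1581) (.e (nat_lit 164401) (nat_lit 256) (.e (nat_lit 57373) (nat_lit 2) (.e (nat_lit 90172) (nat_lit 14) (.e (nat_lit 180244) (nat_lit 5) (.e (nat_lit 532515) (nat_lit 3) .nil))))) .nil))) (.nd (nat_lit 5) 
(.lf (nat_lit 260311) (.g (nat_lit 3183) (.e (nat_lit 164401) (nat_lit 256) (.e (nat_lit 57373) (nat_lit 2) (.e (nat_lit 90170) (nat_lit 13) (.e (nat_lit 172065) (nat_lit 3) (.e (nat_lit 204838) (nat_lit 20) (.e (nat_lit 114717) (nat_lit 23) (.e (nat_lit 98334) (nat_lit 18) .nil))))))) (.g (nat_lit 5) .nil .nil))) 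
(.lf (nat_lit 260343) (.g (nat_lit 2191) (.e (nat_lit 164401) (nat_lit 256) (.e (nat_lit 57378) (nat_lit 3) (.e (nat_lit 98366) (nat_lit 27) (.e (nat_lit 434231) (nat_lit 23) (.e (nat_lit 532507) (nat_lit 2) .nil))))) .nil)))) (.nd (nat_lit 4) (.nd (nat_lit 5) 
(.lf (nat_lit 260303) (.g (nat_lit 1710) (.e (nat_lit 164401) (nat_lit 256) (.e (nat_lit 57370) (nat_lit 2) (.e (nat_lit 90170) (nat_lit 13) (.e (nat_lit 172065) (nat_lit 3) .nil)))) .nil)) 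
(.lf (nat_lit 260335) (.g (nat_lit 870) (.e (nat_lit 164401) (nat_lit 256) (.e (nat_lit 57376) (nat_lit 3) (.e (nat_lit 98370) (nat_lit 28) (.e (nat_lit 450304) (nat_lit 18) .nil)))) .nil))) (.nd (nat_lit 5) 
(.lf (nat_lit 260319) (.g (nat_lit 1956) (.e (nat_lit 164401) (nat_lit 256) (.e (nat_lit 57373) (nat_lit 2) (.e (nat_lit 90170) (nat_lit 13) (.e (nat_lit 172095) (nat_lit 9) (.e (nat_lit 433920) (nat_lit 34) .nil))))) .nil)) 
(.lf (nat_lit 260351) (.g (nat_lit 3176) (.e (nat_lit 164401) (nat_lit 256) (.e (nat_lit 57378) (nat_lit 3) (.e (nat_lit 98370) (nat_lit 28) (.e (nat_lit 442390) (nat_lit 11) (.e (nat_lit 336387) (nat_lit 27) (.e (nat_lit 426108) (nat_lit 1) .nil)))))) (.g (nat_lit 0) .nil .nil)))))))))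

noncomputable def tv3364 : DT := (.nd (nat_lit 0) (.nd (nat_lit 1) (.nd (nat_lit 2) (.nd (nat_lit 3) (.nd (nat_lit 4) (.nd (nat_lit 5) (.nd (nat_lit 6) 
(.lf (nat_lit 260352) (.g (nat_lit 1975) (.e (nat_lit 164401) (nat_lit 256) (.e (nat_lit 57378) (nat_lit 3) (.e (nat_lit 98372) (nat_lit 29) (.e (nat_lit 458496) (nat_lit 23) .nil)))) .nil)) 
(.lf (nat_lit 260416) (.g (nat_lit 569) (.e (nat_lit 164401) (nat_lit 256) (.e (nat_lit 57427) (nat_lit 15) (.e (nat_lit 360475) (nat_lit 8) .nil))) .nil))) (.nd (nat_lit 6) 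
(.lf (nat_lit 260384) (.g (nat_lit 2109) (.e (nat_lit 164401) (nat_lit 256) (.e (nat_lit 57424) (nat_lit 14) (.e (nat_lit 352312) (nat_lit 22) (.e (nat_lit 90156) (nat_lit 11) .nil)))) .nil)) 
(.lf (nat_lit 260448) (.g (nat_lit 2987) (.e (nat_lit 164401) (nat_lit 256) (.e (nat_lit 57447) (nat_lit 19) (.e (nat_lit 393234) (nat_lit 17) (.e (nat_lit 7583) (nat_lit 405) (.e (nat_lit 57476) (nat_lit 28) (.e (nat_lit 557097) (nat_lit 13) (.e (nat_lit 172059) (nat_lit 1) .nil))))))) (.g (nat_lit 5) .nil .nil))))) (.nd (nat_lit 5) (.nd (nat_lit 6) 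
(.lf (nat_lit 260368) (.g (nat_lit 2200) (.e (nat_lit 164401) (nat_lit 256) (.e (nat_lit 57406) (nat_lit 12) (.e (nat_lit 336443) (nat_lit 32) (.e (nat_lit 466974) (nat_lit 22) (.e (nat_lit 196656) (nat_lit 11) (.e (nat_lit 16407) (nat_lit 1) .nil)))))) (.g (nat_lit 4) .nil .nil))) 
(.lf (nat_lit 260432) (.g (nat_lit 2019) (.e (nat_lit 164401) (nat_lit 256) (.e (nat_lit 57446) (nat_lit 19) (.e (nat_lit 393281) (nat_lit 23) (.e (nat_lit 426116) (nat_lit 2) (.e (nat_lit 196654) (nat_lit 11) (.e (nat_lit 16406) (nat_lit 1) .nil)))))) (.g (nat_lit 5) .nil .nil)))) (.nd (nat_lit 6) 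
(.lf (nat_lit 260400) (.g (nat_lit 1808) (.e (nat_lit 164401) (nat_lit 256) (.e (nat_lit 57427) (nat_lit 15) (.e (nat_lit 360474) (nat_lit 8) (.e (nat_lit 564992) (nat_lit 4) .nil)))) .nil)) 
(.lf (nat_lit 260464) (.g (nat_lit 3120) (.e (nat_lit 164401) (nat_lit 256) (.e (nat_lit 57447) (nat_lit 19) (.e (nat_lit 393275) (nat_lit 23) (.e (nat_lit 426125) (nat_lit 2) (.e (nat_lit 196656) (nat_lit 11) (.e (nat_lit 16406) (nat_lit 1) .nil)))))) (.g (nat_lit 4) .nil .nil)))))) (.nd (nat_lit 4) (.nd (nat_lit 5) (.nd (nat_lit 6) 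
(.lf (nat_lit 260360) (.g (nat_lit 1197) (.e (nat_lit 164401) (nat_lit 256) (.e (nat_lit 57378) (nat_lit 3) (.e (nat_lit 98386) (nat_lit 32) .nil))) .nil)) 
(.lf (nat_lit 260424) (.g (nat_lit 700) (.e (nat_lit 164401) (nat_lit 256) (.e (nat_lit 57435) (nat_lit 17) (.e (nat_lit 376862) (nat_lit 22) .nil))) .nil))) (.nd (nat_lit 6) 
(.lf (nat_lit 260392) (.g (nat_lit 743) (.e (nat_lit 164401) (nat_lit 256) (.e (nat_lit 57427) (nat_lit 15) (.e (nat_lit 360458) (nat_lit 1) .nil))) .nil)) 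
(.lf (nat_lit 260456) (.g (nat_lit 901) (.e (nat_lit 164401) (nat_lit 256) (.e (nat_lit 57447) (nat_lit 19) (.e (nat_lit 393270) (nat_lit 23) .nil))) .nil)))) (.nd (nat_lit 5) (.nd (nat_lit 6) 
(.lf (nat_lit 260376) (.g (nat_lit 2965) (.e (nat_lit 164401) (nat_lit 256) (.e (nat_lit 57409) (nat_lit 12) (.e (nat_lit 336443) (nat_lit 32) (.e (nat_lit 466979) (nat_lit 23) (.e (nat_lit 204809) (nat_lit 9) (.e (nat_lit 426108) (nat_lit 1) .nil)))))) (.g (nat_lit 0) .nil .nil))) 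
(.lf (nat_lit 260440) (.g (nat_lit 2317) (.e (nat_lit 164401) (nat_lit 256) (.e (nat_lit 57447) (nat_lit 19) (.e (nat_lit 393234) (nat_lit 17) (.e (nat_lit 7581) (nat_lit 405) (.e (nat_lit 57477) (nat_lit 28) .nil))))) .nil))) (.nd (nat_lit 6) 
(.lf (nat_lit 260408) (.g (nat_lit 2495) (.e (nat_lit 164401) (nat_lit 256) (.e (nat_lit 57427) (nat_lit 15) (.e (nat_lit 360474) (nat_lit 8) (.e (nat_lit 557093) (nat_lit 12) (.e (nat_lit 163856) (nat_lit 0) .nil))))) .nil)) 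
(.lf (nat_lit 260472) (.g (nat_lit 1860) (.e (nat_lit 164401) (nat_lit 256) (.e (nat_lit 57447) (nat_lit 19) (.e (nat_lit 393280) (nat_lit 23) (.e (nat_lit 426133) (nat_lit 3) (.e (nat_lit 204813) (nat_lit 9) .nil))))) .nil)))))) (.nd (nat_lit 3) (.nd (nat_lit 4) (.nd (nat_lit 5) (.nd (nat_lit 6) 
(.lf (nat_lit 260356) (.g (nat_lit 2092) (.e (nat_lit 164401) (nat_lit 256) (.e (nat_lit 57378) (nat_lit 3) (.e (nat_lit 98377) (nat_lit 30) (.e (nat_lit 458789) (nat_lit 23) (.e (nat_lit 532515) (nat_lit 3) (.e (nat_lit 114716) (nat_lit 22) (.e (nat_lit 90140) (nat_lit 9) (.e (nat_lit 2611) (nat_lit 163) .nil)))))))) (.g (nat_lit 4) .nil .nil))) 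
(.lf (nat_lit 260420) (.g (nat_lit 2891) (.e (nat_lit 164401) (nat_lit 256) (.e (nat_lit 57427) (nat_lit 15) (.e (nat_lit 360475) (nat_lit 8) (.e (nat_lit 557091) (nat_lit 12) (.e (nat_lit 163856) (nat_lit 0) .nil))))) .nil))) (.nd (nat_lit 6) 
(.lf (nat_lit 260388) (.g (nat_lit 3175) (.e (nat_lit 164401) (nat_lit 256) (.e (nat_lit 57424) (nat_lit 14) (.e (nat_lit 352312) (nat_lit 22) (.e (nat_lit 90160) (nat_lit 11) (.e (nat_lit 32512) (nat_lit 20) (.e (nat_lit 221207) (nat_lit 21) .nil)))))) (.g (nat_lit 4) .nil .nil))) 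
(.lf (nat_lit 260452) (.g (nat_lit 1846) (.e (nat_lit 164401) (nat_lit 256) (.e (nat_lit 57447) (nat_lit 19) (.e (nat_lit 393266) (nat_lit 23) (.e (nat_lit 426140) (nat_lit 3) (.e (nat_lit 204809) (nat_lit 9) .nil))))) .nil)))) (.nd (nat_lit 5) (.nd (nat_lit 6) 
(.lf (nat_lit 260372) (.g (nat_lit 2443) (.e (nat_lit 164401) (nat_lit 256) (.e (nat_lit 57409) (nat_lit 12) (.e (nat_lit 336443) (nat_lit 32) (.e (nat_lit 466974) (nat_lit 22) (.e (nat_lit 196654) (nat_lit 11) (.e (nat_lit 16406) (nat_lit 1) .nil)))))) (.g (nat_lit 5) .nil .nil))) 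
(.lf (nat_lit 260436) (.g (nat_lit 1803) (.e (nat_lit 164401) (nat_lit 256) (.e (nat_lit 57447) (nat_lit 19) (.e (nat_lit 393232) (nat_lit 17) (.e (nat_lit 7581) (nat_lit 405) .nil)))) .nil))) (.nd (nat_lit 6) 
(.lf (nat_lit 260404) (.g (nat_lit 3342) (.e (nat_lit 164401) (nat_lit 256) (.e (nat_lit 57427) (nat_lit 15) (.e (nat_lit 360474) (nat_lit 8) (.e (nat_lit 557091) (nat_lit 12) (.e (nat_lit 163856) (nat_lit 0) .nil))))) .nil)) 
(.lf (nat_lit 260468) (.g (nat_lit 1050) (.e (nat_lit 164401) (nat_lit 256) (.e (nat_lit 57447) (nat_lit 19) (.e (nat_lit 393278) (nat_lit 23) .nil))) .nil))))) (.nd (nat_lit 4) (.nd (nat_lit 5) (.nd (nat_lit 6) 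
(.lf (nat_lit 260364) (.g (nat_lit 1887) (.e (nat_lit 164401) (nat_lit 256) (.e (nat_lit 57400) (nat_lit 10) (.e (nat_lit 319534) (nat_lit 16) (.e (nat_lit 286743) (nat_lit 9) (.e (nat_lit 336444) (nat_lit 32) .nil))))) .nil)) 
(.lf (nat_lit 260428) (.g (nat_lit 1955) (.e (nat_lit 164401) (nat_lit 256) (.e (nat_lit 57436) (nat_lit 17) (.e (nat_lit 376865) (nat_lit 22) (.e (nat_lit 90158) (nat_lit 11) (.e (nat_lit 32512) (nat_lit 20) .nil))))) .nil))) (.nd (nat_lit 6) 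
(.lf (nat_lit 260396) (.g (nat_lit 2304) (.e (nat_lit 164401) (nat_lit 256) (.e (nat_lit 57427) (nat_lit 15) (.e (nat_lit 360474) (nat_lit 8) (.e (nat_lit 557059) (nat_lit 0) .nil)))) .nil)) 
(.lf (nat_lit 260460) (.g (nat_lit 3182) (.e (nat_lit 164401) (nat_lit 256) (.e (nat_lit 57447) (nat_lit 19) (.e (nat_lit 393271) (nat_lit 23) (.e (nat_lit 426128) (nat_lit 2) (.e (nat_lit 196656) (nat_lit 11) (.e (nat_lit 16407) (nat_lit 1) .nil)))))) (.g (nat_lit 5) .nil .nil))))) (.nd (nat_lit 5) (.nd (nat_lit 6) 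
(.lf (nat_lit 260380) (.g (nat_lit 3403) (.e (nat_lit 164401) (nat_lit 256) (.e (nat_lit 57412) (nat_lit 12) (.e (nat_lit 336061) (nat_lit 7) (.e (nat_lit 319531) (nat_lit 16) (.e (nat_lit 286767) (nat_lit 27) (.e (nat_lit 426107) (nat_lit 1) (.e (nat_lit 164326) (nat_lit 230) (.e (nat_lit 163863) (nat_lit 1) .nil)))))))) (.g (nat_lit 6) .nil .nil))) 
(.lf (nat_lit 260444) (.g (nat_lit 3440) (.e (nat_lit 164401) (nat_lit 256) (.e (nat_lit 57447) (nat_lit 19) (.e (nat_lit 393234) (nat_lit 17) (.e (nat_lit 7581) (nat_lit 405) (.e (nat_lit 57480) (nat_lit 28) (.e (nat_lit 557098) (nat_lit 13) (.e (nat_lit 172059) (nat_lit 1) .nil))))))) (.g (nat_lit 5) .nil .nil)))) (.nd (nat_lit 6) 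
(.lf (nat_lit 260412) (.g (nat_lit 2743) (.e (nat_lit 164401) (nat_lit 256) (.e (nat_lit 57427) (nat_lit 15) (.e (nat_lit 360474) (nat_lit 8) (.e (nat_lit 557093) (nat_lit 12) (.e (nat_lit 163857) (nat_lit 0) (.e (nat_lit 5599) (nat_lit 310) (.e (nat_lit 163885) (nat_lit 5) (.e (nat_lit 221207) (nat_lit 21) .nil)))))))) (.g (nat_lit 4) .nil .nil))) 
(.lf (nat_lit 260476) (.g (nat_lit 2424) (.e (nat_lit 164401) (nat_lit 256) (.e (nat_lit 57447) (nat_lit 19) (.e (nat_lit 393281) (nat_lit 23) (.e (nat_lit 426116) (nat_lit 2) (.e (nat_lit 196656) (nat_lit 11) (.e (nat_lit 16406) (nat_lit 1) .nil)))))) (.g (nat_lit 5) .nil .nil)))))))) (.nd (nat_lit 2) (.nd (nat_lit 3) (.nd (nat_lit 4) (.nd (nat_lit 5) (.nd (nat_lit 6) 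
(.lf (nat_lit 260354) (.g (nat_lit 1079) (.e (nat_lit 164401) (nat_lit 256) (.e (nat_lit 57378) (nat_lit 3) (.e (nat_lit 98377) (nat_lit 30) (.e (nat_lit 458789) (nat_lit 23) .nil)))) .nil)) 
(.lf (nat_lit 260418) (.g (nat_lit 2985) (.e (nat_lit 164401) (nat_lit 256) (.e (nat_lit 57427) (nat_lit 15) (.e (nat_lit 360475) (nat_lit 8) (.e (nat_lit 557068) (nat_lit 9) (.e (nat_lit 2715) (nat_lit 171) .nil))))) .nil))) (.nd (nat_lit 6) 
(.lf (nat_lit 260386) (.g (nat_lit 2109) (.e (nat_lit 164401) (nat_lit 256) (.e (nat_lit 57424) (nat_lit 14) (.e (nat_lit 352312) (nat_lit 22) (.e (nat_lit 90159) (nat_lit 11) .nil)))) .nil)) 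
(.lf (nat_lit 260450) (.g (nat_lit 690) (.e (nat_lit 164401) (nat_lit 256) (.e (nat_lit 57447) (nat_lit 19) (.e (nat_lit 393266) (nat_lit 23) .nil))) .nil)))) (.nd (nat_lit 5) (.nd (nat_lit 6) 
(.lf (nat_lit 260370) (.g (nat_lit 2320) (.e (nat_lit 164401) (nat_lit 256) (.e (nat_lit 57406) (nat_lit 12) (.e (nat_lit 336443) (nat_lit 32) (.e (nat_lit 466977) (nat_lit 22) (.e (nat_lit 196656) (nat_lit 11) (.e (nat_lit 16406) (nat_lit 1) .nil)))))) (.g (nat_lit 4) .nil .nil))) 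
(.lf (nat_lit 260434) (.g (nat_lit 1051) (.e (nat_lit 164401) (nat_lit 256) (.e (nat_lit 57447) (nat_lit 19) (.e (nat_lit 393231) (nat_lit 17) .nil))) .nil))) (.nd (nat_lit 6) 
(.lf (nat_lit 260402) (.g (nat_lit 1542) (.e (nat_lit 164401) (nat_lit 256) (.e (nat_lit 57427) (nat_lit 15) (.e (nat_lit 360474) (nat_lit 8) (.e (nat_lit 557091) (nat_lit 12) .nil)))) .nil)) 
(.lf (nat_lit 260466) (.g (nat_lit 1930) (.e (nat_lit 164401) (nat_lit 256) (.e (nat_lit 57447) (nat_lit 19) (.e (nat_lit 393275) (nat_lit 23) (.e (nat_lit 426140) (nat_lit 3) (.e (nat_lit 204808) (nat_lit 9) .nil))))) .nil))))) (.nd (nat_lit 4) (.nd (nat_lit 5) (.nd (nat_lit 6) 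
(.lf (nat_lit 260362) (.g (nat_lit 2143) (.e (nat_lit 164401) (nat_lit 256) (.e (nat_lit 57400) (nat_lit 10) (.e (nat_lit 319533) (nat_lit 16) (.e (nat_lit 286743) (nat_lit 9) (.e (nat_lit 336444) (nat_lit 32) .nil))))) .nil)) 
(.lf (nat_lit 260426) (.g (nat_lit 700) (.e (nat_lit 164401) (nat_lit 256) (.e (nat_lit 57435) (nat_lit 17) (.e (nat_lit 376865) (nat_lit 22) .nil))) .nil))) (.nd (nat_lit 6) 
(.lf (nat_lit 260394) (.g (nat_lit 730) (.e (nat_lit 164401) (nat_lit 256) (.e (nat_lit 57427) (nat_lit 15) (.e (nat_lit 360468) (nat_lit 3) .nil))) .nil)) 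
(.lf (nat_lit 260458) (.g (nat_lit 1302) (.e (nat_lit 164401) (nat_lit 256) (.e (nat_lit 57447) (nat_lit 19) (.e (nat_lit 393270) (nat_lit 23) (.e (nat_lit 433920) (nat_lit 3) .nil)))) .nil)))) (.nd (nat_lit 5) (.nd (nat_lit 6) 
(.lf (nat_lit 260378) (.g (nat_lit 2526) (.e (nat_lit 164401) (nat_lit 256) (.e (nat_lit 57412) (nat_lit 12) (.e (nat_lit 336061) (nat_lit 7) (.e (nat_lit 319531) (nat_lit 16) (.e (nat_lit 286767) (nat_lit 27) .nil))))) .nil)) 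
(.lf (nat_lit 260442) (.g (nat_lit 2608) (.e (nat_lit 164401) (nat_lit 256) (.e (nat_lit 57447) (nat_lit 19) (.e (nat_lit 393234) (nat_lit 17) (.e (nat_lit 7581) (nat_lit 405) (.e (nat_lit 57479) (nat_lit 28) (.e (nat_lit 557101) (nat_lit 13) (.e (nat_lit 172060) (nat_lit 1) .nil))))))) (.g (nat_lit 4) .nil .nil)))) (.nd (nat_lit 6) 
(.lf (nat_lit 260410) (.g (nat_lit 2511) (.e (nat_lit 164401) (nat_lit 256) (.e (nat_lit 57427) (nat_lit 15) (.e (nat_lit 360474) (nat_lit 8) (.e (nat_lit 557093) (nat_lit 12) (.e (nat_lit 163857) (nat_lit 0) .nil))))) .nil)) 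
(.lf (nat_lit 260474) (.g (nat_lit 1872) (.e (nat_lit 164401) (nat_lit 256) (.e (nat_lit 57447) (nat_lit 19) (.e (nat_lit 393281) (nat_lit 23) (.e (nat_lit 426115) (nat_lit 2) (.e (nat_lit 196656) (nat_lit 11) (.e (nat_lit 16406) (nat_lit 1) .nil)))))) (.g (nat_lit 5) .nil .nil))))))) (.nd (nat_lit 3) (.nd (nat_lit 4) (.nd (nat_lit 5) (.nd (nat_lit 6) 
(.lf (nat_lit 260358) (.g (nat_lit 3053) (.e (nat_lit 164401) (nat_lit 256) (.e (nat_lit 57378) (nat_lit 3) (.e (nat_lit 98380) (nat_lit 31) (.e (nat_lit 466954) (nat_lit 11) (.e (nat_lit 336387) (nat_lit 27) (.e (nat_lit 426108) (nat_lit 1) .nil)))))) (.g (nat_lit 0) .nil .nil))) 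
(.lf (nat_lit 260422) (.g (nat_lit 3176) (.e (nat_lit 164401) (nat_lit 256) (.e (nat_lit 57427) (nat_lit 15) (.e (nat_lit 360475) (nat_lit 8) (.e (nat_lit 557091) (nat_lit 12) (.e (nat_lit 163856) (nat_lit 0) (.e (nat_lit 5599) (nat_lit 310) (.e (nat_lit 163885) (nat_lit 5) (.e (nat_lit 221207) (nat_lit 21) .nil)))))))) (.g (nat_lit 4) .nil .nil)))) (.nd (nat_lit 6) 
(.lf (nat_lit 260390) (.g (nat_lit 1774) (.e (nat_lit 164401) (nat_lit 256) (.e (nat_lit 57424) (nat_lit 14) (.e (nat_lit 352315) (nat_lit 23) (.e (nat_lit 98314) (nat_lit 9) .nil)))) .nil)) 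
(.lf (nat_lit 260454) (.g (nat_lit 2355) (.e (nat_lit 164401) (nat_lit 256) (.e (nat_lit 57447) (nat_lit 19) (.e (nat_lit 393267) (nat_lit 23) (.e (nat_lit 426131) (nat_lit 3) (.e (nat_lit 204809) (nat_lit 9) .nil))))) .nil)))) (.nd (nat_lit 5) (.nd (nat_lit 6) 
(.lf (nat_lit 260374) (.g (nat_lit 2558) (.e (nat_lit 164401) (nat_lit 256) (.e (nat_lit 57409) (nat_lit 12) (.e (nat_lit 336443) (nat_lit 32) (.e (nat_lit 466977) (nat_lit 22) (.e (nat_lit 196656) (nat_lit 11) (.e (nat_lit 16406) (nat_lit 1) .nil)))))) (.g (nat_lit 5) .nil .nil))) 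
(.lf (nat_lit 260438) (.g (nat_lit 1544) (.e (nat_lit 164401) (nat_lit 256) (.e (nat_lit 57447) (nat_lit 19) (.e (nat_lit 393233) (nat_lit 17) (.e (nat_lit 7583) (nat_lit 405) .nil)))) .nil))) (.nd (nat_lit 6) 
(.lf (nat_lit 260406) (.g (nat_lit 2495) (.e (nat_lit 164401) (nat_lit 256) (.e (nat_lit 57427) (nat_lit 15) (.e (nat_lit 360474) (nat_lit 8) (.e (nat_lit 557091) (nat_lit 12) (.e (nat_lit 164003) (nat_lit 40) .nil))))) .nil)) 
(.lf (nat_lit 260470) (.g (nat_lit 834) (.e (nat_lit 164401) (nat_lit 256) (.e (nat_lit 57447) (nat_lit 19) (.e (nat_lit 393280) (nat_lit 23) .nil))) .nil))))) (.nd (nat_lit 4) (.nd (nat_lit 5) (.nd (nat_lit 6) 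
(.lf (nat_lit 260366) (.g (nat_lit 2229) (.e (nat_lit 164401) (nat_lit 256) (.e (nat_lit 57406) (nat_lit 12) (.e (nat_lit 336443) (nat_lit 32) (.e (nat_lit 466974) (nat_lit 22) (.e (nat_lit 196654) (nat_lit 11) (.e (nat_lit 16406) (nat_lit 1) .nil)))))) (.g (nat_lit 4) .nil .nil))) 
(.lf (nat_lit 260430) (.g (nat_lit 715) (.e (nat_lit 164401) (nat_lit 256) (.e (nat_lit 57445) (nat_lit 19) (.e (nat_lit 393286) (nat_lit 25) .nil))) .nil))) (.nd (nat_lit 6) 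
(.lf (nat_lit 260398) (.g (nat_lit 2926) (.e (nat_lit 164401) (nat_lit 256) (.e (nat_lit 57427) (nat_lit 15) (.e (nat_lit 360474) (nat_lit 8) (.e (nat_lit 557063) (nat_lit 0) .nil)))) .nil)) 
(.lf (nat_lit 260462) (.g (nat_lit 1051) (.e (nat_lit 164401) (nat_lit 256) (.e (nat_lit 57447) (nat_lit 19) (.e (nat_lit 393273) (nat_lit 23) .nil))) .nil)))) (.nd (nat_lit 5) (.nd (nat_lit 6) 
(.lf (nat_lit 260382) (.g (nat_lit 661) (.e (nat_lit 164401) (nat_lit 256) (.e (nat_lit 57423) (nat_lit 14) (.e (nat_lit 360192) (nat_lit 3) .nil))) .nil)) 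
(.lf (nat_lit 260446) (.g (nat_lit 4325) (.e (nat_lit 164401) (nat_lit 256) (.e (nat_lit 57447) (nat_lit 19) (.e (nat_lit 393234) (nat_lit 17) (.e (nat_lit 7581) (nat_lit 405) (.e (nat_lit 57480) (nat_lit 28) (.e (nat_lit 557098) (nat_lit 13) (.e (nat_lit 172061) (nat_lit 1) .nil))))))) (.g (nat_lit 6) .nil .nil)))) (.nd (nat_lit 6) 
(.lf (nat_lit 260414) (.g (nat_lit 2218) (.e (nat_lit 164401) (nat_lit 256) (.e (nat_lit 57427) (nat_lit 15) (.e (nat_lit 360474) (nat_lit 8) (.e (nat_lit 557094) (nat_lit 12) (.e (nat_lit 163856) (nat_lit 0) .nil))))) .nil)) 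
(.lf (nat_lit 260478) (.g (nat_lit 1834) (.e (nat_lit 164401) (nat_lit 256) (.e (nat_lit 57447) (nat_lit 19) (.e (nat_lit 393285) (nat_lit 25) (.e (nat_lit 458789) (nat_lit 23) (.e (nat_lit 532579) (nat_lit 26) .nil))))) .nil)))))))) (.nd (nat_lit 1) (.nd (nat_lit 2) (.nd (nat_lit 3) (.nd (nat_lit 4) (.nd (nat_lit 5) (.nd (nat_lit 6) 
(.lf (nat_lit 260353) (.g (nat_lit 1864) (.e (nat_lit 164401) (nat_lit 256) (.e (nat_lit 57378) (nat_lit 3) (.e (nat_lit 98373) (nat_lit 29) (.e (nat_lit 458496) (nat_lit 23) .nil)))) .nil)) 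
(.lf (nat_lit 260417) (.g (nat_lit 1915) (.e (nat_lit 164401) (nat_lit 256) (.e (nat_lit 57427) (nat_lit 15) (.e (nat_lit 360475) (nat_lit 8) (.e (nat_lit 557068) (nat_lit 9) .nil)))) .nil))) (.nd (nat_lit 6) 
(.lf (nat_lit 260385) (.g (nat_lit 2109) (.e (nat_lit 164401) (nat_lit 256) (.e (nat_lit 57424) (nat_lit 14) (.e (nat_lit 352312) (nat_lit 22) (.e (nat_lit 90158) (nat_lit 11) .nil)))) .nil)) 
(.lf (nat_lit 260449) (.g (nat_lit 1051) (.e (nat_lit 164401) (nat_lit 256) (.e (nat_lit 57447) (nat_lit 19) (.e (nat_lit 393238) (nat_lit 17) .nil))) .nil)))) (.nd (nat_lit 5) (.nd (nat_lit 6) 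
(.lf (nat_lit 260369) (.g (nat_lit 2272) (.e (nat_lit 164401) (nat_lit 256) (.e (nat_lit 57406) (nat_lit 12) (.e (nat_lit 336443) (nat_lit 32) (.e (nat_lit 466977) (nat_lit 22) (.e (nat_lit 196654) (nat_lit 11) (.e (nat_lit 16406) (nat_lit 1) .nil)))))) (.g (nat_lit 4) .nil .nil))) 
(.lf (nat_lit 260433) (.g (nat_lit 1051) (.e (nat_lit 164401) (nat_lit 256) (.e (nat_lit 57447) (nat_lit 19) (.e (nat_lit 393230) (nat_lit 17) .nil))) .nil))) (.nd (nat_lit 6) 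
(.lf (nat_lit 260401) (.g (nat_lit 2708) (.e (nat_lit 164401) (nat_lit 256) (.e (nat_lit 57427) (nat_lit 15) (.e (nat_lit 360474) (nat_lit 8) (.e (nat_lit 557072) (nat_lit 9) (.e (nat_lit 2717) (nat_lit 171) .nil))))) .nil)) 
(.lf (nat_lit 260465) (.g (nat_lit 3003) (.e (nat_lit 164401) (nat_lit 256) (.e (nat_lit 57447) (nat_lit 19) (.e (nat_lit 393275) (nat_lit 23) (.e (nat_lit 426125) (nat_lit 2) (.e (nat_lit 196656) (nat_lit 11) (.e (nat_lit 16407) (nat_lit 1) .nil)))))) (.g (nat_lit 4) .nil .nil)))))) (.nd (nat_lit 4) (.nd (nat_lit 5) (.nd (nat_lit 6) 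
(.lf (nat_lit 260361) (.g (nat_lit 1373) (.e (nat_lit 164401) (nat_lit 256) (.e (nat_lit 57400) (nat_lit 10) (.e (nat_lit 319533) (nat_lit 16) (.e (nat_lit 286742) (nat_lit 9) .nil)))) .nil)) 
(.lf (nat_lit 260425) (.g (nat_lit 1313) (.e (nat_lit 164401) (nat_lit 256) (.e (nat_lit 57435) (nat_lit 17) (.e (nat_lit 376863) (nat_lit 22) (.e (nat_lit 90158) (nat_lit 11) (.e (nat_lit 32512) (nat_lit 20) .nil))))) .nil))) (.nd (nat_lit 6) 
(.lf (nat_lit 260393) (.g (nat_lit 948) (.e (nat_lit 164401) (nat_lit 256) (.e (nat_lit 57427) (nat_lit 15) (.e (nat_lit 360459) (nat_lit 1) (.e (nat_lit 499902) (nat_lit 7) .nil)))) .nil)) 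
(.lf (nat_lit 260457) (.g (nat_lit 2005) (.e (nat_lit 164401) (nat_lit 256) (.e (nat_lit 57447) (nat_lit 19) (.e (nat_lit 393270) (nat_lit 23) (.e (nat_lit 426131) (nat_lit 3) (.e (nat_lit 204812) (nat_lit 9) .nil))))) .nil)))) (.nd (nat_lit 5) (.nd (nat_lit 6) 
(.lf (nat_lit 260377) (.g (nat_lit 3012) (.e (nat_lit 164401) (nat_lit 256) (.e (nat_lit 57409) (nat_lit 12) (.e (nat_lit 336443) (nat_lit 32) (.e (nat_lit 466981) (nat_lit 23) (.e (nat_lit 204809) (nat_lit 9) (.e (nat_lit 426108) (nat_lit 1) .nil)))))) (.g (nat_lit 0) .nil .nil))) 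
(.lf (nat_lit 260441) (.g (nat_lit 2449) (.e (nat_lit 164401) (nat_lit 256) (.e (nat_lit 57447) (nat_lit 19) (.e (nat_lit 393234) (nat_lit 17) (.e (nat_lit 7581) (nat_lit 405) (.e (nat_lit 57479) (nat_lit 28) .nil))))) .nil))) (.nd (nat_lit 6) 
(.lf (nat_lit 260409) (.g (nat_lit 2683) (.e (nat_lit 164401) (nat_lit 256) (.e (nat_lit 57427) (nat_lit 15) (.e (nat_lit 360474) (nat_lit 8) (.e (nat_lit 557093) (nat_lit 12) (.e (nat_lit 163856) (nat_lit 0) (.e (nat_lit 5597) (nat_lit 310) (.e (nat_lit 163885) (nat_lit 5) (.e (nat_lit 221207) (nat_lit 21) .nil)))))))) (.g (nat_lit 4) .nil .nil))) 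
(.lf (nat_lit 260473) (.g (nat_lit 2186) (.e (nat_lit 164401) (nat_lit 256) (.e (nat_lit 57447) (nat_lit 19) (.e (nat_lit 393281) (nat_lit 23) (.e (nat_lit 426115) (nat_lit 2) (.e (nat_lit 196654) (nat_lit 11) (.e (nat_lit 16406) (nat_lit 1) .nil)))))) (.g (nat_lit 5) .nil .nil))))))) (.nd (nat_lit 3) (.nd (nat_lit 4) (.nd (nat_lit 5) (.nd (nat_lit 6) 
(.lf (nat_lit 260357) (.g (nat_lit 2738) (.e (nat_lit 164401) (nat_lit 256) (.e (nat_lit 57378) (nat_lit 3) (.e (nat_lit 98380) (nat_lit 31) (.e (nat_lit 466954) (nat_lit 11) (.e (nat_lit 336387) (nat_lit 27) (.e (nat_lit 426107) (nat_lit 1) .nil)))))) (.g (nat_lit 0) .nil .nil))) 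
(.lf (nat_lit 260421) (.g (nat_lit 3189) (.e (nat_lit 164401) (nat_lit 256) (.e (nat_lit 57427) (nat_lit 15) (.e (nat_lit 360475) (nat_lit 8) (.e (nat_lit 557091) (nat_lit 12) (.e (nat_lit 163856) (nat_lit 0) (.e (nat_lit 5599) (nat_lit 310) (.e (nat_lit 163884) (nat_lit 5) (.e (nat_lit 221207) (nat_lit 21) .nil)))))))) (.g (nat_lit 4) .nil .nil)))) (.nd (nat_lit 6) 
(.lf (nat_lit 260389) (.g (nat_lit 912) (.e (nat_lit 164401) (nat_lit 256) (.e (nat_lit 57424) (nat_lit 14) (.e (nat_lit 352315) (nat_lit 23) .nil))) .nil)) 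
(.lf (nat_lit 260453) (.g (nat_lit 1868) (.e (nat_lit 164401) (nat_lit 256) (.e (nat_lit 57447) (nat_lit 19) (.e (nat_lit 393267) (nat_lit 23) (.e (nat_lit 426128) (nat_lit 2) (.e (nat_lit 196656) (nat_lit 11) .nil))))) .nil)))) (.nd (nat_lit 5) (.nd (nat_lit 6) 
(.lf (nat_lit 260373) (.g (nat_lit 2504) (.e (nat_lit 164401) (nat_lit 256) (.e (nat_lit 57409) (nat_lit 12) (.e (nat_lit 336443) (nat_lit 32) (.e (nat_lit 466977) (nat_lit 22) (.e (nat_lit 196654) (nat_lit 11) (.e (nat_lit 16406) (nat_lit 1) .nil)))))) (.g (nat_lit 5) .nil .nil))) 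
(.lf (nat_lit 260437) (.g (nat_lit 1514) (.e (nat_lit 164401) (nat_lit 256) (.e (nat_lit 57447) (nat_lit 19) (.e (nat_lit 393233) (nat_lit 17) (.e (nat_lit 7581) (nat_lit 405) .nil)))) .nil))) (.nd (nat_lit 6) 
(.lf (nat_lit 260405) (.g (nat_lit 3532) (.e (nat_lit 164401) (nat_lit 256) (.e (nat_lit 57427) (nat_lit 15) (.e (nat_lit 360474) (nat_lit 8) (.e (nat_lit 557091) (nat_lit 12) (.e (nat_lit 163856) (nat_lit 0) (.e (nat_lit 5597) (nat_lit 310) (.e (nat_lit 163885) (nat_lit 5) (.e (nat_lit 221207) (nat_lit 21) .nil)))))))) (.g (nat_lit 4) .nil .nil))) 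
(.lf (nat_lit 260469) (.g (nat_lit 2667) (.e (nat_lit 164401) (nat_lit 256) (.e (nat_lit 57447) (nat_lit 19) (.e (nat_lit 393279) (nat_lit 23) (.e (nat_lit 426129) (nat_lit 3) (.e (nat_lit 204809) (nat_lit 9) (.e (nat_lit 426107) (nat_lit 1) .nil)))))) (.g (nat_lit 0) .nil .nil)))))) (.nd (nat_lit 4) (.nd (nat_lit 5) (.nd (nat_lit 6) 
(.lf (nat_lit 260365) (.g (nat_lit 2101) (.e (nat_lit 164401) (nat_lit 256) (.e (nat_lit 57406) (nat_lit 12) (.e (nat_lit 336432) (nat_lit 30) (.e (nat_lit 450580) (nat_lit 5) (.e (nat_lit 532579) (nat_lit 26) .nil))))) .nil)) 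
(.lf (nat_lit 260429) (.g (nat_lit 2020) (.e (nat_lit 164401) (nat_lit 256) (.e (nat_lit 57445) (nat_lit 19) (.e (nat_lit 393281) (nat_lit 23) (.e (nat_lit 426116) (nat_lit 2) (.e (nat_lit 196656) (nat_lit 11) (.e (nat_lit 16406) (nat_lit 1) .nil)))))) (.g (nat_lit 4) .nil .nil)))) (.nd (nat_lit 6) 
(.lf (nat_lit 260397) (.g (nat_lit 2687) (.e (nat_lit 164401) (nat_lit 256) (.e (nat_lit 57427) (nat_lit 15) (.e (nat_lit 360474) (nat_lit 8) (.e (nat_lit 557060) (nat_lit 0) .nil)))) .nil)) 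
(.lf (nat_lit 260461) (.g (nat_lit 1931) (.e (nat_lit 164401) (nat_lit 256) (.e (nat_lit 57447) (nat_lit 19) (.e (nat_lit 393271) (nat_lit 23) (.e (nat_lit 426131) (nat_lit 3) (.e (nat_lit 204808) (nat_lit 9) .nil))))) .nil)))) (.nd (nat_lit 5) (.nd (nat_lit 6) 
(.lf (nat_lit 260381) (.g (nat_lit 2532) (.e (nat_lit 164401) (nat_lit 256) (.e (nat_lit 57412) (nat_lit 12) (.e (nat_lit 336061) (nat_lit 7) (.e (nat_lit 319531) (nat_lit 16) (.e (nat_lit 286767) (nat_lit 27) (.e (nat_lit 426107) (nat_lit 1) (.e (nat_lit 164327) (nat_lit 230) (.e (nat_lit 163861) (nat_lit 1) .nil)))))))) (.g (nat_lit 4) .nil .nil))) 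
(.lf (nat_lit 260445) (.g (nat_lit 3297) (.e (nat_lit 164401) (nat_lit 256) (.e (nat_lit 57447) (nat_lit 19) (.e (nat_lit 393234) (nat_lit 17) (.e (nat_lit 7581) (nat_lit 405) (.e (nat_lit 57480) (nat_lit 28) (.e (nat_lit 557098) (nat_lit 13) (.e (nat_lit 172060) (nat_lit 1) .nil))))))) (.g (nat_lit 5) .nil .nil)))) (.nd (nat_lit 6) 
(.lf (nat_lit 260413) (.g (nat_lit 2544) (.e (nat_lit 164401) (nat_lit 256) (.e (nat_lit 57427) (nat_lit 15) (.e (nat_lit 360474) (nat_lit 8) (.e (nat_lit 557093) (nat_lit 12) (.e (nat_lit 163857) (nat_lit 0) (.e (nat_lit 5599) (nat_lit 310) (.e (nat_lit 163885) (nat_lit 5) (.e (nat_lit 221208) (nat_lit 21) .nil)))))))) (.g (nat_lit 4) .nil .nil))) 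
(.lf (nat_lit 260477) (.g (nat_lit 1419) (.e (nat_lit 164401) (nat_lit 256) (.e (nat_lit 57447) (nat_lit 19) (.e (nat_lit 393284) (nat_lit 24) (.e (nat_lit 434233) (nat_lit 23) .nil)))) .nil))))))) (.nd (nat_lit 2) (.nd (nat_lit 3) (.nd (nat_lit 4) (.nd (nat_lit 5) (.nd (nat_lit 6) 
(.lf (nat_lit 260355) (.g (nat_lit 1671) (.e (nat_lit 164401) (nat_lit 256) (.e (nat_lit 57378) (nat_lit 3) (.e (nat_lit 98377) (nat_lit 30) (.e (nat_lit 458789) (nat_lit 23) (.e (nat_lit 532515) (nat_lit 3) .nil))))) .nil)) 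
(.lf (nat_lit 260419) (.g (nat_lit 3735) (.e (nat_lit 164401) (nat_lit 256) (.e (nat_lit 57427) (nat_lit 15) (.e (nat_lit 360475) (nat_lit 8) (.e (nat_lit 557090) (nat_lit 12) (.e (nat_lit 164003) (nat_lit 40) .nil))))) .nil))) (.nd (nat_lit 6) 
(.lf (nat_lit 260387) (.g (nat_lit 3117) (.e (nat_lit 164401) (nat_lit 256) (.e (nat_lit 57424) (nat_lit 14) (.e (nat_lit 352312) (nat_lit 22) (.e (nat_lit 90160) (nat_lit 11) (.e (nat_lit 32512) (nat_lit 20) .nil))))) .nil)) 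
(.lf (nat_lit 260451) (.g (nat_lit 1920) (.e (nat_lit 164401) (nat_lit 256) (.e (nat_lit 57447) (nat_lit 19) (.e (nat_lit 393266) (nat_lit 23) (.e (nat_lit 426140) (nat_lit 3) (.e (nat_lit 204808) (nat_lit 9) .nil))))) .nil)))) (.nd (nat_lit 5) (.nd (nat_lit 6) 
(.lf (nat_lit 260371) (.g (nat_lit 1653) (.e (nat_lit 164401) (nat_lit 256) (.e (nat_lit 57408) (nat_lit 12) (.e (nat_lit 336443) (nat_lit 32) (.e (nat_lit 466974) (nat_lit 22) (.e (nat_lit 196656) (nat_lit 11) (.e (nat_lit 16406) (nat_lit 1) .nil)))))) (.g (nat_lit 4) .nil .nil))) 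
(.lf (nat_lit 260435) (.g (nat_lit 1051) (.e (nat_lit 164401) (nat_lit 256) (.e (nat_lit 57447) (nat_lit 19) (.e (nat_lit 393232) (nat_lit 17) .nil))) .nil))) (.nd (nat_lit 6) 
(.lf (nat_lit 260403) (.g (nat_lit 3579) (.e (nat_lit 164401) (nat_lit 256) (.e (nat_lit 57427) (nat_lit 15) (.e (nat_lit 360474) (nat_lit 8) (.e (nat_lit 557091) (nat_lit 12) (.e (nat_lit 163855) (nat_lit 0) .nil))))) .nil)) 
(.lf (nat_lit 260467) (.g (nat_lit 2148) (.e (nat_lit 164401) (nat_lit 256) (.e (nat_lit 57447) (nat_lit 19) (.e (nat_lit 393275) (nat_lit 23) (.e (nat_lit 426140) (nat_lit 3) (.e (nat_lit 204809) (nat_lit 9) .nil))))) .nil))))) (.nd (nat_lit 4) (.nd (nat_lit 5) (.nd (nat_lit 6) 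
(.lf (nat_lit 260363) (.g (nat_lit 1759) (.e (nat_lit 164401) (nat_lit 256) (.e (nat_lit 57400) (nat_lit 10) (.e (nat_lit 319534) (nat_lit 16) (.e (nat_lit 286742) (nat_lit 9) .nil)))) .nil)) 
(.lf (nat_lit 260427) (.g (nat_lit 617) (.e (nat_lit 164401) (nat_lit 256) (.e (nat_lit 57436) (nat_lit 17) (.e (nat_lit 376864) (nat_lit 22) .nil))) .nil))) (.nd (nat_lit 6) 
(.lf (nat_lit 260395) (.g (nat_lit 553) (.e (nat_lit 164401) (nat_lit 256) (.e (nat_lit 57427) (nat_lit 15) (.e (nat_lit 360474) (nat_lit 8) .nil))) .nil)) 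
(.lf (nat_lit 260459) (.g (nat_lit 3245) (.e (nat_lit 164401) (nat_lit 256) (.e (nat_lit 57447) (nat_lit 19) (.e (nat_lit 393271) (nat_lit 23) (.e (nat_lit 426128) (nat_lit 2) (.e (nat_lit 196656) (nat_lit 11) (.e (nat_lit 16406) (nat_lit 1) .nil)))))) (.g (nat_lit 5) .nil .nil))))) (.nd (nat_lit 5) (.nd (nat_lit 6) 
(.lf (nat_lit 260379) (.g (nat_lit 4471) (.e (nat_lit 164401) (nat_lit 256) (.e (nat_lit 57412) (nat_lit 12) (.e (nat_lit 336061) (nat_lit 7) (.e (nat_lit 319531) (nat_lit 16) (.e (nat_lit 286767) (nat_lit 27) (.e (nat_lit 426107) (nat_lit 1) (.e (nat_lit 164325) (nat_lit 230) (.e (nat_lit 163864) (nat_lit 1) .nil)))))))) (.g (nat_lit 7) .nil .nil))) 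
(.lf (nat_lit 260443) (.g (nat_lit 3325) (.e (nat_lit 164401) (nat_lit 256) (.e (nat_lit 57447) (nat_lit 19) (.e (nat_lit 393234) (nat_lit 17) (.e (nat_lit 7581) (nat_lit 405) (.e (nat_lit 57479) (nat_lit 28) (.e (nat_lit 557101) (nat_lit 13) (.e (nat_lit 172061) (nat_lit 1) .nil))))))) (.g (nat_lit 5) .nil .nil)))) (.nd (nat_lit 6) 
(.lf (nat_lit 260411) (.g (nat_lit 2733) (.e (nat_lit 164401) (nat_lit 256) (.e (nat_lit 57427) (nat_lit 15) (.e (nat_lit 360474) (nat_lit 8) (.e (nat_lit 557093) (nat_lit 12) (.e (nat_lit 163857) (nat_lit 0) (.e (nat_lit 5599) (nat_lit 310) (.e (nat_lit 163884) (nat_lit 5) (.e (nat_lit 221207) (nat_lit 21) .nil)))))))) (.g (nat_lit 4) .nil .nil))) 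
(.lf (nat_lit 260475) (.g (nat_lit 2698) (.e (nat_lit 164401) (nat_lit 256) (.e (nat_lit 57447) (nat_lit 19) (.e (nat_lit 393281) (nat_lit 23) (.e (nat_lit 426116) (nat_lit 2) (.e (nat_lit 196654) (nat_lit 11) (.e (nat_lit 16406) (nat_lit 1) .nil)))))) (.g (nat_lit 5) .nil .nil))))))) (.nd (nat_lit 3) (.nd (nat_lit 4) (.nd (nat_lit 5) (.nd (nat_lit 6) 
(.lf (nat_lit 260359) (.g (nat_lit 1026) (.e (nat_lit 164401) (nat_lit 256) (.e (nat_lit 57378) (nat_lit 3) (.e (nat_lit 98384) (nat_lit 32) .nil))) .nil)) 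
(.lf (nat_lit 260423) (.g (nat_lit 2971) (.e (nat_lit 164401) (nat_lit 256) (.e (nat_lit 57427) (nat_lit 15) (.e (nat_lit 360475) (nat_lit 8) (.e (nat_lit 557091) (nat_lit 12) (.e (nat_lit 163856) (nat_lit 0) (.e (nat_lit 5599) (nat_lit 310) (.e (nat_lit 163885) (nat_lit 5) (.e (nat_lit 221208) (nat_lit 21) .nil)))))))) (.g (nat_lit 4) .nil .nil)))) (.nd (nat_lit 6) 
(.lf (nat_lit 260391) (.g (nat_lit 1599) (.e (nat_lit 164401) (nat_lit 256) (.e (nat_lit 57426) (nat_lit 15) (.e (nat_lit 360466) (nat_lit 3) (.e (nat_lit 516195) (nat_lit 26) (.e (nat_lit 343808) (nat_lit 20) .nil))))) .nil)) 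
(.lf (nat_lit 260455) (.g (nat_lit 2427) (.e (nat_lit 164401) (nat_lit 256) (.e (nat_lit 57447) (nat_lit 19) (.e (nat_lit 393268) (nat_lit 23) (.e (nat_lit 426131) (nat_lit 3) .nil)))) .nil)))) (.nd (nat_lit 5) (.nd (nat_lit 6) 
(.lf (nat_lit 260375) (.g (nat_lit 2652) (.e (nat_lit 164401) (nat_lit 256) (.e (nat_lit 57409) (nat_lit 12) (.e (nat_lit 336443) (nat_lit 32) (.e (nat_lit 466977) (nat_lit 22) (.e (nat_lit 196656) (nat_lit 11) (.e (nat_lit 16407) (nat_lit 1) .nil)))))) (.g (nat_lit 5) .nil .nil))) 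
(.lf (nat_lit 260439) (.g (nat_lit 2565) (.e (nat_lit 164401) (nat_lit 256) (.e (nat_lit 57447) (nat_lit 19) (.e (nat_lit 393234) (nat_lit 17) (.e (nat_lit 7581) (nat_lit 405) (.e (nat_lit 57476) (nat_lit 28) .nil))))) .nil))) (.nd (nat_lit 6) 
(.lf (nat_lit 260407) (.g (nat_lit 3481) (.e (nat_lit 164401) (nat_lit 256) (.e (nat_lit 57427) (nat_lit 15) (.e (nat_lit 360474) (nat_lit 8) (.e (nat_lit 557091) (nat_lit 12) (.e (nat_lit 164003) (nat_lit 40) (.e (nat_lit 655373) (nat_lit 3) (.e (nat_lit 164060) (nat_lit 57) (.e (nat_lit 794662) (nat_lit 21) .nil)))))))) (.g (nat_lit 6) .nil .nil))) 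
(.lf (nat_lit 260471) (.g (nat_lit 2472) (.e (nat_lit 164401) (nat_lit 256) (.e (nat_lit 57447) (nat_lit 19) (.e (nat_lit 393280) (nat_lit 23) (.e (nat_lit 426133) (nat_lit 3) (.e (nat_lit 204809) (nat_lit 9) .nil))))) .nil))))) (.nd (nat_lit 4) (.nd (nat_lit 5) (.nd (nat_lit 6) 
(.lf (nat_lit 260367) (.g (nat_lit 1971) (.e (nat_lit 164401) (nat_lit 256) (.e (nat_lit 57406) (nat_lit 12) (.e (nat_lit 336443) (nat_lit 32) (.e (nat_lit 466974) (nat_lit 22) (.e (nat_lit 196656) (nat_lit 11) (.e (nat_lit 16406) (nat_lit 1) .nil)))))) (.g (nat_lit 4) .nil .nil))) 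
(.lf (nat_lit 260431) (.g (nat_lit 1503) (.e (nat_lit 164401) (nat_lit 256) (.e (nat_lit 57446) (nat_lit 19) (.e (nat_lit 393281) (nat_lit 23) (.e (nat_lit 426115) (nat_lit 2) (.e (nat_lit 196654) (nat_lit 11) (.e (nat_lit 16406) (nat_lit 1) .nil)))))) (.g (nat_lit 5) .nil .nil)))) (.nd (nat_lit 6) 
(.lf (nat_lit 260399) (.g (nat_lit 1808) (.e (nat_lit 164401) (nat_lit 256) (.e (nat_lit 57427) (nat_lit 15) (.e (nat_lit 360474) (nat_lit 8) (.e (nat_lit 564992) (nat_lit 0) .nil)))) .nil)) 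
(.lf (nat_lit 260463) (.g (nat_lit 660) (.e (nat_lit 164401) (nat_lit 256) (.e (nat_lit 57447) (nat_lit 19) (.e (nat_lit 393274) (nat_lit 23) .nil))) .nil)))) (.nd (nat_lit 5) (.nd (nat_lit 6) 
(.lf (nat_lit 260383) (.g (nat_lit 912) (.e (nat_lit 164401) (nat_lit 256) (.e (nat_lit 57424) (nat_lit 14) (.e (nat_lit 352312) (nat_lit 22) .nil))) .nil)) 
(.lf (nat_lit 260447) (.g (nat_lit 1992) (.e (nat_lit 164401) (nat_lit 256) (.e (nat_lit 57447) (nat_lit 19) (.e (nat_lit 393234) (nat_lit 17) (.e (nat_lit 7583) (nat_lit 405) (.e (nat_lit 57476) (nat_lit 28) .nil))))) .nil))) (.nd (nat_lit 6) 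
(.lf (nat_lit 260415) (.g (nat_lit 2400) (.e (nat_lit 164401) (nat_lit 256) (.e (nat_lit 57427) (nat_lit 15) (.e (nat_lit 360474) (nat_lit 8) (.e (nat_lit 557094) (nat_lit 12) (.e (nat_lit 163856) (nat_lit 0) (.e (nat_lit 5597) (nat_lit 310) (.e (nat_lit 163885) (nat_lit 5) (.e (nat_lit 221208) (nat_lit 21) .nil)))))))) (.g (nat_lit 4) .nil .nil))) 
(.lf (nat_lit 260479) (.g (nat_lit 1051) (.e (nat_lit 164401) (nat_lit 256) (.e (nat_lit 57447) (nat_lit 19) (.e (nat_lit 393293) (nat_lit 26) .nil))) .nil)))))))))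

noncomputable def tv3365 : DT := (.nd (nat_lit 0) (.nd (nat_lit 1) (.nd (nat_lit 2) (.nd (nat_lit 3) (.nd (nat_lit 4) (.nd (nat_lit 5) (.nd (nat_lit 6) 
(.lf (nat_lit 260480) (.g (nat_lit 1051) (.e (nat_lit 164401) (nat_lit 256) (.e (nat_lit 57447) (nat_lit 19) (.e (nat_lit 393294) (nat_lit 26) .nil))) .nil)) 
(.lf (nat_lit 260544) (.g (nat_lit 912) (.e (nat_lit 164402) (nat_lit 256) (.e (nat_lit 57424) (nat_lit 14) (.e (nat_lit 352312) (nat_lit 22) .nil))) .nil))) (.nd (nat_lit 6) 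
(.lf (nat_lit 260512) (.g (nat_lit 2322) (.e (nat_lit 164402) (nat_lit 256) (.e (nat_lit 57373) (nat_lit 2) (.e (nat_lit 90172) (nat_lit 14) (.e (nat_lit 180244) (nat_lit 5) (.e (nat_lit 532515) (nat_lit 3) (.e (nat_lit 114716) (nat_lit 22) (.e (nat_lit 90129) (nat_lit 9) (.e (nat_lit 2603) (nat_lit 163) .nil)))))))) (.g (nat_lit 4) .nil .nil))) 
(.lf (nat_lit 260576) (.g (nat_lit 3198) (.e (nat_lit 164403) (nat_lit 256) (.e (nat_lit 57370) (nat_lit 2) (.e (nat_lit 90170) (nat_lit 13) (.e (nat_lit 172067) (nat_lit 3) (.e (nat_lit 204838) (nat_lit 20) (.e (nat_lit 114708) (nat_lit 20) (.e (nat_lit 1800) (nat_lit 119) (.e (nat_lit 516119) (nat_lit 1) .nil)))))))) (.g (nat_lit 4) .nil .nil))))) (.nd (nat_lit 5) (.nd (nat_lit 6) 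
(.lf (nat_lit 260496) (.g (nat_lit 3205) (.e (nat_lit 164402) (nat_lit 256) (.e (nat_lit 57371) (nat_lit 2) (.e (nat_lit 90172) (nat_lit 14) (.e (nat_lit 180244) (nat_lit 5) (.e (nat_lit 532515) (nat_lit 3) (.e (nat_lit 114719) (nat_lit 23) (.e (nat_lit 98332) (nat_lit 18) .nil))))))) (.g (nat_lit 6) .nil .nil))) 
(.lf (nat_lit 260560) (.g (nat_lit 594) (.e (nat_lit 164402) (nat_lit 256) (.e (nat_lit 57445) (nat_lit 19) (.e (nat_lit 393231) (nat_lit 17) .nil))) .nil))) (.nd (nat_lit 6) 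
(.lf (nat_lit 260528) (.g (nat_lit 1871) (.e (nat_lit 164402) (nat_lit 256) (.e (nat_lit 57400) (nat_lit 10) (.e (nat_lit 319533) (nat_lit 16) (.e (nat_lit 286753) (nat_lit 10) (.e (nat_lit 344171) (nat_lit 41) .nil))))) .nil)) 
(.lf (nat_lit 260592) (.g (nat_lit 1094) (.e (nat_lit 164403) (nat_lit 256) (.e (nat_lit 57371) (nat_lit 2) (.e (nat_lit 90167) (nat_lit 13) (.e (nat_lit 172092) (nat_lit 9) .nil)))) .nil))))) (.nd (nat_lit 4) (.nd (nat_lit 5) (.nd (nat_lit 6) 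
(.lf (nat_lit 260488) (.g (nat_lit 1391) (.e (nat_lit 164402) (nat_lit 256) (.e (nat_lit 57371) (nat_lit 2) (.e (nat_lit 90172) (nat_lit 14) (.e (nat_lit 180243) (nat_lit 5) .nil)))) .nil)) 
(.lf (nat_lit 260552) (.g (nat_lit 2804) (.e (nat_lit 164402) (nat_lit 256) (.e (nat_lit 57427) (nat_lit 15) (.e (nat_lit 360474) (nat_lit 8) (.e (nat_lit 557091) (nat_lit 12) (.e (nat_lit 164002) (nat_lit 40) .nil))))) .nil))) (.nd (nat_lit 6) 
(.lf (nat_lit 260520) (.g (nat_lit 599) (.e (nat_lit 164402) (nat_lit 256) (.e (nat_lit 57400) (nat_lit 10) (.e (nat_lit 319502) (nat_lit 10) (.e (nat_lit 5315) (nat_lit 298) .nil)))) .nil)) 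
(.lf (nat_lit 260584) (.g (nat_lit 2955) (.e (nat_lit 164403) (nat_lit 256) (.e (nat_lit 57370) (nat_lit 2) (.e (nat_lit 90185) (nat_lit 17) (.e (nat_lit 237621) (nat_lit 13) (.e (nat_lit 483341) (nat_lit 9) (.e (nat_lit 426108) (nat_lit 1) .nil)))))) (.g (nat_lit 0) .nil .nil))))) (.nd (nat_lit 5) (.nd (nat_lit 6) 
(.lf (nat_lit 260504) (.g (nat_lit 2090) (.e (nat_lit 164402) (nat_lit 256) (.e (nat_lit 57373) (nat_lit 2) (.e (nat_lit 90170) (nat_lit 13) (.e (nat_lit 172088) (nat_lit 9) .nil)))) .nil)) 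
(.lf (nat_lit 260568) (.g (nat_lit 739) (.e (nat_lit 164402) (nat_lit 256) (.e (nat_lit 57447) (nat_lit 19) (.e (nat_lit 393281) (nat_lit 23) .nil))) .nil))) (.nd (nat_lit 6) 
(.lf (nat_lit 260536) (.g (nat_lit 2889) (.e (nat_lit 164402) (nat_lit 256) (.e (nat_lit 57406) (nat_lit 12) (.e (nat_lit 336443) (nat_lit 32) (.e (nat_lit 466974) (nat_lit 22) (.e (nat_lit 196654) (nat_lit 11) (.e (nat_lit 16407) (nat_lit 1) .nil)))))) (.g (nat_lit 5) .nil .nil))) 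
(.lf (nat_lit 260600) (.g (nat_lit 2592) (.e (nat_lit 164403) (nat_lit 256) (.e (nat_lit 57371) (nat_lit 2) (.e (nat_lit 90171) (nat_lit 14) (.e (nat_lit 180252) (nat_lit 10) (.e (nat_lit 573489) (nat_lit 14) (.e (nat_lit 73755) (nat_lit 8) (.e (nat_lit 557067) (nat_lit 9) (.e (nat_lit 2606) (nat_lit 163) .nil)))))))) (.g (nat_lit 4) .nil .nil))))))) 
(.nd (nat_lit 3) (.nd (nat_lit 4) (.nd (nat_lit 5) (.nd (nat_lit 6) 
(.lf (nat_lit 260484) (.g (nat_lit 3609) (.e (nat_lit 164401) (nat_lit 256) (.e (nat_lit 57447) (nat_lit 19) (.e (nat_lit 393301) (nat_lit 27) (.e (nat_lit 491526) (nat_lit 0) (.e (nat_lit 1848) (nat_lit 124) (.e (nat_lit 557097) (nat_lit 13) (.e (nat_lit 172059) (nat_lit 1) .nil))))))) (.g (nat_lit 5) .nil .nil))) 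
(.lf (nat_lit 260548) (.g (nat_lit 539) (.e (nat_lit 164402) (nat_lit 256) (.e (nat_lit 57426) (nat_lit 15) (.e (nat_lit 360459) (nat_lit 1) .nil))) .nil))) (.nd (nat_lit 6) 
(.lf (nat_lit 260516) (.g (nat_lit 1568) (.e (nat_lit 164402) (nat_lit 256) (.e (nat_lit 57373) (nat_lit 2) (.e (nat_lit 90185) (nat_lit 17) (.e (nat_lit 237623) (nat_lit 13) .nil)))) .nil)) 
(.lf (nat_lit 260580) (.g (nat_lit 1318) (.e (nat_lit 164403) (nat_lit 256) (.e (nat_lit 57370) (nat_lit 2) (.e (nat_lit 90172) (nat_lit 14) (.e (nat_lit 180243) (nat_lit 5) .nil)))) .nil)))) (.nd (nat_lit 5) (.nd (nat_lit 6) 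
(.lf (nat_lit 260500) (.g (nat_lit 1807) (.e (nat_lit 164402) (nat_lit 256) (.e (nat_lit 57371) (nat_lit 2) (.e (nat_lit 90185) (nat_lit 17) (.e (nat_lit 237620) (nat_lit 13) (.e (nat_lit 483341) (nat_lit 9) .nil))))) .nil)) 
(.lf (nat_lit 260564) (.g (nat_lit 2140) (.e (nat_lit 164402) (nat_lit 256) (.e (nat_lit 57445) (nat_lit 19) (.e (nat_lit 393281) (nat_lit 23) (.e (nat_lit 426116) (nat_lit 2) (.e (nat_lit 196654) (nat_lit 11) (.e (nat_lit 16405) (nat_lit 1) .nil)))))) (.g (nat_lit 5) .nil .nil)))) (.nd (nat_lit 6) 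
(.lf (nat_lit 260532) (.g (nat_lit 2401) (.e (nat_lit 164402) (nat_lit 256) (.e (nat_lit 57400) (nat_lit 10) (.e (nat_lit 319533) (nat_lit 16) (.e (nat_lit 286761) (nat_lit 13) (.e (nat_lit 393266) (nat_lit 23) .nil))))) .nil)) 
(.lf (nat_lit 260596) (.g (nat_lit 1305) (.e (nat_lit 164403) (nat_lit 256) (.e (nat_lit 57371) (nat_lit 2) (.e (nat_lit 90169) (nat_lit 13) (.e (nat_lit 172065) (nat_lit 3) .nil)))) .nil))))) (.nd (nat_lit 4) (.nd (nat_lit 5) (.nd (nat_lit 6) 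
(.lf (nat_lit 260492) (.g (nat_lit 2515) (.e (nat_lit 164402) (nat_lit 256) (.e (nat_lit 57371) (nat_lit 2) (.e (nat_lit 90172) (nat_lit 14) (.e (nat_lit 180244) (nat_lit 5) (.e (nat_lit 532513) (nat_lit 3) (.e (nat_lit 114714) (nat_lit 22) (.e (nat_lit 90140) (nat_lit 9) (.e (nat_lit 2611) (nat_lit 163) .nil)))))))) (.g (nat_lit 4) .nil .nil))) 
(.lf (nat_lit 260556) (.g (nat_lit 2359) (.e (nat_lit 164402) (nat_lit 256) (.e (nat_lit 57427) (nat_lit 15) (.e (nat_lit 360474) (nat_lit 8) (.e (nat_lit 557094) (nat_lit 12) (.e (nat_lit 163856) (nat_lit 0) .nil))))) .nil))) (.nd (nat_lit 6) 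
(.lf (nat_lit 260524) (.g (nat_lit 1902) (.e (nat_lit 164402) (nat_lit 256) (.e (nat_lit 57400) (nat_lit 10) (.e (nat_lit 319533) (nat_lit 16) (.e (nat_lit 286743) (nat_lit 9) (.e (nat_lit 336441) (nat_lit 32) .nil))))) .nil)) 
(.lf (nat_lit 260588) (.g (nat_lit 2795) (.e (nat_lit 164403) (nat_lit 256) (.e (nat_lit 57371) (nat_lit 2) (.e (nat_lit 90167) (nat_lit 13) (.e (nat_lit 172067) (nat_lit 3) (.e (nat_lit 204834) (nat_lit 19) (.e (nat_lit 106517) (nat_lit 9) (.e (nat_lit 1255) (nat_lit 92) (.e (nat_lit 98335) (nat_lit 18) .nil)))))))) (.g (nat_lit 4) .nil .nil))))) (.nd (nat_lit 5) (.nd (nat_lit 6) 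
(.lf (nat_lit 260508) (.g (nat_lit 2548) (.e (nat_lit 164402) (nat_lit 256) (.e (nat_lit 57373) (nat_lit 2) (.e (nat_lit 90172) (nat_lit 14) (.e (nat_lit 180243) (nat_lit 5) (.e (nat_lit 532515) (nat_lit 3) .nil))))) .nil)) 
(.lf (nat_lit 260572) (.g (nat_lit 2314) (.e (nat_lit 164403) (nat_lit 256) (.e (nat_lit 57370) (nat_lit 2) (.e (nat_lit 90170) (nat_lit 13) (.e (nat_lit 172065) (nat_lit 3) (.e (nat_lit 204838) (nat_lit 20) .nil))))) .nil))) (.nd (nat_lit 6) 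
(.lf (nat_lit 260540) (.g (nat_lit 1996) (.e (nat_lit 164402) (nat_lit 256) (.e (nat_lit 57406) (nat_lit 12) (.e (nat_lit 336443) (nat_lit 32) (.e (nat_lit 466977) (nat_lit 22) (.e (nat_lit 196656) (nat_lit 11) (.e (nat_lit 16405) (nat_lit 1) .nil)))))) (.g (nat_lit 4) .nil .nil))) 
(.lf (nat_lit 260604) (.g (nat_lit 2950) (.e (nat_lit 164403) (nat_lit 256) (.e (nat_lit 57371) (nat_lit 2) (.e (nat_lit 90172) (nat_lit 14) (.e (nat_lit 180243) (nat_lit 5) (.e (nat_lit 532515) (nat_lit 3) (.e (nat_lit 114716) (nat_lit 22) (.e (nat_lit 90137) (nat_lit 9) (.e (nat_lit 2609) (nat_lit 163) .nil)))))))) (.g (nat_lit 4) .nil .nil)))))))) 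
(.nd (nat_lit 2) (.nd (nat_lit 3) (.nd (nat_lit 4) (.nd (nat_lit 5) (.nd (nat_lit 6) 
(.lf (nat_lit 260482) (.g (nat_lit 2127) (.e (nat_lit 164401) (nat_lit 256) (.e (nat_lit 57447) (nat_lit 19) (.e (nat_lit 393301) (nat_lit 27) (.e (nat_lit 491525) (nat_lit 0) .nil)))) .nil)) 
(.lf (nat_lit 260546) (.g (nat_lit 2084) (.e (nat_lit 164402) (nat_lit 256) (.e (nat_lit 57424) (nat_lit 14) (.e (nat_lit 352312) (nat_lit 22) (.e (nat_lit 90160) (nat_lit 11) .nil)))) .nil))) (.nd (nat_lit 6) 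
(.lf (nat_lit 260514) (.g (nat_lit 3238) (.e (nat_lit 164402) (nat_lit 256) (.e (nat_lit 57373) (nat_lit 2) (.e (nat_lit 90172) (nat_lit 14) (.e (nat_lit 180244) (nat_lit 5) (.e (nat_lit 532515) (nat_lit 3) (.e (nat_lit 114716) (nat_lit 22) (.e (nat_lit 90137) (nat_lit 9) (.e (nat_lit 2609) (nat_lit 163) .nil)))))))) (.g (nat_lit 7) .nil .nil))) 
(.lf (nat_lit 260578) (.g (nat_lit 2953) (.e (nat_lit 164403) (nat_lit 256) (.e (nat_lit 57370) (nat_lit 2) (.e (nat_lit 90170) (nat_lit 13) (.e (nat_lit 172121) (nat_lit 13) (.e (nat_lit 483341) (nat_lit 9) (.e (nat_lit 426107) (nat_lit 1) .nil)))))) (.g (nat_lit 4) .nil .nil))))) (.nd (nat_lit 5) (.nd (nat_lit 6) 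
(.lf (nat_lit 260498) (.g (nat_lit 520) (.e (nat_lit 164402) (nat_lit 256) (.e (nat_lit 57371) (nat_lit 2) (.e (nat_lit 90175) (nat_lit 15) .nil))) .nil)) 
(.lf (nat_lit 260562) (.g (nat_lit 1114) (.e (nat_lit 164402) (nat_lit 256) (.e (nat_lit 57445) (nat_lit 19) (.e (nat_lit 393233) (nat_lit 17) (.e (nat_lit 7583) (nat_lit 405) .nil)))) .nil))) (.nd (nat_lit 6) 
(.lf (nat_lit 260530) (.g (nat_lit 1138) (.e (nat_lit 164402) (nat_lit 256) (.e (nat_lit 57400) (nat_lit 10) (.e (nat_lit 319533) (nat_lit 16) (.e (nat_lit 286760) (nat_lit 13) .nil)))) .nil)) 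
(.lf (nat_lit 260594) (.g (nat_lit 2123) (.e (nat_lit 164403) (nat_lit 256) (.e (nat_lit 57371) (nat_lit 2) (.e (nat_lit 90168) (nat_lit 13) (.e (nat_lit 172067) (nat_lit 3) (.e (nat_lit 204837) (nat_lit 20) .nil))))) .nil))))) (.nd (nat_lit 4) (.nd (nat_lit 5) (.nd (nat_lit 6) 
(.lf (nat_lit 260490) (.g (nat_lit 2590) (.e (nat_lit 164402) (nat_lit 256) (.e (nat_lit 57371) (nat_lit 2) (.e (nat_lit 90172) (nat_lit 14) (.e (nat_lit 180243) (nat_lit 5) (.e (nat_lit 532515) (nat_lit 3) (.e (nat_lit 114716) (nat_lit 22) (.e (nat_lit 90137) (nat_lit 9) (.e (nat_lit 2609) (nat_lit 163) .nil)))))))) (.g (nat_lit 4) .nil .nil))) 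
(.lf (nat_lit 260554) (.g (nat_lit 2636) (.e (nat_lit 164402) (nat_lit 256) (.e (nat_lit 57427) (nat_lit 15) (.e (nat_lit 360474) (nat_lit 8) (.e (nat_lit 557093) (nat_lit 12) (.e (nat_lit 163856) (nat_lit 0) .nil))))) .nil))) (.nd (nat_lit 6) 
(.lf (nat_lit 260522) (.g (nat_lit 1756) (.e (nat_lit 164402) (nat_lit 256) (.e (nat_lit 57400) (nat_lit 10) (.e (nat_lit 319531) (nat_lit 16) (.e (nat_lit 286742) (nat_lit 9) .nil)))) .nil)) 
(.lf (nat_lit 260586) (.g (nat_lit 385) (.e (nat_lit 164403) (nat_lit 256) (.e (nat_lit 57371) (nat_lit 2) (.e (nat_lit 90167) (nat_lit 13) .nil))) .nil)))) (.nd (nat_lit 5) (.nd (nat_lit 6) 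
(.lf (nat_lit 260506) (.g (nat_lit 2562) (.e (nat_lit 164402) (nat_lit 256) (.e (nat_lit 57373) (nat_lit 2) (.e (nat_lit 90170) (nat_lit 13) (.e (nat_lit 172095) (nat_lit 9) .nil)))) .nil)) 
(.lf (nat_lit 260570) (.g (nat_lit 2416) (.e (nat_lit 164403) (nat_lit 256) (.e (nat_lit 57370) (nat_lit 2) (.e (nat_lit 90170) (nat_lit 13) (.e (nat_lit 172065) (nat_lit 3) (.e (nat_lit 204834) (nat_lit 19) .nil))))) .nil))) (.nd (nat_lit 6) 
(.lf (nat_lit 260538) (.g (nat_lit 1989) (.e (nat_lit 164402) (nat_lit 256) (.e (nat_lit 57406) (nat_lit 12) (.e (nat_lit 336443) (nat_lit 32) (.e (nat_lit 466977) (nat_lit 22) (.e (nat_lit 196654) (nat_lit 11) (.e (nat_lit 16406) (nat_lit 1) .nil)))))) (.g (nat_lit 4) .nil .nil))) 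
(.lf (nat_lit 260602) (.g (nat_lit 1650) (.e (nat_lit 164403) (nat_lit 256) (.e (nat_lit 57371) (nat_lit 2) (.e (nat_lit 90172) (nat_lit 14) (.e (nat_lit 180243) (nat_lit 5) .nil)))) .nil)))))) (.nd (nat_lit 3) (.nd (nat_lit 4) (.nd (nat_lit 5) (.nd (nat_lit 6) 
(.lf (nat_lit 260486) (.g (nat_lit 3296) (.e (nat_lit 164401) (nat_lit 256) (.e (nat_lit 57447) (nat_lit 19) (.e (nat_lit 393301) (nat_lit 27) (.e (nat_lit 491526) (nat_lit 0) (.e (nat_lit 1855) (nat_lit 124) (.e (nat_lit 557100) (nat_lit 13) (.e (nat_lit 172061) (nat_lit 1) .nil))))))) (.g (nat_lit 4) .nil .nil))) 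
(.lf (nat_lit 260550) (.g (nat_lit 4074) (.e (nat_lit 164402) (nat_lit 256) (.e (nat_lit 57427) (nat_lit 15) (.e (nat_lit 360474) (nat_lit 8) (.e (nat_lit 557091) (nat_lit 12) (.e (nat_lit 163855) (nat_lit 0) (.e (nat_lit 5594) (nat_lit 310) (.e (nat_lit 163885) (nat_lit 5) (.e (nat_lit 221208) (nat_lit 21) .nil)))))))) (.g (nat_lit 4) .nil .nil)))) (.nd (nat_lit 6) 
(.lf (nat_lit 260518) (.g (nat_lit 1185) (.e (nat_lit 164402) (nat_lit 256) (.e (nat_lit 57377) (nat_lit 3) (.e (nat_lit 98363) (nat_lit 26) (.e (nat_lit 426228) (nat_lit 9) .nil)))) .nil)) 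
(.lf (nat_lit 260582) (.g (nat_lit 1936) (.e (nat_lit 164403) (nat_lit 256) (.e (nat_lit 57370) (nat_lit 2) (.e (nat_lit 90172) (nat_lit 14) (.e (nat_lit 180244) (nat_lit 5) (.e (nat_lit 532515) (nat_lit 3) (.e (nat_lit 114716) (nat_lit 22) (.e (nat_lit 90137) (nat_lit 9) (.e (nat_lit 2609) (nat_lit 163) .nil)))))))) (.g (nat_lit 4) .nil .nil))))) (.nd (nat_lit 5) (.nd (nat_lit 6) 
(.lf (nat_lit 260502) (.g (nat_lit 2872) (.e (nat_lit 164402) (nat_lit 256) (.e (nat_lit 57373) (nat_lit 2) (.e (nat_lit 90170) (nat_lit 13) (.e (nat_lit 172067) (nat_lit 3) (.e (nat_lit 204837) (nat_lit 20) .nil))))) .nil)) 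
(.lf (nat_lit 260566) (.g (nat_lit 1931) (.e (nat_lit 164402) (nat_lit 256) (.e (nat_lit 57445) (nat_lit 19) (.e (nat_lit 393281) (nat_lit 23) (.e (nat_lit 426116) (nat_lit 2) (.e (nat_lit 196656) (nat_lit 11) (.e (nat_lit 16405) (nat_lit 1) .nil)))))) (.g (nat_lit 4) .nil .nil)))) (.nd (nat_lit 6) 
(.lf (nat_lit 260534) (.g (nat_lit 1747) (.e (nat_lit 164402) (nat_lit 256) (.e (nat_lit 57400) (nat_lit 10) (.e (nat_lit 319534) (nat_lit 16) (.e (nat_lit 286743) (nat_lit 9) (.e (nat_lit 336444) (nat_lit 32) .nil))))) .nil)) 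
(.lf (nat_lit 260598) (.g (nat_lit 2214) (.e (nat_lit 164403) (nat_lit 256) (.e (nat_lit 57371) (nat_lit 2) (.e (nat_lit 90170) (nat_lit 13) (.e (nat_lit 172067) (nat_lit 3) .nil)))) .nil))))) (.nd (nat_lit 4) (.nd (nat_lit 5) (.nd (nat_lit 6) 
(.lf (nat_lit 260494) (.g (nat_lit 2462) (.e (nat_lit 164402) (nat_lit 256) (.e (nat_lit 57371) (nat_lit 2) (.e (nat_lit 90172) (nat_lit 14) (.e (nat_lit 180244) (nat_lit 5) (.e (nat_lit 532515) (nat_lit 3) (.e (nat_lit 114715) (nat_lit 22) (.e (nat_lit 90121) (nat_lit 9) (.e (nat_lit 2611) (nat_lit 163) .nil)))))))) (.g (nat_lit 4) .nil .nil))) 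
(.lf (nat_lit 260558) (.g (nat_lit 1700) (.e (nat_lit 164402) (nat_lit 256) (.e (nat_lit 57428) (nat_lit 15) (.e (nat_lit 360467) (nat_lit 3) (.e (nat_lit 516195) (nat_lit 26) (.e (nat_lit 343808) (nat_lit 20) .nil))))) .nil))) (.nd (nat_lit 6) 
(.lf (nat_lit 260526) (.g (nat_lit 1238) (.e (nat_lit 164402) (nat_lit 256) (.e (nat_lit 57400) (nat_lit 10) (.e (nat_lit 319533) (nat_lit 16) (.e (nat_lit 286753) (nat_lit 10) .nil)))) .nil)) 
(.lf (nat_lit 260590) (.g (nat_lit 3725) (.e (nat_lit 164403) (nat_lit 256) (.e (nat_lit 57371) (nat_lit 2) (.e (nat_lit 90167) (nat_lit 13) (.e (nat_lit 172067) (nat_lit 3) (.e (nat_lit 204838) (nat_lit 20) (.e (nat_lit 114708) (nat_lit 20) (.e (nat_lit 1800) (nat_lit 119) (.e (nat_lit 516120) (nat_lit 1) .nil)))))))) (.g (nat_lit 5) .nil .nil))))) (.nd (nat_lit 5) (.nd (nat_lit 6) 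
(.lf (nat_lit 260510) (.g (nat_lit 2173) (.e (nat_lit 164402) (nat_lit 256) (.e (nat_lit 57373) (nat_lit 2) (.e (nat_lit 90172) (nat_lit 14) (.e (nat_lit 180244) (nat_lit 5) (.e (nat_lit 532513) (nat_lit 3) .nil))))) .nil)) 
(.lf (nat_lit 260574) (.g (nat_lit 2415) (.e (nat_lit 164403) (nat_lit 256) (.e (nat_lit 57370) (nat_lit 2) (.e (nat_lit 90170) (nat_lit 13) (.e (nat_lit 172067) (nat_lit 3) (.e (nat_lit 204837) (nat_lit 20) .nil))))) .nil))) (.nd (nat_lit 6) 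
(.lf (nat_lit 260542) (.g (nat_lit 2437) (.e (nat_lit 164402) (nat_lit 256) (.e (nat_lit 57406) (nat_lit 12) (.e (nat_lit 336443) (nat_lit 32) (.e (nat_lit 466977) (nat_lit 22) (.e (nat_lit 196656) (nat_lit 11) (.e (nat_lit 16407) (nat_lit 1) .nil)))))) (.g (nat_lit 4) .nil .nil))) 
(.lf (nat_lit 260606) (.g (nat_lit 2051) (.e (nat_lit 164403) (nat_lit 256) (.e (nat_lit 57371) (nat_lit 2) (.e (nat_lit 90172) (nat_lit 14) (.e (nat_lit 180244) (nat_lit 5) (.e (nat_lit 532506) (nat_lit 2) .nil))))) .nil)))))))) (.nd (nat_lit 1) (.nd (nat_lit 2) (.nd (nat_lit 3) (.nd (nat_lit 4) (.nd (nat_lit 5) (.nd (nat_lit 6) 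
(.lf (nat_lit 260481) (.g (nat_lit 898) (.e (nat_lit 164401) (nat_lit 256) (.e (nat_lit 57447) (nat_lit 19) (.e (nat_lit 393301) (nat_lit 27) .nil))) .nil)) 
(.lf (nat_lit 260545) (.g (nat_lit 2110) (.e (nat_lit 164402) (nat_lit 256) (.e (nat_lit 57424) (nat_lit 14) (.e (nat_lit 352312) (nat_lit 22) (.e (nat_lit 90157) (nat_lit 11) .nil)))) .nil))) (.nd (nat_lit 6) 
(.lf (nat_lit 260513) (.g (nat_lit 2927) (.e (nat_lit 164402) (nat_lit 256) (.e (nat_lit 57373) (nat_lit 2) (.e (nat_lit 90172) (nat_lit 14) (.e (nat_lit 180244) (nat_lit 5) (.e (nat_lit 532515) (nat_lit 3) (.e (nat_lit 114716) (nat_lit 22) (.e (nat_lit 90129) (nat_lit 9) (.e (nat_lit 2606) (nat_lit 163) .nil)))))))) (.g (nat_lit 6) .nil .nil))) 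
(.lf (nat_lit 260577) (.g (nat_lit 1610) (.e (nat_lit 164403) (nat_lit 256) (.e (nat_lit 57370) (nat_lit 2) (.e (nat_lit 90170) (nat_lit 13) (.e (nat_lit 172095) (nat_lit 9) .nil)))) .nil)))) (.nd (nat_lit 5) (.nd (nat_lit 6) 
(.lf (nat_lit 260497) (.g (nat_lit 3379) (.e (nat_lit 164402) (nat_lit 256) (.e (nat_lit 57371) (nat_lit 2) (.e (nat_lit 90174) (nat_lit 14) (.e (nat_lit 180243) (nat_lit 5) (.e (nat_lit 532515) (nat_lit 3) (.e (nat_lit 114719) (nat_lit 23) (.e (nat_lit 98332) (nat_lit 18) .nil))))))) (.g (nat_lit 6) .nil .nil))) 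
(.lf (nat_lit 260561) (.g (nat_lit 1315) (.e (nat_lit 164402) (nat_lit 256) (.e (nat_lit 57445) (nat_lit 19) (.e (nat_lit 393232) (nat_lit 17) (.e (nat_lit 7581) (nat_lit 405) .nil)))) .nil))) (.nd (nat_lit 6) 
(.lf (nat_lit 260529) (.g (nat_lit 1876) (.e (nat_lit 164402) (nat_lit 256) (.e (nat_lit 57400) (nat_lit 10) (.e (nat_lit 319533) (nat_lit 16) (.e (nat_lit 286753) (nat_lit 10) (.e (nat_lit 344172) (nat_lit 41) .nil))))) .nil)) 
(.lf (nat_lit 260593) (.g (nat_lit 1559) (.e (nat_lit 164403) (nat_lit 256) (.e (nat_lit 57371) (nat_lit 2) (.e (nat_lit 90167) (nat_lit 13) (.e (nat_lit 172095) (nat_lit 9) (.e (nat_lit 433920) (nat_lit 34) .nil))))) .nil))))) (.nd (nat_lit 4) (.nd (nat_lit 5) (.nd (nat_lit 6) 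
(.lf (nat_lit 260489) (.g (nat_lit 1911) (.e (nat_lit 164402) (nat_lit 256) (.e (nat_lit 57371) (nat_lit 2) (.e (nat_lit 90172) (nat_lit 14) (.e (nat_lit 180243) (nat_lit 5) (.e (nat_lit 532515) (nat_lit 3) .nil))))) .nil)) 
(.lf (nat_lit 260553) (.g (nat_lit 2747) (.e (nat_lit 164402) (nat_lit 256) (.e (nat_lit 57427) (nat_lit 15) (.e (nat_lit 360474) (nat_lit 8) (.e (nat_lit 557091) (nat_lit 12) (.e (nat_lit 164003) (nat_lit 40) .nil))))) .nil))) (.nd (nat_lit 6) 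
(.lf (nat_lit 260521) (.g (nat_lit 1600) (.e (nat_lit 164402) (nat_lit 256) (.e (nat_lit 57400) (nat_lit 10) (.e (nat_lit 319504) (nat_lit 10) (.e (nat_lit 5256) (nat_lit 298) .nil)))) .nil)) 
(.lf (nat_lit 260585) (.g (nat_lit 594) (.e (nat_lit 164403) (nat_lit 256) (.e (nat_lit 57371) (nat_lit 2) (.e (nat_lit 90166) (nat_lit 13) .nil))) .nil)))) (.nd (nat_lit 5) (.nd (nat_lit 6) 
(.lf (nat_lit 260505) (.g (nat_lit 2708) (.e (nat_lit 164402) (nat_lit 256) (.e (nat_lit 57373) (nat_lit 2) (.e (nat_lit 90170) (nat_lit 13) (.e (nat_lit 172092) (nat_lit 9) .nil)))) .nil)) 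
(.lf (nat_lit 260569) (.g (nat_lit 1482) (.e (nat_lit 164402) (nat_lit 256) (.e (nat_lit 57447) (nat_lit 19) (.e (nat_lit 393281) (nat_lit 23) (.e (nat_lit 426116) (nat_lit 2) .nil)))) .nil))) (.nd (nat_lit 6) 
(.lf (nat_lit 260537) (.g (nat_lit 1863) (.e (nat_lit 164402) (nat_lit 256) (.e (nat_lit 57406) (nat_lit 12) (.e (nat_lit 336443) (nat_lit 32) (.e (nat_lit 466977) (nat_lit 22) (.e (nat_lit 196654) (nat_lit 11) (.e (nat_lit 16405) (nat_lit 1) .nil)))))) (.g (nat_lit 4) .nil .nil))) 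
(.lf (nat_lit 260601) (.g (nat_lit 1649) (.e (nat_lit 164403) (nat_lit 256) (.e (nat_lit 57371) (nat_lit 2) (.e (nat_lit 90172) (nat_lit 14) (.e (nat_lit 180242) (nat_lit 5) .nil)))) .nil)))))) (.nd (nat_lit 3) (.nd (nat_lit 4) (.nd (nat_lit 5) (.nd (nat_lit 6) 
(.lf (nat_lit 260485) (.g (nat_lit 3558) (.e (nat_lit 164401) (nat_lit 256) (.e (nat_lit 57447) (nat_lit 19) (.e (nat_lit 393301) (nat_lit 27) (.e (nat_lit 491526) (nat_lit 0) (.e (nat_lit 1855) (nat_lit 124) (.e (nat_lit 557100) (nat_lit 13) (.e (nat_lit 172059) (nat_lit 1) .nil))))))) (.g (nat_lit 5) .nil .nil))) 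
(.lf (nat_lit 260549) (.g (nat_lit 783) (.e (nat_lit 164402) (nat_lit 256) (.e (nat_lit 57427) (nat_lit 15) (.e (nat_lit 360468) (nat_lit 3) .nil))) .nil))) (.nd (nat_lit 6) 
(.lf (nat_lit 260517) (.g (nat_lit 965) (.e (nat_lit 164402) (nat_lit 256) (.e (nat_lit 57377) (nat_lit 3) (.e (nat_lit 98357) (nat_lit 26) (.e (nat_lit 426226) (nat_lit 9) .nil)))) .nil)) 
(.lf (nat_lit 260581) (.g (nat_lit 1839) (.e (nat_lit 164403) (nat_lit 256) (.e (nat_lit 57370) (nat_lit 2) (.e (nat_lit 90172) (nat_lit 14) (.e (nat_lit 180243) (nat_lit 5) (.e (nat_lit 532513) (nat_lit 3) .nil))))) .nil)))) (.nd (nat_lit 5) (.nd (nat_lit 6) 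
(.lf (nat_lit 260501) (.g (nat_lit 2874) (.e (nat_lit 164402) (nat_lit 256) (.e (nat_lit 57373) (nat_lit 2) (.e (nat_lit 90170) (nat_lit 13) (.e (nat_lit 172065) (nat_lit 3) (.e (nat_lit 204838) (nat_lit 20) .nil))))) .nil)) 
(.lf (nat_lit 260565) (.g (nat_lit 2166) (.e (nat_lit 164402) (nat_lit 256) (.e (nat_lit 57445) (nat_lit 19) (.e (nat_lit 393281) (nat_lit 23) (.e (nat_lit 426116) (nat_lit 2) (.e (nat_lit 196654) (nat_lit 11) (.e (nat_lit 16406) (nat_lit 1) .nil)))))) (.g (nat_lit 5) .nil .nil)))) (.nd (nat_lit 6) 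
(.lf (nat_lit 260533) (.g (nat_lit 2327) (.e (nat_lit 164402) (nat_lit 256) (.e (nat_lit 57400) (nat_lit 10) (.e (nat_lit 319533) (nat_lit 16) (.e (nat_lit 286761) (nat_lit 13) (.e (nat_lit 393275) (nat_lit 23) .nil))))) .nil)) 
(.lf (nat_lit 260597) (.g (nat_lit 2217) (.e (nat_lit 164403) (nat_lit 256) (.e (nat_lit 57371) (nat_lit 2) (.e (nat_lit 90170) (nat_lit 13) (.e (nat_lit 172065) (nat_lit 3) .nil)))) .nil))))) (.nd (nat_lit 4) (.nd (nat_lit 5) (.nd (nat_lit 6) 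
(.lf (nat_lit 260493) (.g (nat_lit 1812) (.e (nat_lit 164402) (nat_lit 256) (.e (nat_lit 57371) (nat_lit 2) (.e (nat_lit 90172) (nat_lit 14) (.e (nat_lit 180244) (nat_lit 5) (.e (nat_lit 532515) (nat_lit 3) .nil))))) .nil)) 
(.lf (nat_lit 260557) (.g (nat_lit 3038) (.e (nat_lit 164402) (nat_lit 256) (.e (nat_lit 57427) (nat_lit 15) (.e (nat_lit 360475) (nat_lit 8) (.e (nat_lit 557091) (nat_lit 12) (.e (nat_lit 163856) (nat_lit 0) (.e (nat_lit 5597) (nat_lit 310) (.e (nat_lit 163885) (nat_lit 5) (.e (nat_lit 221208) (nat_lit 21) .nil)))))))) (.g (nat_lit 4) .nil .nil)))) (.nd (nat_lit 6) 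
(.lf (nat_lit 260525) (.g (nat_lit 1877) (.e (nat_lit 164402) (nat_lit 256) (.e (nat_lit 57400) (nat_lit 10) (.e (nat_lit 319533) (nat_lit 16) (.e (nat_lit 286743) (nat_lit 9) (.e (nat_lit 336444) (nat_lit 32) .nil))))) .nil)) 
(.lf (nat_lit 260589) (.g (nat_lit 2125) (.e (nat_lit 164403) (nat_lit 256) (.e (nat_lit 57371) (nat_lit 2) (.e (nat_lit 90167) (nat_lit 13) (.e (nat_lit 172067) (nat_lit 3) (.e (nat_lit 204837) (nat_lit 20) .nil))))) .nil)))) (.nd (nat_lit 5) (.nd (nat_lit 6) 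
(.lf (nat_lit 260509) (.g (nat_lit 1588) (.e (nat_lit 164402) (nat_lit 256) (.e (nat_lit 57373) (nat_lit 2) (.e (nat_lit 90172) (nat_lit 14) (.e (nat_lit 180244) (nat_lit 5) .nil)))) .nil)) 
(.lf (nat_lit 260573) (.g (nat_lit 2466) (.e (nat_lit 164403) (nat_lit 256) (.e (nat_lit 57370) (nat_lit 2) (.e (nat_lit 90170) (nat_lit 13) (.e (nat_lit 172067) (nat_lit 3) (.e (nat_lit 204834) (nat_lit 19) .nil))))) .nil))) (.nd (nat_lit 6) 
(.lf (nat_lit 260541) (.g (nat_lit 1953) (.e (nat_lit 164402) (nat_lit 256) (.e (nat_lit 57406) (nat_lit 12) (.e (nat_lit 336443) (nat_lit 32) (.e (nat_lit 466977) (nat_lit 22) (.e (nat_lit 196656) (nat_lit 11) (.e (nat_lit 16406) (nat_lit 1) .nil)))))) (.g (nat_lit 4) .nil .nil))) 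
(.lf (nat_lit 260605) (.g (nat_lit 1153) (.e (nat_lit 164403) (nat_lit 256) (.e (nat_lit 57371) (nat_lit 2) (.e (nat_lit 90172) (nat_lit 14) (.e (nat_lit 180244) (nat_lit 5) .nil)))) .nil))))))) (.nd (nat_lit 2) (.nd (nat_lit 3) (.nd (nat_lit 4) (.nd (nat_lit 5) (.nd (nat_lit 6) 
(.lf (nat_lit 260483) (.g (nat_lit 2745) (.e (nat_lit 164401) (nat_lit 256) (.e (nat_lit 57447) (nat_lit 19) (.e (nat_lit 393301) (nat_lit 27) (.e (nat_lit 491526) (nat_lit 0) (.e (nat_lit 1848) (nat_lit 124) .nil))))) .nil)) 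
(.lf (nat_lit 260547) (.g (nat_lit 909) (.e (nat_lit 164402) (nat_lit 256) (.e (nat_lit 57424) (nat_lit 14) (.e (nat_lit 352321) (nat_lit 25) .nil))) .nil))) (.nd (nat_lit 6) 
(.lf (nat_lit 260515) (.g (nat_lit 1254) (.e (nat_lit 164402) (nat_lit 256) (.e (nat_lit 57373) (nat_lit 2) (.e (nat_lit 90185) (nat_lit 17) (.e (nat_lit 237601) (nat_lit 9) .nil)))) .nil)) 
(.lf (nat_lit 260579) (.g (nat_lit 2933) (.e (nat_lit 164403) (nat_lit 256) (.e (nat_lit 57370) (nat_lit 2) (.e (nat_lit 90170) (nat_lit 13) (.e (nat_lit 172121) (nat_lit 13) (.e (nat_lit 483341) (nat_lit 9) (.e (nat_lit 426108) (nat_lit 1) .nil)))))) (.g (nat_lit 4) .nil .nil))))) (.nd (nat_lit 5) (.nd (nat_lit 6) 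
(.lf (nat_lit 260499) (.g (nat_lit 966) (.e (nat_lit 164402) (nat_lit 256) (.e (nat_lit 57371) (nat_lit 2) (.e (nat_lit 90185) (nat_lit 17) (.e (nat_lit 237601) (nat_lit 9) .nil)))) .nil)) 
(.lf (nat_lit 260563) (.g (nat_lit 1680) (.e (nat_lit 164402) (nat_lit 256) (.e (nat_lit 57445) (nat_lit 19) (.e (nat_lit 393281) (nat_lit 23) (.e (nat_lit 426115) (nat_lit 2) (.e (nat_lit 196654) (nat_lit 11) (.e (nat_lit 16406) (nat_lit 1) .nil)))))) (.g (nat_lit 5) .nil .nil)))) (.nd (nat_lit 6) 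
(.lf (nat_lit 260531) (.g (nat_lit 1748) (.e (nat_lit 164402) (nat_lit 256) (.e (nat_lit 57400) (nat_lit 10) (.e (nat_lit 319533) (nat_lit 16) (.e (nat_lit 286760) (nat_lit 13) (.e (nat_lit 393279) (nat_lit 23) .nil))))) .nil)) 
(.lf (nat_lit 260595) (.g (nat_lit 456) (.e (nat_lit 164403) (nat_lit 256) (.e (nat_lit 57371) (nat_lit 2) (.e (nat_lit 90169) (nat_lit 13) .nil))) .nil))))) (.nd (nat_lit 4) (.nd (nat_lit 5) (.nd (nat_lit 6) 
(.lf (nat_lit 260491) (.g (nat_lit 1854) (.e (nat_lit 164402) (nat_lit 256) (.e (nat_lit 57371) (nat_lit 2) (.e (nat_lit 90172) (nat_lit 14) (.e (nat_lit 180244) (nat_lit 5) (.e (nat_lit 532513) (nat_lit 3) .nil))))) .nil)) 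
(.lf (nat_lit 260555) (.g (nat_lit 2983) (.e (nat_lit 164402) (nat_lit 256) (.e (nat_lit 57427) (nat_lit 15) (.e (nat_lit 360474) (nat_lit 8) (.e (nat_lit 557093) (nat_lit 12) (.e (nat_lit 163857) (nat_lit 0) (.e (nat_lit 5584) (nat_lit 310) (.e (nat_lit 163885) (nat_lit 5) (.e (nat_lit 221208) (nat_lit 21) .nil)))))))) (.g (nat_lit 4) .nil .nil)))) (.nd (nat_lit 6) 
(.lf (nat_lit 260523) (.g (nat_lit 2498) (.e (nat_lit 164402) (nat_lit 256) (.e (nat_lit 57400) (nat_lit 10) (.e (nat_lit 319531) (nat_lit 16) (.e (nat_lit 286761) (nat_lit 13) (.e (nat_lit 393270) (nat_lit 23) (.e (nat_lit 426111) (nat_lit 1) .nil)))))) (.g (nat_lit 5) .nil .nil))) 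
(.lf (nat_lit 260587) (.g (nat_lit 2340) (.e (nat_lit 164403) (nat_lit 256) (.e (nat_lit 57371) (nat_lit 2) (.e (nat_lit 90167) (nat_lit 13) (.e (nat_lit 172067) (nat_lit 3) (.e (nat_lit 204834) (nat_lit 19) .nil))))) .nil)))) (.nd (nat_lit 5) (.nd (nat_lit 6) 
(.lf (nat_lit 260507) (.g (nat_lit 2514) (.e (nat_lit 164402) (nat_lit 256) (.e (nat_lit 57373) (nat_lit 2) (.e (nat_lit 90172) (nat_lit 14) (.e (nat_lit 180243) (nat_lit 5) (.e (nat_lit 532513) (nat_lit 3) .nil))))) .nil)) 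
(.lf (nat_lit 260571) (.g (nat_lit 2416) (.e (nat_lit 164403) (nat_lit 256) (.e (nat_lit 57370) (nat_lit 2) (.e (nat_lit 90170) (nat_lit 13) (.e (nat_lit 172065) (nat_lit 3) (.e (nat_lit 204837) (nat_lit 20) .nil))))) .nil))) (.nd (nat_lit 6) 
(.lf (nat_lit 260539) (.g (nat_lit 2936) (.e (nat_lit 164402) (nat_lit 256) (.e (nat_lit 57406) (nat_lit 12) (.e (nat_lit 336443) (nat_lit 32) (.e (nat_lit 466977) (nat_lit 22) (.e (nat_lit 196654) (nat_lit 11) (.e (nat_lit 16407) (nat_lit 1) .nil)))))) (.g (nat_lit 5) .nil .nil))) 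
(.lf (nat_lit 260603) (.g (nat_lit 3984) (.e (nat_lit 164403) (nat_lit 256) (.e (nat_lit 57371) (nat_lit 2) (.e (nat_lit 90172) (nat_lit 14) (.e (nat_lit 180243) (nat_lit 5) (.e (nat_lit 532513) (nat_lit 3) (.e (nat_lit 114700) (nat_lit 20) (.e (nat_lit 1795) (nat_lit 119) (.e (nat_lit 516119) (nat_lit 1) .nil)))))))) (.g (nat_lit 5) .nil .nil))))))) 
(.nd (nat_lit 3) (.nd (nat_lit 4) (.nd (nat_lit 5) (.nd (nat_lit 6) 
(.lf (nat_lit 260487) (.g (nat_lit 2259) (.e (nat_lit 164401) (nat_lit 256) (.e (nat_lit 57447) (nat_lit 19) (.e (nat_lit 393301) (nat_lit 27) (.e (nat_lit 491577) (nat_lit 15) .nil)))) .nil)) 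
(.lf (nat_lit 260551) (.g (nat_lit 3593) (.e (nat_lit 164402) (nat_lit 256) (.e (nat_lit 57427) (nat_lit 15) (.e (nat_lit 360474) (nat_lit 8) (.e (nat_lit 557091) (nat_lit 12) (.e (nat_lit 163856) (nat_lit 0) .nil))))) .nil))) (.nd (nat_lit 6) 
(.lf (nat_lit 260519) (.g (nat_lit 369) (.e (nat_lit 164402) (nat_lit 256) (.e (nat_lit 57378) (nat_lit 3) (.e (nat_lit 98365) (nat_lit 26) .nil))) .nil)) 
(.lf (nat_lit 260583) (.g (nat_lit 2375) (.e (nat_lit 164403) (nat_lit 256) (.e (nat_lit 57370) (nat_lit 2) (.e (nat_lit 90172) (nat_lit 14) (.e (nat_lit 180244) (nat_lit 5) (.e (nat_lit 532515) (nat_lit 3) (.e (nat_lit 114719) (nat_lit 23) (.e (nat_lit 98332) (nat_lit 18) .nil))))))) (.g (nat_lit 4) .nil .nil))))) (.nd (nat_lit 5) (.nd (nat_lit 6) 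
(.lf (nat_lit 260503) (.g (nat_lit 2812) (.e (nat_lit 164402) (nat_lit 256) (.e (nat_lit 57373) (nat_lit 2) (.e (nat_lit 90170) (nat_lit 13) (.e (nat_lit 172067) (nat_lit 3) (.e (nat_lit 204838) (nat_lit 20) .nil))))) .nil)) 
(.lf (nat_lit 260567) (.g (nat_lit 1827) (.e (nat_lit 164402) (nat_lit 256) (.e (nat_lit 57445) (nat_lit 19) (.e (nat_lit 393281) (nat_lit 23) (.e (nat_lit 426116) (nat_lit 2) (.e (nat_lit 196656) (nat_lit 11) (.e (nat_lit 16406) (nat_lit 1) .nil)))))) (.g (nat_lit 4) .nil .nil)))) (.nd (nat_lit 6) 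
(.lf (nat_lit 260535) (.g (nat_lit 2217) (.e (nat_lit 164402) (nat_lit 256) (.e (nat_lit 57400) (nat_lit 10) (.e (nat_lit 319534) (nat_lit 16) (.e (nat_lit 286761) (nat_lit 13) (.e (nat_lit 393266) (nat_lit 23) .nil))))) .nil)) 
(.lf (nat_lit 260599) (.g (nat_lit 671) (.e (nat_lit 164403) (nat_lit 256) (.e (nat_lit 57371) (nat_lit 2) (.e (nat_lit 90171) (nat_lit 14) .nil))) .nil))))) (.nd (nat_lit 4) (.nd (nat_lit 5) (.nd (nat_lit 6) 
(.lf (nat_lit 260495) (.g (nat_lit 3167) (.e (nat_lit 164402) (nat_lit 256) (.e (nat_lit 57371) (nat_lit 2) (.e (nat_lit 90172) (nat_lit 14) (.e (nat_lit 180244) (nat_lit 5) (.e (nat_lit 532515) (nat_lit 3) (.e (nat_lit 114716) (nat_lit 22) (.e (nat_lit 90129) (nat_lit 9) (.e (nat_lit 2606) (nat_lit 163) .nil)))))))) (.g (nat_lit 6) .nil .nil))) 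
(.lf (nat_lit 260559) (.g (nat_lit 1456) (.e (nat_lit 164402) (nat_lit 256) (.e (nat_lit 57436) (nat_lit 17) (.e (nat_lit 376865) (nat_lit 22) (.e (nat_lit 90158) (nat_lit 11) .nil)))) .nil))) (.nd (nat_lit 6) 
(.lf (nat_lit 260527) (.g (nat_lit 1823) (.e (nat_lit 164402) (nat_lit 256) (.e (nat_lit 57400) (nat_lit 10) (.e (nat_lit 319533) (nat_lit 16) (.e (nat_lit 286753) (nat_lit 10) (.e (nat_lit 344088) (nat_lit 18) .nil))))) .nil)) 
(.lf (nat_lit 260591) (.g (nat_lit 2647) (.e (nat_lit 164403) (nat_lit 256) (.e (nat_lit 57371) (nat_lit 2) (.e (nat_lit 90167) (nat_lit 13) (.e (nat_lit 172067) (nat_lit 3) (.e (nat_lit 204838) (nat_lit 20) (.e (nat_lit 114719) (nat_lit 23) (.e (nat_lit 98332) (nat_lit 18) .nil))))))) (.g (nat_lit 4) .nil .nil))))) (.nd (nat_lit 5) (.nd (nat_lit 6) 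
(.lf (nat_lit 260511) (.g (nat_lit 2020) (.e (nat_lit 164402) (nat_lit 256) (.e (nat_lit 57373) (nat_lit 2) (.e (nat_lit 90172) (nat_lit 14) (.e (nat_lit 180244) (nat_lit 5) (.e (nat_lit 532515) (nat_lit 3) .nil))))) .nil)) 
(.lf (nat_lit 260575) (.g (nat_lit 2446) (.e (nat_lit 164403) (nat_lit 256) (.e (nat_lit 57370) (nat_lit 2) (.e (nat_lit 90170) (nat_lit 13) (.e (nat_lit 172067) (nat_lit 3) (.e (nat_lit 204838) (nat_lit 20) .nil))))) .nil))) (.nd (nat_lit 6) 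
(.lf (nat_lit 260543) (.g (nat_lit 2149) (.e (nat_lit 164402) (nat_lit 256) (.e (nat_lit 57412) (nat_lit 12) (.e (nat_lit 336389) (nat_lit 27) (.e (nat_lit 426298) (nat_lit 11) (.e (nat_lit 458789) (nat_lit 23) .nil))))) .nil)) 
(.lf (nat_lit 260607) (.g (nat_lit 2054) (.e (nat_lit 164403) (nat_lit 256) (.e (nat_lit 57371) (nat_lit 2) (.e (nat_lit 90172) (nat_lit 14) (.e (nat_lit 180244) (nat_lit 5) (.e (nat_lit 532508) (nat_lit 2) .nil))))) .nil)))))))))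

noncomputable def tv3366 : DT := (.nd (nat_lit 0) (.nd (nat_lit 1) (.nd (nat_lit 2) (.nd (nat_lit 3) (.nd (nat_lit 4) (.nd (nat_lit 5) 
(.lf (nat_lit 260608) (.g (nat_lit 1810) (.e (nat_lit 164403) (nat_lit 256) (.e (nat_lit 57371) (nat_lit 2) (.e (nat_lit 90172) (nat_lit 14) (.e (nat_lit 180244) (nat_lit 5) (.e (nat_lit 532513) (nat_lit 3) .nil))))) .nil)) 
(.lf (nat_lit 260640) (.g (nat_lit 1962) (.e (nat_lit 164403) (nat_lit 256) (.e (nat_lit 57373) (nat_lit 2) (.e (nat_lit 90170) (nat_lit 13) (.e (nat_lit 172067) (nat_lit 3) (.e (nat_lit 204838) (nat_lit 20) .nil))))) .nil))) (.nd (nat_lit 5) 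
(.lf (nat_lit 260624) (.g (nat_lit 925) (.e (nat_lit 164403) (nat_lit 256) (.e (nat_lit 57371) (nat_lit 2) (.e (nat_lit 90183) (nat_lit 17) (.e (nat_lit 237621) (nat_lit 13) .nil)))) .nil)) 
(.lf (nat_lit 260656) (.g (nat_lit 5853) (.e (nat_lit 164403) (nat_lit 256) (.e (nat_lit 57373) (nat_lit 2) (.e (nat_lit 90172) (nat_lit 14) (.e (nat_lit 180244) (nat_lit 5) (.e (nat_lit 532513) (nat_lit 3) (.e (nat_lit 114718) (nat_lit 23) (.e (nat_lit 98333) (nat_lit 18) .nil))))))) (.g (nat_lit 7) .nil .nil))))) (.nd (nat_lit 4) (.nd (nat_lit 5) 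
(.lf (nat_lit 260616) (.g (nat_lit 3691) (.e (nat_lit 164403) (nat_lit 256) (.e (nat_lit 57371) (nat_lit 2) (.e (nat_lit 90174) (nat_lit 14) (.e (nat_lit 180243) (nat_lit 5) (.e (nat_lit 532513) (nat_lit 3) (.e (nat_lit 114708) (nat_lit 20) (.e (nat_lit 1800) (nat_lit 119) (.e (nat_lit 516115) (nat_lit 1) .nil)))))))) (.g (nat_lit 5) .nil .nil))) 
(.lf (nat_lit 260648) (.g (nat_lit 1790) (.e (nat_lit 164403) (nat_lit 256) (.e (nat_lit 57373) (nat_lit 2) (.e (nat_lit 90172) (nat_lit 14) (.e (nat_lit 180242) (nat_lit 5) .nil)))) .nil))) (.nd (nat_lit 5) 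
(.lf (nat_lit 260632) (.g (nat_lit 1982) (.e (nat_lit 164403) (nat_lit 256) (.e (nat_lit 57373) (nat_lit 2) (.e (nat_lit 90168) (nat_lit 13) (.e (nat_lit 172067) (nat_lit 3) (.e (nat_lit 204834) (nat_lit 19) .nil))))) .nil)) 
(.lf (nat_lit 260664) (.g (nat_lit 3458) (.e (nat_lit 164403) (nat_lit 256) (.e (nat_lit 57373) (nat_lit 2) (.e (nat_lit 90172) (nat_lit 14) (.e (nat_lit 180244) (nat_lit 5) (.e (nat_lit 532515) (nat_lit 3) (.e (nat_lit 114716) (nat_lit 22) (.e (nat_lit 90133) (nat_lit 9) (.e (nat_lit 2613) (nat_lit 163) .nil)))))))) (.g (nat_lit 5) .nil .nil)))))) 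
(.nd (nat_lit 3) (.nd (nat_lit 4) (.nd (nat_lit 5) 
(.lf (nat_lit 260612) (.g (nat_lit 3071) (.e (nat_lit 164403) (nat_lit 256) (.e (nat_lit 57371) (nat_lit 2) (.e (nat_lit 90172) (nat_lit 14) (.e (nat_lit 180244) (nat_lit 5) (.e (nat_lit 532515) (nat_lit 3) (.e (nat_lit 114716) (nat_lit 22) (.e (nat_lit 90137) (nat_lit 9) (.e (nat_lit 2607) (nat_lit 163) .nil)))))))) (.g (nat_lit 5) .nil .nil))) 
(.lf (nat_lit 260644) (.g (nat_lit 1453) (.e (nat_lit 164403) (nat_lit 256) (.e (nat_lit 57373) (nat_lit 2) (.e (nat_lit 90170) (nat_lit 13) (.e (nat_lit 172095) (nat_lit 9) .nil)))) .nil))) (.nd (nat_lit 5) 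
(.lf (nat_lit 260628) (.g (nat_lit 634) (.e (nat_lit 164403) (nat_lit 256) (.e (nat_lit 57373) (nat_lit 2) (.e (nat_lit 90167) (nat_lit 13) .nil))) .nil)) 
(.lf (nat_lit 260660) (.g (nat_lit 3389) (.e (nat_lit 164403) (nat_lit 256) (.e (nat_lit 57373) (nat_lit 2) (.e (nat_lit 90172) (nat_lit 14) (.e (nat_lit 180244) (nat_lit 5) (.e (nat_lit 532514) (nat_lit 3) (.e (nat_lit 114718) (nat_lit 23) (.e (nat_lit 98334) (nat_lit 18) .nil))))))) (.g (nat_lit 4) .nil .nil))))) (.nd (nat_lit 4) (.nd (nat_lit 5) 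
(.lf (nat_lit 260620) (.g (nat_lit 1714) (.e (nat_lit 164403) (nat_lit 256) (.e (nat_lit 57371) (nat_lit 2) (.e (nat_lit 90176) (nat_lit 15) (.e (nat_lit 188428) (nat_lit 20) .nil)))) .nil)) 
(.lf (nat_lit 260652) (.g (nat_lit 3265) (.e (nat_lit 164403) (nat_lit 256) (.e (nat_lit 57373) (nat_lit 2) (.e (nat_lit 90172) (nat_lit 14) (.e (nat_lit 180244) (nat_lit 5) (.e (nat_lit 532506) (nat_lit 2) (.e (nat_lit 106539) (nat_lit 12) (.e (nat_lit 57466) (nat_lit 23) (.e (nat_lit 516119) (nat_lit 1) .nil)))))))) (.g (nat_lit 4) .nil .nil)))) (.nd (nat_lit 5) 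
(.lf (nat_lit 260636) (.g (nat_lit 1605) (.e (nat_lit 164403) (nat_lit 256) (.e (nat_lit 57373) (nat_lit 2) (.e (nat_lit 90170) (nat_lit 13) (.e (nat_lit 172065) (nat_lit 3) (.e (nat_lit 204834) (nat_lit 19) .nil))))) .nil)) 
(.lf (nat_lit 260668) (.g (nat_lit 2421) (.e (nat_lit 164403) (nat_lit 256) (.e (nat_lit 57373) (nat_lit 2) (.e (nat_lit 90172) (nat_lit 14) (.e (nat_lit 180250) (nat_lit 10) (.e (nat_lit 573488) (nat_lit 14) .nil))))) .nil)))))) (.nd (nat_lit 2) (.nd (nat_lit 3) (.nd (nat_lit 4) (.nd (nat_lit 5) 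
(.lf (nat_lit 260610) (.g (nat_lit 2559) (.e (nat_lit 164403) (nat_lit 256) (.e (nat_lit 57371) (nat_lit 2) (.e (nat_lit 90172) (nat_lit 14) (.e (nat_lit 180244) (nat_lit 5) (.e (nat_lit 532515) (nat_lit 3) (.e (nat_lit 114716) (nat_lit 22) (.e (nat_lit 90129) (nat_lit 9) (.e (nat_lit 2603) (nat_lit 163) .nil)))))))) (.g (nat_lit 4) .nil .nil))) 
(.lf (nat_lit 260642) (.g (nat_lit 1611) (.e (nat_lit 164403) (nat_lit 256) (.e (nat_lit 57373) (nat_lit 2) (.e (nat_lit 90170) (nat_lit 13) (.e (nat_lit 172088) (nat_lit 9) .nil)))) .nil))) (.nd (nat_lit 5) 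
(.lf (nat_lit 260626) (.g (nat_lit 1952) (.e (nat_lit 164403) (nat_lit 256) (.e (nat_lit 57371) (nat_lit 2) (.e (nat_lit 90185) (nat_lit 17) (.e (nat_lit 237603) (nat_lit 9) .nil)))) .nil)) 
(.lf (nat_lit 260658) (.g (nat_lit 5431) (.e (nat_lit 164403) (nat_lit 256) (.e (nat_lit 57373) (nat_lit 2) (.e (nat_lit 90172) (nat_lit 14) (.e (nat_lit 180244) (nat_lit 5) (.e (nat_lit 532513) (nat_lit 3) (.e (nat_lit 114719) (nat_lit 23) (.e (nat_lit 98334) (nat_lit 18) .nil))))))) (.g (nat_lit 7) .nil .nil))))) (.nd (nat_lit 4) (.nd (nat_lit 5) 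
(.lf (nat_lit 260618) (.g (nat_lit 3795) (.e (nat_lit 164403) (nat_lit 256) (.e (nat_lit 57371) (nat_lit 2) (.e (nat_lit 90174) (nat_lit 14) (.e (nat_lit 180243) (nat_lit 5) (.e (nat_lit 532515) (nat_lit 3) (.e (nat_lit 114719) (nat_lit 23) (.e (nat_lit 98332) (nat_lit 18) .nil))))))) (.g (nat_lit 6) .nil .nil))) 
(.lf (nat_lit 260650) (.g (nat_lit 2261) (.e (nat_lit 164403) (nat_lit 256) (.e (nat_lit 57373) (nat_lit 2) (.e (nat_lit 90172) (nat_lit 14) (.e (nat_lit 180243) (nat_lit 5) (.e (nat_lit 532513) (nat_lit 3) .nil))))) .nil))) (.nd (nat_lit 5) 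
(.lf (nat_lit 260634) (.g (nat_lit 1164) (.e (nat_lit 164403) (nat_lit 256) (.e (nat_lit 57373) (nat_lit 2) (.e (nat_lit 90169) (nat_lit 13) (.e (nat_lit 172065) (nat_lit 3) .nil)))) .nil)) 
(.lf (nat_lit 260666) (.g (nat_lit 3016) (.e (nat_lit 164403) (nat_lit 256) (.e (nat_lit 57373) (nat_lit 2) (.e (nat_lit 90172) (nat_lit 14) (.e (nat_lit 180244) (nat_lit 5) (.e (nat_lit 532515) (nat_lit 3) (.e (nat_lit 114716) (nat_lit 22) (.e (nat_lit 90137) (nat_lit 9) (.e (nat_lit 2600) (nat_lit 163) .nil)))))))) (.g (nat_lit 4) .nil .nil)))))) 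
(.nd (nat_lit 3) (.nd (nat_lit 4) (.nd (nat_lit 5) 
(.lf (nat_lit 260614) (.g (nat_lit 1152) (.e (nat_lit 164403) (nat_lit 256) (.e (nat_lit 57371) (nat_lit 2) (.e (nat_lit 90172) (nat_lit 14) (.e (nat_lit 188160) (nat_lit 40) .nil)))) .nil)) 
(.lf (nat_lit 260646) (.g (nat_lit 1324) (.e (nat_lit 164403) (nat_lit 256) (.e (nat_lit 57373) (nat_lit 2) (.e (nat_lit 90170) (nat_lit 13) (.e (nat_lit 172113) (nat_lit 10) .nil)))) .nil))) (.nd (nat_lit 5) 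
(.lf (nat_lit 260630) (.g (nat_lit 3811) (.e (nat_lit 164403) (nat_lit 256) (.e (nat_lit 57373) (nat_lit 2) (.e (nat_lit 90167) (nat_lit 13) (.e (nat_lit 172067) (nat_lit 3) (.e (nat_lit 204838) (nat_lit 20) (.e (nat_lit 114708) (nat_lit 20) (.e (nat_lit 1800) (nat_lit 119) (.e (nat_lit 516119) (nat_lit 1) .nil)))))))) (.g (nat_lit 5) .nil .nil))) 
(.lf (nat_lit 260662) (.g (nat_lit 4024) (.e (nat_lit 164403) (nat_lit 256) (.e (nat_lit 57373) (nat_lit 2) (.e (nat_lit 90172) (nat_lit 14) (.e (nat_lit 180244) (nat_lit 5) (.e (nat_lit 532515) (nat_lit 3) (.e (nat_lit 114716) (nat_lit 22) (.e (nat_lit 90121) (nat_lit 9) (.e (nat_lit 2611) (nat_lit 163) .nil)))))))) (.g (nat_lit 6) .nil .nil))))) (.nd (nat_lit 4) (.nd (nat_lit 5) 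
(.lf (nat_lit 260622) (.g (nat_lit 608) (.e (nat_lit 164403) (nat_lit 256) (.e (nat_lit 57371) (nat_lit 2) (.e (nat_lit 90183) (nat_lit 17) .nil))) .nil)) 
(.lf (nat_lit 260654) (.g (nat_lit 3596) (.e (nat_lit 164403) (nat_lit 256) (.e (nat_lit 57373) (nat_lit 2) (.e (nat_lit 90172) (nat_lit 14) (.e (nat_lit 180244) (nat_lit 5) (.e (nat_lit 532508) (nat_lit 2) (.e (nat_lit 106541) (nat_lit 13) (.e (nat_lit 122936) (nat_lit 23) (.e (nat_lit 516117) (nat_lit 1) .nil)))))))) (.g (nat_lit 4) .nil .nil)))) (.nd (nat_lit 5) 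
(.lf (nat_lit 260638) (.g (nat_lit 2192) (.e (nat_lit 164403) (nat_lit 256) (.e (nat_lit 57373) (nat_lit 2) (.e (nat_lit 90170) (nat_lit 13) (.e (nat_lit 172067) (nat_lit 3) (.e (nat_lit 204834) (nat_lit 19) .nil))))) .nil)) 
(.lf (nat_lit 260670) (.g (nat_lit 582) (.e (nat_lit 164403) (nat_lit 256) (.e (nat_lit 57373) (nat_lit 2) (.e (nat_lit 90173) (nat_lit 14) .nil))) .nil))))))) (.nd (nat_lit 1) (.nd (nat_lit 2) (.nd (nat_lit 3) (.nd (nat_lit 4) (.nd (nat_lit 5) 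
(.lf (nat_lit 260609) (.g (nat_lit 4254) (.e (nat_lit 164403) (nat_lit 256) (.e (nat_lit 57371) (nat_lit 2) (.e (nat_lit 90172) (nat_lit 14) (.e (nat_lit 180244) (nat_lit 5) (.e (nat_lit 532513) (nat_lit 3) (.e (nat_lit 114719) (nat_lit 23) (.e (nat_lit 98334) (nat_lit 18) .nil))))))) (.g (nat_lit 6) .nil .nil))) 
(.lf (nat_lit 260641) (.g (nat_lit 3714) (.e (nat_lit 164403) (nat_lit 256) (.e (nat_lit 57373) (nat_lit 2) (.e (nat_lit 90170) (nat_lit 13) (.e (nat_lit 172067) (nat_lit 3) (.e (nat_lit 204838) (nat_lit 20) (.e (nat_lit 114719) (nat_lit 23) (.e (nat_lit 98332) (nat_lit 18) .nil))))))) (.g (nat_lit 5) .nil .nil)))) (.nd (nat_lit 5) 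
(.lf (nat_lit 260625) (.g (nat_lit 1558) (.e (nat_lit 164403) (nat_lit 256) (.e (nat_lit 57371) (nat_lit 2) (.e (nat_lit 90185) (nat_lit 17) (.e (nat_lit 237594) (nat_lit 3) .nil)))) .nil)) 
(.lf (nat_lit 260657) (.g (nat_lit 5713) (.e (nat_lit 164403) (nat_lit 256) (.e (nat_lit 57373) (nat_lit 2) (.e (nat_lit 90172) (nat_lit 14) (.e (nat_lit 180244) (nat_lit 5) (.e (nat_lit 532513) (nat_lit 3) (.e (nat_lit 114718) (nat_lit 23) (.e (nat_lit 98334) (nat_lit 18) .nil))))))) (.g (nat_lit 7) .nil .nil))))) (.nd (nat_lit 4) (.nd (nat_lit 5) 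
(.lf (nat_lit 260617) (.g (nat_lit 4676) (.e (nat_lit 164403) (nat_lit 256) (.e (nat_lit 57371) (nat_lit 2) (.e (nat_lit 90174) (nat_lit 14) (.e (nat_lit 180243) (nat_lit 5) (.e (nat_lit 532513) (nat_lit 3) (.e (nat_lit 114718) (nat_lit 23) (.e (nat_lit 98334) (nat_lit 18) .nil))))))) (.g (nat_lit 6) .nil .nil))) 
(.lf (nat_lit 260649) (.g (nat_lit 1792) (.e (nat_lit 164403) (nat_lit 256) (.e (nat_lit 57373) (nat_lit 2) (.e (nat_lit 90172) (nat_lit 14) (.e (nat_lit 180243) (nat_lit 5) .nil)))) .nil))) (.nd (nat_lit 5) 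
(.lf (nat_lit 260633) (.g (nat_lit 3795) (.e (nat_lit 164403) (nat_lit 256) (.e (nat_lit 57373) (nat_lit 2) (.e (nat_lit 90168) (nat_lit 13) (.e (nat_lit 172067) (nat_lit 3) (.e (nat_lit 204837) (nat_lit 20) (.e (nat_lit 114708) (nat_lit 20) (.e (nat_lit 1800) (nat_lit 119) (.e (nat_lit 516119) (nat_lit 1) .nil)))))))) (.g (nat_lit 5) .nil .nil))) 
(.lf (nat_lit 260665) (.g (nat_lit 3610) (.e (nat_lit 164403) (nat_lit 256) (.e (nat_lit 57373) (nat_lit 2) (.e (nat_lit 90172) (nat_lit 14) (.e (nat_lit 180244) (nat_lit 5) (.e (nat_lit 532515) (nat_lit 3) (.e (nat_lit 114716) (nat_lit 22) (.e (nat_lit 90137) (nat_lit 9) (.e (nat_lit 2599) (nat_lit 163) .nil)))))))) (.g (nat_lit 5) .nil .nil)))))) 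
(.nd (nat_lit 3) (.nd (nat_lit 4) (.nd (nat_lit 5) 
(.lf (nat_lit 260613) (.g (nat_lit 3649) (.e (nat_lit 164403) (nat_lit 256) (.e (nat_lit 57371) (nat_lit 2) (.e (nat_lit 90172) (nat_lit 14) (.e (nat_lit 180244) (nat_lit 5) (.e (nat_lit 532515) (nat_lit 3) (.e (nat_lit 114719) (nat_lit 23) (.e (nat_lit 98332) (nat_lit 18) .nil))))))) (.g (nat_lit 6) .nil .nil))) 
(.lf (nat_lit 260645) (.g (nat_lit 2806) (.e (nat_lit 164403) (nat_lit 256) (.e (nat_lit 57373) (nat_lit 2) (.e (nat_lit 90170) (nat_lit 13) (.e (nat_lit 172106) (nat_lit 10) (.e (nat_lit 434201) (nat_lit 18) (.e (nat_lit 6540) (nat_lit 351) (.e (nat_lit 2725) (nat_lit 172) (.e (nat_lit 237585) (nat_lit 1) .nil)))))))) (.g (nat_lit 4) .nil .nil)))) (.nd (nat_lit 5) 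
(.lf (nat_lit 260629) (.g (nat_lit 4045) (.e (nat_lit 164403) (nat_lit 256) (.e (nat_lit 57373) (nat_lit 2) (.e (nat_lit 90167) (nat_lit 13) (.e (nat_lit 172067) (nat_lit 3) (.e (nat_lit 204837) (nat_lit 20) (.e (nat_lit 114708) (nat_lit 20) (.e (nat_lit 1800) (nat_lit 119) (.e (nat_lit 516119) (nat_lit 1) .nil)))))))) (.g (nat_lit 5) .nil .nil))) 
(.lf (nat_lit 260661) (.g (nat_lit 3298) (.e (nat_lit 164403) (nat_lit 256) (.e (nat_lit 57373) (nat_lit 2) (.e (nat_lit 90172) (nat_lit 14) (.e (nat_lit 180244) (nat_lit 5) (.e (nat_lit 532514) (nat_lit 3) (.e (nat_lit 114719) (nat_lit 23) (.e (nat_lit 98334) (nat_lit 18) .nil))))))) (.g (nat_lit 4) .nil .nil))))) (.nd (nat_lit 4) (.nd (nat_lit 5) 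
(.lf (nat_lit 260621) (.g (nat_lit 1568) (.e (nat_lit 164403) (nat_lit 256) (.e (nat_lit 57371) (nat_lit 2) (.e (nat_lit 90176) (nat_lit 15) (.e (nat_lit 188431) (nat_lit 20) .nil)))) .nil)) 
(.lf (nat_lit 260653) (.g (nat_lit 2128) (.e (nat_lit 164403) (nat_lit 256) (.e (nat_lit 57373) (nat_lit 2) (.e (nat_lit 90172) (nat_lit 14) (.e (nat_lit 180244) (nat_lit 5) (.e (nat_lit 532508) (nat_lit 2) .nil))))) .nil))) (.nd (nat_lit 5) 
(.lf (nat_lit 260637) (.g (nat_lit 1503) (.e (nat_lit 164403) (nat_lit 256) (.e (nat_lit 57373) (nat_lit 2) (.e (nat_lit 90170) (nat_lit 13) (.e (nat_lit 172065) (nat_lit 3) (.e (nat_lit 204838) (nat_lit 20) .nil))))) .nil)) 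
(.lf (nat_lit 260669) (.g (nat_lit 1603) (.e (nat_lit 164403) (nat_lit 256) (.e (nat_lit 57373) (nat_lit 2) (.e (nat_lit 90172) (nat_lit 14) (.e (nat_lit 188160) (nat_lit 40) .nil)))) .nil)))))) (.nd (nat_lit 2) (.nd (nat_lit 3) (.nd (nat_lit 4) (.nd (nat_lit 5) 
(.lf (nat_lit 260611) (.g (nat_lit 2664) (.e (nat_lit 164403) (nat_lit 256) (.e (nat_lit 57371) (nat_lit 2) (.e (nat_lit 90172) (nat_lit 14) (.e (nat_lit 180244) (nat_lit 5) (.e (nat_lit 532515) (nat_lit 3) (.e (nat_lit 114716) (nat_lit 22) (.e (nat_lit 90129) (nat_lit 9) (.e (nat_lit 2606) (nat_lit 163) .nil)))))))) (.g (nat_lit 4) .nil .nil))) 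
(.lf (nat_lit 260643) (.g (nat_lit 1834) (.e (nat_lit 164403) (nat_lit 256) (.e (nat_lit 57373) (nat_lit 2) (.e (nat_lit 90170) (nat_lit 13) (.e (nat_lit 172092) (nat_lit 9) .nil)))) .nil))) (.nd (nat_lit 5) 
(.lf (nat_lit 260627) (.g (nat_lit 557) (.e (nat_lit 164403) (nat_lit 256) (.e (nat_lit 57371) (nat_lit 2) (.e (nat_lit 90186) (nat_lit 17) .nil))) .nil)) 
(.lf (nat_lit 260659) (.g (nat_lit 3468) (.e (nat_lit 164403) (nat_lit 256) (.e (nat_lit 57373) (nat_lit 2) (.e (nat_lit 90172) (nat_lit 14) (.e (nat_lit 180244) (nat_lit 5) (.e (nat_lit 532514) (nat_lit 3) (.e (nat_lit 114718) (nat_lit 23) (.e (nat_lit 98333) (nat_lit 18) .nil))))))) (.g (nat_lit 4) .nil .nil))))) (.nd (nat_lit 4) (.nd (nat_lit 5) 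
(.lf (nat_lit 260619) (.g (nat_lit 1288) (.e (nat_lit 164403) (nat_lit 256) (.e (nat_lit 57371) (nat_lit 2) (.e (nat_lit 90175) (nat_lit 15) (.e (nat_lit 188423) (nat_lit 11) (.e (nat_lit 336387) (nat_lit 27) .nil))))) .nil)) 
(.lf (nat_lit 260651) (.g (nat_lit 2295) (.e (nat_lit 164403) (nat_lit 256) (.e (nat_lit 57373) (nat_lit 2) (.e (nat_lit 90172) (nat_lit 14) (.e (nat_lit 180243) (nat_lit 5) (.e (nat_lit 532515) (nat_lit 3) .nil))))) .nil))) (.nd (nat_lit 5) 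
(.lf (nat_lit 260635) (.g (nat_lit 242) (.e (nat_lit 164403) (nat_lit 256) (.e (nat_lit 57373) (nat_lit 2) (.e (nat_lit 90170) (nat_lit 13) .nil))) .nil)) 
(.lf (nat_lit 260667) (.g (nat_lit 3971) (.e (nat_lit 164403) (nat_lit 256) (.e (nat_lit 57373) (nat_lit 2) (.e (nat_lit 90172) (nat_lit 14) (.e (nat_lit 180244) (nat_lit 5) (.e (nat_lit 532515) (nat_lit 3) (.e (nat_lit 114716) (nat_lit 22) (.e (nat_lit 90137) (nat_lit 9) (.e (nat_lit 2607) (nat_lit 163) .nil)))))))) (.g (nat_lit 7) .nil .nil)))))) 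
(.nd (nat_lit 3) (.nd (nat_lit 4) (.nd (nat_lit 5) 
(.lf (nat_lit 260615) (.g (nat_lit 2090) (.e (nat_lit 164403) (nat_lit 256) (.e (nat_lit 57371) (nat_lit 2) (.e (nat_lit 90174) (nat_lit 14) (.e (nat_lit 180243) (nat_lit 5) (.e (nat_lit 532508) (nat_lit 2) .nil))))) .nil)) 
(.lf (nat_lit 260647) (.g (nat_lit 2252) (.e (nat_lit 164403) (nat_lit 256) (.e (nat_lit 57373) (nat_lit 2) (.e (nat_lit 90170) (nat_lit 13) (.e (nat_lit 172113) (nat_lit 10) (.e (nat_lit 434207) (nat_lit 18) .nil))))) .nil))) (.nd (nat_lit 5) 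
(.lf (nat_lit 260631) (.g (nat_lit 1033) (.e (nat_lit 164403) (nat_lit 256) (.e (nat_lit 57373) (nat_lit 2) (.e (nat_lit 90167) (nat_lit 13) (.e (nat_lit 172095) (nat_lit 9) .nil)))) .nil)) 
(.lf (nat_lit 260663) (.g (nat_lit 3232) (.e (nat_lit 164403) (nat_lit 256) (.e (nat_lit 57373) (nat_lit 2) (.e (nat_lit 90172) (nat_lit 14) (.e (nat_lit 180244) (nat_lit 5) (.e (nat_lit 532515) (nat_lit 3) (.e (nat_lit 114716) (nat_lit 22) (.e (nat_lit 90129) (nat_lit 9) (.e (nat_lit 2602) (nat_lit 163) .nil)))))))) (.g (nat_lit 4) .nil .nil))))) (.nd (nat_lit 4) (.nd (nat_lit 5) 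
(.lf (nat_lit 260623) (.g (nat_lit 925) (.e (nat_lit 164403) (nat_lit 256) (.e (nat_lit 57371) (nat_lit 2) (.e (nat_lit 90183) (nat_lit 17) (.e (nat_lit 237601) (nat_lit 9) .nil)))) .nil)) 
(.lf (nat_lit 260655) (.g (nat_lit 1890) (.e (nat_lit 164403) (nat_lit 256) (.e (nat_lit 57373) (nat_lit 2) (.e (nat_lit 90172) (nat_lit 14) (.e (nat_lit 180244) (nat_lit 5) (.e (nat_lit 532513) (nat_lit 3) .nil))))) .nil))) (.nd (nat_lit 5) 
(.lf (nat_lit 260639) (.g (nat_lit 2126) (.e (nat_lit 164403) (nat_lit 256) (.e (nat_lit 57373) (nat_lit 2) (.e (nat_lit 90170) (nat_lit 13) (.e (nat_lit 172067) (nat_lit 3) (.e (nat_lit 204837) (nat_lit 20) .nil))))) .nil)) 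
(.lf (nat_lit 260671) (.g (nat_lit 5338) (.e (nat_lit 164403) (nat_lit 256) (.e (nat_lit 57373) (nat_lit 2) (.e (nat_lit 90174) (nat_lit 14) (.e (nat_lit 180243) (nat_lit 5) (.e (nat_lit 532513) (nat_lit 3) (.e (nat_lit 114708) (nat_lit 20) (.e (nat_lit 1800) (nat_lit 119) (.e (nat_lit 516119) (nat_lit 1) .nil)))))))) (.g (nat_lit 0) .nil .nil)))))))))

noncomputable def tv3367 : DT := (.nd (nat_lit 0) (.nd (nat_lit 1) (.nd (nat_lit 2) (.nd (nat_lit 3) (.nd (nat_lit 4) (.nd (nat_lit 5) 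
(.lf (nat_lit 260672) (.g (nat_lit 3719) (.e (nat_lit 164403) (nat_lit 256) (.e (nat_lit 57373) (nat_lit 2) (.e (nat_lit 90174) (nat_lit 14) (.e (nat_lit 180243) (nat_lit 5) (.e (nat_lit 532513) (nat_lit 3) (.e (nat_lit 114718) (nat_lit 23) (.e (nat_lit 98332) (nat_lit 18) .nil))))))) (.g (nat_lit 5) .nil .nil))) 
(.lf (nat_lit 260704) (.g (nat_lit 557) (.e (nat_lit 164403) (nat_lit 256) (.e (nat_lit 57378) (nat_lit 3) (.e (nat_lit 98359) (nat_lit 26) .nil))) .nil))) (.nd (nat_lit 5) 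
(.lf (nat_lit 260688) (.g (nat_lit 2033) (.e (nat_lit 164403) (nat_lit 256) (.e (nat_lit 57377) (nat_lit 3) (.e (nat_lit 98356) (nat_lit 26) (.e (nat_lit 426131) (nat_lit 3) .nil)))) .nil)) 
(.lf (nat_lit 260720) (.g (nat_lit 3791) (.e (nat_lit 164403) (nat_lit 256) (.e (nat_lit 57378) (nat_lit 3) (.e (nat_lit 98373) (nat_lit 29) (.e (nat_lit 450562) (nat_lit 0) (.e (nat_lit 6595) (nat_lit 351) .nil))))) .nil)))) (.nd (nat_lit 4) (.nd (nat_lit 5) 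
(.lf (nat_lit 260680) (.g (nat_lit 331) (.e (nat_lit 164403) (nat_lit 256) (.e (nat_lit 57373) (nat_lit 2) (.e (nat_lit 90178) (nat_lit 15) .nil))) .nil)) 
(.lf (nat_lit 260712) (.g (nat_lit 4052) (.e (nat_lit 164403) (nat_lit 256) (.e (nat_lit 57378) (nat_lit 3) (.e (nat_lit 98367) (nat_lit 27) (.e (nat_lit 434231) (nat_lit 23) (.e (nat_lit 532483) (nat_lit 0) (.e (nat_lit 2198) (nat_lit 144) (.e (nat_lit 720945) (nat_lit 23) (.e (nat_lit 98335) (nat_lit 18) .nil)))))))) (.g (nat_lit 4) .nil .nil)))) (.nd (nat_lit 5) 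
(.lf (nat_lit 260696) (.g (nat_lit 3369) (.e (nat_lit 164403) (nat_lit 256) (.e (nat_lit 57378) (nat_lit 3) (.e (nat_lit 98350) (nat_lit 24) (.e (nat_lit 409602) (nat_lit 0) (.e (nat_lit 5629) (nat_lit 312) .nil))))) .nil)) 
(.lf (nat_lit 260728) (.g (nat_lit 2424) (.e (nat_lit 164403) (nat_lit 256) (.e (nat_lit 57378) (nat_lit 3) (.e (nat_lit 98377) (nat_lit 30) (.e (nat_lit 458789) (nat_lit 23) (.e (nat_lit 532515) (nat_lit 3) (.e (nat_lit 114716) (nat_lit 22) (.e (nat_lit 90137) (nat_lit 9) (.e (nat_lit 2609) (nat_lit 163) .nil)))))))) (.g (nat_lit 4) .nil .nil)))))) 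
(.nd (nat_lit 3) (.nd (nat_lit 4) (.nd (nat_lit 5) 
(.lf (nat_lit 260676) (.g (nat_lit 2921) (.e (nat_lit 164403) (nat_lit 256) (.e (nat_lit 57373) (nat_lit 2) (.e (nat_lit 90176) (nat_lit 15) (.e (nat_lit 188431) (nat_lit 20) (.e (nat_lit 3571) (nat_lit 222) (.e (nat_lit 737302) (nat_lit 10) (.e (nat_lit 311309) (nat_lit 1) .nil))))))) (.g (nat_lit 5) .nil .nil))) 
(.lf (nat_lit 260708) (.g (nat_lit 4064) (.e (nat_lit 164403) (nat_lit 256) (.e (nat_lit 57378) (nat_lit 3) (.e (nat_lit 98366) (nat_lit 27) (.e (nat_lit 434231) (nat_lit 23) (.e (nat_lit 532483) (nat_lit 0) (.e (nat_lit 2198) (nat_lit 144) (.e (nat_lit 720945) (nat_lit 23) (.e (nat_lit 98335) (nat_lit 18) .nil)))))))) (.g (nat_lit 4) .nil .nil)))) (.nd (nat_lit 5) 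
(.lf (nat_lit 260692) (.g (nat_lit 887) (.e (nat_lit 164403) (nat_lit 256) (.e (nat_lit 57377) (nat_lit 3) (.e (nat_lit 98374) (nat_lit 29) .nil))) .nil)) 
(.lf (nat_lit 260724) (.g (nat_lit 1545) (.e (nat_lit 164403) (nat_lit 256) (.e (nat_lit 57378) (nat_lit 3) (.e (nat_lit 98373) (nat_lit 29) (.e (nat_lit 458496) (nat_lit 26) .nil)))) .nil)))) (.nd (nat_lit 4) (.nd (nat_lit 5) 
(.lf (nat_lit 260684) (.g (nat_lit 767) (.e (nat_lit 164403) (nat_lit 256) (.e (nat_lit 57373) (nat_lit 2) (.e (nat_lit 90184) (nat_lit 17) (.e (nat_lit 237623) (nat_lit 13) .nil)))) .nil)) 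
(.lf (nat_lit 260716) (.g (nat_lit 2125) (.e (nat_lit 164403) (nat_lit 256) (.e (nat_lit 57378) (nat_lit 3) (.e (nat_lit 98367) (nat_lit 27) (.e (nat_lit 434234) (nat_lit 23) (.e (nat_lit 532515) (nat_lit 3) .nil))))) .nil))) (.nd (nat_lit 5) 
(.lf (nat_lit 260700) (.g (nat_lit 2178) (.e (nat_lit 164403) (nat_lit 256) (.e (nat_lit 57378) (nat_lit 3) (.e (nat_lit 98356) (nat_lit 26) (.e (nat_lit 426323) (nat_lit 13) (.e (nat_lit 483336) (nat_lit 9) .nil))))) .nil)) 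
(.lf (nat_lit 260732) (.g (nat_lit 385) (.e (nat_lit 164403) (nat_lit 256) (.e (nat_lit 57378) (nat_lit 3) (.e (nat_lit 98381) (nat_lit 31) .nil))) .nil)))))) (.nd (nat_lit 2) (.nd (nat_lit 3) (.nd (nat_lit 4) (.nd (nat_lit 5) 
(.lf (nat_lit 260674) (.g (nat_lit 1782) (.e (nat_lit 164403) (nat_lit 256) (.e (nat_lit 57373) (nat_lit 2) (.e (nat_lit 90174) (nat_lit 14) (.e (nat_lit 188160) (nat_lit 40) .nil)))) .nil)) 
(.lf (nat_lit 260706) (.g (nat_lit 1659) (.e (nat_lit 164403) (nat_lit 256) (.e (nat_lit 57378) (nat_lit 3) (.e (nat_lit 98365) (nat_lit 26) (.e (nat_lit 426324) (nat_lit 13) .nil)))) .nil))) (.nd (nat_lit 5) 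
(.lf (nat_lit 260690) (.g (nat_lit 1612) (.e (nat_lit 164403) (nat_lit 256) (.e (nat_lit 57377) (nat_lit 3) (.e (nat_lit 98359) (nat_lit 26) (.e (nat_lit 426330) (nat_lit 13) .nil)))) .nil)) 
(.lf (nat_lit 260722) (.g (nat_lit 1860) (.e (nat_lit 164403) (nat_lit 256) (.e (nat_lit 57378) (nat_lit 3) (.e (nat_lit 98373) (nat_lit 29) (.e (nat_lit 450602) (nat_lit 22) .nil)))) .nil)))) (.nd (nat_lit 4) (.nd (nat_lit 5) 
(.lf (nat_lit 260682) (.g (nat_lit 1707) (.e (nat_lit 164403) (nat_lit 256) (.e (nat_lit 57373) (nat_lit 2) (.e (nat_lit 90178) (nat_lit 15) (.e (nat_lit 188459) (nat_lit 26) .nil)))) .nil)) 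
(.lf (nat_lit 260714) (.g (nat_lit 1883) (.e (nat_lit 164403) (nat_lit 256) (.e (nat_lit 57378) (nat_lit 3) (.e (nat_lit 98367) (nat_lit 27) (.e (nat_lit 434232) (nat_lit 23) .nil)))) .nil))) (.nd (nat_lit 5) 
(.lf (nat_lit 260698) (.g (nat_lit 3012) (.e (nat_lit 164403) (nat_lit 256) (.e (nat_lit 57378) (nat_lit 3) (.e (nat_lit 98356) (nat_lit 26) (.e (nat_lit 426131) (nat_lit 3) (.e (nat_lit 204838) (nat_lit 20) (.e (nat_lit 114716) (nat_lit 22) (.e (nat_lit 90140) (nat_lit 9) (.e (nat_lit 2611) (nat_lit 163) .nil)))))))) (.g (nat_lit 4) .nil .nil))) 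
(.lf (nat_lit 260730) (.g (nat_lit 385) (.e (nat_lit 164403) (nat_lit 256) (.e (nat_lit 57378) (nat_lit 3) (.e (nat_lit 98380) (nat_lit 31) .nil))) .nil))))) (.nd (nat_lit 3) (.nd (nat_lit 4) (.nd (nat_lit 5) 
(.lf (nat_lit 260678) (.g (nat_lit 518) (.e (nat_lit 164403) (nat_lit 256) (.e (nat_lit 57373) (nat_lit 2) (.e (nat_lit 90177) (nat_lit 15) .nil))) .nil)) 
(.lf (nat_lit 260710) (.g (nat_lit 2126) (.e (nat_lit 164403) (nat_lit 256) (.e (nat_lit 57378) (nat_lit 3) (.e (nat_lit 98366) (nat_lit 27) (.e (nat_lit 434231) (nat_lit 23) (.e (nat_lit 532507) (nat_lit 2) .nil))))) .nil))) (.nd (nat_lit 5) 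
(.lf (nat_lit 260694) (.g (nat_lit 1261) (.e (nat_lit 164403) (nat_lit 256) (.e (nat_lit 57378) (nat_lit 3) (.e (nat_lit 98333) (nat_lit 18) .nil))) .nil)) 
(.lf (nat_lit 260726) (.g (nat_lit 1012) (.e (nat_lit 164403) (nat_lit 256) (.e (nat_lit 57378) (nat_lit 3) (.e (nat_lit 98374) (nat_lit 29) .nil))) .nil)))) (.nd (nat_lit 4) (.nd (nat_lit 5) 
(.lf (nat_lit 260686) (.g (nat_lit 1464) (.e (nat_lit 164403) (nat_lit 256) (.e (nat_lit 57373) (nat_lit 2) (.e (nat_lit 90185) (nat_lit 17) (.e (nat_lit 237594) (nat_lit 3) .nil)))) .nil)) 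
(.lf (nat_lit 260718) (.g (nat_lit 3212) (.e (nat_lit 164403) (nat_lit 256) (.e (nat_lit 57378) (nat_lit 3) (.e (nat_lit 98370) (nat_lit 28) (.e (nat_lit 442390) (nat_lit 11) (.e (nat_lit 336387) (nat_lit 27) (.e (nat_lit 426107) (nat_lit 1) .nil)))))) (.g (nat_lit 0) .nil .nil)))) (.nd (nat_lit 5) 
(.lf (nat_lit 260702) (.g (nat_lit 2457) (.e (nat_lit 164403) (nat_lit 256) (.e (nat_lit 57378) (nat_lit 3) (.e (nat_lit 98356) (nat_lit 26) (.e (nat_lit 426438) (nat_lit 18) (.e (nat_lit 98377) (nat_lit 30) .nil))))) .nil)) 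
(.lf (nat_lit 260734) (.g (nat_lit 2689) (.e (nat_lit 164403) (nat_lit 256) (.e (nat_lit 57378) (nat_lit 3) (.e (nat_lit 98384) (nat_lit 32) (.e (nat_lit 475177) (nat_lit 24) (.e (nat_lit 516149) (nat_lit 9) .nil))))) .nil))))))) (.nd (nat_lit 1) (.nd (nat_lit 2) (.nd (nat_lit 3) (.nd (nat_lit 4) (.nd (nat_lit 5) 
(.lf (nat_lit 260673) (.g (nat_lit 5451) (.e (nat_lit 164403) (nat_lit 256) (.e (nat_lit 57373) (nat_lit 2) (.e (nat_lit 90174) (nat_lit 14) (.e (nat_lit 180243) (nat_lit 5) (.e (nat_lit 532513) (nat_lit 3) (.e (nat_lit 114719) (nat_lit 23) (.e (nat_lit 98334) (nat_lit 18) .nil))))))) (.g (nat_lit 7) .nil .nil))) 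
(.lf (nat_lit 260705) (.g (nat_lit 2623) (.e (nat_lit 164403) (nat_lit 256) (.e (nat_lit 57378) (nat_lit 3) (.e (nat_lit 98365) (nat_lit 26) (.e (nat_lit 426188) (nat_lit 9) (.e (nat_lit 426566) (nat_lit 34) (.e (nat_lit 393250) (nat_lit 18) .nil)))))) (.g (nat_lit 4) .nil .nil)))) (.nd (nat_lit 5) 
(.lf (nat_lit 260689) (.g (nat_lit 2726) (.e (nat_lit 164403) (nat_lit 256) (.e (nat_lit 57377) (nat_lit 3) (.e (nat_lit 98356) (nat_lit 26) (.e (nat_lit 426131) (nat_lit 3) (.e (nat_lit 204838) (nat_lit 20) .nil))))) .nil)) 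
(.lf (nat_lit 260721) (.g (nat_lit 3878) (.e (nat_lit 164403) (nat_lit 256) (.e (nat_lit 57378) (nat_lit 3) (.e (nat_lit 98373) (nat_lit 29) (.e (nat_lit 450563) (nat_lit 0) (.e (nat_lit 6595) (nat_lit 351) .nil))))) .nil)))) (.nd (nat_lit 4) (.nd (nat_lit 5) 
(.lf (nat_lit 260681) (.g (nat_lit 1772) (.e (nat_lit 164403) (nat_lit 256) (.e (nat_lit 57373) (nat_lit 2) (.e (nat_lit 90178) (nat_lit 15) (.e (nat_lit 188428) (nat_lit 20) .nil)))) .nil)) 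
(.lf (nat_lit 260713) (.g (nat_lit 2373) (.e (nat_lit 164403) (nat_lit 256) (.e (nat_lit 57378) (nat_lit 3) (.e (nat_lit 98367) (nat_lit 27) (.e (nat_lit 434231) (nat_lit 23) (.e (nat_lit 532507) (nat_lit 2) .nil))))) .nil))) (.nd (nat_lit 5) 
(.lf (nat_lit 260697) (.g (nat_lit 2073) (.e (nat_lit 164403) (nat_lit 256) (.e (nat_lit 57378) (nat_lit 3) (.e (nat_lit 98355) (nat_lit 26) (.e (nat_lit 426131) (nat_lit 3) (.e (nat_lit 204838) (nat_lit 20) .nil))))) .nil)) 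
(.lf (nat_lit 260729) (.g (nat_lit 2724) (.e (nat_lit 164403) (nat_lit 256) (.e (nat_lit 57378) (nat_lit 3) (.e (nat_lit 98378) (nat_lit 30) (.e (nat_lit 458789) (nat_lit 23) (.e (nat_lit 532515) (nat_lit 3) .nil))))) .nil))))) (.nd (nat_lit 3) (.nd (nat_lit 4) (.nd (nat_lit 5) 
(.lf (nat_lit 260677) (.g (nat_lit 3201) (.e (nat_lit 164403) (nat_lit 256) (.e (nat_lit 57373) (nat_lit 2) (.e (nat_lit 90176) (nat_lit 15) (.e (nat_lit 188431) (nat_lit 20) (.e (nat_lit 3572) (nat_lit 222) (.e (nat_lit 737302) (nat_lit 10) (.e (nat_lit 311309) (nat_lit 1) .nil))))))) (.g (nat_lit 5) .nil .nil))) 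
(.lf (nat_lit 260709) (.g (nat_lit 2468) (.e (nat_lit 164403) (nat_lit 256) (.e (nat_lit 57378) (nat_lit 3) (.e (nat_lit 98366) (nat_lit 27) (.e (nat_lit 434231) (nat_lit 23) (.e (nat_lit 532506) (nat_lit 2) .nil))))) .nil))) (.nd (nat_lit 5) 
(.lf (nat_lit 260693) (.g (nat_lit 1859) (.e (nat_lit 164403) (nat_lit 256) (.e (nat_lit 57377) (nat_lit 3) (.e (nat_lit 98377) (nat_lit 30) (.e (nat_lit 458789) (nat_lit 23) (.e (nat_lit 532515) (nat_lit 3) .nil))))) .nil)) 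
(.lf (nat_lit 260725) (.g (nat_lit 1874) (.e (nat_lit 164403) (nat_lit 256) (.e (nat_lit 57378) (nat_lit 3) (.e (nat_lit 98373) (nat_lit 29) (.e (nat_lit 450605) (nat_lit 27) .nil)))) .nil)))) (.nd (nat_lit 4) (.nd (nat_lit 5) 
(.lf (nat_lit 260685) (.g (nat_lit 1192) (.e (nat_lit 164403) (nat_lit 256) (.e (nat_lit 57373) (nat_lit 2) (.e (nat_lit 90185) (nat_lit 17) (.e (nat_lit 237592) (nat_lit 3) .nil)))) .nil)) 
(.lf (nat_lit 260717) (.g (nat_lit 3023) (.e (nat_lit 164403) (nat_lit 256) (.e (nat_lit 57378) (nat_lit 3) (.e (nat_lit 98369) (nat_lit 28) (.e (nat_lit 442390) (nat_lit 11) (.e (nat_lit 336387) (nat_lit 27) (.e (nat_lit 426107) (nat_lit 1) .nil)))))) (.g (nat_lit 0) .nil .nil)))) (.nd (nat_lit 5) 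
(.lf (nat_lit 260701) (.g (nat_lit 1786) (.e (nat_lit 164403) (nat_lit 256) (.e (nat_lit 57378) (nat_lit 3) (.e (nat_lit 98356) (nat_lit 26) (.e (nat_lit 426438) (nat_lit 18) .nil)))) .nil)) 
(.lf (nat_lit 260733) (.g (nat_lit 1124) (.e (nat_lit 164403) (nat_lit 256) (.e (nat_lit 57378) (nat_lit 3) (.e (nat_lit 98384) (nat_lit 32) .nil))) .nil)))))) (.nd (nat_lit 2) (.nd (nat_lit 3) (.nd (nat_lit 4) (.nd (nat_lit 5) 
(.lf (nat_lit 260675) (.g (nat_lit 309) (.e (nat_lit 164403) (nat_lit 256) (.e (nat_lit 57373) (nat_lit 2) (.e (nat_lit 90176) (nat_lit 15) .nil))) .nil)) 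
(.lf (nat_lit 260707) (.g (nat_lit 885) (.e (nat_lit 164403) (nat_lit 256) (.e (nat_lit 57378) (nat_lit 3) (.e (nat_lit 98366) (nat_lit 27) .nil))) .nil))) (.nd (nat_lit 5) 
(.lf (nat_lit 260691) (.g (nat_lit 888) (.e (nat_lit 164403) (nat_lit 256) (.e (nat_lit 57377) (nat_lit 3) (.e (nat_lit 98372) (nat_lit 29) .nil))) .nil)) 
(.lf (nat_lit 260723) (.g (nat_lit 3356) (.e (nat_lit 164403) (nat_lit 256) (.e (nat_lit 57378) (nat_lit 3) (.e (nat_lit 98373) (nat_lit 29) (.e (nat_lit 450602) (nat_lit 22) (.e (nat_lit 704604) (nat_lit 8) (.e (nat_lit 237585) (nat_lit 1) .nil)))))) (.g (nat_lit 4) .nil .nil))))) (.nd (nat_lit 4) (.nd (nat_lit 5) 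
(.lf (nat_lit 260683) (.g (nat_lit 1738) (.e (nat_lit 164403) (nat_lit 256) (.e (nat_lit 57373) (nat_lit 2) (.e (nat_lit 90178) (nat_lit 15) (.e (nat_lit 188461) (nat_lit 26) .nil)))) .nil)) 
(.lf (nat_lit 260715) (.g (nat_lit 1764) (.e (nat_lit 164403) (nat_lit 256) (.e (nat_lit 57378) (nat_lit 3) (.e (nat_lit 98367) (nat_lit 27) (.e (nat_lit 434234) (nat_lit 23) .nil)))) .nil))) (.nd (nat_lit 5) 
(.lf (nat_lit 260699) (.g (nat_lit 3889) (.e (nat_lit 164403) (nat_lit 256) (.e (nat_lit 57378) (nat_lit 3) (.e (nat_lit 98356) (nat_lit 26) (.e (nat_lit 426131) (nat_lit 3) (.e (nat_lit 204838) (nat_lit 20) (.e (nat_lit 114719) (nat_lit 23) (.e (nat_lit 98334) (nat_lit 18) .nil))))))) (.g (nat_lit 5) .nil .nil))) 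
(.lf (nat_lit 260731) (.g (nat_lit 3086) (.e (nat_lit 164403) (nat_lit 256) (.e (nat_lit 57378) (nat_lit 3) (.e (nat_lit 98380) (nat_lit 31) (.e (nat_lit 466954) (nat_lit 11) (.e (nat_lit 336387) (nat_lit 27) (.e (nat_lit 426107) (nat_lit 1) .nil)))))) (.g (nat_lit 0) .nil .nil)))))) (.nd (nat_lit 3) (.nd (nat_lit 4) (.nd (nat_lit 5) 
(.lf (nat_lit 260679) (.g (nat_lit 1312) (.e (nat_lit 164403) (nat_lit 256) (.e (nat_lit 57373) (nat_lit 2) (.e (nat_lit 90177) (nat_lit 15) (.e (nat_lit 188461) (nat_lit 26) (.e (nat_lit 261888) (nat_lit 8) .nil))))) .nil)) 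
(.lf (nat_lit 260711) (.g (nat_lit 2093) (.e (nat_lit 164403) (nat_lit 256) (.e (nat_lit 57378) (nat_lit 3) (.e (nat_lit 98366) (nat_lit 27) (.e (nat_lit 434231) (nat_lit 23) (.e (nat_lit 532514) (nat_lit 3) .nil))))) .nil))) (.nd (nat_lit 5) 
(.lf (nat_lit 260695) (.g (nat_lit 1249) (.e (nat_lit 164403) (nat_lit 256) (.e (nat_lit 57378) (nat_lit 3) (.e (nat_lit 98334) (nat_lit 18) .nil))) .nil)) 
(.lf (nat_lit 260727) (.g (nat_lit 1565) (.e (nat_lit 164403) (nat_lit 256) (.e (nat_lit 57378) (nat_lit 3) (.e (nat_lit 98377) (nat_lit 30) (.e (nat_lit 458789) (nat_lit 23) (.e (nat_lit 532515) (nat_lit 3) .nil))))) .nil)))) (.nd (nat_lit 4) (.nd (nat_lit 5) 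
(.lf (nat_lit 260687) (.g (nat_lit 1660) (.e (nat_lit 164403) (nat_lit 256) (.e (nat_lit 57373) (nat_lit 2) (.e (nat_lit 90185) (nat_lit 17) (.e (nat_lit 237602) (nat_lit 9) .nil)))) .nil)) 
(.lf (nat_lit 260719) (.g (nat_lit 1360) (.e (nat_lit 164403) (nat_lit 256) (.e (nat_lit 57378) (nat_lit 3) (.e (nat_lit 98372) (nat_lit 29) (.e (nat_lit 458496) (nat_lit 26) .nil)))) .nil))) (.nd (nat_lit 5) 
(.lf (nat_lit 260703) (.g (nat_lit 1077) (.e (nat_lit 164403) (nat_lit 256) (.e (nat_lit 57378) (nat_lit 3) (.e (nat_lit 98357) (nat_lit 26) .nil))) .nil)) 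
(.lf (nat_lit 260735) (.g (nat_lit 2372) (.e (nat_lit 164403) (nat_lit 256) (.e (nat_lit 57378) (nat_lit 3) (.e (nat_lit 98384) (nat_lit 32) (.e (nat_lit 475179) (nat_lit 24) .nil)))) .nil))))))))

noncomputable def tv3368 : DT := (.nd (nat_lit 0) (.nd (nat_lit 1) (.nd (nat_lit 2) (.nd (nat_lit 3) (.nd (nat_lit 4) (.nd (nat_lit 5) 
(.lf (nat_lit 260736) (.g (nat_lit 1260) (.e (nat_lit 164403) (nat_lit 256) (.e (nat_lit 57378) (nat_lit 3) (.e (nat_lit 98386) (nat_lit 32) .nil))) .nil)) 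
(.lf (nat_lit 260768) (.g (nat_lit 1690) (.e (nat_lit 164403) (nat_lit 256) (.e (nat_lit 57400) (nat_lit 10) (.e (nat_lit 319531) (nat_lit 16) (.e (nat_lit 286743) (nat_lit 9) (.e (nat_lit 336444) (nat_lit 32) .nil))))) .nil))) (.nd (nat_lit 5) 
(.lf (nat_lit 260752) (.g (nat_lit 389) (.e (nat_lit 164403) (nat_lit 256) (.e (nat_lit 57400) (nat_lit 10) (.e (nat_lit 319504) (nat_lit 10) .nil))) .nil)) 
(.lf (nat_lit 260784) (.g (nat_lit 1920) (.e (nat_lit 164403) (nat_lit 256) (.e (nat_lit 57400) (nat_lit 10) (.e (nat_lit 319533) (nat_lit 16) (.e (nat_lit 286760) (nat_lit 13) (.e (nat_lit 393270) (nat_lit 23) .nil))))) .nil)))) (.nd (nat_lit 4) (.nd (nat_lit 5) 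
(.lf (nat_lit 260744) (.g (nat_lit 2889) (.e (nat_lit 164403) (nat_lit 256) (.e (nat_lit 57389) (nat_lit 5) (.e (nat_lit 114716) (nat_lit 22) (.e (nat_lit 90158) (nat_lit 11) (.e (nat_lit 24648) (nat_lit 12) (.e (nat_lit 385066) (nat_lit 26) (.e (nat_lit 540416) (nat_lit 18) .nil))))))) (.g (nat_lit 5) .nil .nil))) 
(.lf (nat_lit 260776) (.g (nat_lit 3087) (.e (nat_lit 164403) (nat_lit 256) (.e (nat_lit 57400) (nat_lit 10) (.e (nat_lit 319531) (nat_lit 16) (.e (nat_lit 286761) (nat_lit 13) (.e (nat_lit 393281) (nat_lit 23) (.e (nat_lit 426100) (nat_lit 1) .nil)))))) (.g (nat_lit 5) .nil .nil)))) (.nd (nat_lit 5) 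
(.lf (nat_lit 260760) (.g (nat_lit 2601) (.e (nat_lit 164403) (nat_lit 256) (.e (nat_lit 57400) (nat_lit 10) (.e (nat_lit 319528) (nat_lit 16) (.e (nat_lit 286761) (nat_lit 13) (.e (nat_lit 393275) (nat_lit 23) (.e (nat_lit 426109) (nat_lit 1) .nil)))))) (.g (nat_lit 4) .nil .nil))) 
(.lf (nat_lit 260792) (.g (nat_lit 3124) (.e (nat_lit 164403) (nat_lit 256) (.e (nat_lit 57400) (nat_lit 10) (.e (nat_lit 319533) (nat_lit 16) (.e (nat_lit 286761) (nat_lit 13) (.e (nat_lit 393270) (nat_lit 23) (.e (nat_lit 433920) (nat_lit 1) .nil)))))) (.g (nat_lit 5) .nil .nil)))))) (.nd (nat_lit 3) (.nd (nat_lit 4) (.nd (nat_lit 5) 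
(.lf (nat_lit 260740) (.g (nat_lit 4129) (.e (nat_lit 164403) (nat_lit 256) (.e (nat_lit 57389) (nat_lit 5) (.e (nat_lit 114714) (nat_lit 22) (.e (nat_lit 90160) (nat_lit 11) (.e (nat_lit 24617) (nat_lit 7) (.e (nat_lit 319505) (nat_lit 10) (.e (nat_lit 584) (nat_lit 43) (.e (nat_lit 516119) (nat_lit 1) .nil)))))))) (.g (nat_lit 6) .nil .nil))) 
(.lf (nat_lit 260772) (.g (nat_lit 3197) (.e (nat_lit 164403) (nat_lit 256) (.e (nat_lit 57400) (nat_lit 10) (.e (nat_lit 319531) (nat_lit 16) (.e (nat_lit 286761) (nat_lit 13) (.e (nat_lit 393270) (nat_lit 23) (.e (nat_lit 426111) (nat_lit 1) .nil)))))) (.g (nat_lit 6) .nil .nil)))) (.nd (nat_lit 5) 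
(.lf (nat_lit 260756) (.g (nat_lit 3462) (.e (nat_lit 164403) (nat_lit 256) (.e (nat_lit 57400) (nat_lit 10) (.e (nat_lit 319528) (nat_lit 16) (.e (nat_lit 286761) (nat_lit 13) (.e (nat_lit 393234) (nat_lit 17) (.e (nat_lit 7355) (nat_lit 388) (.e (nat_lit 2608) (nat_lit 163) .nil))))))) (.g (nat_lit 5) .nil .nil))) 
(.lf (nat_lit 260788) (.g (nat_lit 2564) (.e (nat_lit 164403) (nat_lit 256) (.e (nat_lit 57400) (nat_lit 10) (.e (nat_lit 319533) (nat_lit 16) (.e (nat_lit 286761) (nat_lit 13) (.e (nat_lit 393266) (nat_lit 23) .nil))))) .nil)))) (.nd (nat_lit 4) (.nd (nat_lit 5) 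
(.lf (nat_lit 260748) (.g (nat_lit 565) (.e (nat_lit 164403) (nat_lit 256) (.e (nat_lit 57389) (nat_lit 5) (.e (nat_lit 114719) (nat_lit 23) .nil))) .nil)) 
(.lf (nat_lit 260780) (.g (nat_lit 1923) (.e (nat_lit 164403) (nat_lit 256) (.e (nat_lit 57400) (nat_lit 10) (.e (nat_lit 319533) (nat_lit 16) (.e (nat_lit 286748) (nat_lit 9) .nil)))) .nil))) (.nd (nat_lit 5) 
(.lf (nat_lit 260764) (.g (nat_lit 2867) (.e (nat_lit 164403) (nat_lit 256) (.e (nat_lit 57400) (nat_lit 10) (.e (nat_lit 319530) (nat_lit 16) (.e (nat_lit 286761) (nat_lit 13) (.e (nat_lit 393234) (nat_lit 17) (.e (nat_lit 7322) (nat_lit 388) (.e (nat_lit 2608) (nat_lit 163) .nil))))))) (.g (nat_lit 5) .nil .nil))) 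
(.lf (nat_lit 260796) (.g (nat_lit 2810) (.e (nat_lit 164403) (nat_lit 256) (.e (nat_lit 57400) (nat_lit 10) (.e (nat_lit 319534) (nat_lit 16) (.e (nat_lit 286749) (nat_lit 9) (.e (nat_lit 336417) (nat_lit 27) (.e (nat_lit 426265) (nat_lit 9) (.e (nat_lit 426100) (nat_lit 1) .nil))))))) (.g (nat_lit 4) .nil .nil))))))) (.nd (nat_lit 2) (.nd (nat_lit 3) (.nd (nat_lit 4) (.nd (nat_lit 5) 
(.lf (nat_lit 260738) (.g (nat_lit 2069) (.e (nat_lit 164403) (nat_lit 256) (.e (nat_lit 57388) (nat_lit 5) (.e (nat_lit 114714) (nat_lit 22) (.e (nat_lit 90158) (nat_lit 11) (.e (nat_lit 24648) (nat_lit 12) (.e (nat_lit 385066) (nat_lit 26) (.e (nat_lit 540416) (nat_lit 18) .nil))))))) (.g (nat_lit 4) .nil .nil))) 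
(.lf (nat_lit 260770) (.g (nat_lit 3247) (.e (nat_lit 164403) (nat_lit 256) (.e (nat_lit 57400) (nat_lit 10) (.e (nat_lit 319531) (nat_lit 16) (.e (nat_lit 286761) (nat_lit 13) (.e (nat_lit 393234) (nat_lit 17) (.e (nat_lit 7322) (nat_lit 388) (.e (nat_lit 2608) (nat_lit 163) .nil))))))) (.g (nat_lit 5) .nil .nil)))) (.nd (nat_lit 5) 
(.lf (nat_lit 260754) (.g (nat_lit 1658) (.e (nat_lit 164403) (nat_lit 256) (.e (nat_lit 57400) (nat_lit 10) (.e (nat_lit 319504) (nat_lit 10) (.e (nat_lit 5256) (nat_lit 298) .nil)))) .nil)) 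
(.lf (nat_lit 260786) (.g (nat_lit 1811) (.e (nat_lit 164403) (nat_lit 256) (.e (nat_lit 57400) (nat_lit 10) (.e (nat_lit 319533) (nat_lit 16) (.e (nat_lit 286760) (nat_lit 13) (.e (nat_lit 393281) (nat_lit 23) .nil))))) .nil)))) (.nd (nat_lit 4) (.nd (nat_lit 5) 
(.lf (nat_lit 260746) (.g (nat_lit 2862) (.e (nat_lit 164403) (nat_lit 256) (.e (nat_lit 57389) (nat_lit 5) (.e (nat_lit 114716) (nat_lit 22) (.e (nat_lit 90158) (nat_lit 11) (.e (nat_lit 24651) (nat_lit 12) (.e (nat_lit 385066) (nat_lit 26) (.e (nat_lit 540416) (nat_lit 18) .nil))))))) (.g (nat_lit 5) .nil .nil))) 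
(.lf (nat_lit 260778) (.g (nat_lit 2498) (.e (nat_lit 164403) (nat_lit 256) (.e (nat_lit 57400) (nat_lit 10) (.e (nat_lit 319532) (nat_lit 16) (.e (nat_lit 286761) (nat_lit 13) (.e (nat_lit 393270) (nat_lit 23) (.e (nat_lit 433920) (nat_lit 1) .nil)))))) (.g (nat_lit 5) .nil .nil)))) (.nd (nat_lit 5) 
(.lf (nat_lit 260762) (.g (nat_lit 1822) (.e (nat_lit 164403) (nat_lit 256) (.e (nat_lit 57400) (nat_lit 10) (.e (nat_lit 319529) (nat_lit 16) (.e (nat_lit 286761) (nat_lit 13) (.e (nat_lit 393270) (nat_lit 23) .nil))))) .nil)) 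
(.lf (nat_lit 260794) (.g (nat_lit 2312) (.e (nat_lit 164403) (nat_lit 256) (.e (nat_lit 57400) (nat_lit 10) (.e (nat_lit 319533) (nat_lit 16) (.e (nat_lit 286761) (nat_lit 13) (.e (nat_lit 393281) (nat_lit 23) .nil))))) .nil))))) (.nd (nat_lit 3) (.nd (nat_lit 4) (.nd (nat_lit 5) 
(.lf (nat_lit 260742) (.g (nat_lit 1891) (.e (nat_lit 164403) (nat_lit 256) (.e (nat_lit 57389) (nat_lit 5) (.e (nat_lit 114716) (nat_lit 22) (.e (nat_lit 90157) (nat_lit 11) (.e (nat_lit 24648) (nat_lit 12) (.e (nat_lit 385066) (nat_lit 26) (.e (nat_lit 540416) (nat_lit 18) .nil))))))) (.g (nat_lit 4) .nil .nil))) 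
(.lf (nat_lit 260774) (.g (nat_lit 2009) (.e (nat_lit 164403) (nat_lit 256) (.e (nat_lit 57400) (nat_lit 10) (.e (nat_lit 319531) (nat_lit 16) (.e (nat_lit 286761) (nat_lit 13) (.e (nat_lit 393275) (nat_lit 23) .nil))))) .nil))) (.nd (nat_lit 5) 
(.lf (nat_lit 260758) (.g (nat_lit 2711) (.e (nat_lit 164403) (nat_lit 256) (.e (nat_lit 57400) (nat_lit 10) (.e (nat_lit 319528) (nat_lit 16) (.e (nat_lit 286761) (nat_lit 13) (.e (nat_lit 393270) (nat_lit 23) (.e (nat_lit 433920) (nat_lit 1) .nil)))))) (.g (nat_lit 5) .nil .nil))) 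
(.lf (nat_lit 260790) (.g (nat_lit 2564) (.e (nat_lit 164403) (nat_lit 256) (.e (nat_lit 57400) (nat_lit 10) (.e (nat_lit 319533) (nat_lit 16) (.e (nat_lit 286761) (nat_lit 13) (.e (nat_lit 393269) (nat_lit 23) .nil))))) .nil)))) (.nd (nat_lit 4) (.nd (nat_lit 5) 
(.lf (nat_lit 260750) (.g (nat_lit 1670) (.e (nat_lit 164403) (nat_lit 256) (.e (nat_lit 57389) (nat_lit 5) (.e (nat_lit 114719) (nat_lit 23) (.e (nat_lit 98345) (nat_lit 22) .nil)))) .nil)) 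
(.lf (nat_lit 260782) (.g (nat_lit 1786) (.e (nat_lit 164403) (nat_lit 256) (.e (nat_lit 57400) (nat_lit 10) (.e (nat_lit 319533) (nat_lit 16) (.e (nat_lit 286753) (nat_lit 10) (.e (nat_lit 344090) (nat_lit 18) .nil))))) .nil))) (.nd (nat_lit 5) 
(.lf (nat_lit 260766) (.g (nat_lit 2606) (.e (nat_lit 164403) (nat_lit 256) (.e (nat_lit 57400) (nat_lit 10) (.e (nat_lit 319530) (nat_lit 16) (.e (nat_lit 286761) (nat_lit 13) (.e (nat_lit 393270) (nat_lit 23) (.e (nat_lit 433920) (nat_lit 1) .nil)))))) (.g (nat_lit 5) .nil .nil))) 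
(.lf (nat_lit 260798) (.g (nat_lit 2399) (.e (nat_lit 164403) (nat_lit 256) (.e (nat_lit 57400) (nat_lit 10) (.e (nat_lit 319534) (nat_lit 16) (.e (nat_lit 286756) (nat_lit 10) (.e (nat_lit 344090) (nat_lit 18) .nil))))) .nil))))))) (.nd (nat_lit 1) (.nd (nat_lit 2) (.nd (nat_lit 3) (.nd (nat_lit 4) (.nd (nat_lit 5) 
(.lf (nat_lit 260737) (.g (nat_lit 2070) (.e (nat_lit 164403) (nat_lit 256) (.e (nat_lit 57378) (nat_lit 3) (.e (nat_lit 98386) (nat_lit 32) (.e (nat_lit 475227) (nat_lit 49) .nil)))) .nil)) 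
(.lf (nat_lit 260769) (.g (nat_lit 909) (.e (nat_lit 164403) (nat_lit 256) (.e (nat_lit 57400) (nat_lit 10) (.e (nat_lit 319531) (nat_lit 16) (.e (nat_lit 286761) (nat_lit 13) .nil)))) .nil))) (.nd (nat_lit 5) 
(.lf (nat_lit 260753) (.g (nat_lit 1658) (.e (nat_lit 164403) (nat_lit 256) (.e (nat_lit 57400) (nat_lit 10) (.e (nat_lit 319504) (nat_lit 10) (.e (nat_lit 818) (nat_lit 68) .nil)))) .nil)) 
(.lf (nat_lit 260785) (.g (nat_lit 1885) (.e (nat_lit 164403) (nat_lit 256) (.e (nat_lit 57400) (nat_lit 10) (.e (nat_lit 319533) (nat_lit 16) (.e (nat_lit 286760) (nat_lit 13) (.e (nat_lit 393279) (nat_lit 23) .nil))))) .nil)))) (.nd (nat_lit 4) (.nd (nat_lit 5) 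
(.lf (nat_lit 260745) (.g (nat_lit 1505) (.e (nat_lit 164403) (nat_lit 256) (.e (nat_lit 57389) (nat_lit 5) (.e (nat_lit 114716) (nat_lit 22) (.e (nat_lit 90158) (nat_lit 11) (.e (nat_lit 24650) (nat_lit 12) .nil))))) .nil)) 
(.lf (nat_lit 260777) (.g (nat_lit 2679) (.e (nat_lit 164403) (nat_lit 256) (.e (nat_lit 57400) (nat_lit 10) (.e (nat_lit 319532) (nat_lit 16) (.e (nat_lit 286761) (nat_lit 13) (.e (nat_lit 393270) (nat_lit 23) (.e (nat_lit 426111) (nat_lit 1) .nil)))))) (.g (nat_lit 5) .nil .nil)))) (.nd (nat_lit 5) 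
(.lf (nat_lit 260761) (.g (nat_lit 847) (.e (nat_lit 164403) (nat_lit 256) (.e (nat_lit 57400) (nat_lit 10) (.e (nat_lit 319529) (nat_lit 16) (.e (nat_lit 286761) (nat_lit 13) .nil)))) .nil)) 
(.lf (nat_lit 260793) (.g (nat_lit 2490) (.e (nat_lit 164403) (nat_lit 256) (.e (nat_lit 57400) (nat_lit 10) (.e (nat_lit 319533) (nat_lit 16) (.e (nat_lit 286761) (nat_lit 13) (.e (nat_lit 393275) (nat_lit 23) .nil))))) .nil))))) (.nd (nat_lit 3) (.nd (nat_lit 4) (.nd (nat_lit 5) 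
(.lf (nat_lit 260741) (.g (nat_lit 495) (.e (nat_lit 164403) (nat_lit 256) (.e (nat_lit 57389) (nat_lit 5) (.e (nat_lit 114716) (nat_lit 22) .nil))) .nil)) 
(.lf (nat_lit 260773) (.g (nat_lit 2997) (.e (nat_lit 164403) (nat_lit 256) (.e (nat_lit 57400) (nat_lit 10) (.e (nat_lit 319531) (nat_lit 16) (.e (nat_lit 286761) (nat_lit 13) (.e (nat_lit 393270) (nat_lit 23) (.e (nat_lit 433920) (nat_lit 1) .nil)))))) (.g (nat_lit 5) .nil .nil)))) (.nd (nat_lit 5) 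
(.lf (nat_lit 260757) (.g (nat_lit 2894) (.e (nat_lit 164403) (nat_lit 256) (.e (nat_lit 57400) (nat_lit 10) (.e (nat_lit 319528) (nat_lit 16) (.e (nat_lit 286761) (nat_lit 13) (.e (nat_lit 393270) (nat_lit 23) (.e (nat_lit 426111) (nat_lit 1) .nil)))))) (.g (nat_lit 5) .nil .nil))) 
(.lf (nat_lit 260789) (.g (nat_lit 2564) (.e (nat_lit 164403) (nat_lit 256) (.e (nat_lit 57400) (nat_lit 10) (.e (nat_lit 319533) (nat_lit 16) (.e (nat_lit 286761) (nat_lit 13) (.e (nat_lit 393267) (nat_lit 23) .nil))))) .nil)))) (.nd (nat_lit 4) (.nd (nat_lit 5) 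
(.lf (nat_lit 260749) (.g (nat_lit 4277) (.e (nat_lit 164403) (nat_lit 256) (.e (nat_lit 57389) (nat_lit 5) (.e (nat_lit 114719) (nat_lit 23) (.e (nat_lit 98317) (nat_lit 9) (.e (nat_lit 336194) (nat_lit 12) (.e (nat_lit 385066) (nat_lit 26) (.e (nat_lit 540416) (nat_lit 18) .nil))))))) (.g (nat_lit 6) .nil .nil))) 
(.lf (nat_lit 260781) (.g (nat_lit 1329) (.e (nat_lit 164403) (nat_lit 256) (.e (nat_lit 57400) (nat_lit 10) (.e (nat_lit 319533) (nat_lit 16) (.e (nat_lit 286753) (nat_lit 10) .nil)))) .nil))) (.nd (nat_lit 5) 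
(.lf (nat_lit 260765) (.g (nat_lit 2780) (.e (nat_lit 164403) (nat_lit 256) (.e (nat_lit 57400) (nat_lit 10) (.e (nat_lit 319530) (nat_lit 16) (.e (nat_lit 286761) (nat_lit 13) (.e (nat_lit 393270) (nat_lit 23) (.e (nat_lit 426111) (nat_lit 1) .nil)))))) (.g (nat_lit 5) .nil .nil))) 
(.lf (nat_lit 260797) (.g (nat_lit 1596) (.e (nat_lit 164403) (nat_lit 256) (.e (nat_lit 57400) (nat_lit 10) (.e (nat_lit 319534) (nat_lit 16) (.e (nat_lit 286756) (nat_lit 10) .nil)))) .nil)))))) (.nd (nat_lit 2) (.nd (nat_lit 3) (.nd (nat_lit 4) (.nd (nat_lit 5) 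
(.lf (nat_lit 260739) (.g (nat_lit 569) (.e (nat_lit 164403) (nat_lit 256) (.e (nat_lit 57389) (nat_lit 5) (.e (nat_lit 114714) (nat_lit 22) .nil))) .nil)) 
(.lf (nat_lit 260771) (.g (nat_lit 2295) (.e (nat_lit 164403) (nat_lit 256) (.e (nat_lit 57400) (nat_lit 10) (.e (nat_lit 319531) (nat_lit 16) (.e (nat_lit 286761) (nat_lit 13) (.e (nat_lit 393267) (nat_lit 23) .nil))))) .nil))) (.nd (nat_lit 5) 
(.lf (nat_lit 260755) (.g (nat_lit 3288) (.e (nat_lit 164403) (nat_lit 256) (.e (nat_lit 57400) (nat_lit 10) (.e (nat_lit 319528) (nat_lit 16) (.e (nat_lit 286761) (nat_lit 13) (.e (nat_lit 393234) (nat_lit 17) (.e (nat_lit 7345) (nat_lit 388) (.e (nat_lit 2608) (nat_lit 163) .nil))))))) (.g (nat_lit 5) .nil .nil))) 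
(.lf (nat_lit 260787) (.g (nat_lit 2086) (.e (nat_lit 164403) (nat_lit 256) (.e (nat_lit 57400) (nat_lit 10) (.e (nat_lit 319533) (nat_lit 16) (.e (nat_lit 286761) (nat_lit 13) (.e (nat_lit 393234) (nat_lit 17) .nil))))) .nil)))) (.nd (nat_lit 4) (.nd (nat_lit 5) 
(.lf (nat_lit 260747) (.g (nat_lit 1811) (.e (nat_lit 164403) (nat_lit 256) (.e (nat_lit 57389) (nat_lit 5) (.e (nat_lit 114716) (nat_lit 22) (.e (nat_lit 90159) (nat_lit 11) (.e (nat_lit 24650) (nat_lit 12) (.e (nat_lit 385066) (nat_lit 26) (.e (nat_lit 540416) (nat_lit 18) .nil))))))) (.g (nat_lit 4) .nil .nil))) 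
(.lf (nat_lit 260779) (.g (nat_lit 344) (.e (nat_lit 164403) (nat_lit 256) (.e (nat_lit 57400) (nat_lit 10) (.e (nat_lit 319533) (nat_lit 16) .nil))) .nil))) (.nd (nat_lit 5) 
(.lf (nat_lit 260763) (.g (nat_lit 1742) (.e (nat_lit 164403) (nat_lit 256) (.e (nat_lit 57400) (nat_lit 10) (.e (nat_lit 319530) (nat_lit 16) (.e (nat_lit 286743) (nat_lit 9) (.e (nat_lit 336444) (nat_lit 32) .nil))))) .nil)) 
(.lf (nat_lit 260795) (.g (nat_lit 2199) (.e (nat_lit 164403) (nat_lit 256) (.e (nat_lit 57400) (nat_lit 10) (.e (nat_lit 319534) (nat_lit 16) (.e (nat_lit 286749) (nat_lit 9) (.e (nat_lit 336388) (nat_lit 27) .nil))))) .nil))))) (.nd (nat_lit 3) (.nd (nat_lit 4) (.nd (nat_lit 5) 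
(.lf (nat_lit 260743) (.g (nat_lit 2048) (.e (nat_lit 164403) (nat_lit 256) (.e (nat_lit 57389) (nat_lit 5) (.e (nat_lit 114716) (nat_lit 22) (.e (nat_lit 90157) (nat_lit 11) (.e (nat_lit 24650) (nat_lit 12) (.e (nat_lit 385066) (nat_lit 26) (.e (nat_lit 540416) (nat_lit 18) .nil))))))) (.g (nat_lit 4) .nil .nil))) 
(.lf (nat_lit 260775) (.g (nat_lit 2421) (.e (nat_lit 164403) (nat_lit 256) (.e (nat_lit 57400) (nat_lit 10) (.e (nat_lit 319531) (nat_lit 16) (.e (nat_lit 286761) (nat_lit 13) (.e (nat_lit 393275) (nat_lit 23) (.e (nat_lit 426109) (nat_lit 1) .nil)))))) (.g (nat_lit 4) .nil .nil)))) (.nd (nat_lit 5) 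
(.lf (nat_lit 260759) (.g (nat_lit 1972) (.e (nat_lit 164403) (nat_lit 256) (.e (nat_lit 57400) (nat_lit 10) (.e (nat_lit 319528) (nat_lit 16) (.e (nat_lit 286761) (nat_lit 13) (.e (nat_lit 393275) (nat_lit 23) .nil))))) .nil)) 
(.lf (nat_lit 260791) (.g (nat_lit 3304) (.e (nat_lit 164403) (nat_lit 256) (.e (nat_lit 57400) (nat_lit 10) (.e (nat_lit 319533) (nat_lit 16) (.e (nat_lit 286761) (nat_lit 13) (.e (nat_lit 393270) (nat_lit 23) (.e (nat_lit 426111) (nat_lit 1) .nil)))))) (.g (nat_lit 5) .nil .nil))))) (.nd (nat_lit 4) (.nd (nat_lit 5) 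
(.lf (nat_lit 260751) (.g (nat_lit 2930) (.e (nat_lit 164403) (nat_lit 256) (.e (nat_lit 57399) (nat_lit 10) (.e (nat_lit 319530) (nat_lit 16) (.e (nat_lit 286761) (nat_lit 13) (.e (nat_lit 393234) (nat_lit 17) (.e (nat_lit 7355) (nat_lit 388) (.e (nat_lit 2608) (nat_lit 163) .nil))))))) (.g (nat_lit 5) .nil .nil))) 
(.lf (nat_lit 260783) (.g (nat_lit 1263) (.e (nat_lit 164403) (nat_lit 256) (.e (nat_lit 57400) (nat_lit 10) (.e (nat_lit 319533) (nat_lit 16) (.e (nat_lit 286760) (nat_lit 13) .nil)))) .nil))) (.nd (nat_lit 5) 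
(.lf (nat_lit 260767) (.g (nat_lit 2724) (.e (nat_lit 164403) (nat_lit 256) (.e (nat_lit 57400) (nat_lit 10) (.e (nat_lit 319530) (nat_lit 16) (.e (nat_lit 286761) (nat_lit 13) (.e (nat_lit 393275) (nat_lit 23) (.e (nat_lit 426109) (nat_lit 1) .nil)))))) (.g (nat_lit 4) .nil .nil))) 
(.lf (nat_lit 260799) (.g (nat_lit 1896) (.e (nat_lit 164403) (nat_lit 256) (.e (nat_lit 57400) (nat_lit 10) (.e (nat_lit 319534) (nat_lit 16) (.e (nat_lit 286760) (nat_lit 13) .nil)))) .nil))))))))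

noncomputable def tv3369 : DT := (.nd (nat_lit 0) (.nd (nat_lit 1) (.nd (nat_lit 2) (.nd (nat_lit 3) (.nd (nat_lit 4) (.nd (nat_lit 5) 
(.lf (nat_lit 260800) (.g (nat_lit 1186) (.e (nat_lit 164403) (nat_lit 256) (.e (nat_lit 57400) (nat_lit 10) (.e (nat_lit 319534) (nat_lit 16) (.e (nat_lit 286761) (nat_lit 13) .nil)))) .nil)) 
(.lf (nat_lit 260832) (.g (nat_lit 2985) (.e (nat_lit 164403) (nat_lit 256) (.e (nat_lit 57409) (nat_lit 12) (.e (nat_lit 336443) (nat_lit 32) (.e (nat_lit 466979) (nat_lit 23) (.e (nat_lit 204809) (nat_lit 9) (.e (nat_lit 426108) (nat_lit 1) .nil)))))) (.g (nat_lit 0) .nil .nil)))) (.nd (nat_lit 5) 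
(.lf (nat_lit 260816) (.g (nat_lit 2896) (.e (nat_lit 164403) (nat_lit 256) (.e (nat_lit 57406) (nat_lit 12) (.e (nat_lit 336443) (nat_lit 32) (.e (nat_lit 466977) (nat_lit 22) (.e (nat_lit 196654) (nat_lit 11) (.e (nat_lit 16408) (nat_lit 1) .nil)))))) (.g (nat_lit 5) .nil .nil))) 
(.lf (nat_lit 260848) (.g (nat_lit 1319) (.e (nat_lit 164403) (nat_lit 256) (.e (nat_lit 57435) (nat_lit 17) (.e (nat_lit 376862) (nat_lit 22) (.e (nat_lit 90158) (nat_lit 11) .nil)))) .nil)))) (.nd (nat_lit 4) (.nd (nat_lit 5) 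
(.lf (nat_lit 260808) (.g (nat_lit 1081) (.e (nat_lit 164403) (nat_lit 256) (.e (nat_lit 57400) (nat_lit 10) (.e (nat_lit 319536) (nat_lit 17) (.e (nat_lit 294938) (nat_lit 9) .nil)))) .nil)) 
(.lf (nat_lit 260840) (.g (nat_lit 2948) (.e (nat_lit 164403) (nat_lit 256) (.e (nat_lit 57412) (nat_lit 12) (.e (nat_lit 336061) (nat_lit 7) (.e (nat_lit 319531) (nat_lit 16) (.e (nat_lit 286767) (nat_lit 27) (.e (nat_lit 426107) (nat_lit 1) (.e (nat_lit 164325) (nat_lit 230) (.e (nat_lit 163864) (nat_lit 1) .nil)))))))) (.g (nat_lit 4) .nil .nil)))) (.nd (nat_lit 5) 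
(.lf (nat_lit 260824) (.g (nat_lit 2394) (.e (nat_lit 164403) (nat_lit 256) (.e (nat_lit 57408) (nat_lit 12) (.e (nat_lit 336443) (nat_lit 32) (.e (nat_lit 466974) (nat_lit 22) (.e (nat_lit 196656) (nat_lit 11) (.e (nat_lit 16405) (nat_lit 1) .nil)))))) (.g (nat_lit 5) .nil .nil))) 
(.lf (nat_lit 260856) (.g (nat_lit 858) (.e (nat_lit 164403) (nat_lit 256) (.e (nat_lit 57445) (nat_lit 19) (.e (nat_lit 393231) (nat_lit 17) (.e (nat_lit 7581) (nat_lit 405) .nil)))) .nil))))) (.nd (nat_lit 3) (.nd (nat_lit 4) (.nd (nat_lit 5) 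
(.lf (nat_lit 260804) (.g (nat_lit 3359) (.e (nat_lit 164403) (nat_lit 256) (.e (nat_lit 57400) (nat_lit 10) (.e (nat_lit 319534) (nat_lit 16) (.e (nat_lit 286761) (nat_lit 13) (.e (nat_lit 393270) (nat_lit 23) (.e (nat_lit 426111) (nat_lit 1) .nil)))))) (.g (nat_lit 5) .nil .nil))) 
(.lf (nat_lit 260836) (.g (nat_lit 2683) (.e (nat_lit 164403) (nat_lit 256) (.e (nat_lit 57412) (nat_lit 12) (.e (nat_lit 336061) (nat_lit 7) (.e (nat_lit 319531) (nat_lit 16) (.e (nat_lit 286767) (nat_lit 27) (.e (nat_lit 426098) (nat_lit 1) (.e (nat_lit 164325) (nat_lit 230) (.e (nat_lit 163861) (nat_lit 1) .nil)))))))) (.g (nat_lit 4) .nil .nil)))) (.nd (nat_lit 5) 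
(.lf (nat_lit 260820) (.g (nat_lit 2609) (.e (nat_lit 164403) (nat_lit 256) (.e (nat_lit 57406) (nat_lit 12) (.e (nat_lit 336444) (nat_lit 32) (.e (nat_lit 466977) (nat_lit 22) (.e (nat_lit 196656) (nat_lit 11) (.e (nat_lit 16405) (nat_lit 1) .nil)))))) (.g (nat_lit 5) .nil .nil))) 
(.lf (nat_lit 260852) (.g (nat_lit 1643) (.e (nat_lit 164403) (nat_lit 256) (.e (nat_lit 57436) (nat_lit 17) (.e (nat_lit 376865) (nat_lit 22) (.e (nat_lit 90157) (nat_lit 11) .nil)))) .nil)))) (.nd (nat_lit 4) (.nd (nat_lit 5) 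
(.lf (nat_lit 260812) (.g (nat_lit 2811) (.e (nat_lit 164403) (nat_lit 256) (.e (nat_lit 57406) (nat_lit 12) (.e (nat_lit 336443) (nat_lit 32) (.e (nat_lit 466974) (nat_lit 22) (.e (nat_lit 196654) (nat_lit 11) (.e (nat_lit 16408) (nat_lit 1) .nil)))))) (.g (nat_lit 5) .nil .nil))) 
(.lf (nat_lit 260844) (.g (nat_lit 3543) (.e (nat_lit 164403) (nat_lit 256) (.e (nat_lit 57427) (nat_lit 15) (.e (nat_lit 360474) (nat_lit 8) (.e (nat_lit 557091) (nat_lit 12) (.e (nat_lit 163856) (nat_lit 0) .nil))))) .nil))) (.nd (nat_lit 5) 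
(.lf (nat_lit 260828) (.g (nat_lit 411) (.e (nat_lit 164403) (nat_lit 256) (.e (nat_lit 57409) (nat_lit 12) (.e (nat_lit 336434) (nat_lit 30) .nil))) .nil)) 
(.lf (nat_lit 260860) (.g (nat_lit 1373) (.e (nat_lit 164403) (nat_lit 256) (.e (nat_lit 57445) (nat_lit 19) (.e (nat_lit 393273) (nat_lit 23) (.e (nat_lit 433920) (nat_lit 3) .nil)))) .nil)))))) (.nd (nat_lit 2) (.nd (nat_lit 3) (.nd (nat_lit 4) (.nd (nat_lit 5) 
(.lf (nat_lit 260802) (.g (nat_lit 2375) (.e (nat_lit 164403) (nat_lit 256) (.e (nat_lit 57400) (nat_lit 10) (.e (nat_lit 319534) (nat_lit 16) (.e (nat_lit 286761) (nat_lit 13) (.e (nat_lit 393266) (nat_lit 23) .nil))))) .nil)) 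
(.lf (nat_lit 260834) (.g (nat_lit 3028) (.e (nat_lit 164403) (nat_lit 256) (.e (nat_lit 57409) (nat_lit 12) (.e (nat_lit 336443) (nat_lit 32) (.e (nat_lit 466981) (nat_lit 23) (.e (nat_lit 204809) (nat_lit 9) (.e (nat_lit 426108) (nat_lit 1) .nil)))))) (.g (nat_lit 0) .nil .nil)))) (.nd (nat_lit 5) 
(.lf (nat_lit 260818) (.g (nat_lit 1988) (.e (nat_lit 164403) (nat_lit 256) (.e (nat_lit 57406) (nat_lit 12) (.e (nat_lit 336444) (nat_lit 32) (.e (nat_lit 466977) (nat_lit 22) (.e (nat_lit 196654) (nat_lit 11) (.e (nat_lit 16406) (nat_lit 1) .nil)))))) (.g (nat_lit 4) .nil .nil))) 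
(.lf (nat_lit 260850) (.g (nat_lit 2446) (.e (nat_lit 164403) (nat_lit 256) (.e (nat_lit 57435) (nat_lit 17) (.e (nat_lit 376865) (nat_lit 22) (.e (nat_lit 90160) (nat_lit 11) (.e (nat_lit 32512) (nat_lit 20) .nil))))) .nil)))) (.nd (nat_lit 4) (.nd (nat_lit 5) 
(.lf (nat_lit 260810) (.g (nat_lit 2001) (.e (nat_lit 164403) (nat_lit 256) (.e (nat_lit 57406) (nat_lit 12) (.e (nat_lit 336441) (nat_lit 32) (.e (nat_lit 466977) (nat_lit 22) (.e (nat_lit 196656) (nat_lit 11) (.e (nat_lit 16407) (nat_lit 1) .nil)))))) (.g (nat_lit 4) .nil .nil))) 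
(.lf (nat_lit 260842) (.g (nat_lit 2970) (.e (nat_lit 164403) (nat_lit 256) (.e (nat_lit 57412) (nat_lit 12) (.e (nat_lit 336061) (nat_lit 7) (.e (nat_lit 319531) (nat_lit 16) (.e (nat_lit 286767) (nat_lit 27) (.e (nat_lit 426107) (nat_lit 1) (.e (nat_lit 164327) (nat_lit 230) (.e (nat_lit 163863) (nat_lit 1) .nil)))))))) (.g (nat_lit 4) .nil .nil)))) (.nd (nat_lit 5) 
(.lf (nat_lit 260826) (.g (nat_lit 2482) (.e (nat_lit 164403) (nat_lit 256) (.e (nat_lit 57408) (nat_lit 12) (.e (nat_lit 336443) (nat_lit 32) (.e (nat_lit 466977) (nat_lit 22) (.e (nat_lit 196654) (nat_lit 11) (.e (nat_lit 16408) (nat_lit 1) .nil)))))) (.g (nat_lit 5) .nil .nil))) 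
(.lf (nat_lit 260858) (.g (nat_lit 3030) (.e (nat_lit 164403) (nat_lit 256) (.e (nat_lit 57445) (nat_lit 19) (.e (nat_lit 393234) (nat_lit 17) (.e (nat_lit 7581) (nat_lit 405) (.e (nat_lit 57480) (nat_lit 28) (.e (nat_lit 557098) (nat_lit 13) (.e (nat_lit 172061) (nat_lit 1) .nil))))))) (.g (nat_lit 4) .nil .nil)))))) (.nd (nat_lit 3) (.nd (nat_lit 4) (.nd (nat_lit 5) 
(.lf (nat_lit 260806) (.g (nat_lit 2092) (.e (nat_lit 164403) (nat_lit 256) (.e (nat_lit 57400) (nat_lit 10) (.e (nat_lit 319534) (nat_lit 16) (.e (nat_lit 286761) (nat_lit 13) (.e (nat_lit 393275) (nat_lit 23) .nil))))) .nil)) 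
(.lf (nat_lit 260838) (.g (nat_lit 3201) (.e (nat_lit 164403) (nat_lit 256) (.e (nat_lit 57412) (nat_lit 12) (.e (nat_lit 336061) (nat_lit 7) (.e (nat_lit 319531) (nat_lit 16) (.e (nat_lit 286767) (nat_lit 27) (.e (nat_lit 426098) (nat_lit 1) (.e (nat_lit 164325) (nat_lit 230) (.e (nat_lit 163864) (nat_lit 1) .nil)))))))) (.g (nat_lit 4) .nil .nil)))) (.nd (nat_lit 5) 
(.lf (nat_lit 260822) (.g (nat_lit 2458) (.e (nat_lit 164403) (nat_lit 256) (.e (nat_lit 57408) (nat_lit 12) (.e (nat_lit 336443) (nat_lit 32) (.e (nat_lit 466974) (nat_lit 22) (.e (nat_lit 196654) (nat_lit 11) (.e (nat_lit 16405) (nat_lit 1) .nil)))))) (.g (nat_lit 5) .nil .nil))) 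
(.lf (nat_lit 260854) (.g (nat_lit 1665) (.e (nat_lit 164403) (nat_lit 256) (.e (nat_lit 57436) (nat_lit 17) (.e (nat_lit 376865) (nat_lit 22) (.e (nat_lit 90159) (nat_lit 11) .nil)))) .nil)))) (.nd (nat_lit 4) (.nd (nat_lit 5) 
(.lf (nat_lit 260814) (.g (nat_lit 2956) (.e (nat_lit 164403) (nat_lit 256) (.e (nat_lit 57406) (nat_lit 12) (.e (nat_lit 336443) (nat_lit 32) (.e (nat_lit 466974) (nat_lit 22) (.e (nat_lit 196656) (nat_lit 11) (.e (nat_lit 16406) (nat_lit 1) .nil)))))) (.g (nat_lit 5) .nil .nil))) 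
(.lf (nat_lit 260846) (.g (nat_lit 2688) (.e (nat_lit 164403) (nat_lit 256) (.e (nat_lit 57427) (nat_lit 15) (.e (nat_lit 360474) (nat_lit 8) (.e (nat_lit 557093) (nat_lit 12) (.e (nat_lit 163856) (nat_lit 0) .nil))))) .nil))) (.nd (nat_lit 5) 
(.lf (nat_lit 260830) (.g (nat_lit 3054) (.e (nat_lit 164403) (nat_lit 256) (.e (nat_lit 57409) (nat_lit 12) (.e (nat_lit 336443) (nat_lit 32) (.e (nat_lit 466977) (nat_lit 22) (.e (nat_lit 196654) (nat_lit 11) (.e (nat_lit 16405) (nat_lit 1) .nil)))))) (.g (nat_lit 6) .nil .nil))) 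
(.lf (nat_lit 260862) (.g (nat_lit 2417) (.e (nat_lit 164403) (nat_lit 256) (.e (nat_lit 57445) (nat_lit 19) (.e (nat_lit 393281) (nat_lit 23) (.e (nat_lit 426115) (nat_lit 2) (.e (nat_lit 196654) (nat_lit 11) (.e (nat_lit 16405) (nat_lit 1) .nil)))))) (.g (nat_lit 5) .nil .nil)))))))) (.nd (nat_lit 1) (.nd (nat_lit 2) (.nd (nat_lit 3) (.nd (nat_lit 4) (.nd (nat_lit 5) 
(.lf (nat_lit 260801) (.g (nat_lit 2026) (.e (nat_lit 164403) (nat_lit 256) (.e (nat_lit 57400) (nat_lit 10) (.e (nat_lit 319534) (nat_lit 16) (.e (nat_lit 286761) (nat_lit 13) (.e (nat_lit 393234) (nat_lit 17) .nil))))) .nil)) 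
(.lf (nat_lit 260833) (.g (nat_lit 3073) (.e (nat_lit 164403) (nat_lit 256) (.e (nat_lit 57409) (nat_lit 12) (.e (nat_lit 336443) (nat_lit 32) (.e (nat_lit 466981) (nat_lit 23) (.e (nat_lit 204809) (nat_lit 9) (.e (nat_lit 426107) (nat_lit 1) .nil)))))) (.g (nat_lit 0) .nil .nil)))) (.nd (nat_lit 5) 
(.lf (nat_lit 260817) (.g (nat_lit 599) (.e (nat_lit 164403) (nat_lit 256) (.e (nat_lit 57406) (nat_lit 12) (.e (nat_lit 336444) (nat_lit 32) .nil))) .nil)) 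
(.lf (nat_lit 260849) (.g (nat_lit 1587) (.e (nat_lit 164403) (nat_lit 256) (.e (nat_lit 57435) (nat_lit 17) (.e (nat_lit 376865) (nat_lit 22) (.e (nat_lit 90158) (nat_lit 11) .nil)))) .nil)))) (.nd (nat_lit 4) (.nd (nat_lit 5) 
(.lf (nat_lit 260809) (.g (nat_lit 595) (.e (nat_lit 164403) (nat_lit 256) (.e (nat_lit 57406) (nat_lit 12) (.e (nat_lit 336434) (nat_lit 30) .nil))) .nil)) 
(.lf (nat_lit 260841) (.g (nat_lit 3002) (.e (nat_lit 164403) (nat_lit 256) (.e (nat_lit 57412) (nat_lit 12) (.e (nat_lit 336061) (nat_lit 7) (.e (nat_lit 319531) (nat_lit 16) (.e (nat_lit 286767) (nat_lit 27) (.e (nat_lit 426107) (nat_lit 1) (.e (nat_lit 164326) (nat_lit 230) (.e (nat_lit 163863) (nat_lit 1) .nil)))))))) (.g (nat_lit 4) .nil .nil)))) (.nd (nat_lit 5) 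
(.lf (nat_lit 260825) (.g (nat_lit 2519) (.e (nat_lit 164403) (nat_lit 256) (.e (nat_lit 57408) (nat_lit 12) (.e (nat_lit 336443) (nat_lit 32) (.e (nat_lit 466977) (nat_lit 22) (.e (nat_lit 196654) (nat_lit 11) (.e (nat_lit 16405) (nat_lit 1) .nil)))))) (.g (nat_lit 5) .nil .nil))) 
(.lf (nat_lit 260857) (.g (nat_lit 3031) (.e (nat_lit 164403) (nat_lit 256) (.e (nat_lit 57445) (nat_lit 19) (.e (nat_lit 393232) (nat_lit 17) (.e (nat_lit 7581) (nat_lit 405) (.e (nat_lit 57480) (nat_lit 28) (.e (nat_lit 557098) (nat_lit 13) (.e (nat_lit 172061) (nat_lit 1) .nil))))))) (.g (nat_lit 4) .nil .nil)))))) (.nd (nat_lit 3) (.nd (nat_lit 4) (.nd (nat_lit 5) 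
(.lf (nat_lit 260805) (.g (nat_lit 3173) (.e (nat_lit 164403) (nat_lit 256) (.e (nat_lit 57400) (nat_lit 10) (.e (nat_lit 319534) (nat_lit 16) (.e (nat_lit 286761) (nat_lit 13) (.e (nat_lit 393270) (nat_lit 23) (.e (nat_lit 433920) (nat_lit 1) .nil)))))) (.g (nat_lit 5) .nil .nil))) 
(.lf (nat_lit 260837) (.g (nat_lit 3163) (.e (nat_lit 164403) (nat_lit 256) (.e (nat_lit 57412) (nat_lit 12) (.e (nat_lit 336061) (nat_lit 7) (.e (nat_lit 319531) (nat_lit 16) (.e (nat_lit 286767) (nat_lit 27) (.e (nat_lit 426098) (nat_lit 1) (.e (nat_lit 164325) (nat_lit 230) (.e (nat_lit 163863) (nat_lit 1) .nil)))))))) (.g (nat_lit 4) .nil .nil)))) (.nd (nat_lit 5) 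
(.lf (nat_lit 260821) (.g (nat_lit 2695) (.e (nat_lit 164403) (nat_lit 256) (.e (nat_lit 57406) (nat_lit 12) (.e (nat_lit 336444) (nat_lit 32) (.e (nat_lit 466977) (nat_lit 22) (.e (nat_lit 196656) (nat_lit 11) (.e (nat_lit 16406) (nat_lit 1) .nil)))))) (.g (nat_lit 5) .nil .nil))) 
(.lf (nat_lit 260853) (.g (nat_lit 2700) (.e (nat_lit 164403) (nat_lit 256) (.e (nat_lit 57436) (nat_lit 17) (.e (nat_lit 376865) (nat_lit 22) (.e (nat_lit 90158) (nat_lit 11) (.e (nat_lit 32512) (nat_lit 20) (.e (nat_lit 221208) (nat_lit 21) .nil)))))) (.g (nat_lit 4) .nil .nil))))) (.nd (nat_lit 4) (.nd (nat_lit 5) 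
(.lf (nat_lit 260813) (.g (nat_lit 2867) (.e (nat_lit 164403) (nat_lit 256) (.e (nat_lit 57406) (nat_lit 12) (.e (nat_lit 336443) (nat_lit 32) (.e (nat_lit 466974) (nat_lit 22) (.e (nat_lit 196656) (nat_lit 11) (.e (nat_lit 16405) (nat_lit 1) .nil)))))) (.g (nat_lit 5) .nil .nil))) 
(.lf (nat_lit 260845) (.g (nat_lit 2696) (.e (nat_lit 164403) (nat_lit 256) (.e (nat_lit 57427) (nat_lit 15) (.e (nat_lit 360474) (nat_lit 8) (.e (nat_lit 557091) (nat_lit 12) (.e (nat_lit 164003) (nat_lit 40) .nil))))) .nil))) (.nd (nat_lit 5) 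
(.lf (nat_lit 260829) (.g (nat_lit 2991) (.e (nat_lit 164403) (nat_lit 256) (.e (nat_lit 57409) (nat_lit 12) (.e (nat_lit 336443) (nat_lit 32) (.e (nat_lit 466974) (nat_lit 22) (.e (nat_lit 196654) (nat_lit 11) (.e (nat_lit 16405) (nat_lit 1) .nil)))))) (.g (nat_lit 6) .nil .nil))) 
(.lf (nat_lit 260861) (.g (nat_lit 624) (.e (nat_lit 164403) (nat_lit 256) (.e (nat_lit 57445) (nat_lit 19) (.e (nat_lit 393279) (nat_lit 23) .nil))) .nil)))))) (.nd (nat_lit 2) (.nd (nat_lit 3) (.nd (nat_lit 4) (.nd (nat_lit 5) 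
(.lf (nat_lit 260803) (.g (nat_lit 2375) (.e (nat_lit 164403) (nat_lit 256) (.e (nat_lit 57400) (nat_lit 10) (.e (nat_lit 319534) (nat_lit 16) (.e (nat_lit 286761) (nat_lit 13) (.e (nat_lit 393267) (nat_lit 23) .nil))))) .nil)) 
(.lf (nat_lit 260835) (.g (nat_lit 2521) (.e (nat_lit 164403) (nat_lit 256) (.e (nat_lit 57412) (nat_lit 12) (.e (nat_lit 336061) (nat_lit 7) (.e (nat_lit 319531) (nat_lit 16) (.e (nat_lit 286767) (nat_lit 27) .nil))))) .nil))) (.nd (nat_lit 5) 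
(.lf (nat_lit 260819) (.g (nat_lit 1848) (.e (nat_lit 164403) (nat_lit 256) (.e (nat_lit 57406) (nat_lit 12) (.e (nat_lit 336444) (nat_lit 32) (.e (nat_lit 466977) (nat_lit 22) (.e (nat_lit 196654) (nat_lit 11) (.e (nat_lit 16407) (nat_lit 1) .nil)))))) (.g (nat_lit 4) .nil .nil))) 
(.lf (nat_lit 260851) (.g (nat_lit 680) (.e (nat_lit 164403) (nat_lit 256) (.e (nat_lit 57435) (nat_lit 17) (.e (nat_lit 376868) (nat_lit 23) .nil))) .nil)))) (.nd (nat_lit 4) (.nd (nat_lit 5) 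
(.lf (nat_lit 260811) (.g (nat_lit 2930) (.e (nat_lit 164403) (nat_lit 256) (.e (nat_lit 57406) (nat_lit 12) (.e (nat_lit 336443) (nat_lit 32) (.e (nat_lit 466974) (nat_lit 22) (.e (nat_lit 196654) (nat_lit 11) (.e (nat_lit 16405) (nat_lit 1) .nil)))))) (.g (nat_lit 5) .nil .nil))) 
(.lf (nat_lit 260843) (.g (nat_lit 1743) (.e (nat_lit 164403) (nat_lit 256) (.e (nat_lit 57427) (nat_lit 15) (.e (nat_lit 360474) (nat_lit 8) (.e (nat_lit 557091) (nat_lit 12) .nil)))) .nil))) (.nd (nat_lit 5) 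
(.lf (nat_lit 260827) (.g (nat_lit 2025) (.e (nat_lit 164403) (nat_lit 256) (.e (nat_lit 57409) (nat_lit 12) (.e (nat_lit 336430) (nat_lit 29) (.e (nat_lit 442427) (nat_lit 23) (.e (nat_lit 204809) (nat_lit 9) (.e (nat_lit 426105) (nat_lit 1) .nil)))))) (.g (nat_lit 4) .nil .nil))) 
(.lf (nat_lit 260859) (.g (nat_lit 1896) (.e (nat_lit 164403) (nat_lit 256) (.e (nat_lit 57445) (nat_lit 19) (.e (nat_lit 393234) (nat_lit 17) (.e (nat_lit 7583) (nat_lit 405) (.e (nat_lit 57476) (nat_lit 28) .nil))))) .nil))))) (.nd (nat_lit 3) (.nd (nat_lit 4) (.nd (nat_lit 5) 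
(.lf (nat_lit 260807) (.g (nat_lit 2682) (.e (nat_lit 164403) (nat_lit 256) (.e (nat_lit 57400) (nat_lit 10) (.e (nat_lit 319534) (nat_lit 16) (.e (nat_lit 286761) (nat_lit 13) (.e (nat_lit 393275) (nat_lit 23) (.e (nat_lit 426109) (nat_lit 1) .nil)))))) (.g (nat_lit 4) .nil .nil))) 
(.lf (nat_lit 260839) (.g (nat_lit 2699) (.e (nat_lit 164403) (nat_lit 256) (.e (nat_lit 57412) (nat_lit 12) (.e (nat_lit 336061) (nat_lit 7) (.e (nat_lit 319531) (nat_lit 16) (.e (nat_lit 286767) (nat_lit 27) (.e (nat_lit 426107) (nat_lit 1) (.e (nat_lit 164325) (nat_lit 230) (.e (nat_lit 163863) (nat_lit 1) .nil)))))))) (.g (nat_lit 4) .nil .nil)))) (.nd (nat_lit 5) 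
(.lf (nat_lit 260823) (.g (nat_lit 2424) (.e (nat_lit 164403) (nat_lit 256) (.e (nat_lit 57408) (nat_lit 12) (.e (nat_lit 336443) (nat_lit 32) (.e (nat_lit 466974) (nat_lit 22) (.e (nat_lit 196654) (nat_lit 11) (.e (nat_lit 16408) (nat_lit 1) .nil)))))) (.g (nat_lit 5) .nil .nil))) 
(.lf (nat_lit 260855) (.g (nat_lit 1118) (.e (nat_lit 164403) (nat_lit 256) (.e (nat_lit 57436) (nat_lit 17) (.e (nat_lit 376865) (nat_lit 22) (.e (nat_lit 90160) (nat_lit 11) .nil)))) .nil)))) (.nd (nat_lit 4) (.nd (nat_lit 5) 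
(.lf (nat_lit 260815) (.g (nat_lit 3018) (.e (nat_lit 164403) (nat_lit 256) (.e (nat_lit 57406) (nat_lit 12) (.e (nat_lit 336443) (nat_lit 32) (.e (nat_lit 466977) (nat_lit 22) (.e (nat_lit 196654) (nat_lit 11) (.e (nat_lit 16405) (nat_lit 1) .nil)))))) (.g (nat_lit 5) .nil .nil))) 
(.lf (nat_lit 260847) (.g (nat_lit 2411) (.e (nat_lit 164403) (nat_lit 256) (.e (nat_lit 57427) (nat_lit 15) (.e (nat_lit 360474) (nat_lit 8) (.e (nat_lit 557094) (nat_lit 12) (.e (nat_lit 163856) (nat_lit 0) .nil))))) .nil))) (.nd (nat_lit 5) 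
(.lf (nat_lit 260831) (.g (nat_lit 3305) (.e (nat_lit 164403) (nat_lit 256) (.e (nat_lit 57409) (nat_lit 12) (.e (nat_lit 336443) (nat_lit 32) (.e (nat_lit 466977) (nat_lit 22) (.e (nat_lit 196656) (nat_lit 11) (.e (nat_lit 16405) (nat_lit 1) .nil)))))) (.g (nat_lit 6) .nil .nil))) 
(.lf (nat_lit 260863) (.g (nat_lit 2418) (.e (nat_lit 164403) (nat_lit 256) (.e (nat_lit 57445) (nat_lit 19) (.e (nat_lit 393281) (nat_lit 23) (.e (nat_lit 426115) (nat_lit 2) (.e (nat_lit 196654) (nat_lit 11) (.e (nat_lit 16408) (nat_lit 1) .nil)))))) (.g (nat_lit 5) .nil .nil)))))))))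

noncomputable def tv3370 : DT := (.nd (nat_lit 0) (.nd (nat_lit 1) (.nd (nat_lit 2) (.nd (nat_lit 3) (.nd (nat_lit 4) (.nd (nat_lit 5) (.nd (nat_lit 6) 
(.lf (nat_lit 260864) (.g (nat_lit 2272) (.e (nat_lit 164403) (nat_lit 256) (.e (nat_lit 57445) (nat_lit 19) (.e (nat_lit 393281) (nat_lit 23) (.e (nat_lit 426115) (nat_lit 2) (.e (nat_lit 196656) (nat_lit 11) (.e (nat_lit 16405) (nat_lit 1) .nil)))))) (.g (nat_lit 5) .nil .nil))) 
(.lf (nat_lit 260928) (.g (nat_lit 3948) (.e (nat_lit 164403) (nat_lit 256) (.e (nat_lit 57447) (nat_lit 19) (.e (nat_lit 393271) (nat_lit 23) (.e (nat_lit 426128) (nat_lit 2) (.e (nat_lit 196656) (nat_lit 11) (.e (nat_lit 16406) (nat_lit 1) .nil)))))) (.g (nat_lit 6) .nil .nil)))) (.nd (nat_lit 6) 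
(.lf (nat_lit 260896) (.g (nat_lit 2498) (.e (nat_lit 164403) (nat_lit 256) (.e (nat_lit 57447) (nat_lit 19) (.e (nat_lit 393234) (nat_lit 17) (.e (nat_lit 7581) (nat_lit 405) (.e (nat_lit 57477) (nat_lit 28) (.e (nat_lit 557097) (nat_lit 13) (.e (nat_lit 172060) (nat_lit 1) .nil))))))) (.g (nat_lit 4) .nil .nil))) 
(.lf (nat_lit 260960) (.g (nat_lit 2164) (.e (nat_lit 164403) (nat_lit 256) (.e (nat_lit 57447) (nat_lit 19) (.e (nat_lit 393298) (nat_lit 27) (.e (nat_lit 491528) (nat_lit 0) .nil)))) .nil)))) (.nd (nat_lit 5) (.nd (nat_lit 6) 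
(.lf (nat_lit 260880) (.g (nat_lit 2838) (.e (nat_lit 164403) (nat_lit 256) (.e (nat_lit 57446) (nat_lit 19) (.e (nat_lit 393281) (nat_lit 23) (.e (nat_lit 426124) (nat_lit 2) (.e (nat_lit 196656) (nat_lit 11) (.e (nat_lit 16407) (nat_lit 1) .nil)))))) (.g (nat_lit 5) .nil .nil))) 
(.lf (nat_lit 260944) (.g (nat_lit 3244) (.e (nat_lit 164403) (nat_lit 256) (.e (nat_lit 57447) (nat_lit 19) (.e (nat_lit 393281) (nat_lit 23) (.e (nat_lit 426124) (nat_lit 2) (.e (nat_lit 196656) (nat_lit 11) (.e (nat_lit 16406) (nat_lit 1) .nil)))))) (.g (nat_lit 5) .nil .nil)))) (.nd (nat_lit 6) 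
(.lf (nat_lit 260912) (.g (nat_lit 1141) (.e (nat_lit 164403) (nat_lit 256) (.e (nat_lit 57447) (nat_lit 19) (.e (nat_lit 393260) (nat_lit 21) .nil))) .nil)) 
(.lf (nat_lit 260976) (.g (nat_lit 1341) (.e (nat_lit 171776) (nat_lit 256) (.e (nat_lit 57379) (nat_lit 3) (.e (nat_lit 98369) (nat_lit 28) (.e (nat_lit 442390) (nat_lit 11) (.e (nat_lit 336387) (nat_lit 27) .nil))))) .nil))))) (.nd (nat_lit 4) (.nd (nat_lit 5) (.nd (nat_lit 6) 
(.lf (nat_lit 260872) (.g (nat_lit 2007) (.e (nat_lit 164403) (nat_lit 256) (.e (nat_lit 57445) (nat_lit 19) (.e (nat_lit 393289) (nat_lit 25) (.e (nat_lit 458789) (nat_lit 23) (.e (nat_lit 532578) (nat_lit 26) .nil))))) .nil)) 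
(.lf (nat_lit 260936) (.g (nat_lit 3012) (.e (nat_lit 164403) (nat_lit 256) (.e (nat_lit 57447) (nat_lit 19) (.e (nat_lit 393275) (nat_lit 23) (.e (nat_lit 426125) (nat_lit 2) (.e (nat_lit 196656) (nat_lit 11) (.e (nat_lit 16406) (nat_lit 1) .nil)))))) (.g (nat_lit 4) .nil .nil)))) (.nd (nat_lit 6) 
(.lf (nat_lit 260904) (.g (nat_lit 947) (.e (nat_lit 164403) (nat_lit 256) (.e (nat_lit 57447) (nat_lit 19) (.e (nat_lit 393238) (nat_lit 17) .nil))) .nil)) 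
(.lf (nat_lit 260968) (.g (nat_lit 2482) (.e (nat_lit 164403) (nat_lit 256) (.e (nat_lit 57447) (nat_lit 19) (.e (nat_lit 393301) (nat_lit 27) (.e (nat_lit 491526) (nat_lit 0) (.e (nat_lit 1848) (nat_lit 124) .nil))))) .nil)))) (.nd (nat_lit 5) (.nd (nat_lit 6) 
(.lf (nat_lit 260888) (.g (nat_lit 2742) (.e (nat_lit 164403) (nat_lit 256) (.e (nat_lit 57447) (nat_lit 19) (.e (nat_lit 393232) (nat_lit 17) (.e (nat_lit 7581) (nat_lit 405) (.e (nat_lit 57479) (nat_lit 28) .nil))))) .nil)) 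
(.lf (nat_lit 260952) (.g (nat_lit 1114) (.e (nat_lit 164403) (nat_lit 256) (.e (nat_lit 57447) (nat_lit 19) (.e (nat_lit 393284) (nat_lit 24) (.e (nat_lit 434233) (nat_lit 23) .nil)))) .nil))) (.nd (nat_lit 6) 
(.lf (nat_lit 260920) (.g (nat_lit 1904) (.e (nat_lit 164403) (nat_lit 256) (.e (nat_lit 57447) (nat_lit 19) (.e (nat_lit 393266) (nat_lit 23) (.e (nat_lit 426140) (nat_lit 3) (.e (nat_lit 204809) (nat_lit 9) .nil))))) .nil)) 
(.lf (nat_lit 260984) (.g (nat_lit 883) (.e (nat_lit 164406) (nat_lit 258) (.e (nat_lit 163869) (nat_lit 2) (.e (nat_lit 204544) (nat_lit 0) .nil))) .nil)))))) (.nd (nat_lit 3) (.nd (nat_lit 4) (.nd (nat_lit 5) (.nd (nat_lit 6) 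
(.lf (nat_lit 260868) (.g (nat_lit 2733) (.e (nat_lit 164403) (nat_lit 256) (.e (nat_lit 57445) (nat_lit 19) (.e (nat_lit 393281) (nat_lit 23) (.e (nat_lit 426124) (nat_lit 2) (.e (nat_lit 196656) (nat_lit 11) (.e (nat_lit 16405) (nat_lit 1) .nil)))))) (.g (nat_lit 5) .nil .nil))) 
(.lf (nat_lit 260932) (.g (nat_lit 1274) (.e (nat_lit 164403) (nat_lit 256) (.e (nat_lit 57447) (nat_lit 19) (.e (nat_lit 393274) (nat_lit 23) (.e (nat_lit 426134) (nat_lit 3) (.e (nat_lit 204813) (nat_lit 9) .nil))))) .nil))) (.nd (nat_lit 6) 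
(.lf (nat_lit 260900) (.g (nat_lit 3948) (.e (nat_lit 164403) (nat_lit 256) (.e (nat_lit 57447) (nat_lit 19) (.e (nat_lit 393234) (nat_lit 17) (.e (nat_lit 7581) (nat_lit 405) (.e (nat_lit 57480) (nat_lit 28) (.e (nat_lit 557098) (nat_lit 13) (.e (nat_lit 172059) (nat_lit 1) .nil))))))) (.g (nat_lit 6) .nil .nil))) 
(.lf (nat_lit 260964) (.g (nat_lit 1106) (.e (nat_lit 164403) (nat_lit 256) (.e (nat_lit 57447) (nat_lit 19) (.e (nat_lit 393300) (nat_lit 27) .nil))) .nil)))) (.nd (nat_lit 5) (.nd (nat_lit 6) 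
(.lf (nat_lit 260884) (.g (nat_lit 3111) (.e (nat_lit 164403) (nat_lit 256) (.e (nat_lit 57447) (nat_lit 19) (.e (nat_lit 393232) (nat_lit 17) (.e (nat_lit 7581) (nat_lit 405) (.e (nat_lit 57476) (nat_lit 28) (.e (nat_lit 557097) (nat_lit 13) (.e (nat_lit 172059) (nat_lit 1) .nil))))))) (.g (nat_lit 4) .nil .nil))) 
(.lf (nat_lit 260948) (.g (nat_lit 1724) (.e (nat_lit 164403) (nat_lit 256) (.e (nat_lit 57447) (nat_lit 19) (.e (nat_lit 393281) (nat_lit 23) (.e (nat_lit 426137) (nat_lit 3) (.e (nat_lit 204813) (nat_lit 9) .nil))))) .nil))) (.nd (nat_lit 6) 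
(.lf (nat_lit 260916) (.g (nat_lit 4039) (.e (nat_lit 164403) (nat_lit 256) (.e (nat_lit 57447) (nat_lit 19) (.e (nat_lit 393260) (nat_lit 21) (.e (nat_lit 409617) (nat_lit 10) (.e (nat_lit 632) (nat_lit 50) (.e (nat_lit 573477) (nat_lit 12) (.e (nat_lit 57751) (nat_lit 201) (.e (nat_lit 2608) (nat_lit 163) .nil)))))))) (.g (nat_lit 4) .nil .nil))) 
(.lf (nat_lit 260980) (.g (nat_lit 1773) (.e (nat_lit 164404) (nat_lit 257) (.e (nat_lit 122916) (nat_lit 14) (.e (nat_lit 352315) (nat_lit 23) (.e (nat_lit 98314) (nat_lit 9) .nil)))) .nil))))) (.nd (nat_lit 4) (.nd (nat_lit 5) (.nd (nat_lit 6) 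
(.lf (nat_lit 260876) (.g (nat_lit 2604) (.e (nat_lit 164403) (nat_lit 256) (.e (nat_lit 57446) (nat_lit 19) (.e (nat_lit 393281) (nat_lit 23) (.e (nat_lit 426116) (nat_lit 2) (.e (nat_lit 196654) (nat_lit 11) (.e (nat_lit 16405) (nat_lit 1) .nil)))))) (.g (nat_lit 5) .nil .nil))) 
(.lf (nat_lit 260940) (.g (nat_lit 1456) (.e (nat_lit 164403) (nat_lit 256) (.e (nat_lit 57447) (nat_lit 19) (.e (nat_lit 393277) (nat_lit 23) (.e (nat_lit 426140) (nat_lit 3) (.e (nat_lit 204808) (nat_lit 9) .nil))))) .nil))) (.nd (nat_lit 6) 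
(.lf (nat_lit 260908) (.g (nat_lit 1141) (.e (nat_lit 164403) (nat_lit 256) (.e (nat_lit 57447) (nat_lit 19) (.e (nat_lit 393242) (nat_lit 17) .nil))) .nil)) 
(.lf (nat_lit 260972) (.g (nat_lit 2279) (.e (nat_lit 164403) (nat_lit 256) (.e (nat_lit 57447) (nat_lit 19) (.e (nat_lit 393301) (nat_lit 27) (.e (nat_lit 491530) (nat_lit 0) .nil)))) .nil)))) (.nd (nat_lit 5) (.nd (nat_lit 6) 
(.lf (nat_lit 260892) (.g (nat_lit 3791) (.e (nat_lit 164403) (nat_lit 256) (.e (nat_lit 57447) (nat_lit 19) (.e (nat_lit 393234) (nat_lit 17) (.e (nat_lit 7581) (nat_lit 405) (.e (nat_lit 57476) (nat_lit 28) (.e (nat_lit 557097) (nat_lit 13) (.e (nat_lit 172059) (nat_lit 1) .nil))))))) (.g (nat_lit 6) .nil .nil))) 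
(.lf (nat_lit 260956) (.g (nat_lit 2289) (.e (nat_lit 164403) (nat_lit 256) (.e (nat_lit 57447) (nat_lit 19) (.e (nat_lit 393294) (nat_lit 26) (.e (nat_lit 475182) (nat_lit 28) .nil)))) .nil))) (.nd (nat_lit 6) 
(.lf (nat_lit 260924) (.g (nat_lit 1141) (.e (nat_lit 164403) (nat_lit 256) (.e (nat_lit 57447) (nat_lit 19) (.e (nat_lit 393269) (nat_lit 23) .nil))) .nil)) 
(.lf (nat_lit 260988) (.g (nat_lit 920) (.e (nat_lit 164406) (nat_lit 258) (.e (nat_lit 163871) (nat_lit 2) (.e (nat_lit 196665) (nat_lit 13) .nil))) .nil))))))) (.nd (nat_lit 2) (.nd (nat_lit 3) (.nd (nat_lit 4) (.nd (nat_lit 5) (.nd (nat_lit 6) 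
(.lf (nat_lit 260866) (.g (nat_lit 2923) (.e (nat_lit 164403) (nat_lit 256) (.e (nat_lit 57445) (nat_lit 19) (.e (nat_lit 393281) (nat_lit 23) (.e (nat_lit 426116) (nat_lit 2) (.e (nat_lit 196654) (nat_lit 11) (.e (nat_lit 16408) (nat_lit 1) .nil)))))) (.g (nat_lit 5) .nil .nil))) 
(.lf (nat_lit 260930) (.g (nat_lit 1593) (.e (nat_lit 164403) (nat_lit 256) (.e (nat_lit 57447) (nat_lit 19) (.e (nat_lit 393271) (nat_lit 23) (.e (nat_lit 426131) (nat_lit 3) (.e (nat_lit 204810) (nat_lit 9) .nil))))) .nil))) (.nd (nat_lit 6) 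
(.lf (nat_lit 260898) (.g (nat_lit 2883) (.e (nat_lit 164403) (nat_lit 256) (.e (nat_lit 57447) (nat_lit 19) (.e (nat_lit 393234) (nat_lit 17) (.e (nat_lit 7581) (nat_lit 405) (.e (nat_lit 57479) (nat_lit 28) (.e (nat_lit 557101) (nat_lit 13) (.e (nat_lit 172060) (nat_lit 1) .nil))))))) (.g (nat_lit 4) .nil .nil))) 
(.lf (nat_lit 260962) (.g (nat_lit 3357) (.e (nat_lit 164403) (nat_lit 256) (.e (nat_lit 57447) (nat_lit 19) (.e (nat_lit 393299) (nat_lit 27) (.e (nat_lit 491526) (nat_lit 0) (.e (nat_lit 1848) (nat_lit 124) .nil))))) .nil)))) (.nd (nat_lit 5) (.nd (nat_lit 6) 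
(.lf (nat_lit 260882) (.g (nat_lit 1402) (.e (nat_lit 164403) (nat_lit 256) (.e (nat_lit 57447) (nat_lit 19) (.e (nat_lit 393231) (nat_lit 17) (.e (nat_lit 7581) (nat_lit 405) .nil)))) .nil)) 
(.lf (nat_lit 260946) (.g (nat_lit 1711) (.e (nat_lit 164403) (nat_lit 256) (.e (nat_lit 57447) (nat_lit 19) (.e (nat_lit 393281) (nat_lit 23) (.e (nat_lit 426133) (nat_lit 3) (.e (nat_lit 204811) (nat_lit 9) .nil))))) .nil))) (.nd (nat_lit 6) 
(.lf (nat_lit 260914) (.g (nat_lit 3532) (.e (nat_lit 164403) (nat_lit 256) (.e (nat_lit 57447) (nat_lit 19) (.e (nat_lit 393260) (nat_lit 21) (.e (nat_lit 409616) (nat_lit 10) (.e (nat_lit 632) (nat_lit 50) (.e (nat_lit 573477) (nat_lit 12) (.e (nat_lit 57751) (nat_lit 201) (.e (nat_lit 2608) (nat_lit 163) .nil)))))))) (.g (nat_lit 4) .nil .nil))) 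
(.lf (nat_lit 260978) (.g (nat_lit 772) (.e (nat_lit 164404) (nat_lit 257) (.e (nat_lit 122916) (nat_lit 14) (.e (nat_lit 352315) (nat_lit 23) .nil))) .nil))))) (.nd (nat_lit 4) (.nd (nat_lit 5) (.nd (nat_lit 6) 
(.lf (nat_lit 260874) (.g (nat_lit 2048) (.e (nat_lit 164403) (nat_lit 256) (.e (nat_lit 57446) (nat_lit 19) (.e (nat_lit 393281) (nat_lit 23) (.e (nat_lit 426115) (nat_lit 2) (.e (nat_lit 196654) (nat_lit 11) (.e (nat_lit 16405) (nat_lit 1) .nil)))))) (.g (nat_lit 5) .nil .nil))) 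
(.lf (nat_lit 260938) (.g (nat_lit 1048) (.e (nat_lit 164403) (nat_lit 256) (.e (nat_lit 57447) (nat_lit 19) (.e (nat_lit 393275) (nat_lit 23) (.e (nat_lit 426134) (nat_lit 3) .nil)))) .nil))) (.nd (nat_lit 6) 
(.lf (nat_lit 260906) (.g (nat_lit 1178) (.e (nat_lit 164403) (nat_lit 256) (.e (nat_lit 57447) (nat_lit 19) (.e (nat_lit 393240) (nat_lit 17) (.e (nat_lit 7936) (nat_lit 405) .nil)))) .nil)) 
(.lf (nat_lit 260970) (.g (nat_lit 2591) (.e (nat_lit 164403) (nat_lit 256) (.e (nat_lit 57447) (nat_lit 19) (.e (nat_lit 393301) (nat_lit 27) (.e (nat_lit 491526) (nat_lit 0) (.e (nat_lit 1855) (nat_lit 124) .nil))))) .nil)))) (.nd (nat_lit 5) (.nd (nat_lit 6) 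
(.lf (nat_lit 260890) (.g (nat_lit 3385) (.e (nat_lit 164403) (nat_lit 256) (.e (nat_lit 57447) (nat_lit 19) (.e (nat_lit 393232) (nat_lit 17) (.e (nat_lit 7581) (nat_lit 405) (.e (nat_lit 57480) (nat_lit 28) (.e (nat_lit 557098) (nat_lit 13) (.e (nat_lit 172060) (nat_lit 1) .nil))))))) (.g (nat_lit 4) .nil .nil))) 
(.lf (nat_lit 260954) (.g (nat_lit 1141) (.e (nat_lit 164403) (nat_lit 256) (.e (nat_lit 57447) (nat_lit 19) (.e (nat_lit 393288) (nat_lit 25) .nil))) .nil))) (.nd (nat_lit 6) 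
(.lf (nat_lit 260922) (.g (nat_lit 1141) (.e (nat_lit 164403) (nat_lit 256) (.e (nat_lit 57447) (nat_lit 19) (.e (nat_lit 393268) (nat_lit 23) .nil))) .nil)) 
(.lf (nat_lit 260986) (.g (nat_lit 1191) (.e (nat_lit 164406) (nat_lit 258) (.e (nat_lit 163871) (nat_lit 2) (.e (nat_lit 196651) (nat_lit 10) (.e (nat_lit 16128) (nat_lit 196) .nil)))) .nil)))))) (.nd (nat_lit 3) (.nd (nat_lit 4) (.nd (nat_lit 5) (.nd (nat_lit 6) 
(.lf (nat_lit 260870) (.g (nat_lit 3221) (.e (nat_lit 164403) (nat_lit 256) (.e (nat_lit 57445) (nat_lit 19) (.e (nat_lit 393281) (nat_lit 23) (.e (nat_lit 426124) (nat_lit 2) (.e (nat_lit 196656) (nat_lit 11) (.e (nat_lit 16407) (nat_lit 1) .nil)))))) (.g (nat_lit 5) .nil .nil))) 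
(.lf (nat_lit 260934) (.g (nat_lit 3862) (.e (nat_lit 164403) (nat_lit 256) (.e (nat_lit 57447) (nat_lit 19) (.e (nat_lit 393275) (nat_lit 23) (.e (nat_lit 426125) (nat_lit 2) (.e (nat_lit 196630) (nat_lit 9) (.e (nat_lit 430) (nat_lit 32) (.e (nat_lit 426098) (nat_lit 1) .nil))))))) (.g (nat_lit 5) .nil .nil)))) (.nd (nat_lit 6) 
(.lf (nat_lit 260902) (.g (nat_lit 3749) (.e (nat_lit 164403) (nat_lit 256) (.e (nat_lit 57447) (nat_lit 19) (.e (nat_lit 393234) (nat_lit 17) (.e (nat_lit 7583) (nat_lit 405) (.e (nat_lit 57476) (nat_lit 28) (.e (nat_lit 557097) (nat_lit 13) (.e (nat_lit 172059) (nat_lit 1) .nil))))))) (.g (nat_lit 6) .nil .nil))) 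
(.lf (nat_lit 260966) (.g (nat_lit 2812) (.e (nat_lit 164403) (nat_lit 256) (.e (nat_lit 57447) (nat_lit 19) (.e (nat_lit 393300) (nat_lit 27) (.e (nat_lit 491526) (nat_lit 0) (.e (nat_lit 1848) (nat_lit 124) .nil))))) .nil)))) (.nd (nat_lit 5) (.nd (nat_lit 6) 
(.lf (nat_lit 260886) (.g (nat_lit 2510) (.e (nat_lit 164403) (nat_lit 256) (.e (nat_lit 57447) (nat_lit 19) (.e (nat_lit 393232) (nat_lit 17) (.e (nat_lit 7581) (nat_lit 405) (.e (nat_lit 57477) (nat_lit 28) .nil))))) .nil)) 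
(.lf (nat_lit 260950) (.g (nat_lit 865) (.e (nat_lit 164403) (nat_lit 256) (.e (nat_lit 57447) (nat_lit 19) (.e (nat_lit 393283) (nat_lit 24) (.e (nat_lit 434234) (nat_lit 23) .nil)))) .nil))) (.nd (nat_lit 6) 
(.lf (nat_lit 260918) (.g (nat_lit 671) (.e (nat_lit 164403) (nat_lit 256) (.e (nat_lit 57447) (nat_lit 19) (.e (nat_lit 393266) (nat_lit 23) .nil))) .nil)) 
(.lf (nat_lit 260982) (.g (nat_lit 1028) (.e (nat_lit 164406) (nat_lit 258) (.e (nat_lit 163868) (nat_lit 2) (.e (nat_lit 196651) (nat_lit 10) .nil))) .nil))))) (.nd (nat_lit 4) (.nd (nat_lit 5) (.nd (nat_lit 6) 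
(.lf (nat_lit 260878) (.g (nat_lit 2446) (.e (nat_lit 164403) (nat_lit 256) (.e (nat_lit 57446) (nat_lit 19) (.e (nat_lit 393281) (nat_lit 23) (.e (nat_lit 426116) (nat_lit 2) (.e (nat_lit 196656) (nat_lit 11) (.e (nat_lit 16405) (nat_lit 1) .nil)))))) (.g (nat_lit 5) .nil .nil))) 
(.lf (nat_lit 260942) (.g (nat_lit 2721) (.e (nat_lit 164403) (nat_lit 256) (.e (nat_lit 57447) (nat_lit 19) (.e (nat_lit 393281) (nat_lit 23) (.e (nat_lit 426115) (nat_lit 2) (.e (nat_lit 196654) (nat_lit 11) (.e (nat_lit 16405) (nat_lit 1) .nil)))))) (.g (nat_lit 6) .nil .nil)))) (.nd (nat_lit 6) 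
(.lf (nat_lit 260910) (.g (nat_lit 1141) (.e (nat_lit 164403) (nat_lit 256) (.e (nat_lit 57447) (nat_lit 19) (.e (nat_lit 393252) (nat_lit 18) .nil))) .nil)) 
(.lf (nat_lit 260974) (.g (nat_lit 1364) (.e (nat_lit 171776) (nat_lit 256) (.e (nat_lit 57372) (nat_lit 2) (.e (nat_lit 90176) (nat_lit 15) (.e (nat_lit 188423) (nat_lit 11) (.e (nat_lit 336387) (nat_lit 27) .nil))))) .nil)))) (.nd (nat_lit 5) (.nd (nat_lit 6) 
(.lf (nat_lit 260894) (.g (nat_lit 4099) (.e (nat_lit 164403) (nat_lit 256) (.e (nat_lit 57447) (nat_lit 19) (.e (nat_lit 393234) (nat_lit 17) (.e (nat_lit 7581) (nat_lit 405) (.e (nat_lit 57476) (nat_lit 28) (.e (nat_lit 557097) (nat_lit 13) (.e (nat_lit 172061) (nat_lit 1) .nil))))))) (.g (nat_lit 6) .nil .nil))) 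
(.lf (nat_lit 260958) (.g (nat_lit 1098) (.e (nat_lit 164403) (nat_lit 256) (.e (nat_lit 57447) (nat_lit 19) (.e (nat_lit 393298) (nat_lit 27) .nil))) .nil))) (.nd (nat_lit 6) 
(.lf (nat_lit 260926) (.g (nat_lit 1976) (.e (nat_lit 164403) (nat_lit 256) (.e (nat_lit 57447) (nat_lit 19) (.e (nat_lit 393270) (nat_lit 23) (.e (nat_lit 426131) (nat_lit 3) (.e (nat_lit 204809) (nat_lit 9) .nil))))) .nil)) 
(.lf (nat_lit 260990) (.g (nat_lit 885) (.e (nat_lit 164406) (nat_lit 258) (.e (nat_lit 163874) (nat_lit 3) (.e (nat_lit 204880) (nat_lit 32) .nil))) .nil)))))))) (.nd (nat_lit 1) (.nd (nat_lit 2) (.nd (nat_lit 3) (.nd (nat_lit 4) (.nd (nat_lit 5) (.nd (nat_lit 6) 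
(.lf (nat_lit 260865) (.g (nat_lit 2967) (.e (nat_lit 164403) (nat_lit 256) (.e (nat_lit 57445) (nat_lit 19) (.e (nat_lit 393281) (nat_lit 23) (.e (nat_lit 426116) (nat_lit 2) (.e (nat_lit 196654) (nat_lit 11) (.e (nat_lit 16405) (nat_lit 1) .nil)))))) (.g (nat_lit 5) .nil .nil))) 
(.lf (nat_lit 260929) (.g (nat_lit 1793) (.e (nat_lit 164403) (nat_lit 256) (.e (nat_lit 57447) (nat_lit 19) (.e (nat_lit 393271) (nat_lit 23) (.e (nat_lit 426130) (nat_lit 3) (.e (nat_lit 204813) (nat_lit 9) .nil))))) .nil))) (.nd (nat_lit 6) 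
(.lf (nat_lit 260897) (.g (nat_lit 2845) (.e (nat_lit 164403) (nat_lit 256) (.e (nat_lit 57447) (nat_lit 19) (.e (nat_lit 393234) (nat_lit 17) (.e (nat_lit 7581) (nat_lit 405) (.e (nat_lit 57479) (nat_lit 28) (.e (nat_lit 557101) (nat_lit 13) (.e (nat_lit 172059) (nat_lit 1) .nil))))))) (.g (nat_lit 4) .nil .nil))) 
(.lf (nat_lit 260961) (.g (nat_lit 2383) (.e (nat_lit 164403) (nat_lit 256) (.e (nat_lit 57447) (nat_lit 19) (.e (nat_lit 393299) (nat_lit 27) (.e (nat_lit 491526) (nat_lit 0) .nil)))) .nil)))) (.nd (nat_lit 5) (.nd (nat_lit 6) 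
(.lf (nat_lit 260881) (.g (nat_lit 1141) (.e (nat_lit 164403) (nat_lit 256) (.e (nat_lit 57447) (nat_lit 19) (.e (nat_lit 393230) (nat_lit 17) .nil))) .nil)) 
(.lf (nat_lit 260945) (.g (nat_lit 2677) (.e (nat_lit 164403) (nat_lit 256) (.e (nat_lit 57447) (nat_lit 19) (.e (nat_lit 393281) (nat_lit 23) (.e (nat_lit 426133) (nat_lit 3) (.e (nat_lit 204809) (nat_lit 9) (.e (nat_lit 426105) (nat_lit 1) .nil)))))) (.g (nat_lit 5) .nil .nil)))) (.nd (nat_lit 6) 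
(.lf (nat_lit 260913) (.g (nat_lit 2134) (.e (nat_lit 164403) (nat_lit 256) (.e (nat_lit 57447) (nat_lit 19) (.e (nat_lit 393260) (nat_lit 21) (.e (nat_lit 409602) (nat_lit 0) .nil)))) .nil)) 
(.lf (nat_lit 260977) (.g (nat_lit 1198) (.e (nat_lit 164404) (nat_lit 257) (.e (nat_lit 122904) (nat_lit 12) (.e (nat_lit 336432) (nat_lit 30) (.e (nat_lit 450580) (nat_lit 5) (.e (nat_lit 532579) (nat_lit 26) .nil))))) .nil))))) (.nd (nat_lit 4) (.nd (nat_lit 5) (.nd (nat_lit 6) 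
(.lf (nat_lit 260873) (.g (nat_lit 1310) (.e (nat_lit 164403) (nat_lit 256) (.e (nat_lit 57445) (nat_lit 19) (.e (nat_lit 393293) (nat_lit 26) (.e (nat_lit 475182) (nat_lit 28) .nil)))) .nil)) 
(.lf (nat_lit 260937) (.g (nat_lit 2909) (.e (nat_lit 164403) (nat_lit 256) (.e (nat_lit 57447) (nat_lit 19) (.e (nat_lit 393275) (nat_lit 23) (.e (nat_lit 426125) (nat_lit 2) (.e (nat_lit 196656) (nat_lit 11) (.e (nat_lit 16407) (nat_lit 1) .nil)))))) (.g (nat_lit 4) .nil .nil)))) (.nd (nat_lit 6) 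
(.lf (nat_lit 260905) (.g (nat_lit 1609) (.e (nat_lit 164403) (nat_lit 256) (.e (nat_lit 57447) (nat_lit 19) (.e (nat_lit 393238) (nat_lit 17) (.e (nat_lit 7936) (nat_lit 405) .nil)))) .nil)) 
(.lf (nat_lit 260969) (.g (nat_lit 4539) (.e (nat_lit 164403) (nat_lit 256) (.e (nat_lit 57447) (nat_lit 19) (.e (nat_lit 393301) (nat_lit 27) (.e (nat_lit 491526) (nat_lit 0) (.e (nat_lit 1848) (nat_lit 124) (.e (nat_lit 557097) (nat_lit 13) (.e (nat_lit 172059) (nat_lit 1) .nil))))))) (.g (nat_lit 6) .nil .nil))))) (.nd (nat_lit 5) (.nd (nat_lit 6) 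
(.lf (nat_lit 260889) (.g (nat_lit 2498) (.e (nat_lit 164403) (nat_lit 256) (.e (nat_lit 57447) (nat_lit 19) (.e (nat_lit 393232) (nat_lit 17) (.e (nat_lit 7581) (nat_lit 405) (.e (nat_lit 57480) (nat_lit 28) .nil))))) .nil)) 
(.lf (nat_lit 260953) (.g (nat_lit 1412) (.e (nat_lit 164403) (nat_lit 256) (.e (nat_lit 57447) (nat_lit 19) (.e (nat_lit 393284) (nat_lit 24) (.e (nat_lit 434233) (nat_lit 23) (.e (nat_lit 532579) (nat_lit 26) .nil))))) .nil))) (.nd (nat_lit 6) 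
(.lf (nat_lit 260921) (.g (nat_lit 1105) (.e (nat_lit 164403) (nat_lit 256) (.e (nat_lit 57447) (nat_lit 19) (.e (nat_lit 393267) (nat_lit 23) .nil))) .nil)) 
(.lf (nat_lit 260985) (.g (nat_lit 2586) (.e (nat_lit 164406) (nat_lit 258) (.e (nat_lit 163870) (nat_lit 2) (.e (nat_lit 196666) (nat_lit 13) (.e (nat_lit 65572) (nat_lit 4) .nil)))) .nil)))))) (.nd (nat_lit 3) (.nd (nat_lit 4) (.nd (nat_lit 5) (.nd (nat_lit 6) 
(.lf (nat_lit 260869) (.g (nat_lit 3009) (.e (nat_lit 164403) (nat_lit 256) (.e (nat_lit 57445) (nat_lit 19) (.e (nat_lit 393281) (nat_lit 23) (.e (nat_lit 426124) (nat_lit 2) (.e (nat_lit 196656) (nat_lit 11) (.e (nat_lit 16406) (nat_lit 1) .nil)))))) (.g (nat_lit 5) .nil .nil))) 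
(.lf (nat_lit 260933) (.g (nat_lit 808) (.e (nat_lit 164403) (nat_lit 256) (.e (nat_lit 57447) (nat_lit 19) (.e (nat_lit 393275) (nat_lit 23) .nil))) .nil))) (.nd (nat_lit 6) 
(.lf (nat_lit 260901) (.g (nat_lit 1763) (.e (nat_lit 164403) (nat_lit 256) (.e (nat_lit 57447) (nat_lit 19) (.e (nat_lit 393234) (nat_lit 17) (.e (nat_lit 7583) (nat_lit 405) (.e (nat_lit 57476) (nat_lit 28) .nil))))) .nil)) 
(.lf (nat_lit 260965) (.g (nat_lit 1998) (.e (nat_lit 164403) (nat_lit 256) (.e (nat_lit 57447) (nat_lit 19) (.e (nat_lit 393300) (nat_lit 27) (.e (nat_lit 491526) (nat_lit 0) .nil)))) .nil)))) (.nd (nat_lit 5) (.nd (nat_lit 6) 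
(.lf (nat_lit 260885) (.g (nat_lit 3418) (.e (nat_lit 164403) (nat_lit 256) (.e (nat_lit 57447) (nat_lit 19) (.e (nat_lit 393232) (nat_lit 17) (.e (nat_lit 7581) (nat_lit 405) (.e (nat_lit 57476) (nat_lit 28) (.e (nat_lit 557097) (nat_lit 13) (.e (nat_lit 172061) (nat_lit 1) .nil))))))) (.g (nat_lit 4) .nil .nil))) 
(.lf (nat_lit 260949) (.g (nat_lit 1400) (.e (nat_lit 164403) (nat_lit 256) (.e (nat_lit 57447) (nat_lit 19) (.e (nat_lit 393281) (nat_lit 23) (.e (nat_lit 426139) (nat_lit 3) .nil)))) .nil))) (.nd (nat_lit 6) 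
(.lf (nat_lit 260917) (.g (nat_lit 1858) (.e (nat_lit 164403) (nat_lit 256) (.e (nat_lit 57447) (nat_lit 19) (.e (nat_lit 393260) (nat_lit 21) (.e (nat_lit 417536) (nat_lit 10) .nil)))) .nil)) 
(.lf (nat_lit 260981) (.g (nat_lit 865) (.e (nat_lit 164406) (nat_lit 258) (.e (nat_lit 163867) (nat_lit 2) (.e (nat_lit 196663) (nat_lit 13) .nil))) .nil))))) (.nd (nat_lit 4) (.nd (nat_lit 5) (.nd (nat_lit 6) 
(.lf (nat_lit 260877) (.g (nat_lit 2563) (.e (nat_lit 164403) (nat_lit 256) (.e (nat_lit 57446) (nat_lit 19) (.e (nat_lit 393281) (nat_lit 23) (.e (nat_lit 426116) (nat_lit 2) (.e (nat_lit 196654) (nat_lit 11) (.e (nat_lit 16408) (nat_lit 1) .nil)))))) (.g (nat_lit 5) .nil .nil))) 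
(.lf (nat_lit 260941) (.g (nat_lit 1052) (.e (nat_lit 164403) (nat_lit 256) (.e (nat_lit 57447) (nat_lit 19) (.e (nat_lit 393278) (nat_lit 23) .nil))) .nil))) (.nd (nat_lit 6) 
(.lf (nat_lit 260909) (.g (nat_lit 1141) (.e (nat_lit 164403) (nat_lit 256) (.e (nat_lit 57447) (nat_lit 19) (.e (nat_lit 393251) (nat_lit 18) .nil))) .nil)) 
(.lf (nat_lit 260973) (.g (nat_lit 1884) (.e (nat_lit 164403) (nat_lit 256) (.e (nat_lit 57450) (nat_lit 20) (.e (nat_lit 401454) (nat_lit 12) (.e (nat_lit 475198) (nat_lit 40) (.e (nat_lit 704598) (nat_lit 6) .nil))))) .nil)))) (.nd (nat_lit 5) (.nd (nat_lit 6) 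
(.lf (nat_lit 260893) (.g (nat_lit 2486) (.e (nat_lit 164403) (nat_lit 256) (.e (nat_lit 57447) (nat_lit 19) (.e (nat_lit 393234) (nat_lit 17) (.e (nat_lit 7581) (nat_lit 405) (.e (nat_lit 57476) (nat_lit 28) (.e (nat_lit 557097) (nat_lit 13) (.e (nat_lit 172060) (nat_lit 1) .nil))))))) (.g (nat_lit 4) .nil .nil))) 
(.lf (nat_lit 260957) (.g (nat_lit 2179) (.e (nat_lit 164403) (nat_lit 256) (.e (nat_lit 57447) (nat_lit 19) (.e (nat_lit 393294) (nat_lit 26) (.e (nat_lit 483072) (nat_lit 31) .nil)))) .nil))) (.nd (nat_lit 6) 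
(.lf (nat_lit 260925) (.g (nat_lit 843) (.e (nat_lit 164403) (nat_lit 256) (.e (nat_lit 57447) (nat_lit 19) (.e (nat_lit 393270) (nat_lit 23) .nil))) .nil)) 
(.lf (nat_lit 260989) (.g (nat_lit 1648) (.e (nat_lit 164406) (nat_lit 258) (.e (nat_lit 163871) (nat_lit 2) (.e (nat_lit 196665) (nat_lit 13) (.e (nat_lit 65632) (nat_lit 15) .nil)))) .nil))))))) (.nd (nat_lit 2) (.nd (nat_lit 3) (.nd (nat_lit 4) (.nd (nat_lit 5) (.nd (nat_lit 6) 
(.lf (nat_lit 260867) (.g (nat_lit 2820) (.e (nat_lit 164403) (nat_lit 256) (.e (nat_lit 57445) (nat_lit 19) (.e (nat_lit 393281) (nat_lit 23) (.e (nat_lit 426116) (nat_lit 2) (.e (nat_lit 196656) (nat_lit 11) (.e (nat_lit 16405) (nat_lit 1) .nil)))))) (.g (nat_lit 5) .nil .nil))) 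
(.lf (nat_lit 260931) (.g (nat_lit 997) (.e (nat_lit 164403) (nat_lit 256) (.e (nat_lit 57447) (nat_lit 19) (.e (nat_lit 393274) (nat_lit 23) (.e (nat_lit 426132) (nat_lit 3) .nil)))) .nil))) (.nd (nat_lit 6) 
(.lf (nat_lit 260899) (.g (nat_lit 2634) (.e (nat_lit 164403) (nat_lit 256) (.e (nat_lit 57447) (nat_lit 19) (.e (nat_lit 393234) (nat_lit 17) (.e (nat_lit 7581) (nat_lit 405) (.e (nat_lit 57480) (nat_lit 28) (.e (nat_lit 557096) (nat_lit 13) (.e (nat_lit 172061) (nat_lit 1) .nil))))))) (.g (nat_lit 4) .nil .nil))) 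
(.lf (nat_lit 260963) (.g (nat_lit 2361) (.e (nat_lit 164403) (nat_lit 256) (.e (nat_lit 57447) (nat_lit 19) (.e (nat_lit 393299) (nat_lit 27) (.e (nat_lit 491528) (nat_lit 0) .nil)))) .nil)))) (.nd (nat_lit 5) (.nd (nat_lit 6) 
(.lf (nat_lit 260883) (.g (nat_lit 1907) (.e (nat_lit 164403) (nat_lit 256) (.e (nat_lit 57447) (nat_lit 19) (.e (nat_lit 393232) (nat_lit 17) (.e (nat_lit 7581) (nat_lit 405) .nil)))) .nil)) 
(.lf (nat_lit 260947) (.g (nat_lit 2381) (.e (nat_lit 164403) (nat_lit 256) (.e (nat_lit 57447) (nat_lit 19) (.e (nat_lit 393281) (nat_lit 23) (.e (nat_lit 426133) (nat_lit 3) (.e (nat_lit 204812) (nat_lit 9) .nil))))) .nil))) (.nd (nat_lit 6) 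
(.lf (nat_lit 260915) (.g (nat_lit 4631) (.e (nat_lit 164403) (nat_lit 256) (.e (nat_lit 57447) (nat_lit 19) (.e (nat_lit 393260) (nat_lit 21) (.e (nat_lit 409617) (nat_lit 10) (.e (nat_lit 632) (nat_lit 50) (.e (nat_lit 573477) (nat_lit 12) (.e (nat_lit 57750) (nat_lit 201) (.e (nat_lit 2608) (nat_lit 163) .nil)))))))) (.g (nat_lit 5) .nil .nil))) 
(.lf (nat_lit 260979) (.g (nat_lit 2250) (.e (nat_lit 164404) (nat_lit 257) (.e (nat_lit 122916) (nat_lit 14) (.e (nat_lit 352315) (nat_lit 23) (.e (nat_lit 98313) (nat_lit 9) (.e (nat_lit 343808) (nat_lit 20) .nil))))) .nil))))) (.nd (nat_lit 4) (.nd (nat_lit 5) (.nd (nat_lit 6) 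
(.lf (nat_lit 260875) (.g (nat_lit 2052) (.e (nat_lit 164403) (nat_lit 256) (.e (nat_lit 57446) (nat_lit 19) (.e (nat_lit 393281) (nat_lit 23) (.e (nat_lit 426115) (nat_lit 2) (.e (nat_lit 196654) (nat_lit 11) (.e (nat_lit 16408) (nat_lit 1) .nil)))))) (.g (nat_lit 5) .nil .nil))) 
(.lf (nat_lit 260939) (.g (nat_lit 1079) (.e (nat_lit 164403) (nat_lit 256) (.e (nat_lit 57447) (nat_lit 19) (.e (nat_lit 393276) (nat_lit 23) .nil))) .nil))) (.nd (nat_lit 6) 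
(.lf (nat_lit 260907) (.g (nat_lit 1141) (.e (nat_lit 164403) (nat_lit 256) (.e (nat_lit 57447) (nat_lit 19) (.e (nat_lit 393241) (nat_lit 17) .nil))) .nil)) 
(.lf (nat_lit 260971) (.g (nat_lit 4490) (.e (nat_lit 164403) (nat_lit 256) (.e (nat_lit 57447) (nat_lit 19) (.e (nat_lit 393301) (nat_lit 27) (.e (nat_lit 491526) (nat_lit 0) (.e (nat_lit 1855) (nat_lit 124) (.e (nat_lit 557100) (nat_lit 13) (.e (nat_lit 172059) (nat_lit 1) .nil))))))) (.g (nat_lit 6) .nil .nil))))) (.nd (nat_lit 5) (.nd (nat_lit 6) 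
(.lf (nat_lit 260891) (.g (nat_lit 848) (.e (nat_lit 164403) (nat_lit 256) (.e (nat_lit 57447) (nat_lit 19) (.e (nat_lit 393233) (nat_lit 17) .nil))) .nil)) 
(.lf (nat_lit 260955) (.g (nat_lit 1082) (.e (nat_lit 164403) (nat_lit 256) (.e (nat_lit 57447) (nat_lit 19) (.e (nat_lit 393293) (nat_lit 26) .nil))) .nil))) (.nd (nat_lit 6) 
(.lf (nat_lit 260923) (.g (nat_lit 2544) (.e (nat_lit 164403) (nat_lit 256) (.e (nat_lit 57447) (nat_lit 19) (.e (nat_lit 393268) (nat_lit 23) (.e (nat_lit 426131) (nat_lit 3) .nil)))) .nil)) 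
(.lf (nat_lit 260987) (.g (nat_lit 1478) (.e (nat_lit 164406) (nat_lit 258) (.e (nat_lit 163871) (nat_lit 2) (.e (nat_lit 196663) (nat_lit 13) (.e (nat_lit 65574) (nat_lit 4) .nil)))) .nil)))))) (.nd (nat_lit 3) (.nd (nat_lit 4) (.nd (nat_lit 5) (.nd (nat_lit 6) 
(.lf (nat_lit 260871) (.g (nat_lit 2076) (.e (nat_lit 164403) (nat_lit 256) (.e (nat_lit 57445) (nat_lit 19) (.e (nat_lit 393283) (nat_lit 24) (.e (nat_lit 434231) (nat_lit 23) (.e (nat_lit 532578) (nat_lit 26) .nil))))) .nil)) 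
(.lf (nat_lit 260935) (.g (nat_lit 2388) (.e (nat_lit 164403) (nat_lit 256) (.e (nat_lit 57447) (nat_lit 19) (.e (nat_lit 393275) (nat_lit 23) (.e (nat_lit 426125) (nat_lit 2) (.e (nat_lit 196637) (nat_lit 9) .nil))))) .nil))) (.nd (nat_lit 6) 
(.lf (nat_lit 260903) (.g (nat_lit 2444) (.e (nat_lit 164403) (nat_lit 256) (.e (nat_lit 57447) (nat_lit 19) (.e (nat_lit 393234) (nat_lit 17) (.e (nat_lit 7583) (nat_lit 405) (.e (nat_lit 57476) (nat_lit 28) (.e (nat_lit 557097) (nat_lit 13) (.e (nat_lit 172060) (nat_lit 1) .nil))))))) (.g (nat_lit 4) .nil .nil))) 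
(.lf (nat_lit 260967) (.g (nat_lit 2190) (.e (nat_lit 164403) (nat_lit 256) (.e (nat_lit 57447) (nat_lit 19) (.e (nat_lit 393300) (nat_lit 27) (.e (nat_lit 491528) (nat_lit 0) (.e (nat_lit 1859) (nat_lit 124) .nil))))) .nil)))) (.nd (nat_lit 5) (.nd (nat_lit 6) 
(.lf (nat_lit 260887) (.g (nat_lit 3204) (.e (nat_lit 164403) (nat_lit 256) (.e (nat_lit 57447) (nat_lit 19) (.e (nat_lit 393232) (nat_lit 17) (.e (nat_lit 7581) (nat_lit 405) (.e (nat_lit 57477) (nat_lit 28) (.e (nat_lit 557097) (nat_lit 13) (.e (nat_lit 172059) (nat_lit 1) .nil))))))) (.g (nat_lit 4) .nil .nil))) 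
(.lf (nat_lit 260951) (.g (nat_lit 873) (.e (nat_lit 164403) (nat_lit 256) (.e (nat_lit 57447) (nat_lit 19) (.e (nat_lit 393283) (nat_lit 24) (.e (nat_lit 434248) (nat_lit 28) .nil)))) .nil))) (.nd (nat_lit 6) 
(.lf (nat_lit 260919) (.g (nat_lit 1978) (.e (nat_lit 164403) (nat_lit 256) (.e (nat_lit 57447) (nat_lit 19) (.e (nat_lit 393266) (nat_lit 23) (.e (nat_lit 426140) (nat_lit 3) (.e (nat_lit 204808) (nat_lit 9) .nil))))) .nil)) 
(.lf (nat_lit 260983) (.g (nat_lit 1145) (.e (nat_lit 164406) (nat_lit 258) (.e (nat_lit 163868) (nat_lit 2) (.e (nat_lit 196663) (nat_lit 13) .nil))) .nil))))) (.nd (nat_lit 4) (.nd (nat_lit 5) (.nd (nat_lit 6) 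
(.lf (nat_lit 260879) (.g (nat_lit 2721) (.e (nat_lit 164403) (nat_lit 256) (.e (nat_lit 57446) (nat_lit 19) (.e (nat_lit 393281) (nat_lit 23) (.e (nat_lit 426124) (nat_lit 2) (.e (nat_lit 196656) (nat_lit 11) (.e (nat_lit 16406) (nat_lit 1) .nil)))))) (.g (nat_lit 5) .nil .nil))) 
(.lf (nat_lit 260943) (.g (nat_lit 3107) (.e (nat_lit 164403) (nat_lit 256) (.e (nat_lit 57447) (nat_lit 19) (.e (nat_lit 393281) (nat_lit 23) (.e (nat_lit 426124) (nat_lit 2) (.e (nat_lit 196656) (nat_lit 11) (.e (nat_lit 16405) (nat_lit 1) .nil)))))) (.g (nat_lit 5) .nil .nil)))) (.nd (nat_lit 6) 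
(.lf (nat_lit 260911) (.g (nat_lit 1821) (.e (nat_lit 164403) (nat_lit 256) (.e (nat_lit 57447) (nat_lit 19) (.e (nat_lit 393253) (nat_lit 18) (.e (nat_lit 164332) (nat_lit 230) .nil)))) .nil)) 
(.lf (nat_lit 260975) (.g (nat_lit 1366) (.e (nat_lit 171776) (nat_lit 256) (.e (nat_lit 57375) (nat_lit 2) (.e (nat_lit 90176) (nat_lit 15) (.e (nat_lit 188423) (nat_lit 11) (.e (nat_lit 336387) (nat_lit 27) .nil))))) .nil)))) (.nd (nat_lit 5) (.nd (nat_lit 6) 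
(.lf (nat_lit 260895) (.g (nat_lit 3560) (.e (nat_lit 164403) (nat_lit 256) (.e (nat_lit 57447) (nat_lit 19) (.e (nat_lit 393234) (nat_lit 17) (.e (nat_lit 7581) (nat_lit 405) (.e (nat_lit 57477) (nat_lit 28) (.e (nat_lit 557097) (nat_lit 13) (.e (nat_lit 172059) (nat_lit 1) .nil))))))) (.g (nat_lit 6) .nil .nil))) 
(.lf (nat_lit 260959) (.g (nat_lit 2269) (.e (nat_lit 164403) (nat_lit 256) (.e (nat_lit 57447) (nat_lit 19) (.e (nat_lit 393298) (nat_lit 27) (.e (nat_lit 491526) (nat_lit 0) .nil)))) .nil))) (.nd (nat_lit 6) 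
(.lf (nat_lit 260927) (.g (nat_lit 1739) (.e (nat_lit 164403) (nat_lit 256) (.e (nat_lit 57447) (nat_lit 19) (.e (nat_lit 393271) (nat_lit 23) (.e (nat_lit 426127) (nat_lit 2) .nil)))) .nil)) 
(.lf (nat_lit 260991) (.g (nat_lit 2623) (.e (nat_lit 164406) (nat_lit 258) (.e (nat_lit 163874) (nat_lit 3) (.e (nat_lit 204880) (nat_lit 32) (.e (nat_lit 385096) (nat_lit 49) (.e (nat_lit 778262) (nat_lit 0) .nil))))) .nil)))))))))

noncomputable def tv3371 : DT := (.nd (nat_lit 0) (.nd (nat_lit 1) (.nd (nat_lit 2) (.nd (nat_lit 3) (.nd (nat_lit 4) (.nd (nat_lit 5) (.nd (nat_lit 6) 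
(.lf (nat_lit 260992) (.g (nat_lit 838) (.e (nat_lit 164406) (nat_lit 258) (.e (nat_lit 163875) (nat_lit 3) (.e (nat_lit 204880) (nat_lit 32) .nil))) .nil)) 
(.lf (nat_lit 261056) (.g (nat_lit 3076) (.e (nat_lit 164422) (nat_lit 272) (.e (nat_lit 1220) (nat_lit 90) (.e (nat_lit 81956) (nat_lit 23) (.e (nat_lit 98333) (nat_lit 18) .nil)))) .nil))) (.nd (nat_lit 6) 
(.lf (nat_lit 261024) (.g (nat_lit 3311) (.e (nat_lit 164421) (nat_lit 272) (.e (nat_lit 1190) (nat_lit 88) (.e (nat_lit 65628) (nat_lit 14) (.e (nat_lit 401459) (nat_lit 13) (.e (nat_lit 483411) (nat_lit 27) (.e (nat_lit 401420) (nat_lit 1) .nil)))))) (.g (nat_lit 6) .nil .nil))) 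
(.lf (nat_lit 261088) (.g (nat_lit 1884) (.e (nat_lit 164424) (nat_lit 272) (.e (nat_lit 1182) (nat_lit 87) (.e (nat_lit 57480) (nat_lit 28) (.e (nat_lit 557107) (nat_lit 15) (.e (nat_lit 188439) (nat_lit 20) .nil))))) .nil)))) (.nd (nat_lit 5) (.nd (nat_lit 6) 
(.lf (nat_lit 261008) (.g (nat_lit 1202) (.e (nat_lit 171776) (nat_lit 262) (.e (nat_lit 57447) (nat_lit 19) (.e (nat_lit 393300) (nat_lit 27) .nil))) .nil)) 
(.lf (nat_lit 261072) (.g (nat_lit 3882) (.e (nat_lit 164422) (nat_lit 272) (.e (nat_lit 1221) (nat_lit 90) (.e (nat_lit 81959) (nat_lit 24) (.e (nat_lit 123195) (nat_lit 266) (.e (nat_lit 57400) (nat_lit 10) (.e (nat_lit 319490) (nat_lit 0) (.e (nat_lit 5626) (nat_lit 312) (.e (nat_lit 2612) (nat_lit 163) .nil)))))))) (.g (nat_lit 6) .nil .nil)))) (.nd (nat_lit 6) 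
(.lf (nat_lit 261040) (.g (nat_lit 2321) (.e (nat_lit 164421) (nat_lit 272) (.e (nat_lit 1221) (nat_lit 90) (.e (nat_lit 81959) (nat_lit 24) (.e (nat_lit 123195) (nat_lit 266) (.e (nat_lit 57400) (nat_lit 10) .nil))))) .nil)) 
(.lf (nat_lit 261104) (.g (nat_lit 1312) (.e (nat_lit 172032) (nat_lit 0) (.e (nat_lit 7496) (nat_lit 402) (.e (nat_lit 1400) (nat_lit 106) (.e (nat_lit 319534) (nat_lit 16) (.e (nat_lit 286756) (nat_lit 10) .nil))))) .nil))))) (.nd (nat_lit 4) (.nd (nat_lit 5) (.nd (nat_lit 6) 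
(.lf (nat_lit 261000) (.g (nat_lit 2603) (.e (nat_lit 171776) (nat_lit 262) (.e (nat_lit 57379) (nat_lit 3) (.e (nat_lit 98372) (nat_lit 29) (.e (nat_lit 450588) (nat_lit 10) (.e (nat_lit 573471) (nat_lit 11) .nil))))) .nil)) 
(.lf (nat_lit 261064) (.g (nat_lit 2314) (.e (nat_lit 164422) (nat_lit 272) (.e (nat_lit 1221) (nat_lit 90) (.e (nat_lit 81956) (nat_lit 23) (.e (nat_lit 98334) (nat_lit 18) .nil)))) .nil))) (.nd (nat_lit 6) 
(.lf (nat_lit 261032) (.g (nat_lit 4355) (.e (nat_lit 164421) (nat_lit 272) (.e (nat_lit 1220) (nat_lit 90) (.e (nat_lit 81956) (nat_lit 23) (.e (nat_lit 98333) (nat_lit 18) (.e (nat_lit 164182) (nat_lit 154) .nil))))) .nil)) 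
(.lf (nat_lit 261096) (.g (nat_lit 1495) (.e (nat_lit 171776) (nat_lit 274) (.e (nat_lit 57379) (nat_lit 3) (.e (nat_lit 98334) (nat_lit 18) (.e (nat_lit 164332) (nat_lit 230) .nil)))) .nil)))) (.nd (nat_lit 5) (.nd (nat_lit 6) 
(.lf (nat_lit 261016) (.g (nat_lit 2545) (.e (nat_lit 171776) (nat_lit 262) (.e (nat_lit 57448) (nat_lit 19) (.e (nat_lit 393300) (nat_lit 27) (.e (nat_lit 491568) (nat_lit 13) (.e (nat_lit 393252) (nat_lit 18) .nil))))) .nil)) 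
(.lf (nat_lit 261080) (.g (nat_lit 1708) (.e (nat_lit 164423) (nat_lit 272) (.e (nat_lit 1199) (nat_lit 88) (.e (nat_lit 65628) (nat_lit 14) (.e (nat_lit 401459) (nat_lit 13) (.e (nat_lit 483410) (nat_lit 27) .nil))))) .nil))) (.nd (nat_lit 6) 
(.lf (nat_lit 261048) (.g (nat_lit 2822) (.e (nat_lit 164422) (nat_lit 272) (.e (nat_lit 1190) (nat_lit 88) (.e (nat_lit 65629) (nat_lit 14) (.e (nat_lit 401459) (nat_lit 13) (.e (nat_lit 483411) (nat_lit 27) .nil))))) .nil)) 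
(.lf (nat_lit 261112) (.g (nat_lit 950) (.e (nat_lit 172033) (nat_lit 0) (.e (nat_lit 7545) (nat_lit 402) (.e (nat_lit 1228) (nat_lit 91) (.e (nat_lit 90172) (nat_lit 14) (.e (nat_lit 180285) (nat_lit 45) (.e (nat_lit 2571) (nat_lit 160) (.e (nat_lit 32807) (nat_lit 18) .nil))))))) (.g (nat_lit 4) .nil .nil))))))) (.nd (nat_lit 3) (.nd (nat_lit 4) (.nd (nat_lit 5) (.nd (nat_lit 6) 
(.lf (nat_lit 260996) (.g (nat_lit 616) (.e (nat_lit 171776) (nat_lit 260) (.e (nat_lit 1212) (nat_lit 89) (.e (nat_lit 73744) (nat_lit 2) .nil))) .nil)) 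
(.lf (nat_lit 261060) (.g (nat_lit 522) (.e (nat_lit 164422) (nat_lit 272) (.e (nat_lit 1220) (nat_lit 90) (.e (nat_lit 81959) (nat_lit 24) .nil))) .nil))) (.nd (nat_lit 6) 
(.lf (nat_lit 261028) (.g (nat_lit 1872) (.e (nat_lit 164421) (nat_lit 272) (.e (nat_lit 1200) (nat_lit 88) (.e (nat_lit 65628) (nat_lit 14) (.e (nat_lit 401459) (nat_lit 13) (.e (nat_lit 483410) (nat_lit 27) .nil))))) .nil)) 
(.lf (nat_lit 261092) (.g (nat_lit 2043) (.e (nat_lit 164424) (nat_lit 272) (.e (nat_lit 1200) (nat_lit 88) (.e (nat_lit 65628) (nat_lit 14) (.e (nat_lit 401459) (nat_lit 13) (.e (nat_lit 483344) (nat_lit 17) .nil))))) .nil)))) (.nd (nat_lit 5) (.nd (nat_lit 6) 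
(.lf (nat_lit 261012) (.g (nat_lit 3786) (.e (nat_lit 171776) (nat_lit 262) (.e (nat_lit 57447) (nat_lit 19) (.e (nat_lit 393301) (nat_lit 27) (.e (nat_lit 491568) (nat_lit 13) (.e (nat_lit 393253) (nat_lit 18) .nil))))) .nil)) 
(.lf (nat_lit 261076) (.g (nat_lit 2473) (.e (nat_lit 164423) (nat_lit 272) (.e (nat_lit 1181) (nat_lit 87) (.e (nat_lit 57480) (nat_lit 28) (.e (nat_lit 557107) (nat_lit 15) (.e (nat_lit 188439) (nat_lit 20) .nil))))) .nil))) (.nd (nat_lit 6) 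
(.lf (nat_lit 261044) (.g (nat_lit 1885) (.e (nat_lit 164422) (nat_lit 272) (.e (nat_lit 1182) (nat_lit 87) (.e (nat_lit 57480) (nat_lit 28) (.e (nat_lit 557107) (nat_lit 15) (.e (nat_lit 188439) (nat_lit 20) .nil))))) .nil)) 
(.lf (nat_lit 261108) (.g (nat_lit 983) (.e (nat_lit 172032) (nat_lit 0) (.e (nat_lit 7545) (nat_lit 402) (.e (nat_lit 1227) (nat_lit 91) (.e (nat_lit 90172) (nat_lit 14) (.e (nat_lit 180285) (nat_lit 45) (.e (nat_lit 2570) (nat_lit 160) (.e (nat_lit 32807) (nat_lit 18) .nil))))))) (.g (nat_lit 4) .nil .nil)))))) (.nd (nat_lit 4) (.nd (nat_lit 5) (.nd (nat_lit 6) 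
(.lf (nat_lit 261004) (.g (nat_lit 2799) (.e (nat_lit 171776) (nat_lit 262) (.e (nat_lit 57445) (nat_lit 19) (.e (nat_lit 393300) (nat_lit 27) (.e (nat_lit 491568) (nat_lit 13) (.e (nat_lit 393252) (nat_lit 18) .nil))))) .nil)) 
(.lf (nat_lit 261068) (.g (nat_lit 3001) (.e (nat_lit 164422) (nat_lit 272) (.e (nat_lit 1221) (nat_lit 90) (.e (nat_lit 81959) (nat_lit 24) (.e (nat_lit 123182) (nat_lit 264) (.e (nat_lit 1212) (nat_lit 89) .nil))))) .nil))) (.nd (nat_lit 6) 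
(.lf (nat_lit 261036) (.g (nat_lit 4336) (.e (nat_lit 164421) (nat_lit 272) (.e (nat_lit 1221) (nat_lit 90) (.e (nat_lit 81956) (nat_lit 23) (.e (nat_lit 98333) (nat_lit 18) (.e (nat_lit 164182) (nat_lit 154) .nil))))) .nil)) 
(.lf (nat_lit 261100) (.g (nat_lit 646) (.e (nat_lit 172032) (nat_lit 0) (.e (nat_lit 3241) (nat_lit 197) (.e (nat_lit 532550) (nat_lit 12) (.e (nat_lit 360474) (nat_lit 8) .nil)))) .nil)))) (.nd (nat_lit 5) (.nd (nat_lit 6) 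
(.lf (nat_lit 261020) (.g (nat_lit 540) (.e (nat_lit 164416) (nat_lit 266) (.e (nat_lit 1220) (nat_lit 90) (.e (nat_lit 81965) (nat_lit 26) .nil))) .nil)) 
(.lf (nat_lit 261084) (.g (nat_lit 3304) (.e (nat_lit 164424) (nat_lit 272) (.e (nat_lit 1178) (nat_lit 87) (.e (nat_lit 57479) (nat_lit 28) (.e (nat_lit 557109) (nat_lit 15) (.e (nat_lit 188434) (nat_lit 20) .nil))))) .nil))) (.nd (nat_lit 6) 
(.lf (nat_lit 261052) (.g (nat_lit 2080) (.e (nat_lit 164422) (nat_lit 272) (.e (nat_lit 1200) (nat_lit 88) (.e (nat_lit 65628) (nat_lit 14) (.e (nat_lit 401459) (nat_lit 13) (.e (nat_lit 483344) (nat_lit 17) .nil))))) .nil)) 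
(.lf (nat_lit 261116) (.g (nat_lit 2515) (.e (nat_lit 172034) (nat_lit 0) (.e (nat_lit 3276) (nat_lit 200) (.e (nat_lit 557100) (nat_lit 13) (.e (nat_lit 172113) (nat_lit 10) (.e (nat_lit 434203) (nat_lit 18) .nil))))) .nil))))))) (.nd (nat_lit 2) (.nd (nat_lit 3) (.nd (nat_lit 4) (.nd (nat_lit 5) (.nd (nat_lit 6) 
(.lf (nat_lit 260994) (.g (nat_lit 1966) (.e (nat_lit 164408) (nat_lit 259) (.e (nat_lit 229485) (nat_lit 73) (.e (nat_lit 336027) (nat_lit 3) (.e (nat_lit 98372) (nat_lit 29) (.e (nat_lit 458496) (nat_lit 3) .nil))))) .nil)) 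
(.lf (nat_lit 261058) (.g (nat_lit 2348) (.e (nat_lit 164422) (nat_lit 272) (.e (nat_lit 1220) (nat_lit 90) (.e (nat_lit 81956) (nat_lit 23) (.e (nat_lit 98334) (nat_lit 18) .nil)))) .nil))) (.nd (nat_lit 6) 
(.lf (nat_lit 261026) (.g (nat_lit 2843) (.e (nat_lit 164421) (nat_lit 272) (.e (nat_lit 1190) (nat_lit 88) (.e (nat_lit 65629) (nat_lit 14) (.e (nat_lit 401459) (nat_lit 13) (.e (nat_lit 483411) (nat_lit 27) .nil))))) .nil)) 
(.lf (nat_lit 261090) (.g (nat_lit 1413) (.e (nat_lit 164424) (nat_lit 272) (.e (nat_lit 1199) (nat_lit 88) (.e (nat_lit 65630) (nat_lit 14) (.e (nat_lit 401454) (nat_lit 12) .nil)))) .nil)))) (.nd (nat_lit 5) (.nd (nat_lit 6) 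
(.lf (nat_lit 261010) (.g (nat_lit 3333) (.e (nat_lit 171776) (nat_lit 262) (.e (nat_lit 57447) (nat_lit 19) (.e (nat_lit 393301) (nat_lit 27) (.e (nat_lit 491568) (nat_lit 13) (.e (nat_lit 393251) (nat_lit 18) .nil))))) .nil)) 
(.lf (nat_lit 261074) (.g (nat_lit 1970) (.e (nat_lit 164422) (nat_lit 272) (.e (nat_lit 1221) (nat_lit 90) (.e (nat_lit 81959) (nat_lit 24) (.e (nat_lit 123229) (nat_lit 282) (.e (nat_lit 163896) (nat_lit 10) .nil))))) .nil))) (.nd (nat_lit 6) 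
(.lf (nat_lit 261042) (.g (nat_lit 3566) (.e (nat_lit 164422) (nat_lit 272) (.e (nat_lit 1181) (nat_lit 87) (.e (nat_lit 57479) (nat_lit 28) (.e (nat_lit 557109) (nat_lit 15) (.e (nat_lit 188452) (nat_lit 23) .nil))))) .nil)) 
(.lf (nat_lit 261106) (.g (nat_lit 1137) (.e (nat_lit 172032) (nat_lit 0) (.e (nat_lit 7540) (nat_lit 402) (.e (nat_lit 1238) (nat_lit 91) (.e (nat_lit 90172) (nat_lit 14) (.e (nat_lit 180285) (nat_lit 45) .nil))))) .nil))))) (.nd (nat_lit 4) (.nd (nat_lit 5) (.nd (nat_lit 6) 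
(.lf (nat_lit 261002) (.g (nat_lit 2885) (.e (nat_lit 171776) (nat_lit 262) (.e (nat_lit 57445) (nat_lit 19) (.e (nat_lit 393298) (nat_lit 27) (.e (nat_lit 491570) (nat_lit 13) (.e (nat_lit 393252) (nat_lit 18) .nil))))) .nil)) 
(.lf (nat_lit 261066) (.g (nat_lit 1690) (.e (nat_lit 164422) (nat_lit 272) (.e (nat_lit 1221) (nat_lit 90) (.e (nat_lit 81959) (nat_lit 24) (.e (nat_lit 123156) (nat_lit 252) .nil)))) .nil))) (.nd (nat_lit 6) 
(.lf (nat_lit 261034) (.g (nat_lit 1896) (.e (nat_lit 164421) (nat_lit 272) (.e (nat_lit 1221) (nat_lit 90) (.e (nat_lit 81950) (nat_lit 21) (.e (nat_lit 57849) (nat_lit 252) .nil)))) .nil)) 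
(.lf (nat_lit 261098) (.g (nat_lit 655) (.e (nat_lit 171776) (nat_lit 274) (.e (nat_lit 57389) (nat_lit 5) (.e (nat_lit 114716) (nat_lit 22) .nil))) .nil)))) (.nd (nat_lit 5) (.nd (nat_lit 6) 
(.lf (nat_lit 261018) (.g (nat_lit 1712) (.e (nat_lit 171776) (nat_lit 262) (.e (nat_lit 57448) (nat_lit 19) (.e (nat_lit 393301) (nat_lit 27) (.e (nat_lit 491567) (nat_lit 13) .nil)))) .nil)) 
(.lf (nat_lit 261082) (.g (nat_lit 2442) (.e (nat_lit 164423) (nat_lit 272) (.e (nat_lit 1200) (nat_lit 88) (.e (nat_lit 65630) (nat_lit 14) (.e (nat_lit 401459) (nat_lit 13) (.e (nat_lit 483411) (nat_lit 27) .nil))))) .nil))) (.nd (nat_lit 6) 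
(.lf (nat_lit 261050) (.g (nat_lit 2696) (.e (nat_lit 164422) (nat_lit 272) (.e (nat_lit 1196) (nat_lit 88) (.e (nat_lit 65630) (nat_lit 14) (.e (nat_lit 401459) (nat_lit 13) (.e (nat_lit 483344) (nat_lit 17) .nil))))) .nil)) 
(.lf (nat_lit 261114) (.g (nat_lit 993) (.e (nat_lit 172033) (nat_lit 0) (.e (nat_lit 7545) (nat_lit 402) (.e (nat_lit 1238) (nat_lit 91) (.e (nat_lit 90172) (nat_lit 14) (.e (nat_lit 180285) (nat_lit 45) (.e (nat_lit 2570) (nat_lit 160) (.e (nat_lit 32807) (nat_lit 18) .nil))))))) (.g (nat_lit 4) .nil .nil))))))) (.nd (nat_lit 3) (.nd (nat_lit 4) (.nd (nat_lit 5) (.nd (nat_lit 6) 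
(.lf (nat_lit 260998) (.g (nat_lit 3172) (.e (nat_lit 171776) (nat_lit 262) (.e (nat_lit 57373) (nat_lit 2) (.e (nat_lit 90170) (nat_lit 13) (.e (nat_lit 172113) (nat_lit 10) (.e (nat_lit 434245) (nat_lit 28) .nil))))) .nil)) 
(.lf (nat_lit 261062) (.g (nat_lit 4298) (.e (nat_lit 164422) (nat_lit 272) (.e (nat_lit 1221) (nat_lit 90) (.e (nat_lit 81956) (nat_lit 23) (.e (nat_lit 98333) (nat_lit 18) (.e (nat_lit 164182) (nat_lit 154) .nil))))) .nil))) (.nd (nat_lit 6) 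
(.lf (nat_lit 261030) (.g (nat_lit 454) (.e (nat_lit 164421) (nat_lit 272) (.e (nat_lit 1209) (nat_lit 89) (.e (nat_lit 81664) (nat_lit 36) .nil))) .nil)) 
(.lf (nat_lit 261094) (.g (nat_lit 4253) (.e (nat_lit 164424) (nat_lit 272) (.e (nat_lit 1200) (nat_lit 88) (.e (nat_lit 65629) (nat_lit 14) (.e (nat_lit 401459) (nat_lit 13) (.e (nat_lit 483411) (nat_lit 27) (.e (nat_lit 401422) (nat_lit 1) .nil)))))) (.g (nat_lit 5) .nil .nil))))) (.nd (nat_lit 5) (.nd (nat_lit 6) 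
(.lf (nat_lit 261014) (.g (nat_lit 2565) (.e (nat_lit 171776) (nat_lit 262) (.e (nat_lit 57448) (nat_lit 19) (.e (nat_lit 393298) (nat_lit 27) (.e (nat_lit 491570) (nat_lit 13) (.e (nat_lit 393252) (nat_lit 18) .nil))))) .nil)) 
(.lf (nat_lit 261078) (.g (nat_lit 3230) (.e (nat_lit 164423) (nat_lit 272) (.e (nat_lit 1182) (nat_lit 87) (.e (nat_lit 57479) (nat_lit 28) (.e (nat_lit 557109) (nat_lit 15) (.e (nat_lit 188452) (nat_lit 23) .nil))))) .nil))) (.nd (nat_lit 6) 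
(.lf (nat_lit 261046) (.g (nat_lit 1966) (.e (nat_lit 164422) (nat_lit 272) (.e (nat_lit 1188) (nat_lit 88) (.e (nat_lit 65630) (nat_lit 14) (.e (nat_lit 401459) (nat_lit 13) (.e (nat_lit 483411) (nat_lit 27) .nil))))) .nil)) 
(.lf (nat_lit 261110) (.g (nat_lit 1098) (.e (nat_lit 172033) (nat_lit 0) (.e (nat_lit 7545) (nat_lit 402) (.e (nat_lit 1228) (nat_lit 91) (.e (nat_lit 90172) (nat_lit 14) (.e (nat_lit 180285) (nat_lit 45) (.e (nat_lit 2569) (nat_lit 160) (.e (nat_lit 32807) (nat_lit 18) .nil))))))) (.g (nat_lit 4) .nil .nil)))))) (.nd (nat_lit 4) (.nd (nat_lit 5) (.nd (nat_lit 6) 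
(.lf (nat_lit 261006) (.g (nat_lit 1689) (.e (nat_lit 171776) (nat_lit 262) (.e (nat_lit 57447) (nat_lit 19) (.e (nat_lit 393298) (nat_lit 27) (.e (nat_lit 491570) (nat_lit 13) .nil)))) .nil)) 
(.lf (nat_lit 261070) (.g (nat_lit 2483) (.e (nat_lit 164422) (nat_lit 272) (.e (nat_lit 1221) (nat_lit 90) (.e (nat_lit 81959) (nat_lit 24) (.e (nat_lit 123195) (nat_lit 266) (.e (nat_lit 57346) (nat_lit 0) .nil))))) .nil))) (.nd (nat_lit 6) 
(.lf (nat_lit 261038) (.g (nat_lit 1991) (.e (nat_lit 164421) (nat_lit 272) (.e (nat_lit 1221) (nat_lit 90) (.e (nat_lit 81959) (nat_lit 24) (.e (nat_lit 123182) (nat_lit 264) .nil)))) .nil)) 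
(.lf (nat_lit 261102) (.g (nat_lit 2148) (.e (nat_lit 172032) (nat_lit 0) (.e (nat_lit 7490) (nat_lit 402) (.e (nat_lit 1400) (nat_lit 106) (.e (nat_lit 319533) (nat_lit 16) (.e (nat_lit 286753) (nat_lit 10) (.e (nat_lit 344154) (nat_lit 35) (.e (nat_lit 630802) (nat_lit 8) .nil))))))) (.g (nat_lit 5) .nil .nil))))) (.nd (nat_lit 5) (.nd (nat_lit 6) 
(.lf (nat_lit 261022) (.g (nat_lit 1838) (.e (nat_lit 164421) (nat_lit 272) (.e (nat_lit 1187) (nat_lit 88) (.e (nat_lit 65630) (nat_lit 14) (.e (nat_lit 401457) (nat_lit 13) (.e (nat_lit 483413) (nat_lit 27) .nil))))) .nil)) 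
(.lf (nat_lit 261086) (.g (nat_lit 2085) (.e (nat_lit 164424) (nat_lit 272) (.e (nat_lit 1182) (nat_lit 87) (.e (nat_lit 57478) (nat_lit 28) (.e (nat_lit 557107) (nat_lit 15) (.e (nat_lit 188440) (nat_lit 20) .nil))))) .nil))) (.nd (nat_lit 6) 
(.lf (nat_lit 261054) (.g (nat_lit 2342) (.e (nat_lit 164422) (nat_lit 272) (.e (nat_lit 1200) (nat_lit 88) (.e (nat_lit 65630) (nat_lit 14) (.e (nat_lit 401459) (nat_lit 13) (.e (nat_lit 483344) (nat_lit 17) .nil))))) .nil)) 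
(.lf (nat_lit 261118) (.g (nat_lit 2691) (.e (nat_lit 172034) (nat_lit 0) (.e (nat_lit 3276) (nat_lit 200) (.e (nat_lit 557103) (nat_lit 14) (.e (nat_lit 180250) (nat_lit 10) (.e (nat_lit 573480) (nat_lit 13) (.e (nat_lit 65644) (nat_lit 22) (.e (nat_lit 245776) (nat_lit 4) .nil))))))) (.g (nat_lit 5) .nil .nil))))))))) 
(.nd (nat_lit 1) (.nd (nat_lit 2) (.nd (nat_lit 3) (.nd (nat_lit 4) (.nd (nat_lit 5) 
(.nd (nat_lit 6) 
(.lf (nat_lit 260993) (.g (nat_lit 2384) (.e (nat_lit 164406) (nat_lit 258) (.e (nat_lit 163875) (nat_lit 3) (.e (nat_lit 204880) (nat_lit 32) (.e (nat_lit 385096) (nat_lit 49) (.e (nat_lit 778262) (nat_lit 0) .nil))))) .nil)) 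
(.lf (nat_lit 261057) (.g (nat_lit 4342) (.e (nat_lit 164422) (nat_lit 272) (.e (nat_lit 1220) (nat_lit 90) (.e (nat_lit 81956) (nat_lit 23) (.e (nat_lit 98333) (nat_lit 18) (.e (nat_lit 164182) (nat_lit 154) .nil))))) .nil))) (.nd (nat_lit 6) 
(.lf (nat_lit 261025) (.g (nat_lit 3624) (.e (nat_lit 164421) (nat_lit 272) (.e (nat_lit 1190) (nat_lit 88) (.e (nat_lit 65628) (nat_lit 14) (.e (nat_lit 401459) (nat_lit 13) (.e (nat_lit 483411) (nat_lit 27) (.e (nat_lit 401422) (nat_lit 1) .nil)))))) (.g (nat_lit 6) .nil .nil))) 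
(.lf (nat_lit 261089) (.g (nat_lit 2700) (.e (nat_lit 164424) (nat_lit 272) (.e (nat_lit 1196) (nat_lit 88) (.e (nat_lit 65630) (nat_lit 14) (.e (nat_lit 401459) (nat_lit 13) (.e (nat_lit 483344) (nat_lit 17) .nil))))) .nil)))) (.nd (nat_lit 5) (.nd (nat_lit 6) 
(.lf (nat_lit 261009) (.g (nat_lit 638) (.e (nat_lit 171776) (nat_lit 262) (.e (nat_lit 57447) (nat_lit 19) (.e (nat_lit 393301) (nat_lit 27) .nil))) .nil)) 
(.lf (nat_lit 261073) (.g (nat_lit 2499) (.e (nat_lit 164422) (nat_lit 272) (.e (nat_lit 1221) (nat_lit 90) (.e (nat_lit 81959) (nat_lit 24) (.e (nat_lit 123195) (nat_lit 266) (.e (nat_lit 57403) (nat_lit 11) .nil))))) .nil))) (.nd (nat_lit 6) 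
(.lf (nat_lit 261041) (.g (nat_lit 1745) (.e (nat_lit 164421) (nat_lit 272) (.e (nat_lit 1221) (nat_lit 90) (.e (nat_lit 81959) (nat_lit 24) (.e (nat_lit 123229) (nat_lit 282) .nil)))) .nil)) 
(.lf (nat_lit 261105) (.g (nat_lit 516) (.e (nat_lit 172032) (nat_lit 0) (.e (nat_lit 7540) (nat_lit 402) (.e (nat_lit 1228) (nat_lit 91) (.e (nat_lit 90172) (nat_lit 14) .nil)))) .nil))))) (.nd (nat_lit 4) (.nd (nat_lit 5) (.nd (nat_lit 6) 
(.lf (nat_lit 261001) (.g (nat_lit 1399) (.e (nat_lit 171776) (nat_lit 262) (.e (nat_lit 57379) (nat_lit 3) (.e (nat_lit 98373) (nat_lit 29) (.e (nat_lit 450586) (nat_lit 10) .nil)))) .nil)) 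
(.lf (nat_lit 261065) (.g (nat_lit 3593) (.e (nat_lit 164422) (nat_lit 272) (.e (nat_lit 1221) (nat_lit 90) (.e (nat_lit 81956) (nat_lit 23) (.e (nat_lit 98334) (nat_lit 18) (.e (nat_lit 164182) (nat_lit 154) .nil))))) .nil))) (.nd (nat_lit 6) 
(.lf (nat_lit 261033) (.g (nat_lit 2815) (.e (nat_lit 164421) (nat_lit 272) (.e (nat_lit 1221) (nat_lit 90) (.e (nat_lit 81950) (nat_lit 21) (.e (nat_lit 57846) (nat_lit 252) (.e (nat_lit 57388) (nat_lit 5) .nil))))) .nil)) 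
(.lf (nat_lit 261097) (.g (nat_lit 714) (.e (nat_lit 171776) (nat_lit 274) (.e (nat_lit 57389) (nat_lit 5) (.e (nat_lit 114712) (nat_lit 21) .nil))) .nil)))) (.nd (nat_lit 5) (.nd (nat_lit 6) 
(.lf (nat_lit 261017) (.g (nat_lit 2563) (.e (nat_lit 171776) (nat_lit 262) (.e (nat_lit 57448) (nat_lit 19) (.e (nat_lit 393300) (nat_lit 27) (.e (nat_lit 491568) (nat_lit 13) (.e (nat_lit 393253) (nat_lit 18) .nil))))) .nil)) 
(.lf (nat_lit 261081) (.g (nat_lit 2378) (.e (nat_lit 164423) (nat_lit 272) (.e (nat_lit 1199) (nat_lit 88) (.e (nat_lit 65629) (nat_lit 14) (.e (nat_lit 401459) (nat_lit 13) (.e (nat_lit 483344) (nat_lit 17) .nil))))) .nil))) (.nd (nat_lit 6) 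
(.lf (nat_lit 261049) (.g (nat_lit 2768) (.e (nat_lit 164422) (nat_lit 272) (.e (nat_lit 1190) (nat_lit 88) (.e (nat_lit 65630) (nat_lit 14) (.e (nat_lit 401459) (nat_lit 13) (.e (nat_lit 483344) (nat_lit 17) .nil))))) .nil)) 
(.lf (nat_lit 261113) (.g (nat_lit 1154) (.e (nat_lit 172033) (nat_lit 0) (.e (nat_lit 7545) (nat_lit 402) (.e (nat_lit 1238) (nat_lit 91) (.e (nat_lit 90172) (nat_lit 14) (.e (nat_lit 180285) (nat_lit 45) (.e (nat_lit 2569) (nat_lit 160) (.e (nat_lit 32807) (nat_lit 18) .nil))))))) (.g (nat_lit 4) .nil .nil))))))) (.nd (nat_lit 3) (.nd (nat_lit 4) (.nd (nat_lit 5) (.nd (nat_lit 6) 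
(.lf (nat_lit 260997) (.g (nat_lit 2633) (.e (nat_lit 171776) (nat_lit 262) (.e (nat_lit 57373) (nat_lit 2) (.e (nat_lit 90170) (nat_lit 13) (.e (nat_lit 172106) (nat_lit 10) (.e (nat_lit 434244) (nat_lit 28) .nil))))) .nil)) 
(.lf (nat_lit 261061) (.g (nat_lit 3024) (.e (nat_lit 164422) (nat_lit 272) (.e (nat_lit 1221) (nat_lit 90) (.e (nat_lit 81956) (nat_lit 23) (.e (nat_lit 98333) (nat_lit 18) .nil)))) .nil))) (.nd (nat_lit 6) 
(.lf (nat_lit 261029) (.g (nat_lit 2456) (.e (nat_lit 164421) (nat_lit 272) (.e (nat_lit 1200) (nat_lit 88) (.e (nat_lit 65630) (nat_lit 14) (.e (nat_lit 401459) (nat_lit 13) (.e (nat_lit 483411) (nat_lit 27) .nil))))) .nil)) 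
(.lf (nat_lit 261093) (.g (nat_lit 2457) (.e (nat_lit 164424) (nat_lit 272) (.e (nat_lit 1200) (nat_lit 88) (.e (nat_lit 65629) (nat_lit 14) (.e (nat_lit 401459) (nat_lit 13) (.e (nat_lit 483344) (nat_lit 17) .nil))))) .nil)))) (.nd (nat_lit 5) (.nd (nat_lit 6) 
(.lf (nat_lit 261013) (.g (nat_lit 1326) (.e (nat_lit 171776) (nat_lit 262) (.e (nat_lit 57448) (nat_lit 19) (.e (nat_lit 393298) (nat_lit 27) (.e (nat_lit 491570) (nat_lit 13) .nil)))) .nil)) 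
(.lf (nat_lit 261077) (.g (nat_lit 1682) (.e (nat_lit 164423) (nat_lit 272) (.e (nat_lit 1181) (nat_lit 87) (.e (nat_lit 57480) (nat_lit 28) (.e (nat_lit 557108) (nat_lit 15) .nil)))) .nil))) (.nd (nat_lit 6) 
(.lf (nat_lit 261045) (.g (nat_lit 2060) (.e (nat_lit 164422) (nat_lit 272) (.e (nat_lit 1182) (nat_lit 87) (.e (nat_lit 57480) (nat_lit 28) (.e (nat_lit 557108) (nat_lit 15) (.e (nat_lit 188452) (nat_lit 23) .nil))))) .nil)) 
(.lf (nat_lit 261109) (.g (nat_lit 995) (.e (nat_lit 172032) (nat_lit 0) (.e (nat_lit 7545) (nat_lit 402) (.e (nat_lit 1227) (nat_lit 91) (.e (nat_lit 90172) (nat_lit 14) (.e (nat_lit 180285) (nat_lit 45) (.e (nat_lit 2571) (nat_lit 160) (.e (nat_lit 32807) (nat_lit 18) .nil))))))) (.g (nat_lit 4) .nil .nil)))))) (.nd (nat_lit 4) (.nd (nat_lit 5) (.nd (nat_lit 6) 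
(.lf (nat_lit 261005) (.g (nat_lit 1202) (.e (nat_lit 171776) (nat_lit 262) (.e (nat_lit 57447) (nat_lit 19) (.e (nat_lit 393297) (nat_lit 27) .nil))) .nil)) 
(.lf (nat_lit 261069) (.g (nat_lit 1676) (.e (nat_lit 164422) (nat_lit 272) (.e (nat_lit 1221) (nat_lit 90) (.e (nat_lit 81959) (nat_lit 24) (.e (nat_lit 123195) (nat_lit 266) .nil)))) .nil))) (.nd (nat_lit 6) 
(.lf (nat_lit 261037) (.g (nat_lit 2352) (.e (nat_lit 164421) (nat_lit 272) (.e (nat_lit 1221) (nat_lit 90) (.e (nat_lit 81956) (nat_lit 23) (.e (nat_lit 98334) (nat_lit 18) .nil)))) .nil)) 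
(.lf (nat_lit 261101) (.g (nat_lit 354) (.e (nat_lit 172032) (nat_lit 0) (.e (nat_lit 3471) (nat_lit 217) (.e (nat_lit 696343) (nat_lit 8) .nil))) .nil)))) (.nd (nat_lit 5) (.nd (nat_lit 6) 
(.lf (nat_lit 261021) (.g (nat_lit 1793) (.e (nat_lit 164419) (nat_lit 272) (.e (nat_lit 1179) (nat_lit 87) (.e (nat_lit 57480) (nat_lit 28) (.e (nat_lit 557108) (nat_lit 15) (.e (nat_lit 188452) (nat_lit 23) .nil))))) .nil)) 
(.lf (nat_lit 261085) (.g (nat_lit 2475) (.e (nat_lit 164424) (nat_lit 272) (.e (nat_lit 1181) (nat_lit 87) (.e (nat_lit 57480) (nat_lit 28) (.e (nat_lit 557107) (nat_lit 15) (.e (nat_lit 188439) (nat_lit 20) .nil))))) .nil))) (.nd (nat_lit 6) 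
(.lf (nat_lit 261053) (.g (nat_lit 2457) (.e (nat_lit 164422) (nat_lit 272) (.e (nat_lit 1200) (nat_lit 88) (.e (nat_lit 65629) (nat_lit 14) (.e (nat_lit 401459) (nat_lit 13) (.e (nat_lit 483344) (nat_lit 17) .nil))))) .nil)) 
(.lf (nat_lit 261117) (.g (nat_lit 2518) (.e (nat_lit 172034) (nat_lit 0) (.e (nat_lit 3276) (nat_lit 200) (.e (nat_lit 557100) (nat_lit 13) (.e (nat_lit 172113) (nat_lit 10) (.e (nat_lit 434208) (nat_lit 18) .nil))))) .nil))))))) (.nd (nat_lit 2) (.nd (nat_lit 3) (.nd (nat_lit 4) (.nd (nat_lit 5) (.nd (nat_lit 6) 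
(.lf (nat_lit 260995) (.g (nat_lit 2239) (.e (nat_lit 164413) (nat_lit 260) (.e (nat_lit 1074) (nat_lit 81) (.e (nat_lit 1633) (nat_lit 114) (.e (nat_lit 385074) (nat_lit 31) (.e (nat_lit 573493) (nat_lit 15) .nil))))) .nil)) 
(.lf (nat_lit 261059) (.g (nat_lit 3621) (.e (nat_lit 164422) (nat_lit 272) (.e (nat_lit 1220) (nat_lit 90) (.e (nat_lit 81956) (nat_lit 23) (.e (nat_lit 98334) (nat_lit 18) (.e (nat_lit 164182) (nat_lit 154) .nil))))) .nil))) (.nd (nat_lit 6) 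
(.lf (nat_lit 261027) (.g (nat_lit 4370) (.e (nat_lit 164421) (nat_lit 272) (.e (nat_lit 1190) (nat_lit 88) (.e (nat_lit 65630) (nat_lit 14) (.e (nat_lit 401459) (nat_lit 13) (.e (nat_lit 483410) (nat_lit 27) (.e (nat_lit 401422) (nat_lit 1) .nil)))))) (.g (nat_lit 6) .nil .nil))) 
(.lf (nat_lit 261091) (.g (nat_lit 2060) (.e (nat_lit 164424) (nat_lit 272) (.e (nat_lit 1200) (nat_lit 88) (.e (nat_lit 65619) (nat_lit 10) (.e (nat_lit 344117) (nat_lit 21) (.e (nat_lit 516115) (nat_lit 1) .nil))))) .nil)))) (.nd (nat_lit 5) (.nd (nat_lit 6) 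
(.lf (nat_lit 261011) (.g (nat_lit 3478) (.e (nat_lit 171776) (nat_lit 262) (.e (nat_lit 57447) (nat_lit 19) (.e (nat_lit 393301) (nat_lit 27) (.e (nat_lit 491568) (nat_lit 13) (.e (nat_lit 393252) (nat_lit 18) .nil))))) .nil)) 
(.lf (nat_lit 261075) (.g (nat_lit 3566) (.e (nat_lit 164423) (nat_lit 272) (.e (nat_lit 1181) (nat_lit 87) (.e (nat_lit 57479) (nat_lit 28) (.e (nat_lit 557109) (nat_lit 15) (.e (nat_lit 188452) (nat_lit 23) .nil))))) .nil))) (.nd (nat_lit 6) 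
(.lf (nat_lit 261043) (.g (nat_lit 2473) (.e (nat_lit 164422) (nat_lit 272) (.e (nat_lit 1181) (nat_lit 87) (.e (nat_lit 57480) (nat_lit 28) (.e (nat_lit 557107) (nat_lit 15) (.e (nat_lit 188439) (nat_lit 20) .nil))))) .nil)) 
(.lf (nat_lit 261107) (.g (nat_lit 1113) (.e (nat_lit 172032) (nat_lit 0) (.e (nat_lit 7540) (nat_lit 402) (.e (nat_lit 1238) (nat_lit 91) (.e (nat_lit 90176) (nat_lit 15) (.e (nat_lit 188439) (nat_lit 20) .nil))))) .nil))))) (.nd (nat_lit 4) (.nd (nat_lit 5) (.nd (nat_lit 6) 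
(.lf (nat_lit 261003) (.g (nat_lit 3646) (.e (nat_lit 171776) (nat_lit 262) (.e (nat_lit 57445) (nat_lit 19) (.e (nat_lit 393298) (nat_lit 27) (.e (nat_lit 491571) (nat_lit 13) (.e (nat_lit 393251) (nat_lit 18) .nil))))) .nil)) 
(.lf (nat_lit 261067) (.g (nat_lit 1910) (.e (nat_lit 164422) (nat_lit 272) (.e (nat_lit 1221) (nat_lit 90) (.e (nat_lit 81959) (nat_lit 24) (.e (nat_lit 123182) (nat_lit 264) .nil)))) .nil))) (.nd (nat_lit 6) 
(.lf (nat_lit 261035) (.g (nat_lit 3062) (.e (nat_lit 164421) (nat_lit 272) (.e (nat_lit 1221) (nat_lit 90) (.e (nat_lit 81956) (nat_lit 23) (.e (nat_lit 98333) (nat_lit 18) .nil)))) .nil)) 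
(.lf (nat_lit 261099) (.g (nat_lit 1544) (.e (nat_lit 171776) (nat_lit 274) (.e (nat_lit 57389) (nat_lit 5) (.e (nat_lit 114719) (nat_lit 23) (.e (nat_lit 98317) (nat_lit 9) .nil)))) .nil)))) (.nd (nat_lit 5) (.nd (nat_lit 6) 
(.lf (nat_lit 261019) (.g (nat_lit 744) (.e (nat_lit 164416) (nat_lit 266) (.e (nat_lit 1209) (nat_lit 89) (.e (nat_lit 73747) (nat_lit 3) .nil))) .nil)) 
(.lf (nat_lit 261083) (.g (nat_lit 2933) (.e (nat_lit 164424) (nat_lit 272) (.e (nat_lit 1178) (nat_lit 87) (.e (nat_lit 57479) (nat_lit 28) (.e (nat_lit 557100) (nat_lit 13) (.e (nat_lit 172113) (nat_lit 10) .nil))))) .nil))) (.nd (nat_lit 6) 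
(.lf (nat_lit 261051) (.g (nat_lit 2416) (.e (nat_lit 164422) (nat_lit 272) (.e (nat_lit 1199) (nat_lit 88) (.e (nat_lit 65630) (nat_lit 14) (.e (nat_lit 401459) (nat_lit 13) (.e (nat_lit 483344) (nat_lit 17) (.e (nat_lit 6619) (nat_lit 357) (.e (nat_lit 2612) (nat_lit 163) .nil))))))) (.g (nat_lit 4) .nil .nil))) 
(.lf (nat_lit 261115) (.g (nat_lit 1003) (.e (nat_lit 172033) (nat_lit 0) (.e (nat_lit 7545) (nat_lit 402) (.e (nat_lit 1238) (nat_lit 91) (.e (nat_lit 90172) (nat_lit 14) (.e (nat_lit 180285) (nat_lit 45) (.e (nat_lit 2571) (nat_lit 160) (.e (nat_lit 32807) (nat_lit 18) .nil))))))) (.g (nat_lit 4) .nil .nil))))))) (.nd (nat_lit 3) (.nd (nat_lit 4) (.nd (nat_lit 5) (.nd (nat_lit 6) 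
(.lf (nat_lit 260999) (.g (nat_lit 1926) (.e (nat_lit 171776) (nat_lit 262) (.e (nat_lit 57378) (nat_lit 3) (.e (nat_lit 98372) (nat_lit 29) (.e (nat_lit 450586) (nat_lit 10) (.e (nat_lit 573471) (nat_lit 11) .nil))))) .nil)) 
(.lf (nat_lit 261063) (.g (nat_lit 4097) (.e (nat_lit 164422) (nat_lit 272) (.e (nat_lit 1221) (nat_lit 90) (.e (nat_lit 81956) (nat_lit 23) (.e (nat_lit 98333) (nat_lit 18) (.e (nat_lit 164183) (nat_lit 154) .nil))))) .nil))) (.nd (nat_lit 6) 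
(.lf (nat_lit 261031) (.g (nat_lit 3089) (.e (nat_lit 164421) (nat_lit 272) (.e (nat_lit 1220) (nat_lit 90) (.e (nat_lit 81956) (nat_lit 23) (.e (nat_lit 98333) (nat_lit 18) .nil)))) .nil)) 
(.lf (nat_lit 261095) (.g (nat_lit 2297) (.e (nat_lit 164424) (nat_lit 272) (.e (nat_lit 1200) (nat_lit 88) (.e (nat_lit 65630) (nat_lit 14) (.e (nat_lit 401459) (nat_lit 13) (.e (nat_lit 483344) (nat_lit 17) .nil))))) .nil)))) (.nd (nat_lit 5) (.nd (nat_lit 6) 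
(.lf (nat_lit 261015) (.g (nat_lit 2572) (.e (nat_lit 171776) (nat_lit 262) (.e (nat_lit 57448) (nat_lit 19) (.e (nat_lit 393298) (nat_lit 27) (.e (nat_lit 491570) (nat_lit 13) (.e (nat_lit 393253) (nat_lit 18) .nil))))) .nil)) 
(.lf (nat_lit 261079) (.g (nat_lit 2167) (.e (nat_lit 164423) (nat_lit 272) (.e (nat_lit 1187) (nat_lit 88) (.e (nat_lit 65630) (nat_lit 14) (.e (nat_lit 401459) (nat_lit 13) (.e (nat_lit 483410) (nat_lit 27) .nil))))) .nil))) (.nd (nat_lit 6) 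
(.lf (nat_lit 261047) (.g (nat_lit 1779) (.e (nat_lit 164422) (nat_lit 272) (.e (nat_lit 1190) (nat_lit 88) (.e (nat_lit 65628) (nat_lit 14) (.e (nat_lit 401459) (nat_lit 13) (.e (nat_lit 483344) (nat_lit 17) .nil))))) .nil)) 
(.lf (nat_lit 261111) (.g (nat_lit 942) (.e (nat_lit 172033) (nat_lit 0) (.e (nat_lit 7545) (nat_lit 402) (.e (nat_lit 1228) (nat_lit 91) (.e (nat_lit 90172) (nat_lit 14) (.e (nat_lit 180285) (nat_lit 45) (.e (nat_lit 2570) (nat_lit 160) (.e (nat_lit 32807) (nat_lit 18) .nil))))))) (.g (nat_lit 4) .nil .nil)))))) (.nd (nat_lit 4) (.nd (nat_lit 5) (.nd (nat_lit 6) 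
(.lf (nat_lit 261007) (.g (nat_lit 3232) (.e (nat_lit 171776) (nat_lit 262) (.e (nat_lit 57447) (nat_lit 19) (.e (nat_lit 393298) (nat_lit 27) (.e (nat_lit 491571) (nat_lit 13) (.e (nat_lit 393251) (nat_lit 18) .nil))))) .nil)) 
(.lf (nat_lit 261071) (.g (nat_lit 2176) (.e (nat_lit 164422) (nat_lit 272) (.e (nat_lit 1221) (nat_lit 90) (.e (nat_lit 81959) (nat_lit 24) (.e (nat_lit 123195) (nat_lit 266) (.e (nat_lit 57400) (nat_lit 10) .nil))))) .nil))) (.nd (nat_lit 6) 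
(.lf (nat_lit 261039) (.g (nat_lit 1821) (.e (nat_lit 164421) (nat_lit 272) (.e (nat_lit 1221) (nat_lit 90) (.e (nat_lit 81959) (nat_lit 24) (.e (nat_lit 123195) (nat_lit 266) .nil)))) .nil)) 
(.lf (nat_lit 261103) (.g (nat_lit 2412) (.e (nat_lit 172032) (nat_lit 0) (.e (nat_lit 7490) (nat_lit 402) (.e (nat_lit 1400) (nat_lit 106) (.e (nat_lit 319534) (nat_lit 16) (.e (nat_lit 286756) (nat_lit 10) (.e (nat_lit 344157) (nat_lit 36) (.e (nat_lit 638999) (nat_lit 8) .nil))))))) (.g (nat_lit 5) .nil .nil))))) (.nd (nat_lit 5) (.nd (nat_lit 6) 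
(.lf (nat_lit 261023) (.g (nat_lit 1966) (.e (nat_lit 164421) (nat_lit 272) (.e (nat_lit 1188) (nat_lit 88) (.e (nat_lit 65630) (nat_lit 14) (.e (nat_lit 401459) (nat_lit 13) (.e (nat_lit 483411) (nat_lit 27) .nil))))) .nil)) 
(.lf (nat_lit 261087) (.g (nat_lit 1602) (.e (nat_lit 164424) (nat_lit 272) (.e (nat_lit 1182) (nat_lit 87) (.e (nat_lit 57479) (nat_lit 28) (.e (nat_lit 557109) (nat_lit 15) .nil)))) .nil))) (.nd (nat_lit 6) 
(.lf (nat_lit 261055) (.g (nat_lit 1615) (.e (nat_lit 164422) (nat_lit 272) (.e (nat_lit 1220) (nat_lit 90) (.e (nat_lit 81953) (nat_lit 22) (.e (nat_lit 98048) (nat_lit 2) .nil)))) .nil)) 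
(.lf (nat_lit 261119) (.g (nat_lit 968) (.e (nat_lit 172034) (nat_lit 0) (.e (nat_lit 3276) (nat_lit 200) (.e (nat_lit 557109) (nat_lit 15) (.e (nat_lit 188461) (nat_lit 26) .nil)))) .nil)))))))))

noncomputable def tv3372 : DT := (.nd (nat_lit 0) (.nd (nat_lit 1) (.nd (nat_lit 2) (.nd (nat_lit 3) (.nd (nat_lit 4) (.nd (nat_lit 5) (.nd (nat_lit 6) 
(.lf (nat_lit 261120) (.g (nat_lit 1589) (.e (nat_lit 172034) (nat_lit 0) (.e (nat_lit 3276) (nat_lit 200) (.e (nat_lit 557109) (nat_lit 15) (.e (nat_lit 188461) (nat_lit 26) (.e (nat_lit 253959) (nat_lit 9) .nil))))) .nil)) 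
(.lf (nat_lit 261184) (.g (nat_lit 1717) (.e (nat_lit 172059) (nat_lit 1) (.e (nat_lit 164332) (nat_lit 230) (.e (nat_lit 163885) (nat_lit 5) (.e (nat_lit 221206) (nat_lit 21) .nil)))) .nil))) (.nd (nat_lit 6) 
(.lf (nat_lit 261152) (.g (nat_lit 3204) (.e (nat_lit 172045) (nat_lit 0) (.e (nat_lit 3307) (nat_lit 202) (.e (nat_lit 573489) (nat_lit 14) (.e (nat_lit 73755) (nat_lit 8) (.e (nat_lit 557091) (nat_lit 12) .nil))))) .nil)) 
(.lf (nat_lit 261216) (.g (nat_lit 1742) (.e (nat_lit 172060) (nat_lit 1) (.e (nat_lit 164332) (nat_lit 230) (.e (nat_lit 163885) (nat_lit 5) (.e (nat_lit 221208) (nat_lit 21) (.e (nat_lit 164305) (nat_lit 226) .nil))))) .nil)))) (.nd (nat_lit 5) (.nd (nat_lit 6) 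
(.lf (nat_lit 261136) (.g (nat_lit 1964) (.e (nat_lit 172038) (nat_lit 0) (.e (nat_lit 7107) (nat_lit 380) (.e (nat_lit 164261) (nat_lit 221) (.e (nat_lit 1360) (nat_lit 102) (.e (nat_lit 286753) (nat_lit 10) (.e (nat_lit 344154) (nat_lit 35) (.e (nat_lit 630802) (nat_lit 8) .nil))))))) (.g (nat_lit 5) .nil .nil))) 
(.lf (nat_lit 261200) (.g (nat_lit 3054) (.e (nat_lit 172059) (nat_lit 1) (.e (nat_lit 164401) (nat_lit 256) (.e (nat_lit 57447) (nat_lit 19) (.e (nat_lit 393234) (nat_lit 17) (.e (nat_lit 7581) (nat_lit 405) (.e (nat_lit 57477) (nat_lit 28) (.e (nat_lit 557097) (nat_lit 13) .nil))))))) (.g (nat_lit 5) .nil .nil)))) (.nd (nat_lit 6) 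
(.lf (nat_lit 261168) (.g (nat_lit 763) (.e (nat_lit 172059) (nat_lit 1) (.e (nat_lit 164325) (nat_lit 230) (.e (nat_lit 163861) (nat_lit 1) .nil))) .nil)) 
(.lf (nat_lit 261232) (.g (nat_lit 1350) (.e (nat_lit 172061) (nat_lit 1) (.e (nat_lit 164322) (nat_lit 230) (.e (nat_lit 163885) (nat_lit 5) (.e (nat_lit 221208) (nat_lit 21) .nil)))) .nil))))) (.nd (nat_lit 4) (.nd (nat_lit 5) (.nd (nat_lit 6) 
(.lf (nat_lit 261128) (.g (nat_lit 1227) (.e (nat_lit 172036) (nat_lit 0) (.e (nat_lit 7537) (nat_lit 402) (.e (nat_lit 1661) (nat_lit 115) (.e (nat_lit 393282) (nat_lit 24) .nil)))) .nil)) 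
(.lf (nat_lit 261192) (.g (nat_lit 1931) (.e (nat_lit 172059) (nat_lit 1) (.e (nat_lit 164398) (nat_lit 256) (.e (nat_lit 57447) (nat_lit 19) (.e (nat_lit 393231) (nat_lit 17) .nil)))) .nil))) (.nd (nat_lit 6) 
(.lf (nat_lit 261160) (.g (nat_lit 1196) (.e (nat_lit 172051) (nat_lit 0) (.e (nat_lit 3409) (nat_lit 212) (.e (nat_lit 655378) (nat_lit 4) (.e (nat_lit 172041) (nat_lit 0) .nil)))) .nil)) 
(.lf (nat_lit 261224) (.g (nat_lit 1557) (.e (nat_lit 172060) (nat_lit 1) (.e (nat_lit 164403) (nat_lit 256) (.e (nat_lit 57409) (nat_lit 12) (.e (nat_lit 336438) (nat_lit 31) .nil)))) .nil)))) (.nd (nat_lit 5) (.nd (nat_lit 6) 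
(.lf (nat_lit 261144) (.g (nat_lit 1701) (.e (nat_lit 172041) (nat_lit 0) (.e (nat_lit 7540) (nat_lit 402) (.e (nat_lit 1234) (nat_lit 91) (.e (nat_lit 90176) (nat_lit 15) (.e (nat_lit 188439) (nat_lit 20) .nil))))) .nil)) 
(.lf (nat_lit 261208) (.g (nat_lit 2311) (.e (nat_lit 172059) (nat_lit 1) (.e (nat_lit 164403) (nat_lit 256) (.e (nat_lit 57447) (nat_lit 19) (.e (nat_lit 393233) (nat_lit 17) (.e (nat_lit 7583) (nat_lit 405) .nil))))) .nil))) (.nd (nat_lit 6) 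
(.lf (nat_lit 261176) (.g (nat_lit 2213) (.e (nat_lit 172059) (nat_lit 1) (.e (nat_lit 164327) (nat_lit 230) (.e (nat_lit 163886) (nat_lit 5) (.e (nat_lit 221206) (nat_lit 21) (.e (nat_lit 164319) (nat_lit 228) .nil))))) .nil)) 
(.lf (nat_lit 261240) (.g (nat_lit 2291) (.e (nat_lit 172061) (nat_lit 1) (.e (nat_lit 164327) (nat_lit 230) (.e (nat_lit 163884) (nat_lit 5) (.e (nat_lit 221206) (nat_lit 21) (.e (nat_lit 164319) (nat_lit 228) .nil))))) .nil)))))) (.nd (nat_lit 3) (.nd (nat_lit 4) (.nd (nat_lit 5) (.nd (nat_lit 6) 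
(.lf (nat_lit 261124) (.g (nat_lit 1553) (.e (nat_lit 172034) (nat_lit 0) (.e (nat_lit 7541) (nat_lit 402) (.e (nat_lit 1234) (nat_lit 91) (.e (nat_lit 90176) (nat_lit 15) (.e (nat_lit 188439) (nat_lit 20) .nil))))) .nil)) 
(.lf (nat_lit 261188) (.g (nat_lit 1353) (.e (nat_lit 172059) (nat_lit 1) (.e (nat_lit 164332) (nat_lit 230) (.e (nat_lit 163885) (nat_lit 5) (.e (nat_lit 221208) (nat_lit 21) .nil)))) .nil))) (.nd (nat_lit 6) 
(.lf (nat_lit 261156) (.g (nat_lit 3359) (.e (nat_lit 172049) (nat_lit 0) (.e (nat_lit 3307) (nat_lit 202) (.e (nat_lit 573489) (nat_lit 14) (.e (nat_lit 73755) (nat_lit 8) (.e (nat_lit 557090) (nat_lit 12) .nil))))) .nil)) 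
(.lf (nat_lit 261220) (.g (nat_lit 3174) (.e (nat_lit 172060) (nat_lit 1) (.e (nat_lit 164403) (nat_lit 256) (.e (nat_lit 57373) (nat_lit 2) (.e (nat_lit 90178) (nat_lit 15) (.e (nat_lit 188461) (nat_lit 26) .nil))))) .nil)))) (.nd (nat_lit 5) (.nd (nat_lit 6) 
(.lf (nat_lit 261140) (.g (nat_lit 1292) (.e (nat_lit 172040) (nat_lit 0) (.e (nat_lit 7540) (nat_lit 402) (.e (nat_lit 1227) (nat_lit 91) (.e (nat_lit 90172) (nat_lit 14) (.e (nat_lit 180285) (nat_lit 45) (.e (nat_lit 2570) (nat_lit 160) (.e (nat_lit 32807) (nat_lit 18) .nil))))))) (.g (nat_lit 4) .nil .nil))) 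
(.lf (nat_lit 261204) (.g (nat_lit 445) (.e (nat_lit 172059) (nat_lit 1) (.e (nat_lit 164403) (nat_lit 256) (.e (nat_lit 57447) (nat_lit 19) .nil))) .nil))) (.nd (nat_lit 6) 
(.lf (nat_lit 261172) (.g (nat_lit 1337) (.e (nat_lit 172059) (nat_lit 1) (.e (nat_lit 164327) (nat_lit 230) (.e (nat_lit 163871) (nat_lit 2) (.e (nat_lit 196677) (nat_lit 16) .nil)))) .nil)) 
(.lf (nat_lit 261236) (.g (nat_lit 949) (.e (nat_lit 172061) (nat_lit 1) (.e (nat_lit 164326) (nat_lit 230) (.e (nat_lit 163886) (nat_lit 5) (.e (nat_lit 221207) (nat_lit 21) .nil)))) .nil))))) (.nd (nat_lit 4) (.nd (nat_lit 5) (.nd (nat_lit 6) 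
(.lf (nat_lit 261132) (.g (nat_lit 1320) (.e (nat_lit 172037) (nat_lit 0) (.e (nat_lit 7557) (nat_lit 402) (.e (nat_lit 1659) (nat_lit 115) (.e (nat_lit 393282) (nat_lit 24) (.e (nat_lit 434272) (nat_lit 38) .nil))))) .nil)) 
(.lf (nat_lit 261196) (.g (nat_lit 1893) (.e (nat_lit 172059) (nat_lit 1) (.e (nat_lit 164399) (nat_lit 256) (.e (nat_lit 57447) (nat_lit 19) (.e (nat_lit 393231) (nat_lit 17) .nil)))) .nil))) (.nd (nat_lit 6) 
(.lf (nat_lit 261164) (.g (nat_lit 1868) (.e (nat_lit 172057) (nat_lit 0) (.e (nat_lit 3253) (nat_lit 197) (.e (nat_lit 532503) (nat_lit 1) (.e (nat_lit 57683) (nat_lit 155) .nil)))) .nil)) 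
(.lf (nat_lit 261228) (.g (nat_lit 4239) (.e (nat_lit 172061) (nat_lit 1) (.e (nat_lit 164196) (nat_lit 158) (.e (nat_lit 1221) (nat_lit 90) (.e (nat_lit 81953) (nat_lit 22) (.e (nat_lit 90155) (nat_lit 10) .nil))))) .nil)))) (.nd (nat_lit 5) (.nd (nat_lit 6) 
(.lf (nat_lit 261148) (.g (nat_lit 793) (.e (nat_lit 172045) (nat_lit 0) (.e (nat_lit 3307) (nat_lit 202) (.e (nat_lit 573446) (nat_lit 0) .nil))) .nil)) 
(.lf (nat_lit 261212) (.g (nat_lit 875) (.e (nat_lit 172060) (nat_lit 1) (.e (nat_lit 164327) (nat_lit 230) (.e (nat_lit 163886) (nat_lit 5) .nil))) .nil))) (.nd (nat_lit 6) 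
(.lf (nat_lit 261180) (.g (nat_lit 3552) (.e (nat_lit 172059) (nat_lit 1) (.e (nat_lit 164327) (nat_lit 230) (.e (nat_lit 163886) (nat_lit 5) (.e (nat_lit 221207) (nat_lit 21) (.e (nat_lit 164325) (nat_lit 230) (.e (nat_lit 171776) (nat_lit 66) (.e (nat_lit 114715) (nat_lit 22) (.e (nat_lit 90170) (nat_lit 13) .nil)))))))) (.g (nat_lit 5) .nil .nil))) 
(.lf (nat_lit 261244) (.g (nat_lit 1296) (.e (nat_lit 172061) (nat_lit 1) (.e (nat_lit 164327) (nat_lit 230) (.e (nat_lit 163886) (nat_lit 5) (.e (nat_lit 221207) (nat_lit 21) .nil)))) .nil))))))) (.nd (nat_lit 2) (.nd (nat_lit 3) (.nd (nat_lit 4) (.nd (nat_lit 5) (.nd (nat_lit 6) 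
(.lf (nat_lit 261122) (.g (nat_lit 1814) (.e (nat_lit 172034) (nat_lit 0) (.e (nat_lit 3276) (nat_lit 200) (.e (nat_lit 557109) (nat_lit 15) (.e (nat_lit 188461) (nat_lit 26) (.e (nat_lit 253986) (nat_lit 10) .nil))))) .nil)) 
(.lf (nat_lit 261186) (.g (nat_lit 2612) (.e (nat_lit 172059) (nat_lit 1) (.e (nat_lit 164332) (nat_lit 230) (.e (nat_lit 163885) (nat_lit 5) (.e (nat_lit 221207) (nat_lit 21) (.e (nat_lit 164319) (nat_lit 228) .nil))))) .nil))) (.nd (nat_lit 6) 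
(.lf (nat_lit 261154) (.g (nat_lit 1535) (.e (nat_lit 172046) (nat_lit 0) (.e (nat_lit 3238) (nat_lit 197) (.e (nat_lit 532550) (nat_lit 12) (.e (nat_lit 360474) (nat_lit 8) .nil)))) .nil)) 
(.lf (nat_lit 261218) (.g (nat_lit 2035) (.e (nat_lit 172060) (nat_lit 1) (.e (nat_lit 164403) (nat_lit 256) (.e (nat_lit 57373) (nat_lit 2) (.e (nat_lit 90177) (nat_lit 15) .nil)))) .nil)))) (.nd (nat_lit 5) (.nd (nat_lit 6) 
(.lf (nat_lit 261138) (.g (nat_lit 2091) (.e (nat_lit 172039) (nat_lit 0) (.e (nat_lit 7107) (nat_lit 380) (.e (nat_lit 164261) (nat_lit 221) (.e (nat_lit 1360) (nat_lit 102) (.e (nat_lit 286753) (nat_lit 10) (.e (nat_lit 344157) (nat_lit 36) (.e (nat_lit 638999) (nat_lit 8) .nil))))))) (.g (nat_lit 5) .nil .nil))) 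
(.lf (nat_lit 261202) (.g (nat_lit 2030) (.e (nat_lit 172059) (nat_lit 1) (.e (nat_lit 164403) (nat_lit 256) (.e (nat_lit 57409) (nat_lit 12) (.e (nat_lit 336438) (nat_lit 31) (.e (nat_lit 466688) (nat_lit 3) .nil))))) .nil))) (.nd (nat_lit 6) 
(.lf (nat_lit 261170) (.g (nat_lit 2701) (.e (nat_lit 172059) (nat_lit 1) (.e (nat_lit 164326) (nat_lit 230) (.e (nat_lit 163868) (nat_lit 2) (.e (nat_lit 196692) (nat_lit 18) (.e (nat_lit 1359) (nat_lit 102) .nil))))) .nil)) 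
(.lf (nat_lit 261234) (.g (nat_lit 1011) (.e (nat_lit 172061) (nat_lit 1) (.e (nat_lit 164326) (nat_lit 230) (.e (nat_lit 163884) (nat_lit 5) (.e (nat_lit 229120) (nat_lit 14) .nil)))) .nil))))) (.nd (nat_lit 4) (.nd (nat_lit 5) (.nd (nat_lit 6) 
(.lf (nat_lit 261130) (.g (nat_lit 595) (.e (nat_lit 172037) (nat_lit 0) (.e (nat_lit 7107) (nat_lit 380) (.e (nat_lit 164108) (nat_lit 116) .nil))) .nil)) 
(.lf (nat_lit 261194) (.g (nat_lit 2435) (.e (nat_lit 172059) (nat_lit 1) (.e (nat_lit 164398) (nat_lit 256) (.e (nat_lit 57447) (nat_lit 19) (.e (nat_lit 393233) (nat_lit 17) (.e (nat_lit 7581) (nat_lit 405) .nil))))) .nil))) (.nd (nat_lit 6) 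
(.lf (nat_lit 261162) (.g (nat_lit 1179) (.e (nat_lit 172051) (nat_lit 0) (.e (nat_lit 3409) (nat_lit 212) (.e (nat_lit 655378) (nat_lit 4) (.e (nat_lit 172070) (nat_lit 4) .nil)))) .nil)) 
(.lf (nat_lit 261226) (.g (nat_lit 3391) (.e (nat_lit 172060) (nat_lit 1) (.e (nat_lit 164403) (nat_lit 256) (.e (nat_lit 57447) (nat_lit 19) (.e (nat_lit 393301) (nat_lit 27) (.e (nat_lit 491526) (nat_lit 0) (.e (nat_lit 1848) (nat_lit 124) (.e (nat_lit 557097) (nat_lit 13) .nil))))))) (.g (nat_lit 5) .nil .nil))))) (.nd (nat_lit 5) (.nd (nat_lit 6) 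
(.lf (nat_lit 261146) (.g (nat_lit 552) (.e (nat_lit 172045) (nat_lit 0) (.e (nat_lit 3238) (nat_lit 197) (.e (nat_lit 532579) (nat_lit 26) .nil))) .nil)) 
(.lf (nat_lit 261210) (.g (nat_lit 2848) (.e (nat_lit 172059) (nat_lit 1) (.e (nat_lit 164403) (nat_lit 256) (.e (nat_lit 57447) (nat_lit 19) (.e (nat_lit 393301) (nat_lit 27) (.e (nat_lit 491525) (nat_lit 0) .nil))))) .nil))) (.nd (nat_lit 6) 
(.lf (nat_lit 261178) (.g (nat_lit 2197) (.e (nat_lit 172059) (nat_lit 1) (.e (nat_lit 164327) (nat_lit 230) (.e (nat_lit 163886) (nat_lit 5) (.e (nat_lit 221207) (nat_lit 21) (.e (nat_lit 164319) (nat_lit 228) .nil))))) .nil)) 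
(.lf (nat_lit 261242) (.g (nat_lit 1163) (.e (nat_lit 172061) (nat_lit 1) (.e (nat_lit 164327) (nat_lit 230) (.e (nat_lit 163886) (nat_lit 5) (.e (nat_lit 229120) (nat_lit 13) .nil)))) .nil)))))) (.nd (nat_lit 3) (.nd (nat_lit 4) (.nd (nat_lit 5) (.nd (nat_lit 6) 
(.lf (nat_lit 261126) (.g (nat_lit 1541) (.e (nat_lit 172035) (nat_lit 0) (.e (nat_lit 3277) (nat_lit 200) (.e (nat_lit 557108) (nat_lit 15) (.e (nat_lit 188461) (nat_lit 26) .nil)))) .nil)) 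
(.lf (nat_lit 261190) (.g (nat_lit 1723) (.e (nat_lit 172059) (nat_lit 1) (.e (nat_lit 164332) (nat_lit 230) (.e (nat_lit 163885) (nat_lit 5) (.e (nat_lit 221208) (nat_lit 21) (.e (nat_lit 164312) (nat_lit 226) .nil))))) .nil))) (.nd (nat_lit 6) 
(.lf (nat_lit 261158) (.g (nat_lit 1510) (.e (nat_lit 172051) (nat_lit 0) (.e (nat_lit 3238) (nat_lit 197) (.e (nat_lit 532482) (nat_lit 0) (.e (nat_lit 2382) (nat_lit 155) (.e (nat_lit 811011) (nat_lit 0) .nil))))) .nil)) 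
(.lf (nat_lit 261222) (.g (nat_lit 1550) (.e (nat_lit 172060) (nat_lit 1) (.e (nat_lit 164403) (nat_lit 256) (.e (nat_lit 57406) (nat_lit 12) (.e (nat_lit 336434) (nat_lit 30) .nil)))) .nil)))) (.nd (nat_lit 5) (.nd (nat_lit 6) 
(.lf (nat_lit 261142) (.g (nat_lit 1900) (.e (nat_lit 172041) (nat_lit 0) (.e (nat_lit 3453) (nat_lit 216) (.e (nat_lit 688182) (nat_lit 17) (.e (nat_lit 73755) (nat_lit 8) (.e (nat_lit 557104) (nat_lit 14) (.e (nat_lit 180233) (nat_lit 0) (.e (nat_lit 5448) (nat_lit 306) (.e (nat_lit 2630) (nat_lit 164) .nil)))))))) (.g (nat_lit 4) .nil .nil))) 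
(.lf (nat_lit 261206) (.g (nat_lit 2849) (.e (nat_lit 172059) (nat_lit 1) (.e (nat_lit 164403) (nat_lit 256) (.e (nat_lit 57447) (nat_lit 19) (.e (nat_lit 393232) (nat_lit 17) (.e (nat_lit 7583) (nat_lit 405) .nil))))) .nil))) (.nd (nat_lit 6) 
(.lf (nat_lit 261174) (.g (nat_lit 2447) (.e (nat_lit 172059) (nat_lit 1) (.e (nat_lit 164327) (nat_lit 230) (.e (nat_lit 163884) (nat_lit 5) (.e (nat_lit 221206) (nat_lit 21) (.e (nat_lit 164319) (nat_lit 228) .nil))))) .nil)) 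
(.lf (nat_lit 261238) (.g (nat_lit 682) (.e (nat_lit 172061) (nat_lit 1) (.e (nat_lit 164327) (nat_lit 230) (.e (nat_lit 163884) (nat_lit 5) .nil))) .nil))))) (.nd (nat_lit 4) (.nd (nat_lit 5) (.nd (nat_lit 6) 
(.lf (nat_lit 261134) (.g (nat_lit 2466) (.e (nat_lit 172037) (nat_lit 0) (.e (nat_lit 7557) (nat_lit 402) (.e (nat_lit 1661) (nat_lit 115) (.e (nat_lit 393282) (nat_lit 24) (.e (nat_lit 434272) (nat_lit 38) (.e (nat_lit 655376) (nat_lit 4) .nil)))))) (.g (nat_lit 6) .nil .nil))) 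
(.lf (nat_lit 261198) (.g (nat_lit 2097) (.e (nat_lit 172059) (nat_lit 1) (.e (nat_lit 164400) (nat_lit 256) (.e (nat_lit 57372) (nat_lit 2) (.e (nat_lit 90176) (nat_lit 15) (.e (nat_lit 188459) (nat_lit 26) (.e (nat_lit 261888) (nat_lit 4) .nil)))))) (.g (nat_lit 5) .nil .nil)))) (.nd (nat_lit 6) 
(.lf (nat_lit 261166) (.g (nat_lit 1509) (.e (nat_lit 179968) (nat_lit 0) (.e (nat_lit 3253) (nat_lit 197) (.e (nat_lit 532503) (nat_lit 1) (.e (nat_lit 57681) (nat_lit 155) .nil)))) .nil)) 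
(.lf (nat_lit 261230) (.g (nat_lit 1192) (.e (nat_lit 172061) (nat_lit 1) (.e (nat_lit 164196) (nat_lit 158) (.e (nat_lit 1221) (nat_lit 90) (.e (nat_lit 81962) (nat_lit 25) .nil)))) .nil)))) (.nd (nat_lit 5) (.nd (nat_lit 6) 
(.lf (nat_lit 261150) (.g (nat_lit 2789) (.e (nat_lit 172045) (nat_lit 0) (.e (nat_lit 3307) (nat_lit 202) (.e (nat_lit 573489) (nat_lit 14) (.e (nat_lit 73754) (nat_lit 8) (.e (nat_lit 557091) (nat_lit 12) .nil))))) .nil)) 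
(.lf (nat_lit 261214) (.g (nat_lit 1752) (.e (nat_lit 172060) (nat_lit 1) (.e (nat_lit 164332) (nat_lit 230) (.e (nat_lit 163885) (nat_lit 5) (.e (nat_lit 221207) (nat_lit 21) .nil)))) .nil))) (.nd (nat_lit 6) 
(.lf (nat_lit 261182) (.g (nat_lit 1706) (.e (nat_lit 172059) (nat_lit 1) (.e (nat_lit 164327) (nat_lit 230) (.e (nat_lit 163886) (nat_lit 5) (.e (nat_lit 221208) (nat_lit 21) (.e (nat_lit 164305) (nat_lit 226) .nil))))) .nil)) 
(.lf (nat_lit 261246) (.g (nat_lit 2155) (.e (nat_lit 172061) (nat_lit 1) (.e (nat_lit 164327) (nat_lit 230) (.e (nat_lit 163886) (nat_lit 5) (.e (nat_lit 221207) (nat_lit 21) (.e (nat_lit 164308) (nat_lit 226) .nil))))) .nil)))))))) (.nd (nat_lit 1) (.nd (nat_lit 2) (.nd (nat_lit 3) (.nd (nat_lit 4) (.nd (nat_lit 5) (.nd (nat_lit 6) 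
(.lf (nat_lit 261121) (.g (nat_lit 1670) (.e (nat_lit 172034) (nat_lit 0) (.e (nat_lit 3276) (nat_lit 200) (.e (nat_lit 557109) (nat_lit 15) (.e (nat_lit 188461) (nat_lit 26) (.e (nat_lit 253983) (nat_lit 10) .nil))))) .nil)) 
(.lf (nat_lit 261185) (.g (nat_lit 1752) (.e (nat_lit 172059) (nat_lit 1) (.e (nat_lit 164332) (nat_lit 230) (.e (nat_lit 163885) (nat_lit 5) (.e (nat_lit 221207) (nat_lit 21) .nil)))) .nil))) (.nd (nat_lit 6) 
(.lf (nat_lit 261153) (.g (nat_lit 4399) (.e (nat_lit 172046) (nat_lit 0) (.e (nat_lit 3238) (nat_lit 197) (.e (nat_lit 532549) (nat_lit 12) (.e (nat_lit 360475) (nat_lit 8) (.e (nat_lit 557090) (nat_lit 12) .nil))))) .nil)) 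
(.lf (nat_lit 261217) (.g (nat_lit 1687) (.e (nat_lit 172060) (nat_lit 1) (.e (nat_lit 164403) (nat_lit 256) (.e (nat_lit 57373) (nat_lit 2) (.e (nat_lit 90176) (nat_lit 15) .nil)))) .nil)))) (.nd (nat_lit 5) (.nd (nat_lit 6) 
(.lf (nat_lit 261137) (.g (nat_lit 405) (.e (nat_lit 172038) (nat_lit 0) (.e (nat_lit 7107) (nat_lit 380) (.e (nat_lit 164281) (nat_lit 222) .nil))) .nil)) 
(.lf (nat_lit 261201) (.g (nat_lit 591) (.e (nat_lit 172059) (nat_lit 1) (.e (nat_lit 164403) (nat_lit 256) (.e (nat_lit 57373) (nat_lit 2) .nil))) .nil))) (.nd (nat_lit 6) 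
(.lf (nat_lit 261169) (.g (nat_lit 1154) (.e (nat_lit 172059) (nat_lit 1) (.e (nat_lit 164325) (nat_lit 230) (.e (nat_lit 163888) (nat_lit 6) (.e (nat_lit 237312) (nat_lit 137) .nil)))) .nil)) 
(.lf (nat_lit 261233) (.g (nat_lit 1748) (.e (nat_lit 172061) (nat_lit 1) (.e (nat_lit 164322) (nat_lit 230) (.e (nat_lit 163885) (nat_lit 5) (.e (nat_lit 221208) (nat_lit 21) (.e (nat_lit 164305) (nat_lit 226) .nil))))) .nil))))) (.nd (nat_lit 4) (.nd (nat_lit 5) (.nd (nat_lit 6) 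
(.lf (nat_lit 261129) (.g (nat_lit 1199) (.e (nat_lit 172036) (nat_lit 0) (.e (nat_lit 7537) (nat_lit 402) (.e (nat_lit 1661) (nat_lit 115) (.e (nat_lit 393283) (nat_lit 24) .nil)))) .nil)) 
(.lf (nat_lit 261193) (.g (nat_lit 2724) (.e (nat_lit 172059) (nat_lit 1) (.e (nat_lit 164398) (nat_lit 256) (.e (nat_lit 57447) (nat_lit 19) (.e (nat_lit 393232) (nat_lit 17) (.e (nat_lit 7581) (nat_lit 405) .nil))))) .nil))) (.nd (nat_lit 6) 
(.lf (nat_lit 261161) (.g (nat_lit 1118) (.e (nat_lit 172051) (nat_lit 0) (.e (nat_lit 3409) (nat_lit 212) (.e (nat_lit 655378) (nat_lit 4) (.e (nat_lit 172061) (nat_lit 1) .nil)))) .nil)) 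
(.lf (nat_lit 261225) (.g (nat_lit 2291) (.e (nat_lit 172060) (nat_lit 1) (.e (nat_lit 164403) (nat_lit 256) (.e (nat_lit 57447) (nat_lit 19) (.e (nat_lit 393233) (nat_lit 17) (.e (nat_lit 7581) (nat_lit 405) .nil))))) .nil)))) (.nd (nat_lit 5) (.nd (nat_lit 6) 
(.lf (nat_lit 261145) (.g (nat_lit 1116) (.e (nat_lit 172041) (nat_lit 0) (.e (nat_lit 7540) (nat_lit 402) (.e (nat_lit 1399) (nat_lit 106) (.e (nat_lit 319533) (nat_lit 16) (.e (nat_lit 286753) (nat_lit 10) .nil))))) .nil)) 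
(.lf (nat_lit 261209) (.g (nat_lit 2715) (.e (nat_lit 172059) (nat_lit 1) (.e (nat_lit 164403) (nat_lit 256) (.e (nat_lit 57447) (nat_lit 19) (.e (nat_lit 393301) (nat_lit 27) (.e (nat_lit 491520) (nat_lit 0) .nil))))) .nil))) (.nd (nat_lit 6) 
(.lf (nat_lit 261177) (.g (nat_lit 1381) (.e (nat_lit 172059) (nat_lit 1) (.e (nat_lit 164327) (nat_lit 230) (.e (nat_lit 163886) (nat_lit 5) (.e (nat_lit 221207) (nat_lit 21) .nil)))) .nil)) 
(.lf (nat_lit 261241) (.g (nat_lit 753) (.e (nat_lit 172061) (nat_lit 1) (.e (nat_lit 164327) (nat_lit 230) (.e (nat_lit 163886) (nat_lit 5) .nil))) .nil)))))) (.nd (nat_lit 3) (.nd (nat_lit 4) (.nd (nat_lit 5) (.nd (nat_lit 6) 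
(.lf (nat_lit 261125) (.g (nat_lit 789) (.e (nat_lit 172034) (nat_lit 0) (.e (nat_lit 7545) (nat_lit 402) (.e (nat_lit 1227) (nat_lit 91) (.e (nat_lit 90172) (nat_lit 14) (.e (nat_lit 180285) (nat_lit 45) .nil))))) .nil)) 
(.lf (nat_lit 261189) (.g (nat_lit 1742) (.e (nat_lit 172059) (nat_lit 1) (.e (nat_lit 164332) (nat_lit 230) (.e (nat_lit 163885) (nat_lit 5) (.e (nat_lit 221208) (nat_lit 21) (.e (nat_lit 164305) (nat_lit 226) .nil))))) .nil))) (.nd (nat_lit 6) 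
(.lf (nat_lit 261157) (.g (nat_lit 470) (.e (nat_lit 172049) (nat_lit 0) (.e (nat_lit 3579) (nat_lit 223) (.e (nat_lit 745475) (nat_lit 0) .nil))) .nil)) 
(.lf (nat_lit 261221) (.g (nat_lit 1538) (.e (nat_lit 172060) (nat_lit 1) (.e (nat_lit 164403) (nat_lit 256) (.e (nat_lit 57378) (nat_lit 3) (.e (nat_lit 98373) (nat_lit 29) .nil)))) .nil)))) (.nd (nat_lit 5) (.nd (nat_lit 6) 
(.lf (nat_lit 261141) (.g (nat_lit 1299) (.e (nat_lit 172040) (nat_lit 0) (.e (nat_lit 7540) (nat_lit 402) (.e (nat_lit 1227) (nat_lit 91) (.e (nat_lit 90172) (nat_lit 14) (.e (nat_lit 180285) (nat_lit 45) (.e (nat_lit 2571) (nat_lit 160) (.e (nat_lit 32807) (nat_lit 18) .nil))))))) (.g (nat_lit 4) .nil .nil))) 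
(.lf (nat_lit 261205) (.g (nat_lit 2063) (.e (nat_lit 172059) (nat_lit 1) (.e (nat_lit 164403) (nat_lit 256) (.e (nat_lit 57447) (nat_lit 19) (.e (nat_lit 393230) (nat_lit 17) .nil)))) .nil))) (.nd (nat_lit 6) 
(.lf (nat_lit 261173) (.g (nat_lit 875) (.e (nat_lit 172059) (nat_lit 1) (.e (nat_lit 164327) (nat_lit 230) (.e (nat_lit 163884) (nat_lit 5) .nil))) .nil)) 
(.lf (nat_lit 261237) (.g (nat_lit 1774) (.e (nat_lit 172061) (nat_lit 1) (.e (nat_lit 164326) (nat_lit 230) (.e (nat_lit 163886) (nat_lit 5) (.e (nat_lit 221207) (nat_lit 21) (.e (nat_lit 164319) (nat_lit 228) .nil))))) .nil))))) (.nd (nat_lit 4) (.nd (nat_lit 5) (.nd (nat_lit 6) 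
(.lf (nat_lit 261133) (.g (nat_lit 821) (.e (nat_lit 172037) (nat_lit 0) (.e (nat_lit 7557) (nat_lit 402) (.e (nat_lit 1661) (nat_lit 115) (.e (nat_lit 393274) (nat_lit 23) .nil)))) .nil)) 
(.lf (nat_lit 261197) (.g (nat_lit 2695) (.e (nat_lit 172059) (nat_lit 1) (.e (nat_lit 164399) (nat_lit 256) (.e (nat_lit 57447) (nat_lit 19) (.e (nat_lit 393232) (nat_lit 17) (.e (nat_lit 7581) (nat_lit 405) .nil))))) .nil))) (.nd (nat_lit 6) 
(.lf (nat_lit 261165) (.g (nat_lit 1089) (.e (nat_lit 172057) (nat_lit 0) (.e (nat_lit 3253) (nat_lit 197) (.e (nat_lit 532504) (nat_lit 1) (.e (nat_lit 57692) (nat_lit 156) .nil)))) .nil)) 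
(.lf (nat_lit 261229) (.g (nat_lit 3304) (.e (nat_lit 172061) (nat_lit 1) (.e (nat_lit 164196) (nat_lit 158) (.e (nat_lit 1221) (nat_lit 90) (.e (nat_lit 81956) (nat_lit 23) (.e (nat_lit 98309) (nat_lit 0) (.e (nat_lit 7936) (nat_lit 361) .nil)))))) (.g (nat_lit 4) .nil .nil))))) (.nd (nat_lit 5) (.nd (nat_lit 6) 
(.lf (nat_lit 261149) (.g (nat_lit 1173) (.e (nat_lit 172045) (nat_lit 0) (.e (nat_lit 3307) (nat_lit 202) (.e (nat_lit 573446) (nat_lit 0) (.e (nat_lit 2857) (nat_lit 184) .nil)))) .nil)) 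
(.lf (nat_lit 261213) (.g (nat_lit 2434) (.e (nat_lit 172060) (nat_lit 1) (.e (nat_lit 164332) (nat_lit 230) (.e (nat_lit 163885) (nat_lit 5) (.e (nat_lit 221206) (nat_lit 21) (.e (nat_lit 164319) (nat_lit 228) .nil))))) .nil))) (.nd (nat_lit 6) 
(.lf (nat_lit 261181) (.g (nat_lit 1370) (.e (nat_lit 172059) (nat_lit 1) (.e (nat_lit 164327) (nat_lit 230) (.e (nat_lit 163886) (nat_lit 5) (.e (nat_lit 221208) (nat_lit 21) .nil)))) .nil)) 
(.lf (nat_lit 261245) (.g (nat_lit 2155) (.e (nat_lit 172061) (nat_lit 1) (.e (nat_lit 164327) (nat_lit 230) (.e (nat_lit 163886) (nat_lit 5) (.e (nat_lit 221207) (nat_lit 21) (.e (nat_lit 164297) (nat_lit 226) .nil))))) .nil))))))) (.nd (nat_lit 2) (.nd (nat_lit 3) (.nd (nat_lit 4) (.nd (nat_lit 5) (.nd (nat_lit 6) 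
(.lf (nat_lit 261123) (.g (nat_lit 2794) (.e (nat_lit 172034) (nat_lit 0) (.e (nat_lit 7490) (nat_lit 402) (.e (nat_lit 1400) (nat_lit 106) (.e (nat_lit 319534) (nat_lit 16) (.e (nat_lit 286756) (nat_lit 10) (.e (nat_lit 344157) (nat_lit 36) (.e (nat_lit 638999) (nat_lit 8) .nil))))))) (.g (nat_lit 7) .nil .nil))) 
(.lf (nat_lit 261187) (.g (nat_lit 3987) (.e (nat_lit 172059) (nat_lit 1) (.e (nat_lit 164332) (nat_lit 230) (.e (nat_lit 163885) (nat_lit 5) (.e (nat_lit 221207) (nat_lit 21) (.e (nat_lit 164325) (nat_lit 230) (.e (nat_lit 171776) (nat_lit 66) (.e (nat_lit 114714) (nat_lit 22) (.e (nat_lit 90170) (nat_lit 13) .nil)))))))) (.g (nat_lit 5) .nil .nil)))) (.nd (nat_lit 6) 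
(.lf (nat_lit 261155) (.g (nat_lit 1194) (.e (nat_lit 172048) (nat_lit 0) (.e (nat_lit 3409) (nat_lit 212) (.e (nat_lit 655378) (nat_lit 4) (.e (nat_lit 172070) (nat_lit 4) .nil)))) .nil)) 
(.lf (nat_lit 261219) (.g (nat_lit 3204) (.e (nat_lit 172060) (nat_lit 1) (.e (nat_lit 164403) (nat_lit 256) (.e (nat_lit 57373) (nat_lit 2) (.e (nat_lit 90178) (nat_lit 15) (.e (nat_lit 188459) (nat_lit 26) .nil))))) .nil)))) (.nd (nat_lit 5) (.nd (nat_lit 6) 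
(.lf (nat_lit 261139) (.g (nat_lit 150) (.e (nat_lit 172039) (nat_lit 0) (.e (nat_lit 7554) (nat_lit 402) (.e (nat_lit 1660) (nat_lit 115) .nil))) .nil)) 
(.lf (nat_lit 261203) (.g (nat_lit 2439) (.e (nat_lit 172059) (nat_lit 1) (.e (nat_lit 164403) (nat_lit 256) (.e (nat_lit 57445) (nat_lit 19) (.e (nat_lit 393232) (nat_lit 17) (.e (nat_lit 7581) (nat_lit 405) .nil))))) .nil))) (.nd (nat_lit 6) 
(.lf (nat_lit 261171) (.g (nat_lit 2624) (.e (nat_lit 172059) (nat_lit 1) (.e (nat_lit 164326) (nat_lit 230) (.e (nat_lit 163868) (nat_lit 2) (.e (nat_lit 196694) (nat_lit 18) .nil)))) .nil)) 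
(.lf (nat_lit 261235) (.g (nat_lit 430) (.e (nat_lit 172061) (nat_lit 1) (.e (nat_lit 164326) (nat_lit 230) (.e (nat_lit 163886) (nat_lit 5) .nil))) .nil))))) (.nd (nat_lit 4) (.nd (nat_lit 5) (.nd (nat_lit 6) 
(.lf (nat_lit 261131) (.g (nat_lit 620) (.e (nat_lit 172037) (nat_lit 0) (.e (nat_lit 7557) (nat_lit 402) (.e (nat_lit 1427) (nat_lit 108) (.e (nat_lit 336430) (nat_lit 29) .nil)))) .nil)) 
(.lf (nat_lit 261195) (.g (nat_lit 2921) (.e (nat_lit 172059) (nat_lit 1) (.e (nat_lit 164398) (nat_lit 256) (.e (nat_lit 57448) (nat_lit 19) (.e (nat_lit 393234) (nat_lit 17) (.e (nat_lit 7581) (nat_lit 405) (.e (nat_lit 57477) (nat_lit 28) (.e (nat_lit 557097) (nat_lit 13) .nil))))))) (.g (nat_lit 5) .nil .nil)))) (.nd (nat_lit 6) 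
(.lf (nat_lit 261163) (.g (nat_lit 1857) (.e (nat_lit 172057) (nat_lit 0) (.e (nat_lit 3253) (nat_lit 197) (.e (nat_lit 532503) (nat_lit 1) (.e (nat_lit 57681) (nat_lit 155) .nil)))) .nil)) 
(.lf (nat_lit 261227) (.g (nat_lit 1236) (.e (nat_lit 172061) (nat_lit 1) (.e (nat_lit 164196) (nat_lit 158) (.e (nat_lit 1199) (nat_lit 88) (.e (nat_lit 65617) (nat_lit 10) .nil)))) .nil)))) (.nd (nat_lit 5) (.nd (nat_lit 6) 
(.lf (nat_lit 261147) (.g (nat_lit 810) (.e (nat_lit 172045) (nat_lit 0) (.e (nat_lit 3307) (nat_lit 202) (.e (nat_lit 573440) (nat_lit 0) .nil))) .nil)) 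
(.lf (nat_lit 261211) (.g (nat_lit 636) (.e (nat_lit 172060) (nat_lit 1) (.e (nat_lit 164324) (nat_lit 230) (.e (nat_lit 163886) (nat_lit 5) .nil))) .nil))) (.nd (nat_lit 6) 
(.lf (nat_lit 261179) (.g (nat_lit 2239) (.e (nat_lit 172059) (nat_lit 1) (.e (nat_lit 164327) (nat_lit 230) (.e (nat_lit 163886) (nat_lit 5) (.e (nat_lit 221207) (nat_lit 21) (.e (nat_lit 164320) (nat_lit 229) .nil))))) .nil)) 
(.lf (nat_lit 261243) (.g (nat_lit 1411) (.e (nat_lit 172061) (nat_lit 1) (.e (nat_lit 164327) (nat_lit 230) (.e (nat_lit 163886) (nat_lit 5) (.e (nat_lit 221206) (nat_lit 21) .nil)))) .nil)))))) (.nd (nat_lit 3) (.nd (nat_lit 4) (.nd (nat_lit 5) (.nd (nat_lit 6) 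
(.lf (nat_lit 261127) (.g (nat_lit 1822) (.e (nat_lit 172035) (nat_lit 0) (.e (nat_lit 3279) (nat_lit 200) (.e (nat_lit 557108) (nat_lit 15) (.e (nat_lit 188461) (nat_lit 26) .nil)))) .nil)) 
(.lf (nat_lit 261191) (.g (nat_lit 1262) (.e (nat_lit 172059) (nat_lit 1) (.e (nat_lit 164398) (nat_lit 256) (.e (nat_lit 57445) (nat_lit 19) (.e (nat_lit 393233) (nat_lit 17) .nil)))) .nil))) (.nd (nat_lit 6) 
(.lf (nat_lit 261159) (.g (nat_lit 1146) (.e (nat_lit 172051) (nat_lit 0) (.e (nat_lit 3409) (nat_lit 212) (.e (nat_lit 655364) (nat_lit 0) (.e (nat_lit 2964) (nat_lit 185) .nil)))) .nil)) 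
(.lf (nat_lit 261223) (.g (nat_lit 1292) (.e (nat_lit 172060) (nat_lit 1) (.e (nat_lit 164403) (nat_lit 256) (.e (nat_lit 57409) (nat_lit 12) (.e (nat_lit 336434) (nat_lit 30) .nil)))) .nil)))) (.nd (nat_lit 5) (.nd (nat_lit 6) 
(.lf (nat_lit 261143) (.g (nat_lit 1522) (.e (nat_lit 172041) (nat_lit 0) (.e (nat_lit 7540) (nat_lit 402) (.e (nat_lit 1228) (nat_lit 91) (.e (nat_lit 90172) (nat_lit 14) (.e (nat_lit 180285) (nat_lit 45) (.e (nat_lit 2569) (nat_lit 160) (.e (nat_lit 32807) (nat_lit 18) .nil))))))) (.g (nat_lit 4) .nil .nil))) 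
(.lf (nat_lit 261207) (.g (nat_lit 2281) (.e (nat_lit 172059) (nat_lit 1) (.e (nat_lit 164403) (nat_lit 256) (.e (nat_lit 57447) (nat_lit 19) (.e (nat_lit 393233) (nat_lit 17) (.e (nat_lit 7581) (nat_lit 405) .nil))))) .nil))) (.nd (nat_lit 6) 
(.lf (nat_lit 261175) (.g (nat_lit 875) (.e (nat_lit 172059) (nat_lit 1) (.e (nat_lit 164327) (nat_lit 230) (.e (nat_lit 163886) (nat_lit 5) .nil))) .nil)) 
(.lf (nat_lit 261239) (.g (nat_lit 1000) (.e (nat_lit 172061) (nat_lit 1) (.e (nat_lit 164327) (nat_lit 230) (.e (nat_lit 163884) (nat_lit 5) (.e (nat_lit 229120) (nat_lit 13) .nil)))) .nil))))) (.nd (nat_lit 4) (.nd (nat_lit 5) (.nd (nat_lit 6) 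
(.lf (nat_lit 261135) (.g (nat_lit 1918) (.e (nat_lit 172037) (nat_lit 0) (.e (nat_lit 7557) (nat_lit 402) (.e (nat_lit 1661) (nat_lit 115) (.e (nat_lit 393283) (nat_lit 24) (.e (nat_lit 434271) (nat_lit 38) (.e (nat_lit 655376) (nat_lit 4) .nil)))))) (.g (nat_lit 6) .nil .nil))) 
(.lf (nat_lit 261199) (.g (nat_lit 3285) (.e (nat_lit 172059) (nat_lit 1) (.e (nat_lit 164401) (nat_lit 256) (.e (nat_lit 57447) (nat_lit 19) (.e (nat_lit 393234) (nat_lit 17) (.e (nat_lit 7581) (nat_lit 405) (.e (nat_lit 57476) (nat_lit 28) (.e (nat_lit 557097) (nat_lit 13) .nil))))))) (.g (nat_lit 5) .nil .nil)))) (.nd (nat_lit 6) 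
(.lf (nat_lit 261167) (.g (nat_lit 1521) (.e (nat_lit 179968) (nat_lit 0) (.e (nat_lit 3253) (nat_lit 197) (.e (nat_lit 532503) (nat_lit 1) (.e (nat_lit 57683) (nat_lit 155) .nil)))) .nil)) 
(.lf (nat_lit 261231) (.g (nat_lit 952) (.e (nat_lit 172061) (nat_lit 1) (.e (nat_lit 164322) (nat_lit 230) (.e (nat_lit 163885) (nat_lit 5) (.e (nat_lit 229120) (nat_lit 14) .nil)))) .nil)))) (.nd (nat_lit 5) (.nd (nat_lit 6) 
(.lf (nat_lit 261151) (.g (nat_lit 3381) (.e (nat_lit 172045) (nat_lit 0) (.e (nat_lit 3307) (nat_lit 202) (.e (nat_lit 573489) (nat_lit 14) (.e (nat_lit 73755) (nat_lit 8) (.e (nat_lit 557090) (nat_lit 12) .nil))))) .nil)) 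
(.lf (nat_lit 261215) (.g (nat_lit 1353) (.e (nat_lit 172060) (nat_lit 1) (.e (nat_lit 164332) (nat_lit 230) (.e (nat_lit 163885) (nat_lit 5) (.e (nat_lit 221208) (nat_lit 21) .nil)))) .nil))) (.nd (nat_lit 6) 
(.lf (nat_lit 261183) (.g (nat_lit 3059) (.e (nat_lit 172059) (nat_lit 1) (.e (nat_lit 164332) (nat_lit 230) (.e (nat_lit 163869) (nat_lit 2) (.e (nat_lit 196691) (nat_lit 18) .nil)))) .nil)) 
(.lf (nat_lit 261247) (.g (nat_lit 2155) (.e (nat_lit 172061) (nat_lit 1) (.e (nat_lit 164327) (nat_lit 230) (.e (nat_lit 163886) (nat_lit 5) (.e (nat_lit 221207) (nat_lit 21) (.e (nat_lit 164321) (nat_lit 229) .nil))))) .nil)))))))))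


end

end Pool.Agent.Lib.MP_5854e1_co.Cz
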