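import Pool.Agent.Lib.MP_5854e1_co.DtD

/-!
# Windows and cells of the rings
-/

set_option autoImplicit false
set_option maxRecDepth 100000
set_option deprecated.oldSectionVars true

namespace Pool.Agent.Lib.MP_5854e1_co.Cz

open Pool.Agent.Lib.MP_5854e1_co

noncomputable section

noncomputable def tv3430 : DT := (.nd (nat_lit 0) (.nd (nat_lit 1) (.nd (nat_lit 2) (.nd (nat_lit 3) (.nd (nat_lit 4) (.nd (nat_lit 5) 
(.lf (nat_lit 267200) (.g (nat_lit 2513) (.e (nat_lit 180252) (nat_lit 10) (.e (nat_lit 573489) (nat_lit 14) (.e (nat_lit 73755) (nat_lit 8) (.e (nat_lit 557067) (nat_lit 9) (.e (nat_lit 2466) (nat_lit 157) (.e (nat_lit 3381) (nat_lit 209) (.e (nat_lit 630819) (nat_lit 15) (.e (nat_lit 57479) (nat_lit 28) (.e (nat_lit 557105) (nat_lit 14) .nil))))))))) (.g (nat_lit 4) .nil .nil))) 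
(.lf (nat_lit 267232) (.g (nat_lit 3918) (.e (nat_lit 180252) (nat_lit 10) (.e (nat_lit 573489) (nat_lit 14) (.e (nat_lit 73755) (nat_lit 8) (.e (nat_lit 557083) (nat_lit 10) (.e (nat_lit 8342) (nat_lit 85) (.e (nat_lit 688171) (nat_lit 15) (.e (nat_lit 57479) (nat_lit 28) (.e (nat_lit 557105) (nat_lit 14) .nil)))))))) (.g (nat_lit 8) .nil .nil)))) (.nd (nat_lit 5) 
(.lf (nat_lit 267216) (.g (nat_lit 4203) (.e (nat_lit 180252) (nat_lit 10) (.e (nat_lit 573489) (nat_lit 14) (.e (nat_lit 73755) (nat_lit 8) (.e (nat_lit 557068) (nat_lit 9) (.e (nat_lit 2719) (nat_lit 171) (.e (nat_lit 229632) (nat_lit 226) (.e (nat_lit 1182) (nat_lit 87) (.e (nat_lit 57479) (nat_lit 28) (.e (nat_lit 557105) (nat_lit 14) .nil))))))))) (.g (nat_lit 9) .nil .nil))) 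
(.lf (nat_lit 267248) (.g (nat_lit 2631) (.e (nat_lit 180252) (nat_lit 10) (.e (nat_lit 573489) (nat_lit 14) (.e (nat_lit 73755) (nat_lit 8) (.e (nat_lit 557084) (nat_lit 10) (.e (nat_lit 8293) (nat_lit 51) .nil))))) .nil)))) (.nd (nat_lit 4) (.nd (nat_lit 5) 
(.lf (nat_lit 267208) (.g (nat_lit 2757) (.e (nat_lit 180252) (nat_lit 10) (.e (nat_lit 573489) (nat_lit 14) (.e (nat_lit 73755) (nat_lit 8) (.e (nat_lit 557067) (nat_lit 9) (.e (nat_lit 2604) (nat_lit 163) (.e (nat_lit 164308) (nat_lit 226) (.e (nat_lit 1176) (nat_lit 87) (.e (nat_lit 57479) (nat_lit 28) (.e (nat_lit 557105) (nat_lit 14) .nil))))))))) (.g (nat_lit 4) .nil .nil))) 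
(.lf (nat_lit 267240) (.g (nat_lit 2640) (.e (nat_lit 180252) (nat_lit 10) (.e (nat_lit 573489) (nat_lit 14) (.e (nat_lit 73755) (nat_lit 8) (.e (nat_lit 557084) (nat_lit 10) (.e (nat_lit 8290) (nat_lit 51) .nil))))) .nil))) (.nd (nat_lit 5) 
(.lf (nat_lit 267224) (.g (nat_lit 3246) (.e (nat_lit 180252) (nat_lit 10) (.e (nat_lit 573489) (nat_lit 14) (.e (nat_lit 73755) (nat_lit 8) (.e (nat_lit 557070) (nat_lit 9) (.e (nat_lit 2720) (nat_lit 171) (.e (nat_lit 229632) (nat_lit 226) (.e (nat_lit 1181) (nat_lit 87) (.e (nat_lit 57479) (nat_lit 28) (.e (nat_lit 557105) (nat_lit 14) .nil))))))))) (.g (nat_lit 4) .nil .nil))) 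
(.lf (nat_lit 267256) (.g (nat_lit 4205) (.e (nat_lit 180252) (nat_lit 10) (.e (nat_lit 573489) (nat_lit 14) (.e (nat_lit 73755) (nat_lit 8) (.e (nat_lit 557089) (nat_lit 12) (.e (nat_lit 163996) (nat_lit 37) (.e (nat_lit 630819) (nat_lit 15) (.e (nat_lit 57479) (nat_lit 28) (.e (nat_lit 557105) (nat_lit 14) .nil)))))))) (.g (nat_lit 8) .nil .nil)))))) 
(.nd (nat_lit 3) (.nd (nat_lit 4) (.nd (nat_lit 5) 
(.lf (nat_lit 267204) (.g (nat_lit 2678) (.e (nat_lit 180252) (nat_lit 10) (.e (nat_lit 573489) (nat_lit 14) (.e (nat_lit 73755) (nat_lit 8) (.e (nat_lit 557067) (nat_lit 9) (.e (nat_lit 2470) (nat_lit 157) .nil))))) .nil)) 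
(.lf (nat_lit 267236) (.g (nat_lit 4972) (.e (nat_lit 180252) (nat_lit 10) (.e (nat_lit 573489) (nat_lit 14) (.e (nat_lit 73755) (nat_lit 8) (.e (nat_lit 557084) (nat_lit 10) (.e (nat_lit 8285) (nat_lit 51) (.e (nat_lit 6320) (nat_lit 337) (.e (nat_lit 1182) (nat_lit 87) (.e (nat_lit 57479) (nat_lit 28) (.e (nat_lit 557105) (nat_lit 14) .nil))))))))) (.g (nat_lit 9) .nil .nil)))) (.nd (nat_lit 5) 
(.lf (nat_lit 267220) (.g (nat_lit 3001) (.e (nat_lit 180252) (nat_lit 10) (.e (nat_lit 573489) (nat_lit 14) (.e (nat_lit 73755) (nat_lit 8) (.e (nat_lit 557070) (nat_lit 9) (.e (nat_lit 4) (nat_lit 0) .nil))))) .nil)) 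
(.lf (nat_lit 267252) (.g (nat_lit 1132) (.e (nat_lit 180252) (nat_lit 10) (.e (nat_lit 573489) (nat_lit 14) (.e (nat_lit 73755) (nat_lit 8) (.e (nat_lit 557089) (nat_lit 12) .nil)))) .nil)))) (.nd (nat_lit 4) (.nd (nat_lit 5) 
(.lf (nat_lit 267212) (.g (nat_lit 2642) (.e (nat_lit 180252) (nat_lit 10) (.e (nat_lit 573489) (nat_lit 14) (.e (nat_lit 73755) (nat_lit 8) (.e (nat_lit 557067) (nat_lit 9) (.e (nat_lit 2715) (nat_lit 171) .nil))))) .nil)) 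
(.lf (nat_lit 267244) (.g (nat_lit 2749) (.e (nat_lit 180252) (nat_lit 10) (.e (nat_lit 573489) (nat_lit 14) (.e (nat_lit 73755) (nat_lit 8) (.e (nat_lit 557084) (nat_lit 10) (.e (nat_lit 8291) (nat_lit 51) (.e (nat_lit 6321) (nat_lit 337) (.e (nat_lit 1180) (nat_lit 87) (.e (nat_lit 57479) (nat_lit 28) (.e (nat_lit 557105) (nat_lit 14) .nil))))))))) (.g (nat_lit 4) .nil .nil)))) (.nd (nat_lit 5) 
(.lf (nat_lit 267228) (.g (nat_lit 2024) (.e (nat_lit 180252) (nat_lit 10) (.e (nat_lit 573489) (nat_lit 14) (.e (nat_lit 73755) (nat_lit 8) (.e (nat_lit 557083) (nat_lit 10) (.e (nat_lit 8285) (nat_lit 51) .nil))))) .nil)) 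
(.lf (nat_lit 267260) (.g (nat_lit 3032) (.e (nat_lit 180252) (nat_lit 10) (.e (nat_lit 573489) (nat_lit 14) (.e (nat_lit 73755) (nat_lit 8) (.e (nat_lit 557089) (nat_lit 12) (.e (nat_lit 164000) (nat_lit 38) (.e (nat_lit 639016) (nat_lit 15) (.e (nat_lit 57477) (nat_lit 28) (.e (nat_lit 557104) (nat_lit 14) .nil)))))))) (.g (nat_lit 5) .nil .nil))))))) 
(.nd (nat_lit 2) (.nd (nat_lit 3) (.nd (nat_lit 4) (.nd (nat_lit 5) 
(.lf (nat_lit 267202) (.g (nat_lit 4909) (.e (nat_lit 180252) (nat_lit 10) (.e (nat_lit 573489) (nat_lit 14) (.e (nat_lit 73755) (nat_lit 8) (.e (nat_lit 557067) (nat_lit 9) (.e (nat_lit 2467) (nat_lit 157) (.e (nat_lit 3391) (nat_lit 210) (.e (nat_lit 639018) (nat_lit 15) (.e (nat_lit 57479) (nat_lit 28) (.e (nat_lit 557105) (nat_lit 14) .nil))))))))) (.g (nat_lit 9) .nil .nil))) 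
(.lf (nat_lit 267234) (.g (nat_lit 2775) (.e (nat_lit 180252) (nat_lit 10) (.e (nat_lit 573489) (nat_lit 14) (.e (nat_lit 73755) (nat_lit 8) (.e (nat_lit 557084) (nat_lit 10) (.e (nat_lit 8285) (nat_lit 51) (.e (nat_lit 6288) (nat_lit 337) (.e (nat_lit 1183) (nat_lit 87) (.e (nat_lit 57479) (nat_lit 28) (.e (nat_lit 557105) (nat_lit 14) .nil))))))))) (.g (nat_lit 4) .nil .nil)))) (.nd (nat_lit 5) 
(.lf (nat_lit 267218) (.g (nat_lit 2235) (.e (nat_lit 180252) (nat_lit 10) (.e (nat_lit 573489) (nat_lit 14) (.e (nat_lit 73755) (nat_lit 8) (.e (nat_lit 557070) (nat_lit 9) .nil)))) .nil)) 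
(.lf (nat_lit 267250) (.g (nat_lit 2579) (.e (nat_lit 180252) (nat_lit 10) (.e (nat_lit 573489) (nat_lit 14) (.e (nat_lit 73755) (nat_lit 8) (.e (nat_lit 557084) (nat_lit 10) (.e (nat_lit 8342) (nat_lit 85) .nil))))) .nil)))) (.nd (nat_lit 4) (.nd (nat_lit 5) 
(.lf (nat_lit 267210) (.g (nat_lit 2289) (.e (nat_lit 180252) (nat_lit 10) (.e (nat_lit 573489) (nat_lit 14) (.e (nat_lit 73755) (nat_lit 8) (.e (nat_lit 557067) (nat_lit 9) (.e (nat_lit 2606) (nat_lit 163) .nil))))) .nil)) 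
(.lf (nat_lit 267242) (.g (nat_lit 2850) (.e (nat_lit 180252) (nat_lit 10) (.e (nat_lit 573489) (nat_lit 14) (.e (nat_lit 73755) (nat_lit 8) (.e (nat_lit 557084) (nat_lit 10) (.e (nat_lit 8291) (nat_lit 51) (.e (nat_lit 6319) (nat_lit 337) (.e (nat_lit 1182) (nat_lit 87) (.e (nat_lit 57479) (nat_lit 28) (.e (nat_lit 557105) (nat_lit 14) .nil))))))))) (.g (nat_lit 4) .nil .nil)))) (.nd (nat_lit 5) 
(.lf (nat_lit 267226) (.g (nat_lit 2214) (.e (nat_lit 180252) (nat_lit 10) (.e (nat_lit 573489) (nat_lit 14) (.e (nat_lit 73755) (nat_lit 8) (.e (nat_lit 557074) (nat_lit 9) (.e (nat_lit 40) (nat_lit 0) (.e (nat_lit 2028) (nat_lit 140) (.e (nat_lit 688171) (nat_lit 15) (.e (nat_lit 57479) (nat_lit 28) (.e (nat_lit 557105) (nat_lit 14) .nil))))))))) (.g (nat_lit 4) .nil .nil))) 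
(.lf (nat_lit 267258) (.g (nat_lit 2709) (.e (nat_lit 180252) (nat_lit 10) (.e (nat_lit 573489) (nat_lit 14) (.e (nat_lit 73755) (nat_lit 8) (.e (nat_lit 557089) (nat_lit 12) (.e (nat_lit 163999) (nat_lit 38) (.e (nat_lit 639016) (nat_lit 15) (.e (nat_lit 57477) (nat_lit 28) (.e (nat_lit 557104) (nat_lit 14) .nil)))))))) (.g (nat_lit 4) .nil .nil)))))) 
(.nd (nat_lit 3) (.nd (nat_lit 4) (.nd (nat_lit 5) 
(.lf (nat_lit 267206) (.g (nat_lit 2662) (.e (nat_lit 180252) (nat_lit 10) (.e (nat_lit 573489) (nat_lit 14) (.e (nat_lit 73755) (nat_lit 8) (.e (nat_lit 557067) (nat_lit 9) (.e (nat_lit 2603) (nat_lit 163) .nil))))) .nil)) 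
(.lf (nat_lit 267238) (.g (nat_lit 2672) (.e (nat_lit 180252) (nat_lit 10) (.e (nat_lit 573489) (nat_lit 14) (.e (nat_lit 73755) (nat_lit 8) (.e (nat_lit 557084) (nat_lit 10) (.e (nat_lit 8286) (nat_lit 51) .nil))))) .nil))) (.nd (nat_lit 5) 
(.lf (nat_lit 267222) (.g (nat_lit 3055) (.e (nat_lit 180252) (nat_lit 10) (.e (nat_lit 573489) (nat_lit 14) (.e (nat_lit 73755) (nat_lit 8) (.e (nat_lit 557070) (nat_lit 9) (.e (nat_lit 70) (nat_lit 0) (.e (nat_lit 2030) (nat_lit 140) (.e (nat_lit 688168) (nat_lit 15) (.e (nat_lit 57479) (nat_lit 28) (.e (nat_lit 557105) (nat_lit 14) .nil))))))))) (.g (nat_lit 4) .nil .nil))) 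
(.lf (nat_lit 267254) (.g (nat_lit 1776) (.e (nat_lit 180252) (nat_lit 10) (.e (nat_lit 573489) (nat_lit 14) (.e (nat_lit 73755) (nat_lit 8) (.e (nat_lit 557089) (nat_lit 12) (.e (nat_lit 163996) (nat_lit 37) .nil))))) .nil)))) (.nd (nat_lit 4) (.nd (nat_lit 5) 
(.lf (nat_lit 267214) (.g (nat_lit 2249) (.e (nat_lit 180252) (nat_lit 10) (.e (nat_lit 573489) (nat_lit 14) (.e (nat_lit 73755) (nat_lit 8) (.e (nat_lit 557068) (nat_lit 9) (.e (nat_lit 128) (nat_lit 6) .nil))))) .nil)) 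
(.lf (nat_lit 267246) (.g (nat_lit 2640) (.e (nat_lit 180252) (nat_lit 10) (.e (nat_lit 573489) (nat_lit 14) (.e (nat_lit 73755) (nat_lit 8) (.e (nat_lit 557084) (nat_lit 10) (.e (nat_lit 8292) (nat_lit 51) (.e (nat_lit 6298) (nat_lit 337) (.e (nat_lit 1178) (nat_lit 87) (.e (nat_lit 57479) (nat_lit 28) (.e (nat_lit 557105) (nat_lit 14) .nil))))))))) (.g (nat_lit 4) .nil .nil)))) (.nd (nat_lit 5) 
(.lf (nat_lit 267230) (.g (nat_lit 2017) (.e (nat_lit 180252) (nat_lit 10) (.e (nat_lit 573489) (nat_lit 14) (.e (nat_lit 73755) (nat_lit 8) (.e (nat_lit 557083) (nat_lit 10) (.e (nat_lit 8293) (nat_lit 51) .nil))))) .nil)) 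
(.lf (nat_lit 267262) (.g (nat_lit 780) (.e (nat_lit 180252) (nat_lit 10) (.e (nat_lit 573489) (nat_lit 14) (.e (nat_lit 73755) (nat_lit 8) (.e (nat_lit 557090) (nat_lit 12) .nil)))) .nil))))))) (.nd (nat_lit 1) (.nd (nat_lit 2) (.nd (nat_lit 3) (.nd (nat_lit 4) (.nd (nat_lit 5) 
(.lf (nat_lit 267201) (.g (nat_lit 2989) (.e (nat_lit 180252) (nat_lit 10) (.e (nat_lit 573489) (nat_lit 14) (.e (nat_lit 73755) (nat_lit 8) (.e (nat_lit 557067) (nat_lit 9) (.e (nat_lit 2466) (nat_lit 157) (.e (nat_lit 3390) (nat_lit 210) (.e (nat_lit 639017) (nat_lit 15) (.e (nat_lit 57480) (nat_lit 28) (.e (nat_lit 557104) (nat_lit 14) .nil))))))))) (.g (nat_lit 4) .nil .nil))) 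
(.lf (nat_lit 267233) (.g (nat_lit 2664) (.e (nat_lit 180252) (nat_lit 10) (.e (nat_lit 573489) (nat_lit 14) (.e (nat_lit 73755) (nat_lit 8) (.e (nat_lit 557084) (nat_lit 10) (.e (nat_lit 8285) (nat_lit 51) .nil))))) .nil))) (.nd (nat_lit 5) 
(.lf (nat_lit 267217) (.g (nat_lit 2184) (.e (nat_lit 180252) (nat_lit 10) (.e (nat_lit 573489) (nat_lit 14) (.e (nat_lit 73755) (nat_lit 8) (.e (nat_lit 557069) (nat_lit 9) .nil)))) .nil)) 
(.lf (nat_lit 267249) (.g (nat_lit 2730) (.e (nat_lit 180252) (nat_lit 10) (.e (nat_lit 573489) (nat_lit 14) (.e (nat_lit 73755) (nat_lit 8) (.e (nat_lit 557084) (nat_lit 10) (.e (nat_lit 8293) (nat_lit 51) (.e (nat_lit 6322) (nat_lit 337) (.e (nat_lit 1178) (nat_lit 87) (.e (nat_lit 57479) (nat_lit 28) (.e (nat_lit 557105) (nat_lit 14) .nil))))))))) (.g (nat_lit 4) .nil .nil))))) 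
(.nd (nat_lit 4) (.nd (nat_lit 5) 
(.lf (nat_lit 267209) (.g (nat_lit 2828) (.e (nat_lit 180252) (nat_lit 10) (.e (nat_lit 573489) (nat_lit 14) (.e (nat_lit 73755) (nat_lit 8) (.e (nat_lit 557067) (nat_lit 9) (.e (nat_lit 2604) (nat_lit 163) (.e (nat_lit 164312) (nat_lit 226) (.e (nat_lit 7936) (nat_lit 87) (.e (nat_lit 57479) (nat_lit 28) (.e (nat_lit 557105) (nat_lit 14) .nil))))))))) (.g (nat_lit 4) .nil .nil))) 
(.lf (nat_lit 267241) (.g (nat_lit 2842) (.e (nat_lit 180252) (nat_lit 10) (.e (nat_lit 573489) (nat_lit 14) (.e (nat_lit 73755) (nat_lit 8) (.e (nat_lit 557084) (nat_lit 10) (.e (nat_lit 8291) (nat_lit 51) (.e (nat_lit 6319) (nat_lit 337) (.e (nat_lit 1181) (nat_lit 87) (.e (nat_lit 57479) (nat_lit 28) (.e (nat_lit 557105) (nat_lit 14) .nil))))))))) (.g (nat_lit 4) .nil .nil)))) (.nd (nat_lit 5) 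
(.lf (nat_lit 267225) (.g (nat_lit 3044) (.e (nat_lit 180252) (nat_lit 10) (.e (nat_lit 573489) (nat_lit 14) (.e (nat_lit 73755) (nat_lit 8) (.e (nat_lit 557070) (nat_lit 9) (.e (nat_lit 2720) (nat_lit 171) (.e (nat_lit 229632) (nat_lit 226) (.e (nat_lit 1182) (nat_lit 87) (.e (nat_lit 57479) (nat_lit 28) (.e (nat_lit 557105) (nat_lit 14) .nil))))))))) (.g (nat_lit 4) .nil .nil))) 
(.lf (nat_lit 267257) (.g (nat_lit 1923) (.e (nat_lit 180252) (nat_lit 10) (.e (nat_lit 573489) (nat_lit 14) (.e (nat_lit 73755) (nat_lit 8) (.e (nat_lit 557089) (nat_lit 12) (.e (nat_lit 163997) (nat_lit 37) .nil))))) .nil))))) (.nd (nat_lit 3) (.nd (nat_lit 4) (.nd (nat_lit 5) 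
(.lf (nat_lit 267205) (.g (nat_lit 3243) (.e (nat_lit 180252) (nat_lit 10) (.e (nat_lit 573489) (nat_lit 14) (.e (nat_lit 73755) (nat_lit 8) (.e (nat_lit 557067) (nat_lit 9) (.e (nat_lit 2472) (nat_lit 157) (.e (nat_lit 3390) (nat_lit 210) (.e (nat_lit 639017) (nat_lit 15) (.e (nat_lit 57480) (nat_lit 28) (.e (nat_lit 557104) (nat_lit 14) .nil))))))))) (.g (nat_lit 4) .nil .nil))) 
(.lf (nat_lit 267237) (.g (nat_lit 2773) (.e (nat_lit 180252) (nat_lit 10) (.e (nat_lit 573489) (nat_lit 14) (.e (nat_lit 73755) (nat_lit 8) (.e (nat_lit 557084) (nat_lit 10) (.e (nat_lit 8285) (nat_lit 51) (.e (nat_lit 6329) (nat_lit 337) (.e (nat_lit 1179) (nat_lit 87) (.e (nat_lit 57479) (nat_lit 28) (.e (nat_lit 557105) (nat_lit 14) .nil))))))))) (.g (nat_lit 4) .nil .nil)))) (.nd (nat_lit 5) 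
(.lf (nat_lit 267221) (.g (nat_lit 3022) (.e (nat_lit 180252) (nat_lit 10) (.e (nat_lit 573489) (nat_lit 14) (.e (nat_lit 73755) (nat_lit 8) (.e (nat_lit 557070) (nat_lit 9) (.e (nat_lit 70) (nat_lit 0) .nil))))) .nil)) 
(.lf (nat_lit 267253) (.g (nat_lit 2121) (.e (nat_lit 180252) (nat_lit 10) (.e (nat_lit 573489) (nat_lit 14) (.e (nat_lit 73755) (nat_lit 8) (.e (nat_lit 557089) (nat_lit 12) (.e (nat_lit 163846) (nat_lit 0) .nil))))) .nil)))) (.nd (nat_lit 4) (.nd (nat_lit 5) 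
(.lf (nat_lit 267213) (.g (nat_lit 1759) (.e (nat_lit 180252) (nat_lit 10) (.e (nat_lit 573489) (nat_lit 14) (.e (nat_lit 73755) (nat_lit 8) (.e (nat_lit 557068) (nat_lit 9) .nil)))) .nil)) 
(.lf (nat_lit 267245) (.g (nat_lit 2612) (.e (nat_lit 180252) (nat_lit 10) (.e (nat_lit 573489) (nat_lit 14) (.e (nat_lit 73755) (nat_lit 8) (.e (nat_lit 557084) (nat_lit 10) (.e (nat_lit 8292) (nat_lit 51) .nil))))) .nil))) (.nd (nat_lit 5) 
(.lf (nat_lit 267229) (.g (nat_lit 2261) (.e (nat_lit 180252) (nat_lit 10) (.e (nat_lit 573489) (nat_lit 14) (.e (nat_lit 73755) (nat_lit 8) (.e (nat_lit 557083) (nat_lit 10) (.e (nat_lit 8285) (nat_lit 51) (.e (nat_lit 6308) (nat_lit 337) (.e (nat_lit 1182) (nat_lit 87) (.e (nat_lit 57479) (nat_lit 28) (.e (nat_lit 557105) (nat_lit 14) .nil))))))))) (.g (nat_lit 4) .nil .nil))) 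
(.lf (nat_lit 267261) (.g (nat_lit 5536) (.e (nat_lit 180252) (nat_lit 10) (.e (nat_lit 573489) (nat_lit 14) (.e (nat_lit 73755) (nat_lit 8) (.e (nat_lit 557089) (nat_lit 12) (.e (nat_lit 164000) (nat_lit 38) (.e (nat_lit 639017) (nat_lit 15) (.e (nat_lit 57479) (nat_lit 28) (.e (nat_lit 557105) (nat_lit 14) .nil)))))))) (.g (nat_lit 8) .nil .nil))))))) 
(.nd (nat_lit 2) (.nd (nat_lit 3) (.nd (nat_lit 4) (.nd (nat_lit 5) 
(.lf (nat_lit 267203) (.g (nat_lit 2678) (.e (nat_lit 180252) (nat_lit 10) (.e (nat_lit 573489) (nat_lit 14) (.e (nat_lit 73755) (nat_lit 8) (.e (nat_lit 557067) (nat_lit 9) (.e (nat_lit 2469) (nat_lit 157) .nil))))) .nil)) 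
(.lf (nat_lit 267235) (.g (nat_lit 2828) (.e (nat_lit 180252) (nat_lit 10) (.e (nat_lit 573489) (nat_lit 14) (.e (nat_lit 73755) (nat_lit 8) (.e (nat_lit 557084) (nat_lit 10) (.e (nat_lit 8285) (nat_lit 51) (.e (nat_lit 6294) (nat_lit 337) (.e (nat_lit 1177) (nat_lit 87) (.e (nat_lit 57479) (nat_lit 28) (.e (nat_lit 557105) (nat_lit 14) .nil))))))))) (.g (nat_lit 4) .nil .nil)))) (.nd (nat_lit 5) 
(.lf (nat_lit 267219) (.g (nat_lit 3060) (.e (nat_lit 180252) (nat_lit 10) (.e (nat_lit 573489) (nat_lit 14) (.e (nat_lit 73755) (nat_lit 8) (.e (nat_lit 557070) (nat_lit 9) (.e (nat_lit 0) (nat_lit 0) .nil))))) .nil)) 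
(.lf (nat_lit 267251) (.g (nat_lit 2216) (.e (nat_lit 180252) (nat_lit 10) (.e (nat_lit 573489) (nat_lit 14) (.e (nat_lit 73755) (nat_lit 8) (.e (nat_lit 557084) (nat_lit 10) (.e (nat_lit 16128) (nat_lit 85) .nil))))) .nil)))) (.nd (nat_lit 4) (.nd (nat_lit 5) 
(.lf (nat_lit 267211) (.g (nat_lit 2543) (.e (nat_lit 180252) (nat_lit 10) (.e (nat_lit 573489) (nat_lit 14) (.e (nat_lit 73755) (nat_lit 8) (.e (nat_lit 557067) (nat_lit 9) (.e (nat_lit 2606) (nat_lit 163) (.e (nat_lit 164309) (nat_lit 226) (.e (nat_lit 7936) (nat_lit 87) (.e (nat_lit 57479) (nat_lit 28) (.e (nat_lit 557105) (nat_lit 14) .nil))))))))) (.g (nat_lit 4) .nil .nil))) 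
(.lf (nat_lit 267243) (.g (nat_lit 2798) (.e (nat_lit 180252) (nat_lit 10) (.e (nat_lit 573489) (nat_lit 14) (.e (nat_lit 73755) (nat_lit 8) (.e (nat_lit 557084) (nat_lit 10) (.e (nat_lit 8291) (nat_lit 51) (.e (nat_lit 6320) (nat_lit 337) (.e (nat_lit 1180) (nat_lit 87) (.e (nat_lit 57479) (nat_lit 28) (.e (nat_lit 557105) (nat_lit 14) .nil))))))))) (.g (nat_lit 4) .nil .nil)))) (.nd (nat_lit 5) 
(.lf (nat_lit 267227) (.g (nat_lit 2187) (.e (nat_lit 180252) (nat_lit 10) (.e (nat_lit 573489) (nat_lit 14) (.e (nat_lit 73755) (nat_lit 8) (.e (nat_lit 557082) (nat_lit 10) .nil)))) .nil)) 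
(.lf (nat_lit 267259) (.g (nat_lit 5469) (.e (nat_lit 180252) (nat_lit 10) (.e (nat_lit 573489) (nat_lit 14) (.e (nat_lit 73755) (nat_lit 8) (.e (nat_lit 557089) (nat_lit 12) (.e (nat_lit 163999) (nat_lit 38) (.e (nat_lit 639018) (nat_lit 15) (.e (nat_lit 57479) (nat_lit 28) (.e (nat_lit 557105) (nat_lit 14) .nil)))))))) (.g (nat_lit 8) .nil .nil)))))) 
(.nd (nat_lit 3) (.nd (nat_lit 4) (.nd (nat_lit 5) 
(.lf (nat_lit 267207) (.g (nat_lit 2562) (.e (nat_lit 180252) (nat_lit 10) (.e (nat_lit 573489) (nat_lit 14) (.e (nat_lit 73755) (nat_lit 8) (.e (nat_lit 557067) (nat_lit 9) (.e (nat_lit 2604) (nat_lit 163) .nil))))) .nil)) 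
(.lf (nat_lit 267239) (.g (nat_lit 2664) (.e (nat_lit 180252) (nat_lit 10) (.e (nat_lit 573489) (nat_lit 14) (.e (nat_lit 73755) (nat_lit 8) (.e (nat_lit 557084) (nat_lit 10) (.e (nat_lit 8287) (nat_lit 51) .nil))))) .nil))) (.nd (nat_lit 5) 
(.lf (nat_lit 267223) (.g (nat_lit 3282) (.e (nat_lit 180252) (nat_lit 10) (.e (nat_lit 573489) (nat_lit 14) (.e (nat_lit 73755) (nat_lit 8) (.e (nat_lit 557070) (nat_lit 9) (.e (nat_lit 70) (nat_lit 0) (.e (nat_lit 2030) (nat_lit 140) (.e (nat_lit 688169) (nat_lit 15) (.e (nat_lit 57479) (nat_lit 28) (.e (nat_lit 557105) (nat_lit 14) .nil))))))))) (.g (nat_lit 4) .nil .nil))) 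
(.lf (nat_lit 267255) (.g (nat_lit 4550) (.e (nat_lit 180252) (nat_lit 10) (.e (nat_lit 573489) (nat_lit 14) (.e (nat_lit 73755) (nat_lit 8) (.e (nat_lit 557089) (nat_lit 12) (.e (nat_lit 163996) (nat_lit 37) (.e (nat_lit 630818) (nat_lit 15) (.e (nat_lit 57479) (nat_lit 28) (.e (nat_lit 557105) (nat_lit 14) .nil)))))))) (.g (nat_lit 8) .nil .nil))))) (.nd (nat_lit 4) (.nd (nat_lit 5) 
(.lf (nat_lit 267215) (.g (nat_lit 2246) (.e (nat_lit 180252) (nat_lit 10) (.e (nat_lit 573489) (nat_lit 14) (.e (nat_lit 73755) (nat_lit 8) (.e (nat_lit 557068) (nat_lit 9) (.e (nat_lit 2464) (nat_lit 157) .nil))))) .nil)) 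
(.lf (nat_lit 267247) (.g (nat_lit 2892) (.e (nat_lit 180252) (nat_lit 10) (.e (nat_lit 573489) (nat_lit 14) (.e (nat_lit 73755) (nat_lit 8) (.e (nat_lit 557084) (nat_lit 10) (.e (nat_lit 8292) (nat_lit 51) (.e (nat_lit 6322) (nat_lit 337) (.e (nat_lit 1178) (nat_lit 87) (.e (nat_lit 57479) (nat_lit 28) (.e (nat_lit 557105) (nat_lit 14) .nil))))))))) (.g (nat_lit 4) .nil .nil)))) (.nd (nat_lit 5) 
(.lf (nat_lit 267231) (.g (nat_lit 4345) (.e (nat_lit 180252) (nat_lit 10) (.e (nat_lit 573489) (nat_lit 14) (.e (nat_lit 73755) (nat_lit 8) (.e (nat_lit 557083) (nat_lit 10) (.e (nat_lit 8342) (nat_lit 85) (.e (nat_lit 688170) (nat_lit 15) (.e (nat_lit 57479) (nat_lit 28) (.e (nat_lit 557105) (nat_lit 14) .nil)))))))) (.g (nat_lit 8) .nil .nil))) 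
(.lf (nat_lit 267263) (.g (nat_lit 1814) (.e (nat_lit 180252) (nat_lit 10) (.e (nat_lit 573489) (nat_lit 14) (.e (nat_lit 73755) (nat_lit 8) (.e (nat_lit 557090) (nat_lit 12) (.e (nat_lit 163840) (nat_lit 0) .nil))))) .nil))))))))

noncomputable def tv3431 : DT := (.nd (nat_lit 0) (.nd (nat_lit 1) (.nd (nat_lit 2) (.nd (nat_lit 3) (.nd (nat_lit 4) 
(.lf (nat_lit 267264) (.g (nat_lit 4207) (.e (nat_lit 180252) (nat_lit 10) (.e (nat_lit 573489) (nat_lit 14) (.e (nat_lit 73755) (nat_lit 8) (.e (nat_lit 557090) (nat_lit 12) (.e (nat_lit 163840) (nat_lit 0) (.e (nat_lit 5060) (nat_lit 292) (.e (nat_lit 1173) (nat_lit 87) (.e (nat_lit 57479) (nat_lit 28) (.e (nat_lit 557105) (nat_lit 14) .nil))))))))) (.g (nat_lit 9) .nil .nil))) 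
(.lf (nat_lit 267280) (.g (nat_lit 4614) (.e (nat_lit 180252) (nat_lit 10) (.e (nat_lit 573489) (nat_lit 14) (.e (nat_lit 73755) (nat_lit 8) (.e (nat_lit 557090) (nat_lit 12) (.e (nat_lit 163842) (nat_lit 0) (.e (nat_lit 5115) (nat_lit 292) (.e (nat_lit 1178) (nat_lit 87) (.e (nat_lit 57479) (nat_lit 28) (.e (nat_lit 557105) (nat_lit 14) .nil))))))))) (.g (nat_lit 9) .nil .nil)))) 
(.nd (nat_lit 4) 
(.lf (nat_lit 267272) (.g (nat_lit 4614) (.e (nat_lit 180252) (nat_lit 10) (.e (nat_lit 573489) (nat_lit 14) (.e (nat_lit 73755) (nat_lit 8) (.e (nat_lit 557090) (nat_lit 12) (.e (nat_lit 163841) (nat_lit 0) (.e (nat_lit 5175) (nat_lit 292) (.e (nat_lit 1179) (nat_lit 87) (.e (nat_lit 57479) (nat_lit 28) (.e (nat_lit 557105) (nat_lit 14) .nil))))))))) (.g (nat_lit 9) .nil .nil))) 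
(.lf (nat_lit 267288) (.g (nat_lit 5269) (.e (nat_lit 180252) (nat_lit 10) (.e (nat_lit 573489) (nat_lit 14) (.e (nat_lit 73755) (nat_lit 8) (.e (nat_lit 557090) (nat_lit 12) (.e (nat_lit 163843) (nat_lit 0) (.e (nat_lit 5173) (nat_lit 292) (.e (nat_lit 1179) (nat_lit 87) (.e (nat_lit 57479) (nat_lit 28) (.e (nat_lit 557105) (nat_lit 14) .nil))))))))) (.g (nat_lit 9) .nil .nil))))) 
(.nd (nat_lit 3) (.nd (nat_lit 4) 
(.lf (nat_lit 267268) (.g (nat_lit 4008) (.e (nat_lit 180252) (nat_lit 10) (.e (nat_lit 573489) (nat_lit 14) (.e (nat_lit 73755) (nat_lit 8) (.e (nat_lit 557090) (nat_lit 12) (.e (nat_lit 163840) (nat_lit 0) (.e (nat_lit 5077) (nat_lit 292) (.e (nat_lit 1173) (nat_lit 87) (.e (nat_lit 57479) (nat_lit 28) (.e (nat_lit 557105) (nat_lit 14) .nil))))))))) (.g (nat_lit 9) .nil .nil))) 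
(.lf (nat_lit 267284) (.g (nat_lit 4086) (.e (nat_lit 180252) (nat_lit 10) (.e (nat_lit 573489) (nat_lit 14) (.e (nat_lit 73755) (nat_lit 8) (.e (nat_lit 557090) (nat_lit 12) (.e (nat_lit 163842) (nat_lit 0) (.e (nat_lit 5148) (nat_lit 292) (.e (nat_lit 1182) (nat_lit 87) (.e (nat_lit 57479) (nat_lit 28) (.e (nat_lit 557105) (nat_lit 14) .nil))))))))) (.g (nat_lit 9) .nil .nil)))) 
(.nd (nat_lit 4) 
(.lf (nat_lit 267276) (.g (nat_lit 4685) (.e (nat_lit 180252) (nat_lit 10) (.e (nat_lit 573489) (nat_lit 14) (.e (nat_lit 73755) (nat_lit 8) (.e (nat_lit 557090) (nat_lit 12) (.e (nat_lit 163842) (nat_lit 0) (.e (nat_lit 5109) (nat_lit 292) (.e (nat_lit 1177) (nat_lit 87) (.e (nat_lit 57479) (nat_lit 28) (.e (nat_lit 557105) (nat_lit 14) .nil))))))))) (.g (nat_lit 9) .nil .nil))) 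
(.lf (nat_lit 267292) (.g (nat_lit 5048) (.e (nat_lit 180252) (nat_lit 10) (.e (nat_lit 573489) (nat_lit 14) (.e (nat_lit 73755) (nat_lit 8) (.e (nat_lit 557090) (nat_lit 12) (.e (nat_lit 163844) (nat_lit 0) (.e (nat_lit 5130) (nat_lit 292) (.e (nat_lit 1179) (nat_lit 87) (.e (nat_lit 57479) (nat_lit 28) (.e (nat_lit 557105) (nat_lit 14) .nil))))))))) (.g (nat_lit 9) .nil .nil)))))) 
(.nd (nat_lit 2) (.nd (nat_lit 3) (.nd (nat_lit 4) 
(.lf (nat_lit 267266) (.g (nat_lit 4093) (.e (nat_lit 180252) (nat_lit 10) (.e (nat_lit 573489) (nat_lit 14) (.e (nat_lit 73755) (nat_lit 8) (.e (nat_lit 557090) (nat_lit 12) (.e (nat_lit 163840) (nat_lit 0) (.e (nat_lit 5063) (nat_lit 292) (.e (nat_lit 1173) (nat_lit 87) (.e (nat_lit 57479) (nat_lit 28) (.e (nat_lit 557105) (nat_lit 14) .nil))))))))) (.g (nat_lit 9) .nil .nil))) 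
(.lf (nat_lit 267282) (.g (nat_lit 4608) (.e (nat_lit 180252) (nat_lit 10) (.e (nat_lit 573489) (nat_lit 14) (.e (nat_lit 73755) (nat_lit 8) (.e (nat_lit 557090) (nat_lit 12) (.e (nat_lit 163842) (nat_lit 0) (.e (nat_lit 5115) (nat_lit 292) (.e (nat_lit 1182) (nat_lit 87) (.e (nat_lit 57479) (nat_lit 28) (.e (nat_lit 557105) (nat_lit 14) .nil))))))))) (.g (nat_lit 9) .nil .nil)))) 
(.nd (nat_lit 4) 
(.lf (nat_lit 267274) (.g (nat_lit 5269) (.e (nat_lit 180252) (nat_lit 10) (.e (nat_lit 573489) (nat_lit 14) (.e (nat_lit 73755) (nat_lit 8) (.e (nat_lit 557090) (nat_lit 12) (.e (nat_lit 163842) (nat_lit 0) (.e (nat_lit 5108) (nat_lit 292) (.e (nat_lit 1181) (nat_lit 87) (.e (nat_lit 57479) (nat_lit 28) (.e (nat_lit 557105) (nat_lit 14) .nil))))))))) (.g (nat_lit 9) .nil .nil))) 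
(.lf (nat_lit 267290) (.g (nat_lit 5238) (.e (nat_lit 180252) (nat_lit 10) (.e (nat_lit 573489) (nat_lit 14) (.e (nat_lit 73755) (nat_lit 8) (.e (nat_lit 557090) (nat_lit 12) (.e (nat_lit 163843) (nat_lit 0) (.e (nat_lit 5177) (nat_lit 292) (.e (nat_lit 1179) (nat_lit 87) (.e (nat_lit 57479) (nat_lit 28) (.e (nat_lit 557105) (nat_lit 14) .nil))))))))) (.g (nat_lit 9) .nil .nil))))) 
(.nd (nat_lit 3) (.nd (nat_lit 4) 
(.lf (nat_lit 267270) (.g (nat_lit 4396) (.e (nat_lit 180252) (nat_lit 10) (.e (nat_lit 573489) (nat_lit 14) (.e (nat_lit 73755) (nat_lit 8) (.e (nat_lit 557090) (nat_lit 12) (.e (nat_lit 163841) (nat_lit 0) (.e (nat_lit 5173) (nat_lit 292) (.e (nat_lit 1179) (nat_lit 87) (.e (nat_lit 57479) (nat_lit 28) (.e (nat_lit 557105) (nat_lit 14) .nil))))))))) (.g (nat_lit 9) .nil .nil))) 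
(.lf (nat_lit 267286) (.g (nat_lit 5048) (.e (nat_lit 180252) (nat_lit 10) (.e (nat_lit 573489) (nat_lit 14) (.e (nat_lit 73755) (nat_lit 8) (.e (nat_lit 557090) (nat_lit 12) (.e (nat_lit 163842) (nat_lit 0) (.e (nat_lit 5150) (nat_lit 292) (.e (nat_lit 1182) (nat_lit 87) (.e (nat_lit 57479) (nat_lit 28) (.e (nat_lit 557105) (nat_lit 14) .nil))))))))) (.g (nat_lit 9) .nil .nil)))) 
(.nd (nat_lit 4) 
(.lf (nat_lit 267278) (.g (nat_lit 5238) (.e (nat_lit 180252) (nat_lit 10) (.e (nat_lit 573489) (nat_lit 14) (.e (nat_lit 73755) (nat_lit 8) (.e (nat_lit 557090) (nat_lit 12) (.e (nat_lit 163842) (nat_lit 0) (.e (nat_lit 5113) (nat_lit 292) (.e (nat_lit 1181) (nat_lit 87) (.e (nat_lit 57479) (nat_lit 28) (.e (nat_lit 557105) (nat_lit 14) .nil))))))))) (.g (nat_lit 9) .nil .nil))) 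
(.lf (nat_lit 267294) (.g (nat_lit 4608) (.e (nat_lit 180252) (nat_lit 10) (.e (nat_lit 573489) (nat_lit 14) (.e (nat_lit 73755) (nat_lit 8) (.e (nat_lit 557090) (nat_lit 12) (.e (nat_lit 163844) (nat_lit 0) (.e (nat_lit 5175) (nat_lit 292) (.e (nat_lit 1179) (nat_lit 87) (.e (nat_lit 57479) (nat_lit 28) (.e (nat_lit 557105) (nat_lit 14) .nil))))))))) (.g (nat_lit 9) .nil .nil))))))) 
(.nd (nat_lit 1) (.nd (nat_lit 2) (.nd (nat_lit 3) (.nd (nat_lit 4) 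
(.lf (nat_lit 267265) (.g (nat_lit 4175) (.e (nat_lit 180252) (nat_lit 10) (.e (nat_lit 573489) (nat_lit 14) (.e (nat_lit 73755) (nat_lit 8) (.e (nat_lit 557090) (nat_lit 12) (.e (nat_lit 163840) (nat_lit 0) (.e (nat_lit 5061) (nat_lit 292) (.e (nat_lit 1173) (nat_lit 87) (.e (nat_lit 57479) (nat_lit 28) (.e (nat_lit 557105) (nat_lit 14) .nil))))))))) (.g (nat_lit 9) .nil .nil))) 
(.lf (nat_lit 267281) (.g (nat_lit 5392) (.e (nat_lit 180252) (nat_lit 10) (.e (nat_lit 573489) (nat_lit 14) (.e (nat_lit 73755) (nat_lit 8) (.e (nat_lit 557090) (nat_lit 12) (.e (nat_lit 163842) (nat_lit 0) (.e (nat_lit 5115) (nat_lit 292) (.e (nat_lit 1181) (nat_lit 87) (.e (nat_lit 57479) (nat_lit 28) (.e (nat_lit 557105) (nat_lit 14) .nil))))))))) (.g (nat_lit 9) .nil .nil)))) 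
(.nd (nat_lit 4) 
(.lf (nat_lit 267273) (.g (nat_lit 4422) (.e (nat_lit 180252) (nat_lit 10) (.e (nat_lit 573489) (nat_lit 14) (.e (nat_lit 73755) (nat_lit 8) (.e (nat_lit 557090) (nat_lit 12) (.e (nat_lit 163841) (nat_lit 0) (.e (nat_lit 5177) (nat_lit 292) (.e (nat_lit 1179) (nat_lit 87) (.e (nat_lit 57479) (nat_lit 28) (.e (nat_lit 557105) (nat_lit 14) .nil))))))))) (.g (nat_lit 9) .nil .nil))) 
(.lf (nat_lit 267289) (.g (nat_lit 5392) (.e (nat_lit 180252) (nat_lit 10) (.e (nat_lit 573489) (nat_lit 14) (.e (nat_lit 73755) (nat_lit 8) (.e (nat_lit 557090) (nat_lit 12) (.e (nat_lit 163843) (nat_lit 0) (.e (nat_lit 5175) (nat_lit 292) (.e (nat_lit 1179) (nat_lit 87) (.e (nat_lit 57479) (nat_lit 28) (.e (nat_lit 557105) (nat_lit 14) .nil))))))))) (.g (nat_lit 9) .nil .nil))))) 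
(.nd (nat_lit 3) (.nd (nat_lit 4) 
(.lf (nat_lit 267269) (.g (nat_lit 1768) (.e (nat_lit 180252) (nat_lit 10) (.e (nat_lit 573489) (nat_lit 14) (.e (nat_lit 73755) (nat_lit 8) (.e (nat_lit 557090) (nat_lit 12) (.e (nat_lit 163841) (nat_lit 0) .nil))))) .nil)) 
(.lf (nat_lit 267285) (.g (nat_lit 5693) (.e (nat_lit 180252) (nat_lit 10) (.e (nat_lit 573489) (nat_lit 14) (.e (nat_lit 73755) (nat_lit 8) (.e (nat_lit 557090) (nat_lit 12) (.e (nat_lit 163842) (nat_lit 0) (.e (nat_lit 5150) (nat_lit 292) (.e (nat_lit 1181) (nat_lit 87) (.e (nat_lit 57479) (nat_lit 28) (.e (nat_lit 557105) (nat_lit 14) .nil))))))))) (.g (nat_lit 9) .nil .nil)))) 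
(.nd (nat_lit 4) 
(.lf (nat_lit 267277) (.g (nat_lit 4687) (.e (nat_lit 180252) (nat_lit 10) (.e (nat_lit 573489) (nat_lit 14) (.e (nat_lit 73755) (nat_lit 8) (.e (nat_lit 557090) (nat_lit 12) (.e (nat_lit 163842) (nat_lit 0) (.e (nat_lit 5111) (nat_lit 292) (.e (nat_lit 1178) (nat_lit 87) (.e (nat_lit 57479) (nat_lit 28) (.e (nat_lit 557105) (nat_lit 14) .nil))))))))) (.g (nat_lit 9) .nil .nil))) 
(.lf (nat_lit 267293) (.g (nat_lit 4460) (.e (nat_lit 180252) (nat_lit 10) (.e (nat_lit 573489) (nat_lit 14) (.e (nat_lit 73755) (nat_lit 8) (.e (nat_lit 557090) (nat_lit 12) (.e (nat_lit 163844) (nat_lit 0) (.e (nat_lit 5173) (nat_lit 292) (.e (nat_lit 1179) (nat_lit 87) (.e (nat_lit 57479) (nat_lit 28) (.e (nat_lit 557105) (nat_lit 14) .nil))))))))) (.g (nat_lit 9) .nil .nil)))))) 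
(.nd (nat_lit 2) (.nd (nat_lit 3) (.nd (nat_lit 4) 
(.lf (nat_lit 267267) (.g (nat_lit 4093) (.e (nat_lit 180252) (nat_lit 10) (.e (nat_lit 573489) (nat_lit 14) (.e (nat_lit 73755) (nat_lit 8) (.e (nat_lit 557090) (nat_lit 12) (.e (nat_lit 163840) (nat_lit 0) (.e (nat_lit 5071) (nat_lit 292) (.e (nat_lit 1173) (nat_lit 87) (.e (nat_lit 57479) (nat_lit 28) (.e (nat_lit 557105) (nat_lit 14) .nil))))))))) (.g (nat_lit 9) .nil .nil))) 
(.lf (nat_lit 267283) (.g (nat_lit 5272) (.e (nat_lit 180252) (nat_lit 10) (.e (nat_lit 573489) (nat_lit 14) (.e (nat_lit 73755) (nat_lit 8) (.e (nat_lit 557090) (nat_lit 12) (.e (nat_lit 163842) (nat_lit 0) (.e (nat_lit 5127) (nat_lit 292) (.e (nat_lit 1179) (nat_lit 87) (.e (nat_lit 57479) (nat_lit 28) (.e (nat_lit 557105) (nat_lit 14) .nil))))))))) (.g (nat_lit 9) .nil .nil)))) 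
(.nd (nat_lit 4) 
(.lf (nat_lit 267275) (.g (nat_lit 4460) (.e (nat_lit 180252) (nat_lit 10) (.e (nat_lit 573489) (nat_lit 14) (.e (nat_lit 73755) (nat_lit 8) (.e (nat_lit 557090) (nat_lit 12) (.e (nat_lit 163842) (nat_lit 0) (.e (nat_lit 5108) (nat_lit 292) (.e (nat_lit 1182) (nat_lit 87) (.e (nat_lit 57479) (nat_lit 28) (.e (nat_lit 557105) (nat_lit 14) .nil))))))))) (.g (nat_lit 9) .nil .nil))) 
(.lf (nat_lit 267291) (.g (nat_lit 4118) (.e (nat_lit 180252) (nat_lit 10) (.e (nat_lit 573489) (nat_lit 14) (.e (nat_lit 73755) (nat_lit 8) (.e (nat_lit 557090) (nat_lit 12) (.e (nat_lit 163844) (nat_lit 0) (.e (nat_lit 5117) (nat_lit 292) (.e (nat_lit 1185) (nat_lit 87) (.e (nat_lit 57479) (nat_lit 28) (.e (nat_lit 557105) (nat_lit 14) .nil))))))))) (.g (nat_lit 9) .nil .nil))))) 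
(.nd (nat_lit 3) (.nd (nat_lit 4) 
(.lf (nat_lit 267271) (.g (nat_lit 4687) (.e (nat_lit 180252) (nat_lit 10) (.e (nat_lit 573489) (nat_lit 14) (.e (nat_lit 73755) (nat_lit 8) (.e (nat_lit 557090) (nat_lit 12) (.e (nat_lit 163841) (nat_lit 0) (.e (nat_lit 5174) (nat_lit 292) (.e (nat_lit 1179) (nat_lit 87) (.e (nat_lit 57479) (nat_lit 28) (.e (nat_lit 557105) (nat_lit 14) .nil))))))))) (.g (nat_lit 9) .nil .nil))) 
(.lf (nat_lit 267287) (.g (nat_lit 5693) (.e (nat_lit 180252) (nat_lit 10) (.e (nat_lit 573489) (nat_lit 14) (.e (nat_lit 73755) (nat_lit 8) (.e (nat_lit 557090) (nat_lit 12) (.e (nat_lit 163843) (nat_lit 0) (.e (nat_lit 5130) (nat_lit 292) (.e (nat_lit 1179) (nat_lit 87) (.e (nat_lit 57479) (nat_lit 28) (.e (nat_lit 557105) (nat_lit 14) .nil))))))))) (.g (nat_lit 9) .nil .nil)))) 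
(.nd (nat_lit 4) 
(.lf (nat_lit 267279) (.g (nat_lit 4585) (.e (nat_lit 180252) (nat_lit 10) (.e (nat_lit 573489) (nat_lit 14) (.e (nat_lit 73755) (nat_lit 8) (.e (nat_lit 557090) (nat_lit 12) (.e (nat_lit 163842) (nat_lit 0) (.e (nat_lit 5113) (nat_lit 292) (.e (nat_lit 1182) (nat_lit 87) (.e (nat_lit 57479) (nat_lit 28) (.e (nat_lit 557105) (nat_lit 14) .nil))))))))) (.g (nat_lit 9) .nil .nil))) 
(.lf (nat_lit 267295) (.g (nat_lit 4585) (.e (nat_lit 180252) (nat_lit 10) (.e (nat_lit 573489) (nat_lit 14) (.e (nat_lit 73755) (nat_lit 8) (.e (nat_lit 557090) (nat_lit 12) (.e (nat_lit 163844) (nat_lit 0) (.e (nat_lit 5177) (nat_lit 292) (.e (nat_lit 1179) (nat_lit 87) (.e (nat_lit 57479) (nat_lit 28) (.e (nat_lit 557105) (nat_lit 14) .nil))))))))) (.g (nat_lit 9) .nil .nil))))))))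

noncomputable def tv3432 : DT := (.nd (nat_lit 0) (.nd (nat_lit 1) (.nd (nat_lit 2) (.nd (nat_lit 3) (.nd (nat_lit 4) 
(.lf (nat_lit 267296) (.g (nat_lit 2058) (.e (nat_lit 180252) (nat_lit 10) (.e (nat_lit 573489) (nat_lit 14) (.e (nat_lit 73755) (nat_lit 8) (.e (nat_lit 557090) (nat_lit 12) (.e (nat_lit 163845) (nat_lit 0) .nil))))) .nil)) 
(.lf (nat_lit 267312) (.g (nat_lit 4175) (.e (nat_lit 180252) (nat_lit 10) (.e (nat_lit 573489) (nat_lit 14) (.e (nat_lit 73755) (nat_lit 8) (.e (nat_lit 557090) (nat_lit 12) (.e (nat_lit 163852) (nat_lit 0) (.e (nat_lit 5098) (nat_lit 292) (.e (nat_lit 1169) (nat_lit 87) (.e (nat_lit 57479) (nat_lit 28) (.e (nat_lit 557105) (nat_lit 14) .nil))))))))) (.g (nat_lit 9) .nil .nil)))) 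
(.nd (nat_lit 4) 
(.lf (nat_lit 267304) (.g (nat_lit 2915) (.e (nat_lit 180252) (nat_lit 10) (.e (nat_lit 573489) (nat_lit 14) (.e (nat_lit 73755) (nat_lit 8) (.e (nat_lit 557090) (nat_lit 12) (.e (nat_lit 163850) (nat_lit 0) (.e (nat_lit 5097) (nat_lit 292) (.e (nat_lit 1176) (nat_lit 87) (.e (nat_lit 57478) (nat_lit 28) (.e (nat_lit 557105) (nat_lit 14) .nil))))))))) (.g (nat_lit 5) .nil .nil))) 
(.lf (nat_lit 267320) (.g (nat_lit 1895) (.e (nat_lit 180252) (nat_lit 10) (.e (nat_lit 573489) (nat_lit 14) (.e (nat_lit 73755) (nat_lit 8) (.e (nat_lit 557090) (nat_lit 12) (.e (nat_lit 171776) (nat_lit 0) .nil))))) .nil)))) (.nd (nat_lit 3) (.nd (nat_lit 4) 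
(.lf (nat_lit 267300) (.g (nat_lit 4261) (.e (nat_lit 180252) (nat_lit 10) (.e (nat_lit 573489) (nat_lit 14) (.e (nat_lit 73755) (nat_lit 8) (.e (nat_lit 557090) (nat_lit 12) (.e (nat_lit 163846) (nat_lit 0) (.e (nat_lit 5077) (nat_lit 292) (.e (nat_lit 1173) (nat_lit 87) (.e (nat_lit 57479) (nat_lit 28) (.e (nat_lit 557105) (nat_lit 14) .nil))))))))) (.g (nat_lit 9) .nil .nil))) 
(.lf (nat_lit 267316) (.g (nat_lit 2427) (.e (nat_lit 180252) (nat_lit 10) (.e (nat_lit 573489) (nat_lit 14) (.e (nat_lit 73755) (nat_lit 8) (.e (nat_lit 557090) (nat_lit 12) (.e (nat_lit 163854) (nat_lit 0) (.e (nat_lit 5097) (nat_lit 292) (.e (nat_lit 1176) (nat_lit 87) (.e (nat_lit 57478) (nat_lit 28) (.e (nat_lit 557105) (nat_lit 14) .nil))))))))) (.g (nat_lit 4) .nil .nil)))) 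
(.nd (nat_lit 4) 
(.lf (nat_lit 267308) (.g (nat_lit 4008) (.e (nat_lit 180252) (nat_lit 10) (.e (nat_lit 573489) (nat_lit 14) (.e (nat_lit 73755) (nat_lit 8) (.e (nat_lit 557090) (nat_lit 12) (.e (nat_lit 163852) (nat_lit 0) (.e (nat_lit 5079) (nat_lit 292) (.e (nat_lit 1169) (nat_lit 87) (.e (nat_lit 57479) (nat_lit 28) (.e (nat_lit 557105) (nat_lit 14) .nil))))))))) (.g (nat_lit 9) .nil .nil))) 
(.lf (nat_lit 267324) (.g (nat_lit 2131) (.e (nat_lit 180252) (nat_lit 10) (.e (nat_lit 573489) (nat_lit 14) (.e (nat_lit 73755) (nat_lit 8) (.e (nat_lit 557090) (nat_lit 12) (.e (nat_lit 163996) (nat_lit 37) .nil))))) .nil))))) (.nd (nat_lit 2) (.nd (nat_lit 3) (.nd (nat_lit 4) 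
(.lf (nat_lit 267298) (.g (nat_lit 4414) (.e (nat_lit 180252) (nat_lit 10) (.e (nat_lit 573489) (nat_lit 14) (.e (nat_lit 73755) (nat_lit 8) (.e (nat_lit 557090) (nat_lit 12) (.e (nat_lit 163846) (nat_lit 0) (.e (nat_lit 5061) (nat_lit 292) (.e (nat_lit 1173) (nat_lit 87) (.e (nat_lit 57479) (nat_lit 28) (.e (nat_lit 557105) (nat_lit 14) .nil))))))))) (.g (nat_lit 9) .nil .nil))) 
(.lf (nat_lit 267314) (.g (nat_lit 2185) (.e (nat_lit 180252) (nat_lit 10) (.e (nat_lit 573489) (nat_lit 14) (.e (nat_lit 73755) (nat_lit 8) (.e (nat_lit 557090) (nat_lit 12) (.e (nat_lit 163854) (nat_lit 0) .nil))))) .nil))) (.nd (nat_lit 4) 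
(.lf (nat_lit 267306) (.g (nat_lit 2270) (.e (nat_lit 180252) (nat_lit 10) (.e (nat_lit 573489) (nat_lit 14) (.e (nat_lit 73755) (nat_lit 8) (.e (nat_lit 557090) (nat_lit 12) (.e (nat_lit 163851) (nat_lit 0) (.e (nat_lit 5176) (nat_lit 292) (.e (nat_lit 1178) (nat_lit 87) (.e (nat_lit 57479) (nat_lit 28) (.e (nat_lit 557105) (nat_lit 14) .nil))))))))) (.g (nat_lit 4) .nil .nil))) 
(.lf (nat_lit 267322) (.g (nat_lit 2259) (.e (nat_lit 180252) (nat_lit 10) (.e (nat_lit 573489) (nat_lit 14) (.e (nat_lit 73755) (nat_lit 8) (.e (nat_lit 557090) (nat_lit 12) (.e (nat_lit 163994) (nat_lit 36) .nil))))) .nil)))) (.nd (nat_lit 3) (.nd (nat_lit 4) 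
(.lf (nat_lit 267302) (.g (nat_lit 2249) (.e (nat_lit 180252) (nat_lit 10) (.e (nat_lit 573489) (nat_lit 14) (.e (nat_lit 73755) (nat_lit 8) (.e (nat_lit 557090) (nat_lit 12) (.e (nat_lit 163847) (nat_lit 0) (.e (nat_lit 5170) (nat_lit 292) (.e (nat_lit 7936) (nat_lit 87) (.e (nat_lit 57479) (nat_lit 28) (.e (nat_lit 557105) (nat_lit 14) .nil))))))))) (.g (nat_lit 4) .nil .nil))) 
(.lf (nat_lit 267318) (.g (nat_lit 2069) (.e (nat_lit 180252) (nat_lit 10) (.e (nat_lit 573489) (nat_lit 14) (.e (nat_lit 73755) (nat_lit 8) (.e (nat_lit 557090) (nat_lit 12) (.e (nat_lit 163856) (nat_lit 0) .nil))))) .nil))) (.nd (nat_lit 4) 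
(.lf (nat_lit 267310) (.g (nat_lit 4207) (.e (nat_lit 180252) (nat_lit 10) (.e (nat_lit 573489) (nat_lit 14) (.e (nat_lit 73755) (nat_lit 8) (.e (nat_lit 557090) (nat_lit 12) (.e (nat_lit 163852) (nat_lit 0) (.e (nat_lit 5095) (nat_lit 292) (.e (nat_lit 1169) (nat_lit 87) (.e (nat_lit 57479) (nat_lit 28) (.e (nat_lit 557105) (nat_lit 14) .nil))))))))) (.g (nat_lit 9) .nil .nil))) 
(.lf (nat_lit 267326) (.g (nat_lit 5189) (.e (nat_lit 180252) (nat_lit 10) (.e (nat_lit 573489) (nat_lit 14) (.e (nat_lit 73755) (nat_lit 8) (.e (nat_lit 557090) (nat_lit 12) (.e (nat_lit 163996) (nat_lit 37) (.e (nat_lit 630818) (nat_lit 15) (.e (nat_lit 57479) (nat_lit 28) (.e (nat_lit 557105) (nat_lit 14) .nil)))))))) (.g (nat_lit 8) .nil .nil))))))) 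
(.nd (nat_lit 1) (.nd (nat_lit 2) (.nd (nat_lit 3) (.nd (nat_lit 4) 
(.lf (nat_lit 267297) (.g (nat_lit 2034) (.e (nat_lit 180252) (nat_lit 10) (.e (nat_lit 573489) (nat_lit 14) (.e (nat_lit 73755) (nat_lit 8) (.e (nat_lit 557090) (nat_lit 12) (.e (nat_lit 163846) (nat_lit 0) .nil))))) .nil)) 
(.lf (nat_lit 267313) (.g (nat_lit 2011) (.e (nat_lit 180252) (nat_lit 10) (.e (nat_lit 573489) (nat_lit 14) (.e (nat_lit 73755) (nat_lit 8) (.e (nat_lit 557090) (nat_lit 12) (.e (nat_lit 163852) (nat_lit 0) (.e (nat_lit 5190) (nat_lit 294) (.e (nat_lit 57354) (nat_lit 0) (.e (nat_lit 1855) (nat_lit 124) (.e (nat_lit 557105) (nat_lit 14) .nil))))))))) (.g (nat_lit 4) .nil .nil)))) 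
(.nd (nat_lit 4) 
(.lf (nat_lit 267305) (.g (nat_lit 2218) (.e (nat_lit 180252) (nat_lit 10) (.e (nat_lit 573489) (nat_lit 14) (.e (nat_lit 73755) (nat_lit 8) (.e (nat_lit 557090) (nat_lit 12) (.e (nat_lit 163851) (nat_lit 0) .nil))))) .nil)) 
(.lf (nat_lit 267321) (.g (nat_lit 2151) (.e (nat_lit 180252) (nat_lit 10) (.e (nat_lit 573489) (nat_lit 14) (.e (nat_lit 73755) (nat_lit 8) (.e (nat_lit 557090) (nat_lit 12) (.e (nat_lit 171776) (nat_lit 0) (.e (nat_lit 5114) (nat_lit 292) (.e (nat_lit 1182) (nat_lit 87) (.e (nat_lit 57479) (nat_lit 28) (.e (nat_lit 557105) (nat_lit 14) .nil))))))))) (.g (nat_lit 4) .nil .nil))))) 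
(.nd (nat_lit 3) (.nd (nat_lit 4) 
(.lf (nat_lit 267301) (.g (nat_lit 2312) (.e (nat_lit 180252) (nat_lit 10) (.e (nat_lit 573489) (nat_lit 14) (.e (nat_lit 73755) (nat_lit 8) (.e (nat_lit 557090) (nat_lit 12) (.e (nat_lit 163846) (nat_lit 0) (.e (nat_lit 5190) (nat_lit 294) (.e (nat_lit 57354) (nat_lit 0) (.e (nat_lit 1855) (nat_lit 124) (.e (nat_lit 557105) (nat_lit 14) .nil))))))))) (.g (nat_lit 4) .nil .nil))) 
(.lf (nat_lit 267317) (.g (nat_lit 3956) (.e (nat_lit 180252) (nat_lit 10) (.e (nat_lit 573489) (nat_lit 14) (.e (nat_lit 73755) (nat_lit 8) (.e (nat_lit 557090) (nat_lit 12) (.e (nat_lit 163855) (nat_lit 0) (.e (nat_lit 5152) (nat_lit 292) (.e (nat_lit 1182) (nat_lit 87) (.e (nat_lit 57479) (nat_lit 28) (.e (nat_lit 557105) (nat_lit 14) .nil))))))))) (.g (nat_lit 9) .nil .nil)))) 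
(.nd (nat_lit 4) 
(.lf (nat_lit 267309) (.g (nat_lit 4093) (.e (nat_lit 180252) (nat_lit 10) (.e (nat_lit 573489) (nat_lit 14) (.e (nat_lit 73755) (nat_lit 8) (.e (nat_lit 557090) (nat_lit 12) (.e (nat_lit 163852) (nat_lit 0) (.e (nat_lit 5089) (nat_lit 292) (.e (nat_lit 1169) (nat_lit 87) (.e (nat_lit 57479) (nat_lit 28) (.e (nat_lit 557105) (nat_lit 14) .nil))))))))) (.g (nat_lit 9) .nil .nil))) 
(.lf (nat_lit 267325) (.g (nat_lit 2716) (.e (nat_lit 180252) (nat_lit 10) (.e (nat_lit 573489) (nat_lit 14) (.e (nat_lit 73755) (nat_lit 8) (.e (nat_lit 557090) (nat_lit 12) (.e (nat_lit 163996) (nat_lit 37) (.e (nat_lit 630818) (nat_lit 15) (.e (nat_lit 57476) (nat_lit 28) (.e (nat_lit 557104) (nat_lit 14) .nil)))))))) (.g (nat_lit 4) .nil .nil)))))) 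
(.nd (nat_lit 2) (.nd (nat_lit 3) (.nd (nat_lit 4) 
(.lf (nat_lit 267299) (.g (nat_lit 4371) (.e (nat_lit 180252) (nat_lit 10) (.e (nat_lit 573489) (nat_lit 14) (.e (nat_lit 73755) (nat_lit 8) (.e (nat_lit 557090) (nat_lit 12) (.e (nat_lit 163846) (nat_lit 0) (.e (nat_lit 5063) (nat_lit 292) (.e (nat_lit 1173) (nat_lit 87) (.e (nat_lit 57479) (nat_lit 28) (.e (nat_lit 557105) (nat_lit 14) .nil))))))))) (.g (nat_lit 9) .nil .nil))) 
(.lf (nat_lit 267315) (.g (nat_lit 2449) (.e (nat_lit 180252) (nat_lit 10) (.e (nat_lit 573489) (nat_lit 14) (.e (nat_lit 73755) (nat_lit 8) (.e (nat_lit 557090) (nat_lit 12) (.e (nat_lit 163854) (nat_lit 0) (.e (nat_lit 5089) (nat_lit 292) (.e (nat_lit 1176) (nat_lit 87) (.e (nat_lit 57478) (nat_lit 28) (.e (nat_lit 557105) (nat_lit 14) .nil))))))))) (.g (nat_lit 4) .nil .nil)))) 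
(.nd (nat_lit 4) 
(.lf (nat_lit 267307) (.g (nat_lit 4361) (.e (nat_lit 180252) (nat_lit 10) (.e (nat_lit 573489) (nat_lit 14) (.e (nat_lit 73755) (nat_lit 8) (.e (nat_lit 557090) (nat_lit 12) (.e (nat_lit 163852) (nat_lit 0) (.e (nat_lit 5045) (nat_lit 292) (.e (nat_lit 1173) (nat_lit 87) (.e (nat_lit 57479) (nat_lit 28) (.e (nat_lit 557105) (nat_lit 14) .nil))))))))) (.g (nat_lit 9) .nil .nil))) 
(.lf (nat_lit 267323) (.g (nat_lit 2422) (.e (nat_lit 180252) (nat_lit 10) (.e (nat_lit 573489) (nat_lit 14) (.e (nat_lit 73755) (nat_lit 8) (.e (nat_lit 557090) (nat_lit 12) (.e (nat_lit 163995) (nat_lit 36) (.e (nat_lit 622640) (nat_lit 19) (.e (nat_lit 237312) (nat_lit 28) (.e (nat_lit 557105) (nat_lit 14) .nil)))))))) (.g (nat_lit 4) .nil .nil))))) (.nd (nat_lit 3) (.nd (nat_lit 4) 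
(.lf (nat_lit 267303) (.g (nat_lit 2459) (.e (nat_lit 180252) (nat_lit 10) (.e (nat_lit 573489) (nat_lit 14) (.e (nat_lit 73755) (nat_lit 8) (.e (nat_lit 557090) (nat_lit 12) (.e (nat_lit 163848) (nat_lit 0) (.e (nat_lit 5130) (nat_lit 292) (.e (nat_lit 1179) (nat_lit 87) (.e (nat_lit 57479) (nat_lit 28) (.e (nat_lit 557105) (nat_lit 14) .nil))))))))) (.g (nat_lit 4) .nil .nil))) 
(.lf (nat_lit 267319) (.g (nat_lit 4118) (.e (nat_lit 180252) (nat_lit 10) (.e (nat_lit 573489) (nat_lit 14) (.e (nat_lit 73755) (nat_lit 8) (.e (nat_lit 557090) (nat_lit 12) (.e (nat_lit 163856) (nat_lit 0) (.e (nat_lit 5152) (nat_lit 292) (.e (nat_lit 1182) (nat_lit 87) (.e (nat_lit 57479) (nat_lit 28) (.e (nat_lit 557105) (nat_lit 14) .nil))))))))) (.g (nat_lit 9) .nil .nil)))) 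
(.nd (nat_lit 4) 
(.lf (nat_lit 267311) (.g (nat_lit 4093) (.e (nat_lit 180252) (nat_lit 10) (.e (nat_lit 573489) (nat_lit 14) (.e (nat_lit 73755) (nat_lit 8) (.e (nat_lit 557090) (nat_lit 12) (.e (nat_lit 163852) (nat_lit 0) (.e (nat_lit 5097) (nat_lit 292) (.e (nat_lit 1169) (nat_lit 87) (.e (nat_lit 57479) (nat_lit 28) (.e (nat_lit 557105) (nat_lit 14) .nil))))))))) (.g (nat_lit 9) .nil .nil))) 
(.lf (nat_lit 267327) (.g (nat_lit 4902) (.e (nat_lit 180252) (nat_lit 10) (.e (nat_lit 573489) (nat_lit 14) (.e (nat_lit 73755) (nat_lit 8) (.e (nat_lit 557090) (nat_lit 12) (.e (nat_lit 163996) (nat_lit 37) (.e (nat_lit 630819) (nat_lit 15) (.e (nat_lit 57479) (nat_lit 28) (.e (nat_lit 557105) (nat_lit 14) .nil)))))))) (.g (nat_lit 8) .nil .nil))))))))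

noncomputable def tv3433 : DT := (.nd (nat_lit 0) (.nd (nat_lit 1) (.nd (nat_lit 2) (.nd (nat_lit 3) (.nd (nat_lit 4) (.nd (nat_lit 5) 
(.lf (nat_lit 267328) (.g (nat_lit 2352) (.e (nat_lit 180252) (nat_lit 10) (.e (nat_lit 573489) (nat_lit 14) (.e (nat_lit 73755) (nat_lit 8) (.e (nat_lit 557090) (nat_lit 12) (.e (nat_lit 163997) (nat_lit 37) (.e (nat_lit 630818) (nat_lit 15) (.e (nat_lit 57476) (nat_lit 28) (.e (nat_lit 557104) (nat_lit 14) .nil)))))))) (.g (nat_lit 4) .nil .nil))) 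
(.lf (nat_lit 267360) (.g (nat_lit 4908) (.e (nat_lit 180252) (nat_lit 10) (.e (nat_lit 573489) (nat_lit 14) (.e (nat_lit 73755) (nat_lit 8) (.e (nat_lit 557091) (nat_lit 12) (.e (nat_lit 163996) (nat_lit 37) (.e (nat_lit 630818) (nat_lit 15) (.e (nat_lit 57479) (nat_lit 28) (.e (nat_lit 557105) (nat_lit 14) .nil)))))))) (.g (nat_lit 8) .nil .nil)))) (.nd (nat_lit 5) 
(.lf (nat_lit 267344) (.g (nat_lit 2355) (.e (nat_lit 180252) (nat_lit 10) (.e (nat_lit 573489) (nat_lit 14) (.e (nat_lit 73755) (nat_lit 8) (.e (nat_lit 557090) (nat_lit 12) (.e (nat_lit 164007) (nat_lit 41) (.e (nat_lit 671488) (nat_lit 0) (.e (nat_lit 1232) (nat_lit 91) (.e (nat_lit 90173) (nat_lit 14) .nil)))))))) (.g (nat_lit 4) .nil .nil))) 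
(.lf (nat_lit 267376) (.g (nat_lit 2382) (.e (nat_lit 180252) (nat_lit 10) (.e (nat_lit 573489) (nat_lit 14) (.e (nat_lit 73755) (nat_lit 8) (.e (nat_lit 557119) (nat_lit 18) (.e (nat_lit 2423) (nat_lit 157) .nil))))) .nil)))) (.nd (nat_lit 4) (.nd (nat_lit 5) 
(.lf (nat_lit 267336) (.g (nat_lit 3172) (.e (nat_lit 180252) (nat_lit 10) (.e (nat_lit 573489) (nat_lit 14) (.e (nat_lit 73755) (nat_lit 8) (.e (nat_lit 557090) (nat_lit 12) (.e (nat_lit 164000) (nat_lit 38) (.e (nat_lit 639005) (nat_lit 13) (.e (nat_lit 1032) (nat_lit 81) (.e (nat_lit 1858) (nat_lit 124) (.e (nat_lit 557105) (nat_lit 14) .nil))))))))) (.g (nat_lit 5) .nil .nil))) 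
(.lf (nat_lit 267368) (.g (nat_lit 2671) (.e (nat_lit 180252) (nat_lit 10) (.e (nat_lit 573489) (nat_lit 14) (.e (nat_lit 73755) (nat_lit 8) (.e (nat_lit 557091) (nat_lit 12) (.e (nat_lit 164007) (nat_lit 41) .nil))))) .nil))) (.nd (nat_lit 5) 
(.lf (nat_lit 267352) (.g (nat_lit 2429) (.e (nat_lit 180252) (nat_lit 10) (.e (nat_lit 573489) (nat_lit 14) (.e (nat_lit 73755) (nat_lit 8) (.e (nat_lit 557090) (nat_lit 12) (.e (nat_lit 164009) (nat_lit 41) (.e (nat_lit 671488) (nat_lit 0) (.e (nat_lit 1238) (nat_lit 91) (.e (nat_lit 90173) (nat_lit 14) .nil)))))))) (.g (nat_lit 4) .nil .nil))) 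
(.lf (nat_lit 267384) (.g (nat_lit 2308) (.e (nat_lit 180252) (nat_lit 10) (.e (nat_lit 573503) (nat_lit 18) (.e (nat_lit 1348) (nat_lit 102) (.e (nat_lit 286761) (nat_lit 13) (.e (nat_lit 393218) (nat_lit 0) (.e (nat_lit 7936) (nat_lit 362) .nil)))))) (.g (nat_lit 4) .nil .nil)))))) (.nd (nat_lit 3) (.nd (nat_lit 4) (.nd (nat_lit 5) 
(.lf (nat_lit 267332) (.g (nat_lit 2508) (.e (nat_lit 180252) (nat_lit 10) (.e (nat_lit 573489) (nat_lit 14) (.e (nat_lit 73755) (nat_lit 8) (.e (nat_lit 557090) (nat_lit 12) (.e (nat_lit 163998) (nat_lit 38) (.e (nat_lit 639016) (nat_lit 15) (.e (nat_lit 57477) (nat_lit 28) (.e (nat_lit 557104) (nat_lit 14) .nil)))))))) (.g (nat_lit 4) .nil .nil))) 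
(.lf (nat_lit 267364) (.g (nat_lit 2446) (.e (nat_lit 180252) (nat_lit 10) (.e (nat_lit 573489) (nat_lit 14) (.e (nat_lit 73755) (nat_lit 8) (.e (nat_lit 557091) (nat_lit 12) (.e (nat_lit 163999) (nat_lit 38) (.e (nat_lit 646912) (nat_lit 15) (.e (nat_lit 57479) (nat_lit 28) (.e (nat_lit 557105) (nat_lit 14) .nil)))))))) (.g (nat_lit 4) .nil .nil)))) (.nd (nat_lit 5) 
(.lf (nat_lit 267348) (.g (nat_lit 2245) (.e (nat_lit 180252) (nat_lit 10) (.e (nat_lit 573489) (nat_lit 14) (.e (nat_lit 73755) (nat_lit 8) (.e (nat_lit 557090) (nat_lit 12) (.e (nat_lit 164008) (nat_lit 41) (.e (nat_lit 663579) (nat_lit 9) (.e (nat_lit 79) (nat_lit 0) (.e (nat_lit 1855) (nat_lit 124) (.e (nat_lit 557105) (nat_lit 14) .nil))))))))) (.g (nat_lit 4) .nil .nil))) 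
(.lf (nat_lit 267380) (.g (nat_lit 2082) (.e (nat_lit 180252) (nat_lit 10) (.e (nat_lit 573489) (nat_lit 14) (.e (nat_lit 73755) (nat_lit 8) (.e (nat_lit 557121) (nat_lit 18) .nil)))) .nil)))) (.nd (nat_lit 4) (.nd (nat_lit 5) 
(.lf (nat_lit 267340) (.g (nat_lit 2804) (.e (nat_lit 180252) (nat_lit 10) (.e (nat_lit 573489) (nat_lit 14) (.e (nat_lit 73755) (nat_lit 8) (.e (nat_lit 557090) (nat_lit 12) (.e (nat_lit 164006) (nat_lit 41) (.e (nat_lit 671488) (nat_lit 0) (.e (nat_lit 1227) (nat_lit 91) (.e (nat_lit 90173) (nat_lit 14) .nil)))))))) (.g (nat_lit 4) .nil .nil))) 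
(.lf (nat_lit 267372) (.g (nat_lit 2047) (.e (nat_lit 180252) (nat_lit 10) (.e (nat_lit 573489) (nat_lit 14) (.e (nat_lit 73755) (nat_lit 8) (.e (nat_lit 557094) (nat_lit 12) .nil)))) .nil))) (.nd (nat_lit 5) 
(.lf (nat_lit 267356) (.g (nat_lit 1496) (.e (nat_lit 180252) (nat_lit 10) (.e (nat_lit 573489) (nat_lit 14) (.e (nat_lit 73755) (nat_lit 8) (.e (nat_lit 557091) (nat_lit 12) .nil)))) .nil)) 
(.lf (nat_lit 267388) (.g (nat_lit 2894) (.e (nat_lit 180252) (nat_lit 10) (.e (nat_lit 573503) (nat_lit 18) (.e (nat_lit 1348) (nat_lit 102) (.e (nat_lit 286761) (nat_lit 13) (.e (nat_lit 393222) (nat_lit 0) (.e (nat_lit 7936) (nat_lit 362) .nil)))))) (.g (nat_lit 4) .nil .nil))))))) (.nd (nat_lit 2) (.nd (nat_lit 3) (.nd (nat_lit 4) (.nd (nat_lit 5) 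
(.lf (nat_lit 267330) (.g (nat_lit 1895) (.e (nat_lit 180252) (nat_lit 10) (.e (nat_lit 573489) (nat_lit 14) (.e (nat_lit 73755) (nat_lit 8) (.e (nat_lit 557090) (nat_lit 12) (.e (nat_lit 171776) (nat_lit 37) .nil))))) .nil)) 
(.lf (nat_lit 267362) (.g (nat_lit 6239) (.e (nat_lit 180252) (nat_lit 10) (.e (nat_lit 573489) (nat_lit 14) (.e (nat_lit 73755) (nat_lit 8) (.e (nat_lit 557091) (nat_lit 12) (.e (nat_lit 163999) (nat_lit 38) (.e (nat_lit 639017) (nat_lit 15) (.e (nat_lit 57479) (nat_lit 28) (.e (nat_lit 557105) (nat_lit 14) .nil)))))))) (.g (nat_lit 0) .nil .nil)))) (.nd (nat_lit 5) 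
(.lf (nat_lit 267346) (.g (nat_lit 2457) (.e (nat_lit 180252) (nat_lit 10) (.e (nat_lit 573489) (nat_lit 14) (.e (nat_lit 73755) (nat_lit 8) (.e (nat_lit 557090) (nat_lit 12) (.e (nat_lit 164008) (nat_lit 41) (.e (nat_lit 671488) (nat_lit 0) (.e (nat_lit 1238) (nat_lit 91) (.e (nat_lit 90171) (nat_lit 14) .nil)))))))) (.g (nat_lit 4) .nil .nil))) 
(.lf (nat_lit 267378) (.g (nat_lit 2382) (.e (nat_lit 180252) (nat_lit 10) (.e (nat_lit 573489) (nat_lit 14) (.e (nat_lit 73755) (nat_lit 8) (.e (nat_lit 557119) (nat_lit 18) (.e (nat_lit 2544) (nat_lit 158) .nil))))) .nil)))) (.nd (nat_lit 4) (.nd (nat_lit 5) 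
(.lf (nat_lit 267338) (.g (nat_lit 2992) (.e (nat_lit 180252) (nat_lit 10) (.e (nat_lit 573489) (nat_lit 14) (.e (nat_lit 73755) (nat_lit 8) (.e (nat_lit 557090) (nat_lit 12) (.e (nat_lit 164005) (nat_lit 41) (.e (nat_lit 663560) (nat_lit 0) (.e (nat_lit 1238) (nat_lit 91) (.e (nat_lit 90174) (nat_lit 14) .nil)))))))) (.g (nat_lit 4) .nil .nil))) 
(.lf (nat_lit 267370) (.g (nat_lit 2752) (.e (nat_lit 180252) (nat_lit 10) (.e (nat_lit 573489) (nat_lit 14) (.e (nat_lit 73755) (nat_lit 8) (.e (nat_lit 557093) (nat_lit 12) (.e (nat_lit 163998) (nat_lit 38) .nil))))) .nil))) (.nd (nat_lit 5) 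
(.lf (nat_lit 267354) (.g (nat_lit 2880) (.e (nat_lit 180252) (nat_lit 10) (.e (nat_lit 573489) (nat_lit 14) (.e (nat_lit 73755) (nat_lit 8) (.e (nat_lit 557090) (nat_lit 12) (.e (nat_lit 164012) (nat_lit 42) (.e (nat_lit 671746) (nat_lit 0) (.e (nat_lit 1233) (nat_lit 91) (.e (nat_lit 90173) (nat_lit 14) .nil)))))))) (.g (nat_lit 4) .nil .nil))) 
(.lf (nat_lit 267386) (.g (nat_lit 2713) (.e (nat_lit 180252) (nat_lit 10) (.e (nat_lit 573503) (nat_lit 18) (.e (nat_lit 1348) (nat_lit 102) (.e (nat_lit 286761) (nat_lit 13) (.e (nat_lit 393220) (nat_lit 0) (.e (nat_lit 7936) (nat_lit 362) .nil)))))) (.g (nat_lit 4) .nil .nil)))))) (.nd (nat_lit 3) (.nd (nat_lit 4) (.nd (nat_lit 5) 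
(.lf (nat_lit 267334) (.g (nat_lit 3489) (.e (nat_lit 180252) (nat_lit 10) (.e (nat_lit 573489) (nat_lit 14) (.e (nat_lit 73755) (nat_lit 8) (.e (nat_lit 557090) (nat_lit 12) (.e (nat_lit 163999) (nat_lit 38) (.e (nat_lit 639016) (nat_lit 15) (.e (nat_lit 57477) (nat_lit 28) (.e (nat_lit 557104) (nat_lit 14) .nil)))))))) (.g (nat_lit 5) .nil .nil))) 
(.lf (nat_lit 267366) (.g (nat_lit 3638) (.e (nat_lit 180252) (nat_lit 10) (.e (nat_lit 573489) (nat_lit 14) (.e (nat_lit 73755) (nat_lit 8) (.e (nat_lit 557091) (nat_lit 12) (.e (nat_lit 164000) (nat_lit 38) (.e (nat_lit 646912) (nat_lit 15) (.e (nat_lit 57479) (nat_lit 28) (.e (nat_lit 557105) (nat_lit 14) .nil)))))))) (.g (nat_lit 5) .nil .nil)))) (.nd (nat_lit 5) 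
(.lf (nat_lit 267350) (.g (nat_lit 2255) (.e (nat_lit 180252) (nat_lit 10) (.e (nat_lit 573489) (nat_lit 14) (.e (nat_lit 73755) (nat_lit 8) (.e (nat_lit 557090) (nat_lit 12) (.e (nat_lit 164009) (nat_lit 41) .nil))))) .nil)) 
(.lf (nat_lit 267382) (.g (nat_lit 2282) (.e (nat_lit 180252) (nat_lit 10) (.e (nat_lit 573503) (nat_lit 18) (.e (nat_lit 1348) (nat_lit 102) (.e (nat_lit 286731) (nat_lit 1) (.e (nat_lit 65280) (nat_lit 122) .nil))))) .nil)))) (.nd (nat_lit 4) (.nd (nat_lit 5) 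
(.lf (nat_lit 267342) (.g (nat_lit 2656) (.e (nat_lit 180252) (nat_lit 10) (.e (nat_lit 573489) (nat_lit 14) (.e (nat_lit 73755) (nat_lit 8) (.e (nat_lit 557090) (nat_lit 12) (.e (nat_lit 164006) (nat_lit 41) (.e (nat_lit 671488) (nat_lit 0) (.e (nat_lit 1232) (nat_lit 91) (.e (nat_lit 90173) (nat_lit 14) .nil)))))))) (.g (nat_lit 4) .nil .nil))) 
(.lf (nat_lit 267374) (.g (nat_lit 2196) (.e (nat_lit 180252) (nat_lit 10) (.e (nat_lit 573489) (nat_lit 14) (.e (nat_lit 73755) (nat_lit 8) (.e (nat_lit 557114) (nat_lit 18) .nil)))) .nil))) (.nd (nat_lit 5) 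
(.lf (nat_lit 267358) (.g (nat_lit 2801) (.e (nat_lit 180252) (nat_lit 10) (.e (nat_lit 573489) (nat_lit 14) (.e (nat_lit 73755) (nat_lit 8) (.e (nat_lit 557091) (nat_lit 12) (.e (nat_lit 163842) (nat_lit 0) .nil))))) .nil)) 
(.lf (nat_lit 267390) (.g (nat_lit 1547) (.e (nat_lit 180252) (nat_lit 10) (.e (nat_lit 573503) (nat_lit 18) (.e (nat_lit 1348) (nat_lit 102) (.e (nat_lit 286765) (nat_lit 15) .nil)))) .nil))))))) (.nd (nat_lit 1) (.nd (nat_lit 2) (.nd (nat_lit 3) (.nd (nat_lit 4) (.nd (nat_lit 5) 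
(.lf (nat_lit 267329) (.g (nat_lit 4902) (.e (nat_lit 180252) (nat_lit 10) (.e (nat_lit 573489) (nat_lit 14) (.e (nat_lit 73755) (nat_lit 8) (.e (nat_lit 557090) (nat_lit 12) (.e (nat_lit 163997) (nat_lit 37) (.e (nat_lit 630818) (nat_lit 15) (.e (nat_lit 57479) (nat_lit 28) (.e (nat_lit 557105) (nat_lit 14) .nil)))))))) (.g (nat_lit 8) .nil .nil))) 
(.lf (nat_lit 267361) (.g (nat_lit 3785) (.e (nat_lit 180252) (nat_lit 10) (.e (nat_lit 573489) (nat_lit 14) (.e (nat_lit 73755) (nat_lit 8) (.e (nat_lit 557091) (nat_lit 12) (.e (nat_lit 163999) (nat_lit 38) (.e (nat_lit 639016) (nat_lit 15) (.e (nat_lit 57477) (nat_lit 28) (.e (nat_lit 557104) (nat_lit 14) .nil)))))))) (.g (nat_lit 5) .nil .nil)))) (.nd (nat_lit 5) 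
(.lf (nat_lit 267345) (.g (nat_lit 2037) (.e (nat_lit 180252) (nat_lit 10) (.e (nat_lit 573489) (nat_lit 14) (.e (nat_lit 73755) (nat_lit 8) (.e (nat_lit 557090) (nat_lit 12) (.e (nat_lit 164008) (nat_lit 41) .nil))))) .nil)) 
(.lf (nat_lit 267377) (.g (nat_lit 2259) (.e (nat_lit 180252) (nat_lit 10) (.e (nat_lit 573489) (nat_lit 14) (.e (nat_lit 73755) (nat_lit 8) (.e (nat_lit 557119) (nat_lit 18) (.e (nat_lit 2448) (nat_lit 157) .nil))))) .nil)))) (.nd (nat_lit 4) (.nd (nat_lit 5) 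
(.lf (nat_lit 267337) (.g (nat_lit 2243) (.e (nat_lit 180252) (nat_lit 10) (.e (nat_lit 573489) (nat_lit 14) (.e (nat_lit 73755) (nat_lit 8) (.e (nat_lit 557090) (nat_lit 12) (.e (nat_lit 164004) (nat_lit 41) (.e (nat_lit 671488) (nat_lit 0) (.e (nat_lit 1238) (nat_lit 91) (.e (nat_lit 90171) (nat_lit 14) .nil)))))))) (.g (nat_lit 4) .nil .nil))) 
(.lf (nat_lit 267369) (.g (nat_lit 2241) (.e (nat_lit 180252) (nat_lit 10) (.e (nat_lit 573489) (nat_lit 14) (.e (nat_lit 73755) (nat_lit 8) (.e (nat_lit 557092) (nat_lit 12) (.e (nat_lit 163998) (nat_lit 38) .nil))))) .nil))) (.nd (nat_lit 5) 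
(.lf (nat_lit 267353) (.g (nat_lit 2704) (.e (nat_lit 180252) (nat_lit 10) (.e (nat_lit 573489) (nat_lit 14) (.e (nat_lit 73755) (nat_lit 8) (.e (nat_lit 557090) (nat_lit 12) (.e (nat_lit 164010) (nat_lit 41) (.e (nat_lit 663555) (nat_lit 0) (.e (nat_lit 1234) (nat_lit 91) (.e (nat_lit 90173) (nat_lit 14) .nil)))))))) (.g (nat_lit 4) .nil .nil))) 
(.lf (nat_lit 267385) (.g (nat_lit 2039) (.e (nat_lit 180252) (nat_lit 10) (.e (nat_lit 573503) (nat_lit 18) (.e (nat_lit 1348) (nat_lit 102) (.e (nat_lit 286761) (nat_lit 13) (.e (nat_lit 393219) (nat_lit 0) (.e (nat_lit 7936) (nat_lit 362) .nil)))))) (.g (nat_lit 4) .nil .nil)))))) (.nd (nat_lit 3) (.nd (nat_lit 4) (.nd (nat_lit 5) 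
(.lf (nat_lit 267333) (.g (nat_lit 2231) (.e (nat_lit 180252) (nat_lit 10) (.e (nat_lit 573489) (nat_lit 14) (.e (nat_lit 73755) (nat_lit 8) (.e (nat_lit 557090) (nat_lit 12) (.e (nat_lit 163998) (nat_lit 38) (.e (nat_lit 646912) (nat_lit 15) (.e (nat_lit 57479) (nat_lit 28) (.e (nat_lit 557105) (nat_lit 14) .nil)))))))) (.g (nat_lit 4) .nil .nil))) 
(.lf (nat_lit 267365) (.g (nat_lit 2997) (.e (nat_lit 180252) (nat_lit 10) (.e (nat_lit 573489) (nat_lit 14) (.e (nat_lit 73755) (nat_lit 8) (.e (nat_lit 557091) (nat_lit 12) (.e (nat_lit 164000) (nat_lit 38) (.e (nat_lit 639016) (nat_lit 15) (.e (nat_lit 57477) (nat_lit 28) (.e (nat_lit 557104) (nat_lit 14) .nil)))))))) (.g (nat_lit 4) .nil .nil)))) (.nd (nat_lit 5) 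
(.lf (nat_lit 267349) (.g (nat_lit 2182) (.e (nat_lit 180252) (nat_lit 10) (.e (nat_lit 573489) (nat_lit 14) (.e (nat_lit 73755) (nat_lit 8) (.e (nat_lit 557090) (nat_lit 12) (.e (nat_lit 164008) (nat_lit 41) (.e (nat_lit 663580) (nat_lit 9) (.e (nat_lit 46) (nat_lit 0) (.e (nat_lit 1855) (nat_lit 124) (.e (nat_lit 557105) (nat_lit 14) .nil))))))))) (.g (nat_lit 4) .nil .nil))) 
(.lf (nat_lit 267381) (.g (nat_lit 443) (.e (nat_lit 180252) (nat_lit 10) (.e (nat_lit 573489) (nat_lit 14) (.e (nat_lit 73757) (nat_lit 11) .nil))) .nil)))) (.nd (nat_lit 4) (.nd (nat_lit 5) 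
(.lf (nat_lit 267341) (.g (nat_lit 2243) (.e (nat_lit 180252) (nat_lit 10) (.e (nat_lit 573489) (nat_lit 14) (.e (nat_lit 73755) (nat_lit 8) (.e (nat_lit 557090) (nat_lit 12) (.e (nat_lit 164006) (nat_lit 41) (.e (nat_lit 671488) (nat_lit 0) (.e (nat_lit 1228) (nat_lit 91) (.e (nat_lit 90171) (nat_lit 14) .nil)))))))) (.g (nat_lit 4) .nil .nil))) 
(.lf (nat_lit 267373) (.g (nat_lit 2510) (.e (nat_lit 180252) (nat_lit 10) (.e (nat_lit 573489) (nat_lit 14) (.e (nat_lit 73755) (nat_lit 8) (.e (nat_lit 557094) (nat_lit 12) (.e (nat_lit 163998) (nat_lit 38) .nil))))) .nil))) (.nd (nat_lit 5) 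
(.lf (nat_lit 267357) (.g (nat_lit 2298) (.e (nat_lit 180252) (nat_lit 10) (.e (nat_lit 573489) (nat_lit 14) (.e (nat_lit 73755) (nat_lit 8) (.e (nat_lit 557091) (nat_lit 12) (.e (nat_lit 163841) (nat_lit 0) .nil))))) .nil)) 
(.lf (nat_lit 267389) (.g (nat_lit 2835) (.e (nat_lit 180252) (nat_lit 10) (.e (nat_lit 573503) (nat_lit 18) (.e (nat_lit 1348) (nat_lit 102) (.e (nat_lit 286761) (nat_lit 13) (.e (nat_lit 393223) (nat_lit 0) (.e (nat_lit 7936) (nat_lit 362) .nil)))))) (.g (nat_lit 5) .nil .nil))))))) (.nd (nat_lit 2) (.nd (nat_lit 3) (.nd (nat_lit 4) (.nd (nat_lit 5) 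
(.lf (nat_lit 267331) (.g (nat_lit 2186) (.e (nat_lit 180252) (nat_lit 10) (.e (nat_lit 573489) (nat_lit 14) (.e (nat_lit 73755) (nat_lit 8) (.e (nat_lit 557090) (nat_lit 12) (.e (nat_lit 163998) (nat_lit 38) (.e (nat_lit 639008) (nat_lit 13) (.e (nat_lit 1047) (nat_lit 81) (.e (nat_lit 1858) (nat_lit 124) (.e (nat_lit 557105) (nat_lit 14) .nil))))))))) (.g (nat_lit 4) .nil .nil))) 
(.lf (nat_lit 267363) (.g (nat_lit 5896) (.e (nat_lit 180252) (nat_lit 10) (.e (nat_lit 573489) (nat_lit 14) (.e (nat_lit 73755) (nat_lit 8) (.e (nat_lit 557091) (nat_lit 12) (.e (nat_lit 163999) (nat_lit 38) (.e (nat_lit 639018) (nat_lit 15) (.e (nat_lit 57479) (nat_lit 28) (.e (nat_lit 557105) (nat_lit 14) .nil)))))))) (.g (nat_lit 8) .nil .nil)))) (.nd (nat_lit 5) 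
(.lf (nat_lit 267347) (.g (nat_lit 2234) (.e (nat_lit 180252) (nat_lit 10) (.e (nat_lit 573489) (nat_lit 14) (.e (nat_lit 73755) (nat_lit 8) (.e (nat_lit 557090) (nat_lit 12) (.e (nat_lit 164008) (nat_lit 41) (.e (nat_lit 663573) (nat_lit 9) (.e (nat_lit 4) (nat_lit 0) (.e (nat_lit 1860) (nat_lit 124) (.e (nat_lit 557105) (nat_lit 14) .nil))))))))) (.g (nat_lit 4) .nil .nil))) 
(.lf (nat_lit 267379) (.g (nat_lit 2155) (.e (nat_lit 180252) (nat_lit 10) (.e (nat_lit 573489) (nat_lit 14) (.e (nat_lit 73755) (nat_lit 8) (.e (nat_lit 557119) (nat_lit 18) (.e (nat_lit 2761) (nat_lit 176) .nil))))) .nil)))) (.nd (nat_lit 4) (.nd (nat_lit 5) 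
(.lf (nat_lit 267339) (.g (nat_lit 2248) (.e (nat_lit 180252) (nat_lit 10) (.e (nat_lit 573489) (nat_lit 14) (.e (nat_lit 73755) (nat_lit 8) (.e (nat_lit 557090) (nat_lit 12) (.e (nat_lit 164005) (nat_lit 41) (.e (nat_lit 671488) (nat_lit 0) (.e (nat_lit 1238) (nat_lit 91) (.e (nat_lit 90171) (nat_lit 14) .nil)))))))) (.g (nat_lit 4) .nil .nil))) 
(.lf (nat_lit 267371) (.g (nat_lit 3003) (.e (nat_lit 180252) (nat_lit 10) (.e (nat_lit 573489) (nat_lit 14) (.e (nat_lit 73755) (nat_lit 8) (.e (nat_lit 557093) (nat_lit 12) (.e (nat_lit 163998) (nat_lit 38) (.e (nat_lit 639017) (nat_lit 15) (.e (nat_lit 57479) (nat_lit 28) (.e (nat_lit 557105) (nat_lit 14) .nil)))))))) (.g (nat_lit 4) .nil .nil)))) (.nd (nat_lit 5) 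
(.lf (nat_lit 267355) (.g (nat_lit 2559) (.e (nat_lit 180252) (nat_lit 10) (.e (nat_lit 573489) (nat_lit 14) (.e (nat_lit 73755) (nat_lit 8) (.e (nat_lit 557090) (nat_lit 12) (.e (nat_lit 164012) (nat_lit 42) (.e (nat_lit 671753) (nat_lit 0) (.e (nat_lit 1232) (nat_lit 91) (.e (nat_lit 90173) (nat_lit 14) .nil)))))))) (.g (nat_lit 4) .nil .nil))) 
(.lf (nat_lit 267387) (.g (nat_lit 2987) (.e (nat_lit 180252) (nat_lit 10) (.e (nat_lit 573503) (nat_lit 18) (.e (nat_lit 1348) (nat_lit 102) (.e (nat_lit 286761) (nat_lit 13) (.e (nat_lit 393221) (nat_lit 0) (.e (nat_lit 7936) (nat_lit 362) .nil)))))) (.g (nat_lit 5) .nil .nil)))))) (.nd (nat_lit 3) (.nd (nat_lit 4) (.nd (nat_lit 5) 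
(.lf (nat_lit 267335) (.g (nat_lit 1913) (.e (nat_lit 180252) (nat_lit 10) (.e (nat_lit 573489) (nat_lit 14) (.e (nat_lit 73755) (nat_lit 8) (.e (nat_lit 557090) (nat_lit 12) (.e (nat_lit 164000) (nat_lit 38) .nil))))) .nil)) 
(.lf (nat_lit 267367) (.g (nat_lit 2417) (.e (nat_lit 180252) (nat_lit 10) (.e (nat_lit 573489) (nat_lit 14) (.e (nat_lit 73755) (nat_lit 8) (.e (nat_lit 557091) (nat_lit 12) (.e (nat_lit 164006) (nat_lit 41) .nil))))) .nil))) (.nd (nat_lit 5) 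
(.lf (nat_lit 267351) (.g (nat_lit 2813) (.e (nat_lit 180252) (nat_lit 10) (.e (nat_lit 573489) (nat_lit 14) (.e (nat_lit 73755) (nat_lit 8) (.e (nat_lit 557090) (nat_lit 12) (.e (nat_lit 164009) (nat_lit 41) (.e (nat_lit 663557) (nat_lit 0) (.e (nat_lit 1234) (nat_lit 91) (.e (nat_lit 90173) (nat_lit 14) .nil)))))))) (.g (nat_lit 4) .nil .nil))) 
(.lf (nat_lit 267383) (.g (nat_lit 2179) (.e (nat_lit 180252) (nat_lit 10) (.e (nat_lit 573503) (nat_lit 18) (.e (nat_lit 1348) (nat_lit 102) (.e (nat_lit 286761) (nat_lit 13) (.e (nat_lit 393216) (nat_lit 0) (.e (nat_lit 7936) (nat_lit 362) .nil)))))) (.g (nat_lit 4) .nil .nil))))) (.nd (nat_lit 4) (.nd (nat_lit 5) 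
(.lf (nat_lit 267343) (.g (nat_lit 2478) (.e (nat_lit 180252) (nat_lit 10) (.e (nat_lit 573489) (nat_lit 14) (.e (nat_lit 73755) (nat_lit 8) (.e (nat_lit 557090) (nat_lit 12) (.e (nat_lit 164006) (nat_lit 41) (.e (nat_lit 671488) (nat_lit 0) (.e (nat_lit 1238) (nat_lit 91) (.e (nat_lit 90171) (nat_lit 14) .nil)))))))) (.g (nat_lit 4) .nil .nil))) 
(.lf (nat_lit 267375) (.g (nat_lit 2196) (.e (nat_lit 180252) (nat_lit 10) (.e (nat_lit 573489) (nat_lit 14) (.e (nat_lit 73755) (nat_lit 8) (.e (nat_lit 557118) (nat_lit 18) .nil)))) .nil))) (.nd (nat_lit 5) 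
(.lf (nat_lit 267359) (.g (nat_lit 2407) (.e (nat_lit 180252) (nat_lit 10) (.e (nat_lit 573489) (nat_lit 14) (.e (nat_lit 73755) (nat_lit 8) (.e (nat_lit 557091) (nat_lit 12) (.e (nat_lit 163856) (nat_lit 0) .nil))))) .nil)) 
(.lf (nat_lit 267391) (.g (nat_lit 2748) (.e (nat_lit 180252) (nat_lit 10) (.e (nat_lit 573503) (nat_lit 18) (.e (nat_lit 1348) (nat_lit 102) (.e (nat_lit 286765) (nat_lit 15) (.e (nat_lit 3124) (nat_lit 193) .nil))))) .nil))))))))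

noncomputable def tv3434 : DT := (.nd (nat_lit 0) (.nd (nat_lit 1) (.nd (nat_lit 2) (.nd (nat_lit 3) (.nd (nat_lit 4) (.nd (nat_lit 5) 
(.lf (nat_lit 267392) (.g (nat_lit 420) (.e (nat_lit 180252) (nat_lit 10) (.e (nat_lit 573503) (nat_lit 18) (.e (nat_lit 1349) (nat_lit 102) .nil))) .nil)) 
(.lf (nat_lit 267424) (.g (nat_lit 2989) (.e (nat_lit 180252) (nat_lit 10) (.e (nat_lit 573503) (nat_lit 18) (.e (nat_lit 1349) (nat_lit 102) (.e (nat_lit 286765) (nat_lit 15) (.e (nat_lit 3144) (nat_lit 193) .nil))))) .nil))) (.nd (nat_lit 5) 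
(.lf (nat_lit 267408) (.g (nat_lit 1215) (.e (nat_lit 180252) (nat_lit 10) (.e (nat_lit 573503) (nat_lit 18) (.e (nat_lit 1349) (nat_lit 102) (.e (nat_lit 286761) (nat_lit 13) .nil)))) .nil)) 
(.lf (nat_lit 267440) (.g (nat_lit 648) (.e (nat_lit 180259) (nat_lit 17) (.e (nat_lit 630821) (nat_lit 16) (.e (nat_lit 65583) (nat_lit 7) (.e (nat_lit 319527) (nat_lit 15) (.e (nat_lit 278532) (nat_lit 0) (.e (nat_lit 5780) (nat_lit 317) .nil)))))) (.g (nat_lit 0) .nil .nil))))) (.nd (nat_lit 4) (.nd (nat_lit 5) 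
(.lf (nat_lit 267400) (.g (nat_lit 2638) (.e (nat_lit 180252) (nat_lit 10) (.e (nat_lit 573503) (nat_lit 18) (.e (nat_lit 1349) (nat_lit 102) (.e (nat_lit 286748) (nat_lit 9) (.e (nat_lit 336389) (nat_lit 27) (.e (nat_lit 426384) (nat_lit 15) (.e (nat_lit 7936) (nat_lit 362) .nil))))))) (.g (nat_lit 5) .nil .nil))) 
(.lf (nat_lit 267432) (.g (nat_lit 3832) (.e (nat_lit 180252) (nat_lit 10) (.e (nat_lit 573503) (nat_lit 18) (.e (nat_lit 1349) (nat_lit 102) (.e (nat_lit 286765) (nat_lit 15) (.e (nat_lit 3252) (nat_lit 197) (.e (nat_lit 532543) (nat_lit 10) (.e (nat_lit 344129) (nat_lit 26) (.e (nat_lit 557104) (nat_lit 14) .nil)))))))) (.g (nat_lit 4) .nil .nil)))) (.nd (nat_lit 5) 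
(.lf (nat_lit 267416) (.g (nat_lit 2989) (.e (nat_lit 180252) (nat_lit 10) (.e (nat_lit 573503) (nat_lit 18) (.e (nat_lit 1349) (nat_lit 102) (.e (nat_lit 286765) (nat_lit 15) (.e (nat_lit 3107) (nat_lit 193) .nil))))) .nil)) 
(.lf (nat_lit 267448) (.g (nat_lit 611) (.e (nat_lit 180259) (nat_lit 17) (.e (nat_lit 630821) (nat_lit 16) (.e (nat_lit 65584) (nat_lit 7) (.e (nat_lit 319527) (nat_lit 15) (.e (nat_lit 278532) (nat_lit 0) (.e (nat_lit 5777) (nat_lit 317) .nil)))))) (.g (nat_lit 0) .nil .nil)))))) (.nd (nat_lit 3) (.nd (nat_lit 4) (.nd (nat_lit 5) 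
(.lf (nat_lit 267396) (.g (nat_lit 1746) (.e (nat_lit 180252) (nat_lit 10) (.e (nat_lit 573503) (nat_lit 18) (.e (nat_lit 1349) (nat_lit 102) (.e (nat_lit 286737) (nat_lit 5) .nil)))) .nil)) 
(.lf (nat_lit 267428) (.g (nat_lit 2989) (.e (nat_lit 180252) (nat_lit 10) (.e (nat_lit 573503) (nat_lit 18) (.e (nat_lit 1349) (nat_lit 102) (.e (nat_lit 286765) (nat_lit 15) (.e (nat_lit 3238) (nat_lit 197) .nil))))) .nil))) (.nd (nat_lit 5) 
(.lf (nat_lit 267412) (.g (nat_lit 2770) (.e (nat_lit 180252) (nat_lit 10) (.e (nat_lit 573503) (nat_lit 18) (.e (nat_lit 1349) (nat_lit 102) (.e (nat_lit 286761) (nat_lit 13) (.e (nat_lit 393222) (nat_lit 0) .nil))))) .nil)) 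
(.lf (nat_lit 267444) (.g (nat_lit 794) (.e (nat_lit 180259) (nat_lit 17) (.e (nat_lit 630821) (nat_lit 16) (.e (nat_lit 65584) (nat_lit 7) (.e (nat_lit 319527) (nat_lit 15) (.e (nat_lit 278531) (nat_lit 0) (.e (nat_lit 5776) (nat_lit 317) .nil)))))) (.g (nat_lit 0) .nil .nil))))) (.nd (nat_lit 4) (.nd (nat_lit 5) 
(.lf (nat_lit 267404) (.g (nat_lit 3603) (.e (nat_lit 180252) (nat_lit 10) (.e (nat_lit 573503) (nat_lit 18) (.e (nat_lit 1349) (nat_lit 102) (.e (nat_lit 286748) (nat_lit 9) (.e (nat_lit 336389) (nat_lit 27) (.e (nat_lit 426408) (nat_lit 15) (.e (nat_lit 7936) (nat_lit 362) .nil))))))) (.g (nat_lit 6) .nil .nil))) 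
(.lf (nat_lit 267436) (.g (nat_lit 678) (.e (nat_lit 180259) (nat_lit 17) (.e (nat_lit 630821) (nat_lit 16) (.e (nat_lit 65583) (nat_lit 7) (.e (nat_lit 319527) (nat_lit 15) (.e (nat_lit 278531) (nat_lit 0) (.e (nat_lit 5780) (nat_lit 317) .nil)))))) (.g (nat_lit 0) .nil .nil)))) (.nd (nat_lit 5) 
(.lf (nat_lit 267420) (.g (nat_lit 2989) (.e (nat_lit 180252) (nat_lit 10) (.e (nat_lit 573503) (nat_lit 18) (.e (nat_lit 1349) (nat_lit 102) (.e (nat_lit 286765) (nat_lit 15) (.e (nat_lit 3134) (nat_lit 193) .nil))))) .nil)) 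
(.lf (nat_lit 267452) (.g (nat_lit 637) (.e (nat_lit 180259) (nat_lit 17) (.e (nat_lit 630821) (nat_lit 16) (.e (nat_lit 65585) (nat_lit 7) (.e (nat_lit 319527) (nat_lit 15) (.e (nat_lit 278531) (nat_lit 0) (.e (nat_lit 5779) (nat_lit 317) .nil)))))) (.g (nat_lit 0) .nil .nil))))))) (.nd (nat_lit 2) (.nd (nat_lit 3) (.nd (nat_lit 4) (.nd (nat_lit 5) 
(.lf (nat_lit 267394) (.g (nat_lit 4235) (.e (nat_lit 180252) (nat_lit 10) (.e (nat_lit 573503) (nat_lit 18) (.e (nat_lit 1349) (nat_lit 102) (.e (nat_lit 286735) (nat_lit 3) (.e (nat_lit 98342) (nat_lit 20) (.e (nat_lit 221211) (nat_lit 22) (.e (nat_lit 204544) (nat_lit 5) .nil))))))) (.g (nat_lit 6) .nil .nil))) 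
(.lf (nat_lit 267426) (.g (nat_lit 2989) (.e (nat_lit 180252) (nat_lit 10) (.e (nat_lit 573503) (nat_lit 18) (.e (nat_lit 1349) (nat_lit 102) (.e (nat_lit 286765) (nat_lit 15) (.e (nat_lit 3147) (nat_lit 193) .nil))))) .nil))) (.nd (nat_lit 5) 
(.lf (nat_lit 267410) (.g (nat_lit 2504) (.e (nat_lit 180252) (nat_lit 10) (.e (nat_lit 573503) (nat_lit 18) (.e (nat_lit 1349) (nat_lit 102) (.e (nat_lit 286761) (nat_lit 13) (.e (nat_lit 393219) (nat_lit 0) .nil))))) .nil)) 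
(.lf (nat_lit 267442) (.g (nat_lit 1966) (.e (nat_lit 180259) (nat_lit 17) (.e (nat_lit 630821) (nat_lit 16) (.e (nat_lit 65583) (nat_lit 7) (.e (nat_lit 319530) (nat_lit 16) (.e (nat_lit 286727) (nat_lit 0) (.e (nat_lit 7936) (nat_lit 362) .nil)))))) (.g (nat_lit 5) .nil .nil))))) (.nd (nat_lit 4) (.nd (nat_lit 5) 
(.lf (nat_lit 267402) (.g (nat_lit 2567) (.e (nat_lit 180252) (nat_lit 10) (.e (nat_lit 573503) (nat_lit 18) (.e (nat_lit 1349) (nat_lit 102) (.e (nat_lit 286748) (nat_lit 9) (.e (nat_lit 336389) (nat_lit 27) (.e (nat_lit 426389) (nat_lit 15) (.e (nat_lit 7936) (nat_lit 362) .nil))))))) (.g (nat_lit 5) .nil .nil))) 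
(.lf (nat_lit 267434) (.g (nat_lit 864) (.e (nat_lit 180259) (nat_lit 17) (.e (nat_lit 630821) (nat_lit 16) (.e (nat_lit 65583) (nat_lit 7) (.e (nat_lit 319527) (nat_lit 15) (.e (nat_lit 278531) (nat_lit 0) (.e (nat_lit 5776) (nat_lit 317) .nil)))))) (.g (nat_lit 0) .nil .nil)))) (.nd (nat_lit 5) 
(.lf (nat_lit 267418) (.g (nat_lit 2989) (.e (nat_lit 180252) (nat_lit 10) (.e (nat_lit 573503) (nat_lit 18) (.e (nat_lit 1349) (nat_lit 102) (.e (nat_lit 286765) (nat_lit 15) (.e (nat_lit 3124) (nat_lit 193) .nil))))) .nil)) 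
(.lf (nat_lit 267450) (.g (nat_lit 582) (.e (nat_lit 180259) (nat_lit 17) (.e (nat_lit 630821) (nat_lit 16) (.e (nat_lit 65584) (nat_lit 7) (.e (nat_lit 319527) (nat_lit 15) (.e (nat_lit 278532) (nat_lit 0) (.e (nat_lit 5780) (nat_lit 317) .nil)))))) (.g (nat_lit 0) .nil .nil)))))) (.nd (nat_lit 3) (.nd (nat_lit 4) (.nd (nat_lit 5) 
(.lf (nat_lit 267398) (.g (nat_lit 1053) (.e (nat_lit 180252) (nat_lit 10) (.e (nat_lit 573503) (nat_lit 18) (.e (nat_lit 1349) (nat_lit 102) (.e (nat_lit 286748) (nat_lit 9) .nil)))) .nil)) 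
(.lf (nat_lit 267430) (.g (nat_lit 2989) (.e (nat_lit 180252) (nat_lit 10) (.e (nat_lit 573503) (nat_lit 18) (.e (nat_lit 1349) (nat_lit 102) (.e (nat_lit 286765) (nat_lit 15) (.e (nat_lit 3251) (nat_lit 197) .nil))))) .nil))) (.nd (nat_lit 5) 
(.lf (nat_lit 267414) (.g (nat_lit 3166) (.e (nat_lit 180252) (nat_lit 10) (.e (nat_lit 573503) (nat_lit 18) (.e (nat_lit 1349) (nat_lit 102) (.e (nat_lit 286761) (nat_lit 13) (.e (nat_lit 393251) (nat_lit 18) (.e (nat_lit 164143) (nat_lit 146) (.e (nat_lit 2637) (nat_lit 165) .nil))))))) (.g (nat_lit 4) .nil .nil))) 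
(.lf (nat_lit 267446) (.g (nat_lit 608) (.e (nat_lit 180259) (nat_lit 17) (.e (nat_lit 630821) (nat_lit 16) (.e (nat_lit 65584) (nat_lit 7) (.e (nat_lit 319527) (nat_lit 15) (.e (nat_lit 278531) (nat_lit 0) (.e (nat_lit 5780) (nat_lit 317) .nil)))))) (.g (nat_lit 0) .nil .nil))))) (.nd (nat_lit 4) (.nd (nat_lit 5) 
(.lf (nat_lit 267406) (.g (nat_lit 2404) (.e (nat_lit 180252) (nat_lit 10) (.e (nat_lit 573503) (nat_lit 18) (.e (nat_lit 1349) (nat_lit 102) (.e (nat_lit 286748) (nat_lit 9) (.e (nat_lit 336389) (nat_lit 27) (.e (nat_lit 426413) (nat_lit 15) (.e (nat_lit 7936) (nat_lit 362) .nil))))))) (.g (nat_lit 5) .nil .nil))) 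
(.lf (nat_lit 267438) (.g (nat_lit 677) (.e (nat_lit 180259) (nat_lit 17) (.e (nat_lit 630821) (nat_lit 16) (.e (nat_lit 65583) (nat_lit 7) (.e (nat_lit 319527) (nat_lit 15) (.e (nat_lit 278532) (nat_lit 0) (.e (nat_lit 5777) (nat_lit 317) .nil)))))) (.g (nat_lit 0) .nil .nil)))) (.nd (nat_lit 5) 
(.lf (nat_lit 267422) (.g (nat_lit 3634) (.e (nat_lit 180252) (nat_lit 10) (.e (nat_lit 573503) (nat_lit 18) (.e (nat_lit 1349) (nat_lit 102) (.e (nat_lit 286765) (nat_lit 15) (.e (nat_lit 3134) (nat_lit 193) (.e (nat_lit 500073) (nat_lit 19) (.e (nat_lit 73754) (nat_lit 8) (.e (nat_lit 557105) (nat_lit 14) .nil)))))))) (.g (nat_lit 4) .nil .nil))) 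
(.lf (nat_lit 267454) (.g (nat_lit 598) (.e (nat_lit 180259) (nat_lit 17) (.e (nat_lit 630821) (nat_lit 16) (.e (nat_lit 65585) (nat_lit 7) (.e (nat_lit 319527) (nat_lit 15) (.e (nat_lit 278532) (nat_lit 0) (.e (nat_lit 5776) (nat_lit 317) .nil)))))) (.g (nat_lit 0) .nil .nil)))))))) (.nd (nat_lit 1) (.nd (nat_lit 2) (.nd (nat_lit 3) (.nd (nat_lit 4) (.nd (nat_lit 5) 
(.lf (nat_lit 267393) (.g (nat_lit 2794) (.e (nat_lit 180252) (nat_lit 10) (.e (nat_lit 573503) (nat_lit 18) (.e (nat_lit 1349) (nat_lit 102) (.e (nat_lit 286735) (nat_lit 3) (.e (nat_lit 98342) (nat_lit 20) (.e (nat_lit 221210) (nat_lit 22) (.e (nat_lit 204544) (nat_lit 5) .nil))))))) (.g (nat_lit 4) .nil .nil))) 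
(.lf (nat_lit 267425) (.g (nat_lit 3584) (.e (nat_lit 180252) (nat_lit 10) (.e (nat_lit 573503) (nat_lit 18) (.e (nat_lit 1349) (nat_lit 102) (.e (nat_lit 286765) (nat_lit 15) (.e (nat_lit 3144) (nat_lit 193) (.e (nat_lit 500072) (nat_lit 19) (.e (nat_lit 73755) (nat_lit 8) (.e (nat_lit 557105) (nat_lit 14) .nil)))))))) (.g (nat_lit 4) .nil .nil)))) (.nd (nat_lit 5) 
(.lf (nat_lit 267409) (.g (nat_lit 2742) (.e (nat_lit 180252) (nat_lit 10) (.e (nat_lit 573503) (nat_lit 18) (.e (nat_lit 1349) (nat_lit 102) (.e (nat_lit 286761) (nat_lit 13) (.e (nat_lit 393218) (nat_lit 0) .nil))))) .nil)) 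
(.lf (nat_lit 267441) (.g (nat_lit 1391) (.e (nat_lit 180259) (nat_lit 17) (.e (nat_lit 630821) (nat_lit 16) (.e (nat_lit 65583) (nat_lit 7) (.e (nat_lit 319530) (nat_lit 16) (.e (nat_lit 286722) (nat_lit 0) (.e (nat_lit 7936) (nat_lit 362) .nil)))))) (.g (nat_lit 5) .nil .nil))))) (.nd (nat_lit 4) (.nd (nat_lit 5) 
(.lf (nat_lit 267401) (.g (nat_lit 2547) (.e (nat_lit 180252) (nat_lit 10) (.e (nat_lit 573503) (nat_lit 18) (.e (nat_lit 1349) (nat_lit 102) (.e (nat_lit 286748) (nat_lit 9) (.e (nat_lit 336389) (nat_lit 27) (.e (nat_lit 426387) (nat_lit 15) (.e (nat_lit 7936) (nat_lit 362) .nil))))))) (.g (nat_lit 5) .nil .nil))) 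
(.lf (nat_lit 267433) (.g (nat_lit 1741) (.e (nat_lit 180259) (nat_lit 17) (.e (nat_lit 630818) (nat_lit 15) (.e (nat_lit 57479) (nat_lit 28) (.e (nat_lit 557109) (nat_lit 15) .nil)))) .nil))) (.nd (nat_lit 5) 
(.lf (nat_lit 267417) (.g (nat_lit 3698) (.e (nat_lit 180252) (nat_lit 10) (.e (nat_lit 573503) (nat_lit 18) (.e (nat_lit 1349) (nat_lit 102) (.e (nat_lit 286765) (nat_lit 15) (.e (nat_lit 3107) (nat_lit 193) (.e (nat_lit 500069) (nat_lit 19) (.e (nat_lit 73754) (nat_lit 8) (.e (nat_lit 557105) (nat_lit 14) .nil)))))))) (.g (nat_lit 4) .nil .nil))) 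
(.lf (nat_lit 267449) (.g (nat_lit 789) (.e (nat_lit 180259) (nat_lit 17) (.e (nat_lit 630821) (nat_lit 16) (.e (nat_lit 65584) (nat_lit 7) (.e (nat_lit 319527) (nat_lit 15) (.e (nat_lit 278532) (nat_lit 0) (.e (nat_lit 5779) (nat_lit 317) .nil)))))) (.g (nat_lit 0) .nil .nil)))))) (.nd (nat_lit 3) (.nd (nat_lit 4) (.nd (nat_lit 5) 
(.lf (nat_lit 267397) (.g (nat_lit 2516) (.e (nat_lit 180252) (nat_lit 10) (.e (nat_lit 573503) (nat_lit 18) (.e (nat_lit 1349) (nat_lit 102) (.e (nat_lit 286743) (nat_lit 9) (.e (nat_lit 336446) (nat_lit 33) (.e (nat_lit 483072) (nat_lit 5) .nil)))))) (.g (nat_lit 4) .nil .nil))) 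
(.lf (nat_lit 267429) (.g (nat_lit 3693) (.e (nat_lit 180252) (nat_lit 10) (.e (nat_lit 573503) (nat_lit 18) (.e (nat_lit 1349) (nat_lit 102) (.e (nat_lit 286765) (nat_lit 15) (.e (nat_lit 3238) (nat_lit 197) (.e (nat_lit 532543) (nat_lit 10) (.e (nat_lit 344132) (nat_lit 26) (.e (nat_lit 557105) (nat_lit 14) .nil)))))))) (.g (nat_lit 4) .nil .nil)))) (.nd (nat_lit 5) 
(.lf (nat_lit 267413) (.g (nat_lit 2729) (.e (nat_lit 180252) (nat_lit 10) (.e (nat_lit 573503) (nat_lit 18) (.e (nat_lit 1349) (nat_lit 102) (.e (nat_lit 286761) (nat_lit 13) (.e (nat_lit 393223) (nat_lit 0) (.e (nat_lit 7936) (nat_lit 362) .nil)))))) (.g (nat_lit 4) .nil .nil))) 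
(.lf (nat_lit 267445) (.g (nat_lit 809) (.e (nat_lit 180259) (nat_lit 17) (.e (nat_lit 630821) (nat_lit 16) (.e (nat_lit 65584) (nat_lit 7) (.e (nat_lit 319527) (nat_lit 15) (.e (nat_lit 278531) (nat_lit 0) (.e (nat_lit 5779) (nat_lit 317) .nil)))))) (.g (nat_lit 0) .nil .nil))))) (.nd (nat_lit 4) (.nd (nat_lit 5) 
(.lf (nat_lit 267405) (.g (nat_lit 2672) (.e (nat_lit 180252) (nat_lit 10) (.e (nat_lit 573503) (nat_lit 18) (.e (nat_lit 1349) (nat_lit 102) (.e (nat_lit 286748) (nat_lit 9) (.e (nat_lit 336389) (nat_lit 27) (.e (nat_lit 426410) (nat_lit 15) (.e (nat_lit 7936) (nat_lit 362) .nil))))))) (.g (nat_lit 5) .nil .nil))) 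
(.lf (nat_lit 267437) (.g (nat_lit 835) (.e (nat_lit 180259) (nat_lit 17) (.e (nat_lit 630821) (nat_lit 16) (.e (nat_lit 65583) (nat_lit 7) (.e (nat_lit 319527) (nat_lit 15) (.e (nat_lit 278532) (nat_lit 0) (.e (nat_lit 5776) (nat_lit 317) .nil)))))) (.g (nat_lit 0) .nil .nil)))) (.nd (nat_lit 5) 
(.lf (nat_lit 267421) (.g (nat_lit 3605) (.e (nat_lit 180252) (nat_lit 10) (.e (nat_lit 573503) (nat_lit 18) (.e (nat_lit 1349) (nat_lit 102) (.e (nat_lit 286765) (nat_lit 15) (.e (nat_lit 3134) (nat_lit 193) (.e (nat_lit 500072) (nat_lit 19) (.e (nat_lit 73755) (nat_lit 8) (.e (nat_lit 557105) (nat_lit 14) .nil)))))))) (.g (nat_lit 4) .nil .nil))) 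
(.lf (nat_lit 267453) (.g (nat_lit 435) (.e (nat_lit 180259) (nat_lit 17) (.e (nat_lit 630821) (nat_lit 16) (.e (nat_lit 65585) (nat_lit 7) (.e (nat_lit 319527) (nat_lit 15) (.e (nat_lit 278531) (nat_lit 0) (.e (nat_lit 5780) (nat_lit 317) .nil)))))) (.g (nat_lit 0) .nil .nil))))))) (.nd (nat_lit 2) (.nd (nat_lit 3) (.nd (nat_lit 4) (.nd (nat_lit 5) 
(.lf (nat_lit 267395) (.g (nat_lit 4429) (.e (nat_lit 180252) (nat_lit 10) (.e (nat_lit 573503) (nat_lit 18) (.e (nat_lit 1349) (nat_lit 102) (.e (nat_lit 286735) (nat_lit 3) (.e (nat_lit 98342) (nat_lit 20) (.e (nat_lit 221212) (nat_lit 22) (.e (nat_lit 204544) (nat_lit 5) .nil))))))) (.g (nat_lit 6) .nil .nil))) 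
(.lf (nat_lit 267427) (.g (nat_lit 2989) (.e (nat_lit 180252) (nat_lit 10) (.e (nat_lit 573503) (nat_lit 18) (.e (nat_lit 1349) (nat_lit 102) (.e (nat_lit 286765) (nat_lit 15) (.e (nat_lit 3230) (nat_lit 197) .nil))))) .nil))) (.nd (nat_lit 5) 
(.lf (nat_lit 267411) (.g (nat_lit 3075) (.e (nat_lit 180252) (nat_lit 10) (.e (nat_lit 573503) (nat_lit 18) (.e (nat_lit 1349) (nat_lit 102) (.e (nat_lit 286761) (nat_lit 13) (.e (nat_lit 393221) (nat_lit 0) (.e (nat_lit 7936) (nat_lit 362) .nil)))))) (.g (nat_lit 5) .nil .nil))) 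
(.lf (nat_lit 267443) (.g (nat_lit 1812) (.e (nat_lit 180259) (nat_lit 17) (.e (nat_lit 630821) (nat_lit 16) (.e (nat_lit 65583) (nat_lit 7) (.e (nat_lit 319530) (nat_lit 16) (.e (nat_lit 286728) (nat_lit 0) (.e (nat_lit 7936) (nat_lit 362) .nil)))))) (.g (nat_lit 5) .nil .nil))))) (.nd (nat_lit 4) (.nd (nat_lit 5) 
(.lf (nat_lit 267403) (.g (nat_lit 2633) (.e (nat_lit 180252) (nat_lit 10) (.e (nat_lit 573503) (nat_lit 18) (.e (nat_lit 1349) (nat_lit 102) (.e (nat_lit 286748) (nat_lit 9) (.e (nat_lit 336389) (nat_lit 27) (.e (nat_lit 426406) (nat_lit 15) (.e (nat_lit 7936) (nat_lit 362) .nil))))))) (.g (nat_lit 5) .nil .nil))) 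
(.lf (nat_lit 267435) (.g (nat_lit 878) (.e (nat_lit 180259) (nat_lit 17) (.e (nat_lit 630821) (nat_lit 16) (.e (nat_lit 65583) (nat_lit 7) (.e (nat_lit 319527) (nat_lit 15) (.e (nat_lit 278531) (nat_lit 0) (.e (nat_lit 5779) (nat_lit 317) .nil)))))) (.g (nat_lit 0) .nil .nil)))) (.nd (nat_lit 5) 
(.lf (nat_lit 267419) (.g (nat_lit 3721) (.e (nat_lit 180252) (nat_lit 10) (.e (nat_lit 573503) (nat_lit 18) (.e (nat_lit 1349) (nat_lit 102) (.e (nat_lit 286765) (nat_lit 15) (.e (nat_lit 3124) (nat_lit 193) (.e (nat_lit 500070) (nat_lit 19) (.e (nat_lit 73754) (nat_lit 8) (.e (nat_lit 557105) (nat_lit 14) .nil)))))))) (.g (nat_lit 4) .nil .nil))) 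
(.lf (nat_lit 267451) (.g (nat_lit 625) (.e (nat_lit 180259) (nat_lit 17) (.e (nat_lit 630821) (nat_lit 16) (.e (nat_lit 65585) (nat_lit 7) (.e (nat_lit 319527) (nat_lit 15) (.e (nat_lit 278531) (nat_lit 0) (.e (nat_lit 5776) (nat_lit 317) .nil)))))) (.g (nat_lit 0) .nil .nil)))))) (.nd (nat_lit 3) (.nd (nat_lit 4) (.nd (nat_lit 5) 
(.lf (nat_lit 267399) (.g (nat_lit 2638) (.e (nat_lit 180252) (nat_lit 10) (.e (nat_lit 573503) (nat_lit 18) (.e (nat_lit 1349) (nat_lit 102) (.e (nat_lit 286748) (nat_lit 9) (.e (nat_lit 336389) (nat_lit 27) (.e (nat_lit 426383) (nat_lit 15) (.e (nat_lit 7936) (nat_lit 362) .nil))))))) (.g (nat_lit 5) .nil .nil))) 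
(.lf (nat_lit 267431) (.g (nat_lit 2989) (.e (nat_lit 180252) (nat_lit 10) (.e (nat_lit 573503) (nat_lit 18) (.e (nat_lit 1349) (nat_lit 102) (.e (nat_lit 286765) (nat_lit 15) (.e (nat_lit 3252) (nat_lit 197) .nil))))) .nil))) (.nd (nat_lit 5) 
(.lf (nat_lit 267415) (.g (nat_lit 1683) (.e (nat_lit 180252) (nat_lit 10) (.e (nat_lit 573503) (nat_lit 18) (.e (nat_lit 1349) (nat_lit 102) (.e (nat_lit 286765) (nat_lit 15) .nil)))) .nil)) 
(.lf (nat_lit 267447) (.g (nat_lit 771) (.e (nat_lit 180259) (nat_lit 17) (.e (nat_lit 630821) (nat_lit 16) (.e (nat_lit 65584) (nat_lit 7) (.e (nat_lit 319527) (nat_lit 15) (.e (nat_lit 278532) (nat_lit 0) (.e (nat_lit 5776) (nat_lit 317) .nil)))))) (.g (nat_lit 0) .nil .nil))))) (.nd (nat_lit 4) (.nd (nat_lit 5) 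
(.lf (nat_lit 267407) (.g (nat_lit 1680) (.e (nat_lit 180252) (nat_lit 10) (.e (nat_lit 573503) (nat_lit 18) (.e (nat_lit 1349) (nat_lit 102) (.e (nat_lit 286760) (nat_lit 13) .nil)))) .nil)) 
(.lf (nat_lit 267439) (.g (nat_lit 853) (.e (nat_lit 180259) (nat_lit 17) (.e (nat_lit 630821) (nat_lit 16) (.e (nat_lit 65583) (nat_lit 7) (.e (nat_lit 319527) (nat_lit 15) (.e (nat_lit 278532) (nat_lit 0) (.e (nat_lit 5779) (nat_lit 317) .nil)))))) (.g (nat_lit 0) .nil .nil)))) (.nd (nat_lit 5) 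
(.lf (nat_lit 267423) (.g (nat_lit 2989) (.e (nat_lit 180252) (nat_lit 10) (.e (nat_lit 573503) (nat_lit 18) (.e (nat_lit 1349) (nat_lit 102) (.e (nat_lit 286765) (nat_lit 15) (.e (nat_lit 3143) (nat_lit 193) .nil))))) .nil)) 
(.lf (nat_lit 267455) (.g (nat_lit 436) (.e (nat_lit 180259) (nat_lit 17) (.e (nat_lit 630821) (nat_lit 16) (.e (nat_lit 65585) (nat_lit 7) (.e (nat_lit 319527) (nat_lit 15) (.e (nat_lit 278532) (nat_lit 0) (.e (nat_lit 5777) (nat_lit 317) .nil)))))) (.g (nat_lit 0) .nil .nil)))))))))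

noncomputable def tv3435 : DT := (.nd (nat_lit 0) (.nd (nat_lit 1) (.nd (nat_lit 2) (.nd (nat_lit 3) (.nd (nat_lit 4) (.nd (nat_lit 5) 
(.lf (nat_lit 267456) (.g (nat_lit 613) (.e (nat_lit 180259) (nat_lit 17) (.e (nat_lit 630821) (nat_lit 16) (.e (nat_lit 65585) (nat_lit 7) (.e (nat_lit 319527) (nat_lit 15) (.e (nat_lit 278532) (nat_lit 0) (.e (nat_lit 5779) (nat_lit 317) .nil)))))) (.g (nat_lit 0) .nil .nil))) 
(.lf (nat_lit 267488) (.g (nat_lit 2272) (.e (nat_lit 180260) (nat_lit 18) (.e (nat_lit 639018) (nat_lit 15) (.e (nat_lit 57478) (nat_lit 28) (.e (nat_lit 557107) (nat_lit 15) (.e (nat_lit 188459) (nat_lit 26) (.e (nat_lit 261888) (nat_lit 5) .nil)))))) (.g (nat_lit 5) .nil .nil)))) (.nd (nat_lit 5) 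
(.lf (nat_lit 267472) (.g (nat_lit 532) (.e (nat_lit 180259) (nat_lit 17) (.e (nat_lit 630822) (nat_lit 17) (.e (nat_lit 73791) (nat_lit 45) (.e (nat_lit 1343) (nat_lit 101) (.e (nat_lit 278532) (nat_lit 0) (.e (nat_lit 5776) (nat_lit 317) .nil)))))) (.g (nat_lit 0) .nil .nil))) 
(.lf (nat_lit 267504) (.g (nat_lit 964) (.e (nat_lit 180260) (nat_lit 18) (.e (nat_lit 639021) (nat_lit 16) (.e (nat_lit 65584) (nat_lit 7) (.e (nat_lit 319527) (nat_lit 15) (.e (nat_lit 278532) (nat_lit 0) (.e (nat_lit 5779) (nat_lit 317) .nil)))))) (.g (nat_lit 0) .nil .nil))))) (.nd (nat_lit 4) (.nd (nat_lit 5) 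
(.lf (nat_lit 267464) (.g (nat_lit 775) (.e (nat_lit 180259) (nat_lit 17) (.e (nat_lit 630821) (nat_lit 16) (.e (nat_lit 65586) (nat_lit 7) (.e (nat_lit 319527) (nat_lit 15) (.e (nat_lit 278532) (nat_lit 0) (.e (nat_lit 5780) (nat_lit 317) .nil)))))) (.g (nat_lit 0) .nil .nil))) 
(.lf (nat_lit 267496) (.g (nat_lit 1186) (.e (nat_lit 180260) (nat_lit 18) (.e (nat_lit 639021) (nat_lit 16) (.e (nat_lit 65583) (nat_lit 7) (.e (nat_lit 319530) (nat_lit 16) (.e (nat_lit 286720) (nat_lit 0) .nil))))) .nil))) (.nd (nat_lit 5) 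
(.lf (nat_lit 267480) (.g (nat_lit 698) (.e (nat_lit 180259) (nat_lit 17) (.e (nat_lit 630822) (nat_lit 17) (.e (nat_lit 73792) (nat_lit 45) (.e (nat_lit 1343) (nat_lit 101) (.e (nat_lit 278532) (nat_lit 0) (.e (nat_lit 5776) (nat_lit 317) .nil)))))) (.g (nat_lit 0) .nil .nil))) 
(.lf (nat_lit 267512) (.g (nat_lit 1995) (.e (nat_lit 180260) (nat_lit 18) (.e (nat_lit 639021) (nat_lit 16) (.e (nat_lit 65586) (nat_lit 7) (.e (nat_lit 319531) (nat_lit 16) (.e (nat_lit 286720) (nat_lit 0) (.e (nat_lit 7936) (nat_lit 362) .nil)))))) (.g (nat_lit 5) .nil .nil)))))) (.nd (nat_lit 3) (.nd (nat_lit 4) (.nd (nat_lit 5) 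
(.lf (nat_lit 267460) (.g (nat_lit 797) (.e (nat_lit 180259) (nat_lit 17) (.e (nat_lit 630821) (nat_lit 16) (.e (nat_lit 65586) (nat_lit 7) (.e (nat_lit 319527) (nat_lit 15) (.e (nat_lit 278531) (nat_lit 0) (.e (nat_lit 5780) (nat_lit 317) .nil)))))) (.g (nat_lit 0) .nil .nil))) 
(.lf (nat_lit 267492) (.g (nat_lit 805) (.e (nat_lit 180260) (nat_lit 18) (.e (nat_lit 639020) (nat_lit 16) (.e (nat_lit 65584) (nat_lit 7) (.e (nat_lit 319527) (nat_lit 15) .nil)))) .nil))) (.nd (nat_lit 5) 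
(.lf (nat_lit 267476) (.g (nat_lit 767) (.e (nat_lit 180259) (nat_lit 17) (.e (nat_lit 630822) (nat_lit 17) (.e (nat_lit 73792) (nat_lit 45) (.e (nat_lit 1342) (nat_lit 101) (.e (nat_lit 278531) (nat_lit 0) (.e (nat_lit 5776) (nat_lit 317) .nil)))))) (.g (nat_lit 0) .nil .nil))) 
(.lf (nat_lit 267508) (.g (nat_lit 571) (.e (nat_lit 180260) (nat_lit 18) (.e (nat_lit 639021) (nat_lit 16) (.e (nat_lit 65585) (nat_lit 7) (.e (nat_lit 319527) (nat_lit 15) (.e (nat_lit 278532) (nat_lit 0) (.e (nat_lit 5777) (nat_lit 317) .nil)))))) (.g (nat_lit 0) .nil .nil))))) (.nd (nat_lit 4) (.nd (nat_lit 5) 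
(.lf (nat_lit 267468) (.g (nat_lit 607) (.e (nat_lit 180259) (nat_lit 17) (.e (nat_lit 630822) (nat_lit 17) (.e (nat_lit 73789) (nat_lit 45) (.e (nat_lit 1342) (nat_lit 101) (.e (nat_lit 278531) (nat_lit 0) (.e (nat_lit 5777) (nat_lit 317) .nil)))))) (.g (nat_lit 0) .nil .nil))) 
(.lf (nat_lit 267500) (.g (nat_lit 627) (.e (nat_lit 180260) (nat_lit 18) (.e (nat_lit 639021) (nat_lit 16) (.e (nat_lit 65584) (nat_lit 7) (.e (nat_lit 319526) (nat_lit 15) (.e (nat_lit 278529) (nat_lit 0) .nil))))) .nil))) (.nd (nat_lit 5) 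
(.lf (nat_lit 267484) (.g (nat_lit 2716) (.e (nat_lit 180260) (nat_lit 18) (.e (nat_lit 639016) (nat_lit 15) (.e (nat_lit 57480) (nat_lit 28) (.e (nat_lit 557109) (nat_lit 15) (.e (nat_lit 188461) (nat_lit 26) (.e (nat_lit 261888) (nat_lit 5) .nil)))))) (.g (nat_lit 5) .nil .nil))) 
(.lf (nat_lit 267516) (.g (nat_lit 2583) (.e (nat_lit 180260) (nat_lit 18) (.e (nat_lit 639021) (nat_lit 16) (.e (nat_lit 65586) (nat_lit 7) (.e (nat_lit 319531) (nat_lit 16) (.e (nat_lit 286728) (nat_lit 0) (.e (nat_lit 7936) (nat_lit 362) .nil)))))) (.g (nat_lit 5) .nil .nil))))))) (.nd (nat_lit 2) (.nd (nat_lit 3) (.nd (nat_lit 4) (.nd (nat_lit 5) 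
(.lf (nat_lit 267458) (.g (nat_lit 985) (.e (nat_lit 180259) (nat_lit 17) (.e (nat_lit 630821) (nat_lit 16) (.e (nat_lit 65586) (nat_lit 7) (.e (nat_lit 319527) (nat_lit 15) (.e (nat_lit 278531) (nat_lit 0) (.e (nat_lit 5776) (nat_lit 317) .nil)))))) (.g (nat_lit 0) .nil .nil))) 
(.lf (nat_lit 267490) (.g (nat_lit 2593) (.e (nat_lit 180260) (nat_lit 18) (.e (nat_lit 639018) (nat_lit 15) (.e (nat_lit 57480) (nat_lit 28) (.e (nat_lit 557107) (nat_lit 15) (.e (nat_lit 188459) (nat_lit 26) (.e (nat_lit 261888) (nat_lit 5) .nil)))))) (.g (nat_lit 5) .nil .nil)))) (.nd (nat_lit 5) 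
(.lf (nat_lit 267474) (.g (nat_lit 541) (.e (nat_lit 180259) (nat_lit 17) (.e (nat_lit 630822) (nat_lit 17) (.e (nat_lit 73791) (nat_lit 45) (.e (nat_lit 1343) (nat_lit 101) (.e (nat_lit 278532) (nat_lit 0) (.e (nat_lit 5779) (nat_lit 317) .nil)))))) (.g (nat_lit 0) .nil .nil))) 
(.lf (nat_lit 267506) (.g (nat_lit 780) (.e (nat_lit 180260) (nat_lit 18) (.e (nat_lit 639021) (nat_lit 16) (.e (nat_lit 65585) (nat_lit 7) (.e (nat_lit 319527) (nat_lit 15) (.e (nat_lit 278531) (nat_lit 0) (.e (nat_lit 5779) (nat_lit 317) .nil)))))) (.g (nat_lit 0) .nil .nil))))) (.nd (nat_lit 4) (.nd (nat_lit 5) 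
(.lf (nat_lit 267466) (.g (nat_lit 2498) (.e (nat_lit 180259) (nat_lit 17) (.e (nat_lit 630821) (nat_lit 16) (.e (nat_lit 65586) (nat_lit 7) (.e (nat_lit 319531) (nat_lit 16) (.e (nat_lit 286728) (nat_lit 0) (.e (nat_lit 7936) (nat_lit 362) .nil)))))) (.g (nat_lit 5) .nil .nil))) 
(.lf (nat_lit 267498) (.g (nat_lit 2222) (.e (nat_lit 180260) (nat_lit 18) (.e (nat_lit 639021) (nat_lit 16) (.e (nat_lit 65583) (nat_lit 7) (.e (nat_lit 319530) (nat_lit 16) (.e (nat_lit 286727) (nat_lit 0) (.e (nat_lit 7936) (nat_lit 362) .nil)))))) (.g (nat_lit 5) .nil .nil)))) (.nd (nat_lit 5) 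
(.lf (nat_lit 267482) (.g (nat_lit 707) (.e (nat_lit 180259) (nat_lit 17) (.e (nat_lit 630822) (nat_lit 17) (.e (nat_lit 73792) (nat_lit 45) (.e (nat_lit 1343) (nat_lit 101) (.e (nat_lit 278532) (nat_lit 0) (.e (nat_lit 5779) (nat_lit 317) .nil)))))) (.g (nat_lit 0) .nil .nil))) 
(.lf (nat_lit 267514) (.g (nat_lit 2203) (.e (nat_lit 180260) (nat_lit 18) (.e (nat_lit 639021) (nat_lit 16) (.e (nat_lit 65586) (nat_lit 7) (.e (nat_lit 319531) (nat_lit 16) (.e (nat_lit 286726) (nat_lit 0) (.e (nat_lit 7936) (nat_lit 362) .nil)))))) (.g (nat_lit 4) .nil .nil)))))) (.nd (nat_lit 3) (.nd (nat_lit 4) (.nd (nat_lit 5) 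
(.lf (nat_lit 267462) (.g (nat_lit 805) (.e (nat_lit 180259) (nat_lit 17) (.e (nat_lit 630821) (nat_lit 16) (.e (nat_lit 65586) (nat_lit 7) (.e (nat_lit 319527) (nat_lit 15) (.e (nat_lit 278532) (nat_lit 0) (.e (nat_lit 5777) (nat_lit 317) .nil)))))) (.g (nat_lit 0) .nil .nil))) 
(.lf (nat_lit 267494) (.g (nat_lit 3712) (.e (nat_lit 180260) (nat_lit 18) (.e (nat_lit 639020) (nat_lit 16) (.e (nat_lit 65630) (nat_lit 14) (.e (nat_lit 401454) (nat_lit 12) (.e (nat_lit 475192) (nat_lit 37) (.e (nat_lit 679979) (nat_lit 18) .nil)))))) (.g (nat_lit 5) .nil .nil)))) (.nd (nat_lit 5) 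
(.lf (nat_lit 267478) (.g (nat_lit 771) (.e (nat_lit 180259) (nat_lit 17) (.e (nat_lit 630822) (nat_lit 17) (.e (nat_lit 73792) (nat_lit 45) (.e (nat_lit 1342) (nat_lit 101) (.e (nat_lit 278531) (nat_lit 0) (.e (nat_lit 5779) (nat_lit 317) .nil)))))) (.g (nat_lit 0) .nil .nil))) 
(.lf (nat_lit 267510) (.g (nat_lit 988) (.e (nat_lit 180260) (nat_lit 18) (.e (nat_lit 639021) (nat_lit 16) (.e (nat_lit 65586) (nat_lit 7) (.e (nat_lit 319526) (nat_lit 15) (.e (nat_lit 278529) (nat_lit 0) .nil))))) .nil)))) (.nd (nat_lit 4) (.nd (nat_lit 5) 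
(.lf (nat_lit 267470) (.g (nat_lit 603) (.e (nat_lit 180259) (nat_lit 17) (.e (nat_lit 630822) (nat_lit 17) (.e (nat_lit 73791) (nat_lit 45) (.e (nat_lit 1342) (nat_lit 101) (.e (nat_lit 278531) (nat_lit 0) (.e (nat_lit 5776) (nat_lit 317) .nil)))))) (.g (nat_lit 0) .nil .nil))) 
(.lf (nat_lit 267502) (.g (nat_lit 930) (.e (nat_lit 180260) (nat_lit 18) (.e (nat_lit 639021) (nat_lit 16) (.e (nat_lit 65584) (nat_lit 7) (.e (nat_lit 319527) (nat_lit 15) (.e (nat_lit 278532) (nat_lit 0) (.e (nat_lit 5776) (nat_lit 317) .nil)))))) (.g (nat_lit 0) .nil .nil)))) (.nd (nat_lit 5) 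
(.lf (nat_lit 267486) (.g (nat_lit 3836) (.e (nat_lit 180260) (nat_lit 18) (.e (nat_lit 639017) (nat_lit 15) (.e (nat_lit 57480) (nat_lit 28) (.e (nat_lit 557108) (nat_lit 15) (.e (nat_lit 188461) (nat_lit 26) (.e (nat_lit 261888) (nat_lit 5) .nil)))))) (.g (nat_lit 5) .nil .nil))) 
(.lf (nat_lit 267518) (.g (nat_lit 733) (.e (nat_lit 180260) (nat_lit 18) (.e (nat_lit 639022) (nat_lit 17) (.e (nat_lit 73789) (nat_lit 45) (.e (nat_lit 1342) (nat_lit 101) (.e (nat_lit 278531) (nat_lit 0) (.e (nat_lit 5776) (nat_lit 317) .nil)))))) (.g (nat_lit 0) .nil .nil)))))))) (.nd (nat_lit 1) (.nd (nat_lit 2) (.nd (nat_lit 3) (.nd (nat_lit 4) (.nd (nat_lit 5) 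
(.lf (nat_lit 267457) (.g (nat_lit 409) (.e (nat_lit 180259) (nat_lit 17) (.e (nat_lit 630821) (nat_lit 16) (.e (nat_lit 65585) (nat_lit 7) (.e (nat_lit 319527) (nat_lit 15) (.e (nat_lit 278532) (nat_lit 0) (.e (nat_lit 5780) (nat_lit 317) .nil)))))) (.g (nat_lit 0) .nil .nil))) 
(.lf (nat_lit 267489) (.g (nat_lit 3753) (.e (nat_lit 180260) (nat_lit 18) (.e (nat_lit 639018) (nat_lit 15) (.e (nat_lit 57478) (nat_lit 28) (.e (nat_lit 557109) (nat_lit 15) (.e (nat_lit 188461) (nat_lit 26) (.e (nat_lit 261888) (nat_lit 5) .nil)))))) (.g (nat_lit 5) .nil .nil)))) (.nd (nat_lit 5) 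
(.lf (nat_lit 267473) (.g (nat_lit 366) (.e (nat_lit 180259) (nat_lit 17) (.e (nat_lit 630822) (nat_lit 17) (.e (nat_lit 73791) (nat_lit 45) (.e (nat_lit 1343) (nat_lit 101) (.e (nat_lit 278532) (nat_lit 0) (.e (nat_lit 5777) (nat_lit 317) .nil)))))) (.g (nat_lit 0) .nil .nil))) 
(.lf (nat_lit 267505) (.g (nat_lit 746) (.e (nat_lit 180260) (nat_lit 18) (.e (nat_lit 639021) (nat_lit 16) (.e (nat_lit 65585) (nat_lit 7) (.e (nat_lit 319527) (nat_lit 15) (.e (nat_lit 278531) (nat_lit 0) (.e (nat_lit 5776) (nat_lit 317) .nil)))))) (.g (nat_lit 0) .nil .nil))))) (.nd (nat_lit 4) (.nd (nat_lit 5) 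
(.lf (nat_lit 267465) (.g (nat_lit 2050) (.e (nat_lit 180259) (nat_lit 17) (.e (nat_lit 630821) (nat_lit 16) (.e (nat_lit 65586) (nat_lit 7) (.e (nat_lit 319531) (nat_lit 16) (.e (nat_lit 286727) (nat_lit 0) (.e (nat_lit 7936) (nat_lit 362) .nil)))))) (.g (nat_lit 5) .nil .nil))) 
(.lf (nat_lit 267497) (.g (nat_lit 1574) (.e (nat_lit 180260) (nat_lit 18) (.e (nat_lit 639021) (nat_lit 16) (.e (nat_lit 65583) (nat_lit 7) (.e (nat_lit 319530) (nat_lit 16) (.e (nat_lit 286722) (nat_lit 0) (.e (nat_lit 7936) (nat_lit 362) .nil)))))) (.g (nat_lit 5) .nil .nil)))) (.nd (nat_lit 5) 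
(.lf (nat_lit 267481) (.g (nat_lit 532) (.e (nat_lit 180259) (nat_lit 17) (.e (nat_lit 630822) (nat_lit 17) (.e (nat_lit 73792) (nat_lit 45) (.e (nat_lit 1343) (nat_lit 101) (.e (nat_lit 278532) (nat_lit 0) (.e (nat_lit 5777) (nat_lit 317) .nil)))))) (.g (nat_lit 0) .nil .nil))) 
(.lf (nat_lit 267513) (.g (nat_lit 2489) (.e (nat_lit 180260) (nat_lit 18) (.e (nat_lit 639021) (nat_lit 16) (.e (nat_lit 65586) (nat_lit 7) (.e (nat_lit 319531) (nat_lit 16) (.e (nat_lit 286724) (nat_lit 0) (.e (nat_lit 7936) (nat_lit 362) .nil)))))) (.g (nat_lit 5) .nil .nil)))))) (.nd (nat_lit 3) (.nd (nat_lit 4) (.nd (nat_lit 5) 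
(.lf (nat_lit 267461) (.g (nat_lit 962) (.e (nat_lit 180259) (nat_lit 17) (.e (nat_lit 630821) (nat_lit 16) (.e (nat_lit 65586) (nat_lit 7) (.e (nat_lit 319527) (nat_lit 15) (.e (nat_lit 278532) (nat_lit 0) (.e (nat_lit 5776) (nat_lit 317) .nil)))))) (.g (nat_lit 0) .nil .nil))) 
(.lf (nat_lit 267493) (.g (nat_lit 489) (.e (nat_lit 180260) (nat_lit 18) (.e (nat_lit 639020) (nat_lit 16) (.e (nat_lit 65586) (nat_lit 7) .nil))) .nil))) (.nd (nat_lit 5) 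
(.lf (nat_lit 267477) (.g (nat_lit 603) (.e (nat_lit 180259) (nat_lit 17) (.e (nat_lit 630822) (nat_lit 17) (.e (nat_lit 73792) (nat_lit 45) (.e (nat_lit 1342) (nat_lit 101) (.e (nat_lit 278531) (nat_lit 0) (.e (nat_lit 5777) (nat_lit 317) .nil)))))) (.g (nat_lit 0) .nil .nil))) 
(.lf (nat_lit 267509) (.g (nat_lit 754) (.e (nat_lit 180260) (nat_lit 18) (.e (nat_lit 639021) (nat_lit 16) (.e (nat_lit 65585) (nat_lit 7) (.e (nat_lit 319527) (nat_lit 15) (.e (nat_lit 278532) (nat_lit 0) (.e (nat_lit 5779) (nat_lit 317) .nil)))))) (.g (nat_lit 0) .nil .nil))))) (.nd (nat_lit 4) (.nd (nat_lit 5) 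
(.lf (nat_lit 267469) (.g (nat_lit 588) (.e (nat_lit 180259) (nat_lit 17) (.e (nat_lit 630822) (nat_lit 17) (.e (nat_lit 73789) (nat_lit 45) (.e (nat_lit 1342) (nat_lit 101) (.e (nat_lit 278531) (nat_lit 0) (.e (nat_lit 5780) (nat_lit 317) .nil)))))) (.g (nat_lit 0) .nil .nil))) 
(.lf (nat_lit 267501) (.g (nat_lit 986) (.e (nat_lit 180260) (nat_lit 18) (.e (nat_lit 639021) (nat_lit 16) (.e (nat_lit 65584) (nat_lit 7) (.e (nat_lit 319527) (nat_lit 15) (.e (nat_lit 278531) (nat_lit 0) (.e (nat_lit 5779) (nat_lit 317) .nil)))))) (.g (nat_lit 0) .nil .nil)))) (.nd (nat_lit 5) 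
(.lf (nat_lit 267485) (.g (nat_lit 3252) (.e (nat_lit 180260) (nat_lit 18) (.e (nat_lit 639017) (nat_lit 15) (.e (nat_lit 57479) (nat_lit 28) (.e (nat_lit 557109) (nat_lit 15) (.e (nat_lit 188461) (nat_lit 26) .nil))))) .nil)) 
(.lf (nat_lit 267517) (.g (nat_lit 2202) (.e (nat_lit 180260) (nat_lit 18) (.e (nat_lit 639021) (nat_lit 16) (.e (nat_lit 65586) (nat_lit 7) (.e (nat_lit 319531) (nat_lit 16) (.e (nat_lit 286729) (nat_lit 0) .nil))))) .nil)))))) (.nd (nat_lit 2) (.nd (nat_lit 3) (.nd (nat_lit 4) (.nd (nat_lit 5) 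
(.lf (nat_lit 267459) (.g (nat_lit 1003) (.e (nat_lit 180259) (nat_lit 17) (.e (nat_lit 630821) (nat_lit 16) (.e (nat_lit 65586) (nat_lit 7) (.e (nat_lit 319527) (nat_lit 15) (.e (nat_lit 278531) (nat_lit 0) (.e (nat_lit 5779) (nat_lit 317) .nil)))))) (.g (nat_lit 0) .nil .nil))) 
(.lf (nat_lit 267491) (.g (nat_lit 3600) (.e (nat_lit 180260) (nat_lit 18) (.e (nat_lit 639018) (nat_lit 15) (.e (nat_lit 57480) (nat_lit 28) (.e (nat_lit 557109) (nat_lit 15) (.e (nat_lit 188461) (nat_lit 26) (.e (nat_lit 261888) (nat_lit 5) .nil)))))) (.g (nat_lit 5) .nil .nil)))) (.nd (nat_lit 5) 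
(.lf (nat_lit 267475) (.g (nat_lit 341) (.e (nat_lit 180259) (nat_lit 17) (.e (nat_lit 630822) (nat_lit 17) (.e (nat_lit 73791) (nat_lit 45) (.e (nat_lit 1343) (nat_lit 101) (.e (nat_lit 278532) (nat_lit 0) (.e (nat_lit 5780) (nat_lit 317) .nil)))))) (.g (nat_lit 0) .nil .nil))) 
(.lf (nat_lit 267507) (.g (nat_lit 722) (.e (nat_lit 180260) (nat_lit 18) (.e (nat_lit 639021) (nat_lit 16) (.e (nat_lit 65585) (nat_lit 7) (.e (nat_lit 319527) (nat_lit 15) (.e (nat_lit 278532) (nat_lit 0) (.e (nat_lit 5776) (nat_lit 317) .nil)))))) (.g (nat_lit 0) .nil .nil))))) (.nd (nat_lit 4) (.nd (nat_lit 5) 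
(.lf (nat_lit 267467) (.g (nat_lit 771) (.e (nat_lit 180259) (nat_lit 17) (.e (nat_lit 630822) (nat_lit 17) (.e (nat_lit 73789) (nat_lit 45) (.e (nat_lit 1342) (nat_lit 101) (.e (nat_lit 278531) (nat_lit 0) (.e (nat_lit 5776) (nat_lit 317) .nil)))))) (.g (nat_lit 0) .nil .nil))) 
(.lf (nat_lit 267499) (.g (nat_lit 1965) (.e (nat_lit 180260) (nat_lit 18) (.e (nat_lit 639021) (nat_lit 16) (.e (nat_lit 65583) (nat_lit 7) (.e (nat_lit 319530) (nat_lit 16) (.e (nat_lit 286728) (nat_lit 0) (.e (nat_lit 7936) (nat_lit 362) .nil)))))) (.g (nat_lit 5) .nil .nil)))) (.nd (nat_lit 5) 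
(.lf (nat_lit 267483) (.g (nat_lit 507) (.e (nat_lit 180259) (nat_lit 17) (.e (nat_lit 630822) (nat_lit 17) (.e (nat_lit 73792) (nat_lit 45) (.e (nat_lit 1343) (nat_lit 101) (.e (nat_lit 278532) (nat_lit 0) (.e (nat_lit 5780) (nat_lit 317) .nil)))))) (.g (nat_lit 0) .nil .nil))) 
(.lf (nat_lit 267515) (.g (nat_lit 2201) (.e (nat_lit 180260) (nat_lit 18) (.e (nat_lit 639021) (nat_lit 16) (.e (nat_lit 65586) (nat_lit 7) (.e (nat_lit 319531) (nat_lit 16) (.e (nat_lit 286727) (nat_lit 0) (.e (nat_lit 7936) (nat_lit 362) .nil)))))) (.g (nat_lit 5) .nil .nil)))))) (.nd (nat_lit 3) (.nd (nat_lit 4) (.nd (nat_lit 5) 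
(.lf (nat_lit 267463) (.g (nat_lit 984) (.e (nat_lit 180259) (nat_lit 17) (.e (nat_lit 630821) (nat_lit 16) (.e (nat_lit 65586) (nat_lit 7) (.e (nat_lit 319527) (nat_lit 15) (.e (nat_lit 278532) (nat_lit 0) (.e (nat_lit 5779) (nat_lit 317) .nil)))))) (.g (nat_lit 0) .nil .nil))) 
(.lf (nat_lit 267495) (.g (nat_lit 889) (.e (nat_lit 180260) (nat_lit 18) (.e (nat_lit 639021) (nat_lit 16) (.e (nat_lit 65583) (nat_lit 7) (.e (nat_lit 319526) (nat_lit 15) (.e (nat_lit 278529) (nat_lit 0) .nil))))) .nil))) (.nd (nat_lit 5) 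
(.lf (nat_lit 267479) (.g (nat_lit 584) (.e (nat_lit 180259) (nat_lit 17) (.e (nat_lit 630822) (nat_lit 17) (.e (nat_lit 73792) (nat_lit 45) (.e (nat_lit 1342) (nat_lit 101) (.e (nat_lit 278531) (nat_lit 0) (.e (nat_lit 5780) (nat_lit 317) .nil)))))) (.g (nat_lit 0) .nil .nil))) 
(.lf (nat_lit 267511) (.g (nat_lit 1816) (.e (nat_lit 180260) (nat_lit 18) (.e (nat_lit 639021) (nat_lit 16) (.e (nat_lit 65586) (nat_lit 7) (.e (nat_lit 319531) (nat_lit 16) (.e (nat_lit 286720) (nat_lit 0) (.e (nat_lit 6722) (nat_lit 362) .nil)))))) (.g (nat_lit 4) .nil .nil))))) (.nd (nat_lit 4) (.nd (nat_lit 5) 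
(.lf (nat_lit 267471) (.g (nat_lit 421) (.e (nat_lit 180259) (nat_lit 17) (.e (nat_lit 630822) (nat_lit 17) (.e (nat_lit 73791) (nat_lit 45) (.e (nat_lit 1342) (nat_lit 101) (.e (nat_lit 278531) (nat_lit 0) (.e (nat_lit 5780) (nat_lit 317) .nil)))))) (.g (nat_lit 0) .nil .nil))) 
(.lf (nat_lit 267503) (.g (nat_lit 781) (.e (nat_lit 180260) (nat_lit 18) (.e (nat_lit 639021) (nat_lit 16) (.e (nat_lit 65584) (nat_lit 7) (.e (nat_lit 319527) (nat_lit 15) (.e (nat_lit 278532) (nat_lit 0) (.e (nat_lit 5777) (nat_lit 317) .nil)))))) (.g (nat_lit 0) .nil .nil)))) (.nd (nat_lit 5) 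
(.lf (nat_lit 267487) (.g (nat_lit 3369) (.e (nat_lit 180260) (nat_lit 18) (.e (nat_lit 639017) (nat_lit 15) (.e (nat_lit 57480) (nat_lit 28) (.e (nat_lit 557109) (nat_lit 15) (.e (nat_lit 188461) (nat_lit 26) (.e (nat_lit 261888) (nat_lit 5) .nil)))))) (.g (nat_lit 5) .nil .nil))) 
(.lf (nat_lit 267519) (.g (nat_lit 593) (.e (nat_lit 180260) (nat_lit 18) (.e (nat_lit 639022) (nat_lit 17) (.e (nat_lit 73789) (nat_lit 45) (.e (nat_lit 1342) (nat_lit 101) (.e (nat_lit 278531) (nat_lit 0) (.e (nat_lit 5777) (nat_lit 317) .nil)))))) (.g (nat_lit 0) .nil .nil)))))))))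

noncomputable def tv3436 : DT := (.nd (nat_lit 0) (.nd (nat_lit 1) (.nd (nat_lit 2) (.nd (nat_lit 3) (.nd (nat_lit 4) (.nd (nat_lit 5) (.nd (nat_lit 6) 
(.lf (nat_lit 267520) (.g (nat_lit 583) (.e (nat_lit 180260) (nat_lit 18) (.e (nat_lit 639022) (nat_lit 17) (.e (nat_lit 73789) (nat_lit 45) (.e (nat_lit 1342) (nat_lit 101) (.e (nat_lit 278531) (nat_lit 0) (.e (nat_lit 5780) (nat_lit 317) .nil)))))) (.g (nat_lit 0) .nil .nil))) 
(.lf (nat_lit 267584) (.g (nat_lit 2713) (.e (nat_lit 180265) (nat_lit 21) (.e (nat_lit 663572) (nat_lit 9) (.e (nat_lit 232) (nat_lit 21) (.e (nat_lit 336060) (nat_lit 7) (.e (nat_lit 319534) (nat_lit 16) (.e (nat_lit 286728) (nat_lit 0) (.e (nat_lit 7936) (nat_lit 362) .nil))))))) (.g (nat_lit 6) .nil .nil)))) (.nd (nat_lit 6) 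
(.lf (nat_lit 267552) (.g (nat_lit 644) (.e (nat_lit 180261) (nat_lit 20) (.e (nat_lit 655378) (nat_lit 4) (.e (nat_lit 172070) (nat_lit 4) .nil))) .nil)) 
(.lf (nat_lit 267616) (.g (nat_lit 4979) (.e (nat_lit 180268) (nat_lit 24) (.e (nat_lit 688181) (nat_lit 17) (.e (nat_lit 73755) (nat_lit 8) (.e (nat_lit 557098) (nat_lit 13) (.e (nat_lit 172133) (nat_lit 15) (.e (nat_lit 2059) (nat_lit 142) (.e (nat_lit 704595) (nat_lit 5) .nil))))))) (.g (nat_lit 7) .nil .nil))))) (.nd (nat_lit 5) (.nd (nat_lit 6) 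
(.lf (nat_lit 267536) (.g (nat_lit 554) (.e (nat_lit 188160) (nat_lit 19) (.e (nat_lit 647195) (nat_lit 9) (.e (nat_lit 1234) (nat_lit 91) .nil))) .nil)) 
(.lf (nat_lit 267600) (.g (nat_lit 620) (.e (nat_lit 180266) (nat_lit 22) (.e (nat_lit 671762) (nat_lit 4) (.e (nat_lit 65580) (nat_lit 6) .nil))) .nil))) (.nd (nat_lit 6) 
(.lf (nat_lit 267568) (.g (nat_lit 442) (.e (nat_lit 180263) (nat_lit 21) (.e (nat_lit 663580) (nat_lit 9) (.e (nat_lit 7936) (nat_lit 22) .nil))) .nil)) 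
(.lf (nat_lit 267632) (.g (nat_lit 2199) (.e (nat_lit 180268) (nat_lit 24) (.e (nat_lit 688182) (nat_lit 17) (.e (nat_lit 73755) (nat_lit 8) (.e (nat_lit 557104) (nat_lit 14) (.e (nat_lit 180261) (nat_lit 20) (.e (nat_lit 655379) (nat_lit 5) .nil)))))) (.g (nat_lit 4) .nil .nil)))))) (.nd (nat_lit 4) (.nd (nat_lit 5) (.nd (nat_lit 6) 
(.lf (nat_lit 267528) (.g (nat_lit 719) (.e (nat_lit 180260) (nat_lit 18) (.e (nat_lit 639022) (nat_lit 17) (.e (nat_lit 73792) (nat_lit 45) (.e (nat_lit 1342) (nat_lit 101) (.e (nat_lit 278531) (nat_lit 0) (.e (nat_lit 5776) (nat_lit 317) .nil)))))) (.g (nat_lit 0) .nil .nil))) 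
(.lf (nat_lit 267592) (.g (nat_lit 1349) (.e (nat_lit 180266) (nat_lit 22) (.e (nat_lit 671748) (nat_lit 0) (.e (nat_lit 1401) (nat_lit 106) (.e (nat_lit 319531) (nat_lit 16) (.e (nat_lit 286748) (nat_lit 9) .nil))))) .nil))) (.nd (nat_lit 6) 
(.lf (nat_lit 267560) (.g (nat_lit 1393) (.e (nat_lit 180262) (nat_lit 21) (.e (nat_lit 663567) (nat_lit 4) (.e (nat_lit 65563) (nat_lit 1) (.e (nat_lit 57683) (nat_lit 155) (.e (nat_lit 122911) (nat_lit 13) .nil))))) .nil)) 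
(.lf (nat_lit 267624) (.g (nat_lit 5073) (.e (nat_lit 180268) (nat_lit 24) (.e (nat_lit 688182) (nat_lit 17) (.e (nat_lit 73755) (nat_lit 8) (.e (nat_lit 557098) (nat_lit 13) (.e (nat_lit 172133) (nat_lit 15) (.e (nat_lit 2059) (nat_lit 142) (.e (nat_lit 704595) (nat_lit 5) .nil))))))) (.g (nat_lit 7) .nil .nil))))) (.nd (nat_lit 5) (.nd (nat_lit 6) 
(.lf (nat_lit 267544) (.g (nat_lit 1921) (.e (nat_lit 180261) (nat_lit 20) (.e (nat_lit 655364) (nat_lit 0) (.e (nat_lit 2964) (nat_lit 185) (.e (nat_lit 434209) (nat_lit 18) (.e (nat_lit 6270) (nat_lit 337) .nil))))) .nil)) 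
(.lf (nat_lit 267608) (.g (nat_lit 1598) (.e (nat_lit 180267) (nat_lit 23) (.e (nat_lit 679961) (nat_lit 9) (.e (nat_lit 65565) (nat_lit 1) (.e (nat_lit 57873) (nat_lit 264) (.e (nat_lit 1211) (nat_lit 89) (.e (nat_lit 81664) (nat_lit 37) .nil)))))) (.g (nat_lit 5) .nil .nil)))) (.nd (nat_lit 6) 
(.lf (nat_lit 267576) (.g (nat_lit 1959) (.e (nat_lit 180264) (nat_lit 21) (.e (nat_lit 663580) (nat_lit 9) (.e (nat_lit 2610) (nat_lit 163) (.e (nat_lit 164326) (nat_lit 230) (.e (nat_lit 163884) (nat_lit 5) .nil))))) .nil)) 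
(.lf (nat_lit 267640) (.g (nat_lit 914) (.e (nat_lit 180269) (nat_lit 25) (.e (nat_lit 696343) (nat_lit 8) (.e (nat_lit 172087) (nat_lit 9) (.e (nat_lit 426550) (nat_lit 31) (.e (nat_lit 376576) (nat_lit 5) .nil))))) .nil)))))) (.nd (nat_lit 3) (.nd (nat_lit 4) (.nd (nat_lit 5) (.nd (nat_lit 6) 
(.lf (nat_lit 267524) (.g (nat_lit 504) (.e (nat_lit 180260) (nat_lit 18) (.e (nat_lit 639022) (nat_lit 17) (.e (nat_lit 73791) (nat_lit 45) (.e (nat_lit 1343) (nat_lit 101) (.e (nat_lit 278532) (nat_lit 0) (.e (nat_lit 5776) (nat_lit 317) .nil)))))) (.g (nat_lit 0) .nil .nil))) 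
(.lf (nat_lit 267588) (.g (nat_lit 2292) (.e (nat_lit 180265) (nat_lit 21) (.e (nat_lit 663580) (nat_lit 9) (.e (nat_lit 2610) (nat_lit 163) (.e (nat_lit 164326) (nat_lit 230) (.e (nat_lit 163886) (nat_lit 5) (.e (nat_lit 229120) (nat_lit 12) (.e (nat_lit 344130) (nat_lit 26) (.e (nat_lit 557104) (nat_lit 14) .nil)))))))) (.g (nat_lit 4) .nil .nil)))) (.nd (nat_lit 6) 
(.lf (nat_lit 267556) (.g (nat_lit 1286) (.e (nat_lit 180261) (nat_lit 20) (.e (nat_lit 655378) (nat_lit 4) (.e (nat_lit 172076) (nat_lit 6) (.e (nat_lit 254001) (nat_lit 13) .nil)))) .nil)) 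
(.lf (nat_lit 267620) (.g (nat_lit 4557) (.e (nat_lit 180268) (nat_lit 24) (.e (nat_lit 688182) (nat_lit 17) (.e (nat_lit 73755) (nat_lit 8) (.e (nat_lit 557096) (nat_lit 13) (.e (nat_lit 172133) (nat_lit 15) (.e (nat_lit 2059) (nat_lit 142) (.e (nat_lit 704595) (nat_lit 5) .nil))))))) (.g (nat_lit 7) .nil .nil))))) (.nd (nat_lit 5) (.nd (nat_lit 6) 
(.lf (nat_lit 267540) (.g (nat_lit 1709) (.e (nat_lit 188160) (nat_lit 19) (.e (nat_lit 647195) (nat_lit 9) (.e (nat_lit 1238) (nat_lit 91) (.e (nat_lit 90160) (nat_lit 11) (.e (nat_lit 24638) (nat_lit 9) .nil))))) .nil)) 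
(.lf (nat_lit 267604) (.g (nat_lit 1657) (.e (nat_lit 180266) (nat_lit 22) (.e (nat_lit 671762) (nat_lit 4) (.e (nat_lit 65580) (nat_lit 6) (.e (nat_lit 147467) (nat_lit 9) (.e (nat_lit 307) (nat_lit 22) .nil))))) .nil))) (.nd (nat_lit 6) 
(.lf (nat_lit 267572) (.g (nat_lit 305) (.e (nat_lit 180263) (nat_lit 21) (.e (nat_lit 663583) (nat_lit 11) (.e (nat_lit 24616) (nat_lit 7) .nil))) .nil)) 
(.lf (nat_lit 267636) (.g (nat_lit 727) (.e (nat_lit 180269) (nat_lit 25) (.e (nat_lit 696343) (nat_lit 8) (.e (nat_lit 172085) (nat_lit 9) (.e (nat_lit 426535) (nat_lit 28) .nil)))) .nil))))) (.nd (nat_lit 4) (.nd (nat_lit 5) (.nd (nat_lit 6) 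
(.lf (nat_lit 267532) (.g (nat_lit 654) (.e (nat_lit 180260) (nat_lit 18) (.e (nat_lit 639022) (nat_lit 17) (.e (nat_lit 73792) (nat_lit 45) (.e (nat_lit 1343) (nat_lit 101) (.e (nat_lit 278532) (nat_lit 0) (.e (nat_lit 5776) (nat_lit 317) .nil)))))) (.g (nat_lit 0) .nil .nil))) 
(.lf (nat_lit 267596) (.g (nat_lit 593) (.e (nat_lit 180266) (nat_lit 22) (.e (nat_lit 671762) (nat_lit 4) (.e (nat_lit 65565) (nat_lit 1) .nil))) .nil))) (.nd (nat_lit 6) 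
(.lf (nat_lit 267564) (.g (nat_lit 499) (.e (nat_lit 180262) (nat_lit 21) (.e (nat_lit 663567) (nat_lit 4) (.e (nat_lit 65580) (nat_lit 6) .nil))) .nil)) 
(.lf (nat_lit 267628) (.g (nat_lit 2007) (.e (nat_lit 180268) (nat_lit 24) (.e (nat_lit 688182) (nat_lit 17) (.e (nat_lit 73755) (nat_lit 8) (.e (nat_lit 557103) (nat_lit 14) (.e (nat_lit 180229) (nat_lit 0) (.e (nat_lit 5548) (nat_lit 306) (.e (nat_lit 2640) (nat_lit 165) .nil))))))) (.g (nat_lit 4) .nil .nil))))) (.nd (nat_lit 5) (.nd (nat_lit 6) 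
(.lf (nat_lit 267548) (.g (nat_lit 2039) (.e (nat_lit 180261) (nat_lit 20) (.e (nat_lit 655364) (nat_lit 0) (.e (nat_lit 2964) (nat_lit 185) (.e (nat_lit 434289) (nat_lit 43) (.e (nat_lit 696350) (nat_lit 13) .nil))))) .nil)) 
(.lf (nat_lit 267612) (.g (nat_lit 4091) (.e (nat_lit 180268) (nat_lit 24) (.e (nat_lit 688180) (nat_lit 17) (.e (nat_lit 73753) (nat_lit 8) (.e (nat_lit 557098) (nat_lit 13) (.e (nat_lit 172133) (nat_lit 15) (.e (nat_lit 2059) (nat_lit 142) (.e (nat_lit 704596) (nat_lit 5) .nil))))))) (.g (nat_lit 7) .nil .nil)))) (.nd (nat_lit 6) 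
(.lf (nat_lit 267580) (.g (nat_lit 2883) (.e (nat_lit 180265) (nat_lit 21) (.e (nat_lit 663555) (nat_lit 0) (.e (nat_lit 1234) (nat_lit 91) (.e (nat_lit 90170) (nat_lit 13) (.e (nat_lit 172113) (nat_lit 10) (.e (nat_lit 434207) (nat_lit 18) (.e (nat_lit 6595) (nat_lit 351) (.e (nat_lit 2639) (nat_lit 165) .nil)))))))) (.g (nat_lit 6) .nil .nil))) 
(.lf (nat_lit 267644) (.g (nat_lit 627) (.e (nat_lit 180269) (nat_lit 25) (.e (nat_lit 696344) (nat_lit 8) (.e (nat_lit 172067) (nat_lit 3) .nil))) .nil))))))) (.nd (nat_lit 2) (.nd (nat_lit 3) (.nd (nat_lit 4) (.nd (nat_lit 5) (.nd (nat_lit 6) 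
(.lf (nat_lit 267522) (.g (nat_lit 438) (.e (nat_lit 180260) (nat_lit 18) (.e (nat_lit 639022) (nat_lit 17) (.e (nat_lit 73791) (nat_lit 45) (.e (nat_lit 1342) (nat_lit 101) (.e (nat_lit 278531) (nat_lit 0) (.e (nat_lit 5777) (nat_lit 317) .nil)))))) (.g (nat_lit 0) .nil .nil))) 
(.lf (nat_lit 267586) (.g (nat_lit 1305) (.e (nat_lit 180265) (nat_lit 21) (.e (nat_lit 663574) (nat_lit 9) (.e (nat_lit 2668) (nat_lit 167) (.e (nat_lit 204544) (nat_lit 0) .nil)))) .nil))) (.nd (nat_lit 6) 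
(.lf (nat_lit 267554) (.g (nat_lit 1231) (.e (nat_lit 180261) (nat_lit 20) (.e (nat_lit 655378) (nat_lit 4) (.e (nat_lit 172076) (nat_lit 6) (.e (nat_lit 253975) (nat_lit 9) .nil)))) .nil)) 
(.lf (nat_lit 267618) (.g (nat_lit 1107) (.e (nat_lit 180268) (nat_lit 24) (.e (nat_lit 688181) (nat_lit 17) (.e (nat_lit 73755) (nat_lit 8) (.e (nat_lit 557103) (nat_lit 14) .nil)))) .nil)))) (.nd (nat_lit 5) (.nd (nat_lit 6) 
(.lf (nat_lit 267538) (.g (nat_lit 1515) (.e (nat_lit 188160) (nat_lit 19) (.e (nat_lit 647195) (nat_lit 9) (.e (nat_lit 1234) (nat_lit 91) (.e (nat_lit 90125) (nat_lit 9) (.e (nat_lit 331) (nat_lit 26) .nil))))) .nil)) 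
(.lf (nat_lit 267602) (.g (nat_lit 1115) (.e (nat_lit 180266) (nat_lit 22) (.e (nat_lit 671762) (nat_lit 4) (.e (nat_lit 65580) (nat_lit 6) (.e (nat_lit 147467) (nat_lit 9) .nil)))) .nil))) (.nd (nat_lit 6) 
(.lf (nat_lit 267570) (.g (nat_lit 1797) (.e (nat_lit 180263) (nat_lit 21) (.e (nat_lit 663583) (nat_lit 11) (.e (nat_lit 24584) (nat_lit 0) (.e (nat_lit 6218) (nat_lit 333) (.e (nat_lit 57819) (nat_lit 248) (.e (nat_lit 164373) (nat_lit 251) .nil)))))) (.g (nat_lit 4) .nil .nil))) 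
(.lf (nat_lit 267634) (.g (nat_lit 1671) (.e (nat_lit 180268) (nat_lit 24) (.e (nat_lit 688182) (nat_lit 17) (.e (nat_lit 73755) (nat_lit 8) (.e (nat_lit 557105) (nat_lit 14) (.e (nat_lit 180233) (nat_lit 0) (.e (nat_lit 5448) (nat_lit 306) (.e (nat_lit 2641) (nat_lit 165) .nil))))))) (.g (nat_lit 4) .nil .nil)))))) (.nd (nat_lit 4) (.nd (nat_lit 5) (.nd (nat_lit 6) 
(.lf (nat_lit 267530) (.g (nat_lit 733) (.e (nat_lit 180260) (nat_lit 18) (.e (nat_lit 639022) (nat_lit 17) (.e (nat_lit 73792) (nat_lit 45) (.e (nat_lit 1342) (nat_lit 101) (.e (nat_lit 278531) (nat_lit 0) (.e (nat_lit 5779) (nat_lit 317) .nil)))))) (.g (nat_lit 0) .nil .nil))) 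
(.lf (nat_lit 267594) (.g (nat_lit 638) (.e (nat_lit 180266) (nat_lit 22) (.e (nat_lit 671762) (nat_lit 4) (.e (nat_lit 65539) (nat_lit 0) .nil))) .nil))) (.nd (nat_lit 6) 
(.lf (nat_lit 267562) (.g (nat_lit 3765) (.e (nat_lit 180262) (nat_lit 21) (.e (nat_lit 663567) (nat_lit 4) (.e (nat_lit 65578) (nat_lit 6) (.e (nat_lit 147467) (nat_lit 9) (.e (nat_lit 297) (nat_lit 22) (.e (nat_lit 344133) (nat_lit 26) (.e (nat_lit 557103) (nat_lit 14) .nil))))))) (.g (nat_lit 7) .nil .nil))) 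
(.lf (nat_lit 267626) (.g (nat_lit 2629) (.e (nat_lit 180268) (nat_lit 24) (.e (nat_lit 688182) (nat_lit 17) (.e (nat_lit 73755) (nat_lit 8) (.e (nat_lit 557098) (nat_lit 13) (.e (nat_lit 172136) (nat_lit 15) (.e (nat_lit 2058) (nat_lit 142) (.e (nat_lit 704595) (nat_lit 5) .nil))))))) (.g (nat_lit 4) .nil .nil))))) (.nd (nat_lit 5) (.nd (nat_lit 6) 
(.lf (nat_lit 267546) (.g (nat_lit 1904) (.e (nat_lit 180261) (nat_lit 20) (.e (nat_lit 655364) (nat_lit 0) (.e (nat_lit 2964) (nat_lit 185) (.e (nat_lit 434209) (nat_lit 18) (.e (nat_lit 6306) (nat_lit 337) .nil))))) .nil)) 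
(.lf (nat_lit 267610) (.g (nat_lit 4306) (.e (nat_lit 180268) (nat_lit 24) (.e (nat_lit 688180) (nat_lit 17) (.e (nat_lit 73753) (nat_lit 8) (.e (nat_lit 557096) (nat_lit 13) (.e (nat_lit 172133) (nat_lit 15) (.e (nat_lit 2059) (nat_lit 142) (.e (nat_lit 704595) (nat_lit 5) .nil))))))) (.g (nat_lit 7) .nil .nil)))) (.nd (nat_lit 6) 
(.lf (nat_lit 267578) (.g (nat_lit 1461) (.e (nat_lit 180264) (nat_lit 21) (.e (nat_lit 663583) (nat_lit 11) (.e (nat_lit 24584) (nat_lit 0) (.e (nat_lit 6218) (nat_lit 333) (.e (nat_lit 57819) (nat_lit 248) .nil))))) .nil)) 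
(.lf (nat_lit 267642) (.g (nat_lit 2186) (.e (nat_lit 180269) (nat_lit 25) (.e (nat_lit 696343) (nat_lit 8) (.e (nat_lit 172122) (nat_lit 13) (.e (nat_lit 483346) (nat_lit 17) (.e (nat_lit 6722) (nat_lit 362) .nil))))) (.g (nat_lit 5) .nil .nil))))))) (.nd (nat_lit 3) (.nd (nat_lit 4) (.nd (nat_lit 5) (.nd (nat_lit 6) 
(.lf (nat_lit 267526) (.g (nat_lit 519) (.e (nat_lit 180260) (nat_lit 18) (.e (nat_lit 639022) (nat_lit 17) (.e (nat_lit 73791) (nat_lit 45) (.e (nat_lit 1343) (nat_lit 101) (.e (nat_lit 278532) (nat_lit 0) (.e (nat_lit 5779) (nat_lit 317) .nil)))))) (.g (nat_lit 0) .nil .nil))) 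
(.lf (nat_lit 267590) (.g (nat_lit 459) (.e (nat_lit 180265) (nat_lit 21) (.e (nat_lit 663584) (nat_lit 12) (.e (nat_lit 163950) (nat_lit 21) .nil))) .nil))) (.nd (nat_lit 6) 
(.lf (nat_lit 267558) (.g (nat_lit 1335) (.e (nat_lit 180261) (nat_lit 20) (.e (nat_lit 655380) (nat_lit 6) (.e (nat_lit 188453) (nat_lit 24) (.e (nat_lit 229678) (nat_lit 244) (.e (nat_lit 163850) (nat_lit 0) .nil))))) .nil)) 
(.lf (nat_lit 267622) (.g (nat_lit 4882) (.e (nat_lit 180268) (nat_lit 24) (.e (nat_lit 688182) (nat_lit 17) (.e (nat_lit 73755) (nat_lit 8) (.e (nat_lit 557097) (nat_lit 13) (.e (nat_lit 172133) (nat_lit 15) (.e (nat_lit 2059) (nat_lit 142) (.e (nat_lit 704595) (nat_lit 5) .nil))))))) (.g (nat_lit 7) .nil .nil))))) (.nd (nat_lit 5) (.nd (nat_lit 6) 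
(.lf (nat_lit 267542) (.g (nat_lit 1634) (.e (nat_lit 180261) (nat_lit 20) (.e (nat_lit 655364) (nat_lit 0) (.e (nat_lit 2964) (nat_lit 185) (.e (nat_lit 434202) (nat_lit 18) (.e (nat_lit 6260) (nat_lit 337) .nil))))) .nil)) 
(.lf (nat_lit 267606) (.g (nat_lit 1121) (.e (nat_lit 188160) (nat_lit 22) (.e (nat_lit 671762) (nat_lit 4) (.e (nat_lit 65580) (nat_lit 6) (.e (nat_lit 147467) (nat_lit 9) .nil)))) .nil))) (.nd (nat_lit 6) 
(.lf (nat_lit 267574) (.g (nat_lit 1449) (.e (nat_lit 180263) (nat_lit 21) (.e (nat_lit 663583) (nat_lit 11) (.e (nat_lit 24622) (nat_lit 8) (.e (nat_lit 327708) (nat_lit 10) (.e (nat_lit 5394) (nat_lit 301) (.e (nat_lit 65280) (nat_lit 206) .nil)))))) (.g (nat_lit 5) .nil .nil))) 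
(.lf (nat_lit 267638) (.g (nat_lit 904) (.e (nat_lit 180269) (nat_lit 25) (.e (nat_lit 696343) (nat_lit 8) (.e (nat_lit 172087) (nat_lit 9) (.e (nat_lit 426534) (nat_lit 28) (.e (nat_lit 352000) (nat_lit 5) .nil))))) (.g (nat_lit 4) .nil .nil)))))) (.nd (nat_lit 4) (.nd (nat_lit 5) (.nd (nat_lit 6) 
(.lf (nat_lit 267534) (.g (nat_lit 668) (.e (nat_lit 180260) (nat_lit 18) (.e (nat_lit 639022) (nat_lit 17) (.e (nat_lit 73792) (nat_lit 45) (.e (nat_lit 1343) (nat_lit 101) (.e (nat_lit 278532) (nat_lit 0) (.e (nat_lit 5779) (nat_lit 317) .nil)))))) (.g (nat_lit 0) .nil .nil))) 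
(.lf (nat_lit 267598) (.g (nat_lit 1565) (.e (nat_lit 180266) (nat_lit 22) (.e (nat_lit 671762) (nat_lit 4) (.e (nat_lit 65565) (nat_lit 1) (.e (nat_lit 57655) (nat_lit 152) (.e (nat_lit 1207) (nat_lit 89) .nil))))) .nil))) (.nd (nat_lit 6) 
(.lf (nat_lit 267566) (.g (nat_lit 1713) (.e (nat_lit 180263) (nat_lit 21) (.e (nat_lit 663568) (nat_lit 5) (.e (nat_lit 73775) (nat_lit 26) (.e (nat_lit 778362) (nat_lit 9) (.e (nat_lit 304) (nat_lit 22) .nil))))) .nil)) 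
(.lf (nat_lit 267630) (.g (nat_lit 2309) (.e (nat_lit 180268) (nat_lit 24) (.e (nat_lit 688182) (nat_lit 17) (.e (nat_lit 73755) (nat_lit 8) (.e (nat_lit 557104) (nat_lit 14) (.e (nat_lit 180229) (nat_lit 0) (.e (nat_lit 5546) (nat_lit 306) (.e (nat_lit 2640) (nat_lit 165) .nil))))))) (.g (nat_lit 4) .nil .nil))))) (.nd (nat_lit 5) (.nd (nat_lit 6) 
(.lf (nat_lit 267550) (.g (nat_lit 614) (.e (nat_lit 180261) (nat_lit 20) (.e (nat_lit 655378) (nat_lit 4) (.e (nat_lit 172061) (nat_lit 1) .nil))) .nil)) 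
(.lf (nat_lit 267614) (.g (nat_lit 1828) (.e (nat_lit 180268) (nat_lit 24) (.e (nat_lit 688180) (nat_lit 17) (.e (nat_lit 73753) (nat_lit 8) (.e (nat_lit 557101) (nat_lit 13) (.e (nat_lit 172070) (nat_lit 4) (.e (nat_lit 229665) (nat_lit 240) (.e (nat_lit 2641) (nat_lit 165) .nil))))))) (.g (nat_lit 4) .nil .nil)))) (.nd (nat_lit 6) 
(.lf (nat_lit 267582) (.g (nat_lit 2159) (.e (nat_lit 180265) (nat_lit 21) (.e (nat_lit 663561) (nat_lit 0) (.e (nat_lit 1427) (nat_lit 108) (.e (nat_lit 336421) (nat_lit 28) (.e (nat_lit 442112) (nat_lit 3) .nil))))) .nil)) 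
(.lf (nat_lit 267646) (.g (nat_lit 1743) (.e (nat_lit 180269) (nat_lit 25) (.e (nat_lit 696344) (nat_lit 8) (.e (nat_lit 172067) (nat_lit 3) (.e (nat_lit 204838) (nat_lit 20) .nil)))) .nil)))))))) (.nd (nat_lit 1) (.nd (nat_lit 2) (.nd (nat_lit 3) (.nd (nat_lit 4) (.nd (nat_lit 5) (.nd (nat_lit 6) 
(.lf (nat_lit 267521) (.g (nat_lit 578) (.e (nat_lit 180260) (nat_lit 18) (.e (nat_lit 639022) (nat_lit 17) (.e (nat_lit 73791) (nat_lit 45) (.e (nat_lit 1342) (nat_lit 101) (.e (nat_lit 278531) (nat_lit 0) (.e (nat_lit 5776) (nat_lit 317) .nil)))))) (.g (nat_lit 0) .nil .nil))) 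
(.lf (nat_lit 267585) (.g (nat_lit 367) (.e (nat_lit 180265) (nat_lit 21) (.e (nat_lit 663574) (nat_lit 9) (.e (nat_lit 7936) (nat_lit 27) .nil))) .nil))) (.nd (nat_lit 6) 
(.lf (nat_lit 267553) (.g (nat_lit 606) (.e (nat_lit 180261) (nat_lit 20) (.e (nat_lit 655378) (nat_lit 4) (.e (nat_lit 172076) (nat_lit 6) .nil))) .nil)) 
(.lf (nat_lit 267617) (.g (nat_lit 2275) (.e (nat_lit 180268) (nat_lit 24) (.e (nat_lit 688181) (nat_lit 17) (.e (nat_lit 73755) (nat_lit 8) (.e (nat_lit 557098) (nat_lit 13) (.e (nat_lit 172136) (nat_lit 15) (.e (nat_lit 2059) (nat_lit 142) (.e (nat_lit 704595) (nat_lit 5) .nil))))))) (.g (nat_lit 4) .nil .nil))))) (.nd (nat_lit 5) (.nd (nat_lit 6) 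
(.lf (nat_lit 267537) (.g (nat_lit 1169) (.e (nat_lit 188160) (nat_lit 19) (.e (nat_lit 647195) (nat_lit 9) (.e (nat_lit 1234) (nat_lit 91) (.e (nat_lit 90125) (nat_lit 9) .nil)))) .nil)) 
(.lf (nat_lit 267601) (.g (nat_lit 1265) (.e (nat_lit 180266) (nat_lit 22) (.e (nat_lit 671762) (nat_lit 4) (.e (nat_lit 65580) (nat_lit 6) (.e (nat_lit 147466) (nat_lit 9) .nil)))) .nil))) (.nd (nat_lit 6) 
(.lf (nat_lit 267569) (.g (nat_lit 1498) (.e (nat_lit 180263) (nat_lit 21) (.e (nat_lit 663580) (nat_lit 9) (.e (nat_lit 2611) (nat_lit 163) (.e (nat_lit 164332) (nat_lit 230) (.e (nat_lit 163885) (nat_lit 5) .nil))))) .nil)) 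
(.lf (nat_lit 267633) (.g (nat_lit 1643) (.e (nat_lit 180268) (nat_lit 24) (.e (nat_lit 688182) (nat_lit 17) (.e (nat_lit 73755) (nat_lit 8) (.e (nat_lit 557105) (nat_lit 14) (.e (nat_lit 180233) (nat_lit 0) .nil))))) .nil))))) (.nd (nat_lit 4) (.nd (nat_lit 5) (.nd (nat_lit 6) 
(.lf (nat_lit 267529) (.g (nat_lit 578) (.e (nat_lit 180260) (nat_lit 18) (.e (nat_lit 639022) (nat_lit 17) (.e (nat_lit 73792) (nat_lit 45) (.e (nat_lit 1342) (nat_lit 101) (.e (nat_lit 278531) (nat_lit 0) (.e (nat_lit 5777) (nat_lit 317) .nil)))))) (.g (nat_lit 0) .nil .nil))) 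
(.lf (nat_lit 267593) (.g (nat_lit 1202) (.e (nat_lit 180266) (nat_lit 22) (.e (nat_lit 671761) (nat_lit 4) (.e (nat_lit 65580) (nat_lit 6) (.e (nat_lit 147467) (nat_lit 9) (.e (nat_lit 297) (nat_lit 22) .nil))))) .nil))) (.nd (nat_lit 6) 
(.lf (nat_lit 267561) (.g (nat_lit 499) (.e (nat_lit 180262) (nat_lit 21) (.e (nat_lit 663567) (nat_lit 4) (.e (nat_lit 65578) (nat_lit 6) .nil))) .nil)) 
(.lf (nat_lit 267625) (.g (nat_lit 2377) (.e (nat_lit 180268) (nat_lit 24) (.e (nat_lit 688182) (nat_lit 17) (.e (nat_lit 73755) (nat_lit 8) (.e (nat_lit 557098) (nat_lit 13) (.e (nat_lit 172136) (nat_lit 15) .nil))))) .nil)))) (.nd (nat_lit 5) (.nd (nat_lit 6) 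
(.lf (nat_lit 267545) (.g (nat_lit 2409) (.e (nat_lit 180261) (nat_lit 20) (.e (nat_lit 655364) (nat_lit 0) (.e (nat_lit 2964) (nat_lit 185) (.e (nat_lit 434209) (nat_lit 18) (.e (nat_lit 6272) (nat_lit 337) (.e (nat_lit 1207) (nat_lit 89) (.e (nat_lit 73754) (nat_lit 8) (.e (nat_lit 557103) (nat_lit 14) .nil)))))))) (.g (nat_lit 4) .nil .nil))) 
(.lf (nat_lit 267609) (.g (nat_lit 546) (.e (nat_lit 180268) (nat_lit 24) (.e (nat_lit 688177) (nat_lit 16) (.e (nat_lit 65569) (nat_lit 3) .nil))) .nil))) (.nd (nat_lit 6) 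
(.lf (nat_lit 267577) (.g (nat_lit 2086) (.e (nat_lit 180264) (nat_lit 21) (.e (nat_lit 663580) (nat_lit 9) (.e (nat_lit 2610) (nat_lit 163) (.e (nat_lit 164326) (nat_lit 230) (.e (nat_lit 163886) (nat_lit 5) .nil))))) .nil)) 
(.lf (nat_lit 267641) (.g (nat_lit 2155) (.e (nat_lit 180269) (nat_lit 25) (.e (nat_lit 696343) (nat_lit 8) (.e (nat_lit 172121) (nat_lit 13) (.e (nat_lit 483344) (nat_lit 17) (.e (nat_lit 6722) (nat_lit 362) .nil))))) (.g (nat_lit 5) .nil .nil))))))) (.nd (nat_lit 3) (.nd (nat_lit 4) (.nd (nat_lit 5) (.nd (nat_lit 6) 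
(.lf (nat_lit 267525) (.g (nat_lit 354) (.e (nat_lit 180260) (nat_lit 18) (.e (nat_lit 639022) (nat_lit 17) (.e (nat_lit 73791) (nat_lit 45) (.e (nat_lit 1343) (nat_lit 101) (.e (nat_lit 278532) (nat_lit 0) (.e (nat_lit 5777) (nat_lit 317) .nil)))))) (.g (nat_lit 0) .nil .nil))) 
(.lf (nat_lit 267589) (.g (nat_lit 1579) (.e (nat_lit 180265) (nat_lit 21) (.e (nat_lit 663583) (nat_lit 11) (.e (nat_lit 24622) (nat_lit 8) (.e (nat_lit 327708) (nat_lit 10) (.e (nat_lit 5394) (nat_lit 301) (.e (nat_lit 65280) (nat_lit 206) .nil)))))) (.g (nat_lit 5) .nil .nil)))) (.nd (nat_lit 6) 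
(.lf (nat_lit 267557) (.g (nat_lit 1267) (.e (nat_lit 180261) (nat_lit 20) (.e (nat_lit 655378) (nat_lit 4) (.e (nat_lit 172076) (nat_lit 6) (.e (nat_lit 254002) (nat_lit 13) .nil)))) .nil)) 
(.lf (nat_lit 267621) (.g (nat_lit 1292) (.e (nat_lit 180268) (nat_lit 24) (.e (nat_lit 688182) (nat_lit 17) (.e (nat_lit 73755) (nat_lit 8) (.e (nat_lit 557097) (nat_lit 13) .nil)))) .nil)))) (.nd (nat_lit 5) (.nd (nat_lit 6) 
(.lf (nat_lit 267541) (.g (nat_lit 409) (.e (nat_lit 188160) (nat_lit 19) (.e (nat_lit 647201) (nat_lit 12) (.e (nat_lit 57466) (nat_lit 23) .nil))) .nil)) 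
(.lf (nat_lit 267605) (.g (nat_lit 1547) (.e (nat_lit 180266) (nat_lit 22) (.e (nat_lit 671762) (nat_lit 4) (.e (nat_lit 65651) (nat_lit 27) (.e (nat_lit 426012) (nat_lit 0) (.e (nat_lit 7581) (nat_lit 405) .nil))))) .nil))) (.nd (nat_lit 6) 
(.lf (nat_lit 267573) (.g (nat_lit 1745) (.e (nat_lit 180263) (nat_lit 21) (.e (nat_lit 663583) (nat_lit 11) (.e (nat_lit 24617) (nat_lit 7) (.e (nat_lit 319527) (nat_lit 15) .nil)))) .nil)) 
(.lf (nat_lit 267637) (.g (nat_lit 503) (.e (nat_lit 180269) (nat_lit 25) (.e (nat_lit 696343) (nat_lit 8) (.e (nat_lit 172086) (nat_lit 9) (.e (nat_lit 426533) (nat_lit 28) .nil)))) .nil))))) (.nd (nat_lit 4) (.nd (nat_lit 5) (.nd (nat_lit 6) 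
(.lf (nat_lit 267533) (.g (nat_lit 504) (.e (nat_lit 180260) (nat_lit 18) (.e (nat_lit 639022) (nat_lit 17) (.e (nat_lit 73792) (nat_lit 45) (.e (nat_lit 1343) (nat_lit 101) (.e (nat_lit 278532) (nat_lit 0) (.e (nat_lit 5777) (nat_lit 317) .nil)))))) (.g (nat_lit 0) .nil .nil))) 
(.lf (nat_lit 267597) (.g (nat_lit 1562) (.e (nat_lit 180266) (nat_lit 22) (.e (nat_lit 671762) (nat_lit 4) (.e (nat_lit 65565) (nat_lit 1) (.e (nat_lit 57655) (nat_lit 152) (.e (nat_lit 1206) (nat_lit 89) .nil))))) .nil))) (.nd (nat_lit 6) 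
(.lf (nat_lit 267565) (.g (nat_lit 3543) (.e (nat_lit 180262) (nat_lit 21) (.e (nat_lit 663567) (nat_lit 4) (.e (nat_lit 65651) (nat_lit 27) (.e (nat_lit 426012) (nat_lit 0) (.e (nat_lit 7581) (nat_lit 405) (.e (nat_lit 57480) (nat_lit 28) (.e (nat_lit 557105) (nat_lit 14) .nil))))))) (.g (nat_lit 7) .nil .nil))) 
(.lf (nat_lit 267629) (.g (nat_lit 2077) (.e (nat_lit 180268) (nat_lit 24) (.e (nat_lit 688182) (nat_lit 17) (.e (nat_lit 73755) (nat_lit 8) (.e (nat_lit 557104) (nat_lit 14) (.e (nat_lit 180229) (nat_lit 0) .nil))))) .nil)))) (.nd (nat_lit 5) (.nd (nat_lit 6) 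
(.lf (nat_lit 267549) (.g (nat_lit 645) (.e (nat_lit 180261) (nat_lit 20) (.e (nat_lit 655378) (nat_lit 4) (.e (nat_lit 172034) (nat_lit 0) .nil))) .nil)) 
(.lf (nat_lit 267613) (.g (nat_lit 1695) (.e (nat_lit 180268) (nat_lit 24) (.e (nat_lit 688180) (nat_lit 17) (.e (nat_lit 73753) (nat_lit 8) (.e (nat_lit 557098) (nat_lit 13) (.e (nat_lit 172136) (nat_lit 15) (.e (nat_lit 2058) (nat_lit 142) (.e (nat_lit 704595) (nat_lit 5) .nil))))))) (.g (nat_lit 4) .nil .nil)))) (.nd (nat_lit 6) 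
(.lf (nat_lit 267581) (.g (nat_lit 3039) (.e (nat_lit 180265) (nat_lit 21) (.e (nat_lit 663555) (nat_lit 0) (.e (nat_lit 1399) (nat_lit 106) (.e (nat_lit 319531) (nat_lit 16) (.e (nat_lit 286748) (nat_lit 9) (.e (nat_lit 336295) (nat_lit 15) (.e (nat_lit 7936) (nat_lit 393) .nil))))))) (.g (nat_lit 6) .nil .nil))) 
(.lf (nat_lit 267645) (.g (nat_lit 1764) (.e (nat_lit 180269) (nat_lit 25) (.e (nat_lit 696344) (nat_lit 8) (.e (nat_lit 172067) (nat_lit 3) (.e (nat_lit 204837) (nat_lit 20) .nil)))) .nil))))))) (.nd (nat_lit 2) (.nd (nat_lit 3) (.nd (nat_lit 4) (.nd (nat_lit 5) (.nd (nat_lit 6) 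
(.lf (nat_lit 267523) (.g (nat_lit 428) (.e (nat_lit 180260) (nat_lit 18) (.e (nat_lit 639022) (nat_lit 17) (.e (nat_lit 73791) (nat_lit 45) (.e (nat_lit 1342) (nat_lit 101) (.e (nat_lit 278531) (nat_lit 0) (.e (nat_lit 5780) (nat_lit 317) .nil)))))) (.g (nat_lit 0) .nil .nil))) 
(.lf (nat_lit 267587) (.g (nat_lit 1963) (.e (nat_lit 180265) (nat_lit 21) (.e (nat_lit 663580) (nat_lit 9) (.e (nat_lit 2610) (nat_lit 163) (.e (nat_lit 164326) (nat_lit 230) (.e (nat_lit 163884) (nat_lit 5) .nil))))) .nil))) (.nd (nat_lit 6) 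
(.lf (nat_lit 267555) (.g (nat_lit 1292) (.e (nat_lit 180261) (nat_lit 20) (.e (nat_lit 655378) (nat_lit 4) (.e (nat_lit 172076) (nat_lit 6) (.e (nat_lit 253995) (nat_lit 12) .nil)))) .nil)) 
(.lf (nat_lit 267619) (.g (nat_lit 142) (.e (nat_lit 180268) (nat_lit 24) (.e (nat_lit 688182) (nat_lit 17) (.e (nat_lit 73755) (nat_lit 8) .nil))) .nil)))) (.nd (nat_lit 5) (.nd (nat_lit 6) 
(.lf (nat_lit 267539) (.g (nat_lit 1195) (.e (nat_lit 188160) (nat_lit 19) (.e (nat_lit 647195) (nat_lit 9) (.e (nat_lit 1234) (nat_lit 91) (.e (nat_lit 90133) (nat_lit 9) .nil)))) .nil)) 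
(.lf (nat_lit 267603) (.g (nat_lit 1664) (.e (nat_lit 180266) (nat_lit 22) (.e (nat_lit 671762) (nat_lit 4) (.e (nat_lit 65580) (nat_lit 6) (.e (nat_lit 147467) (nat_lit 9) (.e (nat_lit 305) (nat_lit 22) .nil))))) .nil))) (.nd (nat_lit 6) 
(.lf (nat_lit 267571) (.g (nat_lit 1354) (.e (nat_lit 180263) (nat_lit 21) (.e (nat_lit 663583) (nat_lit 11) (.e (nat_lit 24584) (nat_lit 0) (.e (nat_lit 6225) (nat_lit 334) (.e (nat_lit 123144) (nat_lit 248) .nil))))) .nil)) 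
(.lf (nat_lit 267635) (.g (nat_lit 1109) (.e (nat_lit 180269) (nat_lit 25) (.e (nat_lit 696343) (nat_lit 8) (.e (nat_lit 172085) (nat_lit 9) (.e (nat_lit 426533) (nat_lit 28) (.e (nat_lit 352000) (nat_lit 5) .nil))))) .nil))))) (.nd (nat_lit 4) (.nd (nat_lit 5) (.nd (nat_lit 6) 
(.lf (nat_lit 267531) (.g (nat_lit 568) (.e (nat_lit 180260) (nat_lit 18) (.e (nat_lit 639022) (nat_lit 17) (.e (nat_lit 73792) (nat_lit 45) (.e (nat_lit 1342) (nat_lit 101) (.e (nat_lit 278531) (nat_lit 0) (.e (nat_lit 5780) (nat_lit 317) .nil)))))) (.g (nat_lit 0) .nil .nil))) 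
(.lf (nat_lit 267595) (.g (nat_lit 633) (.e (nat_lit 180266) (nat_lit 22) (.e (nat_lit 671762) (nat_lit 4) (.e (nat_lit 65553) (nat_lit 0) .nil))) .nil))) (.nd (nat_lit 6) 
(.lf (nat_lit 267563) (.g (nat_lit 3840) (.e (nat_lit 180262) (nat_lit 21) (.e (nat_lit 663567) (nat_lit 4) (.e (nat_lit 65578) (nat_lit 6) (.e (nat_lit 147467) (nat_lit 9) (.e (nat_lit 297) (nat_lit 22) (.e (nat_lit 344133) (nat_lit 26) (.e (nat_lit 557105) (nat_lit 14) .nil))))))) (.g (nat_lit 7) .nil .nil))) 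
(.lf (nat_lit 267627) (.g (nat_lit 1049) (.e (nat_lit 180268) (nat_lit 24) (.e (nat_lit 688182) (nat_lit 17) (.e (nat_lit 73755) (nat_lit 8) (.e (nat_lit 557103) (nat_lit 14) .nil)))) .nil)))) (.nd (nat_lit 5) (.nd (nat_lit 6) 
(.lf (nat_lit 267547) (.g (nat_lit 1945) (.e (nat_lit 180261) (nat_lit 20) (.e (nat_lit 655364) (nat_lit 0) (.e (nat_lit 2964) (nat_lit 185) (.e (nat_lit 434209) (nat_lit 18) (.e (nat_lit 6410) (nat_lit 340) .nil))))) .nil)) 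
(.lf (nat_lit 267611) (.g (nat_lit 3661) (.e (nat_lit 180268) (nat_lit 24) (.e (nat_lit 688180) (nat_lit 17) (.e (nat_lit 73753) (nat_lit 8) (.e (nat_lit 557096) (nat_lit 13) (.e (nat_lit 172133) (nat_lit 15) (.e (nat_lit 2059) (nat_lit 142) (.e (nat_lit 704596) (nat_lit 5) .nil))))))) (.g (nat_lit 7) .nil .nil)))) (.nd (nat_lit 6) 
(.lf (nat_lit 267579) (.g (nat_lit 1071) (.e (nat_lit 180264) (nat_lit 21) (.e (nat_lit 663583) (nat_lit 11) (.e (nat_lit 24584) (nat_lit 0) (.e (nat_lit 6225) (nat_lit 334) .nil)))) .nil)) 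
(.lf (nat_lit 267643) (.g (nat_lit 2155) (.e (nat_lit 180269) (nat_lit 25) (.e (nat_lit 696343) (nat_lit 8) (.e (nat_lit 172122) (nat_lit 13) (.e (nat_lit 483346) (nat_lit 17) (.e (nat_lit 6724) (nat_lit 362) .nil))))) (.g (nat_lit 5) .nil .nil))))))) (.nd (nat_lit 3) (.nd (nat_lit 4) (.nd (nat_lit 5) (.nd (nat_lit 6) 
(.lf (nat_lit 267527) (.g (nat_lit 342) (.e (nat_lit 180260) (nat_lit 18) (.e (nat_lit 639022) (nat_lit 17) (.e (nat_lit 73791) (nat_lit 45) (.e (nat_lit 1343) (nat_lit 101) (.e (nat_lit 278532) (nat_lit 0) (.e (nat_lit 5780) (nat_lit 317) .nil)))))) (.g (nat_lit 0) .nil .nil))) 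
(.lf (nat_lit 267591) (.g (nat_lit 1912) (.e (nat_lit 180265) (nat_lit 21) (.e (nat_lit 663589) (nat_lit 14) (.e (nat_lit 2798) (nat_lit 180) (.e (nat_lit 303106) (nat_lit 0) (.e (nat_lit 3453) (nat_lit 216) .nil))))) .nil))) (.nd (nat_lit 6) 
(.lf (nat_lit 267559) (.g (nat_lit 2744) (.e (nat_lit 180261) (nat_lit 20) (.e (nat_lit 655380) (nat_lit 6) (.e (nat_lit 188455) (nat_lit 24) (.e (nat_lit 229678) (nat_lit 244) (.e (nat_lit 163850) (nat_lit 0) (.e (nat_lit 7936) (nat_lit 393) .nil)))))) (.g (nat_lit 4) .nil .nil))) 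
(.lf (nat_lit 267623) (.g (nat_lit 4228) (.e (nat_lit 180268) (nat_lit 24) (.e (nat_lit 688182) (nat_lit 17) (.e (nat_lit 73755) (nat_lit 8) (.e (nat_lit 557097) (nat_lit 13) (.e (nat_lit 172133) (nat_lit 15) (.e (nat_lit 2059) (nat_lit 142) (.e (nat_lit 704596) (nat_lit 5) .nil))))))) (.g (nat_lit 7) .nil .nil))))) (.nd (nat_lit 5) (.nd (nat_lit 6) 
(.lf (nat_lit 267543) (.g (nat_lit 1634) (.e (nat_lit 180261) (nat_lit 20) (.e (nat_lit 655364) (nat_lit 0) (.e (nat_lit 2964) (nat_lit 185) (.e (nat_lit 434202) (nat_lit 18) (.e (nat_lit 6412) (nat_lit 340) .nil))))) .nil)) 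
(.lf (nat_lit 267607) (.g (nat_lit 1857) (.e (nat_lit 180267) (nat_lit 23) (.e (nat_lit 679944) (nat_lit 5) (.e (nat_lit 1634) (nat_lit 114) (.e (nat_lit 385094) (nat_lit 49) (.e (nat_lit 778323) (nat_lit 5) (.e (nat_lit 81664) (nat_lit 37) .nil)))))) (.g (nat_lit 5) .nil .nil)))) (.nd (nat_lit 6) 
(.lf (nat_lit 267575) (.g (nat_lit 2054) (.e (nat_lit 180264) (nat_lit 21) (.e (nat_lit 663552) (nat_lit 0) (.e (nat_lit 1239) (nat_lit 91) (.e (nat_lit 90170) (nat_lit 13) (.e (nat_lit 172113) (nat_lit 10) .nil))))) .nil)) 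
(.lf (nat_lit 267639) (.g (nat_lit 851) (.e (nat_lit 180269) (nat_lit 25) (.e (nat_lit 696343) (nat_lit 8) (.e (nat_lit 172087) (nat_lit 9) (.e (nat_lit 426535) (nat_lit 28) (.e (nat_lit 352000) (nat_lit 5) .nil))))) (.g (nat_lit 4) .nil .nil)))))) (.nd (nat_lit 4) (.nd (nat_lit 5) (.nd (nat_lit 6) 
(.lf (nat_lit 267535) (.g (nat_lit 492) (.e (nat_lit 180260) (nat_lit 18) (.e (nat_lit 639022) (nat_lit 17) (.e (nat_lit 73792) (nat_lit 45) (.e (nat_lit 1343) (nat_lit 101) (.e (nat_lit 278532) (nat_lit 0) (.e (nat_lit 5780) (nat_lit 317) .nil)))))) (.g (nat_lit 0) .nil .nil))) 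
(.lf (nat_lit 267599) (.g (nat_lit 633) (.e (nat_lit 180266) (nat_lit 22) (.e (nat_lit 671762) (nat_lit 4) (.e (nat_lit 65578) (nat_lit 6) .nil))) .nil))) (.nd (nat_lit 6) 
(.lf (nat_lit 267567) (.g (nat_lit 342) (.e (nat_lit 180263) (nat_lit 21) (.e (nat_lit 663568) (nat_lit 5) (.e (nat_lit 81664) (nat_lit 29) .nil))) .nil)) 
(.lf (nat_lit 267631) (.g (nat_lit 1844) (.e (nat_lit 180268) (nat_lit 24) (.e (nat_lit 688182) (nat_lit 17) (.e (nat_lit 73755) (nat_lit 8) (.e (nat_lit 557104) (nat_lit 14) (.e (nat_lit 180233) (nat_lit 0) .nil))))) .nil)))) (.nd (nat_lit 5) (.nd (nat_lit 6) 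
(.lf (nat_lit 267551) (.g (nat_lit 1115) (.e (nat_lit 180261) (nat_lit 20) (.e (nat_lit 655378) (nat_lit 4) (.e (nat_lit 172061) (nat_lit 1) (.e (nat_lit 164163) (nat_lit 152) .nil)))) .nil)) 
(.lf (nat_lit 267615) (.g (nat_lit 4358) (.e (nat_lit 180268) (nat_lit 24) (.e (nat_lit 688181) (nat_lit 17) (.e (nat_lit 73755) (nat_lit 8) (.e (nat_lit 557097) (nat_lit 13) (.e (nat_lit 172133) (nat_lit 15) (.e (nat_lit 2059) (nat_lit 142) (.e (nat_lit 704595) (nat_lit 5) .nil))))))) (.g (nat_lit 7) .nil .nil)))) (.nd (nat_lit 6) 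
(.lf (nat_lit 267583) (.g (nat_lit 2586) (.e (nat_lit 180265) (nat_lit 21) (.e (nat_lit 663572) (nat_lit 9) (.e (nat_lit 232) (nat_lit 21) (.e (nat_lit 336060) (nat_lit 7) (.e (nat_lit 319533) (nat_lit 16) (.e (nat_lit 286724) (nat_lit 0) (.e (nat_lit 7936) (nat_lit 362) .nil))))))) (.g (nat_lit 6) .nil .nil))) 
(.lf (nat_lit 267647) (.g (nat_lit 1565) (.e (nat_lit 180269) (nat_lit 25) (.e (nat_lit 696344) (nat_lit 8) (.e (nat_lit 172085) (nat_lit 9) (.e (nat_lit 426533) (nat_lit 28) (.e (nat_lit 352000) (nat_lit 5) .nil))))) (.g (nat_lit 4) .nil .nil))))))))))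

noncomputable def tv3437 : DT := (.nd (nat_lit 0) (.nd (nat_lit 1) (.nd (nat_lit 2) (.nd (nat_lit 3) (.nd (nat_lit 4) (.nd (nat_lit 5) (.nd (nat_lit 6) 
(.lf (nat_lit 267648) (.g (nat_lit 1370) (.e (nat_lit 180269) (nat_lit 25) (.e (nat_lit 696344) (nat_lit 8) (.e (nat_lit 172086) (nat_lit 9) (.e (nat_lit 426533) (nat_lit 28) (.e (nat_lit 352000) (nat_lit 5) .nil))))) (.g (nat_lit 4) .nil .nil))) 
(.lf (nat_lit 267712) (.g (nat_lit 2176) (.e (nat_lit 180271) (nat_lit 26) (.e (nat_lit 704737) (nat_lit 11) (.e (nat_lit 16431) (nat_lit 9) (.e (nat_lit 426548) (nat_lit 31) (.e (nat_lit 376576) (nat_lit 5) .nil))))) (.g (nat_lit 4) .nil .nil)))) (.nd (nat_lit 6) 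
(.lf (nat_lit 267680) (.g (nat_lit 1498) (.e (nat_lit 180271) (nat_lit 26) (.e (nat_lit 704735) (nat_lit 11) (.e (nat_lit 16435) (nat_lit 9) (.e (nat_lit 426533) (nat_lit 28) (.e (nat_lit 352000) (nat_lit 5) .nil))))) (.g (nat_lit 4) .nil .nil))) 
(.lf (nat_lit 267744) (.g (nat_lit 2005) (.e (nat_lit 180271) (nat_lit 26) (.e (nat_lit 704738) (nat_lit 11) (.e (nat_lit 16406) (nat_lit 1) (.e (nat_lit 164421) (nat_lit 272) (.e (nat_lit 1210) (nat_lit 89) (.e (nat_lit 81664) (nat_lit 37) .nil)))))) (.g (nat_lit 5) .nil .nil))))) (.nd (nat_lit 5) (.nd (nat_lit 6) 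
(.lf (nat_lit 267664) (.g (nat_lit 2670) (.e (nat_lit 180271) (nat_lit 26) (.e (nat_lit 704628) (nat_lit 9) (.e (nat_lit 1277) (nat_lit 94) (.e (nat_lit 114714) (nat_lit 22) (.e (nat_lit 90172) (nat_lit 14) (.e (nat_lit 180229) (nat_lit 0) (.e (nat_lit 5548) (nat_lit 306) (.e (nat_lit 2640) (nat_lit 165) .nil)))))))) (.g (nat_lit 5) .nil .nil))) 
(.lf (nat_lit 267728) (.g (nat_lit 3513) (.e (nat_lit 180271) (nat_lit 26) (.e (nat_lit 704737) (nat_lit 11) (.e (nat_lit 16439) (nat_lit 9) (.e (nat_lit 426528) (nat_lit 27) (.e (nat_lit 335894) (nat_lit 0) (.e (nat_lit 6722) (nat_lit 362) .nil)))))) (.g (nat_lit 6) .nil .nil)))) (.nd (nat_lit 6) 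
(.lf (nat_lit 267696) (.g (nat_lit 964) (.e (nat_lit 180271) (nat_lit 26) (.e (nat_lit 704737) (nat_lit 11) (.e (nat_lit 16406) (nat_lit 1) .nil))) .nil)) 
(.lf (nat_lit 267760) (.g (nat_lit 1899) (.e (nat_lit 180271) (nat_lit 26) (.e (nat_lit 704738) (nat_lit 11) (.e (nat_lit 16432) (nat_lit 9) (.e (nat_lit 426530) (nat_lit 27) (.e (nat_lit 335872) (nat_lit 0) (.e (nat_lit 6723) (nat_lit 362) .nil)))))) (.g (nat_lit 4) .nil .nil)))))) (.nd (nat_lit 4) (.nd (nat_lit 5) (.nd (nat_lit 6) 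
(.lf (nat_lit 267656) (.g (nat_lit 1036) (.e (nat_lit 180270) (nat_lit 26) (.e (nat_lit 704741) (nat_lit 11) (.e (nat_lit 16436) (nat_lit 9) (.e (nat_lit 426550) (nat_lit 31) (.e (nat_lit 376576) (nat_lit 5) .nil))))) .nil)) 
(.lf (nat_lit 267720) (.g (nat_lit 2199) (.e (nat_lit 180271) (nat_lit 26) (.e (nat_lit 704737) (nat_lit 11) (.e (nat_lit 16433) (nat_lit 9) (.e (nat_lit 426550) (nat_lit 31) (.e (nat_lit 376576) (nat_lit 5) .nil))))) (.g (nat_lit 4) .nil .nil)))) (.nd (nat_lit 6) 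
(.lf (nat_lit 267688) (.g (nat_lit 1813) (.e (nat_lit 180271) (nat_lit 26) (.e (nat_lit 704736) (nat_lit 11) (.e (nat_lit 16435) (nat_lit 9) (.e (nat_lit 426533) (nat_lit 28) (.e (nat_lit 352000) (nat_lit 5) .nil))))) (.g (nat_lit 4) .nil .nil))) 
(.lf (nat_lit 267752) (.g (nat_lit 2589) (.e (nat_lit 180271) (nat_lit 26) (.e (nat_lit 704738) (nat_lit 11) (.e (nat_lit 16431) (nat_lit 9) (.e (nat_lit 426499) (nat_lit 27) (.e (nat_lit 335895) (nat_lit 0) (.e (nat_lit 6722) (nat_lit 362) .nil)))))) (.g (nat_lit 4) .nil .nil))))) (.nd (nat_lit 5) (.nd (nat_lit 6) 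
(.lf (nat_lit 267672) (.g (nat_lit 1892) (.e (nat_lit 180271) (nat_lit 26) (.e (nat_lit 704629) (nat_lit 9) (.e (nat_lit 452) (nat_lit 33) (.e (nat_lit 434209) (nat_lit 18) (.e (nat_lit 4605) (nat_lit 269) .nil))))) .nil)) 
(.lf (nat_lit 267736) (.g (nat_lit 2345) (.e (nat_lit 180271) (nat_lit 26) (.e (nat_lit 704738) (nat_lit 11) (.e (nat_lit 16392) (nat_lit 0) (.e (nat_lit 7342) (nat_lit 388) (.e (nat_lit 299) (nat_lit 22) (.e (nat_lit 352000) (nat_lit 5) .nil)))))) (.g (nat_lit 5) .nil .nil)))) (.nd (nat_lit 6) 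
(.lf (nat_lit 267704) (.g (nat_lit 1569) (.e (nat_lit 180271) (nat_lit 26) (.e (nat_lit 704737) (nat_lit 11) (.e (nat_lit 16431) (nat_lit 9) (.e (nat_lit 426512) (nat_lit 27) .nil)))) .nil)) 
(.lf (nat_lit 267768) (.g (nat_lit 1817) (.e (nat_lit 180271) (nat_lit 26) (.e (nat_lit 704738) (nat_lit 11) (.e (nat_lit 16434) (nat_lit 9) (.e (nat_lit 426550) (nat_lit 31) (.e (nat_lit 376576) (nat_lit 5) .nil))))) (.g (nat_lit 4) .nil .nil))))))) (.nd (nat_lit 3) (.nd (nat_lit 4) (.nd (nat_lit 5) (.nd (nat_lit 6) 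
(.lf (nat_lit 267652) (.g (nat_lit 615) (.e (nat_lit 180269) (nat_lit 25) (.e (nat_lit 696344) (nat_lit 8) (.e (nat_lit 172095) (nat_lit 9) .nil))) .nil)) 
(.lf (nat_lit 267716) (.g (nat_lit 2235) (.e (nat_lit 180271) (nat_lit 26) (.e (nat_lit 704737) (nat_lit 11) (.e (nat_lit 16432) (nat_lit 9) (.e (nat_lit 426550) (nat_lit 31) (.e (nat_lit 376576) (nat_lit 5) .nil))))) (.g (nat_lit 4) .nil .nil)))) (.nd (nat_lit 6) 
(.lf (nat_lit 267684) (.g (nat_lit 1920) (.e (nat_lit 180271) (nat_lit 26) (.e (nat_lit 704736) (nat_lit 11) (.e (nat_lit 16431) (nat_lit 9) (.e (nat_lit 426528) (nat_lit 27) (.e (nat_lit 335894) (nat_lit 0) (.e (nat_lit 6722) (nat_lit 362) .nil)))))) (.g (nat_lit 4) .nil .nil))) 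
(.lf (nat_lit 267748) (.g (nat_lit 2939) (.e (nat_lit 180271) (nat_lit 26) (.e (nat_lit 704738) (nat_lit 11) (.e (nat_lit 16407) (nat_lit 1) (.e (nat_lit 164422) (nat_lit 272) (.e (nat_lit 1209) (nat_lit 89) (.e (nat_lit 81664) (nat_lit 37) .nil)))))) (.g (nat_lit 5) .nil .nil))))) (.nd (nat_lit 5) (.nd (nat_lit 6) 
(.lf (nat_lit 267668) (.g (nat_lit 1760) (.e (nat_lit 180271) (nat_lit 26) (.e (nat_lit 704629) (nat_lit 9) (.e (nat_lit 442) (nat_lit 33) (.e (nat_lit 442112) (nat_lit 8) .nil)))) .nil)) 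
(.lf (nat_lit 267732) (.g (nat_lit 506) (.e (nat_lit 180271) (nat_lit 26) (.e (nat_lit 704737) (nat_lit 11) (.e (nat_lit 16446) (nat_lit 9) .nil))) .nil))) (.nd (nat_lit 6) 
(.lf (nat_lit 267700) (.g (nat_lit 2226) (.e (nat_lit 180271) (nat_lit 26) (.e (nat_lit 704737) (nat_lit 11) (.e (nat_lit 16431) (nat_lit 9) (.e (nat_lit 426489) (nat_lit 27) (.e (nat_lit 335965) (nat_lit 0) (.e (nat_lit 7936) (nat_lit 362) .nil)))))) (.g (nat_lit 4) .nil .nil))) 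
(.lf (nat_lit 267764) (.g (nat_lit 2142) (.e (nat_lit 180271) (nat_lit 26) (.e (nat_lit 704738) (nat_lit 11) (.e (nat_lit 16433) (nat_lit 9) (.e (nat_lit 426535) (nat_lit 28) (.e (nat_lit 352000) (nat_lit 5) .nil))))) (.g (nat_lit 4) .nil .nil)))))) (.nd (nat_lit 4) (.nd (nat_lit 5) (.nd (nat_lit 6) 
(.lf (nat_lit 267660) (.g (nat_lit 1128) (.e (nat_lit 180270) (nat_lit 26) (.e (nat_lit 704741) (nat_lit 11) (.e (nat_lit 16468) (nat_lit 13) (.e (nat_lit 483354) (nat_lit 17) (.e (nat_lit 7936) (nat_lit 362) .nil))))) (.g (nat_lit 4) .nil .nil))) 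
(.lf (nat_lit 267724) (.g (nat_lit 2024) (.e (nat_lit 180271) (nat_lit 26) (.e (nat_lit 704737) (nat_lit 11) (.e (nat_lit 16436) (nat_lit 9) (.e (nat_lit 426530) (nat_lit 27) .nil)))) .nil))) (.nd (nat_lit 6) 
(.lf (nat_lit 267692) (.g (nat_lit 1308) (.e (nat_lit 180271) (nat_lit 26) (.e (nat_lit 704737) (nat_lit 11) (.e (nat_lit 16388) (nat_lit 0) (.e (nat_lit 7309) (nat_lit 388) .nil)))) .nil)) 
(.lf (nat_lit 267756) (.g (nat_lit 1127) (.e (nat_lit 180271) (nat_lit 26) (.e (nat_lit 704738) (nat_lit 11) (.e (nat_lit 16431) (nat_lit 9) (.e (nat_lit 426530) (nat_lit 27) .nil)))) .nil)))) (.nd (nat_lit 5) (.nd (nat_lit 6) 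
(.lf (nat_lit 267676) (.g (nat_lit 2779) (.e (nat_lit 180271) (nat_lit 26) (.e (nat_lit 704629) (nat_lit 9) (.e (nat_lit 1276) (nat_lit 94) (.e (nat_lit 114714) (nat_lit 22) (.e (nat_lit 90172) (nat_lit 14) (.e (nat_lit 180229) (nat_lit 0) (.e (nat_lit 5548) (nat_lit 306) (.e (nat_lit 2640) (nat_lit 165) .nil)))))))) (.g (nat_lit 5) .nil .nil))) 
(.lf (nat_lit 267740) (.g (nat_lit 1678) (.e (nat_lit 180271) (nat_lit 26) (.e (nat_lit 704738) (nat_lit 11) (.e (nat_lit 16397) (nat_lit 0) (.e (nat_lit 3349) (nat_lit 206) (.e (nat_lit 606227) (nat_lit 5) (.e (nat_lit 81664) (nat_lit 37) .nil)))))) (.g (nat_lit 4) .nil .nil)))) (.nd (nat_lit 6) 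
(.lf (nat_lit 267708) (.g (nat_lit 2416) (.e (nat_lit 180271) (nat_lit 26) (.e (nat_lit 704737) (nat_lit 11) (.e (nat_lit 16431) (nat_lit 9) (.e (nat_lit 426533) (nat_lit 28) (.e (nat_lit 352000) (nat_lit 5) .nil))))) (.g (nat_lit 4) .nil .nil))) 
(.lf (nat_lit 267772) (.g (nat_lit 2294) (.e (nat_lit 180271) (nat_lit 26) (.e (nat_lit 704738) (nat_lit 11) (.e (nat_lit 16436) (nat_lit 9) (.e (nat_lit 426530) (nat_lit 27) (.e (nat_lit 335874) (nat_lit 0) (.e (nat_lit 6723) (nat_lit 362) .nil)))))) (.g (nat_lit 4) .nil .nil)))))))) (.nd (nat_lit 2) (.nd (nat_lit 3) (.nd (nat_lit 4) (.nd (nat_lit 5) (.nd (nat_lit 6) 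
(.lf (nat_lit 267650) (.g (nat_lit 1135) (.e (nat_lit 180269) (nat_lit 25) (.e (nat_lit 696344) (nat_lit 8) (.e (nat_lit 172087) (nat_lit 9) (.e (nat_lit 426534) (nat_lit 28) (.e (nat_lit 352000) (nat_lit 5) .nil))))) (.g (nat_lit 4) .nil .nil))) 
(.lf (nat_lit 267714) (.g (nat_lit 2210) (.e (nat_lit 180271) (nat_lit 26) (.e (nat_lit 704737) (nat_lit 11) (.e (nat_lit 16431) (nat_lit 9) (.e (nat_lit 426551) (nat_lit 31) (.e (nat_lit 376576) (nat_lit 5) .nil))))) (.g (nat_lit 4) .nil .nil)))) (.nd (nat_lit 6) 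
(.lf (nat_lit 267682) (.g (nat_lit 1584) (.e (nat_lit 180271) (nat_lit 26) (.e (nat_lit 704735) (nat_lit 11) (.e (nat_lit 16438) (nat_lit 9) (.e (nat_lit 426533) (nat_lit 28) (.e (nat_lit 352000) (nat_lit 5) .nil))))) (.g (nat_lit 4) .nil .nil))) 
(.lf (nat_lit 267746) (.g (nat_lit 2491) (.e (nat_lit 180271) (nat_lit 26) (.e (nat_lit 704738) (nat_lit 11) (.e (nat_lit 16407) (nat_lit 1) (.e (nat_lit 164421) (nat_lit 272) (.e (nat_lit 1210) (nat_lit 89) (.e (nat_lit 81664) (nat_lit 37) .nil)))))) (.g (nat_lit 5) .nil .nil))))) (.nd (nat_lit 5) (.nd (nat_lit 6) 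
(.lf (nat_lit 267666) (.g (nat_lit 2737) (.e (nat_lit 180271) (nat_lit 26) (.e (nat_lit 704629) (nat_lit 9) (.e (nat_lit 375) (nat_lit 32) (.e (nat_lit 426109) (nat_lit 1) (.e (nat_lit 164422) (nat_lit 272) .nil))))) .nil)) 
(.lf (nat_lit 267730) (.g (nat_lit 2448) (.e (nat_lit 180271) (nat_lit 26) (.e (nat_lit 704737) (nat_lit 11) (.e (nat_lit 16444) (nat_lit 9) (.e (nat_lit 426503) (nat_lit 27) (.e (nat_lit 335895) (nat_lit 0) (.e (nat_lit 6724) (nat_lit 362) .nil)))))) (.g (nat_lit 6) .nil .nil)))) (.nd (nat_lit 6) 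
(.lf (nat_lit 267698) (.g (nat_lit 1552) (.e (nat_lit 180271) (nat_lit 26) (.e (nat_lit 704737) (nat_lit 11) (.e (nat_lit 16431) (nat_lit 9) (.e (nat_lit 426489) (nat_lit 27) .nil)))) .nil)) 
(.lf (nat_lit 267762) (.g (nat_lit 1819) (.e (nat_lit 180271) (nat_lit 26) (.e (nat_lit 704738) (nat_lit 11) (.e (nat_lit 16432) (nat_lit 9) (.e (nat_lit 426550) (nat_lit 31) (.e (nat_lit 376576) (nat_lit 5) .nil))))) (.g (nat_lit 4) .nil .nil)))))) (.nd (nat_lit 4) (.nd (nat_lit 5) (.nd (nat_lit 6) 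
(.lf (nat_lit 267658) (.g (nat_lit 1274) (.e (nat_lit 180270) (nat_lit 26) (.e (nat_lit 704741) (nat_lit 11) (.e (nat_lit 16438) (nat_lit 9) (.e (nat_lit 426533) (nat_lit 28) (.e (nat_lit 352000) (nat_lit 5) .nil))))) (.g (nat_lit 4) .nil .nil))) 
(.lf (nat_lit 267722) (.g (nat_lit 1269) (.e (nat_lit 180271) (nat_lit 26) (.e (nat_lit 704737) (nat_lit 11) (.e (nat_lit 16435) (nat_lit 9) (.e (nat_lit 426530) (nat_lit 27) .nil)))) .nil))) (.nd (nat_lit 6) 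
(.lf (nat_lit 267690) (.g (nat_lit 1812) (.e (nat_lit 180271) (nat_lit 26) (.e (nat_lit 704736) (nat_lit 11) (.e (nat_lit 16438) (nat_lit 9) (.e (nat_lit 426533) (nat_lit 28) (.e (nat_lit 352000) (nat_lit 5) .nil))))) (.g (nat_lit 4) .nil .nil))) 
(.lf (nat_lit 267754) (.g (nat_lit 3963) (.e (nat_lit 180271) (nat_lit 26) (.e (nat_lit 704738) (nat_lit 11) (.e (nat_lit 16431) (nat_lit 9) (.e (nat_lit 426528) (nat_lit 27) (.e (nat_lit 335894) (nat_lit 0) (.e (nat_lit 6722) (nat_lit 362) .nil)))))) (.g (nat_lit 6) .nil .nil))))) (.nd (nat_lit 5) (.nd (nat_lit 6) 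
(.lf (nat_lit 267674) (.g (nat_lit 1947) (.e (nat_lit 180271) (nat_lit 26) (.e (nat_lit 704629) (nat_lit 9) (.e (nat_lit 452) (nat_lit 33) (.e (nat_lit 434209) (nat_lit 18) (.e (nat_lit 4605) (nat_lit 269) (.e (nat_lit 1210) (nat_lit 89) (.e (nat_lit 81664) (nat_lit 37) .nil))))))) (.g (nat_lit 4) .nil .nil))) 
(.lf (nat_lit 267738) (.g (nat_lit 737) (.e (nat_lit 180271) (nat_lit 26) (.e (nat_lit 704738) (nat_lit 11) (.e (nat_lit 16396) (nat_lit 0) .nil))) .nil))) (.nd (nat_lit 6) 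
(.lf (nat_lit 267706) (.g (nat_lit 4075) (.e (nat_lit 180271) (nat_lit 26) (.e (nat_lit 704737) (nat_lit 11) (.e (nat_lit 16431) (nat_lit 9) (.e (nat_lit 426528) (nat_lit 27) (.e (nat_lit 335894) (nat_lit 0) (.e (nat_lit 6722) (nat_lit 362) .nil)))))) (.g (nat_lit 6) .nil .nil))) 
(.lf (nat_lit 267770) (.g (nat_lit 2405) (.e (nat_lit 180271) (nat_lit 26) (.e (nat_lit 704738) (nat_lit 11) (.e (nat_lit 16436) (nat_lit 9) (.e (nat_lit 426530) (nat_lit 27) (.e (nat_lit 335872) (nat_lit 0) (.e (nat_lit 6723) (nat_lit 362) .nil)))))) (.g (nat_lit 5) .nil .nil))))))) (.nd (nat_lit 3) (.nd (nat_lit 4) (.nd (nat_lit 5) (.nd (nat_lit 6) 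
(.lf (nat_lit 267654) (.g (nat_lit 485) (.e (nat_lit 180269) (nat_lit 25) (.e (nat_lit 696344) (nat_lit 8) (.e (nat_lit 172097) (nat_lit 9) .nil))) .nil)) 
(.lf (nat_lit 267718) (.g (nat_lit 2412) (.e (nat_lit 180271) (nat_lit 26) (.e (nat_lit 704737) (nat_lit 11) (.e (nat_lit 16433) (nat_lit 9) (.e (nat_lit 426530) (nat_lit 27) (.e (nat_lit 335872) (nat_lit 0) .nil))))) .nil))) (.nd (nat_lit 6) 
(.lf (nat_lit 267686) (.g (nat_lit 1922) (.e (nat_lit 180271) (nat_lit 26) (.e (nat_lit 704736) (nat_lit 11) (.e (nat_lit 16433) (nat_lit 9) (.e (nat_lit 426535) (nat_lit 28) (.e (nat_lit 352000) (nat_lit 5) .nil))))) (.g (nat_lit 4) .nil .nil))) 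
(.lf (nat_lit 267750) (.g (nat_lit 2414) (.e (nat_lit 180271) (nat_lit 26) (.e (nat_lit 704738) (nat_lit 11) (.e (nat_lit 16407) (nat_lit 1) (.e (nat_lit 164422) (nat_lit 272) (.e (nat_lit 1211) (nat_lit 89) (.e (nat_lit 81664) (nat_lit 37) .nil)))))) (.g (nat_lit 4) .nil .nil))))) (.nd (nat_lit 5) (.nd (nat_lit 6) 
(.lf (nat_lit 267670) (.g (nat_lit 1760) (.e (nat_lit 180271) (nat_lit 26) (.e (nat_lit 704629) (nat_lit 9) (.e (nat_lit 442) (nat_lit 33) (.e (nat_lit 434208) (nat_lit 18) .nil)))) .nil)) 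
(.lf (nat_lit 267734) (.g (nat_lit 1585) (.e (nat_lit 180271) (nat_lit 26) (.e (nat_lit 704737) (nat_lit 11) (.e (nat_lit 16465) (nat_lit 13) (.e (nat_lit 483359) (nat_lit 17) .nil)))) .nil))) (.nd (nat_lit 6) 
(.lf (nat_lit 267702) (.g (nat_lit 3051) (.e (nat_lit 180271) (nat_lit 26) (.e (nat_lit 704737) (nat_lit 11) (.e (nat_lit 16431) (nat_lit 9) (.e (nat_lit 426499) (nat_lit 27) (.e (nat_lit 335894) (nat_lit 0) (.e (nat_lit 6722) (nat_lit 362) .nil)))))) (.g (nat_lit 4) .nil .nil))) 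
(.lf (nat_lit 267766) (.g (nat_lit 884) (.e (nat_lit 180271) (nat_lit 26) (.e (nat_lit 704738) (nat_lit 11) (.e (nat_lit 16434) (nat_lit 9) (.e (nat_lit 426491) (nat_lit 27) .nil)))) .nil))))) (.nd (nat_lit 4) (.nd (nat_lit 5) (.nd (nat_lit 6) 
(.lf (nat_lit 267662) (.g (nat_lit 2050) (.e (nat_lit 180271) (nat_lit 26) (.e (nat_lit 704628) (nat_lit 9) (.e (nat_lit 452) (nat_lit 33) (.e (nat_lit 434209) (nat_lit 18) (.e (nat_lit 4605) (nat_lit 269) .nil))))) .nil)) 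
(.lf (nat_lit 267726) (.g (nat_lit 1674) (.e (nat_lit 180271) (nat_lit 26) (.e (nat_lit 704737) (nat_lit 11) (.e (nat_lit 16437) (nat_lit 9) (.e (nat_lit 426533) (nat_lit 28) (.e (nat_lit 352000) (nat_lit 5) .nil))))) (.g (nat_lit 4) .nil .nil)))) (.nd (nat_lit 6) 
(.lf (nat_lit 267694) (.g (nat_lit 900) (.e (nat_lit 180271) (nat_lit 26) (.e (nat_lit 704737) (nat_lit 11) (.e (nat_lit 16396) (nat_lit 0) .nil))) .nil)) 
(.lf (nat_lit 267758) (.g (nat_lit 1802) (.e (nat_lit 180271) (nat_lit 26) (.e (nat_lit 704738) (nat_lit 11) (.e (nat_lit 16431) (nat_lit 9) (.e (nat_lit 426550) (nat_lit 31) (.e (nat_lit 376576) (nat_lit 5) .nil))))) .nil)))) (.nd (nat_lit 5) (.nd (nat_lit 6) 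
(.lf (nat_lit 267678) (.g (nat_lit 1457) (.e (nat_lit 180271) (nat_lit 26) (.e (nat_lit 704732) (nat_lit 11) (.e (nat_lit 16438) (nat_lit 9) (.e (nat_lit 426533) (nat_lit 28) (.e (nat_lit 352000) (nat_lit 5) .nil))))) (.g (nat_lit 4) .nil .nil))) 
(.lf (nat_lit 267742) (.g (nat_lit 841) (.e (nat_lit 180271) (nat_lit 26) (.e (nat_lit 704738) (nat_lit 11) (.e (nat_lit 16406) (nat_lit 1) (.e (nat_lit 164421) (nat_lit 272) .nil)))) .nil))) (.nd (nat_lit 6) 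
(.lf (nat_lit 267710) (.g (nat_lit 2269) (.e (nat_lit 180271) (nat_lit 26) (.e (nat_lit 704737) (nat_lit 11) (.e (nat_lit 16431) (nat_lit 9) (.e (nat_lit 426535) (nat_lit 28) (.e (nat_lit 352000) (nat_lit 5) .nil))))) (.g (nat_lit 4) .nil .nil))) 
(.lf (nat_lit 267774) (.g (nat_lit 2249) (.e (nat_lit 180271) (nat_lit 26) (.e (nat_lit 704738) (nat_lit 11) (.e (nat_lit 16436) (nat_lit 9) (.e (nat_lit 426534) (nat_lit 28) (.e (nat_lit 352000) (nat_lit 5) .nil))))) (.g (nat_lit 4) .nil .nil))))))))) (.nd (nat_lit 1) (.nd (nat_lit 2) (.nd (nat_lit 3) (.nd (nat_lit 4) (.nd (nat_lit 5) (.nd (nat_lit 6) 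
(.lf (nat_lit 267649) (.g (nat_lit 497) (.e (nat_lit 180269) (nat_lit 25) (.e (nat_lit 696344) (nat_lit 8) (.e (nat_lit 172087) (nat_lit 9) .nil))) .nil)) 
(.lf (nat_lit 267713) (.g (nat_lit 2168) (.e (nat_lit 180271) (nat_lit 26) (.e (nat_lit 704737) (nat_lit 11) (.e (nat_lit 16431) (nat_lit 9) (.e (nat_lit 426550) (nat_lit 31) (.e (nat_lit 376576) (nat_lit 5) .nil))))) (.g (nat_lit 4) .nil .nil)))) (.nd (nat_lit 6) 
(.lf (nat_lit 267681) (.g (nat_lit 999) (.e (nat_lit 180271) (nat_lit 26) (.e (nat_lit 704735) (nat_lit 11) (.e (nat_lit 16437) (nat_lit 9) (.e (nat_lit 426533) (nat_lit 28) (.e (nat_lit 352000) (nat_lit 5) .nil))))) (.g (nat_lit 4) .nil .nil))) 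
(.lf (nat_lit 267745) (.g (nat_lit 2921) (.e (nat_lit 180271) (nat_lit 26) (.e (nat_lit 704738) (nat_lit 11) (.e (nat_lit 16407) (nat_lit 1) (.e (nat_lit 164421) (nat_lit 272) (.e (nat_lit 1209) (nat_lit 89) (.e (nat_lit 81664) (nat_lit 37) .nil)))))) (.g (nat_lit 5) .nil .nil))))) (.nd (nat_lit 5) (.nd (nat_lit 6) 
(.lf (nat_lit 267665) (.g (nat_lit 1917) (.e (nat_lit 180271) (nat_lit 26) (.e (nat_lit 704629) (nat_lit 9) (.e (nat_lit 375) (nat_lit 32) (.e (nat_lit 426109) (nat_lit 1) .nil)))) .nil)) 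
(.lf (nat_lit 267729) (.g (nat_lit 964) (.e (nat_lit 180271) (nat_lit 26) (.e (nat_lit 704737) (nat_lit 11) (.e (nat_lit 16441) (nat_lit 9) .nil))) .nil))) (.nd (nat_lit 6) 
(.lf (nat_lit 267697) (.g (nat_lit 3390) (.e (nat_lit 180271) (nat_lit 26) (.e (nat_lit 704737) (nat_lit 11) (.e (nat_lit 16431) (nat_lit 9) (.e (nat_lit 426482) (nat_lit 27) (.e (nat_lit 335907) (nat_lit 0) (.e (nat_lit 7936) (nat_lit 362) .nil)))))) (.g (nat_lit 5) .nil .nil))) 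
(.lf (nat_lit 267761) (.g (nat_lit 1785) (.e (nat_lit 180271) (nat_lit 26) (.e (nat_lit 704738) (nat_lit 11) (.e (nat_lit 16432) (nat_lit 9) (.e (nat_lit 426533) (nat_lit 28) (.e (nat_lit 352000) (nat_lit 5) .nil))))) (.g (nat_lit 4) .nil .nil)))))) (.nd (nat_lit 4) (.nd (nat_lit 5) (.nd (nat_lit 6) 
(.lf (nat_lit 267657) (.g (nat_lit 1321) (.e (nat_lit 180270) (nat_lit 26) (.e (nat_lit 704741) (nat_lit 11) (.e (nat_lit 16438) (nat_lit 9) (.e (nat_lit 426530) (nat_lit 27) (.e (nat_lit 335874) (nat_lit 0) .nil))))) .nil)) 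
(.lf (nat_lit 267721) (.g (nat_lit 1388) (.e (nat_lit 180271) (nat_lit 26) (.e (nat_lit 704737) (nat_lit 11) (.e (nat_lit 16434) (nat_lit 9) (.e (nat_lit 426530) (nat_lit 27) .nil)))) .nil))) (.nd (nat_lit 6) 
(.lf (nat_lit 267689) (.g (nat_lit 1256) (.e (nat_lit 180271) (nat_lit 26) (.e (nat_lit 704736) (nat_lit 11) (.e (nat_lit 16437) (nat_lit 9) (.e (nat_lit 426533) (nat_lit 28) (.e (nat_lit 352000) (nat_lit 5) .nil))))) (.g (nat_lit 4) .nil .nil))) 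
(.lf (nat_lit 267753) (.g (nat_lit 2727) (.e (nat_lit 180271) (nat_lit 26) (.e (nat_lit 704738) (nat_lit 11) (.e (nat_lit 16431) (nat_lit 9) (.e (nat_lit 426499) (nat_lit 27) (.e (nat_lit 335895) (nat_lit 0) (.e (nat_lit 6724) (nat_lit 362) .nil)))))) (.g (nat_lit 4) .nil .nil))))) (.nd (nat_lit 5) (.nd (nat_lit 6) 
(.lf (nat_lit 267673) (.g (nat_lit 2400) (.e (nat_lit 180271) (nat_lit 26) (.e (nat_lit 704629) (nat_lit 9) (.e (nat_lit 452) (nat_lit 33) (.e (nat_lit 434209) (nat_lit 18) (.e (nat_lit 4605) (nat_lit 269) (.e (nat_lit 1209) (nat_lit 89) (.e (nat_lit 81664) (nat_lit 37) .nil))))))) (.g (nat_lit 4) .nil .nil))) 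
(.lf (nat_lit 267737) (.g (nat_lit 1138) (.e (nat_lit 180271) (nat_lit 26) (.e (nat_lit 704738) (nat_lit 11) (.e (nat_lit 16392) (nat_lit 0) (.e (nat_lit 7936) (nat_lit 388) .nil)))) .nil))) (.nd (nat_lit 6) 
(.lf (nat_lit 267705) (.g (nat_lit 1569) (.e (nat_lit 180271) (nat_lit 26) (.e (nat_lit 704737) (nat_lit 11) (.e (nat_lit 16431) (nat_lit 9) (.e (nat_lit 426516) (nat_lit 27) .nil)))) .nil)) 
(.lf (nat_lit 267769) (.g (nat_lit 2717) (.e (nat_lit 180271) (nat_lit 26) (.e (nat_lit 704738) (nat_lit 11) (.e (nat_lit 16436) (nat_lit 9) (.e (nat_lit 426530) (nat_lit 27) (.e (nat_lit 335872) (nat_lit 0) (.e (nat_lit 6721) (nat_lit 362) .nil)))))) (.g (nat_lit 5) .nil .nil))))))) (.nd (nat_lit 3) (.nd (nat_lit 4) (.nd (nat_lit 5) (.nd (nat_lit 6) 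
(.lf (nat_lit 267653) (.g (nat_lit 1835) (.e (nat_lit 180269) (nat_lit 25) (.e (nat_lit 696344) (nat_lit 8) (.e (nat_lit 172095) (nat_lit 9) (.e (nat_lit 426513) (nat_lit 27) (.e (nat_lit 335917) (nat_lit 0) (.e (nat_lit 7936) (nat_lit 362) .nil)))))) (.g (nat_lit 5) .nil .nil))) 
(.lf (nat_lit 267717) (.g (nat_lit 1866) (.e (nat_lit 180271) (nat_lit 26) (.e (nat_lit 704737) (nat_lit 11) (.e (nat_lit 16433) (nat_lit 9) (.e (nat_lit 426530) (nat_lit 27) .nil)))) .nil))) (.nd (nat_lit 6) 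
(.lf (nat_lit 267685) (.g (nat_lit 1979) (.e (nat_lit 180271) (nat_lit 26) (.e (nat_lit 704736) (nat_lit 11) (.e (nat_lit 16433) (nat_lit 9) (.e (nat_lit 426530) (nat_lit 27) (.e (nat_lit 335872) (nat_lit 0) .nil))))) .nil)) 
(.lf (nat_lit 267749) (.g (nat_lit 2538) (.e (nat_lit 180271) (nat_lit 26) (.e (nat_lit 704738) (nat_lit 11) (.e (nat_lit 16407) (nat_lit 1) (.e (nat_lit 164422) (nat_lit 272) (.e (nat_lit 1210) (nat_lit 89) (.e (nat_lit 81664) (nat_lit 37) .nil)))))) (.g (nat_lit 5) .nil .nil))))) (.nd (nat_lit 5) (.nd (nat_lit 6) 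
(.lf (nat_lit 267669) (.g (nat_lit 1760) (.e (nat_lit 180271) (nat_lit 26) (.e (nat_lit 704629) (nat_lit 9) (.e (nat_lit 442) (nat_lit 33) (.e (nat_lit 434207) (nat_lit 18) .nil)))) .nil)) 
(.lf (nat_lit 267733) (.g (nat_lit 1174) (.e (nat_lit 180271) (nat_lit 26) (.e (nat_lit 704737) (nat_lit 11) (.e (nat_lit 16446) (nat_lit 9) (.e (nat_lit 433920) (nat_lit 31) .nil)))) .nil))) (.nd (nat_lit 6) 
(.lf (nat_lit 267701) (.g (nat_lit 1569) (.e (nat_lit 180271) (nat_lit 26) (.e (nat_lit 704737) (nat_lit 11) (.e (nat_lit 16431) (nat_lit 9) (.e (nat_lit 426496) (nat_lit 27) .nil)))) .nil)) 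
(.lf (nat_lit 267765) (.g (nat_lit 2067) (.e (nat_lit 180271) (nat_lit 26) (.e (nat_lit 704738) (nat_lit 11) (.e (nat_lit 16433) (nat_lit 9) (.e (nat_lit 426550) (nat_lit 31) (.e (nat_lit 376576) (nat_lit 5) .nil))))) (.g (nat_lit 4) .nil .nil)))))) (.nd (nat_lit 4) (.nd (nat_lit 5) (.nd (nat_lit 6) 
(.lf (nat_lit 267661) (.g (nat_lit 616) (.e (nat_lit 180271) (nat_lit 26) (.e (nat_lit 704628) (nat_lit 9) (.e (nat_lit 452) (nat_lit 33) .nil))) .nil)) 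
(.lf (nat_lit 267725) (.g (nat_lit 2648) (.e (nat_lit 180271) (nat_lit 26) (.e (nat_lit 704737) (nat_lit 11) (.e (nat_lit 16436) (nat_lit 9) (.e (nat_lit 426533) (nat_lit 28) (.e (nat_lit 352000) (nat_lit 5) .nil))))) (.g (nat_lit 4) .nil .nil)))) (.nd (nat_lit 6) 
(.lf (nat_lit 267693) (.g (nat_lit 1375) (.e (nat_lit 180271) (nat_lit 26) (.e (nat_lit 704737) (nat_lit 11) (.e (nat_lit 16392) (nat_lit 0) (.e (nat_lit 7342) (nat_lit 388) .nil)))) .nil)) 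
(.lf (nat_lit 267757) (.g (nat_lit 2206) (.e (nat_lit 180271) (nat_lit 26) (.e (nat_lit 704738) (nat_lit 11) (.e (nat_lit 16431) (nat_lit 9) (.e (nat_lit 426533) (nat_lit 28) (.e (nat_lit 352000) (nat_lit 5) .nil))))) (.g (nat_lit 4) .nil .nil))))) (.nd (nat_lit 5) (.nd (nat_lit 6) 
(.lf (nat_lit 267677) (.g (nat_lit 2197) (.e (nat_lit 180271) (nat_lit 26) (.e (nat_lit 704629) (nat_lit 9) (.e (nat_lit 1277) (nat_lit 94) (.e (nat_lit 114714) (nat_lit 22) (.e (nat_lit 90172) (nat_lit 14) (.e (nat_lit 180229) (nat_lit 0) (.e (nat_lit 5548) (nat_lit 306) (.e (nat_lit 2640) (nat_lit 165) .nil)))))))) (.g (nat_lit 4) .nil .nil))) 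
(.lf (nat_lit 267741) (.g (nat_lit 721) (.e (nat_lit 180271) (nat_lit 26) (.e (nat_lit 704738) (nat_lit 11) (.e (nat_lit 16405) (nat_lit 1) .nil))) .nil))) (.nd (nat_lit 6) 
(.lf (nat_lit 267709) (.g (nat_lit 2110) (.e (nat_lit 180271) (nat_lit 26) (.e (nat_lit 704737) (nat_lit 11) (.e (nat_lit 16431) (nat_lit 9) (.e (nat_lit 426534) (nat_lit 28) (.e (nat_lit 352000) (nat_lit 5) .nil))))) (.g (nat_lit 4) .nil .nil))) 
(.lf (nat_lit 267773) (.g (nat_lit 2295) (.e (nat_lit 180271) (nat_lit 26) (.e (nat_lit 704738) (nat_lit 11) (.e (nat_lit 16436) (nat_lit 9) (.e (nat_lit 426533) (nat_lit 28) (.e (nat_lit 352000) (nat_lit 5) .nil))))) (.g (nat_lit 4) .nil .nil)))))))) (.nd (nat_lit 2) (.nd (nat_lit 3) (.nd (nat_lit 4) (.nd (nat_lit 5) (.nd (nat_lit 6) 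
(.lf (nat_lit 267651) (.g (nat_lit 1082) (.e (nat_lit 180269) (nat_lit 25) (.e (nat_lit 696344) (nat_lit 8) (.e (nat_lit 172087) (nat_lit 9) (.e (nat_lit 426535) (nat_lit 28) (.e (nat_lit 352000) (nat_lit 5) .nil))))) (.g (nat_lit 4) .nil .nil))) 
(.lf (nat_lit 267715) (.g (nat_lit 2332) (.e (nat_lit 180271) (nat_lit 26) (.e (nat_lit 704737) (nat_lit 11) (.e (nat_lit 16432) (nat_lit 9) (.e (nat_lit 426533) (nat_lit 28) (.e (nat_lit 352000) (nat_lit 5) .nil))))) (.g (nat_lit 4) .nil .nil)))) (.nd (nat_lit 6) 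
(.lf (nat_lit 267683) (.g (nat_lit 1266) (.e (nat_lit 180271) (nat_lit 26) (.e (nat_lit 704735) (nat_lit 11) (.e (nat_lit 16465) (nat_lit 13) (.e (nat_lit 483354) (nat_lit 17) (.e (nat_lit 7936) (nat_lit 362) .nil))))) (.g (nat_lit 4) .nil .nil))) 
(.lf (nat_lit 267747) (.g (nat_lit 2778) (.e (nat_lit 180271) (nat_lit 26) (.e (nat_lit 704738) (nat_lit 11) (.e (nat_lit 16407) (nat_lit 1) (.e (nat_lit 164421) (nat_lit 272) (.e (nat_lit 1211) (nat_lit 89) (.e (nat_lit 81664) (nat_lit 37) .nil)))))) (.g (nat_lit 5) .nil .nil))))) (.nd (nat_lit 5) (.nd (nat_lit 6) 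
(.lf (nat_lit 267667) (.g (nat_lit 3325) (.e (nat_lit 180271) (nat_lit 26) (.e (nat_lit 704629) (nat_lit 9) (.e (nat_lit 375) (nat_lit 32) (.e (nat_lit 426201) (nat_lit 9) (.e (nat_lit 426533) (nat_lit 28) (.e (nat_lit 352000) (nat_lit 5) .nil)))))) (.g (nat_lit 5) .nil .nil))) 
(.lf (nat_lit 267731) (.g (nat_lit 940) (.e (nat_lit 180271) (nat_lit 26) (.e (nat_lit 704737) (nat_lit 11) (.e (nat_lit 16444) (nat_lit 9) (.e (nat_lit 433920) (nat_lit 31) .nil)))) .nil))) (.nd (nat_lit 6) 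
(.lf (nat_lit 267699) (.g (nat_lit 2128) (.e (nat_lit 180271) (nat_lit 26) (.e (nat_lit 704737) (nat_lit 11) (.e (nat_lit 16431) (nat_lit 9) (.e (nat_lit 426489) (nat_lit 27) (.e (nat_lit 335961) (nat_lit 0) (.e (nat_lit 7936) (nat_lit 362) .nil)))))) (.g (nat_lit 4) .nil .nil))) 
(.lf (nat_lit 267763) (.g (nat_lit 2001) (.e (nat_lit 180271) (nat_lit 26) (.e (nat_lit 704738) (nat_lit 11) (.e (nat_lit 16433) (nat_lit 9) (.e (nat_lit 426479) (nat_lit 27) (.e (nat_lit 335878) (nat_lit 0) (.e (nat_lit 7936) (nat_lit 362) .nil)))))) (.g (nat_lit 4) .nil .nil)))))) (.nd (nat_lit 4) (.nd (nat_lit 5) (.nd (nat_lit 6) 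
(.lf (nat_lit 267659) (.g (nat_lit 1387) (.e (nat_lit 180270) (nat_lit 26) (.e (nat_lit 704741) (nat_lit 11) (.e (nat_lit 16438) (nat_lit 9) (.e (nat_lit 426550) (nat_lit 31) (.e (nat_lit 376576) (nat_lit 5) .nil))))) (.g (nat_lit 4) .nil .nil))) 
(.lf (nat_lit 267723) (.g (nat_lit 2141) (.e (nat_lit 180271) (nat_lit 26) (.e (nat_lit 704737) (nat_lit 11) (.e (nat_lit 16435) (nat_lit 9) (.e (nat_lit 426533) (nat_lit 28) (.e (nat_lit 352000) (nat_lit 5) .nil))))) (.g (nat_lit 4) .nil .nil)))) (.nd (nat_lit 6) 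
(.lf (nat_lit 267691) (.g (nat_lit 2408) (.e (nat_lit 180271) (nat_lit 26) (.e (nat_lit 704736) (nat_lit 11) (.e (nat_lit 16465) (nat_lit 13) (.e (nat_lit 483344) (nat_lit 17) (.e (nat_lit 6724) (nat_lit 362) .nil))))) (.g (nat_lit 5) .nil .nil))) 
(.lf (nat_lit 267755) (.g (nat_lit 4100) (.e (nat_lit 180271) (nat_lit 26) (.e (nat_lit 704738) (nat_lit 11) (.e (nat_lit 16431) (nat_lit 9) (.e (nat_lit 426528) (nat_lit 27) (.e (nat_lit 335894) (nat_lit 0) (.e (nat_lit 6724) (nat_lit 362) .nil)))))) (.g (nat_lit 0) .nil .nil))))) (.nd (nat_lit 5) (.nd (nat_lit 6) 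
(.lf (nat_lit 267675) (.g (nat_lit 1602) (.e (nat_lit 180271) (nat_lit 26) (.e (nat_lit 704629) (nat_lit 9) (.e (nat_lit 452) (nat_lit 33) (.e (nat_lit 434259) (nat_lit 32) (.e (nat_lit 606227) (nat_lit 5) (.e (nat_lit 81664) (nat_lit 37) .nil)))))) (.g (nat_lit 5) .nil .nil))) 
(.lf (nat_lit 267739) (.g (nat_lit 1857) (.e (nat_lit 180271) (nat_lit 26) (.e (nat_lit 704738) (nat_lit 11) (.e (nat_lit 16397) (nat_lit 0) (.e (nat_lit 3347) (nat_lit 206) (.e (nat_lit 606227) (nat_lit 5) (.e (nat_lit 81664) (nat_lit 37) .nil)))))) (.g (nat_lit 5) .nil .nil)))) (.nd (nat_lit 6) 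
(.lf (nat_lit 267707) (.g (nat_lit 2887) (.e (nat_lit 180271) (nat_lit 26) (.e (nat_lit 704737) (nat_lit 11) (.e (nat_lit 16431) (nat_lit 9) (.e (nat_lit 426530) (nat_lit 27) (.e (nat_lit 335874) (nat_lit 0) (.e (nat_lit 6723) (nat_lit 362) .nil)))))) (.g (nat_lit 5) .nil .nil))) 
(.lf (nat_lit 267771) (.g (nat_lit 2438) (.e (nat_lit 180271) (nat_lit 26) (.e (nat_lit 704738) (nat_lit 11) (.e (nat_lit 16436) (nat_lit 9) (.e (nat_lit 426530) (nat_lit 27) (.e (nat_lit 335874) (nat_lit 0) (.e (nat_lit 6721) (nat_lit 362) .nil)))))) (.g (nat_lit 4) .nil .nil))))))) (.nd (nat_lit 3) (.nd (nat_lit 4) (.nd (nat_lit 5) (.nd (nat_lit 6) 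
(.lf (nat_lit 267655) (.g (nat_lit 2246) (.e (nat_lit 180269) (nat_lit 25) (.e (nat_lit 696344) (nat_lit 8) (.e (nat_lit 172122) (nat_lit 13) (.e (nat_lit 483345) (nat_lit 17) (.e (nat_lit 6724) (nat_lit 362) .nil))))) (.g (nat_lit 0) .nil .nil))) 
(.lf (nat_lit 267719) (.g (nat_lit 2256) (.e (nat_lit 180271) (nat_lit 26) (.e (nat_lit 704737) (nat_lit 11) (.e (nat_lit 16433) (nat_lit 9) (.e (nat_lit 426535) (nat_lit 28) (.e (nat_lit 352000) (nat_lit 5) .nil))))) (.g (nat_lit 4) .nil .nil)))) (.nd (nat_lit 6) 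
(.lf (nat_lit 267687) (.g (nat_lit 1935) (.e (nat_lit 180271) (nat_lit 26) (.e (nat_lit 704736) (nat_lit 11) (.e (nat_lit 16433) (nat_lit 9) (.e (nat_lit 426550) (nat_lit 31) (.e (nat_lit 376576) (nat_lit 5) .nil))))) (.g (nat_lit 4) .nil .nil))) 
(.lf (nat_lit 267751) (.g (nat_lit 2309) (.e (nat_lit 180271) (nat_lit 26) (.e (nat_lit 704738) (nat_lit 11) (.e (nat_lit 16431) (nat_lit 9) (.e (nat_lit 426499) (nat_lit 27) (.e (nat_lit 335894) (nat_lit 0) .nil))))) .nil)))) (.nd (nat_lit 5) (.nd (nat_lit 6) 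
(.lf (nat_lit 267671) (.g (nat_lit 1760) (.e (nat_lit 180271) (nat_lit 26) (.e (nat_lit 704629) (nat_lit 9) (.e (nat_lit 442) (nat_lit 33) (.e (nat_lit 434213) (nat_lit 18) .nil)))) .nil)) 
(.lf (nat_lit 267735) (.g (nat_lit 1578) (.e (nat_lit 180271) (nat_lit 26) (.e (nat_lit 704737) (nat_lit 11) (.e (nat_lit 16466) (nat_lit 13) (.e (nat_lit 483349) (nat_lit 17) .nil)))) .nil))) (.nd (nat_lit 6) 
(.lf (nat_lit 267703) (.g (nat_lit 4233) (.e (nat_lit 180271) (nat_lit 26) (.e (nat_lit 704737) (nat_lit 11) (.e (nat_lit 16431) (nat_lit 9) (.e (nat_lit 426499) (nat_lit 27) (.e (nat_lit 335895) (nat_lit 0) (.e (nat_lit 6722) (nat_lit 362) .nil)))))) (.g (nat_lit 6) .nil .nil))) 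
(.lf (nat_lit 267767) (.g (nat_lit 1899) (.e (nat_lit 180271) (nat_lit 26) (.e (nat_lit 704738) (nat_lit 11) (.e (nat_lit 16434) (nat_lit 9) (.e (nat_lit 426533) (nat_lit 28) (.e (nat_lit 352000) (nat_lit 5) .nil))))) (.g (nat_lit 4) .nil .nil)))))) (.nd (nat_lit 4) (.nd (nat_lit 5) (.nd (nat_lit 6) 
(.lf (nat_lit 267663) (.g (nat_lit 1120) (.e (nat_lit 180271) (nat_lit 26) (.e (nat_lit 704628) (nat_lit 9) (.e (nat_lit 452) (nat_lit 33) (.e (nat_lit 434259) (nat_lit 32) .nil)))) .nil)) 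
(.lf (nat_lit 267727) (.g (nat_lit 2322) (.e (nat_lit 180271) (nat_lit 26) (.e (nat_lit 704737) (nat_lit 11) (.e (nat_lit 16438) (nat_lit 9) (.e (nat_lit 426533) (nat_lit 28) (.e (nat_lit 352000) (nat_lit 5) .nil))))) (.g (nat_lit 4) .nil .nil)))) (.nd (nat_lit 6) 
(.lf (nat_lit 267695) (.g (nat_lit 964) (.e (nat_lit 180271) (nat_lit 26) (.e (nat_lit 704737) (nat_lit 11) (.e (nat_lit 16397) (nat_lit 0) .nil))) .nil)) 
(.lf (nat_lit 267759) (.g (nat_lit 1921) (.e (nat_lit 180271) (nat_lit 26) (.e (nat_lit 704738) (nat_lit 11) (.e (nat_lit 16432) (nat_lit 9) (.e (nat_lit 426530) (nat_lit 27) (.e (nat_lit 335872) (nat_lit 0) (.e (nat_lit 6721) (nat_lit 362) .nil)))))) (.g (nat_lit 4) .nil .nil))))) (.nd (nat_lit 5) (.nd (nat_lit 6) 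
(.lf (nat_lit 267679) (.g (nat_lit 1788) (.e (nat_lit 180271) (nat_lit 26) (.e (nat_lit 704732) (nat_lit 11) (.e (nat_lit 16466) (nat_lit 13) (.e (nat_lit 483346) (nat_lit 17) (.e (nat_lit 6724) (nat_lit 362) .nil))))) (.g (nat_lit 4) .nil .nil))) 
(.lf (nat_lit 267743) (.g (nat_lit 2470) (.e (nat_lit 180271) (nat_lit 26) (.e (nat_lit 704738) (nat_lit 11) (.e (nat_lit 16406) (nat_lit 1) (.e (nat_lit 164421) (nat_lit 272) (.e (nat_lit 1209) (nat_lit 89) (.e (nat_lit 81664) (nat_lit 37) .nil)))))) (.g (nat_lit 5) .nil .nil)))) (.nd (nat_lit 6) 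
(.lf (nat_lit 267711) (.g (nat_lit 2177) (.e (nat_lit 180271) (nat_lit 26) (.e (nat_lit 704737) (nat_lit 11) (.e (nat_lit 16431) (nat_lit 9) (.e (nat_lit 426536) (nat_lit 28) (.e (nat_lit 352000) (nat_lit 5) .nil))))) (.g (nat_lit 4) .nil .nil))) 
(.lf (nat_lit 267775) (.g (nat_lit 1835) (.e (nat_lit 180271) (nat_lit 26) (.e (nat_lit 704738) (nat_lit 11) (.e (nat_lit 16436) (nat_lit 9) (.e (nat_lit 426535) (nat_lit 28) (.e (nat_lit 352000) (nat_lit 5) .nil))))) (.g (nat_lit 4) .nil .nil))))))))))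

noncomputable def tv3438 : DT := (.nd (nat_lit 0) (.nd (nat_lit 1) (.nd (nat_lit 2) (.nd (nat_lit 3) (.nd (nat_lit 4) (.nd (nat_lit 5) (.nd (nat_lit 6) 
(.lf (nat_lit 267776) (.g (nat_lit 2015) (.e (nat_lit 180271) (nat_lit 26) (.e (nat_lit 704738) (nat_lit 11) (.e (nat_lit 16436) (nat_lit 9) (.e (nat_lit 426550) (nat_lit 31) (.e (nat_lit 376576) (nat_lit 5) .nil))))) (.g (nat_lit 4) .nil .nil))) 
(.lf (nat_lit 267840) (.g (nat_lit 1189) (.e (nat_lit 180272) (nat_lit 26) (.e (nat_lit 704738) (nat_lit 11) (.e (nat_lit 16444) (nat_lit 9) (.e (nat_lit 426549) (nat_lit 31) (.e (nat_lit 376576) (nat_lit 5) .nil))))) (.g (nat_lit 4) .nil .nil)))) (.nd (nat_lit 6) 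
(.lf (nat_lit 267808) (.g (nat_lit 1547) (.e (nat_lit 180272) (nat_lit 26) (.e (nat_lit 704629) (nat_lit 9) (.e (nat_lit 442) (nat_lit 33) (.e (nat_lit 434184) (nat_lit 8) .nil)))) .nil)) 
(.lf (nat_lit 267872) (.g (nat_lit 1185) (.e (nat_lit 188160) (nat_lit 27) (.e (nat_lit 712755) (nat_lit 30) (.e (nat_lit 450587) (nat_lit 10) (.e (nat_lit 573478) (nat_lit 12) .nil)))) .nil)))) (.nd (nat_lit 5) (.nd (nat_lit 6) 
(.lf (nat_lit 267792) (.g (nat_lit 1750) (.e (nat_lit 180271) (nat_lit 26) (.e (nat_lit 704738) (nat_lit 11) (.e (nat_lit 16444) (nat_lit 9) (.e (nat_lit 426520) (nat_lit 27) (.e (nat_lit 335872) (nat_lit 0) (.e (nat_lit 6723) (nat_lit 362) .nil)))))) (.g (nat_lit 5) .nil .nil))) 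
(.lf (nat_lit 267856) (.g (nat_lit 1889) (.e (nat_lit 188160) (nat_lit 27) (.e (nat_lit 712755) (nat_lit 30) (.e (nat_lit 450579) (nat_lit 5) (.e (nat_lit 532503) (nat_lit 1) (.e (nat_lit 57653) (nat_lit 152) .nil))))) .nil))) (.nd (nat_lit 6) 
(.lf (nat_lit 267824) (.g (nat_lit 1571) (.e (nat_lit 180272) (nat_lit 26) (.e (nat_lit 704737) (nat_lit 11) (.e (nat_lit 16466) (nat_lit 13) (.e (nat_lit 483349) (nat_lit 17) (.e (nat_lit 7936) (nat_lit 362) .nil))))) (.g (nat_lit 4) .nil .nil))) 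
(.lf (nat_lit 267888) (.g (nat_lit 1380) (.e (nat_lit 180273) (nat_lit 31) (.e (nat_lit 745476) (nat_lit 0) (.e (nat_lit 1598) (nat_lit 111) (.e (nat_lit 360466) (nat_lit 3) (.e (nat_lit 516120) (nat_lit 1) .nil))))) .nil))))) (.nd (nat_lit 4) (.nd (nat_lit 5) (.nd (nat_lit 6) 
(.lf (nat_lit 267784) (.g (nat_lit 1928) (.e (nat_lit 180271) (nat_lit 26) (.e (nat_lit 704738) (nat_lit 11) (.e (nat_lit 16440) (nat_lit 9) (.e (nat_lit 426501) (nat_lit 27) (.e (nat_lit 335964) (nat_lit 0) (.e (nat_lit 7936) (nat_lit 362) .nil)))))) (.g (nat_lit 5) .nil .nil))) 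
(.lf (nat_lit 267848) (.g (nat_lit 578) (.e (nat_lit 188160) (nat_lit 27) (.e (nat_lit 712755) (nat_lit 30) (.e (nat_lit 450578) (nat_lit 5) .nil))) .nil))) (.nd (nat_lit 6) 
(.lf (nat_lit 267816) (.g (nat_lit 2399) (.e (nat_lit 180272) (nat_lit 26) (.e (nat_lit 704737) (nat_lit 11) (.e (nat_lit 16433) (nat_lit 9) (.e (nat_lit 426550) (nat_lit 31) (.e (nat_lit 376576) (nat_lit 5) .nil))))) (.g (nat_lit 4) .nil .nil))) 
(.lf (nat_lit 267880) (.g (nat_lit 442) (.e (nat_lit 180273) (nat_lit 31) (.e (nat_lit 745476) (nat_lit 0) (.e (nat_lit 1586) (nat_lit 111) .nil))) .nil)))) (.nd (nat_lit 5) (.nd (nat_lit 6) 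
(.lf (nat_lit 267800) (.g (nat_lit 1827) (.e (nat_lit 180271) (nat_lit 26) (.e (nat_lit 704738) (nat_lit 11) (.e (nat_lit 16463) (nat_lit 13) (.e (nat_lit 483349) (nat_lit 17) (.e (nat_lit 7936) (nat_lit 362) .nil))))) (.g (nat_lit 4) .nil .nil))) 
(.lf (nat_lit 267864) (.g (nat_lit 2216) (.e (nat_lit 188160) (nat_lit 27) (.e (nat_lit 712755) (nat_lit 30) (.e (nat_lit 450580) (nat_lit 5) (.e (nat_lit 532501) (nat_lit 1) (.e (nat_lit 57665) (nat_lit 152) .nil))))) .nil))) (.nd (nat_lit 6) 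
(.lf (nat_lit 267832) (.g (nat_lit 1996) (.e (nat_lit 180272) (nat_lit 26) (.e (nat_lit 704738) (nat_lit 11) (.e (nat_lit 16433) (nat_lit 9) (.e (nat_lit 426550) (nat_lit 31) (.e (nat_lit 376576) (nat_lit 5) .nil))))) (.g (nat_lit 4) .nil .nil))) 
(.lf (nat_lit 267896) (.g (nat_lit 2257) (.e (nat_lit 180273) (nat_lit 31) (.e (nat_lit 745491) (nat_lit 4) (.e (nat_lit 65619) (nat_lit 10) (.e (nat_lit 344117) (nat_lit 21) (.e (nat_lit 516193) (nat_lit 17) (.e (nat_lit 7936) (nat_lit 362) .nil)))))) (.g (nat_lit 5) .nil .nil))))))) (.nd (nat_lit 3) (.nd (nat_lit 4) (.nd (nat_lit 5) (.nd (nat_lit 6) 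
(.lf (nat_lit 267780) (.g (nat_lit 1796) (.e (nat_lit 180271) (nat_lit 26) (.e (nat_lit 704738) (nat_lit 11) (.e (nat_lit 16440) (nat_lit 9) (.e (nat_lit 426497) (nat_lit 27) (.e (nat_lit 335964) (nat_lit 0) (.e (nat_lit 7936) (nat_lit 362) .nil)))))) (.g (nat_lit 4) .nil .nil))) 
(.lf (nat_lit 267844) (.g (nat_lit 1183) (.e (nat_lit 188160) (nat_lit 26) (.e (nat_lit 704741) (nat_lit 11) (.e (nat_lit 16438) (nat_lit 9) (.e (nat_lit 426533) (nat_lit 28) (.e (nat_lit 352000) (nat_lit 5) .nil))))) .nil))) (.nd (nat_lit 6) 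
(.lf (nat_lit 267812) (.g (nat_lit 1945) (.e (nat_lit 180272) (nat_lit 26) (.e (nat_lit 704736) (nat_lit 11) (.e (nat_lit 16433) (nat_lit 9) (.e (nat_lit 426550) (nat_lit 31) (.e (nat_lit 376576) (nat_lit 5) .nil))))) (.g (nat_lit 4) .nil .nil))) 
(.lf (nat_lit 267876) (.g (nat_lit 2755) (.e (nat_lit 188160) (nat_lit 27) (.e (nat_lit 712755) (nat_lit 30) (.e (nat_lit 450588) (nat_lit 10) (.e (nat_lit 573475) (nat_lit 12) (.e (nat_lit 57501) (nat_lit 37) .nil))))) .nil)))) (.nd (nat_lit 5) (.nd (nat_lit 6) 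
(.lf (nat_lit 267796) (.g (nat_lit 1267) (.e (nat_lit 180271) (nat_lit 26) (.e (nat_lit 704738) (nat_lit 11) (.e (nat_lit 16444) (nat_lit 9) (.e (nat_lit 426549) (nat_lit 31) (.e (nat_lit 376576) (nat_lit 5) .nil))))) (.g (nat_lit 4) .nil .nil))) 
(.lf (nat_lit 267860) (.g (nat_lit 2540) (.e (nat_lit 188160) (nat_lit 27) (.e (nat_lit 712755) (nat_lit 30) (.e (nat_lit 450580) (nat_lit 5) (.e (nat_lit 532499) (nat_lit 1) (.e (nat_lit 57654) (nat_lit 152) .nil))))) .nil))) (.nd (nat_lit 6) 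
(.lf (nat_lit 267828) (.g (nat_lit 525) (.e (nat_lit 180272) (nat_lit 26) (.e (nat_lit 704738) (nat_lit 11) (.e (nat_lit 16397) (nat_lit 0) .nil))) .nil)) 
(.lf (nat_lit 267892) (.g (nat_lit 1505) (.e (nat_lit 180273) (nat_lit 31) (.e (nat_lit 745491) (nat_lit 4) (.e (nat_lit 65604) (nat_lit 9) (.e (nat_lit 336028) (nat_lit 3) (.e (nat_lit 106240) (nat_lit 0) .nil))))) .nil))))) (.nd (nat_lit 4) (.nd (nat_lit 5) (.nd (nat_lit 6) 
(.lf (nat_lit 267788) (.g (nat_lit 3666) (.e (nat_lit 180271) (nat_lit 26) (.e (nat_lit 704738) (nat_lit 11) (.e (nat_lit 16440) (nat_lit 9) (.e (nat_lit 426528) (nat_lit 27) (.e (nat_lit 335894) (nat_lit 0) (.e (nat_lit 6724) (nat_lit 362) .nil)))))) (.g (nat_lit 6) .nil .nil))) 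
(.lf (nat_lit 267852) (.g (nat_lit 937) (.e (nat_lit 188160) (nat_lit 27) (.e (nat_lit 712755) (nat_lit 30) (.e (nat_lit 450579) (nat_lit 5) (.e (nat_lit 532501) (nat_lit 1) .nil)))) .nil))) (.nd (nat_lit 6) 
(.lf (nat_lit 267820) (.g (nat_lit 2866) (.e (nat_lit 180272) (nat_lit 26) (.e (nat_lit 704737) (nat_lit 11) (.e (nat_lit 16439) (nat_lit 9) (.e (nat_lit 426528) (nat_lit 27) (.e (nat_lit 335894) (nat_lit 0) (.e (nat_lit 6722) (nat_lit 362) .nil)))))) (.g (nat_lit 5) .nil .nil))) 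
(.lf (nat_lit 267884) (.g (nat_lit 545) (.e (nat_lit 180273) (nat_lit 31) (.e (nat_lit 745476) (nat_lit 0) (.e (nat_lit 1595) (nat_lit 111) .nil))) .nil)))) (.nd (nat_lit 5) (.nd (nat_lit 6) 
(.lf (nat_lit 267804) (.g (nat_lit 1524) (.e (nat_lit 180271) (nat_lit 26) (.e (nat_lit 704738) (nat_lit 11) (.e (nat_lit 16464) (nat_lit 13) (.e (nat_lit 483359) (nat_lit 17) (.e (nat_lit 7936) (nat_lit 362) .nil))))) (.g (nat_lit 4) .nil .nil))) 
(.lf (nat_lit 267868) (.g (nat_lit 1592) (.e (nat_lit 188160) (nat_lit 27) (.e (nat_lit 712755) (nat_lit 30) (.e (nat_lit 450581) (nat_lit 5) (.e (nat_lit 532501) (nat_lit 1) (.e (nat_lit 57663) (nat_lit 152) .nil))))) .nil))) (.nd (nat_lit 6) 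
(.lf (nat_lit 267836) (.g (nat_lit 1026) (.e (nat_lit 180272) (nat_lit 26) (.e (nat_lit 704738) (nat_lit 11) (.e (nat_lit 16440) (nat_lit 9) (.e (nat_lit 433920) (nat_lit 31) .nil)))) .nil)) 
(.lf (nat_lit 267900) (.g (nat_lit 2411) (.e (nat_lit 180273) (nat_lit 31) (.e (nat_lit 745493) (nat_lit 6) (.e (nat_lit 81956) (nat_lit 23) (.e (nat_lit 98311) (nat_lit 0) (.e (nat_lit 7936) (nat_lit 362) .nil))))) .nil))))))) (.nd (nat_lit 2) (.nd (nat_lit 3) (.nd (nat_lit 4) (.nd (nat_lit 5) (.nd (nat_lit 6) 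
(.lf (nat_lit 267778) (.g (nat_lit 3616) (.e (nat_lit 180271) (nat_lit 26) (.e (nat_lit 704738) (nat_lit 11) (.e (nat_lit 16439) (nat_lit 9) (.e (nat_lit 426528) (nat_lit 27) (.e (nat_lit 335894) (nat_lit 0) (.e (nat_lit 6724) (nat_lit 362) .nil)))))) (.g (nat_lit 6) .nil .nil))) 
(.lf (nat_lit 267842) (.g (nat_lit 1936) (.e (nat_lit 188160) (nat_lit 26) (.e (nat_lit 704734) (nat_lit 11) (.e (nat_lit 16436) (nat_lit 9) (.e (nat_lit 426530) (nat_lit 27) (.e (nat_lit 335872) (nat_lit 0) .nil))))) .nil))) (.nd (nat_lit 6) 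
(.lf (nat_lit 267810) (.g (nat_lit 1474) (.e (nat_lit 180272) (nat_lit 26) (.e (nat_lit 704629) (nat_lit 9) (.e (nat_lit 442) (nat_lit 33) (.e (nat_lit 434212) (nat_lit 18) .nil)))) .nil)) 
(.lf (nat_lit 267874) (.g (nat_lit 2508) (.e (nat_lit 188160) (nat_lit 27) (.e (nat_lit 712755) (nat_lit 30) (.e (nat_lit 450588) (nat_lit 10) (.e (nat_lit 573473) (nat_lit 12) (.e (nat_lit 57501) (nat_lit 37) .nil))))) .nil)))) (.nd (nat_lit 5) (.nd (nat_lit 6) 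
(.lf (nat_lit 267794) (.g (nat_lit 1361) (.e (nat_lit 180271) (nat_lit 26) (.e (nat_lit 704738) (nat_lit 11) (.e (nat_lit 16444) (nat_lit 9) (.e (nat_lit 426532) (nat_lit 28) (.e (nat_lit 352000) (nat_lit 5) .nil))))) (.g (nat_lit 4) .nil .nil))) 
(.lf (nat_lit 267858) (.g (nat_lit 631) (.e (nat_lit 188160) (nat_lit 27) (.e (nat_lit 712755) (nat_lit 30) (.e (nat_lit 450580) (nat_lit 5) .nil))) .nil))) (.nd (nat_lit 6) 
(.lf (nat_lit 267826) (.g (nat_lit 1416) (.e (nat_lit 180272) (nat_lit 26) (.e (nat_lit 704738) (nat_lit 11) (.e (nat_lit 16392) (nat_lit 0) (.e (nat_lit 7344) (nat_lit 388) .nil)))) .nil)) 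
(.lf (nat_lit 267890) (.g (nat_lit 580) (.e (nat_lit 180273) (nat_lit 31) (.e (nat_lit 745476) (nat_lit 0) (.e (nat_lit 1616) (nat_lit 113) .nil))) .nil))))) (.nd (nat_lit 4) (.nd (nat_lit 5) (.nd (nat_lit 6) 
(.lf (nat_lit 267786) (.g (nat_lit 2010) (.e (nat_lit 180271) (nat_lit 26) (.e (nat_lit 704738) (nat_lit 11) (.e (nat_lit 16440) (nat_lit 9) (.e (nat_lit 426526) (nat_lit 27) (.e (nat_lit 335872) (nat_lit 0) (.e (nat_lit 6723) (nat_lit 362) .nil)))))) (.g (nat_lit 5) .nil .nil))) 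
(.lf (nat_lit 267850) (.g (nat_lit 1449) (.e (nat_lit 188160) (nat_lit 27) (.e (nat_lit 712755) (nat_lit 30) (.e (nat_lit 450579) (nat_lit 5) (.e (nat_lit 532484) (nat_lit 0) (.e (nat_lit 7936) (nat_lit 149) .nil))))) .nil))) (.nd (nat_lit 6) 
(.lf (nat_lit 267818) (.g (nat_lit 402) (.e (nat_lit 180272) (nat_lit 26) (.e (nat_lit 704737) (nat_lit 11) (.e (nat_lit 16435) (nat_lit 9) .nil))) .nil)) 
(.lf (nat_lit 267882) (.g (nat_lit 488) (.e (nat_lit 180273) (nat_lit 31) (.e (nat_lit 745476) (nat_lit 0) (.e (nat_lit 1589) (nat_lit 111) .nil))) .nil)))) (.nd (nat_lit 5) (.nd (nat_lit 6) 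
(.lf (nat_lit 267802) (.g (nat_lit 1445) (.e (nat_lit 180271) (nat_lit 26) (.e (nat_lit 704738) (nat_lit 11) (.e (nat_lit 16463) (nat_lit 13) (.e (nat_lit 483359) (nat_lit 17) .nil)))) .nil)) 
(.lf (nat_lit 267866) (.g (nat_lit 416) (.e (nat_lit 188160) (nat_lit 27) (.e (nat_lit 712755) (nat_lit 30) (.e (nat_lit 450581) (nat_lit 5) .nil))) .nil))) (.nd (nat_lit 6) 
(.lf (nat_lit 267834) (.g (nat_lit 3103) (.e (nat_lit 180272) (nat_lit 26) (.e (nat_lit 704738) (nat_lit 11) (.e (nat_lit 16439) (nat_lit 9) (.e (nat_lit 426528) (nat_lit 27) (.e (nat_lit 335894) (nat_lit 0) (.e (nat_lit 6722) (nat_lit 362) .nil)))))) (.g (nat_lit 6) .nil .nil))) 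
(.lf (nat_lit 267898) (.g (nat_lit 2945) (.e (nat_lit 180273) (nat_lit 31) (.e (nat_lit 745493) (nat_lit 6) (.e (nat_lit 81953) (nat_lit 22) (.e (nat_lit 90155) (nat_lit 10) .nil)))) .nil)))))) (.nd (nat_lit 3) (.nd (nat_lit 4) (.nd (nat_lit 5) (.nd (nat_lit 6) 
(.lf (nat_lit 267782) (.g (nat_lit 2042) (.e (nat_lit 180271) (nat_lit 26) (.e (nat_lit 704738) (nat_lit 11) (.e (nat_lit 16440) (nat_lit 9) (.e (nat_lit 426498) (nat_lit 27) (.e (nat_lit 335964) (nat_lit 0) (.e (nat_lit 7936) (nat_lit 362) .nil)))))) (.g (nat_lit 4) .nil .nil))) 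
(.lf (nat_lit 267846) (.g (nat_lit 1286) (.e (nat_lit 188160) (nat_lit 27) (.e (nat_lit 712753) (nat_lit 30) (.e (nat_lit 450579) (nat_lit 5) (.e (nat_lit 532484) (nat_lit 0) (.e (nat_lit 7936) (nat_lit 149) .nil))))) .nil))) (.nd (nat_lit 6) 
(.lf (nat_lit 267814) (.g (nat_lit 1711) (.e (nat_lit 180272) (nat_lit 26) (.e (nat_lit 704737) (nat_lit 11) (.e (nat_lit 16431) (nat_lit 9) (.e (nat_lit 433920) (nat_lit 31) .nil)))) .nil)) 
(.lf (nat_lit 267878) (.g (nat_lit 2306) (.e (nat_lit 180273) (nat_lit 31) (.e (nat_lit 745475) (nat_lit 0) (.e (nat_lit 1586) (nat_lit 111) (.e (nat_lit 360450) (nat_lit 0) (.e (nat_lit 4132) (nat_lit 246) (.e (nat_lit 8195) (nat_lit 0) (.e (nat_lit 5777) (nat_lit 317) .nil))))))) (.g (nat_lit 7) .nil .nil))))) (.nd (nat_lit 5) (.nd (nat_lit 6) 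
(.lf (nat_lit 267798) (.g (nat_lit 2127) (.e (nat_lit 180271) (nat_lit 26) (.e (nat_lit 704738) (nat_lit 11) (.e (nat_lit 16446) (nat_lit 9) (.e (nat_lit 426500) (nat_lit 27) (.e (nat_lit 335906) (nat_lit 0) (.e (nat_lit 7936) (nat_lit 362) .nil)))))) (.g (nat_lit 5) .nil .nil))) 
(.lf (nat_lit 267862) (.g (nat_lit 1971) (.e (nat_lit 188160) (nat_lit 27) (.e (nat_lit 712755) (nat_lit 30) (.e (nat_lit 450580) (nat_lit 5) (.e (nat_lit 532501) (nat_lit 1) (.e (nat_lit 57651) (nat_lit 152) .nil))))) .nil))) (.nd (nat_lit 6) 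
(.lf (nat_lit 267830) (.g (nat_lit 388) (.e (nat_lit 180272) (nat_lit 26) (.e (nat_lit 704738) (nat_lit 11) (.e (nat_lit 16431) (nat_lit 9) .nil))) .nil)) 
(.lf (nat_lit 267894) (.g (nat_lit 3047) (.e (nat_lit 180273) (nat_lit 31) (.e (nat_lit 745491) (nat_lit 4) (.e (nat_lit 65610) (nat_lit 10) (.e (nat_lit 344117) (nat_lit 21) (.e (nat_lit 516188) (nat_lit 17) .nil))))) .nil))))) (.nd (nat_lit 4) (.nd (nat_lit 5) (.nd (nat_lit 6) 
(.lf (nat_lit 267790) (.g (nat_lit 2845) (.e (nat_lit 180271) (nat_lit 26) (.e (nat_lit 704738) (nat_lit 11) (.e (nat_lit 16444) (nat_lit 9) (.e (nat_lit 426503) (nat_lit 27) (.e (nat_lit 335894) (nat_lit 0) (.e (nat_lit 6722) (nat_lit 362) .nil)))))) (.g (nat_lit 6) .nil .nil))) 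
(.lf (nat_lit 267854) (.g (nat_lit 1898) (.e (nat_lit 188160) (nat_lit 27) (.e (nat_lit 712755) (nat_lit 30) (.e (nat_lit 450579) (nat_lit 5) (.e (nat_lit 532501) (nat_lit 1) (.e (nat_lit 57663) (nat_lit 152) .nil))))) .nil))) (.nd (nat_lit 6) 
(.lf (nat_lit 267822) (.g (nat_lit 931) (.e (nat_lit 180272) (nat_lit 26) (.e (nat_lit 704737) (nat_lit 11) (.e (nat_lit 16444) (nat_lit 9) (.e (nat_lit 426532) (nat_lit 28) .nil)))) .nil)) 
(.lf (nat_lit 267886) (.g (nat_lit 1213) (.e (nat_lit 180273) (nat_lit 31) (.e (nat_lit 745476) (nat_lit 0) (.e (nat_lit 1598) (nat_lit 111) (.e (nat_lit 360459) (nat_lit 1) .nil)))) .nil)))) (.nd (nat_lit 5) (.nd (nat_lit 6) 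
(.lf (nat_lit 267806) (.g (nat_lit 2040) (.e (nat_lit 180271) (nat_lit 26) (.e (nat_lit 704738) (nat_lit 11) (.e (nat_lit 16466) (nat_lit 13) (.e (nat_lit 483352) (nat_lit 17) (.e (nat_lit 7936) (nat_lit 362) .nil))))) (.g (nat_lit 4) .nil .nil))) 
(.lf (nat_lit 267870) (.g (nat_lit 1929) (.e (nat_lit 188160) (nat_lit 27) (.e (nat_lit 712755) (nat_lit 30) (.e (nat_lit 450587) (nat_lit 10) (.e (nat_lit 573475) (nat_lit 12) .nil)))) .nil))) (.nd (nat_lit 6) 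
(.lf (nat_lit 267838) (.g (nat_lit 2943) (.e (nat_lit 180272) (nat_lit 26) (.e (nat_lit 704738) (nat_lit 11) (.e (nat_lit 16444) (nat_lit 9) (.e (nat_lit 426503) (nat_lit 27) (.e (nat_lit 335894) (nat_lit 0) (.e (nat_lit 6722) (nat_lit 362) .nil)))))) (.g (nat_lit 0) .nil .nil))) 
(.lf (nat_lit 267902) (.g (nat_lit 1448) (.e (nat_lit 180275) (nat_lit 32) (.e (nat_lit 1074) (nat_lit 81) (.e (nat_lit 1796) (nat_lit 119) (.e (nat_lit 516139) (nat_lit 7) (.e (nat_lit 417536) (nat_lit 6) .nil))))) .nil)))))))) (.nd (nat_lit 1) (.nd (nat_lit 2) (.nd (nat_lit 3) (.nd (nat_lit 4) (.nd (nat_lit 5) (.nd (nat_lit 6) 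
(.lf (nat_lit 267777) (.g (nat_lit 3286) (.e (nat_lit 180271) (nat_lit 26) (.e (nat_lit 704738) (nat_lit 11) (.e (nat_lit 16439) (nat_lit 9) (.e (nat_lit 426528) (nat_lit 27) (.e (nat_lit 335894) (nat_lit 0) (.e (nat_lit 6722) (nat_lit 362) .nil)))))) (.g (nat_lit 6) .nil .nil))) 
(.lf (nat_lit 267841) (.g (nat_lit 1313) (.e (nat_lit 188160) (nat_lit 26) (.e (nat_lit 704734) (nat_lit 11) (.e (nat_lit 16433) (nat_lit 9) (.e (nat_lit 426550) (nat_lit 31) (.e (nat_lit 376576) (nat_lit 5) .nil))))) .nil))) (.nd (nat_lit 6) 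
(.lf (nat_lit 267809) (.g (nat_lit 1016) (.e (nat_lit 180272) (nat_lit 26) (.e (nat_lit 704629) (nat_lit 9) (.e (nat_lit 442) (nat_lit 33) (.e (nat_lit 442112) (nat_lit 8) .nil)))) .nil)) 
(.lf (nat_lit 267873) (.g (nat_lit 1817) (.e (nat_lit 188160) (nat_lit 27) (.e (nat_lit 712755) (nat_lit 30) (.e (nat_lit 450587) (nat_lit 10) (.e (nat_lit 573478) (nat_lit 12) (.e (nat_lit 57502) (nat_lit 38) .nil))))) .nil)))) (.nd (nat_lit 5) (.nd (nat_lit 6) 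
(.lf (nat_lit 267793) (.g (nat_lit 2010) (.e (nat_lit 180271) (nat_lit 26) (.e (nat_lit 704738) (nat_lit 11) (.e (nat_lit 16444) (nat_lit 9) (.e (nat_lit 426520) (nat_lit 27) (.e (nat_lit 335874) (nat_lit 0) (.e (nat_lit 6721) (nat_lit 362) .nil)))))) (.g (nat_lit 5) .nil .nil))) 
(.lf (nat_lit 267857) (.g (nat_lit 1874) (.e (nat_lit 188160) (nat_lit 27) (.e (nat_lit 712755) (nat_lit 30) (.e (nat_lit 450579) (nat_lit 5) (.e (nat_lit 532504) (nat_lit 1) (.e (nat_lit 57651) (nat_lit 152) .nil))))) .nil))) (.nd (nat_lit 6) 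
(.lf (nat_lit 267825) (.g (nat_lit 1387) (.e (nat_lit 180272) (nat_lit 26) (.e (nat_lit 704738) (nat_lit 11) (.e (nat_lit 16392) (nat_lit 0) (.e (nat_lit 2397) (nat_lit 157) .nil)))) .nil)) 
(.lf (nat_lit 267889) (.g (nat_lit 2552) (.e (nat_lit 180273) (nat_lit 31) (.e (nat_lit 745476) (nat_lit 0) (.e (nat_lit 1598) (nat_lit 111) (.e (nat_lit 360473) (nat_lit 8) (.e (nat_lit 557119) (nat_lit 18) (.e (nat_lit 2449) (nat_lit 157) (.e (nat_lit 5776) (nat_lit 317) .nil))))))) (.g (nat_lit 5) .nil .nil)))))) (.nd (nat_lit 4) (.nd (nat_lit 5) (.nd (nat_lit 6) 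
(.lf (nat_lit 267785) (.g (nat_lit 2115) (.e (nat_lit 180271) (nat_lit 26) (.e (nat_lit 704738) (nat_lit 11) (.e (nat_lit 16440) (nat_lit 9) (.e (nat_lit 426513) (nat_lit 27) (.e (nat_lit 335917) (nat_lit 0) (.e (nat_lit 7936) (nat_lit 362) .nil)))))) (.g (nat_lit 5) .nil .nil))) 
(.lf (nat_lit 267849) (.g (nat_lit 1282) (.e (nat_lit 188160) (nat_lit 27) (.e (nat_lit 712755) (nat_lit 30) (.e (nat_lit 450578) (nat_lit 5) (.e (nat_lit 532503) (nat_lit 1) (.e (nat_lit 57653) (nat_lit 152) .nil))))) .nil))) (.nd (nat_lit 6) 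
(.lf (nat_lit 267817) (.g (nat_lit 1976) (.e (nat_lit 180272) (nat_lit 26) (.e (nat_lit 704737) (nat_lit 11) (.e (nat_lit 16434) (nat_lit 9) (.e (nat_lit 426550) (nat_lit 31) (.e (nat_lit 376576) (nat_lit 5) .nil))))) (.g (nat_lit 4) .nil .nil))) 
(.lf (nat_lit 267881) (.g (nat_lit 1239) (.e (nat_lit 180273) (nat_lit 31) (.e (nat_lit 745476) (nat_lit 0) (.e (nat_lit 1586) (nat_lit 111) (.e (nat_lit 360468) (nat_lit 3) .nil)))) .nil)))) (.nd (nat_lit 5) (.nd (nat_lit 6) 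
(.lf (nat_lit 267801) (.g (nat_lit 1808) (.e (nat_lit 180271) (nat_lit 26) (.e (nat_lit 704738) (nat_lit 11) (.e (nat_lit 16463) (nat_lit 13) (.e (nat_lit 483353) (nat_lit 17) (.e (nat_lit 7936) (nat_lit 362) .nil))))) (.g (nat_lit 4) .nil .nil))) 
(.lf (nat_lit 267865) (.g (nat_lit 1325) (.e (nat_lit 188160) (nat_lit 27) (.e (nat_lit 712755) (nat_lit 30) (.e (nat_lit 450580) (nat_lit 5) (.e (nat_lit 532503) (nat_lit 1) .nil)))) .nil))) (.nd (nat_lit 6) 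
(.lf (nat_lit 267833) (.g (nat_lit 1783) (.e (nat_lit 180272) (nat_lit 26) (.e (nat_lit 704738) (nat_lit 11) (.e (nat_lit 16434) (nat_lit 9) (.e (nat_lit 426550) (nat_lit 31) (.e (nat_lit 376576) (nat_lit 5) .nil))))) (.g (nat_lit 4) .nil .nil))) 
(.lf (nat_lit 267897) (.g (nat_lit 456) (.e (nat_lit 180273) (nat_lit 31) (.e (nat_lit 745493) (nat_lit 6) (.e (nat_lit 81952) (nat_lit 22) (.e (nat_lit 90155) (nat_lit 10) (.e (nat_lit 16128) (nat_lit 241) .nil))))) (.g (nat_lit 4) .nil .nil))))))) (.nd (nat_lit 3) (.nd (nat_lit 4) (.nd (nat_lit 5) (.nd (nat_lit 6) 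
(.lf (nat_lit 267781) (.g (nat_lit 1902) (.e (nat_lit 180271) (nat_lit 26) (.e (nat_lit 704738) (nat_lit 11) (.e (nat_lit 16440) (nat_lit 9) (.e (nat_lit 426498) (nat_lit 27) (.e (nat_lit 335932) (nat_lit 0) (.e (nat_lit 7936) (nat_lit 362) .nil)))))) (.g (nat_lit 4) .nil .nil))) 
(.lf (nat_lit 267845) (.g (nat_lit 1309) (.e (nat_lit 188160) (nat_lit 26) (.e (nat_lit 704741) (nat_lit 11) (.e (nat_lit 16438) (nat_lit 9) (.e (nat_lit 426550) (nat_lit 31) (.e (nat_lit 376576) (nat_lit 5) .nil))))) .nil))) (.nd (nat_lit 6) 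
(.lf (nat_lit 267813) (.g (nat_lit 2563) (.e (nat_lit 180272) (nat_lit 26) (.e (nat_lit 704737) (nat_lit 11) (.e (nat_lit 16431) (nat_lit 9) (.e (nat_lit 426528) (nat_lit 27) (.e (nat_lit 335894) (nat_lit 0) .nil))))) .nil)) 
(.lf (nat_lit 267877) (.g (nat_lit 148) (.e (nat_lit 180273) (nat_lit 31) (.e (nat_lit 745475) (nat_lit 0) (.e (nat_lit 1586) (nat_lit 111) .nil))) .nil)))) (.nd (nat_lit 5) (.nd (nat_lit 6) 
(.lf (nat_lit 267797) (.g (nat_lit 2487) (.e (nat_lit 180271) (nat_lit 26) (.e (nat_lit 704738) (nat_lit 11) (.e (nat_lit 16446) (nat_lit 9) (.e (nat_lit 426500) (nat_lit 27) (.e (nat_lit 335892) (nat_lit 0) (.e (nat_lit 6724) (nat_lit 362) .nil)))))) (.g (nat_lit 0) .nil .nil))) 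
(.lf (nat_lit 267861) (.g (nat_lit 2895) (.e (nat_lit 188160) (nat_lit 27) (.e (nat_lit 712755) (nat_lit 30) (.e (nat_lit 450580) (nat_lit 5) (.e (nat_lit 532499) (nat_lit 1) (.e (nat_lit 57665) (nat_lit 152) .nil))))) .nil))) (.nd (nat_lit 6) 
(.lf (nat_lit 267829) (.g (nat_lit 725) (.e (nat_lit 180272) (nat_lit 26) (.e (nat_lit 704738) (nat_lit 11) (.e (nat_lit 16406) (nat_lit 1) .nil))) .nil)) 
(.lf (nat_lit 267893) (.g (nat_lit 2187) (.e (nat_lit 180273) (nat_lit 31) (.e (nat_lit 745491) (nat_lit 4) (.e (nat_lit 65610) (nat_lit 10) (.e (nat_lit 344117) (nat_lit 21) (.e (nat_lit 516116) (nat_lit 1) .nil))))) .nil))))) (.nd (nat_lit 4) (.nd (nat_lit 5) (.nd (nat_lit 6) 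
(.lf (nat_lit 267789) (.g (nat_lit 500) (.e (nat_lit 180271) (nat_lit 26) (.e (nat_lit 704738) (nat_lit 11) (.e (nat_lit 16442) (nat_lit 9) (.e (nat_lit 433920) (nat_lit 31) .nil)))) .nil)) 
(.lf (nat_lit 267853) (.g (nat_lit 1725) (.e (nat_lit 188160) (nat_lit 27) (.e (nat_lit 712755) (nat_lit 30) (.e (nat_lit 450579) (nat_lit 5) (.e (nat_lit 532501) (nat_lit 1) (.e (nat_lit 57651) (nat_lit 152) .nil))))) .nil))) (.nd (nat_lit 6) 
(.lf (nat_lit 267821) (.g (nat_lit 2476) (.e (nat_lit 180272) (nat_lit 26) (.e (nat_lit 704737) (nat_lit 11) (.e (nat_lit 16444) (nat_lit 9) (.e (nat_lit 426503) (nat_lit 27) (.e (nat_lit 335894) (nat_lit 0) (.e (nat_lit 6722) (nat_lit 362) .nil)))))) (.g (nat_lit 5) .nil .nil))) 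
(.lf (nat_lit 267885) (.g (nat_lit 1253) (.e (nat_lit 180273) (nat_lit 31) (.e (nat_lit 745476) (nat_lit 0) (.e (nat_lit 1595) (nat_lit 111) (.e (nat_lit 360473) (nat_lit 8) .nil)))) .nil)))) (.nd (nat_lit 5) (.nd (nat_lit 6) 
(.lf (nat_lit 267805) (.g (nat_lit 1525) (.e (nat_lit 180271) (nat_lit 26) (.e (nat_lit 704738) (nat_lit 11) (.e (nat_lit 16464) (nat_lit 13) (.e (nat_lit 483360) (nat_lit 17) (.e (nat_lit 7936) (nat_lit 362) .nil))))) (.g (nat_lit 4) .nil .nil))) 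
(.lf (nat_lit 267869) (.g (nat_lit 1764) (.e (nat_lit 188160) (nat_lit 27) (.e (nat_lit 712755) (nat_lit 30) (.e (nat_lit 450581) (nat_lit 5) (.e (nat_lit 532501) (nat_lit 1) (.e (nat_lit 57665) (nat_lit 152) .nil))))) .nil))) (.nd (nat_lit 6) 
(.lf (nat_lit 267837) (.g (nat_lit 533) (.e (nat_lit 180272) (nat_lit 26) (.e (nat_lit 704738) (nat_lit 11) (.e (nat_lit 16442) (nat_lit 9) .nil))) .nil)) 
(.lf (nat_lit 267901) (.g (nat_lit 113) (.e (nat_lit 180275) (nat_lit 32) (.e (nat_lit 1074) (nat_lit 81) (.e (nat_lit 1796) (nat_lit 119) .nil))) .nil))))))) (.nd (nat_lit 2) (.nd (nat_lit 3) (.nd (nat_lit 4) (.nd (nat_lit 5) (.nd (nat_lit 6) 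
(.lf (nat_lit 267779) (.g (nat_lit 1790) (.e (nat_lit 180271) (nat_lit 26) (.e (nat_lit 704738) (nat_lit 11) (.e (nat_lit 16440) (nat_lit 9) (.e (nat_lit 426497) (nat_lit 27) (.e (nat_lit 335906) (nat_lit 0) (.e (nat_lit 7936) (nat_lit 362) .nil)))))) (.g (nat_lit 4) .nil .nil))) 
(.lf (nat_lit 267843) (.g (nat_lit 1375) (.e (nat_lit 188160) (nat_lit 26) (.e (nat_lit 704734) (nat_lit 11) (.e (nat_lit 16436) (nat_lit 9) (.e (nat_lit 426550) (nat_lit 31) (.e (nat_lit 376576) (nat_lit 5) .nil))))) .nil))) (.nd (nat_lit 6) 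
(.lf (nat_lit 267811) (.g (nat_lit 1415) (.e (nat_lit 180272) (nat_lit 26) (.e (nat_lit 704732) (nat_lit 11) (.e (nat_lit 16436) (nat_lit 9) (.e (nat_lit 426550) (nat_lit 31) (.e (nat_lit 376576) (nat_lit 5) .nil))))) (.g (nat_lit 4) .nil .nil))) 
(.lf (nat_lit 267875) (.g (nat_lit 2526) (.e (nat_lit 188160) (nat_lit 27) (.e (nat_lit 712755) (nat_lit 30) (.e (nat_lit 450588) (nat_lit 10) (.e (nat_lit 573475) (nat_lit 12) (.e (nat_lit 57500) (nat_lit 37) .nil))))) .nil)))) (.nd (nat_lit 5) (.nd (nat_lit 6) 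
(.lf (nat_lit 267795) (.g (nat_lit 1476) (.e (nat_lit 180271) (nat_lit 26) (.e (nat_lit 704738) (nat_lit 11) (.e (nat_lit 16444) (nat_lit 9) (.e (nat_lit 426547) (nat_lit 31) (.e (nat_lit 376576) (nat_lit 5) .nil))))) (.g (nat_lit 4) .nil .nil))) 
(.lf (nat_lit 267859) (.g (nat_lit 1312) (.e (nat_lit 188160) (nat_lit 27) (.e (nat_lit 712755) (nat_lit 30) (.e (nat_lit 450580) (nat_lit 5) (.e (nat_lit 532484) (nat_lit 0) .nil)))) .nil))) (.nd (nat_lit 6) 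
(.lf (nat_lit 267827) (.g (nat_lit 1148) (.e (nat_lit 180272) (nat_lit 26) (.e (nat_lit 704738) (nat_lit 11) (.e (nat_lit 16392) (nat_lit 0) (.e (nat_lit 7349) (nat_lit 388) .nil)))) .nil)) 
(.lf (nat_lit 267891) (.g (nat_lit 3513) (.e (nat_lit 180273) (nat_lit 31) (.e (nat_lit 745491) (nat_lit 4) (.e (nat_lit 65598) (nat_lit 9) (.e (nat_lit 336013) (nat_lit 2) (.e (nat_lit 90155) (nat_lit 10) .nil))))) .nil))))) (.nd (nat_lit 4) (.nd (nat_lit 5) (.nd (nat_lit 6) 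
(.lf (nat_lit 267787) (.g (nat_lit 3396) (.e (nat_lit 180271) (nat_lit 26) (.e (nat_lit 704738) (nat_lit 11) (.e (nat_lit 16440) (nat_lit 9) (.e (nat_lit 426528) (nat_lit 27) (.e (nat_lit 335894) (nat_lit 0) (.e (nat_lit 6722) (nat_lit 362) .nil)))))) (.g (nat_lit 6) .nil .nil))) 
(.lf (nat_lit 267851) (.g (nat_lit 2038) (.e (nat_lit 188160) (nat_lit 27) (.e (nat_lit 712755) (nat_lit 30) (.e (nat_lit 450579) (nat_lit 5) (.e (nat_lit 532499) (nat_lit 1) (.e (nat_lit 57655) (nat_lit 152) .nil))))) .nil))) (.nd (nat_lit 6) 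
(.lf (nat_lit 267819) (.g (nat_lit 1881) (.e (nat_lit 180272) (nat_lit 26) (.e (nat_lit 704737) (nat_lit 11) (.e (nat_lit 16438) (nat_lit 9) (.e (nat_lit 426550) (nat_lit 31) (.e (nat_lit 376576) (nat_lit 5) .nil))))) (.g (nat_lit 4) .nil .nil))) 
(.lf (nat_lit 267883) (.g (nat_lit 1128) (.e (nat_lit 180273) (nat_lit 31) (.e (nat_lit 745476) (nat_lit 0) (.e (nat_lit 1589) (nat_lit 111) (.e (nat_lit 360473) (nat_lit 8) .nil)))) .nil)))) (.nd (nat_lit 5) (.nd (nat_lit 6) 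
(.lf (nat_lit 267803) (.g (nat_lit 1564) (.e (nat_lit 180271) (nat_lit 26) (.e (nat_lit 704738) (nat_lit 11) (.e (nat_lit 16464) (nat_lit 13) (.e (nat_lit 483354) (nat_lit 17) (.e (nat_lit 7936) (nat_lit 362) .nil))))) (.g (nat_lit 4) .nil .nil))) 
(.lf (nat_lit 267867) (.g (nat_lit 1691) (.e (nat_lit 188160) (nat_lit 27) (.e (nat_lit 712755) (nat_lit 30) (.e (nat_lit 450581) (nat_lit 5) (.e (nat_lit 532501) (nat_lit 1) (.e (nat_lit 57651) (nat_lit 152) .nil))))) .nil))) (.nd (nat_lit 6) 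
(.lf (nat_lit 267835) (.g (nat_lit 3139) (.e (nat_lit 180272) (nat_lit 26) (.e (nat_lit 704738) (nat_lit 11) (.e (nat_lit 16440) (nat_lit 9) (.e (nat_lit 426528) (nat_lit 27) (.e (nat_lit 335894) (nat_lit 0) (.e (nat_lit 6722) (nat_lit 362) .nil)))))) (.g (nat_lit 6) .nil .nil))) 
(.lf (nat_lit 267899) (.g (nat_lit 1407) (.e (nat_lit 180273) (nat_lit 31) (.e (nat_lit 745493) (nat_lit 6) (.e (nat_lit 81956) (nat_lit 23) (.e (nat_lit 98309) (nat_lit 0) (.e (nat_lit 7936) (nat_lit 362) .nil))))) .nil)))))) (.nd (nat_lit 3) (.nd (nat_lit 4) (.nd (nat_lit 5) (.nd (nat_lit 6) 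
(.lf (nat_lit 267783) (.g (nat_lit 1804) (.e (nat_lit 180271) (nat_lit 26) (.e (nat_lit 704738) (nat_lit 11) (.e (nat_lit 16440) (nat_lit 9) (.e (nat_lit 426501) (nat_lit 27) (.e (nat_lit 335906) (nat_lit 0) (.e (nat_lit 7936) (nat_lit 362) .nil)))))) (.g (nat_lit 4) .nil .nil))) 
(.lf (nat_lit 267847) (.g (nat_lit 2350) (.e (nat_lit 188160) (nat_lit 27) (.e (nat_lit 712753) (nat_lit 30) (.e (nat_lit 450579) (nat_lit 5) (.e (nat_lit 532504) (nat_lit 1) (.e (nat_lit 57664) (nat_lit 152) .nil))))) .nil))) (.nd (nat_lit 6) 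
(.lf (nat_lit 267815) (.g (nat_lit 1436) (.e (nat_lit 180272) (nat_lit 26) (.e (nat_lit 704737) (nat_lit 11) (.e (nat_lit 16432) (nat_lit 9) (.e (nat_lit 426550) (nat_lit 31) (.e (nat_lit 376576) (nat_lit 5) .nil))))) (.g (nat_lit 4) .nil .nil))) 
(.lf (nat_lit 267879) (.g (nat_lit 151) (.e (nat_lit 180273) (nat_lit 31) (.e (nat_lit 745475) (nat_lit 0) (.e (nat_lit 1595) (nat_lit 111) .nil))) .nil)))) (.nd (nat_lit 5) (.nd (nat_lit 6) 
(.lf (nat_lit 267799) (.g (nat_lit 3062) (.e (nat_lit 180271) (nat_lit 26) (.e (nat_lit 704738) (nat_lit 11) (.e (nat_lit 16463) (nat_lit 13) (.e (nat_lit 483344) (nat_lit 17) (.e (nat_lit 6724) (nat_lit 362) .nil))))) (.g (nat_lit 0) .nil .nil))) 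
(.lf (nat_lit 267863) (.g (nat_lit 2211) (.e (nat_lit 188160) (nat_lit 27) (.e (nat_lit 712755) (nat_lit 30) (.e (nat_lit 450580) (nat_lit 5) (.e (nat_lit 532501) (nat_lit 1) (.e (nat_lit 57663) (nat_lit 152) .nil))))) .nil))) (.nd (nat_lit 6) 
(.lf (nat_lit 267831) (.g (nat_lit 1843) (.e (nat_lit 180272) (nat_lit 26) (.e (nat_lit 704738) (nat_lit 11) (.e (nat_lit 16432) (nat_lit 9) (.e (nat_lit 426550) (nat_lit 31) (.e (nat_lit 376576) (nat_lit 5) .nil))))) (.g (nat_lit 4) .nil .nil))) 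
(.lf (nat_lit 267895) (.g (nat_lit 2706) (.e (nat_lit 180273) (nat_lit 31) (.e (nat_lit 745491) (nat_lit 4) (.e (nat_lit 65610) (nat_lit 10) (.e (nat_lit 344117) (nat_lit 21) (.e (nat_lit 516190) (nat_lit 17) .nil))))) .nil))))) (.nd (nat_lit 4) (.nd (nat_lit 5) (.nd (nat_lit 6) 
(.lf (nat_lit 267791) (.g (nat_lit 1955) (.e (nat_lit 180271) (nat_lit 26) (.e (nat_lit 704738) (nat_lit 11) (.e (nat_lit 16444) (nat_lit 9) (.e (nat_lit 426520) (nat_lit 27) (.e (nat_lit 335872) (nat_lit 0) (.e (nat_lit 6721) (nat_lit 362) .nil)))))) (.g (nat_lit 5) .nil .nil))) 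
(.lf (nat_lit 267855) (.g (nat_lit 1057) (.e (nat_lit 188160) (nat_lit 27) (.e (nat_lit 712755) (nat_lit 30) (.e (nat_lit 450579) (nat_lit 5) (.e (nat_lit 532503) (nat_lit 1) .nil)))) .nil))) (.nd (nat_lit 6) 
(.lf (nat_lit 267823) (.g (nat_lit 1437) (.e (nat_lit 180272) (nat_lit 26) (.e (nat_lit 704737) (nat_lit 11) (.e (nat_lit 16444) (nat_lit 9) (.e (nat_lit 426549) (nat_lit 31) (.e (nat_lit 376576) (nat_lit 5) .nil))))) (.g (nat_lit 4) .nil .nil))) 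
(.lf (nat_lit 267887) (.g (nat_lit 1057) (.e (nat_lit 180273) (nat_lit 31) (.e (nat_lit 745476) (nat_lit 0) (.e (nat_lit 1598) (nat_lit 111) (.e (nat_lit 360466) (nat_lit 3) .nil)))) .nil)))) (.nd (nat_lit 5) (.nd (nat_lit 6) 
(.lf (nat_lit 267807) (.g (nat_lit 1738) (.e (nat_lit 180271) (nat_lit 26) (.e (nat_lit 704738) (nat_lit 11) (.e (nat_lit 16466) (nat_lit 13) (.e (nat_lit 483353) (nat_lit 17) (.e (nat_lit 7936) (nat_lit 362) .nil))))) (.g (nat_lit 4) .nil .nil))) 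
(.lf (nat_lit 267871) (.g (nat_lit 2089) (.e (nat_lit 188160) (nat_lit 27) (.e (nat_lit 712755) (nat_lit 30) (.e (nat_lit 450587) (nat_lit 10) (.e (nat_lit 573477) (nat_lit 12) (.e (nat_lit 57502) (nat_lit 38) .nil))))) .nil))) (.nd (nat_lit 6) 
(.lf (nat_lit 267839) (.g (nat_lit 735) (.e (nat_lit 180272) (nat_lit 26) (.e (nat_lit 704738) (nat_lit 11) (.e (nat_lit 16444) (nat_lit 9) (.e (nat_lit 426532) (nat_lit 28) .nil)))) .nil)) 
(.lf (nat_lit 267903) (.g (nat_lit 1420) (.e (nat_lit 180275) (nat_lit 32) (.e (nat_lit 1074) (nat_lit 81) (.e (nat_lit 1796) (nat_lit 119) (.e (nat_lit 516163) (nat_lit 11) (.e (nat_lit 442377) (nat_lit 0) .nil))))) .nil)))))))))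

noncomputable def tv3439 : DT := (.nd (nat_lit 0) (.nd (nat_lit 1) (.nd (nat_lit 2) (.nd (nat_lit 3) (.nd (nat_lit 4) (.nd (nat_lit 5) 
(.lf (nat_lit 267904) (.g (nat_lit 1468) (.e (nat_lit 180275) (nat_lit 32) (.e (nat_lit 1074) (nat_lit 81) (.e (nat_lit 1796) (nat_lit 119) (.e (nat_lit 516174) (nat_lit 14) (.e (nat_lit 474880) (nat_lit 0) .nil))))) .nil)) 
(.lf (nat_lit 267936) (.g (nat_lit 2296) (.e (nat_lit 180277) (nat_lit 32) (.e (nat_lit 1234) (nat_lit 91) (.e (nat_lit 90178) (nat_lit 15) (.e (nat_lit 188440) (nat_lit 20) (.e (nat_lit 3271) (nat_lit 199) (.e (nat_lit 548914) (nat_lit 19) .nil)))))) (.g (nat_lit 4) .nil .nil)))) (.nd (nat_lit 5) 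
(.lf (nat_lit 267920) (.g (nat_lit 1547) (.e (nat_lit 180277) (nat_lit 32) (.e (nat_lit 1234) (nat_lit 91) (.e (nat_lit 90170) (nat_lit 13) (.e (nat_lit 172077) (nat_lit 7) .nil)))) .nil)) 
(.lf (nat_lit 267952) (.g (nat_lit 1390) (.e (nat_lit 180277) (nat_lit 32) (.e (nat_lit 1235) (nat_lit 91) (.e (nat_lit 90172) (nat_lit 14) (.e (nat_lit 180278) (nat_lit 32) (.e (nat_lit 1234) (nat_lit 91) .nil))))) .nil)))) (.nd (nat_lit 4) (.nd (nat_lit 5) 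
(.lf (nat_lit 267912) (.g (nat_lit 644) (.e (nat_lit 180276) (nat_lit 32) (.e (nat_lit 1074) (nat_lit 81) (.e (nat_lit 1796) (nat_lit 119) (.e (nat_lit 516177) (nat_lit 14) .nil)))) .nil)) 
(.lf (nat_lit 267944) (.g (nat_lit 1073) (.e (nat_lit 180277) (nat_lit 32) (.e (nat_lit 1235) (nat_lit 91) (.e (nat_lit 90134) (nat_lit 9) (.e (nat_lit 3002) (nat_lit 186) .nil)))) .nil))) (.nd (nat_lit 5) 
(.lf (nat_lit 267928) (.g (nat_lit 3395) (.e (nat_lit 180277) (nat_lit 32) (.e (nat_lit 1234) (nat_lit 91) (.e (nat_lit 90170) (nat_lit 13) (.e (nat_lit 172118) (nat_lit 12) (.e (nat_lit 475185) (nat_lit 29) (.e (nat_lit 557105) (nat_lit 14) .nil)))))) (.g (nat_lit 0) .nil .nil))) 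
(.lf (nat_lit 267960) (.g (nat_lit 1189) (.e (nat_lit 180277) (nat_lit 32) (.e (nat_lit 1252) (nat_lit 92) (.e (nat_lit 98350) (nat_lit 24) (.e (nat_lit 417536) (nat_lit 6) .nil)))) .nil))))) (.nd (nat_lit 3) (.nd (nat_lit 4) (.nd (nat_lit 5) 
(.lf (nat_lit 267908) (.g (nat_lit 116) (.e (nat_lit 180276) (nat_lit 32) (.e (nat_lit 1074) (nat_lit 81) (.e (nat_lit 1796) (nat_lit 119) .nil))) .nil)) 
(.lf (nat_lit 267940) (.g (nat_lit 1972) (.e (nat_lit 180277) (nat_lit 32) (.e (nat_lit 1234) (nat_lit 91) (.e (nat_lit 90185) (nat_lit 17) (.e (nat_lit 237615) (nat_lit 12) (.e (nat_lit 475185) (nat_lit 29) .nil))))) .nil))) (.nd (nat_lit 5) 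
(.lf (nat_lit 267924) (.g (nat_lit 1474) (.e (nat_lit 180277) (nat_lit 32) (.e (nat_lit 1234) (nat_lit 91) (.e (nat_lit 90170) (nat_lit 13) (.e (nat_lit 172113) (nat_lit 10) (.e (nat_lit 434203) (nat_lit 18) .nil))))) .nil)) 
(.lf (nat_lit 267956) (.g (nat_lit 1266) (.e (nat_lit 180277) (nat_lit 32) (.e (nat_lit 1235) (nat_lit 91) (.e (nat_lit 90185) (nat_lit 17) (.e (nat_lit 237601) (nat_lit 9) .nil)))) .nil)))) (.nd (nat_lit 4) (.nd (nat_lit 5) 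
(.lf (nat_lit 267916) (.g (nat_lit 1222) (.e (nat_lit 180276) (nat_lit 32) (.e (nat_lit 1077) (nat_lit 81) (.e (nat_lit 1796) (nat_lit 119) (.e (nat_lit 516176) (nat_lit 14) (.e (nat_lit 474880) (nat_lit 0) .nil))))) .nil)) 
(.lf (nat_lit 267948) (.g (nat_lit 1112) (.e (nat_lit 180277) (nat_lit 32) (.e (nat_lit 1235) (nat_lit 91) (.e (nat_lit 90170) (nat_lit 13) (.e (nat_lit 172092) (nat_lit 9) .nil)))) .nil))) (.nd (nat_lit 5) 
(.lf (nat_lit 267932) (.g (nat_lit 815) (.e (nat_lit 180277) (nat_lit 32) (.e (nat_lit 1234) (nat_lit 91) (.e (nat_lit 90173) (nat_lit 14) (.e (nat_lit 180284) (nat_lit 45) .nil)))) .nil)) 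
(.lf (nat_lit 267964) (.g (nat_lit 803) (.e (nat_lit 180277) (nat_lit 32) (.e (nat_lit 1253) (nat_lit 92) (.e (nat_lit 98353) (nat_lit 25) (.e (nat_lit 417809) (nat_lit 6) .nil)))) .nil)))))) (.nd (nat_lit 2) (.nd (nat_lit 3) (.nd (nat_lit 4) (.nd (nat_lit 5) 
(.lf (nat_lit 267906) (.g (nat_lit 1335) (.e (nat_lit 180275) (nat_lit 32) (.e (nat_lit 1077) (nat_lit 81) (.e (nat_lit 1796) (nat_lit 119) (.e (nat_lit 516139) (nat_lit 7) (.e (nat_lit 417536) (nat_lit 6) .nil))))) .nil)) 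
(.lf (nat_lit 267938) (.g (nat_lit 1986) (.e (nat_lit 180277) (nat_lit 32) (.e (nat_lit 1234) (nat_lit 91) (.e (nat_lit 90185) (nat_lit 17) (.e (nat_lit 237603) (nat_lit 9) .nil)))) .nil))) (.nd (nat_lit 5) 
(.lf (nat_lit 267922) (.g (nat_lit 1534) (.e (nat_lit 180277) (nat_lit 32) (.e (nat_lit 1234) (nat_lit 91) (.e (nat_lit 90170) (nat_lit 13) (.e (nat_lit 172095) (nat_lit 9) (.e (nat_lit 426380) (nat_lit 15) .nil))))) .nil)) 
(.lf (nat_lit 267954) (.g (nat_lit 1052) (.e (nat_lit 180277) (nat_lit 32) (.e (nat_lit 1235) (nat_lit 91) (.e (nat_lit 90178) (nat_lit 15) (.e (nat_lit 196352) (nat_lit 0) .nil)))) .nil)))) (.nd (nat_lit 4) (.nd (nat_lit 5) 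
(.lf (nat_lit 267914) (.g (nat_lit 1305) (.e (nat_lit 180276) (nat_lit 32) (.e (nat_lit 1077) (nat_lit 81) (.e (nat_lit 1796) (nat_lit 119) (.e (nat_lit 516163) (nat_lit 11) (.e (nat_lit 442377) (nat_lit 0) .nil))))) .nil)) 
(.lf (nat_lit 267946) (.g (nat_lit 2888) (.e (nat_lit 180277) (nat_lit 32) (.e (nat_lit 1235) (nat_lit 91) (.e (nat_lit 90170) (nat_lit 13) (.e (nat_lit 172079) (nat_lit 7) (.e (nat_lit 409631) (nat_lit 12) (.e (nat_lit 32808) (nat_lit 19) .nil)))))) (.g (nat_lit 0) .nil .nil)))) (.nd (nat_lit 5) 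
(.lf (nat_lit 267930) (.g (nat_lit 1481) (.e (nat_lit 180277) (nat_lit 32) (.e (nat_lit 1234) (nat_lit 91) (.e (nat_lit 90172) (nat_lit 14) (.e (nat_lit 180278) (nat_lit 32) .nil)))) .nil)) 
(.lf (nat_lit 267962) (.g (nat_lit 750) (.e (nat_lit 180277) (nat_lit 32) (.e (nat_lit 1252) (nat_lit 92) (.e (nat_lit 98381) (nat_lit 31) (.e (nat_lit 466967) (nat_lit 20) (.e (nat_lit 3266) (nat_lit 199) .nil))))) .nil))))) (.nd (nat_lit 3) (.nd (nat_lit 4) (.nd (nat_lit 5) 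
(.lf (nat_lit 267910) (.g (nat_lit 1182) (.e (nat_lit 180276) (nat_lit 32) (.e (nat_lit 1074) (nat_lit 81) (.e (nat_lit 1796) (nat_lit 119) (.e (nat_lit 516163) (nat_lit 11) (.e (nat_lit 450304) (nat_lit 0) .nil))))) .nil)) 
(.lf (nat_lit 267942) (.g (nat_lit 1834) (.e (nat_lit 180277) (nat_lit 32) (.e (nat_lit 1234) (nat_lit 91) (.e (nat_lit 90185) (nat_lit 17) (.e (nat_lit 237625) (nat_lit 14) .nil)))) .nil))) (.nd (nat_lit 5) 
(.lf (nat_lit 267926) (.g (nat_lit 2708) (.e (nat_lit 180277) (nat_lit 32) (.e (nat_lit 1234) (nat_lit 91) (.e (nat_lit 90170) (nat_lit 13) (.e (nat_lit 172113) (nat_lit 10) (.e (nat_lit 434238) (nat_lit 25) (.e (nat_lit 548914) (nat_lit 19) .nil)))))) (.g (nat_lit 0) .nil .nil))) 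
(.lf (nat_lit 267958) (.g (nat_lit 1542) (.e (nat_lit 180277) (nat_lit 32) (.e (nat_lit 1235) (nat_lit 91) (.e (nat_lit 90185) (nat_lit 17) (.e (nat_lit 237604) (nat_lit 9) .nil)))) .nil)))) (.nd (nat_lit 4) (.nd (nat_lit 5) 
(.lf (nat_lit 267918) (.g (nat_lit 2049) (.e (nat_lit 180276) (nat_lit 32) (.e (nat_lit 1515) (nat_lit 108) (.e (nat_lit 336429) (nat_lit 29) (.e (nat_lit 442379) (nat_lit 0) (.e (nat_lit 2059) (nat_lit 142) (.e (nat_lit 704595) (nat_lit 5) .nil)))))) (.g (nat_lit 6) .nil .nil))) 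
(.lf (nat_lit 267950) (.g (nat_lit 3639) (.e (nat_lit 180277) (nat_lit 32) (.e (nat_lit 1235) (nat_lit 91) (.e (nat_lit 90170) (nat_lit 13) (.e (nat_lit 172124) (nat_lit 14) (.e (nat_lit 491537) (nat_lit 2) (.e (nat_lit 90174) (nat_lit 14) .nil)))))) (.g (nat_lit 0) .nil .nil)))) (.nd (nat_lit 5) 
(.lf (nat_lit 267934) (.g (nat_lit 1765) (.e (nat_lit 180277) (nat_lit 32) (.e (nat_lit 1234) (nat_lit 91) (.e (nat_lit 90174) (nat_lit 14) (.e (nat_lit 188160) (nat_lit 32) .nil)))) .nil)) 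
(.lf (nat_lit 267966) (.g (nat_lit 1440) (.e (nat_lit 180277) (nat_lit 32) (.e (nat_lit 1253) (nat_lit 92) (.e (nat_lit 98358) (nat_lit 26) (.e (nat_lit 426227) (nat_lit 9) (.e (nat_lit 433920) (nat_lit 15) .nil))))) .nil))))))) (.nd (nat_lit 1) (.nd (nat_lit 2) (.nd (nat_lit 3) (.nd (nat_lit 4) (.nd (nat_lit 5) 
(.lf (nat_lit 267905) (.g (nat_lit 1313) (.e (nat_lit 180275) (nat_lit 32) (.e (nat_lit 1074) (nat_lit 81) (.e (nat_lit 1796) (nat_lit 119) (.e (nat_lit 516176) (nat_lit 14) (.e (nat_lit 474880) (nat_lit 0) .nil))))) .nil)) 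
(.lf (nat_lit 267937) (.g (nat_lit 1230) (.e (nat_lit 180277) (nat_lit 32) (.e (nat_lit 1234) (nat_lit 91) (.e (nat_lit 90185) (nat_lit 17) (.e (nat_lit 237601) (nat_lit 9) .nil)))) .nil))) (.nd (nat_lit 5) 
(.lf (nat_lit 267921) (.g (nat_lit 1490) (.e (nat_lit 180277) (nat_lit 32) (.e (nat_lit 1234) (nat_lit 91) (.e (nat_lit 90170) (nat_lit 13) (.e (nat_lit 172078) (nat_lit 7) .nil)))) .nil)) 
(.lf (nat_lit 267953) (.g (nat_lit 981) (.e (nat_lit 180277) (nat_lit 32) (.e (nat_lit 1235) (nat_lit 91) (.e (nat_lit 90176) (nat_lit 15) (.e (nat_lit 196352) (nat_lit 0) .nil)))) .nil)))) (.nd (nat_lit 4) (.nd (nat_lit 5) 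
(.lf (nat_lit 267913) (.g (nat_lit 192) (.e (nat_lit 180276) (nat_lit 32) (.e (nat_lit 1077) (nat_lit 81) (.e (nat_lit 1796) (nat_lit 119) .nil))) .nil)) 
(.lf (nat_lit 267945) (.g (nat_lit 1370) (.e (nat_lit 180277) (nat_lit 32) (.e (nat_lit 1235) (nat_lit 91) (.e (nat_lit 90170) (nat_lit 13) (.e (nat_lit 172037) (nat_lit 0) .nil)))) .nil))) (.nd (nat_lit 5) 
(.lf (nat_lit 267929) (.g (nat_lit 1946) (.e (nat_lit 180277) (nat_lit 32) (.e (nat_lit 1234) (nat_lit 91) (.e (nat_lit 90170) (nat_lit 13) (.e (nat_lit 172124) (nat_lit 14) (.e (nat_lit 491536) (nat_lit 2) .nil))))) .nil)) 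
(.lf (nat_lit 267961) (.g (nat_lit 1075) (.e (nat_lit 180277) (nat_lit 32) (.e (nat_lit 1252) (nat_lit 92) (.e (nat_lit 98359) (nat_lit 26) (.e (nat_lit 426338) (nat_lit 14) .nil)))) .nil))))) (.nd (nat_lit 3) (.nd (nat_lit 4) (.nd (nat_lit 5) 
(.lf (nat_lit 267909) (.g (nat_lit 1038) (.e (nat_lit 180276) (nat_lit 32) (.e (nat_lit 1074) (nat_lit 81) (.e (nat_lit 1796) (nat_lit 119) (.e (nat_lit 516160) (nat_lit 10) (.e (nat_lit 442112) (nat_lit 0) .nil))))) .nil)) 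
(.lf (nat_lit 267941) (.g (nat_lit 906) (.e (nat_lit 180277) (nat_lit 32) (.e (nat_lit 1234) (nat_lit 91) (.e (nat_lit 90185) (nat_lit 17) (.e (nat_lit 237616) (nat_lit 12) .nil)))) .nil))) (.nd (nat_lit 5) 
(.lf (nat_lit 267925) (.g (nat_lit 1626) (.e (nat_lit 180277) (nat_lit 32) (.e (nat_lit 1234) (nat_lit 91) (.e (nat_lit 90170) (nat_lit 13) (.e (nat_lit 172113) (nat_lit 10) (.e (nat_lit 434208) (nat_lit 18) (.e (nat_lit 3919) (nat_lit 239) (.e (nat_lit 2636) (nat_lit 165) .nil))))))) (.g (nat_lit 4) .nil .nil))) 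
(.lf (nat_lit 267957) (.g (nat_lit 1676) (.e (nat_lit 180277) (nat_lit 32) (.e (nat_lit 1235) (nat_lit 91) (.e (nat_lit 90185) (nat_lit 17) (.e (nat_lit 237603) (nat_lit 9) .nil)))) .nil)))) (.nd (nat_lit 4) (.nd (nat_lit 5) 
(.lf (nat_lit 267917) (.g (nat_lit 2105) (.e (nat_lit 180276) (nat_lit 32) (.e (nat_lit 1512) (nat_lit 108) (.e (nat_lit 336429) (nat_lit 29) (.e (nat_lit 442379) (nat_lit 0) (.e (nat_lit 2059) (nat_lit 142) (.e (nat_lit 704595) (nat_lit 5) .nil)))))) (.g (nat_lit 0) .nil .nil))) 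
(.lf (nat_lit 267949) (.g (nat_lit 1425) (.e (nat_lit 180277) (nat_lit 32) (.e (nat_lit 1235) (nat_lit 91) (.e (nat_lit 90170) (nat_lit 13) (.e (nat_lit 172107) (nat_lit 10) .nil)))) .nil))) (.nd (nat_lit 5) 
(.lf (nat_lit 267933) (.g (nat_lit 1721) (.e (nat_lit 180277) (nat_lit 32) (.e (nat_lit 1234) (nat_lit 91) (.e (nat_lit 90174) (nat_lit 14) (.e (nat_lit 180277) (nat_lit 32) .nil)))) .nil)) 
(.lf (nat_lit 267965) (.g (nat_lit 895) (.e (nat_lit 180277) (nat_lit 32) (.e (nat_lit 1253) (nat_lit 92) (.e (nat_lit 98353) (nat_lit 25) (.e (nat_lit 417812) (nat_lit 7) .nil)))) .nil)))))) (.nd (nat_lit 2) (.nd (nat_lit 3) (.nd (nat_lit 4) (.nd (nat_lit 5) 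
(.lf (nat_lit 267907) (.g (nat_lit 1353) (.e (nat_lit 180275) (nat_lit 32) (.e (nat_lit 1077) (nat_lit 81) (.e (nat_lit 1796) (nat_lit 119) (.e (nat_lit 516174) (nat_lit 14) (.e (nat_lit 474880) (nat_lit 0) .nil))))) .nil)) 
(.lf (nat_lit 267939) (.g (nat_lit 1554) (.e (nat_lit 180277) (nat_lit 32) (.e (nat_lit 1234) (nat_lit 91) (.e (nat_lit 90185) (nat_lit 17) (.e (nat_lit 237605) (nat_lit 9) (.e (nat_lit 426402) (nat_lit 15) .nil))))) .nil))) (.nd (nat_lit 5) 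
(.lf (nat_lit 267923) (.g (nat_lit 1445) (.e (nat_lit 180277) (nat_lit 32) (.e (nat_lit 1234) (nat_lit 91) (.e (nat_lit 90170) (nat_lit 13) (.e (nat_lit 172095) (nat_lit 9) (.e (nat_lit 433920) (nat_lit 15) .nil))))) .nil)) 
(.lf (nat_lit 267955) (.g (nat_lit 2803) (.e (nat_lit 180277) (nat_lit 32) (.e (nat_lit 1235) (nat_lit 91) (.e (nat_lit 90178) (nat_lit 15) (.e (nat_lit 188441) (nat_lit 20) (.e (nat_lit 3272) (nat_lit 199) (.e (nat_lit 548914) (nat_lit 19) .nil)))))) (.g (nat_lit 6) .nil .nil))))) (.nd (nat_lit 4) (.nd (nat_lit 5) 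
(.lf (nat_lit 267915) (.g (nat_lit 1377) (.e (nat_lit 180276) (nat_lit 32) (.e (nat_lit 1077) (nat_lit 81) (.e (nat_lit 1796) (nat_lit 119) (.e (nat_lit 516174) (nat_lit 14) (.e (nat_lit 474880) (nat_lit 0) .nil))))) .nil)) 
(.lf (nat_lit 267947) (.g (nat_lit 2323) (.e (nat_lit 180277) (nat_lit 32) (.e (nat_lit 1235) (nat_lit 91) (.e (nat_lit 90170) (nat_lit 13) (.e (nat_lit 172082) (nat_lit 7) (.e (nat_lit 409631) (nat_lit 12) (.e (nat_lit 32808) (nat_lit 19) .nil)))))) (.g (nat_lit 0) .nil .nil)))) (.nd (nat_lit 5) 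
(.lf (nat_lit 267931) (.g (nat_lit 1445) (.e (nat_lit 180277) (nat_lit 32) (.e (nat_lit 1234) (nat_lit 91) (.e (nat_lit 90172) (nat_lit 14) (.e (nat_lit 188160) (nat_lit 32) .nil)))) .nil)) 
(.lf (nat_lit 267963) (.g (nat_lit 3666) (.e (nat_lit 180277) (nat_lit 32) (.e (nat_lit 1253) (nat_lit 92) (.e (nat_lit 98350) (nat_lit 24) (.e (nat_lit 409602) (nat_lit 0) (.e (nat_lit 5293) (nat_lit 298) (.e (nat_lit 1232) (nat_lit 91) (.e (nat_lit 90173) (nat_lit 14) .nil))))))) (.g (nat_lit 6) .nil .nil)))))) (.nd (nat_lit 3) (.nd (nat_lit 4) (.nd (nat_lit 5) 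
(.lf (nat_lit 267911) (.g (nat_lit 2004) (.e (nat_lit 180276) (nat_lit 32) (.e (nat_lit 1074) (nat_lit 81) (.e (nat_lit 1796) (nat_lit 119) (.e (nat_lit 516166) (nat_lit 12) (.e (nat_lit 450583) (nat_lit 7) (.e (nat_lit 548914) (nat_lit 19) .nil)))))) (.g (nat_lit 6) .nil .nil))) 
(.lf (nat_lit 267943) (.g (nat_lit 1157) (.e (nat_lit 180277) (nat_lit 32) (.e (nat_lit 1235) (nat_lit 91) (.e (nat_lit 90134) (nat_lit 9) (.e (nat_lit 140) (nat_lit 8) .nil)))) .nil))) (.nd (nat_lit 5) 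
(.lf (nat_lit 267927) (.g (nat_lit 1540) (.e (nat_lit 180277) (nat_lit 32) (.e (nat_lit 1234) (nat_lit 91) (.e (nat_lit 90170) (nat_lit 13) (.e (nat_lit 172118) (nat_lit 12) (.e (nat_lit 475184) (nat_lit 29) .nil))))) .nil)) 
(.lf (nat_lit 267959) (.g (nat_lit 893) (.e (nat_lit 180277) (nat_lit 32) (.e (nat_lit 1235) (nat_lit 91) (.e (nat_lit 90185) (nat_lit 17) (.e (nat_lit 237605) (nat_lit 9) .nil)))) .nil)))) (.nd (nat_lit 4) (.nd (nat_lit 5) 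
(.lf (nat_lit 267919) (.g (nat_lit 2057) (.e (nat_lit 180276) (nat_lit 32) (.e (nat_lit 1516) (nat_lit 108) (.e (nat_lit 336429) (nat_lit 29) (.e (nat_lit 442379) (nat_lit 0) (.e (nat_lit 2059) (nat_lit 142) (.e (nat_lit 704595) (nat_lit 5) .nil)))))) (.g (nat_lit 0) .nil .nil))) 
(.lf (nat_lit 267951) (.g (nat_lit 4071) (.e (nat_lit 180277) (nat_lit 32) (.e (nat_lit 1235) (nat_lit 91) (.e (nat_lit 90170) (nat_lit 13) (.e (nat_lit 172126) (nat_lit 14) (.e (nat_lit 491537) (nat_lit 2) (.e (nat_lit 90174) (nat_lit 14) .nil)))))) (.g (nat_lit 0) .nil .nil)))) (.nd (nat_lit 5) 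
(.lf (nat_lit 267935) (.g (nat_lit 1204) (.e (nat_lit 180277) (nat_lit 32) (.e (nat_lit 1234) (nat_lit 91) (.e (nat_lit 90176) (nat_lit 15) (.e (nat_lit 196352) (nat_lit 0) .nil)))) .nil)) 
(.lf (nat_lit 267967) (.g (nat_lit 3347) (.e (nat_lit 180277) (nat_lit 32) (.e (nat_lit 1253) (nat_lit 92) (.e (nat_lit 98365) (nat_lit 26) (.e (nat_lit 426306) (nat_lit 12) (.e (nat_lit 475185) (nat_lit 29) (.e (nat_lit 557105) (nat_lit 14) .nil)))))) (.g (nat_lit 0) .nil .nil)))))))))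

noncomputable def tv3440 : DT := (.nd (nat_lit 0) (.nd (nat_lit 1) (.nd (nat_lit 2) (.nd (nat_lit 3) (.nd (nat_lit 4) (.nd (nat_lit 5) 
(.lf (nat_lit 267968) (.g (nat_lit 1581) (.e (nat_lit 180277) (nat_lit 32) (.e (nat_lit 1253) (nat_lit 92) (.e (nat_lit 98367) (nat_lit 27) (.e (nat_lit 434177) (nat_lit 0) .nil)))) .nil)) 
(.lf (nat_lit 268000) (.g (nat_lit 2162) (.e (nat_lit 180277) (nat_lit 32) (.e (nat_lit 1428) (nat_lit 108) (.e (nat_lit 336430) (nat_lit 29) (.e (nat_lit 442409) (nat_lit 20) (.e (nat_lit 3408) (nat_lit 212) (.e (nat_lit 655379) (nat_lit 5) .nil)))))) (.g (nat_lit 0) .nil .nil)))) (.nd (nat_lit 5) 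
(.lf (nat_lit 267984) (.g (nat_lit 1618) (.e (nat_lit 180277) (nat_lit 32) (.e (nat_lit 1427) (nat_lit 108) (.e (nat_lit 336428) (nat_lit 29) (.e (nat_lit 442377) (nat_lit 0) .nil)))) .nil)) 
(.lf (nat_lit 268016) (.g (nat_lit 2970) (.e (nat_lit 180277) (nat_lit 32) (.e (nat_lit 1659) (nat_lit 115) (.e (nat_lit 393294) (nat_lit 26) (.e (nat_lit 475199) (nat_lit 40) (.e (nat_lit 704595) (nat_lit 5) .nil))))) (.g (nat_lit 0) .nil .nil))))) (.nd (nat_lit 4) (.nd (nat_lit 5) 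
(.lf (nat_lit 267976) (.g (nat_lit 1504) (.e (nat_lit 180277) (nat_lit 32) (.e (nat_lit 1425) (nat_lit 108) (.e (nat_lit 336430) (nat_lit 29) (.e (nat_lit 442409) (nat_lit 20) (.e (nat_lit 3406) (nat_lit 212) (.e (nat_lit 655379) (nat_lit 5) .nil)))))) (.g (nat_lit 0) .nil .nil))) 
(.lf (nat_lit 268008) (.g (nat_lit 2136) (.e (nat_lit 180277) (nat_lit 32) (.e (nat_lit 1659) (nat_lit 115) (.e (nat_lit 393271) (nat_lit 23) (.e (nat_lit 426444) (nat_lit 19) (.e (nat_lit 114432) (nat_lit 5) .nil))))) (.g (nat_lit 4) .nil .nil)))) (.nd (nat_lit 5) 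
(.lf (nat_lit 267992) (.g (nat_lit 2306) (.e (nat_lit 180277) (nat_lit 32) (.e (nat_lit 1428) (nat_lit 108) (.e (nat_lit 336414) (nat_lit 27) (.e (nat_lit 426318) (nat_lit 12) (.e (nat_lit 475199) (nat_lit 40) (.e (nat_lit 704596) (nat_lit 5) .nil)))))) (.g (nat_lit 6) .nil .nil))) 
(.lf (nat_lit 268024) (.g (nat_lit 1950) (.e (nat_lit 180277) (nat_lit 32) (.e (nat_lit 1660) (nat_lit 115) (.e (nat_lit 393271) (nat_lit 23) (.e (nat_lit 426442) (nat_lit 19) (.e (nat_lit 114432) (nat_lit 5) .nil))))) (.g (nat_lit 4) .nil .nil)))))) (.nd (nat_lit 3) (.nd (nat_lit 4) (.nd (nat_lit 5) 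
(.lf (nat_lit 267972) (.g (nat_lit 1927) (.e (nat_lit 180277) (nat_lit 32) (.e (nat_lit 1253) (nat_lit 92) (.e (nat_lit 98367) (nat_lit 27) (.e (nat_lit 434259) (nat_lit 32) .nil)))) .nil)) 
(.lf (nat_lit 268004) (.g (nat_lit 1929) (.e (nat_lit 180277) (nat_lit 32) (.e (nat_lit 1658) (nat_lit 115) (.e (nat_lit 393282) (nat_lit 24) (.e (nat_lit 434272) (nat_lit 38) (.e (nat_lit 655379) (nat_lit 5) .nil))))) (.g (nat_lit 0) .nil .nil)))) (.nd (nat_lit 5) 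
(.lf (nat_lit 267988) (.g (nat_lit 2846) (.e (nat_lit 180277) (nat_lit 32) (.e (nat_lit 1427) (nat_lit 108) (.e (nat_lit 336430) (nat_lit 29) (.e (nat_lit 442379) (nat_lit 0) (.e (nat_lit 2058) (nat_lit 142) (.e (nat_lit 704596) (nat_lit 5) .nil)))))) (.g (nat_lit 5) .nil .nil))) 
(.lf (nat_lit 268020) (.g (nat_lit 2186) (.e (nat_lit 180277) (nat_lit 32) (.e (nat_lit 1660) (nat_lit 115) (.e (nat_lit 393271) (nat_lit 23) (.e (nat_lit 426354) (nat_lit 15) (.e (nat_lit 2050) (nat_lit 142) (.e (nat_lit 704595) (nat_lit 5) .nil)))))) (.g (nat_lit 4) .nil .nil))))) (.nd (nat_lit 4) (.nd (nat_lit 5) 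
(.lf (nat_lit 267980) (.g (nat_lit 4075) (.e (nat_lit 180277) (nat_lit 32) (.e (nat_lit 1427) (nat_lit 108) (.e (nat_lit 336395) (nat_lit 27) (.e (nat_lit 426305) (nat_lit 12) (.e (nat_lit 475198) (nat_lit 40) (.e (nat_lit 704595) (nat_lit 5) .nil)))))) (.g (nat_lit 6) .nil .nil))) 
(.lf (nat_lit 268012) (.g (nat_lit 2598) (.e (nat_lit 180277) (nat_lit 32) (.e (nat_lit 1659) (nat_lit 115) (.e (nat_lit 393290) (nat_lit 26) (.e (nat_lit 475198) (nat_lit 40) (.e (nat_lit 704595) (nat_lit 5) .nil))))) (.g (nat_lit 5) .nil .nil)))) (.nd (nat_lit 5) 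
(.lf (nat_lit 267996) (.g (nat_lit 1630) (.e (nat_lit 180277) (nat_lit 32) (.e (nat_lit 1428) (nat_lit 108) (.e (nat_lit 336430) (nat_lit 29) (.e (nat_lit 442376) (nat_lit 0) (.e (nat_lit 2148) (nat_lit 142) (.e (nat_lit 704594) (nat_lit 5) .nil)))))) (.g (nat_lit 0) .nil .nil))) 
(.lf (nat_lit 268028) (.g (nat_lit 2662) (.e (nat_lit 180277) (nat_lit 32) (.e (nat_lit 1660) (nat_lit 115) (.e (nat_lit 393291) (nat_lit 26) (.e (nat_lit 475198) (nat_lit 40) (.e (nat_lit 704596) (nat_lit 5) .nil))))) (.g (nat_lit 0) .nil .nil))))))) (.nd (nat_lit 2) (.nd (nat_lit 3) (.nd (nat_lit 4) (.nd (nat_lit 5) 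
(.lf (nat_lit 267970) (.g (nat_lit 1927) (.e (nat_lit 180277) (nat_lit 32) (.e (nat_lit 1253) (nat_lit 92) (.e (nat_lit 98367) (nat_lit 27) (.e (nat_lit 434183) (nat_lit 8) .nil)))) .nil)) 
(.lf (nat_lit 268002) (.g (nat_lit 1563) (.e (nat_lit 180277) (nat_lit 32) (.e (nat_lit 1658) (nat_lit 115) (.e (nat_lit 393271) (nat_lit 23) (.e (nat_lit 426444) (nat_lit 19) (.e (nat_lit 114432) (nat_lit 5) .nil))))) (.g (nat_lit 4) .nil .nil)))) (.nd (nat_lit 5) 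
(.lf (nat_lit 267986) (.g (nat_lit 1612) (.e (nat_lit 180277) (nat_lit 32) (.e (nat_lit 1427) (nat_lit 108) (.e (nat_lit 336428) (nat_lit 29) (.e (nat_lit 442428) (nat_lit 24) .nil)))) .nil)) 
(.lf (nat_lit 268018) (.g (nat_lit 1658) (.e (nat_lit 180277) (nat_lit 32) (.e (nat_lit 1660) (nat_lit 115) (.e (nat_lit 393267) (nat_lit 23) (.e (nat_lit 426444) (nat_lit 19) (.e (nat_lit 114432) (nat_lit 5) .nil))))) (.g (nat_lit 4) .nil .nil))))) (.nd (nat_lit 4) (.nd (nat_lit 5) 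
(.lf (nat_lit 267978) (.g (nat_lit 830) (.e (nat_lit 180277) (nat_lit 32) (.e (nat_lit 1425) (nat_lit 108) (.e (nat_lit 336430) (nat_lit 29) (.e (nat_lit 442429) (nat_lit 24) .nil)))) .nil)) 
(.lf (nat_lit 268010) (.g (nat_lit 1355) (.e (nat_lit 180277) (nat_lit 32) (.e (nat_lit 1659) (nat_lit 115) (.e (nat_lit 393279) (nat_lit 23) (.e (nat_lit 426443) (nat_lit 19) (.e (nat_lit 114432) (nat_lit 5) .nil))))) (.g (nat_lit 4) .nil .nil)))) (.nd (nat_lit 5) 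
(.lf (nat_lit 267994) (.g (nat_lit 3268) (.e (nat_lit 180277) (nat_lit 32) (.e (nat_lit 1428) (nat_lit 108) (.e (nat_lit 336428) (nat_lit 29) (.e (nat_lit 442374) (nat_lit 0) (.e (nat_lit 2059) (nat_lit 142) (.e (nat_lit 704596) (nat_lit 5) .nil)))))) (.g (nat_lit 0) .nil .nil))) 
(.lf (nat_lit 268026) (.g (nat_lit 1288) (.e (nat_lit 180277) (nat_lit 32) (.e (nat_lit 1660) (nat_lit 115) (.e (nat_lit 393279) (nat_lit 23) (.e (nat_lit 426443) (nat_lit 19) (.e (nat_lit 114432) (nat_lit 5) .nil))))) (.g (nat_lit 4) .nil .nil)))))) (.nd (nat_lit 3) (.nd (nat_lit 4) (.nd (nat_lit 5) 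
(.lf (nat_lit 267974) (.g (nat_lit 1323) (.e (nat_lit 180277) (nat_lit 32) (.e (nat_lit 1393) (nat_lit 106) (.e (nat_lit 319533) (nat_lit 16) (.e (nat_lit 286753) (nat_lit 10) (.e (nat_lit 344154) (nat_lit 35) (.e (nat_lit 630803) (nat_lit 9) .nil)))))) (.g (nat_lit 4) .nil .nil))) 
(.lf (nat_lit 268006) (.g (nat_lit 2096) (.e (nat_lit 180277) (nat_lit 32) (.e (nat_lit 1658) (nat_lit 115) (.e (nat_lit 393283) (nat_lit 24) (.e (nat_lit 434272) (nat_lit 38) (.e (nat_lit 655379) (nat_lit 5) .nil))))) (.g (nat_lit 0) .nil .nil)))) (.nd (nat_lit 5) 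
(.lf (nat_lit 267990) (.g (nat_lit 4233) (.e (nat_lit 180277) (nat_lit 32) (.e (nat_lit 1428) (nat_lit 108) (.e (nat_lit 336369) (nat_lit 27) (.e (nat_lit 426305) (nat_lit 12) (.e (nat_lit 475198) (nat_lit 40) (.e (nat_lit 704595) (nat_lit 5) .nil)))))) (.g (nat_lit 6) .nil .nil))) 
(.lf (nat_lit 268022) (.g (nat_lit 2134) (.e (nat_lit 180277) (nat_lit 32) (.e (nat_lit 1660) (nat_lit 115) (.e (nat_lit 393271) (nat_lit 23) (.e (nat_lit 426402) (nat_lit 15) (.e (nat_lit 2045) (nat_lit 142) .nil))))) .nil)))) (.nd (nat_lit 4) (.nd (nat_lit 5) 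
(.lf (nat_lit 267982) (.g (nat_lit 3103) (.e (nat_lit 180277) (nat_lit 32) (.e (nat_lit 1427) (nat_lit 108) (.e (nat_lit 336395) (nat_lit 27) (.e (nat_lit 426317) (nat_lit 12) (.e (nat_lit 475199) (nat_lit 40) (.e (nat_lit 704596) (nat_lit 5) .nil)))))) (.g (nat_lit 6) .nil .nil))) 
(.lf (nat_lit 268014) (.g (nat_lit 2205) (.e (nat_lit 180277) (nat_lit 32) (.e (nat_lit 1659) (nat_lit 115) (.e (nat_lit 393290) (nat_lit 26) (.e (nat_lit 475199) (nat_lit 40) (.e (nat_lit 704596) (nat_lit 5) .nil))))) (.g (nat_lit 0) .nil .nil)))) (.nd (nat_lit 5) 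
(.lf (nat_lit 267998) (.g (nat_lit 3527) (.e (nat_lit 180277) (nat_lit 32) (.e (nat_lit 1428) (nat_lit 108) (.e (nat_lit 336430) (nat_lit 29) (.e (nat_lit 442379) (nat_lit 0) (.e (nat_lit 2059) (nat_lit 142) (.e (nat_lit 704595) (nat_lit 5) .nil)))))) (.g (nat_lit 0) .nil .nil))) 
(.lf (nat_lit 268030) (.g (nat_lit 1827) (.e (nat_lit 180277) (nat_lit 32) (.e (nat_lit 1660) (nat_lit 115) (.e (nat_lit 393291) (nat_lit 26) (.e (nat_lit 475201) (nat_lit 40) (.e (nat_lit 712448) (nat_lit 5) .nil))))) (.g (nat_lit 4) .nil .nil)))))))) (.nd (nat_lit 1) (.nd (nat_lit 2) (.nd (nat_lit 3) (.nd (nat_lit 4) (.nd (nat_lit 5) 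
(.lf (nat_lit 267969) (.g (nat_lit 1197) (.e (nat_lit 180277) (nat_lit 32) (.e (nat_lit 1253) (nat_lit 92) (.e (nat_lit 98367) (nat_lit 27) (.e (nat_lit 442112) (nat_lit 0) .nil)))) .nil)) 
(.lf (nat_lit 268001) (.g (nat_lit 975) (.e (nat_lit 180277) (nat_lit 32) (.e (nat_lit 1649) (nat_lit 115) (.e (nat_lit 393291) (nat_lit 26) (.e (nat_lit 475199) (nat_lit 40) .nil)))) .nil))) (.nd (nat_lit 5) 
(.lf (nat_lit 267985) (.g (nat_lit 1618) (.e (nat_lit 180277) (nat_lit 32) (.e (nat_lit 1427) (nat_lit 108) (.e (nat_lit 336428) (nat_lit 29) (.e (nat_lit 442379) (nat_lit 0) .nil)))) .nil)) 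
(.lf (nat_lit 268017) (.g (nat_lit 1548) (.e (nat_lit 180277) (nat_lit 32) (.e (nat_lit 1660) (nat_lit 115) (.e (nat_lit 393267) (nat_lit 23) (.e (nat_lit 426442) (nat_lit 19) (.e (nat_lit 114432) (nat_lit 5) .nil))))) (.g (nat_lit 4) .nil .nil))))) (.nd (nat_lit 4) (.nd (nat_lit 5) 
(.lf (nat_lit 267977) (.g (nat_lit 1525) (.e (nat_lit 180277) (nat_lit 32) (.e (nat_lit 1425) (nat_lit 108) (.e (nat_lit 336430) (nat_lit 29) (.e (nat_lit 442409) (nat_lit 20) (.e (nat_lit 3408) (nat_lit 212) (.e (nat_lit 655379) (nat_lit 5) .nil)))))) (.g (nat_lit 0) .nil .nil))) 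
(.lf (nat_lit 268009) (.g (nat_lit 1992) (.e (nat_lit 180277) (nat_lit 32) (.e (nat_lit 1659) (nat_lit 115) (.e (nat_lit 393273) (nat_lit 23) (.e (nat_lit 426444) (nat_lit 19) (.e (nat_lit 114432) (nat_lit 5) .nil))))) (.g (nat_lit 4) .nil .nil)))) (.nd (nat_lit 5) 
(.lf (nat_lit 267993) (.g (nat_lit 1494) (.e (nat_lit 180277) (nat_lit 32) (.e (nat_lit 1428) (nat_lit 108) (.e (nat_lit 336428) (nat_lit 29) (.e (nat_lit 442371) (nat_lit 0) (.e (nat_lit 2148) (nat_lit 142) (.e (nat_lit 704594) (nat_lit 5) .nil)))))) (.g (nat_lit 0) .nil .nil))) 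
(.lf (nat_lit 268025) (.g (nat_lit 2041) (.e (nat_lit 180277) (nat_lit 32) (.e (nat_lit 1660) (nat_lit 115) (.e (nat_lit 393271) (nat_lit 23) (.e (nat_lit 426444) (nat_lit 19) (.e (nat_lit 114432) (nat_lit 5) .nil))))) (.g (nat_lit 4) .nil .nil)))))) (.nd (nat_lit 3) (.nd (nat_lit 4) (.nd (nat_lit 5) 
(.lf (nat_lit 267973) (.g (nat_lit 1472) (.e (nat_lit 180277) (nat_lit 32) (.e (nat_lit 1253) (nat_lit 92) (.e (nat_lit 98370) (nat_lit 28) (.e (nat_lit 442377) (nat_lit 0) (.e (nat_lit 1846) (nat_lit 124) .nil))))) .nil)) 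
(.lf (nat_lit 268005) (.g (nat_lit 1900) (.e (nat_lit 180277) (nat_lit 32) (.e (nat_lit 1658) (nat_lit 115) (.e (nat_lit 393283) (nat_lit 24) (.e (nat_lit 434271) (nat_lit 38) (.e (nat_lit 655379) (nat_lit 5) .nil))))) (.g (nat_lit 0) .nil .nil)))) (.nd (nat_lit 5) 
(.lf (nat_lit 267989) (.g (nat_lit 2587) (.e (nat_lit 180277) (nat_lit 32) (.e (nat_lit 1427) (nat_lit 108) (.e (nat_lit 336430) (nat_lit 29) (.e (nat_lit 442409) (nat_lit 20) (.e (nat_lit 3408) (nat_lit 212) (.e (nat_lit 655379) (nat_lit 5) .nil)))))) (.g (nat_lit 0) .nil .nil))) 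
(.lf (nat_lit 268021) (.g (nat_lit 1678) (.e (nat_lit 180277) (nat_lit 32) (.e (nat_lit 1660) (nat_lit 115) (.e (nat_lit 393271) (nat_lit 23) (.e (nat_lit 426382) (nat_lit 15) (.e (nat_lit 2059) (nat_lit 142) .nil))))) .nil)))) (.nd (nat_lit 4) (.nd (nat_lit 5) 
(.lf (nat_lit 267981) (.g (nat_lit 3963) (.e (nat_lit 180277) (nat_lit 32) (.e (nat_lit 1427) (nat_lit 108) (.e (nat_lit 336395) (nat_lit 27) (.e (nat_lit 426305) (nat_lit 12) (.e (nat_lit 475199) (nat_lit 40) (.e (nat_lit 704595) (nat_lit 5) .nil)))))) (.g (nat_lit 6) .nil .nil))) 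
(.lf (nat_lit 268013) (.g (nat_lit 2589) (.e (nat_lit 180277) (nat_lit 32) (.e (nat_lit 1659) (nat_lit 115) (.e (nat_lit 393290) (nat_lit 26) (.e (nat_lit 475198) (nat_lit 40) (.e (nat_lit 704596) (nat_lit 5) .nil))))) (.g (nat_lit 0) .nil .nil)))) (.nd (nat_lit 5) 
(.lf (nat_lit 267997) (.g (nat_lit 1874) (.e (nat_lit 180277) (nat_lit 32) (.e (nat_lit 1428) (nat_lit 108) (.e (nat_lit 336430) (nat_lit 29) (.e (nat_lit 442379) (nat_lit 0) (.e (nat_lit 2056) (nat_lit 142) (.e (nat_lit 704596) (nat_lit 5) .nil)))))) (.g (nat_lit 4) .nil .nil))) 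
(.lf (nat_lit 268029) (.g (nat_lit 2480) (.e (nat_lit 180277) (nat_lit 32) (.e (nat_lit 1660) (nat_lit 115) (.e (nat_lit 393291) (nat_lit 26) (.e (nat_lit 475199) (nat_lit 40) (.e (nat_lit 704596) (nat_lit 5) .nil))))) (.g (nat_lit 0) .nil .nil))))))) (.nd (nat_lit 2) (.nd (nat_lit 3) (.nd (nat_lit 4) (.nd (nat_lit 5) 
(.lf (nat_lit 267971) (.g (nat_lit 1927) (.e (nat_lit 180277) (nat_lit 32) (.e (nat_lit 1253) (nat_lit 92) (.e (nat_lit 98367) (nat_lit 27) (.e (nat_lit 434258) (nat_lit 32) .nil)))) .nil)) 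
(.lf (nat_lit 268003) (.g (nat_lit 1488) (.e (nat_lit 180277) (nat_lit 32) (.e (nat_lit 1658) (nat_lit 115) (.e (nat_lit 393273) (nat_lit 23) (.e (nat_lit 426444) (nat_lit 19) (.e (nat_lit 114432) (nat_lit 5) .nil))))) (.g (nat_lit 4) .nil .nil)))) (.nd (nat_lit 5) 
(.lf (nat_lit 267987) (.g (nat_lit 1617) (.e (nat_lit 180277) (nat_lit 32) (.e (nat_lit 1427) (nat_lit 108) (.e (nat_lit 336430) (nat_lit 29) (.e (nat_lit 442378) (nat_lit 0) .nil)))) .nil)) 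
(.lf (nat_lit 268019) (.g (nat_lit 1763) (.e (nat_lit 180277) (nat_lit 32) (.e (nat_lit 1660) (nat_lit 115) (.e (nat_lit 393268) (nat_lit 23) (.e (nat_lit 426444) (nat_lit 19) (.e (nat_lit 114432) (nat_lit 5) .nil))))) (.g (nat_lit 4) .nil .nil))))) (.nd (nat_lit 4) (.nd (nat_lit 5) 
(.lf (nat_lit 267979) (.g (nat_lit 1218) (.e (nat_lit 180277) (nat_lit 32) (.e (nat_lit 1426) (nat_lit 108) (.e (nat_lit 336430) (nat_lit 29) (.e (nat_lit 442376) (nat_lit 0) (.e (nat_lit 2143) (nat_lit 142) (.e (nat_lit 712448) (nat_lit 5) .nil)))))) (.g (nat_lit 4) .nil .nil))) 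
(.lf (nat_lit 268011) (.g (nat_lit 489) (.e (nat_lit 180277) (nat_lit 32) (.e (nat_lit 1659) (nat_lit 115) (.e (nat_lit 393284) (nat_lit 24) .nil))) .nil))) (.nd (nat_lit 5) 
(.lf (nat_lit 267995) (.g (nat_lit 1043) (.e (nat_lit 180277) (nat_lit 32) (.e (nat_lit 1428) (nat_lit 108) (.e (nat_lit 336428) (nat_lit 29) (.e (nat_lit 442377) (nat_lit 0) .nil)))) .nil)) 
(.lf (nat_lit 268027) (.g (nat_lit 2016) (.e (nat_lit 180277) (nat_lit 32) (.e (nat_lit 1660) (nat_lit 115) (.e (nat_lit 393290) (nat_lit 26) (.e (nat_lit 475199) (nat_lit 40) (.e (nat_lit 704596) (nat_lit 5) .nil))))) (.g (nat_lit 5) .nil .nil)))))) (.nd (nat_lit 3) (.nd (nat_lit 4) (.nd (nat_lit 5) 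
(.lf (nat_lit 267975) (.g (nat_lit 1507) (.e (nat_lit 180277) (nat_lit 32) (.e (nat_lit 1425) (nat_lit 108) (.e (nat_lit 336430) (nat_lit 29) (.e (nat_lit 442402) (nat_lit 20) (.e (nat_lit 3408) (nat_lit 212) (.e (nat_lit 655379) (nat_lit 5) .nil)))))) (.g (nat_lit 0) .nil .nil))) 
(.lf (nat_lit 268007) (.g (nat_lit 1855) (.e (nat_lit 180277) (nat_lit 32) (.e (nat_lit 1659) (nat_lit 115) (.e (nat_lit 393270) (nat_lit 23) (.e (nat_lit 426444) (nat_lit 19) (.e (nat_lit 114432) (nat_lit 5) .nil))))) (.g (nat_lit 4) .nil .nil)))) (.nd (nat_lit 5) 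
(.lf (nat_lit 267991) (.g (nat_lit 3467) (.e (nat_lit 180277) (nat_lit 32) (.e (nat_lit 1428) (nat_lit 108) (.e (nat_lit 336369) (nat_lit 27) (.e (nat_lit 426317) (nat_lit 12) (.e (nat_lit 475198) (nat_lit 40) (.e (nat_lit 704595) (nat_lit 5) .nil)))))) (.g (nat_lit 6) .nil .nil))) 
(.lf (nat_lit 268023) (.g (nat_lit 1361) (.e (nat_lit 180277) (nat_lit 32) (.e (nat_lit 1660) (nat_lit 115) (.e (nat_lit 393271) (nat_lit 23) (.e (nat_lit 426420) (nat_lit 15) .nil)))) .nil)))) (.nd (nat_lit 4) (.nd (nat_lit 5) 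
(.lf (nat_lit 267983) (.g (nat_lit 3727) (.e (nat_lit 180277) (nat_lit 32) (.e (nat_lit 1427) (nat_lit 108) (.e (nat_lit 336428) (nat_lit 29) (.e (nat_lit 442374) (nat_lit 0) (.e (nat_lit 2059) (nat_lit 142) (.e (nat_lit 704595) (nat_lit 5) .nil)))))) (.g (nat_lit 0) .nil .nil))) 
(.lf (nat_lit 268015) (.g (nat_lit 2242) (.e (nat_lit 180277) (nat_lit 32) (.e (nat_lit 1659) (nat_lit 115) (.e (nat_lit 393291) (nat_lit 26) (.e (nat_lit 475199) (nat_lit 40) (.e (nat_lit 704596) (nat_lit 5) .nil))))) (.g (nat_lit 4) .nil .nil)))) (.nd (nat_lit 5) 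
(.lf (nat_lit 267999) (.g (nat_lit 3386) (.e (nat_lit 180277) (nat_lit 32) (.e (nat_lit 1428) (nat_lit 108) (.e (nat_lit 336430) (nat_lit 29) (.e (nat_lit 442379) (nat_lit 0) (.e (nat_lit 2059) (nat_lit 142) (.e (nat_lit 704596) (nat_lit 5) .nil)))))) (.g (nat_lit 0) .nil .nil))) 
(.lf (nat_lit 268031) (.g (nat_lit 2995) (.e (nat_lit 180277) (nat_lit 32) (.e (nat_lit 1660) (nat_lit 115) (.e (nat_lit 393294) (nat_lit 26) (.e (nat_lit 475198) (nat_lit 40) (.e (nat_lit 704595) (nat_lit 5) .nil))))) (.g (nat_lit 5) .nil .nil)))))))))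

noncomputable def tv3441 : DT := (.nd (nat_lit 0) (.nd (nat_lit 1) (.nd (nat_lit 2) (.nd (nat_lit 3) (.nd (nat_lit 4) (.nd (nat_lit 5) 
(.lf (nat_lit 268032) (.g (nat_lit 2190) (.e (nat_lit 180277) (nat_lit 32) (.e (nat_lit 1660) (nat_lit 115) (.e (nat_lit 393294) (nat_lit 26) (.e (nat_lit 475200) (nat_lit 40) (.e (nat_lit 712448) (nat_lit 5) .nil))))) (.g (nat_lit 4) .nil .nil))) 
(.lf (nat_lit 268064) (.g (nat_lit 2918) (.e (nat_lit 180277) (nat_lit 32) (.e (nat_lit 1661) (nat_lit 115) (.e (nat_lit 393282) (nat_lit 24) (.e (nat_lit 434209) (nat_lit 18) (.e (nat_lit 5547) (nat_lit 306) (.e (nat_lit 2640) (nat_lit 165) .nil)))))) (.g (nat_lit 0) .nil .nil)))) (.nd (nat_lit 5) 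
(.lf (nat_lit 268048) (.g (nat_lit 1787) (.e (nat_lit 180277) (nat_lit 32) (.e (nat_lit 1661) (nat_lit 115) (.e (nat_lit 393269) (nat_lit 23) (.e (nat_lit 426444) (nat_lit 19) (.e (nat_lit 114432) (nat_lit 5) .nil))))) (.g (nat_lit 4) .nil .nil))) 
(.lf (nat_lit 268080) (.g (nat_lit 1763) (.e (nat_lit 180277) (nat_lit 32) (.e (nat_lit 1661) (nat_lit 115) (.e (nat_lit 393291) (nat_lit 26) (.e (nat_lit 475195) (nat_lit 40) (.e (nat_lit 704595) (nat_lit 5) .nil))))) .nil)))) (.nd (nat_lit 4) (.nd (nat_lit 5) 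
(.lf (nat_lit 268040) (.g (nat_lit 2891) (.e (nat_lit 180277) (nat_lit 32) (.e (nat_lit 1661) (nat_lit 115) (.e (nat_lit 393268) (nat_lit 23) (.e (nat_lit 426354) (nat_lit 15) (.e (nat_lit 2064) (nat_lit 142) (.e (nat_lit 704596) (nat_lit 5) .nil)))))) (.g (nat_lit 5) .nil .nil))) 
(.lf (nat_lit 268072) (.g (nat_lit 2838) (.e (nat_lit 180277) (nat_lit 32) (.e (nat_lit 1661) (nat_lit 115) (.e (nat_lit 393284) (nat_lit 24) (.e (nat_lit 434209) (nat_lit 18) (.e (nat_lit 5548) (nat_lit 306) (.e (nat_lit 2638) (nat_lit 165) .nil)))))) (.g (nat_lit 5) .nil .nil)))) (.nd (nat_lit 5) 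
(.lf (nat_lit 268056) (.g (nat_lit 1615) (.e (nat_lit 180277) (nat_lit 32) (.e (nat_lit 1661) (nat_lit 115) (.e (nat_lit 393279) (nat_lit 23) (.e (nat_lit 426443) (nat_lit 19) (.e (nat_lit 114432) (nat_lit 5) .nil))))) (.g (nat_lit 4) .nil .nil))) 
(.lf (nat_lit 268088) (.g (nat_lit 1444) (.e (nat_lit 180277) (nat_lit 32) (.e (nat_lit 1661) (nat_lit 115) (.e (nat_lit 393291) (nat_lit 26) (.e (nat_lit 475205) (nat_lit 40) .nil)))) .nil))))) (.nd (nat_lit 3) (.nd (nat_lit 4) (.nd (nat_lit 5) 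
(.lf (nat_lit 268036) (.g (nat_lit 1826) (.e (nat_lit 180277) (nat_lit 32) (.e (nat_lit 1661) (nat_lit 115) (.e (nat_lit 393267) (nat_lit 23) (.e (nat_lit 426444) (nat_lit 19) (.e (nat_lit 114432) (nat_lit 5) .nil))))) (.g (nat_lit 4) .nil .nil))) 
(.lf (nat_lit 268068) (.g (nat_lit 3356) (.e (nat_lit 180277) (nat_lit 32) (.e (nat_lit 1661) (nat_lit 115) (.e (nat_lit 393283) (nat_lit 24) (.e (nat_lit 434209) (nat_lit 18) (.e (nat_lit 5547) (nat_lit 306) (.e (nat_lit 2638) (nat_lit 165) .nil)))))) (.g (nat_lit 0) .nil .nil)))) (.nd (nat_lit 5) 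
(.lf (nat_lit 268052) (.g (nat_lit 1907) (.e (nat_lit 180277) (nat_lit 32) (.e (nat_lit 1661) (nat_lit 115) (.e (nat_lit 393274) (nat_lit 23) (.e (nat_lit 426097) (nat_lit 1) (.e (nat_lit 164347) (nat_lit 240) (.e (nat_lit 2640) (nat_lit 165) .nil)))))) (.g (nat_lit 0) .nil .nil))) 
(.lf (nat_lit 268084) (.g (nat_lit 2324) (.e (nat_lit 180277) (nat_lit 32) (.e (nat_lit 1661) (nat_lit 115) (.e (nat_lit 393291) (nat_lit 26) (.e (nat_lit 475200) (nat_lit 40) .nil)))) .nil)))) (.nd (nat_lit 4) (.nd (nat_lit 5) 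
(.lf (nat_lit 268044) (.g (nat_lit 1814) (.e (nat_lit 180277) (nat_lit 32) (.e (nat_lit 1661) (nat_lit 115) (.e (nat_lit 393268) (nat_lit 23) (.e (nat_lit 426395) (nat_lit 15) .nil)))) .nil)) 
(.lf (nat_lit 268076) (.g (nat_lit 2726) (.e (nat_lit 180277) (nat_lit 32) (.e (nat_lit 1661) (nat_lit 115) (.e (nat_lit 393287) (nat_lit 25) (.e (nat_lit 458774) (nat_lit 18) (.e (nat_lit 5547) (nat_lit 306) (.e (nat_lit 2640) (nat_lit 165) .nil)))))) (.g (nat_lit 6) .nil .nil)))) (.nd (nat_lit 5) 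
(.lf (nat_lit 268060) (.g (nat_lit 3029) (.e (nat_lit 180277) (nat_lit 32) (.e (nat_lit 1661) (nat_lit 115) (.e (nat_lit 393281) (nat_lit 23) (.e (nat_lit 426107) (nat_lit 1) (.e (nat_lit 164347) (nat_lit 240) (.e (nat_lit 2640) (nat_lit 165) .nil)))))) (.g (nat_lit 5) .nil .nil))) 
(.lf (nat_lit 268092) (.g (nat_lit 1733) (.e (nat_lit 180277) (nat_lit 32) (.e (nat_lit 1661) (nat_lit 115) (.e (nat_lit 393294) (nat_lit 26) (.e (nat_lit 475196) (nat_lit 40) (.e (nat_lit 704595) (nat_lit 5) .nil))))) .nil)))))) (.nd (nat_lit 2) (.nd (nat_lit 3) (.nd (nat_lit 4) (.nd (nat_lit 5) 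
(.lf (nat_lit 268034) (.g (nat_lit 2979) (.e (nat_lit 180277) (nat_lit 32) (.e (nat_lit 1661) (nat_lit 115) (.e (nat_lit 393266) (nat_lit 23) (.e (nat_lit 426109) (nat_lit 1) (.e (nat_lit 164347) (nat_lit 240) (.e (nat_lit 2638) (nat_lit 165) .nil)))))) (.g (nat_lit 6) .nil .nil))) 
(.lf (nat_lit 268066) (.g (nat_lit 3362) (.e (nat_lit 180277) (nat_lit 32) (.e (nat_lit 1661) (nat_lit 115) (.e (nat_lit 393283) (nat_lit 24) (.e (nat_lit 434209) (nat_lit 18) (.e (nat_lit 5546) (nat_lit 306) (.e (nat_lit 2638) (nat_lit 165) .nil)))))) (.g (nat_lit 6) .nil .nil)))) (.nd (nat_lit 5) 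
(.lf (nat_lit 268050) (.g (nat_lit 2903) (.e (nat_lit 180277) (nat_lit 32) (.e (nat_lit 1661) (nat_lit 115) (.e (nat_lit 393271) (nat_lit 23) (.e (nat_lit 426354) (nat_lit 15) (.e (nat_lit 2064) (nat_lit 142) (.e (nat_lit 704596) (nat_lit 5) .nil)))))) (.g (nat_lit 4) .nil .nil))) 
(.lf (nat_lit 268082) (.g (nat_lit 3391) (.e (nat_lit 180277) (nat_lit 32) (.e (nat_lit 1661) (nat_lit 115) (.e (nat_lit 393291) (nat_lit 26) (.e (nat_lit 475198) (nat_lit 40) (.e (nat_lit 704596) (nat_lit 5) .nil))))) (.g (nat_lit 0) .nil .nil))))) (.nd (nat_lit 4) (.nd (nat_lit 5) 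
(.lf (nat_lit 268042) (.g (nat_lit 2463) (.e (nat_lit 180277) (nat_lit 32) (.e (nat_lit 1661) (nat_lit 115) (.e (nat_lit 393268) (nat_lit 23) (.e (nat_lit 426374) (nat_lit 15) (.e (nat_lit 2059) (nat_lit 142) (.e (nat_lit 704596) (nat_lit 5) .nil)))))) (.g (nat_lit 4) .nil .nil))) 
(.lf (nat_lit 268074) (.g (nat_lit 926) (.e (nat_lit 180277) (nat_lit 32) (.e (nat_lit 1661) (nat_lit 115) (.e (nat_lit 393284) (nat_lit 24) (.e (nat_lit 434270) (nat_lit 38) .nil)))) .nil))) (.nd (nat_lit 5) 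
(.lf (nat_lit 268058) (.g (nat_lit 2007) (.e (nat_lit 180277) (nat_lit 32) (.e (nat_lit 1661) (nat_lit 115) (.e (nat_lit 393281) (nat_lit 23) (.e (nat_lit 426098) (nat_lit 1) (.e (nat_lit 164347) (nat_lit 240) (.e (nat_lit 2640) (nat_lit 165) .nil)))))) (.g (nat_lit 4) .nil .nil))) 
(.lf (nat_lit 268090) (.g (nat_lit 1953) (.e (nat_lit 180277) (nat_lit 32) (.e (nat_lit 1661) (nat_lit 115) (.e (nat_lit 393291) (nat_lit 26) (.e (nat_lit 483072) (nat_lit 40) .nil)))) .nil))))) (.nd (nat_lit 3) (.nd (nat_lit 4) (.nd (nat_lit 5) 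
(.lf (nat_lit 268038) (.g (nat_lit 1482) (.e (nat_lit 180277) (nat_lit 32) (.e (nat_lit 1661) (nat_lit 115) (.e (nat_lit 393268) (nat_lit 23) (.e (nat_lit 426350) (nat_lit 15) .nil)))) .nil)) 
(.lf (nat_lit 268070) (.g (nat_lit 3567) (.e (nat_lit 180277) (nat_lit 32) (.e (nat_lit 1661) (nat_lit 115) (.e (nat_lit 393283) (nat_lit 24) (.e (nat_lit 434209) (nat_lit 18) (.e (nat_lit 5548) (nat_lit 306) (.e (nat_lit 2638) (nat_lit 165) .nil)))))) (.g (nat_lit 0) .nil .nil)))) (.nd (nat_lit 5) 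
(.lf (nat_lit 268054) (.g (nat_lit 2972) (.e (nat_lit 180277) (nat_lit 32) (.e (nat_lit 1661) (nat_lit 115) (.e (nat_lit 393275) (nat_lit 23) (.e (nat_lit 426109) (nat_lit 1) (.e (nat_lit 164347) (nat_lit 240) (.e (nat_lit 2638) (nat_lit 165) .nil)))))) (.g (nat_lit 6) .nil .nil))) 
(.lf (nat_lit 268086) (.g (nat_lit 2576) (.e (nat_lit 180277) (nat_lit 32) (.e (nat_lit 1661) (nat_lit 115) (.e (nat_lit 393291) (nat_lit 26) (.e (nat_lit 475203) (nat_lit 40) .nil)))) .nil)))) (.nd (nat_lit 4) (.nd (nat_lit 5) 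
(.lf (nat_lit 268046) (.g (nat_lit 2402) (.e (nat_lit 180277) (nat_lit 32) (.e (nat_lit 1661) (nat_lit 115) (.e (nat_lit 393268) (nat_lit 23) (.e (nat_lit 426444) (nat_lit 19) (.e (nat_lit 114432) (nat_lit 5) .nil))))) (.g (nat_lit 4) .nil .nil))) 
(.lf (nat_lit 268078) (.g (nat_lit 2780) (.e (nat_lit 180277) (nat_lit 32) (.e (nat_lit 1661) (nat_lit 115) (.e (nat_lit 393290) (nat_lit 26) (.e (nat_lit 475198) (nat_lit 40) (.e (nat_lit 704596) (nat_lit 5) .nil))))) (.g (nat_lit 0) .nil .nil)))) (.nd (nat_lit 5) 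
(.lf (nat_lit 268062) (.g (nat_lit 3615) (.e (nat_lit 180277) (nat_lit 32) (.e (nat_lit 1661) (nat_lit 115) (.e (nat_lit 393282) (nat_lit 24) (.e (nat_lit 434209) (nat_lit 18) (.e (nat_lit 5546) (nat_lit 306) (.e (nat_lit 2638) (nat_lit 165) .nil)))))) (.g (nat_lit 6) .nil .nil))) 
(.lf (nat_lit 268094) (.g (nat_lit 1426) (.e (nat_lit 180278) (nat_lit 32) (.e (nat_lit 1225) (nat_lit 91) (.e (nat_lit 90172) (nat_lit 14) (.e (nat_lit 180285) (nat_lit 45) (.e (nat_lit 2571) (nat_lit 160) (.e (nat_lit 32808) (nat_lit 19) .nil)))))) (.g (nat_lit 5) .nil .nil)))))))) (.nd (nat_lit 1) (.nd (nat_lit 2) (.nd (nat_lit 3) (.nd (nat_lit 4) (.nd (nat_lit 5) 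
(.lf (nat_lit 268033) (.g (nat_lit 1985) (.e (nat_lit 180277) (nat_lit 32) (.e (nat_lit 1660) (nat_lit 115) (.e (nat_lit 393294) (nat_lit 26) (.e (nat_lit 475201) (nat_lit 40) (.e (nat_lit 712448) (nat_lit 5) .nil))))) (.g (nat_lit 4) .nil .nil))) 
(.lf (nat_lit 268065) (.g (nat_lit 3750) (.e (nat_lit 180277) (nat_lit 32) (.e (nat_lit 1661) (nat_lit 115) (.e (nat_lit 393282) (nat_lit 24) (.e (nat_lit 434209) (nat_lit 18) (.e (nat_lit 5548) (nat_lit 306) (.e (nat_lit 2638) (nat_lit 165) .nil)))))) (.g (nat_lit 0) .nil .nil)))) (.nd (nat_lit 5) 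
(.lf (nat_lit 268049) (.g (nat_lit 2800) (.e (nat_lit 180277) (nat_lit 32) (.e (nat_lit 1661) (nat_lit 115) (.e (nat_lit 393271) (nat_lit 23) (.e (nat_lit 426354) (nat_lit 15) (.e (nat_lit 2050) (nat_lit 142) (.e (nat_lit 704596) (nat_lit 5) .nil)))))) (.g (nat_lit 4) .nil .nil))) 
(.lf (nat_lit 268081) (.g (nat_lit 1696) (.e (nat_lit 180277) (nat_lit 32) (.e (nat_lit 1661) (nat_lit 115) (.e (nat_lit 393291) (nat_lit 26) (.e (nat_lit 475196) (nat_lit 40) (.e (nat_lit 704595) (nat_lit 5) .nil))))) .nil)))) (.nd (nat_lit 4) (.nd (nat_lit 5) 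
(.lf (nat_lit 268041) (.g (nat_lit 1348) (.e (nat_lit 180277) (nat_lit 32) (.e (nat_lit 1661) (nat_lit 115) (.e (nat_lit 393268) (nat_lit 23) (.e (nat_lit 426361) (nat_lit 15) (.e (nat_lit 7936) (nat_lit 142) .nil))))) .nil)) 
(.lf (nat_lit 268073) (.g (nat_lit 3146) (.e (nat_lit 180277) (nat_lit 32) (.e (nat_lit 1661) (nat_lit 115) (.e (nat_lit 393284) (nat_lit 24) (.e (nat_lit 434212) (nat_lit 18) (.e (nat_lit 5548) (nat_lit 306) (.e (nat_lit 2638) (nat_lit 165) .nil)))))) (.g (nat_lit 6) .nil .nil)))) (.nd (nat_lit 5) 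
(.lf (nat_lit 268057) (.g (nat_lit 2289) (.e (nat_lit 180277) (nat_lit 32) (.e (nat_lit 1661) (nat_lit 115) (.e (nat_lit 393280) (nat_lit 23) (.e (nat_lit 426107) (nat_lit 1) (.e (nat_lit 164347) (nat_lit 240) (.e (nat_lit 2640) (nat_lit 165) .nil)))))) (.g (nat_lit 4) .nil .nil))) 
(.lf (nat_lit 268089) (.g (nat_lit 2680) (.e (nat_lit 180277) (nat_lit 32) (.e (nat_lit 1661) (nat_lit 115) (.e (nat_lit 393291) (nat_lit 26) (.e (nat_lit 475206) (nat_lit 40) .nil)))) .nil))))) (.nd (nat_lit 3) (.nd (nat_lit 4) (.nd (nat_lit 5) 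
(.lf (nat_lit 268037) (.g (nat_lit 1814) (.e (nat_lit 180277) (nat_lit 32) (.e (nat_lit 1661) (nat_lit 115) (.e (nat_lit 393268) (nat_lit 23) (.e (nat_lit 426111) (nat_lit 1) .nil)))) .nil)) 
(.lf (nat_lit 268069) (.g (nat_lit 2781) (.e (nat_lit 180277) (nat_lit 32) (.e (nat_lit 1661) (nat_lit 115) (.e (nat_lit 393283) (nat_lit 24) (.e (nat_lit 434209) (nat_lit 18) (.e (nat_lit 5547) (nat_lit 306) (.e (nat_lit 2640) (nat_lit 165) .nil)))))) (.g (nat_lit 0) .nil .nil)))) (.nd (nat_lit 5) 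
(.lf (nat_lit 268053) (.g (nat_lit 2796) (.e (nat_lit 180277) (nat_lit 32) (.e (nat_lit 1661) (nat_lit 115) (.e (nat_lit 393274) (nat_lit 23) (.e (nat_lit 426097) (nat_lit 1) (.e (nat_lit 164348) (nat_lit 240) (.e (nat_lit 2638) (nat_lit 165) .nil)))))) (.g (nat_lit 0) .nil .nil))) 
(.lf (nat_lit 268085) (.g (nat_lit 2340) (.e (nat_lit 180277) (nat_lit 32) (.e (nat_lit 1661) (nat_lit 115) (.e (nat_lit 393291) (nat_lit 26) (.e (nat_lit 475201) (nat_lit 40) (.e (nat_lit 712448) (nat_lit 5) .nil))))) (.g (nat_lit 4) .nil .nil))))) (.nd (nat_lit 4) (.nd (nat_lit 5) 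
(.lf (nat_lit 268045) (.g (nat_lit 2112) (.e (nat_lit 180277) (nat_lit 32) (.e (nat_lit 1661) (nat_lit 115) (.e (nat_lit 393268) (nat_lit 23) (.e (nat_lit 426440) (nat_lit 19) (.e (nat_lit 114432) (nat_lit 5) .nil))))) (.g (nat_lit 4) .nil .nil))) 
(.lf (nat_lit 268077) (.g (nat_lit 1645) (.e (nat_lit 180277) (nat_lit 32) (.e (nat_lit 1661) (nat_lit 115) (.e (nat_lit 393288) (nat_lit 25) (.e (nat_lit 458774) (nat_lit 18) (.e (nat_lit 5547) (nat_lit 306) (.e (nat_lit 2640) (nat_lit 165) .nil)))))) (.g (nat_lit 4) .nil .nil)))) (.nd (nat_lit 5) 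
(.lf (nat_lit 268061) (.g (nat_lit 2122) (.e (nat_lit 180277) (nat_lit 32) (.e (nat_lit 1661) (nat_lit 115) (.e (nat_lit 401152) (nat_lit 23) (.e (nat_lit 426107) (nat_lit 1) (.e (nat_lit 164347) (nat_lit 240) (.e (nat_lit 2640) (nat_lit 165) .nil)))))) (.g (nat_lit 5) .nil .nil))) 
(.lf (nat_lit 268093) (.g (nat_lit 2636) (.e (nat_lit 180277) (nat_lit 32) (.e (nat_lit 1661) (nat_lit 115) (.e (nat_lit 393294) (nat_lit 26) (.e (nat_lit 475199) (nat_lit 40) (.e (nat_lit 704596) (nat_lit 5) .nil))))) (.g (nat_lit 0) .nil .nil))))))) (.nd (nat_lit 2) (.nd (nat_lit 3) (.nd (nat_lit 4) (.nd (nat_lit 5) 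
(.lf (nat_lit 268035) (.g (nat_lit 1720) (.e (nat_lit 180277) (nat_lit 32) (.e (nat_lit 1661) (nat_lit 115) (.e (nat_lit 393267) (nat_lit 23) (.e (nat_lit 426442) (nat_lit 19) (.e (nat_lit 114432) (nat_lit 5) .nil))))) (.g (nat_lit 4) .nil .nil))) 
(.lf (nat_lit 268067) (.g (nat_lit 2721) (.e (nat_lit 180277) (nat_lit 32) (.e (nat_lit 1661) (nat_lit 115) (.e (nat_lit 393283) (nat_lit 24) (.e (nat_lit 434209) (nat_lit 18) (.e (nat_lit 5546) (nat_lit 306) (.e (nat_lit 2640) (nat_lit 165) .nil)))))) (.g (nat_lit 5) .nil .nil)))) (.nd (nat_lit 5) 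
(.lf (nat_lit 268051) (.g (nat_lit 2066) (.e (nat_lit 180277) (nat_lit 32) (.e (nat_lit 1661) (nat_lit 115) (.e (nat_lit 393271) (nat_lit 23) (.e (nat_lit 426444) (nat_lit 19) (.e (nat_lit 114432) (nat_lit 5) .nil))))) (.g (nat_lit 4) .nil .nil))) 
(.lf (nat_lit 268083) (.g (nat_lit 3232) (.e (nat_lit 180277) (nat_lit 32) (.e (nat_lit 1661) (nat_lit 115) (.e (nat_lit 393291) (nat_lit 26) (.e (nat_lit 475199) (nat_lit 40) (.e (nat_lit 704595) (nat_lit 5) .nil))))) (.g (nat_lit 0) .nil .nil))))) (.nd (nat_lit 4) (.nd (nat_lit 5) 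
(.lf (nat_lit 268043) (.g (nat_lit 1800) (.e (nat_lit 180277) (nat_lit 32) (.e (nat_lit 1661) (nat_lit 115) (.e (nat_lit 393268) (nat_lit 23) (.e (nat_lit 426393) (nat_lit 15) .nil)))) .nil)) 
(.lf (nat_lit 268075) (.g (nat_lit 2652) (.e (nat_lit 180277) (nat_lit 32) (.e (nat_lit 1661) (nat_lit 115) (.e (nat_lit 393286) (nat_lit 25) (.e (nat_lit 458774) (nat_lit 18) (.e (nat_lit 5547) (nat_lit 306) (.e (nat_lit 2640) (nat_lit 165) .nil)))))) (.g (nat_lit 6) .nil .nil)))) (.nd (nat_lit 5) 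
(.lf (nat_lit 268059) (.g (nat_lit 3417) (.e (nat_lit 180277) (nat_lit 32) (.e (nat_lit 1661) (nat_lit 115) (.e (nat_lit 393281) (nat_lit 23) (.e (nat_lit 426098) (nat_lit 1) (.e (nat_lit 164348) (nat_lit 240) (.e (nat_lit 2638) (nat_lit 165) .nil)))))) (.g (nat_lit 6) .nil .nil))) 
(.lf (nat_lit 268091) (.g (nat_lit 886) (.e (nat_lit 180277) (nat_lit 32) (.e (nat_lit 1661) (nat_lit 115) (.e (nat_lit 393292) (nat_lit 26) (.e (nat_lit 475197) (nat_lit 40) .nil)))) .nil))))) (.nd (nat_lit 3) (.nd (nat_lit 4) (.nd (nat_lit 5) 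
(.lf (nat_lit 268039) (.g (nat_lit 1180) (.e (nat_lit 180277) (nat_lit 32) (.e (nat_lit 1661) (nat_lit 115) (.e (nat_lit 393268) (nat_lit 23) (.e (nat_lit 426354) (nat_lit 15) .nil)))) .nil)) 
(.lf (nat_lit 268071) (.g (nat_lit 2099) (.e (nat_lit 180277) (nat_lit 32) (.e (nat_lit 1661) (nat_lit 115) (.e (nat_lit 393284) (nat_lit 24) (.e (nat_lit 434209) (nat_lit 18) (.e (nat_lit 5547) (nat_lit 306) (.e (nat_lit 2640) (nat_lit 165) .nil)))))) (.g (nat_lit 4) .nil .nil)))) (.nd (nat_lit 5) 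
(.lf (nat_lit 268055) (.g (nat_lit 3111) (.e (nat_lit 180277) (nat_lit 32) (.e (nat_lit 1661) (nat_lit 115) (.e (nat_lit 393279) (nat_lit 23) (.e (nat_lit 426110) (nat_lit 1) (.e (nat_lit 164348) (nat_lit 240) (.e (nat_lit 2638) (nat_lit 165) .nil)))))) (.g (nat_lit 6) .nil .nil))) 
(.lf (nat_lit 268087) (.g (nat_lit 2381) (.e (nat_lit 180277) (nat_lit 32) (.e (nat_lit 1661) (nat_lit 115) (.e (nat_lit 393291) (nat_lit 26) (.e (nat_lit 475204) (nat_lit 40) .nil)))) .nil)))) (.nd (nat_lit 4) (.nd (nat_lit 5) 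
(.lf (nat_lit 268047) (.g (nat_lit 1703) (.e (nat_lit 180277) (nat_lit 32) (.e (nat_lit 1661) (nat_lit 115) (.e (nat_lit 393269) (nat_lit 23) (.e (nat_lit 426442) (nat_lit 19) (.e (nat_lit 114432) (nat_lit 5) .nil))))) (.g (nat_lit 4) .nil .nil))) 
(.lf (nat_lit 268079) (.g (nat_lit 2655) (.e (nat_lit 180277) (nat_lit 32) (.e (nat_lit 1661) (nat_lit 115) (.e (nat_lit 393290) (nat_lit 26) (.e (nat_lit 475199) (nat_lit 40) (.e (nat_lit 704595) (nat_lit 5) .nil))))) (.g (nat_lit 0) .nil .nil)))) (.nd (nat_lit 5) 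
(.lf (nat_lit 268063) (.g (nat_lit 2924) (.e (nat_lit 180277) (nat_lit 32) (.e (nat_lit 1661) (nat_lit 115) (.e (nat_lit 393282) (nat_lit 24) (.e (nat_lit 434209) (nat_lit 18) (.e (nat_lit 5546) (nat_lit 306) (.e (nat_lit 2640) (nat_lit 165) .nil)))))) (.g (nat_lit 5) .nil .nil))) 
(.lf (nat_lit 268095) (.g (nat_lit 2003) (.e (nat_lit 180278) (nat_lit 32) (.e (nat_lit 1225) (nat_lit 91) (.e (nat_lit 90174) (nat_lit 14) (.e (nat_lit 180288) (nat_lit 45) (.e (nat_lit 2570) (nat_lit 160) (.e (nat_lit 32808) (nat_lit 19) .nil)))))) (.g (nat_lit 4) .nil .nil)))))))))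

noncomputable def tv3442 : DT := (.nd (nat_lit 0) (.nd (nat_lit 1) (.nd (nat_lit 2) (.nd (nat_lit 3) (.nd (nat_lit 4) (.nd (nat_lit 5) 
(.lf (nat_lit 268096) (.g (nat_lit 2061) (.e (nat_lit 180278) (nat_lit 32) (.e (nat_lit 1225) (nat_lit 91) (.e (nat_lit 90174) (nat_lit 14) (.e (nat_lit 180288) (nat_lit 45) (.e (nat_lit 2571) (nat_lit 160) (.e (nat_lit 32808) (nat_lit 19) .nil)))))) (.g (nat_lit 4) .nil .nil))) 
(.lf (nat_lit 268128) (.g (nat_lit 3914) (.e (nat_lit 180278) (nat_lit 32) (.e (nat_lit 1235) (nat_lit 91) (.e (nat_lit 90170) (nat_lit 13) (.e (nat_lit 172120) (nat_lit 12) (.e (nat_lit 475185) (nat_lit 29) (.e (nat_lit 557105) (nat_lit 14) .nil)))))) (.g (nat_lit 0) .nil .nil)))) (.nd (nat_lit 5) 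
(.lf (nat_lit 268112) (.g (nat_lit 2364) (.e (nat_lit 180278) (nat_lit 32) (.e (nat_lit 1234) (nat_lit 91) (.e (nat_lit 90176) (nat_lit 15) (.e (nat_lit 188439) (nat_lit 20) (.e (nat_lit 3270) (nat_lit 199) (.e (nat_lit 548914) (nat_lit 19) .nil)))))) (.g (nat_lit 5) .nil .nil))) 
(.lf (nat_lit 268144) (.g (nat_lit 731) (.e (nat_lit 180278) (nat_lit 32) (.e (nat_lit 1252) (nat_lit 92) (.e (nat_lit 98381) (nat_lit 31) (.e (nat_lit 466967) (nat_lit 20) (.e (nat_lit 3266) (nat_lit 199) .nil))))) .nil)))) (.nd (nat_lit 4) (.nd (nat_lit 5) 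
(.lf (nat_lit 268104) (.g (nat_lit 986) (.e (nat_lit 180278) (nat_lit 32) (.e (nat_lit 1234) (nat_lit 91) (.e (nat_lit 90170) (nat_lit 13) (.e (nat_lit 172106) (nat_lit 10) .nil)))) .nil)) 
(.lf (nat_lit 268136) (.g (nat_lit 1595) (.e (nat_lit 180278) (nat_lit 32) (.e (nat_lit 1235) (nat_lit 91) (.e (nat_lit 90185) (nat_lit 17) (.e (nat_lit 237603) (nat_lit 9) .nil)))) .nil))) (.nd (nat_lit 5) 
(.lf (nat_lit 268120) (.g (nat_lit 1053) (.e (nat_lit 180278) (nat_lit 32) (.e (nat_lit 1234) (nat_lit 91) (.e (nat_lit 90185) (nat_lit 17) (.e (nat_lit 237601) (nat_lit 9) .nil)))) .nil)) 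
(.lf (nat_lit 268152) (.g (nat_lit 1308) (.e (nat_lit 180278) (nat_lit 32) (.e (nat_lit 1393) (nat_lit 106) (.e (nat_lit 319533) (nat_lit 16) (.e (nat_lit 286753) (nat_lit 10) (.e (nat_lit 344154) (nat_lit 35) (.e (nat_lit 630803) (nat_lit 9) .nil)))))) (.g (nat_lit 4) .nil .nil)))))) (.nd (nat_lit 3) (.nd (nat_lit 4) (.nd (nat_lit 5) 
(.lf (nat_lit 268100) (.g (nat_lit 1291) (.e (nat_lit 180278) (nat_lit 32) (.e (nat_lit 1234) (nat_lit 91) (.e (nat_lit 90170) (nat_lit 13) (.e (nat_lit 172083) (nat_lit 8) .nil)))) .nil)) 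
(.lf (nat_lit 268132) (.g (nat_lit 2840) (.e (nat_lit 180278) (nat_lit 32) (.e (nat_lit 1235) (nat_lit 91) (.e (nat_lit 90178) (nat_lit 15) (.e (nat_lit 188441) (nat_lit 20) (.e (nat_lit 3272) (nat_lit 199) (.e (nat_lit 548914) (nat_lit 19) .nil)))))) (.g (nat_lit 6) .nil .nil)))) (.nd (nat_lit 5) 
(.lf (nat_lit 268116) (.g (nat_lit 2875) (.e (nat_lit 180278) (nat_lit 32) (.e (nat_lit 1234) (nat_lit 91) (.e (nat_lit 90178) (nat_lit 15) (.e (nat_lit 188440) (nat_lit 20) (.e (nat_lit 3272) (nat_lit 199) (.e (nat_lit 548914) (nat_lit 19) .nil)))))) (.g (nat_lit 5) .nil .nil))) 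
(.lf (nat_lit 268148) (.g (nat_lit 640) (.e (nat_lit 180278) (nat_lit 32) (.e (nat_lit 1253) (nat_lit 92) (.e (nat_lit 98363) (nat_lit 26) (.e (nat_lit 426230) (nat_lit 9) .nil)))) .nil)))) (.nd (nat_lit 4) (.nd (nat_lit 5) 
(.lf (nat_lit 268108) (.g (nat_lit 571) (.e (nat_lit 180278) (nat_lit 32) (.e (nat_lit 1234) (nat_lit 91) (.e (nat_lit 90171) (nat_lit 14) (.e (nat_lit 180284) (nat_lit 45) .nil)))) .nil)) 
(.lf (nat_lit 268140) (.g (nat_lit 2187) (.e (nat_lit 180278) (nat_lit 32) (.e (nat_lit 1252) (nat_lit 92) (.e (nat_lit 98359) (nat_lit 26) (.e (nat_lit 426338) (nat_lit 14) (.e (nat_lit 491536) (nat_lit 2) .nil))))) .nil))) (.nd (nat_lit 5) 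
(.lf (nat_lit 268124) (.g (nat_lit 1440) (.e (nat_lit 180278) (nat_lit 32) (.e (nat_lit 1235) (nat_lit 91) (.e (nat_lit 90170) (nat_lit 13) (.e (nat_lit 172088) (nat_lit 9) .nil)))) .nil)) 
(.lf (nat_lit 268156) (.g (nat_lit 1261) (.e (nat_lit 180278) (nat_lit 32) (.e (nat_lit 1426) (nat_lit 108) (.e (nat_lit 336430) (nat_lit 29) (.e (nat_lit 442376) (nat_lit 0) (.e (nat_lit 2143) (nat_lit 142) (.e (nat_lit 712448) (nat_lit 5) .nil)))))) (.g (nat_lit 4) .nil .nil))))))) (.nd (nat_lit 2) (.nd (nat_lit 3) (.nd (nat_lit 4) (.nd (nat_lit 5) 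
(.lf (nat_lit 268098) (.g (nat_lit 1064) (.e (nat_lit 180278) (nat_lit 32) (.e (nat_lit 1234) (nat_lit 91) (.e (nat_lit 90170) (nat_lit 13) (.e (nat_lit 172039) (nat_lit 0) .nil)))) .nil)) 
(.lf (nat_lit 268130) (.g (nat_lit 1378) (.e (nat_lit 180278) (nat_lit 32) (.e (nat_lit 1235) (nat_lit 91) (.e (nat_lit 90176) (nat_lit 15) (.e (nat_lit 188420) (nat_lit 0) (.e (nat_lit 1846) (nat_lit 124) .nil))))) .nil))) (.nd (nat_lit 5) 
(.lf (nat_lit 268114) (.g (nat_lit 3523) (.e (nat_lit 180278) (nat_lit 32) (.e (nat_lit 1234) (nat_lit 91) (.e (nat_lit 90178) (nat_lit 15) (.e (nat_lit 188418) (nat_lit 0) (.e (nat_lit 1856) (nat_lit 124) (.e (nat_lit 557105) (nat_lit 14) .nil)))))) (.g (nat_lit 6) .nil .nil))) 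
(.lf (nat_lit 268146) (.g (nat_lit 1000) (.e (nat_lit 180278) (nat_lit 32) (.e (nat_lit 1253) (nat_lit 92) (.e (nat_lit 98358) (nat_lit 26) (.e (nat_lit 426227) (nat_lit 9) .nil)))) .nil)))) (.nd (nat_lit 4) (.nd (nat_lit 5) 
(.lf (nat_lit 268106) (.g (nat_lit 2765) (.e (nat_lit 180278) (nat_lit 32) (.e (nat_lit 1234) (nat_lit 91) (.e (nat_lit 90170) (nat_lit 13) (.e (nat_lit 172120) (nat_lit 12) (.e (nat_lit 475184) (nat_lit 29) .nil))))) .nil)) 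
(.lf (nat_lit 268138) (.g (nat_lit 825) (.e (nat_lit 180278) (nat_lit 32) (.e (nat_lit 1235) (nat_lit 91) (.e (nat_lit 90185) (nat_lit 17) (.e (nat_lit 237605) (nat_lit 9) .nil)))) .nil))) (.nd (nat_lit 5) 
(.lf (nat_lit 268122) (.g (nat_lit 1272) (.e (nat_lit 180278) (nat_lit 32) (.e (nat_lit 1235) (nat_lit 91) (.e (nat_lit 90170) (nat_lit 13) (.e (nat_lit 172034) (nat_lit 0) .nil)))) .nil)) 
(.lf (nat_lit 268154) (.g (nat_lit 2121) (.e (nat_lit 180278) (nat_lit 32) (.e (nat_lit 1425) (nat_lit 108) (.e (nat_lit 336430) (nat_lit 29) (.e (nat_lit 442379) (nat_lit 0) (.e (nat_lit 2056) (nat_lit 142) (.e (nat_lit 704595) (nat_lit 5) .nil)))))) (.g (nat_lit 0) .nil .nil)))))) (.nd (nat_lit 3) (.nd (nat_lit 4) (.nd (nat_lit 5) 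
(.lf (nat_lit 268102) (.g (nat_lit 1500) (.e (nat_lit 180278) (nat_lit 32) (.e (nat_lit 1234) (nat_lit 91) (.e (nat_lit 90170) (nat_lit 13) (.e (nat_lit 172092) (nat_lit 9) (.e (nat_lit 433920) (nat_lit 15) .nil))))) .nil)) 
(.lf (nat_lit 268134) (.g (nat_lit 1186) (.e (nat_lit 180278) (nat_lit 32) (.e (nat_lit 1235) (nat_lit 91) (.e (nat_lit 90185) (nat_lit 17) (.e (nat_lit 237601) (nat_lit 9) .nil)))) .nil))) (.nd (nat_lit 5) 
(.lf (nat_lit 268118) (.g (nat_lit 1809) (.e (nat_lit 180278) (nat_lit 32) (.e (nat_lit 1234) (nat_lit 91) (.e (nat_lit 90185) (nat_lit 17) (.e (nat_lit 237569) (nat_lit 0) .nil)))) .nil)) 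
(.lf (nat_lit 268150) (.g (nat_lit 1953) (.e (nat_lit 180278) (nat_lit 32) (.e (nat_lit 1253) (nat_lit 92) (.e (nat_lit 98367) (nat_lit 27) (.e (nat_lit 434259) (nat_lit 32) .nil)))) .nil)))) (.nd (nat_lit 4) (.nd (nat_lit 5) 
(.lf (nat_lit 268110) (.g (nat_lit 1760) (.e (nat_lit 180278) (nat_lit 32) (.e (nat_lit 1234) (nat_lit 91) (.e (nat_lit 90174) (nat_lit 14) (.e (nat_lit 188160) (nat_lit 32) .nil)))) .nil)) 
(.lf (nat_lit 268142) (.g (nat_lit 4086) (.e (nat_lit 180278) (nat_lit 32) (.e (nat_lit 1252) (nat_lit 92) (.e (nat_lit 98367) (nat_lit 27) (.e (nat_lit 434180) (nat_lit 0) (.e (nat_lit 1234) (nat_lit 91) (.e (nat_lit 90172) (nat_lit 14) .nil)))))) (.g (nat_lit 6) .nil .nil)))) (.nd (nat_lit 5) 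
(.lf (nat_lit 268126) (.g (nat_lit 3155) (.e (nat_lit 180278) (nat_lit 32) (.e (nat_lit 1235) (nat_lit 91) (.e (nat_lit 90170) (nat_lit 13) (.e (nat_lit 172118) (nat_lit 12) (.e (nat_lit 475185) (nat_lit 29) (.e (nat_lit 557105) (nat_lit 14) .nil)))))) (.g (nat_lit 0) .nil .nil))) 
(.lf (nat_lit 268158) (.g (nat_lit 2208) (.e (nat_lit 180278) (nat_lit 32) (.e (nat_lit 1427) (nat_lit 108) (.e (nat_lit 336395) (nat_lit 27) (.e (nat_lit 426305) (nat_lit 12) (.e (nat_lit 475197) (nat_lit 40) (.e (nat_lit 704595) (nat_lit 5) .nil)))))) (.g (nat_lit 4) .nil .nil)))))))) (.nd (nat_lit 1) (.nd (nat_lit 2) (.nd (nat_lit 3) (.nd (nat_lit 4) (.nd (nat_lit 5) 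
(.lf (nat_lit 268097) (.g (nat_lit 1291) (.e (nat_lit 180278) (nat_lit 32) (.e (nat_lit 1234) (nat_lit 91) (.e (nat_lit 90170) (nat_lit 13) (.e (nat_lit 172034) (nat_lit 0) .nil)))) .nil)) 
(.lf (nat_lit 268129) (.g (nat_lit 957) (.e (nat_lit 180278) (nat_lit 32) (.e (nat_lit 1235) (nat_lit 91) (.e (nat_lit 90172) (nat_lit 14) (.e (nat_lit 188160) (nat_lit 32) .nil)))) .nil))) (.nd (nat_lit 5) 
(.lf (nat_lit 268113) (.g (nat_lit 2814) (.e (nat_lit 180278) (nat_lit 32) (.e (nat_lit 1234) (nat_lit 91) (.e (nat_lit 90176) (nat_lit 15) (.e (nat_lit 188439) (nat_lit 20) (.e (nat_lit 3272) (nat_lit 199) (.e (nat_lit 548914) (nat_lit 19) .nil)))))) (.g (nat_lit 6) .nil .nil))) 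
(.lf (nat_lit 268145) (.g (nat_lit 4550) (.e (nat_lit 180278) (nat_lit 32) (.e (nat_lit 1253) (nat_lit 92) (.e (nat_lit 98350) (nat_lit 24) (.e (nat_lit 409602) (nat_lit 0) (.e (nat_lit 5293) (nat_lit 298) (.e (nat_lit 1232) (nat_lit 91) (.e (nat_lit 90172) (nat_lit 14) .nil))))))) (.g (nat_lit 7) .nil .nil))))) (.nd (nat_lit 4) (.nd (nat_lit 5) 
(.lf (nat_lit 268105) (.g (nat_lit 3649) (.e (nat_lit 180278) (nat_lit 32) (.e (nat_lit 1234) (nat_lit 91) (.e (nat_lit 90170) (nat_lit 13) (.e (nat_lit 172106) (nat_lit 10) (.e (nat_lit 434238) (nat_lit 25) (.e (nat_lit 548914) (nat_lit 19) .nil)))))) (.g (nat_lit 5) .nil .nil))) 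
(.lf (nat_lit 268137) (.g (nat_lit 1461) (.e (nat_lit 180278) (nat_lit 32) (.e (nat_lit 1235) (nat_lit 91) (.e (nat_lit 90185) (nat_lit 17) (.e (nat_lit 237604) (nat_lit 9) .nil)))) .nil))) (.nd (nat_lit 5) 
(.lf (nat_lit 268121) (.g (nat_lit 1809) (.e (nat_lit 180278) (nat_lit 32) (.e (nat_lit 1234) (nat_lit 91) (.e (nat_lit 90185) (nat_lit 17) (.e (nat_lit 237603) (nat_lit 9) .nil)))) .nil)) 
(.lf (nat_lit 268153) (.g (nat_lit 2346) (.e (nat_lit 180278) (nat_lit 32) (.e (nat_lit 1393) (nat_lit 106) (.e (nat_lit 319534) (nat_lit 16) (.e (nat_lit 286756) (nat_lit 10) (.e (nat_lit 344154) (nat_lit 35) (.e (nat_lit 630803) (nat_lit 9) .nil)))))) (.g (nat_lit 4) .nil .nil)))))) (.nd (nat_lit 3) (.nd (nat_lit 4) (.nd (nat_lit 5) 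
(.lf (nat_lit 268101) (.g (nat_lit 1460) (.e (nat_lit 180278) (nat_lit 32) (.e (nat_lit 1234) (nat_lit 91) (.e (nat_lit 90170) (nat_lit 13) (.e (nat_lit 172088) (nat_lit 9) .nil)))) .nil)) 
(.lf (nat_lit 268133) (.g (nat_lit 1595) (.e (nat_lit 180278) (nat_lit 32) (.e (nat_lit 1235) (nat_lit 91) (.e (nat_lit 90185) (nat_lit 17) (.e (nat_lit 237569) (nat_lit 0) .nil)))) .nil))) (.nd (nat_lit 5) 
(.lf (nat_lit 268117) (.g (nat_lit 2681) (.e (nat_lit 180278) (nat_lit 32) (.e (nat_lit 1234) (nat_lit 91) (.e (nat_lit 90178) (nat_lit 15) (.e (nat_lit 188441) (nat_lit 20) (.e (nat_lit 3271) (nat_lit 199) (.e (nat_lit 548914) (nat_lit 19) .nil)))))) (.g (nat_lit 5) .nil .nil))) 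
(.lf (nat_lit 268149) (.g (nat_lit 1607) (.e (nat_lit 180278) (nat_lit 32) (.e (nat_lit 1253) (nat_lit 92) (.e (nat_lit 98367) (nat_lit 27) (.e (nat_lit 434177) (nat_lit 0) .nil)))) .nil)))) (.nd (nat_lit 4) (.nd (nat_lit 5) 
(.lf (nat_lit 268109) (.g (nat_lit 1546) (.e (nat_lit 180278) (nat_lit 32) (.e (nat_lit 1234) (nat_lit 91) (.e (nat_lit 90172) (nat_lit 14) (.e (nat_lit 188160) (nat_lit 32) .nil)))) .nil)) 
(.lf (nat_lit 268141) (.g (nat_lit 747) (.e (nat_lit 180278) (nat_lit 32) (.e (nat_lit 1252) (nat_lit 92) (.e (nat_lit 98366) (nat_lit 27) (.e (nat_lit 442112) (nat_lit 0) .nil)))) .nil))) (.nd (nat_lit 5) 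
(.lf (nat_lit 268125) (.g (nat_lit 1036) (.e (nat_lit 180278) (nat_lit 32) (.e (nat_lit 1235) (nat_lit 91) (.e (nat_lit 90170) (nat_lit 13) (.e (nat_lit 172092) (nat_lit 9) .nil)))) .nil)) 
(.lf (nat_lit 268157) (.g (nat_lit 1670) (.e (nat_lit 180278) (nat_lit 32) (.e (nat_lit 1426) (nat_lit 108) (.e (nat_lit 336434) (nat_lit 30) (.e (nat_lit 450593) (nat_lit 16) (.e (nat_lit 655379) (nat_lit 5) .nil))))) (.g (nat_lit 5) .nil .nil))))))) (.nd (nat_lit 2) (.nd (nat_lit 3) (.nd (nat_lit 4) (.nd (nat_lit 5) 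
(.lf (nat_lit 268099) (.g (nat_lit 1291) (.e (nat_lit 180278) (nat_lit 32) (.e (nat_lit 1234) (nat_lit 91) (.e (nat_lit 90170) (nat_lit 13) (.e (nat_lit 172078) (nat_lit 7) .nil)))) .nil)) 
(.lf (nat_lit 268131) (.g (nat_lit 1390) (.e (nat_lit 180278) (nat_lit 32) (.e (nat_lit 1235) (nat_lit 91) (.e (nat_lit 90178) (nat_lit 15) (.e (nat_lit 188418) (nat_lit 0) (.e (nat_lit 1846) (nat_lit 124) .nil))))) .nil))) (.nd (nat_lit 5) 
(.lf (nat_lit 268115) (.g (nat_lit 2567) (.e (nat_lit 180278) (nat_lit 32) (.e (nat_lit 1234) (nat_lit 91) (.e (nat_lit 90178) (nat_lit 15) (.e (nat_lit 188440) (nat_lit 20) (.e (nat_lit 3271) (nat_lit 199) (.e (nat_lit 548914) (nat_lit 19) .nil)))))) (.g (nat_lit 4) .nil .nil))) 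
(.lf (nat_lit 268147) (.g (nat_lit 1415) (.e (nat_lit 180278) (nat_lit 32) (.e (nat_lit 1253) (nat_lit 92) (.e (nat_lit 98358) (nat_lit 26) (.e (nat_lit 426227) (nat_lit 9) (.e (nat_lit 433920) (nat_lit 15) .nil))))) .nil)))) (.nd (nat_lit 4) (.nd (nat_lit 5) 
(.lf (nat_lit 268107) (.g (nat_lit 461) (.e (nat_lit 180278) (nat_lit 32) (.e (nat_lit 1234) (nat_lit 91) (.e (nat_lit 90171) (nat_lit 14) .nil))) .nil)) 
(.lf (nat_lit 268139) (.g (nat_lit 1185) (.e (nat_lit 180278) (nat_lit 32) (.e (nat_lit 1252) (nat_lit 92) (.e (nat_lit 98358) (nat_lit 26) (.e (nat_lit 426227) (nat_lit 9) .nil)))) .nil))) (.nd (nat_lit 5) 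
(.lf (nat_lit 268123) (.g (nat_lit 958) (.e (nat_lit 180278) (nat_lit 32) (.e (nat_lit 1235) (nat_lit 91) (.e (nat_lit 90170) (nat_lit 13) (.e (nat_lit 172039) (nat_lit 0) .nil)))) .nil)) 
(.lf (nat_lit 268155) (.g (nat_lit 3125) (.e (nat_lit 180278) (nat_lit 32) (.e (nat_lit 1425) (nat_lit 108) (.e (nat_lit 336430) (nat_lit 29) (.e (nat_lit 442379) (nat_lit 0) (.e (nat_lit 2059) (nat_lit 142) (.e (nat_lit 704595) (nat_lit 5) .nil)))))) (.g (nat_lit 0) .nil .nil)))))) (.nd (nat_lit 3) (.nd (nat_lit 4) (.nd (nat_lit 5) 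
(.lf (nat_lit 268103) (.g (nat_lit 1233) (.e (nat_lit 180278) (nat_lit 32) (.e (nat_lit 1234) (nat_lit 91) (.e (nat_lit 90170) (nat_lit 13) (.e (nat_lit 172095) (nat_lit 9) (.e (nat_lit 433920) (nat_lit 15) .nil))))) .nil)) 
(.lf (nat_lit 268135) (.g (nat_lit 1425) (.e (nat_lit 180278) (nat_lit 32) (.e (nat_lit 1235) (nat_lit 91) (.e (nat_lit 90185) (nat_lit 17) (.e (nat_lit 237601) (nat_lit 9) (.e (nat_lit 426402) (nat_lit 15) .nil))))) .nil))) (.nd (nat_lit 5) 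
(.lf (nat_lit 268119) (.g (nat_lit 1809) (.e (nat_lit 180278) (nat_lit 32) (.e (nat_lit 1234) (nat_lit 91) (.e (nat_lit 90185) (nat_lit 17) (.e (nat_lit 237573) (nat_lit 0) .nil)))) .nil)) 
(.lf (nat_lit 268151) (.g (nat_lit 2625) (.e (nat_lit 180278) (nat_lit 32) (.e (nat_lit 1253) (nat_lit 92) (.e (nat_lit 98380) (nat_lit 31) (.e (nat_lit 466947) (nat_lit 0) (.e (nat_lit 1856) (nat_lit 124) (.e (nat_lit 557105) (nat_lit 14) .nil)))))) (.g (nat_lit 0) .nil .nil))))) (.nd (nat_lit 4) (.nd (nat_lit 5) 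
(.lf (nat_lit 268111) (.g (nat_lit 1412) (.e (nat_lit 180278) (nat_lit 32) (.e (nat_lit 1234) (nat_lit 91) (.e (nat_lit 90176) (nat_lit 15) (.e (nat_lit 188420) (nat_lit 0) (.e (nat_lit 1846) (nat_lit 124) .nil))))) .nil)) 
(.lf (nat_lit 268143) (.g (nat_lit 2247) (.e (nat_lit 180278) (nat_lit 32) (.e (nat_lit 1252) (nat_lit 92) (.e (nat_lit 98367) (nat_lit 27) (.e (nat_lit 434180) (nat_lit 0) (.e (nat_lit 1235) (nat_lit 91) (.e (nat_lit 90172) (nat_lit 14) .nil)))))) (.g (nat_lit 4) .nil .nil)))) (.nd (nat_lit 5) 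
(.lf (nat_lit 268127) (.g (nat_lit 2520) (.e (nat_lit 180278) (nat_lit 32) (.e (nat_lit 1235) (nat_lit 91) (.e (nat_lit 90170) (nat_lit 13) (.e (nat_lit 172120) (nat_lit 12) (.e (nat_lit 475184) (nat_lit 29) .nil))))) .nil)) 
(.lf (nat_lit 268159) (.g (nat_lit 3616) (.e (nat_lit 180278) (nat_lit 32) (.e (nat_lit 1427) (nat_lit 108) (.e (nat_lit 336395) (nat_lit 27) (.e (nat_lit 426317) (nat_lit 12) (.e (nat_lit 475199) (nat_lit 40) (.e (nat_lit 704595) (nat_lit 5) .nil)))))) (.g (nat_lit 6) .nil .nil)))))))))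

noncomputable def tv3443 : DT := (.nd (nat_lit 0) (.nd (nat_lit 1) (.nd (nat_lit 2) (.nd (nat_lit 3) (.nd (nat_lit 4) (.nd (nat_lit 5) 
(.lf (nat_lit 268160) (.g (nat_lit 1395) (.e (nat_lit 180278) (nat_lit 32) (.e (nat_lit 1427) (nat_lit 108) (.e (nat_lit 336414) (nat_lit 27) (.e (nat_lit 426318) (nat_lit 12) (.e (nat_lit 475197) (nat_lit 40) .nil))))) .nil)) 
(.lf (nat_lit 268192) (.g (nat_lit 3845) (.e (nat_lit 180278) (nat_lit 32) (.e (nat_lit 1427) (nat_lit 108) (.e (nat_lit 336443) (nat_lit 32) (.e (nat_lit 466971) (nat_lit 21) (.e (nat_lit 164347) (nat_lit 240) (.e (nat_lit 2638) (nat_lit 165) .nil)))))) (.g (nat_lit 0) .nil .nil)))) (.nd (nat_lit 5) 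
(.lf (nat_lit 268176) (.g (nat_lit 3150) (.e (nat_lit 180278) (nat_lit 32) (.e (nat_lit 1427) (nat_lit 108) (.e (nat_lit 336430) (nat_lit 29) (.e (nat_lit 442421) (nat_lit 21) (.e (nat_lit 164348) (nat_lit 240) (.e (nat_lit 2639) (nat_lit 165) .nil)))))) (.g (nat_lit 5) .nil .nil))) 
(.lf (nat_lit 268208) (.g (nat_lit 1789) (.e (nat_lit 180278) (nat_lit 32) (.e (nat_lit 1660) (nat_lit 115) (.e (nat_lit 393268) (nat_lit 23) (.e (nat_lit 426444) (nat_lit 19) (.e (nat_lit 114432) (nat_lit 5) .nil))))) (.g (nat_lit 4) .nil .nil))))) (.nd (nat_lit 4) (.nd (nat_lit 5) 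
(.lf (nat_lit 268168) (.g (nat_lit 1281) (.e (nat_lit 180278) (nat_lit 32) (.e (nat_lit 1427) (nat_lit 108) (.e (nat_lit 336430) (nat_lit 29) (.e (nat_lit 442402) (nat_lit 20) (.e (nat_lit 2458) (nat_lit 157) .nil))))) .nil)) 
(.lf (nat_lit 268200) (.g (nat_lit 1668) (.e (nat_lit 180278) (nat_lit 32) (.e (nat_lit 1658) (nat_lit 115) (.e (nat_lit 393273) (nat_lit 23) (.e (nat_lit 426444) (nat_lit 19) (.e (nat_lit 114432) (nat_lit 5) .nil))))) (.g (nat_lit 4) .nil .nil)))) (.nd (nat_lit 5) 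
(.lf (nat_lit 268184) (.g (nat_lit 2448) (.e (nat_lit 180278) (nat_lit 32) (.e (nat_lit 1427) (nat_lit 108) (.e (nat_lit 336432) (nat_lit 30) (.e (nat_lit 450564) (nat_lit 0) (.e (nat_lit 5548) (nat_lit 306) (.e (nat_lit 2638) (nat_lit 165) .nil)))))) (.g (nat_lit 4) .nil .nil))) 
(.lf (nat_lit 268216) (.g (nat_lit 2210) (.e (nat_lit 180278) (nat_lit 32) (.e (nat_lit 1660) (nat_lit 115) (.e (nat_lit 393294) (nat_lit 26) (.e (nat_lit 475200) (nat_lit 40) (.e (nat_lit 712448) (nat_lit 5) .nil))))) (.g (nat_lit 4) .nil .nil)))))) (.nd (nat_lit 3) (.nd (nat_lit 4) (.nd (nat_lit 5) 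
(.lf (nat_lit 268164) (.g (nat_lit 2484) (.e (nat_lit 180278) (nat_lit 32) (.e (nat_lit 1427) (nat_lit 108) (.e (nat_lit 336428) (nat_lit 29) (.e (nat_lit 442374) (nat_lit 0) (.e (nat_lit 2057) (nat_lit 142) (.e (nat_lit 704595) (nat_lit 5) .nil)))))) (.g (nat_lit 4) .nil .nil))) 
(.lf (nat_lit 268196) (.g (nat_lit 1654) (.e (nat_lit 180278) (nat_lit 32) (.e (nat_lit 1428) (nat_lit 108) (.e (nat_lit 336428) (nat_lit 29) (.e (nat_lit 442371) (nat_lit 0) (.e (nat_lit 2148) (nat_lit 142) (.e (nat_lit 704594) (nat_lit 5) .nil)))))) (.g (nat_lit 0) .nil .nil)))) (.nd (nat_lit 5) 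
(.lf (nat_lit 268180) (.g (nat_lit 3209) (.e (nat_lit 180278) (nat_lit 32) (.e (nat_lit 1427) (nat_lit 108) (.e (nat_lit 336430) (nat_lit 29) (.e (nat_lit 442429) (nat_lit 24) (.e (nat_lit 229664) (nat_lit 240) (.e (nat_lit 2641) (nat_lit 165) .nil)))))) (.g (nat_lit 6) .nil .nil))) 
(.lf (nat_lit 268212) (.g (nat_lit 2069) (.e (nat_lit 180278) (nat_lit 32) (.e (nat_lit 1660) (nat_lit 115) (.e (nat_lit 393271) (nat_lit 23) (.e (nat_lit 426444) (nat_lit 19) (.e (nat_lit 114432) (nat_lit 5) .nil))))) (.g (nat_lit 4) .nil .nil))))) (.nd (nat_lit 4) (.nd (nat_lit 5) 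
(.lf (nat_lit 268172) (.g (nat_lit 1710) (.e (nat_lit 180278) (nat_lit 32) (.e (nat_lit 1427) (nat_lit 108) (.e (nat_lit 336430) (nat_lit 29) (.e (nat_lit 442412) (nat_lit 20) .nil)))) .nil)) 
(.lf (nat_lit 268204) (.g (nat_lit 1420) (.e (nat_lit 180278) (nat_lit 32) (.e (nat_lit 1659) (nat_lit 115) (.e (nat_lit 393279) (nat_lit 23) (.e (nat_lit 426443) (nat_lit 19) (.e (nat_lit 114432) (nat_lit 5) .nil))))) (.g (nat_lit 4) .nil .nil)))) (.nd (nat_lit 5) 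
(.lf (nat_lit 268188) (.g (nat_lit 2938) (.e (nat_lit 180278) (nat_lit 32) (.e (nat_lit 1427) (nat_lit 108) (.e (nat_lit 336443) (nat_lit 32) (.e (nat_lit 466969) (nat_lit 21) (.e (nat_lit 164348) (nat_lit 240) (.e (nat_lit 2639) (nat_lit 165) .nil)))))) (.g (nat_lit 5) .nil .nil))) 
(.lf (nat_lit 268220) (.g (nat_lit 1915) (.e (nat_lit 180278) (nat_lit 32) (.e (nat_lit 1661) (nat_lit 115) (.e (nat_lit 393268) (nat_lit 23) (.e (nat_lit 426439) (nat_lit 19) (.e (nat_lit 114432) (nat_lit 5) .nil))))) (.g (nat_lit 4) .nil .nil))))))) (.nd (nat_lit 2) (.nd (nat_lit 3) (.nd (nat_lit 4) (.nd (nat_lit 5) 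
(.lf (nat_lit 268162) (.g (nat_lit 1390) (.e (nat_lit 180278) (nat_lit 32) (.e (nat_lit 1427) (nat_lit 108) (.e (nat_lit 336426) (nat_lit 29) (.e (nat_lit 442421) (nat_lit 21) (.e (nat_lit 164346) (nat_lit 240) .nil))))) .nil)) 
(.lf (nat_lit 268194) (.g (nat_lit 3574) (.e (nat_lit 180278) (nat_lit 32) (.e (nat_lit 1427) (nat_lit 108) (.e (nat_lit 336443) (nat_lit 32) (.e (nat_lit 466972) (nat_lit 21) (.e (nat_lit 164345) (nat_lit 240) (.e (nat_lit 2638) (nat_lit 165) .nil)))))) (.g (nat_lit 6) .nil .nil)))) (.nd (nat_lit 5) 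
(.lf (nat_lit 268178) (.g (nat_lit 1497) (.e (nat_lit 180278) (nat_lit 32) (.e (nat_lit 1427) (nat_lit 108) (.e (nat_lit 336430) (nat_lit 29) (.e (nat_lit 442429) (nat_lit 24) .nil)))) .nil)) 
(.lf (nat_lit 268210) (.g (nat_lit 1360) (.e (nat_lit 180278) (nat_lit 32) (.e (nat_lit 1660) (nat_lit 115) (.e (nat_lit 393271) (nat_lit 23) (.e (nat_lit 426420) (nat_lit 15) .nil)))) .nil)))) (.nd (nat_lit 4) (.nd (nat_lit 5) 
(.lf (nat_lit 268170) (.g (nat_lit 2617) (.e (nat_lit 180278) (nat_lit 32) (.e (nat_lit 1427) (nat_lit 108) (.e (nat_lit 336430) (nat_lit 29) (.e (nat_lit 442409) (nat_lit 20) (.e (nat_lit 3408) (nat_lit 212) (.e (nat_lit 655379) (nat_lit 5) .nil)))))) (.g (nat_lit 0) .nil .nil))) 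
(.lf (nat_lit 268202) (.g (nat_lit 2210) (.e (nat_lit 180278) (nat_lit 32) (.e (nat_lit 1659) (nat_lit 115) (.e (nat_lit 393271) (nat_lit 23) (.e (nat_lit 426444) (nat_lit 19) (.e (nat_lit 114432) (nat_lit 5) .nil))))) (.g (nat_lit 4) .nil .nil)))) (.nd (nat_lit 5) 
(.lf (nat_lit 268186) (.g (nat_lit 3661) (.e (nat_lit 180278) (nat_lit 32) (.e (nat_lit 1427) (nat_lit 108) (.e (nat_lit 336443) (nat_lit 32) (.e (nat_lit 466969) (nat_lit 21) (.e (nat_lit 164345) (nat_lit 240) (.e (nat_lit 2638) (nat_lit 165) .nil)))))) (.g (nat_lit 0) .nil .nil))) 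
(.lf (nat_lit 268218) (.g (nat_lit 1693) (.e (nat_lit 180278) (nat_lit 32) (.e (nat_lit 1661) (nat_lit 115) (.e (nat_lit 393267) (nat_lit 23) (.e (nat_lit 426442) (nat_lit 19) (.e (nat_lit 114432) (nat_lit 5) .nil))))) (.g (nat_lit 4) .nil .nil)))))) (.nd (nat_lit 3) (.nd (nat_lit 4) (.nd (nat_lit 5) 
(.lf (nat_lit 268166) (.g (nat_lit 1345) (.e (nat_lit 180278) (nat_lit 32) (.e (nat_lit 1427) (nat_lit 108) (.e (nat_lit 336430) (nat_lit 29) (.e (nat_lit 442377) (nat_lit 0) .nil)))) .nil)) 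
(.lf (nat_lit 268198) (.g (nat_lit 1779) (.e (nat_lit 180278) (nat_lit 32) (.e (nat_lit 1428) (nat_lit 108) (.e (nat_lit 336430) (nat_lit 29) (.e (nat_lit 442376) (nat_lit 0) (.e (nat_lit 2146) (nat_lit 142) (.e (nat_lit 712448) (nat_lit 5) .nil)))))) (.g (nat_lit 5) .nil .nil)))) (.nd (nat_lit 5) 
(.lf (nat_lit 268182) (.g (nat_lit 3747) (.e (nat_lit 180278) (nat_lit 32) (.e (nat_lit 1427) (nat_lit 108) (.e (nat_lit 336430) (nat_lit 29) (.e (nat_lit 442430) (nat_lit 24) (.e (nat_lit 229663) (nat_lit 240) (.e (nat_lit 2641) (nat_lit 165) .nil)))))) (.g (nat_lit 0) .nil .nil))) 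
(.lf (nat_lit 268214) (.g (nat_lit 2631) (.e (nat_lit 180278) (nat_lit 32) (.e (nat_lit 1660) (nat_lit 115) (.e (nat_lit 393291) (nat_lit 26) (.e (nat_lit 475199) (nat_lit 40) (.e (nat_lit 704595) (nat_lit 5) .nil))))) (.g (nat_lit 0) .nil .nil))))) (.nd (nat_lit 4) (.nd (nat_lit 5) 
(.lf (nat_lit 268174) (.g (nat_lit 3323) (.e (nat_lit 180278) (nat_lit 32) (.e (nat_lit 1427) (nat_lit 108) (.e (nat_lit 336430) (nat_lit 29) (.e (nat_lit 442419) (nat_lit 21) (.e (nat_lit 164348) (nat_lit 240) (.e (nat_lit 2639) (nat_lit 165) .nil)))))) (.g (nat_lit 5) .nil .nil))) 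
(.lf (nat_lit 268206) (.g (nat_lit 1572) (.e (nat_lit 180278) (nat_lit 32) (.e (nat_lit 1660) (nat_lit 115) (.e (nat_lit 393267) (nat_lit 23) (.e (nat_lit 426442) (nat_lit 19) (.e (nat_lit 114432) (nat_lit 5) .nil))))) (.g (nat_lit 4) .nil .nil)))) (.nd (nat_lit 5) 
(.lf (nat_lit 268190) (.g (nat_lit 3509) (.e (nat_lit 180278) (nat_lit 32) (.e (nat_lit 1427) (nat_lit 108) (.e (nat_lit 336443) (nat_lit 32) (.e (nat_lit 466971) (nat_lit 21) (.e (nat_lit 164345) (nat_lit 240) (.e (nat_lit 2638) (nat_lit 165) .nil)))))) (.g (nat_lit 0) .nil .nil))) 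
(.lf (nat_lit 268222) (.g (nat_lit 1972) (.e (nat_lit 180278) (nat_lit 32) (.e (nat_lit 1661) (nat_lit 115) (.e (nat_lit 393268) (nat_lit 23) (.e (nat_lit 426442) (nat_lit 19) (.e (nat_lit 114432) (nat_lit 5) .nil))))) (.g (nat_lit 4) .nil .nil)))))))) (.nd (nat_lit 1) (.nd (nat_lit 2) (.nd (nat_lit 3) (.nd (nat_lit 4) (.nd (nat_lit 5) 
(.lf (nat_lit 268161) (.g (nat_lit 741) (.e (nat_lit 180278) (nat_lit 32) (.e (nat_lit 1427) (nat_lit 108) (.e (nat_lit 336426) (nat_lit 29) (.e (nat_lit 450304) (nat_lit 4) .nil)))) .nil)) 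
(.lf (nat_lit 268193) (.g (nat_lit 2990) (.e (nat_lit 180278) (nat_lit 32) (.e (nat_lit 1427) (nat_lit 108) (.e (nat_lit 336443) (nat_lit 32) (.e (nat_lit 466971) (nat_lit 21) (.e (nat_lit 164348) (nat_lit 240) (.e (nat_lit 2639) (nat_lit 165) .nil)))))) (.g (nat_lit 5) .nil .nil)))) (.nd (nat_lit 5) 
(.lf (nat_lit 268177) (.g (nat_lit 3581) (.e (nat_lit 180278) (nat_lit 32) (.e (nat_lit 1427) (nat_lit 108) (.e (nat_lit 336430) (nat_lit 29) (.e (nat_lit 442428) (nat_lit 24) (.e (nat_lit 229663) (nat_lit 240) (.e (nat_lit 2641) (nat_lit 165) .nil)))))) (.g (nat_lit 0) .nil .nil))) 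
(.lf (nat_lit 268209) (.g (nat_lit 2004) (.e (nat_lit 180278) (nat_lit 32) (.e (nat_lit 1660) (nat_lit 115) (.e (nat_lit 393271) (nat_lit 23) (.e (nat_lit 426354) (nat_lit 15) (.e (nat_lit 2053) (nat_lit 142) (.e (nat_lit 704595) (nat_lit 5) .nil)))))) (.g (nat_lit 4) .nil .nil))))) (.nd (nat_lit 4) (.nd (nat_lit 5) 
(.lf (nat_lit 268169) (.g (nat_lit 1701) (.e (nat_lit 180278) (nat_lit 32) (.e (nat_lit 1427) (nat_lit 108) (.e (nat_lit 336430) (nat_lit 29) (.e (nat_lit 442403) (nat_lit 20) .nil)))) .nil)) 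
(.lf (nat_lit 268201) (.g (nat_lit 1957) (.e (nat_lit 180278) (nat_lit 32) (.e (nat_lit 1659) (nat_lit 115) (.e (nat_lit 393270) (nat_lit 23) (.e (nat_lit 426444) (nat_lit 19) (.e (nat_lit 114432) (nat_lit 5) .nil))))) (.g (nat_lit 4) .nil .nil)))) (.nd (nat_lit 5) 
(.lf (nat_lit 268185) (.g (nat_lit 2088) (.e (nat_lit 180278) (nat_lit 32) (.e (nat_lit 1427) (nat_lit 108) (.e (nat_lit 336443) (nat_lit 32) (.e (nat_lit 466968) (nat_lit 21) .nil)))) .nil)) 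
(.lf (nat_lit 268217) (.g (nat_lit 2009) (.e (nat_lit 180278) (nat_lit 32) (.e (nat_lit 1660) (nat_lit 115) (.e (nat_lit 393294) (nat_lit 26) (.e (nat_lit 475201) (nat_lit 40) (.e (nat_lit 712448) (nat_lit 5) .nil))))) (.g (nat_lit 4) .nil .nil)))))) (.nd (nat_lit 3) (.nd (nat_lit 4) (.nd (nat_lit 5) 
(.lf (nat_lit 268165) (.g (nat_lit 1611) (.e (nat_lit 180278) (nat_lit 32) (.e (nat_lit 1427) (nat_lit 108) (.e (nat_lit 336428) (nat_lit 29) (.e (nat_lit 442428) (nat_lit 24) .nil)))) .nil)) 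
(.lf (nat_lit 268197) (.g (nat_lit 1857) (.e (nat_lit 180278) (nat_lit 32) (.e (nat_lit 1428) (nat_lit 108) (.e (nat_lit 336428) (nat_lit 29) (.e (nat_lit 442374) (nat_lit 0) (.e (nat_lit 2057) (nat_lit 142) (.e (nat_lit 704595) (nat_lit 5) .nil)))))) (.g (nat_lit 4) .nil .nil)))) (.nd (nat_lit 5) 
(.lf (nat_lit 268181) (.g (nat_lit 3187) (.e (nat_lit 180278) (nat_lit 32) (.e (nat_lit 1427) (nat_lit 108) (.e (nat_lit 336430) (nat_lit 29) (.e (nat_lit 442429) (nat_lit 24) (.e (nat_lit 229665) (nat_lit 240) (.e (nat_lit 2641) (nat_lit 165) .nil)))))) (.g (nat_lit 6) .nil .nil))) 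
(.lf (nat_lit 268213) (.g (nat_lit 1310) (.e (nat_lit 180278) (nat_lit 32) (.e (nat_lit 1660) (nat_lit 115) (.e (nat_lit 393279) (nat_lit 23) (.e (nat_lit 426443) (nat_lit 19) (.e (nat_lit 114432) (nat_lit 5) .nil))))) (.g (nat_lit 4) .nil .nil))))) (.nd (nat_lit 4) (.nd (nat_lit 5) 
(.lf (nat_lit 268173) (.g (nat_lit 3620) (.e (nat_lit 180278) (nat_lit 32) (.e (nat_lit 1427) (nat_lit 108) (.e (nat_lit 336430) (nat_lit 29) (.e (nat_lit 442419) (nat_lit 21) (.e (nat_lit 164346) (nat_lit 240) (.e (nat_lit 2639) (nat_lit 165) .nil)))))) (.g (nat_lit 6) .nil .nil))) 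
(.lf (nat_lit 268205) (.g (nat_lit 3062) (.e (nat_lit 180278) (nat_lit 32) (.e (nat_lit 1659) (nat_lit 115) (.e (nat_lit 393294) (nat_lit 26) (.e (nat_lit 475199) (nat_lit 40) (.e (nat_lit 704595) (nat_lit 5) .nil))))) (.g (nat_lit 0) .nil .nil)))) (.nd (nat_lit 5) 
(.lf (nat_lit 268189) (.g (nat_lit 2101) (.e (nat_lit 180278) (nat_lit 32) (.e (nat_lit 1427) (nat_lit 108) (.e (nat_lit 336443) (nat_lit 32) (.e (nat_lit 466970) (nat_lit 21) .nil)))) .nil)) 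
(.lf (nat_lit 268221) (.g (nat_lit 2077) (.e (nat_lit 180278) (nat_lit 32) (.e (nat_lit 1661) (nat_lit 115) (.e (nat_lit 393268) (nat_lit 23) (.e (nat_lit 426440) (nat_lit 19) (.e (nat_lit 114432) (nat_lit 5) .nil))))) (.g (nat_lit 4) .nil .nil))))))) (.nd (nat_lit 2) (.nd (nat_lit 3) (.nd (nat_lit 4) (.nd (nat_lit 5) 
(.lf (nat_lit 268163) (.g (nat_lit 3003) (.e (nat_lit 180278) (nat_lit 32) (.e (nat_lit 1427) (nat_lit 108) (.e (nat_lit 336426) (nat_lit 29) (.e (nat_lit 442430) (nat_lit 24) (.e (nat_lit 229663) (nat_lit 240) (.e (nat_lit 2641) (nat_lit 165) .nil)))))) (.g (nat_lit 6) .nil .nil))) 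
(.lf (nat_lit 268195) (.g (nat_lit 3241) (.e (nat_lit 180278) (nat_lit 32) (.e (nat_lit 1427) (nat_lit 108) (.e (nat_lit 336443) (nat_lit 32) (.e (nat_lit 466972) (nat_lit 21) (.e (nat_lit 164345) (nat_lit 240) (.e (nat_lit 2639) (nat_lit 165) .nil)))))) (.g (nat_lit 5) .nil .nil)))) (.nd (nat_lit 5) 
(.lf (nat_lit 268179) (.g (nat_lit 2835) (.e (nat_lit 180278) (nat_lit 32) (.e (nat_lit 1427) (nat_lit 108) (.e (nat_lit 336430) (nat_lit 29) (.e (nat_lit 442429) (nat_lit 24) (.e (nat_lit 229663) (nat_lit 240) (.e (nat_lit 2641) (nat_lit 165) .nil)))))) (.g (nat_lit 5) .nil .nil))) 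
(.lf (nat_lit 268211) (.g (nat_lit 1923) (.e (nat_lit 180278) (nat_lit 32) (.e (nat_lit 1660) (nat_lit 115) (.e (nat_lit 393271) (nat_lit 23) (.e (nat_lit 426442) (nat_lit 19) (.e (nat_lit 114432) (nat_lit 5) .nil))))) (.g (nat_lit 4) .nil .nil))))) (.nd (nat_lit 4) (.nd (nat_lit 5) 
(.lf (nat_lit 268171) (.g (nat_lit 1710) (.e (nat_lit 180278) (nat_lit 32) (.e (nat_lit 1427) (nat_lit 108) (.e (nat_lit 336430) (nat_lit 29) (.e (nat_lit 442411) (nat_lit 20) .nil)))) .nil)) 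
(.lf (nat_lit 268203) (.g (nat_lit 2090) (.e (nat_lit 180278) (nat_lit 32) (.e (nat_lit 1659) (nat_lit 115) (.e (nat_lit 393273) (nat_lit 23) (.e (nat_lit 426444) (nat_lit 19) (.e (nat_lit 114432) (nat_lit 5) .nil))))) (.g (nat_lit 4) .nil .nil)))) (.nd (nat_lit 5) 
(.lf (nat_lit 268187) (.g (nat_lit 2578) (.e (nat_lit 180278) (nat_lit 32) (.e (nat_lit 1427) (nat_lit 108) (.e (nat_lit 336443) (nat_lit 32) (.e (nat_lit 466969) (nat_lit 21) (.e (nat_lit 164347) (nat_lit 240) (.e (nat_lit 2640) (nat_lit 165) .nil)))))) (.g (nat_lit 4) .nil .nil))) 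
(.lf (nat_lit 268219) (.g (nat_lit 1799) (.e (nat_lit 180278) (nat_lit 32) (.e (nat_lit 1661) (nat_lit 115) (.e (nat_lit 393267) (nat_lit 23) (.e (nat_lit 426444) (nat_lit 19) (.e (nat_lit 114432) (nat_lit 5) .nil))))) (.g (nat_lit 4) .nil .nil)))))) (.nd (nat_lit 3) (.nd (nat_lit 4) (.nd (nat_lit 5) 
(.lf (nat_lit 268167) (.g (nat_lit 1692) (.e (nat_lit 180278) (nat_lit 32) (.e (nat_lit 1427) (nat_lit 108) (.e (nat_lit 336430) (nat_lit 29) (.e (nat_lit 442378) (nat_lit 0) (.e (nat_lit 2056) (nat_lit 142) .nil))))) .nil)) 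
(.lf (nat_lit 268199) (.g (nat_lit 1782) (.e (nat_lit 180278) (nat_lit 32) (.e (nat_lit 1658) (nat_lit 115) (.e (nat_lit 393271) (nat_lit 23) (.e (nat_lit 426444) (nat_lit 19) (.e (nat_lit 114432) (nat_lit 5) .nil))))) (.g (nat_lit 4) .nil .nil)))) (.nd (nat_lit 5) 
(.lf (nat_lit 268183) (.g (nat_lit 3661) (.e (nat_lit 180278) (nat_lit 32) (.e (nat_lit 1427) (nat_lit 108) (.e (nat_lit 336430) (nat_lit 29) (.e (nat_lit 442430) (nat_lit 24) (.e (nat_lit 229664) (nat_lit 240) (.e (nat_lit 2641) (nat_lit 165) .nil)))))) (.g (nat_lit 0) .nil .nil))) 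
(.lf (nat_lit 268215) (.g (nat_lit 1855) (.e (nat_lit 180278) (nat_lit 32) (.e (nat_lit 1660) (nat_lit 115) (.e (nat_lit 393291) (nat_lit 26) (.e (nat_lit 475201) (nat_lit 40) (.e (nat_lit 712448) (nat_lit 5) .nil))))) (.g (nat_lit 4) .nil .nil))))) (.nd (nat_lit 4) (.nd (nat_lit 5) 
(.lf (nat_lit 268175) (.g (nat_lit 3412) (.e (nat_lit 180278) (nat_lit 32) (.e (nat_lit 1427) (nat_lit 108) (.e (nat_lit 336430) (nat_lit 29) (.e (nat_lit 442421) (nat_lit 21) (.e (nat_lit 164346) (nat_lit 240) (.e (nat_lit 2639) (nat_lit 165) .nil)))))) (.g (nat_lit 6) .nil .nil))) 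
(.lf (nat_lit 268207) (.g (nat_lit 1673) (.e (nat_lit 180278) (nat_lit 32) (.e (nat_lit 1660) (nat_lit 115) (.e (nat_lit 393267) (nat_lit 23) (.e (nat_lit 426444) (nat_lit 19) (.e (nat_lit 114432) (nat_lit 5) .nil))))) (.g (nat_lit 4) .nil .nil)))) (.nd (nat_lit 5) 
(.lf (nat_lit 268191) (.g (nat_lit 2521) (.e (nat_lit 180278) (nat_lit 32) (.e (nat_lit 1427) (nat_lit 108) (.e (nat_lit 336443) (nat_lit 32) (.e (nat_lit 466971) (nat_lit 21) (.e (nat_lit 164346) (nat_lit 240) (.e (nat_lit 2639) (nat_lit 165) .nil)))))) (.g (nat_lit 4) .nil .nil))) 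
(.lf (nat_lit 268223) (.g (nat_lit 2272) (.e (nat_lit 180278) (nat_lit 32) (.e (nat_lit 1661) (nat_lit 115) (.e (nat_lit 393268) (nat_lit 23) (.e (nat_lit 426444) (nat_lit 19) (.e (nat_lit 114432) (nat_lit 5) .nil))))) (.g (nat_lit 4) .nil .nil)))))))))

noncomputable def tv3444 : DT := (.nd (nat_lit 0) (.nd (nat_lit 1) (.nd (nat_lit 2) (.nd (nat_lit 3) (.nd (nat_lit 4) (.nd (nat_lit 5) 
(.lf (nat_lit 268224) (.g (nat_lit 1597) (.e (nat_lit 180278) (nat_lit 32) (.e (nat_lit 1661) (nat_lit 115) (.e (nat_lit 393269) (nat_lit 23) (.e (nat_lit 426442) (nat_lit 19) (.e (nat_lit 114432) (nat_lit 5) .nil))))) (.g (nat_lit 4) .nil .nil))) 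
(.lf (nat_lit 268256) (.g (nat_lit 559) (.e (nat_lit 188160) (nat_lit 32) (.e (nat_lit 1239) (nat_lit 91) (.e (nat_lit 90134) (nat_lit 9) .nil))) .nil))) (.nd (nat_lit 5) 
(.lf (nat_lit 268240) (.g (nat_lit 896) (.e (nat_lit 188160) (nat_lit 32) (.e (nat_lit 1232) (nat_lit 91) (.e (nat_lit 90170) (nat_lit 13) (.e (nat_lit 172118) (nat_lit 12) .nil)))) .nil)) 
(.lf (nat_lit 268272) (.g (nat_lit 1478) (.e (nat_lit 188160) (nat_lit 32) (.e (nat_lit 1239) (nat_lit 91) (.e (nat_lit 90171) (nat_lit 14) (.e (nat_lit 180277) (nat_lit 32) (.e (nat_lit 1235) (nat_lit 91) .nil))))) .nil)))) (.nd (nat_lit 4) (.nd (nat_lit 5) 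
(.lf (nat_lit 268232) (.g (nat_lit 3103) (.e (nat_lit 180278) (nat_lit 32) (.e (nat_lit 1661) (nat_lit 115) (.e (nat_lit 393291) (nat_lit 26) (.e (nat_lit 475199) (nat_lit 40) (.e (nat_lit 704595) (nat_lit 5) .nil))))) (.g (nat_lit 0) .nil .nil))) 
(.lf (nat_lit 268264) (.g (nat_lit 2392) (.e (nat_lit 188160) (nat_lit 32) (.e (nat_lit 1239) (nat_lit 91) (.e (nat_lit 90170) (nat_lit 13) (.e (nat_lit 172095) (nat_lit 9) (.e (nat_lit 426380) (nat_lit 15) .nil))))) .nil))) (.nd (nat_lit 5) 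
(.lf (nat_lit 268248) (.g (nat_lit 1089) (.e (nat_lit 188160) (nat_lit 32) (.e (nat_lit 1234) (nat_lit 91) (.e (nat_lit 90176) (nat_lit 15) (.e (nat_lit 196352) (nat_lit 0) .nil)))) .nil)) 
(.lf (nat_lit 268280) (.g (nat_lit 1571) (.e (nat_lit 188160) (nat_lit 32) (.e (nat_lit 1239) (nat_lit 91) (.e (nat_lit 90185) (nat_lit 17) (.e (nat_lit 237619) (nat_lit 12) .nil)))) .nil))))) (.nd (nat_lit 3) (.nd (nat_lit 4) (.nd (nat_lit 5) 
(.lf (nat_lit 268228) (.g (nat_lit 1533) (.e (nat_lit 180278) (nat_lit 32) (.e (nat_lit 1661) (nat_lit 115) (.e (nat_lit 393279) (nat_lit 23) (.e (nat_lit 426443) (nat_lit 19) (.e (nat_lit 114432) (nat_lit 5) .nil))))) (.g (nat_lit 4) .nil .nil))) 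
(.lf (nat_lit 268260) (.g (nat_lit 2159) (.e (nat_lit 188160) (nat_lit 32) (.e (nat_lit 1239) (nat_lit 91) (.e (nat_lit 90170) (nat_lit 13) (.e (nat_lit 172079) (nat_lit 7) .nil)))) .nil))) (.nd (nat_lit 5) 
(.lf (nat_lit 268244) (.g (nat_lit 1999) (.e (nat_lit 188160) (nat_lit 32) (.e (nat_lit 1232) (nat_lit 91) (.e (nat_lit 90174) (nat_lit 14) (.e (nat_lit 180288) (nat_lit 45) (.e (nat_lit 2571) (nat_lit 160) .nil))))) .nil)) 
(.lf (nat_lit 268276) (.g (nat_lit 557) (.e (nat_lit 188160) (nat_lit 32) (.e (nat_lit 1239) (nat_lit 91) (.e (nat_lit 90176) (nat_lit 15) .nil))) .nil)))) (.nd (nat_lit 4) (.nd (nat_lit 5) 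
(.lf (nat_lit 268236) (.g (nat_lit 1331) (.e (nat_lit 188160) (nat_lit 32) (.e (nat_lit 1183) (nat_lit 87) (.e (nat_lit 57694) (nat_lit 157) (.e (nat_lit 229415) (nat_lit 15) (.e (nat_lit 450601) (nat_lit 21) .nil))))) .nil)) 
(.lf (nat_lit 268268) (.g (nat_lit 1248) (.e (nat_lit 188160) (nat_lit 32) (.e (nat_lit 1239) (nat_lit 91) (.e (nat_lit 90170) (nat_lit 13) (.e (nat_lit 172124) (nat_lit 14) .nil)))) .nil))) (.nd (nat_lit 5) 
(.lf (nat_lit 268252) (.g (nat_lit 1258) (.e (nat_lit 188160) (nat_lit 32) (.e (nat_lit 1234) (nat_lit 91) (.e (nat_lit 90185) (nat_lit 17) (.e (nat_lit 237605) (nat_lit 9) .nil)))) .nil)) 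
(.lf (nat_lit 268284) (.g (nat_lit 675) (.e (nat_lit 188160) (nat_lit 32) (.e (nat_lit 1256) (nat_lit 92) (.e (nat_lit 98359) (nat_lit 26) (.e (nat_lit 426212) (nat_lit 9) .nil)))) .nil)))))) (.nd (nat_lit 2) (.nd (nat_lit 3) (.nd (nat_lit 4) (.nd (nat_lit 5) 
(.lf (nat_lit 268226) (.g (nat_lit 1990) (.e (nat_lit 180278) (nat_lit 32) (.e (nat_lit 1661) (nat_lit 115) (.e (nat_lit 393271) (nat_lit 23) (.e (nat_lit 426444) (nat_lit 19) (.e (nat_lit 114432) (nat_lit 5) .nil))))) (.g (nat_lit 4) .nil .nil))) 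
(.lf (nat_lit 268258) (.g (nat_lit 1351) (.e (nat_lit 188160) (nat_lit 32) (.e (nat_lit 1239) (nat_lit 91) (.e (nat_lit 90168) (nat_lit 13) (.e (nat_lit 172126) (nat_lit 14) (.e (nat_lit 491537) (nat_lit 2) .nil))))) .nil))) (.nd (nat_lit 5) 
(.lf (nat_lit 268242) (.g (nat_lit 1492) (.e (nat_lit 188160) (nat_lit 32) (.e (nat_lit 1232) (nat_lit 91) (.e (nat_lit 90174) (nat_lit 14) (.e (nat_lit 180277) (nat_lit 32) (.e (nat_lit 1235) (nat_lit 91) .nil))))) .nil)) 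
(.lf (nat_lit 268274) (.g (nat_lit 1429) (.e (nat_lit 188160) (nat_lit 32) (.e (nat_lit 1239) (nat_lit 91) (.e (nat_lit 90172) (nat_lit 14) (.e (nat_lit 188160) (nat_lit 32) .nil)))) .nil)))) (.nd (nat_lit 4) (.nd (nat_lit 5) 
(.lf (nat_lit 268234) (.g (nat_lit 2747) (.e (nat_lit 180278) (nat_lit 32) (.e (nat_lit 1661) (nat_lit 115) (.e (nat_lit 393294) (nat_lit 26) (.e (nat_lit 475199) (nat_lit 40) (.e (nat_lit 704595) (nat_lit 5) .nil))))) (.g (nat_lit 0) .nil .nil))) 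
(.lf (nat_lit 268266) (.g (nat_lit 2472) (.e (nat_lit 188160) (nat_lit 32) (.e (nat_lit 1239) (nat_lit 91) (.e (nat_lit 90170) (nat_lit 13) (.e (nat_lit 172107) (nat_lit 10) .nil)))) .nil))) (.nd (nat_lit 5) 
(.lf (nat_lit 268250) (.g (nat_lit 1224) (.e (nat_lit 188160) (nat_lit 32) (.e (nat_lit 1234) (nat_lit 91) (.e (nat_lit 90176) (nat_lit 15) (.e (nat_lit 188439) (nat_lit 20) (.e (nat_lit 3271) (nat_lit 199) .nil))))) .nil)) 
(.lf (nat_lit 268282) (.g (nat_lit 180) (.e (nat_lit 188160) (nat_lit 32) (.e (nat_lit 1250) (nat_lit 92) (.e (nat_lit 98369) (nat_lit 28) .nil))) .nil))))) (.nd (nat_lit 3) (.nd (nat_lit 4) (.nd (nat_lit 5) 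
(.lf (nat_lit 268230) (.g (nat_lit 2513) (.e (nat_lit 180278) (nat_lit 32) (.e (nat_lit 1661) (nat_lit 115) (.e (nat_lit 393283) (nat_lit 24) (.e (nat_lit 434271) (nat_lit 38) (.e (nat_lit 655379) (nat_lit 5) .nil))))) (.g (nat_lit 0) .nil .nil))) 
(.lf (nat_lit 268262) (.g (nat_lit 2585) (.e (nat_lit 188160) (nat_lit 32) (.e (nat_lit 1239) (nat_lit 91) (.e (nat_lit 90170) (nat_lit 13) (.e (nat_lit 172088) (nat_lit 9) .nil)))) .nil))) (.nd (nat_lit 5) 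
(.lf (nat_lit 268246) (.g (nat_lit 1788) (.e (nat_lit 188160) (nat_lit 32) (.e (nat_lit 1234) (nat_lit 91) (.e (nat_lit 90170) (nat_lit 13) (.e (nat_lit 172118) (nat_lit 12) .nil)))) .nil)) 
(.lf (nat_lit 268278) (.g (nat_lit 1244) (.e (nat_lit 188160) (nat_lit 32) (.e (nat_lit 1239) (nat_lit 91) (.e (nat_lit 90178) (nat_lit 15) (.e (nat_lit 196352) (nat_lit 0) .nil)))) .nil)))) (.nd (nat_lit 4) (.nd (nat_lit 5) 
(.lf (nat_lit 268238) (.g (nat_lit 950) (.e (nat_lit 188160) (nat_lit 32) (.e (nat_lit 1228) (nat_lit 91) (.e (nat_lit 90176) (nat_lit 15) (.e (nat_lit 196352) (nat_lit 0) .nil)))) .nil)) 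
(.lf (nat_lit 268270) (.g (nat_lit 2445) (.e (nat_lit 188160) (nat_lit 32) (.e (nat_lit 1239) (nat_lit 91) (.e (nat_lit 90170) (nat_lit 13) (.e (nat_lit 172126) (nat_lit 14) (.e (nat_lit 491537) (nat_lit 2) .nil))))) .nil))) (.nd (nat_lit 5) 
(.lf (nat_lit 268254) (.g (nat_lit 1165) (.e (nat_lit 188160) (nat_lit 32) (.e (nat_lit 1234) (nat_lit 91) (.e (nat_lit 90185) (nat_lit 17) (.e (nat_lit 237619) (nat_lit 12) .nil)))) .nil)) 
(.lf (nat_lit 268286) (.g (nat_lit 1399) (.e (nat_lit 188160) (nat_lit 32) (.e (nat_lit 1256) (nat_lit 92) (.e (nat_lit 98359) (nat_lit 26) (.e (nat_lit 426286) (nat_lit 10) (.e (nat_lit 434237) (nat_lit 25) .nil))))) .nil))))))) (.nd (nat_lit 1) (.nd (nat_lit 2) (.nd (nat_lit 3) (.nd (nat_lit 4) (.nd (nat_lit 5) 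
(.lf (nat_lit 268225) (.g (nat_lit 1663) (.e (nat_lit 180278) (nat_lit 32) (.e (nat_lit 1661) (nat_lit 115) (.e (nat_lit 393269) (nat_lit 23) (.e (nat_lit 426444) (nat_lit 19) (.e (nat_lit 114432) (nat_lit 5) .nil))))) (.g (nat_lit 4) .nil .nil))) 
(.lf (nat_lit 268257) (.g (nat_lit 1321) (.e (nat_lit 188160) (nat_lit 32) (.e (nat_lit 1239) (nat_lit 91) (.e (nat_lit 90134) (nat_lit 9) (.e (nat_lit 140) (nat_lit 8) .nil)))) .nil))) (.nd (nat_lit 5) 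
(.lf (nat_lit 268241) (.g (nat_lit 1124) (.e (nat_lit 188160) (nat_lit 32) (.e (nat_lit 1232) (nat_lit 91) (.e (nat_lit 90172) (nat_lit 14) (.e (nat_lit 180285) (nat_lit 45) .nil)))) .nil)) 
(.lf (nat_lit 268273) (.g (nat_lit 557) (.e (nat_lit 188160) (nat_lit 32) (.e (nat_lit 1239) (nat_lit 91) (.e (nat_lit 90172) (nat_lit 14) .nil))) .nil)))) (.nd (nat_lit 4) (.nd (nat_lit 5) 
(.lf (nat_lit 268233) (.g (nat_lit 2361) (.e (nat_lit 180278) (nat_lit 32) (.e (nat_lit 1661) (nat_lit 115) (.e (nat_lit 393291) (nat_lit 26) (.e (nat_lit 475201) (nat_lit 40) (.e (nat_lit 712448) (nat_lit 5) .nil))))) (.g (nat_lit 4) .nil .nil))) 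
(.lf (nat_lit 268265) (.g (nat_lit 1356) (.e (nat_lit 188160) (nat_lit 32) (.e (nat_lit 1239) (nat_lit 91) (.e (nat_lit 90170) (nat_lit 13) (.e (nat_lit 172106) (nat_lit 10) .nil)))) .nil))) (.nd (nat_lit 5) 
(.lf (nat_lit 268249) (.g (nat_lit 902) (.e (nat_lit 188160) (nat_lit 32) (.e (nat_lit 1234) (nat_lit 91) (.e (nat_lit 90176) (nat_lit 15) (.e (nat_lit 188439) (nat_lit 20) .nil)))) .nil)) 
(.lf (nat_lit 268281) (.g (nat_lit 485) (.e (nat_lit 188160) (nat_lit 32) (.e (nat_lit 1243) (nat_lit 92) (.e (nat_lit 98360) (nat_lit 26) (.e (nat_lit 426317) (nat_lit 12) (.e (nat_lit 475185) (nat_lit 29) .nil))))) .nil))))) (.nd (nat_lit 3) (.nd (nat_lit 4) (.nd (nat_lit 5) 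
(.lf (nat_lit 268229) (.g (nat_lit 1221) (.e (nat_lit 180278) (nat_lit 32) (.e (nat_lit 1661) (nat_lit 115) (.e (nat_lit 393281) (nat_lit 23) (.e (nat_lit 426410) (nat_lit 15) .nil)))) .nil)) 
(.lf (nat_lit 268261) (.g (nat_lit 1727) (.e (nat_lit 188160) (nat_lit 32) (.e (nat_lit 1239) (nat_lit 91) (.e (nat_lit 90170) (nat_lit 13) (.e (nat_lit 172085) (nat_lit 9) .nil)))) .nil))) (.nd (nat_lit 5) 
(.lf (nat_lit 268245) (.g (nat_lit 843) (.e (nat_lit 188160) (nat_lit 32) (.e (nat_lit 1232) (nat_lit 91) (.e (nat_lit 90178) (nat_lit 15) (.e (nat_lit 188441) (nat_lit 20) .nil)))) .nil)) 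
(.lf (nat_lit 268277) (.g (nat_lit 547) (.e (nat_lit 188160) (nat_lit 32) (.e (nat_lit 1239) (nat_lit 91) (.e (nat_lit 90178) (nat_lit 15) .nil))) .nil)))) (.nd (nat_lit 4) (.nd (nat_lit 5) 
(.lf (nat_lit 268237) (.g (nat_lit 672) (.e (nat_lit 188160) (nat_lit 32) (.e (nat_lit 1228) (nat_lit 91) (.e (nat_lit 90172) (nat_lit 14) (.e (nat_lit 188160) (nat_lit 32) .nil)))) .nil)) 
(.lf (nat_lit 268269) (.g (nat_lit 2423) (.e (nat_lit 188160) (nat_lit 32) (.e (nat_lit 1239) (nat_lit 91) (.e (nat_lit 90170) (nat_lit 13) (.e (nat_lit 172125) (nat_lit 14) .nil)))) .nil))) (.nd (nat_lit 5) 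
(.lf (nat_lit 268253) (.g (nat_lit 1926) (.e (nat_lit 188160) (nat_lit 32) (.e (nat_lit 1234) (nat_lit 91) (.e (nat_lit 90185) (nat_lit 17) (.e (nat_lit 237618) (nat_lit 12) .nil)))) .nil)) 
(.lf (nat_lit 268285) (.g (nat_lit 986) (.e (nat_lit 188160) (nat_lit 32) (.e (nat_lit 1256) (nat_lit 92) (.e (nat_lit 98359) (nat_lit 26) (.e (nat_lit 426219) (nat_lit 9) .nil)))) .nil)))))) (.nd (nat_lit 2) (.nd (nat_lit 3) (.nd (nat_lit 4) (.nd (nat_lit 5) 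
(.lf (nat_lit 268227) (.g (nat_lit 3565) (.e (nat_lit 180278) (nat_lit 32) (.e (nat_lit 1661) (nat_lit 115) (.e (nat_lit 393275) (nat_lit 23) (.e (nat_lit 426396) (nat_lit 15) (.e (nat_lit 2059) (nat_lit 142) (.e (nat_lit 704595) (nat_lit 5) .nil)))))) (.g (nat_lit 6) .nil .nil))) 
(.lf (nat_lit 268259) (.g (nat_lit 236) (.e (nat_lit 188160) (nat_lit 32) (.e (nat_lit 1239) (nat_lit 91) (.e (nat_lit 90170) (nat_lit 13) .nil))) .nil))) (.nd (nat_lit 5) 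
(.lf (nat_lit 268243) (.g (nat_lit 1998) (.e (nat_lit 188160) (nat_lit 32) (.e (nat_lit 1232) (nat_lit 91) (.e (nat_lit 90174) (nat_lit 14) (.e (nat_lit 180288) (nat_lit 45) (.e (nat_lit 2570) (nat_lit 160) .nil))))) .nil)) 
(.lf (nat_lit 268275) (.g (nat_lit 1783) (.e (nat_lit 188160) (nat_lit 32) (.e (nat_lit 1239) (nat_lit 91) (.e (nat_lit 90174) (nat_lit 14) (.e (nat_lit 188160) (nat_lit 32) .nil)))) .nil)))) (.nd (nat_lit 4) (.nd (nat_lit 5) 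
(.lf (nat_lit 268235) (.g (nat_lit 2002) (.e (nat_lit 188160) (nat_lit 32) (.e (nat_lit 492) (nat_lit 39) (.e (nat_lit 483372) (nat_lit 21) (.e (nat_lit 319505) (nat_lit 10) (.e (nat_lit 618) (nat_lit 48) .nil))))) .nil)) 
(.lf (nat_lit 268267) (.g (nat_lit 3179) (.e (nat_lit 188160) (nat_lit 32) (.e (nat_lit 1239) (nat_lit 91) (.e (nat_lit 90170) (nat_lit 13) (.e (nat_lit 172120) (nat_lit 12) (.e (nat_lit 475183) (nat_lit 29) .nil))))) .nil))) (.nd (nat_lit 5) 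
(.lf (nat_lit 268251) (.g (nat_lit 1605) (.e (nat_lit 188160) (nat_lit 32) (.e (nat_lit 1234) (nat_lit 91) (.e (nat_lit 90178) (nat_lit 15) (.e (nat_lit 188441) (nat_lit 20) (.e (nat_lit 3272) (nat_lit 199) .nil))))) .nil)) 
(.lf (nat_lit 268283) (.g (nat_lit 1408) (.e (nat_lit 188160) (nat_lit 32) (.e (nat_lit 1256) (nat_lit 92) (.e (nat_lit 98350) (nat_lit 24) (.e (nat_lit 409603) (nat_lit 0) .nil)))) .nil))))) (.nd (nat_lit 3) (.nd (nat_lit 4) (.nd (nat_lit 5) 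
(.lf (nat_lit 268231) (.g (nat_lit 2504) (.e (nat_lit 180278) (nat_lit 32) (.e (nat_lit 1661) (nat_lit 115) (.e (nat_lit 393290) (nat_lit 26) (.e (nat_lit 475199) (nat_lit 40) (.e (nat_lit 704595) (nat_lit 5) .nil))))) (.g (nat_lit 0) .nil .nil))) 
(.lf (nat_lit 268263) (.g (nat_lit 1923) (.e (nat_lit 188160) (nat_lit 32) (.e (nat_lit 1239) (nat_lit 91) (.e (nat_lit 90170) (nat_lit 13) (.e (nat_lit 172095) (nat_lit 9) .nil)))) .nil))) (.nd (nat_lit 5) 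
(.lf (nat_lit 268247) (.g (nat_lit 1291) (.e (nat_lit 188160) (nat_lit 32) (.e (nat_lit 1234) (nat_lit 91) (.e (nat_lit 90176) (nat_lit 15) (.e (nat_lit 188418) (nat_lit 0) .nil)))) .nil)) 
(.lf (nat_lit 268279) (.g (nat_lit 1476) (.e (nat_lit 188160) (nat_lit 32) (.e (nat_lit 1239) (nat_lit 91) (.e (nat_lit 90185) (nat_lit 17) (.e (nat_lit 237605) (nat_lit 9) .nil)))) .nil)))) (.nd (nat_lit 4) (.nd (nat_lit 5) 
(.lf (nat_lit 268239) (.g (nat_lit 975) (.e (nat_lit 188160) (nat_lit 32) (.e (nat_lit 1228) (nat_lit 91) (.e (nat_lit 90185) (nat_lit 17) (.e (nat_lit 237605) (nat_lit 9) .nil)))) .nil)) 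
(.lf (nat_lit 268271) (.g (nat_lit 728) (.e (nat_lit 188160) (nat_lit 32) (.e (nat_lit 1239) (nat_lit 91) (.e (nat_lit 90171) (nat_lit 14) .nil))) .nil))) (.nd (nat_lit 5) 
(.lf (nat_lit 268255) (.g (nat_lit 835) (.e (nat_lit 188160) (nat_lit 32) (.e (nat_lit 1238) (nat_lit 91) (.e (nat_lit 90172) (nat_lit 14) (.e (nat_lit 188160) (nat_lit 32) .nil)))) .nil)) 
(.lf (nat_lit 268287) (.g (nat_lit 579) (.e (nat_lit 188160) (nat_lit 32) (.e (nat_lit 1256) (nat_lit 92) (.e (nat_lit 98359) (nat_lit 26) (.e (nat_lit 426305) (nat_lit 12) .nil)))) .nil))))))))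

noncomputable def tv3445 : DT := (.nd (nat_lit 0) (.nd (nat_lit 1) (.nd (nat_lit 2) (.nd (nat_lit 3) (.nd (nat_lit 4) (.nd (nat_lit 5) (.nd (nat_lit 6) 
(.lf (nat_lit 268288) (.g (nat_lit 179) (.e (nat_lit 188160) (nat_lit 32) (.e (nat_lit 1256) (nat_lit 92) (.e (nat_lit 98370) (nat_lit 28) .nil))) .nil)) 
(.lf (nat_lit 268352) (.g (nat_lit 2080) (.e (nat_lit 188160) (nat_lit 35) (.e (nat_lit 57464) (nat_lit 23) (.e (nat_lit 516151) (nat_lit 9) (.e (nat_lit 426212) (nat_lit 9) .nil)))) .nil))) (.nd (nat_lit 6) 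
(.lf (nat_lit 268320) (.g (nat_lit 998) (.e (nat_lit 188160) (nat_lit 33) (.e (nat_lit 8226) (nat_lit 15) (.e (nat_lit 532481) (nat_lit 0) (.e (nat_lit 2031) (nat_lit 140) .nil)))) .nil)) 
(.lf (nat_lit 268384) (.g (nat_lit 1052) (.e (nat_lit 188160) (nat_lit 40) (.e (nat_lit 351) (nat_lit 28) (.e (nat_lit 393252) (nat_lit 18) (.e (nat_lit 164400) (nat_lit 256) .nil)))) .nil)))) (.nd (nat_lit 5) (.nd (nat_lit 6) 
(.lf (nat_lit 268304) (.g (nat_lit 2308) (.e (nat_lit 188160) (nat_lit 32) (.e (nat_lit 1401) (nat_lit 106) (.e (nat_lit 319531) (nat_lit 16) (.e (nat_lit 286759) (nat_lit 12) (.e (nat_lit 385088) (nat_lit 47) .nil))))) .nil)) 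
(.lf (nat_lit 268368) (.g (nat_lit 206) (.e (nat_lit 188160) (nat_lit 38) (.e (nat_lit 122936) (nat_lit 23) (.e (nat_lit 516172) (nat_lit 13) .nil))) .nil))) (.nd (nat_lit 6) 
(.lf (nat_lit 268336) (.g (nat_lit 259) (.e (nat_lit 188160) (nat_lit 35) (.e (nat_lit 57454) (nat_lit 21) (.e (nat_lit 499925) (nat_lit 10) .nil))) .nil)) 
(.lf (nat_lit 268400) (.g (nat_lit 1982) (.e (nat_lit 188160) (nat_lit 42) (.e (nat_lit 24675) (nat_lit 27) (.e (nat_lit 426108) (nat_lit 1) (.e (nat_lit 164403) (nat_lit 256) (.e (nat_lit 57373) (nat_lit 2) .nil))))) .nil))))) (.nd (nat_lit 4) (.nd (nat_lit 5) (.nd (nat_lit 6) 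
(.lf (nat_lit 268296) (.g (nat_lit 1246) (.e (nat_lit 188160) (nat_lit 32) (.e (nat_lit 1400) (nat_lit 106) (.e (nat_lit 319533) (nat_lit 16) (.e (nat_lit 286753) (nat_lit 10) .nil)))) .nil)) 
(.lf (nat_lit 268360) (.g (nat_lit 2982) (.e (nat_lit 188160) (nat_lit 35) (.e (nat_lit 57464) (nat_lit 23) (.e (nat_lit 516185) (nat_lit 16) (.e (nat_lit 491526) (nat_lit 0) (.e (nat_lit 2006) (nat_lit 138) .nil))))) .nil))) (.nd (nat_lit 6) 
(.lf (nat_lit 268328) (.g (nat_lit 478) (.e (nat_lit 188160) (nat_lit 34) (.e (nat_lit 16388) (nat_lit 0) (.e (nat_lit 3496) (nat_lit 218) .nil))) .nil)) 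
(.lf (nat_lit 268392) (.g (nat_lit 1996) (.e (nat_lit 188160) (nat_lit 40) (.e (nat_lit 2679) (nat_lit 168) (.e (nat_lit 204880) (nat_lit 32) (.e (nat_lit 385094) (nat_lit 49) .nil)))) .nil)))) (.nd (nat_lit 5) (.nd (nat_lit 6) 
(.lf (nat_lit 268312) (.g (nat_lit 1457) (.e (nat_lit 188160) (nat_lit 32) (.e (nat_lit 1650) (nat_lit 115) (.e (nat_lit 393296) (nat_lit 26) (.e (nat_lit 475198) (nat_lit 40) (.e (nat_lit 704596) (nat_lit 5) .nil))))) .nil)) 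
(.lf (nat_lit 268376) (.g (nat_lit 2244) (.e (nat_lit 188160) (nat_lit 40) (.e (nat_lit 109) (nat_lit 3) (.e (nat_lit 98342) (nat_lit 20) (.e (nat_lit 221194) (nat_lit 11) (.e (nat_lit 336009) (nat_lit 2) .nil))))) .nil))) (.nd (nat_lit 6) 
(.lf (nat_lit 268344) (.g (nat_lit 2149) (.e (nat_lit 188160) (nat_lit 35) (.e (nat_lit 57464) (nat_lit 23) (.e (nat_lit 516151) (nat_lit 9) (.e (nat_lit 426177) (nat_lit 8) .nil)))) .nil)) 
(.lf (nat_lit 268408) (.g (nat_lit 368) (.e (nat_lit 180284) (nat_lit 45) (.e (nat_lit 2579) (nat_lit 161) (.e (nat_lit 40965) (nat_lit 0) (.e (nat_lit 1558) (nat_lit 110) (.e (nat_lit 360192) (nat_lit 7) .nil))))) .nil)))))) (.nd (nat_lit 3) (.nd (nat_lit 4) (.nd (nat_lit 5) (.nd (nat_lit 6) 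
(.lf (nat_lit 268292) (.g (nat_lit 159) (.e (nat_lit 188160) (nat_lit 32) (.e (nat_lit 1256) (nat_lit 92) (.e (nat_lit 98373) (nat_lit 29) .nil))) .nil)) 
(.lf (nat_lit 268356) (.g (nat_lit 964) (.e (nat_lit 188160) (nat_lit 35) (.e (nat_lit 57464) (nat_lit 23) (.e (nat_lit 516151) (nat_lit 9) (.e (nat_lit 426338) (nat_lit 14) .nil)))) .nil))) (.nd (nat_lit 6) 
(.lf (nat_lit 268324) (.g (nat_lit 1190) (.e (nat_lit 188160) (nat_lit 33) (.e (nat_lit 8228) (nat_lit 15) (.e (nat_lit 532501) (nat_lit 1) (.e (nat_lit 57730) (nat_lit 181) .nil)))) .nil)) 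
(.lf (nat_lit 268388) (.g (nat_lit 3430) (.e (nat_lit 188160) (nat_lit 40) (.e (nat_lit 2666) (nat_lit 167) (.e (nat_lit 196666) (nat_lit 13) (.e (nat_lit 65553) (nat_lit 0) (.e (nat_lit 2004) (nat_lit 138) .nil))))) .nil)))) (.nd (nat_lit 5) (.nd (nat_lit 6) 
(.lf (nat_lit 268308) (.g (nat_lit 1542) (.e (nat_lit 188160) (nat_lit 32) (.e (nat_lit 1424) (nat_lit 108) (.e (nat_lit 336443) (nat_lit 32) (.e (nat_lit 466969) (nat_lit 21) (.e (nat_lit 164348) (nat_lit 240) .nil))))) .nil)) 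
(.lf (nat_lit 268372) (.g (nat_lit 1233) (.e (nat_lit 180280) (nat_lit 40) (.e (nat_lit 2682) (nat_lit 168) (.e (nat_lit 204846) (nat_lit 24) (.e (nat_lit 319528) (nat_lit 16) .nil)))) .nil))) (.nd (nat_lit 6) 
(.lf (nat_lit 268340) (.g (nat_lit 675) (.e (nat_lit 188160) (nat_lit 35) (.e (nat_lit 57464) (nat_lit 23) (.e (nat_lit 516142) (nat_lit 8) (.e (nat_lit 417812) (nat_lit 7) .nil)))) .nil)) 
(.lf (nat_lit 268404) (.g (nat_lit 455) (.e (nat_lit 180284) (nat_lit 45) (.e (nat_lit 2579) (nat_lit 161) (.e (nat_lit 40964) (nat_lit 0) (.e (nat_lit 1555) (nat_lit 110) (.e (nat_lit 360192) (nat_lit 2) (.e (nat_lit 204544) (nat_lit 5) .nil)))))) (.g (nat_lit 4) .nil .nil)))))) (.nd (nat_lit 4) (.nd (nat_lit 5) (.nd (nat_lit 6) 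
(.lf (nat_lit 268300) (.g (nat_lit 1084) (.e (nat_lit 188160) (nat_lit 32) (.e (nat_lit 1400) (nat_lit 106) (.e (nat_lit 319534) (nat_lit 16) (.e (nat_lit 286756) (nat_lit 10) .nil)))) .nil)) 
(.lf (nat_lit 268364) (.g (nat_lit 1761) (.e (nat_lit 188160) (nat_lit 35) (.e (nat_lit 57476) (nat_lit 28) (.e (nat_lit 557087) (nat_lit 11) (.e (nat_lit 24588) (nat_lit 0) .nil)))) .nil))) (.nd (nat_lit 6) 
(.lf (nat_lit 268332) (.g (nat_lit 1890) (.e (nat_lit 188160) (nat_lit 34) (.e (nat_lit 16423) (nat_lit 6) (.e (nat_lit 253992) (nat_lit 11) (.e (nat_lit 16392) (nat_lit 0) (.e (nat_lit 7936) (nat_lit 200) .nil))))) .nil)) 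
(.lf (nat_lit 268396) (.g (nat_lit 835) (.e (nat_lit 188160) (nat_lit 41) (.e (nat_lit 8360) (nat_lit 88) (.e (nat_lit 712750) (nat_lit 29) (.e (nat_lit 442382) (nat_lit 8) (.e (nat_lit 163584) (nat_lit 5) .nil))))) .nil)))) (.nd (nat_lit 5) (.nd (nat_lit 6) 
(.lf (nat_lit 268316) (.g (nat_lit 1446) (.e (nat_lit 188160) (nat_lit 32) (.e (nat_lit 1656) (nat_lit 115) (.e (nat_lit 393289) (nat_lit 25) (.e (nat_lit 458774) (nat_lit 18) (.e (nat_lit 5546) (nat_lit 306) .nil))))) .nil)) 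
(.lf (nat_lit 268380) (.g (nat_lit 2219) (.e (nat_lit 188160) (nat_lit 40) (.e (nat_lit 351) (nat_lit 28) (.e (nat_lit 393251) (nat_lit 18) (.e (nat_lit 164403) (nat_lit 256) (.e (nat_lit 57373) (nat_lit 2) .nil))))) .nil))) (.nd (nat_lit 6) 
(.lf (nat_lit 268348) (.g (nat_lit 2133) (.e (nat_lit 188160) (nat_lit 35) (.e (nat_lit 57464) (nat_lit 23) (.e (nat_lit 516151) (nat_lit 9) (.e (nat_lit 426205) (nat_lit 9) .nil)))) .nil)) 
(.lf (nat_lit 268412) (.g (nat_lit 522) (.e (nat_lit 180284) (nat_lit 45) (.e (nat_lit 2580) (nat_lit 161) (.e (nat_lit 40965) (nat_lit 0) (.e (nat_lit 1555) (nat_lit 110) (.e (nat_lit 360192) (nat_lit 2) (.e (nat_lit 204544) (nat_lit 5) .nil)))))) (.g (nat_lit 4) .nil .nil)))))))) (.nd (nat_lit 2) (.nd (nat_lit 3) (.nd (nat_lit 4) (.nd (nat_lit 5) (.nd (nat_lit 6) 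
(.lf (nat_lit 268290) (.g (nat_lit 1354) (.e (nat_lit 188160) (nat_lit 32) (.e (nat_lit 1256) (nat_lit 92) (.e (nat_lit 98370) (nat_lit 28) (.e (nat_lit 442411) (nat_lit 20) (.e (nat_lit 3272) (nat_lit 199) .nil))))) .nil)) 
(.lf (nat_lit 268354) (.g (nat_lit 2315) (.e (nat_lit 188160) (nat_lit 35) (.e (nat_lit 57464) (nat_lit 23) (.e (nat_lit 516151) (nat_lit 9) (.e (nat_lit 426311) (nat_lit 12) (.e (nat_lit 475185) (nat_lit 29) .nil))))) .nil))) (.nd (nat_lit 6) 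
(.lf (nat_lit 268322) (.g (nat_lit 1201) (.e (nat_lit 188160) (nat_lit 33) (.e (nat_lit 8228) (nat_lit 15) (.e (nat_lit 532499) (nat_lit 1) (.e (nat_lit 57724) (nat_lit 181) .nil)))) .nil)) 
(.lf (nat_lit 268386) (.g (nat_lit 2257) (.e (nat_lit 188160) (nat_lit 40) (.e (nat_lit 351) (nat_lit 28) (.e (nat_lit 393252) (nat_lit 18) (.e (nat_lit 164403) (nat_lit 256) (.e (nat_lit 57371) (nat_lit 2) .nil))))) .nil)))) (.nd (nat_lit 5) (.nd (nat_lit 6) 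
(.lf (nat_lit 268306) (.g (nat_lit 2389) (.e (nat_lit 188160) (nat_lit 32) (.e (nat_lit 1401) (nat_lit 106) (.e (nat_lit 319534) (nat_lit 16) (.e (nat_lit 286756) (nat_lit 10) (.e (nat_lit 344153) (nat_lit 35) .nil))))) .nil)) 
(.lf (nat_lit 268370) (.g (nat_lit 1050) (.e (nat_lit 188160) (nat_lit 38) (.e (nat_lit 122936) (nat_lit 23) (.e (nat_lit 516176) (nat_lit 14) (.e (nat_lit 474880) (nat_lit 0) .nil)))) .nil))) (.nd (nat_lit 6) 
(.lf (nat_lit 268338) (.g (nat_lit 243) (.e (nat_lit 188160) (nat_lit 35) (.e (nat_lit 57454) (nat_lit 21) (.e (nat_lit 507648) (nat_lit 10) .nil))) .nil)) 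
(.lf (nat_lit 268402) (.g (nat_lit 1844) (.e (nat_lit 188160) (nat_lit 43) (.e (nat_lit 163962) (nat_lit 25) (.e (nat_lit 532523) (nat_lit 7) (.e (nat_lit 319532) (nat_lit 16) (.e (nat_lit 286733) (nat_lit 2) .nil))))) .nil))))) (.nd (nat_lit 4) (.nd (nat_lit 5) (.nd (nat_lit 6) 
(.lf (nat_lit 268298) (.g (nat_lit 1720) (.e (nat_lit 188160) (nat_lit 32) (.e (nat_lit 1400) (nat_lit 106) (.e (nat_lit 319533) (nat_lit 16) (.e (nat_lit 286753) (nat_lit 10) (.e (nat_lit 344156) (nat_lit 36) .nil))))) .nil)) 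
(.lf (nat_lit 268362) (.g (nat_lit 2907) (.e (nat_lit 188160) (nat_lit 35) (.e (nat_lit 57476) (nat_lit 28) (.e (nat_lit 557087) (nat_lit 11) (.e (nat_lit 24584) (nat_lit 0) (.e (nat_lit 1994) (nat_lit 137) .nil))))) .nil))) (.nd (nat_lit 6) 
(.lf (nat_lit 268330) (.g (nat_lit 478) (.e (nat_lit 188160) (nat_lit 34) (.e (nat_lit 16388) (nat_lit 0) (.e (nat_lit 3542) (nat_lit 218) .nil))) .nil)) 
(.lf (nat_lit 268394) (.g (nat_lit 834) (.e (nat_lit 188160) (nat_lit 41) (.e (nat_lit 8358) (nat_lit 88) (.e (nat_lit 712750) (nat_lit 29) (.e (nat_lit 442382) (nat_lit 8) (.e (nat_lit 163584) (nat_lit 5) .nil))))) .nil)))) (.nd (nat_lit 5) (.nd (nat_lit 6) 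
(.lf (nat_lit 268314) (.g (nat_lit 1459) (.e (nat_lit 188160) (nat_lit 32) (.e (nat_lit 1652) (nat_lit 115) (.e (nat_lit 393294) (nat_lit 26) (.e (nat_lit 475197) (nat_lit 40) (.e (nat_lit 704595) (nat_lit 5) .nil))))) .nil)) 
(.lf (nat_lit 268378) (.g (nat_lit 2223) (.e (nat_lit 188160) (nat_lit 40) (.e (nat_lit 351) (nat_lit 28) (.e (nat_lit 393251) (nat_lit 18) (.e (nat_lit 164398) (nat_lit 256) (.e (nat_lit 57373) (nat_lit 2) .nil))))) .nil))) (.nd (nat_lit 6) 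
(.lf (nat_lit 268346) (.g (nat_lit 2133) (.e (nat_lit 188160) (nat_lit 35) (.e (nat_lit 57464) (nat_lit 23) (.e (nat_lit 516151) (nat_lit 9) (.e (nat_lit 426191) (nat_lit 9) .nil)))) .nil)) 
(.lf (nat_lit 268410) (.g (nat_lit 897) (.e (nat_lit 180284) (nat_lit 45) (.e (nat_lit 2580) (nat_lit 161) (.e (nat_lit 40964) (nat_lit 0) (.e (nat_lit 1585) (nat_lit 111) (.e (nat_lit 360477) (nat_lit 11) (.e (nat_lit 581652) (nat_lit 5) .nil)))))) (.g (nat_lit 0) .nil .nil))))))) (.nd (nat_lit 3) (.nd (nat_lit 4) (.nd (nat_lit 5) (.nd (nat_lit 6) 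
(.lf (nat_lit 268294) (.g (nat_lit 1042) (.e (nat_lit 188160) (nat_lit 32) (.e (nat_lit 1393) (nat_lit 106) (.e (nat_lit 319531) (nat_lit 16) (.e (nat_lit 286759) (nat_lit 12) .nil)))) .nil)) 
(.lf (nat_lit 268358) (.g (nat_lit 1202) (.e (nat_lit 188160) (nat_lit 35) (.e (nat_lit 57464) (nat_lit 23) (.e (nat_lit 516164) (nat_lit 11) (.e (nat_lit 442379) (nat_lit 0) (.e (nat_lit 1856) (nat_lit 124) .nil))))) .nil))) (.nd (nat_lit 6) 
(.lf (nat_lit 268326) (.g (nat_lit 1772) (.e (nat_lit 188160) (nat_lit 33) (.e (nat_lit 8228) (nat_lit 15) (.e (nat_lit 532504) (nat_lit 1) (.e (nat_lit 57730) (nat_lit 181) (.e (nat_lit 1294) (nat_lit 96) .nil))))) .nil)) 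
(.lf (nat_lit 268390) (.g (nat_lit 557) (.e (nat_lit 188160) (nat_lit 40) (.e (nat_lit 2668) (nat_lit 167) (.e (nat_lit 196661) (nat_lit 12) .nil))) .nil)))) (.nd (nat_lit 5) (.nd (nat_lit 6) 
(.lf (nat_lit 268310) (.g (nat_lit 1225) (.e (nat_lit 188160) (nat_lit 32) (.e (nat_lit 1430) (nat_lit 108) (.e (nat_lit 336430) (nat_lit 29) (.e (nat_lit 442421) (nat_lit 21) (.e (nat_lit 164348) (nat_lit 240) .nil))))) .nil)) 
(.lf (nat_lit 268374) (.g (nat_lit 2063) (.e (nat_lit 180281) (nat_lit 40) (.e (nat_lit 2681) (nat_lit 168) (.e (nat_lit 204845) (nat_lit 24) (.e (nat_lit 319530) (nat_lit 16) (.e (nat_lit 286733) (nat_lit 2) .nil))))) .nil))) (.nd (nat_lit 6) 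
(.lf (nat_lit 268342) (.g (nat_lit 2317) (.e (nat_lit 188160) (nat_lit 35) (.e (nat_lit 57464) (nat_lit 23) (.e (nat_lit 516151) (nat_lit 9) (.e (nat_lit 426003) (nat_lit 0) (.e (nat_lit 7545) (nat_lit 402) .nil))))) .nil)) 
(.lf (nat_lit 268406) (.g (nat_lit 301) (.e (nat_lit 180284) (nat_lit 45) (.e (nat_lit 2579) (nat_lit 161) (.e (nat_lit 40964) (nat_lit 0) (.e (nat_lit 1558) (nat_lit 110) (.e (nat_lit 360192) (nat_lit 7) .nil))))) .nil))))) (.nd (nat_lit 4) (.nd (nat_lit 5) (.nd (nat_lit 6) 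
(.lf (nat_lit 268302) (.g (nat_lit 1949) (.e (nat_lit 188160) (nat_lit 32) (.e (nat_lit 1400) (nat_lit 106) (.e (nat_lit 319534) (nat_lit 16) (.e (nat_lit 286756) (nat_lit 10) (.e (nat_lit 344153) (nat_lit 35) .nil))))) .nil)) 
(.lf (nat_lit 268366) (.g (nat_lit 2132) (.e (nat_lit 188160) (nat_lit 38) (.e (nat_lit 122936) (nat_lit 23) (.e (nat_lit 516146) (nat_lit 9) (.e (nat_lit 426320) (nat_lit 12) (.e (nat_lit 475183) (nat_lit 29) .nil))))) .nil))) (.nd (nat_lit 6) 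
(.lf (nat_lit 268334) (.g (nat_lit 1664) (.e (nat_lit 188160) (nat_lit 34) (.e (nat_lit 16487) (nat_lit 27) (.e (nat_lit 336059) (nat_lit 7) (.e (nat_lit 319505) (nat_lit 10) (.e (nat_lit 618) (nat_lit 48) .nil))))) .nil)) 
(.lf (nat_lit 268398) (.g (nat_lit 220) (.e (nat_lit 188160) (nat_lit 42) (.e (nat_lit 24675) (nat_lit 27) (.e (nat_lit 426100) (nat_lit 1) .nil))) .nil)))) (.nd (nat_lit 5) (.nd (nat_lit 6) 
(.lf (nat_lit 268318) (.g (nat_lit 839) (.e (nat_lit 188160) (nat_lit 32) (.e (nat_lit 1657) (nat_lit 115) (.e (nat_lit 393293) (nat_lit 26) (.e (nat_lit 475196) (nat_lit 40) (.e (nat_lit 704595) (nat_lit 5) .nil))))) .nil)) 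
(.lf (nat_lit 268382) (.g (nat_lit 1049) (.e (nat_lit 188160) (nat_lit 40) (.e (nat_lit 351) (nat_lit 28) (.e (nat_lit 393252) (nat_lit 18) (.e (nat_lit 164396) (nat_lit 256) .nil)))) .nil))) (.nd (nat_lit 6) 
(.lf (nat_lit 268350) (.g (nat_lit 2133) (.e (nat_lit 188160) (nat_lit 35) (.e (nat_lit 57464) (nat_lit 23) (.e (nat_lit 516151) (nat_lit 9) (.e (nat_lit 426208) (nat_lit 9) .nil)))) .nil)) 
(.lf (nat_lit 268414) (.g (nat_lit 416) (.e (nat_lit 180285) (nat_lit 45) (.e (nat_lit 2569) (nat_lit 160) (.e (nat_lit 32807) (nat_lit 18) (.e (nat_lit 172087) (nat_lit 9) .nil)))) .nil)))))))) (.nd (nat_lit 1) (.nd (nat_lit 2) (.nd (nat_lit 3) (.nd (nat_lit 4) (.nd (nat_lit 5) (.nd (nat_lit 6) 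
(.lf (nat_lit 268289) (.g (nat_lit 985) (.e (nat_lit 188160) (nat_lit 32) (.e (nat_lit 1256) (nat_lit 92) (.e (nat_lit 98370) (nat_lit 28) (.e (nat_lit 442372) (nat_lit 0) .nil)))) .nil)) 
(.lf (nat_lit 268353) (.g (nat_lit 2343) (.e (nat_lit 188160) (nat_lit 35) (.e (nat_lit 57464) (nat_lit 23) (.e (nat_lit 516151) (nat_lit 9) (.e (nat_lit 426212) (nat_lit 9) (.e (nat_lit 433920) (nat_lit 15) .nil))))) .nil))) (.nd (nat_lit 6) 
(.lf (nat_lit 268321) (.g (nat_lit 1565) (.e (nat_lit 188160) (nat_lit 33) (.e (nat_lit 8226) (nat_lit 15) (.e (nat_lit 532481) (nat_lit 0) (.e (nat_lit 2031) (nat_lit 140) (.e (nat_lit 688177) (nat_lit 16) .nil))))) .nil)) 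
(.lf (nat_lit 268385) (.g (nat_lit 1091) (.e (nat_lit 188160) (nat_lit 40) (.e (nat_lit 351) (nat_lit 28) (.e (nat_lit 393252) (nat_lit 18) (.e (nat_lit 164401) (nat_lit 256) .nil)))) .nil)))) (.nd (nat_lit 5) (.nd (nat_lit 6) 
(.lf (nat_lit 268305) (.g (nat_lit 1628) (.e (nat_lit 188160) (nat_lit 32) (.e (nat_lit 1401) (nat_lit 106) (.e (nat_lit 319533) (nat_lit 16) (.e (nat_lit 286753) (nat_lit 10) (.e (nat_lit 344156) (nat_lit 36) .nil))))) .nil)) 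
(.lf (nat_lit 268369) (.g (nat_lit 713) (.e (nat_lit 188160) (nat_lit 38) (.e (nat_lit 122936) (nat_lit 23) (.e (nat_lit 516174) (nat_lit 14) (.e (nat_lit 474880) (nat_lit 0) .nil)))) .nil))) (.nd (nat_lit 6) 
(.lf (nat_lit 268337) (.g (nat_lit 264) (.e (nat_lit 188160) (nat_lit 35) (.e (nat_lit 57454) (nat_lit 21) (.e (nat_lit 499926) (nat_lit 10) .nil))) .nil)) 
(.lf (nat_lit 268401) (.g (nat_lit 1865) (.e (nat_lit 188160) (nat_lit 43) (.e (nat_lit 163962) (nat_lit 25) (.e (nat_lit 532522) (nat_lit 7) (.e (nat_lit 319531) (nat_lit 16) (.e (nat_lit 286733) (nat_lit 2) .nil))))) .nil))))) (.nd (nat_lit 4) (.nd (nat_lit 5) (.nd (nat_lit 6) 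
(.lf (nat_lit 268297) (.g (nat_lit 1753) (.e (nat_lit 188160) (nat_lit 32) (.e (nat_lit 1400) (nat_lit 106) (.e (nat_lit 319533) (nat_lit 16) (.e (nat_lit 286753) (nat_lit 10) (.e (nat_lit 344089) (nat_lit 18) .nil))))) .nil)) 
(.lf (nat_lit 268361) (.g (nat_lit 1484) (.e (nat_lit 188160) (nat_lit 35) (.e (nat_lit 57476) (nat_lit 28) (.e (nat_lit 557067) (nat_lit 9) (.e (nat_lit 353) (nat_lit 29) .nil)))) .nil))) (.nd (nat_lit 6) 
(.lf (nat_lit 268329) (.g (nat_lit 1555) (.e (nat_lit 188160) (nat_lit 34) (.e (nat_lit 16388) (nat_lit 0) (.e (nat_lit 3499) (nat_lit 218) (.e (nat_lit 704738) (nat_lit 11) (.e (nat_lit 16392) (nat_lit 0) .nil))))) .nil)) 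
(.lf (nat_lit 268393) (.g (nat_lit 1556) (.e (nat_lit 188160) (nat_lit 41) (.e (nat_lit 8326) (nat_lit 69) (.e (nat_lit 557100) (nat_lit 13) (.e (nat_lit 172120) (nat_lit 12) (.e (nat_lit 475185) (nat_lit 29) .nil))))) .nil)))) (.nd (nat_lit 5) (.nd (nat_lit 6) 
(.lf (nat_lit 268313) (.g (nat_lit 642) (.e (nat_lit 188160) (nat_lit 32) (.e (nat_lit 1652) (nat_lit 115) (.e (nat_lit 393271) (nat_lit 23) (.e (nat_lit 426444) (nat_lit 19) .nil)))) .nil)) 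
(.lf (nat_lit 268377) (.g (nat_lit 1850) (.e (nat_lit 188160) (nat_lit 40) (.e (nat_lit 346) (nat_lit 28) (.e (nat_lit 393253) (nat_lit 18) (.e (nat_lit 164403) (nat_lit 256) (.e (nat_lit 57373) (nat_lit 2) .nil))))) .nil))) (.nd (nat_lit 6) 
(.lf (nat_lit 268345) (.g (nat_lit 1754) (.e (nat_lit 188160) (nat_lit 35) (.e (nat_lit 57464) (nat_lit 23) (.e (nat_lit 516151) (nat_lit 9) (.e (nat_lit 426185) (nat_lit 9) .nil)))) .nil)) 
(.lf (nat_lit 268409) (.g (nat_lit 380) (.e (nat_lit 180284) (nat_lit 45) (.e (nat_lit 2580) (nat_lit 161) (.e (nat_lit 40964) (nat_lit 0) (.e (nat_lit 1555) (nat_lit 110) (.e (nat_lit 360192) (nat_lit 2) (.e (nat_lit 204544) (nat_lit 5) .nil)))))) (.g (nat_lit 4) .nil .nil))))))) (.nd (nat_lit 3) (.nd (nat_lit 4) (.nd (nat_lit 5) (.nd (nat_lit 6) 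
(.lf (nat_lit 268293) (.g (nat_lit 1775) (.e (nat_lit 188160) (nat_lit 32) (.e (nat_lit 1256) (nat_lit 92) (.e (nat_lit 98373) (nat_lit 29) (.e (nat_lit 450560) (nat_lit 0) .nil)))) .nil)) 
(.lf (nat_lit 268357) (.g (nat_lit 1705) (.e (nat_lit 188160) (nat_lit 35) (.e (nat_lit 57464) (nat_lit 23) (.e (nat_lit 516151) (nat_lit 9) (.e (nat_lit 426346) (nat_lit 14) (.e (nat_lit 491535) (nat_lit 2) .nil))))) .nil))) (.nd (nat_lit 6) 
(.lf (nat_lit 268325) (.g (nat_lit 1357) (.e (nat_lit 188160) (nat_lit 33) (.e (nat_lit 8228) (nat_lit 15) (.e (nat_lit 532504) (nat_lit 1) (.e (nat_lit 57730) (nat_lit 181) .nil)))) .nil)) 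
(.lf (nat_lit 268389) (.g (nat_lit 3434) (.e (nat_lit 188160) (nat_lit 40) (.e (nat_lit 2666) (nat_lit 167) (.e (nat_lit 196666) (nat_lit 13) (.e (nat_lit 65553) (nat_lit 0) (.e (nat_lit 2005) (nat_lit 138) .nil))))) .nil)))) (.nd (nat_lit 5) (.nd (nat_lit 6) 
(.lf (nat_lit 268309) (.g (nat_lit 1424) (.e (nat_lit 188160) (nat_lit 32) (.e (nat_lit 1429) (nat_lit 108) (.e (nat_lit 336443) (nat_lit 32) (.e (nat_lit 466971) (nat_lit 21) (.e (nat_lit 164348) (nat_lit 240) .nil))))) .nil)) 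
(.lf (nat_lit 268373) (.g (nat_lit 2785) (.e (nat_lit 180280) (nat_lit 40) (.e (nat_lit 2682) (nat_lit 168) (.e (nat_lit 204846) (nat_lit 24) (.e (nat_lit 319530) (nat_lit 16) (.e (nat_lit 286733) (nat_lit 2) .nil))))) .nil))) (.nd (nat_lit 6) 
(.lf (nat_lit 268341) (.g (nat_lit 999) (.e (nat_lit 188160) (nat_lit 35) (.e (nat_lit 57464) (nat_lit 23) (.e (nat_lit 516145) (nat_lit 9) (.e (nat_lit 426320) (nat_lit 12) .nil)))) .nil)) 
(.lf (nat_lit 268405) (.g (nat_lit 788) (.e (nat_lit 180284) (nat_lit 45) (.e (nat_lit 2579) (nat_lit 161) (.e (nat_lit 40964) (nat_lit 0) (.e (nat_lit 1555) (nat_lit 110) (.e (nat_lit 352269) (nat_lit 7) (.e (nat_lit 245777) (nat_lit 5) .nil)))))) (.g (nat_lit 6) .nil .nil)))))) (.nd (nat_lit 4) (.nd (nat_lit 5) (.nd (nat_lit 6) 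
(.lf (nat_lit 268301) (.g (nat_lit 1941) (.e (nat_lit 188160) (nat_lit 32) (.e (nat_lit 1400) (nat_lit 106) (.e (nat_lit 319534) (nat_lit 16) (.e (nat_lit 286756) (nat_lit 10) (.e (nat_lit 344093) (nat_lit 18) .nil))))) .nil)) 
(.lf (nat_lit 268365) (.g (nat_lit 1973) (.e (nat_lit 188160) (nat_lit 35) (.e (nat_lit 57476) (nat_lit 28) (.e (nat_lit 557087) (nat_lit 11) (.e (nat_lit 24597) (nat_lit 1) .nil)))) .nil))) (.nd (nat_lit 6) 
(.lf (nat_lit 268333) (.g (nat_lit 641) (.e (nat_lit 188160) (nat_lit 34) (.e (nat_lit 16485) (nat_lit 27) (.e (nat_lit 336235) (nat_lit 14) (.e (nat_lit 409344) (nat_lit 17) .nil)))) .nil)) 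
(.lf (nat_lit 268397) (.g (nat_lit 845) (.e (nat_lit 188160) (nat_lit 41) (.e (nat_lit 8360) (nat_lit 88) (.e (nat_lit 712752) (nat_lit 29) (.e (nat_lit 442382) (nat_lit 8) (.e (nat_lit 163584) (nat_lit 5) .nil))))) .nil)))) (.nd (nat_lit 5) (.nd (nat_lit 6) 
(.lf (nat_lit 268317) (.g (nat_lit 1891) (.e (nat_lit 188160) (nat_lit 32) (.e (nat_lit 1657) (nat_lit 115) (.e (nat_lit 393291) (nat_lit 26) (.e (nat_lit 475199) (nat_lit 40) (.e (nat_lit 704595) (nat_lit 5) .nil))))) .nil)) 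
(.lf (nat_lit 268381) (.g (nat_lit 354) (.e (nat_lit 188160) (nat_lit 40) (.e (nat_lit 351) (nat_lit 28) (.e (nat_lit 393252) (nat_lit 18) .nil))) .nil))) (.nd (nat_lit 6) 
(.lf (nat_lit 268349) (.g (nat_lit 2133) (.e (nat_lit 188160) (nat_lit 35) (.e (nat_lit 57464) (nat_lit 23) (.e (nat_lit 516151) (nat_lit 9) (.e (nat_lit 426207) (nat_lit 9) .nil)))) .nil)) 
(.lf (nat_lit 268413) (.g (nat_lit 2570) (.e (nat_lit 180285) (nat_lit 45) (.e (nat_lit 2545) (nat_lit 158) (.e (nat_lit 8388) (nat_lit 114) (.e (nat_lit 1220) (nat_lit 90) (.e (nat_lit 81938) (nat_lit 20) (.e (nat_lit 2390) (nat_lit 156) (.e (nat_lit 819220) (nat_lit 5) .nil))))))) (.g (nat_lit 6) .nil .nil)))))))) 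
(.nd (nat_lit 2) (.nd (nat_lit 3) (.nd (nat_lit 4) (.nd (nat_lit 5) (.nd (nat_lit 6) 
(.lf (nat_lit 268291) (.g (nat_lit 190) (.e (nat_lit 188160) (nat_lit 32) (.e (nat_lit 1256) (nat_lit 92) (.e (nat_lit 98371) (nat_lit 28) .nil))) .nil)) 
(.lf (nat_lit 268355) (.g (nat_lit 1696) (.e (nat_lit 188160) (nat_lit 35) (.e (nat_lit 57464) (nat_lit 23) (.e (nat_lit 516151) (nat_lit 9) (.e (nat_lit 433920) (nat_lit 12) .nil)))) .nil))) (.nd (nat_lit 6) 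
(.lf (nat_lit 268323) (.g (nat_lit 1191) (.e (nat_lit 188160) (nat_lit 33) (.e (nat_lit 8228) (nat_lit 15) (.e (nat_lit 532501) (nat_lit 1) (.e (nat_lit 57724) (nat_lit 181) .nil)))) .nil)) 
(.lf (nat_lit 268387) (.g (nat_lit 2497) (.e (nat_lit 188160) (nat_lit 40) (.e (nat_lit 2666) (nat_lit 167) (.e (nat_lit 196666) (nat_lit 13) (.e (nat_lit 65546) (nat_lit 0) (.e (nat_lit 2005) (nat_lit 138) .nil))))) .nil)))) (.nd (nat_lit 5) (.nd (nat_lit 6) 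
(.lf (nat_lit 268307) (.g (nat_lit 2383) (.e (nat_lit 188160) (nat_lit 32) (.e (nat_lit 1401) (nat_lit 106) (.e (nat_lit 319534) (nat_lit 16) (.e (nat_lit 286756) (nat_lit 10) (.e (nat_lit 344156) (nat_lit 36) .nil))))) .nil)) 
(.lf (nat_lit 268371) (.g (nat_lit 350) (.e (nat_lit 180280) (nat_lit 40) (.e (nat_lit 2664) (nat_lit 167) (.e (nat_lit 196661) (nat_lit 12) .nil))) .nil))) (.nd (nat_lit 6) 
(.lf (nat_lit 268339) (.g (nat_lit 243) (.e (nat_lit 188160) (nat_lit 35) (.e (nat_lit 57454) (nat_lit 21) (.e (nat_lit 507648) (nat_lit 11) .nil))) .nil)) 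
(.lf (nat_lit 268403) (.g (nat_lit 967) (.e (nat_lit 188160) (nat_lit 43) (.e (nat_lit 163962) (nat_lit 25) (.e (nat_lit 532544) (nat_lit 10) (.e (nat_lit 344169) (nat_lit 40) .nil)))) .nil))))) (.nd (nat_lit 4) (.nd (nat_lit 5) (.nd (nat_lit 6) 
(.lf (nat_lit 268299) (.g (nat_lit 1521) (.e (nat_lit 188160) (nat_lit 32) (.e (nat_lit 1400) (nat_lit 106) (.e (nat_lit 319534) (nat_lit 16) (.e (nat_lit 286749) (nat_lit 9) (.e (nat_lit 335997) (nat_lit 1) .nil))))) .nil)) 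
(.lf (nat_lit 268363) (.g (nat_lit 2613) (.e (nat_lit 188160) (nat_lit 35) (.e (nat_lit 57476) (nat_lit 28) (.e (nat_lit 557087) (nat_lit 11) (.e (nat_lit 24584) (nat_lit 0) (.e (nat_lit 1996) (nat_lit 137) .nil))))) .nil))) (.nd (nat_lit 6) 
(.lf (nat_lit 268331) (.g (nat_lit 2317) (.e (nat_lit 188160) (nat_lit 34) (.e (nat_lit 16423) (nat_lit 6) (.e (nat_lit 253992) (nat_lit 11) (.e (nat_lit 16392) (nat_lit 0) (.e (nat_lit 3279) (nat_lit 200) .nil))))) .nil)) 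
(.lf (nat_lit 268395) (.g (nat_lit 658) (.e (nat_lit 188160) (nat_lit 41) (.e (nat_lit 8359) (nat_lit 88) (.e (nat_lit 712750) (nat_lit 29) (.e (nat_lit 442382) (nat_lit 8) .nil)))) .nil)))) (.nd (nat_lit 5) (.nd (nat_lit 6) 
(.lf (nat_lit 268315) (.g (nat_lit 1717) (.e (nat_lit 188160) (nat_lit 32) (.e (nat_lit 1655) (nat_lit 115) (.e (nat_lit 393294) (nat_lit 26) (.e (nat_lit 475199) (nat_lit 40) (.e (nat_lit 704595) (nat_lit 5) .nil))))) .nil)) 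
(.lf (nat_lit 268379) (.g (nat_lit 2154) (.e (nat_lit 188160) (nat_lit 40) (.e (nat_lit 351) (nat_lit 28) (.e (nat_lit 393251) (nat_lit 18) (.e (nat_lit 164398) (nat_lit 256) (.e (nat_lit 57375) (nat_lit 2) .nil))))) .nil))) (.nd (nat_lit 6) 
(.lf (nat_lit 268347) (.g (nat_lit 2154) (.e (nat_lit 188160) (nat_lit 35) (.e (nat_lit 57464) (nat_lit 23) (.e (nat_lit 516151) (nat_lit 9) (.e (nat_lit 426195) (nat_lit 9) .nil)))) .nil)) 
(.lf (nat_lit 268411) (.g (nat_lit 1483) (.e (nat_lit 180284) (nat_lit 45) (.e (nat_lit 2580) (nat_lit 161) (.e (nat_lit 40964) (nat_lit 0) (.e (nat_lit 1597) (nat_lit 111) (.e (nat_lit 360477) (nat_lit 11) (.e (nat_lit 581652) (nat_lit 5) .nil)))))) (.g (nat_lit 0) .nil .nil))))))) (.nd (nat_lit 3) (.nd (nat_lit 4) (.nd (nat_lit 5) (.nd (nat_lit 6) 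
(.lf (nat_lit 268295) (.g (nat_lit 2123) (.e (nat_lit 188160) (nat_lit 32) (.e (nat_lit 1398) (nat_lit 106) (.e (nat_lit 319534) (nat_lit 16) (.e (nat_lit 286756) (nat_lit 10) (.e (nat_lit 344154) (nat_lit 35) .nil))))) .nil)) 
(.lf (nat_lit 268359) (.g (nat_lit 211) (.e (nat_lit 188160) (nat_lit 35) (.e (nat_lit 57464) (nat_lit 23) (.e (nat_lit 516177) (nat_lit 14) .nil))) .nil))) (.nd (nat_lit 6) 
(.lf (nat_lit 268327) (.g (nat_lit 1792) (.e (nat_lit 188160) (nat_lit 33) (.e (nat_lit 8228) (nat_lit 15) (.e (nat_lit 532504) (nat_lit 1) (.e (nat_lit 57730) (nat_lit 181) (.e (nat_lit 1297) (nat_lit 96) .nil))))) .nil)) 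
(.lf (nat_lit 268391) (.g (nat_lit 2567) (.e (nat_lit 188160) (nat_lit 40) (.e (nat_lit 2679) (nat_lit 168) (.e (nat_lit 204846) (nat_lit 24) (.e (nat_lit 319504) (nat_lit 10) (.e (nat_lit 7936) (nat_lit 313) .nil))))) .nil)))) (.nd (nat_lit 5) (.nd (nat_lit 6) 
(.lf (nat_lit 268311) (.g (nat_lit 1176) (.e (nat_lit 188160) (nat_lit 32) (.e (nat_lit 1650) (nat_lit 115) (.e (nat_lit 393291) (nat_lit 26) (.e (nat_lit 475199) (nat_lit 40) .nil)))) .nil)) 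
(.lf (nat_lit 268375) (.g (nat_lit 2233) (.e (nat_lit 180281) (nat_lit 40) (.e (nat_lit 2681) (nat_lit 168) (.e (nat_lit 204846) (nat_lit 24) (.e (nat_lit 319531) (nat_lit 16) (.e (nat_lit 286733) (nat_lit 2) .nil))))) .nil))) (.nd (nat_lit 6) 
(.lf (nat_lit 268343) (.g (nat_lit 2341) (.e (nat_lit 188160) (nat_lit 35) (.e (nat_lit 57464) (nat_lit 23) (.e (nat_lit 516151) (nat_lit 9) (.e (nat_lit 426018) (nat_lit 0) (.e (nat_lit 7545) (nat_lit 402) .nil))))) .nil)) 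
(.lf (nat_lit 268407) (.g (nat_lit 572) (.e (nat_lit 180284) (nat_lit 45) (.e (nat_lit 2579) (nat_lit 161) (.e (nat_lit 40965) (nat_lit 0) (.e (nat_lit 1555) (nat_lit 110) (.e (nat_lit 360192) (nat_lit 2) (.e (nat_lit 204544) (nat_lit 5) .nil)))))) (.g (nat_lit 4) .nil .nil)))))) (.nd (nat_lit 4) (.nd (nat_lit 5) (.nd (nat_lit 6) 
(.lf (nat_lit 268303) (.g (nat_lit 1627) (.e (nat_lit 188160) (nat_lit 32) (.e (nat_lit 1401) (nat_lit 106) (.e (nat_lit 319531) (nat_lit 16) (.e (nat_lit 286748) (nat_lit 9) (.e (nat_lit 336295) (nat_lit 15) .nil))))) .nil)) 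
(.lf (nat_lit 268367) (.g (nat_lit 1145) (.e (nat_lit 188160) (nat_lit 38) (.e (nat_lit 122936) (nat_lit 23) (.e (nat_lit 516150) (nat_lit 9) (.e (nat_lit 426319) (nat_lit 12) .nil)))) .nil))) (.nd (nat_lit 6) 
(.lf (nat_lit 268335) (.g (nat_lit 540) (.e (nat_lit 188160) (nat_lit 34) (.e (nat_lit 16487) (nat_lit 27) (.e (nat_lit 336069) (nat_lit 8) .nil))) .nil)) 
(.lf (nat_lit 268399) (.g (nat_lit 1963) (.e (nat_lit 188160) (nat_lit 42) (.e (nat_lit 24675) (nat_lit 27) (.e (nat_lit 426100) (nat_lit 1) (.e (nat_lit 164399) (nat_lit 256) (.e (nat_lit 57373) (nat_lit 2) .nil))))) .nil)))) (.nd (nat_lit 5) (.nd (nat_lit 6) 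
(.lf (nat_lit 268319) (.g (nat_lit 1384) (.e (nat_lit 188160) (nat_lit 32) (.e (nat_lit 1664) (nat_lit 115) (.e (nat_lit 393293) (nat_lit 26) (.e (nat_lit 475198) (nat_lit 40) (.e (nat_lit 704595) (nat_lit 5) .nil))))) .nil)) 
(.lf (nat_lit 268383) (.g (nat_lit 1042) (.e (nat_lit 188160) (nat_lit 40) (.e (nat_lit 351) (nat_lit 28) (.e (nat_lit 393252) (nat_lit 18) (.e (nat_lit 164399) (nat_lit 256) .nil)))) .nil))) (.nd (nat_lit 6) 
(.lf (nat_lit 268351) (.g (nat_lit 1948) (.e (nat_lit 188160) (nat_lit 35) (.e (nat_lit 57464) (nat_lit 23) (.e (nat_lit 516151) (nat_lit 9) (.e (nat_lit 426211) (nat_lit 9) .nil)))) .nil)) 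
(.lf (nat_lit 268415) (.g (nat_lit 414) (.e (nat_lit 180285) (nat_lit 45) (.e (nat_lit 2570) (nat_lit 160) (.e (nat_lit 32807) (nat_lit 18) (.e (nat_lit 172089) (nat_lit 9) .nil)))) .nil)))))))))

noncomputable def tv3446 : DT := (.nd (nat_lit 0) (.nd (nat_lit 1) (.nd (nat_lit 2) (.nd (nat_lit 3) (.nd (nat_lit 4) (.nd (nat_lit 5) 
(.lf (nat_lit 268416) (.g (nat_lit 538) (.e (nat_lit 180285) (nat_lit 45) (.e (nat_lit 2570) (nat_lit 160) (.e (nat_lit 32807) (nat_lit 18) (.e (nat_lit 172092) (nat_lit 9) (.e (nat_lit 433920) (nat_lit 15) .nil))))) .nil)) 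
(.lf (nat_lit 268448) (.g (nat_lit 1378) (.e (nat_lit 188417) (nat_lit 0) (.e (nat_lit 2143) (nat_lit 142) (.e (nat_lit 704597) (nat_lit 6) (.e (nat_lit 188418) (nat_lit 0) (.e (nat_lit 2059) (nat_lit 142) (.e (nat_lit 704598) (nat_lit 6) .nil)))))) (.g (nat_lit 6) .nil .nil)))) (.nd (nat_lit 5) 
(.lf (nat_lit 268432) (.g (nat_lit 613) (.e (nat_lit 180287) (nat_lit 45) (.e (nat_lit 2579) (nat_lit 161) (.e (nat_lit 40965) (nat_lit 0) (.e (nat_lit 1555) (nat_lit 110) (.e (nat_lit 360192) (nat_lit 2) (.e (nat_lit 204544) (nat_lit 5) .nil)))))) (.g (nat_lit 4) .nil .nil))) 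
(.lf (nat_lit 268464) (.g (nat_lit 1674) (.e (nat_lit 188418) (nat_lit 0) (.e (nat_lit 1855) (nat_lit 124) (.e (nat_lit 557098) (nat_lit 13) (.e (nat_lit 172119) (nat_lit 12) .nil)))) .nil)))) (.nd (nat_lit 4) (.nd (nat_lit 5) 
(.lf (nat_lit 268424) (.g (nat_lit 580) (.e (nat_lit 180285) (nat_lit 45) (.e (nat_lit 2580) (nat_lit 161) (.e (nat_lit 40964) (nat_lit 0) (.e (nat_lit 1555) (nat_lit 110) (.e (nat_lit 360192) (nat_lit 2) (.e (nat_lit 204544) (nat_lit 5) .nil)))))) (.g (nat_lit 4) .nil .nil))) 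
(.lf (nat_lit 268456) (.g (nat_lit 1182) (.e (nat_lit 188417) (nat_lit 0) (.e (nat_lit 6216) (nat_lit 333) (.e (nat_lit 57608) (nat_lit 107) (.e (nat_lit 704738) (nat_lit 11) (.e (nat_lit 24320) (nat_lit 17) .nil))))) .nil))) (.nd (nat_lit 5) 
(.lf (nat_lit 268440) (.g (nat_lit 943) (.e (nat_lit 180288) (nat_lit 45) (.e (nat_lit 2579) (nat_lit 161) (.e (nat_lit 40964) (nat_lit 0) (.e (nat_lit 1555) (nat_lit 110) (.e (nat_lit 352269) (nat_lit 7) (.e (nat_lit 245777) (nat_lit 5) .nil)))))) (.g (nat_lit 6) .nil .nil))) 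
(.lf (nat_lit 268472) (.g (nat_lit 1583) (.e (nat_lit 188418) (nat_lit 0) (.e (nat_lit 1855) (nat_lit 124) (.e (nat_lit 557105) (nat_lit 14) (.e (nat_lit 180277) (nat_lit 32) (.e (nat_lit 1235) (nat_lit 91) .nil))))) .nil))))) (.nd (nat_lit 3) (.nd (nat_lit 4) (.nd (nat_lit 5) 
(.lf (nat_lit 268420) (.g (nat_lit 983) (.e (nat_lit 180285) (nat_lit 45) (.e (nat_lit 2579) (nat_lit 161) (.e (nat_lit 40964) (nat_lit 0) (.e (nat_lit 1555) (nat_lit 110) (.e (nat_lit 352269) (nat_lit 7) (.e (nat_lit 245777) (nat_lit 5) .nil)))))) (.g (nat_lit 6) .nil .nil))) 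
(.lf (nat_lit 268452) (.g (nat_lit 653) (.e (nat_lit 188417) (nat_lit 0) (.e (nat_lit 2147) (nat_lit 142) (.e (nat_lit 704597) (nat_lit 6) (.e (nat_lit 188417) (nat_lit 0) (.e (nat_lit 2148) (nat_lit 142) (.e (nat_lit 704597) (nat_lit 6) .nil)))))) (.g (nat_lit 0) .nil .nil)))) (.nd (nat_lit 5) 
(.lf (nat_lit 268436) (.g (nat_lit 553) (.e (nat_lit 180287) (nat_lit 45) (.e (nat_lit 2580) (nat_lit 161) (.e (nat_lit 40965) (nat_lit 0) (.e (nat_lit 1555) (nat_lit 110) (.e (nat_lit 360192) (nat_lit 2) (.e (nat_lit 204544) (nat_lit 5) .nil)))))) (.g (nat_lit 4) .nil .nil))) 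
(.lf (nat_lit 268468) (.g (nat_lit 2333) (.e (nat_lit 188418) (nat_lit 0) (.e (nat_lit 1855) (nat_lit 124) (.e (nat_lit 557103) (nat_lit 14) (.e (nat_lit 180288) (nat_lit 45) (.e (nat_lit 2570) (nat_lit 160) (.e (nat_lit 32809) (nat_lit 20) .nil)))))) (.g (nat_lit 4) .nil .nil))))) (.nd (nat_lit 4) (.nd (nat_lit 5) 
(.lf (nat_lit 268428) (.g (nat_lit 957) (.e (nat_lit 180287) (nat_lit 45) (.e (nat_lit 2577) (nat_lit 161) (.e (nat_lit 40965) (nat_lit 0) (.e (nat_lit 1597) (nat_lit 111) (.e (nat_lit 368384) (nat_lit 11) (.e (nat_lit 581652) (nat_lit 5) .nil)))))) (.g (nat_lit 4) .nil .nil))) 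
(.lf (nat_lit 268460) (.g (nat_lit 1273) (.e (nat_lit 188418) (nat_lit 0) (.e (nat_lit 1798) (nat_lit 119) (.e (nat_lit 516131) (nat_lit 3) (.e (nat_lit 221193) (nat_lit 11) (.e (nat_lit 336009) (nat_lit 2) .nil))))) .nil))) (.nd (nat_lit 5) 
(.lf (nat_lit 268444) (.g (nat_lit 639) (.e (nat_lit 180288) (nat_lit 45) (.e (nat_lit 2580) (nat_lit 161) (.e (nat_lit 40965) (nat_lit 0) (.e (nat_lit 1555) (nat_lit 110) (.e (nat_lit 360192) (nat_lit 2) (.e (nat_lit 204544) (nat_lit 5) .nil)))))) (.g (nat_lit 4) .nil .nil))) 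
(.lf (nat_lit 268476) (.g (nat_lit 1776) (.e (nat_lit 188418) (nat_lit 0) (.e (nat_lit 1855) (nat_lit 124) (.e (nat_lit 557109) (nat_lit 15) (.e (nat_lit 188441) (nat_lit 20) .nil)))) .nil)))))) (.nd (nat_lit 2) (.nd (nat_lit 3) (.nd (nat_lit 4) (.nd (nat_lit 5) 
(.lf (nat_lit 268418) (.g (nat_lit 562) (.e (nat_lit 180285) (nat_lit 45) (.e (nat_lit 2571) (nat_lit 160) (.e (nat_lit 32807) (nat_lit 18) (.e (nat_lit 172092) (nat_lit 9) (.e (nat_lit 433920) (nat_lit 15) .nil))))) .nil)) 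
(.lf (nat_lit 268450) (.g (nat_lit 1274) (.e (nat_lit 188417) (nat_lit 0) (.e (nat_lit 2146) (nat_lit 142) (.e (nat_lit 704597) (nat_lit 6) (.e (nat_lit 188418) (nat_lit 0) (.e (nat_lit 2059) (nat_lit 142) (.e (nat_lit 704598) (nat_lit 6) .nil)))))) (.g (nat_lit 6) .nil .nil)))) (.nd (nat_lit 5) 
(.lf (nat_lit 268434) (.g (nat_lit 259) (.e (nat_lit 180287) (nat_lit 45) (.e (nat_lit 2579) (nat_lit 161) (.e (nat_lit 40965) (nat_lit 0) (.e (nat_lit 1568) (nat_lit 110) .nil)))) .nil)) 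
(.lf (nat_lit 268466) (.g (nat_lit 2313) (.e (nat_lit 188418) (nat_lit 0) (.e (nat_lit 1855) (nat_lit 124) (.e (nat_lit 557103) (nat_lit 14) (.e (nat_lit 180278) (nat_lit 32) (.e (nat_lit 1235) (nat_lit 91) .nil))))) .nil)))) (.nd (nat_lit 4) (.nd (nat_lit 5) 
(.lf (nat_lit 268426) (.g (nat_lit 720) (.e (nat_lit 180285) (nat_lit 45) (.e (nat_lit 2580) (nat_lit 161) (.e (nat_lit 40965) (nat_lit 0) (.e (nat_lit 1555) (nat_lit 110) (.e (nat_lit 360192) (nat_lit 2) (.e (nat_lit 204544) (nat_lit 5) .nil)))))) (.g (nat_lit 4) .nil .nil))) 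
(.lf (nat_lit 268458) (.g (nat_lit 1234) (.e (nat_lit 188418) (nat_lit 0) (.e (nat_lit 1784) (nat_lit 119) (.e (nat_lit 516129) (nat_lit 3) (.e (nat_lit 221193) (nat_lit 11) (.e (nat_lit 336010) (nat_lit 2) .nil))))) .nil))) (.nd (nat_lit 5) 
(.lf (nat_lit 268442) (.g (nat_lit 498) (.e (nat_lit 180288) (nat_lit 45) (.e (nat_lit 2580) (nat_lit 161) (.e (nat_lit 40964) (nat_lit 0) (.e (nat_lit 1555) (nat_lit 110) (.e (nat_lit 360192) (nat_lit 2) (.e (nat_lit 204544) (nat_lit 5) .nil)))))) (.g (nat_lit 4) .nil .nil))) 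
(.lf (nat_lit 268474) (.g (nat_lit 2774) (.e (nat_lit 188418) (nat_lit 0) (.e (nat_lit 1855) (nat_lit 124) (.e (nat_lit 557109) (nat_lit 15) (.e (nat_lit 188434) (nat_lit 20) (.e (nat_lit 3271) (nat_lit 199) .nil))))) .nil))))) (.nd (nat_lit 3) (.nd (nat_lit 4) (.nd (nat_lit 5) 
(.lf (nat_lit 268422) (.g (nat_lit 1119) (.e (nat_lit 180285) (nat_lit 45) (.e (nat_lit 2579) (nat_lit 161) (.e (nat_lit 40964) (nat_lit 0) (.e (nat_lit 1574) (nat_lit 110) (.e (nat_lit 352269) (nat_lit 7) (.e (nat_lit 245777) (nat_lit 5) .nil)))))) (.g (nat_lit 6) .nil .nil))) 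
(.lf (nat_lit 268454) (.g (nat_lit 1384) (.e (nat_lit 188417) (nat_lit 0) (.e (nat_lit 2147) (nat_lit 142) (.e (nat_lit 704597) (nat_lit 6) (.e (nat_lit 188418) (nat_lit 0) (.e (nat_lit 2059) (nat_lit 142) (.e (nat_lit 704598) (nat_lit 6) .nil)))))) (.g (nat_lit 6) .nil .nil)))) (.nd (nat_lit 5) 
(.lf (nat_lit 268438) (.g (nat_lit 224) (.e (nat_lit 180288) (nat_lit 45) (.e (nat_lit 2571) (nat_lit 160) (.e (nat_lit 32811) (nat_lit 22) .nil))) .nil)) 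
(.lf (nat_lit 268470) (.g (nat_lit 1118) (.e (nat_lit 188418) (nat_lit 0) (.e (nat_lit 1855) (nat_lit 124) (.e (nat_lit 557104) (nat_lit 14) (.e (nat_lit 180278) (nat_lit 32) .nil)))) .nil)))) (.nd (nat_lit 4) (.nd (nat_lit 5) 
(.lf (nat_lit 268430) (.g (nat_lit 808) (.e (nat_lit 180287) (nat_lit 45) (.e (nat_lit 2579) (nat_lit 161) (.e (nat_lit 40964) (nat_lit 0) (.e (nat_lit 1555) (nat_lit 110) (.e (nat_lit 352269) (nat_lit 7) (.e (nat_lit 245777) (nat_lit 5) .nil)))))) (.g (nat_lit 6) .nil .nil))) 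
(.lf (nat_lit 268462) (.g (nat_lit 1605) (.e (nat_lit 188418) (nat_lit 0) (.e (nat_lit 1800) (nat_lit 119) (.e (nat_lit 516131) (nat_lit 3) (.e (nat_lit 221194) (nat_lit 11) (.e (nat_lit 336009) (nat_lit 2) .nil))))) .nil))) (.nd (nat_lit 5) 
(.lf (nat_lit 268446) (.g (nat_lit 1457) (.e (nat_lit 188416) (nat_lit 0) (.e (nat_lit 2147) (nat_lit 142) (.e (nat_lit 704597) (nat_lit 6) (.e (nat_lit 188420) (nat_lit 0) (.e (nat_lit 2059) (nat_lit 142) (.e (nat_lit 704599) (nat_lit 6) .nil)))))) (.g (nat_lit 6) .nil .nil))) 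
(.lf (nat_lit 268478) (.g (nat_lit 2534) (.e (nat_lit 188418) (nat_lit 0) (.e (nat_lit 1855) (nat_lit 124) (.e (nat_lit 557109) (nat_lit 15) (.e (nat_lit 188455) (nat_lit 24) (.e (nat_lit 237312) (nat_lit 134) (.e (nat_lit 2646) (nat_lit 166) .nil)))))) (.g (nat_lit 4) .nil .nil)))))))) (.nd (nat_lit 1) (.nd (nat_lit 2) (.nd (nat_lit 3) (.nd (nat_lit 4) (.nd (nat_lit 5) 
(.lf (nat_lit 268417) (.g (nat_lit 431) (.e (nat_lit 180285) (nat_lit 45) (.e (nat_lit 2571) (nat_lit 160) (.e (nat_lit 32807) (nat_lit 18) (.e (nat_lit 172089) (nat_lit 9) .nil)))) .nil)) 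
(.lf (nat_lit 268449) (.g (nat_lit 1343) (.e (nat_lit 188417) (nat_lit 0) (.e (nat_lit 2143) (nat_lit 142) (.e (nat_lit 704597) (nat_lit 6) (.e (nat_lit 188420) (nat_lit 0) (.e (nat_lit 2059) (nat_lit 142) (.e (nat_lit 704598) (nat_lit 6) .nil)))))) (.g (nat_lit 0) .nil .nil)))) (.nd (nat_lit 5) 
(.lf (nat_lit 268433) (.g (nat_lit 367) (.e (nat_lit 180287) (nat_lit 45) (.e (nat_lit 2579) (nat_lit 161) (.e (nat_lit 40965) (nat_lit 0) (.e (nat_lit 1558) (nat_lit 110) (.e (nat_lit 360192) (nat_lit 7) .nil))))) .nil)) 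
(.lf (nat_lit 268465) (.g (nat_lit 2014) (.e (nat_lit 188418) (nat_lit 0) (.e (nat_lit 1855) (nat_lit 124) (.e (nat_lit 557100) (nat_lit 13) (.e (nat_lit 172120) (nat_lit 12) (.e (nat_lit 475185) (nat_lit 29) .nil))))) .nil)))) (.nd (nat_lit 4) (.nd (nat_lit 5) 
(.lf (nat_lit 268425) (.g (nat_lit 908) (.e (nat_lit 180285) (nat_lit 45) (.e (nat_lit 2580) (nat_lit 161) (.e (nat_lit 40964) (nat_lit 0) (.e (nat_lit 1555) (nat_lit 110) (.e (nat_lit 352269) (nat_lit 7) (.e (nat_lit 245777) (nat_lit 5) .nil)))))) (.g (nat_lit 6) .nil .nil))) 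
(.lf (nat_lit 268457) (.g (nat_lit 1485) (.e (nat_lit 188418) (nat_lit 0) (.e (nat_lit 1781) (nat_lit 119) (.e (nat_lit 516130) (nat_lit 3) (.e (nat_lit 221194) (nat_lit 11) (.e (nat_lit 336009) (nat_lit 2) .nil))))) .nil))) (.nd (nat_lit 5) 
(.lf (nat_lit 268441) (.g (nat_lit 698) (.e (nat_lit 180288) (nat_lit 45) (.e (nat_lit 2579) (nat_lit 161) (.e (nat_lit 40965) (nat_lit 0) (.e (nat_lit 1555) (nat_lit 110) (.e (nat_lit 360192) (nat_lit 2) (.e (nat_lit 204544) (nat_lit 5) .nil)))))) (.g (nat_lit 4) .nil .nil))) 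
(.lf (nat_lit 268473) (.g (nat_lit 2413) (.e (nat_lit 188418) (nat_lit 0) (.e (nat_lit 1855) (nat_lit 124) (.e (nat_lit 557109) (nat_lit 15) (.e (nat_lit 188418) (nat_lit 0) (.e (nat_lit 1856) (nat_lit 124) .nil))))) .nil))))) (.nd (nat_lit 3) (.nd (nat_lit 4) (.nd (nat_lit 5) 
(.lf (nat_lit 268421) (.g (nat_lit 809) (.e (nat_lit 180285) (nat_lit 45) (.e (nat_lit 2579) (nat_lit 161) (.e (nat_lit 40964) (nat_lit 0) (.e (nat_lit 1558) (nat_lit 110) (.e (nat_lit 352269) (nat_lit 7) (.e (nat_lit 245777) (nat_lit 5) .nil)))))) (.g (nat_lit 6) .nil .nil))) 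
(.lf (nat_lit 268453) (.g (nat_lit 1330) (.e (nat_lit 188417) (nat_lit 0) (.e (nat_lit 2147) (nat_lit 142) (.e (nat_lit 704597) (nat_lit 6) (.e (nat_lit 188418) (nat_lit 0) (.e (nat_lit 2058) (nat_lit 142) (.e (nat_lit 704598) (nat_lit 6) .nil)))))) (.g (nat_lit 6) .nil .nil)))) (.nd (nat_lit 5) 
(.lf (nat_lit 268437) (.g (nat_lit 312) (.e (nat_lit 180287) (nat_lit 45) (.e (nat_lit 2580) (nat_lit 161) (.e (nat_lit 40965) (nat_lit 0) (.e (nat_lit 1558) (nat_lit 110) (.e (nat_lit 360192) (nat_lit 7) .nil))))) .nil)) 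
(.lf (nat_lit 268469) (.g (nat_lit 2374) (.e (nat_lit 188418) (nat_lit 0) (.e (nat_lit 1855) (nat_lit 124) (.e (nat_lit 557103) (nat_lit 14) (.e (nat_lit 180288) (nat_lit 45) (.e (nat_lit 2571) (nat_lit 160) (.e (nat_lit 32809) (nat_lit 20) .nil)))))) (.g (nat_lit 4) .nil .nil))))) (.nd (nat_lit 4) (.nd (nat_lit 5) 
(.lf (nat_lit 268429) (.g (nat_lit 483) (.e (nat_lit 180287) (nat_lit 45) (.e (nat_lit 2579) (nat_lit 161) (.e (nat_lit 40964) (nat_lit 0) (.e (nat_lit 1555) (nat_lit 110) (.e (nat_lit 360192) (nat_lit 2) (.e (nat_lit 204544) (nat_lit 5) .nil)))))) (.g (nat_lit 4) .nil .nil))) 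
(.lf (nat_lit 268461) (.g (nat_lit 1889) (.e (nat_lit 188418) (nat_lit 0) (.e (nat_lit 1800) (nat_lit 119) (.e (nat_lit 516129) (nat_lit 3) (.e (nat_lit 221194) (nat_lit 11) (.e (nat_lit 336009) (nat_lit 2) .nil))))) .nil))) (.nd (nat_lit 5) 
(.lf (nat_lit 268445) (.g (nat_lit 1503) (.e (nat_lit 188416) (nat_lit 0) (.e (nat_lit 2147) (nat_lit 142) (.e (nat_lit 704597) (nat_lit 6) (.e (nat_lit 188418) (nat_lit 0) (.e (nat_lit 2059) (nat_lit 142) (.e (nat_lit 704599) (nat_lit 6) .nil)))))) (.g (nat_lit 6) .nil .nil))) 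
(.lf (nat_lit 268477) (.g (nat_lit 2516) (.e (nat_lit 188418) (nat_lit 0) (.e (nat_lit 1855) (nat_lit 124) (.e (nat_lit 557109) (nat_lit 15) (.e (nat_lit 188455) (nat_lit 24) (.e (nat_lit 237312) (nat_lit 134) .nil))))) .nil)))))) (.nd (nat_lit 2) (.nd (nat_lit 3) (.nd (nat_lit 4) (.nd (nat_lit 5) 
(.lf (nat_lit 268419) (.g (nat_lit 652) (.e (nat_lit 180285) (nat_lit 45) (.e (nat_lit 2579) (nat_lit 161) (.e (nat_lit 40964) (nat_lit 0) (.e (nat_lit 1555) (nat_lit 110) (.e (nat_lit 360192) (nat_lit 2) (.e (nat_lit 204544) (nat_lit 5) .nil)))))) (.g (nat_lit 4) .nil .nil))) 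
(.lf (nat_lit 268451) (.g (nat_lit 886) (.e (nat_lit 188417) (nat_lit 0) (.e (nat_lit 2147) (nat_lit 142) (.e (nat_lit 704597) (nat_lit 6) (.e (nat_lit 188417) (nat_lit 0) (.e (nat_lit 2147) (nat_lit 142) (.e (nat_lit 704597) (nat_lit 6) .nil)))))) (.g (nat_lit 0) .nil .nil)))) (.nd (nat_lit 5) 
(.lf (nat_lit 268435) (.g (nat_lit 412) (.e (nat_lit 180287) (nat_lit 45) (.e (nat_lit 2580) (nat_lit 161) (.e (nat_lit 40964) (nat_lit 0) (.e (nat_lit 1555) (nat_lit 110) (.e (nat_lit 360192) (nat_lit 2) (.e (nat_lit 204544) (nat_lit 5) .nil)))))) (.g (nat_lit 4) .nil .nil))) 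
(.lf (nat_lit 268467) (.g (nat_lit 2092) (.e (nat_lit 188418) (nat_lit 0) (.e (nat_lit 1855) (nat_lit 124) (.e (nat_lit 557103) (nat_lit 14) (.e (nat_lit 180287) (nat_lit 45) .nil)))) .nil)))) (.nd (nat_lit 4) (.nd (nat_lit 5) 
(.lf (nat_lit 268427) (.g (nat_lit 594) (.e (nat_lit 180287) (nat_lit 45) (.e (nat_lit 2577) (nat_lit 161) (.e (nat_lit 40965) (nat_lit 0) (.e (nat_lit 1555) (nat_lit 110) (.e (nat_lit 360192) (nat_lit 2) (.e (nat_lit 204544) (nat_lit 5) .nil)))))) (.g (nat_lit 4) .nil .nil))) 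
(.lf (nat_lit 268459) (.g (nat_lit 1035) (.e (nat_lit 188418) (nat_lit 0) (.e (nat_lit 1784) (nat_lit 119) (.e (nat_lit 516131) (nat_lit 3) (.e (nat_lit 221193) (nat_lit 11) (.e (nat_lit 336009) (nat_lit 2) .nil))))) .nil))) (.nd (nat_lit 5) 
(.lf (nat_lit 268443) (.g (nat_lit 852) (.e (nat_lit 180288) (nat_lit 45) (.e (nat_lit 2580) (nat_lit 161) (.e (nat_lit 40964) (nat_lit 0) (.e (nat_lit 1555) (nat_lit 110) (.e (nat_lit 352269) (nat_lit 7) (.e (nat_lit 245777) (nat_lit 5) .nil)))))) (.g (nat_lit 6) .nil .nil))) 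
(.lf (nat_lit 268475) (.g (nat_lit 2792) (.e (nat_lit 188418) (nat_lit 0) (.e (nat_lit 1855) (nat_lit 124) (.e (nat_lit 557109) (nat_lit 15) (.e (nat_lit 188434) (nat_lit 20) (.e (nat_lit 3272) (nat_lit 199) (.e (nat_lit 548915) (nat_lit 20) .nil)))))) (.g (nat_lit 4) .nil .nil)))))) (.nd (nat_lit 3) (.nd (nat_lit 4) (.nd (nat_lit 5) 
(.lf (nat_lit 268423) (.g (nat_lit 766) (.e (nat_lit 180285) (nat_lit 45) (.e (nat_lit 2579) (nat_lit 161) (.e (nat_lit 40965) (nat_lit 0) (.e (nat_lit 1555) (nat_lit 110) (.e (nat_lit 360192) (nat_lit 2) (.e (nat_lit 204544) (nat_lit 5) .nil)))))) (.g (nat_lit 4) .nil .nil))) 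
(.lf (nat_lit 268455) (.g (nat_lit 416) (.e (nat_lit 188417) (nat_lit 0) (.e (nat_lit 2148) (nat_lit 142) (.e (nat_lit 704597) (nat_lit 6) (.e (nat_lit 188417) (nat_lit 0) (.e (nat_lit 2148) (nat_lit 142) (.e (nat_lit 704597) (nat_lit 6) .nil)))))) (.g (nat_lit 0) .nil .nil)))) (.nd (nat_lit 5) 
(.lf (nat_lit 268439) (.g (nat_lit 574) (.e (nat_lit 180288) (nat_lit 45) (.e (nat_lit 2579) (nat_lit 161) (.e (nat_lit 40964) (nat_lit 0) (.e (nat_lit 1555) (nat_lit 110) (.e (nat_lit 360192) (nat_lit 2) (.e (nat_lit 204544) (nat_lit 5) .nil)))))) (.g (nat_lit 4) .nil .nil))) 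
(.lf (nat_lit 268471) (.g (nat_lit 481) (.e (nat_lit 188418) (nat_lit 0) (.e (nat_lit 1855) (nat_lit 124) (.e (nat_lit 557105) (nat_lit 14) .nil))) .nil)))) (.nd (nat_lit 4) (.nd (nat_lit 5) 
(.lf (nat_lit 268431) (.g (nat_lit 277) (.e (nat_lit 180287) (nat_lit 45) (.e (nat_lit 2579) (nat_lit 161) (.e (nat_lit 40964) (nat_lit 0) (.e (nat_lit 1558) (nat_lit 110) (.e (nat_lit 360192) (nat_lit 7) .nil))))) .nil)) 
(.lf (nat_lit 268463) (.g (nat_lit 1956) (.e (nat_lit 188418) (nat_lit 0) (.e (nat_lit 1846) (nat_lit 124) (.e (nat_lit 557103) (nat_lit 14) (.e (nat_lit 180285) (nat_lit 45) (.e (nat_lit 2570) (nat_lit 160) (.e (nat_lit 32809) (nat_lit 20) .nil)))))) (.g (nat_lit 5) .nil .nil)))) (.nd (nat_lit 5) 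
(.lf (nat_lit 268447) (.g (nat_lit 868) (.e (nat_lit 188416) (nat_lit 0) (.e (nat_lit 6209) (nat_lit 333) (.e (nat_lit 57610) (nat_lit 109) (.e (nat_lit 720907) (nat_lit 11) .nil)))) .nil)) 
(.lf (nat_lit 268479) (.g (nat_lit 2629) (.e (nat_lit 188418) (nat_lit 0) (.e (nat_lit 1855) (nat_lit 124) (.e (nat_lit 557109) (nat_lit 15) (.e (nat_lit 188455) (nat_lit 24) (.e (nat_lit 237312) (nat_lit 134) (.e (nat_lit 2653) (nat_lit 166) .nil)))))) (.g (nat_lit 4) .nil .nil)))))))))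

noncomputable def tv3447 : DT := (.nd (nat_lit 0) (.nd (nat_lit 1) (.nd (nat_lit 2) (.nd (nat_lit 3) (.nd (nat_lit 4) (.nd (nat_lit 5) 
(.lf (nat_lit 268480) (.g (nat_lit 303) (.e (nat_lit 188418) (nat_lit 0) (.e (nat_lit 1856) (nat_lit 124) (.e (nat_lit 557072) (nat_lit 9) .nil))) .nil)) 
(.lf (nat_lit 268512) (.g (nat_lit 845) (.e (nat_lit 188418) (nat_lit 0) (.e (nat_lit 2058) (nat_lit 142) (.e (nat_lit 704851) (nat_lit 16) .nil))) .nil))) (.nd (nat_lit 5) 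
(.lf (nat_lit 268496) (.g (nat_lit 2143) (.e (nat_lit 188418) (nat_lit 0) (.e (nat_lit 1856) (nat_lit 124) (.e (nat_lit 557105) (nat_lit 14) (.e (nat_lit 180282) (nat_lit 45) (.e (nat_lit 2570) (nat_lit 160) (.e (nat_lit 32809) (nat_lit 20) .nil)))))) (.g (nat_lit 5) .nil .nil))) 
(.lf (nat_lit 268528) (.g (nat_lit 2728) (.e (nat_lit 188418) (nat_lit 0) (.e (nat_lit 2173) (nat_lit 143) (.e (nat_lit 712752) (nat_lit 29) (.e (nat_lit 442421) (nat_lit 21) (.e (nat_lit 164347) (nat_lit 240) (.e (nat_lit 2648) (nat_lit 166) .nil)))))) (.g (nat_lit 6) .nil .nil))))) (.nd (nat_lit 4) (.nd (nat_lit 5) 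
(.lf (nat_lit 268488) (.g (nat_lit 3835) (.e (nat_lit 188418) (nat_lit 0) (.e (nat_lit 1856) (nat_lit 124) (.e (nat_lit 557100) (nat_lit 13) (.e (nat_lit 172120) (nat_lit 12) (.e (nat_lit 475185) (nat_lit 29) (.e (nat_lit 557107) (nat_lit 15) .nil)))))) (.g (nat_lit 0) .nil .nil))) 
(.lf (nat_lit 268520) (.g (nat_lit 2229) (.e (nat_lit 188418) (nat_lit 0) (.e (nat_lit 2160) (nat_lit 143) (.e (nat_lit 712755) (nat_lit 30) (.e (nat_lit 450563) (nat_lit 0) (.e (nat_lit 5537) (nat_lit 306) (.e (nat_lit 7936) (nat_lit 166) .nil)))))) (.g (nat_lit 5) .nil .nil)))) (.nd (nat_lit 5) 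
(.lf (nat_lit 268504) (.g (nat_lit 2520) (.e (nat_lit 188418) (nat_lit 0) (.e (nat_lit 1856) (nat_lit 124) (.e (nat_lit 557109) (nat_lit 15) (.e (nat_lit 188419) (nat_lit 0) (.e (nat_lit 1855) (nat_lit 124) .nil))))) .nil)) 
(.lf (nat_lit 268536) (.g (nat_lit 839) (.e (nat_lit 188418) (nat_lit 0) (.e (nat_lit 2174) (nat_lit 143) (.e (nat_lit 712753) (nat_lit 30) (.e (nat_lit 458496) (nat_lit 0) .nil)))) .nil))))) (.nd (nat_lit 3) (.nd (nat_lit 4) (.nd (nat_lit 5) 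
(.lf (nat_lit 268484) (.g (nat_lit 2682) (.e (nat_lit 188418) (nat_lit 0) (.e (nat_lit 1856) (nat_lit 124) (.e (nat_lit 557100) (nat_lit 13) (.e (nat_lit 172079) (nat_lit 7) (.e (nat_lit 409631) (nat_lit 12) (.e (nat_lit 32809) (nat_lit 20) .nil)))))) (.g (nat_lit 0) .nil .nil))) 
(.lf (nat_lit 268516) (.g (nat_lit 1938) (.e (nat_lit 188418) (nat_lit 0) (.e (nat_lit 2059) (nat_lit 142) (.e (nat_lit 704599) (nat_lit 6) (.e (nat_lit 188418) (nat_lit 0) (.e (nat_lit 2058) (nat_lit 142) (.e (nat_lit 704599) (nat_lit 6) .nil)))))) (.g (nat_lit 6) .nil .nil)))) (.nd (nat_lit 5) 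
(.lf (nat_lit 268500) (.g (nat_lit 2262) (.e (nat_lit 188418) (nat_lit 0) (.e (nat_lit 1856) (nat_lit 124) (.e (nat_lit 557105) (nat_lit 14) (.e (nat_lit 180288) (nat_lit 45) (.e (nat_lit 2571) (nat_lit 160) (.e (nat_lit 32809) (nat_lit 20) .nil)))))) (.g (nat_lit 6) .nil .nil))) 
(.lf (nat_lit 268532) (.g (nat_lit 1457) (.e (nat_lit 188418) (nat_lit 0) (.e (nat_lit 2174) (nat_lit 143) (.e (nat_lit 712745) (nat_lit 27) (.e (nat_lit 426232) (nat_lit 9) (.e (nat_lit 426443) (nat_lit 19) (.e (nat_lit 114432) (nat_lit 6) .nil)))))) (.g (nat_lit 4) .nil .nil))))) (.nd (nat_lit 4) (.nd (nat_lit 5) 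
(.lf (nat_lit 268492) (.g (nat_lit 1317) (.e (nat_lit 188418) (nat_lit 0) (.e (nat_lit 1856) (nat_lit 124) (.e (nat_lit 557104) (nat_lit 14) (.e (nat_lit 188160) (nat_lit 32) .nil)))) .nil)) 
(.lf (nat_lit 268524) (.g (nat_lit 1588) (.e (nat_lit 188418) (nat_lit 0) (.e (nat_lit 2160) (nat_lit 143) (.e (nat_lit 712755) (nat_lit 30) (.e (nat_lit 450569) (nat_lit 0) (.e (nat_lit 5448) (nat_lit 306) .nil))))) .nil))) (.nd (nat_lit 5) 
(.lf (nat_lit 268508) (.g (nat_lit 1801) (.e (nat_lit 188418) (nat_lit 0) (.e (nat_lit 2058) (nat_lit 142) (.e (nat_lit 704598) (nat_lit 6) (.e (nat_lit 188420) (nat_lit 0) (.e (nat_lit 2059) (nat_lit 142) (.e (nat_lit 704599) (nat_lit 6) .nil)))))) (.g (nat_lit 0) .nil .nil))) 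
(.lf (nat_lit 268540) (.g (nat_lit 2614) (.e (nat_lit 188418) (nat_lit 0) (.e (nat_lit 2174) (nat_lit 143) (.e (nat_lit 712755) (nat_lit 30) (.e (nat_lit 450593) (nat_lit 16) (.e (nat_lit 655380) (nat_lit 6) .nil))))) (.g (nat_lit 0) .nil .nil))))))) (.nd (nat_lit 2) (.nd (nat_lit 3) (.nd (nat_lit 4) (.nd (nat_lit 5) 
(.lf (nat_lit 268482) (.g (nat_lit 1280) (.e (nat_lit 188418) (nat_lit 0) (.e (nat_lit 1856) (nat_lit 124) (.e (nat_lit 557100) (nat_lit 13) (.e (nat_lit 172039) (nat_lit 0) .nil)))) .nil)) 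
(.lf (nat_lit 268514) (.g (nat_lit 1792) (.e (nat_lit 188418) (nat_lit 0) (.e (nat_lit 2059) (nat_lit 142) (.e (nat_lit 704598) (nat_lit 6) (.e (nat_lit 188420) (nat_lit 0) (.e (nat_lit 2058) (nat_lit 142) (.e (nat_lit 704599) (nat_lit 6) .nil)))))) (.g (nat_lit 6) .nil .nil)))) (.nd (nat_lit 5) 
(.lf (nat_lit 268498) (.g (nat_lit 2144) (.e (nat_lit 188418) (nat_lit 0) (.e (nat_lit 1856) (nat_lit 124) (.e (nat_lit 557105) (nat_lit 14) (.e (nat_lit 180284) (nat_lit 45) (.e (nat_lit 2571) (nat_lit 160) (.e (nat_lit 32809) (nat_lit 20) .nil)))))) (.g (nat_lit 6) .nil .nil))) 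
(.lf (nat_lit 268530) (.g (nat_lit 1501) (.e (nat_lit 188418) (nat_lit 0) (.e (nat_lit 2174) (nat_lit 143) (.e (nat_lit 712745) (nat_lit 27) (.e (nat_lit 426228) (nat_lit 9) (.e (nat_lit 426443) (nat_lit 19) (.e (nat_lit 114432) (nat_lit 6) .nil)))))) (.g (nat_lit 4) .nil .nil))))) (.nd (nat_lit 4) (.nd (nat_lit 5) 
(.lf (nat_lit 268490) (.g (nat_lit 3756) (.e (nat_lit 188418) (nat_lit 0) (.e (nat_lit 1856) (nat_lit 124) (.e (nat_lit 557101) (nat_lit 13) (.e (nat_lit 172119) (nat_lit 12) (.e (nat_lit 475185) (nat_lit 29) (.e (nat_lit 557107) (nat_lit 15) .nil)))))) (.g (nat_lit 6) .nil .nil))) 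
(.lf (nat_lit 268522) (.g (nat_lit 1487) (.e (nat_lit 188418) (nat_lit 0) (.e (nat_lit 2160) (nat_lit 143) (.e (nat_lit 712755) (nat_lit 30) (.e (nat_lit 450563) (nat_lit 0) (.e (nat_lit 7936) (nat_lit 306) .nil))))) .nil))) (.nd (nat_lit 5) 
(.lf (nat_lit 268506) (.g (nat_lit 1249) (.e (nat_lit 188418) (nat_lit 0) (.e (nat_lit 1856) (nat_lit 124) (.e (nat_lit 557109) (nat_lit 15) (.e (nat_lit 196352) (nat_lit 0) .nil)))) .nil)) 
(.lf (nat_lit 268538) (.g (nat_lit 1719) (.e (nat_lit 188418) (nat_lit 0) (.e (nat_lit 2174) (nat_lit 143) (.e (nat_lit 712755) (nat_lit 30) (.e (nat_lit 450563) (nat_lit 0) (.e (nat_lit 7936) (nat_lit 306) .nil))))) .nil))))) (.nd (nat_lit 3) (.nd (nat_lit 4) (.nd (nat_lit 5) 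
(.lf (nat_lit 268486) (.g (nat_lit 3797) (.e (nat_lit 188418) (nat_lit 0) (.e (nat_lit 1856) (nat_lit 124) (.e (nat_lit 557100) (nat_lit 13) (.e (nat_lit 172113) (nat_lit 10) (.e (nat_lit 434238) (nat_lit 25) (.e (nat_lit 548915) (nat_lit 20) .nil)))))) (.g (nat_lit 0) .nil .nil))) 
(.lf (nat_lit 268518) (.g (nat_lit 642) (.e (nat_lit 188418) (nat_lit 0) (.e (nat_lit 2160) (nat_lit 143) (.e (nat_lit 712753) (nat_lit 30) (.e (nat_lit 458496) (nat_lit 0) .nil)))) .nil))) (.nd (nat_lit 5) 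
(.lf (nat_lit 268502) (.g (nat_lit 1216) (.e (nat_lit 188418) (nat_lit 0) (.e (nat_lit 1856) (nat_lit 124) (.e (nat_lit 557107) (nat_lit 15) (.e (nat_lit 196352) (nat_lit 0) .nil)))) .nil)) 
(.lf (nat_lit 268534) (.g (nat_lit 2815) (.e (nat_lit 188418) (nat_lit 0) (.e (nat_lit 2174) (nat_lit 143) (.e (nat_lit 712752) (nat_lit 29) (.e (nat_lit 442374) (nat_lit 0) (.e (nat_lit 2059) (nat_lit 142) (.e (nat_lit 704599) (nat_lit 6) .nil)))))) (.g (nat_lit 6) .nil .nil))))) (.nd (nat_lit 4) (.nd (nat_lit 5) 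
(.lf (nat_lit 268494) (.g (nat_lit 1469) (.e (nat_lit 188418) (nat_lit 0) (.e (nat_lit 1856) (nat_lit 124) (.e (nat_lit 557105) (nat_lit 14) (.e (nat_lit 180276) (nat_lit 32) .nil)))) .nil)) 
(.lf (nat_lit 268526) (.g (nat_lit 3304) (.e (nat_lit 188418) (nat_lit 0) (.e (nat_lit 2172) (nat_lit 143) (.e (nat_lit 712752) (nat_lit 29) (.e (nat_lit 442421) (nat_lit 21) (.e (nat_lit 164347) (nat_lit 240) (.e (nat_lit 2648) (nat_lit 166) .nil)))))) (.g (nat_lit 6) .nil .nil)))) (.nd (nat_lit 5) 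
(.lf (nat_lit 268510) (.g (nat_lit 2006) (.e (nat_lit 188418) (nat_lit 0) (.e (nat_lit 2058) (nat_lit 142) (.e (nat_lit 704599) (nat_lit 6) (.e (nat_lit 188418) (nat_lit 0) (.e (nat_lit 2058) (nat_lit 142) (.e (nat_lit 704599) (nat_lit 6) .nil)))))) (.g (nat_lit 6) .nil .nil))) 
(.lf (nat_lit 268542) (.g (nat_lit 2558) (.e (nat_lit 188418) (nat_lit 0) (.e (nat_lit 2175) (nat_lit 143) (.e (nat_lit 712750) (nat_lit 29) (.e (nat_lit 442374) (nat_lit 0) (.e (nat_lit 2059) (nat_lit 142) (.e (nat_lit 704599) (nat_lit 6) .nil)))))) (.g (nat_lit 0) .nil .nil)))))))) (.nd (nat_lit 1) (.nd (nat_lit 2) (.nd (nat_lit 3) (.nd (nat_lit 4) (.nd (nat_lit 5) 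
(.lf (nat_lit 268481) (.g (nat_lit 238) (.e (nat_lit 188418) (nat_lit 0) (.e (nat_lit 1856) (nat_lit 124) (.e (nat_lit 557100) (nat_lit 13) .nil))) .nil)) 
(.lf (nat_lit 268513) (.g (nat_lit 1131) (.e (nat_lit 188418) (nat_lit 0) (.e (nat_lit 2059) (nat_lit 142) (.e (nat_lit 704598) (nat_lit 6) (.e (nat_lit 188417) (nat_lit 0) (.e (nat_lit 2148) (nat_lit 142) (.e (nat_lit 704597) (nat_lit 6) .nil)))))) (.g (nat_lit 0) .nil .nil)))) (.nd (nat_lit 5) 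
(.lf (nat_lit 268497) (.g (nat_lit 2053) (.e (nat_lit 188418) (nat_lit 0) (.e (nat_lit 1856) (nat_lit 124) (.e (nat_lit 557105) (nat_lit 14) (.e (nat_lit 180284) (nat_lit 45) (.e (nat_lit 2570) (nat_lit 160) (.e (nat_lit 32809) (nat_lit 20) .nil)))))) (.g (nat_lit 6) .nil .nil))) 
(.lf (nat_lit 268529) (.g (nat_lit 1134) (.e (nat_lit 188418) (nat_lit 0) (.e (nat_lit 2173) (nat_lit 143) (.e (nat_lit 712755) (nat_lit 30) (.e (nat_lit 450593) (nat_lit 16) (.e (nat_lit 655380) (nat_lit 6) .nil))))) .nil)))) (.nd (nat_lit 4) (.nd (nat_lit 5) 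
(.lf (nat_lit 268489) (.g (nat_lit 1743) (.e (nat_lit 188418) (nat_lit 0) (.e (nat_lit 1856) (nat_lit 124) (.e (nat_lit 557100) (nat_lit 13) (.e (nat_lit 172124) (nat_lit 14) (.e (nat_lit 491536) (nat_lit 2) .nil))))) .nil)) 
(.lf (nat_lit 268521) (.g (nat_lit 2228) (.e (nat_lit 188418) (nat_lit 0) (.e (nat_lit 2160) (nat_lit 143) (.e (nat_lit 712755) (nat_lit 30) (.e (nat_lit 450563) (nat_lit 0) (.e (nat_lit 5539) (nat_lit 306) (.e (nat_lit 7936) (nat_lit 166) .nil)))))) (.g (nat_lit 5) .nil .nil)))) (.nd (nat_lit 5) 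
(.lf (nat_lit 268505) (.g (nat_lit 2158) (.e (nat_lit 188418) (nat_lit 0) (.e (nat_lit 1856) (nat_lit 124) (.e (nat_lit 557109) (nat_lit 15) (.e (nat_lit 188420) (nat_lit 0) .nil)))) .nil)) 
(.lf (nat_lit 268537) (.g (nat_lit 2006) (.e (nat_lit 188418) (nat_lit 0) (.e (nat_lit 2174) (nat_lit 143) (.e (nat_lit 712753) (nat_lit 30) (.e (nat_lit 450593) (nat_lit 16) (.e (nat_lit 655380) (nat_lit 6) .nil))))) (.g (nat_lit 0) .nil .nil)))))) (.nd (nat_lit 3) (.nd (nat_lit 4) (.nd (nat_lit 5) 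
(.lf (nat_lit 268485) (.g (nat_lit 2490) (.e (nat_lit 188418) (nat_lit 0) (.e (nat_lit 1856) (nat_lit 124) (.e (nat_lit 557100) (nat_lit 13) (.e (nat_lit 172082) (nat_lit 7) (.e (nat_lit 409631) (nat_lit 12) (.e (nat_lit 32809) (nat_lit 20) .nil)))))) (.g (nat_lit 0) .nil .nil))) 
(.lf (nat_lit 268517) (.g (nat_lit 1878) (.e (nat_lit 188418) (nat_lit 0) (.e (nat_lit 2059) (nat_lit 142) (.e (nat_lit 704599) (nat_lit 6) (.e (nat_lit 188418) (nat_lit 0) (.e (nat_lit 2059) (nat_lit 142) (.e (nat_lit 704599) (nat_lit 6) .nil)))))) (.g (nat_lit 0) .nil .nil)))) (.nd (nat_lit 5) 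
(.lf (nat_lit 268501) (.g (nat_lit 2896) (.e (nat_lit 188418) (nat_lit 0) (.e (nat_lit 1856) (nat_lit 124) (.e (nat_lit 557107) (nat_lit 15) (.e (nat_lit 188418) (nat_lit 0) (.e (nat_lit 1856) (nat_lit 124) (.e (nat_lit 557107) (nat_lit 15) .nil)))))) (.g (nat_lit 0) .nil .nil))) 
(.lf (nat_lit 268533) (.g (nat_lit 2716) (.e (nat_lit 188418) (nat_lit 0) (.e (nat_lit 2174) (nat_lit 143) (.e (nat_lit 712750) (nat_lit 29) (.e (nat_lit 442374) (nat_lit 0) (.e (nat_lit 2059) (nat_lit 142) (.e (nat_lit 704599) (nat_lit 6) .nil)))))) (.g (nat_lit 0) .nil .nil))))) (.nd (nat_lit 4) (.nd (nat_lit 5) 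
(.lf (nat_lit 268493) (.g (nat_lit 2370) (.e (nat_lit 188418) (nat_lit 0) (.e (nat_lit 1856) (nat_lit 124) (.e (nat_lit 557105) (nat_lit 14) (.e (nat_lit 180227) (nat_lit 0) (.e (nat_lit 4598) (nat_lit 269) .nil))))) .nil)) 
(.lf (nat_lit 268525) (.g (nat_lit 994) (.e (nat_lit 188418) (nat_lit 0) (.e (nat_lit 2160) (nat_lit 143) (.e (nat_lit 712755) (nat_lit 30) (.e (nat_lit 458496) (nat_lit 0) .nil)))) .nil))) (.nd (nat_lit 5) 
(.lf (nat_lit 268509) (.g (nat_lit 1808) (.e (nat_lit 188418) (nat_lit 0) (.e (nat_lit 2058) (nat_lit 142) (.e (nat_lit 704598) (nat_lit 6) (.e (nat_lit 188439) (nat_lit 20) (.e (nat_lit 3409) (nat_lit 212) (.e (nat_lit 655380) (nat_lit 6) .nil)))))) (.g (nat_lit 0) .nil .nil))) 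
(.lf (nat_lit 268541) (.g (nat_lit 1264) (.e (nat_lit 188418) (nat_lit 0) (.e (nat_lit 2175) (nat_lit 143) (.e (nat_lit 712750) (nat_lit 29) (.e (nat_lit 442371) (nat_lit 0) (.e (nat_lit 2148) (nat_lit 142) (.e (nat_lit 704597) (nat_lit 6) .nil)))))) (.g (nat_lit 0) .nil .nil))))))) (.nd (nat_lit 2) (.nd (nat_lit 3) (.nd (nat_lit 4) (.nd (nat_lit 5) 
(.lf (nat_lit 268483) (.g (nat_lit 1826) (.e (nat_lit 188418) (nat_lit 0) (.e (nat_lit 1856) (nat_lit 124) (.e (nat_lit 557100) (nat_lit 13) (.e (nat_lit 172079) (nat_lit 7) (.e (nat_lit 409630) (nat_lit 12) .nil))))) .nil)) 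
(.lf (nat_lit 268515) (.g (nat_lit 1853) (.e (nat_lit 188418) (nat_lit 0) (.e (nat_lit 2059) (nat_lit 142) (.e (nat_lit 704598) (nat_lit 6) (.e (nat_lit 188420) (nat_lit 0) (.e (nat_lit 2059) (nat_lit 142) (.e (nat_lit 704599) (nat_lit 6) .nil)))))) (.g (nat_lit 0) .nil .nil)))) (.nd (nat_lit 5) 
(.lf (nat_lit 268499) (.g (nat_lit 2237) (.e (nat_lit 188418) (nat_lit 0) (.e (nat_lit 1856) (nat_lit 124) (.e (nat_lit 557105) (nat_lit 14) (.e (nat_lit 180288) (nat_lit 45) (.e (nat_lit 2570) (nat_lit 160) (.e (nat_lit 32809) (nat_lit 20) .nil)))))) (.g (nat_lit 6) .nil .nil))) 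
(.lf (nat_lit 268531) (.g (nat_lit 1508) (.e (nat_lit 188418) (nat_lit 0) (.e (nat_lit 2174) (nat_lit 143) (.e (nat_lit 712745) (nat_lit 27) (.e (nat_lit 426230) (nat_lit 9) (.e (nat_lit 426443) (nat_lit 19) (.e (nat_lit 114432) (nat_lit 6) .nil)))))) (.g (nat_lit 5) .nil .nil))))) (.nd (nat_lit 4) (.nd (nat_lit 5) 
(.lf (nat_lit 268491) (.g (nat_lit 1651) (.e (nat_lit 188418) (nat_lit 0) (.e (nat_lit 1856) (nat_lit 124) (.e (nat_lit 557103) (nat_lit 14) (.e (nat_lit 180275) (nat_lit 32) .nil)))) .nil)) 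
(.lf (nat_lit 268523) (.g (nat_lit 1297) (.e (nat_lit 188418) (nat_lit 0) (.e (nat_lit 2160) (nat_lit 143) (.e (nat_lit 712755) (nat_lit 30) (.e (nat_lit 450568) (nat_lit 0) (.e (nat_lit 5448) (nat_lit 306) .nil))))) .nil))) (.nd (nat_lit 5) 
(.lf (nat_lit 268507) (.g (nat_lit 1079) (.e (nat_lit 188418) (nat_lit 0) (.e (nat_lit 2058) (nat_lit 142) (.e (nat_lit 704598) (nat_lit 6) (.e (nat_lit 188417) (nat_lit 0) (.e (nat_lit 2148) (nat_lit 142) (.e (nat_lit 704597) (nat_lit 6) .nil)))))) (.g (nat_lit 0) .nil .nil))) 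
(.lf (nat_lit 268539) (.g (nat_lit 1155) (.e (nat_lit 188418) (nat_lit 0) (.e (nat_lit 2174) (nat_lit 143) (.e (nat_lit 712755) (nat_lit 30) (.e (nat_lit 458496) (nat_lit 0) .nil)))) .nil))))) (.nd (nat_lit 3) (.nd (nat_lit 4) (.nd (nat_lit 5) 
(.lf (nat_lit 268487) (.g (nat_lit 3698) (.e (nat_lit 188418) (nat_lit 0) (.e (nat_lit 1856) (nat_lit 124) (.e (nat_lit 557100) (nat_lit 13) (.e (nat_lit 172118) (nat_lit 12) (.e (nat_lit 475185) (nat_lit 29) (.e (nat_lit 557107) (nat_lit 15) .nil)))))) (.g (nat_lit 0) .nil .nil))) 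
(.lf (nat_lit 268519) (.g (nat_lit 1677) (.e (nat_lit 188418) (nat_lit 0) (.e (nat_lit 2160) (nat_lit 143) (.e (nat_lit 712755) (nat_lit 30) (.e (nat_lit 450562) (nat_lit 0) (.e (nat_lit 5539) (nat_lit 306) (.e (nat_lit 7936) (nat_lit 166) .nil)))))) (.g (nat_lit 4) .nil .nil)))) (.nd (nat_lit 5) 
(.lf (nat_lit 268503) (.g (nat_lit 379) (.e (nat_lit 188418) (nat_lit 0) (.e (nat_lit 1856) (nat_lit 124) (.e (nat_lit 557109) (nat_lit 15) .nil))) .nil)) 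
(.lf (nat_lit 268535) (.g (nat_lit 1320) (.e (nat_lit 188418) (nat_lit 0) (.e (nat_lit 2174) (nat_lit 143) (.e (nat_lit 712752) (nat_lit 29) (.e (nat_lit 442428) (nat_lit 24) .nil)))) .nil)))) (.nd (nat_lit 4) (.nd (nat_lit 5) 
(.lf (nat_lit 268495) (.g (nat_lit 1540) (.e (nat_lit 188418) (nat_lit 0) (.e (nat_lit 1856) (nat_lit 124) (.e (nat_lit 557105) (nat_lit 14) (.e (nat_lit 180282) (nat_lit 45) .nil)))) .nil)) 
(.lf (nat_lit 268527) (.g (nat_lit 1935) (.e (nat_lit 188418) (nat_lit 0) (.e (nat_lit 2173) (nat_lit 143) (.e (nat_lit 712752) (nat_lit 29) (.e (nat_lit 442421) (nat_lit 21) (.e (nat_lit 164346) (nat_lit 240) (.e (nat_lit 2648) (nat_lit 166) .nil)))))) (.g (nat_lit 4) .nil .nil)))) (.nd (nat_lit 5) 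
(.lf (nat_lit 268511) (.g (nat_lit 2068) (.e (nat_lit 188418) (nat_lit 0) (.e (nat_lit 2058) (nat_lit 142) (.e (nat_lit 704599) (nat_lit 6) (.e (nat_lit 188440) (nat_lit 20) (.e (nat_lit 3409) (nat_lit 212) (.e (nat_lit 655380) (nat_lit 6) .nil)))))) (.g (nat_lit 0) .nil .nil))) 
(.lf (nat_lit 268543) (.g (nat_lit 790) (.e (nat_lit 188418) (nat_lit 0) (.e (nat_lit 2175) (nat_lit 143) (.e (nat_lit 712750) (nat_lit 29) (.e (nat_lit 442399) (nat_lit 20) .nil)))) .nil))))))))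

noncomputable def tv3448 : DT := (.nd (nat_lit 0) (.nd (nat_lit 1) (.nd (nat_lit 2) (.nd (nat_lit 3) (.nd (nat_lit 4) (.nd (nat_lit 5) 
(.lf (nat_lit 268544) (.g (nat_lit 283) (.e (nat_lit 188418) (nat_lit 0) (.e (nat_lit 2175) (nat_lit 143) (.e (nat_lit 712752) (nat_lit 29) .nil))) .nil)) 
(.lf (nat_lit 268576) (.g (nat_lit 1368) (.e (nat_lit 188420) (nat_lit 0) (.e (nat_lit 1798) (nat_lit 119) (.e (nat_lit 516129) (nat_lit 3) (.e (nat_lit 221193) (nat_lit 11) (.e (nat_lit 336010) (nat_lit 2) .nil))))) .nil))) (.nd (nat_lit 5) 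
(.lf (nat_lit 268560) (.g (nat_lit 2041) (.e (nat_lit 188419) (nat_lit 0) (.e (nat_lit 1856) (nat_lit 124) (.e (nat_lit 557100) (nat_lit 13) (.e (nat_lit 172126) (nat_lit 14) (.e (nat_lit 491537) (nat_lit 2) .nil))))) .nil)) 
(.lf (nat_lit 268592) (.g (nat_lit 1216) (.e (nat_lit 188420) (nat_lit 0) (.e (nat_lit 1855) (nat_lit 124) (.e (nat_lit 557104) (nat_lit 14) (.e (nat_lit 180284) (nat_lit 45) .nil)))) .nil)))) (.nd (nat_lit 4) (.nd (nat_lit 5) 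
(.lf (nat_lit 268552) (.g (nat_lit 839) (.e (nat_lit 188419) (nat_lit 0) (.e (nat_lit 1846) (nat_lit 124) (.e (nat_lit 557109) (nat_lit 15) (.e (nat_lit 196352) (nat_lit 0) .nil)))) .nil)) 
(.lf (nat_lit 268584) (.g (nat_lit 2069) (.e (nat_lit 188420) (nat_lit 0) (.e (nat_lit 1855) (nat_lit 124) (.e (nat_lit 557098) (nat_lit 13) (.e (nat_lit 172124) (nat_lit 14) (.e (nat_lit 491537) (nat_lit 2) .nil))))) .nil))) (.nd (nat_lit 5) 
(.lf (nat_lit 268568) (.g (nat_lit 2368) (.e (nat_lit 188419) (nat_lit 0) (.e (nat_lit 2160) (nat_lit 143) (.e (nat_lit 712753) (nat_lit 30) (.e (nat_lit 450564) (nat_lit 0) (.e (nat_lit 5546) (nat_lit 306) (.e (nat_lit 2650) (nat_lit 166) .nil)))))) (.g (nat_lit 6) .nil .nil))) 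
(.lf (nat_lit 268600) (.g (nat_lit 2194) (.e (nat_lit 188420) (nat_lit 0) (.e (nat_lit 1855) (nat_lit 124) (.e (nat_lit 557109) (nat_lit 15) (.e (nat_lit 188435) (nat_lit 20) .nil)))) .nil))))) (.nd (nat_lit 3) (.nd (nat_lit 4) (.nd (nat_lit 5) 
(.lf (nat_lit 268548) (.g (nat_lit 329) (.e (nat_lit 188418) (nat_lit 0) (.e (nat_lit 2175) (nat_lit 143) (.e (nat_lit 712755) (nat_lit 30) .nil))) .nil)) 
(.lf (nat_lit 268580) (.g (nat_lit 1837) (.e (nat_lit 188420) (nat_lit 0) (.e (nat_lit 1800) (nat_lit 119) (.e (nat_lit 516129) (nat_lit 3) (.e (nat_lit 221194) (nat_lit 11) (.e (nat_lit 336003) (nat_lit 2) .nil))))) .nil))) (.nd (nat_lit 5) 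
(.lf (nat_lit 268564) (.g (nat_lit 2596) (.e (nat_lit 188419) (nat_lit 0) (.e (nat_lit 1856) (nat_lit 124) (.e (nat_lit 557109) (nat_lit 15) (.e (nat_lit 188419) (nat_lit 0) (.e (nat_lit 1856) (nat_lit 124) .nil))))) .nil)) 
(.lf (nat_lit 268596) (.g (nat_lit 436) (.e (nat_lit 188420) (nat_lit 0) (.e (nat_lit 1855) (nat_lit 124) (.e (nat_lit 557107) (nat_lit 15) .nil))) .nil)))) (.nd (nat_lit 4) (.nd (nat_lit 5) 
(.lf (nat_lit 268556) (.g (nat_lit 1806) (.e (nat_lit 188419) (nat_lit 0) (.e (nat_lit 1855) (nat_lit 124) (.e (nat_lit 557109) (nat_lit 15) (.e (nat_lit 188441) (nat_lit 20) .nil)))) .nil)) 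
(.lf (nat_lit 268588) (.g (nat_lit 2270) (.e (nat_lit 188420) (nat_lit 0) (.e (nat_lit 1855) (nat_lit 124) (.e (nat_lit 557103) (nat_lit 14) (.e (nat_lit 180278) (nat_lit 32) (.e (nat_lit 1235) (nat_lit 91) .nil))))) .nil))) (.nd (nat_lit 5) 
(.lf (nat_lit 268572) (.g (nat_lit 1186) (.e (nat_lit 188420) (nat_lit 0) (.e (nat_lit 1782) (nat_lit 119) (.e (nat_lit 516129) (nat_lit 3) (.e (nat_lit 221194) (nat_lit 11) (.e (nat_lit 336012) (nat_lit 2) .nil))))) .nil)) 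
(.lf (nat_lit 268604) (.g (nat_lit 536) (.e (nat_lit 188420) (nat_lit 0) (.e (nat_lit 1856) (nat_lit 124) (.e (nat_lit 557073) (nat_lit 9) .nil))) .nil)))))) (.nd (nat_lit 2) (.nd (nat_lit 3) (.nd (nat_lit 4) (.nd (nat_lit 5) 
(.lf (nat_lit 268546) (.g (nat_lit 2594) (.e (nat_lit 188418) (nat_lit 0) (.e (nat_lit 2175) (nat_lit 143) (.e (nat_lit 712752) (nat_lit 29) (.e (nat_lit 442374) (nat_lit 0) (.e (nat_lit 2059) (nat_lit 142) (.e (nat_lit 704599) (nat_lit 6) .nil)))))) (.g (nat_lit 0) .nil .nil))) 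
(.lf (nat_lit 268578) (.g (nat_lit 1266) (.e (nat_lit 188420) (nat_lit 0) (.e (nat_lit 1800) (nat_lit 119) (.e (nat_lit 516100) (nat_lit 0) (.e (nat_lit 3757) (nat_lit 229) .nil)))) .nil))) (.nd (nat_lit 5) 
(.lf (nat_lit 268562) (.g (nat_lit 2496) (.e (nat_lit 188419) (nat_lit 0) (.e (nat_lit 1856) (nat_lit 124) (.e (nat_lit 557109) (nat_lit 15) (.e (nat_lit 188418) (nat_lit 0) (.e (nat_lit 1855) (nat_lit 124) .nil))))) .nil)) 
(.lf (nat_lit 268594) (.g (nat_lit 1350) (.e (nat_lit 188420) (nat_lit 0) (.e (nat_lit 1855) (nat_lit 124) (.e (nat_lit 557105) (nat_lit 14) (.e (nat_lit 180285) (nat_lit 45) .nil)))) .nil)))) (.nd (nat_lit 4) (.nd (nat_lit 5) 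
(.lf (nat_lit 268554) (.g (nat_lit 2804) (.e (nat_lit 188419) (nat_lit 0) (.e (nat_lit 1855) (nat_lit 124) (.e (nat_lit 557109) (nat_lit 15) (.e (nat_lit 188434) (nat_lit 20) (.e (nat_lit 3271) (nat_lit 199) .nil))))) .nil)) 
(.lf (nat_lit 268586) (.g (nat_lit 1645) (.e (nat_lit 188420) (nat_lit 0) (.e (nat_lit 1855) (nat_lit 124) (.e (nat_lit 557100) (nat_lit 13) (.e (nat_lit 172124) (nat_lit 14) (.e (nat_lit 491537) (nat_lit 2) .nil))))) .nil))) (.nd (nat_lit 5) 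
(.lf (nat_lit 268570) (.g (nat_lit 1879) (.e (nat_lit 188419) (nat_lit 0) (.e (nat_lit 2160) (nat_lit 143) (.e (nat_lit 712755) (nat_lit 30) (.e (nat_lit 450563) (nat_lit 0) (.e (nat_lit 5539) (nat_lit 306) (.e (nat_lit 7936) (nat_lit 166) .nil)))))) (.g (nat_lit 4) .nil .nil))) 
(.lf (nat_lit 268602) (.g (nat_lit 2374) (.e (nat_lit 188420) (nat_lit 0) (.e (nat_lit 1855) (nat_lit 124) (.e (nat_lit 557109) (nat_lit 15) (.e (nat_lit 188455) (nat_lit 24) (.e (nat_lit 237312) (nat_lit 134) (.e (nat_lit 2647) (nat_lit 166) .nil)))))) (.g (nat_lit 4) .nil .nil)))))) (.nd (nat_lit 3) (.nd (nat_lit 4) (.nd (nat_lit 5) 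
(.lf (nat_lit 268550) (.g (nat_lit 1012) (.e (nat_lit 188419) (nat_lit 0) (.e (nat_lit 1846) (nat_lit 124) (.e (nat_lit 557107) (nat_lit 15) (.e (nat_lit 188420) (nat_lit 0) .nil)))) .nil)) 
(.lf (nat_lit 268582) (.g (nat_lit 573) (.e (nat_lit 188420) (nat_lit 0) (.e (nat_lit 1800) (nat_lit 119) (.e (nat_lit 524032) (nat_lit 3) .nil))) .nil))) (.nd (nat_lit 5) 
(.lf (nat_lit 268566) (.g (nat_lit 1879) (.e (nat_lit 188419) (nat_lit 0) (.e (nat_lit 2160) (nat_lit 143) (.e (nat_lit 712752) (nat_lit 29) (.e (nat_lit 442421) (nat_lit 21) (.e (nat_lit 164345) (nat_lit 240) (.e (nat_lit 2650) (nat_lit 166) .nil)))))) (.g (nat_lit 4) .nil .nil))) 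
(.lf (nat_lit 268598) (.g (nat_lit 1942) (.e (nat_lit 188420) (nat_lit 0) (.e (nat_lit 1855) (nat_lit 124) (.e (nat_lit 557109) (nat_lit 15) (.e (nat_lit 188420) (nat_lit 0) .nil)))) .nil)))) (.nd (nat_lit 4) (.nd (nat_lit 5) 
(.lf (nat_lit 268558) (.g (nat_lit 2423) (.e (nat_lit 188419) (nat_lit 0) (.e (nat_lit 1856) (nat_lit 124) (.e (nat_lit 557100) (nat_lit 13) (.e (nat_lit 172119) (nat_lit 12) (.e (nat_lit 475184) (nat_lit 29) .nil))))) .nil)) 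
(.lf (nat_lit 268590) (.g (nat_lit 2059) (.e (nat_lit 188420) (nat_lit 0) (.e (nat_lit 1855) (nat_lit 124) (.e (nat_lit 557103) (nat_lit 14) (.e (nat_lit 180287) (nat_lit 45) .nil)))) .nil))) (.nd (nat_lit 5) 
(.lf (nat_lit 268574) (.g (nat_lit 1234) (.e (nat_lit 188420) (nat_lit 0) (.e (nat_lit 1784) (nat_lit 119) (.e (nat_lit 516129) (nat_lit 3) (.e (nat_lit 221193) (nat_lit 11) (.e (nat_lit 336010) (nat_lit 2) .nil))))) .nil)) 
(.lf (nat_lit 268606) (.g (nat_lit 1406) (.e (nat_lit 188420) (nat_lit 0) (.e (nat_lit 1856) (nat_lit 124) (.e (nat_lit 557100) (nat_lit 13) (.e (nat_lit 172034) (nat_lit 0) .nil)))) .nil))))))) (.nd (nat_lit 1) (.nd (nat_lit 2) (.nd (nat_lit 3) (.nd (nat_lit 4) (.nd (nat_lit 5) 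
(.lf (nat_lit 268545) (.g (nat_lit 2084) (.e (nat_lit 188418) (nat_lit 0) (.e (nat_lit 2175) (nat_lit 143) (.e (nat_lit 712752) (nat_lit 29) (.e (nat_lit 442374) (nat_lit 0) (.e (nat_lit 2059) (nat_lit 142) (.e (nat_lit 704598) (nat_lit 6) .nil)))))) (.g (nat_lit 5) .nil .nil))) 
(.lf (nat_lit 268577) (.g (nat_lit 1288) (.e (nat_lit 188420) (nat_lit 0) (.e (nat_lit 1798) (nat_lit 119) (.e (nat_lit 516131) (nat_lit 3) (.e (nat_lit 221194) (nat_lit 11) (.e (nat_lit 336010) (nat_lit 2) .nil))))) .nil))) (.nd (nat_lit 5) 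
(.lf (nat_lit 268561) (.g (nat_lit 456) (.e (nat_lit 188419) (nat_lit 0) (.e (nat_lit 1856) (nat_lit 124) (.e (nat_lit 557109) (nat_lit 15) .nil))) .nil)) 
(.lf (nat_lit 268593) (.g (nat_lit 909) (.e (nat_lit 188420) (nat_lit 0) (.e (nat_lit 1855) (nat_lit 124) (.e (nat_lit 557105) (nat_lit 14) (.e (nat_lit 188160) (nat_lit 35) .nil)))) .nil)))) (.nd (nat_lit 4) (.nd (nat_lit 5) 
(.lf (nat_lit 268553) (.g (nat_lit 1272) (.e (nat_lit 188419) (nat_lit 0) (.e (nat_lit 1855) (nat_lit 124) (.e (nat_lit 557107) (nat_lit 15) (.e (nat_lit 188440) (nat_lit 20) .nil)))) .nil)) 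
(.lf (nat_lit 268585) (.g (nat_lit 1640) (.e (nat_lit 188420) (nat_lit 0) (.e (nat_lit 1855) (nat_lit 124) (.e (nat_lit 557100) (nat_lit 13) (.e (nat_lit 172079) (nat_lit 7) (.e (nat_lit 409631) (nat_lit 12) .nil))))) .nil))) (.nd (nat_lit 5) 
(.lf (nat_lit 268569) (.g (nat_lit 2228) (.e (nat_lit 188419) (nat_lit 0) (.e (nat_lit 2160) (nat_lit 143) (.e (nat_lit 712755) (nat_lit 30) (.e (nat_lit 450563) (nat_lit 0) (.e (nat_lit 5537) (nat_lit 306) (.e (nat_lit 7936) (nat_lit 166) .nil)))))) (.g (nat_lit 5) .nil .nil))) 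
(.lf (nat_lit 268601) (.g (nat_lit 2970) (.e (nat_lit 188420) (nat_lit 0) (.e (nat_lit 1855) (nat_lit 124) (.e (nat_lit 557109) (nat_lit 15) (.e (nat_lit 188455) (nat_lit 24) (.e (nat_lit 237312) (nat_lit 134) (.e (nat_lit 2645) (nat_lit 166) .nil)))))) (.g (nat_lit 4) .nil .nil)))))) (.nd (nat_lit 3) (.nd (nat_lit 4) (.nd (nat_lit 5) 
(.lf (nat_lit 268549) (.g (nat_lit 1118) (.e (nat_lit 188418) (nat_lit 0) (.e (nat_lit 2175) (nat_lit 143) (.e (nat_lit 712755) (nat_lit 30) (.e (nat_lit 458496) (nat_lit 0) .nil)))) .nil)) 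
(.lf (nat_lit 268581) (.g (nat_lit 1573) (.e (nat_lit 188420) (nat_lit 0) (.e (nat_lit 1800) (nat_lit 119) (.e (nat_lit 516131) (nat_lit 3) (.e (nat_lit 221194) (nat_lit 11) (.e (nat_lit 336003) (nat_lit 2) .nil))))) .nil))) (.nd (nat_lit 5) 
(.lf (nat_lit 268565) (.g (nat_lit 2280) (.e (nat_lit 188419) (nat_lit 0) (.e (nat_lit 1856) (nat_lit 124) (.e (nat_lit 557109) (nat_lit 15) (.e (nat_lit 188420) (nat_lit 0) .nil)))) .nil)) 
(.lf (nat_lit 268597) (.g (nat_lit 1805) (.e (nat_lit 188420) (nat_lit 0) (.e (nat_lit 1855) (nat_lit 124) (.e (nat_lit 557109) (nat_lit 15) (.e (nat_lit 188418) (nat_lit 0) .nil)))) .nil)))) (.nd (nat_lit 4) (.nd (nat_lit 5) 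
(.lf (nat_lit 268557) (.g (nat_lit 1473) (.e (nat_lit 188419) (nat_lit 0) (.e (nat_lit 1855) (nat_lit 124) (.e (nat_lit 557109) (nat_lit 15) (.e (nat_lit 188455) (nat_lit 24) .nil)))) .nil)) 
(.lf (nat_lit 268589) (.g (nat_lit 1684) (.e (nat_lit 188420) (nat_lit 0) (.e (nat_lit 1855) (nat_lit 124) (.e (nat_lit 557103) (nat_lit 14) (.e (nat_lit 188160) (nat_lit 32) .nil)))) .nil))) (.nd (nat_lit 5) 
(.lf (nat_lit 268573) (.g (nat_lit 1087) (.e (nat_lit 188420) (nat_lit 0) (.e (nat_lit 1784) (nat_lit 119) (.e (nat_lit 516129) (nat_lit 3) (.e (nat_lit 221190) (nat_lit 11) (.e (nat_lit 336012) (nat_lit 2) .nil))))) .nil)) 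
(.lf (nat_lit 268605) (.g (nat_lit 451) (.e (nat_lit 188420) (nat_lit 0) (.e (nat_lit 1856) (nat_lit 124) (.e (nat_lit 557098) (nat_lit 13) .nil))) .nil)))))) (.nd (nat_lit 2) (.nd (nat_lit 3) (.nd (nat_lit 4) (.nd (nat_lit 5) 
(.lf (nat_lit 268547) (.g (nat_lit 1264) (.e (nat_lit 188418) (nat_lit 0) (.e (nat_lit 2175) (nat_lit 143) (.e (nat_lit 712752) (nat_lit 29) (.e (nat_lit 442382) (nat_lit 8) (.e (nat_lit 163584) (nat_lit 6) .nil))))) (.g (nat_lit 4) .nil .nil))) 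
(.lf (nat_lit 268579) (.g (nat_lit 1254) (.e (nat_lit 188420) (nat_lit 0) (.e (nat_lit 1800) (nat_lit 119) (.e (nat_lit 516124) (nat_lit 2) (.e (nat_lit 213019) (nat_lit 9) (.e (nat_lit 247) (nat_lit 21) .nil))))) .nil))) (.nd (nat_lit 5) 
(.lf (nat_lit 268563) (.g (nat_lit 2415) (.e (nat_lit 188419) (nat_lit 0) (.e (nat_lit 1856) (nat_lit 124) (.e (nat_lit 557109) (nat_lit 15) (.e (nat_lit 188418) (nat_lit 0) (.e (nat_lit 1856) (nat_lit 124) .nil))))) .nil)) 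
(.lf (nat_lit 268595) (.g (nat_lit 909) (.e (nat_lit 188420) (nat_lit 0) (.e (nat_lit 1855) (nat_lit 124) (.e (nat_lit 557105) (nat_lit 14) (.e (nat_lit 188160) (nat_lit 45) .nil)))) .nil)))) (.nd (nat_lit 4) (.nd (nat_lit 5) 
(.lf (nat_lit 268555) (.g (nat_lit 2796) (.e (nat_lit 188419) (nat_lit 0) (.e (nat_lit 1855) (nat_lit 124) (.e (nat_lit 557109) (nat_lit 15) (.e (nat_lit 188434) (nat_lit 20) (.e (nat_lit 3272) (nat_lit 199) .nil))))) .nil)) 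
(.lf (nat_lit 268587) (.g (nat_lit 1869) (.e (nat_lit 188420) (nat_lit 0) (.e (nat_lit 1855) (nat_lit 124) (.e (nat_lit 557103) (nat_lit 14) (.e (nat_lit 180277) (nat_lit 32) .nil)))) .nil))) (.nd (nat_lit 5) 
(.lf (nat_lit 268571) (.g (nat_lit 954) (.e (nat_lit 188419) (nat_lit 0) (.e (nat_lit 2160) (nat_lit 143) (.e (nat_lit 712755) (nat_lit 30) (.e (nat_lit 450566) (nat_lit 0) .nil)))) .nil)) 
(.lf (nat_lit 268603) (.g (nat_lit 294) (.e (nat_lit 188420) (nat_lit 0) (.e (nat_lit 1856) (nat_lit 124) (.e (nat_lit 557072) (nat_lit 9) .nil))) .nil))))) (.nd (nat_lit 3) (.nd (nat_lit 4) (.nd (nat_lit 5) 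
(.lf (nat_lit 268551) (.g (nat_lit 1021) (.e (nat_lit 188419) (nat_lit 0) (.e (nat_lit 1846) (nat_lit 124) (.e (nat_lit 557109) (nat_lit 15) (.e (nat_lit 188419) (nat_lit 0) .nil)))) .nil)) 
(.lf (nat_lit 268583) (.g (nat_lit 972) (.e (nat_lit 188420) (nat_lit 0) (.e (nat_lit 1846) (nat_lit 124) (.e (nat_lit 557104) (nat_lit 14) (.e (nat_lit 180284) (nat_lit 45) .nil)))) .nil))) (.nd (nat_lit 5) 
(.lf (nat_lit 268567) (.g (nat_lit 3461) (.e (nat_lit 188419) (nat_lit 0) (.e (nat_lit 2160) (nat_lit 143) (.e (nat_lit 712752) (nat_lit 29) (.e (nat_lit 442421) (nat_lit 21) (.e (nat_lit 164347) (nat_lit 240) (.e (nat_lit 2650) (nat_lit 166) .nil)))))) (.g (nat_lit 0) .nil .nil))) 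
(.lf (nat_lit 268599) (.g (nat_lit 1251) (.e (nat_lit 188420) (nat_lit 0) (.e (nat_lit 1855) (nat_lit 124) (.e (nat_lit 557109) (nat_lit 15) (.e (nat_lit 196352) (nat_lit 0) .nil)))) .nil)))) (.nd (nat_lit 4) (.nd (nat_lit 5) 
(.lf (nat_lit 268559) (.g (nat_lit 1432) (.e (nat_lit 188419) (nat_lit 0) (.e (nat_lit 1856) (nat_lit 124) (.e (nat_lit 557100) (nat_lit 13) (.e (nat_lit 172120) (nat_lit 12) .nil)))) .nil)) 
(.lf (nat_lit 268591) (.g (nat_lit 1169) (.e (nat_lit 188420) (nat_lit 0) (.e (nat_lit 1855) (nat_lit 124) (.e (nat_lit 557104) (nat_lit 14) (.e (nat_lit 188160) (nat_lit 32) .nil)))) .nil))) (.nd (nat_lit 5) 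
(.lf (nat_lit 268575) (.g (nat_lit 1508) (.e (nat_lit 188420) (nat_lit 0) (.e (nat_lit 1798) (nat_lit 119) (.e (nat_lit 516129) (nat_lit 3) (.e (nat_lit 221193) (nat_lit 11) (.e (nat_lit 336009) (nat_lit 2) .nil))))) .nil)) 
(.lf (nat_lit 268607) (.g (nat_lit 1406) (.e (nat_lit 188420) (nat_lit 0) (.e (nat_lit 1856) (nat_lit 124) (.e (nat_lit 557100) (nat_lit 13) (.e (nat_lit 172037) (nat_lit 0) .nil)))) .nil))))))))

noncomputable def tv3449 : DT := (.nd (nat_lit 0) (.nd (nat_lit 1) (.nd (nat_lit 2) (.nd (nat_lit 3) (.nd (nat_lit 4) (.nd (nat_lit 5) 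
(.lf (nat_lit 268608) (.g (nat_lit 1743) (.e (nat_lit 188420) (nat_lit 0) (.e (nat_lit 1856) (nat_lit 124) (.e (nat_lit 557100) (nat_lit 13) (.e (nat_lit 172079) (nat_lit 7) (.e (nat_lit 409630) (nat_lit 12) .nil))))) .nil)) 
(.lf (nat_lit 268640) (.g (nat_lit 1981) (.e (nat_lit 188420) (nat_lit 0) (.e (nat_lit 2160) (nat_lit 143) (.e (nat_lit 712755) (nat_lit 30) (.e (nat_lit 450563) (nat_lit 0) (.e (nat_lit 5537) (nat_lit 306) (.e (nat_lit 7936) (nat_lit 166) .nil)))))) (.g (nat_lit 5) .nil .nil)))) (.nd (nat_lit 5) 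
(.lf (nat_lit 268624) (.g (nat_lit 2567) (.e (nat_lit 188420) (nat_lit 0) (.e (nat_lit 1856) (nat_lit 124) (.e (nat_lit 557109) (nat_lit 15) (.e (nat_lit 188418) (nat_lit 0) (.e (nat_lit 1856) (nat_lit 124) (.e (nat_lit 557107) (nat_lit 15) .nil)))))) (.g (nat_lit 4) .nil .nil))) 
(.lf (nat_lit 268656) (.g (nat_lit 1141) (.e (nat_lit 188420) (nat_lit 0) (.e (nat_lit 2175) (nat_lit 143) (.e (nat_lit 712752) (nat_lit 29) (.e (nat_lit 442382) (nat_lit 8) (.e (nat_lit 163584) (nat_lit 6) .nil))))) (.g (nat_lit 4) .nil .nil))))) (.nd (nat_lit 4) (.nd (nat_lit 5) 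
(.lf (nat_lit 268616) (.g (nat_lit 2134) (.e (nat_lit 188420) (nat_lit 0) (.e (nat_lit 1856) (nat_lit 124) (.e (nat_lit 557105) (nat_lit 14) (.e (nat_lit 180282) (nat_lit 45) (.e (nat_lit 2570) (nat_lit 160) (.e (nat_lit 32809) (nat_lit 20) .nil)))))) (.g (nat_lit 5) .nil .nil))) 
(.lf (nat_lit 268648) (.g (nat_lit 957) (.e (nat_lit 188420) (nat_lit 0) (.e (nat_lit 2174) (nat_lit 143) (.e (nat_lit 712750) (nat_lit 29) (.e (nat_lit 442374) (nat_lit 0) .nil)))) .nil))) (.nd (nat_lit 5) 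
(.lf (nat_lit 268632) (.g (nat_lit 1587) (.e (nat_lit 188420) (nat_lit 0) (.e (nat_lit 2058) (nat_lit 142) (.e (nat_lit 704598) (nat_lit 6) (.e (nat_lit 188439) (nat_lit 20) (.e (nat_lit 3409) (nat_lit 212) (.e (nat_lit 655380) (nat_lit 6) .nil)))))) (.g (nat_lit 0) .nil .nil))) 
(.lf (nat_lit 268664) (.g (nat_lit 1401) (.e (nat_lit 196352) (nat_lit 0) (.e (nat_lit 1786) (nat_lit 119) (.e (nat_lit 516129) (nat_lit 3) (.e (nat_lit 221193) (nat_lit 11) (.e (nat_lit 336009) (nat_lit 2) .nil))))) .nil))))) (.nd (nat_lit 3) (.nd (nat_lit 4) (.nd (nat_lit 5) 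
(.lf (nat_lit 268612) (.g (nat_lit 3646) (.e (nat_lit 188420) (nat_lit 0) (.e (nat_lit 1856) (nat_lit 124) (.e (nat_lit 557101) (nat_lit 13) (.e (nat_lit 172119) (nat_lit 12) (.e (nat_lit 475185) (nat_lit 29) (.e (nat_lit 557107) (nat_lit 15) .nil)))))) (.g (nat_lit 6) .nil .nil))) 
(.lf (nat_lit 268644) (.g (nat_lit 1660) (.e (nat_lit 188420) (nat_lit 0) (.e (nat_lit 2173) (nat_lit 143) (.e (nat_lit 712752) (nat_lit 29) (.e (nat_lit 442421) (nat_lit 21) (.e (nat_lit 164346) (nat_lit 240) (.e (nat_lit 2648) (nat_lit 166) .nil)))))) (.g (nat_lit 4) .nil .nil)))) (.nd (nat_lit 5) 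
(.lf (nat_lit 268628) (.g (nat_lit 966) (.e (nat_lit 188420) (nat_lit 0) (.e (nat_lit 2058) (nat_lit 142) (.e (nat_lit 704598) (nat_lit 6) (.e (nat_lit 188417) (nat_lit 0) (.e (nat_lit 2148) (nat_lit 142) (.e (nat_lit 704597) (nat_lit 6) .nil)))))) (.g (nat_lit 0) .nil .nil))) 
(.lf (nat_lit 268660) (.g (nat_lit 1149) (.e (nat_lit 188420) (nat_lit 0) (.e (nat_lit 2175) (nat_lit 143) (.e (nat_lit 712755) (nat_lit 30) (.e (nat_lit 458496) (nat_lit 0) .nil)))) .nil)))) (.nd (nat_lit 4) (.nd (nat_lit 5) 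
(.lf (nat_lit 268620) (.g (nat_lit 1856) (.e (nat_lit 188420) (nat_lit 0) (.e (nat_lit 1856) (nat_lit 124) (.e (nat_lit 557105) (nat_lit 14) (.e (nat_lit 180285) (nat_lit 45) (.e (nat_lit 2571) (nat_lit 160) (.e (nat_lit 32809) (nat_lit 20) .nil)))))) (.g (nat_lit 4) .nil .nil))) 
(.lf (nat_lit 268652) (.g (nat_lit 2491) (.e (nat_lit 188420) (nat_lit 0) (.e (nat_lit 2174) (nat_lit 143) (.e (nat_lit 712755) (nat_lit 30) (.e (nat_lit 450593) (nat_lit 16) (.e (nat_lit 655380) (nat_lit 6) .nil))))) (.g (nat_lit 0) .nil .nil)))) (.nd (nat_lit 5) 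
(.lf (nat_lit 268636) (.g (nat_lit 1853) (.e (nat_lit 188420) (nat_lit 0) (.e (nat_lit 2058) (nat_lit 142) (.e (nat_lit 704599) (nat_lit 6) (.e (nat_lit 188440) (nat_lit 20) (.e (nat_lit 3409) (nat_lit 212) (.e (nat_lit 655380) (nat_lit 6) .nil)))))) (.g (nat_lit 0) .nil .nil))) 
(.lf (nat_lit 268668) (.g (nat_lit 1608) (.e (nat_lit 196352) (nat_lit 0) (.e (nat_lit 1788) (nat_lit 119) (.e (nat_lit 516129) (nat_lit 3) (.e (nat_lit 221193) (nat_lit 11) (.e (nat_lit 336010) (nat_lit 2) .nil))))) .nil)))))) (.nd (nat_lit 2) (.nd (nat_lit 3) (.nd (nat_lit 4) (.nd (nat_lit 5) 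
(.lf (nat_lit 268610) (.g (nat_lit 897) (.e (nat_lit 188420) (nat_lit 0) (.e (nat_lit 1856) (nat_lit 124) (.e (nat_lit 557100) (nat_lit 13) (.e (nat_lit 172124) (nat_lit 14) .nil)))) .nil)) 
(.lf (nat_lit 268642) (.g (nat_lit 1661) (.e (nat_lit 188420) (nat_lit 0) (.e (nat_lit 2160) (nat_lit 143) (.e (nat_lit 712755) (nat_lit 30) (.e (nat_lit 450563) (nat_lit 0) (.e (nat_lit 7936) (nat_lit 306) (.e (nat_lit 2645) (nat_lit 166) .nil)))))) (.g (nat_lit 4) .nil .nil)))) (.nd (nat_lit 5) 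
(.lf (nat_lit 268626) (.g (nat_lit 492) (.e (nat_lit 188420) (nat_lit 0) (.e (nat_lit 2056) (nat_lit 142) (.e (nat_lit 704598) (nat_lit 6) (.e (nat_lit 188417) (nat_lit 0) (.e (nat_lit 2148) (nat_lit 142) (.e (nat_lit 704597) (nat_lit 6) .nil)))))) (.g (nat_lit 0) .nil .nil))) 
(.lf (nat_lit 268658) (.g (nat_lit 841) (.e (nat_lit 188420) (nat_lit 0) (.e (nat_lit 2175) (nat_lit 143) (.e (nat_lit 712755) (nat_lit 30) (.e (nat_lit 450563) (nat_lit 0) .nil)))) .nil)))) (.nd (nat_lit 4) (.nd (nat_lit 5) 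
(.lf (nat_lit 268618) (.g (nat_lit 2058) (.e (nat_lit 188420) (nat_lit 0) (.e (nat_lit 1856) (nat_lit 124) (.e (nat_lit 557105) (nat_lit 14) (.e (nat_lit 180284) (nat_lit 45) (.e (nat_lit 2571) (nat_lit 160) (.e (nat_lit 32809) (nat_lit 20) .nil)))))) (.g (nat_lit 6) .nil .nil))) 
(.lf (nat_lit 268650) (.g (nat_lit 1107) (.e (nat_lit 188420) (nat_lit 0) (.e (nat_lit 2174) (nat_lit 143) (.e (nat_lit 712752) (nat_lit 29) (.e (nat_lit 442374) (nat_lit 0) .nil)))) .nil))) (.nd (nat_lit 5) 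
(.lf (nat_lit 268634) (.g (nat_lit 687) (.e (nat_lit 188420) (nat_lit 0) (.e (nat_lit 2058) (nat_lit 142) (.e (nat_lit 704599) (nat_lit 6) (.e (nat_lit 188428) (nat_lit 20) .nil)))) .nil)) 
(.lf (nat_lit 268666) (.g (nat_lit 1786) (.e (nat_lit 196352) (nat_lit 0) (.e (nat_lit 1788) (nat_lit 119) (.e (nat_lit 516123) (nat_lit 2) (.e (nat_lit 213032) (nat_lit 11) (.e (nat_lit 24605) (nat_lit 2) .nil))))) .nil))))) (.nd (nat_lit 3) (.nd (nat_lit 4) (.nd (nat_lit 5) 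
(.lf (nat_lit 268614) (.g (nat_lit 2439) (.e (nat_lit 188420) (nat_lit 0) (.e (nat_lit 1856) (nat_lit 124) (.e (nat_lit 557105) (nat_lit 14) (.e (nat_lit 180227) (nat_lit 0) (.e (nat_lit 4598) (nat_lit 269) .nil))))) .nil)) 
(.lf (nat_lit 268646) (.g (nat_lit 1478) (.e (nat_lit 188420) (nat_lit 0) (.e (nat_lit 2174) (nat_lit 143) (.e (nat_lit 712745) (nat_lit 27) (.e (nat_lit 426230) (nat_lit 9) (.e (nat_lit 426443) (nat_lit 19) (.e (nat_lit 114432) (nat_lit 6) .nil)))))) (.g (nat_lit 5) .nil .nil)))) (.nd (nat_lit 5) 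
(.lf (nat_lit 268630) (.g (nat_lit 1576) (.e (nat_lit 188420) (nat_lit 0) (.e (nat_lit 2058) (nat_lit 142) (.e (nat_lit 704598) (nat_lit 6) (.e (nat_lit 188420) (nat_lit 0) (.e (nat_lit 2058) (nat_lit 142) (.e (nat_lit 704598) (nat_lit 6) .nil)))))) (.g (nat_lit 0) .nil .nil))) 
(.lf (nat_lit 268662) (.g (nat_lit 1209) (.e (nat_lit 196352) (nat_lit 0) (.e (nat_lit 1781) (nat_lit 119) (.e (nat_lit 516130) (nat_lit 3) (.e (nat_lit 221194) (nat_lit 11) (.e (nat_lit 336010) (nat_lit 2) .nil))))) .nil)))) (.nd (nat_lit 4) (.nd (nat_lit 5) 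
(.lf (nat_lit 268622) (.g (nat_lit 2182) (.e (nat_lit 188420) (nat_lit 0) (.e (nat_lit 1856) (nat_lit 124) (.e (nat_lit 557105) (nat_lit 14) (.e (nat_lit 180288) (nat_lit 45) (.e (nat_lit 2571) (nat_lit 160) (.e (nat_lit 32809) (nat_lit 20) .nil)))))) (.g (nat_lit 6) .nil .nil))) 
(.lf (nat_lit 268654) (.g (nat_lit 312) (.e (nat_lit 188420) (nat_lit 0) (.e (nat_lit 2175) (nat_lit 143) (.e (nat_lit 712752) (nat_lit 29) .nil))) .nil))) (.nd (nat_lit 5) 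
(.lf (nat_lit 268638) (.g (nat_lit 414) (.e (nat_lit 188420) (nat_lit 0) (.e (nat_lit 2059) (nat_lit 142) (.e (nat_lit 704598) (nat_lit 6) .nil))) .nil)) 
(.lf (nat_lit 268670) (.g (nat_lit 1140) (.e (nat_lit 196352) (nat_lit 0) (.e (nat_lit 1788) (nat_lit 119) (.e (nat_lit 516130) (nat_lit 3) (.e (nat_lit 221190) (nat_lit 11) (.e (nat_lit 336012) (nat_lit 2) .nil))))) .nil))))))) (.nd (nat_lit 1) (.nd (nat_lit 2) (.nd (nat_lit 3) (.nd (nat_lit 4) (.nd (nat_lit 5) 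
(.lf (nat_lit 268609) (.g (nat_lit 1033) (.e (nat_lit 188420) (nat_lit 0) (.e (nat_lit 1856) (nat_lit 124) (.e (nat_lit 557100) (nat_lit 13) (.e (nat_lit 172120) (nat_lit 12) .nil)))) .nil)) 
(.lf (nat_lit 268641) (.g (nat_lit 1614) (.e (nat_lit 188420) (nat_lit 0) (.e (nat_lit 2160) (nat_lit 143) (.e (nat_lit 712755) (nat_lit 30) (.e (nat_lit 450563) (nat_lit 0) (.e (nat_lit 5539) (nat_lit 306) .nil))))) .nil))) (.nd (nat_lit 5) 
(.lf (nat_lit 268625) (.g (nat_lit 2509) (.e (nat_lit 188420) (nat_lit 0) (.e (nat_lit 1856) (nat_lit 124) (.e (nat_lit 557109) (nat_lit 15) (.e (nat_lit 188419) (nat_lit 0) (.e (nat_lit 1855) (nat_lit 124) .nil))))) .nil)) 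
(.lf (nat_lit 268657) (.g (nat_lit 311) (.e (nat_lit 188420) (nat_lit 0) (.e (nat_lit 2175) (nat_lit 143) (.e (nat_lit 712755) (nat_lit 30) .nil))) .nil)))) (.nd (nat_lit 4) (.nd (nat_lit 5) 
(.lf (nat_lit 268617) (.g (nat_lit 1981) (.e (nat_lit 188420) (nat_lit 0) (.e (nat_lit 1856) (nat_lit 124) (.e (nat_lit 557105) (nat_lit 14) (.e (nat_lit 180284) (nat_lit 45) (.e (nat_lit 2570) (nat_lit 160) (.e (nat_lit 32809) (nat_lit 20) .nil)))))) (.g (nat_lit 6) .nil .nil))) 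
(.lf (nat_lit 268649) (.g (nat_lit 2722) (.e (nat_lit 188420) (nat_lit 0) (.e (nat_lit 2174) (nat_lit 143) (.e (nat_lit 712750) (nat_lit 29) (.e (nat_lit 442374) (nat_lit 0) (.e (nat_lit 2059) (nat_lit 142) (.e (nat_lit 704598) (nat_lit 6) .nil)))))) (.g (nat_lit 0) .nil .nil)))) (.nd (nat_lit 5) 
(.lf (nat_lit 268633) (.g (nat_lit 1745) (.e (nat_lit 188420) (nat_lit 0) (.e (nat_lit 2058) (nat_lit 142) (.e (nat_lit 704599) (nat_lit 6) (.e (nat_lit 188418) (nat_lit 0) (.e (nat_lit 2058) (nat_lit 142) (.e (nat_lit 704598) (nat_lit 6) .nil)))))) (.g (nat_lit 6) .nil .nil))) 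
(.lf (nat_lit 268665) (.g (nat_lit 1127) (.e (nat_lit 196352) (nat_lit 0) (.e (nat_lit 1786) (nat_lit 119) (.e (nat_lit 516131) (nat_lit 3) (.e (nat_lit 221194) (nat_lit 11) (.e (nat_lit 336010) (nat_lit 2) .nil))))) .nil))))) (.nd (nat_lit 3) (.nd (nat_lit 4) (.nd (nat_lit 5) 
(.lf (nat_lit 268613) (.g (nat_lit 3298) (.e (nat_lit 188420) (nat_lit 0) (.e (nat_lit 1856) (nat_lit 124) (.e (nat_lit 557103) (nat_lit 14) (.e (nat_lit 180278) (nat_lit 32) (.e (nat_lit 1234) (nat_lit 91) (.e (nat_lit 90176) (nat_lit 15) .nil)))))) (.g (nat_lit 6) .nil .nil))) 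
(.lf (nat_lit 268645) (.g (nat_lit 1499) (.e (nat_lit 188420) (nat_lit 0) (.e (nat_lit 2174) (nat_lit 143) (.e (nat_lit 712745) (nat_lit 27) (.e (nat_lit 426228) (nat_lit 9) (.e (nat_lit 426443) (nat_lit 19) (.e (nat_lit 114432) (nat_lit 6) .nil)))))) (.g (nat_lit 5) .nil .nil)))) (.nd (nat_lit 5) 
(.lf (nat_lit 268629) (.g (nat_lit 738) (.e (nat_lit 188420) (nat_lit 0) (.e (nat_lit 2058) (nat_lit 142) (.e (nat_lit 704598) (nat_lit 6) (.e (nat_lit 188418) (nat_lit 0) .nil)))) .nil)) 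
(.lf (nat_lit 268661) (.g (nat_lit 937) (.e (nat_lit 196352) (nat_lit 0) (.e (nat_lit 1781) (nat_lit 119) (.e (nat_lit 516130) (nat_lit 3) (.e (nat_lit 221193) (nat_lit 11) (.e (nat_lit 336010) (nat_lit 2) .nil))))) .nil)))) (.nd (nat_lit 4) (.nd (nat_lit 5) 
(.lf (nat_lit 268621) (.g (nat_lit 2160) (.e (nat_lit 188420) (nat_lit 0) (.e (nat_lit 1856) (nat_lit 124) (.e (nat_lit 557105) (nat_lit 14) (.e (nat_lit 180288) (nat_lit 45) (.e (nat_lit 2570) (nat_lit 160) (.e (nat_lit 32809) (nat_lit 20) .nil)))))) (.g (nat_lit 6) .nil .nil))) 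
(.lf (nat_lit 268653) (.g (nat_lit 796) (.e (nat_lit 188420) (nat_lit 0) (.e (nat_lit 2175) (nat_lit 143) (.e (nat_lit 712750) (nat_lit 29) (.e (nat_lit 442399) (nat_lit 20) .nil)))) .nil))) (.nd (nat_lit 5) 
(.lf (nat_lit 268637) (.g (nat_lit 860) (.e (nat_lit 188420) (nat_lit 0) (.e (nat_lit 2058) (nat_lit 142) (.e (nat_lit 704851) (nat_lit 16) .nil))) .nil)) 
(.lf (nat_lit 268669) (.g (nat_lit 2102) (.e (nat_lit 196352) (nat_lit 0) (.e (nat_lit 1788) (nat_lit 119) (.e (nat_lit 516129) (nat_lit 3) (.e (nat_lit 221194) (nat_lit 11) (.e (nat_lit 336009) (nat_lit 2) .nil))))) .nil)))))) (.nd (nat_lit 2) (.nd (nat_lit 3) (.nd (nat_lit 4) (.nd (nat_lit 5) 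
(.lf (nat_lit 268611) (.g (nat_lit 1406) (.e (nat_lit 188420) (nat_lit 0) (.e (nat_lit 1856) (nat_lit 124) (.e (nat_lit 557100) (nat_lit 13) (.e (nat_lit 172125) (nat_lit 14) .nil)))) .nil)) 
(.lf (nat_lit 268643) (.g (nat_lit 978) (.e (nat_lit 188420) (nat_lit 0) (.e (nat_lit 2160) (nat_lit 143) (.e (nat_lit 712755) (nat_lit 30) (.e (nat_lit 458496) (nat_lit 0) .nil)))) .nil))) (.nd (nat_lit 5) 
(.lf (nat_lit 268627) (.g (nat_lit 1222) (.e (nat_lit 188420) (nat_lit 0) (.e (nat_lit 2056) (nat_lit 142) (.e (nat_lit 704598) (nat_lit 6) (.e (nat_lit 188420) (nat_lit 0) (.e (nat_lit 2059) (nat_lit 142) (.e (nat_lit 704598) (nat_lit 6) .nil)))))) (.g (nat_lit 0) .nil .nil))) 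
(.lf (nat_lit 268659) (.g (nat_lit 1407) (.e (nat_lit 188420) (nat_lit 0) (.e (nat_lit 2175) (nat_lit 143) (.e (nat_lit 712755) (nat_lit 30) (.e (nat_lit 450566) (nat_lit 0) .nil)))) .nil)))) (.nd (nat_lit 4) (.nd (nat_lit 5) 
(.lf (nat_lit 268619) (.g (nat_lit 1828) (.e (nat_lit 188420) (nat_lit 0) (.e (nat_lit 1856) (nat_lit 124) (.e (nat_lit 557105) (nat_lit 14) (.e (nat_lit 180285) (nat_lit 45) (.e (nat_lit 2570) (nat_lit 160) (.e (nat_lit 32809) (nat_lit 20) .nil)))))) (.g (nat_lit 4) .nil .nil))) 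
(.lf (nat_lit 268651) (.g (nat_lit 1898) (.e (nat_lit 188420) (nat_lit 0) (.e (nat_lit 2174) (nat_lit 143) (.e (nat_lit 712753) (nat_lit 30) (.e (nat_lit 450593) (nat_lit 16) (.e (nat_lit 655380) (nat_lit 6) .nil))))) (.g (nat_lit 0) .nil .nil)))) (.nd (nat_lit 5) 
(.lf (nat_lit 268635) (.g (nat_lit 773) (.e (nat_lit 188420) (nat_lit 0) (.e (nat_lit 2058) (nat_lit 142) (.e (nat_lit 704599) (nat_lit 6) (.e (nat_lit 188430) (nat_lit 20) .nil)))) .nil)) 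
(.lf (nat_lit 268667) (.g (nat_lit 1751) (.e (nat_lit 196352) (nat_lit 0) (.e (nat_lit 1788) (nat_lit 119) (.e (nat_lit 516129) (nat_lit 3) (.e (nat_lit 221193) (nat_lit 11) (.e (nat_lit 336009) (nat_lit 2) .nil))))) .nil))))) (.nd (nat_lit 3) (.nd (nat_lit 4) (.nd (nat_lit 5) 
(.lf (nat_lit 268615) (.g (nat_lit 1167) (.e (nat_lit 188420) (nat_lit 0) (.e (nat_lit 1856) (nat_lit 124) (.e (nat_lit 557105) (nat_lit 14) (.e (nat_lit 188160) (nat_lit 32) .nil)))) .nil)) 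
(.lf (nat_lit 268647) (.g (nat_lit 1470) (.e (nat_lit 188420) (nat_lit 0) (.e (nat_lit 2174) (nat_lit 143) (.e (nat_lit 712745) (nat_lit 27) (.e (nat_lit 426232) (nat_lit 9) (.e (nat_lit 426443) (nat_lit 19) (.e (nat_lit 114432) (nat_lit 6) .nil)))))) (.g (nat_lit 5) .nil .nil)))) (.nd (nat_lit 5) 
(.lf (nat_lit 268631) (.g (nat_lit 1697) (.e (nat_lit 188420) (nat_lit 0) (.e (nat_lit 2058) (nat_lit 142) (.e (nat_lit 704598) (nat_lit 6) (.e (nat_lit 188420) (nat_lit 0) (.e (nat_lit 2059) (nat_lit 142) (.e (nat_lit 704598) (nat_lit 6) .nil)))))) (.g (nat_lit 0) .nil .nil))) 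
(.lf (nat_lit 268663) (.g (nat_lit 1183) (.e (nat_lit 196352) (nat_lit 0) (.e (nat_lit 1784) (nat_lit 119) (.e (nat_lit 516129) (nat_lit 3) (.e (nat_lit 221193) (nat_lit 11) (.e (nat_lit 336010) (nat_lit 2) .nil))))) .nil)))) (.nd (nat_lit 4) (.nd (nat_lit 5) 
(.lf (nat_lit 268623) (.g (nat_lit 413) (.e (nat_lit 188420) (nat_lit 0) (.e (nat_lit 1856) (nat_lit 124) (.e (nat_lit 557107) (nat_lit 15) .nil))) .nil)) 
(.lf (nat_lit 268655) (.g (nat_lit 1140) (.e (nat_lit 188420) (nat_lit 0) (.e (nat_lit 2175) (nat_lit 143) (.e (nat_lit 712752) (nat_lit 29) (.e (nat_lit 442377) (nat_lit 0) .nil)))) .nil))) (.nd (nat_lit 5) 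
(.lf (nat_lit 268639) (.g (nat_lit 1820) (.e (nat_lit 188420) (nat_lit 0) (.e (nat_lit 2059) (nat_lit 142) (.e (nat_lit 704598) (nat_lit 6) (.e (nat_lit 188420) (nat_lit 0) (.e (nat_lit 2059) (nat_lit 142) (.e (nat_lit 704598) (nat_lit 6) .nil)))))) (.g (nat_lit 0) .nil .nil))) 
(.lf (nat_lit 268671) (.g (nat_lit 1363) (.e (nat_lit 196352) (nat_lit 0) (.e (nat_lit 1788) (nat_lit 119) (.e (nat_lit 516130) (nat_lit 3) (.e (nat_lit 221193) (nat_lit 11) (.e (nat_lit 336009) (nat_lit 2) .nil))))) .nil))))))))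

noncomputable def tv3450 : DT := (.nd (nat_lit 0) (.nd (nat_lit 1) (.nd (nat_lit 2) (.nd (nat_lit 3) (.nd (nat_lit 4) (.nd (nat_lit 5) (.nd (nat_lit 6) 
(.lf (nat_lit 268672) (.g (nat_lit 2030) (.e (nat_lit 196352) (nat_lit 0) (.e (nat_lit 1788) (nat_lit 119) (.e (nat_lit 516130) (nat_lit 3) (.e (nat_lit 221194) (nat_lit 11) (.e (nat_lit 336003) (nat_lit 2) .nil))))) .nil)) 
(.lf (nat_lit 268736) (.g (nat_lit 1848) (.e (nat_lit 196352) (nat_lit 0) (.e (nat_lit 1855) (nat_lit 124) (.e (nat_lit 557109) (nat_lit 15) (.e (nat_lit 188419) (nat_lit 0) (.e (nat_lit 1846) (nat_lit 124) .nil))))) .nil))) (.nd (nat_lit 6) 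
(.lf (nat_lit 268704) (.g (nat_lit 1747) (.e (nat_lit 196352) (nat_lit 0) (.e (nat_lit 1849) (nat_lit 124) (.e (nat_lit 557109) (nat_lit 15) (.e (nat_lit 188419) (nat_lit 0) (.e (nat_lit 1856) (nat_lit 124) .nil))))) .nil)) 
(.lf (nat_lit 268768) (.g (nat_lit 1296) (.e (nat_lit 196352) (nat_lit 0) (.e (nat_lit 1860) (nat_lit 124) (.e (nat_lit 557103) (nat_lit 14) (.e (nat_lit 180285) (nat_lit 45) .nil)))) .nil)))) (.nd (nat_lit 5) (.nd (nat_lit 6) 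
(.lf (nat_lit 268688) (.g (nat_lit 1163) (.e (nat_lit 196352) (nat_lit 0) (.e (nat_lit 1802) (nat_lit 119) (.e (nat_lit 516131) (nat_lit 3) (.e (nat_lit 221194) (nat_lit 11) (.e (nat_lit 336010) (nat_lit 2) .nil))))) .nil)) 
(.lf (nat_lit 268752) (.g (nat_lit 2235) (.e (nat_lit 196352) (nat_lit 0) (.e (nat_lit 1858) (nat_lit 124) (.e (nat_lit 557107) (nat_lit 15) (.e (nat_lit 188439) (nat_lit 20) (.e (nat_lit 3272) (nat_lit 199) .nil))))) .nil))) (.nd (nat_lit 6) 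
(.lf (nat_lit 268720) (.g (nat_lit 2003) (.e (nat_lit 196352) (nat_lit 0) (.e (nat_lit 1853) (nat_lit 124) (.e (nat_lit 557108) (nat_lit 15) (.e (nat_lit 188435) (nat_lit 20) .nil)))) .nil)) 
(.lf (nat_lit 268784) (.g (nat_lit 1852) (.e (nat_lit 196352) (nat_lit 0) (.e (nat_lit 2030) (nat_lit 140) (.e (nat_lit 688177) (nat_lit 16) (.e (nat_lit 65610) (nat_lit 10) (.e (nat_lit 344154) (nat_lit 35) .nil))))) .nil))))) (.nd (nat_lit 4) (.nd (nat_lit 5) (.nd (nat_lit 6) 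
(.lf (nat_lit 268680) (.g (nat_lit 1273) (.e (nat_lit 196352) (nat_lit 0) (.e (nat_lit 1799) (nat_lit 119) (.e (nat_lit 516129) (nat_lit 3) (.e (nat_lit 221194) (nat_lit 11) (.e (nat_lit 336010) (nat_lit 2) .nil))))) .nil)) 
(.lf (nat_lit 268744) (.g (nat_lit 1602) (.e (nat_lit 196352) (nat_lit 0) (.e (nat_lit 1858) (nat_lit 124) (.e (nat_lit 557105) (nat_lit 14) (.e (nat_lit 180277) (nat_lit 32) (.e (nat_lit 1234) (nat_lit 91) .nil))))) .nil))) (.nd (nat_lit 6) 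
(.lf (nat_lit 268712) (.g (nat_lit 1982) (.e (nat_lit 196352) (nat_lit 0) (.e (nat_lit 1853) (nat_lit 124) (.e (nat_lit 557103) (nat_lit 14) (.e (nat_lit 180277) (nat_lit 32) (.e (nat_lit 1234) (nat_lit 91) .nil))))) .nil)) 
(.lf (nat_lit 268776) (.g (nat_lit 1296) (.e (nat_lit 196352) (nat_lit 0) (.e (nat_lit 1860) (nat_lit 124) (.e (nat_lit 557107) (nat_lit 15) (.e (nat_lit 188440) (nat_lit 20) .nil)))) .nil)))) (.nd (nat_lit 5) (.nd (nat_lit 6) 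
(.lf (nat_lit 268696) (.g (nat_lit 1582) (.e (nat_lit 196352) (nat_lit 0) (.e (nat_lit 1848) (nat_lit 124) (.e (nat_lit 557108) (nat_lit 15) (.e (nat_lit 196352) (nat_lit 0) .nil)))) .nil)) 
(.lf (nat_lit 268760) (.g (nat_lit 1168) (.e (nat_lit 196352) (nat_lit 0) (.e (nat_lit 1859) (nat_lit 124) (.e (nat_lit 557103) (nat_lit 14) (.e (nat_lit 180277) (nat_lit 32) .nil)))) .nil))) (.nd (nat_lit 6) 
(.lf (nat_lit 268728) (.g (nat_lit 2190) (.e (nat_lit 196352) (nat_lit 0) (.e (nat_lit 1855) (nat_lit 124) (.e (nat_lit 557098) (nat_lit 13) (.e (nat_lit 172119) (nat_lit 12) (.e (nat_lit 475184) (nat_lit 29) .nil))))) .nil)) 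
(.lf (nat_lit 268792) (.g (nat_lit 1430) (.e (nat_lit 196352) (nat_lit 0) (.e (nat_lit 2030) (nat_lit 140) (.e (nat_lit 688186) (nat_lit 18) (.e (nat_lit 81959) (nat_lit 24) (.e (nat_lit 123146) (nat_lit 250) .nil))))) .nil)))))) (.nd (nat_lit 3) (.nd (nat_lit 4) (.nd (nat_lit 5) (.nd (nat_lit 6) 
(.lf (nat_lit 268676) (.g (nat_lit 1372) (.e (nat_lit 196352) (nat_lit 0) (.e (nat_lit 1796) (nat_lit 119) (.e (nat_lit 516129) (nat_lit 3) (.e (nat_lit 221193) (nat_lit 11) (.e (nat_lit 336010) (nat_lit 2) .nil))))) .nil)) 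
(.lf (nat_lit 268740) (.g (nat_lit 1045) (.e (nat_lit 196352) (nat_lit 0) (.e (nat_lit 1858) (nat_lit 124) (.e (nat_lit 557101) (nat_lit 13) (.e (nat_lit 172119) (nat_lit 12) .nil)))) .nil))) (.nd (nat_lit 6) 
(.lf (nat_lit 268708) (.g (nat_lit 1756) (.e (nat_lit 196352) (nat_lit 0) (.e (nat_lit 1853) (nat_lit 124) (.e (nat_lit 557097) (nat_lit 13) (.e (nat_lit 172124) (nat_lit 14) (.e (nat_lit 491537) (nat_lit 2) .nil))))) .nil)) 
(.lf (nat_lit 268772) (.g (nat_lit 1164) (.e (nat_lit 196352) (nat_lit 0) (.e (nat_lit 1860) (nat_lit 124) (.e (nat_lit 557105) (nat_lit 14) (.e (nat_lit 188160) (nat_lit 35) .nil)))) .nil)))) (.nd (nat_lit 5) (.nd (nat_lit 6) 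
(.lf (nat_lit 268692) (.g (nat_lit 1227) (.e (nat_lit 196352) (nat_lit 0) (.e (nat_lit 1803) (nat_lit 119) (.e (nat_lit 516131) (nat_lit 3) (.e (nat_lit 221193) (nat_lit 11) (.e (nat_lit 336009) (nat_lit 2) .nil))))) .nil)) 
(.lf (nat_lit 268756) (.g (nat_lit 1797) (.e (nat_lit 196352) (nat_lit 0) (.e (nat_lit 1858) (nat_lit 124) (.e (nat_lit 557109) (nat_lit 15) (.e (nat_lit 188419) (nat_lit 0) .nil)))) .nil))) (.nd (nat_lit 6) 
(.lf (nat_lit 268724) (.g (nat_lit 480) (.e (nat_lit 196352) (nat_lit 0) (.e (nat_lit 1853) (nat_lit 124) (.e (nat_lit 557109) (nat_lit 15) .nil))) .nil)) 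
(.lf (nat_lit 268788) (.g (nat_lit 1738) (.e (nat_lit 196352) (nat_lit 0) (.e (nat_lit 2030) (nat_lit 140) (.e (nat_lit 688178) (nat_lit 16) (.e (nat_lit 65619) (nat_lit 10) (.e (nat_lit 344153) (nat_lit 35) .nil))))) .nil))))) (.nd (nat_lit 4) (.nd (nat_lit 5) (.nd (nat_lit 6) 
(.lf (nat_lit 268684) (.g (nat_lit 1712) (.e (nat_lit 196352) (nat_lit 0) (.e (nat_lit 1800) (nat_lit 119) (.e (nat_lit 516131) (nat_lit 3) (.e (nat_lit 221194) (nat_lit 11) (.e (nat_lit 336009) (nat_lit 2) .nil))))) .nil)) 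
(.lf (nat_lit 268748) (.g (nat_lit 2230) (.e (nat_lit 196352) (nat_lit 0) (.e (nat_lit 1858) (nat_lit 124) (.e (nat_lit 557107) (nat_lit 15) (.e (nat_lit 188420) (nat_lit 0) (.e (nat_lit 1855) (nat_lit 124) .nil))))) .nil))) (.nd (nat_lit 6) 
(.lf (nat_lit 268716) (.g (nat_lit 1305) (.e (nat_lit 196352) (nat_lit 0) (.e (nat_lit 1853) (nat_lit 124) (.e (nat_lit 557103) (nat_lit 14) (.e (nat_lit 180285) (nat_lit 45) (.e (nat_lit 2571) (nat_lit 160) .nil))))) .nil)) 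
(.lf (nat_lit 268780) (.g (nat_lit 1934) (.e (nat_lit 196352) (nat_lit 0) (.e (nat_lit 1860) (nat_lit 124) (.e (nat_lit 557109) (nat_lit 15) (.e (nat_lit 188455) (nat_lit 24) (.e (nat_lit 237312) (nat_lit 134) .nil))))) .nil)))) (.nd (nat_lit 5) (.nd (nat_lit 6) 
(.lf (nat_lit 268700) (.g (nat_lit 1509) (.e (nat_lit 196352) (nat_lit 0) (.e (nat_lit 1849) (nat_lit 124) (.e (nat_lit 557108) (nat_lit 15) (.e (nat_lit 188419) (nat_lit 0) .nil)))) .nil)) 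
(.lf (nat_lit 268764) (.g (nat_lit 2046) (.e (nat_lit 196352) (nat_lit 0) (.e (nat_lit 1859) (nat_lit 124) (.e (nat_lit 557109) (nat_lit 15) (.e (nat_lit 188435) (nat_lit 20) .nil)))) .nil))) (.nd (nat_lit 6) 
(.lf (nat_lit 268732) (.g (nat_lit 1540) (.e (nat_lit 196352) (nat_lit 0) (.e (nat_lit 1855) (nat_lit 124) (.e (nat_lit 557103) (nat_lit 14) (.e (nat_lit 180278) (nat_lit 32) .nil)))) .nil)) 
(.lf (nat_lit 268796) (.g (nat_lit 443) (.e (nat_lit 196352) (nat_lit 0) (.e (nat_lit 2031) (nat_lit 140) (.e (nat_lit 688175) (nat_lit 16) .nil))) .nil))))))) (.nd (nat_lit 2) (.nd (nat_lit 3) (.nd (nat_lit 4) (.nd (nat_lit 5) (.nd (nat_lit 6) 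
(.lf (nat_lit 268674) (.g (nat_lit 1352) (.e (nat_lit 196352) (nat_lit 0) (.e (nat_lit 1796) (nat_lit 119) (.e (nat_lit 516123) (nat_lit 2) (.e (nat_lit 213032) (nat_lit 11) (.e (nat_lit 24604) (nat_lit 2) .nil))))) .nil)) 
(.lf (nat_lit 268738) (.g (nat_lit 2374) (.e (nat_lit 196352) (nat_lit 0) (.e (nat_lit 1855) (nat_lit 124) (.e (nat_lit 557109) (nat_lit 15) (.e (nat_lit 188455) (nat_lit 24) (.e (nat_lit 237312) (nat_lit 134) .nil))))) .nil))) (.nd (nat_lit 6) 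
(.lf (nat_lit 268706) (.g (nat_lit 915) (.e (nat_lit 196352) (nat_lit 0) (.e (nat_lit 1852) (nat_lit 124) (.e (nat_lit 557107) (nat_lit 15) (.e (nat_lit 188420) (nat_lit 0) .nil)))) .nil)) 
(.lf (nat_lit 268770) (.g (nat_lit 1197) (.e (nat_lit 196352) (nat_lit 0) (.e (nat_lit 1860) (nat_lit 124) (.e (nat_lit 557104) (nat_lit 14) (.e (nat_lit 188160) (nat_lit 32) .nil)))) .nil)))) (.nd (nat_lit 5) (.nd (nat_lit 6) 
(.lf (nat_lit 268690) (.g (nat_lit 2132) (.e (nat_lit 196352) (nat_lit 0) (.e (nat_lit 1803) (nat_lit 119) (.e (nat_lit 516129) (nat_lit 3) (.e (nat_lit 221194) (nat_lit 11) (.e (nat_lit 336009) (nat_lit 2) .nil))))) .nil)) 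
(.lf (nat_lit 268754) (.g (nat_lit 2524) (.e (nat_lit 196352) (nat_lit 0) (.e (nat_lit 1858) (nat_lit 124) (.e (nat_lit 557107) (nat_lit 15) (.e (nat_lit 188440) (nat_lit 20) (.e (nat_lit 3272) (nat_lit 199) .nil))))) .nil))) (.nd (nat_lit 6) 
(.lf (nat_lit 268722) (.g (nat_lit 2906) (.e (nat_lit 196352) (nat_lit 0) (.e (nat_lit 1853) (nat_lit 124) (.e (nat_lit 557108) (nat_lit 15) (.e (nat_lit 188446) (nat_lit 21) (.e (nat_lit 171776) (nat_lit 134) .nil))))) .nil)) 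
(.lf (nat_lit 268786) (.g (nat_lit 1214) (.e (nat_lit 196352) (nat_lit 0) (.e (nat_lit 2030) (nat_lit 140) (.e (nat_lit 688178) (nat_lit 16) (.e (nat_lit 65604) (nat_lit 9) (.e (nat_lit 335997) (nat_lit 1) .nil))))) .nil))))) (.nd (nat_lit 4) (.nd (nat_lit 5) (.nd (nat_lit 6) 
(.lf (nat_lit 268682) (.g (nat_lit 1677) (.e (nat_lit 196352) (nat_lit 0) (.e (nat_lit 1800) (nat_lit 119) (.e (nat_lit 516129) (nat_lit 3) (.e (nat_lit 221193) (nat_lit 11) (.e (nat_lit 336009) (nat_lit 2) .nil))))) .nil)) 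
(.lf (nat_lit 268746) (.g (nat_lit 1464) (.e (nat_lit 196352) (nat_lit 0) (.e (nat_lit 1858) (nat_lit 124) (.e (nat_lit 557105) (nat_lit 14) (.e (nat_lit 180278) (nat_lit 32) .nil)))) .nil))) (.nd (nat_lit 6) 
(.lf (nat_lit 268714) (.g (nat_lit 1400) (.e (nat_lit 196352) (nat_lit 0) (.e (nat_lit 1853) (nat_lit 124) (.e (nat_lit 557103) (nat_lit 14) (.e (nat_lit 180285) (nat_lit 45) (.e (nat_lit 2569) (nat_lit 160) .nil))))) .nil)) 
(.lf (nat_lit 268778) (.g (nat_lit 1195) (.e (nat_lit 196352) (nat_lit 0) (.e (nat_lit 1860) (nat_lit 124) (.e (nat_lit 557109) (nat_lit 15) (.e (nat_lit 188419) (nat_lit 0) .nil)))) .nil)))) (.nd (nat_lit 5) (.nd (nat_lit 6) 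
(.lf (nat_lit 268698) (.g (nat_lit 1316) (.e (nat_lit 196352) (nat_lit 0) (.e (nat_lit 1849) (nat_lit 124) (.e (nat_lit 557097) (nat_lit 13) (.e (nat_lit 172119) (nat_lit 12) (.e (nat_lit 475184) (nat_lit 29) .nil))))) .nil)) 
(.lf (nat_lit 268762) (.g (nat_lit 2518) (.e (nat_lit 196352) (nat_lit 0) (.e (nat_lit 1859) (nat_lit 124) (.e (nat_lit 557109) (nat_lit 15) (.e (nat_lit 188420) (nat_lit 0) (.e (nat_lit 1855) (nat_lit 124) .nil))))) .nil))) (.nd (nat_lit 6) 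
(.lf (nat_lit 268730) (.g (nat_lit 1367) (.e (nat_lit 196352) (nat_lit 0) (.e (nat_lit 1855) (nat_lit 124) (.e (nat_lit 557100) (nat_lit 13) (.e (nat_lit 172118) (nat_lit 12) .nil)))) .nil)) 
(.lf (nat_lit 268794) (.g (nat_lit 1581) (.e (nat_lit 196352) (nat_lit 0) (.e (nat_lit 2030) (nat_lit 140) (.e (nat_lit 688186) (nat_lit 18) (.e (nat_lit 81959) (nat_lit 24) (.e (nat_lit 123153) (nat_lit 250) .nil))))) .nil)))))) (.nd (nat_lit 3) (.nd (nat_lit 4) (.nd (nat_lit 5) (.nd (nat_lit 6) 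
(.lf (nat_lit 268678) (.g (nat_lit 1110) (.e (nat_lit 196352) (nat_lit 0) (.e (nat_lit 1796) (nat_lit 119) (.e (nat_lit 516131) (nat_lit 3) (.e (nat_lit 221194) (nat_lit 11) (.e (nat_lit 336010) (nat_lit 2) .nil))))) .nil)) 
(.lf (nat_lit 268742) (.g (nat_lit 1827) (.e (nat_lit 196352) (nat_lit 0) (.e (nat_lit 1858) (nat_lit 124) (.e (nat_lit 557103) (nat_lit 14) (.e (nat_lit 180285) (nat_lit 45) .nil)))) .nil))) (.nd (nat_lit 6) 
(.lf (nat_lit 268710) (.g (nat_lit 2462) (.e (nat_lit 196352) (nat_lit 0) (.e (nat_lit 1853) (nat_lit 124) (.e (nat_lit 557100) (nat_lit 13) (.e (nat_lit 172126) (nat_lit 14) (.e (nat_lit 491537) (nat_lit 2) .nil))))) .nil)) 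
(.lf (nat_lit 268774) (.g (nat_lit 1418) (.e (nat_lit 196352) (nat_lit 0) (.e (nat_lit 1860) (nat_lit 124) (.e (nat_lit 557107) (nat_lit 15) (.e (nat_lit 188420) (nat_lit 0) .nil)))) .nil)))) (.nd (nat_lit 5) (.nd (nat_lit 6) 
(.lf (nat_lit 268694) (.g (nat_lit 1594) (.e (nat_lit 196352) (nat_lit 0) (.e (nat_lit 1848) (nat_lit 124) (.e (nat_lit 557108) (nat_lit 15) (.e (nat_lit 188419) (nat_lit 0) .nil)))) .nil)) 
(.lf (nat_lit 268758) (.g (nat_lit 1643) (.e (nat_lit 196352) (nat_lit 0) (.e (nat_lit 1858) (nat_lit 124) (.e (nat_lit 557109) (nat_lit 15) (.e (nat_lit 188455) (nat_lit 24) .nil)))) .nil))) (.nd (nat_lit 6) 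
(.lf (nat_lit 268726) (.g (nat_lit 2790) (.e (nat_lit 196352) (nat_lit 0) (.e (nat_lit 1853) (nat_lit 124) (.e (nat_lit 557109) (nat_lit 15) (.e (nat_lit 188419) (nat_lit 0) (.e (nat_lit 1855) (nat_lit 124) .nil))))) .nil)) 
(.lf (nat_lit 268790) (.g (nat_lit 866) (.e (nat_lit 196352) (nat_lit 0) (.e (nat_lit 2030) (nat_lit 140) (.e (nat_lit 688186) (nat_lit 18) (.e (nat_lit 81950) (nat_lit 21) .nil)))) .nil))))) (.nd (nat_lit 4) (.nd (nat_lit 5) (.nd (nat_lit 6) 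
(.lf (nat_lit 268686) (.g (nat_lit 1255) (.e (nat_lit 196352) (nat_lit 0) (.e (nat_lit 1802) (nat_lit 119) (.e (nat_lit 516131) (nat_lit 3) (.e (nat_lit 221193) (nat_lit 11) (.e (nat_lit 336009) (nat_lit 2) .nil))))) .nil)) 
(.lf (nat_lit 268750) (.g (nat_lit 1320) (.e (nat_lit 196352) (nat_lit 0) (.e (nat_lit 1858) (nat_lit 124) (.e (nat_lit 557107) (nat_lit 15) (.e (nat_lit 196352) (nat_lit 0) .nil)))) .nil))) (.nd (nat_lit 6) 
(.lf (nat_lit 268718) (.g (nat_lit 2093) (.e (nat_lit 196352) (nat_lit 0) (.e (nat_lit 1853) (nat_lit 124) (.e (nat_lit 557108) (nat_lit 15) (.e (nat_lit 188418) (nat_lit 0) .nil)))) .nil)) 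
(.lf (nat_lit 268782) (.g (nat_lit 1374) (.e (nat_lit 196352) (nat_lit 0) (.e (nat_lit 2030) (nat_lit 140) (.e (nat_lit 688175) (nat_lit 16) (.e (nat_lit 65619) (nat_lit 10) (.e (nat_lit 344154) (nat_lit 35) .nil))))) .nil)))) (.nd (nat_lit 5) (.nd (nat_lit 6) 
(.lf (nat_lit 268702) (.g (nat_lit 1453) (.e (nat_lit 196352) (nat_lit 0) (.e (nat_lit 1849) (nat_lit 124) (.e (nat_lit 557108) (nat_lit 15) (.e (nat_lit 196352) (nat_lit 0) .nil)))) .nil)) 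
(.lf (nat_lit 268766) (.g (nat_lit 1816) (.e (nat_lit 196352) (nat_lit 0) (.e (nat_lit 1860) (nat_lit 124) (.e (nat_lit 557103) (nat_lit 14) (.e (nat_lit 180277) (nat_lit 32) .nil)))) .nil))) (.nd (nat_lit 6) 
(.lf (nat_lit 268734) (.g (nat_lit 1677) (.e (nat_lit 196352) (nat_lit 0) (.e (nat_lit 1855) (nat_lit 124) (.e (nat_lit 557107) (nat_lit 15) (.e (nat_lit 188440) (nat_lit 20) (.e (nat_lit 3271) (nat_lit 199) .nil))))) .nil)) 
(.lf (nat_lit 268798) (.g (nat_lit 1428) (.e (nat_lit 196352) (nat_lit 0) (.e (nat_lit 2031) (nat_lit 140) (.e (nat_lit 688175) (nat_lit 16) (.e (nat_lit 65619) (nat_lit 10) (.e (nat_lit 344154) (nat_lit 35) .nil))))) .nil)))))))) (.nd (nat_lit 1) (.nd (nat_lit 2) (.nd (nat_lit 3) (.nd (nat_lit 4) (.nd (nat_lit 5) (.nd (nat_lit 6) 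
(.lf (nat_lit 268673) (.g (nat_lit 2040) (.e (nat_lit 196352) (nat_lit 0) (.e (nat_lit 1788) (nat_lit 119) (.e (nat_lit 516130) (nat_lit 3) (.e (nat_lit 221194) (nat_lit 11) (.e (nat_lit 336009) (nat_lit 2) .nil))))) .nil)) 
(.lf (nat_lit 268737) (.g (nat_lit 2233) (.e (nat_lit 196352) (nat_lit 0) (.e (nat_lit 1855) (nat_lit 124) (.e (nat_lit 557109) (nat_lit 15) (.e (nat_lit 188441) (nat_lit 20) (.e (nat_lit 3271) (nat_lit 199) .nil))))) .nil))) (.nd (nat_lit 6) 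
(.lf (nat_lit 268705) (.g (nat_lit 1149) (.e (nat_lit 196352) (nat_lit 0) (.e (nat_lit 1849) (nat_lit 124) (.e (nat_lit 557109) (nat_lit 15) (.e (nat_lit 196352) (nat_lit 0) .nil)))) .nil)) 
(.lf (nat_lit 268769) (.g (nat_lit 1769) (.e (nat_lit 196352) (nat_lit 0) (.e (nat_lit 1860) (nat_lit 124) (.e (nat_lit 557104) (nat_lit 14) (.e (nat_lit 180277) (nat_lit 32) (.e (nat_lit 1235) (nat_lit 91) .nil))))) .nil)))) (.nd (nat_lit 5) (.nd (nat_lit 6) 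
(.lf (nat_lit 268689) (.g (nat_lit 1676) (.e (nat_lit 196352) (nat_lit 0) (.e (nat_lit 1803) (nat_lit 119) (.e (nat_lit 516129) (nat_lit 3) (.e (nat_lit 221193) (nat_lit 11) (.e (nat_lit 336009) (nat_lit 2) .nil))))) .nil)) 
(.lf (nat_lit 268753) (.g (nat_lit 1890) (.e (nat_lit 196352) (nat_lit 0) (.e (nat_lit 1858) (nat_lit 124) (.e (nat_lit 557107) (nat_lit 15) (.e (nat_lit 188440) (nat_lit 20) .nil)))) .nil))) (.nd (nat_lit 6) 
(.lf (nat_lit 268721) (.g (nat_lit 2149) (.e (nat_lit 196352) (nat_lit 0) (.e (nat_lit 1853) (nat_lit 124) (.e (nat_lit 557108) (nat_lit 15) (.e (nat_lit 188446) (nat_lit 21) .nil)))) .nil)) 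
(.lf (nat_lit 268785) (.g (nat_lit 1665) (.e (nat_lit 196352) (nat_lit 0) (.e (nat_lit 2030) (nat_lit 140) (.e (nat_lit 688177) (nat_lit 16) (.e (nat_lit 65617) (nat_lit 10) (.e (nat_lit 344156) (nat_lit 36) .nil))))) .nil))))) (.nd (nat_lit 4) (.nd (nat_lit 5) (.nd (nat_lit 6) 
(.lf (nat_lit 268681) (.g (nat_lit 1631) (.e (nat_lit 196352) (nat_lit 0) (.e (nat_lit 1800) (nat_lit 119) (.e (nat_lit 516129) (nat_lit 3) (.e (nat_lit 221193) (nat_lit 11) (.e (nat_lit 336004) (nat_lit 2) .nil))))) .nil)) 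
(.lf (nat_lit 268745) (.g (nat_lit 1716) (.e (nat_lit 196352) (nat_lit 0) (.e (nat_lit 1858) (nat_lit 124) (.e (nat_lit 557105) (nat_lit 14) (.e (nat_lit 180277) (nat_lit 32) (.e (nat_lit 1235) (nat_lit 91) .nil))))) .nil))) (.nd (nat_lit 6) 
(.lf (nat_lit 268713) (.g (nat_lit 1952) (.e (nat_lit 196352) (nat_lit 0) (.e (nat_lit 1853) (nat_lit 124) (.e (nat_lit 557103) (nat_lit 14) (.e (nat_lit 180277) (nat_lit 32) (.e (nat_lit 1235) (nat_lit 91) .nil))))) .nil)) 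
(.lf (nat_lit 268777) (.g (nat_lit 494) (.e (nat_lit 196352) (nat_lit 0) (.e (nat_lit 1860) (nat_lit 124) (.e (nat_lit 557109) (nat_lit 15) .nil))) .nil)))) (.nd (nat_lit 5) (.nd (nat_lit 6) 
(.lf (nat_lit 268697) (.g (nat_lit 1658) (.e (nat_lit 196352) (nat_lit 0) (.e (nat_lit 1848) (nat_lit 124) (.e (nat_lit 557108) (nat_lit 15) (.e (nat_lit 188435) (nat_lit 20) .nil)))) .nil)) 
(.lf (nat_lit 268761) (.g (nat_lit 2308) (.e (nat_lit 196352) (nat_lit 0) (.e (nat_lit 1859) (nat_lit 124) (.e (nat_lit 557109) (nat_lit 15) (.e (nat_lit 188418) (nat_lit 0) (.e (nat_lit 1855) (nat_lit 124) .nil))))) .nil))) (.nd (nat_lit 6) 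
(.lf (nat_lit 268729) (.g (nat_lit 1163) (.e (nat_lit 196352) (nat_lit 0) (.e (nat_lit 1855) (nat_lit 124) (.e (nat_lit 557098) (nat_lit 13) (.e (nat_lit 172126) (nat_lit 14) .nil)))) .nil)) 
(.lf (nat_lit 268793) (.g (nat_lit 1366) (.e (nat_lit 196352) (nat_lit 0) (.e (nat_lit 2030) (nat_lit 140) (.e (nat_lit 688186) (nat_lit 18) (.e (nat_lit 81959) (nat_lit 24) (.e (nat_lit 123147) (nat_lit 250) .nil))))) .nil)))))) (.nd (nat_lit 3) (.nd (nat_lit 4) (.nd (nat_lit 5) (.nd (nat_lit 6) 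
(.lf (nat_lit 268677) (.g (nat_lit 1537) (.e (nat_lit 196352) (nat_lit 0) (.e (nat_lit 1796) (nat_lit 119) (.e (nat_lit 516130) (nat_lit 3) (.e (nat_lit 221194) (nat_lit 11) (.e (nat_lit 336003) (nat_lit 2) .nil))))) .nil)) 
(.lf (nat_lit 268741) (.g (nat_lit 680) (.e (nat_lit 196352) (nat_lit 0) (.e (nat_lit 1858) (nat_lit 124) (.e (nat_lit 557103) (nat_lit 14) .nil))) .nil))) (.nd (nat_lit 6) 
(.lf (nat_lit 268709) (.g (nat_lit 1420) (.e (nat_lit 196352) (nat_lit 0) (.e (nat_lit 1853) (nat_lit 124) (.e (nat_lit 557100) (nat_lit 13) (.e (nat_lit 172118) (nat_lit 12) .nil)))) .nil)) 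
(.lf (nat_lit 268773) (.g (nat_lit 1646) (.e (nat_lit 196352) (nat_lit 0) (.e (nat_lit 1860) (nat_lit 124) (.e (nat_lit 557107) (nat_lit 15) (.e (nat_lit 188418) (nat_lit 0) (.e (nat_lit 1856) (nat_lit 124) .nil))))) .nil)))) (.nd (nat_lit 5) (.nd (nat_lit 6) 
(.lf (nat_lit 268693) (.g (nat_lit 785) (.e (nat_lit 196352) (nat_lit 0) (.e (nat_lit 1847) (nat_lit 124) (.e (nat_lit 557104) (nat_lit 14) (.e (nat_lit 188160) (nat_lit 32) .nil)))) .nil)) 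
(.lf (nat_lit 268757) (.g (nat_lit 1436) (.e (nat_lit 196352) (nat_lit 0) (.e (nat_lit 1858) (nat_lit 124) (.e (nat_lit 557109) (nat_lit 15) (.e (nat_lit 196352) (nat_lit 0) .nil)))) .nil))) (.nd (nat_lit 6) 
(.lf (nat_lit 268725) (.g (nat_lit 2379) (.e (nat_lit 196352) (nat_lit 0) (.e (nat_lit 1853) (nat_lit 124) (.e (nat_lit 557109) (nat_lit 15) (.e (nat_lit 188418) (nat_lit 0) (.e (nat_lit 1856) (nat_lit 124) .nil))))) .nil)) 
(.lf (nat_lit 268789) (.g (nat_lit 950) (.e (nat_lit 196352) (nat_lit 0) (.e (nat_lit 2030) (nat_lit 140) (.e (nat_lit 688184) (nat_lit 18) (.e (nat_lit 89856) (nat_lit 0) .nil)))) .nil))))) (.nd (nat_lit 4) (.nd (nat_lit 5) (.nd (nat_lit 6) 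
(.lf (nat_lit 268685) (.g (nat_lit 1492) (.e (nat_lit 196352) (nat_lit 0) (.e (nat_lit 1802) (nat_lit 119) (.e (nat_lit 516129) (nat_lit 3) (.e (nat_lit 221193) (nat_lit 11) (.e (nat_lit 336009) (nat_lit 2) .nil))))) .nil)) 
(.lf (nat_lit 268749) (.g (nat_lit 2156) (.e (nat_lit 196352) (nat_lit 0) (.e (nat_lit 1858) (nat_lit 124) (.e (nat_lit 557107) (nat_lit 15) (.e (nat_lit 188420) (nat_lit 0) (.e (nat_lit 1856) (nat_lit 124) .nil))))) .nil))) (.nd (nat_lit 6) 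
(.lf (nat_lit 268717) (.g (nat_lit 423) (.e (nat_lit 196352) (nat_lit 0) (.e (nat_lit 1853) (nat_lit 124) (.e (nat_lit 557108) (nat_lit 15) .nil))) .nil)) 
(.lf (nat_lit 268781) (.g (nat_lit 1844) (.e (nat_lit 196352) (nat_lit 0) (.e (nat_lit 1863) (nat_lit 124) (.e (nat_lit 557108) (nat_lit 15) (.e (nat_lit 196352) (nat_lit 0) .nil)))) .nil)))) (.nd (nat_lit 5) (.nd (nat_lit 6) 
(.lf (nat_lit 268701) (.g (nat_lit 1547) (.e (nat_lit 196352) (nat_lit 0) (.e (nat_lit 1849) (nat_lit 124) (.e (nat_lit 557108) (nat_lit 15) (.e (nat_lit 188420) (nat_lit 0) .nil)))) .nil)) 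
(.lf (nat_lit 268765) (.g (nat_lit 2661) (.e (nat_lit 196352) (nat_lit 0) (.e (nat_lit 1859) (nat_lit 124) (.e (nat_lit 557109) (nat_lit 15) (.e (nat_lit 188441) (nat_lit 20) (.e (nat_lit 3271) (nat_lit 199) .nil))))) .nil))) (.nd (nat_lit 6) 
(.lf (nat_lit 268733) (.g (nat_lit 1142) (.e (nat_lit 196352) (nat_lit 0) (.e (nat_lit 1855) (nat_lit 124) (.e (nat_lit 557105) (nat_lit 14) (.e (nat_lit 180278) (nat_lit 32) .nil)))) .nil)) 
(.lf (nat_lit 268797) (.g (nat_lit 749) (.e (nat_lit 196352) (nat_lit 0) (.e (nat_lit 2031) (nat_lit 140) (.e (nat_lit 688175) (nat_lit 16) (.e (nat_lit 65619) (nat_lit 10) .nil)))) .nil))))))) (.nd (nat_lit 2) (.nd (nat_lit 3) (.nd (nat_lit 4) (.nd (nat_lit 5) (.nd (nat_lit 6) 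
(.lf (nat_lit 268675) (.g (nat_lit 1513) (.e (nat_lit 196352) (nat_lit 0) (.e (nat_lit 1796) (nat_lit 119) (.e (nat_lit 516129) (nat_lit 3) (.e (nat_lit 221193) (nat_lit 11) (.e (nat_lit 336009) (nat_lit 2) .nil))))) .nil)) 
(.lf (nat_lit 268739) (.g (nat_lit 1884) (.e (nat_lit 196352) (nat_lit 0) (.e (nat_lit 1858) (nat_lit 124) (.e (nat_lit 557100) (nat_lit 13) (.e (nat_lit 172118) (nat_lit 12) .nil)))) .nil))) (.nd (nat_lit 6) 
(.lf (nat_lit 268707) (.g (nat_lit 1552) (.e (nat_lit 196352) (nat_lit 0) (.e (nat_lit 1852) (nat_lit 124) (.e (nat_lit 557108) (nat_lit 15) (.e (nat_lit 196352) (nat_lit 0) .nil)))) .nil)) 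
(.lf (nat_lit 268771) (.g (nat_lit 1796) (.e (nat_lit 196352) (nat_lit 0) (.e (nat_lit 1860) (nat_lit 124) (.e (nat_lit 557105) (nat_lit 14) (.e (nat_lit 180278) (nat_lit 32) (.e (nat_lit 1235) (nat_lit 91) .nil))))) .nil)))) (.nd (nat_lit 5) (.nd (nat_lit 6) 
(.lf (nat_lit 268691) (.g (nat_lit 986) (.e (nat_lit 196352) (nat_lit 0) (.e (nat_lit 1803) (nat_lit 119) (.e (nat_lit 516129) (nat_lit 3) (.e (nat_lit 229120) (nat_lit 12) .nil)))) .nil)) 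
(.lf (nat_lit 268755) (.g (nat_lit 411) (.e (nat_lit 196352) (nat_lit 0) (.e (nat_lit 1858) (nat_lit 124) (.e (nat_lit 557109) (nat_lit 15) .nil))) .nil))) (.nd (nat_lit 6) 
(.lf (nat_lit 268723) (.g (nat_lit 2669) (.e (nat_lit 196352) (nat_lit 0) (.e (nat_lit 1853) (nat_lit 124) (.e (nat_lit 557108) (nat_lit 15) (.e (nat_lit 188455) (nat_lit 24) (.e (nat_lit 237312) (nat_lit 134) .nil))))) .nil)) 
(.lf (nat_lit 268787) (.g (nat_lit 864) (.e (nat_lit 196352) (nat_lit 0) (.e (nat_lit 2030) (nat_lit 140) (.e (nat_lit 688178) (nat_lit 16) (.e (nat_lit 65619) (nat_lit 10) .nil)))) .nil))))) (.nd (nat_lit 4) (.nd (nat_lit 5) (.nd (nat_lit 6) 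
(.lf (nat_lit 268683) (.g (nat_lit 1307) (.e (nat_lit 196352) (nat_lit 0) (.e (nat_lit 1800) (nat_lit 119) (.e (nat_lit 516131) (nat_lit 3) (.e (nat_lit 221193) (nat_lit 11) (.e (nat_lit 336009) (nat_lit 2) .nil))))) .nil)) 
(.lf (nat_lit 268747) (.g (nat_lit 2284) (.e (nat_lit 196352) (nat_lit 0) (.e (nat_lit 1858) (nat_lit 124) (.e (nat_lit 557107) (nat_lit 15) (.e (nat_lit 188418) (nat_lit 0) (.e (nat_lit 1856) (nat_lit 124) .nil))))) .nil))) (.nd (nat_lit 6) 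
(.lf (nat_lit 268715) (.g (nat_lit 1306) (.e (nat_lit 196352) (nat_lit 0) (.e (nat_lit 1853) (nat_lit 124) (.e (nat_lit 557103) (nat_lit 14) (.e (nat_lit 180285) (nat_lit 45) (.e (nat_lit 2570) (nat_lit 160) .nil))))) .nil)) 
(.lf (nat_lit 268779) (.g (nat_lit 1003) (.e (nat_lit 196352) (nat_lit 0) (.e (nat_lit 1860) (nat_lit 124) (.e (nat_lit 557109) (nat_lit 15) (.e (nat_lit 196352) (nat_lit 0) .nil)))) .nil)))) (.nd (nat_lit 5) (.nd (nat_lit 6) 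
(.lf (nat_lit 268699) (.g (nat_lit 1360) (.e (nat_lit 196352) (nat_lit 0) (.e (nat_lit 1849) (nat_lit 124) (.e (nat_lit 557107) (nat_lit 15) (.e (nat_lit 188440) (nat_lit 20) (.e (nat_lit 3271) (nat_lit 199) .nil))))) .nil)) 
(.lf (nat_lit 268763) (.g (nat_lit 2527) (.e (nat_lit 196352) (nat_lit 0) (.e (nat_lit 1859) (nat_lit 124) (.e (nat_lit 557109) (nat_lit 15) (.e (nat_lit 188420) (nat_lit 0) (.e (nat_lit 1856) (nat_lit 124) .nil))))) .nil))) (.nd (nat_lit 6) 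
(.lf (nat_lit 268731) (.g (nat_lit 2249) (.e (nat_lit 196352) (nat_lit 0) (.e (nat_lit 1855) (nat_lit 124) (.e (nat_lit 557100) (nat_lit 13) (.e (nat_lit 172120) (nat_lit 12) (.e (nat_lit 475185) (nat_lit 29) .nil))))) .nil)) 
(.lf (nat_lit 268795) (.g (nat_lit 1292) (.e (nat_lit 196352) (nat_lit 0) (.e (nat_lit 2030) (nat_lit 140) (.e (nat_lit 688186) (nat_lit 18) (.e (nat_lit 81959) (nat_lit 24) (.e (nat_lit 130816) (nat_lit 250) .nil))))) .nil)))))) (.nd (nat_lit 3) (.nd (nat_lit 4) (.nd (nat_lit 5) (.nd (nat_lit 6) 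
(.lf (nat_lit 268679) (.g (nat_lit 861) (.e (nat_lit 196352) (nat_lit 0) (.e (nat_lit 1799) (nat_lit 119) (.e (nat_lit 516129) (nat_lit 3) (.e (nat_lit 221193) (nat_lit 11) .nil)))) .nil)) 
(.lf (nat_lit 268743) (.g (nat_lit 2544) (.e (nat_lit 196352) (nat_lit 0) (.e (nat_lit 1858) (nat_lit 124) (.e (nat_lit 557103) (nat_lit 14) (.e (nat_lit 180285) (nat_lit 45) (.e (nat_lit 2569) (nat_lit 160) .nil))))) .nil))) (.nd (nat_lit 6) 
(.lf (nat_lit 268711) (.g (nat_lit 442) (.e (nat_lit 196352) (nat_lit 0) (.e (nat_lit 1853) (nat_lit 124) (.e (nat_lit 557103) (nat_lit 14) .nil))) .nil)) 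
(.lf (nat_lit 268775) (.g (nat_lit 1228) (.e (nat_lit 196352) (nat_lit 0) (.e (nat_lit 1860) (nat_lit 124) (.e (nat_lit 557107) (nat_lit 15) (.e (nat_lit 196352) (nat_lit 0) .nil)))) .nil)))) (.nd (nat_lit 5) (.nd (nat_lit 6) 
(.lf (nat_lit 268695) (.g (nat_lit 1633) (.e (nat_lit 196352) (nat_lit 0) (.e (nat_lit 1848) (nat_lit 124) (.e (nat_lit 557108) (nat_lit 15) (.e (nat_lit 188420) (nat_lit 0) .nil)))) .nil)) 
(.lf (nat_lit 268759) (.g (nat_lit 1445) (.e (nat_lit 196352) (nat_lit 0) (.e (nat_lit 1859) (nat_lit 124) (.e (nat_lit 557098) (nat_lit 13) (.e (nat_lit 172119) (nat_lit 12) (.e (nat_lit 475184) (nat_lit 29) .nil))))) .nil))) (.nd (nat_lit 6) 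
(.lf (nat_lit 268727) (.g (nat_lit 2763) (.e (nat_lit 196352) (nat_lit 0) (.e (nat_lit 1853) (nat_lit 124) (.e (nat_lit 557109) (nat_lit 15) (.e (nat_lit 188419) (nat_lit 0) (.e (nat_lit 1856) (nat_lit 124) .nil))))) .nil)) 
(.lf (nat_lit 268791) (.g (nat_lit 858) (.e (nat_lit 196352) (nat_lit 0) (.e (nat_lit 2030) (nat_lit 140) (.e (nat_lit 688186) (nat_lit 18) (.e (nat_lit 81959) (nat_lit 24) .nil)))) .nil))))) (.nd (nat_lit 4) (.nd (nat_lit 5) (.nd (nat_lit 6) 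
(.lf (nat_lit 268687) (.g (nat_lit 1225) (.e (nat_lit 196352) (nat_lit 0) (.e (nat_lit 1802) (nat_lit 119) (.e (nat_lit 516131) (nat_lit 3) (.e (nat_lit 221193) (nat_lit 11) (.e (nat_lit 336010) (nat_lit 2) .nil))))) .nil)) 
(.lf (nat_lit 268751) (.g (nat_lit 1911) (.e (nat_lit 196352) (nat_lit 0) (.e (nat_lit 1858) (nat_lit 124) (.e (nat_lit 557107) (nat_lit 15) (.e (nat_lit 188439) (nat_lit 20) .nil)))) .nil))) (.nd (nat_lit 6) 
(.lf (nat_lit 268719) (.g (nat_lit 1857) (.e (nat_lit 196352) (nat_lit 0) (.e (nat_lit 1853) (nat_lit 124) (.e (nat_lit 557108) (nat_lit 15) (.e (nat_lit 196352) (nat_lit 0) .nil)))) .nil)) 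
(.lf (nat_lit 268783) (.g (nat_lit 1222) (.e (nat_lit 196352) (nat_lit 0) (.e (nat_lit 2030) (nat_lit 140) (.e (nat_lit 688177) (nat_lit 16) (.e (nat_lit 65610) (nat_lit 10) .nil)))) .nil)))) (.nd (nat_lit 5) (.nd (nat_lit 6) 
(.lf (nat_lit 268703) (.g (nat_lit 1565) (.e (nat_lit 196352) (nat_lit 0) (.e (nat_lit 1849) (nat_lit 124) (.e (nat_lit 557108) (nat_lit 15) (.e (nat_lit 188435) (nat_lit 20) .nil)))) .nil)) 
(.lf (nat_lit 268767) (.g (nat_lit 1384) (.e (nat_lit 196352) (nat_lit 0) (.e (nat_lit 1860) (nat_lit 124) (.e (nat_lit 557103) (nat_lit 14) (.e (nat_lit 188160) (nat_lit 35) .nil)))) .nil))) (.nd (nat_lit 6) 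
(.lf (nat_lit 268735) (.g (nat_lit 2299) (.e (nat_lit 196352) (nat_lit 0) (.e (nat_lit 1855) (nat_lit 124) (.e (nat_lit 557109) (nat_lit 15) (.e (nat_lit 188418) (nat_lit 0) (.e (nat_lit 1855) (nat_lit 124) .nil))))) .nil)) 
(.lf (nat_lit 268799) (.g (nat_lit 1425) (.e (nat_lit 196352) (nat_lit 0) (.e (nat_lit 2031) (nat_lit 140) (.e (nat_lit 688177) (nat_lit 16) (.e (nat_lit 65610) (nat_lit 10) .nil)))) .nil)))))))))

noncomputable def tv3451 : DT := (.nd (nat_lit 0) (.nd (nat_lit 1) (.nd (nat_lit 2) (.nd (nat_lit 3) (.nd (nat_lit 4) (.nd (nat_lit 5) (.nd (nat_lit 6) 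
(.lf (nat_lit 268800) (.g (nat_lit 1955) (.e (nat_lit 196352) (nat_lit 0) (.e (nat_lit 2031) (nat_lit 140) (.e (nat_lit 688177) (nat_lit 16) (.e (nat_lit 65610) (nat_lit 10) (.e (nat_lit 344156) (nat_lit 36) .nil))))) .nil)) 
(.lf (nat_lit 268864) (.g (nat_lit 1588) (.e (nat_lit 188423) (nat_lit 11) (.e (nat_lit 335996) (nat_lit 1) (.e (nat_lit 57692) (nat_lit 156) (.e (nat_lit 163907) (nat_lit 12) .nil)))) .nil))) (.nd (nat_lit 6) 
(.lf (nat_lit 268832) (.g (nat_lit 1369) (.e (nat_lit 196352) (nat_lit 3) (.e (nat_lit 98342) (nat_lit 20) (.e (nat_lit 221194) (nat_lit 11) (.e (nat_lit 336011) (nat_lit 2) .nil)))) .nil)) 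
(.lf (nat_lit 268896) (.g (nat_lit 760) (.e (nat_lit 196352) (nat_lit 19) (.e (nat_lit 401413) (nat_lit 0) (.e (nat_lit 3459) (nat_lit 216) (.e (nat_lit 688139) (nat_lit 5) .nil)))) .nil)))) (.nd (nat_lit 5) (.nd (nat_lit 6) 
(.lf (nat_lit 268816) (.g (nat_lit 1426) (.e (nat_lit 196352) (nat_lit 0) (.e (nat_lit 2031) (nat_lit 140) (.e (nat_lit 688186) (nat_lit 18) (.e (nat_lit 81959) (nat_lit 24) (.e (nat_lit 130816) (nat_lit 250) .nil))))) .nil)) 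
(.lf (nat_lit 268880) (.g (nat_lit 516) (.e (nat_lit 196352) (nat_lit 11) (.e (nat_lit 336450) (nat_lit 33) (.e (nat_lit 475193) (nat_lit 38) .nil))) .nil))) (.nd (nat_lit 6) 
(.lf (nat_lit 268848) (.g (nat_lit 1563) (.e (nat_lit 188422) (nat_lit 11) (.e (nat_lit 335988) (nat_lit 1) (.e (nat_lit 57692) (nat_lit 156) (.e (nat_lit 163907) (nat_lit 12) .nil)))) .nil)) 
(.lf (nat_lit 268912) (.g (nat_lit 1406) (.e (nat_lit 188424) (nat_lit 20) (.e (nat_lit 3469) (nat_lit 217) (.e (nat_lit 696344) (nat_lit 8) (.e (nat_lit 172106) (nat_lit 10) .nil)))) .nil))))) (.nd (nat_lit 4) (.nd (nat_lit 5) (.nd (nat_lit 6) 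
(.lf (nat_lit 268808) (.g (nat_lit 1936) (.e (nat_lit 196352) (nat_lit 0) (.e (nat_lit 2031) (nat_lit 140) (.e (nat_lit 688178) (nat_lit 16) (.e (nat_lit 65619) (nat_lit 10) (.e (nat_lit 344154) (nat_lit 35) .nil))))) .nil)) 
(.lf (nat_lit 268872) (.g (nat_lit 1499) (.e (nat_lit 188423) (nat_lit 11) (.e (nat_lit 336387) (nat_lit 27) (.e (nat_lit 426107) (nat_lit 1) (.e (nat_lit 164385) (nat_lit 254) (.e (nat_lit 7936) (nat_lit 81) .nil))))) .nil))) (.nd (nat_lit 6) 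
(.lf (nat_lit 268840) (.g (nat_lit 361) (.e (nat_lit 188421) (nat_lit 11) (.e (nat_lit 336288) (nat_lit 15) (.e (nat_lit 7098) (nat_lit 380) .nil))) .nil)) 
(.lf (nat_lit 268904) (.g (nat_lit 2820) (.e (nat_lit 188424) (nat_lit 20) (.e (nat_lit 3238) (nat_lit 197) (.e (nat_lit 532535) (nat_lit 9) (.e (nat_lit 336295) (nat_lit 15) (.e (nat_lit 3631) (nat_lit 227) .nil))))) .nil)))) (.nd (nat_lit 5) (.nd (nat_lit 6) 
(.lf (nat_lit 268824) (.g (nat_lit 965) (.e (nat_lit 196352) (nat_lit 0) (.e (nat_lit 6114) (nat_lit 332) (.e (nat_lit 1167) (nat_lit 86) .nil))) .nil)) 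
(.lf (nat_lit 268888) (.g (nat_lit 2195) (.e (nat_lit 196352) (nat_lit 18) (.e (nat_lit 393251) (nat_lit 18) (.e (nat_lit 164403) (nat_lit 256) (.e (nat_lit 57371) (nat_lit 2) (.e (nat_lit 90175) (nat_lit 15) .nil))))) .nil))) (.nd (nat_lit 6) 
(.lf (nat_lit 268856) (.g (nat_lit 411) (.e (nat_lit 188423) (nat_lit 11) (.e (nat_lit 335986) (nat_lit 1) (.e (nat_lit 57688) (nat_lit 156) .nil))) .nil)) 
(.lf (nat_lit 268920) (.g (nat_lit 2182) (.e (nat_lit 188427) (nat_lit 20) (.e (nat_lit 3397) (nat_lit 211) (.e (nat_lit 647183) (nat_lit 4) (.e (nat_lit 172107) (nat_lit 10) (.e (nat_lit 434272) (nat_lit 38) (.e (nat_lit 655380) (nat_lit 6) .nil)))))) (.g (nat_lit 0) .nil .nil))))))) (.nd (nat_lit 3) (.nd (nat_lit 4) (.nd (nat_lit 5) (.nd (nat_lit 6) 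
(.lf (nat_lit 268804) (.g (nat_lit 1707) (.e (nat_lit 196352) (nat_lit 0) (.e (nat_lit 2031) (nat_lit 140) (.e (nat_lit 688177) (nat_lit 16) (.e (nat_lit 65617) (nat_lit 10) (.e (nat_lit 344155) (nat_lit 36) .nil))))) .nil)) 
(.lf (nat_lit 268868) (.g (nat_lit 1755) (.e (nat_lit 188423) (nat_lit 11) (.e (nat_lit 336387) (nat_lit 27) (.e (nat_lit 426100) (nat_lit 1) (.e (nat_lit 164380) (nat_lit 254) .nil)))) .nil))) (.nd (nat_lit 6) 
(.lf (nat_lit 268836) (.g (nat_lit 635) (.e (nat_lit 188421) (nat_lit 11) (.e (nat_lit 335988) (nat_lit 1) (.e (nat_lit 57692) (nat_lit 156) .nil))) .nil)) 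
(.lf (nat_lit 268900) (.g (nat_lit 3310) (.e (nat_lit 188424) (nat_lit 20) (.e (nat_lit 3238) (nat_lit 197) (.e (nat_lit 532535) (nat_lit 9) (.e (nat_lit 335925) (nat_lit 0) (.e (nat_lit 2006) (nat_lit 138) .nil))))) .nil)))) (.nd (nat_lit 5) (.nd (nat_lit 6) 
(.lf (nat_lit 268820) (.g (nat_lit 1505) (.e (nat_lit 196352) (nat_lit 0) (.e (nat_lit 2162) (nat_lit 143) (.e (nat_lit 712752) (nat_lit 29) (.e (nat_lit 442421) (nat_lit 21) (.e (nat_lit 164347) (nat_lit 240) .nil))))) .nil)) 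
(.lf (nat_lit 268884) (.g (nat_lit 663) (.e (nat_lit 196352) (nat_lit 18) (.e (nat_lit 393234) (nat_lit 17) (.e (nat_lit 2504) (nat_lit 157) (.e (nat_lit 5949) (nat_lit 322) .nil)))) .nil))) (.nd (nat_lit 6) 
(.lf (nat_lit 268852) (.g (nat_lit 1994) (.e (nat_lit 188422) (nat_lit 11) (.e (nat_lit 335996) (nat_lit 1) (.e (nat_lit 57692) (nat_lit 156) (.e (nat_lit 163895) (nat_lit 10) .nil)))) .nil)) 
(.lf (nat_lit 268916) (.g (nat_lit 2288) (.e (nat_lit 188427) (nat_lit 20) (.e (nat_lit 2403) (nat_lit 157) (.e (nat_lit 5112) (nat_lit 292) (.e (nat_lit 1220) (nat_lit 90) (.e (nat_lit 81938) (nat_lit 20) (.e (nat_lit 1963) (nat_lit 134) (.e (nat_lit 639001) (nat_lit 10) .nil))))))) (.g (nat_lit 7) .nil .nil)))))) (.nd (nat_lit 4) (.nd (nat_lit 5) (.nd (nat_lit 6) 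
(.lf (nat_lit 268812) (.g (nat_lit 998) (.e (nat_lit 196352) (nat_lit 0) (.e (nat_lit 2031) (nat_lit 140) (.e (nat_lit 688186) (nat_lit 18) (.e (nat_lit 81959) (nat_lit 24) .nil)))) .nil)) 
(.lf (nat_lit 268876) (.g (nat_lit 2037) (.e (nat_lit 188423) (nat_lit 11) (.e (nat_lit 336387) (nat_lit 27) (.e (nat_lit 426108) (nat_lit 1) (.e (nat_lit 164305) (nat_lit 226) (.e (nat_lit 7936) (nat_lit 87) .nil))))) .nil))) (.nd (nat_lit 6) 
(.lf (nat_lit 268844) (.g (nat_lit 2022) (.e (nat_lit 188421) (nat_lit 11) (.e (nat_lit 336387) (nat_lit 27) (.e (nat_lit 426108) (nat_lit 1) (.e (nat_lit 164305) (nat_lit 226) (.e (nat_lit 7936) (nat_lit 87) .nil))))) .nil)) 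
(.lf (nat_lit 268908) (.g (nat_lit 1981) (.e (nat_lit 188424) (nat_lit 20) (.e (nat_lit 3256) (nat_lit 197) (.e (nat_lit 532544) (nat_lit 10) (.e (nat_lit 344169) (nat_lit 40) (.e (nat_lit 671759) (nat_lit 3) .nil))))) .nil)))) (.nd (nat_lit 5) (.nd (nat_lit 6) 
(.lf (nat_lit 268828) (.g (nat_lit 1226) (.e (nat_lit 196352) (nat_lit 3) (.e (nat_lit 98341) (nat_lit 20) (.e (nat_lit 221194) (nat_lit 11) (.e (nat_lit 336010) (nat_lit 2) .nil)))) .nil)) 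
(.lf (nat_lit 268892) (.g (nat_lit 548) (.e (nat_lit 196352) (nat_lit 18) (.e (nat_lit 393253) (nat_lit 18) (.e (nat_lit 164297) (nat_lit 226) .nil))) .nil))) (.nd (nat_lit 6) 
(.lf (nat_lit 268860) (.g (nat_lit 595) (.e (nat_lit 188423) (nat_lit 11) (.e (nat_lit 335995) (nat_lit 1) (.e (nat_lit 57688) (nat_lit 156) .nil))) .nil)) 
(.lf (nat_lit 268924) (.g (nat_lit 635) (.e (nat_lit 188428) (nat_lit 20) (.e (nat_lit 3281) (nat_lit 200) (.e (nat_lit 557061) (nat_lit 0) (.e (nat_lit 1582) (nat_lit 111) (.e (nat_lit 360493) (nat_lit 27) (.e (nat_lit 819221) (nat_lit 6) .nil)))))) (.g (nat_lit 6) .nil .nil)))))))) (.nd (nat_lit 2) (.nd (nat_lit 3) (.nd (nat_lit 4) (.nd (nat_lit 5) (.nd (nat_lit 6) 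
(.lf (nat_lit 268802) (.g (nat_lit 914) (.e (nat_lit 196352) (nat_lit 0) (.e (nat_lit 2031) (nat_lit 140) (.e (nat_lit 688177) (nat_lit 16) (.e (nat_lit 65617) (nat_lit 10) .nil)))) .nil)) 
(.lf (nat_lit 268866) (.g (nat_lit 2603) (.e (nat_lit 188423) (nat_lit 11) (.e (nat_lit 336387) (nat_lit 27) (.e (nat_lit 426098) (nat_lit 1) (.e (nat_lit 164399) (nat_lit 256) (.e (nat_lit 57372) (nat_lit 2) (.e (nat_lit 90176) (nat_lit 15) .nil)))))) (.g (nat_lit 0) .nil .nil)))) (.nd (nat_lit 6) 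
(.lf (nat_lit 268834) (.g (nat_lit 824) (.e (nat_lit 196352) (nat_lit 3) (.e (nat_lit 98342) (nat_lit 20) (.e (nat_lit 221206) (nat_lit 21) .nil))) .nil)) 
(.lf (nat_lit 268898) (.g (nat_lit 2101) (.e (nat_lit 188424) (nat_lit 20) (.e (nat_lit 3236) (nat_lit 197) (.e (nat_lit 532563) (nat_lit 15) (.e (nat_lit 385094) (nat_lit 49) (.e (nat_lit 778317) (nat_lit 3) .nil))))) .nil)))) (.nd (nat_lit 5) (.nd (nat_lit 6) 
(.lf (nat_lit 268818) (.g (nat_lit 1849) (.e (nat_lit 196352) (nat_lit 0) (.e (nat_lit 2160) (nat_lit 143) (.e (nat_lit 712755) (nat_lit 30) (.e (nat_lit 450593) (nat_lit 16) (.e (nat_lit 655380) (nat_lit 6) .nil))))) .nil)) 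
(.lf (nat_lit 268882) (.g (nat_lit 518) (.e (nat_lit 196352) (nat_lit 18) (.e (nat_lit 393232) (nat_lit 17) (.e (nat_lit 2486) (nat_lit 157) .nil))) .nil))) (.nd (nat_lit 6) 
(.lf (nat_lit 268850) (.g (nat_lit 1136) (.e (nat_lit 188422) (nat_lit 11) (.e (nat_lit 335996) (nat_lit 1) (.e (nat_lit 57665) (nat_lit 152) .nil))) .nil)) 
(.lf (nat_lit 268914) (.g (nat_lit 1187) (.e (nat_lit 188426) (nat_lit 20) (.e (nat_lit 3214) (nat_lit 195) (.e (nat_lit 516119) (nat_lit 1) (.e (nat_lit 164297) (nat_lit 226) (.e (nat_lit 1296) (nat_lit 96) .nil))))) .nil))))) (.nd (nat_lit 4) (.nd (nat_lit 5) (.nd (nat_lit 6) 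
(.lf (nat_lit 268810) (.g (nat_lit 1945) (.e (nat_lit 196352) (nat_lit 0) (.e (nat_lit 2031) (nat_lit 140) (.e (nat_lit 688178) (nat_lit 16) (.e (nat_lit 65619) (nat_lit 10) (.e (nat_lit 344157) (nat_lit 36) .nil))))) .nil)) 
(.lf (nat_lit 268874) (.g (nat_lit 1751) (.e (nat_lit 188423) (nat_lit 11) (.e (nat_lit 336387) (nat_lit 27) (.e (nat_lit 426107) (nat_lit 1) (.e (nat_lit 164403) (nat_lit 256) (.e (nat_lit 57369) (nat_lit 2) (.e (nat_lit 90176) (nat_lit 15) .nil)))))) (.g (nat_lit 4) .nil .nil)))) (.nd (nat_lit 6) 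
(.lf (nat_lit 268842) (.g (nat_lit 2796) (.e (nat_lit 188421) (nat_lit 11) (.e (nat_lit 336387) (nat_lit 27) (.e (nat_lit 426100) (nat_lit 1) (.e (nat_lit 164403) (nat_lit 256) (.e (nat_lit 57371) (nat_lit 2) (.e (nat_lit 90178) (nat_lit 15) .nil)))))) (.g (nat_lit 4) .nil .nil))) 
(.lf (nat_lit 268906) (.g (nat_lit 2780) (.e (nat_lit 188424) (nat_lit 20) (.e (nat_lit 3238) (nat_lit 197) (.e (nat_lit 532563) (nat_lit 15) (.e (nat_lit 385094) (nat_lit 49) (.e (nat_lit 778317) (nat_lit 3) .nil))))) .nil)))) (.nd (nat_lit 5) (.nd (nat_lit 6) 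
(.lf (nat_lit 268826) (.g (nat_lit 449) (.e (nat_lit 196352) (nat_lit 3) (.e (nat_lit 98341) (nat_lit 20) (.e (nat_lit 221193) (nat_lit 11) .nil))) .nil)) 
(.lf (nat_lit 268890) (.g (nat_lit 564) (.e (nat_lit 196352) (nat_lit 18) (.e (nat_lit 393252) (nat_lit 18) (.e (nat_lit 164307) (nat_lit 226) .nil))) .nil))) (.nd (nat_lit 6) 
(.lf (nat_lit 268858) (.g (nat_lit 782) (.e (nat_lit 188423) (nat_lit 11) (.e (nat_lit 335995) (nat_lit 1) (.e (nat_lit 57653) (nat_lit 152) .nil))) .nil)) 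
(.lf (nat_lit 268922) (.g (nat_lit 1729) (.e (nat_lit 188427) (nat_lit 20) (.e (nat_lit 3483) (nat_lit 218) (.e (nat_lit 704779) (nat_lit 14) (.e (nat_lit 1361) (nat_lit 102) (.e (nat_lit 286743) (nat_lit 9) (.e (nat_lit 336316) (nat_lit 17) (.e (nat_lit 204544) (nat_lit 6) .nil))))))) (.g (nat_lit 6) .nil .nil))))))) (.nd (nat_lit 3) (.nd (nat_lit 4) (.nd (nat_lit 5) (.nd (nat_lit 6) 
(.lf (nat_lit 268806) (.g (nat_lit 1611) (.e (nat_lit 196352) (nat_lit 0) (.e (nat_lit 2031) (nat_lit 140) (.e (nat_lit 688178) (nat_lit 16) (.e (nat_lit 65619) (nat_lit 10) (.e (nat_lit 344097) (nat_lit 18) .nil))))) .nil)) 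
(.lf (nat_lit 268870) (.g (nat_lit 2391) (.e (nat_lit 188423) (nat_lit 11) (.e (nat_lit 336387) (nat_lit 27) (.e (nat_lit 426100) (nat_lit 1) (.e (nat_lit 164400) (nat_lit 256) (.e (nat_lit 57375) (nat_lit 2) (.e (nat_lit 90176) (nat_lit 15) .nil)))))) (.g (nat_lit 6) .nil .nil)))) (.nd (nat_lit 6) 
(.lf (nat_lit 268838) (.g (nat_lit 1204) (.e (nat_lit 188421) (nat_lit 11) (.e (nat_lit 335995) (nat_lit 1) (.e (nat_lit 57654) (nat_lit 152) (.e (nat_lit 2636) (nat_lit 165) (.e (nat_lit 188160) (nat_lit 8) .nil))))) .nil)) 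
(.lf (nat_lit 268902) (.g (nat_lit 2077) (.e (nat_lit 188424) (nat_lit 20) (.e (nat_lit 3238) (nat_lit 197) (.e (nat_lit 532535) (nat_lit 9) (.e (nat_lit 336295) (nat_lit 15) .nil)))) .nil)))) (.nd (nat_lit 5) (.nd (nat_lit 6) 
(.lf (nat_lit 268822) (.g (nat_lit 1058) (.e (nat_lit 196352) (nat_lit 0) (.e (nat_lit 2180) (nat_lit 143) (.e (nat_lit 712752) (nat_lit 29) (.e (nat_lit 442382) (nat_lit 8) (.e (nat_lit 163584) (nat_lit 6) .nil))))) .nil)) 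
(.lf (nat_lit 268886) (.g (nat_lit 927) (.e (nat_lit 196352) (nat_lit 18) (.e (nat_lit 393251) (nat_lit 18) (.e (nat_lit 164300) (nat_lit 226) (.e (nat_lit 7936) (nat_lit 87) .nil)))) .nil))) (.nd (nat_lit 6) 
(.lf (nat_lit 268854) (.g (nat_lit 2636) (.e (nat_lit 188422) (nat_lit 11) (.e (nat_lit 335996) (nat_lit 1) (.e (nat_lit 57692) (nat_lit 156) (.e (nat_lit 163907) (nat_lit 12) (.e (nat_lit 425986) (nat_lit 0) .nil))))) .nil)) 
(.lf (nat_lit 268918) (.g (nat_lit 633) (.e (nat_lit 188427) (nat_lit 20) (.e (nat_lit 3282) (nat_lit 200) (.e (nat_lit 557061) (nat_lit 0) (.e (nat_lit 1585) (nat_lit 111) (.e (nat_lit 360493) (nat_lit 27) (.e (nat_lit 819221) (nat_lit 6) .nil)))))) (.g (nat_lit 0) .nil .nil)))))) (.nd (nat_lit 4) (.nd (nat_lit 5) (.nd (nat_lit 6) 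
(.lf (nat_lit 268814) (.g (nat_lit 1503) (.e (nat_lit 196352) (nat_lit 0) (.e (nat_lit 2031) (nat_lit 140) (.e (nat_lit 688186) (nat_lit 18) (.e (nat_lit 81959) (nat_lit 24) (.e (nat_lit 123147) (nat_lit 250) .nil))))) .nil)) 
(.lf (nat_lit 268878) (.g (nat_lit 1523) (.e (nat_lit 188423) (nat_lit 11) (.e (nat_lit 336387) (nat_lit 27) (.e (nat_lit 426108) (nat_lit 1) (.e (nat_lit 164385) (nat_lit 254) .nil)))) .nil))) (.nd (nat_lit 6) 
(.lf (nat_lit 268846) (.g (nat_lit 2041) (.e (nat_lit 188422) (nat_lit 11) (.e (nat_lit 335986) (nat_lit 1) (.e (nat_lit 57692) (nat_lit 156) (.e (nat_lit 163907) (nat_lit 12) (.e (nat_lit 425986) (nat_lit 0) .nil))))) .nil)) 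
(.lf (nat_lit 268910) (.g (nat_lit 1390) (.e (nat_lit 188424) (nat_lit 20) (.e (nat_lit 3307) (nat_lit 202) (.e (nat_lit 573477) (nat_lit 12) (.e (nat_lit 65280) (nat_lit 57) .nil)))) .nil)))) (.nd (nat_lit 5) (.nd (nat_lit 6) 
(.lf (nat_lit 268830) (.g (nat_lit 1346) (.e (nat_lit 196352) (nat_lit 3) (.e (nat_lit 98342) (nat_lit 20) (.e (nat_lit 221194) (nat_lit 11) (.e (nat_lit 336009) (nat_lit 2) .nil)))) .nil)) 
(.lf (nat_lit 268894) (.g (nat_lit 2038) (.e (nat_lit 196352) (nat_lit 18) (.e (nat_lit 393253) (nat_lit 18) (.e (nat_lit 164403) (nat_lit 256) (.e (nat_lit 57371) (nat_lit 2) (.e (nat_lit 90175) (nat_lit 15) .nil))))) .nil))) (.nd (nat_lit 6) 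
(.lf (nat_lit 268862) (.g (nat_lit 755) (.e (nat_lit 188423) (nat_lit 11) (.e (nat_lit 335995) (nat_lit 1) (.e (nat_lit 57691) (nat_lit 156) .nil))) .nil)) 
(.lf (nat_lit 268926) (.g (nat_lit 87) (.e (nat_lit 188428) (nat_lit 20) (.e (nat_lit 3281) (nat_lit 200) (.e (nat_lit 564992) (nat_lit 5) (.e (nat_lit 73788) (nat_lit 45) (.e (nat_lit 1163) (nat_lit 86) (.e (nat_lit 57088) (nat_lit 6) .nil)))))) (.g (nat_lit 4) .nil .nil))))))))) (.nd (nat_lit 1) (.nd (nat_lit 2) (.nd (nat_lit 3) (.nd (nat_lit 4) (.nd (nat_lit 5) (.nd (nat_lit 6) 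
(.lf (nat_lit 268801) (.g (nat_lit 2003) (.e (nat_lit 196352) (nat_lit 0) (.e (nat_lit 2031) (nat_lit 140) (.e (nat_lit 688177) (nat_lit 16) (.e (nat_lit 65610) (nat_lit 10) (.e (nat_lit 344157) (nat_lit 36) .nil))))) .nil)) 
(.lf (nat_lit 268865) (.g (nat_lit 699) (.e (nat_lit 188423) (nat_lit 11) (.e (nat_lit 336288) (nat_lit 15) (.e (nat_lit 7095) (nat_lit 380) .nil))) .nil))) (.nd (nat_lit 6) 
(.lf (nat_lit 268833) (.g (nat_lit 400) (.e (nat_lit 196352) (nat_lit 3) (.e (nat_lit 98342) (nat_lit 20) (.e (nat_lit 221198) (nat_lit 20) .nil))) .nil)) 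
(.lf (nat_lit 268897) (.g (nat_lit 480) (.e (nat_lit 196352) (nat_lit 19) (.e (nat_lit 401414) (nat_lit 0) (.e (nat_lit 3459) (nat_lit 216) .nil))) .nil)))) (.nd (nat_lit 5) (.nd (nat_lit 6) 
(.lf (nat_lit 268817) (.g (nat_lit 581) (.e (nat_lit 196352) (nat_lit 0) (.e (nat_lit 2032) (nat_lit 140) (.e (nat_lit 688186) (nat_lit 18) (.e (nat_lit 81959) (nat_lit 24) .nil)))) .nil)) 
(.lf (nat_lit 268881) (.g (nat_lit 468) (.e (nat_lit 196352) (nat_lit 18) (.e (nat_lit 393232) (nat_lit 17) (.e (nat_lit 2399) (nat_lit 157) .nil))) .nil))) (.nd (nat_lit 6) 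
(.lf (nat_lit 268849) (.g (nat_lit 1184) (.e (nat_lit 188422) (nat_lit 11) (.e (nat_lit 335995) (nat_lit 1) (.e (nat_lit 57688) (nat_lit 156) (.e (nat_lit 163928) (nat_lit 16) .nil)))) .nil)) 
(.lf (nat_lit 268913) (.g (nat_lit 1344) (.e (nat_lit 188424) (nat_lit 20) (.e (nat_lit 3469) (nat_lit 217) (.e (nat_lit 696344) (nat_lit 8) (.e (nat_lit 172113) (nat_lit 10) .nil)))) .nil))))) (.nd (nat_lit 4) (.nd (nat_lit 5) (.nd (nat_lit 6) 
(.lf (nat_lit 268809) (.g (nat_lit 1958) (.e (nat_lit 196352) (nat_lit 0) (.e (nat_lit 2031) (nat_lit 140) (.e (nat_lit 688178) (nat_lit 16) (.e (nat_lit 65619) (nat_lit 10) (.e (nat_lit 344156) (nat_lit 36) .nil))))) .nil)) 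
(.lf (nat_lit 268873) (.g (nat_lit 2596) (.e (nat_lit 188423) (nat_lit 11) (.e (nat_lit 336387) (nat_lit 27) (.e (nat_lit 426107) (nat_lit 1) (.e (nat_lit 164402) (nat_lit 256) (.e (nat_lit 57373) (nat_lit 2) (.e (nat_lit 90176) (nat_lit 15) .nil)))))) (.g (nat_lit 6) .nil .nil)))) (.nd (nat_lit 6) 
(.lf (nat_lit 268841) (.g (nat_lit 1953) (.e (nat_lit 188421) (nat_lit 11) (.e (nat_lit 336387) (nat_lit 27) (.e (nat_lit 426100) (nat_lit 1) (.e (nat_lit 164398) (nat_lit 256) (.e (nat_lit 57375) (nat_lit 2) (.e (nat_lit 90176) (nat_lit 15) .nil)))))) (.g (nat_lit 4) .nil .nil))) 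
(.lf (nat_lit 268905) (.g (nat_lit 2613) (.e (nat_lit 188424) (nat_lit 20) (.e (nat_lit 3238) (nat_lit 197) (.e (nat_lit 532535) (nat_lit 9) (.e (nat_lit 336295) (nat_lit 15) (.e (nat_lit 3632) (nat_lit 227) .nil))))) .nil)))) (.nd (nat_lit 5) (.nd (nat_lit 6) 
(.lf (nat_lit 268825) (.g (nat_lit 228) (.e (nat_lit 196352) (nat_lit 2) (.e (nat_lit 90165) (nat_lit 12) (.e (nat_lit 164050) (nat_lit 55) .nil))) .nil)) 
(.lf (nat_lit 268889) (.g (nat_lit 1083) (.e (nat_lit 196352) (nat_lit 18) (.e (nat_lit 393252) (nat_lit 18) (.e (nat_lit 164305) (nat_lit 226) (.e (nat_lit 7936) (nat_lit 87) .nil)))) .nil))) (.nd (nat_lit 6) 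
(.lf (nat_lit 268857) (.g (nat_lit 1292) (.e (nat_lit 188423) (nat_lit 11) (.e (nat_lit 335986) (nat_lit 1) (.e (nat_lit 57688) (nat_lit 156) (.e (nat_lit 163918) (nat_lit 13) .nil)))) .nil)) 
(.lf (nat_lit 268921) (.g (nat_lit 2407) (.e (nat_lit 188427) (nat_lit 20) (.e (nat_lit 3397) (nat_lit 211) (.e (nat_lit 647183) (nat_lit 4) (.e (nat_lit 172115) (nat_lit 10) (.e (nat_lit 434272) (nat_lit 38) (.e (nat_lit 655380) (nat_lit 6) .nil)))))) (.g (nat_lit 0) .nil .nil))))))) (.nd (nat_lit 3) (.nd (nat_lit 4) (.nd (nat_lit 5) (.nd (nat_lit 6) 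
(.lf (nat_lit 268805) (.g (nat_lit 1686) (.e (nat_lit 196352) (nat_lit 0) (.e (nat_lit 2031) (nat_lit 140) (.e (nat_lit 688178) (nat_lit 16) (.e (nat_lit 65604) (nat_lit 9) (.e (nat_lit 335997) (nat_lit 1) .nil))))) .nil)) 
(.lf (nat_lit 268869) (.g (nat_lit 2535) (.e (nat_lit 188423) (nat_lit 11) (.e (nat_lit 336387) (nat_lit 27) (.e (nat_lit 426100) (nat_lit 1) (.e (nat_lit 164399) (nat_lit 256) (.e (nat_lit 57372) (nat_lit 2) (.e (nat_lit 90176) (nat_lit 15) .nil)))))) (.g (nat_lit 0) .nil .nil)))) (.nd (nat_lit 6) 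
(.lf (nat_lit 268837) (.g (nat_lit 735) (.e (nat_lit 188421) (nat_lit 11) (.e (nat_lit 335995) (nat_lit 1) (.e (nat_lit 57653) (nat_lit 152) (.e (nat_lit 2636) (nat_lit 165) .nil)))) .nil)) 
(.lf (nat_lit 268901) (.g (nat_lit 2365) (.e (nat_lit 188424) (nat_lit 20) (.e (nat_lit 3238) (nat_lit 197) (.e (nat_lit 532535) (nat_lit 9) (.e (nat_lit 335928) (nat_lit 0) .nil)))) .nil)))) (.nd (nat_lit 5) (.nd (nat_lit 6) 
(.lf (nat_lit 268821) (.g (nat_lit 825) (.e (nat_lit 196352) (nat_lit 0) (.e (nat_lit 2170) (nat_lit 143) (.e (nat_lit 712752) (nat_lit 29) (.e (nat_lit 442382) (nat_lit 8) (.e (nat_lit 163584) (nat_lit 6) .nil))))) .nil)) 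
(.lf (nat_lit 268885) (.g (nat_lit 898) (.e (nat_lit 196352) (nat_lit 18) (.e (nat_lit 393251) (nat_lit 18) (.e (nat_lit 164298) (nat_lit 226) (.e (nat_lit 1185) (nat_lit 87) (.e (nat_lit 57477) (nat_lit 28) .nil))))) .nil))) (.nd (nat_lit 6) 
(.lf (nat_lit 268853) (.g (nat_lit 1723) (.e (nat_lit 188422) (nat_lit 11) (.e (nat_lit 335996) (nat_lit 1) (.e (nat_lit 57692) (nat_lit 156) (.e (nat_lit 163907) (nat_lit 12) .nil)))) .nil)) 
(.lf (nat_lit 268917) (.g (nat_lit 1811) (.e (nat_lit 188427) (nat_lit 20) (.e (nat_lit 3279) (nat_lit 200) (.e (nat_lit 557090) (nat_lit 12) (.e (nat_lit 164065) (nat_lit 58) .nil)))) .nil))))) (.nd (nat_lit 4) (.nd (nat_lit 5) (.nd (nat_lit 6) 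
(.lf (nat_lit 268813) (.g (nat_lit 1570) (.e (nat_lit 196352) (nat_lit 0) (.e (nat_lit 2031) (nat_lit 140) (.e (nat_lit 688186) (nat_lit 18) (.e (nat_lit 81959) (nat_lit 24) (.e (nat_lit 123146) (nat_lit 250) .nil))))) .nil)) 
(.lf (nat_lit 268877) (.g (nat_lit 1232) (.e (nat_lit 188423) (nat_lit 11) (.e (nat_lit 336387) (nat_lit 27) (.e (nat_lit 426108) (nat_lit 1) (.e (nat_lit 164312) (nat_lit 226) .nil)))) .nil))) (.nd (nat_lit 6) 
(.lf (nat_lit 268845) (.g (nat_lit 1216) (.e (nat_lit 188421) (nat_lit 11) (.e (nat_lit 336387) (nat_lit 27) (.e (nat_lit 426108) (nat_lit 1) (.e (nat_lit 164312) (nat_lit 226) .nil)))) .nil)) 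
(.lf (nat_lit 268909) (.g (nat_lit 2438) (.e (nat_lit 188424) (nat_lit 20) (.e (nat_lit 3256) (nat_lit 197) (.e (nat_lit 532563) (nat_lit 15) (.e (nat_lit 385094) (nat_lit 49) (.e (nat_lit 778317) (nat_lit 3) .nil))))) .nil)))) (.nd (nat_lit 5) (.nd (nat_lit 6) 
(.lf (nat_lit 268829) (.g (nat_lit 1468) (.e (nat_lit 196352) (nat_lit 3) (.e (nat_lit 98341) (nat_lit 20) (.e (nat_lit 221194) (nat_lit 11) (.e (nat_lit 336011) (nat_lit 2) .nil)))) .nil)) 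
(.lf (nat_lit 268893) (.g (nat_lit 1150) (.e (nat_lit 196352) (nat_lit 18) (.e (nat_lit 393253) (nat_lit 18) (.e (nat_lit 164305) (nat_lit 226) (.e (nat_lit 7936) (nat_lit 87) .nil)))) .nil))) (.nd (nat_lit 6) 
(.lf (nat_lit 268861) (.g (nat_lit 1550) (.e (nat_lit 188423) (nat_lit 11) (.e (nat_lit 335995) (nat_lit 1) (.e (nat_lit 57688) (nat_lit 156) (.e (nat_lit 163918) (nat_lit 13) .nil)))) .nil)) 
(.lf (nat_lit 268925) (.g (nat_lit 755) (.e (nat_lit 188428) (nat_lit 20) (.e (nat_lit 3281) (nat_lit 200) (.e (nat_lit 557061) (nat_lit 0) (.e (nat_lit 1597) (nat_lit 111) (.e (nat_lit 360493) (nat_lit 27) (.e (nat_lit 819221) (nat_lit 6) .nil)))))) (.g (nat_lit 6) .nil .nil)))))))) (.nd (nat_lit 2) (.nd (nat_lit 3) (.nd (nat_lit 4) (.nd (nat_lit 5) (.nd (nat_lit 6) 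
(.lf (nat_lit 268803) (.g (nat_lit 1545) (.e (nat_lit 196352) (nat_lit 0) (.e (nat_lit 2031) (nat_lit 140) (.e (nat_lit 688177) (nat_lit 16) (.e (nat_lit 65617) (nat_lit 10) (.e (nat_lit 344154) (nat_lit 35) .nil))))) .nil)) 
(.lf (nat_lit 268867) (.g (nat_lit 3262) (.e (nat_lit 188423) (nat_lit 11) (.e (nat_lit 336387) (nat_lit 27) (.e (nat_lit 426098) (nat_lit 1) (.e (nat_lit 164403) (nat_lit 256) (.e (nat_lit 57373) (nat_lit 2) (.e (nat_lit 90176) (nat_lit 15) .nil)))))) (.g (nat_lit 0) .nil .nil)))) (.nd (nat_lit 6) 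
(.lf (nat_lit 268835) (.g (nat_lit 1381) (.e (nat_lit 196352) (nat_lit 5) (.e (nat_lit 114710) (nat_lit 21) (.e (nat_lit 57852) (nat_lit 252) (.e (nat_lit 57421) (nat_lit 13) (.e (nat_lit 344149) (nat_lit 33) .nil))))) .nil)) 
(.lf (nat_lit 268899) (.g (nat_lit 2577) (.e (nat_lit 188424) (nat_lit 20) (.e (nat_lit 3238) (nat_lit 197) (.e (nat_lit 532535) (nat_lit 9) (.e (nat_lit 335925) (nat_lit 0) .nil)))) .nil)))) (.nd (nat_lit 5) (.nd (nat_lit 6) 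
(.lf (nat_lit 268819) (.g (nat_lit 1010) (.e (nat_lit 196352) (nat_lit 0) (.e (nat_lit 2162) (nat_lit 143) (.e (nat_lit 712752) (nat_lit 29) (.e (nat_lit 442382) (nat_lit 8) (.e (nat_lit 163584) (nat_lit 6) .nil))))) .nil)) 
(.lf (nat_lit 268883) (.g (nat_lit 624) (.e (nat_lit 196352) (nat_lit 18) (.e (nat_lit 393234) (nat_lit 17) (.e (nat_lit 2486) (nat_lit 157) .nil))) .nil))) (.nd (nat_lit 6) 
(.lf (nat_lit 268851) (.g (nat_lit 962) (.e (nat_lit 188422) (nat_lit 11) (.e (nat_lit 335996) (nat_lit 1) (.e (nat_lit 57692) (nat_lit 156) .nil))) .nil)) 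
(.lf (nat_lit 268915) (.g (nat_lit 2250) (.e (nat_lit 188427) (nat_lit 20) (.e (nat_lit 2402) (nat_lit 157) (.e (nat_lit 5154) (nat_lit 292) (.e (nat_lit 1220) (nat_lit 90) (.e (nat_lit 81938) (nat_lit 20) (.e (nat_lit 1963) (nat_lit 134) (.e (nat_lit 639001) (nat_lit 10) .nil))))))) (.g (nat_lit 7) .nil .nil)))))) (.nd (nat_lit 4) (.nd (nat_lit 5) (.nd (nat_lit 6) 
(.lf (nat_lit 268811) (.g (nat_lit 993) (.e (nat_lit 196352) (nat_lit 0) (.e (nat_lit 2031) (nat_lit 140) (.e (nat_lit 688186) (nat_lit 18) (.e (nat_lit 81950) (nat_lit 21) .nil)))) .nil)) 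
(.lf (nat_lit 268875) (.g (nat_lit 1088) (.e (nat_lit 188423) (nat_lit 11) (.e (nat_lit 336387) (nat_lit 27) (.e (nat_lit 426108) (nat_lit 1) (.e (nat_lit 164297) (nat_lit 226) .nil)))) .nil))) (.nd (nat_lit 6) 
(.lf (nat_lit 268843) (.g (nat_lit 1073) (.e (nat_lit 188421) (nat_lit 11) (.e (nat_lit 336387) (nat_lit 27) (.e (nat_lit 426108) (nat_lit 1) (.e (nat_lit 164297) (nat_lit 226) .nil)))) .nil)) 
(.lf (nat_lit 268907) (.g (nat_lit 2020) (.e (nat_lit 188424) (nat_lit 20) (.e (nat_lit 3242) (nat_lit 197) (.e (nat_lit 532563) (nat_lit 15) (.e (nat_lit 385094) (nat_lit 49) .nil)))) .nil)))) (.nd (nat_lit 5) (.nd (nat_lit 6) 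
(.lf (nat_lit 268827) (.g (nat_lit 1564) (.e (nat_lit 196352) (nat_lit 3) (.e (nat_lit 98341) (nat_lit 20) (.e (nat_lit 221194) (nat_lit 11) (.e (nat_lit 336009) (nat_lit 2) .nil)))) .nil)) 
(.lf (nat_lit 268891) (.g (nat_lit 1511) (.e (nat_lit 196352) (nat_lit 18) (.e (nat_lit 393252) (nat_lit 18) (.e (nat_lit 164403) (nat_lit 256) (.e (nat_lit 57371) (nat_lit 2) .nil)))) .nil))) (.nd (nat_lit 6) 
(.lf (nat_lit 268859) (.g (nat_lit 1045) (.e (nat_lit 188423) (nat_lit 11) (.e (nat_lit 335995) (nat_lit 1) (.e (nat_lit 57654) (nat_lit 152) (.e (nat_lit 2636) (nat_lit 165) .nil)))) .nil)) 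
(.lf (nat_lit 268923) (.g (nat_lit 2805) (.e (nat_lit 188427) (nat_lit 20) (.e (nat_lit 3483) (nat_lit 218) (.e (nat_lit 704826) (nat_lit 14) (.e (nat_lit 1348) (nat_lit 102) (.e (nat_lit 286743) (nat_lit 9) (.e (nat_lit 336316) (nat_lit 17) (.e (nat_lit 204544) (nat_lit 6) .nil))))))) (.g (nat_lit 6) .nil .nil))))))) (.nd (nat_lit 3) (.nd (nat_lit 4) (.nd (nat_lit 5) (.nd (nat_lit 6) 
(.lf (nat_lit 268807) (.g (nat_lit 2032) (.e (nat_lit 196352) (nat_lit 0) (.e (nat_lit 2031) (nat_lit 140) (.e (nat_lit 688178) (nat_lit 16) (.e (nat_lit 65619) (nat_lit 10) (.e (nat_lit 344153) (nat_lit 35) .nil))))) .nil)) 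
(.lf (nat_lit 268871) (.g (nat_lit 1472) (.e (nat_lit 188423) (nat_lit 11) (.e (nat_lit 336387) (nat_lit 27) (.e (nat_lit 426107) (nat_lit 1) (.e (nat_lit 164308) (nat_lit 226) (.e (nat_lit 1176) (nat_lit 87) .nil))))) .nil))) (.nd (nat_lit 6) 
(.lf (nat_lit 268839) (.g (nat_lit 1425) (.e (nat_lit 188421) (nat_lit 11) (.e (nat_lit 335995) (nat_lit 1) (.e (nat_lit 57688) (nat_lit 156) (.e (nat_lit 163899) (nat_lit 11) .nil)))) .nil)) 
(.lf (nat_lit 268903) (.g (nat_lit 2788) (.e (nat_lit 188424) (nat_lit 20) (.e (nat_lit 3238) (nat_lit 197) (.e (nat_lit 532535) (nat_lit 9) (.e (nat_lit 336295) (nat_lit 15) (.e (nat_lit 3630) (nat_lit 227) .nil))))) .nil)))) (.nd (nat_lit 5) (.nd (nat_lit 6) 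
(.lf (nat_lit 268823) (.g (nat_lit 546) (.e (nat_lit 196352) (nat_lit 0) (.e (nat_lit 6113) (nat_lit 332) (.e (nat_lit 1167) (nat_lit 86) .nil))) .nil)) 
(.lf (nat_lit 268887) (.g (nat_lit 669) (.e (nat_lit 196352) (nat_lit 18) (.e (nat_lit 393251) (nat_lit 18) (.e (nat_lit 164321) (nat_lit 229) .nil))) .nil))) (.nd (nat_lit 6) 
(.lf (nat_lit 268855) (.g (nat_lit 2100) (.e (nat_lit 188422) (nat_lit 11) (.e (nat_lit 336387) (nat_lit 27) (.e (nat_lit 426108) (nat_lit 1) (.e (nat_lit 164305) (nat_lit 226) (.e (nat_lit 7936) (nat_lit 87) .nil))))) .nil)) 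
(.lf (nat_lit 268919) (.g (nat_lit 997) (.e (nat_lit 188427) (nat_lit 20) (.e (nat_lit 3282) (nat_lit 200) (.e (nat_lit 557061) (nat_lit 0) (.e (nat_lit 1597) (nat_lit 111) (.e (nat_lit 360493) (nat_lit 27) (.e (nat_lit 819221) (nat_lit 6) .nil)))))) (.g (nat_lit 0) .nil .nil)))))) (.nd (nat_lit 4) (.nd (nat_lit 5) (.nd (nat_lit 6) 
(.lf (nat_lit 268815) (.g (nat_lit 1722) (.e (nat_lit 196352) (nat_lit 0) (.e (nat_lit 2031) (nat_lit 140) (.e (nat_lit 688186) (nat_lit 18) (.e (nat_lit 81959) (nat_lit 24) (.e (nat_lit 123153) (nat_lit 250) .nil))))) .nil)) 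
(.lf (nat_lit 268879) (.g (nat_lit 828) (.e (nat_lit 196352) (nat_lit 11) (.e (nat_lit 336360) (nat_lit 25) (.e (nat_lit 409646) (nat_lit 18) (.e (nat_lit 311040) (nat_lit 17) .nil)))) .nil))) (.nd (nat_lit 6) 
(.lf (nat_lit 268847) (.g (nat_lit 1993) (.e (nat_lit 188422) (nat_lit 11) (.e (nat_lit 335988) (nat_lit 1) (.e (nat_lit 57692) (nat_lit 156) (.e (nat_lit 163895) (nat_lit 10) .nil)))) .nil)) 
(.lf (nat_lit 268911) (.g (nat_lit 3658) (.e (nat_lit 188424) (nat_lit 20) (.e (nat_lit 3421) (nat_lit 213) (.e (nat_lit 663554) (nat_lit 0) (.e (nat_lit 1669) (nat_lit 116) (.e (nat_lit 401454) (nat_lit 12) (.e (nat_lit 475198) (nat_lit 40) (.e (nat_lit 704599) (nat_lit 6) .nil))))))) (.g (nat_lit 7) .nil .nil))))) (.nd (nat_lit 5) (.nd (nat_lit 6) 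
(.lf (nat_lit 268831) (.g (nat_lit 1176) (.e (nat_lit 196352) (nat_lit 3) (.e (nat_lit 98342) (nat_lit 20) (.e (nat_lit 221194) (nat_lit 11) (.e (nat_lit 336010) (nat_lit 2) .nil)))) .nil)) 
(.lf (nat_lit 268895) (.g (nat_lit 283) (.e (nat_lit 196352) (nat_lit 18) (.e (nat_lit 393254) (nat_lit 18) (.e (nat_lit 164320) (nat_lit 229) .nil))) .nil))) (.nd (nat_lit 6) 
(.lf (nat_lit 268863) (.g (nat_lit 850) (.e (nat_lit 188423) (nat_lit 11) (.e (nat_lit 335996) (nat_lit 1) (.e (nat_lit 57692) (nat_lit 156) .nil))) .nil)) 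
(.lf (nat_lit 268927) (.g (nat_lit 352) (.e (nat_lit 188428) (nat_lit 20) (.e (nat_lit 3281) (nat_lit 200) (.e (nat_lit 564992) (nat_lit 5) (.e (nat_lit 73789) (nat_lit 45) (.e (nat_lit 1162) (nat_lit 86) (.e (nat_lit 57088) (nat_lit 6) .nil)))))) (.g (nat_lit 5) .nil .nil))))))))))

noncomputable def tv3452 : DT := (.nd (nat_lit 0) (.nd (nat_lit 1) (.nd (nat_lit 2) (.nd (nat_lit 3) (.nd (nat_lit 4) (.nd (nat_lit 5) 
(.lf (nat_lit 268928) (.g (nat_lit 303) (.e (nat_lit 188428) (nat_lit 20) (.e (nat_lit 3281) (nat_lit 200) (.e (nat_lit 564992) (nat_lit 5) (.e (nat_lit 73789) (nat_lit 45) (.e (nat_lit 1163) (nat_lit 86) (.e (nat_lit 57088) (nat_lit 6) .nil)))))) (.g (nat_lit 5) .nil .nil))) 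
(.lf (nat_lit 268960) (.g (nat_lit 2145) (.e (nat_lit 188431) (nat_lit 20) (.e (nat_lit 3281) (nat_lit 200) (.e (nat_lit 557090) (nat_lit 12) (.e (nat_lit 164038) (nat_lit 55) .nil)))) .nil))) (.nd (nat_lit 5) 
(.lf (nat_lit 268944) (.g (nat_lit 1962) (.e (nat_lit 188430) (nat_lit 20) (.e (nat_lit 3399) (nat_lit 211) (.e (nat_lit 647183) (nat_lit 4) (.e (nat_lit 172106) (nat_lit 10) (.e (nat_lit 434272) (nat_lit 38) (.e (nat_lit 655380) (nat_lit 6) .nil)))))) (.g (nat_lit 6) .nil .nil))) 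
(.lf (nat_lit 268976) (.g (nat_lit 2898) (.e (nat_lit 188434) (nat_lit 20) (.e (nat_lit 3238) (nat_lit 197) (.e (nat_lit 532535) (nat_lit 9) (.e (nat_lit 336295) (nat_lit 15) (.e (nat_lit 3629) (nat_lit 227) .nil))))) .nil)))) (.nd (nat_lit 4) (.nd (nat_lit 5) 
(.lf (nat_lit 268936) (.g (nat_lit 250) (.e (nat_lit 188428) (nat_lit 20) (.e (nat_lit 3282) (nat_lit 200) (.e (nat_lit 564992) (nat_lit 5) (.e (nat_lit 73791) (nat_lit 45) (.e (nat_lit 1162) (nat_lit 86) (.e (nat_lit 57088) (nat_lit 6) .nil)))))) (.g (nat_lit 5) .nil .nil))) 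
(.lf (nat_lit 268968) (.g (nat_lit 636) (.e (nat_lit 188431) (nat_lit 20) (.e (nat_lit 3282) (nat_lit 200) (.e (nat_lit 564992) (nat_lit 5) (.e (nat_lit 73792) (nat_lit 45) (.e (nat_lit 1162) (nat_lit 86) (.e (nat_lit 57088) (nat_lit 6) .nil)))))) (.g (nat_lit 5) .nil .nil)))) (.nd (nat_lit 5) 
(.lf (nat_lit 268952) (.g (nat_lit 462) (.e (nat_lit 188431) (nat_lit 20) (.e (nat_lit 3281) (nat_lit 200) (.e (nat_lit 564992) (nat_lit 5) (.e (nat_lit 73788) (nat_lit 45) (.e (nat_lit 1163) (nat_lit 86) (.e (nat_lit 57088) (nat_lit 6) .nil)))))) (.g (nat_lit 5) .nil .nil))) 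
(.lf (nat_lit 268984) (.g (nat_lit 720) (.e (nat_lit 188434) (nat_lit 20) (.e (nat_lit 3271) (nat_lit 199) (.e (nat_lit 548898) (nat_lit 14) (.e (nat_lit 3045) (nat_lit 189) .nil)))) .nil))))) (.nd (nat_lit 3) (.nd (nat_lit 4) (.nd (nat_lit 5) 
(.lf (nat_lit 268932) (.g (nat_lit 208) (.e (nat_lit 188428) (nat_lit 20) (.e (nat_lit 3282) (nat_lit 200) (.e (nat_lit 564992) (nat_lit 5) (.e (nat_lit 73788) (nat_lit 45) (.e (nat_lit 1162) (nat_lit 86) (.e (nat_lit 57088) (nat_lit 6) .nil)))))) (.g (nat_lit 5) .nil .nil))) 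
(.lf (nat_lit 268964) (.g (nat_lit 706) (.e (nat_lit 188431) (nat_lit 20) (.e (nat_lit 3282) (nat_lit 200) (.e (nat_lit 564992) (nat_lit 5) (.e (nat_lit 73789) (nat_lit 45) (.e (nat_lit 1162) (nat_lit 86) (.e (nat_lit 57088) (nat_lit 6) .nil)))))) (.g (nat_lit 5) .nil .nil)))) (.nd (nat_lit 5) 
(.lf (nat_lit 268948) (.g (nat_lit 1468) (.e (nat_lit 188430) (nat_lit 20) (.e (nat_lit 3399) (nat_lit 211) (.e (nat_lit 647185) (nat_lit 6) (.e (nat_lit 188440) (nat_lit 20) (.e (nat_lit 3409) (nat_lit 212) (.e (nat_lit 655380) (nat_lit 6) .nil)))))) (.g (nat_lit 6) .nil .nil))) 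
(.lf (nat_lit 268980) (.g (nat_lit 2041) (.e (nat_lit 188434) (nat_lit 20) (.e (nat_lit 3252) (nat_lit 197) (.e (nat_lit 532523) (nat_lit 7) (.e (nat_lit 319534) (nat_lit 16) (.e (nat_lit 286733) (nat_lit 2) .nil))))) .nil)))) (.nd (nat_lit 4) (.nd (nat_lit 5) 
(.lf (nat_lit 268940) (.g (nat_lit 2168) (.e (nat_lit 188430) (nat_lit 20) (.e (nat_lit 3277) (nat_lit 200) (.e (nat_lit 557090) (nat_lit 12) (.e (nat_lit 164065) (nat_lit 58) (.e (nat_lit 802822) (nat_lit 11) .nil))))) .nil)) 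
(.lf (nat_lit 268972) (.g (nat_lit 2259) (.e (nat_lit 188433) (nat_lit 20) (.e (nat_lit 3268) (nat_lit 199) (.e (nat_lit 548913) (nat_lit 18) (.e (nat_lit 172120) (nat_lit 12) .nil)))) .nil))) (.nd (nat_lit 5) 
(.lf (nat_lit 268956) (.g (nat_lit 555) (.e (nat_lit 188431) (nat_lit 20) (.e (nat_lit 3281) (nat_lit 200) (.e (nat_lit 564992) (nat_lit 5) (.e (nat_lit 73791) (nat_lit 45) (.e (nat_lit 1162) (nat_lit 86) (.e (nat_lit 57088) (nat_lit 6) .nil)))))) (.g (nat_lit 5) .nil .nil))) 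
(.lf (nat_lit 268988) (.g (nat_lit 3720) (.e (nat_lit 188434) (nat_lit 20) (.e (nat_lit 3272) (nat_lit 199) (.e (nat_lit 548898) (nat_lit 14) (.e (nat_lit 2988) (nat_lit 186) (.e (nat_lit 442374) (nat_lit 0) (.e (nat_lit 1856) (nat_lit 124) (.e (nat_lit 557109) (nat_lit 15) .nil))))))) (.g (nat_lit 0) .nil .nil))))))) (.nd (nat_lit 2) (.nd (nat_lit 3) (.nd (nat_lit 4) (.nd (nat_lit 5) 
(.lf (nat_lit 268930) (.g (nat_lit 733) (.e (nat_lit 188428) (nat_lit 20) (.e (nat_lit 3282) (nat_lit 200) (.e (nat_lit 557060) (nat_lit 0) (.e (nat_lit 1582) (nat_lit 111) (.e (nat_lit 360493) (nat_lit 27) (.e (nat_lit 819221) (nat_lit 6) .nil)))))) (.g (nat_lit 6) .nil .nil))) 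
(.lf (nat_lit 268962) (.g (nat_lit 459) (.e (nat_lit 188431) (nat_lit 20) (.e (nat_lit 3282) (nat_lit 200) (.e (nat_lit 564992) (nat_lit 5) (.e (nat_lit 73788) (nat_lit 45) (.e (nat_lit 1163) (nat_lit 86) (.e (nat_lit 57088) (nat_lit 6) .nil)))))) (.g (nat_lit 5) .nil .nil)))) (.nd (nat_lit 5) 
(.lf (nat_lit 268946) (.g (nat_lit 1151) (.e (nat_lit 188430) (nat_lit 20) (.e (nat_lit 3399) (nat_lit 211) (.e (nat_lit 647185) (nat_lit 6) (.e (nat_lit 188435) (nat_lit 20) (.e (nat_lit 3409) (nat_lit 212) (.e (nat_lit 655380) (nat_lit 6) .nil)))))) (.g (nat_lit 6) .nil .nil))) 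
(.lf (nat_lit 268978) (.g (nat_lit 2008) (.e (nat_lit 188434) (nat_lit 20) (.e (nat_lit 3252) (nat_lit 197) (.e (nat_lit 532522) (nat_lit 7) (.e (nat_lit 319530) (nat_lit 16) (.e (nat_lit 286733) (nat_lit 2) .nil))))) .nil)))) (.nd (nat_lit 4) (.nd (nat_lit 5) 
(.lf (nat_lit 268938) (.g (nat_lit 334) (.e (nat_lit 188428) (nat_lit 20) (.e (nat_lit 3282) (nat_lit 200) (.e (nat_lit 564992) (nat_lit 5) (.e (nat_lit 73792) (nat_lit 45) (.e (nat_lit 1162) (nat_lit 86) (.e (nat_lit 57088) (nat_lit 6) .nil)))))) (.g (nat_lit 5) .nil .nil))) 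
(.lf (nat_lit 268970) (.g (nat_lit 2787) (.e (nat_lit 188433) (nat_lit 20) (.e (nat_lit 3230) (nat_lit 197) (.e (nat_lit 532535) (nat_lit 9) (.e (nat_lit 336295) (nat_lit 15) .nil)))) .nil))) (.nd (nat_lit 5) 
(.lf (nat_lit 268954) (.g (nat_lit 727) (.e (nat_lit 188431) (nat_lit 20) (.e (nat_lit 3281) (nat_lit 200) (.e (nat_lit 564992) (nat_lit 5) (.e (nat_lit 73789) (nat_lit 45) (.e (nat_lit 1162) (nat_lit 86) (.e (nat_lit 57088) (nat_lit 6) .nil)))))) (.g (nat_lit 5) .nil .nil))) 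
(.lf (nat_lit 268986) (.g (nat_lit 419) (.e (nat_lit 188434) (nat_lit 20) (.e (nat_lit 3272) (nat_lit 199) (.e (nat_lit 548898) (nat_lit 14) .nil))) .nil))))) (.nd (nat_lit 3) (.nd (nat_lit 4) (.nd (nat_lit 5) 
(.lf (nat_lit 268934) (.g (nat_lit 404) (.e (nat_lit 188428) (nat_lit 20) (.e (nat_lit 3282) (nat_lit 200) (.e (nat_lit 564992) (nat_lit 5) (.e (nat_lit 73789) (nat_lit 45) (.e (nat_lit 1162) (nat_lit 86) (.e (nat_lit 57088) (nat_lit 6) .nil)))))) (.g (nat_lit 5) .nil .nil))) 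
(.lf (nat_lit 268966) (.g (nat_lit 552) (.e (nat_lit 188431) (nat_lit 20) (.e (nat_lit 3282) (nat_lit 200) (.e (nat_lit 564992) (nat_lit 5) (.e (nat_lit 73791) (nat_lit 45) (.e (nat_lit 1162) (nat_lit 86) (.e (nat_lit 57088) (nat_lit 6) .nil)))))) (.g (nat_lit 5) .nil .nil)))) (.nd (nat_lit 5) 
(.lf (nat_lit 268950) (.g (nat_lit 2384) (.e (nat_lit 188431) (nat_lit 20) (.e (nat_lit 3279) (nat_lit 200) (.e (nat_lit 557090) (nat_lit 12) (.e (nat_lit 164065) (nat_lit 58) (.e (nat_lit 802822) (nat_lit 11) .nil))))) .nil)) 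
(.lf (nat_lit 268982) (.g (nat_lit 1869) (.e (nat_lit 188434) (nat_lit 20) (.e (nat_lit 3271) (nat_lit 199) (.e (nat_lit 548898) (nat_lit 14) (.e (nat_lit 2828) (nat_lit 182) (.e (nat_lit 417536) (nat_lit 6) (.e (nat_lit 286733) (nat_lit 2) (.e (nat_lit 90177) (nat_lit 15) .nil))))))) (.g (nat_lit 4) .nil .nil))))) (.nd (nat_lit 4) (.nd (nat_lit 5) 
(.lf (nat_lit 268942) (.g (nat_lit 767) (.e (nat_lit 188430) (nat_lit 20) (.e (nat_lit 3282) (nat_lit 200) (.e (nat_lit 557061) (nat_lit 0) (.e (nat_lit 1597) (nat_lit 111) (.e (nat_lit 360493) (nat_lit 27) (.e (nat_lit 819221) (nat_lit 6) .nil)))))) (.g (nat_lit 0) .nil .nil))) 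
(.lf (nat_lit 268974) (.g (nat_lit 1890) (.e (nat_lit 188434) (nat_lit 20) (.e (nat_lit 3230) (nat_lit 197) (.e (nat_lit 532523) (nat_lit 7) (.e (nat_lit 319531) (nat_lit 16) (.e (nat_lit 286733) (nat_lit 2) .nil))))) .nil))) (.nd (nat_lit 5) 
(.lf (nat_lit 268958) (.g (nat_lit 513) (.e (nat_lit 188431) (nat_lit 20) (.e (nat_lit 3281) (nat_lit 200) (.e (nat_lit 564992) (nat_lit 5) (.e (nat_lit 73792) (nat_lit 45) (.e (nat_lit 1162) (nat_lit 86) (.e (nat_lit 57088) (nat_lit 6) .nil)))))) (.g (nat_lit 4) .nil .nil))) 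
(.lf (nat_lit 268990) (.g (nat_lit 1253) (.e (nat_lit 188434) (nat_lit 20) (.e (nat_lit 3272) (nat_lit 199) (.e (nat_lit 548898) (nat_lit 14) (.e (nat_lit 3045) (nat_lit 189) .nil)))) .nil))))))) (.nd (nat_lit 1) (.nd (nat_lit 2) (.nd (nat_lit 3) (.nd (nat_lit 4) (.nd (nat_lit 5) 
(.lf (nat_lit 268929) (.g (nat_lit 114) (.e (nat_lit 188428) (nat_lit 20) (.e (nat_lit 3281) (nat_lit 200) (.e (nat_lit 564992) (nat_lit 5) (.e (nat_lit 73791) (nat_lit 45) (.e (nat_lit 1163) (nat_lit 86) (.e (nat_lit 57088) (nat_lit 6) .nil)))))) (.g (nat_lit 4) .nil .nil))) 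
(.lf (nat_lit 268961) (.g (nat_lit 510) (.e (nat_lit 188431) (nat_lit 20) (.e (nat_lit 3282) (nat_lit 200) (.e (nat_lit 564992) (nat_lit 5) (.e (nat_lit 73788) (nat_lit 45) (.e (nat_lit 1162) (nat_lit 86) (.e (nat_lit 57088) (nat_lit 6) .nil)))))) (.g (nat_lit 5) .nil .nil)))) (.nd (nat_lit 5) 
(.lf (nat_lit 268945) (.g (nat_lit 1996) (.e (nat_lit 188430) (nat_lit 20) (.e (nat_lit 3399) (nat_lit 211) (.e (nat_lit 647183) (nat_lit 4) (.e (nat_lit 172115) (nat_lit 10) (.e (nat_lit 434272) (nat_lit 38) (.e (nat_lit 655380) (nat_lit 6) .nil)))))) (.g (nat_lit 6) .nil .nil))) 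
(.lf (nat_lit 268977) (.g (nat_lit 2709) (.e (nat_lit 188434) (nat_lit 20) (.e (nat_lit 3238) (nat_lit 197) (.e (nat_lit 532535) (nat_lit 9) (.e (nat_lit 336295) (nat_lit 15) (.e (nat_lit 3632) (nat_lit 227) .nil))))) .nil)))) (.nd (nat_lit 4) (.nd (nat_lit 5) 
(.lf (nat_lit 268937) (.g (nat_lit 184) (.e (nat_lit 188428) (nat_lit 20) (.e (nat_lit 3282) (nat_lit 200) (.e (nat_lit 564992) (nat_lit 5) (.e (nat_lit 73791) (nat_lit 45) (.e (nat_lit 1163) (nat_lit 86) (.e (nat_lit 57088) (nat_lit 6) .nil)))))) (.g (nat_lit 5) .nil .nil))) 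
(.lf (nat_lit 268969) (.g (nat_lit 578) (.e (nat_lit 188431) (nat_lit 20) (.e (nat_lit 3282) (nat_lit 200) (.e (nat_lit 564992) (nat_lit 5) (.e (nat_lit 73792) (nat_lit 45) (.e (nat_lit 1163) (nat_lit 86) (.e (nat_lit 57088) (nat_lit 6) .nil)))))) (.g (nat_lit 5) .nil .nil)))) (.nd (nat_lit 5) 
(.lf (nat_lit 268953) (.g (nat_lit 478) (.e (nat_lit 188431) (nat_lit 20) (.e (nat_lit 3281) (nat_lit 200) (.e (nat_lit 564992) (nat_lit 5) (.e (nat_lit 73789) (nat_lit 45) (.e (nat_lit 1161) (nat_lit 86) (.e (nat_lit 57088) (nat_lit 6) .nil)))))) (.g (nat_lit 4) .nil .nil))) 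
(.lf (nat_lit 268985) (.g (nat_lit 3334) (.e (nat_lit 188434) (nat_lit 20) (.e (nat_lit 3272) (nat_lit 199) (.e (nat_lit 548897) (nat_lit 14) (.e (nat_lit 2988) (nat_lit 186) (.e (nat_lit 442374) (nat_lit 0) (.e (nat_lit 1856) (nat_lit 124) (.e (nat_lit 557109) (nat_lit 15) .nil))))))) (.g (nat_lit 0) .nil .nil)))))) (.nd (nat_lit 3) (.nd (nat_lit 4) (.nd (nat_lit 5) 
(.lf (nat_lit 268933) (.g (nat_lit 157) (.e (nat_lit 188428) (nat_lit 20) (.e (nat_lit 3282) (nat_lit 200) (.e (nat_lit 564992) (nat_lit 5) (.e (nat_lit 73788) (nat_lit 45) (.e (nat_lit 1163) (nat_lit 86) (.e (nat_lit 57088) (nat_lit 6) .nil)))))) (.g (nat_lit 5) .nil .nil))) 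
(.lf (nat_lit 268965) (.g (nat_lit 657) (.e (nat_lit 188431) (nat_lit 20) (.e (nat_lit 3282) (nat_lit 200) (.e (nat_lit 564992) (nat_lit 5) (.e (nat_lit 73789) (nat_lit 45) (.e (nat_lit 1163) (nat_lit 86) (.e (nat_lit 57088) (nat_lit 6) .nil)))))) (.g (nat_lit 5) .nil .nil)))) (.nd (nat_lit 5) 
(.lf (nat_lit 268949) (.g (nat_lit 1809) (.e (nat_lit 188430) (nat_lit 20) (.e (nat_lit 3399) (nat_lit 211) (.e (nat_lit 647185) (nat_lit 6) (.e (nat_lit 188441) (nat_lit 20) (.e (nat_lit 3409) (nat_lit 212) (.e (nat_lit 655380) (nat_lit 6) .nil)))))) (.g (nat_lit 6) .nil .nil))) 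
(.lf (nat_lit 268981) (.g (nat_lit 848) (.e (nat_lit 188434) (nat_lit 20) (.e (nat_lit 3270) (nat_lit 199) (.e (nat_lit 548915) (nat_lit 20) (.e (nat_lit 196352) (nat_lit 0) .nil)))) .nil)))) (.nd (nat_lit 4) (.nd (nat_lit 5) 
(.lf (nat_lit 268941) (.g (nat_lit 403) (.e (nat_lit 188430) (nat_lit 20) (.e (nat_lit 3282) (nat_lit 200) (.e (nat_lit 557061) (nat_lit 0) (.e (nat_lit 1585) (nat_lit 111) (.e (nat_lit 360493) (nat_lit 27) (.e (nat_lit 819221) (nat_lit 6) .nil)))))) (.g (nat_lit 0) .nil .nil))) 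
(.lf (nat_lit 268973) (.g (nat_lit 1130) (.e (nat_lit 188434) (nat_lit 20) (.e (nat_lit 3230) (nat_lit 197) (.e (nat_lit 532522) (nat_lit 7) (.e (nat_lit 319531) (nat_lit 16) .nil)))) .nil))) (.nd (nat_lit 5) 
(.lf (nat_lit 268957) (.g (nat_lit 489) (.e (nat_lit 188431) (nat_lit 20) (.e (nat_lit 3281) (nat_lit 200) (.e (nat_lit 564992) (nat_lit 5) (.e (nat_lit 73791) (nat_lit 45) (.e (nat_lit 1163) (nat_lit 86) (.e (nat_lit 57088) (nat_lit 6) .nil)))))) (.g (nat_lit 5) .nil .nil))) 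
(.lf (nat_lit 268989) (.g (nat_lit 944) (.e (nat_lit 188434) (nat_lit 20) (.e (nat_lit 3272) (nat_lit 199) (.e (nat_lit 548898) (nat_lit 14) (.e (nat_lit 3004) (nat_lit 186) .nil)))) .nil)))))) (.nd (nat_lit 2) (.nd (nat_lit 3) (.nd (nat_lit 4) (.nd (nat_lit 5) 
(.lf (nat_lit 268931) (.g (nat_lit 807) (.e (nat_lit 188428) (nat_lit 20) (.e (nat_lit 3282) (nat_lit 200) (.e (nat_lit 557060) (nat_lit 0) (.e (nat_lit 1597) (nat_lit 111) (.e (nat_lit 360493) (nat_lit 27) (.e (nat_lit 819221) (nat_lit 6) .nil)))))) (.g (nat_lit 6) .nil .nil))) 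
(.lf (nat_lit 268963) (.g (nat_lit 457) (.e (nat_lit 188431) (nat_lit 20) (.e (nat_lit 3282) (nat_lit 200) (.e (nat_lit 564992) (nat_lit 5) (.e (nat_lit 73789) (nat_lit 45) (.e (nat_lit 1161) (nat_lit 86) (.e (nat_lit 57088) (nat_lit 6) .nil)))))) (.g (nat_lit 4) .nil .nil)))) (.nd (nat_lit 5) 
(.lf (nat_lit 268947) (.g (nat_lit 1356) (.e (nat_lit 188430) (nat_lit 20) (.e (nat_lit 3399) (nat_lit 211) (.e (nat_lit 647185) (nat_lit 6) (.e (nat_lit 188439) (nat_lit 20) (.e (nat_lit 3409) (nat_lit 212) (.e (nat_lit 655380) (nat_lit 6) .nil)))))) (.g (nat_lit 6) .nil .nil))) 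
(.lf (nat_lit 268979) (.g (nat_lit 2196) (.e (nat_lit 188434) (nat_lit 20) (.e (nat_lit 3252) (nat_lit 197) (.e (nat_lit 532523) (nat_lit 7) (.e (nat_lit 319530) (nat_lit 16) (.e (nat_lit 286733) (nat_lit 2) .nil))))) .nil)))) (.nd (nat_lit 4) (.nd (nat_lit 5) 
(.lf (nat_lit 268939) (.g (nat_lit 276) (.e (nat_lit 188428) (nat_lit 20) (.e (nat_lit 3282) (nat_lit 200) (.e (nat_lit 564992) (nat_lit 5) (.e (nat_lit 73792) (nat_lit 45) (.e (nat_lit 1163) (nat_lit 86) (.e (nat_lit 57088) (nat_lit 6) .nil)))))) (.g (nat_lit 5) .nil .nil))) 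
(.lf (nat_lit 268971) (.g (nat_lit 3124) (.e (nat_lit 188433) (nat_lit 20) (.e (nat_lit 3242) (nat_lit 197) (.e (nat_lit 532535) (nat_lit 9) (.e (nat_lit 336295) (nat_lit 15) .nil)))) .nil))) (.nd (nat_lit 5) 
(.lf (nat_lit 268955) (.g (nat_lit 678) (.e (nat_lit 188431) (nat_lit 20) (.e (nat_lit 3281) (nat_lit 200) (.e (nat_lit 564992) (nat_lit 5) (.e (nat_lit 73789) (nat_lit 45) (.e (nat_lit 1163) (nat_lit 86) (.e (nat_lit 57088) (nat_lit 6) .nil)))))) (.g (nat_lit 5) .nil .nil))) 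
(.lf (nat_lit 268987) (.g (nat_lit 1478) (.e (nat_lit 188434) (nat_lit 20) (.e (nat_lit 3272) (nat_lit 199) (.e (nat_lit 548898) (nat_lit 14) (.e (nat_lit 2982) (nat_lit 186) (.e (nat_lit 450304) (nat_lit 0) .nil))))) .nil))))) (.nd (nat_lit 3) (.nd (nat_lit 4) (.nd (nat_lit 5) 
(.lf (nat_lit 268935) (.g (nat_lit 355) (.e (nat_lit 188428) (nat_lit 20) (.e (nat_lit 3282) (nat_lit 200) (.e (nat_lit 564992) (nat_lit 5) (.e (nat_lit 73789) (nat_lit 45) (.e (nat_lit 1163) (nat_lit 86) (.e (nat_lit 57088) (nat_lit 6) .nil)))))) (.g (nat_lit 5) .nil .nil))) 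
(.lf (nat_lit 268967) (.g (nat_lit 486) (.e (nat_lit 188431) (nat_lit 20) (.e (nat_lit 3282) (nat_lit 200) (.e (nat_lit 564992) (nat_lit 5) (.e (nat_lit 73791) (nat_lit 45) (.e (nat_lit 1163) (nat_lit 86) (.e (nat_lit 57088) (nat_lit 6) .nil)))))) (.g (nat_lit 5) .nil .nil)))) (.nd (nat_lit 5) 
(.lf (nat_lit 268951) (.g (nat_lit 513) (.e (nat_lit 188431) (nat_lit 20) (.e (nat_lit 3281) (nat_lit 200) (.e (nat_lit 564992) (nat_lit 5) (.e (nat_lit 73788) (nat_lit 45) (.e (nat_lit 1162) (nat_lit 86) (.e (nat_lit 57088) (nat_lit 6) .nil)))))) (.g (nat_lit 5) .nil .nil))) 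
(.lf (nat_lit 268983) (.g (nat_lit 3301) (.e (nat_lit 188434) (nat_lit 20) (.e (nat_lit 3271) (nat_lit 199) (.e (nat_lit 548898) (nat_lit 14) (.e (nat_lit 2988) (nat_lit 186) (.e (nat_lit 442374) (nat_lit 0) (.e (nat_lit 1856) (nat_lit 124) (.e (nat_lit 557109) (nat_lit 15) .nil))))))) (.g (nat_lit 0) .nil .nil))))) (.nd (nat_lit 4) (.nd (nat_lit 5) 
(.lf (nat_lit 268943) (.g (nat_lit 1036) (.e (nat_lit 188430) (nat_lit 20) (.e (nat_lit 3397) (nat_lit 211) (.e (nat_lit 647183) (nat_lit 4) (.e (nat_lit 172105) (nat_lit 10) (.e (nat_lit 434272) (nat_lit 38) .nil))))) .nil)) 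
(.lf (nat_lit 268975) (.g (nat_lit 2173) (.e (nat_lit 188434) (nat_lit 20) (.e (nat_lit 3238) (nat_lit 197) (.e (nat_lit 532535) (nat_lit 9) (.e (nat_lit 336295) (nat_lit 15) .nil)))) .nil))) (.nd (nat_lit 5) 
(.lf (nat_lit 268959) (.g (nat_lit 455) (.e (nat_lit 188431) (nat_lit 20) (.e (nat_lit 3281) (nat_lit 200) (.e (nat_lit 564992) (nat_lit 5) (.e (nat_lit 73792) (nat_lit 45) (.e (nat_lit 1163) (nat_lit 86) (.e (nat_lit 57088) (nat_lit 6) .nil)))))) (.g (nat_lit 4) .nil .nil))) 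
(.lf (nat_lit 268991) (.g (nat_lit 228) (.e (nat_lit 188434) (nat_lit 20) (.e (nat_lit 3272) (nat_lit 199) (.e (nat_lit 548913) (nat_lit 18) .nil))) .nil))))))))

noncomputable def tv3453 : DT := (.nd (nat_lit 0) (.nd (nat_lit 1) (.nd (nat_lit 2) (.nd (nat_lit 3) (.nd (nat_lit 4) (.nd (nat_lit 5) 
(.lf (nat_lit 268992) (.g (nat_lit 1231) (.e (nat_lit 188434) (nat_lit 20) (.e (nat_lit 3272) (nat_lit 199) (.e (nat_lit 548913) (nat_lit 18) (.e (nat_lit 172061) (nat_lit 1) .nil)))) .nil)) 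
(.lf (nat_lit 269024) (.g (nat_lit 1415) (.e (nat_lit 188434) (nat_lit 20) (.e (nat_lit 3578) (nat_lit 223) (.e (nat_lit 745476) (nat_lit 0) (.e (nat_lit 1575) (nat_lit 110) (.e (nat_lit 360192) (nat_lit 2) (.e (nat_lit 204544) (nat_lit 6) .nil)))))) (.g (nat_lit 4) .nil .nil)))) (.nd (nat_lit 5) 
(.lf (nat_lit 269008) (.g (nat_lit 997) (.e (nat_lit 188434) (nat_lit 20) (.e (nat_lit 3289) (nat_lit 201) (.e (nat_lit 565268) (nat_lit 5) (.e (nat_lit 73792) (nat_lit 45) (.e (nat_lit 1163) (nat_lit 86) (.e (nat_lit 57088) (nat_lit 6) .nil)))))) (.g (nat_lit 5) .nil .nil))) 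
(.lf (nat_lit 269040) (.g (nat_lit 1368) (.e (nat_lit 188434) (nat_lit 20) (.e (nat_lit 3579) (nat_lit 223) (.e (nat_lit 745475) (nat_lit 0) (.e (nat_lit 1569) (nat_lit 110) (.e (nat_lit 360192) (nat_lit 2) (.e (nat_lit 204544) (nat_lit 6) .nil)))))) (.g (nat_lit 4) .nil .nil))))) (.nd (nat_lit 4) (.nd (nat_lit 5) 
(.lf (nat_lit 269000) (.g (nat_lit 868) (.e (nat_lit 188434) (nat_lit 20) (.e (nat_lit 3289) (nat_lit 201) (.e (nat_lit 565268) (nat_lit 5) (.e (nat_lit 73788) (nat_lit 45) (.e (nat_lit 1163) (nat_lit 86) (.e (nat_lit 57088) (nat_lit 6) .nil)))))) (.g (nat_lit 5) .nil .nil))) 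
(.lf (nat_lit 269032) (.g (nat_lit 1068) (.e (nat_lit 188434) (nat_lit 20) (.e (nat_lit 3578) (nat_lit 223) (.e (nat_lit 745493) (nat_lit 6) (.e (nat_lit 81931) (nat_lit 20) (.e (nat_lit 1874) (nat_lit 126) (.e (nat_lit 581376) (nat_lit 6) .nil)))))) (.g (nat_lit 4) .nil .nil)))) (.nd (nat_lit 5) 
(.lf (nat_lit 269016) (.g (nat_lit 1014) (.e (nat_lit 188434) (nat_lit 20) (.e (nat_lit 3578) (nat_lit 223) (.e (nat_lit 745475) (nat_lit 0) (.e (nat_lit 1575) (nat_lit 110) (.e (nat_lit 360192) (nat_lit 2) (.e (nat_lit 204544) (nat_lit 6) .nil)))))) (.g (nat_lit 4) .nil .nil))) 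
(.lf (nat_lit 269048) (.g (nat_lit 1711) (.e (nat_lit 188434) (nat_lit 20) (.e (nat_lit 3579) (nat_lit 223) (.e (nat_lit 745476) (nat_lit 0) (.e (nat_lit 1569) (nat_lit 110) (.e (nat_lit 360192) (nat_lit 2) (.e (nat_lit 204544) (nat_lit 6) .nil)))))) (.g (nat_lit 4) .nil .nil)))))) (.nd (nat_lit 3) (.nd (nat_lit 4) (.nd (nat_lit 5) 
(.lf (nat_lit 268996) (.g (nat_lit 1322) (.e (nat_lit 188434) (nat_lit 20) (.e (nat_lit 3272) (nat_lit 199) (.e (nat_lit 548913) (nat_lit 18) (.e (nat_lit 172098) (nat_lit 9) .nil)))) .nil)) 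
(.lf (nat_lit 269028) (.g (nat_lit 1542) (.e (nat_lit 188434) (nat_lit 20) (.e (nat_lit 3578) (nat_lit 223) (.e (nat_lit 745476) (nat_lit 0) (.e (nat_lit 1595) (nat_lit 111) (.e (nat_lit 368384) (nat_lit 10) (.e (nat_lit 581376) (nat_lit 6) .nil)))))) (.g (nat_lit 4) .nil .nil)))) (.nd (nat_lit 5) 
(.lf (nat_lit 269012) (.g (nat_lit 2010) (.e (nat_lit 188434) (nat_lit 20) (.e (nat_lit 3304) (nat_lit 202) (.e (nat_lit 573471) (nat_lit 11) (.e (nat_lit 16455) (nat_lit 12) .nil)))) .nil)) 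
(.lf (nat_lit 269044) (.g (nat_lit 1599) (.e (nat_lit 188434) (nat_lit 20) (.e (nat_lit 3579) (nat_lit 223) (.e (nat_lit 745475) (nat_lit 0) (.e (nat_lit 1595) (nat_lit 111) (.e (nat_lit 368384) (nat_lit 10) (.e (nat_lit 581376) (nat_lit 6) .nil)))))) (.g (nat_lit 4) .nil .nil))))) (.nd (nat_lit 4) (.nd (nat_lit 5) 
(.lf (nat_lit 269004) (.g (nat_lit 836) (.e (nat_lit 188434) (nat_lit 20) (.e (nat_lit 3289) (nat_lit 201) (.e (nat_lit 565268) (nat_lit 5) (.e (nat_lit 73791) (nat_lit 45) (.e (nat_lit 1161) (nat_lit 86) (.e (nat_lit 57088) (nat_lit 6) .nil)))))) (.g (nat_lit 4) .nil .nil))) 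
(.lf (nat_lit 269036) (.g (nat_lit 1209) (.e (nat_lit 188434) (nat_lit 20) (.e (nat_lit 3578) (nat_lit 223) (.e (nat_lit 745493) (nat_lit 6) (.e (nat_lit 81935) (nat_lit 20) (.e (nat_lit 1878) (nat_lit 126) (.e (nat_lit 581376) (nat_lit 6) .nil)))))) (.g (nat_lit 4) .nil .nil)))) (.nd (nat_lit 5) 
(.lf (nat_lit 269020) (.g (nat_lit 1187) (.e (nat_lit 188434) (nat_lit 20) (.e (nat_lit 3578) (nat_lit 223) (.e (nat_lit 745475) (nat_lit 0) (.e (nat_lit 1595) (nat_lit 111) (.e (nat_lit 368384) (nat_lit 10) (.e (nat_lit 581376) (nat_lit 6) .nil)))))) (.g (nat_lit 4) .nil .nil))) 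
(.lf (nat_lit 269052) (.g (nat_lit 1954) (.e (nat_lit 188434) (nat_lit 20) (.e (nat_lit 3579) (nat_lit 223) (.e (nat_lit 745476) (nat_lit 0) (.e (nat_lit 1589) (nat_lit 111) (.e (nat_lit 368384) (nat_lit 10) (.e (nat_lit 581376) (nat_lit 6) .nil)))))) (.g (nat_lit 4) .nil .nil))))))) (.nd (nat_lit 2) (.nd (nat_lit 3) (.nd (nat_lit 4) (.nd (nat_lit 5) 
(.lf (nat_lit 268994) (.g (nat_lit 1827) (.e (nat_lit 188434) (nat_lit 20) (.e (nat_lit 3272) (nat_lit 199) (.e (nat_lit 548913) (nat_lit 18) (.e (nat_lit 172094) (nat_lit 9) (.e (nat_lit 433920) (nat_lit 15) .nil))))) .nil)) 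
(.lf (nat_lit 269026) (.g (nat_lit 1578) (.e (nat_lit 188434) (nat_lit 20) (.e (nat_lit 3578) (nat_lit 223) (.e (nat_lit 745476) (nat_lit 0) (.e (nat_lit 1586) (nat_lit 111) (.e (nat_lit 368384) (nat_lit 10) (.e (nat_lit 581376) (nat_lit 6) .nil)))))) (.g (nat_lit 4) .nil .nil)))) (.nd (nat_lit 5) 
(.lf (nat_lit 269010) (.g (nat_lit 1341) (.e (nat_lit 188434) (nat_lit 20) (.e (nat_lit 3297) (nat_lit 202) (.e (nat_lit 573471) (nat_lit 11) (.e (nat_lit 16458) (nat_lit 12) .nil)))) .nil)) 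
(.lf (nat_lit 269042) (.g (nat_lit 1578) (.e (nat_lit 188434) (nat_lit 20) (.e (nat_lit 3579) (nat_lit 223) (.e (nat_lit 745475) (nat_lit 0) (.e (nat_lit 1586) (nat_lit 111) (.e (nat_lit 368384) (nat_lit 10) (.e (nat_lit 581376) (nat_lit 6) .nil)))))) (.g (nat_lit 4) .nil .nil))))) (.nd (nat_lit 4) (.nd (nat_lit 5) 
(.lf (nat_lit 269002) (.g (nat_lit 1112) (.e (nat_lit 188434) (nat_lit 20) (.e (nat_lit 3289) (nat_lit 201) (.e (nat_lit 565268) (nat_lit 5) (.e (nat_lit 73789) (nat_lit 45) (.e (nat_lit 1162) (nat_lit 86) (.e (nat_lit 57088) (nat_lit 6) .nil)))))) (.g (nat_lit 5) .nil .nil))) 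
(.lf (nat_lit 269034) (.g (nat_lit 1096) (.e (nat_lit 188434) (nat_lit 20) (.e (nat_lit 3578) (nat_lit 223) (.e (nat_lit 745493) (nat_lit 6) (.e (nat_lit 81931) (nat_lit 20) (.e (nat_lit 1878) (nat_lit 126) (.e (nat_lit 581376) (nat_lit 6) .nil)))))) (.g (nat_lit 5) .nil .nil)))) (.nd (nat_lit 5) 
(.lf (nat_lit 269018) (.g (nat_lit 1154) (.e (nat_lit 188434) (nat_lit 20) (.e (nat_lit 3578) (nat_lit 223) (.e (nat_lit 745475) (nat_lit 0) (.e (nat_lit 1586) (nat_lit 111) (.e (nat_lit 368384) (nat_lit 10) (.e (nat_lit 581376) (nat_lit 6) .nil)))))) (.g (nat_lit 4) .nil .nil))) 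
(.lf (nat_lit 269050) (.g (nat_lit 1855) (.e (nat_lit 188434) (nat_lit 20) (.e (nat_lit 3579) (nat_lit 223) (.e (nat_lit 745476) (nat_lit 0) (.e (nat_lit 1575) (nat_lit 110) (.e (nat_lit 360192) (nat_lit 2) (.e (nat_lit 204544) (nat_lit 6) .nil)))))) (.g (nat_lit 4) .nil .nil)))))) (.nd (nat_lit 3) (.nd (nat_lit 4) (.nd (nat_lit 5) 
(.lf (nat_lit 268998) (.g (nat_lit 1948) (.e (nat_lit 188434) (nat_lit 20) (.e (nat_lit 3272) (nat_lit 199) (.e (nat_lit 548913) (nat_lit 18) (.e (nat_lit 172125) (nat_lit 14) (.e (nat_lit 491524) (nat_lit 0) .nil))))) .nil)) 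
(.lf (nat_lit 269030) (.g (nat_lit 1458) (.e (nat_lit 188434) (nat_lit 20) (.e (nat_lit 3578) (nat_lit 223) (.e (nat_lit 745476) (nat_lit 0) (.e (nat_lit 1598) (nat_lit 111) (.e (nat_lit 368384) (nat_lit 10) (.e (nat_lit 581376) (nat_lit 6) .nil)))))) (.g (nat_lit 4) .nil .nil)))) (.nd (nat_lit 5) 
(.lf (nat_lit 269014) (.g (nat_lit 1038) (.e (nat_lit 188434) (nat_lit 20) (.e (nat_lit 3578) (nat_lit 223) (.e (nat_lit 745475) (nat_lit 0) (.e (nat_lit 1562) (nat_lit 110) (.e (nat_lit 360192) (nat_lit 2) (.e (nat_lit 204544) (nat_lit 6) .nil)))))) (.g (nat_lit 4) .nil .nil))) 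
(.lf (nat_lit 269046) (.g (nat_lit 1639) (.e (nat_lit 188434) (nat_lit 20) (.e (nat_lit 3579) (nat_lit 223) (.e (nat_lit 745476) (nat_lit 0) (.e (nat_lit 1559) (nat_lit 110) (.e (nat_lit 360192) (nat_lit 2) (.e (nat_lit 204544) (nat_lit 6) .nil)))))) (.g (nat_lit 4) .nil .nil))))) (.nd (nat_lit 4) (.nd (nat_lit 5) 
(.lf (nat_lit 269006) (.g (nat_lit 885) (.e (nat_lit 188434) (nat_lit 20) (.e (nat_lit 3289) (nat_lit 201) (.e (nat_lit 565268) (nat_lit 5) (.e (nat_lit 73791) (nat_lit 45) (.e (nat_lit 1163) (nat_lit 86) (.e (nat_lit 57088) (nat_lit 6) .nil)))))) (.g (nat_lit 5) .nil .nil))) 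
(.lf (nat_lit 269038) (.g (nat_lit 417) (.e (nat_lit 188434) (nat_lit 20) (.e (nat_lit 3579) (nat_lit 223) (.e (nat_lit 745473) (nat_lit 0) .nil))) .nil))) (.nd (nat_lit 5) 
(.lf (nat_lit 269022) (.g (nat_lit 1322) (.e (nat_lit 188434) (nat_lit 20) (.e (nat_lit 3578) (nat_lit 223) (.e (nat_lit 745476) (nat_lit 0) (.e (nat_lit 1562) (nat_lit 110) (.e (nat_lit 360192) (nat_lit 2) (.e (nat_lit 204544) (nat_lit 6) .nil)))))) (.g (nat_lit 4) .nil .nil))) 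
(.lf (nat_lit 269054) (.g (nat_lit 1981) (.e (nat_lit 188434) (nat_lit 20) (.e (nat_lit 3579) (nat_lit 223) (.e (nat_lit 745476) (nat_lit 0) (.e (nat_lit 1595) (nat_lit 111) (.e (nat_lit 368384) (nat_lit 10) (.e (nat_lit 581376) (nat_lit 6) .nil)))))) (.g (nat_lit 4) .nil .nil)))))))) (.nd (nat_lit 1) (.nd (nat_lit 2) (.nd (nat_lit 3) (.nd (nat_lit 4) (.nd (nat_lit 5) 
(.lf (nat_lit 268993) (.g (nat_lit 1322) (.e (nat_lit 188434) (nat_lit 20) (.e (nat_lit 3272) (nat_lit 199) (.e (nat_lit 548913) (nat_lit 18) (.e (nat_lit 172089) (nat_lit 9) .nil)))) .nil)) 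
(.lf (nat_lit 269025) (.g (nat_lit 1287) (.e (nat_lit 188434) (nat_lit 20) (.e (nat_lit 3578) (nat_lit 223) (.e (nat_lit 745476) (nat_lit 0) (.e (nat_lit 1586) (nat_lit 111) (.e (nat_lit 368384) (nat_lit 0) .nil))))) .nil))) (.nd (nat_lit 5) 
(.lf (nat_lit 269009) (.g (nat_lit 2107) (.e (nat_lit 188434) (nat_lit 20) (.e (nat_lit 3297) (nat_lit 202) (.e (nat_lit 573471) (nat_lit 11) (.e (nat_lit 16433) (nat_lit 9) .nil)))) .nil)) 
(.lf (nat_lit 269041) (.g (nat_lit 1413) (.e (nat_lit 188434) (nat_lit 20) (.e (nat_lit 3579) (nat_lit 223) (.e (nat_lit 745475) (nat_lit 0) (.e (nat_lit 1575) (nat_lit 110) (.e (nat_lit 360192) (nat_lit 2) (.e (nat_lit 204544) (nat_lit 6) .nil)))))) (.g (nat_lit 4) .nil .nil))))) (.nd (nat_lit 4) (.nd (nat_lit 5) 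
(.lf (nat_lit 269001) (.g (nat_lit 1078) (.e (nat_lit 188434) (nat_lit 20) (.e (nat_lit 3289) (nat_lit 201) (.e (nat_lit 565268) (nat_lit 5) (.e (nat_lit 73789) (nat_lit 45) (.e (nat_lit 1161) (nat_lit 86) (.e (nat_lit 57088) (nat_lit 6) .nil)))))) (.g (nat_lit 4) .nil .nil))) 
(.lf (nat_lit 269033) (.g (nat_lit 1237) (.e (nat_lit 188434) (nat_lit 20) (.e (nat_lit 3578) (nat_lit 223) (.e (nat_lit 745493) (nat_lit 6) (.e (nat_lit 81931) (nat_lit 20) (.e (nat_lit 1876) (nat_lit 126) (.e (nat_lit 581376) (nat_lit 6) .nil)))))) (.g (nat_lit 5) .nil .nil)))) (.nd (nat_lit 5) 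
(.lf (nat_lit 269017) (.g (nat_lit 900) (.e (nat_lit 188434) (nat_lit 20) (.e (nat_lit 3578) (nat_lit 223) (.e (nat_lit 745475) (nat_lit 0) (.e (nat_lit 1576) (nat_lit 110) (.e (nat_lit 360192) (nat_lit 2) (.e (nat_lit 204544) (nat_lit 6) .nil)))))) (.g (nat_lit 4) .nil .nil))) 
(.lf (nat_lit 269049) (.g (nat_lit 1711) (.e (nat_lit 188434) (nat_lit 20) (.e (nat_lit 3579) (nat_lit 223) (.e (nat_lit 745476) (nat_lit 0) (.e (nat_lit 1572) (nat_lit 110) (.e (nat_lit 360192) (nat_lit 2) (.e (nat_lit 204544) (nat_lit 6) .nil)))))) (.g (nat_lit 4) .nil .nil)))))) (.nd (nat_lit 3) (.nd (nat_lit 4) (.nd (nat_lit 5) 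
(.lf (nat_lit 268997) (.g (nat_lit 1305) (.e (nat_lit 188434) (nat_lit 20) (.e (nat_lit 3272) (nat_lit 199) (.e (nat_lit 548913) (nat_lit 18) (.e (nat_lit 179968) (nat_lit 12) .nil)))) .nil)) 
(.lf (nat_lit 269029) (.g (nat_lit 1837) (.e (nat_lit 188434) (nat_lit 20) (.e (nat_lit 3578) (nat_lit 223) (.e (nat_lit 745476) (nat_lit 0) (.e (nat_lit 1595) (nat_lit 111) (.e (nat_lit 360477) (nat_lit 11) (.e (nat_lit 589568) (nat_lit 6) .nil)))))) (.g (nat_lit 5) .nil .nil)))) (.nd (nat_lit 5) 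
(.lf (nat_lit 269013) (.g (nat_lit 1153) (.e (nat_lit 188434) (nat_lit 20) (.e (nat_lit 3469) (nat_lit 217) (.e (nat_lit 696344) (nat_lit 8) (.e (nat_lit 172112) (nat_lit 10) .nil)))) .nil)) 
(.lf (nat_lit 269045) (.g (nat_lit 1384) (.e (nat_lit 188434) (nat_lit 20) (.e (nat_lit 3579) (nat_lit 223) (.e (nat_lit 745475) (nat_lit 0) (.e (nat_lit 1598) (nat_lit 111) (.e (nat_lit 368384) (nat_lit 10) (.e (nat_lit 581376) (nat_lit 6) .nil)))))) (.g (nat_lit 4) .nil .nil))))) (.nd (nat_lit 4) (.nd (nat_lit 5) 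
(.lf (nat_lit 269005) (.g (nat_lit 944) (.e (nat_lit 188434) (nat_lit 20) (.e (nat_lit 3289) (nat_lit 201) (.e (nat_lit 565268) (nat_lit 5) (.e (nat_lit 73791) (nat_lit 45) (.e (nat_lit 1162) (nat_lit 86) (.e (nat_lit 57088) (nat_lit 6) .nil)))))) (.g (nat_lit 5) .nil .nil))) 
(.lf (nat_lit 269037) (.g (nat_lit 1187) (.e (nat_lit 188434) (nat_lit 20) (.e (nat_lit 3578) (nat_lit 223) (.e (nat_lit 745493) (nat_lit 6) (.e (nat_lit 81935) (nat_lit 20) (.e (nat_lit 1879) (nat_lit 126) (.e (nat_lit 581376) (nat_lit 6) .nil)))))) (.g (nat_lit 4) .nil .nil)))) (.nd (nat_lit 5) 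
(.lf (nat_lit 269021) (.g (nat_lit 975) (.e (nat_lit 188434) (nat_lit 20) (.e (nat_lit 3578) (nat_lit 223) (.e (nat_lit 745475) (nat_lit 0) (.e (nat_lit 1598) (nat_lit 111) (.e (nat_lit 368384) (nat_lit 10) (.e (nat_lit 581376) (nat_lit 6) .nil)))))) (.g (nat_lit 4) .nil .nil))) 
(.lf (nat_lit 269053) (.g (nat_lit 1853) (.e (nat_lit 188434) (nat_lit 20) (.e (nat_lit 3579) (nat_lit 223) (.e (nat_lit 745476) (nat_lit 0) (.e (nat_lit 1589) (nat_lit 111) (.e (nat_lit 360477) (nat_lit 11) (.e (nat_lit 589568) (nat_lit 6) .nil)))))) (.g (nat_lit 4) .nil .nil))))))) (.nd (nat_lit 2) (.nd (nat_lit 3) (.nd (nat_lit 4) (.nd (nat_lit 5) 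
(.lf (nat_lit 268995) (.g (nat_lit 2024) (.e (nat_lit 188434) (nat_lit 20) (.e (nat_lit 3272) (nat_lit 199) (.e (nat_lit 548913) (nat_lit 18) (.e (nat_lit 172095) (nat_lit 9) (.e (nat_lit 426380) (nat_lit 15) .nil))))) .nil)) 
(.lf (nat_lit 269027) (.g (nat_lit 1520) (.e (nat_lit 188434) (nat_lit 20) (.e (nat_lit 3578) (nat_lit 223) (.e (nat_lit 745476) (nat_lit 0) (.e (nat_lit 1589) (nat_lit 111) (.e (nat_lit 368384) (nat_lit 10) (.e (nat_lit 581376) (nat_lit 6) .nil)))))) (.g (nat_lit 4) .nil .nil)))) (.nd (nat_lit 5) 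
(.lf (nat_lit 269011) (.g (nat_lit 2276) (.e (nat_lit 188434) (nat_lit 20) (.e (nat_lit 3304) (nat_lit 202) (.e (nat_lit 573454) (nat_lit 9) (.e (nat_lit 1315) (nat_lit 98) (.e (nat_lit 147496) (nat_lit 11) (.e (nat_lit 24603) (nat_lit 2) (.e (nat_lit 90177) (nat_lit 15) .nil))))))) (.g (nat_lit 4) .nil .nil))) 
(.lf (nat_lit 269043) (.g (nat_lit 1593) (.e (nat_lit 188434) (nat_lit 20) (.e (nat_lit 3579) (nat_lit 223) (.e (nat_lit 745475) (nat_lit 0) (.e (nat_lit 1589) (nat_lit 111) (.e (nat_lit 368384) (nat_lit 10) (.e (nat_lit 581376) (nat_lit 6) .nil)))))) (.g (nat_lit 4) .nil .nil))))) (.nd (nat_lit 4) (.nd (nat_lit 5) 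
(.lf (nat_lit 269003) (.g (nat_lit 1072) (.e (nat_lit 188434) (nat_lit 20) (.e (nat_lit 3289) (nat_lit 201) (.e (nat_lit 565268) (nat_lit 5) (.e (nat_lit 73789) (nat_lit 45) (.e (nat_lit 1163) (nat_lit 86) (.e (nat_lit 57088) (nat_lit 6) .nil)))))) (.g (nat_lit 5) .nil .nil))) 
(.lf (nat_lit 269035) (.g (nat_lit 1048) (.e (nat_lit 188434) (nat_lit 20) (.e (nat_lit 3578) (nat_lit 223) (.e (nat_lit 745493) (nat_lit 6) (.e (nat_lit 81931) (nat_lit 20) (.e (nat_lit 1879) (nat_lit 126) (.e (nat_lit 581376) (nat_lit 6) .nil)))))) (.g (nat_lit 4) .nil .nil)))) (.nd (nat_lit 5) 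
(.lf (nat_lit 269019) (.g (nat_lit 1180) (.e (nat_lit 188434) (nat_lit 20) (.e (nat_lit 3578) (nat_lit 223) (.e (nat_lit 745475) (nat_lit 0) (.e (nat_lit 1589) (nat_lit 111) (.e (nat_lit 368384) (nat_lit 10) (.e (nat_lit 581376) (nat_lit 6) .nil)))))) (.g (nat_lit 4) .nil .nil))) 
(.lf (nat_lit 269051) (.g (nat_lit 2009) (.e (nat_lit 188434) (nat_lit 20) (.e (nat_lit 3579) (nat_lit 223) (.e (nat_lit 745476) (nat_lit 0) (.e (nat_lit 1586) (nat_lit 111) (.e (nat_lit 368384) (nat_lit 10) (.e (nat_lit 581376) (nat_lit 6) .nil)))))) (.g (nat_lit 4) .nil .nil)))))) (.nd (nat_lit 3) (.nd (nat_lit 4) (.nd (nat_lit 5) 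
(.lf (nat_lit 268999) (.g (nat_lit 920) (.e (nat_lit 188434) (nat_lit 20) (.e (nat_lit 3289) (nat_lit 201) (.e (nat_lit 565268) (nat_lit 5) (.e (nat_lit 73788) (nat_lit 45) (.e (nat_lit 1162) (nat_lit 86) (.e (nat_lit 57088) (nat_lit 6) .nil)))))) (.g (nat_lit 5) .nil .nil))) 
(.lf (nat_lit 269031) (.g (nat_lit 148) (.e (nat_lit 188434) (nat_lit 20) (.e (nat_lit 3578) (nat_lit 223) (.e (nat_lit 745492) (nat_lit 5) .nil))) .nil))) (.nd (nat_lit 5) 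
(.lf (nat_lit 269015) (.g (nat_lit 961) (.e (nat_lit 188434) (nat_lit 20) (.e (nat_lit 3578) (nat_lit 223) (.e (nat_lit 745475) (nat_lit 0) (.e (nat_lit 1569) (nat_lit 110) (.e (nat_lit 360192) (nat_lit 2) (.e (nat_lit 204544) (nat_lit 6) .nil)))))) (.g (nat_lit 4) .nil .nil))) 
(.lf (nat_lit 269047) (.g (nat_lit 1760) (.e (nat_lit 188434) (nat_lit 20) (.e (nat_lit 3579) (nat_lit 223) (.e (nat_lit 745476) (nat_lit 0) (.e (nat_lit 1562) (nat_lit 110) (.e (nat_lit 360192) (nat_lit 2) (.e (nat_lit 204544) (nat_lit 6) .nil)))))) (.g (nat_lit 4) .nil .nil))))) (.nd (nat_lit 4) (.nd (nat_lit 5) 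
(.lf (nat_lit 269007) (.g (nat_lit 1053) (.e (nat_lit 188434) (nat_lit 20) (.e (nat_lit 3289) (nat_lit 201) (.e (nat_lit 565268) (nat_lit 5) (.e (nat_lit 73792) (nat_lit 45) (.e (nat_lit 1162) (nat_lit 86) (.e (nat_lit 57088) (nat_lit 6) .nil)))))) (.g (nat_lit 5) .nil .nil))) 
(.lf (nat_lit 269039) (.g (nat_lit 1447) (.e (nat_lit 188434) (nat_lit 20) (.e (nat_lit 3579) (nat_lit 223) (.e (nat_lit 745475) (nat_lit 0) (.e (nat_lit 1562) (nat_lit 110) (.e (nat_lit 360192) (nat_lit 2) (.e (nat_lit 204544) (nat_lit 6) .nil)))))) (.g (nat_lit 4) .nil .nil)))) (.nd (nat_lit 5) 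
(.lf (nat_lit 269023) (.g (nat_lit 1278) (.e (nat_lit 188434) (nat_lit 20) (.e (nat_lit 3578) (nat_lit 223) (.e (nat_lit 745476) (nat_lit 0) (.e (nat_lit 1569) (nat_lit 110) (.e (nat_lit 360192) (nat_lit 2) (.e (nat_lit 204544) (nat_lit 6) .nil)))))) (.g (nat_lit 4) .nil .nil))) 
(.lf (nat_lit 269055) (.g (nat_lit 2275) (.e (nat_lit 188434) (nat_lit 20) (.e (nat_lit 3579) (nat_lit 223) (.e (nat_lit 745476) (nat_lit 0) (.e (nat_lit 1595) (nat_lit 111) (.e (nat_lit 360477) (nat_lit 11) (.e (nat_lit 589568) (nat_lit 6) .nil)))))) (.g (nat_lit 5) .nil .nil)))))))))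

noncomputable def tv3454 : DT := (.nd (nat_lit 0) (.nd (nat_lit 1) (.nd (nat_lit 2) (.nd (nat_lit 3) (.nd (nat_lit 4) (.nd (nat_lit 5) 
(.lf (nat_lit 269056) (.g (nat_lit 1901) (.e (nat_lit 188434) (nat_lit 20) (.e (nat_lit 3579) (nat_lit 223) (.e (nat_lit 745476) (nat_lit 0) (.e (nat_lit 1598) (nat_lit 111) (.e (nat_lit 368384) (nat_lit 10) (.e (nat_lit 581376) (nat_lit 6) .nil)))))) (.g (nat_lit 4) .nil .nil))) 
(.lf (nat_lit 269088) (.g (nat_lit 846) (.e (nat_lit 188435) (nat_lit 20) (.e (nat_lit 3578) (nat_lit 223) (.e (nat_lit 745475) (nat_lit 0) (.e (nat_lit 1559) (nat_lit 110) (.e (nat_lit 352269) (nat_lit 7) (.e (nat_lit 245778) (nat_lit 6) .nil)))))) (.g (nat_lit 6) .nil .nil)))) (.nd (nat_lit 5) 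
(.lf (nat_lit 269072) (.g (nat_lit 2684) (.e (nat_lit 188435) (nat_lit 20) (.e (nat_lit 3238) (nat_lit 197) (.e (nat_lit 532535) (nat_lit 9) (.e (nat_lit 336295) (nat_lit 15) (.e (nat_lit 3632) (nat_lit 227) .nil))))) .nil)) 
(.lf (nat_lit 269104) (.g (nat_lit 492) (.e (nat_lit 188435) (nat_lit 20) (.e (nat_lit 3578) (nat_lit 223) (.e (nat_lit 745475) (nat_lit 0) (.e (nat_lit 1599) (nat_lit 111) (.e (nat_lit 368384) (nat_lit 10) (.e (nat_lit 581376) (nat_lit 6) .nil)))))) (.g (nat_lit 4) .nil .nil))))) (.nd (nat_lit 4) (.nd (nat_lit 5) 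
(.lf (nat_lit 269064) (.g (nat_lit 1248) (.e (nat_lit 188434) (nat_lit 20) (.e (nat_lit 3579) (nat_lit 223) (.e (nat_lit 745493) (nat_lit 6) (.e (nat_lit 81933) (nat_lit 20) (.e (nat_lit 1878) (nat_lit 126) (.e (nat_lit 581376) (nat_lit 6) .nil)))))) (.g (nat_lit 4) .nil .nil))) 
(.lf (nat_lit 269096) (.g (nat_lit 2174) (.e (nat_lit 188435) (nat_lit 20) (.e (nat_lit 3578) (nat_lit 223) (.e (nat_lit 745475) (nat_lit 0) (.e (nat_lit 1586) (nat_lit 111) (.e (nat_lit 360477) (nat_lit 11) (.e (nat_lit 581653) (nat_lit 6) .nil)))))) (.g (nat_lit 6) .nil .nil)))) (.nd (nat_lit 5) 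
(.lf (nat_lit 269080) (.g (nat_lit 641) (.e (nat_lit 188435) (nat_lit 20) (.e (nat_lit 3289) (nat_lit 201) (.e (nat_lit 565268) (nat_lit 5) (.e (nat_lit 73789) (nat_lit 45) (.e (nat_lit 1163) (nat_lit 86) (.e (nat_lit 57088) (nat_lit 6) .nil)))))) (.g (nat_lit 5) .nil .nil))) 
(.lf (nat_lit 269112) (.g (nat_lit 1176) (.e (nat_lit 188435) (nat_lit 20) (.e (nat_lit 3578) (nat_lit 223) (.e (nat_lit 745476) (nat_lit 0) (.e (nat_lit 1589) (nat_lit 111) (.e (nat_lit 368384) (nat_lit 10) (.e (nat_lit 581376) (nat_lit 6) .nil)))))) (.g (nat_lit 4) .nil .nil)))))) (.nd (nat_lit 3) (.nd (nat_lit 4) (.nd (nat_lit 5) 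
(.lf (nat_lit 269060) (.g (nat_lit 1500) (.e (nat_lit 188434) (nat_lit 20) (.e (nat_lit 3579) (nat_lit 223) (.e (nat_lit 745493) (nat_lit 6) (.e (nat_lit 81931) (nat_lit 20) (.e (nat_lit 1874) (nat_lit 126) (.e (nat_lit 581376) (nat_lit 6) .nil)))))) (.g (nat_lit 5) .nil .nil))) 
(.lf (nat_lit 269092) (.g (nat_lit 591) (.e (nat_lit 188435) (nat_lit 20) (.e (nat_lit 3578) (nat_lit 223) (.e (nat_lit 745475) (nat_lit 0) (.e (nat_lit 1575) (nat_lit 110) (.e (nat_lit 360192) (nat_lit 2) (.e (nat_lit 204544) (nat_lit 6) .nil)))))) (.g (nat_lit 4) .nil .nil)))) (.nd (nat_lit 5) 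
(.lf (nat_lit 269076) (.g (nat_lit 1001) (.e (nat_lit 188435) (nat_lit 20) (.e (nat_lit 3289) (nat_lit 201) (.e (nat_lit 565251) (nat_lit 0) (.e (nat_lit 1586) (nat_lit 111) (.e (nat_lit 360493) (nat_lit 27) (.e (nat_lit 819221) (nat_lit 6) .nil)))))) (.g (nat_lit 6) .nil .nil))) 
(.lf (nat_lit 269108) (.g (nat_lit 979) (.e (nat_lit 188435) (nat_lit 20) (.e (nat_lit 3578) (nat_lit 223) (.e (nat_lit 745476) (nat_lit 0) (.e (nat_lit 1575) (nat_lit 110) (.e (nat_lit 360192) (nat_lit 2) (.e (nat_lit 204544) (nat_lit 6) .nil)))))) (.g (nat_lit 4) .nil .nil))))) (.nd (nat_lit 4) (.nd (nat_lit 5) 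
(.lf (nat_lit 269068) (.g (nat_lit 1641) (.e (nat_lit 188434) (nat_lit 20) (.e (nat_lit 3579) (nat_lit 223) (.e (nat_lit 745493) (nat_lit 6) (.e (nat_lit 81935) (nat_lit 20) (.e (nat_lit 1878) (nat_lit 126) (.e (nat_lit 581376) (nat_lit 6) .nil)))))) (.g (nat_lit 5) .nil .nil))) 
(.lf (nat_lit 269100) (.g (nat_lit 858) (.e (nat_lit 188435) (nat_lit 20) (.e (nat_lit 3578) (nat_lit 223) (.e (nat_lit 745475) (nat_lit 0) (.e (nat_lit 1595) (nat_lit 111) (.e (nat_lit 368384) (nat_lit 10) (.e (nat_lit 581376) (nat_lit 6) .nil)))))) (.g (nat_lit 4) .nil .nil)))) (.nd (nat_lit 5) 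
(.lf (nat_lit 269084) (.g (nat_lit 563) (.e (nat_lit 188435) (nat_lit 20) (.e (nat_lit 3289) (nat_lit 201) (.e (nat_lit 565268) (nat_lit 5) (.e (nat_lit 73792) (nat_lit 45) (.e (nat_lit 1163) (nat_lit 86) (.e (nat_lit 57088) (nat_lit 6) .nil)))))) (.g (nat_lit 5) .nil .nil))) 
(.lf (nat_lit 269116) (.g (nat_lit 773) (.e (nat_lit 188435) (nat_lit 20) (.e (nat_lit 3578) (nat_lit 223) (.e (nat_lit 745476) (nat_lit 0) (.e (nat_lit 1599) (nat_lit 111) (.e (nat_lit 368384) (nat_lit 10) (.e (nat_lit 581376) (nat_lit 6) .nil)))))) (.g (nat_lit 4) .nil .nil))))))) (.nd (nat_lit 2) (.nd (nat_lit 3) (.nd (nat_lit 4) (.nd (nat_lit 5) 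
(.lf (nat_lit 269058) (.g (nat_lit 442) (.e (nat_lit 188434) (nat_lit 20) (.e (nat_lit 3579) (nat_lit 223) (.e (nat_lit 745492) (nat_lit 5) .nil))) .nil)) 
(.lf (nat_lit 269090) (.g (nat_lit 540) (.e (nat_lit 188435) (nat_lit 20) (.e (nat_lit 3578) (nat_lit 223) (.e (nat_lit 745475) (nat_lit 0) (.e (nat_lit 1569) (nat_lit 110) (.e (nat_lit 360192) (nat_lit 2) (.e (nat_lit 204544) (nat_lit 6) .nil)))))) (.g (nat_lit 4) .nil .nil)))) (.nd (nat_lit 5) 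
(.lf (nat_lit 269074) (.g (nat_lit 380) (.e (nat_lit 188435) (nat_lit 20) (.e (nat_lit 3272) (nat_lit 199) (.e (nat_lit 548913) (nat_lit 18) .nil))) .nil)) 
(.lf (nat_lit 269106) (.g (nat_lit 885) (.e (nat_lit 188435) (nat_lit 20) (.e (nat_lit 3578) (nat_lit 223) (.e (nat_lit 745476) (nat_lit 0) (.e (nat_lit 1562) (nat_lit 110) (.e (nat_lit 360192) (nat_lit 2) (.e (nat_lit 204544) (nat_lit 6) .nil)))))) (.g (nat_lit 4) .nil .nil))))) (.nd (nat_lit 4) (.nd (nat_lit 5) 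
(.lf (nat_lit 269066) (.g (nat_lit 580) (.e (nat_lit 188434) (nat_lit 20) (.e (nat_lit 3579) (nat_lit 223) (.e (nat_lit 745493) (nat_lit 6) (.e (nat_lit 81934) (nat_lit 20) .nil)))) .nil)) 
(.lf (nat_lit 269098) (.g (nat_lit 468) (.e (nat_lit 188435) (nat_lit 20) (.e (nat_lit 3578) (nat_lit 223) (.e (nat_lit 745475) (nat_lit 0) (.e (nat_lit 1592) (nat_lit 111) (.e (nat_lit 368384) (nat_lit 10) (.e (nat_lit 581376) (nat_lit 6) .nil)))))) (.g (nat_lit 4) .nil .nil)))) (.nd (nat_lit 5) 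
(.lf (nat_lit 269082) (.g (nat_lit 448) (.e (nat_lit 188435) (nat_lit 20) (.e (nat_lit 3289) (nat_lit 201) (.e (nat_lit 565268) (nat_lit 5) (.e (nat_lit 73791) (nat_lit 45) (.e (nat_lit 1163) (nat_lit 86) (.e (nat_lit 57088) (nat_lit 6) .nil)))))) (.g (nat_lit 5) .nil .nil))) 
(.lf (nat_lit 269114) (.g (nat_lit 1203) (.e (nat_lit 188435) (nat_lit 20) (.e (nat_lit 3578) (nat_lit 223) (.e (nat_lit 745476) (nat_lit 0) (.e (nat_lit 1595) (nat_lit 111) (.e (nat_lit 368384) (nat_lit 10) (.e (nat_lit 581376) (nat_lit 6) .nil)))))) (.g (nat_lit 4) .nil .nil)))))) (.nd (nat_lit 3) (.nd (nat_lit 4) (.nd (nat_lit 5) 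
(.lf (nat_lit 269062) (.g (nat_lit 1525) (.e (nat_lit 188434) (nat_lit 20) (.e (nat_lit 3579) (nat_lit 223) (.e (nat_lit 745493) (nat_lit 6) (.e (nat_lit 81931) (nat_lit 20) (.e (nat_lit 1878) (nat_lit 126) (.e (nat_lit 581376) (nat_lit 6) .nil)))))) (.g (nat_lit 5) .nil .nil))) 
(.lf (nat_lit 269094) (.g (nat_lit 479) (.e (nat_lit 188435) (nat_lit 20) (.e (nat_lit 3578) (nat_lit 223) (.e (nat_lit 745475) (nat_lit 0) (.e (nat_lit 1576) (nat_lit 110) (.e (nat_lit 360192) (nat_lit 2) (.e (nat_lit 204544) (nat_lit 6) .nil)))))) (.g (nat_lit 4) .nil .nil)))) (.nd (nat_lit 5) 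
(.lf (nat_lit 269078) (.g (nat_lit 430) (.e (nat_lit 188435) (nat_lit 20) (.e (nat_lit 3289) (nat_lit 201) (.e (nat_lit 565268) (nat_lit 5) (.e (nat_lit 73788) (nat_lit 45) (.e (nat_lit 1163) (nat_lit 86) (.e (nat_lit 57088) (nat_lit 6) .nil)))))) (.g (nat_lit 5) .nil .nil))) 
(.lf (nat_lit 269110) (.g (nat_lit 1275) (.e (nat_lit 188435) (nat_lit 20) (.e (nat_lit 3578) (nat_lit 223) (.e (nat_lit 745476) (nat_lit 0) (.e (nat_lit 1586) (nat_lit 111) (.e (nat_lit 368384) (nat_lit 10) .nil))))) .nil)))) (.nd (nat_lit 4) (.nd (nat_lit 5) 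
(.lf (nat_lit 269070) (.g (nat_lit 2372) (.e (nat_lit 188435) (nat_lit 20) (.e (nat_lit 3230) (nat_lit 197) (.e (nat_lit 532563) (nat_lit 15) (.e (nat_lit 385094) (nat_lit 49) (.e (nat_lit 778317) (nat_lit 3) .nil))))) .nil)) 
(.lf (nat_lit 269102) (.g (nat_lit 649) (.e (nat_lit 188435) (nat_lit 20) (.e (nat_lit 3578) (nat_lit 223) (.e (nat_lit 745475) (nat_lit 0) (.e (nat_lit 1598) (nat_lit 111) (.e (nat_lit 368384) (nat_lit 10) (.e (nat_lit 581376) (nat_lit 6) .nil)))))) (.g (nat_lit 4) .nil .nil)))) (.nd (nat_lit 5) 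
(.lf (nat_lit 269086) (.g (nat_lit 597) (.e (nat_lit 188435) (nat_lit 20) (.e (nat_lit 3390) (nat_lit 210) (.e (nat_lit 639007) (nat_lit 13) (.e (nat_lit 1592) (nat_lit 111) (.e (nat_lit 360480) (nat_lit 14) (.e (nat_lit 639001) (nat_lit 10) .nil)))))) (.g (nat_lit 6) .nil .nil))) 
(.lf (nat_lit 269118) (.g (nat_lit 753) (.e (nat_lit 188435) (nat_lit 20) (.e (nat_lit 3578) (nat_lit 223) (.e (nat_lit 745493) (nat_lit 6) (.e (nat_lit 81931) (nat_lit 20) (.e (nat_lit 1876) (nat_lit 126) (.e (nat_lit 581376) (nat_lit 6) .nil)))))) (.g (nat_lit 5) .nil .nil)))))))) (.nd (nat_lit 1) (.nd (nat_lit 2) (.nd (nat_lit 3) (.nd (nat_lit 4) (.nd (nat_lit 5) 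
(.lf (nat_lit 269057) (.g (nat_lit 1933) (.e (nat_lit 188434) (nat_lit 20) (.e (nat_lit 3579) (nat_lit 223) (.e (nat_lit 745476) (nat_lit 0) (.e (nat_lit 1598) (nat_lit 111) (.e (nat_lit 360477) (nat_lit 11) (.e (nat_lit 589568) (nat_lit 6) .nil)))))) (.g (nat_lit 4) .nil .nil))) 
(.lf (nat_lit 269089) (.g (nat_lit 616) (.e (nat_lit 188435) (nat_lit 20) (.e (nat_lit 3578) (nat_lit 223) (.e (nat_lit 745475) (nat_lit 0) (.e (nat_lit 1562) (nat_lit 110) (.e (nat_lit 360192) (nat_lit 2) (.e (nat_lit 204544) (nat_lit 6) .nil)))))) (.g (nat_lit 4) .nil .nil)))) (.nd (nat_lit 5) 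
(.lf (nat_lit 269073) (.g (nat_lit 2116) (.e (nat_lit 188435) (nat_lit 20) (.e (nat_lit 3238) (nat_lit 197) (.e (nat_lit 532563) (nat_lit 15) (.e (nat_lit 385094) (nat_lit 49) .nil)))) .nil)) 
(.lf (nat_lit 269105) (.g (nat_lit 764) (.e (nat_lit 188435) (nat_lit 20) (.e (nat_lit 3578) (nat_lit 223) (.e (nat_lit 745476) (nat_lit 0) (.e (nat_lit 1559) (nat_lit 110) (.e (nat_lit 360192) (nat_lit 2) (.e (nat_lit 204544) (nat_lit 6) .nil)))))) (.g (nat_lit 4) .nil .nil))))) (.nd (nat_lit 4) (.nd (nat_lit 5) 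
(.lf (nat_lit 269065) (.g (nat_lit 1256) (.e (nat_lit 188434) (nat_lit 20) (.e (nat_lit 3579) (nat_lit 223) (.e (nat_lit 745493) (nat_lit 6) (.e (nat_lit 81933) (nat_lit 20) (.e (nat_lit 1879) (nat_lit 126) (.e (nat_lit 581376) (nat_lit 6) .nil)))))) (.g (nat_lit 4) .nil .nil))) 
(.lf (nat_lit 269097) (.g (nat_lit 852) (.e (nat_lit 188435) (nat_lit 20) (.e (nat_lit 3578) (nat_lit 223) (.e (nat_lit 745475) (nat_lit 0) (.e (nat_lit 1589) (nat_lit 111) (.e (nat_lit 368384) (nat_lit 10) (.e (nat_lit 581376) (nat_lit 6) .nil)))))) (.g (nat_lit 4) .nil .nil)))) (.nd (nat_lit 5) 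
(.lf (nat_lit 269081) (.g (nat_lit 507) (.e (nat_lit 188435) (nat_lit 20) (.e (nat_lit 3289) (nat_lit 201) (.e (nat_lit 565268) (nat_lit 5) (.e (nat_lit 73791) (nat_lit 45) (.e (nat_lit 1162) (nat_lit 86) (.e (nat_lit 57088) (nat_lit 6) .nil)))))) (.g (nat_lit 5) .nil .nil))) 
(.lf (nat_lit 269113) (.g (nat_lit 785) (.e (nat_lit 188435) (nat_lit 20) (.e (nat_lit 3578) (nat_lit 223) (.e (nat_lit 745476) (nat_lit 0) (.e (nat_lit 1592) (nat_lit 111) (.e (nat_lit 368384) (nat_lit 10) (.e (nat_lit 581376) (nat_lit 6) .nil)))))) (.g (nat_lit 4) .nil .nil)))))) (.nd (nat_lit 3) (.nd (nat_lit 4) (.nd (nat_lit 5) 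
(.lf (nat_lit 269061) (.g (nat_lit 1668) (.e (nat_lit 188434) (nat_lit 20) (.e (nat_lit 3579) (nat_lit 223) (.e (nat_lit 745493) (nat_lit 6) (.e (nat_lit 81931) (nat_lit 20) (.e (nat_lit 1876) (nat_lit 126) (.e (nat_lit 581376) (nat_lit 6) .nil)))))) (.g (nat_lit 5) .nil .nil))) 
(.lf (nat_lit 269093) (.g (nat_lit 1010) (.e (nat_lit 188435) (nat_lit 20) (.e (nat_lit 3578) (nat_lit 223) (.e (nat_lit 745475) (nat_lit 0) (.e (nat_lit 1575) (nat_lit 110) (.e (nat_lit 352269) (nat_lit 7) (.e (nat_lit 245778) (nat_lit 6) .nil)))))) (.g (nat_lit 6) .nil .nil)))) (.nd (nat_lit 5) 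
(.lf (nat_lit 269077) (.g (nat_lit 482) (.e (nat_lit 188435) (nat_lit 20) (.e (nat_lit 3289) (nat_lit 201) (.e (nat_lit 565268) (nat_lit 5) (.e (nat_lit 73788) (nat_lit 45) (.e (nat_lit 1162) (nat_lit 86) (.e (nat_lit 57088) (nat_lit 6) .nil)))))) (.g (nat_lit 5) .nil .nil))) 
(.lf (nat_lit 269109) (.g (nat_lit 763) (.e (nat_lit 188435) (nat_lit 20) (.e (nat_lit 3578) (nat_lit 223) (.e (nat_lit 745476) (nat_lit 0) (.e (nat_lit 1576) (nat_lit 110) (.e (nat_lit 360192) (nat_lit 2) (.e (nat_lit 204544) (nat_lit 6) .nil)))))) (.g (nat_lit 4) .nil .nil))))) (.nd (nat_lit 4) (.nd (nat_lit 5) 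
(.lf (nat_lit 269069) (.g (nat_lit 1621) (.e (nat_lit 188434) (nat_lit 20) (.e (nat_lit 3579) (nat_lit 223) (.e (nat_lit 745493) (nat_lit 6) (.e (nat_lit 81935) (nat_lit 20) (.e (nat_lit 1879) (nat_lit 126) (.e (nat_lit 581376) (nat_lit 6) .nil)))))) (.g (nat_lit 5) .nil .nil))) 
(.lf (nat_lit 269101) (.g (nat_lit 1913) (.e (nat_lit 188435) (nat_lit 20) (.e (nat_lit 3578) (nat_lit 223) (.e (nat_lit 745475) (nat_lit 0) (.e (nat_lit 1595) (nat_lit 111) (.e (nat_lit 360477) (nat_lit 11) (.e (nat_lit 581653) (nat_lit 6) .nil)))))) (.g (nat_lit 6) .nil .nil)))) (.nd (nat_lit 5) 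
(.lf (nat_lit 269085) (.g (nat_lit 1015) (.e (nat_lit 188435) (nat_lit 20) (.e (nat_lit 3390) (nat_lit 210) (.e (nat_lit 639007) (nat_lit 13) (.e (nat_lit 1586) (nat_lit 111) (.e (nat_lit 360480) (nat_lit 14) (.e (nat_lit 639001) (nat_lit 10) .nil)))))) (.g (nat_lit 6) .nil .nil))) 
(.lf (nat_lit 269117) (.g (nat_lit 143) (.e (nat_lit 188435) (nat_lit 20) (.e (nat_lit 3578) (nat_lit 223) (.e (nat_lit 745493) (nat_lit 6) .nil))) .nil)))))) (.nd (nat_lit 2) (.nd (nat_lit 3) (.nd (nat_lit 4) (.nd (nat_lit 5) 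
(.lf (nat_lit 269059) (.g (nat_lit 447) (.e (nat_lit 188434) (nat_lit 20) (.e (nat_lit 3579) (nat_lit 223) (.e (nat_lit 745493) (nat_lit 6) .nil))) .nil)) 
(.lf (nat_lit 269091) (.g (nat_lit 754) (.e (nat_lit 188435) (nat_lit 20) (.e (nat_lit 3578) (nat_lit 223) (.e (nat_lit 745475) (nat_lit 0) (.e (nat_lit 1569) (nat_lit 110) (.e (nat_lit 352269) (nat_lit 7) (.e (nat_lit 245778) (nat_lit 6) .nil)))))) (.g (nat_lit 6) .nil .nil)))) (.nd (nat_lit 5) 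
(.lf (nat_lit 269075) (.g (nat_lit 1396) (.e (nat_lit 188435) (nat_lit 20) (.e (nat_lit 3272) (nat_lit 199) (.e (nat_lit 548913) (nat_lit 18) (.e (nat_lit 172087) (nat_lit 9) .nil)))) .nil)) 
(.lf (nat_lit 269107) (.g (nat_lit 839) (.e (nat_lit 188435) (nat_lit 20) (.e (nat_lit 3578) (nat_lit 223) (.e (nat_lit 745476) (nat_lit 0) (.e (nat_lit 1569) (nat_lit 110) (.e (nat_lit 360192) (nat_lit 2) (.e (nat_lit 204544) (nat_lit 6) .nil)))))) (.g (nat_lit 4) .nil .nil))))) (.nd (nat_lit 4) (.nd (nat_lit 5) 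
(.lf (nat_lit 269067) (.g (nat_lit 1252) (.e (nat_lit 188434) (nat_lit 20) (.e (nat_lit 3579) (nat_lit 223) (.e (nat_lit 745493) (nat_lit 6) (.e (nat_lit 81934) (nat_lit 20) (.e (nat_lit 1879) (nat_lit 126) (.e (nat_lit 581376) (nat_lit 6) .nil)))))) (.g (nat_lit 4) .nil .nil))) 
(.lf (nat_lit 269099) (.g (nat_lit 1506) (.e (nat_lit 188435) (nat_lit 20) (.e (nat_lit 3578) (nat_lit 223) (.e (nat_lit 745475) (nat_lit 0) (.e (nat_lit 1592) (nat_lit 111) (.e (nat_lit 360477) (nat_lit 11) (.e (nat_lit 581653) (nat_lit 6) .nil)))))) (.g (nat_lit 6) .nil .nil)))) (.nd (nat_lit 5) 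
(.lf (nat_lit 269083) (.g (nat_lit 619) (.e (nat_lit 188435) (nat_lit 20) (.e (nat_lit 3289) (nat_lit 201) (.e (nat_lit 565268) (nat_lit 5) (.e (nat_lit 73792) (nat_lit 45) (.e (nat_lit 1162) (nat_lit 86) (.e (nat_lit 57088) (nat_lit 6) .nil)))))) (.g (nat_lit 5) .nil .nil))) 
(.lf (nat_lit 269115) (.g (nat_lit 1124) (.e (nat_lit 188435) (nat_lit 20) (.e (nat_lit 3578) (nat_lit 223) (.e (nat_lit 745476) (nat_lit 0) (.e (nat_lit 1598) (nat_lit 111) (.e (nat_lit 368384) (nat_lit 10) (.e (nat_lit 581376) (nat_lit 6) .nil)))))) (.g (nat_lit 4) .nil .nil)))))) (.nd (nat_lit 3) (.nd (nat_lit 4) (.nd (nat_lit 5) 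
(.lf (nat_lit 269063) (.g (nat_lit 1479) (.e (nat_lit 188434) (nat_lit 20) (.e (nat_lit 3579) (nat_lit 223) (.e (nat_lit 745493) (nat_lit 6) (.e (nat_lit 81931) (nat_lit 20) (.e (nat_lit 1879) (nat_lit 126) (.e (nat_lit 581376) (nat_lit 6) .nil)))))) (.g (nat_lit 5) .nil .nil))) 
(.lf (nat_lit 269095) (.g (nat_lit 831) (.e (nat_lit 188435) (nat_lit 20) (.e (nat_lit 3578) (nat_lit 223) (.e (nat_lit 745475) (nat_lit 0) (.e (nat_lit 1586) (nat_lit 111) (.e (nat_lit 368384) (nat_lit 10) .nil))))) .nil))) (.nd (nat_lit 5) 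
(.lf (nat_lit 269079) (.g (nat_lit 681) (.e (nat_lit 188435) (nat_lit 20) (.e (nat_lit 3289) (nat_lit 201) (.e (nat_lit 565268) (nat_lit 5) (.e (nat_lit 73789) (nat_lit 45) (.e (nat_lit 1162) (nat_lit 86) (.e (nat_lit 57088) (nat_lit 6) .nil)))))) (.g (nat_lit 5) .nil .nil))) 
(.lf (nat_lit 269111) (.g (nat_lit 1275) (.e (nat_lit 188435) (nat_lit 20) (.e (nat_lit 3578) (nat_lit 223) (.e (nat_lit 745476) (nat_lit 0) (.e (nat_lit 1586) (nat_lit 111) (.e (nat_lit 368384) (nat_lit 11) .nil))))) .nil)))) (.nd (nat_lit 4) (.nd (nat_lit 5) 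
(.lf (nat_lit 269071) (.g (nat_lit 2148) (.e (nat_lit 188435) (nat_lit 20) (.e (nat_lit 3238) (nat_lit 197) (.e (nat_lit 532535) (nat_lit 9) (.e (nat_lit 336295) (nat_lit 15) .nil)))) .nil)) 
(.lf (nat_lit 269103) (.g (nat_lit 1837) (.e (nat_lit 188435) (nat_lit 20) (.e (nat_lit 3578) (nat_lit 223) (.e (nat_lit 745475) (nat_lit 0) (.e (nat_lit 1598) (nat_lit 111) (.e (nat_lit 360477) (nat_lit 11) (.e (nat_lit 581653) (nat_lit 6) .nil)))))) (.g (nat_lit 6) .nil .nil)))) (.nd (nat_lit 5) 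
(.lf (nat_lit 269087) (.g (nat_lit 1743) (.e (nat_lit 188435) (nat_lit 20) (.e (nat_lit 3469) (nat_lit 217) (.e (nat_lit 696344) (nat_lit 8) (.e (nat_lit 172106) (nat_lit 10) (.e (nat_lit 434202) (nat_lit 18) .nil))))) .nil)) 
(.lf (nat_lit 269119) (.g (nat_lit 483) (.e (nat_lit 188435) (nat_lit 20) (.e (nat_lit 3578) (nat_lit 223) (.e (nat_lit 745493) (nat_lit 6) (.e (nat_lit 81931) (nat_lit 20) (.e (nat_lit 1878) (nat_lit 126) .nil))))) .nil))))))))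

noncomputable def tv3455 : DT := (.nd (nat_lit 0) (.nd (nat_lit 1) (.nd (nat_lit 2) (.nd (nat_lit 3) (.nd (nat_lit 4) (.nd (nat_lit 5) 
(.lf (nat_lit 269120) (.g (nat_lit 648) (.e (nat_lit 188435) (nat_lit 20) (.e (nat_lit 3578) (nat_lit 223) (.e (nat_lit 745493) (nat_lit 6) (.e (nat_lit 81931) (nat_lit 20) (.e (nat_lit 1879) (nat_lit 126) (.e (nat_lit 581376) (nat_lit 6) .nil)))))) (.g (nat_lit 5) .nil .nil))) 
(.lf (nat_lit 269152) (.g (nat_lit 1527) (.e (nat_lit 188435) (nat_lit 20) (.e (nat_lit 3579) (nat_lit 223) (.e (nat_lit 745476) (nat_lit 0) (.e (nat_lit 1595) (nat_lit 111) (.e (nat_lit 368384) (nat_lit 10) (.e (nat_lit 581376) (nat_lit 6) .nil)))))) (.g (nat_lit 4) .nil .nil)))) (.nd (nat_lit 5) 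
(.lf (nat_lit 269136) (.g (nat_lit 1128) (.e (nat_lit 188435) (nat_lit 20) (.e (nat_lit 3579) (nat_lit 223) (.e (nat_lit 745475) (nat_lit 0) (.e (nat_lit 1589) (nat_lit 111) (.e (nat_lit 368384) (nat_lit 10) (.e (nat_lit 581376) (nat_lit 6) .nil)))))) (.g (nat_lit 4) .nil .nil))) 
(.lf (nat_lit 269168) (.g (nat_lit 1520) (.e (nat_lit 188437) (nat_lit 20) (.e (nat_lit 3238) (nat_lit 197) (.e (nat_lit 532523) (nat_lit 7) (.e (nat_lit 319504) (nat_lit 10) (.e (nat_lit 7936) (nat_lit 313) .nil))))) .nil)))) (.nd (nat_lit 4) (.nd (nat_lit 5) 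
(.lf (nat_lit 269128) (.g (nat_lit 1115) (.e (nat_lit 188435) (nat_lit 20) (.e (nat_lit 3579) (nat_lit 223) (.e (nat_lit 745475) (nat_lit 0) (.e (nat_lit 1559) (nat_lit 110) (.e (nat_lit 352269) (nat_lit 7) (.e (nat_lit 245778) (nat_lit 6) .nil)))))) (.g (nat_lit 6) .nil .nil))) 
(.lf (nat_lit 269160) (.g (nat_lit 741) (.e (nat_lit 188435) (nat_lit 20) (.e (nat_lit 3579) (nat_lit 223) (.e (nat_lit 745493) (nat_lit 6) (.e (nat_lit 81933) (nat_lit 20) (.e (nat_lit 1879) (nat_lit 126) (.e (nat_lit 581376) (nat_lit 6) .nil)))))) (.g (nat_lit 5) .nil .nil)))) (.nd (nat_lit 5) 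
(.lf (nat_lit 269144) (.g (nat_lit 1157) (.e (nat_lit 188435) (nat_lit 20) (.e (nat_lit 3579) (nat_lit 223) (.e (nat_lit 745476) (nat_lit 0) (.e (nat_lit 1569) (nat_lit 110) (.e (nat_lit 360192) (nat_lit 2) (.e (nat_lit 204544) (nat_lit 6) .nil)))))) (.g (nat_lit 4) .nil .nil))) 
(.lf (nat_lit 269176) (.g (nat_lit 1137) (.e (nat_lit 188438) (nat_lit 20) (.e (nat_lit 3238) (nat_lit 197) (.e (nat_lit 532523) (nat_lit 7) (.e (nat_lit 319504) (nat_lit 10) .nil)))) .nil))))) (.nd (nat_lit 3) (.nd (nat_lit 4) (.nd (nat_lit 5) 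
(.lf (nat_lit 269124) (.g (nat_lit 792) (.e (nat_lit 188435) (nat_lit 20) (.e (nat_lit 3578) (nat_lit 223) (.e (nat_lit 745493) (nat_lit 6) (.e (nat_lit 81935) (nat_lit 20) (.e (nat_lit 1879) (nat_lit 126) (.e (nat_lit 581376) (nat_lit 6) .nil)))))) (.g (nat_lit 5) .nil .nil))) 
(.lf (nat_lit 269156) (.g (nat_lit 1074) (.e (nat_lit 188435) (nat_lit 20) (.e (nat_lit 3579) (nat_lit 223) (.e (nat_lit 745493) (nat_lit 6) (.e (nat_lit 81931) (nat_lit 20) (.e (nat_lit 1876) (nat_lit 126) (.e (nat_lit 581376) (nat_lit 6) .nil)))))) (.g (nat_lit 5) .nil .nil)))) (.nd (nat_lit 5) 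
(.lf (nat_lit 269140) (.g (nat_lit 917) (.e (nat_lit 188435) (nat_lit 20) (.e (nat_lit 3579) (nat_lit 223) (.e (nat_lit 745475) (nat_lit 0) (.e (nat_lit 1598) (nat_lit 111) (.e (nat_lit 368384) (nat_lit 10) (.e (nat_lit 581376) (nat_lit 6) .nil)))))) (.g (nat_lit 4) .nil .nil))) 
(.lf (nat_lit 269172) (.g (nat_lit 2728) (.e (nat_lit 188437) (nat_lit 20) (.e (nat_lit 3238) (nat_lit 197) (.e (nat_lit 532535) (nat_lit 9) (.e (nat_lit 336295) (nat_lit 15) (.e (nat_lit 3629) (nat_lit 227) .nil))))) .nil)))) (.nd (nat_lit 4) (.nd (nat_lit 5) 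
(.lf (nat_lit 269132) (.g (nat_lit 853) (.e (nat_lit 188435) (nat_lit 20) (.e (nat_lit 3579) (nat_lit 223) (.e (nat_lit 745475) (nat_lit 0) (.e (nat_lit 1575) (nat_lit 110) (.e (nat_lit 360192) (nat_lit 2) (.e (nat_lit 204544) (nat_lit 6) .nil)))))) (.g (nat_lit 4) .nil .nil))) 
(.lf (nat_lit 269164) (.g (nat_lit 1338) (.e (nat_lit 188436) (nat_lit 20) (.e (nat_lit 3238) (nat_lit 197) (.e (nat_lit 532490) (nat_lit 0) (.e (nat_lit 7936) (nat_lit 332) .nil)))) .nil))) (.nd (nat_lit 5) 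
(.lf (nat_lit 269148) (.g (nat_lit 1570) (.e (nat_lit 188435) (nat_lit 20) (.e (nat_lit 3579) (nat_lit 223) (.e (nat_lit 745476) (nat_lit 0) (.e (nat_lit 1586) (nat_lit 111) (.e (nat_lit 368384) (nat_lit 11) .nil))))) .nil)) 
(.lf (nat_lit 269180) (.g (nat_lit 1404) (.e (nat_lit 188438) (nat_lit 20) (.e (nat_lit 3307) (nat_lit 202) (.e (nat_lit 573456) (nat_lit 9) (.e (nat_lit 1312) (nat_lit 98) .nil)))) .nil)))))) (.nd (nat_lit 2) (.nd (nat_lit 3) (.nd (nat_lit 4) (.nd (nat_lit 5) 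
(.lf (nat_lit 269122) (.g (nat_lit 423) (.e (nat_lit 188435) (nat_lit 20) (.e (nat_lit 3578) (nat_lit 223) (.e (nat_lit 745493) (nat_lit 6) (.e (nat_lit 81934) (nat_lit 20) (.e (nat_lit 1879) (nat_lit 126) (.e (nat_lit 581376) (nat_lit 6) .nil)))))) (.g (nat_lit 5) .nil .nil))) 
(.lf (nat_lit 269154) (.g (nat_lit 1094) (.e (nat_lit 188435) (nat_lit 20) (.e (nat_lit 3579) (nat_lit 223) (.e (nat_lit 745476) (nat_lit 0) (.e (nat_lit 1599) (nat_lit 111) (.e (nat_lit 368384) (nat_lit 10) (.e (nat_lit 581376) (nat_lit 6) .nil)))))) (.g (nat_lit 4) .nil .nil)))) (.nd (nat_lit 5) 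
(.lf (nat_lit 269138) (.g (nat_lit 1766) (.e (nat_lit 188435) (nat_lit 20) (.e (nat_lit 3579) (nat_lit 223) (.e (nat_lit 745475) (nat_lit 0) (.e (nat_lit 1592) (nat_lit 111) (.e (nat_lit 360477) (nat_lit 11) (.e (nat_lit 581653) (nat_lit 6) .nil)))))) (.g (nat_lit 6) .nil .nil))) 
(.lf (nat_lit 269170) (.g (nat_lit 1029) (.e (nat_lit 188437) (nat_lit 20) (.e (nat_lit 3238) (nat_lit 197) (.e (nat_lit 532523) (nat_lit 7) (.e (nat_lit 319535) (nat_lit 17) .nil)))) .nil)))) (.nd (nat_lit 4) (.nd (nat_lit 5) 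
(.lf (nat_lit 269130) (.g (nat_lit 810) (.e (nat_lit 188435) (nat_lit 20) (.e (nat_lit 3579) (nat_lit 223) (.e (nat_lit 745475) (nat_lit 0) (.e (nat_lit 1569) (nat_lit 110) (.e (nat_lit 360192) (nat_lit 2) (.e (nat_lit 204544) (nat_lit 6) .nil)))))) (.g (nat_lit 4) .nil .nil))) 
(.lf (nat_lit 269162) (.g (nat_lit 937) (.e (nat_lit 188435) (nat_lit 20) (.e (nat_lit 3579) (nat_lit 223) (.e (nat_lit 745493) (nat_lit 6) (.e (nat_lit 81935) (nat_lit 20) (.e (nat_lit 1878) (nat_lit 126) .nil))))) .nil))) (.nd (nat_lit 5) 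
(.lf (nat_lit 269146) (.g (nat_lit 1088) (.e (nat_lit 188435) (nat_lit 20) (.e (nat_lit 3579) (nat_lit 223) (.e (nat_lit 745476) (nat_lit 0) (.e (nat_lit 1576) (nat_lit 110) (.e (nat_lit 360192) (nat_lit 2) (.e (nat_lit 204544) (nat_lit 6) .nil)))))) (.g (nat_lit 4) .nil .nil))) 
(.lf (nat_lit 269178) (.g (nat_lit 414) (.e (nat_lit 188438) (nat_lit 20) (.e (nat_lit 3272) (nat_lit 199) (.e (nat_lit 548898) (nat_lit 14) .nil))) .nil))))) (.nd (nat_lit 3) (.nd (nat_lit 4) (.nd (nat_lit 5) 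
(.lf (nat_lit 269126) (.g (nat_lit 1029) (.e (nat_lit 188435) (nat_lit 20) (.e (nat_lit 3578) (nat_lit 223) (.e (nat_lit 745493) (nat_lit 6) (.e (nat_lit 81942) (nat_lit 20) (.e (nat_lit 1886) (nat_lit 127) (.e (nat_lit 581653) (nat_lit 6) .nil)))))) (.g (nat_lit 6) .nil .nil))) 
(.lf (nat_lit 269158) (.g (nat_lit 969) (.e (nat_lit 188435) (nat_lit 20) (.e (nat_lit 3579) (nat_lit 223) (.e (nat_lit 745493) (nat_lit 6) (.e (nat_lit 81931) (nat_lit 20) (.e (nat_lit 1879) (nat_lit 126) (.e (nat_lit 581376) (nat_lit 6) .nil)))))) (.g (nat_lit 5) .nil .nil)))) (.nd (nat_lit 5) 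
(.lf (nat_lit 269142) (.g (nat_lit 1080) (.e (nat_lit 188435) (nat_lit 20) (.e (nat_lit 3579) (nat_lit 223) (.e (nat_lit 745476) (nat_lit 0) (.e (nat_lit 1559) (nat_lit 110) (.e (nat_lit 360192) (nat_lit 2) (.e (nat_lit 204544) (nat_lit 6) .nil)))))) (.g (nat_lit 4) .nil .nil))) 
(.lf (nat_lit 269174) (.g (nat_lit 2745) (.e (nat_lit 188437) (nat_lit 20) (.e (nat_lit 3238) (nat_lit 197) (.e (nat_lit 532535) (nat_lit 9) (.e (nat_lit 336295) (nat_lit 15) (.e (nat_lit 3631) (nat_lit 227) .nil))))) .nil)))) (.nd (nat_lit 4) (.nd (nat_lit 5) 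
(.lf (nat_lit 269134) (.g (nat_lit 1171) (.e (nat_lit 188435) (nat_lit 20) (.e (nat_lit 3579) (nat_lit 223) (.e (nat_lit 745475) (nat_lit 0) (.e (nat_lit 1586) (nat_lit 111) (.e (nat_lit 368384) (nat_lit 10) .nil))))) .nil)) 
(.lf (nat_lit 269166) (.g (nat_lit 1121) (.e (nat_lit 188437) (nat_lit 20) (.e (nat_lit 3238) (nat_lit 197) (.e (nat_lit 532523) (nat_lit 7) (.e (nat_lit 319504) (nat_lit 10) .nil)))) .nil))) (.nd (nat_lit 5) 
(.lf (nat_lit 269150) (.g (nat_lit 1391) (.e (nat_lit 188435) (nat_lit 20) (.e (nat_lit 3579) (nat_lit 223) (.e (nat_lit 745476) (nat_lit 0) (.e (nat_lit 1589) (nat_lit 111) (.e (nat_lit 368384) (nat_lit 11) .nil))))) .nil)) 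
(.lf (nat_lit 269182) (.g (nat_lit 1033) (.e (nat_lit 188438) (nat_lit 20) (.e (nat_lit 3390) (nat_lit 210) (.e (nat_lit 639007) (nat_lit 13) (.e (nat_lit 1586) (nat_lit 111) (.e (nat_lit 360480) (nat_lit 14) (.e (nat_lit 639001) (nat_lit 10) .nil)))))) (.g (nat_lit 6) .nil .nil)))))))) (.nd (nat_lit 1) (.nd (nat_lit 2) (.nd (nat_lit 3) (.nd (nat_lit 4) (.nd (nat_lit 5) 
(.lf (nat_lit 269121) (.g (nat_lit 427) (.e (nat_lit 188435) (nat_lit 20) (.e (nat_lit 3578) (nat_lit 223) (.e (nat_lit 745493) (nat_lit 6) (.e (nat_lit 81933) (nat_lit 20) (.e (nat_lit 1879) (nat_lit 126) (.e (nat_lit 581376) (nat_lit 6) .nil)))))) (.g (nat_lit 5) .nil .nil))) 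
(.lf (nat_lit 269153) (.g (nat_lit 1446) (.e (nat_lit 188435) (nat_lit 20) (.e (nat_lit 3579) (nat_lit 223) (.e (nat_lit 745476) (nat_lit 0) (.e (nat_lit 1598) (nat_lit 111) (.e (nat_lit 368384) (nat_lit 10) (.e (nat_lit 581376) (nat_lit 6) .nil)))))) (.g (nat_lit 4) .nil .nil)))) (.nd (nat_lit 5) 
(.lf (nat_lit 269137) (.g (nat_lit 737) (.e (nat_lit 188435) (nat_lit 20) (.e (nat_lit 3579) (nat_lit 223) (.e (nat_lit 745475) (nat_lit 0) (.e (nat_lit 1592) (nat_lit 111) (.e (nat_lit 368384) (nat_lit 10) (.e (nat_lit 581376) (nat_lit 6) .nil)))))) (.g (nat_lit 4) .nil .nil))) 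
(.lf (nat_lit 269169) (.g (nat_lit 2190) (.e (nat_lit 188437) (nat_lit 20) (.e (nat_lit 3238) (nat_lit 197) (.e (nat_lit 532523) (nat_lit 7) (.e (nat_lit 319511) (nat_lit 10) (.e (nat_lit 5293) (nat_lit 298) (.e (nat_lit 1232) (nat_lit 91) (.e (nat_lit 90177) (nat_lit 15) .nil))))))) (.g (nat_lit 4) .nil .nil))))) (.nd (nat_lit 4) (.nd (nat_lit 5) 
(.lf (nat_lit 269129) (.g (nat_lit 887) (.e (nat_lit 188435) (nat_lit 20) (.e (nat_lit 3579) (nat_lit 223) (.e (nat_lit 745475) (nat_lit 0) (.e (nat_lit 1562) (nat_lit 110) (.e (nat_lit 360192) (nat_lit 2) (.e (nat_lit 204544) (nat_lit 6) .nil)))))) (.g (nat_lit 4) .nil .nil))) 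
(.lf (nat_lit 269161) (.g (nat_lit 737) (.e (nat_lit 188435) (nat_lit 20) (.e (nat_lit 3579) (nat_lit 223) (.e (nat_lit 745493) (nat_lit 6) (.e (nat_lit 81934) (nat_lit 20) (.e (nat_lit 1879) (nat_lit 126) (.e (nat_lit 581376) (nat_lit 6) .nil)))))) (.g (nat_lit 5) .nil .nil)))) (.nd (nat_lit 5) 
(.lf (nat_lit 269145) (.g (nat_lit 1302) (.e (nat_lit 188435) (nat_lit 20) (.e (nat_lit 3579) (nat_lit 223) (.e (nat_lit 745476) (nat_lit 0) (.e (nat_lit 1575) (nat_lit 110) (.e (nat_lit 360192) (nat_lit 2) (.e (nat_lit 204544) (nat_lit 6) .nil)))))) (.g (nat_lit 4) .nil .nil))) 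
(.lf (nat_lit 269177) (.g (nat_lit 2830) (.e (nat_lit 188438) (nat_lit 20) (.e (nat_lit 3238) (nat_lit 197) (.e (nat_lit 532563) (nat_lit 15) (.e (nat_lit 385094) (nat_lit 49) (.e (nat_lit 778317) (nat_lit 3) .nil))))) .nil))))) (.nd (nat_lit 3) (.nd (nat_lit 4) (.nd (nat_lit 5) 
(.lf (nat_lit 269125) (.g (nat_lit 1387) (.e (nat_lit 188435) (nat_lit 20) (.e (nat_lit 3578) (nat_lit 223) (.e (nat_lit 745493) (nat_lit 6) (.e (nat_lit 81938) (nat_lit 20) (.e (nat_lit 1886) (nat_lit 127) (.e (nat_lit 581653) (nat_lit 6) .nil)))))) (.g (nat_lit 6) .nil .nil))) 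
(.lf (nat_lit 269157) (.g (nat_lit 783) (.e (nat_lit 188435) (nat_lit 20) (.e (nat_lit 3579) (nat_lit 223) (.e (nat_lit 745493) (nat_lit 6) (.e (nat_lit 81931) (nat_lit 20) (.e (nat_lit 1878) (nat_lit 126) .nil))))) .nil))) (.nd (nat_lit 5) 
(.lf (nat_lit 269141) (.g (nat_lit 773) (.e (nat_lit 188435) (nat_lit 20) (.e (nat_lit 3579) (nat_lit 223) (.e (nat_lit 745475) (nat_lit 0) (.e (nat_lit 1599) (nat_lit 111) (.e (nat_lit 368384) (nat_lit 10) (.e (nat_lit 581376) (nat_lit 6) .nil)))))) (.g (nat_lit 4) .nil .nil))) 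
(.lf (nat_lit 269173) (.g (nat_lit 2713) (.e (nat_lit 188437) (nat_lit 20) (.e (nat_lit 3238) (nat_lit 197) (.e (nat_lit 532535) (nat_lit 9) (.e (nat_lit 336295) (nat_lit 15) (.e (nat_lit 3630) (nat_lit 227) .nil))))) .nil)))) (.nd (nat_lit 4) (.nd (nat_lit 5) 
(.lf (nat_lit 269133) (.g (nat_lit 719) (.e (nat_lit 188435) (nat_lit 20) (.e (nat_lit 3579) (nat_lit 223) (.e (nat_lit 745475) (nat_lit 0) (.e (nat_lit 1576) (nat_lit 110) (.e (nat_lit 360192) (nat_lit 2) (.e (nat_lit 204544) (nat_lit 6) .nil)))))) (.g (nat_lit 4) .nil .nil))) 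
(.lf (nat_lit 269165) (.g (nat_lit 468) (.e (nat_lit 188437) (nat_lit 20) (.e (nat_lit 3238) (nat_lit 197) (.e (nat_lit 532522) (nat_lit 7) .nil))) .nil))) (.nd (nat_lit 5) 
(.lf (nat_lit 269149) (.g (nat_lit 1497) (.e (nat_lit 188435) (nat_lit 20) (.e (nat_lit 3579) (nat_lit 223) (.e (nat_lit 745476) (nat_lit 0) (.e (nat_lit 1589) (nat_lit 111) (.e (nat_lit 368384) (nat_lit 10) (.e (nat_lit 581376) (nat_lit 6) .nil)))))) (.g (nat_lit 4) .nil .nil))) 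
(.lf (nat_lit 269181) (.g (nat_lit 1505) (.e (nat_lit 188438) (nat_lit 20) (.e (nat_lit 3307) (nat_lit 202) (.e (nat_lit 573477) (nat_lit 12) (.e (nat_lit 65280) (nat_lit 57) .nil)))) .nil)))))) (.nd (nat_lit 2) (.nd (nat_lit 3) (.nd (nat_lit 4) (.nd (nat_lit 5) 
(.lf (nat_lit 269123) (.g (nat_lit 632) (.e (nat_lit 188435) (nat_lit 20) (.e (nat_lit 3578) (nat_lit 223) (.e (nat_lit 745493) (nat_lit 6) (.e (nat_lit 81935) (nat_lit 20) (.e (nat_lit 1878) (nat_lit 126) .nil))))) .nil)) 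
(.lf (nat_lit 269155) (.g (nat_lit 549) (.e (nat_lit 188435) (nat_lit 20) (.e (nat_lit 3579) (nat_lit 223) (.e (nat_lit 745493) (nat_lit 6) (.e (nat_lit 81931) (nat_lit 20) .nil)))) .nil))) (.nd (nat_lit 5) 
(.lf (nat_lit 269139) (.g (nat_lit 1134) (.e (nat_lit 188435) (nat_lit 20) (.e (nat_lit 3579) (nat_lit 223) (.e (nat_lit 745475) (nat_lit 0) (.e (nat_lit 1595) (nat_lit 111) (.e (nat_lit 368384) (nat_lit 10) (.e (nat_lit 581376) (nat_lit 6) .nil)))))) (.g (nat_lit 4) .nil .nil))) 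
(.lf (nat_lit 269171) (.g (nat_lit 2499) (.e (nat_lit 188437) (nat_lit 20) (.e (nat_lit 3238) (nat_lit 197) (.e (nat_lit 532535) (nat_lit 9) (.e (nat_lit 335925) (nat_lit 0) .nil)))) .nil)))) (.nd (nat_lit 4) (.nd (nat_lit 5) 
(.lf (nat_lit 269131) (.g (nat_lit 1018) (.e (nat_lit 188435) (nat_lit 20) (.e (nat_lit 3579) (nat_lit 223) (.e (nat_lit 745475) (nat_lit 0) (.e (nat_lit 1569) (nat_lit 110) (.e (nat_lit 352269) (nat_lit 7) (.e (nat_lit 245778) (nat_lit 6) .nil)))))) (.g (nat_lit 6) .nil .nil))) 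
(.lf (nat_lit 269163) (.g (nat_lit 1107) (.e (nat_lit 188435) (nat_lit 20) (.e (nat_lit 3579) (nat_lit 223) (.e (nat_lit 745493) (nat_lit 6) (.e (nat_lit 81935) (nat_lit 20) (.e (nat_lit 1879) (nat_lit 126) (.e (nat_lit 581376) (nat_lit 6) .nil)))))) (.g (nat_lit 5) .nil .nil)))) (.nd (nat_lit 5) 
(.lf (nat_lit 269147) (.g (nat_lit 1570) (.e (nat_lit 188435) (nat_lit 20) (.e (nat_lit 3579) (nat_lit 223) (.e (nat_lit 745476) (nat_lit 0) (.e (nat_lit 1586) (nat_lit 111) (.e (nat_lit 368384) (nat_lit 10) .nil))))) .nil)) 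
(.lf (nat_lit 269179) (.g (nat_lit 1779) (.e (nat_lit 188438) (nat_lit 20) (.e (nat_lit 3307) (nat_lit 202) (.e (nat_lit 573454) (nat_lit 9) (.e (nat_lit 1315) (nat_lit 98) (.e (nat_lit 147496) (nat_lit 11) .nil))))) .nil))))) (.nd (nat_lit 3) (.nd (nat_lit 4) (.nd (nat_lit 5) 
(.lf (nat_lit 269127) (.g (nat_lit 542) (.e (nat_lit 188435) (nat_lit 20) (.e (nat_lit 3579) (nat_lit 223) (.e (nat_lit 745473) (nat_lit 0) .nil))) .nil)) 
(.lf (nat_lit 269159) (.g (nat_lit 539) (.e (nat_lit 188435) (nat_lit 20) (.e (nat_lit 3579) (nat_lit 223) (.e (nat_lit 745493) (nat_lit 6) (.e (nat_lit 81933) (nat_lit 20) .nil)))) .nil))) (.nd (nat_lit 5) 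
(.lf (nat_lit 269143) (.g (nat_lit 1209) (.e (nat_lit 188435) (nat_lit 20) (.e (nat_lit 3579) (nat_lit 223) (.e (nat_lit 745476) (nat_lit 0) (.e (nat_lit 1562) (nat_lit 110) (.e (nat_lit 360192) (nat_lit 2) (.e (nat_lit 204544) (nat_lit 6) .nil)))))) (.g (nat_lit 4) .nil .nil))) 
(.lf (nat_lit 269175) (.g (nat_lit 2538) (.e (nat_lit 188437) (nat_lit 20) (.e (nat_lit 3238) (nat_lit 197) (.e (nat_lit 532535) (nat_lit 9) (.e (nat_lit 336295) (nat_lit 15) (.e (nat_lit 3632) (nat_lit 227) .nil))))) .nil)))) (.nd (nat_lit 4) (.nd (nat_lit 5) 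
(.lf (nat_lit 269135) (.g (nat_lit 2454) (.e (nat_lit 188435) (nat_lit 20) (.e (nat_lit 3579) (nat_lit 223) (.e (nat_lit 745475) (nat_lit 0) (.e (nat_lit 1586) (nat_lit 111) (.e (nat_lit 360477) (nat_lit 11) (.e (nat_lit 581653) (nat_lit 6) .nil)))))) (.g (nat_lit 6) .nil .nil))) 
(.lf (nat_lit 269167) (.g (nat_lit 1520) (.e (nat_lit 188437) (nat_lit 20) (.e (nat_lit 3238) (nat_lit 197) (.e (nat_lit 532523) (nat_lit 7) (.e (nat_lit 319504) (nat_lit 10) (.e (nat_lit 7936) (nat_lit 298) .nil))))) .nil))) (.nd (nat_lit 5) 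
(.lf (nat_lit 269151) (.g (nat_lit 1100) (.e (nat_lit 188435) (nat_lit 20) (.e (nat_lit 3579) (nat_lit 223) (.e (nat_lit 745476) (nat_lit 0) (.e (nat_lit 1592) (nat_lit 111) (.e (nat_lit 368384) (nat_lit 10) (.e (nat_lit 581376) (nat_lit 6) .nil)))))) (.g (nat_lit 4) .nil .nil))) 
(.lf (nat_lit 269183) (.g (nat_lit 940) (.e (nat_lit 188438) (nat_lit 20) (.e (nat_lit 3390) (nat_lit 210) (.e (nat_lit 639007) (nat_lit 13) (.e (nat_lit 1595) (nat_lit 111) (.e (nat_lit 360480) (nat_lit 14) (.e (nat_lit 639001) (nat_lit 10) .nil)))))) (.g (nat_lit 6) .nil .nil)))))))))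

noncomputable def tv3456 : DT := (.nd (nat_lit 0) (.nd (nat_lit 1) (.nd (nat_lit 2) (.nd (nat_lit 3) (.nd (nat_lit 4) (.nd (nat_lit 5) (.nd (nat_lit 6) 
(.lf (nat_lit 269184) (.g (nat_lit 1302) (.e (nat_lit 188438) (nat_lit 20) (.e (nat_lit 3469) (nat_lit 217) (.e (nat_lit 696344) (nat_lit 8) (.e (nat_lit 172106) (nat_lit 10) .nil)))) .nil)) 
(.lf (nat_lit 269248) (.g (nat_lit 932) (.e (nat_lit 188439) (nat_lit 20) (.e (nat_lit 3271) (nat_lit 199) (.e (nat_lit 548913) (nat_lit 18) (.e (nat_lit 172032) (nat_lit 0) (.e (nat_lit 7545) (nat_lit 402) .nil))))) .nil))) (.nd (nat_lit 6) 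
(.lf (nat_lit 269216) (.g (nat_lit 1593) (.e (nat_lit 188438) (nat_lit 20) (.e (nat_lit 3579) (nat_lit 223) (.e (nat_lit 745476) (nat_lit 0) (.e (nat_lit 1586) (nat_lit 111) (.e (nat_lit 368384) (nat_lit 11) .nil))))) .nil)) 
(.lf (nat_lit 269280) (.g (nat_lit 1335) (.e (nat_lit 188439) (nat_lit 20) (.e (nat_lit 3272) (nat_lit 199) (.e (nat_lit 548913) (nat_lit 18) (.e (nat_lit 172036) (nat_lit 0) .nil)))) .nil)))) (.nd (nat_lit 5) (.nd (nat_lit 6) 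
(.lf (nat_lit 269200) (.g (nat_lit 737) (.e (nat_lit 188438) (nat_lit 20) (.e (nat_lit 3578) (nat_lit 223) (.e (nat_lit 745476) (nat_lit 0) (.e (nat_lit 1599) (nat_lit 111) (.e (nat_lit 368384) (nat_lit 10) (.e (nat_lit 581376) (nat_lit 6) .nil)))))) (.g (nat_lit 4) .nil .nil))) 
(.lf (nat_lit 269264) (.g (nat_lit 1615) (.e (nat_lit 188439) (nat_lit 20) (.e (nat_lit 3272) (nat_lit 199) (.e (nat_lit 548898) (nat_lit 14) (.e (nat_lit 2982) (nat_lit 186) (.e (nat_lit 450304) (nat_lit 0) .nil))))) .nil))) (.nd (nat_lit 6) 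
(.lf (nat_lit 269232) (.g (nat_lit 634) (.e (nat_lit 188439) (nat_lit 20) (.e (nat_lit 3254) (nat_lit 197) (.e (nat_lit 532523) (nat_lit 7) (.e (nat_lit 319532) (nat_lit 16) .nil)))) .nil)) 
(.lf (nat_lit 269296) (.g (nat_lit 1347) (.e (nat_lit 188439) (nat_lit 20) (.e (nat_lit 3272) (nat_lit 199) (.e (nat_lit 548913) (nat_lit 18) (.e (nat_lit 172089) (nat_lit 9) .nil)))) .nil))))) (.nd (nat_lit 4) (.nd (nat_lit 5) (.nd (nat_lit 6) 
(.lf (nat_lit 269192) (.g (nat_lit 468) (.e (nat_lit 188438) (nat_lit 20) (.e (nat_lit 3578) (nat_lit 223) (.e (nat_lit 745475) (nat_lit 0) (.e (nat_lit 1599) (nat_lit 111) (.e (nat_lit 368384) (nat_lit 10) (.e (nat_lit 581376) (nat_lit 6) .nil)))))) (.g (nat_lit 4) .nil .nil))) 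
(.lf (nat_lit 269256) (.g (nat_lit 400) (.e (nat_lit 188439) (nat_lit 20) (.e (nat_lit 3272) (nat_lit 199) (.e (nat_lit 548898) (nat_lit 14) .nil))) .nil))) (.nd (nat_lit 6) 
(.lf (nat_lit 269224) (.g (nat_lit 974) (.e (nat_lit 188438) (nat_lit 20) (.e (nat_lit 3579) (nat_lit 223) (.e (nat_lit 745493) (nat_lit 6) (.e (nat_lit 81931) (nat_lit 20) (.e (nat_lit 1879) (nat_lit 126) (.e (nat_lit 581376) (nat_lit 6) .nil)))))) (.g (nat_lit 5) .nil .nil))) 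
(.lf (nat_lit 269288) (.g (nat_lit 1826) (.e (nat_lit 188439) (nat_lit 20) (.e (nat_lit 3272) (nat_lit 199) (.e (nat_lit 548913) (nat_lit 18) (.e (nat_lit 172061) (nat_lit 1) (.e (nat_lit 164422) (nat_lit 272) .nil))))) .nil)))) (.nd (nat_lit 5) (.nd (nat_lit 6) 
(.lf (nat_lit 269208) (.g (nat_lit 418) (.e (nat_lit 188438) (nat_lit 20) (.e (nat_lit 3579) (nat_lit 223) (.e (nat_lit 745475) (nat_lit 0) .nil))) .nil)) 
(.lf (nat_lit 269272) (.g (nat_lit 1347) (.e (nat_lit 188439) (nat_lit 20) (.e (nat_lit 3272) (nat_lit 199) (.e (nat_lit 548913) (nat_lit 18) (.e (nat_lit 172032) (nat_lit 0) .nil)))) .nil))) (.nd (nat_lit 6) 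
(.lf (nat_lit 269240) (.g (nat_lit 761) (.e (nat_lit 188439) (nat_lit 20) (.e (nat_lit 3270) (nat_lit 199) (.e (nat_lit 548913) (nat_lit 18) (.e (nat_lit 172052) (nat_lit 0) .nil)))) .nil)) 
(.lf (nat_lit 269304) (.g (nat_lit 2648) (.e (nat_lit 188439) (nat_lit 20) (.e (nat_lit 3272) (nat_lit 199) (.e (nat_lit 548914) (nat_lit 19) (.e (nat_lit 180277) (nat_lit 32) (.e (nat_lit 1234) (nat_lit 91) (.e (nat_lit 90176) (nat_lit 15) .nil)))))) (.g (nat_lit 0) .nil .nil))))))) (.nd (nat_lit 3) (.nd (nat_lit 4) (.nd (nat_lit 5) (.nd (nat_lit 6) 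
(.lf (nat_lit 269188) (.g (nat_lit 846) (.e (nat_lit 188438) (nat_lit 20) (.e (nat_lit 3578) (nat_lit 223) (.e (nat_lit 745475) (nat_lit 0) (.e (nat_lit 1586) (nat_lit 111) (.e (nat_lit 368384) (nat_lit 10) .nil))))) .nil)) 
(.lf (nat_lit 269252) (.g (nat_lit 625) (.e (nat_lit 188439) (nat_lit 20) (.e (nat_lit 3272) (nat_lit 199) (.e (nat_lit 548896) (nat_lit 14) (.e (nat_lit 2969) (nat_lit 185) .nil)))) .nil))) (.nd (nat_lit 6) 
(.lf (nat_lit 269220) (.g (nat_lit 1452) (.e (nat_lit 188438) (nat_lit 20) (.e (nat_lit 3579) (nat_lit 223) (.e (nat_lit 745476) (nat_lit 0) (.e (nat_lit 1598) (nat_lit 111) (.e (nat_lit 368384) (nat_lit 10) (.e (nat_lit 581376) (nat_lit 6) .nil)))))) (.g (nat_lit 4) .nil .nil))) 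
(.lf (nat_lit 269284) (.g (nat_lit 1347) (.e (nat_lit 188439) (nat_lit 20) (.e (nat_lit 3272) (nat_lit 199) (.e (nat_lit 548913) (nat_lit 18) (.e (nat_lit 172043) (nat_lit 0) .nil)))) .nil)))) (.nd (nat_lit 5) (.nd (nat_lit 6) 
(.lf (nat_lit 269204) (.g (nat_lit 379) (.e (nat_lit 188438) (nat_lit 20) (.e (nat_lit 3578) (nat_lit 223) (.e (nat_lit 745493) (nat_lit 6) (.e (nat_lit 81933) (nat_lit 20) (.e (nat_lit 1879) (nat_lit 126) (.e (nat_lit 581376) (nat_lit 6) .nil)))))) (.g (nat_lit 4) .nil .nil))) 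
(.lf (nat_lit 269268) (.g (nat_lit 1877) (.e (nat_lit 188439) (nat_lit 20) (.e (nat_lit 3272) (nat_lit 199) (.e (nat_lit 548898) (nat_lit 14) (.e (nat_lit 3071) (nat_lit 190) (.e (nat_lit 475157) (nat_lit 21) .nil))))) .nil))) (.nd (nat_lit 6) 
(.lf (nat_lit 269236) (.g (nat_lit 1098) (.e (nat_lit 188439) (nat_lit 20) (.e (nat_lit 3270) (nat_lit 199) (.e (nat_lit 548913) (nat_lit 18) (.e (nat_lit 172038) (nat_lit 0) (.e (nat_lit 7936) (nat_lit 402) .nil))))) .nil)) 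
(.lf (nat_lit 269300) (.g (nat_lit 1388) (.e (nat_lit 188439) (nat_lit 20) (.e (nat_lit 3272) (nat_lit 199) (.e (nat_lit 548913) (nat_lit 18) (.e (nat_lit 172095) (nat_lit 9) .nil)))) .nil))))) (.nd (nat_lit 4) (.nd (nat_lit 5) (.nd (nat_lit 6) 
(.lf (nat_lit 269196) (.g (nat_lit 1171) (.e (nat_lit 188438) (nat_lit 20) (.e (nat_lit 3578) (nat_lit 223) (.e (nat_lit 745476) (nat_lit 0) (.e (nat_lit 1595) (nat_lit 111) (.e (nat_lit 368384) (nat_lit 10) (.e (nat_lit 581376) (nat_lit 6) .nil)))))) (.g (nat_lit 4) .nil .nil))) 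
(.lf (nat_lit 269260) (.g (nat_lit 1462) (.e (nat_lit 188439) (nat_lit 20) (.e (nat_lit 3272) (nat_lit 199) (.e (nat_lit 548898) (nat_lit 14) (.e (nat_lit 2969) (nat_lit 185) .nil)))) .nil))) (.nd (nat_lit 6) 
(.lf (nat_lit 269228) (.g (nat_lit 1110) (.e (nat_lit 188438) (nat_lit 20) (.e (nat_lit 3579) (nat_lit 223) (.e (nat_lit 745493) (nat_lit 6) (.e (nat_lit 81935) (nat_lit 20) (.e (nat_lit 1878) (nat_lit 126) (.e (nat_lit 581376) (nat_lit 6) .nil)))))) (.g (nat_lit 5) .nil .nil))) 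
(.lf (nat_lit 269292) (.g (nat_lit 1347) (.e (nat_lit 188439) (nat_lit 20) (.e (nat_lit 3272) (nat_lit 199) (.e (nat_lit 548913) (nat_lit 18) (.e (nat_lit 172068) (nat_lit 4) .nil)))) .nil)))) (.nd (nat_lit 5) (.nd (nat_lit 6) 
(.lf (nat_lit 269212) (.g (nat_lit 1146) (.e (nat_lit 188438) (nat_lit 20) (.e (nat_lit 3579) (nat_lit 223) (.e (nat_lit 745475) (nat_lit 0) (.e (nat_lit 1595) (nat_lit 111) (.e (nat_lit 368384) (nat_lit 10) (.e (nat_lit 581376) (nat_lit 6) .nil)))))) (.g (nat_lit 4) .nil .nil))) 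
(.lf (nat_lit 269276) (.g (nat_lit 1398) (.e (nat_lit 188439) (nat_lit 20) (.e (nat_lit 3272) (nat_lit 199) (.e (nat_lit 548913) (nat_lit 18) (.e (nat_lit 172034) (nat_lit 0) (.e (nat_lit 7496) (nat_lit 402) .nil))))) .nil))) (.nd (nat_lit 6) 
(.lf (nat_lit 269244) (.g (nat_lit 1190) (.e (nat_lit 188439) (nat_lit 20) (.e (nat_lit 3270) (nat_lit 199) (.e (nat_lit 548913) (nat_lit 18) (.e (nat_lit 172087) (nat_lit 9) (.e (nat_lit 426364) (nat_lit 15) .nil))))) .nil)) 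
(.lf (nat_lit 269308) (.g (nat_lit 816) (.e (nat_lit 188439) (nat_lit 20) (.e (nat_lit 3289) (nat_lit 201) (.e (nat_lit 565268) (nat_lit 5) (.e (nat_lit 73789) (nat_lit 45) (.e (nat_lit 1162) (nat_lit 86) (.e (nat_lit 57088) (nat_lit 6) .nil)))))) (.g (nat_lit 5) .nil .nil)))))))) (.nd (nat_lit 2) (.nd (nat_lit 3) (.nd (nat_lit 4) (.nd (nat_lit 5) (.nd (nat_lit 6) 
(.lf (nat_lit 269186) (.g (nat_lit 1218) (.e (nat_lit 188438) (nat_lit 20) (.e (nat_lit 3469) (nat_lit 217) (.e (nat_lit 696344) (nat_lit 8) (.e (nat_lit 172112) (nat_lit 10) .nil)))) .nil)) 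
(.lf (nat_lit 269250) (.g (nat_lit 672) (.e (nat_lit 188439) (nat_lit 20) (.e (nat_lit 3271) (nat_lit 199) (.e (nat_lit 548913) (nat_lit 18) (.e (nat_lit 172052) (nat_lit 0) .nil)))) .nil))) (.nd (nat_lit 6) 
(.lf (nat_lit 269218) (.g (nat_lit 1118) (.e (nat_lit 188438) (nat_lit 20) (.e (nat_lit 3579) (nat_lit 223) (.e (nat_lit 745476) (nat_lit 0) (.e (nat_lit 1592) (nat_lit 111) (.e (nat_lit 368384) (nat_lit 10) (.e (nat_lit 581376) (nat_lit 6) .nil)))))) (.g (nat_lit 4) .nil .nil))) 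
(.lf (nat_lit 269282) (.g (nat_lit 1915) (.e (nat_lit 188439) (nat_lit 20) (.e (nat_lit 3272) (nat_lit 199) (.e (nat_lit 548913) (nat_lit 18) (.e (nat_lit 172042) (nat_lit 0) (.e (nat_lit 7554) (nat_lit 402) .nil))))) .nil)))) (.nd (nat_lit 5) (.nd (nat_lit 6) 
(.lf (nat_lit 269202) (.g (nat_lit 628) (.e (nat_lit 188438) (nat_lit 20) (.e (nat_lit 3578) (nat_lit 223) (.e (nat_lit 745493) (nat_lit 6) (.e (nat_lit 81931) (nat_lit 20) (.e (nat_lit 1878) (nat_lit 126) (.e (nat_lit 581376) (nat_lit 6) .nil)))))) (.g (nat_lit 5) .nil .nil))) 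
(.lf (nat_lit 269266) (.g (nat_lit 1459) (.e (nat_lit 188439) (nat_lit 20) (.e (nat_lit 3272) (nat_lit 199) (.e (nat_lit 548898) (nat_lit 14) (.e (nat_lit 3045) (nat_lit 189) .nil)))) .nil))) (.nd (nat_lit 6) 
(.lf (nat_lit 269234) (.g (nat_lit 937) (.e (nat_lit 188439) (nat_lit 20) (.e (nat_lit 3270) (nat_lit 199) (.e (nat_lit 548898) (nat_lit 14) (.e (nat_lit 2989) (nat_lit 186) (.e (nat_lit 450304) (nat_lit 0) .nil))))) .nil)) 
(.lf (nat_lit 269298) (.g (nat_lit 1932) (.e (nat_lit 188439) (nat_lit 20) (.e (nat_lit 3272) (nat_lit 199) (.e (nat_lit 548913) (nat_lit 18) (.e (nat_lit 172094) (nat_lit 9) (.e (nat_lit 426414) (nat_lit 15) .nil))))) .nil))))) (.nd (nat_lit 4) (.nd (nat_lit 5) (.nd (nat_lit 6) 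
(.lf (nat_lit 269194) (.g (nat_lit 1298) (.e (nat_lit 188438) (nat_lit 20) (.e (nat_lit 3578) (nat_lit 223) (.e (nat_lit 745476) (nat_lit 0) (.e (nat_lit 1586) (nat_lit 111) (.e (nat_lit 368384) (nat_lit 10) .nil))))) .nil)) 
(.lf (nat_lit 269258) (.g (nat_lit 1470) (.e (nat_lit 188439) (nat_lit 20) (.e (nat_lit 3272) (nat_lit 199) (.e (nat_lit 548898) (nat_lit 14) (.e (nat_lit 2964) (nat_lit 185) .nil)))) .nil))) (.nd (nat_lit 6) 
(.lf (nat_lit 269226) (.g (nat_lit 748) (.e (nat_lit 188438) (nat_lit 20) (.e (nat_lit 3579) (nat_lit 223) (.e (nat_lit 745493) (nat_lit 6) (.e (nat_lit 81933) (nat_lit 20) (.e (nat_lit 1879) (nat_lit 126) (.e (nat_lit 581376) (nat_lit 6) .nil)))))) (.g (nat_lit 5) .nil .nil))) 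
(.lf (nat_lit 269290) (.g (nat_lit 1853) (.e (nat_lit 188439) (nat_lit 20) (.e (nat_lit 3272) (nat_lit 199) (.e (nat_lit 548913) (nat_lit 18) (.e (nat_lit 172061) (nat_lit 1) (.e (nat_lit 164423) (nat_lit 272) (.e (nat_lit 1182) (nat_lit 87) (.e (nat_lit 57478) (nat_lit 28) (.e (nat_lit 557107) (nat_lit 15) .nil)))))))) (.g (nat_lit 4) .nil .nil))))) (.nd (nat_lit 5) (.nd (nat_lit 6) 
(.lf (nat_lit 269210) (.g (nat_lit 1140) (.e (nat_lit 188438) (nat_lit 20) (.e (nat_lit 3579) (nat_lit 223) (.e (nat_lit 745475) (nat_lit 0) (.e (nat_lit 1589) (nat_lit 111) (.e (nat_lit 368384) (nat_lit 10) (.e (nat_lit 581376) (nat_lit 6) .nil)))))) (.g (nat_lit 4) .nil .nil))) 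
(.lf (nat_lit 269274) (.g (nat_lit 1250) (.e (nat_lit 188439) (nat_lit 20) (.e (nat_lit 3272) (nat_lit 199) (.e (nat_lit 548913) (nat_lit 18) (.e (nat_lit 172033) (nat_lit 0) .nil)))) .nil))) (.nd (nat_lit 6) 
(.lf (nat_lit 269242) (.g (nat_lit 1370) (.e (nat_lit 188439) (nat_lit 20) (.e (nat_lit 3270) (nat_lit 199) (.e (nat_lit 548913) (nat_lit 18) (.e (nat_lit 172085) (nat_lit 9) (.e (nat_lit 426402) (nat_lit 15) .nil))))) .nil)) 
(.lf (nat_lit 269306) (.g (nat_lit 567) (.e (nat_lit 188439) (nat_lit 20) (.e (nat_lit 3289) (nat_lit 201) (.e (nat_lit 565268) (nat_lit 5) (.e (nat_lit 73788) (nat_lit 45) (.e (nat_lit 1163) (nat_lit 86) (.e (nat_lit 57088) (nat_lit 6) .nil)))))) (.g (nat_lit 5) .nil .nil))))))) (.nd (nat_lit 3) (.nd (nat_lit 4) (.nd (nat_lit 5) (.nd (nat_lit 6) 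
(.lf (nat_lit 269190) (.g (nat_lit 830) (.e (nat_lit 188438) (nat_lit 20) (.e (nat_lit 3578) (nat_lit 223) (.e (nat_lit 745475) (nat_lit 0) (.e (nat_lit 1595) (nat_lit 111) (.e (nat_lit 368384) (nat_lit 10) (.e (nat_lit 581376) (nat_lit 6) .nil)))))) (.g (nat_lit 4) .nil .nil))) 
(.lf (nat_lit 269254) (.g (nat_lit 745) (.e (nat_lit 188439) (nat_lit 20) (.e (nat_lit 3272) (nat_lit 199) (.e (nat_lit 548897) (nat_lit 14) (.e (nat_lit 2982) (nat_lit 186) .nil)))) .nil))) (.nd (nat_lit 6) 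
(.lf (nat_lit 269222) (.g (nat_lit 795) (.e (nat_lit 188438) (nat_lit 20) (.e (nat_lit 3579) (nat_lit 223) (.e (nat_lit 745493) (nat_lit 6) (.e (nat_lit 81931) (nat_lit 20) (.e (nat_lit 1876) (nat_lit 126) (.e (nat_lit 581376) (nat_lit 6) .nil)))))) (.g (nat_lit 4) .nil .nil))) 
(.lf (nat_lit 269286) (.g (nat_lit 1347) (.e (nat_lit 188439) (nat_lit 20) (.e (nat_lit 3272) (nat_lit 199) (.e (nat_lit 548913) (nat_lit 18) (.e (nat_lit 172051) (nat_lit 0) .nil)))) .nil)))) (.nd (nat_lit 5) (.nd (nat_lit 6) 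
(.lf (nat_lit 269206) (.g (nat_lit 741) (.e (nat_lit 188438) (nat_lit 20) (.e (nat_lit 3578) (nat_lit 223) (.e (nat_lit 745493) (nat_lit 6) (.e (nat_lit 81935) (nat_lit 20) (.e (nat_lit 1878) (nat_lit 126) (.e (nat_lit 581376) (nat_lit 6) .nil)))))) (.g (nat_lit 4) .nil .nil))) 
(.lf (nat_lit 269270) (.g (nat_lit 661) (.e (nat_lit 188439) (nat_lit 20) (.e (nat_lit 3272) (nat_lit 199) (.e (nat_lit 548910) (nat_lit 17) (.e (nat_lit 171776) (nat_lit 176) .nil)))) .nil))) (.nd (nat_lit 6) 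
(.lf (nat_lit 269238) (.g (nat_lit 1437) (.e (nat_lit 188439) (nat_lit 20) (.e (nat_lit 3270) (nat_lit 199) (.e (nat_lit 548913) (nat_lit 18) (.e (nat_lit 172041) (nat_lit 0) (.e (nat_lit 7936) (nat_lit 402) .nil))))) .nil)) 
(.lf (nat_lit 269302) (.g (nat_lit 2006) (.e (nat_lit 188439) (nat_lit 20) (.e (nat_lit 3272) (nat_lit 199) (.e (nat_lit 548913) (nat_lit 18) (.e (nat_lit 172138) (nat_lit 15) (.e (nat_lit 982) (nat_lit 81) .nil))))) .nil))))) (.nd (nat_lit 4) (.nd (nat_lit 5) (.nd (nat_lit 6) 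
(.lf (nat_lit 269198) (.g (nat_lit 1091) (.e (nat_lit 188438) (nat_lit 20) (.e (nat_lit 3578) (nat_lit 223) (.e (nat_lit 745476) (nat_lit 0) (.e (nat_lit 1598) (nat_lit 111) (.e (nat_lit 368384) (nat_lit 10) (.e (nat_lit 581376) (nat_lit 6) .nil)))))) (.g (nat_lit 4) .nil .nil))) 
(.lf (nat_lit 269262) (.g (nat_lit 1462) (.e (nat_lit 188439) (nat_lit 20) (.e (nat_lit 3272) (nat_lit 199) (.e (nat_lit 548898) (nat_lit 14) (.e (nat_lit 2980) (nat_lit 185) .nil)))) .nil))) (.nd (nat_lit 6) 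
(.lf (nat_lit 269230) (.g (nat_lit 1993) (.e (nat_lit 188439) (nat_lit 20) (.e (nat_lit 3230) (nat_lit 197) (.e (nat_lit 532522) (nat_lit 7) (.e (nat_lit 319530) (nat_lit 16) (.e (nat_lit 286733) (nat_lit 2) .nil))))) .nil)) 
(.lf (nat_lit 269294) (.g (nat_lit 1522) (.e (nat_lit 188439) (nat_lit 20) (.e (nat_lit 3272) (nat_lit 199) (.e (nat_lit 548913) (nat_lit 18) (.e (nat_lit 172087) (nat_lit 9) (.e (nat_lit 426354) (nat_lit 15) .nil))))) .nil)))) (.nd (nat_lit 5) (.nd (nat_lit 6) 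
(.lf (nat_lit 269214) (.g (nat_lit 785) (.e (nat_lit 188438) (nat_lit 20) (.e (nat_lit 3579) (nat_lit 223) (.e (nat_lit 745475) (nat_lit 0) (.e (nat_lit 1599) (nat_lit 111) (.e (nat_lit 368384) (nat_lit 10) (.e (nat_lit 581376) (nat_lit 6) .nil)))))) (.g (nat_lit 4) .nil .nil))) 
(.lf (nat_lit 269278) (.g (nat_lit 2240) (.e (nat_lit 188439) (nat_lit 20) (.e (nat_lit 3272) (nat_lit 199) (.e (nat_lit 548913) (nat_lit 18) (.e (nat_lit 172035) (nat_lit 0) (.e (nat_lit 2402) (nat_lit 157) .nil))))) .nil))) (.nd (nat_lit 6) 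
(.lf (nat_lit 269246) (.g (nat_lit 795) (.e (nat_lit 188439) (nat_lit 20) (.e (nat_lit 3270) (nat_lit 199) (.e (nat_lit 548913) (nat_lit 18) (.e (nat_lit 172094) (nat_lit 9) .nil)))) .nil)) 
(.lf (nat_lit 269310) (.g (nat_lit 646) (.e (nat_lit 188439) (nat_lit 20) (.e (nat_lit 3289) (nat_lit 201) (.e (nat_lit 565268) (nat_lit 5) (.e (nat_lit 73791) (nat_lit 45) (.e (nat_lit 1162) (nat_lit 86) (.e (nat_lit 57088) (nat_lit 6) .nil)))))) (.g (nat_lit 5) .nil .nil))))))))) (.nd (nat_lit 1) (.nd (nat_lit 2) (.nd (nat_lit 3) (.nd (nat_lit 4) (.nd (nat_lit 5) (.nd (nat_lit 6) 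
(.lf (nat_lit 269185) (.g (nat_lit 1862) (.e (nat_lit 188438) (nat_lit 20) (.e (nat_lit 3469) (nat_lit 217) (.e (nat_lit 696344) (nat_lit 8) (.e (nat_lit 172106) (nat_lit 10) (.e (nat_lit 434202) (nat_lit 18) .nil))))) .nil)) 
(.lf (nat_lit 269249) (.g (nat_lit 681) (.e (nat_lit 188439) (nat_lit 20) (.e (nat_lit 3271) (nat_lit 199) (.e (nat_lit 548913) (nat_lit 18) (.e (nat_lit 172034) (nat_lit 0) .nil)))) .nil))) (.nd (nat_lit 6) 
(.lf (nat_lit 269217) (.g (nat_lit 1505) (.e (nat_lit 188438) (nat_lit 20) (.e (nat_lit 3579) (nat_lit 223) (.e (nat_lit 745476) (nat_lit 0) (.e (nat_lit 1589) (nat_lit 111) (.e (nat_lit 368384) (nat_lit 10) (.e (nat_lit 581376) (nat_lit 6) .nil)))))) (.g (nat_lit 4) .nil .nil))) 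
(.lf (nat_lit 269281) (.g (nat_lit 1323) (.e (nat_lit 188439) (nat_lit 20) (.e (nat_lit 3272) (nat_lit 199) (.e (nat_lit 548913) (nat_lit 18) (.e (nat_lit 172042) (nat_lit 0) .nil)))) .nil)))) (.nd (nat_lit 5) (.nd (nat_lit 6) 
(.lf (nat_lit 269201) (.g (nat_lit 462) (.e (nat_lit 188438) (nat_lit 20) (.e (nat_lit 3578) (nat_lit 223) (.e (nat_lit 745493) (nat_lit 6) (.e (nat_lit 81931) (nat_lit 20) (.e (nat_lit 1876) (nat_lit 126) .nil))))) .nil)) 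
(.lf (nat_lit 269265) (.g (nat_lit 942) (.e (nat_lit 188439) (nat_lit 20) (.e (nat_lit 3272) (nat_lit 199) (.e (nat_lit 548898) (nat_lit 14) (.e (nat_lit 3004) (nat_lit 186) .nil)))) .nil))) (.nd (nat_lit 6) 
(.lf (nat_lit 269233) (.g (nat_lit 847) (.e (nat_lit 188439) (nat_lit 20) (.e (nat_lit 3270) (nat_lit 199) (.e (nat_lit 548898) (nat_lit 14) (.e (nat_lit 2980) (nat_lit 185) .nil)))) .nil)) 
(.lf (nat_lit 269297) (.g (nat_lit 1932) (.e (nat_lit 188439) (nat_lit 20) (.e (nat_lit 3272) (nat_lit 199) (.e (nat_lit 548913) (nat_lit 18) (.e (nat_lit 172094) (nat_lit 9) (.e (nat_lit 426410) (nat_lit 15) .nil))))) .nil))))) (.nd (nat_lit 4) (.nd (nat_lit 5) (.nd (nat_lit 6) 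
(.lf (nat_lit 269193) (.g (nat_lit 147) (.e (nat_lit 188438) (nat_lit 20) (.e (nat_lit 3578) (nat_lit 223) (.e (nat_lit 745476) (nat_lit 0) .nil))) .nil)) 
(.lf (nat_lit 269257) (.g (nat_lit 1397) (.e (nat_lit 188439) (nat_lit 20) (.e (nat_lit 3272) (nat_lit 199) (.e (nat_lit 548898) (nat_lit 14) (.e (nat_lit 2879) (nat_lit 184) .nil)))) .nil))) (.nd (nat_lit 6) 
(.lf (nat_lit 269225) (.g (nat_lit 715) (.e (nat_lit 188438) (nat_lit 20) (.e (nat_lit 3579) (nat_lit 223) (.e (nat_lit 745493) (nat_lit 6) (.e (nat_lit 81933) (nat_lit 20) (.e (nat_lit 1878) (nat_lit 126) (.e (nat_lit 581376) (nat_lit 6) .nil)))))) (.g (nat_lit 5) .nil .nil))) 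
(.lf (nat_lit 269289) (.g (nat_lit 1825) (.e (nat_lit 188439) (nat_lit 20) (.e (nat_lit 3272) (nat_lit 199) (.e (nat_lit 548913) (nat_lit 18) (.e (nat_lit 172061) (nat_lit 1) (.e (nat_lit 164423) (nat_lit 272) .nil))))) .nil)))) (.nd (nat_lit 5) (.nd (nat_lit 6) 
(.lf (nat_lit 269209) (.g (nat_lit 1203) (.e (nat_lit 188438) (nat_lit 20) (.e (nat_lit 3579) (nat_lit 223) (.e (nat_lit 745475) (nat_lit 0) (.e (nat_lit 1586) (nat_lit 111) (.e (nat_lit 368384) (nat_lit 10) .nil))))) .nil)) 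
(.lf (nat_lit 269273) (.g (nat_lit 1738) (.e (nat_lit 188439) (nat_lit 20) (.e (nat_lit 3272) (nat_lit 199) (.e (nat_lit 548913) (nat_lit 18) (.e (nat_lit 172032) (nat_lit 0) (.e (nat_lit 7540) (nat_lit 402) .nil))))) .nil))) (.nd (nat_lit 6) 
(.lf (nat_lit 269241) (.g (nat_lit 1495) (.e (nat_lit 188439) (nat_lit 20) (.e (nat_lit 3270) (nat_lit 199) (.e (nat_lit 548913) (nat_lit 18) (.e (nat_lit 172070) (nat_lit 4) (.e (nat_lit 237312) (nat_lit 262) (.e (nat_lit 57371) (nat_lit 2) (.e (nat_lit 90176) (nat_lit 15) .nil))))))) (.g (nat_lit 4) .nil .nil))) 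
(.lf (nat_lit 269305) (.g (nat_lit 619) (.e (nat_lit 188439) (nat_lit 20) (.e (nat_lit 3289) (nat_lit 201) (.e (nat_lit 565268) (nat_lit 5) (.e (nat_lit 73788) (nat_lit 45) (.e (nat_lit 1162) (nat_lit 86) (.e (nat_lit 57088) (nat_lit 6) .nil)))))) (.g (nat_lit 5) .nil .nil))))))) (.nd (nat_lit 3) (.nd (nat_lit 4) (.nd (nat_lit 5) (.nd (nat_lit 6) 
(.lf (nat_lit 269189) (.g (nat_lit 824) (.e (nat_lit 188438) (nat_lit 20) (.e (nat_lit 3578) (nat_lit 223) (.e (nat_lit 745475) (nat_lit 0) (.e (nat_lit 1589) (nat_lit 111) (.e (nat_lit 368384) (nat_lit 10) (.e (nat_lit 581376) (nat_lit 6) .nil)))))) (.g (nat_lit 4) .nil .nil))) 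
(.lf (nat_lit 269253) (.g (nat_lit 760) (.e (nat_lit 188439) (nat_lit 20) (.e (nat_lit 3272) (nat_lit 199) (.e (nat_lit 548897) (nat_lit 14) (.e (nat_lit 2980) (nat_lit 185) .nil)))) .nil))) (.nd (nat_lit 6) 
(.lf (nat_lit 269221) (.g (nat_lit 1100) (.e (nat_lit 188438) (nat_lit 20) (.e (nat_lit 3579) (nat_lit 223) (.e (nat_lit 745476) (nat_lit 0) (.e (nat_lit 1599) (nat_lit 111) (.e (nat_lit 368384) (nat_lit 10) (.e (nat_lit 581376) (nat_lit 6) .nil)))))) (.g (nat_lit 4) .nil .nil))) 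
(.lf (nat_lit 269285) (.g (nat_lit 1347) (.e (nat_lit 188439) (nat_lit 20) (.e (nat_lit 3272) (nat_lit 199) (.e (nat_lit 548913) (nat_lit 18) (.e (nat_lit 172048) (nat_lit 0) .nil)))) .nil)))) (.nd (nat_lit 5) (.nd (nat_lit 6) 
(.lf (nat_lit 269205) (.g (nat_lit 375) (.e (nat_lit 188438) (nat_lit 20) (.e (nat_lit 3578) (nat_lit 223) (.e (nat_lit 745493) (nat_lit 6) (.e (nat_lit 81934) (nat_lit 20) (.e (nat_lit 1879) (nat_lit 126) (.e (nat_lit 581376) (nat_lit 6) .nil)))))) (.g (nat_lit 4) .nil .nil))) 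
(.lf (nat_lit 269269) (.g (nat_lit 489) (.e (nat_lit 188439) (nat_lit 20) (.e (nat_lit 3272) (nat_lit 199) (.e (nat_lit 556800) (nat_lit 14) .nil))) .nil))) (.nd (nat_lit 6) 
(.lf (nat_lit 269237) (.g (nat_lit 2201) (.e (nat_lit 188439) (nat_lit 20) (.e (nat_lit 3270) (nat_lit 199) (.e (nat_lit 548913) (nat_lit 18) (.e (nat_lit 172041) (nat_lit 0) (.e (nat_lit 7540) (nat_lit 402) (.e (nat_lit 1227) (nat_lit 91) (.e (nat_lit 90176) (nat_lit 15) .nil))))))) (.g (nat_lit 5) .nil .nil))) 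
(.lf (nat_lit 269301) (.g (nat_lit 3544) (.e (nat_lit 188439) (nat_lit 20) (.e (nat_lit 3272) (nat_lit 199) (.e (nat_lit 548913) (nat_lit 18) (.e (nat_lit 172126) (nat_lit 14) (.e (nat_lit 491524) (nat_lit 0) (.e (nat_lit 1691) (nat_lit 117) (.e (nat_lit 499928) (nat_lit 11) .nil))))))) (.g (nat_lit 5) .nil .nil)))))) (.nd (nat_lit 4) (.nd (nat_lit 5) (.nd (nat_lit 6) 
(.lf (nat_lit 269197) (.g (nat_lit 2283) (.e (nat_lit 188438) (nat_lit 20) (.e (nat_lit 3578) (nat_lit 223) (.e (nat_lit 745476) (nat_lit 0) (.e (nat_lit 1595) (nat_lit 111) (.e (nat_lit 360477) (nat_lit 11) (.e (nat_lit 581653) (nat_lit 6) .nil)))))) (.g (nat_lit 0) .nil .nil))) 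
(.lf (nat_lit 269261) (.g (nat_lit 1331) (.e (nat_lit 188439) (nat_lit 20) (.e (nat_lit 3272) (nat_lit 199) (.e (nat_lit 548898) (nat_lit 14) (.e (nat_lit 2975) (nat_lit 185) .nil)))) .nil))) (.nd (nat_lit 6) 
(.lf (nat_lit 269229) (.g (nat_lit 1115) (.e (nat_lit 188438) (nat_lit 20) (.e (nat_lit 3579) (nat_lit 223) (.e (nat_lit 745493) (nat_lit 6) (.e (nat_lit 81935) (nat_lit 20) (.e (nat_lit 1879) (nat_lit 126) (.e (nat_lit 581376) (nat_lit 6) .nil)))))) (.g (nat_lit 5) .nil .nil))) 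
(.lf (nat_lit 269293) (.g (nat_lit 1270) (.e (nat_lit 188439) (nat_lit 20) (.e (nat_lit 3272) (nat_lit 199) (.e (nat_lit 548913) (nat_lit 18) (.e (nat_lit 172087) (nat_lit 9) .nil)))) .nil)))) (.nd (nat_lit 5) (.nd (nat_lit 6) 
(.lf (nat_lit 269213) (.g (nat_lit 932) (.e (nat_lit 188438) (nat_lit 20) (.e (nat_lit 3579) (nat_lit 223) (.e (nat_lit 745475) (nat_lit 0) (.e (nat_lit 1598) (nat_lit 111) (.e (nat_lit 368384) (nat_lit 10) (.e (nat_lit 581376) (nat_lit 6) .nil)))))) (.g (nat_lit 4) .nil .nil))) 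
(.lf (nat_lit 269277) (.g (nat_lit 1681) (.e (nat_lit 188439) (nat_lit 20) (.e (nat_lit 3272) (nat_lit 199) (.e (nat_lit 548913) (nat_lit 18) (.e (nat_lit 172035) (nat_lit 0) .nil)))) .nil))) (.nd (nat_lit 6) 
(.lf (nat_lit 269245) (.g (nat_lit 1121) (.e (nat_lit 188439) (nat_lit 20) (.e (nat_lit 3270) (nat_lit 199) (.e (nat_lit 548913) (nat_lit 18) (.e (nat_lit 172088) (nat_lit 9) (.e (nat_lit 433920) (nat_lit 15) .nil))))) .nil)) 
(.lf (nat_lit 269309) (.g (nat_lit 776) (.e (nat_lit 188439) (nat_lit 20) (.e (nat_lit 3289) (nat_lit 201) (.e (nat_lit 565268) (nat_lit 5) (.e (nat_lit 73789) (nat_lit 45) (.e (nat_lit 1163) (nat_lit 86) (.e (nat_lit 57088) (nat_lit 6) .nil)))))) (.g (nat_lit 5) .nil .nil)))))))) (.nd (nat_lit 2) (.nd (nat_lit 3) (.nd (nat_lit 4) (.nd (nat_lit 5) (.nd (nat_lit 6) 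
(.lf (nat_lit 269187) (.g (nat_lit 1781) (.e (nat_lit 188438) (nat_lit 20) (.e (nat_lit 3469) (nat_lit 217) (.e (nat_lit 696344) (nat_lit 8) (.e (nat_lit 172113) (nat_lit 10) (.e (nat_lit 434207) (nat_lit 18) .nil))))) .nil)) 
(.lf (nat_lit 269251) (.g (nat_lit 672) (.e (nat_lit 188439) (nat_lit 20) (.e (nat_lit 3271) (nat_lit 199) (.e (nat_lit 548913) (nat_lit 18) (.e (nat_lit 172086) (nat_lit 9) .nil)))) .nil))) (.nd (nat_lit 6) 
(.lf (nat_lit 269219) (.g (nat_lit 1533) (.e (nat_lit 188438) (nat_lit 20) (.e (nat_lit 3579) (nat_lit 223) (.e (nat_lit 745476) (nat_lit 0) (.e (nat_lit 1595) (nat_lit 111) (.e (nat_lit 368384) (nat_lit 10) (.e (nat_lit 581376) (nat_lit 6) .nil)))))) (.g (nat_lit 4) .nil .nil))) 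
(.lf (nat_lit 269283) (.g (nat_lit 1915) (.e (nat_lit 188439) (nat_lit 20) (.e (nat_lit 3272) (nat_lit 199) (.e (nat_lit 548913) (nat_lit 18) (.e (nat_lit 172042) (nat_lit 0) (.e (nat_lit 7936) (nat_lit 402) .nil))))) .nil)))) (.nd (nat_lit 5) (.nd (nat_lit 6) 
(.lf (nat_lit 269203) (.g (nat_lit 605) (.e (nat_lit 188438) (nat_lit 20) (.e (nat_lit 3578) (nat_lit 223) (.e (nat_lit 745493) (nat_lit 6) (.e (nat_lit 81931) (nat_lit 20) (.e (nat_lit 1879) (nat_lit 126) (.e (nat_lit 581376) (nat_lit 6) .nil)))))) (.g (nat_lit 5) .nil .nil))) 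
(.lf (nat_lit 269267) (.g (nat_lit 1877) (.e (nat_lit 188439) (nat_lit 20) (.e (nat_lit 3272) (nat_lit 199) (.e (nat_lit 548898) (nat_lit 14) (.e (nat_lit 3071) (nat_lit 190) (.e (nat_lit 475155) (nat_lit 21) .nil))))) .nil))) (.nd (nat_lit 6) 
(.lf (nat_lit 269235) (.g (nat_lit 809) (.e (nat_lit 188439) (nat_lit 20) (.e (nat_lit 3270) (nat_lit 199) (.e (nat_lit 548913) (nat_lit 18) (.e (nat_lit 172034) (nat_lit 0) .nil)))) .nil)) 
(.lf (nat_lit 269299) (.g (nat_lit 1930) (.e (nat_lit 188439) (nat_lit 20) (.e (nat_lit 3272) (nat_lit 199) (.e (nat_lit 548913) (nat_lit 18) (.e (nat_lit 172094) (nat_lit 9) (.e (nat_lit 433920) (nat_lit 15) .nil))))) .nil))))) (.nd (nat_lit 4) (.nd (nat_lit 5) (.nd (nat_lit 6) 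
(.lf (nat_lit 269195) (.g (nat_lit 1148) (.e (nat_lit 188438) (nat_lit 20) (.e (nat_lit 3578) (nat_lit 223) (.e (nat_lit 745476) (nat_lit 0) (.e (nat_lit 1589) (nat_lit 111) (.e (nat_lit 368384) (nat_lit 10) (.e (nat_lit 581376) (nat_lit 6) .nil)))))) (.g (nat_lit 4) .nil .nil))) 
(.lf (nat_lit 269259) (.g (nat_lit 1299) (.e (nat_lit 188439) (nat_lit 20) (.e (nat_lit 3272) (nat_lit 199) (.e (nat_lit 548898) (nat_lit 14) (.e (nat_lit 2965) (nat_lit 185) .nil)))) .nil))) (.nd (nat_lit 6) 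
(.lf (nat_lit 269227) (.g (nat_lit 746) (.e (nat_lit 188438) (nat_lit 20) (.e (nat_lit 3579) (nat_lit 223) (.e (nat_lit 745493) (nat_lit 6) (.e (nat_lit 81934) (nat_lit 20) (.e (nat_lit 1879) (nat_lit 126) (.e (nat_lit 581376) (nat_lit 6) .nil)))))) (.g (nat_lit 5) .nil .nil))) 
(.lf (nat_lit 269291) (.g (nat_lit 1827) (.e (nat_lit 188439) (nat_lit 20) (.e (nat_lit 3272) (nat_lit 199) (.e (nat_lit 548913) (nat_lit 18) (.e (nat_lit 172061) (nat_lit 1) (.e (nat_lit 164424) (nat_lit 272) .nil))))) .nil)))) (.nd (nat_lit 5) (.nd (nat_lit 6) 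
(.lf (nat_lit 269211) (.g (nat_lit 1820) (.e (nat_lit 188438) (nat_lit 20) (.e (nat_lit 3579) (nat_lit 223) (.e (nat_lit 745475) (nat_lit 0) (.e (nat_lit 1592) (nat_lit 111) (.e (nat_lit 360477) (nat_lit 11) (.e (nat_lit 581653) (nat_lit 6) .nil)))))) (.g (nat_lit 6) .nil .nil))) 
(.lf (nat_lit 269275) (.g (nat_lit 2897) (.e (nat_lit 188439) (nat_lit 20) (.e (nat_lit 3272) (nat_lit 199) (.e (nat_lit 548913) (nat_lit 18) (.e (nat_lit 172033) (nat_lit 0) (.e (nat_lit 7545) (nat_lit 402) (.e (nat_lit 1238) (nat_lit 91) (.e (nat_lit 90176) (nat_lit 15) .nil))))))) (.g (nat_lit 7) .nil .nil)))) (.nd (nat_lit 6) 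
(.lf (nat_lit 269243) (.g (nat_lit 1174) (.e (nat_lit 188439) (nat_lit 20) (.e (nat_lit 3270) (nat_lit 199) (.e (nat_lit 548913) (nat_lit 18) (.e (nat_lit 172087) (nat_lit 9) (.e (nat_lit 426360) (nat_lit 15) .nil))))) .nil)) 
(.lf (nat_lit 269307) (.g (nat_lit 587) (.e (nat_lit 188439) (nat_lit 20) (.e (nat_lit 3289) (nat_lit 201) (.e (nat_lit 565268) (nat_lit 5) (.e (nat_lit 73789) (nat_lit 45) (.e (nat_lit 1161) (nat_lit 86) (.e (nat_lit 57088) (nat_lit 6) .nil)))))) (.g (nat_lit 4) .nil .nil))))))) (.nd (nat_lit 3) (.nd (nat_lit 4) (.nd (nat_lit 5) (.nd (nat_lit 6) 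
(.lf (nat_lit 269191) (.g (nat_lit 621) (.e (nat_lit 188438) (nat_lit 20) (.e (nat_lit 3578) (nat_lit 223) (.e (nat_lit 745475) (nat_lit 0) (.e (nat_lit 1598) (nat_lit 111) (.e (nat_lit 368384) (nat_lit 10) (.e (nat_lit 581376) (nat_lit 6) .nil)))))) (.g (nat_lit 4) .nil .nil))) 
(.lf (nat_lit 269255) (.g (nat_lit 950) (.e (nat_lit 188439) (nat_lit 20) (.e (nat_lit 3272) (nat_lit 199) (.e (nat_lit 548897) (nat_lit 14) (.e (nat_lit 2989) (nat_lit 186) (.e (nat_lit 450304) (nat_lit 0) .nil))))) .nil))) (.nd (nat_lit 6) 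
(.lf (nat_lit 269223) (.g (nat_lit 995) (.e (nat_lit 188438) (nat_lit 20) (.e (nat_lit 3579) (nat_lit 223) (.e (nat_lit 745493) (nat_lit 6) (.e (nat_lit 81931) (nat_lit 20) (.e (nat_lit 1878) (nat_lit 126) (.e (nat_lit 581376) (nat_lit 6) .nil)))))) (.g (nat_lit 5) .nil .nil))) 
(.lf (nat_lit 269287) (.g (nat_lit 1561) (.e (nat_lit 188439) (nat_lit 20) (.e (nat_lit 3272) (nat_lit 199) (.e (nat_lit 548913) (nat_lit 18) (.e (nat_lit 172052) (nat_lit 0) (.e (nat_lit 7936) (nat_lit 402) .nil))))) .nil)))) (.nd (nat_lit 5) (.nd (nat_lit 6) 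
(.lf (nat_lit 269207) (.g (nat_lit 744) (.e (nat_lit 188438) (nat_lit 20) (.e (nat_lit 3578) (nat_lit 223) (.e (nat_lit 745493) (nat_lit 6) (.e (nat_lit 81935) (nat_lit 20) (.e (nat_lit 1879) (nat_lit 126) (.e (nat_lit 581376) (nat_lit 6) .nil)))))) (.g (nat_lit 5) .nil .nil))) 
(.lf (nat_lit 269271) (.g (nat_lit 221) (.e (nat_lit 188439) (nat_lit 20) (.e (nat_lit 3272) (nat_lit 199) (.e (nat_lit 548913) (nat_lit 18) .nil))) .nil))) (.nd (nat_lit 6) 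
(.lf (nat_lit 269239) (.g (nat_lit 1609) (.e (nat_lit 188439) (nat_lit 20) (.e (nat_lit 3270) (nat_lit 199) (.e (nat_lit 548913) (nat_lit 18) (.e (nat_lit 172041) (nat_lit 0) (.e (nat_lit 7936) (nat_lit 402) (.e (nat_lit 1238) (nat_lit 91) (.e (nat_lit 90176) (nat_lit 15) .nil))))))) (.g (nat_lit 4) .nil .nil))) 
(.lf (nat_lit 269303) (.g (nat_lit 2006) (.e (nat_lit 188439) (nat_lit 20) (.e (nat_lit 3272) (nat_lit 199) (.e (nat_lit 548913) (nat_lit 18) (.e (nat_lit 172138) (nat_lit 15) (.e (nat_lit 1009) (nat_lit 81) .nil))))) .nil))))) (.nd (nat_lit 4) (.nd (nat_lit 5) (.nd (nat_lit 6) 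
(.lf (nat_lit 269199) (.g (nat_lit 2327) (.e (nat_lit 188438) (nat_lit 20) (.e (nat_lit 3578) (nat_lit 223) (.e (nat_lit 745476) (nat_lit 0) (.e (nat_lit 1598) (nat_lit 111) (.e (nat_lit 360477) (nat_lit 11) (.e (nat_lit 581653) (nat_lit 6) .nil)))))) (.g (nat_lit 0) .nil .nil))) 
(.lf (nat_lit 269263) (.g (nat_lit 1462) (.e (nat_lit 188439) (nat_lit 20) (.e (nat_lit 3272) (nat_lit 199) (.e (nat_lit 548898) (nat_lit 14) (.e (nat_lit 2981) (nat_lit 185) .nil)))) .nil))) (.nd (nat_lit 6) 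
(.lf (nat_lit 269231) (.g (nat_lit 2857) (.e (nat_lit 188439) (nat_lit 20) (.e (nat_lit 3238) (nat_lit 197) (.e (nat_lit 532563) (nat_lit 15) (.e (nat_lit 385094) (nat_lit 49) (.e (nat_lit 778317) (nat_lit 3) .nil))))) .nil)) 
(.lf (nat_lit 269295) (.g (nat_lit 1523) (.e (nat_lit 188439) (nat_lit 20) (.e (nat_lit 3272) (nat_lit 199) (.e (nat_lit 548913) (nat_lit 18) (.e (nat_lit 172087) (nat_lit 9) (.e (nat_lit 426399) (nat_lit 15) .nil))))) .nil)))) (.nd (nat_lit 5) (.nd (nat_lit 6) 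
(.lf (nat_lit 269215) (.g (nat_lit 1593) (.e (nat_lit 188438) (nat_lit 20) (.e (nat_lit 3579) (nat_lit 223) (.e (nat_lit 745476) (nat_lit 0) (.e (nat_lit 1586) (nat_lit 111) (.e (nat_lit 368384) (nat_lit 10) .nil))))) .nil)) 
(.lf (nat_lit 269279) (.g (nat_lit 2243) (.e (nat_lit 188439) (nat_lit 20) (.e (nat_lit 3272) (nat_lit 199) (.e (nat_lit 548913) (nat_lit 18) (.e (nat_lit 172035) (nat_lit 0) (.e (nat_lit 2403) (nat_lit 157) .nil))))) .nil))) (.nd (nat_lit 6) 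
(.lf (nat_lit 269247) (.g (nat_lit 843) (.e (nat_lit 188439) (nat_lit 20) (.e (nat_lit 3271) (nat_lit 199) (.e (nat_lit 548898) (nat_lit 14) (.e (nat_lit 2980) (nat_lit 185) (.e (nat_lit 442112) (nat_lit 0) .nil))))) .nil)) 
(.lf (nat_lit 269311) (.g (nat_lit 587) (.e (nat_lit 188439) (nat_lit 20) (.e (nat_lit 3289) (nat_lit 201) (.e (nat_lit 565268) (nat_lit 5) (.e (nat_lit 73791) (nat_lit 45) (.e (nat_lit 1163) (nat_lit 86) (.e (nat_lit 57088) (nat_lit 6) .nil)))))) (.g (nat_lit 5) .nil .nil))))))))))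

noncomputable def tv3457 : DT := (.nd (nat_lit 0) (.nd (nat_lit 1) (.nd (nat_lit 2) (.nd (nat_lit 3) (.nd (nat_lit 4) (.nd (nat_lit 5) 
(.lf (nat_lit 269312) (.g (nat_lit 756) (.e (nat_lit 188439) (nat_lit 20) (.e (nat_lit 3289) (nat_lit 201) (.e (nat_lit 565268) (nat_lit 5) (.e (nat_lit 73792) (nat_lit 45) (.e (nat_lit 1162) (nat_lit 86) (.e (nat_lit 57088) (nat_lit 6) .nil)))))) (.g (nat_lit 5) .nil .nil))) 
(.lf (nat_lit 269344) (.g (nat_lit 917) (.e (nat_lit 188439) (nat_lit 20) (.e (nat_lit 3578) (nat_lit 223) (.e (nat_lit 745476) (nat_lit 0) (.e (nat_lit 1599) (nat_lit 111) (.e (nat_lit 368384) (nat_lit 10) (.e (nat_lit 581376) (nat_lit 6) .nil)))))) (.g (nat_lit 4) .nil .nil)))) (.nd (nat_lit 5) 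
(.lf (nat_lit 269328) (.g (nat_lit 1002) (.e (nat_lit 188439) (nat_lit 20) (.e (nat_lit 3578) (nat_lit 223) (.e (nat_lit 745475) (nat_lit 0) (.e (nat_lit 1589) (nat_lit 111) (.e (nat_lit 368384) (nat_lit 10) (.e (nat_lit 581376) (nat_lit 6) .nil)))))) (.g (nat_lit 4) .nil .nil))) 
(.lf (nat_lit 269360) (.g (nat_lit 1478) (.e (nat_lit 188439) (nat_lit 20) (.e (nat_lit 3579) (nat_lit 223) (.e (nat_lit 745475) (nat_lit 0) (.e (nat_lit 1589) (nat_lit 111) (.e (nat_lit 368384) (nat_lit 10) (.e (nat_lit 581376) (nat_lit 6) .nil)))))) (.g (nat_lit 4) .nil .nil))))) (.nd (nat_lit 4) (.nd (nat_lit 5) 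
(.lf (nat_lit 269320) (.g (nat_lit 977) (.e (nat_lit 188439) (nat_lit 20) (.e (nat_lit 3578) (nat_lit 223) (.e (nat_lit 745475) (nat_lit 0) (.e (nat_lit 1559) (nat_lit 110) (.e (nat_lit 352269) (nat_lit 7) (.e (nat_lit 245778) (nat_lit 6) .nil)))))) (.g (nat_lit 6) .nil .nil))) 
(.lf (nat_lit 269352) (.g (nat_lit 932) (.e (nat_lit 188439) (nat_lit 20) (.e (nat_lit 3578) (nat_lit 223) (.e (nat_lit 745493) (nat_lit 6) (.e (nat_lit 81935) (nat_lit 20) (.e (nat_lit 1878) (nat_lit 126) (.e (nat_lit 581376) (nat_lit 6) .nil)))))) (.g (nat_lit 5) .nil .nil)))) (.nd (nat_lit 5) 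
(.lf (nat_lit 269336) (.g (nat_lit 1125) (.e (nat_lit 188439) (nat_lit 20) (.e (nat_lit 3578) (nat_lit 223) (.e (nat_lit 745476) (nat_lit 0) (.e (nat_lit 1575) (nat_lit 110) (.e (nat_lit 360192) (nat_lit 2) (.e (nat_lit 204544) (nat_lit 6) .nil)))))) (.g (nat_lit 4) .nil .nil))) 
(.lf (nat_lit 269368) (.g (nat_lit 1564) (.e (nat_lit 188439) (nat_lit 20) (.e (nat_lit 3579) (nat_lit 223) (.e (nat_lit 745476) (nat_lit 0) (.e (nat_lit 1562) (nat_lit 110) (.e (nat_lit 360192) (nat_lit 2) (.e (nat_lit 204544) (nat_lit 6) .nil)))))) (.g (nat_lit 4) .nil .nil)))))) (.nd (nat_lit 3) (.nd (nat_lit 4) (.nd (nat_lit 5) 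
(.lf (nat_lit 269316) (.g (nat_lit 1168) (.e (nat_lit 188439) (nat_lit 20) (.e (nat_lit 3304) (nat_lit 202) (.e (nat_lit 573456) (nat_lit 9) (.e (nat_lit 1312) (nat_lit 98) .nil)))) .nil)) 
(.lf (nat_lit 269348) (.g (nat_lit 794) (.e (nat_lit 188439) (nat_lit 20) (.e (nat_lit 3578) (nat_lit 223) (.e (nat_lit 745493) (nat_lit 6) (.e (nat_lit 81931) (nat_lit 20) (.e (nat_lit 1879) (nat_lit 126) (.e (nat_lit 581376) (nat_lit 6) .nil)))))) (.g (nat_lit 5) .nil .nil)))) (.nd (nat_lit 5) 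
(.lf (nat_lit 269332) (.g (nat_lit 649) (.e (nat_lit 188439) (nat_lit 20) (.e (nat_lit 3578) (nat_lit 223) (.e (nat_lit 745475) (nat_lit 0) (.e (nat_lit 1599) (nat_lit 111) (.e (nat_lit 368384) (nat_lit 10) (.e (nat_lit 581376) (nat_lit 6) .nil)))))) (.g (nat_lit 4) .nil .nil))) 
(.lf (nat_lit 269364) (.g (nat_lit 1124) (.e (nat_lit 188439) (nat_lit 20) (.e (nat_lit 3579) (nat_lit 223) (.e (nat_lit 745475) (nat_lit 0) (.e (nat_lit 1599) (nat_lit 111) (.e (nat_lit 368384) (nat_lit 10) (.e (nat_lit 581376) (nat_lit 6) .nil)))))) (.g (nat_lit 4) .nil .nil))))) (.nd (nat_lit 4) (.nd (nat_lit 5) 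
(.lf (nat_lit 269324) (.g (nat_lit 744) (.e (nat_lit 188439) (nat_lit 20) (.e (nat_lit 3578) (nat_lit 223) (.e (nat_lit 745475) (nat_lit 0) (.e (nat_lit 1575) (nat_lit 110) (.e (nat_lit 360192) (nat_lit 2) (.e (nat_lit 204544) (nat_lit 6) .nil)))))) (.g (nat_lit 4) .nil .nil))) 
(.lf (nat_lit 269356) (.g (nat_lit 1167) (.e (nat_lit 188439) (nat_lit 20) (.e (nat_lit 3579) (nat_lit 223) (.e (nat_lit 745475) (nat_lit 0) (.e (nat_lit 1569) (nat_lit 110) (.e (nat_lit 360192) (nat_lit 2) (.e (nat_lit 204544) (nat_lit 6) .nil)))))) (.g (nat_lit 4) .nil .nil)))) (.nd (nat_lit 5) 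
(.lf (nat_lit 269340) (.g (nat_lit 1322) (.e (nat_lit 188439) (nat_lit 20) (.e (nat_lit 3578) (nat_lit 223) (.e (nat_lit 745476) (nat_lit 0) (.e (nat_lit 1589) (nat_lit 111) (.e (nat_lit 368384) (nat_lit 10) (.e (nat_lit 581376) (nat_lit 6) .nil)))))) (.g (nat_lit 4) .nil .nil))) 
(.lf (nat_lit 269372) (.g (nat_lit 2050) (.e (nat_lit 188439) (nat_lit 20) (.e (nat_lit 3579) (nat_lit 223) (.e (nat_lit 745476) (nat_lit 0) (.e (nat_lit 1575) (nat_lit 110) (.e (nat_lit 352269) (nat_lit 7) (.e (nat_lit 245778) (nat_lit 6) .nil)))))) (.g (nat_lit 0) .nil .nil))))))) (.nd (nat_lit 2) (.nd (nat_lit 3) (.nd (nat_lit 4) (.nd (nat_lit 5) 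
(.lf (nat_lit 269314) (.g (nat_lit 2565) (.e (nat_lit 188439) (nat_lit 20) (.e (nat_lit 3297) (nat_lit 202) (.e (nat_lit 573471) (nat_lit 11) (.e (nat_lit 16388) (nat_lit 0) (.e (nat_lit 7545) (nat_lit 402) .nil))))) .nil)) 
(.lf (nat_lit 269346) (.g (nat_lit 886) (.e (nat_lit 188439) (nat_lit 20) (.e (nat_lit 3578) (nat_lit 223) (.e (nat_lit 745493) (nat_lit 6) (.e (nat_lit 81931) (nat_lit 20) (.e (nat_lit 1876) (nat_lit 126) (.e (nat_lit 581376) (nat_lit 6) .nil)))))) (.g (nat_lit 5) .nil .nil)))) (.nd (nat_lit 5) 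
(.lf (nat_lit 269330) (.g (nat_lit 1011) (.e (nat_lit 188439) (nat_lit 20) (.e (nat_lit 3578) (nat_lit 223) (.e (nat_lit 745475) (nat_lit 0) (.e (nat_lit 1595) (nat_lit 111) (.e (nat_lit 368384) (nat_lit 10) (.e (nat_lit 581376) (nat_lit 6) .nil)))))) (.g (nat_lit 4) .nil .nil))) 
(.lf (nat_lit 269362) (.g (nat_lit 1485) (.e (nat_lit 188439) (nat_lit 20) (.e (nat_lit 3579) (nat_lit 223) (.e (nat_lit 745475) (nat_lit 0) (.e (nat_lit 1595) (nat_lit 111) (.e (nat_lit 368384) (nat_lit 10) (.e (nat_lit 581376) (nat_lit 6) .nil)))))) (.g (nat_lit 4) .nil .nil))))) (.nd (nat_lit 4) (.nd (nat_lit 5) 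
(.lf (nat_lit 269322) (.g (nat_lit 693) (.e (nat_lit 188439) (nat_lit 20) (.e (nat_lit 3578) (nat_lit 223) (.e (nat_lit 745475) (nat_lit 0) (.e (nat_lit 1569) (nat_lit 110) (.e (nat_lit 360192) (nat_lit 2) (.e (nat_lit 204544) (nat_lit 6) .nil)))))) (.g (nat_lit 4) .nil .nil))) 
(.lf (nat_lit 269354) (.g (nat_lit 391) (.e (nat_lit 188439) (nat_lit 20) (.e (nat_lit 3579) (nat_lit 223) (.e (nat_lit 745475) (nat_lit 0) .nil))) .nil))) (.nd (nat_lit 5) 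
(.lf (nat_lit 269338) (.g (nat_lit 910) (.e (nat_lit 188439) (nat_lit 20) (.e (nat_lit 3578) (nat_lit 223) (.e (nat_lit 745476) (nat_lit 0) (.e (nat_lit 1576) (nat_lit 110) (.e (nat_lit 360192) (nat_lit 2) (.e (nat_lit 204544) (nat_lit 6) .nil)))))) (.g (nat_lit 4) .nil .nil))) 
(.lf (nat_lit 269370) (.g (nat_lit 1510) (.e (nat_lit 188439) (nat_lit 20) (.e (nat_lit 3579) (nat_lit 223) (.e (nat_lit 745476) (nat_lit 0) (.e (nat_lit 1572) (nat_lit 110) (.e (nat_lit 360192) (nat_lit 2) (.e (nat_lit 204544) (nat_lit 6) .nil)))))) (.g (nat_lit 4) .nil .nil)))))) (.nd (nat_lit 3) (.nd (nat_lit 4) (.nd (nat_lit 5) 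
(.lf (nat_lit 269318) (.g (nat_lit 1188) (.e (nat_lit 188439) (nat_lit 20) (.e (nat_lit 3469) (nat_lit 217) (.e (nat_lit 696344) (nat_lit 8) (.e (nat_lit 172106) (nat_lit 10) .nil)))) .nil)) 
(.lf (nat_lit 269350) (.g (nat_lit 573) (.e (nat_lit 188439) (nat_lit 20) (.e (nat_lit 3578) (nat_lit 223) (.e (nat_lit 745493) (nat_lit 6) (.e (nat_lit 81933) (nat_lit 20) (.e (nat_lit 1879) (nat_lit 126) (.e (nat_lit 581376) (nat_lit 6) .nil)))))) (.g (nat_lit 5) .nil .nil)))) (.nd (nat_lit 5) 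
(.lf (nat_lit 269334) (.g (nat_lit 1031) (.e (nat_lit 188439) (nat_lit 20) (.e (nat_lit 3578) (nat_lit 223) (.e (nat_lit 745476) (nat_lit 0) (.e (nat_lit 1562) (nat_lit 110) (.e (nat_lit 360192) (nat_lit 2) (.e (nat_lit 204544) (nat_lit 6) .nil)))))) (.g (nat_lit 4) .nil .nil))) 
(.lf (nat_lit 269366) (.g (nat_lit 1429) (.e (nat_lit 188439) (nat_lit 20) (.e (nat_lit 3579) (nat_lit 223) (.e (nat_lit 745476) (nat_lit 0) (.e (nat_lit 1559) (nat_lit 110) (.e (nat_lit 360192) (nat_lit 2) (.e (nat_lit 204544) (nat_lit 6) .nil)))))) (.g (nat_lit 4) .nil .nil))))) (.nd (nat_lit 4) (.nd (nat_lit 5) 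
(.lf (nat_lit 269326) (.g (nat_lit 632) (.e (nat_lit 188439) (nat_lit 20) (.e (nat_lit 3578) (nat_lit 223) (.e (nat_lit 745475) (nat_lit 0) (.e (nat_lit 1576) (nat_lit 110) (.e (nat_lit 360192) (nat_lit 2) (.e (nat_lit 204544) (nat_lit 6) .nil)))))) (.g (nat_lit 4) .nil .nil))) 
(.lf (nat_lit 269358) (.g (nat_lit 1074) (.e (nat_lit 188439) (nat_lit 20) (.e (nat_lit 3579) (nat_lit 223) (.e (nat_lit 745475) (nat_lit 0) (.e (nat_lit 1576) (nat_lit 110) (.e (nat_lit 360192) (nat_lit 2) (.e (nat_lit 204544) (nat_lit 6) .nil)))))) (.g (nat_lit 4) .nil .nil)))) (.nd (nat_lit 5) 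
(.lf (nat_lit 269342) (.g (nat_lit 1348) (.e (nat_lit 188439) (nat_lit 20) (.e (nat_lit 3578) (nat_lit 223) (.e (nat_lit 745476) (nat_lit 0) (.e (nat_lit 1595) (nat_lit 111) (.e (nat_lit 368384) (nat_lit 10) (.e (nat_lit 581376) (nat_lit 6) .nil)))))) (.g (nat_lit 4) .nil .nil))) 
(.lf (nat_lit 269374) (.g (nat_lit 1901) (.e (nat_lit 188439) (nat_lit 20) (.e (nat_lit 3579) (nat_lit 223) (.e (nat_lit 745476) (nat_lit 0) (.e (nat_lit 1586) (nat_lit 111) (.e (nat_lit 368384) (nat_lit 10) (.e (nat_lit 581376) (nat_lit 6) .nil)))))) (.g (nat_lit 4) .nil .nil)))))))) (.nd (nat_lit 1) (.nd (nat_lit 2) (.nd (nat_lit 3) (.nd (nat_lit 4) (.nd (nat_lit 5) 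
(.lf (nat_lit 269313) (.g (nat_lit 700) (.e (nat_lit 188439) (nat_lit 20) (.e (nat_lit 3289) (nat_lit 201) (.e (nat_lit 565268) (nat_lit 5) (.e (nat_lit 73792) (nat_lit 45) (.e (nat_lit 1163) (nat_lit 86) (.e (nat_lit 57088) (nat_lit 6) .nil)))))) (.g (nat_lit 5) .nil .nil))) 
(.lf (nat_lit 269345) (.g (nat_lit 3010) (.e (nat_lit 188439) (nat_lit 20) (.e (nat_lit 3578) (nat_lit 223) (.e (nat_lit 745491) (nat_lit 4) (.e (nat_lit 65586) (nat_lit 7) (.e (nat_lit 319505) (nat_lit 10) (.e (nat_lit 618) (nat_lit 48) (.e (nat_lit 557107) (nat_lit 15) .nil))))))) (.g (nat_lit 7) .nil .nil)))) (.nd (nat_lit 5) 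
(.lf (nat_lit 269329) (.g (nat_lit 621) (.e (nat_lit 188439) (nat_lit 20) (.e (nat_lit 3578) (nat_lit 223) (.e (nat_lit 745475) (nat_lit 0) (.e (nat_lit 1592) (nat_lit 111) (.e (nat_lit 368384) (nat_lit 10) (.e (nat_lit 581376) (nat_lit 6) .nil)))))) (.g (nat_lit 4) .nil .nil))) 
(.lf (nat_lit 269361) (.g (nat_lit 1091) (.e (nat_lit 188439) (nat_lit 20) (.e (nat_lit 3579) (nat_lit 223) (.e (nat_lit 745475) (nat_lit 0) (.e (nat_lit 1592) (nat_lit 111) (.e (nat_lit 368384) (nat_lit 10) (.e (nat_lit 581376) (nat_lit 6) .nil)))))) (.g (nat_lit 4) .nil .nil))))) (.nd (nat_lit 4) (.nd (nat_lit 5) 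
(.lf (nat_lit 269321) (.g (nat_lit 770) (.e (nat_lit 188439) (nat_lit 20) (.e (nat_lit 3578) (nat_lit 223) (.e (nat_lit 745475) (nat_lit 0) (.e (nat_lit 1562) (nat_lit 110) (.e (nat_lit 360192) (nat_lit 2) (.e (nat_lit 204544) (nat_lit 6) .nil)))))) (.g (nat_lit 4) .nil .nil))) 
(.lf (nat_lit 269353) (.g (nat_lit 938) (.e (nat_lit 188439) (nat_lit 20) (.e (nat_lit 3578) (nat_lit 223) (.e (nat_lit 745493) (nat_lit 6) (.e (nat_lit 81935) (nat_lit 20) (.e (nat_lit 1879) (nat_lit 126) (.e (nat_lit 581376) (nat_lit 6) .nil)))))) (.g (nat_lit 5) .nil .nil)))) (.nd (nat_lit 5) 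
(.lf (nat_lit 269337) (.g (nat_lit 1526) (.e (nat_lit 188439) (nat_lit 20) (.e (nat_lit 3578) (nat_lit 223) (.e (nat_lit 745476) (nat_lit 0) (.e (nat_lit 1575) (nat_lit 110) (.e (nat_lit 352269) (nat_lit 7) (.e (nat_lit 245778) (nat_lit 6) .nil)))))) (.g (nat_lit 0) .nil .nil))) 
(.lf (nat_lit 269369) (.g (nat_lit 1509) (.e (nat_lit 188439) (nat_lit 20) (.e (nat_lit 3579) (nat_lit 223) (.e (nat_lit 745476) (nat_lit 0) (.e (nat_lit 1569) (nat_lit 110) (.e (nat_lit 360192) (nat_lit 2) (.e (nat_lit 204544) (nat_lit 6) .nil)))))) (.g (nat_lit 4) .nil .nil)))))) (.nd (nat_lit 3) (.nd (nat_lit 4) (.nd (nat_lit 5) 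
(.lf (nat_lit 269317) (.g (nat_lit 3127) (.e (nat_lit 188439) (nat_lit 20) (.e (nat_lit 3416) (nat_lit 213) (.e (nat_lit 663554) (nat_lit 0) (.e (nat_lit 1669) (nat_lit 116) (.e (nat_lit 401454) (nat_lit 12) (.e (nat_lit 475197) (nat_lit 40) (.e (nat_lit 704598) (nat_lit 6) .nil))))))) (.g (nat_lit 5) .nil .nil))) 
(.lf (nat_lit 269349) (.g (nat_lit 537) (.e (nat_lit 188439) (nat_lit 20) (.e (nat_lit 3578) (nat_lit 223) (.e (nat_lit 745493) (nat_lit 6) (.e (nat_lit 81933) (nat_lit 20) (.e (nat_lit 1878) (nat_lit 126) (.e (nat_lit 581376) (nat_lit 6) .nil)))))) (.g (nat_lit 5) .nil .nil)))) (.nd (nat_lit 5) 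
(.lf (nat_lit 269333) (.g (nat_lit 911) (.e (nat_lit 188439) (nat_lit 20) (.e (nat_lit 3578) (nat_lit 223) (.e (nat_lit 745476) (nat_lit 0) (.e (nat_lit 1559) (nat_lit 110) (.e (nat_lit 360192) (nat_lit 2) (.e (nat_lit 204544) (nat_lit 6) .nil)))))) (.g (nat_lit 4) .nil .nil))) 
(.lf (nat_lit 269365) (.g (nat_lit 1151) (.e (nat_lit 188439) (nat_lit 20) (.e (nat_lit 3579) (nat_lit 223) (.e (nat_lit 745476) (nat_lit 0) (.e (nat_lit 1551) (nat_lit 109) (.e (nat_lit 344093) (nat_lit 18) .nil))))) .nil)))) (.nd (nat_lit 4) (.nd (nat_lit 5) 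
(.lf (nat_lit 269325) (.g (nat_lit 1142) (.e (nat_lit 188439) (nat_lit 20) (.e (nat_lit 3578) (nat_lit 223) (.e (nat_lit 745475) (nat_lit 0) (.e (nat_lit 1575) (nat_lit 110) (.e (nat_lit 352269) (nat_lit 7) (.e (nat_lit 245778) (nat_lit 6) .nil)))))) (.g (nat_lit 6) .nil .nil))) 
(.lf (nat_lit 269357) (.g (nat_lit 1206) (.e (nat_lit 188439) (nat_lit 20) (.e (nat_lit 3579) (nat_lit 223) (.e (nat_lit 745475) (nat_lit 0) (.e (nat_lit 1575) (nat_lit 110) (.e (nat_lit 360192) (nat_lit 2) (.e (nat_lit 204544) (nat_lit 6) .nil)))))) (.g (nat_lit 4) .nil .nil)))) (.nd (nat_lit 5) 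
(.lf (nat_lit 269341) (.g (nat_lit 932) (.e (nat_lit 188439) (nat_lit 20) (.e (nat_lit 3578) (nat_lit 223) (.e (nat_lit 745476) (nat_lit 0) (.e (nat_lit 1592) (nat_lit 111) (.e (nat_lit 368384) (nat_lit 10) (.e (nat_lit 581376) (nat_lit 6) .nil)))))) (.g (nat_lit 4) .nil .nil))) 
(.lf (nat_lit 269373) (.g (nat_lit 1442) (.e (nat_lit 188439) (nat_lit 20) (.e (nat_lit 3579) (nat_lit 223) (.e (nat_lit 745476) (nat_lit 0) (.e (nat_lit 1576) (nat_lit 110) (.e (nat_lit 360192) (nat_lit 2) (.e (nat_lit 204544) (nat_lit 6) .nil)))))) (.g (nat_lit 4) .nil .nil))))))) (.nd (nat_lit 2) (.nd (nat_lit 3) (.nd (nat_lit 4) (.nd (nat_lit 5) 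
(.lf (nat_lit 269315) (.g (nat_lit 2785) (.e (nat_lit 188439) (nat_lit 20) (.e (nat_lit 3297) (nat_lit 202) (.e (nat_lit 573471) (nat_lit 11) (.e (nat_lit 16388) (nat_lit 0) (.e (nat_lit 7545) (nat_lit 402) (.e (nat_lit 1238) (nat_lit 91) (.e (nat_lit 90176) (nat_lit 15) .nil))))))) (.g (nat_lit 4) .nil .nil))) 
(.lf (nat_lit 269347) (.g (nat_lit 814) (.e (nat_lit 188439) (nat_lit 20) (.e (nat_lit 3578) (nat_lit 223) (.e (nat_lit 745493) (nat_lit 6) (.e (nat_lit 81931) (nat_lit 20) (.e (nat_lit 1878) (nat_lit 126) (.e (nat_lit 581376) (nat_lit 6) .nil)))))) (.g (nat_lit 5) .nil .nil)))) (.nd (nat_lit 5) 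
(.lf (nat_lit 269331) (.g (nat_lit 799) (.e (nat_lit 188439) (nat_lit 20) (.e (nat_lit 3578) (nat_lit 223) (.e (nat_lit 745475) (nat_lit 0) (.e (nat_lit 1598) (nat_lit 111) (.e (nat_lit 368384) (nat_lit 10) (.e (nat_lit 581376) (nat_lit 6) .nil)))))) (.g (nat_lit 4) .nil .nil))) 
(.lf (nat_lit 269363) (.g (nat_lit 1268) (.e (nat_lit 188439) (nat_lit 20) (.e (nat_lit 3579) (nat_lit 223) (.e (nat_lit 745475) (nat_lit 0) (.e (nat_lit 1598) (nat_lit 111) (.e (nat_lit 368384) (nat_lit 10) (.e (nat_lit 581376) (nat_lit 6) .nil)))))) (.g (nat_lit 4) .nil .nil))))) (.nd (nat_lit 4) (.nd (nat_lit 5) 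
(.lf (nat_lit 269323) (.g (nat_lit 885) (.e (nat_lit 188439) (nat_lit 20) (.e (nat_lit 3578) (nat_lit 223) (.e (nat_lit 745475) (nat_lit 0) (.e (nat_lit 1569) (nat_lit 110) (.e (nat_lit 352269) (nat_lit 7) (.e (nat_lit 245778) (nat_lit 6) .nil)))))) (.g (nat_lit 6) .nil .nil))) 
(.lf (nat_lit 269355) (.g (nat_lit 1238) (.e (nat_lit 188439) (nat_lit 20) (.e (nat_lit 3579) (nat_lit 223) (.e (nat_lit 745475) (nat_lit 0) (.e (nat_lit 1562) (nat_lit 110) (.e (nat_lit 360192) (nat_lit 2) (.e (nat_lit 204544) (nat_lit 6) .nil)))))) (.g (nat_lit 4) .nil .nil)))) (.nd (nat_lit 5) 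
(.lf (nat_lit 269339) (.g (nat_lit 1384) (.e (nat_lit 188439) (nat_lit 20) (.e (nat_lit 3578) (nat_lit 223) (.e (nat_lit 745476) (nat_lit 0) (.e (nat_lit 1586) (nat_lit 111) (.e (nat_lit 368384) (nat_lit 10) (.e (nat_lit 581376) (nat_lit 6) .nil)))))) (.g (nat_lit 4) .nil .nil))) 
(.lf (nat_lit 269371) (.g (nat_lit 1656) (.e (nat_lit 188439) (nat_lit 20) (.e (nat_lit 3579) (nat_lit 223) (.e (nat_lit 745476) (nat_lit 0) (.e (nat_lit 1575) (nat_lit 110) (.e (nat_lit 360192) (nat_lit 2) (.e (nat_lit 204544) (nat_lit 6) .nil)))))) (.g (nat_lit 4) .nil .nil)))))) (.nd (nat_lit 3) (.nd (nat_lit 4) (.nd (nat_lit 5) 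
(.lf (nat_lit 269319) (.g (nat_lit 1188) (.e (nat_lit 188439) (nat_lit 20) (.e (nat_lit 3469) (nat_lit 217) (.e (nat_lit 696344) (nat_lit 8) (.e (nat_lit 172112) (nat_lit 10) .nil)))) .nil)) 
(.lf (nat_lit 269351) (.g (nat_lit 570) (.e (nat_lit 188439) (nat_lit 20) (.e (nat_lit 3578) (nat_lit 223) (.e (nat_lit 745493) (nat_lit 6) (.e (nat_lit 81934) (nat_lit 20) (.e (nat_lit 1879) (nat_lit 126) (.e (nat_lit 581376) (nat_lit 6) .nil)))))) (.g (nat_lit 5) .nil .nil)))) (.nd (nat_lit 5) 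
(.lf (nat_lit 269335) (.g (nat_lit 985) (.e (nat_lit 188439) (nat_lit 20) (.e (nat_lit 3578) (nat_lit 223) (.e (nat_lit 745476) (nat_lit 0) (.e (nat_lit 1569) (nat_lit 110) (.e (nat_lit 360192) (nat_lit 2) (.e (nat_lit 204544) (nat_lit 6) .nil)))))) (.g (nat_lit 4) .nil .nil))) 
(.lf (nat_lit 269367) (.g (nat_lit 1824) (.e (nat_lit 188439) (nat_lit 20) (.e (nat_lit 3579) (nat_lit 223) (.e (nat_lit 745476) (nat_lit 0) (.e (nat_lit 1559) (nat_lit 110) (.e (nat_lit 352269) (nat_lit 7) (.e (nat_lit 245778) (nat_lit 6) .nil)))))) (.g (nat_lit 0) .nil .nil))))) (.nd (nat_lit 4) (.nd (nat_lit 5) 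
(.lf (nat_lit 269327) (.g (nat_lit 975) (.e (nat_lit 188439) (nat_lit 20) (.e (nat_lit 3578) (nat_lit 223) (.e (nat_lit 745475) (nat_lit 0) (.e (nat_lit 1586) (nat_lit 111) (.e (nat_lit 368384) (nat_lit 10) (.e (nat_lit 581376) (nat_lit 6) .nil)))))) (.g (nat_lit 4) .nil .nil))) 
(.lf (nat_lit 269359) (.g (nat_lit 1458) (.e (nat_lit 188439) (nat_lit 20) (.e (nat_lit 3579) (nat_lit 223) (.e (nat_lit 745475) (nat_lit 0) (.e (nat_lit 1586) (nat_lit 111) (.e (nat_lit 368384) (nat_lit 10) (.e (nat_lit 581376) (nat_lit 6) .nil)))))) (.g (nat_lit 4) .nil .nil)))) (.nd (nat_lit 5) 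
(.lf (nat_lit 269343) (.g (nat_lit 1268) (.e (nat_lit 188439) (nat_lit 20) (.e (nat_lit 3578) (nat_lit 223) (.e (nat_lit 745476) (nat_lit 0) (.e (nat_lit 1598) (nat_lit 111) (.e (nat_lit 368384) (nat_lit 10) (.e (nat_lit 581376) (nat_lit 6) .nil)))))) (.g (nat_lit 4) .nil .nil))) 
(.lf (nat_lit 269375) (.g (nat_lit 1851) (.e (nat_lit 188439) (nat_lit 20) (.e (nat_lit 3579) (nat_lit 223) (.e (nat_lit 745476) (nat_lit 0) (.e (nat_lit 1589) (nat_lit 111) (.e (nat_lit 368384) (nat_lit 10) (.e (nat_lit 581376) (nat_lit 6) .nil)))))) (.g (nat_lit 4) .nil .nil)))))))))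

noncomputable def tv3458 : DT := (.nd (nat_lit 0) (.nd (nat_lit 1) (.nd (nat_lit 2) (.nd (nat_lit 3) (.nd (nat_lit 4) (.nd (nat_lit 5) 
(.lf (nat_lit 269376) (.g (nat_lit 1452) (.e (nat_lit 188439) (nat_lit 20) (.e (nat_lit 3579) (nat_lit 223) (.e (nat_lit 745476) (nat_lit 0) (.e (nat_lit 1592) (nat_lit 111) (.e (nat_lit 368384) (nat_lit 10) (.e (nat_lit 581376) (nat_lit 6) .nil)))))) (.g (nat_lit 4) .nil .nil))) 
(.lf (nat_lit 269408) (.g (nat_lit 780) (.e (nat_lit 188440) (nat_lit 20) (.e (nat_lit 3289) (nat_lit 201) (.e (nat_lit 565268) (nat_lit 5) (.e (nat_lit 73788) (nat_lit 45) (.e (nat_lit 1163) (nat_lit 86) (.e (nat_lit 57088) (nat_lit 6) .nil)))))) (.g (nat_lit 5) .nil .nil)))) (.nd (nat_lit 5) 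
(.lf (nat_lit 269392) (.g (nat_lit 2136) (.e (nat_lit 188440) (nat_lit 20) (.e (nat_lit 3238) (nat_lit 197) (.e (nat_lit 532563) (nat_lit 15) (.e (nat_lit 385094) (nat_lit 49) .nil)))) .nil)) 
(.lf (nat_lit 269424) (.g (nat_lit 1860) (.e (nat_lit 188440) (nat_lit 20) (.e (nat_lit 3307) (nat_lit 202) (.e (nat_lit 573475) (nat_lit 12) (.e (nat_lit 57351) (nat_lit 0) .nil)))) .nil)))) (.nd (nat_lit 4) (.nd (nat_lit 5) 
(.lf (nat_lit 269384) (.g (nat_lit 1339) (.e (nat_lit 188439) (nat_lit 20) (.e (nat_lit 3579) (nat_lit 223) (.e (nat_lit 745493) (nat_lit 6) (.e (nat_lit 81931) (nat_lit 20) (.e (nat_lit 1878) (nat_lit 126) (.e (nat_lit 581376) (nat_lit 6) .nil)))))) (.g (nat_lit 5) .nil .nil))) 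
(.lf (nat_lit 269416) (.g (nat_lit 3063) (.e (nat_lit 188440) (nat_lit 20) (.e (nat_lit 3307) (nat_lit 202) (.e (nat_lit 573454) (nat_lit 9) (.e (nat_lit 1315) (nat_lit 98) (.e (nat_lit 147495) (nat_lit 11) (.e (nat_lit 24605) (nat_lit 2) (.e (nat_lit 90178) (nat_lit 15) .nil))))))) (.g (nat_lit 5) .nil .nil)))) (.nd (nat_lit 5) 
(.lf (nat_lit 269400) (.g (nat_lit 274) (.e (nat_lit 188440) (nat_lit 20) (.e (nat_lit 3272) (nat_lit 199) (.e (nat_lit 548913) (nat_lit 18) .nil))) .nil)) 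
(.lf (nat_lit 269432) (.g (nat_lit 1183) (.e (nat_lit 188440) (nat_lit 20) (.e (nat_lit 3578) (nat_lit 223) (.e (nat_lit 745475) (nat_lit 0) (.e (nat_lit 1559) (nat_lit 110) (.e (nat_lit 352269) (nat_lit 7) (.e (nat_lit 245778) (nat_lit 6) .nil)))))) (.g (nat_lit 6) .nil .nil)))))) (.nd (nat_lit 3) (.nd (nat_lit 4) (.nd (nat_lit 5) 
(.lf (nat_lit 269380) (.g (nat_lit 1446) (.e (nat_lit 188439) (nat_lit 20) (.e (nat_lit 3579) (nat_lit 223) (.e (nat_lit 745476) (nat_lit 0) (.e (nat_lit 1599) (nat_lit 111) (.e (nat_lit 368384) (nat_lit 10) (.e (nat_lit 581376) (nat_lit 6) .nil)))))) (.g (nat_lit 4) .nil .nil))) 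
(.lf (nat_lit 269412) (.g (nat_lit 856) (.e (nat_lit 188440) (nat_lit 20) (.e (nat_lit 3289) (nat_lit 201) (.e (nat_lit 565268) (nat_lit 5) (.e (nat_lit 73791) (nat_lit 45) (.e (nat_lit 1162) (nat_lit 86) (.e (nat_lit 57088) (nat_lit 6) .nil)))))) (.g (nat_lit 5) .nil .nil)))) (.nd (nat_lit 5) 
(.lf (nat_lit 269396) (.g (nat_lit 1491) (.e (nat_lit 188440) (nat_lit 20) (.e (nat_lit 3271) (nat_lit 199) (.e (nat_lit 548913) (nat_lit 18) (.e (nat_lit 172095) (nat_lit 9) (.e (nat_lit 426380) (nat_lit 15) .nil))))) .nil)) 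
(.lf (nat_lit 269428) (.g (nat_lit 785) (.e (nat_lit 188440) (nat_lit 20) (.e (nat_lit 3307) (nat_lit 202) (.e (nat_lit 573477) (nat_lit 12) .nil))) .nil)))) (.nd (nat_lit 4) (.nd (nat_lit 5) 
(.lf (nat_lit 269388) (.g (nat_lit 1088) (.e (nat_lit 188439) (nat_lit 20) (.e (nat_lit 3579) (nat_lit 223) (.e (nat_lit 745493) (nat_lit 6) (.e (nat_lit 81934) (nat_lit 20) (.e (nat_lit 1879) (nat_lit 126) (.e (nat_lit 581376) (nat_lit 6) .nil)))))) (.g (nat_lit 5) .nil .nil))) 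
(.lf (nat_lit 269420) (.g (nat_lit 3018) (.e (nat_lit 188440) (nat_lit 20) (.e (nat_lit 3307) (nat_lit 202) (.e (nat_lit 573474) (nat_lit 12) (.e (nat_lit 57572) (nat_lit 54) (.e (nat_lit 770058) (nat_lit 5) .nil))))) .nil))) (.nd (nat_lit 5) 
(.lf (nat_lit 269404) (.g (nat_lit 2801) (.e (nat_lit 188440) (nat_lit 20) (.e (nat_lit 3272) (nat_lit 199) (.e (nat_lit 548913) (nat_lit 18) (.e (nat_lit 172126) (nat_lit 14) (.e (nat_lit 491523) (nat_lit 0) (.e (nat_lit 1691) (nat_lit 117) (.e (nat_lit 499929) (nat_lit 11) .nil))))))) (.g (nat_lit 4) .nil .nil))) 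
(.lf (nat_lit 269436) (.g (nat_lit 954) (.e (nat_lit 188440) (nat_lit 20) (.e (nat_lit 3578) (nat_lit 223) (.e (nat_lit 745475) (nat_lit 0) (.e (nat_lit 1575) (nat_lit 110) (.e (nat_lit 360192) (nat_lit 2) (.e (nat_lit 204544) (nat_lit 6) .nil)))))) (.g (nat_lit 4) .nil .nil))))))) (.nd (nat_lit 2) (.nd (nat_lit 3) (.nd (nat_lit 4) (.nd (nat_lit 5) 
(.lf (nat_lit 269378) (.g (nat_lit 1624) (.e (nat_lit 188439) (nat_lit 20) (.e (nat_lit 3579) (nat_lit 223) (.e (nat_lit 745476) (nat_lit 0) (.e (nat_lit 1595) (nat_lit 111) (.e (nat_lit 360477) (nat_lit 11) (.e (nat_lit 589568) (nat_lit 6) .nil)))))) (.g (nat_lit 4) .nil .nil))) 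
(.lf (nat_lit 269410) (.g (nat_lit 1029) (.e (nat_lit 188440) (nat_lit 20) (.e (nat_lit 3289) (nat_lit 201) (.e (nat_lit 565268) (nat_lit 5) (.e (nat_lit 73789) (nat_lit 45) (.e (nat_lit 1162) (nat_lit 86) (.e (nat_lit 57088) (nat_lit 6) .nil)))))) (.g (nat_lit 5) .nil .nil)))) (.nd (nat_lit 5) 
(.lf (nat_lit 269394) (.g (nat_lit 1554) (.e (nat_lit 188440) (nat_lit 20) (.e (nat_lit 3255) (nat_lit 197) (.e (nat_lit 532535) (nat_lit 9) (.e (nat_lit 335925) (nat_lit 0) .nil)))) .nil)) 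
(.lf (nat_lit 269426) (.g (nat_lit 1937) (.e (nat_lit 188440) (nat_lit 20) (.e (nat_lit 3307) (nat_lit 202) (.e (nat_lit 573475) (nat_lit 12) (.e (nat_lit 57353) (nat_lit 0) (.e (nat_lit 7125) (nat_lit 382) .nil))))) .nil)))) (.nd (nat_lit 4) (.nd (nat_lit 5) 
(.lf (nat_lit 269386) (.g (nat_lit 1057) (.e (nat_lit 188439) (nat_lit 20) (.e (nat_lit 3579) (nat_lit 223) (.e (nat_lit 745493) (nat_lit 6) (.e (nat_lit 81933) (nat_lit 20) (.e (nat_lit 1878) (nat_lit 126) (.e (nat_lit 581376) (nat_lit 6) .nil)))))) (.g (nat_lit 5) .nil .nil))) 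
(.lf (nat_lit 269418) (.g (nat_lit 371) (.e (nat_lit 188440) (nat_lit 20) (.e (nat_lit 3307) (nat_lit 202) (.e (nat_lit 573455) (nat_lit 9) .nil))) .nil))) (.nd (nat_lit 5) 
(.lf (nat_lit 269402) (.g (nat_lit 1410) (.e (nat_lit 188440) (nat_lit 20) (.e (nat_lit 3272) (nat_lit 199) (.e (nat_lit 548913) (nat_lit 18) (.e (nat_lit 172070) (nat_lit 4) .nil)))) .nil)) 
(.lf (nat_lit 269434) (.g (nat_lit 902) (.e (nat_lit 188440) (nat_lit 20) (.e (nat_lit 3578) (nat_lit 223) (.e (nat_lit 745475) (nat_lit 0) (.e (nat_lit 1569) (nat_lit 110) (.e (nat_lit 360192) (nat_lit 2) (.e (nat_lit 204544) (nat_lit 6) .nil)))))) (.g (nat_lit 4) .nil .nil)))))) (.nd (nat_lit 3) (.nd (nat_lit 4) (.nd (nat_lit 5) 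
(.lf (nat_lit 269382) (.g (nat_lit 397) (.e (nat_lit 188439) (nat_lit 20) (.e (nat_lit 3579) (nat_lit 223) (.e (nat_lit 745493) (nat_lit 6) .nil))) .nil)) 
(.lf (nat_lit 269414) (.g (nat_lit 969) (.e (nat_lit 188440) (nat_lit 20) (.e (nat_lit 3289) (nat_lit 201) (.e (nat_lit 565268) (nat_lit 5) (.e (nat_lit 73792) (nat_lit 45) (.e (nat_lit 1162) (nat_lit 86) (.e (nat_lit 57088) (nat_lit 6) .nil)))))) (.g (nat_lit 5) .nil .nil)))) (.nd (nat_lit 5) 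
(.lf (nat_lit 269398) (.g (nat_lit 2483) (.e (nat_lit 188440) (nat_lit 20) (.e (nat_lit 3271) (nat_lit 199) (.e (nat_lit 548913) (nat_lit 18) (.e (nat_lit 172125) (nat_lit 14) (.e (nat_lit 491524) (nat_lit 0) (.e (nat_lit 1691) (nat_lit 117) (.e (nat_lit 499929) (nat_lit 11) .nil))))))) (.g (nat_lit 6) .nil .nil))) 
(.lf (nat_lit 269430) (.g (nat_lit 3743) (.e (nat_lit 188440) (nat_lit 20) (.e (nat_lit 3437) (nat_lit 214) (.e (nat_lit 671748) (nat_lit 0) (.e (nat_lit 1669) (nat_lit 116) (.e (nat_lit 401454) (nat_lit 12) (.e (nat_lit 475198) (nat_lit 40) (.e (nat_lit 704599) (nat_lit 6) .nil))))))) (.g (nat_lit 6) .nil .nil))))) (.nd (nat_lit 4) (.nd (nat_lit 5) 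
(.lf (nat_lit 269390) (.g (nat_lit 1458) (.e (nat_lit 188439) (nat_lit 20) (.e (nat_lit 3579) (nat_lit 223) (.e (nat_lit 745493) (nat_lit 6) (.e (nat_lit 81935) (nat_lit 20) (.e (nat_lit 1879) (nat_lit 126) (.e (nat_lit 581376) (nat_lit 6) .nil)))))) (.g (nat_lit 5) .nil .nil))) 
(.lf (nat_lit 269422) (.g (nat_lit 1702) (.e (nat_lit 188440) (nat_lit 20) (.e (nat_lit 3307) (nat_lit 202) (.e (nat_lit 573475) (nat_lit 12) (.e (nat_lit 57347) (nat_lit 0) .nil)))) .nil))) (.nd (nat_lit 5) 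
(.lf (nat_lit 269406) (.g (nat_lit 398) (.e (nat_lit 188440) (nat_lit 20) (.e (nat_lit 3272) (nat_lit 199) (.e (nat_lit 548914) (nat_lit 19) .nil))) .nil)) 
(.lf (nat_lit 269438) (.g (nat_lit 841) (.e (nat_lit 188440) (nat_lit 20) (.e (nat_lit 3578) (nat_lit 223) (.e (nat_lit 745475) (nat_lit 0) (.e (nat_lit 1576) (nat_lit 110) (.e (nat_lit 360192) (nat_lit 2) (.e (nat_lit 204544) (nat_lit 6) .nil)))))) (.g (nat_lit 4) .nil .nil)))))))) (.nd (nat_lit 1) (.nd (nat_lit 2) (.nd (nat_lit 3) (.nd (nat_lit 4) (.nd (nat_lit 5) 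
(.lf (nat_lit 269377) (.g (nat_lit 1879) (.e (nat_lit 188439) (nat_lit 20) (.e (nat_lit 3579) (nat_lit 223) (.e (nat_lit 745476) (nat_lit 0) (.e (nat_lit 1595) (nat_lit 111) (.e (nat_lit 368384) (nat_lit 10) (.e (nat_lit 581376) (nat_lit 6) .nil)))))) (.g (nat_lit 4) .nil .nil))) 
(.lf (nat_lit 269409) (.g (nat_lit 795) (.e (nat_lit 188440) (nat_lit 20) (.e (nat_lit 3289) (nat_lit 201) (.e (nat_lit 565268) (nat_lit 5) (.e (nat_lit 73789) (nat_lit 45) (.e (nat_lit 1161) (nat_lit 86) (.e (nat_lit 57088) (nat_lit 6) .nil)))))) (.g (nat_lit 4) .nil .nil)))) (.nd (nat_lit 5) 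
(.lf (nat_lit 269393) (.g (nat_lit 1449) (.e (nat_lit 188440) (nat_lit 20) (.e (nat_lit 3255) (nat_lit 197) (.e (nat_lit 532523) (nat_lit 7) (.e (nat_lit 319535) (nat_lit 17) (.e (nat_lit 294928) (nat_lit 2) .nil))))) .nil)) 
(.lf (nat_lit 269425) (.g (nat_lit 2148) (.e (nat_lit 188440) (nat_lit 20) (.e (nat_lit 3307) (nat_lit 202) (.e (nat_lit 573475) (nat_lit 12) (.e (nat_lit 57351) (nat_lit 0) (.e (nat_lit 7122) (nat_lit 382) .nil))))) .nil)))) (.nd (nat_lit 4) (.nd (nat_lit 5) 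
(.lf (nat_lit 269385) (.g (nat_lit 1321) (.e (nat_lit 188439) (nat_lit 20) (.e (nat_lit 3579) (nat_lit 223) (.e (nat_lit 745493) (nat_lit 6) (.e (nat_lit 81931) (nat_lit 20) (.e (nat_lit 1879) (nat_lit 126) (.e (nat_lit 581376) (nat_lit 6) .nil)))))) (.g (nat_lit 5) .nil .nil))) 
(.lf (nat_lit 269417) (.g (nat_lit 2778) (.e (nat_lit 188440) (nat_lit 20) (.e (nat_lit 3307) (nat_lit 202) (.e (nat_lit 573454) (nat_lit 9) (.e (nat_lit 1315) (nat_lit 98) (.e (nat_lit 147496) (nat_lit 11) (.e (nat_lit 24603) (nat_lit 2) (.e (nat_lit 90175) (nat_lit 15) .nil))))))) (.g (nat_lit 5) .nil .nil)))) (.nd (nat_lit 5) 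
(.lf (nat_lit 269401) (.g (nat_lit 1432) (.e (nat_lit 188440) (nat_lit 20) (.e (nat_lit 3272) (nat_lit 199) (.e (nat_lit 548913) (nat_lit 18) (.e (nat_lit 172034) (nat_lit 0) .nil)))) .nil)) 
(.lf (nat_lit 269433) (.g (nat_lit 979) (.e (nat_lit 188440) (nat_lit 20) (.e (nat_lit 3578) (nat_lit 223) (.e (nat_lit 745475) (nat_lit 0) (.e (nat_lit 1562) (nat_lit 110) (.e (nat_lit 360192) (nat_lit 2) (.e (nat_lit 204544) (nat_lit 6) .nil)))))) (.g (nat_lit 4) .nil .nil)))))) (.nd (nat_lit 3) (.nd (nat_lit 4) (.nd (nat_lit 5) 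
(.lf (nat_lit 269381) (.g (nat_lit 1415) (.e (nat_lit 188439) (nat_lit 20) (.e (nat_lit 3579) (nat_lit 223) (.e (nat_lit 745476) (nat_lit 0) (.e (nat_lit 1642) (nat_lit 114) (.e (nat_lit 385045) (nat_lit 21) .nil))))) .nil)) 
(.lf (nat_lit 269413) (.g (nat_lit 797) (.e (nat_lit 188440) (nat_lit 20) (.e (nat_lit 3289) (nat_lit 201) (.e (nat_lit 565268) (nat_lit 5) (.e (nat_lit 73791) (nat_lit 45) (.e (nat_lit 1163) (nat_lit 86) (.e (nat_lit 57088) (nat_lit 6) .nil)))))) (.g (nat_lit 5) .nil .nil)))) (.nd (nat_lit 5) 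
(.lf (nat_lit 269397) (.g (nat_lit 1735) (.e (nat_lit 188440) (nat_lit 20) (.e (nat_lit 3271) (nat_lit 199) (.e (nat_lit 548913) (nat_lit 18) (.e (nat_lit 172124) (nat_lit 14) (.e (nat_lit 491524) (nat_lit 0) .nil))))) .nil)) 
(.lf (nat_lit 269429) (.g (nat_lit 1632) (.e (nat_lit 188440) (nat_lit 20) (.e (nat_lit 3307) (nat_lit 202) (.e (nat_lit 573477) (nat_lit 12) (.e (nat_lit 57575) (nat_lit 55) .nil)))) .nil)))) (.nd (nat_lit 4) (.nd (nat_lit 5) 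
(.lf (nat_lit 269389) (.g (nat_lit 1450) (.e (nat_lit 188439) (nat_lit 20) (.e (nat_lit 3579) (nat_lit 223) (.e (nat_lit 745493) (nat_lit 6) (.e (nat_lit 81935) (nat_lit 20) (.e (nat_lit 1878) (nat_lit 126) (.e (nat_lit 581376) (nat_lit 6) .nil)))))) (.g (nat_lit 5) .nil .nil))) 
(.lf (nat_lit 269421) (.g (nat_lit 3074) (.e (nat_lit 188440) (nat_lit 20) (.e (nat_lit 3307) (nat_lit 202) (.e (nat_lit 573474) (nat_lit 12) (.e (nat_lit 57572) (nat_lit 54) (.e (nat_lit 770071) (nat_lit 8) .nil))))) .nil))) (.nd (nat_lit 5) 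
(.lf (nat_lit 269405) (.g (nat_lit 4308) (.e (nat_lit 188440) (nat_lit 20) (.e (nat_lit 3272) (nat_lit 199) (.e (nat_lit 548913) (nat_lit 18) (.e (nat_lit 172126) (nat_lit 14) (.e (nat_lit 491524) (nat_lit 0) (.e (nat_lit 1691) (nat_lit 117) (.e (nat_lit 499929) (nat_lit 11) .nil))))))) (.g (nat_lit 6) .nil .nil))) 
(.lf (nat_lit 269437) (.g (nat_lit 1349) (.e (nat_lit 188440) (nat_lit 20) (.e (nat_lit 3578) (nat_lit 223) (.e (nat_lit 745475) (nat_lit 0) (.e (nat_lit 1575) (nat_lit 110) (.e (nat_lit 352269) (nat_lit 7) (.e (nat_lit 245778) (nat_lit 6) .nil)))))) (.g (nat_lit 6) .nil .nil))))))) (.nd (nat_lit 2) (.nd (nat_lit 3) (.nd (nat_lit 4) (.nd (nat_lit 5) 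
(.lf (nat_lit 269379) (.g (nat_lit 1801) (.e (nat_lit 188439) (nat_lit 20) (.e (nat_lit 3579) (nat_lit 223) (.e (nat_lit 745476) (nat_lit 0) (.e (nat_lit 1598) (nat_lit 111) (.e (nat_lit 368384) (nat_lit 10) (.e (nat_lit 581376) (nat_lit 6) .nil)))))) (.g (nat_lit 4) .nil .nil))) 
(.lf (nat_lit 269411) (.g (nat_lit 989) (.e (nat_lit 188440) (nat_lit 20) (.e (nat_lit 3289) (nat_lit 201) (.e (nat_lit 565268) (nat_lit 5) (.e (nat_lit 73789) (nat_lit 45) (.e (nat_lit 1163) (nat_lit 86) (.e (nat_lit 57088) (nat_lit 6) .nil)))))) (.g (nat_lit 5) .nil .nil)))) (.nd (nat_lit 5) 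
(.lf (nat_lit 269395) (.g (nat_lit 1335) (.e (nat_lit 188440) (nat_lit 20) (.e (nat_lit 3271) (nat_lit 199) (.e (nat_lit 548913) (nat_lit 18) (.e (nat_lit 172085) (nat_lit 9) (.e (nat_lit 426363) (nat_lit 15) .nil))))) .nil)) 
(.lf (nat_lit 269427) (.g (nat_lit 1830) (.e (nat_lit 188440) (nat_lit 20) (.e (nat_lit 3307) (nat_lit 202) (.e (nat_lit 573475) (nat_lit 12) (.e (nat_lit 57574) (nat_lit 55) .nil)))) .nil)))) (.nd (nat_lit 4) (.nd (nat_lit 5) 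
(.lf (nat_lit 269387) (.g (nat_lit 1093) (.e (nat_lit 188439) (nat_lit 20) (.e (nat_lit 3579) (nat_lit 223) (.e (nat_lit 745493) (nat_lit 6) (.e (nat_lit 81933) (nat_lit 20) (.e (nat_lit 1879) (nat_lit 126) (.e (nat_lit 581376) (nat_lit 6) .nil)))))) (.g (nat_lit 5) .nil .nil))) 
(.lf (nat_lit 269419) (.g (nat_lit 805) (.e (nat_lit 188440) (nat_lit 20) (.e (nat_lit 3307) (nat_lit 202) (.e (nat_lit 573470) (nat_lit 11) (.e (nat_lit 16387) (nat_lit 0) .nil)))) .nil))) (.nd (nat_lit 5) 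
(.lf (nat_lit 269403) (.g (nat_lit 1687) (.e (nat_lit 188440) (nat_lit 20) (.e (nat_lit 3272) (nat_lit 199) (.e (nat_lit 548913) (nat_lit 18) (.e (nat_lit 172082) (nat_lit 7) (.e (nat_lit 409612) (nat_lit 10) (.e (nat_lit 543) (nat_lit 41) (.e (nat_lit 499930) (nat_lit 11) .nil))))))) (.g (nat_lit 4) .nil .nil))) 
(.lf (nat_lit 269435) (.g (nat_lit 1092) (.e (nat_lit 188440) (nat_lit 20) (.e (nat_lit 3578) (nat_lit 223) (.e (nat_lit 745475) (nat_lit 0) (.e (nat_lit 1569) (nat_lit 110) (.e (nat_lit 352269) (nat_lit 7) (.e (nat_lit 245778) (nat_lit 6) .nil)))))) (.g (nat_lit 6) .nil .nil)))))) (.nd (nat_lit 3) (.nd (nat_lit 4) (.nd (nat_lit 5) 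
(.lf (nat_lit 269383) (.g (nat_lit 1413) (.e (nat_lit 188439) (nat_lit 20) (.e (nat_lit 3579) (nat_lit 223) (.e (nat_lit 745493) (nat_lit 6) (.e (nat_lit 81931) (nat_lit 20) (.e (nat_lit 1876) (nat_lit 126) (.e (nat_lit 581376) (nat_lit 6) .nil)))))) (.g (nat_lit 5) .nil .nil))) 
(.lf (nat_lit 269415) (.g (nat_lit 913) (.e (nat_lit 188440) (nat_lit 20) (.e (nat_lit 3289) (nat_lit 201) (.e (nat_lit 565268) (nat_lit 5) (.e (nat_lit 73792) (nat_lit 45) (.e (nat_lit 1163) (nat_lit 86) (.e (nat_lit 57088) (nat_lit 6) .nil)))))) (.g (nat_lit 5) .nil .nil)))) (.nd (nat_lit 5) 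
(.lf (nat_lit 269399) (.g (nat_lit 4074) (.e (nat_lit 188440) (nat_lit 20) (.e (nat_lit 3271) (nat_lit 199) (.e (nat_lit 548913) (nat_lit 18) (.e (nat_lit 172126) (nat_lit 14) (.e (nat_lit 491524) (nat_lit 0) (.e (nat_lit 1691) (nat_lit 117) (.e (nat_lit 499929) (nat_lit 11) .nil))))))) (.g (nat_lit 6) .nil .nil))) 
(.lf (nat_lit 269431) (.g (nat_lit 1176) (.e (nat_lit 188440) (nat_lit 20) (.e (nat_lit 3469) (nat_lit 217) (.e (nat_lit 696344) (nat_lit 8) (.e (nat_lit 172112) (nat_lit 10) .nil)))) .nil)))) (.nd (nat_lit 4) (.nd (nat_lit 5) 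
(.lf (nat_lit 269391) (.g (nat_lit 3332) (.e (nat_lit 188440) (nat_lit 20) (.e (nat_lit 3238) (nat_lit 197) (.e (nat_lit 532535) (nat_lit 9) (.e (nat_lit 335925) (nat_lit 0) (.e (nat_lit 2006) (nat_lit 138) .nil))))) .nil)) 
(.lf (nat_lit 269423) (.g (nat_lit 1676) (.e (nat_lit 188440) (nat_lit 20) (.e (nat_lit 3307) (nat_lit 202) (.e (nat_lit 573475) (nat_lit 12) (.e (nat_lit 57348) (nat_lit 0) .nil)))) .nil))) (.nd (nat_lit 5) 
(.lf (nat_lit 269407) (.g (nat_lit 832) (.e (nat_lit 188440) (nat_lit 20) (.e (nat_lit 3289) (nat_lit 201) (.e (nat_lit 565268) (nat_lit 5) (.e (nat_lit 73788) (nat_lit 45) (.e (nat_lit 1162) (nat_lit 86) (.e (nat_lit 57088) (nat_lit 6) .nil)))))) (.g (nat_lit 5) .nil .nil))) 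
(.lf (nat_lit 269439) (.g (nat_lit 1187) (.e (nat_lit 188440) (nat_lit 20) (.e (nat_lit 3578) (nat_lit 223) (.e (nat_lit 745475) (nat_lit 0) (.e (nat_lit 1586) (nat_lit 111) (.e (nat_lit 368384) (nat_lit 10) (.e (nat_lit 581376) (nat_lit 6) .nil)))))) (.g (nat_lit 4) .nil .nil)))))))))

noncomputable def tv3459 : DT := (.nd (nat_lit 0) (.nd (nat_lit 1) (.nd (nat_lit 2) (.nd (nat_lit 3) (.nd (nat_lit 4) (.nd (nat_lit 5) 
(.lf (nat_lit 269440) (.g (nat_lit 1214) (.e (nat_lit 188440) (nat_lit 20) (.e (nat_lit 3578) (nat_lit 223) (.e (nat_lit 745475) (nat_lit 0) (.e (nat_lit 1589) (nat_lit 111) (.e (nat_lit 368384) (nat_lit 10) (.e (nat_lit 581376) (nat_lit 6) .nil)))))) (.g (nat_lit 4) .nil .nil))) 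
(.lf (nat_lit 269472) (.g (nat_lit 1283) (.e (nat_lit 188440) (nat_lit 20) (.e (nat_lit 3579) (nat_lit 223) (.e (nat_lit 745475) (nat_lit 0) (.e (nat_lit 1575) (nat_lit 110) (.e (nat_lit 360192) (nat_lit 2) (.e (nat_lit 204544) (nat_lit 6) .nil)))))) (.g (nat_lit 4) .nil .nil)))) (.nd (nat_lit 5) 
(.lf (nat_lit 269456) (.g (nat_lit 1485) (.e (nat_lit 188440) (nat_lit 20) (.e (nat_lit 3578) (nat_lit 223) (.e (nat_lit 745476) (nat_lit 0) (.e (nat_lit 1598) (nat_lit 111) (.e (nat_lit 368384) (nat_lit 10) (.e (nat_lit 581376) (nat_lit 6) .nil)))))) (.g (nat_lit 4) .nil .nil))) 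
(.lf (nat_lit 269488) (.g (nat_lit 1981) (.e (nat_lit 188440) (nat_lit 20) (.e (nat_lit 3579) (nat_lit 223) (.e (nat_lit 745476) (nat_lit 0) (.e (nat_lit 1586) (nat_lit 111) (.e (nat_lit 368384) (nat_lit 10) (.e (nat_lit 581376) (nat_lit 6) .nil)))))) (.g (nat_lit 4) .nil .nil))))) (.nd (nat_lit 4) (.nd (nat_lit 5) 
(.lf (nat_lit 269448) (.g (nat_lit 1190) (.e (nat_lit 188440) (nat_lit 20) (.e (nat_lit 3578) (nat_lit 223) (.e (nat_lit 745476) (nat_lit 0) (.e (nat_lit 1572) (nat_lit 110) (.e (nat_lit 360192) (nat_lit 2) (.e (nat_lit 204544) (nat_lit 6) .nil)))))) (.g (nat_lit 4) .nil .nil))) 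
(.lf (nat_lit 269480) (.g (nat_lit 1510) (.e (nat_lit 188440) (nat_lit 20) (.e (nat_lit 3579) (nat_lit 223) (.e (nat_lit 745476) (nat_lit 0) (.e (nat_lit 1559) (nat_lit 110) (.e (nat_lit 360192) (nat_lit 2) (.e (nat_lit 204544) (nat_lit 6) .nil)))))) (.g (nat_lit 4) .nil .nil)))) (.nd (nat_lit 5) 
(.lf (nat_lit 269464) (.g (nat_lit 785) (.e (nat_lit 188440) (nat_lit 20) (.e (nat_lit 3578) (nat_lit 223) (.e (nat_lit 745493) (nat_lit 6) (.e (nat_lit 81934) (nat_lit 20) (.e (nat_lit 1879) (nat_lit 126) (.e (nat_lit 581376) (nat_lit 6) .nil)))))) (.g (nat_lit 5) .nil .nil))) 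
(.lf (nat_lit 269496) (.g (nat_lit 1496) (.e (nat_lit 188440) (nat_lit 20) (.e (nat_lit 3579) (nat_lit 223) (.e (nat_lit 745493) (nat_lit 6) (.e (nat_lit 81931) (nat_lit 20) (.e (nat_lit 1876) (nat_lit 126) (.e (nat_lit 581376) (nat_lit 6) .nil)))))) (.g (nat_lit 5) .nil .nil)))))) (.nd (nat_lit 3) (.nd (nat_lit 4) (.nd (nat_lit 5) 
(.lf (nat_lit 269444) (.g (nat_lit 858) (.e (nat_lit 188440) (nat_lit 20) (.e (nat_lit 3578) (nat_lit 223) (.e (nat_lit 745475) (nat_lit 0) (.e (nat_lit 1599) (nat_lit 111) (.e (nat_lit 368384) (nat_lit 10) (.e (nat_lit 581376) (nat_lit 6) .nil)))))) (.g (nat_lit 4) .nil .nil))) 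
(.lf (nat_lit 269476) (.g (nat_lit 1171) (.e (nat_lit 188440) (nat_lit 20) (.e (nat_lit 3579) (nat_lit 223) (.e (nat_lit 745475) (nat_lit 0) (.e (nat_lit 1592) (nat_lit 111) (.e (nat_lit 368384) (nat_lit 10) (.e (nat_lit 581376) (nat_lit 6) .nil)))))) (.g (nat_lit 4) .nil .nil)))) (.nd (nat_lit 5) 
(.lf (nat_lit 269460) (.g (nat_lit 1105) (.e (nat_lit 188440) (nat_lit 20) (.e (nat_lit 3578) (nat_lit 223) (.e (nat_lit 745493) (nat_lit 6) (.e (nat_lit 81931) (nat_lit 20) (.e (nat_lit 1876) (nat_lit 126) (.e (nat_lit 581376) (nat_lit 6) .nil)))))) (.g (nat_lit 5) .nil .nil))) 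
(.lf (nat_lit 269492) (.g (nat_lit 1700) (.e (nat_lit 188440) (nat_lit 20) (.e (nat_lit 3579) (nat_lit 223) (.e (nat_lit 745476) (nat_lit 0) (.e (nat_lit 1595) (nat_lit 111) (.e (nat_lit 360477) (nat_lit 11) (.e (nat_lit 589568) (nat_lit 6) .nil)))))) (.g (nat_lit 4) .nil .nil))))) (.nd (nat_lit 4) (.nd (nat_lit 5) 
(.lf (nat_lit 269452) (.g (nat_lit 1599) (.e (nat_lit 188440) (nat_lit 20) (.e (nat_lit 3578) (nat_lit 223) (.e (nat_lit 745476) (nat_lit 0) (.e (nat_lit 1586) (nat_lit 111) (.e (nat_lit 368384) (nat_lit 10) (.e (nat_lit 581376) (nat_lit 6) .nil)))))) (.g (nat_lit 4) .nil .nil))) 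
(.lf (nat_lit 269484) (.g (nat_lit 1593) (.e (nat_lit 188440) (nat_lit 20) (.e (nat_lit 3579) (nat_lit 223) (.e (nat_lit 745476) (nat_lit 0) (.e (nat_lit 1572) (nat_lit 110) (.e (nat_lit 360192) (nat_lit 2) (.e (nat_lit 204544) (nat_lit 6) .nil)))))) (.g (nat_lit 4) .nil .nil)))) (.nd (nat_lit 5) 
(.lf (nat_lit 269468) (.g (nat_lit 1523) (.e (nat_lit 188440) (nat_lit 20) (.e (nat_lit 3579) (nat_lit 223) (.e (nat_lit 745475) (nat_lit 0) (.e (nat_lit 1559) (nat_lit 110) (.e (nat_lit 352269) (nat_lit 7) (.e (nat_lit 245778) (nat_lit 6) .nil)))))) (.g (nat_lit 6) .nil .nil))) 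
(.lf (nat_lit 269500) (.g (nat_lit 1169) (.e (nat_lit 188440) (nat_lit 20) (.e (nat_lit 3579) (nat_lit 223) (.e (nat_lit 745493) (nat_lit 6) (.e (nat_lit 81934) (nat_lit 20) (.e (nat_lit 1879) (nat_lit 126) (.e (nat_lit 581376) (nat_lit 6) .nil)))))) (.g (nat_lit 5) .nil .nil))))))) (.nd (nat_lit 2) (.nd (nat_lit 3) (.nd (nat_lit 4) (.nd (nat_lit 5) 
(.lf (nat_lit 269442) (.g (nat_lit 1219) (.e (nat_lit 188440) (nat_lit 20) (.e (nat_lit 3578) (nat_lit 223) (.e (nat_lit 745475) (nat_lit 0) (.e (nat_lit 1595) (nat_lit 111) (.e (nat_lit 368384) (nat_lit 10) (.e (nat_lit 581376) (nat_lit 6) .nil)))))) (.g (nat_lit 4) .nil .nil))) 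
(.lf (nat_lit 269474) (.g (nat_lit 1542) (.e (nat_lit 188440) (nat_lit 20) (.e (nat_lit 3579) (nat_lit 223) (.e (nat_lit 745475) (nat_lit 0) (.e (nat_lit 1586) (nat_lit 111) (.e (nat_lit 368384) (nat_lit 10) (.e (nat_lit 581376) (nat_lit 6) .nil)))))) (.g (nat_lit 4) .nil .nil)))) (.nd (nat_lit 5) 
(.lf (nat_lit 269458) (.g (nat_lit 2881) (.e (nat_lit 188440) (nat_lit 20) (.e (nat_lit 3578) (nat_lit 223) (.e (nat_lit 745491) (nat_lit 4) (.e (nat_lit 65583) (nat_lit 7) (.e (nat_lit 319499) (nat_lit 10) (.e (nat_lit 618) (nat_lit 48) (.e (nat_lit 557107) (nat_lit 15) .nil))))))) (.g (nat_lit 7) .nil .nil))) 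
(.lf (nat_lit 269490) (.g (nat_lit 1533) (.e (nat_lit 188440) (nat_lit 20) (.e (nat_lit 3579) (nat_lit 223) (.e (nat_lit 745476) (nat_lit 0) (.e (nat_lit 1592) (nat_lit 111) (.e (nat_lit 368384) (nat_lit 10) (.e (nat_lit 581376) (nat_lit 6) .nil)))))) (.g (nat_lit 4) .nil .nil))))) (.nd (nat_lit 4) (.nd (nat_lit 5) 
(.lf (nat_lit 269450) (.g (nat_lit 1729) (.e (nat_lit 188440) (nat_lit 20) (.e (nat_lit 3578) (nat_lit 223) (.e (nat_lit 745476) (nat_lit 0) (.e (nat_lit 1575) (nat_lit 110) (.e (nat_lit 352269) (nat_lit 7) (.e (nat_lit 245778) (nat_lit 6) .nil)))))) (.g (nat_lit 0) .nil .nil))) 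
(.lf (nat_lit 269482) (.g (nat_lit 1643) (.e (nat_lit 188440) (nat_lit 20) (.e (nat_lit 3579) (nat_lit 223) (.e (nat_lit 745476) (nat_lit 0) (.e (nat_lit 1562) (nat_lit 110) (.e (nat_lit 360192) (nat_lit 2) (.e (nat_lit 204544) (nat_lit 6) .nil)))))) (.g (nat_lit 4) .nil .nil)))) (.nd (nat_lit 5) 
(.lf (nat_lit 269466) (.g (nat_lit 1155) (.e (nat_lit 188440) (nat_lit 20) (.e (nat_lit 3578) (nat_lit 223) (.e (nat_lit 745493) (nat_lit 6) (.e (nat_lit 81935) (nat_lit 20) (.e (nat_lit 1879) (nat_lit 126) (.e (nat_lit 581376) (nat_lit 6) .nil)))))) (.g (nat_lit 5) .nil .nil))) 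
(.lf (nat_lit 269498) (.g (nat_lit 1401) (.e (nat_lit 188440) (nat_lit 20) (.e (nat_lit 3579) (nat_lit 223) (.e (nat_lit 745493) (nat_lit 6) (.e (nat_lit 81931) (nat_lit 20) (.e (nat_lit 1879) (nat_lit 126) (.e (nat_lit 581376) (nat_lit 6) .nil)))))) (.g (nat_lit 5) .nil .nil)))))) (.nd (nat_lit 3) (.nd (nat_lit 4) (.nd (nat_lit 5) 
(.lf (nat_lit 269446) (.g (nat_lit 1248) (.e (nat_lit 188440) (nat_lit 20) (.e (nat_lit 3578) (nat_lit 223) (.e (nat_lit 745476) (nat_lit 0) (.e (nat_lit 1562) (nat_lit 110) (.e (nat_lit 360192) (nat_lit 2) (.e (nat_lit 204544) (nat_lit 6) .nil)))))) (.g (nat_lit 4) .nil .nil))) 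
(.lf (nat_lit 269478) (.g (nat_lit 1348) (.e (nat_lit 188440) (nat_lit 20) (.e (nat_lit 3579) (nat_lit 223) (.e (nat_lit 745475) (nat_lit 0) (.e (nat_lit 1598) (nat_lit 111) (.e (nat_lit 368384) (nat_lit 10) (.e (nat_lit 581376) (nat_lit 6) .nil)))))) (.g (nat_lit 4) .nil .nil)))) (.nd (nat_lit 5) 
(.lf (nat_lit 269462) (.g (nat_lit 1010) (.e (nat_lit 188440) (nat_lit 20) (.e (nat_lit 3578) (nat_lit 223) (.e (nat_lit 745493) (nat_lit 6) (.e (nat_lit 81931) (nat_lit 20) (.e (nat_lit 1879) (nat_lit 126) (.e (nat_lit 581376) (nat_lit 6) .nil)))))) (.g (nat_lit 5) .nil .nil))) 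
(.lf (nat_lit 269494) (.g (nat_lit 1527) (.e (nat_lit 188440) (nat_lit 20) (.e (nat_lit 3579) (nat_lit 223) (.e (nat_lit 745476) (nat_lit 0) (.e (nat_lit 1599) (nat_lit 111) (.e (nat_lit 368384) (nat_lit 10) (.e (nat_lit 581376) (nat_lit 6) .nil)))))) (.g (nat_lit 4) .nil .nil))))) (.nd (nat_lit 4) (.nd (nat_lit 5) 
(.lf (nat_lit 269454) (.g (nat_lit 1146) (.e (nat_lit 188440) (nat_lit 20) (.e (nat_lit 3578) (nat_lit 223) (.e (nat_lit 745476) (nat_lit 0) (.e (nat_lit 1592) (nat_lit 111) (.e (nat_lit 368384) (nat_lit 10) (.e (nat_lit 581376) (nat_lit 6) .nil)))))) (.g (nat_lit 4) .nil .nil))) 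
(.lf (nat_lit 269486) (.g (nat_lit 2124) (.e (nat_lit 188440) (nat_lit 20) (.e (nat_lit 3579) (nat_lit 223) (.e (nat_lit 745476) (nat_lit 0) (.e (nat_lit 1575) (nat_lit 110) (.e (nat_lit 352269) (nat_lit 7) (.e (nat_lit 245778) (nat_lit 6) .nil)))))) (.g (nat_lit 0) .nil .nil)))) (.nd (nat_lit 5) 
(.lf (nat_lit 269470) (.g (nat_lit 1241) (.e (nat_lit 188440) (nat_lit 20) (.e (nat_lit 3579) (nat_lit 223) (.e (nat_lit 745475) (nat_lit 0) (.e (nat_lit 1569) (nat_lit 110) (.e (nat_lit 360192) (nat_lit 2) (.e (nat_lit 204544) (nat_lit 6) .nil)))))) (.g (nat_lit 4) .nil .nil))) 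
(.lf (nat_lit 269502) (.g (nat_lit 1539) (.e (nat_lit 188440) (nat_lit 20) (.e (nat_lit 3579) (nat_lit 223) (.e (nat_lit 745493) (nat_lit 6) (.e (nat_lit 81935) (nat_lit 20) (.e (nat_lit 1879) (nat_lit 126) (.e (nat_lit 581376) (nat_lit 6) .nil)))))) (.g (nat_lit 5) .nil .nil)))))))) (.nd (nat_lit 1) (.nd (nat_lit 2) (.nd (nat_lit 3) (.nd (nat_lit 4) (.nd (nat_lit 5) 
(.lf (nat_lit 269441) (.g (nat_lit 830) (.e (nat_lit 188440) (nat_lit 20) (.e (nat_lit 3578) (nat_lit 223) (.e (nat_lit 745475) (nat_lit 0) (.e (nat_lit 1592) (nat_lit 111) (.e (nat_lit 368384) (nat_lit 10) (.e (nat_lit 581376) (nat_lit 6) .nil)))))) (.g (nat_lit 4) .nil .nil))) 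
(.lf (nat_lit 269473) (.g (nat_lit 1153) (.e (nat_lit 188440) (nat_lit 20) (.e (nat_lit 3579) (nat_lit 223) (.e (nat_lit 745475) (nat_lit 0) (.e (nat_lit 1576) (nat_lit 110) (.e (nat_lit 360192) (nat_lit 2) (.e (nat_lit 204544) (nat_lit 6) .nil)))))) (.g (nat_lit 4) .nil .nil)))) (.nd (nat_lit 5) 
(.lf (nat_lit 269457) (.g (nat_lit 1134) (.e (nat_lit 188440) (nat_lit 20) (.e (nat_lit 3578) (nat_lit 223) (.e (nat_lit 745476) (nat_lit 0) (.e (nat_lit 1599) (nat_lit 111) (.e (nat_lit 368384) (nat_lit 10) (.e (nat_lit 581376) (nat_lit 6) .nil)))))) (.g (nat_lit 4) .nil .nil))) 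
(.lf (nat_lit 269489) (.g (nat_lit 1930) (.e (nat_lit 188440) (nat_lit 20) (.e (nat_lit 3579) (nat_lit 223) (.e (nat_lit 745476) (nat_lit 0) (.e (nat_lit 1589) (nat_lit 111) (.e (nat_lit 368384) (nat_lit 10) (.e (nat_lit 581376) (nat_lit 6) .nil)))))) (.g (nat_lit 4) .nil .nil))))) (.nd (nat_lit 4) (.nd (nat_lit 5) 
(.lf (nat_lit 269449) (.g (nat_lit 1340) (.e (nat_lit 188440) (nat_lit 20) (.e (nat_lit 3578) (nat_lit 223) (.e (nat_lit 745476) (nat_lit 0) (.e (nat_lit 1575) (nat_lit 110) (.e (nat_lit 360192) (nat_lit 2) (.e (nat_lit 204544) (nat_lit 6) .nil)))))) (.g (nat_lit 4) .nil .nil))) 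
(.lf (nat_lit 269481) (.g (nat_lit 1899) (.e (nat_lit 188440) (nat_lit 20) (.e (nat_lit 3579) (nat_lit 223) (.e (nat_lit 745476) (nat_lit 0) (.e (nat_lit 1559) (nat_lit 110) (.e (nat_lit 352269) (nat_lit 7) (.e (nat_lit 245778) (nat_lit 6) .nil)))))) (.g (nat_lit 0) .nil .nil)))) (.nd (nat_lit 5) 
(.lf (nat_lit 269465) (.g (nat_lit 1062) (.e (nat_lit 188440) (nat_lit 20) (.e (nat_lit 3578) (nat_lit 223) (.e (nat_lit 745493) (nat_lit 6) (.e (nat_lit 81935) (nat_lit 20) (.e (nat_lit 1878) (nat_lit 126) (.e (nat_lit 581376) (nat_lit 6) .nil)))))) (.g (nat_lit 4) .nil .nil))) 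
(.lf (nat_lit 269497) (.g (nat_lit 1332) (.e (nat_lit 188440) (nat_lit 20) (.e (nat_lit 3579) (nat_lit 223) (.e (nat_lit 745493) (nat_lit 6) (.e (nat_lit 81931) (nat_lit 20) (.e (nat_lit 1878) (nat_lit 126) (.e (nat_lit 581376) (nat_lit 6) .nil)))))) (.g (nat_lit 5) .nil .nil)))))) (.nd (nat_lit 3) (.nd (nat_lit 4) (.nd (nat_lit 5) 
(.lf (nat_lit 269445) (.g (nat_lit 1126) (.e (nat_lit 188440) (nat_lit 20) (.e (nat_lit 3578) (nat_lit 223) (.e (nat_lit 745476) (nat_lit 0) (.e (nat_lit 1559) (nat_lit 110) (.e (nat_lit 360192) (nat_lit 2) (.e (nat_lit 204544) (nat_lit 6) .nil)))))) (.g (nat_lit 4) .nil .nil))) 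
(.lf (nat_lit 269477) (.g (nat_lit 1564) (.e (nat_lit 188440) (nat_lit 20) (.e (nat_lit 3579) (nat_lit 223) (.e (nat_lit 745475) (nat_lit 0) (.e (nat_lit 1595) (nat_lit 111) (.e (nat_lit 368384) (nat_lit 10) (.e (nat_lit 581376) (nat_lit 6) .nil)))))) (.g (nat_lit 4) .nil .nil)))) (.nd (nat_lit 5) 
(.lf (nat_lit 269461) (.g (nat_lit 943) (.e (nat_lit 188440) (nat_lit 20) (.e (nat_lit 3578) (nat_lit 223) (.e (nat_lit 745493) (nat_lit 6) (.e (nat_lit 81931) (nat_lit 20) (.e (nat_lit 1878) (nat_lit 126) (.e (nat_lit 581376) (nat_lit 6) .nil)))))) (.g (nat_lit 4) .nil .nil))) 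
(.lf (nat_lit 269493) (.g (nat_lit 1879) (.e (nat_lit 188440) (nat_lit 20) (.e (nat_lit 3579) (nat_lit 223) (.e (nat_lit 745476) (nat_lit 0) (.e (nat_lit 1598) (nat_lit 111) (.e (nat_lit 368384) (nat_lit 10) (.e (nat_lit 581376) (nat_lit 6) .nil)))))) (.g (nat_lit 4) .nil .nil))))) (.nd (nat_lit 4) (.nd (nat_lit 5) 
(.lf (nat_lit 269453) (.g (nat_lit 1538) (.e (nat_lit 188440) (nat_lit 20) (.e (nat_lit 3578) (nat_lit 223) (.e (nat_lit 745476) (nat_lit 0) (.e (nat_lit 1589) (nat_lit 111) (.e (nat_lit 368384) (nat_lit 10) (.e (nat_lit 581376) (nat_lit 6) .nil)))))) (.g (nat_lit 4) .nil .nil))) 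
(.lf (nat_lit 269485) (.g (nat_lit 1736) (.e (nat_lit 188440) (nat_lit 20) (.e (nat_lit 3579) (nat_lit 223) (.e (nat_lit 745476) (nat_lit 0) (.e (nat_lit 1575) (nat_lit 110) (.e (nat_lit 360192) (nat_lit 2) (.e (nat_lit 204544) (nat_lit 6) .nil)))))) (.g (nat_lit 4) .nil .nil)))) (.nd (nat_lit 5) 
(.lf (nat_lit 269469) (.g (nat_lit 1317) (.e (nat_lit 188440) (nat_lit 20) (.e (nat_lit 3579) (nat_lit 223) (.e (nat_lit 745475) (nat_lit 0) (.e (nat_lit 1562) (nat_lit 110) (.e (nat_lit 360192) (nat_lit 2) (.e (nat_lit 204544) (nat_lit 6) .nil)))))) (.g (nat_lit 4) .nil .nil))) 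
(.lf (nat_lit 269501) (.g (nat_lit 1444) (.e (nat_lit 188440) (nat_lit 20) (.e (nat_lit 3579) (nat_lit 223) (.e (nat_lit 745493) (nat_lit 6) (.e (nat_lit 81935) (nat_lit 20) (.e (nat_lit 1878) (nat_lit 126) (.e (nat_lit 581376) (nat_lit 6) .nil)))))) (.g (nat_lit 4) .nil .nil))))))) (.nd (nat_lit 2) (.nd (nat_lit 3) (.nd (nat_lit 4) (.nd (nat_lit 5) 
(.lf (nat_lit 269443) (.g (nat_lit 1011) (.e (nat_lit 188440) (nat_lit 20) (.e (nat_lit 3578) (nat_lit 223) (.e (nat_lit 745475) (nat_lit 0) (.e (nat_lit 1598) (nat_lit 111) (.e (nat_lit 368384) (nat_lit 10) (.e (nat_lit 581376) (nat_lit 6) .nil)))))) (.g (nat_lit 4) .nil .nil))) 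
(.lf (nat_lit 269475) (.g (nat_lit 1558) (.e (nat_lit 188440) (nat_lit 20) (.e (nat_lit 3579) (nat_lit 223) (.e (nat_lit 745475) (nat_lit 0) (.e (nat_lit 1589) (nat_lit 111) (.e (nat_lit 368384) (nat_lit 10) (.e (nat_lit 581376) (nat_lit 6) .nil)))))) (.g (nat_lit 4) .nil .nil)))) (.nd (nat_lit 5) 
(.lf (nat_lit 269459) (.g (nat_lit 151) (.e (nat_lit 188440) (nat_lit 20) (.e (nat_lit 3578) (nat_lit 223) (.e (nat_lit 745492) (nat_lit 5) .nil))) .nil)) 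
(.lf (nat_lit 269491) (.g (nat_lit 1960) (.e (nat_lit 188440) (nat_lit 20) (.e (nat_lit 3579) (nat_lit 223) (.e (nat_lit 745476) (nat_lit 0) (.e (nat_lit 1595) (nat_lit 111) (.e (nat_lit 368384) (nat_lit 10) (.e (nat_lit 581376) (nat_lit 6) .nil)))))) (.g (nat_lit 4) .nil .nil))))) (.nd (nat_lit 4) (.nd (nat_lit 5) 
(.lf (nat_lit 269451) (.g (nat_lit 1125) (.e (nat_lit 188440) (nat_lit 20) (.e (nat_lit 3578) (nat_lit 223) (.e (nat_lit 745476) (nat_lit 0) (.e (nat_lit 1576) (nat_lit 110) (.e (nat_lit 360192) (nat_lit 2) (.e (nat_lit 204544) (nat_lit 6) .nil)))))) (.g (nat_lit 4) .nil .nil))) 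
(.lf (nat_lit 269483) (.g (nat_lit 1590) (.e (nat_lit 188440) (nat_lit 20) (.e (nat_lit 3579) (nat_lit 223) (.e (nat_lit 745476) (nat_lit 0) (.e (nat_lit 1569) (nat_lit 110) (.e (nat_lit 360192) (nat_lit 2) (.e (nat_lit 204544) (nat_lit 6) .nil)))))) (.g (nat_lit 4) .nil .nil)))) (.nd (nat_lit 5) 
(.lf (nat_lit 269467) (.g (nat_lit 552) (.e (nat_lit 188440) (nat_lit 20) (.e (nat_lit 3579) (nat_lit 223) (.e (nat_lit 745473) (nat_lit 0) .nil))) .nil)) 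
(.lf (nat_lit 269499) (.g (nat_lit 1173) (.e (nat_lit 188440) (nat_lit 20) (.e (nat_lit 3579) (nat_lit 223) (.e (nat_lit 745493) (nat_lit 6) (.e (nat_lit 81933) (nat_lit 20) (.e (nat_lit 1879) (nat_lit 126) (.e (nat_lit 581376) (nat_lit 6) .nil)))))) (.g (nat_lit 5) .nil .nil)))))) (.nd (nat_lit 3) (.nd (nat_lit 4) (.nd (nat_lit 5) 
(.lf (nat_lit 269447) (.g (nat_lit 1200) (.e (nat_lit 188440) (nat_lit 20) (.e (nat_lit 3578) (nat_lit 223) (.e (nat_lit 745476) (nat_lit 0) (.e (nat_lit 1569) (nat_lit 110) (.e (nat_lit 360192) (nat_lit 2) (.e (nat_lit 204544) (nat_lit 6) .nil)))))) (.g (nat_lit 4) .nil .nil))) 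
(.lf (nat_lit 269479) (.g (nat_lit 1203) (.e (nat_lit 188440) (nat_lit 20) (.e (nat_lit 3579) (nat_lit 223) (.e (nat_lit 745475) (nat_lit 0) (.e (nat_lit 1599) (nat_lit 111) (.e (nat_lit 368384) (nat_lit 10) (.e (nat_lit 581376) (nat_lit 6) .nil)))))) (.g (nat_lit 4) .nil .nil)))) (.nd (nat_lit 5) 
(.lf (nat_lit 269463) (.g (nat_lit 790) (.e (nat_lit 188440) (nat_lit 20) (.e (nat_lit 3578) (nat_lit 223) (.e (nat_lit 745493) (nat_lit 6) (.e (nat_lit 81933) (nat_lit 20) (.e (nat_lit 1879) (nat_lit 126) (.e (nat_lit 581376) (nat_lit 6) .nil)))))) (.g (nat_lit 5) .nil .nil))) 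
(.lf (nat_lit 269495) (.g (nat_lit 545) (.e (nat_lit 188440) (nat_lit 20) (.e (nat_lit 3579) (nat_lit 223) (.e (nat_lit 745492) (nat_lit 5) .nil))) .nil)))) (.nd (nat_lit 4) (.nd (nat_lit 5) 
(.lf (nat_lit 269455) (.g (nat_lit 1564) (.e (nat_lit 188440) (nat_lit 20) (.e (nat_lit 3578) (nat_lit 223) (.e (nat_lit 745476) (nat_lit 0) (.e (nat_lit 1595) (nat_lit 111) (.e (nat_lit 368384) (nat_lit 10) (.e (nat_lit 581376) (nat_lit 6) .nil)))))) (.g (nat_lit 4) .nil .nil))) 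
(.lf (nat_lit 269487) (.g (nat_lit 1524) (.e (nat_lit 188440) (nat_lit 20) (.e (nat_lit 3579) (nat_lit 223) (.e (nat_lit 745476) (nat_lit 0) (.e (nat_lit 1576) (nat_lit 110) (.e (nat_lit 360192) (nat_lit 2) (.e (nat_lit 204544) (nat_lit 6) .nil)))))) (.g (nat_lit 4) .nil .nil)))) (.nd (nat_lit 5) 
(.lf (nat_lit 269471) (.g (nat_lit 1423) (.e (nat_lit 188440) (nat_lit 20) (.e (nat_lit 3579) (nat_lit 223) (.e (nat_lit 745475) (nat_lit 0) (.e (nat_lit 1569) (nat_lit 110) (.e (nat_lit 352269) (nat_lit 7) (.e (nat_lit 245778) (nat_lit 6) .nil)))))) (.g (nat_lit 6) .nil .nil))) 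
(.lf (nat_lit 269503) (.g (nat_lit 2372) (.e (nat_lit 188441) (nat_lit 20) (.e (nat_lit 3230) (nat_lit 197) (.e (nat_lit 532563) (nat_lit 15) (.e (nat_lit 385094) (nat_lit 49) (.e (nat_lit 778317) (nat_lit 3) .nil))))) .nil))))))))

noncomputable def tv3460 : DT := (.nd (nat_lit 0) (.nd (nat_lit 1) (.nd (nat_lit 2) (.nd (nat_lit 3) (.nd (nat_lit 4) (.nd (nat_lit 5) 
(.lf (nat_lit 269504) (.g (nat_lit 2017) (.e (nat_lit 188441) (nat_lit 20) (.e (nat_lit 3251) (nat_lit 197) (.e (nat_lit 532522) (nat_lit 7) (.e (nat_lit 319530) (nat_lit 16) (.e (nat_lit 286733) (nat_lit 2) .nil))))) .nil)) 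
(.lf (nat_lit 269536) (.g (nat_lit 1121) (.e (nat_lit 188441) (nat_lit 20) (.e (nat_lit 3578) (nat_lit 223) (.e (nat_lit 745475) (nat_lit 0) (.e (nat_lit 1569) (nat_lit 110) (.e (nat_lit 352269) (nat_lit 7) (.e (nat_lit 245778) (nat_lit 6) .nil)))))) (.g (nat_lit 6) .nil .nil)))) (.nd (nat_lit 5) 
(.lf (nat_lit 269520) (.g (nat_lit 1568) (.e (nat_lit 188441) (nat_lit 20) (.e (nat_lit 3272) (nat_lit 199) (.e (nat_lit 548915) (nat_lit 20) (.e (nat_lit 188419) (nat_lit 0) (.e (nat_lit 1856) (nat_lit 124) .nil))))) .nil)) 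
(.lf (nat_lit 269552) (.g (nat_lit 1194) (.e (nat_lit 188441) (nat_lit 20) (.e (nat_lit 3578) (nat_lit 223) (.e (nat_lit 745476) (nat_lit 0) (.e (nat_lit 1569) (nat_lit 110) (.e (nat_lit 360192) (nat_lit 2) (.e (nat_lit 204544) (nat_lit 6) .nil)))))) (.g (nat_lit 4) .nil .nil))))) (.nd (nat_lit 4) (.nd (nat_lit 5) 
(.lf (nat_lit 269512) (.g (nat_lit 1446) (.e (nat_lit 188441) (nat_lit 20) (.e (nat_lit 3272) (nat_lit 199) (.e (nat_lit 548913) (nat_lit 18) (.e (nat_lit 172070) (nat_lit 4) .nil)))) .nil)) 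
(.lf (nat_lit 269544) (.g (nat_lit 1871) (.e (nat_lit 188441) (nat_lit 20) (.e (nat_lit 3578) (nat_lit 223) (.e (nat_lit 745475) (nat_lit 0) (.e (nat_lit 1592) (nat_lit 111) (.e (nat_lit 360477) (nat_lit 11) (.e (nat_lit 581653) (nat_lit 6) .nil)))))) (.g (nat_lit 6) .nil .nil)))) (.nd (nat_lit 5) 
(.lf (nat_lit 269528) (.g (nat_lit 955) (.e (nat_lit 188441) (nat_lit 20) (.e (nat_lit 3289) (nat_lit 201) (.e (nat_lit 565268) (nat_lit 5) (.e (nat_lit 73792) (nat_lit 45) (.e (nat_lit 1162) (nat_lit 86) (.e (nat_lit 57088) (nat_lit 6) .nil)))))) (.g (nat_lit 5) .nil .nil))) 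
(.lf (nat_lit 269560) (.g (nat_lit 1558) (.e (nat_lit 188441) (nat_lit 20) (.e (nat_lit 3578) (nat_lit 223) (.e (nat_lit 745476) (nat_lit 0) (.e (nat_lit 1595) (nat_lit 111) (.e (nat_lit 368384) (nat_lit 10) (.e (nat_lit 581376) (nat_lit 6) .nil)))))) (.g (nat_lit 4) .nil .nil)))))) (.nd (nat_lit 3) (.nd (nat_lit 4) (.nd (nat_lit 5) 
(.lf (nat_lit 269508) (.g (nat_lit 1953) (.e (nat_lit 188441) (nat_lit 20) (.e (nat_lit 3255) (nat_lit 197) (.e (nat_lit 532563) (nat_lit 15) (.e (nat_lit 385094) (nat_lit 49) (.e (nat_lit 778317) (nat_lit 3) .nil))))) .nil)) 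
(.lf (nat_lit 269540) (.g (nat_lit 1180) (.e (nat_lit 188441) (nat_lit 20) (.e (nat_lit 3578) (nat_lit 223) (.e (nat_lit 745475) (nat_lit 0) (.e (nat_lit 1586) (nat_lit 111) (.e (nat_lit 368384) (nat_lit 10) (.e (nat_lit 581376) (nat_lit 6) .nil)))))) (.g (nat_lit 4) .nil .nil)))) (.nd (nat_lit 5) 
(.lf (nat_lit 269524) (.g (nat_lit 1016) (.e (nat_lit 188441) (nat_lit 20) (.e (nat_lit 3289) (nat_lit 201) (.e (nat_lit 565268) (nat_lit 5) (.e (nat_lit 73789) (nat_lit 45) (.e (nat_lit 1162) (nat_lit 86) (.e (nat_lit 57088) (nat_lit 6) .nil)))))) (.g (nat_lit 5) .nil .nil))) 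
(.lf (nat_lit 269556) (.g (nat_lit 1119) (.e (nat_lit 188441) (nat_lit 20) (.e (nat_lit 3578) (nat_lit 223) (.e (nat_lit 745476) (nat_lit 0) (.e (nat_lit 1576) (nat_lit 110) (.e (nat_lit 360192) (nat_lit 2) (.e (nat_lit 204544) (nat_lit 6) .nil)))))) (.g (nat_lit 4) .nil .nil))))) (.nd (nat_lit 4) (.nd (nat_lit 5) 
(.lf (nat_lit 269516) (.g (nat_lit 1571) (.e (nat_lit 188441) (nat_lit 20) (.e (nat_lit 3272) (nat_lit 199) (.e (nat_lit 548913) (nat_lit 18) (.e (nat_lit 172095) (nat_lit 9) .nil)))) .nil)) 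
(.lf (nat_lit 269548) (.g (nat_lit 2199) (.e (nat_lit 188441) (nat_lit 20) (.e (nat_lit 3578) (nat_lit 223) (.e (nat_lit 745475) (nat_lit 0) (.e (nat_lit 1598) (nat_lit 111) (.e (nat_lit 360477) (nat_lit 11) (.e (nat_lit 581653) (nat_lit 6) .nil)))))) (.g (nat_lit 6) .nil .nil)))) (.nd (nat_lit 5) 
(.lf (nat_lit 269532) (.g (nat_lit 1191) (.e (nat_lit 188441) (nat_lit 20) (.e (nat_lit 3469) (nat_lit 217) (.e (nat_lit 696344) (nat_lit 8) (.e (nat_lit 172112) (nat_lit 10) .nil)))) .nil)) 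
(.lf (nat_lit 269564) (.g (nat_lit 1003) (.e (nat_lit 188441) (nat_lit 20) (.e (nat_lit 3578) (nat_lit 223) (.e (nat_lit 745493) (nat_lit 6) (.e (nat_lit 81931) (nat_lit 20) (.e (nat_lit 1879) (nat_lit 126) (.e (nat_lit 581376) (nat_lit 6) .nil)))))) (.g (nat_lit 5) .nil .nil))))))) (.nd (nat_lit 2) (.nd (nat_lit 3) (.nd (nat_lit 4) (.nd (nat_lit 5) 
(.lf (nat_lit 269506) (.g (nat_lit 2151) (.e (nat_lit 188441) (nat_lit 20) (.e (nat_lit 3254) (nat_lit 197) (.e (nat_lit 532563) (nat_lit 15) (.e (nat_lit 385094) (nat_lit 49) (.e (nat_lit 778317) (nat_lit 3) .nil))))) .nil)) 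
(.lf (nat_lit 269538) (.g (nat_lit 1377) (.e (nat_lit 188441) (nat_lit 20) (.e (nat_lit 3578) (nat_lit 223) (.e (nat_lit 745475) (nat_lit 0) (.e (nat_lit 1575) (nat_lit 110) (.e (nat_lit 352269) (nat_lit 7) (.e (nat_lit 245778) (nat_lit 6) .nil)))))) (.g (nat_lit 6) .nil .nil)))) (.nd (nat_lit 5) 
(.lf (nat_lit 269522) (.g (nat_lit 766) (.e (nat_lit 188441) (nat_lit 20) (.e (nat_lit 3289) (nat_lit 201) (.e (nat_lit 565268) (nat_lit 5) (.e (nat_lit 73788) (nat_lit 45) (.e (nat_lit 1163) (nat_lit 86) (.e (nat_lit 57088) (nat_lit 6) .nil)))))) (.g (nat_lit 5) .nil .nil))) 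
(.lf (nat_lit 269554) (.g (nat_lit 1333) (.e (nat_lit 188441) (nat_lit 20) (.e (nat_lit 3578) (nat_lit 223) (.e (nat_lit 745476) (nat_lit 0) (.e (nat_lit 1575) (nat_lit 110) (.e (nat_lit 360192) (nat_lit 2) (.e (nat_lit 204544) (nat_lit 6) .nil)))))) (.g (nat_lit 4) .nil .nil))))) (.nd (nat_lit 4) (.nd (nat_lit 5) 
(.lf (nat_lit 269514) (.g (nat_lit 2034) (.e (nat_lit 188441) (nat_lit 20) (.e (nat_lit 3272) (nat_lit 199) (.e (nat_lit 548913) (nat_lit 18) (.e (nat_lit 172085) (nat_lit 9) (.e (nat_lit 426402) (nat_lit 15) .nil))))) .nil)) 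
(.lf (nat_lit 269546) (.g (nat_lit 2278) (.e (nat_lit 188441) (nat_lit 20) (.e (nat_lit 3578) (nat_lit 223) (.e (nat_lit 745475) (nat_lit 0) (.e (nat_lit 1595) (nat_lit 111) (.e (nat_lit 360477) (nat_lit 11) (.e (nat_lit 581653) (nat_lit 6) .nil)))))) (.g (nat_lit 6) .nil .nil)))) (.nd (nat_lit 5) 
(.lf (nat_lit 269530) (.g (nat_lit 1587) (.e (nat_lit 188441) (nat_lit 20) (.e (nat_lit 3307) (nat_lit 202) (.e (nat_lit 573477) (nat_lit 12) (.e (nat_lit 65280) (nat_lit 57) .nil)))) .nil)) 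
(.lf (nat_lit 269562) (.g (nat_lit 1128) (.e (nat_lit 188441) (nat_lit 20) (.e (nat_lit 3578) (nat_lit 223) (.e (nat_lit 745476) (nat_lit 0) (.e (nat_lit 1599) (nat_lit 111) (.e (nat_lit 368384) (nat_lit 10) (.e (nat_lit 581376) (nat_lit 6) .nil)))))) (.g (nat_lit 4) .nil .nil)))))) (.nd (nat_lit 3) (.nd (nat_lit 4) (.nd (nat_lit 5) 
(.lf (nat_lit 269510) (.g (nat_lit 1018) (.e (nat_lit 188441) (nat_lit 20) (.e (nat_lit 3271) (nat_lit 199) (.e (nat_lit 548915) (nat_lit 20) (.e (nat_lit 188419) (nat_lit 0) .nil)))) .nil)) 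
(.lf (nat_lit 269542) (.g (nat_lit 1207) (.e (nat_lit 188441) (nat_lit 20) (.e (nat_lit 3578) (nat_lit 223) (.e (nat_lit 745475) (nat_lit 0) (.e (nat_lit 1589) (nat_lit 111) (.e (nat_lit 368384) (nat_lit 10) (.e (nat_lit 581376) (nat_lit 6) .nil)))))) (.g (nat_lit 4) .nil .nil)))) (.nd (nat_lit 5) 
(.lf (nat_lit 269526) (.g (nat_lit 843) (.e (nat_lit 188441) (nat_lit 20) (.e (nat_lit 3289) (nat_lit 201) (.e (nat_lit 565268) (nat_lit 5) (.e (nat_lit 73791) (nat_lit 45) (.e (nat_lit 1162) (nat_lit 86) (.e (nat_lit 57088) (nat_lit 6) .nil)))))) (.g (nat_lit 5) .nil .nil))) 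
(.lf (nat_lit 269558) (.g (nat_lit 1530) (.e (nat_lit 188441) (nat_lit 20) (.e (nat_lit 3578) (nat_lit 223) (.e (nat_lit 745476) (nat_lit 0) (.e (nat_lit 1589) (nat_lit 111) (.e (nat_lit 368384) (nat_lit 10) (.e (nat_lit 581376) (nat_lit 6) .nil)))))) (.g (nat_lit 4) .nil .nil))))) (.nd (nat_lit 4) (.nd (nat_lit 5) 
(.lf (nat_lit 269518) (.g (nat_lit 2719) (.e (nat_lit 188441) (nat_lit 20) (.e (nat_lit 3272) (nat_lit 199) (.e (nat_lit 548913) (nat_lit 18) (.e (nat_lit 172126) (nat_lit 14) (.e (nat_lit 491524) (nat_lit 0) (.e (nat_lit 1691) (nat_lit 117) (.e (nat_lit 499929) (nat_lit 11) .nil))))))) (.g (nat_lit 4) .nil .nil))) 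
(.lf (nat_lit 269550) (.g (nat_lit 1121) (.e (nat_lit 188441) (nat_lit 20) (.e (nat_lit 3578) (nat_lit 223) (.e (nat_lit 745476) (nat_lit 0) (.e (nat_lit 1559) (nat_lit 110) (.e (nat_lit 360192) (nat_lit 2) (.e (nat_lit 204544) (nat_lit 6) .nil)))))) (.g (nat_lit 4) .nil .nil)))) (.nd (nat_lit 5) 
(.lf (nat_lit 269534) (.g (nat_lit 973) (.e (nat_lit 188441) (nat_lit 20) (.e (nat_lit 3578) (nat_lit 223) (.e (nat_lit 745475) (nat_lit 0) (.e (nat_lit 1562) (nat_lit 110) (.e (nat_lit 360192) (nat_lit 2) (.e (nat_lit 204544) (nat_lit 6) .nil)))))) (.g (nat_lit 4) .nil .nil))) 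
(.lf (nat_lit 269566) (.g (nat_lit 778) (.e (nat_lit 188441) (nat_lit 20) (.e (nat_lit 3578) (nat_lit 223) (.e (nat_lit 745493) (nat_lit 6) (.e (nat_lit 81934) (nat_lit 20) (.e (nat_lit 1879) (nat_lit 126) (.e (nat_lit 581376) (nat_lit 6) .nil)))))) (.g (nat_lit 5) .nil .nil)))))))) (.nd (nat_lit 1) (.nd (nat_lit 2) (.nd (nat_lit 3) (.nd (nat_lit 4) (.nd (nat_lit 5) 
(.lf (nat_lit 269505) (.g (nat_lit 1916) (.e (nat_lit 188441) (nat_lit 20) (.e (nat_lit 3252) (nat_lit 197) (.e (nat_lit 532523) (nat_lit 7) (.e (nat_lit 319534) (nat_lit 16) (.e (nat_lit 286732) (nat_lit 2) .nil))))) .nil)) 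
(.lf (nat_lit 269537) (.g (nat_lit 947) (.e (nat_lit 188441) (nat_lit 20) (.e (nat_lit 3578) (nat_lit 223) (.e (nat_lit 745475) (nat_lit 0) (.e (nat_lit 1575) (nat_lit 110) (.e (nat_lit 360192) (nat_lit 2) (.e (nat_lit 204544) (nat_lit 6) .nil)))))) (.g (nat_lit 4) .nil .nil)))) (.nd (nat_lit 5) 
(.lf (nat_lit 269521) (.g (nat_lit 818) (.e (nat_lit 188441) (nat_lit 20) (.e (nat_lit 3289) (nat_lit 201) (.e (nat_lit 565268) (nat_lit 5) (.e (nat_lit 73788) (nat_lit 45) (.e (nat_lit 1162) (nat_lit 86) (.e (nat_lit 57088) (nat_lit 6) .nil)))))) (.g (nat_lit 5) .nil .nil))) 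
(.lf (nat_lit 269553) (.g (nat_lit 1183) (.e (nat_lit 188441) (nat_lit 20) (.e (nat_lit 3578) (nat_lit 223) (.e (nat_lit 745476) (nat_lit 0) (.e (nat_lit 1572) (nat_lit 110) (.e (nat_lit 360192) (nat_lit 2) (.e (nat_lit 204544) (nat_lit 6) .nil)))))) (.g (nat_lit 4) .nil .nil))))) (.nd (nat_lit 4) (.nd (nat_lit 5) 
(.lf (nat_lit 269513) (.g (nat_lit 1544) (.e (nat_lit 188441) (nat_lit 20) (.e (nat_lit 3272) (nat_lit 199) (.e (nat_lit 548913) (nat_lit 18) (.e (nat_lit 172085) (nat_lit 9) .nil)))) .nil)) 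
(.lf (nat_lit 269545) (.g (nat_lit 1214) (.e (nat_lit 188441) (nat_lit 20) (.e (nat_lit 3578) (nat_lit 223) (.e (nat_lit 745475) (nat_lit 0) (.e (nat_lit 1595) (nat_lit 111) (.e (nat_lit 368384) (nat_lit 10) (.e (nat_lit 581376) (nat_lit 6) .nil)))))) (.g (nat_lit 4) .nil .nil)))) (.nd (nat_lit 5) 
(.lf (nat_lit 269529) (.g (nat_lit 899) (.e (nat_lit 188441) (nat_lit 20) (.e (nat_lit 3289) (nat_lit 201) (.e (nat_lit 565268) (nat_lit 5) (.e (nat_lit 73792) (nat_lit 45) (.e (nat_lit 1163) (nat_lit 86) (.e (nat_lit 57088) (nat_lit 6) .nil)))))) (.g (nat_lit 5) .nil .nil))) 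
(.lf (nat_lit 269561) (.g (nat_lit 1478) (.e (nat_lit 188441) (nat_lit 20) (.e (nat_lit 3578) (nat_lit 223) (.e (nat_lit 745476) (nat_lit 0) (.e (nat_lit 1598) (nat_lit 111) (.e (nat_lit 368384) (nat_lit 10) (.e (nat_lit 581376) (nat_lit 6) .nil)))))) (.g (nat_lit 4) .nil .nil)))))) (.nd (nat_lit 3) (.nd (nat_lit 4) (.nd (nat_lit 5) 
(.lf (nat_lit 269509) (.g (nat_lit 794) (.e (nat_lit 188441) (nat_lit 20) (.e (nat_lit 3271) (nat_lit 199) (.e (nat_lit 548913) (nat_lit 18) (.e (nat_lit 172070) (nat_lit 4) .nil)))) .nil)) 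
(.lf (nat_lit 269541) (.g (nat_lit 2536) (.e (nat_lit 188441) (nat_lit 20) (.e (nat_lit 3578) (nat_lit 223) (.e (nat_lit 745475) (nat_lit 0) (.e (nat_lit 1586) (nat_lit 111) (.e (nat_lit 360477) (nat_lit 11) (.e (nat_lit 581653) (nat_lit 6) .nil)))))) (.g (nat_lit 6) .nil .nil)))) (.nd (nat_lit 5) 
(.lf (nat_lit 269525) (.g (nat_lit 976) (.e (nat_lit 188441) (nat_lit 20) (.e (nat_lit 3289) (nat_lit 201) (.e (nat_lit 565268) (nat_lit 5) (.e (nat_lit 73789) (nat_lit 45) (.e (nat_lit 1163) (nat_lit 86) (.e (nat_lit 57088) (nat_lit 6) .nil)))))) (.g (nat_lit 5) .nil .nil))) 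
(.lf (nat_lit 269557) (.g (nat_lit 1593) (.e (nat_lit 188441) (nat_lit 20) (.e (nat_lit 3578) (nat_lit 223) (.e (nat_lit 745476) (nat_lit 0) (.e (nat_lit 1586) (nat_lit 111) (.e (nat_lit 368384) (nat_lit 10) (.e (nat_lit 581376) (nat_lit 6) .nil)))))) (.g (nat_lit 4) .nil .nil))))) (.nd (nat_lit 4) (.nd (nat_lit 5) 
(.lf (nat_lit 269517) (.g (nat_lit 2197) (.e (nat_lit 188441) (nat_lit 20) (.e (nat_lit 3272) (nat_lit 199) (.e (nat_lit 548913) (nat_lit 18) (.e (nat_lit 172095) (nat_lit 9) (.e (nat_lit 433920) (nat_lit 15) .nil))))) .nil)) 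
(.lf (nat_lit 269549) (.g (nat_lit 852) (.e (nat_lit 188441) (nat_lit 20) (.e (nat_lit 3578) (nat_lit 223) (.e (nat_lit 745475) (nat_lit 0) (.e (nat_lit 1599) (nat_lit 111) (.e (nat_lit 368384) (nat_lit 10) (.e (nat_lit 581376) (nat_lit 6) .nil)))))) (.g (nat_lit 4) .nil .nil)))) (.nd (nat_lit 5) 
(.lf (nat_lit 269533) (.g (nat_lit 1213) (.e (nat_lit 188441) (nat_lit 20) (.e (nat_lit 3578) (nat_lit 223) (.e (nat_lit 745475) (nat_lit 0) (.e (nat_lit 1559) (nat_lit 110) (.e (nat_lit 352269) (nat_lit 7) (.e (nat_lit 245778) (nat_lit 6) .nil)))))) (.g (nat_lit 6) .nil .nil))) 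
(.lf (nat_lit 269565) (.g (nat_lit 782) (.e (nat_lit 188441) (nat_lit 20) (.e (nat_lit 3578) (nat_lit 223) (.e (nat_lit 745493) (nat_lit 6) (.e (nat_lit 81933) (nat_lit 20) (.e (nat_lit 1879) (nat_lit 126) (.e (nat_lit 581376) (nat_lit 6) .nil)))))) (.g (nat_lit 5) .nil .nil))))))) (.nd (nat_lit 2) (.nd (nat_lit 3) (.nd (nat_lit 4) (.nd (nat_lit 5) 
(.lf (nat_lit 269507) (.g (nat_lit 1733) (.e (nat_lit 188441) (nat_lit 20) (.e (nat_lit 3255) (nat_lit 197) (.e (nat_lit 532523) (nat_lit 7) (.e (nat_lit 319531) (nat_lit 16) (.e (nat_lit 286733) (nat_lit 2) .nil))))) .nil)) 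
(.lf (nat_lit 269539) (.g (nat_lit 835) (.e (nat_lit 188441) (nat_lit 20) (.e (nat_lit 3578) (nat_lit 223) (.e (nat_lit 745475) (nat_lit 0) (.e (nat_lit 1576) (nat_lit 110) (.e (nat_lit 360192) (nat_lit 2) (.e (nat_lit 204544) (nat_lit 6) .nil)))))) (.g (nat_lit 4) .nil .nil)))) (.nd (nat_lit 5) 
(.lf (nat_lit 269523) (.g (nat_lit 847) (.e (nat_lit 188441) (nat_lit 20) (.e (nat_lit 3289) (nat_lit 201) (.e (nat_lit 565268) (nat_lit 5) (.e (nat_lit 73789) (nat_lit 45) (.e (nat_lit 1161) (nat_lit 86) (.e (nat_lit 57088) (nat_lit 6) .nil)))))) (.g (nat_lit 4) .nil .nil))) 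
(.lf (nat_lit 269555) (.g (nat_lit 1758) (.e (nat_lit 188441) (nat_lit 20) (.e (nat_lit 3578) (nat_lit 223) (.e (nat_lit 745476) (nat_lit 0) (.e (nat_lit 1575) (nat_lit 110) (.e (nat_lit 352269) (nat_lit 7) (.e (nat_lit 245778) (nat_lit 6) .nil)))))) (.g (nat_lit 0) .nil .nil))))) (.nd (nat_lit 4) (.nd (nat_lit 5) 
(.lf (nat_lit 269515) (.g (nat_lit 1567) (.e (nat_lit 188441) (nat_lit 20) (.e (nat_lit 3272) (nat_lit 199) (.e (nat_lit 548913) (nat_lit 18) (.e (nat_lit 172088) (nat_lit 9) .nil)))) .nil)) 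
(.lf (nat_lit 269547) (.g (nat_lit 1002) (.e (nat_lit 188441) (nat_lit 20) (.e (nat_lit 3578) (nat_lit 223) (.e (nat_lit 745475) (nat_lit 0) (.e (nat_lit 1598) (nat_lit 111) (.e (nat_lit 368384) (nat_lit 10) (.e (nat_lit 581376) (nat_lit 6) .nil)))))) (.g (nat_lit 4) .nil .nil)))) (.nd (nat_lit 5) 
(.lf (nat_lit 269531) (.g (nat_lit 1424) (.e (nat_lit 188441) (nat_lit 20) (.e (nat_lit 3469) (nat_lit 217) (.e (nat_lit 696344) (nat_lit 8) (.e (nat_lit 172105) (nat_lit 10) .nil)))) .nil)) 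
(.lf (nat_lit 269563) (.g (nat_lit 975) (.e (nat_lit 188441) (nat_lit 20) (.e (nat_lit 3578) (nat_lit 223) (.e (nat_lit 745493) (nat_lit 6) (.e (nat_lit 81931) (nat_lit 20) (.e (nat_lit 1876) (nat_lit 126) (.e (nat_lit 581376) (nat_lit 6) .nil)))))) (.g (nat_lit 5) .nil .nil)))))) (.nd (nat_lit 3) (.nd (nat_lit 4) (.nd (nat_lit 5) 
(.lf (nat_lit 269511) (.g (nat_lit 1502) (.e (nat_lit 188441) (nat_lit 20) (.e (nat_lit 3272) (nat_lit 199) (.e (nat_lit 548913) (nat_lit 18) (.e (nat_lit 172061) (nat_lit 1) .nil)))) .nil)) 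
(.lf (nat_lit 269543) (.g (nat_lit 824) (.e (nat_lit 188441) (nat_lit 20) (.e (nat_lit 3578) (nat_lit 223) (.e (nat_lit 745475) (nat_lit 0) (.e (nat_lit 1592) (nat_lit 111) (.e (nat_lit 368384) (nat_lit 10) (.e (nat_lit 581376) (nat_lit 6) .nil)))))) (.g (nat_lit 4) .nil .nil)))) (.nd (nat_lit 5) 
(.lf (nat_lit 269527) (.g (nat_lit 784) (.e (nat_lit 188441) (nat_lit 20) (.e (nat_lit 3289) (nat_lit 201) (.e (nat_lit 565268) (nat_lit 5) (.e (nat_lit 73791) (nat_lit 45) (.e (nat_lit 1163) (nat_lit 86) (.e (nat_lit 57088) (nat_lit 6) .nil)))))) (.g (nat_lit 5) .nil .nil))) 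
(.lf (nat_lit 269559) (.g (nat_lit 1140) (.e (nat_lit 188441) (nat_lit 20) (.e (nat_lit 3578) (nat_lit 223) (.e (nat_lit 745476) (nat_lit 0) (.e (nat_lit 1592) (nat_lit 111) (.e (nat_lit 368384) (nat_lit 10) (.e (nat_lit 581376) (nat_lit 6) .nil)))))) (.g (nat_lit 4) .nil .nil))))) (.nd (nat_lit 4) (.nd (nat_lit 5) 
(.lf (nat_lit 269519) (.g (nat_lit 1519) (.e (nat_lit 188441) (nat_lit 20) (.e (nat_lit 3272) (nat_lit 199) (.e (nat_lit 548915) (nat_lit 20) (.e (nat_lit 188418) (nat_lit 0) (.e (nat_lit 1855) (nat_lit 124) .nil))))) .nil)) 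
(.lf (nat_lit 269551) (.g (nat_lit 1240) (.e (nat_lit 188441) (nat_lit 20) (.e (nat_lit 3578) (nat_lit 223) (.e (nat_lit 745476) (nat_lit 0) (.e (nat_lit 1562) (nat_lit 110) (.e (nat_lit 360192) (nat_lit 2) (.e (nat_lit 204544) (nat_lit 6) .nil)))))) (.g (nat_lit 4) .nil .nil)))) (.nd (nat_lit 5) 
(.lf (nat_lit 269535) (.g (nat_lit 896) (.e (nat_lit 188441) (nat_lit 20) (.e (nat_lit 3578) (nat_lit 223) (.e (nat_lit 745475) (nat_lit 0) (.e (nat_lit 1569) (nat_lit 110) (.e (nat_lit 360192) (nat_lit 2) (.e (nat_lit 204544) (nat_lit 6) .nil)))))) (.g (nat_lit 4) .nil .nil))) 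
(.lf (nat_lit 269567) (.g (nat_lit 814) (.e (nat_lit 188441) (nat_lit 20) (.e (nat_lit 3578) (nat_lit 223) (.e (nat_lit 745493) (nat_lit 6) (.e (nat_lit 81935) (nat_lit 20) (.e (nat_lit 1878) (nat_lit 126) (.e (nat_lit 581376) (nat_lit 6) .nil)))))) (.g (nat_lit 4) .nil .nil)))))))))

noncomputable def tv3461 : DT := (.nd (nat_lit 0) (.nd (nat_lit 1) (.nd (nat_lit 2) (.nd (nat_lit 3) (.nd (nat_lit 4) (.nd (nat_lit 5) 
(.lf (nat_lit 269568) (.g (nat_lit 1148) (.e (nat_lit 188441) (nat_lit 20) (.e (nat_lit 3578) (nat_lit 223) (.e (nat_lit 745493) (nat_lit 6) (.e (nat_lit 81935) (nat_lit 20) (.e (nat_lit 1879) (nat_lit 126) (.e (nat_lit 581376) (nat_lit 6) .nil)))))) (.g (nat_lit 5) .nil .nil))) 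
(.lf (nat_lit 269600) (.g (nat_lit 2978) (.e (nat_lit 188441) (nat_lit 20) (.e (nat_lit 3579) (nat_lit 223) (.e (nat_lit 745476) (nat_lit 0) (.e (nat_lit 1595) (nat_lit 111) (.e (nat_lit 360477) (nat_lit 11) (.e (nat_lit 581653) (nat_lit 6) .nil)))))) (.g (nat_lit 0) .nil .nil)))) (.nd (nat_lit 5) 
(.lf (nat_lit 269584) (.g (nat_lit 1322) (.e (nat_lit 188441) (nat_lit 20) (.e (nat_lit 3579) (nat_lit 223) (.e (nat_lit 745475) (nat_lit 0) (.e (nat_lit 1598) (nat_lit 111) (.e (nat_lit 368384) (nat_lit 10) (.e (nat_lit 581376) (nat_lit 6) .nil)))))) (.g (nat_lit 4) .nil .nil))) 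
(.lf (nat_lit 269616) (.g (nat_lit 1174) (.e (nat_lit 188441) (nat_lit 20) (.e (nat_lit 3579) (nat_lit 223) (.e (nat_lit 745493) (nat_lit 6) (.e (nat_lit 81935) (nat_lit 20) (.e (nat_lit 1878) (nat_lit 126) (.e (nat_lit 581376) (nat_lit 6) .nil)))))) (.g (nat_lit 4) .nil .nil))))) (.nd (nat_lit 4) (.nd (nat_lit 5) 
(.lf (nat_lit 269576) (.g (nat_lit 1520) (.e (nat_lit 188441) (nat_lit 20) (.e (nat_lit 3579) (nat_lit 223) (.e (nat_lit 745475) (nat_lit 0) (.e (nat_lit 1586) (nat_lit 111) (.e (nat_lit 368384) (nat_lit 10) (.e (nat_lit 581376) (nat_lit 6) .nil)))))) (.g (nat_lit 4) .nil .nil))) 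
(.lf (nat_lit 269608) (.g (nat_lit 3784) (.e (nat_lit 188441) (nat_lit 20) (.e (nat_lit 3579) (nat_lit 223) (.e (nat_lit 745491) (nat_lit 4) (.e (nat_lit 65586) (nat_lit 7) (.e (nat_lit 319505) (nat_lit 10) (.e (nat_lit 618) (nat_lit 48) (.e (nat_lit 557107) (nat_lit 15) .nil))))))) (.g (nat_lit 0) .nil .nil)))) (.nd (nat_lit 5) 
(.lf (nat_lit 269592) (.g (nat_lit 1707) (.e (nat_lit 188441) (nat_lit 20) (.e (nat_lit 3579) (nat_lit 223) (.e (nat_lit 745476) (nat_lit 0) (.e (nat_lit 1575) (nat_lit 110) (.e (nat_lit 360192) (nat_lit 2) (.e (nat_lit 204544) (nat_lit 6) .nil)))))) (.g (nat_lit 4) .nil .nil))) 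
(.lf (nat_lit 269624) (.g (nat_lit 1518) (.e (nat_lit 196352) (nat_lit 20) (.e (nat_lit 3234) (nat_lit 197) (.e (nat_lit 532535) (nat_lit 9) (.e (nat_lit 335928) (nat_lit 0) .nil)))) .nil))))) (.nd (nat_lit 3) (.nd (nat_lit 4) (.nd (nat_lit 5) 
(.lf (nat_lit 269572) (.g (nat_lit 1217) (.e (nat_lit 188441) (nat_lit 20) (.e (nat_lit 3579) (nat_lit 223) (.e (nat_lit 745475) (nat_lit 0) (.e (nat_lit 1569) (nat_lit 110) (.e (nat_lit 360192) (nat_lit 2) (.e (nat_lit 204544) (nat_lit 6) .nil)))))) (.g (nat_lit 4) .nil .nil))) 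
(.lf (nat_lit 269604) (.g (nat_lit 1497) (.e (nat_lit 188441) (nat_lit 20) (.e (nat_lit 3579) (nat_lit 223) (.e (nat_lit 745476) (nat_lit 0) (.e (nat_lit 1599) (nat_lit 111) (.e (nat_lit 368384) (nat_lit 10) (.e (nat_lit 581376) (nat_lit 6) .nil)))))) (.g (nat_lit 4) .nil .nil)))) (.nd (nat_lit 5) 
(.lf (nat_lit 269588) (.g (nat_lit 1914) (.e (nat_lit 188441) (nat_lit 20) (.e (nat_lit 3579) (nat_lit 223) (.e (nat_lit 745476) (nat_lit 0) (.e (nat_lit 1559) (nat_lit 110) (.e (nat_lit 352269) (nat_lit 7) (.e (nat_lit 245778) (nat_lit 6) .nil)))))) (.g (nat_lit 0) .nil .nil))) 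
(.lf (nat_lit 269620) (.g (nat_lit 1890) (.e (nat_lit 188442) (nat_lit 20) (.e (nat_lit 3230) (nat_lit 197) (.e (nat_lit 532523) (nat_lit 7) (.e (nat_lit 319531) (nat_lit 16) (.e (nat_lit 286733) (nat_lit 2) .nil))))) .nil)))) (.nd (nat_lit 4) (.nd (nat_lit 5) 
(.lf (nat_lit 269580) (.g (nat_lit 1148) (.e (nat_lit 188441) (nat_lit 20) (.e (nat_lit 3579) (nat_lit 223) (.e (nat_lit 745475) (nat_lit 0) (.e (nat_lit 1592) (nat_lit 111) (.e (nat_lit 368384) (nat_lit 10) (.e (nat_lit 581376) (nat_lit 6) .nil)))))) (.g (nat_lit 4) .nil .nil))) 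
(.lf (nat_lit 269612) (.g (nat_lit 1063) (.e (nat_lit 188441) (nat_lit 20) (.e (nat_lit 3579) (nat_lit 223) (.e (nat_lit 745493) (nat_lit 6) (.e (nat_lit 81931) (nat_lit 20) (.e (nat_lit 1878) (nat_lit 126) (.e (nat_lit 581376) (nat_lit 6) .nil)))))) (.g (nat_lit 4) .nil .nil)))) (.nd (nat_lit 5) 
(.lf (nat_lit 269596) (.g (nat_lit 1901) (.e (nat_lit 188441) (nat_lit 20) (.e (nat_lit 3579) (nat_lit 223) (.e (nat_lit 745476) (nat_lit 0) (.e (nat_lit 1589) (nat_lit 111) (.e (nat_lit 368384) (nat_lit 10) (.e (nat_lit 581376) (nat_lit 6) .nil)))))) (.g (nat_lit 4) .nil .nil))) 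
(.lf (nat_lit 269628) (.g (nat_lit 1825) (.e (nat_lit 196352) (nat_lit 20) (.e (nat_lit 3238) (nat_lit 197) (.e (nat_lit 532535) (nat_lit 9) (.e (nat_lit 335928) (nat_lit 0) (.e (nat_lit 2005) (nat_lit 138) .nil))))) .nil)))))) (.nd (nat_lit 2) (.nd (nat_lit 3) (.nd (nat_lit 4) (.nd (nat_lit 5) 
(.lf (nat_lit 269570) (.g (nat_lit 1543) (.e (nat_lit 188441) (nat_lit 20) (.e (nat_lit 3579) (nat_lit 223) (.e (nat_lit 745475) (nat_lit 0) (.e (nat_lit 1559) (nat_lit 110) (.e (nat_lit 352269) (nat_lit 7) (.e (nat_lit 245778) (nat_lit 6) .nil)))))) (.g (nat_lit 6) .nil .nil))) 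
(.lf (nat_lit 269602) (.g (nat_lit 1851) (.e (nat_lit 188441) (nat_lit 20) (.e (nat_lit 3579) (nat_lit 223) (.e (nat_lit 745476) (nat_lit 0) (.e (nat_lit 1598) (nat_lit 111) (.e (nat_lit 368384) (nat_lit 10) (.e (nat_lit 581376) (nat_lit 6) .nil)))))) (.g (nat_lit 4) .nil .nil)))) (.nd (nat_lit 5) 
(.lf (nat_lit 269586) (.g (nat_lit 2140) (.e (nat_lit 188441) (nat_lit 20) (.e (nat_lit 3579) (nat_lit 223) (.e (nat_lit 745475) (nat_lit 0) (.e (nat_lit 1599) (nat_lit 111) (.e (nat_lit 360477) (nat_lit 11) (.e (nat_lit 581653) (nat_lit 6) .nil)))))) (.g (nat_lit 0) .nil .nil))) 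
(.lf (nat_lit 269618) (.g (nat_lit 1844) (.e (nat_lit 188441) (nat_lit 20) (.e (nat_lit 3579) (nat_lit 223) (.e (nat_lit 745493) (nat_lit 6) (.e (nat_lit 81943) (nat_lit 20) (.e (nat_lit 1886) (nat_lit 127) (.e (nat_lit 581653) (nat_lit 6) .nil)))))) (.g (nat_lit 0) .nil .nil))))) (.nd (nat_lit 4) (.nd (nat_lit 5) 
(.lf (nat_lit 269578) (.g (nat_lit 1530) (.e (nat_lit 188441) (nat_lit 20) (.e (nat_lit 3579) (nat_lit 223) (.e (nat_lit 745475) (nat_lit 0) (.e (nat_lit 1589) (nat_lit 111) (.e (nat_lit 368384) (nat_lit 10) (.e (nat_lit 581376) (nat_lit 6) .nil)))))) (.g (nat_lit 4) .nil .nil))) 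
(.lf (nat_lit 269610) (.g (nat_lit 419) (.e (nat_lit 188441) (nat_lit 20) (.e (nat_lit 3579) (nat_lit 223) (.e (nat_lit 745493) (nat_lit 6) .nil))) .nil))) (.nd (nat_lit 5) 
(.lf (nat_lit 269594) (.g (nat_lit 1494) (.e (nat_lit 188441) (nat_lit 20) (.e (nat_lit 3579) (nat_lit 223) (.e (nat_lit 745476) (nat_lit 0) (.e (nat_lit 1576) (nat_lit 110) (.e (nat_lit 360192) (nat_lit 2) (.e (nat_lit 204544) (nat_lit 6) .nil)))))) (.g (nat_lit 4) .nil .nil))) 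
(.lf (nat_lit 269626) (.g (nat_lit 2631) (.e (nat_lit 196352) (nat_lit 20) (.e (nat_lit 3238) (nat_lit 197) (.e (nat_lit 532535) (nat_lit 9) (.e (nat_lit 335925) (nat_lit 0) (.e (nat_lit 2006) (nat_lit 138) .nil))))) .nil))))) (.nd (nat_lit 3) (.nd (nat_lit 4) (.nd (nat_lit 5) 
(.lf (nat_lit 269574) (.g (nat_lit 1256) (.e (nat_lit 188441) (nat_lit 20) (.e (nat_lit 3579) (nat_lit 223) (.e (nat_lit 745475) (nat_lit 0) (.e (nat_lit 1575) (nat_lit 110) (.e (nat_lit 360192) (nat_lit 2) (.e (nat_lit 204544) (nat_lit 6) .nil)))))) (.g (nat_lit 4) .nil .nil))) 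
(.lf (nat_lit 269606) (.g (nat_lit 3499) (.e (nat_lit 188441) (nat_lit 20) (.e (nat_lit 3579) (nat_lit 223) (.e (nat_lit 745491) (nat_lit 4) (.e (nat_lit 65583) (nat_lit 7) (.e (nat_lit 319499) (nat_lit 10) (.e (nat_lit 618) (nat_lit 48) (.e (nat_lit 557107) (nat_lit 15) .nil))))))) (.g (nat_lit 0) .nil .nil)))) (.nd (nat_lit 5) 
(.lf (nat_lit 269590) (.g (nat_lit 1562) (.e (nat_lit 188441) (nat_lit 20) (.e (nat_lit 3579) (nat_lit 223) (.e (nat_lit 745476) (nat_lit 0) (.e (nat_lit 1569) (nat_lit 110) (.e (nat_lit 360192) (nat_lit 2) (.e (nat_lit 204544) (nat_lit 6) .nil)))))) (.g (nat_lit 4) .nil .nil))) 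
(.lf (nat_lit 269622) (.g (nat_lit 1533) (.e (nat_lit 196352) (nat_lit 20) (.e (nat_lit 3234) (nat_lit 197) (.e (nat_lit 532535) (nat_lit 9) (.e (nat_lit 335925) (nat_lit 0) .nil)))) .nil)))) (.nd (nat_lit 4) (.nd (nat_lit 5) 
(.lf (nat_lit 269582) (.g (nat_lit 1538) (.e (nat_lit 188441) (nat_lit 20) (.e (nat_lit 3579) (nat_lit 223) (.e (nat_lit 745475) (nat_lit 0) (.e (nat_lit 1595) (nat_lit 111) (.e (nat_lit 368384) (nat_lit 10) (.e (nat_lit 581376) (nat_lit 6) .nil)))))) (.g (nat_lit 4) .nil .nil))) 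
(.lf (nat_lit 269614) (.g (nat_lit 1145) (.e (nat_lit 188441) (nat_lit 20) (.e (nat_lit 3579) (nat_lit 223) (.e (nat_lit 745493) (nat_lit 6) (.e (nat_lit 81933) (nat_lit 20) (.e (nat_lit 1879) (nat_lit 126) (.e (nat_lit 581376) (nat_lit 6) .nil)))))) (.g (nat_lit 5) .nil .nil)))) (.nd (nat_lit 5) 
(.lf (nat_lit 269598) (.g (nat_lit 1505) (.e (nat_lit 188441) (nat_lit 20) (.e (nat_lit 3579) (nat_lit 223) (.e (nat_lit 745476) (nat_lit 0) (.e (nat_lit 1592) (nat_lit 111) (.e (nat_lit 368384) (nat_lit 10) (.e (nat_lit 581376) (nat_lit 6) .nil)))))) (.g (nat_lit 4) .nil .nil))) 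
(.lf (nat_lit 269630) (.g (nat_lit 655) (.e (nat_lit 196352) (nat_lit 20) (.e (nat_lit 3253) (nat_lit 197) (.e (nat_lit 532523) (nat_lit 7) .nil))) .nil))))))) (.nd (nat_lit 1) (.nd (nat_lit 2) (.nd (nat_lit 3) (.nd (nat_lit 4) (.nd (nat_lit 5) 
(.lf (nat_lit 269569) (.g (nat_lit 463) (.e (nat_lit 188441) (nat_lit 20) (.e (nat_lit 3579) (nat_lit 223) (.e (nat_lit 745473) (nat_lit 0) .nil))) .nil)) 
(.lf (nat_lit 269601) (.g (nat_lit 1735) (.e (nat_lit 188441) (nat_lit 20) (.e (nat_lit 3579) (nat_lit 223) (.e (nat_lit 745476) (nat_lit 0) (.e (nat_lit 1595) (nat_lit 111) (.e (nat_lit 360477) (nat_lit 11) (.e (nat_lit 589568) (nat_lit 6) .nil)))))) (.g (nat_lit 4) .nil .nil)))) (.nd (nat_lit 5) 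
(.lf (nat_lit 269585) (.g (nat_lit 1176) (.e (nat_lit 188441) (nat_lit 20) (.e (nat_lit 3579) (nat_lit 223) (.e (nat_lit 745475) (nat_lit 0) (.e (nat_lit 1599) (nat_lit 111) (.e (nat_lit 368384) (nat_lit 10) (.e (nat_lit 581376) (nat_lit 6) .nil)))))) (.g (nat_lit 4) .nil .nil))) 
(.lf (nat_lit 269617) (.g (nat_lit 1510) (.e (nat_lit 188441) (nat_lit 20) (.e (nat_lit 3579) (nat_lit 223) (.e (nat_lit 745493) (nat_lit 6) (.e (nat_lit 81935) (nat_lit 20) (.e (nat_lit 1879) (nat_lit 126) (.e (nat_lit 581376) (nat_lit 6) .nil)))))) (.g (nat_lit 5) .nil .nil))))) (.nd (nat_lit 4) (.nd (nat_lit 5) 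
(.lf (nat_lit 269577) (.g (nat_lit 2863) (.e (nat_lit 188441) (nat_lit 20) (.e (nat_lit 3579) (nat_lit 223) (.e (nat_lit 745475) (nat_lit 0) (.e (nat_lit 1586) (nat_lit 111) (.e (nat_lit 360477) (nat_lit 11) (.e (nat_lit 581653) (nat_lit 6) .nil)))))) (.g (nat_lit 6) .nil .nil))) 
(.lf (nat_lit 269609) (.g (nat_lit 488) (.e (nat_lit 188441) (nat_lit 20) (.e (nat_lit 3579) (nat_lit 223) (.e (nat_lit 745492) (nat_lit 5) .nil))) .nil))) (.nd (nat_lit 5) 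
(.lf (nat_lit 269593) (.g (nat_lit 2137) (.e (nat_lit 188441) (nat_lit 20) (.e (nat_lit 3579) (nat_lit 223) (.e (nat_lit 745476) (nat_lit 0) (.e (nat_lit 1575) (nat_lit 110) (.e (nat_lit 352269) (nat_lit 7) (.e (nat_lit 245778) (nat_lit 6) .nil)))))) (.g (nat_lit 0) .nil .nil))) 
(.lf (nat_lit 269625) (.g (nat_lit 1898) (.e (nat_lit 196352) (nat_lit 20) (.e (nat_lit 3238) (nat_lit 197) (.e (nat_lit 532535) (nat_lit 9) (.e (nat_lit 335925) (nat_lit 0) .nil)))) .nil))))) (.nd (nat_lit 3) (.nd (nat_lit 4) (.nd (nat_lit 5) 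
(.lf (nat_lit 269573) (.g (nat_lit 1443) (.e (nat_lit 188441) (nat_lit 20) (.e (nat_lit 3579) (nat_lit 223) (.e (nat_lit 745475) (nat_lit 0) (.e (nat_lit 1569) (nat_lit 110) (.e (nat_lit 352269) (nat_lit 7) (.e (nat_lit 245778) (nat_lit 6) .nil)))))) (.g (nat_lit 6) .nil .nil))) 
(.lf (nat_lit 269605) (.g (nat_lit 2464) (.e (nat_lit 188441) (nat_lit 20) (.e (nat_lit 3579) (nat_lit 223) (.e (nat_lit 745476) (nat_lit 0) (.e (nat_lit 1599) (nat_lit 111) (.e (nat_lit 360477) (nat_lit 11) (.e (nat_lit 581653) (nat_lit 6) .nil)))))) (.g (nat_lit 0) .nil .nil)))) (.nd (nat_lit 5) 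
(.lf (nat_lit 269589) (.g (nat_lit 1613) (.e (nat_lit 188441) (nat_lit 20) (.e (nat_lit 3579) (nat_lit 223) (.e (nat_lit 745476) (nat_lit 0) (.e (nat_lit 1562) (nat_lit 110) (.e (nat_lit 360192) (nat_lit 2) (.e (nat_lit 204544) (nat_lit 6) .nil)))))) (.g (nat_lit 4) .nil .nil))) 
(.lf (nat_lit 269621) (.g (nat_lit 4371) (.e (nat_lit 188442) (nat_lit 20) (.e (nat_lit 3304) (nat_lit 202) (.e (nat_lit 573454) (nat_lit 9) (.e (nat_lit 1315) (nat_lit 98) (.e (nat_lit 147496) (nat_lit 11) (.e (nat_lit 24604) (nat_lit 2) (.e (nat_lit 90178) (nat_lit 15) .nil))))))) (.g (nat_lit 7) .nil .nil))))) (.nd (nat_lit 4) (.nd (nat_lit 5) 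
(.lf (nat_lit 269581) (.g (nat_lit 2179) (.e (nat_lit 188441) (nat_lit 20) (.e (nat_lit 3579) (nat_lit 223) (.e (nat_lit 745475) (nat_lit 0) (.e (nat_lit 1592) (nat_lit 111) (.e (nat_lit 360477) (nat_lit 11) (.e (nat_lit 581653) (nat_lit 6) .nil)))))) (.g (nat_lit 6) .nil .nil))) 
(.lf (nat_lit 269613) (.g (nat_lit 1373) (.e (nat_lit 188441) (nat_lit 20) (.e (nat_lit 3579) (nat_lit 223) (.e (nat_lit 745493) (nat_lit 6) (.e (nat_lit 81931) (nat_lit 20) (.e (nat_lit 1879) (nat_lit 126) (.e (nat_lit 581376) (nat_lit 6) .nil)))))) (.g (nat_lit 5) .nil .nil)))) (.nd (nat_lit 5) 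
(.lf (nat_lit 269597) (.g (nat_lit 911) (.e (nat_lit 188441) (nat_lit 20) (.e (nat_lit 3579) (nat_lit 223) (.e (nat_lit 745476) (nat_lit 0) (.e (nat_lit 1592) (nat_lit 111) .nil)))) .nil)) 
(.lf (nat_lit 269629) (.g (nat_lit 2002) (.e (nat_lit 196352) (nat_lit 20) (.e (nat_lit 3238) (nat_lit 197) (.e (nat_lit 532544) (nat_lit 10) (.e (nat_lit 344169) (nat_lit 40) (.e (nat_lit 671759) (nat_lit 3) .nil))))) .nil)))))) (.nd (nat_lit 2) (.nd (nat_lit 3) (.nd (nat_lit 4) (.nd (nat_lit 5) 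
(.lf (nat_lit 269571) (.g (nat_lit 1290) (.e (nat_lit 188441) (nat_lit 20) (.e (nat_lit 3579) (nat_lit 223) (.e (nat_lit 745475) (nat_lit 0) (.e (nat_lit 1562) (nat_lit 110) (.e (nat_lit 360192) (nat_lit 2) (.e (nat_lit 204544) (nat_lit 6) .nil)))))) (.g (nat_lit 4) .nil .nil))) 
(.lf (nat_lit 269603) (.g (nat_lit 3027) (.e (nat_lit 188441) (nat_lit 20) (.e (nat_lit 3579) (nat_lit 223) (.e (nat_lit 745476) (nat_lit 0) (.e (nat_lit 1598) (nat_lit 111) (.e (nat_lit 360477) (nat_lit 11) (.e (nat_lit 581653) (nat_lit 6) .nil)))))) (.g (nat_lit 0) .nil .nil)))) (.nd (nat_lit 5) 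
(.lf (nat_lit 269587) (.g (nat_lit 1482) (.e (nat_lit 188441) (nat_lit 20) (.e (nat_lit 3579) (nat_lit 223) (.e (nat_lit 745476) (nat_lit 0) (.e (nat_lit 1559) (nat_lit 110) (.e (nat_lit 360192) (nat_lit 2) (.e (nat_lit 204544) (nat_lit 6) .nil)))))) (.g (nat_lit 4) .nil .nil))) 
(.lf (nat_lit 269619) (.g (nat_lit 2064) (.e (nat_lit 188441) (nat_lit 20) (.e (nat_lit 3579) (nat_lit 223) (.e (nat_lit 745493) (nat_lit 6) (.e (nat_lit 81947) (nat_lit 20) (.e (nat_lit 1886) (nat_lit 127) (.e (nat_lit 581653) (nat_lit 6) .nil)))))) (.g (nat_lit 0) .nil .nil))))) (.nd (nat_lit 4) (.nd (nat_lit 5) 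
(.lf (nat_lit 269579) (.g (nat_lit 2496) (.e (nat_lit 188441) (nat_lit 20) (.e (nat_lit 3579) (nat_lit 223) (.e (nat_lit 745475) (nat_lit 0) (.e (nat_lit 1589) (nat_lit 111) (.e (nat_lit 360477) (nat_lit 11) (.e (nat_lit 581653) (nat_lit 6) .nil)))))) (.g (nat_lit 0) .nil .nil))) 
(.lf (nat_lit 269611) (.g (nat_lit 1345) (.e (nat_lit 188441) (nat_lit 20) (.e (nat_lit 3579) (nat_lit 223) (.e (nat_lit 745493) (nat_lit 6) (.e (nat_lit 81931) (nat_lit 20) (.e (nat_lit 1876) (nat_lit 126) (.e (nat_lit 581376) (nat_lit 6) .nil)))))) (.g (nat_lit 5) .nil .nil)))) (.nd (nat_lit 5) 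
(.lf (nat_lit 269595) (.g (nat_lit 1954) (.e (nat_lit 188441) (nat_lit 20) (.e (nat_lit 3579) (nat_lit 223) (.e (nat_lit 745476) (nat_lit 0) (.e (nat_lit 1586) (nat_lit 111) (.e (nat_lit 368384) (nat_lit 10) (.e (nat_lit 581376) (nat_lit 6) .nil)))))) (.g (nat_lit 4) .nil .nil))) 
(.lf (nat_lit 269627) (.g (nat_lit 1842) (.e (nat_lit 196352) (nat_lit 20) (.e (nat_lit 3238) (nat_lit 197) (.e (nat_lit 532535) (nat_lit 9) (.e (nat_lit 335928) (nat_lit 0) (.e (nat_lit 2004) (nat_lit 138) .nil))))) .nil))))) (.nd (nat_lit 3) (.nd (nat_lit 4) (.nd (nat_lit 5) 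
(.lf (nat_lit 269575) (.g (nat_lit 1125) (.e (nat_lit 188441) (nat_lit 20) (.e (nat_lit 3579) (nat_lit 223) (.e (nat_lit 745475) (nat_lit 0) (.e (nat_lit 1576) (nat_lit 110) (.e (nat_lit 360192) (nat_lit 2) (.e (nat_lit 204544) (nat_lit 6) .nil)))))) (.g (nat_lit 4) .nil .nil))) 
(.lf (nat_lit 269607) (.g (nat_lit 3862) (.e (nat_lit 188441) (nat_lit 20) (.e (nat_lit 3579) (nat_lit 223) (.e (nat_lit 745491) (nat_lit 4) (.e (nat_lit 65586) (nat_lit 7) (.e (nat_lit 319500) (nat_lit 10) (.e (nat_lit 618) (nat_lit 48) (.e (nat_lit 557107) (nat_lit 15) .nil))))))) (.g (nat_lit 0) .nil .nil)))) (.nd (nat_lit 5) 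
(.lf (nat_lit 269591) (.g (nat_lit 1567) (.e (nat_lit 188441) (nat_lit 20) (.e (nat_lit 3579) (nat_lit 223) (.e (nat_lit 745476) (nat_lit 0) (.e (nat_lit 1572) (nat_lit 110) (.e (nat_lit 360192) (nat_lit 2) (.e (nat_lit 204544) (nat_lit 6) .nil)))))) (.g (nat_lit 4) .nil .nil))) 
(.lf (nat_lit 269623) (.g (nat_lit 2266) (.e (nat_lit 196352) (nat_lit 20) (.e (nat_lit 3234) (nat_lit 197) (.e (nat_lit 532535) (nat_lit 9) (.e (nat_lit 335925) (nat_lit 0) (.e (nat_lit 2006) (nat_lit 138) .nil))))) .nil)))) (.nd (nat_lit 4) (.nd (nat_lit 5) 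
(.lf (nat_lit 269583) (.g (nat_lit 2592) (.e (nat_lit 188441) (nat_lit 20) (.e (nat_lit 3579) (nat_lit 223) (.e (nat_lit 745475) (nat_lit 0) (.e (nat_lit 1595) (nat_lit 111) (.e (nat_lit 360477) (nat_lit 11) (.e (nat_lit 581653) (nat_lit 6) .nil)))))) (.g (nat_lit 0) .nil .nil))) 
(.lf (nat_lit 269615) (.g (nat_lit 1141) (.e (nat_lit 188441) (nat_lit 20) (.e (nat_lit 3579) (nat_lit 223) (.e (nat_lit 745493) (nat_lit 6) (.e (nat_lit 81934) (nat_lit 20) (.e (nat_lit 1879) (nat_lit 126) (.e (nat_lit 581376) (nat_lit 6) .nil)))))) (.g (nat_lit 5) .nil .nil)))) (.nd (nat_lit 5) 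
(.lf (nat_lit 269599) (.g (nat_lit 1930) (.e (nat_lit 188441) (nat_lit 20) (.e (nat_lit 3579) (nat_lit 223) (.e (nat_lit 745476) (nat_lit 0) (.e (nat_lit 1595) (nat_lit 111) (.e (nat_lit 368384) (nat_lit 10) (.e (nat_lit 581376) (nat_lit 6) .nil)))))) (.g (nat_lit 4) .nil .nil))) 
(.lf (nat_lit 269631) (.g (nat_lit 2781) (.e (nat_lit 196352) (nat_lit 20) (.e (nat_lit 3253) (nat_lit 197) (.e (nat_lit 532523) (nat_lit 7) (.e (nat_lit 319530) (nat_lit 16) (.e (nat_lit 286733) (nat_lit 2) .nil))))) .nil))))))))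

noncomputable def tv3462 : DT := (.nd (nat_lit 0) (.nd (nat_lit 1) (.nd (nat_lit 2) (.nd (nat_lit 3) (.nd (nat_lit 4) (.nd (nat_lit 5) 
(.lf (nat_lit 269632) (.g (nat_lit 3019) (.e (nat_lit 196352) (nat_lit 20) (.e (nat_lit 3253) (nat_lit 197) (.e (nat_lit 532523) (nat_lit 7) (.e (nat_lit 319531) (nat_lit 16) (.e (nat_lit 286733) (nat_lit 2) .nil))))) .nil)) 
(.lf (nat_lit 269664) (.g (nat_lit 1220) (.e (nat_lit 188445) (nat_lit 21) (.e (nat_lit 164196) (nat_lit 158) (.e (nat_lit 1199) (nat_lit 88) (.e (nat_lit 65616) (nat_lit 10) .nil)))) .nil))) (.nd (nat_lit 5) 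
(.lf (nat_lit 269648) (.g (nat_lit 1644) (.e (nat_lit 188444) (nat_lit 21) (.e (nat_lit 164179) (nat_lit 154) (.e (nat_lit 57389) (nat_lit 5) (.e (nat_lit 122624) (nat_lit 11) .nil)))) .nil)) 
(.lf (nat_lit 269680) (.g (nat_lit 2496) (.e (nat_lit 188446) (nat_lit 21) (.e (nat_lit 164196) (nat_lit 158) (.e (nat_lit 1221) (nat_lit 90) (.e (nat_lit 81938) (nat_lit 20) (.e (nat_lit 1886) (nat_lit 127) (.e (nat_lit 581653) (nat_lit 6) .nil)))))) (.g (nat_lit 4) .nil .nil))))) (.nd (nat_lit 4) (.nd (nat_lit 5) 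
(.lf (nat_lit 269640) (.g (nat_lit 1621) (.e (nat_lit 196352) (nat_lit 20) (.e (nat_lit 3253) (nat_lit 197) (.e (nat_lit 532543) (nat_lit 10) (.e (nat_lit 344169) (nat_lit 40) (.e (nat_lit 671759) (nat_lit 3) .nil))))) .nil)) 
(.lf (nat_lit 269672) (.g (nat_lit 1104) (.e (nat_lit 188446) (nat_lit 21) (.e (nat_lit 164196) (nat_lit 158) (.e (nat_lit 1219) (nat_lit 90) (.e (nat_lit 81935) (nat_lit 20) .nil)))) .nil))) (.nd (nat_lit 5) 
(.lf (nat_lit 269656) (.g (nat_lit 1709) (.e (nat_lit 188444) (nat_lit 21) (.e (nat_lit 164196) (nat_lit 158) (.e (nat_lit 1221) (nat_lit 90) (.e (nat_lit 81931) (nat_lit 20) (.e (nat_lit 1878) (nat_lit 126) (.e (nat_lit 581376) (nat_lit 6) .nil)))))) (.g (nat_lit 5) .nil .nil))) 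
(.lf (nat_lit 269688) (.g (nat_lit 472) (.e (nat_lit 188447) (nat_lit 22) (.e (nat_lit 196630) (nat_lit 9) (.e (nat_lit 1393) (nat_lit 106) .nil))) .nil))))) (.nd (nat_lit 3) (.nd (nat_lit 4) (.nd (nat_lit 5) 
(.lf (nat_lit 269636) (.g (nat_lit 2178) (.e (nat_lit 196352) (nat_lit 20) (.e (nat_lit 3253) (nat_lit 197) (.e (nat_lit 532535) (nat_lit 9) (.e (nat_lit 335925) (nat_lit 0) .nil)))) .nil)) 
(.lf (nat_lit 269668) (.g (nat_lit 1886) (.e (nat_lit 188446) (nat_lit 21) (.e (nat_lit 164179) (nat_lit 154) (.e (nat_lit 57389) (nat_lit 5) (.e (nat_lit 114702) (nat_lit 20) .nil)))) .nil))) (.nd (nat_lit 5) 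
(.lf (nat_lit 269652) (.g (nat_lit 1926) (.e (nat_lit 188444) (nat_lit 21) (.e (nat_lit 164196) (nat_lit 158) (.e (nat_lit 1199) (nat_lit 88) (.e (nat_lit 65586) (nat_lit 7) (.e (nat_lit 319500) (nat_lit 10) .nil))))) .nil)) 
(.lf (nat_lit 269684) (.g (nat_lit 979) (.e (nat_lit 188446) (nat_lit 21) (.e (nat_lit 164319) (nat_lit 228) (.e (nat_lit 57437) (nat_lit 17) (.e (nat_lit 376855) (nat_lit 20) .nil)))) .nil)))) (.nd (nat_lit 4) (.nd (nat_lit 5) 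
(.lf (nat_lit 269644) (.g (nat_lit 492) (.e (nat_lit 196352) (nat_lit 20) (.e (nat_lit 3302) (nat_lit 202) (.e (nat_lit 573471) (nat_lit 11) .nil))) .nil)) 
(.lf (nat_lit 269676) (.g (nat_lit 1109) (.e (nat_lit 188446) (nat_lit 21) (.e (nat_lit 164196) (nat_lit 158) (.e (nat_lit 1221) (nat_lit 90) (.e (nat_lit 81931) (nat_lit 20) .nil)))) .nil))) (.nd (nat_lit 5) 
(.lf (nat_lit 269660) (.g (nat_lit 416) (.e (nat_lit 188444) (nat_lit 21) (.e (nat_lit 164196) (nat_lit 158) (.e (nat_lit 7936) (nat_lit 90) .nil))) .nil)) 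
(.lf (nat_lit 269692) (.g (nat_lit 1572) (.e (nat_lit 188447) (nat_lit 22) (.e (nat_lit 196630) (nat_lit 9) (.e (nat_lit 1667) (nat_lit 116) (.e (nat_lit 401438) (nat_lit 9) (.e (nat_lit 426402) (nat_lit 15) .nil))))) .nil)))))) (.nd (nat_lit 2) (.nd (nat_lit 3) (.nd (nat_lit 4) (.nd (nat_lit 5) 
(.lf (nat_lit 269634) (.g (nat_lit 1812) (.e (nat_lit 196352) (nat_lit 20) (.e (nat_lit 3253) (nat_lit 197) (.e (nat_lit 532523) (nat_lit 7) (.e (nat_lit 319535) (nat_lit 17) .nil)))) .nil)) 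
(.lf (nat_lit 269666) (.g (nat_lit 2070) (.e (nat_lit 188445) (nat_lit 21) (.e (nat_lit 164196) (nat_lit 158) (.e (nat_lit 1221) (nat_lit 90) (.e (nat_lit 81947) (nat_lit 20) (.e (nat_lit 1886) (nat_lit 127) .nil))))) .nil))) (.nd (nat_lit 5) 
(.lf (nat_lit 269650) (.g (nat_lit 1866) (.e (nat_lit 188444) (nat_lit 21) (.e (nat_lit 164182) (nat_lit 154) (.e (nat_lit 57385) (nat_lit 4) (.e (nat_lit 106536) (nat_lit 11) (.e (nat_lit 24320) (nat_lit 17) .nil))))) .nil)) 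
(.lf (nat_lit 269682) (.g (nat_lit 2156) (.e (nat_lit 188446) (nat_lit 21) (.e (nat_lit 164319) (nat_lit 228) (.e (nat_lit 57436) (nat_lit 17) (.e (nat_lit 376860) (nat_lit 21) (.e (nat_lit 57830) (nat_lit 250) (.e (nat_lit 7936) (nat_lit 166) .nil)))))) (.g (nat_lit 5) .nil .nil))))) (.nd (nat_lit 4) (.nd (nat_lit 5) 
(.lf (nat_lit 269642) (.g (nat_lit 593) (.e (nat_lit 196352) (nat_lit 20) (.e (nat_lit 3253) (nat_lit 197) (.e (nat_lit 532555) (nat_lit 13) .nil))) .nil)) 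
(.lf (nat_lit 269674) (.g (nat_lit 422) (.e (nat_lit 188446) (nat_lit 21) (.e (nat_lit 164196) (nat_lit 158) (.e (nat_lit 1221) (nat_lit 90) .nil))) .nil))) (.nd (nat_lit 5) 
(.lf (nat_lit 269658) (.g (nat_lit 2123) (.e (nat_lit 188444) (nat_lit 21) (.e (nat_lit 164196) (nat_lit 158) (.e (nat_lit 1221) (nat_lit 90) (.e (nat_lit 81938) (nat_lit 20) (.e (nat_lit 1885) (nat_lit 127) .nil))))) .nil)) 
(.lf (nat_lit 269690) (.g (nat_lit 1700) (.e (nat_lit 188447) (nat_lit 22) (.e (nat_lit 196630) (nat_lit 9) (.e (nat_lit 1485) (nat_lit 108) (.e (nat_lit 335995) (nat_lit 1) (.e (nat_lit 57872) (nat_lit 264) .nil))))) .nil))))) (.nd (nat_lit 3) (.nd (nat_lit 4) (.nd (nat_lit 5) 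
(.lf (nat_lit 269638) (.g (nat_lit 654) (.e (nat_lit 196352) (nat_lit 20) (.e (nat_lit 3253) (nat_lit 197) (.e (nat_lit 532536) (nat_lit 9) .nil))) .nil)) 
(.lf (nat_lit 269670) (.g (nat_lit 2221) (.e (nat_lit 188446) (nat_lit 21) (.e (nat_lit 164196) (nat_lit 158) (.e (nat_lit 1200) (nat_lit 88) (.e (nat_lit 65619) (nat_lit 10) (.e (nat_lit 344138) (nat_lit 29) (.e (nat_lit 581653) (nat_lit 6) .nil)))))) (.g (nat_lit 4) .nil .nil)))) (.nd (nat_lit 5) 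
(.lf (nat_lit 269654) (.g (nat_lit 1107) (.e (nat_lit 188444) (nat_lit 21) (.e (nat_lit 164196) (nat_lit 158) (.e (nat_lit 1219) (nat_lit 90) (.e (nat_lit 81935) (nat_lit 20) .nil)))) .nil)) 
(.lf (nat_lit 269686) (.g (nat_lit 1707) (.e (nat_lit 188446) (nat_lit 21) (.e (nat_lit 164319) (nat_lit 228) (.e (nat_lit 57437) (nat_lit 17) (.e (nat_lit 376860) (nat_lit 21) (.e (nat_lit 57832) (nat_lit 250) (.e (nat_lit 7936) (nat_lit 166) .nil)))))) (.g (nat_lit 4) .nil .nil))))) (.nd (nat_lit 4) (.nd (nat_lit 5) 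
(.lf (nat_lit 269646) (.g (nat_lit 1262) (.e (nat_lit 196352) (nat_lit 20) (.e (nat_lit 3302) (nat_lit 202) (.e (nat_lit 573471) (nat_lit 11) (.e (nat_lit 16458) (nat_lit 12) .nil)))) .nil)) 
(.lf (nat_lit 269678) (.g (nat_lit 1518) (.e (nat_lit 188446) (nat_lit 21) (.e (nat_lit 164196) (nat_lit 158) (.e (nat_lit 1221) (nat_lit 90) (.e (nat_lit 81931) (nat_lit 20) (.e (nat_lit 1879) (nat_lit 126) (.e (nat_lit 581376) (nat_lit 6) .nil)))))) (.g (nat_lit 4) .nil .nil)))) (.nd (nat_lit 5) 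
(.lf (nat_lit 269662) (.g (nat_lit 1493) (.e (nat_lit 188444) (nat_lit 21) (.e (nat_lit 164325) (nat_lit 230) (.e (nat_lit 163861) (nat_lit 1) (.e (nat_lit 164258) (nat_lit 215) .nil)))) .nil)) 
(.lf (nat_lit 269694) (.g (nat_lit 4182) (.e (nat_lit 188447) (nat_lit 22) (.e (nat_lit 196630) (nat_lit 9) (.e (nat_lit 1669) (nat_lit 116) (.e (nat_lit 401454) (nat_lit 12) (.e (nat_lit 475185) (nat_lit 29) (.e (nat_lit 557107) (nat_lit 15) .nil)))))) (.g (nat_lit 0) .nil .nil)))))))) (.nd (nat_lit 1) (.nd (nat_lit 2) (.nd (nat_lit 3) (.nd (nat_lit 4) (.nd (nat_lit 5) 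
(.lf (nat_lit 269633) (.g (nat_lit 2175) (.e (nat_lit 196352) (nat_lit 20) (.e (nat_lit 3253) (nat_lit 197) (.e (nat_lit 532523) (nat_lit 7) (.e (nat_lit 319532) (nat_lit 16) (.e (nat_lit 286733) (nat_lit 2) .nil))))) .nil)) 
(.lf (nat_lit 269665) (.g (nat_lit 1150) (.e (nat_lit 188445) (nat_lit 21) (.e (nat_lit 164196) (nat_lit 158) (.e (nat_lit 1221) (nat_lit 90) (.e (nat_lit 81938) (nat_lit 20) .nil)))) .nil))) (.nd (nat_lit 5) 
(.lf (nat_lit 269649) (.g (nat_lit 1381) (.e (nat_lit 188444) (nat_lit 21) (.e (nat_lit 164179) (nat_lit 154) (.e (nat_lit 57390) (nat_lit 5) (.e (nat_lit 122624) (nat_lit 11) .nil)))) .nil)) 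
(.lf (nat_lit 269681) (.g (nat_lit 2066) (.e (nat_lit 188446) (nat_lit 21) (.e (nat_lit 164196) (nat_lit 158) (.e (nat_lit 1221) (nat_lit 90) (.e (nat_lit 81947) (nat_lit 20) (.e (nat_lit 1886) (nat_lit 127) .nil))))) .nil)))) (.nd (nat_lit 4) (.nd (nat_lit 5) 
(.lf (nat_lit 269641) (.g (nat_lit 2690) (.e (nat_lit 196352) (nat_lit 20) (.e (nat_lit 3253) (nat_lit 197) (.e (nat_lit 532544) (nat_lit 10) (.e (nat_lit 344169) (nat_lit 40) (.e (nat_lit 671759) (nat_lit 3) .nil))))) .nil)) 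
(.lf (nat_lit 269673) (.g (nat_lit 1073) (.e (nat_lit 188446) (nat_lit 21) (.e (nat_lit 164196) (nat_lit 158) (.e (nat_lit 1219) (nat_lit 90) (.e (nat_lit 81943) (nat_lit 20) .nil)))) .nil))) (.nd (nat_lit 5) 
(.lf (nat_lit 269657) (.g (nat_lit 1750) (.e (nat_lit 188444) (nat_lit 21) (.e (nat_lit 164196) (nat_lit 158) (.e (nat_lit 1221) (nat_lit 90) (.e (nat_lit 81931) (nat_lit 20) (.e (nat_lit 1879) (nat_lit 126) (.e (nat_lit 581376) (nat_lit 6) .nil)))))) (.g (nat_lit 5) .nil .nil))) 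
(.lf (nat_lit 269689) (.g (nat_lit 2171) (.e (nat_lit 188447) (nat_lit 22) (.e (nat_lit 196630) (nat_lit 9) (.e (nat_lit 1401) (nat_lit 106) (.e (nat_lit 319531) (nat_lit 16) (.e (nat_lit 286733) (nat_lit 2) (.e (nat_lit 98048) (nat_lit 15) .nil)))))) (.g (nat_lit 4) .nil .nil)))))) (.nd (nat_lit 3) (.nd (nat_lit 4) (.nd (nat_lit 5) 
(.lf (nat_lit 269637) (.g (nat_lit 2163) (.e (nat_lit 196352) (nat_lit 20) (.e (nat_lit 3253) (nat_lit 197) (.e (nat_lit 532535) (nat_lit 9) (.e (nat_lit 335928) (nat_lit 0) .nil)))) .nil)) 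
(.lf (nat_lit 269669) (.g (nat_lit 1135) (.e (nat_lit 188446) (nat_lit 21) (.e (nat_lit 164196) (nat_lit 158) (.e (nat_lit 1199) (nat_lit 88) (.e (nat_lit 65617) (nat_lit 10) .nil)))) .nil))) (.nd (nat_lit 5) 
(.lf (nat_lit 269653) (.g (nat_lit 419) (.e (nat_lit 188444) (nat_lit 21) (.e (nat_lit 164196) (nat_lit 158) (.e (nat_lit 1219) (nat_lit 90) .nil))) .nil)) 
(.lf (nat_lit 269685) (.g (nat_lit 2065) (.e (nat_lit 188446) (nat_lit 21) (.e (nat_lit 164319) (nat_lit 228) (.e (nat_lit 57437) (nat_lit 17) (.e (nat_lit 376860) (nat_lit 21) (.e (nat_lit 57830) (nat_lit 250) (.e (nat_lit 7936) (nat_lit 166) .nil)))))) (.g (nat_lit 4) .nil .nil))))) (.nd (nat_lit 4) (.nd (nat_lit 5) 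
(.lf (nat_lit 269645) (.g (nat_lit 1831) (.e (nat_lit 196352) (nat_lit 20) (.e (nat_lit 3302) (nat_lit 202) (.e (nat_lit 573471) (nat_lit 11) (.e (nat_lit 16455) (nat_lit 12) .nil)))) .nil)) 
(.lf (nat_lit 269677) (.g (nat_lit 1477) (.e (nat_lit 188446) (nat_lit 21) (.e (nat_lit 164196) (nat_lit 158) (.e (nat_lit 1221) (nat_lit 90) (.e (nat_lit 81931) (nat_lit 20) (.e (nat_lit 1878) (nat_lit 126) (.e (nat_lit 581376) (nat_lit 6) .nil)))))) (.g (nat_lit 4) .nil .nil)))) (.nd (nat_lit 5) 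
(.lf (nat_lit 269661) (.g (nat_lit 1508) (.e (nat_lit 188444) (nat_lit 21) (.e (nat_lit 164305) (nat_lit 226) (.e (nat_lit 7936) (nat_lit 90) (.e (nat_lit 81938) (nat_lit 20) (.e (nat_lit 1963) (nat_lit 134) (.e (nat_lit 639001) (nat_lit 10) .nil)))))) (.g (nat_lit 4) .nil .nil))) 
(.lf (nat_lit 269693) (.g (nat_lit 2040) (.e (nat_lit 188447) (nat_lit 22) (.e (nat_lit 196630) (nat_lit 9) (.e (nat_lit 1669) (nat_lit 116) (.e (nat_lit 401452) (nat_lit 12) (.e (nat_lit 475184) (nat_lit 29) .nil))))) .nil)))))) (.nd (nat_lit 2) (.nd (nat_lit 3) (.nd (nat_lit 4) (.nd (nat_lit 5) 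
(.lf (nat_lit 269635) (.g (nat_lit 1977) (.e (nat_lit 196352) (nat_lit 20) (.e (nat_lit 3253) (nat_lit 197) (.e (nat_lit 532523) (nat_lit 7) (.e (nat_lit 319536) (nat_lit 17) .nil)))) .nil)) 
(.lf (nat_lit 269667) (.g (nat_lit 2466) (.e (nat_lit 188446) (nat_lit 21) (.e (nat_lit 164177) (nat_lit 154) (.e (nat_lit 57388) (nat_lit 5) (.e (nat_lit 114711) (nat_lit 21) (.e (nat_lit 57655) (nat_lit 152) (.e (nat_lit 1185) (nat_lit 87) (.e (nat_lit 57477) (nat_lit 28) (.e (nat_lit 557108) (nat_lit 15) .nil)))))))) (.g (nat_lit 4) .nil .nil)))) (.nd (nat_lit 5) 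
(.lf (nat_lit 269651) (.g (nat_lit 4234) (.e (nat_lit 188444) (nat_lit 21) (.e (nat_lit 164196) (nat_lit 158) (.e (nat_lit 1199) (nat_lit 88) (.e (nat_lit 65583) (nat_lit 7) (.e (nat_lit 319499) (nat_lit 10) (.e (nat_lit 618) (nat_lit 48) (.e (nat_lit 557109) (nat_lit 15) .nil))))))) (.g (nat_lit 7) .nil .nil))) 
(.lf (nat_lit 269683) (.g (nat_lit 1675) (.e (nat_lit 188446) (nat_lit 21) (.e (nat_lit 164319) (nat_lit 228) (.e (nat_lit 57436) (nat_lit 17) (.e (nat_lit 376860) (nat_lit 21) (.e (nat_lit 57832) (nat_lit 250) .nil))))) .nil)))) (.nd (nat_lit 4) (.nd (nat_lit 5) 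
(.lf (nat_lit 269643) (.g (nat_lit 654) (.e (nat_lit 196352) (nat_lit 20) (.e (nat_lit 3253) (nat_lit 197) (.e (nat_lit 532567) (nat_lit 16) .nil))) .nil)) 
(.lf (nat_lit 269675) (.g (nat_lit 1185) (.e (nat_lit 188446) (nat_lit 21) (.e (nat_lit 164196) (nat_lit 158) (.e (nat_lit 1221) (nat_lit 90) (.e (nat_lit 89856) (nat_lit 7) .nil)))) .nil))) (.nd (nat_lit 5) 
(.lf (nat_lit 269659) (.g (nat_lit 2051) (.e (nat_lit 188444) (nat_lit 21) (.e (nat_lit 164196) (nat_lit 158) (.e (nat_lit 1221) (nat_lit 90) (.e (nat_lit 81947) (nat_lit 20) (.e (nat_lit 1886) (nat_lit 127) .nil))))) .nil)) 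
(.lf (nat_lit 269691) (.g (nat_lit 3611) (.e (nat_lit 188447) (nat_lit 22) (.e (nat_lit 196630) (nat_lit 9) (.e (nat_lit 1642) (nat_lit 114) (.e (nat_lit 385094) (nat_lit 49) (.e (nat_lit 778317) (nat_lit 3) (.e (nat_lit 57477) (nat_lit 28) (.e (nat_lit 557107) (nat_lit 15) .nil))))))) (.g (nat_lit 5) .nil .nil)))))) (.nd (nat_lit 3) (.nd (nat_lit 4) (.nd (nat_lit 5) 
(.lf (nat_lit 269639) (.g (nat_lit 2086) (.e (nat_lit 196352) (nat_lit 20) (.e (nat_lit 3253) (nat_lit 197) (.e (nat_lit 532542) (nat_lit 9) (.e (nat_lit 335995) (nat_lit 1) (.e (nat_lit 57872) (nat_lit 264) .nil))))) .nil)) 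
(.lf (nat_lit 269671) (.g (nat_lit 409) (.e (nat_lit 188446) (nat_lit 21) (.e (nat_lit 164196) (nat_lit 158) (.e (nat_lit 1219) (nat_lit 90) .nil))) .nil))) (.nd (nat_lit 5) 
(.lf (nat_lit 269655) (.g (nat_lit 415) (.e (nat_lit 188444) (nat_lit 21) (.e (nat_lit 164196) (nat_lit 158) (.e (nat_lit 1221) (nat_lit 90) .nil))) .nil)) 
(.lf (nat_lit 269687) (.g (nat_lit 717) (.e (nat_lit 188447) (nat_lit 22) (.e (nat_lit 196624) (nat_lit 9) (.e (nat_lit 1645) (nat_lit 114) .nil))) .nil)))) (.nd (nat_lit 4) (.nd (nat_lit 5) 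
(.lf (nat_lit 269647) (.g (nat_lit 3746) (.e (nat_lit 188444) (nat_lit 21) (.e (nat_lit 164122) (nat_lit 128) (.e (nat_lit 1126) (nat_lit 83) (.e (nat_lit 16473) (nat_lit 14) (.e (nat_lit 491535) (nat_lit 2) (.e (nat_lit 90176) (nat_lit 15) .nil)))))) (.g (nat_lit 6) .nil .nil))) 
(.lf (nat_lit 269679) (.g (nat_lit 2150) (.e (nat_lit 188446) (nat_lit 21) (.e (nat_lit 164196) (nat_lit 158) (.e (nat_lit 1221) (nat_lit 90) (.e (nat_lit 81938) (nat_lit 20) (.e (nat_lit 1885) (nat_lit 127) .nil))))) .nil))) (.nd (nat_lit 5) 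
(.lf (nat_lit 269663) (.g (nat_lit 762) (.e (nat_lit 188445) (nat_lit 21) (.e (nat_lit 164195) (nat_lit 158) (.e (nat_lit 1221) (nat_lit 90) (.e (nat_lit 81938) (nat_lit 20) .nil)))) .nil)) 
(.lf (nat_lit 269695) (.g (nat_lit 2698) (.e (nat_lit 188447) (nat_lit 22) (.e (nat_lit 196661) (nat_lit 12) (.e (nat_lit 57712) (nat_lit 176) (.e (nat_lit 1361) (nat_lit 102) (.e (nat_lit 286733) (nat_lit 2) (.e (nat_lit 90177) (nat_lit 15) .nil)))))) (.g (nat_lit 0) .nil .nil)))))))))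

noncomputable def tv3463 : DT := (.nd (nat_lit 0) (.nd (nat_lit 1) (.nd (nat_lit 2) (.nd (nat_lit 3) (.nd (nat_lit 4) (.nd (nat_lit 5) (.nd (nat_lit 6) 
(.lf (nat_lit 269696) (.g (nat_lit 2798) (.e (nat_lit 188447) (nat_lit 22) (.e (nat_lit 196661) (nat_lit 12) (.e (nat_lit 57712) (nat_lit 176) (.e (nat_lit 1370) (nat_lit 103) (.e (nat_lit 294926) (nat_lit 2) (.e (nat_lit 90176) (nat_lit 15) .nil)))))) (.g (nat_lit 0) .nil .nil))) 
(.lf (nat_lit 269760) (.g (nat_lit 3428) (.e (nat_lit 188450) (nat_lit 23) (.e (nat_lit 204852) (nat_lit 26) (.e (nat_lit 336301) (nat_lit 15) (.e (nat_lit 3631) (nat_lit 227) (.e (nat_lit 778317) (nat_lit 3) (.e (nat_lit 57476) (nat_lit 28) (.e (nat_lit 557107) (nat_lit 15) .nil))))))) (.g (nat_lit 5) .nil .nil)))) (.nd (nat_lit 6) 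
(.lf (nat_lit 269728) (.g (nat_lit 2248) (.e (nat_lit 188449) (nat_lit 22) (.e (nat_lit 196630) (nat_lit 9) (.e (nat_lit 1669) (nat_lit 116) (.e (nat_lit 401437) (nat_lit 9) (.e (nat_lit 426392) (nat_lit 15) .nil))))) .nil)) 
(.lf (nat_lit 269792) (.g (nat_lit 2032) (.e (nat_lit 188450) (nat_lit 23) (.e (nat_lit 204863) (nat_lit 27) (.e (nat_lit 344169) (nat_lit 40) (.e (nat_lit 671748) (nat_lit 0) .nil)))) .nil)))) (.nd (nat_lit 5) (.nd (nat_lit 6) 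
(.lf (nat_lit 269712) (.g (nat_lit 1241) (.e (nat_lit 188448) (nat_lit 22) (.e (nat_lit 196656) (nat_lit 11) (.e (nat_lit 16396) (nat_lit 0) .nil))) .nil)) 
(.lf (nat_lit 269776) (.g (nat_lit 1429) (.e (nat_lit 188450) (nat_lit 23) (.e (nat_lit 204861) (nat_lit 26) (.e (nat_lit 335988) (nat_lit 1) (.e (nat_lit 57927) (nat_lit 282) .nil)))) .nil))) (.nd (nat_lit 6) 
(.lf (nat_lit 269744) (.g (nat_lit 1105) (.e (nat_lit 188450) (nat_lit 23) (.e (nat_lit 204816) (nat_lit 17) (.e (nat_lit 6712) (nat_lit 360) (.e (nat_lit 171776) (nat_lit 187) .nil)))) .nil)) 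
(.lf (nat_lit 269808) (.g (nat_lit 1520) (.e (nat_lit 188450) (nat_lit 23) (.e (nat_lit 204880) (nat_lit 32) (.e (nat_lit 385053) (nat_lit 21) .nil))) .nil))))) (.nd (nat_lit 4) (.nd (nat_lit 5) (.nd (nat_lit 6) 
(.lf (nat_lit 269704) (.g (nat_lit 1101) (.e (nat_lit 188447) (nat_lit 22) (.e (nat_lit 196681) (nat_lit 17) (.e (nat_lit 131077) (nat_lit 0) .nil))) .nil)) 
(.lf (nat_lit 269768) (.g (nat_lit 2365) (.e (nat_lit 188450) (nat_lit 23) (.e (nat_lit 204857) (nat_lit 26) (.e (nat_lit 336295) (nat_lit 15) (.e (nat_lit 3632) (nat_lit 227) (.e (nat_lit 778317) (nat_lit 3) .nil))))) .nil))) (.nd (nat_lit 6) 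
(.lf (nat_lit 269736) (.g (nat_lit 3075) (.e (nat_lit 188449) (nat_lit 22) (.e (nat_lit 196666) (nat_lit 13) (.e (nat_lit 65642) (nat_lit 15) (.e (nat_lit 3747) (nat_lit 228) (.e (nat_lit 786450) (nat_lit 15) (.e (nat_lit 1853) (nat_lit 124) (.e (nat_lit 557108) (nat_lit 15) .nil))))))) (.g (nat_lit 5) .nil .nil))) 
(.lf (nat_lit 269800) (.g (nat_lit 1541) (.e (nat_lit 188450) (nat_lit 23) (.e (nat_lit 204880) (nat_lit 32) (.e (nat_lit 385044) (nat_lit 21) .nil))) .nil)))) (.nd (nat_lit 5) (.nd (nat_lit 6) 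
(.lf (nat_lit 269720) (.g (nat_lit 1121) (.e (nat_lit 188448) (nat_lit 22) (.e (nat_lit 196681) (nat_lit 17) (.e (nat_lit 131086) (nat_lit 1) .nil))) .nil)) 
(.lf (nat_lit 269784) (.g (nat_lit 1840) (.e (nat_lit 188450) (nat_lit 23) (.e (nat_lit 204862) (nat_lit 27) (.e (nat_lit 344160) (nat_lit 37) (.e (nat_lit 647181) (nat_lit 3) (.e (nat_lit 171776) (nat_lit 28) .nil))))) .nil))) (.nd (nat_lit 6) 
(.lf (nat_lit 269752) (.g (nat_lit 378) (.e (nat_lit 188450) (nat_lit 23) (.e (nat_lit 204845) (nat_lit 24) (.e (nat_lit 319533) (nat_lit 16) .nil))) .nil)) 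
(.lf (nat_lit 269816) (.g (nat_lit 1509) (.e (nat_lit 188450) (nat_lit 23) (.e (nat_lit 204880) (nat_lit 32) (.e (nat_lit 385115) (nat_lit 53) .nil))) .nil)))))) (.nd (nat_lit 3) (.nd (nat_lit 4) (.nd (nat_lit 5) (.nd (nat_lit 6) 
(.lf (nat_lit 269700) (.g (nat_lit 991) (.e (nat_lit 188447) (nat_lit 22) (.e (nat_lit 196666) (nat_lit 13) (.e (nat_lit 65559) (nat_lit 0) .nil))) .nil)) 
(.lf (nat_lit 269764) (.g (nat_lit 1771) (.e (nat_lit 188450) (nat_lit 23) (.e (nat_lit 204854) (nat_lit 26) (.e (nat_lit 336240) (nat_lit 15) (.e (nat_lit 2431) (nat_lit 157) .nil)))) .nil))) (.nd (nat_lit 6) 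
(.lf (nat_lit 269732) (.g (nat_lit 954) (.e (nat_lit 188449) (nat_lit 22) (.e (nat_lit 196666) (nat_lit 13) (.e (nat_lit 65547) (nat_lit 0) .nil))) .nil)) 
(.lf (nat_lit 269796) (.g (nat_lit 1456) (.e (nat_lit 188450) (nat_lit 23) (.e (nat_lit 204873) (nat_lit 30) (.e (nat_lit 368662) (nat_lit 18) (.e (nat_lit 5907) (nat_lit 320) (.e (nat_lit 1171) (nat_lit 87) .nil))))) .nil)))) (.nd (nat_lit 5) (.nd (nat_lit 6) 
(.lf (nat_lit 269716) (.g (nat_lit 598) (.e (nat_lit 188448) (nat_lit 22) (.e (nat_lit 196668) (nat_lit 14) (.e (nat_lit 73733) (nat_lit 0) .nil))) .nil)) 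
(.lf (nat_lit 269780) (.g (nat_lit 866) (.e (nat_lit 188450) (nat_lit 23) (.e (nat_lit 204861) (nat_lit 26) (.e (nat_lit 336033) (nat_lit 4) .nil))) .nil))) (.nd (nat_lit 6) 
(.lf (nat_lit 269748) (.g (nat_lit 747) (.e (nat_lit 188450) (nat_lit 23) (.e (nat_lit 204830) (nat_lit 18) (.e (nat_lit 57762) (nat_lit 215) .nil))) .nil)) 
(.lf (nat_lit 269812) (.g (nat_lit 1163) (.e (nat_lit 188450) (nat_lit 23) (.e (nat_lit 204880) (nat_lit 32) (.e (nat_lit 385104) (nat_lit 50) .nil))) .nil))))) (.nd (nat_lit 4) (.nd (nat_lit 5) (.nd (nat_lit 6) 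
(.lf (nat_lit 269708) (.g (nat_lit 1278) (.e (nat_lit 188447) (nat_lit 22) (.e (nat_lit 196681) (nat_lit 17) (.e (nat_lit 131099) (nat_lit 4) .nil))) .nil)) 
(.lf (nat_lit 269772) (.g (nat_lit 782) (.e (nat_lit 188450) (nat_lit 23) (.e (nat_lit 204861) (nat_lit 26) (.e (nat_lit 335892) (nat_lit 0) .nil))) .nil))) (.nd (nat_lit 6) 
(.lf (nat_lit 269740) (.g (nat_lit 1012) (.e (nat_lit 196352) (nat_lit 22) (.e (nat_lit 196666) (nat_lit 13) (.e (nat_lit 65553) (nat_lit 0) .nil))) .nil)) 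
(.lf (nat_lit 269804) (.g (nat_lit 1476) (.e (nat_lit 188450) (nat_lit 23) (.e (nat_lit 204880) (nat_lit 32) (.e (nat_lit 385048) (nat_lit 21) .nil))) .nil)))) (.nd (nat_lit 5) (.nd (nat_lit 6) 
(.lf (nat_lit 269724) (.g (nat_lit 2318) (.e (nat_lit 188449) (nat_lit 22) (.e (nat_lit 204544) (nat_lit 2) (.e (nat_lit 24617) (nat_lit 7) (.e (nat_lit 319505) (nat_lit 10) (.e (nat_lit 730) (nat_lit 66) (.e (nat_lit 704598) (nat_lit 6) .nil)))))) (.g (nat_lit 4) .nil .nil))) 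
(.lf (nat_lit 269788) (.g (nat_lit 906) (.e (nat_lit 188450) (nat_lit 23) (.e (nat_lit 204863) (nat_lit 27) (.e (nat_lit 344092) (nat_lit 18) (.e (nat_lit 5604) (nat_lit 310) .nil)))) .nil))) (.nd (nat_lit 6) 
(.lf (nat_lit 269756) (.g (nat_lit 982) (.e (nat_lit 188450) (nat_lit 23) (.e (nat_lit 204846) (nat_lit 24) (.e (nat_lit 319515) (nat_lit 11) .nil))) .nil)) 
(.lf (nat_lit 269820) (.g (nat_lit 5204) (.e (nat_lit 188450) (nat_lit 23) (.e (nat_lit 204882) (nat_lit 32) (.e (nat_lit 385094) (nat_lit 49) (.e (nat_lit 778317) (nat_lit 3) (.e (nat_lit 57480) (nat_lit 28) (.e (nat_lit 557109) (nat_lit 15) .nil)))))) (.g (nat_lit 0) .nil .nil)))))))) (.nd (nat_lit 2) (.nd (nat_lit 3) (.nd (nat_lit 4) (.nd (nat_lit 5) (.nd (nat_lit 6) 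
(.lf (nat_lit 269698) (.g (nat_lit 960) (.e (nat_lit 188447) (nat_lit 22) (.e (nat_lit 196666) (nat_lit 13) (.e (nat_lit 65552) (nat_lit 0) .nil))) .nil)) 
(.lf (nat_lit 269762) (.g (nat_lit 2136) (.e (nat_lit 188450) (nat_lit 23) (.e (nat_lit 204854) (nat_lit 26) (.e (nat_lit 336000) (nat_lit 1) (.e (nat_lit 57873) (nat_lit 264) (.e (nat_lit 1181) (nat_lit 87) .nil))))) .nil))) (.nd (nat_lit 6) 
(.lf (nat_lit 269730) (.g (nat_lit 1173) (.e (nat_lit 188449) (nat_lit 22) (.e (nat_lit 196666) (nat_lit 13) (.e (nat_lit 65544) (nat_lit 0) (.e (nat_lit 2000) (nat_lit 138) .nil)))) .nil)) 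
(.lf (nat_lit 269794) (.g (nat_lit 2128) (.e (nat_lit 188450) (nat_lit 23) (.e (nat_lit 204863) (nat_lit 27) (.e (nat_lit 344169) (nat_lit 40) (.e (nat_lit 671765) (nat_lit 7) .nil)))) .nil)))) (.nd (nat_lit 5) (.nd (nat_lit 6) 
(.lf (nat_lit 269714) (.g (nat_lit 1241) (.e (nat_lit 188448) (nat_lit 22) (.e (nat_lit 196656) (nat_lit 11) (.e (nat_lit 16397) (nat_lit 0) .nil))) .nil)) 
(.lf (nat_lit 269778) (.g (nat_lit 1641) (.e (nat_lit 188450) (nat_lit 23) (.e (nat_lit 204861) (nat_lit 26) (.e (nat_lit 335995) (nat_lit 1) (.e (nat_lit 57873) (nat_lit 264) .nil)))) .nil))) (.nd (nat_lit 6) 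
(.lf (nat_lit 269746) (.g (nat_lit 1456) (.e (nat_lit 188450) (nat_lit 23) (.e (nat_lit 204819) (nat_lit 17) (.e (nat_lit 6113) (nat_lit 332) (.e (nat_lit 968) (nat_lit 81) .nil)))) .nil)) 
(.lf (nat_lit 269810) (.g (nat_lit 861) (.e (nat_lit 188450) (nat_lit 23) (.e (nat_lit 204880) (nat_lit 32) (.e (nat_lit 385087) (nat_lit 46) .nil))) .nil))))) (.nd (nat_lit 4) (.nd (nat_lit 5) (.nd (nat_lit 6) 
(.lf (nat_lit 269706) (.g (nat_lit 724) (.e (nat_lit 188447) (nat_lit 22) (.e (nat_lit 196681) (nat_lit 17) (.e (nat_lit 131088) (nat_lit 1) .nil))) .nil)) 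
(.lf (nat_lit 269770) (.g (nat_lit 1863) (.e (nat_lit 188450) (nat_lit 23) (.e (nat_lit 204859) (nat_lit 26) (.e (nat_lit 335998) (nat_lit 1) (.e (nat_lit 57873) (nat_lit 264) (.e (nat_lit 1172) (nat_lit 87) .nil))))) .nil))) (.nd (nat_lit 6) 
(.lf (nat_lit 269738) (.g (nat_lit 1257) (.e (nat_lit 188449) (nat_lit 22) (.e (nat_lit 196681) (nat_lit 17) (.e (nat_lit 131099) (nat_lit 4) .nil))) .nil)) 
(.lf (nat_lit 269802) (.g (nat_lit 1489) (.e (nat_lit 188450) (nat_lit 23) (.e (nat_lit 204880) (nat_lit 32) (.e (nat_lit 385046) (nat_lit 21) .nil))) .nil)))) (.nd (nat_lit 5) (.nd (nat_lit 6) 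
(.lf (nat_lit 269722) (.g (nat_lit 1085) (.e (nat_lit 188448) (nat_lit 22) (.e (nat_lit 196681) (nat_lit 17) (.e (nat_lit 131088) (nat_lit 1) .nil))) .nil)) 
(.lf (nat_lit 269786) (.g (nat_lit 530) (.e (nat_lit 188450) (nat_lit 23) (.e (nat_lit 204862) (nat_lit 27) (.e (nat_lit 344164) (nat_lit 37) .nil))) .nil))) (.nd (nat_lit 6) 
(.lf (nat_lit 269754) (.g (nat_lit 2540) (.e (nat_lit 188450) (nat_lit 23) (.e (nat_lit 204845) (nat_lit 24) (.e (nat_lit 319539) (nat_lit 19) (.e (nat_lit 311348) (nat_lit 15) (.e (nat_lit 1859) (nat_lit 124) (.e (nat_lit 557107) (nat_lit 15) .nil)))))) (.g (nat_lit 0) .nil .nil))) 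
(.lf (nat_lit 269818) (.g (nat_lit 2646) (.e (nat_lit 188450) (nat_lit 23) (.e (nat_lit 204882) (nat_lit 32) (.e (nat_lit 385093) (nat_lit 49) (.e (nat_lit 778317) (nat_lit 3) (.e (nat_lit 57476) (nat_lit 28) (.e (nat_lit 557108) (nat_lit 15) .nil)))))) (.g (nat_lit 4) .nil .nil))))))) (.nd (nat_lit 3) (.nd (nat_lit 4) (.nd (nat_lit 5) (.nd (nat_lit 6) 
(.lf (nat_lit 269702) (.g (nat_lit 572) (.e (nat_lit 188447) (nat_lit 22) (.e (nat_lit 196668) (nat_lit 14) (.e (nat_lit 73728) (nat_lit 0) .nil))) .nil)) 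
(.lf (nat_lit 269766) (.g (nat_lit 1473) (.e (nat_lit 188450) (nat_lit 23) (.e (nat_lit 204854) (nat_lit 26) (.e (nat_lit 336306) (nat_lit 15) (.e (nat_lit 2422) (nat_lit 157) .nil)))) .nil))) (.nd (nat_lit 6) 
(.lf (nat_lit 269734) (.g (nat_lit 308) (.e (nat_lit 188449) (nat_lit 22) (.e (nat_lit 196666) (nat_lit 13) (.e (nat_lit 65572) (nat_lit 4) .nil))) .nil)) 
(.lf (nat_lit 269798) (.g (nat_lit 4620) (.e (nat_lit 188450) (nat_lit 23) (.e (nat_lit 204879) (nat_lit 32) (.e (nat_lit 385094) (nat_lit 49) (.e (nat_lit 778317) (nat_lit 3) (.e (nat_lit 57480) (nat_lit 28) (.e (nat_lit 557109) (nat_lit 15) .nil)))))) (.g (nat_lit 0) .nil .nil))))) (.nd (nat_lit 5) (.nd (nat_lit 6) 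
(.lf (nat_lit 269718) (.g (nat_lit 642) (.e (nat_lit 188448) (nat_lit 22) (.e (nat_lit 196670) (nat_lit 14) (.e (nat_lit 73732) (nat_lit 0) .nil))) .nil)) 
(.lf (nat_lit 269782) (.g (nat_lit 1990) (.e (nat_lit 188450) (nat_lit 23) (.e (nat_lit 204862) (nat_lit 27) (.e (nat_lit 344097) (nat_lit 18) (.e (nat_lit 5907) (nat_lit 320) (.e (nat_lit 1171) (nat_lit 87) .nil))))) .nil))) (.nd (nat_lit 6) 
(.lf (nat_lit 269750) (.g (nat_lit 752) (.e (nat_lit 188450) (nat_lit 23) (.e (nat_lit 204845) (nat_lit 24) (.e (nat_lit 319516) (nat_lit 11) (.e (nat_lit 16128) (nat_lit 152) .nil)))) .nil)) 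
(.lf (nat_lit 269814) (.g (nat_lit 1477) (.e (nat_lit 188450) (nat_lit 23) (.e (nat_lit 204880) (nat_lit 32) (.e (nat_lit 385113) (nat_lit 53) .nil))) .nil))))) (.nd (nat_lit 4) (.nd (nat_lit 5) (.nd (nat_lit 6) 
(.lf (nat_lit 269710) (.g (nat_lit 3435) (.e (nat_lit 188448) (nat_lit 22) (.e (nat_lit 196625) (nat_lit 9) (.e (nat_lit 1401) (nat_lit 106) (.e (nat_lit 319531) (nat_lit 16) (.e (nat_lit 286733) (nat_lit 2) (.e (nat_lit 90178) (nat_lit 15) .nil)))))) (.g (nat_lit 6) .nil .nil))) 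
(.lf (nat_lit 269774) (.g (nat_lit 1712) (.e (nat_lit 188450) (nat_lit 23) (.e (nat_lit 204861) (nat_lit 26) (.e (nat_lit 335986) (nat_lit 1) (.e (nat_lit 57871) (nat_lit 264) .nil)))) .nil))) (.nd (nat_lit 6) 
(.lf (nat_lit 269742) (.g (nat_lit 865) (.e (nat_lit 188450) (nat_lit 23) (.e (nat_lit 204815) (nat_lit 17) (.e (nat_lit 6712) (nat_lit 360) (.e (nat_lit 171776) (nat_lit 187) .nil)))) .nil)) 
(.lf (nat_lit 269806) (.g (nat_lit 1496) (.e (nat_lit 188450) (nat_lit 23) (.e (nat_lit 204880) (nat_lit 32) (.e (nat_lit 385051) (nat_lit 21) .nil))) .nil)))) (.nd (nat_lit 5) (.nd (nat_lit 6) 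
(.lf (nat_lit 269726) (.g (nat_lit 464) (.e (nat_lit 188449) (nat_lit 22) (.e (nat_lit 196630) (nat_lit 9) (.e (nat_lit 1393) (nat_lit 106) .nil))) .nil)) 
(.lf (nat_lit 269790) (.g (nat_lit 850) (.e (nat_lit 188450) (nat_lit 23) (.e (nat_lit 204863) (nat_lit 27) (.e (nat_lit 344159) (nat_lit 37) (.e (nat_lit 647181) (nat_lit 3) .nil)))) .nil))) (.nd (nat_lit 6) 
(.lf (nat_lit 269758) (.g (nat_lit 557) (.e (nat_lit 188450) (nat_lit 23) (.e (nat_lit 204852) (nat_lit 26) (.e (nat_lit 336257) (nat_lit 15) .nil))) .nil)) 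
(.lf (nat_lit 269822) (.g (nat_lit 613) (.e (nat_lit 188450) (nat_lit 23) (.e (nat_lit 204882) (nat_lit 32) (.e (nat_lit 385102) (nat_lit 50) .nil))) .nil)))))))) (.nd (nat_lit 1) (.nd (nat_lit 2) (.nd (nat_lit 3) (.nd (nat_lit 4) (.nd (nat_lit 5) (.nd (nat_lit 6) 
(.lf (nat_lit 269697) (.g (nat_lit 409) (.e (nat_lit 188447) (nat_lit 22) (.e (nat_lit 196666) (nat_lit 13) (.e (nat_lit 65546) (nat_lit 0) .nil))) .nil)) 
(.lf (nat_lit 269761) (.g (nat_lit 1155) (.e (nat_lit 188450) (nat_lit 23) (.e (nat_lit 204854) (nat_lit 26) (.e (nat_lit 336000) (nat_lit 1) .nil))) .nil))) (.nd (nat_lit 6) 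
(.lf (nat_lit 269729) (.g (nat_lit 1440) (.e (nat_lit 188449) (nat_lit 22) (.e (nat_lit 196661) (nat_lit 12) (.e (nat_lit 57712) (nat_lit 176) (.e (nat_lit 1361) (nat_lit 102) (.e (nat_lit 286722) (nat_lit 0) (.e (nat_lit 1691) (nat_lit 117) (.e (nat_lit 499929) (nat_lit 11) .nil))))))) (.g (nat_lit 5) .nil .nil))) 
(.lf (nat_lit 269793) (.g (nat_lit 5112) (.e (nat_lit 188450) (nat_lit 23) (.e (nat_lit 204863) (nat_lit 27) (.e (nat_lit 344169) (nat_lit 40) (.e (nat_lit 671759) (nat_lit 3) (.e (nat_lit 57479) (nat_lit 28) (.e (nat_lit 557106) (nat_lit 15) .nil)))))) (.g (nat_lit 6) .nil .nil))))) (.nd (nat_lit 5) (.nd (nat_lit 6) 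
(.lf (nat_lit 269713) (.g (nat_lit 1977) (.e (nat_lit 188448) (nat_lit 22) (.e (nat_lit 196656) (nat_lit 11) (.e (nat_lit 16396) (nat_lit 0) (.e (nat_lit 3391) (nat_lit 210) .nil)))) .nil)) 
(.lf (nat_lit 269777) (.g (nat_lit 1558) (.e (nat_lit 188450) (nat_lit 23) (.e (nat_lit 204861) (nat_lit 26) (.e (nat_lit 335995) (nat_lit 1) (.e (nat_lit 57872) (nat_lit 264) .nil)))) .nil))) (.nd (nat_lit 6) 
(.lf (nat_lit 269745) (.g (nat_lit 185) (.e (nat_lit 188450) (nat_lit 23) (.e (nat_lit 204817) (nat_lit 17) (.e (nat_lit 7936) (nat_lit 153) .nil))) .nil)) 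
(.lf (nat_lit 269809) (.g (nat_lit 1543) (.e (nat_lit 188450) (nat_lit 23) (.e (nat_lit 204880) (nat_lit 32) (.e (nat_lit 385054) (nat_lit 21) .nil))) .nil))))) (.nd (nat_lit 4) (.nd (nat_lit 5) (.nd (nat_lit 6) 
(.lf (nat_lit 269705) (.g (nat_lit 1266) (.e (nat_lit 188447) (nat_lit 22) (.e (nat_lit 196681) (nat_lit 17) (.e (nat_lit 131077) (nat_lit 0) (.e (nat_lit 1936) (nat_lit 132) .nil)))) .nil)) 
(.lf (nat_lit 269769) (.g (nat_lit 554) (.e (nat_lit 188450) (nat_lit 23) (.e (nat_lit 204859) (nat_lit 26) (.e (nat_lit 335879) (nat_lit 0) .nil))) .nil))) (.nd (nat_lit 6) 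
(.lf (nat_lit 269737) (.g (nat_lit 1484) (.e (nat_lit 188449) (nat_lit 22) (.e (nat_lit 196670) (nat_lit 14) (.e (nat_lit 73729) (nat_lit 0) (.e (nat_lit 7936) (nat_lit 283) .nil)))) .nil)) 
(.lf (nat_lit 269801) (.g (nat_lit 1542) (.e (nat_lit 188450) (nat_lit 23) (.e (nat_lit 204880) (nat_lit 32) (.e (nat_lit 385045) (nat_lit 21) .nil))) .nil)))) (.nd (nat_lit 5) (.nd (nat_lit 6) 
(.lf (nat_lit 269721) (.g (nat_lit 1345) (.e (nat_lit 188448) (nat_lit 22) (.e (nat_lit 196681) (nat_lit 17) (.e (nat_lit 131086) (nat_lit 1) (.e (nat_lit 57873) (nat_lit 264) .nil)))) .nil)) 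
(.lf (nat_lit 269785) (.g (nat_lit 543) (.e (nat_lit 188450) (nat_lit 23) (.e (nat_lit 204862) (nat_lit 27) (.e (nat_lit 344161) (nat_lit 37) .nil))) .nil))) (.nd (nat_lit 6) 
(.lf (nat_lit 269753) (.g (nat_lit 942) (.e (nat_lit 188450) (nat_lit 23) (.e (nat_lit 204845) (nat_lit 24) (.e (nat_lit 319538) (nat_lit 19) (.e (nat_lit 311348) (nat_lit 15) .nil)))) .nil)) 
(.lf (nat_lit 269817) (.g (nat_lit 606) (.e (nat_lit 188450) (nat_lit 23) (.e (nat_lit 204882) (nat_lit 32) (.e (nat_lit 385047) (nat_lit 21) .nil))) .nil)))))) (.nd (nat_lit 3) (.nd (nat_lit 4) (.nd (nat_lit 5) (.nd (nat_lit 6) 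
(.lf (nat_lit 269701) (.g (nat_lit 681) (.e (nat_lit 188447) (nat_lit 22) (.e (nat_lit 196667) (nat_lit 14) (.e (nat_lit 73729) (nat_lit 0) (.e (nat_lit 7936) (nat_lit 283) .nil)))) .nil)) 
(.lf (nat_lit 269765) (.g (nat_lit 1106) (.e (nat_lit 188450) (nat_lit 23) (.e (nat_lit 204854) (nat_lit 26) (.e (nat_lit 336260) (nat_lit 15) .nil))) .nil))) (.nd (nat_lit 6) 
(.lf (nat_lit 269733) (.g (nat_lit 711) (.e (nat_lit 188449) (nat_lit 22) (.e (nat_lit 196666) (nat_lit 13) (.e (nat_lit 65550) (nat_lit 0) .nil))) .nil)) 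
(.lf (nat_lit 269797) (.g (nat_lit 145) (.e (nat_lit 188450) (nat_lit 23) (.e (nat_lit 204873) (nat_lit 30) (.e (nat_lit 368689) (nat_lit 34) .nil))) .nil)))) (.nd (nat_lit 5) (.nd (nat_lit 6) 
(.lf (nat_lit 269717) (.g (nat_lit 1580) (.e (nat_lit 188448) (nat_lit 22) (.e (nat_lit 196670) (nat_lit 14) (.e (nat_lit 73729) (nat_lit 0) (.e (nat_lit 7936) (nat_lit 283) .nil)))) .nil)) 
(.lf (nat_lit 269781) (.g (nat_lit 2417) (.e (nat_lit 188450) (nat_lit 23) (.e (nat_lit 204862) (nat_lit 27) (.e (nat_lit 344097) (nat_lit 18) (.e (nat_lit 5905) (nat_lit 320) (.e (nat_lit 1172) (nat_lit 87) (.e (nat_lit 57476) (nat_lit 28) (.e (nat_lit 557107) (nat_lit 15) .nil))))))) (.g (nat_lit 4) .nil .nil)))) (.nd (nat_lit 6) 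
(.lf (nat_lit 269749) (.g (nat_lit 825) (.e (nat_lit 188450) (nat_lit 23) (.e (nat_lit 204831) (nat_lit 18) (.e (nat_lit 57777) (nat_lit 233) .nil))) .nil)) 
(.lf (nat_lit 269813) (.g (nat_lit 1612) (.e (nat_lit 188450) (nat_lit 23) (.e (nat_lit 204880) (nat_lit 32) (.e (nat_lit 385105) (nat_lit 50) (.e (nat_lit 786444) (nat_lit 15) .nil)))) .nil))))) (.nd (nat_lit 4) (.nd (nat_lit 5) (.nd (nat_lit 6) 
(.lf (nat_lit 269709) (.g (nat_lit 876) (.e (nat_lit 188448) (nat_lit 22) (.e (nat_lit 196624) (nat_lit 9) (.e (nat_lit 1392) (nat_lit 106) .nil))) .nil)) 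
(.lf (nat_lit 269773) (.g (nat_lit 725) (.e (nat_lit 188450) (nat_lit 23) (.e (nat_lit 204861) (nat_lit 26) (.e (nat_lit 335986) (nat_lit 1) .nil))) .nil))) (.nd (nat_lit 6) 
(.lf (nat_lit 269741) (.g (nat_lit 1081) (.e (nat_lit 196352) (nat_lit 22) (.e (nat_lit 196681) (nat_lit 17) (.e (nat_lit 131077) (nat_lit 0) .nil))) .nil)) 
(.lf (nat_lit 269805) (.g (nat_lit 1543) (.e (nat_lit 188450) (nat_lit 23) (.e (nat_lit 204880) (nat_lit 32) (.e (nat_lit 385050) (nat_lit 21) .nil))) .nil)))) (.nd (nat_lit 5) (.nd (nat_lit 6) 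
(.lf (nat_lit 269725) (.g (nat_lit 3933) (.e (nat_lit 188449) (nat_lit 22) (.e (nat_lit 196628) (nat_lit 9) (.e (nat_lit 1676) (nat_lit 116) (.e (nat_lit 401454) (nat_lit 12) (.e (nat_lit 475185) (nat_lit 29) (.e (nat_lit 557109) (nat_lit 15) .nil)))))) (.g (nat_lit 0) .nil .nil))) 
(.lf (nat_lit 269789) (.g (nat_lit 960) (.e (nat_lit 188450) (nat_lit 23) (.e (nat_lit 204863) (nat_lit 27) (.e (nat_lit 344096) (nat_lit 18) (.e (nat_lit 5595) (nat_lit 310) .nil)))) .nil))) (.nd (nat_lit 6) 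
(.lf (nat_lit 269757) (.g (nat_lit 890) (.e (nat_lit 188450) (nat_lit 23) (.e (nat_lit 204846) (nat_lit 24) (.e (nat_lit 319516) (nat_lit 11) .nil))) .nil)) 
(.lf (nat_lit 269821) (.g (nat_lit 2765) (.e (nat_lit 188450) (nat_lit 23) (.e (nat_lit 204882) (nat_lit 32) (.e (nat_lit 385094) (nat_lit 49) (.e (nat_lit 778318) (nat_lit 3) (.e (nat_lit 57476) (nat_lit 28) (.e (nat_lit 557107) (nat_lit 15) .nil)))))) (.g (nat_lit 4) .nil .nil)))))))) (.nd (nat_lit 2) (.nd (nat_lit 3) (.nd (nat_lit 4) (.nd (nat_lit 5) (.nd (nat_lit 6) 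
(.lf (nat_lit 269699) (.g (nat_lit 473) (.e (nat_lit 188447) (nat_lit 22) (.e (nat_lit 196666) (nat_lit 13) (.e (nat_lit 65553) (nat_lit 0) .nil))) .nil)) 
(.lf (nat_lit 269763) (.g (nat_lit 1081) (.e (nat_lit 188450) (nat_lit 23) (.e (nat_lit 204854) (nat_lit 26) (.e (nat_lit 336240) (nat_lit 15) .nil))) .nil))) (.nd (nat_lit 6) 
(.lf (nat_lit 269731) (.g (nat_lit 389) (.e (nat_lit 188449) (nat_lit 22) (.e (nat_lit 196666) (nat_lit 13) (.e (nat_lit 65546) (nat_lit 0) .nil))) .nil)) 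
(.lf (nat_lit 269795) (.g (nat_lit 2056) (.e (nat_lit 188450) (nat_lit 23) (.e (nat_lit 204864) (nat_lit 27) (.e (nat_lit 344097) (nat_lit 18) (.e (nat_lit 5907) (nat_lit 320) (.e (nat_lit 1172) (nat_lit 87) .nil))))) .nil)))) (.nd (nat_lit 5) (.nd (nat_lit 6) 
(.lf (nat_lit 269715) (.g (nat_lit 833) (.e (nat_lit 188448) (nat_lit 22) (.e (nat_lit 196661) (nat_lit 12) (.e (nat_lit 57712) (nat_lit 176) (.e (nat_lit 1361) (nat_lit 102) (.e (nat_lit 286722) (nat_lit 0) (.e (nat_lit 1691) (nat_lit 117) (.e (nat_lit 499929) (nat_lit 11) .nil))))))) (.g (nat_lit 4) .nil .nil))) 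
(.lf (nat_lit 269779) (.g (nat_lit 2562) (.e (nat_lit 188450) (nat_lit 23) (.e (nat_lit 204861) (nat_lit 26) (.e (nat_lit 335996) (nat_lit 1) (.e (nat_lit 57870) (nat_lit 264) (.e (nat_lit 1170) (nat_lit 87) .nil))))) .nil))) (.nd (nat_lit 6) 
(.lf (nat_lit 269747) (.g (nat_lit 829) (.e (nat_lit 188450) (nat_lit 23) (.e (nat_lit 204829) (nat_lit 18) (.e (nat_lit 57767) (nat_lit 221) .nil))) .nil)) 
(.lf (nat_lit 269811) (.g (nat_lit 3883) (.e (nat_lit 188450) (nat_lit 23) (.e (nat_lit 204880) (nat_lit 32) (.e (nat_lit 385091) (nat_lit 49) (.e (nat_lit 778318) (nat_lit 3) (.e (nat_lit 57476) (nat_lit 28) (.e (nat_lit 557107) (nat_lit 15) .nil)))))) (.g (nat_lit 6) .nil .nil)))))) (.nd (nat_lit 4) (.nd (nat_lit 5) (.nd (nat_lit 6) 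
(.lf (nat_lit 269707) (.g (nat_lit 634) (.e (nat_lit 188447) (nat_lit 22) (.e (nat_lit 196681) (nat_lit 17) (.e (nat_lit 131089) (nat_lit 1) .nil))) .nil)) 
(.lf (nat_lit 269771) (.g (nat_lit 554) (.e (nat_lit 188450) (nat_lit 23) (.e (nat_lit 204859) (nat_lit 26) (.e (nat_lit 336356) (nat_lit 24) .nil))) .nil))) (.nd (nat_lit 6) 
(.lf (nat_lit 269739) (.g (nat_lit 691) (.e (nat_lit 196352) (nat_lit 22) (.e (nat_lit 196666) (nat_lit 13) (.e (nat_lit 65546) (nat_lit 0) .nil))) .nil)) 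
(.lf (nat_lit 269803) (.g (nat_lit 1361) (.e (nat_lit 188450) (nat_lit 23) (.e (nat_lit 204880) (nat_lit 32) (.e (nat_lit 385047) (nat_lit 21) .nil))) .nil)))) (.nd (nat_lit 5) (.nd (nat_lit 6) 
(.lf (nat_lit 269723) (.g (nat_lit 995) (.e (nat_lit 188448) (nat_lit 22) (.e (nat_lit 196681) (nat_lit 17) (.e (nat_lit 131089) (nat_lit 1) .nil))) .nil)) 
(.lf (nat_lit 269787) (.g (nat_lit 3961) (.e (nat_lit 188450) (nat_lit 23) (.e (nat_lit 204862) (nat_lit 27) (.e (nat_lit 344169) (nat_lit 40) (.e (nat_lit 671759) (nat_lit 3) (.e (nat_lit 57480) (nat_lit 28) (.e (nat_lit 557107) (nat_lit 15) .nil)))))) (.g (nat_lit 0) .nil .nil)))) (.nd (nat_lit 6) 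
(.lf (nat_lit 269755) (.g (nat_lit 352) (.e (nat_lit 188450) (nat_lit 23) (.e (nat_lit 204846) (nat_lit 24) (.e (nat_lit 319502) (nat_lit 10) .nil))) .nil)) 
(.lf (nat_lit 269819) (.g (nat_lit 2616) (.e (nat_lit 188450) (nat_lit 23) (.e (nat_lit 204882) (nat_lit 32) (.e (nat_lit 385094) (nat_lit 49) (.e (nat_lit 778317) (nat_lit 3) (.e (nat_lit 57476) (nat_lit 28) (.e (nat_lit 557108) (nat_lit 15) .nil)))))) (.g (nat_lit 4) .nil .nil))))))) (.nd (nat_lit 3) (.nd (nat_lit 4) (.nd (nat_lit 5) (.nd (nat_lit 6) 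
(.lf (nat_lit 269703) (.g (nat_lit 1277) (.e (nat_lit 188447) (nat_lit 22) (.e (nat_lit 196681) (nat_lit 17) (.e (nat_lit 131073) (nat_lit 0) .nil))) .nil)) 
(.lf (nat_lit 269767) (.g (nat_lit 579) (.e (nat_lit 188450) (nat_lit 23) (.e (nat_lit 204855) (nat_lit 26) (.e (nat_lit 335925) (nat_lit 0) .nil))) .nil))) (.nd (nat_lit 6) 
(.lf (nat_lit 269735) (.g (nat_lit 395) (.e (nat_lit 188449) (nat_lit 22) (.e (nat_lit 196666) (nat_lit 13) (.e (nat_lit 65574) (nat_lit 4) .nil))) .nil)) 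
(.lf (nat_lit 269799) (.g (nat_lit 519) (.e (nat_lit 188450) (nat_lit 23) (.e (nat_lit 204880) (nat_lit 32) (.e (nat_lit 385043) (nat_lit 21) .nil))) .nil)))) (.nd (nat_lit 5) (.nd (nat_lit 6) 
(.lf (nat_lit 269719) (.g (nat_lit 1362) (.e (nat_lit 188448) (nat_lit 22) (.e (nat_lit 196670) (nat_lit 14) (.e (nat_lit 73732) (nat_lit 0) (.e (nat_lit 7936) (nat_lit 283) .nil)))) .nil)) 
(.lf (nat_lit 269783) (.g (nat_lit 2300) (.e (nat_lit 188450) (nat_lit 23) (.e (nat_lit 204862) (nat_lit 27) (.e (nat_lit 344097) (nat_lit 18) (.e (nat_lit 5907) (nat_lit 320) (.e (nat_lit 1171) (nat_lit 87) (.e (nat_lit 57478) (nat_lit 28) (.e (nat_lit 557107) (nat_lit 15) .nil))))))) (.g (nat_lit 4) .nil .nil)))) (.nd (nat_lit 6) 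
(.lf (nat_lit 269751) (.g (nat_lit 3426) (.e (nat_lit 188450) (nat_lit 23) (.e (nat_lit 204845) (nat_lit 24) (.e (nat_lit 319531) (nat_lit 16) (.e (nat_lit 286733) (nat_lit 2) (.e (nat_lit 90177) (nat_lit 15) .nil))))) (.g (nat_lit 5) .nil .nil))) 
(.lf (nat_lit 269815) (.g (nat_lit 1494) (.e (nat_lit 188450) (nat_lit 23) (.e (nat_lit 204880) (nat_lit 32) (.e (nat_lit 385114) (nat_lit 53) .nil))) .nil))))) (.nd (nat_lit 4) (.nd (nat_lit 5) (.nd (nat_lit 6) 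
(.lf (nat_lit 269711) (.g (nat_lit 1032) (.e (nat_lit 188448) (nat_lit 22) (.e (nat_lit 196656) (nat_lit 11) (.e (nat_lit 16392) (nat_lit 0) .nil))) .nil)) 
(.lf (nat_lit 269775) (.g (nat_lit 1712) (.e (nat_lit 188450) (nat_lit 23) (.e (nat_lit 204861) (nat_lit 26) (.e (nat_lit 335986) (nat_lit 1) (.e (nat_lit 57872) (nat_lit 264) .nil)))) .nil))) (.nd (nat_lit 6) 
(.lf (nat_lit 269743) (.g (nat_lit 377) (.e (nat_lit 188450) (nat_lit 23) (.e (nat_lit 204816) (nat_lit 17) (.e (nat_lit 7936) (nat_lit 332) .nil))) .nil)) 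
(.lf (nat_lit 269807) (.g (nat_lit 1543) (.e (nat_lit 188450) (nat_lit 23) (.e (nat_lit 204880) (nat_lit 32) (.e (nat_lit 385052) (nat_lit 21) .nil))) .nil)))) (.nd (nat_lit 5) (.nd (nat_lit 6) 
(.lf (nat_lit 269727) (.g (nat_lit 457) (.e (nat_lit 188449) (nat_lit 22) (.e (nat_lit 196630) (nat_lit 9) (.e (nat_lit 1667) (nat_lit 116) .nil))) .nil)) 
(.lf (nat_lit 269791) (.g (nat_lit 4751) (.e (nat_lit 188450) (nat_lit 23) (.e (nat_lit 204863) (nat_lit 27) (.e (nat_lit 344168) (nat_lit 40) (.e (nat_lit 671759) (nat_lit 3) (.e (nat_lit 57479) (nat_lit 28) (.e (nat_lit 557106) (nat_lit 15) .nil)))))) (.g (nat_lit 5) .nil .nil)))) (.nd (nat_lit 6) 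
(.lf (nat_lit 269759) (.g (nat_lit 681) (.e (nat_lit 188450) (nat_lit 23) (.e (nat_lit 204852) (nat_lit 26) (.e (nat_lit 336260) (nat_lit 15) (.e (nat_lit 3733) (nat_lit 228) .nil)))) .nil)) 
(.lf (nat_lit 269823) (.g (nat_lit 3042) (.e (nat_lit 188450) (nat_lit 23) (.e (nat_lit 204883) (nat_lit 33) (.e (nat_lit 401454) (nat_lit 12) (.e (nat_lit 475185) (nat_lit 29) (.e (nat_lit 557107) (nat_lit 15) .nil))))) (.g (nat_lit 0) .nil .nil))))))))))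

noncomputable def tv3464 : DT := (.nd (nat_lit 0) (.nd (nat_lit 1) (.nd (nat_lit 2) (.nd (nat_lit 3) (.nd (nat_lit 4) (.nd (nat_lit 5) 
(.lf (nat_lit 269824) (.g (nat_lit 3661) (.e (nat_lit 188450) (nat_lit 23) (.e (nat_lit 204883) (nat_lit 33) (.e (nat_lit 401454) (nat_lit 12) (.e (nat_lit 475185) (nat_lit 29) (.e (nat_lit 557109) (nat_lit 15) .nil))))) (.g (nat_lit 0) .nil .nil))) 
(.lf (nat_lit 269856) (.g (nat_lit 900) (.e (nat_lit 188452) (nat_lit 23) (.e (nat_lit 204816) (nat_lit 17) (.e (nat_lit 6221) (nat_lit 333) (.e (nat_lit 57876) (nat_lit 270) .nil)))) .nil))) (.nd (nat_lit 5) 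
(.lf (nat_lit 269840) (.g (nat_lit 3492) (.e (nat_lit 188451) (nat_lit 23) (.e (nat_lit 204846) (nat_lit 24) (.e (nat_lit 319534) (nat_lit 16) (.e (nat_lit 286733) (nat_lit 2) (.e (nat_lit 90176) (nat_lit 15) .nil))))) (.g (nat_lit 0) .nil .nil))) 
(.lf (nat_lit 269872) (.g (nat_lit 961) (.e (nat_lit 188452) (nat_lit 23) (.e (nat_lit 204846) (nat_lit 24) (.e (nat_lit 319507) (nat_lit 10) .nil))) .nil)))) (.nd (nat_lit 4) (.nd (nat_lit 5) 
(.lf (nat_lit 269832) (.g (nat_lit 2225) (.e (nat_lit 188451) (nat_lit 23) (.e (nat_lit 204846) (nat_lit 24) (.e (nat_lit 319531) (nat_lit 16) (.e (nat_lit 286722) (nat_lit 0) (.e (nat_lit 1691) (nat_lit 117) (.e (nat_lit 499929) (nat_lit 11) .nil)))))) (.g (nat_lit 0) .nil .nil))) 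
(.lf (nat_lit 269864) (.g (nat_lit 3932) (.e (nat_lit 188452) (nat_lit 23) (.e (nat_lit 204845) (nat_lit 24) (.e (nat_lit 319531) (nat_lit 16) (.e (nat_lit 286733) (nat_lit 2) (.e (nat_lit 90176) (nat_lit 15) .nil))))) (.g (nat_lit 5) .nil .nil)))) (.nd (nat_lit 5) 
(.lf (nat_lit 269848) (.g (nat_lit 2110) (.e (nat_lit 188451) (nat_lit 23) (.e (nat_lit 204863) (nat_lit 27) (.e (nat_lit 344169) (nat_lit 40) (.e (nat_lit 671758) (nat_lit 3) .nil)))) .nil)) 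
(.lf (nat_lit 269880) (.g (nat_lit 4213) (.e (nat_lit 188452) (nat_lit 23) (.e (nat_lit 204846) (nat_lit 24) (.e (nat_lit 319533) (nat_lit 16) (.e (nat_lit 286733) (nat_lit 2) (.e (nat_lit 90177) (nat_lit 15) .nil))))) (.g (nat_lit 0) .nil .nil)))))) (.nd (nat_lit 3) (.nd (nat_lit 4) (.nd (nat_lit 5) 
(.lf (nat_lit 269828) (.g (nat_lit 3527) (.e (nat_lit 188451) (nat_lit 23) (.e (nat_lit 204845) (nat_lit 24) (.e (nat_lit 319531) (nat_lit 16) (.e (nat_lit 286733) (nat_lit 2) (.e (nat_lit 90178) (nat_lit 15) .nil))))) (.g (nat_lit 0) .nil .nil))) 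
(.lf (nat_lit 269860) (.g (nat_lit 3301) (.e (nat_lit 188452) (nat_lit 23) (.e (nat_lit 204821) (nat_lit 17) (.e (nat_lit 6206) (nat_lit 333) (.e (nat_lit 57862) (nat_lit 256) (.e (nat_lit 60) (nat_lit 0) (.e (nat_lit 1859) (nat_lit 124) (.e (nat_lit 557109) (nat_lit 15) .nil))))))) (.g (nat_lit 0) .nil .nil)))) (.nd (nat_lit 5) 
(.lf (nat_lit 269844) (.g (nat_lit 1770) (.e (nat_lit 188451) (nat_lit 23) (.e (nat_lit 204861) (nat_lit 26) (.e (nat_lit 335995) (nat_lit 1) (.e (nat_lit 57872) (nat_lit 264) .nil)))) .nil)) 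
(.lf (nat_lit 269876) (.g (nat_lit 3365) (.e (nat_lit 188452) (nat_lit 23) (.e (nat_lit 204846) (nat_lit 24) (.e (nat_lit 319528) (nat_lit 16) (.e (nat_lit 286733) (nat_lit 2) (.e (nat_lit 90176) (nat_lit 15) .nil))))) (.g (nat_lit 4) .nil .nil))))) (.nd (nat_lit 4) (.nd (nat_lit 5) 
(.lf (nat_lit 269836) (.g (nat_lit 3461) (.e (nat_lit 188451) (nat_lit 23) (.e (nat_lit 204846) (nat_lit 24) (.e (nat_lit 319533) (nat_lit 16) (.e (nat_lit 286733) (nat_lit 2) (.e (nat_lit 90178) (nat_lit 15) .nil))))) (.g (nat_lit 0) .nil .nil))) 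
(.lf (nat_lit 269868) (.g (nat_lit 788) (.e (nat_lit 188452) (nat_lit 23) (.e (nat_lit 204846) (nat_lit 24) (.e (nat_lit 319496) (nat_lit 10) .nil))) .nil))) (.nd (nat_lit 5) 
(.lf (nat_lit 269852) (.g (nat_lit 2147) (.e (nat_lit 188451) (nat_lit 23) (.e (nat_lit 204882) (nat_lit 32) (.e (nat_lit 385092) (nat_lit 49) (.e (nat_lit 778317) (nat_lit 3) (.e (nat_lit 57477) (nat_lit 28) .nil))))) .nil)) 
(.lf (nat_lit 269884) (.g (nat_lit 296) (.e (nat_lit 188452) (nat_lit 23) (.e (nat_lit 204849) (nat_lit 25) (.e (nat_lit 327705) (nat_lit 10) .nil))) .nil)))))) (.nd (nat_lit 2) (.nd (nat_lit 3) (.nd (nat_lit 4) (.nd (nat_lit 5) 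
(.lf (nat_lit 269826) (.g (nat_lit 1670) (.e (nat_lit 188451) (nat_lit 23) (.e (nat_lit 204809) (nat_lit 9) (.e (nat_lit 426108) (nat_lit 1) (.e (nat_lit 164385) (nat_lit 254) .nil)))) .nil)) 
(.lf (nat_lit 269858) (.g (nat_lit 4047) (.e (nat_lit 188452) (nat_lit 23) (.e (nat_lit 204819) (nat_lit 17) (.e (nat_lit 6218) (nat_lit 333) (.e (nat_lit 57862) (nat_lit 256) (.e (nat_lit 60) (nat_lit 0) (.e (nat_lit 1859) (nat_lit 124) (.e (nat_lit 557109) (nat_lit 15) .nil))))))) (.g (nat_lit 0) .nil .nil)))) (.nd (nat_lit 5) 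
(.lf (nat_lit 269842) (.g (nat_lit 1213) (.e (nat_lit 188451) (nat_lit 23) (.e (nat_lit 204852) (nat_lit 26) (.e (nat_lit 336332) (nat_lit 19) (.e (nat_lit 220928) (nat_lit 3) .nil)))) .nil)) 
(.lf (nat_lit 269874) (.g (nat_lit 997) (.e (nat_lit 188452) (nat_lit 23) (.e (nat_lit 204846) (nat_lit 24) (.e (nat_lit 319511) (nat_lit 10) (.e (nat_lit 5629) (nat_lit 312) .nil)))) .nil)))) (.nd (nat_lit 4) (.nd (nat_lit 5) 
(.lf (nat_lit 269834) (.g (nat_lit 2510) (.e (nat_lit 188451) (nat_lit 23) (.e (nat_lit 204846) (nat_lit 24) (.e (nat_lit 319533) (nat_lit 16) (.e (nat_lit 286722) (nat_lit 0) (.e (nat_lit 1691) (nat_lit 117) (.e (nat_lit 499929) (nat_lit 11) .nil)))))) (.g (nat_lit 0) .nil .nil))) 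
(.lf (nat_lit 269866) (.g (nat_lit 2848) (.e (nat_lit 188452) (nat_lit 23) (.e (nat_lit 204845) (nat_lit 24) (.e (nat_lit 319534) (nat_lit 16) (.e (nat_lit 286733) (nat_lit 2) (.e (nat_lit 90176) (nat_lit 15) .nil))))) (.g (nat_lit 4) .nil .nil)))) (.nd (nat_lit 5) 
(.lf (nat_lit 269850) (.g (nat_lit 2397) (.e (nat_lit 188451) (nat_lit 23) (.e (nat_lit 204880) (nat_lit 32) (.e (nat_lit 385093) (nat_lit 49) (.e (nat_lit 778317) (nat_lit 3) (.e (nat_lit 57477) (nat_lit 28) .nil))))) .nil)) 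
(.lf (nat_lit 269882) (.g (nat_lit 4159) (.e (nat_lit 188452) (nat_lit 23) (.e (nat_lit 204846) (nat_lit 24) (.e (nat_lit 319534) (nat_lit 16) (.e (nat_lit 286733) (nat_lit 2) (.e (nat_lit 90177) (nat_lit 15) .nil))))) (.g (nat_lit 0) .nil .nil)))))) (.nd (nat_lit 3) (.nd (nat_lit 4) (.nd (nat_lit 5) 
(.lf (nat_lit 269830) (.g (nat_lit 2874) (.e (nat_lit 188451) (nat_lit 23) (.e (nat_lit 204846) (nat_lit 24) (.e (nat_lit 319528) (nat_lit 16) (.e (nat_lit 286733) (nat_lit 2) (.e (nat_lit 90178) (nat_lit 15) .nil))))) (.g (nat_lit 0) .nil .nil))) 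
(.lf (nat_lit 269862) (.g (nat_lit 826) (.e (nat_lit 188452) (nat_lit 23) (.e (nat_lit 204829) (nat_lit 18) (.e (nat_lit 57764) (nat_lit 215) .nil))) .nil))) (.nd (nat_lit 5) 
(.lf (nat_lit 269846) (.g (nat_lit 2244) (.e (nat_lit 188451) (nat_lit 23) (.e (nat_lit 204863) (nat_lit 27) (.e (nat_lit 344156) (nat_lit 36) (.e (nat_lit 638983) (nat_lit 5) (.e (nat_lit 2450) (nat_lit 157) .nil))))) .nil)) 
(.lf (nat_lit 269878) (.g (nat_lit 3834) (.e (nat_lit 188452) (nat_lit 23) (.e (nat_lit 204846) (nat_lit 24) (.e (nat_lit 319531) (nat_lit 16) (.e (nat_lit 286733) (nat_lit 2) (.e (nat_lit 90176) (nat_lit 15) .nil))))) (.g (nat_lit 5) .nil .nil))))) (.nd (nat_lit 4) (.nd (nat_lit 5) 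
(.lf (nat_lit 269838) (.g (nat_lit 2396) (.e (nat_lit 188451) (nat_lit 23) (.e (nat_lit 204846) (nat_lit 24) (.e (nat_lit 319534) (nat_lit 16) (.e (nat_lit 286722) (nat_lit 0) (.e (nat_lit 1691) (nat_lit 117) (.e (nat_lit 499929) (nat_lit 11) .nil)))))) (.g (nat_lit 0) .nil .nil))) 
(.lf (nat_lit 269870) (.g (nat_lit 603) (.e (nat_lit 188452) (nat_lit 23) (.e (nat_lit 204846) (nat_lit 24) (.e (nat_lit 319502) (nat_lit 10) .nil))) .nil))) (.nd (nat_lit 5) 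
(.lf (nat_lit 269854) (.g (nat_lit 4423) (.e (nat_lit 188452) (nat_lit 23) (.e (nat_lit 204816) (nat_lit 17) (.e (nat_lit 6192) (nat_lit 332) (.e (nat_lit 1348) (nat_lit 102) (.e (nat_lit 286733) (nat_lit 2) (.e (nat_lit 90177) (nat_lit 15) .nil)))))) (.g (nat_lit 0) .nil .nil))) 
(.lf (nat_lit 269886) (.g (nat_lit 3317) (.e (nat_lit 188452) (nat_lit 23) (.e (nat_lit 204849) (nat_lit 25) (.e (nat_lit 327717) (nat_lit 17) (.e (nat_lit 294928) (nat_lit 2) (.e (nat_lit 90178) (nat_lit 15) .nil))))) (.g (nat_lit 4) .nil .nil)))))))) (.nd (nat_lit 1) (.nd (nat_lit 2) (.nd (nat_lit 3) (.nd (nat_lit 4) (.nd (nat_lit 5) 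
(.lf (nat_lit 269825) (.g (nat_lit 1547) (.e (nat_lit 188451) (nat_lit 23) (.e (nat_lit 204809) (nat_lit 9) (.e (nat_lit 426107) (nat_lit 1) (.e (nat_lit 164385) (nat_lit 254) .nil)))) .nil)) 
(.lf (nat_lit 269857) (.g (nat_lit 4763) (.e (nat_lit 188452) (nat_lit 23) (.e (nat_lit 204816) (nat_lit 17) (.e (nat_lit 6221) (nat_lit 333) (.e (nat_lit 57884) (nat_lit 270) (.e (nat_lit 1232) (nat_lit 91) (.e (nat_lit 90177) (nat_lit 15) .nil)))))) (.g (nat_lit 0) .nil .nil)))) (.nd (nat_lit 5) 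
(.lf (nat_lit 269841) (.g (nat_lit 912) (.e (nat_lit 188451) (nat_lit 23) (.e (nat_lit 204849) (nat_lit 25) (.e (nat_lit 327716) (nat_lit 16) (.e (nat_lit 286722) (nat_lit 0) .nil)))) .nil)) 
(.lf (nat_lit 269873) (.g (nat_lit 542) (.e (nat_lit 188452) (nat_lit 23) (.e (nat_lit 204846) (nat_lit 24) (.e (nat_lit 319511) (nat_lit 10) .nil))) .nil)))) (.nd (nat_lit 4) (.nd (nat_lit 5) 
(.lf (nat_lit 269833) (.g (nat_lit 2018) (.e (nat_lit 188451) (nat_lit 23) (.e (nat_lit 204846) (nat_lit 24) (.e (nat_lit 319532) (nat_lit 16) (.e (nat_lit 286722) (nat_lit 0) (.e (nat_lit 1691) (nat_lit 117) (.e (nat_lit 499929) (nat_lit 11) .nil)))))) (.g (nat_lit 0) .nil .nil))) 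
(.lf (nat_lit 269865) (.g (nat_lit 1516) (.e (nat_lit 188452) (nat_lit 23) (.e (nat_lit 204845) (nat_lit 24) (.e (nat_lit 319533) (nat_lit 16) (.e (nat_lit 286733) (nat_lit 2) .nil)))) .nil))) (.nd (nat_lit 5) 
(.lf (nat_lit 269849) (.g (nat_lit 2380) (.e (nat_lit 188451) (nat_lit 23) (.e (nat_lit 204880) (nat_lit 32) (.e (nat_lit 385093) (nat_lit 49) (.e (nat_lit 778317) (nat_lit 3) (.e (nat_lit 57476) (nat_lit 28) .nil))))) .nil)) 
(.lf (nat_lit 269881) (.g (nat_lit 4517) (.e (nat_lit 188452) (nat_lit 23) (.e (nat_lit 204846) (nat_lit 24) (.e (nat_lit 319533) (nat_lit 16) (.e (nat_lit 286733) (nat_lit 2) (.e (nat_lit 90178) (nat_lit 15) .nil))))) (.g (nat_lit 5) .nil .nil)))))) (.nd (nat_lit 3) (.nd (nat_lit 4) (.nd (nat_lit 5) 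
(.lf (nat_lit 269829) (.g (nat_lit 1812) (.e (nat_lit 188451) (nat_lit 23) (.e (nat_lit 204846) (nat_lit 24) (.e (nat_lit 319528) (nat_lit 16) (.e (nat_lit 286722) (nat_lit 0) (.e (nat_lit 1691) (nat_lit 117) (.e (nat_lit 499929) (nat_lit 11) .nil)))))) (.g (nat_lit 0) .nil .nil))) 
(.lf (nat_lit 269861) (.g (nat_lit 3279) (.e (nat_lit 188452) (nat_lit 23) (.e (nat_lit 204821) (nat_lit 17) (.e (nat_lit 6206) (nat_lit 333) (.e (nat_lit 57864) (nat_lit 256) (.e (nat_lit 60) (nat_lit 0) (.e (nat_lit 1859) (nat_lit 124) (.e (nat_lit 557109) (nat_lit 15) .nil))))))) (.g (nat_lit 0) .nil .nil)))) (.nd (nat_lit 5) 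
(.lf (nat_lit 269845) (.g (nat_lit 701) (.e (nat_lit 188451) (nat_lit 23) (.e (nat_lit 204863) (nat_lit 27) (.e (nat_lit 344097) (nat_lit 18) .nil))) .nil)) 
(.lf (nat_lit 269877) (.g (nat_lit 3249) (.e (nat_lit 188452) (nat_lit 23) (.e (nat_lit 204846) (nat_lit 24) (.e (nat_lit 319528) (nat_lit 16) (.e (nat_lit 286733) (nat_lit 2) (.e (nat_lit 90177) (nat_lit 15) .nil))))) (.g (nat_lit 0) .nil .nil))))) (.nd (nat_lit 4) (.nd (nat_lit 5) 
(.lf (nat_lit 269837) (.g (nat_lit 2410) (.e (nat_lit 188451) (nat_lit 23) (.e (nat_lit 204846) (nat_lit 24) (.e (nat_lit 319534) (nat_lit 16) (.e (nat_lit 286720) (nat_lit 0) (.e (nat_lit 1691) (nat_lit 117) (.e (nat_lit 499929) (nat_lit 11) .nil)))))) (.g (nat_lit 6) .nil .nil))) 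
(.lf (nat_lit 269869) (.g (nat_lit 972) (.e (nat_lit 188452) (nat_lit 23) (.e (nat_lit 204846) (nat_lit 24) (.e (nat_lit 319498) (nat_lit 10) .nil))) .nil))) (.nd (nat_lit 5) 
(.lf (nat_lit 269853) (.g (nat_lit 2471) (.e (nat_lit 188451) (nat_lit 23) (.e (nat_lit 204882) (nat_lit 32) (.e (nat_lit 385093) (nat_lit 49) (.e (nat_lit 778317) (nat_lit 3) (.e (nat_lit 57476) (nat_lit 28) (.e (nat_lit 557107) (nat_lit 15) .nil)))))) (.g (nat_lit 4) .nil .nil))) 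
(.lf (nat_lit 269885) (.g (nat_lit 4521) (.e (nat_lit 188452) (nat_lit 23) (.e (nat_lit 204849) (nat_lit 25) (.e (nat_lit 327708) (nat_lit 10) (.e (nat_lit 5270) (nat_lit 298) (.e (nat_lit 1239) (nat_lit 91) (.e (nat_lit 90175) (nat_lit 15) .nil)))))) (.g (nat_lit 5) .nil .nil))))))) (.nd (nat_lit 2) (.nd (nat_lit 3) (.nd (nat_lit 4) (.nd (nat_lit 5) 
(.lf (nat_lit 269827) (.g (nat_lit 3535) (.e (nat_lit 188451) (nat_lit 23) (.e (nat_lit 204845) (nat_lit 24) (.e (nat_lit 319530) (nat_lit 16) (.e (nat_lit 286733) (nat_lit 2) (.e (nat_lit 90178) (nat_lit 15) .nil))))) (.g (nat_lit 0) .nil .nil))) 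
(.lf (nat_lit 269859) (.g (nat_lit 4076) (.e (nat_lit 188452) (nat_lit 23) (.e (nat_lit 204819) (nat_lit 17) (.e (nat_lit 6218) (nat_lit 333) (.e (nat_lit 57864) (nat_lit 256) (.e (nat_lit 60) (nat_lit 0) (.e (nat_lit 1859) (nat_lit 124) (.e (nat_lit 557109) (nat_lit 15) .nil))))))) (.g (nat_lit 0) .nil .nil)))) (.nd (nat_lit 5) 
(.lf (nat_lit 269843) (.g (nat_lit 993) (.e (nat_lit 188451) (nat_lit 23) (.e (nat_lit 204855) (nat_lit 26) (.e (nat_lit 335907) (nat_lit 0) .nil))) .nil)) 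
(.lf (nat_lit 269875) (.g (nat_lit 870) (.e (nat_lit 188452) (nat_lit 23) (.e (nat_lit 204846) (nat_lit 24) (.e (nat_lit 319514) (nat_lit 11) .nil))) .nil)))) (.nd (nat_lit 4) (.nd (nat_lit 5) 
(.lf (nat_lit 269835) (.g (nat_lit 3461) (.e (nat_lit 188451) (nat_lit 23) (.e (nat_lit 204846) (nat_lit 24) (.e (nat_lit 319533) (nat_lit 16) (.e (nat_lit 286732) (nat_lit 2) (.e (nat_lit 90178) (nat_lit 15) .nil))))) (.g (nat_lit 0) .nil .nil))) 
(.lf (nat_lit 269867) (.g (nat_lit 930) (.e (nat_lit 188452) (nat_lit 23) (.e (nat_lit 204845) (nat_lit 24) (.e (nat_lit 319539) (nat_lit 19) (.e (nat_lit 311348) (nat_lit 15) .nil)))) .nil))) (.nd (nat_lit 5) 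
(.lf (nat_lit 269851) (.g (nat_lit 3138) (.e (nat_lit 188451) (nat_lit 23) (.e (nat_lit 204880) (nat_lit 32) (.e (nat_lit 385093) (nat_lit 49) (.e (nat_lit 778318) (nat_lit 3) (.e (nat_lit 57476) (nat_lit 28) (.e (nat_lit 557107) (nat_lit 15) .nil)))))) (.g (nat_lit 4) .nil .nil))) 
(.lf (nat_lit 269883) (.g (nat_lit 3003) (.e (nat_lit 188452) (nat_lit 23) (.e (nat_lit 204848) (nat_lit 25) (.e (nat_lit 327717) (nat_lit 17) (.e (nat_lit 294928) (nat_lit 2) (.e (nat_lit 90178) (nat_lit 15) .nil))))) (.g (nat_lit 4) .nil .nil)))))) (.nd (nat_lit 3) (.nd (nat_lit 4) (.nd (nat_lit 5) 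
(.lf (nat_lit 269831) (.g (nat_lit 2140) (.e (nat_lit 188451) (nat_lit 23) (.e (nat_lit 204846) (nat_lit 24) (.e (nat_lit 319530) (nat_lit 16) (.e (nat_lit 286722) (nat_lit 0) (.e (nat_lit 1691) (nat_lit 117) (.e (nat_lit 499929) (nat_lit 11) .nil)))))) (.g (nat_lit 0) .nil .nil))) 
(.lf (nat_lit 269863) (.g (nat_lit 697) (.e (nat_lit 188452) (nat_lit 23) (.e (nat_lit 204830) (nat_lit 18) (.e (nat_lit 57762) (nat_lit 215) .nil))) .nil))) (.nd (nat_lit 5) 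
(.lf (nat_lit 269847) (.g (nat_lit 4037) (.e (nat_lit 188451) (nat_lit 23) (.e (nat_lit 204863) (nat_lit 27) (.e (nat_lit 344168) (nat_lit 40) (.e (nat_lit 671759) (nat_lit 3) (.e (nat_lit 57479) (nat_lit 28) (.e (nat_lit 557106) (nat_lit 15) .nil)))))) (.g (nat_lit 5) .nil .nil))) 
(.lf (nat_lit 269879) (.g (nat_lit 3660) (.e (nat_lit 188452) (nat_lit 23) (.e (nat_lit 204846) (nat_lit 24) (.e (nat_lit 319533) (nat_lit 16) (.e (nat_lit 286733) (nat_lit 2) (.e (nat_lit 90176) (nat_lit 15) .nil))))) (.g (nat_lit 4) .nil .nil))))) (.nd (nat_lit 4) (.nd (nat_lit 5) 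
(.lf (nat_lit 269839) (.g (nat_lit 3307) (.e (nat_lit 188451) (nat_lit 23) (.e (nat_lit 204846) (nat_lit 24) (.e (nat_lit 319534) (nat_lit 16) (.e (nat_lit 286732) (nat_lit 2) (.e (nat_lit 90178) (nat_lit 15) .nil))))) (.g (nat_lit 0) .nil .nil))) 
(.lf (nat_lit 269871) (.g (nat_lit 1381) (.e (nat_lit 188452) (nat_lit 23) (.e (nat_lit 204846) (nat_lit 24) (.e (nat_lit 319504) (nat_lit 10) (.e (nat_lit 5689) (nat_lit 312) .nil)))) .nil))) (.nd (nat_lit 5) 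
(.lf (nat_lit 269855) (.g (nat_lit 4685) (.e (nat_lit 188452) (nat_lit 23) (.e (nat_lit 204816) (nat_lit 17) (.e (nat_lit 6220) (nat_lit 333) (.e (nat_lit 57884) (nat_lit 270) (.e (nat_lit 1232) (nat_lit 91) (.e (nat_lit 90177) (nat_lit 15) .nil)))))) (.g (nat_lit 0) .nil .nil))) 
(.lf (nat_lit 269887) (.g (nat_lit 1300) (.e (nat_lit 188452) (nat_lit 23) (.e (nat_lit 204849) (nat_lit 25) (.e (nat_lit 327717) (nat_lit 17) (.e (nat_lit 294962) (nat_lit 15) .nil)))) .nil))))))))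

noncomputable def tv3465 : DT := (.nd (nat_lit 0) (.nd (nat_lit 1) (.nd (nat_lit 2) (.nd (nat_lit 3) (.nd (nat_lit 4) (.nd (nat_lit 5) 
(.lf (nat_lit 269888) (.g (nat_lit 642) (.e (nat_lit 188452) (nat_lit 23) (.e (nat_lit 204852) (nat_lit 26) (.e (nat_lit 335878) (nat_lit 0) (.e (nat_lit 1970) (nat_lit 135) .nil)))) .nil)) 
(.lf (nat_lit 269920) (.g (nat_lit 3076) (.e (nat_lit 196352) (nat_lit 23) (.e (nat_lit 204863) (nat_lit 27) (.e (nat_lit 344169) (nat_lit 40) (.e (nat_lit 671759) (nat_lit 3) (.e (nat_lit 57479) (nat_lit 28) .nil))))) .nil))) (.nd (nat_lit 5) 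
(.lf (nat_lit 269904) (.g (nat_lit 1317) (.e (nat_lit 188452) (nat_lit 23) (.e (nat_lit 204880) (nat_lit 32) (.e (nat_lit 385111) (nat_lit 53) .nil))) .nil)) 
(.lf (nat_lit 269936) (.g (nat_lit 1615) (.e (nat_lit 188455) (nat_lit 24) (.e (nat_lit 229680) (nat_lit 244) (.e (nat_lit 163932) (nat_lit 17) (.e (nat_lit 466947) (nat_lit 0) (.e (nat_lit 2058) (nat_lit 142) (.e (nat_lit 704598) (nat_lit 6) .nil)))))) (.g (nat_lit 4) .nil .nil))))) (.nd (nat_lit 4) (.nd (nat_lit 5) 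
(.lf (nat_lit 269896) (.g (nat_lit 319) (.e (nat_lit 188452) (nat_lit 23) (.e (nat_lit 204864) (nat_lit 27) (.e (nat_lit 344161) (nat_lit 37) .nil))) .nil)) 
(.lf (nat_lit 269928) (.g (nat_lit 2936) (.e (nat_lit 188453) (nat_lit 24) (.e (nat_lit 229680) (nat_lit 244) (.e (nat_lit 163932) (nat_lit 17) (.e (nat_lit 466947) (nat_lit 0) (.e (nat_lit 2059) (nat_lit 142) (.e (nat_lit 704598) (nat_lit 6) .nil)))))) (.g (nat_lit 0) .nil .nil)))) (.nd (nat_lit 5) 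
(.lf (nat_lit 269912) (.g (nat_lit 4156) (.e (nat_lit 188452) (nat_lit 23) (.e (nat_lit 204883) (nat_lit 33) (.e (nat_lit 401454) (nat_lit 12) (.e (nat_lit 475185) (nat_lit 29) (.e (nat_lit 557109) (nat_lit 15) .nil))))) (.g (nat_lit 0) .nil .nil))) 
(.lf (nat_lit 269944) (.g (nat_lit 1658) (.e (nat_lit 188459) (nat_lit 26) (.e (nat_lit 253959) (nat_lit 9) (.e (nat_lit 1181) (nat_lit 87) (.e (nat_lit 57872) (nat_lit 264) (.e (nat_lit 1170) (nat_lit 87) (.e (nat_lit 57521) (nat_lit 44) (.e (nat_lit 688171) (nat_lit 15) (.e (nat_lit 57478) (nat_lit 28) (.e (nat_lit 557107) (nat_lit 15) .nil))))))))) (.g (nat_lit 4) .nil .nil)))))) 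
(.nd (nat_lit 3) (.nd (nat_lit 4) (.nd (nat_lit 5) 
(.lf (nat_lit 269892) (.g (nat_lit 870) (.e (nat_lit 188452) (nat_lit 23) (.e (nat_lit 204861) (nat_lit 26) (.e (nat_lit 336033) (nat_lit 4) .nil))) .nil)) 
(.lf (nat_lit 269924) (.g (nat_lit 1030) (.e (nat_lit 196352) (nat_lit 23) (.e (nat_lit 204882) (nat_lit 32) (.e (nat_lit 385104) (nat_lit 50) (.e (nat_lit 786444) (nat_lit 15) .nil)))) .nil))) (.nd (nat_lit 5) 
(.lf (nat_lit 269908) (.g (nat_lit 640) (.e (nat_lit 188452) (nat_lit 23) (.e (nat_lit 204882) (nat_lit 32) (.e (nat_lit 392960) (nat_lit 49) .nil))) .nil)) 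
(.lf (nat_lit 269940) (.g (nat_lit 1110) (.e (nat_lit 188456) (nat_lit 25) (.e (nat_lit 245786) (nat_lit 9) (.e (nat_lit 1638) (nat_lit 114) (.e (nat_lit 385092) (nat_lit 49) (.e (nat_lit 778317) (nat_lit 3) .nil))))) .nil)))) (.nd (nat_lit 4) (.nd (nat_lit 5) 
(.lf (nat_lit 269900) (.g (nat_lit 1410) (.e (nat_lit 188452) (nat_lit 23) (.e (nat_lit 204880) (nat_lit 32) (.e (nat_lit 385047) (nat_lit 21) .nil))) .nil)) 
(.lf (nat_lit 269932) (.g (nat_lit 2568) (.e (nat_lit 188455) (nat_lit 24) (.e (nat_lit 229632) (nat_lit 226) (.e (nat_lit 1221) (nat_lit 90) (.e (nat_lit 81938) (nat_lit 20) (.e (nat_lit 1963) (nat_lit 134) (.e (nat_lit 639001) (nat_lit 10) .nil)))))) (.g (nat_lit 4) .nil .nil)))) (.nd (nat_lit 5) 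
(.lf (nat_lit 269916) (.g (nat_lit 817) (.e (nat_lit 196352) (nat_lit 23) (.e (nat_lit 204855) (nat_lit 26) (.e (nat_lit 335928) (nat_lit 0) (.e (nat_lit 2004) (nat_lit 138) .nil)))) .nil)) 
(.lf (nat_lit 269948) (.g (nat_lit 2944) (.e (nat_lit 188461) (nat_lit 26) (.e (nat_lit 254008) (nat_lit 14) (.e (nat_lit 1348) (nat_lit 102) (.e (nat_lit 286743) (nat_lit 9) (.e (nat_lit 336316) (nat_lit 17) (.e (nat_lit 204544) (nat_lit 6) .nil)))))) (.g (nat_lit 4) .nil .nil))))))) (.nd (nat_lit 2) (.nd (nat_lit 3) (.nd (nat_lit 4) (.nd (nat_lit 5) 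
(.lf (nat_lit 269890) (.g (nat_lit 1061) (.e (nat_lit 188452) (nat_lit 23) (.e (nat_lit 204854) (nat_lit 26) (.e (nat_lit 336306) (nat_lit 15) .nil))) .nil)) 
(.lf (nat_lit 269922) (.g (nat_lit 1318) (.e (nat_lit 196352) (nat_lit 23) (.e (nat_lit 204882) (nat_lit 32) (.e (nat_lit 385091) (nat_lit 49) (.e (nat_lit 778317) (nat_lit 3) (.e (nat_lit 57476) (nat_lit 28) .nil))))) .nil))) (.nd (nat_lit 5) 
(.lf (nat_lit 269906) (.g (nat_lit 1108) (.e (nat_lit 188452) (nat_lit 23) (.e (nat_lit 204880) (nat_lit 32) (.e (nat_lit 385114) (nat_lit 53) .nil))) .nil)) 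
(.lf (nat_lit 269938) (.g (nat_lit 658) (.e (nat_lit 188456) (nat_lit 25) (.e (nat_lit 245760) (nat_lit 0) (.e (nat_lit 328) (nat_lit 25) (.e (nat_lit 368656) (nat_lit 14) (.e (nat_lit 57606) (nat_lit 107) (.e (nat_lit 712448) (nat_lit 6) .nil)))))) (.g (nat_lit 4) .nil .nil))))) (.nd (nat_lit 4) (.nd (nat_lit 5) 
(.lf (nat_lit 269898) (.g (nat_lit 1470) (.e (nat_lit 188452) (nat_lit 23) (.e (nat_lit 204880) (nat_lit 32) (.e (nat_lit 385044) (nat_lit 21) .nil))) .nil)) 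
(.lf (nat_lit 269930) (.g (nat_lit 2296) (.e (nat_lit 188455) (nat_lit 24) (.e (nat_lit 229519) (nat_lit 125) (.e (nat_lit 122919) (nat_lit 15) (.e (nat_lit 360451) (nat_lit 0) (.e (nat_lit 7686) (nat_lit 410) (.e (nat_lit 7936) (nat_lit 166) .nil)))))) (.g (nat_lit 4) .nil .nil)))) (.nd (nat_lit 5) 
(.lf (nat_lit 269914) (.g (nat_lit 1219) (.e (nat_lit 188452) (nat_lit 23) (.e (nat_lit 204885) (nat_lit 33) (.e (nat_lit 401414) (nat_lit 0) (.e (nat_lit 7550) (nat_lit 402) .nil)))) .nil)) 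
(.lf (nat_lit 269946) (.g (nat_lit 2701) (.e (nat_lit 188461) (nat_lit 26) (.e (nat_lit 254007) (nat_lit 14) (.e (nat_lit 1348) (nat_lit 102) (.e (nat_lit 286743) (nat_lit 9) (.e (nat_lit 336316) (nat_lit 17) (.e (nat_lit 204544) (nat_lit 6) .nil)))))) (.g (nat_lit 4) .nil .nil)))))) (.nd (nat_lit 3) (.nd (nat_lit 4) (.nd (nat_lit 5) 
(.lf (nat_lit 269894) (.g (nat_lit 4791) (.e (nat_lit 188452) (nat_lit 23) (.e (nat_lit 204863) (nat_lit 27) (.e (nat_lit 344168) (nat_lit 40) (.e (nat_lit 671759) (nat_lit 3) (.e (nat_lit 57480) (nat_lit 28) (.e (nat_lit 557109) (nat_lit 15) .nil)))))) (.g (nat_lit 0) .nil .nil))) 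
(.lf (nat_lit 269926) (.g (nat_lit 2391) (.e (nat_lit 188453) (nat_lit 24) (.e (nat_lit 229519) (nat_lit 125) (.e (nat_lit 122919) (nat_lit 15) (.e (nat_lit 360451) (nat_lit 0) (.e (nat_lit 7686) (nat_lit 410) (.e (nat_lit 7936) (nat_lit 166) .nil)))))) (.g (nat_lit 5) .nil .nil)))) (.nd (nat_lit 5) 
(.lf (nat_lit 269910) (.g (nat_lit 3729) (.e (nat_lit 188452) (nat_lit 23) (.e (nat_lit 204883) (nat_lit 33) (.e (nat_lit 401454) (nat_lit 12) (.e (nat_lit 475184) (nat_lit 29) (.e (nat_lit 557109) (nat_lit 15) .nil))))) (.g (nat_lit 0) .nil .nil))) 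
(.lf (nat_lit 269942) (.g (nat_lit 2227) (.e (nat_lit 188459) (nat_lit 26) (.e (nat_lit 253957) (nat_lit 0) (.e (nat_lit 2856) (nat_lit 184) (.e (nat_lit 426402) (nat_lit 15) (.e (nat_lit 2030) (nat_lit 140) .nil))))) .nil)))) (.nd (nat_lit 4) (.nd (nat_lit 5) 
(.lf (nat_lit 269902) (.g (nat_lit 889) (.e (nat_lit 188452) (nat_lit 23) (.e (nat_lit 204880) (nat_lit 32) (.e (nat_lit 385103) (nat_lit 50) .nil))) .nil)) 
(.lf (nat_lit 269934) (.g (nat_lit 1264) (.e (nat_lit 188455) (nat_lit 24) (.e (nat_lit 229637) (nat_lit 228) (.e (nat_lit 57437) (nat_lit 17) (.e (nat_lit 376855) (nat_lit 20) (.e (nat_lit 1958) (nat_lit 134) .nil))))) .nil))) (.nd (nat_lit 5) 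
(.lf (nat_lit 269918) (.g (nat_lit 1623) (.e (nat_lit 196352) (nat_lit 23) (.e (nat_lit 204862) (nat_lit 27) (.e (nat_lit 344169) (nat_lit 40) (.e (nat_lit 671759) (nat_lit 3) (.e (nat_lit 57479) (nat_lit 28) .nil))))) .nil)) 
(.lf (nat_lit 269950) (.g (nat_lit 1533) (.e (nat_lit 196616) (nat_lit 0) (.e (nat_lit 2856) (nat_lit 184) (.e (nat_lit 426432) (nat_lit 17) (.e (nat_lit 98048) (nat_lit 5) .nil)))) .nil))))))) (.nd (nat_lit 1) (.nd (nat_lit 2) (.nd (nat_lit 3) (.nd (nat_lit 4) (.nd (nat_lit 5) 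
(.lf (nat_lit 269889) (.g (nat_lit 1562) (.e (nat_lit 188452) (nat_lit 23) (.e (nat_lit 204854) (nat_lit 26) (.e (nat_lit 336260) (nat_lit 15) (.e (nat_lit 3733) (nat_lit 228) .nil)))) .nil)) 
(.lf (nat_lit 269921) (.g (nat_lit 604) (.e (nat_lit 196352) (nat_lit 23) (.e (nat_lit 204882) (nat_lit 32) (.e (nat_lit 385091) (nat_lit 49) .nil))) .nil))) (.nd (nat_lit 5) 
(.lf (nat_lit 269905) (.g (nat_lit 1181) (.e (nat_lit 188452) (nat_lit 23) (.e (nat_lit 204880) (nat_lit 32) (.e (nat_lit 385113) (nat_lit 53) .nil))) .nil)) 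
(.lf (nat_lit 269937) (.g (nat_lit 1462) (.e (nat_lit 188455) (nat_lit 24) (.e (nat_lit 229681) (nat_lit 244) (.e (nat_lit 163932) (nat_lit 17) (.e (nat_lit 466947) (nat_lit 0) (.e (nat_lit 2058) (nat_lit 142) (.e (nat_lit 704598) (nat_lit 6) .nil)))))) (.g (nat_lit 4) .nil .nil))))) (.nd (nat_lit 4) (.nd (nat_lit 5) 
(.lf (nat_lit 269897) (.g (nat_lit 870) (.e (nat_lit 188452) (nat_lit 23) (.e (nat_lit 204880) (nat_lit 32) (.e (nat_lit 385043) (nat_lit 21) .nil))) .nil)) 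
(.lf (nat_lit 269929) (.g (nat_lit 2035) (.e (nat_lit 188455) (nat_lit 24) (.e (nat_lit 229519) (nat_lit 125) (.e (nat_lit 122919) (nat_lit 15) (.e (nat_lit 360451) (nat_lit 0) (.e (nat_lit 7607) (nat_lit 410) (.e (nat_lit 7936) (nat_lit 166) .nil)))))) (.g (nat_lit 4) .nil .nil)))) (.nd (nat_lit 5) 
(.lf (nat_lit 269913) (.g (nat_lit 3010) (.e (nat_lit 188452) (nat_lit 23) (.e (nat_lit 204884) (nat_lit 33) (.e (nat_lit 401438) (nat_lit 9) (.e (nat_lit 426402) (nat_lit 15) (.e (nat_lit 1859) (nat_lit 124) (.e (nat_lit 557108) (nat_lit 15) .nil)))))) (.g (nat_lit 0) .nil .nil))) 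
(.lf (nat_lit 269945) (.g (nat_lit 1633) (.e (nat_lit 188461) (nat_lit 26) (.e (nat_lit 253959) (nat_lit 9) (.e (nat_lit 1181) (nat_lit 87) (.e (nat_lit 57848) (nat_lit 252) (.e (nat_lit 57368) (nat_lit 1) .nil))))) .nil))))) (.nd (nat_lit 3) (.nd (nat_lit 4) (.nd (nat_lit 5) 
(.lf (nat_lit 269893) (.g (nat_lit 1102) (.e (nat_lit 188452) (nat_lit 23) (.e (nat_lit 204863) (nat_lit 27) (.e (nat_lit 344097) (nat_lit 18) (.e (nat_lit 5907) (nat_lit 320) .nil)))) .nil)) 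
(.lf (nat_lit 269925) (.g (nat_lit 2130) (.e (nat_lit 188453) (nat_lit 24) (.e (nat_lit 229519) (nat_lit 125) (.e (nat_lit 122919) (nat_lit 15) (.e (nat_lit 360451) (nat_lit 0) (.e (nat_lit 7607) (nat_lit 410) (.e (nat_lit 7936) (nat_lit 166) .nil)))))) (.g (nat_lit 4) .nil .nil)))) (.nd (nat_lit 5) 
(.lf (nat_lit 269909) (.g (nat_lit 1906) (.e (nat_lit 188452) (nat_lit 23) (.e (nat_lit 204883) (nat_lit 33) (.e (nat_lit 401454) (nat_lit 12) (.e (nat_lit 475184) (nat_lit 29) (.e (nat_lit 557107) (nat_lit 15) .nil))))) (.g (nat_lit 4) .nil .nil))) 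
(.lf (nat_lit 269941) (.g (nat_lit 4064) (.e (nat_lit 188459) (nat_lit 26) (.e (nat_lit 253956) (nat_lit 0) (.e (nat_lit 2960) (nat_lit 185) (.e (nat_lit 434268) (nat_lit 36) (.e (nat_lit 639017) (nat_lit 15) (.e (nat_lit 57480) (nat_lit 28) (.e (nat_lit 557107) (nat_lit 15) .nil))))))) (.g (nat_lit 7) .nil .nil))))) (.nd (nat_lit 4) (.nd (nat_lit 5) 
(.lf (nat_lit 269901) (.g (nat_lit 3594) (.e (nat_lit 188452) (nat_lit 23) (.e (nat_lit 204880) (nat_lit 32) (.e (nat_lit 385100) (nat_lit 49) (.e (nat_lit 778316) (nat_lit 3) (.e (nat_lit 57480) (nat_lit 28) (.e (nat_lit 557108) (nat_lit 15) .nil)))))) (.g (nat_lit 0) .nil .nil))) 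
(.lf (nat_lit 269933) (.g (nat_lit 1354) (.e (nat_lit 188455) (nat_lit 24) (.e (nat_lit 229637) (nat_lit 228) (.e (nat_lit 57411) (nat_lit 12) (.e (nat_lit 336182) (nat_lit 11) (.e (nat_lit 368691) (nat_lit 36) .nil))))) .nil))) (.nd (nat_lit 5) 
(.lf (nat_lit 269917) (.g (nat_lit 956) (.e (nat_lit 196352) (nat_lit 23) (.e (nat_lit 204855) (nat_lit 26) (.e (nat_lit 335928) (nat_lit 0) (.e (nat_lit 2005) (nat_lit 138) (.e (nat_lit 671759) (nat_lit 3) .nil))))) .nil)) 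
(.lf (nat_lit 269949) (.g (nat_lit 4019) (.e (nat_lit 196613) (nat_lit 0) (.e (nat_lit 299) (nat_lit 22) (.e (nat_lit 344131) (nat_lit 26) (.e (nat_lit 557103) (nat_lit 14) (.e (nat_lit 180244) (nat_lit 5) (.e (nat_lit 532579) (nat_lit 26) (.e (nat_lit 426123) (nat_lit 2) .nil))))))) (.g (nat_lit 7) .nil .nil))))))) (.nd (nat_lit 2) (.nd (nat_lit 3) (.nd (nat_lit 4) (.nd (nat_lit 5) 
(.lf (nat_lit 269891) (.g (nat_lit 744) (.e (nat_lit 188452) (nat_lit 23) (.e (nat_lit 204855) (nat_lit 26) (.e (nat_lit 336280) (nat_lit 15) .nil))) .nil)) 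
(.lf (nat_lit 269923) (.g (nat_lit 1641) (.e (nat_lit 196352) (nat_lit 23) (.e (nat_lit 204882) (nat_lit 32) (.e (nat_lit 385092) (nat_lit 49) (.e (nat_lit 778317) (nat_lit 3) (.e (nat_lit 57477) (nat_lit 28) .nil))))) .nil))) (.nd (nat_lit 5) 
(.lf (nat_lit 269907) (.g (nat_lit 3193) (.e (nat_lit 188452) (nat_lit 23) (.e (nat_lit 204881) (nat_lit 32) (.e (nat_lit 385100) (nat_lit 49) (.e (nat_lit 778316) (nat_lit 3) (.e (nat_lit 57480) (nat_lit 28) (.e (nat_lit 557108) (nat_lit 15) .nil)))))) (.g (nat_lit 0) .nil .nil))) 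
(.lf (nat_lit 269939) (.g (nat_lit 578) (.e (nat_lit 188456) (nat_lit 25) (.e (nat_lit 245760) (nat_lit 0) (.e (nat_lit 2612) (nat_lit 163) (.e (nat_lit 164319) (nat_lit 228) .nil)))) .nil)))) (.nd (nat_lit 4) (.nd (nat_lit 5) 
(.lf (nat_lit 269899) (.g (nat_lit 1344) (.e (nat_lit 188452) (nat_lit 23) (.e (nat_lit 204880) (nat_lit 32) (.e (nat_lit 385045) (nat_lit 21) .nil))) .nil)) 
(.lf (nat_lit 269931) (.g (nat_lit 2261) (.e (nat_lit 188455) (nat_lit 24) (.e (nat_lit 229629) (nat_lit 226) (.e (nat_lit 1201) (nat_lit 88) (.e (nat_lit 65610) (nat_lit 10) (.e (nat_lit 344157) (nat_lit 36) (.e (nat_lit 639001) (nat_lit 10) .nil)))))) (.g (nat_lit 4) .nil .nil)))) (.nd (nat_lit 5) 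
(.lf (nat_lit 269915) (.g (nat_lit 403) (.e (nat_lit 196352) (nat_lit 23) (.e (nat_lit 204854) (nat_lit 26) (.e (nat_lit 336332) (nat_lit 19) .nil))) .nil)) 
(.lf (nat_lit 269947) (.g (nat_lit 1524) (.e (nat_lit 188461) (nat_lit 26) (.e (nat_lit 254008) (nat_lit 14) (.e (nat_lit 1348) (nat_lit 102) (.e (nat_lit 286739) (nat_lit 7) .nil)))) .nil))))) (.nd (nat_lit 3) (.nd (nat_lit 4) (.nd (nat_lit 5) 
(.lf (nat_lit 269895) (.g (nat_lit 2029) (.e (nat_lit 188452) (nat_lit 23) (.e (nat_lit 204864) (nat_lit 27) (.e (nat_lit 344097) (nat_lit 18) (.e (nat_lit 5905) (nat_lit 320) (.e (nat_lit 1172) (nat_lit 87) .nil))))) .nil)) 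
(.lf (nat_lit 269927) (.g (nat_lit 2908) (.e (nat_lit 188453) (nat_lit 24) (.e (nat_lit 229680) (nat_lit 244) (.e (nat_lit 163931) (nat_lit 17) (.e (nat_lit 466947) (nat_lit 0) (.e (nat_lit 2059) (nat_lit 142) (.e (nat_lit 704598) (nat_lit 6) .nil)))))) (.g (nat_lit 0) .nil .nil)))) (.nd (nat_lit 5) 
(.lf (nat_lit 269911) (.g (nat_lit 2337) (.e (nat_lit 188452) (nat_lit 23) (.e (nat_lit 204883) (nat_lit 33) (.e (nat_lit 401454) (nat_lit 12) (.e (nat_lit 475185) (nat_lit 29) (.e (nat_lit 557107) (nat_lit 15) .nil))))) (.g (nat_lit 4) .nil .nil))) 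
(.lf (nat_lit 269943) (.g (nat_lit 3194) (.e (nat_lit 188459) (nat_lit 26) (.e (nat_lit 253957) (nat_lit 0) (.e (nat_lit 3067) (nat_lit 190) (.e (nat_lit 475193) (nat_lit 38) (.e (nat_lit 688171) (nat_lit 15) (.e (nat_lit 57478) (nat_lit 28) (.e (nat_lit 557107) (nat_lit 15) .nil))))))) (.g (nat_lit 7) .nil .nil))))) (.nd (nat_lit 4) (.nd (nat_lit 5) 
(.lf (nat_lit 269903) (.g (nat_lit 799) (.e (nat_lit 188452) (nat_lit 23) (.e (nat_lit 204880) (nat_lit 32) (.e (nat_lit 385104) (nat_lit 50) .nil))) .nil)) 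
(.lf (nat_lit 269935) (.g (nat_lit 2620) (.e (nat_lit 188455) (nat_lit 24) (.e (nat_lit 229678) (nat_lit 244) (.e (nat_lit 163846) (nat_lit 0) (.e (nat_lit 7936) (nat_lit 392) (.e (nat_lit 172133) (nat_lit 15) (.e (nat_lit 2059) (nat_lit 142) (.e (nat_lit 704599) (nat_lit 6) .nil))))))) (.g (nat_lit 5) .nil .nil)))) (.nd (nat_lit 5) 
(.lf (nat_lit 269919) (.g (nat_lit 1447) (.e (nat_lit 196352) (nat_lit 23) (.e (nat_lit 204863) (nat_lit 27) (.e (nat_lit 344168) (nat_lit 40) (.e (nat_lit 671759) (nat_lit 3) .nil)))) .nil)) 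
(.lf (nat_lit 269951) (.g (nat_lit 1781) (.e (nat_lit 196616) (nat_lit 0) (.e (nat_lit 2857) (nat_lit 184) (.e (nat_lit 426428) (nat_lit 17) (.e (nat_lit 90174) (nat_lit 14) (.e (nat_lit 180243) (nat_lit 5) .nil))))) .nil))))))))

noncomputable def tv3466 : DT := (.nd (nat_lit 0) (.nd (nat_lit 1) (.nd (nat_lit 2) (.nd (nat_lit 3) (.nd (nat_lit 4) (.nd (nat_lit 5) (.nd (nat_lit 6) 
(.lf (nat_lit 269952) (.g (nat_lit 1296) (.e (nat_lit 204544) (nat_lit 0) (.e (nat_lit 226) (nat_lit 21) (.e (nat_lit 336316) (nat_lit 17) (.e (nat_lit 196670) (nat_lit 14) .nil)))) .nil)) 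
(.lf (nat_lit 270016) (.g (nat_lit 1879) (.e (nat_lit 196617) (nat_lit 9) (.e (nat_lit 1524) (nat_lit 108) (.e (nat_lit 336213) (nat_lit 13) (.e (nat_lit 393229) (nat_lit 9) (.e (nat_lit 335995) (nat_lit 1) .nil))))) .nil))) (.nd (nat_lit 6) 
(.lf (nat_lit 269984) (.g (nat_lit 2372) (.e (nat_lit 204544) (nat_lit 0) (.e (nat_lit 314) (nat_lit 23) (.e (nat_lit 352315) (nat_lit 23) (.e (nat_lit 98367) (nat_lit 27) (.e (nat_lit 434276) (nat_lit 39) .nil))))) .nil)) 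
(.lf (nat_lit 270048) (.g (nat_lit 4331) (.e (nat_lit 196623) (nat_lit 9) (.e (nat_lit 1599) (nat_lit 111) (.e (nat_lit 360475) (nat_lit 8) (.e (nat_lit 557090) (nat_lit 12) (.e (nat_lit 164020) (nat_lit 45) .nil))))) .nil)))) (.nd (nat_lit 5) (.nd (nat_lit 6) 
(.lf (nat_lit 269968) (.g (nat_lit 2195) (.e (nat_lit 204544) (nat_lit 0) (.e (nat_lit 297) (nat_lit 22) (.e (nat_lit 344133) (nat_lit 26) (.e (nat_lit 557098) (nat_lit 13) (.e (nat_lit 172062) (nat_lit 2) .nil))))) .nil)) 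
(.lf (nat_lit 270032) (.g (nat_lit 1374) (.e (nat_lit 196619) (nat_lit 9) (.e (nat_lit 452) (nat_lit 33) (.e (nat_lit 434209) (nat_lit 18) (.e (nat_lit 5951) (nat_lit 322) .nil)))) .nil))) (.nd (nat_lit 6) 
(.lf (nat_lit 270000) (.g (nat_lit 387) (.e (nat_lit 204544) (nat_lit 4) (.e (nat_lit 172133) (nat_lit 15) (.e (nat_lit 1800) (nat_lit 119) .nil))) .nil)) 
(.lf (nat_lit 270064) (.g (nat_lit 387) (.e (nat_lit 196624) (nat_lit 9) (.e (nat_lit 442) (nat_lit 33) (.e (nat_lit 442112) (nat_lit 21) .nil))) .nil))))) (.nd (nat_lit 4) (.nd (nat_lit 5) (.nd (nat_lit 6) 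
(.lf (nat_lit 269960) (.g (nat_lit 2488) (.e (nat_lit 204544) (nat_lit 0) (.e (nat_lit 226) (nat_lit 21) (.e (nat_lit 336326) (nat_lit 18) (.e (nat_lit 204863) (nat_lit 27) (.e (nat_lit 344131) (nat_lit 26) .nil))))) .nil)) 
(.lf (nat_lit 270024) (.g (nat_lit 4331) (.e (nat_lit 196617) (nat_lit 9) (.e (nat_lit 1599) (nat_lit 111) (.e (nat_lit 360475) (nat_lit 8) (.e (nat_lit 557090) (nat_lit 12) (.e (nat_lit 164020) (nat_lit 45) .nil))))) .nil))) (.nd (nat_lit 6) 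
(.lf (nat_lit 269992) (.g (nat_lit 2196) (.e (nat_lit 204544) (nat_lit 0) (.e (nat_lit 339) (nat_lit 27) (.e (nat_lit 385068) (nat_lit 26) (.e (nat_lit 532543) (nat_lit 10) (.e (nat_lit 344133) (nat_lit 26) .nil))))) .nil)) 
(.lf (nat_lit 270056) (.g (nat_lit 1744) (.e (nat_lit 196624) (nat_lit 9) (.e (nat_lit 375) (nat_lit 32) (.e (nat_lit 426025) (nat_lit 0) (.e (nat_lit 3430) (nat_lit 213) .nil)))) .nil)))) (.nd (nat_lit 5) (.nd (nat_lit 6) 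
(.lf (nat_lit 269976) (.g (nat_lit 1972) (.e (nat_lit 204544) (nat_lit 0) (.e (nat_lit 302) (nat_lit 22) (.e (nat_lit 344132) (nat_lit 26) (.e (nat_lit 557100) (nat_lit 13) (.e (nat_lit 172065) (nat_lit 3) .nil))))) .nil)) 
(.lf (nat_lit 270040) (.g (nat_lit 1866) (.e (nat_lit 196623) (nat_lit 9) (.e (nat_lit 1589) (nat_lit 111) (.e (nat_lit 360467) (nat_lit 3) (.e (nat_lit 516139) (nat_lit 7) (.e (nat_lit 409648) (nat_lit 18) .nil))))) .nil))) (.nd (nat_lit 6) 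
(.lf (nat_lit 270008) (.g (nat_lit 1204) (.e (nat_lit 204544) (nat_lit 6) (.e (nat_lit 188446) (nat_lit 21) (.e (nat_lit 164196) (nat_lit 158) (.e (nat_lit 1219) (nat_lit 90) (.e (nat_lit 89856) (nat_lit 2) .nil))))) .nil)) 
(.lf (nat_lit 270072) (.g (nat_lit 2055) (.e (nat_lit 196624) (nat_lit 9) (.e (nat_lit 1186) (nat_lit 87) (.e (nat_lit 57849) (nat_lit 252) (.e (nat_lit 57377) (nat_lit 3) (.e (nat_lit 106240) (nat_lit 10) (.e (nat_lit 344119) (nat_lit 21) (.e (nat_lit 516131) (nat_lit 3) (.e (nat_lit 221212) (nat_lit 22) .nil)))))))) (.g (nat_lit 4) .nil .nil))))))) 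
(.nd (nat_lit 3) (.nd (nat_lit 4) (.nd (nat_lit 5) (.nd (nat_lit 6) 
(.lf (nat_lit 269956) (.g (nat_lit 2337) (.e (nat_lit 204544) (nat_lit 0) (.e (nat_lit 226) (nat_lit 21) (.e (nat_lit 336324) (nat_lit 18) (.e (nat_lit 204864) (nat_lit 27) (.e (nat_lit 344133) (nat_lit 26) .nil))))) .nil)) 
(.lf (nat_lit 270020) (.g (nat_lit 4717) (.e (nat_lit 196617) (nat_lit 9) (.e (nat_lit 1589) (nat_lit 111) (.e (nat_lit 360475) (nat_lit 8) (.e (nat_lit 557090) (nat_lit 12) (.e (nat_lit 164020) (nat_lit 45) .nil))))) .nil))) (.nd (nat_lit 6) 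
(.lf (nat_lit 269988) (.g (nat_lit 1524) (.e (nat_lit 204544) (nat_lit 0) (.e (nat_lit 334) (nat_lit 26) (.e (nat_lit 376867) (nat_lit 23) (.e (nat_lit 98366) (nat_lit 27) (.e (nat_lit 434275) (nat_lit 39) .nil))))) .nil)) 
(.lf (nat_lit 270052) (.g (nat_lit 2550) (.e (nat_lit 196623) (nat_lit 9) (.e (nat_lit 1669) (nat_lit 116) (.e (nat_lit 401459) (nat_lit 13) (.e (nat_lit 483344) (nat_lit 17) (.e (nat_lit 2368) (nat_lit 153) .nil))))) .nil)))) (.nd (nat_lit 5) (.nd (nat_lit 6) 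
(.lf (nat_lit 269972) (.g (nat_lit 2410) (.e (nat_lit 204544) (nat_lit 0) (.e (nat_lit 297) (nat_lit 22) (.e (nat_lit 344133) (nat_lit 26) (.e (nat_lit 557105) (nat_lit 14) (.e (nat_lit 180237) (nat_lit 1) .nil))))) .nil)) 
(.lf (nat_lit 270036) (.g (nat_lit 1638) (.e (nat_lit 196623) (nat_lit 9) (.e (nat_lit 1400) (nat_lit 106) (.e (nat_lit 319533) (nat_lit 16) (.e (nat_lit 286733) (nat_lit 2) .nil)))) .nil))) (.nd (nat_lit 6) 
(.lf (nat_lit 270004) (.g (nat_lit 1648) (.e (nat_lit 204544) (nat_lit 6) (.e (nat_lit 188434) (nat_lit 20) (.e (nat_lit 3579) (nat_lit 223) (.e (nat_lit 745476) (nat_lit 0) (.e (nat_lit 1576) (nat_lit 110) .nil))))) .nil)) 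
(.lf (nat_lit 270068) (.g (nat_lit 345) (.e (nat_lit 196624) (nat_lit 9) (.e (nat_lit 459) (nat_lit 34) (.e (nat_lit 450304) (nat_lit 18) .nil))) .nil))))) (.nd (nat_lit 4) (.nd (nat_lit 5) (.nd (nat_lit 6) 
(.lf (nat_lit 269964) (.g (nat_lit 1750) (.e (nat_lit 204544) (nat_lit 0) (.e (nat_lit 232) (nat_lit 21) (.e (nat_lit 336060) (nat_lit 7) (.e (nat_lit 319503) (nat_lit 10) .nil)))) .nil)) 
(.lf (nat_lit 270028) (.g (nat_lit 1513) (.e (nat_lit 196619) (nat_lit 9) (.e (nat_lit 375) (nat_lit 32) (.e (nat_lit 426109) (nat_lit 1) (.e (nat_lit 164403) (nat_lit 256) .nil)))) .nil))) (.nd (nat_lit 6) 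
(.lf (nat_lit 269996) (.g (nat_lit 402) (.e (nat_lit 204544) (nat_lit 2) (.e (nat_lit 24665) (nat_lit 14) (.e (nat_lit 401469) (nat_lit 27) .nil))) .nil)) 
(.lf (nat_lit 270060) (.g (nat_lit 2297) (.e (nat_lit 196624) (nat_lit 9) (.e (nat_lit 375) (nat_lit 32) (.e (nat_lit 426109) (nat_lit 1) (.e (nat_lit 164403) (nat_lit 256) (.e (nat_lit 57408) (nat_lit 12) .nil))))) .nil)))) (.nd (nat_lit 5) (.nd (nat_lit 6) 
(.lf (nat_lit 269980) (.g (nat_lit 2205) (.e (nat_lit 204544) (nat_lit 0) (.e (nat_lit 307) (nat_lit 22) (.e (nat_lit 344129) (nat_lit 26) (.e (nat_lit 557103) (nat_lit 14) (.e (nat_lit 180244) (nat_lit 5) .nil))))) .nil)) 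
(.lf (nat_lit 270044) (.g (nat_lit 2323) (.e (nat_lit 196623) (nat_lit 9) (.e (nat_lit 1596) (nat_lit 111) (.e (nat_lit 360475) (nat_lit 8) (.e (nat_lit 557091) (nat_lit 12) (.e (nat_lit 164022) (nat_lit 46) .nil))))) .nil))) (.nd (nat_lit 6) 
(.lf (nat_lit 270012) (.g (nat_lit 1659) (.e (nat_lit 196617) (nat_lit 9) (.e (nat_lit 1395) (nat_lit 106) (.e (nat_lit 319530) (nat_lit 16) (.e (nat_lit 286735) (nat_lit 3) (.e (nat_lit 106240) (nat_lit 26) .nil))))) .nil)) 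
(.lf (nat_lit 270076) (.g (nat_lit 1520) (.e (nat_lit 196624) (nat_lit 9) (.e (nat_lit 1277) (nat_lit 94) (.e (nat_lit 114718) (nat_lit 23) (.e (nat_lit 98384) (nat_lit 32) (.e (nat_lit 475177) (nat_lit 24) .nil))))) .nil))))))) (.nd (nat_lit 2) (.nd (nat_lit 3) (.nd (nat_lit 4) (.nd (nat_lit 5) (.nd (nat_lit 6) 
(.lf (nat_lit 269954) (.g (nat_lit 2246) (.e (nat_lit 204544) (nat_lit 0) (.e (nat_lit 226) (nat_lit 21) (.e (nat_lit 336324) (nat_lit 18) (.e (nat_lit 204862) (nat_lit 27) (.e (nat_lit 344133) (nat_lit 26) .nil))))) .nil)) 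
(.lf (nat_lit 270018) (.g (nat_lit 2758) (.e (nat_lit 196617) (nat_lit 9) (.e (nat_lit 1587) (nat_lit 111) (.e (nat_lit 360475) (nat_lit 8) (.e (nat_lit 557091) (nat_lit 12) (.e (nat_lit 164022) (nat_lit 46) .nil))))) .nil))) (.nd (nat_lit 6) 
(.lf (nat_lit 269986) (.g (nat_lit 1356) (.e (nat_lit 204544) (nat_lit 0) (.e (nat_lit 334) (nat_lit 26) (.e (nat_lit 376865) (nat_lit 22) (.e (nat_lit 90173) (nat_lit 14) (.e (nat_lit 180265) (nat_lit 21) .nil))))) .nil)) 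
(.lf (nat_lit 270050) (.g (nat_lit 1662) (.e (nat_lit 196623) (nat_lit 9) (.e (nat_lit 1669) (nat_lit 116) (.e (nat_lit 401457) (nat_lit 13) (.e (nat_lit 483346) (nat_lit 17) .nil)))) .nil)))) (.nd (nat_lit 5) (.nd (nat_lit 6) 
(.lf (nat_lit 269970) (.g (nat_lit 2234) (.e (nat_lit 204544) (nat_lit 0) (.e (nat_lit 297) (nat_lit 22) (.e (nat_lit 344133) (nat_lit 26) (.e (nat_lit 557103) (nat_lit 14) (.e (nat_lit 180235) (nat_lit 1) .nil))))) .nil)) 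
(.lf (nat_lit 270034) (.g (nat_lit 2139) (.e (nat_lit 196623) (nat_lit 9) (.e (nat_lit 1183) (nat_lit 87) (.e (nat_lit 57848) (nat_lit 252) (.e (nat_lit 57375) (nat_lit 2) (.e (nat_lit 90128) (nat_lit 9) .nil))))) .nil))) (.nd (nat_lit 6) 
(.lf (nat_lit 270002) (.g (nat_lit 1248) (.e (nat_lit 204544) (nat_lit 6) (.e (nat_lit 188434) (nat_lit 20) (.e (nat_lit 3578) (nat_lit 223) (.e (nat_lit 745476) (nat_lit 0) (.e (nat_lit 1576) (nat_lit 110) .nil))))) .nil)) 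
(.lf (nat_lit 270066) (.g (nat_lit 1132) (.e (nat_lit 196624) (nat_lit 9) (.e (nat_lit 452) (nat_lit 33) (.e (nat_lit 434275) (nat_lit 39) (.e (nat_lit 671488) (nat_lit 0) .nil)))) .nil))))) (.nd (nat_lit 4) (.nd (nat_lit 5) (.nd (nat_lit 6) 
(.lf (nat_lit 269962) (.g (nat_lit 1937) (.e (nat_lit 204544) (nat_lit 0) (.e (nat_lit 232) (nat_lit 21) (.e (nat_lit 336013) (nat_lit 2) (.e (nat_lit 98048) (nat_lit 0) .nil)))) .nil)) 
(.lf (nat_lit 270026) (.g (nat_lit 320) (.e (nat_lit 196618) (nat_lit 9) (.e (nat_lit 457) (nat_lit 34) (.e (nat_lit 450304) (nat_lit 18) .nil))) .nil))) (.nd (nat_lit 6) 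
(.lf (nat_lit 269994) (.g (nat_lit 2400) (.e (nat_lit 204544) (nat_lit 0) (.e (nat_lit 339) (nat_lit 27) (.e (nat_lit 385068) (nat_lit 26) (.e (nat_lit 532553) (nat_lit 13) (.e (nat_lit 368682) (nat_lit 26) .nil))))) .nil)) 
(.lf (nat_lit 270058) (.g (nat_lit 1999) (.e (nat_lit 196624) (nat_lit 9) (.e (nat_lit 375) (nat_lit 32) (.e (nat_lit 426109) (nat_lit 1) (.e (nat_lit 164402) (nat_lit 256) (.e (nat_lit 57445) (nat_lit 19) .nil))))) .nil)))) (.nd (nat_lit 5) (.nd (nat_lit 6) 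
(.lf (nat_lit 269978) (.g (nat_lit 1047) (.e (nat_lit 204544) (nat_lit 0) (.e (nat_lit 303) (nat_lit 22) (.e (nat_lit 344129) (nat_lit 26) (.e (nat_lit 557097) (nat_lit 13) .nil)))) .nil)) 
(.lf (nat_lit 270042) (.g (nat_lit 1514) (.e (nat_lit 196623) (nat_lit 9) (.e (nat_lit 1589) (nat_lit 111) (.e (nat_lit 360473) (nat_lit 8) (.e (nat_lit 557094) (nat_lit 12) (.e (nat_lit 164022) (nat_lit 46) .nil))))) .nil))) (.nd (nat_lit 6) 
(.lf (nat_lit 270010) (.g (nat_lit 829) (.e (nat_lit 204544) (nat_lit 8) (.e (nat_lit 237612) (nat_lit 9) (.e (nat_lit 426098) (nat_lit 1) (.e (nat_lit 164196) (nat_lit 158) .nil)))) .nil)) 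
(.lf (nat_lit 270074) (.g (nat_lit 906) (.e (nat_lit 196624) (nat_lit 9) (.e (nat_lit 1186) (nat_lit 87) (.e (nat_lit 57849) (nat_lit 252) (.e (nat_lit 57448) (nat_lit 19) .nil)))) .nil)))))) (.nd (nat_lit 3) (.nd (nat_lit 4) (.nd (nat_lit 5) (.nd (nat_lit 6) 
(.lf (nat_lit 269958) (.g (nat_lit 1972) (.e (nat_lit 204544) (nat_lit 0) (.e (nat_lit 226) (nat_lit 21) (.e (nat_lit 336326) (nat_lit 18) (.e (nat_lit 204862) (nat_lit 27) (.e (nat_lit 344133) (nat_lit 26) .nil))))) .nil)) 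
(.lf (nat_lit 270022) (.g (nat_lit 4080) (.e (nat_lit 196617) (nat_lit 9) (.e (nat_lit 1598) (nat_lit 111) (.e (nat_lit 360473) (nat_lit 8) (.e (nat_lit 557090) (nat_lit 12) (.e (nat_lit 164020) (nat_lit 45) .nil))))) .nil))) (.nd (nat_lit 6) 
(.lf (nat_lit 269990) (.g (nat_lit 1415) (.e (nat_lit 204544) (nat_lit 0) (.e (nat_lit 334) (nat_lit 26) (.e (nat_lit 376867) (nat_lit 23) (.e (nat_lit 98368) (nat_lit 27) (.e (nat_lit 434276) (nat_lit 39) .nil))))) .nil)) 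
(.lf (nat_lit 270054) (.g (nat_lit 1641) (.e (nat_lit 196623) (nat_lit 9) (.e (nat_lit 1669) (nat_lit 116) (.e (nat_lit 401459) (nat_lit 13) (.e (nat_lit 483354) (nat_lit 17) .nil)))) .nil)))) (.nd (nat_lit 5) (.nd (nat_lit 6) 
(.lf (nat_lit 269974) (.g (nat_lit 2107) (.e (nat_lit 204544) (nat_lit 0) (.e (nat_lit 300) (nat_lit 22) (.e (nat_lit 344133) (nat_lit 26) (.e (nat_lit 557098) (nat_lit 13) (.e (nat_lit 172066) (nat_lit 3) .nil))))) .nil)) 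
(.lf (nat_lit 270038) (.g (nat_lit 1828) (.e (nat_lit 196623) (nat_lit 9) (.e (nat_lit 1401) (nat_lit 106) (.e (nat_lit 319531) (nat_lit 16) (.e (nat_lit 286735) (nat_lit 3) (.e (nat_lit 98382) (nat_lit 31) .nil))))) .nil))) (.nd (nat_lit 6) 
(.lf (nat_lit 270006) (.g (nat_lit 1229) (.e (nat_lit 204544) (nat_lit 6) (.e (nat_lit 188444) (nat_lit 21) (.e (nat_lit 164196) (nat_lit 158) (.e (nat_lit 1219) (nat_lit 90) (.e (nat_lit 89856) (nat_lit 2) .nil))))) .nil)) 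
(.lf (nat_lit 270070) (.g (nat_lit 845) (.e (nat_lit 196624) (nat_lit 9) (.e (nat_lit 489) (nat_lit 38) (.e (nat_lit 475199) (nat_lit 40) (.e (nat_lit 704846) (nat_lit 15) .nil)))) .nil))))) (.nd (nat_lit 4) (.nd (nat_lit 5) (.nd (nat_lit 6) 
(.lf (nat_lit 269966) (.g (nat_lit 2257) (.e (nat_lit 204544) (nat_lit 0) (.e (nat_lit 296) (nat_lit 22) (.e (nat_lit 344133) (nat_lit 26) (.e (nat_lit 557098) (nat_lit 13) (.e (nat_lit 172065) (nat_lit 3) .nil))))) .nil)) 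
(.lf (nat_lit 270030) (.g (nat_lit 2136) (.e (nat_lit 196619) (nat_lit 9) (.e (nat_lit 375) (nat_lit 32) (.e (nat_lit 426109) (nat_lit 1) (.e (nat_lit 164403) (nat_lit 256) (.e (nat_lit 57409) (nat_lit 12) .nil))))) .nil))) (.nd (nat_lit 6) 
(.lf (nat_lit 269998) (.g (nat_lit 820) (.e (nat_lit 204544) (nat_lit 2) (.e (nat_lit 24665) (nat_lit 14) (.e (nat_lit 409344) (nat_lit 34) (.e (nat_lit 393281) (nat_lit 23) (.e (nat_lit 426113) (nat_lit 2) .nil))))) .nil)) 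
(.lf (nat_lit 270062) (.g (nat_lit 2297) (.e (nat_lit 196624) (nat_lit 9) (.e (nat_lit 375) (nat_lit 32) (.e (nat_lit 426125) (nat_lit 2) (.e (nat_lit 196686) (nat_lit 18) .nil)))) .nil)))) (.nd (nat_lit 5) (.nd (nat_lit 6) 
(.lf (nat_lit 269982) (.g (nat_lit 2590) (.e (nat_lit 204544) (nat_lit 0) (.e (nat_lit 307) (nat_lit 22) (.e (nat_lit 344129) (nat_lit 26) (.e (nat_lit 557104) (nat_lit 14) (.e (nat_lit 180244) (nat_lit 5) .nil))))) .nil)) 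
(.lf (nat_lit 270046) (.g (nat_lit 2316) (.e (nat_lit 196623) (nat_lit 9) (.e (nat_lit 1598) (nat_lit 111) (.e (nat_lit 360466) (nat_lit 3) (.e (nat_lit 516139) (nat_lit 7) (.e (nat_lit 409646) (nat_lit 18) .nil))))) .nil))) (.nd (nat_lit 6) 
(.lf (nat_lit 270014) (.g (nat_lit 1706) (.e (nat_lit 196617) (nat_lit 9) (.e (nat_lit 1401) (nat_lit 106) (.e (nat_lit 319531) (nat_lit 16) (.e (nat_lit 286727) (nat_lit 0) (.e (nat_lit 1799) (nat_lit 119) .nil))))) .nil)) 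
(.lf (nat_lit 270078) (.g (nat_lit 1871) (.e (nat_lit 196624) (nat_lit 9) (.e (nat_lit 1615) (nat_lit 113) (.e (nat_lit 376865) (nat_lit 22) (.e (nat_lit 90128) (nat_lit 9) (.e (nat_lit 7936) (nat_lit 182) (.e (nat_lit 409645) (nat_lit 18) (.e (nat_lit 303117) (nat_lit 2) .nil))))))) (.g (nat_lit 4) .nil .nil))))))))) 
(.nd (nat_lit 1) (.nd (nat_lit 2) (.nd (nat_lit 3) (.nd (nat_lit 4) (.nd (nat_lit 5) 
(.nd (nat_lit 6) 
(.lf (nat_lit 269953) (.g (nat_lit 1495) (.e (nat_lit 204544) (nat_lit 0) (.e (nat_lit 226) (nat_lit 21) (.e (nat_lit 336320) (nat_lit 17) (.e (nat_lit 196670) (nat_lit 14) .nil)))) .nil)) 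
(.lf (nat_lit 270017) (.g (nat_lit 2861) (.e (nat_lit 196617) (nat_lit 9) (.e (nat_lit 1586) (nat_lit 111) (.e (nat_lit 360475) (nat_lit 8) (.e (nat_lit 557090) (nat_lit 12) .nil)))) .nil))) (.nd (nat_lit 6) 
(.lf (nat_lit 269985) (.g (nat_lit 1756) (.e (nat_lit 204544) (nat_lit 0) (.e (nat_lit 334) (nat_lit 26) (.e (nat_lit 376865) (nat_lit 22) (.e (nat_lit 90172) (nat_lit 14) (.e (nat_lit 180263) (nat_lit 21) .nil))))) .nil)) 
(.lf (nat_lit 270049) (.g (nat_lit 1283) (.e (nat_lit 196623) (nat_lit 9) (.e (nat_lit 1668) (nat_lit 116) (.e (nat_lit 401459) (nat_lit 13) (.e (nat_lit 483347) (nat_lit 17) .nil)))) .nil)))) (.nd (nat_lit 5) (.nd (nat_lit 6) 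
(.lf (nat_lit 269969) (.g (nat_lit 1904) (.e (nat_lit 204544) (nat_lit 0) (.e (nat_lit 297) (nat_lit 22) (.e (nat_lit 344133) (nat_lit 26) (.e (nat_lit 557098) (nat_lit 13) (.e (nat_lit 179968) (nat_lit 2) .nil))))) .nil)) 
(.lf (nat_lit 270033) (.g (nat_lit 318) (.e (nat_lit 196619) (nat_lit 9) (.e (nat_lit 457) (nat_lit 34) (.e (nat_lit 450304) (nat_lit 18) .nil))) .nil))) (.nd (nat_lit 6) 
(.lf (nat_lit 270001) (.g (nat_lit 327) (.e (nat_lit 204544) (nat_lit 5) (.e (nat_lit 180285) (nat_lit 45) (.e (nat_lit 2577) (nat_lit 161) (.e (nat_lit 40965) (nat_lit 0) .nil)))) .nil)) 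
(.lf (nat_lit 270065) (.g (nat_lit 1746) (.e (nat_lit 196624) (nat_lit 9) (.e (nat_lit 452) (nat_lit 33) (.e (nat_lit 434209) (nat_lit 18) (.e (nat_lit 5939) (nat_lit 322) (.e (nat_lit 57445) (nat_lit 19) .nil))))) .nil))))) (.nd (nat_lit 4) (.nd (nat_lit 5) (.nd (nat_lit 6) 
(.lf (nat_lit 269961) (.g (nat_lit 1206) (.e (nat_lit 204544) (nat_lit 0) (.e (nat_lit 227) (nat_lit 21) (.e (nat_lit 336324) (nat_lit 18) (.e (nat_lit 204864) (nat_lit 27) .nil)))) .nil)) 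
(.lf (nat_lit 270025) (.g (nat_lit 1285) (.e (nat_lit 196617) (nat_lit 9) (.e (nat_lit 1642) (nat_lit 114) (.e (nat_lit 385094) (nat_lit 49) (.e (nat_lit 778317) (nat_lit 3) .nil)))) .nil))) (.nd (nat_lit 6) 
(.lf (nat_lit 269993) (.g (nat_lit 1873) (.e (nat_lit 204544) (nat_lit 0) (.e (nat_lit 339) (nat_lit 27) (.e (nat_lit 385068) (nat_lit 26) (.e (nat_lit 532545) (nat_lit 10) (.e (nat_lit 344131) (nat_lit 26) .nil))))) .nil)) 
(.lf (nat_lit 270057) (.g (nat_lit 1598) (.e (nat_lit 196624) (nat_lit 9) (.e (nat_lit 375) (nat_lit 32) (.e (nat_lit 426109) (nat_lit 1) (.e (nat_lit 164401) (nat_lit 256) .nil)))) .nil)))) (.nd (nat_lit 5) (.nd (nat_lit 6) 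
(.lf (nat_lit 269977) (.g (nat_lit 2120) (.e (nat_lit 204544) (nat_lit 0) (.e (nat_lit 302) (nat_lit 22) (.e (nat_lit 344133) (nat_lit 26) (.e (nat_lit 557098) (nat_lit 13) (.e (nat_lit 172065) (nat_lit 3) .nil))))) .nil)) 
(.lf (nat_lit 270041) (.g (nat_lit 4179) (.e (nat_lit 196623) (nat_lit 9) (.e (nat_lit 1589) (nat_lit 111) (.e (nat_lit 360473) (nat_lit 8) (.e (nat_lit 557090) (nat_lit 12) (.e (nat_lit 164020) (nat_lit 45) .nil))))) .nil))) (.nd (nat_lit 6) 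
(.lf (nat_lit 270009) (.g (nat_lit 1521) (.e (nat_lit 204544) (nat_lit 6) (.e (nat_lit 188446) (nat_lit 21) (.e (nat_lit 164196) (nat_lit 158) (.e (nat_lit 1221) (nat_lit 90) (.e (nat_lit 89856) (nat_lit 2) .nil))))) .nil)) 
(.lf (nat_lit 270073) (.g (nat_lit 2104) (.e (nat_lit 196624) (nat_lit 9) (.e (nat_lit 1186) (nat_lit 87) (.e (nat_lit 57849) (nat_lit 252) (.e (nat_lit 57379) (nat_lit 3) (.e (nat_lit 106240) (nat_lit 10) (.e (nat_lit 344119) (nat_lit 21) (.e (nat_lit 516131) (nat_lit 3) (.e (nat_lit 221212) (nat_lit 22) .nil)))))))) (.g (nat_lit 4) .nil .nil))))))) 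
(.nd (nat_lit 3) (.nd (nat_lit 4) (.nd (nat_lit 5) (.nd (nat_lit 6) 
(.lf (nat_lit 269957) (.g (nat_lit 2030) (.e (nat_lit 204544) (nat_lit 0) (.e (nat_lit 226) (nat_lit 21) (.e (nat_lit 336326) (nat_lit 18) (.e (nat_lit 204862) (nat_lit 27) (.e (nat_lit 344132) (nat_lit 26) .nil))))) .nil)) 
(.lf (nat_lit 270021) (.g (nat_lit 1926) (.e (nat_lit 196617) (nat_lit 9) (.e (nat_lit 1598) (nat_lit 111) (.e (nat_lit 360466) (nat_lit 3) (.e (nat_lit 516139) (nat_lit 7) (.e (nat_lit 409648) (nat_lit 18) .nil))))) .nil))) (.nd (nat_lit 6) 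
(.lf (nat_lit 269989) (.g (nat_lit 1727) (.e (nat_lit 204544) (nat_lit 0) (.e (nat_lit 334) (nat_lit 26) (.e (nat_lit 376867) (nat_lit 23) (.e (nat_lit 98367) (nat_lit 27) (.e (nat_lit 434275) (nat_lit 39) .nil))))) .nil)) 
(.lf (nat_lit 270053) (.g (nat_lit 1477) (.e (nat_lit 196623) (nat_lit 9) (.e (nat_lit 1669) (nat_lit 116) (.e (nat_lit 401459) (nat_lit 13) (.e (nat_lit 483347) (nat_lit 17) .nil)))) .nil)))) (.nd (nat_lit 5) (.nd (nat_lit 6) 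
(.lf (nat_lit 269973) (.g (nat_lit 2209) (.e (nat_lit 204544) (nat_lit 0) (.e (nat_lit 298) (nat_lit 22) (.e (nat_lit 344133) (nat_lit 26) (.e (nat_lit 557098) (nat_lit 13) (.e (nat_lit 172065) (nat_lit 3) .nil))))) .nil)) 
(.lf (nat_lit 270037) (.g (nat_lit 1699) (.e (nat_lit 196623) (nat_lit 9) (.e (nat_lit 1401) (nat_lit 106) (.e (nat_lit 319531) (nat_lit 16) (.e (nat_lit 286727) (nat_lit 0) (.e (nat_lit 1799) (nat_lit 119) .nil))))) .nil))) (.nd (nat_lit 6) 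
(.lf (nat_lit 270005) (.g (nat_lit 554) (.e (nat_lit 204544) (nat_lit 6) (.e (nat_lit 188438) (nat_lit 20) (.e (nat_lit 3579) (nat_lit 223) (.e (nat_lit 745476) (nat_lit 0) .nil)))) .nil)) 
(.lf (nat_lit 270069) (.g (nat_lit 285) (.e (nat_lit 196624) (nat_lit 9) (.e (nat_lit 479) (nat_lit 37) (.e (nat_lit 474880) (nat_lit 18) .nil))) .nil))))) (.nd (nat_lit 4) (.nd (nat_lit 5) (.nd (nat_lit 6) 
(.lf (nat_lit 269965) (.g (nat_lit 1623) (.e (nat_lit 204544) (nat_lit 0) (.e (nat_lit 232) (nat_lit 21) (.e (nat_lit 336060) (nat_lit 7) (.e (nat_lit 319505) (nat_lit 10) (.e (nat_lit 806) (nat_lit 67) .nil))))) .nil)) 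
(.lf (nat_lit 270029) (.g (nat_lit 2208) (.e (nat_lit 196619) (nat_lit 9) (.e (nat_lit 375) (nat_lit 32) (.e (nat_lit 426109) (nat_lit 1) (.e (nat_lit 164403) (nat_lit 256) (.e (nat_lit 57406) (nat_lit 12) .nil))))) .nil))) (.nd (nat_lit 6) 
(.lf (nat_lit 269997) (.g (nat_lit 350) (.e (nat_lit 204544) (nat_lit 2) (.e (nat_lit 24665) (nat_lit 14) (.e (nat_lit 409344) (nat_lit 34) .nil))) .nil)) 
(.lf (nat_lit 270061) (.g (nat_lit 2283) (.e (nat_lit 196624) (nat_lit 9) (.e (nat_lit 375) (nat_lit 32) (.e (nat_lit 426109) (nat_lit 1) (.e (nat_lit 164403) (nat_lit 256) (.e (nat_lit 57446) (nat_lit 19) .nil))))) .nil)))) (.nd (nat_lit 5) (.nd (nat_lit 6) 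
(.lf (nat_lit 269981) (.g (nat_lit 2683) (.e (nat_lit 204544) (nat_lit 0) (.e (nat_lit 307) (nat_lit 22) (.e (nat_lit 344129) (nat_lit 26) (.e (nat_lit 557104) (nat_lit 14) (.e (nat_lit 180235) (nat_lit 1) .nil))))) .nil)) 
(.lf (nat_lit 270045) (.g (nat_lit 1010) (.e (nat_lit 196623) (nat_lit 9) (.e (nat_lit 1598) (nat_lit 111) (.e (nat_lit 360466) (nat_lit 3) (.e (nat_lit 516138) (nat_lit 7) .nil)))) .nil))) (.nd (nat_lit 6) 
(.lf (nat_lit 270013) (.g (nat_lit 2416) (.e (nat_lit 196617) (nat_lit 9) (.e (nat_lit 1400) (nat_lit 106) (.e (nat_lit 319533) (nat_lit 16) (.e (nat_lit 286735) (nat_lit 3) (.e (nat_lit 98370) (nat_lit 28) .nil))))) .nil)) 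
(.lf (nat_lit 270077) (.g (nat_lit 1801) (.e (nat_lit 196624) (nat_lit 9) (.e (nat_lit 1577) (nat_lit 110) (.e (nat_lit 352315) (nat_lit 23) (.e (nat_lit 98350) (nat_lit 24) (.e (nat_lit 409648) (nat_lit 18) .nil))))) .nil))))))) (.nd (nat_lit 2) (.nd (nat_lit 3) (.nd (nat_lit 4) (.nd (nat_lit 5) (.nd (nat_lit 6) 
(.lf (nat_lit 269955) (.g (nat_lit 1715) (.e (nat_lit 204544) (nat_lit 0) (.e (nat_lit 226) (nat_lit 21) (.e (nat_lit 336324) (nat_lit 18) (.e (nat_lit 204864) (nat_lit 27) .nil)))) .nil)) 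
(.lf (nat_lit 270019) (.g (nat_lit 4008) (.e (nat_lit 196617) (nat_lit 9) (.e (nat_lit 1588) (nat_lit 111) (.e (nat_lit 360475) (nat_lit 8) (.e (nat_lit 557090) (nat_lit 12) (.e (nat_lit 164020) (nat_lit 45) .nil))))) .nil))) (.nd (nat_lit 6) 
(.lf (nat_lit 269987) (.g (nat_lit 1974) (.e (nat_lit 204544) (nat_lit 0) (.e (nat_lit 334) (nat_lit 26) (.e (nat_lit 376865) (nat_lit 22) (.e (nat_lit 90174) (nat_lit 14) (.e (nat_lit 180263) (nat_lit 21) .nil))))) .nil)) 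
(.lf (nat_lit 270051) (.g (nat_lit 1520) (.e (nat_lit 196623) (nat_lit 9) (.e (nat_lit 1669) (nat_lit 116) (.e (nat_lit 401459) (nat_lit 13) (.e (nat_lit 483343) (nat_lit 17) .nil)))) .nil)))) (.nd (nat_lit 5) (.nd (nat_lit 6) 
(.lf (nat_lit 269971) (.g (nat_lit 2001) (.e (nat_lit 204544) (nat_lit 0) (.e (nat_lit 297) (nat_lit 22) (.e (nat_lit 344133) (nat_lit 26) (.e (nat_lit 557103) (nat_lit 14) (.e (nat_lit 180244) (nat_lit 5) .nil))))) .nil)) 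
(.lf (nat_lit 270035) (.g (nat_lit 1632) (.e (nat_lit 196623) (nat_lit 9) (.e (nat_lit 1395) (nat_lit 106) (.e (nat_lit 319530) (nat_lit 16) (.e (nat_lit 286735) (nat_lit 3) (.e (nat_lit 106240) (nat_lit 26) .nil))))) .nil))) (.nd (nat_lit 6) 
(.lf (nat_lit 270003) (.g (nat_lit 1305) (.e (nat_lit 204544) (nat_lit 6) (.e (nat_lit 188434) (nat_lit 20) (.e (nat_lit 3579) (nat_lit 223) (.e (nat_lit 745475) (nat_lit 0) (.e (nat_lit 1576) (nat_lit 110) .nil))))) .nil)) 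
(.lf (nat_lit 270067) (.g (nat_lit 314) (.e (nat_lit 196624) (nat_lit 9) (.e (nat_lit 457) (nat_lit 34) (.e (nat_lit 450304) (nat_lit 18) .nil))) .nil))))) (.nd (nat_lit 4) (.nd (nat_lit 5) (.nd (nat_lit 6) 
(.lf (nat_lit 269963) (.g (nat_lit 1750) (.e (nat_lit 204544) (nat_lit 0) (.e (nat_lit 232) (nat_lit 21) (.e (nat_lit 336060) (nat_lit 7) (.e (nat_lit 319499) (nat_lit 10) .nil)))) .nil)) 
(.lf (nat_lit 270027) (.g (nat_lit 604) (.e (nat_lit 196619) (nat_lit 9) (.e (nat_lit 375) (nat_lit 32) (.e (nat_lit 426109) (nat_lit 1) .nil))) .nil))) (.nd (nat_lit 6) 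
(.lf (nat_lit 269995) (.g (nat_lit 2233) (.e (nat_lit 204544) (nat_lit 0) (.e (nat_lit 344) (nat_lit 27) (.e (nat_lit 385068) (nat_lit 26) (.e (nat_lit 532544) (nat_lit 10) (.e (nat_lit 344131) (nat_lit 26) .nil))))) .nil)) 
(.lf (nat_lit 270059) (.g (nat_lit 1588) (.e (nat_lit 196624) (nat_lit 9) (.e (nat_lit 375) (nat_lit 32) (.e (nat_lit 426109) (nat_lit 1) (.e (nat_lit 164403) (nat_lit 256) .nil)))) .nil)))) (.nd (nat_lit 5) (.nd (nat_lit 6) 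
(.lf (nat_lit 269979) (.g (nat_lit 2068) (.e (nat_lit 204544) (nat_lit 0) (.e (nat_lit 305) (nat_lit 22) (.e (nat_lit 344129) (nat_lit 26) (.e (nat_lit 557097) (nat_lit 13) (.e (nat_lit 172065) (nat_lit 3) .nil))))) .nil)) 
(.lf (nat_lit 270043) (.g (nat_lit 4703) (.e (nat_lit 196623) (nat_lit 9) (.e (nat_lit 1589) (nat_lit 111) (.e (nat_lit 360475) (nat_lit 8) (.e (nat_lit 557090) (nat_lit 12) (.e (nat_lit 164020) (nat_lit 45) .nil))))) .nil))) (.nd (nat_lit 6) 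
(.lf (nat_lit 270011) (.g (nat_lit 2069) (.e (nat_lit 196617) (nat_lit 9) (.e (nat_lit 1270) (nat_lit 93) (.e (nat_lit 106536) (nat_lit 11) (.e (nat_lit 16412) (nat_lit 2) (.e (nat_lit 196674) (nat_lit 15) .nil))))) .nil)) 
(.lf (nat_lit 270075) (.g (nat_lit 1447) (.e (nat_lit 196624) (nat_lit 9) (.e (nat_lit 1277) (nat_lit 94) (.e (nat_lit 114718) (nat_lit 23) (.e (nat_lit 98363) (nat_lit 26) (.e (nat_lit 426129) (nat_lit 3) .nil))))) .nil)))))) (.nd (nat_lit 3) (.nd (nat_lit 4) (.nd (nat_lit 5) (.nd (nat_lit 6) 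
(.lf (nat_lit 269959) (.g (nat_lit 1328) (.e (nat_lit 204544) (nat_lit 0) (.e (nat_lit 226) (nat_lit 21) (.e (nat_lit 336326) (nat_lit 18) (.e (nat_lit 204863) (nat_lit 27) .nil)))) .nil)) 
(.lf (nat_lit 270023) (.g (nat_lit 1480) (.e (nat_lit 196617) (nat_lit 9) (.e (nat_lit 1598) (nat_lit 111) (.e (nat_lit 360473) (nat_lit 8) (.e (nat_lit 557091) (nat_lit 12) (.e (nat_lit 164022) (nat_lit 46) .nil))))) .nil))) (.nd (nat_lit 6) 
(.lf (nat_lit 269991) (.g (nat_lit 1116) (.e (nat_lit 204544) (nat_lit 0) (.e (nat_lit 334) (nat_lit 26) (.e (nat_lit 376869) (nat_lit 23) (.e (nat_lit 98366) (nat_lit 27) .nil)))) .nil)) 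
(.lf (nat_lit 270055) (.g (nat_lit 1024) (.e (nat_lit 196624) (nat_lit 9) (.e (nat_lit 362) (nat_lit 30) (.e (nat_lit 409646) (nat_lit 18) (.e (nat_lit 311040) (nat_lit 27) .nil)))) .nil)))) (.nd (nat_lit 5) (.nd (nat_lit 6) 
(.lf (nat_lit 269975) (.g (nat_lit 2520) (.e (nat_lit 204544) (nat_lit 0) (.e (nat_lit 301) (nat_lit 22) (.e (nat_lit 344133) (nat_lit 26) (.e (nat_lit 557105) (nat_lit 14) (.e (nat_lit 180237) (nat_lit 1) .nil))))) .nil)) 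
(.lf (nat_lit 270039) (.g (nat_lit 3565) (.e (nat_lit 196623) (nat_lit 9) (.e (nat_lit 1586) (nat_lit 111) (.e (nat_lit 360475) (nat_lit 8) (.e (nat_lit 557090) (nat_lit 12) (.e (nat_lit 164020) (nat_lit 45) .nil))))) .nil))) (.nd (nat_lit 6) 
(.lf (nat_lit 270007) (.g (nat_lit 1483) (.e (nat_lit 204544) (nat_lit 6) (.e (nat_lit 188444) (nat_lit 21) (.e (nat_lit 164196) (nat_lit 158) (.e (nat_lit 1221) (nat_lit 90) (.e (nat_lit 89856) (nat_lit 2) .nil))))) .nil)) 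
(.lf (nat_lit 270071) (.g (nat_lit 2254) (.e (nat_lit 196624) (nat_lit 9) (.e (nat_lit 1186) (nat_lit 87) (.e (nat_lit 57849) (nat_lit 252) (.e (nat_lit 57372) (nat_lit 2) (.e (nat_lit 90128) (nat_lit 9) (.e (nat_lit 297) (nat_lit 22) (.e (nat_lit 344120) (nat_lit 21) (.e (nat_lit 516131) (nat_lit 3) (.e (nat_lit 221212) (nat_lit 22) .nil))))))))) (.g (nat_lit 4) .nil .nil)))))) 
(.nd (nat_lit 4) (.nd (nat_lit 5) (.nd (nat_lit 6) 
(.lf (nat_lit 269967) (.g (nat_lit 1681) (.e (nat_lit 204544) (nat_lit 0) (.e (nat_lit 297) (nat_lit 22) (.e (nat_lit 344131) (nat_lit 26) (.e (nat_lit 557098) (nat_lit 13) (.e (nat_lit 172065) (nat_lit 3) .nil))))) .nil)) 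
(.lf (nat_lit 270031) (.g (nat_lit 1736) (.e (nat_lit 196619) (nat_lit 9) (.e (nat_lit 452) (nat_lit 33) (.e (nat_lit 434209) (nat_lit 18) (.e (nat_lit 5939) (nat_lit 322) (.e (nat_lit 57411) (nat_lit 12) .nil))))) .nil))) (.nd (nat_lit 6) 
(.lf (nat_lit 269999) (.g (nat_lit 809) (.e (nat_lit 204544) (nat_lit 2) (.e (nat_lit 24665) (nat_lit 14) (.e (nat_lit 409344) (nat_lit 34) (.e (nat_lit 393281) (nat_lit 23) (.e (nat_lit 426122) (nat_lit 2) .nil))))) .nil)) 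
(.lf (nat_lit 270063) (.g (nat_lit 2437) (.e (nat_lit 196624) (nat_lit 9) (.e (nat_lit 375) (nat_lit 32) (.e (nat_lit 426125) (nat_lit 2) (.e (nat_lit 196697) (nat_lit 19) .nil)))) .nil)))) (.nd (nat_lit 5) (.nd (nat_lit 6) 
(.lf (nat_lit 269983) (.g (nat_lit 2202) (.e (nat_lit 204544) (nat_lit 0) (.e (nat_lit 314) (nat_lit 23) (.e (nat_lit 352315) (nat_lit 23) (.e (nat_lit 98366) (nat_lit 27) (.e (nat_lit 434275) (nat_lit 39) .nil))))) .nil)) 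
(.lf (nat_lit 270047) (.g (nat_lit 4080) (.e (nat_lit 196623) (nat_lit 9) (.e (nat_lit 1598) (nat_lit 111) (.e (nat_lit 360473) (nat_lit 8) (.e (nat_lit 557090) (nat_lit 12) (.e (nat_lit 164020) (nat_lit 45) .nil))))) .nil))) (.nd (nat_lit 6) 
(.lf (nat_lit 270015) (.g (nat_lit 924) (.e (nat_lit 196617) (nat_lit 9) (.e (nat_lit 1524) (nat_lit 108) (.e (nat_lit 336213) (nat_lit 13) (.e (nat_lit 393229) (nat_lit 9) .nil)))) .nil)) 
(.lf (nat_lit 270079) (.g (nat_lit 1006) (.e (nat_lit 196624) (nat_lit 9) (.e (nat_lit 1615) (nat_lit 113) (.e (nat_lit 376865) (nat_lit 22) (.e (nat_lit 90162) (nat_lit 12) (.e (nat_lit 171776) (nat_lit 176) .nil))))) .nil)))))))))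

noncomputable def tv3467 : DT := (.nd (nat_lit 0) (.nd (nat_lit 1) (.nd (nat_lit 2) (.nd (nat_lit 3) (.nd (nat_lit 4) (.nd (nat_lit 5) (.nd (nat_lit 6) 
(.lf (nat_lit 270080) (.g (nat_lit 2720) (.e (nat_lit 196624) (nat_lit 9) (.e (nat_lit 1615) (nat_lit 113) (.e (nat_lit 376865) (nat_lit 22) (.e (nat_lit 90181) (nat_lit 16) (.e (nat_lit 229577) (nat_lit 179) (.e (nat_lit 164362) (nat_lit 246) (.e (nat_lit 2661) (nat_lit 167) .nil))))))) (.g (nat_lit 7) .nil .nil))) 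
(.lf (nat_lit 270144) (.g (nat_lit 1781) (.e (nat_lit 196626) (nat_lit 9) (.e (nat_lit 1183) (nat_lit 87) (.e (nat_lit 57851) (nat_lit 252) (.e (nat_lit 57406) (nat_lit 12) (.e (nat_lit 336456) (nat_lit 34) .nil))))) .nil))) (.nd (nat_lit 6) 
(.lf (nat_lit 270112) (.g (nat_lit 3692) (.e (nat_lit 196625) (nat_lit 9) (.e (nat_lit 1595) (nat_lit 111) (.e (nat_lit 360473) (nat_lit 8) (.e (nat_lit 557091) (nat_lit 12) (.e (nat_lit 164022) (nat_lit 46) (.e (nat_lit 704738) (nat_lit 11) (.e (nat_lit 16410) (nat_lit 2) .nil))))))) (.g (nat_lit 6) .nil .nil))) 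
(.lf (nat_lit 270176) (.g (nat_lit 1750) (.e (nat_lit 196626) (nat_lit 9) (.e (nat_lit 1400) (nat_lit 106) (.e (nat_lit 319532) (nat_lit 16) (.e (nat_lit 286735) (nat_lit 3) (.e (nat_lit 98353) (nat_lit 25) .nil))))) .nil)))) (.nd (nat_lit 5) (.nd (nat_lit 6) 
(.lf (nat_lit 270096) (.g (nat_lit 2017) (.e (nat_lit 196625) (nat_lit 9) (.e (nat_lit 1401) (nat_lit 106) (.e (nat_lit 319531) (nat_lit 16) (.e (nat_lit 286735) (nat_lit 3) (.e (nat_lit 98369) (nat_lit 28) .nil))))) .nil)) 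
(.lf (nat_lit 270160) (.g (nat_lit 1351) (.e (nat_lit 196626) (nat_lit 9) (.e (nat_lit 1400) (nat_lit 106) (.e (nat_lit 319530) (nat_lit 16) (.e (nat_lit 286735) (nat_lit 3) .nil)))) .nil))) (.nd (nat_lit 6) 
(.lf (nat_lit 270128) (.g (nat_lit 1939) (.e (nat_lit 196626) (nat_lit 9) (.e (nat_lit 1183) (nat_lit 87) (.e (nat_lit 57848) (nat_lit 252) (.e (nat_lit 57372) (nat_lit 2) (.e (nat_lit 90133) (nat_lit 9) .nil))))) .nil)) 
(.lf (nat_lit 270192) (.g (nat_lit 2429) (.e (nat_lit 196626) (nat_lit 9) (.e (nat_lit 1400) (nat_lit 106) (.e (nat_lit 319533) (nat_lit 16) (.e (nat_lit 286733) (nat_lit 2) (.e (nat_lit 90178) (nat_lit 15) .nil))))) .nil))))) (.nd (nat_lit 4) (.nd (nat_lit 5) (.nd (nat_lit 6) 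
(.lf (nat_lit 270088) (.g (nat_lit 1712) (.e (nat_lit 196625) (nat_lit 9) (.e (nat_lit 1401) (nat_lit 106) (.e (nat_lit 319531) (nat_lit 16) (.e (nat_lit 286727) (nat_lit 0) (.e (nat_lit 1799) (nat_lit 119) .nil))))) .nil)) 
(.lf (nat_lit 270152) (.g (nat_lit 1839) (.e (nat_lit 196626) (nat_lit 9) (.e (nat_lit 1400) (nat_lit 106) (.e (nat_lit 319511) (nat_lit 10) (.e (nat_lit 5293) (nat_lit 298) (.e (nat_lit 1250) (nat_lit 92) (.e (nat_lit 98382) (nat_lit 31) (.e (nat_lit 466977) (nat_lit 22) .nil))))))) (.g (nat_lit 4) .nil .nil)))) (.nd (nat_lit 6) 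
(.lf (nat_lit 270120) (.g (nat_lit 4080) (.e (nat_lit 196625) (nat_lit 9) (.e (nat_lit 1598) (nat_lit 111) (.e (nat_lit 360473) (nat_lit 8) (.e (nat_lit 557090) (nat_lit 12) (.e (nat_lit 164020) (nat_lit 45) .nil))))) .nil)) 
(.lf (nat_lit 270184) (.g (nat_lit 2951) (.e (nat_lit 196626) (nat_lit 9) (.e (nat_lit 1400) (nat_lit 106) (.e (nat_lit 319533) (nat_lit 16) (.e (nat_lit 286727) (nat_lit 0) (.e (nat_lit 1799) (nat_lit 119) .nil))))) .nil)))) (.nd (nat_lit 5) (.nd (nat_lit 6) 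
(.lf (nat_lit 270104) (.g (nat_lit 2316) (.e (nat_lit 196625) (nat_lit 9) (.e (nat_lit 1595) (nat_lit 111) (.e (nat_lit 360467) (nat_lit 3) (.e (nat_lit 516139) (nat_lit 7) (.e (nat_lit 409623) (nat_lit 10) (.e (nat_lit 5664) (nat_lit 312) (.e (nat_lit 2661) (nat_lit 167) .nil))))))) (.g (nat_lit 4) .nil .nil))) 
(.lf (nat_lit 270168) (.g (nat_lit 2404) (.e (nat_lit 196626) (nat_lit 9) (.e (nat_lit 1400) (nat_lit 106) (.e (nat_lit 319531) (nat_lit 16) (.e (nat_lit 286735) (nat_lit 3) (.e (nat_lit 98323) (nat_lit 17) .nil))))) .nil))) (.nd (nat_lit 6) 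
(.lf (nat_lit 270136) (.g (nat_lit 2122) (.e (nat_lit 196626) (nat_lit 9) (.e (nat_lit 1183) (nat_lit 87) (.e (nat_lit 57848) (nat_lit 252) (.e (nat_lit 57375) (nat_lit 2) (.e (nat_lit 90160) (nat_lit 11) .nil))))) .nil)) 
(.lf (nat_lit 270200) (.g (nat_lit 2742) (.e (nat_lit 196626) (nat_lit 9) (.e (nat_lit 1400) (nat_lit 106) (.e (nat_lit 319533) (nat_lit 16) (.e (nat_lit 286734) (nat_lit 3) (.e (nat_lit 98370) (nat_lit 28) .nil))))) .nil)))))) (.nd (nat_lit 3) (.nd (nat_lit 4) (.nd (nat_lit 5) (.nd (nat_lit 6) 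
(.lf (nat_lit 270084) (.g (nat_lit 2940) (.e (nat_lit 196624) (nat_lit 9) (.e (nat_lit 1615) (nat_lit 113) (.e (nat_lit 376865) (nat_lit 22) (.e (nat_lit 90185) (nat_lit 17) (.e (nat_lit 237585) (nat_lit 1) (.e (nat_lit 164403) (nat_lit 256) (.e (nat_lit 65280) (nat_lit 63) .nil))))))) (.g (nat_lit 6) .nil .nil))) 
(.lf (nat_lit 270148) (.g (nat_lit 876) (.e (nat_lit 196626) (nat_lit 9) (.e (nat_lit 1400) (nat_lit 106) (.e (nat_lit 319505) (nat_lit 10) (.e (nat_lit 5389) (nat_lit 301) .nil)))) .nil))) (.nd (nat_lit 6) 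
(.lf (nat_lit 270116) (.g (nat_lit 1901) (.e (nat_lit 196625) (nat_lit 9) (.e (nat_lit 1595) (nat_lit 111) (.e (nat_lit 360473) (nat_lit 8) (.e (nat_lit 557093) (nat_lit 12) (.e (nat_lit 164023) (nat_lit 46) .nil))))) .nil)) 
(.lf (nat_lit 270180) (.g (nat_lit 1912) (.e (nat_lit 196626) (nat_lit 9) (.e (nat_lit 1400) (nat_lit 106) (.e (nat_lit 319533) (nat_lit 16) (.e (nat_lit 286720) (nat_lit 0) .nil)))) .nil)))) (.nd (nat_lit 5) (.nd (nat_lit 6) 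
(.lf (nat_lit 270100) (.g (nat_lit 4758) (.e (nat_lit 196625) (nat_lit 9) (.e (nat_lit 1589) (nat_lit 111) (.e (nat_lit 360475) (nat_lit 8) (.e (nat_lit 557090) (nat_lit 12) (.e (nat_lit 164020) (nat_lit 45) .nil))))) .nil)) 
(.lf (nat_lit 270164) (.g (nat_lit 3854) (.e (nat_lit 196626) (nat_lit 9) (.e (nat_lit 1400) (nat_lit 106) (.e (nat_lit 319531) (nat_lit 16) (.e (nat_lit 286732) (nat_lit 2) (.e (nat_lit 90178) (nat_lit 15) .nil))))) .nil))) (.nd (nat_lit 6) 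
(.lf (nat_lit 270132) (.g (nat_lit 2598) (.e (nat_lit 196626) (nat_lit 9) (.e (nat_lit 1183) (nat_lit 87) (.e (nat_lit 57848) (nat_lit 252) (.e (nat_lit 57374) (nat_lit 2) (.e (nat_lit 90133) (nat_lit 9) (.e (nat_lit 296) (nat_lit 22) (.e (nat_lit 344119) (nat_lit 21) (.e (nat_lit 516129) (nat_lit 3) (.e (nat_lit 221210) (nat_lit 22) .nil))))))))) (.g (nat_lit 4) .nil .nil))) 
(.lf (nat_lit 270196) (.g (nat_lit 2852) (.e (nat_lit 196626) (nat_lit 9) (.e (nat_lit 1400) (nat_lit 106) (.e (nat_lit 319533) (nat_lit 16) (.e (nat_lit 286734) (nat_lit 3) (.e (nat_lit 98359) (nat_lit 26) .nil))))) .nil))))) (.nd (nat_lit 4) (.nd (nat_lit 5) (.nd (nat_lit 6) 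
(.lf (nat_lit 270092) (.g (nat_lit 923) (.e (nat_lit 196625) (nat_lit 9) (.e (nat_lit 1401) (nat_lit 106) (.e (nat_lit 319531) (nat_lit 16) (.e (nat_lit 286735) (nat_lit 3) .nil)))) .nil)) 
(.lf (nat_lit 270156) (.g (nat_lit 1085) (.e (nat_lit 196626) (nat_lit 9) (.e (nat_lit 1400) (nat_lit 106) (.e (nat_lit 319529) (nat_lit 16) (.e (nat_lit 286735) (nat_lit 3) .nil)))) .nil))) (.nd (nat_lit 6) 
(.lf (nat_lit 270124) (.g (nat_lit 1118) (.e (nat_lit 196625) (nat_lit 9) (.e (nat_lit 1667) (nat_lit 116) (.e (nat_lit 401459) (nat_lit 13) (.e (nat_lit 483343) (nat_lit 17) .nil)))) .nil)) 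
(.lf (nat_lit 270188) (.g (nat_lit 3119) (.e (nat_lit 196626) (nat_lit 9) (.e (nat_lit 1400) (nat_lit 106) (.e (nat_lit 319533) (nat_lit 16) (.e (nat_lit 286732) (nat_lit 2) (.e (nat_lit 90185) (nat_lit 17) .nil))))) .nil)))) (.nd (nat_lit 5) (.nd (nat_lit 6) 
(.lf (nat_lit 270108) (.g (nat_lit 446) (.e (nat_lit 196625) (nat_lit 9) (.e (nat_lit 1595) (nat_lit 111) (.e (nat_lit 360473) (nat_lit 8) .nil))) .nil)) 
(.lf (nat_lit 270172) (.g (nat_lit 998) (.e (nat_lit 196626) (nat_lit 9) (.e (nat_lit 1400) (nat_lit 106) (.e (nat_lit 319532) (nat_lit 16) (.e (nat_lit 286733) (nat_lit 2) .nil)))) .nil))) (.nd (nat_lit 6) 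
(.lf (nat_lit 270140) (.g (nat_lit 2541) (.e (nat_lit 196626) (nat_lit 9) (.e (nat_lit 1183) (nat_lit 87) (.e (nat_lit 57849) (nat_lit 252) (.e (nat_lit 57372) (nat_lit 2) (.e (nat_lit 90128) (nat_lit 9) (.e (nat_lit 297) (nat_lit 22) (.e (nat_lit 344120) (nat_lit 21) (.e (nat_lit 516131) (nat_lit 3) (.e (nat_lit 221212) (nat_lit 22) .nil))))))))) (.g (nat_lit 4) .nil .nil))) 
(.lf (nat_lit 270204) (.g (nat_lit 2792) (.e (nat_lit 196626) (nat_lit 9) (.e (nat_lit 1400) (nat_lit 106) (.e (nat_lit 319533) (nat_lit 16) (.e (nat_lit 286735) (nat_lit 3) (.e (nat_lit 98352) (nat_lit 25) .nil))))) .nil))))))) (.nd (nat_lit 2) (.nd (nat_lit 3) (.nd (nat_lit 4) (.nd (nat_lit 5) (.nd (nat_lit 6) 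
(.lf (nat_lit 270082) (.g (nat_lit 2082) (.e (nat_lit 196624) (nat_lit 9) (.e (nat_lit 1615) (nat_lit 113) (.e (nat_lit 376865) (nat_lit 22) (.e (nat_lit 90185) (nat_lit 17) (.e (nat_lit 237582) (nat_lit 1) (.e (nat_lit 171776) (nat_lit 219) (.e (nat_lit 163867) (nat_lit 2) .nil))))))) (.g (nat_lit 4) .nil .nil))) 
(.lf (nat_lit 270146) (.g (nat_lit 1728) (.e (nat_lit 196626) (nat_lit 9) (.e (nat_lit 1394) (nat_lit 106) (.e (nat_lit 319530) (nat_lit 16) (.e (nat_lit 286733) (nat_lit 2) (.e (nat_lit 90178) (nat_lit 15) .nil))))) .nil))) (.nd (nat_lit 6) 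
(.lf (nat_lit 270114) (.g (nat_lit 1343) (.e (nat_lit 196625) (nat_lit 9) (.e (nat_lit 1595) (nat_lit 111) (.e (nat_lit 360473) (nat_lit 8) (.e (nat_lit 557093) (nat_lit 12) .nil)))) .nil)) 
(.lf (nat_lit 270178) (.g (nat_lit 2051) (.e (nat_lit 196626) (nat_lit 9) (.e (nat_lit 1400) (nat_lit 106) (.e (nat_lit 319532) (nat_lit 16) (.e (nat_lit 286735) (nat_lit 3) (.e (nat_lit 98380) (nat_lit 31) .nil))))) .nil)))) (.nd (nat_lit 5) (.nd (nat_lit 6) 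
(.lf (nat_lit 270098) (.g (nat_lit 1866) (.e (nat_lit 196625) (nat_lit 9) (.e (nat_lit 1589) (nat_lit 111) (.e (nat_lit 360467) (nat_lit 3) (.e (nat_lit 516139) (nat_lit 7) (.e (nat_lit 409648) (nat_lit 18) .nil))))) .nil)) 
(.lf (nat_lit 270162) (.g (nat_lit 2665) (.e (nat_lit 196626) (nat_lit 9) (.e (nat_lit 1400) (nat_lit 106) (.e (nat_lit 319530) (nat_lit 16) (.e (nat_lit 286735) (nat_lit 3) (.e (nat_lit 98356) (nat_lit 26) .nil))))) .nil))) (.nd (nat_lit 6) 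
(.lf (nat_lit 270130) (.g (nat_lit 2285) (.e (nat_lit 196626) (nat_lit 9) (.e (nat_lit 1183) (nat_lit 87) (.e (nat_lit 57848) (nat_lit 252) (.e (nat_lit 57372) (nat_lit 2) (.e (nat_lit 90159) (nat_lit 11) (.e (nat_lit 24583) (nat_lit 0) (.e (nat_lit 1803) (nat_lit 119) (.e (nat_lit 516131) (nat_lit 3) (.e (nat_lit 221212) (nat_lit 22) .nil))))))))) (.g (nat_lit 5) .nil .nil))) 
(.lf (nat_lit 270194) (.g (nat_lit 1411) (.e (nat_lit 196626) (nat_lit 9) (.e (nat_lit 1400) (nat_lit 106) (.e (nat_lit 319533) (nat_lit 16) (.e (nat_lit 286734) (nat_lit 3) .nil)))) .nil))))) (.nd (nat_lit 4) (.nd (nat_lit 5) (.nd (nat_lit 6) 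
(.lf (nat_lit 270090) (.g (nat_lit 2223) (.e (nat_lit 196625) (nat_lit 9) (.e (nat_lit 1401) (nat_lit 106) (.e (nat_lit 319531) (nat_lit 16) (.e (nat_lit 286733) (nat_lit 2) (.e (nat_lit 90185) (nat_lit 17) .nil))))) .nil)) 
(.lf (nat_lit 270154) (.g (nat_lit 361) (.e (nat_lit 196626) (nat_lit 9) (.e (nat_lit 1400) (nat_lit 106) (.e (nat_lit 319528) (nat_lit 16) .nil))) .nil))) (.nd (nat_lit 6) 
(.lf (nat_lit 270122) (.g (nat_lit 1268) (.e (nat_lit 196625) (nat_lit 9) (.e (nat_lit 1634) (nat_lit 114) (.e (nat_lit 385068) (nat_lit 26) (.e (nat_lit 532501) (nat_lit 1) .nil)))) .nil)) 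
(.lf (nat_lit 270186) (.g (nat_lit 2926) (.e (nat_lit 196626) (nat_lit 9) (.e (nat_lit 1400) (nat_lit 106) (.e (nat_lit 319533) (nat_lit 16) (.e (nat_lit 286732) (nat_lit 2) (.e (nat_lit 90170) (nat_lit 13) .nil))))) .nil)))) (.nd (nat_lit 5) (.nd (nat_lit 6) 
(.lf (nat_lit 270106) (.g (nat_lit 2574) (.e (nat_lit 196625) (nat_lit 9) (.e (nat_lit 1595) (nat_lit 111) (.e (nat_lit 360467) (nat_lit 3) (.e (nat_lit 516139) (nat_lit 7) (.e (nat_lit 409644) (nat_lit 18) .nil))))) .nil)) 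
(.lf (nat_lit 270170) (.g (nat_lit 440) (.e (nat_lit 196626) (nat_lit 9) (.e (nat_lit 1400) (nat_lit 106) (.e (nat_lit 319532) (nat_lit 16) .nil))) .nil))) (.nd (nat_lit 6) 
(.lf (nat_lit 270138) (.g (nat_lit 1735) (.e (nat_lit 196626) (nat_lit 9) (.e (nat_lit 1183) (nat_lit 87) (.e (nat_lit 57848) (nat_lit 252) (.e (nat_lit 57379) (nat_lit 3) (.e (nat_lit 106240) (nat_lit 10) .nil))))) .nil)) 
(.lf (nat_lit 270202) (.g (nat_lit 1484) (.e (nat_lit 196626) (nat_lit 9) (.e (nat_lit 1400) (nat_lit 106) (.e (nat_lit 319533) (nat_lit 16) (.e (nat_lit 286735) (nat_lit 3) .nil)))) .nil)))))) (.nd (nat_lit 3) (.nd (nat_lit 4) (.nd (nat_lit 5) (.nd (nat_lit 6) 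
(.lf (nat_lit 270086) (.g (nat_lit 3116) (.e (nat_lit 196624) (nat_lit 9) (.e (nat_lit 1615) (nat_lit 113) (.e (nat_lit 376868) (nat_lit 23) (.e (nat_lit 98350) (nat_lit 24) (.e (nat_lit 409646) (nat_lit 18) (.e (nat_lit 303117) (nat_lit 2) .nil)))))) (.g (nat_lit 0) .nil .nil))) 
(.lf (nat_lit 270150) (.g (nat_lit 1587) (.e (nat_lit 196626) (nat_lit 9) (.e (nat_lit 1400) (nat_lit 106) (.e (nat_lit 319511) (nat_lit 10) (.e (nat_lit 5293) (nat_lit 298) (.e (nat_lit 1250) (nat_lit 92) .nil))))) .nil))) (.nd (nat_lit 6) 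
(.lf (nat_lit 270118) (.g (nat_lit 3167) (.e (nat_lit 196625) (nat_lit 9) (.e (nat_lit 1595) (nat_lit 111) (.e (nat_lit 360473) (nat_lit 8) (.e (nat_lit 557094) (nat_lit 12) (.e (nat_lit 164022) (nat_lit 46) (.e (nat_lit 704738) (nat_lit 11) (.e (nat_lit 16410) (nat_lit 2) .nil))))))) (.g (nat_lit 6) .nil .nil))) 
(.lf (nat_lit 270182) (.g (nat_lit 1199) (.e (nat_lit 196626) (nat_lit 9) (.e (nat_lit 1400) (nat_lit 106) (.e (nat_lit 319533) (nat_lit 16) (.e (nat_lit 286724) (nat_lit 0) .nil)))) .nil)))) (.nd (nat_lit 5) (.nd (nat_lit 6) 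
(.lf (nat_lit 270102) (.g (nat_lit 3755) (.e (nat_lit 196625) (nat_lit 9) (.e (nat_lit 1592) (nat_lit 111) (.e (nat_lit 360473) (nat_lit 8) (.e (nat_lit 557090) (nat_lit 12) (.e (nat_lit 164020) (nat_lit 45) .nil))))) .nil)) 
(.lf (nat_lit 270166) (.g (nat_lit 1623) (.e (nat_lit 196626) (nat_lit 9) (.e (nat_lit 1400) (nat_lit 106) (.e (nat_lit 319531) (nat_lit 16) (.e (nat_lit 286734) (nat_lit 3) .nil)))) .nil))) (.nd (nat_lit 6) 
(.lf (nat_lit 270134) (.g (nat_lit 2858) (.e (nat_lit 196626) (nat_lit 9) (.e (nat_lit 1183) (nat_lit 87) (.e (nat_lit 57848) (nat_lit 252) (.e (nat_lit 57375) (nat_lit 2) (.e (nat_lit 90133) (nat_lit 9) (.e (nat_lit 296) (nat_lit 22) (.e (nat_lit 344119) (nat_lit 21) (.e (nat_lit 516131) (nat_lit 3) (.e (nat_lit 221212) (nat_lit 22) .nil))))))))) (.g (nat_lit 4) .nil .nil))) 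
(.lf (nat_lit 270198) (.g (nat_lit 2843) (.e (nat_lit 196626) (nat_lit 9) (.e (nat_lit 1400) (nat_lit 106) (.e (nat_lit 319533) (nat_lit 16) (.e (nat_lit 286734) (nat_lit 3) (.e (nat_lit 106240) (nat_lit 26) (.e (nat_lit 426265) (nat_lit 9) (.e (nat_lit 426124) (nat_lit 2) .nil))))))) (.g (nat_lit 4) .nil .nil)))))) (.nd (nat_lit 4) (.nd (nat_lit 5) (.nd (nat_lit 6) 
(.lf (nat_lit 270094) (.g (nat_lit 1419) (.e (nat_lit 196625) (nat_lit 9) (.e (nat_lit 1401) (nat_lit 106) (.e (nat_lit 319531) (nat_lit 16) (.e (nat_lit 286735) (nat_lit 3) (.e (nat_lit 98325) (nat_lit 17) .nil))))) .nil)) 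
(.lf (nat_lit 270158) (.g (nat_lit 2951) (.e (nat_lit 196626) (nat_lit 9) (.e (nat_lit 1400) (nat_lit 106) (.e (nat_lit 319530) (nat_lit 16) (.e (nat_lit 286727) (nat_lit 0) (.e (nat_lit 1799) (nat_lit 119) .nil))))) .nil))) (.nd (nat_lit 6) 
(.lf (nat_lit 270126) (.g (nat_lit 417) (.e (nat_lit 196626) (nat_lit 9) (.e (nat_lit 1183) (nat_lit 87) (.e (nat_lit 57848) (nat_lit 252) .nil))) .nil)) 
(.lf (nat_lit 270190) (.g (nat_lit 2686) (.e (nat_lit 196626) (nat_lit 9) (.e (nat_lit 1400) (nat_lit 106) (.e (nat_lit 319533) (nat_lit 16) (.e (nat_lit 286733) (nat_lit 2) (.e (nat_lit 90169) (nat_lit 13) .nil))))) .nil)))) (.nd (nat_lit 5) (.nd (nat_lit 6) 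
(.lf (nat_lit 270110) (.g (nat_lit 3988) (.e (nat_lit 196625) (nat_lit 9) (.e (nat_lit 1595) (nat_lit 111) (.e (nat_lit 360473) (nat_lit 8) (.e (nat_lit 557090) (nat_lit 12) (.e (nat_lit 164022) (nat_lit 46) .nil))))) .nil)) 
(.lf (nat_lit 270174) (.g (nat_lit 2367) (.e (nat_lit 196626) (nat_lit 9) (.e (nat_lit 1400) (nat_lit 106) (.e (nat_lit 319532) (nat_lit 16) (.e (nat_lit 286734) (nat_lit 3) (.e (nat_lit 98381) (nat_lit 31) (.e (nat_lit 466975) (nat_lit 22) .nil)))))) (.g (nat_lit 5) .nil .nil)))) (.nd (nat_lit 6) 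
(.lf (nat_lit 270142) (.g (nat_lit 2431) (.e (nat_lit 196626) (nat_lit 9) (.e (nat_lit 1183) (nat_lit 87) (.e (nat_lit 57849) (nat_lit 252) (.e (nat_lit 57377) (nat_lit 3) (.e (nat_lit 106240) (nat_lit 10) .nil))))) .nil)) 
(.lf (nat_lit 270206) (.g (nat_lit 2962) (.e (nat_lit 196626) (nat_lit 9) (.e (nat_lit 1400) (nat_lit 106) (.e (nat_lit 319533) (nat_lit 16) (.e (nat_lit 286735) (nat_lit 3) (.e (nat_lit 98357) (nat_lit 26) .nil))))) .nil)))))))) (.nd (nat_lit 1) (.nd (nat_lit 2) (.nd (nat_lit 3) (.nd (nat_lit 4) (.nd (nat_lit 5) (.nd (nat_lit 6) 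
(.lf (nat_lit 270081) (.g (nat_lit 1661) (.e (nat_lit 196624) (nat_lit 9) (.e (nat_lit 1615) (nat_lit 113) (.e (nat_lit 376865) (nat_lit 22) (.e (nat_lit 90185) (nat_lit 17) (.e (nat_lit 237582) (nat_lit 1) .nil))))) .nil)) 
(.lf (nat_lit 270145) (.g (nat_lit 4337) (.e (nat_lit 196626) (nat_lit 9) (.e (nat_lit 1183) (nat_lit 87) (.e (nat_lit 57924) (nat_lit 282) (.e (nat_lit 163867) (nat_lit 2) (.e (nat_lit 196670) (nat_lit 14) (.e (nat_lit 73746) (nat_lit 3) (.e (nat_lit 516131) (nat_lit 3) (.e (nat_lit 221212) (nat_lit 22) .nil)))))))) (.g (nat_lit 8) .nil .nil)))) (.nd (nat_lit 6) 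
(.lf (nat_lit 270113) (.g (nat_lit 2222) (.e (nat_lit 196625) (nat_lit 9) (.e (nat_lit 1595) (nat_lit 111) (.e (nat_lit 360473) (nat_lit 8) (.e (nat_lit 557091) (nat_lit 12) (.e (nat_lit 171776) (nat_lit 48) (.e (nat_lit 720909) (nat_lit 11) (.e (nat_lit 426114) (nat_lit 2) .nil))))))) (.g (nat_lit 4) .nil .nil))) 
(.lf (nat_lit 270177) (.g (nat_lit 1550) (.e (nat_lit 196626) (nat_lit 9) (.e (nat_lit 1400) (nat_lit 106) (.e (nat_lit 319532) (nat_lit 16) (.e (nat_lit 286735) (nat_lit 3) (.e (nat_lit 98370) (nat_lit 28) .nil))))) .nil)))) (.nd (nat_lit 5) (.nd (nat_lit 6) 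
(.lf (nat_lit 270097) (.g (nat_lit 1940) (.e (nat_lit 196625) (nat_lit 9) (.e (nat_lit 1401) (nat_lit 106) (.e (nat_lit 319531) (nat_lit 16) (.e (nat_lit 286735) (nat_lit 3) (.e (nat_lit 98371) (nat_lit 28) .nil))))) .nil)) 
(.lf (nat_lit 270161) (.g (nat_lit 2714) (.e (nat_lit 196626) (nat_lit 9) (.e (nat_lit 1400) (nat_lit 106) (.e (nat_lit 319530) (nat_lit 16) (.e (nat_lit 286735) (nat_lit 3) (.e (nat_lit 98323) (nat_lit 17) .nil))))) .nil))) (.nd (nat_lit 6) 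
(.lf (nat_lit 270129) (.g (nat_lit 1369) (.e (nat_lit 196626) (nat_lit 9) (.e (nat_lit 1183) (nat_lit 87) (.e (nat_lit 57848) (nat_lit 252) (.e (nat_lit 57372) (nat_lit 2) (.e (nat_lit 90159) (nat_lit 11) .nil))))) .nil)) 
(.lf (nat_lit 270193) (.g (nat_lit 2743) (.e (nat_lit 196626) (nat_lit 9) (.e (nat_lit 1400) (nat_lit 106) (.e (nat_lit 319533) (nat_lit 16) (.e (nat_lit 286733) (nat_lit 2) (.e (nat_lit 90185) (nat_lit 17) .nil))))) .nil))))) (.nd (nat_lit 4) (.nd (nat_lit 5) (.nd (nat_lit 6) 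
(.lf (nat_lit 270089) (.g (nat_lit 3121) (.e (nat_lit 196625) (nat_lit 9) (.e (nat_lit 1401) (nat_lit 106) (.e (nat_lit 319531) (nat_lit 16) (.e (nat_lit 286733) (nat_lit 2) (.e (nat_lit 90169) (nat_lit 13) (.e (nat_lit 172103) (nat_lit 9) (.e (nat_lit 426114) (nat_lit 2) .nil))))))) (.g (nat_lit 5) .nil .nil))) 
(.lf (nat_lit 270153) (.g (nat_lit 1163) (.e (nat_lit 196626) (nat_lit 9) (.e (nat_lit 1400) (nat_lit 106) (.e (nat_lit 319511) (nat_lit 10) (.e (nat_lit 5394) (nat_lit 301) (.e (nat_lit 57464) (nat_lit 23) .nil))))) .nil))) (.nd (nat_lit 6) 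
(.lf (nat_lit 270121) (.g (nat_lit 1480) (.e (nat_lit 196625) (nat_lit 9) (.e (nat_lit 1598) (nat_lit 111) (.e (nat_lit 360473) (nat_lit 8) (.e (nat_lit 557091) (nat_lit 12) (.e (nat_lit 164022) (nat_lit 46) .nil))))) .nil)) 
(.lf (nat_lit 270185) (.g (nat_lit 1905) (.e (nat_lit 196626) (nat_lit 9) (.e (nat_lit 1400) (nat_lit 106) (.e (nat_lit 319533) (nat_lit 16) (.e (nat_lit 286732) (nat_lit 2) .nil)))) .nil)))) (.nd (nat_lit 5) (.nd (nat_lit 6) 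
(.lf (nat_lit 270105) (.g (nat_lit 2242) (.e (nat_lit 196625) (nat_lit 9) (.e (nat_lit 1595) (nat_lit 111) (.e (nat_lit 360467) (nat_lit 3) (.e (nat_lit 516139) (nat_lit 7) (.e (nat_lit 409643) (nat_lit 18) .nil))))) .nil)) 
(.lf (nat_lit 270169) (.g (nat_lit 2479) (.e (nat_lit 196626) (nat_lit 9) (.e (nat_lit 1400) (nat_lit 106) (.e (nat_lit 319531) (nat_lit 16) (.e (nat_lit 286735) (nat_lit 3) (.e (nat_lit 98356) (nat_lit 26) .nil))))) .nil))) (.nd (nat_lit 6) 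
(.lf (nat_lit 270137) (.g (nat_lit 1423) (.e (nat_lit 196626) (nat_lit 9) (.e (nat_lit 1183) (nat_lit 87) (.e (nat_lit 57848) (nat_lit 252) (.e (nat_lit 57377) (nat_lit 3) (.e (nat_lit 98317) (nat_lit 9) .nil))))) .nil)) 
(.lf (nat_lit 270201) (.g (nat_lit 2669) (.e (nat_lit 196626) (nat_lit 9) (.e (nat_lit 1400) (nat_lit 106) (.e (nat_lit 319533) (nat_lit 16) (.e (nat_lit 286734) (nat_lit 3) (.e (nat_lit 98380) (nat_lit 31) .nil))))) .nil)))))) (.nd (nat_lit 3) (.nd (nat_lit 4) (.nd (nat_lit 5) (.nd (nat_lit 6) 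
(.lf (nat_lit 270085) (.g (nat_lit 1951) (.e (nat_lit 196624) (nat_lit 9) (.e (nat_lit 1615) (nat_lit 113) (.e (nat_lit 376867) (nat_lit 23) (.e (nat_lit 98350) (nat_lit 24) (.e (nat_lit 409623) (nat_lit 10) (.e (nat_lit 5664) (nat_lit 312) (.e (nat_lit 2661) (nat_lit 167) .nil))))))) (.g (nat_lit 4) .nil .nil))) 
(.lf (nat_lit 270149) (.g (nat_lit 744) (.e (nat_lit 196626) (nat_lit 9) (.e (nat_lit 1400) (nat_lit 106) (.e (nat_lit 319505) (nat_lit 10) (.e (nat_lit 5714) (nat_lit 312) .nil)))) .nil))) (.nd (nat_lit 6) 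
(.lf (nat_lit 270117) (.g (nat_lit 1964) (.e (nat_lit 196625) (nat_lit 9) (.e (nat_lit 1595) (nat_lit 111) (.e (nat_lit 360473) (nat_lit 8) (.e (nat_lit 557093) (nat_lit 12) (.e (nat_lit 171776) (nat_lit 48) .nil))))) .nil)) 
(.lf (nat_lit 270181) (.g (nat_lit 1767) (.e (nat_lit 196626) (nat_lit 9) (.e (nat_lit 1400) (nat_lit 106) (.e (nat_lit 319533) (nat_lit 16) (.e (nat_lit 286723) (nat_lit 0) .nil)))) .nil)))) (.nd (nat_lit 5) (.nd (nat_lit 6) 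
(.lf (nat_lit 270101) (.g (nat_lit 3090) (.e (nat_lit 196625) (nat_lit 9) (.e (nat_lit 1589) (nat_lit 111) (.e (nat_lit 360475) (nat_lit 8) (.e (nat_lit 557091) (nat_lit 12) (.e (nat_lit 164022) (nat_lit 46) .nil))))) .nil)) 
(.lf (nat_lit 270165) (.g (nat_lit 1335) (.e (nat_lit 196626) (nat_lit 9) (.e (nat_lit 1400) (nat_lit 106) (.e (nat_lit 319531) (nat_lit 16) (.e (nat_lit 286733) (nat_lit 2) .nil)))) .nil))) (.nd (nat_lit 6) 
(.lf (nat_lit 270133) (.g (nat_lit 2343) (.e (nat_lit 196626) (nat_lit 9) (.e (nat_lit 1183) (nat_lit 87) (.e (nat_lit 57848) (nat_lit 252) (.e (nat_lit 57375) (nat_lit 2) (.e (nat_lit 90128) (nat_lit 9) (.e (nat_lit 297) (nat_lit 22) (.e (nat_lit 344120) (nat_lit 21) (.e (nat_lit 516131) (nat_lit 3) (.e (nat_lit 221212) (nat_lit 22) .nil))))))))) (.g (nat_lit 4) .nil .nil))) 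
(.lf (nat_lit 270197) (.g (nat_lit 2931) (.e (nat_lit 196626) (nat_lit 9) (.e (nat_lit 1400) (nat_lit 106) (.e (nat_lit 319533) (nat_lit 16) (.e (nat_lit 286734) (nat_lit 3) (.e (nat_lit 106240) (nat_lit 26) (.e (nat_lit 426265) (nat_lit 9) (.e (nat_lit 426116) (nat_lit 2) .nil))))))) (.g (nat_lit 4) .nil .nil)))))) (.nd (nat_lit 4) (.nd (nat_lit 5) (.nd (nat_lit 6) 
(.lf (nat_lit 270093) (.g (nat_lit 2034) (.e (nat_lit 196625) (nat_lit 9) (.e (nat_lit 1401) (nat_lit 106) (.e (nat_lit 319531) (nat_lit 16) (.e (nat_lit 286735) (nat_lit 3) (.e (nat_lit 98323) (nat_lit 17) .nil))))) .nil)) 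
(.lf (nat_lit 270157) (.g (nat_lit 1914) (.e (nat_lit 196626) (nat_lit 9) (.e (nat_lit 1400) (nat_lit 106) (.e (nat_lit 319529) (nat_lit 16) (.e (nat_lit 286735) (nat_lit 3) (.e (nat_lit 98382) (nat_lit 31) .nil))))) .nil))) (.nd (nat_lit 6) 
(.lf (nat_lit 270125) (.g (nat_lit 2398) (.e (nat_lit 196625) (nat_lit 9) (.e (nat_lit 1667) (nat_lit 116) (.e (nat_lit 401459) (nat_lit 13) (.e (nat_lit 483344) (nat_lit 17) (.e (nat_lit 2367) (nat_lit 153) (.e (nat_lit 794684) (nat_lit 25) (.e (nat_lit 221212) (nat_lit 22) .nil))))))) (.g (nat_lit 4) .nil .nil))) 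
(.lf (nat_lit 270189) (.g (nat_lit 1593) (.e (nat_lit 196626) (nat_lit 9) (.e (nat_lit 1400) (nat_lit 106) (.e (nat_lit 319533) (nat_lit 16) (.e (nat_lit 286733) (nat_lit 2) .nil)))) .nil)))) (.nd (nat_lit 5) (.nd (nat_lit 6) 
(.lf (nat_lit 270109) (.g (nat_lit 2158) (.e (nat_lit 196625) (nat_lit 9) (.e (nat_lit 1595) (nat_lit 111) (.e (nat_lit 360473) (nat_lit 8) (.e (nat_lit 557089) (nat_lit 12) (.e (nat_lit 171776) (nat_lit 48) .nil))))) .nil)) 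
(.lf (nat_lit 270173) (.g (nat_lit 950) (.e (nat_lit 196626) (nat_lit 9) (.e (nat_lit 1400) (nat_lit 106) (.e (nat_lit 319532) (nat_lit 16) (.e (nat_lit 286734) (nat_lit 3) .nil)))) .nil))) (.nd (nat_lit 6) 
(.lf (nat_lit 270141) (.g (nat_lit 2393) (.e (nat_lit 196626) (nat_lit 9) (.e (nat_lit 1183) (nat_lit 87) (.e (nat_lit 57849) (nat_lit 252) (.e (nat_lit 57377) (nat_lit 3) (.e (nat_lit 98313) (nat_lit 9) .nil))))) .nil)) 
(.lf (nat_lit 270205) (.g (nat_lit 2962) (.e (nat_lit 196626) (nat_lit 9) (.e (nat_lit 1400) (nat_lit 106) (.e (nat_lit 319533) (nat_lit 16) (.e (nat_lit 286735) (nat_lit 3) (.e (nat_lit 98355) (nat_lit 26) .nil))))) .nil))))))) (.nd (nat_lit 2) (.nd (nat_lit 3) (.nd (nat_lit 4) (.nd (nat_lit 5) (.nd (nat_lit 6) 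
(.lf (nat_lit 270083) (.g (nat_lit 2321) (.e (nat_lit 196624) (nat_lit 9) (.e (nat_lit 1615) (nat_lit 113) (.e (nat_lit 376865) (nat_lit 22) (.e (nat_lit 90185) (nat_lit 17) (.e (nat_lit 237585) (nat_lit 1) (.e (nat_lit 171776) (nat_lit 219) (.e (nat_lit 163869) (nat_lit 2) .nil))))))) (.g (nat_lit 4) .nil .nil))) 
(.lf (nat_lit 270147) (.g (nat_lit 1226) (.e (nat_lit 196626) (nat_lit 9) (.e (nat_lit 1400) (nat_lit 106) (.e (nat_lit 319504) (nat_lit 10) (.e (nat_lit 5395) (nat_lit 301) .nil)))) .nil))) (.nd (nat_lit 6) 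
(.lf (nat_lit 270115) (.g (nat_lit 3419) (.e (nat_lit 196625) (nat_lit 9) (.e (nat_lit 1595) (nat_lit 111) (.e (nat_lit 360473) (nat_lit 8) (.e (nat_lit 557093) (nat_lit 12) (.e (nat_lit 164022) (nat_lit 46) (.e (nat_lit 704737) (nat_lit 11) (.e (nat_lit 16411) (nat_lit 2) .nil))))))) (.g (nat_lit 6) .nil .nil))) 
(.lf (nat_lit 270179) (.g (nat_lit 404) (.e (nat_lit 196626) (nat_lit 9) (.e (nat_lit 1400) (nat_lit 106) (.e (nat_lit 319533) (nat_lit 16) .nil))) .nil)))) (.nd (nat_lit 5) (.nd (nat_lit 6) 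
(.lf (nat_lit 270099) (.g (nat_lit 4179) (.e (nat_lit 196625) (nat_lit 9) (.e (nat_lit 1589) (nat_lit 111) (.e (nat_lit 360473) (nat_lit 8) (.e (nat_lit 557090) (nat_lit 12) (.e (nat_lit 164020) (nat_lit 45) .nil))))) .nil)) 
(.lf (nat_lit 270163) (.g (nat_lit 2447) (.e (nat_lit 196626) (nat_lit 9) (.e (nat_lit 1400) (nat_lit 106) (.e (nat_lit 319531) (nat_lit 16) (.e (nat_lit 286727) (nat_lit 0) (.e (nat_lit 1799) (nat_lit 119) .nil))))) .nil))) (.nd (nat_lit 6) 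
(.lf (nat_lit 270131) (.g (nat_lit 2046) (.e (nat_lit 196626) (nat_lit 9) (.e (nat_lit 1183) (nat_lit 87) (.e (nat_lit 57848) (nat_lit 252) (.e (nat_lit 57372) (nat_lit 2) (.e (nat_lit 90160) (nat_lit 11) .nil))))) .nil)) 
(.lf (nat_lit 270195) (.g (nat_lit 2766) (.e (nat_lit 196626) (nat_lit 9) (.e (nat_lit 1400) (nat_lit 106) (.e (nat_lit 319533) (nat_lit 16) (.e (nat_lit 286734) (nat_lit 3) (.e (nat_lit 98356) (nat_lit 26) .nil))))) .nil))))) (.nd (nat_lit 4) (.nd (nat_lit 5) (.nd (nat_lit 6) 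
(.lf (nat_lit 270091) (.g (nat_lit 1735) (.e (nat_lit 196625) (nat_lit 9) (.e (nat_lit 1401) (nat_lit 106) (.e (nat_lit 319531) (nat_lit 16) (.e (nat_lit 286734) (nat_lit 3) (.e (nat_lit 98381) (nat_lit 31) .nil))))) .nil)) 
(.lf (nat_lit 270155) (.g (nat_lit 754) (.e (nat_lit 196626) (nat_lit 9) (.e (nat_lit 1400) (nat_lit 106) (.e (nat_lit 319528) (nat_lit 16) (.e (nat_lit 286727) (nat_lit 0) .nil)))) .nil))) (.nd (nat_lit 6) 
(.lf (nat_lit 270123) (.g (nat_lit 1332) (.e (nat_lit 196625) (nat_lit 9) (.e (nat_lit 1667) (nat_lit 116) (.e (nat_lit 401457) (nat_lit 13) (.e (nat_lit 483346) (nat_lit 17) .nil)))) .nil)) 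
(.lf (nat_lit 270187) (.g (nat_lit 3181) (.e (nat_lit 196626) (nat_lit 9) (.e (nat_lit 1400) (nat_lit 106) (.e (nat_lit 319533) (nat_lit 16) (.e (nat_lit 286732) (nat_lit 2) (.e (nat_lit 90184) (nat_lit 17) .nil))))) .nil)))) (.nd (nat_lit 5) (.nd (nat_lit 6) 
(.lf (nat_lit 270107) (.g (nat_lit 4562) (.e (nat_lit 196625) (nat_lit 9) (.e (nat_lit 1595) (nat_lit 111) (.e (nat_lit 360467) (nat_lit 3) (.e (nat_lit 516139) (nat_lit 7) (.e (nat_lit 409649) (nat_lit 18) (.e (nat_lit 303117) (nat_lit 2) .nil)))))) (.g (nat_lit 6) .nil .nil))) 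
(.lf (nat_lit 270171) (.g (nat_lit 1844) (.e (nat_lit 196626) (nat_lit 9) (.e (nat_lit 1400) (nat_lit 106) (.e (nat_lit 319532) (nat_lit 16) (.e (nat_lit 286732) (nat_lit 2) (.e (nat_lit 90178) (nat_lit 15) .nil))))) .nil))) (.nd (nat_lit 6) 
(.lf (nat_lit 270139) (.g (nat_lit 1418) (.e (nat_lit 196626) (nat_lit 9) (.e (nat_lit 1183) (nat_lit 87) (.e (nat_lit 57848) (nat_lit 252) (.e (nat_lit 57407) (nat_lit 12) (.e (nat_lit 336456) (nat_lit 34) .nil))))) .nil)) 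
(.lf (nat_lit 270203) (.g (nat_lit 2835) (.e (nat_lit 196626) (nat_lit 9) (.e (nat_lit 1400) (nat_lit 106) (.e (nat_lit 319533) (nat_lit 16) (.e (nat_lit 286735) (nat_lit 3) (.e (nat_lit 98325) (nat_lit 17) .nil))))) .nil)))))) (.nd (nat_lit 3) (.nd (nat_lit 4) (.nd (nat_lit 5) (.nd (nat_lit 6) 
(.lf (nat_lit 270087) (.g (nat_lit 1682) (.e (nat_lit 196624) (nat_lit 9) (.e (nat_lit 1615) (nat_lit 113) (.e (nat_lit 376869) (nat_lit 23) (.e (nat_lit 98350) (nat_lit 24) (.e (nat_lit 417536) (nat_lit 18) .nil))))) .nil)) 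
(.lf (nat_lit 270151) (.g (nat_lit 1890) (.e (nat_lit 196626) (nat_lit 9) (.e (nat_lit 1400) (nat_lit 106) (.e (nat_lit 319511) (nat_lit 10) (.e (nat_lit 5293) (nat_lit 298) (.e (nat_lit 1250) (nat_lit 92) (.e (nat_lit 98382) (nat_lit 31) (.e (nat_lit 466974) (nat_lit 22) .nil))))))) (.g (nat_lit 4) .nil .nil)))) (.nd (nat_lit 6) 
(.lf (nat_lit 270119) (.g (nat_lit 1616) (.e (nat_lit 196625) (nat_lit 9) (.e (nat_lit 1595) (nat_lit 111) (.e (nat_lit 360473) (nat_lit 8) (.e (nat_lit 557094) (nat_lit 12) (.e (nat_lit 171776) (nat_lit 48) .nil))))) .nil)) 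
(.lf (nat_lit 270183) (.g (nat_lit 1755) (.e (nat_lit 196626) (nat_lit 9) (.e (nat_lit 1400) (nat_lit 106) (.e (nat_lit 319533) (nat_lit 16) (.e (nat_lit 286725) (nat_lit 0) .nil)))) .nil)))) (.nd (nat_lit 5) (.nd (nat_lit 6) 
(.lf (nat_lit 270103) (.g (nat_lit 2038) (.e (nat_lit 196625) (nat_lit 9) (.e (nat_lit 1595) (nat_lit 111) (.e (nat_lit 360467) (nat_lit 3) (.e (nat_lit 516139) (nat_lit 7) (.e (nat_lit 409616) (nat_lit 10) .nil))))) .nil)) 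
(.lf (nat_lit 270167) (.g (nat_lit 1174) (.e (nat_lit 196626) (nat_lit 9) (.e (nat_lit 1400) (nat_lit 106) (.e (nat_lit 319531) (nat_lit 16) (.e (nat_lit 286735) (nat_lit 3) .nil)))) .nil))) (.nd (nat_lit 6) 
(.lf (nat_lit 270135) (.g (nat_lit 1306) (.e (nat_lit 196626) (nat_lit 9) (.e (nat_lit 1183) (nat_lit 87) (.e (nat_lit 57848) (nat_lit 252) (.e (nat_lit 57375) (nat_lit 2) (.e (nat_lit 90159) (nat_lit 11) .nil))))) .nil)) 
(.lf (nat_lit 270199) (.g (nat_lit 2764) (.e (nat_lit 196626) (nat_lit 9) (.e (nat_lit 1400) (nat_lit 106) (.e (nat_lit 319533) (nat_lit 16) (.e (nat_lit 286734) (nat_lit 3) (.e (nat_lit 98369) (nat_lit 28) .nil))))) .nil))))) (.nd (nat_lit 4) (.nd (nat_lit 5) (.nd (nat_lit 6) 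
(.lf (nat_lit 270095) (.g (nat_lit 1788) (.e (nat_lit 196625) (nat_lit 9) (.e (nat_lit 1401) (nat_lit 106) (.e (nat_lit 319531) (nat_lit 16) (.e (nat_lit 286735) (nat_lit 3) (.e (nat_lit 106240) (nat_lit 26) .nil))))) .nil)) 
(.lf (nat_lit 270159) (.g (nat_lit 1425) (.e (nat_lit 196626) (nat_lit 9) (.e (nat_lit 1400) (nat_lit 106) (.e (nat_lit 319530) (nat_lit 16) (.e (nat_lit 286733) (nat_lit 2) .nil)))) .nil))) (.nd (nat_lit 6) 
(.lf (nat_lit 270127) (.g (nat_lit 1008) (.e (nat_lit 196626) (nat_lit 9) (.e (nat_lit 1183) (nat_lit 87) (.e (nat_lit 57848) (nat_lit 252) (.e (nat_lit 57372) (nat_lit 2) .nil)))) .nil)) 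
(.lf (nat_lit 270191) (.g (nat_lit 2668) (.e (nat_lit 196626) (nat_lit 9) (.e (nat_lit 1400) (nat_lit 106) (.e (nat_lit 319533) (nat_lit 16) (.e (nat_lit 286733) (nat_lit 2) (.e (nat_lit 90170) (nat_lit 13) .nil))))) .nil)))) (.nd (nat_lit 5) (.nd (nat_lit 6) 
(.lf (nat_lit 270111) (.g (nat_lit 3534) (.e (nat_lit 196625) (nat_lit 9) (.e (nat_lit 1595) (nat_lit 111) (.e (nat_lit 360473) (nat_lit 8) (.e (nat_lit 557091) (nat_lit 12) (.e (nat_lit 164022) (nat_lit 46) (.e (nat_lit 704737) (nat_lit 11) (.e (nat_lit 16411) (nat_lit 2) .nil))))))) (.g (nat_lit 6) .nil .nil))) 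
(.lf (nat_lit 270175) (.g (nat_lit 973) (.e (nat_lit 196626) (nat_lit 9) (.e (nat_lit 1400) (nat_lit 106) (.e (nat_lit 319532) (nat_lit 16) (.e (nat_lit 286735) (nat_lit 3) .nil)))) .nil))) (.nd (nat_lit 6) 
(.lf (nat_lit 270143) (.g (nat_lit 2800) (.e (nat_lit 196626) (nat_lit 9) (.e (nat_lit 1183) (nat_lit 87) (.e (nat_lit 57849) (nat_lit 252) (.e (nat_lit 57377) (nat_lit 3) (.e (nat_lit 106240) (nat_lit 10) (.e (nat_lit 344120) (nat_lit 21) (.e (nat_lit 516131) (nat_lit 3) (.e (nat_lit 221212) (nat_lit 22) .nil)))))))) (.g (nat_lit 4) .nil .nil))) 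
(.lf (nat_lit 270207) (.g (nat_lit 2551) (.e (nat_lit 196626) (nat_lit 9) (.e (nat_lit 1400) (nat_lit 106) (.e (nat_lit 319533) (nat_lit 16) (.e (nat_lit 286735) (nat_lit 3) (.e (nat_lit 98359) (nat_lit 26) .nil))))) .nil)))))))))

noncomputable def tv3468 : DT := (.nd (nat_lit 0) (.nd (nat_lit 1) (.nd (nat_lit 2) (.nd (nat_lit 3) (.nd (nat_lit 4) (.nd (nat_lit 5) (.nd (nat_lit 6) 
(.lf (nat_lit 270208) (.g (nat_lit 3155) (.e (nat_lit 196626) (nat_lit 9) (.e (nat_lit 1400) (nat_lit 106) (.e (nat_lit 319533) (nat_lit 16) (.e (nat_lit 286735) (nat_lit 3) (.e (nat_lit 106240) (nat_lit 26) (.e (nat_lit 426265) (nat_lit 9) (.e (nat_lit 426124) (nat_lit 2) .nil))))))) (.g (nat_lit 4) .nil .nil))) 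
(.lf (nat_lit 270272) (.g (nat_lit 1602) (.e (nat_lit 196626) (nat_lit 9) (.e (nat_lit 1669) (nat_lit 116) (.e (nat_lit 401459) (nat_lit 13) (.e (nat_lit 483354) (nat_lit 17) .nil)))) .nil))) (.nd (nat_lit 6) 
(.lf (nat_lit 270240) (.g (nat_lit 1894) (.e (nat_lit 196626) (nat_lit 9) (.e (nat_lit 1400) (nat_lit 106) (.e (nat_lit 319534) (nat_lit 16) (.e (nat_lit 286735) (nat_lit 3) (.e (nat_lit 98359) (nat_lit 26) .nil))))) .nil)) 
(.lf (nat_lit 270304) (.g (nat_lit 5576) (.e (nat_lit 196628) (nat_lit 9) (.e (nat_lit 1676) (nat_lit 116) (.e (nat_lit 401454) (nat_lit 12) (.e (nat_lit 475183) (nat_lit 29) (.e (nat_lit 557109) (nat_lit 15) (.e (nat_lit 188449) (nat_lit 22) .nil)))))) (.g (nat_lit 6) .nil .nil))))) (.nd (nat_lit 5) (.nd (nat_lit 6) 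
(.lf (nat_lit 270224) (.g (nat_lit 2389) (.e (nat_lit 196626) (nat_lit 9) (.e (nat_lit 1400) (nat_lit 106) (.e (nat_lit 319534) (nat_lit 16) (.e (nat_lit 286733) (nat_lit 2) (.e (nat_lit 90169) (nat_lit 13) .nil))))) .nil)) 
(.lf (nat_lit 270288) (.g (nat_lit 3776) (.e (nat_lit 196627) (nat_lit 9) (.e (nat_lit 1592) (nat_lit 111) (.e (nat_lit 360473) (nat_lit 8) (.e (nat_lit 557090) (nat_lit 12) (.e (nat_lit 164020) (nat_lit 45) .nil))))) .nil))) (.nd (nat_lit 6) 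
(.lf (nat_lit 270256) (.g (nat_lit 2014) (.e (nat_lit 196626) (nat_lit 9) (.e (nat_lit 1586) (nat_lit 111) (.e (nat_lit 360475) (nat_lit 8) (.e (nat_lit 557086) (nat_lit 11) .nil)))) .nil)) 
(.lf (nat_lit 270320) (.g (nat_lit 1653) (.e (nat_lit 196630) (nat_lit 9) (.e (nat_lit 1401) (nat_lit 106) (.e (nat_lit 319531) (nat_lit 16) (.e (nat_lit 286727) (nat_lit 0) (.e (nat_lit 1799) (nat_lit 119) .nil))))) .nil))))) (.nd (nat_lit 4) (.nd (nat_lit 5) (.nd (nat_lit 6) 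
(.lf (nat_lit 270216) (.g (nat_lit 1653) (.e (nat_lit 196626) (nat_lit 9) (.e (nat_lit 1400) (nat_lit 106) (.e (nat_lit 319534) (nat_lit 16) (.e (nat_lit 286728) (nat_lit 0) (.e (nat_lit 1788) (nat_lit 119) .nil))))) .nil)) 
(.lf (nat_lit 270280) (.g (nat_lit 1629) (.e (nat_lit 196627) (nat_lit 9) (.e (nat_lit 1586) (nat_lit 111) (.e (nat_lit 360474) (nat_lit 8) (.e (nat_lit 557094) (nat_lit 12) (.e (nat_lit 164022) (nat_lit 46) .nil))))) .nil))) (.nd (nat_lit 6) 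
(.lf (nat_lit 270248) (.g (nat_lit 2556) (.e (nat_lit 196626) (nat_lit 9) (.e (nat_lit 1400) (nat_lit 106) (.e (nat_lit 319535) (nat_lit 17) (.e (nat_lit 294928) (nat_lit 2) (.e (nat_lit 90185) (nat_lit 17) .nil))))) .nil)) 
(.lf (nat_lit 270312) (.g (nat_lit 944) (.e (nat_lit 196630) (nat_lit 9) (.e (nat_lit 430) (nat_lit 32) (.e (nat_lit 426098) (nat_lit 1) (.e (nat_lit 164399) (nat_lit 256) .nil)))) .nil)))) (.nd (nat_lit 5) (.nd (nat_lit 6) 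
(.lf (nat_lit 270232) (.g (nat_lit 2377) (.e (nat_lit 196626) (nat_lit 9) (.e (nat_lit 1400) (nat_lit 106) (.e (nat_lit 319534) (nat_lit 16) (.e (nat_lit 286734) (nat_lit 3) (.e (nat_lit 98369) (nat_lit 28) .nil))))) .nil)) 
(.lf (nat_lit 270296) (.g (nat_lit 3200) (.e (nat_lit 196628) (nat_lit 9) (.e (nat_lit 970) (nat_lit 81) (.e (nat_lit 6717) (nat_lit 361) (.e (nat_lit 172133) (nat_lit 15) (.e (nat_lit 1856) (nat_lit 124) (.e (nat_lit 557109) (nat_lit 15) (.e (nat_lit 188449) (nat_lit 22) .nil))))))) (.g (nat_lit 7) .nil .nil)))) (.nd (nat_lit 6) 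
(.lf (nat_lit 270264) (.g (nat_lit 2517) (.e (nat_lit 196626) (nat_lit 9) (.e (nat_lit 1642) (nat_lit 114) (.e (nat_lit 385068) (nat_lit 26) (.e (nat_lit 532563) (nat_lit 15) (.e (nat_lit 385068) (nat_lit 26) .nil))))) .nil)) 
(.lf (nat_lit 270328) (.g (nat_lit 1983) (.e (nat_lit 196630) (nat_lit 9) (.e (nat_lit 1401) (nat_lit 106) (.e (nat_lit 319531) (nat_lit 16) (.e (nat_lit 286735) (nat_lit 3) (.e (nat_lit 98353) (nat_lit 25) .nil))))) .nil)))))) (.nd (nat_lit 3) (.nd (nat_lit 4) (.nd (nat_lit 5) (.nd (nat_lit 6) 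
(.lf (nat_lit 270212) (.g (nat_lit 1733) (.e (nat_lit 196626) (nat_lit 9) (.e (nat_lit 1400) (nat_lit 106) (.e (nat_lit 319534) (nat_lit 16) (.e (nat_lit 286723) (nat_lit 0) .nil)))) .nil)) 
(.lf (nat_lit 270276) (.g (nat_lit 2059) (.e (nat_lit 196627) (nat_lit 9) (.e (nat_lit 1401) (nat_lit 106) (.e (nat_lit 319531) (nat_lit 16) (.e (nat_lit 286735) (nat_lit 3) (.e (nat_lit 98382) (nat_lit 31) .nil))))) .nil))) (.nd (nat_lit 6) 
(.lf (nat_lit 270244) (.g (nat_lit 459) (.e (nat_lit 196626) (nat_lit 9) (.e (nat_lit 1400) (nat_lit 106) (.e (nat_lit 327424) (nat_lit 16) .nil))) .nil)) 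
(.lf (nat_lit 270308) (.g (nat_lit 1945) (.e (nat_lit 196628) (nat_lit 9) (.e (nat_lit 1676) (nat_lit 116) (.e (nat_lit 401458) (nat_lit 13) (.e (nat_lit 483350) (nat_lit 17) (.e (nat_lit 7936) (nat_lit 153) (.e (nat_lit 794684) (nat_lit 25) (.e (nat_lit 221212) (nat_lit 22) .nil))))))) (.g (nat_lit 4) .nil .nil))))) (.nd (nat_lit 5) (.nd (nat_lit 6) 
(.lf (nat_lit 270228) (.g (nat_lit 2414) (.e (nat_lit 196626) (nat_lit 9) (.e (nat_lit 1400) (nat_lit 106) (.e (nat_lit 319534) (nat_lit 16) (.e (nat_lit 286734) (nat_lit 3) (.e (nat_lit 98356) (nat_lit 26) .nil))))) .nil)) 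
(.lf (nat_lit 270292) (.g (nat_lit 4518) (.e (nat_lit 196628) (nat_lit 9) (.e (nat_lit 968) (nat_lit 81) (.e (nat_lit 6721) (nat_lit 362) (.e (nat_lit 180244) (nat_lit 5) (.e (nat_lit 532523) (nat_lit 7) (.e (nat_lit 319505) (nat_lit 10) (.e (nat_lit 5714) (nat_lit 312) (.e (nat_lit 2664) (nat_lit 167) .nil)))))))) (.g (nat_lit 8) .nil .nil)))) (.nd (nat_lit 6) 
(.lf (nat_lit 270260) (.g (nat_lit 3636) (.e (nat_lit 196626) (nat_lit 9) (.e (nat_lit 1589) (nat_lit 111) (.e (nat_lit 360475) (nat_lit 8) (.e (nat_lit 557090) (nat_lit 12) .nil)))) .nil)) 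
(.lf (nat_lit 270324) (.g (nat_lit 1133) (.e (nat_lit 196630) (nat_lit 9) (.e (nat_lit 1401) (nat_lit 106) (.e (nat_lit 319531) (nat_lit 16) (.e (nat_lit 286733) (nat_lit 2) .nil)))) .nil))))) (.nd (nat_lit 4) (.nd (nat_lit 5) (.nd (nat_lit 6) 
(.lf (nat_lit 270220) (.g (nat_lit 1312) (.e (nat_lit 196626) (nat_lit 9) (.e (nat_lit 1400) (nat_lit 106) (.e (nat_lit 319534) (nat_lit 16) (.e (nat_lit 286732) (nat_lit 2) .nil)))) .nil)) 
(.lf (nat_lit 270284) (.g (nat_lit 4179) (.e (nat_lit 196627) (nat_lit 9) (.e (nat_lit 1589) (nat_lit 111) (.e (nat_lit 360473) (nat_lit 8) (.e (nat_lit 557090) (nat_lit 12) (.e (nat_lit 164020) (nat_lit 45) .nil))))) .nil))) (.nd (nat_lit 6) 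
(.lf (nat_lit 270252) (.g (nat_lit 1840) (.e (nat_lit 196626) (nat_lit 9) (.e (nat_lit 1401) (nat_lit 106) (.e (nat_lit 319531) (nat_lit 16) (.e (nat_lit 286727) (nat_lit 0) (.e (nat_lit 1799) (nat_lit 119) .nil))))) .nil)) 
(.lf (nat_lit 270316) (.g (nat_lit 2032) (.e (nat_lit 196630) (nat_lit 9) (.e (nat_lit 1396) (nat_lit 106) (.e (nat_lit 319530) (nat_lit 16) (.e (nat_lit 286733) (nat_lit 2) (.e (nat_lit 90177) (nat_lit 15) .nil))))) .nil)))) (.nd (nat_lit 5) (.nd (nat_lit 6) 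
(.lf (nat_lit 270236) (.g (nat_lit 2296) (.e (nat_lit 196626) (nat_lit 9) (.e (nat_lit 1400) (nat_lit 106) (.e (nat_lit 319534) (nat_lit 16) (.e (nat_lit 286735) (nat_lit 3) (.e (nat_lit 98323) (nat_lit 17) .nil))))) .nil)) 
(.lf (nat_lit 270300) (.g (nat_lit 1433) (.e (nat_lit 196628) (nat_lit 9) (.e (nat_lit 970) (nat_lit 81) (.e (nat_lit 6723) (nat_lit 362) (.e (nat_lit 180243) (nat_lit 5) (.e (nat_lit 532488) (nat_lit 0) (.e (nat_lit 7936) (nat_lit 364) (.e (nat_lit 237589) (nat_lit 2) .nil))))))) (.g (nat_lit 5) .nil .nil)))) (.nd (nat_lit 6) 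
(.lf (nat_lit 270268) (.g (nat_lit 1576) (.e (nat_lit 196626) (nat_lit 9) (.e (nat_lit 1669) (nat_lit 116) (.e (nat_lit 401457) (nat_lit 13) (.e (nat_lit 483346) (nat_lit 17) .nil)))) .nil)) 
(.lf (nat_lit 270332) (.g (nat_lit 1913) (.e (nat_lit 196630) (nat_lit 9) (.e (nat_lit 1413) (nat_lit 108) (.e (nat_lit 336177) (nat_lit 10) (.e (nat_lit 344117) (nat_lit 21) (.e (nat_lit 516106) (nat_lit 0) (.e (nat_lit 7936) (nat_lit 377) (.e (nat_lit 2797) (nat_lit 180) (.e (nat_lit 303117) (nat_lit 2) .nil)))))))) (.g (nat_lit 5) .nil .nil)))))))) 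
(.nd (nat_lit 2) (.nd (nat_lit 3) (.nd (nat_lit 4) (.nd (nat_lit 5) (.nd (nat_lit 6) 
(.lf (nat_lit 270210) (.g (nat_lit 236) (.e (nat_lit 196626) (nat_lit 9) (.e (nat_lit 1400) (nat_lit 106) (.e (nat_lit 319534) (nat_lit 16) .nil))) .nil)) 
(.lf (nat_lit 270274) (.g (nat_lit 1790) (.e (nat_lit 196627) (nat_lit 9) (.e (nat_lit 1401) (nat_lit 106) (.e (nat_lit 319531) (nat_lit 16) (.e (nat_lit 286727) (nat_lit 0) (.e (nat_lit 1799) (nat_lit 119) .nil))))) .nil))) (.nd (nat_lit 6) 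
(.lf (nat_lit 270242) (.g (nat_lit 1951) (.e (nat_lit 196626) (nat_lit 9) (.e (nat_lit 1400) (nat_lit 106) (.e (nat_lit 319534) (nat_lit 16) (.e (nat_lit 286735) (nat_lit 3) (.e (nat_lit 98369) (nat_lit 28) .nil))))) .nil)) 
(.lf (nat_lit 270306) (.g (nat_lit 4122) (.e (nat_lit 196628) (nat_lit 9) (.e (nat_lit 1676) (nat_lit 116) (.e (nat_lit 401454) (nat_lit 12) (.e (nat_lit 475184) (nat_lit 29) (.e (nat_lit 557109) (nat_lit 15) (.e (nat_lit 188449) (nat_lit 22) .nil)))))) (.g (nat_lit 0) .nil .nil))))) (.nd (nat_lit 5) (.nd (nat_lit 6) 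
(.lf (nat_lit 270226) (.g (nat_lit 2455) (.e (nat_lit 196626) (nat_lit 9) (.e (nat_lit 1400) (nat_lit 106) (.e (nat_lit 319534) (nat_lit 16) (.e (nat_lit 286733) (nat_lit 2) (.e (nat_lit 90185) (nat_lit 17) .nil))))) .nil)) 
(.lf (nat_lit 270290) (.g (nat_lit 4066) (.e (nat_lit 196627) (nat_lit 9) (.e (nat_lit 1598) (nat_lit 111) (.e (nat_lit 360473) (nat_lit 8) (.e (nat_lit 557090) (nat_lit 12) (.e (nat_lit 164020) (nat_lit 45) .nil))))) .nil))) (.nd (nat_lit 6) 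
(.lf (nat_lit 270258) (.g (nat_lit 2855) (.e (nat_lit 196626) (nat_lit 9) (.e (nat_lit 1586) (nat_lit 111) (.e (nat_lit 360475) (nat_lit 8) (.e (nat_lit 557090) (nat_lit 12) .nil)))) .nil)) 
(.lf (nat_lit 270322) (.g (nat_lit 2134) (.e (nat_lit 196630) (nat_lit 9) (.e (nat_lit 1401) (nat_lit 106) (.e (nat_lit 319531) (nat_lit 16) (.e (nat_lit 286727) (nat_lit 0) (.e (nat_lit 1799) (nat_lit 119) (.e (nat_lit 516176) (nat_lit 14) (.e (nat_lit 466975) (nat_lit 22) .nil))))))) (.g (nat_lit 4) .nil .nil)))))) (.nd (nat_lit 4) (.nd (nat_lit 5) (.nd (nat_lit 6) 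
(.lf (nat_lit 270218) (.g (nat_lit 1790) (.e (nat_lit 196626) (nat_lit 9) (.e (nat_lit 1400) (nat_lit 106) (.e (nat_lit 319534) (nat_lit 16) (.e (nat_lit 286728) (nat_lit 0) (.e (nat_lit 1801) (nat_lit 119) .nil))))) .nil)) 
(.lf (nat_lit 270282) (.g (nat_lit 2633) (.e (nat_lit 196627) (nat_lit 9) (.e (nat_lit 1586) (nat_lit 111) (.e (nat_lit 360475) (nat_lit 8) (.e (nat_lit 557091) (nat_lit 12) (.e (nat_lit 164022) (nat_lit 46) .nil))))) .nil))) (.nd (nat_lit 6) 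
(.lf (nat_lit 270250) (.g (nat_lit 2661) (.e (nat_lit 196626) (nat_lit 9) (.e (nat_lit 1400) (nat_lit 106) (.e (nat_lit 319536) (nat_lit 17) (.e (nat_lit 294928) (nat_lit 2) (.e (nat_lit 90178) (nat_lit 15) .nil))))) .nil)) 
(.lf (nat_lit 270314) (.g (nat_lit 2796) (.e (nat_lit 196630) (nat_lit 9) (.e (nat_lit 1393) (nat_lit 106) (.e (nat_lit 319530) (nat_lit 16) (.e (nat_lit 286727) (nat_lit 0) (.e (nat_lit 1799) (nat_lit 119) (.e (nat_lit 516175) (nat_lit 14) (.e (nat_lit 466977) (nat_lit 22) .nil))))))) (.g (nat_lit 4) .nil .nil))))) (.nd (nat_lit 5) (.nd (nat_lit 6) 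
(.lf (nat_lit 270234) (.g (nat_lit 2326) (.e (nat_lit 196626) (nat_lit 9) (.e (nat_lit 1400) (nat_lit 106) (.e (nat_lit 319534) (nat_lit 16) (.e (nat_lit 286734) (nat_lit 3) (.e (nat_lit 98380) (nat_lit 31) .nil))))) .nil)) 
(.lf (nat_lit 270298) (.g (nat_lit 1837) (.e (nat_lit 196628) (nat_lit 9) (.e (nat_lit 970) (nat_lit 81) (.e (nat_lit 6723) (nat_lit 362) (.e (nat_lit 180243) (nat_lit 5) (.e (nat_lit 532484) (nat_lit 0) (.e (nat_lit 7936) (nat_lit 361) (.e (nat_lit 172063) (nat_lit 2) .nil))))))) (.g (nat_lit 5) .nil .nil)))) (.nd (nat_lit 6) 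
(.lf (nat_lit 270266) (.g (nat_lit 1523) (.e (nat_lit 196626) (nat_lit 9) (.e (nat_lit 1668) (nat_lit 116) (.e (nat_lit 401459) (nat_lit 13) (.e (nat_lit 483347) (nat_lit 17) (.e (nat_lit 7936) (nat_lit 153) .nil))))) .nil)) 
(.lf (nat_lit 270330) (.g (nat_lit 2066) (.e (nat_lit 196630) (nat_lit 9) (.e (nat_lit 1401) (nat_lit 106) (.e (nat_lit 319531) (nat_lit 16) (.e (nat_lit 286735) (nat_lit 3) (.e (nat_lit 98379) (nat_lit 31) .nil))))) .nil)))))) (.nd (nat_lit 3) (.nd (nat_lit 4) (.nd (nat_lit 5) (.nd (nat_lit 6) 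
(.lf (nat_lit 270214) (.g (nat_lit 941) (.e (nat_lit 196626) (nat_lit 9) (.e (nat_lit 1400) (nat_lit 106) (.e (nat_lit 319534) (nat_lit 16) (.e (nat_lit 286728) (nat_lit 0) .nil)))) .nil)) 
(.lf (nat_lit 270278) (.g (nat_lit 1014) (.e (nat_lit 196627) (nat_lit 9) (.e (nat_lit 1571) (nat_lit 110) (.e (nat_lit 352315) (nat_lit 23) (.e (nat_lit 98325) (nat_lit 17) (.e (nat_lit 7936) (nat_lit 377) .nil))))) .nil))) (.nd (nat_lit 6) 
(.lf (nat_lit 270246) (.g (nat_lit 976) (.e (nat_lit 196626) (nat_lit 9) (.e (nat_lit 1400) (nat_lit 106) (.e (nat_lit 327424) (nat_lit 16) (.e (nat_lit 286734) (nat_lit 3) (.e (nat_lit 98382) (nat_lit 31) .nil))))) .nil)) 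
(.lf (nat_lit 270310) (.g (nat_lit 2302) (.e (nat_lit 196628) (nat_lit 9) (.e (nat_lit 1676) (nat_lit 116) (.e (nat_lit 401459) (nat_lit 13) (.e (nat_lit 483344) (nat_lit 17) (.e (nat_lit 2369) (nat_lit 153) (.e (nat_lit 794683) (nat_lit 25) (.e (nat_lit 221212) (nat_lit 22) .nil))))))) (.g (nat_lit 4) .nil .nil))))) (.nd (nat_lit 5) (.nd (nat_lit 6) 
(.lf (nat_lit 270230) (.g (nat_lit 2619) (.e (nat_lit 196626) (nat_lit 9) (.e (nat_lit 1400) (nat_lit 106) (.e (nat_lit 319534) (nat_lit 16) (.e (nat_lit 286734) (nat_lit 3) (.e (nat_lit 106240) (nat_lit 26) (.e (nat_lit 426265) (nat_lit 9) (.e (nat_lit 426116) (nat_lit 2) .nil))))))) (.g (nat_lit 4) .nil .nil))) 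
(.lf (nat_lit 270294) (.g (nat_lit 1067) (.e (nat_lit 196628) (nat_lit 9) (.e (nat_lit 968) (nat_lit 81) (.e (nat_lit 6723) (nat_lit 362) (.e (nat_lit 180243) (nat_lit 5) (.e (nat_lit 532522) (nat_lit 7) .nil))))) .nil))) (.nd (nat_lit 6) 
(.lf (nat_lit 270262) (.g (nat_lit 1459) (.e (nat_lit 196626) (nat_lit 9) (.e (nat_lit 1642) (nat_lit 114) (.e (nat_lit 385068) (nat_lit 26) (.e (nat_lit 532501) (nat_lit 1) .nil)))) .nil)) 
(.lf (nat_lit 270326) (.g (nat_lit 3460) (.e (nat_lit 196630) (nat_lit 9) (.e (nat_lit 1401) (nat_lit 106) (.e (nat_lit 319531) (nat_lit 16) (.e (nat_lit 286733) (nat_lit 2) (.e (nat_lit 90134) (nat_lit 9) (.e (nat_lit 3002) (nat_lit 186) (.e (nat_lit 442422) (nat_lit 22) .nil))))))) (.g (nat_lit 5) .nil .nil)))))) (.nd (nat_lit 4) (.nd (nat_lit 5) (.nd (nat_lit 6) 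
(.lf (nat_lit 270222) (.g (nat_lit 2558) (.e (nat_lit 196626) (nat_lit 9) (.e (nat_lit 1400) (nat_lit 106) (.e (nat_lit 319534) (nat_lit 16) (.e (nat_lit 286732) (nat_lit 2) (.e (nat_lit 90185) (nat_lit 17) .nil))))) .nil)) 
(.lf (nat_lit 270286) (.g (nat_lit 4702) (.e (nat_lit 196627) (nat_lit 9) (.e (nat_lit 1589) (nat_lit 111) (.e (nat_lit 360475) (nat_lit 8) (.e (nat_lit 557090) (nat_lit 12) (.e (nat_lit 164020) (nat_lit 45) .nil))))) .nil))) (.nd (nat_lit 6) 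
(.lf (nat_lit 270254) (.g (nat_lit 2102) (.e (nat_lit 196626) (nat_lit 9) (.e (nat_lit 1586) (nat_lit 111) (.e (nat_lit 360468) (nat_lit 3) (.e (nat_lit 516139) (nat_lit 7) (.e (nat_lit 409646) (nat_lit 18) .nil))))) .nil)) 
(.lf (nat_lit 270318) (.g (nat_lit 1746) (.e (nat_lit 196630) (nat_lit 9) (.e (nat_lit 1401) (nat_lit 106) (.e (nat_lit 319530) (nat_lit 16) (.e (nat_lit 286735) (nat_lit 3) .nil)))) .nil)))) (.nd (nat_lit 5) (.nd (nat_lit 6) 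
(.lf (nat_lit 270238) (.g (nat_lit 2124) (.e (nat_lit 196626) (nat_lit 9) (.e (nat_lit 1400) (nat_lit 106) (.e (nat_lit 319534) (nat_lit 16) (.e (nat_lit 286735) (nat_lit 3) (.e (nat_lit 98352) (nat_lit 25) .nil))))) .nil)) 
(.lf (nat_lit 270302) (.g (nat_lit 2023) (.e (nat_lit 196628) (nat_lit 9) (.e (nat_lit 1483) (nat_lit 108) (.e (nat_lit 336203) (nat_lit 12) (.e (nat_lit 385072) (nat_lit 31) (.e (nat_lit 573480) (nat_lit 13) .nil))))) .nil))) (.nd (nat_lit 6) 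
(.lf (nat_lit 270270) (.g (nat_lit 2511) (.e (nat_lit 196626) (nat_lit 9) (.e (nat_lit 1669) (nat_lit 116) (.e (nat_lit 401459) (nat_lit 13) (.e (nat_lit 483344) (nat_lit 17) (.e (nat_lit 2368) (nat_lit 153) .nil))))) .nil)) 
(.lf (nat_lit 270334) (.g (nat_lit 1649) (.e (nat_lit 196630) (nat_lit 9) (.e (nat_lit 1504) (nat_lit 108) (.e (nat_lit 336204) (nat_lit 12) (.e (nat_lit 385074) (nat_lit 31) (.e (nat_lit 573489) (nat_lit 14) .nil))))) .nil)))))))) (.nd (nat_lit 1) (.nd (nat_lit 2) (.nd (nat_lit 3) (.nd (nat_lit 4) (.nd (nat_lit 5) (.nd (nat_lit 6) 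
(.lf (nat_lit 270209) (.g (nat_lit 3436) (.e (nat_lit 196626) (nat_lit 9) (.e (nat_lit 1400) (nat_lit 106) (.e (nat_lit 319533) (nat_lit 16) (.e (nat_lit 286735) (nat_lit 3) (.e (nat_lit 98369) (nat_lit 28) (.e (nat_lit 442422) (nat_lit 22) .nil)))))) (.g (nat_lit 5) .nil .nil))) 
(.lf (nat_lit 270273) (.g (nat_lit 1492) (.e (nat_lit 196627) (nat_lit 9) (.e (nat_lit 1395) (nat_lit 106) (.e (nat_lit 319530) (nat_lit 16) (.e (nat_lit 286733) (nat_lit 2) (.e (nat_lit 90186) (nat_lit 17) .nil))))) .nil))) (.nd (nat_lit 6) 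
(.lf (nat_lit 270241) (.g (nat_lit 3151) (.e (nat_lit 196626) (nat_lit 9) (.e (nat_lit 1400) (nat_lit 106) (.e (nat_lit 319534) (nat_lit 16) (.e (nat_lit 286735) (nat_lit 3) (.e (nat_lit 98359) (nat_lit 26) (.e (nat_lit 426208) (nat_lit 9) (.e (nat_lit 426120) (nat_lit 2) .nil))))))) (.g (nat_lit 5) .nil .nil))) 
(.lf (nat_lit 270305) (.g (nat_lit 3259) (.e (nat_lit 196628) (nat_lit 9) (.e (nat_lit 1676) (nat_lit 116) (.e (nat_lit 401454) (nat_lit 12) (.e (nat_lit 475184) (nat_lit 29) (.e (nat_lit 557107) (nat_lit 15) (.e (nat_lit 188447) (nat_lit 22) .nil)))))) (.g (nat_lit 0) .nil .nil))))) (.nd (nat_lit 5) (.nd (nat_lit 6) 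
(.lf (nat_lit 270225) (.g (nat_lit 2029) (.e (nat_lit 196626) (nat_lit 9) (.e (nat_lit 1400) (nat_lit 106) (.e (nat_lit 319534) (nat_lit 16) (.e (nat_lit 286733) (nat_lit 2) (.e (nat_lit 90170) (nat_lit 13) .nil))))) .nil)) 
(.lf (nat_lit 270289) (.g (nat_lit 2508) (.e (nat_lit 196627) (nat_lit 9) (.e (nat_lit 1595) (nat_lit 111) (.e (nat_lit 360473) (nat_lit 8) (.e (nat_lit 557090) (nat_lit 12) (.e (nat_lit 164020) (nat_lit 45) .nil))))) .nil))) (.nd (nat_lit 6) 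
(.lf (nat_lit 270257) (.g (nat_lit 1194) (.e (nat_lit 196626) (nat_lit 9) (.e (nat_lit 1586) (nat_lit 111) (.e (nat_lit 360475) (nat_lit 8) (.e (nat_lit 557087) (nat_lit 11) .nil)))) .nil)) 
(.lf (nat_lit 270321) (.g (nat_lit 2083) (.e (nat_lit 196630) (nat_lit 9) (.e (nat_lit 1401) (nat_lit 106) (.e (nat_lit 319531) (nat_lit 16) (.e (nat_lit 286727) (nat_lit 0) (.e (nat_lit 1799) (nat_lit 119) (.e (nat_lit 516174) (nat_lit 14) (.e (nat_lit 466975) (nat_lit 22) .nil))))))) (.g (nat_lit 4) .nil .nil)))))) (.nd (nat_lit 4) (.nd (nat_lit 5) (.nd (nat_lit 6) 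
(.lf (nat_lit 270217) (.g (nat_lit 1699) (.e (nat_lit 196626) (nat_lit 9) (.e (nat_lit 1400) (nat_lit 106) (.e (nat_lit 319534) (nat_lit 16) (.e (nat_lit 286728) (nat_lit 0) (.e (nat_lit 1798) (nat_lit 119) .nil))))) .nil)) 
(.lf (nat_lit 270281) (.g (nat_lit 2862) (.e (nat_lit 196627) (nat_lit 9) (.e (nat_lit 1586) (nat_lit 111) (.e (nat_lit 360475) (nat_lit 8) (.e (nat_lit 557090) (nat_lit 12) .nil)))) .nil))) (.nd (nat_lit 6) 
(.lf (nat_lit 270249) (.g (nat_lit 1529) (.e (nat_lit 196626) (nat_lit 9) (.e (nat_lit 1400) (nat_lit 106) (.e (nat_lit 319536) (nat_lit 17) (.e (nat_lit 294928) (nat_lit 2) .nil)))) .nil)) 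
(.lf (nat_lit 270313) (.g (nat_lit 898) (.e (nat_lit 196630) (nat_lit 9) (.e (nat_lit 1183) (nat_lit 87) (.e (nat_lit 57848) (nat_lit 252) (.e (nat_lit 57407) (nat_lit 12) .nil)))) .nil)))) (.nd (nat_lit 5) (.nd (nat_lit 6) 
(.lf (nat_lit 270233) (.g (nat_lit 2282) (.e (nat_lit 196626) (nat_lit 9) (.e (nat_lit 1400) (nat_lit 106) (.e (nat_lit 319534) (nat_lit 16) (.e (nat_lit 286734) (nat_lit 3) (.e (nat_lit 98370) (nat_lit 28) .nil))))) .nil)) 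
(.lf (nat_lit 270297) (.g (nat_lit 3023) (.e (nat_lit 196628) (nat_lit 9) (.e (nat_lit 970) (nat_lit 81) (.e (nat_lit 6719) (nat_lit 361) (.e (nat_lit 172133) (nat_lit 15) (.e (nat_lit 1856) (nat_lit 124) (.e (nat_lit 557109) (nat_lit 15) (.e (nat_lit 188449) (nat_lit 22) .nil))))))) (.g (nat_lit 7) .nil .nil)))) (.nd (nat_lit 6) 
(.lf (nat_lit 270265) (.g (nat_lit 2941) (.e (nat_lit 196626) (nat_lit 9) (.e (nat_lit 1642) (nat_lit 114) (.e (nat_lit 385094) (nat_lit 49) (.e (nat_lit 778317) (nat_lit 3) (.e (nat_lit 57479) (nat_lit 28) .nil))))) .nil)) 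
(.lf (nat_lit 270329) (.g (nat_lit 3389) (.e (nat_lit 196630) (nat_lit 9) (.e (nat_lit 1401) (nat_lit 106) (.e (nat_lit 319531) (nat_lit 16) (.e (nat_lit 286735) (nat_lit 3) (.e (nat_lit 98369) (nat_lit 28) (.e (nat_lit 442422) (nat_lit 22) .nil)))))) (.g (nat_lit 5) .nil .nil))))))) (.nd (nat_lit 3) (.nd (nat_lit 4) (.nd (nat_lit 5) (.nd (nat_lit 6) 
(.lf (nat_lit 270213) (.g (nat_lit 2447) (.e (nat_lit 196626) (nat_lit 9) (.e (nat_lit 1400) (nat_lit 106) (.e (nat_lit 319534) (nat_lit 16) (.e (nat_lit 286727) (nat_lit 0) (.e (nat_lit 1799) (nat_lit 119) .nil))))) .nil)) 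
(.lf (nat_lit 270277) (.g (nat_lit 705) (.e (nat_lit 196627) (nat_lit 9) (.e (nat_lit 1571) (nat_lit 110) (.e (nat_lit 352315) (nat_lit 23) (.e (nat_lit 98325) (nat_lit 17) .nil)))) .nil))) (.nd (nat_lit 6) 
(.lf (nat_lit 270245) (.g (nat_lit 919) (.e (nat_lit 196626) (nat_lit 9) (.e (nat_lit 1400) (nat_lit 106) (.e (nat_lit 327424) (nat_lit 16) (.e (nat_lit 286727) (nat_lit 0) (.e (nat_lit 1799) (nat_lit 119) .nil))))) .nil)) 
(.lf (nat_lit 270309) (.g (nat_lit 1110) (.e (nat_lit 196628) (nat_lit 9) (.e (nat_lit 1676) (nat_lit 116) (.e (nat_lit 401459) (nat_lit 13) (.e (nat_lit 483343) (nat_lit 17) .nil)))) .nil)))) (.nd (nat_lit 5) (.nd (nat_lit 6) 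
(.lf (nat_lit 270229) (.g (nat_lit 2278) (.e (nat_lit 196626) (nat_lit 9) (.e (nat_lit 1400) (nat_lit 106) (.e (nat_lit 319534) (nat_lit 16) (.e (nat_lit 286734) (nat_lit 3) (.e (nat_lit 98359) (nat_lit 26) .nil))))) .nil)) 
(.lf (nat_lit 270293) (.g (nat_lit 1823) (.e (nat_lit 196628) (nat_lit 9) (.e (nat_lit 968) (nat_lit 81) (.e (nat_lit 6723) (nat_lit 362) (.e (nat_lit 180243) (nat_lit 5) (.e (nat_lit 532484) (nat_lit 0) (.e (nat_lit 7936) (nat_lit 364) (.e (nat_lit 237589) (nat_lit 2) .nil))))))) (.g (nat_lit 5) .nil .nil)))) (.nd (nat_lit 6) 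
(.lf (nat_lit 270261) (.g (nat_lit 3077) (.e (nat_lit 196626) (nat_lit 9) (.e (nat_lit 1589) (nat_lit 111) (.e (nat_lit 360475) (nat_lit 8) (.e (nat_lit 557091) (nat_lit 12) (.e (nat_lit 164022) (nat_lit 46) .nil))))) .nil)) 
(.lf (nat_lit 270325) (.g (nat_lit 2082) (.e (nat_lit 196630) (nat_lit 9) (.e (nat_lit 1401) (nat_lit 106) (.e (nat_lit 319531) (nat_lit 16) (.e (nat_lit 286733) (nat_lit 2) (.e (nat_lit 90134) (nat_lit 9) .nil))))) .nil))))) (.nd (nat_lit 4) (.nd (nat_lit 5) (.nd (nat_lit 6) 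
(.lf (nat_lit 270221) (.g (nat_lit 2590) (.e (nat_lit 196626) (nat_lit 9) (.e (nat_lit 1400) (nat_lit 106) (.e (nat_lit 319534) (nat_lit 16) (.e (nat_lit 286732) (nat_lit 2) (.e (nat_lit 90184) (nat_lit 17) .nil))))) .nil)) 
(.lf (nat_lit 270285) (.g (nat_lit 1904) (.e (nat_lit 196627) (nat_lit 9) (.e (nat_lit 1589) (nat_lit 111) (.e (nat_lit 360473) (nat_lit 8) (.e (nat_lit 557091) (nat_lit 12) (.e (nat_lit 164022) (nat_lit 46) .nil))))) .nil))) (.nd (nat_lit 6) 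
(.lf (nat_lit 270253) (.g (nat_lit 2216) (.e (nat_lit 196626) (nat_lit 9) (.e (nat_lit 1401) (nat_lit 106) (.e (nat_lit 319531) (nat_lit 16) (.e (nat_lit 286735) (nat_lit 3) (.e (nat_lit 98353) (nat_lit 25) .nil))))) .nil)) 
(.lf (nat_lit 270317) (.g (nat_lit 1754) (.e (nat_lit 196630) (nat_lit 9) (.e (nat_lit 1401) (nat_lit 106) (.e (nat_lit 319530) (nat_lit 16) (.e (nat_lit 286733) (nat_lit 2) .nil)))) .nil)))) (.nd (nat_lit 5) (.nd (nat_lit 6) 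
(.lf (nat_lit 270237) (.g (nat_lit 2363) (.e (nat_lit 196626) (nat_lit 9) (.e (nat_lit 1400) (nat_lit 106) (.e (nat_lit 319534) (nat_lit 16) (.e (nat_lit 286735) (nat_lit 3) (.e (nat_lit 98325) (nat_lit 17) .nil))))) .nil)) 
(.lf (nat_lit 270301) (.g (nat_lit 1489) (.e (nat_lit 196628) (nat_lit 9) (.e (nat_lit 970) (nat_lit 81) (.e (nat_lit 6723) (nat_lit 362) (.e (nat_lit 180243) (nat_lit 5) (.e (nat_lit 532489) (nat_lit 0) (.e (nat_lit 7936) (nat_lit 364) (.e (nat_lit 237589) (nat_lit 2) .nil))))))) (.g (nat_lit 5) .nil .nil)))) (.nd (nat_lit 6) 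
(.lf (nat_lit 270269) (.g (nat_lit 1481) (.e (nat_lit 196626) (nat_lit 9) (.e (nat_lit 1669) (nat_lit 116) (.e (nat_lit 401459) (nat_lit 13) (.e (nat_lit 483343) (nat_lit 17) .nil)))) .nil)) 
(.lf (nat_lit 270333) (.g (nat_lit 3218) (.e (nat_lit 196630) (nat_lit 9) (.e (nat_lit 1462) (nat_lit 108) (.e (nat_lit 336164) (nat_lit 10) (.e (nat_lit 344117) (nat_lit 21) (.e (nat_lit 516106) (nat_lit 0) (.e (nat_lit 7936) (nat_lit 377) (.e (nat_lit 2797) (nat_lit 180) (.e (nat_lit 303117) (nat_lit 2) .nil)))))))) (.g (nat_lit 5) .nil .nil)))))))) 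
(.nd (nat_lit 2) (.nd (nat_lit 3) (.nd (nat_lit 4) (.nd (nat_lit 5) (.nd (nat_lit 6) 
(.lf (nat_lit 270211) (.g (nat_lit 1898) (.e (nat_lit 196626) (nat_lit 9) (.e (nat_lit 1400) (nat_lit 106) (.e (nat_lit 319534) (nat_lit 16) (.e (nat_lit 286720) (nat_lit 0) .nil)))) .nil)) 
(.lf (nat_lit 270275) (.g (nat_lit 1976) (.e (nat_lit 196627) (nat_lit 9) (.e (nat_lit 1401) (nat_lit 106) (.e (nat_lit 319531) (nat_lit 16) (.e (nat_lit 286735) (nat_lit 3) (.e (nat_lit 106240) (nat_lit 26) .nil))))) .nil))) (.nd (nat_lit 6) 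
(.lf (nat_lit 270243) (.g (nat_lit 2083) (.e (nat_lit 196626) (nat_lit 9) (.e (nat_lit 1400) (nat_lit 106) (.e (nat_lit 319534) (nat_lit 16) (.e (nat_lit 286735) (nat_lit 3) (.e (nat_lit 98371) (nat_lit 28) .nil))))) .nil)) 
(.lf (nat_lit 270307) (.g (nat_lit 1699) (.e (nat_lit 196628) (nat_lit 9) (.e (nat_lit 1676) (nat_lit 116) (.e (nat_lit 401458) (nat_lit 13) (.e (nat_lit 483350) (nat_lit 17) (.e (nat_lit 7936) (nat_lit 153) .nil))))) .nil)))) (.nd (nat_lit 5) (.nd (nat_lit 6) 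
(.lf (nat_lit 270227) (.g (nat_lit 1294) (.e (nat_lit 196626) (nat_lit 9) (.e (nat_lit 1400) (nat_lit 106) (.e (nat_lit 319534) (nat_lit 16) (.e (nat_lit 286734) (nat_lit 3) .nil)))) .nil)) 
(.lf (nat_lit 270291) (.g (nat_lit 4331) (.e (nat_lit 196627) (nat_lit 9) (.e (nat_lit 1599) (nat_lit 111) (.e (nat_lit 360475) (nat_lit 8) (.e (nat_lit 557090) (nat_lit 12) (.e (nat_lit 164020) (nat_lit 45) .nil))))) .nil))) (.nd (nat_lit 6) 
(.lf (nat_lit 270259) (.g (nat_lit 1173) (.e (nat_lit 196626) (nat_lit 9) (.e (nat_lit 1589) (nat_lit 111) (.e (nat_lit 360467) (nat_lit 3) (.e (nat_lit 516139) (nat_lit 7) .nil)))) .nil)) 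
(.lf (nat_lit 270323) (.g (nat_lit 1430) (.e (nat_lit 196630) (nat_lit 9) (.e (nat_lit 1401) (nat_lit 106) (.e (nat_lit 319531) (nat_lit 16) (.e (nat_lit 286732) (nat_lit 2) .nil)))) .nil))))) (.nd (nat_lit 4) (.nd (nat_lit 5) (.nd (nat_lit 6) 
(.lf (nat_lit 270219) (.g (nat_lit 2266) (.e (nat_lit 196626) (nat_lit 9) (.e (nat_lit 1400) (nat_lit 106) (.e (nat_lit 319534) (nat_lit 16) (.e (nat_lit 286729) (nat_lit 0) .nil)))) .nil)) 
(.lf (nat_lit 270283) (.g (nat_lit 4008) (.e (nat_lit 196627) (nat_lit 9) (.e (nat_lit 1588) (nat_lit 111) (.e (nat_lit 360475) (nat_lit 8) (.e (nat_lit 557090) (nat_lit 12) (.e (nat_lit 164020) (nat_lit 45) .nil))))) .nil))) (.nd (nat_lit 6) 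
(.lf (nat_lit 270251) (.g (nat_lit 498) (.e (nat_lit 196626) (nat_lit 9) (.e (nat_lit 1401) (nat_lit 106) (.e (nat_lit 319531) (nat_lit 16) .nil))) .nil)) 
(.lf (nat_lit 270315) (.g (nat_lit 1847) (.e (nat_lit 196630) (nat_lit 9) (.e (nat_lit 1394) (nat_lit 106) (.e (nat_lit 319530) (nat_lit 16) (.e (nat_lit 286733) (nat_lit 2) (.e (nat_lit 90177) (nat_lit 15) .nil))))) .nil)))) (.nd (nat_lit 5) (.nd (nat_lit 6) 
(.lf (nat_lit 270235) (.g (nat_lit 961) (.e (nat_lit 196626) (nat_lit 9) (.e (nat_lit 1400) (nat_lit 106) (.e (nat_lit 319534) (nat_lit 16) (.e (nat_lit 286735) (nat_lit 3) .nil)))) .nil)) 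
(.lf (nat_lit 270299) (.g (nat_lit 1564) (.e (nat_lit 196628) (nat_lit 9) (.e (nat_lit 970) (nat_lit 81) (.e (nat_lit 6723) (nat_lit 362) (.e (nat_lit 180243) (nat_lit 5) (.e (nat_lit 532484) (nat_lit 0) (.e (nat_lit 7936) (nat_lit 364) (.e (nat_lit 237589) (nat_lit 2) .nil))))))) (.g (nat_lit 5) .nil .nil)))) (.nd (nat_lit 6) 
(.lf (nat_lit 270267) (.g (nat_lit 1743) (.e (nat_lit 196626) (nat_lit 9) (.e (nat_lit 1668) (nat_lit 116) (.e (nat_lit 401459) (nat_lit 13) (.e (nat_lit 483350) (nat_lit 17) .nil)))) .nil)) 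
(.lf (nat_lit 270331) (.g (nat_lit 1637) (.e (nat_lit 196630) (nat_lit 9) (.e (nat_lit 1401) (nat_lit 106) (.e (nat_lit 319534) (nat_lit 16) (.e (nat_lit 286735) (nat_lit 3) (.e (nat_lit 98370) (nat_lit 28) .nil))))) .nil)))))) (.nd (nat_lit 3) (.nd (nat_lit 4) (.nd (nat_lit 5) (.nd (nat_lit 6) 
(.lf (nat_lit 270215) (.g (nat_lit 1706) (.e (nat_lit 196626) (nat_lit 9) (.e (nat_lit 1400) (nat_lit 106) (.e (nat_lit 319534) (nat_lit 16) (.e (nat_lit 286728) (nat_lit 0) (.e (nat_lit 1781) (nat_lit 119) .nil))))) .nil)) 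
(.lf (nat_lit 270279) (.g (nat_lit 2154) (.e (nat_lit 196627) (nat_lit 9) (.e (nat_lit 1571) (nat_lit 110) (.e (nat_lit 352315) (nat_lit 23) (.e (nat_lit 98350) (nat_lit 24) (.e (nat_lit 409647) (nat_lit 18) .nil))))) .nil))) (.nd (nat_lit 6) 
(.lf (nat_lit 270247) (.g (nat_lit 573) (.e (nat_lit 196626) (nat_lit 9) (.e (nat_lit 1400) (nat_lit 106) (.e (nat_lit 319535) (nat_lit 17) .nil))) .nil)) 
(.lf (nat_lit 270311) (.g (nat_lit 2559) (.e (nat_lit 196628) (nat_lit 9) (.e (nat_lit 1676) (nat_lit 116) (.e (nat_lit 401459) (nat_lit 13) (.e (nat_lit 483350) (nat_lit 17) (.e (nat_lit 7936) (nat_lit 153) .nil))))) .nil)))) (.nd (nat_lit 5) (.nd (nat_lit 6) 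
(.lf (nat_lit 270231) (.g (nat_lit 2530) (.e (nat_lit 196626) (nat_lit 9) (.e (nat_lit 1400) (nat_lit 106) (.e (nat_lit 319534) (nat_lit 16) (.e (nat_lit 286734) (nat_lit 3) (.e (nat_lit 106240) (nat_lit 26) (.e (nat_lit 426265) (nat_lit 9) (.e (nat_lit 426124) (nat_lit 2) .nil))))))) (.g (nat_lit 4) .nil .nil))) 
(.lf (nat_lit 270295) (.g (nat_lit 631) (.e (nat_lit 196628) (nat_lit 9) (.e (nat_lit 970) (nat_lit 81) (.e (nat_lit 6202) (nat_lit 332) (.e (nat_lit 1079) (nat_lit 81) .nil)))) .nil))) (.nd (nat_lit 6) 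
(.lf (nat_lit 270263) (.g (nat_lit 2302) (.e (nat_lit 196626) (nat_lit 9) (.e (nat_lit 1642) (nat_lit 114) (.e (nat_lit 385068) (nat_lit 26) (.e (nat_lit 532563) (nat_lit 15) (.e (nat_lit 385066) (nat_lit 26) .nil))))) .nil)) 
(.lf (nat_lit 270327) (.g (nat_lit 928) (.e (nat_lit 196630) (nat_lit 9) (.e (nat_lit 1401) (nat_lit 106) (.e (nat_lit 319531) (nat_lit 16) (.e (nat_lit 286735) (nat_lit 3) .nil)))) .nil))))) (.nd (nat_lit 4) (.nd (nat_lit 5) (.nd (nat_lit 6) 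
(.lf (nat_lit 270223) (.g (nat_lit 1241) (.e (nat_lit 196626) (nat_lit 9) (.e (nat_lit 1400) (nat_lit 106) (.e (nat_lit 319534) (nat_lit 16) (.e (nat_lit 286733) (nat_lit 2) .nil)))) .nil)) 
(.lf (nat_lit 270287) (.g (nat_lit 3034) (.e (nat_lit 196627) (nat_lit 9) (.e (nat_lit 1589) (nat_lit 111) (.e (nat_lit 360475) (nat_lit 8) (.e (nat_lit 557091) (nat_lit 12) (.e (nat_lit 164022) (nat_lit 46) .nil))))) .nil))) (.nd (nat_lit 6) 
(.lf (nat_lit 270255) (.g (nat_lit 1626) (.e (nat_lit 196626) (nat_lit 9) (.e (nat_lit 1586) (nat_lit 111) (.e (nat_lit 360474) (nat_lit 8) (.e (nat_lit 557094) (nat_lit 12) (.e (nat_lit 164022) (nat_lit 46) .nil))))) .nil)) 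
(.lf (nat_lit 270319) (.g (nat_lit 407) (.e (nat_lit 196630) (nat_lit 9) (.e (nat_lit 1401) (nat_lit 106) (.e (nat_lit 319531) (nat_lit 16) .nil))) .nil)))) (.nd (nat_lit 5) (.nd (nat_lit 6) 
(.lf (nat_lit 270239) (.g (nat_lit 2401) (.e (nat_lit 196626) (nat_lit 9) (.e (nat_lit 1400) (nat_lit 106) (.e (nat_lit 319534) (nat_lit 16) (.e (nat_lit 286735) (nat_lit 3) (.e (nat_lit 98355) (nat_lit 26) .nil))))) .nil)) 
(.lf (nat_lit 270303) (.g (nat_lit 2315) (.e (nat_lit 196628) (nat_lit 9) (.e (nat_lit 1643) (nat_lit 114) (.e (nat_lit 385105) (nat_lit 50) (.e (nat_lit 786450) (nat_lit 15) (.e (nat_lit 1853) (nat_lit 124) .nil))))) .nil))) (.nd (nat_lit 6) 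
(.lf (nat_lit 270271) (.g (nat_lit 1896) (.e (nat_lit 196626) (nat_lit 9) (.e (nat_lit 1669) (nat_lit 116) (.e (nat_lit 401459) (nat_lit 13) (.e (nat_lit 483347) (nat_lit 17) (.e (nat_lit 7936) (nat_lit 153) .nil))))) .nil)) 
(.lf (nat_lit 270335) (.g (nat_lit 2335) (.e (nat_lit 196630) (nat_lit 9) (.e (nat_lit 1549) (nat_lit 109) (.e (nat_lit 344117) (nat_lit 21) (.e (nat_lit 516099) (nat_lit 0) .nil)))) .nil)))))))))

noncomputable def tv3469 : DT := (.nd (nat_lit 0) (.nd (nat_lit 1) (.nd (nat_lit 2) (.nd (nat_lit 3) (.nd (nat_lit 4) (.nd (nat_lit 5) (.nd (nat_lit 6) 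
(.lf (nat_lit 270336) (.g (nat_lit 2570) (.e (nat_lit 196630) (nat_lit 9) (.e (nat_lit 1549) (nat_lit 109) (.e (nat_lit 344117) (nat_lit 21) (.e (nat_lit 516130) (nat_lit 3) (.e (nat_lit 221204) (nat_lit 20) (.e (nat_lit 3253) (nat_lit 197) (.e (nat_lit 532501) (nat_lit 1) (.e (nat_lit 57927) (nat_lit 282) (.e (nat_lit 163866) (nat_lit 2) .nil))))))))) (.g (nat_lit 4) .nil .nil))) 
(.lf (nat_lit 270400) (.g (nat_lit 1380) (.e (nat_lit 196630) (nat_lit 9) (.e (nat_lit 1669) (nat_lit 116) (.e (nat_lit 401459) (nat_lit 13) (.e (nat_lit 483354) (nat_lit 17) .nil)))) .nil))) (.nd (nat_lit 6) 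
(.lf (nat_lit 270368) (.g (nat_lit 1559) (.e (nat_lit 196630) (nat_lit 9) (.e (nat_lit 1599) (nat_lit 111) (.e (nat_lit 360474) (nat_lit 8) (.e (nat_lit 557091) (nat_lit 12) .nil)))) .nil)) 
(.lf (nat_lit 270432) (.g (nat_lit 2742) (.e (nat_lit 196645) (nat_lit 9) (.e (nat_lit 1581) (nat_lit 111) (.e (nat_lit 360475) (nat_lit 8) (.e (nat_lit 557090) (nat_lit 12) (.e (nat_lit 164020) (nat_lit 45) .nil))))) .nil)))) (.nd (nat_lit 5) (.nd (nat_lit 6) 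
(.lf (nat_lit 270352) (.g (nat_lit 3389) (.e (nat_lit 196630) (nat_lit 9) (.e (nat_lit 1586) (nat_lit 111) (.e (nat_lit 360475) (nat_lit 8) (.e (nat_lit 557091) (nat_lit 12) (.e (nat_lit 164022) (nat_lit 46) (.e (nat_lit 704738) (nat_lit 11) (.e (nat_lit 16411) (nat_lit 2) .nil))))))) (.g (nat_lit 4) .nil .nil))) 
(.lf (nat_lit 270416) (.g (nat_lit 2227) (.e (nat_lit 196635) (nat_lit 9) (.e (nat_lit 1182) (nat_lit 87) (.e (nat_lit 57854) (nat_lit 252) (.e (nat_lit 57378) (nat_lit 3) (.e (nat_lit 98313) (nat_lit 9) .nil))))) .nil))) (.nd (nat_lit 6) 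
(.lf (nat_lit 270384) (.g (nat_lit 2645) (.e (nat_lit 196630) (nat_lit 9) (.e (nat_lit 1669) (nat_lit 116) (.e (nat_lit 401457) (nat_lit 13) (.e (nat_lit 483346) (nat_lit 17) (.e (nat_lit 2369) (nat_lit 153) .nil))))) .nil)) 
(.lf (nat_lit 270448) (.g (nat_lit 3566) (.e (nat_lit 204544) (nat_lit 9) (.e (nat_lit 1586) (nat_lit 111) (.e (nat_lit 360475) (nat_lit 8) (.e (nat_lit 557090) (nat_lit 12) (.e (nat_lit 164020) (nat_lit 45) .nil))))) .nil))))) (.nd (nat_lit 4) (.nd (nat_lit 5) (.nd (nat_lit 6) 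
(.lf (nat_lit 270344) (.g (nat_lit 2247) (.e (nat_lit 196630) (nat_lit 9) (.e (nat_lit 1566) (nat_lit 110) (.e (nat_lit 352315) (nat_lit 23) (.e (nat_lit 98350) (nat_lit 24) (.e (nat_lit 409643) (nat_lit 18) .nil))))) .nil)) 
(.lf (nat_lit 270408) (.g (nat_lit 2758) (.e (nat_lit 196633) (nat_lit 9) (.e (nat_lit 1587) (nat_lit 111) (.e (nat_lit 360475) (nat_lit 8) (.e (nat_lit 557091) (nat_lit 12) (.e (nat_lit 164022) (nat_lit 46) .nil))))) .nil))) (.nd (nat_lit 6) 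
(.lf (nat_lit 270376) (.g (nat_lit 2990) (.e (nat_lit 196630) (nat_lit 9) (.e (nat_lit 1669) (nat_lit 116) (.e (nat_lit 401454) (nat_lit 12) (.e (nat_lit 475177) (nat_lit 24) .nil)))) .nil)) 
(.lf (nat_lit 270440) (.g (nat_lit 2622) (.e (nat_lit 204544) (nat_lit 9) (.e (nat_lit 1454) (nat_lit 108) (.e (nat_lit 336295) (nat_lit 15) (.e (nat_lit 3632) (nat_lit 227) (.e (nat_lit 778318) (nat_lit 3) .nil))))) .nil)))) (.nd (nat_lit 5) (.nd (nat_lit 6) 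
(.lf (nat_lit 270360) (.g (nat_lit 2225) (.e (nat_lit 196630) (nat_lit 9) (.e (nat_lit 1595) (nat_lit 111) (.e (nat_lit 360467) (nat_lit 3) (.e (nat_lit 516139) (nat_lit 7) (.e (nat_lit 409616) (nat_lit 10) .nil))))) .nil)) 
(.lf (nat_lit 270424) (.g (nat_lit 2758) (.e (nat_lit 196639) (nat_lit 9) (.e (nat_lit 1587) (nat_lit 111) (.e (nat_lit 360475) (nat_lit 8) (.e (nat_lit 557091) (nat_lit 12) (.e (nat_lit 164022) (nat_lit 46) .nil))))) .nil))) (.nd (nat_lit 6) 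
(.lf (nat_lit 270392) (.g (nat_lit 2670) (.e (nat_lit 196630) (nat_lit 9) (.e (nat_lit 1669) (nat_lit 116) (.e (nat_lit 401459) (nat_lit 13) (.e (nat_lit 483344) (nat_lit 17) (.e (nat_lit 2369) (nat_lit 153) (.e (nat_lit 794683) (nat_lit 25) (.e (nat_lit 221211) (nat_lit 22) .nil))))))) (.g (nat_lit 4) .nil .nil))) 
(.lf (nat_lit 270456) (.g (nat_lit 1983) (.e (nat_lit 204544) (nat_lit 9) (.e (nat_lit 1633) (nat_lit 114) (.e (nat_lit 385094) (nat_lit 49) (.e (nat_lit 778317) (nat_lit 3) (.e (nat_lit 57476) (nat_lit 28) .nil))))) .nil)))))) (.nd (nat_lit 3) (.nd (nat_lit 4) (.nd (nat_lit 5) (.nd (nat_lit 6) 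
(.lf (nat_lit 270340) (.g (nat_lit 2451) (.e (nat_lit 196630) (nat_lit 9) (.e (nat_lit 1549) (nat_lit 109) (.e (nat_lit 344129) (nat_lit 26) (.e (nat_lit 557097) (nat_lit 13) (.e (nat_lit 172064) (nat_lit 2) .nil))))) .nil)) 
(.lf (nat_lit 270404) (.g (nat_lit 1925) (.e (nat_lit 196632) (nat_lit 9) (.e (nat_lit 1180) (nat_lit 87) (.e (nat_lit 57849) (nat_lit 252) (.e (nat_lit 57377) (nat_lit 3) (.e (nat_lit 98313) (nat_lit 9) .nil))))) .nil))) (.nd (nat_lit 6) 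
(.lf (nat_lit 270372) (.g (nat_lit 1665) (.e (nat_lit 196630) (nat_lit 9) (.e (nat_lit 1668) (nat_lit 116) (.e (nat_lit 401454) (nat_lit 12) (.e (nat_lit 475184) (nat_lit 29) (.e (nat_lit 557107) (nat_lit 15) .nil))))) .nil)) 
(.lf (nat_lit 270436) (.g (nat_lit 2113) (.e (nat_lit 204544) (nat_lit 9) (.e (nat_lit 1401) (nat_lit 106) (.e (nat_lit 319531) (nat_lit 16) (.e (nat_lit 286734) (nat_lit 3) (.e (nat_lit 98359) (nat_lit 26) .nil))))) .nil)))) (.nd (nat_lit 5) (.nd (nat_lit 6) 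
(.lf (nat_lit 270356) (.g (nat_lit 4177) (.e (nat_lit 196630) (nat_lit 9) (.e (nat_lit 1589) (nat_lit 111) (.e (nat_lit 360473) (nat_lit 8) (.e (nat_lit 557090) (nat_lit 12) (.e (nat_lit 164020) (nat_lit 45) .nil))))) .nil)) 
(.lf (nat_lit 270420) (.g (nat_lit 1774) (.e (nat_lit 196637) (nat_lit 9) (.e (nat_lit 1580) (nat_lit 111) (.e (nat_lit 360473) (nat_lit 8) (.e (nat_lit 557090) (nat_lit 12) (.e (nat_lit 164020) (nat_lit 45) .nil))))) .nil))) (.nd (nat_lit 6) 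
(.lf (nat_lit 270388) (.g (nat_lit 2252) (.e (nat_lit 196630) (nat_lit 9) (.e (nat_lit 1669) (nat_lit 116) (.e (nat_lit 401459) (nat_lit 13) (.e (nat_lit 483344) (nat_lit 17) (.e (nat_lit 2368) (nat_lit 153) .nil))))) .nil)) 
(.lf (nat_lit 270452) (.g (nat_lit 2508) (.e (nat_lit 204544) (nat_lit 9) (.e (nat_lit 1595) (nat_lit 111) (.e (nat_lit 360473) (nat_lit 8) (.e (nat_lit 557090) (nat_lit 12) (.e (nat_lit 164020) (nat_lit 45) .nil))))) .nil))))) (.nd (nat_lit 4) (.nd (nat_lit 5) (.nd (nat_lit 6) 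
(.lf (nat_lit 270348) (.g (nat_lit 2333) (.e (nat_lit 196630) (nat_lit 9) (.e (nat_lit 1586) (nat_lit 111) (.e (nat_lit 360466) (nat_lit 3) (.e (nat_lit 516139) (nat_lit 7) (.e (nat_lit 409646) (nat_lit 18) .nil))))) .nil)) 
(.lf (nat_lit 270412) (.g (nat_lit 2721) (.e (nat_lit 196635) (nat_lit 9) (.e (nat_lit 1181) (nat_lit 87) (.e (nat_lit 57849) (nat_lit 252) (.e (nat_lit 57377) (nat_lit 3) (.e (nat_lit 98313) (nat_lit 9) .nil))))) .nil))) (.nd (nat_lit 6) 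
(.lf (nat_lit 270380) (.g (nat_lit 2427) (.e (nat_lit 196630) (nat_lit 9) (.e (nat_lit 1669) (nat_lit 116) (.e (nat_lit 401454) (nat_lit 12) (.e (nat_lit 475185) (nat_lit 29) (.e (nat_lit 557098) (nat_lit 13) .nil))))) .nil)) 
(.lf (nat_lit 270444) (.g (nat_lit 2067) (.e (nat_lit 204544) (nat_lit 9) (.e (nat_lit 1583) (nat_lit 111) (.e (nat_lit 360475) (nat_lit 8) (.e (nat_lit 557090) (nat_lit 12) (.e (nat_lit 164020) (nat_lit 45) .nil))))) .nil)))) (.nd (nat_lit 5) (.nd (nat_lit 6) 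
(.lf (nat_lit 270364) (.g (nat_lit 1846) (.e (nat_lit 196630) (nat_lit 9) (.e (nat_lit 1596) (nat_lit 111) (.e (nat_lit 360474) (nat_lit 8) (.e (nat_lit 557091) (nat_lit 12) .nil)))) .nil)) 
(.lf (nat_lit 270428) (.g (nat_lit 1956) (.e (nat_lit 196643) (nat_lit 9) (.e (nat_lit 1399) (nat_lit 106) (.e (nat_lit 319533) (nat_lit 16) (.e (nat_lit 286734) (nat_lit 3) (.e (nat_lit 98381) (nat_lit 31) .nil))))) .nil))) (.nd (nat_lit 6) 
(.lf (nat_lit 270396) (.g (nat_lit 1639) (.e (nat_lit 196630) (nat_lit 9) (.e (nat_lit 1669) (nat_lit 116) (.e (nat_lit 401459) (nat_lit 13) (.e (nat_lit 483347) (nat_lit 17) (.e (nat_lit 7936) (nat_lit 153) .nil))))) .nil)) 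
(.lf (nat_lit 270460) (.g (nat_lit 525) (.e (nat_lit 204544) (nat_lit 9) (.e (nat_lit 1669) (nat_lit 116) (.e (nat_lit 401438) (nat_lit 9) .nil))) .nil))))))) (.nd (nat_lit 2) (.nd (nat_lit 3) (.nd (nat_lit 4) (.nd (nat_lit 5) (.nd (nat_lit 6) 
(.lf (nat_lit 270338) (.g (nat_lit 2136) (.e (nat_lit 196630) (nat_lit 9) (.e (nat_lit 1549) (nat_lit 109) (.e (nat_lit 344117) (nat_lit 21) (.e (nat_lit 516130) (nat_lit 3) (.e (nat_lit 221214) (nat_lit 23) .nil))))) .nil)) 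
(.lf (nat_lit 270402) (.g (nat_lit 2758) (.e (nat_lit 196631) (nat_lit 9) (.e (nat_lit 1587) (nat_lit 111) (.e (nat_lit 360475) (nat_lit 8) (.e (nat_lit 557091) (nat_lit 12) (.e (nat_lit 164022) (nat_lit 46) .nil))))) .nil))) (.nd (nat_lit 6) 
(.lf (nat_lit 270370) (.g (nat_lit 2472) (.e (nat_lit 196630) (nat_lit 9) (.e (nat_lit 1642) (nat_lit 114) (.e (nat_lit 385094) (nat_lit 49) (.e (nat_lit 778317) (nat_lit 3) (.e (nat_lit 57477) (nat_lit 28) .nil))))) .nil)) 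
(.lf (nat_lit 270434) (.g (nat_lit 2366) (.e (nat_lit 196646) (nat_lit 9) (.e (nat_lit 1583) (nat_lit 111) (.e (nat_lit 360475) (nat_lit 8) (.e (nat_lit 557090) (nat_lit 12) (.e (nat_lit 164020) (nat_lit 45) .nil))))) .nil)))) (.nd (nat_lit 5) (.nd (nat_lit 6) 
(.lf (nat_lit 270354) (.g (nat_lit 5509) (.e (nat_lit 196630) (nat_lit 9) (.e (nat_lit 1589) (nat_lit 111) (.e (nat_lit 360467) (nat_lit 3) (.e (nat_lit 516139) (nat_lit 7) (.e (nat_lit 409648) (nat_lit 18) (.e (nat_lit 303117) (nat_lit 2) .nil)))))) (.g (nat_lit 0) .nil .nil))) 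
(.lf (nat_lit 270418) (.g (nat_lit 2758) (.e (nat_lit 196635) (nat_lit 9) (.e (nat_lit 1587) (nat_lit 111) (.e (nat_lit 360475) (nat_lit 8) (.e (nat_lit 557091) (nat_lit 12) (.e (nat_lit 164022) (nat_lit 46) .nil))))) .nil))) (.nd (nat_lit 6) 
(.lf (nat_lit 270386) (.g (nat_lit 1259) (.e (nat_lit 196630) (nat_lit 9) (.e (nat_lit 1669) (nat_lit 116) (.e (nat_lit 401459) (nat_lit 13) (.e (nat_lit 483343) (nat_lit 17) .nil)))) .nil)) 
(.lf (nat_lit 270450) (.g (nat_lit 4179) (.e (nat_lit 204544) (nat_lit 9) (.e (nat_lit 1589) (nat_lit 111) (.e (nat_lit 360473) (nat_lit 8) (.e (nat_lit 557090) (nat_lit 12) (.e (nat_lit 164020) (nat_lit 45) .nil))))) .nil))))) (.nd (nat_lit 4) (.nd (nat_lit 5) (.nd (nat_lit 6) 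
(.lf (nat_lit 270346) (.g (nat_lit 2642) (.e (nat_lit 196630) (nat_lit 9) (.e (nat_lit 1572) (nat_lit 110) (.e (nat_lit 352315) (nat_lit 23) (.e (nat_lit 98350) (nat_lit 24) (.e (nat_lit 409643) (nat_lit 18) .nil))))) .nil)) 
(.lf (nat_lit 270410) (.g (nat_lit 526) (.e (nat_lit 196635) (nat_lit 9) (.e (nat_lit 1181) (nat_lit 87) (.e (nat_lit 57691) (nat_lit 156) .nil))) .nil))) (.nd (nat_lit 6) 
(.lf (nat_lit 270378) (.g (nat_lit 2258) (.e (nat_lit 196630) (nat_lit 9) (.e (nat_lit 1669) (nat_lit 116) (.e (nat_lit 401454) (nat_lit 12) (.e (nat_lit 475179) (nat_lit 24) .nil)))) .nil)) 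
(.lf (nat_lit 270442) (.g (nat_lit 2217) (.e (nat_lit 204544) (nat_lit 9) (.e (nat_lit 1583) (nat_lit 111) (.e (nat_lit 360473) (nat_lit 8) (.e (nat_lit 557090) (nat_lit 12) .nil)))) .nil)))) (.nd (nat_lit 5) (.nd (nat_lit 6) 
(.lf (nat_lit 270362) (.g (nat_lit 2473) (.e (nat_lit 196630) (nat_lit 9) (.e (nat_lit 1595) (nat_lit 111) (.e (nat_lit 360473) (nat_lit 8) (.e (nat_lit 557090) (nat_lit 12) (.e (nat_lit 164020) (nat_lit 45) .nil))))) .nil)) 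
(.lf (nat_lit 270426) (.g (nat_lit 2758) (.e (nat_lit 196642) (nat_lit 9) (.e (nat_lit 1587) (nat_lit 111) (.e (nat_lit 360475) (nat_lit 8) (.e (nat_lit 557091) (nat_lit 12) (.e (nat_lit 164022) (nat_lit 46) .nil))))) .nil))) (.nd (nat_lit 6) 
(.lf (nat_lit 270394) (.g (nat_lit 2408) (.e (nat_lit 196630) (nat_lit 9) (.e (nat_lit 1669) (nat_lit 116) (.e (nat_lit 401459) (nat_lit 13) (.e (nat_lit 483344) (nat_lit 17) (.e (nat_lit 7936) (nat_lit 153) (.e (nat_lit 794683) (nat_lit 25) (.e (nat_lit 221211) (nat_lit 22) .nil))))))) (.g (nat_lit 4) .nil .nil))) 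
(.lf (nat_lit 270458) (.g (nat_lit 2868) (.e (nat_lit 204544) (nat_lit 9) (.e (nat_lit 1633) (nat_lit 114) (.e (nat_lit 385094) (nat_lit 49) (.e (nat_lit 778318) (nat_lit 3) (.e (nat_lit 57476) (nat_lit 28) .nil))))) .nil)))))) (.nd (nat_lit 3) (.nd (nat_lit 4) (.nd (nat_lit 5) (.nd (nat_lit 6) 
(.lf (nat_lit 270342) (.g (nat_lit 2798) (.e (nat_lit 196630) (nat_lit 9) (.e (nat_lit 1562) (nat_lit 110) (.e (nat_lit 352315) (nat_lit 23) (.e (nat_lit 98350) (nat_lit 24) (.e (nat_lit 409645) (nat_lit 18) .nil))))) .nil)) 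
(.lf (nat_lit 270406) (.g (nat_lit 2758) (.e (nat_lit 196632) (nat_lit 9) (.e (nat_lit 1587) (nat_lit 111) (.e (nat_lit 360475) (nat_lit 8) (.e (nat_lit 557091) (nat_lit 12) (.e (nat_lit 164022) (nat_lit 46) .nil))))) .nil))) (.nd (nat_lit 6) 
(.lf (nat_lit 270374) (.g (nat_lit 2290) (.e (nat_lit 196630) (nat_lit 9) (.e (nat_lit 1669) (nat_lit 116) (.e (nat_lit 401452) (nat_lit 12) (.e (nat_lit 475183) (nat_lit 29) (.e (nat_lit 557107) (nat_lit 15) .nil))))) .nil)) 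
(.lf (nat_lit 270438) (.g (nat_lit 1853) (.e (nat_lit 204544) (nat_lit 9) (.e (nat_lit 1401) (nat_lit 106) (.e (nat_lit 319534) (nat_lit 16) (.e (nat_lit 286734) (nat_lit 3) (.e (nat_lit 98359) (nat_lit 26) .nil))))) .nil)))) (.nd (nat_lit 5) (.nd (nat_lit 6) 
(.lf (nat_lit 270358) (.g (nat_lit 3705) (.e (nat_lit 196630) (nat_lit 9) (.e (nat_lit 1590) (nat_lit 111) (.e (nat_lit 360473) (nat_lit 8) (.e (nat_lit 557090) (nat_lit 12) (.e (nat_lit 164020) (nat_lit 45) .nil))))) .nil)) 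
(.lf (nat_lit 270422) (.g (nat_lit 2758) (.e (nat_lit 196637) (nat_lit 9) (.e (nat_lit 1587) (nat_lit 111) (.e (nat_lit 360475) (nat_lit 8) (.e (nat_lit 557091) (nat_lit 12) (.e (nat_lit 164022) (nat_lit 46) .nil))))) .nil))) (.nd (nat_lit 6) 
(.lf (nat_lit 270390) (.g (nat_lit 2473) (.e (nat_lit 196630) (nat_lit 9) (.e (nat_lit 1669) (nat_lit 116) (.e (nat_lit 401459) (nat_lit 13) (.e (nat_lit 483344) (nat_lit 17) (.e (nat_lit 2368) (nat_lit 153) (.e (nat_lit 794684) (nat_lit 25) (.e (nat_lit 221212) (nat_lit 22) .nil))))))) (.g (nat_lit 4) .nil .nil))) 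
(.lf (nat_lit 270454) (.g (nat_lit 1356) (.e (nat_lit 204544) (nat_lit 9) (.e (nat_lit 1633) (nat_lit 114) (.e (nat_lit 385093) (nat_lit 49) (.e (nat_lit 778317) (nat_lit 3) .nil)))) .nil))))) (.nd (nat_lit 4) (.nd (nat_lit 5) (.nd (nat_lit 6) 
(.lf (nat_lit 270350) (.g (nat_lit 3580) (.e (nat_lit 196630) (nat_lit 9) (.e (nat_lit 1586) (nat_lit 111) (.e (nat_lit 360475) (nat_lit 8) (.e (nat_lit 557090) (nat_lit 12) (.e (nat_lit 164020) (nat_lit 45) .nil))))) .nil)) 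
(.lf (nat_lit 270414) (.g (nat_lit 903) (.e (nat_lit 196635) (nat_lit 9) (.e (nat_lit 1182) (nat_lit 87) (.e (nat_lit 57691) (nat_lit 156) (.e (nat_lit 163907) (nat_lit 12) .nil)))) .nil))) (.nd (nat_lit 6) 
(.lf (nat_lit 270382) (.g (nat_lit 1371) (.e (nat_lit 196630) (nat_lit 9) (.e (nat_lit 1669) (nat_lit 116) (.e (nat_lit 401457) (nat_lit 13) (.e (nat_lit 483346) (nat_lit 17) .nil)))) .nil)) 
(.lf (nat_lit 270446) (.g (nat_lit 3682) (.e (nat_lit 204544) (nat_lit 9) (.e (nat_lit 1585) (nat_lit 111) (.e (nat_lit 360473) (nat_lit 8) (.e (nat_lit 557090) (nat_lit 12) (.e (nat_lit 164020) (nat_lit 45) .nil))))) .nil)))) (.nd (nat_lit 5) (.nd (nat_lit 6) 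
(.lf (nat_lit 270366) (.g (nat_lit 3511) (.e (nat_lit 196630) (nat_lit 9) (.e (nat_lit 1596) (nat_lit 111) (.e (nat_lit 360475) (nat_lit 8) (.e (nat_lit 557090) (nat_lit 12) (.e (nat_lit 164020) (nat_lit 45) .nil))))) .nil)) 
(.lf (nat_lit 270430) (.g (nat_lit 2672) (.e (nat_lit 196644) (nat_lit 9) (.e (nat_lit 1581) (nat_lit 111) (.e (nat_lit 360475) (nat_lit 8) (.e (nat_lit 557090) (nat_lit 12) (.e (nat_lit 164020) (nat_lit 45) .nil))))) .nil))) (.nd (nat_lit 6) 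
(.lf (nat_lit 270398) (.g (nat_lit 2378) (.e (nat_lit 196630) (nat_lit 9) (.e (nat_lit 1669) (nat_lit 116) (.e (nat_lit 401459) (nat_lit 13) (.e (nat_lit 483350) (nat_lit 17) (.e (nat_lit 7936) (nat_lit 153) .nil))))) .nil)) 
(.lf (nat_lit 270462) (.g (nat_lit 1075) (.e (nat_lit 196649) (nat_lit 10) (.e (nat_lit 8499) (nat_lit 183) (.e (nat_lit 164356) (nat_lit 246) (.e (nat_lit 349) (nat_lit 28) .nil)))) .nil)))))))) (.nd (nat_lit 1) (.nd (nat_lit 2) (.nd (nat_lit 3) (.nd (nat_lit 4) (.nd (nat_lit 5) (.nd (nat_lit 6) 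
(.lf (nat_lit 270337) (.g (nat_lit 2144) (.e (nat_lit 196630) (nat_lit 9) (.e (nat_lit 1549) (nat_lit 109) (.e (nat_lit 344117) (nat_lit 21) (.e (nat_lit 516130) (nat_lit 3) (.e (nat_lit 221213) (nat_lit 23) .nil))))) .nil)) 
(.lf (nat_lit 270401) (.g (nat_lit 1799) (.e (nat_lit 196630) (nat_lit 9) (.e (nat_lit 1669) (nat_lit 116) (.e (nat_lit 401459) (nat_lit 13) (.e (nat_lit 483370) (nat_lit 20) .nil)))) .nil))) (.nd (nat_lit 6) 
(.lf (nat_lit 270369) (.g (nat_lit 1344) (.e (nat_lit 196630) (nat_lit 9) (.e (nat_lit 1642) (nat_lit 114) (.e (nat_lit 385068) (nat_lit 26) (.e (nat_lit 532534) (nat_lit 9) .nil)))) .nil)) 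
(.lf (nat_lit 270433) (.g (nat_lit 1872) (.e (nat_lit 196646) (nat_lit 9) (.e (nat_lit 1581) (nat_lit 111) (.e (nat_lit 360475) (nat_lit 8) (.e (nat_lit 557090) (nat_lit 12) .nil)))) .nil)))) (.nd (nat_lit 5) (.nd (nat_lit 6) 
(.lf (nat_lit 270353) (.g (nat_lit 2441) (.e (nat_lit 196630) (nat_lit 9) (.e (nat_lit 1589) (nat_lit 111) (.e (nat_lit 360466) (nat_lit 3) (.e (nat_lit 516139) (nat_lit 7) (.e (nat_lit 409646) (nat_lit 18) .nil))))) .nil)) 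
(.lf (nat_lit 270417) (.g (nat_lit 2427) (.e (nat_lit 196635) (nat_lit 9) (.e (nat_lit 1269) (nat_lit 93) (.e (nat_lit 106536) (nat_lit 11) (.e (nat_lit 16412) (nat_lit 2) (.e (nat_lit 196674) (nat_lit 15) .nil))))) .nil))) (.nd (nat_lit 6) 
(.lf (nat_lit 270385) (.g (nat_lit 1420) (.e (nat_lit 196630) (nat_lit 9) (.e (nat_lit 1669) (nat_lit 116) (.e (nat_lit 401459) (nat_lit 13) (.e (nat_lit 491264) (nat_lit 10) .nil)))) .nil)) 
(.lf (nat_lit 270449) (.g (nat_lit 2784) (.e (nat_lit 204544) (nat_lit 9) (.e (nat_lit 1586) (nat_lit 111) (.e (nat_lit 360475) (nat_lit 8) (.e (nat_lit 557091) (nat_lit 12) (.e (nat_lit 164022) (nat_lit 46) .nil))))) .nil))))) (.nd (nat_lit 4) (.nd (nat_lit 5) (.nd (nat_lit 6) 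
(.lf (nat_lit 270345) (.g (nat_lit 1032) (.e (nat_lit 196630) (nat_lit 9) (.e (nat_lit 1572) (nat_lit 110) (.e (nat_lit 352315) (nat_lit 23) (.e (nat_lit 98325) (nat_lit 17) .nil)))) .nil)) 
(.lf (nat_lit 270409) (.g (nat_lit 2758) (.e (nat_lit 196634) (nat_lit 9) (.e (nat_lit 1587) (nat_lit 111) (.e (nat_lit 360475) (nat_lit 8) (.e (nat_lit 557091) (nat_lit 12) (.e (nat_lit 164022) (nat_lit 46) .nil))))) .nil))) (.nd (nat_lit 6) 
(.lf (nat_lit 270377) (.g (nat_lit 2565) (.e (nat_lit 196630) (nat_lit 9) (.e (nat_lit 1669) (nat_lit 116) (.e (nat_lit 401454) (nat_lit 12) (.e (nat_lit 475178) (nat_lit 24) .nil)))) .nil)) 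
(.lf (nat_lit 270441) (.g (nat_lit 2409) (.e (nat_lit 204544) (nat_lit 9) (.e (nat_lit 1581) (nat_lit 111) (.e (nat_lit 360475) (nat_lit 8) (.e (nat_lit 557090) (nat_lit 12) (.e (nat_lit 164020) (nat_lit 45) .nil))))) .nil)))) (.nd (nat_lit 5) (.nd (nat_lit 6) 
(.lf (nat_lit 270361) (.g (nat_lit 3006) (.e (nat_lit 196630) (nat_lit 9) (.e (nat_lit 1595) (nat_lit 111) (.e (nat_lit 360467) (nat_lit 3) (.e (nat_lit 516139) (nat_lit 7) (.e (nat_lit 417536) (nat_lit 18) (.e (nat_lit 303117) (nat_lit 2) .nil)))))) (.g (nat_lit 4) .nil .nil))) 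
(.lf (nat_lit 270425) (.g (nat_lit 963) (.e (nat_lit 196640) (nat_lit 9) (.e (nat_lit 1524) (nat_lit 108) (.e (nat_lit 336194) (nat_lit 12) (.e (nat_lit 385066) (nat_lit 26) .nil)))) .nil))) (.nd (nat_lit 6) 
(.lf (nat_lit 270393) (.g (nat_lit 2314) (.e (nat_lit 196630) (nat_lit 9) (.e (nat_lit 1669) (nat_lit 116) (.e (nat_lit 401459) (nat_lit 13) (.e (nat_lit 483344) (nat_lit 17) (.e (nat_lit 7936) (nat_lit 153) .nil))))) .nil)) 
(.lf (nat_lit 270457) (.g (nat_lit 1903) (.e (nat_lit 204544) (nat_lit 9) (.e (nat_lit 1633) (nat_lit 114) (.e (nat_lit 385094) (nat_lit 49) (.e (nat_lit 778317) (nat_lit 3) (.e (nat_lit 57480) (nat_lit 28) .nil))))) .nil)))))) (.nd (nat_lit 3) (.nd (nat_lit 4) (.nd (nat_lit 5) (.nd (nat_lit 6) 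
(.lf (nat_lit 270341) (.g (nat_lit 2862) (.e (nat_lit 196630) (nat_lit 9) (.e (nat_lit 1551) (nat_lit 109) (.e (nat_lit 344129) (nat_lit 26) (.e (nat_lit 557067) (nat_lit 9) (.e (nat_lit 2878) (nat_lit 184) .nil))))) .nil)) 
(.lf (nat_lit 270405) (.g (nat_lit 3022) (.e (nat_lit 196632) (nat_lit 9) (.e (nat_lit 1587) (nat_lit 111) (.e (nat_lit 360475) (nat_lit 8) (.e (nat_lit 557090) (nat_lit 12) .nil)))) .nil))) (.nd (nat_lit 6) 
(.lf (nat_lit 270373) (.g (nat_lit 1819) (.e (nat_lit 196630) (nat_lit 9) (.e (nat_lit 1669) (nat_lit 116) (.e (nat_lit 401437) (nat_lit 9) (.e (nat_lit 426364) (nat_lit 15) .nil)))) .nil)) 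
(.lf (nat_lit 270437) (.g (nat_lit 451) (.e (nat_lit 204544) (nat_lit 9) (.e (nat_lit 1401) (nat_lit 106) (.e (nat_lit 319534) (nat_lit 16) .nil))) .nil)))) (.nd (nat_lit 5) (.nd (nat_lit 6) 
(.lf (nat_lit 270357) (.g (nat_lit 3654) (.e (nat_lit 196630) (nat_lit 9) (.e (nat_lit 1589) (nat_lit 111) (.e (nat_lit 360475) (nat_lit 8) (.e (nat_lit 557090) (nat_lit 12) .nil)))) .nil)) 
(.lf (nat_lit 270421) (.g (nat_lit 3022) (.e (nat_lit 196637) (nat_lit 9) (.e (nat_lit 1587) (nat_lit 111) (.e (nat_lit 360475) (nat_lit 8) (.e (nat_lit 557090) (nat_lit 12) .nil)))) .nil))) (.nd (nat_lit 6) 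
(.lf (nat_lit 270389) (.g (nat_lit 2321) (.e (nat_lit 196630) (nat_lit 9) (.e (nat_lit 1669) (nat_lit 116) (.e (nat_lit 401459) (nat_lit 13) (.e (nat_lit 483344) (nat_lit 17) (.e (nat_lit 2368) (nat_lit 153) (.e (nat_lit 794683) (nat_lit 25) (.e (nat_lit 221211) (nat_lit 22) .nil))))))) (.g (nat_lit 4) .nil .nil))) 
(.lf (nat_lit 270453) (.g (nat_lit 3579) (.e (nat_lit 204544) (nat_lit 9) (.e (nat_lit 1597) (nat_lit 111) (.e (nat_lit 360475) (nat_lit 8) (.e (nat_lit 557090) (nat_lit 12) .nil)))) .nil))))) (.nd (nat_lit 4) (.nd (nat_lit 5) (.nd (nat_lit 6) 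
(.lf (nat_lit 270349) (.g (nat_lit 2035) (.e (nat_lit 196630) (nat_lit 9) (.e (nat_lit 1586) (nat_lit 111) (.e (nat_lit 360475) (nat_lit 8) (.e (nat_lit 557086) (nat_lit 11) .nil)))) .nil)) 
(.lf (nat_lit 270413) (.g (nat_lit 2755) (.e (nat_lit 196635) (nat_lit 9) (.e (nat_lit 1181) (nat_lit 87) (.e (nat_lit 57849) (nat_lit 252) (.e (nat_lit 57379) (nat_lit 3) (.e (nat_lit 98313) (nat_lit 9) .nil))))) .nil))) (.nd (nat_lit 6) 
(.lf (nat_lit 270381) (.g (nat_lit 1439) (.e (nat_lit 196630) (nat_lit 9) (.e (nat_lit 1669) (nat_lit 116) (.e (nat_lit 401457) (nat_lit 13) (.e (nat_lit 491264) (nat_lit 10) .nil)))) .nil)) 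
(.lf (nat_lit 270445) (.g (nat_lit 2777) (.e (nat_lit 204544) (nat_lit 9) (.e (nat_lit 1584) (nat_lit 111) (.e (nat_lit 360475) (nat_lit 8) (.e (nat_lit 557090) (nat_lit 12) (.e (nat_lit 164020) (nat_lit 45) .nil))))) .nil)))) (.nd (nat_lit 5) (.nd (nat_lit 6) 
(.lf (nat_lit 270365) (.g (nat_lit 2982) (.e (nat_lit 196630) (nat_lit 9) (.e (nat_lit 1596) (nat_lit 111) (.e (nat_lit 360475) (nat_lit 8) (.e (nat_lit 557084) (nat_lit 10) (.e (nat_lit 16128) (nat_lit 225) .nil))))) .nil)) 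
(.lf (nat_lit 270429) (.g (nat_lit 2758) (.e (nat_lit 196643) (nat_lit 9) (.e (nat_lit 1587) (nat_lit 111) (.e (nat_lit 360475) (nat_lit 8) (.e (nat_lit 557091) (nat_lit 12) (.e (nat_lit 164022) (nat_lit 46) .nil))))) .nil))) (.nd (nat_lit 6) 
(.lf (nat_lit 270397) (.g (nat_lit 1366) (.e (nat_lit 196630) (nat_lit 9) (.e (nat_lit 1669) (nat_lit 116) (.e (nat_lit 401459) (nat_lit 13) (.e (nat_lit 483350) (nat_lit 17) .nil)))) .nil)) 
(.lf (nat_lit 270461) (.g (nat_lit 1261) (.e (nat_lit 204544) (nat_lit 9) (.e (nat_lit 1669) (nat_lit 116) (.e (nat_lit 401452) (nat_lit 12) (.e (nat_lit 475184) (nat_lit 29) .nil)))) .nil))))))) (.nd (nat_lit 2) (.nd (nat_lit 3) (.nd (nat_lit 4) (.nd (nat_lit 5) (.nd (nat_lit 6) 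
(.lf (nat_lit 270339) (.g (nat_lit 1899) (.e (nat_lit 196630) (nat_lit 9) (.e (nat_lit 1549) (nat_lit 109) (.e (nat_lit 344117) (nat_lit 21) (.e (nat_lit 516130) (nat_lit 3) (.e (nat_lit 221215) (nat_lit 23) .nil))))) .nil)) 
(.lf (nat_lit 270403) (.g (nat_lit 1655) (.e (nat_lit 196632) (nat_lit 9) (.e (nat_lit 1170) (nat_lit 87) (.e (nat_lit 57847) (nat_lit 252) (.e (nat_lit 57377) (nat_lit 3) (.e (nat_lit 106240) (nat_lit 10) .nil))))) .nil))) (.nd (nat_lit 6) 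
(.lf (nat_lit 270371) (.g (nat_lit 3360) (.e (nat_lit 196630) (nat_lit 9) (.e (nat_lit 1642) (nat_lit 114) (.e (nat_lit 385094) (nat_lit 49) (.e (nat_lit 778318) (nat_lit 3) (.e (nat_lit 57476) (nat_lit 28) (.e (nat_lit 557107) (nat_lit 15) (.e (nat_lit 188447) (nat_lit 22) .nil))))))) (.g (nat_lit 4) .nil .nil))) 
(.lf (nat_lit 270435) (.g (nat_lit 2529) (.e (nat_lit 204544) (nat_lit 9) (.e (nat_lit 1397) (nat_lit 106) (.e (nat_lit 319530) (nat_lit 16) (.e (nat_lit 286735) (nat_lit 3) (.e (nat_lit 98370) (nat_lit 28) .nil))))) .nil)))) (.nd (nat_lit 5) (.nd (nat_lit 6) 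
(.lf (nat_lit 270355) (.g (nat_lit 2721) (.e (nat_lit 196630) (nat_lit 9) (.e (nat_lit 1589) (nat_lit 111) (.e (nat_lit 360467) (nat_lit 3) (.e (nat_lit 516139) (nat_lit 7) (.e (nat_lit 417536) (nat_lit 18) .nil))))) .nil)) 
(.lf (nat_lit 270419) (.g (nat_lit 2758) (.e (nat_lit 196636) (nat_lit 9) (.e (nat_lit 1587) (nat_lit 111) (.e (nat_lit 360475) (nat_lit 8) (.e (nat_lit 557091) (nat_lit 12) (.e (nat_lit 164022) (nat_lit 46) .nil))))) .nil))) (.nd (nat_lit 6) 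
(.lf (nat_lit 270387) (.g (nat_lit 1193) (.e (nat_lit 196630) (nat_lit 9) (.e (nat_lit 1669) (nat_lit 116) (.e (nat_lit 401459) (nat_lit 13) (.e (nat_lit 483344) (nat_lit 17) .nil)))) .nil)) 
(.lf (nat_lit 270451) (.g (nat_lit 4758) (.e (nat_lit 204544) (nat_lit 9) (.e (nat_lit 1589) (nat_lit 111) (.e (nat_lit 360475) (nat_lit 8) (.e (nat_lit 557090) (nat_lit 12) (.e (nat_lit 164020) (nat_lit 45) .nil))))) .nil))))) (.nd (nat_lit 4) (.nd (nat_lit 5) (.nd (nat_lit 6) 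
(.lf (nat_lit 270347) (.g (nat_lit 1817) (.e (nat_lit 196630) (nat_lit 9) (.e (nat_lit 1580) (nat_lit 111) (.e (nat_lit 360475) (nat_lit 8) (.e (nat_lit 557084) (nat_lit 10) .nil)))) .nil)) 
(.lf (nat_lit 270411) (.g (nat_lit 2906) (.e (nat_lit 196635) (nat_lit 9) (.e (nat_lit 1181) (nat_lit 87) (.e (nat_lit 57849) (nat_lit 252) (.e (nat_lit 57372) (nat_lit 2) (.e (nat_lit 90128) (nat_lit 9) (.e (nat_lit 297) (nat_lit 22) (.e (nat_lit 344119) (nat_lit 21) (.e (nat_lit 516131) (nat_lit 3) (.e (nat_lit 221212) (nat_lit 22) .nil))))))))) (.g (nat_lit 4) .nil .nil)))) (.nd (nat_lit 6) 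
(.lf (nat_lit 270379) (.g (nat_lit 1446) (.e (nat_lit 196630) (nat_lit 9) (.e (nat_lit 1669) (nat_lit 116) (.e (nat_lit 401454) (nat_lit 12) (.e (nat_lit 475185) (nat_lit 29) .nil)))) .nil)) 
(.lf (nat_lit 270443) (.g (nat_lit 1434) (.e (nat_lit 204544) (nat_lit 9) (.e (nat_lit 1583) (nat_lit 111) (.e (nat_lit 360475) (nat_lit 8) (.e (nat_lit 557086) (nat_lit 11) .nil)))) .nil)))) (.nd (nat_lit 5) (.nd (nat_lit 6) 
(.lf (nat_lit 270363) (.g (nat_lit 3655) (.e (nat_lit 196630) (nat_lit 9) (.e (nat_lit 1596) (nat_lit 111) (.e (nat_lit 360473) (nat_lit 8) (.e (nat_lit 557090) (nat_lit 12) (.e (nat_lit 164020) (nat_lit 45) .nil))))) .nil)) 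
(.lf (nat_lit 270427) (.g (nat_lit 1738) (.e (nat_lit 196643) (nat_lit 9) (.e (nat_lit 1399) (nat_lit 106) (.e (nat_lit 319531) (nat_lit 16) (.e (nat_lit 286727) (nat_lit 0) .nil)))) .nil))) (.nd (nat_lit 6) 
(.lf (nat_lit 270395) (.g (nat_lit 2700) (.e (nat_lit 196630) (nat_lit 9) (.e (nat_lit 1669) (nat_lit 116) (.e (nat_lit 401459) (nat_lit 13) (.e (nat_lit 483344) (nat_lit 17) (.e (nat_lit 7936) (nat_lit 153) (.e (nat_lit 794684) (nat_lit 25) (.e (nat_lit 221211) (nat_lit 22) .nil))))))) (.g (nat_lit 4) .nil .nil))) 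
(.lf (nat_lit 270459) (.g (nat_lit 935) (.e (nat_lit 204544) (nat_lit 9) (.e (nat_lit 1637) (nat_lit 114) (.e (nat_lit 385091) (nat_lit 49) (.e (nat_lit 778317) (nat_lit 3) (.e (nat_lit 57477) (nat_lit 28) .nil))))) .nil)))))) (.nd (nat_lit 3) (.nd (nat_lit 4) (.nd (nat_lit 5) (.nd (nat_lit 6) 
(.lf (nat_lit 270343) (.g (nat_lit 2530) (.e (nat_lit 196630) (nat_lit 9) (.e (nat_lit 1563) (nat_lit 110) (.e (nat_lit 352315) (nat_lit 23) (.e (nat_lit 98349) (nat_lit 24) (.e (nat_lit 409643) (nat_lit 18) .nil))))) .nil)) 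
(.lf (nat_lit 270407) (.g (nat_lit 585) (.e (nat_lit 196632) (nat_lit 9) (.e (nat_lit 1618) (nat_lit 113) (.e (nat_lit 376869) (nat_lit 23) (.e (nat_lit 98349) (nat_lit 24) .nil)))) .nil))) (.nd (nat_lit 6) 
(.lf (nat_lit 270375) (.g (nat_lit 2855) (.e (nat_lit 196630) (nat_lit 9) (.e (nat_lit 1669) (nat_lit 116) (.e (nat_lit 401454) (nat_lit 12) (.e (nat_lit 475176) (nat_lit 24) .nil)))) .nil)) 
(.lf (nat_lit 270439) (.g (nat_lit 2247) (.e (nat_lit 204544) (nat_lit 9) (.e (nat_lit 1454) (nat_lit 108) (.e (nat_lit 336295) (nat_lit 15) (.e (nat_lit 3631) (nat_lit 227) (.e (nat_lit 778317) (nat_lit 3) .nil))))) .nil)))) (.nd (nat_lit 5) (.nd (nat_lit 6) 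
(.lf (nat_lit 270359) (.g (nat_lit 3773) (.e (nat_lit 196630) (nat_lit 9) (.e (nat_lit 1592) (nat_lit 111) (.e (nat_lit 360473) (nat_lit 8) (.e (nat_lit 557090) (nat_lit 12) (.e (nat_lit 164020) (nat_lit 45) .nil))))) .nil)) 
(.lf (nat_lit 270423) (.g (nat_lit 2758) (.e (nat_lit 196638) (nat_lit 9) (.e (nat_lit 1587) (nat_lit 111) (.e (nat_lit 360475) (nat_lit 8) (.e (nat_lit 557091) (nat_lit 12) (.e (nat_lit 164022) (nat_lit 46) .nil))))) .nil))) (.nd (nat_lit 6) 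
(.lf (nat_lit 270391) (.g (nat_lit 2252) (.e (nat_lit 196630) (nat_lit 9) (.e (nat_lit 1669) (nat_lit 116) (.e (nat_lit 401459) (nat_lit 13) (.e (nat_lit 483344) (nat_lit 17) (.e (nat_lit 2369) (nat_lit 153) .nil))))) .nil)) 
(.lf (nat_lit 270455) (.g (nat_lit 1008) (.e (nat_lit 204544) (nat_lit 9) (.e (nat_lit 1633) (nat_lit 114) (.e (nat_lit 385094) (nat_lit 49) (.e (nat_lit 778317) (nat_lit 3) .nil)))) .nil))))) (.nd (nat_lit 4) (.nd (nat_lit 5) (.nd (nat_lit 6) 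
(.lf (nat_lit 270351) (.g (nat_lit 2798) (.e (nat_lit 196630) (nat_lit 9) (.e (nat_lit 1586) (nat_lit 111) (.e (nat_lit 360475) (nat_lit 8) (.e (nat_lit 557091) (nat_lit 12) (.e (nat_lit 164022) (nat_lit 46) .nil))))) .nil)) 
(.lf (nat_lit 270415) (.g (nat_lit 1667) (.e (nat_lit 196635) (nat_lit 9) (.e (nat_lit 1182) (nat_lit 87) (.e (nat_lit 57854) (nat_lit 252) (.e (nat_lit 57371) (nat_lit 2) (.e (nat_lit 90128) (nat_lit 9) .nil))))) .nil))) (.nd (nat_lit 6) 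
(.lf (nat_lit 270383) (.g (nat_lit 2672) (.e (nat_lit 196630) (nat_lit 9) (.e (nat_lit 1669) (nat_lit 116) (.e (nat_lit 401457) (nat_lit 13) (.e (nat_lit 483346) (nat_lit 17) (.e (nat_lit 2367) (nat_lit 153) (.e (nat_lit 794684) (nat_lit 25) (.e (nat_lit 221211) (nat_lit 22) .nil))))))) (.g (nat_lit 4) .nil .nil))) 
(.lf (nat_lit 270447) (.g (nat_lit 2383) (.e (nat_lit 204544) (nat_lit 9) (.e (nat_lit 1585) (nat_lit 111) (.e (nat_lit 360475) (nat_lit 8) (.e (nat_lit 557091) (nat_lit 12) (.e (nat_lit 164022) (nat_lit 46) .nil))))) .nil)))) (.nd (nat_lit 5) (.nd (nat_lit 6) 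
(.lf (nat_lit 270367) (.g (nat_lit 4082) (.e (nat_lit 196630) (nat_lit 9) (.e (nat_lit 1598) (nat_lit 111) (.e (nat_lit 360473) (nat_lit 8) (.e (nat_lit 557090) (nat_lit 12) (.e (nat_lit 164020) (nat_lit 45) .nil))))) .nil)) 
(.lf (nat_lit 270431) (.g (nat_lit 2365) (.e (nat_lit 196644) (nat_lit 9) (.e (nat_lit 1583) (nat_lit 111) (.e (nat_lit 360475) (nat_lit 8) (.e (nat_lit 557090) (nat_lit 12) (.e (nat_lit 164020) (nat_lit 45) .nil))))) .nil))) (.nd (nat_lit 6) 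
(.lf (nat_lit 270399) (.g (nat_lit 2454) (.e (nat_lit 196630) (nat_lit 9) (.e (nat_lit 1669) (nat_lit 116) (.e (nat_lit 401459) (nat_lit 13) (.e (nat_lit 483350) (nat_lit 17) (.e (nat_lit 7936) (nat_lit 153) (.e (nat_lit 794684) (nat_lit 25) (.e (nat_lit 221211) (nat_lit 22) .nil))))))) (.g (nat_lit 4) .nil .nil))) 
(.lf (nat_lit 270463) (.g (nat_lit 457) (.e (nat_lit 196652) (nat_lit 11) (.e (nat_lit 16435) (nat_lit 9) (.e (nat_lit 426566) (nat_lit 34) .nil))) .nil)))))))))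

noncomputable def tv3470 : DT := (.nd (nat_lit 0) (.nd (nat_lit 1) (.nd (nat_lit 2) (.nd (nat_lit 3) (.nd (nat_lit 4) (.nd (nat_lit 5) (.nd (nat_lit 6) 
(.lf (nat_lit 270464) (.g (nat_lit 733) (.e (nat_lit 196652) (nat_lit 11) (.e (nat_lit 16436) (nat_lit 9) (.e (nat_lit 426568) (nat_lit 34) .nil))) .nil)) 
(.lf (nat_lit 270528) (.g (nat_lit 2252) (.e (nat_lit 196654) (nat_lit 11) (.e (nat_lit 16436) (nat_lit 9) (.e (nat_lit 426530) (nat_lit 27) (.e (nat_lit 336390) (nat_lit 27) (.e (nat_lit 426098) (nat_lit 1) .nil))))) .nil))) (.nd (nat_lit 6) 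
(.lf (nat_lit 270496) (.g (nat_lit 851) (.e (nat_lit 196654) (nat_lit 11) (.e (nat_lit 16412) (nat_lit 2) (.e (nat_lit 196661) (nat_lit 12) .nil))) .nil)) 
(.lf (nat_lit 270560) (.g (nat_lit 3701) (.e (nat_lit 196654) (nat_lit 11) (.e (nat_lit 16473) (nat_lit 14) (.e (nat_lit 491526) (nat_lit 0) (.e (nat_lit 1842) (nat_lit 123) (.e (nat_lit 548874) (nat_lit 5) .nil))))) .nil)))) (.nd (nat_lit 5) (.nd (nat_lit 6) 
(.lf (nat_lit 270480) (.g (nat_lit 1394) (.e (nat_lit 196653) (nat_lit 11) (.e (nat_lit 16438) (nat_lit 9) (.e (nat_lit 426568) (nat_lit 34) (.e (nat_lit 393253) (nat_lit 18) .nil)))) .nil)) 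
(.lf (nat_lit 270544) (.g (nat_lit 789) (.e (nat_lit 196654) (nat_lit 11) (.e (nat_lit 16438) (nat_lit 9) (.e (nat_lit 426480) (nat_lit 27) (.e (nat_lit 336388) (nat_lit 27) .nil)))) .nil))) (.nd (nat_lit 6) 
(.lf (nat_lit 270512) (.g (nat_lit 1937) (.e (nat_lit 196654) (nat_lit 11) (.e (nat_lit 16416) (nat_lit 3) (.e (nat_lit 204830) (nat_lit 18) (.e (nat_lit 57702) (nat_lit 164) .nil)))) .nil)) 
(.lf (nat_lit 270576) (.g (nat_lit 680) (.e (nat_lit 196655) (nat_lit 11) (.e (nat_lit 16435) (nat_lit 9) (.e (nat_lit 426567) (nat_lit 34) .nil))) .nil))))) (.nd (nat_lit 4) (.nd (nat_lit 5) (.nd (nat_lit 6) 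
(.lf (nat_lit 270472) (.g (nat_lit 2859) (.e (nat_lit 196652) (nat_lit 11) (.e (nat_lit 16438) (nat_lit 9) (.e (nat_lit 426566) (nat_lit 34) (.e (nat_lit 393254) (nat_lit 18) (.e (nat_lit 164332) (nat_lit 230) .nil))))) .nil)) 
(.lf (nat_lit 270536) (.g (nat_lit 2916) (.e (nat_lit 196654) (nat_lit 11) (.e (nat_lit 16436) (nat_lit 9) (.e (nat_lit 426568) (nat_lit 34) (.e (nat_lit 393251) (nat_lit 18) (.e (nat_lit 164331) (nat_lit 230) (.e (nat_lit 163866) (nat_lit 2) .nil)))))) (.g (nat_lit 5) .nil .nil)))) (.nd (nat_lit 6) 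
(.lf (nat_lit 270504) (.g (nat_lit 1095) (.e (nat_lit 196654) (nat_lit 11) (.e (nat_lit 16416) (nat_lit 3) (.e (nat_lit 204815) (nat_lit 17) .nil))) .nil)) 
(.lf (nat_lit 270568) (.g (nat_lit 1786) (.e (nat_lit 196655) (nat_lit 11) (.e (nat_lit 16435) (nat_lit 9) (.e (nat_lit 426566) (nat_lit 34) (.e (nat_lit 393250) (nat_lit 18) .nil)))) .nil)))) (.nd (nat_lit 5) (.nd (nat_lit 6) 
(.lf (nat_lit 270488) (.g (nat_lit 1681) (.e (nat_lit 196654) (nat_lit 11) (.e (nat_lit 16407) (nat_lit 1) (.e (nat_lit 164402) (nat_lit 256) (.e (nat_lit 57447) (nat_lit 19) (.e (nat_lit 393281) (nat_lit 23) .nil))))) .nil)) 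
(.lf (nat_lit 270552) (.g (nat_lit 3430) (.e (nat_lit 196654) (nat_lit 11) (.e (nat_lit 16438) (nat_lit 9) (.e (nat_lit 426568) (nat_lit 34) (.e (nat_lit 393251) (nat_lit 18) (.e (nat_lit 164332) (nat_lit 230) (.e (nat_lit 163867) (nat_lit 2) .nil)))))) (.g (nat_lit 5) .nil .nil)))) (.nd (nat_lit 6) 
(.lf (nat_lit 270520) (.g (nat_lit 1215) (.e (nat_lit 196654) (nat_lit 11) (.e (nat_lit 16416) (nat_lit 3) (.e (nat_lit 204842) (nat_lit 22) .nil))) .nil)) 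
(.lf (nat_lit 270584) (.g (nat_lit 3284) (.e (nat_lit 196655) (nat_lit 11) (.e (nat_lit 16473) (nat_lit 14) (.e (nat_lit 491526) (nat_lit 0) (.e (nat_lit 1842) (nat_lit 123) (.e (nat_lit 548874) (nat_lit 5) .nil))))) .nil)))))) (.nd (nat_lit 3) (.nd (nat_lit 4) (.nd (nat_lit 5) (.nd (nat_lit 6) 
(.lf (nat_lit 270468) (.g (nat_lit 1809) (.e (nat_lit 196652) (nat_lit 11) (.e (nat_lit 16438) (nat_lit 9) (.e (nat_lit 426566) (nat_lit 34) (.e (nat_lit 393253) (nat_lit 18) (.e (nat_lit 164327) (nat_lit 230) .nil))))) .nil)) 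
(.lf (nat_lit 270532) (.g (nat_lit 3080) (.e (nat_lit 196654) (nat_lit 11) (.e (nat_lit 16436) (nat_lit 9) (.e (nat_lit 426566) (nat_lit 34) (.e (nat_lit 393254) (nat_lit 18) (.e (nat_lit 164325) (nat_lit 230) (.e (nat_lit 163866) (nat_lit 2) .nil)))))) (.g (nat_lit 6) .nil .nil)))) (.nd (nat_lit 6) 
(.lf (nat_lit 270500) (.g (nat_lit 528) (.e (nat_lit 196654) (nat_lit 11) (.e (nat_lit 16412) (nat_lit 2) (.e (nat_lit 204544) (nat_lit 19) .nil))) .nil)) 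
(.lf (nat_lit 270564) (.g (nat_lit 1946) (.e (nat_lit 196655) (nat_lit 11) (.e (nat_lit 16432) (nat_lit 9) (.e (nat_lit 426568) (nat_lit 34) (.e (nat_lit 393253) (nat_lit 18) (.e (nat_lit 164326) (nat_lit 230) .nil))))) .nil)))) (.nd (nat_lit 5) (.nd (nat_lit 6) 
(.lf (nat_lit 270484) (.g (nat_lit 1645) (.e (nat_lit 196654) (nat_lit 11) (.e (nat_lit 16405) (nat_lit 1) (.e (nat_lit 164402) (nat_lit 256) (.e (nat_lit 57445) (nat_lit 19) (.e (nat_lit 393281) (nat_lit 23) (.e (nat_lit 426115) (nat_lit 2) .nil)))))) (.g (nat_lit 4) .nil .nil))) 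
(.lf (nat_lit 270548) (.g (nat_lit 2765) (.e (nat_lit 196654) (nat_lit 11) (.e (nat_lit 16438) (nat_lit 9) (.e (nat_lit 426566) (nat_lit 34) (.e (nat_lit 393254) (nat_lit 18) (.e (nat_lit 164329) (nat_lit 230) .nil))))) .nil))) (.nd (nat_lit 6) 
(.lf (nat_lit 270516) (.g (nat_lit 3471) (.e (nat_lit 196654) (nat_lit 11) (.e (nat_lit 16416) (nat_lit 3) (.e (nat_lit 204831) (nat_lit 18) (.e (nat_lit 57692) (nat_lit 156) (.e (nat_lit 171776) (nat_lit 64) (.e (nat_lit 98359) (nat_lit 26) (.e (nat_lit 426113) (nat_lit 2) .nil))))))) (.g (nat_lit 4) .nil .nil))) 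
(.lf (nat_lit 270580) (.g (nat_lit 2632) (.e (nat_lit 196655) (nat_lit 11) (.e (nat_lit 16438) (nat_lit 9) (.e (nat_lit 426566) (nat_lit 34) (.e (nat_lit 393254) (nat_lit 18) (.e (nat_lit 164326) (nat_lit 230) .nil))))) .nil))))) (.nd (nat_lit 4) (.nd (nat_lit 5) (.nd (nat_lit 6) 
(.lf (nat_lit 270476) (.g (nat_lit 1313) (.e (nat_lit 196653) (nat_lit 11) (.e (nat_lit 16388) (nat_lit 0) (.e (nat_lit 2415) (nat_lit 157) (.e (nat_lit 5905) (nat_lit 320) (.e (nat_lit 1039) (nat_lit 81) .nil))))) .nil)) 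
(.lf (nat_lit 270540) (.g (nat_lit 1807) (.e (nat_lit 196654) (nat_lit 11) (.e (nat_lit 16436) (nat_lit 9) (.e (nat_lit 426568) (nat_lit 34) (.e (nat_lit 393253) (nat_lit 18) (.e (nat_lit 164326) (nat_lit 230) .nil))))) .nil))) (.nd (nat_lit 6) 
(.lf (nat_lit 270508) (.g (nat_lit 605) (.e (nat_lit 196654) (nat_lit 11) (.e (nat_lit 16416) (nat_lit 3) (.e (nat_lit 204829) (nat_lit 18) .nil))) .nil)) 
(.lf (nat_lit 270572) (.g (nat_lit 3676) (.e (nat_lit 196655) (nat_lit 11) (.e (nat_lit 16435) (nat_lit 9) (.e (nat_lit 426566) (nat_lit 34) (.e (nat_lit 393253) (nat_lit 18) (.e (nat_lit 164322) (nat_lit 230) (.e (nat_lit 163867) (nat_lit 2) .nil)))))) (.g (nat_lit 6) .nil .nil))))) (.nd (nat_lit 5) (.nd (nat_lit 6) 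
(.lf (nat_lit 270492) (.g (nat_lit 1022) (.e (nat_lit 196654) (nat_lit 11) (.e (nat_lit 16412) (nat_lit 2) (.e (nat_lit 196614) (nat_lit 0) .nil))) .nil)) 
(.lf (nat_lit 270556) (.g (nat_lit 3146) (.e (nat_lit 196654) (nat_lit 11) (.e (nat_lit 16438) (nat_lit 9) (.e (nat_lit 426568) (nat_lit 34) (.e (nat_lit 393253) (nat_lit 18) (.e (nat_lit 164325) (nat_lit 230) (.e (nat_lit 163866) (nat_lit 2) .nil)))))) (.g (nat_lit 5) .nil .nil)))) (.nd (nat_lit 6) 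
(.lf (nat_lit 270524) (.g (nat_lit 1002) (.e (nat_lit 196654) (nat_lit 11) (.e (nat_lit 16436) (nat_lit 9) (.e (nat_lit 426131) (nat_lit 3) (.e (nat_lit 204880) (nat_lit 32) .nil)))) .nil)) 
(.lf (nat_lit 270588) (.g (nat_lit 2406) (.e (nat_lit 196656) (nat_lit 11) (.e (nat_lit 16405) (nat_lit 1) (.e (nat_lit 164398) (nat_lit 256) (.e (nat_lit 57447) (nat_lit 19) (.e (nat_lit 393267) (nat_lit 23) .nil))))) .nil))))))) (.nd (nat_lit 2) (.nd (nat_lit 3) (.nd (nat_lit 4) (.nd (nat_lit 5) (.nd (nat_lit 6) 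
(.lf (nat_lit 270466) (.g (nat_lit 2225) (.e (nat_lit 196652) (nat_lit 11) (.e (nat_lit 16438) (nat_lit 9) (.e (nat_lit 426566) (nat_lit 34) (.e (nat_lit 393251) (nat_lit 18) (.e (nat_lit 164332) (nat_lit 230) .nil))))) .nil)) 
(.lf (nat_lit 270530) (.g (nat_lit 3152) (.e (nat_lit 196654) (nat_lit 11) (.e (nat_lit 16436) (nat_lit 9) (.e (nat_lit 426566) (nat_lit 34) (.e (nat_lit 393251) (nat_lit 18) (.e (nat_lit 164332) (nat_lit 230) (.e (nat_lit 163866) (nat_lit 2) .nil)))))) (.g (nat_lit 6) .nil .nil)))) (.nd (nat_lit 6) 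
(.lf (nat_lit 270498) (.g (nat_lit 657) (.e (nat_lit 196654) (nat_lit 11) (.e (nat_lit 16412) (nat_lit 2) (.e (nat_lit 196677) (nat_lit 16) .nil))) .nil)) 
(.lf (nat_lit 270562) (.g (nat_lit 541) (.e (nat_lit 196655) (nat_lit 11) (.e (nat_lit 16431) (nat_lit 9) (.e (nat_lit 426568) (nat_lit 34) .nil))) .nil)))) (.nd (nat_lit 5) (.nd (nat_lit 6) 
(.lf (nat_lit 270482) (.g (nat_lit 517) (.e (nat_lit 196653) (nat_lit 11) (.e (nat_lit 16468) (nat_lit 13) (.e (nat_lit 483341) (nat_lit 9) .nil))) .nil)) 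
(.lf (nat_lit 270546) (.g (nat_lit 1951) (.e (nat_lit 196654) (nat_lit 11) (.e (nat_lit 16438) (nat_lit 9) (.e (nat_lit 426566) (nat_lit 34) (.e (nat_lit 393254) (nat_lit 18) .nil)))) .nil))) (.nd (nat_lit 6) 
(.lf (nat_lit 270514) (.g (nat_lit 2039) (.e (nat_lit 196654) (nat_lit 11) (.e (nat_lit 16416) (nat_lit 3) (.e (nat_lit 204831) (nat_lit 18) (.e (nat_lit 57688) (nat_lit 156) .nil)))) .nil)) 
(.lf (nat_lit 270578) (.g (nat_lit 2943) (.e (nat_lit 196655) (nat_lit 11) (.e (nat_lit 16435) (nat_lit 9) (.e (nat_lit 426568) (nat_lit 34) (.e (nat_lit 393253) (nat_lit 18) (.e (nat_lit 164326) (nat_lit 230) (.e (nat_lit 163871) (nat_lit 2) .nil)))))) (.g (nat_lit 6) .nil .nil)))))) (.nd (nat_lit 4) (.nd (nat_lit 5) (.nd (nat_lit 6) 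
(.lf (nat_lit 270474) (.g (nat_lit 2168) (.e (nat_lit 196652) (nat_lit 11) (.e (nat_lit 16438) (nat_lit 9) (.e (nat_lit 426568) (nat_lit 34) (.e (nat_lit 393253) (nat_lit 18) (.e (nat_lit 164326) (nat_lit 230) .nil))))) .nil)) 
(.lf (nat_lit 270538) (.g (nat_lit 3039) (.e (nat_lit 196654) (nat_lit 11) (.e (nat_lit 16436) (nat_lit 9) (.e (nat_lit 426568) (nat_lit 34) (.e (nat_lit 393252) (nat_lit 18) (.e (nat_lit 164330) (nat_lit 230) (.e (nat_lit 163866) (nat_lit 2) .nil)))))) (.g (nat_lit 6) .nil .nil)))) (.nd (nat_lit 6) 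
(.lf (nat_lit 270506) (.g (nat_lit 1161) (.e (nat_lit 196654) (nat_lit 11) (.e (nat_lit 16416) (nat_lit 3) (.e (nat_lit 204819) (nat_lit 17) .nil))) .nil)) 
(.lf (nat_lit 270570) (.g (nat_lit 3415) (.e (nat_lit 196655) (nat_lit 11) (.e (nat_lit 16435) (nat_lit 9) (.e (nat_lit 426566) (nat_lit 34) (.e (nat_lit 393251) (nat_lit 18) (.e (nat_lit 164326) (nat_lit 230) (.e (nat_lit 163868) (nat_lit 2) .nil)))))) (.g (nat_lit 6) .nil .nil))))) (.nd (nat_lit 5) (.nd (nat_lit 6) 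
(.lf (nat_lit 270490) (.g (nat_lit 1022) (.e (nat_lit 196654) (nat_lit 11) (.e (nat_lit 16412) (nat_lit 2) (.e (nat_lit 196612) (nat_lit 0) .nil))) .nil)) 
(.lf (nat_lit 270554) (.g (nat_lit 3045) (.e (nat_lit 196654) (nat_lit 11) (.e (nat_lit 16438) (nat_lit 9) (.e (nat_lit 426568) (nat_lit 34) (.e (nat_lit 393252) (nat_lit 18) (.e (nat_lit 164332) (nat_lit 230) (.e (nat_lit 163866) (nat_lit 2) .nil)))))) (.g (nat_lit 5) .nil .nil)))) (.nd (nat_lit 6) 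
(.lf (nat_lit 270522) (.g (nat_lit 2134) (.e (nat_lit 196654) (nat_lit 11) (.e (nat_lit 16417) (nat_lit 3) (.e (nat_lit 204831) (nat_lit 18) (.e (nat_lit 57692) (nat_lit 156) (.e (nat_lit 171776) (nat_lit 64) .nil))))) .nil)) 
(.lf (nat_lit 270586) (.g (nat_lit 581) (.e (nat_lit 196656) (nat_lit 11) (.e (nat_lit 16392) (nat_lit 0) (.e (nat_lit 3399) (nat_lit 211) (.e (nat_lit 655104) (nat_lit 15) .nil)))) .nil)))))) (.nd (nat_lit 3) (.nd (nat_lit 4) (.nd (nat_lit 5) (.nd (nat_lit 6) 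
(.lf (nat_lit 270470) (.g (nat_lit 2701) (.e (nat_lit 196652) (nat_lit 11) (.e (nat_lit 16438) (nat_lit 9) (.e (nat_lit 426566) (nat_lit 34) (.e (nat_lit 393254) (nat_lit 18) (.e (nat_lit 164326) (nat_lit 230) .nil))))) .nil)) 
(.lf (nat_lit 270534) (.g (nat_lit 3014) (.e (nat_lit 196654) (nat_lit 11) (.e (nat_lit 16436) (nat_lit 9) (.e (nat_lit 426566) (nat_lit 34) (.e (nat_lit 393254) (nat_lit 18) (.e (nat_lit 164331) (nat_lit 230) (.e (nat_lit 163866) (nat_lit 2) .nil)))))) (.g (nat_lit 6) .nil .nil)))) (.nd (nat_lit 6) 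
(.lf (nat_lit 270502) (.g (nat_lit 1079) (.e (nat_lit 196654) (nat_lit 11) (.e (nat_lit 16416) (nat_lit 3) (.e (nat_lit 204801) (nat_lit 0) .nil))) .nil)) 
(.lf (nat_lit 270566) (.g (nat_lit 2475) (.e (nat_lit 196655) (nat_lit 11) (.e (nat_lit 16435) (nat_lit 9) (.e (nat_lit 426496) (nat_lit 27) (.e (nat_lit 336387) (nat_lit 27) (.e (nat_lit 426107) (nat_lit 1) (.e (nat_lit 164326) (nat_lit 230) (.e (nat_lit 163868) (nat_lit 2) .nil))))))) (.g (nat_lit 7) .nil .nil))))) (.nd (nat_lit 5) (.nd (nat_lit 6) 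
(.lf (nat_lit 270486) (.g (nat_lit 2996) (.e (nat_lit 196654) (nat_lit 11) (.e (nat_lit 16407) (nat_lit 1) (.e (nat_lit 164401) (nat_lit 256) (.e (nat_lit 57409) (nat_lit 12) (.e (nat_lit 336443) (nat_lit 32) (.e (nat_lit 466974) (nat_lit 22) .nil)))))) (.g (nat_lit 0) .nil .nil))) 
(.lf (nat_lit 270550) (.g (nat_lit 3213) (.e (nat_lit 196654) (nat_lit 11) (.e (nat_lit 16438) (nat_lit 9) (.e (nat_lit 426568) (nat_lit 34) (.e (nat_lit 393251) (nat_lit 18) (.e (nat_lit 164325) (nat_lit 230) (.e (nat_lit 163866) (nat_lit 2) .nil)))))) (.g (nat_lit 5) .nil .nil)))) (.nd (nat_lit 6) 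
(.lf (nat_lit 270518) (.g (nat_lit 2325) (.e (nat_lit 196654) (nat_lit 11) (.e (nat_lit 16416) (nat_lit 3) (.e (nat_lit 204837) (nat_lit 20) (.e (nat_lit 114718) (nat_lit 23) (.e (nat_lit 98334) (nat_lit 18) (.e (nat_lit 164332) (nat_lit 230) (.e (nat_lit 163866) (nat_lit 2) .nil))))))) (.g (nat_lit 4) .nil .nil))) 
(.lf (nat_lit 270582) (.g (nat_lit 2799) (.e (nat_lit 196655) (nat_lit 11) (.e (nat_lit 16465) (nat_lit 13) (.e (nat_lit 483341) (nat_lit 9) (.e (nat_lit 426105) (nat_lit 1) (.e (nat_lit 164326) (nat_lit 230) (.e (nat_lit 163868) (nat_lit 2) .nil)))))) (.g (nat_lit 5) .nil .nil)))))) (.nd (nat_lit 4) (.nd (nat_lit 5) (.nd (nat_lit 6) 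
(.lf (nat_lit 270478) (.g (nat_lit 1383) (.e (nat_lit 196653) (nat_lit 11) (.e (nat_lit 16433) (nat_lit 9) (.e (nat_lit 426568) (nat_lit 34) (.e (nat_lit 393253) (nat_lit 18) .nil)))) .nil)) 
(.lf (nat_lit 270542) (.g (nat_lit 2669) (.e (nat_lit 196654) (nat_lit 11) (.e (nat_lit 16436) (nat_lit 9) (.e (nat_lit 426568) (nat_lit 34) (.e (nat_lit 393253) (nat_lit 18) (.e (nat_lit 164330) (nat_lit 230) (.e (nat_lit 163866) (nat_lit 2) .nil)))))) (.g (nat_lit 5) .nil .nil)))) (.nd (nat_lit 6) 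
(.lf (nat_lit 270510) (.g (nat_lit 2718) (.e (nat_lit 196654) (nat_lit 11) (.e (nat_lit 16416) (nat_lit 3) (.e (nat_lit 204829) (nat_lit 18) (.e (nat_lit 57691) (nat_lit 156) (.e (nat_lit 171776) (nat_lit 64) .nil))))) .nil)) 
(.lf (nat_lit 270574) (.g (nat_lit 3460) (.e (nat_lit 196655) (nat_lit 11) (.e (nat_lit 16435) (nat_lit 9) (.e (nat_lit 426566) (nat_lit 34) (.e (nat_lit 393253) (nat_lit 18) (.e (nat_lit 164326) (nat_lit 230) (.e (nat_lit 163871) (nat_lit 2) .nil)))))) (.g (nat_lit 0) .nil .nil))))) (.nd (nat_lit 5) (.nd (nat_lit 6) 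
(.lf (nat_lit 270494) (.g (nat_lit 1022) (.e (nat_lit 196654) (nat_lit 11) (.e (nat_lit 16412) (nat_lit 2) (.e (nat_lit 196649) (nat_lit 10) .nil))) .nil)) 
(.lf (nat_lit 270558) (.g (nat_lit 3174) (.e (nat_lit 196654) (nat_lit 11) (.e (nat_lit 16438) (nat_lit 9) (.e (nat_lit 426568) (nat_lit 34) (.e (nat_lit 393253) (nat_lit 18) (.e (nat_lit 164331) (nat_lit 230) (.e (nat_lit 163866) (nat_lit 2) .nil)))))) (.g (nat_lit 5) .nil .nil)))) (.nd (nat_lit 6) 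
(.lf (nat_lit 270526) (.g (nat_lit 3844) (.e (nat_lit 196654) (nat_lit 11) (.e (nat_lit 16436) (nat_lit 9) (.e (nat_lit 426481) (nat_lit 27) (.e (nat_lit 336389) (nat_lit 27) (.e (nat_lit 426098) (nat_lit 1) (.e (nat_lit 164327) (nat_lit 230) (.e (nat_lit 163868) (nat_lit 2) .nil))))))) (.g (nat_lit 6) .nil .nil))) 
(.lf (nat_lit 270590) (.g (nat_lit 1889) (.e (nat_lit 196656) (nat_lit 11) (.e (nat_lit 16405) (nat_lit 1) (.e (nat_lit 164403) (nat_lit 256) (.e (nat_lit 57446) (nat_lit 19) (.e (nat_lit 393281) (nat_lit 23) (.e (nat_lit 426115) (nat_lit 2) .nil)))))) (.g (nat_lit 4) .nil .nil))))))))) (.nd (nat_lit 1) (.nd (nat_lit 2) (.nd (nat_lit 3) (.nd (nat_lit 4) (.nd (nat_lit 5) (.nd (nat_lit 6) 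
(.lf (nat_lit 270465) (.g (nat_lit 1460) (.e (nat_lit 196652) (nat_lit 11) (.e (nat_lit 16436) (nat_lit 9) (.e (nat_lit 426568) (nat_lit 34) (.e (nat_lit 393253) (nat_lit 18) .nil)))) .nil)) 
(.lf (nat_lit 270529) (.g (nat_lit 3207) (.e (nat_lit 196654) (nat_lit 11) (.e (nat_lit 16436) (nat_lit 9) (.e (nat_lit 426566) (nat_lit 34) (.e (nat_lit 393251) (nat_lit 18) (.e (nat_lit 164331) (nat_lit 230) (.e (nat_lit 163866) (nat_lit 2) .nil)))))) (.g (nat_lit 5) .nil .nil)))) (.nd (nat_lit 6) 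
(.lf (nat_lit 270497) (.g (nat_lit 1317) (.e (nat_lit 196654) (nat_lit 11) (.e (nat_lit 16412) (nat_lit 2) (.e (nat_lit 196661) (nat_lit 12) (.e (nat_lit 65280) (nat_lit 0) .nil)))) .nil)) 
(.lf (nat_lit 270561) (.g (nat_lit 3923) (.e (nat_lit 196654) (nat_lit 11) (.e (nat_lit 16473) (nat_lit 14) (.e (nat_lit 491539) (nat_lit 3) (.e (nat_lit 98386) (nat_lit 32) (.e (nat_lit 483072) (nat_lit 51) (.e (nat_lit 794669) (nat_lit 22) .nil)))))) (.g (nat_lit 4) .nil .nil))))) (.nd (nat_lit 5) (.nd (nat_lit 6) 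
(.lf (nat_lit 270481) (.g (nat_lit 937) (.e (nat_lit 196653) (nat_lit 11) (.e (nat_lit 16463) (nat_lit 13) (.e (nat_lit 483339) (nat_lit 9) .nil))) .nil)) 
(.lf (nat_lit 270545) (.g (nat_lit 2698) (.e (nat_lit 196654) (nat_lit 11) (.e (nat_lit 16438) (nat_lit 9) (.e (nat_lit 426566) (nat_lit 34) (.e (nat_lit 393253) (nat_lit 18) (.e (nat_lit 164322) (nat_lit 230) .nil))))) .nil))) (.nd (nat_lit 6) 
(.lf (nat_lit 270513) (.g (nat_lit 1090) (.e (nat_lit 196654) (nat_lit 11) (.e (nat_lit 16416) (nat_lit 3) (.e (nat_lit 204831) (nat_lit 18) .nil))) .nil)) 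
(.lf (nat_lit 270577) (.g (nat_lit 3046) (.e (nat_lit 196655) (nat_lit 11) (.e (nat_lit 16435) (nat_lit 9) (.e (nat_lit 426568) (nat_lit 34) (.e (nat_lit 393253) (nat_lit 18) (.e (nat_lit 164326) (nat_lit 230) (.e (nat_lit 163868) (nat_lit 2) .nil)))))) (.g (nat_lit 6) .nil .nil)))))) (.nd (nat_lit 4) (.nd (nat_lit 5) (.nd (nat_lit 6) 
(.lf (nat_lit 270473) (.g (nat_lit 1407) (.e (nat_lit 196652) (nat_lit 11) (.e (nat_lit 16438) (nat_lit 9) (.e (nat_lit 426568) (nat_lit 34) (.e (nat_lit 393251) (nat_lit 18) .nil)))) .nil)) 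
(.lf (nat_lit 270537) (.g (nat_lit 2892) (.e (nat_lit 196654) (nat_lit 11) (.e (nat_lit 16436) (nat_lit 9) (.e (nat_lit 426568) (nat_lit 34) (.e (nat_lit 393251) (nat_lit 18) (.e (nat_lit 164332) (nat_lit 230) (.e (nat_lit 163866) (nat_lit 2) .nil)))))) (.g (nat_lit 5) .nil .nil)))) (.nd (nat_lit 6) 
(.lf (nat_lit 270505) (.g (nat_lit 1200) (.e (nat_lit 196654) (nat_lit 11) (.e (nat_lit 16416) (nat_lit 3) (.e (nat_lit 204816) (nat_lit 17) .nil))) .nil)) 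
(.lf (nat_lit 270569) (.g (nat_lit 2485) (.e (nat_lit 196655) (nat_lit 11) (.e (nat_lit 16435) (nat_lit 9) (.e (nat_lit 426566) (nat_lit 34) (.e (nat_lit 393251) (nat_lit 18) (.e (nat_lit 164323) (nat_lit 230) .nil))))) .nil)))) (.nd (nat_lit 5) (.nd (nat_lit 6) 
(.lf (nat_lit 270489) (.g (nat_lit 1022) (.e (nat_lit 196654) (nat_lit 11) (.e (nat_lit 16412) (nat_lit 2) (.e (nat_lit 196609) (nat_lit 0) .nil))) .nil)) 
(.lf (nat_lit 270553) (.g (nat_lit 3179) (.e (nat_lit 196654) (nat_lit 11) (.e (nat_lit 16438) (nat_lit 9) (.e (nat_lit 426568) (nat_lit 34) (.e (nat_lit 393252) (nat_lit 18) (.e (nat_lit 164330) (nat_lit 230) (.e (nat_lit 163866) (nat_lit 2) .nil)))))) (.g (nat_lit 5) .nil .nil)))) (.nd (nat_lit 6) 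
(.lf (nat_lit 270521) (.g (nat_lit 1215) (.e (nat_lit 196654) (nat_lit 11) (.e (nat_lit 16416) (nat_lit 3) (.e (nat_lit 204844) (nat_lit 23) .nil))) .nil)) 
(.lf (nat_lit 270585) (.g (nat_lit 653) (.e (nat_lit 196656) (nat_lit 11) (.e (nat_lit 16392) (nat_lit 0) (.e (nat_lit 2512) (nat_lit 157) .nil))) .nil)))))) (.nd (nat_lit 3) (.nd (nat_lit 4) (.nd (nat_lit 5) (.nd (nat_lit 6) 
(.lf (nat_lit 270469) (.g (nat_lit 1908) (.e (nat_lit 196652) (nat_lit 11) (.e (nat_lit 16438) (nat_lit 9) (.e (nat_lit 426566) (nat_lit 34) (.e (nat_lit 393254) (nat_lit 18) .nil)))) .nil)) 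
(.lf (nat_lit 270533) (.g (nat_lit 1834) (.e (nat_lit 196654) (nat_lit 11) (.e (nat_lit 16436) (nat_lit 9) (.e (nat_lit 426566) (nat_lit 34) (.e (nat_lit 393254) (nat_lit 18) (.e (nat_lit 164326) (nat_lit 230) (.e (nat_lit 163865) (nat_lit 2) .nil)))))) (.g (nat_lit 4) .nil .nil)))) (.nd (nat_lit 6) 
(.lf (nat_lit 270501) (.g (nat_lit 988) (.e (nat_lit 196654) (nat_lit 11) (.e (nat_lit 16412) (nat_lit 2) (.e (nat_lit 196699) (nat_lit 20) .nil))) .nil)) 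
(.lf (nat_lit 270565) (.g (nat_lit 2460) (.e (nat_lit 196655) (nat_lit 11) (.e (nat_lit 16434) (nat_lit 9) (.e (nat_lit 426566) (nat_lit 34) (.e (nat_lit 393254) (nat_lit 18) (.e (nat_lit 164326) (nat_lit 230) (.e (nat_lit 163871) (nat_lit 2) .nil)))))) (.g (nat_lit 4) .nil .nil))))) (.nd (nat_lit 5) (.nd (nat_lit 6) 
(.lf (nat_lit 270485) (.g (nat_lit 1173) (.e (nat_lit 196654) (nat_lit 11) (.e (nat_lit 16406) (nat_lit 1) (.e (nat_lit 164397) (nat_lit 256) (.e (nat_lit 57448) (nat_lit 19) (.e (nat_lit 393281) (nat_lit 23) .nil))))) .nil)) 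
(.lf (nat_lit 270549) (.g (nat_lit 1282) (.e (nat_lit 196654) (nat_lit 11) (.e (nat_lit 16438) (nat_lit 9) (.e (nat_lit 426568) (nat_lit 34) (.e (nat_lit 393251) (nat_lit 18) .nil)))) .nil))) (.nd (nat_lit 6) 
(.lf (nat_lit 270517) (.g (nat_lit 1915) (.e (nat_lit 196654) (nat_lit 11) (.e (nat_lit 16416) (nat_lit 3) (.e (nat_lit 204831) (nat_lit 18) (.e (nat_lit 65280) (nat_lit 166) .nil)))) .nil)) 
(.lf (nat_lit 270581) (.g (nat_lit 326) (.e (nat_lit 196655) (nat_lit 11) (.e (nat_lit 16465) (nat_lit 13) (.e (nat_lit 483341) (nat_lit 9) .nil))) .nil))))) (.nd (nat_lit 4) (.nd (nat_lit 5) (.nd (nat_lit 6) 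
(.lf (nat_lit 270477) (.g (nat_lit 557) (.e (nat_lit 196653) (nat_lit 11) (.e (nat_lit 16388) (nat_lit 0) (.e (nat_lit 3208) (nat_lit 195) .nil))) .nil)) 
(.lf (nat_lit 270541) (.g (nat_lit 2942) (.e (nat_lit 196654) (nat_lit 11) (.e (nat_lit 16436) (nat_lit 9) (.e (nat_lit 426568) (nat_lit 34) (.e (nat_lit 393253) (nat_lit 18) (.e (nat_lit 164327) (nat_lit 230) (.e (nat_lit 163866) (nat_lit 2) .nil)))))) (.g (nat_lit 5) .nil .nil)))) (.nd (nat_lit 6) 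
(.lf (nat_lit 270509) (.g (nat_lit 2718) (.e (nat_lit 196654) (nat_lit 11) (.e (nat_lit 16416) (nat_lit 3) (.e (nat_lit 204829) (nat_lit 18) (.e (nat_lit 57691) (nat_lit 156) (.e (nat_lit 171776) (nat_lit 63) .nil))))) .nil)) 
(.lf (nat_lit 270573) (.g (nat_lit 3532) (.e (nat_lit 196655) (nat_lit 11) (.e (nat_lit 16435) (nat_lit 9) (.e (nat_lit 426566) (nat_lit 34) (.e (nat_lit 393253) (nat_lit 18) (.e (nat_lit 164326) (nat_lit 230) (.e (nat_lit 163868) (nat_lit 2) .nil)))))) (.g (nat_lit 0) .nil .nil))))) (.nd (nat_lit 5) (.nd (nat_lit 6) 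
(.lf (nat_lit 270493) (.g (nat_lit 528) (.e (nat_lit 196654) (nat_lit 11) (.e (nat_lit 16412) (nat_lit 2) (.e (nat_lit 204544) (nat_lit 0) .nil))) .nil)) 
(.lf (nat_lit 270557) (.g (nat_lit 3909) (.e (nat_lit 196654) (nat_lit 11) (.e (nat_lit 16438) (nat_lit 9) (.e (nat_lit 426568) (nat_lit 34) (.e (nat_lit 393253) (nat_lit 18) (.e (nat_lit 164327) (nat_lit 230) (.e (nat_lit 163871) (nat_lit 2) .nil)))))) (.g (nat_lit 6) .nil .nil)))) (.nd (nat_lit 6) 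
(.lf (nat_lit 270525) (.g (nat_lit 4091) (.e (nat_lit 196654) (nat_lit 11) (.e (nat_lit 16436) (nat_lit 9) (.e (nat_lit 426478) (nat_lit 27) (.e (nat_lit 336389) (nat_lit 27) (.e (nat_lit 426098) (nat_lit 1) (.e (nat_lit 164327) (nat_lit 230) (.e (nat_lit 163871) (nat_lit 2) .nil))))))) (.g (nat_lit 6) .nil .nil))) 
(.lf (nat_lit 270589) (.g (nat_lit 2689) (.e (nat_lit 196656) (nat_lit 11) (.e (nat_lit 16405) (nat_lit 1) (.e (nat_lit 164398) (nat_lit 256) (.e (nat_lit 57447) (nat_lit 19) (.e (nat_lit 393281) (nat_lit 23) (.e (nat_lit 426115) (nat_lit 2) .nil)))))) (.g (nat_lit 5) .nil .nil)))))))) (.nd (nat_lit 2) (.nd (nat_lit 3) (.nd (nat_lit 4) (.nd (nat_lit 5) (.nd (nat_lit 6) 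
(.lf (nat_lit 270467) (.g (nat_lit 1842) (.e (nat_lit 196652) (nat_lit 11) (.e (nat_lit 16438) (nat_lit 9) (.e (nat_lit 426566) (nat_lit 34) (.e (nat_lit 393253) (nat_lit 18) (.e (nat_lit 164326) (nat_lit 230) .nil))))) .nil)) 
(.lf (nat_lit 270531) (.g (nat_lit 3597) (.e (nat_lit 196654) (nat_lit 11) (.e (nat_lit 16436) (nat_lit 9) (.e (nat_lit 426566) (nat_lit 34) (.e (nat_lit 393253) (nat_lit 18) (.e (nat_lit 164324) (nat_lit 230) (.e (nat_lit 163866) (nat_lit 2) .nil)))))) (.g (nat_lit 6) .nil .nil)))) (.nd (nat_lit 6) 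
(.lf (nat_lit 270499) (.g (nat_lit 915) (.e (nat_lit 196654) (nat_lit 11) (.e (nat_lit 16412) (nat_lit 2) (.e (nat_lit 196698) (nat_lit 19) .nil))) .nil)) 
(.lf (nat_lit 270563) (.g (nat_lit 1572) (.e (nat_lit 196655) (nat_lit 11) (.e (nat_lit 16432) (nat_lit 9) (.e (nat_lit 426566) (nat_lit 34) (.e (nat_lit 393254) (nat_lit 18) .nil)))) .nil)))) (.nd (nat_lit 5) (.nd (nat_lit 6) 
(.lf (nat_lit 270483) (.g (nat_lit 3508) (.e (nat_lit 196653) (nat_lit 11) (.e (nat_lit 16473) (nat_lit 14) (.e (nat_lit 491539) (nat_lit 3) (.e (nat_lit 98386) (nat_lit 32) (.e (nat_lit 483072) (nat_lit 51) .nil))))) .nil)) 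
(.lf (nat_lit 270547) (.g (nat_lit 2738) (.e (nat_lit 196654) (nat_lit 11) (.e (nat_lit 16438) (nat_lit 9) (.e (nat_lit 426566) (nat_lit 34) (.e (nat_lit 393254) (nat_lit 18) (.e (nat_lit 164326) (nat_lit 230) .nil))))) .nil))) (.nd (nat_lit 6) 
(.lf (nat_lit 270515) (.g (nat_lit 3965) (.e (nat_lit 196654) (nat_lit 11) (.e (nat_lit 16416) (nat_lit 3) (.e (nat_lit 204831) (nat_lit 18) (.e (nat_lit 57692) (nat_lit 156) (.e (nat_lit 171776) (nat_lit 63) (.e (nat_lit 90185) (nat_lit 17) (.e (nat_lit 237590) (nat_lit 2) .nil))))))) (.g (nat_lit 4) .nil .nil))) 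
(.lf (nat_lit 270579) (.g (nat_lit 1948) (.e (nat_lit 196655) (nat_lit 11) (.e (nat_lit 16436) (nat_lit 9) (.e (nat_lit 426568) (nat_lit 34) (.e (nat_lit 393253) (nat_lit 18) (.e (nat_lit 164326) (nat_lit 230) .nil))))) .nil))))) (.nd (nat_lit 4) (.nd (nat_lit 5) (.nd (nat_lit 6) 
(.lf (nat_lit 270475) (.g (nat_lit 3476) (.e (nat_lit 196652) (nat_lit 11) (.e (nat_lit 16438) (nat_lit 9) (.e (nat_lit 426568) (nat_lit 34) (.e (nat_lit 393253) (nat_lit 18) (.e (nat_lit 164329) (nat_lit 230) (.e (nat_lit 163867) (nat_lit 2) .nil)))))) (.g (nat_lit 6) .nil .nil))) 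
(.lf (nat_lit 270539) (.g (nat_lit 957) (.e (nat_lit 196654) (nat_lit 11) (.e (nat_lit 16436) (nat_lit 9) (.e (nat_lit 426568) (nat_lit 34) (.e (nat_lit 393253) (nat_lit 18) .nil)))) .nil))) (.nd (nat_lit 6) 
(.lf (nat_lit 270507) (.g (nat_lit 1050) (.e (nat_lit 196654) (nat_lit 11) (.e (nat_lit 16416) (nat_lit 3) (.e (nat_lit 204821) (nat_lit 17) .nil))) .nil)) 
(.lf (nat_lit 270571) (.g (nat_lit 1133) (.e (nat_lit 196655) (nat_lit 11) (.e (nat_lit 16435) (nat_lit 9) (.e (nat_lit 426566) (nat_lit 34) (.e (nat_lit 393253) (nat_lit 18) .nil)))) .nil)))) (.nd (nat_lit 5) (.nd (nat_lit 6) 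
(.lf (nat_lit 270491) (.g (nat_lit 1022) (.e (nat_lit 196654) (nat_lit 11) (.e (nat_lit 16412) (nat_lit 2) (.e (nat_lit 196613) (nat_lit 0) .nil))) .nil)) 
(.lf (nat_lit 270555) (.g (nat_lit 1248) (.e (nat_lit 196654) (nat_lit 11) (.e (nat_lit 16438) (nat_lit 9) (.e (nat_lit 426568) (nat_lit 34) (.e (nat_lit 393253) (nat_lit 18) .nil)))) .nil))) (.nd (nat_lit 6) 
(.lf (nat_lit 270523) (.g (nat_lit 1139) (.e (nat_lit 196654) (nat_lit 11) (.e (nat_lit 16417) (nat_lit 3) (.e (nat_lit 204831) (nat_lit 18) (.e (nat_lit 65280) (nat_lit 166) .nil)))) .nil)) 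
(.lf (nat_lit 270587) (.g (nat_lit 2778) (.e (nat_lit 196656) (nat_lit 11) (.e (nat_lit 16405) (nat_lit 1) (.e (nat_lit 164398) (nat_lit 256) (.e (nat_lit 57445) (nat_lit 19) (.e (nat_lit 393281) (nat_lit 23) (.e (nat_lit 426115) (nat_lit 2) .nil)))))) (.g (nat_lit 5) .nil .nil))))))) (.nd (nat_lit 3) (.nd (nat_lit 4) (.nd (nat_lit 5) (.nd (nat_lit 6) 
(.lf (nat_lit 270471) (.g (nat_lit 2728) (.e (nat_lit 196652) (nat_lit 11) (.e (nat_lit 16438) (nat_lit 9) (.e (nat_lit 426566) (nat_lit 34) (.e (nat_lit 393254) (nat_lit 18) (.e (nat_lit 164329) (nat_lit 230) .nil))))) .nil)) 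
(.lf (nat_lit 270535) (.g (nat_lit 3017) (.e (nat_lit 196654) (nat_lit 11) (.e (nat_lit 16436) (nat_lit 9) (.e (nat_lit 426566) (nat_lit 34) (.e (nat_lit 393254) (nat_lit 18) (.e (nat_lit 164332) (nat_lit 230) (.e (nat_lit 163866) (nat_lit 2) .nil)))))) (.g (nat_lit 6) .nil .nil)))) (.nd (nat_lit 6) 
(.lf (nat_lit 270503) (.g (nat_lit 1997) (.e (nat_lit 196654) (nat_lit 11) (.e (nat_lit 16416) (nat_lit 3) (.e (nat_lit 204809) (nat_lit 9) (.e (nat_lit 426114) (nat_lit 2) (.e (nat_lit 196654) (nat_lit 11) (.e (nat_lit 16410) (nat_lit 2) .nil)))))) (.g (nat_lit 5) .nil .nil))) 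
(.lf (nat_lit 270567) (.g (nat_lit 1322) (.e (nat_lit 196655) (nat_lit 11) (.e (nat_lit 16435) (nat_lit 9) (.e (nat_lit 426564) (nat_lit 34) (.e (nat_lit 393254) (nat_lit 18) (.e (nat_lit 164326) (nat_lit 230) .nil))))) .nil)))) (.nd (nat_lit 5) (.nd (nat_lit 6) 
(.lf (nat_lit 270487) (.g (nat_lit 3056) (.e (nat_lit 196654) (nat_lit 11) (.e (nat_lit 16407) (nat_lit 1) (.e (nat_lit 164401) (nat_lit 256) (.e (nat_lit 57409) (nat_lit 12) (.e (nat_lit 336443) (nat_lit 32) (.e (nat_lit 466977) (nat_lit 22) .nil)))))) (.g (nat_lit 0) .nil .nil))) 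
(.lf (nat_lit 270551) (.g (nat_lit 3500) (.e (nat_lit 196654) (nat_lit 11) (.e (nat_lit 16438) (nat_lit 9) (.e (nat_lit 426568) (nat_lit 34) (.e (nat_lit 393251) (nat_lit 18) (.e (nat_lit 164331) (nat_lit 230) (.e (nat_lit 163867) (nat_lit 2) .nil)))))) (.g (nat_lit 5) .nil .nil)))) (.nd (nat_lit 6) 
(.lf (nat_lit 270519) (.g (nat_lit 5287) (.e (nat_lit 196654) (nat_lit 11) (.e (nat_lit 16416) (nat_lit 3) (.e (nat_lit 204838) (nat_lit 20) (.e (nat_lit 114719) (nat_lit 23) (.e (nat_lit 98333) (nat_lit 18) (.e (nat_lit 164325) (nat_lit 230) (.e (nat_lit 163866) (nat_lit 2) .nil))))))) (.g (nat_lit 6) .nil .nil))) 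
(.lf (nat_lit 270583) (.g (nat_lit 2747) (.e (nat_lit 196655) (nat_lit 11) (.e (nat_lit 16465) (nat_lit 13) (.e (nat_lit 483341) (nat_lit 9) (.e (nat_lit 426105) (nat_lit 1) (.e (nat_lit 164326) (nat_lit 230) (.e (nat_lit 163871) (nat_lit 2) .nil)))))) (.g (nat_lit 5) .nil .nil)))))) (.nd (nat_lit 4) (.nd (nat_lit 5) (.nd (nat_lit 6) 
(.lf (nat_lit 270479) (.g (nat_lit 615) (.e (nat_lit 196653) (nat_lit 11) (.e (nat_lit 16438) (nat_lit 9) (.e (nat_lit 426568) (nat_lit 34) .nil))) .nil)) 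
(.lf (nat_lit 270543) (.g (nat_lit 3049) (.e (nat_lit 196654) (nat_lit 11) (.e (nat_lit 16436) (nat_lit 9) (.e (nat_lit 426568) (nat_lit 34) (.e (nat_lit 393253) (nat_lit 18) (.e (nat_lit 164331) (nat_lit 230) (.e (nat_lit 163866) (nat_lit 2) .nil)))))) (.g (nat_lit 6) .nil .nil)))) (.nd (nat_lit 6) 
(.lf (nat_lit 270511) (.g (nat_lit 635) (.e (nat_lit 196654) (nat_lit 11) (.e (nat_lit 16416) (nat_lit 3) (.e (nat_lit 204830) (nat_lit 18) .nil))) .nil)) 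
(.lf (nat_lit 270575) (.g (nat_lit 3587) (.e (nat_lit 196655) (nat_lit 11) (.e (nat_lit 16435) (nat_lit 9) (.e (nat_lit 426566) (nat_lit 34) (.e (nat_lit 393253) (nat_lit 18) (.e (nat_lit 164327) (nat_lit 230) (.e (nat_lit 163871) (nat_lit 2) .nil)))))) (.g (nat_lit 0) .nil .nil))))) (.nd (nat_lit 5) (.nd (nat_lit 6) 
(.lf (nat_lit 270495) (.g (nat_lit 1022) (.e (nat_lit 196654) (nat_lit 11) (.e (nat_lit 16412) (nat_lit 2) (.e (nat_lit 196651) (nat_lit 10) .nil))) .nil)) 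
(.lf (nat_lit 270559) (.g (nat_lit 3201) (.e (nat_lit 196654) (nat_lit 11) (.e (nat_lit 16438) (nat_lit 9) (.e (nat_lit 426568) (nat_lit 34) (.e (nat_lit 393253) (nat_lit 18) (.e (nat_lit 164332) (nat_lit 230) (.e (nat_lit 163866) (nat_lit 2) .nil)))))) (.g (nat_lit 5) .nil .nil)))) (.nd (nat_lit 6) 
(.lf (nat_lit 270527) (.g (nat_lit 3877) (.e (nat_lit 196654) (nat_lit 11) (.e (nat_lit 16436) (nat_lit 9) (.e (nat_lit 426481) (nat_lit 27) (.e (nat_lit 336389) (nat_lit 27) (.e (nat_lit 426098) (nat_lit 1) (.e (nat_lit 164327) (nat_lit 230) (.e (nat_lit 163871) (nat_lit 2) .nil))))))) (.g (nat_lit 6) .nil .nil))) 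
(.lf (nat_lit 270591) (.g (nat_lit 2580) (.e (nat_lit 196656) (nat_lit 11) (.e (nat_lit 16405) (nat_lit 1) (.e (nat_lit 164403) (nat_lit 256) (.e (nat_lit 57447) (nat_lit 19) (.e (nat_lit 393281) (nat_lit 23) (.e (nat_lit 426115) (nat_lit 2) .nil)))))) (.g (nat_lit 5) .nil .nil))))))))))

noncomputable def tv3471 : DT := (.nd (nat_lit 0) (.nd (nat_lit 1) (.nd (nat_lit 2) (.nd (nat_lit 3) (.nd (nat_lit 4) (.nd (nat_lit 5) (.nd (nat_lit 6) 
(.lf (nat_lit 270592) (.g (nat_lit 2471) (.e (nat_lit 196656) (nat_lit 11) (.e (nat_lit 16406) (nat_lit 1) (.e (nat_lit 164398) (nat_lit 256) (.e (nat_lit 57447) (nat_lit 19) (.e (nat_lit 393281) (nat_lit 23) (.e (nat_lit 426115) (nat_lit 2) .nil)))))) (.g (nat_lit 5) .nil .nil))) 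
(.lf (nat_lit 270656) (.g (nat_lit 2075) (.e (nat_lit 196661) (nat_lit 12) (.e (nat_lit 57574) (nat_lit 55) (.e (nat_lit 778472) (nat_lit 12) (.e (nat_lit 163978) (nat_lit 30) (.e (nat_lit 573478) (nat_lit 12) .nil))))) .nil))) (.nd (nat_lit 6) 
(.lf (nat_lit 270624) (.g (nat_lit 3773) (.e (nat_lit 196656) (nat_lit 11) (.e (nat_lit 16477) (nat_lit 15) (.e (nat_lit 1800) (nat_lit 119) (.e (nat_lit 516150) (nat_lit 9) (.e (nat_lit 426131) (nat_lit 3) (.e (nat_lit 204838) (nat_lit 20) (.e (nat_lit 122624) (nat_lit 2) .nil))))))) (.g (nat_lit 5) .nil .nil))) 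
(.lf (nat_lit 270688) (.g (nat_lit 1852) (.e (nat_lit 196662) (nat_lit 13) (.e (nat_lit 65610) (nat_lit 10) (.e (nat_lit 344117) (nat_lit 21) (.e (nat_lit 516106) (nat_lit 0) .nil)))) .nil)))) (.nd (nat_lit 5) (.nd (nat_lit 6) 
(.lf (nat_lit 270608) (.g (nat_lit 1643) (.e (nat_lit 196656) (nat_lit 11) (.e (nat_lit 16416) (nat_lit 3) (.e (nat_lit 204837) (nat_lit 20) (.e (nat_lit 114708) (nat_lit 20) .nil)))) .nil)) 
(.lf (nat_lit 270672) (.g (nat_lit 3282) (.e (nat_lit 196661) (nat_lit 12) (.e (nat_lit 57714) (nat_lit 176) (.e (nat_lit 1386) (nat_lit 105) (.e (nat_lit 311348) (nat_lit 15) (.e (nat_lit 1859) (nat_lit 124) (.e (nat_lit 557109) (nat_lit 15) (.e (nat_lit 188449) (nat_lit 22) .nil))))))) (.g (nat_lit 0) .nil .nil)))) (.nd (nat_lit 6) 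
(.lf (nat_lit 270640) (.g (nat_lit 4986) (.e (nat_lit 196660) (nat_lit 12) (.e (nat_lit 57354) (nat_lit 0) (.e (nat_lit 5195) (nat_lit 294) (.e (nat_lit 57377) (nat_lit 3) (.e (nat_lit 98317) (nat_lit 9) (.e (nat_lit 335892) (nat_lit 0) (.e (nat_lit 1803) (nat_lit 119) (.e (nat_lit 516131) (nat_lit 3) (.e (nat_lit 221212) (nat_lit 22) .nil))))))))) (.g (nat_lit 5) .nil .nil))) 
(.lf (nat_lit 270704) (.g (nat_lit 757) (.e (nat_lit 196662) (nat_lit 13) (.e (nat_lit 65624) (nat_lit 12) (.e (nat_lit 385074) (nat_lit 31) .nil))) .nil))))) (.nd (nat_lit 4) (.nd (nat_lit 5) (.nd (nat_lit 6) 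
(.lf (nat_lit 270600) (.g (nat_lit 1779) (.e (nat_lit 196656) (nat_lit 11) (.e (nat_lit 16412) (nat_lit 2) (.e (nat_lit 196656) (nat_lit 11) (.e (nat_lit 16409) (nat_lit 2) .nil)))) .nil)) 
(.lf (nat_lit 270664) (.g (nat_lit 2098) (.e (nat_lit 196661) (nat_lit 12) (.e (nat_lit 57712) (nat_lit 176) (.e (nat_lit 1370) (nat_lit 103) (.e (nat_lit 294912) (nat_lit 0) .nil)))) .nil))) (.nd (nat_lit 6) 
(.lf (nat_lit 270632) (.g (nat_lit 726) (.e (nat_lit 196659) (nat_lit 12) (.e (nat_lit 57508) (nat_lit 39) (.e (nat_lit 647203) (nat_lit 14) (.e (nat_lit 1139) (nat_lit 84) .nil)))) .nil)) 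
(.lf (nat_lit 270696) (.g (nat_lit 2824) (.e (nat_lit 196662) (nat_lit 13) (.e (nat_lit 65617) (nat_lit 10) (.e (nat_lit 344132) (nat_lit 26) (.e (nat_lit 557094) (nat_lit 12) (.e (nat_lit 164022) (nat_lit 46) (.e (nat_lit 704738) (nat_lit 11) (.e (nat_lit 16411) (nat_lit 2) .nil))))))) (.g (nat_lit 6) .nil .nil))))) (.nd (nat_lit 5) (.nd (nat_lit 6) 
(.lf (nat_lit 270616) (.g (nat_lit 2020) (.e (nat_lit 196656) (nat_lit 11) (.e (nat_lit 16438) (nat_lit 9) (.e (nat_lit 426566) (nat_lit 34) (.e (nat_lit 393254) (nat_lit 18) .nil)))) .nil)) 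
(.lf (nat_lit 270680) (.g (nat_lit 1666) (.e (nat_lit 196662) (nat_lit 13) (.e (nat_lit 65571) (nat_lit 3) (.e (nat_lit 98342) (nat_lit 20) (.e (nat_lit 221214) (nat_lit 23) .nil)))) .nil))) (.nd (nat_lit 6) 
(.lf (nat_lit 270648) (.g (nat_lit 1497) (.e (nat_lit 196661) (nat_lit 12) (.e (nat_lit 57361) (nat_lit 0) (.e (nat_lit 5949) (nat_lit 322) (.e (nat_lit 57373) (nat_lit 2) (.e (nat_lit 98048) (nat_lit 5) .nil))))) .nil)) 
(.lf (nat_lit 270712) (.g (nat_lit 3426) (.e (nat_lit 196662) (nat_lit 13) (.e (nat_lit 65637) (nat_lit 15) (.e (nat_lit 3632) (nat_lit 227) (.e (nat_lit 778317) (nat_lit 3) (.e (nat_lit 57477) (nat_lit 28) .nil))))) .nil)))))) (.nd (nat_lit 3) (.nd (nat_lit 4) (.nd (nat_lit 5) (.nd (nat_lit 6) 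
(.lf (nat_lit 270596) (.g (nat_lit 2634) (.e (nat_lit 196656) (nat_lit 11) (.e (nat_lit 16406) (nat_lit 1) (.e (nat_lit 164403) (nat_lit 256) (.e (nat_lit 57447) (nat_lit 19) (.e (nat_lit 393281) (nat_lit 23) (.e (nat_lit 426115) (nat_lit 2) .nil)))))) (.g (nat_lit 5) .nil .nil))) 
(.lf (nat_lit 270660) (.g (nat_lit 3692) (.e (nat_lit 196661) (nat_lit 12) (.e (nat_lit 57575) (nat_lit 55) (.e (nat_lit 778482) (nat_lit 12) (.e (nat_lit 163978) (nat_lit 30) (.e (nat_lit 573478) (nat_lit 12) (.e (nat_lit 57549) (nat_lit 48) (.e (nat_lit 720940) (nat_lit 22) (.e (nat_lit 90170) (nat_lit 13) (.e (nat_lit 172064) (nat_lit 2) .nil))))))))) (.g (nat_lit 5) .nil .nil)))) 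
(.nd (nat_lit 6) 
(.lf (nat_lit 270628) (.g (nat_lit 2556) (.e (nat_lit 196659) (nat_lit 12) (.e (nat_lit 57354) (nat_lit 0) (.e (nat_lit 5195) (nat_lit 294) (.e (nat_lit 57372) (nat_lit 2) (.e (nat_lit 90128) (nat_lit 9) (.e (nat_lit 297) (nat_lit 22) (.e (nat_lit 344119) (nat_lit 21) (.e (nat_lit 516131) (nat_lit 3) (.e (nat_lit 221212) (nat_lit 22) .nil))))))))) (.g (nat_lit 5) .nil .nil))) 
(.lf (nat_lit 270692) (.g (nat_lit 2034) (.e (nat_lit 196662) (nat_lit 13) (.e (nat_lit 65617) (nat_lit 10) (.e (nat_lit 344130) (nat_lit 26) (.e (nat_lit 557090) (nat_lit 12) (.e (nat_lit 164022) (nat_lit 46) .nil))))) .nil)))) (.nd (nat_lit 5) (.nd (nat_lit 6) 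
(.lf (nat_lit 270612) (.g (nat_lit 521) (.e (nat_lit 196656) (nat_lit 11) (.e (nat_lit 16435) (nat_lit 9) (.e (nat_lit 426568) (nat_lit 34) .nil))) .nil)) 
(.lf (nat_lit 270676) (.g (nat_lit 4437) (.e (nat_lit 196661) (nat_lit 12) (.e (nat_lit 57723) (nat_lit 180) (.e (nat_lit 229643) (nat_lit 232) (.e (nat_lit 1256) (nat_lit 92) (.e (nat_lit 98350) (nat_lit 24) (.e (nat_lit 409648) (nat_lit 18) (.e (nat_lit 303116) (nat_lit 2) .nil))))))) (.g (nat_lit 7) .nil .nil)))) (.nd (nat_lit 6) 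
(.lf (nat_lit 270644) (.g (nat_lit 1169) (.e (nat_lit 196660) (nat_lit 12) (.e (nat_lit 57354) (nat_lit 0) (.e (nat_lit 5195) (nat_lit 294) (.e (nat_lit 57448) (nat_lit 19) .nil)))) .nil)) 
(.lf (nat_lit 270708) (.g (nat_lit 625) (.e (nat_lit 196662) (nat_lit 13) (.e (nat_lit 65630) (nat_lit 14) (.e (nat_lit 401425) (nat_lit 2) .nil))) .nil))))) (.nd (nat_lit 4) (.nd (nat_lit 5) (.nd (nat_lit 6) 
(.lf (nat_lit 270604) (.g (nat_lit 3039) (.e (nat_lit 196656) (nat_lit 11) (.e (nat_lit 16416) (nat_lit 3) (.e (nat_lit 204829) (nat_lit 18) (.e (nat_lit 57692) (nat_lit 156) (.e (nat_lit 171776) (nat_lit 63) .nil))))) .nil)) 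
(.lf (nat_lit 270668) (.g (nat_lit 1836) (.e (nat_lit 196661) (nat_lit 12) (.e (nat_lit 57712) (nat_lit 176) (.e (nat_lit 1370) (nat_lit 103) (.e (nat_lit 294930) (nat_lit 3) .nil)))) .nil))) (.nd (nat_lit 6) 
(.lf (nat_lit 270636) (.g (nat_lit 1820) (.e (nat_lit 196660) (nat_lit 12) (.e (nat_lit 57354) (nat_lit 0) (.e (nat_lit 5195) (nat_lit 294) (.e (nat_lit 57372) (nat_lit 2) (.e (nat_lit 90133) (nat_lit 9) .nil))))) .nil)) 
(.lf (nat_lit 270700) (.g (nat_lit 524) (.e (nat_lit 196662) (nat_lit 13) (.e (nat_lit 65619) (nat_lit 10) (.e (nat_lit 344117) (nat_lit 21) .nil))) .nil)))) (.nd (nat_lit 5) (.nd (nat_lit 6) 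
(.lf (nat_lit 270620) (.g (nat_lit 2069) (.e (nat_lit 196656) (nat_lit 11) (.e (nat_lit 16438) (nat_lit 9) (.e (nat_lit 426568) (nat_lit 34) (.e (nat_lit 393252) (nat_lit 18) (.e (nat_lit 164331) (nat_lit 230) .nil))))) .nil)) 
(.lf (nat_lit 270684) (.g (nat_lit 725) (.e (nat_lit 196662) (nat_lit 13) (.e (nat_lit 65604) (nat_lit 9) (.e (nat_lit 336013) (nat_lit 2) .nil))) .nil))) (.nd (nat_lit 6) 
(.lf (nat_lit 270652) (.g (nat_lit 3603) (.e (nat_lit 196661) (nat_lit 12) (.e (nat_lit 57538) (nat_lit 46) (.e (nat_lit 704741) (nat_lit 11) (.e (nat_lit 16416) (nat_lit 3) (.e (nat_lit 204861) (nat_lit 26) (.e (nat_lit 336076) (nat_lit 9) (.e (nat_lit 336316) (nat_lit 17) .nil))))))) (.g (nat_lit 7) .nil .nil))) 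
(.lf (nat_lit 270716) (.g (nat_lit 1331) (.e (nat_lit 196663) (nat_lit 13) (.e (nat_lit 65569) (nat_lit 3) (.e (nat_lit 98341) (nat_lit 20) (.e (nat_lit 221214) (nat_lit 23) .nil)))) .nil))))))) (.nd (nat_lit 2) (.nd (nat_lit 3) (.nd (nat_lit 4) (.nd (nat_lit 5) (.nd (nat_lit 6) 
(.lf (nat_lit 270594) (.g (nat_lit 2465) (.e (nat_lit 196656) (nat_lit 11) (.e (nat_lit 16406) (nat_lit 1) (.e (nat_lit 164403) (nat_lit 256) (.e (nat_lit 57445) (nat_lit 19) (.e (nat_lit 393281) (nat_lit 23) (.e (nat_lit 426115) (nat_lit 2) .nil)))))) (.g (nat_lit 5) .nil .nil))) 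
(.lf (nat_lit 270658) (.g (nat_lit 563) (.e (nat_lit 196661) (nat_lit 12) (.e (nat_lit 57575) (nat_lit 55) (.e (nat_lit 778474) (nat_lit 12) .nil))) .nil))) (.nd (nat_lit 6) 
(.lf (nat_lit 270626) (.g (nat_lit 1386) (.e (nat_lit 196658) (nat_lit 12) (.e (nat_lit 57508) (nat_lit 39) (.e (nat_lit 647195) (nat_lit 9) (.e (nat_lit 1234) (nat_lit 91) (.e (nat_lit 90170) (nat_lit 13) .nil))))) .nil)) 
(.lf (nat_lit 270690) (.g (nat_lit 3358) (.e (nat_lit 196662) (nat_lit 13) (.e (nat_lit 65610) (nat_lit 10) (.e (nat_lit 344117) (nat_lit 21) (.e (nat_lit 516106) (nat_lit 0) (.e (nat_lit 7014) (nat_lit 377) .nil))))) .nil)))) (.nd (nat_lit 5) (.nd (nat_lit 6) 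
(.lf (nat_lit 270610) (.g (nat_lit 776) (.e (nat_lit 196656) (nat_lit 11) (.e (nat_lit 16433) (nat_lit 9) (.e (nat_lit 426571) (nat_lit 35) .nil))) .nil)) 
(.lf (nat_lit 270674) (.g (nat_lit 732) (.e (nat_lit 196661) (nat_lit 12) (.e (nat_lit 57721) (nat_lit 177) (.e (nat_lit 57884) (nat_lit 270) (.e (nat_lit 1250) (nat_lit 92) .nil)))) .nil))) (.nd (nat_lit 6) 
(.lf (nat_lit 270642) (.g (nat_lit 1619) (.e (nat_lit 196660) (nat_lit 12) (.e (nat_lit 57354) (nat_lit 0) (.e (nat_lit 5195) (nat_lit 294) (.e (nat_lit 57379) (nat_lit 3) (.e (nat_lit 98313) (nat_lit 9) .nil))))) .nil)) 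
(.lf (nat_lit 270706) (.g (nat_lit 2132) (.e (nat_lit 196662) (nat_lit 13) (.e (nat_lit 65624) (nat_lit 12) (.e (nat_lit 385074) (nat_lit 31) (.e (nat_lit 573485) (nat_lit 13) .nil)))) .nil))))) (.nd (nat_lit 4) (.nd (nat_lit 5) (.nd (nat_lit 6) 
(.lf (nat_lit 270602) (.g (nat_lit 795) (.e (nat_lit 196656) (nat_lit 11) (.e (nat_lit 16412) (nat_lit 2) (.e (nat_lit 196661) (nat_lit 12) .nil))) .nil)) 
(.lf (nat_lit 270666) (.g (nat_lit 2209) (.e (nat_lit 196661) (nat_lit 12) (.e (nat_lit 57712) (nat_lit 176) (.e (nat_lit 1370) (nat_lit 103) (.e (nat_lit 294915) (nat_lit 0) .nil)))) .nil))) (.nd (nat_lit 6) 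
(.lf (nat_lit 270634) (.g (nat_lit 1204) (.e (nat_lit 196660) (nat_lit 12) (.e (nat_lit 57354) (nat_lit 0) (.e (nat_lit 5194) (nat_lit 294) (.e (nat_lit 57372) (nat_lit 2) (.e (nat_lit 90160) (nat_lit 11) .nil))))) .nil)) 
(.lf (nat_lit 270698) (.g (nat_lit 3548) (.e (nat_lit 196662) (nat_lit 13) (.e (nat_lit 65617) (nat_lit 10) (.e (nat_lit 344133) (nat_lit 26) (.e (nat_lit 557091) (nat_lit 12) (.e (nat_lit 164022) (nat_lit 46) (.e (nat_lit 704738) (nat_lit 11) (.e (nat_lit 16411) (nat_lit 2) .nil))))))) (.g (nat_lit 6) .nil .nil))))) (.nd (nat_lit 5) (.nd (nat_lit 6) 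
(.lf (nat_lit 270618) (.g (nat_lit 2924) (.e (nat_lit 196656) (nat_lit 11) (.e (nat_lit 16438) (nat_lit 9) (.e (nat_lit 426566) (nat_lit 34) (.e (nat_lit 393254) (nat_lit 18) (.e (nat_lit 164332) (nat_lit 230) .nil))))) .nil)) 
(.lf (nat_lit 270682) (.g (nat_lit 1221) (.e (nat_lit 196662) (nat_lit 13) (.e (nat_lit 65598) (nat_lit 9) (.e (nat_lit 336028) (nat_lit 3) (.e (nat_lit 98349) (nat_lit 24) .nil)))) .nil))) (.nd (nat_lit 6) 
(.lf (nat_lit 270650) (.g (nat_lit 1526) (.e (nat_lit 196661) (nat_lit 12) (.e (nat_lit 57536) (nat_lit 46) (.e (nat_lit 704734) (nat_lit 11) (.e (nat_lit 16412) (nat_lit 2) (.e (nat_lit 196672) (nat_lit 15) (.e (nat_lit 89856) (nat_lit 2) .nil)))))) (.g (nat_lit 5) .nil .nil))) 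
(.lf (nat_lit 270714) (.g (nat_lit 428) (.e (nat_lit 196663) (nat_lit 13) (.e (nat_lit 65569) (nat_lit 3) (.e (nat_lit 98334) (nat_lit 18) .nil))) .nil)))))) (.nd (nat_lit 3) (.nd (nat_lit 4) (.nd (nat_lit 5) (.nd (nat_lit 6) 
(.lf (nat_lit 270598) (.g (nat_lit 2181) (.e (nat_lit 196656) (nat_lit 11) (.e (nat_lit 16407) (nat_lit 1) (.e (nat_lit 164403) (nat_lit 256) (.e (nat_lit 57447) (nat_lit 19) (.e (nat_lit 393267) (nat_lit 23) .nil))))) .nil)) 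
(.lf (nat_lit 270662) (.g (nat_lit 1474) (.e (nat_lit 196661) (nat_lit 12) (.e (nat_lit 57711) (nat_lit 176) (.e (nat_lit 1367) (nat_lit 103) (.e (nat_lit 294928) (nat_lit 2) (.e (nat_lit 90178) (nat_lit 15) .nil))))) .nil))) (.nd (nat_lit 6) 
(.lf (nat_lit 270630) (.g (nat_lit 1724) (.e (nat_lit 196659) (nat_lit 12) (.e (nat_lit 57354) (nat_lit 0) (.e (nat_lit 5195) (nat_lit 294) (.e (nat_lit 57377) (nat_lit 3) (.e (nat_lit 98313) (nat_lit 9) .nil))))) .nil)) 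
(.lf (nat_lit 270694) (.g (nat_lit 1737) (.e (nat_lit 196662) (nat_lit 13) (.e (nat_lit 65617) (nat_lit 10) (.e (nat_lit 344132) (nat_lit 26) (.e (nat_lit 557093) (nat_lit 12) (.e (nat_lit 164022) (nat_lit 46) .nil))))) .nil)))) (.nd (nat_lit 5) (.nd (nat_lit 6) 
(.lf (nat_lit 270614) (.g (nat_lit 1916) (.e (nat_lit 196656) (nat_lit 11) (.e (nat_lit 16438) (nat_lit 9) (.e (nat_lit 426566) (nat_lit 34) (.e (nat_lit 393252) (nat_lit 18) (.e (nat_lit 164329) (nat_lit 230) .nil))))) .nil)) 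
(.lf (nat_lit 270678) (.g (nat_lit 2086) (.e (nat_lit 196661) (nat_lit 12) (.e (nat_lit 57750) (nat_lit 201) (.e (nat_lit 3067) (nat_lit 190) (.e (nat_lit 475185) (nat_lit 29) (.e (nat_lit 557098) (nat_lit 13) .nil))))) .nil))) (.nd (nat_lit 6) 
(.lf (nat_lit 270646) (.g (nat_lit 3211) (.e (nat_lit 196661) (nat_lit 12) (.e (nat_lit 57357) (nat_lit 0) (.e (nat_lit 5195) (nat_lit 294) (.e (nat_lit 57372) (nat_lit 2) (.e (nat_lit 90158) (nat_lit 11) (.e (nat_lit 24608) (nat_lit 3) (.e (nat_lit 98321) (nat_lit 17) (.e (nat_lit 3771) (nat_lit 229) (.e (nat_lit 794668) (nat_lit 22) .nil))))))))) (.g (nat_lit 6) .nil .nil))) 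
(.lf (nat_lit 270710) (.g (nat_lit 1922) (.e (nat_lit 196662) (nat_lit 13) (.e (nat_lit 65630) (nat_lit 14) (.e (nat_lit 401428) (nat_lit 3) (.e (nat_lit 204849) (nat_lit 25) .nil)))) .nil))))) (.nd (nat_lit 4) (.nd (nat_lit 5) (.nd (nat_lit 6) 
(.lf (nat_lit 270606) (.g (nat_lit 1199) (.e (nat_lit 196656) (nat_lit 11) (.e (nat_lit 16416) (nat_lit 3) (.e (nat_lit 204831) (nat_lit 18) .nil))) .nil)) 
(.lf (nat_lit 270670) (.g (nat_lit 1525) (.e (nat_lit 196661) (nat_lit 12) (.e (nat_lit 57714) (nat_lit 176) (.e (nat_lit 1348) (nat_lit 102) (.e (nat_lit 286733) (nat_lit 2) (.e (nat_lit 90169) (nat_lit 13) .nil))))) .nil))) (.nd (nat_lit 6) 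
(.lf (nat_lit 270638) (.g (nat_lit 1587) (.e (nat_lit 196660) (nat_lit 12) (.e (nat_lit 57354) (nat_lit 0) (.e (nat_lit 5195) (nat_lit 294) (.e (nat_lit 57377) (nat_lit 3) (.e (nat_lit 98313) (nat_lit 9) .nil))))) .nil)) 
(.lf (nat_lit 270702) (.g (nat_lit 3314) (.e (nat_lit 196662) (nat_lit 13) (.e (nat_lit 65619) (nat_lit 10) (.e (nat_lit 344117) (nat_lit 21) (.e (nat_lit 516139) (nat_lit 7) (.e (nat_lit 409648) (nat_lit 18) .nil))))) .nil)))) (.nd (nat_lit 5) (.nd (nat_lit 6) 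
(.lf (nat_lit 270622) (.g (nat_lit 2974) (.e (nat_lit 196656) (nat_lit 11) (.e (nat_lit 16473) (nat_lit 14) (.e (nat_lit 491526) (nat_lit 0) (.e (nat_lit 1842) (nat_lit 123) (.e (nat_lit 548874) (nat_lit 5) .nil))))) .nil)) 
(.lf (nat_lit 270686) (.g (nat_lit 3008) (.e (nat_lit 196662) (nat_lit 13) (.e (nat_lit 65610) (nat_lit 10) (.e (nat_lit 344117) (nat_lit 21) (.e (nat_lit 516099) (nat_lit 0) .nil)))) .nil))) (.nd (nat_lit 6) 
(.lf (nat_lit 270654) (.g (nat_lit 1014) (.e (nat_lit 196661) (nat_lit 12) (.e (nat_lit 57574) (nat_lit 55) (.e (nat_lit 778455) (nat_lit 10) (.e (nat_lit 8326) (nat_lit 69) .nil)))) .nil)) 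
(.lf (nat_lit 270718) (.g (nat_lit 1488) (.e (nat_lit 196663) (nat_lit 13) (.e (nat_lit 65569) (nat_lit 3) (.e (nat_lit 98342) (nat_lit 20) (.e (nat_lit 221204) (nat_lit 20) .nil)))) .nil)))))))) (.nd (nat_lit 1) (.nd (nat_lit 2) (.nd (nat_lit 3) (.nd (nat_lit 4) (.nd (nat_lit 5) (.nd (nat_lit 6) 
(.lf (nat_lit 270593) (.g (nat_lit 2347) (.e (nat_lit 196656) (nat_lit 11) (.e (nat_lit 16406) (nat_lit 1) (.e (nat_lit 164398) (nat_lit 256) (.e (nat_lit 57448) (nat_lit 19) (.e (nat_lit 393281) (nat_lit 23) (.e (nat_lit 426115) (nat_lit 2) .nil)))))) (.g (nat_lit 5) .nil .nil))) 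
(.lf (nat_lit 270657) (.g (nat_lit 557) (.e (nat_lit 196661) (nat_lit 12) (.e (nat_lit 57575) (nat_lit 55) (.e (nat_lit 778472) (nat_lit 12) .nil))) .nil))) (.nd (nat_lit 6) 
(.lf (nat_lit 270625) (.g (nat_lit 952) (.e (nat_lit 196658) (nat_lit 12) (.e (nat_lit 57507) (nat_lit 39) (.e (nat_lit 647203) (nat_lit 14) (.e (nat_lit 1139) (nat_lit 84) .nil)))) .nil)) 
(.lf (nat_lit 270689) (.g (nat_lit 2713) (.e (nat_lit 196662) (nat_lit 13) (.e (nat_lit 65610) (nat_lit 10) (.e (nat_lit 344117) (nat_lit 21) (.e (nat_lit 516106) (nat_lit 0) (.e (nat_lit 6998) (nat_lit 377) .nil))))) .nil)))) (.nd (nat_lit 5) (.nd (nat_lit 6) 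
(.lf (nat_lit 270609) (.g (nat_lit 1737) (.e (nat_lit 196656) (nat_lit 11) (.e (nat_lit 16431) (nat_lit 9) (.e (nat_lit 426568) (nat_lit 34) (.e (nat_lit 393251) (nat_lit 18) .nil)))) .nil)) 
(.lf (nat_lit 270673) (.g (nat_lit 1856) (.e (nat_lit 196661) (nat_lit 12) (.e (nat_lit 57718) (nat_lit 176) (.e (nat_lit 1348) (nat_lit 102) (.e (nat_lit 286733) (nat_lit 2) (.e (nat_lit 90178) (nat_lit 15) .nil))))) .nil))) (.nd (nat_lit 6) 
(.lf (nat_lit 270641) (.g (nat_lit 4799) (.e (nat_lit 196660) (nat_lit 12) (.e (nat_lit 57354) (nat_lit 0) (.e (nat_lit 5195) (nat_lit 294) (.e (nat_lit 57377) (nat_lit 3) (.e (nat_lit 98317) (nat_lit 9) (.e (nat_lit 335899) (nat_lit 0) (.e (nat_lit 1803) (nat_lit 119) (.e (nat_lit 516131) (nat_lit 3) (.e (nat_lit 221212) (nat_lit 22) .nil))))))))) (.g (nat_lit 5) .nil .nil))) 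
(.lf (nat_lit 270705) (.g (nat_lit 1831) (.e (nat_lit 196662) (nat_lit 13) (.e (nat_lit 65624) (nat_lit 12) (.e (nat_lit 385074) (nat_lit 31) (.e (nat_lit 573484) (nat_lit 13) .nil)))) .nil))))) (.nd (nat_lit 4) (.nd (nat_lit 5) (.nd (nat_lit 6) 
(.lf (nat_lit 270601) (.g (nat_lit 3006) (.e (nat_lit 196656) (nat_lit 11) (.e (nat_lit 16412) (nat_lit 2) (.e (nat_lit 196656) (nat_lit 11) (.e (nat_lit 16412) (nat_lit 2) (.e (nat_lit 196656) (nat_lit 11) (.e (nat_lit 16411) (nat_lit 2) .nil)))))) (.g (nat_lit 5) .nil .nil))) 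
(.lf (nat_lit 270665) (.g (nat_lit 2224) (.e (nat_lit 196661) (nat_lit 12) (.e (nat_lit 57712) (nat_lit 176) (.e (nat_lit 1370) (nat_lit 103) (.e (nat_lit 294913) (nat_lit 0) .nil)))) .nil))) (.nd (nat_lit 6) 
(.lf (nat_lit 270633) (.g (nat_lit 333) (.e (nat_lit 196660) (nat_lit 12) (.e (nat_lit 57354) (nat_lit 0) (.e (nat_lit 5194) (nat_lit 294) .nil))) .nil)) 
(.lf (nat_lit 270697) (.g (nat_lit 2243) (.e (nat_lit 196662) (nat_lit 13) (.e (nat_lit 65617) (nat_lit 10) (.e (nat_lit 344133) (nat_lit 26) (.e (nat_lit 557091) (nat_lit 12) (.e (nat_lit 164022) (nat_lit 46) .nil))))) .nil)))) (.nd (nat_lit 5) (.nd (nat_lit 6) 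
(.lf (nat_lit 270617) (.g (nat_lit 2923) (.e (nat_lit 196656) (nat_lit 11) (.e (nat_lit 16438) (nat_lit 9) (.e (nat_lit 426566) (nat_lit 34) (.e (nat_lit 393254) (nat_lit 18) (.e (nat_lit 164325) (nat_lit 230) .nil))))) .nil)) 
(.lf (nat_lit 270681) (.g (nat_lit 3912) (.e (nat_lit 196662) (nat_lit 13) (.e (nat_lit 65598) (nat_lit 9) (.e (nat_lit 336013) (nat_lit 2) (.e (nat_lit 90134) (nat_lit 9) (.e (nat_lit 2828) (nat_lit 182) .nil))))) .nil))) (.nd (nat_lit 6) 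
(.lf (nat_lit 270649) (.g (nat_lit 1599) (.e (nat_lit 196661) (nat_lit 12) (.e (nat_lit 57525) (nat_lit 46) (.e (nat_lit 704734) (nat_lit 11) (.e (nat_lit 16412) (nat_lit 2) (.e (nat_lit 196672) (nat_lit 15) (.e (nat_lit 89856) (nat_lit 2) .nil)))))) (.g (nat_lit 5) .nil .nil))) 
(.lf (nat_lit 270713) (.g (nat_lit 3377) (.e (nat_lit 196662) (nat_lit 13) (.e (nat_lit 65637) (nat_lit 15) (.e (nat_lit 3632) (nat_lit 227) (.e (nat_lit 778317) (nat_lit 3) (.e (nat_lit 57480) (nat_lit 28) .nil))))) .nil)))))) (.nd (nat_lit 3) (.nd (nat_lit 4) (.nd (nat_lit 5) (.nd (nat_lit 6) 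
(.lf (nat_lit 270597) (.g (nat_lit 1346) (.e (nat_lit 196656) (nat_lit 11) (.e (nat_lit 16407) (nat_lit 1) (.e (nat_lit 164396) (nat_lit 256) (.e (nat_lit 57448) (nat_lit 19) (.e (nat_lit 393281) (nat_lit 23) .nil))))) .nil)) 
(.lf (nat_lit 270661) (.g (nat_lit 1645) (.e (nat_lit 196661) (nat_lit 12) (.e (nat_lit 57711) (nat_lit 176) (.e (nat_lit 1348) (nat_lit 102) (.e (nat_lit 286733) (nat_lit 2) (.e (nat_lit 90169) (nat_lit 13) .nil))))) .nil))) (.nd (nat_lit 6) 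
(.lf (nat_lit 270629) (.g (nat_lit 1069) (.e (nat_lit 196659) (nat_lit 12) (.e (nat_lit 57354) (nat_lit 0) (.e (nat_lit 5195) (nat_lit 294) (.e (nat_lit 57375) (nat_lit 2) .nil)))) .nil)) 
(.lf (nat_lit 270693) (.g (nat_lit 3410) (.e (nat_lit 196662) (nat_lit 13) (.e (nat_lit 65617) (nat_lit 10) (.e (nat_lit 344130) (nat_lit 26) (.e (nat_lit 557090) (nat_lit 12) (.e (nat_lit 164022) (nat_lit 46) (.e (nat_lit 704738) (nat_lit 11) (.e (nat_lit 16411) (nat_lit 2) .nil))))))) (.g (nat_lit 6) .nil .nil))))) (.nd (nat_lit 5) (.nd (nat_lit 6) 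
(.lf (nat_lit 270613) (.g (nat_lit 2159) (.e (nat_lit 196656) (nat_lit 11) (.e (nat_lit 16436) (nat_lit 9) (.e (nat_lit 426131) (nat_lit 3) (.e (nat_lit 204880) (nat_lit 32) (.e (nat_lit 385109) (nat_lit 51) (.e (nat_lit 802560) (nat_lit 22) .nil)))))) (.g (nat_lit 4) .nil .nil))) 
(.lf (nat_lit 270677) (.g (nat_lit 2295) (.e (nat_lit 196661) (nat_lit 12) (.e (nat_lit 57750) (nat_lit 201) (.e (nat_lit 2856) (nat_lit 184) (.e (nat_lit 426392) (nat_lit 15) (.e (nat_lit 1853) (nat_lit 124) .nil))))) .nil))) (.nd (nat_lit 6) 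
(.lf (nat_lit 270645) (.g (nat_lit 4247) (.e (nat_lit 196660) (nat_lit 12) (.e (nat_lit 57550) (nat_lit 48) (.e (nat_lit 720938) (nat_lit 22) (.e (nat_lit 90172) (nat_lit 14) (.e (nat_lit 180244) (nat_lit 5) (.e (nat_lit 532499) (nat_lit 1) (.e (nat_lit 57692) (nat_lit 156) (.e (nat_lit 163869) (nat_lit 2) .nil)))))))) (.g (nat_lit 8) .nil .nil))) 
(.lf (nat_lit 270709) (.g (nat_lit 875) (.e (nat_lit 196662) (nat_lit 13) (.e (nat_lit 65630) (nat_lit 14) (.e (nat_lit 401428) (nat_lit 3) .nil))) .nil))))) (.nd (nat_lit 4) (.nd (nat_lit 5) (.nd (nat_lit 6) 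
(.lf (nat_lit 270605) (.g (nat_lit 830) (.e (nat_lit 196656) (nat_lit 11) (.e (nat_lit 16416) (nat_lit 3) (.e (nat_lit 204830) (nat_lit 18) .nil))) .nil)) 
(.lf (nat_lit 270669) (.g (nat_lit 3445) (.e (nat_lit 196661) (nat_lit 12) (.e (nat_lit 57712) (nat_lit 176) (.e (nat_lit 1370) (nat_lit 103) (.e (nat_lit 294931) (nat_lit 3) (.e (nat_lit 98370) (nat_lit 28) (.e (nat_lit 442424) (nat_lit 22) .nil)))))) (.g (nat_lit 0) .nil .nil)))) (.nd (nat_lit 6) 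
(.lf (nat_lit 270637) (.g (nat_lit 1723) (.e (nat_lit 196660) (nat_lit 12) (.e (nat_lit 57354) (nat_lit 0) (.e (nat_lit 5195) (nat_lit 294) (.e (nat_lit 57372) (nat_lit 2) (.e (nat_lit 90160) (nat_lit 11) .nil))))) .nil)) 
(.lf (nat_lit 270701) (.g (nat_lit 1338) (.e (nat_lit 196662) (nat_lit 13) (.e (nat_lit 65619) (nat_lit 10) (.e (nat_lit 344117) (nat_lit 21) (.e (nat_lit 516106) (nat_lit 0) .nil)))) .nil)))) (.nd (nat_lit 5) (.nd (nat_lit 6) 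
(.lf (nat_lit 270621) (.g (nat_lit 1244) (.e (nat_lit 196656) (nat_lit 11) (.e (nat_lit 16438) (nat_lit 9) (.e (nat_lit 426568) (nat_lit 34) (.e (nat_lit 393253) (nat_lit 18) .nil)))) .nil)) 
(.lf (nat_lit 270685) (.g (nat_lit 350) (.e (nat_lit 196662) (nat_lit 13) (.e (nat_lit 65610) (nat_lit 10) (.e (nat_lit 344117) (nat_lit 21) .nil))) .nil))) (.nd (nat_lit 6) 
(.lf (nat_lit 270653) (.g (nat_lit 1738) (.e (nat_lit 196661) (nat_lit 12) (.e (nat_lit 57574) (nat_lit 55) (.e (nat_lit 778362) (nat_lit 9) (.e (nat_lit 109) (nat_lit 3) .nil)))) .nil)) 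
(.lf (nat_lit 270717) (.g (nat_lit 1430) (.e (nat_lit 196663) (nat_lit 13) (.e (nat_lit 65569) (nat_lit 3) (.e (nat_lit 98342) (nat_lit 20) (.e (nat_lit 221198) (nat_lit 20) .nil)))) .nil))))))) (.nd (nat_lit 2) (.nd (nat_lit 3) (.nd (nat_lit 4) (.nd (nat_lit 5) (.nd (nat_lit 6) 
(.lf (nat_lit 270595) (.g (nat_lit 2240) (.e (nat_lit 196656) (nat_lit 11) (.e (nat_lit 16406) (nat_lit 1) (.e (nat_lit 164403) (nat_lit 256) (.e (nat_lit 57446) (nat_lit 19) (.e (nat_lit 393281) (nat_lit 23) (.e (nat_lit 426115) (nat_lit 2) .nil)))))) (.g (nat_lit 5) .nil .nil))) 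
(.lf (nat_lit 270659) (.g (nat_lit 557) (.e (nat_lit 196661) (nat_lit 12) (.e (nat_lit 57575) (nat_lit 55) (.e (nat_lit 778482) (nat_lit 12) .nil))) .nil))) (.nd (nat_lit 6) 
(.lf (nat_lit 270627) (.g (nat_lit 1403) (.e (nat_lit 196658) (nat_lit 12) (.e (nat_lit 57508) (nat_lit 39) (.e (nat_lit 647195) (nat_lit 9) (.e (nat_lit 1238) (nat_lit 91) (.e (nat_lit 90185) (nat_lit 17) .nil))))) .nil)) 
(.lf (nat_lit 270691) (.g (nat_lit 2868) (.e (nat_lit 196662) (nat_lit 13) (.e (nat_lit 65610) (nat_lit 10) (.e (nat_lit 344117) (nat_lit 21) (.e (nat_lit 516106) (nat_lit 0) (.e (nat_lit 7936) (nat_lit 377) .nil))))) .nil)))) (.nd (nat_lit 5) (.nd (nat_lit 6) 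
(.lf (nat_lit 270611) (.g (nat_lit 2715) (.e (nat_lit 196656) (nat_lit 11) (.e (nat_lit 16435) (nat_lit 9) (.e (nat_lit 426566) (nat_lit 34) (.e (nat_lit 393251) (nat_lit 18) (.e (nat_lit 164323) (nat_lit 230) .nil))))) .nil)) 
(.lf (nat_lit 270675) (.g (nat_lit 1617) (.e (nat_lit 196661) (nat_lit 12) (.e (nat_lit 57721) (nat_lit 177) (.e (nat_lit 57887) (nat_lit 270) (.e (nat_lit 1250) (nat_lit 92) (.e (nat_lit 98369) (nat_lit 28) (.e (nat_lit 442422) (nat_lit 22) .nil)))))) (.g (nat_lit 5) .nil .nil)))) (.nd (nat_lit 6) 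
(.lf (nat_lit 270643) (.g (nat_lit 1593) (.e (nat_lit 196660) (nat_lit 12) (.e (nat_lit 57354) (nat_lit 0) (.e (nat_lit 5195) (nat_lit 294) (.e (nat_lit 57379) (nat_lit 3) (.e (nat_lit 106240) (nat_lit 10) .nil))))) .nil)) 
(.lf (nat_lit 270707) (.g (nat_lit 1714) (.e (nat_lit 196662) (nat_lit 13) (.e (nat_lit 65628) (nat_lit 14) (.e (nat_lit 401425) (nat_lit 2) (.e (nat_lit 196666) (nat_lit 13) .nil)))) .nil))))) (.nd (nat_lit 4) (.nd (nat_lit 5) (.nd (nat_lit 6) 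
(.lf (nat_lit 270603) (.g (nat_lit 2950) (.e (nat_lit 196656) (nat_lit 11) (.e (nat_lit 16416) (nat_lit 3) (.e (nat_lit 204829) (nat_lit 18) (.e (nat_lit 57688) (nat_lit 156) (.e (nat_lit 171776) (nat_lit 63) .nil))))) .nil)) 
(.lf (nat_lit 270667) (.g (nat_lit 1253) (.e (nat_lit 196661) (nat_lit 12) (.e (nat_lit 57712) (nat_lit 176) (.e (nat_lit 1370) (nat_lit 103) (.e (nat_lit 294916) (nat_lit 0) .nil)))) .nil))) (.nd (nat_lit 6) 
(.lf (nat_lit 270635) (.g (nat_lit 408) (.e (nat_lit 196660) (nat_lit 12) (.e (nat_lit 57354) (nat_lit 0) (.e (nat_lit 5195) (nat_lit 294) .nil))) .nil)) 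
(.lf (nat_lit 270699) (.g (nat_lit 2233) (.e (nat_lit 196662) (nat_lit 13) (.e (nat_lit 65618) (nat_lit 10) (.e (nat_lit 344117) (nat_lit 21) (.e (nat_lit 516139) (nat_lit 7) (.e (nat_lit 409645) (nat_lit 18) .nil))))) .nil)))) (.nd (nat_lit 5) (.nd (nat_lit 6) 
(.lf (nat_lit 270619) (.g (nat_lit 2291) (.e (nat_lit 196656) (nat_lit 11) (.e (nat_lit 16438) (nat_lit 9) (.e (nat_lit 426568) (nat_lit 34) (.e (nat_lit 393251) (nat_lit 18) (.e (nat_lit 164323) (nat_lit 230) .nil))))) .nil)) 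
(.lf (nat_lit 270683) (.g (nat_lit 1187) (.e (nat_lit 196662) (nat_lit 13) (.e (nat_lit 65598) (nat_lit 9) (.e (nat_lit 336028) (nat_lit 3) (.e (nat_lit 98350) (nat_lit 24) .nil)))) .nil))) (.nd (nat_lit 6) 
(.lf (nat_lit 270651) (.g (nat_lit 1778) (.e (nat_lit 196661) (nat_lit 12) (.e (nat_lit 57538) (nat_lit 46) (.e (nat_lit 704741) (nat_lit 11) (.e (nat_lit 16412) (nat_lit 2) (.e (nat_lit 196672) (nat_lit 15) (.e (nat_lit 89856) (nat_lit 2) .nil)))))) (.g (nat_lit 5) .nil .nil))) 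
(.lf (nat_lit 270715) (.g (nat_lit 1342) (.e (nat_lit 196663) (nat_lit 13) (.e (nat_lit 65569) (nat_lit 3) (.e (nat_lit 98334) (nat_lit 18) (.e (nat_lit 164159) (nat_lit 152) .nil)))) .nil)))))) (.nd (nat_lit 3) (.nd (nat_lit 4) (.nd (nat_lit 5) (.nd (nat_lit 6) 
(.lf (nat_lit 270599) (.g (nat_lit 2041) (.e (nat_lit 196656) (nat_lit 11) (.e (nat_lit 16412) (nat_lit 2) (.e (nat_lit 196653) (nat_lit 11) (.e (nat_lit 16416) (nat_lit 3) (.e (nat_lit 204813) (nat_lit 9) .nil))))) .nil)) 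
(.lf (nat_lit 270663) (.g (nat_lit 1163) (.e (nat_lit 196661) (nat_lit 12) (.e (nat_lit 57712) (nat_lit 176) (.e (nat_lit 1361) (nat_lit 102) (.e (nat_lit 286727) (nat_lit 0) (.e (nat_lit 1799) (nat_lit 119) .nil))))) .nil))) (.nd (nat_lit 6) 
(.lf (nat_lit 270631) (.g (nat_lit 1786) (.e (nat_lit 196659) (nat_lit 12) (.e (nat_lit 57354) (nat_lit 0) (.e (nat_lit 5195) (nat_lit 294) (.e (nat_lit 57377) (nat_lit 3) (.e (nat_lit 106240) (nat_lit 10) .nil))))) .nil)) 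
(.lf (nat_lit 270695) (.g (nat_lit 2085) (.e (nat_lit 196662) (nat_lit 13) (.e (nat_lit 65617) (nat_lit 10) (.e (nat_lit 344132) (nat_lit 26) (.e (nat_lit 557093) (nat_lit 12) (.e (nat_lit 164023) (nat_lit 46) .nil))))) .nil)))) (.nd (nat_lit 5) (.nd (nat_lit 6) 
(.lf (nat_lit 270615) (.g (nat_lit 2799) (.e (nat_lit 196656) (nat_lit 11) (.e (nat_lit 16438) (nat_lit 9) (.e (nat_lit 426566) (nat_lit 34) (.e (nat_lit 393253) (nat_lit 18) (.e (nat_lit 164322) (nat_lit 230) .nil))))) .nil)) 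
(.lf (nat_lit 270679) (.g (nat_lit 1774) (.e (nat_lit 196661) (nat_lit 12) (.e (nat_lit 57751) (nat_lit 201) (.e (nat_lit 3067) (nat_lit 190) (.e (nat_lit 475185) (nat_lit 29) (.e (nat_lit 557098) (nat_lit 13) .nil))))) .nil))) (.nd (nat_lit 6) 
(.lf (nat_lit 270647) (.g (nat_lit 1116) (.e (nat_lit 196661) (nat_lit 12) (.e (nat_lit 57357) (nat_lit 0) (.e (nat_lit 5195) (nat_lit 294) (.e (nat_lit 57379) (nat_lit 3) (.e (nat_lit 106240) (nat_lit 10) .nil))))) .nil)) 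
(.lf (nat_lit 270711) (.g (nat_lit 3493) (.e (nat_lit 196662) (nat_lit 13) (.e (nat_lit 65637) (nat_lit 15) (.e (nat_lit 3632) (nat_lit 227) (.e (nat_lit 778317) (nat_lit 3) (.e (nat_lit 57476) (nat_lit 28) .nil))))) .nil))))) (.nd (nat_lit 4) (.nd (nat_lit 5) (.nd (nat_lit 6) 
(.lf (nat_lit 270607) (.g (nat_lit 2334) (.e (nat_lit 196656) (nat_lit 11) (.e (nat_lit 16416) (nat_lit 3) (.e (nat_lit 204831) (nat_lit 18) (.e (nat_lit 57692) (nat_lit 156) .nil)))) .nil)) 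
(.lf (nat_lit 270671) (.g (nat_lit 3114) (.e (nat_lit 196661) (nat_lit 12) (.e (nat_lit 57714) (nat_lit 176) (.e (nat_lit 1385) (nat_lit 105) (.e (nat_lit 311348) (nat_lit 15) (.e (nat_lit 1859) (nat_lit 124) (.e (nat_lit 557109) (nat_lit 15) (.e (nat_lit 188449) (nat_lit 22) .nil))))))) (.g (nat_lit 0) .nil .nil)))) (.nd (nat_lit 6) 
(.lf (nat_lit 270639) (.g (nat_lit 2111) (.e (nat_lit 196660) (nat_lit 12) (.e (nat_lit 57354) (nat_lit 0) (.e (nat_lit 5195) (nat_lit 294) (.e (nat_lit 57377) (nat_lit 3) (.e (nat_lit 98313) (nat_lit 9) (.e (nat_lit 336027) (nat_lit 3) (.e (nat_lit 98321) (nat_lit 17) (.e (nat_lit 3771) (nat_lit 229) (.e (nat_lit 794669) (nat_lit 22) .nil))))))))) (.g (nat_lit 5) .nil .nil))) 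
(.lf (nat_lit 270703) (.g (nat_lit 3191) (.e (nat_lit 196662) (nat_lit 13) (.e (nat_lit 65619) (nat_lit 10) (.e (nat_lit 344117) (nat_lit 21) (.e (nat_lit 516139) (nat_lit 7) (.e (nat_lit 409649) (nat_lit 18) .nil))))) .nil)))) (.nd (nat_lit 5) (.nd (nat_lit 6) 
(.lf (nat_lit 270623) (.g (nat_lit 3102) (.e (nat_lit 196656) (nat_lit 11) (.e (nat_lit 16473) (nat_lit 14) (.e (nat_lit 491539) (nat_lit 3) (.e (nat_lit 98384) (nat_lit 32) (.e (nat_lit 483072) (nat_lit 51) .nil))))) .nil)) 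
(.lf (nat_lit 270687) (.g (nat_lit 1824) (.e (nat_lit 196662) (nat_lit 13) (.e (nat_lit 65610) (nat_lit 10) (.e (nat_lit 344117) (nat_lit 21) (.e (nat_lit 516102) (nat_lit 0) .nil)))) .nil))) (.nd (nat_lit 6) 
(.lf (nat_lit 270655) (.g (nat_lit 612) (.e (nat_lit 196661) (nat_lit 12) (.e (nat_lit 57574) (nat_lit 55) (.e (nat_lit 778472) (nat_lit 12) .nil))) .nil)) 
(.lf (nat_lit 270719) (.g (nat_lit 1496) (.e (nat_lit 196663) (nat_lit 13) (.e (nat_lit 65569) (nat_lit 3) (.e (nat_lit 98342) (nat_lit 20) (.e (nat_lit 221213) (nat_lit 23) .nil)))) .nil)))))))))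

noncomputable def tv3472 : DT := (.nd (nat_lit 0) (.nd (nat_lit 1) (.nd (nat_lit 2) (.nd (nat_lit 3) (.nd (nat_lit 4) (.nd (nat_lit 5) (.nd (nat_lit 6) 
(.lf (nat_lit 270720) (.g (nat_lit 1971) (.e (nat_lit 196663) (nat_lit 13) (.e (nat_lit 65569) (nat_lit 3) (.e (nat_lit 98342) (nat_lit 20) (.e (nat_lit 221214) (nat_lit 23) (.e (nat_lit 204830) (nat_lit 18) .nil))))) .nil)) 
(.lf (nat_lit 270784) (.g (nat_lit 2305) (.e (nat_lit 196663) (nat_lit 13) (.e (nat_lit 65630) (nat_lit 14) (.e (nat_lit 401425) (nat_lit 2) (.e (nat_lit 196668) (nat_lit 14) (.e (nat_lit 81664) (nat_lit 32) .nil))))) .nil))) (.nd (nat_lit 6) 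
(.lf (nat_lit 270752) (.g (nat_lit 2254) (.e (nat_lit 196663) (nat_lit 13) (.e (nat_lit 65615) (nat_lit 10) (.e (nat_lit 344132) (nat_lit 26) (.e (nat_lit 557093) (nat_lit 12) (.e (nat_lit 164022) (nat_lit 46) (.e (nat_lit 704738) (nat_lit 11) (.e (nat_lit 16411) (nat_lit 2) .nil))))))) (.g (nat_lit 6) .nil .nil))) 
(.lf (nat_lit 270816) (.g (nat_lit 1899) (.e (nat_lit 196664) (nat_lit 13) (.e (nat_lit 65571) (nat_lit 3) (.e (nat_lit 98341) (nat_lit 20) (.e (nat_lit 221202) (nat_lit 20) .nil)))) .nil)))) (.nd (nat_lit 5) (.nd (nat_lit 6) 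
(.lf (nat_lit 270736) (.g (nat_lit 2235) (.e (nat_lit 196663) (nat_lit 13) (.e (nat_lit 65571) (nat_lit 3) (.e (nat_lit 98342) (nat_lit 20) (.e (nat_lit 221214) (nat_lit 23) (.e (nat_lit 204829) (nat_lit 18) .nil))))) .nil)) 
(.lf (nat_lit 270800) (.g (nat_lit 1322) (.e (nat_lit 196663) (nat_lit 13) (.e (nat_lit 65630) (nat_lit 14) (.e (nat_lit 401428) (nat_lit 3) (.e (nat_lit 204861) (nat_lit 26) .nil)))) .nil))) (.nd (nat_lit 6) 
(.lf (nat_lit 270768) (.g (nat_lit 2281) (.e (nat_lit 196663) (nat_lit 13) (.e (nat_lit 65624) (nat_lit 12) (.e (nat_lit 385074) (nat_lit 31) (.e (nat_lit 573489) (nat_lit 14) .nil)))) .nil)) 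
(.lf (nat_lit 270832) (.g (nat_lit 1490) (.e (nat_lit 196664) (nat_lit 13) (.e (nat_lit 65604) (nat_lit 9) (.e (nat_lit 336013) (nat_lit 2) (.e (nat_lit 90165) (nat_lit 12) .nil)))) .nil))))) (.nd (nat_lit 4) (.nd (nat_lit 5) (.nd (nat_lit 6) 
(.lf (nat_lit 270728) (.g (nat_lit 1796) (.e (nat_lit 196663) (nat_lit 13) (.e (nat_lit 65571) (nat_lit 3) (.e (nat_lit 98341) (nat_lit 20) (.e (nat_lit 221204) (nat_lit 20) (.e (nat_lit 3253) (nat_lit 197) .nil))))) .nil)) 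
(.lf (nat_lit 270792) (.g (nat_lit 3007) (.e (nat_lit 196663) (nat_lit 13) (.e (nat_lit 65630) (nat_lit 14) (.e (nat_lit 401427) (nat_lit 3) (.e (nat_lit 204861) (nat_lit 26) (.e (nat_lit 336230) (nat_lit 14) (.e (nat_lit 401424) (nat_lit 2) .nil)))))) (.g (nat_lit 4) .nil .nil)))) (.nd (nat_lit 6) 
(.lf (nat_lit 270760) (.g (nat_lit 693) (.e (nat_lit 196663) (nat_lit 13) (.e (nat_lit 65624) (nat_lit 12) (.e (nat_lit 385068) (nat_lit 26) .nil))) .nil)) 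
(.lf (nat_lit 270824) (.g (nat_lit 1894) (.e (nat_lit 196664) (nat_lit 13) (.e (nat_lit 65571) (nat_lit 3) (.e (nat_lit 98342) (nat_lit 20) (.e (nat_lit 221204) (nat_lit 20) (.e (nat_lit 3253) (nat_lit 197) .nil))))) .nil)))) (.nd (nat_lit 5) (.nd (nat_lit 6) 
(.lf (nat_lit 270744) (.g (nat_lit 1718) (.e (nat_lit 196663) (nat_lit 13) (.e (nat_lit 65574) (nat_lit 4) (.e (nat_lit 123197) (nat_lit 266) (.e (nat_lit 57445) (nat_lit 19) (.e (nat_lit 393237) (nat_lit 17) .nil))))) .nil)) 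
(.lf (nat_lit 270808) (.g (nat_lit 735) (.e (nat_lit 196664) (nat_lit 13) (.e (nat_lit 65571) (nat_lit 3) (.e (nat_lit 98325) (nat_lit 17) .nil))) .nil))) (.nd (nat_lit 6) 
(.lf (nat_lit 270776) (.g (nat_lit 1576) (.e (nat_lit 196663) (nat_lit 13) (.e (nat_lit 65630) (nat_lit 14) (.e (nat_lit 401425) (nat_lit 2) (.e (nat_lit 196628) (nat_lit 9) .nil)))) .nil)) 
(.lf (nat_lit 270840) (.g (nat_lit 3730) (.e (nat_lit 196664) (nat_lit 13) (.e (nat_lit 65609) (nat_lit 10) (.e (nat_lit 344132) (nat_lit 26) (.e (nat_lit 557093) (nat_lit 12) (.e (nat_lit 164022) (nat_lit 46) (.e (nat_lit 704738) (nat_lit 11) (.e (nat_lit 16412) (nat_lit 2) .nil))))))) (.g (nat_lit 0) .nil .nil))))))) (.nd (nat_lit 3) (.nd (nat_lit 4) (.nd (nat_lit 5) (.nd (nat_lit 6) 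
(.lf (nat_lit 270724) (.g (nat_lit 1855) (.e (nat_lit 196663) (nat_lit 13) (.e (nat_lit 65571) (nat_lit 3) (.e (nat_lit 98334) (nat_lit 18) (.e (nat_lit 164159) (nat_lit 152) .nil)))) .nil)) 
(.lf (nat_lit 270788) (.g (nat_lit 3605) (.e (nat_lit 196663) (nat_lit 13) (.e (nat_lit 65630) (nat_lit 14) (.e (nat_lit 401425) (nat_lit 2) (.e (nat_lit 196681) (nat_lit 17) (.e (nat_lit 131073) (nat_lit 0) .nil))))) .nil))) (.nd (nat_lit 6) 
(.lf (nat_lit 270756) (.g (nat_lit 1341) (.e (nat_lit 196663) (nat_lit 13) (.e (nat_lit 65617) (nat_lit 10) (.e (nat_lit 344132) (nat_lit 26) (.e (nat_lit 557094) (nat_lit 12) .nil)))) .nil)) 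
(.lf (nat_lit 270820) (.g (nat_lit 2286) (.e (nat_lit 196664) (nat_lit 13) (.e (nat_lit 65571) (nat_lit 3) (.e (nat_lit 98341) (nat_lit 20) (.e (nat_lit 221214) (nat_lit 23) (.e (nat_lit 204830) (nat_lit 18) .nil))))) .nil)))) (.nd (nat_lit 5) (.nd (nat_lit 6) 
(.lf (nat_lit 270740) (.g (nat_lit 1956) (.e (nat_lit 196663) (nat_lit 13) (.e (nat_lit 65571) (nat_lit 3) (.e (nat_lit 98342) (nat_lit 20) (.e (nat_lit 221215) (nat_lit 23) (.e (nat_lit 204830) (nat_lit 18) .nil))))) .nil)) 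
(.lf (nat_lit 270804) (.g (nat_lit 1883) (.e (nat_lit 196663) (nat_lit 13) (.e (nat_lit 65637) (nat_lit 15) (.e (nat_lit 3253) (nat_lit 197) (.e (nat_lit 532504) (nat_lit 1) (.e (nat_lit 57829) (nat_lit 250) .nil))))) .nil))) (.nd (nat_lit 6) 
(.lf (nat_lit 270772) (.g (nat_lit 3047) (.e (nat_lit 196663) (nat_lit 13) (.e (nat_lit 65627) (nat_lit 13) (.e (nat_lit 393225) (nat_lit 9) (.e (nat_lit 335986) (nat_lit 1) (.e (nat_lit 57927) (nat_lit 282) (.e (nat_lit 163868) (nat_lit 2) .nil)))))) (.g (nat_lit 0) .nil .nil))) 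
(.lf (nat_lit 270836) (.g (nat_lit 1175) (.e (nat_lit 196664) (nat_lit 13) (.e (nat_lit 65604) (nat_lit 9) (.e (nat_lit 336028) (nat_lit 3) (.e (nat_lit 98325) (nat_lit 17) .nil)))) .nil))))) (.nd (nat_lit 4) (.nd (nat_lit 5) (.nd (nat_lit 6) 
(.lf (nat_lit 270732) (.g (nat_lit 2639) (.e (nat_lit 196663) (nat_lit 13) (.e (nat_lit 65571) (nat_lit 3) (.e (nat_lit 98341) (nat_lit 20) (.e (nat_lit 221215) (nat_lit 23) (.e (nat_lit 204828) (nat_lit 18) .nil))))) .nil)) 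
(.lf (nat_lit 270796) (.g (nat_lit 1615) (.e (nat_lit 196663) (nat_lit 13) (.e (nat_lit 65630) (nat_lit 14) (.e (nat_lit 401428) (nat_lit 3) (.e (nat_lit 204815) (nat_lit 17) (.e (nat_lit 6203) (nat_lit 332) .nil))))) .nil))) (.nd (nat_lit 6) 
(.lf (nat_lit 270764) (.g (nat_lit 755) (.e (nat_lit 196663) (nat_lit 13) (.e (nat_lit 65624) (nat_lit 12) (.e (nat_lit 385074) (nat_lit 31) .nil))) .nil)) 
(.lf (nat_lit 270828) (.g (nat_lit 2251) (.e (nat_lit 196664) (nat_lit 13) (.e (nat_lit 65571) (nat_lit 3) (.e (nat_lit 98342) (nat_lit 20) (.e (nat_lit 221215) (nat_lit 23) (.e (nat_lit 204828) (nat_lit 18) .nil))))) .nil)))) (.nd (nat_lit 5) (.nd (nat_lit 6) 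
(.lf (nat_lit 270748) (.g (nat_lit 2439) (.e (nat_lit 196663) (nat_lit 13) (.e (nat_lit 65574) (nat_lit 4) (.e (nat_lit 123198) (nat_lit 266) (.e (nat_lit 57447) (nat_lit 19) (.e (nat_lit 393234) (nat_lit 17) (.e (nat_lit 2399) (nat_lit 157) (.e (nat_lit 5968) (nat_lit 324) (.e (nat_lit 163868) (nat_lit 2) .nil)))))))) (.g (nat_lit 5) .nil .nil))) 
(.lf (nat_lit 270812) (.g (nat_lit 1810) (.e (nat_lit 196664) (nat_lit 13) (.e (nat_lit 65571) (nat_lit 3) (.e (nat_lit 98334) (nat_lit 18) (.e (nat_lit 164159) (nat_lit 152) .nil)))) .nil))) (.nd (nat_lit 6) 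
(.lf (nat_lit 270780) (.g (nat_lit 2113) (.e (nat_lit 196663) (nat_lit 13) (.e (nat_lit 65630) (nat_lit 14) (.e (nat_lit 401425) (nat_lit 2) (.e (nat_lit 196649) (nat_lit 10) .nil)))) .nil)) 
(.lf (nat_lit 270844) (.g (nat_lit 749) (.e (nat_lit 196664) (nat_lit 13) (.e (nat_lit 65624) (nat_lit 12) (.e (nat_lit 385068) (nat_lit 26) .nil))) .nil))))))) (.nd (nat_lit 2) (.nd (nat_lit 3) (.nd (nat_lit 4) (.nd (nat_lit 5) (.nd (nat_lit 6) 
(.lf (nat_lit 270722) (.g (nat_lit 1579) (.e (nat_lit 196663) (nat_lit 13) (.e (nat_lit 65569) (nat_lit 3) (.e (nat_lit 98342) (nat_lit 20) (.e (nat_lit 221215) (nat_lit 23) (.e (nat_lit 204830) (nat_lit 18) .nil))))) .nil)) 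
(.lf (nat_lit 270786) (.g (nat_lit 2370) (.e (nat_lit 196663) (nat_lit 13) (.e (nat_lit 65630) (nat_lit 14) (.e (nat_lit 401425) (nat_lit 2) (.e (nat_lit 196670) (nat_lit 14) (.e (nat_lit 81664) (nat_lit 32) .nil))))) .nil))) (.nd (nat_lit 6) 
(.lf (nat_lit 270754) (.g (nat_lit 2052) (.e (nat_lit 196663) (nat_lit 13) (.e (nat_lit 65617) (nat_lit 10) (.e (nat_lit 344130) (nat_lit 26) (.e (nat_lit 557090) (nat_lit 12) (.e (nat_lit 164022) (nat_lit 46) .nil))))) .nil)) 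
(.lf (nat_lit 270818) (.g (nat_lit 1850) (.e (nat_lit 196664) (nat_lit 13) (.e (nat_lit 65571) (nat_lit 3) (.e (nat_lit 98341) (nat_lit 20) (.e (nat_lit 221213) (nat_lit 23) .nil)))) .nil)))) (.nd (nat_lit 5) (.nd (nat_lit 6) 
(.lf (nat_lit 270738) (.g (nat_lit 2223) (.e (nat_lit 196663) (nat_lit 13) (.e (nat_lit 65571) (nat_lit 3) (.e (nat_lit 98342) (nat_lit 20) (.e (nat_lit 221215) (nat_lit 23) (.e (nat_lit 204828) (nat_lit 18) .nil))))) .nil)) 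
(.lf (nat_lit 270802) (.g (nat_lit 1975) (.e (nat_lit 196663) (nat_lit 13) (.e (nat_lit 65630) (nat_lit 14) (.e (nat_lit 401428) (nat_lit 3) (.e (nat_lit 204863) (nat_lit 27) (.e (nat_lit 352000) (nat_lit 0) .nil))))) .nil))) (.nd (nat_lit 6) 
(.lf (nat_lit 270770) (.g (nat_lit 342) (.e (nat_lit 196663) (nat_lit 13) (.e (nat_lit 65627) (nat_lit 13) (.e (nat_lit 393225) (nat_lit 9) .nil))) .nil)) 
(.lf (nat_lit 270834) (.g (nat_lit 2123) (.e (nat_lit 196664) (nat_lit 13) (.e (nat_lit 65604) (nat_lit 9) (.e (nat_lit 336013) (nat_lit 2) (.e (nat_lit 90165) (nat_lit 12) (.e (nat_lit 164208) (nat_lit 176) .nil))))) .nil))))) (.nd (nat_lit 4) (.nd (nat_lit 5) (.nd (nat_lit 6) 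
(.lf (nat_lit 270730) (.g (nat_lit 2260) (.e (nat_lit 196663) (nat_lit 13) (.e (nat_lit 65571) (nat_lit 3) (.e (nat_lit 98341) (nat_lit 20) (.e (nat_lit 221214) (nat_lit 23) (.e (nat_lit 204829) (nat_lit 18) .nil))))) .nil)) 
(.lf (nat_lit 270794) (.g (nat_lit 2523) (.e (nat_lit 196663) (nat_lit 13) (.e (nat_lit 65630) (nat_lit 14) (.e (nat_lit 401427) (nat_lit 3) (.e (nat_lit 204861) (nat_lit 26) (.e (nat_lit 336232) (nat_lit 14) .nil))))) .nil))) (.nd (nat_lit 6) 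
(.lf (nat_lit 270762) (.g (nat_lit 1499) (.e (nat_lit 196663) (nat_lit 13) (.e (nat_lit 65624) (nat_lit 12) (.e (nat_lit 385068) (nat_lit 26) (.e (nat_lit 532511) (nat_lit 2) .nil)))) .nil)) 
(.lf (nat_lit 270826) (.g (nat_lit 2263) (.e (nat_lit 196664) (nat_lit 13) (.e (nat_lit 65571) (nat_lit 3) (.e (nat_lit 98342) (nat_lit 20) (.e (nat_lit 221214) (nat_lit 23) (.e (nat_lit 204829) (nat_lit 18) .nil))))) .nil)))) (.nd (nat_lit 5) (.nd (nat_lit 6) 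
(.lf (nat_lit 270746) (.g (nat_lit 1805) (.e (nat_lit 196663) (nat_lit 13) (.e (nat_lit 65574) (nat_lit 4) (.e (nat_lit 123197) (nat_lit 266) (.e (nat_lit 57445) (nat_lit 19) (.e (nat_lit 393249) (nat_lit 17) (.e (nat_lit 2445) (nat_lit 157) (.e (nat_lit 5968) (nat_lit 324) (.e (nat_lit 163871) (nat_lit 2) .nil)))))))) (.g (nat_lit 4) .nil .nil))) 
(.lf (nat_lit 270810) (.g (nat_lit 2700) (.e (nat_lit 196664) (nat_lit 13) (.e (nat_lit 65571) (nat_lit 3) (.e (nat_lit 98333) (nat_lit 18) (.e (nat_lit 164183) (nat_lit 154) (.e (nat_lit 57376) (nat_lit 3) .nil))))) .nil))) (.nd (nat_lit 6) 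
(.lf (nat_lit 270778) (.g (nat_lit 1942) (.e (nat_lit 196663) (nat_lit 13) (.e (nat_lit 65630) (nat_lit 14) (.e (nat_lit 401425) (nat_lit 2) (.e (nat_lit 196628) (nat_lit 9) (.e (nat_lit 1469) (nat_lit 108) .nil))))) .nil)) 
(.lf (nat_lit 270842) (.g (nat_lit 3211) (.e (nat_lit 196664) (nat_lit 13) (.e (nat_lit 65619) (nat_lit 10) (.e (nat_lit 344117) (nat_lit 21) (.e (nat_lit 516139) (nat_lit 7) (.e (nat_lit 409644) (nat_lit 18) .nil))))) .nil)))))) (.nd (nat_lit 3) (.nd (nat_lit 4) (.nd (nat_lit 5) (.nd (nat_lit 6) 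
(.lf (nat_lit 270726) (.g (nat_lit 1851) (.e (nat_lit 196663) (nat_lit 13) (.e (nat_lit 65571) (nat_lit 3) (.e (nat_lit 98341) (nat_lit 20) (.e (nat_lit 221197) (nat_lit 20) .nil)))) .nil)) 
(.lf (nat_lit 270790) (.g (nat_lit 3278) (.e (nat_lit 196663) (nat_lit 13) (.e (nat_lit 65630) (nat_lit 14) (.e (nat_lit 401425) (nat_lit 2) (.e (nat_lit 196681) (nat_lit 17) (.e (nat_lit 131077) (nat_lit 0) (.e (nat_lit 6684) (nat_lit 357) (.e (nat_lit 2664) (nat_lit 167) .nil))))))) (.g (nat_lit 4) .nil .nil)))) (.nd (nat_lit 6) 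
(.lf (nat_lit 270758) (.g (nat_lit 2495) (.e (nat_lit 196663) (nat_lit 13) (.e (nat_lit 65617) (nat_lit 10) (.e (nat_lit 344133) (nat_lit 26) (.e (nat_lit 557091) (nat_lit 12) (.e (nat_lit 164022) (nat_lit 46) (.e (nat_lit 704738) (nat_lit 11) (.e (nat_lit 16411) (nat_lit 2) .nil))))))) (.g (nat_lit 4) .nil .nil))) 
(.lf (nat_lit 270822) (.g (nat_lit 2090) (.e (nat_lit 196664) (nat_lit 13) (.e (nat_lit 65571) (nat_lit 3) (.e (nat_lit 98341) (nat_lit 20) (.e (nat_lit 221215) (nat_lit 23) (.e (nat_lit 204830) (nat_lit 18) .nil))))) .nil)))) (.nd (nat_lit 5) (.nd (nat_lit 6) 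
(.lf (nat_lit 270742) (.g (nat_lit 2033) (.e (nat_lit 196663) (nat_lit 13) (.e (nat_lit 65574) (nat_lit 4) (.e (nat_lit 123197) (nat_lit 266) (.e (nat_lit 57445) (nat_lit 19) (.e (nat_lit 393232) (nat_lit 17) (.e (nat_lit 2399) (nat_lit 157) (.e (nat_lit 5968) (nat_lit 324) (.e (nat_lit 163871) (nat_lit 2) .nil)))))))) (.g (nat_lit 4) .nil .nil))) 
(.lf (nat_lit 270806) (.g (nat_lit 1332) (.e (nat_lit 196664) (nat_lit 13) (.e (nat_lit 65571) (nat_lit 3) (.e (nat_lit 98321) (nat_lit 17) (.e (nat_lit 3458) (nat_lit 216) .nil)))) .nil))) (.nd (nat_lit 6) 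
(.lf (nat_lit 270774) (.g (nat_lit 306) (.e (nat_lit 196663) (nat_lit 13) (.e (nat_lit 65630) (nat_lit 14) (.e (nat_lit 401425) (nat_lit 2) .nil))) .nil)) 
(.lf (nat_lit 270838) (.g (nat_lit 1953) (.e (nat_lit 196664) (nat_lit 13) (.e (nat_lit 65604) (nat_lit 9) (.e (nat_lit 336028) (nat_lit 3) (.e (nat_lit 98349) (nat_lit 24) (.e (nat_lit 409649) (nat_lit 18) .nil))))) .nil))))) (.nd (nat_lit 4) (.nd (nat_lit 5) (.nd (nat_lit 6) 
(.lf (nat_lit 270734) (.g (nat_lit 1866) (.e (nat_lit 196663) (nat_lit 13) (.e (nat_lit 65571) (nat_lit 3) (.e (nat_lit 98342) (nat_lit 20) (.e (nat_lit 221204) (nat_lit 20) (.e (nat_lit 3253) (nat_lit 197) .nil))))) .nil)) 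
(.lf (nat_lit 270798) (.g (nat_lit 1198) (.e (nat_lit 196663) (nat_lit 13) (.e (nat_lit 65630) (nat_lit 14) (.e (nat_lit 401428) (nat_lit 3) (.e (nat_lit 204855) (nat_lit 26) .nil)))) .nil))) (.nd (nat_lit 6) 
(.lf (nat_lit 270766) (.g (nat_lit 2129) (.e (nat_lit 196663) (nat_lit 13) (.e (nat_lit 65624) (nat_lit 12) (.e (nat_lit 385074) (nat_lit 31) (.e (nat_lit 573485) (nat_lit 13) .nil)))) .nil)) 
(.lf (nat_lit 270830) (.g (nat_lit 1984) (.e (nat_lit 196664) (nat_lit 13) (.e (nat_lit 65571) (nat_lit 3) (.e (nat_lit 98342) (nat_lit 20) (.e (nat_lit 221215) (nat_lit 23) (.e (nat_lit 204830) (nat_lit 18) .nil))))) .nil)))) (.nd (nat_lit 5) (.nd (nat_lit 6) 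
(.lf (nat_lit 270750) (.g (nat_lit 1979) (.e (nat_lit 196663) (nat_lit 13) (.e (nat_lit 65604) (nat_lit 9) (.e (nat_lit 336028) (nat_lit 3) (.e (nat_lit 98349) (nat_lit 24) (.e (nat_lit 409646) (nat_lit 18) .nil))))) .nil)) 
(.lf (nat_lit 270814) (.g (nat_lit 2214) (.e (nat_lit 196664) (nat_lit 13) (.e (nat_lit 65571) (nat_lit 3) (.e (nat_lit 98334) (nat_lit 18) (.e (nat_lit 164159) (nat_lit 152) (.e (nat_lit 1287) (nat_lit 95) .nil))))) .nil))) (.nd (nat_lit 6) 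
(.lf (nat_lit 270782) (.g (nat_lit 2445) (.e (nat_lit 196663) (nat_lit 13) (.e (nat_lit 65630) (nat_lit 14) (.e (nat_lit 401425) (nat_lit 2) (.e (nat_lit 196663) (nat_lit 13) (.e (nat_lit 65630) (nat_lit 14) .nil))))) .nil)) 
(.lf (nat_lit 270846) (.g (nat_lit 1848) (.e (nat_lit 196664) (nat_lit 13) (.e (nat_lit 65624) (nat_lit 12) (.e (nat_lit 385068) (nat_lit 26) (.e (nat_lit 532515) (nat_lit 3) .nil)))) .nil)))))))) (.nd (nat_lit 1) (.nd (nat_lit 2) (.nd (nat_lit 3) (.nd (nat_lit 4) (.nd (nat_lit 5) (.nd (nat_lit 6) 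
(.lf (nat_lit 270721) (.g (nat_lit 1870) (.e (nat_lit 196663) (nat_lit 13) (.e (nat_lit 65569) (nat_lit 3) (.e (nat_lit 98342) (nat_lit 20) (.e (nat_lit 221215) (nat_lit 23) (.e (nat_lit 204828) (nat_lit 18) .nil))))) .nil)) 
(.lf (nat_lit 270785) (.g (nat_lit 2326) (.e (nat_lit 196663) (nat_lit 13) (.e (nat_lit 65630) (nat_lit 14) (.e (nat_lit 401425) (nat_lit 2) (.e (nat_lit 196669) (nat_lit 14) .nil)))) .nil))) (.nd (nat_lit 6) 
(.lf (nat_lit 270753) (.g (nat_lit 1860) (.e (nat_lit 196663) (nat_lit 13) (.e (nat_lit 65616) (nat_lit 10) (.e (nat_lit 344133) (nat_lit 26) (.e (nat_lit 557091) (nat_lit 12) (.e (nat_lit 164022) (nat_lit 46) .nil))))) .nil)) 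
(.lf (nat_lit 270817) (.g (nat_lit 1703) (.e (nat_lit 196664) (nat_lit 13) (.e (nat_lit 65571) (nat_lit 3) (.e (nat_lit 98341) (nat_lit 20) (.e (nat_lit 221204) (nat_lit 20) .nil)))) .nil)))) (.nd (nat_lit 5) (.nd (nat_lit 6) 
(.lf (nat_lit 270737) (.g (nat_lit 2175) (.e (nat_lit 196663) (nat_lit 13) (.e (nat_lit 65571) (nat_lit 3) (.e (nat_lit 98342) (nat_lit 20) (.e (nat_lit 221214) (nat_lit 23) (.e (nat_lit 204830) (nat_lit 18) .nil))))) .nil)) 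
(.lf (nat_lit 270801) (.g (nat_lit 1087) (.e (nat_lit 196663) (nat_lit 13) (.e (nat_lit 65630) (nat_lit 14) (.e (nat_lit 401428) (nat_lit 3) (.e (nat_lit 204862) (nat_lit 27) .nil)))) .nil))) (.nd (nat_lit 6) 
(.lf (nat_lit 270769) (.g (nat_lit 367) (.e (nat_lit 196663) (nat_lit 13) (.e (nat_lit 65625) (nat_lit 13) (.e (nat_lit 393225) (nat_lit 9) .nil))) .nil)) 
(.lf (nat_lit 270833) (.g (nat_lit 2202) (.e (nat_lit 196664) (nat_lit 13) (.e (nat_lit 65604) (nat_lit 9) (.e (nat_lit 336013) (nat_lit 2) (.e (nat_lit 90165) (nat_lit 12) (.e (nat_lit 164207) (nat_lit 176) .nil))))) .nil))))) (.nd (nat_lit 4) (.nd (nat_lit 5) (.nd (nat_lit 6) 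
(.lf (nat_lit 270729) (.g (nat_lit 1802) (.e (nat_lit 196663) (nat_lit 13) (.e (nat_lit 65571) (nat_lit 3) (.e (nat_lit 98341) (nat_lit 20) (.e (nat_lit 221213) (nat_lit 23) .nil)))) .nil)) 
(.lf (nat_lit 270793) (.g (nat_lit 2525) (.e (nat_lit 196663) (nat_lit 13) (.e (nat_lit 65630) (nat_lit 14) (.e (nat_lit 401427) (nat_lit 3) (.e (nat_lit 204861) (nat_lit 26) (.e (nat_lit 336231) (nat_lit 14) .nil))))) .nil))) (.nd (nat_lit 6) 
(.lf (nat_lit 270761) (.g (nat_lit 1564) (.e (nat_lit 196663) (nat_lit 13) (.e (nat_lit 65624) (nat_lit 12) (.e (nat_lit 385068) (nat_lit 26) (.e (nat_lit 532510) (nat_lit 2) .nil)))) .nil)) 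
(.lf (nat_lit 270825) (.g (nat_lit 1668) (.e (nat_lit 196664) (nat_lit 13) (.e (nat_lit 65571) (nat_lit 3) (.e (nat_lit 98342) (nat_lit 20) (.e (nat_lit 221213) (nat_lit 23) .nil)))) .nil)))) (.nd (nat_lit 5) (.nd (nat_lit 6) 
(.lf (nat_lit 270745) (.g (nat_lit 1707) (.e (nat_lit 196663) (nat_lit 13) (.e (nat_lit 65574) (nat_lit 4) (.e (nat_lit 123197) (nat_lit 266) (.e (nat_lit 57445) (nat_lit 19) (.e (nat_lit 393249) (nat_lit 17) .nil))))) .nil)) 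
(.lf (nat_lit 270809) (.g (nat_lit 2711) (.e (nat_lit 196664) (nat_lit 13) (.e (nat_lit 65571) (nat_lit 3) (.e (nat_lit 98333) (nat_lit 18) (.e (nat_lit 164179) (nat_lit 154) (.e (nat_lit 57377) (nat_lit 3) (.e (nat_lit 98342) (nat_lit 20) (.e (nat_lit 221212) (nat_lit 22) .nil))))))) (.g (nat_lit 4) .nil .nil)))) (.nd (nat_lit 6) 
(.lf (nat_lit 270777) (.g (nat_lit 2004) (.e (nat_lit 196663) (nat_lit 13) (.e (nat_lit 65630) (nat_lit 14) (.e (nat_lit 401425) (nat_lit 2) (.e (nat_lit 196628) (nat_lit 9) (.e (nat_lit 970) (nat_lit 81) .nil))))) .nil)) 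
(.lf (nat_lit 270841) (.g (nat_lit 2607) (.e (nat_lit 196664) (nat_lit 13) (.e (nat_lit 65619) (nat_lit 10) (.e (nat_lit 344117) (nat_lit 21) (.e (nat_lit 516106) (nat_lit 0) (.e (nat_lit 7016) (nat_lit 377) .nil))))) .nil)))))) (.nd (nat_lit 3) (.nd (nat_lit 4) (.nd (nat_lit 5) (.nd (nat_lit 6) 
(.lf (nat_lit 270725) (.g (nat_lit 1859) (.e (nat_lit 196663) (nat_lit 13) (.e (nat_lit 65571) (nat_lit 3) (.e (nat_lit 98341) (nat_lit 20) (.e (nat_lit 221196) (nat_lit 20) .nil)))) .nil)) 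
(.lf (nat_lit 270789) (.g (nat_lit 3605) (.e (nat_lit 196663) (nat_lit 13) (.e (nat_lit 65630) (nat_lit 14) (.e (nat_lit 401425) (nat_lit 2) (.e (nat_lit 196681) (nat_lit 17) (.e (nat_lit 131076) (nat_lit 0) .nil))))) .nil))) (.nd (nat_lit 6) 
(.lf (nat_lit 270757) (.g (nat_lit 2251) (.e (nat_lit 196663) (nat_lit 13) (.e (nat_lit 65617) (nat_lit 10) (.e (nat_lit 344133) (nat_lit 26) (.e (nat_lit 557091) (nat_lit 12) (.e (nat_lit 164022) (nat_lit 46) .nil))))) .nil)) 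
(.lf (nat_lit 270821) (.g (nat_lit 2134) (.e (nat_lit 196664) (nat_lit 13) (.e (nat_lit 65571) (nat_lit 3) (.e (nat_lit 98341) (nat_lit 20) (.e (nat_lit 221215) (nat_lit 23) (.e (nat_lit 204829) (nat_lit 18) .nil))))) .nil)))) (.nd (nat_lit 5) (.nd (nat_lit 6) 
(.lf (nat_lit 270741) (.g (nat_lit 2252) (.e (nat_lit 196663) (nat_lit 13) (.e (nat_lit 65571) (nat_lit 3) (.e (nat_lit 98342) (nat_lit 20) (.e (nat_lit 221215) (nat_lit 23) (.e (nat_lit 204831) (nat_lit 18) .nil))))) .nil)) 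
(.lf (nat_lit 270805) (.g (nat_lit 3538) (.e (nat_lit 196663) (nat_lit 13) (.e (nat_lit 65637) (nat_lit 15) (.e (nat_lit 3632) (nat_lit 227) (.e (nat_lit 778317) (nat_lit 3) (.e (nat_lit 57477) (nat_lit 28) .nil))))) .nil))) (.nd (nat_lit 6) 
(.lf (nat_lit 270773) (.g (nat_lit 3644) (.e (nat_lit 196663) (nat_lit 13) (.e (nat_lit 65627) (nat_lit 13) (.e (nat_lit 393225) (nat_lit 9) (.e (nat_lit 335988) (nat_lit 1) (.e (nat_lit 57926) (nat_lit 282) (.e (nat_lit 163868) (nat_lit 2) .nil)))))) (.g (nat_lit 0) .nil .nil))) 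
(.lf (nat_lit 270837) (.g (nat_lit 1389) (.e (nat_lit 196664) (nat_lit 13) (.e (nat_lit 65604) (nat_lit 9) (.e (nat_lit 336028) (nat_lit 3) (.e (nat_lit 98349) (nat_lit 24) .nil)))) .nil))))) (.nd (nat_lit 4) (.nd (nat_lit 5) (.nd (nat_lit 6) 
(.lf (nat_lit 270733) (.g (nat_lit 1510) (.e (nat_lit 196663) (nat_lit 13) (.e (nat_lit 65571) (nat_lit 3) (.e (nat_lit 98342) (nat_lit 20) (.e (nat_lit 221198) (nat_lit 20) .nil)))) .nil)) 
(.lf (nat_lit 270797) (.g (nat_lit 1311) (.e (nat_lit 196663) (nat_lit 13) (.e (nat_lit 65630) (nat_lit 14) (.e (nat_lit 401428) (nat_lit 3) (.e (nat_lit 204848) (nat_lit 25) .nil)))) .nil))) (.nd (nat_lit 6) 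
(.lf (nat_lit 270765) (.g (nat_lit 1830) (.e (nat_lit 196663) (nat_lit 13) (.e (nat_lit 65624) (nat_lit 12) (.e (nat_lit 385074) (nat_lit 31) (.e (nat_lit 573484) (nat_lit 13) .nil)))) .nil)) 
(.lf (nat_lit 270829) (.g (nat_lit 2072) (.e (nat_lit 196664) (nat_lit 13) (.e (nat_lit 65571) (nat_lit 3) (.e (nat_lit 98342) (nat_lit 20) (.e (nat_lit 221215) (nat_lit 23) (.e (nat_lit 204829) (nat_lit 18) .nil))))) .nil)))) (.nd (nat_lit 5) (.nd (nat_lit 6) 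
(.lf (nat_lit 270749) (.g (nat_lit 2198) (.e (nat_lit 196663) (nat_lit 13) (.e (nat_lit 65604) (nat_lit 9) (.e (nat_lit 336028) (nat_lit 3) (.e (nat_lit 98349) (nat_lit 24) (.e (nat_lit 409645) (nat_lit 18) .nil))))) .nil)) 
(.lf (nat_lit 270813) (.g (nat_lit 2194) (.e (nat_lit 196664) (nat_lit 13) (.e (nat_lit 65571) (nat_lit 3) (.e (nat_lit 98334) (nat_lit 18) (.e (nat_lit 164159) (nat_lit 152) (.e (nat_lit 1286) (nat_lit 95) .nil))))) .nil))) (.nd (nat_lit 6) 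
(.lf (nat_lit 270781) (.g (nat_lit 2269) (.e (nat_lit 196663) (nat_lit 13) (.e (nat_lit 65630) (nat_lit 14) (.e (nat_lit 401425) (nat_lit 2) (.e (nat_lit 196662) (nat_lit 13) .nil)))) .nil)) 
(.lf (nat_lit 270845) (.g (nat_lit 1874) (.e (nat_lit 196664) (nat_lit 13) (.e (nat_lit 65624) (nat_lit 12) (.e (nat_lit 385068) (nat_lit 26) (.e (nat_lit 532513) (nat_lit 3) .nil)))) .nil))))))) (.nd (nat_lit 2) (.nd (nat_lit 3) (.nd (nat_lit 4) (.nd (nat_lit 5) (.nd (nat_lit 6) 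
(.lf (nat_lit 270723) (.g (nat_lit 831) (.e (nat_lit 196663) (nat_lit 13) (.e (nat_lit 65571) (nat_lit 3) (.e (nat_lit 98321) (nat_lit 17) .nil))) .nil)) 
(.lf (nat_lit 270787) (.g (nat_lit 1924) (.e (nat_lit 196663) (nat_lit 13) (.e (nat_lit 65630) (nat_lit 14) (.e (nat_lit 401425) (nat_lit 2) (.e (nat_lit 196681) (nat_lit 17) .nil)))) .nil))) (.nd (nat_lit 6) 
(.lf (nat_lit 270755) (.g (nat_lit 2388) (.e (nat_lit 196663) (nat_lit 13) (.e (nat_lit 65617) (nat_lit 10) (.e (nat_lit 344130) (nat_lit 26) (.e (nat_lit 557090) (nat_lit 12) (.e (nat_lit 164022) (nat_lit 46) (.e (nat_lit 704738) (nat_lit 11) (.e (nat_lit 16411) (nat_lit 2) .nil))))))) (.g (nat_lit 4) .nil .nil))) 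
(.lf (nat_lit 270819) (.g (nat_lit 2340) (.e (nat_lit 196664) (nat_lit 13) (.e (nat_lit 65571) (nat_lit 3) (.e (nat_lit 98341) (nat_lit 20) (.e (nat_lit 221214) (nat_lit 23) (.e (nat_lit 204829) (nat_lit 18) .nil))))) .nil)))) (.nd (nat_lit 5) (.nd (nat_lit 6) 
(.lf (nat_lit 270739) (.g (nat_lit 2045) (.e (nat_lit 196663) (nat_lit 13) (.e (nat_lit 65571) (nat_lit 3) (.e (nat_lit 98342) (nat_lit 20) (.e (nat_lit 221215) (nat_lit 23) (.e (nat_lit 204829) (nat_lit 18) .nil))))) .nil)) 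
(.lf (nat_lit 270803) (.g (nat_lit 1313) (.e (nat_lit 196663) (nat_lit 13) (.e (nat_lit 65630) (nat_lit 14) (.e (nat_lit 401428) (nat_lit 3) (.e (nat_lit 204864) (nat_lit 27) .nil)))) .nil))) (.nd (nat_lit 6) 
(.lf (nat_lit 270771) (.g (nat_lit 894) (.e (nat_lit 196663) (nat_lit 13) (.e (nat_lit 65627) (nat_lit 13) (.e (nat_lit 393225) (nat_lit 9) (.e (nat_lit 335986) (nat_lit 1) .nil)))) .nil)) 
(.lf (nat_lit 270835) (.g (nat_lit 2072) (.e (nat_lit 196664) (nat_lit 13) (.e (nat_lit 65604) (nat_lit 9) (.e (nat_lit 336013) (nat_lit 2) (.e (nat_lit 90165) (nat_lit 12) (.e (nat_lit 164210) (nat_lit 176) .nil))))) .nil))))) (.nd (nat_lit 4) (.nd (nat_lit 5) (.nd (nat_lit 6) 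
(.lf (nat_lit 270731) (.g (nat_lit 2206) (.e (nat_lit 196663) (nat_lit 13) (.e (nat_lit 65571) (nat_lit 3) (.e (nat_lit 98341) (nat_lit 20) (.e (nat_lit 221214) (nat_lit 23) (.e (nat_lit 204830) (nat_lit 18) .nil))))) .nil)) 
(.lf (nat_lit 270795) (.g (nat_lit 2557) (.e (nat_lit 196663) (nat_lit 13) (.e (nat_lit 65630) (nat_lit 14) (.e (nat_lit 401427) (nat_lit 3) (.e (nat_lit 204863) (nat_lit 27) (.e (nat_lit 344068) (nat_lit 0) .nil))))) .nil))) (.nd (nat_lit 6) 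
(.lf (nat_lit 270763) (.g (nat_lit 1813) (.e (nat_lit 196663) (nat_lit 13) (.e (nat_lit 65624) (nat_lit 12) (.e (nat_lit 385068) (nat_lit 26) (.e (nat_lit 532513) (nat_lit 3) .nil)))) .nil)) 
(.lf (nat_lit 270827) (.g (nat_lit 2203) (.e (nat_lit 196664) (nat_lit 13) (.e (nat_lit 65571) (nat_lit 3) (.e (nat_lit 98342) (nat_lit 20) (.e (nat_lit 221214) (nat_lit 23) (.e (nat_lit 204830) (nat_lit 18) .nil))))) .nil)))) (.nd (nat_lit 5) (.nd (nat_lit 6) 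
(.lf (nat_lit 270747) (.g (nat_lit 2460) (.e (nat_lit 196663) (nat_lit 13) (.e (nat_lit 65574) (nat_lit 4) (.e (nat_lit 123198) (nat_lit 266) (.e (nat_lit 57447) (nat_lit 19) (.e (nat_lit 393234) (nat_lit 17) (.e (nat_lit 2398) (nat_lit 157) (.e (nat_lit 5968) (nat_lit 324) (.e (nat_lit 163871) (nat_lit 2) .nil)))))))) (.g (nat_lit 5) .nil .nil))) 
(.lf (nat_lit 270811) (.g (nat_lit 886) (.e (nat_lit 196664) (nat_lit 13) (.e (nat_lit 65571) (nat_lit 3) (.e (nat_lit 98334) (nat_lit 18) .nil))) .nil))) (.nd (nat_lit 6) 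
(.lf (nat_lit 270779) (.g (nat_lit 2194) (.e (nat_lit 196663) (nat_lit 13) (.e (nat_lit 65630) (nat_lit 14) (.e (nat_lit 401425) (nat_lit 2) (.e (nat_lit 196630) (nat_lit 9) .nil)))) .nil)) 
(.lf (nat_lit 270843) (.g (nat_lit 3427) (.e (nat_lit 196664) (nat_lit 13) (.e (nat_lit 65620) (nat_lit 10) (.e (nat_lit 344117) (nat_lit 21) (.e (nat_lit 516139) (nat_lit 7) (.e (nat_lit 409645) (nat_lit 18) .nil))))) .nil)))))) (.nd (nat_lit 3) (.nd (nat_lit 4) (.nd (nat_lit 5) (.nd (nat_lit 6) 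
(.lf (nat_lit 270727) (.g (nat_lit 1851) (.e (nat_lit 196663) (nat_lit 13) (.e (nat_lit 65571) (nat_lit 3) (.e (nat_lit 98341) (nat_lit 20) (.e (nat_lit 221203) (nat_lit 20) .nil)))) .nil)) 
(.lf (nat_lit 270791) (.g (nat_lit 824) (.e (nat_lit 196663) (nat_lit 13) (.e (nat_lit 65630) (nat_lit 14) (.e (nat_lit 401427) (nat_lit 3) .nil))) .nil))) (.nd (nat_lit 6) 
(.lf (nat_lit 270759) (.g (nat_lit 3492) (.e (nat_lit 196663) (nat_lit 13) (.e (nat_lit 65619) (nat_lit 10) (.e (nat_lit 344117) (nat_lit 21) (.e (nat_lit 516139) (nat_lit 7) (.e (nat_lit 409645) (nat_lit 18) .nil))))) .nil)) 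
(.lf (nat_lit 270823) (.g (nat_lit 2678) (.e (nat_lit 196664) (nat_lit 13) (.e (nat_lit 65571) (nat_lit 3) (.e (nat_lit 98341) (nat_lit 20) (.e (nat_lit 221215) (nat_lit 23) (.e (nat_lit 204831) (nat_lit 18) .nil))))) .nil)))) (.nd (nat_lit 5) (.nd (nat_lit 6) 
(.lf (nat_lit 270743) (.g (nat_lit 1503) (.e (nat_lit 196663) (nat_lit 13) (.e (nat_lit 65574) (nat_lit 4) (.e (nat_lit 123197) (nat_lit 266) (.e (nat_lit 57445) (nat_lit 19) (.e (nat_lit 393233) (nat_lit 17) .nil))))) .nil)) 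
(.lf (nat_lit 270807) (.g (nat_lit 1205) (.e (nat_lit 196664) (nat_lit 13) (.e (nat_lit 65571) (nat_lit 3) (.e (nat_lit 98321) (nat_lit 17) (.e (nat_lit 7936) (nat_lit 216) .nil)))) .nil))) (.nd (nat_lit 6) 
(.lf (nat_lit 270775) (.g (nat_lit 2421) (.e (nat_lit 196663) (nat_lit 13) (.e (nat_lit 65630) (nat_lit 14) (.e (nat_lit 401425) (nat_lit 2) (.e (nat_lit 196622) (nat_lit 9) .nil)))) .nil)) 
(.lf (nat_lit 270839) (.g (nat_lit 1396) (.e (nat_lit 196664) (nat_lit 13) (.e (nat_lit 65604) (nat_lit 9) (.e (nat_lit 336028) (nat_lit 3) (.e (nat_lit 98350) (nat_lit 24) .nil)))) .nil))))) (.nd (nat_lit 4) (.nd (nat_lit 5) (.nd (nat_lit 6) 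
(.lf (nat_lit 270735) (.g (nat_lit 1640) (.e (nat_lit 196663) (nat_lit 13) (.e (nat_lit 65571) (nat_lit 3) (.e (nat_lit 98342) (nat_lit 20) (.e (nat_lit 221213) (nat_lit 23) .nil)))) .nil)) 
(.lf (nat_lit 270799) (.g (nat_lit 1286) (.e (nat_lit 196663) (nat_lit 13) (.e (nat_lit 65630) (nat_lit 14) (.e (nat_lit 401428) (nat_lit 3) (.e (nat_lit 204859) (nat_lit 26) .nil)))) .nil))) (.nd (nat_lit 6) 
(.lf (nat_lit 270767) (.g (nat_lit 2320) (.e (nat_lit 196663) (nat_lit 13) (.e (nat_lit 65624) (nat_lit 12) (.e (nat_lit 385074) (nat_lit 31) (.e (nat_lit 573487) (nat_lit 14) .nil)))) .nil)) 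
(.lf (nat_lit 270831) (.g (nat_lit 1217) (.e (nat_lit 196664) (nat_lit 13) (.e (nat_lit 65598) (nat_lit 9) (.e (nat_lit 336028) (nat_lit 3) (.e (nat_lit 98349) (nat_lit 24) .nil)))) .nil)))) (.nd (nat_lit 5) (.nd (nat_lit 6) 
(.lf (nat_lit 270751) (.g (nat_lit 2252) (.e (nat_lit 196663) (nat_lit 13) (.e (nat_lit 65609) (nat_lit 10) (.e (nat_lit 344132) (nat_lit 26) (.e (nat_lit 557093) (nat_lit 12) (.e (nat_lit 164022) (nat_lit 46) (.e (nat_lit 704738) (nat_lit 11) (.e (nat_lit 16411) (nat_lit 2) .nil))))))) (.g (nat_lit 6) .nil .nil))) 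
(.lf (nat_lit 270815) (.g (nat_lit 1958) (.e (nat_lit 196664) (nat_lit 13) (.e (nat_lit 65571) (nat_lit 3) (.e (nat_lit 98334) (nat_lit 18) (.e (nat_lit 164161) (nat_lit 152) .nil)))) .nil))) (.nd (nat_lit 6) 
(.lf (nat_lit 270783) (.g (nat_lit 2142) (.e (nat_lit 196663) (nat_lit 13) (.e (nat_lit 65630) (nat_lit 14) (.e (nat_lit 401425) (nat_lit 2) (.e (nat_lit 196667) (nat_lit 14) .nil)))) .nil)) 
(.lf (nat_lit 270847) (.g (nat_lit 544) (.e (nat_lit 196664) (nat_lit 13) (.e (nat_lit 65624) (nat_lit 12) (.e (nat_lit 385074) (nat_lit 31) .nil))) .nil)))))))))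

noncomputable def tv3473 : DT := (.nd (nat_lit 0) (.nd (nat_lit 1) (.nd (nat_lit 2) (.nd (nat_lit 3) (.nd (nat_lit 4) (.nd (nat_lit 5) 
(.lf (nat_lit 270848) (.g (nat_lit 2008) (.e (nat_lit 196664) (nat_lit 13) (.e (nat_lit 65624) (nat_lit 12) (.e (nat_lit 385074) (nat_lit 31) (.e (nat_lit 573480) (nat_lit 13) .nil)))) .nil)) 
(.lf (nat_lit 270880) (.g (nat_lit 2257) (.e (nat_lit 196665) (nat_lit 13) (.e (nat_lit 65615) (nat_lit 10) (.e (nat_lit 344132) (nat_lit 26) (.e (nat_lit 557094) (nat_lit 12) (.e (nat_lit 164022) (nat_lit 46) (.e (nat_lit 704738) (nat_lit 11) (.e (nat_lit 16411) (nat_lit 2) .nil))))))) (.g (nat_lit 6) .nil .nil)))) (.nd (nat_lit 5) 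
(.lf (nat_lit 270864) (.g (nat_lit 2467) (.e (nat_lit 196664) (nat_lit 13) (.e (nat_lit 65630) (nat_lit 14) (.e (nat_lit 401425) (nat_lit 2) (.e (nat_lit 196628) (nat_lit 9) (.e (nat_lit 968) (nat_lit 81) .nil))))) .nil)) 
(.lf (nat_lit 270896) (.g (nat_lit 3281) (.e (nat_lit 196665) (nat_lit 13) (.e (nat_lit 65626) (nat_lit 13) (.e (nat_lit 393225) (nat_lit 9) (.e (nat_lit 335995) (nat_lit 1) (.e (nat_lit 57929) (nat_lit 282) (.e (nat_lit 163869) (nat_lit 2) .nil)))))) (.g (nat_lit 6) .nil .nil))))) (.nd (nat_lit 4) (.nd (nat_lit 5) 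
(.lf (nat_lit 270856) (.g (nat_lit 978) (.e (nat_lit 196664) (nat_lit 13) (.e (nat_lit 65627) (nat_lit 13) (.e (nat_lit 393225) (nat_lit 9) (.e (nat_lit 335987) (nat_lit 1) .nil)))) .nil)) 
(.lf (nat_lit 270888) (.g (nat_lit 2210) (.e (nat_lit 196665) (nat_lit 13) (.e (nat_lit 65617) (nat_lit 10) (.e (nat_lit 344133) (nat_lit 26) (.e (nat_lit 557091) (nat_lit 12) (.e (nat_lit 164022) (nat_lit 46) .nil))))) .nil))) (.nd (nat_lit 5) 
(.lf (nat_lit 270872) (.g (nat_lit 1908) (.e (nat_lit 196664) (nat_lit 13) (.e (nat_lit 65637) (nat_lit 15) (.e (nat_lit 3253) (nat_lit 197) (.e (nat_lit 532504) (nat_lit 1) (.e (nat_lit 57829) (nat_lit 250) .nil))))) .nil)) 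
(.lf (nat_lit 270904) (.g (nat_lit 3164) (.e (nat_lit 196665) (nat_lit 13) (.e (nat_lit 65637) (nat_lit 15) (.e (nat_lit 3253) (nat_lit 197) (.e (nat_lit 532499) (nat_lit 1) (.e (nat_lit 57847) (nat_lit 252) (.e (nat_lit 57345) (nat_lit 0) (.e (nat_lit 1803) (nat_lit 119) (.e (nat_lit 516131) (nat_lit 3) (.e (nat_lit 221212) (nat_lit 22) .nil))))))))) (.g (nat_lit 5) .nil .nil)))))) 
(.nd (nat_lit 3) (.nd (nat_lit 4) (.nd (nat_lit 5) 
(.lf (nat_lit 270852) (.g (nat_lit 1963) (.e (nat_lit 196664) (nat_lit 13) (.e (nat_lit 65624) (nat_lit 12) (.e (nat_lit 385074) (nat_lit 31) (.e (nat_lit 573489) (nat_lit 14) .nil)))) .nil)) 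
(.lf (nat_lit 270884) (.g (nat_lit 3079) (.e (nat_lit 196665) (nat_lit 13) (.e (nat_lit 65617) (nat_lit 10) (.e (nat_lit 344130) (nat_lit 26) (.e (nat_lit 557090) (nat_lit 12) (.e (nat_lit 164022) (nat_lit 46) (.e (nat_lit 704738) (nat_lit 11) (.e (nat_lit 16411) (nat_lit 2) .nil))))))) (.g (nat_lit 5) .nil .nil)))) (.nd (nat_lit 5) 
(.lf (nat_lit 270868) (.g (nat_lit 1727) (.e (nat_lit 196664) (nat_lit 13) (.e (nat_lit 65630) (nat_lit 14) (.e (nat_lit 401428) (nat_lit 3) (.e (nat_lit 204845) (nat_lit 24) .nil)))) .nil)) 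
(.lf (nat_lit 270900) (.g (nat_lit 3281) (.e (nat_lit 196665) (nat_lit 13) (.e (nat_lit 65626) (nat_lit 13) (.e (nat_lit 393229) (nat_lit 9) (.e (nat_lit 335995) (nat_lit 1) (.e (nat_lit 57931) (nat_lit 282) (.e (nat_lit 163869) (nat_lit 2) .nil)))))) (.g (nat_lit 4) .nil .nil))))) (.nd (nat_lit 4) (.nd (nat_lit 5) 
(.lf (nat_lit 270860) (.g (nat_lit 1815) (.e (nat_lit 196664) (nat_lit 13) (.e (nat_lit 65627) (nat_lit 13) (.e (nat_lit 393225) (nat_lit 9) (.e (nat_lit 335995) (nat_lit 1) (.e (nat_lit 57930) (nat_lit 282) .nil))))) .nil)) 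
(.lf (nat_lit 270892) (.g (nat_lit 2056) (.e (nat_lit 196665) (nat_lit 13) (.e (nat_lit 65625) (nat_lit 13) (.e (nat_lit 393225) (nat_lit 9) (.e (nat_lit 335995) (nat_lit 1) (.e (nat_lit 57930) (nat_lit 282) (.e (nat_lit 163867) (nat_lit 2) .nil)))))) (.g (nat_lit 4) .nil .nil)))) (.nd (nat_lit 5) 
(.lf (nat_lit 270876) (.g (nat_lit 4461) (.e (nat_lit 196665) (nat_lit 13) (.e (nat_lit 65598) (nat_lit 9) (.e (nat_lit 336028) (nat_lit 3) (.e (nat_lit 98349) (nat_lit 24) (.e (nat_lit 409645) (nat_lit 18) (.e (nat_lit 303117) (nat_lit 2) .nil)))))) (.g (nat_lit 0) .nil .nil))) 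
(.lf (nat_lit 270908) (.g (nat_lit 1862) (.e (nat_lit 196665) (nat_lit 13) (.e (nat_lit 65637) (nat_lit 15) (.e (nat_lit 3631) (nat_lit 227) (.e (nat_lit 778317) (nat_lit 3) (.e (nat_lit 57476) (nat_lit 28) .nil))))) .nil)))))) (.nd (nat_lit 2) (.nd (nat_lit 3) (.nd (nat_lit 4) (.nd (nat_lit 5) 
(.lf (nat_lit 270850) (.g (nat_lit 1894) (.e (nat_lit 196664) (nat_lit 13) (.e (nat_lit 65624) (nat_lit 12) (.e (nat_lit 385074) (nat_lit 31) (.e (nat_lit 573485) (nat_lit 13) .nil)))) .nil)) 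
(.lf (nat_lit 270882) (.g (nat_lit 2005) (.e (nat_lit 196665) (nat_lit 13) (.e (nat_lit 65615) (nat_lit 10) (.e (nat_lit 344133) (nat_lit 26) (.e (nat_lit 557091) (nat_lit 12) (.e (nat_lit 164022) (nat_lit 46) (.e (nat_lit 704738) (nat_lit 11) (.e (nat_lit 16411) (nat_lit 2) .nil))))))) (.g (nat_lit 4) .nil .nil)))) (.nd (nat_lit 5) 
(.lf (nat_lit 270866) (.g (nat_lit 686) (.e (nat_lit 196664) (nat_lit 13) (.e (nat_lit 65630) (nat_lit 14) (.e (nat_lit 401428) (nat_lit 3) .nil))) .nil)) 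
(.lf (nat_lit 270898) (.g (nat_lit 1796) (.e (nat_lit 196665) (nat_lit 13) (.e (nat_lit 65626) (nat_lit 13) (.e (nat_lit 393229) (nat_lit 9) (.e (nat_lit 335986) (nat_lit 1) (.e (nat_lit 57927) (nat_lit 282) .nil))))) .nil)))) (.nd (nat_lit 4) (.nd (nat_lit 5) 
(.lf (nat_lit 270858) (.g (nat_lit 1679) (.e (nat_lit 196664) (nat_lit 13) (.e (nat_lit 65627) (nat_lit 13) (.e (nat_lit 393225) (nat_lit 9) (.e (nat_lit 335995) (nat_lit 1) (.e (nat_lit 57929) (nat_lit 282) .nil))))) .nil)) 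
(.lf (nat_lit 270890) (.g (nat_lit 367) (.e (nat_lit 196665) (nat_lit 13) (.e (nat_lit 65625) (nat_lit 13) (.e (nat_lit 393225) (nat_lit 9) .nil))) .nil))) (.nd (nat_lit 5) 
(.lf (nat_lit 270874) (.g (nat_lit 8258) (.e (nat_lit 196664) (nat_lit 13) (.e (nat_lit 65637) (nat_lit 15) (.e (nat_lit 3632) (nat_lit 227) (.e (nat_lit 778317) (nat_lit 3) (.e (nat_lit 57477) (nat_lit 28) (.e (nat_lit 557108) (nat_lit 15) (.e (nat_lit 188449) (nat_lit 22) .nil))))))) (.g (nat_lit 7) .nil .nil))) 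
(.lf (nat_lit 270906) (.g (nat_lit 3013) (.e (nat_lit 196665) (nat_lit 13) (.e (nat_lit 65637) (nat_lit 15) (.e (nat_lit 3253) (nat_lit 197) (.e (nat_lit 532504) (nat_lit 1) (.e (nat_lit 57852) (nat_lit 252) (.e (nat_lit 57349) (nat_lit 0) (.e (nat_lit 1803) (nat_lit 119) (.e (nat_lit 516131) (nat_lit 3) (.e (nat_lit 221212) (nat_lit 22) .nil))))))))) (.g (nat_lit 5) .nil .nil)))))) 
(.nd (nat_lit 3) (.nd (nat_lit 4) (.nd (nat_lit 5) 
(.lf (nat_lit 270854) (.g (nat_lit 3123) (.e (nat_lit 196664) (nat_lit 13) (.e (nat_lit 65627) (nat_lit 13) (.e (nat_lit 393225) (nat_lit 9) (.e (nat_lit 335986) (nat_lit 1) (.e (nat_lit 57926) (nat_lit 282) (.e (nat_lit 163869) (nat_lit 2) .nil)))))) (.g (nat_lit 6) .nil .nil))) 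
(.lf (nat_lit 270886) (.g (nat_lit 2745) (.e (nat_lit 196665) (nat_lit 13) (.e (nat_lit 65617) (nat_lit 10) (.e (nat_lit 344132) (nat_lit 26) (.e (nat_lit 557093) (nat_lit 12) (.e (nat_lit 164022) (nat_lit 46) (.e (nat_lit 704737) (nat_lit 11) (.e (nat_lit 16411) (nat_lit 2) .nil))))))) (.g (nat_lit 5) .nil .nil)))) (.nd (nat_lit 5) 
(.lf (nat_lit 270870) (.g (nat_lit 1862) (.e (nat_lit 196664) (nat_lit 13) (.e (nat_lit 65637) (nat_lit 15) (.e (nat_lit 3253) (nat_lit 197) (.e (nat_lit 532501) (nat_lit 1) (.e (nat_lit 57829) (nat_lit 250) .nil))))) .nil)) 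
(.lf (nat_lit 270902) (.g (nat_lit 1419) (.e (nat_lit 196665) (nat_lit 13) (.e (nat_lit 65626) (nat_lit 13) (.e (nat_lit 393251) (nat_lit 18) (.e (nat_lit 164177) (nat_lit 154) .nil)))) .nil)))) (.nd (nat_lit 4) (.nd (nat_lit 5) 
(.lf (nat_lit 270862) (.g (nat_lit 3073) (.e (nat_lit 196664) (nat_lit 13) (.e (nat_lit 65627) (nat_lit 13) (.e (nat_lit 393225) (nat_lit 9) (.e (nat_lit 335996) (nat_lit 1) (.e (nat_lit 57929) (nat_lit 282) (.e (nat_lit 163869) (nat_lit 2) .nil)))))) (.g (nat_lit 6) .nil .nil))) 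
(.lf (nat_lit 270894) (.g (nat_lit 1447) (.e (nat_lit 196665) (nat_lit 13) (.e (nat_lit 65626) (nat_lit 13) (.e (nat_lit 393225) (nat_lit 9) (.e (nat_lit 335987) (nat_lit 1) .nil)))) .nil))) (.nd (nat_lit 5) 
(.lf (nat_lit 270878) (.g (nat_lit 1385) (.e (nat_lit 196665) (nat_lit 13) (.e (nat_lit 65604) (nat_lit 9) (.e (nat_lit 336028) (nat_lit 3) (.e (nat_lit 98349) (nat_lit 24) .nil)))) .nil)) 
(.lf (nat_lit 270910) (.g (nat_lit 4254) (.e (nat_lit 196666) (nat_lit 13) (.e (nat_lit 65546) (nat_lit 0) (.e (nat_lit 2006) (nat_lit 138) (.e (nat_lit 671759) (nat_lit 3) (.e (nat_lit 57478) (nat_lit 28) (.e (nat_lit 557109) (nat_lit 15) (.e (nat_lit 188449) (nat_lit 22) .nil))))))) (.g (nat_lit 0) .nil .nil)))))))) 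
(.nd (nat_lit 1) (.nd (nat_lit 2) (.nd (nat_lit 3) (.nd (nat_lit 4) (.nd (nat_lit 5) 
(.lf (nat_lit 270849) (.g (nat_lit 2323) (.e (nat_lit 196664) (nat_lit 13) (.e (nat_lit 65624) (nat_lit 12) (.e (nat_lit 385074) (nat_lit 31) (.e (nat_lit 573482) (nat_lit 13) .nil)))) .nil)) 
(.lf (nat_lit 270881) (.g (nat_lit 1713) (.e (nat_lit 196665) (nat_lit 13) (.e (nat_lit 65615) (nat_lit 10) (.e (nat_lit 344133) (nat_lit 26) (.e (nat_lit 557091) (nat_lit 12) (.e (nat_lit 164022) (nat_lit 46) .nil))))) .nil))) (.nd (nat_lit 5) 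
(.lf (nat_lit 270865) (.g (nat_lit 2013) (.e (nat_lit 196664) (nat_lit 13) (.e (nat_lit 65630) (nat_lit 14) (.e (nat_lit 401425) (nat_lit 2) (.e (nat_lit 196663) (nat_lit 13) .nil)))) .nil)) 
(.lf (nat_lit 270897) (.g (nat_lit 3223) (.e (nat_lit 196665) (nat_lit 13) (.e (nat_lit 65626) (nat_lit 13) (.e (nat_lit 393225) (nat_lit 9) (.e (nat_lit 335996) (nat_lit 1) (.e (nat_lit 57929) (nat_lit 282) (.e (nat_lit 163869) (nat_lit 2) .nil)))))) (.g (nat_lit 6) .nil .nil))))) (.nd (nat_lit 4) (.nd (nat_lit 5) 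
(.lf (nat_lit 270857) (.g (nat_lit 3189) (.e (nat_lit 196664) (nat_lit 13) (.e (nat_lit 65627) (nat_lit 13) (.e (nat_lit 393225) (nat_lit 9) (.e (nat_lit 335988) (nat_lit 1) (.e (nat_lit 57926) (nat_lit 282) (.e (nat_lit 163869) (nat_lit 2) .nil)))))) (.g (nat_lit 0) .nil .nil))) 
(.lf (nat_lit 270889) (.g (nat_lit 1157) (.e (nat_lit 196665) (nat_lit 13) (.e (nat_lit 65623) (nat_lit 12) (.e (nat_lit 385068) (nat_lit 26) (.e (nat_lit 532515) (nat_lit 3) .nil)))) .nil))) (.nd (nat_lit 5) 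
(.lf (nat_lit 270873) (.g (nat_lit 1871) (.e (nat_lit 196664) (nat_lit 13) (.e (nat_lit 65637) (nat_lit 15) (.e (nat_lit 3253) (nat_lit 197) (.e (nat_lit 532504) (nat_lit 1) (.e (nat_lit 57830) (nat_lit 250) .nil))))) .nil)) 
(.lf (nat_lit 270905) (.g (nat_lit 2909) (.e (nat_lit 196665) (nat_lit 13) (.e (nat_lit 65637) (nat_lit 15) (.e (nat_lit 3253) (nat_lit 197) (.e (nat_lit 532501) (nat_lit 1) (.e (nat_lit 57830) (nat_lit 250) (.e (nat_lit 1183) (nat_lit 87) (.e (nat_lit 57467) (nat_lit 23) (.e (nat_lit 516131) (nat_lit 3) (.e (nat_lit 221212) (nat_lit 22) .nil))))))))) (.g (nat_lit 6) .nil .nil)))))) 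
(.nd (nat_lit 3) (.nd (nat_lit 4) (.nd (nat_lit 5) 
(.lf (nat_lit 270853) (.g (nat_lit 1393) (.e (nat_lit 196664) (nat_lit 13) (.e (nat_lit 65627) (nat_lit 13) (.e (nat_lit 393225) (nat_lit 9) (.e (nat_lit 335986) (nat_lit 1) (.e (nat_lit 57926) (nat_lit 282) .nil))))) .nil)) 
(.lf (nat_lit 270885) (.g (nat_lit 1711) (.e (nat_lit 196665) (nat_lit 13) (.e (nat_lit 65617) (nat_lit 10) (.e (nat_lit 344132) (nat_lit 26) (.e (nat_lit 557093) (nat_lit 12) (.e (nat_lit 164022) (nat_lit 46) .nil))))) .nil))) (.nd (nat_lit 5) 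
(.lf (nat_lit 270869) (.g (nat_lit 2338) (.e (nat_lit 196664) (nat_lit 13) (.e (nat_lit 65630) (nat_lit 14) (.e (nat_lit 401428) (nat_lit 3) (.e (nat_lit 204846) (nat_lit 24) (.e (nat_lit 327424) (nat_lit 8) .nil))))) .nil)) 
(.lf (nat_lit 270901) (.g (nat_lit 2465) (.e (nat_lit 196665) (nat_lit 13) (.e (nat_lit 65626) (nat_lit 13) (.e (nat_lit 393229) (nat_lit 9) (.e (nat_lit 335996) (nat_lit 1) (.e (nat_lit 57931) (nat_lit 282) (.e (nat_lit 163869) (nat_lit 2) .nil)))))) (.g (nat_lit 4) .nil .nil))))) (.nd (nat_lit 4) (.nd (nat_lit 5) 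
(.lf (nat_lit 270861) (.g (nat_lit 1574) (.e (nat_lit 196664) (nat_lit 13) (.e (nat_lit 65627) (nat_lit 13) (.e (nat_lit 393225) (nat_lit 9) (.e (nat_lit 335996) (nat_lit 1) (.e (nat_lit 57929) (nat_lit 282) (.e (nat_lit 163866) (nat_lit 2) .nil)))))) (.g (nat_lit 4) .nil .nil))) 
(.lf (nat_lit 270893) (.g (nat_lit 1555) (.e (nat_lit 196665) (nat_lit 13) (.e (nat_lit 65625) (nat_lit 13) (.e (nat_lit 393225) (nat_lit 9) (.e (nat_lit 335996) (nat_lit 1) (.e (nat_lit 57929) (nat_lit 282) .nil))))) .nil))) (.nd (nat_lit 5) 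
(.lf (nat_lit 270877) (.g (nat_lit 2441) (.e (nat_lit 196665) (nat_lit 13) (.e (nat_lit 65598) (nat_lit 9) (.e (nat_lit 336028) (nat_lit 3) (.e (nat_lit 98350) (nat_lit 24) (.e (nat_lit 409644) (nat_lit 18) .nil))))) .nil)) 
(.lf (nat_lit 270909) (.g (nat_lit 2971) (.e (nat_lit 196665) (nat_lit 13) (.e (nat_lit 65637) (nat_lit 15) (.e (nat_lit 3632) (nat_lit 227) (.e (nat_lit 778317) (nat_lit 3) (.e (nat_lit 57480) (nat_lit 28) .nil))))) .nil)))))) (.nd (nat_lit 2) (.nd (nat_lit 3) (.nd (nat_lit 4) (.nd (nat_lit 5) 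
(.lf (nat_lit 270851) (.g (nat_lit 2013) (.e (nat_lit 196664) (nat_lit 13) (.e (nat_lit 65624) (nat_lit 12) (.e (nat_lit 385074) (nat_lit 31) (.e (nat_lit 573487) (nat_lit 14) .nil)))) .nil)) 
(.lf (nat_lit 270883) (.g (nat_lit 2071) (.e (nat_lit 196665) (nat_lit 13) (.e (nat_lit 65617) (nat_lit 10) (.e (nat_lit 344130) (nat_lit 26) (.e (nat_lit 557090) (nat_lit 12) (.e (nat_lit 164022) (nat_lit 46) .nil))))) .nil))) (.nd (nat_lit 5) 
(.lf (nat_lit 270867) (.g (nat_lit 2218) (.e (nat_lit 196664) (nat_lit 13) (.e (nat_lit 65630) (nat_lit 14) (.e (nat_lit 401428) (nat_lit 3) (.e (nat_lit 204819) (nat_lit 17) (.e (nat_lit 6113) (nat_lit 332) .nil))))) .nil)) 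
(.lf (nat_lit 270899) (.g (nat_lit 1859) (.e (nat_lit 196665) (nat_lit 13) (.e (nat_lit 65626) (nat_lit 13) (.e (nat_lit 393229) (nat_lit 9) (.e (nat_lit 335988) (nat_lit 1) (.e (nat_lit 57927) (nat_lit 282) .nil))))) .nil)))) (.nd (nat_lit 4) (.nd (nat_lit 5) 
(.lf (nat_lit 270859) (.g (nat_lit 2872) (.e (nat_lit 196664) (nat_lit 13) (.e (nat_lit 65627) (nat_lit 13) (.e (nat_lit 393225) (nat_lit 9) (.e (nat_lit 335995) (nat_lit 1) (.e (nat_lit 57929) (nat_lit 282) (.e (nat_lit 163869) (nat_lit 2) .nil)))))) (.g (nat_lit 6) .nil .nil))) 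
(.lf (nat_lit 270891) (.g (nat_lit 1812) (.e (nat_lit 196665) (nat_lit 13) (.e (nat_lit 65625) (nat_lit 13) (.e (nat_lit 393225) (nat_lit 9) (.e (nat_lit 335995) (nat_lit 1) (.e (nat_lit 57929) (nat_lit 282) .nil))))) .nil))) (.nd (nat_lit 5) 
(.lf (nat_lit 270875) (.g (nat_lit 3265) (.e (nat_lit 196664) (nat_lit 13) (.e (nat_lit 65637) (nat_lit 15) (.e (nat_lit 3632) (nat_lit 227) (.e (nat_lit 778317) (nat_lit 3) (.e (nat_lit 57480) (nat_lit 28) .nil))))) .nil)) 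
(.lf (nat_lit 270907) (.g (nat_lit 1086) (.e (nat_lit 196665) (nat_lit 13) (.e (nat_lit 65637) (nat_lit 15) (.e (nat_lit 3631) (nat_lit 227) (.e (nat_lit 778317) (nat_lit 3) .nil)))) .nil))))) (.nd (nat_lit 3) (.nd (nat_lit 4) (.nd (nat_lit 5) 
(.lf (nat_lit 270855) (.g (nat_lit 1459) (.e (nat_lit 196664) (nat_lit 13) (.e (nat_lit 65627) (nat_lit 13) (.e (nat_lit 393225) (nat_lit 9) (.e (nat_lit 335986) (nat_lit 1) (.e (nat_lit 57927) (nat_lit 282) (.e (nat_lit 163866) (nat_lit 2) .nil)))))) (.g (nat_lit 4) .nil .nil))) 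
(.lf (nat_lit 270887) (.g (nat_lit 2496) (.e (nat_lit 196665) (nat_lit 13) (.e (nat_lit 65617) (nat_lit 10) (.e (nat_lit 344132) (nat_lit 26) (.e (nat_lit 557093) (nat_lit 12) (.e (nat_lit 164023) (nat_lit 46) (.e (nat_lit 704737) (nat_lit 11) (.e (nat_lit 16411) (nat_lit 2) .nil))))))) (.g (nat_lit 4) .nil .nil)))) (.nd (nat_lit 5) 
(.lf (nat_lit 270871) (.g (nat_lit 1977) (.e (nat_lit 196664) (nat_lit 13) (.e (nat_lit 65637) (nat_lit 15) (.e (nat_lit 3253) (nat_lit 197) (.e (nat_lit 532501) (nat_lit 1) (.e (nat_lit 57829) (nat_lit 250) (.e (nat_lit 1183) (nat_lit 87) (.e (nat_lit 57466) (nat_lit 23) (.e (nat_lit 516131) (nat_lit 3) (.e (nat_lit 221212) (nat_lit 22) .nil))))))))) (.g (nat_lit 4) .nil .nil))) 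
(.lf (nat_lit 270903) (.g (nat_lit 2205) (.e (nat_lit 196665) (nat_lit 13) (.e (nat_lit 65626) (nat_lit 13) (.e (nat_lit 393251) (nat_lit 18) (.e (nat_lit 164182) (nat_lit 154) (.e (nat_lit 57411) (nat_lit 12) .nil))))) .nil)))) (.nd (nat_lit 4) (.nd (nat_lit 5) 
(.lf (nat_lit 270863) (.g (nat_lit 865) (.e (nat_lit 196664) (nat_lit 13) (.e (nat_lit 65627) (nat_lit 13) (.e (nat_lit 393251) (nat_lit 18) (.e (nat_lit 164179) (nat_lit 154) .nil)))) .nil)) 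
(.lf (nat_lit 270895) (.g (nat_lit 1147) (.e (nat_lit 196665) (nat_lit 13) (.e (nat_lit 65626) (nat_lit 13) (.e (nat_lit 393225) (nat_lit 9) (.e (nat_lit 335988) (nat_lit 1) .nil)))) .nil))) (.nd (nat_lit 5) 
(.lf (nat_lit 270879) (.g (nat_lit 696) (.e (nat_lit 196665) (nat_lit 13) (.e (nat_lit 65615) (nat_lit 10) (.e (nat_lit 344117) (nat_lit 21) (.e (nat_lit 516139) (nat_lit 7) .nil)))) .nil)) 
(.lf (nat_lit 270911) (.g (nat_lit 4296) (.e (nat_lit 196666) (nat_lit 13) (.e (nat_lit 65553) (nat_lit 0) (.e (nat_lit 2003) (nat_lit 138) (.e (nat_lit 671759) (nat_lit 3) (.e (nat_lit 57480) (nat_lit 28) (.e (nat_lit 557109) (nat_lit 15) (.e (nat_lit 188449) (nat_lit 22) .nil))))))) (.g (nat_lit 0) .nil .nil)))))))))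

noncomputable def tv3474 : DT := (.nd (nat_lit 0) (.nd (nat_lit 1) (.nd (nat_lit 2) (.nd (nat_lit 3) (.nd (nat_lit 4) (.nd (nat_lit 5) 
(.lf (nat_lit 270912) (.g (nat_lit 2569) (.e (nat_lit 196666) (nat_lit 13) (.e (nat_lit 65553) (nat_lit 0) (.e (nat_lit 2005) (nat_lit 138) (.e (nat_lit 671759) (nat_lit 3) (.e (nat_lit 57479) (nat_lit 28) (.e (nat_lit 557109) (nat_lit 15) (.e (nat_lit 196352) (nat_lit 22) .nil))))))) (.g (nat_lit 6) .nil .nil))) 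
(.lf (nat_lit 270944) (.g (nat_lit 3371) (.e (nat_lit 196666) (nat_lit 13) (.e (nat_lit 65610) (nat_lit 10) (.e (nat_lit 344117) (nat_lit 21) (.e (nat_lit 516097) (nat_lit 0) (.e (nat_lit 7065) (nat_lit 377) .nil))))) .nil))) (.nd (nat_lit 5) 
(.lf (nat_lit 270928) (.g (nat_lit 4641) (.e (nat_lit 196666) (nat_lit 13) (.e (nat_lit 65571) (nat_lit 3) (.e (nat_lit 98333) (nat_lit 18) (.e (nat_lit 164179) (nat_lit 154) (.e (nat_lit 57378) (nat_lit 3) (.e (nat_lit 98341) (nat_lit 20) (.e (nat_lit 221211) (nat_lit 22) .nil))))))) (.g (nat_lit 6) .nil .nil))) 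
(.lf (nat_lit 270960) (.g (nat_lit 3434) (.e (nat_lit 196666) (nat_lit 13) (.e (nat_lit 65610) (nat_lit 10) (.e (nat_lit 344117) (nat_lit 21) (.e (nat_lit 516138) (nat_lit 7) (.e (nat_lit 409646) (nat_lit 18) (.e (nat_lit 311040) (nat_lit 2) .nil)))))) (.g (nat_lit 5) .nil .nil))))) (.nd (nat_lit 4) (.nd (nat_lit 5) 
(.lf (nat_lit 270920) (.g (nat_lit 2954) (.e (nat_lit 196666) (nat_lit 13) (.e (nat_lit 65569) (nat_lit 3) (.e (nat_lit 98335) (nat_lit 18) (.e (nat_lit 164182) (nat_lit 154) (.e (nat_lit 57379) (nat_lit 3) (.e (nat_lit 98342) (nat_lit 20) (.e (nat_lit 221211) (nat_lit 22) .nil))))))) (.g (nat_lit 4) .nil .nil))) 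
(.lf (nat_lit 270952) (.g (nat_lit 3954) (.e (nat_lit 196666) (nat_lit 13) (.e (nat_lit 65610) (nat_lit 10) (.e (nat_lit 344117) (nat_lit 21) (.e (nat_lit 516115) (nat_lit 1) (.e (nat_lit 171776) (nat_lit 278) (.e (nat_lit 1124) (nat_lit 83) (.e (nat_lit 16413) (nat_lit 2) .nil))))))) (.g (nat_lit 4) .nil .nil)))) (.nd (nat_lit 5) 
(.lf (nat_lit 270936) (.g (nat_lit 3612) (.e (nat_lit 196666) (nat_lit 13) (.e (nat_lit 65571) (nat_lit 3) (.e (nat_lit 98335) (nat_lit 18) (.e (nat_lit 164183) (nat_lit 154) (.e (nat_lit 57379) (nat_lit 3) (.e (nat_lit 98341) (nat_lit 20) (.e (nat_lit 221211) (nat_lit 22) .nil))))))) (.g (nat_lit 4) .nil .nil))) 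
(.lf (nat_lit 270968) (.g (nat_lit 2954) (.e (nat_lit 196666) (nat_lit 13) (.e (nat_lit 65610) (nat_lit 10) (.e (nat_lit 344117) (nat_lit 21) (.e (nat_lit 516139) (nat_lit 7) (.e (nat_lit 409625) (nat_lit 10) .nil))))) .nil))))) (.nd (nat_lit 3) (.nd (nat_lit 4) (.nd (nat_lit 5) 
(.lf (nat_lit 270916) (.g (nat_lit 1506) (.e (nat_lit 196666) (nat_lit 13) (.e (nat_lit 65569) (nat_lit 3) (.e (nat_lit 98333) (nat_lit 18) (.e (nat_lit 164150) (nat_lit 152) .nil)))) .nil)) 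
(.lf (nat_lit 270948) (.g (nat_lit 2342) (.e (nat_lit 196666) (nat_lit 13) (.e (nat_lit 65610) (nat_lit 10) (.e (nat_lit 344117) (nat_lit 21) (.e (nat_lit 516106) (nat_lit 0) (.e (nat_lit 7014) (nat_lit 377) .nil))))) .nil))) (.nd (nat_lit 5) 
(.lf (nat_lit 270932) (.g (nat_lit 4037) (.e (nat_lit 196666) (nat_lit 13) (.e (nat_lit 65571) (nat_lit 3) (.e (nat_lit 98334) (nat_lit 18) (.e (nat_lit 164183) (nat_lit 154) (.e (nat_lit 57378) (nat_lit 3) (.e (nat_lit 98341) (nat_lit 20) (.e (nat_lit 221211) (nat_lit 22) .nil))))))) (.g (nat_lit 6) .nil .nil))) 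
(.lf (nat_lit 270964) (.g (nat_lit 3652) (.e (nat_lit 196666) (nat_lit 13) (.e (nat_lit 65610) (nat_lit 10) (.e (nat_lit 344117) (nat_lit 21) (.e (nat_lit 516139) (nat_lit 7) (.e (nat_lit 409620) (nat_lit 10) .nil))))) .nil)))) (.nd (nat_lit 4) (.nd (nat_lit 5) 
(.lf (nat_lit 270924) (.g (nat_lit 2851) (.e (nat_lit 196666) (nat_lit 13) (.e (nat_lit 65571) (nat_lit 3) (.e (nat_lit 98333) (nat_lit 18) (.e (nat_lit 164179) (nat_lit 154) (.e (nat_lit 57347) (nat_lit 0) (.e (nat_lit 1795) (nat_lit 119) (.e (nat_lit 516131) (nat_lit 3) (.e (nat_lit 221211) (nat_lit 22) .nil)))))))) (.g (nat_lit 4) .nil .nil))) 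
(.lf (nat_lit 270956) (.g (nat_lit 2217) (.e (nat_lit 196666) (nat_lit 13) (.e (nat_lit 65610) (nat_lit 10) (.e (nat_lit 344117) (nat_lit 21) (.e (nat_lit 516116) (nat_lit 1) (.e (nat_lit 171776) (nat_lit 270) .nil))))) .nil))) (.nd (nat_lit 5) 
(.lf (nat_lit 270940) (.g (nat_lit 1196) (.e (nat_lit 196666) (nat_lit 13) (.e (nat_lit 65598) (nat_lit 9) (.e (nat_lit 336028) (nat_lit 3) (.e (nat_lit 98349) (nat_lit 24) .nil)))) .nil)) 
(.lf (nat_lit 270972) (.g (nat_lit 4170) (.e (nat_lit 196666) (nat_lit 13) (.e (nat_lit 65610) (nat_lit 10) (.e (nat_lit 344117) (nat_lit 21) (.e (nat_lit 516139) (nat_lit 7) (.e (nat_lit 409650) (nat_lit 19) (.e (nat_lit 311311) (nat_lit 2) .nil)))))) (.g (nat_lit 5) .nil .nil))))))) (.nd (nat_lit 2) (.nd (nat_lit 3) (.nd (nat_lit 4) (.nd (nat_lit 5) 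
(.lf (nat_lit 270914) (.g (nat_lit 3768) (.e (nat_lit 196666) (nat_lit 13) (.e (nat_lit 65565) (nat_lit 1) (.e (nat_lit 57870) (nat_lit 264) (.e (nat_lit 1171) (nat_lit 87) (.e (nat_lit 57478) (nat_lit 28) (.e (nat_lit 557109) (nat_lit 15) (.e (nat_lit 188449) (nat_lit 22) .nil))))))) (.g (nat_lit 0) .nil .nil))) 
(.lf (nat_lit 270946) (.g (nat_lit 3371) (.e (nat_lit 196666) (nat_lit 13) (.e (nat_lit 65610) (nat_lit 10) (.e (nat_lit 344117) (nat_lit 21) (.e (nat_lit 516097) (nat_lit 0) (.e (nat_lit 7109) (nat_lit 380) .nil))))) .nil))) (.nd (nat_lit 5) 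
(.lf (nat_lit 270930) (.g (nat_lit 3707) (.e (nat_lit 196666) (nat_lit 13) (.e (nat_lit 65571) (nat_lit 3) (.e (nat_lit 98333) (nat_lit 18) (.e (nat_lit 164183) (nat_lit 154) (.e (nat_lit 57379) (nat_lit 3) (.e (nat_lit 98340) (nat_lit 20) (.e (nat_lit 221211) (nat_lit 22) .nil))))))) (.g (nat_lit 5) .nil .nil))) 
(.lf (nat_lit 270962) (.g (nat_lit 2620) (.e (nat_lit 196666) (nat_lit 13) (.e (nat_lit 65610) (nat_lit 10) (.e (nat_lit 344117) (nat_lit 21) (.e (nat_lit 516139) (nat_lit 7) (.e (nat_lit 409616) (nat_lit 10) .nil))))) .nil)))) (.nd (nat_lit 4) (.nd (nat_lit 5) 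
(.lf (nat_lit 270922) (.g (nat_lit 2099) (.e (nat_lit 196666) (nat_lit 13) (.e (nat_lit 65569) (nat_lit 3) (.e (nat_lit 98342) (nat_lit 20) (.e (nat_lit 221214) (nat_lit 23) (.e (nat_lit 204828) (nat_lit 18) .nil))))) .nil)) 
(.lf (nat_lit 270954) (.g (nat_lit 3293) (.e (nat_lit 196666) (nat_lit 13) (.e (nat_lit 65610) (nat_lit 10) (.e (nat_lit 344117) (nat_lit 21) (.e (nat_lit 516115) (nat_lit 1) (.e (nat_lit 171776) (nat_lit 278) (.e (nat_lit 1127) (nat_lit 83) (.e (nat_lit 16413) (nat_lit 2) .nil))))))) (.g (nat_lit 4) .nil .nil)))) (.nd (nat_lit 5) 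
(.lf (nat_lit 270938) (.g (nat_lit 765) (.e (nat_lit 196666) (nat_lit 13) (.e (nat_lit 65571) (nat_lit 3) (.e (nat_lit 98340) (nat_lit 20) .nil))) .nil)) 
(.lf (nat_lit 270970) (.g (nat_lit 3625) (.e (nat_lit 196666) (nat_lit 13) (.e (nat_lit 65610) (nat_lit 10) (.e (nat_lit 344117) (nat_lit 21) (.e (nat_lit 516139) (nat_lit 7) (.e (nat_lit 409646) (nat_lit 18) (.e (nat_lit 311040) (nat_lit 2) .nil)))))) (.g (nat_lit 5) .nil .nil)))))) (.nd (nat_lit 3) (.nd (nat_lit 4) (.nd (nat_lit 5) 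
(.lf (nat_lit 270918) (.g (nat_lit 2998) (.e (nat_lit 196666) (nat_lit 13) (.e (nat_lit 65569) (nat_lit 3) (.e (nat_lit 98333) (nat_lit 18) (.e (nat_lit 164179) (nat_lit 154) (.e (nat_lit 57347) (nat_lit 0) (.e (nat_lit 1795) (nat_lit 119) (.e (nat_lit 516131) (nat_lit 3) (.e (nat_lit 221211) (nat_lit 22) .nil)))))))) (.g (nat_lit 4) .nil .nil))) 
(.lf (nat_lit 270950) (.g (nat_lit 3259) (.e (nat_lit 196666) (nat_lit 13) (.e (nat_lit 65610) (nat_lit 10) (.e (nat_lit 344117) (nat_lit 21) (.e (nat_lit 516115) (nat_lit 1) (.e (nat_lit 164429) (nat_lit 278) (.e (nat_lit 1122) (nat_lit 83) (.e (nat_lit 16413) (nat_lit 2) .nil))))))) (.g (nat_lit 4) .nil .nil)))) (.nd (nat_lit 5) 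
(.lf (nat_lit 270934) (.g (nat_lit 3927) (.e (nat_lit 196666) (nat_lit 13) (.e (nat_lit 65571) (nat_lit 3) (.e (nat_lit 98334) (nat_lit 18) (.e (nat_lit 164183) (nat_lit 154) (.e (nat_lit 57379) (nat_lit 3) (.e (nat_lit 98342) (nat_lit 20) (.e (nat_lit 221211) (nat_lit 22) .nil))))))) (.g (nat_lit 6) .nil .nil))) 
(.lf (nat_lit 270966) (.g (nat_lit 3351) (.e (nat_lit 196666) (nat_lit 13) (.e (nat_lit 65610) (nat_lit 10) (.e (nat_lit 344117) (nat_lit 21) (.e (nat_lit 516139) (nat_lit 7) (.e (nat_lit 409622) (nat_lit 10) .nil))))) .nil)))) (.nd (nat_lit 4) (.nd (nat_lit 5) 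
(.lf (nat_lit 270926) (.g (nat_lit 2718) (.e (nat_lit 196666) (nat_lit 13) (.e (nat_lit 65571) (nat_lit 3) (.e (nat_lit 98333) (nat_lit 18) (.e (nat_lit 164179) (nat_lit 154) (.e (nat_lit 57354) (nat_lit 0) (.e (nat_lit 1799) (nat_lit 119) (.e (nat_lit 516131) (nat_lit 3) (.e (nat_lit 221211) (nat_lit 22) .nil)))))))) (.g (nat_lit 4) .nil .nil))) 
(.lf (nat_lit 270958) (.g (nat_lit 3624) (.e (nat_lit 196666) (nat_lit 13) (.e (nat_lit 65610) (nat_lit 10) (.e (nat_lit 344117) (nat_lit 21) (.e (nat_lit 516116) (nat_lit 1) (.e (nat_lit 171776) (nat_lit 278) (.e (nat_lit 1127) (nat_lit 83) (.e (nat_lit 16413) (nat_lit 2) .nil))))))) (.g (nat_lit 4) .nil .nil)))) (.nd (nat_lit 5) 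
(.lf (nat_lit 270942) (.g (nat_lit 3370) (.e (nat_lit 196666) (nat_lit 13) (.e (nat_lit 65610) (nat_lit 10) (.e (nat_lit 344117) (nat_lit 21) (.e (nat_lit 516097) (nat_lit 0) (.e (nat_lit 7026) (nat_lit 377) .nil))))) .nil)) 
(.lf (nat_lit 270974) (.g (nat_lit 1908) (.e (nat_lit 196666) (nat_lit 13) (.e (nat_lit 65610) (nat_lit 10) (.e (nat_lit 344117) (nat_lit 21) (.e (nat_lit 524032) (nat_lit 7) .nil)))) .nil))))))) (.nd (nat_lit 1) (.nd (nat_lit 2) (.nd (nat_lit 3) (.nd (nat_lit 4) (.nd (nat_lit 5) 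
(.lf (nat_lit 270913) (.g (nat_lit 4180) (.e (nat_lit 196666) (nat_lit 13) (.e (nat_lit 65553) (nat_lit 0) (.e (nat_lit 2006) (nat_lit 138) (.e (nat_lit 671759) (nat_lit 3) (.e (nat_lit 57478) (nat_lit 28) (.e (nat_lit 557109) (nat_lit 15) (.e (nat_lit 188449) (nat_lit 22) .nil))))))) (.g (nat_lit 0) .nil .nil))) 
(.lf (nat_lit 270945) (.g (nat_lit 3326) (.e (nat_lit 196666) (nat_lit 13) (.e (nat_lit 65610) (nat_lit 10) (.e (nat_lit 344117) (nat_lit 21) (.e (nat_lit 516097) (nat_lit 0) (.e (nat_lit 7073) (nat_lit 377) .nil))))) .nil))) (.nd (nat_lit 5) 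
(.lf (nat_lit 270929) (.g (nat_lit 4009) (.e (nat_lit 196666) (nat_lit 13) (.e (nat_lit 65571) (nat_lit 3) (.e (nat_lit 98333) (nat_lit 18) (.e (nat_lit 164182) (nat_lit 154) (.e (nat_lit 57378) (nat_lit 3) (.e (nat_lit 98342) (nat_lit 20) (.e (nat_lit 221211) (nat_lit 22) .nil))))))) (.g (nat_lit 6) .nil .nil))) 
(.lf (nat_lit 270961) (.g (nat_lit 3193) (.e (nat_lit 196666) (nat_lit 13) (.e (nat_lit 65610) (nat_lit 10) (.e (nat_lit 344117) (nat_lit 21) (.e (nat_lit 516139) (nat_lit 7) (.e (nat_lit 409612) (nat_lit 10) .nil))))) .nil)))) (.nd (nat_lit 4) (.nd (nat_lit 5) 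
(.lf (nat_lit 270921) (.g (nat_lit 2145) (.e (nat_lit 196666) (nat_lit 13) (.e (nat_lit 65569) (nat_lit 3) (.e (nat_lit 98341) (nat_lit 20) (.e (nat_lit 221215) (nat_lit 23) (.e (nat_lit 204828) (nat_lit 18) .nil))))) .nil)) 
(.lf (nat_lit 270953) (.g (nat_lit 3615) (.e (nat_lit 196666) (nat_lit 13) (.e (nat_lit 65610) (nat_lit 10) (.e (nat_lit 344117) (nat_lit 21) (.e (nat_lit 516115) (nat_lit 1) (.e (nat_lit 171776) (nat_lit 278) (.e (nat_lit 1125) (nat_lit 83) (.e (nat_lit 16413) (nat_lit 2) .nil))))))) (.g (nat_lit 4) .nil .nil)))) (.nd (nat_lit 5) 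
(.lf (nat_lit 270937) (.g (nat_lit 3371) (.e (nat_lit 196666) (nat_lit 13) (.e (nat_lit 65571) (nat_lit 3) (.e (nat_lit 98335) (nat_lit 18) (.e (nat_lit 164183) (nat_lit 154) (.e (nat_lit 57379) (nat_lit 3) (.e (nat_lit 98342) (nat_lit 20) (.e (nat_lit 221211) (nat_lit 22) .nil))))))) (.g (nat_lit 4) .nil .nil))) 
(.lf (nat_lit 270969) (.g (nat_lit 3181) (.e (nat_lit 196666) (nat_lit 13) (.e (nat_lit 65610) (nat_lit 10) (.e (nat_lit 344117) (nat_lit 21) (.e (nat_lit 516139) (nat_lit 7) (.e (nat_lit 409645) (nat_lit 18) (.e (nat_lit 311040) (nat_lit 2) .nil)))))) (.g (nat_lit 4) .nil .nil)))))) (.nd (nat_lit 3) (.nd (nat_lit 4) (.nd (nat_lit 5) 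
(.lf (nat_lit 270917) (.g (nat_lit 1502) (.e (nat_lit 196666) (nat_lit 13) (.e (nat_lit 65569) (nat_lit 3) (.e (nat_lit 98333) (nat_lit 18) (.e (nat_lit 164161) (nat_lit 152) .nil)))) .nil)) 
(.lf (nat_lit 270949) (.g (nat_lit 2038) (.e (nat_lit 196666) (nat_lit 13) (.e (nat_lit 65610) (nat_lit 10) (.e (nat_lit 344117) (nat_lit 21) (.e (nat_lit 516106) (nat_lit 0) (.e (nat_lit 7936) (nat_lit 377) .nil))))) .nil))) (.nd (nat_lit 5) 
(.lf (nat_lit 270933) (.g (nat_lit 4203) (.e (nat_lit 196666) (nat_lit 13) (.e (nat_lit 65571) (nat_lit 3) (.e (nat_lit 98334) (nat_lit 18) (.e (nat_lit 164183) (nat_lit 154) (.e (nat_lit 57379) (nat_lit 3) (.e (nat_lit 98341) (nat_lit 20) (.e (nat_lit 221211) (nat_lit 22) .nil))))))) (.g (nat_lit 6) .nil .nil))) 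
(.lf (nat_lit 270965) (.g (nat_lit 3571) (.e (nat_lit 196666) (nat_lit 13) (.e (nat_lit 65610) (nat_lit 10) (.e (nat_lit 344117) (nat_lit 21) (.e (nat_lit 516139) (nat_lit 7) (.e (nat_lit 409621) (nat_lit 10) .nil))))) .nil)))) (.nd (nat_lit 4) (.nd (nat_lit 5) 
(.lf (nat_lit 270925) (.g (nat_lit 2936) (.e (nat_lit 196666) (nat_lit 13) (.e (nat_lit 65571) (nat_lit 3) (.e (nat_lit 98333) (nat_lit 18) (.e (nat_lit 164179) (nat_lit 154) (.e (nat_lit 57348) (nat_lit 0) (.e (nat_lit 1795) (nat_lit 119) (.e (nat_lit 516131) (nat_lit 3) (.e (nat_lit 221211) (nat_lit 22) .nil)))))))) (.g (nat_lit 4) .nil .nil))) 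
(.lf (nat_lit 270957) (.g (nat_lit 3829) (.e (nat_lit 196666) (nat_lit 13) (.e (nat_lit 65610) (nat_lit 10) (.e (nat_lit 344117) (nat_lit 21) (.e (nat_lit 516116) (nat_lit 1) (.e (nat_lit 171776) (nat_lit 278) (.e (nat_lit 1124) (nat_lit 83) (.e (nat_lit 16412) (nat_lit 2) .nil))))))) (.g (nat_lit 4) .nil .nil)))) (.nd (nat_lit 5) 
(.lf (nat_lit 270941) (.g (nat_lit 4656) (.e (nat_lit 196666) (nat_lit 13) (.e (nat_lit 65609) (nat_lit 10) (.e (nat_lit 344132) (nat_lit 26) (.e (nat_lit 557093) (nat_lit 12) (.e (nat_lit 164022) (nat_lit 46) (.e (nat_lit 704738) (nat_lit 11) (.e (nat_lit 16412) (nat_lit 2) .nil))))))) (.g (nat_lit 0) .nil .nil))) 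
(.lf (nat_lit 270973) (.g (nat_lit 1999) (.e (nat_lit 196666) (nat_lit 13) (.e (nat_lit 65610) (nat_lit 10) (.e (nat_lit 344117) (nat_lit 21) (.e (nat_lit 516139) (nat_lit 7) (.e (nat_lit 417536) (nat_lit 19) .nil))))) .nil)))))) (.nd (nat_lit 2) (.nd (nat_lit 3) (.nd (nat_lit 4) (.nd (nat_lit 5) 
(.lf (nat_lit 270915) (.g (nat_lit 828) (.e (nat_lit 196666) (nat_lit 13) (.e (nat_lit 65565) (nat_lit 1) (.e (nat_lit 57931) (nat_lit 282) (.e (nat_lit 171776) (nat_lit 63) .nil)))) .nil)) 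
(.lf (nat_lit 270947) (.g (nat_lit 2048) (.e (nat_lit 196666) (nat_lit 13) (.e (nat_lit 65610) (nat_lit 10) (.e (nat_lit 344117) (nat_lit 21) (.e (nat_lit 516098) (nat_lit 0) (.e (nat_lit 7490) (nat_lit 402) .nil))))) .nil))) (.nd (nat_lit 5) 
(.lf (nat_lit 270931) (.g (nat_lit 3442) (.e (nat_lit 196666) (nat_lit 13) (.e (nat_lit 65571) (nat_lit 3) (.e (nat_lit 98334) (nat_lit 18) (.e (nat_lit 164183) (nat_lit 154) (.e (nat_lit 57378) (nat_lit 3) (.e (nat_lit 98340) (nat_lit 20) (.e (nat_lit 221211) (nat_lit 22) .nil))))))) (.g (nat_lit 5) .nil .nil))) 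
(.lf (nat_lit 270963) (.g (nat_lit 3586) (.e (nat_lit 196666) (nat_lit 13) (.e (nat_lit 65610) (nat_lit 10) (.e (nat_lit 344117) (nat_lit 21) (.e (nat_lit 516139) (nat_lit 7) (.e (nat_lit 409619) (nat_lit 10) .nil))))) .nil)))) (.nd (nat_lit 4) (.nd (nat_lit 5) 
(.lf (nat_lit 270923) (.g (nat_lit 2878) (.e (nat_lit 196666) (nat_lit 13) (.e (nat_lit 65571) (nat_lit 3) (.e (nat_lit 98333) (nat_lit 18) (.e (nat_lit 164151) (nat_lit 152) (.e (nat_lit 974) (nat_lit 81) (.e (nat_lit 1256) (nat_lit 92) (.e (nat_lit 98342) (nat_lit 20) (.e (nat_lit 221211) (nat_lit 22) .nil)))))))) (.g (nat_lit 4) .nil .nil))) 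
(.lf (nat_lit 270955) (.g (nat_lit 3639) (.e (nat_lit 196666) (nat_lit 13) (.e (nat_lit 65610) (nat_lit 10) (.e (nat_lit 344117) (nat_lit 21) (.e (nat_lit 516115) (nat_lit 1) (.e (nat_lit 171776) (nat_lit 278) (.e (nat_lit 1131) (nat_lit 83) (.e (nat_lit 16413) (nat_lit 2) .nil))))))) (.g (nat_lit 4) .nil .nil)))) (.nd (nat_lit 5) 
(.lf (nat_lit 270939) (.g (nat_lit 2640) (.e (nat_lit 196666) (nat_lit 13) (.e (nat_lit 65574) (nat_lit 4) (.e (nat_lit 123182) (nat_lit 264) (.e (nat_lit 1183) (nat_lit 87) (.e (nat_lit 57478) (nat_lit 28) (.e (nat_lit 557097) (nat_lit 13) (.e (nat_lit 172097) (nat_lit 9) (.e (nat_lit 426125) (nat_lit 2) .nil)))))))) (.g (nat_lit 4) .nil .nil))) 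
(.lf (nat_lit 270971) (.g (nat_lit 3185) (.e (nat_lit 196666) (nat_lit 13) (.e (nat_lit 65610) (nat_lit 10) (.e (nat_lit 344117) (nat_lit 21) (.e (nat_lit 516139) (nat_lit 7) (.e (nat_lit 409648) (nat_lit 18) (.e (nat_lit 311040) (nat_lit 2) .nil)))))) (.g (nat_lit 4) .nil .nil)))))) (.nd (nat_lit 3) (.nd (nat_lit 4) (.nd (nat_lit 5) 
(.lf (nat_lit 270919) (.g (nat_lit 3083) (.e (nat_lit 196666) (nat_lit 13) (.e (nat_lit 65569) (nat_lit 3) (.e (nat_lit 98333) (nat_lit 18) (.e (nat_lit 164179) (nat_lit 154) (.e (nat_lit 57348) (nat_lit 0) (.e (nat_lit 1795) (nat_lit 119) (.e (nat_lit 516131) (nat_lit 3) (.e (nat_lit 221211) (nat_lit 22) .nil)))))))) (.g (nat_lit 4) .nil .nil))) 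
(.lf (nat_lit 270951) (.g (nat_lit 3494) (.e (nat_lit 196666) (nat_lit 13) (.e (nat_lit 65610) (nat_lit 10) (.e (nat_lit 344117) (nat_lit 21) (.e (nat_lit 516115) (nat_lit 1) (.e (nat_lit 171776) (nat_lit 278) (.e (nat_lit 1124) (nat_lit 83) (.e (nat_lit 16412) (nat_lit 2) .nil))))))) (.g (nat_lit 4) .nil .nil)))) (.nd (nat_lit 5) 
(.lf (nat_lit 270935) (.g (nat_lit 3299) (.e (nat_lit 196666) (nat_lit 13) (.e (nat_lit 65571) (nat_lit 3) (.e (nat_lit 98335) (nat_lit 18) (.e (nat_lit 164179) (nat_lit 154) (.e (nat_lit 57377) (nat_lit 3) (.e (nat_lit 98342) (nat_lit 20) (.e (nat_lit 221211) (nat_lit 22) .nil))))))) (.g (nat_lit 4) .nil .nil))) 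
(.lf (nat_lit 270967) (.g (nat_lit 3289) (.e (nat_lit 196666) (nat_lit 13) (.e (nat_lit 65610) (nat_lit 10) (.e (nat_lit 344117) (nat_lit 21) (.e (nat_lit 516139) (nat_lit 7) (.e (nat_lit 409624) (nat_lit 10) .nil))))) .nil)))) (.nd (nat_lit 4) (.nd (nat_lit 5) 
(.lf (nat_lit 270927) (.g (nat_lit 3979) (.e (nat_lit 196666) (nat_lit 13) (.e (nat_lit 65571) (nat_lit 3) (.e (nat_lit 98333) (nat_lit 18) (.e (nat_lit 164179) (nat_lit 154) (.e (nat_lit 57378) (nat_lit 3) (.e (nat_lit 98340) (nat_lit 20) (.e (nat_lit 221211) (nat_lit 22) .nil))))))) (.g (nat_lit 5) .nil .nil))) 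
(.lf (nat_lit 270959) (.g (nat_lit 2019) (.e (nat_lit 196666) (nat_lit 13) (.e (nat_lit 65610) (nat_lit 10) (.e (nat_lit 344117) (nat_lit 21) (.e (nat_lit 516138) (nat_lit 7) (.e (nat_lit 409608) (nat_lit 10) .nil))))) .nil))) (.nd (nat_lit 5) 
(.lf (nat_lit 270943) (.g (nat_lit 3371) (.e (nat_lit 196666) (nat_lit 13) (.e (nat_lit 65610) (nat_lit 10) (.e (nat_lit 344117) (nat_lit 21) (.e (nat_lit 516097) (nat_lit 0) (.e (nat_lit 7060) (nat_lit 377) .nil))))) .nil)) 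
(.lf (nat_lit 270975) (.g (nat_lit 1489) (.e (nat_lit 196666) (nat_lit 13) (.e (nat_lit 65610) (nat_lit 10) (.e (nat_lit 344117) (nat_lit 21) (.e (nat_lit 516140) (nat_lit 8) .nil)))) .nil))))))))

noncomputable def tv3475 : DT := (.nd (nat_lit 0) (.nd (nat_lit 1) (.nd (nat_lit 2) (.nd (nat_lit 3) (.nd (nat_lit 4) (.nd (nat_lit 5) 
(.lf (nat_lit 270976) (.g (nat_lit 4238) (.e (nat_lit 196666) (nat_lit 13) (.e (nat_lit 65610) (nat_lit 10) (.e (nat_lit 344117) (nat_lit 21) (.e (nat_lit 516141) (nat_lit 8) (.e (nat_lit 417830) (nat_lit 19) (.e (nat_lit 311312) (nat_lit 2) .nil)))))) (.g (nat_lit 6) .nil .nil))) 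
(.lf (nat_lit 271008) (.g (nat_lit 4217) (.e (nat_lit 196666) (nat_lit 13) (.e (nat_lit 65610) (nat_lit 10) (.e (nat_lit 344117) (nat_lit 21) (.e (nat_lit 516151) (nat_lit 9) (.e (nat_lit 426103) (nat_lit 1) (.e (nat_lit 164398) (nat_lit 256) (.e (nat_lit 65280) (nat_lit 63) .nil))))))) (.g (nat_lit 6) .nil .nil)))) (.nd (nat_lit 5) 
(.lf (nat_lit 270992) (.g (nat_lit 2885) (.e (nat_lit 196666) (nat_lit 13) (.e (nat_lit 65610) (nat_lit 10) (.e (nat_lit 344117) (nat_lit 21) (.e (nat_lit 516151) (nat_lit 9) (.e (nat_lit 426041) (nat_lit 0) .nil))))) .nil)) 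
(.lf (nat_lit 271024) (.g (nat_lit 3739) (.e (nat_lit 196666) (nat_lit 13) (.e (nat_lit 65610) (nat_lit 10) (.e (nat_lit 344129) (nat_lit 26) (.e (nat_lit 557067) (nat_lit 9) (.e (nat_lit 249) (nat_lit 21) (.e (nat_lit 335895) (nat_lit 0) (.e (nat_lit 6619) (nat_lit 357) (.e (nat_lit 2668) (nat_lit 167) .nil)))))))) (.g (nat_lit 6) .nil .nil))))) (.nd (nat_lit 4) (.nd (nat_lit 5) 
(.lf (nat_lit 270984) (.g (nat_lit 3763) (.e (nat_lit 196666) (nat_lit 13) (.e (nat_lit 65610) (nat_lit 10) (.e (nat_lit 344117) (nat_lit 21) (.e (nat_lit 516145) (nat_lit 9) (.e (nat_lit 433920) (nat_lit 1) (.e (nat_lit 164403) (nat_lit 256) (.e (nat_lit 65280) (nat_lit 63) .nil))))))) (.g (nat_lit 6) .nil .nil))) 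
(.lf (nat_lit 271016) (.g (nat_lit 3197) (.e (nat_lit 196666) (nat_lit 13) (.e (nat_lit 65610) (nat_lit 10) (.e (nat_lit 344117) (nat_lit 21) (.e (nat_lit 516185) (nat_lit 16) (.e (nat_lit 491520) (nat_lit 0) .nil))))) .nil))) (.nd (nat_lit 5) 
(.lf (nat_lit 271000) (.g (nat_lit 3208) (.e (nat_lit 196666) (nat_lit 13) (.e (nat_lit 65610) (nat_lit 10) (.e (nat_lit 344117) (nat_lit 21) (.e (nat_lit 516151) (nat_lit 9) (.e (nat_lit 426097) (nat_lit 1) (.e (nat_lit 164399) (nat_lit 256) (.e (nat_lit 65280) (nat_lit 63) .nil))))))) (.g (nat_lit 6) .nil .nil))) 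
(.lf (nat_lit 271032) (.g (nat_lit 2233) (.e (nat_lit 196666) (nat_lit 13) (.e (nat_lit 65610) (nat_lit 10) (.e (nat_lit 344129) (nat_lit 26) (.e (nat_lit 557070) (nat_lit 9) (.e (nat_lit 253) (nat_lit 21) .nil))))) .nil))))) (.nd (nat_lit 3) (.nd (nat_lit 4) (.nd (nat_lit 5) 
(.lf (nat_lit 270980) (.g (nat_lit 3020) (.e (nat_lit 196666) (nat_lit 13) (.e (nat_lit 65610) (nat_lit 10) (.e (nat_lit 344117) (nat_lit 21) (.e (nat_lit 516145) (nat_lit 9) (.e (nat_lit 426111) (nat_lit 1) (.e (nat_lit 164399) (nat_lit 256) (.e (nat_lit 65280) (nat_lit 63) .nil))))))) (.g (nat_lit 4) .nil .nil))) 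
(.lf (nat_lit 271012) (.g (nat_lit 2878) (.e (nat_lit 196666) (nat_lit 13) (.e (nat_lit 65610) (nat_lit 10) (.e (nat_lit 344117) (nat_lit 21) (.e (nat_lit 516151) (nat_lit 9) (.e (nat_lit 426142) (nat_lit 4) (.e (nat_lit 229708) (nat_lit 256) (.e (nat_lit 65280) (nat_lit 63) .nil))))))) (.g (nat_lit 4) .nil .nil)))) (.nd (nat_lit 5) 
(.lf (nat_lit 270996) (.g (nat_lit 3170) (.e (nat_lit 196666) (nat_lit 13) (.e (nat_lit 65610) (nat_lit 10) (.e (nat_lit 344117) (nat_lit 21) (.e (nat_lit 516151) (nat_lit 9) (.e (nat_lit 426050) (nat_lit 0) .nil))))) .nil)) 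
(.lf (nat_lit 271028) (.g (nat_lit 2466) (.e (nat_lit 196666) (nat_lit 13) (.e (nat_lit 65610) (nat_lit 10) (.e (nat_lit 344129) (nat_lit 26) (.e (nat_lit 557067) (nat_lit 9) (.e (nat_lit 290) (nat_lit 21) (.e (nat_lit 335893) (nat_lit 0) (.e (nat_lit 6696) (nat_lit 357) (.e (nat_lit 2666) (nat_lit 167) .nil)))))))) (.g (nat_lit 4) .nil .nil))))) (.nd (nat_lit 4) (.nd (nat_lit 5) 
(.lf (nat_lit 270988) (.g (nat_lit 3221) (.e (nat_lit 196666) (nat_lit 13) (.e (nat_lit 65610) (nat_lit 10) (.e (nat_lit 344117) (nat_lit 21) (.e (nat_lit 516151) (nat_lit 9) (.e (nat_lit 426021) (nat_lit 0) .nil))))) .nil)) 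
(.lf (nat_lit 271020) (.g (nat_lit 2946) (.e (nat_lit 196666) (nat_lit 13) (.e (nat_lit 65610) (nat_lit 10) (.e (nat_lit 344129) (nat_lit 26) (.e (nat_lit 557066) (nat_lit 9) (.e (nat_lit 304) (nat_lit 22) (.e (nat_lit 352000) (nat_lit 0) (.e (nat_lit 2666) (nat_lit 167) .nil))))))) (.g (nat_lit 4) .nil .nil)))) (.nd (nat_lit 5) 
(.lf (nat_lit 271004) (.g (nat_lit 4015) (.e (nat_lit 196666) (nat_lit 13) (.e (nat_lit 65610) (nat_lit 10) (.e (nat_lit 344117) (nat_lit 21) (.e (nat_lit 516151) (nat_lit 9) (.e (nat_lit 426101) (nat_lit 1) (.e (nat_lit 164399) (nat_lit 256) (.e (nat_lit 65280) (nat_lit 63) .nil))))))) (.g (nat_lit 4) .nil .nil))) 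
(.lf (nat_lit 271036) (.g (nat_lit 3084) (.e (nat_lit 196666) (nat_lit 13) (.e (nat_lit 65610) (nat_lit 10) (.e (nat_lit 344129) (nat_lit 26) (.e (nat_lit 557074) (nat_lit 9) (.e (nat_lit 284) (nat_lit 21) (.e (nat_lit 335894) (nat_lit 0) (.e (nat_lit 6696) (nat_lit 357) (.e (nat_lit 2666) (nat_lit 167) .nil)))))))) (.g (nat_lit 5) .nil .nil))))))) 
(.nd (nat_lit 2) (.nd (nat_lit 3) (.nd (nat_lit 4) (.nd (nat_lit 5) 
(.lf (nat_lit 270978) (.g (nat_lit 2334) (.e (nat_lit 196666) (nat_lit 13) (.e (nat_lit 65610) (nat_lit 10) (.e (nat_lit 344117) (nat_lit 21) (.e (nat_lit 516145) (nat_lit 9) (.e (nat_lit 426093) (nat_lit 0) .nil))))) .nil)) 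
(.lf (nat_lit 271010) (.g (nat_lit 3943) (.e (nat_lit 196666) (nat_lit 13) (.e (nat_lit 65610) (nat_lit 10) (.e (nat_lit 344117) (nat_lit 21) (.e (nat_lit 516151) (nat_lit 9) (.e (nat_lit 426104) (nat_lit 1) (.e (nat_lit 164403) (nat_lit 256) (.e (nat_lit 65280) (nat_lit 63) .nil))))))) (.g (nat_lit 6) .nil .nil)))) (.nd (nat_lit 5) 
(.lf (nat_lit 270994) (.g (nat_lit 3144) (.e (nat_lit 196666) (nat_lit 13) (.e (nat_lit 65610) (nat_lit 10) (.e (nat_lit 344117) (nat_lit 21) (.e (nat_lit 516151) (nat_lit 9) (.e (nat_lit 426047) (nat_lit 0) .nil))))) .nil)) 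
(.lf (nat_lit 271026) (.g (nat_lit 3006) (.e (nat_lit 196666) (nat_lit 13) (.e (nat_lit 65610) (nat_lit 10) (.e (nat_lit 344129) (nat_lit 26) (.e (nat_lit 557067) (nat_lit 9) (.e (nat_lit 249) (nat_lit 21) (.e (nat_lit 336232) (nat_lit 14) (.e (nat_lit 401423) (nat_lit 2) .nil))))))) (.g (nat_lit 4) .nil .nil))))) (.nd (nat_lit 4) (.nd (nat_lit 5) 
(.lf (nat_lit 270986) (.g (nat_lit 3193) (.e (nat_lit 196666) (nat_lit 13) (.e (nat_lit 65610) (nat_lit 10) (.e (nat_lit 344117) (nat_lit 21) (.e (nat_lit 516151) (nat_lit 9) (.e (nat_lit 426019) (nat_lit 0) .nil))))) .nil)) 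
(.lf (nat_lit 271018) (.g (nat_lit 5019) (.e (nat_lit 196666) (nat_lit 13) (.e (nat_lit 65610) (nat_lit 10) (.e (nat_lit 344128) (nat_lit 26) (.e (nat_lit 557091) (nat_lit 12) (.e (nat_lit 164022) (nat_lit 46) (.e (nat_lit 704738) (nat_lit 11) (.e (nat_lit 16412) (nat_lit 2) .nil))))))) (.g (nat_lit 0) .nil .nil)))) (.nd (nat_lit 5) 
(.lf (nat_lit 271002) (.g (nat_lit 3513) (.e (nat_lit 196666) (nat_lit 13) (.e (nat_lit 65610) (nat_lit 10) (.e (nat_lit 344117) (nat_lit 21) (.e (nat_lit 516151) (nat_lit 9) (.e (nat_lit 426097) (nat_lit 1) (.e (nat_lit 164403) (nat_lit 256) (.e (nat_lit 65280) (nat_lit 63) .nil))))))) (.g (nat_lit 6) .nil .nil))) 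
(.lf (nat_lit 271034) (.g (nat_lit 3209) (.e (nat_lit 196666) (nat_lit 13) (.e (nat_lit 65610) (nat_lit 10) (.e (nat_lit 344129) (nat_lit 26) (.e (nat_lit 557074) (nat_lit 9) (.e (nat_lit 284) (nat_lit 21) (.e (nat_lit 335886) (nat_lit 0) (.e (nat_lit 6619) (nat_lit 357) (.e (nat_lit 2668) (nat_lit 167) .nil)))))))) (.g (nat_lit 5) .nil .nil)))))) 
(.nd (nat_lit 3) (.nd (nat_lit 4) (.nd (nat_lit 5) 
(.lf (nat_lit 270982) (.g (nat_lit 3662) (.e (nat_lit 196666) (nat_lit 13) (.e (nat_lit 65610) (nat_lit 10) (.e (nat_lit 344117) (nat_lit 21) (.e (nat_lit 516145) (nat_lit 9) (.e (nat_lit 433920) (nat_lit 1) (.e (nat_lit 164399) (nat_lit 256) (.e (nat_lit 65280) (nat_lit 63) .nil))))))) (.g (nat_lit 6) .nil .nil))) 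
(.lf (nat_lit 271014) (.g (nat_lit 2713) (.e (nat_lit 196666) (nat_lit 13) (.e (nat_lit 65610) (nat_lit 10) (.e (nat_lit 344117) (nat_lit 21) (.e (nat_lit 516184) (nat_lit 16) (.e (nat_lit 491530) (nat_lit 0) .nil))))) .nil))) (.nd (nat_lit 5) 
(.lf (nat_lit 270998) (.g (nat_lit 2694) (.e (nat_lit 196666) (nat_lit 13) (.e (nat_lit 65610) (nat_lit 10) (.e (nat_lit 344117) (nat_lit 21) (.e (nat_lit 516151) (nat_lit 9) (.e (nat_lit 426097) (nat_lit 1) (.e (nat_lit 164397) (nat_lit 256) (.e (nat_lit 65280) (nat_lit 63) .nil))))))) (.g (nat_lit 5) .nil .nil))) 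
(.lf (nat_lit 271030) (.g (nat_lit 2440) (.e (nat_lit 196666) (nat_lit 13) (.e (nat_lit 65610) (nat_lit 10) (.e (nat_lit 344129) (nat_lit 26) (.e (nat_lit 557067) (nat_lit 9) (.e (nat_lit 290) (nat_lit 21) (.e (nat_lit 336229) (nat_lit 14) (.e (nat_lit 401423) (nat_lit 2) .nil))))))) (.g (nat_lit 4) .nil .nil))))) (.nd (nat_lit 4) (.nd (nat_lit 5) 
(.lf (nat_lit 270990) (.g (nat_lit 3167) (.e (nat_lit 196666) (nat_lit 13) (.e (nat_lit 65610) (nat_lit 10) (.e (nat_lit 344117) (nat_lit 21) (.e (nat_lit 516151) (nat_lit 9) (.e (nat_lit 426037) (nat_lit 0) .nil))))) .nil)) 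
(.lf (nat_lit 271022) (.g (nat_lit 4211) (.e (nat_lit 196666) (nat_lit 13) (.e (nat_lit 65610) (nat_lit 10) (.e (nat_lit 344129) (nat_lit 26) (.e (nat_lit 557067) (nat_lit 9) (.e (nat_lit 249) (nat_lit 21) (.e (nat_lit 335894) (nat_lit 0) (.e (nat_lit 6619) (nat_lit 357) (.e (nat_lit 2668) (nat_lit 167) .nil)))))))) (.g (nat_lit 6) .nil .nil)))) (.nd (nat_lit 5) 
(.lf (nat_lit 271006) (.g (nat_lit 3560) (.e (nat_lit 196666) (nat_lit 13) (.e (nat_lit 65610) (nat_lit 10) (.e (nat_lit 344117) (nat_lit 21) (.e (nat_lit 516151) (nat_lit 9) (.e (nat_lit 426101) (nat_lit 1) (.e (nat_lit 164403) (nat_lit 256) (.e (nat_lit 65280) (nat_lit 63) .nil))))))) (.g (nat_lit 4) .nil .nil))) 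
(.lf (nat_lit 271038) (.g (nat_lit 2519) (.e (nat_lit 196666) (nat_lit 13) (.e (nat_lit 65610) (nat_lit 10) (.e (nat_lit 344129) (nat_lit 26) (.e (nat_lit 557074) (nat_lit 9) (.e (nat_lit 284) (nat_lit 21) (.e (nat_lit 335906) (nat_lit 0) (.e (nat_lit 7936) (nat_lit 357) (.e (nat_lit 2666) (nat_lit 167) .nil)))))))) (.g (nat_lit 4) .nil .nil)))))))) 
(.nd (nat_lit 1) (.nd (nat_lit 2) (.nd (nat_lit 3) (.nd (nat_lit 4) (.nd (nat_lit 5) 
(.lf (nat_lit 270977) (.g (nat_lit 1952) (.e (nat_lit 196666) (nat_lit 13) (.e (nat_lit 65610) (nat_lit 10) (.e (nat_lit 344117) (nat_lit 21) (.e (nat_lit 516142) (nat_lit 8) (.e (nat_lit 425728) (nat_lit 10) .nil))))) .nil)) 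
(.lf (nat_lit 271009) (.g (nat_lit 3192) (.e (nat_lit 196666) (nat_lit 13) (.e (nat_lit 65610) (nat_lit 10) (.e (nat_lit 344117) (nat_lit 21) (.e (nat_lit 516151) (nat_lit 9) (.e (nat_lit 426104) (nat_lit 1) (.e (nat_lit 164401) (nat_lit 256) (.e (nat_lit 65280) (nat_lit 63) .nil))))))) (.g (nat_lit 4) .nil .nil)))) (.nd (nat_lit 5) 
(.lf (nat_lit 270993) (.g (nat_lit 3148) (.e (nat_lit 196666) (nat_lit 13) (.e (nat_lit 65610) (nat_lit 10) (.e (nat_lit 344117) (nat_lit 21) (.e (nat_lit 516151) (nat_lit 9) (.e (nat_lit 426045) (nat_lit 0) .nil))))) .nil)) 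
(.lf (nat_lit 271025) (.g (nat_lit 2710) (.e (nat_lit 196666) (nat_lit 13) (.e (nat_lit 65610) (nat_lit 10) (.e (nat_lit 344129) (nat_lit 26) (.e (nat_lit 557067) (nat_lit 9) (.e (nat_lit 249) (nat_lit 21) (.e (nat_lit 335895) (nat_lit 0) (.e (nat_lit 6696) (nat_lit 357) (.e (nat_lit 2666) (nat_lit 167) .nil)))))))) (.g (nat_lit 4) .nil .nil))))) (.nd (nat_lit 4) (.nd (nat_lit 5) 
(.lf (nat_lit 270985) (.g (nat_lit 3207) (.e (nat_lit 196666) (nat_lit 13) (.e (nat_lit 65610) (nat_lit 10) (.e (nat_lit 344117) (nat_lit 21) (.e (nat_lit 516151) (nat_lit 9) (.e (nat_lit 426017) (nat_lit 0) .nil))))) .nil)) 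
(.lf (nat_lit 271017) (.g (nat_lit 3379) (.e (nat_lit 196666) (nat_lit 13) (.e (nat_lit 65610) (nat_lit 10) (.e (nat_lit 344128) (nat_lit 26) (.e (nat_lit 557090) (nat_lit 12) (.e (nat_lit 164022) (nat_lit 46) (.e (nat_lit 704738) (nat_lit 11) (.e (nat_lit 16412) (nat_lit 2) .nil))))))) (.g (nat_lit 4) .nil .nil)))) (.nd (nat_lit 5) 
(.lf (nat_lit 271001) (.g (nat_lit 3015) (.e (nat_lit 196666) (nat_lit 13) (.e (nat_lit 65610) (nat_lit 10) (.e (nat_lit 344117) (nat_lit 21) (.e (nat_lit 516151) (nat_lit 9) (.e (nat_lit 426097) (nat_lit 1) (.e (nat_lit 164401) (nat_lit 256) (.e (nat_lit 65280) (nat_lit 63) .nil))))))) (.g (nat_lit 6) .nil .nil))) 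
(.lf (nat_lit 271033) (.g (nat_lit 2343) (.e (nat_lit 196666) (nat_lit 13) (.e (nat_lit 65610) (nat_lit 10) (.e (nat_lit 344129) (nat_lit 26) (.e (nat_lit 557070) (nat_lit 9) (.e (nat_lit 253) (nat_lit 21) (.e (nat_lit 335894) (nat_lit 0) (.e (nat_lit 6619) (nat_lit 357) (.e (nat_lit 2668) (nat_lit 167) .nil)))))))) (.g (nat_lit 4) .nil .nil)))))) 
(.nd (nat_lit 3) (.nd (nat_lit 4) (.nd (nat_lit 5) 
(.lf (nat_lit 270981) (.g (nat_lit 3596) (.e (nat_lit 196666) (nat_lit 13) (.e (nat_lit 65610) (nat_lit 10) (.e (nat_lit 344117) (nat_lit 21) (.e (nat_lit 516145) (nat_lit 9) (.e (nat_lit 433920) (nat_lit 1) (.e (nat_lit 164398) (nat_lit 256) (.e (nat_lit 65280) (nat_lit 63) .nil))))))) (.g (nat_lit 6) .nil .nil))) 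
(.lf (nat_lit 271013) (.g (nat_lit 2822) (.e (nat_lit 196666) (nat_lit 13) (.e (nat_lit 65610) (nat_lit 10) (.e (nat_lit 344117) (nat_lit 21) (.e (nat_lit 516151) (nat_lit 9) (.e (nat_lit 426365) (nat_lit 15) (.e (nat_lit 969) (nat_lit 81) (.e (nat_lit 5979) (nat_lit 326) (.e (nat_lit 2433) (nat_lit 157) (.e (nat_lit 2668) (nat_lit 167) .nil))))))))) (.g (nat_lit 4) .nil .nil)))) (.nd (nat_lit 5) 
(.lf (nat_lit 270997) (.g (nat_lit 2854) (.e (nat_lit 196666) (nat_lit 13) (.e (nat_lit 65610) (nat_lit 10) (.e (nat_lit 344117) (nat_lit 21) (.e (nat_lit 516151) (nat_lit 9) (.e (nat_lit 426097) (nat_lit 1) (.e (nat_lit 164396) (nat_lit 256) (.e (nat_lit 65280) (nat_lit 63) .nil))))))) (.g (nat_lit 6) .nil .nil))) 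
(.lf (nat_lit 271029) (.g (nat_lit 4041) (.e (nat_lit 196666) (nat_lit 13) (.e (nat_lit 65610) (nat_lit 10) (.e (nat_lit 344129) (nat_lit 26) (.e (nat_lit 557067) (nat_lit 9) (.e (nat_lit 290) (nat_lit 21) (.e (nat_lit 335895) (nat_lit 0) (.e (nat_lit 6696) (nat_lit 357) (.e (nat_lit 2666) (nat_lit 167) .nil)))))))) (.g (nat_lit 6) .nil .nil))))) (.nd (nat_lit 4) (.nd (nat_lit 5) 
(.lf (nat_lit 270989) (.g (nat_lit 3181) (.e (nat_lit 196666) (nat_lit 13) (.e (nat_lit 65610) (nat_lit 10) (.e (nat_lit 344117) (nat_lit 21) (.e (nat_lit 516151) (nat_lit 9) (.e (nat_lit 426034) (nat_lit 0) .nil))))) .nil)) 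
(.lf (nat_lit 271021) (.g (nat_lit 1946) (.e (nat_lit 196666) (nat_lit 13) (.e (nat_lit 65610) (nat_lit 10) (.e (nat_lit 344129) (nat_lit 26) (.e (nat_lit 557067) (nat_lit 9) (.e (nat_lit 249) (nat_lit 21) .nil))))) .nil))) (.nd (nat_lit 5) 
(.lf (nat_lit 271005) (.g (nat_lit 2570) (.e (nat_lit 196666) (nat_lit 13) (.e (nat_lit 65610) (nat_lit 10) (.e (nat_lit 344117) (nat_lit 21) (.e (nat_lit 516151) (nat_lit 9) (.e (nat_lit 426101) (nat_lit 1) (.e (nat_lit 164401) (nat_lit 256) (.e (nat_lit 65280) (nat_lit 63) .nil))))))) (.g (nat_lit 4) .nil .nil))) 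
(.lf (nat_lit 271037) (.g (nat_lit 3026) (.e (nat_lit 196666) (nat_lit 13) (.e (nat_lit 65610) (nat_lit 10) (.e (nat_lit 344129) (nat_lit 26) (.e (nat_lit 557074) (nat_lit 9) (.e (nat_lit 284) (nat_lit 21) (.e (nat_lit 335895) (nat_lit 0) (.e (nat_lit 6619) (nat_lit 357) (.e (nat_lit 2668) (nat_lit 167) .nil)))))))) (.g (nat_lit 5) .nil .nil))))))) 
(.nd (nat_lit 2) (.nd (nat_lit 3) (.nd (nat_lit 4) (.nd (nat_lit 5) 
(.lf (nat_lit 270979) (.g (nat_lit 3953) (.e (nat_lit 196666) (nat_lit 13) (.e (nat_lit 65610) (nat_lit 10) (.e (nat_lit 344117) (nat_lit 21) (.e (nat_lit 516145) (nat_lit 9) (.e (nat_lit 426111) (nat_lit 1) (.e (nat_lit 164398) (nat_lit 256) (.e (nat_lit 65280) (nat_lit 63) .nil))))))) (.g (nat_lit 5) .nil .nil))) 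
(.lf (nat_lit 271011) (.g (nat_lit 2668) (.e (nat_lit 196666) (nat_lit 13) (.e (nat_lit 65610) (nat_lit 10) (.e (nat_lit 344117) (nat_lit 21) (.e (nat_lit 516151) (nat_lit 9) (.e (nat_lit 433920) (nat_lit 1) (.e (nat_lit 164399) (nat_lit 256) (.e (nat_lit 65280) (nat_lit 63) .nil))))))) (.g (nat_lit 4) .nil .nil)))) (.nd (nat_lit 5) 
(.lf (nat_lit 270995) (.g (nat_lit 3167) (.e (nat_lit 196666) (nat_lit 13) (.e (nat_lit 65610) (nat_lit 10) (.e (nat_lit 344117) (nat_lit 21) (.e (nat_lit 516151) (nat_lit 9) (.e (nat_lit 426049) (nat_lit 0) .nil))))) .nil)) 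
(.lf (nat_lit 271027) (.g (nat_lit 3096) (.e (nat_lit 196666) (nat_lit 13) (.e (nat_lit 65610) (nat_lit 10) (.e (nat_lit 344129) (nat_lit 26) (.e (nat_lit 557067) (nat_lit 9) (.e (nat_lit 272) (nat_lit 21) (.e (nat_lit 336229) (nat_lit 14) (.e (nat_lit 401425) (nat_lit 2) .nil))))))) (.g (nat_lit 4) .nil .nil))))) (.nd (nat_lit 4) (.nd (nat_lit 5) 
(.lf (nat_lit 270987) (.g (nat_lit 3203) (.e (nat_lit 196666) (nat_lit 13) (.e (nat_lit 65610) (nat_lit 10) (.e (nat_lit 344117) (nat_lit 21) (.e (nat_lit 516151) (nat_lit 9) (.e (nat_lit 426020) (nat_lit 0) .nil))))) .nil)) 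
(.lf (nat_lit 271019) (.g (nat_lit 1856) (.e (nat_lit 196666) (nat_lit 13) (.e (nat_lit 65610) (nat_lit 10) (.e (nat_lit 344129) (nat_lit 26) (.e (nat_lit 557065) (nat_lit 9) (.e (nat_lit 290) (nat_lit 21) .nil))))) .nil))) (.nd (nat_lit 5) 
(.lf (nat_lit 271003) (.g (nat_lit 4445) (.e (nat_lit 196666) (nat_lit 13) (.e (nat_lit 65610) (nat_lit 10) (.e (nat_lit 344117) (nat_lit 21) (.e (nat_lit 516151) (nat_lit 9) (.e (nat_lit 426101) (nat_lit 1) (.e (nat_lit 164398) (nat_lit 256) (.e (nat_lit 65280) (nat_lit 63) .nil))))))) (.g (nat_lit 6) .nil .nil))) 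
(.lf (nat_lit 271035) (.g (nat_lit 3096) (.e (nat_lit 196666) (nat_lit 13) (.e (nat_lit 65610) (nat_lit 10) (.e (nat_lit 344129) (nat_lit 26) (.e (nat_lit 557074) (nat_lit 9) (.e (nat_lit 284) (nat_lit 21) (.e (nat_lit 335892) (nat_lit 0) (.e (nat_lit 6619) (nat_lit 357) (.e (nat_lit 2668) (nat_lit 167) .nil)))))))) (.g (nat_lit 5) .nil .nil)))))) 
(.nd (nat_lit 3) (.nd (nat_lit 4) (.nd (nat_lit 5) 
(.lf (nat_lit 270983) (.g (nat_lit 2701) (.e (nat_lit 196666) (nat_lit 13) (.e (nat_lit 65610) (nat_lit 10) (.e (nat_lit 344117) (nat_lit 21) (.e (nat_lit 516145) (nat_lit 9) (.e (nat_lit 433920) (nat_lit 1) (.e (nat_lit 164401) (nat_lit 256) (.e (nat_lit 65280) (nat_lit 63) .nil))))))) (.g (nat_lit 4) .nil .nil))) 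
(.lf (nat_lit 271015) (.g (nat_lit 2713) (.e (nat_lit 196666) (nat_lit 13) (.e (nat_lit 65610) (nat_lit 10) (.e (nat_lit 344117) (nat_lit 21) (.e (nat_lit 516184) (nat_lit 16) (.e (nat_lit 499456) (nat_lit 14) .nil))))) .nil))) (.nd (nat_lit 5) 
(.lf (nat_lit 270999) (.g (nat_lit 3427) (.e (nat_lit 196666) (nat_lit 13) (.e (nat_lit 65610) (nat_lit 10) (.e (nat_lit 344117) (nat_lit 21) (.e (nat_lit 516151) (nat_lit 9) (.e (nat_lit 426097) (nat_lit 1) (.e (nat_lit 164398) (nat_lit 256) (.e (nat_lit 65280) (nat_lit 63) .nil))))))) (.g (nat_lit 6) .nil .nil))) 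
(.lf (nat_lit 271031) (.g (nat_lit 3403) (.e (nat_lit 196666) (nat_lit 13) (.e (nat_lit 65610) (nat_lit 10) (.e (nat_lit 344129) (nat_lit 26) (.e (nat_lit 557067) (nat_lit 9) (.e (nat_lit 290) (nat_lit 21) (.e (nat_lit 336230) (nat_lit 14) (.e (nat_lit 401425) (nat_lit 2) .nil))))))) (.g (nat_lit 4) .nil .nil))))) (.nd (nat_lit 4) (.nd (nat_lit 5) 
(.lf (nat_lit 270991) (.g (nat_lit 3164) (.e (nat_lit 196666) (nat_lit 13) (.e (nat_lit 65610) (nat_lit 10) (.e (nat_lit 344117) (nat_lit 21) (.e (nat_lit 516151) (nat_lit 9) (.e (nat_lit 426040) (nat_lit 0) .nil))))) .nil)) 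
(.lf (nat_lit 271023) (.g (nat_lit 2375) (.e (nat_lit 196666) (nat_lit 13) (.e (nat_lit 65610) (nat_lit 10) (.e (nat_lit 344129) (nat_lit 26) (.e (nat_lit 557067) (nat_lit 9) (.e (nat_lit 249) (nat_lit 21) (.e (nat_lit 335894) (nat_lit 0) (.e (nat_lit 6696) (nat_lit 357) (.e (nat_lit 2666) (nat_lit 167) .nil)))))))) (.g (nat_lit 4) .nil .nil)))) (.nd (nat_lit 5) 
(.lf (nat_lit 271007) (.g (nat_lit 5094) (.e (nat_lit 196666) (nat_lit 13) (.e (nat_lit 65610) (nat_lit 10) (.e (nat_lit 344117) (nat_lit 21) (.e (nat_lit 516151) (nat_lit 9) (.e (nat_lit 426102) (nat_lit 1) (.e (nat_lit 164398) (nat_lit 256) (.e (nat_lit 65280) (nat_lit 63) .nil))))))) (.g (nat_lit 6) .nil .nil))) 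
(.lf (nat_lit 271039) (.g (nat_lit 3585) (.e (nat_lit 196666) (nat_lit 13) (.e (nat_lit 65610) (nat_lit 10) (.e (nat_lit 344129) (nat_lit 26) (.e (nat_lit 557074) (nat_lit 9) (.e (nat_lit 284) (nat_lit 21) (.e (nat_lit 335914) (nat_lit 0) (.e (nat_lit 6684) (nat_lit 357) (.e (nat_lit 2664) (nat_lit 167) .nil)))))))) (.g (nat_lit 5) .nil .nil)))))))))

noncomputable def tv3476 : DT := (.nd (nat_lit 0) (.nd (nat_lit 1) (.nd (nat_lit 2) (.nd (nat_lit 3) (.nd (nat_lit 4) (.nd (nat_lit 5) 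
(.lf (nat_lit 271040) (.g (nat_lit 2316) (.e (nat_lit 196666) (nat_lit 13) (.e (nat_lit 65610) (nat_lit 10) (.e (nat_lit 344129) (nat_lit 26) (.e (nat_lit 557074) (nat_lit 9) (.e (nat_lit 284) (nat_lit 21) (.e (nat_lit 336229) (nat_lit 14) (.e (nat_lit 401423) (nat_lit 2) .nil))))))) (.g (nat_lit 4) .nil .nil))) 
(.lf (nat_lit 271072) (.g (nat_lit 1756) (.e (nat_lit 196666) (nat_lit 13) (.e (nat_lit 65610) (nat_lit 10) (.e (nat_lit 344133) (nat_lit 26) (.e (nat_lit 557087) (nat_lit 11) .nil)))) .nil))) (.nd (nat_lit 5) 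
(.lf (nat_lit 271056) (.g (nat_lit 5095) (.e (nat_lit 196666) (nat_lit 13) (.e (nat_lit 65610) (nat_lit 10) (.e (nat_lit 344129) (nat_lit 26) (.e (nat_lit 557090) (nat_lit 12) (.e (nat_lit 163850) (nat_lit 0) (.e (nat_lit 6425) (nat_lit 342) (.e (nat_lit 229402) (nat_lit 12) (.e (nat_lit 426113) (nat_lit 2) .nil)))))))) (.g (nat_lit 6) .nil .nil))) 
(.lf (nat_lit 271088) (.g (nat_lit 2676) (.e (nat_lit 196666) (nat_lit 13) (.e (nat_lit 65617) (nat_lit 10) (.e (nat_lit 344127) (nat_lit 26) (.e (nat_lit 557087) (nat_lit 11) (.e (nat_lit 24665) (nat_lit 14) (.e (nat_lit 409344) (nat_lit 2) .nil)))))) (.g (nat_lit 5) .nil .nil))))) (.nd (nat_lit 4) (.nd (nat_lit 5) 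
(.lf (nat_lit 271048) (.g (nat_lit 2673) (.e (nat_lit 196666) (nat_lit 13) (.e (nat_lit 65610) (nat_lit 10) (.e (nat_lit 344129) (nat_lit 26) (.e (nat_lit 557089) (nat_lit 12) (.e (nat_lit 163843) (nat_lit 0) (.e (nat_lit 6418) (nat_lit 341) (.e (nat_lit 163908) (nat_lit 12) (.e (nat_lit 426113) (nat_lit 2) .nil)))))))) (.g (nat_lit 4) .nil .nil))) 
(.lf (nat_lit 271080) (.g (nat_lit 4190) (.e (nat_lit 196666) (nat_lit 13) (.e (nat_lit 65617) (nat_lit 10) (.e (nat_lit 344117) (nat_lit 21) (.e (nat_lit 516139) (nat_lit 7) (.e (nat_lit 409651) (nat_lit 19) (.e (nat_lit 311312) (nat_lit 2) .nil)))))) (.g (nat_lit 4) .nil .nil)))) (.nd (nat_lit 5) 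
(.lf (nat_lit 271064) (.g (nat_lit 3912) (.e (nat_lit 196666) (nat_lit 13) (.e (nat_lit 65610) (nat_lit 10) (.e (nat_lit 344129) (nat_lit 26) (.e (nat_lit 557090) (nat_lit 12) (.e (nat_lit 164021) (nat_lit 46) (.e (nat_lit 704741) (nat_lit 11) (.e (nat_lit 16412) (nat_lit 2) .nil))))))) (.g (nat_lit 0) .nil .nil))) 
(.lf (nat_lit 271096) (.g (nat_lit 2721) (.e (nat_lit 196666) (nat_lit 13) (.e (nat_lit 65617) (nat_lit 10) (.e (nat_lit 344127) (nat_lit 26) (.e (nat_lit 557090) (nat_lit 12) (.e (nat_lit 163847) (nat_lit 0) (.e (nat_lit 6420) (nat_lit 341) (.e (nat_lit 163908) (nat_lit 12) (.e (nat_lit 426113) (nat_lit 2) .nil)))))))) (.g (nat_lit 4) .nil .nil)))))) 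
(.nd (nat_lit 3) (.nd (nat_lit 4) (.nd (nat_lit 5) 
(.lf (nat_lit 271044) (.g (nat_lit 2827) (.e (nat_lit 196666) (nat_lit 13) (.e (nat_lit 65610) (nat_lit 10) (.e (nat_lit 344129) (nat_lit 26) (.e (nat_lit 557084) (nat_lit 10) (.e (nat_lit 8285) (nat_lit 51) (.e (nat_lit 4700) (nat_lit 275) (.e (nat_lit 1125) (nat_lit 83) (.e (nat_lit 16413) (nat_lit 2) .nil)))))))) (.g (nat_lit 4) .nil .nil))) 
(.lf (nat_lit 271076) (.g (nat_lit 1115) (.e (nat_lit 196666) (nat_lit 13) (.e (nat_lit 65617) (nat_lit 10) (.e (nat_lit 344117) (nat_lit 21) (.e (nat_lit 516098) (nat_lit 0) .nil)))) .nil))) (.nd (nat_lit 5) 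
(.lf (nat_lit 271060) (.g (nat_lit 3607) (.e (nat_lit 196666) (nat_lit 13) (.e (nat_lit 65610) (nat_lit 10) (.e (nat_lit 344129) (nat_lit 26) (.e (nat_lit 557090) (nat_lit 12) (.e (nat_lit 163850) (nat_lit 0) (.e (nat_lit 6427) (nat_lit 342) (.e (nat_lit 229402) (nat_lit 12) (.e (nat_lit 426113) (nat_lit 2) .nil)))))))) (.g (nat_lit 5) .nil .nil))) 
(.lf (nat_lit 271092) (.g (nat_lit 2798) (.e (nat_lit 196666) (nat_lit 13) (.e (nat_lit 65617) (nat_lit 10) (.e (nat_lit 344127) (nat_lit 26) (.e (nat_lit 557090) (nat_lit 12) (.e (nat_lit 163844) (nat_lit 0) (.e (nat_lit 6418) (nat_lit 341) (.e (nat_lit 163908) (nat_lit 12) (.e (nat_lit 426120) (nat_lit 2) .nil)))))))) (.g (nat_lit 4) .nil .nil))))) (.nd (nat_lit 4) (.nd (nat_lit 5) 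
(.lf (nat_lit 271052) (.g (nat_lit 2615) (.e (nat_lit 196666) (nat_lit 13) (.e (nat_lit 65610) (nat_lit 10) (.e (nat_lit 344129) (nat_lit 26) (.e (nat_lit 557090) (nat_lit 12) (.e (nat_lit 163840) (nat_lit 0) (.e (nat_lit 6420) (nat_lit 341) (.e (nat_lit 163908) (nat_lit 12) (.e (nat_lit 426113) (nat_lit 2) .nil)))))))) (.g (nat_lit 4) .nil .nil))) 
(.lf (nat_lit 271084) (.g (nat_lit 2012) (.e (nat_lit 196666) (nat_lit 13) (.e (nat_lit 65617) (nat_lit 10) (.e (nat_lit 344127) (nat_lit 26) (.e (nat_lit 557067) (nat_lit 9) (.e (nat_lit 220) (nat_lit 20) (.e (nat_lit 327684) (nat_lit 0) (.e (nat_lit 5627) (nat_lit 312) (.e (nat_lit 2668) (nat_lit 167) .nil)))))))) (.g (nat_lit 4) .nil .nil)))) (.nd (nat_lit 5) 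
(.lf (nat_lit 271068) (.g (nat_lit 4617) (.e (nat_lit 196666) (nat_lit 13) (.e (nat_lit 65610) (nat_lit 10) (.e (nat_lit 344129) (nat_lit 26) (.e (nat_lit 557093) (nat_lit 12) (.e (nat_lit 164022) (nat_lit 46) (.e (nat_lit 704738) (nat_lit 11) (.e (nat_lit 16412) (nat_lit 2) .nil))))))) (.g (nat_lit 6) .nil .nil))) 
(.lf (nat_lit 271100) (.g (nat_lit 1409) (.e (nat_lit 196666) (nat_lit 13) (.e (nat_lit 65617) (nat_lit 10) (.e (nat_lit 344129) (nat_lit 26) (.e (nat_lit 557087) (nat_lit 11) .nil)))) .nil)))))) (.nd (nat_lit 2) (.nd (nat_lit 3) (.nd (nat_lit 4) (.nd (nat_lit 5) 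
(.lf (nat_lit 271042) (.g (nat_lit 2845) (.e (nat_lit 196666) (nat_lit 13) (.e (nat_lit 65610) (nat_lit 10) (.e (nat_lit 344129) (nat_lit 26) (.e (nat_lit 557074) (nat_lit 9) (.e (nat_lit 7936) (nat_lit 22) (.e (nat_lit 344068) (nat_lit 0) (.e (nat_lit 2664) (nat_lit 167) .nil))))))) (.g (nat_lit 4) .nil .nil))) 
(.lf (nat_lit 271074) (.g (nat_lit 2036) (.e (nat_lit 196666) (nat_lit 13) (.e (nat_lit 65617) (nat_lit 10) (.e (nat_lit 344091) (nat_lit 18) (.e (nat_lit 3957) (nat_lit 239) (.e (nat_lit 1208) (nat_lit 89) (.e (nat_lit 73782) (nat_lit 32) (.e (nat_lit 2663) (nat_lit 167) .nil))))))) (.g (nat_lit 4) .nil .nil)))) (.nd (nat_lit 5) 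
(.lf (nat_lit 271058) (.g (nat_lit 3726) (.e (nat_lit 196666) (nat_lit 13) (.e (nat_lit 65610) (nat_lit 10) (.e (nat_lit 344129) (nat_lit 26) (.e (nat_lit 557090) (nat_lit 12) (.e (nat_lit 163850) (nat_lit 0) (.e (nat_lit 6425) (nat_lit 342) (.e (nat_lit 229402) (nat_lit 12) (.e (nat_lit 426118) (nat_lit 2) .nil)))))))) (.g (nat_lit 4) .nil .nil))) 
(.lf (nat_lit 271090) (.g (nat_lit 2802) (.e (nat_lit 196666) (nat_lit 13) (.e (nat_lit 65617) (nat_lit 10) (.e (nat_lit 344127) (nat_lit 26) (.e (nat_lit 557090) (nat_lit 12) (.e (nat_lit 163843) (nat_lit 0) (.e (nat_lit 6420) (nat_lit 341) (.e (nat_lit 163908) (nat_lit 12) (.e (nat_lit 426117) (nat_lit 2) .nil)))))))) (.g (nat_lit 4) .nil .nil))))) (.nd (nat_lit 4) (.nd (nat_lit 5) 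
(.lf (nat_lit 271050) (.g (nat_lit 2318) (.e (nat_lit 196666) (nat_lit 13) (.e (nat_lit 65610) (nat_lit 10) (.e (nat_lit 344129) (nat_lit 26) (.e (nat_lit 557089) (nat_lit 12) (.e (nat_lit 163848) (nat_lit 0) (.e (nat_lit 6420) (nat_lit 341) (.e (nat_lit 163908) (nat_lit 12) (.e (nat_lit 426113) (nat_lit 2) .nil)))))))) (.g (nat_lit 4) .nil .nil))) 
(.lf (nat_lit 271082) (.g (nat_lit 2381) (.e (nat_lit 196666) (nat_lit 13) (.e (nat_lit 65617) (nat_lit 10) (.e (nat_lit 344117) (nat_lit 21) (.e (nat_lit 516142) (nat_lit 8) (.e (nat_lit 425728) (nat_lit 19) (.e (nat_lit 311311) (nat_lit 2) .nil)))))) (.g (nat_lit 4) .nil .nil)))) (.nd (nat_lit 5) 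
(.lf (nat_lit 271066) (.g (nat_lit 6797) (.e (nat_lit 196666) (nat_lit 13) (.e (nat_lit 65610) (nat_lit 10) (.e (nat_lit 344129) (nat_lit 26) (.e (nat_lit 557092) (nat_lit 12) (.e (nat_lit 164022) (nat_lit 46) (.e (nat_lit 704738) (nat_lit 11) (.e (nat_lit 16412) (nat_lit 2) .nil))))))) (.g (nat_lit 0) .nil .nil))) 
(.lf (nat_lit 271098) (.g (nat_lit 3445) (.e (nat_lit 196666) (nat_lit 13) (.e (nat_lit 65617) (nat_lit 10) (.e (nat_lit 344127) (nat_lit 26) (.e (nat_lit 557090) (nat_lit 12) (.e (nat_lit 164022) (nat_lit 46) (.e (nat_lit 704738) (nat_lit 11) (.e (nat_lit 16412) (nat_lit 2) .nil))))))) (.g (nat_lit 4) .nil .nil)))))) (.nd (nat_lit 3) (.nd (nat_lit 4) (.nd (nat_lit 5) 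
(.lf (nat_lit 271046) (.g (nat_lit 1826) (.e (nat_lit 196666) (nat_lit 13) (.e (nat_lit 65610) (nat_lit 10) (.e (nat_lit 344129) (nat_lit 26) (.e (nat_lit 557088) (nat_lit 12) .nil)))) .nil)) 
(.lf (nat_lit 271078) (.g (nat_lit 2747) (.e (nat_lit 196666) (nat_lit 13) (.e (nat_lit 65617) (nat_lit 10) (.e (nat_lit 344117) (nat_lit 21) (.e (nat_lit 516106) (nat_lit 0) (.e (nat_lit 6986) (nat_lit 377) .nil))))) .nil))) (.nd (nat_lit 5) 
(.lf (nat_lit 271062) (.g (nat_lit 2667) (.e (nat_lit 196666) (nat_lit 13) (.e (nat_lit 65610) (nat_lit 10) (.e (nat_lit 344129) (nat_lit 26) (.e (nat_lit 557090) (nat_lit 12) (.e (nat_lit 163850) (nat_lit 0) (.e (nat_lit 6428) (nat_lit 342) (.e (nat_lit 229402) (nat_lit 12) (.e (nat_lit 426113) (nat_lit 2) .nil)))))))) (.g (nat_lit 4) .nil .nil))) 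
(.lf (nat_lit 271094) (.g (nat_lit 2575) (.e (nat_lit 196666) (nat_lit 13) (.e (nat_lit 65617) (nat_lit 10) (.e (nat_lit 344127) (nat_lit 26) (.e (nat_lit 557090) (nat_lit 12) (.e (nat_lit 163847) (nat_lit 0) (.e (nat_lit 6416) (nat_lit 341) (.e (nat_lit 163908) (nat_lit 12) (.e (nat_lit 426113) (nat_lit 2) .nil)))))))) (.g (nat_lit 4) .nil .nil))))) (.nd (nat_lit 4) (.nd (nat_lit 5) 
(.lf (nat_lit 271054) (.g (nat_lit 2701) (.e (nat_lit 196666) (nat_lit 13) (.e (nat_lit 65610) (nat_lit 10) (.e (nat_lit 344129) (nat_lit 26) (.e (nat_lit 557090) (nat_lit 12) (.e (nat_lit 163843) (nat_lit 0) (.e (nat_lit 6421) (nat_lit 341) (.e (nat_lit 163908) (nat_lit 12) (.e (nat_lit 426113) (nat_lit 2) .nil)))))))) (.g (nat_lit 4) .nil .nil))) 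
(.lf (nat_lit 271086) (.g (nat_lit 2099) (.e (nat_lit 196666) (nat_lit 13) (.e (nat_lit 65617) (nat_lit 10) (.e (nat_lit 344127) (nat_lit 26) (.e (nat_lit 557085) (nat_lit 11) (.e (nat_lit 24665) (nat_lit 14) (.e (nat_lit 401424) (nat_lit 2) .nil)))))) (.g (nat_lit 4) .nil .nil)))) (.nd (nat_lit 5) 
(.lf (nat_lit 271070) (.g (nat_lit 4496) (.e (nat_lit 196666) (nat_lit 13) (.e (nat_lit 65610) (nat_lit 10) (.e (nat_lit 344131) (nat_lit 26) (.e (nat_lit 557093) (nat_lit 12) (.e (nat_lit 164022) (nat_lit 46) (.e (nat_lit 704738) (nat_lit 11) (.e (nat_lit 16412) (nat_lit 2) .nil))))))) (.g (nat_lit 6) .nil .nil))) 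
(.lf (nat_lit 271102) (.g (nat_lit 1853) (.e (nat_lit 196666) (nat_lit 13) (.e (nat_lit 65617) (nat_lit 10) (.e (nat_lit 344130) (nat_lit 26) (.e (nat_lit 557065) (nat_lit 9) (.e (nat_lit 293) (nat_lit 21) .nil))))) .nil))))))) (.nd (nat_lit 1) (.nd (nat_lit 2) (.nd (nat_lit 3) (.nd (nat_lit 4) (.nd (nat_lit 5) 
(.lf (nat_lit 271041) (.g (nat_lit 2160) (.e (nat_lit 196666) (nat_lit 13) (.e (nat_lit 65610) (nat_lit 10) (.e (nat_lit 344129) (nat_lit 26) (.e (nat_lit 557074) (nat_lit 9) (.e (nat_lit 284) (nat_lit 21) (.e (nat_lit 336230) (nat_lit 14) (.e (nat_lit 401423) (nat_lit 2) .nil))))))) (.g (nat_lit 4) .nil .nil))) 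
(.lf (nat_lit 271073) (.g (nat_lit 5692) (.e (nat_lit 196666) (nat_lit 13) (.e (nat_lit 65610) (nat_lit 10) (.e (nat_lit 344133) (nat_lit 26) (.e (nat_lit 557091) (nat_lit 12) (.e (nat_lit 164022) (nat_lit 46) (.e (nat_lit 704738) (nat_lit 11) (.e (nat_lit 16412) (nat_lit 2) .nil))))))) (.g (nat_lit 0) .nil .nil)))) (.nd (nat_lit 5) 
(.lf (nat_lit 271057) (.g (nat_lit 3631) (.e (nat_lit 196666) (nat_lit 13) (.e (nat_lit 65610) (nat_lit 10) (.e (nat_lit 344129) (nat_lit 26) (.e (nat_lit 557090) (nat_lit 12) (.e (nat_lit 163850) (nat_lit 0) (.e (nat_lit 6425) (nat_lit 342) (.e (nat_lit 229402) (nat_lit 12) (.e (nat_lit 426117) (nat_lit 2) .nil)))))))) (.g (nat_lit 5) .nil .nil))) 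
(.lf (nat_lit 271089) (.g (nat_lit 2739) (.e (nat_lit 196666) (nat_lit 13) (.e (nat_lit 65617) (nat_lit 10) (.e (nat_lit 344127) (nat_lit 26) (.e (nat_lit 557090) (nat_lit 12) (.e (nat_lit 163843) (nat_lit 0) (.e (nat_lit 6416) (nat_lit 341) (.e (nat_lit 163908) (nat_lit 12) (.e (nat_lit 426117) (nat_lit 2) .nil)))))))) (.g (nat_lit 4) .nil .nil))))) (.nd (nat_lit 4) (.nd (nat_lit 5) 
(.lf (nat_lit 271049) (.g (nat_lit 3478) (.e (nat_lit 196666) (nat_lit 13) (.e (nat_lit 65610) (nat_lit 10) (.e (nat_lit 344129) (nat_lit 26) (.e (nat_lit 557089) (nat_lit 12) (.e (nat_lit 163843) (nat_lit 0) (.e (nat_lit 6420) (nat_lit 341) (.e (nat_lit 163908) (nat_lit 12) (.e (nat_lit 426113) (nat_lit 2) .nil)))))))) (.g (nat_lit 5) .nil .nil))) 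
(.lf (nat_lit 271081) (.g (nat_lit 3195) (.e (nat_lit 196666) (nat_lit 13) (.e (nat_lit 65617) (nat_lit 10) (.e (nat_lit 344117) (nat_lit 21) (.e (nat_lit 516142) (nat_lit 8) (.e (nat_lit 417830) (nat_lit 19) (.e (nat_lit 311311) (nat_lit 2) .nil)))))) (.g (nat_lit 5) .nil .nil)))) (.nd (nat_lit 5) 
(.lf (nat_lit 271065) (.g (nat_lit 2401) (.e (nat_lit 196666) (nat_lit 13) (.e (nat_lit 65610) (nat_lit 10) (.e (nat_lit 344129) (nat_lit 26) (.e (nat_lit 557091) (nat_lit 12) .nil)))) .nil)) 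
(.lf (nat_lit 271097) (.g (nat_lit 3165) (.e (nat_lit 196666) (nat_lit 13) (.e (nat_lit 65617) (nat_lit 10) (.e (nat_lit 344127) (nat_lit 26) (.e (nat_lit 557090) (nat_lit 12) (.e (nat_lit 164022) (nat_lit 46) (.e (nat_lit 704737) (nat_lit 11) (.e (nat_lit 16412) (nat_lit 2) .nil))))))) (.g (nat_lit 4) .nil .nil)))))) (.nd (nat_lit 3) (.nd (nat_lit 4) (.nd (nat_lit 5) 
(.lf (nat_lit 271045) (.g (nat_lit 2534) (.e (nat_lit 196666) (nat_lit 13) (.e (nat_lit 65610) (nat_lit 10) (.e (nat_lit 344129) (nat_lit 26) (.e (nat_lit 557084) (nat_lit 10) (.e (nat_lit 8285) (nat_lit 51) (.e (nat_lit 4700) (nat_lit 275) (.e (nat_lit 1126) (nat_lit 83) (.e (nat_lit 16413) (nat_lit 2) .nil)))))))) (.g (nat_lit 4) .nil .nil))) 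
(.lf (nat_lit 271077) (.g (nat_lit 1679) (.e (nat_lit 196666) (nat_lit 13) (.e (nat_lit 65617) (nat_lit 10) (.e (nat_lit 344117) (nat_lit 21) (.e (nat_lit 516102) (nat_lit 0) (.e (nat_lit 6989) (nat_lit 377) .nil))))) .nil))) (.nd (nat_lit 5) 
(.lf (nat_lit 271061) (.g (nat_lit 2340) (.e (nat_lit 196666) (nat_lit 13) (.e (nat_lit 65610) (nat_lit 10) (.e (nat_lit 344129) (nat_lit 26) (.e (nat_lit 557090) (nat_lit 12) (.e (nat_lit 163850) (nat_lit 0) (.e (nat_lit 6428) (nat_lit 342) (.e (nat_lit 229399) (nat_lit 12) (.e (nat_lit 426113) (nat_lit 2) .nil)))))))) (.g (nat_lit 4) .nil .nil))) 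
(.lf (nat_lit 271093) (.g (nat_lit 3247) (.e (nat_lit 196666) (nat_lit 13) (.e (nat_lit 65617) (nat_lit 10) (.e (nat_lit 344127) (nat_lit 26) (.e (nat_lit 557090) (nat_lit 12) (.e (nat_lit 163844) (nat_lit 0) (.e (nat_lit 6420) (nat_lit 341) (.e (nat_lit 163908) (nat_lit 12) (.e (nat_lit 426120) (nat_lit 2) .nil)))))))) (.g (nat_lit 4) .nil .nil))))) (.nd (nat_lit 4) (.nd (nat_lit 5) 
(.lf (nat_lit 271053) (.g (nat_lit 1833) (.e (nat_lit 196666) (nat_lit 13) (.e (nat_lit 65610) (nat_lit 10) (.e (nat_lit 344129) (nat_lit 26) (.e (nat_lit 557090) (nat_lit 12) (.e (nat_lit 163841) (nat_lit 0) (.e (nat_lit 6418) (nat_lit 341) (.e (nat_lit 163908) (nat_lit 12) (.e (nat_lit 426113) (nat_lit 2) .nil)))))))) (.g (nat_lit 4) .nil .nil))) 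
(.lf (nat_lit 271085) (.g (nat_lit 1160) (.e (nat_lit 196666) (nat_lit 13) (.e (nat_lit 65617) (nat_lit 10) (.e (nat_lit 344127) (nat_lit 26) (.e (nat_lit 557072) (nat_lit 9) (.e (nat_lit 7936) (nat_lit 22) .nil))))) .nil))) (.nd (nat_lit 5) 
(.lf (nat_lit 271069) (.g (nat_lit 3837) (.e (nat_lit 196666) (nat_lit 13) (.e (nat_lit 65610) (nat_lit 10) (.e (nat_lit 344129) (nat_lit 26) (.e (nat_lit 557093) (nat_lit 12) (.e (nat_lit 164023) (nat_lit 46) (.e (nat_lit 704737) (nat_lit 11) (.e (nat_lit 16412) (nat_lit 2) .nil))))))) (.g (nat_lit 5) .nil .nil))) 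
(.lf (nat_lit 271101) (.g (nat_lit 2837) (.e (nat_lit 196666) (nat_lit 13) (.e (nat_lit 65617) (nat_lit 10) (.e (nat_lit 344130) (nat_lit 26) (.e (nat_lit 557065) (nat_lit 9) (.e (nat_lit 214) (nat_lit 19) (.e (nat_lit 319490) (nat_lit 0) (.e (nat_lit 5664) (nat_lit 312) (.e (nat_lit 2661) (nat_lit 167) .nil)))))))) (.g (nat_lit 4) .nil .nil))))))) 
(.nd (nat_lit 2) (.nd (nat_lit 3) (.nd (nat_lit 4) (.nd (nat_lit 5) 
(.lf (nat_lit 271043) (.g (nat_lit 2456) (.e (nat_lit 196666) (nat_lit 13) (.e (nat_lit 65610) (nat_lit 10) (.e (nat_lit 344129) (nat_lit 26) (.e (nat_lit 557074) (nat_lit 9) (.e (nat_lit 7936) (nat_lit 22) (.e (nat_lit 352000) (nat_lit 0) (.e (nat_lit 2666) (nat_lit 167) .nil))))))) (.g (nat_lit 4) .nil .nil))) 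
(.lf (nat_lit 271075) (.g (nat_lit 1154) (.e (nat_lit 196666) (nat_lit 13) (.e (nat_lit 65617) (nat_lit 10) (.e (nat_lit 344091) (nat_lit 18) (.e (nat_lit 3985) (nat_lit 239) .nil)))) .nil))) (.nd (nat_lit 5) 
(.lf (nat_lit 271059) (.g (nat_lit 3710) (.e (nat_lit 196666) (nat_lit 13) (.e (nat_lit 65610) (nat_lit 10) (.e (nat_lit 344129) (nat_lit 26) (.e (nat_lit 557090) (nat_lit 12) (.e (nat_lit 163850) (nat_lit 0) (.e (nat_lit 6425) (nat_lit 342) (.e (nat_lit 229402) (nat_lit 12) (.e (nat_lit 426120) (nat_lit 2) .nil)))))))) (.g (nat_lit 5) .nil .nil))) 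
(.lf (nat_lit 271091) (.g (nat_lit 3178) (.e (nat_lit 196666) (nat_lit 13) (.e (nat_lit 65617) (nat_lit 10) (.e (nat_lit 344127) (nat_lit 26) (.e (nat_lit 557090) (nat_lit 12) (.e (nat_lit 163844) (nat_lit 0) (.e (nat_lit 6416) (nat_lit 341) (.e (nat_lit 163908) (nat_lit 12) (.e (nat_lit 426120) (nat_lit 2) .nil)))))))) (.g (nat_lit 4) .nil .nil))))) (.nd (nat_lit 4) (.nd (nat_lit 5) 
(.lf (nat_lit 271051) (.g (nat_lit 2797) (.e (nat_lit 196666) (nat_lit 13) (.e (nat_lit 65610) (nat_lit 10) (.e (nat_lit 344129) (nat_lit 26) (.e (nat_lit 557089) (nat_lit 12) (.e (nat_lit 163850) (nat_lit 0) (.e (nat_lit 6425) (nat_lit 342) (.e (nat_lit 229401) (nat_lit 12) (.e (nat_lit 426113) (nat_lit 2) .nil)))))))) (.g (nat_lit 4) .nil .nil))) 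
(.lf (nat_lit 271083) (.g (nat_lit 1270) (.e (nat_lit 196666) (nat_lit 13) (.e (nat_lit 65617) (nat_lit 10) (.e (nat_lit 344126) (nat_lit 25) (.e (nat_lit 548888) (nat_lit 9) .nil)))) .nil))) (.nd (nat_lit 5) 
(.lf (nat_lit 271067) (.g (nat_lit 5294) (.e (nat_lit 196666) (nat_lit 13) (.e (nat_lit 65610) (nat_lit 10) (.e (nat_lit 344129) (nat_lit 26) (.e (nat_lit 557092) (nat_lit 12) (.e (nat_lit 164023) (nat_lit 46) (.e (nat_lit 704738) (nat_lit 11) (.e (nat_lit 16412) (nat_lit 2) .nil))))))) (.g (nat_lit 6) .nil .nil))) 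
(.lf (nat_lit 271099) (.g (nat_lit 1430) (.e (nat_lit 196666) (nat_lit 13) (.e (nat_lit 65617) (nat_lit 10) (.e (nat_lit 344127) (nat_lit 26) (.e (nat_lit 557093) (nat_lit 12) (.e (nat_lit 164022) (nat_lit 46) .nil))))) .nil))))) (.nd (nat_lit 3) (.nd (nat_lit 4) (.nd (nat_lit 5) 
(.lf (nat_lit 271047) (.g (nat_lit 3421) (.e (nat_lit 196666) (nat_lit 13) (.e (nat_lit 65610) (nat_lit 10) (.e (nat_lit 344129) (nat_lit 26) (.e (nat_lit 557089) (nat_lit 12) (.e (nat_lit 163843) (nat_lit 0) (.e (nat_lit 6416) (nat_lit 341) (.e (nat_lit 163908) (nat_lit 12) (.e (nat_lit 426113) (nat_lit 2) .nil)))))))) (.g (nat_lit 5) .nil .nil))) 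
(.lf (nat_lit 271079) (.g (nat_lit 3258) (.e (nat_lit 196666) (nat_lit 13) (.e (nat_lit 65617) (nat_lit 10) (.e (nat_lit 344117) (nat_lit 21) (.e (nat_lit 516139) (nat_lit 7) (.e (nat_lit 417536) (nat_lit 10) .nil))))) .nil))) (.nd (nat_lit 5) 
(.lf (nat_lit 271063) (.g (nat_lit 1898) (.e (nat_lit 196666) (nat_lit 13) (.e (nat_lit 65610) (nat_lit 10) (.e (nat_lit 344129) (nat_lit 26) (.e (nat_lit 557090) (nat_lit 12) (.e (nat_lit 164019) (nat_lit 45) .nil))))) .nil)) 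
(.lf (nat_lit 271095) (.g (nat_lit 2593) (.e (nat_lit 196666) (nat_lit 13) (.e (nat_lit 65617) (nat_lit 10) (.e (nat_lit 344127) (nat_lit 26) (.e (nat_lit 557090) (nat_lit 12) (.e (nat_lit 163847) (nat_lit 0) (.e (nat_lit 6418) (nat_lit 341) (.e (nat_lit 163908) (nat_lit 12) (.e (nat_lit 426113) (nat_lit 2) .nil)))))))) (.g (nat_lit 4) .nil .nil))))) (.nd (nat_lit 4) (.nd (nat_lit 5) 
(.lf (nat_lit 271055) (.g (nat_lit 2373) (.e (nat_lit 196666) (nat_lit 13) (.e (nat_lit 65610) (nat_lit 10) (.e (nat_lit 344129) (nat_lit 26) (.e (nat_lit 557090) (nat_lit 12) (.e (nat_lit 163849) (nat_lit 0) (.e (nat_lit 6418) (nat_lit 341) (.e (nat_lit 163908) (nat_lit 12) (.e (nat_lit 426113) (nat_lit 2) .nil)))))))) (.g (nat_lit 4) .nil .nil))) 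
(.lf (nat_lit 271087) (.g (nat_lit 3637) (.e (nat_lit 196666) (nat_lit 13) (.e (nat_lit 65617) (nat_lit 10) (.e (nat_lit 344127) (nat_lit 26) (.e (nat_lit 557087) (nat_lit 11) (.e (nat_lit 24665) (nat_lit 14) (.e (nat_lit 401424) (nat_lit 2) .nil)))))) (.g (nat_lit 5) .nil .nil)))) (.nd (nat_lit 5) 
(.lf (nat_lit 271071) (.g (nat_lit 5101) (.e (nat_lit 196666) (nat_lit 13) (.e (nat_lit 65610) (nat_lit 10) (.e (nat_lit 344132) (nat_lit 26) (.e (nat_lit 557093) (nat_lit 12) (.e (nat_lit 164022) (nat_lit 46) (.e (nat_lit 704738) (nat_lit 11) (.e (nat_lit 16412) (nat_lit 2) .nil))))))) (.g (nat_lit 0) .nil .nil))) 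
(.lf (nat_lit 271103) (.g (nat_lit 1825) (.e (nat_lit 196666) (nat_lit 13) (.e (nat_lit 65617) (nat_lit 10) (.e (nat_lit 344130) (nat_lit 26) (.e (nat_lit 557065) (nat_lit 9) (.e (nat_lit 297) (nat_lit 22) .nil))))) .nil))))))))

noncomputable def tv3477 : DT := (.nd (nat_lit 0) (.nd (nat_lit 1) (.nd (nat_lit 2) (.nd (nat_lit 3) (.nd (nat_lit 4) (.nd (nat_lit 5) 
(.lf (nat_lit 271104) (.g (nat_lit 2366) (.e (nat_lit 196666) (nat_lit 13) (.e (nat_lit 65617) (nat_lit 10) (.e (nat_lit 344130) (nat_lit 26) (.e (nat_lit 557065) (nat_lit 9) (.e (nat_lit 307) (nat_lit 22) (.e (nat_lit 352000) (nat_lit 0) (.e (nat_lit 2668) (nat_lit 167) .nil))))))) (.g (nat_lit 4) .nil .nil))) 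
(.lf (nat_lit 271136) (.g (nat_lit 2011) (.e (nat_lit 196666) (nat_lit 13) (.e (nat_lit 65617) (nat_lit 10) (.e (nat_lit 344130) (nat_lit 26) (.e (nat_lit 557090) (nat_lit 12) (.e (nat_lit 163843) (nat_lit 0) (.e (nat_lit 6416) (nat_lit 341) (.e (nat_lit 163902) (nat_lit 12) (.e (nat_lit 433920) (nat_lit 2) .nil)))))))) (.g (nat_lit 4) .nil .nil)))) (.nd (nat_lit 5) 
(.lf (nat_lit 271120) (.g (nat_lit 3521) (.e (nat_lit 196666) (nat_lit 13) (.e (nat_lit 65617) (nat_lit 10) (.e (nat_lit 344130) (nat_lit 26) (.e (nat_lit 557086) (nat_lit 11) (.e (nat_lit 24665) (nat_lit 14) (.e (nat_lit 401423) (nat_lit 2) .nil)))))) (.g (nat_lit 0) .nil .nil))) 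
(.lf (nat_lit 271152) (.g (nat_lit 3916) (.e (nat_lit 196666) (nat_lit 13) (.e (nat_lit 65617) (nat_lit 10) (.e (nat_lit 344130) (nat_lit 26) (.e (nat_lit 557090) (nat_lit 12) (.e (nat_lit 163850) (nat_lit 0) (.e (nat_lit 6425) (nat_lit 342) (.e (nat_lit 229402) (nat_lit 12) (.e (nat_lit 426120) (nat_lit 2) .nil)))))))) (.g (nat_lit 5) .nil .nil))))) (.nd (nat_lit 4) (.nd (nat_lit 5) 
(.lf (nat_lit 271112) (.g (nat_lit 2500) (.e (nat_lit 196666) (nat_lit 13) (.e (nat_lit 65617) (nat_lit 10) (.e (nat_lit 344130) (nat_lit 26) (.e (nat_lit 557074) (nat_lit 9) (.e (nat_lit 278) (nat_lit 21) (.e (nat_lit 335876) (nat_lit 0) (.e (nat_lit 6618) (nat_lit 357) (.e (nat_lit 2668) (nat_lit 167) .nil)))))))) (.g (nat_lit 4) .nil .nil))) 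
(.lf (nat_lit 271144) (.g (nat_lit 2544) (.e (nat_lit 196666) (nat_lit 13) (.e (nat_lit 65617) (nat_lit 10) (.e (nat_lit 344130) (nat_lit 26) (.e (nat_lit 557090) (nat_lit 12) (.e (nat_lit 163844) (nat_lit 0) (.e (nat_lit 6420) (nat_lit 341) (.e (nat_lit 163902) (nat_lit 12) (.e (nat_lit 433920) (nat_lit 2) .nil)))))))) (.g (nat_lit 4) .nil .nil)))) (.nd (nat_lit 5) 
(.lf (nat_lit 271128) (.g (nat_lit 2959) (.e (nat_lit 196666) (nat_lit 13) (.e (nat_lit 65617) (nat_lit 10) (.e (nat_lit 344130) (nat_lit 26) (.e (nat_lit 557087) (nat_lit 11) (.e (nat_lit 24586) (nat_lit 0) .nil))))) .nil)) 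
(.lf (nat_lit 271160) (.g (nat_lit 2438) (.e (nat_lit 196666) (nat_lit 13) (.e (nat_lit 65617) (nat_lit 10) (.e (nat_lit 344132) (nat_lit 26) (.e (nat_lit 557070) (nat_lit 9) (.e (nat_lit 296) (nat_lit 22) (.e (nat_lit 352000) (nat_lit 0) (.e (nat_lit 2668) (nat_lit 167) .nil))))))) (.g (nat_lit 4) .nil .nil)))))) (.nd (nat_lit 3) (.nd (nat_lit 4) (.nd (nat_lit 5) 
(.lf (nat_lit 271108) (.g (nat_lit 3147) (.e (nat_lit 196666) (nat_lit 13) (.e (nat_lit 65617) (nat_lit 10) (.e (nat_lit 344130) (nat_lit 26) (.e (nat_lit 557066) (nat_lit 9) (.e (nat_lit 232) (nat_lit 21) (.e (nat_lit 335907) (nat_lit 0) (.e (nat_lit 6679) (nat_lit 357) (.e (nat_lit 2664) (nat_lit 167) .nil)))))))) (.g (nat_lit 5) .nil .nil))) 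
(.lf (nat_lit 271140) (.g (nat_lit 3120) (.e (nat_lit 196666) (nat_lit 13) (.e (nat_lit 65617) (nat_lit 10) (.e (nat_lit 344130) (nat_lit 26) (.e (nat_lit 557090) (nat_lit 12) (.e (nat_lit 163843) (nat_lit 0) (.e (nat_lit 6420) (nat_lit 341) (.e (nat_lit 163908) (nat_lit 12) (.e (nat_lit 426117) (nat_lit 2) .nil)))))))) (.g (nat_lit 4) .nil .nil)))) (.nd (nat_lit 5) 
(.lf (nat_lit 271124) (.g (nat_lit 1643) (.e (nat_lit 196666) (nat_lit 13) (.e (nat_lit 65617) (nat_lit 10) (.e (nat_lit 344130) (nat_lit 26) (.e (nat_lit 557087) (nat_lit 11) (.e (nat_lit 24578) (nat_lit 0) .nil))))) .nil)) 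
(.lf (nat_lit 271156) (.g (nat_lit 3804) (.e (nat_lit 196666) (nat_lit 13) (.e (nat_lit 65617) (nat_lit 10) (.e (nat_lit 344130) (nat_lit 26) (.e (nat_lit 557090) (nat_lit 12) (.e (nat_lit 164022) (nat_lit 46) (.e (nat_lit 704738) (nat_lit 11) (.e (nat_lit 16411) (nat_lit 2) .nil))))))) (.g (nat_lit 6) .nil .nil))))) (.nd (nat_lit 4) (.nd (nat_lit 5) 
(.lf (nat_lit 271116) (.g (nat_lit 2309) (.e (nat_lit 196666) (nat_lit 13) (.e (nat_lit 65617) (nat_lit 10) (.e (nat_lit 344130) (nat_lit 26) (.e (nat_lit 557074) (nat_lit 9) (.e (nat_lit 7936) (nat_lit 22) (.e (nat_lit 344068) (nat_lit 0) (.e (nat_lit 2664) (nat_lit 167) .nil))))))) (.g (nat_lit 4) .nil .nil))) 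
(.lf (nat_lit 271148) (.g (nat_lit 3000) (.e (nat_lit 196666) (nat_lit 13) (.e (nat_lit 65617) (nat_lit 10) (.e (nat_lit 344130) (nat_lit 26) (.e (nat_lit 557090) (nat_lit 12) (.e (nat_lit 163847) (nat_lit 0) (.e (nat_lit 6420) (nat_lit 341) (.e (nat_lit 163908) (nat_lit 12) (.e (nat_lit 426120) (nat_lit 2) .nil)))))))) (.g (nat_lit 4) .nil .nil)))) (.nd (nat_lit 5) 
(.lf (nat_lit 271132) (.g (nat_lit 3432) (.e (nat_lit 196666) (nat_lit 13) (.e (nat_lit 65617) (nat_lit 10) (.e (nat_lit 344130) (nat_lit 26) (.e (nat_lit 557089) (nat_lit 12) (.e (nat_lit 163843) (nat_lit 0) (.e (nat_lit 6420) (nat_lit 341) (.e (nat_lit 163908) (nat_lit 12) (.e (nat_lit 426113) (nat_lit 2) .nil)))))))) (.g (nat_lit 5) .nil .nil))) 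
(.lf (nat_lit 271164) (.g (nat_lit 2385) (.e (nat_lit 196666) (nat_lit 13) (.e (nat_lit 65617) (nat_lit 10) (.e (nat_lit 344132) (nat_lit 26) (.e (nat_lit 557085) (nat_lit 11) (.e (nat_lit 24663) (nat_lit 14) .nil))))) .nil)))))) (.nd (nat_lit 2) (.nd (nat_lit 3) (.nd (nat_lit 4) (.nd (nat_lit 5) 
(.lf (nat_lit 271106) (.g (nat_lit 3543) (.e (nat_lit 196666) (nat_lit 13) (.e (nat_lit 65617) (nat_lit 10) (.e (nat_lit 344130) (nat_lit 26) (.e (nat_lit 557066) (nat_lit 9) (.e (nat_lit 232) (nat_lit 21) (.e (nat_lit 335907) (nat_lit 0) (.e (nat_lit 6676) (nat_lit 357) (.e (nat_lit 2663) (nat_lit 167) .nil)))))))) (.g (nat_lit 5) .nil .nil))) 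
(.lf (nat_lit 271138) (.g (nat_lit 3622) (.e (nat_lit 196666) (nat_lit 13) (.e (nat_lit 65617) (nat_lit 10) (.e (nat_lit 344130) (nat_lit 26) (.e (nat_lit 557090) (nat_lit 12) (.e (nat_lit 163843) (nat_lit 0) (.e (nat_lit 6416) (nat_lit 341) (.e (nat_lit 163908) (nat_lit 12) (.e (nat_lit 426120) (nat_lit 2) .nil)))))))) (.g (nat_lit 5) .nil .nil)))) (.nd (nat_lit 5) 
(.lf (nat_lit 271122) (.g (nat_lit 2092) (.e (nat_lit 196666) (nat_lit 13) (.e (nat_lit 65617) (nat_lit 10) (.e (nat_lit 344130) (nat_lit 26) (.e (nat_lit 557087) (nat_lit 11) (.e (nat_lit 24576) (nat_lit 0) .nil))))) .nil)) 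
(.lf (nat_lit 271154) (.g (nat_lit 2553) (.e (nat_lit 196666) (nat_lit 13) (.e (nat_lit 65617) (nat_lit 10) (.e (nat_lit 344130) (nat_lit 26) (.e (nat_lit 557090) (nat_lit 12) (.e (nat_lit 164022) (nat_lit 46) (.e (nat_lit 704736) (nat_lit 11) (.e (nat_lit 16411) (nat_lit 2) .nil))))))) (.g (nat_lit 4) .nil .nil))))) (.nd (nat_lit 4) (.nd (nat_lit 5) 
(.lf (nat_lit 271114) (.g (nat_lit 2260) (.e (nat_lit 196666) (nat_lit 13) (.e (nat_lit 65617) (nat_lit 10) (.e (nat_lit 344130) (nat_lit 26) (.e (nat_lit 557074) (nat_lit 9) (.e (nat_lit 7936) (nat_lit 21) (.e (nat_lit 335876) (nat_lit 0) (.e (nat_lit 6618) (nat_lit 357) (.e (nat_lit 2668) (nat_lit 167) .nil)))))))) (.g (nat_lit 4) .nil .nil))) 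
(.lf (nat_lit 271146) (.g (nat_lit 2868) (.e (nat_lit 196666) (nat_lit 13) (.e (nat_lit 65617) (nat_lit 10) (.e (nat_lit 344130) (nat_lit 26) (.e (nat_lit 557090) (nat_lit 12) (.e (nat_lit 163847) (nat_lit 0) (.e (nat_lit 6418) (nat_lit 341) (.e (nat_lit 163908) (nat_lit 12) (.e (nat_lit 426120) (nat_lit 2) .nil)))))))) (.g (nat_lit 4) .nil .nil)))) (.nd (nat_lit 5) 
(.lf (nat_lit 271130) (.g (nat_lit 3375) (.e (nat_lit 196666) (nat_lit 13) (.e (nat_lit 65617) (nat_lit 10) (.e (nat_lit 344130) (nat_lit 26) (.e (nat_lit 557089) (nat_lit 12) (.e (nat_lit 163843) (nat_lit 0) (.e (nat_lit 6416) (nat_lit 341) (.e (nat_lit 163908) (nat_lit 12) (.e (nat_lit 426113) (nat_lit 2) .nil)))))))) (.g (nat_lit 5) .nil .nil))) 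
(.lf (nat_lit 271162) (.g (nat_lit 2986) (.e (nat_lit 196666) (nat_lit 13) (.e (nat_lit 65617) (nat_lit 10) (.e (nat_lit 344132) (nat_lit 26) (.e (nat_lit 557073) (nat_lit 9) (.e (nat_lit 288) (nat_lit 21) (.e (nat_lit 335877) (nat_lit 0) (.e (nat_lit 6618) (nat_lit 357) (.e (nat_lit 2668) (nat_lit 167) .nil)))))))) (.g (nat_lit 0) .nil .nil)))))) 
(.nd (nat_lit 3) (.nd (nat_lit 4) (.nd (nat_lit 5) 
(.lf (nat_lit 271110) (.g (nat_lit 3151) (.e (nat_lit 196666) (nat_lit 13) (.e (nat_lit 65617) (nat_lit 10) (.e (nat_lit 344130) (nat_lit 26) (.e (nat_lit 557066) (nat_lit 9) (.e (nat_lit 232) (nat_lit 21) (.e (nat_lit 335907) (nat_lit 0) (.e (nat_lit 7936) (nat_lit 357) (.e (nat_lit 2668) (nat_lit 167) .nil)))))))) (.g (nat_lit 5) .nil .nil))) 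
(.lf (nat_lit 271142) (.g (nat_lit 2499) (.e (nat_lit 196666) (nat_lit 13) (.e (nat_lit 65617) (nat_lit 10) (.e (nat_lit 344130) (nat_lit 26) (.e (nat_lit 557090) (nat_lit 12) (.e (nat_lit 163843) (nat_lit 0) (.e (nat_lit 6421) (nat_lit 341) (.e (nat_lit 163908) (nat_lit 12) (.e (nat_lit 426113) (nat_lit 2) .nil)))))))) (.g (nat_lit 4) .nil .nil)))) (.nd (nat_lit 5) 
(.lf (nat_lit 271126) (.g (nat_lit 2136) (.e (nat_lit 196666) (nat_lit 13) (.e (nat_lit 65617) (nat_lit 10) (.e (nat_lit 344130) (nat_lit 26) (.e (nat_lit 557087) (nat_lit 11) (.e (nat_lit 24581) (nat_lit 0) .nil))))) .nil)) 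
(.lf (nat_lit 271158) (.g (nat_lit 1628) (.e (nat_lit 196666) (nat_lit 13) (.e (nat_lit 65617) (nat_lit 10) (.e (nat_lit 344132) (nat_lit 26) (.e (nat_lit 557064) (nat_lit 9) .nil)))) .nil)))) (.nd (nat_lit 4) (.nd (nat_lit 5) 
(.lf (nat_lit 271118) (.g (nat_lit 2438) (.e (nat_lit 196666) (nat_lit 13) (.e (nat_lit 65617) (nat_lit 10) (.e (nat_lit 344130) (nat_lit 26) (.e (nat_lit 557085) (nat_lit 11) (.e (nat_lit 24665) (nat_lit 14) (.e (nat_lit 409344) (nat_lit 2) .nil)))))) (.g (nat_lit 4) .nil .nil))) 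
(.lf (nat_lit 271150) (.g (nat_lit 3262) (.e (nat_lit 196666) (nat_lit 13) (.e (nat_lit 65617) (nat_lit 10) (.e (nat_lit 344130) (nat_lit 26) (.e (nat_lit 557090) (nat_lit 12) (.e (nat_lit 163848) (nat_lit 0) (.e (nat_lit 6418) (nat_lit 341) (.e (nat_lit 163908) (nat_lit 12) (.e (nat_lit 426113) (nat_lit 2) .nil)))))))) (.g (nat_lit 4) .nil .nil)))) (.nd (nat_lit 5) 
(.lf (nat_lit 271134) (.g (nat_lit 1901) (.e (nat_lit 196666) (nat_lit 13) (.e (nat_lit 65617) (nat_lit 10) (.e (nat_lit 344130) (nat_lit 26) (.e (nat_lit 557089) (nat_lit 12) (.e (nat_lit 163849) (nat_lit 0) (.e (nat_lit 6420) (nat_lit 341) (.e (nat_lit 163902) (nat_lit 12) (.e (nat_lit 433920) (nat_lit 2) .nil)))))))) (.g (nat_lit 4) .nil .nil))) 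
(.lf (nat_lit 271166) (.g (nat_lit 2829) (.e (nat_lit 196666) (nat_lit 13) (.e (nat_lit 65617) (nat_lit 10) (.e (nat_lit 344132) (nat_lit 26) (.e (nat_lit 557085) (nat_lit 11) (.e (nat_lit 24665) (nat_lit 14) (.e (nat_lit 409344) (nat_lit 2) .nil)))))) (.g (nat_lit 5) .nil .nil)))))))) (.nd (nat_lit 1) (.nd (nat_lit 2) (.nd (nat_lit 3) (.nd (nat_lit 4) (.nd (nat_lit 5) 
(.lf (nat_lit 271105) (.g (nat_lit 2409) (.e (nat_lit 196666) (nat_lit 13) (.e (nat_lit 65617) (nat_lit 10) (.e (nat_lit 344130) (nat_lit 26) (.e (nat_lit 557065) (nat_lit 9) (.e (nat_lit 330) (nat_lit 25) (.e (nat_lit 376576) (nat_lit 0) (.e (nat_lit 2668) (nat_lit 167) .nil))))))) (.g (nat_lit 4) .nil .nil))) 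
(.lf (nat_lit 271137) (.g (nat_lit 3065) (.e (nat_lit 196666) (nat_lit 13) (.e (nat_lit 65617) (nat_lit 10) (.e (nat_lit 344130) (nat_lit 26) (.e (nat_lit 557090) (nat_lit 12) (.e (nat_lit 163843) (nat_lit 0) (.e (nat_lit 6416) (nat_lit 341) (.e (nat_lit 163908) (nat_lit 12) (.e (nat_lit 426117) (nat_lit 2) .nil)))))))) (.g (nat_lit 4) .nil .nil)))) (.nd (nat_lit 5) 
(.lf (nat_lit 271121) (.g (nat_lit 2373) (.e (nat_lit 196666) (nat_lit 13) (.e (nat_lit 65617) (nat_lit 10) (.e (nat_lit 344130) (nat_lit 26) (.e (nat_lit 557086) (nat_lit 11) (.e (nat_lit 24665) (nat_lit 14) (.e (nat_lit 409344) (nat_lit 2) .nil)))))) (.g (nat_lit 5) .nil .nil))) 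
(.lf (nat_lit 271153) (.g (nat_lit 3244) (.e (nat_lit 196666) (nat_lit 13) (.e (nat_lit 65617) (nat_lit 10) (.e (nat_lit 344130) (nat_lit 26) (.e (nat_lit 557090) (nat_lit 12) (.e (nat_lit 164022) (nat_lit 46) (.e (nat_lit 704732) (nat_lit 11) (.e (nat_lit 16413) (nat_lit 2) .nil))))))) (.g (nat_lit 5) .nil .nil))))) (.nd (nat_lit 4) (.nd (nat_lit 5) 
(.lf (nat_lit 271113) (.g (nat_lit 2352) (.e (nat_lit 196666) (nat_lit 13) (.e (nat_lit 65617) (nat_lit 10) (.e (nat_lit 344130) (nat_lit 26) (.e (nat_lit 557074) (nat_lit 9) (.e (nat_lit 7936) (nat_lit 21) (.e (nat_lit 335872) (nat_lit 0) (.e (nat_lit 6618) (nat_lit 357) (.e (nat_lit 2668) (nat_lit 167) .nil)))))))) (.g (nat_lit 4) .nil .nil))) 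
(.lf (nat_lit 271145) (.g (nat_lit 2970) (.e (nat_lit 196666) (nat_lit 13) (.e (nat_lit 65617) (nat_lit 10) (.e (nat_lit 344130) (nat_lit 26) (.e (nat_lit 557090) (nat_lit 12) (.e (nat_lit 163847) (nat_lit 0) (.e (nat_lit 6416) (nat_lit 341) (.e (nat_lit 163908) (nat_lit 12) (.e (nat_lit 426120) (nat_lit 2) .nil)))))))) (.g (nat_lit 4) .nil .nil)))) (.nd (nat_lit 5) 
(.lf (nat_lit 271129) (.g (nat_lit 3473) (.e (nat_lit 196666) (nat_lit 13) (.e (nat_lit 65617) (nat_lit 10) (.e (nat_lit 344130) (nat_lit 26) (.e (nat_lit 557087) (nat_lit 11) (.e (nat_lit 24665) (nat_lit 14) (.e (nat_lit 409344) (nat_lit 2) .nil)))))) (.g (nat_lit 5) .nil .nil))) 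
(.lf (nat_lit 271161) (.g (nat_lit 1584) (.e (nat_lit 196666) (nat_lit 13) (.e (nat_lit 65617) (nat_lit 10) (.e (nat_lit 344132) (nat_lit 26) (.e (nat_lit 557070) (nat_lit 9) (.e (nat_lit 7936) (nat_lit 22) .nil))))) .nil))))) (.nd (nat_lit 3) (.nd (nat_lit 4) (.nd (nat_lit 5) 
(.lf (nat_lit 271109) (.g (nat_lit 3065) (.e (nat_lit 196666) (nat_lit 13) (.e (nat_lit 65617) (nat_lit 10) (.e (nat_lit 344130) (nat_lit 26) (.e (nat_lit 557066) (nat_lit 9) (.e (nat_lit 232) (nat_lit 21) (.e (nat_lit 335907) (nat_lit 0) (.e (nat_lit 7936) (nat_lit 357) (.e (nat_lit 2664) (nat_lit 167) .nil)))))))) (.g (nat_lit 5) .nil .nil))) 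
(.lf (nat_lit 271141) (.g (nat_lit 3621) (.e (nat_lit 196666) (nat_lit 13) (.e (nat_lit 65617) (nat_lit 10) (.e (nat_lit 344130) (nat_lit 26) (.e (nat_lit 557090) (nat_lit 12) (.e (nat_lit 163843) (nat_lit 0) (.e (nat_lit 6420) (nat_lit 341) (.e (nat_lit 163908) (nat_lit 12) (.e (nat_lit 426120) (nat_lit 2) .nil)))))))) (.g (nat_lit 5) .nil .nil)))) (.nd (nat_lit 5) 
(.lf (nat_lit 271125) (.g (nat_lit 1732) (.e (nat_lit 196666) (nat_lit 13) (.e (nat_lit 65617) (nat_lit 10) (.e (nat_lit 344130) (nat_lit 26) (.e (nat_lit 557087) (nat_lit 11) (.e (nat_lit 24580) (nat_lit 0) .nil))))) .nil)) 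
(.lf (nat_lit 271157) (.g (nat_lit 4627) (.e (nat_lit 196666) (nat_lit 13) (.e (nat_lit 65617) (nat_lit 10) (.e (nat_lit 344130) (nat_lit 26) (.e (nat_lit 557091) (nat_lit 12) (.e (nat_lit 164020) (nat_lit 45) (.e (nat_lit 696344) (nat_lit 8) (.e (nat_lit 172064) (nat_lit 2) .nil))))))) (.g (nat_lit 5) .nil .nil))))) (.nd (nat_lit 4) (.nd (nat_lit 5) 
(.lf (nat_lit 271117) (.g (nat_lit 2527) (.e (nat_lit 196666) (nat_lit 13) (.e (nat_lit 65617) (nat_lit 10) (.e (nat_lit 344130) (nat_lit 26) (.e (nat_lit 557074) (nat_lit 9) (.e (nat_lit 7936) (nat_lit 22) (.e (nat_lit 352000) (nat_lit 0) (.e (nat_lit 2668) (nat_lit 167) .nil))))))) (.g (nat_lit 4) .nil .nil))) 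
(.lf (nat_lit 271149) (.g (nat_lit 3374) (.e (nat_lit 196666) (nat_lit 13) (.e (nat_lit 65617) (nat_lit 10) (.e (nat_lit 344130) (nat_lit 26) (.e (nat_lit 557090) (nat_lit 12) (.e (nat_lit 163848) (nat_lit 0) (.e (nat_lit 6416) (nat_lit 341) (.e (nat_lit 163908) (nat_lit 12) (.e (nat_lit 426113) (nat_lit 2) .nil)))))))) (.g (nat_lit 4) .nil .nil)))) (.nd (nat_lit 5) 
(.lf (nat_lit 271133) (.g (nat_lit 1919) (.e (nat_lit 196666) (nat_lit 13) (.e (nat_lit 65617) (nat_lit 10) (.e (nat_lit 344130) (nat_lit 26) (.e (nat_lit 557089) (nat_lit 12) (.e (nat_lit 163844) (nat_lit 0) (.e (nat_lit 6420) (nat_lit 341) (.e (nat_lit 163902) (nat_lit 12) (.e (nat_lit 433920) (nat_lit 2) .nil)))))))) (.g (nat_lit 4) .nil .nil))) 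
(.lf (nat_lit 271165) (.g (nat_lit 3688) (.e (nat_lit 196666) (nat_lit 13) (.e (nat_lit 65617) (nat_lit 10) (.e (nat_lit 344132) (nat_lit 26) (.e (nat_lit 557085) (nat_lit 11) (.e (nat_lit 24664) (nat_lit 14) (.e (nat_lit 401424) (nat_lit 2) .nil)))))) (.g (nat_lit 5) .nil .nil))))))) (.nd (nat_lit 2) (.nd (nat_lit 3) (.nd (nat_lit 4) (.nd (nat_lit 5) 
(.lf (nat_lit 271107) (.g (nat_lit 3177) (.e (nat_lit 196666) (nat_lit 13) (.e (nat_lit 65617) (nat_lit 10) (.e (nat_lit 344130) (nat_lit 26) (.e (nat_lit 557066) (nat_lit 9) (.e (nat_lit 232) (nat_lit 21) (.e (nat_lit 335907) (nat_lit 0) (.e (nat_lit 6676) (nat_lit 357) (.e (nat_lit 2664) (nat_lit 167) .nil)))))))) (.g (nat_lit 5) .nil .nil))) 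
(.lf (nat_lit 271139) (.g (nat_lit 2781) (.e (nat_lit 196666) (nat_lit 13) (.e (nat_lit 65617) (nat_lit 10) (.e (nat_lit 344130) (nat_lit 26) (.e (nat_lit 557090) (nat_lit 12) (.e (nat_lit 163843) (nat_lit 0) (.e (nat_lit 6420) (nat_lit 341) (.e (nat_lit 163902) (nat_lit 12) (.e (nat_lit 433920) (nat_lit 2) .nil)))))))) (.g (nat_lit 5) .nil .nil)))) (.nd (nat_lit 5) 
(.lf (nat_lit 271123) (.g (nat_lit 1782) (.e (nat_lit 196666) (nat_lit 13) (.e (nat_lit 65617) (nat_lit 10) (.e (nat_lit 344130) (nat_lit 26) (.e (nat_lit 557087) (nat_lit 11) (.e (nat_lit 24577) (nat_lit 0) .nil))))) .nil)) 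
(.lf (nat_lit 271155) (.g (nat_lit 3865) (.e (nat_lit 196666) (nat_lit 13) (.e (nat_lit 65617) (nat_lit 10) (.e (nat_lit 344130) (nat_lit 26) (.e (nat_lit 557090) (nat_lit 12) (.e (nat_lit 164022) (nat_lit 46) (.e (nat_lit 704737) (nat_lit 11) (.e (nat_lit 16410) (nat_lit 2) .nil))))))) (.g (nat_lit 6) .nil .nil))))) (.nd (nat_lit 4) (.nd (nat_lit 5) 
(.lf (nat_lit 271115) (.g (nat_lit 2279) (.e (nat_lit 196666) (nat_lit 13) (.e (nat_lit 65617) (nat_lit 10) (.e (nat_lit 344130) (nat_lit 26) (.e (nat_lit 557074) (nat_lit 9) (.e (nat_lit 7936) (nat_lit 21) (.e (nat_lit 335877) (nat_lit 0) (.e (nat_lit 6618) (nat_lit 357) (.e (nat_lit 2668) (nat_lit 167) .nil)))))))) (.g (nat_lit 4) .nil .nil))) 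
(.lf (nat_lit 271147) (.g (nat_lit 2177) (.e (nat_lit 196666) (nat_lit 13) (.e (nat_lit 65617) (nat_lit 10) (.e (nat_lit 344130) (nat_lit 26) (.e (nat_lit 557090) (nat_lit 12) (.e (nat_lit 163847) (nat_lit 0) (.e (nat_lit 6420) (nat_lit 341) (.e (nat_lit 163902) (nat_lit 12) (.e (nat_lit 433920) (nat_lit 2) .nil)))))))) (.g (nat_lit 4) .nil .nil)))) (.nd (nat_lit 5) 
(.lf (nat_lit 271131) (.g (nat_lit 2627) (.e (nat_lit 196666) (nat_lit 13) (.e (nat_lit 65617) (nat_lit 10) (.e (nat_lit 344130) (nat_lit 26) (.e (nat_lit 557089) (nat_lit 12) (.e (nat_lit 163843) (nat_lit 0) (.e (nat_lit 6418) (nat_lit 341) (.e (nat_lit 163908) (nat_lit 12) (.e (nat_lit 426113) (nat_lit 2) .nil)))))))) (.g (nat_lit 4) .nil .nil))) 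
(.lf (nat_lit 271163) (.g (nat_lit 1218) (.e (nat_lit 196666) (nat_lit 13) (.e (nat_lit 65617) (nat_lit 10) (.e (nat_lit 344132) (nat_lit 26) (.e (nat_lit 557085) (nat_lit 11) .nil)))) .nil))))) (.nd (nat_lit 3) (.nd (nat_lit 4) (.nd (nat_lit 5) 
(.lf (nat_lit 271111) (.g (nat_lit 2384) (.e (nat_lit 196666) (nat_lit 13) (.e (nat_lit 65617) (nat_lit 10) (.e (nat_lit 344130) (nat_lit 26) (.e (nat_lit 557066) (nat_lit 9) (.e (nat_lit 305) (nat_lit 22) (.e (nat_lit 352000) (nat_lit 0) (.e (nat_lit 2668) (nat_lit 167) .nil))))))) (.g (nat_lit 4) .nil .nil))) 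
(.lf (nat_lit 271143) (.g (nat_lit 2957) (.e (nat_lit 196666) (nat_lit 13) (.e (nat_lit 65617) (nat_lit 10) (.e (nat_lit 344130) (nat_lit 26) (.e (nat_lit 557090) (nat_lit 12) (.e (nat_lit 163844) (nat_lit 0) (.e (nat_lit 6418) (nat_lit 341) (.e (nat_lit 163908) (nat_lit 12) (.e (nat_lit 426120) (nat_lit 2) .nil)))))))) (.g (nat_lit 4) .nil .nil)))) (.nd (nat_lit 5) 
(.lf (nat_lit 271127) (.g (nat_lit 2989) (.e (nat_lit 196666) (nat_lit 13) (.e (nat_lit 65617) (nat_lit 10) (.e (nat_lit 344130) (nat_lit 26) (.e (nat_lit 557087) (nat_lit 11) (.e (nat_lit 24583) (nat_lit 0) .nil))))) .nil)) 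
(.lf (nat_lit 271159) (.g (nat_lit 1628) (.e (nat_lit 196666) (nat_lit 13) (.e (nat_lit 65617) (nat_lit 10) (.e (nat_lit 344132) (nat_lit 26) (.e (nat_lit 557066) (nat_lit 9) .nil)))) .nil)))) (.nd (nat_lit 4) (.nd (nat_lit 5) 
(.lf (nat_lit 271119) (.g (nat_lit 3515) (.e (nat_lit 196666) (nat_lit 13) (.e (nat_lit 65617) (nat_lit 10) (.e (nat_lit 344130) (nat_lit 26) (.e (nat_lit 557086) (nat_lit 11) (.e (nat_lit 24664) (nat_lit 14) (.e (nat_lit 401423) (nat_lit 2) .nil)))))) (.g (nat_lit 0) .nil .nil))) 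
(.lf (nat_lit 271151) (.g (nat_lit 3313) (.e (nat_lit 196666) (nat_lit 13) (.e (nat_lit 65617) (nat_lit 10) (.e (nat_lit 344130) (nat_lit 26) (.e (nat_lit 557090) (nat_lit 12) (.e (nat_lit 163849) (nat_lit 0) (.e (nat_lit 6416) (nat_lit 341) (.e (nat_lit 163908) (nat_lit 12) (.e (nat_lit 426113) (nat_lit 2) .nil)))))))) (.g (nat_lit 4) .nil .nil)))) (.nd (nat_lit 5) 
(.lf (nat_lit 271135) (.g (nat_lit 2378) (.e (nat_lit 196666) (nat_lit 13) (.e (nat_lit 65617) (nat_lit 10) (.e (nat_lit 344130) (nat_lit 26) (.e (nat_lit 557089) (nat_lit 12) (.e (nat_lit 171776) (nat_lit 46) (.e (nat_lit 704734) (nat_lit 11) (.e (nat_lit 16413) (nat_lit 2) .nil))))))) (.g (nat_lit 4) .nil .nil))) 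
(.lf (nat_lit 271167) (.g (nat_lit 1575) (.e (nat_lit 196666) (nat_lit 13) (.e (nat_lit 65617) (nat_lit 10) (.e (nat_lit 344132) (nat_lit 26) (.e (nat_lit 557086) (nat_lit 11) .nil)))) .nil))))))))

noncomputable def tv3478 : DT := (.nd (nat_lit 0) (.nd (nat_lit 1) (.nd (nat_lit 2) (.nd (nat_lit 3) (.nd (nat_lit 4) (.nd (nat_lit 5) 
(.lf (nat_lit 271168) (.g (nat_lit 2093) (.e (nat_lit 196666) (nat_lit 13) (.e (nat_lit 65617) (nat_lit 10) (.e (nat_lit 344132) (nat_lit 26) (.e (nat_lit 557090) (nat_lit 12) (.e (nat_lit 164020) (nat_lit 45) .nil))))) .nil)) 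
(.lf (nat_lit 271200) (.g (nat_lit 2683) (.e (nat_lit 196666) (nat_lit 13) (.e (nat_lit 65617) (nat_lit 10) (.e (nat_lit 344133) (nat_lit 26) (.e (nat_lit 557089) (nat_lit 12) (.e (nat_lit 163843) (nat_lit 0) (.e (nat_lit 6418) (nat_lit 341) (.e (nat_lit 163908) (nat_lit 12) (.e (nat_lit 426113) (nat_lit 2) .nil)))))))) (.g (nat_lit 4) .nil .nil)))) (.nd (nat_lit 5) 
(.lf (nat_lit 271184) (.g (nat_lit 2001) (.e (nat_lit 196666) (nat_lit 13) (.e (nat_lit 65617) (nat_lit 10) (.e (nat_lit 344133) (nat_lit 26) (.e (nat_lit 557065) (nat_lit 9) (.e (nat_lit 297) (nat_lit 22) .nil))))) .nil)) 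
(.lf (nat_lit 271216) (.g (nat_lit 3917) (.e (nat_lit 196666) (nat_lit 13) (.e (nat_lit 65617) (nat_lit 10) (.e (nat_lit 344133) (nat_lit 26) (.e (nat_lit 557091) (nat_lit 12) (.e (nat_lit 164022) (nat_lit 46) (.e (nat_lit 704736) (nat_lit 11) (.e (nat_lit 16409) (nat_lit 2) .nil))))))) (.g (nat_lit 6) .nil .nil))))) (.nd (nat_lit 4) (.nd (nat_lit 5) 
(.lf (nat_lit 271176) (.g (nat_lit 3260) (.e (nat_lit 196666) (nat_lit 13) (.e (nat_lit 65617) (nat_lit 10) (.e (nat_lit 344132) (nat_lit 26) (.e (nat_lit 557093) (nat_lit 12) (.e (nat_lit 164023) (nat_lit 46) (.e (nat_lit 704736) (nat_lit 11) (.e (nat_lit 16413) (nat_lit 2) .nil))))))) (.g (nat_lit 5) .nil .nil))) 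
(.lf (nat_lit 271208) (.g (nat_lit 3006) (.e (nat_lit 196666) (nat_lit 13) (.e (nat_lit 65617) (nat_lit 10) (.e (nat_lit 344133) (nat_lit 26) (.e (nat_lit 557091) (nat_lit 12) (.e (nat_lit 163843) (nat_lit 0) (.e (nat_lit 6420) (nat_lit 341) (.e (nat_lit 163902) (nat_lit 12) (.e (nat_lit 433920) (nat_lit 2) .nil)))))))) (.g (nat_lit 5) .nil .nil)))) (.nd (nat_lit 5) 
(.lf (nat_lit 271192) (.g (nat_lit 2712) (.e (nat_lit 196666) (nat_lit 13) (.e (nat_lit 65617) (nat_lit 10) (.e (nat_lit 344133) (nat_lit 26) (.e (nat_lit 557084) (nat_lit 10) (.e (nat_lit 16128) (nat_lit 250) .nil))))) .nil)) 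
(.lf (nat_lit 271224) (.g (nat_lit 2725) (.e (nat_lit 196666) (nat_lit 13) (.e (nat_lit 65619) (nat_lit 10) (.e (nat_lit 344129) (nat_lit 26) (.e (nat_lit 557066) (nat_lit 9) (.e (nat_lit 268) (nat_lit 21) .nil))))) .nil))))) (.nd (nat_lit 3) (.nd (nat_lit 4) (.nd (nat_lit 5) 
(.lf (nat_lit 271172) (.g (nat_lit 3643) (.e (nat_lit 196666) (nat_lit 13) (.e (nat_lit 65617) (nat_lit 10) (.e (nat_lit 344132) (nat_lit 26) (.e (nat_lit 557093) (nat_lit 12) (.e (nat_lit 164022) (nat_lit 46) (.e (nat_lit 704736) (nat_lit 11) (.e (nat_lit 16409) (nat_lit 2) .nil))))))) (.g (nat_lit 6) .nil .nil))) 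
(.lf (nat_lit 271204) (.g (nat_lit 2498) (.e (nat_lit 196666) (nat_lit 13) (.e (nat_lit 65617) (nat_lit 10) (.e (nat_lit 344133) (nat_lit 26) (.e (nat_lit 557089) (nat_lit 12) (.e (nat_lit 171776) (nat_lit 46) (.e (nat_lit 704734) (nat_lit 11) (.e (nat_lit 16413) (nat_lit 2) .nil))))))) (.g (nat_lit 4) .nil .nil)))) (.nd (nat_lit 5) 
(.lf (nat_lit 271188) (.g (nat_lit 3299) (.e (nat_lit 196666) (nat_lit 13) (.e (nat_lit 65617) (nat_lit 10) (.e (nat_lit 344133) (nat_lit 26) (.e (nat_lit 557068) (nat_lit 9) (.e (nat_lit 288) (nat_lit 21) (.e (nat_lit 335877) (nat_lit 0) (.e (nat_lit 6618) (nat_lit 357) (.e (nat_lit 2668) (nat_lit 167) .nil)))))))) (.g (nat_lit 0) .nil .nil))) 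
(.lf (nat_lit 271220) (.g (nat_lit 1196) (.e (nat_lit 196666) (nat_lit 13) (.e (nat_lit 65619) (nat_lit 10) (.e (nat_lit 344117) (nat_lit 21) (.e (nat_lit 516139) (nat_lit 7) .nil)))) .nil)))) (.nd (nat_lit 4) (.nd (nat_lit 5) 
(.lf (nat_lit 271180) (.g (nat_lit 3335) (.e (nat_lit 196666) (nat_lit 13) (.e (nat_lit 65617) (nat_lit 10) (.e (nat_lit 344132) (nat_lit 26) (.e (nat_lit 557094) (nat_lit 12) (.e (nat_lit 164022) (nat_lit 46) (.e (nat_lit 704736) (nat_lit 11) (.e (nat_lit 16409) (nat_lit 2) .nil))))))) (.g (nat_lit 6) .nil .nil))) 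
(.lf (nat_lit 271212) (.g (nat_lit 2974) (.e (nat_lit 196666) (nat_lit 13) (.e (nat_lit 65617) (nat_lit 10) (.e (nat_lit 344133) (nat_lit 26) (.e (nat_lit 557091) (nat_lit 12) (.e (nat_lit 163847) (nat_lit 0) (.e (nat_lit 6418) (nat_lit 341) (.e (nat_lit 163908) (nat_lit 12) (.e (nat_lit 426120) (nat_lit 2) .nil)))))))) (.g (nat_lit 4) .nil .nil)))) (.nd (nat_lit 5) 
(.lf (nat_lit 271196) (.g (nat_lit 2086) (.e (nat_lit 196666) (nat_lit 13) (.e (nat_lit 65617) (nat_lit 10) (.e (nat_lit 344133) (nat_lit 26) (.e (nat_lit 557087) (nat_lit 11) (.e (nat_lit 24663) (nat_lit 14) .nil))))) .nil)) 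
(.lf (nat_lit 271228) (.g (nat_lit 2840) (.e (nat_lit 196666) (nat_lit 13) (.e (nat_lit 65620) (nat_lit 10) (.e (nat_lit 344126) (nat_lit 25) (.e (nat_lit 548889) (nat_lit 9) (.e (nat_lit 65630) (nat_lit 14) .nil))))) .nil)))))) (.nd (nat_lit 2) (.nd (nat_lit 3) (.nd (nat_lit 4) (.nd (nat_lit 5) 
(.lf (nat_lit 271170) (.g (nat_lit 2884) (.e (nat_lit 196666) (nat_lit 13) (.e (nat_lit 65617) (nat_lit 10) (.e (nat_lit 344132) (nat_lit 26) (.e (nat_lit 557093) (nat_lit 12) (.e (nat_lit 163847) (nat_lit 0) (.e (nat_lit 6416) (nat_lit 341) (.e (nat_lit 163908) (nat_lit 12) (.e (nat_lit 426113) (nat_lit 2) .nil)))))))) (.g (nat_lit 4) .nil .nil))) 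
(.lf (nat_lit 271202) (.g (nat_lit 2182) (.e (nat_lit 196666) (nat_lit 13) (.e (nat_lit 65617) (nat_lit 10) (.e (nat_lit 344133) (nat_lit 26) (.e (nat_lit 557089) (nat_lit 12) (.e (nat_lit 163844) (nat_lit 0) (.e (nat_lit 6420) (nat_lit 341) (.e (nat_lit 163902) (nat_lit 12) (.e (nat_lit 433920) (nat_lit 2) .nil)))))))) (.g (nat_lit 4) .nil .nil)))) (.nd (nat_lit 5) 
(.lf (nat_lit 271186) (.g (nat_lit 1823) (.e (nat_lit 196666) (nat_lit 13) (.e (nat_lit 65617) (nat_lit 10) (.e (nat_lit 344133) (nat_lit 26) (.e (nat_lit 557065) (nat_lit 9) (.e (nat_lit 7936) (nat_lit 22) .nil))))) .nil)) 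
(.lf (nat_lit 271218) (.g (nat_lit 3840) (.e (nat_lit 196666) (nat_lit 13) (.e (nat_lit 65617) (nat_lit 10) (.e (nat_lit 344133) (nat_lit 26) (.e (nat_lit 557091) (nat_lit 12) (.e (nat_lit 164022) (nat_lit 46) (.e (nat_lit 704737) (nat_lit 11) (.e (nat_lit 16410) (nat_lit 2) .nil))))))) (.g (nat_lit 6) .nil .nil))))) (.nd (nat_lit 4) (.nd (nat_lit 5) 
(.lf (nat_lit 271178) (.g (nat_lit 3580) (.e (nat_lit 196666) (nat_lit 13) (.e (nat_lit 65617) (nat_lit 10) (.e (nat_lit 344132) (nat_lit 26) (.e (nat_lit 557093) (nat_lit 12) (.e (nat_lit 164023) (nat_lit 46) (.e (nat_lit 704737) (nat_lit 11) (.e (nat_lit 16410) (nat_lit 2) .nil))))))) (.g (nat_lit 5) .nil .nil))) 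
(.lf (nat_lit 271210) (.g (nat_lit 2376) (.e (nat_lit 196666) (nat_lit 13) (.e (nat_lit 65617) (nat_lit 10) (.e (nat_lit 344133) (nat_lit 26) (.e (nat_lit 557091) (nat_lit 12) (.e (nat_lit 163844) (nat_lit 0) (.e (nat_lit 6420) (nat_lit 341) (.e (nat_lit 163902) (nat_lit 12) (.e (nat_lit 433920) (nat_lit 2) .nil)))))))) (.g (nat_lit 4) .nil .nil)))) (.nd (nat_lit 5) 
(.lf (nat_lit 271194) (.g (nat_lit 3701) (.e (nat_lit 196666) (nat_lit 13) (.e (nat_lit 65617) (nat_lit 10) (.e (nat_lit 344133) (nat_lit 26) (.e (nat_lit 557086) (nat_lit 11) (.e (nat_lit 24665) (nat_lit 14) (.e (nat_lit 401423) (nat_lit 2) .nil)))))) (.g (nat_lit 0) .nil .nil))) 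
(.lf (nat_lit 271226) (.g (nat_lit 3706) (.e (nat_lit 196666) (nat_lit 13) (.e (nat_lit 65619) (nat_lit 10) (.e (nat_lit 344129) (nat_lit 26) (.e (nat_lit 557087) (nat_lit 11) (.e (nat_lit 24661) (nat_lit 14) (.e (nat_lit 401425) (nat_lit 2) .nil)))))) (.g (nat_lit 4) .nil .nil)))))) (.nd (nat_lit 3) (.nd (nat_lit 4) (.nd (nat_lit 5) 
(.lf (nat_lit 271174) (.g (nat_lit 3404) (.e (nat_lit 196666) (nat_lit 13) (.e (nat_lit 65617) (nat_lit 10) (.e (nat_lit 344132) (nat_lit 26) (.e (nat_lit 557093) (nat_lit 12) (.e (nat_lit 164022) (nat_lit 46) (.e (nat_lit 704738) (nat_lit 11) (.e (nat_lit 16411) (nat_lit 2) .nil))))))) (.g (nat_lit 6) .nil .nil))) 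
(.lf (nat_lit 271206) (.g (nat_lit 2247) (.e (nat_lit 196666) (nat_lit 13) (.e (nat_lit 65617) (nat_lit 10) (.e (nat_lit 344133) (nat_lit 26) (.e (nat_lit 557091) (nat_lit 12) (.e (nat_lit 163843) (nat_lit 0) (.e (nat_lit 6416) (nat_lit 341) (.e (nat_lit 163902) (nat_lit 12) (.e (nat_lit 433920) (nat_lit 2) .nil)))))))) (.g (nat_lit 4) .nil .nil)))) (.nd (nat_lit 5) 
(.lf (nat_lit 271190) (.g (nat_lit 2599) (.e (nat_lit 196666) (nat_lit 13) (.e (nat_lit 65617) (nat_lit 10) (.e (nat_lit 344133) (nat_lit 26) (.e (nat_lit 557070) (nat_lit 9) (.e (nat_lit 296) (nat_lit 22) .nil))))) .nil)) 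
(.lf (nat_lit 271222) (.g (nat_lit 4240) (.e (nat_lit 196666) (nat_lit 13) (.e (nat_lit 65619) (nat_lit 10) (.e (nat_lit 344117) (nat_lit 21) (.e (nat_lit 516139) (nat_lit 7) (.e (nat_lit 409650) (nat_lit 19) (.e (nat_lit 311312) (nat_lit 2) .nil)))))) (.g (nat_lit 4) .nil .nil))))) (.nd (nat_lit 4) (.nd (nat_lit 5) 
(.lf (nat_lit 271182) (.g (nat_lit 3168) (.e (nat_lit 196666) (nat_lit 13) (.e (nat_lit 65617) (nat_lit 10) (.e (nat_lit 344132) (nat_lit 26) (.e (nat_lit 557094) (nat_lit 12) (.e (nat_lit 164022) (nat_lit 46) (.e (nat_lit 704738) (nat_lit 11) (.e (nat_lit 16411) (nat_lit 2) .nil))))))) (.g (nat_lit 6) .nil .nil))) 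
(.lf (nat_lit 271214) (.g (nat_lit 3105) (.e (nat_lit 196666) (nat_lit 13) (.e (nat_lit 65617) (nat_lit 10) (.e (nat_lit 344133) (nat_lit 26) (.e (nat_lit 557091) (nat_lit 12) (.e (nat_lit 163847) (nat_lit 0) (.e (nat_lit 6420) (nat_lit 341) (.e (nat_lit 163908) (nat_lit 12) (.e (nat_lit 426120) (nat_lit 2) .nil)))))))) (.g (nat_lit 4) .nil .nil)))) (.nd (nat_lit 5) 
(.lf (nat_lit 271198) (.g (nat_lit 2999) (.e (nat_lit 196666) (nat_lit 13) (.e (nat_lit 65617) (nat_lit 10) (.e (nat_lit 344133) (nat_lit 26) (.e (nat_lit 557087) (nat_lit 11) (.e (nat_lit 24665) (nat_lit 14) (.e (nat_lit 409344) (nat_lit 2) .nil)))))) (.g (nat_lit 5) .nil .nil))) 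
(.lf (nat_lit 271230) (.g (nat_lit 2654) (.e (nat_lit 196666) (nat_lit 13) (.e (nat_lit 65622) (nat_lit 12) (.e (nat_lit 385066) (nat_lit 26) (.e (nat_lit 532510) (nat_lit 2) (.e (nat_lit 106536) (nat_lit 11) (.e (nat_lit 16413) (nat_lit 2) .nil)))))) (.g (nat_lit 5) .nil .nil)))))))) (.nd (nat_lit 1) (.nd (nat_lit 2) (.nd (nat_lit 3) (.nd (nat_lit 4) (.nd (nat_lit 5) 
(.lf (nat_lit 271169) (.g (nat_lit 3865) (.e (nat_lit 196666) (nat_lit 13) (.e (nat_lit 65617) (nat_lit 10) (.e (nat_lit 344132) (nat_lit 26) (.e (nat_lit 557090) (nat_lit 12) (.e (nat_lit 164020) (nat_lit 45) (.e (nat_lit 696343) (nat_lit 8) (.e (nat_lit 172064) (nat_lit 2) .nil))))))) (.g (nat_lit 5) .nil .nil))) 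
(.lf (nat_lit 271201) (.g (nat_lit 3488) (.e (nat_lit 196666) (nat_lit 13) (.e (nat_lit 65617) (nat_lit 10) (.e (nat_lit 344133) (nat_lit 26) (.e (nat_lit 557089) (nat_lit 12) (.e (nat_lit 163843) (nat_lit 0) (.e (nat_lit 6420) (nat_lit 341) (.e (nat_lit 163908) (nat_lit 12) (.e (nat_lit 426113) (nat_lit 2) .nil)))))))) (.g (nat_lit 5) .nil .nil)))) (.nd (nat_lit 5) 
(.lf (nat_lit 271185) (.g (nat_lit 2034) (.e (nat_lit 196666) (nat_lit 13) (.e (nat_lit 65617) (nat_lit 10) (.e (nat_lit 344133) (nat_lit 26) (.e (nat_lit 557065) (nat_lit 9) (.e (nat_lit 307) (nat_lit 22) .nil))))) .nil)) 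
(.lf (nat_lit 271217) (.g (nat_lit 2571) (.e (nat_lit 196666) (nat_lit 13) (.e (nat_lit 65617) (nat_lit 10) (.e (nat_lit 344133) (nat_lit 26) (.e (nat_lit 557091) (nat_lit 12) (.e (nat_lit 164022) (nat_lit 46) (.e (nat_lit 704736) (nat_lit 11) (.e (nat_lit 16411) (nat_lit 2) .nil))))))) (.g (nat_lit 4) .nil .nil))))) (.nd (nat_lit 4) (.nd (nat_lit 5) 
(.lf (nat_lit 271177) (.g (nat_lit 4757) (.e (nat_lit 196666) (nat_lit 13) (.e (nat_lit 65617) (nat_lit 10) (.e (nat_lit 344132) (nat_lit 26) (.e (nat_lit 557093) (nat_lit 12) (.e (nat_lit 164023) (nat_lit 46) (.e (nat_lit 704737) (nat_lit 11) (.e (nat_lit 16409) (nat_lit 2) .nil))))))) (.g (nat_lit 6) .nil .nil))) 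
(.lf (nat_lit 271209) (.g (nat_lit 3772) (.e (nat_lit 196666) (nat_lit 13) (.e (nat_lit 65617) (nat_lit 10) (.e (nat_lit 344133) (nat_lit 26) (.e (nat_lit 557091) (nat_lit 12) (.e (nat_lit 163843) (nat_lit 0) (.e (nat_lit 6420) (nat_lit 341) (.e (nat_lit 163908) (nat_lit 12) (.e (nat_lit 426120) (nat_lit 2) .nil)))))))) (.g (nat_lit 5) .nil .nil)))) (.nd (nat_lit 5) 
(.lf (nat_lit 271193) (.g (nat_lit 3640) (.e (nat_lit 196666) (nat_lit 13) (.e (nat_lit 65617) (nat_lit 10) (.e (nat_lit 344133) (nat_lit 26) (.e (nat_lit 557085) (nat_lit 11) (.e (nat_lit 24664) (nat_lit 14) (.e (nat_lit 401423) (nat_lit 2) .nil)))))) (.g (nat_lit 6) .nil .nil))) 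
(.lf (nat_lit 271225) (.g (nat_lit 1183) (.e (nat_lit 196666) (nat_lit 13) (.e (nat_lit 65619) (nat_lit 10) (.e (nat_lit 344129) (nat_lit 26) (.e (nat_lit 557087) (nat_lit 11) .nil)))) .nil))))) (.nd (nat_lit 3) (.nd (nat_lit 4) (.nd (nat_lit 5) 
(.lf (nat_lit 271173) (.g (nat_lit 3689) (.e (nat_lit 196666) (nat_lit 13) (.e (nat_lit 65617) (nat_lit 10) (.e (nat_lit 344132) (nat_lit 26) (.e (nat_lit 557093) (nat_lit 12) (.e (nat_lit 164022) (nat_lit 46) (.e (nat_lit 704737) (nat_lit 11) (.e (nat_lit 16410) (nat_lit 2) .nil))))))) (.g (nat_lit 6) .nil .nil))) 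
(.lf (nat_lit 271205) (.g (nat_lit 4506) (.e (nat_lit 196666) (nat_lit 13) (.e (nat_lit 65617) (nat_lit 10) (.e (nat_lit 344133) (nat_lit 26) (.e (nat_lit 557090) (nat_lit 12) (.e (nat_lit 164020) (nat_lit 45) (.e (nat_lit 696343) (nat_lit 8) (.e (nat_lit 172064) (nat_lit 2) .nil))))))) (.g (nat_lit 5) .nil .nil)))) (.nd (nat_lit 5) 
(.lf (nat_lit 271189) (.g (nat_lit 3987) (.e (nat_lit 196666) (nat_lit 13) (.e (nat_lit 65617) (nat_lit 10) (.e (nat_lit 344133) (nat_lit 26) (.e (nat_lit 557068) (nat_lit 9) (.e (nat_lit 290) (nat_lit 21) (.e (nat_lit 336231) (nat_lit 14) (.e (nat_lit 401423) (nat_lit 2) .nil))))))) (.g (nat_lit 0) .nil .nil))) 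
(.lf (nat_lit 271221) (.g (nat_lit 3746) (.e (nat_lit 196666) (nat_lit 13) (.e (nat_lit 65619) (nat_lit 10) (.e (nat_lit 344117) (nat_lit 21) (.e (nat_lit 516139) (nat_lit 7) (.e (nat_lit 409618) (nat_lit 10) .nil))))) .nil)))) (.nd (nat_lit 4) (.nd (nat_lit 5) 
(.lf (nat_lit 271181) (.g (nat_lit 3220) (.e (nat_lit 196666) (nat_lit 13) (.e (nat_lit 65617) (nat_lit 10) (.e (nat_lit 344132) (nat_lit 26) (.e (nat_lit 557094) (nat_lit 12) (.e (nat_lit 164022) (nat_lit 46) (.e (nat_lit 704737) (nat_lit 11) (.e (nat_lit 16410) (nat_lit 2) .nil))))))) (.g (nat_lit 6) .nil .nil))) 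
(.lf (nat_lit 271213) (.g (nat_lit 2340) (.e (nat_lit 196666) (nat_lit 13) (.e (nat_lit 65617) (nat_lit 10) (.e (nat_lit 344133) (nat_lit 26) (.e (nat_lit 557091) (nat_lit 12) (.e (nat_lit 163847) (nat_lit 0) (.e (nat_lit 6420) (nat_lit 341) (.e (nat_lit 163902) (nat_lit 12) (.e (nat_lit 433920) (nat_lit 2) .nil)))))))) (.g (nat_lit 4) .nil .nil)))) (.nd (nat_lit 5) 
(.lf (nat_lit 271197) (.g (nat_lit 2825) (.e (nat_lit 196666) (nat_lit 13) (.e (nat_lit 65617) (nat_lit 10) (.e (nat_lit 344133) (nat_lit 26) (.e (nat_lit 557087) (nat_lit 11) (.e (nat_lit 24664) (nat_lit 14) (.e (nat_lit 401423) (nat_lit 2) .nil)))))) (.g (nat_lit 5) .nil .nil))) 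
(.lf (nat_lit 271229) (.g (nat_lit 2648) (.e (nat_lit 196666) (nat_lit 13) (.e (nat_lit 65622) (nat_lit 12) (.e (nat_lit 385066) (nat_lit 26) (.e (nat_lit 532510) (nat_lit 2) (.e (nat_lit 106534) (nat_lit 11) (.e (nat_lit 16413) (nat_lit 2) .nil)))))) (.g (nat_lit 5) .nil .nil))))))) (.nd (nat_lit 2) (.nd (nat_lit 3) (.nd (nat_lit 4) (.nd (nat_lit 5) 
(.lf (nat_lit 271171) (.g (nat_lit 2887) (.e (nat_lit 196666) (nat_lit 13) (.e (nat_lit 65617) (nat_lit 10) (.e (nat_lit 344132) (nat_lit 26) (.e (nat_lit 557093) (nat_lit 12) (.e (nat_lit 163847) (nat_lit 0) (.e (nat_lit 6418) (nat_lit 341) (.e (nat_lit 163908) (nat_lit 12) (.e (nat_lit 426113) (nat_lit 2) .nil)))))))) (.g (nat_lit 4) .nil .nil))) 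
(.lf (nat_lit 271203) (.g (nat_lit 2150) (.e (nat_lit 196666) (nat_lit 13) (.e (nat_lit 65617) (nat_lit 10) (.e (nat_lit 344133) (nat_lit 26) (.e (nat_lit 557089) (nat_lit 12) (.e (nat_lit 163849) (nat_lit 0) (.e (nat_lit 6420) (nat_lit 341) (.e (nat_lit 163902) (nat_lit 12) (.e (nat_lit 433920) (nat_lit 2) .nil)))))))) (.g (nat_lit 4) .nil .nil)))) (.nd (nat_lit 5) 
(.lf (nat_lit 271187) (.g (nat_lit 1957) (.e (nat_lit 196666) (nat_lit 13) (.e (nat_lit 65617) (nat_lit 10) (.e (nat_lit 344133) (nat_lit 26) (.e (nat_lit 557067) (nat_lit 9) .nil)))) .nil)) 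
(.lf (nat_lit 271219) (.g (nat_lit 3835) (.e (nat_lit 196666) (nat_lit 13) (.e (nat_lit 65617) (nat_lit 10) (.e (nat_lit 344133) (nat_lit 26) (.e (nat_lit 557091) (nat_lit 12) (.e (nat_lit 164022) (nat_lit 46) (.e (nat_lit 704738) (nat_lit 11) (.e (nat_lit 16411) (nat_lit 2) .nil))))))) (.g (nat_lit 6) .nil .nil))))) (.nd (nat_lit 4) (.nd (nat_lit 5) 
(.lf (nat_lit 271179) (.g (nat_lit 3240) (.e (nat_lit 196666) (nat_lit 13) (.e (nat_lit 65617) (nat_lit 10) (.e (nat_lit 344132) (nat_lit 26) (.e (nat_lit 557093) (nat_lit 12) (.e (nat_lit 164023) (nat_lit 46) (.e (nat_lit 704737) (nat_lit 11) (.e (nat_lit 16411) (nat_lit 2) .nil))))))) (.g (nat_lit 5) .nil .nil))) 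
(.lf (nat_lit 271211) (.g (nat_lit 3082) (.e (nat_lit 196666) (nat_lit 13) (.e (nat_lit 65617) (nat_lit 10) (.e (nat_lit 344133) (nat_lit 26) (.e (nat_lit 557091) (nat_lit 12) (.e (nat_lit 163847) (nat_lit 0) (.e (nat_lit 6416) (nat_lit 341) (.e (nat_lit 163908) (nat_lit 12) (.e (nat_lit 426120) (nat_lit 2) .nil)))))))) (.g (nat_lit 4) .nil .nil)))) (.nd (nat_lit 5) 
(.lf (nat_lit 271195) (.g (nat_lit 2679) (.e (nat_lit 196666) (nat_lit 13) (.e (nat_lit 65617) (nat_lit 10) (.e (nat_lit 344133) (nat_lit 26) (.e (nat_lit 557086) (nat_lit 11) (.e (nat_lit 24665) (nat_lit 14) (.e (nat_lit 409344) (nat_lit 2) .nil)))))) (.g (nat_lit 5) .nil .nil))) 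
(.lf (nat_lit 271227) (.g (nat_lit 2831) (.e (nat_lit 196666) (nat_lit 13) (.e (nat_lit 65619) (nat_lit 10) (.e (nat_lit 344129) (nat_lit 26) (.e (nat_lit 557087) (nat_lit 11) (.e (nat_lit 24665) (nat_lit 14) .nil))))) .nil))))) (.nd (nat_lit 3) (.nd (nat_lit 4) (.nd (nat_lit 5) 
(.lf (nat_lit 271175) (.g (nat_lit 2773) (.e (nat_lit 196666) (nat_lit 13) (.e (nat_lit 65617) (nat_lit 10) (.e (nat_lit 344132) (nat_lit 26) (.e (nat_lit 557093) (nat_lit 12) (.e (nat_lit 164023) (nat_lit 46) (.e (nat_lit 704736) (nat_lit 11) (.e (nat_lit 16410) (nat_lit 2) .nil))))))) (.g (nat_lit 4) .nil .nil))) 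
(.lf (nat_lit 271207) (.g (nat_lit 3778) (.e (nat_lit 196666) (nat_lit 13) (.e (nat_lit 65617) (nat_lit 10) (.e (nat_lit 344133) (nat_lit 26) (.e (nat_lit 557091) (nat_lit 12) (.e (nat_lit 163843) (nat_lit 0) (.e (nat_lit 6416) (nat_lit 341) (.e (nat_lit 163908) (nat_lit 12) (.e (nat_lit 426120) (nat_lit 2) .nil)))))))) (.g (nat_lit 5) .nil .nil)))) (.nd (nat_lit 5) 
(.lf (nat_lit 271191) (.g (nat_lit 1621) (.e (nat_lit 196666) (nat_lit 13) (.e (nat_lit 65617) (nat_lit 10) (.e (nat_lit 344133) (nat_lit 26) (.e (nat_lit 557073) (nat_lit 9) (.e (nat_lit 7936) (nat_lit 22) .nil))))) .nil)) 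
(.lf (nat_lit 271223) (.g (nat_lit 1170) (.e (nat_lit 196666) (nat_lit 13) (.e (nat_lit 65619) (nat_lit 10) (.e (nat_lit 344129) (nat_lit 26) (.e (nat_lit 557066) (nat_lit 9) .nil)))) .nil)))) (.nd (nat_lit 4) (.nd (nat_lit 5) 
(.lf (nat_lit 271183) (.g (nat_lit 2574) (.e (nat_lit 196666) (nat_lit 13) (.e (nat_lit 65617) (nat_lit 10) (.e (nat_lit 344133) (nat_lit 26) (.e (nat_lit 557065) (nat_lit 9) (.e (nat_lit 225) (nat_lit 21) (.e (nat_lit 336228) (nat_lit 14) (.e (nat_lit 401425) (nat_lit 2) .nil))))))) (.g (nat_lit 4) .nil .nil))) 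
(.lf (nat_lit 271215) (.g (nat_lit 3980) (.e (nat_lit 196666) (nat_lit 13) (.e (nat_lit 65617) (nat_lit 10) (.e (nat_lit 344133) (nat_lit 26) (.e (nat_lit 557091) (nat_lit 12) (.e (nat_lit 163850) (nat_lit 0) (.e (nat_lit 6425) (nat_lit 342) (.e (nat_lit 229402) (nat_lit 12) (.e (nat_lit 426120) (nat_lit 2) .nil)))))))) (.g (nat_lit 5) .nil .nil)))) (.nd (nat_lit 5) 
(.lf (nat_lit 271199) (.g (nat_lit 3431) (.e (nat_lit 196666) (nat_lit 13) (.e (nat_lit 65617) (nat_lit 10) (.e (nat_lit 344133) (nat_lit 26) (.e (nat_lit 557089) (nat_lit 12) (.e (nat_lit 163843) (nat_lit 0) (.e (nat_lit 6416) (nat_lit 341) (.e (nat_lit 163908) (nat_lit 12) (.e (nat_lit 426113) (nat_lit 2) .nil)))))))) (.g (nat_lit 5) .nil .nil))) 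
(.lf (nat_lit 271231) (.g (nat_lit 2633) (.e (nat_lit 196666) (nat_lit 13) (.e (nat_lit 65622) (nat_lit 12) (.e (nat_lit 385066) (nat_lit 26) (.e (nat_lit 532511) (nat_lit 2) (.e (nat_lit 106534) (nat_lit 11) (.e (nat_lit 16413) (nat_lit 2) .nil)))))) (.g (nat_lit 5) .nil .nil)))))))))

noncomputable def tv3479 : DT := (.nd (nat_lit 0) (.nd (nat_lit 1) (.nd (nat_lit 2) (.nd (nat_lit 3) (.nd (nat_lit 4) (.nd (nat_lit 5) 
(.lf (nat_lit 271232) (.g (nat_lit 1756) (.e (nat_lit 196666) (nat_lit 13) (.e (nat_lit 65622) (nat_lit 12) (.e (nat_lit 385074) (nat_lit 31) (.e (nat_lit 573479) (nat_lit 13) .nil)))) .nil)) 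
(.lf (nat_lit 271264) (.g (nat_lit 4166) (.e (nat_lit 196666) (nat_lit 13) (.e (nat_lit 65642) (nat_lit 15) (.e (nat_lit 3253) (nat_lit 197) (.e (nat_lit 532499) (nat_lit 1) (.e (nat_lit 57847) (nat_lit 252) (.e (nat_lit 57379) (nat_lit 3) (.e (nat_lit 98342) (nat_lit 20) (.e (nat_lit 221211) (nat_lit 22) .nil)))))))) (.g (nat_lit 5) .nil .nil)))) (.nd (nat_lit 5) 
(.lf (nat_lit 271248) (.g (nat_lit 2333) (.e (nat_lit 196666) (nat_lit 13) (.e (nat_lit 65627) (nat_lit 13) (.e (nat_lit 393225) (nat_lit 9) (.e (nat_lit 335986) (nat_lit 1) (.e (nat_lit 57931) (nat_lit 282) (.e (nat_lit 163866) (nat_lit 2) .nil)))))) (.g (nat_lit 4) .nil .nil))) 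
(.lf (nat_lit 271280) (.g (nat_lit 2297) (.e (nat_lit 196668) (nat_lit 14) (.e (nat_lit 73746) (nat_lit 3) (.e (nat_lit 516115) (nat_lit 1) (.e (nat_lit 164149) (nat_lit 152) .nil)))) .nil)))) (.nd (nat_lit 4) (.nd (nat_lit 5) 
(.lf (nat_lit 271240) (.g (nat_lit 3263) (.e (nat_lit 196666) (nat_lit 13) (.e (nat_lit 65625) (nat_lit 13) (.e (nat_lit 393251) (nat_lit 18) (.e (nat_lit 164183) (nat_lit 154) (.e (nat_lit 57409) (nat_lit 12) (.e (nat_lit 336316) (nat_lit 17) .nil)))))) (.g (nat_lit 0) .nil .nil))) 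
(.lf (nat_lit 271272) (.g (nat_lit 977) (.e (nat_lit 196668) (nat_lit 14) (.e (nat_lit 73729) (nat_lit 0) (.e (nat_lit 4780) (nat_lit 281) (.e (nat_lit 1179) (nat_lit 87) .nil)))) .nil))) (.nd (nat_lit 5) 
(.lf (nat_lit 271256) (.g (nat_lit 3292) (.e (nat_lit 196666) (nat_lit 13) (.e (nat_lit 65627) (nat_lit 13) (.e (nat_lit 393253) (nat_lit 18) (.e (nat_lit 164182) (nat_lit 154) (.e (nat_lit 57411) (nat_lit 12) (.e (nat_lit 336316) (nat_lit 17) .nil)))))) (.g (nat_lit 5) .nil .nil))) 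
(.lf (nat_lit 271288) (.g (nat_lit 3148) (.e (nat_lit 196668) (nat_lit 14) (.e (nat_lit 73746) (nat_lit 3) (.e (nat_lit 516115) (nat_lit 1) (.e (nat_lit 164179) (nat_lit 154) (.e (nat_lit 57347) (nat_lit 0) .nil))))) .nil))))) (.nd (nat_lit 3) (.nd (nat_lit 4) (.nd (nat_lit 5) 
(.lf (nat_lit 271236) (.g (nat_lit 2924) (.e (nat_lit 196666) (nat_lit 13) (.e (nat_lit 65624) (nat_lit 12) (.e (nat_lit 385068) (nat_lit 26) (.e (nat_lit 532515) (nat_lit 3) (.e (nat_lit 114697) (nat_lit 11) (.e (nat_lit 426122) (nat_lit 2) .nil)))))) (.g (nat_lit 0) .nil .nil))) 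
(.lf (nat_lit 271268) (.g (nat_lit 2403) (.e (nat_lit 196667) (nat_lit 14) (.e (nat_lit 73754) (nat_lit 8) (.e (nat_lit 557105) (nat_lit 14) (.e (nat_lit 180252) (nat_lit 10) (.e (nat_lit 573473) (nat_lit 12) .nil))))) .nil))) (.nd (nat_lit 5) 
(.lf (nat_lit 271252) (.g (nat_lit 1929) (.e (nat_lit 196666) (nat_lit 13) (.e (nat_lit 65627) (nat_lit 13) (.e (nat_lit 393229) (nat_lit 9) (.e (nat_lit 335988) (nat_lit 1) (.e (nat_lit 57927) (nat_lit 282) .nil))))) .nil)) 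
(.lf (nat_lit 271284) (.g (nat_lit 2297) (.e (nat_lit 196668) (nat_lit 14) (.e (nat_lit 73746) (nat_lit 3) (.e (nat_lit 516115) (nat_lit 1) (.e (nat_lit 164160) (nat_lit 152) .nil)))) .nil)))) (.nd (nat_lit 4) (.nd (nat_lit 5) 
(.lf (nat_lit 271244) (.g (nat_lit 2913) (.e (nat_lit 196666) (nat_lit 13) (.e (nat_lit 65625) (nat_lit 13) (.e (nat_lit 393253) (nat_lit 18) (.e (nat_lit 164183) (nat_lit 154) (.e (nat_lit 57411) (nat_lit 12) (.e (nat_lit 336316) (nat_lit 17) .nil)))))) (.g (nat_lit 5) .nil .nil))) 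
(.lf (nat_lit 271276) (.g (nat_lit 458) (.e (nat_lit 196668) (nat_lit 14) (.e (nat_lit 73733) (nat_lit 0) (.e (nat_lit 5907) (nat_lit 320) .nil))) .nil))) (.nd (nat_lit 5) 
(.lf (nat_lit 271260) (.g (nat_lit 1149) (.e (nat_lit 196666) (nat_lit 13) (.e (nat_lit 65628) (nat_lit 14) (.e (nat_lit 401428) (nat_lit 3) (.e (nat_lit 204864) (nat_lit 27) .nil)))) .nil)) 
(.lf (nat_lit 271292) (.g (nat_lit 3221) (.e (nat_lit 196668) (nat_lit 14) (.e (nat_lit 73746) (nat_lit 3) (.e (nat_lit 516115) (nat_lit 1) (.e (nat_lit 164179) (nat_lit 154) (.e (nat_lit 57355) (nat_lit 0) .nil))))) .nil)))))) (.nd (nat_lit 2) (.nd (nat_lit 3) (.nd (nat_lit 4) (.nd (nat_lit 5) 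
(.lf (nat_lit 271234) (.g (nat_lit 2659) (.e (nat_lit 196666) (nat_lit 13) (.e (nat_lit 65624) (nat_lit 12) (.e (nat_lit 385068) (nat_lit 26) (.e (nat_lit 532513) (nat_lit 3) (.e (nat_lit 114697) (nat_lit 11) (.e (nat_lit 426121) (nat_lit 2) .nil)))))) (.g (nat_lit 4) .nil .nil))) 
(.lf (nat_lit 271266) (.g (nat_lit 3328) (.e (nat_lit 196667) (nat_lit 14) (.e (nat_lit 73753) (nat_lit 8) (.e (nat_lit 557105) (nat_lit 14) (.e (nat_lit 180252) (nat_lit 10) (.e (nat_lit 573474) (nat_lit 12) (.e (nat_lit 57347) (nat_lit 0) (.e (nat_lit 5590) (nat_lit 310) (.e (nat_lit 163870) (nat_lit 2) .nil)))))))) (.g (nat_lit 4) .nil .nil)))) (.nd (nat_lit 5) 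
(.lf (nat_lit 271250) (.g (nat_lit 2236) (.e (nat_lit 196666) (nat_lit 13) (.e (nat_lit 65627) (nat_lit 13) (.e (nat_lit 393225) (nat_lit 9) (.e (nat_lit 335995) (nat_lit 1) (.e (nat_lit 57929) (nat_lit 282) (.e (nat_lit 163866) (nat_lit 2) .nil)))))) (.g (nat_lit 4) .nil .nil))) 
(.lf (nat_lit 271282) (.g (nat_lit 1865) (.e (nat_lit 196668) (nat_lit 14) (.e (nat_lit 73746) (nat_lit 3) (.e (nat_lit 516115) (nat_lit 1) (.e (nat_lit 164153) (nat_lit 152) .nil)))) .nil)))) (.nd (nat_lit 4) (.nd (nat_lit 5) 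
(.lf (nat_lit 271242) (.g (nat_lit 1127) (.e (nat_lit 196666) (nat_lit 13) (.e (nat_lit 65625) (nat_lit 13) (.e (nat_lit 393252) (nat_lit 18) (.e (nat_lit 164183) (nat_lit 154) .nil)))) .nil)) 
(.lf (nat_lit 271274) (.g (nat_lit 462) (.e (nat_lit 196668) (nat_lit 14) (.e (nat_lit 73733) (nat_lit 0) (.e (nat_lit 5600) (nat_lit 310) .nil))) .nil))) (.nd (nat_lit 5) 
(.lf (nat_lit 271258) (.g (nat_lit 5099) (.e (nat_lit 196666) (nat_lit 13) (.e (nat_lit 65628) (nat_lit 14) (.e (nat_lit 401425) (nat_lit 2) (.e (nat_lit 196666) (nat_lit 13) (.e (nat_lit 65630) (nat_lit 14) (.e (nat_lit 401425) (nat_lit 2) .nil)))))) (.g (nat_lit 0) .nil .nil))) 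
(.lf (nat_lit 271290) (.g (nat_lit 3227) (.e (nat_lit 196668) (nat_lit 14) (.e (nat_lit 73746) (nat_lit 3) (.e (nat_lit 516115) (nat_lit 1) (.e (nat_lit 164179) (nat_lit 154) (.e (nat_lit 57349) (nat_lit 0) .nil))))) .nil))))) (.nd (nat_lit 3) (.nd (nat_lit 4) (.nd (nat_lit 5) 
(.lf (nat_lit 271238) (.g (nat_lit 3587) (.e (nat_lit 196666) (nat_lit 13) (.e (nat_lit 65625) (nat_lit 13) (.e (nat_lit 393251) (nat_lit 18) (.e (nat_lit 164177) (nat_lit 154) (.e (nat_lit 57407) (nat_lit 12) (.e (nat_lit 336316) (nat_lit 17) .nil)))))) (.g (nat_lit 0) .nil .nil))) 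
(.lf (nat_lit 271270) (.g (nat_lit 2080) (.e (nat_lit 196667) (nat_lit 14) (.e (nat_lit 73755) (nat_lit 8) (.e (nat_lit 557105) (nat_lit 14) (.e (nat_lit 180252) (nat_lit 10) (.e (nat_lit 573474) (nat_lit 12) .nil))))) .nil))) (.nd (nat_lit 5) 
(.lf (nat_lit 271254) (.g (nat_lit 1525) (.e (nat_lit 196666) (nat_lit 13) (.e (nat_lit 65627) (nat_lit 13) (.e (nat_lit 393251) (nat_lit 18) (.e (nat_lit 164183) (nat_lit 154) (.e (nat_lit 65280) (nat_lit 12) .nil))))) .nil)) 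
(.lf (nat_lit 271286) (.g (nat_lit 2594) (.e (nat_lit 196668) (nat_lit 14) (.e (nat_lit 73746) (nat_lit 3) (.e (nat_lit 516115) (nat_lit 1) (.e (nat_lit 164161) (nat_lit 152) (.e (nat_lit 7936) (nat_lit 95) .nil))))) .nil)))) (.nd (nat_lit 4) (.nd (nat_lit 5) 
(.lf (nat_lit 271246) (.g (nat_lit 2109) (.e (nat_lit 196666) (nat_lit 13) (.e (nat_lit 65627) (nat_lit 13) (.e (nat_lit 393225) (nat_lit 9) (.e (nat_lit 335986) (nat_lit 1) (.e (nat_lit 57926) (nat_lit 282) (.e (nat_lit 163866) (nat_lit 2) .nil)))))) (.g (nat_lit 4) .nil .nil))) 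
(.lf (nat_lit 271278) (.g (nat_lit 1541) (.e (nat_lit 196668) (nat_lit 14) (.e (nat_lit 73733) (nat_lit 0) (.e (nat_lit 5907) (nat_lit 320) (.e (nat_lit 1181) (nat_lit 87) (.e (nat_lit 57480) (nat_lit 28) .nil))))) .nil))) (.nd (nat_lit 5) 
(.lf (nat_lit 271262) (.g (nat_lit 2052) (.e (nat_lit 196666) (nat_lit 13) (.e (nat_lit 65630) (nat_lit 14) (.e (nat_lit 401425) (nat_lit 2) (.e (nat_lit 196667) (nat_lit 14) .nil)))) .nil)) 
(.lf (nat_lit 271294) (.g (nat_lit 3298) (.e (nat_lit 196668) (nat_lit 14) (.e (nat_lit 73746) (nat_lit 3) (.e (nat_lit 516115) (nat_lit 1) (.e (nat_lit 164179) (nat_lit 154) (.e (nat_lit 57359) (nat_lit 0) .nil))))) .nil))))))) (.nd (nat_lit 1) (.nd (nat_lit 2) (.nd (nat_lit 3) (.nd (nat_lit 4) (.nd (nat_lit 5) 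
(.lf (nat_lit 271233) (.g (nat_lit 2365) (.e (nat_lit 196666) (nat_lit 13) (.e (nat_lit 65624) (nat_lit 12) (.e (nat_lit 385068) (nat_lit 26) (.e (nat_lit 532508) (nat_lit 2) (.e (nat_lit 106534) (nat_lit 11) (.e (nat_lit 16413) (nat_lit 2) .nil)))))) (.g (nat_lit 4) .nil .nil))) 
(.lf (nat_lit 271265) (.g (nat_lit 1584) (.e (nat_lit 196667) (nat_lit 14) (.e (nat_lit 73746) (nat_lit 3) (.e (nat_lit 516120) (nat_lit 1) (.e (nat_lit 164183) (nat_lit 154) .nil)))) .nil))) (.nd (nat_lit 5) 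
(.lf (nat_lit 271249) (.g (nat_lit 4266) (.e (nat_lit 196666) (nat_lit 13) (.e (nat_lit 65627) (nat_lit 13) (.e (nat_lit 393225) (nat_lit 9) (.e (nat_lit 335988) (nat_lit 1) (.e (nat_lit 57926) (nat_lit 282) (.e (nat_lit 163870) (nat_lit 2) .nil)))))) (.g (nat_lit 0) .nil .nil))) 
(.lf (nat_lit 271281) (.g (nat_lit 2224) (.e (nat_lit 196668) (nat_lit 14) (.e (nat_lit 73746) (nat_lit 3) (.e (nat_lit 516115) (nat_lit 1) (.e (nat_lit 164150) (nat_lit 152) .nil)))) .nil)))) (.nd (nat_lit 4) (.nd (nat_lit 5) 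
(.lf (nat_lit 271241) (.g (nat_lit 3384) (.e (nat_lit 196666) (nat_lit 13) (.e (nat_lit 65625) (nat_lit 13) (.e (nat_lit 393251) (nat_lit 18) (.e (nat_lit 164183) (nat_lit 154) (.e (nat_lit 57411) (nat_lit 12) (.e (nat_lit 336316) (nat_lit 17) .nil)))))) (.g (nat_lit 0) .nil .nil))) 
(.lf (nat_lit 271273) (.g (nat_lit 449) (.e (nat_lit 196668) (nat_lit 14) (.e (nat_lit 73733) (nat_lit 0) (.e (nat_lit 5596) (nat_lit 310) .nil))) .nil))) (.nd (nat_lit 5) 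
(.lf (nat_lit 271257) (.g (nat_lit 4724) (.e (nat_lit 196666) (nat_lit 13) (.e (nat_lit 65628) (nat_lit 14) (.e (nat_lit 401425) (nat_lit 2) (.e (nat_lit 196666) (nat_lit 13) (.e (nat_lit 65628) (nat_lit 14) (.e (nat_lit 401425) (nat_lit 2) .nil)))))) (.g (nat_lit 0) .nil .nil))) 
(.lf (nat_lit 271289) (.g (nat_lit 3081) (.e (nat_lit 196668) (nat_lit 14) (.e (nat_lit 73746) (nat_lit 3) (.e (nat_lit 516115) (nat_lit 1) (.e (nat_lit 164179) (nat_lit 154) (.e (nat_lit 57348) (nat_lit 0) .nil))))) .nil))))) (.nd (nat_lit 3) (.nd (nat_lit 4) (.nd (nat_lit 5) 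
(.lf (nat_lit 271237) (.g (nat_lit 3161) (.e (nat_lit 196666) (nat_lit 13) (.e (nat_lit 65625) (nat_lit 13) (.e (nat_lit 393251) (nat_lit 18) (.e (nat_lit 164177) (nat_lit 154) (.e (nat_lit 57406) (nat_lit 12) (.e (nat_lit 336316) (nat_lit 17) .nil)))))) (.g (nat_lit 0) .nil .nil))) 
(.lf (nat_lit 271269) (.g (nat_lit 3443) (.e (nat_lit 196667) (nat_lit 14) (.e (nat_lit 73754) (nat_lit 8) (.e (nat_lit 557105) (nat_lit 14) (.e (nat_lit 180252) (nat_lit 10) (.e (nat_lit 573474) (nat_lit 12) (.e (nat_lit 57348) (nat_lit 0) (.e (nat_lit 5591) (nat_lit 310) (.e (nat_lit 163870) (nat_lit 2) .nil)))))))) (.g (nat_lit 4) .nil .nil)))) (.nd (nat_lit 5) 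
(.lf (nat_lit 271253) (.g (nat_lit 3010) (.e (nat_lit 196666) (nat_lit 13) (.e (nat_lit 65627) (nat_lit 13) (.e (nat_lit 393229) (nat_lit 9) (.e (nat_lit 335995) (nat_lit 1) (.e (nat_lit 57931) (nat_lit 282) .nil))))) .nil)) 
(.lf (nat_lit 271285) (.g (nat_lit 2298) (.e (nat_lit 196668) (nat_lit 14) (.e (nat_lit 73746) (nat_lit 3) (.e (nat_lit 516115) (nat_lit 1) (.e (nat_lit 164161) (nat_lit 152) .nil)))) .nil)))) (.nd (nat_lit 4) (.nd (nat_lit 5) 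
(.lf (nat_lit 271245) (.g (nat_lit 3691) (.e (nat_lit 196666) (nat_lit 13) (.e (nat_lit 65626) (nat_lit 13) (.e (nat_lit 393251) (nat_lit 18) (.e (nat_lit 164179) (nat_lit 154) (.e (nat_lit 57411) (nat_lit 12) (.e (nat_lit 336316) (nat_lit 17) .nil)))))) (.g (nat_lit 5) .nil .nil))) 
(.lf (nat_lit 271277) (.g (nat_lit 1122) (.e (nat_lit 196668) (nat_lit 14) (.e (nat_lit 73733) (nat_lit 0) (.e (nat_lit 5907) (nat_lit 320) (.e (nat_lit 1172) (nat_lit 87) .nil)))) .nil))) (.nd (nat_lit 5) 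
(.lf (nat_lit 271261) (.g (nat_lit 2871) (.e (nat_lit 196666) (nat_lit 13) (.e (nat_lit 65629) (nat_lit 14) (.e (nat_lit 401425) (nat_lit 2) (.e (nat_lit 196663) (nat_lit 13) (.e (nat_lit 65630) (nat_lit 14) .nil))))) .nil)) 
(.lf (nat_lit 271293) (.g (nat_lit 3250) (.e (nat_lit 196668) (nat_lit 14) (.e (nat_lit 73746) (nat_lit 3) (.e (nat_lit 516115) (nat_lit 1) (.e (nat_lit 164179) (nat_lit 154) (.e (nat_lit 57358) (nat_lit 0) .nil))))) .nil)))))) (.nd (nat_lit 2) (.nd (nat_lit 3) (.nd (nat_lit 4) (.nd (nat_lit 5) 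
(.lf (nat_lit 271235) (.g (nat_lit 2481) (.e (nat_lit 196666) (nat_lit 13) (.e (nat_lit 65624) (nat_lit 12) (.e (nat_lit 385068) (nat_lit 26) (.e (nat_lit 532515) (nat_lit 3) (.e (nat_lit 114697) (nat_lit 11) (.e (nat_lit 426121) (nat_lit 2) .nil)))))) (.g (nat_lit 4) .nil .nil))) 
(.lf (nat_lit 271267) (.g (nat_lit 1801) (.e (nat_lit 196667) (nat_lit 14) (.e (nat_lit 73754) (nat_lit 8) (.e (nat_lit 557105) (nat_lit 14) (.e (nat_lit 180245) (nat_lit 5) .nil)))) .nil))) (.nd (nat_lit 5) 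
(.lf (nat_lit 271251) (.g (nat_lit 1785) (.e (nat_lit 196666) (nat_lit 13) (.e (nat_lit 65627) (nat_lit 13) (.e (nat_lit 393229) (nat_lit 9) (.e (nat_lit 335986) (nat_lit 1) (.e (nat_lit 57927) (nat_lit 282) .nil))))) .nil)) 
(.lf (nat_lit 271283) (.g (nat_lit 2319) (.e (nat_lit 196668) (nat_lit 14) (.e (nat_lit 73746) (nat_lit 3) (.e (nat_lit 516115) (nat_lit 1) (.e (nat_lit 164155) (nat_lit 152) (.e (nat_lit 1175) (nat_lit 87) .nil))))) .nil)))) (.nd (nat_lit 4) (.nd (nat_lit 5) 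
(.lf (nat_lit 271243) (.g (nat_lit 2518) (.e (nat_lit 196666) (nat_lit 13) (.e (nat_lit 65625) (nat_lit 13) (.e (nat_lit 393253) (nat_lit 18) (.e (nat_lit 164179) (nat_lit 154) (.e (nat_lit 57409) (nat_lit 12) (.e (nat_lit 336316) (nat_lit 17) .nil)))))) (.g (nat_lit 4) .nil .nil))) 
(.lf (nat_lit 271275) (.g (nat_lit 449) (.e (nat_lit 196668) (nat_lit 14) (.e (nat_lit 73733) (nat_lit 0) (.e (nat_lit 5906) (nat_lit 320) .nil))) .nil))) (.nd (nat_lit 5) 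
(.lf (nat_lit 271259) (.g (nat_lit 2141) (.e (nat_lit 196666) (nat_lit 13) (.e (nat_lit 65628) (nat_lit 14) (.e (nat_lit 401425) (nat_lit 2) (.e (nat_lit 196667) (nat_lit 14) .nil)))) .nil)) 
(.lf (nat_lit 271291) (.g (nat_lit 3318) (.e (nat_lit 196668) (nat_lit 14) (.e (nat_lit 73746) (nat_lit 3) (.e (nat_lit 516115) (nat_lit 1) (.e (nat_lit 164179) (nat_lit 154) (.e (nat_lit 57351) (nat_lit 0) .nil))))) .nil))))) (.nd (nat_lit 3) (.nd (nat_lit 4) (.nd (nat_lit 5) 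
(.lf (nat_lit 271239) (.g (nat_lit 3505) (.e (nat_lit 196666) (nat_lit 13) (.e (nat_lit 65625) (nat_lit 13) (.e (nat_lit 393251) (nat_lit 18) (.e (nat_lit 164179) (nat_lit 154) (.e (nat_lit 57407) (nat_lit 12) (.e (nat_lit 336316) (nat_lit 17) .nil)))))) (.g (nat_lit 0) .nil .nil))) 
(.lf (nat_lit 271271) (.g (nat_lit 3834) (.e (nat_lit 196667) (nat_lit 14) (.e (nat_lit 73755) (nat_lit 8) (.e (nat_lit 557105) (nat_lit 14) (.e (nat_lit 180252) (nat_lit 10) (.e (nat_lit 573474) (nat_lit 12) (.e (nat_lit 57347) (nat_lit 0) (.e (nat_lit 5590) (nat_lit 310) (.e (nat_lit 163870) (nat_lit 2) .nil)))))))) (.g (nat_lit 6) .nil .nil)))) (.nd (nat_lit 5) 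
(.lf (nat_lit 271255) (.g (nat_lit 3421) (.e (nat_lit 196666) (nat_lit 13) (.e (nat_lit 65627) (nat_lit 13) (.e (nat_lit 393253) (nat_lit 18) (.e (nat_lit 164179) (nat_lit 154) (.e (nat_lit 57406) (nat_lit 12) (.e (nat_lit 336316) (nat_lit 17) .nil)))))) (.g (nat_lit 5) .nil .nil))) 
(.lf (nat_lit 271287) (.g (nat_lit 3223) (.e (nat_lit 196668) (nat_lit 14) (.e (nat_lit 73746) (nat_lit 3) (.e (nat_lit 516115) (nat_lit 1) (.e (nat_lit 164179) (nat_lit 154) (.e (nat_lit 57345) (nat_lit 0) .nil))))) .nil)))) (.nd (nat_lit 4) (.nd (nat_lit 5) 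
(.lf (nat_lit 271247) (.g (nat_lit 3505) (.e (nat_lit 196666) (nat_lit 13) (.e (nat_lit 65627) (nat_lit 13) (.e (nat_lit 393225) (nat_lit 9) (.e (nat_lit 335986) (nat_lit 1) (.e (nat_lit 57927) (nat_lit 282) (.e (nat_lit 163870) (nat_lit 2) .nil)))))) (.g (nat_lit 0) .nil .nil))) 
(.lf (nat_lit 271279) (.g (nat_lit 2141) (.e (nat_lit 196668) (nat_lit 14) (.e (nat_lit 73746) (nat_lit 3) (.e (nat_lit 516115) (nat_lit 1) (.e (nat_lit 164148) (nat_lit 152) .nil)))) .nil))) (.nd (nat_lit 5) 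
(.lf (nat_lit 271263) (.g (nat_lit 4085) (.e (nat_lit 196666) (nat_lit 13) (.e (nat_lit 65642) (nat_lit 15) (.e (nat_lit 3253) (nat_lit 197) (.e (nat_lit 532499) (nat_lit 1) (.e (nat_lit 57847) (nat_lit 252) (.e (nat_lit 57379) (nat_lit 3) (.e (nat_lit 98341) (nat_lit 20) (.e (nat_lit 221211) (nat_lit 22) .nil)))))))) (.g (nat_lit 5) .nil .nil))) 
(.lf (nat_lit 271295) (.g (nat_lit 3390) (.e (nat_lit 196668) (nat_lit 14) (.e (nat_lit 73746) (nat_lit 3) (.e (nat_lit 516115) (nat_lit 1) (.e (nat_lit 164179) (nat_lit 154) (.e (nat_lit 57376) (nat_lit 3) (.e (nat_lit 98342) (nat_lit 20) (.e (nat_lit 221212) (nat_lit 22) .nil))))))) (.g (nat_lit 4) .nil .nil)))))))))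

noncomputable def tv3480 : DT := (.nd (nat_lit 0) (.nd (nat_lit 1) (.nd (nat_lit 2) (.nd (nat_lit 3) (.nd (nat_lit 4) (.nd (nat_lit 5) 
(.lf (nat_lit 271296) (.g (nat_lit 2408) (.e (nat_lit 196668) (nat_lit 14) (.e (nat_lit 73746) (nat_lit 3) (.e (nat_lit 516115) (nat_lit 1) (.e (nat_lit 164182) (nat_lit 154) (.e (nat_lit 57351) (nat_lit 0) .nil))))) .nil)) 
(.lf (nat_lit 271328) (.g (nat_lit 2067) (.e (nat_lit 196668) (nat_lit 14) (.e (nat_lit 73747) (nat_lit 3) (.e (nat_lit 516115) (nat_lit 1) (.e (nat_lit 164147) (nat_lit 152) (.e (nat_lit 1172) (nat_lit 87) .nil))))) .nil))) (.nd (nat_lit 5) 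
(.lf (nat_lit 271312) (.g (nat_lit 2596) (.e (nat_lit 196668) (nat_lit 14) (.e (nat_lit 73746) (nat_lit 3) (.e (nat_lit 516119) (nat_lit 1) (.e (nat_lit 164179) (nat_lit 154) (.e (nat_lit 57347) (nat_lit 0) .nil))))) .nil)) 
(.lf (nat_lit 271344) (.g (nat_lit 3374) (.e (nat_lit 196668) (nat_lit 14) (.e (nat_lit 73747) (nat_lit 3) (.e (nat_lit 516115) (nat_lit 1) (.e (nat_lit 164179) (nat_lit 154) (.e (nat_lit 57347) (nat_lit 0) (.e (nat_lit 1781) (nat_lit 119) (.e (nat_lit 516131) (nat_lit 3) (.e (nat_lit 221212) (nat_lit 22) .nil)))))))) (.g (nat_lit 5) .nil .nil))))) (.nd (nat_lit 4) (.nd (nat_lit 5) 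
(.lf (nat_lit 271304) (.g (nat_lit 2369) (.e (nat_lit 196668) (nat_lit 14) (.e (nat_lit 73746) (nat_lit 3) (.e (nat_lit 516117) (nat_lit 1) (.e (nat_lit 164183) (nat_lit 154) (.e (nat_lit 57351) (nat_lit 0) .nil))))) .nil)) 
(.lf (nat_lit 271336) (.g (nat_lit 1603) (.e (nat_lit 196668) (nat_lit 14) (.e (nat_lit 73747) (nat_lit 3) (.e (nat_lit 516115) (nat_lit 1) (.e (nat_lit 164161) (nat_lit 152) .nil)))) .nil))) (.nd (nat_lit 5) 
(.lf (nat_lit 271320) (.g (nat_lit 1996) (.e (nat_lit 196668) (nat_lit 14) (.e (nat_lit 73746) (nat_lit 3) (.e (nat_lit 516120) (nat_lit 1) (.e (nat_lit 164160) (nat_lit 152) .nil)))) .nil)) 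
(.lf (nat_lit 271352) (.g (nat_lit 2358) (.e (nat_lit 196668) (nat_lit 14) (.e (nat_lit 73747) (nat_lit 3) (.e (nat_lit 516115) (nat_lit 1) (.e (nat_lit 164182) (nat_lit 154) (.e (nat_lit 57344) (nat_lit 0) (.e (nat_lit 1802) (nat_lit 119) (.e (nat_lit 516131) (nat_lit 3) (.e (nat_lit 221212) (nat_lit 22) .nil)))))))) (.g (nat_lit 4) .nil .nil)))))) 
(.nd (nat_lit 3) (.nd (nat_lit 4) (.nd (nat_lit 5) 
(.lf (nat_lit 271300) (.g (nat_lit 1369) (.e (nat_lit 196668) (nat_lit 14) (.e (nat_lit 73746) (nat_lit 3) (.e (nat_lit 516117) (nat_lit 1) (.e (nat_lit 164159) (nat_lit 152) .nil)))) .nil)) 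
(.lf (nat_lit 271332) (.g (nat_lit 2638) (.e (nat_lit 196668) (nat_lit 14) (.e (nat_lit 73747) (nat_lit 3) (.e (nat_lit 516115) (nat_lit 1) (.e (nat_lit 164151) (nat_lit 152) (.e (nat_lit 7936) (nat_lit 87) (.e (nat_lit 57464) (nat_lit 23) (.e (nat_lit 516129) (nat_lit 3) (.e (nat_lit 221210) (nat_lit 22) .nil)))))))) (.g (nat_lit 4) .nil .nil)))) (.nd (nat_lit 5) 
(.lf (nat_lit 271316) (.g (nat_lit 2596) (.e (nat_lit 196668) (nat_lit 14) (.e (nat_lit 73746) (nat_lit 3) (.e (nat_lit 516119) (nat_lit 1) (.e (nat_lit 164179) (nat_lit 154) (.e (nat_lit 57355) (nat_lit 0) .nil))))) .nil)) 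
(.lf (nat_lit 271348) (.g (nat_lit 2416) (.e (nat_lit 196668) (nat_lit 14) (.e (nat_lit 73747) (nat_lit 3) (.e (nat_lit 516115) (nat_lit 1) (.e (nat_lit 164179) (nat_lit 154) (.e (nat_lit 57355) (nat_lit 0) .nil))))) .nil)))) (.nd (nat_lit 4) (.nd (nat_lit 5) 
(.lf (nat_lit 271308) (.g (nat_lit 1559) (.e (nat_lit 196668) (nat_lit 14) (.e (nat_lit 73746) (nat_lit 3) (.e (nat_lit 516119) (nat_lit 1) (.e (nat_lit 164154) (nat_lit 152) .nil)))) .nil)) 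
(.lf (nat_lit 271340) (.g (nat_lit 2613) (.e (nat_lit 196668) (nat_lit 14) (.e (nat_lit 73747) (nat_lit 3) (.e (nat_lit 516115) (nat_lit 1) (.e (nat_lit 164179) (nat_lit 154) (.e (nat_lit 57344) (nat_lit 0) .nil))))) .nil))) (.nd (nat_lit 5) 
(.lf (nat_lit 271324) (.g (nat_lit 2464) (.e (nat_lit 196668) (nat_lit 14) (.e (nat_lit 73746) (nat_lit 3) (.e (nat_lit 516129) (nat_lit 3) (.e (nat_lit 221214) (nat_lit 23) (.e (nat_lit 204828) (nat_lit 18) .nil))))) .nil)) 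
(.lf (nat_lit 271356) (.g (nat_lit 2373) (.e (nat_lit 196668) (nat_lit 14) (.e (nat_lit 73747) (nat_lit 3) (.e (nat_lit 516115) (nat_lit 1) (.e (nat_lit 164183) (nat_lit 154) (.e (nat_lit 57358) (nat_lit 0) (.e (nat_lit 1802) (nat_lit 119) (.e (nat_lit 516131) (nat_lit 3) (.e (nat_lit 221212) (nat_lit 22) .nil)))))))) (.g (nat_lit 4) .nil .nil))))))) 
(.nd (nat_lit 2) (.nd (nat_lit 3) (.nd (nat_lit 4) (.nd (nat_lit 5) 
(.lf (nat_lit 271298) (.g (nat_lit 2673) (.e (nat_lit 196668) (nat_lit 14) (.e (nat_lit 73746) (nat_lit 3) (.e (nat_lit 516115) (nat_lit 1) (.e (nat_lit 164183) (nat_lit 154) (.e (nat_lit 57351) (nat_lit 0) .nil))))) .nil)) 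
(.lf (nat_lit 271330) (.g (nat_lit 1832) (.e (nat_lit 196668) (nat_lit 14) (.e (nat_lit 73747) (nat_lit 3) (.e (nat_lit 516115) (nat_lit 1) (.e (nat_lit 164149) (nat_lit 152) .nil)))) .nil))) (.nd (nat_lit 5) 
(.lf (nat_lit 271314) (.g (nat_lit 2950) (.e (nat_lit 196668) (nat_lit 14) (.e (nat_lit 73746) (nat_lit 3) (.e (nat_lit 516119) (nat_lit 1) (.e (nat_lit 164179) (nat_lit 154) (.e (nat_lit 57349) (nat_lit 0) (.e (nat_lit 1803) (nat_lit 119) (.e (nat_lit 516131) (nat_lit 3) (.e (nat_lit 221212) (nat_lit 22) .nil)))))))) (.g (nat_lit 4) .nil .nil))) 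
(.lf (nat_lit 271346) (.g (nat_lit 2466) (.e (nat_lit 196668) (nat_lit 14) (.e (nat_lit 73747) (nat_lit 3) (.e (nat_lit 516115) (nat_lit 1) (.e (nat_lit 164179) (nat_lit 154) (.e (nat_lit 57354) (nat_lit 0) .nil))))) .nil)))) (.nd (nat_lit 4) (.nd (nat_lit 5) 
(.lf (nat_lit 271306) (.g (nat_lit 1568) (.e (nat_lit 196668) (nat_lit 14) (.e (nat_lit 73746) (nat_lit 3) (.e (nat_lit 516119) (nat_lit 1) (.e (nat_lit 164147) (nat_lit 152) .nil)))) .nil)) 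
(.lf (nat_lit 271338) (.g (nat_lit 1780) (.e (nat_lit 196668) (nat_lit 14) (.e (nat_lit 73747) (nat_lit 3) (.e (nat_lit 516115) (nat_lit 1) (.e (nat_lit 164163) (nat_lit 152) .nil)))) .nil))) (.nd (nat_lit 5) 
(.lf (nat_lit 271322) (.g (nat_lit 2508) (.e (nat_lit 196668) (nat_lit 14) (.e (nat_lit 73746) (nat_lit 3) (.e (nat_lit 516120) (nat_lit 1) (.e (nat_lit 164182) (nat_lit 154) (.e (nat_lit 57358) (nat_lit 0) .nil))))) .nil)) 
(.lf (nat_lit 271354) (.g (nat_lit 2383) (.e (nat_lit 196668) (nat_lit 14) (.e (nat_lit 73747) (nat_lit 3) (.e (nat_lit 516115) (nat_lit 1) (.e (nat_lit 164183) (nat_lit 154) (.e (nat_lit 57352) (nat_lit 0) (.e (nat_lit 1803) (nat_lit 119) (.e (nat_lit 516131) (nat_lit 3) (.e (nat_lit 221212) (nat_lit 22) .nil)))))))) (.g (nat_lit 4) .nil .nil)))))) 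
(.nd (nat_lit 3) (.nd (nat_lit 4) (.nd (nat_lit 5) 
(.lf (nat_lit 271302) (.g (nat_lit 1793) (.e (nat_lit 196668) (nat_lit 14) (.e (nat_lit 73746) (nat_lit 3) (.e (nat_lit 516117) (nat_lit 1) (.e (nat_lit 164161) (nat_lit 152) .nil)))) .nil)) 
(.lf (nat_lit 271334) (.g (nat_lit 1832) (.e (nat_lit 196668) (nat_lit 14) (.e (nat_lit 73747) (nat_lit 3) (.e (nat_lit 516115) (nat_lit 1) (.e (nat_lit 164154) (nat_lit 152) .nil)))) .nil))) (.nd (nat_lit 5) 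
(.lf (nat_lit 271318) (.g (nat_lit 1361) (.e (nat_lit 196668) (nat_lit 14) (.e (nat_lit 73746) (nat_lit 3) (.e (nat_lit 516120) (nat_lit 1) (.e (nat_lit 164147) (nat_lit 152) .nil)))) .nil)) 
(.lf (nat_lit 271350) (.g (nat_lit 2603) (.e (nat_lit 196668) (nat_lit 14) (.e (nat_lit 73747) (nat_lit 3) (.e (nat_lit 516115) (nat_lit 1) (.e (nat_lit 164179) (nat_lit 154) (.e (nat_lit 57359) (nat_lit 0) .nil))))) .nil)))) (.nd (nat_lit 4) (.nd (nat_lit 5) 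
(.lf (nat_lit 271310) (.g (nat_lit 1907) (.e (nat_lit 196668) (nat_lit 14) (.e (nat_lit 73746) (nat_lit 3) (.e (nat_lit 516119) (nat_lit 1) (.e (nat_lit 164157) (nat_lit 152) (.e (nat_lit 1286) (nat_lit 95) .nil))))) .nil)) 
(.lf (nat_lit 271342) (.g (nat_lit 2862) (.e (nat_lit 196668) (nat_lit 14) (.e (nat_lit 73747) (nat_lit 3) (.e (nat_lit 516115) (nat_lit 1) (.e (nat_lit 164179) (nat_lit 154) (.e (nat_lit 57347) (nat_lit 0) (.e (nat_lit 1781) (nat_lit 119) (.e (nat_lit 516129) (nat_lit 3) (.e (nat_lit 221210) (nat_lit 22) .nil)))))))) (.g (nat_lit 4) .nil .nil)))) (.nd (nat_lit 5) 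
(.lf (nat_lit 271326) (.g (nat_lit 2686) (.e (nat_lit 196668) (nat_lit 14) (.e (nat_lit 73746) (nat_lit 3) (.e (nat_lit 516129) (nat_lit 3) (.e (nat_lit 221215) (nat_lit 23) (.e (nat_lit 204828) (nat_lit 18) .nil))))) .nil)) 
(.lf (nat_lit 271358) (.g (nat_lit 1716) (.e (nat_lit 196668) (nat_lit 14) (.e (nat_lit 73747) (nat_lit 3) (.e (nat_lit 516117) (nat_lit 1) (.e (nat_lit 164180) (nat_lit 154) (.e (nat_lit 57351) (nat_lit 0) .nil))))) .nil))))))) (.nd (nat_lit 1) (.nd (nat_lit 2) (.nd (nat_lit 3) (.nd (nat_lit 4) (.nd (nat_lit 5) 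
(.lf (nat_lit 271297) (.g (nat_lit 2408) (.e (nat_lit 196668) (nat_lit 14) (.e (nat_lit 73746) (nat_lit 3) (.e (nat_lit 516115) (nat_lit 1) (.e (nat_lit 164182) (nat_lit 154) (.e (nat_lit 57361) (nat_lit 0) .nil))))) .nil)) 
(.lf (nat_lit 271329) (.g (nat_lit 1605) (.e (nat_lit 196668) (nat_lit 14) (.e (nat_lit 73747) (nat_lit 3) (.e (nat_lit 516115) (nat_lit 1) (.e (nat_lit 164148) (nat_lit 152) .nil)))) .nil))) (.nd (nat_lit 5) 
(.lf (nat_lit 271313) (.g (nat_lit 2588) (.e (nat_lit 196668) (nat_lit 14) (.e (nat_lit 73746) (nat_lit 3) (.e (nat_lit 516119) (nat_lit 1) (.e (nat_lit 164179) (nat_lit 154) (.e (nat_lit 57348) (nat_lit 0) .nil))))) .nil)) 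
(.lf (nat_lit 271345) (.g (nat_lit 2345) (.e (nat_lit 196668) (nat_lit 14) (.e (nat_lit 73747) (nat_lit 3) (.e (nat_lit 516115) (nat_lit 1) (.e (nat_lit 164179) (nat_lit 154) (.e (nat_lit 57348) (nat_lit 0) .nil))))) .nil)))) (.nd (nat_lit 4) (.nd (nat_lit 5) 
(.lf (nat_lit 271305) (.g (nat_lit 2513) (.e (nat_lit 196668) (nat_lit 14) (.e (nat_lit 73746) (nat_lit 3) (.e (nat_lit 516117) (nat_lit 1) (.e (nat_lit 164183) (nat_lit 154) (.e (nat_lit 57356) (nat_lit 0) .nil))))) .nil)) 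
(.lf (nat_lit 271337) (.g (nat_lit 2211) (.e (nat_lit 196668) (nat_lit 14) (.e (nat_lit 73747) (nat_lit 3) (.e (nat_lit 516115) (nat_lit 1) (.e (nat_lit 164162) (nat_lit 152) (.e (nat_lit 1289) (nat_lit 95) .nil))))) .nil))) (.nd (nat_lit 5) 
(.lf (nat_lit 271321) (.g (nat_lit 2895) (.e (nat_lit 196668) (nat_lit 14) (.e (nat_lit 73746) (nat_lit 3) (.e (nat_lit 516120) (nat_lit 1) (.e (nat_lit 164182) (nat_lit 154) (.e (nat_lit 57351) (nat_lit 0) (.e (nat_lit 1803) (nat_lit 119) (.e (nat_lit 516131) (nat_lit 3) (.e (nat_lit 221212) (nat_lit 22) .nil)))))))) (.g (nat_lit 4) .nil .nil))) 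
(.lf (nat_lit 271353) (.g (nat_lit 2158) (.e (nat_lit 196668) (nat_lit 14) (.e (nat_lit 73747) (nat_lit 3) (.e (nat_lit 516115) (nat_lit 1) (.e (nat_lit 164183) (nat_lit 154) (.e (nat_lit 57344) (nat_lit 0) .nil))))) .nil))))) (.nd (nat_lit 3) (.nd (nat_lit 4) (.nd (nat_lit 5) 
(.lf (nat_lit 271301) (.g (nat_lit 1837) (.e (nat_lit 196668) (nat_lit 14) (.e (nat_lit 73746) (nat_lit 3) (.e (nat_lit 516117) (nat_lit 1) (.e (nat_lit 164160) (nat_lit 152) (.e (nat_lit 1287) (nat_lit 95) .nil))))) .nil)) 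
(.lf (nat_lit 271333) (.g (nat_lit 1083) (.e (nat_lit 196668) (nat_lit 14) (.e (nat_lit 73747) (nat_lit 3) (.e (nat_lit 516115) (nat_lit 1) (.e (nat_lit 164153) (nat_lit 152) .nil)))) .nil))) (.nd (nat_lit 5) 
(.lf (nat_lit 271317) (.g (nat_lit 2595) (.e (nat_lit 196668) (nat_lit 14) (.e (nat_lit 73746) (nat_lit 3) (.e (nat_lit 516119) (nat_lit 1) (.e (nat_lit 164179) (nat_lit 154) (.e (nat_lit 57358) (nat_lit 0) .nil))))) .nil)) 
(.lf (nat_lit 271349) (.g (nat_lit 2441) (.e (nat_lit 196668) (nat_lit 14) (.e (nat_lit 73747) (nat_lit 3) (.e (nat_lit 516115) (nat_lit 1) (.e (nat_lit 164179) (nat_lit 154) (.e (nat_lit 57358) (nat_lit 0) .nil))))) .nil)))) (.nd (nat_lit 4) (.nd (nat_lit 5) 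
(.lf (nat_lit 271309) (.g (nat_lit 1725) (.e (nat_lit 196668) (nat_lit 14) (.e (nat_lit 73746) (nat_lit 3) (.e (nat_lit 516119) (nat_lit 1) (.e (nat_lit 164156) (nat_lit 152) .nil)))) .nil)) 
(.lf (nat_lit 271341) (.g (nat_lit 2358) (.e (nat_lit 196668) (nat_lit 14) (.e (nat_lit 73747) (nat_lit 3) (.e (nat_lit 516115) (nat_lit 1) (.e (nat_lit 164179) (nat_lit 154) (.e (nat_lit 57345) (nat_lit 0) .nil))))) .nil))) (.nd (nat_lit 5) 
(.lf (nat_lit 271325) (.g (nat_lit 2359) (.e (nat_lit 196668) (nat_lit 14) (.e (nat_lit 73746) (nat_lit 3) (.e (nat_lit 516129) (nat_lit 3) (.e (nat_lit 221214) (nat_lit 23) (.e (nat_lit 204830) (nat_lit 18) .nil))))) .nil)) 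
(.lf (nat_lit 271357) (.g (nat_lit 1832) (.e (nat_lit 196668) (nat_lit 14) (.e (nat_lit 73747) (nat_lit 3) (.e (nat_lit 516115) (nat_lit 1) (.e (nat_lit 164185) (nat_lit 155) .nil)))) .nil)))))) (.nd (nat_lit 2) (.nd (nat_lit 3) (.nd (nat_lit 4) (.nd (nat_lit 5) 
(.lf (nat_lit 271299) (.g (nat_lit 2297) (.e (nat_lit 196668) (nat_lit 14) (.e (nat_lit 73746) (nat_lit 3) (.e (nat_lit 516115) (nat_lit 1) (.e (nat_lit 164185) (nat_lit 155) .nil)))) .nil)) 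
(.lf (nat_lit 271331) (.g (nat_lit 1455) (.e (nat_lit 196668) (nat_lit 14) (.e (nat_lit 73747) (nat_lit 3) (.e (nat_lit 516115) (nat_lit 1) (.e (nat_lit 164150) (nat_lit 152) .nil)))) .nil))) (.nd (nat_lit 5) 
(.lf (nat_lit 271315) (.g (nat_lit 2595) (.e (nat_lit 196668) (nat_lit 14) (.e (nat_lit 73746) (nat_lit 3) (.e (nat_lit 516119) (nat_lit 1) (.e (nat_lit 164179) (nat_lit 154) (.e (nat_lit 57351) (nat_lit 0) .nil))))) .nil)) 
(.lf (nat_lit 271347) (.g (nat_lit 2486) (.e (nat_lit 196668) (nat_lit 14) (.e (nat_lit 73747) (nat_lit 3) (.e (nat_lit 516115) (nat_lit 1) (.e (nat_lit 164179) (nat_lit 154) (.e (nat_lit 57354) (nat_lit 0) (.e (nat_lit 1798) (nat_lit 119) (.e (nat_lit 516131) (nat_lit 3) (.e (nat_lit 221212) (nat_lit 22) .nil)))))))) (.g (nat_lit 4) .nil .nil))))) (.nd (nat_lit 4) (.nd (nat_lit 5) 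
(.lf (nat_lit 271307) (.g (nat_lit 1762) (.e (nat_lit 196668) (nat_lit 14) (.e (nat_lit 73746) (nat_lit 3) (.e (nat_lit 516119) (nat_lit 1) (.e (nat_lit 164151) (nat_lit 152) .nil)))) .nil)) 
(.lf (nat_lit 271339) (.g (nat_lit 1722) (.e (nat_lit 196668) (nat_lit 14) (.e (nat_lit 73747) (nat_lit 3) (.e (nat_lit 516115) (nat_lit 1) (.e (nat_lit 164165) (nat_lit 152) .nil)))) .nil))) (.nd (nat_lit 5) 
(.lf (nat_lit 271323) (.g (nat_lit 2702) (.e (nat_lit 196668) (nat_lit 14) (.e (nat_lit 73746) (nat_lit 3) (.e (nat_lit 516120) (nat_lit 1) (.e (nat_lit 164183) (nat_lit 154) (.e (nat_lit 57351) (nat_lit 0) (.e (nat_lit 1803) (nat_lit 119) (.e (nat_lit 516131) (nat_lit 3) (.e (nat_lit 221212) (nat_lit 22) .nil)))))))) (.g (nat_lit 4) .nil .nil))) 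
(.lf (nat_lit 271355) (.g (nat_lit 2726) (.e (nat_lit 196668) (nat_lit 14) (.e (nat_lit 73747) (nat_lit 3) (.e (nat_lit 516115) (nat_lit 1) (.e (nat_lit 164183) (nat_lit 154) (.e (nat_lit 57356) (nat_lit 0) (.e (nat_lit 1802) (nat_lit 119) (.e (nat_lit 516131) (nat_lit 3) (.e (nat_lit 221212) (nat_lit 22) .nil)))))))) (.g (nat_lit 4) .nil .nil)))))) 
(.nd (nat_lit 3) (.nd (nat_lit 4) (.nd (nat_lit 5) 
(.lf (nat_lit 271303) (.g (nat_lit 2181) (.e (nat_lit 196668) (nat_lit 14) (.e (nat_lit 73746) (nat_lit 3) (.e (nat_lit 516117) (nat_lit 1) (.e (nat_lit 164182) (nat_lit 154) (.e (nat_lit 57351) (nat_lit 0) .nil))))) .nil)) 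
(.lf (nat_lit 271335) (.g (nat_lit 1422) (.e (nat_lit 196668) (nat_lit 14) (.e (nat_lit 73747) (nat_lit 3) (.e (nat_lit 516115) (nat_lit 1) (.e (nat_lit 164156) (nat_lit 152) .nil)))) .nil))) (.nd (nat_lit 5) 
(.lf (nat_lit 271319) (.g (nat_lit 1697) (.e (nat_lit 196668) (nat_lit 14) (.e (nat_lit 73746) (nat_lit 3) (.e (nat_lit 516120) (nat_lit 1) (.e (nat_lit 164159) (nat_lit 152) .nil)))) .nil)) 
(.lf (nat_lit 271351) (.g (nat_lit 2633) (.e (nat_lit 196668) (nat_lit 14) (.e (nat_lit 73747) (nat_lit 3) (.e (nat_lit 516115) (nat_lit 1) (.e (nat_lit 164179) (nat_lit 154) (.e (nat_lit 57376) (nat_lit 3) (.e (nat_lit 98341) (nat_lit 20) (.e (nat_lit 221212) (nat_lit 22) .nil))))))) (.g (nat_lit 4) .nil .nil))))) (.nd (nat_lit 4) (.nd (nat_lit 5) 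
(.lf (nat_lit 271311) (.g (nat_lit 2099) (.e (nat_lit 196668) (nat_lit 14) (.e (nat_lit 73746) (nat_lit 3) (.e (nat_lit 516119) (nat_lit 1) (.e (nat_lit 164178) (nat_lit 154) (.e (nat_lit 57348) (nat_lit 0) .nil))))) .nil)) 
(.lf (nat_lit 271343) (.g (nat_lit 2575) (.e (nat_lit 196668) (nat_lit 14) (.e (nat_lit 73747) (nat_lit 3) (.e (nat_lit 516115) (nat_lit 1) (.e (nat_lit 164179) (nat_lit 154) (.e (nat_lit 57347) (nat_lit 0) (.e (nat_lit 1781) (nat_lit 119) (.e (nat_lit 516130) (nat_lit 3) (.e (nat_lit 221212) (nat_lit 22) .nil)))))))) (.g (nat_lit 4) .nil .nil)))) (.nd (nat_lit 5) 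
(.lf (nat_lit 271327) (.g (nat_lit 2565) (.e (nat_lit 196668) (nat_lit 14) (.e (nat_lit 73746) (nat_lit 3) (.e (nat_lit 516129) (nat_lit 3) (.e (nat_lit 221215) (nat_lit 23) (.e (nat_lit 204831) (nat_lit 18) .nil))))) .nil)) 
(.lf (nat_lit 271359) (.g (nat_lit 1608) (.e (nat_lit 196668) (nat_lit 14) (.e (nat_lit 73747) (nat_lit 3) (.e (nat_lit 516117) (nat_lit 1) (.e (nat_lit 164181) (nat_lit 154) (.e (nat_lit 57352) (nat_lit 0) .nil))))) .nil))))))))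

noncomputable def tv3481 : DT := (.nd (nat_lit 0) (.nd (nat_lit 1) (.nd (nat_lit 2) (.nd (nat_lit 3) (.nd (nat_lit 4) (.nd (nat_lit 5) (.nd (nat_lit 6) 
(.lf (nat_lit 271360) (.g (nat_lit 1831) (.e (nat_lit 196668) (nat_lit 14) (.e (nat_lit 73747) (nat_lit 3) (.e (nat_lit 516117) (nat_lit 1) (.e (nat_lit 164182) (nat_lit 154) (.e (nat_lit 57358) (nat_lit 0) (.e (nat_lit 1802) (nat_lit 119) (.e (nat_lit 516131) (nat_lit 3) (.e (nat_lit 221212) (nat_lit 22) .nil)))))))) (.g (nat_lit 4) .nil .nil))) 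
(.lf (nat_lit 271424) (.g (nat_lit 3078) (.e (nat_lit 196668) (nat_lit 14) (.e (nat_lit 73753) (nat_lit 8) (.e (nat_lit 557104) (nat_lit 14) (.e (nat_lit 180252) (nat_lit 10) (.e (nat_lit 573503) (nat_lit 18) (.e (nat_lit 1349) (nat_lit 102) (.e (nat_lit 294656) (nat_lit 17) .nil))))))) (.g (nat_lit 4) .nil .nil)))) (.nd (nat_lit 6) 
(.lf (nat_lit 271392) (.g (nat_lit 2059) (.e (nat_lit 196668) (nat_lit 14) (.e (nat_lit 73752) (nat_lit 8) (.e (nat_lit 557104) (nat_lit 14) (.e (nat_lit 180252) (nat_lit 10) (.e (nat_lit 573474) (nat_lit 12) (.e (nat_lit 57348) (nat_lit 0) (.e (nat_lit 5593) (nat_lit 310) (.e (nat_lit 163868) (nat_lit 2) .nil)))))))) (.g (nat_lit 4) .nil .nil))) 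
(.lf (nat_lit 271456) (.g (nat_lit 3340) (.e (nat_lit 196668) (nat_lit 14) (.e (nat_lit 73754) (nat_lit 8) (.e (nat_lit 557105) (nat_lit 14) (.e (nat_lit 180252) (nat_lit 10) (.e (nat_lit 573474) (nat_lit 12) (.e (nat_lit 57347) (nat_lit 0) (.e (nat_lit 5591) (nat_lit 310) (.e (nat_lit 163868) (nat_lit 2) .nil)))))))) (.g (nat_lit 4) .nil .nil))))) (.nd (nat_lit 5) (.nd (nat_lit 6) 
(.lf (nat_lit 271376) (.g (nat_lit 1683) (.e (nat_lit 196668) (nat_lit 14) (.e (nat_lit 73747) (nat_lit 3) (.e (nat_lit 516120) (nat_lit 1) (.e (nat_lit 164161) (nat_lit 152) .nil)))) .nil)) 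
(.lf (nat_lit 271440) (.g (nat_lit 5139) (.e (nat_lit 196668) (nat_lit 14) (.e (nat_lit 73753) (nat_lit 8) (.e (nat_lit 557105) (nat_lit 14) (.e (nat_lit 180252) (nat_lit 10) (.e (nat_lit 573474) (nat_lit 12) (.e (nat_lit 57347) (nat_lit 0) (.e (nat_lit 5593) (nat_lit 310) (.e (nat_lit 163871) (nat_lit 2) .nil)))))))) (.g (nat_lit 5) .nil .nil)))) (.nd (nat_lit 6) 
(.lf (nat_lit 271408) (.g (nat_lit 4313) (.e (nat_lit 196668) (nat_lit 14) (.e (nat_lit 73753) (nat_lit 8) (.e (nat_lit 557103) (nat_lit 14) (.e (nat_lit 180250) (nat_lit 10) (.e (nat_lit 573475) (nat_lit 12) (.e (nat_lit 57345) (nat_lit 0) (.e (nat_lit 5593) (nat_lit 310) (.e (nat_lit 163868) (nat_lit 2) .nil)))))))) (.g (nat_lit 5) .nil .nil))) 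
(.lf (nat_lit 271472) (.g (nat_lit 868) (.e (nat_lit 196669) (nat_lit 14) (.e (nat_lit 73754) (nat_lit 8) (.e (nat_lit 557089) (nat_lit 12) .nil))) .nil))))) (.nd (nat_lit 4) (.nd (nat_lit 5) (.nd (nat_lit 6) 
(.lf (nat_lit 271368) (.g (nat_lit 2746) (.e (nat_lit 196668) (nat_lit 14) (.e (nat_lit 73747) (nat_lit 3) (.e (nat_lit 516119) (nat_lit 1) (.e (nat_lit 164179) (nat_lit 154) (.e (nat_lit 57348) (nat_lit 0) (.e (nat_lit 1781) (nat_lit 119) (.e (nat_lit 516129) (nat_lit 3) (.e (nat_lit 221210) (nat_lit 22) .nil)))))))) (.g (nat_lit 4) .nil .nil))) 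
(.lf (nat_lit 271432) (.g (nat_lit 4218) (.e (nat_lit 196668) (nat_lit 14) (.e (nat_lit 73753) (nat_lit 8) (.e (nat_lit 557105) (nat_lit 14) (.e (nat_lit 180252) (nat_lit 10) (.e (nat_lit 573474) (nat_lit 12) (.e (nat_lit 57345) (nat_lit 0) (.e (nat_lit 5593) (nat_lit 310) (.e (nat_lit 163868) (nat_lit 2) .nil)))))))) (.g (nat_lit 4) .nil .nil)))) (.nd (nat_lit 6) 
(.lf (nat_lit 271400) (.g (nat_lit 3932) (.e (nat_lit 196668) (nat_lit 14) (.e (nat_lit 73753) (nat_lit 8) (.e (nat_lit 557103) (nat_lit 14) (.e (nat_lit 180250) (nat_lit 10) (.e (nat_lit 573473) (nat_lit 12) (.e (nat_lit 57348) (nat_lit 0) (.e (nat_lit 5593) (nat_lit 310) (.e (nat_lit 163871) (nat_lit 2) .nil)))))))) (.g (nat_lit 5) .nil .nil))) 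
(.lf (nat_lit 271464) (.g (nat_lit 2014) (.e (nat_lit 196668) (nat_lit 14) (.e (nat_lit 73770) (nat_lit 22) (.e (nat_lit 671759) (nat_lit 3) (.e (nat_lit 57479) (nat_lit 28) (.e (nat_lit 557109) (nat_lit 15) (.e (nat_lit 196352) (nat_lit 22) .nil)))))) (.g (nat_lit 4) .nil .nil))))) (.nd (nat_lit 5) (.nd (nat_lit 6) 
(.lf (nat_lit 271384) (.g (nat_lit 2168) (.e (nat_lit 196668) (nat_lit 14) (.e (nat_lit 73747) (nat_lit 3) (.e (nat_lit 516129) (nat_lit 3) (.e (nat_lit 221214) (nat_lit 23) (.e (nat_lit 204828) (nat_lit 18) .nil))))) .nil)) 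
(.lf (nat_lit 271448) (.g (nat_lit 4033) (.e (nat_lit 196668) (nat_lit 14) (.e (nat_lit 73753) (nat_lit 8) (.e (nat_lit 557105) (nat_lit 14) (.e (nat_lit 180252) (nat_lit 10) (.e (nat_lit 573474) (nat_lit 12) (.e (nat_lit 57354) (nat_lit 0) (.e (nat_lit 5589) (nat_lit 310) (.e (nat_lit 163871) (nat_lit 2) .nil)))))))) (.g (nat_lit 4) .nil .nil)))) (.nd (nat_lit 6) 
(.lf (nat_lit 271416) (.g (nat_lit 2924) (.e (nat_lit 196668) (nat_lit 14) (.e (nat_lit 73753) (nat_lit 8) (.e (nat_lit 557104) (nat_lit 14) (.e (nat_lit 180252) (nat_lit 10) (.e (nat_lit 573473) (nat_lit 12) .nil))))) .nil)) 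
(.lf (nat_lit 271480) (.g (nat_lit 3558) (.e (nat_lit 196669) (nat_lit 14) (.e (nat_lit 73754) (nat_lit 8) (.e (nat_lit 557105) (nat_lit 14) (.e (nat_lit 180252) (nat_lit 10) (.e (nat_lit 573474) (nat_lit 12) (.e (nat_lit 57347) (nat_lit 0) (.e (nat_lit 5590) (nat_lit 310) (.e (nat_lit 163867) (nat_lit 2) .nil)))))))) (.g (nat_lit 4) .nil .nil))))))) 
(.nd (nat_lit 3) (.nd (nat_lit 4) (.nd (nat_lit 5) (.nd (nat_lit 6) 
(.lf (nat_lit 271364) (.g (nat_lit 1889) (.e (nat_lit 196668) (nat_lit 14) (.e (nat_lit 73747) (nat_lit 3) (.e (nat_lit 516117) (nat_lit 1) (.e (nat_lit 164183) (nat_lit 154) (.e (nat_lit 57358) (nat_lit 0) .nil))))) .nil)) 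
(.lf (nat_lit 271428) (.g (nat_lit 2088) (.e (nat_lit 196668) (nat_lit 14) (.e (nat_lit 73753) (nat_lit 8) (.e (nat_lit 557105) (nat_lit 14) (.e (nat_lit 180252) (nat_lit 10) (.e (nat_lit 573473) (nat_lit 12) .nil))))) .nil))) (.nd (nat_lit 6) 
(.lf (nat_lit 271396) (.g (nat_lit 2439) (.e (nat_lit 196668) (nat_lit 14) (.e (nat_lit 73753) (nat_lit 8) (.e (nat_lit 557091) (nat_lit 12) (.e (nat_lit 164006) (nat_lit 41) (.e (nat_lit 663582) (nat_lit 10) .nil))))) .nil)) 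
(.lf (nat_lit 271460) (.g (nat_lit 3316) (.e (nat_lit 196668) (nat_lit 14) (.e (nat_lit 73754) (nat_lit 8) (.e (nat_lit 557105) (nat_lit 14) (.e (nat_lit 180252) (nat_lit 10) (.e (nat_lit 573474) (nat_lit 12) (.e (nat_lit 57348) (nat_lit 0) (.e (nat_lit 5592) (nat_lit 310) (.e (nat_lit 163871) (nat_lit 2) .nil)))))))) (.g (nat_lit 4) .nil .nil))))) (.nd (nat_lit 5) (.nd (nat_lit 6) 
(.lf (nat_lit 271380) (.g (nat_lit 2594) (.e (nat_lit 196668) (nat_lit 14) (.e (nat_lit 73747) (nat_lit 3) (.e (nat_lit 516120) (nat_lit 1) (.e (nat_lit 164182) (nat_lit 154) (.e (nat_lit 57361) (nat_lit 0) (.e (nat_lit 1800) (nat_lit 119) (.e (nat_lit 516131) (nat_lit 3) (.e (nat_lit 221212) (nat_lit 22) .nil)))))))) (.g (nat_lit 4) .nil .nil))) 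
(.lf (nat_lit 271444) (.g (nat_lit 3521) (.e (nat_lit 196668) (nat_lit 14) (.e (nat_lit 73753) (nat_lit 8) (.e (nat_lit 557105) (nat_lit 14) (.e (nat_lit 180252) (nat_lit 10) (.e (nat_lit 573474) (nat_lit 12) (.e (nat_lit 57349) (nat_lit 0) (.e (nat_lit 5590) (nat_lit 310) (.e (nat_lit 163871) (nat_lit 2) .nil)))))))) (.g (nat_lit 4) .nil .nil)))) (.nd (nat_lit 6) 
(.lf (nat_lit 271412) (.g (nat_lit 3152) (.e (nat_lit 196668) (nat_lit 14) (.e (nat_lit 73753) (nat_lit 8) (.e (nat_lit 557103) (nat_lit 14) (.e (nat_lit 180250) (nat_lit 10) (.e (nat_lit 573478) (nat_lit 12) (.e (nat_lit 57344) (nat_lit 0) (.e (nat_lit 5593) (nat_lit 310) (.e (nat_lit 163868) (nat_lit 2) .nil)))))))) (.g (nat_lit 4) .nil .nil))) 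
(.lf (nat_lit 271476) (.g (nat_lit 2668) (.e (nat_lit 196669) (nat_lit 14) (.e (nat_lit 73754) (nat_lit 8) (.e (nat_lit 557105) (nat_lit 14) (.e (nat_lit 180252) (nat_lit 10) (.e (nat_lit 573451) (nat_lit 9) .nil))))) .nil))))) (.nd (nat_lit 4) (.nd (nat_lit 5) (.nd (nat_lit 6) 
(.lf (nat_lit 271372) (.g (nat_lit 2775) (.e (nat_lit 196668) (nat_lit 14) (.e (nat_lit 73747) (nat_lit 3) (.e (nat_lit 516119) (nat_lit 1) (.e (nat_lit 164179) (nat_lit 154) (.e (nat_lit 57358) (nat_lit 0) (.e (nat_lit 1802) (nat_lit 119) (.e (nat_lit 516131) (nat_lit 3) (.e (nat_lit 221212) (nat_lit 22) .nil)))))))) (.g (nat_lit 4) .nil .nil))) 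
(.lf (nat_lit 271436) (.g (nat_lit 3651) (.e (nat_lit 196668) (nat_lit 14) (.e (nat_lit 73753) (nat_lit 8) (.e (nat_lit 557105) (nat_lit 14) (.e (nat_lit 180252) (nat_lit 10) (.e (nat_lit 573474) (nat_lit 12) (.e (nat_lit 57347) (nat_lit 0) (.e (nat_lit 5584) (nat_lit 310) (.e (nat_lit 163868) (nat_lit 2) .nil)))))))) (.g (nat_lit 4) .nil .nil)))) (.nd (nat_lit 6) 
(.lf (nat_lit 271404) (.g (nat_lit 4134) (.e (nat_lit 196668) (nat_lit 14) (.e (nat_lit 73753) (nat_lit 8) (.e (nat_lit 557103) (nat_lit 14) (.e (nat_lit 180250) (nat_lit 10) (.e (nat_lit 573474) (nat_lit 12) (.e (nat_lit 57354) (nat_lit 0) (.e (nat_lit 5589) (nat_lit 310) (.e (nat_lit 163868) (nat_lit 2) .nil)))))))) (.g (nat_lit 5) .nil .nil))) 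
(.lf (nat_lit 271468) (.g (nat_lit 782) (.e (nat_lit 196669) (nat_lit 14) (.e (nat_lit 73753) (nat_lit 8) (.e (nat_lit 557089) (nat_lit 12) .nil))) .nil)))) (.nd (nat_lit 5) (.nd (nat_lit 6) 
(.lf (nat_lit 271388) (.g (nat_lit 1772) (.e (nat_lit 196668) (nat_lit 14) (.e (nat_lit 73747) (nat_lit 3) (.e (nat_lit 516130) (nat_lit 3) (.e (nat_lit 221215) (nat_lit 23) (.e (nat_lit 204831) (nat_lit 18) .nil))))) .nil)) 
(.lf (nat_lit 271452) (.g (nat_lit 2412) (.e (nat_lit 196668) (nat_lit 14) (.e (nat_lit 73754) (nat_lit 8) (.e (nat_lit 557105) (nat_lit 14) (.e (nat_lit 180252) (nat_lit 10) (.e (nat_lit 573473) (nat_lit 12) (.e (nat_lit 57348) (nat_lit 0) (.e (nat_lit 5593) (nat_lit 310) (.e (nat_lit 163868) (nat_lit 2) .nil)))))))) (.g (nat_lit 4) .nil .nil)))) (.nd (nat_lit 6) 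
(.lf (nat_lit 271420) (.g (nat_lit 3562) (.e (nat_lit 196668) (nat_lit 14) (.e (nat_lit 73753) (nat_lit 8) (.e (nat_lit 557104) (nat_lit 14) (.e (nat_lit 180252) (nat_lit 10) (.e (nat_lit 573474) (nat_lit 12) (.e (nat_lit 57354) (nat_lit 0) (.e (nat_lit 5589) (nat_lit 310) (.e (nat_lit 163871) (nat_lit 2) .nil)))))))) (.g (nat_lit 4) .nil .nil))) 
(.lf (nat_lit 271484) (.g (nat_lit 3198) (.e (nat_lit 196669) (nat_lit 14) (.e (nat_lit 73754) (nat_lit 8) (.e (nat_lit 557105) (nat_lit 14) (.e (nat_lit 180252) (nat_lit 10) (.e (nat_lit 573503) (nat_lit 18) (.e (nat_lit 1348) (nat_lit 102) (.e (nat_lit 294656) (nat_lit 17) .nil))))))) (.g (nat_lit 5) .nil .nil)))))))) 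
(.nd (nat_lit 2) (.nd (nat_lit 3) (.nd (nat_lit 4) (.nd (nat_lit 5) (.nd (nat_lit 6) 
(.lf (nat_lit 271362) (.g (nat_lit 1871) (.e (nat_lit 196668) (nat_lit 14) (.e (nat_lit 73747) (nat_lit 3) (.e (nat_lit 516117) (nat_lit 1) (.e (nat_lit 164183) (nat_lit 154) (.e (nat_lit 57352) (nat_lit 0) .nil))))) .nil)) 
(.lf (nat_lit 271426) (.g (nat_lit 2497) (.e (nat_lit 196668) (nat_lit 14) (.e (nat_lit 73753) (nat_lit 8) (.e (nat_lit 557105) (nat_lit 14) (.e (nat_lit 180251) (nat_lit 10) (.e (nat_lit 573477) (nat_lit 12) .nil))))) .nil))) (.nd (nat_lit 6) 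
(.lf (nat_lit 271394) (.g (nat_lit 2678) (.e (nat_lit 196668) (nat_lit 14) (.e (nat_lit 73753) (nat_lit 8) (.e (nat_lit 557091) (nat_lit 12) (.e (nat_lit 163999) (nat_lit 38) (.e (nat_lit 639007) (nat_lit 13) .nil))))) .nil)) 
(.lf (nat_lit 271458) (.g (nat_lit 3710) (.e (nat_lit 196668) (nat_lit 14) (.e (nat_lit 73754) (nat_lit 8) (.e (nat_lit 557105) (nat_lit 14) (.e (nat_lit 180252) (nat_lit 10) (.e (nat_lit 573474) (nat_lit 12) (.e (nat_lit 57348) (nat_lit 0) (.e (nat_lit 5590) (nat_lit 310) (.e (nat_lit 163871) (nat_lit 2) .nil)))))))) (.g (nat_lit 4) .nil .nil))))) (.nd (nat_lit 5) (.nd (nat_lit 6) 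
(.lf (nat_lit 271378) (.g (nat_lit 2081) (.e (nat_lit 196668) (nat_lit 14) (.e (nat_lit 73747) (nat_lit 3) (.e (nat_lit 516120) (nat_lit 1) (.e (nat_lit 164161) (nat_lit 152) (.e (nat_lit 7936) (nat_lit 95) .nil))))) .nil)) 
(.lf (nat_lit 271442) (.g (nat_lit 4283) (.e (nat_lit 196668) (nat_lit 14) (.e (nat_lit 73753) (nat_lit 8) (.e (nat_lit 557105) (nat_lit 14) (.e (nat_lit 180252) (nat_lit 10) (.e (nat_lit 573474) (nat_lit 12) (.e (nat_lit 57348) (nat_lit 0) (.e (nat_lit 5591) (nat_lit 310) (.e (nat_lit 163868) (nat_lit 2) .nil)))))))) (.g (nat_lit 4) .nil .nil)))) (.nd (nat_lit 6) 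
(.lf (nat_lit 271410) (.g (nat_lit 2996) (.e (nat_lit 196668) (nat_lit 14) (.e (nat_lit 73753) (nat_lit 8) (.e (nat_lit 557103) (nat_lit 14) (.e (nat_lit 180250) (nat_lit 10) (.e (nat_lit 573475) (nat_lit 12) (.e (nat_lit 57347) (nat_lit 0) (.e (nat_lit 5593) (nat_lit 310) (.e (nat_lit 163871) (nat_lit 2) .nil)))))))) (.g (nat_lit 4) .nil .nil))) 
(.lf (nat_lit 271474) (.g (nat_lit 2109) (.e (nat_lit 196669) (nat_lit 14) (.e (nat_lit 73754) (nat_lit 8) (.e (nat_lit 557091) (nat_lit 12) (.e (nat_lit 164000) (nat_lit 38) .nil)))) .nil))))) (.nd (nat_lit 4) (.nd (nat_lit 5) (.nd (nat_lit 6) 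
(.lf (nat_lit 271370) (.g (nat_lit 2880) (.e (nat_lit 196668) (nat_lit 14) (.e (nat_lit 73747) (nat_lit 3) (.e (nat_lit 516119) (nat_lit 1) (.e (nat_lit 164179) (nat_lit 154) (.e (nat_lit 57355) (nat_lit 0) (.e (nat_lit 1802) (nat_lit 119) (.e (nat_lit 516131) (nat_lit 3) (.e (nat_lit 221212) (nat_lit 22) .nil)))))))) (.g (nat_lit 4) .nil .nil))) 
(.lf (nat_lit 271434) (.g (nat_lit 3841) (.e (nat_lit 196668) (nat_lit 14) (.e (nat_lit 73753) (nat_lit 8) (.e (nat_lit 557105) (nat_lit 14) (.e (nat_lit 180252) (nat_lit 10) (.e (nat_lit 573474) (nat_lit 12) (.e (nat_lit 57346) (nat_lit 0) (.e (nat_lit 5583) (nat_lit 310) (.e (nat_lit 163871) (nat_lit 2) .nil)))))))) (.g (nat_lit 4) .nil .nil)))) (.nd (nat_lit 6) 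
(.lf (nat_lit 271402) (.g (nat_lit 3761) (.e (nat_lit 196668) (nat_lit 14) (.e (nat_lit 73753) (nat_lit 8) (.e (nat_lit 557103) (nat_lit 14) (.e (nat_lit 180250) (nat_lit 10) (.e (nat_lit 573474) (nat_lit 12) (.e (nat_lit 57345) (nat_lit 0) (.e (nat_lit 5593) (nat_lit 310) (.e (nat_lit 163871) (nat_lit 2) .nil)))))))) (.g (nat_lit 5) .nil .nil))) 
(.lf (nat_lit 271466) (.g (nat_lit 1945) (.e (nat_lit 196669) (nat_lit 14) (.e (nat_lit 73747) (nat_lit 3) (.e (nat_lit 516115) (nat_lit 1) (.e (nat_lit 164151) (nat_lit 152) .nil)))) .nil)))) (.nd (nat_lit 5) (.nd (nat_lit 6) 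
(.lf (nat_lit 271386) (.g (nat_lit 2334) (.e (nat_lit 196668) (nat_lit 14) (.e (nat_lit 73747) (nat_lit 3) (.e (nat_lit 516129) (nat_lit 3) (.e (nat_lit 221215) (nat_lit 23) (.e (nat_lit 204828) (nat_lit 18) .nil))))) .nil)) 
(.lf (nat_lit 271450) (.g (nat_lit 3349) (.e (nat_lit 196668) (nat_lit 14) (.e (nat_lit 73753) (nat_lit 8) (.e (nat_lit 557105) (nat_lit 14) (.e (nat_lit 180252) (nat_lit 10) (.e (nat_lit 573503) (nat_lit 18) (.e (nat_lit 1348) (nat_lit 102) (.e (nat_lit 294656) (nat_lit 17) .nil))))))) (.g (nat_lit 4) .nil .nil)))) (.nd (nat_lit 6) 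
(.lf (nat_lit 271418) (.g (nat_lit 4611) (.e (nat_lit 196668) (nat_lit 14) (.e (nat_lit 73753) (nat_lit 8) (.e (nat_lit 557104) (nat_lit 14) (.e (nat_lit 180252) (nat_lit 10) (.e (nat_lit 573474) (nat_lit 12) (.e (nat_lit 57347) (nat_lit 0) (.e (nat_lit 5590) (nat_lit 310) (.e (nat_lit 163871) (nat_lit 2) .nil)))))))) (.g (nat_lit 5) .nil .nil))) 
(.lf (nat_lit 271482) (.g (nat_lit 3259) (.e (nat_lit 196669) (nat_lit 14) (.e (nat_lit 73754) (nat_lit 8) (.e (nat_lit 557105) (nat_lit 14) (.e (nat_lit 180252) (nat_lit 10) (.e (nat_lit 573474) (nat_lit 12) (.e (nat_lit 57348) (nat_lit 0) (.e (nat_lit 5593) (nat_lit 310) (.e (nat_lit 163871) (nat_lit 2) .nil)))))))) (.g (nat_lit 4) .nil .nil))))))) 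
(.nd (nat_lit 3) (.nd (nat_lit 4) (.nd (nat_lit 5) (.nd (nat_lit 6) 
(.lf (nat_lit 271366) (.g (nat_lit 2110) (.e (nat_lit 196668) (nat_lit 14) (.e (nat_lit 73747) (nat_lit 3) (.e (nat_lit 516119) (nat_lit 1) (.e (nat_lit 164162) (nat_lit 152) (.e (nat_lit 1289) (nat_lit 95) .nil))))) .nil)) 
(.lf (nat_lit 271430) (.g (nat_lit 3903) (.e (nat_lit 196668) (nat_lit 14) (.e (nat_lit 73753) (nat_lit 8) (.e (nat_lit 557105) (nat_lit 14) (.e (nat_lit 180252) (nat_lit 10) (.e (nat_lit 573474) (nat_lit 12) (.e (nat_lit 57345) (nat_lit 0) (.e (nat_lit 5583) (nat_lit 310) (.e (nat_lit 163871) (nat_lit 2) .nil)))))))) (.g (nat_lit 4) .nil .nil)))) (.nd (nat_lit 6) 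
(.lf (nat_lit 271398) (.g (nat_lit 957) (.e (nat_lit 196668) (nat_lit 14) (.e (nat_lit 73753) (nat_lit 8) (.e (nat_lit 557094) (nat_lit 12) (.e (nat_lit 163996) (nat_lit 37) .nil)))) .nil)) 
(.lf (nat_lit 271462) (.g (nat_lit 2394) (.e (nat_lit 196668) (nat_lit 14) (.e (nat_lit 73754) (nat_lit 8) (.e (nat_lit 557105) (nat_lit 14) (.e (nat_lit 180252) (nat_lit 10) (.e (nat_lit 573503) (nat_lit 18) (.e (nat_lit 1349) (nat_lit 102) (.e (nat_lit 294656) (nat_lit 17) .nil))))))) (.g (nat_lit 4) .nil .nil))))) (.nd (nat_lit 5) (.nd (nat_lit 6) 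
(.lf (nat_lit 271382) (.g (nat_lit 1841) (.e (nat_lit 196668) (nat_lit 14) (.e (nat_lit 73747) (nat_lit 3) (.e (nat_lit 516120) (nat_lit 1) (.e (nat_lit 164183) (nat_lit 154) (.e (nat_lit 57356) (nat_lit 0) .nil))))) .nil)) 
(.lf (nat_lit 271446) (.g (nat_lit 3485) (.e (nat_lit 196668) (nat_lit 14) (.e (nat_lit 73753) (nat_lit 8) (.e (nat_lit 557105) (nat_lit 14) (.e (nat_lit 180252) (nat_lit 10) (.e (nat_lit 573474) (nat_lit 12) (.e (nat_lit 57349) (nat_lit 0) (.e (nat_lit 5593) (nat_lit 310) (.e (nat_lit 163871) (nat_lit 2) .nil)))))))) (.g (nat_lit 4) .nil .nil)))) (.nd (nat_lit 6) 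
(.lf (nat_lit 271414) (.g (nat_lit 3485) (.e (nat_lit 196668) (nat_lit 14) (.e (nat_lit 73753) (nat_lit 8) (.e (nat_lit 557103) (nat_lit 14) (.e (nat_lit 180250) (nat_lit 10) (.e (nat_lit 573503) (nat_lit 18) (.e (nat_lit 1349) (nat_lit 102) (.e (nat_lit 294656) (nat_lit 17) .nil))))))) (.g (nat_lit 5) .nil .nil))) 
(.lf (nat_lit 271478) (.g (nat_lit 2148) (.e (nat_lit 196669) (nat_lit 14) (.e (nat_lit 73754) (nat_lit 8) (.e (nat_lit 557105) (nat_lit 14) (.e (nat_lit 180252) (nat_lit 10) (.e (nat_lit 573473) (nat_lit 12) .nil))))) .nil))))) (.nd (nat_lit 4) (.nd (nat_lit 5) (.nd (nat_lit 6) 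
(.lf (nat_lit 271374) (.g (nat_lit 1607) (.e (nat_lit 196668) (nat_lit 14) (.e (nat_lit 73747) (nat_lit 3) (.e (nat_lit 516120) (nat_lit 1) (.e (nat_lit 164158) (nat_lit 152) .nil)))) .nil)) 
(.lf (nat_lit 271438) (.g (nat_lit 4344) (.e (nat_lit 196668) (nat_lit 14) (.e (nat_lit 73753) (nat_lit 8) (.e (nat_lit 557105) (nat_lit 14) (.e (nat_lit 180252) (nat_lit 10) (.e (nat_lit 573474) (nat_lit 12) (.e (nat_lit 57347) (nat_lit 0) (.e (nat_lit 5591) (nat_lit 310) (.e (nat_lit 163868) (nat_lit 2) .nil)))))))) (.g (nat_lit 4) .nil .nil)))) (.nd (nat_lit 6) 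
(.lf (nat_lit 271406) (.g (nat_lit 3228) (.e (nat_lit 196668) (nat_lit 14) (.e (nat_lit 73753) (nat_lit 8) (.e (nat_lit 557103) (nat_lit 14) (.e (nat_lit 180250) (nat_lit 10) (.e (nat_lit 573475) (nat_lit 12) (.e (nat_lit 57344) (nat_lit 0) (.e (nat_lit 5593) (nat_lit 310) (.e (nat_lit 163868) (nat_lit 2) .nil)))))))) (.g (nat_lit 4) .nil .nil))) 
(.lf (nat_lit 271470) (.g (nat_lit 2938) (.e (nat_lit 196669) (nat_lit 14) (.e (nat_lit 73753) (nat_lit 8) (.e (nat_lit 557091) (nat_lit 12) (.e (nat_lit 163999) (nat_lit 38) (.e (nat_lit 639024) (nat_lit 19) .nil))))) .nil)))) (.nd (nat_lit 5) (.nd (nat_lit 6) 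
(.lf (nat_lit 271390) (.g (nat_lit 983) (.e (nat_lit 196668) (nat_lit 14) (.e (nat_lit 73748) (nat_lit 3) (.e (nat_lit 516131) (nat_lit 3) (.e (nat_lit 221214) (nat_lit 23) .nil)))) .nil)) 
(.lf (nat_lit 271454) (.g (nat_lit 3308) (.e (nat_lit 196668) (nat_lit 14) (.e (nat_lit 73754) (nat_lit 8) (.e (nat_lit 557105) (nat_lit 14) (.e (nat_lit 180252) (nat_lit 10) (.e (nat_lit 573474) (nat_lit 12) (.e (nat_lit 57345) (nat_lit 0) (.e (nat_lit 5593) (nat_lit 310) (.e (nat_lit 163868) (nat_lit 2) .nil)))))))) (.g (nat_lit 4) .nil .nil)))) (.nd (nat_lit 6) 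
(.lf (nat_lit 271422) (.g (nat_lit 3464) (.e (nat_lit 196668) (nat_lit 14) (.e (nat_lit 73753) (nat_lit 8) (.e (nat_lit 557104) (nat_lit 14) (.e (nat_lit 180252) (nat_lit 10) (.e (nat_lit 573475) (nat_lit 12) (.e (nat_lit 57345) (nat_lit 0) (.e (nat_lit 5593) (nat_lit 310) (.e (nat_lit 163871) (nat_lit 2) .nil)))))))) (.g (nat_lit 4) .nil .nil))) 
(.lf (nat_lit 271486) (.g (nat_lit 2207) (.e (nat_lit 196669) (nat_lit 14) (.e (nat_lit 73755) (nat_lit 8) (.e (nat_lit 557089) (nat_lit 12) (.e (nat_lit 163999) (nat_lit 38) (.e (nat_lit 639024) (nat_lit 19) .nil))))) .nil)))))))) (.nd (nat_lit 1) (.nd (nat_lit 2) (.nd (nat_lit 3) (.nd (nat_lit 4) (.nd (nat_lit 5) (.nd (nat_lit 6) 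
(.lf (nat_lit 271361) (.g (nat_lit 2223) (.e (nat_lit 196668) (nat_lit 14) (.e (nat_lit 73747) (nat_lit 3) (.e (nat_lit 516117) (nat_lit 1) (.e (nat_lit 164183) (nat_lit 154) (.e (nat_lit 57351) (nat_lit 0) (.e (nat_lit 1803) (nat_lit 119) (.e (nat_lit 516131) (nat_lit 3) (.e (nat_lit 221212) (nat_lit 22) .nil)))))))) (.g (nat_lit 4) .nil .nil))) 
(.lf (nat_lit 271425) (.g (nat_lit 1932) (.e (nat_lit 196668) (nat_lit 14) (.e (nat_lit 73753) (nat_lit 8) (.e (nat_lit 557105) (nat_lit 14) (.e (nat_lit 180245) (nat_lit 5) .nil)))) .nil))) (.nd (nat_lit 6) 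
(.lf (nat_lit 271393) (.g (nat_lit 2030) (.e (nat_lit 196668) (nat_lit 14) (.e (nat_lit 73753) (nat_lit 8) (.e (nat_lit 557090) (nat_lit 12) (.e (nat_lit 164006) (nat_lit 41) .nil)))) .nil)) 
(.lf (nat_lit 271457) (.g (nat_lit 3388) (.e (nat_lit 196668) (nat_lit 14) (.e (nat_lit 73754) (nat_lit 8) (.e (nat_lit 557105) (nat_lit 14) (.e (nat_lit 180252) (nat_lit 10) (.e (nat_lit 573474) (nat_lit 12) (.e (nat_lit 57347) (nat_lit 0) (.e (nat_lit 5592) (nat_lit 310) (.e (nat_lit 163871) (nat_lit 2) .nil)))))))) (.g (nat_lit 4) .nil .nil))))) (.nd (nat_lit 5) (.nd (nat_lit 6) 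
(.lf (nat_lit 271377) (.g (nat_lit 2316) (.e (nat_lit 196668) (nat_lit 14) (.e (nat_lit 73747) (nat_lit 3) (.e (nat_lit 516120) (nat_lit 1) (.e (nat_lit 164161) (nat_lit 152) (.e (nat_lit 1286) (nat_lit 95) .nil))))) .nil)) 
(.lf (nat_lit 271441) (.g (nat_lit 3489) (.e (nat_lit 196668) (nat_lit 14) (.e (nat_lit 73753) (nat_lit 8) (.e (nat_lit 557105) (nat_lit 14) (.e (nat_lit 180252) (nat_lit 10) (.e (nat_lit 573474) (nat_lit 12) (.e (nat_lit 57348) (nat_lit 0) (.e (nat_lit 5584) (nat_lit 310) (.e (nat_lit 163871) (nat_lit 2) .nil)))))))) (.g (nat_lit 4) .nil .nil)))) (.nd (nat_lit 6) 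
(.lf (nat_lit 271409) (.g (nat_lit 4314) (.e (nat_lit 196668) (nat_lit 14) (.e (nat_lit 73753) (nat_lit 8) (.e (nat_lit 557103) (nat_lit 14) (.e (nat_lit 180250) (nat_lit 10) (.e (nat_lit 573475) (nat_lit 12) (.e (nat_lit 57345) (nat_lit 0) (.e (nat_lit 5593) (nat_lit 310) (.e (nat_lit 163871) (nat_lit 2) .nil)))))))) (.g (nat_lit 5) .nil .nil))) 
(.lf (nat_lit 271473) (.g (nat_lit 1380) (.e (nat_lit 196669) (nat_lit 14) (.e (nat_lit 73754) (nat_lit 8) (.e (nat_lit 557091) (nat_lit 12) (.e (nat_lit 163999) (nat_lit 38) .nil)))) .nil))))) (.nd (nat_lit 4) (.nd (nat_lit 5) (.nd (nat_lit 6) 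
(.lf (nat_lit 271369) (.g (nat_lit 2477) (.e (nat_lit 196668) (nat_lit 14) (.e (nat_lit 73747) (nat_lit 3) (.e (nat_lit 516119) (nat_lit 1) (.e (nat_lit 164179) (nat_lit 154) (.e (nat_lit 57348) (nat_lit 0) (.e (nat_lit 1781) (nat_lit 119) (.e (nat_lit 516130) (nat_lit 3) (.e (nat_lit 221212) (nat_lit 22) .nil)))))))) (.g (nat_lit 4) .nil .nil))) 
(.lf (nat_lit 271433) (.g (nat_lit 4220) (.e (nat_lit 196668) (nat_lit 14) (.e (nat_lit 73753) (nat_lit 8) (.e (nat_lit 557105) (nat_lit 14) (.e (nat_lit 180252) (nat_lit 10) (.e (nat_lit 573474) (nat_lit 12) (.e (nat_lit 57345) (nat_lit 0) (.e (nat_lit 5593) (nat_lit 310) (.e (nat_lit 163871) (nat_lit 2) .nil)))))))) (.g (nat_lit 4) .nil .nil)))) (.nd (nat_lit 6) 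
(.lf (nat_lit 271401) (.g (nat_lit 3757) (.e (nat_lit 196668) (nat_lit 14) (.e (nat_lit 73753) (nat_lit 8) (.e (nat_lit 557103) (nat_lit 14) (.e (nat_lit 180250) (nat_lit 10) (.e (nat_lit 573474) (nat_lit 12) (.e (nat_lit 57345) (nat_lit 0) (.e (nat_lit 5593) (nat_lit 310) (.e (nat_lit 163868) (nat_lit 2) .nil)))))))) (.g (nat_lit 5) .nil .nil))) 
(.lf (nat_lit 271465) (.g (nat_lit 2222) (.e (nat_lit 196669) (nat_lit 14) (.e (nat_lit 73747) (nat_lit 3) (.e (nat_lit 516115) (nat_lit 1) (.e (nat_lit 164150) (nat_lit 152) .nil)))) .nil)))) (.nd (nat_lit 5) (.nd (nat_lit 6) 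
(.lf (nat_lit 271385) (.g (nat_lit 1952) (.e (nat_lit 196668) (nat_lit 14) (.e (nat_lit 73747) (nat_lit 3) (.e (nat_lit 516129) (nat_lit 3) (.e (nat_lit 221214) (nat_lit 23) (.e (nat_lit 204830) (nat_lit 18) .nil))))) .nil)) 
(.lf (nat_lit 271449) (.g (nat_lit 3259) (.e (nat_lit 196668) (nat_lit 14) (.e (nat_lit 73753) (nat_lit 8) (.e (nat_lit 557105) (nat_lit 14) (.e (nat_lit 180252) (nat_lit 10) (.e (nat_lit 573475) (nat_lit 12) (.e (nat_lit 57345) (nat_lit 0) (.e (nat_lit 5593) (nat_lit 310) (.e (nat_lit 163871) (nat_lit 2) .nil)))))))) (.g (nat_lit 4) .nil .nil)))) (.nd (nat_lit 6) 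
(.lf (nat_lit 271417) (.g (nat_lit 3818) (.e (nat_lit 196668) (nat_lit 14) (.e (nat_lit 73753) (nat_lit 8) (.e (nat_lit 557104) (nat_lit 14) (.e (nat_lit 180252) (nat_lit 10) (.e (nat_lit 573474) (nat_lit 12) (.e (nat_lit 57345) (nat_lit 0) (.e (nat_lit 5593) (nat_lit 310) (.e (nat_lit 163868) (nat_lit 2) .nil)))))))) (.g (nat_lit 4) .nil .nil))) 
(.lf (nat_lit 271481) (.g (nat_lit 3210) (.e (nat_lit 196669) (nat_lit 14) (.e (nat_lit 73754) (nat_lit 8) (.e (nat_lit 557105) (nat_lit 14) (.e (nat_lit 180252) (nat_lit 10) (.e (nat_lit 573474) (nat_lit 12) (.e (nat_lit 57347) (nat_lit 0) (.e (nat_lit 5592) (nat_lit 310) (.e (nat_lit 163869) (nat_lit 2) .nil)))))))) (.g (nat_lit 4) .nil .nil))))))) 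
(.nd (nat_lit 3) (.nd (nat_lit 4) (.nd (nat_lit 5) (.nd (nat_lit 6) 
(.lf (nat_lit 271365) (.g (nat_lit 1510) (.e (nat_lit 196668) (nat_lit 14) (.e (nat_lit 73747) (nat_lit 3) (.e (nat_lit 516119) (nat_lit 1) (.e (nat_lit 164150) (nat_lit 152) .nil)))) .nil)) 
(.lf (nat_lit 271429) (.g (nat_lit 3352) (.e (nat_lit 196668) (nat_lit 14) (.e (nat_lit 73753) (nat_lit 8) (.e (nat_lit 557105) (nat_lit 14) (.e (nat_lit 180252) (nat_lit 10) (.e (nat_lit 573474) (nat_lit 12) (.e (nat_lit 57344) (nat_lit 0) (.e (nat_lit 5593) (nat_lit 310) (.e (nat_lit 163871) (nat_lit 2) .nil)))))))) (.g (nat_lit 4) .nil .nil)))) (.nd (nat_lit 6) 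
(.lf (nat_lit 271397) (.g (nat_lit 658) (.e (nat_lit 196668) (nat_lit 14) (.e (nat_lit 73753) (nat_lit 8) (.e (nat_lit 557094) (nat_lit 12) .nil))) .nil)) 
(.lf (nat_lit 271461) (.g (nat_lit 2366) (.e (nat_lit 196668) (nat_lit 14) (.e (nat_lit 73754) (nat_lit 8) (.e (nat_lit 557105) (nat_lit 14) (.e (nat_lit 180252) (nat_lit 10) (.e (nat_lit 573503) (nat_lit 18) (.e (nat_lit 1348) (nat_lit 102) (.e (nat_lit 294656) (nat_lit 17) .nil))))))) (.g (nat_lit 4) .nil .nil))))) (.nd (nat_lit 5) (.nd (nat_lit 6) 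
(.lf (nat_lit 271381) (.g (nat_lit 2592) (.e (nat_lit 196668) (nat_lit 14) (.e (nat_lit 73747) (nat_lit 3) (.e (nat_lit 516120) (nat_lit 1) (.e (nat_lit 164183) (nat_lit 154) (.e (nat_lit 57351) (nat_lit 0) (.e (nat_lit 1803) (nat_lit 119) (.e (nat_lit 516131) (nat_lit 3) (.e (nat_lit 221212) (nat_lit 22) .nil)))))))) (.g (nat_lit 4) .nil .nil))) 
(.lf (nat_lit 271445) (.g (nat_lit 3479) (.e (nat_lit 196668) (nat_lit 14) (.e (nat_lit 73753) (nat_lit 8) (.e (nat_lit 557105) (nat_lit 14) (.e (nat_lit 180252) (nat_lit 10) (.e (nat_lit 573474) (nat_lit 12) (.e (nat_lit 57349) (nat_lit 0) (.e (nat_lit 5593) (nat_lit 310) (.e (nat_lit 163868) (nat_lit 2) .nil)))))))) (.g (nat_lit 4) .nil .nil)))) (.nd (nat_lit 6) 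
(.lf (nat_lit 271413) (.g (nat_lit 3172) (.e (nat_lit 196668) (nat_lit 14) (.e (nat_lit 73753) (nat_lit 8) (.e (nat_lit 557103) (nat_lit 14) (.e (nat_lit 180250) (nat_lit 10) (.e (nat_lit 573478) (nat_lit 12) (.e (nat_lit 57344) (nat_lit 0) (.e (nat_lit 5593) (nat_lit 310) (.e (nat_lit 163871) (nat_lit 2) .nil)))))))) (.g (nat_lit 4) .nil .nil))) 
(.lf (nat_lit 271477) (.g (nat_lit 3002) (.e (nat_lit 196669) (nat_lit 14) (.e (nat_lit 73754) (nat_lit 8) (.e (nat_lit 557105) (nat_lit 14) (.e (nat_lit 180252) (nat_lit 10) (.e (nat_lit 573451) (nat_lit 9) (.e (nat_lit 1177) (nat_lit 87) (.e (nat_lit 57931) (nat_lit 282) (.e (nat_lit 163867) (nat_lit 2) .nil)))))))) (.g (nat_lit 4) .nil .nil)))))) 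
(.nd (nat_lit 4) (.nd (nat_lit 5) (.nd (nat_lit 6) 
(.lf (nat_lit 271373) (.g (nat_lit 1835) (.e (nat_lit 196668) (nat_lit 14) (.e (nat_lit 73747) (nat_lit 3) (.e (nat_lit 516120) (nat_lit 1) (.e (nat_lit 164147) (nat_lit 152) .nil)))) .nil)) 
(.lf (nat_lit 271437) (.g (nat_lit 3780) (.e (nat_lit 196668) (nat_lit 14) (.e (nat_lit 73753) (nat_lit 8) (.e (nat_lit 557105) (nat_lit 14) (.e (nat_lit 180252) (nat_lit 10) (.e (nat_lit 573474) (nat_lit 12) (.e (nat_lit 57347) (nat_lit 0) (.e (nat_lit 5584) (nat_lit 310) (.e (nat_lit 163871) (nat_lit 2) .nil)))))))) (.g (nat_lit 4) .nil .nil)))) (.nd (nat_lit 6) 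
(.lf (nat_lit 271405) (.g (nat_lit 4167) (.e (nat_lit 196668) (nat_lit 14) (.e (nat_lit 73753) (nat_lit 8) (.e (nat_lit 557103) (nat_lit 14) (.e (nat_lit 180250) (nat_lit 10) (.e (nat_lit 573474) (nat_lit 12) (.e (nat_lit 57354) (nat_lit 0) (.e (nat_lit 5589) (nat_lit 310) (.e (nat_lit 163871) (nat_lit 2) .nil)))))))) (.g (nat_lit 5) .nil .nil))) 
(.lf (nat_lit 271469) (.g (nat_lit 1922) (.e (nat_lit 196669) (nat_lit 14) (.e (nat_lit 73753) (nat_lit 8) (.e (nat_lit 557089) (nat_lit 12) (.e (nat_lit 164000) (nat_lit 38) .nil)))) .nil)))) (.nd (nat_lit 5) (.nd (nat_lit 6) 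
(.lf (nat_lit 271389) (.g (nat_lit 1757) (.e (nat_lit 196668) (nat_lit 14) (.e (nat_lit 73747) (nat_lit 3) (.e (nat_lit 516131) (nat_lit 3) (.e (nat_lit 221214) (nat_lit 23) (.e (nat_lit 204828) (nat_lit 18) .nil))))) .nil)) 
(.lf (nat_lit 271453) (.g (nat_lit 2455) (.e (nat_lit 196668) (nat_lit 14) (.e (nat_lit 73754) (nat_lit 8) (.e (nat_lit 557105) (nat_lit 14) (.e (nat_lit 180252) (nat_lit 10) (.e (nat_lit 573473) (nat_lit 12) (.e (nat_lit 57348) (nat_lit 0) (.e (nat_lit 5593) (nat_lit 310) (.e (nat_lit 163871) (nat_lit 2) .nil)))))))) (.g (nat_lit 4) .nil .nil)))) (.nd (nat_lit 6) 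
(.lf (nat_lit 271421) (.g (nat_lit 3461) (.e (nat_lit 196668) (nat_lit 14) (.e (nat_lit 73753) (nat_lit 8) (.e (nat_lit 557104) (nat_lit 14) (.e (nat_lit 180252) (nat_lit 10) (.e (nat_lit 573475) (nat_lit 12) (.e (nat_lit 57345) (nat_lit 0) (.e (nat_lit 5593) (nat_lit 310) (.e (nat_lit 163868) (nat_lit 2) .nil)))))))) (.g (nat_lit 4) .nil .nil))) 
(.lf (nat_lit 271485) (.g (nat_lit 3099) (.e (nat_lit 196669) (nat_lit 14) (.e (nat_lit 73754) (nat_lit 8) (.e (nat_lit 557105) (nat_lit 14) (.e (nat_lit 180252) (nat_lit 10) (.e (nat_lit 573503) (nat_lit 18) (.e (nat_lit 1349) (nat_lit 102) (.e (nat_lit 294656) (nat_lit 17) .nil))))))) (.g (nat_lit 5) .nil .nil)))))))) 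
(.nd (nat_lit 2) (.nd (nat_lit 3) (.nd (nat_lit 4) (.nd (nat_lit 5) (.nd (nat_lit 6) 
(.lf (nat_lit 271363) (.g (nat_lit 2222) (.e (nat_lit 196668) (nat_lit 14) (.e (nat_lit 73747) (nat_lit 3) (.e (nat_lit 516117) (nat_lit 1) (.e (nat_lit 164183) (nat_lit 154) (.e (nat_lit 57356) (nat_lit 0) (.e (nat_lit 1802) (nat_lit 119) (.e (nat_lit 516131) (nat_lit 3) (.e (nat_lit 221212) (nat_lit 22) .nil)))))))) (.g (nat_lit 4) .nil .nil))) 
(.lf (nat_lit 271427) (.g (nat_lit 2273) (.e (nat_lit 196668) (nat_lit 14) (.e (nat_lit 73753) (nat_lit 8) (.e (nat_lit 557105) (nat_lit 14) (.e (nat_lit 180251) (nat_lit 10) (.e (nat_lit 573478) (nat_lit 12) .nil))))) .nil))) (.nd (nat_lit 6) 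
(.lf (nat_lit 271395) (.g (nat_lit 2886) (.e (nat_lit 196668) (nat_lit 14) (.e (nat_lit 73753) (nat_lit 8) (.e (nat_lit 557091) (nat_lit 12) (.e (nat_lit 163999) (nat_lit 38) (.e (nat_lit 639016) (nat_lit 15) .nil))))) .nil)) 
(.lf (nat_lit 271459) (.g (nat_lit 3279) (.e (nat_lit 196668) (nat_lit 14) (.e (nat_lit 73754) (nat_lit 8) (.e (nat_lit 557105) (nat_lit 14) (.e (nat_lit 180252) (nat_lit 10) (.e (nat_lit 573474) (nat_lit 12) (.e (nat_lit 57348) (nat_lit 0) (.e (nat_lit 5591) (nat_lit 310) (.e (nat_lit 163868) (nat_lit 2) .nil)))))))) (.g (nat_lit 4) .nil .nil))))) (.nd (nat_lit 5) (.nd (nat_lit 6) 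
(.lf (nat_lit 271379) (.g (nat_lit 2816) (.e (nat_lit 196668) (nat_lit 14) (.e (nat_lit 73747) (nat_lit 3) (.e (nat_lit 516120) (nat_lit 1) (.e (nat_lit 164182) (nat_lit 154) (.e (nat_lit 57351) (nat_lit 0) (.e (nat_lit 1803) (nat_lit 119) (.e (nat_lit 516131) (nat_lit 3) (.e (nat_lit 221212) (nat_lit 22) .nil)))))))) (.g (nat_lit 4) .nil .nil))) 
(.lf (nat_lit 271443) (.g (nat_lit 4322) (.e (nat_lit 196668) (nat_lit 14) (.e (nat_lit 73753) (nat_lit 8) (.e (nat_lit 557105) (nat_lit 14) (.e (nat_lit 180252) (nat_lit 10) (.e (nat_lit 573474) (nat_lit 12) (.e (nat_lit 57348) (nat_lit 0) (.e (nat_lit 5592) (nat_lit 310) (.e (nat_lit 163871) (nat_lit 2) .nil)))))))) (.g (nat_lit 4) .nil .nil)))) (.nd (nat_lit 6) 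
(.lf (nat_lit 271411) (.g (nat_lit 3211) (.e (nat_lit 196668) (nat_lit 14) (.e (nat_lit 73753) (nat_lit 8) (.e (nat_lit 557103) (nat_lit 14) (.e (nat_lit 180250) (nat_lit 10) (.e (nat_lit 573478) (nat_lit 12) (.e (nat_lit 57344) (nat_lit 0) (.e (nat_lit 5589) (nat_lit 310) (.e (nat_lit 163871) (nat_lit 2) .nil)))))))) (.g (nat_lit 4) .nil .nil))) 
(.lf (nat_lit 271475) (.g (nat_lit 1846) (.e (nat_lit 196669) (nat_lit 14) (.e (nat_lit 73754) (nat_lit 8) (.e (nat_lit 557105) (nat_lit 14) (.e (nat_lit 180251) (nat_lit 10) (.e (nat_lit 573478) (nat_lit 12) .nil))))) .nil))))) (.nd (nat_lit 4) (.nd (nat_lit 5) (.nd (nat_lit 6) 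
(.lf (nat_lit 271371) (.g (nat_lit 2174) (.e (nat_lit 196668) (nat_lit 14) (.e (nat_lit 73747) (nat_lit 3) (.e (nat_lit 516119) (nat_lit 1) (.e (nat_lit 164179) (nat_lit 154) (.e (nat_lit 57356) (nat_lit 0) .nil))))) .nil)) 
(.lf (nat_lit 271435) (.g (nat_lit 4085) (.e (nat_lit 196668) (nat_lit 14) (.e (nat_lit 73753) (nat_lit 8) (.e (nat_lit 557105) (nat_lit 14) (.e (nat_lit 180252) (nat_lit 10) (.e (nat_lit 573474) (nat_lit 12) (.e (nat_lit 57347) (nat_lit 0) (.e (nat_lit 5584) (nat_lit 310) (.e (nat_lit 163867) (nat_lit 2) .nil)))))))) (.g (nat_lit 4) .nil .nil)))) (.nd (nat_lit 6) 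
(.lf (nat_lit 271403) (.g (nat_lit 3917) (.e (nat_lit 196668) (nat_lit 14) (.e (nat_lit 73753) (nat_lit 8) (.e (nat_lit 557103) (nat_lit 14) (.e (nat_lit 180250) (nat_lit 10) (.e (nat_lit 573474) (nat_lit 12) (.e (nat_lit 57348) (nat_lit 0) (.e (nat_lit 5592) (nat_lit 310) (.e (nat_lit 163871) (nat_lit 2) .nil)))))))) (.g (nat_lit 5) .nil .nil))) 
(.lf (nat_lit 271467) (.g (nat_lit 1582) (.e (nat_lit 196669) (nat_lit 14) (.e (nat_lit 73747) (nat_lit 3) (.e (nat_lit 516119) (nat_lit 1) (.e (nat_lit 164149) (nat_lit 152) .nil)))) .nil)))) (.nd (nat_lit 5) (.nd (nat_lit 6) 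
(.lf (nat_lit 271387) (.g (nat_lit 1896) (.e (nat_lit 196668) (nat_lit 14) (.e (nat_lit 73747) (nat_lit 3) (.e (nat_lit 516130) (nat_lit 3) (.e (nat_lit 221215) (nat_lit 23) (.e (nat_lit 204828) (nat_lit 18) .nil))))) .nil)) 
(.lf (nat_lit 271451) (.g (nat_lit 3377) (.e (nat_lit 196668) (nat_lit 14) (.e (nat_lit 73753) (nat_lit 8) (.e (nat_lit 557105) (nat_lit 14) (.e (nat_lit 180252) (nat_lit 10) (.e (nat_lit 573503) (nat_lit 18) (.e (nat_lit 1349) (nat_lit 102) (.e (nat_lit 294656) (nat_lit 17) .nil))))))) (.g (nat_lit 4) .nil .nil)))) (.nd (nat_lit 6) 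
(.lf (nat_lit 271419) (.g (nat_lit 4637) (.e (nat_lit 196668) (nat_lit 14) (.e (nat_lit 73753) (nat_lit 8) (.e (nat_lit 557104) (nat_lit 14) (.e (nat_lit 180252) (nat_lit 10) (.e (nat_lit 573474) (nat_lit 12) (.e (nat_lit 57347) (nat_lit 0) (.e (nat_lit 5593) (nat_lit 310) (.e (nat_lit 163868) (nat_lit 2) .nil)))))))) (.g (nat_lit 5) .nil .nil))) 
(.lf (nat_lit 271483) (.g (nat_lit 3240) (.e (nat_lit 196669) (nat_lit 14) (.e (nat_lit 73754) (nat_lit 8) (.e (nat_lit 557105) (nat_lit 14) (.e (nat_lit 180252) (nat_lit 10) (.e (nat_lit 573474) (nat_lit 12) (.e (nat_lit 57354) (nat_lit 0) (.e (nat_lit 5601) (nat_lit 310) (.e (nat_lit 163869) (nat_lit 2) .nil)))))))) (.g (nat_lit 4) .nil .nil))))))) 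
(.nd (nat_lit 3) (.nd (nat_lit 4) (.nd (nat_lit 5) (.nd (nat_lit 6) 
(.lf (nat_lit 271367) (.g (nat_lit 2841) (.e (nat_lit 196668) (nat_lit 14) (.e (nat_lit 73747) (nat_lit 3) (.e (nat_lit 516119) (nat_lit 1) (.e (nat_lit 164179) (nat_lit 154) (.e (nat_lit 57347) (nat_lit 0) (.e (nat_lit 1781) (nat_lit 119) (.e (nat_lit 516131) (nat_lit 3) (.e (nat_lit 221212) (nat_lit 22) .nil)))))))) (.g (nat_lit 4) .nil .nil))) 
(.lf (nat_lit 271431) (.g (nat_lit 3661) (.e (nat_lit 196668) (nat_lit 14) (.e (nat_lit 73753) (nat_lit 8) (.e (nat_lit 557105) (nat_lit 14) (.e (nat_lit 180252) (nat_lit 10) (.e (nat_lit 573474) (nat_lit 12) (.e (nat_lit 57345) (nat_lit 0) (.e (nat_lit 5590) (nat_lit 310) (.e (nat_lit 163871) (nat_lit 2) .nil)))))))) (.g (nat_lit 4) .nil .nil)))) (.nd (nat_lit 6) 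
(.lf (nat_lit 271399) (.g (nat_lit 1953) (.e (nat_lit 196668) (nat_lit 14) (.e (nat_lit 73753) (nat_lit 8) (.e (nat_lit 557103) (nat_lit 14) (.e (nat_lit 180245) (nat_lit 5) .nil)))) .nil)) 
(.lf (nat_lit 271463) (.g (nat_lit 2449) (.e (nat_lit 196668) (nat_lit 14) (.e (nat_lit 73755) (nat_lit 8) (.e (nat_lit 557104) (nat_lit 14) (.e (nat_lit 180252) (nat_lit 10) (.e (nat_lit 573474) (nat_lit 12) .nil))))) .nil)))) (.nd (nat_lit 5) (.nd (nat_lit 6) 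
(.lf (nat_lit 271383) (.g (nat_lit 1836) (.e (nat_lit 196668) (nat_lit 14) (.e (nat_lit 73747) (nat_lit 3) (.e (nat_lit 516120) (nat_lit 1) (.e (nat_lit 164184) (nat_lit 155) .nil)))) .nil)) 
(.lf (nat_lit 271447) (.g (nat_lit 4002) (.e (nat_lit 196668) (nat_lit 14) (.e (nat_lit 73753) (nat_lit 8) (.e (nat_lit 557105) (nat_lit 14) (.e (nat_lit 180252) (nat_lit 10) (.e (nat_lit 573474) (nat_lit 12) (.e (nat_lit 57354) (nat_lit 0) (.e (nat_lit 5589) (nat_lit 310) (.e (nat_lit 163868) (nat_lit 2) .nil)))))))) (.g (nat_lit 4) .nil .nil)))) (.nd (nat_lit 6) 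
(.lf (nat_lit 271415) (.g (nat_lit 1953) (.e (nat_lit 196668) (nat_lit 14) (.e (nat_lit 73753) (nat_lit 8) (.e (nat_lit 557103) (nat_lit 14) (.e (nat_lit 180251) (nat_lit 10) .nil)))) .nil)) 
(.lf (nat_lit 271479) (.g (nat_lit 3545) (.e (nat_lit 196669) (nat_lit 14) (.e (nat_lit 73754) (nat_lit 8) (.e (nat_lit 557105) (nat_lit 14) (.e (nat_lit 180252) (nat_lit 10) (.e (nat_lit 573474) (nat_lit 12) (.e (nat_lit 57347) (nat_lit 0) (.e (nat_lit 5584) (nat_lit 310) (.e (nat_lit 163867) (nat_lit 2) .nil)))))))) (.g (nat_lit 4) .nil .nil)))))) 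
(.nd (nat_lit 4) (.nd (nat_lit 5) (.nd (nat_lit 6) 
(.lf (nat_lit 271375) (.g (nat_lit 2135) (.e (nat_lit 196668) (nat_lit 14) (.e (nat_lit 73747) (nat_lit 3) (.e (nat_lit 516120) (nat_lit 1) (.e (nat_lit 164160) (nat_lit 152) (.e (nat_lit 1286) (nat_lit 95) .nil))))) .nil)) 
(.lf (nat_lit 271439) (.g (nat_lit 4394) (.e (nat_lit 196668) (nat_lit 14) (.e (nat_lit 73753) (nat_lit 8) (.e (nat_lit 557105) (nat_lit 14) (.e (nat_lit 180252) (nat_lit 10) (.e (nat_lit 573474) (nat_lit 12) (.e (nat_lit 57347) (nat_lit 0) (.e (nat_lit 5592) (nat_lit 310) (.e (nat_lit 163871) (nat_lit 2) .nil)))))))) (.g (nat_lit 4) .nil .nil)))) (.nd (nat_lit 6) 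
(.lf (nat_lit 271407) (.g (nat_lit 3248) (.e (nat_lit 196668) (nat_lit 14) (.e (nat_lit 73753) (nat_lit 8) (.e (nat_lit 557103) (nat_lit 14) (.e (nat_lit 180250) (nat_lit 10) (.e (nat_lit 573475) (nat_lit 12) (.e (nat_lit 57344) (nat_lit 0) (.e (nat_lit 5593) (nat_lit 310) (.e (nat_lit 163871) (nat_lit 2) .nil)))))))) (.g (nat_lit 4) .nil .nil))) 
(.lf (nat_lit 271471) (.g (nat_lit 1884) (.e (nat_lit 196669) (nat_lit 14) (.e (nat_lit 73753) (nat_lit 8) (.e (nat_lit 557091) (nat_lit 12) (.e (nat_lit 164000) (nat_lit 38) .nil)))) .nil)))) (.nd (nat_lit 5) (.nd (nat_lit 6) 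
(.lf (nat_lit 271391) (.g (nat_lit 2136) (.e (nat_lit 196668) (nat_lit 14) (.e (nat_lit 81664) (nat_lit 5) (.e (nat_lit 532502) (nat_lit 1) (.e (nat_lit 57681) (nat_lit 155) (.e (nat_lit 122893) (nat_lit 3) (.e (nat_lit 98321) (nat_lit 17) (.e (nat_lit 3771) (nat_lit 229) (.e (nat_lit 794669) (nat_lit 22) .nil)))))))) (.g (nat_lit 6) .nil .nil))) 
(.lf (nat_lit 271455) (.g (nat_lit 3327) (.e (nat_lit 196668) (nat_lit 14) (.e (nat_lit 73754) (nat_lit 8) (.e (nat_lit 557105) (nat_lit 14) (.e (nat_lit 180252) (nat_lit 10) (.e (nat_lit 573474) (nat_lit 12) (.e (nat_lit 57345) (nat_lit 0) (.e (nat_lit 5593) (nat_lit 310) (.e (nat_lit 163871) (nat_lit 2) .nil)))))))) (.g (nat_lit 4) .nil .nil)))) (.nd (nat_lit 6) 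
(.lf (nat_lit 271423) (.g (nat_lit 2983) (.e (nat_lit 196668) (nat_lit 14) (.e (nat_lit 73753) (nat_lit 8) (.e (nat_lit 557104) (nat_lit 14) (.e (nat_lit 180252) (nat_lit 10) (.e (nat_lit 573503) (nat_lit 18) (.e (nat_lit 1348) (nat_lit 102) (.e (nat_lit 294656) (nat_lit 17) .nil))))))) (.g (nat_lit 4) .nil .nil))) 
(.lf (nat_lit 271487) (.g (nat_lit 3135) (.e (nat_lit 196669) (nat_lit 14) (.e (nat_lit 73755) (nat_lit 8) (.e (nat_lit 557089) (nat_lit 12) (.e (nat_lit 164000) (nat_lit 38) (.e (nat_lit 639024) (nat_lit 19) (.e (nat_lit 122936) (nat_lit 23) (.e (nat_lit 516131) (nat_lit 3) (.e (nat_lit 221212) (nat_lit 22) .nil)))))))) (.g (nat_lit 4) .nil .nil))))))))))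

noncomputable def tv3482 : DT := (.nd (nat_lit 0) (.nd (nat_lit 1) (.nd (nat_lit 2) (.nd (nat_lit 3) (.nd (nat_lit 4) (.nd (nat_lit 5) (.nd (nat_lit 6) 
(.lf (nat_lit 271488) (.g (nat_lit 2064) (.e (nat_lit 196669) (nat_lit 14) (.e (nat_lit 73755) (nat_lit 8) (.e (nat_lit 557089) (nat_lit 12) (.e (nat_lit 164006) (nat_lit 41) (.e (nat_lit 663582) (nat_lit 10) .nil))))) .nil)) 
(.lf (nat_lit 271552) (.g (nat_lit 2948) (.e (nat_lit 196670) (nat_lit 14) (.e (nat_lit 73746) (nat_lit 3) (.e (nat_lit 516115) (nat_lit 1) (.e (nat_lit 164179) (nat_lit 154) (.e (nat_lit 57377) (nat_lit 3) (.e (nat_lit 98342) (nat_lit 20) (.e (nat_lit 221211) (nat_lit 22) .nil))))))) (.g (nat_lit 4) .nil .nil)))) (.nd (nat_lit 6) 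
(.lf (nat_lit 271520) (.g (nat_lit 2883) (.e (nat_lit 196669) (nat_lit 14) (.e (nat_lit 73755) (nat_lit 8) (.e (nat_lit 557105) (nat_lit 14) (.e (nat_lit 180252) (nat_lit 10) (.e (nat_lit 573503) (nat_lit 18) (.e (nat_lit 1359) (nat_lit 102) (.e (nat_lit 294656) (nat_lit 17) .nil))))))) (.g (nat_lit 5) .nil .nil))) 
(.lf (nat_lit 271584) (.g (nat_lit 1771) (.e (nat_lit 196670) (nat_lit 14) (.e (nat_lit 73746) (nat_lit 3) (.e (nat_lit 516118) (nat_lit 1) (.e (nat_lit 164179) (nat_lit 154) (.e (nat_lit 57345) (nat_lit 0) .nil))))) .nil)))) (.nd (nat_lit 5) (.nd (nat_lit 6) 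
(.lf (nat_lit 271504) (.g (nat_lit 2233) (.e (nat_lit 196669) (nat_lit 14) (.e (nat_lit 73755) (nat_lit 8) (.e (nat_lit 557105) (nat_lit 14) (.e (nat_lit 180252) (nat_lit 10) (.e (nat_lit 573473) (nat_lit 12) .nil))))) .nil)) 
(.lf (nat_lit 271568) (.g (nat_lit 4009) (.e (nat_lit 196670) (nat_lit 14) (.e (nat_lit 73746) (nat_lit 3) (.e (nat_lit 516117) (nat_lit 1) (.e (nat_lit 164159) (nat_lit 152) (.e (nat_lit 1183) (nat_lit 87) (.e (nat_lit 57466) (nat_lit 23) (.e (nat_lit 516131) (nat_lit 3) (.e (nat_lit 221212) (nat_lit 22) .nil)))))))) (.g (nat_lit 0) .nil .nil)))) (.nd (nat_lit 6) 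
(.lf (nat_lit 271536) (.g (nat_lit 2577) (.e (nat_lit 196670) (nat_lit 14) (.e (nat_lit 73746) (nat_lit 3) (.e (nat_lit 516115) (nat_lit 1) (.e (nat_lit 164177) (nat_lit 154) (.e (nat_lit 57354) (nat_lit 0) (.e (nat_lit 1799) (nat_lit 119) (.e (nat_lit 516131) (nat_lit 3) (.e (nat_lit 221212) (nat_lit 22) .nil)))))))) (.g (nat_lit 5) .nil .nil))) 
(.lf (nat_lit 271600) (.g (nat_lit 3163) (.e (nat_lit 196670) (nat_lit 14) (.e (nat_lit 73746) (nat_lit 3) (.e (nat_lit 516119) (nat_lit 1) (.e (nat_lit 164179) (nat_lit 154) (.e (nat_lit 57348) (nat_lit 0) (.e (nat_lit 1781) (nat_lit 119) (.e (nat_lit 516131) (nat_lit 3) (.e (nat_lit 221212) (nat_lit 22) .nil)))))))) (.g (nat_lit 5) .nil .nil)))))) 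
(.nd (nat_lit 4) (.nd (nat_lit 5) (.nd (nat_lit 6) 
(.lf (nat_lit 271496) (.g (nat_lit 2420) (.e (nat_lit 196669) (nat_lit 14) (.e (nat_lit 73755) (nat_lit 8) (.e (nat_lit 557104) (nat_lit 14) (.e (nat_lit 180252) (nat_lit 10) (.e (nat_lit 573451) (nat_lit 9) .nil))))) .nil)) 
(.lf (nat_lit 271560) (.g (nat_lit 2101) (.e (nat_lit 196670) (nat_lit 14) (.e (nat_lit 73746) (nat_lit 3) (.e (nat_lit 516115) (nat_lit 1) (.e (nat_lit 164183) (nat_lit 154) (.e (nat_lit 57352) (nat_lit 0) .nil))))) .nil))) (.nd (nat_lit 6) 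
(.lf (nat_lit 271528) (.g (nat_lit 1890) (.e (nat_lit 196670) (nat_lit 14) (.e (nat_lit 73746) (nat_lit 3) (.e (nat_lit 516115) (nat_lit 1) (.e (nat_lit 164160) (nat_lit 152) .nil)))) .nil)) 
(.lf (nat_lit 271592) (.g (nat_lit 2766) (.e (nat_lit 196670) (nat_lit 14) (.e (nat_lit 73746) (nat_lit 3) (.e (nat_lit 516119) (nat_lit 1) (.e (nat_lit 164151) (nat_lit 152) (.e (nat_lit 1186) (nat_lit 87) (.e (nat_lit 57464) (nat_lit 23) (.e (nat_lit 516130) (nat_lit 3) (.e (nat_lit 221212) (nat_lit 22) .nil)))))))) (.g (nat_lit 4) .nil .nil))))) (.nd (nat_lit 5) (.nd (nat_lit 6) 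
(.lf (nat_lit 271512) (.g (nat_lit 3500) (.e (nat_lit 196669) (nat_lit 14) (.e (nat_lit 73755) (nat_lit 8) (.e (nat_lit 557105) (nat_lit 14) (.e (nat_lit 180252) (nat_lit 10) (.e (nat_lit 573474) (nat_lit 12) (.e (nat_lit 57355) (nat_lit 0) (.e (nat_lit 5585) (nat_lit 310) (.e (nat_lit 163867) (nat_lit 2) .nil)))))))) (.g (nat_lit 5) .nil .nil))) 
(.lf (nat_lit 271576) (.g (nat_lit 2309) (.e (nat_lit 196670) (nat_lit 14) (.e (nat_lit 73746) (nat_lit 3) (.e (nat_lit 516117) (nat_lit 1) (.e (nat_lit 164183) (nat_lit 154) (.e (nat_lit 57352) (nat_lit 0) (.e (nat_lit 1803) (nat_lit 119) (.e (nat_lit 516131) (nat_lit 3) (.e (nat_lit 221212) (nat_lit 22) .nil)))))))) (.g (nat_lit 4) .nil .nil)))) (.nd (nat_lit 6) 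
(.lf (nat_lit 271544) (.g (nat_lit 2706) (.e (nat_lit 196670) (nat_lit 14) (.e (nat_lit 73746) (nat_lit 3) (.e (nat_lit 516115) (nat_lit 1) (.e (nat_lit 164179) (nat_lit 154) (.e (nat_lit 57348) (nat_lit 0) (.e (nat_lit 1781) (nat_lit 119) (.e (nat_lit 516129) (nat_lit 3) (.e (nat_lit 221210) (nat_lit 22) .nil)))))))) (.g (nat_lit 4) .nil .nil))) 
(.lf (nat_lit 271608) (.g (nat_lit 2627) (.e (nat_lit 196670) (nat_lit 14) (.e (nat_lit 73746) (nat_lit 3) (.e (nat_lit 516119) (nat_lit 1) (.e (nat_lit 164179) (nat_lit 154) (.e (nat_lit 57378) (nat_lit 3) (.e (nat_lit 98341) (nat_lit 20) (.e (nat_lit 221211) (nat_lit 22) .nil))))))) (.g (nat_lit 4) .nil .nil))))))) (.nd (nat_lit 3) (.nd (nat_lit 4) (.nd (nat_lit 5) (.nd (nat_lit 6) 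
(.lf (nat_lit 271492) (.g (nat_lit 2488) (.e (nat_lit 196669) (nat_lit 14) (.e (nat_lit 73755) (nat_lit 8) (.e (nat_lit 557091) (nat_lit 12) (.e (nat_lit 164000) (nat_lit 38) (.e (nat_lit 639008) (nat_lit 13) .nil))))) .nil)) 
(.lf (nat_lit 271556) (.g (nat_lit 3298) (.e (nat_lit 196670) (nat_lit 14) (.e (nat_lit 73746) (nat_lit 3) (.e (nat_lit 516115) (nat_lit 1) (.e (nat_lit 164179) (nat_lit 154) (.e (nat_lit 57379) (nat_lit 3) (.e (nat_lit 98342) (nat_lit 20) (.e (nat_lit 221211) (nat_lit 22) .nil))))))) (.g (nat_lit 4) .nil .nil)))) (.nd (nat_lit 6) 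
(.lf (nat_lit 271524) (.g (nat_lit 2755) (.e (nat_lit 196670) (nat_lit 14) (.e (nat_lit 73746) (nat_lit 3) (.e (nat_lit 516115) (nat_lit 1) (.e (nat_lit 164151) (nat_lit 152) (.e (nat_lit 974) (nat_lit 81) (.e (nat_lit 1256) (nat_lit 92) (.e (nat_lit 98341) (nat_lit 20) (.e (nat_lit 221212) (nat_lit 22) .nil)))))))) (.g (nat_lit 4) .nil .nil))) 
(.lf (nat_lit 271588) (.g (nat_lit 1492) (.e (nat_lit 196670) (nat_lit 14) (.e (nat_lit 73746) (nat_lit 3) (.e (nat_lit 516118) (nat_lit 1) (.e (nat_lit 164183) (nat_lit 154) (.e (nat_lit 57351) (nat_lit 0) .nil))))) .nil)))) (.nd (nat_lit 5) (.nd (nat_lit 6) 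
(.lf (nat_lit 271508) (.g (nat_lit 3438) (.e (nat_lit 196669) (nat_lit 14) (.e (nat_lit 73755) (nat_lit 8) (.e (nat_lit 557105) (nat_lit 14) (.e (nat_lit 180252) (nat_lit 10) (.e (nat_lit 573474) (nat_lit 12) (.e (nat_lit 57349) (nat_lit 0) (.e (nat_lit 5584) (nat_lit 310) (.e (nat_lit 163867) (nat_lit 2) .nil)))))))) (.g (nat_lit 5) .nil .nil))) 
(.lf (nat_lit 271572) (.g (nat_lit 1957) (.e (nat_lit 196670) (nat_lit 14) (.e (nat_lit 73746) (nat_lit 3) (.e (nat_lit 516117) (nat_lit 1) (.e (nat_lit 164182) (nat_lit 154) (.e (nat_lit 57359) (nat_lit 0) .nil))))) .nil))) (.nd (nat_lit 6) 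
(.lf (nat_lit 271540) (.g (nat_lit 2830) (.e (nat_lit 196670) (nat_lit 14) (.e (nat_lit 73746) (nat_lit 3) (.e (nat_lit 516115) (nat_lit 1) (.e (nat_lit 164179) (nat_lit 154) (.e (nat_lit 57347) (nat_lit 0) (.e (nat_lit 1781) (nat_lit 119) (.e (nat_lit 516130) (nat_lit 3) (.e (nat_lit 221212) (nat_lit 22) .nil)))))))) (.g (nat_lit 4) .nil .nil))) 
(.lf (nat_lit 271604) (.g (nat_lit 2559) (.e (nat_lit 196670) (nat_lit 14) (.e (nat_lit 73746) (nat_lit 3) (.e (nat_lit 516119) (nat_lit 1) (.e (nat_lit 164179) (nat_lit 154) (.e (nat_lit 57358) (nat_lit 0) (.e (nat_lit 1802) (nat_lit 119) (.e (nat_lit 516131) (nat_lit 3) (.e (nat_lit 221212) (nat_lit 22) .nil)))))))) (.g (nat_lit 4) .nil .nil)))))) 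
(.nd (nat_lit 4) (.nd (nat_lit 5) (.nd (nat_lit 6) 
(.lf (nat_lit 271500) (.g (nat_lit 2674) (.e (nat_lit 196669) (nat_lit 14) (.e (nat_lit 73755) (nat_lit 8) (.e (nat_lit 557105) (nat_lit 14) (.e (nat_lit 180252) (nat_lit 10) (.e (nat_lit 573451) (nat_lit 9) (.e (nat_lit 1174) (nat_lit 87) (.e (nat_lit 57930) (nat_lit 282) (.e (nat_lit 163867) (nat_lit 2) .nil)))))))) (.g (nat_lit 4) .nil .nil))) 
(.lf (nat_lit 271564) (.g (nat_lit 2669) (.e (nat_lit 196670) (nat_lit 14) (.e (nat_lit 73746) (nat_lit 3) (.e (nat_lit 516115) (nat_lit 1) (.e (nat_lit 164183) (nat_lit 154) (.e (nat_lit 57378) (nat_lit 3) (.e (nat_lit 98341) (nat_lit 20) (.e (nat_lit 221211) (nat_lit 22) .nil))))))) (.g (nat_lit 4) .nil .nil)))) (.nd (nat_lit 6) 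
(.lf (nat_lit 271532) (.g (nat_lit 2108) (.e (nat_lit 196670) (nat_lit 14) (.e (nat_lit 73746) (nat_lit 3) (.e (nat_lit 516115) (nat_lit 1) (.e (nat_lit 164177) (nat_lit 154) (.e (nat_lit 57345) (nat_lit 0) (.e (nat_lit 1803) (nat_lit 119) (.e (nat_lit 516131) (nat_lit 3) (.e (nat_lit 221212) (nat_lit 22) .nil)))))))) (.g (nat_lit 4) .nil .nil))) 
(.lf (nat_lit 271596) (.g (nat_lit 1917) (.e (nat_lit 196670) (nat_lit 14) (.e (nat_lit 73746) (nat_lit 3) (.e (nat_lit 516119) (nat_lit 1) (.e (nat_lit 164178) (nat_lit 154) (.e (nat_lit 57347) (nat_lit 0) .nil))))) .nil)))) (.nd (nat_lit 5) (.nd (nat_lit 6) 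
(.lf (nat_lit 271516) (.g (nat_lit 3081) (.e (nat_lit 196669) (nat_lit 14) (.e (nat_lit 73755) (nat_lit 8) (.e (nat_lit 557105) (nat_lit 14) (.e (nat_lit 180252) (nat_lit 10) (.e (nat_lit 573474) (nat_lit 12) (.e (nat_lit 65280) (nat_lit 0) (.e (nat_lit 5587) (nat_lit 310) (.e (nat_lit 163866) (nat_lit 2) .nil)))))))) (.g (nat_lit 5) .nil .nil))) 
(.lf (nat_lit 271580) (.g (nat_lit 2481) (.e (nat_lit 196670) (nat_lit 14) (.e (nat_lit 73746) (nat_lit 3) (.e (nat_lit 516117) (nat_lit 1) (.e (nat_lit 164183) (nat_lit 154) (.e (nat_lit 57378) (nat_lit 3) (.e (nat_lit 98341) (nat_lit 20) (.e (nat_lit 221211) (nat_lit 22) .nil))))))) (.g (nat_lit 4) .nil .nil)))) (.nd (nat_lit 6) 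
(.lf (nat_lit 271548) (.g (nat_lit 2538) (.e (nat_lit 196670) (nat_lit 14) (.e (nat_lit 73746) (nat_lit 3) (.e (nat_lit 516115) (nat_lit 1) (.e (nat_lit 164179) (nat_lit 154) (.e (nat_lit 57354) (nat_lit 0) .nil))))) .nil)) 
(.lf (nat_lit 271612) (.g (nat_lit 3777) (.e (nat_lit 196670) (nat_lit 14) (.e (nat_lit 73746) (nat_lit 3) (.e (nat_lit 516119) (nat_lit 1) (.e (nat_lit 164183) (nat_lit 154) (.e (nat_lit 57378) (nat_lit 3) (.e (nat_lit 98341) (nat_lit 20) (.e (nat_lit 221210) (nat_lit 22) .nil))))))) (.g (nat_lit 5) .nil .nil)))))))) 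
(.nd (nat_lit 2) (.nd (nat_lit 3) (.nd (nat_lit 4) (.nd (nat_lit 5) (.nd (nat_lit 6) 
(.lf (nat_lit 271490) (.g (nat_lit 2055) (.e (nat_lit 196669) (nat_lit 14) (.e (nat_lit 73755) (nat_lit 8) (.e (nat_lit 557091) (nat_lit 12) (.e (nat_lit 163999) (nat_lit 38) (.e (nat_lit 639017) (nat_lit 15) .nil))))) .nil)) 
(.lf (nat_lit 271554) (.g (nat_lit 3468) (.e (nat_lit 196670) (nat_lit 14) (.e (nat_lit 73746) (nat_lit 3) (.e (nat_lit 516115) (nat_lit 1) (.e (nat_lit 164179) (nat_lit 154) (.e (nat_lit 57378) (nat_lit 3) (.e (nat_lit 98341) (nat_lit 20) (.e (nat_lit 221211) (nat_lit 22) .nil))))))) (.g (nat_lit 4) .nil .nil)))) (.nd (nat_lit 6) 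
(.lf (nat_lit 271522) (.g (nat_lit 1687) (.e (nat_lit 196670) (nat_lit 14) (.e (nat_lit 73746) (nat_lit 3) (.e (nat_lit 516115) (nat_lit 1) (.e (nat_lit 164150) (nat_lit 152) .nil)))) .nil)) 
(.lf (nat_lit 271586) (.g (nat_lit 2798) (.e (nat_lit 196670) (nat_lit 14) (.e (nat_lit 73746) (nat_lit 3) (.e (nat_lit 516118) (nat_lit 1) (.e (nat_lit 164179) (nat_lit 154) (.e (nat_lit 57354) (nat_lit 0) (.e (nat_lit 1799) (nat_lit 119) (.e (nat_lit 516131) (nat_lit 3) (.e (nat_lit 221212) (nat_lit 22) .nil)))))))) (.g (nat_lit 5) .nil .nil))))) (.nd (nat_lit 5) (.nd (nat_lit 6) 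
(.lf (nat_lit 271506) (.g (nat_lit 3071) (.e (nat_lit 196669) (nat_lit 14) (.e (nat_lit 73755) (nat_lit 8) (.e (nat_lit 557105) (nat_lit 14) (.e (nat_lit 180252) (nat_lit 10) (.e (nat_lit 573474) (nat_lit 12) (.e (nat_lit 57344) (nat_lit 0) (.e (nat_lit 5589) (nat_lit 310) (.e (nat_lit 163868) (nat_lit 2) .nil)))))))) (.g (nat_lit 5) .nil .nil))) 
(.lf (nat_lit 271570) (.g (nat_lit 2877) (.e (nat_lit 196670) (nat_lit 14) (.e (nat_lit 73746) (nat_lit 3) (.e (nat_lit 516117) (nat_lit 1) (.e (nat_lit 164176) (nat_lit 154) (.e (nat_lit 57354) (nat_lit 0) (.e (nat_lit 1799) (nat_lit 119) (.e (nat_lit 516131) (nat_lit 3) (.e (nat_lit 221212) (nat_lit 22) .nil)))))))) (.g (nat_lit 5) .nil .nil)))) (.nd (nat_lit 6) 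
(.lf (nat_lit 271538) (.g (nat_lit 2723) (.e (nat_lit 196670) (nat_lit 14) (.e (nat_lit 73746) (nat_lit 3) (.e (nat_lit 516115) (nat_lit 1) (.e (nat_lit 164179) (nat_lit 154) (.e (nat_lit 57344) (nat_lit 0) .nil))))) .nil)) 
(.lf (nat_lit 271602) (.g (nat_lit 2664) (.e (nat_lit 196670) (nat_lit 14) (.e (nat_lit 73746) (nat_lit 3) (.e (nat_lit 516119) (nat_lit 1) (.e (nat_lit 164179) (nat_lit 154) (.e (nat_lit 57355) (nat_lit 0) (.e (nat_lit 1802) (nat_lit 119) (.e (nat_lit 516131) (nat_lit 3) (.e (nat_lit 221212) (nat_lit 22) .nil)))))))) (.g (nat_lit 4) .nil .nil)))))) 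
(.nd (nat_lit 4) (.nd (nat_lit 5) (.nd (nat_lit 6) 
(.lf (nat_lit 271498) (.g (nat_lit 2400) (.e (nat_lit 196669) (nat_lit 14) (.e (nat_lit 73755) (nat_lit 8) (.e (nat_lit 557104) (nat_lit 14) (.e (nat_lit 180252) (nat_lit 10) (.e (nat_lit 573503) (nat_lit 18) .nil))))) .nil)) 
(.lf (nat_lit 271562) (.g (nat_lit 2101) (.e (nat_lit 196670) (nat_lit 14) (.e (nat_lit 73746) (nat_lit 3) (.e (nat_lit 516115) (nat_lit 1) (.e (nat_lit 164183) (nat_lit 154) (.e (nat_lit 57358) (nat_lit 0) .nil))))) .nil))) (.nd (nat_lit 6) 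
(.lf (nat_lit 271530) (.g (nat_lit 1893) (.e (nat_lit 196670) (nat_lit 14) (.e (nat_lit 73746) (nat_lit 3) (.e (nat_lit 516115) (nat_lit 1) (.e (nat_lit 164165) (nat_lit 152) .nil)))) .nil)) 
(.lf (nat_lit 271594) (.g (nat_lit 1546) (.e (nat_lit 196670) (nat_lit 14) (.e (nat_lit 73746) (nat_lit 3) (.e (nat_lit 516119) (nat_lit 1) (.e (nat_lit 164154) (nat_lit 152) (.e (nat_lit 1174) (nat_lit 87) .nil))))) .nil)))) (.nd (nat_lit 5) (.nd (nat_lit 6) 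
(.lf (nat_lit 271514) (.g (nat_lit 3405) (.e (nat_lit 196669) (nat_lit 14) (.e (nat_lit 73755) (nat_lit 8) (.e (nat_lit 557105) (nat_lit 14) (.e (nat_lit 180252) (nat_lit 10) (.e (nat_lit 573474) (nat_lit 12) (.e (nat_lit 57358) (nat_lit 0) (.e (nat_lit 5596) (nat_lit 310) (.e (nat_lit 163869) (nat_lit 2) .nil)))))))) (.g (nat_lit 5) .nil .nil))) 
(.lf (nat_lit 271578) (.g (nat_lit 2509) (.e (nat_lit 196670) (nat_lit 14) (.e (nat_lit 73746) (nat_lit 3) (.e (nat_lit 516117) (nat_lit 1) (.e (nat_lit 164183) (nat_lit 154) (.e (nat_lit 57358) (nat_lit 0) (.e (nat_lit 1802) (nat_lit 119) (.e (nat_lit 516131) (nat_lit 3) (.e (nat_lit 221212) (nat_lit 22) .nil)))))))) (.g (nat_lit 4) .nil .nil)))) (.nd (nat_lit 6) 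
(.lf (nat_lit 271546) (.g (nat_lit 2655) (.e (nat_lit 196670) (nat_lit 14) (.e (nat_lit 73746) (nat_lit 3) (.e (nat_lit 516115) (nat_lit 1) (.e (nat_lit 164179) (nat_lit 154) (.e (nat_lit 57349) (nat_lit 0) .nil))))) .nil)) 
(.lf (nat_lit 271610) (.g (nat_lit 2740) (.e (nat_lit 196670) (nat_lit 14) (.e (nat_lit 73746) (nat_lit 3) (.e (nat_lit 516119) (nat_lit 1) (.e (nat_lit 164179) (nat_lit 154) (.e (nat_lit 57378) (nat_lit 3) (.e (nat_lit 98342) (nat_lit 20) (.e (nat_lit 221211) (nat_lit 22) .nil))))))) (.g (nat_lit 4) .nil .nil))))))) (.nd (nat_lit 3) (.nd (nat_lit 4) (.nd (nat_lit 5) (.nd (nat_lit 6) 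
(.lf (nat_lit 271494) (.g (nat_lit 1771) (.e (nat_lit 196669) (nat_lit 14) (.e (nat_lit 73755) (nat_lit 8) (.e (nat_lit 557091) (nat_lit 12) (.e (nat_lit 164007) (nat_lit 41) .nil)))) .nil)) 
(.lf (nat_lit 271558) (.g (nat_lit 3345) (.e (nat_lit 196670) (nat_lit 14) (.e (nat_lit 73746) (nat_lit 3) (.e (nat_lit 516115) (nat_lit 1) (.e (nat_lit 164182) (nat_lit 154) (.e (nat_lit 57378) (nat_lit 3) (.e (nat_lit 98340) (nat_lit 20) (.e (nat_lit 221212) (nat_lit 22) .nil))))))) (.g (nat_lit 5) .nil .nil)))) (.nd (nat_lit 6) 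
(.lf (nat_lit 271526) (.g (nat_lit 1890) (.e (nat_lit 196670) (nat_lit 14) (.e (nat_lit 73746) (nat_lit 3) (.e (nat_lit 516115) (nat_lit 1) (.e (nat_lit 164154) (nat_lit 152) .nil)))) .nil)) 
(.lf (nat_lit 271590) (.g (nat_lit 3675) (.e (nat_lit 196670) (nat_lit 14) (.e (nat_lit 73746) (nat_lit 3) (.e (nat_lit 516118) (nat_lit 1) (.e (nat_lit 164183) (nat_lit 154) (.e (nat_lit 57378) (nat_lit 3) (.e (nat_lit 98341) (nat_lit 20) (.e (nat_lit 221212) (nat_lit 22) .nil))))))) (.g (nat_lit 6) .nil .nil))))) (.nd (nat_lit 5) (.nd (nat_lit 6) 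
(.lf (nat_lit 271510) (.g (nat_lit 3399) (.e (nat_lit 196669) (nat_lit 14) (.e (nat_lit 73755) (nat_lit 8) (.e (nat_lit 557105) (nat_lit 14) (.e (nat_lit 180252) (nat_lit 10) (.e (nat_lit 573474) (nat_lit 12) (.e (nat_lit 57349) (nat_lit 0) (.e (nat_lit 5604) (nat_lit 310) (.e (nat_lit 163869) (nat_lit 2) .nil)))))))) (.g (nat_lit 5) .nil .nil))) 
(.lf (nat_lit 271574) (.g (nat_lit 2281) (.e (nat_lit 196670) (nat_lit 14) (.e (nat_lit 73746) (nat_lit 3) (.e (nat_lit 516117) (nat_lit 1) (.e (nat_lit 164183) (nat_lit 154) (.e (nat_lit 57344) (nat_lit 0) .nil))))) .nil))) (.nd (nat_lit 6) 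
(.lf (nat_lit 271542) (.g (nat_lit 2934) (.e (nat_lit 196670) (nat_lit 14) (.e (nat_lit 73746) (nat_lit 3) (.e (nat_lit 516115) (nat_lit 1) (.e (nat_lit 164179) (nat_lit 154) (.e (nat_lit 57347) (nat_lit 0) (.e (nat_lit 1795) (nat_lit 119) (.e (nat_lit 516129) (nat_lit 3) (.e (nat_lit 221210) (nat_lit 22) .nil)))))))) (.g (nat_lit 4) .nil .nil))) 
(.lf (nat_lit 271606) (.g (nat_lit 2632) (.e (nat_lit 196670) (nat_lit 14) (.e (nat_lit 73746) (nat_lit 3) (.e (nat_lit 516119) (nat_lit 1) (.e (nat_lit 164179) (nat_lit 154) (.e (nat_lit 57377) (nat_lit 3) (.e (nat_lit 98342) (nat_lit 20) (.e (nat_lit 221211) (nat_lit 22) .nil))))))) (.g (nat_lit 4) .nil .nil)))))) (.nd (nat_lit 4) (.nd (nat_lit 5) (.nd (nat_lit 6) 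
(.lf (nat_lit 271502) (.g (nat_lit 2370) (.e (nat_lit 196669) (nat_lit 14) (.e (nat_lit 73755) (nat_lit 8) (.e (nat_lit 557105) (nat_lit 14) (.e (nat_lit 180252) (nat_lit 10) (.e (nat_lit 573458) (nat_lit 9) .nil))))) .nil)) 
(.lf (nat_lit 271566) (.g (nat_lit 1890) (.e (nat_lit 196670) (nat_lit 14) (.e (nat_lit 73746) (nat_lit 3) (.e (nat_lit 516115) (nat_lit 1) (.e (nat_lit 164185) (nat_lit 155) .nil)))) .nil))) (.nd (nat_lit 6) 
(.lf (nat_lit 271534) (.g (nat_lit 1972) (.e (nat_lit 196670) (nat_lit 14) (.e (nat_lit 73746) (nat_lit 3) (.e (nat_lit 516115) (nat_lit 1) (.e (nat_lit 164177) (nat_lit 154) (.e (nat_lit 57348) (nat_lit 0) (.e (nat_lit 1781) (nat_lit 119) (.e (nat_lit 516131) (nat_lit 3) (.e (nat_lit 221212) (nat_lit 22) .nil)))))))) (.g (nat_lit 4) .nil .nil))) 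
(.lf (nat_lit 271598) (.g (nat_lit 2728) (.e (nat_lit 196670) (nat_lit 14) (.e (nat_lit 73746) (nat_lit 3) (.e (nat_lit 516119) (nat_lit 1) (.e (nat_lit 164179) (nat_lit 154) (.e (nat_lit 57347) (nat_lit 0) (.e (nat_lit 1781) (nat_lit 119) (.e (nat_lit 516131) (nat_lit 3) (.e (nat_lit 221212) (nat_lit 22) .nil)))))))) (.g (nat_lit 4) .nil .nil))))) (.nd (nat_lit 5) (.nd (nat_lit 6) 
(.lf (nat_lit 271518) (.g (nat_lit 2475) (.e (nat_lit 196669) (nat_lit 14) (.e (nat_lit 73755) (nat_lit 8) (.e (nat_lit 557105) (nat_lit 14) (.e (nat_lit 180252) (nat_lit 10) (.e (nat_lit 573503) (nat_lit 18) .nil))))) .nil)) 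
(.lf (nat_lit 271582) (.g (nat_lit 4294) (.e (nat_lit 196670) (nat_lit 14) (.e (nat_lit 73746) (nat_lit 3) (.e (nat_lit 516117) (nat_lit 1) (.e (nat_lit 164183) (nat_lit 154) (.e (nat_lit 57378) (nat_lit 3) (.e (nat_lit 98342) (nat_lit 20) (.e (nat_lit 221212) (nat_lit 22) .nil))))))) (.g (nat_lit 7) .nil .nil)))) (.nd (nat_lit 6) 
(.lf (nat_lit 271550) (.g (nat_lit 2678) (.e (nat_lit 196670) (nat_lit 14) (.e (nat_lit 73746) (nat_lit 3) (.e (nat_lit 516115) (nat_lit 1) (.e (nat_lit 164179) (nat_lit 154) (.e (nat_lit 57358) (nat_lit 0) .nil))))) .nil)) 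
(.lf (nat_lit 271614) (.g (nat_lit 1502) (.e (nat_lit 196670) (nat_lit 14) (.e (nat_lit 73746) (nat_lit 3) (.e (nat_lit 516120) (nat_lit 1) (.e (nat_lit 164159) (nat_lit 152) .nil)))) .nil)))))))) (.nd (nat_lit 1) (.nd (nat_lit 2) (.nd (nat_lit 3) (.nd (nat_lit 4) (.nd (nat_lit 5) (.nd (nat_lit 6) 
(.lf (nat_lit 271489) (.g (nat_lit 3199) (.e (nat_lit 196669) (nat_lit 14) (.e (nat_lit 73755) (nat_lit 8) (.e (nat_lit 557090) (nat_lit 12) (.e (nat_lit 164000) (nat_lit 38) (.e (nat_lit 639024) (nat_lit 19) .nil))))) .nil)) 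
(.lf (nat_lit 271553) (.g (nat_lit 4629) (.e (nat_lit 196670) (nat_lit 14) (.e (nat_lit 73746) (nat_lit 3) (.e (nat_lit 516115) (nat_lit 1) (.e (nat_lit 164179) (nat_lit 154) (.e (nat_lit 57378) (nat_lit 3) (.e (nat_lit 98340) (nat_lit 20) (.e (nat_lit 221210) (nat_lit 22) .nil))))))) (.g (nat_lit 5) .nil .nil)))) (.nd (nat_lit 6) 
(.lf (nat_lit 271521) (.g (nat_lit 740) (.e (nat_lit 196670) (nat_lit 14) (.e (nat_lit 73729) (nat_lit 0) (.e (nat_lit 4780) (nat_lit 281) .nil))) .nil)) 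
(.lf (nat_lit 271585) (.g (nat_lit 1936) (.e (nat_lit 196670) (nat_lit 14) (.e (nat_lit 73746) (nat_lit 3) (.e (nat_lit 516118) (nat_lit 1) (.e (nat_lit 164179) (nat_lit 154) (.e (nat_lit 57349) (nat_lit 0) (.e (nat_lit 1803) (nat_lit 119) (.e (nat_lit 516131) (nat_lit 3) (.e (nat_lit 221212) (nat_lit 22) .nil)))))))) (.g (nat_lit 4) .nil .nil))))) (.nd (nat_lit 5) (.nd (nat_lit 6) 
(.lf (nat_lit 271505) (.g (nat_lit 1881) (.e (nat_lit 196669) (nat_lit 14) (.e (nat_lit 73755) (nat_lit 8) (.e (nat_lit 557105) (nat_lit 14) (.e (nat_lit 180252) (nat_lit 10) (.e (nat_lit 573474) (nat_lit 12) .nil))))) .nil)) 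
(.lf (nat_lit 271569) (.g (nat_lit 1693) (.e (nat_lit 196670) (nat_lit 14) (.e (nat_lit 73746) (nat_lit 3) (.e (nat_lit 516117) (nat_lit 1) (.e (nat_lit 164167) (nat_lit 152) .nil)))) .nil))) (.nd (nat_lit 6) 
(.lf (nat_lit 271537) (.g (nat_lit 2438) (.e (nat_lit 196670) (nat_lit 14) (.e (nat_lit 73746) (nat_lit 3) (.e (nat_lit 516115) (nat_lit 1) (.e (nat_lit 164177) (nat_lit 154) (.e (nat_lit 57379) (nat_lit 3) (.e (nat_lit 98342) (nat_lit 20) (.e (nat_lit 221211) (nat_lit 22) .nil))))))) (.g (nat_lit 4) .nil .nil))) 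
(.lf (nat_lit 271601) (.g (nat_lit 2140) (.e (nat_lit 196670) (nat_lit 14) (.e (nat_lit 73746) (nat_lit 3) (.e (nat_lit 516119) (nat_lit 1) (.e (nat_lit 164179) (nat_lit 154) (.e (nat_lit 57351) (nat_lit 0) .nil))))) .nil))))) (.nd (nat_lit 4) (.nd (nat_lit 5) (.nd (nat_lit 6) 
(.lf (nat_lit 271497) (.g (nat_lit 2322) (.e (nat_lit 196669) (nat_lit 14) (.e (nat_lit 73755) (nat_lit 8) (.e (nat_lit 557104) (nat_lit 14) (.e (nat_lit 180252) (nat_lit 10) (.e (nat_lit 573474) (nat_lit 12) .nil))))) .nil)) 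
(.lf (nat_lit 271561) (.g (nat_lit 2413) (.e (nat_lit 196670) (nat_lit 14) (.e (nat_lit 73746) (nat_lit 3) (.e (nat_lit 516115) (nat_lit 1) (.e (nat_lit 164183) (nat_lit 154) (.e (nat_lit 57356) (nat_lit 0) (.e (nat_lit 1802) (nat_lit 119) (.e (nat_lit 516131) (nat_lit 3) (.e (nat_lit 221212) (nat_lit 22) .nil)))))))) (.g (nat_lit 4) .nil .nil)))) (.nd (nat_lit 6) 
(.lf (nat_lit 271529) (.g (nat_lit 1892) (.e (nat_lit 196670) (nat_lit 14) (.e (nat_lit 73746) (nat_lit 3) (.e (nat_lit 516115) (nat_lit 1) (.e (nat_lit 164163) (nat_lit 152) .nil)))) .nil)) 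
(.lf (nat_lit 271593) (.g (nat_lit 1590) (.e (nat_lit 196670) (nat_lit 14) (.e (nat_lit 73746) (nat_lit 3) (.e (nat_lit 516119) (nat_lit 1) (.e (nat_lit 164152) (nat_lit 152) .nil)))) .nil)))) (.nd (nat_lit 5) (.nd (nat_lit 6) 
(.lf (nat_lit 271513) (.g (nat_lit 3101) (.e (nat_lit 196669) (nat_lit 14) (.e (nat_lit 73755) (nat_lit 8) (.e (nat_lit 557105) (nat_lit 14) (.e (nat_lit 180252) (nat_lit 10) (.e (nat_lit 573474) (nat_lit 12) (.e (nat_lit 57356) (nat_lit 0) (.e (nat_lit 5601) (nat_lit 310) (.e (nat_lit 163867) (nat_lit 2) .nil)))))))) (.g (nat_lit 5) .nil .nil))) 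
(.lf (nat_lit 271577) (.g (nat_lit 2862) (.e (nat_lit 196670) (nat_lit 14) (.e (nat_lit 73746) (nat_lit 3) (.e (nat_lit 516117) (nat_lit 1) (.e (nat_lit 164183) (nat_lit 154) (.e (nat_lit 57356) (nat_lit 0) (.e (nat_lit 1802) (nat_lit 119) (.e (nat_lit 516131) (nat_lit 3) (.e (nat_lit 221212) (nat_lit 22) .nil)))))))) (.g (nat_lit 4) .nil .nil)))) (.nd (nat_lit 6) 
(.lf (nat_lit 271545) (.g (nat_lit 2893) (.e (nat_lit 196670) (nat_lit 14) (.e (nat_lit 73746) (nat_lit 3) (.e (nat_lit 516115) (nat_lit 1) (.e (nat_lit 164179) (nat_lit 154) (.e (nat_lit 57348) (nat_lit 0) (.e (nat_lit 1795) (nat_lit 119) (.e (nat_lit 516129) (nat_lit 3) (.e (nat_lit 221210) (nat_lit 22) .nil)))))))) (.g (nat_lit 4) .nil .nil))) 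
(.lf (nat_lit 271609) (.g (nat_lit 4303) (.e (nat_lit 196670) (nat_lit 14) (.e (nat_lit 73746) (nat_lit 3) (.e (nat_lit 516119) (nat_lit 1) (.e (nat_lit 164179) (nat_lit 154) (.e (nat_lit 57378) (nat_lit 3) (.e (nat_lit 98341) (nat_lit 20) (.e (nat_lit 221212) (nat_lit 22) .nil))))))) (.g (nat_lit 6) .nil .nil))))))) (.nd (nat_lit 3) (.nd (nat_lit 4) (.nd (nat_lit 5) (.nd (nat_lit 6) 
(.lf (nat_lit 271493) (.g (nat_lit 2423) (.e (nat_lit 196669) (nat_lit 14) (.e (nat_lit 73755) (nat_lit 8) (.e (nat_lit 557091) (nat_lit 12) (.e (nat_lit 164000) (nat_lit 38) (.e (nat_lit 639024) (nat_lit 19) .nil))))) .nil)) 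
(.lf (nat_lit 271557) (.g (nat_lit 1875) (.e (nat_lit 196670) (nat_lit 14) (.e (nat_lit 73746) (nat_lit 3) (.e (nat_lit 516115) (nat_lit 1) (.e (nat_lit 164182) (nat_lit 154) (.e (nat_lit 57344) (nat_lit 0) .nil))))) .nil))) (.nd (nat_lit 6) 
(.lf (nat_lit 271525) (.g (nat_lit 1379) (.e (nat_lit 196670) (nat_lit 14) (.e (nat_lit 73746) (nat_lit 3) (.e (nat_lit 516115) (nat_lit 1) (.e (nat_lit 164153) (nat_lit 152) .nil)))) .nil)) 
(.lf (nat_lit 271589) (.g (nat_lit 3089) (.e (nat_lit 196670) (nat_lit 14) (.e (nat_lit 73746) (nat_lit 3) (.e (nat_lit 516118) (nat_lit 1) (.e (nat_lit 164183) (nat_lit 154) (.e (nat_lit 57378) (nat_lit 3) (.e (nat_lit 98340) (nat_lit 20) (.e (nat_lit 221210) (nat_lit 22) .nil))))))) (.g (nat_lit 5) .nil .nil))))) (.nd (nat_lit 5) (.nd (nat_lit 6) 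
(.lf (nat_lit 271509) (.g (nat_lit 3375) (.e (nat_lit 196669) (nat_lit 14) (.e (nat_lit 73755) (nat_lit 8) (.e (nat_lit 557105) (nat_lit 14) (.e (nat_lit 180252) (nat_lit 10) (.e (nat_lit 573474) (nat_lit 12) (.e (nat_lit 57349) (nat_lit 0) (.e (nat_lit 5604) (nat_lit 310) (.e (nat_lit 163867) (nat_lit 2) .nil)))))))) (.g (nat_lit 5) .nil .nil))) 
(.lf (nat_lit 271573) (.g (nat_lit 3857) (.e (nat_lit 196670) (nat_lit 14) (.e (nat_lit 73746) (nat_lit 3) (.e (nat_lit 516117) (nat_lit 1) (.e (nat_lit 164182) (nat_lit 154) (.e (nat_lit 57378) (nat_lit 3) (.e (nat_lit 98342) (nat_lit 20) (.e (nat_lit 221212) (nat_lit 22) .nil))))))) (.g (nat_lit 6) .nil .nil)))) (.nd (nat_lit 6) 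
(.lf (nat_lit 271541) (.g (nat_lit 3720) (.e (nat_lit 196670) (nat_lit 14) (.e (nat_lit 73746) (nat_lit 3) (.e (nat_lit 516115) (nat_lit 1) (.e (nat_lit 164179) (nat_lit 154) (.e (nat_lit 57347) (nat_lit 0) (.e (nat_lit 1781) (nat_lit 119) (.e (nat_lit 516131) (nat_lit 3) (.e (nat_lit 221212) (nat_lit 22) .nil)))))))) (.g (nat_lit 5) .nil .nil))) 
(.lf (nat_lit 271605) (.g (nat_lit 2140) (.e (nat_lit 196670) (nat_lit 14) (.e (nat_lit 73746) (nat_lit 3) (.e (nat_lit 516119) (nat_lit 1) (.e (nat_lit 164179) (nat_lit 154) (.e (nat_lit 57359) (nat_lit 0) .nil))))) .nil))))) (.nd (nat_lit 4) (.nd (nat_lit 5) (.nd (nat_lit 6) 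
(.lf (nat_lit 271501) (.g (nat_lit 3923) (.e (nat_lit 196669) (nat_lit 14) (.e (nat_lit 73755) (nat_lit 8) (.e (nat_lit 557105) (nat_lit 14) (.e (nat_lit 180252) (nat_lit 10) (.e (nat_lit 573451) (nat_lit 9) (.e (nat_lit 1174) (nat_lit 87) (.e (nat_lit 57931) (nat_lit 282) (.e (nat_lit 163867) (nat_lit 2) .nil)))))))) (.g (nat_lit 5) .nil .nil))) 
(.lf (nat_lit 271565) (.g (nat_lit 2673) (.e (nat_lit 196670) (nat_lit 14) (.e (nat_lit 73746) (nat_lit 3) (.e (nat_lit 516115) (nat_lit 1) (.e (nat_lit 164183) (nat_lit 154) (.e (nat_lit 57379) (nat_lit 3) (.e (nat_lit 98342) (nat_lit 20) (.e (nat_lit 221211) (nat_lit 22) .nil))))))) (.g (nat_lit 4) .nil .nil)))) (.nd (nat_lit 6) 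
(.lf (nat_lit 271533) (.g (nat_lit 1966) (.e (nat_lit 196670) (nat_lit 14) (.e (nat_lit 73746) (nat_lit 3) (.e (nat_lit 516115) (nat_lit 1) (.e (nat_lit 164177) (nat_lit 154) (.e (nat_lit 57347) (nat_lit 0) (.e (nat_lit 1781) (nat_lit 119) (.e (nat_lit 516131) (nat_lit 3) (.e (nat_lit 221212) (nat_lit 22) .nil)))))))) (.g (nat_lit 4) .nil .nil))) 
(.lf (nat_lit 271597) (.g (nat_lit 2462) (.e (nat_lit 196670) (nat_lit 14) (.e (nat_lit 73746) (nat_lit 3) (.e (nat_lit 516119) (nat_lit 1) (.e (nat_lit 164178) (nat_lit 154) (.e (nat_lit 57348) (nat_lit 0) (.e (nat_lit 1781) (nat_lit 119) (.e (nat_lit 516130) (nat_lit 3) (.e (nat_lit 221212) (nat_lit 22) .nil)))))))) (.g (nat_lit 4) .nil .nil))))) (.nd (nat_lit 5) (.nd (nat_lit 6) 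
(.lf (nat_lit 271517) (.g (nat_lit 2605) (.e (nat_lit 196669) (nat_lit 14) (.e (nat_lit 73755) (nat_lit 8) (.e (nat_lit 557105) (nat_lit 14) (.e (nat_lit 180252) (nat_lit 10) (.e (nat_lit 573475) (nat_lit 12) .nil))))) .nil)) 
(.lf (nat_lit 271581) (.g (nat_lit 2622) (.e (nat_lit 196670) (nat_lit 14) (.e (nat_lit 73746) (nat_lit 3) (.e (nat_lit 516117) (nat_lit 1) (.e (nat_lit 164183) (nat_lit 154) (.e (nat_lit 57378) (nat_lit 3) (.e (nat_lit 98342) (nat_lit 20) (.e (nat_lit 221211) (nat_lit 22) .nil))))))) (.g (nat_lit 4) .nil .nil)))) (.nd (nat_lit 6) 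
(.lf (nat_lit 271549) (.g (nat_lit 3232) (.e (nat_lit 196670) (nat_lit 14) (.e (nat_lit 73746) (nat_lit 3) (.e (nat_lit 516115) (nat_lit 1) (.e (nat_lit 164179) (nat_lit 154) (.e (nat_lit 57356) (nat_lit 0) (.e (nat_lit 1802) (nat_lit 119) (.e (nat_lit 516131) (nat_lit 3) (.e (nat_lit 221212) (nat_lit 22) .nil)))))))) (.g (nat_lit 4) .nil .nil))) 
(.lf (nat_lit 271613) (.g (nat_lit 3320) (.e (nat_lit 196670) (nat_lit 14) (.e (nat_lit 73746) (nat_lit 3) (.e (nat_lit 516119) (nat_lit 1) (.e (nat_lit 164183) (nat_lit 154) (.e (nat_lit 57378) (nat_lit 3) (.e (nat_lit 98342) (nat_lit 20) (.e (nat_lit 221212) (nat_lit 22) .nil))))))) (.g (nat_lit 5) .nil .nil)))))))) 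
(.nd (nat_lit 2) (.nd (nat_lit 3) (.nd (nat_lit 4) (.nd (nat_lit 5) (.nd (nat_lit 6) 
(.lf (nat_lit 271491) (.g (nat_lit 2371) (.e (nat_lit 196669) (nat_lit 14) (.e (nat_lit 73755) (nat_lit 8) (.e (nat_lit 557091) (nat_lit 12) (.e (nat_lit 163999) (nat_lit 38) (.e (nat_lit 639024) (nat_lit 19) .nil))))) .nil)) 
(.lf (nat_lit 271555) (.g (nat_lit 3389) (.e (nat_lit 196670) (nat_lit 14) (.e (nat_lit 73746) (nat_lit 3) (.e (nat_lit 516115) (nat_lit 1) (.e (nat_lit 164179) (nat_lit 154) (.e (nat_lit 57379) (nat_lit 3) (.e (nat_lit 98341) (nat_lit 20) (.e (nat_lit 221211) (nat_lit 22) .nil))))))) (.g (nat_lit 4) .nil .nil)))) (.nd (nat_lit 6) 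
(.lf (nat_lit 271523) (.g (nat_lit 1588) (.e (nat_lit 196670) (nat_lit 14) (.e (nat_lit 73746) (nat_lit 3) (.e (nat_lit 516115) (nat_lit 1) (.e (nat_lit 164151) (nat_lit 152) .nil)))) .nil)) 
(.lf (nat_lit 271587) (.g (nat_lit 2375) (.e (nat_lit 196670) (nat_lit 14) (.e (nat_lit 73746) (nat_lit 3) (.e (nat_lit 516118) (nat_lit 1) (.e (nat_lit 164179) (nat_lit 154) (.e (nat_lit 57376) (nat_lit 3) (.e (nat_lit 98342) (nat_lit 20) (.e (nat_lit 221212) (nat_lit 22) .nil))))))) (.g (nat_lit 4) .nil .nil))))) (.nd (nat_lit 5) (.nd (nat_lit 6) 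
(.lf (nat_lit 271507) (.g (nat_lit 3996) (.e (nat_lit 196669) (nat_lit 14) (.e (nat_lit 73755) (nat_lit 8) (.e (nat_lit 557105) (nat_lit 14) (.e (nat_lit 180252) (nat_lit 10) (.e (nat_lit 573474) (nat_lit 12) (.e (nat_lit 57347) (nat_lit 0) (.e (nat_lit 5591) (nat_lit 310) (.e (nat_lit 163867) (nat_lit 2) .nil)))))))) (.g (nat_lit 6) .nil .nil))) 
(.lf (nat_lit 271571) (.g (nat_lit 2259) (.e (nat_lit 196670) (nat_lit 14) (.e (nat_lit 73746) (nat_lit 3) (.e (nat_lit 516117) (nat_lit 1) (.e (nat_lit 164182) (nat_lit 154) (.e (nat_lit 57358) (nat_lit 0) (.e (nat_lit 1802) (nat_lit 119) (.e (nat_lit 516131) (nat_lit 3) (.e (nat_lit 221212) (nat_lit 22) .nil)))))))) (.g (nat_lit 4) .nil .nil)))) (.nd (nat_lit 6) 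
(.lf (nat_lit 271539) (.g (nat_lit 2576) (.e (nat_lit 196670) (nat_lit 14) (.e (nat_lit 73746) (nat_lit 3) (.e (nat_lit 516115) (nat_lit 1) (.e (nat_lit 164179) (nat_lit 154) (.e (nat_lit 57347) (nat_lit 0) .nil))))) .nil)) 
(.lf (nat_lit 271603) (.g (nat_lit 2140) (.e (nat_lit 196670) (nat_lit 14) (.e (nat_lit 73746) (nat_lit 3) (.e (nat_lit 516119) (nat_lit 1) (.e (nat_lit 164179) (nat_lit 154) (.e (nat_lit 57356) (nat_lit 0) .nil))))) .nil))))) (.nd (nat_lit 4) (.nd (nat_lit 5) (.nd (nat_lit 6) 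
(.lf (nat_lit 271499) (.g (nat_lit 1710) (.e (nat_lit 196669) (nat_lit 14) (.e (nat_lit 73755) (nat_lit 8) (.e (nat_lit 557105) (nat_lit 14) (.e (nat_lit 180251) (nat_lit 10) .nil)))) .nil)) 
(.lf (nat_lit 271563) (.g (nat_lit 2101) (.e (nat_lit 196670) (nat_lit 14) (.e (nat_lit 73746) (nat_lit 3) (.e (nat_lit 516115) (nat_lit 1) (.e (nat_lit 164183) (nat_lit 154) (.e (nat_lit 57359) (nat_lit 0) .nil))))) .nil))) (.nd (nat_lit 6) 
(.lf (nat_lit 271531) (.g (nat_lit 1890) (.e (nat_lit 196670) (nat_lit 14) (.e (nat_lit 73746) (nat_lit 3) (.e (nat_lit 516115) (nat_lit 1) (.e (nat_lit 164170) (nat_lit 152) .nil)))) .nil)) 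
(.lf (nat_lit 271595) (.g (nat_lit 2146) (.e (nat_lit 196670) (nat_lit 14) (.e (nat_lit 73746) (nat_lit 3) (.e (nat_lit 516119) (nat_lit 1) (.e (nat_lit 164162) (nat_lit 152) (.e (nat_lit 1289) (nat_lit 95) .nil))))) .nil)))) (.nd (nat_lit 5) (.nd (nat_lit 6) 
(.lf (nat_lit 271515) (.g (nat_lit 3405) (.e (nat_lit 196669) (nat_lit 14) (.e (nat_lit 73755) (nat_lit 8) (.e (nat_lit 557105) (nat_lit 14) (.e (nat_lit 180252) (nat_lit 10) (.e (nat_lit 573474) (nat_lit 12) (.e (nat_lit 57358) (nat_lit 0) (.e (nat_lit 5600) (nat_lit 310) (.e (nat_lit 163867) (nat_lit 2) .nil)))))))) (.g (nat_lit 5) .nil .nil))) 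
(.lf (nat_lit 271579) (.g (nat_lit 2306) (.e (nat_lit 196670) (nat_lit 14) (.e (nat_lit 73746) (nat_lit 3) (.e (nat_lit 516117) (nat_lit 1) (.e (nat_lit 164183) (nat_lit 154) (.e (nat_lit 57359) (nat_lit 0) (.e (nat_lit 1796) (nat_lit 119) (.e (nat_lit 516131) (nat_lit 3) (.e (nat_lit 221212) (nat_lit 22) .nil)))))))) (.g (nat_lit 4) .nil .nil)))) (.nd (nat_lit 6) 
(.lf (nat_lit 271547) (.g (nat_lit 3016) (.e (nat_lit 196670) (nat_lit 14) (.e (nat_lit 73746) (nat_lit 3) (.e (nat_lit 516115) (nat_lit 1) (.e (nat_lit 164179) (nat_lit 154) (.e (nat_lit 57352) (nat_lit 0) (.e (nat_lit 1803) (nat_lit 119) (.e (nat_lit 516131) (nat_lit 3) (.e (nat_lit 221212) (nat_lit 22) .nil)))))))) (.g (nat_lit 4) .nil .nil))) 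
(.lf (nat_lit 271611) (.g (nat_lit 2761) (.e (nat_lit 196670) (nat_lit 14) (.e (nat_lit 73746) (nat_lit 3) (.e (nat_lit 516119) (nat_lit 1) (.e (nat_lit 164182) (nat_lit 154) (.e (nat_lit 57378) (nat_lit 3) (.e (nat_lit 98341) (nat_lit 20) (.e (nat_lit 221212) (nat_lit 22) .nil))))))) (.g (nat_lit 4) .nil .nil))))))) (.nd (nat_lit 3) (.nd (nat_lit 4) (.nd (nat_lit 5) (.nd (nat_lit 6) 
(.lf (nat_lit 271495) (.g (nat_lit 1588) (.e (nat_lit 196669) (nat_lit 14) (.e (nat_lit 73755) (nat_lit 8) (.e (nat_lit 557104) (nat_lit 14) (.e (nat_lit 180245) (nat_lit 5) .nil)))) .nil)) 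
(.lf (nat_lit 271559) (.g (nat_lit 2467) (.e (nat_lit 196670) (nat_lit 14) (.e (nat_lit 73746) (nat_lit 3) (.e (nat_lit 516115) (nat_lit 1) (.e (nat_lit 164182) (nat_lit 154) (.e (nat_lit 57378) (nat_lit 3) (.e (nat_lit 98342) (nat_lit 20) (.e (nat_lit 221211) (nat_lit 22) .nil))))))) (.g (nat_lit 4) .nil .nil)))) (.nd (nat_lit 6) 
(.lf (nat_lit 271527) (.g (nat_lit 1660) (.e (nat_lit 196670) (nat_lit 14) (.e (nat_lit 73746) (nat_lit 3) (.e (nat_lit 516115) (nat_lit 1) (.e (nat_lit 164155) (nat_lit 152) .nil)))) .nil)) 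
(.lf (nat_lit 271591) (.g (nat_lit 1511) (.e (nat_lit 196670) (nat_lit 14) (.e (nat_lit 73746) (nat_lit 3) (.e (nat_lit 516119) (nat_lit 1) (.e (nat_lit 164150) (nat_lit 152) .nil)))) .nil)))) (.nd (nat_lit 5) (.nd (nat_lit 6) 
(.lf (nat_lit 271511) (.g (nat_lit 2274) (.e (nat_lit 196669) (nat_lit 14) (.e (nat_lit 73755) (nat_lit 8) (.e (nat_lit 557105) (nat_lit 14) (.e (nat_lit 180252) (nat_lit 10) (.e (nat_lit 573474) (nat_lit 12) (.e (nat_lit 57354) (nat_lit 0) (.e (nat_lit 5601) (nat_lit 310) (.e (nat_lit 163866) (nat_lit 2) .nil)))))))) (.g (nat_lit 4) .nil .nil))) 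
(.lf (nat_lit 271575) (.g (nat_lit 2763) (.e (nat_lit 196670) (nat_lit 14) (.e (nat_lit 73746) (nat_lit 3) (.e (nat_lit 516117) (nat_lit 1) (.e (nat_lit 164183) (nat_lit 154) (.e (nat_lit 57351) (nat_lit 0) (.e (nat_lit 1803) (nat_lit 119) (.e (nat_lit 516131) (nat_lit 3) (.e (nat_lit 221212) (nat_lit 22) .nil)))))))) (.g (nat_lit 4) .nil .nil)))) (.nd (nat_lit 6) 
(.lf (nat_lit 271543) (.g (nat_lit 2509) (.e (nat_lit 196670) (nat_lit 14) (.e (nat_lit 73746) (nat_lit 3) (.e (nat_lit 516115) (nat_lit 1) (.e (nat_lit 164179) (nat_lit 154) (.e (nat_lit 57348) (nat_lit 0) .nil))))) .nil)) 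
(.lf (nat_lit 271607) (.g (nat_lit 3779) (.e (nat_lit 196670) (nat_lit 14) (.e (nat_lit 73746) (nat_lit 3) (.e (nat_lit 516119) (nat_lit 1) (.e (nat_lit 164179) (nat_lit 154) (.e (nat_lit 57378) (nat_lit 3) (.e (nat_lit 98340) (nat_lit 20) (.e (nat_lit 221212) (nat_lit 22) .nil))))))) (.g (nat_lit 5) .nil .nil)))))) (.nd (nat_lit 4) (.nd (nat_lit 5) (.nd (nat_lit 6) 
(.lf (nat_lit 271503) (.g (nat_lit 3260) (.e (nat_lit 196669) (nat_lit 14) (.e (nat_lit 73755) (nat_lit 8) (.e (nat_lit 557105) (nat_lit 14) (.e (nat_lit 180252) (nat_lit 10) (.e (nat_lit 573459) (nat_lit 9) .nil))))) .nil)) 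
(.lf (nat_lit 271567) (.g (nat_lit 1969) (.e (nat_lit 196670) (nat_lit 14) (.e (nat_lit 73746) (nat_lit 3) (.e (nat_lit 516116) (nat_lit 1) (.e (nat_lit 164183) (nat_lit 154) (.e (nat_lit 57378) (nat_lit 3) .nil))))) .nil))) (.nd (nat_lit 6) 
(.lf (nat_lit 271535) (.g (nat_lit 2009) (.e (nat_lit 196670) (nat_lit 14) (.e (nat_lit 73746) (nat_lit 3) (.e (nat_lit 516115) (nat_lit 1) (.e (nat_lit 164177) (nat_lit 154) (.e (nat_lit 57349) (nat_lit 0) (.e (nat_lit 1803) (nat_lit 119) (.e (nat_lit 516131) (nat_lit 3) (.e (nat_lit 221212) (nat_lit 22) .nil)))))))) (.g (nat_lit 4) .nil .nil))) 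
(.lf (nat_lit 271599) (.g (nat_lit 2273) (.e (nat_lit 196670) (nat_lit 14) (.e (nat_lit 73746) (nat_lit 3) (.e (nat_lit 516119) (nat_lit 1) (.e (nat_lit 164179) (nat_lit 154) (.e (nat_lit 57348) (nat_lit 0) (.e (nat_lit 1781) (nat_lit 119) (.e (nat_lit 516130) (nat_lit 3) (.e (nat_lit 221212) (nat_lit 22) .nil)))))))) (.g (nat_lit 4) .nil .nil))))) (.nd (nat_lit 5) (.nd (nat_lit 6) 
(.lf (nat_lit 271519) (.g (nat_lit 3972) (.e (nat_lit 196669) (nat_lit 14) (.e (nat_lit 73755) (nat_lit 8) (.e (nat_lit 557105) (nat_lit 14) (.e (nat_lit 180252) (nat_lit 10) (.e (nat_lit 573503) (nat_lit 18) (.e (nat_lit 1348) (nat_lit 102) (.e (nat_lit 294656) (nat_lit 17) .nil))))))) (.g (nat_lit 6) .nil .nil))) 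
(.lf (nat_lit 271583) (.g (nat_lit 2462) (.e (nat_lit 196670) (nat_lit 14) (.e (nat_lit 73746) (nat_lit 3) (.e (nat_lit 516117) (nat_lit 1) (.e (nat_lit 164183) (nat_lit 154) (.e (nat_lit 57379) (nat_lit 3) (.e (nat_lit 98341) (nat_lit 20) (.e (nat_lit 221211) (nat_lit 22) .nil))))))) (.g (nat_lit 4) .nil .nil)))) (.nd (nat_lit 6) 
(.lf (nat_lit 271551) (.g (nat_lit 3039) (.e (nat_lit 196670) (nat_lit 14) (.e (nat_lit 73746) (nat_lit 3) (.e (nat_lit 516115) (nat_lit 1) (.e (nat_lit 164179) (nat_lit 154) (.e (nat_lit 57377) (nat_lit 3) (.e (nat_lit 98341) (nat_lit 20) (.e (nat_lit 221211) (nat_lit 22) .nil))))))) (.g (nat_lit 4) .nil .nil))) 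
(.lf (nat_lit 271615) (.g (nat_lit 1943) (.e (nat_lit 196670) (nat_lit 14) (.e (nat_lit 73746) (nat_lit 3) (.e (nat_lit 516120) (nat_lit 1) (.e (nat_lit 164161) (nat_lit 152) .nil)))) .nil)))))))))

noncomputable def tv3483 : DT := (.nd (nat_lit 0) (.nd (nat_lit 1) (.nd (nat_lit 2) (.nd (nat_lit 3) (.nd (nat_lit 4) (.nd (nat_lit 5) 
(.lf (nat_lit 271616) (.g (nat_lit 2602) (.e (nat_lit 196670) (nat_lit 14) (.e (nat_lit 73746) (nat_lit 3) (.e (nat_lit 516120) (nat_lit 1) (.e (nat_lit 164166) (nat_lit 152) (.e (nat_lit 1181) (nat_lit 87) (.e (nat_lit 57467) (nat_lit 23) (.e (nat_lit 516131) (nat_lit 3) (.e (nat_lit 221212) (nat_lit 22) .nil)))))))) (.g (nat_lit 5) .nil .nil))) 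
(.lf (nat_lit 271648) (.g (nat_lit 1505) (.e (nat_lit 196670) (nat_lit 14) (.e (nat_lit 73748) (nat_lit 3) (.e (nat_lit 516131) (nat_lit 3) (.e (nat_lit 221212) (nat_lit 22) (.e (nat_lit 196635) (nat_lit 9) .nil))))) .nil))) (.nd (nat_lit 5) 
(.lf (nat_lit 271632) (.g (nat_lit 2212) (.e (nat_lit 196670) (nat_lit 14) (.e (nat_lit 73746) (nat_lit 3) (.e (nat_lit 516129) (nat_lit 3) (.e (nat_lit 221214) (nat_lit 23) (.e (nat_lit 204828) (nat_lit 18) .nil))))) .nil)) 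
(.lf (nat_lit 271664) (.g (nat_lit 2440) (.e (nat_lit 196670) (nat_lit 14) (.e (nat_lit 73753) (nat_lit 8) (.e (nat_lit 557105) (nat_lit 14) (.e (nat_lit 180251) (nat_lit 10) (.e (nat_lit 581376) (nat_lit 19) .nil))))) .nil)))) (.nd (nat_lit 4) (.nd (nat_lit 5) 
(.lf (nat_lit 271624) (.g (nat_lit 2652) (.e (nat_lit 196670) (nat_lit 14) (.e (nat_lit 73746) (nat_lit 3) (.e (nat_lit 516120) (nat_lit 1) (.e (nat_lit 164182) (nat_lit 154) (.e (nat_lit 57378) (nat_lit 3) (.e (nat_lit 98342) (nat_lit 20) (.e (nat_lit 221211) (nat_lit 22) .nil))))))) (.g (nat_lit 4) .nil .nil))) 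
(.lf (nat_lit 271656) (.g (nat_lit 2930) (.e (nat_lit 196670) (nat_lit 14) (.e (nat_lit 73753) (nat_lit 8) (.e (nat_lit 557100) (nat_lit 13) (.e (nat_lit 172064) (nat_lit 2) (.e (nat_lit 204544) (nat_lit 0) (.e (nat_lit 225) (nat_lit 21) (.e (nat_lit 336316) (nat_lit 17) .nil))))))) (.g (nat_lit 4) .nil .nil)))) (.nd (nat_lit 5) 
(.lf (nat_lit 271640) (.g (nat_lit 1478) (.e (nat_lit 196670) (nat_lit 14) (.e (nat_lit 73746) (nat_lit 3) (.e (nat_lit 516131) (nat_lit 3) (.e (nat_lit 221214) (nat_lit 23) (.e (nat_lit 204830) (nat_lit 18) .nil))))) .nil)) 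
(.lf (nat_lit 271672) (.g (nat_lit 3947) (.e (nat_lit 196670) (nat_lit 14) (.e (nat_lit 73753) (nat_lit 8) (.e (nat_lit 557105) (nat_lit 14) (.e (nat_lit 180252) (nat_lit 10) (.e (nat_lit 573451) (nat_lit 9) (.e (nat_lit 1174) (nat_lit 87) (.e (nat_lit 57924) (nat_lit 282) (.e (nat_lit 163867) (nat_lit 2) .nil)))))))) (.g (nat_lit 5) .nil .nil)))))) 
(.nd (nat_lit 3) (.nd (nat_lit 4) (.nd (nat_lit 5) 
(.lf (nat_lit 271620) (.g (nat_lit 2748) (.e (nat_lit 196670) (nat_lit 14) (.e (nat_lit 73746) (nat_lit 3) (.e (nat_lit 516120) (nat_lit 1) (.e (nat_lit 164182) (nat_lit 154) (.e (nat_lit 57358) (nat_lit 0) (.e (nat_lit 1802) (nat_lit 119) (.e (nat_lit 516131) (nat_lit 3) (.e (nat_lit 221212) (nat_lit 22) .nil)))))))) (.g (nat_lit 4) .nil .nil))) 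
(.lf (nat_lit 271652) (.g (nat_lit 3119) (.e (nat_lit 196670) (nat_lit 14) (.e (nat_lit 73753) (nat_lit 8) (.e (nat_lit 557091) (nat_lit 12) (.e (nat_lit 163999) (nat_lit 38) (.e (nat_lit 639024) (nat_lit 19) (.e (nat_lit 122936) (nat_lit 23) (.e (nat_lit 516131) (nat_lit 3) (.e (nat_lit 221212) (nat_lit 22) .nil)))))))) (.g (nat_lit 4) .nil .nil)))) (.nd (nat_lit 5) 
(.lf (nat_lit 271636) (.g (nat_lit 2035) (.e (nat_lit 196670) (nat_lit 14) (.e (nat_lit 73746) (nat_lit 3) (.e (nat_lit 516131) (nat_lit 3) (.e (nat_lit 221212) (nat_lit 22) (.e (nat_lit 196661) (nat_lit 12) .nil))))) .nil)) 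
(.lf (nat_lit 271668) (.g (nat_lit 4161) (.e (nat_lit 196670) (nat_lit 14) (.e (nat_lit 73753) (nat_lit 8) (.e (nat_lit 557105) (nat_lit 14) (.e (nat_lit 180252) (nat_lit 10) (.e (nat_lit 573451) (nat_lit 9) (.e (nat_lit 1169) (nat_lit 87) (.e (nat_lit 57924) (nat_lit 282) (.e (nat_lit 163867) (nat_lit 2) .nil)))))))) (.g (nat_lit 5) .nil .nil))))) (.nd (nat_lit 4) (.nd (nat_lit 5) 
(.lf (nat_lit 271628) (.g (nat_lit 2089) (.e (nat_lit 196670) (nat_lit 14) (.e (nat_lit 73746) (nat_lit 3) (.e (nat_lit 516120) (nat_lit 1) (.e (nat_lit 164183) (nat_lit 154) (.e (nat_lit 57359) (nat_lit 0) .nil))))) .nil)) 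
(.lf (nat_lit 271660) (.g (nat_lit 2875) (.e (nat_lit 196670) (nat_lit 14) (.e (nat_lit 73753) (nat_lit 8) (.e (nat_lit 557105) (nat_lit 14) (.e (nat_lit 180251) (nat_lit 10) (.e (nat_lit 573473) (nat_lit 12) .nil))))) .nil))) (.nd (nat_lit 5) 
(.lf (nat_lit 271644) (.g (nat_lit 2579) (.e (nat_lit 196670) (nat_lit 14) (.e (nat_lit 73746) (nat_lit 3) (.e (nat_lit 516131) (nat_lit 3) (.e (nat_lit 221215) (nat_lit 23) (.e (nat_lit 204825) (nat_lit 17) .nil))))) .nil)) 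
(.lf (nat_lit 271676) (.g (nat_lit 2775) (.e (nat_lit 196670) (nat_lit 14) (.e (nat_lit 73753) (nat_lit 8) (.e (nat_lit 557105) (nat_lit 14) (.e (nat_lit 180252) (nat_lit 10) (.e (nat_lit 573458) (nat_lit 9) (.e (nat_lit 1178) (nat_lit 87) (.e (nat_lit 57924) (nat_lit 282) (.e (nat_lit 163867) (nat_lit 2) .nil)))))))) (.g (nat_lit 4) .nil .nil))))))) 
(.nd (nat_lit 2) (.nd (nat_lit 3) (.nd (nat_lit 4) (.nd (nat_lit 5) 
(.lf (nat_lit 271618) (.g (nat_lit 2469) (.e (nat_lit 196670) (nat_lit 14) (.e (nat_lit 73746) (nat_lit 3) (.e (nat_lit 516120) (nat_lit 1) (.e (nat_lit 164182) (nat_lit 154) (.e (nat_lit 57352) (nat_lit 0) (.e (nat_lit 1803) (nat_lit 119) (.e (nat_lit 516131) (nat_lit 3) (.e (nat_lit 221212) (nat_lit 22) .nil)))))))) (.g (nat_lit 4) .nil .nil))) 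
(.lf (nat_lit 271650) (.g (nat_lit 1558) (.e (nat_lit 196670) (nat_lit 14) (.e (nat_lit 73753) (nat_lit 8) (.e (nat_lit 557091) (nat_lit 12) (.e (nat_lit 163999) (nat_lit 38) .nil)))) .nil))) (.nd (nat_lit 5) 
(.lf (nat_lit 271634) (.g (nat_lit 2461) (.e (nat_lit 196670) (nat_lit 14) (.e (nat_lit 73746) (nat_lit 3) (.e (nat_lit 516129) (nat_lit 3) (.e (nat_lit 221215) (nat_lit 23) (.e (nat_lit 204828) (nat_lit 18) .nil))))) .nil)) 
(.lf (nat_lit 271666) (.g (nat_lit 2758) (.e (nat_lit 196670) (nat_lit 14) (.e (nat_lit 73753) (nat_lit 8) (.e (nat_lit 557105) (nat_lit 14) (.e (nat_lit 180252) (nat_lit 10) (.e (nat_lit 573449) (nat_lit 9) (.e (nat_lit 1175) (nat_lit 87) (.e (nat_lit 57926) (nat_lit 282) (.e (nat_lit 163869) (nat_lit 2) .nil)))))))) (.g (nat_lit 4) .nil .nil))))) (.nd (nat_lit 4) (.nd (nat_lit 5) 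
(.lf (nat_lit 271626) (.g (nat_lit 2313) (.e (nat_lit 196670) (nat_lit 14) (.e (nat_lit 73746) (nat_lit 3) (.e (nat_lit 516120) (nat_lit 1) (.e (nat_lit 164183) (nat_lit 154) (.e (nat_lit 57356) (nat_lit 0) (.e (nat_lit 1802) (nat_lit 119) (.e (nat_lit 516131) (nat_lit 3) (.e (nat_lit 221212) (nat_lit 22) .nil)))))))) (.g (nat_lit 4) .nil .nil))) 
(.lf (nat_lit 271658) (.g (nat_lit 2654) (.e (nat_lit 196670) (nat_lit 14) (.e (nat_lit 73753) (nat_lit 8) (.e (nat_lit 557103) (nat_lit 14) (.e (nat_lit 180250) (nat_lit 10) (.e (nat_lit 573503) (nat_lit 18) (.e (nat_lit 1349) (nat_lit 102) (.e (nat_lit 294656) (nat_lit 17) .nil))))))) (.g (nat_lit 5) .nil .nil)))) (.nd (nat_lit 5) 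
(.lf (nat_lit 271642) (.g (nat_lit 2606) (.e (nat_lit 196670) (nat_lit 14) (.e (nat_lit 73746) (nat_lit 3) (.e (nat_lit 516131) (nat_lit 3) (.e (nat_lit 221215) (nat_lit 23) (.e (nat_lit 204817) (nat_lit 17) (.e (nat_lit 1030) (nat_lit 81) (.e (nat_lit 5596) (nat_lit 310) (.e (nat_lit 163869) (nat_lit 2) .nil)))))))) (.g (nat_lit 4) .nil .nil))) 
(.lf (nat_lit 271674) (.g (nat_lit 3727) (.e (nat_lit 196670) (nat_lit 14) (.e (nat_lit 73753) (nat_lit 8) (.e (nat_lit 557105) (nat_lit 14) (.e (nat_lit 180252) (nat_lit 10) (.e (nat_lit 573451) (nat_lit 9) (.e (nat_lit 1174) (nat_lit 87) (.e (nat_lit 57927) (nat_lit 282) (.e (nat_lit 163869) (nat_lit 2) .nil)))))))) (.g (nat_lit 5) .nil .nil)))))) 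
(.nd (nat_lit 3) (.nd (nat_lit 4) (.nd (nat_lit 5) 
(.lf (nat_lit 271622) (.g (nat_lit 3431) (.e (nat_lit 196670) (nat_lit 14) (.e (nat_lit 73746) (nat_lit 3) (.e (nat_lit 516120) (nat_lit 1) (.e (nat_lit 164182) (nat_lit 154) (.e (nat_lit 57378) (nat_lit 3) (.e (nat_lit 98340) (nat_lit 20) (.e (nat_lit 221212) (nat_lit 22) .nil))))))) (.g (nat_lit 5) .nil .nil))) 
(.lf (nat_lit 271654) (.g (nat_lit 1593) (.e (nat_lit 196670) (nat_lit 14) (.e (nat_lit 73753) (nat_lit 8) (.e (nat_lit 557091) (nat_lit 12) (.e (nat_lit 164006) (nat_lit 41) .nil)))) .nil))) (.nd (nat_lit 5) 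
(.lf (nat_lit 271638) (.g (nat_lit 1899) (.e (nat_lit 196670) (nat_lit 14) (.e (nat_lit 73746) (nat_lit 3) (.e (nat_lit 516131) (nat_lit 3) (.e (nat_lit 221214) (nat_lit 23) (.e (nat_lit 204821) (nat_lit 17) .nil))))) .nil)) 
(.lf (nat_lit 271670) (.g (nat_lit 3721) (.e (nat_lit 196670) (nat_lit 14) (.e (nat_lit 73753) (nat_lit 8) (.e (nat_lit 557105) (nat_lit 14) (.e (nat_lit 180252) (nat_lit 10) (.e (nat_lit 573451) (nat_lit 9) (.e (nat_lit 1173) (nat_lit 87) (.e (nat_lit 57927) (nat_lit 282) (.e (nat_lit 163869) (nat_lit 2) .nil)))))))) (.g (nat_lit 5) .nil .nil))))) (.nd (nat_lit 4) (.nd (nat_lit 5) 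
(.lf (nat_lit 271630) (.g (nat_lit 536) (.e (nat_lit 196670) (nat_lit 14) (.e (nat_lit 73746) (nat_lit 3) (.e (nat_lit 516128) (nat_lit 3) .nil))) .nil)) 
(.lf (nat_lit 271662) (.g (nat_lit 2394) (.e (nat_lit 196670) (nat_lit 14) (.e (nat_lit 73753) (nat_lit 8) (.e (nat_lit 557105) (nat_lit 14) (.e (nat_lit 180251) (nat_lit 10) (.e (nat_lit 573477) (nat_lit 12) .nil))))) .nil))) (.nd (nat_lit 5) 
(.lf (nat_lit 271646) (.g (nat_lit 1615) (.e (nat_lit 196670) (nat_lit 14) (.e (nat_lit 73746) (nat_lit 3) (.e (nat_lit 516131) (nat_lit 3) (.e (nat_lit 221215) (nat_lit 23) (.e (nat_lit 204828) (nat_lit 18) .nil))))) .nil)) 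
(.lf (nat_lit 271678) (.g (nat_lit 3178) (.e (nat_lit 196670) (nat_lit 14) (.e (nat_lit 73753) (nat_lit 8) (.e (nat_lit 557105) (nat_lit 14) (.e (nat_lit 180252) (nat_lit 10) (.e (nat_lit 573459) (nat_lit 9) .nil))))) .nil))))))) (.nd (nat_lit 1) (.nd (nat_lit 2) (.nd (nat_lit 3) (.nd (nat_lit 4) (.nd (nat_lit 5) 
(.lf (nat_lit 271617) (.g (nat_lit 2157) (.e (nat_lit 196670) (nat_lit 14) (.e (nat_lit 73746) (nat_lit 3) (.e (nat_lit 516120) (nat_lit 1) (.e (nat_lit 164182) (nat_lit 154) (.e (nat_lit 57344) (nat_lit 0) .nil))))) .nil)) 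
(.lf (nat_lit 271649) (.g (nat_lit 2174) (.e (nat_lit 196670) (nat_lit 14) (.e (nat_lit 73753) (nat_lit 8) (.e (nat_lit 557089) (nat_lit 12) (.e (nat_lit 164000) (nat_lit 38) (.e (nat_lit 639024) (nat_lit 19) .nil))))) .nil))) (.nd (nat_lit 5) 
(.lf (nat_lit 271633) (.g (nat_lit 2174) (.e (nat_lit 196670) (nat_lit 14) (.e (nat_lit 73746) (nat_lit 3) (.e (nat_lit 516129) (nat_lit 3) (.e (nat_lit 221215) (nat_lit 23) (.e (nat_lit 204827) (nat_lit 17) .nil))))) .nil)) 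
(.lf (nat_lit 271665) (.g (nat_lit 2619) (.e (nat_lit 196670) (nat_lit 14) (.e (nat_lit 73753) (nat_lit 8) (.e (nat_lit 557105) (nat_lit 14) (.e (nat_lit 180252) (nat_lit 10) (.e (nat_lit 573449) (nat_lit 9) (.e (nat_lit 1175) (nat_lit 87) (.e (nat_lit 57924) (nat_lit 282) (.e (nat_lit 163867) (nat_lit 2) .nil)))))))) (.g (nat_lit 4) .nil .nil))))) (.nd (nat_lit 4) (.nd (nat_lit 5) 
(.lf (nat_lit 271625) (.g (nat_lit 2089) (.e (nat_lit 196670) (nat_lit 14) (.e (nat_lit 73746) (nat_lit 3) (.e (nat_lit 516120) (nat_lit 1) (.e (nat_lit 164183) (nat_lit 154) (.e (nat_lit 57352) (nat_lit 0) .nil))))) .nil)) 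
(.lf (nat_lit 271657) (.g (nat_lit 3517) (.e (nat_lit 196670) (nat_lit 14) (.e (nat_lit 73753) (nat_lit 8) (.e (nat_lit 557103) (nat_lit 14) (.e (nat_lit 180250) (nat_lit 10) (.e (nat_lit 573474) (nat_lit 12) (.e (nat_lit 57354) (nat_lit 0) (.e (nat_lit 5601) (nat_lit 310) (.e (nat_lit 163867) (nat_lit 2) .nil)))))))) (.g (nat_lit 5) .nil .nil)))) (.nd (nat_lit 5) 
(.lf (nat_lit 271641) (.g (nat_lit 2579) (.e (nat_lit 196670) (nat_lit 14) (.e (nat_lit 73746) (nat_lit 3) (.e (nat_lit 516131) (nat_lit 3) (.e (nat_lit 221215) (nat_lit 23) (.e (nat_lit 204816) (nat_lit 17) .nil))))) .nil)) 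
(.lf (nat_lit 271673) (.g (nat_lit 4078) (.e (nat_lit 196670) (nat_lit 14) (.e (nat_lit 73753) (nat_lit 8) (.e (nat_lit 557105) (nat_lit 14) (.e (nat_lit 180252) (nat_lit 10) (.e (nat_lit 573451) (nat_lit 9) (.e (nat_lit 1174) (nat_lit 87) (.e (nat_lit 57925) (nat_lit 282) (.e (nat_lit 163867) (nat_lit 2) .nil)))))))) (.g (nat_lit 5) .nil .nil)))))) 
(.nd (nat_lit 3) (.nd (nat_lit 4) (.nd (nat_lit 5) 
(.lf (nat_lit 271621) (.g (nat_lit 2356) (.e (nat_lit 196670) (nat_lit 14) (.e (nat_lit 73746) (nat_lit 3) (.e (nat_lit 516120) (nat_lit 1) (.e (nat_lit 164182) (nat_lit 154) (.e (nat_lit 57359) (nat_lit 0) (.e (nat_lit 1796) (nat_lit 119) (.e (nat_lit 516131) (nat_lit 3) (.e (nat_lit 221212) (nat_lit 22) .nil)))))))) (.g (nat_lit 4) .nil .nil))) 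
(.lf (nat_lit 271653) (.g (nat_lit 2352) (.e (nat_lit 196670) (nat_lit 14) (.e (nat_lit 73753) (nat_lit 8) (.e (nat_lit 557091) (nat_lit 12) (.e (nat_lit 164000) (nat_lit 38) (.e (nat_lit 639024) (nat_lit 19) .nil))))) .nil))) (.nd (nat_lit 5) 
(.lf (nat_lit 271637) (.g (nat_lit 2178) (.e (nat_lit 196670) (nat_lit 14) (.e (nat_lit 73746) (nat_lit 3) (.e (nat_lit 516131) (nat_lit 3) (.e (nat_lit 221212) (nat_lit 22) (.e (nat_lit 196661) (nat_lit 12) (.e (nat_lit 57357) (nat_lit 0) (.e (nat_lit 5603) (nat_lit 310) (.e (nat_lit 163869) (nat_lit 2) .nil)))))))) (.g (nat_lit 4) .nil .nil))) 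
(.lf (nat_lit 271669) (.g (nat_lit 4106) (.e (nat_lit 196670) (nat_lit 14) (.e (nat_lit 73753) (nat_lit 8) (.e (nat_lit 557105) (nat_lit 14) (.e (nat_lit 180252) (nat_lit 10) (.e (nat_lit 573451) (nat_lit 9) (.e (nat_lit 1169) (nat_lit 87) (.e (nat_lit 57931) (nat_lit 282) (.e (nat_lit 163867) (nat_lit 2) .nil)))))))) (.g (nat_lit 5) .nil .nil))))) (.nd (nat_lit 4) (.nd (nat_lit 5) 
(.lf (nat_lit 271629) (.g (nat_lit 1564) (.e (nat_lit 196670) (nat_lit 14) (.e (nat_lit 73746) (nat_lit 3) (.e (nat_lit 516120) (nat_lit 1) (.e (nat_lit 164184) (nat_lit 155) .nil)))) .nil)) 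
(.lf (nat_lit 271661) (.g (nat_lit 2453) (.e (nat_lit 196670) (nat_lit 14) (.e (nat_lit 73753) (nat_lit 8) (.e (nat_lit 557105) (nat_lit 14) (.e (nat_lit 180251) (nat_lit 10) (.e (nat_lit 573475) (nat_lit 12) .nil))))) .nil))) (.nd (nat_lit 5) 
(.lf (nat_lit 271645) (.g (nat_lit 2893) (.e (nat_lit 196670) (nat_lit 14) (.e (nat_lit 73746) (nat_lit 3) (.e (nat_lit 516131) (nat_lit 3) (.e (nat_lit 221215) (nat_lit 23) (.e (nat_lit 204827) (nat_lit 17) (.e (nat_lit 1041) (nat_lit 81) (.e (nat_lit 5603) (nat_lit 310) (.e (nat_lit 163867) (nat_lit 2) .nil)))))))) (.g (nat_lit 4) .nil .nil))) 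
(.lf (nat_lit 271677) (.g (nat_lit 3193) (.e (nat_lit 196670) (nat_lit 14) (.e (nat_lit 73753) (nat_lit 8) (.e (nat_lit 557105) (nat_lit 14) (.e (nat_lit 180252) (nat_lit 10) (.e (nat_lit 573458) (nat_lit 9) (.e (nat_lit 1178) (nat_lit 87) (.e (nat_lit 57930) (nat_lit 282) (.e (nat_lit 163867) (nat_lit 2) .nil)))))))) (.g (nat_lit 4) .nil .nil))))))) 
(.nd (nat_lit 2) (.nd (nat_lit 3) (.nd (nat_lit 4) (.nd (nat_lit 5) 
(.lf (nat_lit 271619) (.g (nat_lit 2539) (.e (nat_lit 196670) (nat_lit 14) (.e (nat_lit 73746) (nat_lit 3) (.e (nat_lit 516120) (nat_lit 1) (.e (nat_lit 164182) (nat_lit 154) (.e (nat_lit 57357) (nat_lit 0) (.e (nat_lit 1802) (nat_lit 119) (.e (nat_lit 516131) (nat_lit 3) (.e (nat_lit 221212) (nat_lit 22) .nil)))))))) (.g (nat_lit 4) .nil .nil))) 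
(.lf (nat_lit 271651) (.g (nat_lit 2649) (.e (nat_lit 196670) (nat_lit 14) (.e (nat_lit 73753) (nat_lit 8) (.e (nat_lit 557091) (nat_lit 12) (.e (nat_lit 163999) (nat_lit 38) (.e (nat_lit 639024) (nat_lit 19) .nil))))) .nil))) (.nd (nat_lit 5) 
(.lf (nat_lit 271635) (.g (nat_lit 3937) (.e (nat_lit 196670) (nat_lit 14) (.e (nat_lit 73746) (nat_lit 3) (.e (nat_lit 516131) (nat_lit 3) (.e (nat_lit 221211) (nat_lit 22) (.e (nat_lit 196661) (nat_lit 12) (.e (nat_lit 57361) (nat_lit 0) (.e (nat_lit 5599) (nat_lit 310) (.e (nat_lit 163869) (nat_lit 2) .nil)))))))) (.g (nat_lit 0) .nil .nil))) 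
(.lf (nat_lit 271667) (.g (nat_lit 2724) (.e (nat_lit 196670) (nat_lit 14) (.e (nat_lit 73753) (nat_lit 8) (.e (nat_lit 557105) (nat_lit 14) (.e (nat_lit 180252) (nat_lit 10) (.e (nat_lit 573449) (nat_lit 9) (.e (nat_lit 1183) (nat_lit 87) (.e (nat_lit 57924) (nat_lit 282) (.e (nat_lit 163867) (nat_lit 2) .nil)))))))) (.g (nat_lit 4) .nil .nil))))) (.nd (nat_lit 4) (.nd (nat_lit 5) 
(.lf (nat_lit 271627) (.g (nat_lit 2089) (.e (nat_lit 196670) (nat_lit 14) (.e (nat_lit 73746) (nat_lit 3) (.e (nat_lit 516120) (nat_lit 1) (.e (nat_lit 164183) (nat_lit 154) (.e (nat_lit 57358) (nat_lit 0) .nil))))) .nil)) 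
(.lf (nat_lit 271659) (.g (nat_lit 3169) (.e (nat_lit 196670) (nat_lit 14) (.e (nat_lit 73753) (nat_lit 8) (.e (nat_lit 557104) (nat_lit 14) (.e (nat_lit 180252) (nat_lit 10) (.e (nat_lit 573475) (nat_lit 12) .nil))))) .nil))) (.nd (nat_lit 5) 
(.lf (nat_lit 271643) (.g (nat_lit 2941) (.e (nat_lit 196670) (nat_lit 14) (.e (nat_lit 73746) (nat_lit 3) (.e (nat_lit 516131) (nat_lit 3) (.e (nat_lit 221215) (nat_lit 23) (.e (nat_lit 204817) (nat_lit 17) (.e (nat_lit 1030) (nat_lit 81) (.e (nat_lit 5603) (nat_lit 310) (.e (nat_lit 163869) (nat_lit 2) .nil)))))))) (.g (nat_lit 4) .nil .nil))) 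
(.lf (nat_lit 271675) (.g (nat_lit 4075) (.e (nat_lit 196670) (nat_lit 14) (.e (nat_lit 73753) (nat_lit 8) (.e (nat_lit 557105) (nat_lit 14) (.e (nat_lit 180252) (nat_lit 10) (.e (nat_lit 573451) (nat_lit 9) (.e (nat_lit 1174) (nat_lit 87) (.e (nat_lit 57930) (nat_lit 282) (.e (nat_lit 163867) (nat_lit 2) .nil)))))))) (.g (nat_lit 5) .nil .nil)))))) 
(.nd (nat_lit 3) (.nd (nat_lit 4) (.nd (nat_lit 5) 
(.lf (nat_lit 271623) (.g (nat_lit 2480) (.e (nat_lit 196670) (nat_lit 14) (.e (nat_lit 73746) (nat_lit 3) (.e (nat_lit 516120) (nat_lit 1) (.e (nat_lit 164182) (nat_lit 154) (.e (nat_lit 57378) (nat_lit 3) (.e (nat_lit 98341) (nat_lit 20) (.e (nat_lit 221211) (nat_lit 22) .nil))))))) (.g (nat_lit 4) .nil .nil))) 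
(.lf (nat_lit 271655) (.g (nat_lit 2509) (.e (nat_lit 196670) (nat_lit 14) (.e (nat_lit 73753) (nat_lit 8) (.e (nat_lit 557100) (nat_lit 13) (.e (nat_lit 172062) (nat_lit 2) (.e (nat_lit 204544) (nat_lit 0) .nil))))) .nil))) (.nd (nat_lit 5) 
(.lf (nat_lit 271639) (.g (nat_lit 1978) (.e (nat_lit 196670) (nat_lit 14) (.e (nat_lit 73746) (nat_lit 3) (.e (nat_lit 516131) (nat_lit 3) (.e (nat_lit 221214) (nat_lit 23) (.e (nat_lit 204828) (nat_lit 18) .nil))))) .nil)) 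
(.lf (nat_lit 271671) (.g (nat_lit 4053) (.e (nat_lit 196670) (nat_lit 14) (.e (nat_lit 73753) (nat_lit 8) (.e (nat_lit 557105) (nat_lit 14) (.e (nat_lit 180252) (nat_lit 10) (.e (nat_lit 573451) (nat_lit 9) (.e (nat_lit 1173) (nat_lit 87) (.e (nat_lit 57931) (nat_lit 282) (.e (nat_lit 163869) (nat_lit 2) .nil)))))))) (.g (nat_lit 5) .nil .nil))))) (.nd (nat_lit 4) (.nd (nat_lit 5) 
(.lf (nat_lit 271631) (.g (nat_lit 2620) (.e (nat_lit 196670) (nat_lit 14) (.e (nat_lit 73746) (nat_lit 3) (.e (nat_lit 516129) (nat_lit 3) (.e (nat_lit 221210) (nat_lit 22) (.e (nat_lit 196617) (nat_lit 9) (.e (nat_lit 1182) (nat_lit 87) (.e (nat_lit 57924) (nat_lit 282) (.e (nat_lit 163867) (nat_lit 2) .nil)))))))) (.g (nat_lit 4) .nil .nil))) 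
(.lf (nat_lit 271663) (.g (nat_lit 2170) (.e (nat_lit 196670) (nat_lit 14) (.e (nat_lit 73753) (nat_lit 8) (.e (nat_lit 557105) (nat_lit 14) (.e (nat_lit 180251) (nat_lit 10) (.e (nat_lit 573478) (nat_lit 12) .nil))))) .nil))) (.nd (nat_lit 5) 
(.lf (nat_lit 271647) (.g (nat_lit 1666) (.e (nat_lit 196670) (nat_lit 14) (.e (nat_lit 73746) (nat_lit 3) (.e (nat_lit 516131) (nat_lit 3) (.e (nat_lit 221215) (nat_lit 23) (.e (nat_lit 204830) (nat_lit 18) .nil))))) .nil)) 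
(.lf (nat_lit 271679) (.g (nat_lit 3150) (.e (nat_lit 196670) (nat_lit 14) (.e (nat_lit 73753) (nat_lit 8) (.e (nat_lit 557105) (nat_lit 14) (.e (nat_lit 180252) (nat_lit 10) (.e (nat_lit 573474) (nat_lit 12) (.e (nat_lit 57344) (nat_lit 0) (.e (nat_lit 5581) (nat_lit 310) (.e (nat_lit 163867) (nat_lit 2) .nil)))))))) (.g (nat_lit 4) .nil .nil)))))))))

noncomputable def tv3484 : DT := (.nd (nat_lit 0) (.nd (nat_lit 1) (.nd (nat_lit 2) (.nd (nat_lit 3) (.nd (nat_lit 4) (.nd (nat_lit 5) 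
(.lf (nat_lit 271680) (.g (nat_lit 3402) (.e (nat_lit 196670) (nat_lit 14) (.e (nat_lit 73753) (nat_lit 8) (.e (nat_lit 557105) (nat_lit 14) (.e (nat_lit 180252) (nat_lit 10) (.e (nat_lit 573474) (nat_lit 12) (.e (nat_lit 57344) (nat_lit 0) (.e (nat_lit 5587) (nat_lit 310) (.e (nat_lit 163871) (nat_lit 2) .nil)))))))) (.g (nat_lit 4) .nil .nil))) 
(.lf (nat_lit 271712) (.g (nat_lit 3321) (.e (nat_lit 196670) (nat_lit 14) (.e (nat_lit 73753) (nat_lit 8) (.e (nat_lit 557105) (nat_lit 14) (.e (nat_lit 180252) (nat_lit 10) (.e (nat_lit 573495) (nat_lit 16) (.e (nat_lit 122883) (nat_lit 0) (.e (nat_lit 5589) (nat_lit 310) (.e (nat_lit 163871) (nat_lit 2) .nil)))))))) (.g (nat_lit 4) .nil .nil)))) (.nd (nat_lit 5) 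
(.lf (nat_lit 271696) (.g (nat_lit 4553) (.e (nat_lit 196670) (nat_lit 14) (.e (nat_lit 73753) (nat_lit 8) (.e (nat_lit 557105) (nat_lit 14) (.e (nat_lit 180252) (nat_lit 10) (.e (nat_lit 573474) (nat_lit 12) (.e (nat_lit 57358) (nat_lit 0) (.e (nat_lit 5600) (nat_lit 310) (.e (nat_lit 163867) (nat_lit 2) .nil)))))))) (.g (nat_lit 5) .nil .nil))) 
(.lf (nat_lit 271728) (.g (nat_lit 4192) (.e (nat_lit 196670) (nat_lit 14) (.e (nat_lit 73754) (nat_lit 8) (.e (nat_lit 557105) (nat_lit 14) (.e (nat_lit 180252) (nat_lit 10) (.e (nat_lit 573451) (nat_lit 9) (.e (nat_lit 1174) (nat_lit 87) (.e (nat_lit 57930) (nat_lit 282) (.e (nat_lit 163867) (nat_lit 2) .nil)))))))) (.g (nat_lit 5) .nil .nil))))) (.nd (nat_lit 4) (.nd (nat_lit 5) 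
(.lf (nat_lit 271688) (.g (nat_lit 4285) (.e (nat_lit 196670) (nat_lit 14) (.e (nat_lit 73753) (nat_lit 8) (.e (nat_lit 557105) (nat_lit 14) (.e (nat_lit 180252) (nat_lit 10) (.e (nat_lit 573474) (nat_lit 12) (.e (nat_lit 57349) (nat_lit 0) (.e (nat_lit 5584) (nat_lit 310) (.e (nat_lit 163867) (nat_lit 2) .nil)))))))) (.g (nat_lit 5) .nil .nil))) 
(.lf (nat_lit 271720) (.g (nat_lit 1447) (.e (nat_lit 196670) (nat_lit 14) (.e (nat_lit 73754) (nat_lit 8) (.e (nat_lit 557105) (nat_lit 14) (.e (nat_lit 180245) (nat_lit 5) .nil)))) .nil))) (.nd (nat_lit 5) 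
(.lf (nat_lit 271704) (.g (nat_lit 3098) (.e (nat_lit 196670) (nat_lit 14) (.e (nat_lit 73753) (nat_lit 8) (.e (nat_lit 557105) (nat_lit 14) (.e (nat_lit 180252) (nat_lit 10) (.e (nat_lit 573475) (nat_lit 12) (.e (nat_lit 57346) (nat_lit 0) (.e (nat_lit 5582) (nat_lit 310) (.e (nat_lit 163867) (nat_lit 2) .nil)))))))) (.g (nat_lit 4) .nil .nil))) 
(.lf (nat_lit 271736) (.g (nat_lit 3571) (.e (nat_lit 196670) (nat_lit 14) (.e (nat_lit 73754) (nat_lit 8) (.e (nat_lit 557105) (nat_lit 14) (.e (nat_lit 180252) (nat_lit 10) (.e (nat_lit 573459) (nat_lit 9) (.e (nat_lit 1172) (nat_lit 87) (.e (nat_lit 57926) (nat_lit 282) (.e (nat_lit 163869) (nat_lit 2) .nil)))))))) (.g (nat_lit 4) .nil .nil)))))) 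
(.nd (nat_lit 3) (.nd (nat_lit 4) (.nd (nat_lit 5) 
(.lf (nat_lit 271684) (.g (nat_lit 3087) (.e (nat_lit 196670) (nat_lit 14) (.e (nat_lit 73753) (nat_lit 8) (.e (nat_lit 557105) (nat_lit 14) (.e (nat_lit 180252) (nat_lit 10) (.e (nat_lit 573474) (nat_lit 12) (.e (nat_lit 57345) (nat_lit 0) (.e (nat_lit 5584) (nat_lit 310) (.e (nat_lit 163871) (nat_lit 2) .nil)))))))) (.g (nat_lit 4) .nil .nil))) 
(.lf (nat_lit 271716) (.g (nat_lit 2552) (.e (nat_lit 196670) (nat_lit 14) (.e (nat_lit 73753) (nat_lit 8) (.e (nat_lit 557105) (nat_lit 14) (.e (nat_lit 180252) (nat_lit 10) (.e (nat_lit 573503) (nat_lit 18) (.e (nat_lit 1358) (nat_lit 102) (.e (nat_lit 294656) (nat_lit 17) .nil))))))) (.g (nat_lit 4) .nil .nil)))) (.nd (nat_lit 5) 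
(.lf (nat_lit 271700) (.g (nat_lit 3294) (.e (nat_lit 196670) (nat_lit 14) (.e (nat_lit 73753) (nat_lit 8) (.e (nat_lit 557105) (nat_lit 14) (.e (nat_lit 180252) (nat_lit 10) (.e (nat_lit 573475) (nat_lit 12) (.e (nat_lit 57345) (nat_lit 0) (.e (nat_lit 5583) (nat_lit 310) (.e (nat_lit 163871) (nat_lit 2) .nil)))))))) (.g (nat_lit 4) .nil .nil))) 
(.lf (nat_lit 271732) (.g (nat_lit 2342) (.e (nat_lit 196670) (nat_lit 14) (.e (nat_lit 73754) (nat_lit 8) (.e (nat_lit 557105) (nat_lit 14) (.e (nat_lit 180252) (nat_lit 10) (.e (nat_lit 573452) (nat_lit 9) (.e (nat_lit 1175) (nat_lit 87) (.e (nat_lit 57925) (nat_lit 282) (.e (nat_lit 163867) (nat_lit 2) .nil)))))))) (.g (nat_lit 4) .nil .nil))))) (.nd (nat_lit 4) (.nd (nat_lit 5) 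
(.lf (nat_lit 271692) (.g (nat_lit 3339) (.e (nat_lit 196670) (nat_lit 14) (.e (nat_lit 73753) (nat_lit 8) (.e (nat_lit 557105) (nat_lit 14) (.e (nat_lit 180252) (nat_lit 10) (.e (nat_lit 573474) (nat_lit 12) (.e (nat_lit 57349) (nat_lit 0) (.e (nat_lit 5593) (nat_lit 310) (.e (nat_lit 163871) (nat_lit 2) .nil)))))))) (.g (nat_lit 4) .nil .nil))) 
(.lf (nat_lit 271724) (.g (nat_lit 3291) (.e (nat_lit 196670) (nat_lit 14) (.e (nat_lit 73754) (nat_lit 8) (.e (nat_lit 557105) (nat_lit 14) (.e (nat_lit 180252) (nat_lit 10) (.e (nat_lit 573451) (nat_lit 9) (.e (nat_lit 1169) (nat_lit 87) (.e (nat_lit 57927) (nat_lit 282) (.e (nat_lit 163868) (nat_lit 2) .nil)))))))) (.g (nat_lit 4) .nil .nil)))) (.nd (nat_lit 5) 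
(.lf (nat_lit 271708) (.g (nat_lit 3077) (.e (nat_lit 196670) (nat_lit 14) (.e (nat_lit 73753) (nat_lit 8) (.e (nat_lit 557105) (nat_lit 14) (.e (nat_lit 180252) (nat_lit 10) (.e (nat_lit 573475) (nat_lit 12) (.e (nat_lit 57356) (nat_lit 0) (.e (nat_lit 5603) (nat_lit 310) (.e (nat_lit 163867) (nat_lit 2) .nil)))))))) (.g (nat_lit 4) .nil .nil))) 
(.lf (nat_lit 271740) (.g (nat_lit 3282) (.e (nat_lit 196670) (nat_lit 14) (.e (nat_lit 73754) (nat_lit 8) (.e (nat_lit 557105) (nat_lit 14) (.e (nat_lit 180252) (nat_lit 10) (.e (nat_lit 573474) (nat_lit 12) (.e (nat_lit 57344) (nat_lit 0) (.e (nat_lit 5581) (nat_lit 310) (.e (nat_lit 163867) (nat_lit 2) .nil)))))))) (.g (nat_lit 4) .nil .nil))))))) 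
(.nd (nat_lit 2) (.nd (nat_lit 3) (.nd (nat_lit 4) (.nd (nat_lit 5) 
(.lf (nat_lit 271682) (.g (nat_lit 2947) (.e (nat_lit 196670) (nat_lit 14) (.e (nat_lit 73753) (nat_lit 8) (.e (nat_lit 557105) (nat_lit 14) (.e (nat_lit 180252) (nat_lit 10) (.e (nat_lit 573474) (nat_lit 12) (.e (nat_lit 57344) (nat_lit 0) (.e (nat_lit 5590) (nat_lit 310) (.e (nat_lit 163867) (nat_lit 2) .nil)))))))) (.g (nat_lit 4) .nil .nil))) 
(.lf (nat_lit 271714) (.g (nat_lit 3873) (.e (nat_lit 196670) (nat_lit 14) (.e (nat_lit 73753) (nat_lit 8) (.e (nat_lit 557105) (nat_lit 14) (.e (nat_lit 180252) (nat_lit 10) (.e (nat_lit 573503) (nat_lit 18) (.e (nat_lit 1348) (nat_lit 102) (.e (nat_lit 294656) (nat_lit 17) .nil))))))) (.g (nat_lit 6) .nil .nil)))) (.nd (nat_lit 5) 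
(.lf (nat_lit 271698) (.g (nat_lit 2889) (.e (nat_lit 196670) (nat_lit 14) (.e (nat_lit 73753) (nat_lit 8) (.e (nat_lit 557105) (nat_lit 14) (.e (nat_lit 180252) (nat_lit 10) (.e (nat_lit 573475) (nat_lit 12) (.e (nat_lit 57344) (nat_lit 0) (.e (nat_lit 5601) (nat_lit 310) (.e (nat_lit 163867) (nat_lit 2) .nil)))))))) (.g (nat_lit 4) .nil .nil))) 
(.lf (nat_lit 271730) (.g (nat_lit 3096) (.e (nat_lit 196670) (nat_lit 14) (.e (nat_lit 73754) (nat_lit 8) (.e (nat_lit 557105) (nat_lit 14) (.e (nat_lit 180252) (nat_lit 10) (.e (nat_lit 573451) (nat_lit 9) (.e (nat_lit 1177) (nat_lit 87) (.e (nat_lit 57929) (nat_lit 282) (.e (nat_lit 163869) (nat_lit 2) .nil)))))))) (.g (nat_lit 4) .nil .nil))))) (.nd (nat_lit 4) (.nd (nat_lit 5) 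
(.lf (nat_lit 271690) (.g (nat_lit 3196) (.e (nat_lit 196670) (nat_lit 14) (.e (nat_lit 73753) (nat_lit 8) (.e (nat_lit 557105) (nat_lit 14) (.e (nat_lit 180252) (nat_lit 10) (.e (nat_lit 573474) (nat_lit 12) (.e (nat_lit 57349) (nat_lit 0) (.e (nat_lit 5590) (nat_lit 310) (.e (nat_lit 163870) (nat_lit 2) .nil)))))))) (.g (nat_lit 4) .nil .nil))) 
(.lf (nat_lit 271722) (.g (nat_lit 3298) (.e (nat_lit 196670) (nat_lit 14) (.e (nat_lit 73754) (nat_lit 8) (.e (nat_lit 557105) (nat_lit 14) (.e (nat_lit 180252) (nat_lit 10) (.e (nat_lit 573449) (nat_lit 9) (.e (nat_lit 1175) (nat_lit 87) (.e (nat_lit 57926) (nat_lit 282) (.e (nat_lit 163869) (nat_lit 2) .nil)))))))) (.g (nat_lit 4) .nil .nil)))) (.nd (nat_lit 5) 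
(.lf (nat_lit 271706) (.g (nat_lit 2763) (.e (nat_lit 196670) (nat_lit 14) (.e (nat_lit 73753) (nat_lit 8) (.e (nat_lit 557105) (nat_lit 14) (.e (nat_lit 180252) (nat_lit 10) (.e (nat_lit 573475) (nat_lit 12) (.e (nat_lit 57355) (nat_lit 0) (.e (nat_lit 5603) (nat_lit 310) (.e (nat_lit 163869) (nat_lit 2) .nil)))))))) (.g (nat_lit 4) .nil .nil))) 
(.lf (nat_lit 271738) (.g (nat_lit 3949) (.e (nat_lit 196670) (nat_lit 14) (.e (nat_lit 73754) (nat_lit 8) (.e (nat_lit 557105) (nat_lit 14) (.e (nat_lit 180252) (nat_lit 10) (.e (nat_lit 573459) (nat_lit 9) (.e (nat_lit 1172) (nat_lit 87) (.e (nat_lit 57931) (nat_lit 282) (.e (nat_lit 163869) (nat_lit 2) .nil)))))))) (.g (nat_lit 4) .nil .nil)))))) 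
(.nd (nat_lit 3) (.nd (nat_lit 4) (.nd (nat_lit 5) 
(.lf (nat_lit 271686) (.g (nat_lit 3137) (.e (nat_lit 196670) (nat_lit 14) (.e (nat_lit 73753) (nat_lit 8) (.e (nat_lit 557105) (nat_lit 14) (.e (nat_lit 180252) (nat_lit 10) (.e (nat_lit 573474) (nat_lit 12) (.e (nat_lit 57347) (nat_lit 0) (.e (nat_lit 5592) (nat_lit 310) (.e (nat_lit 163870) (nat_lit 2) .nil)))))))) (.g (nat_lit 4) .nil .nil))) 
(.lf (nat_lit 271718) (.g (nat_lit 1097) (.e (nat_lit 196670) (nat_lit 14) (.e (nat_lit 73754) (nat_lit 8) (.e (nat_lit 557091) (nat_lit 12) (.e (nat_lit 163999) (nat_lit 38) .nil)))) .nil))) (.nd (nat_lit 5) 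
(.lf (nat_lit 271702) (.g (nat_lit 3151) (.e (nat_lit 196670) (nat_lit 14) (.e (nat_lit 73753) (nat_lit 8) (.e (nat_lit 557105) (nat_lit 14) (.e (nat_lit 180252) (nat_lit 10) (.e (nat_lit 573475) (nat_lit 12) (.e (nat_lit 57345) (nat_lit 0) (.e (nat_lit 5590) (nat_lit 310) (.e (nat_lit 163867) (nat_lit 2) .nil)))))))) (.g (nat_lit 4) .nil .nil))) 
(.lf (nat_lit 271734) (.g (nat_lit 3406) (.e (nat_lit 196670) (nat_lit 14) (.e (nat_lit 73754) (nat_lit 8) (.e (nat_lit 557105) (nat_lit 14) (.e (nat_lit 180252) (nat_lit 10) (.e (nat_lit 573458) (nat_lit 9) (.e (nat_lit 1178) (nat_lit 87) (.e (nat_lit 57924) (nat_lit 282) (.e (nat_lit 163867) (nat_lit 2) .nil)))))))) (.g (nat_lit 5) .nil .nil))))) (.nd (nat_lit 4) (.nd (nat_lit 5) 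
(.lf (nat_lit 271694) (.g (nat_lit 2854) (.e (nat_lit 196670) (nat_lit 14) (.e (nat_lit 73753) (nat_lit 8) (.e (nat_lit 557105) (nat_lit 14) (.e (nat_lit 180252) (nat_lit 10) (.e (nat_lit 573474) (nat_lit 12) (.e (nat_lit 57354) (nat_lit 0) (.e (nat_lit 5589) (nat_lit 310) (.e (nat_lit 163870) (nat_lit 2) .nil)))))))) (.g (nat_lit 4) .nil .nil))) 
(.lf (nat_lit 271726) (.g (nat_lit 4195) (.e (nat_lit 196670) (nat_lit 14) (.e (nat_lit 73754) (nat_lit 8) (.e (nat_lit 557105) (nat_lit 14) (.e (nat_lit 180252) (nat_lit 10) (.e (nat_lit 573451) (nat_lit 9) (.e (nat_lit 1174) (nat_lit 87) (.e (nat_lit 57925) (nat_lit 282) (.e (nat_lit 163867) (nat_lit 2) .nil)))))))) (.g (nat_lit 5) .nil .nil)))) (.nd (nat_lit 5) 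
(.lf (nat_lit 271710) (.g (nat_lit 3002) (.e (nat_lit 196670) (nat_lit 14) (.e (nat_lit 73753) (nat_lit 8) (.e (nat_lit 557105) (nat_lit 14) (.e (nat_lit 180252) (nat_lit 10) (.e (nat_lit 573475) (nat_lit 12) (.e (nat_lit 65280) (nat_lit 0) (.e (nat_lit 5587) (nat_lit 310) (.e (nat_lit 163867) (nat_lit 2) .nil)))))))) (.g (nat_lit 4) .nil .nil))) 
(.lf (nat_lit 271742) (.g (nat_lit 3717) (.e (nat_lit 196670) (nat_lit 14) (.e (nat_lit 73754) (nat_lit 8) (.e (nat_lit 557105) (nat_lit 14) (.e (nat_lit 180252) (nat_lit 10) (.e (nat_lit 573474) (nat_lit 12) (.e (nat_lit 57344) (nat_lit 0) (.e (nat_lit 5587) (nat_lit 310) (.e (nat_lit 163871) (nat_lit 2) .nil)))))))) (.g (nat_lit 4) .nil .nil)))))))) 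
(.nd (nat_lit 1) (.nd (nat_lit 2) (.nd (nat_lit 3) (.nd (nat_lit 4) (.nd (nat_lit 5) 
(.lf (nat_lit 271681) (.g (nat_lit 3438) (.e (nat_lit 196670) (nat_lit 14) (.e (nat_lit 73753) (nat_lit 8) (.e (nat_lit 557105) (nat_lit 14) (.e (nat_lit 180252) (nat_lit 10) (.e (nat_lit 573474) (nat_lit 12) (.e (nat_lit 57344) (nat_lit 0) (.e (nat_lit 5588) (nat_lit 310) (.e (nat_lit 163868) (nat_lit 2) .nil)))))))) (.g (nat_lit 4) .nil .nil))) 
(.lf (nat_lit 271713) (.g (nat_lit 3546) (.e (nat_lit 196670) (nat_lit 14) (.e (nat_lit 73753) (nat_lit 8) (.e (nat_lit 557105) (nat_lit 14) (.e (nat_lit 180252) (nat_lit 10) (.e (nat_lit 573503) (nat_lit 18) (.e (nat_lit 1347) (nat_lit 102) (.e (nat_lit 294656) (nat_lit 17) .nil))))))) (.g (nat_lit 5) .nil .nil)))) (.nd (nat_lit 5) 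
(.lf (nat_lit 271697) (.g (nat_lit 3230) (.e (nat_lit 196670) (nat_lit 14) (.e (nat_lit 73753) (nat_lit 8) (.e (nat_lit 557105) (nat_lit 14) (.e (nat_lit 180252) (nat_lit 10) (.e (nat_lit 573475) (nat_lit 12) (.e (nat_lit 57344) (nat_lit 0) (.e (nat_lit 5589) (nat_lit 310) (.e (nat_lit 163868) (nat_lit 2) .nil)))))))) (.g (nat_lit 4) .nil .nil))) 
(.lf (nat_lit 271729) (.g (nat_lit 3235) (.e (nat_lit 196670) (nat_lit 14) (.e (nat_lit 73754) (nat_lit 8) (.e (nat_lit 557105) (nat_lit 14) (.e (nat_lit 180252) (nat_lit 10) (.e (nat_lit 573451) (nat_lit 9) (.e (nat_lit 1175) (nat_lit 87) (.e (nat_lit 57926) (nat_lit 282) (.e (nat_lit 163868) (nat_lit 2) .nil)))))))) (.g (nat_lit 4) .nil .nil))))) (.nd (nat_lit 4) (.nd (nat_lit 5) 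
(.lf (nat_lit 271689) (.g (nat_lit 3215) (.e (nat_lit 196670) (nat_lit 14) (.e (nat_lit 73753) (nat_lit 8) (.e (nat_lit 557105) (nat_lit 14) (.e (nat_lit 180252) (nat_lit 10) (.e (nat_lit 573474) (nat_lit 12) (.e (nat_lit 57349) (nat_lit 0) (.e (nat_lit 5584) (nat_lit 310) (.e (nat_lit 163871) (nat_lit 2) .nil)))))))) (.g (nat_lit 4) .nil .nil))) 
(.lf (nat_lit 271721) (.g (nat_lit 1715) (.e (nat_lit 196670) (nat_lit 14) (.e (nat_lit 73754) (nat_lit 8) (.e (nat_lit 557105) (nat_lit 14) (.e (nat_lit 180251) (nat_lit 10) (.e (nat_lit 573478) (nat_lit 12) .nil))))) .nil))) (.nd (nat_lit 5) 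
(.lf (nat_lit 271705) (.g (nat_lit 2849) (.e (nat_lit 196670) (nat_lit 14) (.e (nat_lit 73753) (nat_lit 8) (.e (nat_lit 557105) (nat_lit 14) (.e (nat_lit 180252) (nat_lit 10) (.e (nat_lit 573475) (nat_lit 12) (.e (nat_lit 57347) (nat_lit 0) (.e (nat_lit 5584) (nat_lit 310) (.e (nat_lit 163867) (nat_lit 2) .nil)))))))) (.g (nat_lit 4) .nil .nil))) 
(.lf (nat_lit 271737) (.g (nat_lit 3343) (.e (nat_lit 196670) (nat_lit 14) (.e (nat_lit 73754) (nat_lit 8) (.e (nat_lit 557105) (nat_lit 14) (.e (nat_lit 180252) (nat_lit 10) (.e (nat_lit 573459) (nat_lit 9) (.e (nat_lit 1172) (nat_lit 87) (.e (nat_lit 57927) (nat_lit 282) (.e (nat_lit 163869) (nat_lit 2) .nil)))))))) (.g (nat_lit 4) .nil .nil)))))) 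
(.nd (nat_lit 3) (.nd (nat_lit 4) (.nd (nat_lit 5) 
(.lf (nat_lit 271685) (.g (nat_lit 3194) (.e (nat_lit 196670) (nat_lit 14) (.e (nat_lit 73753) (nat_lit 8) (.e (nat_lit 557105) (nat_lit 14) (.e (nat_lit 180252) (nat_lit 10) (.e (nat_lit 573474) (nat_lit 12) (.e (nat_lit 57345) (nat_lit 0) (.e (nat_lit 5593) (nat_lit 310) (.e (nat_lit 163870) (nat_lit 2) .nil)))))))) (.g (nat_lit 4) .nil .nil))) 
(.lf (nat_lit 271717) (.g (nat_lit 3400) (.e (nat_lit 196670) (nat_lit 14) (.e (nat_lit 73753) (nat_lit 8) (.e (nat_lit 557105) (nat_lit 14) (.e (nat_lit 180252) (nat_lit 10) (.e (nat_lit 573503) (nat_lit 18) (.e (nat_lit 1359) (nat_lit 102) (.e (nat_lit 294656) (nat_lit 17) .nil))))))) (.g (nat_lit 5) .nil .nil)))) (.nd (nat_lit 5) 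
(.lf (nat_lit 271701) (.g (nat_lit 3085) (.e (nat_lit 196670) (nat_lit 14) (.e (nat_lit 73753) (nat_lit 8) (.e (nat_lit 557105) (nat_lit 14) (.e (nat_lit 180252) (nat_lit 10) (.e (nat_lit 573475) (nat_lit 12) (.e (nat_lit 57345) (nat_lit 0) (.e (nat_lit 5584) (nat_lit 310) (.e (nat_lit 163867) (nat_lit 2) .nil)))))))) (.g (nat_lit 4) .nil .nil))) 
(.lf (nat_lit 271733) (.g (nat_lit 2539) (.e (nat_lit 196670) (nat_lit 14) (.e (nat_lit 73754) (nat_lit 8) (.e (nat_lit 557105) (nat_lit 14) (.e (nat_lit 180252) (nat_lit 10) (.e (nat_lit 573458) (nat_lit 9) .nil))))) .nil)))) (.nd (nat_lit 4) (.nd (nat_lit 5) 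
(.lf (nat_lit 271693) (.g (nat_lit 2987) (.e (nat_lit 196670) (nat_lit 14) (.e (nat_lit 73753) (nat_lit 8) (.e (nat_lit 557105) (nat_lit 14) (.e (nat_lit 180252) (nat_lit 10) (.e (nat_lit 573474) (nat_lit 12) (.e (nat_lit 57354) (nat_lit 0) (.e (nat_lit 5585) (nat_lit 310) (.e (nat_lit 163867) (nat_lit 2) .nil)))))))) (.g (nat_lit 4) .nil .nil))) 
(.lf (nat_lit 271725) (.g (nat_lit 4064) (.e (nat_lit 196670) (nat_lit 14) (.e (nat_lit 73754) (nat_lit 8) (.e (nat_lit 557105) (nat_lit 14) (.e (nat_lit 180252) (nat_lit 10) (.e (nat_lit 573451) (nat_lit 9) (.e (nat_lit 1174) (nat_lit 87) (.e (nat_lit 57924) (nat_lit 282) (.e (nat_lit 163867) (nat_lit 2) .nil)))))))) (.g (nat_lit 5) .nil .nil)))) (.nd (nat_lit 5) 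
(.lf (nat_lit 271709) (.g (nat_lit 3113) (.e (nat_lit 196670) (nat_lit 14) (.e (nat_lit 73753) (nat_lit 8) (.e (nat_lit 557105) (nat_lit 14) (.e (nat_lit 180252) (nat_lit 10) (.e (nat_lit 573475) (nat_lit 12) (.e (nat_lit 57360) (nat_lit 0) (.e (nat_lit 5598) (nat_lit 310) (.e (nat_lit 163867) (nat_lit 2) .nil)))))))) (.g (nat_lit 4) .nil .nil))) 
(.lf (nat_lit 271741) (.g (nat_lit 3813) (.e (nat_lit 196670) (nat_lit 14) (.e (nat_lit 73754) (nat_lit 8) (.e (nat_lit 557105) (nat_lit 14) (.e (nat_lit 180252) (nat_lit 10) (.e (nat_lit 573474) (nat_lit 12) (.e (nat_lit 57344) (nat_lit 0) (.e (nat_lit 5586) (nat_lit 310) (.e (nat_lit 163869) (nat_lit 2) .nil)))))))) (.g (nat_lit 4) .nil .nil))))))) 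
(.nd (nat_lit 2) (.nd (nat_lit 3) (.nd (nat_lit 4) (.nd (nat_lit 5) 
(.lf (nat_lit 271683) (.g (nat_lit 3236) (.e (nat_lit 196670) (nat_lit 14) (.e (nat_lit 73753) (nat_lit 8) (.e (nat_lit 557105) (nat_lit 14) (.e (nat_lit 180252) (nat_lit 10) (.e (nat_lit 573474) (nat_lit 12) (.e (nat_lit 57344) (nat_lit 0) (.e (nat_lit 5602) (nat_lit 310) (.e (nat_lit 163867) (nat_lit 2) .nil)))))))) (.g (nat_lit 4) .nil .nil))) 
(.lf (nat_lit 271715) (.g (nat_lit 4271) (.e (nat_lit 196670) (nat_lit 14) (.e (nat_lit 73753) (nat_lit 8) (.e (nat_lit 557105) (nat_lit 14) (.e (nat_lit 180252) (nat_lit 10) (.e (nat_lit 573503) (nat_lit 18) (.e (nat_lit 1349) (nat_lit 102) (.e (nat_lit 294656) (nat_lit 17) .nil))))))) (.g (nat_lit 6) .nil .nil)))) (.nd (nat_lit 5) 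
(.lf (nat_lit 271699) (.g (nat_lit 2995) (.e (nat_lit 196670) (nat_lit 14) (.e (nat_lit 73753) (nat_lit 8) (.e (nat_lit 557105) (nat_lit 14) (.e (nat_lit 180252) (nat_lit 10) (.e (nat_lit 573475) (nat_lit 12) (.e (nat_lit 57344) (nat_lit 0) (.e (nat_lit 5603) (nat_lit 310) (.e (nat_lit 163867) (nat_lit 2) .nil)))))))) (.g (nat_lit 4) .nil .nil))) 
(.lf (nat_lit 271731) (.g (nat_lit 2578) (.e (nat_lit 196670) (nat_lit 14) (.e (nat_lit 73754) (nat_lit 8) (.e (nat_lit 557105) (nat_lit 14) (.e (nat_lit 180252) (nat_lit 10) (.e (nat_lit 573452) (nat_lit 9) (.e (nat_lit 1175) (nat_lit 87) (.e (nat_lit 57924) (nat_lit 282) (.e (nat_lit 163867) (nat_lit 2) .nil)))))))) (.g (nat_lit 4) .nil .nil))))) (.nd (nat_lit 4) (.nd (nat_lit 5) 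
(.lf (nat_lit 271691) (.g (nat_lit 3311) (.e (nat_lit 196670) (nat_lit 14) (.e (nat_lit 73753) (nat_lit 8) (.e (nat_lit 557105) (nat_lit 14) (.e (nat_lit 180252) (nat_lit 10) (.e (nat_lit 573474) (nat_lit 12) (.e (nat_lit 57349) (nat_lit 0) (.e (nat_lit 5591) (nat_lit 310) (.e (nat_lit 163868) (nat_lit 2) .nil)))))))) (.g (nat_lit 4) .nil .nil))) 
(.lf (nat_lit 271723) (.g (nat_lit 3273) (.e (nat_lit 196670) (nat_lit 14) (.e (nat_lit 73754) (nat_lit 8) (.e (nat_lit 557105) (nat_lit 14) (.e (nat_lit 180252) (nat_lit 10) (.e (nat_lit 573451) (nat_lit 9) (.e (nat_lit 1169) (nat_lit 87) (.e (nat_lit 57926) (nat_lit 282) (.e (nat_lit 163868) (nat_lit 2) .nil)))))))) (.g (nat_lit 4) .nil .nil)))) (.nd (nat_lit 5) 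
(.lf (nat_lit 271707) (.g (nat_lit 2982) (.e (nat_lit 196670) (nat_lit 14) (.e (nat_lit 73753) (nat_lit 8) (.e (nat_lit 557105) (nat_lit 14) (.e (nat_lit 180252) (nat_lit 10) (.e (nat_lit 573475) (nat_lit 12) (.e (nat_lit 57356) (nat_lit 0) (.e (nat_lit 5601) (nat_lit 310) (.e (nat_lit 163867) (nat_lit 2) .nil)))))))) (.g (nat_lit 4) .nil .nil))) 
(.lf (nat_lit 271739) (.g (nat_lit 4002) (.e (nat_lit 196670) (nat_lit 14) (.e (nat_lit 73754) (nat_lit 8) (.e (nat_lit 557105) (nat_lit 14) (.e (nat_lit 180252) (nat_lit 10) (.e (nat_lit 573459) (nat_lit 9) (.e (nat_lit 1181) (nat_lit 87) (.e (nat_lit 57931) (nat_lit 282) (.e (nat_lit 163869) (nat_lit 2) .nil)))))))) (.g (nat_lit 4) .nil .nil)))))) 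
(.nd (nat_lit 3) (.nd (nat_lit 4) (.nd (nat_lit 5) 
(.lf (nat_lit 271687) (.g (nat_lit 3065) (.e (nat_lit 196670) (nat_lit 14) (.e (nat_lit 73753) (nat_lit 8) (.e (nat_lit 557105) (nat_lit 14) (.e (nat_lit 180252) (nat_lit 10) (.e (nat_lit 573474) (nat_lit 12) (.e (nat_lit 57348) (nat_lit 0) (.e (nat_lit 5592) (nat_lit 310) (.e (nat_lit 163870) (nat_lit 2) .nil)))))))) (.g (nat_lit 4) .nil .nil))) 
(.lf (nat_lit 271719) (.g (nat_lit 1997) (.e (nat_lit 196670) (nat_lit 14) (.e (nat_lit 73754) (nat_lit 8) (.e (nat_lit 557103) (nat_lit 14) (.e (nat_lit 180250) (nat_lit 10) (.e (nat_lit 573477) (nat_lit 12) (.e (nat_lit 57361) (nat_lit 0) (.e (nat_lit 5597) (nat_lit 310) (.e (nat_lit 163867) (nat_lit 2) .nil)))))))) (.g (nat_lit 4) .nil .nil)))) (.nd (nat_lit 5) 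
(.lf (nat_lit 271703) (.g (nat_lit 3116) (.e (nat_lit 196670) (nat_lit 14) (.e (nat_lit 73753) (nat_lit 8) (.e (nat_lit 557105) (nat_lit 14) (.e (nat_lit 180252) (nat_lit 10) (.e (nat_lit 573475) (nat_lit 12) (.e (nat_lit 57345) (nat_lit 0) (.e (nat_lit 5595) (nat_lit 310) (.e (nat_lit 163867) (nat_lit 2) .nil)))))))) (.g (nat_lit 4) .nil .nil))) 
(.lf (nat_lit 271735) (.g (nat_lit 3293) (.e (nat_lit 196670) (nat_lit 14) (.e (nat_lit 73754) (nat_lit 8) (.e (nat_lit 557105) (nat_lit 14) (.e (nat_lit 180252) (nat_lit 10) (.e (nat_lit 573459) (nat_lit 9) .nil))))) .nil)))) (.nd (nat_lit 4) (.nd (nat_lit 5) 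
(.lf (nat_lit 271695) (.g (nat_lit 2989) (.e (nat_lit 196670) (nat_lit 14) (.e (nat_lit 73753) (nat_lit 8) (.e (nat_lit 557105) (nat_lit 14) (.e (nat_lit 180252) (nat_lit 10) (.e (nat_lit 573474) (nat_lit 12) (.e (nat_lit 57356) (nat_lit 0) (.e (nat_lit 5596) (nat_lit 310) (.e (nat_lit 163867) (nat_lit 2) .nil)))))))) (.g (nat_lit 4) .nil .nil))) 
(.lf (nat_lit 271727) (.g (nat_lit 4686) (.e (nat_lit 196670) (nat_lit 14) (.e (nat_lit 73754) (nat_lit 8) (.e (nat_lit 557105) (nat_lit 14) (.e (nat_lit 180252) (nat_lit 10) (.e (nat_lit 573451) (nat_lit 9) (.e (nat_lit 1174) (nat_lit 87) (.e (nat_lit 57926) (nat_lit 282) (.e (nat_lit 163869) (nat_lit 2) .nil)))))))) (.g (nat_lit 5) .nil .nil)))) (.nd (nat_lit 5) 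
(.lf (nat_lit 271711) (.g (nat_lit 3577) (.e (nat_lit 196670) (nat_lit 14) (.e (nat_lit 73753) (nat_lit 8) (.e (nat_lit 557105) (nat_lit 14) (.e (nat_lit 180252) (nat_lit 10) (.e (nat_lit 573495) (nat_lit 16) (.e (nat_lit 122883) (nat_lit 0) (.e (nat_lit 5589) (nat_lit 310) (.e (nat_lit 163868) (nat_lit 2) .nil)))))))) (.g (nat_lit 4) .nil .nil))) 
(.lf (nat_lit 271743) (.g (nat_lit 3745) (.e (nat_lit 196670) (nat_lit 14) (.e (nat_lit 73754) (nat_lit 8) (.e (nat_lit 557105) (nat_lit 14) (.e (nat_lit 180252) (nat_lit 10) (.e (nat_lit 573474) (nat_lit 12) (.e (nat_lit 57344) (nat_lit 0) (.e (nat_lit 5588) (nat_lit 310) (.e (nat_lit 163868) (nat_lit 2) .nil)))))))) (.g (nat_lit 4) .nil .nil)))))))))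

noncomputable def tv3485 : DT := (.nd (nat_lit 0) (.nd (nat_lit 1) (.nd (nat_lit 2) (.nd (nat_lit 3) (.nd (nat_lit 4) (.nd (nat_lit 5) 
(.lf (nat_lit 271744) (.g (nat_lit 3886) (.e (nat_lit 196670) (nat_lit 14) (.e (nat_lit 73754) (nat_lit 8) (.e (nat_lit 557105) (nat_lit 14) (.e (nat_lit 180252) (nat_lit 10) (.e (nat_lit 573474) (nat_lit 12) (.e (nat_lit 57344) (nat_lit 0) (.e (nat_lit 5588) (nat_lit 310) (.e (nat_lit 163871) (nat_lit 2) .nil)))))))) (.g (nat_lit 4) .nil .nil))) 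
(.lf (nat_lit 271776) (.g (nat_lit 4403) (.e (nat_lit 196670) (nat_lit 14) (.e (nat_lit 73754) (nat_lit 8) (.e (nat_lit 557105) (nat_lit 14) (.e (nat_lit 180252) (nat_lit 10) (.e (nat_lit 573474) (nat_lit 12) (.e (nat_lit 65280) (nat_lit 0) (.e (nat_lit 5587) (nat_lit 310) (.e (nat_lit 163867) (nat_lit 2) .nil)))))))) (.g (nat_lit 5) .nil .nil)))) (.nd (nat_lit 5) 
(.lf (nat_lit 271760) (.g (nat_lit 3718) (.e (nat_lit 196670) (nat_lit 14) (.e (nat_lit 73754) (nat_lit 8) (.e (nat_lit 557105) (nat_lit 14) (.e (nat_lit 180252) (nat_lit 10) (.e (nat_lit 573474) (nat_lit 12) (.e (nat_lit 57348) (nat_lit 0) (.e (nat_lit 7936) (nat_lit 310) (.e (nat_lit 163869) (nat_lit 2) .nil)))))))) (.g (nat_lit 4) .nil .nil))) 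
(.lf (nat_lit 271792) (.g (nat_lit 2758) (.e (nat_lit 196670) (nat_lit 14) (.e (nat_lit 73755) (nat_lit 8) (.e (nat_lit 557105) (nat_lit 14) (.e (nat_lit 180252) (nat_lit 10) (.e (nat_lit 573503) (nat_lit 18) (.e (nat_lit 1349) (nat_lit 102) (.e (nat_lit 294656) (nat_lit 17) .nil))))))) (.g (nat_lit 4) .nil .nil))))) (.nd (nat_lit 4) (.nd (nat_lit 5) 
(.lf (nat_lit 271752) (.g (nat_lit 3341) (.e (nat_lit 196670) (nat_lit 14) (.e (nat_lit 73754) (nat_lit 8) (.e (nat_lit 557105) (nat_lit 14) (.e (nat_lit 180252) (nat_lit 10) (.e (nat_lit 573474) (nat_lit 12) (.e (nat_lit 57345) (nat_lit 0) (.e (nat_lit 5591) (nat_lit 310) (.e (nat_lit 163871) (nat_lit 2) .nil)))))))) (.g (nat_lit 4) .nil .nil))) 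
(.lf (nat_lit 271784) (.g (nat_lit 3777) (.e (nat_lit 196670) (nat_lit 14) (.e (nat_lit 73754) (nat_lit 8) (.e (nat_lit 557105) (nat_lit 14) (.e (nat_lit 180252) (nat_lit 10) (.e (nat_lit 573503) (nat_lit 18) (.e (nat_lit 1347) (nat_lit 102) (.e (nat_lit 294656) (nat_lit 17) .nil))))))) (.g (nat_lit 5) .nil .nil)))) (.nd (nat_lit 5) 
(.lf (nat_lit 271768) (.g (nat_lit 3859) (.e (nat_lit 196670) (nat_lit 14) (.e (nat_lit 73754) (nat_lit 8) (.e (nat_lit 557105) (nat_lit 14) (.e (nat_lit 180252) (nat_lit 10) (.e (nat_lit 573474) (nat_lit 12) (.e (nat_lit 57349) (nat_lit 0) (.e (nat_lit 5593) (nat_lit 310) (.e (nat_lit 163871) (nat_lit 2) .nil)))))))) (.g (nat_lit 4) .nil .nil))) 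
(.lf (nat_lit 271800) (.g (nat_lit 486) (.e (nat_lit 196671) (nat_lit 15) (.e (nat_lit 81953) (nat_lit 22) (.e (nat_lit 90165) (nat_lit 12) .nil))) .nil))))) (.nd (nat_lit 3) (.nd (nat_lit 4) (.nd (nat_lit 5) 
(.lf (nat_lit 271748) (.g (nat_lit 3884) (.e (nat_lit 196670) (nat_lit 14) (.e (nat_lit 73754) (nat_lit 8) (.e (nat_lit 557105) (nat_lit 14) (.e (nat_lit 180252) (nat_lit 10) (.e (nat_lit 573474) (nat_lit 12) (.e (nat_lit 57344) (nat_lit 0) (.e (nat_lit 5602) (nat_lit 310) (.e (nat_lit 163869) (nat_lit 2) .nil)))))))) (.g (nat_lit 4) .nil .nil))) 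
(.lf (nat_lit 271780) (.g (nat_lit 3717) (.e (nat_lit 196670) (nat_lit 14) (.e (nat_lit 73754) (nat_lit 8) (.e (nat_lit 557105) (nat_lit 14) (.e (nat_lit 180252) (nat_lit 10) (.e (nat_lit 573475) (nat_lit 12) (.e (nat_lit 57348) (nat_lit 0) (.e (nat_lit 5593) (nat_lit 310) (.e (nat_lit 163868) (nat_lit 2) .nil)))))))) (.g (nat_lit 5) .nil .nil)))) (.nd (nat_lit 5) 
(.lf (nat_lit 271764) (.g (nat_lit 3875) (.e (nat_lit 196670) (nat_lit 14) (.e (nat_lit 73754) (nat_lit 8) (.e (nat_lit 557105) (nat_lit 14) (.e (nat_lit 180252) (nat_lit 10) (.e (nat_lit 573474) (nat_lit 12) (.e (nat_lit 57349) (nat_lit 0) (.e (nat_lit 5590) (nat_lit 310) (.e (nat_lit 163869) (nat_lit 2) .nil)))))))) (.g (nat_lit 4) .nil .nil))) 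
(.lf (nat_lit 271796) (.g (nat_lit 3624) (.e (nat_lit 196671) (nat_lit 15) (.e (nat_lit 81946) (nat_lit 20) (.e (nat_lit 1858) (nat_lit 124) (.e (nat_lit 557093) (nat_lit 12) (.e (nat_lit 164023) (nat_lit 46) (.e (nat_lit 704738) (nat_lit 11) (.e (nat_lit 16411) (nat_lit 2) .nil))))))) (.g (nat_lit 5) .nil .nil))))) (.nd (nat_lit 4) (.nd (nat_lit 5) 
(.lf (nat_lit 271756) (.g (nat_lit 3251) (.e (nat_lit 196670) (nat_lit 14) (.e (nat_lit 73754) (nat_lit 8) (.e (nat_lit 557105) (nat_lit 14) (.e (nat_lit 180252) (nat_lit 10) (.e (nat_lit 573474) (nat_lit 12) (.e (nat_lit 57347) (nat_lit 0) (.e (nat_lit 5592) (nat_lit 310) (.e (nat_lit 163870) (nat_lit 2) .nil)))))))) (.g (nat_lit 4) .nil .nil))) 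
(.lf (nat_lit 271788) (.g (nat_lit 3631) (.e (nat_lit 196670) (nat_lit 14) (.e (nat_lit 73754) (nat_lit 8) (.e (nat_lit 557105) (nat_lit 14) (.e (nat_lit 180252) (nat_lit 10) (.e (nat_lit 573503) (nat_lit 18) (.e (nat_lit 1359) (nat_lit 102) (.e (nat_lit 294656) (nat_lit 17) .nil))))))) (.g (nat_lit 6) .nil .nil)))) (.nd (nat_lit 5) 
(.lf (nat_lit 271772) (.g (nat_lit 3831) (.e (nat_lit 196670) (nat_lit 14) (.e (nat_lit 73754) (nat_lit 8) (.e (nat_lit 557105) (nat_lit 14) (.e (nat_lit 180252) (nat_lit 10) (.e (nat_lit 573474) (nat_lit 12) (.e (nat_lit 57356) (nat_lit 0) (.e (nat_lit 5596) (nat_lit 310) (.e (nat_lit 163869) (nat_lit 2) .nil)))))))) (.g (nat_lit 4) .nil .nil))) 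
(.lf (nat_lit 271804) (.g (nat_lit 2510) (.e (nat_lit 196671) (nat_lit 15) (.e (nat_lit 81954) (nat_lit 23) (.e (nat_lit 98349) (nat_lit 24) (.e (nat_lit 409646) (nat_lit 18) (.e (nat_lit 303117) (nat_lit 2) .nil))))) .nil)))))) (.nd (nat_lit 2) (.nd (nat_lit 3) (.nd (nat_lit 4) (.nd (nat_lit 5) 
(.lf (nat_lit 271746) (.g (nat_lit 3436) (.e (nat_lit 196670) (nat_lit 14) (.e (nat_lit 73754) (nat_lit 8) (.e (nat_lit 557105) (nat_lit 14) (.e (nat_lit 180252) (nat_lit 10) (.e (nat_lit 573474) (nat_lit 12) (.e (nat_lit 57344) (nat_lit 0) (.e (nat_lit 5593) (nat_lit 310) (.e (nat_lit 163868) (nat_lit 2) .nil)))))))) (.g (nat_lit 4) .nil .nil))) 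
(.lf (nat_lit 271778) (.g (nat_lit 3515) (.e (nat_lit 196670) (nat_lit 14) (.e (nat_lit 73754) (nat_lit 8) (.e (nat_lit 557105) (nat_lit 14) (.e (nat_lit 180252) (nat_lit 10) (.e (nat_lit 573474) (nat_lit 12) (.e (nat_lit 65280) (nat_lit 0) (.e (nat_lit 5603) (nat_lit 310) (.e (nat_lit 163869) (nat_lit 2) .nil)))))))) (.g (nat_lit 4) .nil .nil)))) (.nd (nat_lit 5) 
(.lf (nat_lit 271762) (.g (nat_lit 3489) (.e (nat_lit 196670) (nat_lit 14) (.e (nat_lit 73754) (nat_lit 8) (.e (nat_lit 557105) (nat_lit 14) (.e (nat_lit 180252) (nat_lit 10) (.e (nat_lit 573474) (nat_lit 12) (.e (nat_lit 57349) (nat_lit 0) (.e (nat_lit 5584) (nat_lit 310) (.e (nat_lit 163868) (nat_lit 2) .nil)))))))) (.g (nat_lit 4) .nil .nil))) 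
(.lf (nat_lit 271794) (.g (nat_lit 4229) (.e (nat_lit 196671) (nat_lit 15) (.e (nat_lit 81946) (nat_lit 20) (.e (nat_lit 1858) (nat_lit 124) (.e (nat_lit 557093) (nat_lit 12) (.e (nat_lit 164022) (nat_lit 46) (.e (nat_lit 704738) (nat_lit 11) (.e (nat_lit 16411) (nat_lit 2) .nil))))))) (.g (nat_lit 6) .nil .nil))))) (.nd (nat_lit 4) (.nd (nat_lit 5) 
(.lf (nat_lit 271754) (.g (nat_lit 3389) (.e (nat_lit 196670) (nat_lit 14) (.e (nat_lit 73754) (nat_lit 8) (.e (nat_lit 557105) (nat_lit 14) (.e (nat_lit 180252) (nat_lit 10) (.e (nat_lit 573474) (nat_lit 12) (.e (nat_lit 57345) (nat_lit 0) (.e (nat_lit 5593) (nat_lit 310) (.e (nat_lit 163870) (nat_lit 2) .nil)))))))) (.g (nat_lit 4) .nil .nil))) 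
(.lf (nat_lit 271786) (.g (nat_lit 4502) (.e (nat_lit 196670) (nat_lit 14) (.e (nat_lit 73754) (nat_lit 8) (.e (nat_lit 557105) (nat_lit 14) (.e (nat_lit 180252) (nat_lit 10) (.e (nat_lit 573503) (nat_lit 18) (.e (nat_lit 1349) (nat_lit 102) (.e (nat_lit 294656) (nat_lit 17) .nil))))))) (.g (nat_lit 6) .nil .nil)))) (.nd (nat_lit 5) 
(.lf (nat_lit 271770) (.g (nat_lit 3472) (.e (nat_lit 196670) (nat_lit 14) (.e (nat_lit 73754) (nat_lit 8) (.e (nat_lit 557105) (nat_lit 14) (.e (nat_lit 180252) (nat_lit 10) (.e (nat_lit 573474) (nat_lit 12) (.e (nat_lit 57354) (nat_lit 0) (.e (nat_lit 7936) (nat_lit 310) (.e (nat_lit 163869) (nat_lit 2) .nil)))))))) (.g (nat_lit 4) .nil .nil))) 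
(.lf (nat_lit 271802) (.g (nat_lit 1860) (.e (nat_lit 196671) (nat_lit 15) (.e (nat_lit 81954) (nat_lit 23) (.e (nat_lit 98349) (nat_lit 24) (.e (nat_lit 409644) (nat_lit 18) (.e (nat_lit 303117) (nat_lit 2) .nil))))) .nil))))) (.nd (nat_lit 3) (.nd (nat_lit 4) (.nd (nat_lit 5) 
(.lf (nat_lit 271750) (.g (nat_lit 3516) (.e (nat_lit 196670) (nat_lit 14) (.e (nat_lit 73754) (nat_lit 8) (.e (nat_lit 557105) (nat_lit 14) (.e (nat_lit 180252) (nat_lit 10) (.e (nat_lit 573474) (nat_lit 12) (.e (nat_lit 57345) (nat_lit 0) (.e (nat_lit 5584) (nat_lit 310) (.e (nat_lit 163871) (nat_lit 2) .nil)))))))) (.g (nat_lit 4) .nil .nil))) 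
(.lf (nat_lit 271782) (.g (nat_lit 2368) (.e (nat_lit 196670) (nat_lit 14) (.e (nat_lit 73754) (nat_lit 8) (.e (nat_lit 557105) (nat_lit 14) (.e (nat_lit 180252) (nat_lit 10) (.e (nat_lit 573475) (nat_lit 12) (.e (nat_lit 65280) (nat_lit 0) (.e (nat_lit 5587) (nat_lit 310) (.e (nat_lit 163866) (nat_lit 2) .nil)))))))) (.g (nat_lit 4) .nil .nil)))) (.nd (nat_lit 5) 
(.lf (nat_lit 271766) (.g (nat_lit 3862) (.e (nat_lit 196670) (nat_lit 14) (.e (nat_lit 73754) (nat_lit 8) (.e (nat_lit 557105) (nat_lit 14) (.e (nat_lit 180252) (nat_lit 10) (.e (nat_lit 573474) (nat_lit 12) (.e (nat_lit 57349) (nat_lit 0) (.e (nat_lit 5591) (nat_lit 310) (.e (nat_lit 163869) (nat_lit 2) .nil)))))))) (.g (nat_lit 4) .nil .nil))) 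
(.lf (nat_lit 271798) (.g (nat_lit 1339) (.e (nat_lit 196671) (nat_lit 15) (.e (nat_lit 81947) (nat_lit 20) (.e (nat_lit 1842) (nat_lit 123) (.e (nat_lit 548887) (nat_lit 9) .nil)))) .nil)))) (.nd (nat_lit 4) (.nd (nat_lit 5) 
(.lf (nat_lit 271758) (.g (nat_lit 3830) (.e (nat_lit 196670) (nat_lit 14) (.e (nat_lit 73754) (nat_lit 8) (.e (nat_lit 557105) (nat_lit 14) (.e (nat_lit 180252) (nat_lit 10) (.e (nat_lit 573474) (nat_lit 12) (.e (nat_lit 57348) (nat_lit 0) (.e (nat_lit 5584) (nat_lit 310) (.e (nat_lit 163869) (nat_lit 2) .nil)))))))) (.g (nat_lit 4) .nil .nil))) 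
(.lf (nat_lit 271790) (.g (nat_lit 1738) (.e (nat_lit 196670) (nat_lit 14) (.e (nat_lit 73755) (nat_lit 8) (.e (nat_lit 557104) (nat_lit 14) (.e (nat_lit 180252) (nat_lit 10) .nil)))) .nil))) (.nd (nat_lit 5) 
(.lf (nat_lit 271774) (.g (nat_lit 3862) (.e (nat_lit 196670) (nat_lit 14) (.e (nat_lit 73754) (nat_lit 8) (.e (nat_lit 557105) (nat_lit 14) (.e (nat_lit 180252) (nat_lit 10) (.e (nat_lit 573474) (nat_lit 12) (.e (nat_lit 57358) (nat_lit 0) (.e (nat_lit 5602) (nat_lit 310) (.e (nat_lit 163869) (nat_lit 2) .nil)))))))) (.g (nat_lit 4) .nil .nil))) 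
(.lf (nat_lit 271806) (.g (nat_lit 2105) (.e (nat_lit 196671) (nat_lit 15) (.e (nat_lit 81954) (nat_lit 23) (.e (nat_lit 98350) (nat_lit 24) (.e (nat_lit 409644) (nat_lit 18) .nil)))) .nil))))))) (.nd (nat_lit 1) (.nd (nat_lit 2) (.nd (nat_lit 3) (.nd (nat_lit 4) (.nd (nat_lit 5) 
(.lf (nat_lit 271745) (.g (nat_lit 3638) (.e (nat_lit 196670) (nat_lit 14) (.e (nat_lit 73754) (nat_lit 8) (.e (nat_lit 557105) (nat_lit 14) (.e (nat_lit 180252) (nat_lit 10) (.e (nat_lit 573474) (nat_lit 12) (.e (nat_lit 57344) (nat_lit 0) (.e (nat_lit 5592) (nat_lit 310) (.e (nat_lit 163869) (nat_lit 2) .nil)))))))) (.g (nat_lit 4) .nil .nil))) 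
(.lf (nat_lit 271777) (.g (nat_lit 3351) (.e (nat_lit 196670) (nat_lit 14) (.e (nat_lit 73754) (nat_lit 8) (.e (nat_lit 557105) (nat_lit 14) (.e (nat_lit 180252) (nat_lit 10) (.e (nat_lit 573474) (nat_lit 12) (.e (nat_lit 65280) (nat_lit 0) (.e (nat_lit 5587) (nat_lit 310) (.e (nat_lit 163868) (nat_lit 2) .nil)))))))) (.g (nat_lit 4) .nil .nil)))) (.nd (nat_lit 5) 
(.lf (nat_lit 271761) (.g (nat_lit 4463) (.e (nat_lit 196670) (nat_lit 14) (.e (nat_lit 73754) (nat_lit 8) (.e (nat_lit 557105) (nat_lit 14) (.e (nat_lit 180252) (nat_lit 10) (.e (nat_lit 573474) (nat_lit 12) (.e (nat_lit 57349) (nat_lit 0) (.e (nat_lit 5584) (nat_lit 310) (.e (nat_lit 163867) (nat_lit 2) .nil)))))))) (.g (nat_lit 5) .nil .nil))) 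
(.lf (nat_lit 271793) (.g (nat_lit 208) (.e (nat_lit 204544) (nat_lit 14) (.e (nat_lit 73737) (nat_lit 0) (.e (nat_lit 5818) (nat_lit 320) .nil))) .nil)))) (.nd (nat_lit 4) (.nd (nat_lit 5) 
(.lf (nat_lit 271753) (.g (nat_lit 3654) (.e (nat_lit 196670) (nat_lit 14) (.e (nat_lit 73754) (nat_lit 8) (.e (nat_lit 557105) (nat_lit 14) (.e (nat_lit 180252) (nat_lit 10) (.e (nat_lit 573474) (nat_lit 12) (.e (nat_lit 57345) (nat_lit 0) (.e (nat_lit 5593) (nat_lit 310) (.e (nat_lit 163869) (nat_lit 2) .nil)))))))) (.g (nat_lit 4) .nil .nil))) 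
(.lf (nat_lit 271785) (.g (nat_lit 4104) (.e (nat_lit 196670) (nat_lit 14) (.e (nat_lit 73754) (nat_lit 8) (.e (nat_lit 557105) (nat_lit 14) (.e (nat_lit 180252) (nat_lit 10) (.e (nat_lit 573503) (nat_lit 18) (.e (nat_lit 1348) (nat_lit 102) (.e (nat_lit 294656) (nat_lit 17) .nil))))))) (.g (nat_lit 6) .nil .nil)))) (.nd (nat_lit 5) 
(.lf (nat_lit 271769) (.g (nat_lit 3770) (.e (nat_lit 196670) (nat_lit 14) (.e (nat_lit 73754) (nat_lit 8) (.e (nat_lit 557105) (nat_lit 14) (.e (nat_lit 180252) (nat_lit 10) (.e (nat_lit 573474) (nat_lit 12) (.e (nat_lit 57349) (nat_lit 0) (.e (nat_lit 5595) (nat_lit 310) (.e (nat_lit 163869) (nat_lit 2) .nil)))))))) (.g (nat_lit 4) .nil .nil))) 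
(.lf (nat_lit 271801) (.g (nat_lit 2288) (.e (nat_lit 196671) (nat_lit 15) (.e (nat_lit 81954) (nat_lit 23) (.e (nat_lit 98323) (nat_lit 17) (.e (nat_lit 6989) (nat_lit 377) (.e (nat_lit 2810) (nat_lit 180) .nil))))) .nil))))) (.nd (nat_lit 3) (.nd (nat_lit 4) (.nd (nat_lit 5) 
(.lf (nat_lit 271749) (.g (nat_lit 3820) (.e (nat_lit 196670) (nat_lit 14) (.e (nat_lit 73754) (nat_lit 8) (.e (nat_lit 557105) (nat_lit 14) (.e (nat_lit 180252) (nat_lit 10) (.e (nat_lit 573474) (nat_lit 12) (.e (nat_lit 57344) (nat_lit 0) (.e (nat_lit 5604) (nat_lit 310) (.e (nat_lit 163869) (nat_lit 2) .nil)))))))) (.g (nat_lit 4) .nil .nil))) 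
(.lf (nat_lit 271781) (.g (nat_lit 2871) (.e (nat_lit 196670) (nat_lit 14) (.e (nat_lit 73754) (nat_lit 8) (.e (nat_lit 557105) (nat_lit 14) (.e (nat_lit 180252) (nat_lit 10) (.e (nat_lit 573475) (nat_lit 12) (.e (nat_lit 57353) (nat_lit 0) (.e (nat_lit 5584) (nat_lit 310) (.e (nat_lit 163867) (nat_lit 2) .nil)))))))) (.g (nat_lit 5) .nil .nil)))) (.nd (nat_lit 5) 
(.lf (nat_lit 271765) (.g (nat_lit 3618) (.e (nat_lit 196670) (nat_lit 14) (.e (nat_lit 73754) (nat_lit 8) (.e (nat_lit 557105) (nat_lit 14) (.e (nat_lit 180252) (nat_lit 10) (.e (nat_lit 573474) (nat_lit 12) (.e (nat_lit 57349) (nat_lit 0) (.e (nat_lit 5591) (nat_lit 310) (.e (nat_lit 163868) (nat_lit 2) .nil)))))))) (.g (nat_lit 4) .nil .nil))) 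
(.lf (nat_lit 271797) (.g (nat_lit 1576) (.e (nat_lit 196671) (nat_lit 15) (.e (nat_lit 81946) (nat_lit 20) (.e (nat_lit 1858) (nat_lit 124) (.e (nat_lit 557094) (nat_lit 12) .nil)))) .nil)))) (.nd (nat_lit 4) (.nd (nat_lit 5) 
(.lf (nat_lit 271757) (.g (nat_lit 3441) (.e (nat_lit 196670) (nat_lit 14) (.e (nat_lit 73754) (nat_lit 8) (.e (nat_lit 557105) (nat_lit 14) (.e (nat_lit 180252) (nat_lit 10) (.e (nat_lit 573474) (nat_lit 12) (.e (nat_lit 57347) (nat_lit 0) (.e (nat_lit 7936) (nat_lit 310) (.e (nat_lit 163869) (nat_lit 2) .nil)))))))) (.g (nat_lit 4) .nil .nil))) 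
(.lf (nat_lit 271789) (.g (nat_lit 1761) (.e (nat_lit 196670) (nat_lit 14) (.e (nat_lit 73755) (nat_lit 8) (.e (nat_lit 557091) (nat_lit 12) (.e (nat_lit 163999) (nat_lit 38) .nil)))) .nil))) (.nd (nat_lit 5) 
(.lf (nat_lit 271773) (.g (nat_lit 4692) (.e (nat_lit 196670) (nat_lit 14) (.e (nat_lit 73754) (nat_lit 8) (.e (nat_lit 557105) (nat_lit 14) (.e (nat_lit 180252) (nat_lit 10) (.e (nat_lit 573474) (nat_lit 12) (.e (nat_lit 57358) (nat_lit 0) (.e (nat_lit 5600) (nat_lit 310) (.e (nat_lit 163867) (nat_lit 2) .nil)))))))) (.g (nat_lit 5) .nil .nil))) 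
(.lf (nat_lit 271805) (.g (nat_lit 2128) (.e (nat_lit 196671) (nat_lit 15) (.e (nat_lit 81954) (nat_lit 23) (.e (nat_lit 98350) (nat_lit 24) (.e (nat_lit 409643) (nat_lit 18) .nil)))) .nil)))))) (.nd (nat_lit 2) (.nd (nat_lit 3) (.nd (nat_lit 4) (.nd (nat_lit 5) 
(.lf (nat_lit 271747) (.g (nat_lit 3726) (.e (nat_lit 196670) (nat_lit 14) (.e (nat_lit 73754) (nat_lit 8) (.e (nat_lit 557105) (nat_lit 14) (.e (nat_lit 180252) (nat_lit 10) (.e (nat_lit 573474) (nat_lit 12) (.e (nat_lit 57344) (nat_lit 0) (.e (nat_lit 5593) (nat_lit 310) (.e (nat_lit 163871) (nat_lit 2) .nil)))))))) (.g (nat_lit 4) .nil .nil))) 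
(.lf (nat_lit 271779) (.g (nat_lit 2940) (.e (nat_lit 196670) (nat_lit 14) (.e (nat_lit 73754) (nat_lit 8) (.e (nat_lit 557105) (nat_lit 14) (.e (nat_lit 180252) (nat_lit 10) (.e (nat_lit 573475) (nat_lit 12) (.e (nat_lit 57348) (nat_lit 0) (.e (nat_lit 5590) (nat_lit 310) (.e (nat_lit 163867) (nat_lit 2) .nil)))))))) (.g (nat_lit 5) .nil .nil)))) (.nd (nat_lit 5) 
(.lf (nat_lit 271763) (.g (nat_lit 3644) (.e (nat_lit 196670) (nat_lit 14) (.e (nat_lit 73754) (nat_lit 8) (.e (nat_lit 557105) (nat_lit 14) (.e (nat_lit 180252) (nat_lit 10) (.e (nat_lit 573474) (nat_lit 12) (.e (nat_lit 57349) (nat_lit 0) (.e (nat_lit 5584) (nat_lit 310) (.e (nat_lit 163871) (nat_lit 2) .nil)))))))) (.g (nat_lit 4) .nil .nil))) 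
(.lf (nat_lit 271795) (.g (nat_lit 3125) (.e (nat_lit 196671) (nat_lit 15) (.e (nat_lit 81946) (nat_lit 20) (.e (nat_lit 1858) (nat_lit 124) (.e (nat_lit 557093) (nat_lit 12) (.e (nat_lit 164023) (nat_lit 46) .nil))))) .nil)))) (.nd (nat_lit 4) (.nd (nat_lit 5) 
(.lf (nat_lit 271755) (.g (nat_lit 3771) (.e (nat_lit 196670) (nat_lit 14) (.e (nat_lit 73754) (nat_lit 8) (.e (nat_lit 557105) (nat_lit 14) (.e (nat_lit 180252) (nat_lit 10) (.e (nat_lit 573474) (nat_lit 12) (.e (nat_lit 57346) (nat_lit 0) (.e (nat_lit 5582) (nat_lit 310) (.e (nat_lit 163869) (nat_lit 2) .nil)))))))) (.g (nat_lit 4) .nil .nil))) 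
(.lf (nat_lit 271787) (.g (nat_lit 2783) (.e (nat_lit 196670) (nat_lit 14) (.e (nat_lit 73754) (nat_lit 8) (.e (nat_lit 557105) (nat_lit 14) (.e (nat_lit 180252) (nat_lit 10) (.e (nat_lit 573503) (nat_lit 18) (.e (nat_lit 1358) (nat_lit 102) (.e (nat_lit 294656) (nat_lit 17) .nil))))))) (.g (nat_lit 5) .nil .nil)))) (.nd (nat_lit 5) 
(.lf (nat_lit 271771) (.g (nat_lit 3854) (.e (nat_lit 196670) (nat_lit 14) (.e (nat_lit 73754) (nat_lit 8) (.e (nat_lit 557105) (nat_lit 14) (.e (nat_lit 180252) (nat_lit 10) (.e (nat_lit 573474) (nat_lit 12) (.e (nat_lit 57355) (nat_lit 0) (.e (nat_lit 5588) (nat_lit 310) (.e (nat_lit 163868) (nat_lit 2) .nil)))))))) (.g (nat_lit 4) .nil .nil))) 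
(.lf (nat_lit 271803) (.g (nat_lit 2221) (.e (nat_lit 196671) (nat_lit 15) (.e (nat_lit 81954) (nat_lit 23) (.e (nat_lit 98349) (nat_lit 24) (.e (nat_lit 409645) (nat_lit 18) (.e (nat_lit 303117) (nat_lit 2) .nil))))) .nil))))) (.nd (nat_lit 3) (.nd (nat_lit 4) (.nd (nat_lit 5) 
(.lf (nat_lit 271751) (.g (nat_lit 3441) (.e (nat_lit 196670) (nat_lit 14) (.e (nat_lit 73754) (nat_lit 8) (.e (nat_lit 557105) (nat_lit 14) (.e (nat_lit 180252) (nat_lit 10) (.e (nat_lit 573474) (nat_lit 12) (.e (nat_lit 57345) (nat_lit 0) (.e (nat_lit 5590) (nat_lit 310) (.e (nat_lit 163870) (nat_lit 2) .nil)))))))) (.g (nat_lit 4) .nil .nil))) 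
(.lf (nat_lit 271783) (.g (nat_lit 3206) (.e (nat_lit 196670) (nat_lit 14) (.e (nat_lit 73754) (nat_lit 8) (.e (nat_lit 557105) (nat_lit 14) (.e (nat_lit 180252) (nat_lit 10) (.e (nat_lit 573478) (nat_lit 12) .nil))))) .nil))) (.nd (nat_lit 5) 
(.lf (nat_lit 271767) (.g (nat_lit 3572) (.e (nat_lit 196670) (nat_lit 14) (.e (nat_lit 73754) (nat_lit 8) (.e (nat_lit 557105) (nat_lit 14) (.e (nat_lit 180252) (nat_lit 10) (.e (nat_lit 573474) (nat_lit 12) (.e (nat_lit 57349) (nat_lit 0) (.e (nat_lit 5593) (nat_lit 310) (.e (nat_lit 163868) (nat_lit 2) .nil)))))))) (.g (nat_lit 4) .nil .nil))) 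
(.lf (nat_lit 271799) (.g (nat_lit 1756) (.e (nat_lit 196671) (nat_lit 15) (.e (nat_lit 81953) (nat_lit 22) (.e (nat_lit 90134) (nat_lit 9) (.e (nat_lit 2822) (nat_lit 182) .nil)))) .nil)))) (.nd (nat_lit 4) (.nd (nat_lit 5) 
(.lf (nat_lit 271759) (.g (nat_lit 3179) (.e (nat_lit 196670) (nat_lit 14) (.e (nat_lit 73754) (nat_lit 8) (.e (nat_lit 557105) (nat_lit 14) (.e (nat_lit 180252) (nat_lit 10) (.e (nat_lit 573474) (nat_lit 12) (.e (nat_lit 57348) (nat_lit 0) (.e (nat_lit 5592) (nat_lit 310) (.e (nat_lit 163870) (nat_lit 2) .nil)))))))) (.g (nat_lit 4) .nil .nil))) 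
(.lf (nat_lit 271791) (.g (nat_lit 3477) (.e (nat_lit 196670) (nat_lit 14) (.e (nat_lit 73755) (nat_lit 8) (.e (nat_lit 557105) (nat_lit 14) (.e (nat_lit 180252) (nat_lit 10) (.e (nat_lit 573451) (nat_lit 9) (.e (nat_lit 1177) (nat_lit 87) (.e (nat_lit 57930) (nat_lit 282) (.e (nat_lit 163867) (nat_lit 2) .nil)))))))) (.g (nat_lit 4) .nil .nil)))) (.nd (nat_lit 5) 
(.lf (nat_lit 271775) (.g (nat_lit 3627) (.e (nat_lit 196670) (nat_lit 14) (.e (nat_lit 73754) (nat_lit 8) (.e (nat_lit 557105) (nat_lit 14) (.e (nat_lit 180252) (nat_lit 10) (.e (nat_lit 573474) (nat_lit 12) (.e (nat_lit 57360) (nat_lit 0) (.e (nat_lit 5598) (nat_lit 310) (.e (nat_lit 163869) (nat_lit 2) .nil)))))))) (.g (nat_lit 4) .nil .nil))) 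
(.lf (nat_lit 271807) (.g (nat_lit 2127) (.e (nat_lit 196671) (nat_lit 15) (.e (nat_lit 81954) (nat_lit 23) (.e (nat_lit 98350) (nat_lit 24) (.e (nat_lit 409647) (nat_lit 18) .nil)))) .nil))))))))

noncomputable def tv3486 : DT := (.nd (nat_lit 0) (.nd (nat_lit 1) (.nd (nat_lit 2) (.nd (nat_lit 3) (.nd (nat_lit 4) (.nd (nat_lit 5) 
(.lf (nat_lit 271808) (.g (nat_lit 2130) (.e (nat_lit 196671) (nat_lit 15) (.e (nat_lit 81954) (nat_lit 23) (.e (nat_lit 98350) (nat_lit 24) (.e (nat_lit 417536) (nat_lit 18) .nil)))) .nil)) 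
(.lf (nat_lit 271840) (.g (nat_lit 3065) (.e (nat_lit 196672) (nat_lit 15) (.e (nat_lit 81927) (nat_lit 11) (.e (nat_lit 426108) (nat_lit 1) (.e (nat_lit 164183) (nat_lit 154) (.e (nat_lit 57411) (nat_lit 12) (.e (nat_lit 336315) (nat_lit 17) .nil)))))) (.g (nat_lit 5) .nil .nil)))) (.nd (nat_lit 5) 
(.lf (nat_lit 271824) (.g (nat_lit 836) (.e (nat_lit 196671) (nat_lit 15) (.e (nat_lit 81956) (nat_lit 23) (.e (nat_lit 98352) (nat_lit 25) .nil))) .nil)) 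
(.lf (nat_lit 271856) (.g (nat_lit 4743) (.e (nat_lit 196672) (nat_lit 15) (.e (nat_lit 81946) (nat_lit 20) (.e (nat_lit 1858) (nat_lit 124) (.e (nat_lit 557091) (nat_lit 12) (.e (nat_lit 164022) (nat_lit 46) (.e (nat_lit 704738) (nat_lit 11) (.e (nat_lit 16411) (nat_lit 2) .nil))))))) (.g (nat_lit 6) .nil .nil))))) (.nd (nat_lit 4) (.nd (nat_lit 5) 
(.lf (nat_lit 271816) (.g (nat_lit 2947) (.e (nat_lit 196671) (nat_lit 15) (.e (nat_lit 81956) (nat_lit 23) (.e (nat_lit 98350) (nat_lit 24) (.e (nat_lit 409623) (nat_lit 10) .nil)))) .nil)) 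
(.lf (nat_lit 271848) (.g (nat_lit 3277) (.e (nat_lit 196672) (nat_lit 15) (.e (nat_lit 81943) (nat_lit 20) (.e (nat_lit 1841) (nat_lit 123) (.e (nat_lit 548889) (nat_lit 9) (.e (nat_lit 65630) (nat_lit 14) (.e (nat_lit 401425) (nat_lit 2) .nil)))))) (.g (nat_lit 0) .nil .nil)))) (.nd (nat_lit 5) 
(.lf (nat_lit 271832) (.g (nat_lit 2799) (.e (nat_lit 196672) (nat_lit 15) (.e (nat_lit 81927) (nat_lit 11) (.e (nat_lit 426098) (nat_lit 1) (.e (nat_lit 164183) (nat_lit 154) (.e (nat_lit 57409) (nat_lit 12) (.e (nat_lit 336316) (nat_lit 17) .nil)))))) (.g (nat_lit 0) .nil .nil))) 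
(.lf (nat_lit 271864) (.g (nat_lit 1929) (.e (nat_lit 196672) (nat_lit 15) (.e (nat_lit 81954) (nat_lit 23) (.e (nat_lit 98323) (nat_lit 17) (.e (nat_lit 6989) (nat_lit 377) (.e (nat_lit 7936) (nat_lit 180) .nil))))) .nil))))) (.nd (nat_lit 3) (.nd (nat_lit 4) (.nd (nat_lit 5) 
(.lf (nat_lit 271812) (.g (nat_lit 2305) (.e (nat_lit 196671) (nat_lit 15) (.e (nat_lit 81956) (nat_lit 23) (.e (nat_lit 98349) (nat_lit 24) (.e (nat_lit 409644) (nat_lit 18) (.e (nat_lit 303117) (nat_lit 2) .nil))))) .nil)) 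
(.lf (nat_lit 271844) (.g (nat_lit 1823) (.e (nat_lit 196672) (nat_lit 15) (.e (nat_lit 81941) (nat_lit 20) (.e (nat_lit 1788) (nat_lit 119) (.e (nat_lit 516139) (nat_lit 7) (.e (nat_lit 409648) (nat_lit 18) (.e (nat_lit 311040) (nat_lit 2) .nil)))))) (.g (nat_lit 4) .nil .nil)))) (.nd (nat_lit 5) 
(.lf (nat_lit 271828) (.g (nat_lit 3366) (.e (nat_lit 196672) (nat_lit 15) (.e (nat_lit 81927) (nat_lit 11) (.e (nat_lit 426098) (nat_lit 1) (.e (nat_lit 164179) (nat_lit 154) (.e (nat_lit 57409) (nat_lit 12) (.e (nat_lit 336316) (nat_lit 17) .nil)))))) (.g (nat_lit 6) .nil .nil))) 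
(.lf (nat_lit 271860) (.g (nat_lit 3656) (.e (nat_lit 196672) (nat_lit 15) (.e (nat_lit 81946) (nat_lit 20) (.e (nat_lit 1858) (nat_lit 124) (.e (nat_lit 557093) (nat_lit 12) (.e (nat_lit 164023) (nat_lit 46) (.e (nat_lit 704737) (nat_lit 11) (.e (nat_lit 16409) (nat_lit 2) .nil))))))) (.g (nat_lit 4) .nil .nil))))) (.nd (nat_lit 4) (.nd (nat_lit 5) 
(.lf (nat_lit 271820) (.g (nat_lit 3254) (.e (nat_lit 196671) (nat_lit 15) (.e (nat_lit 81956) (nat_lit 23) (.e (nat_lit 98350) (nat_lit 24) (.e (nat_lit 409648) (nat_lit 18) (.e (nat_lit 303116) (nat_lit 2) .nil))))) (.g (nat_lit 5) .nil .nil))) 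
(.lf (nat_lit 271852) (.g (nat_lit 1235) (.e (nat_lit 196672) (nat_lit 15) (.e (nat_lit 81943) (nat_lit 20) (.e (nat_lit 7936) (nat_lit 126) (.e (nat_lit 573475) (nat_lit 12) (.e (nat_lit 57535) (nat_lit 46) .nil))))) .nil))) (.nd (nat_lit 5) 
(.lf (nat_lit 271836) (.g (nat_lit 2898) (.e (nat_lit 196672) (nat_lit 15) (.e (nat_lit 81927) (nat_lit 11) (.e (nat_lit 426107) (nat_lit 1) (.e (nat_lit 164182) (nat_lit 154) (.e (nat_lit 57409) (nat_lit 12) (.e (nat_lit 336316) (nat_lit 17) .nil)))))) (.g (nat_lit 5) .nil .nil))) 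
(.lf (nat_lit 271868) (.g (nat_lit 1613) (.e (nat_lit 196672) (nat_lit 15) (.e (nat_lit 81954) (nat_lit 23) (.e (nat_lit 98349) (nat_lit 24) (.e (nat_lit 409616) (nat_lit 10) .nil)))) .nil)))))) (.nd (nat_lit 2) (.nd (nat_lit 3) (.nd (nat_lit 4) (.nd (nat_lit 5) 
(.lf (nat_lit 271810) (.g (nat_lit 705) (.e (nat_lit 196671) (nat_lit 15) (.e (nat_lit 81956) (nat_lit 23) (.e (nat_lit 98320) (nat_lit 17) .nil))) .nil)) 
(.lf (nat_lit 271842) (.g (nat_lit 2446) (.e (nat_lit 196672) (nat_lit 15) (.e (nat_lit 81927) (nat_lit 11) (.e (nat_lit 426108) (nat_lit 1) (.e (nat_lit 164183) (nat_lit 154) (.e (nat_lit 65280) (nat_lit 12) (.e (nat_lit 336315) (nat_lit 17) .nil)))))) (.g (nat_lit 4) .nil .nil)))) (.nd (nat_lit 5) 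
(.lf (nat_lit 271826) (.g (nat_lit 3064) (.e (nat_lit 196672) (nat_lit 15) (.e (nat_lit 81927) (nat_lit 11) (.e (nat_lit 426098) (nat_lit 1) (.e (nat_lit 164179) (nat_lit 154) (.e (nat_lit 57406) (nat_lit 12) (.e (nat_lit 336316) (nat_lit 17) .nil)))))) (.g (nat_lit 0) .nil .nil))) 
(.lf (nat_lit 271858) (.g (nat_lit 3169) (.e (nat_lit 196672) (nat_lit 15) (.e (nat_lit 81946) (nat_lit 20) (.e (nat_lit 1858) (nat_lit 124) (.e (nat_lit 557093) (nat_lit 12) (.e (nat_lit 164023) (nat_lit 46) .nil))))) .nil)))) (.nd (nat_lit 4) (.nd (nat_lit 5) 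
(.lf (nat_lit 271818) (.g (nat_lit 3010) (.e (nat_lit 196671) (nat_lit 15) (.e (nat_lit 81956) (nat_lit 23) (.e (nat_lit 98350) (nat_lit 24) (.e (nat_lit 409647) (nat_lit 18) .nil)))) .nil)) 
(.lf (nat_lit 271850) (.g (nat_lit 3376) (.e (nat_lit 196672) (nat_lit 15) (.e (nat_lit 81943) (nat_lit 20) (.e (nat_lit 1858) (nat_lit 124) (.e (nat_lit 557093) (nat_lit 12) (.e (nat_lit 164022) (nat_lit 46) (.e (nat_lit 704738) (nat_lit 11) (.e (nat_lit 16411) (nat_lit 2) .nil))))))) (.g (nat_lit 6) .nil .nil)))) (.nd (nat_lit 5) 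
(.lf (nat_lit 271834) (.g (nat_lit 2925) (.e (nat_lit 196672) (nat_lit 15) (.e (nat_lit 81927) (nat_lit 11) (.e (nat_lit 426098) (nat_lit 1) (.e (nat_lit 164183) (nat_lit 154) (.e (nat_lit 57411) (nat_lit 12) (.e (nat_lit 336316) (nat_lit 17) .nil)))))) (.g (nat_lit 0) .nil .nil))) 
(.lf (nat_lit 271866) (.g (nat_lit 866) (.e (nat_lit 196672) (nat_lit 15) (.e (nat_lit 81954) (nat_lit 23) (.e (nat_lit 98334) (nat_lit 18) (.e (nat_lit 171776) (nat_lit 278) .nil)))) .nil))))) (.nd (nat_lit 3) (.nd (nat_lit 4) (.nd (nat_lit 5) 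
(.lf (nat_lit 271814) (.g (nat_lit 2003) (.e (nat_lit 196671) (nat_lit 15) (.e (nat_lit 81956) (nat_lit 23) (.e (nat_lit 98350) (nat_lit 24) (.e (nat_lit 409616) (nat_lit 10) (.e (nat_lit 7936) (nat_lit 312) .nil))))) .nil)) 
(.lf (nat_lit 271846) (.g (nat_lit 2044) (.e (nat_lit 196672) (nat_lit 15) (.e (nat_lit 81942) (nat_lit 20) (.e (nat_lit 1858) (nat_lit 124) (.e (nat_lit 557093) (nat_lit 12) (.e (nat_lit 164023) (nat_lit 46) .nil))))) .nil))) (.nd (nat_lit 5) 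
(.lf (nat_lit 271830) (.g (nat_lit 2518) (.e (nat_lit 196672) (nat_lit 15) (.e (nat_lit 81927) (nat_lit 11) (.e (nat_lit 426098) (nat_lit 1) (.e (nat_lit 164182) (nat_lit 154) (.e (nat_lit 57411) (nat_lit 12) (.e (nat_lit 336315) (nat_lit 17) .nil)))))) (.g (nat_lit 5) .nil .nil))) 
(.lf (nat_lit 271862) (.g (nat_lit 1536) (.e (nat_lit 196672) (nat_lit 15) (.e (nat_lit 81946) (nat_lit 20) (.e (nat_lit 1858) (nat_lit 124) (.e (nat_lit 557094) (nat_lit 12) .nil)))) .nil)))) (.nd (nat_lit 4) (.nd (nat_lit 5) 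
(.lf (nat_lit 271822) (.g (nat_lit 2360) (.e (nat_lit 196671) (nat_lit 15) (.e (nat_lit 81956) (nat_lit 23) (.e (nat_lit 98350) (nat_lit 24) (.e (nat_lit 417536) (nat_lit 18) .nil)))) .nil)) 
(.lf (nat_lit 271854) (.g (nat_lit 2867) (.e (nat_lit 196672) (nat_lit 15) (.e (nat_lit 81946) (nat_lit 20) (.e (nat_lit 1858) (nat_lit 124) (.e (nat_lit 557091) (nat_lit 12) (.e (nat_lit 164022) (nat_lit 46) .nil))))) .nil))) (.nd (nat_lit 5) 
(.lf (nat_lit 271838) (.g (nat_lit 3285) (.e (nat_lit 196672) (nat_lit 15) (.e (nat_lit 81927) (nat_lit 11) (.e (nat_lit 426108) (nat_lit 1) (.e (nat_lit 164182) (nat_lit 154) (.e (nat_lit 57411) (nat_lit 12) (.e (nat_lit 336316) (nat_lit 17) .nil)))))) (.g (nat_lit 5) .nil .nil))) 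
(.lf (nat_lit 271870) (.g (nat_lit 1395) (.e (nat_lit 196672) (nat_lit 15) (.e (nat_lit 81954) (nat_lit 23) (.e (nat_lit 98349) (nat_lit 24) (.e (nat_lit 417536) (nat_lit 10) .nil)))) .nil))))))) (.nd (nat_lit 1) (.nd (nat_lit 2) (.nd (nat_lit 3) (.nd (nat_lit 4) (.nd (nat_lit 5) 
(.lf (nat_lit 271809) (.g (nat_lit 1030) (.e (nat_lit 196671) (nat_lit 15) (.e (nat_lit 81955) (nat_lit 23) (.e (nat_lit 98350) (nat_lit 24) (.e (nat_lit 409648) (nat_lit 18) .nil)))) .nil)) 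
(.lf (nat_lit 271841) (.g (nat_lit 3502) (.e (nat_lit 196672) (nat_lit 15) (.e (nat_lit 81927) (nat_lit 11) (.e (nat_lit 426108) (nat_lit 1) (.e (nat_lit 164183) (nat_lit 154) (.e (nat_lit 57411) (nat_lit 12) (.e (nat_lit 336316) (nat_lit 17) .nil)))))) (.g (nat_lit 6) .nil .nil)))) (.nd (nat_lit 5) 
(.lf (nat_lit 271825) (.g (nat_lit 1932) (.e (nat_lit 196671) (nat_lit 15) (.e (nat_lit 81956) (nat_lit 23) (.e (nat_lit 98353) (nat_lit 25) (.e (nat_lit 417829) (nat_lit 18) .nil)))) .nil)) 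
(.lf (nat_lit 271857) (.g (nat_lit 2782) (.e (nat_lit 196672) (nat_lit 15) (.e (nat_lit 81946) (nat_lit 20) (.e (nat_lit 1858) (nat_lit 124) (.e (nat_lit 557093) (nat_lit 12) (.e (nat_lit 164022) (nat_lit 46) .nil))))) .nil)))) (.nd (nat_lit 4) (.nd (nat_lit 5) 
(.lf (nat_lit 271817) (.g (nat_lit 2553) (.e (nat_lit 196671) (nat_lit 15) (.e (nat_lit 81956) (nat_lit 23) (.e (nat_lit 98350) (nat_lit 24) (.e (nat_lit 409644) (nat_lit 18) .nil)))) .nil)) 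
(.lf (nat_lit 271849) (.g (nat_lit 3403) (.e (nat_lit 196672) (nat_lit 15) (.e (nat_lit 81943) (nat_lit 20) (.e (nat_lit 1855) (nat_lit 124) (.e (nat_lit 557093) (nat_lit 12) (.e (nat_lit 164023) (nat_lit 46) (.e (nat_lit 704737) (nat_lit 11) (.e (nat_lit 16411) (nat_lit 2) .nil))))))) (.g (nat_lit 6) .nil .nil)))) (.nd (nat_lit 5) 
(.lf (nat_lit 271833) (.g (nat_lit 2249) (.e (nat_lit 196672) (nat_lit 15) (.e (nat_lit 81927) (nat_lit 11) (.e (nat_lit 426098) (nat_lit 1) (.e (nat_lit 164183) (nat_lit 154) (.e (nat_lit 57411) (nat_lit 12) (.e (nat_lit 336315) (nat_lit 17) .nil)))))) (.g (nat_lit 5) .nil .nil))) 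
(.lf (nat_lit 271865) (.g (nat_lit 1104) (.e (nat_lit 196672) (nat_lit 15) (.e (nat_lit 81954) (nat_lit 23) (.e (nat_lit 98333) (nat_lit 18) (.e (nat_lit 171776) (nat_lit 278) .nil)))) .nil))))) (.nd (nat_lit 3) (.nd (nat_lit 4) (.nd (nat_lit 5) 
(.lf (nat_lit 271813) (.g (nat_lit 1651) (.e (nat_lit 196671) (nat_lit 15) (.e (nat_lit 81956) (nat_lit 23) (.e (nat_lit 98350) (nat_lit 24) (.e (nat_lit 409616) (nat_lit 10) .nil)))) .nil)) 
(.lf (nat_lit 271845) (.g (nat_lit 2597) (.e (nat_lit 196672) (nat_lit 15) (.e (nat_lit 81942) (nat_lit 20) (.e (nat_lit 1858) (nat_lit 124) (.e (nat_lit 557091) (nat_lit 12) (.e (nat_lit 164022) (nat_lit 46) .nil))))) .nil))) (.nd (nat_lit 5) 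
(.lf (nat_lit 271829) (.g (nat_lit 3900) (.e (nat_lit 196672) (nat_lit 15) (.e (nat_lit 81927) (nat_lit 11) (.e (nat_lit 426098) (nat_lit 1) (.e (nat_lit 164179) (nat_lit 154) (.e (nat_lit 57411) (nat_lit 12) (.e (nat_lit 336316) (nat_lit 17) .nil)))))) (.g (nat_lit 6) .nil .nil))) 
(.lf (nat_lit 271861) (.g (nat_lit 5271) (.e (nat_lit 196672) (nat_lit 15) (.e (nat_lit 81946) (nat_lit 20) (.e (nat_lit 1858) (nat_lit 124) (.e (nat_lit 557093) (nat_lit 12) (.e (nat_lit 164023) (nat_lit 46) (.e (nat_lit 704737) (nat_lit 11) (.e (nat_lit 16411) (nat_lit 2) .nil))))))) (.g (nat_lit 6) .nil .nil))))) (.nd (nat_lit 4) (.nd (nat_lit 5) 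
(.lf (nat_lit 271821) (.g (nat_lit 2905) (.e (nat_lit 196671) (nat_lit 15) (.e (nat_lit 81956) (nat_lit 23) (.e (nat_lit 98350) (nat_lit 24) (.e (nat_lit 409648) (nat_lit 18) (.e (nat_lit 311040) (nat_lit 2) .nil))))) (.g (nat_lit 4) .nil .nil))) 
(.lf (nat_lit 271853) (.g (nat_lit 1541) (.e (nat_lit 196672) (nat_lit 15) (.e (nat_lit 81946) (nat_lit 20) (.e (nat_lit 1858) (nat_lit 124) (.e (nat_lit 557088) (nat_lit 12) .nil)))) .nil))) (.nd (nat_lit 5) 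
(.lf (nat_lit 271837) (.g (nat_lit 2906) (.e (nat_lit 196672) (nat_lit 15) (.e (nat_lit 81927) (nat_lit 11) (.e (nat_lit 426107) (nat_lit 1) (.e (nat_lit 164182) (nat_lit 154) (.e (nat_lit 57411) (nat_lit 12) (.e (nat_lit 336316) (nat_lit 17) .nil)))))) (.g (nat_lit 5) .nil .nil))) 
(.lf (nat_lit 271869) (.g (nat_lit 1409) (.e (nat_lit 196672) (nat_lit 15) (.e (nat_lit 81954) (nat_lit 23) (.e (nat_lit 98349) (nat_lit 24) (.e (nat_lit 409618) (nat_lit 10) .nil)))) .nil)))))) (.nd (nat_lit 2) (.nd (nat_lit 3) (.nd (nat_lit 4) (.nd (nat_lit 5) 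
(.lf (nat_lit 271811) (.g (nat_lit 2569) (.e (nat_lit 196671) (nat_lit 15) (.e (nat_lit 81956) (nat_lit 23) (.e (nat_lit 98323) (nat_lit 17) (.e (nat_lit 6989) (nat_lit 377) (.e (nat_lit 2810) (nat_lit 180) .nil))))) .nil)) 
(.lf (nat_lit 271843) (.g (nat_lit 2897) (.e (nat_lit 196672) (nat_lit 15) (.e (nat_lit 81935) (nat_lit 20) (.e (nat_lit 1878) (nat_lit 126) (.e (nat_lit 573474) (nat_lit 12) (.e (nat_lit 57528) (nat_lit 46) (.e (nat_lit 712448) (nat_lit 11) (.e (nat_lit 16412) (nat_lit 2) .nil))))))) (.g (nat_lit 4) .nil .nil)))) (.nd (nat_lit 5) 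
(.lf (nat_lit 271827) (.g (nat_lit 2345) (.e (nat_lit 196672) (nat_lit 15) (.e (nat_lit 81927) (nat_lit 11) (.e (nat_lit 426098) (nat_lit 1) (.e (nat_lit 164179) (nat_lit 154) (.e (nat_lit 57407) (nat_lit 12) (.e (nat_lit 336315) (nat_lit 17) .nil)))))) (.g (nat_lit 5) .nil .nil))) 
(.lf (nat_lit 271859) (.g (nat_lit 3553) (.e (nat_lit 196672) (nat_lit 15) (.e (nat_lit 81946) (nat_lit 20) (.e (nat_lit 1858) (nat_lit 124) (.e (nat_lit 557093) (nat_lit 12) (.e (nat_lit 164023) (nat_lit 46) (.e (nat_lit 704736) (nat_lit 11) (.e (nat_lit 16411) (nat_lit 2) .nil))))))) (.g (nat_lit 4) .nil .nil))))) (.nd (nat_lit 4) (.nd (nat_lit 5) 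
(.lf (nat_lit 271819) (.g (nat_lit 3837) (.e (nat_lit 196671) (nat_lit 15) (.e (nat_lit 81956) (nat_lit 23) (.e (nat_lit 98350) (nat_lit 24) (.e (nat_lit 409647) (nat_lit 18) (.e (nat_lit 303117) (nat_lit 2) .nil))))) .nil)) 
(.lf (nat_lit 271851) (.g (nat_lit 802) (.e (nat_lit 196672) (nat_lit 15) (.e (nat_lit 81943) (nat_lit 20) (.e (nat_lit 7936) (nat_lit 126) (.e (nat_lit 573458) (nat_lit 9) (.e (nat_lit 7936) (nat_lit 93) .nil))))) .nil))) (.nd (nat_lit 5) 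
(.lf (nat_lit 271835) (.g (nat_lit 2651) (.e (nat_lit 196672) (nat_lit 15) (.e (nat_lit 81927) (nat_lit 11) (.e (nat_lit 426107) (nat_lit 1) (.e (nat_lit 164179) (nat_lit 154) (.e (nat_lit 57407) (nat_lit 12) (.e (nat_lit 336315) (nat_lit 17) .nil)))))) (.g (nat_lit 5) .nil .nil))) 
(.lf (nat_lit 271867) (.g (nat_lit 1770) (.e (nat_lit 196672) (nat_lit 15) (.e (nat_lit 81954) (nat_lit 23) (.e (nat_lit 98349) (nat_lit 24) (.e (nat_lit 409610) (nat_lit 10) (.e (nat_lit 5738) (nat_lit 312) .nil))))) .nil))))) (.nd (nat_lit 3) (.nd (nat_lit 4) (.nd (nat_lit 5) 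
(.lf (nat_lit 271815) (.g (nat_lit 1682) (.e (nat_lit 196671) (nat_lit 15) (.e (nat_lit 81956) (nat_lit 23) (.e (nat_lit 98350) (nat_lit 24) (.e (nat_lit 409617) (nat_lit 10) .nil)))) .nil)) 
(.lf (nat_lit 271847) (.g (nat_lit 3212) (.e (nat_lit 196672) (nat_lit 15) (.e (nat_lit 81943) (nat_lit 20) (.e (nat_lit 1841) (nat_lit 123) (.e (nat_lit 548889) (nat_lit 9) (.e (nat_lit 65628) (nat_lit 14) (.e (nat_lit 401425) (nat_lit 2) .nil)))))) (.g (nat_lit 0) .nil .nil)))) (.nd (nat_lit 5) 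
(.lf (nat_lit 271831) (.g (nat_lit 1928) (.e (nat_lit 196672) (nat_lit 15) (.e (nat_lit 81927) (nat_lit 11) (.e (nat_lit 426098) (nat_lit 1) (.e (nat_lit 164183) (nat_lit 154) (.e (nat_lit 57409) (nat_lit 12) (.e (nat_lit 336315) (nat_lit 17) .nil)))))) (.g (nat_lit 5) .nil .nil))) 
(.lf (nat_lit 271863) (.g (nat_lit 504) (.e (nat_lit 196672) (nat_lit 15) (.e (nat_lit 81953) (nat_lit 22) (.e (nat_lit 90165) (nat_lit 12) .nil))) .nil)))) (.nd (nat_lit 4) (.nd (nat_lit 5) 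
(.lf (nat_lit 271823) (.g (nat_lit 3401) (.e (nat_lit 196671) (nat_lit 15) (.e (nat_lit 81956) (nat_lit 23) (.e (nat_lit 98350) (nat_lit 24) (.e (nat_lit 409650) (nat_lit 19) (.e (nat_lit 311311) (nat_lit 2) .nil))))) (.g (nat_lit 4) .nil .nil))) 
(.lf (nat_lit 271855) (.g (nat_lit 3225) (.e (nat_lit 196672) (nat_lit 15) (.e (nat_lit 81946) (nat_lit 20) (.e (nat_lit 1858) (nat_lit 124) (.e (nat_lit 557091) (nat_lit 12) (.e (nat_lit 164022) (nat_lit 46) (.e (nat_lit 704736) (nat_lit 11) (.e (nat_lit 16411) (nat_lit 2) .nil))))))) (.g (nat_lit 4) .nil .nil)))) (.nd (nat_lit 5) 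
(.lf (nat_lit 271839) (.g (nat_lit 2652) (.e (nat_lit 196672) (nat_lit 15) (.e (nat_lit 81927) (nat_lit 11) (.e (nat_lit 426108) (nat_lit 1) (.e (nat_lit 164183) (nat_lit 154) (.e (nat_lit 57409) (nat_lit 12) (.e (nat_lit 336315) (nat_lit 17) .nil)))))) (.g (nat_lit 5) .nil .nil))) 
(.lf (nat_lit 271871) (.g (nat_lit 4087) (.e (nat_lit 196672) (nat_lit 15) (.e (nat_lit 81954) (nat_lit 23) (.e (nat_lit 98349) (nat_lit 24) (.e (nat_lit 409649) (nat_lit 18) (.e (nat_lit 303116) (nat_lit 2) .nil))))) (.g (nat_lit 0) .nil .nil)))))))))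

noncomputable def tv3487 : DT := (.nd (nat_lit 0) (.nd (nat_lit 1) (.nd (nat_lit 2) (.nd (nat_lit 3) (.nd (nat_lit 4) (.nd (nat_lit 5) 
(.lf (nat_lit 271872) (.g (nat_lit 3789) (.e (nat_lit 196672) (nat_lit 15) (.e (nat_lit 81954) (nat_lit 23) (.e (nat_lit 98349) (nat_lit 24) (.e (nat_lit 409650) (nat_lit 19) (.e (nat_lit 311312) (nat_lit 2) .nil))))) (.g (nat_lit 0) .nil .nil))) 
(.lf (nat_lit 271904) (.g (nat_lit 947) (.e (nat_lit 196673) (nat_lit 15) (.e (nat_lit 81956) (nat_lit 23) (.e (nat_lit 98320) (nat_lit 17) (.e (nat_lit 7109) (nat_lit 380) .nil)))) .nil))) (.nd (nat_lit 5) 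
(.lf (nat_lit 271888) (.g (nat_lit 2757) (.e (nat_lit 196672) (nat_lit 15) (.e (nat_lit 81954) (nat_lit 23) (.e (nat_lit 98365) (nat_lit 26) (.e (nat_lit 426100) (nat_lit 1) (.e (nat_lit 164403) (nat_lit 256) (.e (nat_lit 65280) (nat_lit 63) .nil)))))) (.g (nat_lit 5) .nil .nil))) 
(.lf (nat_lit 271920) (.g (nat_lit 3290) (.e (nat_lit 196674) (nat_lit 15) (.e (nat_lit 81925) (nat_lit 11) (.e (nat_lit 426098) (nat_lit 1) (.e (nat_lit 164183) (nat_lit 154) (.e (nat_lit 57409) (nat_lit 12) (.e (nat_lit 336316) (nat_lit 17) .nil)))))) (.g (nat_lit 0) .nil .nil))))) (.nd (nat_lit 4) (.nd (nat_lit 5) 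
(.lf (nat_lit 271880) (.g (nat_lit 4328) (.e (nat_lit 196672) (nat_lit 15) (.e (nat_lit 81954) (nat_lit 23) (.e (nat_lit 98350) (nat_lit 24) (.e (nat_lit 409649) (nat_lit 18) (.e (nat_lit 303116) (nat_lit 2) .nil))))) (.g (nat_lit 0) .nil .nil))) 
(.lf (nat_lit 271912) (.g (nat_lit 2091) (.e (nat_lit 196673) (nat_lit 15) (.e (nat_lit 81956) (nat_lit 23) (.e (nat_lit 98350) (nat_lit 24) (.e (nat_lit 409648) (nat_lit 18) (.e (nat_lit 311040) (nat_lit 2) .nil))))) (.g (nat_lit 4) .nil .nil)))) (.nd (nat_lit 5) 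
(.lf (nat_lit 271896) (.g (nat_lit 723) (.e (nat_lit 196672) (nat_lit 15) (.e (nat_lit 81956) (nat_lit 23) (.e (nat_lit 98352) (nat_lit 25) .nil))) .nil)) 
(.lf (nat_lit 271928) (.g (nat_lit 4017) (.e (nat_lit 196674) (nat_lit 15) (.e (nat_lit 81946) (nat_lit 20) (.e (nat_lit 1858) (nat_lit 124) (.e (nat_lit 557093) (nat_lit 12) (.e (nat_lit 164022) (nat_lit 46) (.e (nat_lit 704736) (nat_lit 11) (.e (nat_lit 16411) (nat_lit 2) .nil))))))) (.g (nat_lit 5) .nil .nil)))))) (.nd (nat_lit 3) (.nd (nat_lit 4) (.nd (nat_lit 5) 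
(.lf (nat_lit 271876) (.g (nat_lit 2259) (.e (nat_lit 196672) (nat_lit 15) (.e (nat_lit 81954) (nat_lit 23) (.e (nat_lit 98350) (nat_lit 24) (.e (nat_lit 409617) (nat_lit 10) (.e (nat_lit 7936) (nat_lit 312) .nil))))) .nil)) 
(.lf (nat_lit 271908) (.g (nat_lit 3431) (.e (nat_lit 196673) (nat_lit 15) (.e (nat_lit 81956) (nat_lit 23) (.e (nat_lit 98350) (nat_lit 24) (.e (nat_lit 409616) (nat_lit 10) (.e (nat_lit 7936) (nat_lit 312) (.e (nat_lit 2670) (nat_lit 167) .nil)))))) (.g (nat_lit 4) .nil .nil)))) (.nd (nat_lit 5) 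
(.lf (nat_lit 271892) (.g (nat_lit 2433) (.e (nat_lit 196672) (nat_lit 15) (.e (nat_lit 81956) (nat_lit 23) (.e (nat_lit 98350) (nat_lit 24) (.e (nat_lit 409617) (nat_lit 10) (.e (nat_lit 7936) (nat_lit 312) .nil))))) .nil)) 
(.lf (nat_lit 271924) (.g (nat_lit 4444) (.e (nat_lit 196674) (nat_lit 15) (.e (nat_lit 81925) (nat_lit 11) (.e (nat_lit 426107) (nat_lit 1) (.e (nat_lit 164179) (nat_lit 154) (.e (nat_lit 57411) (nat_lit 12) (.e (nat_lit 336316) (nat_lit 17) .nil)))))) (.g (nat_lit 6) .nil .nil))))) (.nd (nat_lit 4) (.nd (nat_lit 5) 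
(.lf (nat_lit 271884) (.g (nat_lit 3443) (.e (nat_lit 196672) (nat_lit 15) (.e (nat_lit 81954) (nat_lit 23) (.e (nat_lit 98352) (nat_lit 25) (.e (nat_lit 417830) (nat_lit 19) (.e (nat_lit 311312) (nat_lit 2) .nil))))) (.g (nat_lit 0) .nil .nil))) 
(.lf (nat_lit 271916) (.g (nat_lit 1636) (.e (nat_lit 196673) (nat_lit 15) (.e (nat_lit 81956) (nat_lit 23) (.e (nat_lit 98353) (nat_lit 25) (.e (nat_lit 417829) (nat_lit 18) (.e (nat_lit 303116) (nat_lit 2) .nil))))) .nil))) (.nd (nat_lit 5) 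
(.lf (nat_lit 271900) (.g (nat_lit 1330) (.e (nat_lit 196672) (nat_lit 15) (.e (nat_lit 81956) (nat_lit 23) (.e (nat_lit 98389) (nat_lit 33) (.e (nat_lit 499456) (nat_lit 14) .nil)))) .nil)) 
(.lf (nat_lit 271932) (.g (nat_lit 4743) (.e (nat_lit 196674) (nat_lit 15) (.e (nat_lit 81946) (nat_lit 20) (.e (nat_lit 1858) (nat_lit 124) (.e (nat_lit 557093) (nat_lit 12) (.e (nat_lit 164023) (nat_lit 46) (.e (nat_lit 704738) (nat_lit 11) (.e (nat_lit 16411) (nat_lit 2) .nil))))))) (.g (nat_lit 6) .nil .nil))))))) (.nd (nat_lit 2) (.nd (nat_lit 3) (.nd (nat_lit 4) (.nd (nat_lit 5) 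
(.lf (nat_lit 271874) (.g (nat_lit 2425) (.e (nat_lit 196672) (nat_lit 15) (.e (nat_lit 81954) (nat_lit 23) (.e (nat_lit 98350) (nat_lit 24) (.e (nat_lit 409610) (nat_lit 10) (.e (nat_lit 5735) (nat_lit 312) .nil))))) .nil)) 
(.lf (nat_lit 271906) (.g (nat_lit 913) (.e (nat_lit 196673) (nat_lit 15) (.e (nat_lit 81956) (nat_lit 23) (.e (nat_lit 98350) (nat_lit 24) (.e (nat_lit 409616) (nat_lit 10) .nil)))) .nil))) (.nd (nat_lit 5) 
(.lf (nat_lit 271890) (.g (nat_lit 663) (.e (nat_lit 196672) (nat_lit 15) (.e (nat_lit 81956) (nat_lit 23) (.e (nat_lit 98319) (nat_lit 17) .nil))) .nil)) 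
(.lf (nat_lit 271922) (.g (nat_lit 3614) (.e (nat_lit 196674) (nat_lit 15) (.e (nat_lit 81925) (nat_lit 11) (.e (nat_lit 426100) (nat_lit 1) (.e (nat_lit 164183) (nat_lit 154) (.e (nat_lit 57409) (nat_lit 12) (.e (nat_lit 336316) (nat_lit 17) .nil)))))) (.g (nat_lit 6) .nil .nil))))) (.nd (nat_lit 4) (.nd (nat_lit 5) 
(.lf (nat_lit 271882) (.g (nat_lit 4477) (.e (nat_lit 196672) (nat_lit 15) (.e (nat_lit 81954) (nat_lit 23) (.e (nat_lit 98350) (nat_lit 24) (.e (nat_lit 409650) (nat_lit 19) (.e (nat_lit 311312) (nat_lit 2) .nil))))) (.g (nat_lit 0) .nil .nil))) 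
(.lf (nat_lit 271914) (.g (nat_lit 4840) (.e (nat_lit 196673) (nat_lit 15) (.e (nat_lit 81956) (nat_lit 23) (.e (nat_lit 98350) (nat_lit 24) (.e (nat_lit 409650) (nat_lit 19) (.e (nat_lit 311311) (nat_lit 2) .nil))))) (.g (nat_lit 4) .nil .nil)))) (.nd (nat_lit 5) 
(.lf (nat_lit 271898) (.g (nat_lit 1792) (.e (nat_lit 196672) (nat_lit 15) (.e (nat_lit 81956) (nat_lit 23) (.e (nat_lit 98353) (nat_lit 25) (.e (nat_lit 417828) (nat_lit 18) (.e (nat_lit 303116) (nat_lit 2) .nil))))) .nil)) 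
(.lf (nat_lit 271930) (.g (nat_lit 3144) (.e (nat_lit 196674) (nat_lit 15) (.e (nat_lit 81946) (nat_lit 20) (.e (nat_lit 1858) (nat_lit 124) (.e (nat_lit 557093) (nat_lit 12) (.e (nat_lit 164023) (nat_lit 46) (.e (nat_lit 704735) (nat_lit 11) (.e (nat_lit 16411) (nat_lit 2) .nil))))))) (.g (nat_lit 4) .nil .nil)))))) (.nd (nat_lit 3) (.nd (nat_lit 4) (.nd (nat_lit 5) 
(.lf (nat_lit 271878) (.g (nat_lit 4597) (.e (nat_lit 196672) (nat_lit 15) (.e (nat_lit 81954) (nat_lit 23) (.e (nat_lit 98350) (nat_lit 24) (.e (nat_lit 409648) (nat_lit 18) (.e (nat_lit 303116) (nat_lit 2) .nil))))) (.g (nat_lit 0) .nil .nil))) 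
(.lf (nat_lit 271910) (.g (nat_lit 1475) (.e (nat_lit 196673) (nat_lit 15) (.e (nat_lit 81956) (nat_lit 23) (.e (nat_lit 98350) (nat_lit 24) (.e (nat_lit 409617) (nat_lit 10) .nil)))) .nil))) (.nd (nat_lit 5) 
(.lf (nat_lit 271894) (.g (nat_lit 3107) (.e (nat_lit 196672) (nat_lit 15) (.e (nat_lit 81956) (nat_lit 23) (.e (nat_lit 98350) (nat_lit 24) (.e (nat_lit 409648) (nat_lit 18) (.e (nat_lit 311040) (nat_lit 2) .nil))))) (.g (nat_lit 4) .nil .nil))) 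
(.lf (nat_lit 271926) (.g (nat_lit 4724) (.e (nat_lit 196674) (nat_lit 15) (.e (nat_lit 81946) (nat_lit 20) (.e (nat_lit 1842) (nat_lit 123) (.e (nat_lit 548889) (nat_lit 9) (.e (nat_lit 65630) (nat_lit 14) (.e (nat_lit 401425) (nat_lit 2) .nil)))))) (.g (nat_lit 0) .nil .nil))))) (.nd (nat_lit 4) (.nd (nat_lit 5) 
(.lf (nat_lit 271886) (.g (nat_lit 2995) (.e (nat_lit 196672) (nat_lit 15) (.e (nat_lit 81954) (nat_lit 23) (.e (nat_lit 98365) (nat_lit 26) (.e (nat_lit 426100) (nat_lit 1) (.e (nat_lit 164398) (nat_lit 256) (.e (nat_lit 65280) (nat_lit 63) .nil)))))) (.g (nat_lit 5) .nil .nil))) 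
(.lf (nat_lit 271918) (.g (nat_lit 3543) (.e (nat_lit 196674) (nat_lit 15) (.e (nat_lit 81925) (nat_lit 11) (.e (nat_lit 426098) (nat_lit 1) (.e (nat_lit 164179) (nat_lit 154) (.e (nat_lit 57406) (nat_lit 12) (.e (nat_lit 336316) (nat_lit 17) .nil)))))) (.g (nat_lit 0) .nil .nil)))) (.nd (nat_lit 5) 
(.lf (nat_lit 271902) (.g (nat_lit 4456) (.e (nat_lit 196673) (nat_lit 15) (.e (nat_lit 81938) (nat_lit 20) (.e (nat_lit 1842) (nat_lit 123) (.e (nat_lit 548889) (nat_lit 9) (.e (nat_lit 65630) (nat_lit 14) (.e (nat_lit 401425) (nat_lit 2) .nil)))))) (.g (nat_lit 6) .nil .nil))) 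
(.lf (nat_lit 271934) (.g (nat_lit 3515) (.e (nat_lit 196674) (nat_lit 15) (.e (nat_lit 81955) (nat_lit 23) (.e (nat_lit 98350) (nat_lit 24) (.e (nat_lit 409647) (nat_lit 18) (.e (nat_lit 303117) (nat_lit 2) .nil))))) (.g (nat_lit 0) .nil .nil)))))))) (.nd (nat_lit 1) (.nd (nat_lit 2) (.nd (nat_lit 3) (.nd (nat_lit 4) (.nd (nat_lit 5) 
(.lf (nat_lit 271873) (.g (nat_lit 2180) (.e (nat_lit 196672) (nat_lit 15) (.e (nat_lit 81954) (nat_lit 23) (.e (nat_lit 98350) (nat_lit 24) (.e (nat_lit 409608) (nat_lit 10) (.e (nat_lit 5685) (nat_lit 312) .nil))))) .nil)) 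
(.lf (nat_lit 271905) (.g (nat_lit 451) (.e (nat_lit 196673) (nat_lit 15) (.e (nat_lit 81956) (nat_lit 23) (.e (nat_lit 98349) (nat_lit 24) .nil))) .nil))) (.nd (nat_lit 5) 
(.lf (nat_lit 271889) (.g (nat_lit 1929) (.e (nat_lit 196672) (nat_lit 15) (.e (nat_lit 81955) (nat_lit 23) (.e (nat_lit 98350) (nat_lit 24) (.e (nat_lit 409648) (nat_lit 18) (.e (nat_lit 311040) (nat_lit 2) .nil))))) (.g (nat_lit 4) .nil .nil))) 
(.lf (nat_lit 271921) (.g (nat_lit 3418) (.e (nat_lit 196674) (nat_lit 15) (.e (nat_lit 81925) (nat_lit 11) (.e (nat_lit 426098) (nat_lit 1) (.e (nat_lit 164183) (nat_lit 154) (.e (nat_lit 57411) (nat_lit 12) (.e (nat_lit 336316) (nat_lit 17) .nil)))))) (.g (nat_lit 0) .nil .nil))))) (.nd (nat_lit 4) (.nd (nat_lit 5) 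
(.lf (nat_lit 271881) (.g (nat_lit 2798) (.e (nat_lit 196672) (nat_lit 15) (.e (nat_lit 81954) (nat_lit 23) (.e (nat_lit 98350) (nat_lit 24) (.e (nat_lit 409649) (nat_lit 18) (.e (nat_lit 311040) (nat_lit 2) .nil))))) (.g (nat_lit 4) .nil .nil))) 
(.lf (nat_lit 271913) (.g (nat_lit 1253) (.e (nat_lit 196673) (nat_lit 15) (.e (nat_lit 81956) (nat_lit 23) (.e (nat_lit 98350) (nat_lit 24) (.e (nat_lit 409649) (nat_lit 18) (.e (nat_lit 311040) (nat_lit 2) .nil))))) .nil))) (.nd (nat_lit 5) 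
(.lf (nat_lit 271897) (.g (nat_lit 1338) (.e (nat_lit 196672) (nat_lit 15) (.e (nat_lit 81956) (nat_lit 23) (.e (nat_lit 98352) (nat_lit 25) (.e (nat_lit 417828) (nat_lit 18) .nil)))) .nil)) 
(.lf (nat_lit 271929) (.g (nat_lit 2892) (.e (nat_lit 196674) (nat_lit 15) (.e (nat_lit 81946) (nat_lit 20) (.e (nat_lit 1858) (nat_lit 124) (.e (nat_lit 557093) (nat_lit 12) (.e (nat_lit 164022) (nat_lit 46) (.e (nat_lit 704738) (nat_lit 11) (.e (nat_lit 16410) (nat_lit 2) .nil))))))) (.g (nat_lit 4) .nil .nil)))))) (.nd (nat_lit 3) (.nd (nat_lit 4) (.nd (nat_lit 5) 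
(.lf (nat_lit 271877) (.g (nat_lit 1850) (.e (nat_lit 196672) (nat_lit 15) (.e (nat_lit 81954) (nat_lit 23) (.e (nat_lit 98350) (nat_lit 24) (.e (nat_lit 409646) (nat_lit 18) (.e (nat_lit 311040) (nat_lit 2) .nil))))) (.g (nat_lit 4) .nil .nil))) 
(.lf (nat_lit 271909) (.g (nat_lit 3445) (.e (nat_lit 196673) (nat_lit 15) (.e (nat_lit 81956) (nat_lit 23) (.e (nat_lit 98350) (nat_lit 24) (.e (nat_lit 409616) (nat_lit 10) (.e (nat_lit 7936) (nat_lit 312) (.e (nat_lit 2671) (nat_lit 167) .nil)))))) (.g (nat_lit 4) .nil .nil)))) (.nd (nat_lit 5) 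
(.lf (nat_lit 271893) (.g (nat_lit 2704) (.e (nat_lit 196672) (nat_lit 15) (.e (nat_lit 81956) (nat_lit 23) (.e (nat_lit 98350) (nat_lit 24) (.e (nat_lit 409647) (nat_lit 18) .nil)))) .nil)) 
(.lf (nat_lit 271925) (.g (nat_lit 530) (.e (nat_lit 196674) (nat_lit 15) (.e (nat_lit 81946) (nat_lit 20) (.e (nat_lit 1840) (nat_lit 123) .nil))) .nil)))) (.nd (nat_lit 4) (.nd (nat_lit 5) 
(.lf (nat_lit 271885) (.g (nat_lit 2164) (.e (nat_lit 196672) (nat_lit 15) (.e (nat_lit 81954) (nat_lit 23) (.e (nat_lit 98365) (nat_lit 26) (.e (nat_lit 426099) (nat_lit 1) (.e (nat_lit 164398) (nat_lit 256) (.e (nat_lit 65280) (nat_lit 63) .nil)))))) (.g (nat_lit 4) .nil .nil))) 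
(.lf (nat_lit 271917) (.g (nat_lit 785) (.e (nat_lit 196673) (nat_lit 15) (.e (nat_lit 81956) (nat_lit 23) (.e (nat_lit 98389) (nat_lit 33) (.e (nat_lit 491572) (nat_lit 14) .nil)))) .nil))) (.nd (nat_lit 5) 
(.lf (nat_lit 271901) (.g (nat_lit 620) (.e (nat_lit 196672) (nat_lit 15) (.e (nat_lit 81957) (nat_lit 24) (.e (nat_lit 123024) (nat_lit 125) .nil))) .nil)) 
(.lf (nat_lit 271933) (.g (nat_lit 3234) (.e (nat_lit 196674) (nat_lit 15) (.e (nat_lit 81955) (nat_lit 23) (.e (nat_lit 98350) (nat_lit 24) (.e (nat_lit 409644) (nat_lit 18) (.e (nat_lit 303117) (nat_lit 2) .nil))))) (.g (nat_lit 0) .nil .nil))))))) (.nd (nat_lit 2) (.nd (nat_lit 3) (.nd (nat_lit 4) (.nd (nat_lit 5) 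
(.lf (nat_lit 271875) (.g (nat_lit 2039) (.e (nat_lit 196672) (nat_lit 15) (.e (nat_lit 81954) (nat_lit 23) (.e (nat_lit 98350) (nat_lit 24) (.e (nat_lit 409616) (nat_lit 10) (.e (nat_lit 7936) (nat_lit 312) .nil))))) .nil)) 
(.lf (nat_lit 271907) (.g (nat_lit 3422) (.e (nat_lit 196673) (nat_lit 15) (.e (nat_lit 81956) (nat_lit 23) (.e (nat_lit 98350) (nat_lit 24) (.e (nat_lit 409616) (nat_lit 10) (.e (nat_lit 7936) (nat_lit 312) (.e (nat_lit 2658) (nat_lit 167) .nil)))))) (.g (nat_lit 4) .nil .nil)))) (.nd (nat_lit 5) 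
(.lf (nat_lit 271891) (.g (nat_lit 2798) (.e (nat_lit 196672) (nat_lit 15) (.e (nat_lit 81956) (nat_lit 23) (.e (nat_lit 98349) (nat_lit 24) (.e (nat_lit 409649) (nat_lit 18) (.e (nat_lit 303116) (nat_lit 2) .nil))))) .nil)) 
(.lf (nat_lit 271923) (.g (nat_lit 3962) (.e (nat_lit 196674) (nat_lit 15) (.e (nat_lit 81925) (nat_lit 11) (.e (nat_lit 426107) (nat_lit 1) (.e (nat_lit 164179) (nat_lit 154) (.e (nat_lit 57409) (nat_lit 12) (.e (nat_lit 336316) (nat_lit 17) .nil)))))) (.g (nat_lit 6) .nil .nil))))) (.nd (nat_lit 4) (.nd (nat_lit 5) 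
(.lf (nat_lit 271883) (.g (nat_lit 3708) (.e (nat_lit 196672) (nat_lit 15) (.e (nat_lit 81954) (nat_lit 23) (.e (nat_lit 98350) (nat_lit 24) (.e (nat_lit 409651) (nat_lit 19) (.e (nat_lit 311312) (nat_lit 2) .nil))))) (.g (nat_lit 0) .nil .nil))) 
(.lf (nat_lit 271915) (.g (nat_lit 1015) (.e (nat_lit 196673) (nat_lit 15) (.e (nat_lit 81956) (nat_lit 23) (.e (nat_lit 98353) (nat_lit 25) (.e (nat_lit 417817) (nat_lit 10) .nil)))) .nil))) (.nd (nat_lit 5) 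
(.lf (nat_lit 271899) (.g (nat_lit 2218) (.e (nat_lit 196672) (nat_lit 15) (.e (nat_lit 81956) (nat_lit 23) (.e (nat_lit 98353) (nat_lit 25) (.e (nat_lit 417829) (nat_lit 18) (.e (nat_lit 303116) (nat_lit 2) .nil))))) .nil)) 
(.lf (nat_lit 271931) (.g (nat_lit 3579) (.e (nat_lit 196674) (nat_lit 15) (.e (nat_lit 81946) (nat_lit 20) (.e (nat_lit 1858) (nat_lit 124) (.e (nat_lit 557093) (nat_lit 12) (.e (nat_lit 164023) (nat_lit 46) (.e (nat_lit 704737) (nat_lit 11) (.e (nat_lit 16409) (nat_lit 2) .nil))))))) (.g (nat_lit 4) .nil .nil)))))) (.nd (nat_lit 3) (.nd (nat_lit 4) (.nd (nat_lit 5) 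
(.lf (nat_lit 271879) (.g (nat_lit 3339) (.e (nat_lit 196672) (nat_lit 15) (.e (nat_lit 81954) (nat_lit 23) (.e (nat_lit 98350) (nat_lit 24) (.e (nat_lit 409648) (nat_lit 18) (.e (nat_lit 311040) (nat_lit 2) .nil))))) (.g (nat_lit 4) .nil .nil))) 
(.lf (nat_lit 271911) (.g (nat_lit 2403) (.e (nat_lit 196673) (nat_lit 15) (.e (nat_lit 81956) (nat_lit 23) (.e (nat_lit 98350) (nat_lit 24) (.e (nat_lit 409647) (nat_lit 18) .nil)))) .nil))) (.nd (nat_lit 5) 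
(.lf (nat_lit 271895) (.g (nat_lit 5002) (.e (nat_lit 196672) (nat_lit 15) (.e (nat_lit 81956) (nat_lit 23) (.e (nat_lit 98350) (nat_lit 24) (.e (nat_lit 409650) (nat_lit 19) (.e (nat_lit 311311) (nat_lit 2) .nil))))) (.g (nat_lit 4) .nil .nil))) 
(.lf (nat_lit 271927) (.g (nat_lit 2323) (.e (nat_lit 196674) (nat_lit 15) (.e (nat_lit 81946) (nat_lit 20) (.e (nat_lit 1858) (nat_lit 124) (.e (nat_lit 557072) (nat_lit 9) (.e (nat_lit 2741) (nat_lit 174) (.e (nat_lit 253992) (nat_lit 11) (.e (nat_lit 16411) (nat_lit 2) .nil))))))) (.g (nat_lit 4) .nil .nil))))) (.nd (nat_lit 4) (.nd (nat_lit 5) 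
(.lf (nat_lit 271887) (.g (nat_lit 2610) (.e (nat_lit 196672) (nat_lit 15) (.e (nat_lit 81954) (nat_lit 23) (.e (nat_lit 98365) (nat_lit 26) (.e (nat_lit 426100) (nat_lit 1) (.e (nat_lit 164399) (nat_lit 256) (.e (nat_lit 65280) (nat_lit 63) .nil)))))) (.g (nat_lit 4) .nil .nil))) 
(.lf (nat_lit 271919) (.g (nat_lit 3577) (.e (nat_lit 196674) (nat_lit 15) (.e (nat_lit 81925) (nat_lit 11) (.e (nat_lit 426098) (nat_lit 1) (.e (nat_lit 164179) (nat_lit 154) (.e (nat_lit 57407) (nat_lit 12) (.e (nat_lit 336316) (nat_lit 17) .nil)))))) (.g (nat_lit 0) .nil .nil)))) (.nd (nat_lit 5) 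
(.lf (nat_lit 271903) (.g (nat_lit 1655) (.e (nat_lit 196673) (nat_lit 15) (.e (nat_lit 81939) (nat_lit 20) (.e (nat_lit 1788) (nat_lit 119) (.e (nat_lit 516139) (nat_lit 7) (.e (nat_lit 417536) (nat_lit 18) .nil))))) .nil)) 
(.lf (nat_lit 271935) (.g (nat_lit 2279) (.e (nat_lit 196674) (nat_lit 15) (.e (nat_lit 81955) (nat_lit 23) (.e (nat_lit 98350) (nat_lit 24) (.e (nat_lit 409648) (nat_lit 18) (.e (nat_lit 311040) (nat_lit 2) .nil))))) (.g (nat_lit 4) .nil .nil)))))))))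

noncomputable def tv3488 : DT := (.nd (nat_lit 0) (.nd (nat_lit 1) (.nd (nat_lit 2) (.nd (nat_lit 3) (.nd (nat_lit 4) (.nd (nat_lit 5) 
(.lf (nat_lit 271936) (.g (nat_lit 814) (.e (nat_lit 196674) (nat_lit 15) (.e (nat_lit 81956) (nat_lit 23) (.e (nat_lit 98319) (nat_lit 17) .nil))) .nil)) 
(.lf (nat_lit 271968) (.g (nat_lit 2937) (.e (nat_lit 204544) (nat_lit 15) (.e (nat_lit 81956) (nat_lit 23) (.e (nat_lit 98350) (nat_lit 24) (.e (nat_lit 409651) (nat_lit 19) .nil)))) .nil))) (.nd (nat_lit 5) 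
(.lf (nat_lit 271952) (.g (nat_lit 628) (.e (nat_lit 204544) (nat_lit 15) (.e (nat_lit 81956) (nat_lit 23) (.e (nat_lit 98320) (nat_lit 17) .nil))) .nil)) 
(.lf (nat_lit 271984) (.g (nat_lit 1144) (.e (nat_lit 196681) (nat_lit 17) (.e (nat_lit 131086) (nat_lit 1) (.e (nat_lit 57931) (nat_lit 282) (.e (nat_lit 164075) (nat_lit 61) .nil)))) .nil)))) (.nd (nat_lit 4) (.nd (nat_lit 5) 
(.lf (nat_lit 271944) (.g (nat_lit 2188) (.e (nat_lit 204544) (nat_lit 15) (.e (nat_lit 81954) (nat_lit 23) (.e (nat_lit 98350) (nat_lit 24) (.e (nat_lit 409644) (nat_lit 18) (.e (nat_lit 303117) (nat_lit 2) .nil))))) .nil)) 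
(.lf (nat_lit 271976) (.g (nat_lit 1583) (.e (nat_lit 196677) (nat_lit 16) (.e (nat_lit 122959) (nat_lit 46) (.e (nat_lit 704734) (nat_lit 11) (.e (nat_lit 16416) (nat_lit 3) (.e (nat_lit 204877) (nat_lit 31) (.e (nat_lit 384768) (nat_lit 2) .nil)))))) (.g (nat_lit 5) .nil .nil)))) (.nd (nat_lit 5) 
(.lf (nat_lit 271960) (.g (nat_lit 2876) (.e (nat_lit 204544) (nat_lit 15) (.e (nat_lit 81956) (nat_lit 23) (.e (nat_lit 98350) (nat_lit 24) (.e (nat_lit 409623) (nat_lit 10) .nil)))) .nil)) 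
(.lf (nat_lit 271992) (.g (nat_lit 1895) (.e (nat_lit 196681) (nat_lit 17) (.e (nat_lit 131096) (nat_lit 3) (.e (nat_lit 98333) (nat_lit 18) (.e (nat_lit 164182) (nat_lit 154) (.e (nat_lit 57351) (nat_lit 0) (.e (nat_lit 1803) (nat_lit 119) (.e (nat_lit 516131) (nat_lit 3) (.e (nat_lit 221212) (nat_lit 22) .nil)))))))) (.g (nat_lit 4) .nil .nil)))))) 
(.nd (nat_lit 3) (.nd (nat_lit 4) (.nd (nat_lit 5) 
(.lf (nat_lit 271940) (.g (nat_lit 998) (.e (nat_lit 204544) (nat_lit 15) (.e (nat_lit 81953) (nat_lit 22) (.e (nat_lit 90130) (nat_lit 9) .nil))) .nil)) 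
(.lf (nat_lit 271972) (.g (nat_lit 797) (.e (nat_lit 204544) (nat_lit 15) (.e (nat_lit 81956) (nat_lit 23) (.e (nat_lit 98388) (nat_lit 33) .nil))) .nil))) (.nd (nat_lit 5) 
(.lf (nat_lit 271956) (.g (nat_lit 2230) (.e (nat_lit 204544) (nat_lit 15) (.e (nat_lit 81956) (nat_lit 23) (.e (nat_lit 98349) (nat_lit 24) (.e (nat_lit 409644) (nat_lit 18) (.e (nat_lit 303117) (nat_lit 2) .nil))))) .nil)) 
(.lf (nat_lit 271988) (.g (nat_lit 1367) (.e (nat_lit 196681) (nat_lit 17) (.e (nat_lit 131094) (nat_lit 2) (.e (nat_lit 90128) (nat_lit 9) (.e (nat_lit 217) (nat_lit 19) .nil)))) .nil)))) (.nd (nat_lit 4) (.nd (nat_lit 5) 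
(.lf (nat_lit 271948) (.g (nat_lit 1348) (.e (nat_lit 204544) (nat_lit 15) (.e (nat_lit 81954) (nat_lit 23) (.e (nat_lit 98350) (nat_lit 24) (.e (nat_lit 409649) (nat_lit 18) .nil)))) .nil)) 
(.lf (nat_lit 271980) (.g (nat_lit 671) (.e (nat_lit 196677) (nat_lit 16) (.e (nat_lit 123080) (nat_lit 177) (.e (nat_lit 57891) (nat_lit 270) (.e (nat_lit 1253) (nat_lit 92) .nil)))) .nil))) (.nd (nat_lit 5) 
(.lf (nat_lit 271964) (.g (nat_lit 2419) (.e (nat_lit 204544) (nat_lit 15) (.e (nat_lit 81956) (nat_lit 23) (.e (nat_lit 98350) (nat_lit 24) (.e (nat_lit 409647) (nat_lit 18) .nil)))) .nil)) 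
(.lf (nat_lit 271996) (.g (nat_lit 1779) (.e (nat_lit 196681) (nat_lit 17) (.e (nat_lit 131098) (nat_lit 3) (.e (nat_lit 98333) (nat_lit 18) (.e (nat_lit 164161) (nat_lit 152) (.e (nat_lit 7936) (nat_lit 87) .nil))))) .nil)))))) (.nd (nat_lit 2) (.nd (nat_lit 3) (.nd (nat_lit 4) (.nd (nat_lit 5) 
(.lf (nat_lit 271938) (.g (nat_lit 3892) (.e (nat_lit 196674) (nat_lit 15) (.e (nat_lit 81956) (nat_lit 23) (.e (nat_lit 98350) (nat_lit 24) (.e (nat_lit 409648) (nat_lit 18) (.e (nat_lit 311040) (nat_lit 2) .nil))))) (.g (nat_lit 4) .nil .nil))) 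
(.lf (nat_lit 271970) (.g (nat_lit 1397) (.e (nat_lit 204544) (nat_lit 15) (.e (nat_lit 81956) (nat_lit 23) (.e (nat_lit 98352) (nat_lit 25) (.e (nat_lit 417828) (nat_lit 18) .nil)))) .nil))) (.nd (nat_lit 5) 
(.lf (nat_lit 271954) (.g (nat_lit 809) (.e (nat_lit 204544) (nat_lit 15) (.e (nat_lit 81956) (nat_lit 23) (.e (nat_lit 98325) (nat_lit 17) (.e (nat_lit 6966) (nat_lit 377) .nil)))) .nil)) 
(.lf (nat_lit 271986) (.g (nat_lit 1496) (.e (nat_lit 196681) (nat_lit 17) (.e (nat_lit 131091) (nat_lit 2) (.e (nat_lit 90128) (nat_lit 9) (.e (nat_lit 217) (nat_lit 19) .nil)))) .nil)))) (.nd (nat_lit 4) (.nd (nat_lit 5) 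
(.lf (nat_lit 271946) (.g (nat_lit 2637) (.e (nat_lit 204544) (nat_lit 15) (.e (nat_lit 81954) (nat_lit 23) (.e (nat_lit 98350) (nat_lit 24) (.e (nat_lit 409647) (nat_lit 18) (.e (nat_lit 303117) (nat_lit 2) .nil))))) .nil)) 
(.lf (nat_lit 271978) (.g (nat_lit 1460) (.e (nat_lit 196677) (nat_lit 16) (.e (nat_lit 123080) (nat_lit 177) (.e (nat_lit 57881) (nat_lit 270) (.e (nat_lit 1065) (nat_lit 81) (.e (nat_lit 1784) (nat_lit 119) (.e (nat_lit 516174) (nat_lit 14) (.e (nat_lit 466975) (nat_lit 22) .nil))))))) (.g (nat_lit 4) .nil .nil)))) (.nd (nat_lit 5) 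
(.lf (nat_lit 271962) (.g (nat_lit 2729) (.e (nat_lit 204544) (nat_lit 15) (.e (nat_lit 81956) (nat_lit 23) (.e (nat_lit 98350) (nat_lit 24) (.e (nat_lit 409644) (nat_lit 18) (.e (nat_lit 303117) (nat_lit 2) .nil))))) .nil)) 
(.lf (nat_lit 271994) (.g (nat_lit 2328) (.e (nat_lit 196681) (nat_lit 17) (.e (nat_lit 131098) (nat_lit 3) (.e (nat_lit 98333) (nat_lit 18) (.e (nat_lit 164151) (nat_lit 152) (.e (nat_lit 1186) (nat_lit 87) (.e (nat_lit 57464) (nat_lit 23) (.e (nat_lit 516130) (nat_lit 3) (.e (nat_lit 221212) (nat_lit 22) .nil)))))))) (.g (nat_lit 4) .nil .nil)))))) 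
(.nd (nat_lit 3) (.nd (nat_lit 4) (.nd (nat_lit 5) 
(.lf (nat_lit 271942) (.g (nat_lit 305) (.e (nat_lit 204544) (nat_lit 15) (.e (nat_lit 81954) (nat_lit 23) (.e (nat_lit 98350) (nat_lit 24) .nil))) .nil)) 
(.lf (nat_lit 271974) (.g (nat_lit 1733) (.e (nat_lit 196677) (nat_lit 16) (.e (nat_lit 122959) (nat_lit 46) (.e (nat_lit 704734) (nat_lit 11) (.e (nat_lit 16412) (nat_lit 2) (.e (nat_lit 196672) (nat_lit 15) (.e (nat_lit 89856) (nat_lit 2) .nil)))))) (.g (nat_lit 5) .nil .nil)))) (.nd (nat_lit 5) 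
(.lf (nat_lit 271958) (.g (nat_lit 2714) (.e (nat_lit 204544) (nat_lit 15) (.e (nat_lit 81956) (nat_lit 23) (.e (nat_lit 98350) (nat_lit 24) (.e (nat_lit 409616) (nat_lit 10) (.e (nat_lit 7936) (nat_lit 312) .nil))))) .nil)) 
(.lf (nat_lit 271990) (.g (nat_lit 2303) (.e (nat_lit 196681) (nat_lit 17) (.e (nat_lit 131096) (nat_lit 3) (.e (nat_lit 98333) (nat_lit 18) (.e (nat_lit 164179) (nat_lit 154) (.e (nat_lit 57345) (nat_lit 0) (.e (nat_lit 1803) (nat_lit 119) (.e (nat_lit 516131) (nat_lit 3) (.e (nat_lit 221212) (nat_lit 22) .nil)))))))) (.g (nat_lit 4) .nil .nil))))) (.nd (nat_lit 4) (.nd (nat_lit 5) 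
(.lf (nat_lit 271950) (.g (nat_lit 1732) (.e (nat_lit 204544) (nat_lit 15) (.e (nat_lit 81954) (nat_lit 23) (.e (nat_lit 98350) (nat_lit 24) (.e (nat_lit 417536) (nat_lit 18) .nil)))) .nil)) 
(.lf (nat_lit 271982) (.g (nat_lit 4016) (.e (nat_lit 196681) (nat_lit 17) (.e (nat_lit 131086) (nat_lit 1) (.e (nat_lit 57854) (nat_lit 252) (.e (nat_lit 57389) (nat_lit 5) (.e (nat_lit 114711) (nat_lit 21) (.e (nat_lit 57847) (nat_lit 252) (.e (nat_lit 65280) (nat_lit 66) (.e (nat_lit 221212) (nat_lit 22) .nil)))))))) (.g (nat_lit 6) .nil .nil)))) (.nd (nat_lit 5) 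
(.lf (nat_lit 271966) (.g (nat_lit 2067) (.e (nat_lit 204544) (nat_lit 15) (.e (nat_lit 81956) (nat_lit 23) (.e (nat_lit 98350) (nat_lit 24) (.e (nat_lit 417536) (nat_lit 18) .nil)))) .nil)) 
(.lf (nat_lit 271998) (.g (nat_lit 3411) (.e (nat_lit 196681) (nat_lit 17) (.e (nat_lit 131098) (nat_lit 3) (.e (nat_lit 98333) (nat_lit 18) (.e (nat_lit 164179) (nat_lit 154) (.e (nat_lit 57347) (nat_lit 0) (.e (nat_lit 1795) (nat_lit 119) (.e (nat_lit 516131) (nat_lit 3) (.e (nat_lit 221212) (nat_lit 22) .nil)))))))) (.g (nat_lit 5) .nil .nil)))))))) 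
(.nd (nat_lit 1) (.nd (nat_lit 2) (.nd (nat_lit 3) (.nd (nat_lit 4) (.nd (nat_lit 5) 
(.lf (nat_lit 271937) (.g (nat_lit 1760) (.e (nat_lit 196674) (nat_lit 15) (.e (nat_lit 81956) (nat_lit 23) (.e (nat_lit 98350) (nat_lit 24) (.e (nat_lit 409617) (nat_lit 10) .nil)))) .nil)) 
(.lf (nat_lit 271969) (.g (nat_lit 1036) (.e (nat_lit 204544) (nat_lit 15) (.e (nat_lit 81956) (nat_lit 23) (.e (nat_lit 98352) (nat_lit 25) .nil))) .nil))) (.nd (nat_lit 5) 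
(.lf (nat_lit 271953) (.g (nat_lit 1638) (.e (nat_lit 204544) (nat_lit 15) (.e (nat_lit 81956) (nat_lit 23) (.e (nat_lit 98323) (nat_lit 17) (.e (nat_lit 6989) (nat_lit 377) .nil)))) .nil)) 
(.lf (nat_lit 271985) (.g (nat_lit 3316) (.e (nat_lit 196681) (nat_lit 17) (.e (nat_lit 131089) (nat_lit 1) (.e (nat_lit 57854) (nat_lit 252) (.e (nat_lit 57378) (nat_lit 3) (.e (nat_lit 98334) (nat_lit 18) (.e (nat_lit 164383) (nat_lit 254) (.e (nat_lit 1124) (nat_lit 83) (.e (nat_lit 16412) (nat_lit 2) .nil)))))))) (.g (nat_lit 5) .nil .nil))))) (.nd (nat_lit 4) (.nd (nat_lit 5) 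
(.lf (nat_lit 271945) (.g (nat_lit 2748) (.e (nat_lit 204544) (nat_lit 15) (.e (nat_lit 81954) (nat_lit 23) (.e (nat_lit 98350) (nat_lit 24) (.e (nat_lit 409647) (nat_lit 18) (.e (nat_lit 303116) (nat_lit 2) .nil))))) .nil)) 
(.lf (nat_lit 271977) (.g (nat_lit 2312) (.e (nat_lit 196677) (nat_lit 16) (.e (nat_lit 123080) (nat_lit 177) (.e (nat_lit 57876) (nat_lit 270) (.e (nat_lit 1256) (nat_lit 92) (.e (nat_lit 98370) (nat_lit 28) (.e (nat_lit 442424) (nat_lit 22) .nil)))))) (.g (nat_lit 6) .nil .nil)))) (.nd (nat_lit 5) 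
(.lf (nat_lit 271961) (.g (nat_lit 2355) (.e (nat_lit 204544) (nat_lit 15) (.e (nat_lit 81956) (nat_lit 23) (.e (nat_lit 98350) (nat_lit 24) (.e (nat_lit 409643) (nat_lit 18) .nil)))) .nil)) 
(.lf (nat_lit 271993) (.g (nat_lit 2271) (.e (nat_lit 196681) (nat_lit 17) (.e (nat_lit 131096) (nat_lit 3) (.e (nat_lit 98335) (nat_lit 18) (.e (nat_lit 164183) (nat_lit 154) (.e (nat_lit 57376) (nat_lit 3) (.e (nat_lit 98342) (nat_lit 20) (.e (nat_lit 221212) (nat_lit 22) .nil))))))) (.g (nat_lit 4) .nil .nil)))))) (.nd (nat_lit 3) (.nd (nat_lit 4) (.nd (nat_lit 5) 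
(.lf (nat_lit 271941) (.g (nat_lit 323) (.e (nat_lit 204544) (nat_lit 15) (.e (nat_lit 81954) (nat_lit 23) (.e (nat_lit 98349) (nat_lit 24) .nil))) .nil)) 
(.lf (nat_lit 271973) (.g (nat_lit 2407) (.e (nat_lit 204544) (nat_lit 15) (.e (nat_lit 81956) (nat_lit 23) (.e (nat_lit 98389) (nat_lit 33) (.e (nat_lit 491572) (nat_lit 14) (.e (nat_lit 401425) (nat_lit 2) .nil))))) .nil))) (.nd (nat_lit 5) 
(.lf (nat_lit 271957) (.g (nat_lit 2519) (.e (nat_lit 204544) (nat_lit 15) (.e (nat_lit 81956) (nat_lit 23) (.e (nat_lit 98349) (nat_lit 24) (.e (nat_lit 409649) (nat_lit 18) (.e (nat_lit 303117) (nat_lit 2) .nil))))) .nil)) 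
(.lf (nat_lit 271989) (.g (nat_lit 2106) (.e (nat_lit 196681) (nat_lit 17) (.e (nat_lit 131096) (nat_lit 3) (.e (nat_lit 98333) (nat_lit 18) (.e (nat_lit 164151) (nat_lit 152) (.e (nat_lit 1186) (nat_lit 87) (.e (nat_lit 57464) (nat_lit 23) (.e (nat_lit 516130) (nat_lit 3) (.e (nat_lit 221212) (nat_lit 22) .nil)))))))) (.g (nat_lit 4) .nil .nil))))) (.nd (nat_lit 4) (.nd (nat_lit 5) 
(.lf (nat_lit 271949) (.g (nat_lit 2712) (.e (nat_lit 204544) (nat_lit 15) (.e (nat_lit 81954) (nat_lit 23) (.e (nat_lit 98350) (nat_lit 24) (.e (nat_lit 409649) (nat_lit 18) (.e (nat_lit 303117) (nat_lit 2) .nil))))) .nil)) 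
(.lf (nat_lit 271981) (.g (nat_lit 769) (.e (nat_lit 196680) (nat_lit 17) (.e (nat_lit 131127) (nat_lit 13) (.e (nat_lit 393253) (nat_lit 18) (.e (nat_lit 164179) (nat_lit 154) .nil)))) .nil))) (.nd (nat_lit 5) 
(.lf (nat_lit 271965) (.g (nat_lit 3246) (.e (nat_lit 204544) (nat_lit 15) (.e (nat_lit 81956) (nat_lit 23) (.e (nat_lit 98350) (nat_lit 24) (.e (nat_lit 409647) (nat_lit 18) (.e (nat_lit 303117) (nat_lit 2) .nil))))) .nil)) 
(.lf (nat_lit 271997) (.g (nat_lit 2168) (.e (nat_lit 196681) (nat_lit 17) (.e (nat_lit 131098) (nat_lit 3) (.e (nat_lit 98333) (nat_lit 18) (.e (nat_lit 164179) (nat_lit 154) (.e (nat_lit 57345) (nat_lit 0) (.e (nat_lit 1803) (nat_lit 119) (.e (nat_lit 516131) (nat_lit 3) (.e (nat_lit 221212) (nat_lit 22) .nil)))))))) (.g (nat_lit 4) .nil .nil))))))) 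
(.nd (nat_lit 2) (.nd (nat_lit 3) (.nd (nat_lit 4) (.nd (nat_lit 5) 
(.lf (nat_lit 271939) (.g (nat_lit 842) (.e (nat_lit 196674) (nat_lit 15) (.e (nat_lit 81959) (nat_lit 24) (.e (nat_lit 123023) (nat_lit 124) .nil))) .nil)) 
(.lf (nat_lit 271971) (.g (nat_lit 1631) (.e (nat_lit 204544) (nat_lit 15) (.e (nat_lit 81956) (nat_lit 23) (.e (nat_lit 98353) (nat_lit 25) (.e (nat_lit 417828) (nat_lit 18) .nil)))) .nil))) (.nd (nat_lit 5) 
(.lf (nat_lit 271955) (.g (nat_lit 553) (.e (nat_lit 204544) (nat_lit 15) (.e (nat_lit 81956) (nat_lit 23) (.e (nat_lit 98349) (nat_lit 24) .nil))) .nil)) 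
(.lf (nat_lit 271987) (.g (nat_lit 2723) (.e (nat_lit 196681) (nat_lit 17) (.e (nat_lit 131093) (nat_lit 2) (.e (nat_lit 90134) (nat_lit 9) (.e (nat_lit 214) (nat_lit 19) (.e (nat_lit 319505) (nat_lit 10) (.e (nat_lit 584) (nat_lit 43) (.e (nat_lit 516131) (nat_lit 3) (.e (nat_lit 221212) (nat_lit 22) .nil)))))))) (.g (nat_lit 4) .nil .nil))))) (.nd (nat_lit 4) (.nd (nat_lit 5) 
(.lf (nat_lit 271947) (.g (nat_lit 2505) (.e (nat_lit 204544) (nat_lit 15) (.e (nat_lit 81954) (nat_lit 23) (.e (nat_lit 98350) (nat_lit 24) (.e (nat_lit 409648) (nat_lit 18) (.e (nat_lit 303116) (nat_lit 2) .nil))))) .nil)) 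
(.lf (nat_lit 271979) (.g (nat_lit 1567) (.e (nat_lit 196677) (nat_lit 16) (.e (nat_lit 123080) (nat_lit 177) (.e (nat_lit 57887) (nat_lit 270) (.e (nat_lit 1232) (nat_lit 91) (.e (nat_lit 90169) (nat_lit 13) (.e (nat_lit 172103) (nat_lit 9) (.e (nat_lit 426114) (nat_lit 2) .nil))))))) (.g (nat_lit 5) .nil .nil)))) (.nd (nat_lit 5) 
(.lf (nat_lit 271963) (.g (nat_lit 2254) (.e (nat_lit 204544) (nat_lit 15) (.e (nat_lit 81956) (nat_lit 23) (.e (nat_lit 98350) (nat_lit 24) (.e (nat_lit 409645) (nat_lit 18) (.e (nat_lit 303117) (nat_lit 2) .nil))))) .nil)) 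
(.lf (nat_lit 271995) (.g (nat_lit 1746) (.e (nat_lit 196681) (nat_lit 17) (.e (nat_lit 131098) (nat_lit 3) (.e (nat_lit 98333) (nat_lit 18) (.e (nat_lit 164156) (nat_lit 152) (.e (nat_lit 1291) (nat_lit 95) .nil))))) .nil))))) (.nd (nat_lit 3) (.nd (nat_lit 4) (.nd (nat_lit 5) 
(.lf (nat_lit 271943) (.g (nat_lit 1890) (.e (nat_lit 204544) (nat_lit 15) (.e (nat_lit 81954) (nat_lit 23) (.e (nat_lit 98350) (nat_lit 24) (.e (nat_lit 409643) (nat_lit 18) .nil)))) .nil)) 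
(.lf (nat_lit 271975) (.g (nat_lit 3623) (.e (nat_lit 196677) (nat_lit 16) (.e (nat_lit 122959) (nat_lit 46) (.e (nat_lit 704734) (nat_lit 11) (.e (nat_lit 16416) (nat_lit 3) (.e (nat_lit 204861) (nat_lit 26) (.e (nat_lit 336076) (nat_lit 9) (.e (nat_lit 336316) (nat_lit 17) .nil))))))) (.g (nat_lit 7) .nil .nil)))) (.nd (nat_lit 5) 
(.lf (nat_lit 271959) (.g (nat_lit 2045) (.e (nat_lit 204544) (nat_lit 15) (.e (nat_lit 81956) (nat_lit 23) (.e (nat_lit 98350) (nat_lit 24) (.e (nat_lit 409617) (nat_lit 10) .nil)))) .nil)) 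
(.lf (nat_lit 271991) (.g (nat_lit 1857) (.e (nat_lit 196681) (nat_lit 17) (.e (nat_lit 131096) (nat_lit 3) (.e (nat_lit 98333) (nat_lit 18) (.e (nat_lit 164179) (nat_lit 154) (.e (nat_lit 57358) (nat_lit 0) .nil))))) .nil)))) (.nd (nat_lit 4) (.nd (nat_lit 5) 
(.lf (nat_lit 271951) (.g (nat_lit 1876) (.e (nat_lit 204544) (nat_lit 15) (.e (nat_lit 81955) (nat_lit 23) (.e (nat_lit 98350) (nat_lit 24) (.e (nat_lit 409649) (nat_lit 18) (.e (nat_lit 303117) (nat_lit 2) .nil))))) .nil)) 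
(.lf (nat_lit 271983) (.g (nat_lit 1669) (.e (nat_lit 196681) (nat_lit 17) (.e (nat_lit 131086) (nat_lit 1) (.e (nat_lit 57854) (nat_lit 252) (.e (nat_lit 57389) (nat_lit 5) (.e (nat_lit 114712) (nat_lit 21) (.e (nat_lit 57851) (nat_lit 252) (.e (nat_lit 65280) (nat_lit 66) (.e (nat_lit 221212) (nat_lit 22) .nil)))))))) (.g (nat_lit 4) .nil .nil)))) (.nd (nat_lit 5) 
(.lf (nat_lit 271967) (.g (nat_lit 2061) (.e (nat_lit 204544) (nat_lit 15) (.e (nat_lit 81956) (nat_lit 23) (.e (nat_lit 98350) (nat_lit 24) (.e (nat_lit 409650) (nat_lit 19) .nil)))) .nil)) 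
(.lf (nat_lit 271999) (.g (nat_lit 2305) (.e (nat_lit 196681) (nat_lit 17) (.e (nat_lit 131098) (nat_lit 3) (.e (nat_lit 98333) (nat_lit 18) (.e (nat_lit 164179) (nat_lit 154) (.e (nat_lit 57348) (nat_lit 0) (.e (nat_lit 1781) (nat_lit 119) (.e (nat_lit 516131) (nat_lit 3) (.e (nat_lit 221212) (nat_lit 22) .nil)))))))) (.g (nat_lit 4) .nil .nil)))))))))

noncomputable def tv3489 : DT := (.nd (nat_lit 0) (.nd (nat_lit 1) (.nd (nat_lit 2) (.nd (nat_lit 3) (.nd (nat_lit 4) (.nd (nat_lit 5) 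
(.lf (nat_lit 272000) (.g (nat_lit 2424) (.e (nat_lit 196681) (nat_lit 17) (.e (nat_lit 131098) (nat_lit 3) (.e (nat_lit 98333) (nat_lit 18) (.e (nat_lit 164179) (nat_lit 154) (.e (nat_lit 57349) (nat_lit 0) (.e (nat_lit 1803) (nat_lit 119) (.e (nat_lit 516131) (nat_lit 3) (.e (nat_lit 221212) (nat_lit 22) .nil)))))))) (.g (nat_lit 4) .nil .nil))) 
(.lf (nat_lit 272032) (.g (nat_lit 1889) (.e (nat_lit 196681) (nat_lit 17) (.e (nat_lit 131120) (nat_lit 12) (.e (nat_lit 385066) (nat_lit 26) (.e (nat_lit 532481) (nat_lit 0) (.e (nat_lit 2092) (nat_lit 142) (.e (nat_lit 704734) (nat_lit 11) (.e (nat_lit 16412) (nat_lit 2) .nil))))))) (.g (nat_lit 4) .nil .nil)))) (.nd (nat_lit 5) 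
(.lf (nat_lit 272016) (.g (nat_lit 2255) (.e (nat_lit 196681) (nat_lit 17) (.e (nat_lit 131109) (nat_lit 9) (.e (nat_lit 336324) (nat_lit 18) (.e (nat_lit 204834) (nat_lit 19) (.e (nat_lit 106534) (nat_lit 11) (.e (nat_lit 16411) (nat_lit 2) .nil)))))) (.g (nat_lit 0) .nil .nil))) 
(.lf (nat_lit 272048) (.g (nat_lit 2058) (.e (nat_lit 196681) (nat_lit 17) (.e (nat_lit 131123) (nat_lit 12) (.e (nat_lit 385066) (nat_lit 26) (.e (nat_lit 532481) (nat_lit 0) (.e (nat_lit 2076) (nat_lit 142) (.e (nat_lit 704734) (nat_lit 11) (.e (nat_lit 16412) (nat_lit 2) .nil))))))) (.g (nat_lit 4) .nil .nil))))) (.nd (nat_lit 4) (.nd (nat_lit 5) 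
(.lf (nat_lit 272008) (.g (nat_lit 2231) (.e (nat_lit 196681) (nat_lit 17) (.e (nat_lit 131105) (nat_lit 9) (.e (nat_lit 336324) (nat_lit 18) (.e (nat_lit 204834) (nat_lit 19) (.e (nat_lit 106536) (nat_lit 11) (.e (nat_lit 16410) (nat_lit 2) .nil)))))) (.g (nat_lit 5) .nil .nil))) 
(.lf (nat_lit 272040) (.g (nat_lit 1929) (.e (nat_lit 196681) (nat_lit 17) (.e (nat_lit 131120) (nat_lit 12) (.e (nat_lit 385066) (nat_lit 26) (.e (nat_lit 532509) (nat_lit 2) (.e (nat_lit 106536) (nat_lit 11) (.e (nat_lit 16413) (nat_lit 2) .nil)))))) (.g (nat_lit 5) .nil .nil)))) (.nd (nat_lit 5) 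
(.lf (nat_lit 272024) (.g (nat_lit 2068) (.e (nat_lit 196681) (nat_lit 17) (.e (nat_lit 131109) (nat_lit 9) (.e (nat_lit 336324) (nat_lit 18) (.e (nat_lit 204835) (nat_lit 19) (.e (nat_lit 106535) (nat_lit 11) .nil))))) .nil)) 
(.lf (nat_lit 272056) (.g (nat_lit 2101) (.e (nat_lit 196681) (nat_lit 17) (.e (nat_lit 131123) (nat_lit 12) (.e (nat_lit 385066) (nat_lit 26) (.e (nat_lit 532508) (nat_lit 2) (.e (nat_lit 106534) (nat_lit 11) (.e (nat_lit 16410) (nat_lit 2) .nil)))))) (.g (nat_lit 5) .nil .nil)))))) (.nd (nat_lit 3) (.nd (nat_lit 4) (.nd (nat_lit 5) 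
(.lf (nat_lit 272004) (.g (nat_lit 1939) (.e (nat_lit 196681) (nat_lit 17) (.e (nat_lit 131098) (nat_lit 3) (.e (nat_lit 98334) (nat_lit 18) (.e (nat_lit 164183) (nat_lit 154) (.e (nat_lit 57356) (nat_lit 0) (.e (nat_lit 1802) (nat_lit 119) (.e (nat_lit 516131) (nat_lit 3) (.e (nat_lit 221212) (nat_lit 22) .nil)))))))) (.g (nat_lit 4) .nil .nil))) 
(.lf (nat_lit 272036) (.g (nat_lit 2629) (.e (nat_lit 196681) (nat_lit 17) (.e (nat_lit 131120) (nat_lit 12) (.e (nat_lit 385066) (nat_lit 26) (.e (nat_lit 532508) (nat_lit 2) (.e (nat_lit 106534) (nat_lit 11) (.e (nat_lit 16412) (nat_lit 2) .nil)))))) (.g (nat_lit 0) .nil .nil)))) (.nd (nat_lit 5) 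
(.lf (nat_lit 272020) (.g (nat_lit 3207) (.e (nat_lit 196681) (nat_lit 17) (.e (nat_lit 131109) (nat_lit 9) (.e (nat_lit 336324) (nat_lit 18) (.e (nat_lit 204834) (nat_lit 19) (.e (nat_lit 106536) (nat_lit 11) (.e (nat_lit 16412) (nat_lit 2) .nil)))))) (.g (nat_lit 0) .nil .nil))) 
(.lf (nat_lit 272052) (.g (nat_lit 1985) (.e (nat_lit 196681) (nat_lit 17) (.e (nat_lit 131123) (nat_lit 12) (.e (nat_lit 385066) (nat_lit 26) (.e (nat_lit 532481) (nat_lit 0) (.e (nat_lit 2086) (nat_lit 142) (.e (nat_lit 704734) (nat_lit 11) (.e (nat_lit 16412) (nat_lit 2) .nil))))))) (.g (nat_lit 4) .nil .nil))))) (.nd (nat_lit 4) (.nd (nat_lit 5) 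
(.lf (nat_lit 272012) (.g (nat_lit 1946) (.e (nat_lit 196681) (nat_lit 17) (.e (nat_lit 131105) (nat_lit 9) (.e (nat_lit 336324) (nat_lit 18) (.e (nat_lit 204835) (nat_lit 19) (.e (nat_lit 106535) (nat_lit 11) .nil))))) .nil)) 
(.lf (nat_lit 272044) (.g (nat_lit 2501) (.e (nat_lit 196681) (nat_lit 17) (.e (nat_lit 131120) (nat_lit 12) (.e (nat_lit 385068) (nat_lit 26) (.e (nat_lit 532508) (nat_lit 2) (.e (nat_lit 106536) (nat_lit 11) (.e (nat_lit 16410) (nat_lit 2) .nil)))))) (.g (nat_lit 5) .nil .nil)))) (.nd (nat_lit 5) 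
(.lf (nat_lit 272028) (.g (nat_lit 1918) (.e (nat_lit 196681) (nat_lit 17) (.e (nat_lit 131120) (nat_lit 12) (.e (nat_lit 385066) (nat_lit 26) (.e (nat_lit 532481) (nat_lit 0) (.e (nat_lit 2077) (nat_lit 142) (.e (nat_lit 704734) (nat_lit 11) (.e (nat_lit 16412) (nat_lit 2) .nil))))))) (.g (nat_lit 4) .nil .nil))) 
(.lf (nat_lit 272060) (.g (nat_lit 1955) (.e (nat_lit 196681) (nat_lit 17) (.e (nat_lit 131123) (nat_lit 12) (.e (nat_lit 385066) (nat_lit 26) (.e (nat_lit 532508) (nat_lit 2) (.e (nat_lit 106536) (nat_lit 11) (.e (nat_lit 16411) (nat_lit 2) .nil)))))) (.g (nat_lit 5) .nil .nil))))))) (.nd (nat_lit 2) (.nd (nat_lit 3) (.nd (nat_lit 4) (.nd (nat_lit 5) 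
(.lf (nat_lit 272002) (.g (nat_lit 2030) (.e (nat_lit 196681) (nat_lit 17) (.e (nat_lit 131098) (nat_lit 3) (.e (nat_lit 98333) (nat_lit 18) (.e (nat_lit 164182) (nat_lit 154) (.e (nat_lit 57351) (nat_lit 0) (.e (nat_lit 1803) (nat_lit 119) (.e (nat_lit 516131) (nat_lit 3) (.e (nat_lit 221212) (nat_lit 22) .nil)))))))) (.g (nat_lit 4) .nil .nil))) 
(.lf (nat_lit 272034) (.g (nat_lit 1995) (.e (nat_lit 196681) (nat_lit 17) (.e (nat_lit 131120) (nat_lit 12) (.e (nat_lit 385066) (nat_lit 26) (.e (nat_lit 532508) (nat_lit 2) (.e (nat_lit 106534) (nat_lit 11) (.e (nat_lit 16410) (nat_lit 2) .nil)))))) (.g (nat_lit 5) .nil .nil)))) (.nd (nat_lit 5) 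
(.lf (nat_lit 272018) (.g (nat_lit 2396) (.e (nat_lit 196681) (nat_lit 17) (.e (nat_lit 131109) (nat_lit 9) (.e (nat_lit 336324) (nat_lit 18) (.e (nat_lit 204834) (nat_lit 19) (.e (nat_lit 106536) (nat_lit 11) (.e (nat_lit 16410) (nat_lit 2) .nil)))))) (.g (nat_lit 5) .nil .nil))) 
(.lf (nat_lit 272050) (.g (nat_lit 2079) (.e (nat_lit 196681) (nat_lit 17) (.e (nat_lit 131123) (nat_lit 12) (.e (nat_lit 385066) (nat_lit 26) (.e (nat_lit 532481) (nat_lit 0) (.e (nat_lit 2080) (nat_lit 142) (.e (nat_lit 704734) (nat_lit 11) (.e (nat_lit 16412) (nat_lit 2) .nil))))))) (.g (nat_lit 4) .nil .nil))))) (.nd (nat_lit 4) (.nd (nat_lit 5) 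
(.lf (nat_lit 272010) (.g (nat_lit 2237) (.e (nat_lit 196681) (nat_lit 17) (.e (nat_lit 131105) (nat_lit 9) (.e (nat_lit 336324) (nat_lit 18) (.e (nat_lit 204835) (nat_lit 19) (.e (nat_lit 106534) (nat_lit 11) (.e (nat_lit 16410) (nat_lit 2) .nil)))))) (.g (nat_lit 5) .nil .nil))) 
(.lf (nat_lit 272042) (.g (nat_lit 1873) (.e (nat_lit 196681) (nat_lit 17) (.e (nat_lit 131120) (nat_lit 12) (.e (nat_lit 385068) (nat_lit 26) (.e (nat_lit 532508) (nat_lit 2) (.e (nat_lit 106534) (nat_lit 11) (.e (nat_lit 16411) (nat_lit 2) .nil)))))) (.g (nat_lit 5) .nil .nil)))) (.nd (nat_lit 5) 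
(.lf (nat_lit 272026) (.g (nat_lit 1969) (.e (nat_lit 196681) (nat_lit 17) (.e (nat_lit 131120) (nat_lit 12) (.e (nat_lit 385066) (nat_lit 26) (.e (nat_lit 532481) (nat_lit 0) (.e (nat_lit 2074) (nat_lit 142) (.e (nat_lit 704734) (nat_lit 11) (.e (nat_lit 16412) (nat_lit 2) .nil))))))) (.g (nat_lit 4) .nil .nil))) 
(.lf (nat_lit 272058) (.g (nat_lit 2725) (.e (nat_lit 196681) (nat_lit 17) (.e (nat_lit 131123) (nat_lit 12) (.e (nat_lit 385066) (nat_lit 26) (.e (nat_lit 532508) (nat_lit 2) (.e (nat_lit 106534) (nat_lit 11) (.e (nat_lit 16412) (nat_lit 2) .nil)))))) (.g (nat_lit 0) .nil .nil)))))) (.nd (nat_lit 3) (.nd (nat_lit 4) (.nd (nat_lit 5) 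
(.lf (nat_lit 272006) (.g (nat_lit 3283) (.e (nat_lit 196681) (nat_lit 17) (.e (nat_lit 131104) (nat_lit 9) (.e (nat_lit 336013) (nat_lit 2) (.e (nat_lit 90165) (nat_lit 12) (.e (nat_lit 171776) (nat_lit 187) (.e (nat_lit 1669) (nat_lit 116) (.e (nat_lit 401425) (nat_lit 2) .nil))))))) (.g (nat_lit 4) .nil .nil))) 
(.lf (nat_lit 272038) (.g (nat_lit 3092) (.e (nat_lit 196681) (nat_lit 17) (.e (nat_lit 131120) (nat_lit 12) (.e (nat_lit 385066) (nat_lit 26) (.e (nat_lit 532508) (nat_lit 2) (.e (nat_lit 106536) (nat_lit 11) (.e (nat_lit 16412) (nat_lit 2) .nil)))))) (.g (nat_lit 6) .nil .nil)))) (.nd (nat_lit 5) 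
(.lf (nat_lit 272022) (.g (nat_lit 2347) (.e (nat_lit 196681) (nat_lit 17) (.e (nat_lit 131109) (nat_lit 9) (.e (nat_lit 336324) (nat_lit 18) (.e (nat_lit 204835) (nat_lit 19) (.e (nat_lit 106534) (nat_lit 11) (.e (nat_lit 16410) (nat_lit 2) .nil)))))) (.g (nat_lit 5) .nil .nil))) 
(.lf (nat_lit 272054) (.g (nat_lit 2087) (.e (nat_lit 196681) (nat_lit 17) (.e (nat_lit 131123) (nat_lit 12) (.e (nat_lit 385066) (nat_lit 26) (.e (nat_lit 532481) (nat_lit 0) (.e (nat_lit 2093) (nat_lit 142) (.e (nat_lit 704734) (nat_lit 11) (.e (nat_lit 16412) (nat_lit 2) .nil))))))) (.g (nat_lit 4) .nil .nil))))) (.nd (nat_lit 4) (.nd (nat_lit 5) 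
(.lf (nat_lit 272014) (.g (nat_lit 1257) (.e (nat_lit 196681) (nat_lit 17) (.e (nat_lit 131109) (nat_lit 9) (.e (nat_lit 336324) (nat_lit 18) (.e (nat_lit 204816) (nat_lit 17) (.e (nat_lit 2099) (nat_lit 142) .nil))))) .nil)) 
(.lf (nat_lit 272046) (.g (nat_lit 3304) (.e (nat_lit 196681) (nat_lit 17) (.e (nat_lit 131120) (nat_lit 12) (.e (nat_lit 385068) (nat_lit 26) (.e (nat_lit 532508) (nat_lit 2) (.e (nat_lit 106536) (nat_lit 11) (.e (nat_lit 16412) (nat_lit 2) .nil)))))) (.g (nat_lit 0) .nil .nil)))) (.nd (nat_lit 5) 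
(.lf (nat_lit 272030) (.g (nat_lit 1759) (.e (nat_lit 196681) (nat_lit 17) (.e (nat_lit 131120) (nat_lit 12) (.e (nat_lit 385066) (nat_lit 26) (.e (nat_lit 532481) (nat_lit 0) (.e (nat_lit 2084) (nat_lit 142) (.e (nat_lit 704734) (nat_lit 11) (.e (nat_lit 16412) (nat_lit 2) .nil))))))) (.g (nat_lit 4) .nil .nil))) 
(.lf (nat_lit 272062) (.g (nat_lit 2919) (.e (nat_lit 196681) (nat_lit 17) (.e (nat_lit 131123) (nat_lit 12) (.e (nat_lit 385066) (nat_lit 26) (.e (nat_lit 532509) (nat_lit 2) (.e (nat_lit 106536) (nat_lit 11) (.e (nat_lit 16412) (nat_lit 2) .nil)))))) (.g (nat_lit 0) .nil .nil)))))))) (.nd (nat_lit 1) (.nd (nat_lit 2) (.nd (nat_lit 3) (.nd (nat_lit 4) (.nd (nat_lit 5) 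
(.lf (nat_lit 272001) (.g (nat_lit 2019) (.e (nat_lit 196681) (nat_lit 17) (.e (nat_lit 131098) (nat_lit 3) (.e (nat_lit 98333) (nat_lit 18) (.e (nat_lit 164179) (nat_lit 154) (.e (nat_lit 57355) (nat_lit 0) .nil))))) .nil)) 
(.lf (nat_lit 272033) (.g (nat_lit 1938) (.e (nat_lit 196681) (nat_lit 17) (.e (nat_lit 131120) (nat_lit 12) (.e (nat_lit 385066) (nat_lit 26) (.e (nat_lit 532481) (nat_lit 0) (.e (nat_lit 2093) (nat_lit 142) (.e (nat_lit 704734) (nat_lit 11) (.e (nat_lit 16412) (nat_lit 2) .nil))))))) (.g (nat_lit 4) .nil .nil)))) (.nd (nat_lit 5) 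
(.lf (nat_lit 272017) (.g (nat_lit 2726) (.e (nat_lit 196681) (nat_lit 17) (.e (nat_lit 131109) (nat_lit 9) (.e (nat_lit 336324) (nat_lit 18) (.e (nat_lit 204834) (nat_lit 19) (.e (nat_lit 106534) (nat_lit 11) (.e (nat_lit 16412) (nat_lit 2) .nil)))))) (.g (nat_lit 0) .nil .nil))) 
(.lf (nat_lit 272049) (.g (nat_lit 2067) (.e (nat_lit 196681) (nat_lit 17) (.e (nat_lit 131123) (nat_lit 12) (.e (nat_lit 385066) (nat_lit 26) (.e (nat_lit 532481) (nat_lit 0) (.e (nat_lit 2077) (nat_lit 142) (.e (nat_lit 704734) (nat_lit 11) (.e (nat_lit 16412) (nat_lit 2) .nil))))))) (.g (nat_lit 4) .nil .nil))))) (.nd (nat_lit 4) (.nd (nat_lit 5) 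
(.lf (nat_lit 272009) (.g (nat_lit 3025) (.e (nat_lit 196681) (nat_lit 17) (.e (nat_lit 131105) (nat_lit 9) (.e (nat_lit 336324) (nat_lit 18) (.e (nat_lit 204834) (nat_lit 19) (.e (nat_lit 106536) (nat_lit 11) (.e (nat_lit 16412) (nat_lit 2) .nil)))))) (.g (nat_lit 0) .nil .nil))) 
(.lf (nat_lit 272041) (.g (nat_lit 2081) (.e (nat_lit 196681) (nat_lit 17) (.e (nat_lit 131120) (nat_lit 12) (.e (nat_lit 385068) (nat_lit 26) (.e (nat_lit 532508) (nat_lit 2) (.e (nat_lit 106534) (nat_lit 11) (.e (nat_lit 16410) (nat_lit 2) .nil)))))) (.g (nat_lit 5) .nil .nil)))) (.nd (nat_lit 5) 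
(.lf (nat_lit 272025) (.g (nat_lit 2165) (.e (nat_lit 196681) (nat_lit 17) (.e (nat_lit 131109) (nat_lit 9) (.e (nat_lit 336324) (nat_lit 18) (.e (nat_lit 204835) (nat_lit 19) (.e (nat_lit 106536) (nat_lit 11) (.e (nat_lit 16409) (nat_lit 2) .nil)))))) (.g (nat_lit 4) .nil .nil))) 
(.lf (nat_lit 272057) (.g (nat_lit 1911) (.e (nat_lit 196681) (nat_lit 17) (.e (nat_lit 131123) (nat_lit 12) (.e (nat_lit 385066) (nat_lit 26) (.e (nat_lit 532508) (nat_lit 2) (.e (nat_lit 106534) (nat_lit 11) (.e (nat_lit 16411) (nat_lit 2) .nil)))))) (.g (nat_lit 5) .nil .nil)))))) (.nd (nat_lit 3) (.nd (nat_lit 4) (.nd (nat_lit 5) 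
(.lf (nat_lit 272005) (.g (nat_lit 1861) (.e (nat_lit 196681) (nat_lit 17) (.e (nat_lit 131098) (nat_lit 3) (.e (nat_lit 98334) (nat_lit 18) (.e (nat_lit 164183) (nat_lit 154) (.e (nat_lit 57359) (nat_lit 0) .nil))))) .nil)) 
(.lf (nat_lit 272037) (.g (nat_lit 1828) (.e (nat_lit 196681) (nat_lit 17) (.e (nat_lit 131120) (nat_lit 12) (.e (nat_lit 385066) (nat_lit 26) (.e (nat_lit 532508) (nat_lit 2) (.e (nat_lit 106536) (nat_lit 11) (.e (nat_lit 16411) (nat_lit 2) .nil)))))) (.g (nat_lit 5) .nil .nil)))) (.nd (nat_lit 5) 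
(.lf (nat_lit 272021) (.g (nat_lit 1999) (.e (nat_lit 196681) (nat_lit 17) (.e (nat_lit 131109) (nat_lit 9) (.e (nat_lit 336324) (nat_lit 18) (.e (nat_lit 204834) (nat_lit 19) (.e (nat_lit 106536) (nat_lit 11) (.e (nat_lit 16413) (nat_lit 2) .nil)))))) (.g (nat_lit 5) .nil .nil))) 
(.lf (nat_lit 272053) (.g (nat_lit 2038) (.e (nat_lit 196681) (nat_lit 17) (.e (nat_lit 131123) (nat_lit 12) (.e (nat_lit 385066) (nat_lit 26) (.e (nat_lit 532481) (nat_lit 0) (.e (nat_lit 2092) (nat_lit 142) (.e (nat_lit 704734) (nat_lit 11) (.e (nat_lit 16412) (nat_lit 2) .nil))))))) (.g (nat_lit 4) .nil .nil))))) (.nd (nat_lit 4) (.nd (nat_lit 5) 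
(.lf (nat_lit 272013) (.g (nat_lit 4802) (.e (nat_lit 196681) (nat_lit 17) (.e (nat_lit 131109) (nat_lit 9) (.e (nat_lit 335878) (nat_lit 0) (.e (nat_lit 1860) (nat_lit 124) (.e (nat_lit 557093) (nat_lit 12) (.e (nat_lit 164023) (nat_lit 46) (.e (nat_lit 704738) (nat_lit 11) (.e (nat_lit 16412) (nat_lit 2) .nil)))))))) (.g (nat_lit 0) .nil .nil))) 
(.lf (nat_lit 272045) (.g (nat_lit 2053) (.e (nat_lit 196681) (nat_lit 17) (.e (nat_lit 131120) (nat_lit 12) (.e (nat_lit 385068) (nat_lit 26) (.e (nat_lit 532508) (nat_lit 2) (.e (nat_lit 106536) (nat_lit 11) (.e (nat_lit 16411) (nat_lit 2) .nil)))))) (.g (nat_lit 5) .nil .nil)))) (.nd (nat_lit 5) 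
(.lf (nat_lit 272029) (.g (nat_lit 1930) (.e (nat_lit 196681) (nat_lit 17) (.e (nat_lit 131120) (nat_lit 12) (.e (nat_lit 385066) (nat_lit 26) (.e (nat_lit 532481) (nat_lit 0) (.e (nat_lit 2080) (nat_lit 142) (.e (nat_lit 704734) (nat_lit 11) (.e (nat_lit 16412) (nat_lit 2) .nil))))))) (.g (nat_lit 4) .nil .nil))) 
(.lf (nat_lit 272061) (.g (nat_lit 3192) (.e (nat_lit 196681) (nat_lit 17) (.e (nat_lit 131123) (nat_lit 12) (.e (nat_lit 385066) (nat_lit 26) (.e (nat_lit 532508) (nat_lit 2) (.e (nat_lit 106536) (nat_lit 11) (.e (nat_lit 16412) (nat_lit 2) .nil)))))) (.g (nat_lit 6) .nil .nil))))))) (.nd (nat_lit 2) (.nd (nat_lit 3) (.nd (nat_lit 4) (.nd (nat_lit 5) 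
(.lf (nat_lit 272003) (.g (nat_lit 1911) (.e (nat_lit 196681) (nat_lit 17) (.e (nat_lit 131098) (nat_lit 3) (.e (nat_lit 98333) (nat_lit 18) (.e (nat_lit 164183) (nat_lit 154) (.e (nat_lit 57351) (nat_lit 0) .nil))))) .nil)) 
(.lf (nat_lit 272035) (.g (nat_lit 1790) (.e (nat_lit 196681) (nat_lit 17) (.e (nat_lit 131120) (nat_lit 12) (.e (nat_lit 385066) (nat_lit 26) (.e (nat_lit 532508) (nat_lit 2) (.e (nat_lit 106534) (nat_lit 11) (.e (nat_lit 16411) (nat_lit 2) .nil)))))) (.g (nat_lit 5) .nil .nil)))) (.nd (nat_lit 5) 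
(.lf (nat_lit 272019) (.g (nat_lit 2047) (.e (nat_lit 196681) (nat_lit 17) (.e (nat_lit 131109) (nat_lit 9) (.e (nat_lit 336324) (nat_lit 18) (.e (nat_lit 204834) (nat_lit 19) (.e (nat_lit 106536) (nat_lit 11) (.e (nat_lit 16411) (nat_lit 2) .nil)))))) (.g (nat_lit 5) .nil .nil))) 
(.lf (nat_lit 272051) (.g (nat_lit 1908) (.e (nat_lit 196681) (nat_lit 17) (.e (nat_lit 131123) (nat_lit 12) (.e (nat_lit 385066) (nat_lit 26) (.e (nat_lit 532481) (nat_lit 0) (.e (nat_lit 2084) (nat_lit 142) (.e (nat_lit 704734) (nat_lit 11) (.e (nat_lit 16412) (nat_lit 2) .nil))))))) (.g (nat_lit 4) .nil .nil))))) (.nd (nat_lit 4) (.nd (nat_lit 5) 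
(.lf (nat_lit 272011) (.g (nat_lit 2112) (.e (nat_lit 196681) (nat_lit 17) (.e (nat_lit 131105) (nat_lit 9) (.e (nat_lit 336324) (nat_lit 18) (.e (nat_lit 204835) (nat_lit 19) (.e (nat_lit 106534) (nat_lit 11) (.e (nat_lit 16411) (nat_lit 2) .nil)))))) (.g (nat_lit 5) .nil .nil))) 
(.lf (nat_lit 272043) (.g (nat_lit 2678) (.e (nat_lit 196681) (nat_lit 17) (.e (nat_lit 131120) (nat_lit 12) (.e (nat_lit 385068) (nat_lit 26) (.e (nat_lit 532508) (nat_lit 2) (.e (nat_lit 106534) (nat_lit 11) (.e (nat_lit 16412) (nat_lit 2) .nil)))))) (.g (nat_lit 0) .nil .nil)))) (.nd (nat_lit 5) 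
(.lf (nat_lit 272027) (.g (nat_lit 1909) (.e (nat_lit 196681) (nat_lit 17) (.e (nat_lit 131120) (nat_lit 12) (.e (nat_lit 385066) (nat_lit 26) (.e (nat_lit 532481) (nat_lit 0) (.e (nat_lit 2076) (nat_lit 142) (.e (nat_lit 704734) (nat_lit 11) (.e (nat_lit 16412) (nat_lit 2) .nil))))))) (.g (nat_lit 4) .nil .nil))) 
(.lf (nat_lit 272059) (.g (nat_lit 2395) (.e (nat_lit 196681) (nat_lit 17) (.e (nat_lit 131123) (nat_lit 12) (.e (nat_lit 385066) (nat_lit 26) (.e (nat_lit 532508) (nat_lit 2) (.e (nat_lit 106536) (nat_lit 11) (.e (nat_lit 16410) (nat_lit 2) .nil)))))) (.g (nat_lit 5) .nil .nil)))))) (.nd (nat_lit 3) (.nd (nat_lit 4) (.nd (nat_lit 5) 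
(.lf (nat_lit 272007) (.g (nat_lit 2112) (.e (nat_lit 196681) (nat_lit 17) (.e (nat_lit 131105) (nat_lit 9) (.e (nat_lit 336324) (nat_lit 18) (.e (nat_lit 204834) (nat_lit 19) (.e (nat_lit 106534) (nat_lit 11) (.e (nat_lit 16411) (nat_lit 2) .nil)))))) (.g (nat_lit 0) .nil .nil))) 
(.lf (nat_lit 272039) (.g (nat_lit 2824) (.e (nat_lit 196681) (nat_lit 17) (.e (nat_lit 131120) (nat_lit 12) (.e (nat_lit 385066) (nat_lit 26) (.e (nat_lit 532509) (nat_lit 2) (.e (nat_lit 106536) (nat_lit 11) (.e (nat_lit 16412) (nat_lit 2) .nil)))))) (.g (nat_lit 0) .nil .nil)))) (.nd (nat_lit 5) 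
(.lf (nat_lit 272023) (.g (nat_lit 2264) (.e (nat_lit 196681) (nat_lit 17) (.e (nat_lit 131109) (nat_lit 9) (.e (nat_lit 336324) (nat_lit 18) (.e (nat_lit 204835) (nat_lit 19) (.e (nat_lit 106534) (nat_lit 11) (.e (nat_lit 16411) (nat_lit 2) .nil)))))) (.g (nat_lit 5) .nil .nil))) 
(.lf (nat_lit 272055) (.g (nat_lit 1527) (.e (nat_lit 196681) (nat_lit 17) (.e (nat_lit 131123) (nat_lit 12) (.e (nat_lit 385066) (nat_lit 26) (.e (nat_lit 532506) (nat_lit 2) (.e (nat_lit 106536) (nat_lit 11) (.e (nat_lit 16411) (nat_lit 2) .nil)))))) (.g (nat_lit 4) .nil .nil))))) (.nd (nat_lit 4) (.nd (nat_lit 5) 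
(.lf (nat_lit 272015) (.g (nat_lit 2056) (.e (nat_lit 196681) (nat_lit 17) (.e (nat_lit 131109) (nat_lit 9) (.e (nat_lit 336324) (nat_lit 18) (.e (nat_lit 204834) (nat_lit 19) (.e (nat_lit 106534) (nat_lit 11) (.e (nat_lit 16410) (nat_lit 2) .nil)))))) (.g (nat_lit 5) .nil .nil))) 
(.lf (nat_lit 272047) (.g (nat_lit 2118) (.e (nat_lit 196681) (nat_lit 17) (.e (nat_lit 131123) (nat_lit 12) (.e (nat_lit 385066) (nat_lit 26) (.e (nat_lit 532481) (nat_lit 0) (.e (nat_lit 2074) (nat_lit 142) (.e (nat_lit 704734) (nat_lit 11) (.e (nat_lit 16412) (nat_lit 2) .nil))))))) (.g (nat_lit 4) .nil .nil)))) (.nd (nat_lit 5) 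
(.lf (nat_lit 272031) (.g (nat_lit 1836) (.e (nat_lit 196681) (nat_lit 17) (.e (nat_lit 131120) (nat_lit 12) (.e (nat_lit 385066) (nat_lit 26) (.e (nat_lit 532481) (nat_lit 0) (.e (nat_lit 2086) (nat_lit 142) (.e (nat_lit 704734) (nat_lit 11) (.e (nat_lit 16412) (nat_lit 2) .nil))))))) (.g (nat_lit 4) .nil .nil))) 
(.lf (nat_lit 272063) (.g (nat_lit 2033) (.e (nat_lit 196681) (nat_lit 17) (.e (nat_lit 131123) (nat_lit 12) (.e (nat_lit 385066) (nat_lit 26) (.e (nat_lit 532509) (nat_lit 2) (.e (nat_lit 106536) (nat_lit 11) (.e (nat_lit 16413) (nat_lit 2) .nil)))))) (.g (nat_lit 5) .nil .nil)))))))))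

noncomputable def tv3490 : DT := (.nd (nat_lit 0) (.nd (nat_lit 1) (.nd (nat_lit 2) (.nd (nat_lit 3) (.nd (nat_lit 4) (.nd (nat_lit 5) 
(.lf (nat_lit 272064) (.g (nat_lit 2048) (.e (nat_lit 196681) (nat_lit 17) (.e (nat_lit 131123) (nat_lit 12) (.e (nat_lit 385066) (nat_lit 26) (.e (nat_lit 532510) (nat_lit 2) (.e (nat_lit 106534) (nat_lit 11) (.e (nat_lit 16410) (nat_lit 2) .nil)))))) (.g (nat_lit 5) .nil .nil))) 
(.lf (nat_lit 272096) (.g (nat_lit 1511) (.e (nat_lit 196683) (nat_lit 18) (.e (nat_lit 1348) (nat_lit 102) (.e (nat_lit 286761) (nat_lit 13) (.e (nat_lit 393225) (nat_lit 9) .nil)))) .nil))) (.nd (nat_lit 5) 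
(.lf (nat_lit 272080) (.g (nat_lit 2616) (.e (nat_lit 196681) (nat_lit 17) (.e (nat_lit 131123) (nat_lit 12) (.e (nat_lit 385068) (nat_lit 26) (.e (nat_lit 532511) (nat_lit 2) (.e (nat_lit 106534) (nat_lit 11) (.e (nat_lit 16412) (nat_lit 2) .nil)))))) (.g (nat_lit 0) .nil .nil))) 
(.lf (nat_lit 272112) (.g (nat_lit 1079) (.e (nat_lit 196683) (nat_lit 18) (.e (nat_lit 2777) (nat_lit 178) (.e (nat_lit 286761) (nat_lit 13) .nil))) .nil)))) (.nd (nat_lit 4) (.nd (nat_lit 5) 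
(.lf (nat_lit 272072) (.g (nat_lit 2791) (.e (nat_lit 196681) (nat_lit 17) (.e (nat_lit 131123) (nat_lit 12) (.e (nat_lit 385068) (nat_lit 26) (.e (nat_lit 532508) (nat_lit 2) (.e (nat_lit 106534) (nat_lit 11) (.e (nat_lit 16412) (nat_lit 2) .nil)))))) (.g (nat_lit 0) .nil .nil))) 
(.lf (nat_lit 272104) (.g (nat_lit 465) (.e (nat_lit 196683) (nat_lit 18) (.e (nat_lit 1370) (nat_lit 103) (.e (nat_lit 294941) (nat_lit 9) .nil))) .nil))) (.nd (nat_lit 5) 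
(.lf (nat_lit 272088) (.g (nat_lit 2402) (.e (nat_lit 196681) (nat_lit 17) (.e (nat_lit 131128) (nat_lit 13) (.e (nat_lit 393229) (nat_lit 9) (.e (nat_lit 335987) (nat_lit 1) (.e (nat_lit 57927) (nat_lit 282) (.e (nat_lit 163868) (nat_lit 2) .nil)))))) (.g (nat_lit 5) .nil .nil))) 
(.lf (nat_lit 272120) (.g (nat_lit 1772) (.e (nat_lit 196686) (nat_lit 18) (.e (nat_lit 1368) (nat_lit 103) (.e (nat_lit 294958) (nat_lit 13) (.e (nat_lit 393229) (nat_lit 9) (.e (nat_lit 343808) (nat_lit 20) .nil))))) .nil))))) (.nd (nat_lit 3) (.nd (nat_lit 4) (.nd (nat_lit 5) 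
(.lf (nat_lit 272068) (.g (nat_lit 2618) (.e (nat_lit 196681) (nat_lit 17) (.e (nat_lit 131123) (nat_lit 12) (.e (nat_lit 385066) (nat_lit 26) (.e (nat_lit 532511) (nat_lit 2) (.e (nat_lit 106534) (nat_lit 11) (.e (nat_lit 16412) (nat_lit 2) .nil)))))) (.g (nat_lit 0) .nil .nil))) 
(.lf (nat_lit 272100) (.g (nat_lit 1423) (.e (nat_lit 196683) (nat_lit 18) (.e (nat_lit 1349) (nat_lit 102) (.e (nat_lit 286748) (nat_lit 9) (.e (nat_lit 336008) (nat_lit 2) .nil)))) .nil))) (.nd (nat_lit 5) 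
(.lf (nat_lit 272084) (.g (nat_lit 2419) (.e (nat_lit 196681) (nat_lit 17) (.e (nat_lit 131125) (nat_lit 13) (.e (nat_lit 393229) (nat_lit 9) (.e (nat_lit 335987) (nat_lit 1) (.e (nat_lit 57927) (nat_lit 282) (.e (nat_lit 163868) (nat_lit 2) .nil)))))) (.g (nat_lit 5) .nil .nil))) 
(.lf (nat_lit 272116) (.g (nat_lit 1494) (.e (nat_lit 196686) (nat_lit 18) (.e (nat_lit 1348) (nat_lit 102) (.e (nat_lit 286743) (nat_lit 9) (.e (nat_lit 336456) (nat_lit 34) .nil)))) .nil)))) (.nd (nat_lit 4) (.nd (nat_lit 5) 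
(.lf (nat_lit 272076) (.g (nat_lit 2074) (.e (nat_lit 196681) (nat_lit 17) (.e (nat_lit 131123) (nat_lit 12) (.e (nat_lit 385068) (nat_lit 26) (.e (nat_lit 532510) (nat_lit 2) (.e (nat_lit 106534) (nat_lit 11) (.e (nat_lit 16410) (nat_lit 2) .nil)))))) (.g (nat_lit 5) .nil .nil))) 
(.lf (nat_lit 272108) (.g (nat_lit 961) (.e (nat_lit 196683) (nat_lit 18) (.e (nat_lit 2777) (nat_lit 178) (.e (nat_lit 286731) (nat_lit 1) .nil))) .nil))) (.nd (nat_lit 5) 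
(.lf (nat_lit 272092) (.g (nat_lit 809) (.e (nat_lit 196683) (nat_lit 18) (.e (nat_lit 1348) (nat_lit 102) (.e (nat_lit 286735) (nat_lit 3) .nil))) .nil)) 
(.lf (nat_lit 272124) (.g (nat_lit 1081) (.e (nat_lit 196686) (nat_lit 18) (.e (nat_lit 1385) (nat_lit 105) (.e (nat_lit 311343) (nat_lit 13) (.e (nat_lit 483333) (nat_lit 0) (.e (nat_lit 6988) (nat_lit 377) (.e (nat_lit 2779) (nat_lit 178) (.e (nat_lit 294656) (nat_lit 17) .nil))))))) (.g (nat_lit 5) .nil .nil))))))) (.nd (nat_lit 2) (.nd (nat_lit 3) (.nd (nat_lit 4) (.nd (nat_lit 5) 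
(.lf (nat_lit 272066) (.g (nat_lit 2014) (.e (nat_lit 196681) (nat_lit 17) (.e (nat_lit 131123) (nat_lit 12) (.e (nat_lit 385066) (nat_lit 26) (.e (nat_lit 532511) (nat_lit 2) (.e (nat_lit 106534) (nat_lit 11) (.e (nat_lit 16410) (nat_lit 2) .nil)))))) (.g (nat_lit 5) .nil .nil))) 
(.lf (nat_lit 272098) (.g (nat_lit 2472) (.e (nat_lit 196683) (nat_lit 18) (.e (nat_lit 1348) (nat_lit 102) (.e (nat_lit 286761) (nat_lit 13) (.e (nat_lit 393225) (nat_lit 9) (.e (nat_lit 335996) (nat_lit 1) .nil))))) .nil))) (.nd (nat_lit 5) 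
(.lf (nat_lit 272082) (.g (nat_lit 3592) (.e (nat_lit 196681) (nat_lit 17) (.e (nat_lit 131125) (nat_lit 13) (.e (nat_lit 393225) (nat_lit 9) (.e (nat_lit 335986) (nat_lit 1) (.e (nat_lit 57926) (nat_lit 282) (.e (nat_lit 163868) (nat_lit 2) .nil)))))) (.g (nat_lit 0) .nil .nil))) 
(.lf (nat_lit 272114) (.g (nat_lit 1770) (.e (nat_lit 196684) (nat_lit 18) (.e (nat_lit 1360) (nat_lit 102) (.e (nat_lit 286753) (nat_lit 10) (.e (nat_lit 344117) (nat_lit 21) (.e (nat_lit 516179) (nat_lit 15) .nil))))) .nil)))) (.nd (nat_lit 4) (.nd (nat_lit 5) 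
(.lf (nat_lit 272074) (.g (nat_lit 2191) (.e (nat_lit 196681) (nat_lit 17) (.e (nat_lit 131123) (nat_lit 12) (.e (nat_lit 385068) (nat_lit 26) (.e (nat_lit 532508) (nat_lit 2) (.e (nat_lit 106536) (nat_lit 11) (.e (nat_lit 16411) (nat_lit 2) .nil)))))) (.g (nat_lit 5) .nil .nil))) 
(.lf (nat_lit 272106) (.g (nat_lit 1783) (.e (nat_lit 196683) (nat_lit 18) (.e (nat_lit 1370) (nat_lit 103) (.e (nat_lit 294960) (nat_lit 13) (.e (nat_lit 393229) (nat_lit 9) (.e (nat_lit 343808) (nat_lit 20) .nil))))) .nil))) (.nd (nat_lit 5) 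
(.lf (nat_lit 272090) (.g (nat_lit 2959) (.e (nat_lit 196681) (nat_lit 17) (.e (nat_lit 131129) (nat_lit 14) (.e (nat_lit 401424) (nat_lit 2) (.e (nat_lit 196666) (nat_lit 13) (.e (nat_lit 65630) (nat_lit 14) (.e (nat_lit 401425) (nat_lit 2) .nil)))))) (.g (nat_lit 5) .nil .nil))) 
(.lf (nat_lit 272122) (.g (nat_lit 390) (.e (nat_lit 196686) (nat_lit 18) (.e (nat_lit 1385) (nat_lit 105) (.e (nat_lit 311339) (nat_lit 12) .nil))) .nil))))) (.nd (nat_lit 3) (.nd (nat_lit 4) (.nd (nat_lit 5) 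
(.lf (nat_lit 272070) (.g (nat_lit 2203) (.e (nat_lit 196681) (nat_lit 17) (.e (nat_lit 131123) (nat_lit 12) (.e (nat_lit 385068) (nat_lit 26) (.e (nat_lit 532508) (nat_lit 2) (.e (nat_lit 106534) (nat_lit 11) (.e (nat_lit 16410) (nat_lit 2) .nil)))))) (.g (nat_lit 5) .nil .nil))) 
(.lf (nat_lit 272102) (.g (nat_lit 2494) (.e (nat_lit 196683) (nat_lit 18) (.e (nat_lit 1349) (nat_lit 102) (.e (nat_lit 286759) (nat_lit 12) (.e (nat_lit 385068) (nat_lit 26) (.e (nat_lit 532515) (nat_lit 3) .nil))))) .nil))) (.nd (nat_lit 5) 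
(.lf (nat_lit 272086) (.g (nat_lit 2321) (.e (nat_lit 196681) (nat_lit 17) (.e (nat_lit 131127) (nat_lit 13) (.e (nat_lit 393251) (nat_lit 18) (.e (nat_lit 164179) (nat_lit 154) (.e (nat_lit 57407) (nat_lit 12) (.e (nat_lit 336316) (nat_lit 17) .nil)))))) (.g (nat_lit 4) .nil .nil))) 
(.lf (nat_lit 272118) (.g (nat_lit 556) (.e (nat_lit 196686) (nat_lit 18) (.e (nat_lit 1349) (nat_lit 102) (.e (nat_lit 286761) (nat_lit 13) .nil))) .nil)))) (.nd (nat_lit 4) (.nd (nat_lit 5) 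
(.lf (nat_lit 272078) (.g (nat_lit 1964) (.e (nat_lit 196681) (nat_lit 17) (.e (nat_lit 131123) (nat_lit 12) (.e (nat_lit 385068) (nat_lit 26) (.e (nat_lit 532511) (nat_lit 2) (.e (nat_lit 106534) (nat_lit 11) (.e (nat_lit 16410) (nat_lit 2) .nil)))))) (.g (nat_lit 5) .nil .nil))) 
(.lf (nat_lit 272110) (.g (nat_lit 1703) (.e (nat_lit 196683) (nat_lit 18) (.e (nat_lit 2777) (nat_lit 178) (.e (nat_lit 286743) (nat_lit 9) (.e (nat_lit 336326) (nat_lit 18) .nil)))) .nil))) (.nd (nat_lit 5) 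
(.lf (nat_lit 272094) (.g (nat_lit 1792) (.e (nat_lit 196683) (nat_lit 18) (.e (nat_lit 1348) (nat_lit 102) (.e (nat_lit 286743) (nat_lit 9) (.e (nat_lit 336456) (nat_lit 34) .nil)))) .nil)) 
(.lf (nat_lit 272126) (.g (nat_lit 779) (.e (nat_lit 196690) (nat_lit 18) (.e (nat_lit 1348) (nat_lit 102) (.e (nat_lit 286743) (nat_lit 9) .nil))) .nil))))))) (.nd (nat_lit 1) (.nd (nat_lit 2) (.nd (nat_lit 3) (.nd (nat_lit 4) (.nd (nat_lit 5) 
(.lf (nat_lit 272065) (.g (nat_lit 2651) (.e (nat_lit 196681) (nat_lit 17) (.e (nat_lit 131123) (nat_lit 12) (.e (nat_lit 385066) (nat_lit 26) (.e (nat_lit 532510) (nat_lit 2) (.e (nat_lit 106534) (nat_lit 11) (.e (nat_lit 16412) (nat_lit 2) .nil)))))) (.g (nat_lit 0) .nil .nil))) 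
(.lf (nat_lit 272097) (.g (nat_lit 2409) (.e (nat_lit 196683) (nat_lit 18) (.e (nat_lit 1348) (nat_lit 102) (.e (nat_lit 286761) (nat_lit 13) (.e (nat_lit 393225) (nat_lit 9) (.e (nat_lit 335995) (nat_lit 1) .nil))))) .nil))) (.nd (nat_lit 5) 
(.lf (nat_lit 272081) (.g (nat_lit 2874) (.e (nat_lit 196681) (nat_lit 17) (.e (nat_lit 131123) (nat_lit 12) (.e (nat_lit 385068) (nat_lit 26) (.e (nat_lit 532511) (nat_lit 2) (.e (nat_lit 106536) (nat_lit 11) (.e (nat_lit 16412) (nat_lit 2) .nil)))))) (.g (nat_lit 0) .nil .nil))) 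
(.lf (nat_lit 272113) (.g (nat_lit 2785) (.e (nat_lit 196684) (nat_lit 18) (.e (nat_lit 1360) (nat_lit 102) (.e (nat_lit 286753) (nat_lit 10) (.e (nat_lit 344117) (nat_lit 21) (.e (nat_lit 516145) (nat_lit 9) (.e (nat_lit 426448) (nat_lit 20) (.e (nat_lit 122624) (nat_lit 2) .nil))))))) (.g (nat_lit 5) .nil .nil))))) (.nd (nat_lit 4) (.nd (nat_lit 5) 
(.lf (nat_lit 272073) (.g (nat_lit 2633) (.e (nat_lit 196681) (nat_lit 17) (.e (nat_lit 131123) (nat_lit 12) (.e (nat_lit 385068) (nat_lit 26) (.e (nat_lit 532508) (nat_lit 2) (.e (nat_lit 106536) (nat_lit 11) (.e (nat_lit 16410) (nat_lit 2) .nil)))))) (.g (nat_lit 5) .nil .nil))) 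
(.lf (nat_lit 272105) (.g (nat_lit 412) (.e (nat_lit 196683) (nat_lit 18) (.e (nat_lit 1370) (nat_lit 103) (.e (nat_lit 294960) (nat_lit 13) .nil))) .nil))) (.nd (nat_lit 5) 
(.lf (nat_lit 272089) (.g (nat_lit 4061) (.e (nat_lit 196681) (nat_lit 17) (.e (nat_lit 131129) (nat_lit 14) (.e (nat_lit 401424) (nat_lit 2) (.e (nat_lit 196663) (nat_lit 13) (.e (nat_lit 65630) (nat_lit 14) (.e (nat_lit 401425) (nat_lit 2) .nil)))))) (.g (nat_lit 0) .nil .nil))) 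
(.lf (nat_lit 272121) (.g (nat_lit 389) (.e (nat_lit 196686) (nat_lit 18) (.e (nat_lit 1385) (nat_lit 105) (.e (nat_lit 311338) (nat_lit 12) .nil))) .nil))))) (.nd (nat_lit 3) (.nd (nat_lit 4) (.nd (nat_lit 5) 
(.lf (nat_lit 272069) (.g (nat_lit 2883) (.e (nat_lit 196681) (nat_lit 17) (.e (nat_lit 131123) (nat_lit 12) (.e (nat_lit 385066) (nat_lit 26) (.e (nat_lit 532511) (nat_lit 2) (.e (nat_lit 106536) (nat_lit 11) (.e (nat_lit 16412) (nat_lit 2) .nil)))))) (.g (nat_lit 0) .nil .nil))) 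
(.lf (nat_lit 272101) (.g (nat_lit 2469) (.e (nat_lit 196683) (nat_lit 18) (.e (nat_lit 1349) (nat_lit 102) (.e (nat_lit 286759) (nat_lit 12) (.e (nat_lit 385068) (nat_lit 26) (.e (nat_lit 532513) (nat_lit 3) .nil))))) .nil))) (.nd (nat_lit 5) 
(.lf (nat_lit 272085) (.g (nat_lit 2173) (.e (nat_lit 196681) (nat_lit 17) (.e (nat_lit 131127) (nat_lit 13) (.e (nat_lit 393251) (nat_lit 18) (.e (nat_lit 164179) (nat_lit 154) (.e (nat_lit 57406) (nat_lit 12) (.e (nat_lit 336316) (nat_lit 17) .nil)))))) (.g (nat_lit 4) .nil .nil))) 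
(.lf (nat_lit 272117) (.g (nat_lit 701) (.e (nat_lit 196686) (nat_lit 18) (.e (nat_lit 1348) (nat_lit 102) (.e (nat_lit 286761) (nat_lit 13) .nil))) .nil)))) (.nd (nat_lit 4) (.nd (nat_lit 5) 
(.lf (nat_lit 272077) (.g (nat_lit 2832) (.e (nat_lit 196681) (nat_lit 17) (.e (nat_lit 131123) (nat_lit 12) (.e (nat_lit 385068) (nat_lit 26) (.e (nat_lit 532510) (nat_lit 2) (.e (nat_lit 106536) (nat_lit 11) (.e (nat_lit 16412) (nat_lit 2) .nil)))))) (.g (nat_lit 0) .nil .nil))) 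
(.lf (nat_lit 272109) (.g (nat_lit 1143) (.e (nat_lit 196683) (nat_lit 18) (.e (nat_lit 2777) (nat_lit 178) (.e (nat_lit 286743) (nat_lit 9) .nil))) .nil))) (.nd (nat_lit 5) 
(.lf (nat_lit 272093) (.g (nat_lit 758) (.e (nat_lit 196683) (nat_lit 18) (.e (nat_lit 1348) (nat_lit 102) (.e (nat_lit 286743) (nat_lit 9) .nil))) .nil)) 
(.lf (nat_lit 272125) (.g (nat_lit 1341) (.e (nat_lit 196686) (nat_lit 18) (.e (nat_lit 1385) (nat_lit 105) (.e (nat_lit 311343) (nat_lit 13) (.e (nat_lit 483350) (nat_lit 17) (.e (nat_lit 2383) (nat_lit 155) (.e (nat_lit 811023) (nat_lit 4) (.e (nat_lit 57088) (nat_lit 0) (.e (nat_lit 2668) (nat_lit 167) .nil)))))))) (.g (nat_lit 4) .nil .nil))))))) 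
(.nd (nat_lit 2) (.nd (nat_lit 3) (.nd (nat_lit 4) (.nd (nat_lit 5) 
(.lf (nat_lit 272067) (.g (nat_lit 1718) (.e (nat_lit 196681) (nat_lit 17) (.e (nat_lit 131123) (nat_lit 12) (.e (nat_lit 385066) (nat_lit 26) (.e (nat_lit 532511) (nat_lit 2) (.e (nat_lit 106534) (nat_lit 11) (.e (nat_lit 16411) (nat_lit 2) .nil)))))) (.g (nat_lit 5) .nil .nil))) 
(.lf (nat_lit 272099) (.g (nat_lit 1417) (.e (nat_lit 196683) (nat_lit 18) (.e (nat_lit 1349) (nat_lit 102) (.e (nat_lit 286748) (nat_lit 9) (.e (nat_lit 336001) (nat_lit 2) .nil)))) .nil))) (.nd (nat_lit 5) 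
(.lf (nat_lit 272083) (.g (nat_lit 2039) (.e (nat_lit 196681) (nat_lit 17) (.e (nat_lit 131125) (nat_lit 13) (.e (nat_lit 393225) (nat_lit 9) (.e (nat_lit 335987) (nat_lit 1) (.e (nat_lit 57927) (nat_lit 282) (.e (nat_lit 163868) (nat_lit 2) .nil)))))) (.g (nat_lit 5) .nil .nil))) 
(.lf (nat_lit 272115) (.g (nat_lit 1589) (.e (nat_lit 196684) (nat_lit 18) (.e (nat_lit 1367) (nat_lit 103) (.e (nat_lit 294958) (nat_lit 13) (.e (nat_lit 393229) (nat_lit 9) (.e (nat_lit 343808) (nat_lit 20) .nil))))) .nil)))) (.nd (nat_lit 4) (.nd (nat_lit 5) 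
(.lf (nat_lit 272075) (.g (nat_lit 3416) (.e (nat_lit 196681) (nat_lit 17) (.e (nat_lit 131123) (nat_lit 12) (.e (nat_lit 385068) (nat_lit 26) (.e (nat_lit 532508) (nat_lit 2) (.e (nat_lit 106536) (nat_lit 11) (.e (nat_lit 16412) (nat_lit 2) .nil)))))) (.g (nat_lit 0) .nil .nil))) 
(.lf (nat_lit 272107) (.g (nat_lit 1093) (.e (nat_lit 196683) (nat_lit 18) (.e (nat_lit 1374) (nat_lit 104) (.e (nat_lit 303127) (nat_lit 9) .nil))) .nil))) (.nd (nat_lit 5) 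
(.lf (nat_lit 272091) (.g (nat_lit 1482) (.e (nat_lit 204544) (nat_lit 17) (.e (nat_lit 131133) (nat_lit 15) (.e (nat_lit 3631) (nat_lit 227) (.e (nat_lit 778317) (nat_lit 3) (.e (nat_lit 57480) (nat_lit 28) .nil))))) .nil)) 
(.lf (nat_lit 272123) (.g (nat_lit 303) (.e (nat_lit 196686) (nat_lit 18) (.e (nat_lit 1385) (nat_lit 105) (.e (nat_lit 311343) (nat_lit 13) .nil))) .nil))))) (.nd (nat_lit 3) (.nd (nat_lit 4) (.nd (nat_lit 5) 
(.lf (nat_lit 272071) (.g (nat_lit 2010) (.e (nat_lit 196681) (nat_lit 17) (.e (nat_lit 131123) (nat_lit 12) (.e (nat_lit 385068) (nat_lit 26) (.e (nat_lit 532508) (nat_lit 2) (.e (nat_lit 106534) (nat_lit 11) (.e (nat_lit 16411) (nat_lit 2) .nil)))))) (.g (nat_lit 5) .nil .nil))) 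
(.lf (nat_lit 272103) (.g (nat_lit 556) (.e (nat_lit 196683) (nat_lit 18) (.e (nat_lit 1349) (nat_lit 102) (.e (nat_lit 286761) (nat_lit 13) .nil))) .nil))) (.nd (nat_lit 5) 
(.lf (nat_lit 272087) (.g (nat_lit 3540) (.e (nat_lit 196681) (nat_lit 17) (.e (nat_lit 131128) (nat_lit 13) (.e (nat_lit 393225) (nat_lit 9) (.e (nat_lit 335986) (nat_lit 1) (.e (nat_lit 57926) (nat_lit 282) (.e (nat_lit 163868) (nat_lit 2) .nil)))))) (.g (nat_lit 0) .nil .nil))) 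
(.lf (nat_lit 272119) (.g (nat_lit 459) (.e (nat_lit 196686) (nat_lit 18) (.e (nat_lit 1368) (nat_lit 103) (.e (nat_lit 294946) (nat_lit 9) .nil))) .nil)))) (.nd (nat_lit 4) (.nd (nat_lit 5) 
(.lf (nat_lit 272079) (.g (nat_lit 1668) (.e (nat_lit 196681) (nat_lit 17) (.e (nat_lit 131123) (nat_lit 12) (.e (nat_lit 385068) (nat_lit 26) (.e (nat_lit 532511) (nat_lit 2) (.e (nat_lit 106534) (nat_lit 11) (.e (nat_lit 16411) (nat_lit 2) .nil)))))) (.g (nat_lit 5) .nil .nil))) 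
(.lf (nat_lit 272111) (.g (nat_lit 1732) (.e (nat_lit 196683) (nat_lit 18) (.e (nat_lit 2777) (nat_lit 178) (.e (nat_lit 286759) (nat_lit 12) (.e (nat_lit 385068) (nat_lit 26) .nil)))) .nil))) (.nd (nat_lit 5) 
(.lf (nat_lit 272095) (.g (nat_lit 2819) (.e (nat_lit 196683) (nat_lit 18) (.e (nat_lit 1348) (nat_lit 102) (.e (nat_lit 286759) (nat_lit 12) (.e (nat_lit 385074) (nat_lit 31) (.e (nat_lit 573489) (nat_lit 14) .nil))))) .nil)) 
(.lf (nat_lit 272127) (.g (nat_lit 1791) (.e (nat_lit 196690) (nat_lit 18) (.e (nat_lit 1349) (nat_lit 102) (.e (nat_lit 286759) (nat_lit 12) (.e (nat_lit 385068) (nat_lit 26) .nil)))) .nil))))))))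

noncomputable def tv3491 : DT := (.nd (nat_lit 0) (.nd (nat_lit 1) (.nd (nat_lit 2) (.nd (nat_lit 3) (.nd (nat_lit 4) (.nd (nat_lit 5) (.nd (nat_lit 6) 
(.lf (nat_lit 272128) (.g (nat_lit 1525) (.e (nat_lit 196690) (nat_lit 18) (.e (nat_lit 1358) (nat_lit 102) (.e (nat_lit 286753) (nat_lit 10) (.e (nat_lit 344117) (nat_lit 21) (.e (nat_lit 516169) (nat_lit 13) .nil))))) .nil)) 
(.lf (nat_lit 272192) (.g (nat_lit 3084) (.e (nat_lit 196691) (nat_lit 18) (.e (nat_lit 1359) (nat_lit 102) (.e (nat_lit 286749) (nat_lit 9) (.e (nat_lit 336013) (nat_lit 2) (.e (nat_lit 90185) (nat_lit 17) .nil))))) .nil))) (.nd (nat_lit 6) 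
(.lf (nat_lit 272160) (.g (nat_lit 1196) (.e (nat_lit 196691) (nat_lit 18) (.e (nat_lit 1349) (nat_lit 102) (.e (nat_lit 286748) (nat_lit 9) (.e (nat_lit 336024) (nat_lit 3) .nil)))) .nil)) 
(.lf (nat_lit 272224) (.g (nat_lit 2439) (.e (nat_lit 196698) (nat_lit 19) (.e (nat_lit 57898) (nat_lit 275) (.e (nat_lit 73746) (nat_lit 3) (.e (nat_lit 516146) (nat_lit 9) (.e (nat_lit 426448) (nat_lit 20) (.e (nat_lit 122624) (nat_lit 2) .nil)))))) (.g (nat_lit 5) .nil .nil))))) (.nd (nat_lit 5) (.nd (nat_lit 6) 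
(.lf (nat_lit 272144) (.g (nat_lit 2084) (.e (nat_lit 196691) (nat_lit 18) (.e (nat_lit 1348) (nat_lit 102) (.e (nat_lit 286761) (nat_lit 13) (.e (nat_lit 393225) (nat_lit 9) (.e (nat_lit 343808) (nat_lit 20) .nil))))) .nil)) 
(.lf (nat_lit 272208) (.g (nat_lit 1601) (.e (nat_lit 204544) (nat_lit 18) (.e (nat_lit 2800) (nat_lit 180) (.e (nat_lit 303143) (nat_lit 12) (.e (nat_lit 475185) (nat_lit 29) (.e (nat_lit 557100) (nat_lit 13) .nil))))) .nil))) (.nd (nat_lit 6) 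
(.lf (nat_lit 272176) (.g (nat_lit 1934) (.e (nat_lit 196691) (nat_lit 18) (.e (nat_lit 1349) (nat_lit 102) (.e (nat_lit 286760) (nat_lit 13) (.e (nat_lit 393229) (nat_lit 9) (.e (nat_lit 343808) (nat_lit 20) .nil))))) .nil)) 
(.lf (nat_lit 272240) (.g (nat_lit 1611) (.e (nat_lit 204805) (nat_lit 0) (.e (nat_lit 7096) (nat_lit 380) (.e (nat_lit 164358) (nat_lit 246) (.e (nat_lit 351) (nat_lit 28) (.e (nat_lit 393277) (nat_lit 23) (.e (nat_lit 426135) (nat_lit 3) .nil)))))) (.g (nat_lit 4) .nil .nil)))))) (.nd (nat_lit 4) (.nd (nat_lit 5) (.nd (nat_lit 6) 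
(.lf (nat_lit 272136) (.g (nat_lit 1582) (.e (nat_lit 196691) (nat_lit 18) (.e (nat_lit 1348) (nat_lit 102) (.e (nat_lit 286749) (nat_lit 9) (.e (nat_lit 336028) (nat_lit 3) .nil)))) .nil)) 
(.lf (nat_lit 272200) (.g (nat_lit 929) (.e (nat_lit 196691) (nat_lit 18) (.e (nat_lit 1368) (nat_lit 103) (.e (nat_lit 294958) (nat_lit 13) (.e (nat_lit 401152) (nat_lit 15) .nil)))) .nil))) (.nd (nat_lit 6) 
(.lf (nat_lit 272168) (.g (nat_lit 2434) (.e (nat_lit 196691) (nat_lit 18) (.e (nat_lit 1349) (nat_lit 102) (.e (nat_lit 286756) (nat_lit 10) (.e (nat_lit 344117) (nat_lit 21) (.e (nat_lit 516169) (nat_lit 13) .nil))))) .nil)) 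
(.lf (nat_lit 272232) (.g (nat_lit 1493) (.e (nat_lit 204805) (nat_lit 0) (.e (nat_lit 7096) (nat_lit 380) (.e (nat_lit 164353) (nat_lit 246) (.e (nat_lit 351) (nat_lit 28) (.e (nat_lit 393277) (nat_lit 23) (.e (nat_lit 426135) (nat_lit 3) .nil)))))) (.g (nat_lit 0) .nil .nil))))) (.nd (nat_lit 5) (.nd (nat_lit 6) 
(.lf (nat_lit 272152) (.g (nat_lit 2163) (.e (nat_lit 196691) (nat_lit 18) (.e (nat_lit 1349) (nat_lit 102) (.e (nat_lit 286735) (nat_lit 3) (.e (nat_lit 98342) (nat_lit 20) (.e (nat_lit 221212) (nat_lit 22) .nil))))) .nil)) 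
(.lf (nat_lit 272216) (.g (nat_lit 2280) (.e (nat_lit 196698) (nat_lit 19) (.e (nat_lit 57813) (nat_lit 246) (.e (nat_lit 57895) (nat_lit 272) (.e (nat_lit 16487) (nat_lit 27) (.e (nat_lit 336076) (nat_lit 9) (.e (nat_lit 336320) (nat_lit 17) .nil)))))) (.g (nat_lit 0) .nil .nil)))) (.nd (nat_lit 6) 
(.lf (nat_lit 272184) (.g (nat_lit 779) (.e (nat_lit 196691) (nat_lit 18) (.e (nat_lit 1349) (nat_lit 102) (.e (nat_lit 286761) (nat_lit 13) (.e (nat_lit 393234) (nat_lit 17) .nil)))) .nil)) 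
(.lf (nat_lit 272248) (.g (nat_lit 1617) (.e (nat_lit 204805) (nat_lit 0) (.e (nat_lit 7098) (nat_lit 380) (.e (nat_lit 164356) (nat_lit 246) (.e (nat_lit 351) (nat_lit 28) (.e (nat_lit 393277) (nat_lit 23) (.e (nat_lit 426135) (nat_lit 3) .nil)))))) (.g (nat_lit 4) .nil .nil))))))) (.nd (nat_lit 3) (.nd (nat_lit 4) (.nd (nat_lit 5) (.nd (nat_lit 6) 
(.lf (nat_lit 272132) (.g (nat_lit 466) (.e (nat_lit 196691) (nat_lit 18) (.e (nat_lit 1348) (nat_lit 102) (.e (nat_lit 286743) (nat_lit 9) .nil))) .nil)) 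
(.lf (nat_lit 272196) (.g (nat_lit 461) (.e (nat_lit 196691) (nat_lit 18) (.e (nat_lit 1368) (nat_lit 103) (.e (nat_lit 294939) (nat_lit 9) .nil))) .nil))) (.nd (nat_lit 6) 
(.lf (nat_lit 272164) (.g (nat_lit 1908) (.e (nat_lit 196691) (nat_lit 18) (.e (nat_lit 1349) (nat_lit 102) (.e (nat_lit 286748) (nat_lit 9) (.e (nat_lit 336389) (nat_lit 27) (.e (nat_lit 426161) (nat_lit 6) (.e (nat_lit 261888) (nat_lit 0) (.e (nat_lit 2710) (nat_lit 170) (.e (nat_lit 221212) (nat_lit 22) .nil)))))))) (.g (nat_lit 4) .nil .nil))) 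
(.lf (nat_lit 272228) (.g (nat_lit 193) (.e (nat_lit 204544) (nat_lit 22) (.e (nat_lit 229694) (nat_lit 250) (.e (nat_lit 179968) (nat_lit 15) .nil))) .nil)))) (.nd (nat_lit 5) (.nd (nat_lit 6) 
(.lf (nat_lit 272148) (.g (nat_lit 1514) (.e (nat_lit 196691) (nat_lit 18) (.e (nat_lit 1348) (nat_lit 102) (.e (nat_lit 286761) (nat_lit 13) (.e (nat_lit 401152) (nat_lit 15) .nil)))) .nil)) 
(.lf (nat_lit 272212) (.g (nat_lit 2266) (.e (nat_lit 196698) (nat_lit 19) (.e (nat_lit 57809) (nat_lit 246) (.e (nat_lit 57895) (nat_lit 272) (.e (nat_lit 16487) (nat_lit 27) (.e (nat_lit 336086) (nat_lit 9) (.e (nat_lit 336320) (nat_lit 17) .nil)))))) (.g (nat_lit 0) .nil .nil)))) (.nd (nat_lit 6) 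
(.lf (nat_lit 272180) (.g (nat_lit 1876) (.e (nat_lit 196691) (nat_lit 18) (.e (nat_lit 1349) (nat_lit 102) (.e (nat_lit 286761) (nat_lit 13) (.e (nat_lit 393226) (nat_lit 9) .nil)))) .nil)) 
(.lf (nat_lit 272244) (.g (nat_lit 1210) (.e (nat_lit 204805) (nat_lit 0) (.e (nat_lit 7098) (nat_lit 380) (.e (nat_lit 164354) (nat_lit 246) (.e (nat_lit 351) (nat_lit 28) (.e (nat_lit 393277) (nat_lit 23) (.e (nat_lit 426135) (nat_lit 3) .nil)))))) (.g (nat_lit 0) .nil .nil)))))) (.nd (nat_lit 4) (.nd (nat_lit 5) (.nd (nat_lit 6) 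
(.lf (nat_lit 272140) (.g (nat_lit 2390) (.e (nat_lit 196691) (nat_lit 18) (.e (nat_lit 1348) (nat_lit 102) (.e (nat_lit 286759) (nat_lit 12) (.e (nat_lit 385074) (nat_lit 31) (.e (nat_lit 573489) (nat_lit 14) .nil))))) .nil)) 
(.lf (nat_lit 272204) (.g (nat_lit 2494) (.e (nat_lit 196692) (nat_lit 18) (.e (nat_lit 1349) (nat_lit 102) (.e (nat_lit 286759) (nat_lit 12) (.e (nat_lit 385068) (nat_lit 26) (.e (nat_lit 532515) (nat_lit 3) .nil))))) .nil))) (.nd (nat_lit 6) 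
(.lf (nat_lit 272172) (.g (nat_lit 1429) (.e (nat_lit 196691) (nat_lit 18) (.e (nat_lit 1349) (nat_lit 102) (.e (nat_lit 286759) (nat_lit 12) (.e (nat_lit 385068) (nat_lit 26) .nil)))) .nil)) 
(.lf (nat_lit 272236) (.g (nat_lit 1927) (.e (nat_lit 204805) (nat_lit 0) (.e (nat_lit 7096) (nat_lit 380) (.e (nat_lit 164356) (nat_lit 246) (.e (nat_lit 351) (nat_lit 28) (.e (nat_lit 393281) (nat_lit 23) .nil))))) .nil)))) (.nd (nat_lit 5) (.nd (nat_lit 6) 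
(.lf (nat_lit 272156) (.g (nat_lit 1113) (.e (nat_lit 196691) (nat_lit 18) (.e (nat_lit 1349) (nat_lit 102) (.e (nat_lit 286748) (nat_lit 9) (.e (nat_lit 336008) (nat_lit 2) .nil)))) .nil)) 
(.lf (nat_lit 272220) (.g (nat_lit 2325) (.e (nat_lit 196698) (nat_lit 19) (.e (nat_lit 57815) (nat_lit 246) (.e (nat_lit 57895) (nat_lit 272) (.e (nat_lit 16487) (nat_lit 27) (.e (nat_lit 336076) (nat_lit 9) (.e (nat_lit 336320) (nat_lit 17) .nil)))))) (.g (nat_lit 0) .nil .nil)))) (.nd (nat_lit 6) 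
(.lf (nat_lit 272188) (.g (nat_lit 1067) (.e (nat_lit 196691) (nat_lit 18) (.e (nat_lit 1359) (nat_lit 102) (.e (nat_lit 286742) (nat_lit 9) (.e (nat_lit 336454) (nat_lit 34) (.e (nat_lit 491264) (nat_lit 3) .nil))))) .nil)) 
(.lf (nat_lit 272252) (.g (nat_lit 1282) (.e (nat_lit 204805) (nat_lit 0) (.e (nat_lit 7098) (nat_lit 380) (.e (nat_lit 164358) (nat_lit 246) (.e (nat_lit 351) (nat_lit 28) (.e (nat_lit 393277) (nat_lit 23) .nil))))) .nil))))))) (.nd (nat_lit 2) (.nd (nat_lit 3) (.nd (nat_lit 4) (.nd (nat_lit 5) (.nd (nat_lit 6) 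
(.lf (nat_lit 272130) (.g (nat_lit 3590) (.e (nat_lit 196691) (nat_lit 18) (.e (nat_lit 1348) (nat_lit 102) (.e (nat_lit 286735) (nat_lit 3) (.e (nat_lit 98342) (nat_lit 20) (.e (nat_lit 221212) (nat_lit 22) .nil))))) .nil)) 
(.lf (nat_lit 272194) (.g (nat_lit 302) (.e (nat_lit 196691) (nat_lit 18) (.e (nat_lit 1359) (nat_lit 102) (.e (nat_lit 286760) (nat_lit 13) .nil))) .nil))) (.nd (nat_lit 6) 
(.lf (nat_lit 272162) (.g (nat_lit 1923) (.e (nat_lit 196691) (nat_lit 18) (.e (nat_lit 1349) (nat_lit 102) (.e (nat_lit 286748) (nat_lit 9) (.e (nat_lit 336295) (nat_lit 15) (.e (nat_lit 3234) (nat_lit 197) .nil))))) .nil)) 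
(.lf (nat_lit 272226) (.g (nat_lit 1090) (.e (nat_lit 204544) (nat_lit 21) (.e (nat_lit 164359) (nat_lit 246) (.e (nat_lit 2852) (nat_lit 184) (.e (nat_lit 426402) (nat_lit 15) (.e (nat_lit 1848) (nat_lit 124) .nil))))) .nil)))) (.nd (nat_lit 5) (.nd (nat_lit 6) 
(.lf (nat_lit 272146) (.g (nat_lit 2788) (.e (nat_lit 196691) (nat_lit 18) (.e (nat_lit 1348) (nat_lit 102) (.e (nat_lit 286761) (nat_lit 13) (.e (nat_lit 393229) (nat_lit 9) (.e (nat_lit 343808) (nat_lit 20) .nil))))) .nil)) 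
(.lf (nat_lit 272210) (.g (nat_lit 1418) (.e (nat_lit 204544) (nat_lit 18) (.e (nat_lit 2819) (nat_lit 181) (.e (nat_lit 311325) (nat_lit 9) (.e (nat_lit 426402) (nat_lit 15) (.e (nat_lit 1859) (nat_lit 124) .nil))))) .nil))) (.nd (nat_lit 6) 
(.lf (nat_lit 272178) (.g (nat_lit 299) (.e (nat_lit 196691) (nat_lit 18) (.e (nat_lit 1349) (nat_lit 102) (.e (nat_lit 286761) (nat_lit 13) .nil))) .nil)) 
(.lf (nat_lit 272242) (.g (nat_lit 443) (.e (nat_lit 204805) (nat_lit 0) (.e (nat_lit 7098) (nat_lit 380) (.e (nat_lit 164352) (nat_lit 246) (.e (nat_lit 292) (nat_lit 21) .nil)))) .nil))))) (.nd (nat_lit 4) (.nd (nat_lit 5) (.nd (nat_lit 6) 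
(.lf (nat_lit 272138) (.g (nat_lit 2529) (.e (nat_lit 196691) (nat_lit 18) (.e (nat_lit 1348) (nat_lit 102) (.e (nat_lit 286749) (nat_lit 9) (.e (nat_lit 336028) (nat_lit 3) (.e (nat_lit 98366) (nat_lit 27) .nil))))) .nil)) 
(.lf (nat_lit 272202) (.g (nat_lit 639) (.e (nat_lit 196692) (nat_lit 18) (.e (nat_lit 1348) (nat_lit 102) (.e (nat_lit 286759) (nat_lit 12) .nil))) .nil))) (.nd (nat_lit 6) 
(.lf (nat_lit 272170) (.g (nat_lit 1827) (.e (nat_lit 196691) (nat_lit 18) (.e (nat_lit 1349) (nat_lit 102) (.e (nat_lit 286759) (nat_lit 12) (.e (nat_lit 385065) (nat_lit 26) .nil)))) .nil)) 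
(.lf (nat_lit 272234) (.g (nat_lit 2063) (.e (nat_lit 204805) (nat_lit 0) (.e (nat_lit 7096) (nat_lit 380) (.e (nat_lit 164356) (nat_lit 246) (.e (nat_lit 226) (nat_lit 21) (.e (nat_lit 336443) (nat_lit 32) .nil))))) .nil)))) (.nd (nat_lit 5) (.nd (nat_lit 6) 
(.lf (nat_lit 272154) (.g (nat_lit 892) (.e (nat_lit 196691) (nat_lit 18) (.e (nat_lit 1349) (nat_lit 102) (.e (nat_lit 286743) (nat_lit 9) (.e (nat_lit 336456) (nat_lit 34) .nil)))) .nil)) 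
(.lf (nat_lit 272218) (.g (nat_lit 2251) (.e (nat_lit 196698) (nat_lit 19) (.e (nat_lit 57813) (nat_lit 246) (.e (nat_lit 57895) (nat_lit 272) (.e (nat_lit 16487) (nat_lit 27) (.e (nat_lit 336088) (nat_lit 9) (.e (nat_lit 336320) (nat_lit 17) .nil)))))) (.g (nat_lit 0) .nil .nil)))) (.nd (nat_lit 6) 
(.lf (nat_lit 272186) (.g (nat_lit 2763) (.e (nat_lit 196691) (nat_lit 18) (.e (nat_lit 1349) (nat_lit 102) (.e (nat_lit 286761) (nat_lit 13) (.e (nat_lit 393234) (nat_lit 17) (.e (nat_lit 3548) (nat_lit 219) .nil))))) .nil)) 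
(.lf (nat_lit 272250) (.g (nat_lit 2318) (.e (nat_lit 204805) (nat_lit 0) (.e (nat_lit 7098) (nat_lit 380) (.e (nat_lit 164358) (nat_lit 246) (.e (nat_lit 226) (nat_lit 21) (.e (nat_lit 336443) (nat_lit 32) (.e (nat_lit 466979) (nat_lit 23) .nil)))))) (.g (nat_lit 5) .nil .nil))))))) (.nd (nat_lit 3) (.nd (nat_lit 4) (.nd (nat_lit 5) (.nd (nat_lit 6) 
(.lf (nat_lit 272134) (.g (nat_lit 822) (.e (nat_lit 196691) (nat_lit 18) (.e (nat_lit 1348) (nat_lit 102) (.e (nat_lit 286748) (nat_lit 9) .nil))) .nil)) 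
(.lf (nat_lit 272198) (.g (nat_lit 943) (.e (nat_lit 196691) (nat_lit 18) (.e (nat_lit 1368) (nat_lit 103) (.e (nat_lit 294958) (nat_lit 13) (.e (nat_lit 393227) (nat_lit 9) .nil)))) .nil))) (.nd (nat_lit 6) 
(.lf (nat_lit 272166) (.g (nat_lit 1533) (.e (nat_lit 196691) (nat_lit 18) (.e (nat_lit 1349) (nat_lit 102) (.e (nat_lit 286748) (nat_lit 9) (.e (nat_lit 336389) (nat_lit 27) (.e (nat_lit 426500) (nat_lit 27) .nil))))) .nil)) 
(.lf (nat_lit 272230) (.g (nat_lit 702) (.e (nat_lit 204805) (nat_lit 0) (.e (nat_lit 7096) (nat_lit 380) (.e (nat_lit 164351) (nat_lit 246) .nil))) .nil)))) (.nd (nat_lit 5) (.nd (nat_lit 6) 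
(.lf (nat_lit 272150) (.g (nat_lit 3326) (.e (nat_lit 196691) (nat_lit 18) (.e (nat_lit 1348) (nat_lit 102) (.e (nat_lit 286761) (nat_lit 13) (.e (nat_lit 393234) (nat_lit 17) (.e (nat_lit 3479) (nat_lit 218) .nil))))) .nil)) 
(.lf (nat_lit 272214) (.g (nat_lit 2073) (.e (nat_lit 196698) (nat_lit 19) (.e (nat_lit 57811) (nat_lit 246) (.e (nat_lit 57895) (nat_lit 272) (.e (nat_lit 16487) (nat_lit 27) (.e (nat_lit 336078) (nat_lit 9) (.e (nat_lit 336320) (nat_lit 17) .nil)))))) (.g (nat_lit 0) .nil .nil)))) (.nd (nat_lit 6) 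
(.lf (nat_lit 272182) (.g (nat_lit 1520) (.e (nat_lit 196691) (nat_lit 18) (.e (nat_lit 1349) (nat_lit 102) (.e (nat_lit 286761) (nat_lit 13) (.e (nat_lit 401152) (nat_lit 9) .nil)))) .nil)) 
(.lf (nat_lit 272246) (.g (nat_lit 2730) (.e (nat_lit 204805) (nat_lit 0) (.e (nat_lit 7098) (nat_lit 380) (.e (nat_lit 164356) (nat_lit 246) (.e (nat_lit 226) (nat_lit 21) (.e (nat_lit 336443) (nat_lit 32) (.e (nat_lit 466979) (nat_lit 23) .nil)))))) (.g (nat_lit 6) .nil .nil)))))) (.nd (nat_lit 4) (.nd (nat_lit 5) (.nd (nat_lit 6) 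
(.lf (nat_lit 272142) (.g (nat_lit 1129) (.e (nat_lit 196691) (nat_lit 18) (.e (nat_lit 1348) (nat_lit 102) (.e (nat_lit 286761) (nat_lit 13) (.e (nat_lit 393225) (nat_lit 9) .nil)))) .nil)) 
(.lf (nat_lit 272206) (.g (nat_lit 1517) (.e (nat_lit 204544) (nat_lit 18) (.e (nat_lit 2797) (nat_lit 180) (.e (nat_lit 303127) (nat_lit 9) (.e (nat_lit 426360) (nat_lit 15) (.e (nat_lit 1848) (nat_lit 124) .nil))))) .nil))) (.nd (nat_lit 6) 
(.lf (nat_lit 272174) (.g (nat_lit 2177) (.e (nat_lit 196691) (nat_lit 18) (.e (nat_lit 1349) (nat_lit 102) (.e (nat_lit 286759) (nat_lit 12) (.e (nat_lit 385068) (nat_lit 26) (.e (nat_lit 532515) (nat_lit 3) .nil))))) .nil)) 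
(.lf (nat_lit 272238) (.g (nat_lit 2721) (.e (nat_lit 204805) (nat_lit 0) (.e (nat_lit 7096) (nat_lit 380) (.e (nat_lit 164358) (nat_lit 246) (.e (nat_lit 226) (nat_lit 21) (.e (nat_lit 336443) (nat_lit 32) (.e (nat_lit 466979) (nat_lit 23) .nil)))))) (.g (nat_lit 6) .nil .nil))))) (.nd (nat_lit 5) (.nd (nat_lit 6) 
(.lf (nat_lit 272158) (.g (nat_lit 1126) (.e (nat_lit 196691) (nat_lit 18) (.e (nat_lit 1349) (nat_lit 102) (.e (nat_lit 286748) (nat_lit 9) (.e (nat_lit 336020) (nat_lit 3) .nil)))) .nil)) 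
(.lf (nat_lit 272222) (.g (nat_lit 2131) (.e (nat_lit 196698) (nat_lit 19) (.e (nat_lit 57897) (nat_lit 274) (.e (nat_lit 65571) (nat_lit 3) (.e (nat_lit 98356) (nat_lit 26) (.e (nat_lit 426448) (nat_lit 20) .nil))))) .nil))) (.nd (nat_lit 6) 
(.lf (nat_lit 272190) (.g (nat_lit 290) (.e (nat_lit 196691) (nat_lit 18) (.e (nat_lit 1359) (nat_lit 102) (.e (nat_lit 286743) (nat_lit 9) .nil))) .nil)) 
(.lf (nat_lit 272254) (.g (nat_lit 1156) (.e (nat_lit 204805) (nat_lit 0) (.e (nat_lit 7105) (nat_lit 380) (.e (nat_lit 164358) (nat_lit 246) (.e (nat_lit 351) (nat_lit 28) (.e (nat_lit 393277) (nat_lit 23) (.e (nat_lit 426135) (nat_lit 3) .nil)))))) (.g (nat_lit 0) .nil .nil))))))))) (.nd (nat_lit 1) (.nd (nat_lit 2) (.nd (nat_lit 3) (.nd (nat_lit 4) (.nd (nat_lit 5) (.nd (nat_lit 6) 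
(.lf (nat_lit 272129) (.g (nat_lit 1772) (.e (nat_lit 196691) (nat_lit 18) (.e (nat_lit 1015) (nat_lit 81) (.e (nat_lit 5409) (nat_lit 303) (.e (nat_lit 73747) (nat_lit 3) (.e (nat_lit 516169) (nat_lit 13) .nil))))) .nil)) 
(.lf (nat_lit 272193) (.g (nat_lit 1820) (.e (nat_lit 196691) (nat_lit 18) (.e (nat_lit 1359) (nat_lit 102) (.e (nat_lit 286756) (nat_lit 10) (.e (nat_lit 344117) (nat_lit 21) (.e (nat_lit 516171) (nat_lit 13) .nil))))) .nil))) (.nd (nat_lit 6) 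
(.lf (nat_lit 272161) (.g (nat_lit 1870) (.e (nat_lit 196691) (nat_lit 18) (.e (nat_lit 1349) (nat_lit 102) (.e (nat_lit 286748) (nat_lit 9) (.e (nat_lit 336028) (nat_lit 3) (.e (nat_lit 98354) (nat_lit 26) .nil))))) .nil)) 
(.lf (nat_lit 272225) (.g (nat_lit 749) (.e (nat_lit 204544) (nat_lit 21) (.e (nat_lit 164359) (nat_lit 246) (.e (nat_lit 2852) (nat_lit 184) (.e (nat_lit 426402) (nat_lit 15) .nil)))) .nil)))) (.nd (nat_lit 5) (.nd (nat_lit 6) 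
(.lf (nat_lit 272145) (.g (nat_lit 1762) (.e (nat_lit 196691) (nat_lit 18) (.e (nat_lit 1348) (nat_lit 102) (.e (nat_lit 286761) (nat_lit 13) (.e (nat_lit 393228) (nat_lit 9) .nil)))) .nil)) 
(.lf (nat_lit 272209) (.g (nat_lit 835) (.e (nat_lit 204544) (nat_lit 18) (.e (nat_lit 2815) (nat_lit 181) (.e (nat_lit 311324) (nat_lit 9) (.e (nat_lit 426402) (nat_lit 15) (.e (nat_lit 1859) (nat_lit 124) .nil))))) .nil))) (.nd (nat_lit 6) 
(.lf (nat_lit 272177) (.g (nat_lit 995) (.e (nat_lit 196691) (nat_lit 18) (.e (nat_lit 1349) (nat_lit 102) (.e (nat_lit 286760) (nat_lit 13) (.e (nat_lit 401152) (nat_lit 15) .nil)))) .nil)) 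
(.lf (nat_lit 272241) (.g (nat_lit 423) (.e (nat_lit 204805) (nat_lit 0) (.e (nat_lit 7098) (nat_lit 380) (.e (nat_lit 164351) (nat_lit 246) .nil))) .nil))))) (.nd (nat_lit 4) (.nd (nat_lit 5) (.nd (nat_lit 6) 
(.lf (nat_lit 272137) (.g (nat_lit 2295) (.e (nat_lit 196691) (nat_lit 18) (.e (nat_lit 1348) (nat_lit 102) (.e (nat_lit 286749) (nat_lit 9) (.e (nat_lit 336028) (nat_lit 3) (.e (nat_lit 98359) (nat_lit 26) .nil))))) .nil)) 
(.lf (nat_lit 272201) (.g (nat_lit 2445) (.e (nat_lit 196692) (nat_lit 18) (.e (nat_lit 1348) (nat_lit 102) (.e (nat_lit 286749) (nat_lit 9) (.e (nat_lit 336013) (nat_lit 2) (.e (nat_lit 90170) (nat_lit 13) .nil))))) .nil))) (.nd (nat_lit 6) 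
(.lf (nat_lit 272169) (.g (nat_lit 886) (.e (nat_lit 196691) (nat_lit 18) (.e (nat_lit 1349) (nat_lit 102) (.e (nat_lit 286758) (nat_lit 12) (.e (nat_lit 385068) (nat_lit 26) .nil)))) .nil)) 
(.lf (nat_lit 272233) (.g (nat_lit 1365) (.e (nat_lit 204805) (nat_lit 0) (.e (nat_lit 7096) (nat_lit 380) (.e (nat_lit 164354) (nat_lit 246) (.e (nat_lit 351) (nat_lit 28) (.e (nat_lit 393277) (nat_lit 23) (.e (nat_lit 426135) (nat_lit 3) .nil)))))) (.g (nat_lit 0) .nil .nil))))) (.nd (nat_lit 5) (.nd (nat_lit 6) 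
(.lf (nat_lit 272153) (.g (nat_lit 1837) (.e (nat_lit 196691) (nat_lit 18) (.e (nat_lit 1349) (nat_lit 102) (.e (nat_lit 286742) (nat_lit 9) (.e (nat_lit 336456) (nat_lit 34) (.e (nat_lit 491264) (nat_lit 3) (.e (nat_lit 221212) (nat_lit 22) .nil)))))) (.g (nat_lit 4) .nil .nil))) 
(.lf (nat_lit 272217) (.g (nat_lit 1991) (.e (nat_lit 196698) (nat_lit 19) (.e (nat_lit 57813) (nat_lit 246) (.e (nat_lit 57895) (nat_lit 272) (.e (nat_lit 16487) (nat_lit 27) (.e (nat_lit 336078) (nat_lit 9) (.e (nat_lit 336320) (nat_lit 17) .nil)))))) (.g (nat_lit 0) .nil .nil)))) (.nd (nat_lit 6) 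
(.lf (nat_lit 272185) (.g (nat_lit 2763) (.e (nat_lit 196691) (nat_lit 18) (.e (nat_lit 1349) (nat_lit 102) (.e (nat_lit 286761) (nat_lit 13) (.e (nat_lit 393234) (nat_lit 17) (.e (nat_lit 3473) (nat_lit 218) .nil))))) .nil)) 
(.lf (nat_lit 272249) (.g (nat_lit 2239) (.e (nat_lit 204805) (nat_lit 0) (.e (nat_lit 7098) (nat_lit 380) (.e (nat_lit 164358) (nat_lit 246) (.e (nat_lit 226) (nat_lit 21) (.e (nat_lit 336430) (nat_lit 29) (.e (nat_lit 442425) (nat_lit 23) .nil)))))) (.g (nat_lit 5) .nil .nil))))))) (.nd (nat_lit 3) (.nd (nat_lit 4) (.nd (nat_lit 5) (.nd (nat_lit 6) 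
(.lf (nat_lit 272133) (.g (nat_lit 3336) (.e (nat_lit 196691) (nat_lit 18) (.e (nat_lit 1348) (nat_lit 102) (.e (nat_lit 286747) (nat_lit 9) (.e (nat_lit 336013) (nat_lit 2) (.e (nat_lit 90185) (nat_lit 17) .nil))))) .nil)) 
(.lf (nat_lit 272197) (.g (nat_lit 460) (.e (nat_lit 196691) (nat_lit 18) (.e (nat_lit 1368) (nat_lit 103) (.e (nat_lit 294946) (nat_lit 9) .nil))) .nil))) (.nd (nat_lit 6) 
(.lf (nat_lit 272165) (.g (nat_lit 1873) (.e (nat_lit 196691) (nat_lit 18) (.e (nat_lit 1349) (nat_lit 102) (.e (nat_lit 286748) (nat_lit 9) (.e (nat_lit 336389) (nat_lit 27) (.e (nat_lit 426497) (nat_lit 27) .nil))))) .nil)) 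
(.lf (nat_lit 272229) (.g (nat_lit 1738) (.e (nat_lit 204803) (nat_lit 0) (.e (nat_lit 3632) (nat_lit 227) (.e (nat_lit 778317) (nat_lit 3) (.e (nat_lit 57464) (nat_lit 23) .nil)))) .nil)))) (.nd (nat_lit 5) (.nd (nat_lit 6) 
(.lf (nat_lit 272149) (.g (nat_lit 967) (.e (nat_lit 196691) (nat_lit 18) (.e (nat_lit 1348) (nat_lit 102) (.e (nat_lit 286761) (nat_lit 13) (.e (nat_lit 393234) (nat_lit 17) .nil)))) .nil)) 
(.lf (nat_lit 272213) (.g (nat_lit 2361) (.e (nat_lit 196698) (nat_lit 19) (.e (nat_lit 57811) (nat_lit 246) (.e (nat_lit 57895) (nat_lit 272) (.e (nat_lit 16487) (nat_lit 27) (.e (nat_lit 336076) (nat_lit 9) (.e (nat_lit 336320) (nat_lit 17) .nil)))))) (.g (nat_lit 0) .nil .nil)))) (.nd (nat_lit 6) 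
(.lf (nat_lit 272181) (.g (nat_lit 1876) (.e (nat_lit 196691) (nat_lit 18) (.e (nat_lit 1349) (nat_lit 102) (.e (nat_lit 286761) (nat_lit 13) (.e (nat_lit 393228) (nat_lit 9) .nil)))) .nil)) 
(.lf (nat_lit 272245) (.g (nat_lit 421) (.e (nat_lit 204805) (nat_lit 0) (.e (nat_lit 7098) (nat_lit 380) (.e (nat_lit 164355) (nat_lit 246) .nil))) .nil))))) (.nd (nat_lit 4) (.nd (nat_lit 5) (.nd (nat_lit 6) 
(.lf (nat_lit 272141) (.g (nat_lit 388) (.e (nat_lit 196691) (nat_lit 18) (.e (nat_lit 1348) (nat_lit 102) (.e (nat_lit 286761) (nat_lit 13) .nil))) .nil)) 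
(.lf (nat_lit 272205) (.g (nat_lit 942) (.e (nat_lit 204544) (nat_lit 18) (.e (nat_lit 2797) (nat_lit 180) (.e (nat_lit 303126) (nat_lit 9) (.e (nat_lit 426402) (nat_lit 15) (.e (nat_lit 1859) (nat_lit 124) .nil))))) .nil))) (.nd (nat_lit 6) 
(.lf (nat_lit 272173) (.g (nat_lit 2086) (.e (nat_lit 196691) (nat_lit 18) (.e (nat_lit 1349) (nat_lit 102) (.e (nat_lit 286759) (nat_lit 12) (.e (nat_lit 385068) (nat_lit 26) (.e (nat_lit 532513) (nat_lit 3) .nil))))) .nil)) 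
(.lf (nat_lit 272237) (.g (nat_lit 616) (.e (nat_lit 204805) (nat_lit 0) (.e (nat_lit 7096) (nat_lit 380) (.e (nat_lit 164358) (nat_lit 246) .nil))) .nil)))) (.nd (nat_lit 5) (.nd (nat_lit 6) 
(.lf (nat_lit 272157) (.g (nat_lit 2796) (.e (nat_lit 196691) (nat_lit 18) (.e (nat_lit 1349) (nat_lit 102) (.e (nat_lit 286748) (nat_lit 9) (.e (nat_lit 336013) (nat_lit 2) (.e (nat_lit 90185) (nat_lit 17) .nil))))) .nil)) 
(.lf (nat_lit 272221) (.g (nat_lit 2320) (.e (nat_lit 196698) (nat_lit 19) (.e (nat_lit 57816) (nat_lit 246) (.e (nat_lit 57895) (nat_lit 272) (.e (nat_lit 16487) (nat_lit 27) (.e (nat_lit 336076) (nat_lit 9) (.e (nat_lit 336320) (nat_lit 17) .nil)))))) (.g (nat_lit 0) .nil .nil)))) (.nd (nat_lit 6) 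
(.lf (nat_lit 272189) (.g (nat_lit 1495) (.e (nat_lit 196691) (nat_lit 18) (.e (nat_lit 1359) (nat_lit 102) (.e (nat_lit 286742) (nat_lit 9) (.e (nat_lit 336456) (nat_lit 34) (.e (nat_lit 491264) (nat_lit 3) (.e (nat_lit 221210) (nat_lit 22) .nil)))))) (.g (nat_lit 4) .nil .nil))) 
(.lf (nat_lit 272253) (.g (nat_lit 1327) (.e (nat_lit 204805) (nat_lit 0) (.e (nat_lit 7105) (nat_lit 380) (.e (nat_lit 164356) (nat_lit 246) (.e (nat_lit 351) (nat_lit 28) (.e (nat_lit 393277) (nat_lit 23) (.e (nat_lit 426135) (nat_lit 3) .nil)))))) (.g (nat_lit 0) .nil .nil)))))))) (.nd (nat_lit 2) (.nd (nat_lit 3) (.nd (nat_lit 4) (.nd (nat_lit 5) (.nd (nat_lit 6) 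
(.lf (nat_lit 272131) (.g (nat_lit 897) (.e (nat_lit 196691) (nat_lit 18) (.e (nat_lit 1348) (nat_lit 102) (.e (nat_lit 286742) (nat_lit 9) .nil))) .nil)) 
(.lf (nat_lit 272195) (.g (nat_lit 1577) (.e (nat_lit 196691) (nat_lit 18) (.e (nat_lit 1359) (nat_lit 102) (.e (nat_lit 286761) (nat_lit 13) (.e (nat_lit 393225) (nat_lit 9) .nil)))) .nil))) (.nd (nat_lit 6) 
(.lf (nat_lit 272163) (.g (nat_lit 1680) (.e (nat_lit 196691) (nat_lit 18) (.e (nat_lit 1349) (nat_lit 102) (.e (nat_lit 286748) (nat_lit 9) (.e (nat_lit 336295) (nat_lit 15) (.e (nat_lit 3253) (nat_lit 197) .nil))))) .nil)) 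
(.lf (nat_lit 272227) (.g (nat_lit 5426) (.e (nat_lit 196700) (nat_lit 22) (.e (nat_lit 229655) (nat_lit 233) (.e (nat_lit 8261) (nat_lit 45) (.e (nat_lit 778317) (nat_lit 3) (.e (nat_lit 57480) (nat_lit 28) (.e (nat_lit 557109) (nat_lit 15) (.e (nat_lit 188449) (nat_lit 22) .nil))))))) (.g (nat_lit 7) .nil .nil))))) (.nd (nat_lit 5) (.nd (nat_lit 6) 
(.lf (nat_lit 272147) (.g (nat_lit 1514) (.e (nat_lit 196691) (nat_lit 18) (.e (nat_lit 1348) (nat_lit 102) (.e (nat_lit 286761) (nat_lit 13) (.e (nat_lit 401152) (nat_lit 9) .nil)))) .nil)) 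
(.lf (nat_lit 272211) (.g (nat_lit 2255) (.e (nat_lit 196698) (nat_lit 19) (.e (nat_lit 57808) (nat_lit 246) (.e (nat_lit 57895) (nat_lit 272) (.e (nat_lit 16487) (nat_lit 27) (.e (nat_lit 336086) (nat_lit 9) (.e (nat_lit 336320) (nat_lit 17) .nil)))))) (.g (nat_lit 0) .nil .nil)))) (.nd (nat_lit 6) 
(.lf (nat_lit 272179) (.g (nat_lit 2178) (.e (nat_lit 196691) (nat_lit 18) (.e (nat_lit 1349) (nat_lit 102) (.e (nat_lit 286761) (nat_lit 13) (.e (nat_lit 393225) (nat_lit 9) (.e (nat_lit 343808) (nat_lit 20) .nil))))) .nil)) 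
(.lf (nat_lit 272243) (.g (nat_lit 1318) (.e (nat_lit 204805) (nat_lit 0) (.e (nat_lit 7098) (nat_lit 380) (.e (nat_lit 164353) (nat_lit 246) (.e (nat_lit 351) (nat_lit 28) (.e (nat_lit 393277) (nat_lit 23) (.e (nat_lit 426135) (nat_lit 3) .nil)))))) (.g (nat_lit 0) .nil .nil)))))) (.nd (nat_lit 4) (.nd (nat_lit 5) (.nd (nat_lit 6) 
(.lf (nat_lit 272139) (.g (nat_lit 1770) (.e (nat_lit 196691) (nat_lit 18) (.e (nat_lit 1348) (nat_lit 102) (.e (nat_lit 286759) (nat_lit 12) (.e (nat_lit 385068) (nat_lit 26) (.e (nat_lit 532513) (nat_lit 3) .nil))))) .nil)) 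
(.lf (nat_lit 272203) (.g (nat_lit 2469) (.e (nat_lit 196692) (nat_lit 18) (.e (nat_lit 1349) (nat_lit 102) (.e (nat_lit 286759) (nat_lit 12) (.e (nat_lit 385068) (nat_lit 26) (.e (nat_lit 532513) (nat_lit 3) .nil))))) .nil))) (.nd (nat_lit 6) 
(.lf (nat_lit 272171) (.g (nat_lit 1827) (.e (nat_lit 196691) (nat_lit 18) (.e (nat_lit 1349) (nat_lit 102) (.e (nat_lit 286759) (nat_lit 12) (.e (nat_lit 385066) (nat_lit 26) .nil)))) .nil)) 
(.lf (nat_lit 272235) (.g (nat_lit 1469) (.e (nat_lit 204805) (nat_lit 0) (.e (nat_lit 7096) (nat_lit 380) (.e (nat_lit 164356) (nat_lit 246) (.e (nat_lit 351) (nat_lit 28) .nil)))) .nil)))) (.nd (nat_lit 5) (.nd (nat_lit 6) 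
(.lf (nat_lit 272155) (.g (nat_lit 417) (.e (nat_lit 196691) (nat_lit 18) (.e (nat_lit 1349) (nat_lit 102) (.e (nat_lit 286748) (nat_lit 9) .nil))) .nil)) 
(.lf (nat_lit 272219) (.g (nat_lit 2334) (.e (nat_lit 196698) (nat_lit 19) (.e (nat_lit 57814) (nat_lit 246) (.e (nat_lit 57895) (nat_lit 272) (.e (nat_lit 16487) (nat_lit 27) (.e (nat_lit 336076) (nat_lit 9) (.e (nat_lit 336320) (nat_lit 17) .nil)))))) (.g (nat_lit 0) .nil .nil)))) (.nd (nat_lit 6) 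
(.lf (nat_lit 272187) (.g (nat_lit 1635) (.e (nat_lit 196691) (nat_lit 18) (.e (nat_lit 1349) (nat_lit 102) (.e (nat_lit 286761) (nat_lit 13) (.e (nat_lit 393258) (nat_lit 20) .nil)))) .nil)) 
(.lf (nat_lit 272251) (.g (nat_lit 2379) (.e (nat_lit 204805) (nat_lit 0) (.e (nat_lit 7098) (nat_lit 380) (.e (nat_lit 164358) (nat_lit 246) (.e (nat_lit 226) (nat_lit 21) (.e (nat_lit 336443) (nat_lit 32) (.e (nat_lit 466981) (nat_lit 23) .nil)))))) (.g (nat_lit 5) .nil .nil))))))) (.nd (nat_lit 3) (.nd (nat_lit 4) (.nd (nat_lit 5) (.nd (nat_lit 6) 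
(.lf (nat_lit 272135) (.g (nat_lit 2627) (.e (nat_lit 196691) (nat_lit 18) (.e (nat_lit 1348) (nat_lit 102) (.e (nat_lit 286748) (nat_lit 9) (.e (nat_lit 336028) (nat_lit 3) (.e (nat_lit 98367) (nat_lit 27) .nil))))) .nil)) 
(.lf (nat_lit 272199) (.g (nat_lit 1773) (.e (nat_lit 196691) (nat_lit 18) (.e (nat_lit 1368) (nat_lit 103) (.e (nat_lit 294958) (nat_lit 13) (.e (nat_lit 393229) (nat_lit 9) (.e (nat_lit 343808) (nat_lit 20) .nil))))) .nil))) (.nd (nat_lit 6) 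
(.lf (nat_lit 272167) (.g (nat_lit 3204) (.e (nat_lit 196691) (nat_lit 18) (.e (nat_lit 1349) (nat_lit 102) (.e (nat_lit 286749) (nat_lit 9) (.e (nat_lit 336013) (nat_lit 2) (.e (nat_lit 90185) (nat_lit 17) .nil))))) .nil)) 
(.lf (nat_lit 272231) (.g (nat_lit 780) (.e (nat_lit 204805) (nat_lit 0) (.e (nat_lit 7096) (nat_lit 380) (.e (nat_lit 164352) (nat_lit 246) .nil))) .nil)))) (.nd (nat_lit 5) (.nd (nat_lit 6) 
(.lf (nat_lit 272151) (.g (nat_lit 1525) (.e (nat_lit 196691) (nat_lit 18) (.e (nat_lit 1348) (nat_lit 102) (.e (nat_lit 286761) (nat_lit 13) (.e (nat_lit 393258) (nat_lit 20) .nil)))) .nil)) 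
(.lf (nat_lit 272215) (.g (nat_lit 2330) (.e (nat_lit 196698) (nat_lit 19) (.e (nat_lit 57811) (nat_lit 246) (.e (nat_lit 57895) (nat_lit 272) (.e (nat_lit 16487) (nat_lit 27) (.e (nat_lit 336086) (nat_lit 9) (.e (nat_lit 336320) (nat_lit 17) .nil)))))) (.g (nat_lit 0) .nil .nil)))) (.nd (nat_lit 6) 
(.lf (nat_lit 272183) (.g (nat_lit 1520) (.e (nat_lit 196691) (nat_lit 18) (.e (nat_lit 1349) (nat_lit 102) (.e (nat_lit 286761) (nat_lit 13) (.e (nat_lit 401152) (nat_lit 15) .nil)))) .nil)) 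
(.lf (nat_lit 272247) (.g (nat_lit 2792) (.e (nat_lit 204805) (nat_lit 0) (.e (nat_lit 7098) (nat_lit 380) (.e (nat_lit 164356) (nat_lit 246) (.e (nat_lit 226) (nat_lit 21) (.e (nat_lit 336443) (nat_lit 32) (.e (nat_lit 466981) (nat_lit 23) .nil)))))) (.g (nat_lit 6) .nil .nil)))))) (.nd (nat_lit 4) (.nd (nat_lit 5) (.nd (nat_lit 6) 
(.lf (nat_lit 272143) (.g (nat_lit 3523) (.e (nat_lit 196691) (nat_lit 18) (.e (nat_lit 1348) (nat_lit 102) (.e (nat_lit 286761) (nat_lit 13) (.e (nat_lit 393225) (nat_lit 9) (.e (nat_lit 336288) (nat_lit 15) .nil))))) .nil)) 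
(.lf (nat_lit 272207) (.g (nat_lit 1303) (.e (nat_lit 204544) (nat_lit 18) (.e (nat_lit 2797) (nat_lit 180) (.e (nat_lit 303127) (nat_lit 9) (.e (nat_lit 426364) (nat_lit 15) .nil)))) .nil))) (.nd (nat_lit 6) 
(.lf (nat_lit 272175) (.g (nat_lit 1057) (.e (nat_lit 196691) (nat_lit 18) (.e (nat_lit 1349) (nat_lit 102) (.e (nat_lit 286760) (nat_lit 13) (.e (nat_lit 393225) (nat_lit 9) .nil)))) .nil)) 
(.lf (nat_lit 272239) (.g (nat_lit 2786) (.e (nat_lit 204805) (nat_lit 0) (.e (nat_lit 7096) (nat_lit 380) (.e (nat_lit 164358) (nat_lit 246) (.e (nat_lit 226) (nat_lit 21) (.e (nat_lit 336443) (nat_lit 32) (.e (nat_lit 466981) (nat_lit 23) .nil)))))) (.g (nat_lit 6) .nil .nil))))) (.nd (nat_lit 5) (.nd (nat_lit 6) 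
(.lf (nat_lit 272159) (.g (nat_lit 1191) (.e (nat_lit 196691) (nat_lit 18) (.e (nat_lit 1349) (nat_lit 102) (.e (nat_lit 286748) (nat_lit 9) (.e (nat_lit 336023) (nat_lit 3) .nil)))) .nil)) 
(.lf (nat_lit 272223) (.g (nat_lit 1232) (.e (nat_lit 196698) (nat_lit 19) (.e (nat_lit 57897) (nat_lit 274) (.e (nat_lit 65571) (nat_lit 3) (.e (nat_lit 98384) (nat_lit 32) .nil)))) .nil))) (.nd (nat_lit 6) 
(.lf (nat_lit 272191) (.g (nat_lit 1547) (.e (nat_lit 196691) (nat_lit 18) (.e (nat_lit 1359) (nat_lit 102) (.e (nat_lit 286743) (nat_lit 9) (.e (nat_lit 336456) (nat_lit 34) (.e (nat_lit 491264) (nat_lit 3) .nil))))) .nil)) 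
(.lf (nat_lit 272255) (.g (nat_lit 1274) (.e (nat_lit 204805) (nat_lit 0) (.e (nat_lit 7106) (nat_lit 380) (.e (nat_lit 164356) (nat_lit 246) (.e (nat_lit 351) (nat_lit 28) (.e (nat_lit 393277) (nat_lit 23) (.e (nat_lit 426135) (nat_lit 3) .nil)))))) (.g (nat_lit 0) .nil .nil))))))))))

noncomputable def tv3492 : DT := (.nd (nat_lit 0) (.nd (nat_lit 1) (.nd (nat_lit 2) (.nd (nat_lit 3) (.nd (nat_lit 4) (.nd (nat_lit 5) 
(.lf (nat_lit 272256) (.g (nat_lit 1099) (.e (nat_lit 204805) (nat_lit 0) (.e (nat_lit 7106) (nat_lit 380) (.e (nat_lit 164358) (nat_lit 246) (.e (nat_lit 351) (nat_lit 28) (.e (nat_lit 393277) (nat_lit 23) (.e (nat_lit 426135) (nat_lit 3) .nil)))))) (.g (nat_lit 0) .nil .nil))) 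
(.lf (nat_lit 272288) (.g (nat_lit 589) (.e (nat_lit 204808) (nat_lit 9) (.e (nat_lit 426098) (nat_lit 1) (.e (nat_lit 164398) (nat_lit 256) .nil))) .nil))) (.nd (nat_lit 5) 
(.lf (nat_lit 272272) (.g (nat_lit 1798) (.e (nat_lit 212736) (nat_lit 1) (.e (nat_lit 164399) (nat_lit 256) (.e (nat_lit 57378) (nat_lit 3) (.e (nat_lit 98384) (nat_lit 32) .nil)))) .nil)) 
(.lf (nat_lit 272304) (.g (nat_lit 3142) (.e (nat_lit 204808) (nat_lit 9) (.e (nat_lit 426100) (nat_lit 1) (.e (nat_lit 164403) (nat_lit 256) (.e (nat_lit 57447) (nat_lit 19) (.e (nat_lit 393266) (nat_lit 23) .nil))))) .nil)))) (.nd (nat_lit 4) (.nd (nat_lit 5) 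
(.lf (nat_lit 272264) (.g (nat_lit 1170) (.e (nat_lit 212736) (nat_lit 1) (.e (nat_lit 164179) (nat_lit 154) (.e (nat_lit 57432) (nat_lit 16) (.e (nat_lit 368669) (nat_lit 19) (.e (nat_lit 499931) (nat_lit 11) .nil))))) .nil)) 
(.lf (nat_lit 272296) (.g (nat_lit 2456) (.e (nat_lit 204808) (nat_lit 9) (.e (nat_lit 426100) (nat_lit 1) (.e (nat_lit 164398) (nat_lit 256) (.e (nat_lit 57445) (nat_lit 19) (.e (nat_lit 393270) (nat_lit 23) .nil))))) .nil))) (.nd (nat_lit 5) 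
(.lf (nat_lit 272280) (.g (nat_lit 1501) (.e (nat_lit 212736) (nat_lit 5) (.e (nat_lit 253992) (nat_lit 11) (.e (nat_lit 16412) (nat_lit 2) (.e (nat_lit 196670) (nat_lit 14) .nil)))) .nil)) 
(.lf (nat_lit 272312) (.g (nat_lit 2945) (.e (nat_lit 204809) (nat_lit 9) (.e (nat_lit 426098) (nat_lit 1) (.e (nat_lit 164398) (nat_lit 256) (.e (nat_lit 57409) (nat_lit 12) (.e (nat_lit 336443) (nat_lit 32) (.e (nat_lit 466979) (nat_lit 23) .nil)))))) (.g (nat_lit 0) .nil .nil)))))) (.nd (nat_lit 3) (.nd (nat_lit 4) (.nd (nat_lit 5) 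
(.lf (nat_lit 272260) (.g (nat_lit 520) (.e (nat_lit 212736) (nat_lit 1) (.e (nat_lit 164179) (nat_lit 154) (.e (nat_lit 57411) (nat_lit 12) .nil))) .nil)) 
(.lf (nat_lit 272292) (.g (nat_lit 660) (.e (nat_lit 204808) (nat_lit 9) (.e (nat_lit 426100) (nat_lit 1) (.e (nat_lit 164398) (nat_lit 256) .nil))) .nil))) (.nd (nat_lit 5) 
(.lf (nat_lit 272276) (.g (nat_lit 277) (.e (nat_lit 212736) (nat_lit 3) (.e (nat_lit 221192) (nat_lit 11) (.e (nat_lit 336378) (nat_lit 27) (.e (nat_lit 426554) (nat_lit 32) (.e (nat_lit 384768) (nat_lit 3) .nil))))) .nil)) 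
(.lf (nat_lit 272308) (.g (nat_lit 2038) (.e (nat_lit 204808) (nat_lit 9) (.e (nat_lit 426108) (nat_lit 1) (.e (nat_lit 164401) (nat_lit 256) (.e (nat_lit 57447) (nat_lit 19) (.e (nat_lit 393271) (nat_lit 23) .nil))))) .nil)))) (.nd (nat_lit 4) (.nd (nat_lit 5) 
(.lf (nat_lit 272268) (.g (nat_lit 1379) (.e (nat_lit 212736) (nat_lit 1) (.e (nat_lit 164182) (nat_lit 154) (.e (nat_lit 57411) (nat_lit 12) (.e (nat_lit 336019) (nat_lit 3) .nil)))) .nil)) 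
(.lf (nat_lit 272300) (.g (nat_lit 1930) (.e (nat_lit 204808) (nat_lit 9) (.e (nat_lit 426100) (nat_lit 1) (.e (nat_lit 164399) (nat_lit 256) (.e (nat_lit 57447) (nat_lit 19) (.e (nat_lit 393275) (nat_lit 23) .nil))))) .nil))) (.nd (nat_lit 5) 
(.lf (nat_lit 272284) (.g (nat_lit 679) (.e (nat_lit 212736) (nat_lit 7) (.e (nat_lit 409648) (nat_lit 18) (.e (nat_lit 311040) (nat_lit 34) (.e (nat_lit 393274) (nat_lit 23) (.e (nat_lit 426132) (nat_lit 3) .nil))))) .nil)) 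
(.lf (nat_lit 272316) (.g (nat_lit 2237) (.e (nat_lit 204809) (nat_lit 9) (.e (nat_lit 426098) (nat_lit 1) (.e (nat_lit 164398) (nat_lit 256) (.e (nat_lit 57445) (nat_lit 19) (.e (nat_lit 393270) (nat_lit 23) .nil))))) .nil)))))) (.nd (nat_lit 2) (.nd (nat_lit 3) (.nd (nat_lit 4) (.nd (nat_lit 5) 
(.lf (nat_lit 272258) (.g (nat_lit 1925) (.e (nat_lit 212736) (nat_lit 0) (.e (nat_lit 7581) (nat_lit 405) (.e (nat_lit 57476) (nat_lit 28) (.e (nat_lit 557104) (nat_lit 14) (.e (nat_lit 180244) (nat_lit 5) .nil))))) .nil)) 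
(.lf (nat_lit 272290) (.g (nat_lit 483) (.e (nat_lit 204808) (nat_lit 9) (.e (nat_lit 426098) (nat_lit 1) (.e (nat_lit 164399) (nat_lit 256) .nil))) .nil))) (.nd (nat_lit 5) 
(.lf (nat_lit 272274) (.g (nat_lit 1980) (.e (nat_lit 212736) (nat_lit 1) (.e (nat_lit 164403) (nat_lit 256) (.e (nat_lit 57389) (nat_lit 5) (.e (nat_lit 114719) (nat_lit 23) (.e (nat_lit 98317) (nat_lit 9) .nil))))) .nil)) 
(.lf (nat_lit 272306) (.g (nat_lit 2665) (.e (nat_lit 204808) (nat_lit 9) (.e (nat_lit 426100) (nat_lit 1) (.e (nat_lit 164403) (nat_lit 256) (.e (nat_lit 57447) (nat_lit 19) (.e (nat_lit 393277) (nat_lit 23) .nil))))) .nil)))) (.nd (nat_lit 4) (.nd (nat_lit 5) 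
(.lf (nat_lit 272266) (.g (nat_lit 1270) (.e (nat_lit 212736) (nat_lit 1) (.e (nat_lit 164182) (nat_lit 154) (.e (nat_lit 57410) (nat_lit 12) (.e (nat_lit 336019) (nat_lit 3) (.e (nat_lit 98381) (nat_lit 31) .nil))))) .nil)) 
(.lf (nat_lit 272298) (.g (nat_lit 2851) (.e (nat_lit 204808) (nat_lit 9) (.e (nat_lit 426100) (nat_lit 1) (.e (nat_lit 164398) (nat_lit 256) (.e (nat_lit 57447) (nat_lit 19) (.e (nat_lit 393275) (nat_lit 23) (.e (nat_lit 426140) (nat_lit 3) .nil)))))) (.g (nat_lit 4) .nil .nil)))) (.nd (nat_lit 5) 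
(.lf (nat_lit 272282) (.g (nat_lit 383) (.e (nat_lit 212736) (nat_lit 7) (.e (nat_lit 409646) (nat_lit 18) (.e (nat_lit 311040) (nat_lit 34) .nil))) .nil)) 
(.lf (nat_lit 272314) (.g (nat_lit 3017) (.e (nat_lit 204809) (nat_lit 9) (.e (nat_lit 426098) (nat_lit 1) (.e (nat_lit 164398) (nat_lit 256) (.e (nat_lit 57411) (nat_lit 12) (.e (nat_lit 336443) (nat_lit 32) (.e (nat_lit 466981) (nat_lit 23) .nil)))))) (.g (nat_lit 0) .nil .nil)))))) (.nd (nat_lit 3) (.nd (nat_lit 4) (.nd (nat_lit 5) 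
(.lf (nat_lit 272262) (.g (nat_lit 531) (.e (nat_lit 212736) (nat_lit 1) (.e (nat_lit 164179) (nat_lit 154) (.e (nat_lit 57430) (nat_lit 16) .nil))) .nil)) 
(.lf (nat_lit 272294) (.g (nat_lit 2576) (.e (nat_lit 204808) (nat_lit 9) (.e (nat_lit 426100) (nat_lit 1) (.e (nat_lit 164398) (nat_lit 256) (.e (nat_lit 57409) (nat_lit 12) (.e (nat_lit 336430) (nat_lit 29) (.e (nat_lit 442425) (nat_lit 23) .nil)))))) (.g (nat_lit 4) .nil .nil)))) (.nd (nat_lit 5) 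
(.lf (nat_lit 272278) (.g (nat_lit 237) (.e (nat_lit 212736) (nat_lit 3) (.e (nat_lit 221192) (nat_lit 11) (.e (nat_lit 336402) (nat_lit 27) (.e (nat_lit 426554) (nat_lit 32) (.e (nat_lit 384768) (nat_lit 3) .nil))))) .nil)) 
(.lf (nat_lit 272310) (.g (nat_lit 544) (.e (nat_lit 204808) (nat_lit 9) (.e (nat_lit 426188) (nat_lit 9) (.e (nat_lit 426566) (nat_lit 34) .nil))) .nil)))) (.nd (nat_lit 4) (.nd (nat_lit 5) 
(.lf (nat_lit 272270) (.g (nat_lit 2787) (.e (nat_lit 212736) (nat_lit 1) (.e (nat_lit 164399) (nat_lit 256) (.e (nat_lit 57377) (nat_lit 3) (.e (nat_lit 98356) (nat_lit 26) (.e (nat_lit 426428) (nat_lit 17) .nil))))) .nil)) 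
(.lf (nat_lit 272302) (.g (nat_lit 2821) (.e (nat_lit 204808) (nat_lit 9) (.e (nat_lit 426100) (nat_lit 1) (.e (nat_lit 164403) (nat_lit 256) (.e (nat_lit 57409) (nat_lit 12) (.e (nat_lit 336430) (nat_lit 29) (.e (nat_lit 442425) (nat_lit 23) .nil)))))) (.g (nat_lit 4) .nil .nil)))) (.nd (nat_lit 5) 
(.lf (nat_lit 272286) (.g (nat_lit 383) (.e (nat_lit 212736) (nat_lit 7) (.e (nat_lit 409649) (nat_lit 18) (.e (nat_lit 311040) (nat_lit 34) .nil))) .nil)) 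
(.lf (nat_lit 272318) (.g (nat_lit 3503) (.e (nat_lit 204809) (nat_lit 9) (.e (nat_lit 426098) (nat_lit 1) (.e (nat_lit 164398) (nat_lit 256) (.e (nat_lit 57445) (nat_lit 19) (.e (nat_lit 393281) (nat_lit 23) (.e (nat_lit 426133) (nat_lit 3) .nil)))))) (.g (nat_lit 0) .nil .nil)))))))) (.nd (nat_lit 1) (.nd (nat_lit 2) (.nd (nat_lit 3) (.nd (nat_lit 4) (.nd (nat_lit 5) 
(.lf (nat_lit 272257) (.g (nat_lit 619) (.e (nat_lit 204806) (nat_lit 0) (.e (nat_lit 3632) (nat_lit 227) (.e (nat_lit 778246) (nat_lit 0) .nil))) .nil)) 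
(.lf (nat_lit 272289) (.g (nat_lit 2512) (.e (nat_lit 204808) (nat_lit 9) (.e (nat_lit 426098) (nat_lit 1) (.e (nat_lit 164398) (nat_lit 256) (.e (nat_lit 57447) (nat_lit 19) (.e (nat_lit 393266) (nat_lit 23) .nil))))) .nil))) (.nd (nat_lit 5) 
(.lf (nat_lit 272273) (.g (nat_lit 2295) (.e (nat_lit 212736) (nat_lit 1) (.e (nat_lit 164403) (nat_lit 256) (.e (nat_lit 57378) (nat_lit 3) (.e (nat_lit 98356) (nat_lit 26) (.e (nat_lit 426428) (nat_lit 17) .nil))))) .nil)) 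
(.lf (nat_lit 272305) (.g (nat_lit 3265) (.e (nat_lit 204808) (nat_lit 9) (.e (nat_lit 426100) (nat_lit 1) (.e (nat_lit 164403) (nat_lit 256) (.e (nat_lit 57447) (nat_lit 19) (.e (nat_lit 393275) (nat_lit 23) .nil))))) .nil)))) (.nd (nat_lit 4) (.nd (nat_lit 5) 
(.lf (nat_lit 272265) (.g (nat_lit 1353) (.e (nat_lit 212736) (nat_lit 1) (.e (nat_lit 164179) (nat_lit 154) (.e (nat_lit 57432) (nat_lit 16) (.e (nat_lit 368676) (nat_lit 21) (.e (nat_lit 516146) (nat_lit 9) .nil))))) .nil)) 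
(.lf (nat_lit 272297) (.g (nat_lit 1532) (.e (nat_lit 204808) (nat_lit 9) (.e (nat_lit 426100) (nat_lit 1) (.e (nat_lit 164398) (nat_lit 256) (.e (nat_lit 57447) (nat_lit 19) .nil)))) .nil))) (.nd (nat_lit 5) 
(.lf (nat_lit 272281) (.g (nat_lit 679) (.e (nat_lit 212736) (nat_lit 7) (.e (nat_lit 409645) (nat_lit 18) (.e (nat_lit 311040) (nat_lit 34) (.e (nat_lit 393274) (nat_lit 23) (.e (nat_lit 426132) (nat_lit 3) .nil))))) .nil)) 
(.lf (nat_lit 272313) (.g (nat_lit 2999) (.e (nat_lit 204809) (nat_lit 9) (.e (nat_lit 426098) (nat_lit 1) (.e (nat_lit 164398) (nat_lit 256) (.e (nat_lit 57409) (nat_lit 12) (.e (nat_lit 336443) (nat_lit 32) (.e (nat_lit 466981) (nat_lit 23) .nil)))))) (.g (nat_lit 0) .nil .nil)))))) (.nd (nat_lit 3) (.nd (nat_lit 4) (.nd (nat_lit 5) 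
(.lf (nat_lit 272261) (.g (nat_lit 1820) (.e (nat_lit 212736) (nat_lit 1) (.e (nat_lit 164179) (nat_lit 154) (.e (nat_lit 57411) (nat_lit 12) (.e (nat_lit 336019) (nat_lit 3) (.e (nat_lit 98381) (nat_lit 31) .nil))))) .nil)) 
(.lf (nat_lit 272293) (.g (nat_lit 2376) (.e (nat_lit 204808) (nat_lit 9) (.e (nat_lit 426100) (nat_lit 1) (.e (nat_lit 164398) (nat_lit 256) (.e (nat_lit 57407) (nat_lit 12) (.e (nat_lit 336443) (nat_lit 32) (.e (nat_lit 466981) (nat_lit 23) .nil)))))) (.g (nat_lit 4) .nil .nil)))) (.nd (nat_lit 5) 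
(.lf (nat_lit 272277) (.g (nat_lit 860) (.e (nat_lit 212736) (nat_lit 3) (.e (nat_lit 221192) (nat_lit 11) (.e (nat_lit 336390) (nat_lit 27) (.e (nat_lit 426500) (nat_lit 27) (.e (nat_lit 336076) (nat_lit 9) .nil))))) .nil)) 
(.lf (nat_lit 272309) (.g (nat_lit 2249) (.e (nat_lit 204808) (nat_lit 9) (.e (nat_lit 426108) (nat_lit 1) (.e (nat_lit 164403) (nat_lit 256) (.e (nat_lit 57447) (nat_lit 19) (.e (nat_lit 393275) (nat_lit 23) .nil))))) .nil)))) (.nd (nat_lit 4) (.nd (nat_lit 5) 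
(.lf (nat_lit 272269) (.g (nat_lit 1601) (.e (nat_lit 212736) (nat_lit 1) (.e (nat_lit 164183) (nat_lit 154) (.e (nat_lit 57411) (nat_lit 12) (.e (nat_lit 336019) (nat_lit 3) (.e (nat_lit 98381) (nat_lit 31) .nil))))) .nil)) 
(.lf (nat_lit 272301) (.g (nat_lit 859) (.e (nat_lit 204808) (nat_lit 9) (.e (nat_lit 426100) (nat_lit 1) (.e (nat_lit 164403) (nat_lit 256) .nil))) .nil))) (.nd (nat_lit 5) 
(.lf (nat_lit 272285) (.g (nat_lit 802) (.e (nat_lit 212736) (nat_lit 7) (.e (nat_lit 409649) (nat_lit 18) (.e (nat_lit 303105) (nat_lit 0) .nil))) .nil)) 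
(.lf (nat_lit 272317) (.g (nat_lit 2234) (.e (nat_lit 204809) (nat_lit 9) (.e (nat_lit 426098) (nat_lit 1) (.e (nat_lit 164398) (nat_lit 256) (.e (nat_lit 57445) (nat_lit 19) (.e (nat_lit 393279) (nat_lit 23) .nil))))) .nil)))))) (.nd (nat_lit 2) (.nd (nat_lit 3) (.nd (nat_lit 4) (.nd (nat_lit 5) 
(.lf (nat_lit 272259) (.g (nat_lit 1844) (.e (nat_lit 212736) (nat_lit 0) (.e (nat_lit 7581) (nat_lit 405) (.e (nat_lit 57480) (nat_lit 28) (.e (nat_lit 557098) (nat_lit 13) (.e (nat_lit 172067) (nat_lit 3) .nil))))) .nil)) 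
(.lf (nat_lit 272291) (.g (nat_lit 701) (.e (nat_lit 204808) (nat_lit 9) (.e (nat_lit 426098) (nat_lit 1) (.e (nat_lit 164403) (nat_lit 256) .nil))) .nil))) (.nd (nat_lit 5) 
(.lf (nat_lit 272275) (.g (nat_lit 231) (.e (nat_lit 212736) (nat_lit 3) (.e (nat_lit 221191) (nat_lit 11) (.e (nat_lit 336402) (nat_lit 27) (.e (nat_lit 426554) (nat_lit 32) (.e (nat_lit 384768) (nat_lit 3) .nil))))) .nil)) 
(.lf (nat_lit 272307) (.g (nat_lit 806) (.e (nat_lit 204808) (nat_lit 9) (.e (nat_lit 426107) (nat_lit 1) (.e (nat_lit 164403) (nat_lit 256) .nil))) .nil)))) (.nd (nat_lit 4) (.nd (nat_lit 5) 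
(.lf (nat_lit 272267) (.g (nat_lit 1664) (.e (nat_lit 212736) (nat_lit 1) (.e (nat_lit 164182) (nat_lit 154) (.e (nat_lit 57411) (nat_lit 12) (.e (nat_lit 336016) (nat_lit 2) .nil)))) .nil)) 
(.lf (nat_lit 272299) (.g (nat_lit 572) (.e (nat_lit 204808) (nat_lit 9) (.e (nat_lit 426100) (nat_lit 1) (.e (nat_lit 164399) (nat_lit 256) .nil))) .nil))) (.nd (nat_lit 5) 
(.lf (nat_lit 272283) (.g (nat_lit 534) (.e (nat_lit 212736) (nat_lit 7) (.e (nat_lit 409646) (nat_lit 18) (.e (nat_lit 311040) (nat_lit 34) (.e (nat_lit 393272) (nat_lit 23) (.e (nat_lit 426130) (nat_lit 3) .nil))))) .nil)) 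
(.lf (nat_lit 272315) (.g (nat_lit 1212) (.e (nat_lit 204809) (nat_lit 9) (.e (nat_lit 426098) (nat_lit 1) (.e (nat_lit 164398) (nat_lit 256) (.e (nat_lit 57444) (nat_lit 19) .nil)))) .nil))))) (.nd (nat_lit 3) (.nd (nat_lit 4) (.nd (nat_lit 5) 
(.lf (nat_lit 272263) (.g (nat_lit 509) (.e (nat_lit 212736) (nat_lit 1) (.e (nat_lit 164179) (nat_lit 154) (.e (nat_lit 57432) (nat_lit 16) .nil))) .nil)) 
(.lf (nat_lit 272295) (.g (nat_lit 2337) (.e (nat_lit 204808) (nat_lit 9) (.e (nat_lit 426100) (nat_lit 1) (.e (nat_lit 164398) (nat_lit 256) (.e (nat_lit 57409) (nat_lit 12) (.e (nat_lit 336443) (nat_lit 32) (.e (nat_lit 466981) (nat_lit 23) .nil)))))) (.g (nat_lit 4) .nil .nil)))) (.nd (nat_lit 5) 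
(.lf (nat_lit 272279) (.g (nat_lit 1262) (.e (nat_lit 212736) (nat_lit 5) (.e (nat_lit 253992) (nat_lit 11) (.e (nat_lit 16412) (nat_lit 2) (.e (nat_lit 196666) (nat_lit 13) .nil)))) .nil)) 
(.lf (nat_lit 272311) (.g (nat_lit 305) (.e (nat_lit 204809) (nat_lit 9) (.e (nat_lit 426098) (nat_lit 1) (.e (nat_lit 164398) (nat_lit 256) .nil))) .nil)))) (.nd (nat_lit 4) (.nd (nat_lit 5) 
(.lf (nat_lit 272271) (.g (nat_lit 2900) (.e (nat_lit 212736) (nat_lit 1) (.e (nat_lit 164399) (nat_lit 256) (.e (nat_lit 57377) (nat_lit 3) (.e (nat_lit 98356) (nat_lit 26) (.e (nat_lit 426438) (nat_lit 18) .nil))))) .nil)) 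
(.lf (nat_lit 272303) (.g (nat_lit 2032) (.e (nat_lit 204808) (nat_lit 9) (.e (nat_lit 426100) (nat_lit 1) (.e (nat_lit 164403) (nat_lit 256) (.e (nat_lit 57447) (nat_lit 19) .nil)))) .nil))) (.nd (nat_lit 5) 
(.lf (nat_lit 272287) (.g (nat_lit 749) (.e (nat_lit 204808) (nat_lit 9) (.e (nat_lit 426011) (nat_lit 0) (.e (nat_lit 3280) (nat_lit 200) .nil))) .nil)) 
(.lf (nat_lit 272319) (.g (nat_lit 1172) (.e (nat_lit 204809) (nat_lit 9) (.e (nat_lit 426098) (nat_lit 1) (.e (nat_lit 164398) (nat_lit 256) (.e (nat_lit 57446) (nat_lit 19) .nil)))) .nil))))))))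

noncomputable def tv3493 : DT := (.nd (nat_lit 0) (.nd (nat_lit 1) (.nd (nat_lit 2) (.nd (nat_lit 3) (.nd (nat_lit 4) (.nd (nat_lit 5) 
(.lf (nat_lit 272320) (.g (nat_lit 3456) (.e (nat_lit 204809) (nat_lit 9) (.e (nat_lit 426098) (nat_lit 1) (.e (nat_lit 164398) (nat_lit 256) (.e (nat_lit 57447) (nat_lit 19) (.e (nat_lit 393281) (nat_lit 23) (.e (nat_lit 426133) (nat_lit 3) .nil)))))) (.g (nat_lit 0) .nil .nil))) 
(.lf (nat_lit 272352) (.g (nat_lit 2571) (.e (nat_lit 204809) (nat_lit 9) (.e (nat_lit 426100) (nat_lit 1) (.e (nat_lit 164400) (nat_lit 256) (.e (nat_lit 57407) (nat_lit 12) (.e (nat_lit 336443) (nat_lit 32) .nil))))) .nil))) (.nd (nat_lit 5) 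
(.lf (nat_lit 272336) (.g (nat_lit 1136) (.e (nat_lit 204809) (nat_lit 9) (.e (nat_lit 426100) (nat_lit 1) (.e (nat_lit 164386) (nat_lit 254) .nil))) .nil)) 
(.lf (nat_lit 272368) (.g (nat_lit 2016) (.e (nat_lit 204809) (nat_lit 9) (.e (nat_lit 426107) (nat_lit 1) (.e (nat_lit 164396) (nat_lit 256) (.e (nat_lit 57411) (nat_lit 12) (.e (nat_lit 336443) (nat_lit 32) .nil))))) .nil)))) (.nd (nat_lit 4) (.nd (nat_lit 5) 
(.lf (nat_lit 272328) (.g (nat_lit 2483) (.e (nat_lit 204809) (nat_lit 9) (.e (nat_lit 426098) (nat_lit 1) (.e (nat_lit 164402) (nat_lit 256) (.e (nat_lit 57445) (nat_lit 19) (.e (nat_lit 393281) (nat_lit 23) (.e (nat_lit 426133) (nat_lit 3) .nil)))))) (.g (nat_lit 4) .nil .nil))) 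
(.lf (nat_lit 272360) (.g (nat_lit 2693) (.e (nat_lit 204809) (nat_lit 9) (.e (nat_lit 426100) (nat_lit 1) (.e (nat_lit 164403) (nat_lit 256) (.e (nat_lit 57447) (nat_lit 19) (.e (nat_lit 393277) (nat_lit 23) (.e (nat_lit 426135) (nat_lit 3) .nil)))))) (.g (nat_lit 4) .nil .nil)))) (.nd (nat_lit 5) 
(.lf (nat_lit 272344) (.g (nat_lit 1230) (.e (nat_lit 204809) (nat_lit 9) (.e (nat_lit 426100) (nat_lit 1) (.e (nat_lit 164398) (nat_lit 256) (.e (nat_lit 57446) (nat_lit 19) .nil)))) .nil)) 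
(.lf (nat_lit 272376) (.g (nat_lit 2440) (.e (nat_lit 204809) (nat_lit 9) (.e (nat_lit 426107) (nat_lit 1) (.e (nat_lit 164402) (nat_lit 256) (.e (nat_lit 57447) (nat_lit 19) (.e (nat_lit 393281) (nat_lit 23) (.e (nat_lit 426133) (nat_lit 3) .nil)))))) (.g (nat_lit 4) .nil .nil)))))) (.nd (nat_lit 3) (.nd (nat_lit 4) (.nd (nat_lit 5) 
(.lf (nat_lit 272324) (.g (nat_lit 3136) (.e (nat_lit 204809) (nat_lit 9) (.e (nat_lit 426098) (nat_lit 1) (.e (nat_lit 164399) (nat_lit 256) (.e (nat_lit 57447) (nat_lit 19) (.e (nat_lit 393281) (nat_lit 23) (.e (nat_lit 426133) (nat_lit 3) .nil)))))) (.g (nat_lit 0) .nil .nil))) 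
(.lf (nat_lit 272356) (.g (nat_lit 1137) (.e (nat_lit 204809) (nat_lit 9) (.e (nat_lit 426100) (nat_lit 1) (.e (nat_lit 164402) (nat_lit 256) .nil))) .nil))) (.nd (nat_lit 5) 
(.lf (nat_lit 272340) (.g (nat_lit 3128) (.e (nat_lit 204809) (nat_lit 9) (.e (nat_lit 426100) (nat_lit 1) (.e (nat_lit 164398) (nat_lit 256) (.e (nat_lit 57411) (nat_lit 12) (.e (nat_lit 336443) (nat_lit 32) (.e (nat_lit 466981) (nat_lit 23) .nil)))))) (.g (nat_lit 0) .nil .nil))) 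
(.lf (nat_lit 272372) (.g (nat_lit 2112) (.e (nat_lit 204809) (nat_lit 9) (.e (nat_lit 426107) (nat_lit 1) (.e (nat_lit 164401) (nat_lit 256) (.e (nat_lit 57447) (nat_lit 19) (.e (nat_lit 393277) (nat_lit 23) (.e (nat_lit 426135) (nat_lit 3) .nil)))))) (.g (nat_lit 0) .nil .nil))))) (.nd (nat_lit 4) (.nd (nat_lit 5) 
(.lf (nat_lit 272332) (.g (nat_lit 1820) (.e (nat_lit 204809) (nat_lit 9) (.e (nat_lit 426098) (nat_lit 1) (.e (nat_lit 164403) (nat_lit 256) (.e (nat_lit 57446) (nat_lit 19) (.e (nat_lit 393279) (nat_lit 23) .nil))))) .nil)) 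
(.lf (nat_lit 272364) (.g (nat_lit 991) (.e (nat_lit 204809) (nat_lit 9) (.e (nat_lit 426107) (nat_lit 1) (.e (nat_lit 164319) (nat_lit 228) (.e (nat_lit 57354) (nat_lit 0) .nil)))) .nil))) (.nd (nat_lit 5) 
(.lf (nat_lit 272348) (.g (nat_lit 1903) (.e (nat_lit 204809) (nat_lit 9) (.e (nat_lit 426100) (nat_lit 1) (.e (nat_lit 164399) (nat_lit 256) (.e (nat_lit 57445) (nat_lit 19) (.e (nat_lit 393279) (nat_lit 23) .nil))))) .nil)) 
(.lf (nat_lit 272380) (.g (nat_lit 958) (.e (nat_lit 204809) (nat_lit 9) (.e (nat_lit 426107) (nat_lit 1) (.e (nat_lit 164404) (nat_lit 257) (.e (nat_lit 122903) (nat_lit 12) .nil)))) .nil)))))) (.nd (nat_lit 2) (.nd (nat_lit 3) (.nd (nat_lit 4) (.nd (nat_lit 5) 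
(.lf (nat_lit 272322) (.g (nat_lit 2644) (.e (nat_lit 204809) (nat_lit 9) (.e (nat_lit 426098) (nat_lit 1) (.e (nat_lit 164399) (nat_lit 256) (.e (nat_lit 57409) (nat_lit 12) (.e (nat_lit 336443) (nat_lit 32) (.e (nat_lit 466981) (nat_lit 23) .nil)))))) (.g (nat_lit 0) .nil .nil))) 
(.lf (nat_lit 272354) (.g (nat_lit 1110) (.e (nat_lit 204809) (nat_lit 9) (.e (nat_lit 426100) (nat_lit 1) (.e (nat_lit 164401) (nat_lit 256) .nil))) .nil))) (.nd (nat_lit 5) 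
(.lf (nat_lit 272338) (.g (nat_lit 3047) (.e (nat_lit 204809) (nat_lit 9) (.e (nat_lit 426100) (nat_lit 1) (.e (nat_lit 164398) (nat_lit 256) (.e (nat_lit 57409) (nat_lit 12) (.e (nat_lit 336443) (nat_lit 32) (.e (nat_lit 466979) (nat_lit 23) .nil)))))) (.g (nat_lit 0) .nil .nil))) 
(.lf (nat_lit 272370) (.g (nat_lit 2862) (.e (nat_lit 204809) (nat_lit 9) (.e (nat_lit 426107) (nat_lit 1) (.e (nat_lit 164401) (nat_lit 256) (.e (nat_lit 57409) (nat_lit 12) (.e (nat_lit 336430) (nat_lit 29) (.e (nat_lit 442427) (nat_lit 23) .nil)))))) (.g (nat_lit 0) .nil .nil))))) (.nd (nat_lit 4) (.nd (nat_lit 5) 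
(.lf (nat_lit 272330) (.g (nat_lit 2461) (.e (nat_lit 204809) (nat_lit 9) (.e (nat_lit 426098) (nat_lit 1) (.e (nat_lit 164403) (nat_lit 256) (.e (nat_lit 57408) (nat_lit 12) (.e (nat_lit 336443) (nat_lit 32) (.e (nat_lit 466979) (nat_lit 23) .nil)))))) (.g (nat_lit 5) .nil .nil))) 
(.lf (nat_lit 272362) (.g (nat_lit 1657) (.e (nat_lit 204809) (nat_lit 9) (.e (nat_lit 426105) (nat_lit 1) (.e (nat_lit 164403) (nat_lit 256) (.e (nat_lit 57409) (nat_lit 12) (.e (nat_lit 336430) (nat_lit 29) (.e (nat_lit 442425) (nat_lit 23) .nil)))))) (.g (nat_lit 4) .nil .nil)))) (.nd (nat_lit 5) 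
(.lf (nat_lit 272346) (.g (nat_lit 3544) (.e (nat_lit 204809) (nat_lit 9) (.e (nat_lit 426100) (nat_lit 1) (.e (nat_lit 164398) (nat_lit 256) (.e (nat_lit 57447) (nat_lit 19) (.e (nat_lit 393281) (nat_lit 23) (.e (nat_lit 426133) (nat_lit 3) .nil)))))) (.g (nat_lit 0) .nil .nil))) 
(.lf (nat_lit 272378) (.g (nat_lit 1574) (.e (nat_lit 204809) (nat_lit 9) (.e (nat_lit 426107) (nat_lit 1) (.e (nat_lit 164403) (nat_lit 256) (.e (nat_lit 57446) (nat_lit 19) (.e (nat_lit 393279) (nat_lit 23) .nil))))) .nil))))) (.nd (nat_lit 3) (.nd (nat_lit 4) (.nd (nat_lit 5) 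
(.lf (nat_lit 272326) (.g (nat_lit 716) (.e (nat_lit 204809) (nat_lit 9) (.e (nat_lit 426098) (nat_lit 1) (.e (nat_lit 164401) (nat_lit 256) .nil))) .nil)) 
(.lf (nat_lit 272358) (.g (nat_lit 2599) (.e (nat_lit 204809) (nat_lit 9) (.e (nat_lit 426100) (nat_lit 1) (.e (nat_lit 164403) (nat_lit 256) (.e (nat_lit 57445) (nat_lit 19) (.e (nat_lit 393279) (nat_lit 23) .nil))))) .nil))) (.nd (nat_lit 5) 
(.lf (nat_lit 272342) (.g (nat_lit 2248) (.e (nat_lit 204809) (nat_lit 9) (.e (nat_lit 426100) (nat_lit 1) (.e (nat_lit 164398) (nat_lit 256) (.e (nat_lit 57445) (nat_lit 19) (.e (nat_lit 393270) (nat_lit 23) .nil))))) .nil)) 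
(.lf (nat_lit 272374) (.g (nat_lit 2575) (.e (nat_lit 204809) (nat_lit 9) (.e (nat_lit 426107) (nat_lit 1) (.e (nat_lit 164402) (nat_lit 256) (.e (nat_lit 57409) (nat_lit 12) (.e (nat_lit 336443) (nat_lit 32) (.e (nat_lit 466979) (nat_lit 23) .nil)))))) (.g (nat_lit 5) .nil .nil))))) (.nd (nat_lit 4) (.nd (nat_lit 5) 
(.lf (nat_lit 272334) (.g (nat_lit 1720) (.e (nat_lit 204809) (nat_lit 9) (.e (nat_lit 426099) (nat_lit 1) (.e (nat_lit 164399) (nat_lit 256) (.e (nat_lit 57447) (nat_lit 19) (.e (nat_lit 393277) (nat_lit 23) (.e (nat_lit 426135) (nat_lit 3) .nil)))))) (.g (nat_lit 4) .nil .nil))) 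
(.lf (nat_lit 272366) (.g (nat_lit 756) (.e (nat_lit 204809) (nat_lit 9) (.e (nat_lit 426107) (nat_lit 1) (.e (nat_lit 164396) (nat_lit 256) .nil))) .nil))) (.nd (nat_lit 5) 
(.lf (nat_lit 272350) (.g (nat_lit 3286) (.e (nat_lit 204809) (nat_lit 9) (.e (nat_lit 426100) (nat_lit 1) (.e (nat_lit 164399) (nat_lit 256) (.e (nat_lit 57447) (nat_lit 19) (.e (nat_lit 393281) (nat_lit 23) (.e (nat_lit 426133) (nat_lit 3) .nil)))))) (.g (nat_lit 0) .nil .nil))) 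
(.lf (nat_lit 272382) (.g (nat_lit 2034) (.e (nat_lit 204809) (nat_lit 9) (.e (nat_lit 426108) (nat_lit 1) (.e (nat_lit 164396) (nat_lit 256) (.e (nat_lit 57411) (nat_lit 12) (.e (nat_lit 336443) (nat_lit 32) .nil))))) .nil))))))) (.nd (nat_lit 1) (.nd (nat_lit 2) (.nd (nat_lit 3) (.nd (nat_lit 4) (.nd (nat_lit 5) 
(.lf (nat_lit 272321) (.g (nat_lit 3314) (.e (nat_lit 204809) (nat_lit 9) (.e (nat_lit 426098) (nat_lit 1) (.e (nat_lit 164398) (nat_lit 256) (.e (nat_lit 57448) (nat_lit 19) (.e (nat_lit 393281) (nat_lit 23) (.e (nat_lit 426133) (nat_lit 3) .nil)))))) (.g (nat_lit 0) .nil .nil))) 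
(.lf (nat_lit 272353) (.g (nat_lit 2355) (.e (nat_lit 204809) (nat_lit 9) (.e (nat_lit 426100) (nat_lit 1) (.e (nat_lit 164400) (nat_lit 256) (.e (nat_lit 57411) (nat_lit 12) (.e (nat_lit 336443) (nat_lit 32) .nil))))) .nil))) (.nd (nat_lit 5) 
(.lf (nat_lit 272337) (.g (nat_lit 3275) (.e (nat_lit 204809) (nat_lit 9) (.e (nat_lit 426100) (nat_lit 1) (.e (nat_lit 164398) (nat_lit 256) (.e (nat_lit 57407) (nat_lit 12) (.e (nat_lit 336443) (nat_lit 32) (.e (nat_lit 466981) (nat_lit 23) .nil)))))) (.g (nat_lit 6) .nil .nil))) 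
(.lf (nat_lit 272369) (.g (nat_lit 2089) (.e (nat_lit 204809) (nat_lit 9) (.e (nat_lit 426107) (nat_lit 1) (.e (nat_lit 164396) (nat_lit 256) (.e (nat_lit 57411) (nat_lit 12) (.e (nat_lit 336443) (nat_lit 32) (.e (nat_lit 466979) (nat_lit 23) .nil)))))) (.g (nat_lit 4) .nil .nil))))) (.nd (nat_lit 4) (.nd (nat_lit 5) 
(.lf (nat_lit 272329) (.g (nat_lit 2941) (.e (nat_lit 204809) (nat_lit 9) (.e (nat_lit 426098) (nat_lit 1) (.e (nat_lit 164403) (nat_lit 256) (.e (nat_lit 57406) (nat_lit 12) (.e (nat_lit 336443) (nat_lit 32) (.e (nat_lit 466979) (nat_lit 23) .nil)))))) (.g (nat_lit 5) .nil .nil))) 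
(.lf (nat_lit 272361) (.g (nat_lit 1129) (.e (nat_lit 204809) (nat_lit 9) (.e (nat_lit 426100) (nat_lit 1) (.e (nat_lit 164405) (nat_lit 257) .nil))) .nil))) (.nd (nat_lit 5) 
(.lf (nat_lit 272345) (.g (nat_lit 2382) (.e (nat_lit 204809) (nat_lit 9) (.e (nat_lit 426100) (nat_lit 1) (.e (nat_lit 164398) (nat_lit 256) (.e (nat_lit 57447) (nat_lit 19) (.e (nat_lit 393270) (nat_lit 23) .nil))))) .nil)) 
(.lf (nat_lit 272377) (.g (nat_lit 1611) (.e (nat_lit 204809) (nat_lit 9) (.e (nat_lit 426107) (nat_lit 1) (.e (nat_lit 164403) (nat_lit 256) (.e (nat_lit 57444) (nat_lit 19) .nil)))) .nil))))) (.nd (nat_lit 3) (.nd (nat_lit 4) (.nd (nat_lit 5) 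
(.lf (nat_lit 272325) (.g (nat_lit 721) (.e (nat_lit 204809) (nat_lit 9) (.e (nat_lit 426098) (nat_lit 1) (.e (nat_lit 164400) (nat_lit 256) .nil))) .nil)) 
(.lf (nat_lit 272357) (.g (nat_lit 3434) (.e (nat_lit 204809) (nat_lit 9) (.e (nat_lit 426100) (nat_lit 1) (.e (nat_lit 164403) (nat_lit 256) (.e (nat_lit 57409) (nat_lit 12) (.e (nat_lit 336443) (nat_lit 32) (.e (nat_lit 466981) (nat_lit 23) .nil)))))) (.g (nat_lit 0) .nil .nil)))) (.nd (nat_lit 5) 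
(.lf (nat_lit 272341) (.g (nat_lit 1342) (.e (nat_lit 204809) (nat_lit 9) (.e (nat_lit 426100) (nat_lit 1) (.e (nat_lit 164398) (nat_lit 256) (.e (nat_lit 57444) (nat_lit 19) .nil)))) .nil)) 
(.lf (nat_lit 272373) (.g (nat_lit 3173) (.e (nat_lit 204809) (nat_lit 9) (.e (nat_lit 426107) (nat_lit 1) (.e (nat_lit 164401) (nat_lit 256) (.e (nat_lit 57447) (nat_lit 19) (.e (nat_lit 393281) (nat_lit 23) (.e (nat_lit 426133) (nat_lit 3) .nil)))))) (.g (nat_lit 0) .nil .nil))))) (.nd (nat_lit 4) (.nd (nat_lit 5) 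
(.lf (nat_lit 272333) (.g (nat_lit 1224) (.e (nat_lit 204809) (nat_lit 9) (.e (nat_lit 426099) (nat_lit 1) (.e (nat_lit 164399) (nat_lit 256) (.e (nat_lit 57446) (nat_lit 19) (.e (nat_lit 393279) (nat_lit 23) .nil))))) .nil)) 
(.lf (nat_lit 272365) (.g (nat_lit 770) (.e (nat_lit 204809) (nat_lit 9) (.e (nat_lit 426107) (nat_lit 1) (.e (nat_lit 164391) (nat_lit 254) .nil))) .nil))) (.nd (nat_lit 5) 
(.lf (nat_lit 272349) (.g (nat_lit 1338) (.e (nat_lit 204809) (nat_lit 9) (.e (nat_lit 426100) (nat_lit 1) (.e (nat_lit 164399) (nat_lit 256) (.e (nat_lit 57446) (nat_lit 19) (.e (nat_lit 393279) (nat_lit 23) .nil))))) .nil)) 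
(.lf (nat_lit 272381) (.g (nat_lit 958) (.e (nat_lit 204809) (nat_lit 9) (.e (nat_lit 426107) (nat_lit 1) (.e (nat_lit 164404) (nat_lit 257) (.e (nat_lit 122925) (nat_lit 19) .nil)))) .nil)))))) (.nd (nat_lit 2) (.nd (nat_lit 3) (.nd (nat_lit 4) (.nd (nat_lit 5) 
(.lf (nat_lit 272323) (.g (nat_lit 1276) (.e (nat_lit 204809) (nat_lit 9) (.e (nat_lit 426098) (nat_lit 1) (.e (nat_lit 164399) (nat_lit 256) (.e (nat_lit 57446) (nat_lit 19) (.e (nat_lit 393279) (nat_lit 23) .nil))))) .nil)) 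
(.lf (nat_lit 272355) (.g (nat_lit 1321) (.e (nat_lit 204809) (nat_lit 9) (.e (nat_lit 426100) (nat_lit 1) (.e (nat_lit 164401) (nat_lit 256) (.e (nat_lit 57447) (nat_lit 19) .nil)))) .nil))) (.nd (nat_lit 5) 
(.lf (nat_lit 272339) (.g (nat_lit 3101) (.e (nat_lit 204809) (nat_lit 9) (.e (nat_lit 426100) (nat_lit 1) (.e (nat_lit 164398) (nat_lit 256) (.e (nat_lit 57409) (nat_lit 12) (.e (nat_lit 336443) (nat_lit 32) (.e (nat_lit 466981) (nat_lit 23) .nil)))))) (.g (nat_lit 0) .nil .nil))) 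
(.lf (nat_lit 272371) (.g (nat_lit 3133) (.e (nat_lit 204809) (nat_lit 9) (.e (nat_lit 426107) (nat_lit 1) (.e (nat_lit 164401) (nat_lit 256) (.e (nat_lit 57447) (nat_lit 19) (.e (nat_lit 393271) (nat_lit 23) (.e (nat_lit 426131) (nat_lit 3) .nil)))))) (.g (nat_lit 0) .nil .nil))))) (.nd (nat_lit 4) (.nd (nat_lit 5) 
(.lf (nat_lit 272331) (.g (nat_lit 2493) (.e (nat_lit 204809) (nat_lit 9) (.e (nat_lit 426098) (nat_lit 1) (.e (nat_lit 164403) (nat_lit 256) (.e (nat_lit 57408) (nat_lit 12) (.e (nat_lit 336443) (nat_lit 32) (.e (nat_lit 466981) (nat_lit 23) .nil)))))) (.g (nat_lit 5) .nil .nil))) 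
(.lf (nat_lit 272363) (.g (nat_lit 1791) (.e (nat_lit 204809) (nat_lit 9) (.e (nat_lit 426105) (nat_lit 1) (.e (nat_lit 164403) (nat_lit 256) (.e (nat_lit 57447) (nat_lit 19) (.e (nat_lit 393279) (nat_lit 23) (.e (nat_lit 426129) (nat_lit 3) .nil)))))) (.g (nat_lit 4) .nil .nil)))) (.nd (nat_lit 5) 
(.lf (nat_lit 272347) (.g (nat_lit 2805) (.e (nat_lit 204809) (nat_lit 9) (.e (nat_lit 426100) (nat_lit 1) (.e (nat_lit 164399) (nat_lit 256) (.e (nat_lit 57409) (nat_lit 12) (.e (nat_lit 336443) (nat_lit 32) (.e (nat_lit 466981) (nat_lit 23) .nil)))))) (.g (nat_lit 0) .nil .nil))) 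
(.lf (nat_lit 272379) (.g (nat_lit 3499) (.e (nat_lit 204809) (nat_lit 9) (.e (nat_lit 426107) (nat_lit 1) (.e (nat_lit 164403) (nat_lit 256) (.e (nat_lit 57447) (nat_lit 19) (.e (nat_lit 393281) (nat_lit 23) (.e (nat_lit 426133) (nat_lit 3) .nil)))))) (.g (nat_lit 0) .nil .nil)))))) (.nd (nat_lit 3) (.nd (nat_lit 4) (.nd (nat_lit 5) 
(.lf (nat_lit 272327) (.g (nat_lit 716) (.e (nat_lit 204809) (nat_lit 9) (.e (nat_lit 426098) (nat_lit 1) (.e (nat_lit 164402) (nat_lit 256) .nil))) .nil)) 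
(.lf (nat_lit 272359) (.g (nat_lit 2126) (.e (nat_lit 204809) (nat_lit 9) (.e (nat_lit 426100) (nat_lit 1) (.e (nat_lit 164403) (nat_lit 256) (.e (nat_lit 57446) (nat_lit 19) (.e (nat_lit 393279) (nat_lit 23) .nil))))) .nil))) (.nd (nat_lit 5) 
(.lf (nat_lit 272343) (.g (nat_lit 2245) (.e (nat_lit 204809) (nat_lit 9) (.e (nat_lit 426100) (nat_lit 1) (.e (nat_lit 164398) (nat_lit 256) (.e (nat_lit 57445) (nat_lit 19) (.e (nat_lit 393279) (nat_lit 23) .nil))))) .nil)) 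
(.lf (nat_lit 272375) (.g (nat_lit 2676) (.e (nat_lit 204809) (nat_lit 9) (.e (nat_lit 426107) (nat_lit 1) (.e (nat_lit 164402) (nat_lit 256) (.e (nat_lit 57409) (nat_lit 12) (.e (nat_lit 336443) (nat_lit 32) (.e (nat_lit 466981) (nat_lit 23) .nil)))))) (.g (nat_lit 5) .nil .nil))))) (.nd (nat_lit 4) (.nd (nat_lit 5) 
(.lf (nat_lit 272335) (.g (nat_lit 1146) (.e (nat_lit 204809) (nat_lit 9) (.e (nat_lit 426100) (nat_lit 1) (.e (nat_lit 164381) (nat_lit 254) .nil))) .nil)) 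
(.lf (nat_lit 272367) (.g (nat_lit 2108) (.e (nat_lit 204809) (nat_lit 9) (.e (nat_lit 426107) (nat_lit 1) (.e (nat_lit 164396) (nat_lit 256) (.e (nat_lit 57407) (nat_lit 12) (.e (nat_lit 336443) (nat_lit 32) .nil))))) .nil))) (.nd (nat_lit 5) 
(.lf (nat_lit 272351) (.g (nat_lit 1062) (.e (nat_lit 204809) (nat_lit 9) (.e (nat_lit 426100) (nat_lit 1) (.e (nat_lit 164400) (nat_lit 256) .nil))) .nil)) 
(.lf (nat_lit 272383) (.g (nat_lit 338) (.e (nat_lit 204809) (nat_lit 9) (.e (nat_lit 426108) (nat_lit 1) (.e (nat_lit 164401) (nat_lit 256) .nil))) .nil))))))))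

noncomputable def tv3494 : DT := (.nd (nat_lit 0) (.nd (nat_lit 1) (.nd (nat_lit 2) (.nd (nat_lit 3) (.nd (nat_lit 4) (.nd (nat_lit 5) (.nd (nat_lit 6) 
(.lf (nat_lit 272384) (.g (nat_lit 2581) (.e (nat_lit 204809) (nat_lit 9) (.e (nat_lit 426108) (nat_lit 1) (.e (nat_lit 164401) (nat_lit 256) (.e (nat_lit 57447) (nat_lit 19) (.e (nat_lit 393270) (nat_lit 23) (.e (nat_lit 426131) (nat_lit 3) .nil)))))) (.g (nat_lit 4) .nil .nil))) 
(.lf (nat_lit 272448) (.g (nat_lit 2173) (.e (nat_lit 204812) (nat_lit 9) (.e (nat_lit 426100) (nat_lit 1) (.e (nat_lit 164399) (nat_lit 256) (.e (nat_lit 57445) (nat_lit 19) (.e (nat_lit 393270) (nat_lit 23) .nil))))) .nil))) (.nd (nat_lit 6) 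
(.lf (nat_lit 272416) (.g (nat_lit 1585) (.e (nat_lit 204809) (nat_lit 9) (.e (nat_lit 426139) (nat_lit 3) (.e (nat_lit 204830) (nat_lit 18) (.e (nat_lit 57692) (nat_lit 156) .nil)))) .nil)) 
(.lf (nat_lit 272480) (.g (nat_lit 1227) (.e (nat_lit 204813) (nat_lit 9) (.e (nat_lit 426100) (nat_lit 1) (.e (nat_lit 164398) (nat_lit 256) (.e (nat_lit 57445) (nat_lit 19) .nil)))) .nil)))) (.nd (nat_lit 5) (.nd (nat_lit 6) 
(.lf (nat_lit 272400) (.g (nat_lit 557) (.e (nat_lit 204809) (nat_lit 9) (.e (nat_lit 426124) (nat_lit 2) (.e (nat_lit 196677) (nat_lit 16) .nil))) .nil)) 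
(.lf (nat_lit 272464) (.g (nat_lit 2638) (.e (nat_lit 204813) (nat_lit 9) (.e (nat_lit 426098) (nat_lit 1) (.e (nat_lit 164398) (nat_lit 256) (.e (nat_lit 57447) (nat_lit 19) (.e (nat_lit 393280) (nat_lit 23) .nil))))) .nil))) (.nd (nat_lit 6) 
(.lf (nat_lit 272432) (.g (nat_lit 2466) (.e (nat_lit 204810) (nat_lit 9) (.e (nat_lit 426435) (nat_lit 18) (.e (nat_lit 98358) (nat_lit 26) (.e (nat_lit 426131) (nat_lit 3) (.e (nat_lit 204838) (nat_lit 20) (.e (nat_lit 122624) (nat_lit 3) .nil)))))) (.g (nat_lit 5) .nil .nil))) 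
(.lf (nat_lit 272496) (.g (nat_lit 3252) (.e (nat_lit 204813) (nat_lit 9) (.e (nat_lit 426100) (nat_lit 1) (.e (nat_lit 164403) (nat_lit 256) (.e (nat_lit 57409) (nat_lit 12) (.e (nat_lit 336443) (nat_lit 32) (.e (nat_lit 466979) (nat_lit 23) .nil)))))) (.g (nat_lit 5) .nil .nil)))))) (.nd (nat_lit 4) (.nd (nat_lit 5) (.nd (nat_lit 6) 
(.lf (nat_lit 272392) (.g (nat_lit 3451) (.e (nat_lit 204809) (nat_lit 9) (.e (nat_lit 426108) (nat_lit 1) (.e (nat_lit 164403) (nat_lit 256) (.e (nat_lit 57447) (nat_lit 19) (.e (nat_lit 393281) (nat_lit 23) (.e (nat_lit 426133) (nat_lit 3) .nil)))))) (.g (nat_lit 0) .nil .nil))) 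
(.lf (nat_lit 272456) (.g (nat_lit 1950) (.e (nat_lit 204812) (nat_lit 9) (.e (nat_lit 426133) (nat_lit 3) (.e (nat_lit 204813) (nat_lit 9) (.e (nat_lit 426009) (nat_lit 0) .nil)))) .nil))) (.nd (nat_lit 6) 
(.lf (nat_lit 272424) (.g (nat_lit 2429) (.e (nat_lit 204809) (nat_lit 9) (.e (nat_lit 433920) (nat_lit 17) (.e (nat_lit 90172) (nat_lit 14) (.e (nat_lit 180244) (nat_lit 5) (.e (nat_lit 532513) (nat_lit 3) (.e (nat_lit 122624) (nat_lit 3) .nil)))))) (.g (nat_lit 5) .nil .nil))) 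
(.lf (nat_lit 272488) (.g (nat_lit 3132) (.e (nat_lit 204813) (nat_lit 9) (.e (nat_lit 426100) (nat_lit 1) (.e (nat_lit 164398) (nat_lit 256) (.e (nat_lit 57447) (nat_lit 19) (.e (nat_lit 393274) (nat_lit 23) (.e (nat_lit 426132) (nat_lit 3) .nil)))))) (.g (nat_lit 4) .nil .nil))))) (.nd (nat_lit 5) (.nd (nat_lit 6) 
(.lf (nat_lit 272408) (.g (nat_lit 980) (.e (nat_lit 204809) (nat_lit 9) (.e (nat_lit 426139) (nat_lit 3) (.e (nat_lit 204824) (nat_lit 17) .nil))) .nil)) 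
(.lf (nat_lit 272472) (.g (nat_lit 456) (.e (nat_lit 204813) (nat_lit 9) (.e (nat_lit 426100) (nat_lit 1) (.e (nat_lit 164398) (nat_lit 256) .nil))) .nil))) (.nd (nat_lit 6) 
(.lf (nat_lit 272440) (.g (nat_lit 868) (.e (nat_lit 204812) (nat_lit 9) (.e (nat_lit 426098) (nat_lit 1) (.e (nat_lit 164399) (nat_lit 256) .nil))) .nil)) 
(.lf (nat_lit 272504) (.g (nat_lit 2739) (.e (nat_lit 204813) (nat_lit 9) (.e (nat_lit 426100) (nat_lit 1) (.e (nat_lit 164403) (nat_lit 256) (.e (nat_lit 57447) (nat_lit 19) (.e (nat_lit 393280) (nat_lit 23) .nil))))) .nil)))))) (.nd (nat_lit 3) (.nd (nat_lit 4) (.nd (nat_lit 5) (.nd (nat_lit 6) 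
(.lf (nat_lit 272388) (.g (nat_lit 658) (.e (nat_lit 204809) (nat_lit 9) (.e (nat_lit 426108) (nat_lit 1) (.e (nat_lit 164402) (nat_lit 256) .nil))) .nil)) 
(.lf (nat_lit 272452) (.g (nat_lit 812) (.e (nat_lit 204812) (nat_lit 9) (.e (nat_lit 426107) (nat_lit 1) (.e (nat_lit 164403) (nat_lit 256) .nil))) .nil))) (.nd (nat_lit 6) 
(.lf (nat_lit 272420) (.g (nat_lit 2900) (.e (nat_lit 204809) (nat_lit 9) (.e (nat_lit 426139) (nat_lit 3) (.e (nat_lit 204831) (nat_lit 18) (.e (nat_lit 57692) (nat_lit 156) (.e (nat_lit 171776) (nat_lit 64) .nil))))) .nil)) 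
(.lf (nat_lit 272484) (.g (nat_lit 1340) (.e (nat_lit 204813) (nat_lit 9) (.e (nat_lit 426100) (nat_lit 1) (.e (nat_lit 164398) (nat_lit 256) (.e (nat_lit 57447) (nat_lit 19) .nil)))) .nil)))) (.nd (nat_lit 5) (.nd (nat_lit 6) 
(.lf (nat_lit 272404) (.g (nat_lit 887) (.e (nat_lit 204809) (nat_lit 9) (.e (nat_lit 426139) (nat_lit 3) (.e (nat_lit 204815) (nat_lit 17) .nil))) .nil)) 
(.lf (nat_lit 272468) (.g (nat_lit 707) (.e (nat_lit 204813) (nat_lit 9) (.e (nat_lit 426098) (nat_lit 1) (.e (nat_lit 164403) (nat_lit 256) .nil))) .nil))) (.nd (nat_lit 6) 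
(.lf (nat_lit 272436) (.g (nat_lit 814) (.e (nat_lit 204811) (nat_lit 9) (.e (nat_lit 426110) (nat_lit 1) (.e (nat_lit 164403) (nat_lit 256) .nil))) .nil)) 
(.lf (nat_lit 272500) (.g (nat_lit 3627) (.e (nat_lit 204813) (nat_lit 9) (.e (nat_lit 426100) (nat_lit 1) (.e (nat_lit 164403) (nat_lit 256) (.e (nat_lit 57447) (nat_lit 19) (.e (nat_lit 393238) (nat_lit 17) (.e (nat_lit 7349) (nat_lit 388) (.e (nat_lit 2682) (nat_lit 168) .nil))))))) (.g (nat_lit 4) .nil .nil)))))) (.nd (nat_lit 4) (.nd (nat_lit 5) (.nd (nat_lit 6) 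
(.lf (nat_lit 272396) (.g (nat_lit 641) (.e (nat_lit 204809) (nat_lit 9) (.e (nat_lit 426123) (nat_lit 2) (.e (nat_lit 196698) (nat_lit 19) .nil))) .nil)) 
(.lf (nat_lit 272460) (.g (nat_lit 741) (.e (nat_lit 204813) (nat_lit 9) (.e (nat_lit 426011) (nat_lit 0) (.e (nat_lit 3208) (nat_lit 195) .nil))) .nil))) (.nd (nat_lit 6) 
(.lf (nat_lit 272428) (.g (nat_lit 1555) (.e (nat_lit 204809) (nat_lit 9) (.e (nat_lit 433920) (nat_lit 18) (.e (nat_lit 98376) (nat_lit 30) (.e (nat_lit 458789) (nat_lit 23) (.e (nat_lit 532515) (nat_lit 3) (.e (nat_lit 122624) (nat_lit 3) .nil)))))) (.g (nat_lit 5) .nil .nil))) 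
(.lf (nat_lit 272492) (.g (nat_lit 1847) (.e (nat_lit 204813) (nat_lit 9) (.e (nat_lit 426100) (nat_lit 1) (.e (nat_lit 164399) (nat_lit 256) (.e (nat_lit 57407) (nat_lit 12) (.e (nat_lit 336444) (nat_lit 32) (.e (nat_lit 466980) (nat_lit 23) .nil)))))) (.g (nat_lit 4) .nil .nil))))) (.nd (nat_lit 5) (.nd (nat_lit 6) 
(.lf (nat_lit 272412) (.g (nat_lit 2829) (.e (nat_lit 204809) (nat_lit 9) (.e (nat_lit 426139) (nat_lit 3) (.e (nat_lit 204829) (nat_lit 18) (.e (nat_lit 57692) (nat_lit 156) (.e (nat_lit 171776) (nat_lit 63) .nil))))) .nil)) 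
(.lf (nat_lit 272476) (.g (nat_lit 2766) (.e (nat_lit 204813) (nat_lit 9) (.e (nat_lit 426100) (nat_lit 1) (.e (nat_lit 164398) (nat_lit 256) (.e (nat_lit 57409) (nat_lit 12) (.e (nat_lit 336443) (nat_lit 32) (.e (nat_lit 466979) (nat_lit 23) .nil)))))) (.g (nat_lit 5) .nil .nil)))) (.nd (nat_lit 6) 
(.lf (nat_lit 272444) (.g (nat_lit 2712) (.e (nat_lit 204812) (nat_lit 9) (.e (nat_lit 426100) (nat_lit 1) (.e (nat_lit 164398) (nat_lit 256) (.e (nat_lit 57407) (nat_lit 12) (.e (nat_lit 336443) (nat_lit 32) (.e (nat_lit 466981) (nat_lit 23) .nil)))))) (.g (nat_lit 5) .nil .nil))) 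
(.lf (nat_lit 272508) (.g (nat_lit 1114) (.e (nat_lit 204813) (nat_lit 9) (.e (nat_lit 426107) (nat_lit 1) (.e (nat_lit 164401) (nat_lit 256) (.e (nat_lit 57447) (nat_lit 19) .nil)))) .nil))))))) (.nd (nat_lit 2) (.nd (nat_lit 3) (.nd (nat_lit 4) (.nd (nat_lit 5) (.nd (nat_lit 6) 
(.lf (nat_lit 272386) (.g (nat_lit 2434) (.e (nat_lit 204809) (nat_lit 9) (.e (nat_lit 426108) (nat_lit 1) (.e (nat_lit 164401) (nat_lit 256) (.e (nat_lit 57447) (nat_lit 19) (.e (nat_lit 393277) (nat_lit 23) (.e (nat_lit 426135) (nat_lit 3) .nil)))))) (.g (nat_lit 0) .nil .nil))) 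
(.lf (nat_lit 272450) (.g (nat_lit 1906) (.e (nat_lit 204812) (nat_lit 9) (.e (nat_lit 426100) (nat_lit 1) (.e (nat_lit 164403) (nat_lit 256) (.e (nat_lit 57447) (nat_lit 19) .nil)))) .nil))) (.nd (nat_lit 6) 
(.lf (nat_lit 272418) (.g (nat_lit 980) (.e (nat_lit 204809) (nat_lit 9) (.e (nat_lit 426139) (nat_lit 3) (.e (nat_lit 204831) (nat_lit 18) .nil))) .nil)) 
(.lf (nat_lit 272482) (.g (nat_lit 2249) (.e (nat_lit 204813) (nat_lit 9) (.e (nat_lit 426100) (nat_lit 1) (.e (nat_lit 164398) (nat_lit 256) (.e (nat_lit 57445) (nat_lit 19) (.e (nat_lit 393274) (nat_lit 23) .nil))))) .nil)))) (.nd (nat_lit 5) (.nd (nat_lit 6) 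
(.lf (nat_lit 272402) (.g (nat_lit 962) (.e (nat_lit 204809) (nat_lit 9) (.e (nat_lit 426139) (nat_lit 3) (.e (nat_lit 204801) (nat_lit 0) .nil))) .nil)) 
(.lf (nat_lit 272466) (.g (nat_lit 2472) (.e (nat_lit 204813) (nat_lit 9) (.e (nat_lit 426098) (nat_lit 1) (.e (nat_lit 164399) (nat_lit 256) (.e (nat_lit 57407) (nat_lit 12) (.e (nat_lit 336426) (nat_lit 29) (.e (nat_lit 442426) (nat_lit 23) .nil)))))) (.g (nat_lit 4) .nil .nil)))) (.nd (nat_lit 6) 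
(.lf (nat_lit 272434) (.g (nat_lit 814) (.e (nat_lit 204811) (nat_lit 9) (.e (nat_lit 426110) (nat_lit 1) (.e (nat_lit 164398) (nat_lit 256) .nil))) .nil)) 
(.lf (nat_lit 272498) (.g (nat_lit 2531) (.e (nat_lit 204813) (nat_lit 9) (.e (nat_lit 426100) (nat_lit 1) (.e (nat_lit 164403) (nat_lit 256) (.e (nat_lit 57446) (nat_lit 19) (.e (nat_lit 393274) (nat_lit 23) .nil))))) .nil))))) (.nd (nat_lit 4) (.nd (nat_lit 5) (.nd (nat_lit 6) 
(.lf (nat_lit 272394) (.g (nat_lit 1144) (.e (nat_lit 204809) (nat_lit 9) (.e (nat_lit 426108) (nat_lit 1) (.e (nat_lit 164404) (nat_lit 257) (.e (nat_lit 122904) (nat_lit 12) .nil)))) .nil)) 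
(.lf (nat_lit 272458) (.g (nat_lit 1249) (.e (nat_lit 204812) (nat_lit 9) (.e (nat_lit 426200) (nat_lit 9) (.e (nat_lit 426566) (nat_lit 34) (.e (nat_lit 393251) (nat_lit 18) .nil)))) .nil))) (.nd (nat_lit 6) 
(.lf (nat_lit 272426) (.g (nat_lit 2740) (.e (nat_lit 204809) (nat_lit 9) (.e (nat_lit 433920) (nat_lit 18) (.e (nat_lit 98358) (nat_lit 26) (.e (nat_lit 426131) (nat_lit 3) (.e (nat_lit 204838) (nat_lit 20) (.e (nat_lit 122624) (nat_lit 3) .nil)))))) (.g (nat_lit 5) .nil .nil))) 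
(.lf (nat_lit 272490) (.g (nat_lit 403) (.e (nat_lit 204813) (nat_lit 9) (.e (nat_lit 426100) (nat_lit 1) (.e (nat_lit 164399) (nat_lit 256) .nil))) .nil)))) (.nd (nat_lit 5) (.nd (nat_lit 6) 
(.lf (nat_lit 272410) (.g (nat_lit 1786) (.e (nat_lit 204809) (nat_lit 9) (.e (nat_lit 426139) (nat_lit 3) (.e (nat_lit 204829) (nat_lit 18) (.e (nat_lit 57688) (nat_lit 156) .nil)))) .nil)) 
(.lf (nat_lit 272474) (.g (nat_lit 2767) (.e (nat_lit 204813) (nat_lit 9) (.e (nat_lit 426100) (nat_lit 1) (.e (nat_lit 164398) (nat_lit 256) (.e (nat_lit 57409) (nat_lit 12) (.e (nat_lit 336430) (nat_lit 29) (.e (nat_lit 442425) (nat_lit 23) .nil)))))) (.g (nat_lit 4) .nil .nil)))) (.nd (nat_lit 6) 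
(.lf (nat_lit 272442) (.g (nat_lit 2575) (.e (nat_lit 204812) (nat_lit 9) (.e (nat_lit 426099) (nat_lit 1) (.e (nat_lit 164399) (nat_lit 256) (.e (nat_lit 57447) (nat_lit 19) (.e (nat_lit 393271) (nat_lit 23) (.e (nat_lit 426131) (nat_lit 3) .nil)))))) (.g (nat_lit 6) .nil .nil))) 
(.lf (nat_lit 272506) (.g (nat_lit 1565) (.e (nat_lit 204813) (nat_lit 9) (.e (nat_lit 426107) (nat_lit 1) (.e (nat_lit 164347) (nat_lit 240) (.e (nat_lit 2617) (nat_lit 164) .nil)))) .nil)))))) (.nd (nat_lit 3) (.nd (nat_lit 4) (.nd (nat_lit 5) (.nd (nat_lit 6) 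
(.lf (nat_lit 272390) (.g (nat_lit 1708) (.e (nat_lit 204809) (nat_lit 9) (.e (nat_lit 426108) (nat_lit 1) (.e (nat_lit 164403) (nat_lit 256) (.e (nat_lit 57444) (nat_lit 19) .nil)))) .nil)) 
(.lf (nat_lit 272454) (.g (nat_lit 2876) (.e (nat_lit 204812) (nat_lit 9) (.e (nat_lit 426107) (nat_lit 1) (.e (nat_lit 164403) (nat_lit 256) (.e (nat_lit 57445) (nat_lit 19) (.e (nat_lit 393273) (nat_lit 23) .nil))))) .nil))) (.nd (nat_lit 6) 
(.lf (nat_lit 272422) (.g (nat_lit 1622) (.e (nat_lit 204809) (nat_lit 9) (.e (nat_lit 426200) (nat_lit 9) (.e (nat_lit 426564) (nat_lit 34) (.e (nat_lit 393251) (nat_lit 18) (.e (nat_lit 164325) (nat_lit 230) .nil))))) .nil)) 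
(.lf (nat_lit 272486) (.g (nat_lit 2159) (.e (nat_lit 204813) (nat_lit 9) (.e (nat_lit 426100) (nat_lit 1) (.e (nat_lit 164398) (nat_lit 256) (.e (nat_lit 57447) (nat_lit 19) (.e (nat_lit 393271) (nat_lit 23) .nil))))) .nil)))) (.nd (nat_lit 5) (.nd (nat_lit 6) 
(.lf (nat_lit 272406) (.g (nat_lit 651) (.e (nat_lit 204809) (nat_lit 9) (.e (nat_lit 426139) (nat_lit 3) (.e (nat_lit 204821) (nat_lit 17) .nil))) .nil)) 
(.lf (nat_lit 272470) (.g (nat_lit 1445) (.e (nat_lit 204813) (nat_lit 9) (.e (nat_lit 426098) (nat_lit 1) (.e (nat_lit 164403) (nat_lit 256) (.e (nat_lit 57447) (nat_lit 19) .nil)))) .nil))) (.nd (nat_lit 6) 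
(.lf (nat_lit 272438) (.g (nat_lit 2574) (.e (nat_lit 204811) (nat_lit 9) (.e (nat_lit 426435) (nat_lit 18) (.e (nat_lit 98358) (nat_lit 26) (.e (nat_lit 426131) (nat_lit 3) (.e (nat_lit 204837) (nat_lit 20) (.e (nat_lit 122624) (nat_lit 3) .nil)))))) (.g (nat_lit 5) .nil .nil))) 
(.lf (nat_lit 272502) (.g (nat_lit 3038) (.e (nat_lit 204813) (nat_lit 9) (.e (nat_lit 426100) (nat_lit 1) (.e (nat_lit 164403) (nat_lit 256) (.e (nat_lit 57447) (nat_lit 19) (.e (nat_lit 393274) (nat_lit 23) (.e (nat_lit 426132) (nat_lit 3) .nil)))))) (.g (nat_lit 4) .nil .nil)))))) (.nd (nat_lit 4) (.nd (nat_lit 5) (.nd (nat_lit 6) 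
(.lf (nat_lit 272398) (.g (nat_lit 669) (.e (nat_lit 204809) (nat_lit 9) (.e (nat_lit 426124) (nat_lit 2) (.e (nat_lit 196651) (nat_lit 10) .nil))) .nil)) 
(.lf (nat_lit 272462) (.g (nat_lit 1415) (.e (nat_lit 204813) (nat_lit 9) (.e (nat_lit 426098) (nat_lit 1) (.e (nat_lit 164398) (nat_lit 256) (.e (nat_lit 57447) (nat_lit 19) .nil)))) .nil))) (.nd (nat_lit 6) 
(.lf (nat_lit 272430) (.g (nat_lit 2083) (.e (nat_lit 204810) (nat_lit 9) (.e (nat_lit 426429) (nat_lit 17) (.e (nat_lit 90174) (nat_lit 14) (.e (nat_lit 180243) (nat_lit 5) (.e (nat_lit 532513) (nat_lit 3) (.e (nat_lit 122624) (nat_lit 3) .nil)))))) (.g (nat_lit 5) .nil .nil))) 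
(.lf (nat_lit 272494) (.g (nat_lit 1870) (.e (nat_lit 204813) (nat_lit 9) (.e (nat_lit 426100) (nat_lit 1) (.e (nat_lit 164403) (nat_lit 256) (.e (nat_lit 57406) (nat_lit 12) .nil)))) .nil)))) (.nd (nat_lit 5) (.nd (nat_lit 6) 
(.lf (nat_lit 272414) (.g (nat_lit 2229) (.e (nat_lit 204809) (nat_lit 9) (.e (nat_lit 426139) (nat_lit 3) (.e (nat_lit 204829) (nat_lit 18) (.e (nat_lit 65280) (nat_lit 166) .nil)))) .nil)) 
(.lf (nat_lit 272478) (.g (nat_lit 2847) (.e (nat_lit 204813) (nat_lit 9) (.e (nat_lit 426100) (nat_lit 1) (.e (nat_lit 164398) (nat_lit 256) (.e (nat_lit 57411) (nat_lit 12) (.e (nat_lit 336443) (nat_lit 32) (.e (nat_lit 466979) (nat_lit 23) .nil)))))) (.g (nat_lit 5) .nil .nil)))) (.nd (nat_lit 6) 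
(.lf (nat_lit 272446) (.g (nat_lit 3015) (.e (nat_lit 204812) (nat_lit 9) (.e (nat_lit 426100) (nat_lit 1) (.e (nat_lit 164398) (nat_lit 256) (.e (nat_lit 57447) (nat_lit 19) (.e (nat_lit 393270) (nat_lit 23) .nil))))) .nil)) 
(.lf (nat_lit 272510) (.g (nat_lit 2049) (.e (nat_lit 204813) (nat_lit 9) (.e (nat_lit 426107) (nat_lit 1) (.e (nat_lit 164401) (nat_lit 256) (.e (nat_lit 57447) (nat_lit 19) (.e (nat_lit 393274) (nat_lit 23) .nil))))) .nil)))))))) (.nd (nat_lit 1) (.nd (nat_lit 2) (.nd (nat_lit 3) (.nd (nat_lit 4) (.nd (nat_lit 5) (.nd (nat_lit 6) 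
(.lf (nat_lit 272385) (.g (nat_lit 2022) (.e (nat_lit 204809) (nat_lit 9) (.e (nat_lit 426108) (nat_lit 1) (.e (nat_lit 164401) (nat_lit 256) (.e (nat_lit 57447) (nat_lit 19) (.e (nat_lit 393274) (nat_lit 23) (.e (nat_lit 426132) (nat_lit 3) .nil)))))) (.g (nat_lit 4) .nil .nil))) 
(.lf (nat_lit 272449) (.g (nat_lit 2500) (.e (nat_lit 204812) (nat_lit 9) (.e (nat_lit 426100) (nat_lit 1) (.e (nat_lit 164403) (nat_lit 256) (.e (nat_lit 57409) (nat_lit 12) (.e (nat_lit 336443) (nat_lit 32) (.e (nat_lit 466981) (nat_lit 23) .nil)))))) (.g (nat_lit 4) .nil .nil)))) (.nd (nat_lit 6) 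
(.lf (nat_lit 272417) (.g (nat_lit 2040) (.e (nat_lit 204809) (nat_lit 9) (.e (nat_lit 426139) (nat_lit 3) (.e (nat_lit 204830) (nat_lit 18) (.e (nat_lit 65280) (nat_lit 166) .nil)))) .nil)) 
(.lf (nat_lit 272481) (.g (nat_lit 2252) (.e (nat_lit 204813) (nat_lit 9) (.e (nat_lit 426100) (nat_lit 1) (.e (nat_lit 164398) (nat_lit 256) (.e (nat_lit 57445) (nat_lit 19) (.e (nat_lit 393270) (nat_lit 23) .nil))))) .nil)))) (.nd (nat_lit 5) (.nd (nat_lit 6) 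
(.lf (nat_lit 272401) (.g (nat_lit 798) (.e (nat_lit 204809) (nat_lit 9) (.e (nat_lit 426124) (nat_lit 2) (.e (nat_lit 196691) (nat_lit 18) .nil))) .nil)) 
(.lf (nat_lit 272465) (.g (nat_lit 313) (.e (nat_lit 204813) (nat_lit 9) (.e (nat_lit 426098) (nat_lit 1) (.e (nat_lit 164399) (nat_lit 256) .nil))) .nil))) (.nd (nat_lit 6) 
(.lf (nat_lit 272433) (.g (nat_lit 637) (.e (nat_lit 204811) (nat_lit 9) (.e (nat_lit 426110) (nat_lit 1) (.e (nat_lit 164386) (nat_lit 254) .nil))) .nil)) 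
(.lf (nat_lit 272497) (.g (nat_lit 1890) (.e (nat_lit 204813) (nat_lit 9) (.e (nat_lit 426100) (nat_lit 1) (.e (nat_lit 164403) (nat_lit 256) (.e (nat_lit 57445) (nat_lit 19) .nil)))) .nil))))) (.nd (nat_lit 4) (.nd (nat_lit 5) (.nd (nat_lit 6) 
(.lf (nat_lit 272393) (.g (nat_lit 869) (.e (nat_lit 204809) (nat_lit 9) (.e (nat_lit 426108) (nat_lit 1) (.e (nat_lit 164404) (nat_lit 257) .nil))) .nil)) 
(.lf (nat_lit 272457) (.g (nat_lit 1706) (.e (nat_lit 204812) (nat_lit 9) (.e (nat_lit 426198) (nat_lit 9) (.e (nat_lit 426568) (nat_lit 34) (.e (nat_lit 393253) (nat_lit 18) .nil)))) .nil))) (.nd (nat_lit 6) 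
(.lf (nat_lit 272425) (.g (nat_lit 2946) (.e (nat_lit 204809) (nat_lit 9) (.e (nat_lit 433920) (nat_lit 18) (.e (nat_lit 98358) (nat_lit 26) (.e (nat_lit 426131) (nat_lit 3) (.e (nat_lit 204837) (nat_lit 20) (.e (nat_lit 122624) (nat_lit 3) .nil)))))) (.g (nat_lit 5) .nil .nil))) 
(.lf (nat_lit 272489) (.g (nat_lit 2151) (.e (nat_lit 204813) (nat_lit 9) (.e (nat_lit 426100) (nat_lit 1) (.e (nat_lit 164398) (nat_lit 256) (.e (nat_lit 57447) (nat_lit 19) (.e (nat_lit 393279) (nat_lit 23) .nil))))) .nil)))) (.nd (nat_lit 5) (.nd (nat_lit 6) 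
(.lf (nat_lit 272409) (.g (nat_lit 976) (.e (nat_lit 204809) (nat_lit 9) (.e (nat_lit 426139) (nat_lit 3) (.e (nat_lit 204825) (nat_lit 17) .nil))) .nil)) 
(.lf (nat_lit 272473) (.g (nat_lit 3026) (.e (nat_lit 204813) (nat_lit 9) (.e (nat_lit 426100) (nat_lit 1) (.e (nat_lit 164398) (nat_lit 256) (.e (nat_lit 57407) (nat_lit 12) (.e (nat_lit 336443) (nat_lit 32) (.e (nat_lit 466979) (nat_lit 23) .nil)))))) (.g (nat_lit 5) .nil .nil)))) (.nd (nat_lit 6) 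
(.lf (nat_lit 272441) (.g (nat_lit 1440) (.e (nat_lit 204812) (nat_lit 9) (.e (nat_lit 426098) (nat_lit 1) (.e (nat_lit 164403) (nat_lit 256) (.e (nat_lit 57447) (nat_lit 19) .nil)))) .nil)) 
(.lf (nat_lit 272505) (.g (nat_lit 2556) (.e (nat_lit 204813) (nat_lit 9) (.e (nat_lit 426100) (nat_lit 1) (.e (nat_lit 164403) (nat_lit 256) (.e (nat_lit 57447) (nat_lit 19) (.e (nat_lit 393281) (nat_lit 23) .nil))))) .nil)))))) (.nd (nat_lit 3) (.nd (nat_lit 4) (.nd (nat_lit 5) (.nd (nat_lit 6) 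
(.lf (nat_lit 272389) (.g (nat_lit 2382) (.e (nat_lit 204809) (nat_lit 9) (.e (nat_lit 426108) (nat_lit 1) (.e (nat_lit 164402) (nat_lit 256) (.e (nat_lit 57445) (nat_lit 19) (.e (nat_lit 393279) (nat_lit 23) .nil))))) .nil)) 
(.lf (nat_lit 272453) (.g (nat_lit 2814) (.e (nat_lit 204812) (nat_lit 9) (.e (nat_lit 426107) (nat_lit 1) (.e (nat_lit 164403) (nat_lit 256) (.e (nat_lit 57445) (nat_lit 19) (.e (nat_lit 393270) (nat_lit 23) .nil))))) .nil))) (.nd (nat_lit 6) 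
(.lf (nat_lit 272421) (.g (nat_lit 1905) (.e (nat_lit 204809) (nat_lit 9) (.e (nat_lit 426139) (nat_lit 3) (.e (nat_lit 204831) (nat_lit 18) (.e (nat_lit 65280) (nat_lit 166) .nil)))) .nil)) 
(.lf (nat_lit 272485) (.g (nat_lit 2550) (.e (nat_lit 204813) (nat_lit 9) (.e (nat_lit 426100) (nat_lit 1) (.e (nat_lit 164398) (nat_lit 256) (.e (nat_lit 57447) (nat_lit 19) (.e (nat_lit 393266) (nat_lit 23) .nil))))) .nil)))) (.nd (nat_lit 5) (.nd (nat_lit 6) 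
(.lf (nat_lit 272405) (.g (nat_lit 945) (.e (nat_lit 204809) (nat_lit 9) (.e (nat_lit 426139) (nat_lit 3) (.e (nat_lit 204819) (nat_lit 17) .nil))) .nil)) 
(.lf (nat_lit 272469) (.g (nat_lit 1472) (.e (nat_lit 204813) (nat_lit 9) (.e (nat_lit 426098) (nat_lit 1) (.e (nat_lit 164403) (nat_lit 256) (.e (nat_lit 57406) (nat_lit 12) .nil)))) .nil))) (.nd (nat_lit 6) 
(.lf (nat_lit 272437) (.g (nat_lit 1509) (.e (nat_lit 204811) (nat_lit 9) (.e (nat_lit 426391) (nat_lit 15) (.e (nat_lit 1800) (nat_lit 119) (.e (nat_lit 516171) (nat_lit 13) (.e (nat_lit 458789) (nat_lit 23) .nil))))) .nil)) 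
(.lf (nat_lit 272501) (.g (nat_lit 2421) (.e (nat_lit 204813) (nat_lit 9) (.e (nat_lit 426100) (nat_lit 1) (.e (nat_lit 164403) (nat_lit 256) (.e (nat_lit 57447) (nat_lit 19) (.e (nat_lit 393271) (nat_lit 23) .nil))))) .nil))))) (.nd (nat_lit 4) (.nd (nat_lit 5) (.nd (nat_lit 6) 
(.lf (nat_lit 272397) (.g (nat_lit 875) (.e (nat_lit 204809) (nat_lit 9) (.e (nat_lit 426124) (nat_lit 2) (.e (nat_lit 196650) (nat_lit 10) .nil))) .nil)) 
(.lf (nat_lit 272461) (.g (nat_lit 596) (.e (nat_lit 204813) (nat_lit 9) (.e (nat_lit 426098) (nat_lit 1) (.e (nat_lit 164398) (nat_lit 256) .nil))) .nil))) (.nd (nat_lit 6) 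
(.lf (nat_lit 272429) (.g (nat_lit 807) (.e (nat_lit 204810) (nat_lit 9) (.e (nat_lit 426110) (nat_lit 1) (.e (nat_lit 164398) (nat_lit 256) .nil))) .nil)) 
(.lf (nat_lit 272493) (.g (nat_lit 2658) (.e (nat_lit 204813) (nat_lit 9) (.e (nat_lit 426100) (nat_lit 1) (.e (nat_lit 164399) (nat_lit 256) (.e (nat_lit 57447) (nat_lit 19) (.e (nat_lit 393274) (nat_lit 23) (.e (nat_lit 426132) (nat_lit 3) .nil)))))) (.g (nat_lit 5) .nil .nil))))) (.nd (nat_lit 5) (.nd (nat_lit 6) 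
(.lf (nat_lit 272413) (.g (nat_lit 3009) (.e (nat_lit 204809) (nat_lit 9) (.e (nat_lit 426139) (nat_lit 3) (.e (nat_lit 204829) (nat_lit 18) (.e (nat_lit 57692) (nat_lit 156) (.e (nat_lit 171776) (nat_lit 64) (.e (nat_lit 98359) (nat_lit 26) (.e (nat_lit 426132) (nat_lit 3) .nil))))))) (.g (nat_lit 4) .nil .nil))) 
(.lf (nat_lit 272477) (.g (nat_lit 2867) (.e (nat_lit 204813) (nat_lit 9) (.e (nat_lit 426100) (nat_lit 1) (.e (nat_lit 164398) (nat_lit 256) (.e (nat_lit 57409) (nat_lit 12) (.e (nat_lit 336443) (nat_lit 32) (.e (nat_lit 466981) (nat_lit 23) .nil)))))) (.g (nat_lit 5) .nil .nil)))) (.nd (nat_lit 6) 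
(.lf (nat_lit 272445) (.g (nat_lit 2472) (.e (nat_lit 204812) (nat_lit 9) (.e (nat_lit 426100) (nat_lit 1) (.e (nat_lit 164398) (nat_lit 256) (.e (nat_lit 57445) (nat_lit 19) (.e (nat_lit 393270) (nat_lit 23) .nil))))) .nil)) 
(.lf (nat_lit 272509) (.g (nat_lit 2513) (.e (nat_lit 204813) (nat_lit 9) (.e (nat_lit 426107) (nat_lit 1) (.e (nat_lit 164401) (nat_lit 256) (.e (nat_lit 57447) (nat_lit 19) (.e (nat_lit 393238) (nat_lit 17) .nil))))) .nil))))))) (.nd (nat_lit 2) (.nd (nat_lit 3) (.nd (nat_lit 4) (.nd (nat_lit 5) (.nd (nat_lit 6) 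
(.lf (nat_lit 272387) (.g (nat_lit 3492) (.e (nat_lit 204809) (nat_lit 9) (.e (nat_lit 426108) (nat_lit 1) (.e (nat_lit 164401) (nat_lit 256) (.e (nat_lit 57447) (nat_lit 19) (.e (nat_lit 393281) (nat_lit 23) (.e (nat_lit 426133) (nat_lit 3) .nil)))))) (.g (nat_lit 0) .nil .nil))) 
(.lf (nat_lit 272451) (.g (nat_lit 730) (.e (nat_lit 204812) (nat_lit 9) (.e (nat_lit 426107) (nat_lit 1) (.e (nat_lit 164401) (nat_lit 256) .nil))) .nil))) (.nd (nat_lit 6) 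
(.lf (nat_lit 272419) (.g (nat_lit 2900) (.e (nat_lit 204809) (nat_lit 9) (.e (nat_lit 426139) (nat_lit 3) (.e (nat_lit 204831) (nat_lit 18) (.e (nat_lit 57692) (nat_lit 156) (.e (nat_lit 171776) (nat_lit 63) .nil))))) .nil)) 
(.lf (nat_lit 272483) (.g (nat_lit 1402) (.e (nat_lit 204813) (nat_lit 9) (.e (nat_lit 426100) (nat_lit 1) (.e (nat_lit 164398) (nat_lit 256) (.e (nat_lit 57446) (nat_lit 19) .nil)))) .nil)))) (.nd (nat_lit 5) (.nd (nat_lit 6) 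
(.lf (nat_lit 272403) (.g (nat_lit 1103) (.e (nat_lit 204809) (nat_lit 9) (.e (nat_lit 426139) (nat_lit 3) (.e (nat_lit 204803) (nat_lit 0) (.e (nat_lit 7936) (nat_lit 405) .nil)))) .nil)) 
(.lf (nat_lit 272467) (.g (nat_lit 2551) (.e (nat_lit 204813) (nat_lit 9) (.e (nat_lit 426098) (nat_lit 1) (.e (nat_lit 164399) (nat_lit 256) (.e (nat_lit 57447) (nat_lit 19) (.e (nat_lit 393274) (nat_lit 23) (.e (nat_lit 426132) (nat_lit 3) .nil)))))) (.g (nat_lit 5) .nil .nil)))) (.nd (nat_lit 6) 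
(.lf (nat_lit 272435) (.g (nat_lit 1911) (.e (nat_lit 204811) (nat_lit 9) (.e (nat_lit 426110) (nat_lit 1) (.e (nat_lit 164399) (nat_lit 256) (.e (nat_lit 57448) (nat_lit 19) (.e (nat_lit 393281) (nat_lit 23) .nil))))) .nil)) 
(.lf (nat_lit 272499) (.g (nat_lit 1815) (.e (nat_lit 204813) (nat_lit 9) (.e (nat_lit 426100) (nat_lit 1) (.e (nat_lit 164403) (nat_lit 256) (.e (nat_lit 57447) (nat_lit 19) .nil)))) .nil))))) (.nd (nat_lit 4) (.nd (nat_lit 5) (.nd (nat_lit 6) 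
(.lf (nat_lit 272395) (.g (nat_lit 416) (.e (nat_lit 204809) (nat_lit 9) (.e (nat_lit 426123) (nat_lit 2) (.e (nat_lit 204544) (nat_lit 0) .nil))) .nil)) 
(.lf (nat_lit 272459) (.g (nat_lit 1205) (.e (nat_lit 204812) (nat_lit 9) (.e (nat_lit 426200) (nat_lit 9) (.e (nat_lit 426566) (nat_lit 34) (.e (nat_lit 393253) (nat_lit 18) .nil)))) .nil))) (.nd (nat_lit 6) 
(.lf (nat_lit 272427) (.g (nat_lit 2160) (.e (nat_lit 204809) (nat_lit 9) (.e (nat_lit 433920) (nat_lit 18) (.e (nat_lit 98359) (nat_lit 26) (.e (nat_lit 426132) (nat_lit 3) (.e (nat_lit 204837) (nat_lit 20) (.e (nat_lit 122624) (nat_lit 3) .nil)))))) (.g (nat_lit 5) .nil .nil))) 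
(.lf (nat_lit 272491) (.g (nat_lit 2459) (.e (nat_lit 204813) (nat_lit 9) (.e (nat_lit 426100) (nat_lit 1) (.e (nat_lit 164399) (nat_lit 256) (.e (nat_lit 57407) (nat_lit 12) (.e (nat_lit 336426) (nat_lit 29) (.e (nat_lit 442426) (nat_lit 23) .nil)))))) (.g (nat_lit 4) .nil .nil))))) (.nd (nat_lit 5) (.nd (nat_lit 6) 
(.lf (nat_lit 272411) (.g (nat_lit 1886) (.e (nat_lit 204809) (nat_lit 9) (.e (nat_lit 426139) (nat_lit 3) (.e (nat_lit 204829) (nat_lit 18) (.e (nat_lit 57692) (nat_lit 156) .nil)))) .nil)) 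
(.lf (nat_lit 272475) (.g (nat_lit 2747) (.e (nat_lit 204813) (nat_lit 9) (.e (nat_lit 426100) (nat_lit 1) (.e (nat_lit 164398) (nat_lit 256) (.e (nat_lit 57409) (nat_lit 12) (.e (nat_lit 336443) (nat_lit 32) (.e (nat_lit 466978) (nat_lit 23) .nil)))))) (.g (nat_lit 4) .nil .nil)))) (.nd (nat_lit 6) 
(.lf (nat_lit 272443) (.g (nat_lit 745) (.e (nat_lit 204812) (nat_lit 9) (.e (nat_lit 426100) (nat_lit 1) (.e (nat_lit 164398) (nat_lit 256) .nil))) .nil)) 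
(.lf (nat_lit 272507) (.g (nat_lit 741) (.e (nat_lit 204813) (nat_lit 9) (.e (nat_lit 426107) (nat_lit 1) (.e (nat_lit 164401) (nat_lit 256) .nil))) .nil)))))) (.nd (nat_lit 3) (.nd (nat_lit 4) (.nd (nat_lit 5) (.nd (nat_lit 6) 
(.lf (nat_lit 272391) (.g (nat_lit 1520) (.e (nat_lit 204809) (nat_lit 9) (.e (nat_lit 426108) (nat_lit 1) (.e (nat_lit 164403) (nat_lit 256) (.e (nat_lit 57446) (nat_lit 19) (.e (nat_lit 393279) (nat_lit 23) .nil))))) .nil)) 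
(.lf (nat_lit 272455) (.g (nat_lit 1515) (.e (nat_lit 204812) (nat_lit 9) (.e (nat_lit 426107) (nat_lit 1) (.e (nat_lit 164403) (nat_lit 256) (.e (nat_lit 57447) (nat_lit 19) .nil)))) .nil))) (.nd (nat_lit 6) 
(.lf (nat_lit 272423) (.g (nat_lit 769) (.e (nat_lit 204809) (nat_lit 9) (.e (nat_lit 426408) (nat_lit 15) (.e (nat_lit 7936) (nat_lit 121) .nil))) .nil)) 
(.lf (nat_lit 272487) (.g (nat_lit 2311) (.e (nat_lit 204813) (nat_lit 9) (.e (nat_lit 426100) (nat_lit 1) (.e (nat_lit 164398) (nat_lit 256) (.e (nat_lit 57447) (nat_lit 19) (.e (nat_lit 393274) (nat_lit 23) .nil))))) .nil)))) (.nd (nat_lit 5) (.nd (nat_lit 6) 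
(.lf (nat_lit 272407) (.g (nat_lit 980) (.e (nat_lit 204809) (nat_lit 9) (.e (nat_lit 426139) (nat_lit 3) (.e (nat_lit 204822) (nat_lit 17) .nil))) .nil)) 
(.lf (nat_lit 272471) (.g (nat_lit 2346) (.e (nat_lit 204813) (nat_lit 9) (.e (nat_lit 426098) (nat_lit 1) (.e (nat_lit 164403) (nat_lit 256) (.e (nat_lit 57447) (nat_lit 19) (.e (nat_lit 393274) (nat_lit 23) .nil))))) .nil))) (.nd (nat_lit 6) 
(.lf (nat_lit 272439) (.g (nat_lit 2441) (.e (nat_lit 204811) (nat_lit 9) (.e (nat_lit 426435) (nat_lit 18) (.e (nat_lit 98358) (nat_lit 26) (.e (nat_lit 426131) (nat_lit 3) (.e (nat_lit 204838) (nat_lit 20) (.e (nat_lit 122624) (nat_lit 3) .nil)))))) (.g (nat_lit 5) .nil .nil))) 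
(.lf (nat_lit 272503) (.g (nat_lit 2433) (.e (nat_lit 204813) (nat_lit 9) (.e (nat_lit 426100) (nat_lit 1) (.e (nat_lit 164403) (nat_lit 256) (.e (nat_lit 57447) (nat_lit 19) (.e (nat_lit 393279) (nat_lit 23) .nil))))) .nil))))) (.nd (nat_lit 4) (.nd (nat_lit 5) (.nd (nat_lit 6) 
(.lf (nat_lit 272399) (.g (nat_lit 453) (.e (nat_lit 204809) (nat_lit 9) (.e (nat_lit 426124) (nat_lit 2) (.e (nat_lit 196658) (nat_lit 12) .nil))) .nil)) 
(.lf (nat_lit 272463) (.g (nat_lit 2842) (.e (nat_lit 204813) (nat_lit 9) (.e (nat_lit 426098) (nat_lit 1) (.e (nat_lit 164398) (nat_lit 256) (.e (nat_lit 57447) (nat_lit 19) (.e (nat_lit 393238) (nat_lit 17) .nil))))) .nil))) (.nd (nat_lit 6) 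
(.lf (nat_lit 272431) (.g (nat_lit 2564) (.e (nat_lit 204810) (nat_lit 9) (.e (nat_lit 426435) (nat_lit 18) (.e (nat_lit 98358) (nat_lit 26) (.e (nat_lit 426131) (nat_lit 3) (.e (nat_lit 204837) (nat_lit 20) (.e (nat_lit 122624) (nat_lit 3) .nil)))))) (.g (nat_lit 5) .nil .nil))) 
(.lf (nat_lit 272495) (.g (nat_lit 2850) (.e (nat_lit 204813) (nat_lit 9) (.e (nat_lit 426100) (nat_lit 1) (.e (nat_lit 164403) (nat_lit 256) (.e (nat_lit 57409) (nat_lit 12) (.e (nat_lit 336443) (nat_lit 32) (.e (nat_lit 466978) (nat_lit 23) .nil)))))) (.g (nat_lit 4) .nil .nil))))) (.nd (nat_lit 5) (.nd (nat_lit 6) 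
(.lf (nat_lit 272415) (.g (nat_lit 926) (.e (nat_lit 204809) (nat_lit 9) (.e (nat_lit 426139) (nat_lit 3) (.e (nat_lit 204830) (nat_lit 18) .nil))) .nil)) 
(.lf (nat_lit 272479) (.g (nat_lit 1401) (.e (nat_lit 204813) (nat_lit 9) (.e (nat_lit 426100) (nat_lit 1) (.e (nat_lit 164398) (nat_lit 256) (.e (nat_lit 57412) (nat_lit 12) .nil)))) .nil))) (.nd (nat_lit 6) 
(.lf (nat_lit 272447) (.g (nat_lit 628) (.e (nat_lit 204812) (nat_lit 9) (.e (nat_lit 426100) (nat_lit 1) (.e (nat_lit 164399) (nat_lit 256) .nil))) .nil)) 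
(.lf (nat_lit 272511) (.g (nat_lit 321) (.e (nat_lit 204813) (nat_lit 9) (.e (nat_lit 426107) (nat_lit 1) (.e (nat_lit 164403) (nat_lit 256) .nil))) .nil)))))))))

noncomputable def tv3495 : DT := (.nd (nat_lit 0) (.nd (nat_lit 1) (.nd (nat_lit 2) (.nd (nat_lit 3) (.nd (nat_lit 4) (.nd (nat_lit 5) (.nd (nat_lit 6) 
(.lf (nat_lit 272512) (.g (nat_lit 927) (.e (nat_lit 204813) (nat_lit 9) (.e (nat_lit 426107) (nat_lit 1) (.e (nat_lit 164403) (nat_lit 256) (.e (nat_lit 57406) (nat_lit 12) .nil)))) .nil)) 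
(.lf (nat_lit 272576) (.g (nat_lit 1845) (.e (nat_lit 204815) (nat_lit 17) (.e (nat_lit 2074) (nat_lit 142) (.e (nat_lit 704734) (nat_lit 11) (.e (nat_lit 16416) (nat_lit 3) (.e (nat_lit 204877) (nat_lit 31) (.e (nat_lit 384768) (nat_lit 3) .nil)))))) (.g (nat_lit 5) .nil .nil)))) (.nd (nat_lit 6) 
(.lf (nat_lit 272544) (.g (nat_lit 597) (.e (nat_lit 212736) (nat_lit 9) (.e (nat_lit 426100) (nat_lit 1) (.e (nat_lit 164399) (nat_lit 256) .nil))) .nil)) 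
(.lf (nat_lit 272608) (.g (nat_lit 3655) (.e (nat_lit 204815) (nat_lit 17) (.e (nat_lit 6720) (nat_lit 361) (.e (nat_lit 172133) (nat_lit 15) (.e (nat_lit 1856) (nat_lit 124) (.e (nat_lit 557109) (nat_lit 15) (.e (nat_lit 188452) (nat_lit 23) .nil)))))) (.g (nat_lit 0) .nil .nil))))) (.nd (nat_lit 5) (.nd (nat_lit 6) 
(.lf (nat_lit 272528) (.g (nat_lit 1558) (.e (nat_lit 204813) (nat_lit 9) (.e (nat_lit 426108) (nat_lit 1) (.e (nat_lit 164403) (nat_lit 256) (.e (nat_lit 57444) (nat_lit 19) .nil)))) .nil)) 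
(.lf (nat_lit 272592) (.g (nat_lit 1513) (.e (nat_lit 204815) (nat_lit 17) (.e (nat_lit 2086) (nat_lit 142) (.e (nat_lit 704734) (nat_lit 11) (.e (nat_lit 16416) (nat_lit 3) (.e (nat_lit 204876) (nat_lit 31) (.e (nat_lit 384768) (nat_lit 3) .nil)))))) (.g (nat_lit 5) .nil .nil)))) (.nd (nat_lit 6) 
(.lf (nat_lit 272560) (.g (nat_lit 447) (.e (nat_lit 212736) (nat_lit 10) (.e (nat_lit 434208) (nat_lit 18) (.e (nat_lit 5958) (nat_lit 323) .nil))) .nil)) 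
(.lf (nat_lit 272624) (.g (nat_lit 518) (.e (nat_lit 204816) (nat_lit 17) (.e (nat_lit 6724) (nat_lit 362) (.e (nat_lit 180234) (nat_lit 1) .nil))) .nil))))) (.nd (nat_lit 4) (.nd (nat_lit 5) (.nd (nat_lit 6) 
(.lf (nat_lit 272520) (.g (nat_lit 2968) (.e (nat_lit 204813) (nat_lit 9) (.e (nat_lit 426108) (nat_lit 1) (.e (nat_lit 164401) (nat_lit 256) (.e (nat_lit 57447) (nat_lit 19) (.e (nat_lit 393274) (nat_lit 23) (.e (nat_lit 426132) (nat_lit 3) .nil)))))) (.g (nat_lit 4) .nil .nil))) 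
(.lf (nat_lit 272584) (.g (nat_lit 1617) (.e (nat_lit 204815) (nat_lit 17) (.e (nat_lit 2080) (nat_lit 142) (.e (nat_lit 704734) (nat_lit 11) (.e (nat_lit 16416) (nat_lit 3) (.e (nat_lit 204876) (nat_lit 31) (.e (nat_lit 384768) (nat_lit 3) .nil)))))) (.g (nat_lit 5) .nil .nil)))) (.nd (nat_lit 6) 
(.lf (nat_lit 272552) (.g (nat_lit 1889) (.e (nat_lit 212736) (nat_lit 10) (.e (nat_lit 434208) (nat_lit 18) (.e (nat_lit 3998) (nat_lit 241) (.e (nat_lit 57389) (nat_lit 5) (.e (nat_lit 114719) (nat_lit 23) .nil))))) .nil)) 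
(.lf (nat_lit 272616) (.g (nat_lit 1650) (.e (nat_lit 204816) (nat_lit 17) (.e (nat_lit 6192) (nat_lit 332) (.e (nat_lit 1348) (nat_lit 102) (.e (nat_lit 286735) (nat_lit 3) (.e (nat_lit 106240) (nat_lit 26) (.e (nat_lit 426265) (nat_lit 9) (.e (nat_lit 426133) (nat_lit 3) .nil))))))) (.g (nat_lit 4) .nil .nil))))) (.nd (nat_lit 5) (.nd (nat_lit 6) 
(.lf (nat_lit 272536) (.g (nat_lit 3004) (.e (nat_lit 204813) (nat_lit 9) (.e (nat_lit 433920) (nat_lit 18) (.e (nat_lit 98358) (nat_lit 26) (.e (nat_lit 426131) (nat_lit 3) (.e (nat_lit 204837) (nat_lit 20) (.e (nat_lit 122624) (nat_lit 3) .nil)))))) (.g (nat_lit 5) .nil .nil))) 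
(.lf (nat_lit 272600) (.g (nat_lit 1955) (.e (nat_lit 204815) (nat_lit 17) (.e (nat_lit 2096) (nat_lit 142) (.e (nat_lit 704734) (nat_lit 11) (.e (nat_lit 16416) (nat_lit 3) (.e (nat_lit 204877) (nat_lit 31) (.e (nat_lit 384768) (nat_lit 3) .nil)))))) (.g (nat_lit 5) .nil .nil)))) (.nd (nat_lit 6) 
(.lf (nat_lit 272568) (.g (nat_lit 1146) (.e (nat_lit 212736) (nat_lit 15) (.e (nat_lit 475214) (nat_lit 42) (.e (nat_lit 720912) (nat_lit 20) .nil))) .nil)) 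
(.lf (nat_lit 272632) (.g (nat_lit 3622) (.e (nat_lit 204817) (nat_lit 17) (.e (nat_lit 2198) (nat_lit 144) (.e (nat_lit 720941) (nat_lit 22) (.e (nat_lit 90172) (nat_lit 14) (.e (nat_lit 180244) (nat_lit 5) (.e (nat_lit 532503) (nat_lit 1) (.e (nat_lit 57654) (nat_lit 152) (.e (nat_lit 2399) (nat_lit 157) (.e (nat_lit 2685) (nat_lit 168) .nil))))))))) (.g (nat_lit 7) .nil .nil))))))) 
(.nd (nat_lit 3) (.nd (nat_lit 4) (.nd (nat_lit 5) (.nd (nat_lit 6) 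
(.lf (nat_lit 272516) (.g (nat_lit 2117) (.e (nat_lit 204813) (nat_lit 9) (.e (nat_lit 426107) (nat_lit 1) (.e (nat_lit 164403) (nat_lit 256) (.e (nat_lit 57447) (nat_lit 19) (.e (nat_lit 393277) (nat_lit 23) (.e (nat_lit 426134) (nat_lit 3) .nil)))))) (.g (nat_lit 4) .nil .nil))) 
(.lf (nat_lit 272580) (.g (nat_lit 1629) (.e (nat_lit 204815) (nat_lit 17) (.e (nat_lit 2077) (nat_lit 142) (.e (nat_lit 704734) (nat_lit 11) (.e (nat_lit 16416) (nat_lit 3) (.e (nat_lit 204876) (nat_lit 31) (.e (nat_lit 384768) (nat_lit 3) .nil)))))) (.g (nat_lit 5) .nil .nil)))) (.nd (nat_lit 6) 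
(.lf (nat_lit 272548) (.g (nat_lit 3132) (.e (nat_lit 212736) (nat_lit 9) (.e (nat_lit 426100) (nat_lit 1) (.e (nat_lit 164403) (nat_lit 256) (.e (nat_lit 57447) (nat_lit 19) (.e (nat_lit 393266) (nat_lit 23) .nil))))) .nil)) 
(.lf (nat_lit 272612) (.g (nat_lit 538) (.e (nat_lit 204815) (nat_lit 17) (.e (nat_lit 6724) (nat_lit 362) (.e (nat_lit 180235) (nat_lit 1) .nil))) .nil)))) (.nd (nat_lit 5) (.nd (nat_lit 6) 
(.lf (nat_lit 272532) (.g (nat_lit 2295) (.e (nat_lit 204813) (nat_lit 9) (.e (nat_lit 426139) (nat_lit 3) (.e (nat_lit 204829) (nat_lit 18) (.e (nat_lit 57692) (nat_lit 156) (.e (nat_lit 171776) (nat_lit 63) .nil))))) .nil)) 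
(.lf (nat_lit 272596) (.g (nat_lit 1787) (.e (nat_lit 204815) (nat_lit 17) (.e (nat_lit 2093) (nat_lit 142) (.e (nat_lit 704734) (nat_lit 11) (.e (nat_lit 16416) (nat_lit 3) (.e (nat_lit 204876) (nat_lit 31) (.e (nat_lit 384768) (nat_lit 3) .nil)))))) (.g (nat_lit 5) .nil .nil)))) (.nd (nat_lit 6) 
(.lf (nat_lit 272564) (.g (nat_lit 310) (.e (nat_lit 212736) (nat_lit 10) (.e (nat_lit 434279) (nat_lit 39) (.e (nat_lit 663555) (nat_lit 0) .nil))) .nil)) 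
(.lf (nat_lit 272628) (.g (nat_lit 2184) (.e (nat_lit 204816) (nat_lit 17) (.e (nat_lit 6724) (nat_lit 362) (.e (nat_lit 180243) (nat_lit 5) (.e (nat_lit 532523) (nat_lit 7) (.e (nat_lit 319538) (nat_lit 19) .nil))))) .nil))))) (.nd (nat_lit 4) (.nd (nat_lit 5) (.nd (nat_lit 6) 
(.lf (nat_lit 272524) (.g (nat_lit 3013) (.e (nat_lit 204813) (nat_lit 9) (.e (nat_lit 426108) (nat_lit 1) (.e (nat_lit 164402) (nat_lit 256) (.e (nat_lit 57406) (nat_lit 12) (.e (nat_lit 336443) (nat_lit 32) (.e (nat_lit 466981) (nat_lit 23) .nil)))))) (.g (nat_lit 5) .nil .nil))) 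
(.lf (nat_lit 272588) (.g (nat_lit 1468) (.e (nat_lit 204815) (nat_lit 17) (.e (nat_lit 2083) (nat_lit 142) (.e (nat_lit 704734) (nat_lit 11) (.e (nat_lit 16416) (nat_lit 3) (.e (nat_lit 204876) (nat_lit 31) (.e (nat_lit 384768) (nat_lit 3) .nil)))))) (.g (nat_lit 5) .nil .nil)))) (.nd (nat_lit 6) 
(.lf (nat_lit 272556) (.g (nat_lit 621) (.e (nat_lit 212736) (nat_lit 10) (.e (nat_lit 434208) (nat_lit 18) (.e (nat_lit 5945) (nat_lit 322) (.e (nat_lit 57408) (nat_lit 12) .nil)))) .nil)) 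
(.lf (nat_lit 272620) (.g (nat_lit 483) (.e (nat_lit 204816) (nat_lit 17) (.e (nat_lit 6722) (nat_lit 362) (.e (nat_lit 180234) (nat_lit 1) .nil))) .nil)))) (.nd (nat_lit 5) (.nd (nat_lit 6) 
(.lf (nat_lit 272540) (.g (nat_lit 1266) (.e (nat_lit 212736) (nat_lit 9) (.e (nat_lit 426099) (nat_lit 1) (.e (nat_lit 164399) (nat_lit 256) (.e (nat_lit 57447) (nat_lit 19) (.e (nat_lit 393277) (nat_lit 23) .nil))))) .nil)) 
(.lf (nat_lit 272604) (.g (nat_lit 1282) (.e (nat_lit 204815) (nat_lit 17) (.e (nat_lit 2210) (nat_lit 145) (.e (nat_lit 737024) (nat_lit 12) (.e (nat_lit 434219) (nat_lit 19) (.e (nat_lit 499952) (nat_lit 14) (.e (nat_lit 1559) (nat_lit 110) (.e (nat_lit 360192) (nat_lit 3) .nil))))))) (.g (nat_lit 6) .nil .nil)))) (.nd (nat_lit 6) 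
(.lf (nat_lit 272572) (.g (nat_lit 1417) (.e (nat_lit 204814) (nat_lit 17) (.e (nat_lit 6113) (nat_lit 332) (.e (nat_lit 2777) (nat_lit 178) (.e (nat_lit 286735) (nat_lit 3) .nil)))) .nil)) 
(.lf (nat_lit 272636) (.g (nat_lit 1587) (.e (nat_lit 204819) (nat_lit 17) (.e (nat_lit 6113) (nat_lit 332) (.e (nat_lit 1361) (nat_lit 102) (.e (nat_lit 286727) (nat_lit 0) (.e (nat_lit 1799) (nat_lit 119) .nil))))) .nil))))))) (.nd (nat_lit 2) (.nd (nat_lit 3) (.nd (nat_lit 4) (.nd (nat_lit 5) (.nd (nat_lit 6) 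
(.lf (nat_lit 272514) (.g (nat_lit 2205) (.e (nat_lit 204813) (nat_lit 9) (.e (nat_lit 426107) (nat_lit 1) (.e (nat_lit 164403) (nat_lit 256) (.e (nat_lit 57409) (nat_lit 12) (.e (nat_lit 336443) (nat_lit 32) (.e (nat_lit 466978) (nat_lit 23) .nil)))))) (.g (nat_lit 4) .nil .nil))) 
(.lf (nat_lit 272578) (.g (nat_lit 1636) (.e (nat_lit 204815) (nat_lit 17) (.e (nat_lit 2075) (nat_lit 142) (.e (nat_lit 704734) (nat_lit 11) (.e (nat_lit 16416) (nat_lit 3) (.e (nat_lit 204877) (nat_lit 31) (.e (nat_lit 384768) (nat_lit 3) .nil)))))) (.g (nat_lit 5) .nil .nil)))) (.nd (nat_lit 6) 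
(.lf (nat_lit 272546) (.g (nat_lit 1640) (.e (nat_lit 212736) (nat_lit 9) (.e (nat_lit 426100) (nat_lit 1) (.e (nat_lit 164399) (nat_lit 256) (.e (nat_lit 57447) (nat_lit 19) (.e (nat_lit 393277) (nat_lit 23) .nil))))) .nil)) 
(.lf (nat_lit 272610) (.g (nat_lit 501) (.e (nat_lit 204815) (nat_lit 17) (.e (nat_lit 6722) (nat_lit 362) (.e (nat_lit 180236) (nat_lit 1) .nil))) .nil)))) (.nd (nat_lit 5) (.nd (nat_lit 6) 
(.lf (nat_lit 272530) (.g (nat_lit 2389) (.e (nat_lit 204813) (nat_lit 9) (.e (nat_lit 426108) (nat_lit 1) (.e (nat_lit 164403) (nat_lit 256) (.e (nat_lit 57447) (nat_lit 19) (.e (nat_lit 393274) (nat_lit 23) (.e (nat_lit 426132) (nat_lit 3) .nil)))))) (.g (nat_lit 4) .nil .nil))) 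
(.lf (nat_lit 272594) (.g (nat_lit 1889) (.e (nat_lit 204815) (nat_lit 17) (.e (nat_lit 2092) (nat_lit 142) (.e (nat_lit 704734) (nat_lit 11) (.e (nat_lit 16416) (nat_lit 3) (.e (nat_lit 204876) (nat_lit 31) (.e (nat_lit 384768) (nat_lit 3) .nil)))))) (.g (nat_lit 5) .nil .nil)))) (.nd (nat_lit 6) 
(.lf (nat_lit 272562) (.g (nat_lit 539) (.e (nat_lit 212736) (nat_lit 10) (.e (nat_lit 434248) (nat_lit 28) (.e (nat_lit 573475) (nat_lit 12) .nil))) .nil)) 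
(.lf (nat_lit 272626) (.g (nat_lit 1731) (.e (nat_lit 204816) (nat_lit 17) (.e (nat_lit 6724) (nat_lit 362) (.e (nat_lit 180243) (nat_lit 5) (.e (nat_lit 532501) (nat_lit 1) (.e (nat_lit 57776) (nat_lit 233) .nil))))) .nil))))) (.nd (nat_lit 4) (.nd (nat_lit 5) (.nd (nat_lit 6) 
(.lf (nat_lit 272522) (.g (nat_lit 501) (.e (nat_lit 204813) (nat_lit 9) (.e (nat_lit 426108) (nat_lit 1) (.e (nat_lit 164402) (nat_lit 256) .nil))) .nil)) 
(.lf (nat_lit 272586) (.g (nat_lit 1640) (.e (nat_lit 204815) (nat_lit 17) (.e (nat_lit 2082) (nat_lit 142) (.e (nat_lit 704734) (nat_lit 11) (.e (nat_lit 16416) (nat_lit 3) (.e (nat_lit 204876) (nat_lit 31) (.e (nat_lit 384768) (nat_lit 3) .nil)))))) (.g (nat_lit 5) .nil .nil)))) (.nd (nat_lit 6) 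
(.lf (nat_lit 272554) (.g (nat_lit 1719) (.e (nat_lit 212736) (nat_lit 10) (.e (nat_lit 434208) (nat_lit 18) (.e (nat_lit 5934) (nat_lit 322) (.e (nat_lit 57411) (nat_lit 12) (.e (nat_lit 336443) (nat_lit 32) .nil))))) .nil)) 
(.lf (nat_lit 272618) (.g (nat_lit 1225) (.e (nat_lit 204816) (nat_lit 17) (.e (nat_lit 6712) (nat_lit 360) (.e (nat_lit 164238) (nat_lit 187) (.e (nat_lit 1234) (nat_lit 91) .nil)))) .nil)))) (.nd (nat_lit 5) (.nd (nat_lit 6) 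
(.lf (nat_lit 272538) (.g (nat_lit 1003) (.e (nat_lit 212736) (nat_lit 9) (.e (nat_lit 426098) (nat_lit 1) (.e (nat_lit 164399) (nat_lit 256) .nil))) .nil)) 
(.lf (nat_lit 272602) (.g (nat_lit 4899) (.e (nat_lit 204815) (nat_lit 17) (.e (nat_lit 2203) (nat_lit 144) (.e (nat_lit 720941) (nat_lit 22) (.e (nat_lit 90172) (nat_lit 14) (.e (nat_lit 180244) (nat_lit 5) (.e (nat_lit 532499) (nat_lit 1) (.e (nat_lit 57692) (nat_lit 156) (.e (nat_lit 163874) (nat_lit 3) .nil)))))))) (.g (nat_lit 8) .nil .nil)))) (.nd (nat_lit 6) 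
(.lf (nat_lit 272570) (.g (nat_lit 428) (.e (nat_lit 204814) (nat_lit 17) (.e (nat_lit 6113) (nat_lit 332) (.e (nat_lit 1361) (nat_lit 102) .nil))) .nil)) 
(.lf (nat_lit 272634) (.g (nat_lit 4704) (.e (nat_lit 204818) (nat_lit 17) (.e (nat_lit 2203) (nat_lit 144) (.e (nat_lit 720941) (nat_lit 22) (.e (nat_lit 90172) (nat_lit 14) (.e (nat_lit 180244) (nat_lit 5) (.e (nat_lit 532499) (nat_lit 1) (.e (nat_lit 57692) (nat_lit 156) (.e (nat_lit 163874) (nat_lit 3) .nil)))))))) (.g (nat_lit 8) .nil .nil))))))) 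
(.nd (nat_lit 3) (.nd (nat_lit 4) (.nd (nat_lit 5) (.nd (nat_lit 6) 
(.lf (nat_lit 272518) (.g (nat_lit 1309) (.e (nat_lit 204813) (nat_lit 9) (.e (nat_lit 426108) (nat_lit 1) (.e (nat_lit 164401) (nat_lit 256) (.e (nat_lit 57447) (nat_lit 19) .nil)))) .nil)) 
(.lf (nat_lit 272582) (.g (nat_lit 1760) (.e (nat_lit 204815) (nat_lit 17) (.e (nat_lit 2078) (nat_lit 142) (.e (nat_lit 704734) (nat_lit 11) (.e (nat_lit 16416) (nat_lit 3) (.e (nat_lit 204876) (nat_lit 31) (.e (nat_lit 384768) (nat_lit 3) .nil)))))) (.g (nat_lit 5) .nil .nil)))) (.nd (nat_lit 6) 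
(.lf (nat_lit 272550) (.g (nat_lit 956) (.e (nat_lit 212736) (nat_lit 9) (.e (nat_lit 426125) (nat_lit 2) (.e (nat_lit 196697) (nat_lit 19) .nil))) .nil)) 
(.lf (nat_lit 272614) (.g (nat_lit 907) (.e (nat_lit 204815) (nat_lit 17) (.e (nat_lit 6724) (nat_lit 362) (.e (nat_lit 180252) (nat_lit 10) (.e (nat_lit 573471) (nat_lit 11) .nil)))) .nil)))) (.nd (nat_lit 5) (.nd (nat_lit 6) 
(.lf (nat_lit 272534) (.g (nat_lit 1775) (.e (nat_lit 204813) (nat_lit 9) (.e (nat_lit 426186) (nat_lit 9) (.e (nat_lit 426566) (nat_lit 34) (.e (nat_lit 393254) (nat_lit 18) .nil)))) .nil)) 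
(.lf (nat_lit 272598) (.g (nat_lit 1598) (.e (nat_lit 204815) (nat_lit 17) (.e (nat_lit 2095) (nat_lit 142) (.e (nat_lit 704734) (nat_lit 11) (.e (nat_lit 16416) (nat_lit 3) (.e (nat_lit 204877) (nat_lit 31) (.e (nat_lit 384768) (nat_lit 3) .nil)))))) (.g (nat_lit 5) .nil .nil)))) (.nd (nat_lit 6) 
(.lf (nat_lit 272566) (.g (nat_lit 297) (.e (nat_lit 212736) (nat_lit 15) (.e (nat_lit 475193) (nat_lit 38) (.e (nat_lit 688168) (nat_lit 15) .nil))) .nil)) 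
(.lf (nat_lit 272630) (.g (nat_lit 1850) (.e (nat_lit 204817) (nat_lit 17) (.e (nat_lit 2078) (nat_lit 142) (.e (nat_lit 704734) (nat_lit 11) (.e (nat_lit 16416) (nat_lit 3) (.e (nat_lit 204877) (nat_lit 31) (.e (nat_lit 384768) (nat_lit 3) .nil)))))) (.g (nat_lit 5) .nil .nil)))))) (.nd (nat_lit 4) (.nd (nat_lit 5) (.nd (nat_lit 6) 
(.lf (nat_lit 272526) (.g (nat_lit 2307) (.e (nat_lit 204813) (nat_lit 9) (.e (nat_lit 426108) (nat_lit 1) (.e (nat_lit 164403) (nat_lit 256) (.e (nat_lit 57406) (nat_lit 12) (.e (nat_lit 336444) (nat_lit 32) (.e (nat_lit 466980) (nat_lit 23) .nil)))))) (.g (nat_lit 4) .nil .nil))) 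
(.lf (nat_lit 272590) (.g (nat_lit 1905) (.e (nat_lit 204815) (nat_lit 17) (.e (nat_lit 2084) (nat_lit 142) (.e (nat_lit 704734) (nat_lit 11) (.e (nat_lit 16416) (nat_lit 3) (.e (nat_lit 204876) (nat_lit 31) (.e (nat_lit 384768) (nat_lit 3) .nil)))))) (.g (nat_lit 5) .nil .nil)))) (.nd (nat_lit 6) 
(.lf (nat_lit 272558) (.g (nat_lit 1444) (.e (nat_lit 212736) (nat_lit 10) (.e (nat_lit 434208) (nat_lit 18) (.e (nat_lit 5945) (nat_lit 322) (.e (nat_lit 57412) (nat_lit 12) (.e (nat_lit 336388) (nat_lit 27) .nil))))) .nil)) 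
(.lf (nat_lit 272622) (.g (nat_lit 511) (.e (nat_lit 204816) (nat_lit 17) (.e (nat_lit 6722) (nat_lit 362) (.e (nat_lit 180236) (nat_lit 1) .nil))) .nil)))) (.nd (nat_lit 5) (.nd (nat_lit 6) 
(.lf (nat_lit 272542) (.g (nat_lit 2737) (.e (nat_lit 212736) (nat_lit 9) (.e (nat_lit 426100) (nat_lit 1) (.e (nat_lit 164398) (nat_lit 256) (.e (nat_lit 57447) (nat_lit 19) (.e (nat_lit 393275) (nat_lit 23) .nil))))) .nil)) 
(.lf (nat_lit 272606) (.g (nat_lit 924) (.e (nat_lit 204815) (nat_lit 17) (.e (nat_lit 2210) (nat_lit 145) (.e (nat_lit 737024) (nat_lit 12) (.e (nat_lit 434219) (nat_lit 19) (.e (nat_lit 499981) (nat_lit 14) (.e (nat_lit 1560) (nat_lit 110) (.e (nat_lit 360192) (nat_lit 3) .nil))))))) (.g (nat_lit 6) .nil .nil)))) (.nd (nat_lit 6) 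
(.lf (nat_lit 272574) (.g (nat_lit 2020) (.e (nat_lit 204815) (nat_lit 17) (.e (nat_lit 2044) (nat_lit 142) (.e (nat_lit 704734) (nat_lit 11) (.e (nat_lit 16416) (nat_lit 3) (.e (nat_lit 204877) (nat_lit 31) (.e (nat_lit 384768) (nat_lit 3) .nil)))))) (.g (nat_lit 5) .nil .nil))) 
(.lf (nat_lit 272638) (.g (nat_lit 2182) (.e (nat_lit 204819) (nat_lit 17) (.e (nat_lit 6113) (nat_lit 332) (.e (nat_lit 1361) (nat_lit 102) (.e (nat_lit 286733) (nat_lit 2) (.e (nat_lit 90185) (nat_lit 17) (.e (nat_lit 237605) (nat_lit 9) (.e (nat_lit 426131) (nat_lit 3) .nil))))))) (.g (nat_lit 4) .nil .nil))))))))) 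
(.nd (nat_lit 1) (.nd (nat_lit 2) (.nd (nat_lit 3) (.nd (nat_lit 4) (.nd (nat_lit 5) 
(.nd (nat_lit 6) 
(.lf (nat_lit 272513) (.g (nat_lit 2251) (.e (nat_lit 204813) (nat_lit 9) (.e (nat_lit 426107) (nat_lit 1) (.e (nat_lit 164403) (nat_lit 256) (.e (nat_lit 57406) (nat_lit 12) (.e (nat_lit 336444) (nat_lit 32) (.e (nat_lit 466980) (nat_lit 23) .nil)))))) (.g (nat_lit 4) .nil .nil))) 
(.lf (nat_lit 272577) (.g (nat_lit 1411) (.e (nat_lit 204815) (nat_lit 17) (.e (nat_lit 2075) (nat_lit 142) (.e (nat_lit 704734) (nat_lit 11) (.e (nat_lit 16416) (nat_lit 3) (.e (nat_lit 204876) (nat_lit 31) (.e (nat_lit 384768) (nat_lit 3) .nil)))))) (.g (nat_lit 5) .nil .nil)))) (.nd (nat_lit 6) 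
(.lf (nat_lit 272545) (.g (nat_lit 1893) (.e (nat_lit 212736) (nat_lit 9) (.e (nat_lit 426100) (nat_lit 1) (.e (nat_lit 164399) (nat_lit 256) (.e (nat_lit 57447) (nat_lit 19) (.e (nat_lit 393266) (nat_lit 23) .nil))))) .nil)) 
(.lf (nat_lit 272609) (.g (nat_lit 501) (.e (nat_lit 204815) (nat_lit 17) (.e (nat_lit 6722) (nat_lit 362) (.e (nat_lit 180235) (nat_lit 1) .nil))) .nil)))) (.nd (nat_lit 5) (.nd (nat_lit 6) 
(.lf (nat_lit 272529) (.g (nat_lit 922) (.e (nat_lit 204813) (nat_lit 9) (.e (nat_lit 426108) (nat_lit 1) (.e (nat_lit 164403) (nat_lit 256) (.e (nat_lit 57447) (nat_lit 19) .nil)))) .nil)) 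
(.lf (nat_lit 272593) (.g (nat_lit 1737) (.e (nat_lit 204815) (nat_lit 17) (.e (nat_lit 2086) (nat_lit 142) (.e (nat_lit 704734) (nat_lit 11) (.e (nat_lit 16416) (nat_lit 3) (.e (nat_lit 204877) (nat_lit 31) (.e (nat_lit 384768) (nat_lit 3) .nil)))))) (.g (nat_lit 5) .nil .nil)))) (.nd (nat_lit 6) 
(.lf (nat_lit 272561) (.g (nat_lit 544) (.e (nat_lit 212736) (nat_lit 10) (.e (nat_lit 434248) (nat_lit 28) (.e (nat_lit 573473) (nat_lit 12) .nil))) .nil)) 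
(.lf (nat_lit 272625) (.g (nat_lit 521) (.e (nat_lit 204816) (nat_lit 17) (.e (nat_lit 6724) (nat_lit 362) (.e (nat_lit 180235) (nat_lit 1) .nil))) .nil))))) (.nd (nat_lit 4) (.nd (nat_lit 5) (.nd (nat_lit 6) 
(.lf (nat_lit 272521) (.g (nat_lit 2555) (.e (nat_lit 204813) (nat_lit 9) (.e (nat_lit 426108) (nat_lit 1) (.e (nat_lit 164401) (nat_lit 256) (.e (nat_lit 57447) (nat_lit 19) (.e (nat_lit 393280) (nat_lit 23) .nil))))) .nil)) 
(.lf (nat_lit 272585) (.g (nat_lit 1847) (.e (nat_lit 204815) (nat_lit 17) (.e (nat_lit 2080) (nat_lit 142) (.e (nat_lit 704734) (nat_lit 11) (.e (nat_lit 16416) (nat_lit 3) (.e (nat_lit 204877) (nat_lit 31) (.e (nat_lit 384768) (nat_lit 3) .nil)))))) (.g (nat_lit 5) .nil .nil)))) (.nd (nat_lit 6) 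
(.lf (nat_lit 272553) (.g (nat_lit 959) (.e (nat_lit 212736) (nat_lit 10) (.e (nat_lit 434208) (nat_lit 18) (.e (nat_lit 3998) (nat_lit 241) (.e (nat_lit 57390) (nat_lit 5) .nil)))) .nil)) 
(.lf (nat_lit 272617) (.g (nat_lit 671) (.e (nat_lit 204816) (nat_lit 17) (.e (nat_lit 6221) (nat_lit 333) (.e (nat_lit 57900) (nat_lit 276) (.e (nat_lit 122936) (nat_lit 23) .nil)))) .nil)))) (.nd (nat_lit 5) (.nd (nat_lit 6) 
(.lf (nat_lit 272537) (.g (nat_lit 2889) (.e (nat_lit 204813) (nat_lit 9) (.e (nat_lit 433920) (nat_lit 18) (.e (nat_lit 98358) (nat_lit 26) (.e (nat_lit 426131) (nat_lit 3) (.e (nat_lit 204838) (nat_lit 20) (.e (nat_lit 122624) (nat_lit 3) .nil)))))) (.g (nat_lit 5) .nil .nil))) 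
(.lf (nat_lit 272601) (.g (nat_lit 5215) (.e (nat_lit 204815) (nat_lit 17) (.e (nat_lit 2203) (nat_lit 144) (.e (nat_lit 720941) (nat_lit 22) (.e (nat_lit 90172) (nat_lit 14) (.e (nat_lit 180244) (nat_lit 5) (.e (nat_lit 532499) (nat_lit 1) (.e (nat_lit 57688) (nat_lit 156) (.e (nat_lit 163873) (nat_lit 3) .nil)))))))) (.g (nat_lit 8) .nil .nil)))) (.nd (nat_lit 6) 
(.lf (nat_lit 272569) (.g (nat_lit 1742) (.e (nat_lit 212736) (nat_lit 15) (.e (nat_lit 475214) (nat_lit 42) (.e (nat_lit 720929) (nat_lit 21) (.e (nat_lit 57927) (nat_lit 282) (.e (nat_lit 163931) (nat_lit 17) .nil))))) .nil)) 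
(.lf (nat_lit 272633) (.g (nat_lit 1542) (.e (nat_lit 204817) (nat_lit 17) (.e (nat_lit 6684) (nat_lit 357) (.e (nat_lit 2856) (nat_lit 184) (.e (nat_lit 426402) (nat_lit 15) (.e (nat_lit 1849) (nat_lit 124) .nil))))) .nil)))))) (.nd (nat_lit 3) (.nd (nat_lit 4) (.nd (nat_lit 5) (.nd (nat_lit 6) 
(.lf (nat_lit 272517) (.g (nat_lit 748) (.e (nat_lit 204813) (nat_lit 9) (.e (nat_lit 426108) (nat_lit 1) (.e (nat_lit 164401) (nat_lit 256) .nil))) .nil)) 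
(.lf (nat_lit 272581) (.g (nat_lit 1723) (.e (nat_lit 204815) (nat_lit 17) (.e (nat_lit 2077) (nat_lit 142) (.e (nat_lit 704734) (nat_lit 11) (.e (nat_lit 16416) (nat_lit 3) (.e (nat_lit 204877) (nat_lit 31) (.e (nat_lit 384768) (nat_lit 3) .nil)))))) (.g (nat_lit 5) .nil .nil)))) (.nd (nat_lit 6) 
(.lf (nat_lit 272549) (.g (nat_lit 3255) (.e (nat_lit 212736) (nat_lit 9) (.e (nat_lit 426100) (nat_lit 1) (.e (nat_lit 164403) (nat_lit 256) (.e (nat_lit 57447) (nat_lit 19) (.e (nat_lit 393275) (nat_lit 23) .nil))))) .nil)) 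
(.lf (nat_lit 272613) (.g (nat_lit 1662) (.e (nat_lit 204815) (nat_lit 17) (.e (nat_lit 6724) (nat_lit 362) (.e (nat_lit 180245) (nat_lit 5) (.e (nat_lit 532523) (nat_lit 7) (.e (nat_lit 319537) (nat_lit 19) .nil))))) .nil)))) (.nd (nat_lit 5) (.nd (nat_lit 6) 
(.lf (nat_lit 272533) (.g (nat_lit 1617) (.e (nat_lit 204813) (nat_lit 9) (.e (nat_lit 426139) (nat_lit 3) (.e (nat_lit 204829) (nat_lit 18) (.e (nat_lit 65280) (nat_lit 166) .nil)))) .nil)) 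
(.lf (nat_lit 272597) (.g (nat_lit 1883) (.e (nat_lit 204815) (nat_lit 17) (.e (nat_lit 2093) (nat_lit 142) (.e (nat_lit 704734) (nat_lit 11) (.e (nat_lit 16416) (nat_lit 3) (.e (nat_lit 204877) (nat_lit 31) (.e (nat_lit 384768) (nat_lit 3) .nil)))))) (.g (nat_lit 5) .nil .nil)))) (.nd (nat_lit 6) 
(.lf (nat_lit 272565) (.g (nat_lit 329) (.e (nat_lit 212736) (nat_lit 10) (.e (nat_lit 434279) (nat_lit 39) (.e (nat_lit 663556) (nat_lit 0) .nil))) .nil)) 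
(.lf (nat_lit 272629) (.g (nat_lit 3368) (.e (nat_lit 204816) (nat_lit 17) (.e (nat_lit 6724) (nat_lit 362) (.e (nat_lit 180245) (nat_lit 5) (.e (nat_lit 532486) (nat_lit 0) (.e (nat_lit 6113) (nat_lit 332) (.e (nat_lit 1374) (nat_lit 104) (.e (nat_lit 303119) (nat_lit 3) .nil))))))) (.g (nat_lit 6) .nil .nil)))))) (.nd (nat_lit 4) (.nd (nat_lit 5) (.nd (nat_lit 6) 
(.lf (nat_lit 272525) (.g (nat_lit 349) (.e (nat_lit 204813) (nat_lit 9) (.e (nat_lit 426108) (nat_lit 1) (.e (nat_lit 164403) (nat_lit 256) .nil))) .nil)) 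
(.lf (nat_lit 272589) (.g (nat_lit 1688) (.e (nat_lit 204815) (nat_lit 17) (.e (nat_lit 2083) (nat_lit 142) (.e (nat_lit 704734) (nat_lit 11) (.e (nat_lit 16416) (nat_lit 3) (.e (nat_lit 204877) (nat_lit 31) (.e (nat_lit 384768) (nat_lit 3) .nil)))))) (.g (nat_lit 5) .nil .nil)))) (.nd (nat_lit 6) 
(.lf (nat_lit 272557) (.g (nat_lit 1444) (.e (nat_lit 212736) (nat_lit 10) (.e (nat_lit 434208) (nat_lit 18) (.e (nat_lit 5945) (nat_lit 322) (.e (nat_lit 57412) (nat_lit 12) (.e (nat_lit 336385) (nat_lit 27) .nil))))) .nil)) 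
(.lf (nat_lit 272621) (.g (nat_lit 511) (.e (nat_lit 204816) (nat_lit 17) (.e (nat_lit 6722) (nat_lit 362) (.e (nat_lit 180235) (nat_lit 1) .nil))) .nil)))) (.nd (nat_lit 5) (.nd (nat_lit 6) 
(.lf (nat_lit 272541) (.g (nat_lit 620) (.e (nat_lit 212736) (nat_lit 9) (.e (nat_lit 426100) (nat_lit 1) (.e (nat_lit 164398) (nat_lit 256) .nil))) .nil)) 
(.lf (nat_lit 272605) (.g (nat_lit 1231) (.e (nat_lit 204815) (nat_lit 17) (.e (nat_lit 2210) (nat_lit 145) (.e (nat_lit 737024) (nat_lit 12) (.e (nat_lit 434219) (nat_lit 19) (.e (nat_lit 499952) (nat_lit 14) (.e (nat_lit 1569) (nat_lit 110) (.e (nat_lit 360192) (nat_lit 3) .nil))))))) (.g (nat_lit 6) .nil .nil)))) (.nd (nat_lit 6) 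
(.lf (nat_lit 272573) (.g (nat_lit 1794) (.e (nat_lit 204815) (nat_lit 17) (.e (nat_lit 2044) (nat_lit 142) (.e (nat_lit 704734) (nat_lit 11) (.e (nat_lit 16416) (nat_lit 3) (.e (nat_lit 204876) (nat_lit 31) (.e (nat_lit 384768) (nat_lit 3) .nil)))))) (.g (nat_lit 5) .nil .nil))) 
(.lf (nat_lit 272637) (.g (nat_lit 1839) (.e (nat_lit 204819) (nat_lit 17) (.e (nat_lit 6113) (nat_lit 332) (.e (nat_lit 1361) (nat_lit 102) (.e (nat_lit 286727) (nat_lit 0) (.e (nat_lit 1799) (nat_lit 119) (.e (nat_lit 516176) (nat_lit 14) (.e (nat_lit 466980) (nat_lit 23) .nil))))))) (.g (nat_lit 4) .nil .nil)))))))) 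
(.nd (nat_lit 2) (.nd (nat_lit 3) (.nd (nat_lit 4) (.nd (nat_lit 5) (.nd (nat_lit 6) 
(.lf (nat_lit 272515) (.g (nat_lit 2282) (.e (nat_lit 204813) (nat_lit 9) (.e (nat_lit 426107) (nat_lit 1) (.e (nat_lit 164403) (nat_lit 256) (.e (nat_lit 57447) (nat_lit 19) (.e (nat_lit 393274) (nat_lit 23) (.e (nat_lit 426132) (nat_lit 3) .nil)))))) (.g (nat_lit 4) .nil .nil))) 
(.lf (nat_lit 272579) (.g (nat_lit 1580) (.e (nat_lit 204815) (nat_lit 17) (.e (nat_lit 2076) (nat_lit 142) (.e (nat_lit 704734) (nat_lit 11) (.e (nat_lit 16416) (nat_lit 3) (.e (nat_lit 204876) (nat_lit 31) (.e (nat_lit 384768) (nat_lit 3) .nil)))))) (.g (nat_lit 5) .nil .nil)))) (.nd (nat_lit 6) 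
(.lf (nat_lit 272547) (.g (nat_lit 2022) (.e (nat_lit 212736) (nat_lit 9) (.e (nat_lit 426100) (nat_lit 1) (.e (nat_lit 164403) (nat_lit 256) (.e (nat_lit 57447) (nat_lit 19) .nil)))) .nil)) 
(.lf (nat_lit 272611) (.g (nat_lit 493) (.e (nat_lit 204815) (nat_lit 17) (.e (nat_lit 6724) (nat_lit 362) (.e (nat_lit 180234) (nat_lit 1) .nil))) .nil)))) (.nd (nat_lit 5) (.nd (nat_lit 6) 
(.lf (nat_lit 272531) (.g (nat_lit 2207) (.e (nat_lit 204813) (nat_lit 9) (.e (nat_lit 426108) (nat_lit 1) (.e (nat_lit 164403) (nat_lit 256) (.e (nat_lit 57447) (nat_lit 19) (.e (nat_lit 393277) (nat_lit 23) (.e (nat_lit 426134) (nat_lit 3) .nil)))))) (.g (nat_lit 4) .nil .nil))) 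
(.lf (nat_lit 272595) (.g (nat_lit 1993) (.e (nat_lit 204815) (nat_lit 17) (.e (nat_lit 2092) (nat_lit 142) (.e (nat_lit 704734) (nat_lit 11) (.e (nat_lit 16416) (nat_lit 3) (.e (nat_lit 204877) (nat_lit 31) (.e (nat_lit 384768) (nat_lit 3) .nil)))))) (.g (nat_lit 5) .nil .nil)))) (.nd (nat_lit 6) 
(.lf (nat_lit 272563) (.g (nat_lit 1088) (.e (nat_lit 212736) (nat_lit 10) (.e (nat_lit 434275) (nat_lit 39) (.e (nat_lit 663567) (nat_lit 4) (.e (nat_lit 65651) (nat_lit 27) .nil)))) .nil)) 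
(.lf (nat_lit 272627) (.g (nat_lit 1704) (.e (nat_lit 204816) (nat_lit 17) (.e (nat_lit 6724) (nat_lit 362) (.e (nat_lit 180243) (nat_lit 5) (.e (nat_lit 532504) (nat_lit 1) (.e (nat_lit 57776) (nat_lit 233) .nil))))) .nil))))) (.nd (nat_lit 4) (.nd (nat_lit 5) (.nd (nat_lit 6) 
(.lf (nat_lit 272523) (.g (nat_lit 2942) (.e (nat_lit 204813) (nat_lit 9) (.e (nat_lit 426108) (nat_lit 1) (.e (nat_lit 164402) (nat_lit 256) (.e (nat_lit 57406) (nat_lit 12) (.e (nat_lit 336443) (nat_lit 32) (.e (nat_lit 466979) (nat_lit 23) .nil)))))) (.g (nat_lit 5) .nil .nil))) 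
(.lf (nat_lit 272587) (.g (nat_lit 1709) (.e (nat_lit 204815) (nat_lit 17) (.e (nat_lit 2082) (nat_lit 142) (.e (nat_lit 704734) (nat_lit 11) (.e (nat_lit 16416) (nat_lit 3) (.e (nat_lit 204877) (nat_lit 31) (.e (nat_lit 384768) (nat_lit 3) .nil)))))) (.g (nat_lit 5) .nil .nil)))) (.nd (nat_lit 6) 
(.lf (nat_lit 272555) (.g (nat_lit 445) (.e (nat_lit 212736) (nat_lit 10) (.e (nat_lit 434208) (nat_lit 18) (.e (nat_lit 5945) (nat_lit 322) .nil))) .nil)) 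
(.lf (nat_lit 272619) (.g (nat_lit 1455) (.e (nat_lit 204816) (nat_lit 17) (.e (nat_lit 6714) (nat_lit 360) (.e (nat_lit 164238) (nat_lit 187) (.e (nat_lit 1235) (nat_lit 91) (.e (nat_lit 90176) (nat_lit 15) .nil))))) .nil)))) (.nd (nat_lit 5) (.nd (nat_lit 6) 
(.lf (nat_lit 272539) (.g (nat_lit 1600) (.e (nat_lit 212736) (nat_lit 9) (.e (nat_lit 426098) (nat_lit 1) (.e (nat_lit 164399) (nat_lit 256) (.e (nat_lit 57447) (nat_lit 19) .nil)))) .nil)) 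
(.lf (nat_lit 272603) (.g (nat_lit 615) (.e (nat_lit 204815) (nat_lit 17) (.e (nat_lit 2210) (nat_lit 145) (.e (nat_lit 729095) (nat_lit 11) (.e (nat_lit 426152) (nat_lit 5) (.e (nat_lit 245784) (nat_lit 9) (.e (nat_lit 1560) (nat_lit 110) (.e (nat_lit 360192) (nat_lit 3) .nil))))))) (.g (nat_lit 6) .nil .nil)))) (.nd (nat_lit 6) 
(.lf (nat_lit 272571) (.g (nat_lit 1214) (.e (nat_lit 204814) (nat_lit 17) (.e (nat_lit 6113) (nat_lit 332) (.e (nat_lit 1361) (nat_lit 102) (.e (nat_lit 286735) (nat_lit 3) .nil)))) .nil)) 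
(.lf (nat_lit 272635) (.g (nat_lit 916) (.e (nat_lit 204819) (nat_lit 17) (.e (nat_lit 6113) (nat_lit 332) (.e (nat_lit 975) (nat_lit 81) (.e (nat_lit 5394) (nat_lit 301) .nil)))) .nil)))))) (.nd (nat_lit 3) (.nd (nat_lit 4) (.nd (nat_lit 5) (.nd (nat_lit 6) 
(.lf (nat_lit 272519) (.g (nat_lit 3262) (.e (nat_lit 204813) (nat_lit 9) (.e (nat_lit 426108) (nat_lit 1) (.e (nat_lit 164401) (nat_lit 256) (.e (nat_lit 57447) (nat_lit 19) (.e (nat_lit 393238) (nat_lit 17) (.e (nat_lit 7349) (nat_lit 388) (.e (nat_lit 2682) (nat_lit 168) .nil))))))) (.g (nat_lit 4) .nil .nil))) 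
(.lf (nat_lit 272583) (.g (nat_lit 2099) (.e (nat_lit 204815) (nat_lit 17) (.e (nat_lit 2078) (nat_lit 142) (.e (nat_lit 704734) (nat_lit 11) (.e (nat_lit 16416) (nat_lit 3) (.e (nat_lit 204877) (nat_lit 31) (.e (nat_lit 384768) (nat_lit 3) .nil)))))) (.g (nat_lit 5) .nil .nil)))) (.nd (nat_lit 6) 
(.lf (nat_lit 272551) (.g (nat_lit 1601) (.e (nat_lit 212736) (nat_lit 9) (.e (nat_lit 426436) (nat_lit 18) (.e (nat_lit 98376) (nat_lit 30) (.e (nat_lit 458789) (nat_lit 23) (.e (nat_lit 532513) (nat_lit 3) .nil))))) .nil)) 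
(.lf (nat_lit 272615) (.g (nat_lit 2902) (.e (nat_lit 204816) (nat_lit 17) (.e (nat_lit 6084) (nat_lit 332) (.e (nat_lit 1367) (nat_lit 103) (.e (nat_lit 294928) (nat_lit 2) (.e (nat_lit 90176) (nat_lit 15) (.e (nat_lit 188450) (nat_lit 23) .nil)))))) (.g (nat_lit 6) .nil .nil))))) (.nd (nat_lit 5) (.nd (nat_lit 6) 
(.lf (nat_lit 272535) (.g (nat_lit 1342) (.e (nat_lit 204813) (nat_lit 9) (.e (nat_lit 426308) (nat_lit 12) (.e (nat_lit 475177) (nat_lit 24) (.e (nat_lit 524032) (nat_lit 18) .nil)))) .nil)) 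
(.lf (nat_lit 272599) (.g (nat_lit 1986) (.e (nat_lit 204815) (nat_lit 17) (.e (nat_lit 2096) (nat_lit 142) (.e (nat_lit 704734) (nat_lit 11) (.e (nat_lit 16416) (nat_lit 3) (.e (nat_lit 204876) (nat_lit 31) (.e (nat_lit 384768) (nat_lit 3) .nil)))))) (.g (nat_lit 5) .nil .nil)))) (.nd (nat_lit 6) 
(.lf (nat_lit 272567) (.g (nat_lit 1110) (.e (nat_lit 212736) (nat_lit 15) (.e (nat_lit 475211) (nat_lit 41) (.e (nat_lit 712740) (nat_lit 27) (.e (nat_lit 426472) (nat_lit 25) (.e (nat_lit 319538) (nat_lit 19) .nil))))) .nil)) 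
(.lf (nat_lit 272631) (.g (nat_lit 2642) (.e (nat_lit 204817) (nat_lit 17) (.e (nat_lit 2198) (nat_lit 144) (.e (nat_lit 720940) (nat_lit 22) (.e (nat_lit 90170) (nat_lit 13) (.e (nat_lit 172065) (nat_lit 3) (.e (nat_lit 204830) (nat_lit 18) (.e (nat_lit 57661) (nat_lit 152) (.e (nat_lit 2461) (nat_lit 157) (.e (nat_lit 2684) (nat_lit 168) .nil))))))))) (.g (nat_lit 6) .nil .nil)))))) 
(.nd (nat_lit 4) (.nd (nat_lit 5) (.nd (nat_lit 6) 
(.lf (nat_lit 272527) (.g (nat_lit 2266) (.e (nat_lit 204813) (nat_lit 9) (.e (nat_lit 426108) (nat_lit 1) (.e (nat_lit 164403) (nat_lit 256) (.e (nat_lit 57409) (nat_lit 12) (.e (nat_lit 336443) (nat_lit 32) (.e (nat_lit 466978) (nat_lit 23) .nil)))))) (.g (nat_lit 4) .nil .nil))) 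
(.lf (nat_lit 272591) (.g (nat_lit 1934) (.e (nat_lit 204815) (nat_lit 17) (.e (nat_lit 2084) (nat_lit 142) (.e (nat_lit 704734) (nat_lit 11) (.e (nat_lit 16416) (nat_lit 3) (.e (nat_lit 204877) (nat_lit 31) (.e (nat_lit 384768) (nat_lit 3) .nil)))))) (.g (nat_lit 5) .nil .nil)))) (.nd (nat_lit 6) 
(.lf (nat_lit 272559) (.g (nat_lit 1300) (.e (nat_lit 212736) (nat_lit 10) (.e (nat_lit 434208) (nat_lit 18) (.e (nat_lit 5945) (nat_lit 322) (.e (nat_lit 57412) (nat_lit 12) (.e (nat_lit 336389) (nat_lit 27) .nil))))) .nil)) 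
(.lf (nat_lit 272623) (.g (nat_lit 3852) (.e (nat_lit 204816) (nat_lit 17) (.e (nat_lit 6722) (nat_lit 362) (.e (nat_lit 180244) (nat_lit 5) (.e (nat_lit 532486) (nat_lit 0) (.e (nat_lit 6113) (nat_lit 332) (.e (nat_lit 1374) (nat_lit 104) (.e (nat_lit 303119) (nat_lit 3) .nil))))))) (.g (nat_lit 6) .nil .nil))))) (.nd (nat_lit 5) (.nd (nat_lit 6) 
(.lf (nat_lit 272543) (.g (nat_lit 2288) (.e (nat_lit 212736) (nat_lit 9) (.e (nat_lit 426100) (nat_lit 1) (.e (nat_lit 164398) (nat_lit 256) (.e (nat_lit 57447) (nat_lit 19) (.e (nat_lit 393277) (nat_lit 23) .nil))))) .nil)) 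
(.lf (nat_lit 272607) (.g (nat_lit 3675) (.e (nat_lit 204815) (nat_lit 17) (.e (nat_lit 6718) (nat_lit 361) (.e (nat_lit 172133) (nat_lit 15) (.e (nat_lit 1856) (nat_lit 124) (.e (nat_lit 557109) (nat_lit 15) (.e (nat_lit 188452) (nat_lit 23) .nil)))))) (.g (nat_lit 0) .nil .nil)))) (.nd (nat_lit 6) 
(.lf (nat_lit 272575) (.g (nat_lit 1642) (.e (nat_lit 204815) (nat_lit 17) (.e (nat_lit 2074) (nat_lit 142) (.e (nat_lit 704734) (nat_lit 11) (.e (nat_lit 16416) (nat_lit 3) (.e (nat_lit 204876) (nat_lit 31) (.e (nat_lit 384768) (nat_lit 3) .nil)))))) (.g (nat_lit 5) .nil .nil))) 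
(.lf (nat_lit 272639) (.g (nat_lit 2380) (.e (nat_lit 204819) (nat_lit 17) (.e (nat_lit 6113) (nat_lit 332) (.e (nat_lit 1361) (nat_lit 102) (.e (nat_lit 286735) (nat_lit 3) (.e (nat_lit 98325) (nat_lit 17) (.e (nat_lit 7936) (nat_lit 392) (.e (nat_lit 172066) (nat_lit 3) .nil))))))) (.g (nat_lit 4) .nil .nil))))))))))

noncomputable def tv3496 : DT := (.nd (nat_lit 0) (.nd (nat_lit 1) (.nd (nat_lit 2) (.nd (nat_lit 3) (.nd (nat_lit 4) (.nd (nat_lit 5) (.nd (nat_lit 6) 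
(.lf (nat_lit 272640) (.g (nat_lit 1806) (.e (nat_lit 204819) (nat_lit 17) (.e (nat_lit 6113) (nat_lit 332) (.e (nat_lit 1361) (nat_lit 102) (.e (nat_lit 286735) (nat_lit 3) (.e (nat_lit 98363) (nat_lit 26) .nil))))) .nil)) 
(.lf (nat_lit 272704) (.g (nat_lit 649) (.e (nat_lit 204828) (nat_lit 18) (.e (nat_lit 57847) (nat_lit 252) (.e (nat_lit 57445) (nat_lit 19) .nil))) .nil))) (.nd (nat_lit 6) 
(.lf (nat_lit 272672) (.g (nat_lit 1576) (.e (nat_lit 204821) (nat_lit 17) (.e (nat_lit 2143) (nat_lit 142) (.e (nat_lit 704741) (nat_lit 11) (.e (nat_lit 16416) (nat_lit 3) (.e (nat_lit 204877) (nat_lit 31) (.e (nat_lit 384768) (nat_lit 3) .nil)))))) (.g (nat_lit 5) .nil .nil))) 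
(.lf (nat_lit 272736) (.g (nat_lit 1671) (.e (nat_lit 204828) (nat_lit 18) (.e (nat_lit 57852) (nat_lit 252) (.e (nat_lit 57406) (nat_lit 12) (.e (nat_lit 336367) (nat_lit 27) .nil)))) .nil)))) (.nd (nat_lit 5) (.nd (nat_lit 6) 
(.lf (nat_lit 272656) (.g (nat_lit 3060) (.e (nat_lit 204821) (nat_lit 17) (.e (nat_lit 1040) (nat_lit 81) (.e (nat_lit 5195) (nat_lit 294) (.e (nat_lit 57377) (nat_lit 3) (.e (nat_lit 98313) (nat_lit 9) (.e (nat_lit 336027) (nat_lit 3) (.e (nat_lit 98321) (nat_lit 17) (.e (nat_lit 3771) (nat_lit 229) (.e (nat_lit 794673) (nat_lit 23) .nil))))))))) (.g (nat_lit 7) .nil .nil))) 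
(.lf (nat_lit 272720) (.g (nat_lit 5190) (.e (nat_lit 204828) (nat_lit 18) (.e (nat_lit 57849) (nat_lit 252) (.e (nat_lit 57377) (nat_lit 3) (.e (nat_lit 98317) (nat_lit 9) (.e (nat_lit 336020) (nat_lit 3) .nil))))) .nil))) (.nd (nat_lit 6) 
(.lf (nat_lit 272688) (.g (nat_lit 2208) (.e (nat_lit 204821) (nat_lit 17) (.e (nat_lit 6114) (nat_lit 332) (.e (nat_lit 1374) (nat_lit 104) (.e (nat_lit 303119) (nat_lit 3) (.e (nat_lit 204883) (nat_lit 33) .nil))))) .nil)) 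
(.lf (nat_lit 272752) (.g (nat_lit 1589) (.e (nat_lit 204828) (nat_lit 18) (.e (nat_lit 57931) (nat_lit 282) (.e (nat_lit 163867) (nat_lit 2) (.e (nat_lit 196667) (nat_lit 14) .nil)))) .nil))))) (.nd (nat_lit 4) (.nd (nat_lit 5) (.nd (nat_lit 6) 
(.lf (nat_lit 272648) (.g (nat_lit 1868) (.e (nat_lit 204819) (nat_lit 17) (.e (nat_lit 6113) (nat_lit 332) (.e (nat_lit 2810) (nat_lit 180) (.e (nat_lit 303117) (nat_lit 2) (.e (nat_lit 196628) (nat_lit 9) .nil))))) .nil)) 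
(.lf (nat_lit 272712) (.g (nat_lit 3936) (.e (nat_lit 204828) (nat_lit 18) (.e (nat_lit 57849) (nat_lit 252) (.e (nat_lit 57372) (nat_lit 2) (.e (nat_lit 90160) (nat_lit 11) (.e (nat_lit 24608) (nat_lit 3) (.e (nat_lit 98341) (nat_lit 20) (.e (nat_lit 221214) (nat_lit 23) .nil))))))) (.g (nat_lit 5) .nil .nil)))) (.nd (nat_lit 6) 
(.lf (nat_lit 272680) (.g (nat_lit 1042) (.e (nat_lit 204821) (nat_lit 17) (.e (nat_lit 2391) (nat_lit 156) (.e (nat_lit 819204) (nat_lit 0) (.e (nat_lit 2685) (nat_lit 168) .nil)))) .nil)) 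
(.lf (nat_lit 272744) (.g (nat_lit 551) (.e (nat_lit 204828) (nat_lit 18) (.e (nat_lit 57853) (nat_lit 252) (.e (nat_lit 57446) (nat_lit 19) .nil))) .nil)))) (.nd (nat_lit 5) (.nd (nat_lit 6) 
(.lf (nat_lit 272664) (.g (nat_lit 1819) (.e (nat_lit 204821) (nat_lit 17) (.e (nat_lit 2044) (nat_lit 142) (.e (nat_lit 704734) (nat_lit 11) (.e (nat_lit 16416) (nat_lit 3) (.e (nat_lit 204876) (nat_lit 31) (.e (nat_lit 384768) (nat_lit 3) .nil)))))) (.g (nat_lit 5) .nil .nil))) 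
(.lf (nat_lit 272728) (.g (nat_lit 1901) (.e (nat_lit 204828) (nat_lit 18) (.e (nat_lit 57849) (nat_lit 252) (.e (nat_lit 57379) (nat_lit 3) (.e (nat_lit 106240) (nat_lit 10) .nil)))) .nil))) (.nd (nat_lit 6) 
(.lf (nat_lit 272696) (.g (nat_lit 2401) (.e (nat_lit 212736) (nat_lit 17) (.e (nat_lit 6516) (nat_lit 347) (.e (nat_lit 65571) (nat_lit 3) (.e (nat_lit 98350) (nat_lit 24) (.e (nat_lit 409647) (nat_lit 18) .nil))))) .nil)) 
(.lf (nat_lit 272760) (.g (nat_lit 3458) (.e (nat_lit 204829) (nat_lit 18) (.e (nat_lit 57686) (nat_lit 156) (.e (nat_lit 163875) (nat_lit 3) (.e (nat_lit 204837) (nat_lit 20) (.e (nat_lit 114719) (nat_lit 23) (.e (nat_lit 98365) (nat_lit 26) (.e (nat_lit 426138) (nat_lit 3) .nil))))))) (.g (nat_lit 4) .nil .nil))))))) (.nd (nat_lit 3) (.nd (nat_lit 4) (.nd (nat_lit 5) (.nd (nat_lit 6) 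
(.lf (nat_lit 272644) (.g (nat_lit 3971) (.e (nat_lit 204819) (nat_lit 17) (.e (nat_lit 6113) (nat_lit 332) (.e (nat_lit 1374) (nat_lit 104) (.e (nat_lit 303147) (nat_lit 15) (.e (nat_lit 1859) (nat_lit 124) (.e (nat_lit 557107) (nat_lit 15) (.e (nat_lit 188450) (nat_lit 23) .nil))))))) (.g (nat_lit 0) .nil .nil))) 
(.lf (nat_lit 272708) (.g (nat_lit 2041) (.e (nat_lit 204828) (nat_lit 18) (.e (nat_lit 57849) (nat_lit 252) (.e (nat_lit 57372) (nat_lit 2) (.e (nat_lit 90133) (nat_lit 9) .nil)))) .nil))) (.nd (nat_lit 6) 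
(.lf (nat_lit 272676) (.g (nat_lit 2097) (.e (nat_lit 204821) (nat_lit 17) (.e (nat_lit 2281) (nat_lit 150) (.e (nat_lit 770069) (nat_lit 7) (.e (nat_lit 57479) (nat_lit 28) (.e (nat_lit 557101) (nat_lit 13) .nil))))) .nil)) 
(.lf (nat_lit 272740) (.g (nat_lit 552) (.e (nat_lit 204828) (nat_lit 18) (.e (nat_lit 57853) (nat_lit 252) (.e (nat_lit 57445) (nat_lit 19) .nil))) .nil)))) (.nd (nat_lit 5) (.nd (nat_lit 6) 
(.lf (nat_lit 272660) (.g (nat_lit 1072) (.e (nat_lit 204821) (nat_lit 17) (.e (nat_lit 2039) (nat_lit 141) (.e (nat_lit 696343) (nat_lit 8) (.e (nat_lit 172073) (nat_lit 5) (.e (nat_lit 245784) (nat_lit 9) (.e (nat_lit 1560) (nat_lit 110) (.e (nat_lit 360192) (nat_lit 3) .nil))))))) (.g (nat_lit 6) .nil .nil))) 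
(.lf (nat_lit 272724) (.g (nat_lit 797) (.e (nat_lit 204828) (nat_lit 18) (.e (nat_lit 57849) (nat_lit 252) (.e (nat_lit 57379) (nat_lit 3) .nil))) .nil))) (.nd (nat_lit 6) 
(.lf (nat_lit 272692) (.g (nat_lit 1569) (.e (nat_lit 204824) (nat_lit 17) (.e (nat_lit 6680) (nat_lit 357) (.e (nat_lit 2856) (nat_lit 184) (.e (nat_lit 426402) (nat_lit 15) (.e (nat_lit 1849) (nat_lit 124) .nil))))) .nil)) 
(.lf (nat_lit 272756) (.g (nat_lit 2016) (.e (nat_lit 204828) (nat_lit 18) (.e (nat_lit 57931) (nat_lit 282) (.e (nat_lit 163874) (nat_lit 3) (.e (nat_lit 204862) (nat_lit 27) .nil)))) .nil))))) (.nd (nat_lit 4) (.nd (nat_lit 5) (.nd (nat_lit 6) 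
(.lf (nat_lit 272652) (.g (nat_lit 2429) (.e (nat_lit 204819) (nat_lit 17) (.e (nat_lit 6218) (nat_lit 333) (.e (nat_lit 57864) (nat_lit 256) (.e (nat_lit 60) (nat_lit 0) (.e (nat_lit 1859) (nat_lit 124) (.e (nat_lit 557107) (nat_lit 15) (.e (nat_lit 188450) (nat_lit 23) .nil))))))) (.g (nat_lit 0) .nil .nil))) 
(.lf (nat_lit 272716) (.g (nat_lit 3955) (.e (nat_lit 204828) (nat_lit 18) (.e (nat_lit 57849) (nat_lit 252) (.e (nat_lit 57375) (nat_lit 2) (.e (nat_lit 90160) (nat_lit 11) (.e (nat_lit 24607) (nat_lit 3) .nil))))) .nil))) (.nd (nat_lit 6) 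
(.lf (nat_lit 272684) (.g (nat_lit 2827) (.e (nat_lit 204821) (nat_lit 17) (.e (nat_lit 6114) (nat_lit 332) (.e (nat_lit 1370) (nat_lit 103) (.e (nat_lit 294915) (nat_lit 0) .nil)))) .nil)) 
(.lf (nat_lit 272748) (.g (nat_lit 2933) (.e (nat_lit 204828) (nat_lit 18) (.e (nat_lit 57926) (nat_lit 282) (.e (nat_lit 163870) (nat_lit 2) (.e (nat_lit 196666) (nat_lit 13) (.e (nat_lit 65571) (nat_lit 3) .nil))))) .nil)))) (.nd (nat_lit 5) (.nd (nat_lit 6) 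
(.lf (nat_lit 272668) (.g (nat_lit 1753) (.e (nat_lit 204821) (nat_lit 17) (.e (nat_lit 2088) (nat_lit 142) (.e (nat_lit 704734) (nat_lit 11) (.e (nat_lit 16412) (nat_lit 2) (.e (nat_lit 196674) (nat_lit 15) (.e (nat_lit 89856) (nat_lit 3) .nil)))))) (.g (nat_lit 5) .nil .nil))) 
(.lf (nat_lit 272732) (.g (nat_lit 794) (.e (nat_lit 204828) (nat_lit 18) (.e (nat_lit 57849) (nat_lit 252) (.e (nat_lit 57445) (nat_lit 19) .nil))) .nil))) (.nd (nat_lit 6) 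
(.lf (nat_lit 272700) (.g (nat_lit 1686) (.e (nat_lit 204828) (nat_lit 18) (.e (nat_lit 57691) (nat_lit 156) (.e (nat_lit 163875) (nat_lit 3) (.e (nat_lit 204838) (nat_lit 20) .nil)))) .nil)) 
(.lf (nat_lit 272764) (.g (nat_lit 2217) (.e (nat_lit 204829) (nat_lit 18) (.e (nat_lit 57688) (nat_lit 156) (.e (nat_lit 163867) (nat_lit 2) (.e (nat_lit 196624) (nat_lit 9) (.e (nat_lit 1276) (nat_lit 94) (.e (nat_lit 114718) (nat_lit 23) (.e (nat_lit 98365) (nat_lit 26) (.e (nat_lit 426133) (nat_lit 3) .nil)))))))) (.g (nat_lit 4) .nil .nil)))))))) 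
(.nd (nat_lit 2) (.nd (nat_lit 3) (.nd (nat_lit 4) (.nd (nat_lit 5) (.nd (nat_lit 6) 
(.lf (nat_lit 272642) (.g (nat_lit 2714) (.e (nat_lit 204819) (nat_lit 17) (.e (nat_lit 6113) (nat_lit 332) (.e (nat_lit 1374) (nat_lit 104) (.e (nat_lit 303119) (nat_lit 3) (.e (nat_lit 204821) (nat_lit 17) (.e (nat_lit 6092) (nat_lit 332) (.e (nat_lit 1374) (nat_lit 104) (.e (nat_lit 303119) (nat_lit 3) .nil)))))))) (.g (nat_lit 4) .nil .nil))) 
(.lf (nat_lit 272706) (.g (nat_lit 1697) (.e (nat_lit 204828) (nat_lit 18) (.e (nat_lit 57849) (nat_lit 252) (.e (nat_lit 57372) (nat_lit 2) (.e (nat_lit 90128) (nat_lit 9) .nil)))) .nil))) (.nd (nat_lit 6) 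
(.lf (nat_lit 272674) (.g (nat_lit 1543) (.e (nat_lit 204821) (nat_lit 17) (.e (nat_lit 2155) (nat_lit 142) (.e (nat_lit 704736) (nat_lit 11) (.e (nat_lit 16411) (nat_lit 2) (.e (nat_lit 196672) (nat_lit 15) (.e (nat_lit 89856) (nat_lit 3) .nil)))))) (.g (nat_lit 5) .nil .nil))) 
(.lf (nat_lit 272738) (.g (nat_lit 4454) (.e (nat_lit 204828) (nat_lit 18) (.e (nat_lit 57853) (nat_lit 252) (.e (nat_lit 57377) (nat_lit 3) (.e (nat_lit 98317) (nat_lit 9) (.e (nat_lit 336027) (nat_lit 3) .nil))))) .nil)))) (.nd (nat_lit 5) (.nd (nat_lit 6) 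
(.lf (nat_lit 272658) (.g (nat_lit 1803) (.e (nat_lit 204821) (nat_lit 17) (.e (nat_lit 1040) (nat_lit 81) (.e (nat_lit 5195) (nat_lit 294) (.e (nat_lit 57445) (nat_lit 19) (.e (nat_lit 401152) (nat_lit 11) (.e (nat_lit 360192) (nat_lit 3) .nil)))))) (.g (nat_lit 4) .nil .nil))) 
(.lf (nat_lit 272722) (.g (nat_lit 3348) (.e (nat_lit 204828) (nat_lit 18) (.e (nat_lit 57849) (nat_lit 252) (.e (nat_lit 57377) (nat_lit 3) (.e (nat_lit 98317) (nat_lit 9) (.e (nat_lit 336027) (nat_lit 3) .nil))))) .nil))) (.nd (nat_lit 6) 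
(.lf (nat_lit 272690) (.g (nat_lit 606) (.e (nat_lit 204821) (nat_lit 17) (.e (nat_lit 6136) (nat_lit 332) (.e (nat_lit 1349) (nat_lit 102) (.e (nat_lit 286735) (nat_lit 3) .nil)))) .nil)) 
(.lf (nat_lit 272754) (.g (nat_lit 2545) (.e (nat_lit 204828) (nat_lit 18) (.e (nat_lit 57931) (nat_lit 282) (.e (nat_lit 163869) (nat_lit 2) (.e (nat_lit 196670) (nat_lit 14) (.e (nat_lit 73746) (nat_lit 3) .nil))))) .nil))))) (.nd (nat_lit 4) (.nd (nat_lit 5) (.nd (nat_lit 6) 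
(.lf (nat_lit 272650) (.g (nat_lit 448) (.e (nat_lit 204819) (nat_lit 17) (.e (nat_lit 6218) (nat_lit 333) (.e (nat_lit 57819) (nat_lit 248) .nil))) .nil)) 
(.lf (nat_lit 272714) (.g (nat_lit 1672) (.e (nat_lit 204828) (nat_lit 18) (.e (nat_lit 57849) (nat_lit 252) (.e (nat_lit 57375) (nat_lit 2) (.e (nat_lit 90160) (nat_lit 11) .nil)))) .nil))) (.nd (nat_lit 6) 
(.lf (nat_lit 272682) (.g (nat_lit 2827) (.e (nat_lit 204821) (nat_lit 17) (.e (nat_lit 6114) (nat_lit 332) (.e (nat_lit 1370) (nat_lit 103) (.e (nat_lit 294912) (nat_lit 0) .nil)))) .nil)) 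
(.lf (nat_lit 272746) (.g (nat_lit 1368) (.e (nat_lit 204828) (nat_lit 18) (.e (nat_lit 57854) (nat_lit 252) (.e (nat_lit 57409) (nat_lit 12) (.e (nat_lit 336367) (nat_lit 27) (.e (nat_lit 426540) (nat_lit 29) .nil))))) .nil)))) (.nd (nat_lit 5) (.nd (nat_lit 6) 
(.lf (nat_lit 272666) (.g (nat_lit 1732) (.e (nat_lit 204821) (nat_lit 17) (.e (nat_lit 2087) (nat_lit 142) (.e (nat_lit 704734) (nat_lit 11) (.e (nat_lit 16416) (nat_lit 3) (.e (nat_lit 204876) (nat_lit 31) (.e (nat_lit 384768) (nat_lit 3) .nil)))))) (.g (nat_lit 5) .nil .nil))) 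
(.lf (nat_lit 272730) (.g (nat_lit 2387) (.e (nat_lit 204828) (nat_lit 18) (.e (nat_lit 57849) (nat_lit 252) (.e (nat_lit 57407) (nat_lit 12) (.e (nat_lit 336366) (nat_lit 27) .nil)))) .nil))) (.nd (nat_lit 6) 
(.lf (nat_lit 272698) (.g (nat_lit 2104) (.e (nat_lit 204828) (nat_lit 18) (.e (nat_lit 57691) (nat_lit 156) (.e (nat_lit 163875) (nat_lit 3) (.e (nat_lit 204834) (nat_lit 19) .nil)))) .nil)) 
(.lf (nat_lit 272762) (.g (nat_lit 3817) (.e (nat_lit 204829) (nat_lit 18) (.e (nat_lit 57686) (nat_lit 156) (.e (nat_lit 163875) (nat_lit 3) (.e (nat_lit 204838) (nat_lit 20) (.e (nat_lit 114716) (nat_lit 22) (.e (nat_lit 90185) (nat_lit 17) (.e (nat_lit 237594) (nat_lit 3) .nil))))))) (.g (nat_lit 6) .nil .nil))))))) (.nd (nat_lit 3) (.nd (nat_lit 4) (.nd (nat_lit 5) (.nd (nat_lit 6) 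
(.lf (nat_lit 272646) (.g (nat_lit 483) (.e (nat_lit 204819) (nat_lit 17) (.e (nat_lit 6113) (nat_lit 332) (.e (nat_lit 2507) (nat_lit 157) .nil))) .nil)) 
(.lf (nat_lit 272710) (.g (nat_lit 3026) (.e (nat_lit 204828) (nat_lit 18) (.e (nat_lit 57849) (nat_lit 252) (.e (nat_lit 57372) (nat_lit 2) (.e (nat_lit 90160) (nat_lit 11) (.e (nat_lit 24606) (nat_lit 3) .nil))))) .nil))) (.nd (nat_lit 6) 
(.lf (nat_lit 272678) (.g (nat_lit 5708) (.e (nat_lit 204821) (nat_lit 17) (.e (nat_lit 2281) (nat_lit 150) (.e (nat_lit 770069) (nat_lit 7) (.e (nat_lit 57480) (nat_lit 28) (.e (nat_lit 557103) (nat_lit 14) (.e (nat_lit 180243) (nat_lit 5) (.e (nat_lit 532513) (nat_lit 3) (.e (nat_lit 122624) (nat_lit 3) .nil)))))))) (.g (nat_lit 7) .nil .nil))) 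
(.lf (nat_lit 272742) (.g (nat_lit 2180) (.e (nat_lit 204828) (nat_lit 18) (.e (nat_lit 57853) (nat_lit 252) (.e (nat_lit 57445) (nat_lit 19) (.e (nat_lit 393229) (nat_lit 9) (.e (nat_lit 336088) (nat_lit 9) .nil))))) .nil)))) (.nd (nat_lit 5) (.nd (nat_lit 6) 
(.lf (nat_lit 272662) (.g (nat_lit 1046) (.e (nat_lit 204821) (nat_lit 17) (.e (nat_lit 2041) (nat_lit 141) (.e (nat_lit 696343) (nat_lit 8) (.e (nat_lit 172073) (nat_lit 5) (.e (nat_lit 245784) (nat_lit 9) (.e (nat_lit 1560) (nat_lit 110) (.e (nat_lit 360192) (nat_lit 3) .nil))))))) (.g (nat_lit 5) .nil .nil))) 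
(.lf (nat_lit 272726) (.g (nat_lit 2495) (.e (nat_lit 204828) (nat_lit 18) (.e (nat_lit 57849) (nat_lit 252) (.e (nat_lit 57379) (nat_lit 3) (.e (nat_lit 98313) (nat_lit 9) (.e (nat_lit 336027) (nat_lit 3) (.e (nat_lit 98321) (nat_lit 17) (.e (nat_lit 3771) (nat_lit 229) (.e (nat_lit 794673) (nat_lit 23) .nil)))))))) (.g (nat_lit 4) .nil .nil)))) (.nd (nat_lit 6) 
(.lf (nat_lit 272694) (.g (nat_lit 603) (.e (nat_lit 212736) (nat_lit 17) (.e (nat_lit 6078) (nat_lit 332) (.e (nat_lit 1360) (nat_lit 102) (.e (nat_lit 286735) (nat_lit 3) .nil)))) .nil)) 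
(.lf (nat_lit 272758) (.g (nat_lit 2518) (.e (nat_lit 204829) (nat_lit 18) (.e (nat_lit 57686) (nat_lit 156) (.e (nat_lit 163868) (nat_lit 2) (.e (nat_lit 196624) (nat_lit 9) (.e (nat_lit 1277) (nat_lit 94) (.e (nat_lit 114716) (nat_lit 22) (.e (nat_lit 90185) (nat_lit 17) (.e (nat_lit 237594) (nat_lit 3) .nil)))))))) (.g (nat_lit 4) .nil .nil)))))) 
(.nd (nat_lit 4) (.nd (nat_lit 5) (.nd (nat_lit 6) 
(.lf (nat_lit 272654) (.g (nat_lit 732) (.e (nat_lit 204819) (nat_lit 17) (.e (nat_lit 6218) (nat_lit 333) (.e (nat_lit 57896) (nat_lit 273) (.e (nat_lit 57464) (nat_lit 23) .nil)))) .nil)) 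
(.lf (nat_lit 272718) (.g (nat_lit 5279) (.e (nat_lit 204828) (nat_lit 18) (.e (nat_lit 57849) (nat_lit 252) (.e (nat_lit 57377) (nat_lit 3) (.e (nat_lit 98317) (nat_lit 9) (.e (nat_lit 335892) (nat_lit 0) .nil))))) .nil))) (.nd (nat_lit 6) 
(.lf (nat_lit 272686) (.g (nat_lit 2766) (.e (nat_lit 204821) (nat_lit 17) (.e (nat_lit 6114) (nat_lit 332) (.e (nat_lit 1370) (nat_lit 103) (.e (nat_lit 302848) (nat_lit 3) .nil)))) .nil)) 
(.lf (nat_lit 272750) (.g (nat_lit 2700) (.e (nat_lit 204828) (nat_lit 18) (.e (nat_lit 57927) (nat_lit 282) (.e (nat_lit 163874) (nat_lit 3) (.e (nat_lit 204863) (nat_lit 27) (.e (nat_lit 344120) (nat_lit 21) .nil))))) .nil)))) (.nd (nat_lit 5) (.nd (nat_lit 6) 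
(.lf (nat_lit 272670) (.g (nat_lit 1976) (.e (nat_lit 204821) (nat_lit 17) (.e (nat_lit 2088) (nat_lit 142) (.e (nat_lit 704734) (nat_lit 11) (.e (nat_lit 16416) (nat_lit 3) (.e (nat_lit 204877) (nat_lit 31) (.e (nat_lit 384768) (nat_lit 3) .nil)))))) (.g (nat_lit 5) .nil .nil))) 
(.lf (nat_lit 272734) (.g (nat_lit 1766) (.e (nat_lit 204828) (nat_lit 18) (.e (nat_lit 57849) (nat_lit 252) (.e (nat_lit 57448) (nat_lit 19) (.e (nat_lit 393229) (nat_lit 9) (.e (nat_lit 336086) (nat_lit 9) .nil))))) .nil))) (.nd (nat_lit 6) 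
(.lf (nat_lit 272702) (.g (nat_lit 1220) (.e (nat_lit 204828) (nat_lit 18) (.e (nat_lit 57847) (nat_lit 252) (.e (nat_lit 57407) (nat_lit 12) (.e (nat_lit 336367) (nat_lit 27) .nil)))) .nil)) 
(.lf (nat_lit 272766) (.g (nat_lit 3149) (.e (nat_lit 204829) (nat_lit 18) (.e (nat_lit 57688) (nat_lit 156) (.e (nat_lit 163867) (nat_lit 2) (.e (nat_lit 196624) (nat_lit 9) (.e (nat_lit 1277) (nat_lit 94) (.e (nat_lit 114718) (nat_lit 23) (.e (nat_lit 98365) (nat_lit 26) (.e (nat_lit 426138) (nat_lit 3) .nil)))))))) (.g (nat_lit 4) .nil .nil))))))))) 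
(.nd (nat_lit 1) (.nd (nat_lit 2) (.nd (nat_lit 3) (.nd (nat_lit 4) (.nd (nat_lit 5) 
(.nd (nat_lit 6) 
(.lf (nat_lit 272641) (.g (nat_lit 1548) (.e (nat_lit 204819) (nat_lit 17) (.e (nat_lit 6113) (nat_lit 332) (.e (nat_lit 1361) (nat_lit 102) (.e (nat_lit 286735) (nat_lit 3) (.e (nat_lit 98380) (nat_lit 31) .nil))))) .nil)) 
(.lf (nat_lit 272705) (.g (nat_lit 434) (.e (nat_lit 204828) (nat_lit 18) (.e (nat_lit 57847) (nat_lit 252) (.e (nat_lit 57446) (nat_lit 19) .nil))) .nil))) (.nd (nat_lit 6) 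
(.lf (nat_lit 272673) (.g (nat_lit 3069) (.e (nat_lit 204821) (nat_lit 17) (.e (nat_lit 2151) (nat_lit 142) (.e (nat_lit 704738) (nat_lit 11) (.e (nat_lit 16412) (nat_lit 2) (.e (nat_lit 196681) (nat_lit 17) (.e (nat_lit 131109) (nat_lit 9) (.e (nat_lit 343808) (nat_lit 18) .nil))))))) (.g (nat_lit 6) .nil .nil))) 
(.lf (nat_lit 272737) (.g (nat_lit 730) (.e (nat_lit 204828) (nat_lit 18) (.e (nat_lit 57852) (nat_lit 252) (.e (nat_lit 57445) (nat_lit 19) .nil))) .nil)))) (.nd (nat_lit 5) (.nd (nat_lit 6) 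
(.lf (nat_lit 272657) (.g (nat_lit 2916) (.e (nat_lit 204821) (nat_lit 17) (.e (nat_lit 1040) (nat_lit 81) (.e (nat_lit 5195) (nat_lit 294) (.e (nat_lit 57407) (nat_lit 12) (.e (nat_lit 336367) (nat_lit 27) (.e (nat_lit 426540) (nat_lit 29) (.e (nat_lit 360192) (nat_lit 3) .nil))))))) (.g (nat_lit 6) .nil .nil))) 
(.lf (nat_lit 272721) (.g (nat_lit 4718) (.e (nat_lit 204828) (nat_lit 18) (.e (nat_lit 57849) (nat_lit 252) (.e (nat_lit 57377) (nat_lit 3) (.e (nat_lit 98317) (nat_lit 9) (.e (nat_lit 336026) (nat_lit 3) .nil))))) .nil))) (.nd (nat_lit 6) 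
(.lf (nat_lit 272689) (.g (nat_lit 1619) (.e (nat_lit 204821) (nat_lit 17) (.e (nat_lit 6136) (nat_lit 332) (.e (nat_lit 1348) (nat_lit 102) (.e (nat_lit 286733) (nat_lit 2) (.e (nat_lit 90169) (nat_lit 13) .nil))))) .nil)) 
(.lf (nat_lit 272753) (.g (nat_lit 2455) (.e (nat_lit 204828) (nat_lit 18) (.e (nat_lit 57931) (nat_lit 282) (.e (nat_lit 163869) (nat_lit 2) (.e (nat_lit 196663) (nat_lit 13) (.e (nat_lit 65571) (nat_lit 3) .nil))))) .nil))))) (.nd (nat_lit 4) (.nd (nat_lit 5) (.nd (nat_lit 6) 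
(.lf (nat_lit 272649) (.g (nat_lit 344) (.e (nat_lit 204819) (nat_lit 17) (.e (nat_lit 6212) (nat_lit 333) (.e (nat_lit 57896) (nat_lit 273) .nil))) .nil)) 
(.lf (nat_lit 272713) (.g (nat_lit 1894) (.e (nat_lit 204828) (nat_lit 18) (.e (nat_lit 57849) (nat_lit 252) (.e (nat_lit 57375) (nat_lit 2) (.e (nat_lit 90128) (nat_lit 9) .nil)))) .nil))) (.nd (nat_lit 6) 
(.lf (nat_lit 272681) (.g (nat_lit 393) (.e (nat_lit 204821) (nat_lit 17) (.e (nat_lit 6114) (nat_lit 332) (.e (nat_lit 1370) (nat_lit 103) .nil))) .nil)) 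
(.lf (nat_lit 272745) (.g (nat_lit 1183) (.e (nat_lit 204828) (nat_lit 18) (.e (nat_lit 57854) (nat_lit 252) (.e (nat_lit 57406) (nat_lit 12) (.e (nat_lit 336367) (nat_lit 27) .nil)))) .nil)))) (.nd (nat_lit 5) (.nd (nat_lit 6) 
(.lf (nat_lit 272665) (.g (nat_lit 1991) (.e (nat_lit 204821) (nat_lit 17) (.e (nat_lit 2044) (nat_lit 142) (.e (nat_lit 704734) (nat_lit 11) (.e (nat_lit 16416) (nat_lit 3) (.e (nat_lit 204877) (nat_lit 31) (.e (nat_lit 384768) (nat_lit 3) .nil)))))) (.g (nat_lit 5) .nil .nil))) 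
(.lf (nat_lit 272729) (.g (nat_lit 788) (.e (nat_lit 204828) (nat_lit 18) (.e (nat_lit 57849) (nat_lit 252) (.e (nat_lit 57407) (nat_lit 12) .nil))) .nil))) (.nd (nat_lit 6) 
(.lf (nat_lit 272697) (.g (nat_lit 891) (.e (nat_lit 212736) (nat_lit 17) (.e (nat_lit 6666) (nat_lit 357) (.e (nat_lit 2857) (nat_lit 184) (.e (nat_lit 426402) (nat_lit 15) .nil)))) .nil)) 
(.lf (nat_lit 272761) (.g (nat_lit 3741) (.e (nat_lit 204829) (nat_lit 18) (.e (nat_lit 57686) (nat_lit 156) (.e (nat_lit 163875) (nat_lit 3) (.e (nat_lit 204838) (nat_lit 20) (.e (nat_lit 114716) (nat_lit 22) (.e (nat_lit 90185) (nat_lit 17) (.e (nat_lit 237592) (nat_lit 3) .nil))))))) (.g (nat_lit 6) .nil .nil))))))) (.nd (nat_lit 3) (.nd (nat_lit 4) (.nd (nat_lit 5) (.nd (nat_lit 6) 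
(.lf (nat_lit 272645) (.g (nat_lit 3205) (.e (nat_lit 204819) (nat_lit 17) (.e (nat_lit 6113) (nat_lit 332) (.e (nat_lit 1376) (nat_lit 104) (.e (nat_lit 303147) (nat_lit 15) (.e (nat_lit 1859) (nat_lit 124) (.e (nat_lit 557107) (nat_lit 15) (.e (nat_lit 188450) (nat_lit 23) .nil))))))) (.g (nat_lit 0) .nil .nil))) 
(.lf (nat_lit 272709) (.g (nat_lit 1798) (.e (nat_lit 204828) (nat_lit 18) (.e (nat_lit 57849) (nat_lit 252) (.e (nat_lit 57372) (nat_lit 2) (.e (nat_lit 90160) (nat_lit 11) .nil)))) .nil))) (.nd (nat_lit 6) 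
(.lf (nat_lit 272677) (.g (nat_lit 4687) (.e (nat_lit 204821) (nat_lit 17) (.e (nat_lit 2281) (nat_lit 150) (.e (nat_lit 770069) (nat_lit 7) (.e (nat_lit 57479) (nat_lit 28) (.e (nat_lit 557105) (nat_lit 14) (.e (nat_lit 180245) (nat_lit 5) (.e (nat_lit 532513) (nat_lit 3) (.e (nat_lit 122624) (nat_lit 3) .nil)))))))) (.g (nat_lit 7) .nil .nil))) 
(.lf (nat_lit 272741) (.g (nat_lit 2096) (.e (nat_lit 204828) (nat_lit 18) (.e (nat_lit 57853) (nat_lit 252) (.e (nat_lit 57445) (nat_lit 19) (.e (nat_lit 393225) (nat_lit 9) (.e (nat_lit 336088) (nat_lit 9) .nil))))) .nil)))) (.nd (nat_lit 5) (.nd (nat_lit 6) 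
(.lf (nat_lit 272661) (.g (nat_lit 1389) (.e (nat_lit 204821) (nat_lit 17) (.e (nat_lit 2040) (nat_lit 141) (.e (nat_lit 696344) (nat_lit 8) (.e (nat_lit 172073) (nat_lit 5) (.e (nat_lit 245784) (nat_lit 9) (.e (nat_lit 1560) (nat_lit 110) (.e (nat_lit 360192) (nat_lit 3) .nil))))))) (.g (nat_lit 5) .nil .nil))) 
(.lf (nat_lit 272725) (.g (nat_lit 1903) (.e (nat_lit 204828) (nat_lit 18) (.e (nat_lit 57849) (nat_lit 252) (.e (nat_lit 57379) (nat_lit 3) (.e (nat_lit 98313) (nat_lit 9) .nil)))) .nil))) (.nd (nat_lit 6) 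
(.lf (nat_lit 272693) (.g (nat_lit 589) (.e (nat_lit 204827) (nat_lit 17) (.e (nat_lit 2174) (nat_lit 143) (.e (nat_lit 712710) (nat_lit 9) .nil))) .nil)) 
(.lf (nat_lit 272757) (.g (nat_lit 2440) (.e (nat_lit 204829) (nat_lit 18) (.e (nat_lit 57686) (nat_lit 156) (.e (nat_lit 163868) (nat_lit 2) (.e (nat_lit 196624) (nat_lit 9) (.e (nat_lit 1277) (nat_lit 94) (.e (nat_lit 114716) (nat_lit 22) (.e (nat_lit 90185) (nat_lit 17) (.e (nat_lit 237592) (nat_lit 3) .nil)))))))) (.g (nat_lit 4) .nil .nil)))))) 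
(.nd (nat_lit 4) (.nd (nat_lit 5) (.nd (nat_lit 6) 
(.lf (nat_lit 272653) (.g (nat_lit 495) (.e (nat_lit 204819) (nat_lit 17) (.e (nat_lit 6218) (nat_lit 333) (.e (nat_lit 65280) (nat_lit 257) .nil))) .nil)) 
(.lf (nat_lit 272717) (.g (nat_lit 1797) (.e (nat_lit 204828) (nat_lit 18) (.e (nat_lit 57849) (nat_lit 252) (.e (nat_lit 57377) (nat_lit 3) (.e (nat_lit 98313) (nat_lit 9) .nil)))) .nil))) (.nd (nat_lit 6) 
(.lf (nat_lit 272685) (.g (nat_lit 2827) (.e (nat_lit 204821) (nat_lit 17) (.e (nat_lit 6114) (nat_lit 332) (.e (nat_lit 1370) (nat_lit 103) (.e (nat_lit 294920) (nat_lit 0) .nil)))) .nil)) 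
(.lf (nat_lit 272749) (.g (nat_lit 2026) (.e (nat_lit 204828) (nat_lit 18) (.e (nat_lit 57927) (nat_lit 282) (.e (nat_lit 163868) (nat_lit 2) (.e (nat_lit 196668) (nat_lit 14) (.e (nat_lit 73747) (nat_lit 3) .nil))))) .nil)))) (.nd (nat_lit 5) (.nd (nat_lit 6) 
(.lf (nat_lit 272669) (.g (nat_lit 1816) (.e (nat_lit 204821) (nat_lit 17) (.e (nat_lit 2088) (nat_lit 142) (.e (nat_lit 704734) (nat_lit 11) (.e (nat_lit 16416) (nat_lit 3) (.e (nat_lit 204876) (nat_lit 31) (.e (nat_lit 384768) (nat_lit 3) .nil)))))) (.g (nat_lit 5) .nil .nil))) 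
(.lf (nat_lit 272733) (.g (nat_lit 1634) (.e (nat_lit 204828) (nat_lit 18) (.e (nat_lit 57849) (nat_lit 252) (.e (nat_lit 57448) (nat_lit 19) (.e (nat_lit 393225) (nat_lit 9) .nil)))) .nil))) (.nd (nat_lit 6) 
(.lf (nat_lit 272701) (.g (nat_lit 3479) (.e (nat_lit 204828) (nat_lit 18) (.e (nat_lit 57847) (nat_lit 252) (.e (nat_lit 57377) (nat_lit 3) (.e (nat_lit 98317) (nat_lit 9) (.e (nat_lit 336027) (nat_lit 3) .nil))))) .nil)) 
(.lf (nat_lit 272765) (.g (nat_lit 2621) (.e (nat_lit 204829) (nat_lit 18) (.e (nat_lit 57688) (nat_lit 156) (.e (nat_lit 163867) (nat_lit 2) (.e (nat_lit 196624) (nat_lit 9) (.e (nat_lit 1276) (nat_lit 94) (.e (nat_lit 114719) (nat_lit 23) (.e (nat_lit 98365) (nat_lit 26) (.e (nat_lit 426133) (nat_lit 3) .nil)))))))) (.g (nat_lit 4) .nil .nil)))))))) 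
(.nd (nat_lit 2) (.nd (nat_lit 3) (.nd (nat_lit 4) (.nd (nat_lit 5) (.nd (nat_lit 6) 
(.lf (nat_lit 272643) (.g (nat_lit 2218) (.e (nat_lit 204819) (nat_lit 17) (.e (nat_lit 6113) (nat_lit 332) (.e (nat_lit 1374) (nat_lit 104) (.e (nat_lit 303147) (nat_lit 15) (.e (nat_lit 1848) (nat_lit 124) .nil))))) .nil)) 
(.lf (nat_lit 272707) (.g (nat_lit 2175) (.e (nat_lit 204828) (nat_lit 18) (.e (nat_lit 57849) (nat_lit 252) (.e (nat_lit 57372) (nat_lit 2) (.e (nat_lit 90128) (nat_lit 9) (.e (nat_lit 297) (nat_lit 22) .nil))))) .nil))) (.nd (nat_lit 6) 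
(.lf (nat_lit 272675) (.g (nat_lit 1492) (.e (nat_lit 204821) (nat_lit 17) (.e (nat_lit 2281) (nat_lit 150) (.e (nat_lit 770058) (nat_lit 5) (.e (nat_lit 1256) (nat_lit 92) (.e (nat_lit 106240) (nat_lit 10) .nil))))) .nil)) 
(.lf (nat_lit 272739) (.g (nat_lit 2100) (.e (nat_lit 204828) (nat_lit 18) (.e (nat_lit 57853) (nat_lit 252) (.e (nat_lit 57406) (nat_lit 12) (.e (nat_lit 336367) (nat_lit 27) (.e (nat_lit 426540) (nat_lit 29) .nil))))) .nil)))) (.nd (nat_lit 5) (.nd (nat_lit 6) 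
(.lf (nat_lit 272659) (.g (nat_lit 1318) (.e (nat_lit 204821) (nat_lit 17) (.e (nat_lit 1040) (nat_lit 81) (.e (nat_lit 5195) (nat_lit 294) (.e (nat_lit 57448) (nat_lit 19) (.e (nat_lit 401152) (nat_lit 11) .nil))))) .nil)) 
(.lf (nat_lit 272723) (.g (nat_lit 1828) (.e (nat_lit 204828) (nat_lit 18) (.e (nat_lit 57849) (nat_lit 252) (.e (nat_lit 57377) (nat_lit 3) (.e (nat_lit 106240) (nat_lit 10) .nil)))) .nil))) (.nd (nat_lit 6) 
(.lf (nat_lit 272691) (.g (nat_lit 1245) (.e (nat_lit 204821) (nat_lit 17) (.e (nat_lit 6680) (nat_lit 357) (.e (nat_lit 2856) (nat_lit 184) (.e (nat_lit 426392) (nat_lit 15) .nil)))) .nil)) 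
(.lf (nat_lit 272755) (.g (nat_lit 2561) (.e (nat_lit 204828) (nat_lit 18) (.e (nat_lit 57931) (nat_lit 282) (.e (nat_lit 163873) (nat_lit 3) (.e (nat_lit 204862) (nat_lit 27) (.e (nat_lit 344117) (nat_lit 21) .nil))))) .nil))))) (.nd (nat_lit 4) (.nd (nat_lit 5) (.nd (nat_lit 6) 
(.lf (nat_lit 272651) (.g (nat_lit 2398) (.e (nat_lit 204819) (nat_lit 17) (.e (nat_lit 6218) (nat_lit 333) (.e (nat_lit 57862) (nat_lit 256) (.e (nat_lit 60) (nat_lit 0) (.e (nat_lit 1859) (nat_lit 124) (.e (nat_lit 557107) (nat_lit 15) (.e (nat_lit 188450) (nat_lit 23) .nil))))))) (.g (nat_lit 0) .nil .nil))) 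
(.lf (nat_lit 272715) (.g (nat_lit 3664) (.e (nat_lit 204828) (nat_lit 18) (.e (nat_lit 57849) (nat_lit 252) (.e (nat_lit 57375) (nat_lit 2) (.e (nat_lit 90160) (nat_lit 11) (.e (nat_lit 24606) (nat_lit 3) .nil))))) .nil))) (.nd (nat_lit 6) 
(.lf (nat_lit 272683) (.g (nat_lit 2827) (.e (nat_lit 204821) (nat_lit 17) (.e (nat_lit 6114) (nat_lit 332) (.e (nat_lit 1370) (nat_lit 103) (.e (nat_lit 294913) (nat_lit 0) .nil)))) .nil)) 
(.lf (nat_lit 272747) (.g (nat_lit 3259) (.e (nat_lit 204828) (nat_lit 18) (.e (nat_lit 57926) (nat_lit 282) (.e (nat_lit 163870) (nat_lit 2) (.e (nat_lit 196666) (nat_lit 13) (.e (nat_lit 65569) (nat_lit 3) .nil))))) .nil)))) (.nd (nat_lit 5) (.nd (nat_lit 6) 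
(.lf (nat_lit 272667) (.g (nat_lit 1908) (.e (nat_lit 204821) (nat_lit 17) (.e (nat_lit 2087) (nat_lit 142) (.e (nat_lit 704734) (nat_lit 11) (.e (nat_lit 16416) (nat_lit 3) (.e (nat_lit 204877) (nat_lit 31) (.e (nat_lit 384768) (nat_lit 3) .nil)))))) (.g (nat_lit 5) .nil .nil))) 
(.lf (nat_lit 272731) (.g (nat_lit 2139) (.e (nat_lit 204828) (nat_lit 18) (.e (nat_lit 57849) (nat_lit 252) (.e (nat_lit 57407) (nat_lit 12) (.e (nat_lit 336367) (nat_lit 27) .nil)))) .nil))) (.nd (nat_lit 6) 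
(.lf (nat_lit 272699) (.g (nat_lit 1630) (.e (nat_lit 204828) (nat_lit 18) (.e (nat_lit 57691) (nat_lit 156) (.e (nat_lit 163875) (nat_lit 3) (.e (nat_lit 204837) (nat_lit 20) .nil)))) .nil)) 
(.lf (nat_lit 272763) (.g (nat_lit 1330) (.e (nat_lit 204829) (nat_lit 18) (.e (nat_lit 57688) (nat_lit 156) (.e (nat_lit 163867) (nat_lit 2) (.e (nat_lit 196617) (nat_lit 9) .nil)))) .nil)))))) (.nd (nat_lit 3) (.nd (nat_lit 4) (.nd (nat_lit 5) (.nd (nat_lit 6) 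
(.lf (nat_lit 272647) (.g (nat_lit 853) (.e (nat_lit 204819) (nat_lit 17) (.e (nat_lit 6113) (nat_lit 332) (.e (nat_lit 2777) (nat_lit 178) (.e (nat_lit 286735) (nat_lit 3) .nil)))) .nil)) 
(.lf (nat_lit 272711) (.g (nat_lit 2888) (.e (nat_lit 204828) (nat_lit 18) (.e (nat_lit 57849) (nat_lit 252) (.e (nat_lit 57372) (nat_lit 2) (.e (nat_lit 90160) (nat_lit 11) (.e (nat_lit 24608) (nat_lit 3) (.e (nat_lit 98338) (nat_lit 19) (.e (nat_lit 213013) (nat_lit 9) (.e (nat_lit 2684) (nat_lit 168) .nil)))))))) (.g (nat_lit 4) .nil .nil)))) (.nd (nat_lit 6) 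
(.lf (nat_lit 272679) (.g (nat_lit 1064) (.e (nat_lit 204821) (nat_lit 17) (.e (nat_lit 2391) (nat_lit 156) (.e (nat_lit 819204) (nat_lit 0) (.e (nat_lit 2668) (nat_lit 167) .nil)))) .nil)) 
(.lf (nat_lit 272743) (.g (nat_lit 1257) (.e (nat_lit 204828) (nat_lit 18) (.e (nat_lit 57853) (nat_lit 252) (.e (nat_lit 57445) (nat_lit 19) (.e (nat_lit 401152) (nat_lit 14) .nil)))) .nil)))) (.nd (nat_lit 5) (.nd (nat_lit 6) 
(.lf (nat_lit 272663) (.g (nat_lit 1788) (.e (nat_lit 204821) (nat_lit 17) (.e (nat_lit 2044) (nat_lit 142) (.e (nat_lit 704734) (nat_lit 11) (.e (nat_lit 16412) (nat_lit 2) (.e (nat_lit 196674) (nat_lit 15) (.e (nat_lit 89856) (nat_lit 3) .nil)))))) (.g (nat_lit 5) .nil .nil))) 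
(.lf (nat_lit 272727) (.g (nat_lit 1465) (.e (nat_lit 204828) (nat_lit 18) (.e (nat_lit 57849) (nat_lit 252) (.e (nat_lit 57379) (nat_lit 3) (.e (nat_lit 98317) (nat_lit 9) .nil)))) .nil))) (.nd (nat_lit 6) 
(.lf (nat_lit 272695) (.g (nat_lit 409) (.e (nat_lit 212736) (nat_lit 17) (.e (nat_lit 6207) (nat_lit 333) (.e (nat_lit 57900) (nat_lit 276) .nil))) .nil)) 
(.lf (nat_lit 272759) (.g (nat_lit 3227) (.e (nat_lit 204829) (nat_lit 18) (.e (nat_lit 57686) (nat_lit 156) (.e (nat_lit 163868) (nat_lit 2) (.e (nat_lit 196624) (nat_lit 9) (.e (nat_lit 1277) (nat_lit 94) (.e (nat_lit 114719) (nat_lit 23) (.e (nat_lit 98365) (nat_lit 26) (.e (nat_lit 426137) (nat_lit 3) .nil)))))))) (.g (nat_lit 4) .nil .nil)))))) 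
(.nd (nat_lit 4) (.nd (nat_lit 5) (.nd (nat_lit 6) 
(.lf (nat_lit 272655) (.g (nat_lit 1018) (.e (nat_lit 204820) (nat_lit 17) (.e (nat_lit 6684) (nat_lit 357) (.e (nat_lit 2856) (nat_lit 184) (.e (nat_lit 426402) (nat_lit 15) .nil)))) .nil)) 
(.lf (nat_lit 272719) (.g (nat_lit 5257) (.e (nat_lit 204828) (nat_lit 18) (.e (nat_lit 57849) (nat_lit 252) (.e (nat_lit 57377) (nat_lit 3) (.e (nat_lit 98317) (nat_lit 9) (.e (nat_lit 335899) (nat_lit 0) .nil))))) .nil))) (.nd (nat_lit 6) 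
(.lf (nat_lit 272687) (.g (nat_lit 986) (.e (nat_lit 204821) (nat_lit 17) (.e (nat_lit 6114) (nat_lit 332) (.e (nat_lit 1374) (nat_lit 104) (.e (nat_lit 303119) (nat_lit 3) .nil)))) .nil)) 
(.lf (nat_lit 272751) (.g (nat_lit 1436) (.e (nat_lit 204828) (nat_lit 18) (.e (nat_lit 57927) (nat_lit 282) (.e (nat_lit 163874) (nat_lit 3) (.e (nat_lit 204873) (nat_lit 30) .nil)))) .nil)))) (.nd (nat_lit 5) (.nd (nat_lit 6) 
(.lf (nat_lit 272671) (.g (nat_lit 1403) (.e (nat_lit 204821) (nat_lit 17) (.e (nat_lit 2143) (nat_lit 142) (.e (nat_lit 704741) (nat_lit 11) (.e (nat_lit 16416) (nat_lit 3) (.e (nat_lit 204876) (nat_lit 31) (.e (nat_lit 384768) (nat_lit 3) .nil)))))) (.g (nat_lit 5) .nil .nil))) 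
(.lf (nat_lit 272735) (.g (nat_lit 1063) (.e (nat_lit 204828) (nat_lit 18) (.e (nat_lit 57851) (nat_lit 252) (.e (nat_lit 57406) (nat_lit 12) (.e (nat_lit 336367) (nat_lit 27) .nil)))) .nil))) (.nd (nat_lit 6) 
(.lf (nat_lit 272703) (.g (nat_lit 716) (.e (nat_lit 204828) (nat_lit 18) (.e (nat_lit 57847) (nat_lit 252) (.e (nat_lit 57411) (nat_lit 12) .nil))) .nil)) 
(.lf (nat_lit 272767) (.g (nat_lit 3405) (.e (nat_lit 204829) (nat_lit 18) (.e (nat_lit 57688) (nat_lit 156) (.e (nat_lit 163867) (nat_lit 2) (.e (nat_lit 196624) (nat_lit 9) (.e (nat_lit 1277) (nat_lit 94) (.e (nat_lit 114719) (nat_lit 23) (.e (nat_lit 98365) (nat_lit 26) (.e (nat_lit 426138) (nat_lit 3) .nil)))))))) (.g (nat_lit 4) .nil .nil))))))))))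

noncomputable def tv3497 : DT := (.nd (nat_lit 0) (.nd (nat_lit 1) (.nd (nat_lit 2) (.nd (nat_lit 3) (.nd (nat_lit 4) (.nd (nat_lit 5) (.nd (nat_lit 6) 
(.lf (nat_lit 272768) (.g (nat_lit 2399) (.e (nat_lit 204829) (nat_lit 18) (.e (nat_lit 57688) (nat_lit 156) (.e (nat_lit 163868) (nat_lit 2) (.e (nat_lit 196624) (nat_lit 9) (.e (nat_lit 1276) (nat_lit 94) .nil))))) .nil)) 
(.lf (nat_lit 272832) (.g (nat_lit 1813) (.e (nat_lit 204829) (nat_lit 18) (.e (nat_lit 57692) (nat_lit 156) (.e (nat_lit 163874) (nat_lit 3) (.e (nat_lit 204835) (nat_lit 19) .nil)))) .nil))) (.nd (nat_lit 6) 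
(.lf (nat_lit 272800) (.g (nat_lit 3153) (.e (nat_lit 204829) (nat_lit 18) (.e (nat_lit 57691) (nat_lit 156) (.e (nat_lit 163874) (nat_lit 3) (.e (nat_lit 204838) (nat_lit 20) (.e (nat_lit 114719) (nat_lit 23) (.e (nat_lit 98365) (nat_lit 26) (.e (nat_lit 426137) (nat_lit 3) .nil))))))) (.g (nat_lit 4) .nil .nil))) 
(.lf (nat_lit 272864) (.g (nat_lit 554) (.e (nat_lit 204829) (nat_lit 18) (.e (nat_lit 57847) (nat_lit 252) (.e (nat_lit 57375) (nat_lit 2) .nil))) .nil)))) (.nd (nat_lit 5) (.nd (nat_lit 6) 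
(.lf (nat_lit 272784) (.g (nat_lit 1480) (.e (nat_lit 204829) (nat_lit 18) (.e (nat_lit 57688) (nat_lit 156) (.e (nat_lit 163902) (nat_lit 12) (.e (nat_lit 426566) (nat_lit 34) (.e (nat_lit 393272) (nat_lit 23) .nil))))) .nil)) 
(.lf (nat_lit 272848) (.g (nat_lit 643) (.e (nat_lit 204829) (nat_lit 18) (.e (nat_lit 57847) (nat_lit 252) (.e (nat_lit 57349) (nat_lit 0) .nil))) .nil))) (.nd (nat_lit 6) 
(.lf (nat_lit 272816) (.g (nat_lit 1678) (.e (nat_lit 204829) (nat_lit 18) (.e (nat_lit 57691) (nat_lit 156) (.e (nat_lit 163907) (nat_lit 12) (.e (nat_lit 426564) (nat_lit 34) .nil)))) .nil)) 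
(.lf (nat_lit 272880) (.g (nat_lit 1264) (.e (nat_lit 204829) (nat_lit 18) (.e (nat_lit 57847) (nat_lit 252) (.e (nat_lit 57406) (nat_lit 12) (.e (nat_lit 336454) (nat_lit 34) .nil)))) .nil))))) (.nd (nat_lit 4) (.nd (nat_lit 5) (.nd (nat_lit 6) 
(.lf (nat_lit 272776) (.g (nat_lit 1304) (.e (nat_lit 204829) (nat_lit 18) (.e (nat_lit 57688) (nat_lit 156) (.e (nat_lit 163873) (nat_lit 3) (.e (nat_lit 204817) (nat_lit 17) .nil)))) .nil)) 
(.lf (nat_lit 272840) (.g (nat_lit 1599) (.e (nat_lit 204829) (nat_lit 18) (.e (nat_lit 57692) (nat_lit 156) (.e (nat_lit 163905) (nat_lit 12) (.e (nat_lit 426567) (nat_lit 34) (.e (nat_lit 393279) (nat_lit 23) .nil))))) .nil))) (.nd (nat_lit 6) 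
(.lf (nat_lit 272808) (.g (nat_lit 3924) (.e (nat_lit 204829) (nat_lit 18) (.e (nat_lit 57691) (nat_lit 156) (.e (nat_lit 163875) (nat_lit 3) (.e (nat_lit 204838) (nat_lit 20) (.e (nat_lit 114716) (nat_lit 22) (.e (nat_lit 90185) (nat_lit 17) (.e (nat_lit 237592) (nat_lit 3) .nil))))))) (.g (nat_lit 6) .nil .nil))) 
(.lf (nat_lit 272872) (.g (nat_lit 3779) (.e (nat_lit 204829) (nat_lit 18) (.e (nat_lit 57847) (nat_lit 252) (.e (nat_lit 57377) (nat_lit 3) (.e (nat_lit 98317) (nat_lit 9) (.e (nat_lit 336027) (nat_lit 3) (.e (nat_lit 98341) (nat_lit 20) (.e (nat_lit 221213) (nat_lit 23) .nil))))))) (.g (nat_lit 4) .nil .nil))))) (.nd (nat_lit 5) (.nd (nat_lit 6) 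
(.lf (nat_lit 272792) (.g (nat_lit 1519) (.e (nat_lit 204829) (nat_lit 18) (.e (nat_lit 57688) (nat_lit 156) (.e (nat_lit 163907) (nat_lit 12) (.e (nat_lit 426568) (nat_lit 34) .nil)))) .nil)) 
(.lf (nat_lit 272856) (.g (nat_lit 3189) (.e (nat_lit 204829) (nat_lit 18) (.e (nat_lit 57847) (nat_lit 252) (.e (nat_lit 57372) (nat_lit 2) (.e (nat_lit 90158) (nat_lit 11) (.e (nat_lit 24608) (nat_lit 3) (.e (nat_lit 98341) (nat_lit 20) (.e (nat_lit 221215) (nat_lit 23) .nil))))))) (.g (nat_lit 5) .nil .nil)))) (.nd (nat_lit 6) 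
(.lf (nat_lit 272824) (.g (nat_lit 2086) (.e (nat_lit 204829) (nat_lit 18) (.e (nat_lit 57692) (nat_lit 156) (.e (nat_lit 163869) (nat_lit 2) (.e (nat_lit 196630) (nat_lit 9) (.e (nat_lit 1278) (nat_lit 94) .nil))))) .nil)) 
(.lf (nat_lit 272888) (.g (nat_lit 2486) (.e (nat_lit 204829) (nat_lit 18) (.e (nat_lit 57847) (nat_lit 252) (.e (nat_lit 57407) (nat_lit 12) (.e (nat_lit 336367) (nat_lit 27) (.e (nat_lit 426538) (nat_lit 29) (.e (nat_lit 360192) (nat_lit 3) .nil)))))) (.g (nat_lit 5) .nil .nil))))))) (.nd (nat_lit 3) (.nd (nat_lit 4) (.nd (nat_lit 5) (.nd (nat_lit 6) 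
(.lf (nat_lit 272772) (.g (nat_lit 2014) (.e (nat_lit 204829) (nat_lit 18) (.e (nat_lit 57688) (nat_lit 156) (.e (nat_lit 163868) (nat_lit 2) (.e (nat_lit 196635) (nat_lit 9) .nil)))) .nil)) 
(.lf (nat_lit 272836) (.g (nat_lit 3900) (.e (nat_lit 204829) (nat_lit 18) (.e (nat_lit 57692) (nat_lit 156) (.e (nat_lit 163874) (nat_lit 3) (.e (nat_lit 204838) (nat_lit 20) (.e (nat_lit 114716) (nat_lit 22) (.e (nat_lit 90185) (nat_lit 17) (.e (nat_lit 237592) (nat_lit 3) .nil))))))) (.g (nat_lit 6) .nil .nil)))) (.nd (nat_lit 6) 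
(.lf (nat_lit 272804) (.g (nat_lit 2375) (.e (nat_lit 204829) (nat_lit 18) (.e (nat_lit 57691) (nat_lit 156) (.e (nat_lit 163875) (nat_lit 3) (.e (nat_lit 204821) (nat_lit 17) (.e (nat_lit 2184) (nat_lit 144) .nil))))) .nil)) 
(.lf (nat_lit 272868) (.g (nat_lit 3966) (.e (nat_lit 204829) (nat_lit 18) (.e (nat_lit 57847) (nat_lit 252) (.e (nat_lit 57375) (nat_lit 2) (.e (nat_lit 90160) (nat_lit 11) (.e (nat_lit 24608) (nat_lit 3) (.e (nat_lit 98341) (nat_lit 20) (.e (nat_lit 221215) (nat_lit 23) .nil))))))) (.g (nat_lit 6) .nil .nil))))) (.nd (nat_lit 5) (.nd (nat_lit 6) 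
(.lf (nat_lit 272788) (.g (nat_lit 2083) (.e (nat_lit 204829) (nat_lit 18) (.e (nat_lit 57688) (nat_lit 156) (.e (nat_lit 163907) (nat_lit 12) (.e (nat_lit 426564) (nat_lit 34) .nil)))) .nil)) 
(.lf (nat_lit 272852) (.g (nat_lit 1858) (.e (nat_lit 204829) (nat_lit 18) (.e (nat_lit 57847) (nat_lit 252) (.e (nat_lit 57365) (nat_lit 1) (.e (nat_lit 57854) (nat_lit 252) (.e (nat_lit 57389) (nat_lit 5) .nil))))) .nil))) (.nd (nat_lit 6) 
(.lf (nat_lit 272820) (.g (nat_lit 2259) (.e (nat_lit 204829) (nat_lit 18) (.e (nat_lit 57692) (nat_lit 156) (.e (nat_lit 163869) (nat_lit 2) (.e (nat_lit 196624) (nat_lit 9) (.e (nat_lit 1276) (nat_lit 94) .nil))))) .nil)) 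
(.lf (nat_lit 272884) (.g (nat_lit 4129) (.e (nat_lit 204829) (nat_lit 18) (.e (nat_lit 57847) (nat_lit 252) (.e (nat_lit 57406) (nat_lit 12) (.e (nat_lit 336454) (nat_lit 34) (.e (nat_lit 483383) (nat_lit 23) (.e (nat_lit 336324) (nat_lit 18) .nil)))))) (.g (nat_lit 4) .nil .nil)))))) (.nd (nat_lit 4) (.nd (nat_lit 5) (.nd (nat_lit 6) 
(.lf (nat_lit 272780) (.g (nat_lit 3361) (.e (nat_lit 204829) (nat_lit 18) (.e (nat_lit 57688) (nat_lit 156) (.e (nat_lit 163874) (nat_lit 3) (.e (nat_lit 204838) (nat_lit 20) (.e (nat_lit 114719) (nat_lit 23) (.e (nat_lit 98365) (nat_lit 26) (.e (nat_lit 426138) (nat_lit 3) .nil))))))) (.g (nat_lit 4) .nil .nil))) 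
(.lf (nat_lit 272844) (.g (nat_lit 1268) (.e (nat_lit 204829) (nat_lit 18) (.e (nat_lit 57692) (nat_lit 156) (.e (nat_lit 163907) (nat_lit 12) (.e (nat_lit 426567) (nat_lit 34) .nil)))) .nil))) (.nd (nat_lit 6) 
(.lf (nat_lit 272812) (.g (nat_lit 3320) (.e (nat_lit 204829) (nat_lit 18) (.e (nat_lit 57691) (nat_lit 156) (.e (nat_lit 163875) (nat_lit 3) (.e (nat_lit 204838) (nat_lit 20) (.e (nat_lit 114719) (nat_lit 23) (.e (nat_lit 98365) (nat_lit 26) (.e (nat_lit 426138) (nat_lit 3) .nil))))))) (.g (nat_lit 4) .nil .nil))) 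
(.lf (nat_lit 272876) (.g (nat_lit 3957) (.e (nat_lit 204829) (nat_lit 18) (.e (nat_lit 57847) (nat_lit 252) (.e (nat_lit 57379) (nat_lit 3) (.e (nat_lit 98313) (nat_lit 9) (.e (nat_lit 336027) (nat_lit 3) (.e (nat_lit 98341) (nat_lit 20) (.e (nat_lit 221215) (nat_lit 23) .nil))))))) (.g (nat_lit 7) .nil .nil))))) (.nd (nat_lit 5) (.nd (nat_lit 6) 
(.lf (nat_lit 272796) (.g (nat_lit 1702) (.e (nat_lit 204829) (nat_lit 18) (.e (nat_lit 57691) (nat_lit 156) (.e (nat_lit 163874) (nat_lit 3) (.e (nat_lit 204834) (nat_lit 19) .nil)))) .nil)) 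
(.lf (nat_lit 272860) (.g (nat_lit 3380) (.e (nat_lit 204829) (nat_lit 18) (.e (nat_lit 57847) (nat_lit 252) (.e (nat_lit 57373) (nat_lit 2) (.e (nat_lit 90160) (nat_lit 11) (.e (nat_lit 24608) (nat_lit 3) (.e (nat_lit 98341) (nat_lit 20) (.e (nat_lit 221214) (nat_lit 23) .nil))))))) (.g (nat_lit 4) .nil .nil)))) (.nd (nat_lit 6) 
(.lf (nat_lit 272828) (.g (nat_lit 2696) (.e (nat_lit 204829) (nat_lit 18) (.e (nat_lit 57692) (nat_lit 156) (.e (nat_lit 163871) (nat_lit 2) (.e (nat_lit 196624) (nat_lit 9) (.e (nat_lit 1277) (nat_lit 94) (.e (nat_lit 114716) (nat_lit 22) (.e (nat_lit 90185) (nat_lit 17) (.e (nat_lit 237592) (nat_lit 3) .nil)))))))) (.g (nat_lit 4) .nil .nil))) 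
(.lf (nat_lit 272892) (.g (nat_lit 2732) (.e (nat_lit 204829) (nat_lit 18) (.e (nat_lit 57847) (nat_lit 252) (.e (nat_lit 57407) (nat_lit 12) (.e (nat_lit 336367) (nat_lit 27) (.e (nat_lit 426555) (nat_lit 32) (.e (nat_lit 384768) (nat_lit 3) .nil)))))) (.g (nat_lit 5) .nil .nil)))))))) (.nd (nat_lit 2) (.nd (nat_lit 3) (.nd (nat_lit 4) (.nd (nat_lit 5) (.nd (nat_lit 6) 
(.lf (nat_lit 272770) (.g (nat_lit 2780) (.e (nat_lit 204829) (nat_lit 18) (.e (nat_lit 57688) (nat_lit 156) (.e (nat_lit 163868) (nat_lit 2) (.e (nat_lit 196624) (nat_lit 9) (.e (nat_lit 1277) (nat_lit 94) (.e (nat_lit 114716) (nat_lit 22) (.e (nat_lit 90185) (nat_lit 17) (.e (nat_lit 237594) (nat_lit 3) .nil)))))))) (.g (nat_lit 4) .nil .nil))) 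
(.lf (nat_lit 272834) (.g (nat_lit 3400) (.e (nat_lit 204829) (nat_lit 18) (.e (nat_lit 57692) (nat_lit 156) (.e (nat_lit 163874) (nat_lit 3) (.e (nat_lit 204837) (nat_lit 20) (.e (nat_lit 114718) (nat_lit 23) (.e (nat_lit 98365) (nat_lit 26) (.e (nat_lit 426137) (nat_lit 3) .nil))))))) (.g (nat_lit 4) .nil .nil)))) (.nd (nat_lit 6) 
(.lf (nat_lit 272802) (.g (nat_lit 2384) (.e (nat_lit 204829) (nat_lit 18) (.e (nat_lit 57691) (nat_lit 156) (.e (nat_lit 163875) (nat_lit 3) (.e (nat_lit 204815) (nat_lit 17) (.e (nat_lit 2202) (nat_lit 144) .nil))))) .nil)) 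
(.lf (nat_lit 272866) (.g (nat_lit 2866) (.e (nat_lit 204829) (nat_lit 18) (.e (nat_lit 57847) (nat_lit 252) (.e (nat_lit 57375) (nat_lit 2) (.e (nat_lit 90160) (nat_lit 11) (.e (nat_lit 24607) (nat_lit 3) (.e (nat_lit 98342) (nat_lit 20) (.e (nat_lit 221214) (nat_lit 23) .nil))))))) (.g (nat_lit 4) .nil .nil))))) (.nd (nat_lit 5) (.nd (nat_lit 6) 
(.lf (nat_lit 272786) (.g (nat_lit 1631) (.e (nat_lit 204829) (nat_lit 18) (.e (nat_lit 57688) (nat_lit 156) (.e (nat_lit 163905) (nat_lit 12) (.e (nat_lit 426566) (nat_lit 34) .nil)))) .nil)) 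
(.lf (nat_lit 272850) (.g (nat_lit 4213) (.e (nat_lit 204829) (nat_lit 18) (.e (nat_lit 57847) (nat_lit 252) (.e (nat_lit 57355) (nat_lit 0) (.e (nat_lit 1858) (nat_lit 124) (.e (nat_lit 557105) (nat_lit 14) (.e (nat_lit 180252) (nat_lit 10) (.e (nat_lit 573481) (nat_lit 13) (.e (nat_lit 73472) (nat_lit 18) .nil)))))))) (.g (nat_lit 6) .nil .nil)))) (.nd (nat_lit 6) 
(.lf (nat_lit 272818) (.g (nat_lit 1555) (.e (nat_lit 204829) (nat_lit 18) (.e (nat_lit 57691) (nat_lit 156) (.e (nat_lit 163907) (nat_lit 12) (.e (nat_lit 426567) (nat_lit 34) .nil)))) .nil)) 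
(.lf (nat_lit 272882) (.g (nat_lit 3702) (.e (nat_lit 204829) (nat_lit 18) (.e (nat_lit 57847) (nat_lit 252) (.e (nat_lit 57406) (nat_lit 12) (.e (nat_lit 336454) (nat_lit 34) (.e (nat_lit 483380) (nat_lit 23) (.e (nat_lit 336326) (nat_lit 18) .nil)))))) (.g (nat_lit 4) .nil .nil)))))) (.nd (nat_lit 4) (.nd (nat_lit 5) (.nd (nat_lit 6) 
(.lf (nat_lit 272778) (.g (nat_lit 3482) (.e (nat_lit 204829) (nat_lit 18) (.e (nat_lit 57688) (nat_lit 156) (.e (nat_lit 163874) (nat_lit 3) (.e (nat_lit 204837) (nat_lit 20) (.e (nat_lit 114719) (nat_lit 23) (.e (nat_lit 98365) (nat_lit 26) (.e (nat_lit 426138) (nat_lit 3) .nil))))))) (.g (nat_lit 4) .nil .nil))) 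
(.lf (nat_lit 272842) (.g (nat_lit 1646) (.e (nat_lit 204829) (nat_lit 18) (.e (nat_lit 57692) (nat_lit 156) (.e (nat_lit 163906) (nat_lit 12) (.e (nat_lit 426568) (nat_lit 34) (.e (nat_lit 393277) (nat_lit 23) (.e (nat_lit 426135) (nat_lit 3) .nil)))))) (.g (nat_lit 4) .nil .nil)))) (.nd (nat_lit 6) 
(.lf (nat_lit 272810) (.g (nat_lit 2117) (.e (nat_lit 204829) (nat_lit 18) (.e (nat_lit 57691) (nat_lit 156) (.e (nat_lit 163875) (nat_lit 3) (.e (nat_lit 204838) (nat_lit 20) (.e (nat_lit 114719) (nat_lit 23) .nil))))) .nil)) 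
(.lf (nat_lit 272874) (.g (nat_lit 2066) (.e (nat_lit 204829) (nat_lit 18) (.e (nat_lit 57847) (nat_lit 252) (.e (nat_lit 57378) (nat_lit 3) (.e (nat_lit 98313) (nat_lit 9) .nil)))) .nil)))) (.nd (nat_lit 5) (.nd (nat_lit 6) 
(.lf (nat_lit 272794) (.g (nat_lit 2700) (.e (nat_lit 204829) (nat_lit 18) (.e (nat_lit 57691) (nat_lit 156) (.e (nat_lit 163869) (nat_lit 2) (.e (nat_lit 196624) (nat_lit 9) (.e (nat_lit 1277) (nat_lit 94) (.e (nat_lit 114718) (nat_lit 23) (.e (nat_lit 98365) (nat_lit 26) (.e (nat_lit 426133) (nat_lit 3) .nil)))))))) (.g (nat_lit 4) .nil .nil))) 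
(.lf (nat_lit 272858) (.g (nat_lit 2850) (.e (nat_lit 204829) (nat_lit 18) (.e (nat_lit 57847) (nat_lit 252) (.e (nat_lit 57372) (nat_lit 2) (.e (nat_lit 90160) (nat_lit 11) (.e (nat_lit 24607) (nat_lit 3) (.e (nat_lit 98341) (nat_lit 20) (.e (nat_lit 221214) (nat_lit 23) .nil))))))) (.g (nat_lit 4) .nil .nil)))) (.nd (nat_lit 6) 
(.lf (nat_lit 272826) (.g (nat_lit 2501) (.e (nat_lit 204829) (nat_lit 18) (.e (nat_lit 57692) (nat_lit 156) (.e (nat_lit 163871) (nat_lit 2) (.e (nat_lit 196624) (nat_lit 9) (.e (nat_lit 1276) (nat_lit 94) (.e (nat_lit 114719) (nat_lit 23) (.e (nat_lit 98365) (nat_lit 26) (.e (nat_lit 426133) (nat_lit 3) .nil)))))))) (.g (nat_lit 4) .nil .nil))) 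
(.lf (nat_lit 272890) (.g (nat_lit 2596) (.e (nat_lit 204829) (nat_lit 18) (.e (nat_lit 57847) (nat_lit 252) (.e (nat_lit 57407) (nat_lit 12) (.e (nat_lit 336367) (nat_lit 27) (.e (nat_lit 426540) (nat_lit 29) (.e (nat_lit 360192) (nat_lit 3) .nil)))))) (.g (nat_lit 5) .nil .nil))))))) (.nd (nat_lit 3) (.nd (nat_lit 4) (.nd (nat_lit 5) (.nd (nat_lit 6) 
(.lf (nat_lit 272774) (.g (nat_lit 1972) (.e (nat_lit 204829) (nat_lit 18) (.e (nat_lit 57688) (nat_lit 156) (.e (nat_lit 163869) (nat_lit 2) (.e (nat_lit 196624) (nat_lit 9) (.e (nat_lit 1277) (nat_lit 94) .nil))))) .nil)) 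
(.lf (nat_lit 272838) (.g (nat_lit 3761) (.e (nat_lit 204829) (nat_lit 18) (.e (nat_lit 57692) (nat_lit 156) (.e (nat_lit 163875) (nat_lit 3) (.e (nat_lit 204838) (nat_lit 20) (.e (nat_lit 114716) (nat_lit 22) (.e (nat_lit 90185) (nat_lit 17) (.e (nat_lit 237592) (nat_lit 3) .nil))))))) (.g (nat_lit 6) .nil .nil)))) (.nd (nat_lit 6) 
(.lf (nat_lit 272806) (.g (nat_lit 2420) (.e (nat_lit 204829) (nat_lit 18) (.e (nat_lit 57691) (nat_lit 156) (.e (nat_lit 163875) (nat_lit 3) (.e (nat_lit 204834) (nat_lit 19) (.e (nat_lit 106517) (nat_lit 9) .nil))))) .nil)) 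
(.lf (nat_lit 272870) (.g (nat_lit 4650) (.e (nat_lit 204829) (nat_lit 18) (.e (nat_lit 57847) (nat_lit 252) (.e (nat_lit 57377) (nat_lit 3) (.e (nat_lit 98317) (nat_lit 9) (.e (nat_lit 336020) (nat_lit 3) .nil))))) .nil)))) (.nd (nat_lit 5) (.nd (nat_lit 6) 
(.lf (nat_lit 272790) (.g (nat_lit 2280) (.e (nat_lit 204829) (nat_lit 18) (.e (nat_lit 57688) (nat_lit 156) (.e (nat_lit 163907) (nat_lit 12) (.e (nat_lit 426566) (nat_lit 34) (.e (nat_lit 393278) (nat_lit 23) .nil))))) .nil)) 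
(.lf (nat_lit 272854) (.g (nat_lit 2564) (.e (nat_lit 204829) (nat_lit 18) (.e (nat_lit 57847) (nat_lit 252) (.e (nat_lit 57371) (nat_lit 2) (.e (nat_lit 90160) (nat_lit 11) (.e (nat_lit 24608) (nat_lit 3) .nil))))) .nil))) (.nd (nat_lit 6) 
(.lf (nat_lit 272822) (.g (nat_lit 1948) (.e (nat_lit 204829) (nat_lit 18) (.e (nat_lit 57692) (nat_lit 156) (.e (nat_lit 163869) (nat_lit 2) (.e (nat_lit 196624) (nat_lit 9) (.e (nat_lit 1277) (nat_lit 94) .nil))))) .nil)) 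
(.lf (nat_lit 272886) (.g (nat_lit 2678) (.e (nat_lit 204829) (nat_lit 18) (.e (nat_lit 57847) (nat_lit 252) (.e (nat_lit 57407) (nat_lit 12) (.e (nat_lit 336367) (nat_lit 27) (.e (nat_lit 426530) (nat_lit 27) (.e (nat_lit 336116) (nat_lit 9) (.e (nat_lit 336323) (nat_lit 18) .nil))))))) (.g (nat_lit 6) .nil .nil)))))) (.nd (nat_lit 4) (.nd (nat_lit 5) (.nd (nat_lit 6) 
(.lf (nat_lit 272782) (.g (nat_lit 3432) (.e (nat_lit 204829) (nat_lit 18) (.e (nat_lit 57688) (nat_lit 156) (.e (nat_lit 163875) (nat_lit 3) (.e (nat_lit 204838) (nat_lit 20) (.e (nat_lit 114719) (nat_lit 23) (.e (nat_lit 98365) (nat_lit 26) (.e (nat_lit 426137) (nat_lit 3) .nil))))))) (.g (nat_lit 4) .nil .nil))) 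
(.lf (nat_lit 272846) (.g (nat_lit 2271) (.e (nat_lit 204829) (nat_lit 18) (.e (nat_lit 57735) (nat_lit 183) (.e (nat_lit 57447) (nat_lit 19) (.e (nat_lit 393238) (nat_lit 17) (.e (nat_lit 3512) (nat_lit 218) .nil))))) .nil))) (.nd (nat_lit 6) 
(.lf (nat_lit 272814) (.g (nat_lit 1474) (.e (nat_lit 204829) (nat_lit 18) (.e (nat_lit 57691) (nat_lit 156) (.e (nat_lit 163905) (nat_lit 12) (.e (nat_lit 426567) (nat_lit 34) .nil)))) .nil)) 
(.lf (nat_lit 272878) (.g (nat_lit 1103) (.e (nat_lit 204829) (nat_lit 18) (.e (nat_lit 57847) (nat_lit 252) (.e (nat_lit 57379) (nat_lit 3) (.e (nat_lit 106240) (nat_lit 10) .nil)))) .nil)))) (.nd (nat_lit 5) (.nd (nat_lit 6) 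
(.lf (nat_lit 272798) (.g (nat_lit 3077) (.e (nat_lit 204829) (nat_lit 18) (.e (nat_lit 57691) (nat_lit 156) (.e (nat_lit 163874) (nat_lit 3) (.e (nat_lit 204838) (nat_lit 20) (.e (nat_lit 114714) (nat_lit 22) (.e (nat_lit 90170) (nat_lit 13) (.e (nat_lit 172065) (nat_lit 3) .nil))))))) (.g (nat_lit 4) .nil .nil))) 
(.lf (nat_lit 272862) (.g (nat_lit 3233) (.e (nat_lit 204829) (nat_lit 18) (.e (nat_lit 57847) (nat_lit 252) (.e (nat_lit 57373) (nat_lit 2) (.e (nat_lit 90160) (nat_lit 11) (.e (nat_lit 24608) (nat_lit 3) (.e (nat_lit 98342) (nat_lit 20) (.e (nat_lit 221214) (nat_lit 23) .nil))))))) (.g (nat_lit 4) .nil .nil)))) (.nd (nat_lit 6) 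
(.lf (nat_lit 272830) (.g (nat_lit 3376) (.e (nat_lit 204829) (nat_lit 18) (.e (nat_lit 57692) (nat_lit 156) (.e (nat_lit 163871) (nat_lit 2) (.e (nat_lit 196624) (nat_lit 9) (.e (nat_lit 1277) (nat_lit 94) (.e (nat_lit 114719) (nat_lit 23) (.e (nat_lit 98365) (nat_lit 26) (.e (nat_lit 426138) (nat_lit 3) .nil)))))))) (.g (nat_lit 4) .nil .nil))) 
(.lf (nat_lit 272894) (.g (nat_lit 2469) (.e (nat_lit 204829) (nat_lit 18) (.e (nat_lit 57847) (nat_lit 252) (.e (nat_lit 57407) (nat_lit 12) (.e (nat_lit 336454) (nat_lit 34) (.e (nat_lit 483382) (nat_lit 23) (.e (nat_lit 336322) (nat_lit 18) .nil)))))) (.g (nat_lit 4) .nil .nil))))))))) (.nd (nat_lit 1) (.nd (nat_lit 2) (.nd (nat_lit 3) (.nd (nat_lit 4) (.nd (nat_lit 5) (.nd (nat_lit 6) 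
(.lf (nat_lit 272769) (.g (nat_lit 2918) (.e (nat_lit 204829) (nat_lit 18) (.e (nat_lit 57688) (nat_lit 156) (.e (nat_lit 163868) (nat_lit 2) (.e (nat_lit 196624) (nat_lit 9) (.e (nat_lit 1277) (nat_lit 94) (.e (nat_lit 114716) (nat_lit 22) (.e (nat_lit 90185) (nat_lit 17) (.e (nat_lit 237592) (nat_lit 3) .nil)))))))) (.g (nat_lit 4) .nil .nil))) 
(.lf (nat_lit 272833) (.g (nat_lit 3874) (.e (nat_lit 204829) (nat_lit 18) (.e (nat_lit 57692) (nat_lit 156) (.e (nat_lit 163874) (nat_lit 3) (.e (nat_lit 204837) (nat_lit 20) (.e (nat_lit 114718) (nat_lit 23) (.e (nat_lit 98365) (nat_lit 26) (.e (nat_lit 426133) (nat_lit 3) .nil))))))) (.g (nat_lit 6) .nil .nil)))) (.nd (nat_lit 6) 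
(.lf (nat_lit 272801) (.g (nat_lit 1983) (.e (nat_lit 204829) (nat_lit 18) (.e (nat_lit 57691) (nat_lit 156) (.e (nat_lit 163875) (nat_lit 3) (.e (nat_lit 204815) (nat_lit 17) .nil)))) .nil)) 
(.lf (nat_lit 272865) (.g (nat_lit 3227) (.e (nat_lit 204829) (nat_lit 18) (.e (nat_lit 57847) (nat_lit 252) (.e (nat_lit 57375) (nat_lit 2) (.e (nat_lit 90158) (nat_lit 11) (.e (nat_lit 24608) (nat_lit 3) (.e (nat_lit 98341) (nat_lit 20) (.e (nat_lit 221214) (nat_lit 23) .nil))))))) (.g (nat_lit 5) .nil .nil))))) (.nd (nat_lit 5) (.nd (nat_lit 6) 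
(.lf (nat_lit 272785) (.g (nat_lit 1485) (.e (nat_lit 204829) (nat_lit 18) (.e (nat_lit 57688) (nat_lit 156) (.e (nat_lit 163903) (nat_lit 12) (.e (nat_lit 426566) (nat_lit 34) (.e (nat_lit 393272) (nat_lit 23) .nil))))) .nil)) 
(.lf (nat_lit 272849) (.g (nat_lit 3390) (.e (nat_lit 204829) (nat_lit 18) (.e (nat_lit 57847) (nat_lit 252) (.e (nat_lit 57355) (nat_lit 0) (.e (nat_lit 1858) (nat_lit 124) (.e (nat_lit 557105) (nat_lit 14) (.e (nat_lit 180252) (nat_lit 10) (.e (nat_lit 573480) (nat_lit 13) (.e (nat_lit 73472) (nat_lit 18) .nil)))))))) (.g (nat_lit 5) .nil .nil)))) (.nd (nat_lit 6) 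
(.lf (nat_lit 272817) (.g (nat_lit 1884) (.e (nat_lit 204829) (nat_lit 18) (.e (nat_lit 57691) (nat_lit 156) (.e (nat_lit 163907) (nat_lit 12) (.e (nat_lit 426566) (nat_lit 34) (.e (nat_lit 393278) (nat_lit 23) .nil))))) .nil)) 
(.lf (nat_lit 272881) (.g (nat_lit 3873) (.e (nat_lit 204829) (nat_lit 18) (.e (nat_lit 57847) (nat_lit 252) (.e (nat_lit 57406) (nat_lit 12) (.e (nat_lit 336454) (nat_lit 34) (.e (nat_lit 483380) (nat_lit 23) (.e (nat_lit 336324) (nat_lit 18) .nil)))))) (.g (nat_lit 4) .nil .nil)))))) (.nd (nat_lit 4) (.nd (nat_lit 5) (.nd (nat_lit 6) 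
(.lf (nat_lit 272777) (.g (nat_lit 4009) (.e (nat_lit 204829) (nat_lit 18) (.e (nat_lit 57688) (nat_lit 156) (.e (nat_lit 163874) (nat_lit 3) (.e (nat_lit 204837) (nat_lit 20) (.e (nat_lit 114718) (nat_lit 23) (.e (nat_lit 98365) (nat_lit 26) (.e (nat_lit 426133) (nat_lit 3) .nil))))))) (.g (nat_lit 6) .nil .nil))) 
(.lf (nat_lit 272841) (.g (nat_lit 1837) (.e (nat_lit 204829) (nat_lit 18) (.e (nat_lit 57692) (nat_lit 156) (.e (nat_lit 163906) (nat_lit 12) (.e (nat_lit 426566) (nat_lit 34) (.e (nat_lit 393279) (nat_lit 23) .nil))))) .nil))) (.nd (nat_lit 6) 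
(.lf (nat_lit 272809) (.g (nat_lit 4055) (.e (nat_lit 204829) (nat_lit 18) (.e (nat_lit 57691) (nat_lit 156) (.e (nat_lit 163875) (nat_lit 3) (.e (nat_lit 204838) (nat_lit 20) (.e (nat_lit 114716) (nat_lit 22) (.e (nat_lit 90185) (nat_lit 17) (.e (nat_lit 237594) (nat_lit 3) .nil))))))) (.g (nat_lit 6) .nil .nil))) 
(.lf (nat_lit 272873) (.g (nat_lit 4264) (.e (nat_lit 204829) (nat_lit 18) (.e (nat_lit 57847) (nat_lit 252) (.e (nat_lit 57377) (nat_lit 3) (.e (nat_lit 98317) (nat_lit 9) (.e (nat_lit 336027) (nat_lit 3) (.e (nat_lit 98341) (nat_lit 20) (.e (nat_lit 221215) (nat_lit 23) .nil))))))) (.g (nat_lit 5) .nil .nil))))) (.nd (nat_lit 5) (.nd (nat_lit 6) 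
(.lf (nat_lit 272793) (.g (nat_lit 2125) (.e (nat_lit 204829) (nat_lit 18) (.e (nat_lit 57691) (nat_lit 156) (.e (nat_lit 163869) (nat_lit 2) (.e (nat_lit 196624) (nat_lit 9) (.e (nat_lit 1277) (nat_lit 94) .nil))))) .nil)) 
(.lf (nat_lit 272857) (.g (nat_lit 3257) (.e (nat_lit 204829) (nat_lit 18) (.e (nat_lit 57847) (nat_lit 252) (.e (nat_lit 57372) (nat_lit 2) (.e (nat_lit 90158) (nat_lit 11) (.e (nat_lit 24608) (nat_lit 3) (.e (nat_lit 98342) (nat_lit 20) (.e (nat_lit 221214) (nat_lit 23) .nil))))))) (.g (nat_lit 5) .nil .nil)))) (.nd (nat_lit 6) 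
(.lf (nat_lit 272825) (.g (nat_lit 2218) (.e (nat_lit 204829) (nat_lit 18) (.e (nat_lit 57692) (nat_lit 156) (.e (nat_lit 163871) (nat_lit 2) (.e (nat_lit 196624) (nat_lit 9) (.e (nat_lit 1276) (nat_lit 94) .nil))))) .nil)) 
(.lf (nat_lit 272889) (.g (nat_lit 2343) (.e (nat_lit 204829) (nat_lit 18) (.e (nat_lit 57847) (nat_lit 252) (.e (nat_lit 57407) (nat_lit 12) (.e (nat_lit 336367) (nat_lit 27) (.e (nat_lit 426539) (nat_lit 29) (.e (nat_lit 360192) (nat_lit 3) .nil)))))) (.g (nat_lit 5) .nil .nil))))))) (.nd (nat_lit 3) (.nd (nat_lit 4) (.nd (nat_lit 5) (.nd (nat_lit 6) 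
(.lf (nat_lit 272773) (.g (nat_lit 2009) (.e (nat_lit 204829) (nat_lit 18) (.e (nat_lit 57688) (nat_lit 156) (.e (nat_lit 163868) (nat_lit 2) (.e (nat_lit 196660) (nat_lit 12) .nil)))) .nil)) 
(.lf (nat_lit 272837) (.g (nat_lit 3380) (.e (nat_lit 204829) (nat_lit 18) (.e (nat_lit 57692) (nat_lit 156) (.e (nat_lit 163874) (nat_lit 3) (.e (nat_lit 204838) (nat_lit 20) (.e (nat_lit 114718) (nat_lit 23) (.e (nat_lit 98365) (nat_lit 26) (.e (nat_lit 426133) (nat_lit 3) .nil))))))) (.g (nat_lit 6) .nil .nil)))) (.nd (nat_lit 6) 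
(.lf (nat_lit 272805) (.g (nat_lit 2004) (.e (nat_lit 204829) (nat_lit 18) (.e (nat_lit 57691) (nat_lit 156) (.e (nat_lit 163875) (nat_lit 3) (.e (nat_lit 204833) (nat_lit 19) .nil)))) .nil)) 
(.lf (nat_lit 272869) (.g (nat_lit 4232) (.e (nat_lit 204829) (nat_lit 18) (.e (nat_lit 57847) (nat_lit 252) (.e (nat_lit 57375) (nat_lit 2) (.e (nat_lit 90160) (nat_lit 11) (.e (nat_lit 24608) (nat_lit 3) (.e (nat_lit 98342) (nat_lit 20) (.e (nat_lit 221215) (nat_lit 23) .nil))))))) (.g (nat_lit 6) .nil .nil))))) (.nd (nat_lit 5) (.nd (nat_lit 6) 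
(.lf (nat_lit 272789) (.g (nat_lit 2165) (.e (nat_lit 204829) (nat_lit 18) (.e (nat_lit 57688) (nat_lit 156) (.e (nat_lit 163907) (nat_lit 12) (.e (nat_lit 426566) (nat_lit 34) (.e (nat_lit 393273) (nat_lit 23) .nil))))) .nil)) 
(.lf (nat_lit 272853) (.g (nat_lit 5165) (.e (nat_lit 204829) (nat_lit 18) (.e (nat_lit 57847) (nat_lit 252) (.e (nat_lit 57370) (nat_lit 2) (.e (nat_lit 90158) (nat_lit 11) (.e (nat_lit 24608) (nat_lit 3) (.e (nat_lit 98321) (nat_lit 17) (.e (nat_lit 3771) (nat_lit 229) (.e (nat_lit 794673) (nat_lit 23) .nil)))))))) (.g (nat_lit 5) .nil .nil)))) (.nd (nat_lit 6) 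
(.lf (nat_lit 272821) (.g (nat_lit 2564) (.e (nat_lit 204829) (nat_lit 18) (.e (nat_lit 57692) (nat_lit 156) (.e (nat_lit 163869) (nat_lit 2) (.e (nat_lit 196624) (nat_lit 9) (.e (nat_lit 1276) (nat_lit 94) (.e (nat_lit 114719) (nat_lit 23) (.e (nat_lit 98365) (nat_lit 26) (.e (nat_lit 426133) (nat_lit 3) .nil)))))))) (.g (nat_lit 4) .nil .nil))) 
(.lf (nat_lit 272885) (.g (nat_lit 1707) (.e (nat_lit 204829) (nat_lit 18) (.e (nat_lit 57847) (nat_lit 252) (.e (nat_lit 57407) (nat_lit 12) (.e (nat_lit 336366) (nat_lit 27) .nil)))) .nil))))) (.nd (nat_lit 4) (.nd (nat_lit 5) (.nd (nat_lit 6) 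
(.lf (nat_lit 272781) (.g (nat_lit 3463) (.e (nat_lit 204829) (nat_lit 18) (.e (nat_lit 57688) (nat_lit 156) (.e (nat_lit 163875) (nat_lit 3) (.e (nat_lit 204837) (nat_lit 20) (.e (nat_lit 114719) (nat_lit 23) (.e (nat_lit 98365) (nat_lit 26) (.e (nat_lit 426137) (nat_lit 3) .nil))))))) (.g (nat_lit 4) .nil .nil))) 
(.lf (nat_lit 272845) (.g (nat_lit 333) (.e (nat_lit 204829) (nat_lit 18) (.e (nat_lit 57692) (nat_lit 156) (.e (nat_lit 171776) (nat_lit 12) .nil))) .nil))) (.nd (nat_lit 6) 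
(.lf (nat_lit 272813) (.g (nat_lit 1829) (.e (nat_lit 204829) (nat_lit 18) (.e (nat_lit 57691) (nat_lit 156) (.e (nat_lit 163905) (nat_lit 12) (.e (nat_lit 426566) (nat_lit 34) .nil)))) .nil)) 
(.lf (nat_lit 272877) (.g (nat_lit 1989) (.e (nat_lit 204829) (nat_lit 18) (.e (nat_lit 57847) (nat_lit 252) (.e (nat_lit 57379) (nat_lit 3) (.e (nat_lit 98317) (nat_lit 9) (.e (nat_lit 336027) (nat_lit 3) .nil))))) .nil)))) (.nd (nat_lit 5) (.nd (nat_lit 6) 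
(.lf (nat_lit 272797) (.g (nat_lit 3245) (.e (nat_lit 204829) (nat_lit 18) (.e (nat_lit 57691) (nat_lit 156) (.e (nat_lit 163874) (nat_lit 3) (.e (nat_lit 204837) (nat_lit 20) (.e (nat_lit 114719) (nat_lit 23) (.e (nat_lit 98365) (nat_lit 26) (.e (nat_lit 426137) (nat_lit 3) .nil))))))) (.g (nat_lit 4) .nil .nil))) 
(.lf (nat_lit 272861) (.g (nat_lit 2899) (.e (nat_lit 204829) (nat_lit 18) (.e (nat_lit 57847) (nat_lit 252) (.e (nat_lit 57373) (nat_lit 2) (.e (nat_lit 90160) (nat_lit 11) (.e (nat_lit 24608) (nat_lit 3) (.e (nat_lit 98341) (nat_lit 20) (.e (nat_lit 221215) (nat_lit 23) .nil))))))) (.g (nat_lit 4) .nil .nil)))) (.nd (nat_lit 6) 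
(.lf (nat_lit 272829) (.g (nat_lit 3134) (.e (nat_lit 204829) (nat_lit 18) (.e (nat_lit 57692) (nat_lit 156) (.e (nat_lit 163871) (nat_lit 2) (.e (nat_lit 196624) (nat_lit 9) (.e (nat_lit 1277) (nat_lit 94) (.e (nat_lit 114718) (nat_lit 23) (.e (nat_lit 98365) (nat_lit 26) (.e (nat_lit 426138) (nat_lit 3) .nil)))))))) (.g (nat_lit 4) .nil .nil))) 
(.lf (nat_lit 272893) (.g (nat_lit 3921) (.e (nat_lit 204829) (nat_lit 18) (.e (nat_lit 57847) (nat_lit 252) (.e (nat_lit 57407) (nat_lit 12) (.e (nat_lit 336454) (nat_lit 34) (.e (nat_lit 483380) (nat_lit 23) (.e (nat_lit 336326) (nat_lit 18) .nil)))))) (.g (nat_lit 0) .nil .nil)))))))) (.nd (nat_lit 2) (.nd (nat_lit 3) (.nd (nat_lit 4) (.nd (nat_lit 5) (.nd (nat_lit 6) 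
(.lf (nat_lit 272771) (.g (nat_lit 3525) (.e (nat_lit 204829) (nat_lit 18) (.e (nat_lit 57688) (nat_lit 156) (.e (nat_lit 163868) (nat_lit 2) (.e (nat_lit 196624) (nat_lit 9) (.e (nat_lit 1277) (nat_lit 94) (.e (nat_lit 114719) (nat_lit 23) (.e (nat_lit 98365) (nat_lit 26) (.e (nat_lit 426137) (nat_lit 3) .nil)))))))) (.g (nat_lit 4) .nil .nil))) 
(.lf (nat_lit 272835) (.g (nat_lit 2595) (.e (nat_lit 204829) (nat_lit 18) (.e (nat_lit 57692) (nat_lit 156) (.e (nat_lit 163874) (nat_lit 3) (.e (nat_lit 204838) (nat_lit 20) (.e (nat_lit 114714) (nat_lit 22) (.e (nat_lit 90185) (nat_lit 17) (.e (nat_lit 237594) (nat_lit 3) .nil))))))) (.g (nat_lit 4) .nil .nil)))) (.nd (nat_lit 6) 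
(.lf (nat_lit 272803) (.g (nat_lit 1983) (.e (nat_lit 204829) (nat_lit 18) (.e (nat_lit 57691) (nat_lit 156) (.e (nat_lit 163875) (nat_lit 3) (.e (nat_lit 204818) (nat_lit 17) .nil)))) .nil)) 
(.lf (nat_lit 272867) (.g (nat_lit 2907) (.e (nat_lit 204829) (nat_lit 18) (.e (nat_lit 57847) (nat_lit 252) (.e (nat_lit 57375) (nat_lit 2) (.e (nat_lit 90160) (nat_lit 11) (.e (nat_lit 24607) (nat_lit 3) (.e (nat_lit 98342) (nat_lit 20) (.e (nat_lit 221215) (nat_lit 23) .nil))))))) (.g (nat_lit 4) .nil .nil))))) (.nd (nat_lit 5) (.nd (nat_lit 6) 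
(.lf (nat_lit 272787) (.g (nat_lit 1449) (.e (nat_lit 204829) (nat_lit 18) (.e (nat_lit 57688) (nat_lit 156) (.e (nat_lit 163905) (nat_lit 12) (.e (nat_lit 426567) (nat_lit 34) .nil)))) .nil)) 
(.lf (nat_lit 272851) (.g (nat_lit 782) (.e (nat_lit 204829) (nat_lit 18) (.e (nat_lit 57847) (nat_lit 252) (.e (nat_lit 57363) (nat_lit 1) (.e (nat_lit 57927) (nat_lit 282) .nil)))) .nil))) (.nd (nat_lit 6) 
(.lf (nat_lit 272819) (.g (nat_lit 388) (.e (nat_lit 204829) (nat_lit 18) (.e (nat_lit 57692) (nat_lit 156) (.e (nat_lit 163869) (nat_lit 2) .nil))) .nil)) 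
(.lf (nat_lit 272883) (.g (nat_lit 3760) (.e (nat_lit 204829) (nat_lit 18) (.e (nat_lit 57847) (nat_lit 252) (.e (nat_lit 57406) (nat_lit 12) (.e (nat_lit 336454) (nat_lit 34) (.e (nat_lit 483382) (nat_lit 23) .nil))))) .nil))))) (.nd (nat_lit 4) (.nd (nat_lit 5) (.nd (nat_lit 6) 
(.lf (nat_lit 272779) (.g (nat_lit 4209) (.e (nat_lit 204829) (nat_lit 18) (.e (nat_lit 57688) (nat_lit 156) (.e (nat_lit 163874) (nat_lit 3) (.e (nat_lit 204838) (nat_lit 20) (.e (nat_lit 114716) (nat_lit 22) (.e (nat_lit 90185) (nat_lit 17) (.e (nat_lit 237592) (nat_lit 3) .nil))))))) (.g (nat_lit 6) .nil .nil))) 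
(.lf (nat_lit 272843) (.g (nat_lit 1723) (.e (nat_lit 204829) (nat_lit 18) (.e (nat_lit 57692) (nat_lit 156) (.e (nat_lit 163907) (nat_lit 12) (.e (nat_lit 426564) (nat_lit 34) (.e (nat_lit 393279) (nat_lit 23) .nil))))) .nil))) (.nd (nat_lit 6) 
(.lf (nat_lit 272811) (.g (nat_lit 4202) (.e (nat_lit 204829) (nat_lit 18) (.e (nat_lit 57691) (nat_lit 156) (.e (nat_lit 163875) (nat_lit 3) (.e (nat_lit 204838) (nat_lit 20) (.e (nat_lit 114719) (nat_lit 23) (.e (nat_lit 98365) (nat_lit 26) (.e (nat_lit 426133) (nat_lit 3) .nil))))))) (.g (nat_lit 6) .nil .nil))) 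
(.lf (nat_lit 272875) (.g (nat_lit 4086) (.e (nat_lit 204829) (nat_lit 18) (.e (nat_lit 57847) (nat_lit 252) (.e (nat_lit 57379) (nat_lit 3) (.e (nat_lit 98313) (nat_lit 9) (.e (nat_lit 336027) (nat_lit 3) (.e (nat_lit 98338) (nat_lit 19) (.e (nat_lit 213013) (nat_lit 9) (.e (nat_lit 2684) (nat_lit 168) .nil)))))))) (.g (nat_lit 5) .nil .nil))))) (.nd (nat_lit 5) (.nd (nat_lit 6) 
(.lf (nat_lit 272795) (.g (nat_lit 3085) (.e (nat_lit 204829) (nat_lit 18) (.e (nat_lit 57691) (nat_lit 156) (.e (nat_lit 163871) (nat_lit 2) (.e (nat_lit 196624) (nat_lit 9) (.e (nat_lit 1277) (nat_lit 94) (.e (nat_lit 114719) (nat_lit 23) (.e (nat_lit 98365) (nat_lit 26) (.e (nat_lit 426137) (nat_lit 3) .nil)))))))) (.g (nat_lit 4) .nil .nil))) 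
(.lf (nat_lit 272859) (.g (nat_lit 1567) (.e (nat_lit 204829) (nat_lit 18) (.e (nat_lit 57847) (nat_lit 252) (.e (nat_lit 57373) (nat_lit 2) (.e (nat_lit 90160) (nat_lit 11) .nil)))) .nil))) (.nd (nat_lit 6) 
(.lf (nat_lit 272827) (.g (nat_lit 1777) (.e (nat_lit 204829) (nat_lit 18) (.e (nat_lit 57692) (nat_lit 156) (.e (nat_lit 163871) (nat_lit 2) (.e (nat_lit 196624) (nat_lit 9) (.e (nat_lit 1277) (nat_lit 94) .nil))))) .nil)) 
(.lf (nat_lit 272891) (.g (nat_lit 2784) (.e (nat_lit 204829) (nat_lit 18) (.e (nat_lit 57847) (nat_lit 252) (.e (nat_lit 57407) (nat_lit 12) (.e (nat_lit 336367) (nat_lit 27) (.e (nat_lit 426542) (nat_lit 29) (.e (nat_lit 360192) (nat_lit 3) .nil)))))) (.g (nat_lit 5) .nil .nil))))))) (.nd (nat_lit 3) (.nd (nat_lit 4) (.nd (nat_lit 5) (.nd (nat_lit 6) 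
(.lf (nat_lit 272775) (.g (nat_lit 1444) (.e (nat_lit 204829) (nat_lit 18) (.e (nat_lit 57688) (nat_lit 156) (.e (nat_lit 163873) (nat_lit 3) (.e (nat_lit 204815) (nat_lit 17) .nil)))) .nil)) 
(.lf (nat_lit 272839) (.g (nat_lit 4021) (.e (nat_lit 204829) (nat_lit 18) (.e (nat_lit 57692) (nat_lit 156) (.e (nat_lit 163875) (nat_lit 3) (.e (nat_lit 204838) (nat_lit 20) (.e (nat_lit 114716) (nat_lit 22) (.e (nat_lit 90185) (nat_lit 17) (.e (nat_lit 237594) (nat_lit 3) .nil))))))) (.g (nat_lit 6) .nil .nil)))) (.nd (nat_lit 6) 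
(.lf (nat_lit 272807) (.g (nat_lit 3235) (.e (nat_lit 204829) (nat_lit 18) (.e (nat_lit 57691) (nat_lit 156) (.e (nat_lit 163875) (nat_lit 3) (.e (nat_lit 204837) (nat_lit 20) (.e (nat_lit 114719) (nat_lit 23) (.e (nat_lit 98365) (nat_lit 26) (.e (nat_lit 426138) (nat_lit 3) .nil))))))) (.g (nat_lit 4) .nil .nil))) 
(.lf (nat_lit 272871) (.g (nat_lit 4453) (.e (nat_lit 204829) (nat_lit 18) (.e (nat_lit 57847) (nat_lit 252) (.e (nat_lit 57377) (nat_lit 3) (.e (nat_lit 98317) (nat_lit 9) (.e (nat_lit 336026) (nat_lit 3) .nil))))) .nil)))) (.nd (nat_lit 5) (.nd (nat_lit 6) 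
(.lf (nat_lit 272791) (.g (nat_lit 2307) (.e (nat_lit 204829) (nat_lit 18) (.e (nat_lit 57688) (nat_lit 156) (.e (nat_lit 163907) (nat_lit 12) (.e (nat_lit 426567) (nat_lit 34) (.e (nat_lit 393281) (nat_lit 23) .nil))))) .nil)) 
(.lf (nat_lit 272855) (.g (nat_lit 1593) (.e (nat_lit 204829) (nat_lit 18) (.e (nat_lit 57847) (nat_lit 252) (.e (nat_lit 57372) (nat_lit 2) (.e (nat_lit 90128) (nat_lit 9) (.e (nat_lit 297) (nat_lit 22) .nil))))) .nil))) (.nd (nat_lit 6) 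
(.lf (nat_lit 272823) (.g (nat_lit 3353) (.e (nat_lit 204829) (nat_lit 18) (.e (nat_lit 57692) (nat_lit 156) (.e (nat_lit 163869) (nat_lit 2) (.e (nat_lit 196624) (nat_lit 9) (.e (nat_lit 1277) (nat_lit 94) (.e (nat_lit 114718) (nat_lit 23) (.e (nat_lit 98365) (nat_lit 26) (.e (nat_lit 426138) (nat_lit 3) .nil)))))))) (.g (nat_lit 4) .nil .nil))) 
(.lf (nat_lit 272887) (.g (nat_lit 2459) (.e (nat_lit 204829) (nat_lit 18) (.e (nat_lit 57847) (nat_lit 252) (.e (nat_lit 57407) (nat_lit 12) (.e (nat_lit 336367) (nat_lit 27) (.e (nat_lit 426530) (nat_lit 27) (.e (nat_lit 336119) (nat_lit 9) (.e (nat_lit 336323) (nat_lit 18) .nil))))))) (.g (nat_lit 5) .nil .nil)))))) (.nd (nat_lit 4) (.nd (nat_lit 5) (.nd (nat_lit 6) 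
(.lf (nat_lit 272783) (.g (nat_lit 503) (.e (nat_lit 204829) (nat_lit 18) (.e (nat_lit 57688) (nat_lit 156) (.e (nat_lit 163901) (nat_lit 12) .nil))) .nil)) 
(.lf (nat_lit 272847) (.g (nat_lit 846) (.e (nat_lit 204829) (nat_lit 18) (.e (nat_lit 57847) (nat_lit 252) (.e (nat_lit 57345) (nat_lit 0) (.e (nat_lit 1803) (nat_lit 119) .nil)))) .nil))) (.nd (nat_lit 6) 
(.lf (nat_lit 272815) (.g (nat_lit 1800) (.e (nat_lit 204829) (nat_lit 18) (.e (nat_lit 57691) (nat_lit 156) (.e (nat_lit 163906) (nat_lit 12) (.e (nat_lit 426568) (nat_lit 34) (.e (nat_lit 393281) (nat_lit 23) .nil))))) .nil)) 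
(.lf (nat_lit 272879) (.g (nat_lit 4180) (.e (nat_lit 204829) (nat_lit 18) (.e (nat_lit 57847) (nat_lit 252) (.e (nat_lit 57379) (nat_lit 3) (.e (nat_lit 98341) (nat_lit 20) (.e (nat_lit 221215) (nat_lit 23) (.e (nat_lit 204852) (nat_lit 26) (.e (nat_lit 336326) (nat_lit 18) .nil))))))) (.g (nat_lit 7) .nil .nil))))) (.nd (nat_lit 5) (.nd (nat_lit 6) 
(.lf (nat_lit 272799) (.g (nat_lit 3488) (.e (nat_lit 204829) (nat_lit 18) (.e (nat_lit 57691) (nat_lit 156) (.e (nat_lit 163874) (nat_lit 3) (.e (nat_lit 204838) (nat_lit 20) (.e (nat_lit 114716) (nat_lit 22) (.e (nat_lit 90185) (nat_lit 17) (.e (nat_lit 237592) (nat_lit 3) .nil))))))) (.g (nat_lit 5) .nil .nil))) 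
(.lf (nat_lit 272863) (.g (nat_lit 3159) (.e (nat_lit 204829) (nat_lit 18) (.e (nat_lit 57847) (nat_lit 252) (.e (nat_lit 57373) (nat_lit 2) (.e (nat_lit 90160) (nat_lit 11) (.e (nat_lit 24608) (nat_lit 3) (.e (nat_lit 98342) (nat_lit 20) (.e (nat_lit 221215) (nat_lit 23) .nil))))))) (.g (nat_lit 4) .nil .nil)))) (.nd (nat_lit 6) 
(.lf (nat_lit 272831) (.g (nat_lit 1813) (.e (nat_lit 204829) (nat_lit 18) (.e (nat_lit 57692) (nat_lit 156) (.e (nat_lit 163874) (nat_lit 3) (.e (nat_lit 204833) (nat_lit 19) .nil)))) .nil)) 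
(.lf (nat_lit 272895) (.g (nat_lit 3818) (.e (nat_lit 204829) (nat_lit 18) (.e (nat_lit 57847) (nat_lit 252) (.e (nat_lit 57407) (nat_lit 12) (.e (nat_lit 336454) (nat_lit 34) (.e (nat_lit 483383) (nat_lit 23) (.e (nat_lit 336326) (nat_lit 18) .nil)))))) (.g (nat_lit 0) .nil .nil))))))))))

noncomputable def tv3498 : DT := (.nd (nat_lit 0) (.nd (nat_lit 1) (.nd (nat_lit 2) (.nd (nat_lit 3) (.nd (nat_lit 4) (.nd (nat_lit 5) 
(.lf (nat_lit 272896) (.g (nat_lit 3749) (.e (nat_lit 204829) (nat_lit 18) (.e (nat_lit 57847) (nat_lit 252) (.e (nat_lit 57407) (nat_lit 12) (.e (nat_lit 336454) (nat_lit 34) (.e (nat_lit 483385) (nat_lit 23) (.e (nat_lit 336325) (nat_lit 18) .nil)))))) (.g (nat_lit 6) .nil .nil))) 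
(.lf (nat_lit 272928) (.g (nat_lit 1616) (.e (nat_lit 204829) (nat_lit 18) (.e (nat_lit 57847) (nat_lit 252) (.e (nat_lit 57445) (nat_lit 19) (.e (nat_lit 393221) (nat_lit 0) .nil)))) .nil))) (.nd (nat_lit 5) 
(.lf (nat_lit 272912) (.g (nat_lit 1927) (.e (nat_lit 204829) (nat_lit 18) (.e (nat_lit 57847) (nat_lit 252) (.e (nat_lit 57411) (nat_lit 12) (.e (nat_lit 336395) (nat_lit 27) (.e (nat_lit 426528) (nat_lit 27) .nil))))) .nil)) 
(.lf (nat_lit 272944) (.g (nat_lit 2647) (.e (nat_lit 204829) (nat_lit 18) (.e (nat_lit 57847) (nat_lit 252) (.e (nat_lit 57445) (nat_lit 19) (.e (nat_lit 393229) (nat_lit 9) (.e (nat_lit 343808) (nat_lit 9) .nil))))) .nil)))) (.nd (nat_lit 4) (.nd (nat_lit 5) 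
(.lf (nat_lit 272904) (.g (nat_lit 2200) (.e (nat_lit 204829) (nat_lit 18) (.e (nat_lit 57847) (nat_lit 252) (.e (nat_lit 57411) (nat_lit 12) (.e (nat_lit 336366) (nat_lit 27) (.e (nat_lit 426538) (nat_lit 29) (.e (nat_lit 360192) (nat_lit 3) .nil)))))) (.g (nat_lit 4) .nil .nil))) 
(.lf (nat_lit 272936) (.g (nat_lit 1669) (.e (nat_lit 204829) (nat_lit 18) (.e (nat_lit 57847) (nat_lit 252) (.e (nat_lit 57445) (nat_lit 19) (.e (nat_lit 393228) (nat_lit 9) .nil)))) .nil))) (.nd (nat_lit 5) 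
(.lf (nat_lit 272920) (.g (nat_lit 2526) (.e (nat_lit 204829) (nat_lit 18) (.e (nat_lit 57847) (nat_lit 252) (.e (nat_lit 57411) (nat_lit 12) (.e (nat_lit 336456) (nat_lit 34) (.e (nat_lit 483379) (nat_lit 23) (.e (nat_lit 336322) (nat_lit 18) .nil)))))) (.g (nat_lit 5) .nil .nil))) 
(.lf (nat_lit 272952) (.g (nat_lit 2106) (.e (nat_lit 204829) (nat_lit 18) (.e (nat_lit 57847) (nat_lit 252) (.e (nat_lit 57447) (nat_lit 19) (.e (nat_lit 393227) (nat_lit 9) (.e (nat_lit 336153) (nat_lit 9) (.e (nat_lit 336323) (nat_lit 18) .nil)))))) (.g (nat_lit 4) .nil .nil)))))) (.nd (nat_lit 3) (.nd (nat_lit 4) (.nd (nat_lit 5) 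
(.lf (nat_lit 272900) (.g (nat_lit 2953) (.e (nat_lit 204829) (nat_lit 18) (.e (nat_lit 57847) (nat_lit 252) (.e (nat_lit 57407) (nat_lit 12) (.e (nat_lit 336456) (nat_lit 34) (.e (nat_lit 483391) (nat_lit 23) (.e (nat_lit 336321) (nat_lit 18) .nil)))))) (.g (nat_lit 5) .nil .nil))) 
(.lf (nat_lit 272932) (.g (nat_lit 1997) (.e (nat_lit 204829) (nat_lit 18) (.e (nat_lit 57847) (nat_lit 252) (.e (nat_lit 57445) (nat_lit 19) (.e (nat_lit 393225) (nat_lit 9) (.e (nat_lit 336075) (nat_lit 9) .nil))))) .nil))) (.nd (nat_lit 5) 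
(.lf (nat_lit 272916) (.g (nat_lit 2996) (.e (nat_lit 204829) (nat_lit 18) (.e (nat_lit 57847) (nat_lit 252) (.e (nat_lit 57411) (nat_lit 12) (.e (nat_lit 336454) (nat_lit 34) (.e (nat_lit 483385) (nat_lit 23) (.e (nat_lit 336322) (nat_lit 18) .nil)))))) (.g (nat_lit 5) .nil .nil))) 
(.lf (nat_lit 272948) (.g (nat_lit 1842) (.e (nat_lit 204829) (nat_lit 18) (.e (nat_lit 57847) (nat_lit 252) (.e (nat_lit 57447) (nat_lit 19) (.e (nat_lit 393224) (nat_lit 9) .nil)))) .nil)))) (.nd (nat_lit 4) (.nd (nat_lit 5) 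
(.lf (nat_lit 272908) (.g (nat_lit 2133) (.e (nat_lit 204829) (nat_lit 18) (.e (nat_lit 57847) (nat_lit 252) (.e (nat_lit 57411) (nat_lit 12) (.e (nat_lit 336367) (nat_lit 27) (.e (nat_lit 426540) (nat_lit 29) (.e (nat_lit 360192) (nat_lit 3) .nil)))))) (.g (nat_lit 5) .nil .nil))) 
(.lf (nat_lit 272940) (.g (nat_lit 2266) (.e (nat_lit 204829) (nat_lit 18) (.e (nat_lit 57847) (nat_lit 252) (.e (nat_lit 57445) (nat_lit 19) (.e (nat_lit 393229) (nat_lit 9) (.e (nat_lit 336078) (nat_lit 9) (.e (nat_lit 336322) (nat_lit 18) .nil)))))) (.g (nat_lit 4) .nil .nil)))) (.nd (nat_lit 5) 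
(.lf (nat_lit 272924) (.g (nat_lit 1767) (.e (nat_lit 204829) (nat_lit 18) (.e (nat_lit 57847) (nat_lit 252) (.e (nat_lit 57411) (nat_lit 12) (.e (nat_lit 336456) (nat_lit 34) (.e (nat_lit 483391) (nat_lit 23) (.e (nat_lit 343808) (nat_lit 18) .nil)))))) (.g (nat_lit 4) .nil .nil))) 
(.lf (nat_lit 272956) (.g (nat_lit 2974) (.e (nat_lit 204829) (nat_lit 18) (.e (nat_lit 57847) (nat_lit 252) (.e (nat_lit 57447) (nat_lit 19) (.e (nat_lit 393229) (nat_lit 9) (.e (nat_lit 336085) (nat_lit 9) (.e (nat_lit 336324) (nat_lit 18) .nil)))))) (.g (nat_lit 4) .nil .nil))))))) (.nd (nat_lit 2) (.nd (nat_lit 3) (.nd (nat_lit 4) (.nd (nat_lit 5) 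
(.lf (nat_lit 272898) (.g (nat_lit 2991) (.e (nat_lit 204829) (nat_lit 18) (.e (nat_lit 57847) (nat_lit 252) (.e (nat_lit 57407) (nat_lit 12) (.e (nat_lit 336456) (nat_lit 34) (.e (nat_lit 483379) (nat_lit 23) (.e (nat_lit 336322) (nat_lit 18) .nil)))))) (.g (nat_lit 5) .nil .nil))) 
(.lf (nat_lit 272930) (.g (nat_lit 3301) (.e (nat_lit 204829) (nat_lit 18) (.e (nat_lit 57847) (nat_lit 252) (.e (nat_lit 57445) (nat_lit 19) (.e (nat_lit 393221) (nat_lit 0) (.e (nat_lit 6112) (nat_lit 332) (.e (nat_lit 2507) (nat_lit 157) (.e (nat_lit 5259) (nat_lit 298) (.e (nat_lit 174) (nat_lit 12) .nil)))))))) (.g (nat_lit 5) .nil .nil)))) (.nd (nat_lit 5) 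
(.lf (nat_lit 272914) (.g (nat_lit 3427) (.e (nat_lit 204829) (nat_lit 18) (.e (nat_lit 57847) (nat_lit 252) (.e (nat_lit 57411) (nat_lit 12) (.e (nat_lit 336454) (nat_lit 34) (.e (nat_lit 483380) (nat_lit 23) (.e (nat_lit 336326) (nat_lit 18) .nil)))))) (.g (nat_lit 0) .nil .nil))) 
(.lf (nat_lit 272946) (.g (nat_lit 713) (.e (nat_lit 204829) (nat_lit 18) (.e (nat_lit 57847) (nat_lit 252) (.e (nat_lit 57446) (nat_lit 19) (.e (nat_lit 393229) (nat_lit 9) .nil)))) .nil)))) (.nd (nat_lit 4) (.nd (nat_lit 5) 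
(.lf (nat_lit 272906) (.g (nat_lit 2082) (.e (nat_lit 204829) (nat_lit 18) (.e (nat_lit 57847) (nat_lit 252) (.e (nat_lit 57411) (nat_lit 12) (.e (nat_lit 336367) (nat_lit 27) (.e (nat_lit 426538) (nat_lit 29) (.e (nat_lit 360192) (nat_lit 3) .nil)))))) (.g (nat_lit 5) .nil .nil))) 
(.lf (nat_lit 272938) (.g (nat_lit 2445) (.e (nat_lit 204829) (nat_lit 18) (.e (nat_lit 57847) (nat_lit 252) (.e (nat_lit 57445) (nat_lit 19) (.e (nat_lit 393229) (nat_lit 9) (.e (nat_lit 336077) (nat_lit 9) .nil))))) .nil))) (.nd (nat_lit 5) 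
(.lf (nat_lit 272922) (.g (nat_lit 1916) (.e (nat_lit 204829) (nat_lit 18) (.e (nat_lit 57847) (nat_lit 252) (.e (nat_lit 57411) (nat_lit 12) (.e (nat_lit 336456) (nat_lit 34) (.e (nat_lit 483387) (nat_lit 23) (.e (nat_lit 343808) (nat_lit 18) .nil)))))) (.g (nat_lit 4) .nil .nil))) 
(.lf (nat_lit 272954) (.g (nat_lit 2822) (.e (nat_lit 204829) (nat_lit 18) (.e (nat_lit 57847) (nat_lit 252) (.e (nat_lit 57447) (nat_lit 19) (.e (nat_lit 393229) (nat_lit 9) (.e (nat_lit 336077) (nat_lit 9) (.e (nat_lit 336324) (nat_lit 18) .nil)))))) (.g (nat_lit 4) .nil .nil)))))) (.nd (nat_lit 3) (.nd (nat_lit 4) (.nd (nat_lit 5) 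
(.lf (nat_lit 272902) (.g (nat_lit 784) (.e (nat_lit 204829) (nat_lit 18) (.e (nat_lit 57847) (nat_lit 252) (.e (nat_lit 57410) (nat_lit 12) (.e (nat_lit 336398) (nat_lit 27) .nil)))) .nil)) 
(.lf (nat_lit 272934) (.g (nat_lit 1659) (.e (nat_lit 204829) (nat_lit 18) (.e (nat_lit 57847) (nat_lit 252) (.e (nat_lit 57445) (nat_lit 19) (.e (nat_lit 393226) (nat_lit 9) .nil)))) .nil))) (.nd (nat_lit 5) 
(.lf (nat_lit 272918) (.g (nat_lit 3080) (.e (nat_lit 204829) (nat_lit 18) (.e (nat_lit 57847) (nat_lit 252) (.e (nat_lit 57411) (nat_lit 12) (.e (nat_lit 336456) (nat_lit 34) (.e (nat_lit 483346) (nat_lit 17) (.e (nat_lit 6445) (nat_lit 343) (.e (nat_lit 174) (nat_lit 12) .nil))))))) (.g (nat_lit 5) .nil .nil))) 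
(.lf (nat_lit 272950) (.g (nat_lit 2125) (.e (nat_lit 204829) (nat_lit 18) (.e (nat_lit 57847) (nat_lit 252) (.e (nat_lit 57447) (nat_lit 19) (.e (nat_lit 393225) (nat_lit 9) (.e (nat_lit 336075) (nat_lit 9) .nil))))) .nil)))) (.nd (nat_lit 4) (.nd (nat_lit 5) 
(.lf (nat_lit 272910) (.g (nat_lit 2240) (.e (nat_lit 204829) (nat_lit 18) (.e (nat_lit 57847) (nat_lit 252) (.e (nat_lit 57411) (nat_lit 12) (.e (nat_lit 336367) (nat_lit 27) (.e (nat_lit 426555) (nat_lit 32) (.e (nat_lit 384768) (nat_lit 3) .nil)))))) (.g (nat_lit 5) .nil .nil))) 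
(.lf (nat_lit 272942) (.g (nat_lit 3058) (.e (nat_lit 204829) (nat_lit 18) (.e (nat_lit 57847) (nat_lit 252) (.e (nat_lit 57445) (nat_lit 19) (.e (nat_lit 393229) (nat_lit 9) (.e (nat_lit 336086) (nat_lit 9) (.e (nat_lit 336322) (nat_lit 18) .nil)))))) (.g (nat_lit 6) .nil .nil)))) (.nd (nat_lit 5) 
(.lf (nat_lit 272926) (.g (nat_lit 643) (.e (nat_lit 204829) (nat_lit 18) (.e (nat_lit 57847) (nat_lit 252) (.e (nat_lit 57444) (nat_lit 19) .nil))) .nil)) 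
(.lf (nat_lit 272958) (.g (nat_lit 2400) (.e (nat_lit 204829) (nat_lit 18) (.e (nat_lit 57847) (nat_lit 252) (.e (nat_lit 57447) (nat_lit 19) (.e (nat_lit 393229) (nat_lit 9) (.e (nat_lit 336086) (nat_lit 9) (.e (nat_lit 336322) (nat_lit 18) .nil)))))) (.g (nat_lit 4) .nil .nil)))))))) (.nd (nat_lit 1) (.nd (nat_lit 2) (.nd (nat_lit 3) (.nd (nat_lit 4) (.nd (nat_lit 5) 
(.lf (nat_lit 272897) (.g (nat_lit 4207) (.e (nat_lit 204829) (nat_lit 18) (.e (nat_lit 57847) (nat_lit 252) (.e (nat_lit 57407) (nat_lit 12) (.e (nat_lit 336454) (nat_lit 34) (.e (nat_lit 483385) (nat_lit 23) (.e (nat_lit 336326) (nat_lit 18) .nil)))))) (.g (nat_lit 0) .nil .nil))) 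
(.lf (nat_lit 272929) (.g (nat_lit 3319) (.e (nat_lit 204829) (nat_lit 18) (.e (nat_lit 57847) (nat_lit 252) (.e (nat_lit 57445) (nat_lit 19) (.e (nat_lit 393221) (nat_lit 0) (.e (nat_lit 6112) (nat_lit 332) (.e (nat_lit 2406) (nat_lit 157) (.e (nat_lit 5259) (nat_lit 298) (.e (nat_lit 174) (nat_lit 12) .nil)))))))) (.g (nat_lit 5) .nil .nil)))) (.nd (nat_lit 5) 
(.lf (nat_lit 272913) (.g (nat_lit 1932) (.e (nat_lit 204829) (nat_lit 18) (.e (nat_lit 57847) (nat_lit 252) (.e (nat_lit 57411) (nat_lit 12) (.e (nat_lit 336399) (nat_lit 27) (.e (nat_lit 426523) (nat_lit 27) .nil))))) .nil)) 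
(.lf (nat_lit 272945) (.g (nat_lit 2700) (.e (nat_lit 204829) (nat_lit 18) (.e (nat_lit 57847) (nat_lit 252) (.e (nat_lit 57445) (nat_lit 19) (.e (nat_lit 393229) (nat_lit 9) (.e (nat_lit 343808) (nat_lit 9) (.e (nat_lit 336323) (nat_lit 18) .nil)))))) (.g (nat_lit 4) .nil .nil))))) (.nd (nat_lit 4) (.nd (nat_lit 5) 
(.lf (nat_lit 272905) (.g (nat_lit 2228) (.e (nat_lit 204829) (nat_lit 18) (.e (nat_lit 57847) (nat_lit 252) (.e (nat_lit 57411) (nat_lit 12) (.e (nat_lit 336367) (nat_lit 27) (.e (nat_lit 426530) (nat_lit 27) (.e (nat_lit 336116) (nat_lit 9) (.e (nat_lit 336323) (nat_lit 18) .nil))))))) (.g (nat_lit 6) .nil .nil))) 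
(.lf (nat_lit 272937) (.g (nat_lit 1017) (.e (nat_lit 204829) (nat_lit 18) (.e (nat_lit 57847) (nat_lit 252) (.e (nat_lit 57445) (nat_lit 19) (.e (nat_lit 393229) (nat_lit 9) .nil)))) .nil))) (.nd (nat_lit 5) 
(.lf (nat_lit 272921) (.g (nat_lit 1977) (.e (nat_lit 204829) (nat_lit 18) (.e (nat_lit 57847) (nat_lit 252) (.e (nat_lit 57411) (nat_lit 12) (.e (nat_lit 336456) (nat_lit 34) (.e (nat_lit 483384) (nat_lit 23) .nil))))) .nil)) 
(.lf (nat_lit 272953) (.g (nat_lit 2148) (.e (nat_lit 204829) (nat_lit 18) (.e (nat_lit 57847) (nat_lit 252) (.e (nat_lit 57447) (nat_lit 19) (.e (nat_lit 393229) (nat_lit 9) (.e (nat_lit 336075) (nat_lit 9) .nil))))) .nil))))) (.nd (nat_lit 3) (.nd (nat_lit 4) (.nd (nat_lit 5) 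
(.lf (nat_lit 272901) (.g (nat_lit 2589) (.e (nat_lit 204829) (nat_lit 18) (.e (nat_lit 57847) (nat_lit 252) (.e (nat_lit 57409) (nat_lit 12) (.e (nat_lit 336454) (nat_lit 34) (.e (nat_lit 483384) (nat_lit 23) (.e (nat_lit 336322) (nat_lit 18) .nil)))))) (.g (nat_lit 4) .nil .nil))) 
(.lf (nat_lit 272933) (.g (nat_lit 2259) (.e (nat_lit 204829) (nat_lit 18) (.e (nat_lit 57847) (nat_lit 252) (.e (nat_lit 57445) (nat_lit 19) (.e (nat_lit 393225) (nat_lit 9) (.e (nat_lit 336077) (nat_lit 9) .nil))))) .nil))) (.nd (nat_lit 5) 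
(.lf (nat_lit 272917) (.g (nat_lit 3256) (.e (nat_lit 204829) (nat_lit 18) (.e (nat_lit 57847) (nat_lit 252) (.e (nat_lit 57411) (nat_lit 12) (.e (nat_lit 336454) (nat_lit 34) (.e (nat_lit 483385) (nat_lit 23) (.e (nat_lit 336325) (nat_lit 18) .nil)))))) (.g (nat_lit 6) .nil .nil))) 
(.lf (nat_lit 272949) (.g (nat_lit 1162) (.e (nat_lit 204829) (nat_lit 18) (.e (nat_lit 57847) (nat_lit 252) (.e (nat_lit 57447) (nat_lit 19) (.e (nat_lit 393225) (nat_lit 9) .nil)))) .nil)))) (.nd (nat_lit 4) (.nd (nat_lit 5) 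
(.lf (nat_lit 272909) (.g (nat_lit 2291) (.e (nat_lit 204829) (nat_lit 18) (.e (nat_lit 57847) (nat_lit 252) (.e (nat_lit 57411) (nat_lit 12) (.e (nat_lit 336367) (nat_lit 27) (.e (nat_lit 426542) (nat_lit 29) (.e (nat_lit 360192) (nat_lit 3) .nil)))))) (.g (nat_lit 5) .nil .nil))) 
(.lf (nat_lit 272941) (.g (nat_lit 2282) (.e (nat_lit 204829) (nat_lit 18) (.e (nat_lit 57847) (nat_lit 252) (.e (nat_lit 57445) (nat_lit 19) (.e (nat_lit 393229) (nat_lit 9) (.e (nat_lit 336085) (nat_lit 9) .nil))))) .nil))) (.nd (nat_lit 5) 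
(.lf (nat_lit 272925) (.g (nat_lit 5041) (.e (nat_lit 204829) (nat_lit 18) (.e (nat_lit 57847) (nat_lit 252) (.e (nat_lit 57432) (nat_lit 16) (.e (nat_lit 368676) (nat_lit 21) (.e (nat_lit 516146) (nat_lit 9) (.e (nat_lit 426422) (nat_lit 16) (.e (nat_lit 57692) (nat_lit 156) (.e (nat_lit 163874) (nat_lit 3) .nil)))))))) (.g (nat_lit 8) .nil .nil))) 
(.lf (nat_lit 272957) (.g (nat_lit 2771) (.e (nat_lit 204829) (nat_lit 18) (.e (nat_lit 57847) (nat_lit 252) (.e (nat_lit 57447) (nat_lit 19) (.e (nat_lit 393229) (nat_lit 9) (.e (nat_lit 336085) (nat_lit 9) (.e (nat_lit 336326) (nat_lit 18) .nil)))))) (.g (nat_lit 4) .nil .nil))))))) (.nd (nat_lit 2) (.nd (nat_lit 3) (.nd (nat_lit 4) (.nd (nat_lit 5) 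
(.lf (nat_lit 272899) (.g (nat_lit 2500) (.e (nat_lit 204829) (nat_lit 18) (.e (nat_lit 57847) (nat_lit 252) (.e (nat_lit 57407) (nat_lit 12) (.e (nat_lit 336456) (nat_lit 34) (.e (nat_lit 483383) (nat_lit 23) (.e (nat_lit 336322) (nat_lit 18) .nil)))))) (.g (nat_lit 4) .nil .nil))) 
(.lf (nat_lit 272931) (.g (nat_lit 1208) (.e (nat_lit 204829) (nat_lit 18) (.e (nat_lit 57847) (nat_lit 252) (.e (nat_lit 57445) (nat_lit 19) (.e (nat_lit 393225) (nat_lit 9) .nil)))) .nil))) (.nd (nat_lit 5) 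
(.lf (nat_lit 272915) (.g (nat_lit 1973) (.e (nat_lit 204829) (nat_lit 18) (.e (nat_lit 57847) (nat_lit 252) (.e (nat_lit 57411) (nat_lit 12) (.e (nat_lit 336454) (nat_lit 34) (.e (nat_lit 483382) (nat_lit 23) (.e (nat_lit 336322) (nat_lit 18) .nil)))))) (.g (nat_lit 4) .nil .nil))) 
(.lf (nat_lit 272947) (.g (nat_lit 2530) (.e (nat_lit 204829) (nat_lit 18) (.e (nat_lit 57847) (nat_lit 252) (.e (nat_lit 57446) (nat_lit 19) (.e (nat_lit 393229) (nat_lit 9) (.e (nat_lit 336088) (nat_lit 9) (.e (nat_lit 336322) (nat_lit 18) .nil)))))) (.g (nat_lit 4) .nil .nil))))) (.nd (nat_lit 4) (.nd (nat_lit 5) 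
(.lf (nat_lit 272907) (.g (nat_lit 1944) (.e (nat_lit 204829) (nat_lit 18) (.e (nat_lit 57847) (nat_lit 252) (.e (nat_lit 57411) (nat_lit 12) (.e (nat_lit 336367) (nat_lit 27) (.e (nat_lit 426539) (nat_lit 29) (.e (nat_lit 360192) (nat_lit 3) .nil)))))) (.g (nat_lit 5) .nil .nil))) 
(.lf (nat_lit 272939) (.g (nat_lit 3032) (.e (nat_lit 204829) (nat_lit 18) (.e (nat_lit 57847) (nat_lit 252) (.e (nat_lit 57445) (nat_lit 19) (.e (nat_lit 393229) (nat_lit 9) (.e (nat_lit 336077) (nat_lit 9) (.e (nat_lit 336324) (nat_lit 18) .nil)))))) (.g (nat_lit 4) .nil .nil)))) (.nd (nat_lit 5) 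
(.lf (nat_lit 272923) (.g (nat_lit 2602) (.e (nat_lit 204829) (nat_lit 18) (.e (nat_lit 57847) (nat_lit 252) (.e (nat_lit 57411) (nat_lit 12) (.e (nat_lit 336456) (nat_lit 34) (.e (nat_lit 483391) (nat_lit 23) (.e (nat_lit 336321) (nat_lit 18) .nil)))))) (.g (nat_lit 5) .nil .nil))) 
(.lf (nat_lit 272955) (.g (nat_lit 2660) (.e (nat_lit 204829) (nat_lit 18) (.e (nat_lit 57847) (nat_lit 252) (.e (nat_lit 57447) (nat_lit 19) (.e (nat_lit 393229) (nat_lit 9) (.e (nat_lit 336085) (nat_lit 9) (.e (nat_lit 336322) (nat_lit 18) .nil)))))) (.g (nat_lit 4) .nil .nil)))))) (.nd (nat_lit 3) (.nd (nat_lit 4) (.nd (nat_lit 5) 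
(.lf (nat_lit 272903) (.g (nat_lit 5880) (.e (nat_lit 204829) (nat_lit 18) (.e (nat_lit 57847) (nat_lit 252) (.e (nat_lit 57411) (nat_lit 12) (.e (nat_lit 336019) (nat_lit 3) (.e (nat_lit 98356) (nat_lit 26) (.e (nat_lit 426422) (nat_lit 16) (.e (nat_lit 57692) (nat_lit 156) (.e (nat_lit 163874) (nat_lit 3) .nil)))))))) (.g (nat_lit 0) .nil .nil))) 
(.lf (nat_lit 272935) (.g (nat_lit 2243) (.e (nat_lit 204829) (nat_lit 18) (.e (nat_lit 57847) (nat_lit 252) (.e (nat_lit 57445) (nat_lit 19) (.e (nat_lit 393227) (nat_lit 9) (.e (nat_lit 336116) (nat_lit 9) (.e (nat_lit 336323) (nat_lit 18) .nil)))))) (.g (nat_lit 5) .nil .nil)))) (.nd (nat_lit 5) 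
(.lf (nat_lit 272919) (.g (nat_lit 2963) (.e (nat_lit 204829) (nat_lit 18) (.e (nat_lit 57847) (nat_lit 252) (.e (nat_lit 57411) (nat_lit 12) (.e (nat_lit 336456) (nat_lit 34) (.e (nat_lit 483346) (nat_lit 17) (.e (nat_lit 6446) (nat_lit 343) (.e (nat_lit 174) (nat_lit 12) .nil))))))) (.g (nat_lit 5) .nil .nil))) 
(.lf (nat_lit 272951) (.g (nat_lit 2224) (.e (nat_lit 204829) (nat_lit 18) (.e (nat_lit 57847) (nat_lit 252) (.e (nat_lit 57447) (nat_lit 19) (.e (nat_lit 393225) (nat_lit 9) (.e (nat_lit 336077) (nat_lit 9) .nil))))) .nil)))) (.nd (nat_lit 4) (.nd (nat_lit 5) 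
(.lf (nat_lit 272911) (.g (nat_lit 1315) (.e (nat_lit 204829) (nat_lit 18) (.e (nat_lit 57847) (nat_lit 252) (.e (nat_lit 57411) (nat_lit 12) (.e (nat_lit 336370) (nat_lit 27) .nil)))) .nil)) 
(.lf (nat_lit 272943) (.g (nat_lit 3240) (.e (nat_lit 204829) (nat_lit 18) (.e (nat_lit 57847) (nat_lit 252) (.e (nat_lit 57445) (nat_lit 19) (.e (nat_lit 393229) (nat_lit 9) (.e (nat_lit 336087) (nat_lit 9) .nil))))) .nil))) (.nd (nat_lit 5) 
(.lf (nat_lit 272927) (.g (nat_lit 374) (.e (nat_lit 204829) (nat_lit 18) (.e (nat_lit 57847) (nat_lit 252) (.e (nat_lit 57445) (nat_lit 19) .nil))) .nil)) 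
(.lf (nat_lit 272959) (.g (nat_lit 2470) (.e (nat_lit 204829) (nat_lit 18) (.e (nat_lit 57847) (nat_lit 252) (.e (nat_lit 57447) (nat_lit 19) (.e (nat_lit 393229) (nat_lit 9) (.e (nat_lit 336088) (nat_lit 9) (.e (nat_lit 336322) (nat_lit 18) .nil)))))) (.g (nat_lit 4) .nil .nil)))))))))

noncomputable def tv3499 : DT := (.nd (nat_lit 0) (.nd (nat_lit 1) (.nd (nat_lit 2) (.nd (nat_lit 3) (.nd (nat_lit 4) (.nd (nat_lit 5) 
(.lf (nat_lit 272960) (.g (nat_lit 377) (.e (nat_lit 204829) (nat_lit 18) (.e (nat_lit 57847) (nat_lit 252) (.e (nat_lit 57448) (nat_lit 19) .nil))) .nil)) 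
(.lf (nat_lit 272992) (.g (nat_lit 3684) (.e (nat_lit 204829) (nat_lit 18) (.e (nat_lit 57849) (nat_lit 252) (.e (nat_lit 57375) (nat_lit 2) (.e (nat_lit 90160) (nat_lit 11) (.e (nat_lit 24607) (nat_lit 3) .nil))))) .nil))) (.nd (nat_lit 5) 
(.lf (nat_lit 272976) (.g (nat_lit 2817) (.e (nat_lit 204829) (nat_lit 18) (.e (nat_lit 57849) (nat_lit 252) (.e (nat_lit 57372) (nat_lit 2) (.e (nat_lit 90158) (nat_lit 11) (.e (nat_lit 24608) (nat_lit 3) (.e (nat_lit 98341) (nat_lit 20) (.e (nat_lit 221213) (nat_lit 23) .nil))))))) (.g (nat_lit 5) .nil .nil))) 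
(.lf (nat_lit 273008) (.g (nat_lit 4059) (.e (nat_lit 204829) (nat_lit 18) (.e (nat_lit 57849) (nat_lit 252) (.e (nat_lit 57377) (nat_lit 3) (.e (nat_lit 98317) (nat_lit 9) (.e (nat_lit 336027) (nat_lit 3) (.e (nat_lit 98341) (nat_lit 20) (.e (nat_lit 221213) (nat_lit 23) .nil))))))) (.g (nat_lit 5) .nil .nil))))) (.nd (nat_lit 4) (.nd (nat_lit 5) 
(.lf (nat_lit 272968) (.g (nat_lit 1677) (.e (nat_lit 204829) (nat_lit 18) (.e (nat_lit 57847) (nat_lit 252) (.e (nat_lit 57448) (nat_lit 19) (.e (nat_lit 393229) (nat_lit 9) (.e (nat_lit 343808) (nat_lit 9) .nil))))) .nil)) 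
(.lf (nat_lit 273000) (.g (nat_lit 1536) (.e (nat_lit 204829) (nat_lit 18) (.e (nat_lit 57849) (nat_lit 252) (.e (nat_lit 57377) (nat_lit 3) (.e (nat_lit 98313) (nat_lit 9) .nil)))) .nil))) (.nd (nat_lit 5) 
(.lf (nat_lit 272984) (.g (nat_lit 2869) (.e (nat_lit 204829) (nat_lit 18) (.e (nat_lit 57849) (nat_lit 252) (.e (nat_lit 57372) (nat_lit 2) (.e (nat_lit 90160) (nat_lit 11) (.e (nat_lit 24608) (nat_lit 3) (.e (nat_lit 98337) (nat_lit 19) (.e (nat_lit 213022) (nat_lit 9) (.e (nat_lit 2683) (nat_lit 168) .nil)))))))) (.g (nat_lit 4) .nil .nil))) 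
(.lf (nat_lit 273016) (.g (nat_lit 2229) (.e (nat_lit 204829) (nat_lit 18) (.e (nat_lit 57849) (nat_lit 252) (.e (nat_lit 57379) (nat_lit 3) (.e (nat_lit 98317) (nat_lit 9) (.e (nat_lit 336027) (nat_lit 3) (.e (nat_lit 98321) (nat_lit 17) (.e (nat_lit 3771) (nat_lit 229) (.e (nat_lit 794673) (nat_lit 23) .nil)))))))) (.g (nat_lit 4) .nil .nil)))))) 
(.nd (nat_lit 3) (.nd (nat_lit 4) (.nd (nat_lit 5) 
(.lf (nat_lit 272964) (.g (nat_lit 923) (.e (nat_lit 204829) (nat_lit 18) (.e (nat_lit 57847) (nat_lit 252) (.e (nat_lit 57448) (nat_lit 19) (.e (nat_lit 393225) (nat_lit 9) .nil)))) .nil)) 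
(.lf (nat_lit 272996) (.g (nat_lit 3418) (.e (nat_lit 204829) (nat_lit 18) (.e (nat_lit 57849) (nat_lit 252) (.e (nat_lit 57375) (nat_lit 2) (.e (nat_lit 90160) (nat_lit 11) (.e (nat_lit 24608) (nat_lit 3) (.e (nat_lit 98342) (nat_lit 20) (.e (nat_lit 221213) (nat_lit 23) .nil))))))) (.g (nat_lit 4) .nil .nil)))) (.nd (nat_lit 5) 
(.lf (nat_lit 272980) (.g (nat_lit 3161) (.e (nat_lit 204829) (nat_lit 18) (.e (nat_lit 57849) (nat_lit 252) (.e (nat_lit 57372) (nat_lit 2) (.e (nat_lit 90160) (nat_lit 11) (.e (nat_lit 24607) (nat_lit 3) .nil))))) .nil)) 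
(.lf (nat_lit 273012) (.g (nat_lit 2641) (.e (nat_lit 204829) (nat_lit 18) (.e (nat_lit 57849) (nat_lit 252) (.e (nat_lit 57379) (nat_lit 3) (.e (nat_lit 98313) (nat_lit 9) (.e (nat_lit 336027) (nat_lit 3) (.e (nat_lit 98337) (nat_lit 19) (.e (nat_lit 213009) (nat_lit 9) (.e (nat_lit 2680) (nat_lit 168) .nil)))))))) (.g (nat_lit 4) .nil .nil))))) (.nd (nat_lit 4) (.nd (nat_lit 5) 
(.lf (nat_lit 272972) (.g (nat_lit 2091) (.e (nat_lit 204829) (nat_lit 18) (.e (nat_lit 57849) (nat_lit 252) (.e (nat_lit 57372) (nat_lit 2) (.e (nat_lit 90128) (nat_lit 9) (.e (nat_lit 297) (nat_lit 22) .nil))))) .nil)) 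
(.lf (nat_lit 273004) (.g (nat_lit 5074) (.e (nat_lit 204829) (nat_lit 18) (.e (nat_lit 57849) (nat_lit 252) (.e (nat_lit 57377) (nat_lit 3) (.e (nat_lit 98317) (nat_lit 9) (.e (nat_lit 336020) (nat_lit 3) (.e (nat_lit 98342) (nat_lit 20) (.e (nat_lit 221215) (nat_lit 23) .nil))))))) (.g (nat_lit 4) .nil .nil)))) (.nd (nat_lit 5) 
(.lf (nat_lit 272988) (.g (nat_lit 3211) (.e (nat_lit 204829) (nat_lit 18) (.e (nat_lit 57849) (nat_lit 252) (.e (nat_lit 57372) (nat_lit 2) (.e (nat_lit 90160) (nat_lit 11) (.e (nat_lit 24609) (nat_lit 3) .nil))))) .nil)) 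
(.lf (nat_lit 273020) (.g (nat_lit 2750) (.e (nat_lit 204829) (nat_lit 18) (.e (nat_lit 57849) (nat_lit 252) (.e (nat_lit 57379) (nat_lit 3) (.e (nat_lit 98341) (nat_lit 20) (.e (nat_lit 221213) (nat_lit 23) (.e (nat_lit 204852) (nat_lit 26) (.e (nat_lit 336326) (nat_lit 18) .nil))))))) (.g (nat_lit 4) .nil .nil))))))) (.nd (nat_lit 2) (.nd (nat_lit 3) (.nd (nat_lit 4) (.nd (nat_lit 5) 
(.lf (nat_lit 272962) (.g (nat_lit 3155) (.e (nat_lit 204829) (nat_lit 18) (.e (nat_lit 57847) (nat_lit 252) (.e (nat_lit 57448) (nat_lit 19) (.e (nat_lit 393221) (nat_lit 0) (.e (nat_lit 6112) (nat_lit 332) (.e (nat_lit 2406) (nat_lit 157) (.e (nat_lit 5259) (nat_lit 298) (.e (nat_lit 174) (nat_lit 12) .nil)))))))) (.g (nat_lit 7) .nil .nil))) 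
(.lf (nat_lit 272994) (.g (nat_lit 3525) (.e (nat_lit 204829) (nat_lit 18) (.e (nat_lit 57849) (nat_lit 252) (.e (nat_lit 57375) (nat_lit 2) (.e (nat_lit 90160) (nat_lit 11) (.e (nat_lit 24608) (nat_lit 3) (.e (nat_lit 98341) (nat_lit 20) (.e (nat_lit 221213) (nat_lit 23) .nil))))))) (.g (nat_lit 4) .nil .nil)))) (.nd (nat_lit 5) 
(.lf (nat_lit 272978) (.g (nat_lit 1701) (.e (nat_lit 204829) (nat_lit 18) (.e (nat_lit 57849) (nat_lit 252) (.e (nat_lit 57372) (nat_lit 2) (.e (nat_lit 90160) (nat_lit 11) .nil)))) .nil)) 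
(.lf (nat_lit 273010) (.g (nat_lit 1535) (.e (nat_lit 204829) (nat_lit 18) (.e (nat_lit 57849) (nat_lit 252) (.e (nat_lit 57379) (nat_lit 3) (.e (nat_lit 98313) (nat_lit 9) .nil)))) .nil)))) (.nd (nat_lit 4) (.nd (nat_lit 5) 
(.lf (nat_lit 272970) (.g (nat_lit 1868) (.e (nat_lit 204829) (nat_lit 18) (.e (nat_lit 57848) (nat_lit 252) (.e (nat_lit 57445) (nat_lit 19) (.e (nat_lit 393225) (nat_lit 9) (.e (nat_lit 336088) (nat_lit 9) .nil))))) .nil)) 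
(.lf (nat_lit 273002) (.g (nat_lit 3743) (.e (nat_lit 204829) (nat_lit 18) (.e (nat_lit 57849) (nat_lit 252) (.e (nat_lit 57377) (nat_lit 3) (.e (nat_lit 98313) (nat_lit 9) (.e (nat_lit 336027) (nat_lit 3) (.e (nat_lit 98338) (nat_lit 19) (.e (nat_lit 213013) (nat_lit 9) (.e (nat_lit 2681) (nat_lit 168) .nil)))))))) (.g (nat_lit 5) .nil .nil)))) (.nd (nat_lit 5) 
(.lf (nat_lit 272986) (.g (nat_lit 3853) (.e (nat_lit 204829) (nat_lit 18) (.e (nat_lit 57849) (nat_lit 252) (.e (nat_lit 57372) (nat_lit 2) (.e (nat_lit 90160) (nat_lit 11) (.e (nat_lit 24608) (nat_lit 3) (.e (nat_lit 98341) (nat_lit 20) (.e (nat_lit 221213) (nat_lit 23) .nil))))))) (.g (nat_lit 5) .nil .nil))) 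
(.lf (nat_lit 273018) (.g (nat_lit 1524) (.e (nat_lit 204829) (nat_lit 18) (.e (nat_lit 57849) (nat_lit 252) (.e (nat_lit 57379) (nat_lit 3) (.e (nat_lit 98341) (nat_lit 20) .nil)))) .nil))))) (.nd (nat_lit 3) (.nd (nat_lit 4) (.nd (nat_lit 5) 
(.lf (nat_lit 272966) (.g (nat_lit 2632) (.e (nat_lit 204829) (nat_lit 18) (.e (nat_lit 57847) (nat_lit 252) (.e (nat_lit 57448) (nat_lit 19) (.e (nat_lit 393229) (nat_lit 9) (.e (nat_lit 336086) (nat_lit 9) (.e (nat_lit 336322) (nat_lit 18) .nil)))))) (.g (nat_lit 5) .nil .nil))) 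
(.lf (nat_lit 272998) (.g (nat_lit 4508) (.e (nat_lit 204829) (nat_lit 18) (.e (nat_lit 57849) (nat_lit 252) (.e (nat_lit 57375) (nat_lit 2) (.e (nat_lit 90160) (nat_lit 11) (.e (nat_lit 24608) (nat_lit 3) (.e (nat_lit 98342) (nat_lit 20) (.e (nat_lit 221215) (nat_lit 23) .nil))))))) (.g (nat_lit 5) .nil .nil)))) (.nd (nat_lit 5) 
(.lf (nat_lit 272982) (.g (nat_lit 3465) (.e (nat_lit 204829) (nat_lit 18) (.e (nat_lit 57849) (nat_lit 252) (.e (nat_lit 57372) (nat_lit 2) (.e (nat_lit 90160) (nat_lit 11) (.e (nat_lit 24607) (nat_lit 3) (.e (nat_lit 98342) (nat_lit 20) (.e (nat_lit 221215) (nat_lit 23) .nil))))))) (.g (nat_lit 4) .nil .nil))) 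
(.lf (nat_lit 273014) (.g (nat_lit 3361) (.e (nat_lit 204829) (nat_lit 18) (.e (nat_lit 57849) (nat_lit 252) (.e (nat_lit 57379) (nat_lit 3) (.e (nat_lit 98313) (nat_lit 9) (.e (nat_lit 336027) (nat_lit 3) (.e (nat_lit 98340) (nat_lit 20) (.e (nat_lit 221213) (nat_lit 23) .nil))))))) (.g (nat_lit 5) .nil .nil))))) (.nd (nat_lit 4) (.nd (nat_lit 5) 
(.lf (nat_lit 272974) (.g (nat_lit 1959) (.e (nat_lit 204829) (nat_lit 18) (.e (nat_lit 57849) (nat_lit 252) (.e (nat_lit 57372) (nat_lit 2) (.e (nat_lit 90133) (nat_lit 9) .nil)))) .nil)) 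
(.lf (nat_lit 273006) (.g (nat_lit 3109) (.e (nat_lit 204829) (nat_lit 18) (.e (nat_lit 57849) (nat_lit 252) (.e (nat_lit 57377) (nat_lit 3) (.e (nat_lit 98317) (nat_lit 9) (.e (nat_lit 336027) (nat_lit 3) .nil))))) .nil))) (.nd (nat_lit 5) 
(.lf (nat_lit 272990) (.g (nat_lit 2329) (.e (nat_lit 204829) (nat_lit 18) (.e (nat_lit 57849) (nat_lit 252) (.e (nat_lit 57375) (nat_lit 2) (.e (nat_lit 90128) (nat_lit 9) (.e (nat_lit 297) (nat_lit 22) .nil))))) .nil)) 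
(.lf (nat_lit 273022) (.g (nat_lit 2756) (.e (nat_lit 204829) (nat_lit 18) (.e (nat_lit 57849) (nat_lit 252) (.e (nat_lit 57379) (nat_lit 3) (.e (nat_lit 98342) (nat_lit 20) (.e (nat_lit 221214) (nat_lit 23) (.e (nat_lit 204852) (nat_lit 26) (.e (nat_lit 336324) (nat_lit 18) .nil))))))) (.g (nat_lit 4) .nil .nil)))))))) 
(.nd (nat_lit 1) (.nd (nat_lit 2) (.nd (nat_lit 3) (.nd (nat_lit 4) (.nd (nat_lit 5) 
(.lf (nat_lit 272961) (.g (nat_lit 1199) (.e (nat_lit 204829) (nat_lit 18) (.e (nat_lit 57847) (nat_lit 252) (.e (nat_lit 57448) (nat_lit 19) (.e (nat_lit 393221) (nat_lit 0) .nil)))) .nil)) 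
(.lf (nat_lit 272993) (.g (nat_lit 3159) (.e (nat_lit 204829) (nat_lit 18) (.e (nat_lit 57849) (nat_lit 252) (.e (nat_lit 57375) (nat_lit 2) (.e (nat_lit 90160) (nat_lit 11) (.e (nat_lit 24608) (nat_lit 3) .nil))))) .nil))) (.nd (nat_lit 5) 
(.lf (nat_lit 272977) (.g (nat_lit 3533) (.e (nat_lit 204829) (nat_lit 18) (.e (nat_lit 57849) (nat_lit 252) (.e (nat_lit 57372) (nat_lit 2) (.e (nat_lit 90158) (nat_lit 11) (.e (nat_lit 24608) (nat_lit 3) (.e (nat_lit 98341) (nat_lit 20) (.e (nat_lit 221215) (nat_lit 23) .nil))))))) (.g (nat_lit 6) .nil .nil))) 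
(.lf (nat_lit 273009) (.g (nat_lit 1586) (.e (nat_lit 204829) (nat_lit 18) (.e (nat_lit 57849) (nat_lit 252) (.e (nat_lit 57377) (nat_lit 3) (.e (nat_lit 106240) (nat_lit 10) .nil)))) .nil)))) (.nd (nat_lit 4) (.nd (nat_lit 5) 
(.lf (nat_lit 272969) (.g (nat_lit 1204) (.e (nat_lit 204829) (nat_lit 18) (.e (nat_lit 57847) (nat_lit 252) (.e (nat_lit 57448) (nat_lit 19) (.e (nat_lit 393234) (nat_lit 17) .nil)))) .nil)) 
(.lf (nat_lit 273001) (.g (nat_lit 1968) (.e (nat_lit 204829) (nat_lit 18) (.e (nat_lit 57849) (nat_lit 252) (.e (nat_lit 57377) (nat_lit 3) (.e (nat_lit 98313) (nat_lit 9) (.e (nat_lit 336027) (nat_lit 3) .nil))))) .nil))) (.nd (nat_lit 5) 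
(.lf (nat_lit 272985) (.g (nat_lit 2863) (.e (nat_lit 204829) (nat_lit 18) (.e (nat_lit 57849) (nat_lit 252) (.e (nat_lit 57372) (nat_lit 2) (.e (nat_lit 90160) (nat_lit 11) (.e (nat_lit 24608) (nat_lit 3) (.e (nat_lit 98340) (nat_lit 20) (.e (nat_lit 221213) (nat_lit 23) .nil))))))) (.g (nat_lit 4) .nil .nil))) 
(.lf (nat_lit 273017) (.g (nat_lit 1520) (.e (nat_lit 204829) (nat_lit 18) (.e (nat_lit 57849) (nat_lit 252) (.e (nat_lit 57379) (nat_lit 3) (.e (nat_lit 106240) (nat_lit 10) .nil)))) .nil))))) (.nd (nat_lit 3) (.nd (nat_lit 4) (.nd (nat_lit 5) 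
(.lf (nat_lit 272965) (.g (nat_lit 2120) (.e (nat_lit 204829) (nat_lit 18) (.e (nat_lit 57847) (nat_lit 252) (.e (nat_lit 57448) (nat_lit 19) (.e (nat_lit 393227) (nat_lit 9) (.e (nat_lit 336118) (nat_lit 9) (.e (nat_lit 336323) (nat_lit 18) .nil)))))) (.g (nat_lit 6) .nil .nil))) 
(.lf (nat_lit 272997) (.g (nat_lit 4526) (.e (nat_lit 204829) (nat_lit 18) (.e (nat_lit 57849) (nat_lit 252) (.e (nat_lit 57375) (nat_lit 2) (.e (nat_lit 90160) (nat_lit 11) (.e (nat_lit 24608) (nat_lit 3) (.e (nat_lit 98342) (nat_lit 20) (.e (nat_lit 221214) (nat_lit 23) .nil))))))) (.g (nat_lit 5) .nil .nil)))) (.nd (nat_lit 5) 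
(.lf (nat_lit 272981) (.g (nat_lit 3360) (.e (nat_lit 204829) (nat_lit 18) (.e (nat_lit 57849) (nat_lit 252) (.e (nat_lit 57372) (nat_lit 2) (.e (nat_lit 90160) (nat_lit 11) (.e (nat_lit 24607) (nat_lit 3) (.e (nat_lit 98342) (nat_lit 20) (.e (nat_lit 221214) (nat_lit 23) .nil))))))) (.g (nat_lit 4) .nil .nil))) 
(.lf (nat_lit 273013) (.g (nat_lit 3676) (.e (nat_lit 204829) (nat_lit 18) (.e (nat_lit 57849) (nat_lit 252) (.e (nat_lit 57379) (nat_lit 3) (.e (nat_lit 98313) (nat_lit 9) (.e (nat_lit 336027) (nat_lit 3) (.e (nat_lit 98338) (nat_lit 19) (.e (nat_lit 213013) (nat_lit 9) (.e (nat_lit 2681) (nat_lit 168) .nil)))))))) (.g (nat_lit 5) .nil .nil))))) (.nd (nat_lit 4) (.nd (nat_lit 5) 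
(.lf (nat_lit 272973) (.g (nat_lit 2356) (.e (nat_lit 204829) (nat_lit 18) (.e (nat_lit 57849) (nat_lit 252) (.e (nat_lit 57372) (nat_lit 2) (.e (nat_lit 90128) (nat_lit 9) (.e (nat_lit 307) (nat_lit 22) .nil))))) .nil)) 
(.lf (nat_lit 273005) (.g (nat_lit 4479) (.e (nat_lit 204829) (nat_lit 18) (.e (nat_lit 57849) (nat_lit 252) (.e (nat_lit 57377) (nat_lit 3) (.e (nat_lit 98317) (nat_lit 9) (.e (nat_lit 336026) (nat_lit 3) .nil))))) .nil))) (.nd (nat_lit 5) 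
(.lf (nat_lit 272989) (.g (nat_lit 604) (.e (nat_lit 204829) (nat_lit 18) (.e (nat_lit 57849) (nat_lit 252) (.e (nat_lit 57375) (nat_lit 2) .nil))) .nil)) 
(.lf (nat_lit 273021) (.g (nat_lit 2701) (.e (nat_lit 204829) (nat_lit 18) (.e (nat_lit 57849) (nat_lit 252) (.e (nat_lit 57379) (nat_lit 3) (.e (nat_lit 98342) (nat_lit 20) (.e (nat_lit 221213) (nat_lit 23) .nil))))) .nil)))))) (.nd (nat_lit 2) (.nd (nat_lit 3) (.nd (nat_lit 4) (.nd (nat_lit 5) 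
(.lf (nat_lit 272963) (.g (nat_lit 3136) (.e (nat_lit 204829) (nat_lit 18) (.e (nat_lit 57847) (nat_lit 252) (.e (nat_lit 57448) (nat_lit 19) (.e (nat_lit 393221) (nat_lit 0) (.e (nat_lit 6112) (nat_lit 332) (.e (nat_lit 2507) (nat_lit 157) (.e (nat_lit 5259) (nat_lit 298) (.e (nat_lit 174) (nat_lit 12) .nil)))))))) (.g (nat_lit 7) .nil .nil))) 
(.lf (nat_lit 272995) (.g (nat_lit 4245) (.e (nat_lit 204829) (nat_lit 18) (.e (nat_lit 57849) (nat_lit 252) (.e (nat_lit 57375) (nat_lit 2) (.e (nat_lit 90160) (nat_lit 11) (.e (nat_lit 24608) (nat_lit 3) (.e (nat_lit 98341) (nat_lit 20) (.e (nat_lit 221215) (nat_lit 23) .nil))))))) (.g (nat_lit 5) .nil .nil)))) (.nd (nat_lit 5) 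
(.lf (nat_lit 272979) (.g (nat_lit 2930) (.e (nat_lit 204829) (nat_lit 18) (.e (nat_lit 57849) (nat_lit 252) (.e (nat_lit 57372) (nat_lit 2) (.e (nat_lit 90160) (nat_lit 11) (.e (nat_lit 24606) (nat_lit 3) .nil))))) .nil)) 
(.lf (nat_lit 273011) (.g (nat_lit 2000) (.e (nat_lit 204829) (nat_lit 18) (.e (nat_lit 57849) (nat_lit 252) (.e (nat_lit 57379) (nat_lit 3) (.e (nat_lit 98313) (nat_lit 9) (.e (nat_lit 336027) (nat_lit 3) .nil))))) .nil)))) (.nd (nat_lit 4) (.nd (nat_lit 5) 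
(.lf (nat_lit 272971) (.g (nat_lit 1612) (.e (nat_lit 204829) (nat_lit 18) (.e (nat_lit 57849) (nat_lit 252) (.e (nat_lit 57372) (nat_lit 2) (.e (nat_lit 90128) (nat_lit 9) .nil)))) .nil)) 
(.lf (nat_lit 273003) (.g (nat_lit 2531) (.e (nat_lit 204829) (nat_lit 18) (.e (nat_lit 57849) (nat_lit 252) (.e (nat_lit 57377) (nat_lit 3) (.e (nat_lit 98313) (nat_lit 9) (.e (nat_lit 336027) (nat_lit 3) (.e (nat_lit 98338) (nat_lit 19) (.e (nat_lit 213022) (nat_lit 9) (.e (nat_lit 2683) (nat_lit 168) .nil)))))))) (.g (nat_lit 4) .nil .nil)))) (.nd (nat_lit 5) 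
(.lf (nat_lit 272987) (.g (nat_lit 3745) (.e (nat_lit 204829) (nat_lit 18) (.e (nat_lit 57849) (nat_lit 252) (.e (nat_lit 57372) (nat_lit 2) (.e (nat_lit 90160) (nat_lit 11) (.e (nat_lit 24608) (nat_lit 3) (.e (nat_lit 98342) (nat_lit 20) (.e (nat_lit 221213) (nat_lit 23) .nil))))))) (.g (nat_lit 5) .nil .nil))) 
(.lf (nat_lit 273019) (.g (nat_lit 2529) (.e (nat_lit 204829) (nat_lit 18) (.e (nat_lit 57849) (nat_lit 252) (.e (nat_lit 57379) (nat_lit 3) (.e (nat_lit 98341) (nat_lit 20) (.e (nat_lit 221212) (nat_lit 22) (.e (nat_lit 196664) (nat_lit 13) (.e (nat_lit 73472) (nat_lit 18) .nil))))))) (.g (nat_lit 4) .nil .nil)))))) (.nd (nat_lit 3) (.nd (nat_lit 4) (.nd (nat_lit 5) 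
(.lf (nat_lit 272967) (.g (nat_lit 1925) (.e (nat_lit 204829) (nat_lit 18) (.e (nat_lit 57847) (nat_lit 252) (.e (nat_lit 57448) (nat_lit 19) (.e (nat_lit 393229) (nat_lit 9) (.e (nat_lit 336086) (nat_lit 9) (.e (nat_lit 343808) (nat_lit 18) .nil)))))) (.g (nat_lit 4) .nil .nil))) 
(.lf (nat_lit 272999) (.g (nat_lit 539) (.e (nat_lit 204829) (nat_lit 18) (.e (nat_lit 57849) (nat_lit 252) (.e (nat_lit 57377) (nat_lit 3) .nil))) .nil))) (.nd (nat_lit 5) 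
(.lf (nat_lit 272983) (.g (nat_lit 2677) (.e (nat_lit 204829) (nat_lit 18) (.e (nat_lit 57849) (nat_lit 252) (.e (nat_lit 57372) (nat_lit 2) (.e (nat_lit 90160) (nat_lit 11) (.e (nat_lit 24608) (nat_lit 3) .nil))))) .nil)) 
(.lf (nat_lit 273015) (.g (nat_lit 3388) (.e (nat_lit 204829) (nat_lit 18) (.e (nat_lit 57849) (nat_lit 252) (.e (nat_lit 57379) (nat_lit 3) (.e (nat_lit 98313) (nat_lit 9) (.e (nat_lit 336027) (nat_lit 3) (.e (nat_lit 98341) (nat_lit 20) (.e (nat_lit 221213) (nat_lit 23) .nil))))))) (.g (nat_lit 5) .nil .nil))))) (.nd (nat_lit 4) (.nd (nat_lit 5) 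
(.lf (nat_lit 272975) (.g (nat_lit 3099) (.e (nat_lit 204829) (nat_lit 18) (.e (nat_lit 57849) (nat_lit 252) (.e (nat_lit 57372) (nat_lit 2) (.e (nat_lit 90158) (nat_lit 11) (.e (nat_lit 24608) (nat_lit 3) (.e (nat_lit 98338) (nat_lit 19) (.e (nat_lit 213013) (nat_lit 9) (.e (nat_lit 2684) (nat_lit 168) .nil)))))))) (.g (nat_lit 5) .nil .nil))) 
(.lf (nat_lit 273007) (.g (nat_lit 3228) (.e (nat_lit 204829) (nat_lit 18) (.e (nat_lit 57849) (nat_lit 252) (.e (nat_lit 57377) (nat_lit 3) (.e (nat_lit 98317) (nat_lit 9) (.e (nat_lit 336027) (nat_lit 3) (.e (nat_lit 98340) (nat_lit 20) (.e (nat_lit 221213) (nat_lit 23) .nil))))))) (.g (nat_lit 4) .nil .nil)))) (.nd (nat_lit 5) 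
(.lf (nat_lit 272991) (.g (nat_lit 2873) (.e (nat_lit 204829) (nat_lit 18) (.e (nat_lit 57849) (nat_lit 252) (.e (nat_lit 57375) (nat_lit 2) (.e (nat_lit 90158) (nat_lit 11) (.e (nat_lit 24608) (nat_lit 3) (.e (nat_lit 98341) (nat_lit 20) (.e (nat_lit 221213) (nat_lit 23) .nil))))))) (.g (nat_lit 5) .nil .nil))) 
(.lf (nat_lit 273023) (.g (nat_lit 2149) (.e (nat_lit 204829) (nat_lit 18) (.e (nat_lit 57849) (nat_lit 252) (.e (nat_lit 57379) (nat_lit 3) (.e (nat_lit 98342) (nat_lit 20) (.e (nat_lit 221215) (nat_lit 23) .nil))))) .nil))))))))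

noncomputable def tv3500 : DT := (.nd (nat_lit 0) (.nd (nat_lit 1) (.nd (nat_lit 2) (.nd (nat_lit 3) (.nd (nat_lit 4) (.nd (nat_lit 5) (.nd (nat_lit 6) 
(.lf (nat_lit 273024) (.g (nat_lit 2037) (.e (nat_lit 204829) (nat_lit 18) (.e (nat_lit 57849) (nat_lit 252) (.e (nat_lit 57407) (nat_lit 12) (.e (nat_lit 336366) (nat_lit 27) .nil)))) .nil)) 
(.lf (nat_lit 273088) (.g (nat_lit 3486) (.e (nat_lit 204829) (nat_lit 18) (.e (nat_lit 57853) (nat_lit 252) (.e (nat_lit 57445) (nat_lit 19) (.e (nat_lit 393229) (nat_lit 9) (.e (nat_lit 336075) (nat_lit 9) .nil))))) .nil))) (.nd (nat_lit 6) 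
(.lf (nat_lit 273056) (.g (nat_lit 3109) (.e (nat_lit 204829) (nat_lit 18) (.e (nat_lit 57849) (nat_lit 252) (.e (nat_lit 57445) (nat_lit 19) (.e (nat_lit 393229) (nat_lit 9) (.e (nat_lit 336085) (nat_lit 9) (.e (nat_lit 336322) (nat_lit 18) .nil)))))) (.g (nat_lit 6) .nil .nil))) 
(.lf (nat_lit 273120) (.g (nat_lit 3347) (.e (nat_lit 204829) (nat_lit 18) (.e (nat_lit 57854) (nat_lit 252) (.e (nat_lit 57445) (nat_lit 19) (.e (nat_lit 393225) (nat_lit 9) (.e (nat_lit 336076) (nat_lit 9) (.e (nat_lit 336324) (nat_lit 18) .nil)))))) (.g (nat_lit 0) .nil .nil))))) (.nd (nat_lit 5) (.nd (nat_lit 6) 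
(.lf (nat_lit 273040) (.g (nat_lit 2630) (.e (nat_lit 204829) (nat_lit 18) (.e (nat_lit 57849) (nat_lit 252) (.e (nat_lit 57407) (nat_lit 12) (.e (nat_lit 336456) (nat_lit 34) (.e (nat_lit 483379) (nat_lit 23) (.e (nat_lit 336322) (nat_lit 18) .nil)))))) (.g (nat_lit 4) .nil .nil))) 
(.lf (nat_lit 273104) (.g (nat_lit 3675) (.e (nat_lit 204829) (nat_lit 18) (.e (nat_lit 57854) (nat_lit 252) (.e (nat_lit 57406) (nat_lit 12) (.e (nat_lit 336454) (nat_lit 34) (.e (nat_lit 483383) (nat_lit 23) (.e (nat_lit 336324) (nat_lit 18) .nil)))))) (.g (nat_lit 0) .nil .nil)))) (.nd (nat_lit 6) 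
(.lf (nat_lit 273072) (.g (nat_lit 1121) (.e (nat_lit 204829) (nat_lit 18) (.e (nat_lit 57849) (nat_lit 252) (.e (nat_lit 57448) (nat_lit 19) (.e (nat_lit 401152) (nat_lit 11) .nil)))) .nil)) 
(.lf (nat_lit 273136) (.g (nat_lit 3091) (.e (nat_lit 204829) (nat_lit 18) (.e (nat_lit 57926) (nat_lit 282) (.e (nat_lit 163874) (nat_lit 3) (.e (nat_lit 204862) (nat_lit 27) (.e (nat_lit 344117) (nat_lit 21) (.e (nat_lit 516130) (nat_lit 3) (.e (nat_lit 221213) (nat_lit 23) .nil))))))) (.g (nat_lit 4) .nil .nil)))))) (.nd (nat_lit 4) (.nd (nat_lit 5) (.nd (nat_lit 6) 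
(.lf (nat_lit 273032) (.g (nat_lit 2090) (.e (nat_lit 204829) (nat_lit 18) (.e (nat_lit 57849) (nat_lit 252) (.e (nat_lit 57407) (nat_lit 12) (.e (nat_lit 336369) (nat_lit 27) .nil)))) .nil)) 
(.lf (nat_lit 273096) (.g (nat_lit 1379) (.e (nat_lit 204829) (nat_lit 18) (.e (nat_lit 57854) (nat_lit 252) (.e (nat_lit 57406) (nat_lit 12) (.e (nat_lit 336366) (nat_lit 27) .nil)))) .nil))) (.nd (nat_lit 6) 
(.lf (nat_lit 273064) (.g (nat_lit 2214) (.e (nat_lit 204829) (nat_lit 18) (.e (nat_lit 57849) (nat_lit 252) (.e (nat_lit 57447) (nat_lit 19) (.e (nat_lit 393229) (nat_lit 9) .nil)))) .nil)) 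
(.lf (nat_lit 273128) (.g (nat_lit 2187) (.e (nat_lit 204829) (nat_lit 18) (.e (nat_lit 57854) (nat_lit 252) (.e (nat_lit 57447) (nat_lit 19) (.e (nat_lit 393229) (nat_lit 9) (.e (nat_lit 336075) (nat_lit 9) .nil))))) .nil)))) (.nd (nat_lit 5) (.nd (nat_lit 6) 
(.lf (nat_lit 273048) (.g (nat_lit 2826) (.e (nat_lit 204829) (nat_lit 18) (.e (nat_lit 57849) (nat_lit 252) (.e (nat_lit 57411) (nat_lit 12) (.e (nat_lit 336454) (nat_lit 34) (.e (nat_lit 483385) (nat_lit 23) (.e (nat_lit 336322) (nat_lit 18) .nil)))))) (.g (nat_lit 5) .nil .nil))) 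
(.lf (nat_lit 273112) (.g (nat_lit 1888) (.e (nat_lit 204829) (nat_lit 18) (.e (nat_lit 57854) (nat_lit 252) (.e (nat_lit 57409) (nat_lit 12) (.e (nat_lit 336367) (nat_lit 27) (.e (nat_lit 426538) (nat_lit 29) (.e (nat_lit 360192) (nat_lit 3) .nil)))))) (.g (nat_lit 5) .nil .nil)))) (.nd (nat_lit 6) 
(.lf (nat_lit 273080) (.g (nat_lit 2069) (.e (nat_lit 204829) (nat_lit 18) (.e (nat_lit 57852) (nat_lit 252) (.e (nat_lit 57445) (nat_lit 19) (.e (nat_lit 393229) (nat_lit 9) (.e (nat_lit 336086) (nat_lit 9) .nil))))) .nil)) 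
(.lf (nat_lit 273144) (.g (nat_lit 3990) (.e (nat_lit 204829) (nat_lit 18) (.e (nat_lit 57927) (nat_lit 282) (.e (nat_lit 163874) (nat_lit 3) (.e (nat_lit 204863) (nat_lit 27) (.e (nat_lit 344117) (nat_lit 21) (.e (nat_lit 516130) (nat_lit 3) (.e (nat_lit 221213) (nat_lit 23) .nil))))))) (.g (nat_lit 6) .nil .nil))))))) (.nd (nat_lit 3) (.nd (nat_lit 4) (.nd (nat_lit 5) (.nd (nat_lit 6) 
(.lf (nat_lit 273028) (.g (nat_lit 2370) (.e (nat_lit 204829) (nat_lit 18) (.e (nat_lit 57849) (nat_lit 252) (.e (nat_lit 57407) (nat_lit 12) (.e (nat_lit 336367) (nat_lit 27) (.e (nat_lit 426539) (nat_lit 29) .nil))))) .nil)) 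
(.lf (nat_lit 273092) (.g (nat_lit 3522) (.e (nat_lit 204829) (nat_lit 18) (.e (nat_lit 57853) (nat_lit 252) (.e (nat_lit 57445) (nat_lit 19) (.e (nat_lit 393229) (nat_lit 9) (.e (nat_lit 336087) (nat_lit 9) .nil))))) .nil))) (.nd (nat_lit 6) 
(.lf (nat_lit 273060) (.g (nat_lit 2736) (.e (nat_lit 204829) (nat_lit 18) (.e (nat_lit 57849) (nat_lit 252) (.e (nat_lit 57445) (nat_lit 19) (.e (nat_lit 393229) (nat_lit 9) (.e (nat_lit 343808) (nat_lit 9) (.e (nat_lit 336326) (nat_lit 18) .nil)))))) (.g (nat_lit 4) .nil .nil))) 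
(.lf (nat_lit 273124) (.g (nat_lit 2518) (.e (nat_lit 204829) (nat_lit 18) (.e (nat_lit 57854) (nat_lit 252) (.e (nat_lit 57445) (nat_lit 19) (.e (nat_lit 393229) (nat_lit 9) (.e (nat_lit 343808) (nat_lit 9) .nil))))) .nil)))) (.nd (nat_lit 5) (.nd (nat_lit 6) 
(.lf (nat_lit 273044) (.g (nat_lit 1029) (.e (nat_lit 204829) (nat_lit 18) (.e (nat_lit 57849) (nat_lit 252) (.e (nat_lit 57409) (nat_lit 12) .nil))) .nil)) 
(.lf (nat_lit 273108) (.g (nat_lit 2353) (.e (nat_lit 204829) (nat_lit 18) (.e (nat_lit 57854) (nat_lit 252) (.e (nat_lit 57406) (nat_lit 12) (.e (nat_lit 336456) (nat_lit 34) (.e (nat_lit 483381) (nat_lit 23) (.e (nat_lit 336324) (nat_lit 18) .nil)))))) (.g (nat_lit 4) .nil .nil)))) (.nd (nat_lit 6) 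
(.lf (nat_lit 273076) (.g (nat_lit 700) (.e (nat_lit 204829) (nat_lit 18) (.e (nat_lit 57852) (nat_lit 252) (.e (nat_lit 57406) (nat_lit 12) .nil))) .nil)) 
(.lf (nat_lit 273140) (.g (nat_lit 1507) (.e (nat_lit 204829) (nat_lit 18) (.e (nat_lit 57927) (nat_lit 282) (.e (nat_lit 163868) (nat_lit 2) (.e (nat_lit 196624) (nat_lit 9) (.e (nat_lit 1526) (nat_lit 109) .nil))))) .nil))))) (.nd (nat_lit 4) (.nd (nat_lit 5) (.nd (nat_lit 6) 
(.lf (nat_lit 273036) (.g (nat_lit 2287) (.e (nat_lit 204829) (nat_lit 18) (.e (nat_lit 57849) (nat_lit 252) (.e (nat_lit 57407) (nat_lit 12) (.e (nat_lit 336454) (nat_lit 34) (.e (nat_lit 483382) (nat_lit 23) (.e (nat_lit 336322) (nat_lit 18) .nil)))))) (.g (nat_lit 4) .nil .nil))) 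
(.lf (nat_lit 273100) (.g (nat_lit 2210) (.e (nat_lit 204829) (nat_lit 18) (.e (nat_lit 57854) (nat_lit 252) (.e (nat_lit 57406) (nat_lit 12) (.e (nat_lit 336367) (nat_lit 27) (.e (nat_lit 426540) (nat_lit 29) (.e (nat_lit 360192) (nat_lit 3) .nil)))))) (.g (nat_lit 5) .nil .nil)))) (.nd (nat_lit 6) 
(.lf (nat_lit 273068) (.g (nat_lit 1747) (.e (nat_lit 204829) (nat_lit 18) (.e (nat_lit 57849) (nat_lit 252) (.e (nat_lit 57448) (nat_lit 19) (.e (nat_lit 393227) (nat_lit 9) (.e (nat_lit 336152) (nat_lit 9) (.e (nat_lit 343808) (nat_lit 18) .nil)))))) (.g (nat_lit 5) .nil .nil))) 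
(.lf (nat_lit 273132) (.g (nat_lit 1432) (.e (nat_lit 204829) (nat_lit 18) (.e (nat_lit 57926) (nat_lit 282) (.e (nat_lit 163868) (nat_lit 2) (.e (nat_lit 196668) (nat_lit 14) .nil)))) .nil)))) (.nd (nat_lit 5) (.nd (nat_lit 6) 
(.lf (nat_lit 273052) (.g (nat_lit 1751) (.e (nat_lit 204829) (nat_lit 18) (.e (nat_lit 57849) (nat_lit 252) (.e (nat_lit 57445) (nat_lit 19) (.e (nat_lit 393227) (nat_lit 9) (.e (nat_lit 336152) (nat_lit 9) (.e (nat_lit 343808) (nat_lit 18) .nil)))))) (.g (nat_lit 5) .nil .nil))) 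
(.lf (nat_lit 273116) (.g (nat_lit 1775) (.e (nat_lit 204829) (nat_lit 18) (.e (nat_lit 57854) (nat_lit 252) (.e (nat_lit 57409) (nat_lit 12) (.e (nat_lit 336375) (nat_lit 27) .nil)))) .nil))) (.nd (nat_lit 6) 
(.lf (nat_lit 273084) (.g (nat_lit 2869) (.e (nat_lit 204829) (nat_lit 18) (.e (nat_lit 57853) (nat_lit 252) (.e (nat_lit 57406) (nat_lit 12) (.e (nat_lit 336454) (nat_lit 34) (.e (nat_lit 483384) (nat_lit 23) .nil))))) .nil)) 
(.lf (nat_lit 273148) (.g (nat_lit 3617) (.e (nat_lit 204829) (nat_lit 18) (.e (nat_lit 57927) (nat_lit 282) (.e (nat_lit 164084) (nat_lit 73) (.e (nat_lit 336012) (nat_lit 2) (.e (nat_lit 90174) (nat_lit 14) (.e (nat_lit 180228) (nat_lit 0) (.e (nat_lit 5224) (nat_lit 296) (.e (nat_lit 163873) (nat_lit 3) .nil)))))))) (.g (nat_lit 5) .nil .nil)))))))) 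
(.nd (nat_lit 2) (.nd (nat_lit 3) (.nd (nat_lit 4) (.nd (nat_lit 5) (.nd (nat_lit 6) 
(.lf (nat_lit 273026) (.g (nat_lit 1761) (.e (nat_lit 204829) (nat_lit 18) (.e (nat_lit 57849) (nat_lit 252) (.e (nat_lit 57407) (nat_lit 12) (.e (nat_lit 336367) (nat_lit 27) .nil)))) .nil)) 
(.lf (nat_lit 273090) (.g (nat_lit 2895) (.e (nat_lit 204829) (nat_lit 18) (.e (nat_lit 57853) (nat_lit 252) (.e (nat_lit 57445) (nat_lit 19) (.e (nat_lit 393229) (nat_lit 9) (.e (nat_lit 336085) (nat_lit 9) .nil))))) .nil))) (.nd (nat_lit 6) 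
(.lf (nat_lit 273058) (.g (nat_lit 2607) (.e (nat_lit 204829) (nat_lit 18) (.e (nat_lit 57849) (nat_lit 252) (.e (nat_lit 57445) (nat_lit 19) (.e (nat_lit 393229) (nat_lit 9) (.e (nat_lit 336086) (nat_lit 9) (.e (nat_lit 343808) (nat_lit 18) .nil)))))) (.g (nat_lit 5) .nil .nil))) 
(.lf (nat_lit 273122) (.g (nat_lit 2820) (.e (nat_lit 204829) (nat_lit 18) (.e (nat_lit 57854) (nat_lit 252) (.e (nat_lit 57445) (nat_lit 19) (.e (nat_lit 393229) (nat_lit 9) (.e (nat_lit 336085) (nat_lit 9) (.e (nat_lit 336322) (nat_lit 18) .nil)))))) (.g (nat_lit 4) .nil .nil))))) (.nd (nat_lit 5) (.nd (nat_lit 6) 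
(.lf (nat_lit 273042) (.g (nat_lit 2922) (.e (nat_lit 204829) (nat_lit 18) (.e (nat_lit 57849) (nat_lit 252) (.e (nat_lit 57407) (nat_lit 12) (.e (nat_lit 336456) (nat_lit 34) (.e (nat_lit 483380) (nat_lit 23) (.e (nat_lit 336326) (nat_lit 18) .nil)))))) (.g (nat_lit 4) .nil .nil))) 
(.lf (nat_lit 273106) (.g (nat_lit 1426) (.e (nat_lit 204829) (nat_lit 18) (.e (nat_lit 57854) (nat_lit 252) (.e (nat_lit 57406) (nat_lit 12) (.e (nat_lit 336455) (nat_lit 34) (.e (nat_lit 483382) (nat_lit 23) .nil))))) .nil))) (.nd (nat_lit 6) 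
(.lf (nat_lit 273074) (.g (nat_lit 1304) (.e (nat_lit 204829) (nat_lit 18) (.e (nat_lit 57851) (nat_lit 252) (.e (nat_lit 57354) (nat_lit 0) (.e (nat_lit 1799) (nat_lit 119) .nil)))) .nil)) 
(.lf (nat_lit 273138) (.g (nat_lit 1391) (.e (nat_lit 204829) (nat_lit 18) (.e (nat_lit 57927) (nat_lit 282) (.e (nat_lit 163843) (nat_lit 0) (.e (nat_lit 3114) (nat_lit 193) .nil)))) .nil))))) (.nd (nat_lit 4) (.nd (nat_lit 5) (.nd (nat_lit 6) 
(.lf (nat_lit 273034) (.g (nat_lit 2090) (.e (nat_lit 204829) (nat_lit 18) (.e (nat_lit 57849) (nat_lit 252) (.e (nat_lit 57407) (nat_lit 12) (.e (nat_lit 336377) (nat_lit 27) .nil)))) .nil)) 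
(.lf (nat_lit 273098) (.g (nat_lit 2173) (.e (nat_lit 204829) (nat_lit 18) (.e (nat_lit 57854) (nat_lit 252) (.e (nat_lit 57406) (nat_lit 12) (.e (nat_lit 336367) (nat_lit 27) (.e (nat_lit 426538) (nat_lit 29) (.e (nat_lit 360192) (nat_lit 3) .nil)))))) (.g (nat_lit 5) .nil .nil)))) (.nd (nat_lit 6) 
(.lf (nat_lit 273066) (.g (nat_lit 1713) (.e (nat_lit 204829) (nat_lit 18) (.e (nat_lit 57849) (nat_lit 252) (.e (nat_lit 57448) (nat_lit 19) (.e (nat_lit 393227) (nat_lit 9) (.e (nat_lit 336119) (nat_lit 9) (.e (nat_lit 336323) (nat_lit 18) .nil)))))) (.g (nat_lit 4) .nil .nil))) 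
(.lf (nat_lit 273130) (.g (nat_lit 2107) (.e (nat_lit 204829) (nat_lit 18) (.e (nat_lit 57854) (nat_lit 252) (.e (nat_lit 57447) (nat_lit 19) (.e (nat_lit 393229) (nat_lit 9) (.e (nat_lit 336086) (nat_lit 9) (.e (nat_lit 343808) (nat_lit 18) .nil)))))) (.g (nat_lit 4) .nil .nil))))) (.nd (nat_lit 5) (.nd (nat_lit 6) 
(.lf (nat_lit 273050) (.g (nat_lit 1668) (.e (nat_lit 204829) (nat_lit 18) (.e (nat_lit 57849) (nat_lit 252) (.e (nat_lit 57445) (nat_lit 19) (.e (nat_lit 393227) (nat_lit 9) (.e (nat_lit 336151) (nat_lit 9) (.e (nat_lit 343808) (nat_lit 18) .nil)))))) (.g (nat_lit 5) .nil .nil))) 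
(.lf (nat_lit 273114) (.g (nat_lit 1978) (.e (nat_lit 204829) (nat_lit 18) (.e (nat_lit 57854) (nat_lit 252) (.e (nat_lit 57409) (nat_lit 12) (.e (nat_lit 336367) (nat_lit 27) (.e (nat_lit 426540) (nat_lit 29) (.e (nat_lit 360192) (nat_lit 3) .nil)))))) (.g (nat_lit 5) .nil .nil)))) (.nd (nat_lit 6) 
(.lf (nat_lit 273082) (.g (nat_lit 1326) (.e (nat_lit 204829) (nat_lit 18) (.e (nat_lit 57852) (nat_lit 252) (.e (nat_lit 57445) (nat_lit 19) (.e (nat_lit 401152) (nat_lit 14) .nil)))) .nil)) 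
(.lf (nat_lit 273146) (.g (nat_lit 1211) (.e (nat_lit 204829) (nat_lit 18) (.e (nat_lit 57927) (nat_lit 282) (.e (nat_lit 163874) (nat_lit 3) (.e (nat_lit 204872) (nat_lit 30) .nil)))) .nil)))))) (.nd (nat_lit 3) (.nd (nat_lit 4) (.nd (nat_lit 5) (.nd (nat_lit 6) 
(.lf (nat_lit 273030) (.g (nat_lit 2373) (.e (nat_lit 204829) (nat_lit 18) (.e (nat_lit 57849) (nat_lit 252) (.e (nat_lit 57407) (nat_lit 12) (.e (nat_lit 336367) (nat_lit 27) (.e (nat_lit 426555) (nat_lit 32) (.e (nat_lit 384768) (nat_lit 3) .nil)))))) (.g (nat_lit 4) .nil .nil))) 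
(.lf (nat_lit 273094) (.g (nat_lit 2526) (.e (nat_lit 204829) (nat_lit 18) (.e (nat_lit 57854) (nat_lit 252) (.e (nat_lit 57373) (nat_lit 2) (.e (nat_lit 90158) (nat_lit 11) .nil)))) .nil))) (.nd (nat_lit 6) 
(.lf (nat_lit 273062) (.g (nat_lit 1029) (.e (nat_lit 204829) (nat_lit 18) (.e (nat_lit 57849) (nat_lit 252) (.e (nat_lit 57446) (nat_lit 19) .nil))) .nil)) 
(.lf (nat_lit 273126) (.g (nat_lit 3369) (.e (nat_lit 204829) (nat_lit 18) (.e (nat_lit 57854) (nat_lit 252) (.e (nat_lit 57447) (nat_lit 19) (.e (nat_lit 393225) (nat_lit 9) (.e (nat_lit 336076) (nat_lit 9) (.e (nat_lit 336324) (nat_lit 18) .nil)))))) (.g (nat_lit 0) .nil .nil))))) (.nd (nat_lit 5) (.nd (nat_lit 6) 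
(.lf (nat_lit 273046) (.g (nat_lit 1817) (.e (nat_lit 204829) (nat_lit 18) (.e (nat_lit 57849) (nat_lit 252) (.e (nat_lit 57411) (nat_lit 12) (.e (nat_lit 336454) (nat_lit 34) (.e (nat_lit 483382) (nat_lit 23) (.e (nat_lit 336322) (nat_lit 18) .nil)))))) (.g (nat_lit 4) .nil .nil))) 
(.lf (nat_lit 273110) (.g (nat_lit 1423) (.e (nat_lit 204829) (nat_lit 18) (.e (nat_lit 57854) (nat_lit 252) (.e (nat_lit 57409) (nat_lit 12) (.e (nat_lit 336366) (nat_lit 27) .nil)))) .nil))) (.nd (nat_lit 6) 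
(.lf (nat_lit 273078) (.g (nat_lit 2011) (.e (nat_lit 204829) (nat_lit 18) (.e (nat_lit 57852) (nat_lit 252) (.e (nat_lit 57445) (nat_lit 19) (.e (nat_lit 393225) (nat_lit 9) .nil)))) .nil)) 
(.lf (nat_lit 273142) (.g (nat_lit 1352) (.e (nat_lit 204829) (nat_lit 18) (.e (nat_lit 57927) (nat_lit 282) (.e (nat_lit 163871) (nat_lit 2) (.e (nat_lit 196670) (nat_lit 14) (.e (nat_lit 73746) (nat_lit 3) .nil))))) .nil))))) (.nd (nat_lit 4) (.nd (nat_lit 5) (.nd (nat_lit 6) 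
(.lf (nat_lit 273038) (.g (nat_lit 3332) (.e (nat_lit 204829) (nat_lit 18) (.e (nat_lit 57849) (nat_lit 252) (.e (nat_lit 57407) (nat_lit 12) (.e (nat_lit 336454) (nat_lit 34) (.e (nat_lit 483385) (nat_lit 23) (.e (nat_lit 336322) (nat_lit 18) .nil)))))) (.g (nat_lit 5) .nil .nil))) 
(.lf (nat_lit 273102) (.g (nat_lit 2348) (.e (nat_lit 204829) (nat_lit 18) (.e (nat_lit 57854) (nat_lit 252) (.e (nat_lit 57406) (nat_lit 12) (.e (nat_lit 336367) (nat_lit 27) (.e (nat_lit 426555) (nat_lit 32) (.e (nat_lit 384768) (nat_lit 3) .nil)))))) (.g (nat_lit 5) .nil .nil)))) (.nd (nat_lit 6) 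
(.lf (nat_lit 273070) (.g (nat_lit 2438) (.e (nat_lit 204829) (nat_lit 18) (.e (nat_lit 57849) (nat_lit 252) (.e (nat_lit 57448) (nat_lit 19) (.e (nat_lit 393229) (nat_lit 9) (.e (nat_lit 336086) (nat_lit 9) (.e (nat_lit 336322) (nat_lit 18) .nil)))))) (.g (nat_lit 5) .nil .nil))) 
(.lf (nat_lit 273134) (.g (nat_lit 2087) (.e (nat_lit 204829) (nat_lit 18) (.e (nat_lit 57926) (nat_lit 282) (.e (nat_lit 163870) (nat_lit 2) (.e (nat_lit 196670) (nat_lit 14) (.e (nat_lit 73746) (nat_lit 3) .nil))))) .nil)))) (.nd (nat_lit 5) (.nd (nat_lit 6) 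
(.lf (nat_lit 273054) (.g (nat_lit 2518) (.e (nat_lit 204829) (nat_lit 18) (.e (nat_lit 57849) (nat_lit 252) (.e (nat_lit 57445) (nat_lit 19) (.e (nat_lit 393229) (nat_lit 9) (.e (nat_lit 336075) (nat_lit 9) .nil))))) .nil)) 
(.lf (nat_lit 273118) (.g (nat_lit 1816) (.e (nat_lit 204829) (nat_lit 18) (.e (nat_lit 57854) (nat_lit 252) (.e (nat_lit 57409) (nat_lit 12) (.e (nat_lit 336399) (nat_lit 27) .nil)))) .nil))) (.nd (nat_lit 6) 
(.lf (nat_lit 273086) (.g (nat_lit 3353) (.e (nat_lit 204829) (nat_lit 18) (.e (nat_lit 57853) (nat_lit 252) (.e (nat_lit 57445) (nat_lit 19) (.e (nat_lit 393225) (nat_lit 9) (.e (nat_lit 336076) (nat_lit 9) (.e (nat_lit 336324) (nat_lit 18) .nil)))))) (.g (nat_lit 5) .nil .nil))) 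
(.lf (nat_lit 273150) (.g (nat_lit 2455) (.e (nat_lit 204829) (nat_lit 18) (.e (nat_lit 57927) (nat_lit 282) (.e (nat_lit 164084) (nat_lit 73) (.e (nat_lit 336021) (nat_lit 3) (.e (nat_lit 98365) (nat_lit 26) (.e (nat_lit 426099) (nat_lit 1) (.e (nat_lit 164332) (nat_lit 230) (.e (nat_lit 163874) (nat_lit 3) .nil)))))))) (.g (nat_lit 4) .nil .nil))))))))) 
(.nd (nat_lit 1) (.nd (nat_lit 2) (.nd (nat_lit 3) (.nd (nat_lit 4) (.nd (nat_lit 5) 
(.nd (nat_lit 6) 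
(.lf (nat_lit 273025) (.g (nat_lit 3120) (.e (nat_lit 204829) (nat_lit 18) (.e (nat_lit 57849) (nat_lit 252) (.e (nat_lit 57407) (nat_lit 12) (.e (nat_lit 336366) (nat_lit 27) (.e (nat_lit 426538) (nat_lit 29) (.e (nat_lit 360192) (nat_lit 3) .nil)))))) (.g (nat_lit 5) .nil .nil))) 
(.lf (nat_lit 273089) (.g (nat_lit 2979) (.e (nat_lit 204829) (nat_lit 18) (.e (nat_lit 57853) (nat_lit 252) (.e (nat_lit 57445) (nat_lit 19) (.e (nat_lit 393229) (nat_lit 9) (.e (nat_lit 336077) (nat_lit 9) .nil))))) .nil))) (.nd (nat_lit 6) 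
(.lf (nat_lit 273057) (.g (nat_lit 2834) (.e (nat_lit 204829) (nat_lit 18) (.e (nat_lit 57849) (nat_lit 252) (.e (nat_lit 57445) (nat_lit 19) (.e (nat_lit 393229) (nat_lit 9) (.e (nat_lit 336086) (nat_lit 9) (.e (nat_lit 336325) (nat_lit 18) .nil)))))) (.g (nat_lit 6) .nil .nil))) 
(.lf (nat_lit 273121) (.g (nat_lit 2524) (.e (nat_lit 204829) (nat_lit 18) (.e (nat_lit 57854) (nat_lit 252) (.e (nat_lit 57445) (nat_lit 19) (.e (nat_lit 393229) (nat_lit 9) (.e (nat_lit 336077) (nat_lit 9) (.e (nat_lit 336324) (nat_lit 18) .nil)))))) (.g (nat_lit 4) .nil .nil))))) (.nd (nat_lit 5) (.nd (nat_lit 6) 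
(.lf (nat_lit 273041) (.g (nat_lit 2986) (.e (nat_lit 204829) (nat_lit 18) (.e (nat_lit 57849) (nat_lit 252) (.e (nat_lit 57407) (nat_lit 12) (.e (nat_lit 336456) (nat_lit 34) (.e (nat_lit 483379) (nat_lit 23) (.e (nat_lit 336324) (nat_lit 18) .nil)))))) (.g (nat_lit 4) .nil .nil))) 
(.lf (nat_lit 273105) (.g (nat_lit 2520) (.e (nat_lit 204829) (nat_lit 18) (.e (nat_lit 57854) (nat_lit 252) (.e (nat_lit 57406) (nat_lit 12) (.e (nat_lit 336454) (nat_lit 34) (.e (nat_lit 483384) (nat_lit 23) (.e (nat_lit 336322) (nat_lit 18) .nil)))))) (.g (nat_lit 4) .nil .nil)))) (.nd (nat_lit 6) 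
(.lf (nat_lit 273073) (.g (nat_lit 1121) (.e (nat_lit 204829) (nat_lit 18) (.e (nat_lit 57849) (nat_lit 252) (.e (nat_lit 57448) (nat_lit 19) (.e (nat_lit 401152) (nat_lit 14) .nil)))) .nil)) 
(.lf (nat_lit 273137) (.g (nat_lit 2370) (.e (nat_lit 204829) (nat_lit 18) (.e (nat_lit 57926) (nat_lit 282) (.e (nat_lit 163874) (nat_lit 3) (.e (nat_lit 204863) (nat_lit 27) (.e (nat_lit 344120) (nat_lit 21) .nil))))) .nil))))) (.nd (nat_lit 4) (.nd (nat_lit 5) (.nd (nat_lit 6) 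
(.lf (nat_lit 273033) (.g (nat_lit 1949) (.e (nat_lit 204829) (nat_lit 18) (.e (nat_lit 57849) (nat_lit 252) (.e (nat_lit 57407) (nat_lit 12) (.e (nat_lit 336370) (nat_lit 27) .nil)))) .nil)) 
(.lf (nat_lit 273097) (.g (nat_lit 2227) (.e (nat_lit 204829) (nat_lit 18) (.e (nat_lit 57854) (nat_lit 252) (.e (nat_lit 57406) (nat_lit 12) (.e (nat_lit 336367) (nat_lit 27) (.e (nat_lit 426530) (nat_lit 27) (.e (nat_lit 336116) (nat_lit 9) (.e (nat_lit 336323) (nat_lit 18) .nil))))))) (.g (nat_lit 4) .nil .nil)))) (.nd (nat_lit 6) 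
(.lf (nat_lit 273065) (.g (nat_lit 1740) (.e (nat_lit 204829) (nat_lit 18) (.e (nat_lit 57849) (nat_lit 252) (.e (nat_lit 57448) (nat_lit 19) (.e (nat_lit 393221) (nat_lit 0) (.e (nat_lit 6112) (nat_lit 332) .nil))))) .nil)) 
(.lf (nat_lit 273129) (.g (nat_lit 3594) (.e (nat_lit 204829) (nat_lit 18) (.e (nat_lit 57854) (nat_lit 252) (.e (nat_lit 57447) (nat_lit 19) (.e (nat_lit 393229) (nat_lit 9) (.e (nat_lit 336076) (nat_lit 9) (.e (nat_lit 336324) (nat_lit 18) .nil)))))) (.g (nat_lit 0) .nil .nil))))) (.nd (nat_lit 5) (.nd (nat_lit 6) 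
(.lf (nat_lit 273049) (.g (nat_lit 1112) (.e (nat_lit 204829) (nat_lit 18) (.e (nat_lit 57849) (nat_lit 252) (.e (nat_lit 57445) (nat_lit 19) (.e (nat_lit 393225) (nat_lit 9) .nil)))) .nil)) 
(.lf (nat_lit 273113) (.g (nat_lit 1723) (.e (nat_lit 204829) (nat_lit 18) (.e (nat_lit 57854) (nat_lit 252) (.e (nat_lit 57409) (nat_lit 12) (.e (nat_lit 336367) (nat_lit 27) (.e (nat_lit 426539) (nat_lit 29) (.e (nat_lit 360192) (nat_lit 3) .nil)))))) (.g (nat_lit 5) .nil .nil)))) (.nd (nat_lit 6) 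
(.lf (nat_lit 273081) (.g (nat_lit 1326) (.e (nat_lit 204829) (nat_lit 18) (.e (nat_lit 57852) (nat_lit 252) (.e (nat_lit 57445) (nat_lit 19) (.e (nat_lit 401152) (nat_lit 11) .nil)))) .nil)) 
(.lf (nat_lit 273145) (.g (nat_lit 2574) (.e (nat_lit 204829) (nat_lit 18) (.e (nat_lit 57927) (nat_lit 282) (.e (nat_lit 163874) (nat_lit 3) (.e (nat_lit 204863) (nat_lit 27) (.e (nat_lit 344118) (nat_lit 21) .nil))))) .nil)))))) (.nd (nat_lit 3) (.nd (nat_lit 4) (.nd (nat_lit 5) (.nd (nat_lit 6) 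
(.lf (nat_lit 273029) (.g (nat_lit 2437) (.e (nat_lit 204829) (nat_lit 18) (.e (nat_lit 57849) (nat_lit 252) (.e (nat_lit 57407) (nat_lit 12) (.e (nat_lit 336367) (nat_lit 27) (.e (nat_lit 426542) (nat_lit 29) (.e (nat_lit 360192) (nat_lit 3) .nil)))))) (.g (nat_lit 4) .nil .nil))) 
(.lf (nat_lit 273093) (.g (nat_lit 2026) (.e (nat_lit 204829) (nat_lit 18) (.e (nat_lit 57854) (nat_lit 252) (.e (nat_lit 57373) (nat_lit 2) (.e (nat_lit 90128) (nat_lit 9) .nil)))) .nil))) (.nd (nat_lit 6) 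
(.lf (nat_lit 273061) (.g (nat_lit 1024) (.e (nat_lit 204829) (nat_lit 18) (.e (nat_lit 57849) (nat_lit 252) (.e (nat_lit 57445) (nat_lit 19) (.e (nat_lit 401152) (nat_lit 9) .nil)))) .nil)) 
(.lf (nat_lit 273125) (.g (nat_lit 1949) (.e (nat_lit 204829) (nat_lit 18) (.e (nat_lit 57854) (nat_lit 252) (.e (nat_lit 57447) (nat_lit 19) (.e (nat_lit 393225) (nat_lit 9) (.e (nat_lit 336075) (nat_lit 9) .nil))))) .nil)))) (.nd (nat_lit 5) (.nd (nat_lit 6) 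
(.lf (nat_lit 273045) (.g (nat_lit 3068) (.e (nat_lit 204829) (nat_lit 18) (.e (nat_lit 57849) (nat_lit 252) (.e (nat_lit 57411) (nat_lit 12) (.e (nat_lit 336019) (nat_lit 3) (.e (nat_lit 98356) (nat_lit 26) (.e (nat_lit 426422) (nat_lit 16) (.e (nat_lit 57692) (nat_lit 156) (.e (nat_lit 163874) (nat_lit 3) .nil)))))))) (.g (nat_lit 4) .nil .nil))) 
(.lf (nat_lit 273109) (.g (nat_lit 3152) (.e (nat_lit 204829) (nat_lit 18) (.e (nat_lit 57854) (nat_lit 252) (.e (nat_lit 57406) (nat_lit 12) (.e (nat_lit 336456) (nat_lit 34) (.e (nat_lit 483383) (nat_lit 23) (.e (nat_lit 336326) (nat_lit 18) .nil)))))) (.g (nat_lit 4) .nil .nil)))) (.nd (nat_lit 6) 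
(.lf (nat_lit 273077) (.g (nat_lit 3095) (.e (nat_lit 204829) (nat_lit 18) (.e (nat_lit 57852) (nat_lit 252) (.e (nat_lit 57406) (nat_lit 12) (.e (nat_lit 336454) (nat_lit 34) (.e (nat_lit 483383) (nat_lit 23) (.e (nat_lit 336324) (nat_lit 18) .nil)))))) (.g (nat_lit 4) .nil .nil))) 
(.lf (nat_lit 273141) (.g (nat_lit 1538) (.e (nat_lit 204829) (nat_lit 18) (.e (nat_lit 57927) (nat_lit 282) (.e (nat_lit 163868) (nat_lit 2) (.e (nat_lit 196670) (nat_lit 14) (.e (nat_lit 73746) (nat_lit 3) .nil))))) .nil))))) (.nd (nat_lit 4) (.nd (nat_lit 5) (.nd (nat_lit 6) 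
(.lf (nat_lit 273037) (.g (nat_lit 3205) (.e (nat_lit 204829) (nat_lit 18) (.e (nat_lit 57849) (nat_lit 252) (.e (nat_lit 57407) (nat_lit 12) (.e (nat_lit 336454) (nat_lit 34) (.e (nat_lit 483383) (nat_lit 23) (.e (nat_lit 336326) (nat_lit 18) .nil)))))) (.g (nat_lit 5) .nil .nil))) 
(.lf (nat_lit 273101) (.g (nat_lit 2396) (.e (nat_lit 204829) (nat_lit 18) (.e (nat_lit 57854) (nat_lit 252) (.e (nat_lit 57406) (nat_lit 12) (.e (nat_lit 336367) (nat_lit 27) (.e (nat_lit 426542) (nat_lit 29) (.e (nat_lit 360192) (nat_lit 3) .nil)))))) (.g (nat_lit 5) .nil .nil)))) (.nd (nat_lit 6) 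
(.lf (nat_lit 273069) (.g (nat_lit 2194) (.e (nat_lit 204829) (nat_lit 18) (.e (nat_lit 57849) (nat_lit 252) (.e (nat_lit 57448) (nat_lit 19) (.e (nat_lit 393229) (nat_lit 9) (.e (nat_lit 336077) (nat_lit 9) (.e (nat_lit 336324) (nat_lit 18) .nil)))))) (.g (nat_lit 4) .nil .nil))) 
(.lf (nat_lit 273133) (.g (nat_lit 2475) (.e (nat_lit 204829) (nat_lit 18) (.e (nat_lit 57926) (nat_lit 282) (.e (nat_lit 163868) (nat_lit 2) (.e (nat_lit 196668) (nat_lit 14) (.e (nat_lit 73746) (nat_lit 3) .nil))))) .nil)))) (.nd (nat_lit 5) (.nd (nat_lit 6) 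
(.lf (nat_lit 273053) (.g (nat_lit 747) (.e (nat_lit 204829) (nat_lit 18) (.e (nat_lit 57849) (nat_lit 252) (.e (nat_lit 57445) (nat_lit 19) (.e (nat_lit 393229) (nat_lit 9) .nil)))) .nil)) 
(.lf (nat_lit 273117) (.g (nat_lit 1679) (.e (nat_lit 204829) (nat_lit 18) (.e (nat_lit 57854) (nat_lit 252) (.e (nat_lit 57409) (nat_lit 12) (.e (nat_lit 336395) (nat_lit 27) .nil)))) .nil))) (.nd (nat_lit 6) 
(.lf (nat_lit 273085) (.g (nat_lit 541) (.e (nat_lit 204829) (nat_lit 18) (.e (nat_lit 57853) (nat_lit 252) (.e (nat_lit 57445) (nat_lit 19) .nil))) .nil)) 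
(.lf (nat_lit 273149) (.g (nat_lit 5041) (.e (nat_lit 204829) (nat_lit 18) (.e (nat_lit 57927) (nat_lit 282) (.e (nat_lit 164084) (nat_lit 73) (.e (nat_lit 336012) (nat_lit 2) (.e (nat_lit 90185) (nat_lit 17) (.e (nat_lit 237585) (nat_lit 1) (.e (nat_lit 164332) (nat_lit 230) (.e (nat_lit 163874) (nat_lit 3) .nil)))))))) (.g (nat_lit 8) .nil .nil)))))))) 
(.nd (nat_lit 2) (.nd (nat_lit 3) (.nd (nat_lit 4) (.nd (nat_lit 5) (.nd (nat_lit 6) 
(.lf (nat_lit 273027) (.g (nat_lit 2426) (.e (nat_lit 204829) (nat_lit 18) (.e (nat_lit 57849) (nat_lit 252) (.e (nat_lit 57407) (nat_lit 12) (.e (nat_lit 336367) (nat_lit 27) (.e (nat_lit 426538) (nat_lit 29) (.e (nat_lit 360192) (nat_lit 3) .nil)))))) (.g (nat_lit 4) .nil .nil))) 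
(.lf (nat_lit 273091) (.g (nat_lit 3504) (.e (nat_lit 204829) (nat_lit 18) (.e (nat_lit 57853) (nat_lit 252) (.e (nat_lit 57445) (nat_lit 19) (.e (nat_lit 393229) (nat_lit 9) (.e (nat_lit 336085) (nat_lit 9) (.e (nat_lit 336324) (nat_lit 18) .nil)))))) (.g (nat_lit 4) .nil .nil)))) (.nd (nat_lit 6) 
(.lf (nat_lit 273059) (.g (nat_lit 2494) (.e (nat_lit 204829) (nat_lit 18) (.e (nat_lit 57849) (nat_lit 252) (.e (nat_lit 57445) (nat_lit 19) (.e (nat_lit 393229) (nat_lit 9) (.e (nat_lit 343808) (nat_lit 9) .nil))))) .nil)) 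
(.lf (nat_lit 273123) (.g (nat_lit 3207) (.e (nat_lit 204829) (nat_lit 18) (.e (nat_lit 57854) (nat_lit 252) (.e (nat_lit 57445) (nat_lit 19) (.e (nat_lit 393229) (nat_lit 9) (.e (nat_lit 336087) (nat_lit 9) .nil))))) .nil)))) (.nd (nat_lit 5) (.nd (nat_lit 6) 
(.lf (nat_lit 273043) (.g (nat_lit 2700) (.e (nat_lit 204829) (nat_lit 18) (.e (nat_lit 57849) (nat_lit 252) (.e (nat_lit 57407) (nat_lit 12) (.e (nat_lit 336456) (nat_lit 34) (.e (nat_lit 483391) (nat_lit 23) (.e (nat_lit 336321) (nat_lit 18) .nil)))))) (.g (nat_lit 4) .nil .nil))) 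
(.lf (nat_lit 273107) (.g (nat_lit 2631) (.e (nat_lit 204829) (nat_lit 18) (.e (nat_lit 57854) (nat_lit 252) (.e (nat_lit 57406) (nat_lit 12) (.e (nat_lit 336456) (nat_lit 34) (.e (nat_lit 483379) (nat_lit 23) (.e (nat_lit 336322) (nat_lit 18) .nil)))))) (.g (nat_lit 4) .nil .nil)))) (.nd (nat_lit 6) 
(.lf (nat_lit 273075) (.g (nat_lit 483) (.e (nat_lit 204829) (nat_lit 18) (.e (nat_lit 57851) (nat_lit 252) (.e (nat_lit 57446) (nat_lit 19) .nil))) .nil)) 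
(.lf (nat_lit 273139) (.g (nat_lit 548) (.e (nat_lit 204829) (nat_lit 18) (.e (nat_lit 57927) (nat_lit 282) (.e (nat_lit 163865) (nat_lit 2) .nil))) .nil))))) (.nd (nat_lit 4) (.nd (nat_lit 5) (.nd (nat_lit 6) 
(.lf (nat_lit 273035) (.g (nat_lit 2090) (.e (nat_lit 204829) (nat_lit 18) (.e (nat_lit 57849) (nat_lit 252) (.e (nat_lit 57407) (nat_lit 12) (.e (nat_lit 336399) (nat_lit 27) .nil)))) .nil)) 
(.lf (nat_lit 273099) (.g (nat_lit 2008) (.e (nat_lit 204829) (nat_lit 18) (.e (nat_lit 57854) (nat_lit 252) (.e (nat_lit 57406) (nat_lit 12) (.e (nat_lit 336367) (nat_lit 27) (.e (nat_lit 426539) (nat_lit 29) (.e (nat_lit 360192) (nat_lit 3) .nil)))))) (.g (nat_lit 5) .nil .nil)))) (.nd (nat_lit 6) 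
(.lf (nat_lit 273067) (.g (nat_lit 1665) (.e (nat_lit 204829) (nat_lit 18) (.e (nat_lit 57849) (nat_lit 252) (.e (nat_lit 57448) (nat_lit 19) (.e (nat_lit 393227) (nat_lit 9) (.e (nat_lit 336151) (nat_lit 9) (.e (nat_lit 343808) (nat_lit 18) .nil)))))) (.g (nat_lit 5) .nil .nil))) 
(.lf (nat_lit 273131) (.g (nat_lit 1460) (.e (nat_lit 204829) (nat_lit 18) (.e (nat_lit 57926) (nat_lit 282) (.e (nat_lit 163868) (nat_lit 2) (.e (nat_lit 196663) (nat_lit 13) .nil)))) .nil)))) (.nd (nat_lit 5) (.nd (nat_lit 6) 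
(.lf (nat_lit 273051) (.g (nat_lit 1901) (.e (nat_lit 204829) (nat_lit 18) (.e (nat_lit 57849) (nat_lit 252) (.e (nat_lit 57445) (nat_lit 19) (.e (nat_lit 393227) (nat_lit 9) (.e (nat_lit 336152) (nat_lit 9) (.e (nat_lit 336323) (nat_lit 18) .nil)))))) (.g (nat_lit 5) .nil .nil))) 
(.lf (nat_lit 273115) (.g (nat_lit 2150) (.e (nat_lit 204829) (nat_lit 18) (.e (nat_lit 57854) (nat_lit 252) (.e (nat_lit 57409) (nat_lit 12) (.e (nat_lit 336367) (nat_lit 27) (.e (nat_lit 426542) (nat_lit 29) (.e (nat_lit 360192) (nat_lit 3) .nil)))))) (.g (nat_lit 5) .nil .nil)))) (.nd (nat_lit 6) 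
(.lf (nat_lit 273083) (.g (nat_lit 3069) (.e (nat_lit 204829) (nat_lit 18) (.e (nat_lit 57853) (nat_lit 252) (.e (nat_lit 57406) (nat_lit 12) (.e (nat_lit 336454) (nat_lit 34) (.e (nat_lit 483382) (nat_lit 23) (.e (nat_lit 336324) (nat_lit 18) .nil)))))) (.g (nat_lit 4) .nil .nil))) 
(.lf (nat_lit 273147) (.g (nat_lit 864) (.e (nat_lit 204829) (nat_lit 18) (.e (nat_lit 57927) (nat_lit 282) (.e (nat_lit 163875) (nat_lit 3) (.e (nat_lit 204872) (nat_lit 30) .nil)))) .nil)))))) (.nd (nat_lit 3) (.nd (nat_lit 4) (.nd (nat_lit 5) (.nd (nat_lit 6) 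
(.lf (nat_lit 273031) (.g (nat_lit 2090) (.e (nat_lit 204829) (nat_lit 18) (.e (nat_lit 57849) (nat_lit 252) (.e (nat_lit 57407) (nat_lit 12) (.e (nat_lit 336368) (nat_lit 27) .nil)))) .nil)) 
(.lf (nat_lit 273095) (.g (nat_lit 2309) (.e (nat_lit 204829) (nat_lit 18) (.e (nat_lit 57854) (nat_lit 252) (.e (nat_lit 57373) (nat_lit 2) (.e (nat_lit 90160) (nat_lit 11) .nil)))) .nil))) (.nd (nat_lit 6) 
(.lf (nat_lit 273063) (.g (nat_lit 1029) (.e (nat_lit 204829) (nat_lit 18) (.e (nat_lit 57849) (nat_lit 252) (.e (nat_lit 57447) (nat_lit 19) .nil))) .nil)) 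
(.lf (nat_lit 273127) (.g (nat_lit 1271) (.e (nat_lit 204829) (nat_lit 18) (.e (nat_lit 57854) (nat_lit 252) (.e (nat_lit 57447) (nat_lit 19) (.e (nat_lit 393228) (nat_lit 9) .nil)))) .nil)))) (.nd (nat_lit 5) (.nd (nat_lit 6) 
(.lf (nat_lit 273047) (.g (nat_lit 2660) (.e (nat_lit 204829) (nat_lit 18) (.e (nat_lit 57849) (nat_lit 252) (.e (nat_lit 57411) (nat_lit 12) (.e (nat_lit 336454) (nat_lit 34) (.e (nat_lit 483383) (nat_lit 23) (.e (nat_lit 336326) (nat_lit 18) .nil)))))) (.g (nat_lit 5) .nil .nil))) 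
(.lf (nat_lit 273111) (.g (nat_lit 2090) (.e (nat_lit 204829) (nat_lit 18) (.e (nat_lit 57854) (nat_lit 252) (.e (nat_lit 57409) (nat_lit 12) (.e (nat_lit 336366) (nat_lit 27) (.e (nat_lit 426538) (nat_lit 29) (.e (nat_lit 360192) (nat_lit 3) .nil)))))) (.g (nat_lit 4) .nil .nil)))) (.nd (nat_lit 6) 
(.lf (nat_lit 273079) (.g (nat_lit 2837) (.e (nat_lit 204829) (nat_lit 18) (.e (nat_lit 57852) (nat_lit 252) (.e (nat_lit 57445) (nat_lit 19) (.e (nat_lit 393229) (nat_lit 9) (.e (nat_lit 336085) (nat_lit 9) .nil))))) .nil)) 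
(.lf (nat_lit 273143) (.g (nat_lit 2025) (.e (nat_lit 204829) (nat_lit 18) (.e (nat_lit 57927) (nat_lit 282) (.e (nat_lit 163874) (nat_lit 3) (.e (nat_lit 204862) (nat_lit 27) (.e (nat_lit 344117) (nat_lit 21) .nil))))) .nil))))) (.nd (nat_lit 4) (.nd (nat_lit 5) (.nd (nat_lit 6) 
(.lf (nat_lit 273039) (.g (nat_lit 1829) (.e (nat_lit 204829) (nat_lit 18) (.e (nat_lit 57849) (nat_lit 252) (.e (nat_lit 57407) (nat_lit 12) (.e (nat_lit 336455) (nat_lit 34) .nil)))) .nil)) 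
(.lf (nat_lit 273103) (.g (nat_lit 1216) (.e (nat_lit 204829) (nat_lit 18) (.e (nat_lit 57854) (nat_lit 252) (.e (nat_lit 57406) (nat_lit 12) (.e (nat_lit 336370) (nat_lit 27) .nil)))) .nil))) (.nd (nat_lit 6) 
(.lf (nat_lit 273071) (.g (nat_lit 2258) (.e (nat_lit 204829) (nat_lit 18) (.e (nat_lit 57849) (nat_lit 252) (.e (nat_lit 57448) (nat_lit 19) (.e (nat_lit 393229) (nat_lit 9) (.e (nat_lit 336086) (nat_lit 9) (.e (nat_lit 343808) (nat_lit 18) .nil)))))) (.g (nat_lit 5) .nil .nil))) 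
(.lf (nat_lit 273135) (.g (nat_lit 2159) (.e (nat_lit 204829) (nat_lit 18) (.e (nat_lit 57926) (nat_lit 282) (.e (nat_lit 163871) (nat_lit 2) (.e (nat_lit 196668) (nat_lit 14) (.e (nat_lit 73746) (nat_lit 3) .nil))))) .nil)))) (.nd (nat_lit 5) (.nd (nat_lit 6) 
(.lf (nat_lit 273055) (.g (nat_lit 1958) (.e (nat_lit 204829) (nat_lit 18) (.e (nat_lit 57849) (nat_lit 252) (.e (nat_lit 57445) (nat_lit 19) (.e (nat_lit 393229) (nat_lit 9) (.e (nat_lit 336084) (nat_lit 9) .nil))))) .nil)) 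
(.lf (nat_lit 273119) (.g (nat_lit 3398) (.e (nat_lit 204829) (nat_lit 18) (.e (nat_lit 57854) (nat_lit 252) (.e (nat_lit 57409) (nat_lit 12) (.e (nat_lit 336454) (nat_lit 34) (.e (nat_lit 483383) (nat_lit 23) (.e (nat_lit 336324) (nat_lit 18) .nil)))))) (.g (nat_lit 0) .nil .nil)))) (.nd (nat_lit 6) 
(.lf (nat_lit 273087) (.g (nat_lit 2918) (.e (nat_lit 204829) (nat_lit 18) (.e (nat_lit 57853) (nat_lit 252) (.e (nat_lit 57445) (nat_lit 19) (.e (nat_lit 393225) (nat_lit 9) (.e (nat_lit 336078) (nat_lit 9) (.e (nat_lit 336324) (nat_lit 18) .nil)))))) (.g (nat_lit 4) .nil .nil))) 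
(.lf (nat_lit 273151) (.g (nat_lit 3346) (.e (nat_lit 204829) (nat_lit 18) (.e (nat_lit 57927) (nat_lit 282) (.e (nat_lit 164084) (nat_lit 73) (.e (nat_lit 336021) (nat_lit 3) (.e (nat_lit 98365) (nat_lit 26) (.e (nat_lit 426100) (nat_lit 1) (.e (nat_lit 164332) (nat_lit 230) (.e (nat_lit 163874) (nat_lit 3) .nil)))))))) (.g (nat_lit 5) .nil .nil))))))))))


end

end Pool.Agent.Lib.MP_5854e1_co.Cz
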